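import Mathlib

/-! The parts of this file: MQ.GDefs, MQ.Green. -/

section

/-!
Real calculus on the complex plane for the project MQ: gradient, divergence, Laplacian,
integration by parts against compactly supported functions.
-/

namespace Pool.Agent.MQ

open MeasureTheory Complex

/-- Gradient of a real function of a complex variable, as a complex number. -/
noncomputable def gr (u : ℂ → ℝ) (z : ℂ) : ℂ := ⟨fderiv ℝ u z 1, fderiv ℝ u z Complex.I⟩

/-- The real inner product of the plane. -/
def ip (a b : ℂ) : ℝ := a.re * b.re + a.im * b.im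

/-- Divergence of a vector field. -/
noncomputable def dv (V : ℂ → ℂ) (z : ℂ) : ℝ :=
  (fderiv ℝ V z 1).re + (fderiv ℝ V z Complex.I).im

/-- Laplacian. -/
noncomputable def lp (u : ℂ → ℝ) (z : ℂ) : ℝ := dv (gr u) z

lemma ip_self (a : ℂ) : ip a a = ‖a‖ ^ 2 := by
  unfold ip; rw [Complex.sq_norm, Complex.normSq_apply]

@[simp] lemma ip_zero_left (b : ℂ) : ip 0 b = 0 := by simp [ip]

@[simp] lemma gr_re (u : ℂ → ℝ) (z : ℂ) : (gr u z).re = fderiv ℝ u z 1 := rfl
@[simp] lemma gr_im (u : ℂ → ℝ) (z : ℂ) : (gr u z).im = fderiv ℝ u z Complex.I := rfl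

/-- The gradient as a continuous linear image of the derivative. -/
noncomputable def grL : (ℂ →L[ℝ] ℝ) →L[ℝ] ℂ :=
  LinearMap.toContinuousLinearMap
    { toFun := fun L => (⟨L 1, L Complex.I⟩ : ℂ)
      map_add' := fun a b => by apply Complex.ext <;> simp
      map_smul' := fun c a => by apply Complex.ext <;> simp }

lemma grL_apply (L : ℂ →L[ℝ] ℝ) : grL L = ⟨L 1, L Complex.I⟩ := rfl

lemma gr_eq (u : ℂ → ℝ) (z : ℂ) : gr u z = grL (fderiv ℝ u z) := rfl

lemma _root_.HasFDerivAt.gr {u : ℂ → ℝ} {z : ℂ} {L : ℂ →L[ℝ] ℝ} (h : HasFDerivAt u L z) :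
    gr u z = grL L := by rw [gr_eq, h.fderiv]

/-- Symmetry in the neighbourhood: the gradient only depends on the germ. -/
lemma gr_congr {u v : ℂ → ℝ} {z : ℂ} (h : u =ᶠ[nhds z] v) : gr u z = gr v z := by
  rw [gr_eq, gr_eq, h.fderiv_eq]

lemma gr_eventuallyEq {u v : ℂ → ℝ} {z : ℂ} (h : u =ᶠ[nhds z] v) : gr u =ᶠ[nhds z] gr v := by
  filter_upwards [h.eventuallyEq_nhds] with w hw using gr_congr hw

/-! ### algebra of gradients -/

@[simp] lemma gr_const (c : ℝ) (z : ℂ) : gr (fun _ => c) z = 0 := by
  rw [(hasFDerivAt_const c z).gr, map_zero]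

/-! ### algebra of divergences -/

end Pool.Agent.MQ

end

section

/-!
Integration by parts against compactly supported functions on the complex plane
(first and second Green identity), for the project MQ.
-/

namespace Pool.Agent.MQ

open MeasureTheory Complex

/-! ### regularity -/

lemma contDiffAt_gr {u : ℂ → ℝ} {z : ℂ} {m n : WithTop ℕ∞} (hu : ContDiffAt ℝ n u z)
    (hmn : m + 1 ≤ n) : ContDiffAt ℝ m (gr u) z :=
  grL.contDiff.contDiffAt.comp z (hu.fderiv_right hmn)

lemma contDiff_gr {u : ℂ → ℝ} {m n : WithTop ℕ∞} (hu : ContDiff ℝ n u)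
    (hmn : m + 1 ≤ n) : ContDiff ℝ m (gr u) :=
  grL.contDiff.comp (hu.fderiv_right hmn)

lemma continuousAt_gr {u : ℂ → ℝ} {z : ℂ} (hu : ContDiffAt ℝ 1 u z) : ContinuousAt (gr u) z :=
  (contDiffAt_gr (m := 0) hu (by norm_num)).continuousAt

lemma continuous_gr {u : ℂ → ℝ} (hu : ContDiff ℝ 1 u) : Continuous (gr u) :=
  (contDiff_gr (m := 0) hu (by norm_num)).continuous

lemma continuousAt_dv {V : ℂ → ℂ} {z : ℂ} (hV : ContDiffAt ℝ 1 V z) : ContinuousAt (dv V) z := by
  have h : ContinuousAt (fderiv ℝ V) z := (hV.fderiv_right (m := 0) (by norm_num)).continuousAt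
  have h1 : ContinuousAt (fun w => (fderiv ℝ V w 1).re) z :=
    Complex.continuous_re.continuousAt.comp (h.clm_apply continuousAt_const)
  have h2 : ContinuousAt (fun w => (fderiv ℝ V w Complex.I).im) z :=
    Complex.continuous_im.continuousAt.comp (h.clm_apply continuousAt_const)
  exact h1.add h2

lemma continuousAt_lp {u : ℂ → ℝ} {z : ℂ} (hu : ContDiffAt ℝ 2 u z) : ContinuousAt (lp u) z :=
  continuousAt_dv (contDiffAt_gr hu (by norm_num))

lemma differentiableAt_gr {u : ℂ → ℝ} {z : ℂ} (hu : ContDiffAt ℝ 2 u z) :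
    DifferentiableAt ℝ (gr u) z :=
  (contDiffAt_gr (m := 1) hu (by norm_num)).differentiableAt (by norm_num)

lemma tsupport_gr (u : ℂ → ℝ) : tsupport (gr u) ⊆ tsupport u := by
  intro z hz
  by_contra h
  have h1 : u =ᶠ[nhds z] 0 := notMem_tsupport_iff_eventuallyEq.1 h
  have h2 : gr u =ᶠ[nhds z] 0 := by
    filter_upwards [gr_eventuallyEq h1] with w hw
    rw [hw]; exact gr_const 0 w
  exact (notMem_tsupport_iff_eventuallyEq.2 h2) hz

lemma hasCompactSupport_gr {u : ℂ → ℝ} (hc : HasCompactSupport u) : HasCompactSupport (gr u) :=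
  hc.of_isClosed_subset (isClosed_tsupport _) (tsupport_gr u)

/-- Products with a factor supported where the other factor is continuous. -/
lemma cont_mul {f g : ℂ → ℝ} (hg : Continuous g) (hf : ∀ z ∈ tsupport g, ContinuousAt f z) :
    Continuous (fun z => g z * f z) := by
  rw [continuous_iff_continuousAt]
  intro z
  by_cases hz : z ∈ tsupport g
  · exact hg.continuousAt.mul (hf z hz)
  · have h1 : g =ᶠ[nhds z] 0 := notMem_tsupport_iff_eventuallyEq.1 hz
    have h2 : (fun w => g w * f w) =ᶠ[nhds z] (fun _ => 0) := by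
      filter_upwards [h1] with w hw
      rw [hw]; simp
    exact h2.continuousAt

lemma cont_ip {V W : ℂ → ℂ} (hV : Continuous V) (hW : ∀ z ∈ tsupport V, ContinuousAt W z) :
    Continuous (fun z => ip (V z) (W z)) := by
  rw [continuous_iff_continuousAt]
  intro z
  by_cases hz : z ∈ tsupport V
  · have hW' := hW z hz
    have h1 : ContinuousAt (fun w => (V w).re * (W w).re) z :=
      (Complex.continuous_re.comp hV).continuousAt.mul
        (Complex.continuous_re.continuousAt.comp hW')
    have h2 : ContinuousAt (fun w => (V w).im * (W w).im) z :=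
      (Complex.continuous_im.comp hV).continuousAt.mul
        (Complex.continuous_im.continuousAt.comp hW')
    exact h1.add h2
  · have h1 : V =ᶠ[nhds z] 0 := notMem_tsupport_iff_eventuallyEq.1 hz
    have h2 : (fun w => ip (V w) (W w)) =ᶠ[nhds z] (fun _ => 0) := by
      filter_upwards [h1] with w hw
      rw [hw]; simp
    exact h2.continuousAt

lemma int_mul {f g : ℂ → ℝ} (hg : Continuous g) (hc : HasCompactSupport g)
    (hf : ∀ z ∈ tsupport g, ContinuousAt f z) : Integrable (fun z => g z * f z) :=
  (cont_mul hg hf).integrable_of_hasCompactSupport hc.mul_right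

lemma int_ip {V W : ℂ → ℂ} (hV : Continuous V) (hc : HasCompactSupport V)
    (hW : ∀ z ∈ tsupport V, ContinuousAt W z) : Integrable (fun z => ip (V z) (W z)) := by
  apply (cont_ip hV hW).integrable_of_hasCompactSupport
  apply hc.of_isClosed_subset (isClosed_tsupport _)
  apply closure_mono
  intro z hz h0
  apply hz
  simp only [h0, ip_zero_left]

/-! ### integration by parts -/

/-- Integration by parts in one direction. -/
theorem ibp_dir {g f : ℂ → ℝ} (e : ℂ) (hg : ContDiff ℝ 1 g) (hc : HasCompactSupport g)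
    (hf : ∀ z ∈ tsupport g, ContDiffAt ℝ 1 f z) :
    ∫ z, fderiv ℝ g z e * f z = - ∫ z, g z * fderiv ℝ f z e := by
  have hgd : ∀ z, DifferentiableAt ℝ g z := fun z => hg.differentiable (by norm_num) z
  have hgc : Continuous (fun z => fderiv ℝ g z e) :=
    (hg.continuous_fderiv (by norm_num)).clm_apply continuous_const
  have hsup : tsupport (fun z => fderiv ℝ g z e) ⊆ tsupport g := by
    intro z hz
    by_contra h
    have h1 : g =ᶠ[nhds z] 0 := notMem_tsupport_iff_eventuallyEq.1 h
    have h2 : (fun w => fderiv ℝ g w e) =ᶠ[nhds z] 0 := by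
      filter_upwards [h1.eventuallyEq_nhds] with w hw
      rw [hw.fderiv_eq]
      simp
    exact (notMem_tsupport_iff_eventuallyEq.2 h2) hz
  have hcc : HasCompactSupport (fun z => fderiv ℝ g z e) :=
    hc.of_isClosed_subset (isClosed_tsupport _) hsup
  have i1 : Integrable (fun z => fderiv ℝ g z e * f z) :=
    int_mul hgc hcc (fun z hz => (hf z (hsup hz)).continuousAt)
  have i2 : Integrable (fun z => g z * fderiv ℝ f z e) := by
    apply int_mul hg.continuous hc
    intro z hz
    have h := ((hf z hz).fderiv_right (m := 0) (by norm_num)).continuousAt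
    exact h.clm_apply continuousAt_const
  have i3 : Integrable (fun z => g z * f z) :=
    int_mul hg.continuous hc (fun z hz => (hf z hz).continuousAt)
  have key := integral_mul_fderiv_eq_neg_fderiv_mul_of_integrable (μ := (volume : Measure ℂ))
    (f := g) (g := f) (v := e) i1 i2 i3 (fun z _ => hgd z)
    (fun z hz => (hf z hz).differentiableAt (by norm_num))
  rw [key, neg_neg]

/-- Integration by parts for gradients and divergences. -/
theorem ibp {g : ℂ → ℝ} {V : ℂ → ℂ} (hg : ContDiff ℝ 1 g) (hc : HasCompactSupport g)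
    (hV : ∀ z ∈ tsupport g, ContDiffAt ℝ 1 V z) :
    ∫ z, ip (gr g z) (V z) = - ∫ z, g z * dv V z := by
  have hre : ∀ z ∈ tsupport g, ContDiffAt ℝ 1 (fun w => (V w).re) z := fun z hz =>
    Complex.reCLM.contDiff.contDiffAt.comp z (hV z hz)
  have him : ∀ z ∈ tsupport g, ContDiffAt ℝ 1 (fun w => (V w).im) z := fun z hz =>
    Complex.imCLM.contDiff.contDiffAt.comp z (hV z hz)
  have e1 := ibp_dir 1 hg hc hre
  have e2 := ibp_dir Complex.I hg hc him
  have f1 : (fun z => g z * fderiv ℝ (fun w => (V w).re) z 1) =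
      fun z => g z * (fderiv ℝ V z 1).re := by
    funext z
    by_cases hz : z ∈ tsupport g
    · have h : HasFDerivAt (fun w => (V w).re) (Complex.reCLM.comp (fderiv ℝ V z)) z :=
        Complex.reCLM.hasFDerivAt.comp z ((hV z hz).differentiableAt (by norm_num)).hasFDerivAt
      rw [h.fderiv]; rfl
    · rw [image_eq_zero_of_notMem_tsupport hz]; simp
  have f2 : (fun z => g z * fderiv ℝ (fun w => (V w).im) z Complex.I) =
      fun z => g z * (fderiv ℝ V z Complex.I).im := by
    funext z
    by_cases hz : z ∈ tsupport g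
    · have h : HasFDerivAt (fun w => (V w).im) (Complex.imCLM.comp (fderiv ℝ V z)) z :=
        Complex.imCLM.hasFDerivAt.comp z ((hV z hz).differentiableAt (by norm_num)).hasFDerivAt
      rw [h.fderiv]; rfl
    · rw [image_eq_zero_of_notMem_tsupport hz]; simp
  rw [f1] at e1
  rw [f2] at e2
  have hgr : Continuous (gr g) := continuous_gr hg
  have hgrc := hasCompactSupport_gr hc
  have hfd : ∀ z ∈ tsupport g, ContinuousAt (fderiv ℝ V) z := fun z hz =>
    ((hV z hz).fderiv_right (m := 0) (by norm_num)).continuousAt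
  have i1 : Integrable (fun z => fderiv ℝ g z 1 * (V z).re) := by
    refine int_mul (Complex.continuous_re.comp hgr) ?_ ?_
    · exact hgrc.comp_left (g := Complex.re) rfl
    · intro z hz
      have hz' : z ∈ tsupport g := tsupport_gr g (by
        refine closure_mono ?_ hz
        intro w hw h0
        apply hw
        show (gr g w).re = 0
        rw [h0]; rfl)
      exact (hre z hz').continuousAt
  have i2 : Integrable (fun z => fderiv ℝ g z Complex.I * (V z).im) := by
    refine int_mul (Complex.continuous_im.comp hgr) ?_ ?_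
    · exact hgrc.comp_left (g := Complex.im) rfl
    · intro z hz
      have hz' : z ∈ tsupport g := tsupport_gr g (by
        refine closure_mono ?_ hz
        intro w hw h0
        apply hw
        show (gr g w).im = 0
        rw [h0]; rfl)
      exact (him z hz').continuousAt
  have j1 : Integrable (fun z => g z * (fderiv ℝ V z 1).re) :=
    int_mul hg.continuous hc (fun z hz =>
      Complex.continuous_re.continuousAt.comp ((hfd z hz).clm_apply continuousAt_const))
  have j2 : Integrable (fun z => g z * (fderiv ℝ V z Complex.I).im) :=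
    int_mul hg.continuous hc (fun z hz =>
      Complex.continuous_im.continuousAt.comp ((hfd z hz).clm_apply continuousAt_const))
  have L : (fun z => ip (gr g z) (V z)) =
      fun z => fderiv ℝ g z 1 * (V z).re + fderiv ℝ g z Complex.I * (V z).im := rfl
  have R : (fun z => g z * dv V z) =
      fun z => g z * (fderiv ℝ V z 1).re + g z * (fderiv ℝ V z Complex.I).im := by
    funext z; unfold dv; ring
  rw [L, R, integral_add i1 i2, integral_add j1 j2, e1, e2]
  ring

end Pool.Agent.MQ

end
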