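import Mathlib

/-! The parts of this file: H30M.Green, H30M.Calc, H30M.PL. -/

section

/-!
# Green's identities for test functions on the complex plane
-/

set_option autoImplicit false

open MeasureTheory Complex Set Filter Topology Laplacian InnerProductSpace

namespace Pool.Agent.H30M

theorem integrable_of_ts {f : ℂ → ℝ} (hf : ∀ z ∈ tsupport f, ContinuousAt f z) (hc : HasCompactSupport f) :
    Integrable f := by
  have h : Continuous f := by
    rw [continuous_iff_continuousAt]
    intro z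
    by_cases hz : z ∈ tsupport f
    · exact hf z hz
    · have h0 : f =ᶠ[𝓝 z] fun _ => 0 := by
        have := (isClosed_tsupport f).isOpen_compl.mem_nhds hz
        filter_upwards [this] with w hw
        exact image_eq_zero_of_notMem_tsupport hw
      exact (continuousAt_const (y := (0 : ℝ))).congr h0.symm
  exact h.integrable_of_hasCompactSupport hc

theorem hcs_of_sub {a f : ℂ → ℝ} (hc : HasCompactSupport a) (h : tsupport f ⊆ tsupport a) : HasCompactSupport f :=
  IsCompact.of_isClosed_subset hc (isClosed_tsupport f) h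

theorem ts_fderiv (a : ℂ → ℝ) (v : ℂ) : tsupport (fun z => fderiv ℝ a z v) ⊆ tsupport a :=
  closure_minimal (fun z hz => by
    apply support_fderiv_subset ℝ (f := a)
    intro h
    exact hz (by simp [h])) (isClosed_tsupport a)

/-- **Integration by parts** in the direction `v`; `b` has only to be `C¹` near the support of `a`. -/
theorem ibp {a b : ℂ → ℝ} (ha : ContDiff ℝ 1 a) (hc : HasCompactSupport a)
    (hb : ∀ z ∈ tsupport a, ContDiffAt ℝ 1 b z) (v : ℂ) :
    ∫ z, a z * fderiv ℝ b z v = - ∫ z, fderiv ℝ a z v * b z := by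
  have ha1 : Continuous fun z => fderiv ℝ a z v := (ha.continuous_fderiv (by norm_num)).clm_apply continuous_const
  apply integral_mul_fderiv_eq_neg_fderiv_mul_of_integrable
  · have hs : tsupport (fun z => fderiv ℝ a z v * b z) ⊆ tsupport a :=
      (tsupport_mul_subset_left (f := fun z => fderiv ℝ a z v) (g := b)).trans (ts_fderiv a v)
    exact integrable_of_ts (fun z hz => ha1.continuousAt.mul (hb z (hs hz)).continuousAt) (hcs_of_sub hc hs)
  · have hs : tsupport (fun z => a z * fderiv ℝ b z v) ⊆ tsupport a :=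
      tsupport_mul_subset_left (f := a) (g := fun z => fderiv ℝ b z v)
    exact integrable_of_ts (fun z hz => ha.continuous.continuousAt.mul
      (((hb z (hs hz)).fderiv_right (m := 0) (by norm_num)).continuousAt.clm_apply continuousAt_const))
      (hcs_of_sub hc hs)
  · have hs : tsupport (fun z => a z * b z) ⊆ tsupport a := tsupport_mul_subset_left (f := a) (g := b)
    exact integrable_of_ts (fun z hz => ha.continuous.continuousAt.mul (hb z (hs hz)).continuousAt)
      (hcs_of_sub hc hs)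
  · exact fun z _ => ha.contDiffAt.differentiableAt (by norm_num)
  · exact fun z hz => (hb z hz).differentiableAt (by norm_num)

/-- The Laplacian of a `C²` function by partial derivatives. -/
theorem lap_eq {u : ℂ → ℝ} {z : ℂ} (hu : ContDiffAt ℝ 2 u z) :
    Δ u z = fderiv ℝ (fun w => fderiv ℝ u w 1) z 1 + fderiv ℝ (fun w => fderiv ℝ u w I) z I := by
  have hd : DifferentiableAt ℝ (fderiv ℝ u) z := (hu.fderiv_right (m := 1) (by norm_num)).differentiableAt (by norm_num)
  have key : ∀ v : ℂ, fderiv ℝ (fun w => fderiv ℝ u w v) z v = iteratedFDeriv ℝ 2 u z ![v, v] := by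
    intro v
    rw [iteratedFDeriv_two_apply]
    rw [fderiv_clm_apply hd (by fun_prop)]
    simp
  rw [laplacian_eq_iteratedFDeriv_complexPlane, key, key]

theorem contDiffAt_d {u : ℂ → ℝ} {z : ℂ} (hu : ContDiffAt ℝ 2 u z) (v : ℂ) :
    ContDiffAt ℝ 1 (fun w => fderiv ℝ u w v) z :=
  (hu.fderiv_right (m := 1) (by norm_num)).clm_apply contDiffAt_const

theorem lap_of_not_ts {a : ℂ → ℝ} {z : ℂ} (hz : z ∉ tsupport a) : Δ a z = 0 := by
  have h0 : a =ᶠ[𝓝 z] fun _ => 0 := by
    have := (isClosed_tsupport a).isOpen_compl.mem_nhds hz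
    filter_upwards [this] with w hw
    exact image_eq_zero_of_notMem_tsupport hw
  rw [laplacian_congr_nhds h0 |>.eq_of_nhds]
  simp [laplacian_const]

theorem ts_lap (a : ℂ → ℝ) : tsupport (Δ a) ⊆ tsupport a :=
  closure_minimal (fun z hz => by
    by_contra h
    exact hz (lap_of_not_ts h)) (isClosed_tsupport a)

/-- **Green's first identity** -/
theorem green1 {a u : ℂ → ℝ} (ha : ContDiff ℝ 1 a) (hc : HasCompactSupport a)
    (hu : ∀ z ∈ tsupport a, ContDiffAt ℝ 2 u z) :
    ∫ z, a z * Δ u z = - ∫ z, (fderiv ℝ a z 1 * fderiv ℝ u z 1 + fderiv ℝ a z I * fderiv ℝ u z I) := by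
  have h1 := ibp ha hc (fun z hz => contDiffAt_d (hu z hz) 1) 1
  have h2 := ibp ha hc (fun z hz => contDiffAt_d (hu z hz) I) I
  have e : ∀ z, a z * Δ u z = a z * fderiv ℝ (fun w => fderiv ℝ u w 1) z 1
      + a z * fderiv ℝ (fun w => fderiv ℝ u w I) z I := by
    intro z
    by_cases hz : z ∈ tsupport a
    · rw [lap_eq (hu z hz)]; ring
    · rw [image_eq_zero_of_notMem_tsupport hz]; ring
  have i1 : ∀ v : ℂ, Integrable fun z => a z * fderiv ℝ (fun w => fderiv ℝ u w v) z v := by
    intro v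
    have hs : tsupport (fun z => a z * fderiv ℝ (fun w => fderiv ℝ u w v) z v) ⊆ tsupport a :=
      tsupport_mul_subset_left (f := a) (g := fun z => fderiv ℝ (fun w => fderiv ℝ u w v) z v)
    refine integrable_of_ts (fun z hz => ha.continuous.continuousAt.mul ?_) (hcs_of_sub hc hs)
    exact (((contDiffAt_d (hu z (hs hz)) v).fderiv_right (m := 0) (by norm_num)).continuousAt.clm_apply
      continuousAt_const)
  have i2 : ∀ v : ℂ, Integrable fun z => fderiv ℝ a z v * fderiv ℝ u z v := by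
    intro v
    have hs : tsupport (fun z => fderiv ℝ a z v * fderiv ℝ u z v) ⊆ tsupport a :=
      (tsupport_mul_subset_left (f := fun z => fderiv ℝ a z v) (g := fun z => fderiv ℝ u z v)).trans (ts_fderiv a v)
    refine integrable_of_ts (fun z hz => ?_) (hcs_of_sub hc hs)
    exact ((ha.continuous_fderiv (by norm_num)).clm_apply continuous_const).continuousAt.mul
      (contDiffAt_d (hu z (hs hz)) v).continuousAt
  rw [integral_congr_ae (Eventually.of_forall e), integral_add (i1 1) (i1 I), h1, h2,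
    integral_add (i2 1) (i2 I)]
  ring

/-- **Green's second identity** -/
theorem green2 {a u : ℂ → ℝ} (ha : ContDiff ℝ 2 a) (hc : HasCompactSupport a)
    (hu : ∀ z ∈ tsupport a, ContDiffAt ℝ 2 u z) :
    ∫ z, a z * Δ u z = ∫ z, Δ a z * u z := by
  rw [green1 (ha.of_le (by norm_num)) hc hu]
  have hu1 : ∀ z ∈ tsupport a, ContDiffAt ℝ 1 u z := fun z hz => (hu z hz).of_le (by norm_num)
  have hd : ∀ v : ℂ, ContDiff ℝ 1 fun z => fderiv ℝ a z v := fun v =>
    (ha.fderiv_right (m := 1) (by norm_num)).clm_apply contDiff_const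
  have h1 : ∀ v : ℂ, ∫ z, fderiv ℝ a z v * fderiv ℝ u z v
      = - ∫ z, fderiv ℝ (fun w => fderiv ℝ a w v) z v * u z := fun v =>
    ibp (hd v) (hcs_of_sub hc (ts_fderiv a v)) (fun z hz => hu1 z (ts_fderiv a v hz)) v
  have e : ∀ z, Δ a z * u z = fderiv ℝ (fun w => fderiv ℝ a w 1) z 1 * u z
      + fderiv ℝ (fun w => fderiv ℝ a w I) z I * u z := by
    intro z
    rw [lap_eq ha.contDiffAt]; ring
  have i1 : ∀ v : ℂ, Integrable fun z => fderiv ℝ (fun w => fderiv ℝ a w v) z v * u z := by
    intro v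
    have hs : tsupport (fun z => fderiv ℝ (fun w => fderiv ℝ a w v) z v * u z) ⊆ tsupport a :=
      (tsupport_mul_subset_left (f := fun z => fderiv ℝ (fun w => fderiv ℝ a w v) z v) (g := u)).trans
        ((ts_fderiv _ v).trans (ts_fderiv a v))
    refine integrable_of_ts (fun z hz => ?_) (hcs_of_sub hc hs)
    exact (((hd v).continuous_fderiv (by norm_num)).clm_apply continuous_const).continuousAt.mul
      (hu1 z (hs hz)).continuousAt
  have i2 : ∀ v : ℂ, Integrable fun z => fderiv ℝ a z v * fderiv ℝ u z v := by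
    intro v
    have hs : tsupport (fun z => fderiv ℝ a z v * fderiv ℝ u z v) ⊆ tsupport a :=
      (tsupport_mul_subset_left (f := fun z => fderiv ℝ a z v) (g := fun z => fderiv ℝ u z v)).trans (ts_fderiv a v)
    refine integrable_of_ts (fun z hz => ?_) (hcs_of_sub hc hs)
    exact (hd v).continuous.continuousAt.mul (contDiffAt_d (hu z (hs hz)) v).continuousAt
  rw [integral_congr_ae (Eventually.of_forall e), integral_add (i1 1) (i1 I), integral_add (i2 1) (i2 I),
    h1, h1]
  ring

end Pool.Agent.H30M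

end

section

/-!
# Calculus of gradients and Laplacians on the complex plane
-/

set_option autoImplicit false

open MeasureTheory Complex Set Filter Topology Laplacian InnerProductSpace

namespace Pool.Agent.H30M

/-- scalar product of gradients -/
noncomputable def gg (u v : ℂ → ℝ) (z : ℂ) : ℝ :=
  fderiv ℝ u z 1 * fderiv ℝ v z 1 + fderiv ℝ u z I * fderiv ℝ v z I

theorem gg_comm (u v : ℂ → ℝ) (z : ℂ) : gg u v z = gg v u z := by
  unfold gg; ring

theorem gg_self_nonneg (u : ℂ → ℝ) (z : ℂ) : 0 ≤ gg u u z := by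
  unfold gg
  nlinarith [sq_nonneg (fderiv ℝ u z 1), sq_nonneg (fderiv ℝ u z I)]

/-- Cauchy-Schwarz -/
theorem gg_sq_le (u v : ℂ → ℝ) (z : ℂ) : gg u v z ^ 2 ≤ gg u u z * gg v v z := by
  unfold gg
  nlinarith [sq_nonneg (fderiv ℝ u z 1 * fderiv ℝ v z I - fderiv ℝ u z I * fderiv ℝ v z 1)]

theorem abs_gg_le (u v : ℂ → ℝ) (z : ℂ) : |gg u v z| ≤ √(gg u u z) * √(gg v v z) := by
  rw [← Real.sqrt_mul (gg_self_nonneg u z)]
  exact Real.abs_le_sqrt (gg_sq_le u v z)

theorem fderiv_comp_real {φ : ℝ → ℝ} {u : ℂ → ℝ} {z : ℂ} (hφ : DifferentiableAt ℝ φ (u z))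
    (hu : DifferentiableAt ℝ u z) (v : ℂ) :
    fderiv ℝ (fun w => φ (u w)) z v = deriv φ (u z) * fderiv ℝ u z v := by
  have h := hφ.hasDerivAt.comp_hasFDerivAt z hu.hasFDerivAt
  have h' : HasFDerivAt (fun w => φ (u w)) (deriv φ (u z) • fderiv ℝ u z) z := h
  rw [h'.fderiv]
  simp

theorem gg_comp {φ : ℝ → ℝ} {u v : ℂ → ℝ} {z : ℂ} (hφ : DifferentiableAt ℝ φ (u z))
    (hu : DifferentiableAt ℝ u z) :
    gg (fun w => φ (u w)) v z = deriv φ (u z) * gg u v z := by
  unfold gg
  rw [fderiv_comp_real hφ hu, fderiv_comp_real hφ hu]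
  ring

/-- **Laplacian of a composition** -/
theorem lap_comp {φ : ℝ → ℝ} {u : ℂ → ℝ} {z : ℂ} (hφ : ContDiffAt ℝ 2 φ (u z)) (hu : ContDiffAt ℝ 2 u z) :
    Δ (fun w => φ (u w)) z = deriv φ (u z) * Δ u z + deriv (deriv φ) (u z) * gg u u z := by
  have hc : ContDiffAt ℝ 2 (fun w => φ (u w)) z := hφ.comp z hu
  have hφ1 : ∀ᶠ w in 𝓝 z, DifferentiableAt ℝ φ (u w) ∧ DifferentiableAt ℝ u w := by
    have h1 := hu.continuousAt.eventually (hφ.eventually (by simp))
    have h2 := hu.eventually (by simp)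
    filter_upwards [h1, h2] with w hw hw'
    exact ⟨hw.differentiableAt (by norm_num), hw'.differentiableAt (by norm_num)⟩
  have hev : ∀ v : ℂ, (fun w => fderiv ℝ (fun w => φ (u w)) w v) =ᶠ[𝓝 z] fun w => deriv φ (u w) * fderiv ℝ u w v := by
    intro v
    filter_upwards [hφ1] with w hw
    exact fderiv_comp_real hw.1 hw.2 v
  have hd : DifferentiableAt ℝ (deriv φ) (u z) := by
    have h1 : ContDiffAt ℝ 1 (deriv φ) (u z) := by
      have h2 : ContDiffAt ℝ 1 (fun x => fderiv ℝ φ x 1) (u z) :=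
        (hφ.fderiv_right (m := 1) (by norm_num)).clm_apply contDiffAt_const
      have e : deriv φ = fun x => fderiv ℝ φ x 1 := by
        funext x; exact fderiv_apply_one_eq_deriv.symm
      rw [e]; exact h2
    exact h1.differentiableAt (by norm_num)
  have key : ∀ v : ℂ, fderiv ℝ (fun w => fderiv ℝ (fun w => φ (u w)) w v) z v =
      deriv φ (u z) * fderiv ℝ (fun w => fderiv ℝ u w v) z v
      + deriv (deriv φ) (u z) * (fderiv ℝ u z v * fderiv ℝ u z v) := by
    intro v
    rw [(hev v).fderiv_eq]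
    have h1 : DifferentiableAt ℝ (fun w => deriv φ (u w)) z := hd.comp z (hu.differentiableAt (by norm_num))
    have h2 : DifferentiableAt ℝ (fun w => fderiv ℝ u w v) z := (contDiffAt_d hu v).differentiableAt (by norm_num)
    rw [fderiv_fun_mul h1 h2]
    simp only [add_apply, smul_apply, smul_eq_mul]
    rw [fderiv_comp_real hd (hu.differentiableAt (by norm_num))]
    ring
  rw [lap_eq hc, key, key, lap_eq hu]
  unfold gg
  ring

/-- **Laplacian of a product** -/
theorem lap_mul {u v : ℂ → ℝ} {z : ℂ} (hu : ContDiffAt ℝ 2 u z) (hv : ContDiffAt ℝ 2 v z) :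
    Δ (fun w => u w * v w) z = u z * Δ v z + v z * Δ u z + 2 * gg u v z := by
  have hc : ContDiffAt ℝ 2 (fun w => u w * v w) z := hu.mul hv
  have h0 : ∀ᶠ w in 𝓝 z, DifferentiableAt ℝ u w ∧ DifferentiableAt ℝ v w := by
    filter_upwards [hu.eventually (by simp), hv.eventually (by simp)] with w hw hw'
    exact ⟨hw.differentiableAt (by norm_num), hw'.differentiableAt (by norm_num)⟩
  have hev : ∀ d : ℂ, (fun w => fderiv ℝ (fun w => u w * v w) w d) =ᶠ[𝓝 z]
      fun w => u w * fderiv ℝ v w d + v w * fderiv ℝ u w d := by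
    intro d
    filter_upwards [h0] with w hw
    rw [fderiv_fun_mul hw.1 hw.2]
    simp
  have key : ∀ d : ℂ, fderiv ℝ (fun w => fderiv ℝ (fun w => u w * v w) w d) z d =
      u z * fderiv ℝ (fun w => fderiv ℝ v w d) z d + v z * fderiv ℝ (fun w => fderiv ℝ u w d) z d
      + 2 * (fderiv ℝ u z d * fderiv ℝ v z d) := by
    intro d
    rw [(hev d).fderiv_eq]
    have h1 : DifferentiableAt ℝ u z := hu.differentiableAt (by norm_num)
    have h2 : DifferentiableAt ℝ v z := hv.differentiableAt (by norm_num)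
    have h3 : DifferentiableAt ℝ (fun w => fderiv ℝ u w d) z := (contDiffAt_d hu d).differentiableAt (by norm_num)
    have h4 : DifferentiableAt ℝ (fun w => fderiv ℝ v w d) z := (contDiffAt_d hv d).differentiableAt (by norm_num)
    have h5 : DifferentiableAt ℝ (fun w => u w * fderiv ℝ v w d) z := h1.mul h4
    have h6 : DifferentiableAt ℝ (fun w => v w * fderiv ℝ u w d) z := h2.mul h3
    rw [fderiv_fun_add h5 h6, fderiv_fun_mul h1 h4, fderiv_fun_mul h2 h3]
    simp only [add_apply, smul_apply, smul_eq_mul]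
    ring
  rw [lap_eq hc, key, key, lap_eq hu, lap_eq hv]
  unfold gg
  ring

theorem lap_add {u v : ℂ → ℝ} {z : ℂ} (hu : ContDiffAt ℝ 2 u z) (hv : ContDiffAt ℝ 2 v z) :
    Δ (fun w => u w + v w) z = Δ u z + Δ v z := hu.laplacian_add hv

theorem lap_sub {u v : ℂ → ℝ} {z : ℂ} (hu : ContDiffAt ℝ 2 u z) (hv : ContDiffAt ℝ 2 v z) :
    Δ (fun w => u w - v w) z = Δ u z - Δ v z := hu.laplacian_sub hv

theorem lap_const_mul {u : ℂ → ℝ} {z : ℂ} (hu : ContDiffAt ℝ 2 u z) (c : ℝ) :
    Δ (fun w => c * u w) z = c * Δ u z := by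
  have := laplacian_smul c hu
  exact this

theorem lap_congr {u v : ℂ → ℝ} {z : ℂ} (h : u =ᶠ[𝓝 z] v) : Δ u z = Δ v z :=
  (laplacian_congr_nhds h).eq_of_nhds

theorem gg_congr {u v w : ℂ → ℝ} {z : ℂ} (h : u =ᶠ[𝓝 z] v) : gg u w z = gg v w z := by
  unfold gg
  rw [h.fderiv_eq]

/-- The real part of `a(z) dz` applied to a vector: the gradient of `log ‖g‖`. -/
theorem fderiv_log_norm {g : ℂ → ℂ} {w : ℂ} (hg : DifferentiableAt ℂ g w) (h0 : g w ≠ 0) (v : ℂ) :
    fderiv ℝ (fun z => Real.log ‖g z‖) w v = (deriv g w / g w * v).re := by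
  have h1 : HasFDerivAt g ((ContinuousLinearMap.toSpanSingleton ℂ (deriv g w)).restrictScalars ℝ) w :=
    hg.hasDerivAt.hasFDerivAt.restrictScalars ℝ
  have h2 := h1.norm_sq
  have hne : ‖g w‖ ^ 2 ≠ 0 := by
    have := norm_pos_iff.2 h0
    positivity
  have h3 := (h2.log hne).const_mul (1 / 2 : ℝ)
  have e : (fun z => Real.log ‖g z‖) = fun z => (1 / 2 : ℝ) * Real.log (‖g z‖ ^ 2) := by
    funext z
    rw [Real.log_pow]
    push_cast
    ring
  rw [e, h3.fderiv]
  have hn : (g w).re ^ 2 + (g w).im ^ 2 ≠ 0 := by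
    rw [← Complex.normSq_eq_norm_sq, Complex.normSq_apply] at hne
    intro h
    apply hne
    rw [← h]
    ring
  simp only [smul_apply, smul_eq_mul, ContinuousLinearMap.comp_apply, innerSL_apply_apply,
    ContinuousLinearMap.coe_restrictScalars', ContinuousLinearMap.toSpanSingleton_apply]
  rw [← Complex.normSq_eq_norm_sq, Complex.normSq_apply, Complex.inner]
  have h5 : (deriv g w / g w * v).re = ((v * deriv g w) / g w).re := by
    congr 1
    ring
  rw [h5, Complex.div_re, Complex.normSq_apply]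
  have hn' : (g w).re * (g w).re + (g w).im * (g w).im ≠ 0 := by
    intro h
    apply hn
    rw [← h]
    ring
  simp only [mul_re, conj_re, conj_im, mul_im]
  field_simp
  ring

end Pool.Agent.H30M

end

section

/-!
# Poincare-Lelong for test functions: `∫ Δτ log |g| = 2 π ∑ ord_z(g) τ(z)`
-/

set_option autoImplicit false

open MeasureTheory Complex Set Filter Topology Laplacian InnerProductSpace Metric

namespace Pool.Agent.H30M

/-- The decomposition of `log ‖g‖` on a compact set. -/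
theorem log_decomp {K : Set ℂ} (hK : IsCompact K) {g : ℂ → ℂ} (hg : AnalyticOnNhd ℂ g K)
    (h0 : ∀ z ∈ K, analyticOrderAt g z ≠ ⊤) :
    ∃ (S : Finset ℂ) (h : ℂ → ℂ), (∀ u ∈ S, u ∈ K) ∧ (∀ u ∈ K, u ∉ S → analyticOrderNatAt g u = 0) ∧
      AnalyticOnNhd ℂ h K ∧ (∀ z ∈ K, h z ≠ 0) ∧
      ∀ᵐ z : ℂ, z ∈ K → Real.log ‖g z‖ = ∑ u ∈ S, (analyticOrderNatAt g u : ℝ) * Real.log ‖z - u‖ + Real.log ‖h z‖ := by
  classical
  have hm : MeromorphicOn g K := fun z hz => (hg z hz).meromorphicAt
  have hfin : (MeromorphicOn.divisor g K).support.Finite :=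
    (MeromorphicOn.divisor g K).finiteSupport hK
  have hord : ∀ z ∈ K, meromorphicOrderAt g z = (analyticOrderAt g z).map (↑) := fun z hz =>
    (hg z hz).meromorphicOrderAt_eq
  have h1 : ∀ u : K, meromorphicOrderAt g u ≠ ⊤ := by
    intro u
    rw [hord u u.2]
    simpa using h0 u u.2
  obtain ⟨h, hh1, hh2, hh3⟩ := hm.extract_zeros_poles h1 hfin
  have hlog := MeromorphicOn.extract_zeros_poles_log hh2 hh3
  have hD : ∀ u ∈ K, MeromorphicOn.divisor g K u = (analyticOrderNatAt g u : ℤ) := by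
    intro u hu
    rw [MeromorphicOn.divisor_apply hm hu, hord u hu, ← Nat.cast_analyticOrderNatAt (h0 u hu)]
    rfl
  refine ⟨hfin.toFinset, h, ?_, ?_, hh1, fun z hz => hh2 ⟨z, hz⟩, ?_⟩
  · intro u hu
    rw [Set.Finite.mem_toFinset] at hu
    exact (MeromorphicOn.divisor g K).supportWithinDomain hu
  · intro u hu hn
    rw [Set.Finite.mem_toFinset, Function.mem_support, not_not, hD u hu] at hn
    exact_mod_cast hn
  · have h2 := ae_restrict_le_codiscreteWithin (μ := (volume : Measure ℂ)) hK.measurableSet hlog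
    have h3 : ∀ᵐ z ∂(volume.restrict K), Real.log ‖g z‖
        = (∑ᶠ u, (fun z => (MeromorphicOn.divisor g K u : ℝ) * Real.log ‖z - u‖) + fun z => Real.log ‖h z‖) z := h2
    rw [ae_restrict_iff' hK.measurableSet] at h3
    filter_upwards [h3] with z hz hzK
    rw [hz hzK, Pi.add_apply]
    congr 1
    have hs : (fun u => fun z : ℂ => (MeromorphicOn.divisor g K u : ℝ) * Real.log ‖z - u‖).support ⊆ hfin.toFinset := by
      intro u hu
      simp only [Set.Finite.coe_toFinset, Function.mem_support]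
      intro h
      apply hu
      funext z
      simp [h]
    rw [finsum_eq_sum_of_support_subset _ hs, Finset.sum_apply]
    refine Finset.sum_congr rfl fun u hu => ?_
    rw [Set.Finite.mem_toFinset] at hu
    rw [hD u ((MeromorphicOn.divisor g K).supportWithinDomain hu)]
    simp

theorem contDiffAt_log_norm {h : ℂ → ℂ} {z : ℂ} (hh : AnalyticAt ℂ h z) (h0 : h z ≠ 0) :
    ContDiffAt ℝ 2 (fun w => Real.log ‖h w‖) z := (hh.harmonicAt_log_norm h0).1

theorem lap_log_norm {h : ℂ → ℂ} {z : ℂ} (hh : AnalyticAt ℂ h z) (h0 : h z ≠ 0) :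
    Δ (fun w => Real.log ‖h w‖) z = 0 := (hh.harmonicAt_log_norm h0).2.eq_of_nhds

theorem continuous_lap {τ : ℂ → ℝ} (hτ : ContDiff ℝ 2 τ) : Continuous (Δ τ) := by
  have e : Δ τ = fun z => fderiv ℝ (fun w => fderiv ℝ τ w 1) z 1 + fderiv ℝ (fun w => fderiv ℝ τ w I) z I :=
    funext fun z => lap_eq hτ.contDiffAt
  rw [e]
  have hd : ∀ v : ℂ, ContDiff ℝ 1 fun z => fderiv ℝ τ z v := fun v =>
    (hτ.fderiv_right (m := 1) (by norm_num)).clm_apply contDiff_const
  exact (((hd 1).continuous_fderiv (by norm_num)).clm_apply continuous_const).add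
    (((hd I).continuous_fderiv (by norm_num)).clm_apply continuous_const)

end Pool.Agent.H30M

end
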