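import Pool.Agent.H43.TL2.M10
import Pool.Agent.H43.TL2.M12
import Pool.Agent.H43.TL2.M13
import Pool.Agent.H43.TL2.M20

/-! The parts of this file: H17BP.Model_1, MQ.Bridge. -/

section

/-!
# Holomorphic curves in a closed surface, the induction hypothesis

Holomorphic maps into `ℙ(V)` are given by functions with values in `V ∖ {0}`, which are not required to be
continuous, see `HolP`.
-/

open Topology Filter

noncomputable section

namespace Pool.Agent.H17BP

variable {V : Type} [NormedAddCommGroup V] [NormedSpace ℂ V]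

/-- The function `f` is, near `z₀`, proportional to a holomorphic function without zeros, that is, `f` defines a
holomorphic map to `ℙ(V)`. -/
def HolP (f : ℂ → V) (z₀ : ℂ) : Prop :=
  ∃ F : ℂ → V, AnalyticAt ℂ F z₀ ∧ F z₀ ≠ 0 ∧ ∀ᶠ z in 𝓝 z₀, Pr (f z) (F z)

/-- Every holomorphic map from `ℂ` to the projective set with the cone `X` which is not a map into `B` is
constant. -/
def Brody (X B : Set V) : Prop :=
  ∀ f : ℂ → V, (∀ z, HolP f z) → (∀ z, f z ∈ X) → (∃ z, f z ∉ B) → ∀ z w, Pr (f z) (f w)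

/-- Every holomorphic map from a punctured disc to the projective set with the cone `X` which is not a map into
`B` extends to the disc. -/
def Picard (X B : Set V) : Prop :=
  ∀ r : ℝ, 0 < r → ∀ f : ℂ → V, (∀ z : ℂ, z ≠ 0 → ‖z‖ < r → HolP f z ∧ f z ∈ X) →
    (∃ z : ℂ, z ≠ 0 ∧ ‖z‖ < r ∧ f z ∉ B) →
    ∃ F : ℂ → V, AnalyticAt ℂ F 0 ∧ F 0 ≠ 0 ∧ ∀ᶠ z in 𝓝[≠] (0 : ℂ), Pr (f z) (F z)

/-- The subset `B` of `X` is the set of the common zeros of the forms `Q i` of degree `D`, and near every point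
it is the set of the zeros of one of these forms. -/
structure Eqs (X B : Set V) {κ : Type} (Q : κ → V → ℂ) (D : ℕ) : Prop where
  pos : 1 ≤ D
  an : ∀ i x, AnalyticAt ℂ (Q i) x
  smul : ∀ i (c : ℂ) x, Q i (c • x) = c ^ D * Q i x
  mem_iff : ∀ x, x ∈ B ↔ x ∈ X ∧ ∀ i, Q i x = 0
  gen : ∀ x ∈ X, ∃ i, ∀ᶠ y in 𝓝 x, y ∈ X → Q i y = 0 → y ∈ B

/-- At the point `x` the curve `B` has a local equation which becomes a monomial after at most `n` blow-ups over
every point. -/
def ResAt (X B : Set V) (x : V) (n : ℕ) : Prop :=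
  ∃ σ τ g, IsChart X σ τ ∧ σ 0 = x ∧ LocalEq B σ g ∧ ResN n g

end Pool.Agent.H17BP

end
end

section

/-!
Bridges between `gr`, `ip`, `dv`, `lp` and Mathlib's Laplacian, `gg` of H30M; holomorphic
vector fields; chain rules.
-/

namespace Pool.Agent.MQ

open MeasureTheory Complex Laplacian

open Pool.Agent.H30M (gg)

/-- The scalar product of two gradients. -/
theorem gg_eq_ip (u v : ℂ → ℝ) (z : ℂ) : gg u v z = ip (gr u z) (gr v z) := rfl

theorem gg_self (u : ℂ → ℝ) (z : ℂ) : gg u u z = ‖gr u z‖ ^ 2 := by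
  rw [gg_eq_ip, ip_self]

/-- `lp` is Mathlib's Laplacian at points of class `C²`. -/
theorem lp_eq_lap {u : ℂ → ℝ} {z : ℂ} (hu : ContDiffAt ℝ 2 u z) : lp u z = Δ u z := by
  rw [Pool.Agent.H30M.lap_eq hu]
  have hd : DifferentiableAt ℝ (gr u) z := differentiableAt_gr hu
  unfold lp dv
  have h1 : HasFDerivAt (fun w => fderiv ℝ u w 1) (Complex.reCLM.comp (fderiv ℝ (gr u) z)) z :=
    Complex.reCLM.hasFDerivAt.comp z hd.hasFDerivAt
  have h2 : HasFDerivAt (fun w => fderiv ℝ u w Complex.I)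
      (Complex.imCLM.comp (fderiv ℝ (gr u) z)) z :=
    Complex.imCLM.hasFDerivAt.comp z hd.hasFDerivAt
  rw [h1.fderiv, h2.fderiv]
  rfl

/-! ### holomorphic vector fields -/

lemma fderiv_holo {G : ℂ → ℂ} {z : ℂ} (hG : DifferentiableAt ℂ G z) (v : ℂ) :
    fderiv ℝ G z v = deriv G z * v := by
  have h := hG.hasDerivAt.hasFDerivAt.restrictScalars ℝ
  rw [h.fderiv]
  simp [mul_comm]

lemma hasFDerivAt_conj_holo {G : ℂ → ℂ} {z : ℂ} (hG : DifferentiableAt ℂ G z) :
    HasFDerivAt (fun w => (starRingEnd ℂ) (G w))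
      ((Complex.conjCLE : ℂ →L[ℝ] ℂ).comp (fderiv ℝ G z)) z :=
  (Complex.conjCLE : ℂ →L[ℝ] ℂ).hasFDerivAt.comp z (hG.restrictScalars ℝ).hasFDerivAt

/-- The real field `conj G` has divergence zero when `G` is holomorphic. -/
theorem dv_conj {G : ℂ → ℂ} {z : ℂ} (hG : DifferentiableAt ℂ G z) :
    dv (fun w => (starRingEnd ℂ) (G w)) z = 0 := by
  unfold dv
  rw [(hasFDerivAt_conj_holo hG).fderiv]
  simp only [ContinuousLinearMap.coe_comp, Function.comp_apply,
    ContinuousLinearEquiv.coe_coe, Complex.conjCLE_apply]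
  rw [fderiv_holo hG, fderiv_holo hG]
  simp

/-- The gradient of the logarithm of the modulus. -/
theorem gr_log_norm {h : ℂ → ℂ} {z : ℂ} (hh : DifferentiableAt ℂ h z) (h0 : h z ≠ 0) :
    gr (fun w => Real.log ‖h w‖) z = (starRingEnd ℂ) (deriv h z / h z) := by
  apply Complex.ext
  · rw [gr_re, Pool.Agent.H30M.fderiv_log_norm hh h0, mul_one, Complex.conj_re]
  · rw [gr_im, Pool.Agent.H30M.fderiv_log_norm hh h0, Complex.mul_I_re, Complex.conj_im]

theorem gr_re_holo {G : ℂ → ℂ} {z : ℂ} (hG : DifferentiableAt ℂ G z) :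
    gr (fun w => (G w).re) z = (starRingEnd ℂ) (deriv G z) := by
  have h : HasFDerivAt (fun w => (G w).re) (Complex.reCLM.comp (fderiv ℝ G z)) z :=
    Complex.reCLM.hasFDerivAt.comp z (hG.restrictScalars ℝ).hasFDerivAt
  rw [h.gr, grL_apply]
  simp only [ContinuousLinearMap.coe_comp, Function.comp_apply]
  rw [fderiv_holo hG, fderiv_holo hG]
  apply Complex.ext <;> simp

theorem gr_im_holo {G : ℂ → ℂ} {z : ℂ} (hG : DifferentiableAt ℂ G z) :
    gr (fun w => (G w).im) z = Complex.I * (starRingEnd ℂ) (deriv G z) := by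
  have h : HasFDerivAt (fun w => (G w).im) (Complex.imCLM.comp (fderiv ℝ G z)) z :=
    Complex.imCLM.hasFDerivAt.comp z (hG.restrictScalars ℝ).hasFDerivAt
  rw [h.gr, grL_apply]
  simp only [ContinuousLinearMap.coe_comp, Function.comp_apply]
  rw [fderiv_holo hG, fderiv_holo hG]
  apply Complex.ext <;> simp

theorem contDiffAt_conj_holo {G : ℂ → ℂ} {z : ℂ} {n : WithTop ℕ∞} (hG : AnalyticAt ℂ G z) :
    ContDiffAt ℝ n (fun w => (starRingEnd ℂ) (G w)) z :=
  (Complex.conjCLE : ℂ →L[ℝ] ℂ).contDiff.contDiffAt.comp z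
    ((hG.contDiffAt (n := n)).restrict_scalars ℝ)

end Pool.Agent.MQ

end
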