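import Mathlib

/-! The parts of this file: H17.EntireCurves, H17GT.Defs. -/

section

/-!
# Holomorphic maps into complex projective space and hyperbolicity notions

Conventions used by the hand-ins of this seat for quasi-projective subsets of `ℙ^N(ℂ)`.
-/

open MvPolynomial Topology

namespace Pool.Agent.H17

/-- Complex projective space `ℙ^N(ℂ)`, as the set of lines in `ℂ^(N+1)`. -/
abbrev PN (N : ℕ) : Type := Projectivization ℂ (Fin (N + 1) → ℂ)

/-- The polynomial `P` vanishes at the point `x` of `ℙ^N`.  For homogeneous `P` this does not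
depend on the chosen representative vector. -/
def VanishesAt {N : ℕ} (P : MvPolynomial (Fin (N + 1)) ℂ) (x : PN N) : Prop :=
  eval x.rep P = 0

/-- `f` is holomorphic on the (open) set `U ⊆ ℂ` as a map into `ℙ^N`: near every point of `U` it
is given by holomorphic homogeneous coordinates without common zero. -/
def HolomorphicInto {N : ℕ} (f : ℂ → PN N) (U : Set ℂ) : Prop :=
  ∀ z₀ ∈ U, ∃ φ : ℂ → Fin (N + 1) → ℂ, AnalyticAt ℂ φ z₀ ∧
    ∀ᶠ z in 𝓝 z₀, ∃ h : φ z ≠ 0, f z = Projectivization.mk ℂ (φ z) h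

/-- `Ξ` is a Zariski closed subset of the subset `X` of `ℙ^N`. -/
def ZariskiClosedIn {N : ℕ} (X Ξ : Set (PN N)) : Prop :=
  ∃ S : Set (MvPolynomial (Fin (N + 1)) ℂ), (∀ P ∈ S, ∃ n, P.IsHomogeneous n) ∧
    Ξ = {x | x ∈ X ∧ ∀ P ∈ S, VanishesAt P x}

/-- `X` is pseudo Brody hyperbolic: there is a Zariski closed proper subset `Ξ` of `X` that
contains the image of every non-constant holomorphic map `ℂ → X`. -/
def PseudoBrodyHyperbolic {N : ℕ} (X : Set (PN N)) : Prop :=
  ∃ Ξ : Set (PN N), ZariskiClosedIn X Ξ ∧ Ξ ≠ X ∧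
    ∀ f : ℂ → PN N, HolomorphicInto f Set.univ → (∀ z, f z ∈ X) → (∃ z w, f z ≠ f w) →
      ∀ z, f z ∈ Ξ

/-- The punctured open unit disc. -/
def puncturedDisc : Set ℂ := Metric.ball 0 1 \ {0}

/-- `X` is pseudo Picard hyperbolic: there is a Zariski closed proper subset `Ξ` of `X` such that
every holomorphic map from the punctured unit disc to `X` whose image is not contained in `Ξ`
extends to a holomorphic map from the unit disc to `ℙ^N` (and hence to the closure of `X`). -/
def PseudoPicardHyperbolic {N : ℕ} (X : Set (PN N)) : Prop :=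
  ∃ Ξ : Set (PN N), ZariskiClosedIn X Ξ ∧ Ξ ≠ X ∧
    ∀ f : ℂ → PN N, HolomorphicInto f puncturedDisc → (∀ z ∈ puncturedDisc, f z ∈ X) →
      (∃ z ∈ puncturedDisc, f z ∉ Ξ) →
      ∃ g : ℂ → PN N, HolomorphicInto g (Metric.ball 0 1) ∧ ∀ z ∈ puncturedDisc, g z = f z

end Pool.Agent.H17

end

section

/-!
# Varieties of general type, in terms of their function field
-/

open MvPolynomial

noncomputable section

namespace Pool.Agent.H17GT

/-- The coordinate function `x_i` in the fraction field of the homogeneous coordinate ring. -/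
def coordFun {N : ℕ} (P : Ideal (MvPolynomial (Fin (N + 1)) ℂ)) [P.IsPrime] (i : Fin (N + 1)) :
    FractionRing (MvPolynomial (Fin (N + 1)) ℂ ⧸ P) :=
  algebraMap (MvPolynomial (Fin (N + 1)) ℂ ⧸ P) _ (Ideal.Quotient.mk P (X i))

/-- The function field of the closed subvariety of `ℙ^N` given by the homogeneous prime ideal `P`:
the field generated over `ℂ` by the functions `x_i / x_j`. -/
def functionField {N : ℕ} (P : Ideal (MvPolynomial (Fin (N + 1)) ℂ)) [P.IsPrime] :
    IntermediateField ℂ (FractionRing (MvPolynomial (Fin (N + 1)) ℂ ⧸ P)) :=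
  IntermediateField.adjoin ℂ {y | ∃ i j, y = coordFun P i / coordFun P j}

end Pool.Agent.H17GT

end
end
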