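import Pool.Agent.H43.TL2.M04
import Pool.Agent.H43.TL2.M05
import Pool.Agent.H43.TL2.M07
import Pool.Agent.H43.TL2.M12
import Pool.Agent.H43.TL2.M13

/-! The parts of this file: H17GT.Point, H30M.Tau, H30M.Tau2, H92.GT.ProjPoint, MQ.VDefs. -/

section

/-!
# The generic point of a subvariety of projective space
-/

open MvPolynomial

noncomputable section

namespace Pool.Agent.H17GT

end Pool.Agent.H17GT

end
end

section

/-!
# The test functions `tau R z = log R - P z + P (z / R)`

`P z = Th (log ‖z‖)`, `Th' = θ` a smooth transition from `0` to `1` on `[0, 1]`.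
-/

set_option autoImplicit false

open MeasureTheory Complex Set Filter Topology Laplacian InnerProductSpace Metric

namespace Pool.Agent.H30M

/-- `Th s = ∫ θ` over `[0, s]` -/
noncomputable def Th (s : ℝ) : ℝ := ∫ t in (0)..s, Real.smoothTransition t

theorem hasDerivAt_Th (s : ℝ) : HasDerivAt Th (Real.smoothTransition s) s :=
  intervalIntegral.integral_hasDerivAt_right (Real.smoothTransition.continuous.intervalIntegrable _ _)
    Real.smoothTransition.continuous.aestronglyMeasurable.stronglyMeasurableAtFilter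
    Real.smoothTransition.continuous.continuousAt

theorem deriv_Th : deriv Th = Real.smoothTransition := funext fun s => (hasDerivAt_Th s).deriv

theorem contDiff_Th : ContDiff ℝ 2 Th := by
  have h : ContDiff ℝ (1 + 1) Th := by
    rw [contDiff_succ_iff_deriv]
    refine ⟨fun s => (hasDerivAt_Th s).differentiableAt, by simp, ?_⟩
    rw [deriv_Th]
    exact Real.smoothTransition.contDiff (n := 1)
  exact h.of_le (by norm_num [one_add_one_eq_two])

theorem Th_nonpos {s : ℝ} (hs : s ≤ 0) : Th s = 0 := by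
  unfold Th
  rw [intervalIntegral.integral_congr (g := fun _ => (0 : ℝ)), intervalIntegral.integral_zero]
  intro t ht
  rw [uIcc_of_ge hs] at ht
  exact Real.smoothTransition.zero_of_nonpos ht.2

theorem Th_mono : Monotone Th := monotone_of_deriv_nonneg (fun s => (hasDerivAt_Th s).differentiableAt)
  fun s => by rw [deriv_Th]; exact Real.smoothTransition.nonneg s

theorem Th_nonneg (s : ℝ) : 0 ≤ Th s := by
  rcases le_total s 0 with h | h
  · rw [Th_nonpos h]
  · rw [← Th_nonpos (le_refl 0)]; exact Th_mono h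

/-- `Th s - Th t ≤ s - t` for `t ≤ s` -/
theorem Th_sub_le {s t : ℝ} (h : t ≤ s) : Th s - Th t ≤ s - t := by
  have hm : Monotone fun s => s - Th s := monotone_of_deriv_nonneg
    (fun s => (differentiableAt_id.sub (hasDerivAt_Th s).differentiableAt)) fun s => by
      have := (hasDerivAt_id s).sub (hasDerivAt_Th s)
      have h2 : deriv (fun s => s - Th s) s = 1 - Real.smoothTransition s := this.deriv
      rw [h2]
      have := Real.smoothTransition.le_one s
      linarith
  have := hm h
  simp only at this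
  linarith

theorem Th_le {s : ℝ} (h : 0 ≤ s) : Th s ≤ s := by
  have := Th_sub_le h
  rw [Th_nonpos (le_refl 0)] at this
  linarith

/-- `Th s - Th t = s - t` for `1 ≤ t ≤ s` -/
theorem Th_sub_eq {s t : ℝ} (h1 : 1 ≤ t) (h : t ≤ s) : Th s - Th t = s - t := by
  unfold Th
  have hi : ∀ a b : ℝ, IntervalIntegrable Real.smoothTransition volume a b := fun a b =>
    Real.smoothTransition.continuous.intervalIntegrable a b
  rw [intervalIntegral.integral_interval_sub_left (hi 0 s) (hi 0 t)]
  rw [intervalIntegral.integral_congr (g := fun _ => (1 : ℝ)), intervalIntegral.integral_const]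
  · simp
  · intro x hx
    rw [uIcc_of_le h] at hx
    exact Real.smoothTransition.one_of_one_le (h1.trans hx.1)

/-- the potential -/
noncomputable def P (z : ℂ) : ℝ := Th (Real.log ‖z‖)

theorem P_eq_zero {z : ℂ} (h : ‖z‖ ≤ 1) : P z = 0 := Th_nonpos (Real.log_nonpos (norm_nonneg z) h)

theorem P_nonneg (z : ℂ) : 0 ≤ P z := Th_nonneg _

theorem P_ev_zero {z : ℂ} (h : ‖z‖ < 1) : P =ᶠ[𝓝 z] fun _ => 0 := by
  filter_upwards [(isOpen_lt continuous_norm continuous_const).mem_nhds h] with w hw
  exact P_eq_zero (le_of_lt hw)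

theorem contDiff_P : ContDiff ℝ 2 P := by
  rw [contDiff_iff_contDiffAt]
  intro z
  rcases eq_or_ne z 0 with rfl | hz
  · exact (contDiffAt_const (c := (0 : ℝ))).congr_of_eventuallyEq (P_ev_zero (by simp))
  · have h1 : ContDiffAt ℝ 2 (fun w : ℂ => Real.log ‖w‖) z := contDiffAt_log_norm (h := id) analyticAt_id hz
    exact contDiff_Th.contDiffAt.comp z h1

theorem fderiv_P (z v : ℂ) : fderiv ℝ P z v = Real.smoothTransition (Real.log ‖z‖) * (v / z).re := by
  rcases eq_or_ne z 0 with rfl | hz
  · rw [(P_ev_zero (by simp)).fderiv_eq]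
    simp
  · have h1 : ContDiffAt ℝ 2 (fun w : ℂ => Real.log ‖w‖) z := contDiffAt_log_norm (h := id) analyticAt_id hz
    have h2 := fderiv_comp_real (φ := Th) (hasDerivAt_Th _).differentiableAt (h1.differentiableAt (by norm_num)) v
    have h3 := fderiv_log_norm (g := id) differentiableAt_id hz v
    have h4 : fderiv ℝ P z v = _ := h2
    rw [h4, deriv_Th]
    simp only [id_eq] at h3
    rw [h3]
    simp [div_eq_inv_mul]

/-- the density `Δ P` -/
noncomputable def rho (z : ℂ) : ℝ := deriv Real.smoothTransition (Real.log ‖z‖) / ‖z‖ ^ 2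

theorem deriv_st_nonneg (s : ℝ) : 0 ≤ deriv Real.smoothTransition s := Real.smoothTransition.monotone.deriv_nonneg

theorem deriv_st_eq_zero {s : ℝ} (hs : s ≤ 0 ∨ 1 ≤ s) : deriv Real.smoothTransition s = 0 := by
  rcases hs with hs | hs
  · have hd : DifferentiableAt ℝ Real.smoothTransition s :=
      (Real.smoothTransition.contDiff (n := 1)).differentiable (by norm_num) s
    have h1 := hd.hasDerivAt.hasDerivWithinAt (s := Iic s)
    have h2 : HasDerivWithinAt Real.smoothTransition 0 (Iic s) s :=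
      (hasDerivWithinAt_const s (Iic s) (0 : ℝ)).congr
        (fun x hx => Real.smoothTransition.zero_of_nonpos (le_trans hx hs)) (Real.smoothTransition.zero_of_nonpos hs)
    exact (uniqueDiffWithinAt_Iic s).eq_deriv _ h1 h2
  · have hd : DifferentiableAt ℝ Real.smoothTransition s :=
      (Real.smoothTransition.contDiff (n := 1)).differentiable (by norm_num) s
    have h1 := hd.hasDerivAt.hasDerivWithinAt (s := Ici s)
    have h2 : HasDerivWithinAt Real.smoothTransition 0 (Ici s) s :=
      (hasDerivWithinAt_const s (Ici s) (1 : ℝ)).congr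
        (fun x hx => Real.smoothTransition.one_of_one_le (le_trans hs hx)) (Real.smoothTransition.one_of_one_le hs)
    exact (uniqueDiffWithinAt_Ici s).eq_deriv _ h1 h2

theorem rho_nonneg (z : ℂ) : 0 ≤ rho z := div_nonneg (deriv_st_nonneg _) (by positivity)

theorem rho_eq_zero {z : ℂ} (h : ‖z‖ ≤ 1 ∨ Real.exp 1 ≤ ‖z‖) : rho z = 0 := by
  unfold rho
  rw [deriv_st_eq_zero, zero_div]
  rcases h with h | h
  · exact Or.inl (Real.log_nonpos (norm_nonneg z) h)
  · right
    rw [Real.le_log_iff_exp_le (lt_of_lt_of_le (Real.exp_pos 1) h)]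
    exact h

theorem lap_P (z : ℂ) : Δ P z = rho z := by
  rcases eq_or_ne z 0 with rfl | hz
  · rw [lap_congr (P_ev_zero (by simp)), rho_eq_zero (Or.inl (by simp))]
    simp [laplacian_const]
  · have h1 : ContDiffAt ℝ 2 (fun w : ℂ => Real.log ‖w‖) z := contDiffAt_log_norm (h := id) analyticAt_id hz
    have h2 := lap_comp (φ := Th) contDiff_Th.contDiffAt h1
    have h3 : Δ (fun w : ℂ => Real.log ‖w‖) z = 0 := lap_log_norm (h := id) analyticAt_id hz
    have h4 : Δ P z = _ := h2
    rw [h4, h3, mul_zero, zero_add, deriv_Th]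
    have h5 : gg (fun w : ℂ => Real.log ‖w‖) (fun w : ℂ => Real.log ‖w‖) z = 1 / ‖z‖ ^ 2 := by
      unfold gg
      have e : ∀ v : ℂ, fderiv ℝ (fun w : ℂ => Real.log ‖w‖) z v = (1 / z * v).re := by
        intro v
        have := fderiv_log_norm (g := id) differentiableAt_id hz v
        simp only [id_eq, deriv_id''] at this
        rw [this]
        simp
      rw [e, e, ← Complex.normSq_eq_norm_sq]
      have : Complex.normSq z ≠ 0 := by simpa using hz
      simp only [one_div, mul_one, Complex.inv_re, mul_re, I_re, I_im, Complex.inv_im]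
      field_simp
      rw [Complex.normSq_apply]
      ring
    rw [h5]
    unfold rho
    ring

theorem continuous_rho : Continuous rho := by
  have := continuous_lap contDiff_P
  rwa [funext lap_P] at this

end Pool.Agent.H30M

end

section

/-!
# The test functions `tau R z = log R - P z + P (z / R)`: properties
-/

set_option autoImplicit false

open MeasureTheory Complex Set Filter Topology Laplacian InnerProductSpace Metric

namespace Pool.Agent.H30M

/-- the test function -/
noncomputable def tau (R : ℝ) (z : ℂ) : ℝ := Real.log R - P z + P (z / R)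

private theorem t2_norm {R : ℝ} (hR : 1 ≤ R) (z : ℂ) : ‖z / (R : ℂ)‖ = ‖z‖ / R := by
  rw [norm_div, Complex.norm_real, Real.norm_of_nonneg (by linarith)]

/-- `tau` through `Th` -/
theorem tau_eq {R : ℝ} (hR : 1 ≤ R) {z : ℂ} (hz : z ≠ 0) :
    tau R z = Real.log R - (Th (Real.log ‖z‖) - Th (Real.log ‖z‖ - Real.log R)) := by
  unfold tau P
  rw [t2_norm hR, Real.log_div (norm_ne_zero_iff.2 hz) (by linarith)]
  ring

theorem tau_of_le_one {R : ℝ} (hR : 1 ≤ R) {z : ℂ} (hz : ‖z‖ ≤ 1) : tau R z = Real.log R := by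
  unfold tau
  rw [P_eq_zero hz, P_eq_zero (by rw [t2_norm hR, div_le_one (by linarith)]; linarith)]
  ring

theorem tau_zero {R : ℝ} (hR : 1 ≤ R) : tau R 0 = Real.log R := tau_of_le_one hR (by simp)

theorem tau_nonneg {R : ℝ} (hR : 1 ≤ R) (z : ℂ) : 0 ≤ tau R z := by
  rcases eq_or_ne z 0 with rfl | hz
  · rw [tau_zero hR]; exact Real.log_nonneg hR
  · rw [tau_eq hR hz]
    have h1 := Real.log_nonneg hR
    have h2 := Th_sub_le (s := Real.log ‖z‖) (t := Real.log ‖z‖ - Real.log R) (by linarith)
    linarith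

theorem tau_eq_zero {R : ℝ} (hR : 1 ≤ R) {z : ℂ} (hz : Real.exp 1 * R ≤ ‖z‖) : tau R z = 0 := by
  have hR0 : 0 < R := by linarith
  have hz0 : 0 < ‖z‖ := lt_of_lt_of_le (mul_pos (Real.exp_pos 1) hR0) hz
  rw [tau_eq hR (norm_pos_iff.1 hz0)]
  have h1 : 1 + Real.log R ≤ Real.log ‖z‖ := by
    have := Real.log_le_log (mul_pos (Real.exp_pos 1) hR0) hz
    rwa [Real.log_mul (Real.exp_pos 1).ne' hR0.ne', Real.log_exp] at this
  have h2 := Real.log_nonneg hR
  have h3 := Th_sub_eq (s := Real.log ‖z‖) (t := Real.log ‖z‖ - Real.log R) (by linarith) (by linarith)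
  linarith

theorem tsupport_tau {R : ℝ} (hR : 1 ≤ R) : tsupport (tau R) ⊆ closedBall 0 (Real.exp 1 * R) := by
  refine closure_minimal (fun z hz => ?_) isClosed_closedBall
  rw [mem_closedBall_zero_iff]
  by_contra h
  exact hz (tau_eq_zero hR (not_le.1 h).le)

theorem hcs_tau {R : ℝ} (hR : 1 ≤ R) : HasCompactSupport (tau R) :=
  IsCompact.of_isClosed_subset (isCompact_closedBall _ _) (isClosed_tsupport _) (tsupport_tau hR)

theorem contDiff_PR (R : ℝ) : ContDiff ℝ 2 fun z : ℂ => P (z / R) :=
  contDiff_P.comp (contDiff_id.div_const _)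

theorem contDiff_tau (R : ℝ) : ContDiff ℝ 2 (tau R) := (contDiff_const.sub contDiff_P).add (contDiff_PR R)

theorem t2_fd (R : ℝ) (f : ℂ → ℝ) (hf : Differentiable ℝ f) (z v : ℂ) :
    fderiv ℝ (fun z : ℂ => f (z / R)) z v = fderiv ℝ f (z / R) (v / R) := by
  have h1 : HasFDerivAt (fun z : ℂ => z / (R : ℂ)) (((R : ℂ)⁻¹ • ContinuousLinearMap.id ℂ ℂ).restrictScalars ℝ) z := by
    have := ((hasFDerivAt_id (𝕜 := ℂ) z).const_smul ((R : ℂ)⁻¹)).restrictScalars ℝ
    refine this.congr_of_eventuallyEq (Eventually.of_forall fun w => ?_)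
    simp [div_eq_inv_mul]
  have h2 := (hf (z / R)).hasFDerivAt.comp z h1
  have h3 : HasFDerivAt (fun z : ℂ => f (z / R)) _ z := h2
  rw [h3.fderiv]
  simp [div_eq_inv_mul]

/-- the outer density -/
noncomputable def rhoR (R : ℝ) (z : ℂ) : ℝ := rho (z / R) / R ^ 2

theorem rhoR_nonneg (R : ℝ) (z : ℂ) : 0 ≤ rhoR R z := div_nonneg (rho_nonneg _) (by positivity)

theorem rhoR_one : rhoR 1 = rho := by
  funext z; simp [rhoR]

theorem continuous_rhoR (R : ℝ) : Continuous (rhoR R) := (continuous_rho.comp (by fun_prop)).div_const _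

theorem rhoR_eq_zero {R : ℝ} (hR : 1 ≤ R) {z : ℂ} (hz : ‖z‖ ≤ R ∨ Real.exp 1 * R ≤ ‖z‖) : rhoR R z = 0 := by
  unfold rhoR
  have hR0 : 0 < R := by linarith
  rw [rho_eq_zero, zero_div]
  rw [t2_norm hR]
  rcases hz with hz | hz
  · left; rwa [div_le_one hR0]
  · right; rwa [le_div_iff₀ hR0]

theorem hcs_rhoR {R : ℝ} (hR : 1 ≤ R) : HasCompactSupport (rhoR R) := by
  refine HasCompactSupport.intro (isCompact_closedBall 0 (Real.exp 1 * R)) fun z hz => ?_
  rw [mem_closedBall_zero_iff, not_le] at hz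
  exact rhoR_eq_zero hR (Or.inr hz.le)

theorem lap_PR {R : ℝ} (hR : 1 ≤ R) (z : ℂ) : Δ (fun z : ℂ => P (z / R)) z = rhoR R z := by
  rw [lap_eq (contDiff_PR R).contDiffAt]
  have hd : ∀ v : ℂ, Differentiable ℝ fun w => fderiv ℝ P w v := fun v w =>
    (contDiffAt_d contDiff_P.contDiffAt v).differentiableAt (by norm_num)
  have key : ∀ v : ℂ, fderiv ℝ (fun w => fderiv ℝ (fun z : ℂ => P (z / R)) w v) z v =
      (1 / R ^ 2) * fderiv ℝ (fun w => fderiv ℝ P w v) (z / R) v := by
    intro v
    have e1 : (fun w => fderiv ℝ (fun z : ℂ => P (z / R)) w v) = fun w : ℂ => (fun u => (1 / R) * fderiv ℝ P u v) (w / R) := by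
      funext w
      rw [t2_fd R P (contDiff_P.differentiable (by norm_num))]
      have : v / (R : ℂ) = (1 / R : ℝ) • v := by
        rw [Complex.real_smul]; push_cast; ring
      rw [this, map_smul, smul_eq_mul]
    rw [e1, t2_fd R _ ((hd v).const_mul (1 / R))]
    have e2 : v / (R : ℂ) = (1 / R : ℝ) • v := by
      rw [Complex.real_smul]; push_cast; ring
    rw [e2, map_smul, smul_eq_mul, fderiv_const_mul ((hd v) _)]
    simp only [smul_apply, smul_eq_mul]
    ring
  rw [key, key, ← mul_add, ← lap_eq contDiff_P.contDiffAt, lap_P]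
  unfold rhoR
  ring

theorem lap_tau {R : ℝ} (hR : 1 ≤ R) (z : ℂ) : Δ (tau R) z = rhoR R z - rho z := by
  have h1 : ContDiffAt ℝ 2 (fun z : ℂ => Real.log R - P z) z := contDiffAt_const.sub contDiff_P.contDiffAt
  have h2 : ContDiffAt ℝ 2 (fun z : ℂ => P (z / R)) z := (contDiff_PR R).contDiffAt
  have h3 := lap_add h1 h2
  have h4 : Δ (tau R) z = _ := h3
  rw [h4, lap_PR hR, lap_sub contDiffAt_const contDiff_P.contDiffAt, lap_P]
  simp [laplacian_const]
  ring

/-- `∫ rho = 2 π` -/
theorem int_rho : ∫ z, rho z = 2 * Real.pi := by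
  have e : rho = fun z : ℂ => (fun y : ℝ => deriv Real.smoothTransition (Real.log y) / y ^ 2) ‖z‖ := rfl
  rw [e, integral_fun_norm_addHaar, Complex.finrank_real_complex]
  have h1 : ∫ y in Ioi (0 : ℝ), y ^ (2 - 1) • (deriv Real.smoothTransition (Real.log y) / y ^ 2) = 1 := by
    have hst : Differentiable ℝ Real.smoothTransition :=
      (Real.smoothTransition.contDiff (n := 1)).differentiable (by norm_num)
    have hd : ∀ y ∈ Ici (0 : ℝ), HasDerivAt (fun y : ℝ => Real.smoothTransition (Real.log y))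
        (y ^ (2 - 1) • (deriv Real.smoothTransition (Real.log y) / y ^ 2)) y := by
      intro y hy
      rcases eq_or_lt_of_le (show (0 : ℝ) ≤ y from hy) with h0 | h0
      · subst h0
        have h2 : (fun y : ℝ => Real.smoothTransition (Real.log y)) =ᶠ[𝓝 0] fun _ => 0 := by
          have : ∀ᶠ y : ℝ in 𝓝 0, |y| < 1 := by
            have h9 : Continuous fun y : ℝ => |y| := continuous_abs
            have h8 := h9.tendsto 0
            simp only [abs_zero] at h8
            exact h8.eventually (gt_mem_nhds zero_lt_one)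
          filter_upwards [this] with y hy
          refine Real.smoothTransition.zero_of_nonpos ?_
          rw [← Real.log_abs]
          exact Real.log_nonpos (abs_nonneg y) hy.le
        refine ((hasDerivAt_const (0 : ℝ) (0 : ℝ)).congr_of_eventuallyEq h2).congr_deriv ?_
        simp
      · refine ((hst (Real.log y)).hasDerivAt.comp y (Real.hasDerivAt_log h0.ne')).congr_deriv ?_
        simp only [smul_eq_mul]
        have hy0 : y ≠ 0 := h0.ne'
        field_simp
        norm_num
    have hl : Tendsto (fun y : ℝ => Real.smoothTransition (Real.log y)) atTop (𝓝 1) := by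
      refine tendsto_const_nhds.congr' ?_
      filter_upwards [eventually_ge_atTop (Real.exp 1)] with y hy
      rw [Real.smoothTransition.one_of_one_le]
      rwa [Real.le_log_iff_exp_le (lt_of_lt_of_le (Real.exp_pos 1) hy)]
    have := integral_Ioi_of_hasDerivAt_of_nonneg' hd (fun y hy => by
      have : (0 : ℝ) < y := hy
      rw [smul_eq_mul]
      exact mul_nonneg (by positivity) (div_nonneg (deriv_st_nonneg _) (by positivity))) hl
    rw [this]
    simp
  rw [h1]
  have hv : volume.real (ball (0 : ℂ) 1) = Real.pi := by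
    rw [Measure.real, Complex.volume_ball]
    simp
  rw [hv]
  simp

theorem int_rhoR {R : ℝ} (hR : 1 ≤ R) : ∫ z, rhoR R z = 2 * Real.pi := by
  have hR0 : 0 < R := by linarith
  have h2 := Measure.integral_comp_smul_of_nonneg (volume : Measure ℂ) (fun z : ℂ => rho z) (R⁻¹) (hR := by positivity)
  rw [Complex.finrank_real_complex, int_rho] at h2
  have e : rhoR R = fun z : ℂ => (1 / R ^ 2) * rho (R⁻¹ • z) := by
    funext z
    unfold rhoR
    have : z / (R : ℂ) = R⁻¹ • z := by
      rw [Complex.real_smul]; push_cast; ring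
    rw [this]
    ring
  rw [e, integral_const_mul, h2, smul_eq_mul]
  field_simp

/-- the average over the annulus `R < |z| < e R` (total mass `2 π`) -/
noncomputable def avg (R : ℝ) (u : ℂ → ℝ) : ℝ := ∫ z, rhoR R z * u z

/-- **Green for tau** -/
theorem green_tau {R : ℝ} (hR : 1 ≤ R) {u : ℂ → ℝ} (hu : ContDiff ℝ 2 u) :
    ∫ z, tau R z * Δ u z = avg R u - avg 1 u := by
  rw [green2 (contDiff_tau R) (hcs_tau hR) fun z _ => hu.contDiffAt]
  unfold avg
  rw [← integral_sub]
  · refine integral_congr_ae (Eventually.of_forall fun z => ?_)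
    simp only [lap_tau hR, rhoR_one]
    ring
  · exact ((continuous_rhoR R).mul hu.continuous).integrable_of_hasCompactSupport ((hcs_rhoR hR).mul_right)
  · exact ((continuous_rhoR 1).mul hu.continuous).integrable_of_hasCompactSupport ((hcs_rhoR le_rfl).mul_right)

end Pool.Agent.H30M

end

section

/-!
# The generic point of a closed subvariety of projective space
-/

open MvPolynomial
open Pool.Agent.H17GT (coordFun functionField)

noncomputable section

namespace Pool.Agent.H92.GT.Proj

variable {N : ℕ}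

lemma aeval_scale {K : Type} [Field K] [Algebra ℂ K] {G : MvPolynomial (Fin (N + 1)) ℂ} {n : ℕ}
    (hG : G.IsHomogeneous n) (c : K) (x : Fin (N + 1) → K) :
    aeval (fun i => c * x i) G = c ^ n * aeval x G := by
  rw [aeval_def, aeval_def, eval₂_eq, eval₂_eq, Finset.mul_sum]
  refine Finset.sum_congr rfl fun m hm => ?_
  have h5 : ∑ i ∈ m.support, m i = n := by
    have := hG (mem_support_iff.1 hm)
    rw [Finsupp.weight_apply, Finsupp.sum] at this
    simpa using this
  simp only [mul_pow, Finset.prod_mul_distrib]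
  rw [Finset.prod_pow_eq_pow_sum, h5]
  ring

lemma aeval_coordFun_eq_zero_iff (P : Ideal (MvPolynomial (Fin (N + 1)) ℂ)) [P.IsPrime]
    (G : MvPolynomial (Fin (N + 1)) ℂ) : aeval (coordFun P) G = 0 ↔ G ∈ P := by
  have h7 : aeval (coordFun P) G =
      algebraMap (MvPolynomial (Fin (N + 1)) ℂ ⧸ P)
        (FractionRing (MvPolynomial (Fin (N + 1)) ℂ ⧸ P)) (Ideal.Quotient.mk P G) := by
    have h8 : (aeval (coordFun P) : MvPolynomial (Fin (N + 1)) ℂ →ₐ[ℂ] _) =
        (IsScalarTower.toAlgHom ℂ (MvPolynomial (Fin (N + 1)) ℂ ⧸ P)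
          (FractionRing (MvPolynomial (Fin (N + 1)) ℂ ⧸ P))).comp (Ideal.Quotient.mkₐ ℂ P) := by
      apply MvPolynomial.algHom_ext
      intro i
      rw [aeval_X]
      rfl
    rw [h8]
    rfl
  rw [h7, ← Ideal.Quotient.eq_zero_iff_mem]
  exact map_eq_zero_iff _ (IsFractionRing.injective (MvPolynomial (Fin (N + 1)) ℂ ⧸ P)
    (FractionRing (MvPolynomial (Fin (N + 1)) ℂ ⧸ P)))

/-- The generic point, normalised at a coordinate. -/
theorem proj_point (P : Ideal (MvPolynomial (Fin (N + 1)) ℂ)) [P.IsPrime] {j₀ : Fin (N + 1)}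
    (hj₀ : coordFun P j₀ ≠ 0) :
    ∃ x : Fin (N + 1) → functionField P, x j₀ = 1 ∧
      IntermediateField.adjoin ℂ (Set.range x) = ⊤ ∧
      ∀ (n : ℕ) (G : MvPolynomial (Fin (N + 1)) ℂ), G.IsHomogeneous n →
        (aeval x G = 0 ↔ G ∈ P) := by
  classical
  have hmem : ∀ i, coordFun P i / coordFun P j₀ ∈ functionField P := fun i =>
    IntermediateField.subset_adjoin _ _ ⟨i, j₀, rfl⟩
  set x : Fin (N + 1) → functionField P := fun i => ⟨coordFun P i / coordFun P j₀, hmem i⟩ with hx
  have hx1 : x j₀ = 1 := by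
    apply Subtype.ext
    rw [hx]
    exact div_self hj₀
  have hratio : ∀ i j, ((x i / x j : functionField P) :
      FractionRing (MvPolynomial (Fin (N + 1)) ℂ ⧸ P)) = coordFun P i / coordFun P j := by
    intro i j
    have h1 : ((x i / x j : functionField P) :
      FractionRing (MvPolynomial (Fin (N + 1)) ℂ ⧸ P)) =
        (coordFun P i / coordFun P j₀) / (coordFun P j / coordFun P j₀) := by
      rw [hx]
      rfl
    rw [h1, div_div_div_cancel_right₀ hj₀]
  have hgen : IntermediateField.adjoin ℂ {y | ∃ i j, y = x i / x j} = ⊤ := by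
    rw [← IntermediateField.lift_inj, IntermediateField.lift_adjoin, IntermediateField.lift_top]
    conv_rhs => rw [functionField]
    congr 1
    ext y
    constructor
    · rintro ⟨y', ⟨i, j, rfl⟩, rfl⟩
      exact ⟨i, j, hratio i j⟩
    · rintro ⟨i, j, rfl⟩
      exact ⟨x i / x j, ⟨i, j, rfl⟩, hratio i j⟩
  refine ⟨x, hx1, ?_, ?_⟩
  · rw [eq_top_iff, ← hgen, IntermediateField.adjoin_le_iff]
    rintro y ⟨i, j, rfl⟩
    exact div_mem (IntermediateField.subset_adjoin _ _ ⟨i, rfl⟩)
      (IntermediateField.subset_adjoin _ _ ⟨j, rfl⟩)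
  · intro n G hG
    have h1 : ((aeval x G : functionField P) : FractionRing (MvPolynomial (Fin (N + 1)) ℂ ⧸ P)) =
        aeval (fun i => (coordFun P j₀)⁻¹ * coordFun P i) G := by
      have h3 : ((functionField P).val (aeval x G)) =
          aeval (fun i => (functionField P).val (x i)) G := by
        rw [← MvPolynomial.comp_aeval]
        rfl
      change (functionField P).val (aeval x G) = _
      rw [h3]
      congr 2
      funext i
      change coordFun P i / coordFun P j₀ = _
      rw [div_eq_inv_mul]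
    rw [aeval_scale hG] at h1
    rw [← aeval_coordFun_eq_zero_iff]
    constructor
    · intro h0
      rw [h0] at h1
      exact (mul_eq_zero.1 h1.symm).resolve_left (pow_ne_zero _ (inv_ne_zero hj₀))
    · intro h0
      apply Subtype.ext
      rw [h1, h0, mul_zero]
      rfl

/-- Some coordinate does not vanish. -/
lemma exists_coordFun_ne_zero (P : Ideal (MvPolynomial (Fin (N + 1)) ℂ)) [P.IsPrime] {k : ℕ}
    (z : Fin (k + 1) → functionField P) (hz : IsTranscendenceBasis ℂ z) :
    ∃ j, coordFun P j ≠ 0 := by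
  by_contra hcon
  push Not at hcon
  have h1 : functionField P = ⊥ := by
    rw [functionField, IntermediateField.adjoin_eq_bot_iff]
    rintro y ⟨i, j, rfl⟩
    rw [hcon i, zero_div]
    exact zero_mem _
  have h2 := hz.1.transcendental 0
  apply h2
  have h3 : ((z 0 : functionField P) : FractionRing (MvPolynomial (Fin (N + 1)) ℂ ⧸ P)) ∈
      (⊥ : IntermediateField ℂ (FractionRing (MvPolynomial (Fin (N + 1)) ℂ ⧸ P))) := by
    rw [← h1]
    exact (z 0).2
  obtain ⟨a, ha⟩ := IntermediateField.mem_bot.1 h3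
  have h4 : z 0 = algebraMap ℂ (functionField P) a := by
    apply Subtype.ext
    rw [← ha]
    rfl
  rw [h4]
  exact isAlgebraic_algebraMap a

end Pool.Agent.H92.GT.Proj

end
end

section

/-!
# MQ VDefs: one variable

`tau R` (in `H30M`) is the test function, `avg R u` the mean over the annulus `R < |z| < e R` (times `2 π`), `gr` the gradient.
-/

set_option autoImplicit false

open MeasureTheory Topology Filter Metric Laplacian

noncomputable section

namespace Pool.Agent.MQ

open Pool.Agent.H30M (tau rhoR avg rho)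
open Pool.Agent.H36.BP (EN fs)

variable {N M : ℕ}

/-- the length of the derivative of the curve `F` -/
def lam (F : ℂ → EN M) (z : ℂ) : ℝ := fs (F z) (deriv F z)

/-- the energy -/
def En (F : ℂ → EN M) (R : ℝ) : ℝ := ∫ z, tau R z * lam F z ^ 2

/-- the length -/
def Len (F : ℂ → EN M) (R : ℝ) : ℝ := ∫ z, ‖gr (tau R) z‖ * lam F z

/-- the logarithm of the form `g` along the curve `F` -/
def lu (F : ℂ → EN N) (g : ℂ → ℂ) (d : ℕ) (z : ℂ) : ℝ := Real.log ‖g z‖ - d * Real.log ‖F z‖

/-- the multiplicity of the zero of `g` at `z` -/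
def mult (g : ℂ → ℂ) (z : ℂ) : ℝ := analyticOrderNatAt g z

/-- One axis of a box: holomorphic functions `x`, `y` on the open set `U`, with `x' = x a`, `y' = y b`, `|a| ≤ K |b|`; the common zeros of `x` and `y`
are simple poles of `a`, with residues not greater than `κ` times the multiplicity of the zero of `g`. -/
structure Axis (U : Set ℂ) (x y a b : ℂ → ℂ) (K κ : ℝ) (g : ℂ → ℂ) : Prop where
  isOpen : IsOpen U
  hx : ∀ z ∈ U, AnalyticAt ℂ x z
  hy : ∀ z ∈ U, AnalyticAt ℂ y z
  ha : ∀ z ∈ U, x z ≠ 0 ∨ y z ≠ 0 → AnalyticAt ℂ a z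
  hb : ∀ z ∈ U, x z ≠ 0 ∨ y z ≠ 0 → AnalyticAt ℂ b z
  dx : ∀ z ∈ U, x z ≠ 0 ∨ y z ≠ 0 → deriv x z = x z * a z
  dy : ∀ z ∈ U, x z ≠ 0 ∨ y z ≠ 0 → deriv y z = y z * b z
  ab : ∀ z ∈ U, x z ≠ 0 ∨ y z ≠ 0 → ‖a z‖ ≤ K * ‖b z‖
  closed : ∀ r : ℝ, r < 1 → IsClosed {z | z ∈ U ∧ ‖x z‖ ≤ r ∧ ‖y z‖ ≤ r}
  pole : ∀ z ∈ U, x z = 0 → y z = 0 → ∃ (r : ℂ) (H : ℂ → ℂ), AnalyticAt ℂ H z ∧ r.re ≤ κ * mult g z ∧
    (∀ᶠ w in 𝓝[≠] z, a w = r / (w - z) + H w) ∧ ∀ᶠ w in 𝓝[≠] z, x w ≠ 0 ∨ y w ≠ 0

end Pool.Agent.MQ

end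
end
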