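import Mathlib

/-! The parts of this file: MQ.AJCov, MQ.AJSec, MQ.AJMul, MQ.AJPs. -/

section

/-!
# MQ AJCov: the roots of a monic polynomial as a covering

`rm d l` are the values at `0, …, d - 1` of the monic polynomial with the roots `l`.  It is a proper map, a local homeomorphism at the injective `l`,
so a covering over the polynomials with distinct roots.
-/

set_option autoImplicit false

open Topology Filter

noncomputable section

namespace Pool.Agent.MQ.AJ

variable {d : ℕ}

/-- the values at `0, …, d - 1` of the monic polynomial with the roots `l` -/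
def rm (d : ℕ) (l : Fin d → ℂ) : Fin d → ℂ := fun i => ∏ j, (((i : ℕ) : ℂ) - l j)

theorem rm_analytic (l : Fin d → ℂ) : AnalyticAt ℂ (rm d) l := by
  unfold rm
  rw [analyticAt_pi_iff]
  intro i
  have h : ∀ j ∈ (Finset.univ : Finset (Fin d)), AnalyticAt ℂ (fun l : Fin d → ℂ => ((i : ℕ) : ℂ) - l j) l := fun j _ =>
    analyticAt_const.sub ((ContinuousLinearMap.proj (R := ℂ) (φ := fun _ : Fin d => ℂ) j).analyticAt l)
  exact Finset.analyticAt_fun_prod _ h

theorem rm_continuous : Continuous (rm d) := continuous_iff_continuousAt.2 fun l => (rm_analytic l).continuousAt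

open Polynomial in
/-- a polynomial of degree `< d` which vanishes at `0, …, d - 1` is zero -/
theorem poly_zero {p : ℂ[X]} (hp : p.degree < d) (h : ∀ i : Fin d, p.eval (((i : ℕ) : ℂ)) = 0) : p = 0 := by
  refine Polynomial.eq_zero_of_degree_lt_of_eval_finset_eq_zero (s := (Finset.univ : Finset (Fin d)).map
    ⟨fun i : Fin d => (((i : ℕ) : ℂ)), fun i j hij => Fin.ext (Nat.cast_injective hij)⟩) ?_ ?_
  · simpa using hp
  · intro x hx
    simp only [Finset.mem_map, Finset.mem_univ, true_and] at hx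
    obtain ⟨i, rfl⟩ := hx
    exact h i

open Polynomial in
/-- two monic polynomials of degree `d` with the same values at `0, …, d - 1` agree -/
theorem monic_eq {p q : ℂ[X]} (hp : p.Monic) (hq : q.Monic) (hpd : p.natDegree = d) (hqd : q.natDegree = d)
    (h : ∀ i : Fin d, p.eval (((i : ℕ) : ℂ)) = q.eval (((i : ℕ) : ℂ))) : p = q := by
  have h1 : (p - q).degree < d := by
    rw [← hpd, ← Polynomial.degree_eq_natDegree hp.ne_zero]
    refine Polynomial.degree_sub_lt_left ?_ hp.ne_zero ?_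
    · rw [Polynomial.degree_eq_natDegree hp.ne_zero, Polynomial.degree_eq_natDegree hq.ne_zero, hpd, hqd]
    · rw [hp.leadingCoeff, hq.leadingCoeff]
  have h2 := poly_zero h1 fun i => by rw [Polynomial.eval_sub, h i, sub_self]
  exact sub_eq_zero.1 h2

open Polynomial in
/-- the monic polynomial with the roots `l` -/
def mp (l : Fin d → ℂ) : ℂ[X] := ∏ j, (X - C (l j))

theorem mp_eval (l : Fin d → ℂ) (t : ℂ) : (mp l).eval t = ∏ j, (t - l j) := by
  simp [mp, Polynomial.eval_prod]

theorem mp_monic (l : Fin d → ℂ) : (mp l).Monic := Polynomial.monic_prod_X_sub_C _ _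

theorem mp_natDegree (l : Fin d → ℂ) : (mp l).natDegree = d := by
  rw [mp, Polynomial.natDegree_finsetProd_X_sub_C_eq_card]
  simp

theorem mp_eq_of_rm {l m : Fin d → ℂ} (h : rm d l = rm d m) : mp l = mp m := by
  refine monic_eq (mp_monic l) (mp_monic m) (mp_natDegree l) (mp_natDegree m) fun i => ?_
  rw [mp_eval, mp_eval]
  exact congrFun h i

theorem prod_eq_of_rm {l m : Fin d → ℂ} (h : rm d l = rm d m) (t : ℂ) : ∏ j, (t - l j) = ∏ j, (t - m j) := by
  rw [← mp_eval, ← mp_eval, mp_eq_of_rm h]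

/-- the fibres are finite -/
theorem rm_fiber_finite (x : Fin d → ℂ) : (rm d ⁻¹' {x}).Finite := by
  rcases Set.eq_empty_or_nonempty (rm d ⁻¹' {x}) with h | ⟨m, hm⟩
  · rw [h]
    exact Set.finite_empty
  · have hm' : rm d m = x := hm
    refine (Set.Finite.pi' (t := fun _ : Fin d => Set.range m) fun _ => Set.finite_range m).subset ?_
    intro l hl j
    have hl' : rm d l = x := hl
    have h1 := prod_eq_of_rm (hl'.trans hm'.symm) (l j)
    rw [Finset.prod_eq_zero (Finset.mem_univ j) (sub_self _)] at h1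
    obtain ⟨k, -, hk⟩ := Finset.prod_eq_zero_iff.1 h1.symm
    exact ⟨k, (sub_eq_zero.1 hk).symm⟩

/-- roots are bounded by the values -/
theorem rm_bound {C : ℝ} (l : Fin d → ℂ) (h : ∀ i, ‖rm d l i‖ ≤ C) (j : Fin d) : ‖l j‖ ≤ |C| * 2 ^ d + d + 1 := by
  by_contra hcon
  rw [not_le] at hcon
  have hC : C ≤ |C| := le_abs_self C
  have hC0 : 0 ≤ |C| := abs_nonneg C
  have h2 : (0 : ℝ) < 2 ^ d := by positivity
  -- every `i` is near some root
  have hnear : ∀ i : Fin d, ∃ k : Fin d, ‖((i : ℕ) : ℂ) - l k‖ < 1 / 2 := by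
    intro i
    by_contra hno
    push Not at hno
    have hi : ‖((i : ℕ) : ℂ)‖ ≤ d := by
      rw [Complex.norm_natCast]
      exact_mod_cast i.2.le
    have hbig : |C| * 2 ^ d + 1 < ‖((i : ℕ) : ℂ) - l j‖ := by
      have := norm_sub_norm_le (l j) (((i : ℕ) : ℂ))
      rw [norm_sub_rev] at this
      linarith
    have h3 : (|C| * 2 ^ d + 1) * (1 / 2) ^ (d - 1) ≤ ‖rm d l i‖ := by
      rw [rm, norm_prod, ← Finset.mul_prod_erase _ _ (Finset.mem_univ j)]
      refine mul_le_mul hbig.le ?_ (by positivity) (norm_nonneg _)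
      calc ((1 : ℝ) / 2) ^ (d - 1) = ∏ _k ∈ (Finset.univ : Finset (Fin d)).erase j, ((1 : ℝ) / 2) := by
            rw [Finset.prod_const, Finset.card_erase_of_mem (Finset.mem_univ j), Finset.card_univ, Fintype.card_fin]
        _ ≤ _ := Finset.prod_le_prod (fun _ _ => by positivity) fun k _ => hno k
    have h4 : (0 : ℝ) < (1 / 2) ^ (d - 1) := by positivity
    have hd : 1 ≤ d := Nat.one_le_iff_ne_zero.2 fun h0 => by subst h0; exact j.elim0
    have h5 : (2 : ℝ) ^ d * (1 / 2) ^ (d - 1) = 2 := by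
      obtain ⟨e, rfl⟩ := Nat.exists_eq_add_of_le hd
      rw [Nat.add_sub_cancel_left, pow_add, pow_one, one_div, inv_pow]
      field_simp
    have h6 : (|C| * 2 ^ d + 1) * (1 / 2) ^ (d - 1) = 2 * |C| + (1 / 2) ^ (d - 1) := by
      rw [add_mul, mul_assoc, h5]
      ring
    have h7 := h3.trans (h i)
    rw [h6] at h7
    linarith
  choose k hk using hnear
  have hinj : Function.Injective k := by
    intro a b hab
    have h1 := hk a
    have h2 := hk b
    rw [hab] at h1
    have h3 : ‖((a : ℕ) : ℂ) - ((b : ℕ) : ℂ)‖ < 1 := by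
      have h4 : ((a : ℕ) : ℂ) - ((b : ℕ) : ℂ) = (((a : ℕ) : ℂ) - l (k b)) - (((b : ℕ) : ℂ) - l (k b)) := by ring
      rw [h4]
      refine (norm_sub_le _ _).trans_lt ?_
      linarith
    have h5 : ‖(((a : ℕ) : ℤ) - ((b : ℕ) : ℤ) : ℤ)‖ < 1 := by
      rw [Int.norm_eq_abs]
      have h6 : ‖((((a : ℕ) : ℤ) - ((b : ℕ) : ℤ) : ℤ) : ℂ)‖ < 1 := by push_cast; exact h3
      rw [Complex.norm_intCast] at h6
      exact h6
    have h7 : (((a : ℕ) : ℤ) - ((b : ℕ) : ℤ) : ℤ) = 0 := by
      rw [Int.norm_eq_abs] at h5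
      have h8 : |(((a : ℕ) : ℤ) - ((b : ℕ) : ℤ) : ℤ)| < 1 := by exact_mod_cast h5
      exact Int.abs_lt_one_iff.1 h8
    exact Fin.ext (by omega)
  obtain ⟨a, ha⟩ := (Finite.injective_iff_surjective.1 hinj) j
  have h1 := hk a
  rw [ha] at h1
  have hi : ‖((a : ℕ) : ℂ)‖ ≤ d := by
    rw [Complex.norm_natCast]
    exact_mod_cast a.2.le
  have h3 := norm_sub_norm_le (l j) (((a : ℕ) : ℂ))
  rw [norm_sub_rev] at h3
  have h4 : 0 ≤ |C| * 2 ^ d := by positivity
  linarith

theorem rm_proper : IsProperMap (rm d) := by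
  rw [isProperMap_iff_tendsto_cocompact]
  refine ⟨rm_continuous, Filter.tendsto_cocompact_cocompact_of_norm fun ε => ⟨|ε| * 2 ^ d + d + 1, fun l hl => ?_⟩⟩
  by_contra hcon
  rw [not_lt] at hcon
  have h1 : ‖l‖ ≤ |ε| * 2 ^ d + d + 1 :=
    (pi_norm_le_iff_of_nonneg (by positivity)).2 fun j => rm_bound l (fun i => (norm_le_pi_norm _ i).trans hcon) j
  linarith

/-- the derivative of `rm` -/
def rmD (l : Fin d → ℂ) : (Fin d → ℂ) →L[ℂ] (Fin d → ℂ) :=
  ContinuousLinearMap.pi fun i => ∑ j, (∏ k ∈ Finset.univ.erase j, (((i : ℕ) : ℂ) - l k)) • (-(ContinuousLinearMap.proj (R := ℂ) (φ := fun _ : Fin d => ℂ) j))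

theorem rm_hasFDerivAt (l : Fin d → ℂ) : HasFDerivAt (rm d) (rmD l) l := by
  unfold rm rmD
  rw [hasFDerivAt_pi]
  intro i
  refine HasFDerivAt.finsetProd (u := (Finset.univ : Finset (Fin d))) (g := fun j (l : Fin d → ℂ) => ((i : ℕ) : ℂ) - l j) fun j _ => ?_
  exact ((ContinuousLinearMap.proj (R := ℂ) (φ := fun _ : Fin d => ℂ) j).hasFDerivAt).const_sub _

open Polynomial in
theorem rmD_injective {l : Fin d → ℂ} (hl : Function.Injective l) : Function.Injective (rmD l) := by
  rw [injective_iff_map_eq_zero]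
  intro h h0
  set p : ℂ[X] := ∑ j, C (h j) * ∏ k ∈ Finset.univ.erase j, (X - C (l k)) with hp
  have hev : ∀ t, p.eval t = ∑ j, h j * ∏ k ∈ Finset.univ.erase j, (t - l k) := by
    intro t
    simp [hp, Polynomial.eval_finsetSum, Polynomial.eval_prod]
  have hdeg : p.degree < d := by
    rw [hp]
    refine (Polynomial.degree_sum_le _ _).trans_lt ?_
    rw [Finset.sup_lt_iff (by exact WithBot.bot_lt_coe d)]
    intro j _
    refine (Polynomial.degree_mul_le _ _).trans_lt ?_
    have hd : 1 ≤ d := Nat.one_le_iff_ne_zero.2 fun h0 => by subst h0; exact j.elim0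
    have h1 : (∏ k ∈ Finset.univ.erase j, (X - C (l k)) : ℂ[X]).degree = ((d - 1 : ℕ) : WithBot ℕ) := by
      rw [Polynomial.degree_prod]
      simp only [Polynomial.degree_X_sub_C, Finset.sum_const, Finset.card_erase_of_mem (Finset.mem_univ j), Finset.card_univ, Fintype.card_fin]
      simp
    rw [h1]
    calc (C (h j) : ℂ[X]).degree + ((d - 1 : ℕ) : WithBot ℕ) ≤ 0 + ((d - 1 : ℕ) : WithBot ℕ) := by
          gcongr
          exact Polynomial.degree_C_le
      _ < d := by
          rw [zero_add]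
          exact_mod_cast Nat.sub_lt hd one_pos
  have hz : ∀ i : Fin d, p.eval (((i : ℕ) : ℂ)) = 0 := by
    intro i
    have h1 := congrFun h0 i
    simp only [rmD, ContinuousLinearMap.coe_pi', FunLike.coe_sum, Finset.sum_apply, FunLike.coe_smul, Pi.smul_apply,
      neg_apply, ContinuousLinearMap.proj_apply, smul_eq_mul, Pi.zero_apply] at h1
    rw [hev]
    have h2 : ∑ j, h j * ∏ k ∈ Finset.univ.erase j, (((i : ℕ) : ℂ) - l k) = - ∑ j, (∏ k ∈ Finset.univ.erase j, (((i : ℕ) : ℂ) - l k)) * -h j := by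
      rw [← Finset.sum_neg_distrib]
      exact Finset.sum_congr rfl fun j _ => by ring
    rw [h2, h1, neg_zero]
  have hp0 := poly_zero hdeg hz
  funext j
  have h1 := hev (l j)
  rw [hp0, Polynomial.eval_zero, Finset.sum_eq_single j] at h1
  · have h2 : ∏ k ∈ Finset.univ.erase j, (l j - l k) ≠ 0 := by
      rw [Finset.prod_ne_zero_iff]
      intro k hk
      rw [sub_ne_zero]
      exact fun h => (Finset.ne_of_mem_erase hk) (hl h.symm)
    exact (mul_eq_zero.1 h1.symm).resolve_right h2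
  · intro k _ hk
    rw [Finset.prod_eq_zero (Finset.mem_erase.2 ⟨hk.symm, Finset.mem_univ j⟩) (sub_self _), mul_zero]
  · intro h
    exact absurd (Finset.mem_univ j) h

/-- the derivative as an equivalence -/
theorem rm_equiv {l : Fin d → ℂ} (hl : Function.Injective l) : ∃ e : (Fin d → ℂ) ≃L[ℂ] (Fin d → ℂ), (e : (Fin d → ℂ) →L[ℂ] (Fin d → ℂ)) = rmD l := by
  let e := (LinearEquiv.ofInjectiveEndo (rmD l : (Fin d → ℂ) →ₗ[ℂ] (Fin d → ℂ)) (rmD_injective hl)).toContinuousLinearEquiv
  exact ⟨e, by ext x; rfl⟩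

/-- a local inverse -/
theorem rm_local {l : Fin d → ℂ} (hl : Function.Injective l) :
    ∃ e : OpenPartialHomeomorph (Fin d → ℂ) (Fin d → ℂ), l ∈ e.source ∧ (e : (Fin d → ℂ) → (Fin d → ℂ)) = rm d ∧ AnalyticAt ℂ e.symm (rm d l) := by
  obtain ⟨i, hi⟩ := rm_equiv hl
  have hd : HasFDerivAt (rm d) (i : (Fin d → ℂ) →L[ℂ] (Fin d → ℂ)) l := by rw [hi]; exact rm_hasFDerivAt l
  have hs : HasStrictFDerivAt (rm d) (i : (Fin d → ℂ) →L[ℂ] (Fin d → ℂ)) l := (rm_analytic l).hasStrictFDerivAt.congr_fderiv hd.fderiv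
  refine ⟨hs.toOpenPartialHomeomorph (rm d), hs.mem_toOpenPartialHomeomorph_source, hs.toOpenPartialHomeomorph_coe, ?_⟩
  refine OpenPartialHomeomorph.analyticAt_symm' (i := i) _ hs.mem_toOpenPartialHomeomorph_source ?_ ?_
  · rw [hs.toOpenPartialHomeomorph_coe]
    exact rm_analytic l
  · rw [hs.toOpenPartialHomeomorph_coe]
    exact hd.fderiv

/-- the values of the polynomials with distinct roots -/
def simp (d : ℕ) : Set (Fin d → ℂ) := {x | ∀ l, rm d l = x → Function.Injective l}

theorem rm_cov : IsCoveringMapOn (rm d) (simp d) := by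
  refine rm_proper.isClosedMap.isCoveringMapOn_of_isLocalHomeomorphOn (fun x _ => rm_fiber_finite x) ?_
  intro l hl
  obtain ⟨e, h1, h2, -⟩ := rm_local (hl l rfl)
  exact ⟨e, h1, h2.symm⟩

end Pool.Agent.MQ.AJ

end
end

section

/-!
# MQ AJSec: the roots of a holomorphic family of monic polynomials with simple roots over a convex open set
-/

set_option autoImplicit false

open Topology Filter

noncomputable section

namespace Pool.Agent.MQ.AJ

variable {d : ℕ}

/-- the value at `t` of the monic polynomial with the lower coefficients `p` -/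
def pv (d : ℕ) (p : Fin d → ℂ) (t : ℂ) : ℂ := t ^ d + ∑ i, p i * t ^ (i : ℕ)

open Polynomial in
/-- the monic polynomial with the lower coefficients `p` -/
def pp (p : Fin d → ℂ) : ℂ[X] := X ^ d + ∑ i, C (p i) * X ^ (i : ℕ)

theorem pp_eval (p : Fin d → ℂ) (t : ℂ) : (pp p).eval t = pv d p t := by
  simp [pp, pv, Polynomial.eval_finsetSum]

open Polynomial in
theorem pp_deg (p : Fin d → ℂ) : (∑ i, C (p i) * X ^ (i : ℕ) : ℂ[X]).degree < d := by
  refine (Polynomial.degree_sum_le _ _).trans_lt ?_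
  rw [Finset.sup_lt_iff (by exact WithBot.bot_lt_coe d)]
  intro i _
  refine (Polynomial.degree_C_mul_X_pow_le _ _).trans_lt ?_
  exact_mod_cast i.2

theorem pp_monic (p : Fin d → ℂ) : (pp p).Monic := Polynomial.monic_X_pow_add (pp_deg p)

theorem pp_natDegree (p : Fin d → ℂ) : (pp p).natDegree = d := by
  have h : (pp p).degree = d := by
    rw [pp, Polynomial.degree_add_eq_left_of_degree_lt]
    · exact Polynomial.degree_X_pow d
    · rw [Polynomial.degree_X_pow]
      exact pp_deg p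
  exact Polynomial.natDegree_eq_of_degree_eq_some h

/-- a monic polynomial with the right values at `0, …, d - 1` -/
theorem pv_of_rm {p : Fin d → ℂ} {l : Fin d → ℂ} (h : rm d l = fun i : Fin d => pv d p ((i : ℕ) : ℂ)) (t : ℂ) : pv d p t = ∏ j, (t - l j) := by
  rw [← pp_eval, ← mp_eval]
  congr 1
  refine monic_eq (pp_monic p) (mp_monic l) (pp_natDegree p) (mp_natDegree l) fun i => ?_
  rw [pp_eval, mp_eval]
  exact (congrFun h i).symm

theorem rm_of_pv {p : Fin d → ℂ} {l : Fin d → ℂ} (h : ∀ t, pv d p t = ∏ j, (t - l j)) : rm d l = fun i : Fin d => pv d p ((i : ℕ) : ℂ) := by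
  funext i
  rw [h]
  rfl

/-- the roots -/
theorem exists_roots (p : Fin d → ℂ) : ∃ l : Fin d → ℂ, ∀ t, pv d p t = ∏ j, (t - l j) := by
  have hs : (pp p).Splits := IsAlgClosed.splits _
  have h1 := hs.eq_prod_roots_of_monic (pp_monic p)
  have h2 : (pp p).roots.card = d := by
    rw [← hs.natDegree_eq_card_roots, pp_natDegree]
  set L := (pp p).roots.toList with hL
  have h3 : L.length = d := by rw [hL, Multiset.length_toList, h2]
  refine ⟨fun j => L.get (j.cast h3.symm), fun t => ?_⟩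
  rw [← pp_eval, h1, Polynomial.eval_multiset_prod, Multiset.map_map]
  have h4 : (pp p).roots = (L : Multiset ℂ) := by rw [hL, Multiset.coe_toList]
  rw [h4, Multiset.map_coe, Multiset.prod_coe]
  have h5 : ∏ j : Fin d, (t - L.get (j.cast h3.symm)) = ∏ j : Fin L.length, (t - L.get j) := by
    refine Fintype.prod_equiv (finCongr h3.symm) _ _ fun j => ?_
    rfl
  rw [h5, ← List.prod_ofFn]
  congr 1
  refine List.ext_get (by simp) fun n h6 h7 => ?_
  simp

section

variable {E : Type*} [NormedAddCommGroup E] [NormedSpace ℂ E] {Ω : Set E} {p : Fin d → E → ℂ}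

/-- all roots are simple over `Ω` -/
def Simp (Ω : Set E) (p : Fin d → E → ℂ) : Prop :=
  ∀ ω ∈ Ω, ∀ l : Fin d → ℂ, (∀ t, pv d (fun i => p i ω) t = ∏ j, (t - l j)) → Function.Injective l

/-- the map to the values -/
def fv (p : Fin d → E → ℂ) (ω : E) : Fin d → ℂ := fun i => pv d (fun k => p k ω) ((i : ℕ) : ℂ)

theorem fv_analytic {ω : E} (hp : ∀ i, AnalyticAt ℂ (p i) ω) : AnalyticAt ℂ (fv p) ω := by
  unfold fv pv
  rw [analyticAt_pi_iff]
  intro i
  refine analyticAt_const.add ?_
  refine Finset.analyticAt_fun_sum _ fun k _ => ?_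
  exact (hp k).mul analyticAt_const

omit [NormedAddCommGroup E] [NormedSpace ℂ E] in
theorem fv_mem (hs : Simp Ω p) {ω : E} (hω : ω ∈ Ω) : fv p ω ∈ simp d := fun l hl => hs ω hω l (pv_of_rm hl)

/-- a continuous family of roots is analytic -/
theorem roots_analytic (hΩ : IsOpen Ω) (hp : ∀ i, ∀ ω ∈ Ω, AnalyticAt ℂ (p i) ω) (hs : Simp Ω p) {F : E → Fin d → ℂ} (hF : ContinuousOn F Ω)
    (h : ∀ ω ∈ Ω, rm d (F ω) = fv p ω) : ∀ ω ∈ Ω, AnalyticAt ℂ F ω := by
  intro ω hω
  have hinj : Function.Injective (F ω) := fv_mem hs hω _ (h ω hω)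
  obtain ⟨e, h1, h2, h3⟩ := rm_local hinj
  have h4 : ∀ᶠ ω' in 𝓝 ω, F ω' = e.symm (fv p ω') := by
    have h5 : ∀ᶠ ω' in 𝓝 ω, F ω' ∈ e.source := (hF.continuousAt (hΩ.mem_nhds hω)).eventually (e.open_source.mem_nhds h1)
    filter_upwards [h5, hΩ.mem_nhds hω] with ω' h6 h7
    rw [← h ω' h7, ← h2, e.left_inv h6]
  have h8 : AnalyticAt ℂ (fun ω' => e.symm (fv p ω')) ω := by
    rw [h ω hω] at h3
    exact h3.fun_comp (fv_analytic fun i => hp i ω hω)
  exact h8.congr (h4.mono fun _ h => h.symm)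

/-- **The roots over a convex set.** -/
theorem exists_sections (hΩ : IsOpen Ω) (hc : Convex ℝ Ω) (hp : ∀ i, ∀ ω ∈ Ω, AnalyticAt ℂ (p i) ω) (hs : Simp Ω p) :
    ∃ F : E → Fin d → ℂ, (∀ ω ∈ Ω, AnalyticAt ℂ F ω) ∧ ∀ ω ∈ Ω, rm d (F ω) = fv p ω := by
  rcases Set.eq_empty_or_nonempty Ω with he | hne
  · refine ⟨0, fun ω hω => ?_, fun ω hω => ?_⟩
    · rw [he] at hω
      exact absurd hω (Set.notMem_empty ω)
    · rw [he] at hω
      exact absurd hω (Set.notMem_empty ω)
  · have : ContractibleSpace Ω := hc.contractibleSpace hne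
    have : LocallyPathConnectedSpace Ω := hΩ.locallyPathConnectedSpace
    obtain ⟨ω₀, hω₀⟩ := hne
    have hcf : Continuous fun ω : Ω => fv p ω.1 := by
      rw [continuous_iff_continuousAt]
      intro ω
      exact ((fv_analytic fun i => hp i ω.1 ω.2).continuousAt).comp continuous_subtype_val.continuousAt
    obtain ⟨l₀, hl₀⟩ := exists_roots fun i => p i ω₀
    obtain ⟨F, ⟨-, hF⟩, -⟩ := rm_cov.existsUnique_continuousMap_lifts (A := Ω) ⟨fun ω : Ω => fv p ω.1, hcf⟩ (a₀ := ⟨ω₀, hω₀⟩) (e₀ := l₀)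
      (rm_of_pv hl₀) fun ω => fv_mem hs ω.2
    classical
    set G : E → Fin d → ℂ := fun ω => if h : ω ∈ Ω then F ⟨ω, h⟩ else 0 with hG
    have hGF : ∀ ω (h : ω ∈ Ω), G ω = F ⟨ω, h⟩ := fun ω h => by rw [hG]; simp only [dif_pos h]
    have hval : ∀ ω ∈ Ω, rm d (G ω) = fv p ω := by
      intro ω h
      rw [hGF ω h]
      exact congrFun hF ⟨ω, h⟩
    have hcont : ContinuousOn G Ω := by
      rw [continuousOn_iff_continuous_domRestrict]
      have h1 : Ω.domRestrict G = F := by
        funext ω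
        exact hGF ω.1 ω.2
      rw [h1]
      exact F.continuous
    exact ⟨G, roots_analytic hΩ hp hs hcont hval, hval⟩

end

end Pool.Agent.MQ.AJ

end
end

section

/-!
# MQ AJMul: the theorem of Abhyankar and Jung with multiplicities

The roots of a monic polynomial whose coefficients are holomorphic near `0` in `ℂ²` are holomorphic functions of `(x ^ (1 / n), y ^ (1 / n))`, if
the number of distinct roots is constant outside the axes.
-/

set_option autoImplicit false

open Topology Filter Metric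

noncomputable section

namespace Pool.Agent.MQ.AJ

variable {d e : ℕ}

/-- the coefficients of the monic polynomial with the roots `l` -/
theorem pv_coeff (l : Fin d → ℂ) (t : ℂ) : pv d (fun i => (mp l).coeff i) t = ∏ j, (t - l j) := by
  rw [← mp_eval, Polynomial.eval_eq_sum_range, mp_natDegree, Finset.sum_range_succ, ← Fin.sum_univ_eq_sum_range (fun i => (mp l).coeff i * t ^ i)]
  have h : (mp l).coeff d = 1 := by
    have := (mp_monic l).coeff_natDegree
    rwa [mp_natDegree] at this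
  rw [h, pv]
  ring

/-- determinants of analytic matrices -/
theorem det_analytic {E : Type*} [NormedAddCommGroup E] [NormedSpace ℂ E] {A : E → Matrix (Fin e) (Fin e) ℂ} {x : E}
    (h : ∀ i j, AnalyticAt ℂ (fun y => A y i j) x) : AnalyticAt ℂ (fun y => (A y).det) x := by
  have h1 : (fun y => (A y).det) = fun y => ∑ σ : Equiv.Perm (Fin e), ((Equiv.Perm.sign σ : ℤ) : ℂ) * ∏ i, A y (σ i) i := by
    funext y
    rw [Matrix.det_apply']
  rw [h1]
  refine Finset.analyticAt_fun_sum _ fun σ _ => analyticAt_const.mul ?_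
  exact Finset.analyticAt_fun_prod _ fun i _ => h _ _

/-- the solution of a regular linear system is analytic -/
theorem solve_analytic {E : Type*} [NormedAddCommGroup E] [NormedSpace ℂ E] {A : E → Matrix (Fin e) (Fin e) ℂ} {b c : E → Fin e → ℂ} {x : E}
    (hA : ∀ i j, AnalyticAt ℂ (fun y => A y i j) x) (hb : ∀ i, AnalyticAt ℂ (fun y => b y i) x) (hdet : (A x).det ≠ 0)
    (h : ∀ᶠ y in 𝓝 x, (A y).mulVec (c y) = b y) (i : Fin e) : AnalyticAt ℂ (fun y => c y i) x := by
  have hd := det_analytic hA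
  have h1 : AnalyticAt ℂ (fun y => ((A y).updateCol i (b y)).det) x := by
    refine det_analytic fun k j => ?_
    rcases eq_or_ne j i with rfl | hj
    · simp only [Matrix.updateCol_self]
      exact hb k
    · simp only [Matrix.updateCol_ne hj]
      exact hA k j
  refine (h1.div hd hdet).congr ?_
  filter_upwards [h, hd.continuousAt.eventually_ne hdet] with y hy hdy
  have h2 : (A y).cramer (b y) = (A y).det • c y := by
    rw [Matrix.cramer_eq_adjugate_mulVec, ← hy, Matrix.mulVec_mulVec, Matrix.adjugate_mul, Matrix.smul_mulVec, Matrix.one_mulVec]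
  have h3 : ((A y).updateCol i (b y)).det = (A y).det * c y i := by
    rw [← Matrix.cramer_apply, h2]
    rfl
  show ((A y).updateCol i (b y)).det / (A y).det = c y i
  rw [h3, mul_div_cancel_left₀ _ hdy]

/-- families of distinct numbers with the same product -/
theorem inj_of_prod {l m : Fin e → ℂ} (hm : Function.Injective m) (h : ∀ t, ∏ j, (t - l j) = ∏ j, (t - m j)) : Function.Injective l := by
  have hex : ∀ k, ∃ j, m k = l j := by
    intro k
    have h1 := h (m k)
    rw [Finset.prod_eq_zero (f := fun j => m k - m j) (Finset.mem_univ k) (sub_self _)] at h1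
    obtain ⟨j, -, hj⟩ := Finset.prod_eq_zero_iff.1 h1
    exact ⟨j, sub_eq_zero.1 hj⟩
  choose s hs using hex
  have hsi : Function.Injective s := fun a b hab => hm (by rw [hs a, hs b, hab])
  obtain ⟨-, hsu⟩ := Finite.injective_iff_bijective.1 hsi
  intro a b hab
  obtain ⟨a', rfl⟩ := hsu a
  obtain ⟨b', rfl⟩ := hsu b
  rw [← hs, ← hs] at hab
  rw [hm hab]

/-- the distinct roots -/
theorem exists_distinct {l : Fin d → ℂ} (h : (Finset.univ.image l).card = e) :
    ∃ m : Fin e → ℂ, Function.Injective m ∧ (∀ j, ∃ k, l j = m k) ∧ ∀ k, ∃ j, m k = l j := by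
  classical
  let g := (Finset.univ.image l).equivFinOfCardEq h
  refine ⟨fun k => (g.symm k : ℂ), fun a b hab => g.symm.injective (Subtype.ext hab), fun j => ?_, fun k => ?_⟩
  · refine ⟨g ⟨l j, Finset.mem_image_of_mem l (Finset.mem_univ j)⟩, ?_⟩
    simp
  · obtain ⟨j, -, hj⟩ := Finset.mem_image.1 (g.symm k).2
    exact ⟨j, hj.symm⟩

/-- multiplicities -/
def mu (l : Fin d → ℂ) (m : Fin e → ℂ) (k : Fin e) : ℕ := by
  classical exact (Finset.univ.filter fun j => l j = m k).card

theorem mu_pos {l : Fin d → ℂ} {m : Fin e → ℂ} (h : ∀ k, ∃ j, m k = l j) (k : Fin e) : 1 ≤ mu l m k := by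
  classical
  obtain ⟨j, hj⟩ := h k
  exact Finset.card_pos.2 ⟨j, Finset.mem_filter.2 ⟨Finset.mem_univ j, hj.symm⟩⟩

theorem prod_mu {l : Fin d → ℂ} {m : Fin e → ℂ} (hm : Function.Injective m) (h : ∀ j, ∃ k, l j = m k) (f : ℂ → ℂ) :
    ∏ j, f (l j) = ∏ k, f (m k) ^ mu l m k := by
  classical
  choose s hs using h
  rw [← Finset.prod_fiberwise_of_maps_to (s := Finset.univ) (t := Finset.univ) (g := s) (fun _ _ => Finset.mem_univ _)]
  refine Finset.prod_congr rfl fun k _ => ?_
  have h1 : (Finset.univ.filter fun j => s j = k) = Finset.univ.filter fun j => l j = m k := by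
    refine Finset.filter_congr fun j _ => ?_
    rw [hs j]
    exact ⟨fun h => by rw [h], fun h => hm h⟩
  have h2 : ∏ j ∈ Finset.univ.filter (fun j => s j = k), f (l j) = ∏ j ∈ Finset.univ.filter (fun j => s j = k), f (m k) := by
    refine Finset.prod_congr rfl fun j hj => ?_
    rw [hs j, (Finset.mem_filter.1 hj).2]
  rw [h2, Finset.prod_const, h1]
  rfl

theorem sum_mu {l : Fin d → ℂ} {m : Fin e → ℂ} (hm : Function.Injective m) (h : ∀ j, ∃ k, l j = m k) (f : ℂ → ℂ) :
    ∑ j, f (l j) = ∑ k, (mu l m k : ℂ) * f (m k) := by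
  classical
  choose s hs using h
  rw [← Finset.sum_fiberwise_of_maps_to (s := Finset.univ) (t := Finset.univ) (g := s) (fun _ _ => Finset.mem_univ _)]
  refine Finset.sum_congr rfl fun k _ => ?_
  have h1 : (Finset.univ.filter fun j => s j = k) = Finset.univ.filter fun j => l j = m k := by
    refine Finset.filter_congr fun j _ => ?_
    rw [hs j]
    exact ⟨fun h => by rw [h], fun h => hm h⟩
  have h2 : ∑ j ∈ Finset.univ.filter (fun j => s j = k), f (l j) = ∑ j ∈ Finset.univ.filter (fun j => s j = k), f (m k) := by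
    refine Finset.sum_congr rfl fun j hj => ?_
    rw [hs j, (Finset.mem_filter.1 hj).2]
  rw [h2, Finset.sum_const, h1, nsmul_eq_mul]
  rfl

/-- the Hankel matrix of the power sums -/
theorem hankel_eq {l : Fin d → ℂ} {m : Fin e → ℂ} (hm : Function.Injective m) (h : ∀ j, ∃ k, l j = m k) :
    (Matrix.of fun i j : Fin e => ∑ k, l k ^ ((i : ℕ) + j)) = (Matrix.vandermonde m).transpose * Matrix.diagonal (fun k => (mu l m k : ℂ)) * Matrix.vandermonde m := by
  ext i j
  rw [Matrix.of_apply, sum_mu hm h (fun t => t ^ ((i : ℕ) + j)), Matrix.mul_apply]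
  refine Finset.sum_congr rfl fun k _ => ?_
  rw [Matrix.mul_diagonal, Matrix.transpose_apply, Matrix.vandermonde_apply, Matrix.vandermonde_apply, pow_add]
  ring

theorem hankel_det {l : Fin d → ℂ} {m : Fin e → ℂ} (hm : Function.Injective m) (h : ∀ j, ∃ k, l j = m k) (h' : ∀ k, ∃ j, m k = l j) :
    (Matrix.of fun i j : Fin e => ∑ k, l k ^ ((i : ℕ) + j)).det ≠ 0 := by
  rw [hankel_eq hm h, Matrix.det_mul, Matrix.det_mul, Matrix.det_transpose, Matrix.det_diagonal]
  have h1 : (Matrix.vandermonde m).det ≠ 0 := Matrix.det_vandermonde_ne_zero_iff.2 hm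
  have h2 : ∏ k, (mu l m k : ℂ) ≠ 0 := by
    rw [Finset.prod_ne_zero_iff]
    intro k _
    exact_mod_cast (Nat.one_le_iff_ne_zero.1 (mu_pos h' k))
  exact mul_ne_zero (mul_ne_zero h1 h2) h1

theorem hankel_solve {l : Fin d → ℂ} {m : Fin e → ℂ} (_hm : Function.Injective m) (h : ∀ j, ∃ k, l j = m k) :
    (Matrix.of fun i j : Fin e => ∑ k, l k ^ ((i : ℕ) + j)).mulVec (fun i : Fin e => (mp m).coeff i) = fun i : Fin e => -∑ k, l k ^ ((i : ℕ) + e) := by
  funext i
  rw [Matrix.mulVec, dotProduct]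
  simp only [Matrix.of_apply]
  rw [eq_neg_iff_add_eq_zero]
  have h1 : ∀ k, l k ^ ((i : ℕ)) * (pv e (fun i : Fin e => (mp m).coeff i) (l k)) = 0 := by
    intro k
    obtain ⟨j, hj⟩ := h k
    rw [pv_coeff, Finset.prod_eq_zero (Finset.mem_univ j) (by rw [hj, sub_self]), mul_zero]
  calc (∑ j : Fin e, (∑ k, l k ^ ((i : ℕ) + j)) * (mp m).coeff j) + ∑ k, l k ^ ((i : ℕ) + e)
      = ∑ k, l k ^ ((i : ℕ)) * (pv e (fun i : Fin e => (mp m).coeff i) (l k)) := by
        have h2 : ∑ j : Fin e, (∑ k, l k ^ ((i : ℕ) + j)) * (mp m).coeff j = ∑ k, ∑ j : Fin e, l k ^ ((i : ℕ) + j) * (mp m).coeff j := by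
          rw [Finset.sum_comm]
          exact Finset.sum_congr rfl fun j _ => by rw [Finset.sum_mul]
        rw [h2, ← Finset.sum_add_distrib]
        refine Finset.sum_congr rfl fun k _ => ?_
        rw [pv, mul_add, Finset.mul_sum, pow_add, add_comm]
        congr 1
        exact Finset.sum_congr rfl fun j _ => by rw [pow_add]; ring
    _ = 0 := Finset.sum_eq_zero fun k _ => h1 k

end Pool.Agent.MQ.AJ

end
end

section

/-!
# MQ AJPs: the power sums of the roots are holomorphic functions of the coefficients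
-/

set_option autoImplicit false

open Topology Filter

noncomputable section

namespace Pool.Agent.MQ.AJ

variable {d : ℕ}

/-- the elementary symmetric functions of the roots -/
theorem exists_esymm (k : ℕ) : ∃ E : (Fin d → ℂ) → ℂ, (∀ p, AnalyticAt ℂ E p) ∧
    ∀ p l, (∀ t, pv d p t = ∏ j, (t - l j)) → MvPolynomial.aeval l (MvPolynomial.esymm (Fin d) ℂ k) = E p := by
  rcases Nat.eq_zero_or_pos k with rfl | hk
  · refine ⟨fun _ => 1, fun _ => analyticAt_const, fun p l _ => ?_⟩
    simp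
  by_cases hkd : k ≤ d
  · refine ⟨fun p => (-1) ^ k * p ⟨d - k, by omega⟩, fun p => analyticAt_const.mul
      ((ContinuousLinearMap.proj (R := ℂ) (φ := fun _ : Fin d => ℂ) ⟨d - k, by omega⟩).analyticAt p), fun p l h => ?_⟩
    have h1 : mp l = pp p := by
      refine monic_eq (mp_monic l) (pp_monic p) (mp_natDegree l) (pp_natDegree p) fun i => ?_
      rw [mp_eval, pp_eval, h]
    have h2 : (pp p).coeff (d - k) = p ⟨d - k, by omega⟩ := by
      rw [pp, Polynomial.coeff_add, Polynomial.coeff_X_pow, if_neg (by omega), zero_add, Polynomial.finsetSum_coeff,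
        Finset.sum_eq_single (⟨d - k, by omega⟩ : Fin d)]
      · simp
      · intro i _ hi
        rw [Polynomial.coeff_C_mul, Polynomial.coeff_X_pow, if_neg, mul_zero]
        intro h3
        exact hi (Fin.ext h3.symm)
      · intro h3
        exact absurd (Finset.mem_univ _) h3
    have h3 := Multiset.prod_X_sub_C_coeff ((Finset.univ : Finset (Fin d)).val.map l) (k := d - k) (by simp)
    have h4 : (((Finset.univ : Finset (Fin d)).val.map l).map fun t => Polynomial.X - Polynomial.C t).prod = mp l := by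
      rw [Multiset.map_map, mp]
      rfl
    have h5 : Multiset.card ((Finset.univ : Finset (Fin d)).val.map l) = d := by simp
    rw [h4, h1, h2, h5, show d - (d - k) = k by omega] at h3
    rw [MvPolynomial.aeval_esymm_eq_multiset_esymm]
    show _ = (-1) ^ k * p ⟨d - k, by omega⟩
    rw [h3, ← mul_assoc, ← mul_pow]
    norm_num
  · refine ⟨fun _ => 0, fun _ => analyticAt_const, fun p l _ => ?_⟩
    rw [MvPolynomial.aeval_esymm_eq_multiset_esymm, Multiset.esymm, Multiset.powersetCard_eq_empty]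
    · simp
    · simpa using hkd

/-- the power sums of the roots -/
theorem exists_psum (k : ℕ) : ∃ S : (Fin d → ℂ) → ℂ, (∀ p, AnalyticAt ℂ S p) ∧
    ∀ (p l : Fin d → ℂ), (∀ t, pv d p t = ∏ j, (t - l j)) → ∑ j, l j ^ k = S p := by
  have hps : ∀ (l : Fin d → ℂ) (k : ℕ), MvPolynomial.aeval l (MvPolynomial.psum (Fin d) ℂ k) = ∑ j, l j ^ k := by
    intro l k
    simp [MvPolynomial.psum]
  induction k using Nat.strong_induction_on with
  | _ k ih =>
  rcases Nat.eq_zero_or_pos k with rfl | hk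
  · exact ⟨fun _ => d, fun _ => analyticAt_const, fun p l _ => by simp⟩
  · have ih' : ∀ m : ℕ, ∃ S : (Fin d → ℂ) → ℂ, m < k → (∀ p, AnalyticAt ℂ S p) ∧ ∀ (p l : Fin d → ℂ), (∀ t, pv d p t = ∏ j, (t - l j)) → ∑ j, l j ^ m = S p := by
      intro m
      by_cases hm : m < k
      · obtain ⟨S, h1, h2⟩ := ih m hm
        exact ⟨S, fun _ => ⟨h1, h2⟩⟩
      · exact ⟨0, fun h => absurd h hm⟩
    choose S hS using ih'
    choose E hEa hE using fun k => exists_esymm (d := d) k
    refine ⟨fun p => (-1) ^ (k + 1) * k * E k p - ∑ a ∈ (Finset.HasAntidiagonal.antidiagonal k : Finset (ℕ × ℕ)).filter (fun a => a.1 ∈ Set.Ioo 0 k), (-1) ^ a.1 * E a.1 p * S a.2 p, fun p => ?_, fun p l h => ?_⟩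
    · refine (analyticAt_const.mul (hEa k p)).sub (Finset.analyticAt_fun_sum _ fun a ha => ?_)
      simp only [Finset.mem_filter, Finset.HasAntidiagonal.mem_antidiagonal, Set.mem_Ioo] at ha
      exact (analyticAt_const.mul (hEa a.1 p)).mul ((hS a.2 (by omega)).1 p)
    · rw [← hps, MvPolynomial.psum_eq_mul_esymm_sub_sum (Fin d) ℂ k hk, map_sub, map_mul, map_sum, hE k p l h]
      congr 1
      · simp
      · refine Finset.sum_congr rfl fun a ha => ?_
        simp only [Finset.mem_filter, Finset.HasAntidiagonal.mem_antidiagonal, Set.mem_Ioo] at ha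
        rw [map_mul, map_mul, hE a.1 p l h, hps, (hS a.2 (by omega)).2 p l h]
        simp

end Pool.Agent.MQ.AJ

end
end
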