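import Pool.Agent.H43.TL2.M07
import Pool.Agent.H43.TL2.M10

/-! The parts of this file: H36.TB.Cur, E1.ResL, MQ3.WDiff. -/

section

/-!
# TB Cur: a curve in a chart

`exists_coef`: for a curve `F` in the surface, near the centre of the chart, `F = c • σ (τ F)` and `F' = c • dσ ((τ F)') + a • σ (τ F)`.
-/

set_option autoImplicit false

open Topology Filter Metric

noncomputable section

namespace Pool.Agent.H36.TB

open Pool.Agent.H17BP (Surface IsForm IsChart)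

variable {V : Type} [NormedAddCommGroup V] [NormedSpace ℂ V] {X : Set V}

/-- the derivative of a curve in the surface in terms of a chart -/
theorem exists_coef [FiniteDimensional ℂ V] {σ : ℂ × ℂ → V} {τ : V → ℂ × ℂ} (h : IsChart X σ τ) :
    ∀ᶠ y in 𝓝 (σ 0), ∀ (F : ℂ → V) (z : ℂ), AnalyticAt ℂ F z → (∀ᶠ w in 𝓝 z, F w ∈ X) → F z = y →
      ∃ c a : ℂ, c ≠ 0 ∧ F z = c • σ (τ y) ∧ deriv F z = c • fderiv ℂ σ (τ y) (deriv (fun w => τ (F w)) z) + a • σ (τ y) := by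
  haveI : CompleteSpace V := FiniteDimensional.complete ℂ V
  have hτ0 : τ (σ 0) = 0 := h.left.self_of_nhds
  have hτt : Tendsto τ (𝓝 (σ 0)) (𝓝 0) := by
    have := h.τ_an.continuousAt.tendsto
    rwa [hτ0] at this
  have hσne : ∀ᶠ p in 𝓝 (0 : ℂ × ℂ), σ p ≠ 0 := h.σ_an.continuousAt.eventually_ne h.ne
  filter_upwards [eventually_eventually_nhds.2 h.right, h.τ_an.eventually_analyticAt, hτt.eventually h.σ_an.eventually_analyticAt,
    hτt.eventually hσne] with y h1 h2 h3 h4 F z hF hFX hFz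
  subst hFz
  obtain ⟨e, he⟩ : ∃ e : V →L[ℂ] ℂ, e (σ (τ (F z))) ≠ 0 := by
    obtain ⟨e, -, he⟩ := exists_dual_vector ℂ (σ (τ (F z))) (norm_ne_zero_iff.mpr h4)
    refine ⟨e, ?_⟩
    rw [he]
    exact Complex.ofReal_ne_zero.mpr (norm_ne_zero_iff.mpr h4)
  have hτF : AnalyticAt ℂ (fun w => τ (F w)) z := AnalyticAt.comp h2 hF
  have hστF : AnalyticAt ℂ (fun w => σ (τ (F w))) z := AnalyticAt.comp h3 hτF
  have he1 : AnalyticAt ℂ (fun w => e (F w)) z := AnalyticAt.comp (e.analyticAt _) hF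
  have he2 : AnalyticAt ℂ (fun w => e (σ (τ (F w)))) z := AnalyticAt.comp (e.analyticAt _) hστF
  have hc : AnalyticAt ℂ (fun w => e (F w) / e (σ (τ (F w)))) z := he1.div he2 he
  have hne : ∀ᶠ w in 𝓝 z, e (σ (τ (F w))) ≠ 0 := he2.continuousAt.eventually_ne he
  have hex : ∀ᶠ w in 𝓝 z, ∃ c : ℂ, c ≠ 0 ∧ F w = c • σ (τ (F w)) := by
    filter_upwards [hF.continuousAt.eventually h1, hFX] with w k1 k2
    exact k1 k2
  have hval : ∀ᶠ w in 𝓝 z, F w = (e (F w) / e (σ (τ (F w)))) • σ (τ (F w)) := by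
    filter_upwards [hex, hne] with w k1 k2
    obtain ⟨c, -, hc'⟩ := k1
    have k3 : e (F w) = c * e (σ (τ (F w))) := by
      conv_lhs => rw [hc']
      rw [map_smul, smul_eq_mul]
    rw [k3, mul_div_cancel_right₀ _ k2]
    exact hc'
  obtain ⟨c₁, hc₁, hc₁'⟩ := hex.self_of_nhds
  have hc0 : e (F z) / e (σ (τ (F z))) = c₁ := by
    have k3 : e (F z) = c₁ * e (σ (τ (F z))) := by
      conv_lhs => rw [hc₁']
      rw [map_smul, smul_eq_mul]
    rw [k3, mul_div_cancel_right₀ _ he]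
  have hd1 : HasDerivAt (fun w => τ (F w)) (deriv (fun w => τ (F w)) z) z := hτF.differentiableAt.hasDerivAt
  have hd2 : HasDerivAt (fun w => σ (τ (F w))) (fderiv ℂ σ (τ (F z)) (deriv (fun w => τ (F w)) z)) z :=
    HasFDerivAt.comp_hasDerivAt z (l := σ) (l' := fderiv ℂ σ (τ (F z))) h3.differentiableAt.hasFDerivAt hd1
  have hd3 := hc.differentiableAt.hasDerivAt.smul hd2
  have hd4 : deriv F z = deriv (fun w => (e (F w) / e (σ (τ (F w)))) • σ (τ (F w))) z := Filter.EventuallyEq.deriv_eq hval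
  refine ⟨c₁, deriv (fun w => e (F w) / e (σ (τ (F w)))) z, hc₁, hc₁', ?_⟩
  rw [hd4]
  have hd5 : deriv (fun w => (e (F w) / e (σ (τ (F w)))) • σ (τ (F w))) z =
      (e (F z) / e (σ (τ (F z)))) • fderiv ℂ σ (τ (F z)) (deriv (fun w => τ (F w)) z) +
      deriv (fun w => e (F w) / e (σ (τ (F w)))) z • σ (τ (F z)) := hd3.deriv
  rw [hd5, hc0]

end Pool.Agent.H36.TB

end
end

section

/-!
# E1 ResL: the common null directions of two symmetric differentials, in a chart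
-/

set_option autoImplicit false

open Topology Filter Metric

noncomputable section

namespace Pool.Agent.E1

open Pool.Agent.H36.BP (EN)
open Pool.Agent.H14.PP (Tan)
open Pool.Agent.H17BP (Surface IsChart LocalEq)

variable {N : ℕ} {X : Set (EN N)}

/-- the differential of a parametrization maps to the tangent spaces -/
theorem ResL_tan {σ : ℂ × ℂ → EN N} {p : ℂ × ℂ} (hσ : AnalyticAt ℂ σ p) (hX : ∀ᶠ q in 𝓝 p, σ q ∈ X) (v : ℂ × ℂ) :
    Tan X (σ p) (fderiv ℂ σ p v) := by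
  have hl : AnalyticAt ℂ (fun z : ℂ => p + z • v) 0 := by fun_prop
  have h0 : p + (0 : ℂ) • v = p := by simp
  have hσ' : AnalyticAt ℂ σ (p + (0 : ℂ) • v) := by rwa [h0]
  refine ⟨fun z => σ (p + z • v), ⟨AnalyticAt.comp (g := σ) (f := fun z : ℂ => p + z • v) hσ' hl, ?_⟩, by simp, ?_⟩
  · have h1 : Tendsto (fun z : ℂ => p + z • v) (𝓝 0) (𝓝 p) := by
      have := hl.continuousAt.tendsto
      rwa [h0] at this
    exact h1.eventually hX
  · have h1 : HasFDerivAt σ (fderiv ℂ σ p) (p + (0 : ℂ) • v) := by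
      rw [h0]
      exact hσ.differentiableAt.hasFDerivAt
    have h2 : HasDerivAt (fun z : ℂ => p + z • v) v 0 := by
      have h3 : HasDerivAt (fun z : ℂ => z • v) ((1 : ℂ) • v) 0 := (hasDerivAt_id (0 : ℂ)).smul_const v
      rw [one_smul] at h3
      exact h3.const_add p
    exact (h1.comp_hasDerivAt (0 : ℂ) h2).deriv

/-- the tangent spaces in a chart -/
theorem ResL_span {σ : ℂ × ℂ → EN N} {τ : EN N → ℂ × ℂ} (hσ : IsChart X σ τ) :
    ∀ᶠ p in 𝓝 (0 : ℂ × ℂ), ∀ w, Tan X (σ p) w → ∃ (v : ℂ × ℂ) (a : ℂ), w = fderiv ℂ σ p v + a • σ p := by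
  have hσc : Tendsto σ (𝓝 (0 : ℂ × ℂ)) (𝓝 (σ 0)) := hσ.σ_an.continuousAt.tendsto
  have hne : ∀ᶠ p in 𝓝 (0 : ℂ × ℂ), σ p ≠ 0 := hσ.σ_an.continuousAt.eventually_ne hσ.ne
  filter_upwards [hσc.eventually (Pool.Agent.H36.TB.exists_coef hσ), hσ.left, hne] with p h1 h3 h4 w hw
  obtain ⟨F, ⟨hF, hFX⟩, hF0, hFd⟩ := hw
  obtain ⟨c, a, hc, h5, h6⟩ := h1 F 0 hF hFX hF0
  rw [hF0, h3] at h5
  rw [h3] at h6
  have hc1 : c = 1 := by
    by_contra hc1
    apply h4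
    have h7 : (c - 1) • σ p = 0 := by
      rw [sub_smul, one_smul, ← h5, sub_self]
    exact (smul_eq_zero.1 h7).resolve_left (sub_ne_zero.2 hc1)
  rw [hc1, one_smul] at h6
  exact ⟨_, a, hFd ▸ h6⟩

/-- the parametrization is transversal to the lines of the cone -/
theorem ResL_indep {σ : ℂ × ℂ → EN N} {τ : EN N → ℂ × ℂ} (hσ : IsChart X σ τ) :
    ∀ᶠ p in 𝓝 (0 : ℂ × ℂ), ∀ (v : ℂ × ℂ) (a : ℂ), fderiv ℂ σ p v = a • σ p → v = 0 := by
  have hσc : Tendsto σ (𝓝 (0 : ℂ × ℂ)) (𝓝 (σ 0)) := hσ.σ_an.continuousAt.tendsto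
  have h1 : ∀ᶠ p in 𝓝 (0 : ℂ × ℂ), AnalyticAt ℂ σ p := hσ.σ_an.eventually_analyticAt
  have h2 : ∀ᶠ p in 𝓝 (0 : ℂ × ℂ), AnalyticAt ℂ τ (σ p) := hσc.eventually hσ.τ_an.eventually_analyticAt
  have h3 : ∀ᶠ p in 𝓝 (0 : ℂ × ℂ), ∀ᶠ q in 𝓝 p, τ (σ q) = q := eventually_eventually_nhds.2 hσ.left
  have h4 : ∀ᶠ p in 𝓝 (0 : ℂ × ℂ), ∀ᶠ c in 𝓝 (1 : ℂ), τ (c • σ p) = τ (σ p) := by
    have h5 : ∀ᶠ y in 𝓝 (σ 0), ∀ᶠ c in 𝓝 (1 : ℂ), τ (c • y) = τ y := by
      have h6 := hσ.inv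
      rw [nhds_prod_eq] at h6
      exact h6.curry
    exact hσc.eventually h5
  filter_upwards [h1, h2, h3, h4] with p p1 p2 p3 p4 v a hv
  have h5 : HasFDerivAt τ (fderiv ℂ τ (σ p)) (σ p) := p2.differentiableAt.hasFDerivAt
  have h6 : fderiv ℂ τ (σ p) (fderiv ℂ σ p v) = v := by
    have h7 := h5.comp p p1.differentiableAt.hasFDerivAt
    have h8 : HasFDerivAt (τ ∘ σ) (ContinuousLinearMap.id ℂ (ℂ × ℂ)) p := (hasFDerivAt_id p).congr_of_eventuallyEq p3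
    have := DFunLike.congr_fun (h7.unique h8) v
    simpa using this
  have h7 : fderiv ℂ τ (σ p) (σ p) = 0 := by
    have h8 : HasFDerivAt τ (fderiv ℂ τ (σ p)) ((1 : ℂ) • σ p) := by
      rw [one_smul]
      exact h5
    have h9 : HasDerivAt (fun c : ℂ => c • σ p) (σ p) 1 := by
      simpa using (hasDerivAt_id (1 : ℂ)).smul_const (σ p)
    have h10 := h8.comp_hasDerivAt (1 : ℂ) h9
    have h11 : HasDerivAt (τ ∘ fun c : ℂ => c • σ p) 0 1 := (hasDerivAt_const (1 : ℂ) (τ (σ p))).congr_of_eventuallyEq p4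
    exact h10.unique h11
  rw [← h6, hv, map_smul, h7, smul_zero]

end Pool.Agent.E1

end
end

section

/-!
# MQ3 WDiff: symmetric differentials of arbitrary weight

`WDiff X m`: a function `Θ (x; v)` which is homogeneous of degree `m` in `v`, analytic along analytic families of tangent vectors of the cone `X`, does not change
if `v` is replaced by `v + a x`, and is multiplied by a constant if `(x, v)` is replaced by `(c x, c v)`: a symmetric differential with values in a power of the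
hyperplane bundle.  `SymDiff.toW`: weight zero.
-/

set_option autoImplicit false

open Topology Filter Metric MvPolynomial

noncomputable section

namespace Pool.Agent.MQ3

open Pool.Agent.H36.BP (EN)
open Pool.Agent.H14.PP (Tan)

variable {N : ℕ}

/-- A symmetric differential `Θ (x; v)` of degree `m` on the cone `X`, with values in some power of the hyperplane bundle. -/
structure WDiff (X : Set (EN N)) (m : ℕ) where
  /-- the differential -/
  toFun : EN N → EN N → ℂ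
  add_smul : ∀ x v, Tan X x v → ∀ a : ℂ, toFun x (v + a • x) = toFun x v
  smul : ∀ x v, Tan X x v → ∀ a : ℂ, toFun x (a • v) = a ^ m * toFun x v
  scale : ∀ c : ℂ, c ≠ 0 → ∃ a : ℂ, a ≠ 0 ∧ ∀ x v, Tan X x v → toFun (c • x) (c • v) = a * toFun x v
  analytic : ∀ (k : ℕ) (φ : (Fin k → ℂ) → EN N) (p w : Fin k → ℂ), AnalyticAt ℂ φ p → (∀ᶠ y in 𝓝 p, φ y ∈ X) →
    AnalyticAt ℂ (fun y : (Fin k → ℂ) × (Fin k → ℂ) => toFun (φ y.1) (fderiv ℂ φ y.1 y.2)) (p, w)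

variable {X : Set (EN N)} {m : ℕ}

theorem WDiff.scale_eq_zero (θ : WDiff X m) {x v : EN N} (hv : Tan X x v) {c : ℂ} (hc : c ≠ 0) : θ.toFun (c • x) (c • v) = 0 ↔ θ.toFun x v = 0 := by
  obtain ⟨a, ha, h⟩ := θ.scale c hc
  rw [h x v hv, mul_eq_zero]
  exact or_iff_right ha

/-- a symmetric differential in the coordinates of a parametrization is analytic (`ResL_analytic` for `WDiff`) -/
theorem WDiff.res_analytic (θ : WDiff X m) {σ : ℂ × ℂ → EN N} (hσ : AnalyticAt ℂ σ 0) (hX : ∀ᶠ p in 𝓝 (0 : ℂ × ℂ), σ p ∈ X)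
    (v : ℂ × ℂ) : AnalyticAt ℂ (fun q : (ℂ × ℂ) × (ℂ × ℂ) => θ.toFun (σ q.1) (fderiv ℂ σ q.1 q.2)) (0, v) := by
  set e : (Fin 2 → ℂ) →L[ℂ] ℂ × ℂ := (ContinuousLinearMap.proj 0).prod (ContinuousLinearMap.proj 1) with he
  set f : ℂ × ℂ →L[ℂ] (Fin 2 → ℂ) := ContinuousLinearMap.pi ![ContinuousLinearMap.fst ℂ ℂ ℂ, ContinuousLinearMap.snd ℂ ℂ ℂ] with hf
  have hef : ∀ p : ℂ × ℂ, e (f p) = p := by
    intro p
    ext <;> simp [he, hf]
  have he0 : e 0 = 0 := map_zero e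
  have hφ : AnalyticAt ℂ (fun y : Fin 2 → ℂ => σ (e y)) 0 := by
    have h1 : AnalyticAt ℂ σ (e 0) := by rwa [he0]
    exact AnalyticAt.comp (g := σ) (f := fun y => e y) h1 (e.analyticAt 0)
  have het : Tendsto e (𝓝 0) (𝓝 (0 : ℂ × ℂ)) := by
    have := e.continuous.tendsto 0
    rwa [he0] at this
  have hφX : ∀ᶠ y in 𝓝 (0 : Fin 2 → ℂ), σ (e y) ∈ X := het.eventually hX
  have h1 := θ.analytic 2 (fun y => σ (e y)) 0 (f v) hφ hφX
  set G : (ℂ × ℂ) × (ℂ × ℂ) →L[ℂ] (Fin 2 → ℂ) × (Fin 2 → ℂ) := f.prodMap f with hG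
  have hG0 : G (0, v) = (0, f v) := by
    simp [hG]
  have h2 : AnalyticAt ℂ (fun q : (ℂ × ℂ) × (ℂ × ℂ) => θ.toFun (σ (e (G q).1)) (fderiv ℂ (fun y => σ (e y)) (G q).1 (G q).2)) (0, v) := by
    have h3 : AnalyticAt ℂ (fun y : (Fin 2 → ℂ) × (Fin 2 → ℂ) => θ.toFun (σ (e y.1)) (fderiv ℂ (fun y => σ (e y)) y.1 y.2)) (G (0, v)) := by
      rw [hG0]
      exact h1
    exact AnalyticAt.comp (g := fun y : (Fin 2 → ℂ) × (Fin 2 → ℂ) => θ.toFun (σ (e y.1)) (fderiv ℂ (fun y => σ (e y)) y.1 y.2))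
      (f := fun q => G q) h3 (G.analyticAt _)
  refine h2.congr ?_
  have h4 : ∀ᶠ q in 𝓝 ((0 : ℂ × ℂ), v), AnalyticAt ℂ σ q.1 :=
    (continuous_fst.tendsto ((0 : ℂ × ℂ), v)).eventually hσ.eventually_analyticAt
  filter_upwards [h4] with q hq
  have h5 : (G q).1 = f q.1 := rfl
  have h6 : (G q).2 = f q.2 := rfl
  rw [h5, h6, hef]
  have h7 : HasFDerivAt (fun y : Fin 2 → ℂ => σ (e y)) ((fderiv ℂ σ q.1).comp e) (f q.1) := by
    have h8 : HasFDerivAt σ (fderiv ℂ σ q.1) (e (f q.1)) := by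
      rw [hef]
      exact hq.differentiableAt.hasFDerivAt
    exact h8.comp (f q.1) e.hasFDerivAt
  rw [h7.fderiv, ContinuousLinearMap.comp_apply, hef]

end Pool.Agent.MQ3

end
end
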