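import Pool.Agent.H43.TL2.H17BP.Div
import Pool.Agent.H43.TL2.M13
import Pool.Agent.H43.TL2.M20

/-! The parts of this file: H17BP.ChartC, H17BP.StepN, H17BP.TanK, H30M.Mean. -/

section

/-!
# The charts of the blow-up, up to coordinate changes

Proof of `bchart_class`.  By definition `β = θ₁ ∘ bl 0 ∘ θ₂`; it is enough to write `θ₁ ∘ bl 0` as `bl c ∘ θ'` or
`blInf ∘ θ'` (then compose with `θ₂`).  Let `θ₁ = (A, B)`, so `A 0 = B 0 = 0` and
`d := dx A 0 * dy B 0 - dy A 0 * dx B 0 ≠ 0` (`coord_iff`).  The functions `A (x, x w)`, `B (x, x w)` vanish for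
`x = 0`, so (`exists_div_x`) they are `x A₁(x, w)`, `x B₁(x, w)`, and by differentiating in `x` at `x = 0`:
`A₁ (0, w) = dx A 0 + w dy A 0`, `B₁ (0, w) = dx B 0 + w dy B 0`.
If `A₁ 0 ≠ 0`: `c = B₁ 0 / A₁ 0`, `θ' = (x A₁, B₁ / A₁ - c)`: `bl c θ' = (x A₁, x A₁ (B₁ / A₁)) = θ₁ (x, x w)`, and
`θ'` is `Bihol` by `coord_iff`: its derivative matrix at `0` is `((A₁ 0, 0), (*, d / (A₁ 0)²))`.
If `A₁ 0 = dx A 0 = 0`: `B₁ 0 = dx B 0 ≠ 0`, `θ' = (A₁ / B₁, x B₁)`, `blInf θ' = (x A₁, x B₁)`, determinant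
`- (dy A 0 / B₁ 0) * B₁ 0 = - dy A 0 ≠ 0`.
-/

open Topology Filter

noncomputable section

namespace Pool.Agent.H17BP

private theorem ChartC_derX {f : ℂ × ℂ → ℂ} (hf : AnalyticAt ℂ f 0) :
    HasDerivAt (fun t : ℂ => f (t, 0)) (dx f 0) 0 := by
  have h1 : HasDerivAt (fun t : ℂ => (t, (0 : ℂ))) ((1 : ℂ), (0 : ℂ)) 0 :=
    (hasDerivAt_id (0 : ℂ)).prodMk (hasDerivAt_const (0 : ℂ) (0 : ℂ))
  have h2 : HasFDerivAt f (fderiv ℂ f 0) ((fun t : ℂ => (t, (0 : ℂ))) 0) := hf.differentiableAt.hasFDerivAt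
  exact HasFDerivAt.comp_hasDerivAt (f := fun t : ℂ => (t, (0 : ℂ))) (0 : ℂ) h2 h1

private theorem ChartC_derY {f : ℂ × ℂ → ℂ} (hf : AnalyticAt ℂ f 0) :
    HasDerivAt (fun w : ℂ => f (0, w)) (dy f 0) 0 := by
  have h1 : HasDerivAt (fun w : ℂ => ((0 : ℂ), w)) ((0 : ℂ), (1 : ℂ)) 0 :=
    (hasDerivAt_const (0 : ℂ) (0 : ℂ)).prodMk (hasDerivAt_id (0 : ℂ))
  have h2 : HasFDerivAt f (fderiv ℂ f 0) ((fun w : ℂ => ((0 : ℂ), w)) 0) := hf.differentiableAt.hasFDerivAt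
  exact HasFDerivAt.comp_hasDerivAt (f := fun w : ℂ => ((0 : ℂ), w)) (0 : ℂ) h2 h1

/-- the strict transform of a function in the chart `bl 0` -/
private theorem ChartC_div {A : ℂ × ℂ → ℂ} (hA : AnalyticAt ℂ A 0) (hA0 : A 0 = 0) :
    ∃ A₁ : ℂ × ℂ → ℂ, AnalyticAt ℂ A₁ 0 ∧ (∀ᶠ x in 𝓝 (0 : ℂ × ℂ), A (bl 0 x) = x.1 * A₁ x) ∧
      ∀ᶠ w in 𝓝 (0 : ℂ), A₁ (0, w) = dx A 0 + w * dy A 0 := by
  have hcomp : AnalyticAt ℂ (fun x => A (bl 0 x)) 0 := by
    have h1 : AnalyticAt ℂ A (bl 0 0) := by rw [bl_zero]; exact hA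
    exact h1.comp (analyticAt_bl 0 0)
  obtain ⟨A₁, h1, h2⟩ := exists_div_x hcomp (Eventually.of_forall fun y => by
    change A (bl 0 (0, y)) = 0
    have : bl 0 ((0 : ℂ), y) = 0 := by
      unfold bl
      simp
    rw [this, hA0])
  refine ⟨A₁, h1, h2, ?_⟩
  have hc : Tendsto (fun w : ℂ => ((0 : ℂ), w)) (𝓝 0) (𝓝 (0 : ℂ × ℂ)) := by
    have : Continuous (fun w : ℂ => ((0 : ℂ), w)) := by fun_prop
    exact this.tendsto' 0 0 rfl
  have h3 := hc.eventually h2.eventually_nhds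
  have h4 := hc.eventually h1.eventually_analyticAt
  filter_upwards [h3, h4] with w hw3 hw4
  -- two derivatives in `t`
  have hc' : Tendsto (fun t : ℂ => (t, w)) (𝓝 0) (𝓝 ((0 : ℂ), w)) := by
    have : Continuous (fun t : ℂ => (t, w)) := by fun_prop
    exact this.tendsto' 0 _ rfl
  have h5 := hc'.eventually hw3
  have hd1 : HasDerivAt (fun t : ℂ => A₁ (t, w)) (fderiv ℂ A₁ (0, w) (1, 0)) 0 := by
    have h6 : HasDerivAt (fun t : ℂ => (t, w)) ((1 : ℂ), (0 : ℂ)) 0 :=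
      (hasDerivAt_id (0 : ℂ)).prodMk (hasDerivAt_const (0 : ℂ) w)
    have h7 : HasFDerivAt A₁ (fderiv ℂ A₁ (0, w)) ((fun t : ℂ => (t, w)) 0) := hw4.differentiableAt.hasFDerivAt
    exact HasFDerivAt.comp_hasDerivAt (f := fun t : ℂ => (t, w)) (0 : ℂ) h7 h6
  have hd2 : HasDerivAt (fun t : ℂ => t * A₁ (t, w)) (A₁ (0, w)) 0 := by
    have h8 : HasDerivAt (fun t : ℂ => t * A₁ (t, w)) (1 * A₁ (0, w) + 0 * fderiv ℂ A₁ (0, w) (1, 0)) 0 :=
      (hasDerivAt_id (0 : ℂ)).mul hd1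
    rwa [one_mul, zero_mul, add_zero] at h8
  have hd3 : HasDerivAt (fun t : ℂ => A (bl 0 (t, w))) (A₁ (0, w)) 0 := by
    refine hd2.congr_of_eventuallyEq ?_
    filter_upwards [h5] with t ht
    exact ht
  have hd4 : HasDerivAt (fun t : ℂ => A (bl 0 (t, w))) (fderiv ℂ A 0 (1, w)) 0 := by
    have h6 : HasDerivAt (fun t : ℂ => bl 0 (t, w)) ((1 : ℂ), w) 0 := by
      have h7 : HasDerivAt (fun t : ℂ => t * (0 + w)) (1 * (0 + w)) 0 := (hasDerivAt_id (0 : ℂ)).mul_const (0 + w)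
      have h8 : HasDerivAt (fun t : ℂ => (t, t * (0 + w))) ((1 : ℂ), 1 * (0 + w)) 0 :=
        (hasDerivAt_id (0 : ℂ)).prodMk h7
      have h9 : ((1 : ℂ), w) = ((1 : ℂ), 1 * (0 + w)) := by rw [one_mul, zero_add]
      rw [h9]
      exact h8
    have h7 : HasFDerivAt A (fderiv ℂ A 0) ((fun t : ℂ => bl 0 (t, w)) 0) := by
      have h8 : bl 0 ((0 : ℂ), w) = 0 := by
        unfold bl
        simp
      change HasFDerivAt A (fderiv ℂ A 0) (bl 0 ((0 : ℂ), w))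
      rw [h8]
      exact hA.differentiableAt.hasFDerivAt
    exact HasFDerivAt.comp_hasDerivAt (f := fun t : ℂ => bl 0 (t, w)) (0 : ℂ) h7 h6
  rw [hd3.unique hd4]
  have h9 : ((1 : ℂ), w) = (1, 0) + w • ((0 : ℂ), (1 : ℂ)) := by
    ext <;> simp
  rw [h9, map_add, map_smul]
  rfl

private theorem ChartC_core {θ₁ : ℂ × ℂ → ℂ × ℂ} (h : Bihol θ₁) : ∃ θ : ℂ × ℂ → ℂ × ℂ, Bihol θ ∧
    ((∃ c : ℂ, ∀ᶠ x in 𝓝 0, θ₁ (bl 0 x) = bl c (θ x)) ∨ ∀ᶠ x in 𝓝 0, θ₁ (bl 0 x) = blInf (θ x)) := by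
  have hco : Coord (fun x => (θ₁ x).1) (fun x => (θ₁ x).2) := h
  obtain ⟨hA, hB, hA0, hB0⟩ := hco.parts
  have hd := (coord_iff hA hB hA0 hB0).1 hco
  obtain ⟨A₁, a1, a2, a3⟩ := ChartC_div hA hA0
  obtain ⟨B₁, b1, b2, b3⟩ := ChartC_div hB hB0
  generalize hpa : dx (fun x => (θ₁ x).1) 0 = pa at *
  generalize hqa : dy (fun x => (θ₁ x).1) 0 = qa at *
  generalize hpb : dx (fun x => (θ₁ x).2) 0 = pb at *
  generalize hqb : dy (fun x => (θ₁ x).2) 0 = qb at *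
  have a4 : A₁ 0 = pa := by
    have := a3.self_of_nhds
    rwa [zero_mul, add_zero] at this
  have b4 : B₁ 0 = pb := by
    have := b3.self_of_nhds
    rwa [zero_mul, add_zero] at this
  -- the derivative of an affine function
  have haff : ∀ p q : ℂ, HasDerivAt (fun w : ℂ => p + w * q) q 0 := by
    intro p q
    have := ((hasDerivAt_id (0 : ℂ)).mul_const q).const_add p
    simpa using this
  -- the derivative of a product with `x`
  have hprod : ∀ {C : ℂ × ℂ → ℂ}, AnalyticAt ℂ C 0 → dx (fun x => x.1 * C x) 0 = C 0 ∧ dy (fun x => x.1 * C x) 0 = 0 := by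
    intro C hC
    have hS : AnalyticAt ℂ (fun x : ℂ × ℂ => x.1 * C x) 0 := analyticAt_fst.mul hC
    constructor
    · refine (ChartC_derX hS).unique ?_
      have h1 := (hasDerivAt_id (0 : ℂ)).mul (ChartC_derX hC)
      have h2 : (1 : ℂ) * C (0, 0) + id (0 : ℂ) * dx C 0 = C 0 := by
        rw [one_mul, id, zero_mul, add_zero]
        rfl
      rw [← h2]
      exact h1
    · refine (ChartC_derY hS).unique ?_
      have h1 : (fun w : ℂ => ((0 : ℂ), w).1 * C (0, w)) = fun _ => 0 := by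
        funext w
        simp
      rw [h1]
      exact hasDerivAt_const _ _
  by_cases hz : pa = 0
  · -- the point at infinity
    have hpb0 : pb ≠ 0 := by
      intro h0
      apply hd
      rw [hz, h0]
      ring
    have hqa0 : qa ≠ 0 := by
      intro h0
      apply hd
      rw [hz, h0]
      ring
    have hB1 : B₁ 0 ≠ 0 := by rw [b4]; exact hpb0
    have hS : AnalyticAt ℂ (fun x => A₁ x / B₁ x) 0 := a1.div b1 hB1
    have hT : AnalyticAt ℂ (fun x : ℂ × ℂ => x.1 * B₁ x) 0 := analyticAt_fst.mul b1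
    have hSy : dy (fun x => A₁ x / B₁ x) 0 = qa / pb := by
      refine (ChartC_derY hS).unique ?_
      have h1 := (haff pa qa).div (haff pb qb) (by simpa using hpb0)
      have h2 : HasDerivAt (fun w : ℂ => (pa + w * qa) / (pb + w * qb)) (qa / pb) 0 := by
        refine h1.congr_deriv ?_
        rw [hz]
        simp only [zero_mul, add_zero, sub_zero]
        field_simp
      refine h2.congr_of_eventuallyEq ?_
      filter_upwards [a3, b3] with w hwa hwb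
      rw [hwa, hwb]
    have hθ : Coord (fun x => A₁ x / B₁ x) (fun x : ℂ × ℂ => x.1 * B₁ x) := by
      rw [coord_iff hS hT (by rw [a4, hz, zero_div]) (by simp)]
      rw [(hprod b1).2, (hprod b1).1, hSy, b4]
      intro h0
      apply hqa0
      field_simp at h0
      simpa using h0
    refine ⟨fun x => (A₁ x / B₁ x, x.1 * B₁ x), hθ, Or.inr ?_⟩
    filter_upwards [a2, b2, b1.continuousAt.eventually_ne hB1] with x h1 h2 h3
    unfold blInf
    ext
    · change (θ₁ (bl 0 x)).1 = A₁ x / B₁ x * (x.1 * B₁ x)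
      rw [h1]
      field_simp
    · exact h2
  · -- a finite point
    have hA1 : A₁ 0 ≠ 0 := by rw [a4]; exact hz
    have hS : AnalyticAt ℂ (fun x : ℂ × ℂ => x.1 * A₁ x) 0 := analyticAt_fst.mul a1
    have hT : AnalyticAt ℂ (fun x => B₁ x / A₁ x - pb / pa) 0 := (b1.div a1 hA1).sub analyticAt_const
    have hTy : dy (fun x => B₁ x / A₁ x - pb / pa) 0 = (pa * qb - qa * pb) / pa ^ 2 := by
      refine (ChartC_derY hT).unique ?_
      have h1 := ((haff pb qb).div (haff pa qa) (by simpa using hz)).sub_const (pb / pa)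
      have h2 : HasDerivAt (fun w : ℂ => (pb + w * qb) / (pa + w * qa) - pb / pa) ((pa * qb - qa * pb) / pa ^ 2) 0 := by
        refine h1.congr_deriv ?_
        simp only [zero_mul, add_zero]
        ring
      refine h2.congr_of_eventuallyEq ?_
      filter_upwards [a3, b3] with w hwa hwb
      rw [hwa, hwb]
    have hθ : Coord (fun x : ℂ × ℂ => x.1 * A₁ x) (fun x => B₁ x / A₁ x - pb / pa) := by
      rw [coord_iff hS hT (by simp) (by rw [a4, b4, sub_self])]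
      rw [(hprod a1).1, (hprod a1).2, hTy, a4, zero_mul, sub_zero]
      exact mul_ne_zero hz (div_ne_zero hd (pow_ne_zero 2 hz))
    refine ⟨fun x => (x.1 * A₁ x, B₁ x / A₁ x - pb / pa), hθ, Or.inl ⟨pb / pa, ?_⟩⟩
    filter_upwards [a2, b2, a1.continuousAt.eventually_ne hA1] with x h1 h2 h3
    unfold bl at *
    ext
    · exact h1
    · change (θ₁ (x.1, x.1 * (0 + x.2))).2 = x.1 * A₁ x * (pb / pa + (B₁ x / A₁ x - pb / pa))
      rw [h2]
      field_simp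
      ring

theorem bchart_class {β : ℂ × ℂ → ℂ × ℂ} (h : BChart β) : ∃ θ : ℂ × ℂ → ℂ × ℂ, Bihol θ ∧
    ((∃ c : ℂ, ∀ᶠ x in 𝓝 0, β x = bl c (θ x)) ∨ ∀ᶠ x in 𝓝 0, β x = blInf (θ x)) := by
  obtain ⟨θ₁, θ₂, h1, h2, h3⟩ := h
  obtain ⟨θ, h4, h5⟩ := ChartC_core h1
  refine ⟨θ ∘ θ₂, h4.comp h2, ?_⟩
  rcases h5 with ⟨c, h5⟩ | h5
  · refine Or.inl ⟨c, ?_⟩
    filter_upwards [h3, h2.tendsto.eventually h5] with x hx hx'
    rw [hx, hx']
    rfl
  · refine Or.inr ?_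
    filter_upwards [h3, h2.tendsto.eventually h5] with x hx hx'
    rw [hx, hx']
    rfl

/-- `bl c = (linear map) ∘ bl 0`, `blInf = swap ∘ bl 0 ∘ swap`. -/
theorem bchart_bl (c : ℂ) : BChart (bl c) := by
  refine ⟨fun x => (x.1, x.2 + c * x.1), fun x => x, ?_, Bihol.id, Eventually.of_forall fun x => ?_⟩
  · refine ⟨?_, by simp, fun x => (x.1, x.2 - c * x.1), ?_, by simp, Eventually.of_forall fun x => by simp,
      Eventually.of_forall fun x => by simp⟩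
    · exact analyticAt_fst.prod (analyticAt_snd.add (analyticAt_const.mul analyticAt_fst))
    · exact analyticAt_fst.prod (analyticAt_snd.sub (analyticAt_const.mul analyticAt_fst))
  · unfold bl
    ext
    · rfl
    · simp only
      ring

theorem bchart_blInf : BChart blInf := by
  have hsw : Bihol (fun x : ℂ × ℂ => (x.2, x.1)) :=
    ⟨analyticAt_snd.prod analyticAt_fst, rfl, fun x => (x.2, x.1), analyticAt_snd.prod analyticAt_fst, rfl,
      Eventually.of_forall fun _ => rfl, Eventually.of_forall fun _ => rfl⟩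
  refine ⟨fun x => (x.2, x.1), fun x => (x.2, x.1), hsw, hsw, Eventually.of_forall fun x => ?_⟩
  unfold bl blInf
  ext
  · simp only
    ring
  · rfl

end Pool.Agent.H17BP

end
end

section

/-!
# One blow-up

`resN_succ`: by `bchart_class` every chart is `bl c ∘ θ` or `blInf ∘ θ`; use `ResN.comp`, `ResN.congr`.
`uniform`: take the maximum `n` of the finitely many depths (`Set.Finite`, `Finset.sup`), `ResN.mono_le`,
`ResN.of_mono`, then `resN_succ`.
-/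

open Topology Filter

noncomputable section

namespace Pool.Agent.H17BP

theorem resN_succ {n : ℕ} {g : ℂ × ℂ → ℂ} (h : ∀ c, ResN n (g ∘ bl c)) (h' : ResN n (g ∘ blInf)) :
    ResN (n + 1) g := by
  refine Or.inr fun β hβ => ?_
  obtain ⟨θ, hθ, hc⟩ := bchart_class hβ
  rcases hc with ⟨c, hc⟩ | hc
  · refine ((h c).comp hθ).congr ?_
    filter_upwards [hc] with x hx
    simp only [Function.comp_apply]
    rw [hx]
  · refine (h'.comp hθ).congr ?_
    filter_upwards [hc] with x hx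
    simp only [Function.comp_apply]
    rw [hx]

theorem uniform {g : ℂ × ℂ → ℂ} {S : Set ℂ} (hS : S.Finite) (h1 : ∀ c ∉ S, Mono (g ∘ bl c))
    (h2 : ∀ c ∈ S, ∃ n, ResN n (g ∘ bl c)) (h3 : ∃ n, ResN n (g ∘ blInf)) : ∃ n, ResN n g := by
  obtain ⟨m, hm⟩ := h3
  choose! f hf using h2
  refine ⟨max m (hS.toFinset.sup f) + 1, resN_succ (fun c => ?_) (hm.mono_le (le_max_left _ _))⟩
  by_cases hc : c ∈ S
  · exact (hf c hc).mono_le (le_trans (Finset.le_sup (f := f) (hS.mem_toFinset.mpr hc))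
      (le_max_right _ _))
  · exact ResN.of_mono (h1 c hc) _

end Pool.Agent.H17BP

end
end

section

/-!
# A smooth curve tangent to an exceptional curve

Induction on `k` (the exponent is `k + 1`), `g = x^a y^b (x - y^(k+1) v(y))^n u`.
Chart `blInf` (`x ↦ x y, y ↦ y`): `x^a y^(a+b+n) (x - y^k v(y))^n u'`, `u' = u ∘ blInf`.  If `k ≥ 1` this is the
induction hypothesis (with `b := a + b + n`); if `k = 0` the factor `x - v(y)` is a unit at `0`, so `Mono` with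
`S = x.1, T = x.2`.
Chart `bl c` (`x ↦ x, y ↦ x (c + w)`): `x^(a+b+n) (c+w)^b (1 - x^k (c+w)^(k+1) v(x(c+w)))^n u'`.
 * `k ≥ 1`: the last factor is a unit at `0`, and `(c+w)^b` is a unit if `c ≠ 0` and `w^b` if `c = 0`: `Mono`.
 * `k = 0`: `F' = 1 - (c+w) v(x(c+w))`.  `c = 0`: `F'` is a unit, `w^b`: `Mono`.  `c ≠ 0`: `(c+w)^b` is a unit; if
   `1 - c v(0) ≠ 0`: `F'` is a unit: `Mono` (`T = x.2`, exponent `0`); otherwise `F' 0 = 0`, `dy F' 0 = - v 0 ≠ 0`, so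
   `(x, F')` are local coordinates (`coord_iff`): `Mono` with `S = x.1, T = F'`.
Use `resN_succ` (with `n = k`) and `ResN.of_mono`.
-/

open Topology Filter

noncomputable section

namespace Pool.Agent.H17BP

private theorem TanK_unit_pow {f : ℂ × ℂ → ℂ} (hf : AnalyticAt ℂ f 0) (h0 : f 0 ≠ 0) (n : ℕ) :
    AnalyticAt ℂ (fun x => f x ^ n) 0 ∧ f 0 ^ n ≠ 0 := ⟨hf.pow n, pow_ne_zero n h0⟩

private theorem TanK_dy {f : ℂ × ℂ → ℂ} (hf : AnalyticAt ℂ f 0) {a : ℂ}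
    (h : HasDerivAt (fun w : ℂ => f (0, w)) a 0) : dy f 0 = a := by
  have h1 : HasDerivAt (fun w : ℂ => ((0 : ℂ), w)) ((0 : ℂ), (1 : ℂ)) 0 :=
    (hasDerivAt_const (0 : ℂ) (0 : ℂ)).prodMk (hasDerivAt_id' (0 : ℂ))
  have h2 : HasFDerivAt f (fderiv ℂ f 0) ((fun w : ℂ => ((0 : ℂ), w)) 0) :=
    hf.differentiableAt.hasFDerivAt
  have h3 := HasFDerivAt.comp_hasDerivAt (0 : ℂ) h2 h1
  exact h3.unique h

/-- the charts at the finite points -/
private theorem TanK_bl (k : ℕ) {v : ℂ → ℂ} (hv : AnalyticAt ℂ v 0) (hv0 : v 0 ≠ 0) (a b n : ℕ)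
    {u : ℂ × ℂ → ℂ} (hu : AnalyticAt ℂ u 0) (hu0 : u 0 ≠ 0) (c : ℂ) :
    Mono ((fun x => x.1 ^ a * x.2 ^ b * (x.1 - x.2 ^ (k + 1) * v x.2) ^ n * u x) ∘ bl c) := by
  have hub : AnalyticAt ℂ (fun x => u (bl c x)) 0 := by
    have h2 : AnalyticAt ℂ u (bl c 0) := by rw [bl_zero]; exact hu
    exact h2.comp (analyticAt_bl c 0)
  have hub0 : u (bl c 0) ≠ 0 := by rw [bl_zero]; exact hu0
  obtain ⟨ℓ, hℓ⟩ : ∃ ℓ : ℂ × ℂ → ℂ, ℓ = fun x => c + x.2 := ⟨_, rfl⟩
  have hℓa : AnalyticAt ℂ ℓ 0 := by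
    rw [hℓ]
    exact analyticAt_const.add analyticAt_snd
  have hℓ0 : ℓ 0 = c := by rw [hℓ]; simp
  have hvc : AnalyticAt ℂ (fun x : ℂ × ℂ => v (x.1 * ℓ x)) 0 := by
    have h2 : AnalyticAt ℂ v ((fun x : ℂ × ℂ => x.1 * ℓ x) 0) := by
      simpa using hv
    exact AnalyticAt.comp (g := v) (f := fun x : ℂ × ℂ => x.1 * ℓ x) h2 (analyticAt_fst.mul hℓa)
  obtain ⟨F, hF⟩ : ∃ F : ℂ × ℂ → ℂ, F = fun x => 1 - x.1 ^ k * ℓ x ^ (k + 1) * v (x.1 * ℓ x) :=
    ⟨_, rfl⟩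
  have hFa : AnalyticAt ℂ F 0 := by
    rw [hF]
    exact analyticAt_const.sub (((analyticAt_fst.pow k).mul (hℓa.pow (k + 1))).mul hvc)
  have hF0 : F 0 = 1 - 0 ^ k * c ^ (k + 1) * v 0 := by
    rw [hF]
    simp only [hℓ0, Prod.fst_zero, zero_mul]
  have hg : ∀ x, ((fun x : ℂ × ℂ => x.1 ^ a * x.2 ^ b * (x.1 - x.2 ^ (k + 1) * v x.2) ^ n * u x) ∘
      bl c) x = x.1 ^ (a + b + n) * (ℓ x ^ b * F x ^ n * u (bl c x)) := by
    intro x
    have e1 : x.1 - (x.1 * ℓ x) ^ (k + 1) * v (x.1 * ℓ x) = x.1 * F x := by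
      rw [hF]
      ring
    have e2 : (bl c x).2 = x.1 * ℓ x := by rw [hℓ]; rfl
    have e3 : (bl c x).1 = x.1 := rfl
    simp only [Function.comp_apply]
    rw [e2, e3, e1]
    ring
  by_cases h0 : F 0 = 0
  · -- the curve passes through this point
    have hk : k = 0 := by
      by_contra hk
      rw [hF0, zero_pow hk, zero_mul, zero_mul, sub_zero] at h0
      exact one_ne_zero h0
    subst hk
    have hc : c ≠ 0 := by
      intro hc
      rw [hF0, hc] at h0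
      simp at h0
    have hdy : dy F 0 = -v 0 := by
      refine TanK_dy hFa ?_
      have e1 : (fun w : ℂ => F (0, w)) = fun w => 1 - (c + w) * v 0 := by
        funext w
        rw [hF, hℓ]
        simp
      rw [e1]
      have h1 : HasDerivAt (fun w : ℂ => (c + w) * v 0) (1 * v 0) 0 :=
        ((hasDerivAt_id' (0 : ℂ)).const_add c).mul_const (v 0)
      have h2 := h1.const_sub 1
      rw [one_mul] at h2
      exact h2
    have hcoord : Coord (fun x => x.1) F := by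
      rw [coord_iff analyticAt_fst hFa rfl h0, hdy]
      have e1 : dx (fun x : ℂ × ℂ => x.1) 0 = 1 := by
        unfold dx
        rw [fderiv_fst]
        rfl
      have e2 : dy (fun x : ℂ × ℂ => x.1) 0 = 0 := by
        unfold dy
        rw [fderiv_fst]
        rfl
      rw [e1, e2]
      simpa using hv0
    obtain ⟨p1, p2⟩ := TanK_unit_pow hℓa (by rw [hℓ0]; exact hc) b
    refine ⟨fun x => x.1, F, a + b + n, n, fun x => ℓ x ^ b * u (bl c x), hcoord, p1.mul hub,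
      mul_ne_zero p2 hub0, Eventually.of_forall fun x => ?_⟩
    rw [hg x]
    ring
  · obtain ⟨q1, q2⟩ := TanK_unit_pow hFa h0 n
    by_cases hc : c = 0
    · refine ⟨fun x => x.1, fun x => x.2, a + b + n, b, fun x => F x ^ n * u (bl c x),
        coord_fst_snd, q1.mul hub, mul_ne_zero q2 hub0, Eventually.of_forall fun x => ?_⟩
      have e1 : ℓ x = x.2 := by rw [hℓ, hc]; simp
      rw [hg x, e1]
      ring
    · obtain ⟨p1, p2⟩ := TanK_unit_pow hℓa (by rw [hℓ0]; exact hc) b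
      refine ⟨fun x => x.1, fun x => x.2, a + b + n, 0,
        fun x => ℓ x ^ b * F x ^ n * u (bl c x), coord_fst_snd, (p1.mul q1).mul hub,
        mul_ne_zero (mul_ne_zero p2 q2) hub0, Eventually.of_forall fun x => ?_⟩
      rw [hg x]
      ring

theorem res_tangent (k : ℕ) : ∀ {v : ℂ → ℂ} (_ : AnalyticAt ℂ v 0) (_ : v 0 ≠ 0) (a b n : ℕ)
    {u : ℂ × ℂ → ℂ} (_ : AnalyticAt ℂ u 0) (_ : u 0 ≠ 0),
    ResN (k + 1) (fun x => x.1 ^ a * x.2 ^ b * (x.1 - x.2 ^ (k + 1) * v x.2) ^ n * u x) := by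
  have huc : ∀ {u : ℂ × ℂ → ℂ}, AnalyticAt ℂ u 0 → u 0 ≠ 0 →
      AnalyticAt ℂ (fun x => u (blInf x)) 0 ∧ u (blInf 0) ≠ 0 := by
    intro u hu hu0
    have h2 : AnalyticAt ℂ u (blInf 0) := by rw [blInf_zero]; exact hu
    exact ⟨h2.comp (analyticAt_blInf 0), by rw [blInf_zero]; exact hu0⟩
  induction k with
  | zero =>
    intro v hv hv0 a b n u hu hu0
    refine resN_succ (fun c => ResN.of_mono (TanK_bl 0 hv hv0 a b n hu hu0 c) 0) ?_
    obtain ⟨w1, w2⟩ := huc hu hu0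
    have hw : AnalyticAt ℂ (fun x : ℂ × ℂ => x.1 - v x.2) 0 := by
      have h2 : AnalyticAt ℂ v ((0 : ℂ × ℂ).2) := by simpa using hv
      exact analyticAt_fst.sub (AnalyticAt.comp (g := v) (f := fun x : ℂ × ℂ => x.2) h2 analyticAt_snd)
    obtain ⟨q1, q2⟩ := TanK_unit_pow hw (by simpa using hv0) n
    refine ⟨fun x => x.1, fun x => x.2, a, a + b + n,
      fun x => (x.1 - v x.2) ^ n * u (blInf x), coord_fst_snd, q1.mul w1, mul_ne_zero q2 w2,
      Eventually.of_forall fun x => ?_⟩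
    have e1 : (blInf x).1 = x.1 * x.2 := rfl
    have e2 : (blInf x).2 = x.2 := rfl
    have e3 : x.1 * x.2 - x.2 ^ (0 + 1) * v x.2 = x.2 * (x.1 - v x.2) := by ring
    simp only [Function.comp_apply]
    rw [e1, e2, e3, mul_pow x.2]
    ring
  | succ k ih =>
    intro v hv hv0 a b n u hu hu0
    refine resN_succ (fun c => ResN.of_mono (TanK_bl (k + 1) hv hv0 a b n hu hu0 c) (k + 1)) ?_
    obtain ⟨w1, w2⟩ := huc hu hu0
    refine (ih hv hv0 a (a + b + n) n w1 w2).congr (Eventually.of_forall fun x => ?_)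
    have e1 : (blInf x).1 = x.1 * x.2 := rfl
    have e2 : (blInf x).2 = x.2 := rfl
    have e3 : x.1 * x.2 - x.2 ^ (k + 1 + 1) * v x.2 = x.2 * (x.1 - x.2 ^ (k + 1) * v x.2) := by ring
    simp only [Function.comp_apply]
    rw [e1, e2, e3, mul_pow x.2]
    ring

end Pool.Agent.H17BP

end
end

section

/-!
# Functions with logarithmic singularities

`LogSing w c z`: near `z` (outside `z`) the function `w` is `c log |ζ - z|` plus a `C²` function.
For a test function `τ` and `w` with logarithmic singularities on `tsupport τ`: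
`- ∫ ∇τ ∇w = ∫ τ Δw + 2 π ∑ c τ` (`τ` of class `C¹`) and `∫ Δτ w` = the same (`τ` of class `C²`).
-/

set_option autoImplicit false

open MeasureTheory Complex Set Filter Topology Laplacian InnerProductSpace Metric

namespace Pool.Agent.H30M

/-- logarithmic singularity with the coefficient `c` -/
def LogSing (w : ℂ → ℝ) (c : ℝ) (z : ℂ) : Prop :=
  ∃ s : ℂ → ℝ, ContDiffAt ℝ 2 s z ∧ w =ᶠ[𝓝[≠] z] fun ζ => c * Real.log ‖ζ - z‖ + s ζ

theorem LogSing.of_contDiffAt {w : ℂ → ℝ} {z : ℂ} (h : ContDiffAt ℝ 2 w z) : LogSing w 0 z :=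
  ⟨w, h, Eventually.of_forall fun ζ => by simp⟩

theorem LogSing.congr {w w' : ℂ → ℝ} {c : ℝ} {z : ℂ} (h : LogSing w c z) (e : w' =ᶠ[𝓝[≠] z] w) : LogSing w' c z := by
  obtain ⟨s, hs, h1⟩ := h
  exact ⟨s, hs, e.trans h1⟩

theorem LogSing.add {w w' : ℂ → ℝ} {c c' : ℝ} {z : ℂ} (h : LogSing w c z) (h' : LogSing w' c' z) :
    LogSing (fun ζ => w ζ + w' ζ) (c + c') z := by
  obtain ⟨s, hs, h1⟩ := h
  obtain ⟨s', hs', h1'⟩ := h'
  refine ⟨fun ζ => s ζ + s' ζ, hs.add hs', ?_⟩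
  filter_upwards [h1, h1'] with ζ e e'
  rw [e, e']; ring

theorem LogSing.const_mul {w : ℂ → ℝ} {c : ℝ} {z : ℂ} (h : LogSing w c z) (t : ℝ) :
    LogSing (fun ζ => t * w ζ) (t * c) z := by
  obtain ⟨s, hs, h1⟩ := h
  refine ⟨fun ζ => t * s ζ, contDiffAt_const.mul hs, ?_⟩
  filter_upwards [h1] with ζ e
  rw [e]; ring

theorem LogSing.neg {w : ℂ → ℝ} {c : ℝ} {z : ℂ} (h : LogSing w c z) : LogSing (fun ζ => - w ζ) (- c) z := by
  have := h.const_mul (-1)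
  simpa using this

theorem LogSing.sub {w w' : ℂ → ℝ} {c c' : ℝ} {z : ℂ} (h : LogSing w c z) (h' : LogSing w' c' z) :
    LogSing (fun ζ => w ζ - w' ζ) (c - c') z := by
  have := h.add h'.neg
  simpa [sub_eq_add_neg] using this

/-- `log |g|` for a meromorphic function -/
theorem LogSing.log_norm_mero {g : ℂ → ℂ} {z : ℂ} (hg : MeromorphicAt g z) (h0 : meromorphicOrderAt g z ≠ ⊤) :
    LogSing (fun ζ => Real.log ‖g ζ‖) ((meromorphicOrderAt g z).untop₀ : ℤ) z := by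
  obtain ⟨h, hh, h1, h2⟩ := (meromorphicOrderAt_ne_top_iff hg).1 h0
  refine ⟨fun ζ => Real.log ‖h ζ‖, contDiffAt_log_norm hh h1, ?_⟩
  have h3 : ∀ᶠ ζ in 𝓝[≠] z, h ζ ≠ 0 := (hh.continuousAt.eventually_ne h1).filter_mono nhdsWithin_le_nhds
  filter_upwards [h2, h3, self_mem_nhdsWithin] with ζ e hne hζ
  have hz : ‖ζ - z‖ ≠ 0 := norm_ne_zero_iff.2 (sub_ne_zero.2 hζ)
  rw [e, smul_eq_mul, norm_mul, norm_zpow, Real.log_mul (zpow_ne_zero _ hz) (norm_ne_zero_iff.2 hne), Real.log_zpow]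

/-- `log |g|` for an analytic function -/
theorem LogSing.log_norm {g : ℂ → ℂ} {z : ℂ} (hg : AnalyticAt ℂ g z) (h0 : analyticOrderAt g z ≠ ⊤) :
    LogSing (fun ζ => Real.log ‖g ζ‖) (analyticOrderNatAt g z) z := by
  obtain ⟨h, hh, h1, h2⟩ := hg.analyticOrderAt_ne_top.1 h0
  refine ⟨fun ζ => Real.log ‖h ζ‖, contDiffAt_log_norm hh h1, ?_⟩
  have h3 : ∀ᶠ ζ in 𝓝[≠] z, h ζ ≠ 0 := (hh.continuousAt.eventually_ne h1).filter_mono nhdsWithin_le_nhds
  filter_upwards [h2.filter_mono nhdsWithin_le_nhds, h3, self_mem_nhdsWithin] with ζ e hne hζ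
  have hz : ‖ζ - z‖ ≠ 0 := norm_ne_zero_iff.2 (sub_ne_zero.2 hζ)
  rw [e, smul_eq_mul, norm_mul, norm_pow, Real.log_mul (pow_ne_zero _ hz) (norm_ne_zero_iff.2 hne), Real.log_pow]

/-- outside `z` the function is `C²` near `z` -/
theorem LogSing.eventually {w : ℂ → ℝ} {c : ℝ} {z : ℂ} (h : LogSing w c z) : ∀ᶠ ζ in 𝓝[≠] z, ContDiffAt ℝ 2 w ζ := by
  obtain ⟨s, hs, h1⟩ := h
  have h2 : ∀ᶠ ζ in 𝓝[≠] z, ContDiffAt ℝ 2 s ζ := (hs.eventually (by simp)).filter_mono nhdsWithin_le_nhds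
  have h3 : ∀ᶠ ζ in 𝓝[≠] z, w =ᶠ[𝓝 ζ] fun ζ => c * Real.log ‖ζ - z‖ + s ζ := by
    have := eventually_nhdsWithin_iff.1 h1
    have h4 := this.eventually_nhds
    rw [eventually_nhdsWithin_iff]
    filter_upwards [h4] with ζ hζ hne
    filter_upwards [hζ, isOpen_ne.mem_nhds hne] with x hx hx'
    exact hx hx'
  filter_upwards [h2, h3, self_mem_nhdsWithin] with ζ hs2 he hne
  refine ContDiffAt.congr_of_eventuallyEq ?_ he
  have hl : ContDiffAt ℝ 2 (fun ζ : ℂ => Real.log ‖ζ - z‖) ζ :=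
    contDiffAt_log_norm (h := fun ζ => ζ - z) (by fun_prop) (sub_ne_zero.2 hne)
  exact (contDiffAt_const.mul hl).add hs2

/-- **Decomposition on a compact set** -/
theorem logSing_decomp {K : Set ℂ} (hK : IsCompact K) {w : ℂ → ℝ} {c : ℂ → ℝ} (hw : ∀ z ∈ K, LogSing w (c z) z) :
    ∃ (S : Finset ℂ) (w₂ : ℂ → ℝ), (∀ a ∈ S, a ∈ K) ∧ (∀ z ∈ K, ContDiffAt ℝ 2 w₂ z) ∧ (∀ z ∈ K, z ∉ S → ContDiffAt ℝ 2 w z) ∧
      ∀ ζ, ζ ∉ S → w ζ = ∑ a ∈ S, c a * Real.log ‖ζ - a‖ + w₂ ζ := by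
  classical
  set B : Set ℂ := {z ∈ K | ¬ ContDiffAt ℝ 2 w z} with hB
  have hfin : B.Finite := by
    by_contra hinf
    have hinf' : B.Infinite := hinf
    obtain ⟨z, hz, hacc⟩ := hinf'.exists_accPt_of_subset_isCompact hK (fun z hz => hz.1)
    have h1 := (hw z hz).eventually
    rw [accPt_iff_frequently_nhdsNE] at hacc
    exact hacc (h1.mono fun ζ hζ hB' => hB'.2 hζ)
  set S := hfin.toFinset with hS
  have hmem : ∀ a, a ∈ S ↔ a ∈ K ∧ ¬ ContDiffAt ℝ 2 w a := fun a => by rw [hS, Set.Finite.mem_toFinset, hB]; rfl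
  choose! s hs using hw
  set w₂ : ℂ → ℝ := fun ζ => if ζ ∈ S then s ζ ζ - ∑ a ∈ S.erase ζ, c a * Real.log ‖ζ - a‖
    else w ζ - ∑ a ∈ S, c a * Real.log ‖ζ - a‖ with hw2
  have hlog : ∀ a z : ℂ, z ≠ a → ContDiffAt ℝ 2 (fun ζ : ℂ => c a * Real.log ‖ζ - a‖) z := fun a z hne =>
    contDiffAt_const.mul (contDiffAt_log_norm (h := fun ζ => ζ - a) (by fun_prop) (sub_ne_zero.2 hne))
  have hout : ∀ z ∉ S, w₂ =ᶠ[𝓝 z] fun ζ => w ζ - ∑ a ∈ S, c a * Real.log ‖ζ - a‖ := by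
    intro z hz
    have : (S : Set ℂ)ᶜ ∈ 𝓝 z := S.finite_toSet.isClosed.isOpen_compl.mem_nhds (by simpa using hz)
    filter_upwards [this] with ζ hζ
    have hζ' : ζ ∉ S := by simpa using hζ
    simp [hw2, hζ']
  have hin : ∀ z ∈ S, w₂ =ᶠ[𝓝 z] fun ζ => s z ζ - ∑ a ∈ S.erase z, c a * Real.log ‖ζ - a‖ := by
    intro z hz
    have hzK : z ∈ K := ((hmem z).1 hz).1
    have h1 := eventually_nhdsWithin_iff.1 (hs z hzK).2
    have h2 : ((S.erase z : Finset ℂ) : Set ℂ)ᶜ ∈ 𝓝 z :=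
      (S.erase z).finite_toSet.isClosed.isOpen_compl.mem_nhds (by simp)
    filter_upwards [h1, h2] with ζ hζ hζ2
    rcases eq_or_ne ζ z with rfl | hne
    · simp [hw2, hz]
    · have hζS : ζ ∉ S := by
        intro h
        apply hζ2
        simp [hne, h]
      simp only [hw2, hζS, if_false]
      rw [hζ hne, ← Finset.add_sum_erase S (fun a => c a * Real.log ‖ζ - a‖) hz]
      ring
  refine ⟨S, w₂, fun a ha => ((hmem a).1 ha).1, ?_, ?_, ?_⟩
  · intro z hzK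
    by_cases hzS : z ∈ S
    · refine ContDiffAt.congr_of_eventuallyEq ?_ (hin z hzS)
      refine (hs z hzK).1.sub (ContDiffAt.sum fun a ha => hlog a z ?_)
      exact (Finset.ne_of_mem_erase ha).symm
    · refine ContDiffAt.congr_of_eventuallyEq ?_ (hout z hzS)
      have hc : ContDiffAt ℝ 2 w z := by
        by_contra h
        exact hzS ((hmem z).2 ⟨hzK, h⟩)
      refine hc.sub (ContDiffAt.sum fun a ha => hlog a z ?_)
      rintro rfl
      exact hzS ha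
  · intro z hzK hzS
    by_contra h
    exact hzS ((hmem z).2 ⟨hzK, h⟩)
  · intro ζ hζ
    simp [hw2, hζ]

end Pool.Agent.H30M

end
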