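import Mathlib

/-! The parts of this file: E1.ResX, H17BP.RootP, MQ.FDefs, MQ.SNLoc. -/

section

/-!
# E1 ResX: the common zeros of two families of binary forms
-/

set_option autoImplicit false

open Topology Filter

noncomputable section

namespace Pool.Agent.E1

/-- a function which is analytic at `0` and homogeneous of degree `m` is a form -/
theorem ResX_form {m : ℕ} {f : ℂ × ℂ → ℂ} (hf : AnalyticAt ℂ f 0) (hh : ∀ (c : ℂ) (v : ℂ × ℂ), f (c • v) = c ^ m * f v) :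
    ∃ P : Polynomial ℂ, P.natDegree ≤ m ∧ (∀ s, P.eval s = f (s, 1)) ∧ P.coeff m = f (1, 0) := by
  obtain ⟨p, r, hp⟩ := hf
  have hpm : ∀ v : ℂ × ℂ, p m (fun _ => v) = f v := by
    intro v
    set L : ℂ →L[ℂ] ℂ × ℂ := ContinuousLinearMap.toSpanSingleton ℂ v with hL
    have hp0 : HasFPowerSeriesOnBall f p (L 0) r := by
      rw [map_zero]
      exact hp
    have h1 := hp0.compContinuousLinearMap
    have h2 := h1.factorial_smul (1 : ℂ) m
    rw [← iteratedDeriv_eq_iteratedFDeriv] at h2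
    have h3 : (f ∘ L) = fun c : ℂ => c ^ m * f v := by
      funext c
      simp [hL, hh]
    have h4 : iteratedDeriv m (fun c : ℂ => c ^ m * f v) 0 = (m.factorial : ℂ) * f v := by
      have h5 : (fun c : ℂ => c ^ m * f v) = fun c : ℂ => f v * c ^ m := by
        funext c
        ring
      have h8 : (∏ i ∈ Finset.range m, ((m : ℂ) - (i : ℂ))) = (m.factorial : ℂ) := by
        rw [← Nat.descFactorial_self, Nat.descFactorial_eq_prod_range, Nat.cast_prod]
        refine Finset.prod_congr rfl fun i hi => ?_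
        rw [Nat.cast_sub (Finset.mem_range.1 hi).le]
      rw [h5, iteratedDeriv_const_mul_field, iteratedDeriv_eq_iterate, iter_deriv_pow', h8, Nat.sub_self]
      simp only [pow_zero, mul_one]
      exact mul_comm _ _
    rw [h3, h4] at h2
    have h6 : (p.compContinuousLinearMap L) m (fun _ => (1 : ℂ)) = p m (fun _ => v) := by
      rw [FormalMultilinearSeries.compContinuousLinearMap_apply]
      congr 1
      funext i
      simp [hL]
    rw [h6, nsmul_eq_mul] at h2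
    have h7 : (m.factorial : ℂ) ≠ 0 := by exact_mod_cast m.factorial_ne_zero
    exact mul_left_cancel₀ h7 h2
  set e₁ : Fin m → ℂ × ℂ := fun _ => (1, 0) with he₁
  set e₂ : Fin m → ℂ × ℂ := fun _ => (0, 1) with he₂
  refine ⟨∑ S : Finset (Fin m), Polynomial.C (p m (S.piecewise e₁ e₂)) * Polynomial.X ^ S.card, ?_, ?_, ?_⟩
  · refine Polynomial.natDegree_sum_le_of_forall_le _ _ fun S _ => ?_
    refine (Polynomial.natDegree_C_mul_X_pow_le _ _).trans ?_
    have := S.card_le_univ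
    rwa [Fintype.card_fin] at this
  · intro s
    rw [Polynomial.eval_finsetSum]
    have h1 : f (s, 1) = p m (fun i => s • e₁ i + e₂ i) := by
      rw [← hpm]
      congr 1
      funext i
      simp [he₁, he₂]
    have h2 : (fun i => s • e₁ i + e₂ i) = (fun i => s • e₁ i) + e₂ := rfl
    rw [h1, h2, ContinuousMultilinearMap.map_add_univ]
    refine Finset.sum_congr rfl fun S _ => ?_
    have h3 : S.piecewise (fun i => s • e₁ i) e₂ = S.piecewise (fun i => s • (S.piecewise e₁ e₂) i) (S.piecewise e₁ e₂) := by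
      funext i
      by_cases hi : i ∈ S
      · simp [hi]
      · simp [hi]
    rw [h3, ContinuousMultilinearMap.map_piecewise_smul, Finset.prod_const, Polynomial.eval_mul, Polynomial.eval_C, Polynomial.eval_pow,
      Polynomial.eval_X, smul_eq_mul, mul_comm]
  · rw [Polynomial.finsetSum_coeff, Finset.sum_eq_single (Finset.univ : Finset (Fin m))]
    · rw [Finset.piecewise_univ, Finset.card_univ, Fintype.card_fin, Polynomial.coeff_C_mul_X_pow, if_pos rfl, ← hpm]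
    · intro S _ hS
      rw [Polynomial.coeff_C_mul_X_pow, if_neg]
      intro h
      apply hS
      rw [← Finset.card_eq_iff_eq_univ, Fintype.card_fin, ← h]
    · intro h
      exact absurd (Finset.mem_univ _) h

/-- the coefficients of an analytic family of forms -/
theorem ResX_family {m : ℕ} {a : (ℂ × ℂ) × (ℂ × ℂ) → ℂ} (ha : ∀ v, AnalyticAt ℂ a (0, v))
    (has : ∀ᶠ p in 𝓝 (0 : ℂ × ℂ), ∀ (c : ℂ) (v : ℂ × ℂ), a (p, c • v) = c ^ m * a (p, v)) :
    ∃ A : ℂ × ℂ → Polynomial ℂ, (∀ k, AnalyticAt ℂ (fun p => (A p).coeff k) 0) ∧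
      ∀ᶠ p in 𝓝 (0 : ℂ × ℂ), (A p).natDegree ≤ m ∧ (∀ s, (A p).eval s = a (p, (s, 1))) ∧ (A p).coeff m = a (p, (1, 0)) := by
  refine ⟨fun p => Lagrange.interpolate (Finset.range (m + 1)) (fun j : ℕ => (j : ℂ)) (fun j : ℕ => a (p, ((j : ℂ), 1))), ?_, ?_⟩
  · intro k
    have h1 : (fun p : ℂ × ℂ => (Lagrange.interpolate (Finset.range (m + 1)) (fun j : ℕ => (j : ℂ)) (fun j : ℕ => a (p, ((j : ℂ), 1)))).coeff k) =
        fun p : ℂ × ℂ => ∑ j ∈ Finset.range (m + 1), a (p, ((j : ℂ), 1)) *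
          (Lagrange.basis (Finset.range (m + 1)) (fun j : ℕ => (j : ℂ)) j).coeff k := by
      funext p
      rw [Lagrange.interpolate_apply, Polynomial.finsetSum_coeff]
      refine Finset.sum_congr rfl fun j _ => ?_
      rw [Polynomial.coeff_C_mul]
    rw [h1]
    refine Finset.analyticAt_fun_sum _ fun j _ => ?_
    have h2 : AnalyticAt ℂ (fun p : ℂ × ℂ => (p, (((j : ℂ), (1 : ℂ)) : ℂ × ℂ))) 0 := analyticAt_id.prod analyticAt_const
    exact (AnalyticAt.comp (g := a) (f := fun p : ℂ × ℂ => (p, (((j : ℂ), (1 : ℂ)) : ℂ × ℂ))) (ha _) h2).mul analyticAt_const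
  · have h1 : ∀ᶠ p in 𝓝 (0 : ℂ × ℂ), AnalyticAt ℂ (fun v => a (p, v)) 0 := by
      have h2 : Tendsto (fun p : ℂ × ℂ => (p, (0 : ℂ × ℂ))) (𝓝 0) (𝓝 (0, 0)) := by
        have : Continuous (fun p : ℂ × ℂ => (p, (0 : ℂ × ℂ))) := by fun_prop
        exact this.tendsto 0
      filter_upwards [h2.eventually (ha 0).eventually_analyticAt] with p hp
      have h3 : AnalyticAt ℂ (fun v : ℂ × ℂ => (p, v)) 0 := analyticAt_const.prod analyticAt_id
      exact AnalyticAt.comp (g := a) (f := fun v : ℂ × ℂ => (p, v)) hp h3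
    filter_upwards [h1, has] with p h2 h3
    obtain ⟨P, hP, hPe, hPc⟩ := ResX_form h2 h3
    have h4 : P = Lagrange.interpolate (Finset.range (m + 1)) (fun j : ℕ => (j : ℂ)) (fun j : ℕ => a (p, ((j : ℂ), 1))) := by
      refine Lagrange.eq_interpolate_of_eval_eq _ ?_ ?_ ?_
      · intro i _ j _ hij
        exact Nat.cast_injective hij
      · rw [Finset.card_range]
        exact lt_of_le_of_lt (Polynomial.degree_le_of_natDegree_le hP) (by exact_mod_cast Nat.lt_succ_self m)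
      · intro j _
        exact hPe _
    rw [← h4]
    exact ⟨hP, hPe, hPc⟩

theorem ResX_det {n : ℕ} {M : ℂ × ℂ → Matrix (Fin n) (Fin n) ℂ} (h : ∀ i j, AnalyticAt ℂ (fun p => M p i j) 0) :
    AnalyticAt ℂ (fun p => (M p).det) 0 := by
  simp only [Matrix.det_apply]
  refine Finset.analyticAt_fun_sum _ fun σ _ => ?_
  have h1 : AnalyticAt ℂ (fun p => ∏ i, M p (σ i) i) 0 := Finset.analyticAt_fun_prod _ fun i _ => h _ _
  rcases Int.units_eq_one_or (Equiv.Perm.sign σ) with h2 | h2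
  · rw [h2]
    simpa using h1
  · rw [h2]
    refine h1.neg.congr (Eventually.of_forall fun p => ?_)
    simp

theorem ResX_res {m₁ m₂ : ℕ} {A B : ℂ × ℂ → Polynomial ℂ} (hA : ∀ k, AnalyticAt ℂ (fun p => (A p).coeff k) 0)
    (hB : ∀ k, AnalyticAt ℂ (fun p => (B p).coeff k) 0) : AnalyticAt ℂ (fun p => Polynomial.resultant (A p) (B p) m₁ m₂) 0 := by
  unfold Polynomial.resultant
  refine ResX_det fun i j => ?_
  induction j using Fin.addCases with
  | left j =>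
    simp only [Polynomial.sylvester, Matrix.of_apply, Fin.addCases_left]
    split_ifs
    · exact hB _
    · exact analyticAt_const
  | right j =>
    simp only [Polynomial.sylvester, Matrix.of_apply, Fin.addCases_right]
    split_ifs
    · exact hA _
    · exact analyticAt_const

/-- a common root, from the vanishing of the resultant -/
theorem ResX_root {m n : ℕ} (hm : 1 ≤ m) {f g : Polynomial ℂ} (hf : f.natDegree = m) (hg : g.natDegree ≤ n)
    (h : Polynomial.resultant f g m n = 0) : ∃ z, f.eval z = 0 ∧ g.eval z = 0 := by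
  have h1 := Polynomial.resultant_eq_prod_eval f g n hg (IsAlgClosed.splits f)
  rw [hf, h] at h1
  have hf0 : f ≠ 0 := by
    rintro rfl
    rw [Polynomial.natDegree_zero] at hf
    omega
  have h2 : (f.roots.map fun z => g.eval z).prod = 0 := by
    rcases mul_eq_zero.1 h1.symm with h3 | h3
    · exact absurd h3 (pow_ne_zero _ (Polynomial.leadingCoeff_ne_zero.2 hf0))
    · exact h3
  obtain ⟨z, hz, hz2⟩ := Multiset.mem_map.1 (Multiset.prod_eq_zero_iff.1 h2)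
  exact ⟨z, (Polynomial.mem_roots hf0).1 hz, hz2⟩

/-- the resultant, with formal degrees -/
theorem ResX_iff {m n : ℕ} (hm : 1 ≤ m) (hn : 1 ≤ n) {f g : Polynomial ℂ} (hf : f.natDegree ≤ m) (hg : g.natDegree ≤ n) :
    Polynomial.resultant f g m n = 0 ↔ (∃ z, f.eval z = 0 ∧ g.eval z = 0) ∨ (f.coeff m = 0 ∧ g.coeff n = 0) := by
  constructor
  · intro h
    by_cases hb : f.natDegree = m
    · exact Or.inl (ResX_root hm hb hg h)
    · by_cases hc : g.natDegree = n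
      · have h4 := h
        rw [Polynomial.resultant_comm] at h4
        have h5 := (mul_eq_zero.1 h4).resolve_left (pow_ne_zero _ (neg_ne_zero.2 one_ne_zero))
        obtain ⟨z, h2, h3⟩ := ResX_root hn hc hf h5
        exact Or.inl ⟨z, h3, h2⟩
      · exact Or.inr ⟨Polynomial.coeff_eq_zero_of_natDegree_lt (lt_of_le_of_ne hf hb),
          Polynomial.coeff_eq_zero_of_natDegree_lt (lt_of_le_of_ne hg hc)⟩
  · rintro (⟨z, h2, h3⟩ | ⟨h2, h3⟩)
    · obtain ⟨u, v, -, -, huv⟩ := Polynomial.exists_mul_add_mul_eq_C_resultant f g hf hg (Or.inl (by omega : m ≠ 0))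
      have h4 := congrArg (fun q : Polynomial ℂ => q.eval z) huv
      simp only [Polynomial.eval_add, Polynomial.eval_mul, Polynomial.eval_C] at h4
      rw [← h4, h2, h3, zero_mul, zero_mul, add_zero]
    · have hlt : ∀ {d : ℕ} {q : Polynomial ℂ}, 1 ≤ d → q.natDegree ≤ d → q.coeff d = 0 → q.natDegree < d := by
        intro d q hd hq h0
        refine lt_of_le_of_ne hq fun he => ?_
        have h5 : q.leadingCoeff = 0 := by
          rw [Polynomial.leadingCoeff, he]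
          exact h0
        rw [Polynomial.leadingCoeff_eq_zero.1 h5, Polynomial.natDegree_zero] at he
        omega
      exact Polynomial.resultant_eq_zero_of_lt_lt _ _ _ _ (hlt hm hf h2) (hlt hn hg h3)

/-- **The common zeros of two families of binary forms** (the resultant, with the formal degrees `m₁`, `m₂`). -/
theorem localEq_common {m₁ m₂ : ℕ} (h₁ : 1 ≤ m₁) (h₂ : 1 ≤ m₂) {a b : (ℂ × ℂ) × (ℂ × ℂ) → ℂ} (ha : ∀ v, AnalyticAt ℂ a (0, v))
    (hb : ∀ v, AnalyticAt ℂ b (0, v)) (has : ∀ᶠ p in 𝓝 (0 : ℂ × ℂ), ∀ (c : ℂ) (v : ℂ × ℂ), a (p, c • v) = c ^ m₁ * a (p, v))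
    (hbs : ∀ᶠ p in 𝓝 (0 : ℂ × ℂ), ∀ (c : ℂ) (v : ℂ × ℂ), b (p, c • v) = c ^ m₂ * b (p, v)) :
    ∃ g : ℂ × ℂ → ℂ, AnalyticAt ℂ g 0 ∧ ∀ᶠ p in 𝓝 (0 : ℂ × ℂ), g p = 0 ↔ ∃ v : ℂ × ℂ, v ≠ 0 ∧ a (p, v) = 0 ∧ b (p, v) = 0 := by
  obtain ⟨A, hA, hA2⟩ := ResX_family ha has
  obtain ⟨B, hB, hB2⟩ := ResX_family hb hbs
  refine ⟨fun p => Polynomial.resultant (A p) (B p) m₁ m₂, ResX_res hA hB, ?_⟩
  filter_upwards [hA2, hB2, has, hbs] with p ⟨hA3, hA4, hA5⟩ ⟨hB3, hB4, hB5⟩ h3 h4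
  rw [ResX_iff h₁ h₂ hA3 hB3]
  constructor
  · rintro (⟨z, h5, h6⟩ | ⟨h5, h6⟩)
    · exact ⟨(z, 1), fun h => one_ne_zero (congrArg Prod.snd h), by rw [← hA4, h5], by rw [← hB4, h6]⟩
    · exact ⟨(1, 0), fun h => one_ne_zero (congrArg Prod.fst h), by rw [← hA5, h5], by rw [← hB5, h6]⟩
  · rintro ⟨⟨v, w⟩, hv, h5, h6⟩
    by_cases hw : w = 0
    · rw [hw] at hv h5 h6
      have hv0 : v ≠ 0 := by
        rintro rfl
        exact hv rfl
      have e : ((v, 0) : ℂ × ℂ) = v • ((1, 0) : ℂ × ℂ) := by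
        ext <;> simp
      rw [e] at h5 h6
      rw [h3] at h5
      rw [h4] at h6
      refine Or.inr ⟨?_, ?_⟩
      · rw [hA5]
        exact (mul_eq_zero.1 h5).resolve_left (pow_ne_zero _ hv0)
      · rw [hB5]
        exact (mul_eq_zero.1 h6).resolve_left (pow_ne_zero _ hv0)
    · have e : ((v, w) : ℂ × ℂ) = w • ((v / w, 1) : ℂ × ℂ) := by
        ext
        · simp [mul_div_cancel₀ v hw]
        · simp
      rw [e] at h5 h6
      rw [h3] at h5
      rw [h4] at h6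
      refine Or.inl ⟨v / w, ?_, ?_⟩
      · rw [hA4]
        exact (mul_eq_zero.1 h5).resolve_left (pow_ne_zero _ hw)
      · rw [hB4]
        exact (mul_eq_zero.1 h6).resolve_left (pow_ne_zero _ hw)

end Pool.Agent.E1

end
end

section

/-!
# Polynomials without the second coefficient

`P = ∑_{j < k} γ_j X^j + U₀ X^(k+1)`, `U₀ ≠ 0`: no term `X^k`.
`order_root`: if `w ↦ P(c₀ + w)` had order `≥ k + 1` at `0`, all derivatives of `P` of order `≤ k` would vanish at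
`c₀`, so `P = U₀ (X - c₀)^(k+1)` (degree `k+1`); its coefficient of `X^k` is `- (k+1) U₀ c₀ = 0`, so `c₀ = 0` and
`P = U₀ X^(k+1)`, `γ = 0`, a contradiction.  (Use `Polynomial.taylor c₀ P`: `P(c₀ + w) = ∑ (taylor c₀ P).coeff i w^i`,
order `≥ k+1` gives `(taylor c₀ P).coeff i = 0` for `i ≤ k`.)
-/

open Topology Filter

noncomputable section

namespace Pool.Agent.H17BP

open Polynomial in
private def RootP_poly (k : ℕ) (γ : ℕ → ℂ) (U₀ : ℂ) : ℂ[X] :=
  ∑ j ∈ Finset.range k, C (γ j) * X ^ j + C U₀ * X ^ (k + 1)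

private theorem RootP_eval (k : ℕ) (γ : ℕ → ℂ) (U₀ x : ℂ) :
    (RootP_poly k γ U₀).eval x = ∑ j ∈ Finset.range k, γ j * x ^ j + U₀ * x ^ (k + 1) := by
  simp [RootP_poly, Polynomial.eval_finsetSum]

private theorem RootP_coeff_lt {k : ℕ} (γ : ℕ → ℂ) (U₀ : ℂ) {j : ℕ} (hj : j < k) :
    (RootP_poly k γ U₀).coeff j = γ j := by
  simp only [RootP_poly, Polynomial.coeff_add, Polynomial.finsetSum_coeff, Polynomial.coeff_C_mul, Polynomial.coeff_X_pow]
  rw [Finset.sum_eq_single j]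
  · have : j ≠ k + 1 := by omega
    simp [this]
  · intro b _ hb
    simp [hb.symm]
  · intro h
    exact absurd (Finset.mem_range.2 hj) h

private theorem RootP_coeff_ge {k : ℕ} (γ : ℕ → ℂ) (U₀ : ℂ) {j : ℕ} (hj : k ≤ j) :
    (RootP_poly k γ U₀).coeff j = if j = k + 1 then U₀ else 0 := by
  simp only [RootP_poly, Polynomial.coeff_add, Polynomial.finsetSum_coeff, Polynomial.coeff_C_mul, Polynomial.coeff_X_pow]
  rw [Finset.sum_eq_zero]
  · simp
  · intro b hb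
    have : j ≠ b := by
      have := Finset.mem_range.1 hb
      omega
    simp [this]

private theorem RootP_ne {k : ℕ} {γ : ℕ → ℂ} {U₀ : ℂ} (hU : U₀ ≠ 0) : RootP_poly k γ U₀ ≠ 0 := by
  intro h
  have h1 := RootP_coeff_ge γ U₀ (j := k + 1) (k := k) (by omega)
  rw [h] at h1
  simp at h1
  exact hU h1.symm

private theorem RootP_natDegree (k : ℕ) (γ : ℕ → ℂ) (U₀ : ℂ) : (RootP_poly k γ U₀).natDegree ≤ k + 1 := by
  rw [Polynomial.natDegree_le_iff_coeff_eq_zero]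
  intro j hj
  rw [RootP_coeff_ge γ U₀ (by omega)]
  have : j ≠ k + 1 := by omega
  simp [this]

private theorem RootP_cXC (r : ℂ) (n k : ℕ) :
    ((Polynomial.X - Polynomial.C r : Polynomial ℂ) ^ n).coeff k = (-r) ^ (n - k) * (n.choose k : ℂ) := by
  rw [sub_eq_add_neg, ← Polynomial.C_neg, Polynomial.coeff_X_add_C_pow]

private theorem RootP_mult {k : ℕ} {γ : ℕ → ℂ} {U₀ : ℂ} (hU : U₀ ≠ 0) (hγ : ∃ j < k, γ j ≠ 0) (c₀ : ℂ) :
    (RootP_poly k γ U₀).rootMultiplicity c₀ ≤ k := by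
  by_contra hlt
  push Not at hlt
  have h1 : (Polynomial.X - Polynomial.C c₀) ^ (k + 1) ∣ RootP_poly k γ U₀ :=
    (Polynomial.le_rootMultiplicity_iff (RootP_ne hU)).1 hlt
  obtain ⟨R, hR⟩ := h1
  have hm : ((Polynomial.X - Polynomial.C c₀ : Polynomial ℂ) ^ (k + 1)).Monic := (Polynomial.monic_X_sub_C c₀).pow _
  have hR0 : R ≠ 0 := by
    rintro rfl
    rw [mul_zero] at hR
    exact RootP_ne hU hR
  have hd : (RootP_poly k γ U₀).natDegree = (k + 1) + R.natDegree := by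
    rw [hR, hm.natDegree_mul' hR0, Polynomial.natDegree_pow, Polynomial.natDegree_X_sub_C, mul_one]
  have hd' := RootP_natDegree k γ U₀
  have hRd : R.natDegree = 0 := by omega
  have hRC : R = Polynomial.C (R.coeff 0) := Polynomial.eq_C_of_natDegree_eq_zero hRd
  have hr0 : R.coeff 0 ≠ 0 := by
    intro h
    rw [h, Polynomial.C_0] at hRC
    exact hR0 hRC
  rw [hRC] at hR
  have hk := RootP_coeff_ge γ U₀ (le_refl k)
  have hkk : k ≠ k + 1 := by omega
  rw [hR, Polynomial.coeff_mul_C, RootP_cXC, if_neg hkk] at hk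
  have hc : c₀ = 0 := by
    have e1 : k + 1 - k = 1 := by omega
    rw [e1, pow_one, Nat.choose_succ_self_right] at hk
    have h5 : ((k + 1 : ℕ) : ℂ) ≠ 0 := by exact_mod_cast Nat.succ_ne_zero k
    have h6 : -c₀ * ((k + 1 : ℕ) : ℂ) = 0 := by
      rcases mul_eq_zero.1 hk with h | h
      · exact h
      · exact absurd h hr0
    rcases mul_eq_zero.1 h6 with h | h
    · exact neg_eq_zero.1 h
    · exact absurd h h5
  obtain ⟨j, hj, hγj⟩ := hγ
  have h7 := RootP_coeff_lt γ U₀ hj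
  rw [hR, Polynomial.coeff_mul_C, hc, Polynomial.C_0, sub_zero, Polynomial.coeff_X_pow] at h7
  have hjk : j ≠ k + 1 := by omega
  rw [if_neg hjk, zero_mul] at h7
  exact hγj h7.symm

theorem order_root {k : ℕ} {γ : ℕ → ℂ} {U₀ : ℂ} (hU : U₀ ≠ 0) (hγ : ∃ j < k, γ j ≠ 0) (c₀ : ℂ) :
    analyticOrderAt (fun w : ℂ => ∑ j ∈ Finset.range k, γ j * (c₀ + w) ^ j + U₀ * (c₀ + w) ^ (k + 1)) 0 ≤
      (k : ℕ∞) := by
  set P := RootP_poly k γ U₀ with hP
  obtain ⟨R, hR1, hR2⟩ := Polynomial.exists_eq_pow_rootMultiplicity_mul_and_not_dvd P (RootP_ne hU) c₀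
  have hR0 : R.eval c₀ ≠ 0 := by
    intro h
    exact hR2 (Polynomial.dvd_iff_isRoot.2 h)
  have hf : (fun w : ℂ => ∑ j ∈ Finset.range k, γ j * (c₀ + w) ^ j + U₀ * (c₀ + w) ^ (k + 1)) =
      fun w : ℂ => P.eval (c₀ + w) := by
    funext w
    rw [hP, RootP_eval]
  rw [hf]
  have han : AnalyticAt ℂ (fun w : ℂ => P.eval (c₀ + w)) 0 := by
    have h1 : Differentiable ℂ (fun w : ℂ => P.eval (c₀ + w)) := by
      intro w
      exact (P.differentiable (c₀ + w)).comp w ((differentiableAt_const c₀).add differentiableAt_id)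
    exact h1.analyticAt 0
  have hRan : AnalyticAt ℂ (fun w : ℂ => R.eval (c₀ + w)) 0 := by
    have h1 : Differentiable ℂ (fun w : ℂ => R.eval (c₀ + w)) := by
      intro w
      exact (R.differentiable (c₀ + w)).comp w ((differentiableAt_const c₀).add differentiableAt_id)
    exact h1.analyticAt 0
  have hord : analyticOrderAt (fun w : ℂ => P.eval (c₀ + w)) 0 = (P.rootMultiplicity c₀ : ℕ) := by
    rw [han.analyticOrderAt_eq_natCast]
    refine ⟨fun w => R.eval (c₀ + w), hRan, ?_, ?_⟩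
    · simpa using hR0
    · refine Eventually.of_forall fun w => ?_
      show P.eval (c₀ + w) = (w - 0) ^ P.rootMultiplicity c₀ • R.eval (c₀ + w)
      conv_lhs => rw [hR1]
      simp
  rw [hord]
  exact_mod_cast RootP_mult hU hγ c₀

theorem finite_roots {k : ℕ} {γ : ℕ → ℂ} {U₀ : ℂ} (hU : U₀ ≠ 0) :
    {c₀ : ℂ | ∑ j ∈ Finset.range k, γ j * c₀ ^ j + U₀ * c₀ ^ (k + 1) = 0}.Finite := by
  refine (Polynomial.finite_setOfPred_isRoot (RootP_ne (k := k) (γ := γ) hU)).subset ?_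
  intro c₀ hc
  show (RootP_poly k γ U₀).eval c₀ = 0
  rw [RootP_eval]
  exact hc

end Pool.Agent.H17BP

end
end

section

/-!
# MQ FDefs: reduced foliations

`P` is the ideal of a smooth projective surface in `ℙ^M`, `X = coneE P` its cone.  A foliation is a set `FF` of pairs `(x, v)`, `x ∈ X`, `v` a vector
at `x`: the tangent vectors of the leaves.  Near every point it is given, in a chart `σ`, by a holomorphic vector field with an isolated zero which is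
reduced in the sense of Seidenberg, in the normal form of Briot-Bouquet and Dulac.
-/

set_option autoImplicit false

open Topology Filter MvPolynomial Asymptotics

noncomputable section

namespace Pool.Agent.MQ

variable {M : ℕ}

/-- the polynomial `∑ i ≤ J, c i * t ^ i` -/
def jet (c : ℕ → ℂ) (J : ℕ) (t : ℂ) : ℂ := ∑ i ∈ Finset.range (J + 1), c i * t ^ i

end Pool.Agent.MQ

end
end

section

/-!
# MQ/SNLoc: saddle-nodes, local estimates near the formal weak separatrix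

`v = (x ^ (k + 1) a, b)`, `Y = y - jet c J x`.
-/

set_option autoImplicit false

open Topology Filter Asymptotics Complex Set

noncomputable section

namespace Pool.Agent.MQ

/-- `div v - ε x ^ k a` for `v = (x ^ (k + 1) a, b)` -/
def dlt (k : ℕ) (a b : ℂ × ℂ → ℂ) (ε : ℂ) (p : ℂ × ℂ) : ℂ :=
  (k + 1 - ε) * (p.1 ^ k * a p) + p.1 ^ (k + 1) * fderiv ℂ a p (1, 0) + fderiv ℂ b p (0, 1)

/-- the derivative of `Y = y - jet c J x` along `v` -/
def yv (k : ℕ) (a b : ℂ × ℂ → ℂ) (c : ℕ → ℂ) (J : ℕ) (p : ℂ × ℂ) : ℂ :=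
  b p - deriv (jet c J) p.1 * (p.1 ^ (k + 1) * a p)

theorem jet_differentiable (c : ℕ → ℂ) (J : ℕ) : Differentiable ℂ (jet c J) := by
  unfold jet
  fun_prop

theorem jet_analytic (c : ℕ → ℂ) (J : ℕ) (x : ℂ) : AnalyticAt ℂ (jet c J) x :=
  (jet_differentiable c J).analyticAt x

theorem jet_zero {c : ℕ → ℂ} (hc : c 0 = 0) (J : ℕ) : jet c J 0 = 0 := by
  unfold jet
  refine Finset.sum_eq_zero fun i _ => ?_
  rcases Nat.eq_zero_or_pos i with h | h
  · rw [h, hc, zero_mul]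
  · rw [zero_pow h.ne', mul_zero]

theorem div_eq_dlt {k : ℕ} {a b : ℂ × ℂ → ℂ} {p : ℂ × ℂ} (ha : DifferentiableAt ℂ a p) (ε : ℂ) :
    fderiv ℂ (fun p : ℂ × ℂ => p.1 ^ (k + 1) * a p) p (1, 0) + fderiv ℂ b p (0, 1) - ε * (p.1 ^ k * a p) = dlt k a b ε p := by
  have h1 : HasFDerivAt (fun p : ℂ × ℂ => p.1) (ContinuousLinearMap.fst ℂ ℂ ℂ) p := hasFDerivAt_fst
  have h2 : HasFDerivAt (fun p : ℂ × ℂ => p.1 ^ (k + 1) * a p)
      (p.1 ^ (k + 1) • fderiv ℂ a p + a p • ((k + 1) • p.1 ^ (k + 1 - 1)) • ContinuousLinearMap.fst ℂ ℂ ℂ) p :=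
    (h1.pow (k + 1)).mul ha.hasFDerivAt
  have h3 : fderiv ℂ (fun p : ℂ × ℂ => p.1 ^ (k + 1) * a p) p (1, 0) = p.1 ^ (k + 1) * fderiv ℂ a p (1, 0) + (k + 1) * (p.1 ^ k * a p) := by
    rw [h2.fderiv]
    simp
    ring
  rw [h3, dlt]
  ring

/-- the tube around the formal curve -/
theorem tube_small {c : ℕ → ℂ} (hc : c 0 = 0) (J : ℕ) {n : ℕ} (hn : 1 ≤ n) {U : Set (ℂ × ℂ)} (hU : U ∈ 𝓝 (0 : ℂ × ℂ)) :
    ∀ᶠ ρ in 𝓝[>] (0 : ℝ), ∀ p : ℂ × ℂ, ‖p.1‖ ≤ 2 * ρ → ‖p.2 - jet c J p.1‖ ≤ ρ ^ n → p ∈ U := by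
  obtain ⟨r, hr, hrU⟩ := Metric.mem_nhds_iff.1 hU
  have h1 : Tendsto (jet c J) (𝓝 0) (𝓝 0) := by
    have := (jet_differentiable c J).continuous.tendsto 0
    rwa [jet_zero hc] at this
  obtain ⟨r1, hr1, h1'⟩ := Metric.mem_nhds_iff.1 (h1 (Metric.ball_mem_nhds (0 : ℂ) (half_pos hr)))
  have h2 : ∀ᶠ ρ in 𝓝[>] (0 : ℝ), ρ < min (min (r / 2) (r1 / 2)) (min (1 / 2) (r / 4)) :=
    nhdsWithin_le_nhds (Iio_mem_nhds (by positivity))
  filter_upwards [h2, self_mem_nhdsWithin] with ρ hρ hρ0 p hp1 hp2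
  have hρ0' : 0 < ρ := hρ0
  have e1 : ρ < r / 2 := hρ.trans_le ((min_le_left _ _).trans (min_le_left _ _))
  have e2 : ρ < r1 / 2 := hρ.trans_le ((min_le_left _ _).trans (min_le_right _ _))
  have e3 : ρ < 1 / 2 := hρ.trans_le ((min_le_right _ _).trans (min_le_left _ _))
  have e4 : ρ < r / 4 := hρ.trans_le ((min_le_right _ _).trans (min_le_right _ _))
  apply hrU
  have hx : ‖p.1‖ < r1 := by linarith
  have hj : jet c J p.1 ∈ Metric.ball (0 : ℂ) (r / 2) := h1' (by simpa using hx)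
  have hj' : ‖jet c J p.1‖ < r / 2 := by simpa using hj
  have hn' : ρ ^ n ≤ ρ := by
    calc ρ ^ n ≤ ρ ^ 1 := pow_le_pow_of_le_one hρ0'.le (by linarith) hn
      _ = ρ := pow_one _
  have hy : ‖p.2‖ < r := by
    have h3 : p.2 = (p.2 - jet c J p.1) + jet c J p.1 := by ring
    rw [h3]
    refine (norm_add_le _ _).trans_lt ?_
    linarith
  rw [Metric.mem_ball, dist_zero_right]
  exact max_lt (by linarith) hy

/-- a function which is analytic at `0` does not vary much in the second variable -/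
theorem analytic_lip {A : ℂ × ℂ → ℂ} (hA : AnalyticAt ℂ A 0) :
    ∃ K : ℝ, 0 ≤ K ∧ ∃ r : ℝ, 0 < r ∧ ∀ p ∈ Metric.ball (0 : ℂ × ℂ) r, ∀ q ∈ Metric.ball (0 : ℂ × ℂ) r, ‖A p - A q‖ ≤ K * ‖p - q‖ := by
  obtain ⟨K, t, ht, hL⟩ := (hA.contDiffAt (n := 1)).exists_lipschitzOnWith
  obtain ⟨r, hr, hrt⟩ := Metric.mem_nhds_iff.1 ht
  refine ⟨K, K.2, r, hr, fun p hp q hq => ?_⟩
  have := hL.dist_le_mul p (hrt hp) q (hrt hq)
  rwa [dist_eq_norm, dist_eq_norm] at this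

theorem analytic_bdd {A : ℂ × ℂ → ℂ} (hA : AnalyticAt ℂ A 0) :
    ∃ M : ℝ, 0 < M ∧ ∀ᶠ p in 𝓝 (0 : ℂ × ℂ), ‖A p‖ ≤ M := by
  refine ⟨‖A 0‖ + 1, by positivity, ?_⟩
  have h : Tendsto (fun p => ‖A p‖) (𝓝 0) (𝓝 ‖A 0‖) := hA.continuousAt.norm
  filter_upwards [h (Iio_mem_nhds (lt_add_one ‖A 0‖))] with p hp using le_of_lt hp

/-- the principal part of `x ^ (k + 1) z'` -/
def DD (α : ℕ → ℂ) (k : ℕ) (x : ℂ) : ℂ := ∑ i ∈ Finset.range k, α i * x ^ i

/-- `x ^ k z` -/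
def PP (α : ℕ → ℂ) (k : ℕ) (x : ℂ) : ℂ := -∑ i ∈ Finset.range k, α i / ((k : ℂ) - i) * x ^ i

theorem DD_differentiable (α : ℕ → ℂ) (k : ℕ) : Differentiable ℂ (DD α k) := by
  unfold DD
  fun_prop

theorem PP_differentiable (α : ℕ → ℂ) (k : ℕ) : Differentiable ℂ (PP α k) := by
  unfold PP
  fun_prop

theorem PP_deriv (α : ℕ → ℂ) (k : ℕ) (x : ℂ) : x * deriv (PP α k) x - k * PP α k x = DD α k x := by
  have h : HasDerivAt (PP α k) (-∑ i ∈ Finset.range k, α i / ((k : ℂ) - i) * (i * x ^ (i - 1))) x := by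
    unfold PP
    refine (HasDerivAt.fun_sum fun i _ => ?_).neg
    exact (hasDerivAt_pow i x).const_mul _
  rw [h.deriv, PP, DD, mul_neg, mul_neg, sub_neg_eq_add, Finset.mul_sum, Finset.mul_sum, ← Finset.sum_neg_distrib, ← Finset.sum_add_distrib]
  refine Finset.sum_congr rfl fun i hi => ?_
  have hi' : (k : ℂ) - i ≠ 0 := by
    have h1 : i < k := Finset.mem_range.1 hi
    intro h0
    have h2 : (k : ℂ) = i := sub_eq_zero.1 h0
    have h3 : k = i := by exact_mod_cast h2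
    omega
  have hx : x * (i * x ^ (i - 1)) = i * x ^ i := by
    rcases Nat.eq_zero_or_pos i with h0 | h0
    · rw [h0]; simp
    · obtain ⟨j, rfl⟩ : ∃ j, i = j + 1 := ⟨i - 1, by omega⟩
      simp only [Nat.add_sub_cancel, pow_succ]
      ring
  have e1 : x * (α i / ((k : ℂ) - i) * (i * x ^ (i - 1))) = α i / ((k : ℂ) - i) * (i * x ^ i) := by
    rw [← hx]; ring
  rw [e1]
  field_simp
  ring

theorem DD_zero {α : ℕ → ℂ} {k : ℕ} (hk : 1 ≤ k) : DD α k 0 = α 0 := by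
  unfold DD
  rw [Finset.sum_eq_single_of_mem 0 (by simpa using (by omega : 0 < k))]
  · simp
  · intro i _ hi
    rw [zero_pow hi, mul_zero]

theorem PP_zero {α : ℕ → ℂ} {k : ℕ} (hk : 1 ≤ k) (h0 : α 0 ≠ 0) : PP α k 0 ≠ 0 := by
  intro h
  have h1 := PP_deriv α k 0
  rw [h, zero_mul, mul_zero, sub_zero, DD_zero hk] at h1
  exact h0 h1.symm

theorem taylor_poly {A : ℂ → ℂ} (hA : AnalyticAt ℂ A 0) (k : ℕ) :
    ∃ α : ℕ → ℂ, α 0 = A 0 ∧ (fun x => A x - DD α k x) =O[𝓝 0] fun x : ℂ => x ^ k := by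
  obtain ⟨p, hp⟩ := hA
  refine ⟨p.coeff, ?_, ?_⟩
  · exact hp.coeff_zero 1
  · have h := hp.isBigO_sub_partialSum_pow k
    have e : ∀ x : ℂ, p.partialSum k x = DD p.coeff k x := by
      intro x
      rw [FormalMultilinearSeries.partialSum, DD]
      refine Finset.sum_congr rfl fun i _ => ?_
      rw [FormalMultilinearSeries.apply_eq_pow_smul_coeff, smul_eq_mul, mul_comm]
    have h2 : (fun x => A x - DD p.coeff k x) =O[𝓝 0] fun x : ℂ => ‖x‖ ^ k := by
      refine h.congr_left fun x => ?_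
      rw [zero_add, e]
    refine h2.trans (IsBigO.of_bound 1 (Eventually.of_forall fun x => ?_))
    simp

theorem an_fderiv_apply {a : ℂ × ℂ → ℂ} {p : ℂ × ℂ} (ha : AnalyticAt ℂ a p) (w : ℂ × ℂ) : AnalyticAt ℂ (fun p => fderiv ℂ a p w) p :=
  AnalyticAt.fun_comp (f := fderiv ℂ a) ((ContinuousLinearMap.apply ℂ ℂ w).analyticAt _) ha.fderiv

/-- first estimate: `D a - δ` -/
theorem sn_est1 {k : ℕ} (hk : 1 ≤ k) {a b : ℂ × ℂ → ℂ} (ha : AnalyticAt ℂ a 0) (hb : AnalyticAt ℂ b 0) (ha0 : a 0 ≠ 0)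
    (hb0 : fderiv ℂ b 0 (0, 1) ≠ 0) {c : ℕ → ℂ} (hc : c 0 = 0) (ε : ℂ) :
    ∃ (C : ℝ) (α : ℕ → ℂ), 0 < C ∧ α 0 ≠ 0 ∧ ∀ᶠ p in 𝓝 (0 : ℂ × ℂ),
      ‖DD α k p.1 * a p - dlt k a b ε p‖ ≤ C * (‖p.2 - jet c k p.1‖ + ‖p.1‖ ^ k) := by
  have hda : AnalyticAt ℂ (fun p => fderiv ℂ a p (1, 0)) 0 := an_fderiv_apply ha _
  have hdb : AnalyticAt ℂ (fun p => fderiv ℂ b p (0, 1)) 0 := an_fderiv_apply hb _
  have hδ : AnalyticAt ℂ (dlt k a b ε) 0 := by
    unfold dlt
    exact (((analyticAt_const).mul ((analyticAt_fst.pow k).mul ha)).add ((analyticAt_fst.pow (k + 1)).mul hda)).add hdb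
  have hδ0 : dlt k a b ε 0 ≠ 0 := by
    unfold dlt
    simpa [zero_pow (by omega : k ≠ 0)] using hb0
  have hA : AnalyticAt ℂ (fun p => dlt k a b ε p / a p) 0 := hδ.div ha ha0
  have hjet : AnalyticAt ℂ (fun x : ℂ => (x, jet c k x)) 0 := analyticAt_id.prod (jet_analytic c k 0)
  have hj0 : (fun x : ℂ => (x, jet c k x)) 0 = 0 := by simp [jet_zero hc]
  have hA1 : AnalyticAt ℂ (fun x : ℂ => dlt k a b ε (x, jet c k x) / a (x, jet c k x)) 0 := by
    have : AnalyticAt ℂ (fun p => dlt k a b ε p / a p) ((fun x : ℂ => (x, jet c k x)) 0) := by rw [hj0]; exact hA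
    exact AnalyticAt.fun_comp (f := fun x : ℂ => (x, jet c k x)) this hjet
  obtain ⟨α, hα0, hα⟩ := taylor_poly hA1 k
  obtain ⟨K, hK, r, hr, hL⟩ := analytic_lip hA
  obtain ⟨C1, hC1, h1⟩ := hα.exists_pos
  rw [isBigOWith_iff] at h1
  obtain ⟨M, hM, h2⟩ := analytic_bdd ha
  have hα0' : α 0 ≠ 0 := by
    rw [hα0, jet_zero hc]
    exact div_ne_zero hδ0 ha0
  have h3 : ∀ᶠ p : ℂ × ℂ in 𝓝 0, ‖dlt k a b ε (p.1, jet c k p.1) / a (p.1, jet c k p.1) - DD α k p.1‖ ≤ C1 * ‖p.1 ^ k‖ := by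
    have ht : Tendsto (fun p : ℂ × ℂ => p.1) (𝓝 0) (𝓝 0) := continuous_fst.tendsto 0
    exact ht.eventually h1
  have h4 : ∀ᶠ p : ℂ × ℂ in 𝓝 0, (p.1, jet c k p.1) ∈ Metric.ball (0 : ℂ × ℂ) r := by
    have ht : Tendsto (fun p : ℂ × ℂ => (p.1, jet c k p.1)) (𝓝 0) (𝓝 0) := by
      have := (continuous_fst.prodMk ((jet_differentiable c k).continuous.comp continuous_fst)).tendsto (0 : ℂ × ℂ)
      simp only [Function.comp_apply, Prod.fst_zero, jet_zero hc] at this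
      exact this
    exact ht (Metric.ball_mem_nhds _ hr)
  have h5 : ∀ᶠ p : ℂ × ℂ in 𝓝 0, a p ≠ 0 := ha.continuousAt.eventually_ne ha0
  refine ⟨M * (K + C1), α, by positivity, hα0', ?_⟩
  filter_upwards [h2, h3, h4, h5, Metric.ball_mem_nhds (0 : ℂ × ℂ) hr] with p e2 e3 e4 e5 e6
  have e7 := hL p e6 _ e4
  have e8 : ‖p - (p.1, jet c k p.1)‖ = ‖p.2 - jet c k p.1‖ := by
    rw [Prod.norm_def]
    simp
  rw [e8] at e7
  have e9 : DD α k p.1 * a p - dlt k a b ε p = -(a p * ((dlt k a b ε p / a p - dlt k a b ε (p.1, jet c k p.1) / a (p.1, jet c k p.1)) +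
      (dlt k a b ε (p.1, jet c k p.1) / a (p.1, jet c k p.1) - DD α k p.1))) := by
    field_simp
    ring
  rw [e9, norm_neg, norm_mul]
  have e10 : ‖(dlt k a b ε p / a p - dlt k a b ε (p.1, jet c k p.1) / a (p.1, jet c k p.1)) +
      (dlt k a b ε (p.1, jet c k p.1) / a (p.1, jet c k p.1) - DD α k p.1)‖ ≤ K * ‖p.2 - jet c k p.1‖ + C1 * ‖p.1 ^ k‖ :=
    (norm_add_le _ _).trans (add_le_add e7 e3)
  rw [norm_pow] at e10
  calc ‖a p‖ * _ ≤ M * (K * ‖p.2 - jet c k p.1‖ + C1 * ‖p.1‖ ^ k) := mul_le_mul e2 e10 (norm_nonneg _) hM.le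
    _ ≤ M * (K + C1) * (‖p.2 - jet c k p.1‖ + ‖p.1‖ ^ k) := by
      have h6 : 0 ≤ M * (C1 * ‖p.2 - jet c k p.1‖) := by positivity
      have h7 : 0 ≤ M * (K * ‖p.1‖ ^ k) := by positivity
      nlinarith

/-- second estimate: `Y' - δ Y`; the constant `C` does not depend on `J` -/
theorem sn_est2 {k : ℕ} {a b : ℂ × ℂ → ℂ} (ha : AnalyticAt ℂ a 0) (hb : AnalyticAt ℂ b 0) {c : ℕ → ℂ} (hc : c 0 = 0) (ε : ℂ) :
    ∃ C : ℝ, 0 < C ∧ ∀ J : ℕ, ∀ᶠ p in 𝓝 (0 : ℂ × ℂ),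
      ‖yv k a b c J p - yv k a b c J (p.1, jet c J p.1) - dlt k a b ε p * (p.2 - jet c J p.1)‖ ≤
        C * (‖p.2 - jet c J p.1‖ + ‖p.1‖ ^ k) * ‖p.2 - jet c J p.1‖ := by
  have hda1 : AnalyticAt ℂ (fun p => fderiv ℂ a p (1, 0)) 0 := an_fderiv_apply ha _
  have hda : AnalyticAt ℂ (fun p => fderiv ℂ a p (0, 1)) 0 := an_fderiv_apply ha _
  have hdb : AnalyticAt ℂ (fun p => fderiv ℂ b p (0, 1)) 0 := an_fderiv_apply hb _
  obtain ⟨M0, hM0, h0⟩ := analytic_bdd ha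
  obtain ⟨M1, hM1, h1⟩ := analytic_bdd hda1
  obtain ⟨M2, hM2, h2⟩ := analytic_bdd hda
  obtain ⟨K, hK, r, hr, hL⟩ := analytic_lip hdb
  have h3 : ∀ᶠ p in 𝓝 (0 : ℂ × ℂ), DifferentiableAt ℂ a p ∧ DifferentiableAt ℂ b p := by
    filter_upwards [ha.eventually_analyticAt, hb.eventually_analyticAt] with p e1 e2 using ⟨e1.differentiableAt, e2.differentiableAt⟩
  obtain ⟨r', hr', hU⟩ := Metric.eventually_nhds_iff_ball.1 (h0.and (h1.and (h2.and h3)))
  refine ⟨2 * K + (‖(k : ℂ) + 1 - ε‖ * M0 + M1 + M2), by positivity, fun J => ?_⟩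
  have hcont : Continuous fun p : ℂ × ℂ => jet c J p.1 := (jet_differentiable c J).continuous.comp continuous_fst
  have hdcont : Continuous fun p : ℂ × ℂ => deriv (jet c J) p.1 :=
    ((jet_differentiable c J).contDiff (n := 1)).continuous_deriv le_rfl |>.comp continuous_fst
  have h4 : ∀ᶠ p : ℂ × ℂ in 𝓝 0, ‖p.1‖ * ‖deriv (jet c J) p.1‖ < 1 := by
    have : Tendsto (fun p : ℂ × ℂ => ‖p.1‖ * ‖deriv (jet c J) p.1‖) (𝓝 0) (𝓝 0) := by
      have hcc : Continuous (fun p : ℂ × ℂ => ‖p.1‖ * ‖deriv (jet c J) p.1‖) := continuous_fst.norm.mul hdcont.norm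
      simpa using hcc.tendsto (0 : ℂ × ℂ)
    exact this (Iio_mem_nhds one_pos)
  have h5 : ∀ᶠ p : ℂ × ℂ in 𝓝 0, ‖p.1‖ < min 1 (min r r') := by
    have : Tendsto (fun p : ℂ × ℂ => ‖p.1‖) (𝓝 0) (𝓝 0) := by simpa using (continuous_fst.norm).tendsto (0 : ℂ × ℂ)
    exact this (Iio_mem_nhds (by positivity))
  have h6 : ∀ᶠ p : ℂ × ℂ in 𝓝 0, ‖jet c J p.1‖ + ‖p.2 - jet c J p.1‖ < min r r' := by
    have : Tendsto (fun p : ℂ × ℂ => ‖jet c J p.1‖ + ‖p.2 - jet c J p.1‖) (𝓝 0) (𝓝 0) := by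
      have hcc : Continuous (fun p : ℂ × ℂ => ‖jet c J p.1‖ + ‖p.2 - jet c J p.1‖) := hcont.norm.add (continuous_snd.sub hcont).norm
      simpa [jet_zero hc] using hcc.tendsto (0 : ℂ × ℂ)
    exact this (Iio_mem_nhds (by positivity))
  filter_upwards [h4, h5, h6] with p e4 e5 e6
  set x := p.1 with hx
  set Y := p.2 - jet c J x with hY
  have hball : ∀ t : ℂ, ‖t‖ ≤ ‖Y‖ → (x, jet c J x + t) ∈ Metric.ball (0 : ℂ × ℂ) (min r r') := by
    intro t ht
    rw [Metric.mem_ball, dist_zero_right, Prod.norm_def]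
    refine max_lt (e5.trans_le (min_le_right _ _)) ?_
    refine (norm_add_le _ _).trans_lt ?_
    linarith
  have hp : p = (x, jet c J x + Y) := by
    rw [hY, hx]
    ext <;> simp
  have hpb : p ∈ Metric.ball (0 : ℂ × ℂ) (min r r') := by
    rw [hp]; exact hball Y le_rfl
  set h : ℂ → ℂ := fun t => yv k a b c J (x, jet c J x + t) - dlt k a b ε p * t with hh
  have hline : ∀ t : ℂ, HasDerivAt (fun t : ℂ => ((x, jet c J x + t) : ℂ × ℂ)) (0, 1) t := by
    intro t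
    exact (hasDerivAt_const t x).prodMk ((hasDerivAt_id t).const_add _)
  have hder : ∀ t : ℂ, ‖t‖ ≤ ‖Y‖ → HasDerivAt h (fderiv ℂ b (x, jet c J x + t) (0, 1) -
      deriv (jet c J) x * (x ^ (k + 1) * fderiv ℂ a (x, jet c J x + t) (0, 1)) - dlt k a b ε p) t := by
    intro t ht
    have hb1 := hball t ht
    obtain ⟨-, -, -, d1, d2⟩ := hU _ (Metric.ball_subset_ball (min_le_right _ _) hb1)
    have g1 : HasDerivAt (fun t => b (x, jet c J x + t)) (fderiv ℂ b (x, jet c J x + t) (0, 1)) t :=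
      d2.hasFDerivAt.comp_hasDerivAt t (hline t)
    have g2 : HasDerivAt (fun t => a (x, jet c J x + t)) (fderiv ℂ a (x, jet c J x + t) (0, 1)) t :=
      d1.hasFDerivAt.comp_hasDerivAt t (hline t)
    have g3 := (g1.sub ((g2.const_mul (x ^ (k + 1))).const_mul (deriv (jet c J) x))).sub ((hasDerivAt_id t).const_mul (dlt k a b ε p))
    rw [mul_one] at g3
    exact g3
  have hbound : ∀ t ∈ Metric.closedBall (0 : ℂ) ‖Y‖, ‖deriv h t‖ ≤ (2 * K + (‖(k : ℂ) + 1 - ε‖ * M0 + M1 + M2)) * (‖Y‖ + ‖x‖ ^ k) := by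
    intro t ht
    have ht' : ‖t‖ ≤ ‖Y‖ := by simpa using ht
    rw [(hder t ht').deriv]
    have hb1 := hball t ht'
    obtain ⟨q0, q1, q2, -, -⟩ := hU _ (Metric.ball_subset_ball (min_le_right _ _) hb1)
    obtain ⟨p0, p1, p2, -, -⟩ := hU _ (Metric.ball_subset_ball (min_le_right _ _) hpb)
    have e7 := hL _ (Metric.ball_subset_ball (min_le_left _ _) hb1) p (Metric.ball_subset_ball (min_le_left _ _) hpb)
    have e8 : ‖(x, jet c J x + t) - p‖ ≤ 2 * ‖Y‖ := by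
      rw [hp, Prod.norm_def]
      simp only [Prod.mk_sub_mk, sub_self, norm_zero, add_sub_add_left_eq_sub]
      refine max_le (by positivity) ((norm_sub_le _ _).trans ?_)
      linarith
    have hx1 : ‖x‖ < 1 := e5.trans_le (min_le_left _ _)
    have hxk : 0 ≤ ‖x‖ ^ k := by positivity
    have hY0 : 0 ≤ ‖Y‖ := norm_nonneg _
    have hdec : fderiv ℂ b (x, jet c J x + t) (0, 1) - deriv (jet c J) x * (x ^ (k + 1) * fderiv ℂ a (x, jet c J x + t) (0, 1)) - dlt k a b ε p =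
        (fderiv ℂ b (x, jet c J x + t) (0, 1) - fderiv ℂ b p (0, 1)) - x ^ k * ((x * deriv (jet c J) x) * fderiv ℂ a (x, jet c J x + t) (0, 1)) -
          x ^ k * ((k + 1 - ε) * a p) - x ^ k * (x * fderiv ℂ a p (1, 0)) := by
      rw [dlt, ← hx]
      ring
    rw [hdec]
    have n1 : ‖fderiv ℂ b (x, jet c J x + t) (0, 1) - fderiv ℂ b p (0, 1)‖ ≤ K * (2 * ‖Y‖) :=
      e7.trans (mul_le_mul_of_nonneg_left e8 hK)
    have n2 : ‖x ^ k * ((x * deriv (jet c J) x) * fderiv ℂ a (x, jet c J x + t) (0, 1))‖ ≤ ‖x‖ ^ k * M2 := by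
      rw [norm_mul, norm_pow]
      refine mul_le_mul_of_nonneg_left ?_ hxk
      rw [norm_mul, norm_mul]
      calc ‖x‖ * ‖deriv (jet c J) x‖ * _ ≤ 1 * M2 := mul_le_mul e4.le q2 (norm_nonneg _) zero_le_one
        _ = M2 := one_mul _
    have n3 : ‖x ^ k * (((k : ℂ) + 1 - ε) * a p)‖ ≤ ‖x‖ ^ k * (‖(k : ℂ) + 1 - ε‖ * M0) := by
      rw [norm_mul, norm_pow]
      refine mul_le_mul_of_nonneg_left ?_ hxk
      rw [norm_mul]
      exact mul_le_mul_of_nonneg_left p0 (norm_nonneg _)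
    have n4 : ‖x ^ k * (x * fderiv ℂ a p (1, 0))‖ ≤ ‖x‖ ^ k * M1 := by
      rw [norm_mul, norm_pow]
      refine mul_le_mul_of_nonneg_left ?_ hxk
      rw [norm_mul]
      calc ‖x‖ * _ ≤ 1 * M1 := mul_le_mul hx1.le p1 (norm_nonneg _) zero_le_one
        _ = M1 := one_mul _
    have n5 := norm_sub_le (fderiv ℂ b (x, jet c J x + t) (0, 1) - fderiv ℂ b p (0, 1) -
      x ^ k * ((x * deriv (jet c J) x) * fderiv ℂ a (x, jet c J x + t) (0, 1)) - x ^ k * ((k + 1 - ε) * a p)) (x ^ k * (x * fderiv ℂ a p (1, 0)))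
    have n6 := norm_sub_le (fderiv ℂ b (x, jet c J x + t) (0, 1) - fderiv ℂ b p (0, 1) -
      x ^ k * ((x * deriv (jet c J) x) * fderiv ℂ a (x, jet c J x + t) (0, 1))) (x ^ k * ((k + 1 - ε) * a p))
    have n7 := norm_sub_le (fderiv ℂ b (x, jet c J x + t) (0, 1) - fderiv ℂ b p (0, 1))
      (x ^ k * ((x * deriv (jet c J) x) * fderiv ℂ a (x, jet c J x + t) (0, 1)))
    have n8 : 0 ≤ (‖(k : ℂ) + 1 - ε‖ * M0 + M1 + M2) * ‖Y‖ := by positivity
    have n9 : 0 ≤ 2 * K * ‖x‖ ^ k := by positivity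
    nlinarith
  have hmv := (convex_closedBall (0 : ℂ) ‖Y‖).norm_image_sub_le_of_norm_deriv_le (f := h) (x := 0) (y := Y)
    (fun t ht => (hder t (by simpa using ht)).differentiableAt) hbound (by simp) (by simp)
  have e9 : h Y - h 0 = yv k a b c J p - yv k a b c J (x, jet c J x) - dlt k a b ε p * Y := by
    simp only [hh, add_zero, mul_zero, sub_zero]
    rw [← hp]
    ring
  rw [e9, sub_zero] at hmv
  exact hmv

end Pool.Agent.MQ

end
end
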