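import Pool.Agent.H43.TL2.M06
import Pool.Agent.H43.TL2.M14
import Pool.Agent.H43.TL2.M16
import Pool.Agent.H43.TL2.M17
import Pool.Agent.H43.TL2.M21
import Pool.Agent.H43.TL2.M22

/-! The parts of this file: E1.Disc, H62.FC.GradedField, H62.FC.Main, MQ3.Hank, MQ3.Fr, MQ3.FrE. -/

section

/-!
# E1 Disc: the zeros of a germ in two variables are covered by finitely many discs
-/

set_option autoImplicit false

open Topology Filter Metric

noncomputable section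

namespace Pool.Agent.E1

open Pool.Agent.H17BP

/-- the properties of a disc -/
def DiscIn (g : ℂ × ℂ → ℂ) (W : Set (ℂ × ℂ)) (c : ℂ → ℂ × ℂ) : Prop :=
  AnalyticOnNhd ℂ c (closedBall 0 1) ∧ ∀ z ∈ closedBall (0 : ℂ) 1, c z ∈ W ∧ g (c z) = 0

theorem disc_axis {g : ℂ × ℂ → ℂ} {θ : ℂ × ℂ → ℂ × ℂ} (hθ : AnalyticAt ℂ θ 0) (h0 : θ 0 = 0) {e : ℂ × ℂ} {W : Set (ℂ × ℂ)}
    (hW : W ∈ 𝓝 (0 : ℂ × ℂ)) (hz : ∀ᶠ z in 𝓝 (0 : ℂ), g (θ (z • e)) = 0) :
    ∃ δ : ℝ, 0 < δ ∧ DiscIn g W fun z => θ (((δ : ℂ) * z) • e) := by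
  have ht : Tendsto (fun z : ℂ => z • e) (𝓝 0) (𝓝 0) := by
    have h : ContinuousAt (fun z : ℂ => z • e) 0 := by fun_prop
    have h1 := h.tendsto
    rwa [zero_smul] at h1
  have hθt : Tendsto θ (𝓝 0) (𝓝 0) := by
    have h := hθ.continuousAt.tendsto
    rwa [h0] at h
  obtain ⟨δ₀, hδ₀, h1⟩ := Metric.eventually_nhds_iff_ball.1 ((ht.eventually hθ.eventually_analyticAt).and (hz.and ((hθt.comp ht).eventually hW)))
  have hδ : 0 < δ₀ / 2 := by positivity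
  have hin : ∀ z ∈ closedBall (0 : ℂ) 1, ((δ₀ / 2 : ℝ) : ℂ) * z ∈ ball (0 : ℂ) δ₀ := by
    intro z hz
    rw [mem_closedBall, dist_zero_right] at hz
    rw [mem_ball, dist_zero_right, norm_mul, Complex.norm_real, Real.norm_of_nonneg hδ.le]
    calc δ₀ / 2 * ‖z‖ ≤ δ₀ / 2 * 1 := by gcongr
      _ < δ₀ := by linarith
  refine ⟨δ₀ / 2, hδ, fun z hz => ?_, fun z hz => ?_⟩
  · refine AnalyticAt.fun_comp (g := θ) (f := fun z : ℂ => (((δ₀ / 2 : ℝ) : ℂ) * z) • e) (h1 _ (hin z hz)).1 ?_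
    fun_prop
  · exact ⟨(h1 _ (hin z hz)).2.2, (h1 _ (hin z hz)).2.1⟩

theorem disc_const {g : ℂ × ℂ → ℂ} {W : Set (ℂ × ℂ)} (hW : W ∈ 𝓝 (0 : ℂ × ℂ)) (h0 : g 0 = 0) : DiscIn g W fun _ => 0 :=
  ⟨analyticOnNhd_const, fun _ _ => ⟨mem_of_mem_nhds hW, h0⟩⟩

/-- the case of a monomial -/
theorem disc_mono {g : ℂ × ℂ → ℂ} (hg : Mono g) {W : Set (ℂ × ℂ)} (hW : W ∈ 𝓝 (0 : ℂ × ℂ)) :
    ∃ C : Set (ℂ → ℂ × ℂ), C.Finite ∧ (∀ c ∈ C, DiscIn g W c) ∧
      ∀ᶠ p in 𝓝 (0 : ℂ × ℂ), g p = 0 → ∃ c ∈ C, ∃ z ∈ closedBall (0 : ℂ) (1 / 2), c z = p := by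
  obtain ⟨S, T, a, b, u, hST, hu, hu0, hgu⟩ := hg
  obtain ⟨θ, hθ, h1, h2⟩ := Bihol.exists_inv hST
  have hθt := hθ.tendsto
  have hun : ∀ᶠ p in 𝓝 (0 : ℂ × ℂ), u p ≠ 0 := hu.continuousAt.eventually_ne hu0
  have hST0 : Tendsto (fun p => (S p, T p)) (𝓝 0) (𝓝 0) := hST.tendsto
  -- the axis `S = 0`
  have hA : ∃ C : Set (ℂ → ℂ × ℂ), C.Finite ∧ (∀ c ∈ C, DiscIn g W c) ∧
      ∀ᶠ p in 𝓝 (0 : ℂ × ℂ), g p = 0 → S p = 0 → a ≠ 0 → ∃ c ∈ C, ∃ z ∈ closedBall (0 : ℂ) (1 / 2), c z = p := by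
    by_cases ha : a = 0
    · exact ⟨∅, Set.finite_empty, fun c hc => absurd hc (Set.notMem_empty _), Eventually.of_forall fun p _ _ h => absurd ha h⟩
    · obtain ⟨δ, hδ, hd⟩ := disc_axis (g := g) (e := ((0, 1) : ℂ × ℂ)) hθ.an hθ.zero hW (by
        have ht : Tendsto (fun z : ℂ => z • ((0, 1) : ℂ × ℂ)) (𝓝 0) (𝓝 0) := by
          have h : ContinuousAt (fun z : ℂ => z • ((0, 1) : ℂ × ℂ)) 0 := by fun_prop
          have h1 := h.tendsto
          rwa [zero_smul] at h1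
        filter_upwards [ht.eventually (hθt.eventually hgu), ht.eventually h2] with z g1 g2
        have g3 : S (θ (z • ((0, 1) : ℂ × ℂ))) = 0 := by
          have := congrArg Prod.fst g2
          simpa using this
        rw [g1, g3, zero_pow ha, zero_mul, zero_mul])
      refine ⟨{fun z => θ (((δ : ℂ) * z) • ((0, 1) : ℂ × ℂ))}, Set.finite_singleton _, fun c hc => by rw [Set.mem_singleton_iff.1 hc]; exact hd, ?_⟩
      have hsmall : ∀ᶠ p in 𝓝 (0 : ℂ × ℂ), ‖T p‖ < δ / 2 := by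
        have h3 : Tendsto (fun p => ‖T p‖) (𝓝 0) (𝓝 0) := by
          have h4 : Tendsto (fun p => ((S p, T p) : ℂ × ℂ).2) (𝓝 0) (𝓝 0) := (continuous_snd.tendsto (0 : ℂ × ℂ)).comp hST0
          simpa using h4.norm
        exact h3.eventually (gt_mem_nhds (by positivity))
      filter_upwards [h1, hsmall] with p g1 g2 _ g3 _
      refine ⟨_, Set.mem_singleton _, T p / δ, ?_, ?_⟩
      · rw [mem_closedBall, dist_zero_right, norm_div, Complex.norm_real, Real.norm_of_nonneg hδ.le, div_le_iff₀ hδ]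
        linarith
      · have hδ' : (δ : ℂ) ≠ 0 := by exact_mod_cast hδ.ne'
        have g4 : ((δ : ℂ) * (T p / δ)) • ((0, 1) : ℂ × ℂ) = (S p, T p) := by
          rw [mul_div_cancel₀ _ hδ', g3]
          simp
        show θ (((δ : ℂ) * (T p / δ)) • ((0, 1) : ℂ × ℂ)) = p
        rw [g4]
        exact g1
  have hB : ∃ C : Set (ℂ → ℂ × ℂ), C.Finite ∧ (∀ c ∈ C, DiscIn g W c) ∧
      ∀ᶠ p in 𝓝 (0 : ℂ × ℂ), g p = 0 → T p = 0 → b ≠ 0 → ∃ c ∈ C, ∃ z ∈ closedBall (0 : ℂ) (1 / 2), c z = p := by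
    by_cases hb : b = 0
    · exact ⟨∅, Set.finite_empty, fun c hc => absurd hc (Set.notMem_empty _), Eventually.of_forall fun p _ _ h => absurd hb h⟩
    · obtain ⟨δ, hδ, hd⟩ := disc_axis (g := g) (e := ((1, 0) : ℂ × ℂ)) hθ.an hθ.zero hW (by
        have ht : Tendsto (fun z : ℂ => z • ((1, 0) : ℂ × ℂ)) (𝓝 0) (𝓝 0) := by
          have h : ContinuousAt (fun z : ℂ => z • ((1, 0) : ℂ × ℂ)) 0 := by fun_prop
          have h1 := h.tendsto
          rwa [zero_smul] at h1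
        filter_upwards [ht.eventually (hθt.eventually hgu), ht.eventually h2] with z g1 g2
        have g3 : T (θ (z • ((1, 0) : ℂ × ℂ))) = 0 := by
          have := congrArg Prod.snd g2
          simpa using this
        rw [g1, g3, zero_pow hb, mul_zero, zero_mul])
      refine ⟨{fun z => θ (((δ : ℂ) * z) • ((1, 0) : ℂ × ℂ))}, Set.finite_singleton _, fun c hc => by rw [Set.mem_singleton_iff.1 hc]; exact hd, ?_⟩
      have hsmall : ∀ᶠ p in 𝓝 (0 : ℂ × ℂ), ‖S p‖ < δ / 2 := by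
        have h3 : Tendsto (fun p => ‖S p‖) (𝓝 0) (𝓝 0) := by
          have h4 : Tendsto (fun p => ((S p, T p) : ℂ × ℂ).1) (𝓝 0) (𝓝 0) := (continuous_fst.tendsto (0 : ℂ × ℂ)).comp hST0
          simpa using h4.norm
        exact h3.eventually (gt_mem_nhds (by positivity))
      filter_upwards [h1, hsmall] with p g1 g2 _ g3 _
      refine ⟨_, Set.mem_singleton _, S p / δ, ?_, ?_⟩
      · rw [mem_closedBall, dist_zero_right, norm_div, Complex.norm_real, Real.norm_of_nonneg hδ.le, div_le_iff₀ hδ]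
        linarith
      · have hδ' : (δ : ℂ) ≠ 0 := by exact_mod_cast hδ.ne'
        have g4 : ((δ : ℂ) * (S p / δ)) • ((1, 0) : ℂ × ℂ) = (S p, T p) := by
          rw [mul_div_cancel₀ _ hδ', g3]
          simp
        show θ (((δ : ℂ) * (S p / δ)) • ((1, 0) : ℂ × ℂ)) = p
        rw [g4]
        exact g1
  obtain ⟨CA, hCA, hCA1, hCA2⟩ := hA
  obtain ⟨CB, hCB, hCB1, hCB2⟩ := hB
  refine ⟨CA ∪ CB, hCA.union hCB, fun c hc => hc.elim (hCA1 c) (hCB1 c), ?_⟩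
  filter_upwards [hCA2, hCB2, hgu, hun] with p g1 g2 g3 g4 g5
  have g6 : S p ^ a * T p ^ b = 0 := by
    rw [g3] at g5
    exact (mul_eq_zero.1 g5).resolve_right g4
  rcases mul_eq_zero.1 g6 with g7 | g7
  · have ha : a ≠ 0 := by
      rintro rfl
      rw [pow_zero] at g7
      exact one_ne_zero g7
    obtain ⟨c, hc, z, hz, he⟩ := g1 g5 (pow_eq_zero_iff ha |>.1 g7) ha
    exact ⟨c, Or.inl hc, z, hz, he⟩
  · have hb : b ≠ 0 := by
      rintro rfl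
      rw [pow_zero] at g7
      exact one_ne_zero g7
    obtain ⟨c, hc, z, hz, he⟩ := g2 g5 (pow_eq_zero_iff hb |>.1 g7) hb
    exact ⟨c, Or.inr hc, z, hz, he⟩

theorem disc_set (n : ℕ) : ∀ {g : ℂ × ℂ → ℂ}, ResN n g → ∀ {W : Set (ℂ × ℂ)}, W ∈ 𝓝 (0 : ℂ × ℂ) →
    ∃ C : Set (ℂ → ℂ × ℂ), C.Finite ∧ (∀ c ∈ C, DiscIn g W c) ∧
      ∀ᶠ p in 𝓝 (0 : ℂ × ℂ), g p = 0 → ∃ c ∈ C, ∃ z ∈ closedBall (0 : ℂ) (1 / 2), c z = p := by
  induction n with
  | zero => exact fun hg _ hW => disc_mono hg hW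
  | succ n ih =>
    intro g hg W hW
    rcases hg with hg | hg
    · exact disc_mono hg hW
    -- the points of the exceptional curve
    have hpt : ∀ β : ℂ × ℂ → ℂ × ℂ, BChart β → (∀ x, AnalyticAt ℂ β x) → β 0 = 0 →
        ∃ (C : Set (ℂ → ℂ × ℂ)) (ε : ℝ), C.Finite ∧ (∀ c ∈ C, DiscIn g W c) ∧ 0 < ε ∧
          ∀ x : ℂ × ℂ, ‖x‖ < ε → g (β x) = 0 → ∃ c ∈ C, ∃ z ∈ closedBall (0 : ℂ) (1 / 2), c z = β x := by
      intro β hβ han h0
      have hβt : Tendsto β (𝓝 0) (𝓝 0) := by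
        have h := (han 0).continuousAt.tendsto
        rwa [h0] at h
      obtain ⟨C, hC, hC1, hC2⟩ := ih (hg β hβ) (W := β ⁻¹' W) (hβt hW)
      obtain ⟨ε, hε, h1⟩ := Metric.eventually_nhds_iff_ball.1 hC2
      refine ⟨(fun c => β ∘ c) '' C, ε, hC.image _, ?_, hε, ?_⟩
      · rintro _ ⟨c, hc, rfl⟩
        obtain ⟨h2, h3⟩ := hC1 c hc
        exact ⟨fun z hz => (han _).comp (h2 z hz), fun z hz => h3 z hz⟩
      · intro x hx hgx
        obtain ⟨c, hc, z, hz, he⟩ := h1 x (by rwa [mem_ball, dist_zero_right]) hgx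
        exact ⟨β ∘ c, ⟨c, hc, rfl⟩, z, hz, congrArg β he⟩
    obtain ⟨Ci, εi, hCi, hCi1, hεi, hCi2⟩ := hpt blInf bchart_blInf (fun x => analyticAt_blInf x) blInf_zero
    choose! Cb εb hCb hCb1 hεb hCb2 using fun t : ℂ => hpt (bl t) (bchart_bl t) (fun x => analyticAt_bl t x) (bl_zero t)
    obtain ⟨F, -, hF⟩ := (isCompact_closedBall (0 : ℂ) (1 / εi)).elim_nhds_subcover (fun t => ball t (εb t)) fun t _ => ball_mem_nhds t (hεb t)
    -- the constant disc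
    have h0c : ∃ C0 : Set (ℂ → ℂ × ℂ), C0.Finite ∧ (∀ c ∈ C0, DiscIn g W c) ∧
        (g 0 = 0 → ∃ c ∈ C0, ∃ z ∈ closedBall (0 : ℂ) (1 / 2), c z = 0) := by
      by_cases hg0 : g 0 = 0
      · exact ⟨{fun _ => 0}, Set.finite_singleton _, fun c hc => by rw [Set.mem_singleton_iff.1 hc]; exact disc_const hW hg0,
          fun _ => ⟨_, Set.mem_singleton _, 0, mem_closedBall_self (by norm_num), rfl⟩⟩
      · exact ⟨∅, Set.finite_empty, fun c hc => absurd hc (Set.notMem_empty _), fun h => absurd h hg0⟩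
    obtain ⟨C0, hC0, hC01, hC02⟩ := h0c
    refine ⟨C0 ∪ Ci ∪ ⋃ t ∈ F, Cb t, (hC0.union hCi).union (F.finite_toSet.biUnion fun t _ => hCb t), ?_, ?_⟩
    · intro c hc
      rcases hc with (hc | hc) | hc
      · exact hC01 c hc
      · exact hCi1 c hc
      · rw [Set.mem_iUnion₂] at hc
        obtain ⟨t, -, hct⟩ := hc
        exact hCb1 t c hct
    · have hsm : ∀ᶠ p in 𝓝 (0 : ℂ × ℂ), ‖p‖ < εi ∧ ∀ t ∈ F, ‖p‖ < εb t := by
        have h1 : ∀ ε : ℝ, 0 < ε → ∀ᶠ p in 𝓝 (0 : ℂ × ℂ), ‖p‖ < ε := fun ε hε => by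
          filter_upwards [ball_mem_nhds (0 : ℂ × ℂ) hε] with p hp
          rwa [mem_ball, dist_zero_right] at hp
        exact (h1 _ hεi).and ((Finset.eventually_all F).2 fun t _ => h1 _ (hεb t))
      filter_upwards [hsm] with p ⟨hp1, hp2⟩ hgp
      by_cases hp0 : p = 0
      · rw [hp0] at hgp ⊢
        obtain ⟨c, hc, z, hz, he⟩ := hC02 hgp
        exact ⟨c, Or.inl (Or.inl hc), z, hz, he⟩
      have hn1 : ‖p.1‖ ≤ ‖p‖ := norm_fst_le p
      have hn2 : ‖p.2‖ ≤ ‖p‖ := norm_snd_le p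
      by_cases hlt : ‖p.1‖ < εi * ‖p.2‖
      · have h2 : p.2 ≠ 0 := by
          intro h
          rw [h, norm_zero, mul_zero] at hlt
          exact absurd hlt (not_lt.2 (norm_nonneg _))
        have h3 : 0 < ‖p.2‖ := norm_pos_iff.2 h2
        have h4 : blInf (p.1 / p.2, p.2) = p := by
          rw [blInf]
          ext
          · exact div_mul_cancel₀ _ h2
          · rfl
        obtain ⟨c, hc, z, hz, he⟩ := hCi2 (p.1 / p.2, p.2) (by
          rw [Prod.norm_def]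
          refine max_lt ?_ (lt_of_le_of_lt hn2 hp1)
          show ‖p.1 / p.2‖ < εi
          rw [norm_div, div_lt_iff₀ h3]
          exact hlt) (by rw [h4]; exact hgp)
        exact ⟨c, Or.inl (Or.inr hc), z, hz, by rw [he, h4]⟩
      · rw [not_lt] at hlt
        have h2 : p.1 ≠ 0 := by
          intro h
          rw [h, norm_zero] at hlt
          have h5 : ‖p.2‖ ≤ 0 := by
            by_contra h6
            rw [not_le] at h6
            have := mul_pos hεi h6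
            linarith
          exact hp0 (Prod.ext h (norm_le_zero_iff.1 h5))
        have h3 : 0 < ‖p.1‖ := norm_pos_iff.2 h2
        have h4 : p.2 / p.1 ∈ closedBall (0 : ℂ) (1 / εi) := by
          rw [mem_closedBall, dist_zero_right, norm_div, div_le_div_iff₀ h3 hεi]
          linarith
        obtain ⟨t, ht, htt⟩ := Set.mem_iUnion₂.1 (hF h4)
        have h5 : bl t (p.1, p.2 / p.1 - t) = p := by
          rw [bl]
          ext
          · rfl
          · show p.1 * (t + (p.2 / p.1 - t)) = p.2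
            rw [add_sub_cancel, mul_div_cancel₀ _ h2]
        obtain ⟨c, hc, z, hz, he⟩ := hCb2 t (p.1, p.2 / p.1 - t) (by
          rw [Prod.norm_def]
          refine max_lt (lt_of_le_of_lt hn1 (hp2 t ht)) ?_
          show ‖p.2 / p.1 - t‖ < εb t
          rwa [mem_ball, dist_eq_norm] at htt) (by rw [h5]; exact hgp)
        exact ⟨c, Or.inr (Set.mem_iUnion₂.2 ⟨t, ht, hc⟩), z, hz, by rw [he, h5]⟩

/-- **The zeros of a germ are covered by finitely many discs.** -/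
theorem disc_cover (n : ℕ) {g : ℂ × ℂ → ℂ} (hg : ResN n g) {W : Set (ℂ × ℂ)} (hW : W ∈ 𝓝 (0 : ℂ × ℂ)) :
    ∃ (r : ℕ) (c : Fin r → ℂ → ℂ × ℂ), (∀ i, AnalyticOnNhd ℂ (c i) (closedBall 0 1)) ∧
      (∀ i, ∀ z ∈ closedBall (0 : ℂ) 1, c i z ∈ W ∧ g (c i z) = 0) ∧
      ∀ᶠ p in 𝓝 (0 : ℂ × ℂ), g p = 0 → ∃ i, ∃ z ∈ closedBall (0 : ℂ) (1 / 2), c i z = p := by
  obtain ⟨C, hC, hC1, hC2⟩ := disc_set n hg hW
  obtain ⟨r, c, -, hcr⟩ := hC.fin_param
  have h1 : ∀ i, DiscIn g W (c i) := fun i => hC1 _ (hcr ▸ Set.mem_range_self i)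
  refine ⟨r, c, fun i => (h1 i).1, fun i => (h1 i).2, ?_⟩
  filter_upwards [hC2] with p hp hgp
  obtain ⟨d, hd, z, hz, he⟩ := hp hgp
  rw [← hcr] at hd
  obtain ⟨i, rfl⟩ := hd
  exact ⟨i, z, hz, he⟩

end Pool.Agent.E1

end
end

section

open MvPolynomial
open Pool.Agent.H17GT (coordFun functionField)

noncomputable section

namespace Pool.Agent.H62.FC

end Pool.Agent.H62.FC

end
end

section

/-!
# Fermat covers: the components
-/

open MvPolynomial Topology Filter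
open Pool.Agent.H17GT (coordFun functionField)
open Pool.Agent.H17LG.Variety (FunField)

noncomputable section

namespace Pool.Agent.H62.FC

variable {N : ℕ} {κ : Type} {A : κ → MvPolynomial (Fin (N + 1)) ℂ} {e : κ → ℕ}
  {O : Finset (Fin (N + 1))} {P : Ideal (MvPolynomial (Fin (N + 1)) ℂ)}

/-- A variety of positive dimension has a non-zero coordinate. -/
lemma exists_X_notMem [P.IsPrime] {r : ℕ} (hr : 1 ≤ r)
    (hz : ∃ z : Fin r → FunField P, IsTranscendenceBasis ℂ z) : ∃ i, X i ∉ P := by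
  by_contra hcon
  push Not at hcon
  obtain ⟨z, hz⟩ := hz
  have h1 : functionField P = ⊥ := by
    rw [functionField, IntermediateField.adjoin_eq_bot_iff]
    rintro f ⟨i, j, rfl⟩
    have h2 : coordFun P i = 0 := by
      rw [coordFun, Ideal.Quotient.eq_zero_iff_mem.mpr (hcon i), map_zero]
    rw [h2, zero_div]
    exact zero_mem _
  have h2 : Transcendental ℂ (z ⟨0, hr⟩) := by
    have := hz.1.transcendental ⟨0, hr⟩
    exact this
  apply h2
  set y : functionField P := z ⟨0, hr⟩ with hy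
  have h3 : (y : FractionRing (MvPolynomial (Fin (N + 1)) ℂ ⧸ P)) ∈
      (⊥ : IntermediateField ℂ (FractionRing (MvPolynomial (Fin (N + 1)) ℂ ⧸ P))) := by
    rw [← h1]
    exact y.2
  obtain ⟨c, hc⟩ := IntermediateField.mem_bot.mp h3
  have h4 : y = algebraMap ℂ (functionField P) c := Subtype.ext hc.symm
  have h5 : IsAlgebraic ℂ y := by
    rw [h4]
    exact isAlgebraic_algebraMap c
  exact h5

end Pool.Agent.H62.FC

end
end

section

/-!
# MQ3 Hank: the number of distinct roots of an analytic family of polynomials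

`A i` are functions on `ℂ × ℂ`, analytic at `0`, and the leading one does not vanish identically near `0`. The number of distinct roots of
`∑ A i p * t ^ i` is at most a number `e` for all `p` near `0` with `A m p ≠ 0`, and it is equal to `e` exactly where a function `D`, analytic
at `0` and not identically zero near `0`, does not vanish.
-/

set_option autoImplicit false

open Topology Filter

noncomputable section

namespace Pool.Agent.MQ3

open Pool.Agent.MQ.AJ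

/-- The Hankel determinant of the power sums vanishes if there are fewer than `e` distinct numbers. -/
theorem hankel_zero {d e f : ℕ} {l : Fin d → ℂ} {m : Fin f → ℂ} (hf : f < e) (h : ∀ j, ∃ k, l j = m k) :
    (Matrix.of fun i j : Fin e => ∑ k, l k ^ ((i : ℕ) + j)).det = 0 := by
  rw [← Matrix.exists_mulVec_eq_zero_iff]
  refine ⟨fun j => (mp m).coeff j, ?_, ?_⟩
  · intro h0
    have h1 := congrFun h0 ⟨f, hf⟩
    have h2 : (mp m).coeff f = 1 := by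
      have := (mp_monic m).coeff_natDegree
      rwa [mp_natDegree] at this
    exact one_ne_zero (h2.symm.trans h1)
  · funext i
    have hev : ∀ k, (mp m).eval (l k) = ∑ j : Fin e, (mp m).coeff j * l k ^ (j : ℕ) := by
      intro k
      rw [Polynomial.eval_eq_sum_range' (n := e) (by rw [mp_natDegree]; exact hf),
        ← Fin.sum_univ_eq_sum_range (fun j => (mp m).coeff j * l k ^ j)]
    have h1 : ∀ k, (mp m).eval (l k) = 0 := by
      intro k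
      obtain ⟨j, hj⟩ := h k
      rw [mp_eval, Finset.prod_eq_zero (Finset.mem_univ j) (by rw [hj, sub_self])]
    have h3 : ∑ j : Fin e, (∑ k, l k ^ ((i : ℕ) + j)) * (mp m).coeff j = ∑ k, l k ^ (i : ℕ) * (mp m).eval (l k) := by
      simp only [hev, Finset.mul_sum, Finset.sum_mul]
      rw [Finset.sum_comm]
      exact Finset.sum_congr rfl fun k _ => Finset.sum_congr rfl fun j _ => by rw [pow_add]; ring
    have h4 : ∑ k, l k ^ (i : ℕ) * (mp m).eval (l k) = 0 := Finset.sum_eq_zero fun k _ => by rw [h1, mul_zero]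
    show ∑ j : Fin e, (∑ k, l k ^ ((i : ℕ) + j)) * (mp m).coeff j = 0
    rw [h3, h4]

/-- The Hankel determinant of the power sums detects the number of distinct roots, if that number is at most `e`. -/
theorem hankel_iff {d e : ℕ} {l : Fin d → ℂ} (h : (Finset.univ.image l).card ≤ e) :
    (Matrix.of fun i j : Fin e => ∑ k, l k ^ ((i : ℕ) + j)).det ≠ 0 ↔ (Finset.univ.image l).card = e := by
  classical
  constructor
  · intro hd
    by_contra hne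
    obtain ⟨m, -, h1, -⟩ := exists_distinct (l := l) rfl
    exact hd (hankel_zero (lt_of_le_of_ne h hne) h1)
  · intro he
    obtain ⟨m, h1, h2, h3⟩ := exists_distinct he
    exact hankel_det h1 h2 h3

/-- The coefficients of the monic polynomial whose roots are `A m * t`, for the roots `t` of `∑ A i * t ^ i`. -/
def mon {m : ℕ} (A : Fin (m + 1) → ℂ) : Fin m → ℂ := fun i => A i.castSucc * A (Fin.last m) ^ (m - 1 - (i : ℕ))

theorem pv_mon {m : ℕ} (hm : 1 ≤ m) (A : Fin (m + 1) → ℂ) (t : ℂ) :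
    pv m (mon A) (A (Fin.last m) * t) = A (Fin.last m) ^ (m - 1) * ∑ i, A i * t ^ (i : ℕ) := by
  rw [pv, Fin.sum_univ_castSucc, mul_add, Finset.mul_sum, add_comm]
  congr 1
  · refine Finset.sum_congr rfl fun i _ => ?_
    have h1 : A (Fin.last m) ^ (m - 1) = A (Fin.last m) ^ (m - 1 - (i : ℕ)) * A (Fin.last m) ^ (i : ℕ) := by
      rw [← pow_add]
      congr 1
      have := i.2
      omega
    rw [mon, h1, mul_pow, Fin.val_castSucc]
    ring
  · have h1 : A (Fin.last m) ^ m = A (Fin.last m) ^ (m - 1) * A (Fin.last m) := by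
      rw [← pow_succ]
      congr 1
      omega
    rw [mul_pow, h1, Fin.val_last]
    ring

theorem ncard_roots {m : ℕ} {A : Fin (m + 1) → ℂ} (h : A (Fin.last m) ≠ 0) {l : Fin m → ℂ}
    (hl : ∀ t, pv m (mon A) t = ∏ j, (t - l j)) :
    {t : ℂ | ∑ i, A i * t ^ (i : ℕ) = 0}.Finite ∧ {t : ℂ | ∑ i, A i * t ^ (i : ℕ) = 0}.ncard = (Finset.univ.image l).card := by
  classical
  have h1 : {t : ℂ | ∑ i, A i * t ^ (i : ℕ) = 0} = (fun s => s / A (Fin.last m)) '' ((Finset.univ.image l : Finset ℂ) : Set ℂ) := by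
    rcases Nat.eq_zero_or_pos m with rfl | hm
    · ext t
      simp only [Set.mem_ofPred_eq, Finset.univ_eq_empty, Finset.image_empty, Finset.coe_empty, Set.image_empty, Set.mem_empty_iff_false, iff_false]
      intro h0
      apply h
      simpa using h0
    · ext t
      have h2 : ∑ i, A i * t ^ (i : ℕ) = 0 ↔ pv m (mon A) (A (Fin.last m) * t) = 0 := by
        rw [pv_mon hm, mul_eq_zero]
        exact ⟨Or.inr, fun h' => h'.resolve_left (pow_ne_zero _ h)⟩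
      simp only [Set.mem_ofPred_eq, Set.mem_image, Finset.coe_image, Finset.coe_univ, Set.image_univ, Set.mem_range]
      rw [h2, hl, Finset.prod_eq_zero_iff]
      constructor
      · rintro ⟨j, -, hj⟩
        exact ⟨l j, ⟨j, rfl⟩, by rw [← sub_eq_zero.1 hj, mul_div_cancel_left₀ _ h]⟩
      · rintro ⟨s, ⟨j, rfl⟩, rfl⟩
        exact ⟨j, Finset.mem_univ j, by rw [mul_div_cancel₀ _ h, sub_self]⟩
  rw [h1]
  refine ⟨(Finset.finite_toSet _).image _, ?_⟩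
  rw [Set.ncard_image_of_injective _ (fun a b hab => (div_left_inj' h).1 hab), Set.ncard_coe_finset]

/-- The number of distinct roots of an analytic family of polynomials. -/
theorem hank {m : ℕ} {A : Fin (m + 1) → ℂ × ℂ → ℂ} (hA : ∀ i, AnalyticAt ℂ (A i) 0)
    (hm : ¬ ∀ᶠ p in 𝓝 (0 : ℂ × ℂ), A (Fin.last m) p = 0) :
    ∃ (e : ℕ) (D : ℂ × ℂ → ℂ), e ≤ m ∧ AnalyticAt ℂ D 0 ∧ (¬ ∀ᶠ p in 𝓝 (0 : ℂ × ℂ), D p = 0) ∧
      ∀ᶠ p in 𝓝 (0 : ℂ × ℂ), A (Fin.last m) p ≠ 0 →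
        {t : ℂ | ∑ i, A i p * t ^ (i : ℕ) = 0}.Finite ∧ {t : ℂ | ∑ i, A i p * t ^ (i : ℕ) = 0}.ncard ≤ e ∧
        (D p ≠ 0 ↔ {t : ℂ | ∑ i, A i p * t ^ (i : ℕ) = 0}.ncard = e) := by
  classical
  choose l hl using fun p : ℂ × ℂ => exists_roots (mon fun i => A i p)
  have hle : ∀ p, (Finset.univ.image (l p)).card ≤ m := fun p => (Finset.card_image_le).trans (by simp)
  -- the maximal number of distinct roots
  have hex : ∃ e : ℕ, ∀ᶠ p in 𝓝 (0 : ℂ × ℂ), A (Fin.last m) p ≠ 0 → (Finset.univ.image (l p)).card ≤ e :=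
    ⟨m, Eventually.of_forall fun p _ => hle p⟩
  let e := Nat.find hex
  have he : ∀ᶠ p in 𝓝 (0 : ℂ × ℂ), A (Fin.last m) p ≠ 0 → (Finset.univ.image (l p)).card ≤ e := Nat.find_spec hex
  have hem : e ≤ m := Nat.find_min' hex (Eventually.of_forall fun p _ => hle p)
  have hfr : ∃ᶠ p in 𝓝 (0 : ℂ × ℂ), A (Fin.last m) p ≠ 0 ∧ (Finset.univ.image (l p)).card = e := by
    rcases Nat.eq_zero_or_pos e with h0 | h0
    · intro h1
      apply hm
      filter_upwards [h1, he] with p hp hep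
      by_contra hne
      exact hp ⟨hne, by have := hep hne; omega⟩
    · have h1 := Nat.find_min hex (m := e - 1) (by show e - 1 < e; omega)
      intro h2
      apply h1
      filter_upwards [h2, he] with p hp hep hne
      have h3 := hep hne
      have h4 : (Finset.univ.image (l p)).card ≠ e := fun h5 => hp ⟨hne, h5⟩
      omega
  -- the Hankel determinant
  choose S hSa hS using fun k => exists_psum (d := m) k
  have hmon : AnalyticAt ℂ (fun p => mon fun i => A i p) (0 : ℂ × ℂ) :=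
    analyticAt_pi_iff.2 fun i => (hA i.castSucc).mul ((hA (Fin.last m)).pow _)
  have hDe : ∀ p, (Matrix.of fun i j : Fin e => S ((i : ℕ) + j) (mon fun i => A i p)).det
      = (Matrix.of fun i j : Fin e => ∑ k, l p k ^ ((i : ℕ) + j)).det := by
    intro p
    congr 1
    ext i j
    exact (hS _ _ _ (hl p)).symm
  refine ⟨e, fun p => (Matrix.of fun i j : Fin e => S ((i : ℕ) + j) (mon fun i => A i p)).det, hem, ?_, ?_, ?_⟩
  · refine det_analytic (A := fun p => Matrix.of fun i j : Fin e => S ((i : ℕ) + j) (mon fun i => A i p)) fun i j => ?_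
    exact (hSa _ _).fun_comp hmon
  · intro h0
    refine hfr ?_
    filter_upwards [h0] with p hp h1
    rw [hDe] at hp
    exact (hankel_iff h1.2.le).2 h1.2 hp
  · filter_upwards [he] with p hp hne
    obtain ⟨h1, h2⟩ := ncard_roots (A := fun i => A i p) hne (hl p)
    refine ⟨h1, ?_, ?_⟩
    · rw [h2]
      exact hp hne
    · rw [h2, hDe]
      exact hankel_iff (hp hne)

end Pool.Agent.MQ3

end
end

section

/-!
# MQ3 Fr: the slopes of a symmetric differential with respect to three linear forms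

`l : Fin 3 → EN N →L[ℂ] ℂ`; `om l i x v = l₀ x * l_i v - l_i x * l₀ v` is `l₀² d (l_i / l₀)`.  In a chart `σ` the vector fields `v₁`, `v₂` are dual to
`om l 1`, `om l 2`, up to the factor `dl`.  The slopes of `θ` are the roots of `s ↦ θ (σ p; Dσ (v₁ + s v₂))`.
-/

set_option autoImplicit false

open Topology Filter Metric

noncomputable section

namespace Pool.Agent.MQ3

open Pool.Agent.H36.BP (EN)
open Pool.Agent.H14.PP (Tan)
open Pool.Agent.H17BP (Surface IsChart LocalEq)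
open Pool.Agent.E1 (ResL_tan ResL_span ResL_indep ResX_family)

variable {N : ℕ} {X : Set (EN N)} {m : ℕ}

/-- three linear forms -/
abbrev LF (N : ℕ) := Fin 3 → EN N →L[ℂ] ℂ

/-- the 1-form `l₀² d (l_i / l₀)` -/
def om (l : LF N) (i : Fin 3) (x v : EN N) : ℂ := l 0 x * l i v - l i x * l 0 v

theorem om_add_smul (l : LF N) (i : Fin 3) (x v : EN N) (a : ℂ) : om l i x (v + a • x) = om l i x v := by
  simp only [om, map_add, map_smul, smul_eq_mul]; ring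

theorem om_smul_smul (l : LF N) (i : Fin 3) (x v : EN N) (c : ℂ) : om l i (c • x) (c • v) = c ^ 2 * om l i x v := by
  simp only [om, map_smul, smul_eq_mul]; ring

theorem om_smul (l : LF N) (i : Fin 3) (x v : EN N) (c : ℂ) : om l i x (c • v) = c * om l i x v := by
  simp only [om, map_smul, smul_eq_mul]; ring

theorem om_add (l : LF N) (i : Fin 3) (x v w : EN N) : om l i x (v + w) = om l i x v + om l i x w := by
  simp only [om, map_add]; ring

/-- the coefficients of `om l i` in a chart -/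
def ca (l : LF N) (σ : ℂ × ℂ → EN N) (i : Fin 3) (p : ℂ × ℂ) : ℂ := om l i (σ p) (fderiv ℂ σ p (1, 0))

def cb (l : LF N) (σ : ℂ × ℂ → EN N) (i : Fin 3) (p : ℂ × ℂ) : ℂ := om l i (σ p) (fderiv ℂ σ p (0, 1))

/-- the determinant of `om l 1`, `om l 2` in a chart -/
def dl (l : LF N) (σ : ℂ × ℂ → EN N) (p : ℂ × ℂ) : ℂ := ca l σ 1 p * cb l σ 2 p - ca l σ 2 p * cb l σ 1 p

/-- the dual frame -/
def v₁ (l : LF N) (σ : ℂ × ℂ → EN N) (p : ℂ × ℂ) : ℂ × ℂ := (cb l σ 2 p, -ca l σ 2 p)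

def v₂ (l : LF N) (σ : ℂ × ℂ → EN N) (p : ℂ × ℂ) : ℂ × ℂ := (-cb l σ 1 p, ca l σ 1 p)

theorem om_chart (l : LF N) (σ : ℂ × ℂ → EN N) (i : Fin 3) (p w : ℂ × ℂ) :
    om l i (σ p) (fderiv ℂ σ p w) = ca l σ i p * w.1 + cb l σ i p * w.2 := by
  have h : w = w.1 • ((1 : ℂ), (0 : ℂ)) + w.2 • ((0 : ℂ), (1 : ℂ)) := by
    ext <;> simp
  conv_lhs => rw [h]
  rw [map_add, map_smul, map_smul, om_add, om_smul, om_smul, ca, cb]
  ring

theorem om_v₁_1 (l : LF N) (σ : ℂ × ℂ → EN N) (p : ℂ × ℂ) : om l 1 (σ p) (fderiv ℂ σ p (v₁ l σ p)) = dl l σ p := by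
  rw [om_chart, v₁, dl]; ring

theorem om_v₁_2 (l : LF N) (σ : ℂ × ℂ → EN N) (p : ℂ × ℂ) : om l 2 (σ p) (fderiv ℂ σ p (v₁ l σ p)) = 0 := by
  rw [om_chart, v₁]; ring

theorem om_v₂_1 (l : LF N) (σ : ℂ × ℂ → EN N) (p : ℂ × ℂ) : om l 1 (σ p) (fderiv ℂ σ p (v₂ l σ p)) = 0 := by
  rw [om_chart, v₂]; ring

theorem om_v₂_2 (l : LF N) (σ : ℂ × ℂ → EN N) (p : ℂ × ℂ) : om l 2 (σ p) (fderiv ℂ σ p (v₂ l σ p)) = dl l σ p := by
  rw [om_chart, v₂, dl]; ring

/-- every vector is a combination of the frame -/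
theorem dl_smul (l : LF N) (σ : ℂ × ℂ → EN N) (p w : ℂ × ℂ) :
    dl l σ p • w = om l 1 (σ p) (fderiv ℂ σ p w) • v₁ l σ p + om l 2 (σ p) (fderiv ℂ σ p w) • v₂ l σ p := by
  rw [om_chart, om_chart, dl, v₁, v₂]
  ext
  · simp only [Prod.smul_fst, Prod.fst_add, smul_eq_mul]; ring
  · simp only [Prod.smul_snd, Prod.snd_add, smul_eq_mul]; ring

theorem analyticAt_om (l : LF N) {σ : ℂ × ℂ → EN N} (i : Fin 3) {p : ℂ × ℂ} (hσ : AnalyticAt ℂ σ p) {w : ℂ × ℂ → ℂ × ℂ} (hw : AnalyticAt ℂ w p) :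
    AnalyticAt ℂ (fun q => om l i (σ q) (fderiv ℂ σ q (w q))) p := by
  have h1 : AnalyticAt ℂ (fun q => fderiv ℂ σ q (w q)) p :=
    AnalyticAt.comp (g := fun z : (ℂ × ℂ →L[ℂ] EN N) × (ℂ × ℂ) => z.1 z.2) (f := fun q => (fderiv ℂ σ q, w q))
      (ContinuousLinearMap.analyticAt_bilinear (ContinuousLinearMap.id ℂ (ℂ × ℂ →L[ℂ] EN N)) _) (hσ.fderiv.prod hw)
  have h2 : ∀ j, AnalyticAt ℂ (fun q => l j (σ q)) p := fun j => ((l j).analyticAt _).comp hσ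
  have h3 : ∀ j, AnalyticAt ℂ (fun q => l j (fderiv ℂ σ q (w q))) p := fun j => ((l j).analyticAt _).comp h1
  exact ((h2 0).mul (h3 i)).sub ((h2 i).mul (h3 0))

theorem analyticAt_ca (l : LF N) {σ : ℂ × ℂ → EN N} (i : Fin 3) {p : ℂ × ℂ} (hσ : AnalyticAt ℂ σ p) : AnalyticAt ℂ (ca l σ i) p :=
  analyticAt_om l i hσ analyticAt_const

theorem analyticAt_cb (l : LF N) {σ : ℂ × ℂ → EN N} (i : Fin 3) {p : ℂ × ℂ} (hσ : AnalyticAt ℂ σ p) : AnalyticAt ℂ (cb l σ i) p :=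
  analyticAt_om l i hσ analyticAt_const

theorem analyticAt_dl (l : LF N) {σ : ℂ × ℂ → EN N} {p : ℂ × ℂ} (hσ : AnalyticAt ℂ σ p) : AnalyticAt ℂ (dl l σ) p :=
  ((analyticAt_ca l 1 hσ).mul (analyticAt_cb l 2 hσ)).sub ((analyticAt_ca l 2 hσ).mul (analyticAt_cb l 1 hσ))

theorem analyticAt_v₁ (l : LF N) {σ : ℂ × ℂ → EN N} {p : ℂ × ℂ} (hσ : AnalyticAt ℂ σ p) : AnalyticAt ℂ (v₁ l σ) p :=
  (analyticAt_cb l 2 hσ).prod (analyticAt_ca l 2 hσ).neg

theorem analyticAt_v₂ (l : LF N) {σ : ℂ × ℂ → EN N} {p : ℂ × ℂ} (hσ : AnalyticAt ℂ σ p) : AnalyticAt ℂ (v₂ l σ) p :=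
  (analyticAt_cb l 1 hσ).neg.prod (analyticAt_ca l 1 hσ)

/-! ### the differential in a chart -/

/-- `θ` in a chart is a binary form with analytic coefficients -/
theorem exists_form_coef (θ : WDiff X m) {σ : ℂ × ℂ → EN N} (hσ : AnalyticAt ℂ σ 0) (hX : ∀ᶠ p in 𝓝 (0 : ℂ × ℂ), σ p ∈ X) :
    ∃ c : ℕ → ℂ × ℂ → ℂ, (∀ k, AnalyticAt ℂ (c k) 0) ∧
      ∀ᶠ p in 𝓝 (0 : ℂ × ℂ), ∀ v : ℂ × ℂ, θ.toFun (σ p) (fderiv ℂ σ p v) = ∑ k ∈ Finset.range (m + 1), c k p * v.1 ^ k * v.2 ^ (m - k) := by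
  have hhom : ∀ᶠ p in 𝓝 (0 : ℂ × ℂ), ∀ (c : ℂ) (v : ℂ × ℂ), θ.toFun (σ p) (fderiv ℂ σ p (c • v)) = c ^ m * θ.toFun (σ p) (fderiv ℂ σ p v) := by
    filter_upwards [hσ.eventually_analyticAt, eventually_eventually_nhds.2 hX] with p hp hpX c v
    rw [map_smul, θ.smul _ _ (ResL_tan hp hpX v)]
  obtain ⟨A, hA, hA'⟩ := ResX_family (m := m) (a := fun q => θ.toFun (σ q.1) (fderiv ℂ σ q.1 q.2)) (θ.res_analytic hσ hX) hhom
  refine ⟨fun k p => (A p).coeff k, hA, ?_⟩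
  filter_upwards [hA', hhom] with p ⟨h1, h2, h3⟩ h4 v
  by_cases hv : v.2 = 0
  · have h5 : v = v.1 • ((1 : ℂ), (0 : ℂ)) := by
      ext
      · simp
      · simp [hv]
    rw [Finset.sum_eq_single m]
    · rw [h5, h4]
      simp only [Prod.smul_fst, smul_eq_mul, mul_one, Prod.smul_snd, mul_zero, Nat.sub_self, pow_zero]
      rw [h3, mul_comm]
    · intro k hk hkm
      have : m - k ≠ 0 := by
        have := Finset.mem_range.1 hk
        omega
      rw [hv, zero_pow this, mul_zero]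
    · intro h
      exact absurd (Finset.mem_range.2 (Nat.lt_succ_self m)) h
  · have h5 : v = v.2 • ((v.1 / v.2, (1 : ℂ)) : ℂ × ℂ) := by
      ext
      · simp only [Prod.smul_fst, smul_eq_mul]
        field_simp
      · simp
    conv_lhs => rw [h5, h4]
    have h6 := h2 (v.1 / v.2)
    rw [← h6, Polynomial.eval_eq_sum_range' (Nat.lt_succ_of_le h1), Finset.mul_sum]
    refine Finset.sum_congr rfl fun k hk => ?_
    have hk' : k ≤ m := Nat.lt_succ_iff.1 (Finset.mem_range.1 hk)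
    have h7 : v.2 ^ m = v.2 ^ k * v.2 ^ (m - k) := by
      rw [← pow_add]
      congr 1
      omega
    rw [h7, div_pow]
    field_simp

/-- the slopes of `θ` in a chart: the roots of a polynomial with analytic coefficients -/
theorem exists_fam (θ : WDiff X m) (l : LF N) {σ : ℂ × ℂ → EN N} (hσ : AnalyticAt ℂ σ 0) (hX : ∀ᶠ p in 𝓝 (0 : ℂ × ℂ), σ p ∈ X) :
    ∃ A : ℂ × ℂ → Polynomial ℂ, (∀ k, AnalyticAt ℂ (fun p => (A p).coeff k) 0) ∧
      ∀ᶠ p in 𝓝 (0 : ℂ × ℂ), (A p).natDegree ≤ m ∧ (∀ s, (A p).eval s = θ.toFun (σ p) (fderiv ℂ σ p (v₁ l σ p + s • v₂ l σ p))) ∧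
        (A p).coeff m = θ.toFun (σ p) (fderiv ℂ σ p (v₂ l σ p)) := by
  have hhom : ∀ᶠ p in 𝓝 (0 : ℂ × ℂ), ∀ (c : ℂ) (v : ℂ × ℂ), θ.toFun (σ p) (fderiv ℂ σ p ((c • v).2 • v₁ l σ p + (c • v).1 • v₂ l σ p)) =
      c ^ m * θ.toFun (σ p) (fderiv ℂ σ p (v.2 • v₁ l σ p + v.1 • v₂ l σ p)) := by
    filter_upwards [hσ.eventually_analyticAt, eventually_eventually_nhds.2 hX] with p hp hpX c v
    have h1 : (c • v).2 • v₁ l σ p + (c • v).1 • v₂ l σ p = c • (v.2 • v₁ l σ p + v.1 • v₂ l σ p) := by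
      simp only [Prod.smul_fst, Prod.smul_snd, smul_eq_mul, smul_add, smul_smul]
    rw [h1, map_smul, θ.smul _ _ (ResL_tan hp hpX _)]
  have hana : ∀ v : ℂ × ℂ, AnalyticAt ℂ (fun q : (ℂ × ℂ) × (ℂ × ℂ) => θ.toFun (σ q.1) (fderiv ℂ σ q.1 (q.2.2 • v₁ l σ q.1 + q.2.1 • v₂ l σ q.1))) (0, v) := by
    intro v
    have hG : AnalyticAt ℂ (fun q : (ℂ × ℂ) × (ℂ × ℂ) => (q.1, q.2.2 • v₁ l σ q.1 + q.2.1 • v₂ l σ q.1)) (0, v) := by
      have h1 : AnalyticAt ℂ (fun q : (ℂ × ℂ) × (ℂ × ℂ) => v₁ l σ q.1) (0, v) :=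
        AnalyticAt.comp (g := v₁ l σ) (f := fun q : (ℂ × ℂ) × (ℂ × ℂ) => q.1) (x := (0, v)) (analyticAt_v₁ l hσ) analyticAt_fst
      have h2 : AnalyticAt ℂ (fun q : (ℂ × ℂ) × (ℂ × ℂ) => v₂ l σ q.1) (0, v) :=
        AnalyticAt.comp (g := v₂ l σ) (f := fun q : (ℂ × ℂ) × (ℂ × ℂ) => q.1) (x := (0, v)) (analyticAt_v₂ l hσ) analyticAt_fst
      have h3 : AnalyticAt ℂ (fun q : (ℂ × ℂ) × (ℂ × ℂ) => q.2.2) (0, v) :=
        ((ContinuousLinearMap.snd ℂ ℂ ℂ).comp (ContinuousLinearMap.snd ℂ (ℂ × ℂ) (ℂ × ℂ))).analyticAt _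
      have h4 : AnalyticAt ℂ (fun q : (ℂ × ℂ) × (ℂ × ℂ) => q.2.1) (0, v) :=
        ((ContinuousLinearMap.fst ℂ ℂ ℂ).comp (ContinuousLinearMap.snd ℂ (ℂ × ℂ) (ℂ × ℂ))).analyticAt _
      exact analyticAt_fst.prod ((h3.smul h1).add (h4.smul h2))
    have h0 := θ.res_analytic hσ hX (v.2 • v₁ l σ 0 + v.1 • v₂ l σ 0)
    exact AnalyticAt.comp (g := fun q : (ℂ × ℂ) × (ℂ × ℂ) => θ.toFun (σ q.1) (fderiv ℂ σ q.1 q.2))
      (f := fun q : (ℂ × ℂ) × (ℂ × ℂ) => (q.1, q.2.2 • v₁ l σ q.1 + q.2.1 • v₂ l σ q.1)) (x := (0, v)) h0 hG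
  obtain ⟨A, hA, hA'⟩ := ResX_family (m := m) (a := fun q => θ.toFun (σ q.1) (fderiv ℂ σ q.1 (q.2.2 • v₁ l σ q.1 + q.2.1 • v₂ l σ q.1))) hana hhom
  refine ⟨A, hA, ?_⟩
  filter_upwards [hA'] with p ⟨h1, h2, h3⟩
  refine ⟨h1, fun s => ?_, ?_⟩
  · have := h2 s
    simpa using this
  · simpa using h3

end Pool.Agent.MQ3

end
end

section

/-!
# MQ3 FrE: three linear forms in general position

`GA`: at `x` the forms `om l 1`, `om l 2` are independent on the tangent space; `GB`: the kernel of `om l 1` is not a null direction of `θ`.  If `θ` is not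
zero on a dense subset, then for some `l` the points with `GA` and `GB` are dense.
-/

set_option autoImplicit false

open Topology Filter Metric

noncomputable section

namespace Pool.Agent.MQ3

open Pool.Agent.H36.BP (EN)
open Pool.Agent.H14.PP (Tan)
open Pool.Agent.H17BP (Surface IsChart LocalEq)
open Pool.Agent.E1 (ResL_tan ResL_span ResL_indep ResX_family)

variable {N : ℕ} {X : Set (EN N)} {m : ℕ}

/-- `om l 1` and `om l 2` are independent on the tangent space at `x` -/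
def GA (X : Set (EN N)) (l : LF N) (x : EN N) : Prop := ∀ v, Tan X x v → om l 1 x v = 0 → om l 2 x v = 0 → ∃ a : ℂ, v = a • x

/-- the kernel of `om l 1` is not a null direction of `θ` -/
def GB (θ : WDiff X m) (l : LF N) (x : EN N) : Prop := ∀ v, Tan X x v → om l 1 x v = 0 → θ.toFun x v = 0 → ∃ a : ℂ, v = a • x

/-! ### scaling -/

theorem tan_smul (hX : ∀ x ∈ X, ∀ c : ℂ, c ≠ 0 → c • x ∈ X) {x v : EN N} (h : Tan X x v) {c : ℂ} (hc : c ≠ 0) : Tan X (c • x) (c • v) := by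
  obtain ⟨F, ⟨hF, hFX⟩, h0, h1⟩ := h
  refine ⟨fun z => c • F z, ⟨hF.fun_const_smul, ?_⟩, by simp only [h0], ?_⟩
  · filter_upwards [hFX] with z hz using hX _ hz c hc
  · rw [deriv_fun_const_smul c hF.differentiableAt, h1]

theorem tan_smul_iff (hX : ∀ x ∈ X, ∀ c : ℂ, c ≠ 0 → c • x ∈ X) {x v : EN N} {c : ℂ} (hc : c ≠ 0) : Tan X (c • x) (c • v) ↔ Tan X x v := by
  refine ⟨fun h => ?_, fun h => tan_smul hX h hc⟩
  have := tan_smul hX h (inv_ne_zero hc)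
  rwa [smul_smul, smul_smul, inv_mul_cancel₀ hc, one_smul, one_smul] at this

theorem ga_smul (hX : ∀ x ∈ X, ∀ c : ℂ, c ≠ 0 → c • x ∈ X) {l : LF N} {x : EN N} (h : GA X l x) {c : ℂ} (hc : c ≠ 0) : GA X l (c • x) := by
  intro v hv h1 h2
  have e : v = c • (c⁻¹ • v) := by rw [smul_smul, mul_inv_cancel₀ hc, one_smul]
  rw [e] at hv h1 h2
  rw [om_smul_smul] at h1 h2
  have hc2 : c ^ 2 ≠ 0 := pow_ne_zero 2 hc
  obtain ⟨a, ha⟩ := h _ ((tan_smul_iff hX hc).1 hv) ((mul_eq_zero.1 h1).resolve_left hc2) ((mul_eq_zero.1 h2).resolve_left hc2)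
  exact ⟨a, by rw [e, ha, smul_comm]⟩

theorem gb_smul (hX : ∀ x ∈ X, ∀ c : ℂ, c ≠ 0 → c • x ∈ X) {θ : WDiff X m} {l : LF N} {x : EN N} (h : GB θ l x) {c : ℂ} (hc : c ≠ 0) :
    GB θ l (c • x) := by
  intro v hv h1 h2
  have e : v = c • (c⁻¹ • v) := by rw [smul_smul, mul_inv_cancel₀ hc, one_smul]
  rw [e] at hv h1 h2
  have hv' := (tan_smul_iff hX hc).1 hv
  rw [om_smul_smul] at h1
  rw [θ.scale_eq_zero hv' hc] at h2
  have hc2 : c ^ 2 ≠ 0 := pow_ne_zero 2 hc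
  obtain ⟨a, ha⟩ := h _ hv' ((mul_eq_zero.1 h1).resolve_left hc2) h2
  exact ⟨a, by rw [e, ha, smul_comm]⟩

/-! ### in a chart -/

theorem ga_chart {l : LF N} {σ : ℂ × ℂ → EN N} {p : ℂ × ℂ} (hT : ∀ v, Tan X (σ p) (fderiv ℂ σ p v))
    (hsp : ∀ w, Tan X (σ p) w → ∃ (v : ℂ × ℂ) (a : ℂ), w = fderiv ℂ σ p v + a • σ p) (hin : ∀ (v : ℂ × ℂ) (a : ℂ), fderiv ℂ σ p v = a • σ p → v = 0) :
    GA X l (σ p) ↔ dl l σ p ≠ 0 := by
  constructor
  · intro h h0
    -- a common zero of the two forms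
    have key : ∀ w : ℂ × ℂ, om l 1 (σ p) (fderiv ℂ σ p w) = 0 → om l 2 (σ p) (fderiv ℂ σ p w) = 0 → w = 0 := by
      intro w h1 h2
      obtain ⟨a, ha⟩ := h _ (hT w) h1 h2
      exact hin w a ha
    have k1 : v₁ l σ p = 0 := key _ (by rw [om_v₁_1, h0]) (om_v₁_2 l σ p)
    have k2 : v₂ l σ p = 0 := key _ (om_v₂_1 l σ p) (by rw [om_v₂_2, h0])
    have e1 : cb l σ 2 p = 0 := congrArg Prod.fst k1
    have e2 : ca l σ 2 p = 0 := by simpa [v₁] using congrArg Prod.snd k1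
    have e3 : cb l σ 1 p = 0 := by simpa [v₂] using congrArg Prod.fst k2
    have e4 : ca l σ 1 p = 0 := congrArg Prod.snd k2
    have k3 := key (1, 0) (by rw [om_chart, e3, e4]; ring) (by rw [om_chart, e1, e2]; ring)
    exact one_ne_zero (congrArg Prod.fst k3)
  · intro h0 v hv h1 h2
    obtain ⟨w, a, rfl⟩ := hsp v hv
    rw [om_add_smul] at h1 h2
    have h3 := dl_smul l σ p w
    rw [h1, h2, zero_smul, zero_smul, add_zero] at h3
    have h4 : w = 0 := (smul_eq_zero.1 h3).resolve_left h0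
    exact ⟨a, by rw [h4, map_zero, zero_add]⟩

theorem gb_chart (hm : 1 ≤ m) {θ : WDiff X m} {l : LF N} {σ : ℂ × ℂ → EN N} {p : ℂ × ℂ} (hT : ∀ v, Tan X (σ p) (fderiv ℂ σ p v))
    (hsp : ∀ w, Tan X (σ p) w → ∃ (v : ℂ × ℂ) (a : ℂ), w = fderiv ℂ σ p v + a • σ p) (hin : ∀ (v : ℂ × ℂ) (a : ℂ), fderiv ℂ σ p v = a • σ p → v = 0)
    (hd : dl l σ p ≠ 0) : GB θ l (σ p) ↔ θ.toFun (σ p) (fderiv ℂ σ p (v₂ l σ p)) ≠ 0 := by
  constructor
  · intro h h0
    obtain ⟨a, ha⟩ := h _ (hT _) (om_v₂_1 l σ p) h0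
    have h1 := hin _ a ha
    apply hd
    rw [← om_v₂_2, h1, map_zero]
    simp [om]
  · intro h0 v hv h1 h2
    obtain ⟨w, a, rfl⟩ := hsp v hv
    rw [om_add_smul] at h1
    rw [θ.add_smul _ _ (hT w)] at h2
    have h3 := dl_smul l σ p w
    rw [h1, zero_smul, zero_add] at h3
    obtain ⟨c, hc⟩ : ∃ c : ℂ, w = c • v₂ l σ p := by
      refine ⟨(dl l σ p)⁻¹ * om l 2 (σ p) (fderiv ℂ σ p w), ?_⟩
      rw [← smul_smul, ← h3, smul_smul, inv_mul_cancel₀ hd, one_smul]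
    rw [hc, map_smul, θ.smul _ _ (hT _)] at h2
    have h4 : c = 0 := by
      have := (mul_eq_zero.1 h2).resolve_right h0
      exact (pow_eq_zero_iff (by omega)).1 this
    exact ⟨a, by rw [hc, h4, zero_smul, map_zero, zero_add]⟩

/-- the product of the two determinants -/
def ph (θ : WDiff X m) (l : LF N) (σ : ℂ × ℂ → EN N) (p : ℂ × ℂ) : ℂ := dl l σ p * θ.toFun (σ p) (fderiv ℂ σ p (v₂ l σ p))

theorem gab_chart (hm : 1 ≤ m) {θ : WDiff X m} {l : LF N} {σ : ℂ × ℂ → EN N} {p : ℂ × ℂ} (hT : ∀ v, Tan X (σ p) (fderiv ℂ σ p v))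
    (hsp : ∀ w, Tan X (σ p) w → ∃ (v : ℂ × ℂ) (a : ℂ), w = fderiv ℂ σ p v + a • σ p) (hin : ∀ (v : ℂ × ℂ) (a : ℂ), fderiv ℂ σ p v = a • σ p → v = 0) :
    (GA X l (σ p) ∧ GB θ l (σ p)) ↔ ph θ l σ p ≠ 0 := by
  rw [ph, mul_ne_zero_iff]
  constructor
  · rintro ⟨h1, h2⟩
    have h3 := (ga_chart hT hsp hin).1 h1
    exact ⟨h3, (gb_chart hm hT hsp hin h3).1 h2⟩
  · rintro ⟨h1, h2⟩
    exact ⟨(ga_chart hT hsp hin).2 h1, (gb_chart hm hT hsp hin h1).2 h2⟩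

/-! ### linear forms with given values -/

theorem exists_form {x w₁ w₂ : EN N} (h : LinearIndependent ℂ ![x, w₁, w₂]) (a b c : ℂ) : ∃ f : EN N →L[ℂ] ℂ, f x = a ∧ f w₁ = b ∧ f w₂ = c := by
  classical
  let g : (Fin 3 → ℂ) →ₗ[ℂ] EN N := Fintype.linearCombination ℂ ![x, w₁, w₂]
  have hg : LinearMap.ker g = ⊥ := LinearMap.ker_eq_bot.2 (linearIndependent_iff_injective_fintypeLinearCombination.1 h)
  obtain ⟨r, hr⟩ := g.exists_leftInverse_of_injective hg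
  let k : (Fin 3 → ℂ) →ₗ[ℂ] ℂ := Fintype.linearCombination ℂ ![a, b, c]
  have hv : ∀ i, k (r (![x, w₁, w₂] i)) = ![a, b, c] i := by
    intro i
    have h1 : g (Pi.single i 1) = ![x, w₁, w₂] i := by
      simp [g, Fintype.linearCombination_apply, Pi.single_apply]
    have h2 : r (![x, w₁, w₂] i) = Pi.single i 1 := by
      rw [← h1]
      exact congrArg (fun f : (Fin 3 → ℂ) →ₗ[ℂ] (Fin 3 → ℂ) => f (Pi.single i 1)) hr
    rw [h2]
    simp [k, Fintype.linearCombination_apply, Pi.single_apply]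
  refine ⟨LinearMap.toContinuousLinearMap (k ∘ₗ r), ?_, ?_, ?_⟩
  · exact hv 0
  · exact hv 1
  · exact hv 2

/-- forms in general position with respect to one point -/
theorem exists_lf {x w₁ w₂ : EN N} (h : LinearIndependent ℂ ![x, w₁, w₂]) {u : ℂ × ℂ} (hu : u ≠ 0) :
    ∃ l : LF N, (-om l 1 x w₂, om l 1 x w₁) = u ∧ om l 1 x w₁ * om l 2 x w₂ - om l 2 x w₁ * om l 1 x w₂ ≠ 0 := by
  obtain ⟨f₀, h0, h0', h0''⟩ := exists_form h 1 0 0
  obtain ⟨f₁, h1, h1', h1''⟩ := exists_form h 0 u.2 (-u.1)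
  obtain ⟨f₂, h2, h2', h2''⟩ := exists_form h 0 ((starRingEnd ℂ) u.1) ((starRingEnd ℂ) u.2)
  refine ⟨![f₀, f₁, f₂], ?_, ?_⟩
  · simp only [om, Matrix.cons_val_zero, Matrix.cons_val_one, h0, h0', h0'', h1, h1', h1'']
    ext <;> simp
  · simp only [om, Matrix.cons_val_zero, Matrix.cons_val_one, Matrix.cons_val, h0, h0', h0'', h1, h1', h1'', h2, h2', h2'']
    intro h3
    apply hu
    have h4 : ((‖u.1‖ ^ 2 + ‖u.2‖ ^ 2 : ℝ) : ℂ) = 0 := by
      have e1 : ((‖u.1‖ ^ 2 : ℝ) : ℂ) = u.1 * (starRingEnd ℂ) u.1 := by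
        rw [Complex.mul_conj, Complex.normSq_eq_norm_sq]
      have e2 : ((‖u.2‖ ^ 2 : ℝ) : ℂ) = u.2 * (starRingEnd ℂ) u.2 := by
        rw [Complex.mul_conj, Complex.normSq_eq_norm_sq]
      rw [Complex.ofReal_add, e1, e2]
      linear_combination h3
    have h5 : ‖u.1‖ ^ 2 + ‖u.2‖ ^ 2 = 0 := by exact_mod_cast h4
    have h6 : ‖u.1‖ = 0 := by nlinarith [sq_nonneg ‖u.1‖, sq_nonneg ‖u.2‖, norm_nonneg u.1]
    have h7 : ‖u.2‖ = 0 := by nlinarith [sq_nonneg ‖u.1‖, sq_nonneg ‖u.2‖, norm_nonneg u.2]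
    exact Prod.ext (norm_eq_zero.1 h6) (norm_eq_zero.1 h7)

/-- the forms which are in general position with respect to one point are an open dense set -/
theorem open_dense_lf {x w₁ w₂ : EN N} (h : LinearIndependent ℂ ![x, w₁, w₂]) {c : ℕ → ℂ} {u : ℂ × ℂ} (hu : u ≠ 0)
    (hcu : ∑ k ∈ Finset.range (m + 1), c k * u.1 ^ k * u.2 ^ (m - k) ≠ 0) :
    IsOpen {l : LF N | (om l 1 x w₁ * om l 2 x w₂ - om l 2 x w₁ * om l 1 x w₂) *
      ∑ k ∈ Finset.range (m + 1), c k * (-om l 1 x w₂) ^ k * (om l 1 x w₁) ^ (m - k) ≠ 0} ∧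
    Dense {l : LF N | (om l 1 x w₁ * om l 2 x w₂ - om l 2 x w₁ * om l 1 x w₂) *
      ∑ k ∈ Finset.range (m + 1), c k * (-om l 1 x w₂) ^ k * (om l 1 x w₁) ^ (m - k) ≠ 0} := by
  set Φ : LF N → ℂ := fun l => (om l 1 x w₁ * om l 2 x w₂ - om l 2 x w₁ * om l 1 x w₂) *
      ∑ k ∈ Finset.range (m + 1), c k * (-om l 1 x w₂) ^ k * (om l 1 x w₁) ^ (m - k) with hΦ
  have hev : ∀ (i : Fin 3) (y : EN N), Differentiable ℂ fun l : LF N => l i y := by
    intro i y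
    have h1 : (fun l : LF N => l i y) = fun l => (ContinuousLinearMap.apply ℂ ℂ y) ((ContinuousLinearMap.proj i : LF N →L[ℂ] _) l) := by
      funext l
      simp
    rw [h1]
    exact ((ContinuousLinearMap.apply ℂ ℂ y).comp (ContinuousLinearMap.proj i : LF N →L[ℂ] _)).differentiable
  have hom : ∀ (i : Fin 3) (y : EN N), Differentiable ℂ fun l : LF N => om l i x y := fun i y =>
    ((hev 0 x).mul (hev i y)).sub ((hev i x).mul (hev 0 y))
  have hd : Differentiable ℂ Φ := by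
    refine (((hom 1 w₁).mul (hom 2 w₂)).sub ((hom 2 w₁).mul (hom 1 w₂))).mul ?_
    refine Differentiable.fun_sum fun k _ => ?_
    exact ((differentiable_const _).mul ((hom 1 w₂).neg.pow k)).mul ((hom 1 w₁).pow (m - k))
  refine ⟨isOpen_ne_fun hd.continuous continuous_const, ?_⟩
  obtain ⟨l', h1, h2⟩ := exists_lf h hu
  have hl' : Φ l' ≠ 0 := by
    refine mul_ne_zero h2 ?_
    have e1 : -om l' 1 x w₂ = u.1 := congrArg Prod.fst h1
    have e2 : om l' 1 x w₁ = u.2 := congrArg Prod.snd h1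
    rw [e1, e2]
    exact hcu
  intro l
  rw [mem_closure_iff_frequently]
  -- along the line to `l'`
  have hline : Differentiable ℂ fun s : ℂ => Φ (l + s • (l' - l)) := by
    refine hd.comp ((differentiable_const l).add ?_)
    have h3 := (ContinuousLinearMap.toSpanSingleton ℂ (l' - l)).differentiable
    exact h3
  have hfr : ∃ᶠ s in 𝓝 (0 : ℂ), Φ (l + s • (l' - l)) ≠ 0 := by
    intro hcon
    have h3 : ∀ᶠ s in 𝓝 (0 : ℂ), Φ (l + s • (l' - l)) = 0 := by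
      filter_upwards [hcon] with s hs using not_not.1 hs
    have h4 : (fun s : ℂ => Φ (l + s • (l' - l))) = 0 :=
      AnalyticOnNhd.eq_of_eventuallyEq (𝕜 := ℂ) (z₀ := (0 : ℂ)) (fun s _ => (hline.analyticAt s)) (fun s _ => analyticAt_const) h3
    have h5 := congrFun h4 1
    simp only [one_smul, Pi.zero_apply] at h5
    apply hl'
    rwa [add_sub_cancel] at h5
  have ht : Tendsto (fun s : ℂ => l + s • (l' - l)) (𝓝 0) (𝓝 l) := by
    have h3 : Continuous fun s : ℂ => l + s • (l' - l) := by fun_prop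
    have := h3.tendsto 0
    have e : l + (0 : ℂ) • (l' - l) = l := by
      funext i
      ext y
      simp
    rwa [e] at this
  exact ht.frequently hfr

/-! ### the existence of the linear forms -/

/-- the data of a chart on a ball -/
private theorem FrE_ball (θ : WDiff X m) {σ : ℂ × ℂ → EN N} {τ : EN N → ℂ × ℂ} (hσ : IsChart X σ τ) :
    ∃ (c : ℕ → ℂ × ℂ → ℂ) (r : ℝ), 0 < r ∧ ∀ p ∈ ball (0 : ℂ × ℂ) r, AnalyticAt ℂ σ p ∧ (∀ᶠ q in 𝓝 p, σ q ∈ X) ∧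
      (∀ w, Tan X (σ p) w → ∃ (v : ℂ × ℂ) (a : ℂ), w = fderiv ℂ σ p v + a • σ p) ∧ (∀ (v : ℂ × ℂ) (a : ℂ), fderiv ℂ σ p v = a • σ p → v = 0) ∧
      σ p ≠ 0 ∧ (∀ k ∈ Finset.range (m + 1), AnalyticAt ℂ (c k) p) ∧
      ∀ v : ℂ × ℂ, θ.toFun (σ p) (fderiv ℂ σ p v) = ∑ k ∈ Finset.range (m + 1), c k p * v.1 ^ k * v.2 ^ (m - k) := by
  obtain ⟨c, hc, hc'⟩ := exists_form_coef θ hσ.σ_an hσ.σ_mem
  have h1 : ∀ᶠ p in 𝓝 (0 : ℂ × ℂ), ∀ k ∈ Finset.range (m + 1), AnalyticAt ℂ (c k) p :=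
    (Finset.eventually_all _).2 fun k _ => (hc k).eventually_analyticAt
  have h2 : ∀ᶠ p in 𝓝 (0 : ℂ × ℂ), σ p ≠ 0 := hσ.σ_an.continuousAt.eventually_ne hσ.ne
  obtain ⟨r, hr, h⟩ := Metric.eventually_nhds_iff_ball.1 (hσ.σ_an.eventually_analyticAt.and ((eventually_eventually_nhds.2 hσ.σ_mem).and
    ((ResL_span hσ).and ((ResL_indep hσ).and (h2.and (h1.and hc'))))))
  exact ⟨c, r, hr, h⟩

private theorem FrE_indep {σ : ℂ × ℂ → EN N} {p : ℂ × ℂ} (h0 : σ p ≠ 0) (hin : ∀ (v : ℂ × ℂ) (a : ℂ), fderiv ℂ σ p v = a • σ p → v = 0) :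
    LinearIndependent ℂ ![σ p, fderiv ℂ σ p (1, 0), fderiv ℂ σ p (0, 1)] := by
  rw [Fintype.linearIndependent_iff]
  intro g hg
  rw [Fin.sum_univ_three] at hg
  simp only [Matrix.cons_val_zero, Matrix.cons_val_one, Matrix.cons_val] at hg
  have h1 : fderiv ℂ σ p (g 1, g 2) = (-g 0) • σ p := by
    have e : ((g 1, g 2) : ℂ × ℂ) = g 1 • ((1 : ℂ), (0 : ℂ)) + g 2 • ((0 : ℂ), (1 : ℂ)) := by
      ext <;> simp
    rw [e, map_add, map_smul, map_smul, neg_smul, eq_neg_iff_add_eq_zero]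
    rw [← hg]
    abel
  have h2 := hin _ _ h1
  have h3 : g 1 = 0 := congrArg Prod.fst h2
  have h4 : g 2 = 0 := congrArg Prod.snd h2
  rw [h3, h4, zero_smul, zero_smul, add_zero, add_zero] at hg
  have h5 : g 0 = 0 := (smul_eq_zero.1 hg).resolve_right h0
  intro i
  fin_cases i
  · exact h5
  · exact h3
  · exact h4

private theorem FrE_near (hX : Surface X) (hm : 1 ≤ m) (θ : WDiff X m) (hd : X ⊆ closure {x | x ∈ X ∧ ∃ v, Tan X x v ∧ θ.toFun x v ≠ 0}) {x : EN N}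
    (hx : x ∈ X) : ∃ O : Set (LF N), IsOpen O ∧ Dense O ∧ ∀ᶠ y in 𝓝 x, ∀ l ∈ O, y ∈ X → y ∈ closure {x | x ∈ X ∧ GA X l x ∧ GB θ l x} := by
  obtain ⟨σ, τ, hσ, hσ0⟩ := hX.chart x hx
  obtain ⟨c, r, hr, H⟩ := FrE_ball θ hσ
  have hτ0 : τ (σ 0) = 0 := hσ.left.self_of_nhds
  have hτ : Tendsto τ (𝓝 (σ 0)) (𝓝 0) := by
    have h1 := hσ.τ_an.continuousAt.tendsto
    rwa [hτ0] at h1
  have hball : ∀ᶠ y in 𝓝 (σ 0), τ y ∈ ball (0 : ℂ × ℂ) r := hτ.eventually (ball_mem_nhds 0 hr)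
  -- a point where `θ` is not zero
  obtain ⟨p₀, hp₀, u, hu⟩ : ∃ p ∈ ball (0 : ℂ × ℂ) r, ∃ u : ℂ × ℂ, θ.toFun (σ p) (fderiv ℂ σ p u) ≠ 0 := by
    have h1 : σ 0 ∈ closure {x | x ∈ X ∧ ∃ v, Tan X x v ∧ θ.toFun x v ≠ 0} := by
      rw [hσ0]
      exact hd hx
    obtain ⟨y, ⟨hyX, v, hv, hv0⟩, hyb, hyr⟩ := ((mem_closure_iff_frequently.1 h1).and_eventually (hball.and hσ.right)).exists
    obtain ⟨a, ha, hya⟩ := hyr hyX
    have e : v = a • (a⁻¹ • v) := by rw [smul_smul, mul_inv_cancel₀ ha, one_smul]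
    have hv' : Tan X (σ (τ y)) (a⁻¹ • v) := by
      rw [hya, e] at hv
      exact (tan_smul_iff hX.smul ha).1 hv
    obtain ⟨u, b, hub⟩ := (H _ hyb).2.2.1 _ hv'
    refine ⟨τ y, hyb, u, ?_⟩
    intro h0
    apply hv0
    rw [hya, e, θ.scale_eq_zero hv' ha, hub, θ.add_smul _ _ (ResL_tan (H _ hyb).1 (H _ hyb).2.1 u), h0]
  have Hp₀ := H p₀ hp₀
  have hu0 : u ≠ 0 := by
    rintro rfl
    apply hu
    have h1 := θ.smul _ _ (ResL_tan Hp₀.1 Hp₀.2.1 (0 : ℂ × ℂ)) 0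
    rw [map_zero, smul_zero, zero_pow (by omega), zero_mul] at h1
    rw [map_zero, h1]
  have hind := FrE_indep Hp₀.2.2.2.2.1 Hp₀.2.2.2.1
  rw [Hp₀.2.2.2.2.2.2 u] at hu
  obtain ⟨hO, hD⟩ := open_dense_lf (m := m) hind hu0 hu
  refine ⟨_, hO, hD, ?_⟩
  rw [← hσ0]
  filter_upwards [hball, hσ.right] with y hyb hyr l hl hyX
  -- the analytic function on the ball
  set Φ : ℂ × ℂ → ℂ := fun q => dl l σ q * ∑ k ∈ Finset.range (m + 1), c k q * (v₂ l σ q).1 ^ k * (v₂ l σ q).2 ^ (m - k) with hΦ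
  have hΦa : AnalyticOnNhd ℂ Φ (ball 0 r) := by
    intro q hq
    have Hq := H q hq
    refine (analyticAt_dl l Hq.1).mul (Finset.analyticAt_fun_sum _ fun k hk => ?_)
    exact ((Hq.2.2.2.2.2.1 k hk).mul ((analyticAt_cb l 1 Hq.1).neg.pow k)).mul ((analyticAt_ca l 1 Hq.1).pow (m - k))
  have hΦph : ∀ q ∈ ball (0 : ℂ × ℂ) r, Φ q = ph θ l σ q := by
    intro q hq
    rw [hΦ, ph, (H q hq).2.2.2.2.2.2 (v₂ l σ q)]
  have hfr : ∃ᶠ q in 𝓝 (τ y), Φ q ≠ 0 := by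
    intro hcon
    have h3 : ∀ᶠ q in 𝓝 (τ y), Φ q = 0 := by
      filter_upwards [hcon] with q hq using not_not.1 hq
    have h4 := hΦa.eqOn_zero_of_preconnected_of_eventuallyEq_zero (convex_ball (0 : ℂ × ℂ) r).isPreconnected hyb h3
    exact hl (h4 hp₀)
  obtain ⟨a, ha, hya⟩ := hyr hyX
  have ht : Tendsto (fun q => a • σ q) (𝓝 (τ y)) (𝓝 y) := by
    have h3 : Tendsto (fun q => a • σ q) (𝓝 (τ y)) (𝓝 (a • σ (τ y))) := ((H _ hyb).1.continuousAt.tendsto).const_smul a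
    rwa [← hya] at h3
  rw [mem_closure_iff_frequently]
  refine ht.frequently (p := fun z => z ∈ X ∧ GA X l z ∧ GB θ l z) ?_
  refine (hfr.and_eventually (isOpen_ball.eventually_mem hyb)).mono ?_
  rintro q ⟨hq, hqb⟩
  have Hq := H q hqb
  rw [hΦph q hqb] at hq
  obtain ⟨g1, g2⟩ := (gab_chart hm (fun v => ResL_tan Hq.1 Hq.2.1 v) Hq.2.2.1 Hq.2.2.2.1).2 hq
  exact ⟨hX.smul _ Hq.2.1.self_of_nhds a ha, ga_smul hX.smul g1 ha, gb_smul hX.smul g2 ha⟩

/-- **Linear forms in general position.** -/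
theorem exists_frame (hX : Surface X) (hm : 1 ≤ m) (θ : WDiff X m) (hd : X ⊆ closure {x | x ∈ X ∧ ∃ v, Tan X x v ∧ θ.toFun x v ≠ 0}) :
    ∃ l : LF N, X ⊆ closure {x | x ∈ X ∧ GA X l x ∧ GB θ l x} := by
  have hK : IsCompact (X ∩ sphere (0 : EN N) 1) := by
    refine (isCompact_sphere (0 : EN N) 1).of_isClosed_subset ?_ Set.inter_subset_right
    refine isClosed_of_closure_subset fun x hx => ?_
    have h1 : x ∈ sphere (0 : EN N) 1 := by
      have h2 : closure (X ∩ sphere (0 : EN N) 1) ⊆ sphere (0 : EN N) 1 := closure_minimal Set.inter_subset_right isClosed_sphere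
      exact h2 hx
    have h3 : x ≠ 0 := by
      rintro rfl
      simp at h1
    exact ⟨hX.closed x (closure_mono Set.inter_subset_left hx) h3, h1⟩
  obtain ⟨O, hO, hD, h⟩ : ∃ O : Set (LF N), IsOpen O ∧ Dense O ∧ ∀ y ∈ X ∩ sphere (0 : EN N) 1, ∀ l ∈ O, y ∈ X →
      y ∈ closure {x | x ∈ X ∧ GA X l x ∧ GB θ l x} := by
    refine hK.induction_on (p := fun S : Set (EN N) => ∃ O : Set (LF N), IsOpen O ∧ Dense O ∧ ∀ y ∈ S, ∀ l ∈ O, y ∈ X →
      y ∈ closure {x | x ∈ X ∧ GA X l x ∧ GB θ l x}) ?_ ?_ ?_ ?_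
    · exact ⟨Set.univ, isOpen_univ, dense_univ, by simp⟩
    · rintro s t hst ⟨O, h1, h2, h3⟩
      exact ⟨O, h1, h2, fun y hy => h3 y (hst hy)⟩
    · rintro s t ⟨O, h1, h2, h3⟩ ⟨O', h1', h2', h3'⟩
      refine ⟨O ∩ O', h1.inter h1', h2.inter_of_isOpen_left h2' h1, ?_⟩
      rintro y (h | h) l ⟨hl, hl'⟩ hy
      · exact h3 y h l hl hy
      · exact h3' y h l hl' hy
    · rintro x ⟨hx, -⟩
      obtain ⟨O, h1, h2, h3⟩ := FrE_near hX hm θ hd hx
      exact ⟨_, mem_nhdsWithin_of_mem_nhds h3, O, h1, h2, fun y hy => hy⟩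
  obtain ⟨l, hl⟩ := hD.nonempty
  refine ⟨l, fun x hx => ?_⟩
  have hx0 : x ≠ 0 := by
    rintro rfl
    exact hX.zero hx
  have hn : (‖x‖ : ℂ) ≠ 0 := by
    simpa using hx0
  have h1 : (‖x‖ : ℂ)⁻¹ • x ∈ X := hX.smul x hx _ (inv_ne_zero hn)
  have h2 : (‖x‖ : ℂ)⁻¹ • x ∈ sphere (0 : EN N) 1 := by
    rw [mem_sphere_zero_iff_norm, norm_smul, norm_inv, Complex.norm_real, norm_norm]
    exact inv_mul_cancel₀ (norm_ne_zero_iff.2 hx0)
  have h3 := h _ ⟨h1, h2⟩ l hl h1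
  -- scale back
  have ht : Tendsto (fun y : EN N => (‖x‖ : ℂ) • y) (𝓝 ((‖x‖ : ℂ)⁻¹ • x)) (𝓝 x) := by
    have h4 : Continuous fun y : EN N => (‖x‖ : ℂ) • y := continuous_const_smul _
    have h5 := h4.tendsto ((‖x‖ : ℂ)⁻¹ • x)
    rwa [smul_smul, mul_inv_cancel₀ hn, one_smul] at h5
  rw [mem_closure_iff_frequently] at h3 ⊢
  refine ht.frequently (h3.mono ?_)
  rintro y ⟨hy, g1, g2⟩
  exact ⟨hX.smul y hy _ hn, ga_smul hX.smul g1 hn, gb_smul hX.smul g2 hn⟩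

end Pool.Agent.MQ3

end
end
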