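import Pool.Agent.H43.TL2.M07

/-! The parts of this file: H13.SM.Pts, H13.SM.Noether, H22.HF.Par, H92.TH.Defs, MQ.Ibp, MQ2.Energy, MQ2.SlopeD, MQ3.LiftDefs, TG.Rm. -/

section

/-!
# The complex points of an affine variety with generic point `a`

`a : ι → K` generates the field `K` over `ℂ`.  The affine variety is the spectrum of
`A = Algebra.adjoin ℂ (Set.range a)`; its points are the `w : ι → ℂ` at which all polynomials which
vanish at `a` vanish.

PROOF of `isClosed_pts`.  Intersection of the closed sets `eval w Q = 0`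
(`MvPolynomial.continuous_eval`).

PROOF of `pts_of_algHom`.  `eval (fun i => φ ⟨a i, _⟩) Q = φ ⟨aeval a Q, _⟩` (both sides are algebra
homs of `Q`, or induction on `Q`), and `φ 0 = 0`.

PROOF of `root_at`.  Let `M : Polynomial (MvPolynomial (Fin n) ℂ) →+* MvPolynomial ι ℂ` be
`Polynomial.eval₂RingHom (aeval B).toRingHom Z`.  Then `aeval a (M p) = (p.map (aeval b)).eval (aeval a
Z)` since `aeval a (B j) = b j`, and `eval w (M p) = (p.map (eval (fun j => eval w (B j)))).eval
(eval w Z)` (both by `Polynomial.hom_eval₂` and `MvPolynomial.comp_aeval` / `ringHom_ext`).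
-/

open MvPolynomial

noncomputable section

namespace Pool.Agent.H13.SM

variable {ι K : Type} [Field K] [Algebra ℂ K]

/-- The complex points of the affine variety with generic point `a`. -/
def pts (a : ι → K) : Set (ι → ℂ) :=
  {w | ∀ Q : MvPolynomial ι ℂ, aeval a Q = 0 → eval w Q = 0}

theorem isClosed_pts [Finite ι] (a : ι → K) : IsClosed (pts a) := by
  have h : pts a = ⋂ Q ∈ {Q : MvPolynomial ι ℂ | aeval a Q = 0}, {w : ι → ℂ | eval w Q = 0} := by
    ext w
    simp only [pts, Set.mem_ofPred_eq, Set.mem_iInter]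
  rw [h]
  exact isClosed_biInter fun Q _ => isClosed_eq (MvPolynomial.continuous_eval Q) continuous_const

theorem aeval_mem_adjoin (a : ι → K) (Q : MvPolynomial ι ℂ) :
    aeval a Q ∈ Algebra.adjoin ℂ (Set.range a) := by
  rw [Algebra.adjoin_range_eq_range_aeval]
  exact ⟨Q, rfl⟩

/-- An algebra hom from the ring of functions to `ℂ` is the evaluation at a point. -/
theorem exists_pt_of_algHom (a : ι → K) (φ : Algebra.adjoin ℂ (Set.range a) →ₐ[ℂ] ℂ) :
    ∃ w ∈ pts a, ∀ Q : MvPolynomial ι ℂ, eval w Q = φ ⟨aeval a Q, aeval_mem_adjoin a Q⟩ := by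
  have key : ∀ Q : MvPolynomial ι ℂ,
      eval (fun i => φ ⟨a i, Algebra.subset_adjoin (Set.mem_range_self i)⟩) Q =
        φ ⟨aeval a Q, aeval_mem_adjoin a Q⟩ := by
    intro Q
    have h1 := MvPolynomial.comp_aeval_apply
      (fun i => (⟨a i, Algebra.subset_adjoin (Set.mem_range_self i)⟩ : Algebra.adjoin ℂ (Set.range a)))
      φ Q
    have h2 := MvPolynomial.comp_aeval_apply
      (fun i => (⟨a i, Algebra.subset_adjoin (Set.mem_range_self i)⟩ : Algebra.adjoin ℂ (Set.range a)))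
      (Algebra.adjoin ℂ (Set.range a)).val Q
    have h3 : aeval (fun i => (⟨a i, Algebra.subset_adjoin (Set.mem_range_self i)⟩ :
        Algebra.adjoin ℂ (Set.range a))) Q = ⟨aeval a Q, aeval_mem_adjoin a Q⟩ := by
      apply Subtype.ext
      exact h2
    rw [← h3, h1, MvPolynomial.aeval_eq_eval]
  refine ⟨fun i => φ ⟨a i, Algebra.subset_adjoin (Set.mem_range_self i)⟩, ?_, key⟩
  intro Q hQ
  rw [key Q]
  have h4 : (⟨aeval a Q, aeval_mem_adjoin a Q⟩ : Algebra.adjoin ℂ (Set.range a)) = 0 :=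
    Subtype.ext hQ
  rw [h4, map_zero]

/-- If `Z` is a root of `p` on the variety, with coefficients functions of the `b j = aeval a (B j)`,
then this holds at each point. -/
theorem root_at {n : ℕ} {a : ι → K} {b : Fin n → K} {B : Fin n → MvPolynomial ι ℂ}
    (hB : ∀ j, aeval a (B j) = b j) {Z : MvPolynomial ι ℂ}
    {p : Polynomial (MvPolynomial (Fin n) ℂ)}
    (hp : (p.map (aeval b : MvPolynomial (Fin n) ℂ →ₐ[ℂ] K).toRingHom).eval (aeval a Z) = 0)
    {w : ι → ℂ} (hw : w ∈ pts a) :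
    (p.map (eval fun j => eval w (B j))).eval (eval w Z) = 0 := by
  have h1 : aeval a (p.eval₂ (aeval B : MvPolynomial (Fin n) ℂ →ₐ[ℂ] MvPolynomial ι ℂ).toRingHom Z)
      = 0 := by
    have e1 := Polynomial.hom_eval₂ p
      (aeval B : MvPolynomial (Fin n) ℂ →ₐ[ℂ] MvPolynomial ι ℂ).toRingHom
      (aeval a : MvPolynomial ι ℂ →ₐ[ℂ] K).toRingHom Z
    have e2 : (aeval a : MvPolynomial ι ℂ →ₐ[ℂ] K).toRingHom.comp
        (aeval B : MvPolynomial (Fin n) ℂ →ₐ[ℂ] MvPolynomial ι ℂ).toRingHom =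
        (aeval b : MvPolynomial (Fin n) ℂ →ₐ[ℂ] K).toRingHom := by
      have e3 : (aeval a : MvPolynomial ι ℂ →ₐ[ℂ] K).comp
          (aeval B : MvPolynomial (Fin n) ℂ →ₐ[ℂ] MvPolynomial ι ℂ) = aeval b := by
        apply MvPolynomial.algHom_ext
        intro j
        rw [AlgHom.comp_apply, aeval_X, aeval_X]
        exact hB j
      rw [← e3]
      rfl
    rw [e2] at e1
    rw [Polynomial.eval_map] at hp
    exact e1.trans hp
  have h2 := hw _ h1
  have e4 := Polynomial.hom_eval₂ p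
    (aeval B : MvPolynomial (Fin n) ℂ →ₐ[ℂ] MvPolynomial ι ℂ).toRingHom (eval w) Z
  have e5 : (eval w).comp (aeval B : MvPolynomial (Fin n) ℂ →ₐ[ℂ] MvPolynomial ι ℂ).toRingHom =
      eval fun j => eval w (B j) := by
    apply MvPolynomial.ringHom_ext
    · intro r
      simp
    · intro j
      simp
  rw [e5] at e4
  rw [Polynomial.eval_map, ← e4]
  exact h2

end Pool.Agent.H13.SM

end
end

section

/-!
# Noether normalisation

PROOF.  `A = Algebra.adjoin ℂ (Set.range a)` is an algebra of finite type (`Subalgebra.fg_adjoin_...`,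
`Subalgebra.fg_iff_finiteType`) and is nontrivial, so by `exists_finite_inj_algHom_of_fg` there are
`s` and `g : MvPolynomial (Fin s) ℂ →ₐ[ℂ] A` injective and finite.  Let `b' j = g (X j)`, an
algebraically independent family of `K` (`g` and the inclusion are injective).  Each element of `A` is
integral over the range of `g`, the algebra generated by the `b' j` (`RingHom.Finite.to_isIntegral`).
`K = IntermediateField.adjoin ℂ (Set.range a)` is algebraic over `IntermediateField.adjoin ℂ (Set.range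
b')`, since all `a i` are.  So `b'` is a transcendence basis of `K` and `s = n` by
`IsTranscendenceBasis.cardinalMk_eq` (or `lift_cardinalMk_eq_trdeg`).  Write `b' j = aeval a (B j)`.
-/

open MvPolynomial

noncomputable section

namespace Pool.Agent.H13.SM

variable {ι K : Type} [Field K] [Algebra ℂ K]

/-- The surjection from polynomials to the adjoined algebra. -/
private def Noether_phi {n : ℕ} (b : Fin n → K) :
    MvPolynomial (Fin n) ℂ →ₐ[ℂ] Algebra.adjoin ℂ (Set.range b) :=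
  (aeval b : MvPolynomial (Fin n) ℂ →ₐ[ℂ] K).codRestrict (Algebra.adjoin ℂ (Set.range b)) (by
    intro x
    rw [Algebra.adjoin_range_eq_range_aeval]
    exact ⟨x, rfl⟩)

private theorem Noether_phi_coe {n : ℕ} (b : Fin n → K) (x : MvPolynomial (Fin n) ℂ) :
    (Noether_phi b x : K) = aeval b x := rfl

private theorem Noether_phi_surj {n : ℕ} (b : Fin n → K) : Function.Surjective (Noether_phi b) := by
  rintro ⟨y, hy⟩
  have h := hy
  rw [Algebra.adjoin_range_eq_range_aeval] at h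
  obtain ⟨x, hx⟩ := h
  exact ⟨x, Subtype.ext hx⟩

private theorem Noether_algebraic [Finite ι] {a : ι → K}
    (ha : IntermediateField.adjoin ℂ (Set.range a) = ⊤) {s : ℕ} (b : Fin s → K)
    (hb : ∀ i, IsIntegral (Algebra.adjoin ℂ (Set.range b)) (a i)) :
    Algebra.IsAlgebraic (Algebra.adjoin ℂ (Set.range b)) K := by
  constructor
  intro x
  have hx : x ∈ IntermediateField.adjoin ℂ (Set.range a) := by
    rw [ha]; exact IntermediateField.mem_top
  induction hx using IntermediateField.adjoin_induction with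
  | mem y hy =>
    obtain ⟨i, rfl⟩ := hy
    exact (hb i).isAlgebraic
  | algebraMap y =>
    have h1 : algebraMap ℂ K y =
        algebraMap (Algebra.adjoin ℂ (Set.range b)) K (algebraMap ℂ (Algebra.adjoin ℂ (Set.range b)) y) := rfl
    rw [h1]
    exact isAlgebraic_algebraMap _
  | add y z _ _ hy hz => exact hy.add hz
  | inv y _ hy => exact hy.inv
  | mul y z _ _ hy hz => exact hy.mul hz

theorem exists_noether [Finite ι] {a : ι → K}
    (ha : IntermediateField.adjoin ℂ (Set.range a) = ⊤) {n : ℕ} {z : Fin n → K}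
    (hz : IsTranscendenceBasis ℂ z) :
    ∃ (b : Fin n → K) (B : Fin n → MvPolynomial ι ℂ), AlgebraicIndependent ℂ b ∧
      (∀ j, aeval a (B j) = b j) ∧ ∀ i, IsIntegral (Algebra.adjoin ℂ (Set.range b)) (a i) := by
  set A := Algebra.adjoin ℂ (Set.range a) with hA
  have : Algebra.FiniteType ℂ A := by
    refine (Subalgebra.fg_iff_finiteType _).1 ?_
    have h := Subalgebra.fg_adjoin_finset (R := ℂ) (Set.finite_range a).toFinset
    rwa [Set.Finite.coe_toFinset] at h
  obtain ⟨s, g, ginj, gint⟩ := exists_integral_inj_algHom_of_fg ℂ A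
  set b' : Fin s → K := fun j => (g (X j) : K) with hb'
  have haev : (aeval b' : MvPolynomial (Fin s) ℂ →ₐ[ℂ] K) = A.val.comp g := by
    refine MvPolynomial.algHom_ext fun j => ?_
    rw [aeval_X]; rfl
  have hind : AlgebraicIndependent ℂ b' := by
    show Function.Injective (aeval b' : MvPolynomial (Fin s) ℂ →ₐ[ℂ] K)
    rw [haev]
    exact Subtype.val_injective.comp ginj
  have hint : ∀ i, IsIntegral (Algebra.adjoin ℂ (Set.range b')) (a i) := by
    intro i
    have hai : a i ∈ A := Algebra.subset_adjoin ⟨i, rfl⟩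
    obtain ⟨p, hp1, hp2⟩ := gint ⟨a i, hai⟩
    refine ⟨p.map (Noether_phi b').toRingHom, hp1.map _, ?_⟩
    rw [Polynomial.eval₂_map]
    have h1 := congrArg (fun x : A => (x : K)) hp2
    have h2 : A.val.toRingHom (Polynomial.eval₂ g.toRingHom ⟨a i, hai⟩ p) = 0 := h1
    rw [Polynomial.hom_eval₂] at h2
    have h3 : A.val.toRingHom.comp g.toRingHom =
        (algebraMap (Algebra.adjoin ℂ (Set.range b')) K).comp (Noether_phi b').toRingHom := by
      refine RingHom.ext fun x => ?_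
      have h4 : (aeval b' x : K) = A.val (g x) := by rw [haev]; rfl
      show A.val (g x) = (Noether_phi b' x : K)
      rw [Noether_phi_coe, h4]
    rw [← h3]
    exact h2
  have hbas : IsTranscendenceBasis ℂ b' :=
    hind.isTranscendenceBasis_iff_isAlgebraic.2 (Noether_algebraic ha b' hint)
  have hsn : s = n := by
    have h1 := hbas.cardinalMk_eq hz
    simpa using h1
  subst hsn
  have hB : ∀ j, ∃ Q : MvPolynomial ι ℂ, aeval a Q = b' j := by
    intro j
    have h1 : b' j ∈ A := (g (X j)).2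
    rw [hA, Algebra.adjoin_range_eq_range_aeval] at h1
    exact h1
  choose B hB using hB
  exact ⟨b', B, hind, hB, hint⟩

/-- The polynomial form of integrality: `aeval a Z` is a root of a monic polynomial whose
coefficients are polynomials in `b`. -/
theorem exists_monic {a : ι → K} {n : ℕ} {b : Fin n → K}
    (hint : ∀ i, IsIntegral (Algebra.adjoin ℂ (Set.range b)) (a i)) (Z : MvPolynomial ι ℂ) :
    ∃ p : Polynomial (MvPolynomial (Fin n) ℂ), p.Monic ∧
      (p.map (aeval b : MvPolynomial (Fin n) ℂ →ₐ[ℂ] K).toRingHom).eval (aeval a Z) = 0 := by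
  set C₀ := Algebra.adjoin ℂ (Set.range b) with hC₀
  have hZ : IsIntegral C₀ (aeval a Z) := by
    have h1 : aeval a Z ∈ Algebra.adjoin ℂ (Set.range a) := aeval_mem_adjoin a Z
    have h2 : Algebra.adjoin ℂ (Set.range a) ≤ (integralClosure C₀ K).restrictScalars ℂ := by
      refine Algebra.adjoin_le ?_
      rintro _ ⟨i, rfl⟩
      exact hint i
    exact h2 h1
  obtain ⟨p, hp1, hp2⟩ := hZ
  have hlift : p ∈ Polynomial.lifts (Noether_phi b).toRingHom := by
    rw [Polynomial.lifts_iff_coeff_lifts]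
    intro k
    exact Noether_phi_surj b (p.coeff k)
  obtain ⟨P, hP1, -, hP2⟩ := Polynomial.lifts_and_natDegree_eq_and_monic hlift hp1
  refine ⟨P, hP2, ?_⟩
  have h3 : (aeval b : MvPolynomial (Fin n) ℂ →ₐ[ℂ] K).toRingHom =
      (algebraMap C₀ K).comp (Noether_phi b).toRingHom := rfl
  rw [h3, ← Polynomial.map_map, hP1, Polynomial.eval_map]
  exact hp2

end Pool.Agent.H13.SM

end
end

section

/-!
# HF Par: circle integrals which depend on parameters

`F : E × ℂ → ℂ` (`E` a complex normed space), analytic at the points `(p₀, t)`, `t` in the circle: then `p ↦ ∮ F (p, t) dt` is analytic at `p₀`.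

Proof.  (1) Near `(p₀, t₀)` the function `F` has the power series `P` on a ball; for `t` near `t₀` the series `P.changeOrigin (0, t - t₀)`
represents `F` at `(p₀, t)`, its terms depend continuously on `t` and are bounded uniformly, so one can integrate termwise over a small arc.
(2) By compactness the circle is a union of finitely many small arcs.
-/

set_option autoImplicit false

open Metric Set Filter Topology
open scoped NNReal ENNReal Interval

namespace Pool.Agent.H22.HF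

private theorem par_local {E : Type} [NormedAddCommGroup E] [NormedSpace ℂ E] {F : E × ℂ → ℂ} {p₀ : E} {γ g : ℝ → ℂ}
    (hγ : Continuous γ) (hg : Continuous g) {θ₀ : ℝ} (hF : AnalyticAt ℂ F (p₀, γ θ₀)) :
    ∃ ε > 0, ∀ α ∈ ball θ₀ ε, ∀ β ∈ ball θ₀ ε, AnalyticAt ℂ (fun p => ∫ θ in α..β, g θ * F (p, γ θ)) p₀ := by
  obtain ⟨P, R, hP⟩ := hF
  obtain ⟨r, hr0, hrR⟩ := ENNReal.lt_iff_exists_nnreal_btwn.1 hP.r_pos
  set s : ℝ≥0 := r / 2 with hs
  have hr0' : 0 < r := by exact_mod_cast hr0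
  have hs0 : 0 < s := by rw [hs]; positivity
  have hss : ((s : ℝ≥0∞) + s) < P.radius := by
    have h1 : s + s = r := by rw [hs]; exact add_halves r
    have h2 : ((s : ℝ≥0∞) + s) = (r : ℝ≥0∞) := by rw [← h1]; push_cast; rfl
    rw [h2]
    exact hrR.trans_le hP.r_le
  have hsR : ((s : ℝ≥0∞) + s) < R := by
    have h1 : s + s = r := by rw [hs]; exact add_halves r
    have h2 : ((s : ℝ≥0∞) + s) = (r : ℝ≥0∞) := by rw [← h1]; push_cast; rfl
    rw [h2]
    exact hrR
  have hsP : (s : ℝ≥0∞) < P.radius := (le_add_right le_rfl).trans_lt hss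
  let x : ℝ → E × ℂ := fun θ => (0, γ θ - γ θ₀)
  have hxc : Continuous x := continuous_const.prodMk (hγ.sub continuous_const)
  have hx0 : x θ₀ = 0 := by simp [x]
  obtain ⟨ε, hε, hxε⟩ : ∃ ε > 0, ∀ θ ∈ ball θ₀ ε, ‖x θ‖₊ < s := by
    have h1 : ∀ᶠ θ in 𝓝 θ₀, ‖x θ‖₊ < s := by
      have h2 : Tendsto (fun θ => ‖x θ‖₊) (𝓝 θ₀) (𝓝 ‖x θ₀‖₊) := hxc.nnnorm.tendsto θ₀
      rw [hx0, nnnorm_zero] at h2
      exact h2.eventually (gt_mem_nhds hs0)
    obtain ⟨ε, hε, h3⟩ := Metric.eventually_nhds_iff_ball.1 h1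
    exact ⟨ε, hε, h3⟩
  refine ⟨ε, hε, ?_⟩
  intro α hα β hβ
  have hsub : uIcc α β ⊆ ball θ₀ ε := by
    rw [Real.ball_eq_Ioo] at hα hβ ⊢
    exact (ordConnected_Ioo.uIcc_subset hα hβ)
  have hsub' : Ι α β ⊆ ball θ₀ ε := uIoc_subset_uIcc.trans hsub
  have hpos : 0 < P.radius := hP.r_pos.trans_le hP.r_le
  -- the coefficients
  let L : E →L[ℂ] E × ℂ := ContinuousLinearMap.inl ℂ E ℂ
  have hL : ‖L‖ ≤ 1 := ContinuousLinearMap.norm_inl_le_one ℂ E ℂ
  let Q : ∀ k : ℕ, ℝ → ContinuousMultilinearMap ℂ (fun _ : Fin k => E) ℂ :=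
    fun k θ => (P.changeOrigin (x θ) k).compContinuousLinearMap (fun _ => L)
  let B : ℕ → ℝ≥0 := fun k =>
    ∑' t : Σ l : ℕ, { t : Finset (Fin (k + l)) // t.card = l }, ‖P (k + t.1)‖₊ * s ^ t.1
  have hQB : ∀ k, ∀ θ ∈ ball θ₀ ε, ‖Q k θ‖ ≤ B k := by
    intro k θ hθ
    have h1 : ‖Q k θ‖ ≤ ‖P.changeOrigin (x θ) k‖ := by
      refine (ContinuousMultilinearMap.norm_compContinuousLinearMap_le _ _).trans ?_
      refine mul_le_of_le_one_right (norm_nonneg _) ?_
      exact Finset.prod_le_one (fun _ _ => norm_nonneg _) (fun _ _ => hL)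
    have hxs : ‖x θ‖₊ < s := hxε θ hθ
    have hxP : (‖x θ‖₊ : ℝ≥0∞) < P.radius := lt_trans (by exact_mod_cast hxs) hsP
    have h2 : ‖P.changeOrigin (x θ) k‖₊ ≤ B k := by
      refine (P.nnnorm_changeOrigin_le k hxP).trans ?_
      refine Summable.tsum_le_tsum ?_ (P.changeOriginSeries_summable_aux₂ hxP k)
        (P.changeOriginSeries_summable_aux₂ hsP k)
      intro t
      gcongr
    exact h1.trans (by exact_mod_cast h2)
  have hBs : Summable (fun k => B k * s ^ k) := by
    have h := P.changeOriginSeries_summable_aux₁ hss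
    have h1 := (NNReal.summable_sigma.1 h).2
    simpa only [B, ← NNReal.tsum_mul_right] using h1
  have hBs' : Summable (fun k => (B k : ℝ) * (s : ℝ) ^ k) := by
    have h := NNReal.summable_coe.2 hBs
    simpa using h
  have hQc : ∀ k, ContinuousOn (Q k) (ball θ₀ ε) := by
    intro k
    have h1 : ContinuousOn (fun y => P.changeOrigin y k) (Metric.eball (0 : E × ℂ) P.radius) :=
      (P.hasFPowerSeriesOnBall_changeOrigin k hpos).continuousOn
    have h2 : ContinuousOn (fun θ => P.changeOrigin (x θ) k) (ball θ₀ ε) := by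
      refine h1.comp hxc.continuousOn ?_
      intro θ hθ
      rw [mem_eball_zero_iff]
      have h3 : ‖x θ‖₊ < s := hxε θ hθ
      exact lt_trans (by exact_mod_cast h3) hsP
    exact (ContinuousMultilinearMap.compContinuousLinearMapL
      (fun _ : Fin k => L)).continuous.comp_continuousOn h2
  obtain ⟨M, hM⟩ : ∃ M : ℝ, ∀ θ ∈ uIcc α β, ‖g θ‖ ≤ M := by
    obtain ⟨M, hM⟩ := (isCompact_uIcc (a := α) (b := β)).exists_bound_of_continuousOn hg.continuousOn
    exact ⟨M, hM⟩
  have hM0 : 0 ≤ M := (norm_nonneg _).trans (hM α left_mem_uIcc)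
  let G : FormalMultilinearSeries ℂ E ℂ := fun k => ∫ θ in α..β, g θ • Q k θ
  have hGi : ∀ k, IntervalIntegrable (fun θ => g θ • Q k θ) MeasureTheory.volume α β := by
    intro k
    exact (hg.continuousOn.smul ((hQc k).mono hsub)).intervalIntegrable
  have hGn : ∀ k, ‖G k‖ ≤ M * B k * |β - α| := by
    intro k
    refine intervalIntegral.norm_integral_le_of_norm_le_const ?_
    intro θ hθ
    rw [norm_smul]
    have h1 := hM θ (uIoc_subset_uIcc hθ)
    have h2 := hQB k θ (hsub' hθ)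
    exact mul_le_mul h1 h2 (norm_nonneg _) hM0
  refine HasFPowerSeriesOnBall.analyticAt (p := G) (r := (s : ℝ≥0∞)) ⟨?_, by exact_mod_cast hs0, ?_⟩
  · refine G.le_radius_of_summable_norm ?_
    refine Summable.of_nonneg_of_le (fun k => by positivity) (fun k => ?_)
      (hBs'.mul_left (M * |β - α|))
    calc ‖G k‖ * (s : ℝ) ^ k ≤ (M * B k * |β - α|) * (s : ℝ) ^ k := by
          gcongr
          exact hGn k
      _ = M * |β - α| * ((B k : ℝ) * (s : ℝ) ^ k) := by ring
  · intro y hy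
    have hys : ‖y‖₊ < s := by
      rw [mem_eball_zero_iff] at hy
      exact_mod_cast hy
    have hGy : ∀ k, G k (fun _ => y) = ∫ θ in α..β, g θ * Q k θ (fun _ => y) := by
      intro k
      have h1 := ((ContinuousMultilinearMap.apply ℂ (fun _ : Fin k => E) ℂ
        (fun _ => y))).intervalIntegral_comp_comm (hGi k)
      exact h1.symm
    simp only [hGy]
    refine intervalIntegral.hasSum_integral_of_dominated_convergence
      (fun k _ => M * ((B k : ℝ) * (s : ℝ) ^ k)) ?_ ?_ ?_ ?_ ?_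
    · intro k
      have h1 : ContinuousOn (fun θ => g θ * Q k θ (fun _ => y)) (uIcc α β) := by
        refine hg.continuousOn.mul ?_
        exact ((ContinuousMultilinearMap.apply ℂ (fun _ : Fin k => E) ℂ
          (fun _ => y))).continuous.comp_continuousOn ((hQc k).mono hsub)
      exact (h1.mono uIoc_subset_uIcc).aestronglyMeasurable measurableSet_uIoc
    · intro k
      refine Eventually.of_forall (fun θ hθ => ?_)
      rw [norm_mul]
      have h1 := hM θ (uIoc_subset_uIcc hθ)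
      have h2 := hQB k θ (hsub' hθ)
      have h3 : ‖Q k θ (fun _ => y)‖ ≤ (B k : ℝ) * (s : ℝ) ^ k := by
        refine ((Q k θ).le_opNorm _).trans ?_
        have h4 : ∏ _i : Fin k, ‖y‖ ≤ (s : ℝ) ^ k := by
          rw [Finset.prod_const, Finset.card_univ, Fintype.card_fin]
          exact pow_le_pow_left₀ (norm_nonneg _) (by exact_mod_cast hys.le) k
        exact mul_le_mul h2 h4 (by positivity) (by positivity)
      exact mul_le_mul h1 h3 (norm_nonneg _) hM0
    · exact Eventually.of_forall (fun θ _ => hBs'.mul_left M)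
    · exact intervalIntegrable_const
    · refine Eventually.of_forall (fun θ hθ => ?_)
      have hxs : ‖x θ‖₊ < s := hxε θ (hsub' hθ)
      have hxR : (‖x θ‖₊ : ℝ≥0∞) < R := by
        refine lt_trans ?_ ((le_add_right le_rfl).trans_lt hsR : (s : ℝ≥0∞) < R)
        exact_mod_cast hxs
      have h1 := (hP.changeOrigin (y := x θ) hxR)
      have hmem : (y, (0 : ℂ)) ∈ Metric.eball (0 : E × ℂ) (R - ‖x θ‖₊) := by
        rw [mem_eball_zero_iff, lt_tsub_iff_right]
        have h2 : ‖((y, (0 : ℂ)) : E × ℂ)‖₊ = ‖y‖₊ := by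
          rw [Prod.nnnorm_def]
          simp
        have h3 : ‖((y, (0 : ℂ)) : E × ℂ)‖ₑ = (‖y‖₊ : ℝ≥0∞) := by
          rw [enorm_eq_nnnorm, h2]
        rw [h3]
        refine lt_trans ?_ hsR
        have h4 : ‖y‖₊ + ‖x θ‖₊ < s + s := add_lt_add hys hxs
        exact_mod_cast h4
      have h2 := h1.hasSum hmem
      have h3 : (p₀, γ θ₀) + x θ + (y, (0 : ℂ)) = (p₀ + y, γ θ) := by
        simp [x]
      rw [h3] at h2
      have h4 := h2.mul_left (g θ)
      exact h4

theorem analyticAt_circleIntegral {E : Type} [NormedAddCommGroup E] [NormedSpace ℂ E] [FiniteDimensional ℂ E] {F : E × ℂ → ℂ} {p₀ : E} {c : ℂ} {ρ : ℝ}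
    (hρ : 0 < ρ) (hF : ∀ t ∈ sphere c ρ, AnalyticAt ℂ F (p₀, t)) : AnalyticAt ℂ (fun p => ∮ t in C(c, ρ), F (p, t)) p₀ := by
  have hmem : ∀ θ : ℝ, circleMap c ρ θ ∈ sphere c ρ := fun θ => circleMap_mem_sphere c hρ.le θ
  have hγ : Continuous (circleMap c ρ) := continuous_circleMap c ρ
  have hg : Continuous (deriv (circleMap c ρ)) := by
    have h1 : deriv (circleMap c ρ) = fun θ => circleMap 0 ρ θ * Complex.I := by
      funext θ
      exact deriv_circleMap c ρ θ
    rw [h1]
    exact (continuous_circleMap 0 ρ).mul continuous_const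
  have hloc : ∀ θ₀ : ℝ, ∃ ε > 0, ∀ α ∈ ball θ₀ ε, ∀ β ∈ ball θ₀ ε,
      AnalyticAt ℂ (fun p => ∫ θ in α..β, deriv (circleMap c ρ) θ * F (p, circleMap c ρ θ)) p₀ :=
    fun θ₀ => par_local hγ hg (hF _ (hmem θ₀))
  choose ε hε hεa using hloc
  obtain ⟨δ, hδ, hδc⟩ := lebesgue_number_lemma_of_metric (isCompact_Icc (a := (0 : ℝ)) (b := 2 * Real.pi))
    (c := fun θ₀ : ℝ => ball θ₀ (ε θ₀)) (fun _ => isOpen_ball)
    (fun θ _ => mem_iUnion.2 ⟨θ, mem_ball_self (hε θ)⟩)
  have hloc2 : ∀ θ ∈ Icc (0 : ℝ) (2 * Real.pi), ∀ α ∈ ball θ δ, ∀ β ∈ ball θ δ,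
      AnalyticAt ℂ (fun p => ∫ θ in α..β, deriv (circleMap c ρ) θ * F (p, circleMap c ρ θ)) p₀ := by
    intro θ hθ α hα β hβ
    obtain ⟨θ₀, h0⟩ := hδc θ hθ
    exact hεa θ₀ α (h0 hα) β (h0 hβ)
  have hpi : 0 < 2 * Real.pi := by positivity
  obtain ⟨N, hN⟩ := exists_nat_gt (2 * Real.pi / δ)
  have hN0 : (0 : ℝ) < N := lt_trans (by positivity) hN
  have hNδ : 2 * Real.pi / N < δ := by
    rw [div_lt_iff₀ hδ] at hN
    rw [div_lt_iff₀ hN0]
    linarith
  let a : ℕ → ℝ := fun k => 2 * Real.pi * k / N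
  have ha0 : a 0 = 0 := by simp [a]
  have haN : a N = 2 * Real.pi := by
    simp only [a]
    field_simp
  have hstep : ∀ k, a (k + 1) = a k + 2 * Real.pi / N := by
    intro k
    simp only [a]
    push_cast
    ring
  have hsum : AnalyticAt ℂ (fun p => ∑ k ∈ Finset.range N,
      ∫ θ in a k..a (k + 1), deriv (circleMap c ρ) θ * F (p, circleMap c ρ θ)) p₀ := by
    refine Finset.analyticAt_fun_sum _ ?_
    intro k hk
    have hk' : k < N := Finset.mem_range.1 hk
    have hkI : a k ∈ Icc (0 : ℝ) (2 * Real.pi) := by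
      constructor
      · simp only [a]
        positivity
      · simp only [a]
        rw [div_le_iff₀ hN0]
        have : (k : ℝ) ≤ N := by exact_mod_cast hk'.le
        nlinarith
    refine hloc2 (a k) hkI (a k) (mem_ball_self hδ) (a (k + 1)) ?_
    rw [hstep, mem_ball, Real.dist_eq]
    have : a k + 2 * Real.pi / N - a k = 2 * Real.pi / N := by ring
    rw [this, abs_of_pos (by positivity)]
    exact hNδ
  refine hsum.congr ?_
  obtain ⟨u, v, hu, _, hpu, htv, huv⟩ := generalized_tube_lemma (isCompact_singleton (x := p₀))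
    (isCompact_sphere c ρ) (isOpen_analyticAt ℂ F) (by
      rintro ⟨p, t⟩ ⟨hp, ht⟩
      simp only [mem_singleton_iff] at hp ht
      subst hp
      exact hF t ht)
  have hev : ∀ᶠ p in 𝓝 p₀, p ∈ u := hu.mem_nhds (hpu rfl)
  filter_upwards [hev] with p hp
  have hcont : Continuous (fun θ => deriv (circleMap c ρ) θ * F (p, circleMap c ρ θ)) := by
    refine hg.mul ?_
    rw [continuous_iff_continuousAt]
    intro θ
    have h1 : AnalyticAt ℂ F (p, circleMap c ρ θ) := huv ⟨hp, htv (hmem θ)⟩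
    exact h1.continuousAt.comp (f := fun θ => (p, circleMap c ρ θ))
      (continuous_const.prodMk hγ).continuousAt
  rw [intervalIntegral.sum_integral_adjacent_intervals
    (fun k _ => hcont.intervalIntegrable _ _), ha0, haN]
  rfl

end Pool.Agent.H22.HF

end

section

/-!
# TH Defs: symmetric differentials on a projective surface

`X` is the cone (without `0`) of a smooth projective surface.  A symmetric differential of degree `m` is a holomorphic function on the
tangent bundle which is homogeneous of degree `m` on the tangent spaces, here in the language of the cone (as `Form` in `H14/PP/Defs.lean`).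
-/

set_option autoImplicit false

open Topology Filter Metric

namespace Pool.Agent.H92.TH

open Pool.Agent.H36.BP (EN fs wd)
open Pool.Agent.H14.PP (IsCone Tan)

variable {N : ℕ}

/-- A symmetric differential of degree `m` on the surface whose cone is `X`. -/
structure SymDiff (X : Set (EN N)) (m : ℕ) where
  /-- the differential -/
  toFun : EN N → EN N → ℂ
  add_smul : ∀ x ∈ X, ∀ v, Tan X x v → ∀ a : ℂ, toFun x (v + a • x) = toFun x v
  smul : ∀ x ∈ X, ∀ v, Tan X x v → ∀ a : ℂ, toFun x (a • v) = a ^ m * toFun x v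
  scale : ∀ x ∈ X, ∀ v, Tan X x v → ∀ c : ℂ, c ≠ 0 → toFun (c • x) (c • v) = toFun x v
  analytic : ∀ (φ : ℂ × ℂ → EN N) (p w : ℂ × ℂ), AnalyticAt ℂ φ p → (∀ᶠ y in 𝓝 p, φ y ∈ X) →
    AnalyticAt ℂ (fun y : (ℂ × ℂ) × (ℂ × ℂ) => toFun (φ y.1) (fderiv ℂ φ y.1 y.2)) (p, w)

end Pool.Agent.H92.TH

end

section

/-!
# MQ/Ibp: integration by parts on `ℂ`

`dx u`, `dy u` are the partial derivatives, `lap` the Laplacian, `dot`/`jac` the scalar product and the Jacobian of two gradients.
-/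

set_option autoImplicit false

open MeasureTheory Topology Filter Set

noncomputable section

namespace Pool.Agent.MQ

/-- `∂u/∂x` -/
def dx (u : ℂ → ℝ) (z : ℂ) : ℝ := fderiv ℝ u z 1

/-- `∂u/∂y` -/
def dy (u : ℂ → ℝ) (z : ℂ) : ℝ := fderiv ℝ u z Complex.I

/-! ## continuity of products with a compactly supported function -/

/-! ## integration by parts -/

/-! ## Jacobians -/

/-- mixed partial derivatives commute -/
theorem dx_dy_comm {b : ℂ → ℝ} {z : ℂ} (hb : ContDiffAt ℝ 2 b z) : dx (dy b) z = dy (dx b) z := by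
  have hs : IsSymmSndFDerivAt ℝ b z := hb.isSymmSndFDerivAt (by simp)
  have hd : DifferentiableAt ℝ (fderiv ℝ b) z := (hb.fderiv_right (m := 1) (by norm_num)).differentiableAt one_ne_zero
  have e : ∀ v w : ℂ, fderiv ℝ (fun y => fderiv ℝ b y v) z w = fderiv ℝ (fderiv ℝ b) z w v := by
    intro v w
    rw [fderiv_clm_apply hd (differentiableAt_const _)]
    simp
  change fderiv ℝ (fun y => fderiv ℝ b y Complex.I) z 1 = fderiv ℝ (fun y => fderiv ℝ b y 1) z Complex.I
  rw [e, e]
  exact hs.eq _ _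

end Pool.Agent.MQ

end
end

section

/-!
# MQ2 Energy: the energy of one blow-up

`p` is a holomorphic map to `ℂ × ℂ`, `[p]` the map to the projective line; near `p = 0` the energy of `[p]` is bounded by the energy of `p` and a constant.
-/

set_option autoImplicit false

open MeasureTheory Topology Filter Metric Laplacian

noncomputable section

namespace Pool.Agent.MQ2

open Pool.Agent.H36.BP (EN fs wd)

/-! ## the projective line -/

/-- `ℂ × ℂ` with the Euclidean norm -/
def embL : ℂ × ℂ →L[ℂ] EN 1 :=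
  (ContinuousLinearMap.fst ℂ ℂ ℂ).smulRight (EuclideanSpace.single (0 : Fin (1 + 1)) (1 : ℂ)) +
    (ContinuousLinearMap.snd ℂ ℂ ℂ).smulRight (EuclideanSpace.single (1 : Fin (1 + 1)) (1 : ℂ))

theorem embL_zero (q : ℂ × ℂ) : embL q (0 : Fin (1 + 1)) = q.1 := by
  simp [embL]

theorem embL_one (q : ℂ × ℂ) : embL q (1 : Fin (1 + 1)) = q.2 := by
  simp [embL]

theorem norm_embL_sq (q : ℂ × ℂ) : ‖embL q‖ ^ 2 = ‖q.1‖ ^ 2 + ‖q.2‖ ^ 2 := by
  rw [EuclideanSpace.norm_sq_eq]
  have : (∑ i : Fin (1 + 1), ‖embL q i‖ ^ 2) = ‖embL q (0 : Fin (1 + 1))‖ ^ 2 + ‖embL q (1 : Fin (1 + 1))‖ ^ 2 := Fin.sum_univ_two _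
  rw [this, embL_zero, embL_one]

theorem inner_embL (q w : ℂ × ℂ) : inner ℂ (embL q) (embL w) = (starRingEnd ℂ) q.1 * w.1 + (starRingEnd ℂ) q.2 * w.2 := by
  rw [PiLp.inner_apply]
  have : (∑ i : Fin (1 + 1), inner ℂ (embL q i) (embL w i)) =
    inner ℂ (embL q (0 : Fin (1 + 1))) (embL w (0 : Fin (1 + 1))) + inner ℂ (embL q (1 : Fin (1 + 1))) (embL w (1 : Fin (1 + 1))) := Fin.sum_univ_two _
  rw [this, embL_zero, embL_one, embL_zero, embL_one]
  simp only [RCLike.inner_apply]
  ring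

theorem le_norm_embL (q : ℂ × ℂ) : ‖q‖ ≤ ‖embL q‖ := by
  refine abs_le_of_sq_le_sq' ?_ (norm_nonneg _) |>.2
  rw [norm_embL_sq, Prod.norm_def]
  rcases max_cases ‖q.1‖ ‖q.2‖ with h | h
  · rw [h.1]; nlinarith [norm_nonneg q.2]
  · rw [h.1]; nlinarith [norm_nonneg q.1]

theorem norm_embL_le (q : ℂ × ℂ) : ‖embL q‖ ≤ 2 * ‖q‖ := by
  refine abs_le_of_sq_le_sq' ?_ (by positivity) |>.2
  rw [norm_embL_sq]
  have h1 := norm_fst_le q
  have h2 := norm_snd_le q
  nlinarith [norm_nonneg q.1, norm_nonneg q.2, norm_nonneg q]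

theorem embL_ne {q : ℂ × ℂ} (h : q ≠ 0) : embL q ≠ 0 := by
  rw [← norm_pos_iff] at h ⊢
  exact h.trans_le (le_norm_embL q)

/-! ## the density -/

theorem fs_nonneg' {M : ℕ} (x v : EN M) : 0 ≤ fs x v := by
  unfold fs wd
  positivity

theorem fs_le {M : ℕ} (x v : EN M) : fs x v ≤ ‖v‖ / ‖x‖ := by
  by_cases hx : x = 0
  · simp [fs, hx]
  have hx0 : 0 < ‖x‖ := norm_pos_iff.2 hx
  have h1 : wd x v ≤ ‖x‖ * ‖v‖ := by
    unfold wd
    refine Real.sqrt_le_iff.2 ⟨by positivity, ?_⟩
    have := sq_nonneg ‖inner ℂ x v‖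
    nlinarith
  unfold fs
  rw [div_le_div_iff₀ (by positivity) hx0]
  calc wd x v * ‖x‖ ≤ ‖x‖ * ‖v‖ * ‖x‖ := mul_le_mul_of_nonneg_right h1 hx0.le
    _ = ‖v‖ * ‖x‖ ^ 2 := by ring

/-! ## the extended density -/

/-! ## the potential -/

/-! ## the energy -/

/-- a cut-off function -/
def bb (r₁ : ℝ) (q : ℂ × ℂ) : ℝ := max 0 (min 1 (2 - ‖q‖ / r₁))

theorem continuous_bb (r₁ : ℝ) : Continuous (bb r₁) := by
  unfold bb
  fun_prop

theorem bb_nonneg (r₁ : ℝ) (q : ℂ × ℂ) : 0 ≤ bb r₁ q := le_max_left _ _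

theorem bb_le_one (r₁ : ℝ) (q : ℂ × ℂ) : bb r₁ q ≤ 1 := max_le zero_le_one (min_le_left _ _)

theorem bb_one {r₁ : ℝ} (hr : 0 < r₁) {q : ℂ × ℂ} (h : ‖q‖ ≤ r₁) : bb r₁ q = 1 := by
  unfold bb
  have h1 : ‖q‖ / r₁ ≤ 1 := (div_le_one hr).2 h
  rw [min_eq_left (by linarith), max_eq_right zero_le_one]

theorem bb_zero {r₁ : ℝ} (hr : 0 < r₁) {q : ℂ × ℂ} (h : 2 * r₁ ≤ ‖q‖) : bb r₁ q = 0 := by
  unfold bb
  have h1 : 2 ≤ ‖q‖ / r₁ := (le_div_iff₀ hr).2 h
  exact max_eq_left ((min_le_right _ _).trans (by linarith))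

theorem deriv_embL {p : ℂ → ℂ × ℂ} {z : ℂ} (hp : DifferentiableAt ℂ p z) : deriv (fun w => embL (p w)) z = embL (deriv p z) :=
  (embL.hasFDerivAt.comp_hasDerivAt z hp.hasDerivAt).deriv

theorem an_embL {p : ℂ → ℂ × ℂ} {z : ℂ} (hp : AnalyticAt ℂ p z) : AnalyticAt ℂ (fun w => embL (p w)) z :=
  (embL.analyticAt _).comp hp

end Pool.Agent.MQ2

end
end

section

/-!
# MQ2 SlopeD: the slope of a curve, the part of the curve in a chart of the blow-up
-/

set_option autoImplicit false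

open Topology Filter Metric MeasureTheory Asymptotics Laplacian

noncomputable section

namespace Pool.Agent.MQ2

/-- the quotient `y / x` is holomorphic at `z` -/
def HasSlope (p : ℂ → ℂ × ℂ) (z : ℂ) : Prop :=
  (∃ᶠ w in 𝓝 z, (p w).1 ≠ 0) ∧ ∃ f : ℂ → ℂ, AnalyticAt ℂ f z ∧ ∀ᶠ w in 𝓝 z, (p w).2 = (p w).1 * f w

open Classical in
/-- the quotient `y / x` -/
def slope (p : ℂ → ℂ × ℂ) (z : ℂ) : ℂ := if h : HasSlope p z then h.2.choose z else 0

/-- the part of `Om` in the chart at the direction `t` -/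
def Omt (Om : Set ℂ) (p : ℂ → ℂ × ℂ) (t : ℂ) (ρ : ℝ) : Set ℂ := {z | z ∈ Om ∧ HasSlope p z ∧ ‖(p z).1‖ < ρ ∧ ‖slope p z - t‖ < ρ}

/-- the curve in the chart -/
def pt (t : ℂ) (p : ℂ → ℂ × ℂ) (z : ℂ) : ℂ × ℂ := ((p z).1, slope p z - t)

end Pool.Agent.MQ2

end
end

section

/-!
Monomial charts over a normal crossing point of the discriminant of a web:
the roots live on the product of two left half planes.
-/

namespace Pool.Agent.MQ3

open Complex Set Filter Topology

/-- The monomial map. -/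
def mono (w w' : ℕ × ℕ) (q : ℂ × ℂ) : ℂ × ℂ :=
  (q.1 ^ w.1 * q.2 ^ w'.1, q.1 ^ w.2 * q.2 ^ w'.2)

end Pool.Agent.MQ3

end

section

/-!
# TG Rm: Riemann's extension theorem

`riemann_ext`: `h` analytic at `y₀`, not locally zero, `f` analytic and bounded off `{h = 0}` near `y₀`: `f` extends holomorphically to `y₀` (values in `EN N`).
Proof: choose `e` with `h (y₀ + t e) ≠ 0` on a circle; the extension is the mean value of `f (y + t e)` on the circle (in one variable the
singularities are removable).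
-/

set_option autoImplicit false

open Topology Filter Metric

namespace Pool.Agent.TG

variable {N : ℕ} {E : Type} [NormedAddCommGroup E] [NormedSpace ℂ E]

theorem rem_disc {U : Set ℂ} (hU : IsOpen U) (hUc : IsPreconnected U) {h f : ℂ → ℂ} (hh : ∀ z ∈ U, AnalyticAt ℂ h z) {z₁ : ℂ} (hz₁ : z₁ ∈ U)
    (hne : h z₁ ≠ 0) (hf : ∀ z ∈ U, h z ≠ 0 → DifferentiableAt ℂ f z) {M : ℝ} (hM : ∀ z ∈ U, h z ≠ 0 → ‖f z‖ ≤ M) :
    ∃ g : ℂ → ℂ, DifferentiableOn ℂ g U ∧ ∀ z ∈ U, h z ≠ 0 → g z = f z := by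
  classical
  refine ⟨fun z => if h z = 0 then limUnder (𝓝[≠] z) f else f z, fun z₀ hz₀ => ?_, fun z hz h0 => by simp [h0]⟩
  refine DifferentiableAt.differentiableWithinAt ?_
  by_cases h0 : h z₀ = 0
  · have hiso : ∀ᶠ z in 𝓝[≠] z₀, h z ≠ 0 := by
      rcases (hh z₀ hz₀).eventually_eq_zero_or_eventually_ne_zero with h1 | h1
      · exact absurd (AnalyticOnNhd.eqOn_zero_of_preconnected_of_eventuallyEq_zero (fun z hz => hh z hz) hUc hz₀ h1 hz₁) hne
      · exact h1
    rw [eventually_nhdsWithin_iff] at hiso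
    obtain ⟨r, hr, hb⟩ := Metric.eventually_nhds_iff_ball.mp (hiso.and (hU.mem_nhds hz₀))
    have hd : DifferentiableOn ℂ f (ball z₀ r \ {z₀}) := fun z hz =>
      (hf z (hb z hz.1).2 ((hb z hz.1).1 hz.2)).differentiableWithinAt
    have hbd : BddAbove (norm ∘ f '' (ball z₀ r \ {z₀})) := by
      refine ⟨M, ?_⟩
      rintro _ ⟨z, hz, rfl⟩
      exact hM z (hb z hz.1).2 ((hb z hz.1).1 hz.2)
    have h2 := Complex.differentiableOn_update_limUnder_of_bddAbove (ball_mem_nhds z₀ hr) hd hbd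
    have h3 := h2.differentiableAt (ball_mem_nhds z₀ hr)
    refine h3.congr_of_eventuallyEq ?_
    filter_upwards [ball_mem_nhds z₀ hr] with z hz
    by_cases e : z = z₀
    · subst e
      simp [h0]
    · rw [Function.update_of_ne e]
      simp [(hb z hz).1 e]
  · refine (hf z₀ hz₀ h0).congr_of_eventuallyEq ?_
    filter_upwards [(hh z₀ hz₀).continuousAt.eventually_ne h0] with z hz
    simp [hz]

theorem riemann_one [FiniteDimensional ℂ E] {h f : E → ℂ} {y₀ : E} (hh : AnalyticAt ℂ h y₀) (hne : ¬ ∀ᶠ y in 𝓝 y₀, h y = 0)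
    (hf : ∀ᶠ y in 𝓝 y₀, h y ≠ 0 → AnalyticAt ℂ f y) {M : ℝ} (hM : ∀ᶠ y in 𝓝 y₀, h y ≠ 0 → ‖f y‖ ≤ M) :
    ∃ φ : E → ℂ, AnalyticAt ℂ φ y₀ ∧ ∀ᶠ y in 𝓝 y₀, h y ≠ 0 → φ y = f y := by
  obtain ⟨r, hr, hb⟩ := Metric.eventually_nhds_iff_ball.mp ((hh.eventually_analyticAt.and hf).and hM)
  obtain ⟨y₁, hy₁, hne₁⟩ : ∃ y₁ ∈ ball y₀ (r / 4), h y₁ ≠ 0 := by
    by_contra hcon
    push Not at hcon
    exact hne (Filter.eventually_of_mem (ball_mem_nhds y₀ (by positivity)) hcon)
  set e : E := y₁ - y₀ with he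
  have hen : ‖e‖ < r / 4 := by
    rw [he, ← dist_eq_norm]
    exact hy₁
  have hmem : ∀ y ∈ ball y₀ (r / 4), ∀ z ∈ ball (0 : ℂ) 2, y + z • e ∈ ball y₀ r := by
    intro y hy z hz
    rw [mem_ball, dist_eq_norm] at hy ⊢
    rw [mem_ball_zero_iff] at hz
    have h1 : y + z • e - y₀ = (y - y₀) + z • e := by abel
    rw [h1]
    have h2 : ‖z • e‖ ≤ 2 * (r / 4) := by
      rw [norm_smul]
      exact mul_le_mul hz.le hen.le (norm_nonneg _) (by norm_num)
    linarith [norm_add_le (y - y₀) (z • e)]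
  have hline : ∀ y ∈ ball y₀ (r / 4), ∀ z ∈ ball (0 : ℂ) 2, AnalyticAt ℂ (fun z : ℂ => h (y + z • e)) z := by
    intro y hy z hz
    refine AnalyticAt.fun_comp (hb _ (hmem y hy z hz)).1.1 ?_
    exact analyticAt_const.add (analyticAt_id.smul analyticAt_const)
  have h0m : y₀ ∈ ball y₀ (r / 4) := mem_ball_self (by positivity)
  have hiso : ∀ᶠ z in 𝓝[≠] (0 : ℂ), h (y₀ + z • e) ≠ 0 := by
    rcases (hline y₀ h0m 0 (mem_ball_self (by norm_num))).eventually_eq_zero_or_eventually_ne_zero with h1 | h1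
    · exfalso
      have h2 := AnalyticOnNhd.eqOn_zero_of_preconnected_of_eventuallyEq_zero (U := ball (0 : ℂ) 2) (fun z hz => hline y₀ h0m z hz)
        (convex_ball _ _).isPreconnected (mem_ball_self (by norm_num)) h1 (show (1 : ℂ) ∈ ball (0 : ℂ) 2 by simp)
      refine hne₁ ?_
      have h3 : y₀ + (1 : ℂ) • e = y₁ := by
        rw [one_smul, he]
        abel
      rw [← h3]
      exact h2
    · exact h1
  rw [eventually_nhdsWithin_iff] at hiso
  obtain ⟨s₀, hs₀, hs₀b⟩ := Metric.eventually_nhds_iff_ball.mp hiso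
  set s : ℝ := min (s₀ / 2) 1 with hs
  have hs0 : 0 < s := lt_min (by positivity) one_pos
  have hs1 : s ≤ 1 := min_le_right _ _
  have hss : s < s₀ := lt_of_le_of_lt (min_le_left _ _) (by linarith)
  have hsph : ∀ t ∈ sphere (0 : ℂ) s, t ≠ 0 ∧ t ∈ ball (0 : ℂ) 2 ∧ h (y₀ + t • e) ≠ 0 := by
    intro t ht
    rw [mem_sphere_zero_iff_norm] at ht
    have ht0 : t ≠ 0 := by
      rw [← norm_pos_iff, ht]
      exact hs0
    refine ⟨ht0, ?_, ?_⟩
    · rw [mem_ball_zero_iff, ht]
      linarith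
    · refine hs₀b t ?_ ht0
      rw [mem_ball_zero_iff, ht]
      exact hss
  have hcirc : ∀ᶠ y in 𝓝 y₀, ∀ t ∈ sphere (0 : ℂ) s, h (y + t • e) ≠ 0 := by
    refine (isCompact_sphere (0 : ℂ) s).eventually_forall_of_forall_eventually fun t ht => ?_
    have hc : ContinuousAt (fun p : E × ℂ => h (p.1 + p.2 • e)) (y₀, t) := by
      have h1 : ContinuousAt h (y₀ + t • e) := (hb _ (hmem y₀ h0m t (hsph t ht).2.1)).1.1.continuousAt
      have h2 : ContinuousAt (fun p : E × ℂ => p.1 + p.2 • e) (y₀, t) := by fun_prop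
      exact ContinuousAt.comp (f := fun p : E × ℂ => p.1 + p.2 • e) (g := h) h1 h2
    exact hc.eventually_ne (hsph t ht).2.2
  refine ⟨fun y => (2 * Real.pi * Complex.I : ℂ)⁻¹ * ∮ t in C(0, s), t⁻¹ * f (y + t • e), ?_, ?_⟩
  · refine analyticAt_const.mul ?_
    refine Pool.Agent.H22.HF.analyticAt_circleIntegral (F := fun p : E × ℂ => p.2⁻¹ * f (p.1 + p.2 • e)) hs0 fun t ht => ?_
    obtain ⟨ht0, ht2, htn⟩ := hsph t ht
    refine AnalyticAt.mul ?_ ?_
    · exact (analyticAt_snd (𝕜 := ℂ) (p := (y₀, t))).inv ht0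
    · refine AnalyticAt.fun_comp (g := f) (f := fun p : E × ℂ => p.1 + p.2 • e) ((hb _ (hmem y₀ h0m t ht2)).1.2 htn) ?_
      exact analyticAt_fst.add (analyticAt_snd.smul analyticAt_const)
  · filter_upwards [hcirc, ball_mem_nhds y₀ (show 0 < r / 4 by positivity)] with y hy hyb hy0
    have hs2 : (s : ℂ) ∈ sphere (0 : ℂ) s := by
      rw [mem_sphere_zero_iff_norm, Complex.norm_real, Real.norm_of_nonneg hs0.le]
    obtain ⟨g, hg1, hg2⟩ := rem_disc (U := ball (0 : ℂ) 2) (h := fun z : ℂ => h (y + z • e)) (f := fun z : ℂ => f (y + z • e)) isOpen_ball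
      (convex_ball _ _).isPreconnected (fun z hz => hline y hyb z hz) (hsph s hs2).2.1 (hy s hs2)
      (fun z hz hn => by
        have h1 := ((hb _ (hmem y hyb z hz)).1.2 hn).differentiableAt
        have h2 : DifferentiableAt ℂ (fun z : ℂ => y + z • e) z := by fun_prop
        exact DifferentiableAt.comp (g := f) (f := fun z : ℂ => y + z • e) z h1 h2)
      (fun z hz hn => (hb _ (hmem y hyb z hz)).2 hn)
    have h3 : (∮ t in C(0, s), t⁻¹ * f (y + t • e)) = ∮ t in C(0, s), (t - 0)⁻¹ • g t := by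
      refine circleIntegral.integral_congr hs0.le fun t ht => ?_
      simp only [sub_zero, smul_eq_mul]
      rw [hg2 t (hsph t ht).2.1 (hy t ht)]
    have h4 := DifferentiableOn.circleIntegral_sub_inv_smul (f := g) (c := (0 : ℂ)) (R := s)
      (hg1.mono (closedBall_subset_ball (by linarith))) (mem_ball_self hs0)
    have h5 : g 0 = f y := by
      have := hg2 0 (mem_ball_self (by norm_num)) (by simpa using hy0)
      simpa using this
    show (2 * Real.pi * Complex.I : ℂ)⁻¹ * (∮ t in C(0, s), t⁻¹ * f (y + t • e)) = f y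
    rw [h3, h4, h5, smul_eq_mul, ← mul_assoc, inv_mul_cancel₀ Complex.two_pi_I_ne_zero, one_mul]

end Pool.Agent.TG

end
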