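import Mathlib

/-! The parts of this file: H13.SM.Surf, H17.LinePoly, H17.Montel, H36.BP.CirA, H68.KR.T1, H92.GT.Index, MQ.Frame. -/

section

/-!
# The cone of a smooth projective surface is a `Surface`

`IsChart` and `Surface` are the definitions of `Pool.Agent.H17BP.Surf`.
-/

open MvPolynomial Topology Filter

noncomputable section

namespace Pool.Agent.H13.SM

variable {N : ℕ} {P : Ideal (MvPolynomial (Fin (N + 1)) ℂ)}

/-- The affine cone of `P` without its vertex. -/
def cone (P : Ideal (MvPolynomial (Fin (N + 1)) ℂ)) : Set (Fin (N + 1) → ℂ) :=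
  {x | x ≠ 0 ∧ ∀ Q ∈ P, eval x Q = 0}

end Pool.Agent.H13.SM

end
end

section

/-!
# Restriction of a polynomial to the lines through a point
-/

open MvPolynomial

namespace Pool.Agent.H17

variable {σ : Type}

/-- Evaluation of a homogeneous polynomial at a multiple of a vector. -/
lemma eval_smul_of_isHomogeneous {P : MvPolynomial σ ℂ} {d : ℕ} (hP : P.IsHomogeneous d)
    (c : ℂ) (x : σ → ℂ) : eval (fun i => c * x i) P = c ^ d * eval x P := by
  classical
  rw [eval_eq, eval_eq, Finset.mul_sum]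
  refine Finset.sum_congr rfl ?_
  intro m hm
  have hdeg : m.degree = d := by
    by_contra hne
    exact (mem_support_iff.mp hm) (hP.coeff_eq_zero hne)
  have : ∏ i ∈ m.support, (c * x i) ^ m i = c ^ d * ∏ i ∈ m.support, x i ^ m i := by
    simp_rw [mul_pow]
    rw [Finset.prod_mul_distrib, Finset.prod_pow_eq_pow_sum]
    congr 2
  rw [this]
  ring

end Pool.Agent.H17

end

section

/-!
# Limits of bounded holomorphic functions along an ultrafilter
-/

open Topology Filter

namespace Pool.Agent.H17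

variable {E : Type} [NormedAddCommGroup E] [NormedSpace ℂ E] [ProperSpace E] [CompleteSpace E]

omit [ProperSpace E] [CompleteSpace E] in
/-- A bounded holomorphic function is Lipschitz on smaller discs. -/
lemma lipschitz_of_bounded {F : ℂ → E} {a : ℂ} {r B : ℝ}
    (hF : DifferentiableOn ℂ F (Metric.ball a r)) (hB : ∀ z ∈ Metric.ball a r, ‖F z‖ ≤ B)
    {z₀ : ℂ} {ρ : ℝ} (hρ : 0 < ρ) (hz₀ : Metric.ball z₀ (2 * ρ) ⊆ Metric.ball a r)
    {z w : ℂ} (hz : z ∈ Metric.ball z₀ ρ) (hw : w ∈ Metric.ball z₀ ρ) :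
    ‖F w - F z‖ ≤ B / (ρ / 2) * ‖w - z‖ := by
  have hsub : ∀ y ∈ Metric.ball z₀ ρ, Metric.closedBall y (ρ / 2) ⊆ Metric.ball a r := by
    intro y hy x hx
    apply hz₀
    rw [Metric.mem_ball] at hy ⊢
    rw [Metric.mem_closedBall] at hx
    calc dist x z₀ ≤ dist x y + dist y z₀ := dist_triangle _ _ _
      _ < 2 * ρ := by linarith
  refine Convex.norm_image_sub_le_of_norm_deriv_le (s := Metric.ball z₀ ρ) ?_ ?_
    (convex_ball z₀ ρ) hz hw
  · intro y hy
    have h1 : y ∈ Metric.ball a r := hsub y hy (Metric.mem_closedBall_self (by positivity))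
    exact (hF y h1).differentiableAt (Metric.isOpen_ball.mem_nhds h1)
  · intro y hy
    refine Complex.norm_deriv_le_of_forall_mem_sphere_norm_le (by positivity) ?_ ?_
    · apply DifferentiableOn.diffContOnCl
      refine hF.mono ?_
      exact (Metric.closure_ball_subset_closedBall).trans (hsub y hy)
    · intro x hx
      exact hB x (hsub y hy (Metric.sphere_subset_closedBall hx))

/-- **Montel's theorem along an ultrafilter.** -/
theorem montel_ultrafilter {κ : Type*} (𝒰 : Ultrafilter κ) {F : κ → ℂ → E} {a : ℂ} {r B : ℝ}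
    (h1 : ∀ᶠ k in (𝒰 : Filter κ), DifferentiableOn ℂ (F k) (Metric.ball a r))
    (h2 : ∀ᶠ k in (𝒰 : Filter κ), ∀ z ∈ Metric.ball a r, ‖F k z‖ ≤ B) :
    ∃ h : ℂ → E, DifferentiableOn ℂ h (Metric.ball a r) ∧
      TendstoLocallyUniformlyOn F h (𝒰 : Filter κ) (Metric.ball a r) := by
  classical
  have hlim : ∀ z, ∃ l : E, z ∈ Metric.ball a r → Tendsto (fun k => F k z) (𝒰 : Filter κ) (𝓝 l) := by
    intro z
    by_cases hz : z ∈ Metric.ball a r
    · have h3 : ∀ᶠ k in (𝒰 : Filter κ), F k z ∈ Metric.closedBall (0 : E) B := by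
        filter_upwards [h2] with k hk
        rw [mem_closedBall_zero_iff]
        exact hk z hz
      obtain ⟨l, -, hl⟩ := (isCompact_closedBall (0 : E) B).ultrafilter_le_nhds
        (𝒰.map fun k => F k z) (by
          rw [le_principal_iff]
          exact h3)
      exact ⟨l, fun _ => hl⟩
    · exact ⟨0, fun h => absurd h hz⟩
  choose h hh using hlim
  have hconv : TendstoLocallyUniformlyOn F h (𝒰 : Filter κ) (Metric.ball a r) := by
    rw [Metric.tendstoLocallyUniformlyOn_iff]
    intro ε hε z₀ hz₀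
    have hrz : dist z₀ a < r := hz₀
    set ρ : ℝ := (r - dist z₀ a) / 2 with hρ
    have hρpos : 0 < ρ := by rw [hρ]; linarith
    have hsub : Metric.ball z₀ (2 * ρ) ⊆ Metric.ball a r := by
      apply Metric.ball_subset_ball'
      rw [hρ]
      linarith
    set L : ℝ := |B| / (ρ / 2) + 1 with hL
    have hLpos : 0 < L := by positivity
    set η : ℝ := min ρ (ε / (4 * L)) with hη
    have hηpos : 0 < η := by positivity
    have hηρ : η ≤ ρ := min_le_left _ _
    have hηε : L * η ≤ ε / 4 := by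
      have : η ≤ ε / (4 * L) := min_le_right _ _
      calc L * η ≤ L * (ε / (4 * L)) := by gcongr
        _ = ε / 4 := by field_simp
    have hlip : ∀ᶠ k in (𝒰 : Filter κ), ∀ z ∈ Metric.ball z₀ η, ‖F k z - F k z₀‖ ≤ ε / 4 := by
      filter_upwards [h1, h2] with k hk1 hk2 z hz
      have h3 := lipschitz_of_bounded hk1 hk2 hρpos hsub (Metric.mem_ball_self hρpos)
        (Metric.ball_subset_ball hηρ hz)
      have h4 : ‖z - z₀‖ ≤ η := by
        rw [← dist_eq_norm]
        exact (Metric.mem_ball.mp hz).le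
      calc ‖F k z - F k z₀‖ ≤ B / (ρ / 2) * ‖z - z₀‖ := h3
        _ ≤ L * η := by
          have h5 : B / (ρ / 2) ≤ L := by
            have : B / (ρ / 2) ≤ |B| / (ρ / 2) := by
              gcongr
              exact le_abs_self B
            linarith
          calc B / (ρ / 2) * ‖z - z₀‖ ≤ L * ‖z - z₀‖ := by gcongr
            _ ≤ L * η := by gcongr
        _ ≤ ε / 4 := hηε
    refine ⟨Metric.ball z₀ η, mem_nhdsWithin_of_mem_nhds (Metric.ball_mem_nhds z₀ hηpos), ?_⟩
    have hlimlip : ∀ z ∈ Metric.ball z₀ η, ‖h z - h z₀‖ ≤ ε / 4 := by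
      intro z hz
      have hza : z ∈ Metric.ball a r := hsub (Metric.ball_subset_ball (by linarith) hz)
      have h3 : Tendsto (fun k => ‖F k z - F k z₀‖) (𝒰 : Filter κ) (𝓝 ‖h z - h z₀‖) :=
        ((hh z hza).sub (hh z₀ hz₀)).norm
      exact le_of_tendsto h3 (hlip.mono fun k hk => hk z hz)
    have hz₀lim : ∀ᶠ k in (𝒰 : Filter κ), ‖F k z₀ - h z₀‖ < ε / 4 := by
      have h3 := hh z₀ hz₀
      rw [Metric.tendsto_nhds] at h3
      filter_upwards [h3 (ε / 4) (by positivity)] with k hk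
      rwa [dist_eq_norm] at hk
    filter_upwards [hlip, hz₀lim] with k hk1 hk2 z hz
    rw [dist_eq_norm]
    have e : h z - F k z = (h z - h z₀) - (F k z₀ - h z₀) - (F k z - F k z₀) := by abel
    rw [e]
    calc ‖(h z - h z₀) - (F k z₀ - h z₀) - (F k z - F k z₀)‖
        ≤ ‖(h z - h z₀) - (F k z₀ - h z₀)‖ + ‖F k z - F k z₀‖ := norm_sub_le _ _
      _ ≤ ‖h z - h z₀‖ + ‖F k z₀ - h z₀‖ + ‖F k z - F k z₀‖ := by
        gcongr
        exact norm_sub_le _ _
      _ < ε := by
        have := hlimlip z hz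
        have := hk1 z hz
        linarith
  refine ⟨h, ?_, hconv⟩
  exact hconv.differentiableOn h1 Metric.isOpen_ball

end Pool.Agent.H17

end

section

/-!
# BP CirA: approximation on one circle

Trigonometric polynomials are dense in the continuous functions on the circle (`span_fourier_closure_eq_top`, or Stone-Weierstrass on the compact set
`sphere 0 R` with the star subalgebra generated by `z`: on the circle `conj z = R²/z`).  A real continuous function is within `ε` of `Re P`, `P = ∑_{|n| ≤ m} c_n z^n`, and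
`Re(c_(-n) z^(-n)) = Re(conj(c_(-n)) R^(-2n) z^n)` on the circle, so `P` can be taken to be a polynomial.
`trig_approx`: the form needed for the annulus: finitely many coefficients `c 0, ..., c m`, `|φ(R e^(iθ)) - Re ∑ c_n e^(inθ)| ≤ ε`.
-/

set_option autoImplicit false

namespace Pool.Agent.H36.BP

open Filter Topology Metric

variable {N : ℕ}

private theorem CirA_span (g : C(AddCircle (2 * Real.pi), ℂ)) (hg : g ∈ Submodule.span ℂ (Set.range (@fourier (2 * Real.pi)))) :
    ∀ a : ℂ, ∃ p : Polynomial ℂ, ∀ θ : ℝ, (a * g (θ : AddCircle (2 * Real.pi))).re = (p.eval (Complex.exp (θ * Complex.I))).re := by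
  induction hg using Submodule.span_induction with
  | mem x hx =>
    intro a
    obtain ⟨k, rfl⟩ := hx
    have hpi : (Real.pi : ℂ) ≠ 0 := by exact_mod_cast Real.pi_ne_zero
    have hval : ∀ θ : ℝ, (fourier k (θ : AddCircle (2 * Real.pi)) : ℂ) = Complex.exp (k * (θ * Complex.I)) := by
      intro θ
      rw [fourier_coe_apply]
      congr 1
      push_cast
      field_simp
    rcases Int.eq_nat_or_neg k with ⟨n, rfl | rfl⟩
    · refine ⟨Polynomial.C a * Polynomial.X ^ n, fun θ => ?_⟩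
      rw [hval]
      simp only [Polynomial.eval_mul, Polynomial.eval_C, Polynomial.eval_pow, Polynomial.eval_X]
      rw [← Complex.exp_nat_mul]
      push_cast
      rfl
    · refine ⟨Polynomial.C ((starRingEnd ℂ) a) * Polynomial.X ^ n, fun θ => ?_⟩
      rw [hval]
      simp only [Polynomial.eval_mul, Polynomial.eval_C, Polynomial.eval_pow, Polynomial.eval_X]
      rw [← Complex.exp_nat_mul]
      rw [← Complex.conj_re (a * _), map_mul, ← Complex.exp_conj]
      congr 3
      simp [Complex.conj_ofReal]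
  | zero =>
    intro a
    exact ⟨0, fun θ => by simp⟩
  | add x y _ _ hx hy =>
    intro a
    obtain ⟨p, hp⟩ := hx a
    obtain ⟨q, hq⟩ := hy a
    refine ⟨p + q, fun θ => ?_⟩
    rw [ContinuousMap.add_apply, mul_add, Complex.add_re, hp, hq, Polynomial.eval_add, Complex.add_re]
  | smul b x _ hx =>
    intro a
    obtain ⟨p, hp⟩ := hx (a * b)
    refine ⟨p, fun θ => ?_⟩
    rw [← hp, ContinuousMap.smul_apply, smul_eq_mul, mul_assoc]

theorem trig_approx (φ : ℝ → ℝ) (hφ : Continuous φ) (hper : ∀ θ, φ (θ + 2 * Real.pi) = φ θ) {ε : ℝ} (hε : 0 < ε) :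
    ∃ (m : ℕ) (c : ℕ → ℂ), ∀ θ : ℝ, |φ θ - (∑ n ∈ Finset.range (m + 1), c n * Complex.exp (n * (θ * Complex.I))).re| ≤ ε := by
  have : Fact (0 < 2 * Real.pi) := ⟨Real.two_pi_pos⟩
  have hP : Function.Periodic φ (2 * Real.pi) := hper
  have hcont : Continuous (hP.lift) := by
    exact continuous_coinduced_dom.mpr hφ
  let F : C(AddCircle (2 * Real.pi), ℂ) := ⟨fun x => ((hP.lift x : ℝ) : ℂ), Complex.continuous_ofReal.comp hcont⟩
  have hF : F ∈ (Submodule.span ℂ (Set.range (@fourier (2 * Real.pi)))).topologicalClosure := by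
    rw [span_fourier_closure_eq_top]
    trivial
  have hF2 : F ∈ closure ((Submodule.span ℂ (Set.range (@fourier (2 * Real.pi))) : Submodule ℂ C(AddCircle (2 * Real.pi), ℂ)) : Set C(AddCircle (2 * Real.pi), ℂ)) := hF
  obtain ⟨g, hg, hgd⟩ := Metric.mem_closure_iff.mp hF2 ε hε
  obtain ⟨p, hp⟩ := CirA_span g hg 1
  refine ⟨p.natDegree, p.coeff, fun θ => ?_⟩
  have h1 : (∑ n ∈ Finset.range (p.natDegree + 1), p.coeff n * Complex.exp (n * (θ * Complex.I))) = p.eval (Complex.exp (θ * Complex.I)) := by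
    rw [Polynomial.eval_eq_sum_range]
    refine Finset.sum_congr rfl fun n _ => ?_
    rw [← Complex.exp_nat_mul]
  rw [h1, ← hp θ, one_mul]
  have h2 : ‖(F - g) (θ : AddCircle (2 * Real.pi))‖ ≤ ε := by
    refine le_trans (ContinuousMap.norm_coe_le_norm _ _) ?_
    rw [← dist_eq_norm]
    exact hgd.le
  have h3 : φ θ - (g (θ : AddCircle (2 * Real.pi))).re = ((F - g) (θ : AddCircle (2 * Real.pi))).re := by
    rw [ContinuousMap.sub_apply, Complex.sub_re]
    have h4 : F (θ : AddCircle (2 * Real.pi)) = ((φ θ : ℝ) : ℂ) := by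
      change ((hP.lift (θ : AddCircle (2 * Real.pi)) : ℝ) : ℂ) = _
      rw [Function.Periodic.lift_coe]
    rw [h4, Complex.ofReal_re]
  rw [h3]
  exact (Complex.abs_re_le_norm _).trans h2

theorem circle_approx {R : ℝ} (hR : 0 < R) (φ : ℂ → ℝ) (hφ : ContinuousOn φ (sphere (0 : ℂ) R)) {ε : ℝ} (hε : 0 < ε) :
    ∃ g : ℂ → ℂ, Differentiable ℂ g ∧ ∀ z ∈ sphere (0 : ℂ) R, |(g z).re - φ z| ≤ ε := by
  have hmem : ∀ θ : ℝ, ((R : ℂ) * Complex.exp (θ * Complex.I)) ∈ sphere (0 : ℂ) R := by
    intro θ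
    rw [mem_sphere_zero_iff_norm, norm_mul, Complex.norm_exp_ofReal_mul_I, mul_one, Complex.norm_real, Real.norm_eq_abs, abs_of_pos hR]
  have hc : Continuous fun θ : ℝ => φ ((R : ℂ) * Complex.exp (θ * Complex.I)) := by
    refine hφ.comp_continuous ?_ hmem
    exact continuous_const.mul (Complex.continuous_exp.comp (Complex.continuous_ofReal.mul continuous_const))
  have hper : ∀ θ : ℝ, φ ((R : ℂ) * Complex.exp (((θ + 2 * Real.pi : ℝ) : ℂ) * Complex.I)) = φ ((R : ℂ) * Complex.exp ((θ : ℂ) * Complex.I)) := by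
    intro θ
    congr 2
    push_cast
    rw [add_mul]
    exact Complex.exp_periodic _
  obtain ⟨m, c, hmc⟩ := trig_approx (fun θ : ℝ => φ ((R : ℂ) * Complex.exp (θ * Complex.I))) hc hper hε
  refine ⟨fun z => ∑ n ∈ Finset.range (m + 1), c n * (z / R) ^ n, ?_, ?_⟩
  · refine Differentiable.fun_sum fun n _ => ?_
    exact ((differentiable_id.div_const _).pow n).const_mul _
  · intro z hz
    have hRne : (R : ℂ) ≠ 0 := by exact_mod_cast hR.ne'
    have hzn : ‖z‖ = R := mem_sphere_zero_iff_norm.mp hz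
    have hz1 : z = (R : ℂ) * Complex.exp ((z.arg : ℝ) * Complex.I) := by
      conv_lhs => rw [← Complex.norm_mul_exp_arg_mul_I z, hzn]
    have h := hmc z.arg
    have h5 : (∑ n ∈ Finset.range (m + 1), c n * (z / R) ^ n) = ∑ n ∈ Finset.range (m + 1), c n * Complex.exp (n * ((z.arg : ℝ) * Complex.I)) := by
      refine Finset.sum_congr rfl fun n _ => ?_
      have : z / R = Complex.exp ((z.arg : ℝ) * Complex.I) := by
        rw [div_eq_iff hRne, mul_comm]
        exact hz1
      rw [this, Complex.exp_nat_mul]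
    simp only
    rw [h5, abs_sub_comm]
    simp only [← hz1] at h
    exact h

end Pool.Agent.H36.BP

end

section

/-!
# KR T1: the Taylor series of a function of one variable

`t1 f = ∑ f^(n)(0) / n! X^n`.

Proofs.
* `t1_congr`: `Filter.EventuallyEq.iteratedDeriv_eq`.
* `constantCoeff_t1`, `t1_const`, `t1_id`, `t1_add`: coefficients (`iteratedDeriv_add`, `iteratedDeriv_const`; for
  `t1_id` it is enough to know `iteratedDeriv (n + 2) (fun x => x) 0 = 0`, from `iteratedDeriv_succ'` and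
  `deriv_id''`).
* `t1_deriv`: `iteratedDeriv_succ'`: `iteratedDeriv (n + 1) f = iteratedDeriv n (deriv f)`.
* `t1_mul`: for all `n` and all `f, g`: `coeff n (t1 (f g)) = coeff n (t1 f * t1 g)`, by induction on `n`.
  `n = 0`: `constantCoeff_t1`. Step: `(n + 1) coeff (n + 1) F = coeff n F'`, and by `t1_deriv`, `t1_add`, `t1_congr` and the
  induction hypothesis `(t1 (f g))' = t1 (f' g + f g')` has the same `n`-th coefficient as
  `t1 f' t1 g + t1 f t1 g' = (t1 f t1 g)'`.
  (Or directly: `iteratedDeriv_mul`.)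
* `t1_eq_zero_iff`: `AnalyticAt` with all derivatives `0` at `0`: e.g. `HasFPowerSeriesAt` with
  `FormalMultilinearSeries.coeff`, or `analyticOrderAt` (`analyticOrderAt_eq_top`, if the order were the finite number
  `n` then `f = x^n g`, `g 0 ≠ 0` and the `n`-th derivative is `n! g 0`), or `AnalyticAt.hasFPowerSeriesAt`
  (`f` has the power series with the coefficients `iteratedDeriv n f 0 / n!`).
-/

set_option autoImplicit false

open Topology Filter

noncomputable section

namespace Pool.Agent.H68.KR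

/-- The Taylor series at `0` of a function of one variable. -/
def t1 (f : ℂ → ℂ) : PowerSeries ℂ :=
  PowerSeries.mk fun n => iteratedDeriv n f 0 / (n.factorial : ℂ)

private theorem T1_coeff (f : ℂ → ℂ) (n : ℕ) :
    PowerSeries.coeff n (t1 f) = iteratedDeriv n f 0 / (n.factorial : ℂ) := by
  unfold t1
  rw [PowerSeries.coeff_mk]

theorem t1_congr {f g : ℂ → ℂ} (h : ∀ᶠ x in 𝓝 (0 : ℂ), f x = g x) : t1 f = t1 g := by
  ext n
  have h1 : iteratedDeriv n f 0 = iteratedDeriv n g 0 := Filter.EventuallyEq.iteratedDeriv_eq n h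
  rw [T1_coeff, T1_coeff, h1]

theorem t1_const (c : ℂ) : t1 (fun _ => c) = PowerSeries.C c := by
  ext n
  rw [T1_coeff, iteratedDeriv_const, PowerSeries.coeff_C]
  by_cases h : n = 0
  · rw [if_pos h, h, Nat.factorial_zero, Nat.cast_one, div_one]
  · rw [if_neg h, zero_div]

theorem t1_id : t1 (fun x => x) = PowerSeries.X := by
  ext n
  rw [T1_coeff, iteratedDeriv_fun_id_zero, PowerSeries.coeff_X]
  by_cases h : n = 1
  · rw [if_pos h, h, Nat.factorial_one, Nat.cast_one, div_one]
  · rw [if_neg h, zero_div]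

theorem t1_add {f g : ℂ → ℂ} (hf : AnalyticAt ℂ f 0) (hg : AnalyticAt ℂ g 0) :
    t1 (fun x => f x + g x) = t1 f + t1 g := by
  ext n
  rw [map_add, T1_coeff, T1_coeff, T1_coeff, iteratedDeriv_fun_add hf.contDiffAt hg.contDiffAt,
    add_div]

theorem t1_deriv {f : ℂ → ℂ} (hf : AnalyticAt ℂ f 0) :
    PowerSeries.derivative ℂ (t1 f) = t1 (deriv f) := by
  ext n
  rw [PowerSeries.coeff_derivative, T1_coeff, T1_coeff, iteratedDeriv_succ', Nat.factorial_succ]
  have h1 : (n.factorial : ℂ) ≠ 0 := by exact_mod_cast n.factorial_ne_zero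
  have h2 : ((n : ℂ) + 1) ≠ 0 := by exact_mod_cast n.succ_ne_zero
  push_cast
  field_simp

theorem t1_mul {f g : ℂ → ℂ} (hf : AnalyticAt ℂ f 0) (hg : AnalyticAt ℂ g 0) :
    t1 (fun x => f x * g x) = t1 f * t1 g := by
  ext n
  rw [PowerSeries.coeff_mul, T1_coeff, iteratedDeriv_fun_mul hf.contDiffAt hg.contDiffAt,
    Finset.Nat.sum_antidiagonal_eq_sum_range_succ
      (fun i j => PowerSeries.coeff i (t1 f) * PowerSeries.coeff j (t1 g)) n, Finset.sum_div]
  refine Finset.sum_congr rfl fun i hi => ?_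
  have hi' : i ≤ n := Nat.lt_succ_iff.1 (Finset.mem_range.1 hi)
  rw [T1_coeff, T1_coeff]
  have h1 : (n.factorial : ℂ) ≠ 0 := by exact_mod_cast n.factorial_ne_zero
  have h2 : (i.factorial : ℂ) ≠ 0 := by exact_mod_cast i.factorial_ne_zero
  have h3 : ((n - i).factorial : ℂ) ≠ 0 := by exact_mod_cast (n - i).factorial_ne_zero
  have h4 : ((n.choose i : ℂ)) * i.factorial * (n - i).factorial = n.factorial := by
    exact_mod_cast Nat.choose_mul_factorial_mul_factorial hi'
  rw [← h4]
  rw [← h4] at h1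
  have h5 : ((n.choose i : ℂ)) ≠ 0 := by
    intro h
    rw [h, zero_mul, zero_mul] at h1
    exact h1 rfl
  field_simp

theorem t1_eq_zero_iff {f : ℂ → ℂ} (hf : AnalyticAt ℂ f 0) :
    t1 f = 0 ↔ ∀ᶠ x in 𝓝 (0 : ℂ), f x = 0 := by
  constructor
  · intro h
    have h1 := hasFPowerSeriesAt_iff.1 hf.hasFPowerSeriesAt
    filter_upwards [h1] with z hz
    have h2 : (fun n => z ^ n • (FormalMultilinearSeries.ofScalars ℂ
        (fun n => iteratedDeriv n f 0 / (n.factorial : ℂ))).coeff n) = fun _ => (0 : ℂ) := by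
      funext n
      rw [FormalMultilinearSeries.coeff_ofScalars, ← T1_coeff, h]
      simp
    rw [h2, zero_add] at hz
    exact hz.unique hasSum_zero
  · intro h
    rw [t1_congr h, t1_const, map_zero]

end Pool.Agent.H68.KR

end
end

section

/-!
# Transcendence bases among the coordinates
-/

noncomputable section

namespace Pool.Agent.H92.GT

open scoped IntermediateField.algebraAdjoinAdjoin in
/-- If `K` is algebraic over `ℂ(x)` there is a transcendence basis among the coordinates. -/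
theorem exists_index {K : Type} [Field K] [Algebra ℂ K] {k n : ℕ} {x : Fin n → K}
    (halg : Algebra.IsAlgebraic (IntermediateField.adjoin ℂ (Set.range x)) K) {z : Fin k → K}
    (hz : IsTranscendenceBasis ℂ z) :
    ∃ J : Fin k → Fin n, IsTranscendenceBasis ℂ fun i => x (J i) := by
  have h1 : Algebra.IsAlgebraic (Algebra.adjoin ℂ (Set.range x)) K :=
    (IsFractionRing.comap_isAlgebraic_iff (A := Algebra.adjoin ℂ (Set.range x))
      (K := IntermediateField.adjoin ℂ (Set.range x)) (C := K)).mpr halg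
  obtain ⟨u, hu, hub⟩ := exists_isTranscendenceBasis_subset (R := ℂ) (Set.range x)
  have h2 := hub.cardinalMk_eq hz
  rw [Cardinal.mk_fin] at h2
  have h3 : Finite u := by
    rw [← Cardinal.lt_aleph0_iff_finite, h2]
    exact Cardinal.natCast_lt_aleph0
  have h4 : Nat.card u = k := by
    rw [Nat.card, h2]
    simp
  let eqv : Fin k ≃ u := (finCongr h4.symm).trans (Finite.equivFin u).symm
  choose J hJ using fun i : Fin k => hu (eqv i).2
  refine ⟨J, ?_⟩
  have h5 : (fun i => x (J i)) = (Subtype.val : u → K) ∘ eqv := funext hJ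
  rw [h5, isTranscendenceBasis_equiv]
  exact hub

end Pool.Agent.H92.GT

end
end

section

/-!
# MQ Frame: the curve in a box, in one variable

`Crv1 v r Om g`: holomorphic coordinates `g` of a curve on the open set `Om`, with values in the polydisc of radius `r`, tangent to the vector field `v`.
`ztv` is `ζ'`, `DDv` is `DD`, `LocalN1` is `LocalN`.
-/

set_option autoImplicit false

open Topology Filter Metric MeasureTheory

noncomputable section

namespace Pool.Agent.MQ

/-- the curve in a box, in one variable -/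
structure Crv1 (v : ℂ × ℂ → ℂ × ℂ) (r : ℝ) (Om : Set ℂ) (g : ℂ → ℂ × ℂ) : Prop where
  isOpen : IsOpen Om
  an : ∀ z ∈ Om, AnalyticAt ℂ g z
  mem : ∀ z ∈ Om, g z ∈ ball (0 : ℂ × ℂ) r
  closed : ∀ s < r, IsClosed {z | z ∈ Om ∧ g z ∈ closedBall (0 : ℂ × ℂ) s}
  ode : ∀ z ∈ Om, (v (g z)).1 * (deriv g z).2 - (v (g z)).2 * (deriv g z).1 = 0

open Classical in
/-- `g' = ζ' v (g)` -/
def ztv (v : ℂ × ℂ → ℂ × ℂ) (g : ℂ → ℂ × ℂ) (z : ℂ) : ℂ :=
  if (v (g z)).2 = 0 then (deriv g z).1 / (v (g z)).1 else (deriv g z).2 / (v (g z)).2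

variable {v : ℂ × ℂ → ℂ × ℂ} {r : ℝ} {Om : Set ℂ} {g : ℂ → ℂ × ℂ}

theorem Crv1.ztv_fst (h : Crv1 v r Om g) {z : ℂ} (hz : z ∈ Om) (h1 : (v (g z)).1 ≠ 0) : ztv v g z = (deriv g z).1 / (v (g z)).1 := by
  classical
  unfold ztv
  split_ifs with h2
  · rfl
  · rw [div_eq_div_iff h2 h1]
    have := h.ode z hz
    linear_combination this

theorem ztv_snd {z : ℂ} (h1 : (v (g z)).2 ≠ 0) : ztv v g z = (deriv g z).2 / (v (g z)).2 := by
  classical
  unfold ztv
  rw [if_neg h1]

theorem Crv1.deriv_fst (h : Crv1 v r Om g) {z : ℂ} (hz : z ∈ Om) (h1 : v (g z) ≠ 0) : (deriv g z).1 = ztv v g z * (v (g z)).1 := by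
  by_cases h2 : (v (g z)).1 = 0
  · have h3 : (v (g z)).2 ≠ 0 := fun h3 => h1 (Prod.ext h2 h3)
    have h4 := h.ode z hz
    rw [h2, zero_mul, zero_sub, neg_eq_zero, mul_eq_zero] at h4
    rcases h4 with h4 | h4
    · exact absurd h4 h3
    · rw [h2, mul_zero, h4]
  · rw [h.ztv_fst hz h2, div_mul_cancel₀ _ h2]

theorem Crv1.deriv_snd (h : Crv1 v r Om g) {z : ℂ} (hz : z ∈ Om) (h1 : v (g z) ≠ 0) : (deriv g z).2 = ztv v g z * (v (g z)).2 := by
  by_cases h2 : (v (g z)).2 = 0
  · have h3 : (v (g z)).1 ≠ 0 := fun h3 => h1 (Prod.ext h3 h2)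
    have h4 := h.ode z hz
    rw [h2, zero_mul, sub_zero, mul_eq_zero] at h4
    rcases h4 with h4 | h4
    · exact absurd h4 h3
    · rw [h2, mul_zero, h4]
  · rw [ztv_snd h2, div_mul_cancel₀ _ h2]

theorem an_fst {g : ℂ → ℂ × ℂ} {z : ℂ} (h : AnalyticAt ℂ g z) : AnalyticAt ℂ (fun w => (g w).1) z := analyticAt_fst.comp h

theorem an_snd {g : ℂ → ℂ × ℂ} {z : ℂ} (h : AnalyticAt ℂ g z) : AnalyticAt ℂ (fun w => (g w).2) z := analyticAt_snd.comp h

theorem deriv_fst' {z : ℂ} (h : DifferentiableAt ℂ g z) : deriv (fun w => (g w).1) z = (deriv g z).1 :=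
  ((ContinuousLinearMap.fst ℂ ℂ ℂ).hasFDerivAt.comp_hasDerivAt z h.hasDerivAt).deriv

theorem deriv_snd' {z : ℂ} (h : DifferentiableAt ℂ g z) : deriv (fun w => (g w).2) z = (deriv g z).2 :=
  ((ContinuousLinearMap.snd ℂ ℂ ℂ).hasFDerivAt.comp_hasDerivAt z h.hasDerivAt).deriv

/-- `ζ'` is analytic off the zeros of `v` -/
theorem Crv1.an_ztv (h : Crv1 v r Om g) {z : ℂ} (hz : z ∈ Om) (hv : AnalyticAt ℂ v (g z)) (h1 : v (g z) ≠ 0) : AnalyticAt ℂ (ztv v g) z := by
  have hg := h.an z hz
  have hvg : AnalyticAt ℂ (fun w => v (g w)) z := hv.comp hg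
  by_cases h2 : (v (g z)).2 = 0
  · have h3 : (v (g z)).1 ≠ 0 := fun h3 => h1 (Prod.ext h3 h2)
    have h4 : (fun w => (deriv g w).1 / (v (g w)).1) =ᶠ[𝓝 z] ztv v g := by
      filter_upwards [h.isOpen.mem_nhds hz, (an_fst hvg).continuousAt.eventually_ne h3] with w hw hw2
      exact (h.ztv_fst hw hw2).symm
    exact ((an_fst hg.deriv).div (an_fst hvg) h3).congr h4
  · have h4 : (fun w => (deriv g w).2 / (v (g w)).2) =ᶠ[𝓝 z] ztv v g := by
      filter_upwards [(an_snd hvg).continuousAt.eventually_ne h2] with w hw2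
      exact (ztv_snd hw2).symm
    exact ((an_snd hg.deriv).div (an_snd hvg) h2).congr h4

end Pool.Agent.MQ

end
end
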