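import Pool.Agent.H43.TL2.M04
import Pool.Agent.H43.TL2.M05

/-! The parts of this file: H23.Fano, H17LG.Variety. -/

section

/-!
# K-semistability of Fano varieties over the complex numbers: definitions

Smooth projective varieties with ample anticanonical divisor, pluri-anticanonical sections,
prime divisors over a variety, log discrepancies, the invariant `S`, and the valuative criterion
of Fujita and Li.
-/

open AlgebraicGeometry CategoryTheory MeasureTheory Filter
open scoped ENNReal

noncomputable section

namespace Pool.Agent.H23.Fano

/-! ## Rational differential forms of a function field -/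

/-- The `n`-th exterior power of a vector space. -/
def ExtPow (K V : Type) [Field K] [AddCommGroup V] [Module K V] (n : ℕ) : Type := ⋀[K]^n V

section ExtPow

variable (K V : Type) [Field K] [AddCommGroup V] [Module K V] (n : ℕ)

instance : AddCommGroup (ExtPow K V n) := (inferInstance : AddCommGroup (⋀[K]^n V))

instance : Module K (ExtPow K V n) := (inferInstance : Module K (⋀[K]^n V))

/-- The element `v₁ ∧ ⋯ ∧ vₙ` of the exterior power. -/
def ExtPow.wedge (v : Fin n → V) : ExtPow K V n := exteriorPower.ιMulti K n v

end ExtPow

section FunctionField

variable (K : Type) [Field K] [Algebra ℂ K]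

/-- The `K`-vector space `Ω_{K/ℂ}` of rational differentials. -/
def Diff : Type := Ω[K⁄ℂ]

instance : AddCommGroup (Diff K) := (inferInstance : AddCommGroup Ω[K⁄ℂ])

instance : Module K (Diff K) := (inferInstance : Module K Ω[K⁄ℂ])

variable {K} in
/-- The differential `d f`. -/
def d (f : K) : Diff K := KaehlerDifferential.D ℂ K f

variable (n : ℕ)

/-- Rational `n`-forms of the function field `K` over `ℂ`: the `K`-vector space `⋀ⁿ Ω_{K/ℂ}`. -/
def Form : Type := ExtPow K (Diff K) n

instance : AddCommGroup (Form K n) := (inferInstance : AddCommGroup (ExtPow K (Diff K) n))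

instance : Module K (Form K n) := (inferInstance : Module K (ExtPow K (Diff K) n))

variable {K n}

/-- The rational form `c • da₁ ∧ ⋯ ∧ daₙ`. -/
def Form.mk (c : K) (a : Fin n → K) : Form K n := c • ExtPow.wedge K (Diff K) n fun i => d (a i)

variable (n)

/-- The regular `n`-forms of a `ℂ`-subalgebra `A` of `K`, that is the image of
`⋀ⁿ Ω_{A/ℂ}` in `⋀ⁿ Ω_{K/ℂ}`: all finite sums of forms `c • da₁ ∧ ⋯ ∧ daₙ` with
`c, a₁, …, aₙ ∈ A`. -/
def regularForms (A : Set K) : AddSubgroup (Form K n) :=
  AddSubgroup.closure {ω | ∃ (c : K) (a : Fin n → K), c ∈ A ∧ (∀ i, a i ∈ A) ∧ ω = Form.mk c a}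

variable {ι : Type} (O : ι → Set K)

/-- Let `O x`, `x : ι`, be the local rings of a smooth variety `X` of dimension `n` with function
field `K`. A rational section of `-m K_X` is a function `φ` on rational `n`-forms with
`φ (g • ω) = g ^ m * φ ω`; it is regular at `x` if it takes the regular `n`-forms at `x` to
`O x`. This is the space `H⁰(X, -m K_X)` of everywhere regular sections. -/
def antiSections (m : ℕ) : Set (Form K n → K) :=
  {φ | (∀ (g : K) (ω : Form K n), φ (g • ω) = g ^ m * φ ω) ∧
    ∀ x, ∀ ω ∈ regularForms n (O x), φ ω ∈ O x}

variable {n} in
/-- The complex dimension of a space of sections. -/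
def dim (S : Set (Form K n → K)) : ℕ := Module.finrank ℂ (Submodule.span ℂ S)

variable (K) in
/-- A prime divisor over a variety of dimension `n` with function field `K`, given by its order
function: a discrete valuation of `K`, normalised to have value group `ℤ`, trivial on `ℂ`, whose
residue field has transcendence degree `n - 1` over `ℂ` (that is, there are `n - 1` elements of
the valuation ring whose residue classes are algebraically independent over `ℂ`). -/
structure PrimeDivisorOver where
  /-- the order of vanishing along the divisor -/
  ord : AddValuation K (WithTop ℤ)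
  ord_const : ∀ c : ℂ, 0 ≤ ord (algebraMap ℂ K c)
  exists_uniformizer : ∃ t : K, ord t = 1
  residue_trdeg : ∃ s : Fin (n - 1) → K, (∀ i, 0 ≤ ord (s i)) ∧
    ∀ p : MvPolynomial (Fin (n - 1)) ℂ, p ≠ 0 → ord (MvPolynomial.aeval s p) = 0

variable {n}

/-- The local ring of the generic point of a prime divisor over `X`. -/
def PrimeDivisorOver.localRing (E : PrimeDivisorOver K n) : Set K := {f | 0 ≤ E.ord f}

variable (n)

variable {n}

/-- The section `φ` of `-m K_X` generates the sheaf of sections at `x`. -/
def Generates (φ : Form K n → K) (x : ι) : Prop :=
  ∃ ω ∈ regularForms n (O x), φ ω ≠ 0 ∧ (φ ω)⁻¹ ∈ O x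

end FunctionField

/-! ## Varieties -/

section Scheme

/-- The function field of an integral scheme. -/
def FunField (X : Scheme.{0}) [IsIntegral X] : Type := X.functionField

instance (X : Scheme.{0}) [IsIntegral X] : Field (FunField X) :=
  (inferInstance : Field X.functionField)

variable {X : Scheme.{0}} (s : X ⟶ Spec (.of ℂ)) [IsIntegral X]

/-- The function field of a complex variety as a `ℂ`-algebra: a complex number is sent to the
germ at the generic point of the corresponding global function. -/
@[reducible]
def constAlgebra : Algebra ℂ (FunField X) :=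
  RingHom.toAlgebra ((Scheme.ΓSpecIso (.of ℂ)).inv ≫ s.appTop ≫
    X.presheaf.germ ⊤ (genericPoint X) (TopologicalSpace.Opens.mem_top _)).hom

variable (X) in
/-- The local ring of a complex variety at a point, as a subring of the function field. -/
def localRing (x : X) : Set (FunField X) :=
  Set.range (algebraMap (X.presheaf.stalk x) X.functionField)

/-- `-K_X` is ample: every point of `X` has an open affine neighbourhood of the form
`X_φ = {y | φ generates the sheaf of sections of -m K_X at y}` with `m ≥ 1` and
`φ ∈ H⁰(X, -m K_X)`. -/
def AntiAmple (n : ℕ) : Prop :=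
  letI := constAlgebra s
  ∀ x : X, ∃ m : ℕ, 1 ≤ m ∧ ∃ φ ∈ antiSections n (localRing X) m, ∃ U : X.Opens,
    IsAffineOpen U ∧ x ∈ U ∧ ∀ y : X, y ∈ U ↔ Generates (localRing X) φ y

end Scheme

/-- A Fano variety of dimension `n` over `ℂ`: a smooth projective variety of dimension `n` with
ample anticanonical divisor. -/
structure FanoVariety (n : ℕ) where
  /-- the underlying scheme -/
  X : Scheme.{0}
  /-- the structure morphism -/
  str : X ⟶ Spec (.of ℂ)
  [integral : IsIntegral X]
  proper : IsProper str
  smooth : SmoothOfRelativeDimension n str
  ample : AntiAmple str n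

end Pool.Agent.H23.Fano

end
end

section

/-!
# Varieties of log general type, in terms of their function field

The definitions of `Pool.Agent.H17GT.Defs` and `Pool.Agent.H17LG.Defs` in terms of the definitions of
`Pool.Agent.H23.Fano` (rational forms `Form K k`, regular forms, prime divisors).
-/

open MvPolynomial
open Pool.Agent.H23.Fano (Form regularForms PrimeDivisorOver)
open Pool.Agent.H17GT (coordFun functionField)

noncomputable section

namespace Pool.Agent.H17LG.Variety

section FunctionField

variable {K : Type} [Field K] [Algebra ℂ K] {k : ℕ}

/-- Let `K` be the function field of a variety of dimension `k`, let `ω` be a rational `k`-form and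
`f ∈ K`. The rational `m`-canonical form `f ω^m` has a pole of order at most `p` along the prime
divisor `E`: one has `ω = g η` with `η` regular along `E` and `f g ^ m` has a pole of order at
most `p` along `E`. -/
def PoleAtMost (p : ℕ) (E : PrimeDivisorOver K k) (m : ℕ) (f : K) (ω : Form K k) : Prop :=
  ∃ (g : K) (η : Form K k), η ∈ regularForms k E.localRing ∧ ω = g • η ∧
    0 ≤ E.ord (f * g ^ m) + p

/-- Let `U` be a variety of dimension `k` with function field `K`, and let `B` be the set of the
prime divisors over `K` whose centre lies in the boundary of a compactification of `U`. The variety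
`U` is of log general type: for some `m ≥ 1` there are `m`-canonical forms `f₀ ω^m, …, f_r ω^m`,
regular along all prime divisors outside `B`, with poles of order at most `m` along the prime
divisors in `B`, which define a generically finite rational map, that is, `K` is algebraic over
`ℂ(f₁/f₀, …, f_r/f₀)`. -/
def IsLogGeneralType (B : PrimeDivisorOver K k → Prop) : Prop :=
  ∃ m : ℕ, 1 ≤ m ∧ ∃ ω : Form K k, ω ≠ 0 ∧ ∃ (r : ℕ) (f : Fin (r + 1) → K), f 0 ≠ 0 ∧
    (∀ i E, (¬ B E → PoleAtMost 0 E m (f i) ω) ∧ (B E → PoleAtMost m E m (f i) ω)) ∧
    Algebra.IsAlgebraic (IntermediateField.adjoin ℂ (Set.range fun i => f i / f 0)) K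

end FunctionField

section Subvariety

variable {N : ℕ} (P : Ideal (MvPolynomial (Fin (N + 1)) ℂ)) [P.IsPrime]

/-- The function field of the closed subvariety of `ℙ^N` given by `P`. -/
def FunField : Type := functionField P

instance : Field (FunField P) := (inferInstance : Field (functionField P))

instance : Algebra ℂ (FunField P) := (inferInstance : Algebra ℂ (functionField P))

/-- The function `x_i / x_j` on the subvariety of `ℙ^N` given by `P`. -/
def ratio (i j : Fin (N + 1)) : FunField P :=
  (⟨coordFun P i / coordFun P j, IntermediateField.subset_adjoin _ _ ⟨i, j, rfl⟩⟩ :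
    functionField P)

end Subvariety

end Pool.Agent.H17LG.Variety

end
end
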