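import Pool.Agent.H43.TL2.H17BP.Div
import Pool.Agent.H43.TL2.M01
import Pool.Agent.H43.TL2.M06
import Pool.Agent.H43.TL2.M20
import Pool.Agent.H43.TL2.M25

/-! The parts of this file: H17BP.DBlow, H17LG.Variety_1, H62.FC.Defs, SY.ChM. -/

section

/-!
# The exceptional curves in the charts of the blow-up

Let `D₁, D₂` be local coordinates.  `D₁ ∘ bl c = x E₁`, `D₂ ∘ bl c = x E₂` (`exists_div_x`), with
`E_i (0, w) = dx D_i 0 + (c + w) dy D_i 0`, so `E_i 0 = dx D_i 0 + c dy D_i 0` and `dy E_i 0 = dy D_i 0`.  Not both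
`E_i 0` vanish and if `E_1 0 = 0` then `dy D_1 0 ≠ 0` (otherwise also `dx D_1 0 = 0`), so `(x, E₁)` are local
coordinates (`coord_iff`: `dx x = 1, dy x = 0`, determinant `dy E₁ 0 ≠ 0`).  So:
* `E₁ 0 ≠ 0`, `E₂ 0 ≠ 0`: take `D = x.2`, `b' = 0`, `u = E₁ ^ a E₂ ^ b`;
* `E₁ 0 = 0`: `D = E₁`, `b' = a`, `u = E₂ ^ b`;
* `E₂ 0 = 0`: `D = E₂`, `b' = b`, `u = E₁ ^ a`.
For `blInf` use `blInf = swap ∘ bl 0 ∘ swap` and the coordinates `D_i ∘ swap`.
-/

open Topology Filter

noncomputable section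

namespace Pool.Agent.H17BP

private theorem DBlow_lin (D : ℂ × ℂ → ℂ) (k : ℂ) :
    fderiv ℂ D 0 (1, k) = dx D 0 + k * dy D 0 := by
  have h1 : ((1, k) : ℂ × ℂ) = (1, 0) + k • ((0, 1) : ℂ × ℂ) := by
    ext <;> simp
  rw [h1, map_add, map_smul, smul_eq_mul]
  rfl

private theorem DBlow_div {D : ℂ × ℂ → ℂ} (hD : AnalyticAt ℂ D 0) (hD0 : D 0 = 0) (c : ℂ) :
    ∃ E : ℂ × ℂ → ℂ, AnalyticAt ℂ E 0 ∧ (∀ᶠ x in 𝓝 (0 : ℂ × ℂ), D (bl c x) = x.1 * E x) ∧
      E 0 = dx D 0 + c * dy D 0 ∧ dy E 0 = dy D 0 := by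
  have hbl0 : ∀ y : ℂ, bl c (0, y) = 0 := by
    intro y
    simp [bl]
  have hf : AnalyticAt ℂ (fun x => D (bl c x)) 0 := by
    have h1 : AnalyticAt ℂ D (bl c 0) := by rw [bl_zero]; exact hD
    exact h1.comp (analyticAt_bl c 0)
  obtain ⟨E, hE, hfE⟩ := exists_div_x hf (Eventually.of_forall fun y => by
    change D (bl c (0, y)) = 0
    rw [hbl0, hD0])
  have hfE' : ∀ᶠ x in 𝓝 (0 : ℂ × ℂ), D (bl c x) = x.1 * E x := hfE
  have hcur : Tendsto (fun w : ℂ => ((0, w) : ℂ × ℂ)) (𝓝 0) (𝓝 0) := by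
    have : Continuous fun w : ℂ => ((0, w) : ℂ × ℂ) := by fun_prop
    exact this.tendsto' 0 0 rfl
  have hline : ∀ᶠ w in 𝓝 (0 : ℂ), E (0, w) = dx D 0 + (c + w) * dy D 0 := by
    filter_upwards [hcur.eventually hfE'.eventually_nhds, hcur.eventually hE.eventually_analyticAt]
      with w h1 h2
    -- the derivative of `t ↦ D (bl c (t, w))` at `0`
    have hγ : HasDerivAt (fun t : ℂ => bl c (t, w)) (1, c + w) 0 := by
      have h3 : HasDerivAt (fun t : ℂ => t) 1 (0 : ℂ) := hasDerivAt_id 0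
      have h4 : HasDerivAt (fun t : ℂ => t * (c + w)) (c + w) (0 : ℂ) := by
        simpa using h3.mul_const (c + w)
      exact h3.prodMk h4
    have hD1 : HasFDerivAt D (fderiv ℂ D 0) (bl c (0, w)) := by
      rw [hbl0]
      exact hD.differentiableAt.hasFDerivAt
    have h5 : HasDerivAt (fun t : ℂ => D (bl c (t, w))) (fderiv ℂ D 0 (1, c + w)) 0 :=
      hD1.comp_hasDerivAt (0 : ℂ) hγ
    -- the derivative of `t ↦ t * E (t, w)`
    have hδ : HasDerivAt (fun t : ℂ => ((t, w) : ℂ × ℂ)) (1, 0) 0 :=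
      (hasDerivAt_id 0).prodMk (hasDerivAt_const (0 : ℂ) w)
    have h6 : HasDerivAt (fun t : ℂ => E (t, w)) (fderiv ℂ E (0, w) (1, 0)) 0 :=
      (h2.differentiableAt.hasFDerivAt).comp_hasDerivAt (0 : ℂ) hδ
    have h7 : HasDerivAt (fun t : ℂ => t * E (t, w)) (1 * E (0, w) + 0 * fderiv ℂ E (0, w) (1, 0)) 0 :=
      (hasDerivAt_id (0 : ℂ)).mul h6
    have h8 : (fun t : ℂ => t * E (t, w)) =ᶠ[𝓝 0] fun t : ℂ => D (bl c (t, w)) := by
      have h9 : Tendsto (fun t : ℂ => ((t, w) : ℂ × ℂ)) (𝓝 0) (𝓝 (0, w)) := by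
        have : Continuous fun t : ℂ => ((t, w) : ℂ × ℂ) := by fun_prop
        exact this.tendsto' 0 (0, w) rfl
      filter_upwards [h9.eventually h1] with t ht
      exact ht.symm
    have h10 := (h5.congr_of_eventuallyEq h8).unique h7
    rw [DBlow_lin] at h10
    rw [h10]
    ring
  refine ⟨E, hE, hfE', ?_, ?_⟩
  · have h1 : E (0, 0) = dx D 0 + (c + 0) * dy D 0 := hline.self_of_nhds
    rw [add_zero] at h1
    exact h1
  · have hδ : HasDerivAt (fun t : ℂ => ((0, t) : ℂ × ℂ)) (0, 1) 0 :=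
      (hasDerivAt_const (0 : ℂ) 0).prodMk (hasDerivAt_id 0)
    have h1 : HasDerivAt (fun t : ℂ => E (0, t)) (fderiv ℂ E 0 (0, 1)) 0 :=
      (hE.differentiableAt.hasFDerivAt (x := ((0, 0) : ℂ × ℂ))).comp_hasDerivAt (0 : ℂ) hδ
    have h2 : HasDerivAt (fun t : ℂ => dx D 0 + (c + t) * dy D 0) (dy D 0) 0 := by
      have h3 := (((hasDerivAt_id (0 : ℂ)).const_add c).mul_const (dy D 0)).const_add (dx D 0)
      simpa using h3
    have h4 : (fun t : ℂ => dx D 0 + (c + t) * dy D 0) =ᶠ[𝓝 0] fun t : ℂ => E (0, t) :=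
      hline.mono fun t ht => ht.symm
    exact (h1.congr_of_eventuallyEq h4).unique h2

private theorem DBlow_fst : dx (fun x : ℂ × ℂ => x.1) 0 = 1 ∧ dy (fun x : ℂ × ℂ => x.1) 0 = 0 := by
  constructor
  · unfold dx
    rw [show (fun x : ℂ × ℂ => x.1) = Prod.fst from rfl, fderiv_fst]
    rfl
  · unfold dy
    rw [show (fun x : ℂ × ℂ => x.1) = Prod.fst from rfl, fderiv_fst]
    rfl

private theorem DBlow_coord {E : ℂ × ℂ → ℂ} (hE : AnalyticAt ℂ E 0) (h0 : E 0 = 0) (h1 : dy E 0 ≠ 0) :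
    Coord (fun x => x.1) E := by
  rw [coord_iff analyticAt_fst hE rfl h0, DBlow_fst.1, DBlow_fst.2, one_mul, zero_mul, sub_zero]
  exact h1

theorem mono_bl {D₁ D₂ : ℂ × ℂ → ℂ} (h : Coord D₁ D₂) (a b : ℕ) (c : ℂ) :
    ∃ (D : ℂ × ℂ → ℂ) (b' : ℕ) (u : ℂ × ℂ → ℂ), Coord (fun x => x.1) D ∧ AnalyticAt ℂ u 0 ∧ u 0 ≠ 0 ∧
      ∀ᶠ x in 𝓝 (0 : ℂ × ℂ), D₁ (bl c x) ^ a * D₂ (bl c x) ^ b = x.1 ^ (a + b) * D x ^ b' * u x := by
  obtain ⟨hA1, hA2, hz1, hz2⟩ := h.parts
  have hdet := (coord_iff hA1 hA2 hz1 hz2).1 h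
  obtain ⟨E₁, hE1, hf1, hv1, hd1⟩ := DBlow_div hA1 hz1 c
  obtain ⟨E₂, hE2, hf2, hv2, hd2⟩ := DBlow_div hA2 hz2 c
  by_cases h1 : E₁ 0 = 0
  · have hy1 : dy D₁ 0 ≠ 0 := by
      intro h3
      apply hdet
      rw [h1, h3, mul_zero, add_zero] at hv1
      rw [← hv1, h3]
      ring
    have h2 : E₂ 0 ≠ 0 := by
      intro h3
      apply hdet
      rw [h1] at hv1
      rw [h3] at hv2
      linear_combination (-(dy D₂ 0)) * hv1 + dy D₁ 0 * hv2
    refine ⟨E₁, a, fun x => E₂ x ^ b, DBlow_coord hE1 h1 (by rw [hd1]; exact hy1), hE2.pow b,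
      pow_ne_zero _ h2, ?_⟩
    filter_upwards [hf1, hf2] with x hx1 hx2
    rw [hx1, hx2]
    ring
  · by_cases h2 : E₂ 0 = 0
    · have hy2 : dy D₂ 0 ≠ 0 := by
        intro h3
        apply hdet
        rw [h2, h3, mul_zero, add_zero] at hv2
        rw [← hv2, h3]
        ring
      refine ⟨E₂, b, fun x => E₁ x ^ a, DBlow_coord hE2 h2 (by rw [hd2]; exact hy2), hE1.pow a,
        pow_ne_zero _ h1, ?_⟩
      filter_upwards [hf1, hf2] with x hx1 hx2
      rw [hx1, hx2]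
      ring
    · refine ⟨fun x => x.2, 0, fun x => E₁ x ^ a * E₂ x ^ b, coord_fst_snd, (hE1.pow a).mul (hE2.pow b),
        mul_ne_zero (pow_ne_zero _ h1) (pow_ne_zero _ h2), ?_⟩
      filter_upwards [hf1, hf2] with x hx1 hx2
      rw [hx1, hx2]
      ring

private theorem DBlow_swap : Bihol (Prod.swap : ℂ × ℂ → ℂ × ℂ) := by
  have h : AnalyticAt ℂ (Prod.swap : ℂ × ℂ → ℂ × ℂ) 0 := by
    change AnalyticAt ℂ (fun x : ℂ × ℂ => (x.2, x.1)) 0
    exact analyticAt_snd.prod analyticAt_fst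
  exact ⟨h, rfl, Prod.swap, h, rfl, Eventually.of_forall fun x => Prod.swap_swap x,
    Eventually.of_forall fun x => Prod.swap_swap x⟩

theorem mono_blInf {D₁ D₂ : ℂ × ℂ → ℂ} (h : Coord D₁ D₂) (a b : ℕ) :
    ∃ (D : ℂ × ℂ → ℂ) (b' : ℕ) (u : ℂ × ℂ → ℂ), Coord (fun x => x.2) D ∧ AnalyticAt ℂ u 0 ∧ u 0 ≠ 0 ∧
      ∀ᶠ x in 𝓝 (0 : ℂ × ℂ), D₁ (blInf x) ^ a * D₂ (blInf x) ^ b = x.2 ^ (a + b) * D x ^ b' * u x := by
  have hc : Coord (D₁ ∘ Prod.swap) (D₂ ∘ Prod.swap) := Bihol.comp h DBlow_swap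
  obtain ⟨D, b', u, h1, h2, h3, h4⟩ := mono_bl hc a b 0
  refine ⟨D ∘ Prod.swap, b', u ∘ Prod.swap, Bihol.comp h1 DBlow_swap, ?_, h3, ?_⟩
  · have h5 : AnalyticAt ℂ u (Prod.swap (0 : ℂ × ℂ)) := h2
    exact h5.comp DBlow_swap.an
  · filter_upwards [DBlow_swap.tendsto.eventually h4] with x hx
    have h6 : Prod.swap (bl 0 (Prod.swap x)) = blInf x := by
      unfold bl blInf
      simp [mul_comm]
    simp only [Function.comp_apply, h6] at hx ⊢
    exact hx

end Pool.Agent.H17BP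

end
end

section

/-!
# Varieties of log general type, in terms of their function field

The definitions of `Pool.Agent.H17GT.Defs` and `Pool.Agent.H17LG.Defs` in terms of the definitions of
`Pool.Agent.H23.Fano` (rational forms `Form K k`, regular forms, prime divisors).
-/

open MvPolynomial
open Pool.Agent.H23.Fano (Form regularForms PrimeDivisorOver)
open Pool.Agent.H17GT (coordFun functionField)

noncomputable section

namespace Pool.Agent.H17LG.Variety

section Subvariety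

variable {N : ℕ} (P : Ideal (MvPolynomial (Fin (N + 1)) ℂ)) [P.IsPrime]

/-- The centre of the prime divisor `E` on the closed subvariety of `ℙ^N` given by `P` lies in the
union of the hypersurfaces `H m = 0`. -/
def OnBoundary {b : ℕ} (H : Fin b → MvPolynomial (Fin (N + 1)) ℂ) {k : ℕ}
    (E : PrimeDivisorOver (FunField P) k) : Prop :=
  ∃ j, coordFun P j ≠ 0 ∧ (∀ i, 0 ≤ E.ord (ratio P i j)) ∧
    ∃ m, 0 < E.ord (aeval (fun i => ratio P i j) (H m))

end Subvariety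

end Pool.Agent.H17LG.Variety

end
end

section

/-!
# Fermat covers: definitions

Locally closed subsets of `ℙ^N` given by forms and by the condition that some homogeneous
coordinates are not zero, and the monomial curves `t ↦ (a_i t ^ (n_i))` contained in them.
-/

open MvPolynomial
open Pool.Agent.H17 (PN VanishesAt ZariskiClosedIn)
open Pool.Agent.H17GT (coordFun)
open Pool.Agent.H17LG.Variety (FunField ratio IsLogGeneralType)
open Pool.Agent.H23.Fano (PrimeDivisorOver)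

noncomputable section

namespace Pool.Agent.H62.FC

variable {N : ℕ}

/-- The points of the zero locus of the homogeneous ideal `P` with `x i ≠ 0` for `i ∈ O`. -/
def primeLocus (P : Ideal (MvPolynomial (Fin (N + 1)) ℂ)) (O : Finset (Fin (N + 1))) :
    Set (PN N) :=
  {x | (∀ Q ∈ P, ∀ n, Q.IsHomogeneous n → VanishesAt Q x) ∧ ∀ i ∈ O, x.rep i ≠ 0}

/-- The ideal `P` is homogeneous. -/
def Homog (P : Ideal (MvPolynomial (Fin (N + 1)) ℂ)) : Prop :=
  ∀ p ∈ P, ∀ n, homogeneousComponent n p ∈ P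

/-- The centre of the prime divisor `E` on the closed subvariety of `ℙ^N` given by `P` lies in one
of the hyperplanes `x i = 0`, `i ∈ O`. -/
def OnBoundary (P : Ideal (MvPolynomial (Fin (N + 1)) ℂ)) [P.IsPrime] (O : Finset (Fin (N + 1)))
    {w : ℕ} (E : PrimeDivisorOver (FunField P) w) : Prop :=
  ∃ j, coordFun P j ≠ 0 ∧ (∀ i, 0 ≤ E.ord (ratio P i j)) ∧ ∃ i ∈ O, 0 < E.ord (ratio P i j)

end Pool.Agent.H62.FC

end
end

section

/-!
# SY ChM: bounded characteristic, at the level of functions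

`char_fun`: `m` upper semicontinuous with `δ ≤ m 0`, `m ≤ A` on the closed disc of radius `R`, `F` an entire curve
without zeros, and `m |F|^(-c₀)` has the lower support property with the exponent `-C m²` where `m > 0`. Then there is
an entire function `g` with `|exp g F| ≤ 1` on the disc and a lower bound for `|exp (g 0) F 0|` which depends only on
`c₀`, `C`, `A/δ`, `A`, `R`.
-/

set_option autoImplicit false

namespace Pool.Agent.SY

open Filter Topology Metric
open Pool.Agent.H36.BP (EN Sub Sub.mul Sub.congr Sub.of_holo Sub.exp_sq max_principle circle_approx)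

variable {N : ℕ}

private theorem ch_usc {S : Set ℂ} {f h : ℂ → ℝ} (hf : UpperSemicontinuousOn f S)
    (hh : ContinuousOn h S) (hpos : ∀ z ∈ S, 0 < h z) :
    UpperSemicontinuousOn (fun z => f z * h z) S := by
  intro x hx y hy
  have hx0 := hpos x hx
  have h1 : f x < y / h x := (lt_div_iff₀ hx0).2 hy
  obtain ⟨a, ha1, ha2⟩ := exists_between h1
  have h2 : a * h x < y := (lt_div_iff₀ hx0).1 ha2
  have h3 : ∀ᶠ z in 𝓝[S] x, a * h z < y :=
    ((continuousWithinAt_const.mul (hh x hx)).tendsto).eventually (gt_mem_nhds h2)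
  filter_upwards [hf x hx a ha1, h3, self_mem_nhdsWithin] with z hz1 hz2 hz3
  exact (mul_lt_mul_of_pos_right hz1 (hpos z hz3)).trans hz2

/-- **bounded characteristic**, for a function `m` -/
theorem char_fun {c₀ C : ℝ} (hc : 0 < c₀) (hC : 0 ≤ C) {R A δ : ℝ} (hR : 0 < R) (hδ : 0 < δ) {F : ℂ → EN N} (hF : Differentiable ℂ F)
    (h0 : ∀ z, F z ≠ 0) {m : ℂ → ℝ} (hm : UpperSemicontinuousOn m (closedBall 0 R)) (hmA : ∀ z ∈ closedBall (0 : ℂ) R, m z ≤ A) (hm0 : δ ≤ m 0)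
    (hs : ∀ z ∈ ball (0 : ℂ) R, 0 < m z → Sub (fun w => m w * ‖F w‖ ^ (-c₀)) z (-(C * m z ^ 2))) :
    ∃ u : ℂ → ℂ, Differentiable ℂ u ∧ (∀ z ∈ ball (0 : ℂ) R, ‖Complex.exp (u z) • F z‖ ≤ 1) ∧
      Real.exp (-(1 + Real.log (A / δ * Real.exp 1 * Real.exp ((C * A ^ 2 + 1) * R ^ 2))) / c₀) ≤ ‖Complex.exp (u 0) • F 0‖ := by
  have hne0 := h0
  have h0 := hm0
  have hA := hmA
  have hsub := hs
  have hδA : δ ≤ A := h0.trans (hA 0 (mem_closedBall_self hR.le))
  have hApos : 0 < A := hδ.trans_le hδA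
  set A' : ℝ := A * Real.exp 1 * Real.exp ((C * A ^ 2 + 1) * R ^ 2) with hA'
  have hA'0 : 0 < A' := mul_pos (mul_pos hApos (Real.exp_pos _)) (Real.exp_pos _)
  have hne : ∀ z, 0 < ‖F z‖ := fun z => norm_pos_iff.2 (hne0 z)
  have hcont : Continuous F := hF.continuous
  obtain ⟨g, hg, hgφ⟩ := circle_approx hR (fun z => c₀ * Real.log ‖F z‖)
    (continuousOn_const.mul ((hcont.continuousOn).norm.log fun z _ => (hne z).ne'))
    one_pos
  have hexp : ∀ z, ‖Complex.exp (-(g z / c₀)) • F z‖ =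
      Real.exp (-((g z).re / c₀) + Real.log ‖F z‖) := by
    intro z
    have h1 : (-(g z / (c₀ : ℂ))).re = -((g z).re / c₀) := by
      rw [Complex.neg_re, Complex.div_ofReal_re]
    rw [norm_smul, Complex.norm_exp, h1, Real.exp_add, Real.exp_log (hne z)]
  -- the upper bound
  have hup : ∀ z ∈ ball (0 : ℂ) R, ‖Complex.exp (-(g z / c₀)) • F z‖ ≤ Real.exp (1 / c₀) := by
    intro z hz
    have hd : DiffContOnCl ℂ (fun z => Complex.exp (-(g z / c₀)) • F z) (ball (0 : ℂ) R) :=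
      ((hg.div_const _).neg.cexp.smul hF).diffContOnCl
    refine Complex.norm_le_of_forall_mem_frontier_norm_le isBounded_ball hd (fun w hw => ?_)
      (subset_closure hz)
    rw [frontier_ball _ hR.ne'] at hw
    rw [hexp w, Real.exp_le_exp]
    have h1 := (abs_le.1 (hgφ w hw)).1
    have h3 : Real.log ‖F w‖ ≤ (1 + (g w).re) / c₀ := by
      rw [le_div_iff₀ hc]
      linarith
    rw [add_div] at h3
    linarith
  -- the lower bound
  have hlow : δ * (‖F 0‖ ^ (-c₀) * ‖Complex.exp (g 0)‖) ≤ A' := by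
    have husc : UpperSemicontinuousOn (fun z => m z * (‖F z‖ ^ (-c₀) * ‖Complex.exp (g z)‖ *
        Real.exp ((C * A ^ 2 + 1) * ‖z‖ ^ 2))) (closedBall (0 : ℂ) R) := by
      refine ch_usc hm ?_ ?_
      · refine ContinuousOn.mul (ContinuousOn.mul ?_ ?_) ?_
        · exact (hcont.continuousOn).norm.rpow_const fun z _ => Or.inl (hne z).ne'
        · exact (hg.continuous.cexp).norm.continuousOn
        · exact (Real.continuous_exp.comp
            (continuous_const.mul (continuous_norm.pow 2))).continuousOn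
      · intro z _
        exact mul_pos (mul_pos (Real.rpow_pos_of_pos (hne z) _)
          (norm_pos_iff.2 (Complex.exp_ne_zero _))) (Real.exp_pos _)
    have hmp := max_principle (isCompact_closedBall (0 : ℂ) R) isOpen_ball ball_subset_closedBall
      husc (fun z hz hz0 => ?_) hA'0.le (fun z hz => ?_) 0 (mem_closedBall_self hR.le)
    · rw [norm_zero] at hmp
      norm_num at hmp
      refine le_trans (mul_le_mul_of_nonneg_right h0 ?_) hmp
      exact mul_nonneg (Real.rpow_nonneg (norm_nonneg _) _) (norm_nonneg _)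
    · have hpos : 0 < ‖F z‖ ^ (-c₀) * ‖Complex.exp (g z)‖ *
            Real.exp ((C * A ^ 2 + 1) * ‖z‖ ^ 2) :=
        mul_pos (mul_pos (Real.rpow_pos_of_pos (hne z) _)
          (norm_pos_iff.2 (Complex.exp_ne_zero _))) (Real.exp_pos _)
      have hm0 : 0 < m z := by
        by_contra h3
        have h4 : m z ≤ 0 := not_lt.1 h3
        exact absurd hz0 (not_lt.2 (mul_nonpos_of_nonpos_of_nonneg h4 hpos.le))
      have hs1 := hsub z hz hm0
      have hs2 : Sub (fun z => ‖Complex.exp (g z)‖) z 0 :=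
        Sub.of_holo ((hg.analyticAt z).cexp) (Complex.exp_ne_zero _)
      have hs3 : Sub (fun z => Real.exp ((C * A ^ 2 + 1) * ‖z‖ ^ 2)) z
          ((C * A ^ 2 + 1) * ‖deriv (fun z : ℂ => z) z‖ ^ 2) := Sub.exp_sq analyticAt_id _
      have hs4 := (hs1.mul hs2).mul hs3
      refine ⟨_, ?_, hs4.congr (Filter.Eventually.of_forall fun w => ?_)⟩
      · have h3 : deriv (fun z : ℂ => z) z = 1 := deriv_id z
        rw [h3, norm_one, one_pow, mul_one, add_zero]
        have h4 := hA z (ball_subset_closedBall hz)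
        have h5 : m z ^ 2 ≤ A ^ 2 := by nlinarith
        nlinarith
      · ring
    · have hz1 : z ∈ sphere (0 : ℂ) R := by
        rw [← closedBall_sdiff_ball]
        exact hz
      have hzn : ‖z‖ = R := mem_sphere_zero_iff_norm.1 hz1
      have h1 := (abs_le.1 (hgφ z hz1)).2
      have h3 : ‖F z‖ ^ (-c₀) * ‖Complex.exp (g z)‖ ≤ Real.exp 1 := by
        rw [Complex.norm_exp, Real.rpow_def_of_pos (hne z), ← Real.exp_add, Real.exp_le_exp]
        linarith
      have h4 : m z ≤ A := hA z (sphere_subset_closedBall hz1)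
      have h5 : 0 ≤ ‖F z‖ ^ (-c₀) * ‖Complex.exp (g z)‖ :=
        mul_nonneg (Real.rpow_nonneg (norm_nonneg _) _) (norm_nonneg _)
      rw [hzn, hA', ← mul_assoc]
      refine mul_le_mul_of_nonneg_right ?_ (Real.exp_pos _).le
      exact mul_le_mul h4 h3 h5 hApos.le
  refine ⟨fun z => -(g z / c₀) - 1 / c₀, (hg.div_const _).neg.sub_const _, fun z hz => ?_, ?_⟩
  · have h1 := hup z hz
    have h3 : Complex.exp (-(g z / c₀) - 1 / c₀) • F z =
        Complex.exp (-(1 / c₀ : ℂ)) • (Complex.exp (-(g z / c₀)) • F z) := by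
      rw [smul_smul, ← Complex.exp_add]
      congr 2
      ring
    have h4 : ‖Complex.exp (-(1 / c₀ : ℂ))‖ = Real.exp (-(1 / c₀)) := by
      rw [Complex.norm_exp]
      congr 1
      rw [Complex.neg_re, ← Complex.ofReal_one, ← Complex.ofReal_div, Complex.ofReal_re]
    rw [h3, norm_smul, h4]
    calc Real.exp (-(1 / c₀)) * ‖Complex.exp (-(g z / c₀)) • F z‖
        ≤ Real.exp (-(1 / c₀)) * Real.exp (1 / c₀) :=
          mul_le_mul_of_nonneg_left h1 (Real.exp_pos _).le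
      _ = 1 := by rw [← Real.exp_add, neg_add_cancel, Real.exp_zero]
  · have h3 : Complex.exp (-(g 0 / c₀) - 1 / c₀) • F 0 =
        Complex.exp (-(1 / c₀ : ℂ)) • (Complex.exp (-(g 0 / c₀)) • F 0) := by
      rw [smul_smul, ← Complex.exp_add]
      congr 2
      ring
    have h4 : ‖Complex.exp (-(1 / c₀ : ℂ))‖ = Real.exp (-(1 / c₀)) := by
      rw [Complex.norm_exp]
      congr 1
      rw [Complex.neg_re, ← Complex.ofReal_one, ← Complex.ofReal_div, Complex.ofReal_re]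
    show _ ≤ ‖Complex.exp (-(g 0 / c₀) - 1 / c₀) • F 0‖
    rw [h3, norm_smul, h4, hexp 0, ← Real.exp_add, Real.exp_le_exp]
    have hlow' : ‖F 0‖ ^ (-c₀) * ‖Complex.exp (g 0)‖ ≤ A' / δ := by
      rw [le_div_iff₀ hδ, mul_comm]
      exact hlow
    rw [Complex.norm_exp, Real.rpow_def_of_pos (hne 0), ← Real.exp_add] at hlow'
    have h5 : Real.log ‖F 0‖ * -c₀ + (g 0).re ≤ Real.log (A' / δ) := by
      have h6 := Real.log_le_log (Real.exp_pos _) hlow'
      rwa [Real.log_exp] at h6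
    have h6 : A' / δ = A / δ * Real.exp 1 * Real.exp ((C * A ^ 2 + 1) * R ^ 2) := by
      rw [hA']
      ring
    rw [h6] at h5
    have h7 : ((g 0).re - Real.log (A / δ * Real.exp 1 * Real.exp ((C * A ^ 2 + 1) * R ^ 2))) / c₀ ≤
        Real.log ‖F 0‖ := by
      rw [div_le_iff₀ hc]
      linarith
    rw [sub_div] at h7
    have h8 : -(1 + Real.log (A / δ * Real.exp 1 * Real.exp ((C * A ^ 2 + 1) * R ^ 2))) / c₀ =
        -(1 / c₀) - Real.log (A / δ * Real.exp 1 * Real.exp ((C * A ^ 2 + 1) * R ^ 2)) / c₀ := by ring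
    rw [h8]
    linarith

end Pool.Agent.SY

end
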