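import Pool.Agent.H43.TL2.M21
import Pool.Agent.H43.TL2.M22
import Pool.Agent.H43.TL2.M24
import Pool.Agent.H43.TL2.M26
import Pool.Agent.H43.TL2.MQ3.Lift

/-! The parts of this file: H17BP.SmoothF, H17BP.NF, H17BP.NFBlow, H17BP.SliceF, H17BP.ArtA, H17BP.PowF, H17BP.Art, MQ3.Sat, MQ3.Glue, MQ3.Branch. -/

section

/-!
# The implicit function theorem for a smooth germ

`F 0 = 0`, `dx F 0 ≠ 0`.  `(F, y)` are local coordinates (`coord_iff`), let `(X(z, y), y')` be the inverse germ: the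
second component of the inverse is `y`, so with `ψ y = X (0, y)`: `F (ψ y, y) = 0` for small `y`, `ψ 0 = 0`, `ψ`
analytic.  Then `F (x + ψ y, y)` vanishes at `x = 0`, so `F (x + ψ y, y) = x u'(x, y)` (`exists_div_x`), hence
`F (x, y) = (x - ψ y) u (x, y)` with `u (x, y) = u' (x - ψ y, y)`, and `u 0 = dx F 0 ≠ 0` (differentiate in `x`).
If `ψ = 0` near `0`: first case; otherwise `ψ y = y ^ k v y` with `k ≥ 1`, `v 0 ≠ 0`
(`AnalyticAt.exists_eventuallyEq_pow_smul_nonzero_iff`).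
`exists_root`: the same for `dy F 0 ≠ 0`: `F (x, ρ x) = 0`.
-/

open Topology Filter

noncomputable section

namespace Pool.Agent.H17BP

private theorem SmoothF_root {F : ℂ × ℂ → ℂ} (hF : AnalyticAt ℂ F 0) (h0 : F 0 = 0) (h1 : dx F 0 ≠ 0) :
    ∃ ψ : ℂ → ℂ, AnalyticAt ℂ ψ 0 ∧ ψ 0 = 0 ∧ ∀ᶠ y in 𝓝 (0 : ℂ), F (ψ y, y) = 0 := by
  have hT : AnalyticAt ℂ (fun x : ℂ × ℂ => x.2) 0 := analyticAt_snd
  have hd : HasFDerivAt (fun x : ℂ × ℂ => x.2) (ContinuousLinearMap.snd ℂ ℂ ℂ) 0 := hasFDerivAt_snd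
  have hc : Coord F (fun x => x.2) := by
    rw [coord_iff hF hT h0 rfl]
    have e1 : dx (fun x : ℂ × ℂ => x.2) 0 = 0 := by
      unfold dx; rw [hd.fderiv]; simp
    have e2 : dy (fun x : ℂ × ℂ => x.2) 0 = 1 := by
      unfold dy; rw [hd.fderiv]; simp
    rw [e1, e2, mul_one, mul_zero, sub_zero]
    exact h1
  obtain ⟨θ', hθ, -, h4⟩ := Bihol.exists_inv hc
  have hline : AnalyticAt ℂ (fun y : ℂ => ((0 : ℂ), y)) 0 := analyticAt_const.prod analyticAt_id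
  have hline0 : (fun y : ℂ => ((0 : ℂ), y)) 0 = 0 := rfl
  have hline2 : Tendsto (fun y : ℂ => ((0 : ℂ), y)) (𝓝 0) (𝓝 0) := hline.continuousAt.tendsto
  refine ⟨fun y => (θ' (0, y)).1, ?_, ?_, ?_⟩
  · have h5 : AnalyticAt ℂ θ' ((fun y : ℂ => ((0 : ℂ), y)) 0) := hθ.an
    have h6 := AnalyticAt.comp (g := θ') (f := fun y : ℂ => ((0 : ℂ), y)) h5 hline
    exact analyticAt_fst.comp h6
  · show (θ' (0, 0)).1 = 0
    have : θ' (0, 0) = 0 := hθ.zero
    rw [this]; rfl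
  · filter_upwards [hline2.eventually h4] with y hy
    have h7 := congrArg Prod.fst hy
    have h8 := congrArg Prod.snd hy
    simp only at h7 h8
    have h9 : ((θ' (0, y)).1, y) = θ' (0, y) := Prod.ext rfl h8.symm
    rw [h9]
    exact h7

theorem smooth_normal {F : ℂ × ℂ → ℂ} (hF : AnalyticAt ℂ F 0) (h0 : F 0 = 0) (h1 : dx F 0 ≠ 0) :
    ∃ u : ℂ × ℂ → ℂ, AnalyticAt ℂ u 0 ∧ u 0 ≠ 0 ∧
      ((∀ᶠ x in 𝓝 (0 : ℂ × ℂ), F x = x.1 * u x) ∨
        ∃ (k : ℕ) (v : ℂ → ℂ), AnalyticAt ℂ v 0 ∧ v 0 ≠ 0 ∧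
          ∀ᶠ x in 𝓝 (0 : ℂ × ℂ), F x = (x.1 - x.2 ^ (k + 1) * v x.2) * u x) := by
  obtain ⟨ψ, hψ, hψ0, hroot⟩ := SmoothF_root hF h0 h1
  have hψ2 : AnalyticAt ℂ (fun x : ℂ × ℂ => ψ x.2) 0 := by
    have h2 : AnalyticAt ℂ ψ ((fun x : ℂ × ℂ => x.2) 0) := hψ
    exact AnalyticAt.comp (g := ψ) (f := fun x : ℂ × ℂ => x.2) h2 analyticAt_snd
  have hp : AnalyticAt ℂ (fun x : ℂ × ℂ => (x.1 + ψ x.2, x.2)) 0 := (analyticAt_fst.add hψ2).prod analyticAt_snd
  have hm : AnalyticAt ℂ (fun x : ℂ × ℂ => (x.1 - ψ x.2, x.2)) 0 := (analyticAt_fst.sub hψ2).prod analyticAt_snd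
  have hp0 : (fun x : ℂ × ℂ => (x.1 + ψ x.2, x.2)) 0 = 0 := by
    simp [hψ0]
  have hm0 : (fun x : ℂ × ℂ => (x.1 - ψ x.2, x.2)) 0 = 0 := by
    simp [hψ0]
  have hmt : Tendsto (fun x : ℂ × ℂ => (x.1 - ψ x.2, x.2)) (𝓝 0) (𝓝 0) := by
    have h2 := hm.continuousAt.tendsto
    have e : ((0 : ℂ × ℂ).1 - ψ (0 : ℂ × ℂ).2, (0 : ℂ × ℂ).2) = 0 := hm0
    rwa [e] at h2
  have hF1 : AnalyticAt ℂ (fun x : ℂ × ℂ => F (x.1 + ψ x.2, x.2)) 0 := by
    have h2 : AnalyticAt ℂ F ((fun x : ℂ × ℂ => (x.1 + ψ x.2, x.2)) 0) := by rw [hp0]; exact hF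
    exact AnalyticAt.comp (g := F) (f := fun x : ℂ × ℂ => (x.1 + ψ x.2, x.2)) h2 hp
  obtain ⟨g, hg, hgF⟩ := exists_div_x hF1 (by
    filter_upwards [hroot] with y hy
    simpa using hy)
  have hu : AnalyticAt ℂ (fun x : ℂ × ℂ => g (x.1 - ψ x.2, x.2)) 0 := by
    have h2 : AnalyticAt ℂ g ((fun x : ℂ × ℂ => (x.1 - ψ x.2, x.2)) 0) := by rw [hm0]; exact hg
    exact AnalyticAt.comp (g := g) (f := fun x : ℂ × ℂ => (x.1 - ψ x.2, x.2)) h2 hm
  have hFu : ∀ᶠ x in 𝓝 (0 : ℂ × ℂ), F x = (x.1 - ψ x.2) * g (x.1 - ψ x.2, x.2) := by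
    filter_upwards [hmt.eventually hgF] with x hx
    simpa using hx
  have hu0 : g ((0 : ℂ × ℂ).1 - ψ (0 : ℂ × ℂ).2, (0 : ℂ × ℂ).2) ≠ 0 := by
    intro hcon
    apply h1
    have hline : AnalyticAt ℂ (fun t : ℂ => (t, (0 : ℂ))) 0 := analyticAt_id.prod analyticAt_const
    have hline0 : (fun t : ℂ => (t, (0 : ℂ))) 0 = 0 := rfl
    have hline2 : Tendsto (fun t : ℂ => (t, (0 : ℂ))) (𝓝 0) (𝓝 0) := hline.continuousAt.tendsto
    have hld : HasDerivAt (fun t : ℂ => (t, (0 : ℂ))) ((1 : ℂ), (0 : ℂ)) 0 :=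
      (hasDerivAt_id (0 : ℂ)).prodMk (hasDerivAt_const (0 : ℂ) (0 : ℂ))
    have e1 : HasDerivAt (fun t : ℂ => F (t, 0)) (dx F 0) 0 := by
      have h2 : HasFDerivAt F (fderiv ℂ F 0) ((fun t : ℂ => (t, (0 : ℂ))) 0) := hF.differentiableAt.hasFDerivAt
      exact h2.comp_hasDerivAt (f := fun t : ℂ => (t, (0 : ℂ))) 0 hld
    have e2 : HasDerivAt (fun t : ℂ => (t - ψ 0) * g (t - ψ 0, 0)) 0 0 := by
      have h3 : DifferentiableAt ℂ (fun t : ℂ => g (t - ψ 0, 0)) 0 := by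
        have h4 : AnalyticAt ℂ (fun x : ℂ × ℂ => g (x.1 - ψ x.2, x.2)) ((fun t : ℂ => (t, (0 : ℂ))) 0) := hu
        exact (AnalyticAt.comp (g := fun x : ℂ × ℂ => g (x.1 - ψ x.2, x.2)) (f := fun t : ℂ => (t, (0 : ℂ))) h4
          hline).differentiableAt
      have h5 := ((hasDerivAt_id (0 : ℂ)).sub_const (ψ 0)).mul h3.hasDerivAt
      have h6 : g ((0 : ℂ) - ψ 0, 0) = 0 := hcon
      have h7 : HasDerivAt (fun t : ℂ => (t - ψ 0) * g (t - ψ 0, 0))
        (1 * g ((0 : ℂ) - ψ 0, 0) + ((0 : ℂ) - ψ 0) * deriv (fun t : ℂ => g (t - ψ 0, 0)) 0) 0 := h5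
      have h8 : 1 * g ((0 : ℂ) - ψ 0, 0) + ((0 : ℂ) - ψ 0) * deriv (fun t : ℂ => g (t - ψ 0, 0)) 0 = 0 := by
        rw [h6, hψ0]; ring
      rw [h8] at h7
      exact h7
    have e3 : (fun t : ℂ => F (t, 0)) =ᶠ[𝓝 0] fun t : ℂ => (t - ψ 0) * g (t - ψ 0, 0) := hline2.eventually hFu
    exact e1.unique (e2.congr_of_eventuallyEq e3)
  refine ⟨fun x => g (x.1 - ψ x.2, x.2), hu, hu0, ?_⟩
  have hsnd : Tendsto (fun x : ℂ × ℂ => x.2) (𝓝 0) (𝓝 0) := continuous_snd.tendsto (0 : ℂ × ℂ)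
  by_cases hz : ∀ᶠ y in 𝓝 (0 : ℂ), ψ y = 0
  · left
    filter_upwards [hFu, hsnd.eventually hz] with x hx hy
    rw [hx, hy, sub_zero]
  · right
    obtain ⟨n, v, hv, hv0, hev⟩ := hψ.exists_eventuallyEq_pow_smul_nonzero_iff.2 hz
    cases n with
    | zero =>
      exfalso
      have := hev.self_of_nhds
      rw [hψ0] at this
      simp at this
      exact hv0 this.symm
    | succ k =>
      refine ⟨k, v, hv, hv0, ?_⟩
      filter_upwards [hFu, hsnd.eventually hev] with x hx hy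
      rw [sub_zero, smul_eq_mul] at hy
      rw [← hy]
      exact hx

theorem exists_root {F : ℂ × ℂ → ℂ} (hF : AnalyticAt ℂ F 0) (h0 : F 0 = 0) (h1 : dy F 0 ≠ 0) :
    ∃ ρ : ℂ → ℂ, AnalyticAt ℂ ρ 0 ∧ ρ 0 = 0 ∧ ∀ᶠ x in 𝓝 (0 : ℂ), F (x, ρ x) = 0 := by
  have hs : AnalyticAt ℂ (fun x : ℂ × ℂ => (x.2, x.1)) 0 := analyticAt_snd.prod analyticAt_fst
  have hs0 : (fun x : ℂ × ℂ => (x.2, x.1)) 0 = 0 := rfl
  have hF' : AnalyticAt ℂ (fun x : ℂ × ℂ => F (x.2, x.1)) 0 := by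
    have h2 : AnalyticAt ℂ F ((fun x : ℂ × ℂ => (x.2, x.1)) 0) := by rw [hs0]; exact hF
    exact AnalyticAt.comp (g := F) (f := fun x : ℂ × ℂ => (x.2, x.1)) h2 hs
  have hd : dx (fun x : ℂ × ℂ => F (x.2, x.1)) 0 = dy F 0 := by
    have h3 : HasFDerivAt (fun x : ℂ × ℂ => (x.2, x.1))
        ((ContinuousLinearMap.snd ℂ ℂ ℂ).prod (ContinuousLinearMap.fst ℂ ℂ ℂ)) 0 :=
      hasFDerivAt_snd.prodMk hasFDerivAt_fst
    have h4 : HasFDerivAt F (fderiv ℂ F 0) ((fun x : ℂ × ℂ => (x.2, x.1)) 0) := hF.differentiableAt.hasFDerivAt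
    have h5 := h4.comp (0 : ℂ × ℂ) h3
    unfold dx dy
    have h6 : fderiv ℂ (fun x : ℂ × ℂ => F (x.2, x.1)) 0 = (fderiv ℂ F 0).comp
        ((ContinuousLinearMap.snd ℂ ℂ ℂ).prod (ContinuousLinearMap.fst ℂ ℂ ℂ)) := h5.fderiv
    rw [h6]
    simp
  obtain ⟨ψ, h2, h3, h4⟩ := SmoothF_root hF' h0 (by rw [hd]; exact h1)
  exact ⟨ψ, h2, h3, h4⟩

end Pool.Agent.H17BP

end
end

section

/-!
# The normal form of a germ of order `k + 1` in the second variable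

`IsNF k c W`: `W = ∑_{j < k} c_j(x) y^j + y^(k+1) U` with `U` a unit (no term `y^k`).

`exists_taylor`: induction on `m`: `φ (x, y) - φ (x, 0)` is divisible by `y` (`exists_div_y`), `c_0 x = φ (x, 0)`.

`exists_nf`.  Let `φ (0, y)` have order `k + 1` at `y = 0`.  Let `G = dy (dy … φ)` (`k` times), analytic at `0`
(`analyticAt_dy`).  The restriction of `G` to `x = 0` is the `k`-th derivative of `y ↦ φ (0, y)`, so `G 0 = 0` and
`dy G 0 = (k+1)-th derivative = (k+1)! * (leading coefficient) ≠ 0`.  `exists_root`: `G (x, ρ x) = 0`, `ρ 0 = 0`.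
Let `φ' (x, y) = φ (x, y + ρ x)`; `∂_y^k φ' (x, 0) = G (x, ρ x) = 0`.  `exists_taylor` with `m = k + 1` for `φ'`:
`φ' = ∑_{j ≤ k} c_j(x) y^j + y^(k+1) U`, and `k! c_k(x) = ∂_y^k φ' (x, 0) = 0`, so `c_k = 0` near `0`.
`c_j 0 = 0` for `j < k` and `U 0 ≠ 0` because `φ' (0, y) = φ (0, y)` (as `ρ 0 = 0`) has order exactly `k + 1`.
(One can avoid iterated derivatives: apply `exists_taylor` to `Φ (x, s, …)`; any proof is fine. A possible one:
write `φ = ∑_{j ≤ k} a_j(x) y^j + y^(k+1) V`, and note that the coefficient of `y^k` of `φ (x, y + s)` is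
`A (x, s) = ∑_j a_j(x) C(j,k) s^(j-k) + …` — it is an analytic function of `(x, s)` with `A (0, 0) = 0` and
`∂_s A (0, 0) = (k+1) V(0, 0) ≠ 0`.)
-/

open Topology Filter

noncomputable section

namespace Pool.Agent.H17BP

/-- `W = ∑_{j < k} c_j(x) y^j + y^(k+1) U`, the `c_j` vanish at `0`, `U` is a unit. -/
def IsNF (k : ℕ) (c : ℕ → ℂ → ℂ) (W : ℂ × ℂ → ℂ) : Prop :=
  (∀ j < k, AnalyticAt ℂ (c j) 0 ∧ c j 0 = 0) ∧ ∃ U : ℂ × ℂ → ℂ, AnalyticAt ℂ U 0 ∧ U 0 ≠ 0 ∧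
    ∀ᶠ x in 𝓝 (0 : ℂ × ℂ), W x = ∑ j ∈ Finset.range k, c j x.1 * x.2 ^ j + x.2 ^ (k + 1) * U x

theorem exists_taylor (m : ℕ) : ∀ {φ : ℂ × ℂ → ℂ}, AnalyticAt ℂ φ 0 → ∃ (c : ℕ → ℂ → ℂ) (U : ℂ × ℂ → ℂ),
    (∀ j, AnalyticAt ℂ (c j) 0) ∧ AnalyticAt ℂ U 0 ∧
      ∀ᶠ x in 𝓝 (0 : ℂ × ℂ), φ x = ∑ j ∈ Finset.range m, c j x.1 * x.2 ^ j + x.2 ^ m * U x := by
  induction m with
  | zero =>
    intro φ hφ
    refine ⟨fun _ _ => 0, φ, fun _ => analyticAt_const, hφ, Eventually.of_forall fun x => ?_⟩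
    rw [Finset.sum_range_zero, pow_zero, one_mul, zero_add]
  | succ m ih =>
    intro φ hφ
    obtain ⟨c, U, hc, hU, he⟩ := ih hφ
    have hU0 : AnalyticAt ℂ (fun x : ℂ => U (x, 0)) 0 := by
      have h1 : AnalyticAt ℂ (fun x : ℂ => (x, (0 : ℂ))) 0 := analyticAt_id.prod analyticAt_const
      exact AnalyticAt.comp_of_eq (g := U) (f := fun x : ℂ => (x, (0 : ℂ))) hU h1 rfl
    have hU1 : AnalyticAt ℂ (fun z : ℂ × ℂ => U (z.1, 0)) 0 := by
      have h2 : AnalyticAt ℂ (fun x : ℂ => U (x, 0)) ((fun z : ℂ × ℂ => z.1) 0) := hU0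
      exact h2.comp analyticAt_fst
    obtain ⟨g, hg, hge⟩ := exists_div_y (f := fun z : ℂ × ℂ => U z - U (z.1, 0)) (hU.sub hU1)
      (Eventually.of_forall fun x => sub_self _)
    refine ⟨fun j => if j = m then fun x => U (x, 0) else c j, g, ?_, hg, ?_⟩
    · intro j
      dsimp only
      split_ifs
      · exact hU0
      · exact hc j
    · filter_upwards [he, hge] with z hz hz'
      rw [hz, Finset.sum_range_succ]
      have e1 : ∑ j ∈ Finset.range m, (if j = m then fun x => U (x, 0) else c j) z.1 * z.2 ^ j =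
          ∑ j ∈ Finset.range m, c j z.1 * z.2 ^ j := by
        refine Finset.sum_congr rfl fun j hj => ?_
        rw [if_neg (Finset.mem_range.1 hj).ne]
      rw [e1, if_pos rfl]
      have e2 : U z = U (z.1, 0) + z.2 * g z := by
        rw [smul_eq_mul] at hz'
        linear_combination hz'
      rw [e2]
      ring

/-- The `n`-th derivative at `0` reads off the coefficient. -/
private theorem NF_coef (n : ℕ) : ∀ (c : ℕ → ℂ) (v h : ℂ → ℂ), AnalyticAt ℂ v 0 →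
    (∀ᶠ y in 𝓝 (0 : ℂ), h y = ∑ j ∈ Finset.range n, c j * y ^ j + y ^ n * v y) →
    iteratedDeriv n h 0 = (n.factorial : ℂ) * v 0 := by
  induction n with
  | zero =>
    intro c v h _ he
    have h1 := he.self_of_nhds
    rw [Finset.sum_range_zero, pow_zero, one_mul, zero_add] at h1
    rw [iteratedDeriv_zero, Nat.factorial_zero, Nat.cast_one, one_mul]
    exact h1
  | succ n ih =>
    intro c v h hv he
    rw [iteratedDeriv_succ']
    have hw : AnalyticAt ℂ (fun y => ((n + 1 : ℕ) : ℂ) * v y + y * deriv v y) 0 :=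
      (analyticAt_const.mul hv).add (analyticAt_id.mul hv.deriv)
    have key := ih (fun j => ((j + 1 : ℕ) : ℂ) * c (j + 1)) (fun y => ((n + 1 : ℕ) : ℂ) * v y + y * deriv v y)
      (deriv h) hw ?_
    · rw [key]
      simp only [zero_mul, add_zero]
      rw [Nat.factorial_succ]
      push_cast
      ring
    · filter_upwards [he.eventually_nhds, hv.eventually_analyticAt] with y hy hvy
      have hd : HasDerivAt (fun y => ∑ j ∈ Finset.range (n + 1), c j * y ^ j + y ^ (n + 1) * v y)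
          (∑ j ∈ Finset.range (n + 1), c j * ((j : ℂ) * y ^ (j - 1)) +
            (((n + 1 : ℕ) : ℂ) * y ^ (n + 1 - 1) * v y + y ^ (n + 1) * deriv v y)) y := by
        refine HasDerivAt.add ?_ ?_
        · refine HasDerivAt.fun_sum fun j _ => ?_
          exact (hasDerivAt_pow j y).const_mul (c j)
        · exact (hasDerivAt_pow (n + 1) y).mul hvy.differentiableAt.hasDerivAt
      have hd' : deriv h y = _ := (Filter.EventuallyEq.deriv_eq (f₁ := h) hy).trans hd.deriv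
      rw [hd', Finset.sum_range_succ', Nat.cast_zero, zero_mul, mul_zero, add_zero, Nat.add_sub_cancel]
      have e1 : ∑ j ∈ Finset.range n, c (j + 1) * (((j + 1 : ℕ) : ℂ) * y ^ (j + 1 - 1)) =
          ∑ j ∈ Finset.range n, ((j + 1 : ℕ) : ℂ) * c (j + 1) * y ^ j := by
        refine Finset.sum_congr rfl fun j _ => ?_
        rw [Nat.add_sub_cancel]
        ring
      rw [e1]
      ring

private theorem NF_coef' (m j : ℕ) (hj : j < m) (c : ℕ → ℂ) (u h : ℂ → ℂ) (hu : AnalyticAt ℂ u 0)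
    (he : ∀ᶠ y in 𝓝 (0 : ℂ), h y = ∑ i ∈ Finset.range m, c i * y ^ i + y ^ m * u y) :
    iteratedDeriv j h 0 = (j.factorial : ℂ) * c j := by
  obtain ⟨t, rfl⟩ : ∃ t, m = j + (t + 1) := ⟨m - j - 1, by omega⟩
  have hv : AnalyticAt ℂ (fun y => ∑ i ∈ Finset.range (t + 1), c (j + i) * y ^ i + y ^ (t + 1) * u y) 0 := by
    refine AnalyticAt.add ?_ ((analyticAt_id.pow (t + 1)).mul hu)
    exact Finset.analyticAt_fun_sum _ fun i _ => analyticAt_const.mul (analyticAt_id.pow i)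
  have key := NF_coef j c (fun y => ∑ i ∈ Finset.range (t + 1), c (j + i) * y ^ i + y ^ (t + 1) * u y) h hv ?_
  · rw [key]
    congr 1
    rw [zero_pow (Nat.succ_ne_zero t), zero_mul, add_zero, Finset.sum_range_succ', pow_zero, mul_one, add_zero]
    rw [Finset.sum_eq_zero (fun i _ => by rw [zero_pow (Nat.succ_ne_zero i), mul_zero]), zero_add]
  · filter_upwards [he] with y hy
    have e1 : ∑ i ∈ Finset.range (t + 1), c (j + i) * y ^ (j + i) =
        y ^ j * ∑ i ∈ Finset.range (t + 1), c (j + i) * y ^ i := by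
      rw [Finset.mul_sum]
      refine Finset.sum_congr rfl fun i _ => ?_
      rw [pow_add]
      ring
    rw [hy, Finset.sum_range_add, e1, pow_add]
    ring

private theorem NF_iter_an (n : ℕ) : ∀ {f : ℂ × ℂ → ℂ} {z : ℂ × ℂ}, AnalyticAt ℂ f z → AnalyticAt ℂ (dy^[n] f) z := by
  induction n with
  | zero => intro f z h; exact h
  | succ n ih =>
    intro f z h
    rw [Function.iterate_succ_apply']
    exact analyticAt_dy (ih h)

private theorem NF_deriv {f : ℂ × ℂ → ℂ} {x y : ℂ} (h : AnalyticAt ℂ f (x, y)) :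
    deriv (fun t : ℂ => f (x, t)) y = dy f (x, y) := by
  have h1 : HasFDerivAt f (fderiv ℂ f (x, y)) (x, y) := h.differentiableAt.hasFDerivAt
  have h2 : HasDerivAt (fun t : ℂ => (x, t)) ((0 : ℂ), (1 : ℂ)) y :=
    (hasDerivAt_const y x).prodMk (hasDerivAt_id y)
  have h3 : HasDerivAt (fun t : ℂ => f (x, t)) (fderiv ℂ f (x, y) ((0 : ℂ), (1 : ℂ))) y :=
    HasFDerivAt.comp_hasDerivAt y h1 h2
  exact h3.deriv

private theorem NF_iter (n : ℕ) : ∀ {f : ℂ × ℂ → ℂ} {x y : ℂ}, AnalyticAt ℂ f (x, y) →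
    iteratedDeriv n (fun t : ℂ => f (x, t)) y = (dy^[n] f) (x, y) := by
  induction n with
  | zero => intro f x y _; rw [iteratedDeriv_zero]; rfl
  | succ n ih =>
    intro f x y h
    rw [iteratedDeriv_succ, Function.iterate_succ_apply', ← NF_deriv (NF_iter_an n h)]
    refine Filter.EventuallyEq.deriv_eq ?_
    have ht : Tendsto (fun t : ℂ => (x, t)) (𝓝 y) (𝓝 (x, y)) :=
      (continuous_const.prodMk continuous_id).tendsto y
    filter_upwards [ht.eventually h.eventually_analyticAt] with t ht'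
    exact ih ht'

theorem exists_nf {k : ℕ} {φ : ℂ × ℂ → ℂ} (hφ : AnalyticAt ℂ φ 0)
    (ho : analyticOrderAt (fun y : ℂ => φ (0, y)) 0 = ((k + 1 : ℕ) : ℕ∞)) :
    ∃ ρ : ℂ → ℂ, AnalyticAt ℂ ρ 0 ∧ ρ 0 = 0 ∧ ∃ c : ℕ → ℂ → ℂ,
      IsNF k c (fun x => φ (x.1, x.2 + ρ x.1)) := by
  have hφ' : AnalyticAt ℂ φ ((0 : ℂ), (0 : ℂ)) := hφ
  have hw : AnalyticAt ℂ (fun y : ℂ => φ (0, y)) 0 := by
    have h1 : AnalyticAt ℂ (fun y : ℂ => ((0 : ℂ), y)) 0 := analyticAt_const.prod analyticAt_id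
    have h2 : AnalyticAt ℂ φ ((fun y : ℂ => ((0 : ℂ), y)) 0) := hφ
    exact h2.comp h1
  obtain ⟨g, hg, hg0, hge⟩ := hw.analyticOrderAt_eq_natCast.1 ho
  have hge' : ∀ᶠ y in 𝓝 (0 : ℂ), φ (0, y) = ∑ j ∈ Finset.range (k + 1), (fun _ : ℕ => (0 : ℂ)) j * y ^ j +
      y ^ (k + 1) * g y := by
    filter_upwards [hge] with y hy
    rw [hy, sub_zero, smul_eq_mul, Finset.sum_eq_zero (fun j _ => zero_mul _), zero_add]
  have hd1 : iteratedDeriv (k + 1) (fun y : ℂ => φ (0, y)) 0 ≠ 0 := by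
    rw [NF_coef (k + 1) (fun _ => 0) g _ hg hge']
    exact mul_ne_zero (by exact_mod_cast (Nat.factorial_ne_zero _)) hg0
  have hd0 : ∀ j < k + 1, iteratedDeriv j (fun y : ℂ => φ (0, y)) 0 = 0 := by
    intro j hj
    rw [NF_coef' (k + 1) j hj (fun _ => 0) g _ hg hge', mul_zero]
  have hG0 : (dy^[k] φ) 0 = 0 := by
    have h := NF_iter k hφ'
    rw [hd0 k (Nat.lt_succ_self k)] at h
    exact h.symm
  have hG1 : dy (dy^[k] φ) 0 ≠ 0 := by
    have h := NF_iter (k + 1) hφ'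
    rw [Function.iterate_succ_apply'] at h
    intro h'
    exact hd1 (h.trans h')
  obtain ⟨ρ, hρ, hρ0, hρe⟩ := exists_root (NF_iter_an k hφ) hG0 hG1
  have hψ : AnalyticAt ℂ (fun x : ℂ × ℂ => φ (x.1, x.2 + ρ x.1)) 0 := by
    have h1 : AnalyticAt ℂ (fun x : ℂ × ℂ => ρ x.1) 0 := by
      have h2 : AnalyticAt ℂ ρ ((fun z : ℂ × ℂ => z.1) 0) := hρ
      exact h2.comp analyticAt_fst
    have h3 : AnalyticAt ℂ (fun x : ℂ × ℂ => (x.1, x.2 + ρ x.1)) 0 :=
      analyticAt_fst.prod (analyticAt_snd.add h1)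
    refine AnalyticAt.comp_of_eq (g := φ) (f := fun x : ℂ × ℂ => (x.1, x.2 + ρ x.1)) hφ h3 ?_
    simp [hρ0]
  obtain ⟨c, U, hc, hU, he⟩ := exists_taylor (k + 1) hψ
  -- slices
  have hslice : ∀ᶠ x in 𝓝 (0 : ℂ), ∀ᶠ y in 𝓝 (0 : ℂ), φ (x, y + ρ x) =
      ∑ j ∈ Finset.range (k + 1), c j x * y ^ j + y ^ (k + 1) * U (x, y) := by
    have he' : ∀ᶠ z in 𝓝 ((0 : ℂ), (0 : ℂ)), φ (z.1, z.2 + ρ z.1) =
      ∑ j ∈ Finset.range (k + 1), c j z.1 * z.2 ^ j + z.2 ^ (k + 1) * U z := he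
    exact he'.curry_nhds
  have hUs : ∀ᶠ x in 𝓝 (0 : ℂ), AnalyticAt ℂ (fun y : ℂ => U (x, y)) 0 := by
    have ht : Tendsto (fun x : ℂ => (x, (0 : ℂ))) (𝓝 0) (𝓝 ((0 : ℂ), (0 : ℂ))) :=
      (continuous_id.prodMk continuous_const).tendsto 0
    have hU' : AnalyticAt ℂ U ((0 : ℂ), (0 : ℂ)) := hU
    filter_upwards [ht.eventually hU'.eventually_analyticAt] with x hx
    have h1 : AnalyticAt ℂ (fun y : ℂ => (x, y)) 0 := analyticAt_const.prod analyticAt_id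
    have h2 : AnalyticAt ℂ U ((fun y : ℂ => (x, y)) 0) := hx
    exact h2.comp h1
  have hφs : ∀ᶠ x in 𝓝 (0 : ℂ), AnalyticAt ℂ φ (x, ρ x) := by
    have ht : Tendsto (fun x : ℂ => (x, ρ x)) (𝓝 0) (𝓝 ((0 : ℂ), (0 : ℂ))) := by
      have := (continuousAt_id (x := (0 : ℂ))).prodMk hρ.continuousAt
      have h2 := this.tendsto
      simp only [id_eq, hρ0] at h2
      exact h2
    exact ht.eventually hφ'.eventually_analyticAt
  have hck : ∀ᶠ x in 𝓝 (0 : ℂ), c k x = 0 := by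
    filter_upwards [hslice, hUs, hφs, hρe] with x h1 h2 h3 h4
    have h5 := NF_coef' (k + 1) k (Nat.lt_succ_self k) (fun j => c j x) (fun y => U (x, y))
      (fun y => φ (x, y + ρ x)) h2 h1
    have h6 : iteratedDeriv k (fun y => φ (x, y + ρ x)) 0 = 0 := by
      rw [iteratedDeriv_comp_add_const k (fun y => φ (x, y)) (ρ x)]
      dsimp only
      rw [zero_add, NF_iter k h3]
      exact h4
    rw [h6] at h5
    have h7 := h5.symm
    rcases mul_eq_zero.1 h7 with h8 | h8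
    · exact absurd h8 (by exact_mod_cast (Nat.factorial_ne_zero _))
    · exact h8
  have hs0 := hslice.self_of_nhds
  have hU0a := hUs.self_of_nhds
  rw [hρ0] at hs0
  simp only [add_zero] at hs0
  refine ⟨ρ, hρ, hρ0, c, ?_, U, hU, ?_, ?_⟩
  · intro j hj
    refine ⟨hc j, ?_⟩
    have h5 := NF_coef' (k + 1) j (by omega) (fun j => c j 0) (fun y => U (0, y)) (fun y => φ (0, y)) hU0a hs0
    rw [hd0 j (by omega)] at h5
    rcases mul_eq_zero.1 h5.symm with h8 | h8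
    · exact absurd h8 (by exact_mod_cast (Nat.factorial_ne_zero _))
    · exact h8
  · have h5 := NF_coef (k + 1) (fun j => c j 0) (fun y => U (0, y)) (fun y => φ (0, y)) hU0a hs0
    intro h6
    apply hd1
    rw [h5]
    have h7 : U ((0 : ℂ), (0 : ℂ)) = 0 := h6
    rw [h7, mul_zero]
  · have hf : Tendsto (fun z : ℂ × ℂ => z.1) (𝓝 0) (𝓝 (0 : ℂ)) := continuous_fst.tendsto _
    filter_upwards [he, hf.eventually hck] with z hz hz'
    rw [hz, Finset.sum_range_succ, hz', zero_mul, add_zero]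

end Pool.Agent.H17BP

end
end

section

/-!
# The blow-up of a germ in normal form of multiplicity `k + 1`

`c_j x = x^(k+1-j) c'_j x` near `0` (order at least `k+1-j`; `AnalyticAt` order lemmas, `natCast_le_analyticOrderAt`),
`γ_j = c'_j 0`, `U0 = U 0`.
`W (x, x (c0+w)) = ∑_j x^(k+1-j) c'_j(x) x^j (c0+w)^j + x^(k+1) (c0+w)^(k+1) U(x, x(c0+w))
 = x^(k+1) ψ`, `ψ (x, w) = ∑_j c'_j(x) (c0+w)^j + (c0+w)^(k+1) U (x, x (c0+w))`; `ψ (0, w) = ∑ γ_j (c0+w)^j + U0 (c0+w)^(k+1)`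
(here `U (0, 0) = U0`).  For `c0 = 0` and all `γ_j = 0`: `ψ = ∑ c'_j(x) w^j + w^(k+1) U(x, x w)`: `IsNF k c' ψ`.
`W (x y, y) = ∑_j (x y)^(k+1-j) c'_j(x y) y^j + y^(k+1) U(x y, y) = y^(k+1) ψ`,
`ψ = ∑_j x^(k+1-j) c'_j(x y) + U(x y, y)`, `ψ 0 = U0 ≠ 0` since `k + 1 - j ≥ 1`.
-/

open Topology Filter

noncomputable section

namespace Pool.Agent.H17BP

theorem nf_blow {k : ℕ} {c : ℕ → ℂ → ℂ} {W : ℂ × ℂ → ℂ} (h : IsNF k c W)
    (ho : ∀ j < k, ((k + 1 - j : ℕ) : ℕ∞) ≤ analyticOrderAt (c j) 0) :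
    ∃ (γ : ℕ → ℂ) (U₀ : ℂ) (c' : ℕ → ℂ → ℂ), U₀ ≠ 0 ∧
      (∀ j < k, AnalyticAt ℂ (c' j) 0 ∧ c' j 0 = γ j ∧
        ∀ᶠ x in 𝓝 (0 : ℂ), c j x = x ^ (k + 1 - j) * c' j x) ∧
      (∀ c₀ : ℂ, ∃ ψ : ℂ × ℂ → ℂ, AnalyticAt ℂ ψ 0 ∧
        (∀ᶠ x in 𝓝 (0 : ℂ × ℂ), W (bl c₀ x) = x.1 ^ (k + 1) * ψ x) ∧
        (∀ᶠ w in 𝓝 (0 : ℂ), ψ (0, w) =
          ∑ j ∈ Finset.range k, γ j * (c₀ + w) ^ j + U₀ * (c₀ + w) ^ (k + 1)) ∧
        (c₀ = 0 → (∀ j < k, γ j = 0) → IsNF k c' ψ)) ∧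
      ∃ ψ : ℂ × ℂ → ℂ, AnalyticAt ℂ ψ 0 ∧ ψ 0 ≠ 0 ∧
        ∀ᶠ x in 𝓝 (0 : ℂ × ℂ), W (blInf x) = x.2 ^ (k + 1) * ψ x := by
  obtain ⟨hc, U, hU, hU0, hW⟩ := h
  have hex : ∀ j, ∃ g : ℂ → ℂ, j < k → AnalyticAt ℂ g 0 ∧
      ∀ᶠ x in 𝓝 (0 : ℂ), c j x = x ^ (k + 1 - j) * g x := by
    intro j
    by_cases hj : j < k
    · obtain ⟨g, hg, hgx⟩ := (natCast_le_analyticOrderAt (hc j hj).1).1 (ho j hj)
      refine ⟨g, fun _ => ⟨hg, ?_⟩⟩
      filter_upwards [hgx] with x hx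
      rw [hx, sub_zero, smul_eq_mul]
    · exact ⟨0, fun h => absurd h hj⟩
  choose c' hc' using hex
  have hfst : Tendsto (fun x : ℂ × ℂ => x.1) (𝓝 0) (𝓝 0) := continuous_fst.tendsto' _ _ rfl
  have hprod : Tendsto (fun x : ℂ × ℂ => x.1 * x.2) (𝓝 0) (𝓝 0) :=
    (continuous_fst.mul continuous_snd).tendsto' _ _ (by simp)
  have hall : ∀ᶠ x in 𝓝 (0 : ℂ), ∀ j ∈ Finset.range k, c j x = x ^ (k + 1 - j) * c' j x := by
    rw [Filter.eventually_all_finset]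
    intro j hj
    exact (hc' j (Finset.mem_range.1 hj)).2
  have hbl : ∀ c₀ : ℂ, Tendsto (bl c₀) (𝓝 0) (𝓝 0) := by
    intro c₀
    have := (analyticAt_bl c₀ 0).continuousAt.tendsto
    rwa [bl_zero] at this
  have hblInf : Tendsto blInf (𝓝 0) (𝓝 0) := by
    have := (analyticAt_blInf 0).continuousAt.tendsto
    rwa [blInf_zero] at this
  refine ⟨fun j => c' j 0, U 0, c', hU0, ?_, ?_, ?_⟩
  · intro j hj
    exact ⟨(hc' j hj).1, rfl, (hc' j hj).2⟩
  · intro c₀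
    refine ⟨fun x => ∑ j ∈ Finset.range k, c' j x.1 * (c₀ + x.2) ^ j + (c₀ + x.2) ^ (k + 1) * U (bl c₀ x),
      ?_, ?_, ?_, ?_⟩
    · have h1 : AnalyticAt ℂ (fun x : ℂ × ℂ => ∑ j ∈ Finset.range k, c' j x.1 * (c₀ + x.2) ^ j) 0 := by
        refine Finset.analyticAt_fun_sum _ fun j hj => ?_
        have h2 : AnalyticAt ℂ (fun x : ℂ × ℂ => c' j x.1) 0 := by
          have h3 : AnalyticAt ℂ (c' j) ((0 : ℂ × ℂ).1) := (hc' j (Finset.mem_range.1 hj)).1
          exact AnalyticAt.comp (g := c' j) (f := fun x : ℂ × ℂ => x.1) h3 analyticAt_fst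
        exact h2.mul ((analyticAt_const.add analyticAt_snd).pow j)
      have h4 : AnalyticAt ℂ (fun x : ℂ × ℂ => U (bl c₀ x)) 0 := by
        have h5 : AnalyticAt ℂ U (bl c₀ 0) := by rw [bl_zero]; exact hU
        exact AnalyticAt.comp (g := U) (f := bl c₀) h5 (analyticAt_bl c₀ 0)
      exact h1.add (((analyticAt_const.add analyticAt_snd).pow (k + 1)).mul h4)
    · filter_upwards [(hbl c₀).eventually hW, hfst.eventually hall] with x hx hx'
      rw [hx]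
      show ∑ j ∈ Finset.range k, c j x.1 * (x.1 * (c₀ + x.2)) ^ j + (x.1 * (c₀ + x.2)) ^ (k + 1) * U (bl c₀ x) =
        x.1 ^ (k + 1) * (∑ j ∈ Finset.range k, c' j x.1 * (c₀ + x.2) ^ j + (c₀ + x.2) ^ (k + 1) * U (bl c₀ x))
      rw [mul_add (x.1 ^ (k + 1)), Finset.mul_sum]
      congr 1
      · refine Finset.sum_congr rfl fun j hj => ?_
        have hj' := Finset.mem_range.1 hj
        rw [hx' j hj, mul_pow]
        have h6 : x.1 ^ (k + 1) = x.1 ^ (k + 1 - j) * x.1 ^ j := by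
          rw [← pow_add]
          congr 1
          omega
        rw [h6]
        ring
      · rw [mul_pow]
        ring
    · refine Eventually.of_forall fun w => ?_
      have h7 : bl c₀ ((0 : ℂ), w) = 0 := by
        simp [bl]
      show ∑ j ∈ Finset.range k, c' j 0 * (c₀ + w) ^ j + (c₀ + w) ^ (k + 1) * U (bl c₀ (0, w)) = _
      rw [h7]
      ring
    · rintro rfl hγ
      refine ⟨fun j hj => ⟨(hc' j hj).1, hγ j hj⟩, fun x => U (bl 0 x), ?_, ?_, ?_⟩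
      · have h5 : AnalyticAt ℂ U (bl 0 0) := by rw [bl_zero]; exact hU
        exact AnalyticAt.comp (g := U) (f := bl 0) h5 (analyticAt_bl 0 0)
      · show U (bl 0 0) ≠ 0
        rw [bl_zero]
        exact hU0
      · refine Eventually.of_forall fun x => ?_
        show ∑ j ∈ Finset.range k, c' j x.1 * (0 + x.2) ^ j + (0 + x.2) ^ (k + 1) * U (bl 0 x) = _
        rw [zero_add]
  · refine ⟨fun x => ∑ j ∈ Finset.range k, x.1 ^ (k + 1 - j) * c' j (x.1 * x.2) + U (blInf x), ?_, ?_, ?_⟩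
    · have h1 : AnalyticAt ℂ (fun x : ℂ × ℂ => ∑ j ∈ Finset.range k, x.1 ^ (k + 1 - j) * c' j (x.1 * x.2)) 0 := by
        refine Finset.analyticAt_fun_sum _ fun j hj => ?_
        have h2 : AnalyticAt ℂ (fun x : ℂ × ℂ => c' j (x.1 * x.2)) 0 := by
          have h3 : AnalyticAt ℂ (c' j) ((fun x : ℂ × ℂ => x.1 * x.2) 0) := by
            have h4 : (fun x : ℂ × ℂ => x.1 * x.2) 0 = 0 := by simp
            rw [h4]
            exact (hc' j (Finset.mem_range.1 hj)).1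
          exact AnalyticAt.comp (g := c' j) (f := fun x : ℂ × ℂ => x.1 * x.2) h3
            (analyticAt_fst.mul analyticAt_snd)
        exact (analyticAt_fst.pow _).mul h2
      have h4 : AnalyticAt ℂ (fun x : ℂ × ℂ => U (blInf x)) 0 := by
        have h5 : AnalyticAt ℂ U (blInf 0) := by rw [blInf_zero]; exact hU
        exact AnalyticAt.comp (g := U) (f := blInf) h5 (analyticAt_blInf 0)
      exact h1.add h4
    · show ∑ j ∈ Finset.range k, (0 : ℂ) ^ (k + 1 - j) * c' j ((0 : ℂ) * (0 : ℂ)) + U (blInf 0) ≠ 0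
      rw [blInf_zero, Finset.sum_eq_zero, zero_add]
      · exact hU0
      · intro j hj
        have hj' := Finset.mem_range.1 hj
        rw [zero_pow (by omega), zero_mul]
    · filter_upwards [hblInf.eventually hW, hprod.eventually hall] with x hx hx'
      rw [hx]
      show ∑ j ∈ Finset.range k, c j (x.1 * x.2) * x.2 ^ j + x.2 ^ (k + 1) * U (blInf x) =
        x.2 ^ (k + 1) * (∑ j ∈ Finset.range k, x.1 ^ (k + 1 - j) * c' j (x.1 * x.2) + U (blInf x))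
      rw [mul_add, Finset.mul_sum]
      congr 1
      refine Finset.sum_congr rfl fun j hj => ?_
      have hj' := Finset.mem_range.1 hj
      rw [hx' j hj, mul_pow]
      have h6 : x.2 ^ (k + 1) = x.2 ^ (k + 1 - j) * x.2 ^ j := by
        rw [← pow_add]
        congr 1
        omega
      rw [h6]
      ring

end Pool.Agent.H17BP

end
end

section

/-!
# Slices

`exists_slice`: `W (z, z v) = ∑_{j<k} c_j(z) z^j v^j + z^(k+1) v^(k+1) U(z, z v)`.  Let `e` be the minimum of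
`ord c_j + j` (`j < k`), `e ≤ k` by assumption (some `ord c_j < k + 1 - j`), `c_j(z) z^j = z^e δ_j(z)` with `δ_j`
analytic and some `δ_j 0 ≠ 0`.  So `W (z, z v) = z^e (∑ δ_j(z) v^j + z^(k+1-e) …)` and the value of the bracket at
`z = 0` is the non-zero polynomial `∑ δ_j(0) v^j` in `v`; choose `v` with a non-zero value (infinitely many `v`).
Then the order is `e ≤ k`.

`exists_slice_of_ne`: let `g` be analytic on the ball of radius `r` about `0` (all points).  If all slices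
`z ↦ g (z v₁, z v₂)`, `‖v‖ < 1`, had order `⊤` (vanish near `0`), they would vanish for `‖z‖ < r` (identity
theorem, `AnalyticOnNhd.eqOn_zero_of_preconnected_of_eventuallyEq_zero`), and `g = 0` near `0`.

`exists_lin`: `v ≠ 0`; if `v.2 ≠ 0` take `θ (x, y) = (x + y v.1, y v.2)`, otherwise `θ (x, y) = (y v.1, x + y v.2)`;
`Bihol` by the explicit inverse (or `bihol_iff`).
-/

open Topology Filter

noncomputable section

namespace Pool.Agent.H17BP

private theorem slice_tendsto (v : ℂ) : Tendsto (fun z : ℂ => ((z, z * v) : ℂ × ℂ)) (𝓝 0) (𝓝 0) := by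
  have h : Continuous (fun z : ℂ => ((z, z * v) : ℂ × ℂ)) := by fun_prop
  have h1 := h.tendsto 0
  have h2 : ((0 : ℂ), (0 : ℂ) * v) = (0 : ℂ × ℂ) := by simp
  rw [h2] at h1
  exact h1

private theorem slice_analytic (v : ℂ) (z : ℂ) : AnalyticAt ℂ (fun z : ℂ => ((z, z * v) : ℂ × ℂ)) z :=
  analyticAt_id.prod (analyticAt_id.mul analyticAt_const)

private theorem exists_delta {c : ℂ → ℂ} (hc : AnalyticAt ℂ c 0) {e j : ℕ}
    (h : (e : ℕ∞) ≤ analyticOrderAt c 0 + j) :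
    ∃ δ : ℂ → ℂ, AnalyticAt ℂ δ 0 ∧ (∀ᶠ z in 𝓝 (0 : ℂ), c z * z ^ j = z ^ e * δ z) ∧
      (analyticOrderAt c 0 + j = e → δ 0 ≠ 0) := by
  have han : AnalyticAt ℂ (fun z : ℂ => c z * z ^ j) 0 := hc.mul (analyticAt_id.pow j)
  have ho : analyticOrderAt (fun z : ℂ => c z * z ^ j) 0 = analyticOrderAt c 0 + j := by
    have h1 := analyticOrderAt_mul (f := c) (g := fun z : ℂ => z ^ j) hc (analyticAt_id.pow j)
    have h2 : analyticOrderAt (fun z : ℂ => z ^ j) 0 = j := by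
      have := analyticOrderAt_centeredMonomial (𝕜 := ℂ) (z₀ := (0 : ℂ)) (n := j)
      have h3 : ((fun z : ℂ => z - 0) ^ j) = fun z : ℂ => z ^ j := by
        funext z
        simp
      rw [← h3]
      exact this
    rw [h2] at h1
    exact h1
  by_cases hE : analyticOrderAt c 0 + j = e
  · rw [hE] at ho
    obtain ⟨g, hg, hg0, hgz⟩ := han.analyticOrderAt_eq_natCast.1 ho
    refine ⟨g, hg, ?_, fun _ => hg0⟩
    filter_upwards [hgz] with z hz
    rw [hz, sub_zero, smul_eq_mul]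
  · rw [← ho] at h
    obtain ⟨g, hg, hgz⟩ := (natCast_le_analyticOrderAt han).1 h
    refine ⟨g, hg, ?_, fun h' => absurd h' hE⟩
    filter_upwards [hgz] with z hz
    rw [hz, sub_zero, smul_eq_mul]

theorem exists_slice {k : ℕ} {c : ℕ → ℂ → ℂ} {W : ℂ × ℂ → ℂ} (h : IsNF k c W)
    (hj : ∃ j < k, analyticOrderAt (c j) 0 < ((k + 1 - j : ℕ) : ℕ∞)) :
    ∃ v : ℂ, analyticOrderAt (fun z : ℂ => W (z, z * v)) 0 ≤ (k : ℕ∞) := by
  obtain ⟨hc, U, hU, hU0, hW⟩ := h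
  -- the set of exponents
  have hex : ∃ e : ℕ, ∃ j < k, analyticOrderAt (c j) 0 + j = (e : ℕ∞) := by
    obtain ⟨j, hjk, hj⟩ := hj
    have h1 : analyticOrderAt (c j) 0 ≠ ⊤ := ne_top_of_lt hj
    obtain ⟨m, hm⟩ := ENat.ne_top_iff_exists.1 h1
    refine ⟨m + j, j, hjk, ?_⟩
    rw [← hm]
    push_cast
    rfl
  classical
  obtain ⟨j0, hj0, hj0e⟩ := Nat.find_spec hex
  set e := Nat.find hex with he
  have hmin : ∀ j < k, (e : ℕ∞) ≤ analyticOrderAt (c j) 0 + j := by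
    intro j hjk
    by_cases ht : analyticOrderAt (c j) 0 = ⊤
    · rw [ht]
      simp
    · obtain ⟨m, hm⟩ := ENat.ne_top_iff_exists.1 ht
      rw [← hm]
      have h2 : e ≤ m + j := Nat.find_min' hex ⟨j, hjk, by rw [← hm]; push_cast; rfl⟩
      exact_mod_cast h2
  have hek : e ≤ k := by
    obtain ⟨j, hjk, hj⟩ := hj
    have h1 : analyticOrderAt (c j) 0 ≠ ⊤ := ne_top_of_lt hj
    obtain ⟨m, hm⟩ := ENat.ne_top_iff_exists.1 h1
    rw [← hm] at hj
    have h3 : m < k + 1 - j := by exact_mod_cast hj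
    have h2 : e ≤ m + j := Nat.find_min' hex ⟨j, hjk, by rw [← hm]; push_cast; rfl⟩
    omega
  have hδ : ∀ j : ℕ, ∃ δ : ℂ → ℂ, j < k → AnalyticAt ℂ δ 0 ∧
      (∀ᶠ z in 𝓝 (0 : ℂ), c j z * z ^ j = z ^ e * δ z) ∧ (j = j0 → δ 0 ≠ 0) := by
    intro j
    by_cases hjk : j < k
    · obtain ⟨δ, h1, h2, h3⟩ := exists_delta (hc j hjk).1 (hmin j hjk)
      exact ⟨δ, fun _ => ⟨h1, h2, fun hjj => h3 (by rw [hjj]; exact hj0e)⟩⟩
    · exact ⟨fun _ => 0, fun h' => absurd h' hjk⟩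
  choose δ hδ using hδ
  -- the polynomial
  let P : Polynomial ℂ := ∑ j ∈ Finset.range k, Polynomial.monomial j (δ j 0)
  have hP : P ≠ 0 := by
    intro h0
    have h1 : P.coeff j0 = δ j0 0 := by
      simp only [P, Polynomial.finsetSum_coeff, Polynomial.coeff_monomial]
      rw [Finset.sum_eq_single j0]
      · simp
      · intro b _ hb
        simp [hb]
      · intro hb
        exact absurd (Finset.mem_range.2 hj0) hb
    rw [h0] at h1
    exact (hδ j0 hj0).2.2 rfl (by rw [← h1]; simp)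
  obtain ⟨v, hv⟩ : ∃ v : ℂ, P.eval v ≠ 0 := by
    by_contra hcon
    push Not at hcon
    exact hP (Polynomial.funext (fun x => by rw [hcon x]; simp))
  refine ⟨v, ?_⟩
  let B : ℂ → ℂ := fun z => ∑ j ∈ Finset.range k, δ j z * v ^ j + z ^ (k + 1 - e) * (v ^ (k + 1) * U (z, z * v))
  have hUs : AnalyticAt ℂ (fun z : ℂ => U (z, z * v)) 0 := by
    have h1 : AnalyticAt ℂ U ((fun z : ℂ => ((z, z * v) : ℂ × ℂ)) 0) := by
      have h2 : ((0 : ℂ), (0 : ℂ) * v) = (0 : ℂ × ℂ) := by simp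
      simp only [h2]
      exact hU
    exact AnalyticAt.comp (g := U) (f := fun z : ℂ => ((z, z * v) : ℂ × ℂ)) h1 (slice_analytic v 0)
  have hB : AnalyticAt ℂ B 0 := by
    refine AnalyticAt.add ?_ ?_
    · refine Finset.analyticAt_fun_sum _ ?_
      intro j hj
      exact ((hδ j (Finset.mem_range.1 hj)).1).mul analyticAt_const
    · exact (analyticAt_id.pow _).mul (analyticAt_const.mul hUs)
  have hB0 : B 0 ≠ 0 := by
    have h1 : B 0 = P.eval v := by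
      simp only [B, P]
      rw [zero_pow (by omega : k + 1 - e ≠ 0), zero_mul, add_zero, Polynomial.eval_finsetSum]
      refine Finset.sum_congr rfl ?_
      intro j _
      rw [Polynomial.eval_monomial]
    rw [h1]
    exact hv
  have hWB : ∀ᶠ z in 𝓝 (0 : ℂ), W (z, z * v) = z ^ e * B z := by
    have h1 := (slice_tendsto v).eventually hW
    have h2 : ∀ᶠ z in 𝓝 (0 : ℂ), ∀ j ∈ Finset.range k, c j z * z ^ j = z ^ e * δ j z := by
      rw [Filter.eventually_all_finset]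
      intro j hj
      exact (hδ j (Finset.mem_range.1 hj)).2.1
    filter_upwards [h1, h2] with z hz1 hz2
    rw [hz1]
    simp only [B]
    rw [mul_add, Finset.mul_sum]
    congr 1
    · refine Finset.sum_congr rfl ?_
      intro j hj
      rw [mul_pow, ← mul_assoc, hz2 j hj]
      ring
    · have h3 : z ^ (k + 1) = z ^ e * z ^ (k + 1 - e) := by
        rw [← pow_add]
        congr 1
        omega
      rw [mul_pow, h3]
      ring
  have hWan : AnalyticAt ℂ (fun z : ℂ => W (z, z * v)) 0 := by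
    have h1 : AnalyticAt ℂ (fun z : ℂ => z ^ e * B z) 0 := (analyticAt_id.pow e).mul hB
    exact h1.congr (hWB.mono fun z hz => hz.symm)
  have horder : analyticOrderAt (fun z : ℂ => W (z, z * v)) 0 = (e : ℕ∞) := by
    rw [hWan.analyticOrderAt_eq_natCast]
    refine ⟨B, hB, hB0, ?_⟩
    filter_upwards [hWB] with z hz
    rw [hz, sub_zero, smul_eq_mul]
  rw [horder]
  exact_mod_cast hek

theorem exists_slice_of_ne {g : ℂ × ℂ → ℂ} (hg : AnalyticAt ℂ g 0) (h : ¬ ∀ᶠ x in 𝓝 (0 : ℂ × ℂ), g x = 0) :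
    ∃ (m : ℕ) (v : ℂ × ℂ), analyticOrderAt (fun z : ℂ => g (z * v.1, z * v.2)) 0 ≤ (m : ℕ∞) := by
  by_contra hcon
  push Not at hcon
  apply h
  obtain ⟨r, hr, hball⟩ := hg.exists_ball_analyticOnNhd
  have hlin : ∀ (v : ℂ × ℂ) (z : ℂ), ((z * v.1, z * v.2) : ℂ × ℂ) = z • v := by
    intro v z
    rfl
  have key : ∀ v : ℂ × ℂ, ‖v‖ < 1 → ∀ z ∈ Metric.ball (0 : ℂ) r, g (z * v.1, z * v.2) = 0 := by
    intro v hv
    have h1 : analyticOrderAt (fun z : ℂ => g (z * v.1, z * v.2)) 0 = ⊤ := by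
      by_contra hne
      obtain ⟨m, hm⟩ := ENat.ne_top_iff_exists.1 hne
      exact absurd (hcon m v) (by rw [← hm]; exact lt_irrefl _)
    have h2 : ∀ᶠ z in 𝓝 (0 : ℂ), g (z * v.1, z * v.2) = 0 := analyticOrderAt_eq_top.1 h1
    have h3 : AnalyticOnNhd ℂ (fun z : ℂ => g (z * v.1, z * v.2)) (Metric.ball (0 : ℂ) r) := by
      intro z hz
      have hmem : ((z * v.1, z * v.2) : ℂ × ℂ) ∈ Metric.ball (0 : ℂ × ℂ) r := by
        rw [hlin, mem_ball_zero_iff, norm_smul]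
        rw [mem_ball_zero_iff] at hz
        calc ‖z‖ * ‖v‖ ≤ ‖z‖ * 1 := mul_le_mul_of_nonneg_left hv.le (norm_nonneg _)
          _ < r := by rw [mul_one]; exact hz
      have h4 : AnalyticAt ℂ (fun z : ℂ => ((z * v.1, z * v.2) : ℂ × ℂ)) z :=
        (analyticAt_id.mul analyticAt_const).prod (analyticAt_id.mul analyticAt_const)
      exact AnalyticAt.comp (g := g) (f := fun z : ℂ => ((z * v.1, z * v.2) : ℂ × ℂ)) (hball _ hmem) h4
    have h5 := h3.eqOn_zero_of_preconnected_of_eventuallyEq_zero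
      (convex_ball (0 : ℂ) r).isPreconnected (Metric.mem_ball_self hr) h2
    intro z hz
    exact h5 hz
  have hr2 : 0 < r / 2 := by linarith
  filter_upwards [Metric.ball_mem_nhds (0 : ℂ × ℂ) hr2] with x hx
  rw [mem_ball_zero_iff] at hx
  have hz : ((r / 2 : ℝ) : ℂ) ∈ Metric.ball (0 : ℂ) r := by
    rw [mem_ball_zero_iff, Complex.norm_real, Real.norm_eq_abs, abs_of_pos hr2]
    linarith
  have hzne : ((r / 2 : ℝ) : ℂ) ≠ 0 := by
    exact_mod_cast hr2.ne'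
  have hv : ‖(((r / 2 : ℝ) : ℂ)⁻¹) • x‖ < 1 := by
    rw [norm_smul, norm_inv, Complex.norm_real, Real.norm_eq_abs, abs_of_pos hr2,
      inv_mul_lt_iff₀ hr2, mul_one]
    exact hx
  have h6 := key _ hv _ hz
  rw [hlin, smul_smul, mul_inv_cancel₀ hzne, one_smul] at h6
  exact h6

theorem exists_lin {v : ℂ × ℂ} (hv : v ≠ 0) : ∃ θ : ℂ × ℂ → ℂ × ℂ, Bihol θ ∧
    ∀ y : ℂ, θ (0, y) = (y * v.1, y * v.2) := by
  by_cases h2 : v.2 = 0
  · have h1 : v.1 ≠ 0 := by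
      intro h1
      exact hv (Prod.ext h1 h2)
    refine ⟨fun x => (x.2 * v.1, x.1 + x.2 * v.2), ⟨?_, ?_, fun x => (x.2 - x.1 / v.1 * v.2, x.1 / v.1), ?_, ?_, ?_, ?_⟩, ?_⟩
    · exact (analyticAt_snd.mul analyticAt_const).prod (analyticAt_fst.add (analyticAt_snd.mul analyticAt_const))
    · simp
    · simp only [div_eq_mul_inv]
      exact (analyticAt_snd.sub ((analyticAt_fst.mul analyticAt_const).mul analyticAt_const)).prod
        (analyticAt_fst.mul analyticAt_const)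
    · simp
    · refine Eventually.of_forall fun x => ?_
      refine Prod.ext ?_ ?_
      · simp only
        field_simp
        ring
      · simp only
        field_simp
    · refine Eventually.of_forall fun x => ?_
      refine Prod.ext ?_ ?_
      · simp only
        field_simp
      · simp only
        field_simp
        ring
    · intro y
      simp
  · refine ⟨fun x => (x.1 + x.2 * v.1, x.2 * v.2), ⟨?_, ?_, fun x => (x.1 - x.2 / v.2 * v.1, x.2 / v.2), ?_, ?_, ?_, ?_⟩, ?_⟩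
    · exact (analyticAt_fst.add (analyticAt_snd.mul analyticAt_const)).prod (analyticAt_snd.mul analyticAt_const)
    · simp
    · simp only [div_eq_mul_inv]
      exact (analyticAt_fst.sub ((analyticAt_snd.mul analyticAt_const).mul analyticAt_const)).prod
        (analyticAt_snd.mul analyticAt_const)
    · simp
    · refine Eventually.of_forall fun x => ?_
      refine Prod.ext ?_ ?_
      · simp only
        field_simp
        ring
      · simp only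
        field_simp
    · refine Eventually.of_forall fun x => ?_
      refine Prod.ext ?_ ?_
      · simp only
        field_simp
        ring
      · simp only
        field_simp
    · intro y
      simp

/-- The shift `(x, y) ↦ (x, y + ρ x)`. -/
theorem bihol_shift {ρ : ℂ → ℂ} (hρ : AnalyticAt ℂ ρ 0) (h0 : ρ 0 = 0) :
    Bihol fun x : ℂ × ℂ => (x.1, x.2 + ρ x.1) := by
  have h1 : AnalyticAt ℂ (fun x : ℂ × ℂ => ρ x.1) 0 := by
    have h2 : AnalyticAt ℂ ρ ((fun x : ℂ × ℂ => x.1) 0) := hρ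
    exact AnalyticAt.comp (g := ρ) (f := fun x : ℂ × ℂ => x.1) h2 analyticAt_fst
  refine ⟨analyticAt_fst.prod (analyticAt_snd.add h1), ?_, fun x => (x.1, x.2 - ρ x.1),
    analyticAt_fst.prod (analyticAt_snd.sub h1), ?_, ?_, ?_⟩
  · simp [h0]
  · simp [h0]
  · exact Eventually.of_forall fun x => by simp
  · exact Eventually.of_forall fun x => by simp

end Pool.Agent.H17BP

end
end

section

/-!
# Resolution of the singularities of a plane curve germ: the inner induction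

`claim_inner`, strong induction on `K`.  `g = D₁^a D₂^b (W u)`.
1. Some `j < k` has `analyticOrderAt (c j) 0 < k + 1 - j`: `exists_slice` gives `SliceLE k W` (`v = (1, v)`), hence
   `SliceLE k (W u)` (the slice of the unit `u` has order `0`; `analyticOrderAt_mul`), and `hk` finishes
   (`W u` is analytic at `0`: it agrees near `0` with `(∑ …) u`; note `W` itself is only eventually equal to an analytic
   function, which suffices).
2. Otherwise `nf_blow` applies.  `S = {c₀ | P c₀ = 0}`, `P c₀ = ∑ γ_j c₀^j + U₀ c₀^(k+1)`, is finite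
   (`finite_roots`); use `uniform`.  For every `c₀`: near `0`, with `mono_bl`,
   `g (bl c₀ x) = x^(a+b) D^b' e ⬝ x^(k+1) ψ u'` (`u' = u ∘ bl c₀`), that is
   `x^(a+b+k+1) D^b' (ψ u' e)`, with `(x, D)` local coordinates and `e, u'` units.
   * `c₀ ∉ S`: `ψ 0 = P c₀ ≠ 0`: `Mono`.
   * `c₀ ∈ S`, some `γ_j ≠ 0` (`j < k`): by `order_root` the slice of `ψ` along `(0, 1)` has order `≤ k`: `hk` for
     `ψ u' e` and the coordinates `(x, D)`.
   * `c₀ ∈ S`, all `γ_j = 0`: then `U₀ c₀^(k+1) = 0`, so `c₀ = 0`, and `IsNF k c' ψ`; for the given `j` with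
     `analyticOrderAt (c j) 0 = K`: `K = (k+1-j) + ord (c' j)`, so `ord (c' j) = K' < K`: induction hypothesis with
     `W := ψ`, the unit `u' e` and the coordinates `(x, D)`.
   * the chart `blInf`: `mono_blInf`, `g (blInf x) = y^(a+b+k+1) D^b' (ψ u' e)` with `ψ 0 ≠ 0`: `Mono` (coordinates
     `(y, D)`).
-/

open Topology Filter

noncomputable section

namespace Pool.Agent.H17BP

/-- The order of some slice is at most `m`. -/
def SliceLE (m : ℕ) (φ : ℂ × ℂ → ℂ) : Prop :=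
  ∃ v : ℂ × ℂ, analyticOrderAt (fun z : ℂ => φ (z * v.1, z * v.2)) 0 ≤ (m : ℕ∞)

/-- The induction hypothesis of the resolution theorem. -/
def Claim (m : ℕ) : Prop :=
  ∀ φ : ℂ × ℂ → ℂ, AnalyticAt ℂ φ 0 → SliceLE m φ → ∀ D₁ D₂, Coord D₁ D₂ → ∀ a b : ℕ,
    ∃ N, ResN N (fun x => D₁ x ^ a * D₂ x ^ b * φ x)

/-- slices are analytic -/
theorem ArtA_slice_an {φ : ℂ × ℂ → ℂ} (hφ : AnalyticAt ℂ φ 0) (v : ℂ × ℂ) :
    AnalyticAt ℂ (fun z : ℂ => φ (z * v.1, z * v.2)) 0 := by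
  have h1 : AnalyticAt ℂ (fun z : ℂ => (z * v.1, z * v.2)) 0 :=
    (analyticAt_id.mul analyticAt_const).prod (analyticAt_id.mul analyticAt_const)
  have h2 : AnalyticAt ℂ φ ((fun z : ℂ => (z * v.1, z * v.2)) 0) := by
    have h3 : (fun z : ℂ => (z * v.1, z * v.2)) 0 = 0 := by simp
    rw [h3]
    exact hφ
  exact AnalyticAt.comp (g := φ) (f := fun z : ℂ => (z * v.1, z * v.2)) h2 h1

/-- a unit does not change the order of a slice -/
theorem ArtA_slice_mul {φ u : ℂ × ℂ → ℂ} (hφ : AnalyticAt ℂ φ 0) (hu : AnalyticAt ℂ u 0) (hu0 : u 0 ≠ 0)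
    {m : ℕ} (h : SliceLE m φ) : SliceLE m (fun x => φ x * u x) := by
  obtain ⟨v, hv⟩ := h
  refine ⟨v, ?_⟩
  have h1 := ArtA_slice_an hφ v
  have h2 := ArtA_slice_an hu v
  have h3 : analyticOrderAt (fun z : ℂ => u (z * v.1, z * v.2)) 0 = 0 := by
    rw [h2.analyticOrderAt_eq_zero]
    have h5 : ((0 : ℂ) * v.1, (0 : ℂ) * v.2) = 0 := by simp
    rw [h5]
    exact hu0
  have h4 : (fun z : ℂ => (fun x => φ x * u x) (z * v.1, z * v.2)) =
      (fun z : ℂ => φ (z * v.1, z * v.2)) * fun z : ℂ => u (z * v.1, z * v.2) := rfl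
  rw [h4, analyticOrderAt_mul h1 h2, h3, add_zero]
  exact hv

/-- functions in normal form are analytic -/
theorem ArtA_nf_an {k : ℕ} {c : ℕ → ℂ → ℂ} {W : ℂ × ℂ → ℂ} (h : IsNF k c W) : AnalyticAt ℂ W 0 := by
  obtain ⟨h1, U, hU, -, h2⟩ := h
  have h3 : AnalyticAt ℂ (fun x : ℂ × ℂ => ∑ j ∈ Finset.range k, c j x.1 * x.2 ^ j + x.2 ^ (k + 1) * U x) 0 := by
    refine AnalyticAt.add ?_ ((analyticAt_snd.pow _).mul hU)
    refine Finset.analyticAt_fun_sum _ fun j hj => ?_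
    have h4 : AnalyticAt ℂ (c j) ((fun x : ℂ × ℂ => x.1) 0) := (h1 j (Finset.mem_range.1 hj)).1
    exact (AnalyticAt.comp (g := c j) (f := fun x : ℂ × ℂ => x.1) h4 analyticAt_fst).mul (analyticAt_snd.pow _)
  exact h3.congr (h2.mono fun x hx => hx.symm)

/-- composition of a unit with a chart -/
theorem ArtA_comp_an {u : ℂ × ℂ → ℂ} {β : ℂ × ℂ → ℂ × ℂ} (hu : AnalyticAt ℂ u 0) (hβ : AnalyticAt ℂ β 0)
    (h0 : β 0 = 0) : AnalyticAt ℂ (fun x => u (β x)) 0 := by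
  have h1 : AnalyticAt ℂ u (β 0) := by
    rw [h0]
    exact hu
  exact AnalyticAt.comp (g := u) (f := β) h1 hβ

/-- the order of `x ^ n * f` -/
theorem ArtA_order {f g : ℂ → ℂ} {n K : ℕ} (hg : AnalyticAt ℂ g 0) (h : ∀ᶠ x in 𝓝 (0 : ℂ), f x = x ^ n * g x)
    (hK : analyticOrderAt f 0 = (K : ℕ∞)) : n ≤ K ∧ analyticOrderAt g 0 = ((K - n : ℕ) : ℕ∞) := by
  have h1 : analyticOrderAt f 0 = analyticOrderAt ((fun x : ℂ => x ^ n) * g) 0 := analyticOrderAt_congr h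
  have h2 : AnalyticAt ℂ (fun x : ℂ => x ^ n) 0 := analyticAt_id.pow n
  have h3 : analyticOrderAt (fun x : ℂ => x ^ n) 0 = (n : ℕ∞) := by
    rw [h2.analyticOrderAt_eq_natCast]
    refine ⟨fun _ => 1, analyticAt_const, one_ne_zero, ?_⟩
    filter_upwards with z
    simp
  rw [h1, analyticOrderAt_mul h2 hg, h3] at hK
  have h4 : analyticOrderAt g 0 ≠ ⊤ := by
    intro h5
    rw [h5, add_top] at hK
    exact ENat.top_ne_natCast K hK
  obtain ⟨L, hL⟩ := ENat.ne_top_iff_exists.1 h4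
  rw [← hL] at hK ⊢
  have h6 : n + L = K := by exact_mod_cast hK
  refine ⟨by omega, ?_⟩
  have h7 : L = K - n := by omega
  rw [h7]

theorem claim_inner {k : ℕ} (hk : Claim k) (K : ℕ) : ∀ {c : ℕ → ℂ → ℂ} {W : ℂ × ℂ → ℂ}, IsNF k c W →
    (∃ j < k, analyticOrderAt (c j) 0 = (K : ℕ∞)) → ∀ {D₁ D₂ : ℂ × ℂ → ℂ}, Coord D₁ D₂ → ∀ (a b : ℕ)
    {u : ℂ × ℂ → ℂ}, AnalyticAt ℂ u 0 → u 0 ≠ 0 →
    ∃ N, ResN N (fun x => D₁ x ^ a * D₂ x ^ b * (W x * u x)) := by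
  induction K using Nat.strong_induction_on with
  | _ K ih =>
  intro c W hW hj D₁ D₂ hD a b u hu hu0
  have hWan := ArtA_nf_an hW
  by_cases hs : ∃ j < k, analyticOrderAt (c j) 0 < ((k + 1 - j : ℕ) : ℕ∞)
  · obtain ⟨v, hv⟩ := exists_slice hW hs
    have h1 : SliceLE k W := by
      refine ⟨(1, v), ?_⟩
      simpa using hv
    exact hk _ (hWan.mul hu) (ArtA_slice_mul hWan hu hu0 h1) D₁ D₂ hD a b
  · push Not at hs
    obtain ⟨γ, U₀, c', hU₀, hc', hψ, ψ', hψ', hψ'0, hψ'e⟩ := nf_blow hW hs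
    have hpart : ∀ c₀ : ℂ, ∃ (D : ℂ × ℂ → ℂ) (b' : ℕ) (e ψ : ℂ × ℂ → ℂ), Coord (fun x => x.1) D ∧
        AnalyticAt ℂ e 0 ∧ e 0 ≠ 0 ∧ AnalyticAt ℂ ψ 0 ∧
        (∀ᶠ x in 𝓝 (0 : ℂ × ℂ), D₁ (bl c₀ x) ^ a * D₂ (bl c₀ x) ^ b * (W (bl c₀ x) * u (bl c₀ x)) =
          x.1 ^ (a + b + (k + 1)) * D x ^ b' * (ψ x * e x)) ∧
        (∀ᶠ w in 𝓝 (0 : ℂ), ψ (0, w) =
          ∑ j ∈ Finset.range k, γ j * (c₀ + w) ^ j + U₀ * (c₀ + w) ^ (k + 1)) ∧
        (c₀ = 0 → (∀ j < k, γ j = 0) → IsNF k c' ψ) := by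
      intro c₀
      obtain ⟨D, b', e, hDc, he, he0, hee⟩ := mono_bl hD a b c₀
      obtain ⟨ψ, hψa, hψe, hψw, hψn⟩ := hψ c₀
      have hu' := ArtA_comp_an hu (analyticAt_bl c₀ 0) (bl_zero c₀)
      refine ⟨D, b', fun x => u (bl c₀ x) * e x, ψ, hDc, hu'.mul he, ?_, hψa, ?_, hψw, hψn⟩
      · simp only [bl_zero]
        exact mul_ne_zero hu0 he0
      · filter_upwards [hee, hψe] with x h1 h2
        rw [h1, h2, pow_add x.1 (a + b) (k + 1)]
        ring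
    have hval : ∀ (c₀ : ℂ) (ψ : ℂ × ℂ → ℂ), (∀ᶠ w in 𝓝 (0 : ℂ), ψ (0, w) =
        ∑ j ∈ Finset.range k, γ j * (c₀ + w) ^ j + U₀ * (c₀ + w) ^ (k + 1)) →
        ψ 0 = ∑ j ∈ Finset.range k, γ j * c₀ ^ j + U₀ * c₀ ^ (k + 1) := by
      intro c₀ ψ h
      have h1 := h.self_of_nhds
      simp only [add_zero] at h1
      exact h1
    refine uniform (S := {c₀ : ℂ | ∑ j ∈ Finset.range k, γ j * c₀ ^ j + U₀ * c₀ ^ (k + 1) = 0})
      (finite_roots hU₀) ?_ ?_ ?_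
    · intro c₀ hc₀
      obtain ⟨D, b', e, ψ, hDc, he, he0, hψa, hψe, hψw, -⟩ := hpart c₀
      refine ⟨fun x => x.1, D, a + b + (k + 1), b', fun x => ψ x * e x, hDc, hψa.mul he, ?_, hψe⟩
      refine mul_ne_zero ?_ he0
      rw [hval c₀ ψ hψw]
      exact hc₀
    · intro c₀ hc₀
      obtain ⟨D, b', e, ψ, hDc, he, he0, hψa, hψe, hψw, hψn⟩ := hpart c₀
      by_cases hγ : ∃ j < k, γ j ≠ 0
      · have h1 : SliceLE k ψ := by
          refine ⟨(0, 1), ?_⟩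
          have h2 := order_root hU₀ hγ c₀
          have h3 : analyticOrderAt (fun z : ℂ => ψ (z * (0, (1 : ℂ)).1, z * ((0 : ℂ), (1 : ℂ)).2)) 0 =
              analyticOrderAt (fun w : ℂ => ∑ j ∈ Finset.range k, γ j * (c₀ + w) ^ j +
                U₀ * (c₀ + w) ^ (k + 1)) 0 := by
            refine analyticOrderAt_congr ?_
            filter_upwards [hψw] with w hw
            simpa using hw
          exact h3.trans_le h2
        obtain ⟨N, hN⟩ := hk _ (hψa.mul he) (ArtA_slice_mul hψa he he0 h1) _ _ hDc (a + b + (k + 1)) b'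
        exact ⟨N, hN.congr hψe⟩
      · push Not at hγ
        have hz : c₀ = 0 := by
          have h1 : ∑ j ∈ Finset.range k, γ j * c₀ ^ j + U₀ * c₀ ^ (k + 1) = 0 := hc₀
          rw [Finset.sum_eq_zero (fun j hj => by rw [hγ j (Finset.mem_range.1 hj), zero_mul]), zero_add] at h1
          rcases mul_eq_zero.1 h1 with h2 | h2
          · exact absurd h2 hU₀
          · exact eq_zero_of_pow_eq_zero h2
        have hn := hψn hz hγ
        obtain ⟨j, hjk, hjK⟩ := hj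
        obtain ⟨hc1, hc2, hc3⟩ := hc' j hjk
        obtain ⟨h4, h5⟩ := ArtA_order hc1 hc3 hjK
        obtain ⟨N, hN⟩ := ih (K - (k + 1 - j)) (by omega) hn ⟨j, hjk, h5⟩ hDc (a + b + (k + 1)) b' he he0
        exact ⟨N, hN.congr hψe⟩
    · obtain ⟨D, b', e, hDc, he, he0, hee⟩ := mono_blInf hD a b
      have hu' := ArtA_comp_an hu (analyticAt_blInf 0) blInf_zero
      refine ⟨0, ResN.of_mono ⟨fun x => x.2, D, a + b + (k + 1), b', fun x => ψ' x * (u (blInf x) * e x), hDc,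
        hψ'.mul (hu'.mul he), ?_, ?_⟩ 0⟩
      · refine mul_ne_zero hψ'0 (mul_ne_zero ?_ he0)
        simp only [blInf_zero]
        exact hu0
      · filter_upwards [hee, hψ'e] with x h1 h2
        simp only [Function.comp_apply]
        rw [h1, h2, pow_add x.2 (a + b) (k + 1)]
        ring

end Pool.Agent.H17BP

end
end

section

/-!
# A power of a smooth germ times exceptional curves

Let `θ'` be the inverse of the coordinate change `θ = (D₁, D₂)`; by `ResN.of_comp` (with `θ'`) it is enough to treat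
`g ∘ θ' = x^a y^b (F ∘ θ')^n (u ∘ θ')`, and `F' = F ∘ θ'` has `F' 0 = 0` and a non-zero partial derivative (chain
rule: `fderiv F' 0 = fderiv F 0 ∘ fderiv θ' 0` and `fderiv θ' 0` is surjective).
If `dx F' 0 ≠ 0`: `smooth_normal`: either `F' = x u'`: `Mono` with `S = x, T = y`, exponents `a + n`, `b`; or
`F' = (x - y^(k+1) v) u'`: `res_tangent`.
If `dy F' 0 ≠ 0`: compose with the swap (a `Bihol` map, `ResN.of_comp`) and exchange `a` and `b`.
-/

open Topology Filter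

noncomputable section

namespace Pool.Agent.H17BP

private theorem PowF_lin (L : ℂ × ℂ →L[ℂ] ℂ) (h1 : L (1, 0) = 0) (h2 : L (0, 1) = 0) (w : ℂ × ℂ) : L w = 0 := by
  have e : w = w.1 • ((1 : ℂ), (0 : ℂ)) + w.2 • ((0 : ℂ), (1 : ℂ)) := by
    ext <;> simp
  rw [e, map_add, map_smul, map_smul, h1, h2]
  simp

private theorem PowF_an {f : ℂ × ℂ → ℂ} (hf : AnalyticAt ℂ f 0) {θ : ℂ × ℂ → ℂ × ℂ} (hθ : Bihol θ) :
    AnalyticAt ℂ (fun x => f (θ x)) 0 := by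
  have h2 : AnalyticAt ℂ f (θ 0) := by rw [hθ.zero]; exact hf
  exact AnalyticAt.comp (g := f) (f := θ) h2 hθ.an

private theorem PowF_x {F : ℂ × ℂ → ℂ} (hF : AnalyticAt ℂ F 0) (h0 : F 0 = 0) (h1 : dx F 0 ≠ 0) (a b n : ℕ)
    {u : ℂ × ℂ → ℂ} (hu : AnalyticAt ℂ u 0) (hu0 : u 0 ≠ 0) :
    ∃ N, ResN N (fun x => x.1 ^ a * x.2 ^ b * F x ^ n * u x) := by
  obtain ⟨w, hw, hw0, h | ⟨k, v, hv, hv0, h⟩⟩ := smooth_normal hF h0 h1
  · refine ⟨0, fun x => x.1, fun x => x.2, a + n, b, fun x => w x ^ n * u x, coord_fst_snd, (hw.pow n).mul hu,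
      mul_ne_zero (pow_ne_zero n hw0) hu0, ?_⟩
    filter_upwards [h] with x hx
    rw [hx]; ring
  · refine ⟨k + 1, (res_tangent k hv hv0 a b n (u := fun x => w x ^ n * u x) ((hw.pow n).mul hu)
      (mul_ne_zero (pow_ne_zero n hw0) hu0)).congr ?_⟩
    filter_upwards [h] with x hx
    rw [hx, mul_pow]; ring

private theorem PowF_xy {F : ℂ × ℂ → ℂ} (hF : AnalyticAt ℂ F 0) (h0 : F 0 = 0) (h1 : dx F 0 ≠ 0 ∨ dy F 0 ≠ 0)
    (a b n : ℕ) {u : ℂ × ℂ → ℂ} (hu : AnalyticAt ℂ u 0) (hu0 : u 0 ≠ 0) :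
    ∃ N, ResN N (fun x => x.1 ^ a * x.2 ^ b * F x ^ n * u x) := by
  rcases h1 with h1 | h1
  · exact PowF_x hF h0 h1 a b n hu hu0
  · have hs : Bihol (fun x : ℂ × ℂ => (x.2, x.1)) := coord_fst_snd.symm
    have hd : dx (fun x : ℂ × ℂ => F (x.2, x.1)) 0 = dy F 0 := by
      have h3 : HasFDerivAt (fun x : ℂ × ℂ => (x.2, x.1))
          ((ContinuousLinearMap.snd ℂ ℂ ℂ).prod (ContinuousLinearMap.fst ℂ ℂ ℂ)) 0 :=
        hasFDerivAt_snd.prodMk hasFDerivAt_fst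
      have h4 : HasFDerivAt F (fderiv ℂ F 0) ((fun x : ℂ × ℂ => (x.2, x.1)) 0) := hF.differentiableAt.hasFDerivAt
      have h5 := h4.comp (0 : ℂ × ℂ) h3
      unfold dx dy
      have h6 : fderiv ℂ (fun x : ℂ × ℂ => F (x.2, x.1)) 0 = (fderiv ℂ F 0).comp
          ((ContinuousLinearMap.snd ℂ ℂ ℂ).prod (ContinuousLinearMap.fst ℂ ℂ ℂ)) := h5.fderiv
      rw [h6]
      simp
    obtain ⟨N, hN⟩ := PowF_x (PowF_an hF hs) h0 (by rw [hd]; exact h1) b a n (PowF_an hu hs) hu0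
    refine ⟨N, ResN.of_comp hs (hN.congr (Eventually.of_forall fun x => ?_))⟩
    simp only [Function.comp_apply]
    ring

theorem res_pow {F : ℂ × ℂ → ℂ} (hF : AnalyticAt ℂ F 0) (h0 : F 0 = 0) (h1 : dx F 0 ≠ 0 ∨ dy F 0 ≠ 0)
    {D₁ D₂ : ℂ × ℂ → ℂ} (hD : Coord D₁ D₂) (a b n : ℕ) {u : ℂ × ℂ → ℂ} (hu : AnalyticAt ℂ u 0)
    (hu0 : u 0 ≠ 0) : ∃ N, ResN N (fun x => D₁ x ^ a * D₂ x ^ b * F x ^ n * u x) := by
  have hD' : Bihol (fun x => (D₁ x, D₂ x)) := hD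
  obtain ⟨θ', hθ', h3, h4⟩ := hD'.exists_inv
  have hF' := PowF_an hF hθ'
  have h1' : dx (fun x => F (θ' x)) 0 ≠ 0 ∨ dy (fun x => F (θ' x)) 0 ≠ 0 := by
    by_contra hcon
    rw [not_or, not_not, not_not] at hcon
    have hz := PowF_lin (fderiv ℂ (fun x => F (θ' x)) 0) hcon.1 hcon.2
    have hev : F =ᶠ[𝓝 0] (fun x => F (θ' x)) ∘ (fun x => (D₁ x, D₂ x)) := by
      filter_upwards [h3] with x hx
      simp only [Function.comp_apply]
      rw [hx]
    have h5 : HasFDerivAt (fun x => F (θ' x)) (fderiv ℂ (fun x => F (θ' x)) 0) ((fun x => (D₁ x, D₂ x)) 0) := by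
      have h8 : (fun x => (D₁ x, D₂ x)) (0 : ℂ × ℂ) = 0 := hD'.zero
      rw [h8]
      exact hF'.differentiableAt.hasFDerivAt
    have h6 := h5.comp (0 : ℂ × ℂ) hD'.an.differentiableAt.hasFDerivAt
    have h7 := (h6.congr_of_eventuallyEq hev).fderiv
    rcases h1 with h1 | h1
    · apply h1
      unfold dx
      rw [h7]
      exact hz _
    · apply h1
      unfold dy
      rw [h7]
      exact hz _
  obtain ⟨N, hN⟩ := PowF_xy hF' (by simp only [hθ'.zero]; exact h0) h1' a b n (PowF_an hu hθ')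
    (by simp only [hθ'.zero]; exact hu0)
  refine ⟨N, ResN.of_comp hθ' (hN.congr ?_)⟩
  filter_upwards [h4] with x hx
  have e1 : D₁ (θ' x) = x.1 := congrArg Prod.fst hx
  have e2 : D₂ (θ' x) = x.2 := congrArg Prod.snd hx
  simp only [Function.comp_apply]
  rw [e1, e2]

end Pool.Agent.H17BP

end
end

section

/-!
# Resolution of the singularities of a plane curve germ

`claim_zero`: a slice of order `0` means `φ 0 ≠ 0` (the slice at `z = 0` is `φ 0`): `Mono`, `ResN 0`.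
`claim_succ`: let the slice of `φ` along `v` have order `≤ k + 1`.  If it is `≤ k`: `hk`.  So let it be `k + 1`; then
`v ≠ 0` (the slice along `0` is constant: order `0` or `⊤`).  `exists_lin`: `θ` with `θ (0, y) = y v`, so
`φ₁ = φ ∘ θ` has `analyticOrderAt (fun y => φ₁ (0, y)) 0 = k + 1`; `exists_nf`: with
`θ₂ (x, y) = (x, y + ρ x)` (`bihol_shift`) `φ₁ ∘ θ₂` is `IsNF k c`.  Let `Θ = θ ∘ θ₂`; by `ResN.of_comp` it is enough
to treat `(D₁ ∘ Θ)^a (D₂ ∘ Θ)^b (φ ∘ Θ)`, with `φ ∘ Θ` in normal form `IsNF k c` and `Coord (D₁ ∘ Θ) (D₂ ∘ Θ)`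
(`Bihol.comp`).  If some `c j`, `j < k`, has finite order: `claim_inner` with `u = 1`.  Otherwise all `c j` vanish
near `0` and `φ ∘ Θ = y^(k+1) U` near `0` (the condition near `x = 0` pulls back to the product neighbourhood):
`res_pow` with `F = x.2` (`dy F 0 = 1`), `n = k + 1`.
-/

open Topology Filter

noncomputable section

namespace Pool.Agent.H17BP

theorem claim_zero : Claim 0 := by
  intro φ hφ hs D₁ D₂ hD a b
  obtain ⟨v, hv⟩ := hs
  have h1 : analyticOrderAt (fun z : ℂ => φ (z * v.1, z * v.2)) 0 = 0 := by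
    simpa using hv
  rw [(ArtA_slice_an hφ v).analyticOrderAt_eq_zero] at h1
  have h2 : ((0 : ℂ) * v.1, (0 : ℂ) * v.2) = 0 := by simp
  rw [h2] at h1
  exact ⟨0, D₁, D₂, a, b, φ, hD, hφ, h1, Eventually.of_forall fun x => rfl⟩

theorem claim_succ {k : ℕ} (hk : Claim k) : Claim (k + 1) := by
  intro φ hφ hs D₁ D₂ hD a b
  by_cases hs1 : SliceLE k φ
  · exact hk φ hφ hs1 D₁ D₂ hD a b
  obtain ⟨v, hv⟩ := hs
  have hv1 : ((k : ℕ) : ℕ∞) < analyticOrderAt (fun z : ℂ => φ (z * v.1, z * v.2)) 0 := by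
    by_contra h
    push Not at h
    exact hs1 ⟨v, h⟩
  have hv2 : analyticOrderAt (fun z : ℂ => φ (z * v.1, z * v.2)) 0 = ((k + 1 : ℕ) : ℕ∞) := by
    refine le_antisymm hv ?_
    have h1 := Order.add_one_le_of_lt hv1
    exact_mod_cast h1
  have hv0 : v ≠ 0 := by
    intro h
    subst h
    have h1 := ArtA_slice_an hφ 0
    have h2 : analyticOrderAt (fun z : ℂ => φ (z * (0 : ℂ × ℂ).1, z * (0 : ℂ × ℂ).2)) 0 ≠ ⊤ := by
      rw [hv2]
      exact ENat.natCast_ne_top _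
    have h3 : analyticOrderAt (fun z : ℂ => φ (z * (0 : ℂ × ℂ).1, z * (0 : ℂ × ℂ).2)) 0 ≠ 0 := by
      rw [hv2]
      exact_mod_cast Nat.succ_ne_zero k
    rw [Ne, h1.analyticOrderAt_eq_zero, not_not] at h3
    rw [Ne, analyticOrderAt_eq_top] at h2
    refine h2 (Eventually.of_forall fun z => ?_)
    simpa using h3
  obtain ⟨θ, hθ, hθy⟩ := exists_lin hv0
  have hφ1 : AnalyticAt ℂ (fun x => φ (θ x)) 0 := ArtA_comp_an hφ hθ.an hθ.zero
  have ho : analyticOrderAt (fun y : ℂ => (fun x => φ (θ x)) (0, y)) 0 = ((k + 1 : ℕ) : ℕ∞) := by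
    have h1 : (fun y : ℂ => (fun x => φ (θ x)) (0, y)) = fun z : ℂ => φ (z * v.1, z * v.2) := by
      funext y
      simp only [hθy]
    rw [h1]
    exact hv2
  obtain ⟨ρ, hρ, hρ0, c, hc⟩ := exists_nf hφ1 ho
  have hθ2 := bihol_shift hρ hρ0
  have hΘ := hθ.comp hθ2
  obtain ⟨Θ, hΘe⟩ : ∃ Θ : ℂ × ℂ → ℂ × ℂ, Θ = θ ∘ fun x : ℂ × ℂ => (x.1, x.2 + ρ x.1) := ⟨_, rfl⟩
  rw [← hΘe] at hΘ
  have hc' : IsNF k c (φ ∘ Θ) := by
    rw [hΘe]
    exact hc
  have hDΘ : Coord (D₁ ∘ Θ) (D₂ ∘ Θ) := Bihol.comp hD hΘ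
  have hfin : ∃ N, ResN N ((fun x => D₁ x ^ a * D₂ x ^ b * φ x) ∘ Θ) := by
    by_cases hf : ∃ j < k, analyticOrderAt (c j) 0 ≠ ⊤
    · obtain ⟨j, hjk, hj⟩ := hf
      obtain ⟨K, hK⟩ := ENat.ne_top_iff_exists.1 hj
      obtain ⟨N, hN⟩ := claim_inner hk K hc' ⟨j, hjk, hK.symm⟩ hDΘ a b (u := fun _ => 1) analyticAt_const
        one_ne_zero
      refine ⟨N, hN.congr (Eventually.of_forall fun x => ?_)⟩
      simp
    · push Not at hf
      obtain ⟨-, U, hU, hU0, hUe⟩ := hc'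
      have h1 : ∀ᶠ x in 𝓝 (0 : ℂ × ℂ), ∀ j ∈ Finset.range k, c j x.1 = 0 := by
        rw [Finset.eventually_all]
        intro j hj
        have h2 := analyticOrderAt_eq_top.1 (hf j (Finset.mem_range.1 hj))
        have h3 : Tendsto (fun x : ℂ × ℂ => x.1) (𝓝 0) (𝓝 0) := continuous_fst.tendsto 0
        exact h3.eventually h2
      obtain ⟨N, hN⟩ := res_pow (F := fun x : ℂ × ℂ => x.2) analyticAt_snd rfl (Or.inr (by
        have h2 : fderiv ℂ (fun x : ℂ × ℂ => x.2) 0 = ContinuousLinearMap.snd ℂ ℂ ℂ := fderiv_snd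
        unfold dy
        rw [h2]
        simp)) hDΘ a b (k + 1) hU hU0
      refine ⟨N, hN.congr ?_⟩
      filter_upwards [hUe, h1] with x h2 h3
      simp only [Function.comp_apply] at h2 ⊢
      rw [h2, Finset.sum_eq_zero (fun j hj => by rw [h3 j hj, zero_mul]), zero_add]
      ring
  obtain ⟨N, hN⟩ := hfin
  exact ⟨N, ResN.of_comp hΘ hN⟩

theorem claim (m : ℕ) : Claim m := by
  induction m with
  | zero => exact claim_zero
  | succ k ih => exact claim_succ ih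

/-- **Resolution of a plane curve germ** by finitely many point blow-ups. -/
theorem exists_resN {g : ℂ × ℂ → ℂ} (hg : AnalyticAt ℂ g 0) (h : ¬ ∀ᶠ x in 𝓝 (0 : ℂ × ℂ), g x = 0) :
    ∃ n, ResN n g := by
  obtain ⟨m, v, hv⟩ := exists_slice_of_ne hg h
  obtain ⟨N, hN⟩ := claim m g hg ⟨v, hv⟩ _ _ coord_fst_snd 0 0
  exact ⟨N, hN.congr (Eventually.of_forall fun x => by simp)⟩

end Pool.Agent.H17BP

end
end

section

/-!
# MQ3 Sat: saturation

A pair of germs in two variables without common zeros off the axes is a monomial times a pair with an isolated zero.  Application: the pull-back of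
`A dy - B dx` under a map which is étale off the axes.
-/

set_option autoImplicit false

open Topology Filter

noncomputable section

namespace Pool.Agent.MQ3

open Pool.Agent.H17BP (exists_div_x exists_div_y ArtA_order)

private theorem Sat_diag {f : ℂ × ℂ → ℂ} (hf : AnalyticAt ℂ f 0) : AnalyticAt ℂ (fun z : ℂ => f (z, z)) 0 := by
  have h1 : AnalyticAt ℂ (fun z : ℂ => (z, z)) 0 := analyticAt_id.prod analyticAt_id
  exact AnalyticAt.comp (g := f) (f := fun z : ℂ => (z, z)) hf h1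

private theorem Sat_fst {f : ℂ × ℂ → ℂ} (hf : AnalyticAt ℂ f 0) : AnalyticAt ℂ (fun z : ℂ => f (z, 0)) 0 := by
  have h1 : AnalyticAt ℂ (fun z : ℂ => (z, (0 : ℂ))) 0 := analyticAt_id.prod analyticAt_const
  exact AnalyticAt.comp (g := f) (f := fun z : ℂ => (z, (0 : ℂ))) hf h1

private theorem Sat_snd {f : ℂ × ℂ → ℂ} (hf : AnalyticAt ℂ f 0) : AnalyticAt ℂ (fun z : ℂ => f (0, z)) 0 := by
  have h1 : AnalyticAt ℂ (fun z : ℂ => ((0 : ℂ), z)) 0 := analyticAt_const.prod analyticAt_id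
  exact AnalyticAt.comp (g := f) (f := fun z : ℂ => ((0 : ℂ), z)) hf h1

private theorem Sat_diag_tendsto : Tendsto (fun z : ℂ => ((z, z) : ℂ × ℂ)) (𝓝 0) (𝓝 0) := by
  have h : Continuous fun z : ℂ => ((z, z) : ℂ × ℂ) := by fun_prop
  exact h.tendsto 0

/-- the order of the restriction to the diagonal after division by a coordinate -/
private theorem Sat_order {f g : ℂ × ℂ → ℂ} {l : ℂ × ℂ → ℂ} (hl : ∀ z : ℂ, l (z, z) = z) (hg : AnalyticAt ℂ g 0) (h : ∀ᶠ x in 𝓝 (0 : ℂ × ℂ), f x = l x * g x)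
    {N : ℕ} (hN : analyticOrderAt (fun z : ℂ => f (z, z)) 0 = (N : ℕ∞)) :
    1 ≤ N ∧ analyticOrderAt (fun z : ℂ => g (z, z)) 0 = ((N - 1 : ℕ) : ℕ∞) := by
  have h1 : ∀ᶠ z in 𝓝 (0 : ℂ), f (z, z) = z ^ 1 * g (z, z) := by
    filter_upwards [Sat_diag_tendsto.eventually h] with z hz
    rw [hz, hl, pow_one]
  exact ArtA_order (Sat_diag hg) h1 hN

private theorem Sat_ax {f : ℂ → ℂ} (hf : AnalyticAt ℂ f 0) (h : ¬ ∀ᶠ y in 𝓝 (0 : ℂ), f y = 0) : ∀ᶠ y in 𝓝 (0 : ℂ), y ≠ 0 → f y ≠ 0 := by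
  rcases hf.eventually_eq_zero_or_eventually_ne_zero with h1 | h1
  · exact absurd h1 h
  · exact eventually_nhdsWithin_iff.1 h1

private theorem Sat_main (N : ℕ) : ∀ {c₁ c₂ : ℂ × ℂ → ℂ}, AnalyticAt ℂ c₁ 0 → AnalyticAt ℂ c₂ 0 →
    (∀ᶠ p in 𝓝 (0 : ℂ × ℂ), p.1 * p.2 ≠ 0 → c₁ p ≠ 0 ∨ c₂ p ≠ 0) →
    (analyticOrderAt (fun z : ℂ => c₁ (z, z)) 0 = (N : ℕ∞) ∨ analyticOrderAt (fun z : ℂ => c₂ (z, z)) 0 = (N : ℕ∞)) →
    ∃ (i j : ℕ) (v₁ v₂ : ℂ × ℂ → ℂ), AnalyticAt ℂ v₁ 0 ∧ AnalyticAt ℂ v₂ 0 ∧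
      (∀ᶠ p in 𝓝 (0 : ℂ × ℂ), c₁ p = p.1 ^ i * p.2 ^ j * v₁ p ∧ c₂ p = p.1 ^ i * p.2 ^ j * v₂ p) ∧
      ∀ᶠ p in 𝓝 (0 : ℂ × ℂ), p ≠ 0 → v₁ p ≠ 0 ∨ v₂ p ≠ 0 := by
  induction N with
  | zero =>
    intro c₁ c₂ h1 h2 h hN
    refine ⟨0, 0, c₁, c₂, h1, h2, Eventually.of_forall fun p => by simp, ?_⟩
    rcases hN with hN | hN
    · have h3 : c₁ 0 ≠ 0 := by
        have := (Sat_diag h1).analyticOrderAt_eq_zero.1 (by exact_mod_cast hN)
        exact this
      filter_upwards [h1.continuousAt.eventually_ne h3] with p hp _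
      exact Or.inl hp
    · have h3 : c₂ 0 ≠ 0 := by
        have := (Sat_diag h2).analyticOrderAt_eq_zero.1 (by exact_mod_cast hN)
        exact this
      filter_upwards [h2.continuousAt.eventually_ne h3] with p hp _
      exact Or.inr hp
  | succ N ih =>
    intro c₁ c₂ h1 h2 h hN
    by_cases hx : (∀ᶠ y in 𝓝 (0 : ℂ), c₁ (0, y) = 0) ∧ ∀ᶠ y in 𝓝 (0 : ℂ), c₂ (0, y) = 0
    · obtain ⟨g₁, hg₁, e₁⟩ := exists_div_x h1 hx.1
      obtain ⟨g₂, hg₂, e₂⟩ := exists_div_x h2 hx.2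
      have hN' : analyticOrderAt (fun z : ℂ => g₁ (z, z)) 0 = (N : ℕ∞) ∨ analyticOrderAt (fun z : ℂ => g₂ (z, z)) 0 = (N : ℕ∞) := by
        rcases hN with hN | hN
        · exact Or.inl (Sat_order (l := fun x => x.1) (fun z => rfl) hg₁ e₁ hN).2
        · exact Or.inr (Sat_order (l := fun x => x.1) (fun z => rfl) hg₂ e₂ hN).2
      obtain ⟨i, j, v₁, v₂, hv₁, hv₂, he, hz⟩ := ih hg₁ hg₂ (by
        filter_upwards [h, e₁, e₂] with p hp hp1 hp2 hne
        rcases hp hne with h3 | h3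
        · left
          rintro h4
          exact h3 (by rw [hp1, h4, smul_zero])
        · right
          rintro h4
          exact h3 (by rw [hp2, h4, smul_zero])) hN'
      refine ⟨i + 1, j, v₁, v₂, hv₁, hv₂, ?_, hz⟩
      filter_upwards [he, e₁, e₂] with p hp hp1 hp2
      constructor
      · rw [hp1, hp.1, smul_eq_mul, pow_succ]; ring
      · rw [hp2, hp.2, smul_eq_mul, pow_succ]; ring
    by_cases hy : (∀ᶠ x in 𝓝 (0 : ℂ), c₁ (x, 0) = 0) ∧ ∀ᶠ x in 𝓝 (0 : ℂ), c₂ (x, 0) = 0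
    · obtain ⟨g₁, hg₁, e₁⟩ := exists_div_y h1 hy.1
      obtain ⟨g₂, hg₂, e₂⟩ := exists_div_y h2 hy.2
      have hN' : analyticOrderAt (fun z : ℂ => g₁ (z, z)) 0 = (N : ℕ∞) ∨ analyticOrderAt (fun z : ℂ => g₂ (z, z)) 0 = (N : ℕ∞) := by
        rcases hN with hN | hN
        · exact Or.inl (Sat_order (l := fun x => x.2) (fun z => rfl) hg₁ e₁ hN).2
        · exact Or.inr (Sat_order (l := fun x => x.2) (fun z => rfl) hg₂ e₂ hN).2
      obtain ⟨i, j, v₁, v₂, hv₁, hv₂, he, hz⟩ := ih hg₁ hg₂ (by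
        filter_upwards [h, e₁, e₂] with p hp hp1 hp2 hne
        rcases hp hne with h3 | h3
        · left
          rintro h4
          exact h3 (by rw [hp1, h4, smul_zero])
        · right
          rintro h4
          exact h3 (by rw [hp2, h4, smul_zero])) hN'
      refine ⟨i, j + 1, v₁, v₂, hv₁, hv₂, ?_, hz⟩
      filter_upwards [he, e₁, e₂] with p hp hp1 hp2
      constructor
      · rw [hp1, hp.1, smul_eq_mul, pow_succ]; ring
      · rw [hp2, hp.2, smul_eq_mul, pow_succ]; ring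
    -- neither axis divides both
    refine ⟨0, 0, c₁, c₂, h1, h2, Eventually.of_forall fun p => by simp, ?_⟩
    have hX : ∀ᶠ y in 𝓝 (0 : ℂ), y ≠ 0 → c₁ (0, y) ≠ 0 ∨ c₂ (0, y) ≠ 0 := by
      rcases not_and_or.1 hx with h3 | h3
      · filter_upwards [Sat_ax (Sat_snd h1) h3] with y hy h4
        exact Or.inl (hy h4)
      · filter_upwards [Sat_ax (Sat_snd h2) h3] with y hy h4
        exact Or.inr (hy h4)
    have hY : ∀ᶠ x in 𝓝 (0 : ℂ), x ≠ 0 → c₁ (x, 0) ≠ 0 ∨ c₂ (x, 0) ≠ 0 := by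
      rcases not_and_or.1 hy with h3 | h3
      · filter_upwards [Sat_ax (Sat_fst h1) h3] with y hy h4
        exact Or.inl (hy h4)
      · filter_upwards [Sat_ax (Sat_fst h2) h3] with y hy h4
        exact Or.inr (hy h4)
    have t1 : Tendsto (fun p : ℂ × ℂ => p.1) (𝓝 0) (𝓝 0) := by simpa using continuous_fst.tendsto (0 : ℂ × ℂ)
    have t2 : Tendsto (fun p : ℂ × ℂ => p.2) (𝓝 0) (𝓝 0) := by simpa using continuous_snd.tendsto (0 : ℂ × ℂ)
    filter_upwards [h, t2.eventually hX, t1.eventually hY] with p hp hpX hpY hp0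
    by_cases h3 : p.1 = 0
    · have h4 : p.2 ≠ 0 := fun h4 => hp0 (Prod.ext h3 h4)
      have h5 : p = (0, p.2) := Prod.ext h3 rfl
      have := hpX h4
      rwa [← h5] at this
    · by_cases h4 : p.2 = 0
      · have h5 : p = (p.1, 0) := Prod.ext rfl h4
        have := hpY h3
        rwa [← h5] at this
      · exact hp (mul_ne_zero h3 h4)

/-- **Saturation**: a pair without common zeros off the axes is a monomial times a pair with an isolated zero. -/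
theorem exists_sat {c₁ c₂ : ℂ × ℂ → ℂ} (h₁ : AnalyticAt ℂ c₁ 0) (h₂ : AnalyticAt ℂ c₂ 0)
    (h : ∀ᶠ p in 𝓝 (0 : ℂ × ℂ), p.1 * p.2 ≠ 0 → c₁ p ≠ 0 ∨ c₂ p ≠ 0) :
    ∃ (i j : ℕ) (v₁ v₂ : ℂ × ℂ → ℂ), AnalyticAt ℂ v₁ 0 ∧ AnalyticAt ℂ v₂ 0 ∧
      (∀ᶠ p in 𝓝 (0 : ℂ × ℂ), c₁ p = p.1 ^ i * p.2 ^ j * v₁ p ∧ c₂ p = p.1 ^ i * p.2 ^ j * v₂ p) ∧
      ∀ᶠ p in 𝓝 (0 : ℂ × ℂ), p ≠ 0 → v₁ p ≠ 0 ∨ v₂ p ≠ 0 := by
  by_cases ht : analyticOrderAt (fun z : ℂ => c₁ (z, z)) 0 = ⊤ ∧ analyticOrderAt (fun z : ℂ => c₂ (z, z)) 0 = ⊤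
  · exfalso
    have e1 := analyticOrderAt_eq_top.1 ht.1
    have e2 := analyticOrderAt_eq_top.1 ht.2
    have h3 : ∀ᶠ z in 𝓝 (0 : ℂ), z = 0 := by
      filter_upwards [e1, e2, Sat_diag_tendsto.eventually h] with z hz1 hz2 hz3
      by_contra hz
      rcases hz3 (mul_ne_zero hz hz) with h4 | h4
      · exact h4 hz1
      · exact h4 hz2
    have h4 : ∀ᶠ z in 𝓝[≠] (0 : ℂ), False := by
      filter_upwards [h3.filter_mono nhdsWithin_le_nhds, self_mem_nhdsWithin] with z hz hz'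
      exact hz' hz
    exact (NormedField.nhdsNE_neBot (0 : ℂ)).ne (Filter.eventually_false_iff_eq_bot.1 h4)
  · rcases not_and_or.1 ht with h3 | h3
    · obtain ⟨N, hN⟩ := ENat.ne_top_iff_exists.1 h3
      exact Sat_main N h₁ h₂ h (Or.inl hN.symm)
    · obtain ⟨N, hN⟩ := ENat.ne_top_iff_exists.1 h3
      exact Sat_main N h₁ h₂ h (Or.inr hN.symm)

/-- Saturation at a point of one axis only. -/
theorem exists_sat_fst {c₁ c₂ : ℂ × ℂ → ℂ} (h₁ : AnalyticAt ℂ c₁ 0) (h₂ : AnalyticAt ℂ c₂ 0)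
    (h : ∀ᶠ p in 𝓝 (0 : ℂ × ℂ), p.1 ≠ 0 → c₁ p ≠ 0 ∨ c₂ p ≠ 0) :
    ∃ (i : ℕ) (v₁ v₂ : ℂ × ℂ → ℂ), AnalyticAt ℂ v₁ 0 ∧ AnalyticAt ℂ v₂ 0 ∧
      (∀ᶠ p in 𝓝 (0 : ℂ × ℂ), c₁ p = p.1 ^ i * v₁ p ∧ c₂ p = p.1 ^ i * v₂ p) ∧
      ∀ᶠ p in 𝓝 (0 : ℂ × ℂ), p ≠ 0 → v₁ p ≠ 0 ∨ v₂ p ≠ 0 := by
  obtain ⟨i, j, v₁, v₂, a1, a2, he, hz⟩ := exists_sat h₁ h₂ (h.mono fun p hp hne => hp (left_ne_zero_of_mul hne))
  have hj : j = 0 := by
    by_contra hj
    have t1 : Tendsto (fun x : ℂ => ((x, 0) : ℂ × ℂ)) (𝓝 0) (𝓝 0) := by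
      have h : Continuous fun x : ℂ => ((x, 0) : ℂ × ℂ) := by fun_prop
      exact h.tendsto 0
    have h3 : ∀ᶠ x in 𝓝 (0 : ℂ), x = 0 := by
      filter_upwards [t1.eventually h, t1.eventually he] with x hx1 hx2
      by_contra hx
      simp only [zero_pow hj, mul_zero, zero_mul] at hx2
      rcases hx1 hx with h4 | h4
      · exact h4 hx2.1
      · exact h4 hx2.2
    have h4 : ∀ᶠ z in 𝓝[≠] (0 : ℂ), False := by
      filter_upwards [h3.filter_mono nhdsWithin_le_nhds, self_mem_nhdsWithin] with z hz hz'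
      exact hz' hz
    exact (NormedField.nhdsNE_neBot (0 : ℂ)).ne (Filter.eventually_false_iff_eq_bot.1 h4)
  subst hj
  refine ⟨i, v₁, v₂, a1, a2, ?_, hz⟩
  filter_upwards [he] with p hp
  simpa using hp

/-- the coefficients of the pull-back of `A dy - B dx` under `φ` -/
def pb (A B : ℂ × ℂ → ℂ) (φ : ℂ × ℂ → ℂ × ℂ) (p w : ℂ × ℂ) : ℂ := A p * (fderiv ℂ φ p w).2 - B p * (fderiv ℂ φ p w).1

/-- off the common zeros of `A`, `B` and the zeros of the Jacobian the pull-back of `A dy - B dx` has no zeros -/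
theorem pb_ne {A B : ℂ × ℂ → ℂ} {φ : ℂ × ℂ → ℂ × ℂ} {p : ℂ × ℂ} (hA : A p ≠ 0 ∨ B p ≠ 0)
    (hJ : (fderiv ℂ φ p (1, 0)).1 * (fderiv ℂ φ p (0, 1)).2 - (fderiv ℂ φ p (1, 0)).2 * (fderiv ℂ φ p (0, 1)).1 ≠ 0) :
    pb A B φ p (1, 0) ≠ 0 ∨ pb A B φ p (0, 1) ≠ 0 := by
  by_contra hcon
  push Not at hcon
  obtain ⟨h1, h2⟩ := hcon
  unfold pb at h1 h2
  have h3 : A p * ((fderiv ℂ φ p (1, 0)).1 * (fderiv ℂ φ p (0, 1)).2 - (fderiv ℂ φ p (1, 0)).2 * (fderiv ℂ φ p (0, 1)).1) = 0 := by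
    linear_combination (fderiv ℂ φ p (1, 0)).1 * h2 - (fderiv ℂ φ p (0, 1)).1 * h1
  have h4 : B p * ((fderiv ℂ φ p (1, 0)).1 * (fderiv ℂ φ p (0, 1)).2 - (fderiv ℂ φ p (1, 0)).2 * (fderiv ℂ φ p (0, 1)).1) = 0 := by
    linear_combination (fderiv ℂ φ p (1, 0)).2 * h2 - (fderiv ℂ φ p (0, 1)).2 * h1
  rcases hA with hA | hA
  · exact (mul_ne_zero hA hJ) h3
  · exact (mul_ne_zero hA hJ) h4

theorem pb_add_smul (A B : ℂ × ℂ → ℂ) (φ : ℂ × ℂ → ℂ × ℂ) (p w : ℂ × ℂ) : pb A B φ p w = w.1 * pb A B φ p (1, 0) + w.2 * pb A B φ p (0, 1) := by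
  have h : w = w.1 • ((1 : ℂ), (0 : ℂ)) + w.2 • ((0 : ℂ), (1 : ℂ)) := by
    ext <;> simp
  have h1 : fderiv ℂ φ p w = w.1 • fderiv ℂ φ p (1, 0) + w.2 • fderiv ℂ φ p (0, 1) := by
    conv_lhs => rw [h]
    rw [map_add, map_smul, map_smul]
  unfold pb
  rw [h1]
  simp only [Prod.fst_add, Prod.snd_add, Prod.smul_fst, Prod.smul_snd, smul_eq_mul]
  ring

theorem analyticAt_pb {A B : ℂ × ℂ → ℂ} {φ : ℂ × ℂ → ℂ × ℂ} {p : ℂ × ℂ} (hA : AnalyticAt ℂ A p) (hB : AnalyticAt ℂ B p) (hφ : AnalyticAt ℂ φ p) (w : ℂ × ℂ) :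
    AnalyticAt ℂ (fun q => pb A B φ q w) p := by
  have h1 : AnalyticAt ℂ (fun q => fderiv ℂ φ q w) p := ((ContinuousLinearMap.apply ℂ (ℂ × ℂ) w).analyticAt (fderiv ℂ φ p)).comp hφ.fderiv
  have h2 : AnalyticAt ℂ (fun q => (fderiv ℂ φ q w).1) p := (ContinuousLinearMap.fst ℂ ℂ ℂ).analyticAt _ |>.comp h1
  have h3 : AnalyticAt ℂ (fun q => (fderiv ℂ φ q w).2) p := (ContinuousLinearMap.snd ℂ ℂ ℂ).analyticAt _ |>.comp h1
  exact (hA.mul h3).sub (hB.mul h2)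

end Pool.Agent.MQ3

end
end

section

/-!
# MQ3 Glue: functions off the axes which extend locally, and the global saturation of a vector field along the axes
-/

set_option autoImplicit false

open Topology Filter Metric

noncomputable section

namespace Pool.Agent.MQ3

/-- the points off the axes are dense -/
theorem freq_off (p : ℂ × ℂ) : ∃ᶠ q in 𝓝 p, q.1 * q.2 ≠ 0 := by
  have hd : ∀ z : ℂ, ∃ᶠ w in 𝓝 z, w ≠ 0 := by
    intro z
    have h1 : ∀ᶠ w in 𝓝[≠] z, w ≠ 0 := by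
      by_cases hz : z = 0
      · subst hz
        exact eventually_mem_nhdsWithin
      · have h2 : ∀ᶠ w in 𝓝 z, w ≠ 0 := isOpen_ne.mem_nhds hz
        exact h2.filter_mono nhdsWithin_le_nhds
    exact h1.frequently.filter_mono nhdsWithin_le_nhds
  rw [Filter.frequently_iff]
  intro U hU
  rw [nhds_prod_eq, mem_prod_iff] at hU
  obtain ⟨U1, hU1, U2, hU2, hU⟩ := hU
  obtain ⟨x, hx, hx0⟩ := (Filter.frequently_iff.1 (hd p.1)) hU1
  obtain ⟨y, hy, hy0⟩ := (Filter.frequently_iff.1 (hd p.2)) hU2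
  exact ⟨(x, y), hU ⟨hx, hy⟩, mul_ne_zero hx0 hy0⟩

section

variable {F : Type*} [NormedAddCommGroup F] [NormedSpace ℂ F] [CompleteSpace F]

omit [NormedSpace ℂ F] [CompleteSpace F] in
/-- continuous functions which agree off the axes agree -/
theorem eq_of_off {f g : ℂ × ℂ → F} {q : ℂ × ℂ} (hf : ContinuousAt f q) (hg : ContinuousAt g q)
    (h : ∀ᶠ q' in 𝓝 q, q'.1 * q'.2 ≠ 0 → f q' = g q') : f q = g q := by
  by_contra hcon
  have h1 : ∀ᶠ q' in 𝓝 q, f q' - g q' ≠ 0 := (hf.sub hg).eventually_ne (sub_ne_zero.2 hcon)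
  obtain ⟨q', h2, h3, h4⟩ := ((freq_off q).and_eventually (h.and h1)).exists
  exact h4 (sub_eq_zero.2 (h3 h2))

/-- analytic germs which agree off the axes agree -/
theorem eventuallyEq_of_off {f g : ℂ × ℂ → F} {q : ℂ × ℂ} (hf : AnalyticAt ℂ f q) (hg : AnalyticAt ℂ g q)
    (h : ∀ᶠ q' in 𝓝 q, q'.1 * q'.2 ≠ 0 → f q' = g q') : ∀ᶠ q' in 𝓝 q, f q' = g q' := by
  filter_upwards [hf.eventually_analyticAt, hg.eventually_analyticAt, eventually_eventually_nhds.2 h] with q' h1 h2 h3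
  exact eq_of_off h1.continuousAt h2.continuousAt h3

/-- gluing of local extensions over the axes -/
theorem glue {U : Set (ℂ × ℂ)} (hU : IsOpen U) {B : ℂ × ℂ → F}
    (hloc : ∀ p ∈ U, ∃ φ : ℂ × ℂ → F, AnalyticAt ℂ φ p ∧ ∀ᶠ q in 𝓝 p, q.1 * q.2 ≠ 0 → φ q = B q) :
    ∃ B' : ℂ × ℂ → F, (∀ p ∈ U, AnalyticAt ℂ B' p) ∧ ∀ p ∈ U, p.1 * p.2 ≠ 0 → B' p = B p := by
  choose! φ hφ1 hφ2 using hloc
  refine ⟨fun p => φ p p, fun p hp => ?_, fun p hp h0 => (hφ2 p hp).self_of_nhds h0⟩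
  refine (hφ1 p hp).congr ?_
  filter_upwards [hU.mem_nhds hp, (hφ1 p hp).eventually_analyticAt, eventually_eventually_nhds.2 (hφ2 p hp)] with q hq h1 h2
  refine eq_of_off h1.continuousAt (hφ1 q hq).continuousAt ?_
  filter_upwards [h2, hφ2 q hq] with q' h3 h4 h0
  rw [h3 h0, h4 h0]

end

/-- **Riemann's extension theorem over the axes** in an open set. -/
theorem exists_ext {U : Set (ℂ × ℂ)} (hU : IsOpen U) {B : ℂ × ℂ → ℂ} (hB : ∀ p ∈ U, p.1 * p.2 ≠ 0 → AnalyticAt ℂ B p) {C : ℝ}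
    (hC : ∀ p ∈ U, p.1 * p.2 ≠ 0 → ‖B p‖ ≤ C) :
    ∃ B' : ℂ × ℂ → ℂ, (∀ p ∈ U, AnalyticAt ℂ B' p) ∧ ∀ p ∈ U, p.1 * p.2 ≠ 0 → B' p = B p := by
  refine glue hU fun p hp => ?_
  refine Pool.Agent.TG.riemann_one (h := fun q : ℂ × ℂ => q.1 * q.2) (M := C) (analyticAt_fst.mul analyticAt_snd) ?_ ?_ ?_
  · intro h
    exact (freq_off p) (h.mono fun q hq h' => h' hq)
  · filter_upwards [hU.mem_nhds hp] with q hq h0
    exact hB q hq h0
  · filter_upwards [hU.mem_nhds hp] with q hq h0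
    exact hC q hq h0

/-- a function of two variables has no isolated zero -/
theorem ne_of_isolated {u : ℂ × ℂ → ℂ} {q₀ : ℂ × ℂ} (hu : AnalyticAt ℂ u q₀) (h : ∀ᶠ q in 𝓝 q₀, q ≠ q₀ → u q ≠ 0) : u q₀ ≠ 0 := by
  obtain ⟨R, hR, hb⟩ := Metric.eventually_nhds_iff_ball.1 (h.and hu.eventually_analyticAt)
  set r := R / 2 with hr
  have hr0 : 0 < r := by positivity
  have hmem : ∀ s τ : ℂ, ‖s‖ ≤ r → ‖τ‖ < r → (q₀.1 + s, q₀.2 + τ) ∈ ball q₀ R := by
    intro s τ hs hτ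
    rw [mem_ball, Prod.dist_eq, max_lt_iff, dist_self_add_left, dist_self_add_left]
    exact ⟨by linarith, by linarith⟩
  -- the minimum on the circle
  have hcomp : IsCompact (sphere (0 : ℂ) r) := isCompact_sphere 0 r
  have hne : (sphere (0 : ℂ) r).Nonempty := NormedSpace.sphere_nonempty.2 hr0.le
  have hcont : ∀ s τ : ℂ, ‖s‖ ≤ r → ‖τ‖ < r → ContinuousAt (fun x : ℂ × ℂ => u (q₀.1 + x.2, q₀.2 + x.1)) (τ, s) := by
    intro s τ hs hτ
    have h1 : ContinuousAt u (q₀.1 + s, q₀.2 + τ) := (hb _ (hmem s τ hs hτ)).2.continuousAt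
    exact ContinuousAt.comp (f := fun x : ℂ × ℂ => (q₀.1 + x.2, q₀.2 + x.1)) (x := (τ, s)) h1 (by fun_prop)
  obtain ⟨s₀, hs₀, hmin⟩ := hcomp.exists_isMinOn (f := fun s => ‖u (q₀.1 + s, q₀.2)‖) hne (by
    intro s hs
    have hs' : ‖s‖ ≤ r := (mem_sphere_zero_iff_norm.1 hs).le
    have h1 := hcont s 0 hs' (by simpa using hr0)
    have h2 : ContinuousAt (fun s : ℂ => u (q₀.1 + s, q₀.2 + 0)) s := ContinuousAt.comp (f := fun s : ℂ => ((0 : ℂ), s)) (x := s) h1 (by fun_prop)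
    simp only [add_zero] at h2
    exact h2.norm.continuousWithinAt)
  set m := ‖u (q₀.1 + s₀, q₀.2)‖ with hm
  have hm0 : 0 < m := by
    rw [hm, norm_pos_iff]
    have h1 : (q₀.1 + s₀, q₀.2) ∈ ball q₀ R := by
      have := hmem s₀ 0 (mem_sphere_zero_iff_norm.1 hs₀).le (by simpa using hr0)
      simpa using this
    refine (hb _ h1).1 fun h2 => ?_
    have h3 : q₀.1 + s₀ = q₀.1 := congrArg Prod.fst h2
    have h4 : s₀ = 0 := by simpa using h3
    rw [h4, mem_sphere_zero_iff_norm, norm_zero] at hs₀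
    linarith
  have hev : ∀ᶠ τ in 𝓝 (0 : ℂ), ∀ s ∈ sphere (0 : ℂ) r, m / 2 < ‖u (q₀.1 + s, q₀.2 + τ)‖ := by
    refine hcomp.eventually_forall_of_forall_eventually fun s hs => ?_
    have hs' : ‖s‖ ≤ r := (mem_sphere_zero_iff_norm.1 hs).le
    refine (hcont s 0 hs' (by simpa using hr0)).norm.eventually_const_lt ?_
    have h1 : m ≤ ‖u (q₀.1 + s, q₀.2)‖ := hmin hs
    simp only [add_zero]
    linarith
  have hlow : ∀ᶠ τ in 𝓝[≠] (0 : ℂ), m / 2 ≤ ‖u (q₀.1, q₀.2 + τ)‖ := by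
    have h1 : ∀ᶠ τ in 𝓝 (0 : ℂ), ‖τ‖ < r := by
      have := ball_mem_nhds (0 : ℂ) hr0
      filter_upwards [this] with τ hτ
      simpa using hτ
    filter_upwards [hev.filter_mono nhdsWithin_le_nhds, h1.filter_mono nhdsWithin_le_nhds, self_mem_nhdsWithin] with τ h2 h3 h4
    have h4' : τ ≠ 0 := h4
    have hnz : ∀ s : ℂ, ‖s‖ ≤ r → u (q₀.1 + s, q₀.2 + τ) ≠ 0 := by
      intro s hs
      refine (hb _ (hmem s τ hs h3)).1 fun h5 => ?_
      have h6 : q₀.2 + τ = q₀.2 := congrArg Prod.snd h5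
      exact h4' (by simpa using h6)
    have hd : ∀ s : ℂ, ‖s‖ ≤ r → DifferentiableAt ℂ (fun s => (u (q₀.1 + s, q₀.2 + τ))⁻¹) s := by
      intro s hs
      have h5 : DifferentiableAt ℂ u (q₀.1 + s, q₀.2 + τ) := (hb _ (hmem s τ hs h3)).2.differentiableAt
      have h6 : DifferentiableAt ℂ (fun s : ℂ => (q₀.1 + s, q₀.2 + τ)) s :=
        (differentiableAt_id.const_add q₀.1).prodMk (differentiableAt_const _)
      have h7 : DifferentiableAt ℂ (fun s => u (q₀.1 + s, q₀.2 + τ)) s := h5.comp s h6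
      exact h7.inv (hnz s hs)
    have hdc : DiffContOnCl ℂ (fun s => (u (q₀.1 + s, q₀.2 + τ))⁻¹) (ball (0 : ℂ) r) := by
      refine ⟨fun s hs => (hd s (by simpa using (mem_ball_zero_iff.1 hs).le)).differentiableWithinAt, ?_⟩
      rw [closure_ball _ hr0.ne']
      exact fun s hs => (hd s (by simpa using hs)).continuousAt.continuousWithinAt
    have hmax := Complex.norm_le_of_forall_mem_frontier_norm_le (U := ball (0 : ℂ) r) isBounded_ball hdc (C := (m / 2)⁻¹) (by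
      intro s hs
      rw [frontier_ball _ hr0.ne'] at hs
      rw [norm_inv]
      exact inv_anti₀ (by positivity) (h2 s hs).le) (z := 0) (subset_closure (mem_ball_self hr0))
    simp only [add_zero, norm_inv] at hmax
    have h8 : 0 < ‖u (q₀.1, q₀.2 + τ)‖ := by
      have := hnz 0 (by simpa using hr0.le)
      simp only [add_zero] at this
      exact norm_pos_iff.2 this
    exact (inv_le_inv₀ h8 (by positivity)).1 hmax
  have hlim : Tendsto (fun τ : ℂ => ‖u (q₀.1, q₀.2 + τ)‖) (𝓝[≠] 0) (𝓝 ‖u q₀‖) := by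
    have h1 := hcont 0 0 (by simpa using hr0.le) (by simpa using hr0)
    have h2 : ContinuousAt (fun τ : ℂ => u (q₀.1 + 0, q₀.2 + τ)) 0 := ContinuousAt.comp (f := fun τ : ℂ => (τ, (0 : ℂ))) (x := 0) h1 (by fun_prop)
    simp only [add_zero] at h2
    have h3 := h2.norm.tendsto
    simp only [add_zero] at h3
    exact h3.mono_left nhdsWithin_le_nhds
  have h9 := ge_of_tendsto hlim hlow
  intro h10
  rw [h10, norm_zero] at h9
  linarith

/-- saturation at a point -/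
theorem exists_sat_at {c : ℂ × ℂ → ℂ × ℂ} {q₀ : ℂ × ℂ} (hc : AnalyticAt ℂ c q₀) (h : ∀ᶠ p in 𝓝 q₀, p.1 * p.2 ≠ 0 → c p ≠ 0) :
    ∃ (i j : ℕ) (v : ℂ × ℂ → ℂ × ℂ), AnalyticAt ℂ v q₀ ∧ (q₀.1 ≠ 0 → i = 0) ∧ (q₀.2 ≠ 0 → j = 0) ∧
      (∀ᶠ p in 𝓝 q₀, c p = (p.1 ^ i * p.2 ^ j) • v p) ∧ ∀ᶠ p in 𝓝 q₀, p ≠ q₀ → v p ≠ 0 := by
  have hne : ∀ x : ℂ × ℂ, (x ≠ 0 ↔ x.1 ≠ 0 ∨ x.2 ≠ 0) := by
    intro x
    rw [Ne, Prod.ext_iff, not_and_or]
    rfl
  have hf : AnalyticAt ℂ (fun p => (c p).1) q₀ := analyticAt_fst.fun_comp hc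
  have hs : AnalyticAt ℂ (fun p => (c p).2) q₀ := analyticAt_snd.fun_comp hc
  by_cases h1 : q₀.1 = 0
  · by_cases h2 : q₀.2 = 0
    · have h0 : q₀ = 0 := Prod.ext h1 h2
      subst h0
      obtain ⟨i, j, v₁, v₂, g1, g2, g3, g4⟩ := exists_sat hf hs (by
        filter_upwards [h] with p hp h5
        exact (hne _).1 (hp h5))
      refine ⟨i, j, fun p => (v₁ p, v₂ p), g1.prod g2, fun h => absurd h1 h, fun h => absurd h2 h, ?_, ?_⟩
      · filter_upwards [g3] with p hp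
        exact Prod.ext (by rw [Prod.smul_fst, smul_eq_mul]; exact hp.1) (by rw [Prod.smul_snd, smul_eq_mul]; exact hp.2)
      · filter_upwards [g4] with p hp h5
        exact (hne _).2 (hp h5)
    · -- translated
      have htr : AnalyticAt ℂ (fun p : ℂ × ℂ => q₀ + p) 0 := analyticAt_const.add analyticAt_id
      have htr' : AnalyticAt ℂ (fun p : ℂ × ℂ => p - q₀) q₀ := analyticAt_id.sub analyticAt_const
      have htt : Tendsto (fun p : ℂ × ℂ => q₀ + p) (𝓝 0) (𝓝 q₀) := by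
        have := htr.continuousAt.tendsto
        simpa using this
      have htt' : Tendsto (fun p : ℂ × ℂ => p - q₀) (𝓝 q₀) (𝓝 0) := by
        have := htr'.continuousAt.tendsto
        simpa using this
      have hf' : AnalyticAt ℂ (fun p => (c (q₀ + p)).1) 0 := by
        refine AnalyticAt.fun_comp (g := fun p => (c p).1) (f := fun p : ℂ × ℂ => q₀ + p) ?_ htr
        simpa using hf
      have hs' : AnalyticAt ℂ (fun p => (c (q₀ + p)).2) 0 := by
        refine AnalyticAt.fun_comp (g := fun p => (c p).2) (f := fun p : ℂ × ℂ => q₀ + p) ?_ htr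
        simpa using hs
      obtain ⟨i, v₁, v₂, g1, g2, g3, g4⟩ := exists_sat_fst hf' hs' (by
        have h3 : ∀ᶠ p in 𝓝 q₀, p.2 ≠ 0 := continuous_snd.continuousAt.eventually_ne h2
        filter_upwards [htt.eventually h, htt.eventually h3] with p hp h4 h5
        refine (hne _).1 (hp (mul_ne_zero ?_ h4))
        rw [Prod.fst_add, h1, zero_add]
        exact h5)
      refine ⟨i, 0, fun p => (v₁ (p - q₀), v₂ (p - q₀)), ?_, fun h => absurd h1 h, fun _ => rfl, ?_, ?_⟩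
      · refine AnalyticAt.prod ?_ ?_
        · exact AnalyticAt.fun_comp (g := v₁) (f := fun p : ℂ × ℂ => p - q₀) (by simpa using g1) htr'
        · exact AnalyticAt.fun_comp (g := v₂) (f := fun p : ℂ × ℂ => p - q₀) (by simpa using g2) htr'
      · filter_upwards [htt'.eventually g3] with p hp
        rw [add_sub_cancel, Prod.fst_sub, h1, sub_zero] at hp
        rw [pow_zero, mul_one]
        exact Prod.ext (by rw [Prod.smul_fst, smul_eq_mul]; exact hp.1) (by rw [Prod.smul_snd, smul_eq_mul]; exact hp.2)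
      · filter_upwards [htt'.eventually g4] with p hp h5
        exact (hne _).2 (hp (sub_ne_zero.2 h5))
  · by_cases h2 : q₀.2 = 0
    · -- swapped and translated
      have hsw : AnalyticAt ℂ (fun p : ℂ × ℂ => q₀ + (p.2, p.1)) 0 := analyticAt_const.add (analyticAt_snd.prod analyticAt_fst)
      have hsw' : AnalyticAt ℂ (fun p : ℂ × ℂ => ((p - q₀).2, (p - q₀).1)) q₀ := by
        have h3 : AnalyticAt ℂ (fun p : ℂ × ℂ => p - q₀) q₀ := analyticAt_id.sub analyticAt_const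
        exact (analyticAt_snd.fun_comp h3).prod (analyticAt_fst.fun_comp h3)
      have hz : q₀ + (((0 : ℂ × ℂ)).2, ((0 : ℂ × ℂ)).1) = q₀ := by
        ext <;> simp
      have hz' : (((q₀ - q₀).2, (q₀ - q₀).1) : ℂ × ℂ) = 0 := by
        ext <;> simp
      have htt : Tendsto (fun p : ℂ × ℂ => q₀ + (p.2, p.1)) (𝓝 0) (𝓝 q₀) := by
        have := hsw.continuousAt.tendsto
        rwa [hz] at this
      have htt' : Tendsto (fun p : ℂ × ℂ => ((p - q₀).2, (p - q₀).1)) (𝓝 q₀) (𝓝 0) := by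
        have := hsw'.continuousAt.tendsto
        rwa [hz'] at this
      have hf' : AnalyticAt ℂ (fun p : ℂ × ℂ => (c (q₀ + (p.2, p.1))).1) 0 := by
        refine AnalyticAt.fun_comp (g := fun p => (c p).1) (f := fun p : ℂ × ℂ => q₀ + (p.2, p.1)) ?_ hsw
        rw [hz]
        exact hf
      have hs' : AnalyticAt ℂ (fun p : ℂ × ℂ => (c (q₀ + (p.2, p.1))).2) 0 := by
        refine AnalyticAt.fun_comp (g := fun p => (c p).2) (f := fun p : ℂ × ℂ => q₀ + (p.2, p.1)) ?_ hsw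
        rw [hz]
        exact hs
      obtain ⟨j, v₁, v₂, g1, g2, g3, g4⟩ := exists_sat_fst hf' hs' (by
        have h3 : ∀ᶠ p in 𝓝 q₀, p.1 ≠ 0 := continuous_fst.continuousAt.eventually_ne h1
        filter_upwards [htt.eventually h, htt.eventually h3] with p hp h4 h5
        refine (hne _).1 (hp (mul_ne_zero h4 ?_))
        rw [Prod.snd_add, h2, zero_add]
        exact h5)
      refine ⟨0, j, fun p => (v₁ ((p - q₀).2, (p - q₀).1), v₂ ((p - q₀).2, (p - q₀).1)), ?_, fun _ => rfl, fun h => absurd h2 h, ?_, ?_⟩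
      · refine AnalyticAt.prod ?_ ?_
        · exact AnalyticAt.fun_comp (g := v₁) (f := fun p : ℂ × ℂ => ((p - q₀).2, (p - q₀).1)) (by rw [hz']; exact g1) hsw'
        · exact AnalyticAt.fun_comp (g := v₂) (f := fun p : ℂ × ℂ => ((p - q₀).2, (p - q₀).1)) (by rw [hz']; exact g2) hsw'
      · filter_upwards [htt'.eventually g3] with p hp
        have h3 : q₀ + (((p - q₀).2, (p - q₀).1) : ℂ × ℂ).swap = p := by
          ext <;> simp
        have h4 : q₀ + ((((p - q₀).2, (p - q₀).1) : ℂ × ℂ).2, (((p - q₀).2, (p - q₀).1) : ℂ × ℂ).1) = p := h3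
        rw [h4] at hp
        simp only [Prod.snd_sub, h2, sub_zero] at hp
        rw [pow_zero, one_mul]
        refine Prod.ext ?_ ?_
        · rw [Prod.smul_fst, smul_eq_mul]
          simp only [Prod.snd_sub, h2, sub_zero]
          exact hp.1
        · rw [Prod.smul_snd, smul_eq_mul]
          simp only [Prod.snd_sub, h2, sub_zero]
          exact hp.2
      · filter_upwards [htt'.eventually g4] with p hp h5
        refine (hne _).2 (hp fun h6 => h5 ?_)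
        have h7 : (p - q₀).2 = 0 := congrArg Prod.fst h6
        have h8 : (p - q₀).1 = 0 := congrArg Prod.snd h6
        exact sub_eq_zero.1 (Prod.ext h8 h7)
    · refine ⟨0, 0, c, hc, fun _ => rfl, fun _ => rfl, Eventually.of_forall fun p => by simp, ?_⟩
      filter_upwards [h, continuous_fst.continuousAt.eventually_ne h1, continuous_snd.continuousAt.eventually_ne h2] with p h3 h4 h5 _
      exact h3 (mul_ne_zero h4 h5)

/-- the exponent along an axis is unique -/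
theorem exp_unique {x : ℂ × ℂ → ℂ} {q : ℂ × ℂ} (hx : ContinuousAt x q) (hx0 : x q = 0) (hxne : ∀ p : ℂ × ℂ, p.1 * p.2 ≠ 0 → x p ≠ 0) {a b : ℂ × ℂ → ℂ × ℂ}
    (ha : ContinuousAt a q) (hb : ContinuousAt b q) (ha0 : a q ≠ 0) {i j : ℕ} (hij : i ≤ j)
    (h : ∀ᶠ p in 𝓝 q, x p ^ i • a p = x p ^ j • b p) : i = j := by
  have h1 : a q = x q ^ (j - i) • b q := by
    refine eq_of_off ha ((hx.pow _).smul hb) ?_
    filter_upwards [h] with p hp h0
    have h2 : x p ^ i ≠ 0 := pow_ne_zero _ (hxne p h0)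
    have h3 : x p ^ j = x p ^ i * x p ^ (j - i) := by
      rw [← pow_add]
      congr 1
      omega
    rw [h3, mul_smul] at hp
    exact smul_right_injective _ h2 hp
  by_contra hcon
  rw [hx0, zero_pow (by omega), zero_smul] at h1
  exact ha0 h1

/-- a locally constant function on a preconnected set -/
theorem const_of_loc {S : Set ℂ} (hS : IsPreconnected S) {f : ℂ → ℕ} (h : ∀ t ∈ S, ∀ᶠ t' in 𝓝 t, t' ∈ S → f t' = f t) :
    ∀ t ∈ S, ∀ t' ∈ S, f t = f t' := by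
  intro t ht t' ht'
  refine hS.constant (f := f) ?_ ht ht'
  intro t ht
  have h1 : ∀ᶠ t' in 𝓝[S] t, f t' = f t := by
    rw [eventually_nhdsWithin_iff]
    exact h t ht
  exact (continuousWithinAt_const (b := f t)).congr_of_eventuallyEq h1 rfl

/-- **Global saturation along the axes.** -/
theorem exists_sat_global {U : Set (ℂ × ℂ)} (hU : IsOpen U) (h0 : (0 : ℂ × ℂ) ∈ U) (hS : IsPreconnected {t : ℂ | ((0 : ℂ), t) ∈ U})
    (hS' : IsPreconnected {s : ℂ | (s, (0 : ℂ)) ∈ U}) {c : ℂ × ℂ → ℂ × ℂ} (hc : ∀ p ∈ U, AnalyticAt ℂ c p)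
    (hne : ∀ p ∈ U, p.1 * p.2 ≠ 0 → c p ≠ 0) :
    ∃ (i j : ℕ) (v : ℂ × ℂ → ℂ × ℂ), (∀ p ∈ U, AnalyticAt ℂ v p) ∧ (∀ p ∈ U, c p = (p.1 ^ i * p.2 ^ j) • v p) ∧
      ∀ p ∈ U, ∀ᶠ q in 𝓝 p, q ≠ p → v q ≠ 0 := by
  have hloc := fun p (hp : p ∈ U) => exists_sat_at (hc p hp) (by
    filter_upwards [hU.mem_nhds hp] with q hq h1
    exact hne q hq h1)
  choose! I J V hV hI hJ hcV hiso using hloc
  -- the exponent of the first axis
  have hIc : ∀ t ∈ {t : ℂ | ((0 : ℂ), t) ∈ U}, ∀ t' ∈ {t : ℂ | ((0 : ℂ), t) ∈ U}, I (0, t) = I (0, t') := by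
    refine const_of_loc (f := fun t => I (0, t)) hS fun t ht => ?_
    have hct : ContinuousAt (fun t' : ℂ => ((0 : ℂ), t')) t := by fun_prop
    have h1 := hct.eventually (eventually_eventually_nhds.2 (hcV _ ht))
    have h2 := hct.eventually (eventually_eventually_nhds.2 (hiso _ ht))
    have h3 := hct.eventually (hV _ ht).eventually_analyticAt
    filter_upwards [h1, h2, h3] with t' g1 g2 g3 ht'
    by_cases htt : t' = t
    · rw [htt]
    -- a point near `t'` where everything is nonzero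
    have hct' : ContinuousAt (fun t' : ℂ => ((0 : ℂ), t')) t' := by fun_prop
    have k1 := hct'.eventually (eventually_eventually_nhds.2 g1)
    have k2 := hct'.eventually g2
    have k3 := hct'.eventually g3.eventually_analyticAt
    have k4 := hct'.eventually (eventually_eventually_nhds.2 (hcV _ ht'))
    have k5 := hct'.eventually (hiso _ ht')
    have k6 := hct'.eventually (hV _ ht').eventually_analyticAt
    have k7 : ∀ᶠ t'' in 𝓝[≠] t', t'' ≠ 0 := by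
      by_cases hz : t' = 0
      · subst hz
        exact eventually_mem_nhdsWithin
      · have h2 : ∀ᶠ w in 𝓝 t', w ≠ 0 := isOpen_ne.mem_nhds hz
        exact h2.filter_mono nhdsWithin_le_nhds
    have k8 : ∀ᶠ t'' in 𝓝[≠] t', t'' ≠ t' := eventually_mem_nhdsWithin
    have k9 : ∀ᶠ t'' in 𝓝 t', t'' ≠ t := isOpen_ne.mem_nhds htt
    obtain ⟨t'', m1, m2, m3, m4, m5, m6, m7, m8, m9⟩ := ((k1.filter_mono nhdsWithin_le_nhds).and ((k2.filter_mono nhdsWithin_le_nhds).and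
      ((k3.filter_mono nhdsWithin_le_nhds).and ((k4.filter_mono nhdsWithin_le_nhds).and ((k5.filter_mono nhdsWithin_le_nhds).and
      ((k6.filter_mono nhdsWithin_le_nhds).and (k7.and (k8.and (k9.filter_mono nhdsWithin_le_nhds))))))))).exists
    have m2' : V (0, t) (0, t'') ≠ 0 := m2 fun h => m9 (congrArg Prod.snd h)
    have m5' : V (0, t') (0, t'') ≠ 0 := m5 fun h => m8 (congrArg Prod.snd h)
    have hxc : ContinuousAt (fun p : ℂ × ℂ => p.1) ((0 : ℂ), t'') := by fun_prop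
    have hac : ∀ j : ℕ, ContinuousAt (fun p : ℂ × ℂ => p.2 ^ j • V (0, t) p) ((0 : ℂ), t'') := fun j =>
      (by fun_prop : ContinuousAt (fun p : ℂ × ℂ => p.2 ^ j) ((0 : ℂ), t'')).smul m3.continuousAt
    have hbc : ∀ j : ℕ, ContinuousAt (fun p : ℂ × ℂ => p.2 ^ j • V (0, t') p) ((0 : ℂ), t'') := fun j =>
      (by fun_prop : ContinuousAt (fun p : ℂ × ℂ => p.2 ^ j) ((0 : ℂ), t'')).smul m6.continuousAt
    have ha0 : ((0 : ℂ), t'').2 ^ J (0, t) • V (0, t) (0, t'') ≠ 0 := smul_ne_zero (pow_ne_zero _ m7) m2'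
    have hb0 : ((0 : ℂ), t'').2 ^ J (0, t') • V (0, t') (0, t'') ≠ 0 := smul_ne_zero (pow_ne_zero _ m7) m5'
    have heq : ∀ᶠ p in 𝓝 ((0 : ℂ), t''), p.1 ^ I (0, t) • (p.2 ^ J (0, t) • V (0, t) p) = p.1 ^ I (0, t') • (p.2 ^ J (0, t') • V (0, t') p) := by
      filter_upwards [m1, m4] with p e1 e2
      rw [smul_smul, smul_smul, ← e1, ← e2]
    rcases le_total (I (0, t)) (I (0, t')) with hle | hle
    · exact (exp_unique hxc rfl (fun p hp => left_ne_zero_of_mul hp) (hac _) (hbc _) ha0 hle heq).symm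
    · exact exp_unique hxc rfl (fun p hp => left_ne_zero_of_mul hp) (hbc _) (hac _) hb0 hle (heq.mono fun p hp => hp.symm)
  -- the exponent of the second axis
  have hJc : ∀ s ∈ {s : ℂ | (s, (0 : ℂ)) ∈ U}, ∀ s' ∈ {s : ℂ | (s, (0 : ℂ)) ∈ U}, J (s, 0) = J (s', 0) := by
    refine const_of_loc (f := fun s => J (s, 0)) hS' fun t ht => ?_
    have hct : ContinuousAt (fun t' : ℂ => (t', (0 : ℂ))) t := by fun_prop
    have h1 := hct.eventually (eventually_eventually_nhds.2 (hcV _ ht))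
    have h2 := hct.eventually (eventually_eventually_nhds.2 (hiso _ ht))
    have h3 := hct.eventually (hV _ ht).eventually_analyticAt
    filter_upwards [h1, h2, h3] with t' g1 g2 g3 ht'
    by_cases htt : t' = t
    · rw [htt]
    have hct' : ContinuousAt (fun t' : ℂ => (t', (0 : ℂ))) t' := by fun_prop
    have k1 := hct'.eventually (eventually_eventually_nhds.2 g1)
    have k2 := hct'.eventually g2
    have k3 := hct'.eventually g3.eventually_analyticAt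
    have k4 := hct'.eventually (eventually_eventually_nhds.2 (hcV _ ht'))
    have k5 := hct'.eventually (hiso _ ht')
    have k6 := hct'.eventually (hV _ ht').eventually_analyticAt
    have k7 : ∀ᶠ t'' in 𝓝[≠] t', t'' ≠ 0 := by
      by_cases hz : t' = 0
      · subst hz
        exact eventually_mem_nhdsWithin
      · have h2 : ∀ᶠ w in 𝓝 t', w ≠ 0 := isOpen_ne.mem_nhds hz
        exact h2.filter_mono nhdsWithin_le_nhds
    have k8 : ∀ᶠ t'' in 𝓝[≠] t', t'' ≠ t' := eventually_mem_nhdsWithin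
    have k9 : ∀ᶠ t'' in 𝓝 t', t'' ≠ t := isOpen_ne.mem_nhds htt
    obtain ⟨t'', m1, m2, m3, m4, m5, m6, m7, m8, m9⟩ := ((k1.filter_mono nhdsWithin_le_nhds).and ((k2.filter_mono nhdsWithin_le_nhds).and
      ((k3.filter_mono nhdsWithin_le_nhds).and ((k4.filter_mono nhdsWithin_le_nhds).and ((k5.filter_mono nhdsWithin_le_nhds).and
      ((k6.filter_mono nhdsWithin_le_nhds).and (k7.and (k8.and (k9.filter_mono nhdsWithin_le_nhds))))))))).exists
    have m2' : V (t, 0) (t'', 0) ≠ 0 := m2 fun h => m9 (congrArg Prod.fst h)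
    have m5' : V (t', 0) (t'', 0) ≠ 0 := m5 fun h => m8 (congrArg Prod.fst h)
    have hxc : ContinuousAt (fun p : ℂ × ℂ => p.2) (t'', (0 : ℂ)) := by fun_prop
    have hac : ∀ j : ℕ, ContinuousAt (fun p : ℂ × ℂ => p.1 ^ j • V (t, 0) p) (t'', (0 : ℂ)) := fun j =>
      (by fun_prop : ContinuousAt (fun p : ℂ × ℂ => p.1 ^ j) (t'', (0 : ℂ))).smul m3.continuousAt
    have hbc : ∀ j : ℕ, ContinuousAt (fun p : ℂ × ℂ => p.1 ^ j • V (t', 0) p) (t'', (0 : ℂ)) := fun j =>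
      (by fun_prop : ContinuousAt (fun p : ℂ × ℂ => p.1 ^ j) (t'', (0 : ℂ))).smul m6.continuousAt
    have ha0 : (t'', (0 : ℂ)).1 ^ I (t, 0) • V (t, 0) (t'', 0) ≠ 0 := smul_ne_zero (pow_ne_zero _ m7) m2'
    have hb0 : (t'', (0 : ℂ)).1 ^ I (t', 0) • V (t', 0) (t'', 0) ≠ 0 := smul_ne_zero (pow_ne_zero _ m7) m5'
    have heq : ∀ᶠ p in 𝓝 (t'', (0 : ℂ)), p.2 ^ J (t, 0) • (p.1 ^ I (t, 0) • V (t, 0) p) = p.2 ^ J (t', 0) • (p.1 ^ I (t', 0) • V (t', 0) p) := by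
      filter_upwards [m1, m4] with p e1 e2
      rw [smul_smul, smul_smul, mul_comm (p.2 ^ J (t, 0)), mul_comm (p.2 ^ J (t', 0)), ← e1, ← e2]
    rcases le_total (J (t, 0)) (J (t', 0)) with hle | hle
    · exact (exp_unique hxc rfl (fun p hp => right_ne_zero_of_mul hp) (hac _) (hbc _) ha0 hle heq).symm
    · exact exp_unique hxc rfl (fun p hp => right_ne_zero_of_mul hp) (hbc _) (hac _) hb0 hle (heq.mono fun p hp => hp.symm)
  set i := I 0 with hi
  set j := J 0 with hj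
  have hI' : ∀ p ∈ U, p.1 = 0 → I p = i := by
    intro p hp h1
    have h2 : p = (0, p.2) := Prod.ext h1 rfl
    rw [h2] at hp ⊢
    exact hIc _ hp 0 h0
  have hJ' : ∀ p ∈ U, p.2 = 0 → J p = j := by
    intro p hp h1
    have h2 : p = (p.1, 0) := Prod.ext rfl h1
    rw [h2] at hp ⊢
    exact hJc _ hp 0 h0
  -- the local form of the quotient
  have hφ : ∀ p ∈ U, ∃ g : ℂ × ℂ → ℂ, AnalyticAt ℂ g p ∧ g p ≠ 0 ∧ ∀ᶠ q in 𝓝 p, q.1 * q.2 ≠ 0 → g q • V p q = (q.1 ^ i * q.2 ^ j)⁻¹ • c q := by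
    intro p hp
    have hg1 : ∃ g₁ : ℂ × ℂ → ℂ, AnalyticAt ℂ g₁ p ∧ g₁ p ≠ 0 ∧ ∀ q : ℂ × ℂ, q.1 * q.2 ≠ 0 → g₁ q = (q.1 ^ i)⁻¹ * q.1 ^ I p := by
      by_cases h1 : p.1 = 0
      · refine ⟨fun _ => 1, analyticAt_const, one_ne_zero, fun q hq => ?_⟩
        rw [hI' p hp h1, inv_mul_cancel₀ (pow_ne_zero _ (left_ne_zero_of_mul hq))]
      · refine ⟨fun q => (q.1 ^ i)⁻¹, (analyticAt_fst.pow i).inv (pow_ne_zero _ h1), inv_ne_zero (pow_ne_zero _ h1), fun q hq => ?_⟩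
        rw [hI p hp h1, pow_zero, mul_one]
    have hg2 : ∃ g₂ : ℂ × ℂ → ℂ, AnalyticAt ℂ g₂ p ∧ g₂ p ≠ 0 ∧ ∀ q : ℂ × ℂ, q.1 * q.2 ≠ 0 → g₂ q = (q.2 ^ j)⁻¹ * q.2 ^ J p := by
      by_cases h1 : p.2 = 0
      · refine ⟨fun _ => 1, analyticAt_const, one_ne_zero, fun q hq => ?_⟩
        rw [hJ' p hp h1, inv_mul_cancel₀ (pow_ne_zero _ (right_ne_zero_of_mul hq))]
      · refine ⟨fun q => (q.2 ^ j)⁻¹, (analyticAt_snd.pow j).inv (pow_ne_zero _ h1), inv_ne_zero (pow_ne_zero _ h1), fun q hq => ?_⟩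
        rw [hJ p hp h1, pow_zero, mul_one]
    obtain ⟨g₁, a1, a2, a3⟩ := hg1
    obtain ⟨g₂, b1, b2, b3⟩ := hg2
    refine ⟨fun q => g₁ q * g₂ q, a1.mul b1, mul_ne_zero a2 b2, ?_⟩
    filter_upwards [hcV p hp] with q hq h3
    show (g₁ q * g₂ q) • V p q = _
    rw [hq, smul_smul, a3 q h3, b3 q h3]
    congr 1
    rw [mul_inv]
    ring
  obtain ⟨v, hv1, hv2⟩ := glue (B := fun q => (q.1 ^ i * q.2 ^ j)⁻¹ • c q) hU (fun p hp => by
    obtain ⟨g, g1, -, g3⟩ := hφ p hp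
    exact ⟨fun q => g q • V p q, g1.smul (hV p hp), g3⟩)
  have hnear : ∀ p ∈ U, ∃ g : ℂ × ℂ → ℂ, AnalyticAt ℂ g p ∧ g p ≠ 0 ∧ ∀ᶠ q in 𝓝 p, v q = g q • V p q := by
    intro p hp
    obtain ⟨g, g1, g2, g3⟩ := hφ p hp
    refine ⟨g, g1, g2, eventuallyEq_of_off (hv1 p hp) (g1.smul (hV p hp)) ?_⟩
    filter_upwards [g3, hU.mem_nhds hp] with q hq hqU h1
    rw [hv2 q hqU h1]
    exact (hq h1).symm
  refine ⟨i, j, v, hv1, fun p hp => ?_, fun p hp => ?_⟩
  · refine eq_of_off (f := c) (g := fun p => (p.1 ^ i * p.2 ^ j) • v p) (hc p hp).continuousAt ?_ ?_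
    · exact (by fun_prop : ContinuousAt (fun p : ℂ × ℂ => p.1 ^ i * p.2 ^ j) p).smul (hv1 p hp).continuousAt
    · filter_upwards [hU.mem_nhds hp] with q hq h1
      rw [hv2 q hq h1, smul_smul, mul_inv_cancel₀ (mul_ne_zero (pow_ne_zero _ (left_ne_zero_of_mul h1)) (pow_ne_zero _ (right_ne_zero_of_mul h1))), one_smul]
  · obtain ⟨g, g1, g2, g3⟩ := hnear p hp
    filter_upwards [g3, g1.continuousAt.eventually_ne g2, hiso p hp] with q h1 h2 h3 h4
    rw [h1]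
    exact smul_ne_zero h2 (h3 h4)

end Pool.Agent.MQ3

end
end

section

/-!
# MQ3 Branch: the sheet of a web in a monomial chart

`Dm w w'` = the domain `|s ^ w.1 t ^ w'.1| < 1`, `|s ^ w.2 t ^ w'.2| < 1` of the monomial chart.  Bounded functions of the sheet `k` are analytic
functions on `Dm w w'`; the foliation of the sheet is given by a vector field on `Dm w w'` with isolated zeros.
-/

set_option autoImplicit false

open Topology Filter

noncomputable section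

namespace Pool.Agent.MQ3

variable {p : ℕ} {T : Fin p → ℂ × ℂ → ℂ} {a b : Equiv.Perm (Fin p)} {k : Fin p} {w w' : ℕ × ℕ}

/-- the domain of the monomial chart -/
def Dm (w w' : ℕ × ℕ) : Set (ℂ × ℂ) := {q | ‖q.1 ^ w.1 * q.2 ^ w'.1‖ < 1 ∧ ‖q.1 ^ w.2 * q.2 ^ w'.2‖ < 1}

/-- the linear map -/
def ln (w w' : ℕ × ℕ) (P : ℂ × ℂ) : ℂ × ℂ := (P.1 * w.1 + P.2 * w'.1, P.1 * w.2 + P.2 * w'.2)

theorem isOpen_Dm : IsOpen (Dm w w') := by
  have h1 : Continuous fun q : ℂ × ℂ => ‖q.1 ^ w.1 * q.2 ^ w'.1‖ := by fun_prop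
  have h2 : Continuous fun q : ℂ × ℂ => ‖q.1 ^ w.2 * q.2 ^ w'.2‖ := by fun_prop
  exact (isOpen_lt h1 continuous_const).inter (isOpen_lt h2 continuous_const)

theorem mono_mem_DS {q : ℂ × ℂ} (hq : q ∈ Dm w w') (h0 : q.1 * q.2 ≠ 0) : mono w w' q ∈ DS :=
  mem_DS.2 ⟨hq, mul_ne_zero (mul_ne_zero (pow_ne_zero _ (left_ne_zero_of_mul h0)) (pow_ne_zero _ (right_ne_zero_of_mul h0)))
    (mul_ne_zero (pow_ne_zero _ (left_ne_zero_of_mul h0)) (pow_ne_zero _ (right_ne_zero_of_mul h0)))⟩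

theorem pexp_ln (P : ℂ × ℂ) : pexp (ln w w' P) = mono w w' (pexp P) := by
  unfold pexp ln mono
  refine Prod.ext ?_ ?_ <;>
  · simp only
    rw [Complex.exp_add, mul_comm P.1, mul_comm P.2, Complex.exp_nat_mul, Complex.exp_nat_mul]

theorem mem_HH_iff (v : ℂ × ℂ) : v ∈ HH ↔ pexp v ∈ DD := by
  unfold HH DD pexp
  rw [Set.mem_ofPred_eq, Set.mem_ofPred_eq]
  simp only [Complex.norm_exp, Real.exp_lt_one_iff]

theorem ln_mem_iff (P : ℂ × ℂ) : ln w w' P ∈ HH ↔ pexp P ∈ Dm w w' := by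
  rw [mem_HH_iff, pexp_ln]
  rfl

theorem pexp_off (P : ℂ × ℂ) : (pexp P).1 * (pexp P).2 ≠ 0 := mul_ne_zero (Complex.exp_ne_zero _) (Complex.exp_ne_zero _)

theorem zero_mem_Dm (hd : dt w w' ≠ 0) : (0 : ℂ × ℂ) ∈ Dm w w' := by
  have h : ∀ m n : ℕ, (m ≠ 0 ∨ n ≠ 0) → ‖(0 : ℂ × ℂ).1 ^ m * (0 : ℂ × ℂ).2 ^ n‖ < 1 := by
    intro m n hmn
    rcases hmn with h | h
    · simp [zero_pow h]
    · simp [zero_pow h]
  unfold dt at hd
  refine ⟨h _ _ ?_, h _ _ ?_⟩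
  · by_contra hcon
    push Not at hcon
    rw [hcon.1, hcon.2] at hd
    simp at hd
  · by_contra hcon
    push Not at hcon
    rw [hcon.1, hcon.2] at hd
    simp at hd

theorem convex_pow (m n : ℕ) : Convex ℝ {t : ℂ | ‖(0 : ℂ) ^ m * t ^ n‖ < 1} := by
  by_cases hm : m = 0
  · subst hm
    by_cases hn : n = 0
    · subst hn
      simp [convex_empty]
    · have h : {t : ℂ | ‖(0 : ℂ) ^ 0 * t ^ n‖ < 1} = Metric.ball 0 1 := by
        ext t
        rw [Set.mem_ofPred_eq, pow_zero, one_mul, norm_pow, mem_ball_zero_iff]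
        exact pow_lt_one_iff_of_nonneg (norm_nonneg _) hn
      rw [h]
      exact convex_ball (0 : ℂ) 1
  · have h : {t : ℂ | ‖(0 : ℂ) ^ m * t ^ n‖ < 1} = Set.univ := by
      ext t
      simp [zero_pow hm]
    rw [h]
    exact convex_univ

theorem conn_Dm₁ : IsPreconnected {t : ℂ | ((0 : ℂ), t) ∈ Dm w w'} := ((convex_pow w.1 w'.1).inter (convex_pow w.2 w'.2)).isPreconnected

theorem conn_Dm₂ : IsPreconnected {s : ℂ | (s, (0 : ℂ)) ∈ Dm w w'} := by
  have h : {s : ℂ | (s, (0 : ℂ)) ∈ Dm w w'} = {s : ℂ | ‖(0 : ℂ) ^ w'.1 * s ^ w.1‖ < 1} ∩ {s : ℂ | ‖(0 : ℂ) ^ w'.2 * s ^ w.2‖ < 1} := by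
    ext s
    unfold Dm
    simp only [Set.mem_inter_iff, Set.mem_ofPred_eq]
    rw [mul_comm (s ^ w.1), mul_comm (s ^ w.2)]
  rw [h]
  exact ((convex_pow w'.1 w.1).inter (convex_pow w'.2 w.2)).isPreconnected

/-- shift of the linear map -/
theorem ln_per (P : ℂ × ℂ) (m n : ℤ) : ln w w' (P + per m n) = ln w w' P + per (m * w.1 + n * w'.1) (m * w.2 + n * w'.2) := by
  unfold ln per
  refine Prod.ext ?_ ?_ <;>
  · simp only [Prod.fst_add, Prod.snd_add]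
    push_cast
    ring

theorem per_zsmul {S : ℂ × ℂ → ℂ} {c : ℤ × ℤ} (h : ∀ v ∈ HH, S (v + per c.1 c.2) = S v) (m : ℤ) : ∀ v ∈ HH, S (v + per (m * c.1) (m * c.2)) = S v := by
  induction m with
  | zero =>
    intro v _
    rw [zero_mul, zero_mul, per_zero, add_zero]
  | succ n ih =>
    intro v hv
    have h1 : v + per (((n : ℤ) + 1) * c.1) (((n : ℤ) + 1) * c.2) = v + per (n * c.1) (n * c.2) + per c.1 c.2 := by
      rw [add_assoc, ← per_add]
      congr 2 <;> ring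
    rw [h1, h _ (HH_add_per hv _ _), ih v hv]
  | pred n ih =>
    intro v hv
    have h1 := h _ (HH_add_per hv ((-(n : ℤ) - 1) * c.1) ((-(n : ℤ) - 1) * c.2))
    have h2 : v + per ((-(n : ℤ) - 1) * c.1) ((-(n : ℤ) - 1) * c.2) + per c.1 c.2 = v + per (-(n : ℤ) * c.1) (-(n : ℤ) * c.2) := by
      rw [add_assoc, ← per_add]
      congr 2 <;> ring
    rw [h2, ih v hv] at h1
    exact h1.symm

/-- **Functions of the sheet in the chart.** -/
theorem exists_pull {S : ℂ × ℂ → ℂ} (hS : ∀ v ∈ HH, AnalyticAt ℂ S v) (h1 : ∀ v ∈ HH, S (v + per w.1 w.2) = S v)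
    (h2 : ∀ v ∈ HH, S (v + per w'.1 w'.2) = S v) {C : ℝ} (hC : ∀ v ∈ HH, ‖S v‖ ≤ C) :
    ∃ B : ℂ × ℂ → ℂ, (∀ q ∈ Dm w w', AnalyticAt ℂ B q) ∧ ∀ P, ln w w' P ∈ HH → B (pexp P) = S (ln w w' P) := by
  have hinv : ∀ P, ln w w' P ∈ HH → ∀ m n : ℤ, S (ln w w' (P + per m n)) = S (ln w w' P) := by
    intro P hP m n
    have h3 := per_zsmul (c := ((w.1 : ℤ), (w.2 : ℤ))) h1 m
    have h4 := per_zsmul (c := ((w'.1 : ℤ), (w'.2 : ℤ))) h2 n
    rw [ln_per, per_add, ← add_assoc, h4 _ (HH_add_per hP _ _), h3 _ hP]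
  set B0 : ℂ × ℂ → ℂ := fun q => S (ln w w' (Complex.log q.1, Complex.log q.2)) with hB0
  have hval : ∀ P, ln w w' P ∈ HH → B0 (pexp P) = S (ln w w' P) := by
    intro P hP
    obtain ⟨m, n, hmn⟩ := exists_per (v := P) (v' := (Complex.log (pexp P).1, Complex.log (pexp P).2))
      (Complex.exp_log (Complex.exp_ne_zero _)) (Complex.exp_log (Complex.exp_ne_zero _))
    show S (ln w w' (Complex.log (pexp P).1, Complex.log (pexp P).2)) = _
    rw [hmn, hinv P hP]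
  have hlog : ∀ q ∈ Dm w w', q.1 * q.2 ≠ 0 → pexp (Complex.log q.1, Complex.log q.2) = q := fun q _ h0 =>
    Prod.ext (Complex.exp_log (left_ne_zero_of_mul h0)) (Complex.exp_log (right_ne_zero_of_mul h0))
  obtain ⟨B, hB1, hB2⟩ := exists_ext (U := Dm w w') (B := B0) (C := C) isOpen_Dm (fun q₀ hq₀ h0 => by
    have h01 := left_ne_zero_of_mul h0
    have h02 := right_ne_zero_of_mul h0
    have hl1 : AnalyticAt ℂ (fun p : ℂ × ℂ => Complex.log (p.1 / q₀.1) + Complex.log q₀.1) q₀ := by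
      have hs : q₀.1 / q₀.1 ∈ Complex.slitPlane := by rw [div_self h01]; exact Complex.one_mem_slitPlane
      exact ((analyticAt_fst.div_const).clog hs).add analyticAt_const
    have hl2 : AnalyticAt ℂ (fun p : ℂ × ℂ => Complex.log (p.2 / q₀.2) + Complex.log q₀.2) q₀ := by
      have hs : q₀.2 / q₀.2 ∈ Complex.slitPlane := by rw [div_self h02]; exact Complex.one_mem_slitPlane
      exact ((analyticAt_snd.div_const).clog hs).add analyticAt_const
    have hl := hl1.prod hl2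
    have hln : AnalyticAt ℂ (fun p : ℂ × ℂ => ln w w' (Complex.log (p.1 / q₀.1) + Complex.log q₀.1, Complex.log (p.2 / q₀.2) + Complex.log q₀.2)) q₀ :=
      ((hl1.mul analyticAt_const).add (hl2.mul analyticAt_const)).prod ((hl1.mul analyticAt_const).add (hl2.mul analyticAt_const))
    have hexp : ∀ q : ℂ × ℂ, q.1 ≠ 0 → q.2 ≠ 0 → pexp (Complex.log (q.1 / q₀.1) + Complex.log q₀.1, Complex.log (q.2 / q₀.2) + Complex.log q₀.2) = q := by
      intro q g1 g2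
      refine Prod.ext ?_ ?_
      · show Complex.exp (Complex.log (q.1 / q₀.1) + Complex.log q₀.1) = q.1
        rw [Complex.exp_add, Complex.exp_log (div_ne_zero g1 h01), Complex.exp_log h01, div_mul_cancel₀ _ h01]
      · show Complex.exp (Complex.log (q.2 / q₀.2) + Complex.log q₀.2) = q.2
        rw [Complex.exp_add, Complex.exp_log (div_ne_zero g2 h02), Complex.exp_log h02, div_mul_cancel₀ _ h02]
    have hmem : ln w w' (Complex.log (q₀.1 / q₀.1) + Complex.log q₀.1, Complex.log (q₀.2 / q₀.2) + Complex.log q₀.2) ∈ HH := by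
      rw [ln_mem_iff, hexp q₀ h01 h02]
      exact hq₀
    have hcomp : AnalyticAt ℂ (fun p : ℂ × ℂ => S (ln w w' (Complex.log (p.1 / q₀.1) + Complex.log q₀.1, Complex.log (p.2 / q₀.2) + Complex.log q₀.2))) q₀ :=
      AnalyticAt.fun_comp (g := S)
        (f := fun p : ℂ × ℂ => ln w w' (Complex.log (p.1 / q₀.1) + Complex.log q₀.1, Complex.log (p.2 / q₀.2) + Complex.log q₀.2)) (hS _ hmem) hln
    refine hcomp.congr ?_
    filter_upwards [isOpen_Dm.mem_nhds hq₀, continuous_fst.continuousAt.eventually_ne h01, continuous_snd.continuousAt.eventually_ne h02] with q g1 g2 g3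
    have h3 := hval (Complex.log (q.1 / q₀.1) + Complex.log q₀.1, Complex.log (q.2 / q₀.2) + Complex.log q₀.2) (by
      rw [ln_mem_iff, hexp q g2 g3]
      exact g1)
    rw [hexp q g2 g3] at h3
    exact h3.symm) (fun q hq h0 => by
    have h3 := hval (Complex.log q.1, Complex.log q.2) (by rw [ln_mem_iff, hlog q hq h0]; exact hq)
    rw [hlog q hq h0] at h3
    rw [h3]
    exact hC _ (by rw [ln_mem_iff, hlog q hq h0]; exact hq))
  exact ⟨B, hB1, fun P hP => by rw [hB2 _ ((ln_mem_iff P).1 hP) (pexp_off P), hval P hP]⟩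

theorem Basis.per₁ (hB : Basis a b k w w') (h : WebBox p T a b) {v : ℂ × ℂ} (hv : v ∈ HH) : T k (v + per w.1 w.2) = T k v := by
  rw [h.mon k hv, hB.mem]

theorem Basis.per₂ (hB : Basis a b k w w') (h : WebBox p T a b) {v : ℂ × ℂ} (hv : v ∈ HH) : T k (v + per w'.1 w'.2) = T k v := by
  rw [h.mon k hv, hB.mem']

theorem pexp_per (v : ℂ × ℂ) (m n : ℤ) : pexp (v + per m n) = pexp v := Prod.ext (exp_per₁ v m n) (exp_per₂ v m n)

theorem analyticAt_pexp (v : ℂ × ℂ) : AnalyticAt ℂ pexp v := by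
  unfold pexp
  exact (analyticAt_fst.cexp).prod (analyticAt_snd.cexp)

theorem analyticAt_mono (q : ℂ × ℂ) : AnalyticAt ℂ (mono w w') q :=
  ((analyticAt_fst.pow _).mul (analyticAt_snd.pow _)).prod ((analyticAt_fst.pow _).mul (analyticAt_snd.pow _))

theorem fderiv_mono (q u : ℂ × ℂ) : fderiv ℂ (mono w w') q u =
    (w.1 * q.1 ^ (w.1 - 1) * q.2 ^ w'.1 * u.1 + w'.1 * q.1 ^ w.1 * q.2 ^ (w'.1 - 1) * u.2,
      w.2 * q.1 ^ (w.2 - 1) * q.2 ^ w'.2 * u.1 + w'.2 * q.1 ^ w.2 * q.2 ^ (w'.2 - 1) * u.2) :=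
  fderiv_mchart w.1 w'.1 w.2 w'.2 q u

/-- the Jacobian of the monomial chart -/
theorem jac_mono (q : ℂ × ℂ) : q.1 * q.2 * ((fderiv ℂ (mono w w') q (1, 0)).1 * (fderiv ℂ (mono w w') q (0, 1)).2 -
    (fderiv ℂ (mono w w') q (1, 0)).2 * (fderiv ℂ (mono w w') q (0, 1)).1) = dt w w' * (mono w w' q).1 * (mono w w' q).2 := by
  have hp : ∀ (n : ℕ) (z : ℂ), (n : ℂ) * z ^ (n - 1) * z = n * z ^ n := by
    intro n z
    rcases n with _ | n
    · simp
    · rw [Nat.add_sub_cancel, pow_succ]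
      ring
  rw [fderiv_mono, fderiv_mono, dt_cast]
  unfold mono
  simp only [mul_one, mul_zero, add_zero, zero_add]
  linear_combination (hp w.1 q.1) * (q.2 ^ w'.1) * (w'.2 * q.1 ^ w.2 * q.2 ^ (w'.2 - 1) * q.2)
    + (w.1 * q.1 ^ w.1 * q.2 ^ w'.1 * q.1 ^ w.2) * (hp w'.2 q.2)
    - (hp w.2 q.1) * (q.2 ^ w'.2) * (w'.1 * q.1 ^ w.1 * q.2 ^ (w'.1 - 1) * q.2)
    - (w.2 * q.1 ^ w.2 * q.2 ^ w'.2 * q.1 ^ w.1) * (hp w'.1 q.2)

theorem jac_mono_ne (hd : dt w w' ≠ 0) {q : ℂ × ℂ} (h0 : q.1 * q.2 ≠ 0) : (fderiv ℂ (mono w w') q (1, 0)).1 * (fderiv ℂ (mono w w') q (0, 1)).2 -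
    (fderiv ℂ (mono w w') q (1, 0)).2 * (fderiv ℂ (mono w w') q (0, 1)).1 ≠ 0 := by
  intro h
  have h1 := jac_mono (w := w) (w' := w') q
  rw [h, mul_zero] at h1
  have h2 : ((dt w w' : ℤ) : ℂ) ≠ 0 := by exact_mod_cast hd
  have h3 := left_ne_zero_of_mul h0
  have h4 := right_ne_zero_of_mul h0
  refine (mul_ne_zero (mul_ne_zero h2 ?_) ?_) h1.symm
  · exact mul_ne_zero (pow_ne_zero _ h3) (pow_ne_zero _ h4)
  · exact mul_ne_zero (pow_ne_zero _ h3) (pow_ne_zero _ h4)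

/-- **The foliation of a sheet in a monomial chart.** -/
theorem exists_field (h : WebBox p T a b) (hB : Basis a b k w w') {F : ℂ × ℂ → ℂ} {V₁ V₂ : ℂ × ℂ → ℂ × ℂ} (hF : ∀ x ∈ DD, AnalyticAt ℂ F x)
    (hV₁ : ∀ x ∈ DD, AnalyticAt ℂ V₁ x) (hV₂ : ∀ x ∈ DD, AnalyticAt ℂ V₂ x) (hF0 : ∀ x ∈ DS, F x ≠ 0)
    (hδ : ∀ x ∈ DS, (V₁ x).1 * (V₂ x).2 - (V₁ x).2 * (V₂ x).1 ≠ 0) {C : ℝ} (hC : ∀ v ∈ HH, ‖F (pexp v) * T k v‖ ≤ C) :
    ∃ (i j : ℕ) (X : ℂ × ℂ → ℂ × ℂ), (∀ q ∈ Dm w w', AnalyticAt ℂ X q) ∧ (∀ q ∈ Dm w w', ∀ᶠ q' in 𝓝 q, q' ≠ q → X q' ≠ 0) ∧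
      ∀ P, ln w w' P ∈ HH → ∀ u : ℂ × ℂ,
        F (pexp (ln w w' P)) * ((V₁ (pexp (ln w w' P)) + T k (ln w w' P) • V₂ (pexp (ln w w' P))).1 * (fderiv ℂ (mono w w') (pexp P) u).2 -
          (V₁ (pexp (ln w w' P)) + T k (ln w w' P) • V₂ (pexp (ln w w' P))).2 * (fderiv ℂ (mono w w') (pexp P) u).1) =
        (pexp P).1 ^ i * (pexp P).2 ^ j * ((X (pexp P)).1 * u.2 - (X (pexp P)).2 * u.1) := by
  obtain ⟨B, hB1, hB2⟩ := exists_pull (w := w) (w' := w') (S := fun v => F (pexp v) * T k v) (fun v hv =>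
    ((hF _ ((mem_HH_iff v).1 hv)).fun_comp (analyticAt_pexp v)).fun_mul (h.an k v hv)) (fun v hv => by rw [pexp_per, hB.per₁ h hv])
    (fun v hv => by rw [pexp_per, hB.per₂ h hv]) hC
  -- the direction field upstairs
  set D : ℂ × ℂ → ℂ × ℂ := fun q => F (mono w w' q) • V₁ (mono w w' q) + B q • V₂ (mono w w' q) with hD
  have hDa : ∀ q ∈ Dm w w', AnalyticAt ℂ D q := by
    intro q hq
    have h1 := analyticAt_mono (w := w) (w' := w') q
    exact (((hF _ hq).fun_comp h1).fun_smul ((hV₁ _ hq).fun_comp h1)).fun_add ((hB1 q hq).fun_smul ((hV₂ _ hq).fun_comp h1))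
  have hlift : ∀ q ∈ Dm w w', q.1 * q.2 ≠ 0 → ∃ P, pexp P = q ∧ ln w w' P ∈ HH := by
    intro q hq h0
    have h3 : pexp (Complex.log q.1, Complex.log q.2) = q := Prod.ext (Complex.exp_log (left_ne_zero_of_mul h0)) (Complex.exp_log (right_ne_zero_of_mul h0))
    exact ⟨_, h3, by rw [ln_mem_iff, h3]; exact hq⟩
  have hDP : ∀ P, ln w w' P ∈ HH → D (pexp P) = F (pexp (ln w w' P)) • (V₁ (pexp (ln w w' P)) + T k (ln w w' P) • V₂ (pexp (ln w w' P))) := by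
    intro P hP
    rw [hD]
    simp only
    rw [hB2 P hP, ← pexp_ln, smul_add, smul_smul]
  have hDne : ∀ q ∈ Dm w w', q.1 * q.2 ≠ 0 → (D q).1 ≠ 0 ∨ (D q).2 ≠ 0 := by
    intro q hq h0
    obtain ⟨P, rfl, hP⟩ := hlift q hq h0
    rw [hDP P hP]
    have hx : pexp (ln w w' P) ∈ DS := pexp_mem hP
    have h1 := hF0 _ hx
    have h2 := hδ _ hx
    by_contra hcon
    push Not at hcon
    simp only [Prod.smul_fst, Prod.smul_snd, Prod.fst_add, Prod.snd_add, smul_eq_mul] at hcon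
    have h3 := (mul_eq_zero.1 hcon.1).resolve_left h1
    have h4 := (mul_eq_zero.1 hcon.2).resolve_left h1
    apply h2
    linear_combination (V₂ (pexp (ln w w' P))).2 * h3 - (V₂ (pexp (ln w w' P))).1 * h4
  -- the pulled back form
  obtain ⟨i, j, v, hv1, hv2, hv3⟩ := exists_sat_global isOpen_Dm (zero_mem_Dm hB.det) conn_Dm₁ conn_Dm₂
    (c := fun q => (pb (fun q => (D q).1) (fun q => (D q).2) (mono w w') q (0, 1), -pb (fun q => (D q).1) (fun q => (D q).2) (mono w w') q (1, 0)))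
    (fun q hq => by
      have h1 := analyticAt_pb (A := fun q => (D q).1) (B := fun q => (D q).2) (φ := mono w w') (analyticAt_fst.fun_comp (hDa q hq))
        (analyticAt_snd.fun_comp (hDa q hq)) (analyticAt_mono q)
      exact (h1 (0, 1)).prod (h1 (1, 0)).fun_neg) (fun q hq h0 h1 => by
      rcases pb_ne (A := fun q => (D q).1) (B := fun q => (D q).2) (hDne q hq h0) (jac_mono_ne hB.det h0) with h2 | h2
      · exact h2 (neg_eq_zero.1 (congrArg Prod.snd h1))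
      · exact h2 (congrArg Prod.fst h1))
  refine ⟨i, j, v, hv1, hv3, fun P hP u => ?_⟩
  have hq := (ln_mem_iff P).1 hP
  have h1 := hv2 _ hq
  have h2 := congrArg Prod.fst h1
  have h3 := congrArg Prod.snd h1
  simp only [Prod.smul_fst, Prod.smul_snd, smul_eq_mul] at h2 h3
  have h4 := pb_add_smul (fun q => (D q).1) (fun q => (D q).2) (mono w w') (pexp P) u
  have h5 : pb (fun q => (D q).1) (fun q => (D q).2) (mono w w') (pexp P) u = F (pexp (ln w w' P)) *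
      ((V₁ (pexp (ln w w' P)) + T k (ln w w' P) • V₂ (pexp (ln w w' P))).1 * (fderiv ℂ (mono w w') (pexp P) u).2 -
          (V₁ (pexp (ln w w' P)) + T k (ln w w' P) • V₂ (pexp (ln w w' P))).2 * (fderiv ℂ (mono w w') (pexp P) u).1) := by
    unfold pb
    simp only [hDP P hP, Prod.smul_fst, Prod.smul_snd, smul_eq_mul]
    ring
  rw [← h5, h4, h2]
  linear_combination (-u.1) * h3

end Pool.Agent.MQ3

end
end
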