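import Pool.Agent.H43.TL2.M07
import Pool.Agent.H43.TL2.M10

/-! The parts of this file: H36.BP.OrdDefs, SDA.Defs, SY.Defs, SDA.Defs_1. -/

section

/-!
# BP OrdDefs: entire curves of order at most two

The characteristic function of an entire curve `f` in `ℙ(V)` is `T_f(r) = inf (-log |F 0|)` over the holomorphic lifts `F` of `f` to the disc of radius `r` (zeros allowed) with
`|F| ≤ 1`.  `OrdTwo f`: `T_f(r) ≤ C (1 + r²)` for all `r > 0`.
-/

set_option autoImplicit false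

namespace Pool.Agent.H36.BP

open Metric

/-- `f` is an entire curve in `ℙ(V)` of order at most two and of finite type: `T_f(r) ≤ C₀ (1 + r²)` -/
def OrdTwo {V : Type} [NormedAddCommGroup V] [NormedSpace ℂ V] (f : ℂ → V) : Prop :=
  ∃ C₀ : ℝ, ∀ r : ℝ, 0 < r → ∃ F : ℂ → V, DifferentiableOn ℂ F (ball 0 r) ∧ (∀ z ∈ ball (0 : ℂ) r, ‖F z‖ ≤ 1) ∧
    Real.exp (-(C₀ * (1 + r ^ 2))) ≤ ‖F 0‖ ∧ ∀ z ∈ ball (0 : ℂ) r, F z = 0 ∨ ∃ c : ℂ, c ≠ 0 ∧ f z = c • F z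

/-- every entire curve of order at most two in `K` which is not constant as a map into projective space lies in `B` -/
def BrodyMod2 {N : ℕ} (K B : Set (EN N)) : Prop :=
  ∀ F : ℂ → EN N, Differentiable ℂ F → (∀ z, F z ∈ K) → (∃ z w, ∀ c : ℂ, F z ≠ c • F w) → OrdTwo F → ∀ z, F z ∈ B

theorem OrdTwo.congr {V : Type} [NormedAddCommGroup V] [NormedSpace ℂ V] {f g : ℂ → V} (h : OrdTwo f) (hfg : ∀ z, ∃ c : ℂ, c ≠ 0 ∧ g z = c • f z) :
    OrdTwo g := by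
  obtain ⟨C₀, h⟩ := h
  refine ⟨C₀, fun r hr => ?_⟩
  obtain ⟨F, h1, h2, h3, h4⟩ := h r hr
  refine ⟨F, h1, h2, h3, fun z hz => ?_⟩
  rcases h4 z hz with h5 | ⟨c, hc, h5⟩
  · exact Or.inl h5
  · obtain ⟨c', hc', h6⟩ := hfg z
    exact Or.inr ⟨c' * c, mul_ne_zero hc' hc, by rw [h6, h5, smul_smul]⟩

/-- the image under a linear map which does not decrease the norm of the normalised lifts at `0` too much -/
theorem OrdTwo.map {V W : Type} [NormedAddCommGroup V] [NormedSpace ℂ V] [NormedAddCommGroup W] [NormedSpace ℂ W] (L : V →L[ℂ] W) {f : ℂ → V} (h : OrdTwo f)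
    {c : ℝ} (hc : 0 < c) (hL : ∀ x, c * ‖x‖ ≤ ‖L x‖) : OrdTwo fun z => L (f z) := by
  obtain ⟨C₀, h⟩ := h
  set M : ℝ := max ‖L‖ 1 with hM
  have hM1 : 1 ≤ M := le_max_right _ _
  have hM0 : 0 < M := lt_of_lt_of_le one_pos hM1
  refine ⟨max C₀ 0 + |Real.log (c / M)|, fun r hr => ?_⟩
  obtain ⟨F, h1, h2, h3, h4⟩ := h r hr
  have hMc : (M : ℂ) ≠ 0 := by exact_mod_cast hM0.ne'
  refine ⟨fun z => (M : ℂ)⁻¹ • L (F z), ?_, ?_, ?_, ?_⟩
  · exact (L.differentiable.comp_differentiableOn h1).const_smul _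
  · intro z hz
    rw [norm_smul, norm_inv, Complex.norm_real, Real.norm_of_nonneg hM0.le, inv_mul_le_iff₀ hM0, mul_one]
    calc ‖L (F z)‖ ≤ ‖L‖ * ‖F z‖ := L.le_opNorm _
      _ ≤ M * 1 := mul_le_mul (le_max_left _ _) (h2 z hz) (norm_nonneg _) hM0.le
      _ = M := mul_one _
  · rw [norm_smul, norm_inv, Complex.norm_real, Real.norm_of_nonneg hM0.le]
    have hcM : 0 < c / M := div_pos hc hM0
    have h5 : Real.exp (-((max C₀ 0 + |Real.log (c / M)|) * (1 + r ^ 2))) ≤ (c / M) * Real.exp (-(C₀ * (1 + r ^ 2))) := by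
      conv_rhs => rw [← Real.exp_log hcM, ← Real.exp_add]
      apply Real.exp_le_exp.mpr
      have h6 : C₀ * (1 + r ^ 2) ≤ max C₀ 0 * (1 + r ^ 2) := mul_le_mul_of_nonneg_right (le_max_left _ _) (by positivity)
      have h7 : |Real.log (c / M)| * 1 ≤ |Real.log (c / M)| * (1 + r ^ 2) := mul_le_mul_of_nonneg_left (by nlinarith [sq_nonneg r]) (abs_nonneg _)
      have h8 := neg_abs_le (Real.log (c / M))
      nlinarith
    refine h5.trans ?_
    calc c / M * Real.exp (-(C₀ * (1 + r ^ 2))) ≤ c / M * ‖F 0‖ := mul_le_mul_of_nonneg_left h3 hcM.le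
      _ = M⁻¹ * (c * ‖F 0‖) := by rw [div_eq_inv_mul]; ring
      _ ≤ M⁻¹ * ‖L (F 0)‖ := mul_le_mul_of_nonneg_left (hL _) (inv_nonneg.mpr hM0.le)
  · intro z hz
    rcases h4 z hz with h5 | ⟨k, hk, h5⟩
    · left
      simp only
      rw [h5, map_zero, smul_zero]
    · right
      refine ⟨k * M, mul_ne_zero hk hMc, ?_⟩
      simp only
      rw [h5, map_smul, smul_smul, mul_assoc, mul_inv_cancel₀ hMc, mul_one]

/-- linear isomorphisms preserve the order -/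
theorem OrdTwo.equiv {V W : Type} [NormedAddCommGroup V] [NormedSpace ℂ V] [NormedAddCommGroup W] [NormedSpace ℂ W] (L : V ≃L[ℂ] W) {f : ℂ → V} (h : OrdTwo f) :
    OrdTwo fun z => L (f z) := by
  set M : ℝ := max ‖(L.symm : W →L[ℂ] V)‖ 1 with hM
  have hM0 : 0 < M := lt_of_lt_of_le one_pos (le_max_right _ _)
  refine h.map (L : V →L[ℂ] W) (c := M⁻¹) (inv_pos.mpr hM0) fun x => ?_
  rw [inv_mul_le_iff₀ hM0]
  have h1 := (L.symm : W →L[ℂ] V).le_opNorm (L x)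
  have h2 : (L.symm : W →L[ℂ] V) (L x) = x := L.symm_apply_apply x
  rw [h2] at h1
  exact h1.trans (mul_le_mul_of_nonneg_right (le_max_left _ _) (norm_nonneg _))

end Pool.Agent.H36.BP

end

section

/-!
# SDA Defs: affine log surfaces

`X` is the cone of a smooth closed surface, `K` the cone of an open part of it, `T` the cone of a curve, `T ⊇ X ∖ K`.
-/

set_option autoImplicit false

open Topology Filter Metric

noncomputable section

namespace Pool.Agent.SDA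

open Pool.Agent.H36.BP (EN fs wd Sub)
open Pool.Agent.H17BP (Surface IsForm NoZeros IsChart)
open Pool.Agent.H14.PP (IsCone Tan)

/-! ## the metric -/

/-! ## affine surfaces -/

variable {N : ℕ} {ι : Type} [Fintype ι]

/-- The logarithmic length of `v` at `x`, for the functions `P i`, homogeneous of degree `d i`. -/
def Lg (P : ι → EN N → ℂ) (d : ι → ℕ) (x v : EN N) : ℝ :=
  fs x v + ∑ i, ‖fderiv ℂ (P i) x v / P i x - (d i : ℂ) * (inner ℂ x v / (‖x‖ : ℂ) ^ 2)‖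

/-- `K` is the part of the cone `X` where the functions `P i` do not vanish. -/
structure AffOpen (X K : Set (EN N)) (P : ι → EN N → ℂ) (d : ι → ℕ) : Prop where
  an : ∀ i x, AnalyticAt ℂ (P i) x
  smul : ∀ i (c : ℂ) (x : EN N), P i (c • x) = c ^ d i * P i x
  pos : ∀ i, 1 ≤ d i
  ne : Nonempty ι
  mem : ∀ x, x ∈ K ↔ x ∈ X ∧ ∀ i, P i x ≠ 0

/-- The lift `F` is normalised. -/
def Nm (P : ι → EN N → ℂ) (F : ℂ → EN N) : Prop := ∀ z, ∏ i, P i (F z) = 1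

/-- A pseudo-length `n` on `K` which is bounded by the Fubini-Study length up to a small multiple of the logarithmic length. -/
structure Gauge (X K : Set (EN N)) (P : ι → EN N → ℂ) (d : ι → ℕ) (n : EN N → EN N → ℝ) : Prop where
  nonneg : ∀ x ∈ K, ∀ v, Tan X x v → 0 ≤ n x v
  cont : ContinuousOn (fun p : EN N × EN N => n p.1 p.2) {p | p.1 ∈ K ∧ Tan X p.1 p.2}
  inv : ∀ x ∈ K, ∀ v, Tan X x v → ∀ c a : ℂ, c ≠ 0 → n (c • x) (c • v + a • x) = n x v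
  hom : ∀ x ∈ K, ∀ v, Tan X x v → ∀ c : ℂ, n x (c • v) = ‖c‖ * n x v
  growth : ∀ ε : ℝ, 0 < ε → ∃ C : ℝ, 0 ≤ C ∧ ∀ x ∈ K, ∀ v, Tan X x v → n x v ≤ ε * Lg P d x v + C * fs x v

/-- `μ` tends to infinity, grows at most like a polynomial, and is almost constant on the discs of radius `R / μ`. -/
def Tame (μ : ℂ → ℝ) : Prop :=
  Tendsto μ (cocompact ℂ) atTop ∧ (∃ (C : ℝ) (k : ℕ), ∀ z, μ z ≤ C * (1 + ‖z‖) ^ k) ∧
    ∀ R ε : ℝ, 0 < ε → ∀ᶠ z in cocompact ℂ, ∀ w : ℂ, ‖w‖ ≤ R → |μ (z + w / (μ z : ℂ)) / μ z - 1| ≤ ε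

/-- `log` of the inverse distance to `P i = 0` -/
def lam (P : ι → EN N → ℂ) (d : ι → ℕ) (i : ι) (x : EN N) : ℝ := d i * Real.log ‖x‖ - Real.log ‖P i x‖

/-- the derivative of `lam i` along a curve; `Lg` is `fs` plus the sum of the absolute values of these -/
def ell (P : ι → EN N → ℂ) (d : ι → ℕ) (i : ι) (x v : EN N) : ℂ :=
  fderiv ℂ (P i) x v / P i x - (d i : ℂ) * (inner ℂ x v / (‖x‖ : ℂ) ^ 2)

/-- the pseudo-length of a family of forms -/
def nForms {J : Type} [Fintype J] (m : J → ℕ) (w : J → EN N → EN N → ℂ) (x v : EN N) : ℝ := ∑ j, ‖w j x v‖ ^ ((m j : ℝ)⁻¹)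

end Pool.Agent.SDA

end
end

section

/-!
# SY Defs: the metric along entire curves

`X` is the cone of a closed surface, `T` the cone of a curve in it.  `Ent X T F`: `F` is an entire curve in `X`, not contained in `T`.
`g F z` is the length of the derivative of `F` at `z` in a metric which lives on a blow-up of the surface (so it is not a function of a tangent
vector of `X`).  `nu` is a Euclidean norm on `V`, `rho` measures the distance to `T`.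
-/

set_option autoImplicit false

open Topology Filter Metric

namespace Pool.Agent.SY

open Pool.Agent.H36.BP (EN fs wd Sub)
open Pool.Agent.H17BP (Pr)
open Pool.Agent.H14.PP (IsCone)

/-- entire curves in the cone `X`, not contained in `T` -/
structure Ent {V : Type} [NormedAddCommGroup V] [NormedSpace ℂ V] (X T : Set V) (F : ℂ → V) : Prop where
  diff : Differentiable ℂ F
  mem : ∀ z, F z ∈ X
  out : ∃ z, F z ∉ T

/-- a metric along entire curves -/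
structure Energy {V : Type} [NormedAddCommGroup V] [NormedSpace ℂ V] (X T : Set V) (nu rho : V → ℝ) (M : ℕ) (c₀ C : ℝ)
    (g : (ℂ → V) → ℂ → ℝ) : Prop where
  c₀_pos : 0 < c₀
  C_pos : 0 < C
  nonneg : ∀ F, Ent X T F → ∀ z, 0 ≤ g F z
  usc : ∀ F, Ent X T F → ∀ z a, g F z < a → ∀ᶠ w in 𝓝 z, g F w < a
  aff : ∀ F, Ent X T F → ∀ a b : ℂ, a ≠ 0 → ∀ z, g (fun w => F (a * w + b)) z = ‖a‖ * g F (a * z + b)
  unit : ∀ F, Ent X T F → ∀ h : ℂ → ℂ, Differentiable ℂ h → (∀ z, h z ≠ 0) → ∀ z, g (fun w => h w • F w) z = g F z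
  sub : ∀ F, Ent X T F → ∀ z, 0 < g F z → Sub (fun w => g F w * nu (F w) ^ (-c₀)) z (-(C * g F z ^ 2))
  lower : ∀ F, Ent X T F → ∀ z, ∃ a : ℂ, rho (F z) ^ M * ‖deriv F z - a • F z‖ ≤ C * ‖F z‖ * g F z
  lim : ∀ (l : Filter ℕ), l.NeBot → ∀ (r A ε : ℝ), 0 < r → 0 < ε → ∀ (F : ℕ → ℂ → V) (H : ℂ → V), (∀ᶠ n in l, Ent X T (F n)) →
    (∀ᶠ n in l, ∀ z ∈ ball (0 : ℂ) r, g (F n) z ≤ A) → (∀ᶠ n in l, ε ≤ g (F n) 0) →
    (∃ h : ℕ → ℂ → ℂ, (∀ᶠ n in l, DifferentiableOn ℂ (h n) (ball 0 r) ∧ ∀ z ∈ ball (0 : ℂ) r, h n z ≠ 0) ∧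
      TendstoLocallyUniformlyOn (fun n z => h n z • F n z) H l (ball 0 r)) →
    (∀ z ∈ ball (0 : ℂ) r, H z ∈ X) → (∃ z ∈ ball (0 : ℂ) r, H z ∉ T) ∧ ∃ z ∈ ball (0 : ℂ) r, ∃ w ∈ ball (0 : ℂ) r, ¬ Pr (H z) (H w)

end Pool.Agent.SY

end

section

/-!
# SDA Defs: affine log surfaces

`X` is the cone of a smooth closed surface, `K` the cone of an open part of it, `T` the cone of a curve, `T ⊇ X ∖ K`.
-/

set_option autoImplicit false

open Topology Filter Metric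

noncomputable section

namespace Pool.Agent.SDA

open Pool.Agent.H36.BP (EN fs wd Sub OrdTwo)
open Pool.Agent.H17BP (Pr Surface IsForm NoZeros IsChart)
open Pool.Agent.H14.PP (IsCone Tan)
open Pool.Agent.SY (Ent Energy)

/-! ## the metric -/

/-- The metric has no curvature error where `rho < δ`. -/
def Near {V : Type} [NormedAddCommGroup V] [NormedSpace ℂ V] (K T : Set V) (nu rho : V → ℝ) (c₀ : ℝ) (g : (ℂ → V) → ℂ → ℝ) (δ : ℝ) : Prop :=
  ∀ F, Ent K T F → ∀ z, rho (F z) < δ → 0 < g F z → Sub (fun w => g F w * nu (F w) ^ (-c₀)) z 0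

/-- A metric along the entire curves in the open part `K` of the closed cone `X`. -/
structure EnergyK {V : Type} [NormedAddCommGroup V] [NormedSpace ℂ V] (X K T : Set V) (nu rho : V → ℝ) (M : ℕ) (c₀ C : ℝ)
    (g : (ℂ → V) → ℂ → ℝ) : Prop extends Energy K T nu rho M c₀ C g where
  near : ∃ δ : ℝ, 0 < δ ∧ Near K T nu rho c₀ g δ
  bdy : ∀ (l : Filter ℕ), l.NeBot → ∀ (r A ε : ℝ), 0 < r → 0 < ε → ∀ (F : ℕ → ℂ → V) (H : ℂ → V), (∀ᶠ n in l, Ent K T (F n)) →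
    (∀ᶠ n in l, ∀ z ∈ ball (0 : ℂ) r, g (F n) z ≤ A) → (∀ᶠ n in l, ε ≤ g (F n) 0) →
    (∃ h : ℕ → ℂ → ℂ, (∀ᶠ n in l, DifferentiableOn ℂ (h n) (ball 0 r) ∧ ∀ z ∈ ball (0 : ℂ) r, h n z ≠ 0) ∧
      TendstoLocallyUniformlyOn (fun n z => h n z • F n z) H l (ball 0 r)) →
    (∀ z ∈ ball (0 : ℂ) r, H z ∈ X) → H 0 ∈ K

/-! ## affine surfaces -/

variable {N : ℕ} {ι : Type} [Fintype ι]

/-- The hypotheses of the function theory. -/
structure Setup (X K T : Set (EN N)) (P : ι → EN N → ℂ) (d : ι → ℕ) (rho : EN N → ℝ) (M : ℕ) (c₀ C : ℝ) (g : (ℂ → EN N) → ℂ → ℝ)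
    (n : EN N → EN N → ℝ) : Prop where
  cone : IsCone X
  aff : AffOpen X K P d
  gauge : Gauge X K P d n
  en : EnergyK X K T (fun x => ‖x‖) rho M c₀ C g
  TX : T ⊆ X
  Ts : ∀ x ∈ T, ∀ c : ℂ, c ≠ 0 → c • x ∈ T
  KT : ∀ x ∈ X, x ∉ K → x ∈ T
  rho0 : ∀ x ∈ X, 0 ≤ rho x
  rhoT : ∀ x ∈ X, (rho x = 0 ↔ x ∈ T)
  rhoc : ContinuousOn rho X
  rhos : ∀ x ∈ X, ∀ c : ℂ, c ≠ 0 → rho (c • x) = rho x
  Ti : ∀ F : ℂ → EN N, Differentiable ℂ F → (∀ z, F z ∈ X) → (∃ z, F z ∉ T) → ∀ z₀, ∀ᶠ z in 𝓝[≠] z₀, F z ∉ T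
  null : ∀ F : ℂ → EN N, Differentiable ℂ F → (∀ z, F z ∈ K) → OrdTwo F → (∀ z, n (F z) (deriv F z) = 0) →
    (∀ z, F z ∈ T) ∨ ∀ z w, ∃ c : ℂ, F z = c • F w

/-- The class: the normalised entire curves in `K`, not contained in `T`, of constant length one. -/
def Cl (K T : Set (EN N)) (P : ι → EN N → ℂ) (n : EN N → EN N → ℝ) (F : ℂ → EN N) : Prop :=
  Ent K T F ∧ Nm P F ∧ ∀ z, n (F z) (deriv F z) = 1

end Pool.Agent.SDA

end
end
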