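import Mathlib

/-! The parts of this file: H22.HF.Fac, H62.BU.Inv, H62.FC.Place, H68.KR.HZ, H7.Gtu.Res, MQ2.BB0, TN.Osg. -/

section

/-!
# HF Fac: the zeros of a holomorphic function in a disc and power sums

`exists_fac`: `φ` analytic on a neighbourhood of the closed disc, without zeros on the circle: `φ t = ∏ (t - r i) * w t`, `w` analytic without zeros on the closed disc.  (Finitely many zeros in
the compact disc, finite orders, induction on the sum of the orders `∑ analyticOrderAt`; or `MeromorphicOn.extract_zeros_poles` / `AnalyticOnNhd` divisors in Mathlib.)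

`power_sum`: for `H` analytic on a neighbourhood of the closed disc `∮ H φ' / φ = 2 π i ∑ H (r i)`: `φ' / φ = ∑ 1 / (t - r i) + w' / w` on the circle, Cauchy's formula and Cauchy's theorem.

`esymm_newton`: the product of `ν` numbers is a polynomial in their power sums, with rational coefficients which do not depend on the numbers (`MvPolynomial.mul_esymm_eq_sum`, strong induction).
-/

set_option autoImplicit false

open Metric Set Filter Topology

namespace Pool.Agent.H22.HF

private lemma divide_zero {φ : ℂ → ℂ} {ρ : ℝ} (hφ : ∀ t ∈ closedBall (0 : ℂ) ρ, AnalyticAt ℂ φ t)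
    {z : ℂ} (hz : AnalyticAt ℂ φ z) (hord : analyticOrderAt φ z ≠ ⊤) :
    ∃ (m : ℕ) (φ1 : ℂ → ℂ), (∀ t ∈ closedBall (0 : ℂ) ρ, AnalyticAt ℂ φ1 t) ∧ φ1 z ≠ 0 ∧
      (∀ t, φ t = (t - z) ^ m * φ1 t) := by
  obtain ⟨m, hm⟩ := ENat.ne_top_iff_exists.1 hord
  obtain ⟨g, hg, hg0, hgφ⟩ := (hz.analyticOrderAt_eq_natCast).1 hm.symm
  classical
  refine ⟨m, fun t => if t = z then g z else φ t / (t - z) ^ m, ?_, ?_, ?_⟩
  · intro t ht
    by_cases htz : t = z
    · subst htz
      refine hg.congr ?_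
      filter_upwards [hgφ] with s hs
      by_cases hst : s = t
      · simp [hst]
      · have : (s - t) ^ m ≠ 0 := pow_ne_zero _ (sub_ne_zero.2 hst)
        rw [if_neg hst, hs, smul_eq_mul]
        field_simp
    · have h1 : AnalyticAt ℂ (fun s => φ s / (s - z) ^ m) t := by
        refine (hφ t ht).div ?_ ?_
        · exact (analyticAt_id.sub analyticAt_const).pow m
        · exact pow_ne_zero _ (sub_ne_zero.2 htz)
      refine h1.congr ?_
      filter_upwards [isOpen_ne.mem_nhds htz] with s hs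
      rw [if_neg hs]
  · simpa using hg0
  · intro t
    by_cases htz : t = z
    · subst htz
      have := hgφ.self_of_nhds
      simpa [smul_eq_mul] using this
    · have : (t - z) ^ m ≠ 0 := pow_ne_zero _ (sub_ne_zero.2 htz)
      simp only [if_neg htz]
      field_simp

private lemma fac_finset {ρ : ℝ} (Z : Finset ℂ) : ∀ (φ : ℂ → ℂ)
    (_ : ∀ t ∈ closedBall (0 : ℂ) ρ, AnalyticAt ℂ φ t)
    (_ : ∀ t ∈ closedBall (0 : ℂ) ρ, analyticOrderAt φ t ≠ ⊤)
    (_ : ∀ t ∈ closedBall (0 : ℂ) ρ, φ t = 0 → t ∈ Z) (_ : ∀ z ∈ Z, ‖z‖ < ρ),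
    ∃ (ν : ℕ) (r : Fin ν → ℂ) (w : ℂ → ℂ), (∀ i, ‖r i‖ < ρ) ∧
      (∀ t ∈ closedBall (0 : ℂ) ρ, AnalyticAt ℂ w t ∧ w t ≠ 0) ∧
      ∀ t, φ t = (∏ i, (t - r i)) * w t := by
  classical
  induction Z using Finset.induction_on with
  | empty =>
    intro φ hφ _ h0 _
    refine ⟨0, Fin.elim0, φ, fun i => i.elim0, fun t ht => ⟨hφ t ht, fun h => ?_⟩, fun t => by simp⟩
    simpa using h0 t ht h
  | insert z Z hzZ ih =>
    intro φ hφ hord h0 hZ
    have hzρ : ‖z‖ < ρ := hZ z (Finset.mem_insert_self _ _)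
    have hzb : z ∈ closedBall (0 : ℂ) ρ := by
      rw [mem_closedBall, dist_zero_right]; exact hzρ.le
    obtain ⟨m, φ1, h1, h2, h3⟩ := divide_zero hφ (hφ z hzb) (hord z hzb)
    obtain ⟨ν, r, w, hr, hw, hfac⟩ := ih φ1 h1 (by
      intro t ht htop
      apply hord t ht
      rw [analyticOrderAt_eq_top] at htop ⊢
      filter_upwards [htop] with s hs
      rw [h3 s, hs, mul_zero]) (by
      intro t ht h
      have : φ t = 0 := by rw [h3 t, h, mul_zero]
      rcases Finset.mem_insert.1 (h0 t ht this) with h' | h'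
      · subst h'; exact absurd h h2
      · exact h') (fun y hy => hZ y (Finset.mem_insert_of_mem hy))
    refine ⟨m + ν, Fin.append (fun _ : Fin m => z) r, w, ?_, hw, ?_⟩
    · intro i
      refine Fin.addCases (fun i => ?_) (fun i => ?_) i
      · rw [Fin.append_left]; exact hzρ
      · rw [Fin.append_right]; exact hr i
    · intro t
      rw [Fin.prod_univ_add]
      simp only [Fin.append_left, Fin.append_right, Finset.prod_const, Finset.card_univ, Fintype.card_fin]
      rw [h3 t, hfac t, mul_assoc]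

theorem exists_fac {φ : ℂ → ℂ} {ρ : ℝ} (hρ : 0 < ρ) (hφ : ∀ t ∈ closedBall (0 : ℂ) ρ, AnalyticAt ℂ φ t) (h0 : ∀ t ∈ sphere (0 : ℂ) ρ, φ t ≠ 0) :
    ∃ (ν : ℕ) (r : Fin ν → ℂ) (w : ℂ → ℂ), (∀ i, ‖r i‖ < ρ) ∧ (∀ t ∈ closedBall (0 : ℂ) ρ, AnalyticAt ℂ w t ∧ w t ≠ 0) ∧
      ∀ t ∈ closedBall (0 : ℂ) ρ, φ =ᶠ[𝓝 t] fun t => (∏ i, (t - r i)) * w t := by
  classical
  have hρs : ((ρ : ℝ) : ℂ) ∈ sphere (0 : ℂ) ρ := by
    rw [mem_sphere, dist_zero_right, Complex.norm_real, Real.norm_of_nonneg hρ.le]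
  have hnotloc : ∀ t ∈ closedBall (0 : ℂ) ρ, ¬ (∀ᶠ s in 𝓝 t, φ s = 0) := by
    intro t ht hev
    have hpre : IsPreconnected (closedBall (0 : ℂ) ρ) := (convex_closedBall 0 ρ).isPreconnected
    have hA : AnalyticOnNhd ℂ φ (closedBall (0 : ℂ) ρ) := fun s hs => hφ s hs
    have := hA.eqOn_zero_of_preconnected_of_eventuallyEq_zero hpre ht hev
    exact h0 _ hρs (this (sphere_subset_closedBall hρs))
  have hord : ∀ t ∈ closedBall (0 : ℂ) ρ, analyticOrderAt φ t ≠ ⊤ := by
    intro t ht htop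
    rw [analyticOrderAt_eq_top] at htop
    exact hnotloc t ht htop
  -- finitely many zeros
  have hfin : ∃ Z : Finset ℂ, ∀ t ∈ closedBall (0 : ℂ) ρ, φ t = 0 → t ∈ Z := by
    have hU : ∀ t ∈ closedBall (0 : ℂ) ρ, {s : ℂ | φ s ≠ 0 ∨ s = t} ∈ 𝓝 t := by
      intro t ht
      rcases (hφ t ht).eventually_eq_zero_or_eventually_ne_zero with h | h
      · exact absurd h (hnotloc t ht)
      · rw [eventually_nhdsWithin_iff] at h
        filter_upwards [h] with s hs
        by_cases hst : s = t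
        · right; exact hst
        · left; exact hs hst
    obtain ⟨F, hF1, hF2⟩ := (isCompact_closedBall (0 : ℂ) ρ).elim_nhds_subcover (fun t => {s : ℂ | φ s ≠ 0 ∨ s = t}) hU
    refine ⟨F, fun t ht h => ?_⟩
    obtain ⟨x, hx, hx2⟩ := mem_iUnion₂.1 (hF2 ht)
    rcases hx2 with h' | h'
    · exact absurd h h'
    · rw [h']; exact hx
  obtain ⟨Z, hZ⟩ := hfin
  obtain ⟨ν, r, w, hr, hw, hfac⟩ := fac_finset (ρ := ρ) (Z.filter fun z => ‖z‖ < ρ) φ hφ hord (by
    intro t ht h
    refine Finset.mem_filter.2 ⟨hZ t ht h, ?_⟩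
    rw [mem_closedBall, dist_zero_right] at ht
    rcases ht.lt_or_eq with h' | h'
    · exact h'
    · exact absurd h (h0 t (by rw [mem_sphere, dist_zero_right]; exact h'))) (fun z hz => (Finset.mem_filter.1 hz).2)
  exact ⟨ν, r, w, hr, hw, fun t _ => Eventually.of_forall hfac⟩

theorem power_sum {ρ : ℝ} (hρ : 0 < ρ) {φ w H : ℂ → ℂ} {ν : ℕ} {r : Fin ν → ℂ} (hr : ∀ i, ‖r i‖ < ρ) (hw : ∀ t ∈ closedBall (0 : ℂ) ρ, AnalyticAt ℂ w t ∧ w t ≠ 0)
    (hφ : ∀ t ∈ closedBall (0 : ℂ) ρ, φ =ᶠ[𝓝 t] fun t => (∏ i, (t - r i)) * w t) (hH : ∀ t ∈ closedBall (0 : ℂ) ρ, AnalyticAt ℂ H t) :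
    (∮ t in C(0, ρ), H t * deriv φ t / φ t) = 2 * Real.pi * Complex.I * ∑ i, H (r i) := by
  have hne : ∀ t ∈ sphere (0 : ℂ) ρ, ∀ i, t - r i ≠ 0 := by
    intro t ht i h
    rw [mem_sphere, dist_zero_right] at ht
    have := hr i
    rw [← sub_eq_zero.1 h, ht] at this
    exact lt_irrefl _ this
  have hdiff : DifferentiableOn ℂ H (closedBall 0 ρ) :=
    fun t ht => (hH t ht).differentiableAt.differentiableWithinAt
  have hdiff2 : DifferentiableOn ℂ (fun t => H t * logDeriv w t) (closedBall 0 ρ) := by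
    intro t ht
    refine DifferentiableAt.differentiableWithinAt ?_
    have h1 : AnalyticAt ℂ (fun t => H t * (deriv w t / w t)) t :=
      (hH t ht).mul ((hw t ht).1.deriv.div (hw t ht).1 (hw t ht).2)
    exact h1.differentiableAt
  have hEq : EqOn (fun t => H t * deriv φ t / φ t)
      (fun t => (∑ i, (t - r i)⁻¹ • H t) + H t * logDeriv w t) (sphere 0 ρ) := by
    intro t ht
    have htc := sphere_subset_closedBall ht
    have h1 : logDeriv φ t = logDeriv (fun t => (∏ i, (t - r i)) * w t) t :=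
      (logDeriv_congr_nhds (hφ t htc)).self_of_nhds
    have h2 : logDeriv (fun t => (∏ i, (t - r i)) * w t) t =
        (∑ i, (t - r i)⁻¹) + logDeriv w t := by
      rw [logDeriv_mul t (Finset.prod_ne_zero_iff.2 fun i _ => hne t ht i) (hw t htc).2
        (by fun_prop) (hw t htc).1.differentiableAt,
        logDeriv_prod (fun i _ => hne t ht i) (fun i _ => by fun_prop)]
      congr 1
      refine Finset.sum_congr rfl fun i _ => ?_
      rw [logDeriv_apply, deriv_sub_const, deriv_id'', one_div]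
    change H t * deriv φ t / φ t = (∑ i, (t - r i)⁻¹ • H t) + H t * logDeriv w t
    rw [mul_div_assoc, ← logDeriv_apply, h1, h2, mul_add, Finset.mul_sum]
    congr 1
    refine Finset.sum_congr rfl fun i _ => ?_
    rw [smul_eq_mul, mul_comm]
  rw [circleIntegral.integral_congr hρ.le hEq]
  have hci : ∀ i ∈ (Finset.univ : Finset (Fin ν)), CircleIntegrable (fun t => (t - r i)⁻¹ • H t) 0 ρ := by
    intro i _
    refine ContinuousOn.circleIntegrable hρ.le ?_
    have h5 : ContinuousOn (fun t : ℂ => (t - r i)⁻¹) (sphere 0 ρ) :=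
      (continuousOn_id.sub continuousOn_const).inv₀ fun t ht => hne t ht i
    exact h5.smul (hdiff.continuousOn.mono sphere_subset_closedBall)
  rw [circleIntegral.integral_add, circleIntegral.integral_fun_sum hci]
  · have h3 : (∮ t in C(0, ρ), H t * logDeriv w t) = 0 := by
      refine DiffContOnCl.circleIntegral_eq_zero hρ.le ?_
      exact (hdiff2.mono closure_ball_subset_closedBall).diffContOnCl
    rw [h3, add_zero, Finset.mul_sum]
    refine Finset.sum_congr rfl fun i _ => ?_
    rw [hdiff.circleIntegral_sub_inv_smul (by rw [mem_ball, dist_zero_right]; exact hr i), smul_eq_mul]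
  · have := CircleIntegrable.fun_sum Finset.univ hci
    exact this
  · exact ContinuousOn.circleIntegrable hρ.le (hdiff2.continuousOn.mono sphere_subset_closedBall)

open MvPolynomial in
private lemma esymm_newton_aux (ν : ℕ) : ∀ k : ℕ, k ≤ ν → ∃ P : MvPolynomial (Fin ν) ℂ, ∀ a : Fin ν → ℂ,
    eval a (esymm (Fin ν) ℂ k) = eval (fun j : Fin ν => ∑ i, a i ^ ((j : ℕ) + 1)) P := by
  intro k
  induction k using Nat.strong_induction_on with
  | _ k ih =>
    intro hk
    rcases Nat.eq_zero_or_pos k with h0 | h0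
    · subst h0
      exact ⟨1, fun a => by simp⟩
    · have hex : ∀ j : ℕ, ∃ Q : MvPolynomial (Fin ν) ℂ, j < k → ∀ a : Fin ν → ℂ,
          eval a (esymm (Fin ν) ℂ j) = eval (fun j : Fin ν => ∑ i, a i ^ ((j : ℕ) + 1)) Q := by
        intro j
        by_cases hj : j < k
        · obtain ⟨Q, hQ⟩ := ih j hj (hj.le.trans hk)
          exact ⟨Q, fun _ => hQ⟩
        · exact ⟨0, fun h => absurd h hj⟩
      choose Q hQ using hex
      have hps : ∀ j : ℕ, ∃ R : MvPolynomial (Fin ν) ℂ, 0 < j → j ≤ k → ∀ a : Fin ν → ℂ,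
          eval a (psum (Fin ν) ℂ j) = eval (fun j : Fin ν => ∑ i, a i ^ ((j : ℕ) + 1)) R := by
        intro j
        by_cases hj : 0 < j ∧ j ≤ k
        · refine ⟨X ⟨j - 1, by omega⟩, fun _ _ a => ?_⟩
          rw [eval_X, psum, map_sum]
          refine Finset.sum_congr rfl fun i _ => ?_
          have : j - 1 + 1 = j := by omega
          simp [this]
        · exact ⟨0, fun h1 h2 => absurd ⟨h1, h2⟩ hj⟩
      choose R hR using hps
      refine ⟨C ((k : ℂ)⁻¹ * (-1) ^ (k + 1)) * ∑ a ∈ Finset.HasAntidiagonal.antidiagonal k with a.1 < k, C ((-1 : ℂ) ^ a.1) * Q a.1 * R a.2, fun a => ?_⟩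
      have hk0 : (k : ℂ) ≠ 0 := by exact_mod_cast h0.ne'
      have h1 := congrArg (eval a) (mul_esymm_eq_sum (Fin ν) ℂ k)
      simp only [map_mul, map_natCast, map_pow, map_neg, map_one, map_sum] at h1
      have h2 : eval a (esymm (Fin ν) ℂ k) = (k : ℂ)⁻¹ * ((k : ℂ) * eval a (esymm (Fin ν) ℂ k)) := by
        field_simp
      rw [h2, h1]
      simp only [map_mul, eval_C, map_sum]
      rw [mul_assoc]
      congr 2
      refine Finset.sum_congr rfl fun b hb => ?_
      obtain ⟨hb1, hb2⟩ := Finset.mem_filter.1 hb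
      rw [Finset.HasAntidiagonal.mem_antidiagonal] at hb1
      rw [hQ b.1 hb2 a, hR b.2 (by omega) (by omega) a]

theorem esymm_newton (ν : ℕ) : ∃ P : MvPolynomial (Fin ν) ℂ, ∀ a : Fin ν → ℂ, ∏ i, a i = MvPolynomial.eval (fun k : Fin ν => ∑ i, a i ^ ((k : ℕ) + 1)) P := by
  obtain ⟨P, hP⟩ := esymm_newton_aux ν ν le_rfl
  refine ⟨P, fun a => ?_⟩
  rw [← hP a, MvPolynomial.esymm]
  have : (Finset.univ : Finset (Fin ν)).powersetCard ν = {Finset.univ} := by
    have := Finset.powersetCard_self (Finset.univ : Finset (Fin ν))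
    simpa using this
  rw [this, Finset.sum_singleton, map_prod]
  simp

end Pool.Agent.H22.HF

end

section

/-!
# BU Inv: local inverse of an analytic map
-/

set_option autoImplicit false

namespace Pool.Agent.H62.BU

open Filter Topology

/-- the analytic inverse function theorem -/
theorem local_inverse {E : Type*} [NormedAddCommGroup E] [NormedSpace ℂ E] [FiniteDimensional ℂ E] {f : E → E} {x₀ : E}
    (hf : AnalyticAt ℂ f x₀) (hi : ∀ v, fderiv ℂ f x₀ v = 0 → v = 0) :
    ∃ ψ : E → E, AnalyticAt ℂ ψ (f x₀) ∧ (∀ᶠ x in 𝓝 x₀, ψ (f x) = x) ∧ (∀ᶠ y in 𝓝 (f x₀), f (ψ y) = y) ∧ ψ (f x₀) = x₀ := by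
  have : CompleteSpace E := FiniteDimensional.complete ℂ E
  have hinj : Function.Injective (fderiv ℂ f x₀ : E →ₗ[ℂ] E) := by
    rw [injective_iff_map_eq_zero]
    exact hi
  let e : E ≃L[ℂ] E := (LinearEquiv.ofInjectiveEndo (fderiv ℂ f x₀ : E →ₗ[ℂ] E) hinj).toContinuousLinearEquiv
  have he : (e : E →L[ℂ] E) = fderiv ℂ f x₀ := by
    ext v
    rfl
  have hs : HasStrictFDerivAt f (e : E →L[ℂ] E) x₀ := by
    rw [he]
    exact hf.hasStrictFDerivAt
  let P := hs.toOpenPartialHomeomorph f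
  have hP : x₀ ∈ P.source := hs.mem_toOpenPartialHomeomorph_source
  have hcoe : (P : E → E) = f := hs.toOpenPartialHomeomorph_coe
  have h1 : AnalyticAt ℂ P.symm (P x₀) := by
    refine P.analyticAt_symm' hP ?_ (i := e) ?_
    · rw [hcoe]
      exact hf
    · rw [hcoe]
      exact he.symm
  rw [hcoe] at h1
  refine ⟨P.symm, h1, ?_, ?_, ?_⟩
  · filter_upwards [P.open_source.mem_nhds hP] with x hx
    have := P.left_inv hx
    rwa [hcoe] at this
  · have h2 : f x₀ ∈ P.target := by
      have := P.map_source hP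
      rwa [hcoe] at this
    filter_upwards [P.open_target.mem_nhds h2] with y hy
    have := P.right_inv hy
    rwa [hcoe] at this
  · have := P.left_inv hP
    rwa [hcoe] at this

end Pool.Agent.H62.BU

end

section

/-! Prime divisors of `L(t)`. -/

noncomputable section

namespace Pool.Agent.H62.FC

open WithZero Cardinal

/-- The additive form of the value group. -/
def Place_phi (x : WithZero (Multiplicative ℤ)) : WithTop ℤ :=
  if x = 0 then ⊤ else ((-(WithZero.log x) : ℤ) : WithTop ℤ)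

lemma Place_phi_zero : Place_phi 0 = ⊤ := by simp [Place_phi]

lemma Place_phi_one : Place_phi 1 = 0 := by simp [Place_phi]

lemma Place_phi_exp (n : ℤ) : Place_phi (WithZero.exp n) = ((-n : ℤ) : WithTop ℤ) := by
  simp [Place_phi]

lemma Place_phi_mul (x y : WithZero (Multiplicative ℤ)) :
    Place_phi (x * y) = Place_phi x + Place_phi y := by
  by_cases hx : x = 0
  · simp [Place_phi, hx]
  by_cases hy : y = 0
  · simp [Place_phi, hy]
  rw [Place_phi, Place_phi, Place_phi, if_neg hx, if_neg hy, if_neg (mul_ne_zero hx hy),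
    WithZero.log_mul hx hy, ← WithTop.coe_add]
  congr 1
  ring

lemma Place_phi_anti {x y : WithZero (Multiplicative ℤ)} (h : x ≤ y) :
    Place_phi y ≤ Place_phi x := by
  by_cases hx : x = 0
  · simp [Place_phi, hx]
  have hy : y ≠ 0 := by
    rintro rfl
    exact hx (le_antisymm h (by simp))
  rw [Place_phi, Place_phi, if_neg hx, if_neg hy, WithTop.coe_le_coe, neg_le_neg_iff,
    WithZero.log_le_log hx hy]
  exact h

lemma Place_phi_nonneg_iff {x : WithZero (Multiplicative ℤ)} : 0 ≤ Place_phi x ↔ x ≤ 1 := by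
  refine ⟨fun h => ?_, fun h => by simpa [Place_phi_one] using Place_phi_anti h⟩
  by_cases hx : x = 0
  · rw [hx]; simp
  rw [Place_phi, if_neg hx] at h
  have h1 : (0 : ℤ) ≤ -(WithZero.log x) := by exact_mod_cast h
  have h2 : WithZero.log x ≤ WithZero.log (1 : WithZero (Multiplicative ℤ)) := by
    rw [WithZero.log_one]; linarith
  exact (WithZero.log_le_log hx one_ne_zero).mp h2

/-- The additive valuation of a `ℤᵐ⁰`-valuation. -/
def Place_add {R : Type*} [CommRing R] (v : Valuation R (WithZero (Multiplicative ℤ))) :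
    AddValuation R (WithTop ℤ) :=
  AddValuation.of (fun x => Place_phi (v x)) (by simp [Place_phi_zero])
    (by simp [Place_phi_one])
    (fun x y => by
      rcases le_total (v x) (v y) with h | h
      · exact (min_le_right _ _).trans (Place_phi_anti ((v.map_add x y).trans
          (max_le h le_rfl)))
      · exact (min_le_left _ _).trans (Place_phi_anti ((v.map_add x y).trans
          (max_le le_rfl h))))
    (fun x y => by rw [map_mul, Place_phi_mul])

lemma Place_add_apply {R : Type*} [CommRing R] (v : Valuation R (WithZero (Multiplicative ℤ)))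
    (x : R) : Place_add v x = Place_phi (v x) := rfl

end Pool.Agent.H62.FC

end
end

section

/-!
# KR HZ: homogenisation with respect to a variable

`hmz l n G = ∑_{d ≤ n} X_l^(n-d) G_d`, `G_d` the homogeneous component.

Proofs.
* `hmz_isHomogeneous`: `X_l^(n-d)` has degree `n - d`, `G_d` degree `d` (`homogeneousComponent_isHomogeneous`,
  `isHomogeneous_X_pow`, `IsHomogeneous.mul`, `IsHomogeneous.sum`).
* `eval₂_of_isHomogeneous`: `Q (c y) = c^d Q (y)`: expand `eval₂_eq`, for every monomial in the support the sum of the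
  exponents is `d` (compare the proof in `Pt.lean`).
* `eval₂_hmz`: for every `d`: `G_d (y) = y_l^d G_d (y / y_l)`, so `y_l^(n-d) G_d (y) = y_l^n G_d (y / y_l)` (`d ≤ n`), and
  `∑_{d ≤ n} G_d = G` (`sum_homogeneousComponent`, the components of degree `> totalDegree` vanish).
-/

set_option autoImplicit false

open MvPolynomial

noncomputable section

namespace Pool.Agent.H68.KR

variable {m : ℕ}

/-- The homogenisation of `G` in degree `n` with respect to the variable `X l`. -/
def hmz (l : Fin m) (n : ℕ) (G : MvPolynomial (Fin m) ℂ) : MvPolynomial (Fin m) ℂ :=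
  ∑ d ∈ Finset.range (n + 1), X l ^ (n - d) * homogeneousComponent d G

theorem hmz_isHomogeneous (l : Fin m) (n : ℕ) (G : MvPolynomial (Fin m) ℂ) :
    (hmz l n G).IsHomogeneous n := by
  unfold hmz
  apply MvPolynomial.IsHomogeneous.sum
  intro d hd
  have h1 : d ≤ n := Nat.lt_succ_iff.1 (Finset.mem_range.1 hd)
  have h2 := (MvPolynomial.isHomogeneous_X_pow (R := ℂ) l (n - d)).mul
    (MvPolynomial.homogeneousComponent_isHomogeneous d G)
  rwa [Nat.sub_add_cancel h1] at h2

/-- Scaling of a homogeneous polynomial. -/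
theorem eval₂_of_isHomogeneous {F : Type} [Field F] (ι : ℂ →+* F) {d : ℕ} {Q : MvPolynomial (Fin m) ℂ}
    (hQ : Q.IsHomogeneous d) (c : F) (y : Fin m → F) :
    eval₂ ι (fun i => c * y i) Q = c ^ d * eval₂ ι y Q := by
  rw [eval₂_eq, eval₂_eq, Finset.mul_sum]
  refine Finset.sum_congr rfl fun m hm => ?_
  have h5 : ∑ i ∈ m.support, m i = d := by
    have := hQ (mem_support_iff.1 hm)
    rw [Finsupp.weight_apply, Finsupp.sum] at this
    simpa using this
  simp only [mul_pow, Finset.prod_mul_distrib]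
  rw [Finset.prod_pow_eq_pow_sum, h5]
  ring

theorem eval₂_hmz {F : Type} [Field F] (ι : ℂ →+* F) {l : Fin m} {n : ℕ} {G : MvPolynomial (Fin m) ℂ}
    (hn : G.totalDegree ≤ n) {y : Fin m → F} (hy : y l ≠ 0) :
    eval₂ ι y (hmz l n G) = y l ^ n * eval₂ ι (fun i => y i / y l) G := by
  have h1 : G = ∑ d ∈ Finset.range (n + 1), homogeneousComponent d G := by
    conv_lhs => rw [← MvPolynomial.sum_homogeneousComponent G]
    apply Finset.sum_subset
    · intro d hd
      rw [Finset.mem_range] at hd ⊢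
      omega
    · intro d _ hd
      apply MvPolynomial.homogeneousComponent_eq_zero
      rw [Finset.mem_range] at hd
      omega
  have h2 : eval₂ ι (fun i => y i / y l) G =
      ∑ d ∈ Finset.range (n + 1), eval₂ ι (fun i => y i / y l) (homogeneousComponent d G) := by
    conv_lhs => rw [h1]
    exact MvPolynomial.eval₂_sum _ _ _ _
  have h3 : eval₂ ι y (hmz l n G) =
      ∑ d ∈ Finset.range (n + 1), eval₂ ι y (X l ^ (n - d) * homogeneousComponent d G) :=
    MvPolynomial.eval₂_sum _ _ _ _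
  rw [h2, h3, Finset.mul_sum]
  refine Finset.sum_congr rfl fun d hd => ?_
  have h4 : d ≤ n := Nat.lt_succ_iff.1 (Finset.mem_range.1 hd)
  have h5 := eval₂_of_isHomogeneous ι (MvPolynomial.homogeneousComponent_isHomogeneous d G) (y l)
    (fun i => y i / y l)
  have h6 : (fun i => y l * (y i / y l)) = y := by
    funext i
    field_simp
  rw [h6] at h5
  rw [eval₂_mul, eval₂_pow, eval₂_X, h5, ← mul_assoc, ← pow_add, Nat.sub_add_cancel h4]

end Pool.Agent.H68.KR

end
end

section

/-!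
# Gtu Res: residue fields of discrete valuations and algebraic extensions

Let `L` be an algebraic extension of `K`, and let `v` be a valuation of `L` which is nonnegative on `ℂ`.  If there are `n` elements of the valuation
ring of `L` with algebraically independent residue classes, then there are `n` such elements in `K`.
-/

set_option autoImplicit false

open Polynomial

noncomputable section

namespace Pool.Agent.H7.Gtu

variable {K L : Type} [Field K] [Algebra ℂ K] [Field L] [Algebra ℂ L]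

/-- Transcendence degrees of algebraic extensions. -/
theorem exists_indep {κ κ' : Type} [CommRing κ] [IsDomain κ] [CommRing κ'] [IsDomain κ'] [Algebra ℂ κ] [Algebra ℂ κ'] (f : κ →ₐ[ℂ] κ')
    (hf : Function.Injective f) (halg : ∀ y, ∃ q : κ[X], q ≠ 0 ∧ q.eval₂ (f : κ →+* κ') y = 0) {n : ℕ} {s : Fin n → κ'}
    (hs : AlgebraicIndependent ℂ s) : ∃ t : Fin n → κ, AlgebraicIndependent ℂ t := by
  let _ : Algebra κ κ' := f.toRingHom.toAlgebra
  have _ : IsScalarTower ℂ κ κ' := IsScalarTower.of_algebraMap_eq fun c => (f.commutes c).symm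
  have _ : FaithfulSMul κ κ' := (faithfulSMul_iff_algebraMap_injective _ _).2 hf
  have _ : Algebra.IsAlgebraic κ κ' := by
    refine ⟨fun y => ?_⟩
    obtain ⟨q, hq0, hq⟩ := halg y
    exact ⟨q, hq0, hq⟩
  have _ : FaithfulSMul ℂ κ := (faithfulSMul_iff_algebraMap_injective _ _).2 (algebraMap ℂ _).injective
  obtain ⟨ι, x, hx⟩ := exists_isTranscendenceBasis' ℂ κ
  have hx' : IsTranscendenceBasis ℂ (algebraMap κ κ' ∘ x) := hx.algebraMap_comp
  have h1 := hs.lift_cardinalMk_le_trdeg
  have h2 := hx'.lift_cardinalMk_eq_trdeg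
  rw [← h2] at h1
  obtain ⟨φ⟩ := Cardinal.lift_mk_le'.1 h1
  exact ⟨x ∘ φ, hx.1.comp φ φ.injective⟩

/-- The valuation ring. -/
def vring (v : AddValuation L (WithTop ℤ)) (hv : ∀ c : ℂ, 0 ≤ v (algebraMap ℂ L c)) : Subalgebra ℂ L where
  carrier := {x | 0 ≤ v x}
  mul_mem' := by
    intro a b ha hb
    change 0 ≤ v (a * b)
    rw [v.map_mul]
    exact add_nonneg ha hb
  add_mem' := by
    intro a b ha hb
    exact (le_min ha hb).trans (v.map_add a b)
  algebraMap_mem' := hv

/-- The maximal ideal. -/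
def vmax (v : AddValuation L (WithTop ℤ)) (hv : ∀ c : ℂ, 0 ≤ v (algebraMap ℂ L c)) : Ideal (vring v hv) where
  carrier := {x | 0 < v (x : L)}
  add_mem' := by
    intro a b ha hb
    exact (lt_min ha hb).trans_le (v.map_add a b)
  zero_mem' := by
    change 0 < v (0 : L)
    rw [v.map_zero]
    exact WithTop.coe_lt_top 0
  smul_mem' := by
    intro c x hx
    change 0 < v ((c : L) * x)
    rw [v.map_mul]
    exact lt_of_lt_of_le hx (le_add_of_nonneg_left c.2)

instance vmax_isPrime (v : AddValuation L (WithTop ℤ)) (hv : ∀ c : ℂ, 0 ≤ v (algebraMap ℂ L c)) : (vmax v hv).IsPrime where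
  ne_top' := by
    rw [Ideal.ne_top_iff_one]
    intro h
    have h1 : 0 < v (1 : L) := h
    rw [v.map_one] at h1
    exact lt_irrefl _ h1
  mem_or_mem' := by
    intro x y hxy
    have h1 : 0 < v ((x : L) * y) := hxy
    rw [v.map_mul] at h1
    by_contra hcon
    push Not at hcon
    have h2 : v (x : L) = 0 := le_antisymm (not_lt.1 hcon.1) x.2
    have h3 : v (y : L) = 0 := le_antisymm (not_lt.1 hcon.2) y.2
    rw [h2, h3, add_zero] at h1
    exact lt_irrefl _ h1

/-- The residue field. -/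
abbrev vres (v : AddValuation L (WithTop ℤ)) (hv : ∀ c : ℂ, 0 ≤ v (algebraMap ℂ L c)) : Type := vring v hv ⧸ vmax v hv

section Ext

variable [Algebra K L] [IsScalarTower ℂ K L]

/-- The restriction of the valuation. -/
def vcom (K : Type) [Field K] [Algebra K L] (v : AddValuation L (WithTop ℤ)) : AddValuation K (WithTop ℤ) := v.comap (algebraMap K L)

omit [Algebra ℂ K] [Algebra ℂ L] [IsScalarTower ℂ K L] in
theorem vcom_apply (v : AddValuation L (WithTop ℤ)) (x : K) : vcom K v x = v (algebraMap K L x) := rfl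

theorem vcom_const {v : AddValuation L (WithTop ℤ)} (hv : ∀ c : ℂ, 0 ≤ v (algebraMap ℂ L c)) (c : ℂ) :
    0 ≤ vcom K v (algebraMap ℂ K c) := by
  rw [vcom_apply, ← IsScalarTower.algebraMap_apply]
  exact hv c

/-- The map of the valuation rings. -/
def vmap (v : AddValuation L (WithTop ℤ)) (hv : ∀ c : ℂ, 0 ≤ v (algebraMap ℂ L c)) :
    vring (vcom K v) (vcom_const hv) →ₐ[ℂ] vring v hv where
  toFun x := ⟨algebraMap K L x, x.2⟩
  map_one' := Subtype.ext (map_one (algebraMap K L))
  map_mul' _ _ := Subtype.ext (map_mul (algebraMap K L) _ _)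
  map_zero' := Subtype.ext (map_zero (algebraMap K L))
  map_add' _ _ := Subtype.ext (map_add (algebraMap K L) _ _)
  commutes' c := Subtype.ext (IsScalarTower.algebraMap_apply ℂ K L c).symm

/-- The map of the residue fields. -/
def rmap (v : AddValuation L (WithTop ℤ)) (hv : ∀ c : ℂ, 0 ≤ v (algebraMap ℂ L c)) :
    vres (vcom K v) (vcom_const hv) →ₐ[ℂ] vres v hv :=
  Ideal.quotientMapₐ (vmax v hv) (vmap v hv) fun _ hx => hx

theorem rmap_mk (v : AddValuation L (WithTop ℤ)) (hv : ∀ c : ℂ, 0 ≤ v (algebraMap ℂ L c)) (x : vring (vcom K v) (vcom_const hv)) :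
    rmap (K := K) v hv (Ideal.Quotient.mk _ x) = Ideal.Quotient.mk _ (vmap v hv x) := rfl

theorem rmap_injective (v : AddValuation L (WithTop ℤ)) (hv : ∀ c : ℂ, 0 ≤ v (algebraMap ℂ L c)) :
    Function.Injective (rmap (K := K) v hv) := by
  rw [injective_iff_map_eq_zero]
  intro x hx
  obtain ⟨x, rfl⟩ := Ideal.Quotient.mk_surjective x
  rw [rmap_mk, Ideal.Quotient.eq_zero_iff_mem] at hx
  rw [Ideal.Quotient.eq_zero_iff_mem]
  exact hx

/-- The extension of the residue fields is algebraic. -/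
theorem rmap_algebraic [Algebra.IsAlgebraic K L] (v : AddValuation L (WithTop ℤ)) (hv : ∀ c : ℂ, 0 ≤ v (algebraMap ℂ L c)) (y : vres v hv) :
    ∃ q : (vres (vcom K v) (vcom_const hv))[X], q ≠ 0 ∧ q.eval₂ (rmap (K := K) v hv : vres (vcom K v) (vcom_const hv) →+* vres v hv) y = 0 := by
  obtain ⟨x, rfl⟩ := Ideal.Quotient.mk_surjective y
  obtain ⟨p, hp0, hp⟩ := Algebra.IsAlgebraic.isAlgebraic (R := K) (x : L)
  obtain ⟨i, hi, hmin⟩ := Finset.exists_min_image p.support (fun i => vcom K v (p.coeff i)) (Polynomial.support_nonempty.2 hp0)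
  have hc0 : p.coeff i ≠ 0 := Polynomial.mem_support_iff.1 hi
  have hq : C (p.coeff i)⁻¹ * p ∈ Polynomial.lifts (algebraMap (vring (vcom K v) (vcom_const hv)) K) := by
    rw [Polynomial.lifts_iff_coeff_lifts]
    intro n
    rw [Polynomial.coeff_C_mul]
    have h1 : 0 ≤ vcom K v ((p.coeff i)⁻¹ * p.coeff n) := by
      by_cases hn : p.coeff n = 0
      · rw [hn, mul_zero, AddValuation.map_zero]
        exact le_top
      · have h2 := hmin n (Polynomial.mem_support_iff.2 hn)
        have h3 : vcom K v (p.coeff i) + vcom K v ((p.coeff i)⁻¹ * p.coeff n) = vcom K v (p.coeff n) := by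
          rw [← AddValuation.map_mul, mul_inv_cancel_left₀ hc0]
        rw [← h3] at h2
        have h4 : vcom K v (p.coeff i) ≠ ⊤ := (AddValuation.ne_top_iff _).2 hc0
        have h5 : vcom K v (p.coeff i) + 0 ≤ vcom K v (p.coeff i) + vcom K v ((p.coeff i)⁻¹ * p.coeff n) := by rwa [add_zero]
        exact (WithTop.add_le_add_iff_left h4).1 h5
    exact ⟨⟨_, h1⟩, rfl⟩
  obtain ⟨Q, hQ⟩ := (Polynomial.mem_lifts _).1 hq
  refine ⟨Q.map (Ideal.Quotient.mk _), ?_, ?_⟩
  · intro h0
    have h1 : (Q.map (Ideal.Quotient.mk (vmax (vcom K v) (vcom_const hv)))).coeff i = 0 := by rw [h0, Polynomial.coeff_zero]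
    have h2 : (Q.coeff i : K) = 1 := by
      have h3 : (Q.map (algebraMap (vring (vcom K v) (vcom_const hv)) K)).coeff i = (C (p.coeff i)⁻¹ * p).coeff i := by rw [hQ]
      rw [Polynomial.coeff_map, Polynomial.coeff_C_mul, inv_mul_cancel₀ hc0] at h3
      exact h3
    have h4 : Q.coeff i = 1 := Subtype.ext h2
    rw [Polynomial.coeff_map, h4, map_one] at h1
    exact one_ne_zero h1
  · rw [Polynomial.eval₂_map]
    have h1 : (rmap (K := K) v hv : vres (vcom K v) (vcom_const hv) →+* vres v hv).comp (Ideal.Quotient.mk _) =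
        (Ideal.Quotient.mk (vmax v hv)).comp (vmap (K := K) v hv : _ →+* vring v hv) := rfl
    rw [h1, ← Polynomial.hom_eval₂]
    have h2 : Q.eval₂ (vmap (K := K) v hv : vring (vcom K v) (vcom_const hv) →+* vring v hv) x = 0 := by
      apply Subtype.ext
      have h3 : ((Q.eval₂ (vmap (K := K) v hv : vring (vcom K v) (vcom_const hv) →+* vring v hv) x : vring v hv) : L) =
          Q.eval₂ ((algebraMap K L).comp (algebraMap (vring (vcom K v) (vcom_const hv)) K)) (x : L) :=
        Polynomial.hom_eval₂ Q (vmap (K := K) v hv : vring (vcom K v) (vcom_const hv) →+* vring v hv) (algebraMap (vring v hv) L) x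
      rw [h3, ← Polynomial.eval₂_map, hQ, Polynomial.eval₂_mul]
      have h4 : p.eval₂ (algebraMap K L) (x : L) = 0 := hp
      rw [h4, mul_zero]
      rfl
    rw [h2, map_zero]

/-- **Residual independence goes down.** -/
theorem exists_residue [Algebra.IsAlgebraic K L] (v : AddValuation L (WithTop ℤ)) (hv : ∀ c : ℂ, 0 ≤ v (algebraMap ℂ L c)) {n : ℕ}
    (h : ∃ s : Fin n → L, (∀ i, 0 ≤ v (s i)) ∧ ∀ p : MvPolynomial (Fin n) ℂ, p ≠ 0 → v (MvPolynomial.aeval s p) = 0) :
    ∃ s : Fin n → K, (∀ i, 0 ≤ v (algebraMap K L (s i))) ∧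
      ∀ p : MvPolynomial (Fin n) ℂ, p ≠ 0 → v (algebraMap K L (MvPolynomial.aeval s p)) = 0 := by
  obtain ⟨s, hs, hp⟩ := h
  -- the residue classes of the given elements
  have hs' : AlgebraicIndependent ℂ (fun i => (Ideal.Quotient.mk (vmax v hv) (⟨s i, hs i⟩ : vring v hv))) := by
    rw [algebraicIndependent_iff]
    intro p hp0
    by_contra hne
    have h1 : MvPolynomial.aeval (fun i => (Ideal.Quotient.mk (vmax v hv) (⟨s i, hs i⟩ : vring v hv))) p =
        Ideal.Quotient.mk (vmax v hv) (MvPolynomial.aeval (fun i => (⟨s i, hs i⟩ : vring v hv)) p) := by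
      have h2 := MvPolynomial.comp_aeval (fun i => (⟨s i, hs i⟩ : vring v hv)) (Ideal.Quotient.mkₐ ℂ (vmax v hv))
      exact (DFunLike.congr_fun h2 p).symm
    rw [h1, Ideal.Quotient.eq_zero_iff_mem] at hp0
    have h3 : ((MvPolynomial.aeval (fun i => (⟨s i, hs i⟩ : vring v hv)) p : vring v hv) : L) = MvPolynomial.aeval s p := by
      have h2 := MvPolynomial.comp_aeval (fun i => (⟨s i, hs i⟩ : vring v hv)) (vring v hv).val
      exact DFunLike.congr_fun h2 p
    have h4 : 0 < v ((MvPolynomial.aeval (fun i => (⟨s i, hs i⟩ : vring v hv)) p : vring v hv) : L) := hp0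
    rw [h3, hp p hne] at h4
    exact lt_irrefl _ h4
  obtain ⟨x, h3⟩ := exists_indep (rmap (K := K) v hv) (rmap_injective v hv) (rmap_algebraic (K := K) v hv) hs'
  choose y hy using fun i => Ideal.Quotient.mk_surjective (x i)
  refine ⟨fun i => (y i : K), fun i => (y i).2, fun p hp0 => ?_⟩
  have h4 : Ideal.Quotient.mk (vmax (vcom K v) (vcom_const hv)) (MvPolynomial.aeval y p) ≠ 0 := by
    have h5 := MvPolynomial.comp_aeval y (Ideal.Quotient.mkₐ ℂ (vmax (vcom K v) (vcom_const hv)))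
    have h6 : Ideal.Quotient.mk (vmax (vcom K v) (vcom_const hv)) (MvPolynomial.aeval y p) =
        MvPolynomial.aeval (fun i => Ideal.Quotient.mkₐ ℂ (vmax (vcom K v) (vcom_const hv)) (y i)) p := DFunLike.congr_fun h5 p
    have h7 : (fun i => Ideal.Quotient.mkₐ ℂ (vmax (vcom K v) (vcom_const hv)) (y i)) = x := funext hy
    rw [h6, h7]
    intro h8
    exact hp0 ((algebraicIndependent_iff.1 h3) p h8)
  have h5 : ((MvPolynomial.aeval y p : vring (vcom K v) (vcom_const hv)) : K) = MvPolynomial.aeval (fun i => (y i : K)) p := by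
    have h2 := MvPolynomial.comp_aeval y (vring (vcom K v) (vcom_const hv)).val
    exact DFunLike.congr_fun h2 p
  rw [← h5]
  refine le_antisymm (not_lt.1 fun h6 => h4 ?_) (MvPolynomial.aeval y p : vring (vcom K v) (vcom_const hv)).2
  rw [Ideal.Quotient.eq_zero_iff_mem]
  exact h6

end Ext

end Pool.Agent.H7.Gtu

end
end

section

/-!
# MQ2 BB0: the equation `x u' + μ u = g` on a disc
-/

set_option autoImplicit false

open Topology Filter Metric Set MeasureTheory

noncomputable section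

namespace Pool.Agent.MQ2

/-- the solution of `x u' + μ u = g` -/
def Top (μ : ℂ) (g : ℂ → ℂ) (x : ℂ) : ℂ := ∫ t in (0:ℝ)..1, (t : ℂ) ^ (μ - 1) * g (t * x)

variable {μ : ℂ} {g h : ℂ → ℂ} {r C : ℝ} {x : ℂ}

lemma norm_cpow_le (hμ : 2 ≤ μ.re) {t : ℝ} (ht : t ∈ Ioc (0:ℝ) 1) : ‖(t : ℂ) ^ (μ - 1)‖ ≤ 1 := by
  rw [Complex.norm_cpow_eq_rpow_re_of_pos ht.1]
  apply Real.rpow_le_one ht.1.le ht.2
  rw [Complex.sub_re, Complex.one_re]; linarith

lemma mul_mem_ball (hx : x ∈ ball (0:ℂ) r) {t : ℝ} (ht : t ∈ Icc (0:ℝ) 1) : (t : ℂ) * x ∈ ball (0:ℂ) r := by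
  rw [mem_ball_zero_iff] at hx ⊢
  rw [norm_mul, Complex.norm_real, Real.norm_eq_abs, abs_of_nonneg ht.1]
  calc t * ‖x‖ ≤ 1 * ‖x‖ := by gcongr; exact ht.2
    _ = ‖x‖ := one_mul _
    _ < r := hx

lemma top_bound (hμ : 2 ≤ μ.re) (hC : ∀ w ∈ ball (0:ℂ) r, ‖g w‖ ≤ C) (hx : x ∈ ball (0:ℂ) r) : ‖Top μ g x‖ ≤ C := by
  have h0 : (0:ℝ) ≤ C := (norm_nonneg _).trans (hC x hx)
  have := intervalIntegral.norm_integral_le_of_norm_le_const (a := 0) (b := 1) (C := C)
    (f := fun t : ℝ => (t : ℂ) ^ (μ - 1) * g (t * x)) (fun t ht => by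
      rw [uIoc_of_le zero_le_one] at ht
      rw [norm_mul]
      calc ‖(t : ℂ) ^ (μ - 1)‖ * ‖g (t * x)‖ ≤ 1 * C := by
            gcongr
            · exact norm_cpow_le hμ ht
            · exact hC _ (mul_mem_ball hx ⟨ht.1.le, ht.2⟩)
        _ = C := one_mul _)
  simpa [Top] using this

lemma top_cont (hμ : 2 ≤ μ.re) (hg : ContinuousOn g (ball (0:ℂ) r)) (hx : x ∈ ball (0:ℂ) r) :
    ContinuousOn (fun t : ℝ => (t : ℂ) ^ (μ - 1) * g (t * x)) (Icc 0 1) := by
  have h1 : Continuous fun t : ℝ => (t : ℂ) ^ (μ - 1) := by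
    apply Complex.continuous_ofReal_cpow_const
    rw [Complex.sub_re, Complex.one_re]; linarith
  refine h1.continuousOn.mul ?_
  exact hg.comp (by fun_prop) (fun t ht => mul_mem_ball hx ht)

lemma top_int (hμ : 2 ≤ μ.re) (hg : ContinuousOn g (ball (0:ℂ) r)) (hx : x ∈ ball (0:ℂ) r) :
    IntervalIntegrable (fun t : ℝ => (t : ℂ) ^ (μ - 1) * g (t * x)) volume 0 1 := by
  apply ContinuousOn.intervalIntegrable
  rw [uIcc_of_le zero_le_one]
  exact top_cont hμ hg hx

lemma top_sub (hμ : 2 ≤ μ.re) (hg : ContinuousOn g (ball (0:ℂ) r)) (hh : ContinuousOn h (ball (0:ℂ) r)) (hx : x ∈ ball (0:ℂ) r) :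
    Top μ g x - Top μ h x = Top μ (fun w => g w - h w) x := by
  unfold Top
  rw [← intervalIntegral.integral_sub (top_int hμ hg hx) (top_int hμ hh hx)]
  congr 1; ext t; ring

lemma top_hasDeriv (hμ : 2 ≤ μ.re) (hg : DifferentiableOn ℂ g (ball (0:ℂ) r)) (hx : x ∈ ball (0:ℂ) r) :
    IntervalIntegrable (fun t : ℝ => (t : ℂ) ^ (μ - 1) * (deriv g (t * x) * t)) volume 0 1 ∧
    HasDerivAt (Top μ g) (∫ t in (0:ℝ)..1, (t : ℂ) ^ (μ - 1) * (deriv g (t * x) * t)) x := by
  have hx' := hx
  rw [mem_ball_zero_iff] at hx'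
  obtain ⟨r', h1, h2⟩ := exists_between hx'
  have hsub : closedBall (0:ℂ) r' ⊆ ball (0:ℂ) r := closedBall_subset_ball h2
  have hdg : ContinuousOn (deriv g) (ball (0:ℂ) r) := (hg.deriv isOpen_ball).continuousOn
  obtain ⟨M, hM⟩ := (isCompact_closedBall (0:ℂ) r').exists_bound_of_continuousOn (hdg.mono hsub)
  have hc1 : Continuous fun t : ℝ => (t : ℂ) ^ (μ - 1) := by
    apply Complex.continuous_ofReal_cpow_const
    rw [Complex.sub_re, Complex.one_re]; linarith
  apply intervalIntegral.hasDerivAt_integral_of_dominated_loc_of_deriv_le (s := ball (0:ℂ) r') (bound := fun _ => M)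
    (F := fun (w : ℂ) (t : ℝ) => (t : ℂ) ^ (μ - 1) * g (t * w)) (F' := fun (w : ℂ) (t : ℝ) => (t : ℂ) ^ (μ - 1) * (deriv g (t * w) * t))
  · exact isOpen_ball.mem_nhds (by rwa [mem_ball_zero_iff])
  · filter_upwards [isOpen_ball.mem_nhds (show x ∈ ball (0:ℂ) r from hx)] with w hw
    rw [uIoc_of_le zero_le_one]
    exact (top_int hμ hg.continuousOn hw).1.aestronglyMeasurable
  · exact top_int hμ hg.continuousOn hx
  · apply ContinuousOn.aestronglyMeasurable _ measurableSet_uIoc
    rw [uIoc_of_le zero_le_one]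
    refine ContinuousOn.mono ?_ Ioc_subset_Icc_self
    refine hc1.continuousOn.mul (ContinuousOn.mul ?_ (by fun_prop))
    exact hdg.comp (by fun_prop) (fun t ht => mul_mem_ball hx ht)
  · refine Eventually.of_forall fun t ht w hw => ?_
    rw [uIoc_of_le zero_le_one] at ht
    have ht' : t ∈ Icc (0:ℝ) 1 := ⟨ht.1.le, ht.2⟩
    rw [norm_mul, norm_mul]
    have e1 := norm_cpow_le hμ ht
    have e2 := hM _ (ball_subset_closedBall (mul_mem_ball hw ht'))
    have e3 : ‖(t:ℂ)‖ ≤ 1 := by rw [Complex.norm_real, Real.norm_eq_abs, abs_of_pos ht.1]; exact ht.2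
    have hM0 : 0 ≤ M := (norm_nonneg _).trans e2
    calc ‖(t : ℂ) ^ (μ - 1)‖ * (‖deriv g (t * w)‖ * ‖(t:ℂ)‖) ≤ 1 * (M * 1) := by gcongr
      _ = M := by ring
  · exact intervalIntegrable_const
  · refine Eventually.of_forall fun t ht w hw => ?_
    rw [uIoc_of_le zero_le_one] at ht
    have ht' : t ∈ Icc (0:ℝ) 1 := ⟨ht.1.le, ht.2⟩
    have hw' : (t:ℂ) * w ∈ ball (0:ℂ) r := hsub (ball_subset_closedBall (mul_mem_ball hw ht'))
    have hd : HasDerivAt g (deriv g (t * w)) (t * w) := (hg.differentiableAt (isOpen_ball.mem_nhds hw')).hasDerivAt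
    have hl : HasDerivAt (fun w : ℂ => (t:ℂ) * w) (t:ℂ) w := by
      simpa using (hasDerivAt_id w).const_mul (t:ℂ)
    exact (hd.comp w hl).const_mul _

lemma top_eq (hμ : 2 ≤ μ.re) (hg : DifferentiableOn ℂ g (ball (0:ℂ) r)) (hx : x ∈ ball (0:ℂ) r) :
    x * deriv (Top μ g) x = g x - μ * Top μ g x := by
  obtain ⟨hi, hd⟩ := top_hasDeriv hμ hg hx
  rw [hd.deriv]
  have hμ0 : μ ≠ 0 := by rintro rfl; norm_num at hμ
  have hdg : ContinuousOn (deriv g) (ball (0:ℂ) r) := (hg.deriv isOpen_ball).continuousOn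
  -- the derivative of `t ^ μ * g (t x)`
  have key : ∫ t in (0:ℝ)..1, ((t:ℂ) ^ (μ - 1) * (μ * g (t * x)) + x * ((t : ℂ) ^ (μ - 1) * (deriv g (t * x) * t))) =
      ((1:ℝ):ℂ) ^ μ * g ((1:ℝ) * x) - ((0:ℝ):ℂ) ^ μ * g ((0:ℝ) * x) := by
    apply intervalIntegral.integral_eq_sub_of_hasDerivAt_of_le (f := fun t : ℝ => (t:ℂ) ^ μ * g (t * x)) zero_le_one
    · have h1 : Continuous fun t : ℝ => (t : ℂ) ^ μ := Complex.continuous_ofReal_cpow_const (by linarith)
      exact h1.continuousOn.mul (hg.continuousOn.comp (by fun_prop) (fun t ht => mul_mem_ball hx ht))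
    · intro t ht
      have ht0 : (t:ℂ) ≠ 0 := by exact_mod_cast ht.1.ne'
      have e1 : HasDerivAt (fun t : ℝ => (t:ℂ) ^ μ) (μ * (t:ℂ) ^ (μ - 1)) t := by
        have := (hasDerivAt_id (t:ℂ)).cpow_const (c := μ) (Or.inl (by simpa using ht.1))
        simpa using this.comp_ofReal
      have hw' : (t:ℂ) * x ∈ ball (0:ℂ) r := mul_mem_ball hx ⟨ht.1.le, ht.2.le⟩
      have hd' : HasDerivAt g (deriv g (t * x)) (t * x) := (hg.differentiableAt (isOpen_ball.mem_nhds hw')).hasDerivAt
      have hl : HasDerivAt (fun w : ℂ => w * x) x (t:ℂ) := by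
        simpa using (hasDerivAt_id (t:ℂ)).mul_const x
      have e2 : HasDerivAt (fun t : ℝ => g ((t:ℂ) * x)) (deriv g (t * x) * x) t := (hd'.comp (t:ℂ) hl).comp_ofReal
      have e3 := e1.mul e2
      have : (t:ℂ) ^ μ = (t:ℂ) ^ (μ - 1) * t := by
        rw [Complex.cpow_sub _ _ ht0, Complex.cpow_one]; field_simp
      refine e3.congr_deriv ?_
      simp only [this]; ring
    · refine IntervalIntegrable.add ?_ (hi.const_mul x)
      have := (top_int hμ hg.continuousOn hx).const_mul μ
      refine this.congr ?_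
      intro t _
      simp only; ring
  have h1 : ∫ t in (0:ℝ)..1, ((t:ℂ) ^ (μ - 1) * (μ * g (t * x)) + x * ((t : ℂ) ^ (μ - 1) * (deriv g (t * x) * t))) =
      μ * Top μ g x + x * ∫ t in (0:ℝ)..1, (t : ℂ) ^ (μ - 1) * (deriv g (t * x) * t) := by
    rw [Top, ← intervalIntegral.integral_const_mul, ← intervalIntegral.integral_const_mul, ← intervalIntegral.integral_add]
    · congr 1; ext t; ring
    · exact (top_int hμ hg.continuousOn hx).const_mul μ
    · exact hi.const_mul x
  rw [h1] at key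
  have h2 : ((1:ℝ):ℂ) ^ μ * g ((1:ℝ) * x) - ((0:ℝ):ℂ) ^ μ * g ((0:ℝ) * x) = g x := by
    simp [Complex.zero_cpow hμ0]
  rw [h2] at key
  linear_combination key

end Pool.Agent.MQ2

end
end

section

/-!
# TN Osg: bounded separately holomorphic functions of several variables are analytic

Induction on the number of variables, for all complex Banach spaces `E` at once.  For `f : ℂ × (Fin k → ℂ) → E` put
`G y = (θ ↦ f (a + ρ e^(iθ), y))`, a function with values in the Banach space of the bounded continuous functions `ℝ → E`; it is bounded and separately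
holomorphic (`osg_unif`: the Schwarz lemma and the Cauchy formula are uniform in `θ`), so analytic by induction, and
`2 π i f (z, y) = ∫ (D (X - z)⁻¹) (θ) • G y (θ) dθ` with `X - z` in the Banach algebra of the bounded continuous functions `ℝ → ℂ`.
-/

set_option autoImplicit false

open Topology Filter Metric

namespace Pool.Agent.TN

/-- a bounded function of one variable with values in a space of bounded functions which is pointwise holomorphic is holomorphic -/
private theorem osg_unif {T : Type*} [TopologicalSpace T] {E : Type*} [NormedAddCommGroup E] [NormedSpace ℂ E] [CompleteSpace E]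
    {φ : ℂ → BoundedContinuousFunction T E} {s M : ℝ} (hs : 0 < s) (hM : ∀ t ∈ ball (0:ℂ) s, ‖φ t‖ ≤ M)
    (hd : ∀ θ, ∀ t ∈ ball (0:ℂ) s, DifferentiableAt ℂ (fun t => φ t θ) t) : DifferentiableAt ℂ φ 0 := by
  have hM0 : 0 ≤ M := (norm_nonneg _).trans (hM 0 (mem_ball_self hs))
  have hcont : ContinuousOn φ (ball (0:ℂ) s) := by
    intro t0 ht0
    have ht0' : dist t0 0 < s := ht0
    set s' : ℝ := s - dist t0 0 with hs'
    have hs0 : 0 < s' := by linarith
    have hsub : ball t0 s' ⊆ ball (0:ℂ) s := by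
      intro w hw
      have hw' : dist w t0 < s' := hw
      have := dist_triangle w t0 0
      rw [mem_ball]
      linarith
    have key : ∀ t ∈ ball t0 s', dist (φ t) (φ t0) ≤ (2 * M) / s' * dist t t0 := by
      intro t ht
      rw [BoundedContinuousFunction.dist_le (by positivity)]
      intro θ
      refine Complex.dist_le_div_mul_dist_of_mapsTo_ball (f := fun t => φ t θ)
        (fun x hx => (hd θ x (hsub hx)).differentiableWithinAt) ?_ ht
      intro w hw
      rw [mem_closedBall, dist_eq_norm]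
      calc ‖φ w θ - φ t0 θ‖ ≤ ‖φ w θ‖ + ‖φ t0 θ‖ := norm_sub_le _ _
        _ ≤ M + M := add_le_add (((φ w).norm_coe_le_norm θ).trans (hM w (hsub hw))) (((φ t0).norm_coe_le_norm θ).trans (hM t0 ht0))
        _ = 2 * M := by ring
    refine ContinuousAt.continuousWithinAt ?_
    show Tendsto φ (𝓝 t0) (𝓝 (φ t0))
    rw [tendsto_iff_dist_tendsto_zero]
    have ht : Tendsto (fun t : ℂ => (2 * M) / s' * dist t t0) (𝓝 t0) (𝓝 0) := by
      have e1 : Tendsto (fun t : ℂ => (2 * M) / s' * dist t t0) (𝓝 t0) (𝓝 ((2 * M) / s' * dist t0 t0)) :=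
        ((continuous_const.mul (continuous_id.dist continuous_const)).tendsto t0)
      simpa using e1
    refine squeeze_zero' (Eventually.of_forall fun _ => dist_nonneg) ?_ ht
    filter_upwards [ball_mem_nhds t0 hs0] with t ht
    exact key t ht
  set R : NNReal := ⟨s / 2, by positivity⟩ with hRd
  have hR : (0:ℝ) < R := by show 0 < s / 2; positivity
  have hRs : (R:ℝ) < s := by show s / 2 < s; linarith
  have hsph : closedBall (0:ℂ) R ⊆ ball 0 s := closedBall_subset_ball hRs
  have hci : CircleIntegrable φ 0 R := by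
    refine ContinuousOn.circleIntegrable hR.le ?_
    exact hcont.mono (sphere_subset_closedBall.trans hsph)
  have hps := hasFPowerSeriesOn_cauchy_integral hci (by exact_mod_cast hR)
  have hana : AnalyticAt ℂ (fun w => (2 * Real.pi * Complex.I : ℂ)⁻¹ • ∮ z in C(0, R), (z - w)⁻¹ • φ z) 0 := hps.analyticAt
  refine (hana.congr ?_).differentiableAt
  filter_upwards [ball_mem_nhds (0:ℂ) hR] with w hw
  show (2 * Real.pi * Complex.I : ℂ)⁻¹ • (∮ z in C(0, R), (z - w)⁻¹ • φ z) = φ w
  ext θ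
  have hint : CircleIntegrable (fun z => (z - w)⁻¹ • φ z) 0 R := by
    refine ContinuousOn.circleIntegrable hR.le ?_
    have hinv : ContinuousOn (fun z : ℂ => (z - w)⁻¹) (sphere (0:ℂ) (R:ℝ)) := by
      refine ContinuousOn.inv₀ (by fun_prop) ?_
      intro z hz h0
      have hz' : dist z 0 = (R:ℝ) := hz
      have hw' : dist w 0 < (R:ℝ) := hw
      rw [sub_eq_zero.1 h0] at hz'
      exact absurd hz' hw'.ne
    exact hinv.smul (hcont.mono (sphere_subset_closedBall.trans hsph))
  have hev : (∮ z in C(0, R), (z - w)⁻¹ • φ z) θ = ∮ z in C(0, R), (z - w)⁻¹ • φ z θ := by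
    have h := ContinuousLinearMap.intervalIntegral_comp_comm (BoundedContinuousFunction.evalCLM ℂ (β := E) θ) hint.out
    rw [circleIntegral, circleIntegral]
    exact h.symm
  have hcf : (∮ z in C(0, R), (z - w)⁻¹ • φ z θ) = (2 * Real.pi * Complex.I : ℂ) • φ w θ :=
    DifferentiableOn.circleIntegral_sub_inv_smul (f := fun z => φ z θ)
      (fun x hx => (hd θ x (hsph hx)).differentiableWithinAt) hw
  show (2 * Real.pi * Complex.I : ℂ)⁻¹ • ((∮ z in C(0, R), (z - w)⁻¹ • φ z) θ) = φ w θ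
  rw [hev, hcf, smul_smul, inv_mul_cancel₀ Complex.two_pi_I_ne_zero, one_smul]

/-- the bilinear map `(g, h) ↦ ∫ g h` -/
private theorem osg_bil (E : Type*) [NormedAddCommGroup E] [NormedSpace ℂ E] :
    ∃ B : (BoundedContinuousFunction ℝ ℂ) →L[ℂ] (BoundedContinuousFunction ℝ E) →L[ℂ] E,
      ∀ g h, B g h = ∫ θ in (0:ℝ)..2 * Real.pi, g θ • h θ := by
  have hcont : ∀ (g : BoundedContinuousFunction ℝ ℂ) (h : BoundedContinuousFunction ℝ E), Continuous (fun θ : ℝ => g θ • h θ) :=
    fun g h => g.continuous.smul h.continuous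
  let L0 : (BoundedContinuousFunction ℝ ℂ) →ₗ[ℂ] (BoundedContinuousFunction ℝ E) →ₗ[ℂ] E :=
    LinearMap.mk₂ ℂ (fun g h => ∫ θ in (0:ℝ)..2 * Real.pi, g θ • h θ)
      (by
        intro g g' h
        rw [← intervalIntegral.integral_add ((hcont g h).intervalIntegrable _ _) ((hcont g' h).intervalIntegrable _ _)]
        congr 1
        funext θ
        rw [BoundedContinuousFunction.add_apply, add_smul])
      (by
        intro c g h
        rw [← intervalIntegral.integral_smul]
        congr 1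
        funext θ
        rw [BoundedContinuousFunction.smul_apply, smul_assoc])
      (by
        intro g h h'
        rw [← intervalIntegral.integral_add ((hcont g h).intervalIntegrable _ _) ((hcont g h').intervalIntegrable _ _)]
        congr 1
        funext θ
        rw [BoundedContinuousFunction.add_apply, smul_add])
      (by
        intro c g h
        rw [← intervalIntegral.integral_smul]
        congr 1
        funext θ
        rw [BoundedContinuousFunction.smul_apply, smul_comm])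
  have hpi : (0:ℝ) ≤ 2 * Real.pi := by positivity
  refine ⟨L0.mkContinuous₂ (2 * Real.pi) ?_, fun g h => rfl⟩
  intro g h
  show ‖∫ θ in (0:ℝ)..2 * Real.pi, g θ • h θ‖ ≤ _
  refine (intervalIntegral.norm_integral_le_of_norm_le_const (C := ‖g‖ * ‖h‖) ?_).trans (le_of_eq ?_)
  · intro θ _
    rw [norm_smul]
    exact mul_le_mul (g.norm_coe_le_norm _) (h.norm_coe_le_norm _) (norm_nonneg _) (norm_nonneg _)
  · rw [sub_zero, abs_of_nonneg hpi]
    ring

/-- inversion in the algebra of bounded continuous functions -/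
private theorem osg_inv {u : BoundedContinuousFunction ℝ ℂ} (hu : IsUnit u) (p : ℝ) : (Ring.inverse u) p = (u p)⁻¹ := by
  have h := Ring.mul_inverse_cancel u hu
  have h2 : u p * (Ring.inverse u) p = 1 := by
    rw [← BoundedContinuousFunction.mul_apply, h]; rfl
  exact (inv_eq_of_mul_eq_one_right h2).symm

private theorem osg_unit {c : ℂ} {ρ : ℝ} (hρ : 0 < ρ) :
    ∃ u : BoundedContinuousFunction ℝ ℂ, IsUnit u ∧ ∀ p, u p = circleMap c ρ p - c := by
  have hn : ∀ θ : ℝ, ‖circleMap c ρ θ - c‖ = ρ := by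
    intro θ
    rw [← dist_eq_norm]
    have := circleMap_mem_sphere c hρ.le θ
    exact this
  have hne : ∀ θ : ℝ, circleMap c ρ θ - c ≠ 0 := by
    intro θ h0
    have := hn θ
    rw [h0, norm_zero] at this
    exact hρ.ne this
  have hct : Continuous (fun p : ℝ => circleMap c ρ p - c) := (continuous_circleMap c ρ).sub continuous_const
  let u : BoundedContinuousFunction ℝ ℂ := BoundedContinuousFunction.ofNormedAddCommGroup (fun p => circleMap c ρ p - c) hct ρ
    (fun p => (hn _).le)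
  let v : BoundedContinuousFunction ℝ ℂ := BoundedContinuousFunction.ofNormedAddCommGroup (fun p => (circleMap c ρ p - c)⁻¹)
    (hct.inv₀ fun p => hne _) ρ⁻¹ (fun p => by rw [norm_inv, hn])
  refine ⟨u, ?_, fun p => rfl⟩
  refine IsUnit.of_mul_eq_one v ?_
  ext p
  show (circleMap c ρ p - c) * (circleMap c ρ p - c)⁻¹ = 1
  exact mul_inv_cancel₀ (hne _)

/-- the step of the induction -/
private theorem osg_step {k : ℕ} {E : Type*} [NormedAddCommGroup E] [NormedSpace ℂ E] [CompleteSpace E]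
    (IH : ∀ {f : (Fin k → ℂ) → BoundedContinuousFunction ℝ E} {w : Fin k → ℂ} {r M : ℝ}, 0 < r →
      (∀ y ∈ ball w r, ‖f y‖ ≤ M) → (∀ y ∈ ball w r, ∀ l : Fin k, DifferentiableAt ℂ (fun t : ℂ => f (y + t • Pi.single l 1)) 0) →
      AnalyticAt ℂ f w)
    {f : ℂ × (Fin k → ℂ) → E} {w : ℂ × (Fin k → ℂ)} {r M : ℝ} (hr : 0 < r)
    (hM : ∀ y ∈ ball w r, ‖f y‖ ≤ M) (h1 : ∀ y ∈ ball w r, DifferentiableAt ℂ (fun t : ℂ => f (y.1 + t, y.2)) 0)
    (h2 : ∀ y ∈ ball w r, ∀ l : Fin k, DifferentiableAt ℂ (fun t : ℂ => f (y.1, y.2 + t • Pi.single l 1)) 0) : AnalyticAt ℂ f w := by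
  obtain ⟨a, b⟩ := w
  have hmem : ∀ z ∈ ball a r, ∀ y ∈ ball b r, (z, y) ∈ ball (a, b) r := by
    intro z hz y hy
    rw [mem_ball, Prod.dist_eq]
    exact max_lt hz hy
  have hM' : ∀ z ∈ ball a r, ∀ y ∈ ball b r, ‖f (z, y)‖ ≤ M := fun z hz y hy => hM _ (hmem z hz y hy)
  have h1' : ∀ y ∈ ball b r, DifferentiableOn ℂ (fun z => f (z, y)) (ball a r) := by
    intro y hy z hz
    refine DifferentiableAt.differentiableWithinAt ?_
    have h0 := h1 _ (hmem z hz y hy)
    have e : (fun z' : ℂ => f (z', y)) = (fun t : ℂ => f (z + t, y)) ∘ (fun z' => z' - z) := by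
      funext z'
      show f (z', y) = f (z + (z' - z), y)
      rw [add_sub_cancel]
    rw [e]
    refine DifferentiableAt.comp z ?_ (differentiableAt_id.sub_const z)
    simpa using h0
  set ρ : ℝ := r / 2 with hρd
  have hρ : 0 < ρ := by positivity
  have hρr : ρ < r := by rw [hρd]; linarith
  have ha : ∀ θ, circleMap a ρ θ ∈ ball a r := fun θ => by
    have h := circleMap_mem_sphere a hρ.le θ
    rw [mem_ball, mem_sphere.1 h]; exact hρr
  have hHc : ∀ y ∈ ball b r, Continuous (fun θ : ℝ => f (circleMap a ρ θ, y)) := by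
    intro y hy
    exact (h1' y hy).continuousOn.comp_continuous (continuous_circleMap a ρ) ha
  classical
  let G : (Fin k → ℂ) → BoundedContinuousFunction ℝ E := fun y =>
    if hy : y ∈ ball b r then
      BoundedContinuousFunction.ofNormedAddCommGroup (fun θ => f (circleMap a ρ θ, y)) (hHc y hy) M (fun θ => hM' _ (ha θ) y hy)
    else 0
  have hG : ∀ y ∈ ball b r, ∀ θ, G y θ = f (circleMap a ρ θ, y) := by
    intro y hy θ
    show (if hy : y ∈ ball b r then
      BoundedContinuousFunction.ofNormedAddCommGroup (fun θ => f (circleMap a ρ θ, y)) (hHc y hy) M (fun θ => hM' _ (ha θ) y hy)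
      else 0) θ = _
    rw [dif_pos hy]
    rfl
  have hM0 : 0 ≤ M := (norm_nonneg _).trans (hM (a, b) (mem_ball_self hr))
  have hGM : ∀ y ∈ ball b r, ‖G y‖ ≤ M := by
    intro y hy
    rw [BoundedContinuousFunction.norm_le hM0]
    intro θ
    rw [hG y hy]
    exact hM' _ (ha θ) y hy
  have hGa : AnalyticAt ℂ G b := by
    refine IH hr hGM ?_
    intro y hy l
    have hy' : dist y b < r := hy
    have hsub : ∀ t ∈ ball (0:ℂ) (r - dist y b), y + t • (Pi.single l 1 : Fin k → ℂ) ∈ ball b r := by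
      intro t ht
      have ht' : ‖t‖ < r - dist y b := by simpa using ht
      rw [mem_ball]
      have hd : dist (y + t • (Pi.single l 1 : Fin k → ℂ)) y ≤ ‖t‖ := by
        rw [dist_eq_norm, add_sub_cancel_left, norm_smul]
        have : ‖(Pi.single l 1 : Fin k → ℂ)‖ ≤ 1 := by
          rw [pi_norm_le_iff_of_nonneg zero_le_one]
          intro i
          by_cases hi : i = l
          · subst hi; simp
          · simp [Pi.single_eq_of_ne hi]
        calc ‖t‖ * ‖(Pi.single l 1 : Fin k → ℂ)‖ ≤ ‖t‖ * 1 := mul_le_mul_of_nonneg_left this (norm_nonneg _)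
          _ = ‖t‖ := mul_one _
      have := dist_triangle (y + t • (Pi.single l 1 : Fin k → ℂ)) y b
      linarith
    refine osg_unif (s := r - dist y b) (M := M) (by linarith) (fun t ht => hGM _ (hsub t ht)) ?_
    intro θ t ht
    have h0 := h2 (circleMap a ρ θ, y + t • (Pi.single l 1 : Fin k → ℂ)) (hmem _ (ha θ) _ (hsub t ht)) l
    have e : (fun t' : ℂ => G (y + t' • (Pi.single l 1 : Fin k → ℂ)) θ) =ᶠ[𝓝 t]
        (fun s : ℂ => f (circleMap a ρ θ, y + t • (Pi.single l 1 : Fin k → ℂ) + s • (Pi.single l 1 : Fin k → ℂ))) ∘ (fun t' => t' - t) := by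
      filter_upwards [isOpen_ball.mem_nhds ht] with t' ht'
      rw [hG _ (hsub t' ht')]
      show f _ = f _
      congr 2
      rw [add_assoc, ← add_smul, add_sub_cancel]
    refine DifferentiableAt.congr_of_eventuallyEq ?_ e
    refine DifferentiableAt.comp t ?_ (differentiableAt_id.sub_const t)
    simpa using h0
  obtain ⟨B, hB⟩ := osg_bil E
  obtain ⟨u, hu, hu'⟩ := osg_unit (c := a) hρ
  have hder : Continuous (deriv (circleMap a ρ)) := by
    have : deriv (circleMap a ρ) = fun θ => circleMap 0 ρ θ * Complex.I := by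
      funext θ; exact deriv_circleMap a ρ θ
    rw [this]
    exact (continuous_circleMap 0 ρ).mul continuous_const
  have hdn : ∀ θ : ℝ, ‖deriv (circleMap a ρ) θ‖ ≤ ρ := by
    intro θ
    rw [deriv_circleMap, norm_mul, Complex.norm_I, mul_one, norm_circleMap_zero, abs_of_pos hρ]
  let D : BoundedContinuousFunction ℝ ℂ := BoundedContinuousFunction.ofNormedAddCommGroup (deriv (circleMap a ρ)) hder ρ hdn
  let U : ℂ × (Fin k → ℂ) → BoundedContinuousFunction ℝ ℂ := fun p => u - (p.1 - a) • (1 : BoundedContinuousFunction ℝ ℂ)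
  have hU0 : U (a, b) = u := by show u - (a - a) • _ = u; rw [sub_self, zero_smul, sub_zero]
  have hUa : AnalyticAt ℂ U (a, b) := analyticAt_const.sub ((analyticAt_fst.sub analyticAt_const).smul analyticAt_const)
  have hUi : AnalyticAt ℂ (fun p => Ring.inverse (U p)) (a, b) := by
    have h := analyticAt_inverse (𝕜 := ℂ) hu.unit
    rw [IsUnit.unit_spec, ← hU0] at h
    exact h.comp hUa
  have hGb : AnalyticAt ℂ (fun p : ℂ × (Fin k → ℂ) => G p.2) (a, b) :=
    AnalyticAt.comp (show AnalyticAt ℂ G ((a, b) : ℂ × (Fin k → ℂ)).2 from hGa) analyticAt_snd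
  have hW : AnalyticAt ℂ (fun p : ℂ × (Fin k → ℂ) => B (D * Ring.inverse (U p)) (G p.2)) (a, b) := by
    have hD : AnalyticAt ℂ (fun p : ℂ × (Fin k → ℂ) => D * Ring.inverse (U p)) (a, b) := analyticAt_const.mul hUi
    have hBa : AnalyticAt ℂ (fun q : BoundedContinuousFunction ℝ ℂ × BoundedContinuousFunction ℝ E => B q.1 q.2)
        ((fun p : ℂ × (Fin k → ℂ) => (D * Ring.inverse (U p), G p.2)) (a, b)) := B.analyticAt_bilinear _
    exact AnalyticAt.comp (f := fun p : ℂ × (Fin k → ℂ) => (D * Ring.inverse (U p), G p.2)) hBa (hD.prod hGb)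
  have hWc : AnalyticAt ℂ (fun p : ℂ × (Fin k → ℂ) => (2 * Real.pi * Complex.I : ℂ)⁻¹ • B (D * Ring.inverse (U p)) (G p.2)) (a, b) :=
    analyticAt_const.smul hW
  refine hWc.congr ?_
  have evU : ∀ᶠ p in 𝓝 (a, b), IsUnit (U p) := by
    have h := hUa.continuousAt.eventually (Units.isOpen.mem_nhds (show U (a, b) ∈ {x | IsUnit x} by rw [hU0]; exact hu))
    exact h
  have evB : ∀ᶠ p : ℂ × (Fin k → ℂ) in 𝓝 (a, b), p.1 ∈ ball a ρ ∧ p.2 ∈ ball b r :=
    ((continuous_fst.tendsto (a, b)).eventually (ball_mem_nhds a hρ)).and ((continuous_snd.tendsto (a, b)).eventually (ball_mem_nhds b hr))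
  filter_upwards [evU, evB] with p hpU hpB
  obtain ⟨z, y⟩ := p
  obtain ⟨hz, hy⟩ := hpB
  simp only at hz hy
  have c1 : (∮ ζ in C(a, ρ), (ζ - z)⁻¹ • f (ζ, y)) = (2 * Real.pi * Complex.I : ℂ) • f (z, y) :=
    DifferentiableOn.circleIntegral_sub_inv_smul (f := fun ζ => f (ζ, y)) ((h1' y hy).mono (closedBall_subset_ball hρr)) hz
  have hBv : B (D * Ring.inverse (U (z, y))) (G y) = (2 * Real.pi * Complex.I : ℂ) • f (z, y) := by
    rw [hB, ← c1, circleIntegral]
    congr 1
    funext θ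
    rw [BoundedContinuousFunction.mul_apply, osg_inv hpU, hG y hy]
    have eU : (U (z, y)) θ = circleMap a ρ θ - z := by
      show u θ - (z - a) * 1 = _
      rw [hu' θ]; ring
    rw [eU]
    show (deriv (circleMap a ρ) θ * (circleMap a ρ θ - z)⁻¹) • f (circleMap a ρ θ, y) = _
    rw [mul_smul]
  show _ • B (D * Ring.inverse (U (z, y))) (G y) = f (z, y)
  rw [hBv, smul_smul, inv_mul_cancel₀ Complex.two_pi_I_ne_zero, one_smul]

theorem osgood_pi {n : ℕ} {E : Type*} [NormedAddCommGroup E] [NormedSpace ℂ E] [CompleteSpace E] {f : (Fin n → ℂ) → E} {w : Fin n → ℂ} {r M : ℝ} (hr : 0 < r)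
    (hM : ∀ y ∈ ball w r, ‖f y‖ ≤ M) (h : ∀ y ∈ ball w r, ∀ l : Fin n, DifferentiableAt ℂ (fun t : ℂ => f (y + t • Pi.single l 1)) 0) : AnalyticAt ℂ f w := by
  induction n generalizing E r M with
  | zero =>
    have e : f = fun _ => f w := by
      funext y
      congr 1
      funext i
      exact i.elim0
    rw [e]
    exact analyticAt_const
  | succ k ih =>
    have hmem : ∀ z ∈ ball (w 0) r, ∀ y ∈ ball (fun i : Fin k => w i.succ) r, (Fin.cons z y : Fin (k + 1) → ℂ) ∈ ball w r := by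
      intro z hz y hy
      rw [mem_ball, dist_pi_lt_iff hr]
      rw [mem_ball, dist_pi_lt_iff hr] at hy
      intro i
      refine Fin.cases ?_ ?_ i
      · exact hz
      · intro j
        exact hy j
    have hmem2 : ∀ p ∈ ball ((w 0, fun i : Fin k => w i.succ) : ℂ × (Fin k → ℂ)) r, (Fin.cons p.1 p.2 : Fin (k + 1) → ℂ) ∈ ball w r := by
      intro p hp
      rw [mem_ball, Prod.dist_eq, max_lt_iff] at hp
      exact hmem p.1 hp.1 p.2 hp.2
    have hg : AnalyticAt ℂ (fun p : ℂ × (Fin k → ℂ) => f (Fin.cons p.1 p.2 : Fin (k + 1) → ℂ)) (w 0, fun i : Fin k => w i.succ) := by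
      refine osg_step (fun {_ _ _ _} hr hM h => ih hr hM h) (M := M) hr (fun p hp => hM _ (hmem2 p hp)) ?_ ?_
      · intro p hp
        have h0 := h _ (hmem2 p hp) 0
        have e : (fun t : ℂ => f (Fin.cons (p.1 + t) p.2 : Fin (k + 1) → ℂ)) =
            (fun t : ℂ => f ((Fin.cons p.1 p.2 : Fin (k + 1) → ℂ) + t • Pi.single 0 1)) := by
          funext t
          congr 1
          funext i
          refine Fin.cases ?_ ?_ i
          · simp
          · intro j
            simp
        show DifferentiableAt ℂ (fun t : ℂ => f (Fin.cons (p.1 + t) p.2 : Fin (k + 1) → ℂ)) 0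
        rw [e]
        exact h0
      · intro p hp l
        have h0 := h _ (hmem2 p hp) l.succ
        have e : (fun t : ℂ => f (Fin.cons p.1 (p.2 + t • (Pi.single l 1 : Fin k → ℂ)) : Fin (k + 1) → ℂ)) =
            (fun t : ℂ => f ((Fin.cons p.1 p.2 : Fin (k + 1) → ℂ) + t • Pi.single l.succ 1)) := by
          funext t
          congr 1
          funext i
          refine Fin.cases ?_ ?_ i
          · simp
          · intro j
            simp [Pi.single_apply]
        show DifferentiableAt ℂ (fun t : ℂ => f (Fin.cons p.1 (p.2 + t • (Pi.single l 1 : Fin k → ℂ)) : Fin (k + 1) → ℂ)) 0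
        rw [e]
        exact h0
    let π : (Fin (k + 1) → ℂ) →L[ℂ] ℂ × (Fin k → ℂ) :=
      (ContinuousLinearMap.proj 0).prod (ContinuousLinearMap.pi fun i : Fin k => ContinuousLinearMap.proj i.succ)
    have e : f = (fun p : ℂ × (Fin k → ℂ) => f (Fin.cons p.1 p.2 : Fin (k + 1) → ℂ)) ∘ π := by
      funext y
      show f y = f (Fin.cons (y 0) (fun i : Fin k => y i.succ) : Fin (k + 1) → ℂ)
      congr 1
      funext i
      refine Fin.cases ?_ ?_ i
      · rfl
      · intro j
        rfl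
    rw [e]
    exact AnalyticAt.comp (show AnalyticAt ℂ (fun p : ℂ × (Fin k → ℂ) => f (Fin.cons p.1 p.2 : Fin (k + 1) → ℂ)) (π w) from hg) (π.analyticAt w)

theorem osgood_prod {k : ℕ} {E : Type*} [NormedAddCommGroup E] [NormedSpace ℂ E] [CompleteSpace E] {f : ℂ × (Fin k → ℂ) → E} {w : ℂ × (Fin k → ℂ)} {r M : ℝ} (hr : 0 < r)
    (hM : ∀ y ∈ ball w r, ‖f y‖ ≤ M) (h1 : ∀ y ∈ ball w r, DifferentiableAt ℂ (fun t : ℂ => f (y.1 + t, y.2)) 0)
    (h2 : ∀ y ∈ ball w r, ∀ l : Fin k, DifferentiableAt ℂ (fun t : ℂ => f (y.1, y.2 + t • Pi.single l 1)) 0) : AnalyticAt ℂ f w :=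
  osg_step (fun {_ _ _ _} hr hM h => osgood_pi hr hM h) hr hM h1 h2

end Pool.Agent.TN

end
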