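import Pool.Agent.H43.TL2.M05
import Pool.Agent.H43.TL2.M07

/-! The parts of this file: H17EF.PNDefs, H17R.Defs, H36.BP.MtA, MQ3.WebBox, MQ3.Mono. -/

section

/-!
# EF PNDefs: holomorphic maps from a projective surface to a complex torus
-/

set_option autoImplicit false

open Topology Filter MvPolynomial

noncomputable section

namespace Pool.Agent.H17EF

open Pool.Agent.H17 (PN VanishesAt HolomorphicInto)

variable {N : ℕ}

/-- The closed subvariety of `ℙ^N` given by the homogeneous ideal `P`. -/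
def projVar (P : Ideal (MvPolynomial (Fin (N + 1)) ℂ)) : Set (PN N) :=
  {x | ∀ Q ∈ P, ∀ n, Q.IsHomogeneous n → VanishesAt Q x}

/-- The entire curves `f` in `X` with `u (f z) = z` modulo `Λ`. -/
def sections (X : Set (PN N)) (Λ : AddSubgroup ℂ) (u : PN N → ℂ ⧸ Λ) : Set (ℂ → PN N) :=
  {f | HolomorphicInto f Set.univ ∧ (∀ z, f z ∈ X) ∧ ∀ z, u (f z) = (z : ℂ ⧸ Λ)}

end Pool.Agent.H17EF

end
end

section

/-!
# Varieties with a relation between forms: definitions

Locally closed subvarieties of `ℙ^N`, relations between forms on them, and the four properties of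
the Green–Griffiths–Lang conjecture with a given exceptional set.
-/

open MvPolynomial Topology Filter
open Pool.Agent.H17 (PN VanishesAt ZariskiClosedIn HolomorphicInto puncturedDisc)

noncomputable section

namespace Pool.Agent.H17R

variable {N : ℕ}

/-- The points of the zero locus of the homogeneous ideal `P` at which none of the forms `H m`
vanishes. -/
def openVar (P : Ideal (MvPolynomial (Fin (N + 1)) ℂ)) {b : ℕ}
    (H : Fin b → MvPolynomial (Fin (N + 1)) ℂ) : Set (PN N) :=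
  {x | (∀ Q ∈ P, ∀ n, Q.IsHomogeneous n → VanishesAt Q x) ∧ ∀ m, ¬ VanishesAt (H m) x}

/-- The hypersurface `F = 0` in `ℙ^N` is smooth: the form `F` and its partial derivatives have no
common zero. -/
def IsSmooth (F : MvPolynomial (Fin (N + 1)) ℂ) : Prop :=
  ∀ v : Fin (N + 1) → ℂ, v ≠ 0 → eval v F = 0 → ∃ i, eval v (pderiv i F) ≠ 0

end Pool.Agent.H17R

end
end

section

/-!
# BP MtA: the metric along a curve

* `mt_usc`: `F` and `deriv F` are continuous near `z`, `usc`.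
* `mt_smul`: for `k` holomorphic without zeros at `z`: `(k F)' = k F' + k' F`, `inv`.
* `mt_comp`: `(F ∘ φ)' = φ' F' ∘ φ`, `hom`.
* `mt_limit`: `F n → H` locally uniformly on a neighbourhood of `0`, then `F n 0 → H 0`, `(F n)' 0 → H' 0` (`TendstoLocallyUniformlyOn.deriv`), `usc` at `(H 0, H' 0)`.
-/

set_option autoImplicit false

namespace Pool.Agent.H36.BP

open Filter Topology Metric

variable {N : ℕ}

variable {K B : Set (EN N)} {G : EN N → EN N → ℝ} {ρ : EN N → ℝ} {M : ℕ} {c₀ C : ℝ}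

theorem mt_usc (hM : MetricData K B G ρ M c₀ C) {U : Set ℂ} (hU : IsOpen U) {F : ℂ → EN N} (hF : Curve K U F) :
    UpperSemicontinuousOn (mt G F) U := by
  intro z hz y hy
  have hA : AnalyticAt ℂ F z := hF.1.analyticAt (hU.mem_nhds hz)
  have hc : ContinuousAt (fun w => (F w, deriv F w)) z := hA.continuousAt.prodMk hA.deriv.continuousAt
  have h1 := hM.usc (F z) (hF.2 z hz) (deriv F z) y hy
  have h2 := hc.eventually h1
  filter_upwards [nhdsWithin_le_nhds h2, self_mem_nhdsWithin] with w hw hwU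
  exact hw (hF.2 w hwU)

theorem mt_nonneg (hM : MetricData K B G ρ M c₀ C) {F : ℂ → EN N} {z : ℂ} (hz : F z ∈ K) : 0 ≤ mt G F z := by
  exact hM.nonneg _ hz _

theorem mt_smul (hM : MetricData K B G ρ M c₀ C) {F : ℂ → EN N} {k : ℂ → ℂ} {z : ℂ} (hF : DifferentiableAt ℂ F z)
    (hk : DifferentiableAt ℂ k z) (hz : F z ∈ K) (h0 : k z ≠ 0) : mt G (fun z => k z • F z) z = mt G F z := by
  have h : deriv (fun z => k z • F z) z = k z • deriv F z + deriv k z • F z := by
    have := (hk.hasDerivAt.smul hF.hasDerivAt).deriv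
    exact this
  unfold mt
  rw [h]
  exact hM.inv (F z) hz (deriv F z) (k z) (deriv k z) h0

theorem mt_comp (hM : MetricData K B G ρ M c₀ C) {F : ℂ → EN N} {φ : ℂ → ℂ} {z : ℂ} (hF : DifferentiableAt ℂ F (φ z))
    (hφ : DifferentiableAt ℂ φ z) (hz : F (φ z) ∈ K) : mt G (fun z => F (φ z)) z = ‖deriv φ z‖ * mt G F (φ z) := by
  have h : deriv (fun z => F (φ z)) z = deriv φ z • deriv F (φ z) := by
    have := (HasDerivAt.scomp z hF.hasDerivAt hφ.hasDerivAt).deriv
    exact this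
  unfold mt
  rw [h]
  exact hM.hom (F (φ z)) hz (deriv F (φ z)) (deriv φ z)

theorem mt_limit (hM : MetricData K B G ρ M c₀ C) {κ : Type} {l : Filter κ} [l.NeBot] {F : κ → ℂ → EN N} {H : ℂ → EN N} {s : ℝ} (hs : 0 < s)
    (hF : ∀ᶠ n in l, Curve K (ball 0 s) (F n)) (hH : TendstoLocallyUniformlyOn F H l (ball 0 s)) (h0 : H 0 ∈ K) {a : ℝ}
    (ha : ∀ᶠ n in l, a ≤ mt G (F n) 0) : a ≤ mt G H 0 := by
  by_contra hlt
  rw [not_le] at hlt
  have hmem : (0 : ℂ) ∈ ball (0 : ℂ) s := mem_ball_self hs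
  have h1 : Tendsto (fun n => F n 0) l (𝓝 (H 0)) := hH.tendsto_at hmem
  have hd : TendstoLocallyUniformlyOn (deriv ∘ F) (deriv H) l (ball 0 s) :=
    hH.deriv (hF.mono fun n hn => hn.1) isOpen_ball
  have h2 : Tendsto (fun n => deriv (F n) 0) l (𝓝 (deriv H 0)) := hd.tendsto_at hmem
  have h3 : Tendsto (fun n => (F n 0, deriv (F n) 0)) l (𝓝 (H 0, deriv H 0)) := h1.prodMk_nhds h2
  have h4 := h3.eventually (hM.usc (H 0) h0 (deriv H 0) a hlt)
  obtain ⟨n, hn1, hn2, hn3⟩ := (h4.and (hF.and ha)).exists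
  have h5 : G (F n 0) (deriv (F n) 0) < a := hn1 (hn2.2 0 hmem)
  exact absurd hn3 (not_le.mpr h5)

theorem mt_const (hM : MetricData K B G ρ M c₀ C) {F : ℂ → EN N} {z : ℂ} (hz : F z ∈ K) {a : ℂ} (h : deriv F z = a • F z) : mt G F z = 0 := by
  have h1 : G (F z) 0 = 0 := by
    have := hM.hom (F z) hz 0 0
    simpa using this
  have h2 := hM.inv (F z) hz 0 1 a one_ne_zero
  rw [smul_zero, zero_add, one_smul, h1] at h2
  unfold mt
  rw [h, h2]

end Pool.Agent.H36.BP

end

section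

/-!
# MQ3 WebBox: the sheets of a web over the product of two half planes
-/

set_option autoImplicit false

open Topology Filter

noncomputable section

namespace Pool.Agent.MQ3

/-- the product of two left half planes -/
def HH : Set (ℂ × ℂ) := {v | v.1.re < 0 ∧ v.2.re < 0}

/-- the period vector -/
def per (u v : ℤ) : ℂ × ℂ := (u * (2 * Real.pi * Complex.I), v * (2 * Real.pi * Complex.I))

/-- the sheets (holomorphic functions on `HH` with distinct values) and their monodromy -/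
structure WebBox (p : ℕ) (T : Fin p → ℂ × ℂ → ℂ) (a b : Equiv.Perm (Fin p)) : Prop where
  an : ∀ k, ∀ v ∈ HH, AnalyticAt ℂ (T k) v
  inj : ∀ v ∈ HH, ∀ i j, T i v = T j v → i = j
  mon₁ : ∀ k, ∀ v ∈ HH, T k (v + per 1 0) = T (a k) v
  mon₂ : ∀ k, ∀ v ∈ HH, T k (v + per 0 1) = T (b k) v

variable {p : ℕ} {T : Fin p → ℂ × ℂ → ℂ} {a b : Equiv.Perm (Fin p)}

theorem two_pi_I_re (n : ℤ) : ((n : ℂ) * (2 * Real.pi * Complex.I)).re = 0 := by
  have h : ((n : ℂ) * (2 * Real.pi * Complex.I)) = (((n : ℝ) * (2 * Real.pi) : ℝ) : ℂ) * Complex.I := by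
    push_cast
    ring
  rw [h, Complex.re_ofReal_mul, Complex.I_re, mul_zero]

theorem HH_add_per {v : ℂ × ℂ} (hv : v ∈ HH) (m n : ℤ) : v + per m n ∈ HH := by
  refine ⟨?_, ?_⟩
  · show (v.1 + (m : ℂ) * (2 * Real.pi * Complex.I)).re < 0
    rw [Complex.add_re, two_pi_I_re, add_zero]
    exact hv.1
  · show (v.2 + (n : ℂ) * (2 * Real.pi * Complex.I)).re < 0
    rw [Complex.add_re, two_pi_I_re, add_zero]
    exact hv.2

theorem per_add (m n m' n' : ℤ) : per (m + m') (n + n') = per m n + per m' n' := by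
  simp only [per, Prod.mk_add_mk]
  push_cast
  ext <;> simp <;> ring

theorem per_zero : per 0 0 = 0 := by
  simp [per]

theorem HH_mem : ((-1 : ℂ), (-1 : ℂ)) ∈ HH := by
  constructor <;> simp

theorem WebBox.comm (h : WebBox p T a b) : Commute a b := by
  refine Equiv.ext fun k => ?_
  refine h.inj _ HH_mem _ _ ?_
  rw [Equiv.Perm.mul_apply, Equiv.Perm.mul_apply]
  have h1 := h.mon₁ (b k) _ HH_mem
  have h2 := h.mon₂ (a k) _ HH_mem
  have h3 := h.mon₁ k _ (HH_add_per HH_mem 0 1)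
  have h4 := h.mon₂ k _ (HH_add_per HH_mem 1 0)
  have h5 : ((-1 : ℂ), (-1 : ℂ)) + per 0 1 + per 1 0 = ((-1 : ℂ), (-1 : ℂ)) + per 1 0 + per 0 1 := by abel
  rw [← h1, ← h2, ← h4, ← h3, h5]

theorem WebBox.mon₁_zpow (h : WebBox p T a b) (n : ℤ) : ∀ (k : Fin p), ∀ v ∈ HH, T k (v + per n 0) = T ((a ^ n) k) v := by
  induction n with
  | zero =>
    intro k v _
    rw [per_zero, add_zero, zpow_zero, Equiv.Perm.one_apply]
  | succ n ih =>
    intro k v hv
    have h1 : v + per ((n : ℤ) + 1) 0 = v + per n 0 + per 1 0 := by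
      rw [add_assoc, ← per_add, add_zero]
    rw [h1, h.mon₁ _ _ (HH_add_per hv _ _), ih _ v hv, zpow_add_one, Equiv.Perm.mul_apply]
  | pred n ih =>
    intro k v hv
    have h1 := h.mon₁ (a⁻¹ k) _ (HH_add_per hv (-(n : ℤ) - 1) 0)
    have h2 : v + per (-(n : ℤ) - 1) 0 + per 1 0 = v + per (-(n : ℤ)) 0 := by
      rw [add_assoc, ← per_add]
      congr 2 <;> ring
    have h0a : a (a⁻¹ k) = k := by rw [← Equiv.Perm.mul_apply, mul_inv_cancel, Equiv.Perm.one_apply]
    rw [h2, h0a, ih _ v hv] at h1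
    rw [← h1, zpow_sub_one, Equiv.Perm.mul_apply]

theorem WebBox.mon₂_zpow (h : WebBox p T a b) (n : ℤ) : ∀ (k : Fin p), ∀ v ∈ HH, T k (v + per 0 n) = T ((b ^ n) k) v := by
  induction n with
  | zero =>
    intro k v _
    rw [per_zero, add_zero, zpow_zero, Equiv.Perm.one_apply]
  | succ n ih =>
    intro k v hv
    have h1 : v + per 0 ((n : ℤ) + 1) = v + per 0 n + per 0 1 := by
      rw [add_assoc, ← per_add, add_zero]
    rw [h1, h.mon₂ _ _ (HH_add_per hv _ _), ih _ v hv, zpow_add_one, Equiv.Perm.mul_apply]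
  | pred n ih =>
    intro k v hv
    have h1 := h.mon₂ (b⁻¹ k) _ (HH_add_per hv 0 (-(n : ℤ) - 1))
    have h2 : v + per 0 (-(n : ℤ) - 1) + per 0 1 = v + per 0 (-(n : ℤ)) := by
      rw [add_assoc, ← per_add]
      congr 2 <;> ring
    have h0a : b (b⁻¹ k) = k := by rw [← Equiv.Perm.mul_apply, mul_inv_cancel, Equiv.Perm.one_apply]
    rw [h2, h0a, ih _ v hv] at h1
    rw [← h1, zpow_sub_one, Equiv.Perm.mul_apply]

theorem WebBox.mon (h : WebBox p T a b) (k : Fin p) {v : ℂ × ℂ} (hv : v ∈ HH) (m n : ℤ) :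
    T k (v + per m n) = T ((a ^ m * b ^ n) k) v := by
  have h1 : v + per m n = v + per m 0 + per 0 n := by
    rw [add_assoc, ← per_add]
    simp
  rw [h1, h.mon₂_zpow n _ _ (HH_add_per hv _ _), h.mon₁_zpow m _ _ hv, Equiv.Perm.mul_apply]

/-- the stabilizer of a sheet -/
def stab (a b : Equiv.Perm (Fin p)) (hab : Commute a b) (k : Fin p) : AddSubgroup (ℤ × ℤ) where
  carrier := {n | (a ^ n.1 * b ^ n.2) k = k}
  zero_mem' := by simp
  add_mem' := by
    intro m n hm hn
    rw [Set.mem_ofPred_eq] at hm hn ⊢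
    have h1 : a ^ (m + n).1 * b ^ (m + n).2 = (a ^ m.1 * b ^ m.2) * (a ^ n.1 * b ^ n.2) := by
      rw [Prod.fst_add, Prod.snd_add, zpow_add, zpow_add]
      have h2 : Commute (b ^ m.2) (a ^ n.1) := (hab.zpow_zpow n.1 m.2).symm
      calc a ^ m.1 * a ^ n.1 * (b ^ m.2 * b ^ n.2) = a ^ m.1 * (a ^ n.1 * b ^ m.2) * b ^ n.2 := by group
        _ = a ^ m.1 * (b ^ m.2 * a ^ n.1) * b ^ n.2 := by rw [h2.eq]
        _ = _ := by group
    rw [h1, Equiv.Perm.mul_apply, hn, hm]
  neg_mem' := by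
    intro m hm
    rw [Set.mem_ofPred_eq] at hm ⊢
    have h1 : a ^ (-m).1 * b ^ (-m).2 = (a ^ m.1 * b ^ m.2)⁻¹ := by
      rw [Prod.fst_neg, Prod.snd_neg, zpow_neg, zpow_neg, mul_inv_rev]
      exact (((hab.zpow_zpow m.1 m.2).inv_inv).eq)
    rw [h1]
    conv_lhs => rw [← hm]
    rw [← Equiv.Perm.mul_apply, inv_mul_cancel, Equiv.Perm.one_apply]

theorem mem_stab {hab : Commute a b} {k : Fin p} {n : ℤ × ℤ} : n ∈ stab a b hab k ↔ (a ^ n.1 * b ^ n.2) k = k := Iff.rfl

/-- the stabilizer has finite index -/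
theorem stab_finiteIndex (hab : Commute a b) (k : Fin p) : (stab a b hab k).FiniteIndex := by
  have h1 : ∀ n : ℤ × ℤ, (Nat.factorial p : ℤ) • n ∈ stab a b hab k := by
    intro n
    rw [mem_stab]
    have h2 : ∀ c : Equiv.Perm (Fin p), ∀ j : ℤ, c ^ ((Nat.factorial p : ℤ) * j) = 1 := by
      intro c j
      have h3 : c ^ Nat.factorial p = 1 := by
        have h4 := pow_card_eq_one' (G := Equiv.Perm (Fin p)) (x := c)
        rwa [Nat.card_perm, Nat.card_eq_fintype_card, Fintype.card_fin] at h4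
      rw [zpow_mul, zpow_natCast, h3, one_zpow]
    rw [Prod.smul_fst, Prod.smul_snd, smul_eq_mul, smul_eq_mul, h2, h2, mul_one, Equiv.Perm.one_apply]
  let φ : Multiplicative (ℤ × ℤ) →* Equiv.Perm (Fin p) :=
    { toFun := fun n => a ^ (Multiplicative.toAdd n).1 * b ^ (Multiplicative.toAdd n).2
      map_one' := by simp
      map_mul' := by
        intro m n
        have h2 : Commute (b ^ (Multiplicative.toAdd m).2) (a ^ (Multiplicative.toAdd n).1) := (hab.zpow_zpow _ _).symm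
        rw [toAdd_mul, Prod.fst_add, Prod.snd_add, zpow_add, zpow_add]
        calc _ = a ^ (Multiplicative.toAdd m).1 * (a ^ (Multiplicative.toAdd n).1 * b ^ (Multiplicative.toAdd m).2) * b ^ (Multiplicative.toAdd n).2 := by group
          _ = a ^ (Multiplicative.toAdd m).1 * (b ^ (Multiplicative.toAdd m).2 * a ^ (Multiplicative.toAdd n).1) * b ^ (Multiplicative.toAdd n).2 := by
            rw [h2.eq]
          _ = _ := by group }
  have h2 : Finite (Multiplicative (ℤ × ℤ) ⧸ φ.ker) := Finite.of_injective _ (QuotientGroup.kerLift_injective φ)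
  have h3 : (φ.ker).FiniteIndex := Subgroup.finiteIndex_of_finite_quotient
  have h4 : AddSubgroup.toSubgroup (stab a b hab k) ≥ φ.ker := by
    intro n hn
    rw [MonoidHom.mem_ker] at hn
    show (a ^ (Multiplicative.toAdd n).1 * b ^ (Multiplicative.toAdd n).2) k = k
    have h5 : φ n = a ^ (Multiplicative.toAdd n).1 * b ^ (Multiplicative.toAdd n).2 := rfl
    rw [← h5, hn, Equiv.Perm.one_apply]
  have h5 : (AddSubgroup.toSubgroup (stab a b hab k)).FiniteIndex := Subgroup.finiteIndex_of_le h4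
  exact ⟨fun h6 => h5.index_ne_zero (by simpa using h6)⟩

/-- a continuous selection of sheets is constant -/
theorem WebBox.index (h : WebBox p T a b) {E : Type*} [TopologicalSpace E] {S : Set E} (hS : IsPreconnected S) (hne : S.Nonempty) {v : E → ℂ × ℂ}
    {Q : E → ℂ} (hv : ContinuousOn v S) (hm : ∀ s ∈ S, v s ∈ HH) (hQ : ContinuousOn Q S) (hr : ∀ s ∈ S, ∃ i, Q s = T i (v s)) :
    ∃ i, ∀ s ∈ S, Q s = T i (v s) := by
  classical
  obtain ⟨s₀, hs₀⟩ := hne
  have hr' : ∀ s : E, ∃ i, s ∈ S → Q s = T i (v s) := by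
    intro s
    by_cases hs : s ∈ S
    · obtain ⟨i, hi⟩ := hr s hs
      exact ⟨i, fun _ => hi⟩
    · obtain ⟨i, -⟩ := hr s₀ hs₀
      exact ⟨i, fun h => absurd h hs⟩
  choose f hf using hr'
  have hc : ContinuousOn f S := by
    intro s hs
    have h1 : ∀ᶠ s' in 𝓝[S] s, f s' = f s := by
      have h2 : ∀ j, j ≠ f s → ∀ᶠ s' in 𝓝[S] s, Q s' ≠ T j (v s') := by
        intro j hj
        have h3 : ContinuousWithinAt (fun s' => Q s' - T j (v s')) S s :=
          (hQ s hs).sub ((h.an j _ (hm s hs)).continuousAt.comp_continuousWithinAt (hv s hs))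
        have h4 : Q s - T j (v s) ≠ 0 := by
          intro h5
          apply hj
          refine h.inj _ (hm s hs) _ _ ?_
          rw [← sub_eq_zero.1 h5, hf s hs]
        filter_upwards [h3.eventually_ne h4] with s' h5 h6
        exact h5 (by rw [h6, sub_self])
      have h3 : ∀ᶠ s' in 𝓝[S] s, ∀ j, j ≠ f s → Q s' ≠ T j (v s') := by
        rw [Filter.eventually_all]
        intro j
        by_cases hj : j = f s
        · exact Eventually.of_forall fun s' h => absurd hj h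
        · filter_upwards [h2 j hj] with s' hs' _
          exact hs'
      filter_upwards [h3, self_mem_nhdsWithin] with s' h4 h5
      by_contra h6
      exact h4 _ h6 (hf s' h5)
    exact (continuousWithinAt_const (b := f s)).congr_of_eventuallyEq h1 rfl
  refine ⟨f s₀, fun s hs => ?_⟩
  rw [← hS.constant hc hs hs₀]
  exact hf s hs

end Pool.Agent.MQ3

end
end

section

/-!
# MQ3 Mono: monomial charts (note 4592 (3))

`T` analytic on `H × H` (`H` the left half plane), with the periods `2πi (a, c)` and `2πi (b, d)`.  Then `T (a σ + b τ, c σ + d τ)` is a function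
of `(s, t) = (exp σ, exp τ)`, analytic on the product of the punctured unit discs; if `T` is bounded, it extends to the unit bidisc.
-/

set_option autoImplicit false

open Topology Filter Metric Complex

noncomputable section

namespace Pool.Agent.MQ3

/-- the unit bidisc -/
def DD : Set (ℂ × ℂ) := {p | ‖p.1‖ < 1 ∧ ‖p.2‖ < 1}

/-- the product of two punctured unit discs -/
def DS : Set (ℂ × ℂ) := {p | (p.1 ≠ 0 ∧ ‖p.1‖ < 1) ∧ (p.2 ≠ 0 ∧ ‖p.2‖ < 1)}

/-- the monomial chart -/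
def mchart (a b c d : ℕ) (p : ℂ × ℂ) : ℂ × ℂ := (p.1 ^ a * p.2 ^ b, p.1 ^ c * p.2 ^ d)

/-- the exponential of a pair -/
def pexp (p : ℂ × ℂ) : ℂ × ℂ := (exp p.1, exp p.2)

theorem isOpen_HH : IsOpen HH :=
  (isOpen_lt (continuous_re.comp continuous_fst) continuous_const).inter
    (isOpen_lt (continuous_re.comp continuous_snd) continuous_const)

theorem isOpen_DD : IsOpen DD :=
  (isOpen_lt (continuous_norm.comp continuous_fst) continuous_const).inter
    (isOpen_lt (continuous_norm.comp continuous_snd) continuous_const)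

theorem isOpen_DS : IsOpen DS := by
  refine ((isOpen_ne_fun continuous_fst continuous_const).inter (isOpen_lt (continuous_norm.comp continuous_fst) continuous_const)).inter
    ((isOpen_ne_fun continuous_snd continuous_const).inter (isOpen_lt (continuous_norm.comp continuous_snd) continuous_const))

theorem mem_DS {p : ℂ × ℂ} : p ∈ DS ↔ p ∈ DD ∧ p.1 * p.2 ≠ 0 := by
  constructor
  · rintro ⟨⟨h1, h2⟩, h3, h4⟩
    exact ⟨⟨h2, h4⟩, mul_ne_zero h1 h3⟩
  · rintro ⟨⟨h1, h2⟩, h3⟩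
    exact ⟨⟨left_ne_zero_of_mul h3, h1⟩, right_ne_zero_of_mul h3, h2⟩

theorem pexp_mem {p : ℂ × ℂ} (h : p ∈ HH) : pexp p ∈ DS := by
  refine ⟨⟨exp_ne_zero _, ?_⟩, exp_ne_zero _, ?_⟩
  · show ‖exp p.1‖ < 1
    rw [norm_exp, Real.exp_lt_one_iff]
    exact h.1
  · show ‖exp p.2‖ < 1
    rw [norm_exp, Real.exp_lt_one_iff]
    exact h.2

theorem exists_pexp {p : ℂ × ℂ} (h : p ∈ DS) : ∃ q ∈ HH, pexp q = p := by
  have key : ∀ s : ℂ, s ≠ 0 → ‖s‖ < 1 → (log s).re < 0 := by
    intro s h0 h1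
    rw [log_re]
    exact Real.log_neg (norm_pos_iff.2 h0) h1
  exact ⟨(log p.1, log p.2), ⟨key _ h.1.1 h.1.2, key _ h.2.1 h.2.2⟩, Prod.ext (exp_log h.1.1) (exp_log h.2.1)⟩

theorem analyticAt_mchart (a b c d : ℕ) (p : ℂ × ℂ) : AnalyticAt ℂ (mchart a b c d) p :=
  ((analyticAt_fst.pow a).mul (analyticAt_snd.pow b)).prod ((analyticAt_fst.pow c).mul (analyticAt_snd.pow d))

/-- the derivative of the chart -/
theorem fderiv_mchart (a b c d : ℕ) (p v : ℂ × ℂ) : fderiv ℂ (mchart a b c d) p v =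
    (a * p.1 ^ (a - 1) * p.2 ^ b * v.1 + b * p.1 ^ a * p.2 ^ (b - 1) * v.2,
      c * p.1 ^ (c - 1) * p.2 ^ d * v.1 + d * p.1 ^ c * p.2 ^ (d - 1) * v.2) := by
  have hf : HasFDerivAt (fun q : ℂ × ℂ => q.1) (ContinuousLinearMap.fst ℂ ℂ ℂ) p := hasFDerivAt_fst
  have hs : HasFDerivAt (fun q : ℂ × ℂ => q.2) (ContinuousLinearMap.snd ℂ ℂ ℂ) p := hasFDerivAt_snd
  have h1 := (hf.pow a).mul (hs.pow b)
  have h2 := (hf.pow c).mul (hs.pow d)
  have h3 : HasFDerivAt (mchart a b c d) _ p := h1.prodMk h2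
  rw [h3.fderiv]
  refine Prod.ext ?_ ?_
  · simp
    ring
  · simp
    ring

/-- the Jacobian of the chart -/
theorem jac_mchart {a b c d : ℕ} (h : b * c < a * d) (p : ℂ × ℂ) :
    (fderiv ℂ (mchart a b c d) p (1, 0)).1 * (fderiv ℂ (mchart a b c d) p (0, 1)).2 -
      (fderiv ℂ (mchart a b c d) p (0, 1)).1 * (fderiv ℂ (mchart a b c d) p (1, 0)).2 =
      ((a * d - b * c : ℕ) : ℂ) * p.1 ^ (a + c - 1) * p.2 ^ (b + d - 1) := by
  have ha : 0 < a := Nat.pos_of_ne_zero fun h0 => by subst h0; simp at h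
  have hd : 0 < d := Nat.pos_of_ne_zero fun h0 => by subst h0; simp at h
  obtain ⟨a, rfl⟩ : ∃ a', a = a' + 1 := ⟨a - 1, by omega⟩
  obtain ⟨d, rfl⟩ : ∃ d', d = d' + 1 := ⟨d - 1, by omega⟩
  rw [fderiv_mchart, fderiv_mchart, Nat.cast_sub h.le]
  have e1 : a + 1 + c - 1 = a + c := by omega
  have e2 : b + (d + 1) - 1 = b + d := by omega
  rw [e1, e2]
  simp only [mul_one, mul_zero, add_zero, zero_add, Nat.add_sub_cancel]
  rcases Nat.eq_zero_or_pos b with hb | hb <;> rcases Nat.eq_zero_or_pos c with hc | hc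
  · subst hb hc
    push_cast
    ring
  · subst hb
    push_cast
    ring
  · subst hc
    push_cast
    ring
  · obtain ⟨b, rfl⟩ : ∃ b', b = b' + 1 := ⟨b - 1, by omega⟩
    obtain ⟨c, rfl⟩ : ∃ c', c = c' + 1 := ⟨c - 1, by omega⟩
    simp only [Nat.add_sub_cancel]
    push_cast
    ring

end Pool.Agent.MQ3

end
end
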