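import Pool.Agent.H43.TL2.H17BP.Div
import Pool.Agent.H43.TL2.M02
import Pool.Agent.H43.TL2.M06
import Pool.Agent.H43.TL2.M09
import Pool.Agent.H43.TL2.M20

/-! The parts of this file: H36.BP.Resc, H62.SA.Defs, MQ2.BB, MQ2.Dulac, MQ2.Term. -/

section

/-!
# BP Resc: rescaling

Given `L = 4 (n + 1)` take `F` with `mt G F 0 > L`.  On `closedBall 0 (1/2)` the function `mt G F z (1/2 - |z|)` is upper semicontinuous, so it has a maximum `m ≥ mt G F 0/2 > 0`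
at some `z₀`, `|z₀| < 1/2`.  `λ = 1/mt G F z₀`, `F_n ζ = F (z₀ + λ ζ)`.  For `|ζ| ≤ m/2`: `|z| ≤ |z₀| + (1/2 - |z₀|)/2`, so `1/2 - |z| ≥ (1/2 - |z₀|)/2 > 0` and
`mt G F z ≤ m/(1/2 - |z|) ≤ 2 mt G F z₀`; `mt_comp`.  `m/2 ≥ L/4 = n + 1`.
-/

set_option autoImplicit false

namespace Pool.Agent.H36.BP

open Filter Topology Metric

variable {N : ℕ}

variable {K B : Set (EN N)} {G : EN N → EN N → ℝ} {ρ : EN N → ℝ} {M : ℕ} {c₀ C : ℝ}

/-- product of a nonnegative upper semicontinuous function and a nonnegative continuous function -/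
private theorem resc_usc_mul {α : Type*} [TopologicalSpace α] {S : Set α} {u k : α → ℝ} (hu : UpperSemicontinuousOn u S)
    (hk : ContinuousOn k S) (hu0 : ∀ x ∈ S, 0 ≤ u x) (hk0 : ∀ x ∈ S, 0 ≤ k x) :
    UpperSemicontinuousOn (fun x => u x * k x) S := by
  intro x hx y hy
  have ht : Tendsto (fun ε : ℝ => (u x + ε) * (k x + ε)) (𝓝[>] 0) (𝓝 ((u x + 0) * (k x + 0))) := by
    apply tendsto_nhdsWithin_of_tendsto_nhds
    have hc : Continuous (fun ε : ℝ => (u x + ε) * (k x + ε)) := by fun_prop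
    exact hc.tendsto 0
  have hy' : (u x + 0) * (k x + 0) < y := by simpa using hy
  obtain ⟨ε, hε1, hε2⟩ := ((ht.eventually_lt_const hy').and self_mem_nhdsWithin).exists
  have hε : (0 : ℝ) < ε := hε2
  have h1 : ∀ᶠ x' in 𝓝[S] x, u x' < u x + ε := hu x hx _ (by linarith)
  have h2 : ∀ᶠ x' in 𝓝[S] x, k x' < k x + ε := (hk x hx).eventually_lt_const (by linarith)
  filter_upwards [h1, h2, self_mem_nhdsWithin] with x' h1' h2' hx'
  refine lt_of_le_of_lt ?_ hε1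
  exact mul_le_mul h1'.le h2'.le (hk0 x' hx') (by linarith [hu0 x hx])

theorem rescale (hM : MetricData K B G ρ M c₀ C) (hunb : ∀ L : ℝ, ∃ F, Curve K (ball 0 1) F ∧ L < mt G F 0) (n : ℕ) :
    ∃ F, Curve K (ball 0 (n + 1)) F ∧ mt G F 0 = 1 ∧ ∀ z ∈ ball (0 : ℂ) (n + 1), mt G F z ≤ 2 := by
  obtain ⟨F, hF, hL⟩ := hunb (4 * ((n : ℝ) + 1))
  have hn : (0 : ℝ) ≤ n := Nat.cast_nonneg n
  set u : ℂ → ℝ := fun z => mt G F z * (1 / 2 - ‖z‖) with hu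
  have hsub : closedBall (0 : ℂ) (1 / 2) ⊆ ball 0 1 := closedBall_subset_ball (by norm_num)
  have husc : UpperSemicontinuousOn u (closedBall (0 : ℂ) (1 / 2)) := by
    refine resc_usc_mul ((mt_usc hM isOpen_ball hF).mono hsub) (by fun_prop) ?_ ?_
    · intro x hx
      exact mt_nonneg hM (hF.2 x (hsub hx))
    · intro x hx
      have : ‖x‖ ≤ 1 / 2 := by simpa using hx
      linarith
  obtain ⟨z₀, hz₀, hmax⟩ := husc.exists_isMaxOn ⟨0, by simp⟩ (isCompact_closedBall _ _)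
  have hz₀n : ‖z₀‖ ≤ 1 / 2 := by simpa using hz₀
  have h0 : u 0 ≤ u z₀ := hmax (by simp : (0 : ℂ) ∈ closedBall (0 : ℂ) (1 / 2))
  have hu0 : u 0 = mt G F 0 / 2 := by simp only [hu, norm_zero]; ring
  have hm : 2 * ((n : ℝ) + 1) < u z₀ := by rw [hu0] at h0; linarith
  have hz₀K : F z₀ ∈ K := hF.2 z₀ (hsub hz₀)
  have hmt0 : 0 ≤ mt G F z₀ := mt_nonneg hM hz₀K
  set d : ℝ := 1 / 2 - ‖z₀‖ with hd
  have hd0 : 0 ≤ d := by rw [hd]; linarith
  have huz : u z₀ = mt G F z₀ * d := rfl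
  have hpos : 0 < mt G F z₀ * d := by rw [← huz]; linarith
  have hmtpos : 0 < mt G F z₀ := by
    rcases hmt0.lt_or_eq with h | h
    · exact h
    · rw [← h] at hpos; simp at hpos
  have hdpos : 0 < d := by
    rcases hd0.lt_or_eq with h | h
    · exact h
    · rw [← h] at hpos; simp at hpos
  set a : ℝ := mt G F z₀ with ha
  set φ : ℂ → ℂ := fun ζ => z₀ + ((a⁻¹ : ℝ) : ℂ) * ζ with hφ
  have hφd : ∀ ζ, HasDerivAt φ ((a⁻¹ : ℝ) : ℂ) ζ := by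
    intro ζ
    have := ((hasDerivAt_id ζ).const_mul ((a⁻¹ : ℝ) : ℂ)).const_add z₀
    simpa [hφ] using this
  have hkey : ∀ ζ ∈ ball (0 : ℂ) (n + 1), ‖φ ζ‖ ≤ 1 / 2 - d / 2 := by
    intro ζ hζ
    have hζn : ‖ζ‖ < n + 1 := by simpa using hζ
    have h1 : ‖φ ζ‖ ≤ ‖z₀‖ + a⁻¹ * ‖ζ‖ := by
      calc ‖φ ζ‖ ≤ ‖z₀‖ + ‖((a⁻¹ : ℝ) : ℂ) * ζ‖ := norm_add_le _ _
        _ = ‖z₀‖ + a⁻¹ * ‖ζ‖ := by
          rw [norm_mul, Complex.norm_real, Real.norm_of_nonneg (by positivity)]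
    have h2 : a⁻¹ * ‖ζ‖ ≤ d / 2 := by
      rw [inv_mul_le_iff₀ hmtpos]
      rw [huz] at hm
      linarith
    have h3 : ‖z₀‖ = 1 / 2 - d := by rw [hd]; ring
    linarith
  have hball : ∀ ζ ∈ ball (0 : ℂ) (n + 1), φ ζ ∈ closedBall (0 : ℂ) (1 / 2) := by
    intro ζ hζ
    have := hkey ζ hζ
    rw [mem_closedBall_zero_iff]
    linarith
  have hdiff : ∀ ζ ∈ ball (0 : ℂ) (n + 1), DifferentiableAt ℂ F (φ ζ) := fun ζ hζ =>
    (hF.1 _ (hsub (hball ζ hζ))).differentiableAt (isOpen_ball.mem_nhds (hsub (hball ζ hζ)))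
  have hmt : ∀ ζ ∈ ball (0 : ℂ) (n + 1), mt G (fun ζ => F (φ ζ)) ζ = a⁻¹ * mt G F (φ ζ) := by
    intro ζ hζ
    rw [mt_comp hM (hdiff ζ hζ) (hφd ζ).differentiableAt (hF.2 _ (hsub (hball ζ hζ))), (hφd ζ).deriv,
      Complex.norm_real, Real.norm_of_nonneg (by positivity)]
  refine ⟨fun ζ => F (φ ζ), ⟨?_, ?_⟩, ?_, ?_⟩
  · intro ζ hζ
    exact ((hdiff ζ hζ).comp ζ (hφd ζ).differentiableAt).differentiableWithinAt
  · intro ζ hζ
    exact hF.2 _ (hsub (hball ζ hζ))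
  · rw [hmt 0 (mem_ball_self (by positivity))]
    have : φ 0 = z₀ := by simp [hφ]
    rw [this, ← ha]
    exact inv_mul_cancel₀ hmtpos.ne'
  · intro ζ hζ
    rw [hmt ζ hζ]
    have h1 : u (φ ζ) ≤ u z₀ := hmax (hball ζ hζ)
    have h2 := hkey ζ hζ
    have h3 : mt G F (φ ζ) * (1 / 2 - ‖φ ζ‖) ≤ a * d := h1
    have h4 : 0 ≤ mt G F (φ ζ) := mt_nonneg hM (hF.2 _ (hsub (hball ζ hζ)))
    have h5 : mt G F (φ ζ) * (d / 2) ≤ a * d :=
      le_trans (mul_le_mul_of_nonneg_left (by linarith) h4) h3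
    have h6 : mt G F (φ ζ) ≤ 2 * a := by
      by_contra hc
      push Not at hc
      have : 2 * a * (d / 2) < mt G F (φ ζ) * (d / 2) := mul_lt_mul_of_pos_right hc (by linarith)
      linarith
    rw [inv_mul_le_iff₀ hmtpos]
    linarith

end Pool.Agent.H36.BP

end

section

/-!
# SA Defs: locally closed subvarieties of `ℙ^N`

The complement in a closed subvariety of the common zero set of some forms, and its properness over an affine variety.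
-/

set_option autoImplicit false

open MvPolynomial
open Pool.Agent.H23.Fano (PrimeDivisorOver)
open Pool.Agent.H17 (PN VanishesAt)
open Pool.Agent.H17GT (coordFun)
open Pool.Agent.H17LG.Variety (FunField ratio)

noncomputable section

namespace Pool.Agent.H62.SA

variable {N : ℕ}

/-- The points of the zero locus of the homogeneous ideal `P` at which some of the forms `G m` does not
vanish. -/
def locVar (P : Ideal (MvPolynomial (Fin (N + 1)) ℂ)) {s : ℕ}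
    (G : Fin s → MvPolynomial (Fin (N + 1)) ℂ) : Set (PN N) :=
  {x | (∀ Q ∈ P, ∀ n, Q.IsHomogeneous n → VanishesAt Q x) ∧ ∃ m, ¬ VanishesAt (G m) x}

/-- The centre of the prime divisor `E` on the closed subvariety of `ℙ^N` given by `P` lies in the
common zero set of the forms `G m`. -/
def OnBd (P : Ideal (MvPolynomial (Fin (N + 1)) ℂ)) [P.IsPrime] {s : ℕ}
    (G : Fin s → MvPolynomial (Fin (N + 1)) ℂ) {k : ℕ} (E : PrimeDivisorOver (FunField P) k) : Prop :=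
  ∃ j, coordFun P j ≠ 0 ∧ (∀ i, 0 ≤ E.ord (ratio P i j)) ∧
    ∀ m, 0 < E.ord (aeval (fun i => ratio P i j) (G m))

/-- The forms `F m j`, of degree `e m`, with `F m 0 = G m` define a map from the zero locus of `P` to
`ℙ^M` (in homogeneous coordinates `(F m 0, …, F m M)`, for every `m` for which these forms do not all
vanish), such that the common zero set of the forms `G m` is the inverse image of a hyperplane. So `locVar P G`
is proper over an affine variety. -/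
structure IsProperMap (P : Ideal (MvPolynomial (Fin (N + 1)) ℂ)) {s M : ℕ}
    (G : Fin s → MvPolynomial (Fin (N + 1)) ℂ) (F : Fin s → Fin (M + 1) → MvPolynomial (Fin (N + 1)) ℂ)
    (e : Fin s → ℕ) : Prop where
  hom : ∀ m j, (F m j).IsHomogeneous (e m)
  zero : ∀ m, F m 0 = G m
  rel : ∀ m n j, F m j * G n - F n j * G m ∈ P
  noZero : ∀ x : PN N, (∀ Q ∈ P, ∀ n, Q.IsHomogeneous n → VanishesAt Q x) →
    ∃ m j, ¬ VanishesAt (F m j) x

end Pool.Agent.H62.SA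

end
end

section

/-!
# MQ2 BB: the theorem of Briot and Bouquet

`F` analytic at `0`, `F 0 = 0`, `λ = ∂F/∂s (0)` not in `{1, 2, 3, ...}`: the equation `x s' = F (x, s)` has an analytic solution with `s 0 = 0`.
-/

set_option autoImplicit false

open Topology Filter Metric Set MeasureTheory

noncomputable section

namespace Pool.Agent.MQ2

/-- the iteration -/
def itr (μ : ℂ) (G : ℂ × ℂ → ℂ) : ℕ → ℂ → ℂ
  | 0 => fun _ => 0
  | n + 1 => Top μ fun w => G (w, itr μ G n w)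

theorem bb_neg {F : ℂ × ℂ → ℂ} (hF : AnalyticAt ℂ F 0) (h0 : F 0 = 0) (hl : (fderiv ℂ F 0 (0, 1)).re ≤ -2) :
    ∃ s : ℂ → ℂ, AnalyticAt ℂ s 0 ∧ s 0 = 0 ∧ ∀ᶠ x in 𝓝 (0 : ℂ), x * deriv s x = F (x, s x) := by
  set μ : ℂ := -fderiv ℂ F 0 (0, 1) with hμdef
  have hμ : 2 ≤ μ.re := by rw [hμdef, Complex.neg_re]; linarith
  set G : ℂ × ℂ → ℂ := fun p => F p + μ * p.2 with hG
  have hG0 : G 0 = 0 := by simp [hG, h0]
  -- a small box
  have hS := hF.hasStrictFDerivAt.isLittleO.bound (show (0:ℝ) < 1 / 4 by norm_num)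
  obtain ⟨ρ₁, hρ₁, H1⟩ := Metric.eventually_nhds_iff_ball.1 hS
  obtain ⟨ρ₂, hρ₂, H2⟩ := Metric.eventually_nhds_iff_ball.1 hF.eventually_analyticAt
  set ρ : ℝ := min ρ₁ ρ₂ / 2 with hρ
  have hρ0 : 0 < ρ := by positivity
  have hlt1 : ρ < ρ₁ := by
    have := min_le_left ρ₁ ρ₂; have h3 : 0 < min ρ₁ ρ₂ := lt_min hρ₁ hρ₂; rw [hρ]; linarith
  have hlt2 : ρ < ρ₂ := by
    have := min_le_right ρ₁ ρ₂; have h3 : 0 < min ρ₁ ρ₂ := lt_min hρ₁ hρ₂; rw [hρ]; linarith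
  have hlip : ∀ x a b : ℂ, ‖x‖ ≤ ρ → ‖a‖ ≤ ρ → ‖b‖ ≤ ρ → ‖G (x, a) - G (x, b)‖ ≤ 1 / 4 * ‖a - b‖ := by
    intro x a b hx ha hb
    have h1 : (((x, a), (x, b)) : (ℂ × ℂ) × (ℂ × ℂ)) ∈ ball (0, 0) ρ₁ := by
      rw [← Prod.zero_eq_mk, mem_ball_zero_iff]
      simp only [Prod.norm_mk, max_lt_iff]
      exact ⟨⟨hx.trans_lt hlt1, ha.trans_lt hlt1⟩, ⟨hx.trans_lt hlt1, hb.trans_lt hlt1⟩⟩
    have h2 := H1 _ h1
    simp only at h2
    have h3 : ((x, a) - (x, b) : ℂ × ℂ) = (a - b) • ((0:ℂ), (1:ℂ)) := by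
      ext <;> simp
    rw [h3, map_smul] at h2
    have h4 : G (x, a) - G (x, b) = F (x, a) - F (x, b) - (a - b) • (fderiv ℂ F 0 (0, 1)) := by
      simp only [hG, hμdef, smul_eq_mul]; ring
    rw [h4]
    refine h2.trans (le_of_eq ?_)
    rw [norm_smul]; simp [Prod.norm_mk]
  have han : ∀ x a : ℂ, ‖x‖ ≤ ρ → ‖a‖ ≤ ρ → AnalyticAt ℂ G (x, a) := by
    intro x a hx ha
    have h1 : ((x, a) : ℂ × ℂ) ∈ ball (0 : ℂ × ℂ) ρ₂ := by
      rw [mem_ball_zero_iff]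
      simp only [Prod.norm_mk, max_lt_iff]
      exact ⟨hx.trans_lt hlt2, ha.trans_lt hlt2⟩
    exact (H2 _ h1).add (analyticAt_const.mul analyticAt_snd)
  have hcont : ∀ᶠ x in 𝓝 (0:ℂ), ‖G (x, 0)‖ < ρ / 2 := by
    have h1 : ContinuousAt (fun x : ℂ => G (x, 0)) 0 := by
      have : ContinuousAt G ((fun x : ℂ => (x, (0:ℂ))) 0) := (han 0 0 (by simpa using hρ0.le) (by simpa using hρ0.le)).continuousAt
      exact this.comp (f := fun x : ℂ => (x, (0:ℂ))) (by fun_prop)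
    have h2 : ‖G ((0:ℂ), (0:ℂ))‖ < ρ / 2 := by
      have : G ((0:ℂ), (0:ℂ)) = 0 := hG0
      rw [this]; simpa using hρ0
    exact h1.norm.eventually_lt_const h2
  obtain ⟨r₁, hr₁, H3⟩ := Metric.eventually_nhds_iff_ball.1 hcont
  set r : ℝ := min r₁ ρ with hr
  have hr0 : 0 < r := lt_min hr₁ hρ0
  have hxρ : ∀ x ∈ ball (0:ℂ) r, ‖x‖ ≤ ρ := fun x hx => by
    rw [mem_ball_zero_iff] at hx; exact (hx.trans_le (min_le_right _ _)).le
  have hG1 : ∀ x ∈ ball (0:ℂ) r, ∀ a : ℂ, ‖a‖ ≤ ρ → ‖G (x, a)‖ ≤ ρ := by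
    intro x hx a ha
    have h1 := H3 x (ball_subset_ball (min_le_left _ _) hx)
    have h2 := hlip x a 0 (hxρ x hx) ha (by simpa using hρ0.le)
    rw [sub_zero] at h2
    calc ‖G (x, a)‖ = ‖(G (x, a) - G (x, 0)) + G (x, 0)‖ := by rw [sub_add_cancel]
      _ ≤ ‖G (x, a) - G (x, 0)‖ + ‖G (x, 0)‖ := norm_add_le _ _
      _ ≤ 1 / 4 * ρ + ρ / 2 := by gcongr; exact h2.trans (by gcongr)
      _ ≤ ρ := by linarith
  -- composition
  have hcomp : ∀ u : ℂ → ℂ, DifferentiableOn ℂ u (ball 0 r) → (∀ x ∈ ball (0:ℂ) r, ‖u x‖ ≤ ρ) →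
      DifferentiableOn ℂ (fun w => G (w, u w)) (ball 0 r) := by
    intro u hu hb x hx
    have h1 : DifferentiableAt ℂ G (x, u x) := (han x (u x) (hxρ x hx) (hb x hx)).differentiableAt
    have h2 : DifferentiableWithinAt ℂ (fun w => (w, u w)) (ball 0 r) x := differentiableWithinAt_id.prodMk (hu x hx)
    exact h1.comp_differentiableWithinAt x h2
  -- the iterates
  have hit : ∀ n, DifferentiableOn ℂ (itr μ G n) (ball 0 r) ∧ ∀ x ∈ ball (0:ℂ) r, ‖itr μ G n x‖ ≤ ρ := by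
    intro n
    induction n with
    | zero => exact ⟨differentiableOn_const _, fun x _ => by simpa [itr] using hρ0.le⟩
    | succ n ih =>
      have hc := hcomp _ ih.1 ih.2
      refine ⟨fun x hx => ((top_hasDeriv hμ hc hx).2.differentiableAt).differentiableWithinAt, fun x hx => ?_⟩
      exact top_bound hμ (fun w hw => hG1 w hw _ (ih.2 w hw)) hx
  have hdiff : ∀ n, ∀ x ∈ ball (0:ℂ) r, dist (itr μ G n x) (itr μ G (n + 1) x) ≤ ρ * (1 / 4) ^ n := by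
    intro n
    induction n with
    | zero =>
      intro x hx
      have := (hit 1).2 x hx
      simpa [itr, dist_eq_norm] using this
    | succ n ih =>
      intro x hx
      rw [dist_eq_norm]
      have h1 := top_sub hμ (hcomp _ (hit n).1 (hit n).2).continuousOn (hcomp _ (hit (n+1)).1 (hit (n+1)).2).continuousOn hx
      have h2 : itr μ G (n + 1) x - itr μ G (n + 1 + 1) x =
        Top μ (fun w => G (w, itr μ G n w) - G (w, itr μ G (n+1) w)) x := h1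
      rw [h2]
      refine top_bound hμ (fun w hw => ?_) hx
      refine (hlip w _ _ (hxρ w hw) ((hit n).2 w hw) ((hit (n+1)).2 w hw)).trans ?_
      have h3 := ih w hw
      rw [dist_eq_norm] at h3
      calc 1 / 4 * ‖itr μ G n w - itr μ G (n + 1) w‖ ≤ 1 / 4 * (ρ * (1 / 4) ^ n) := by gcongr
        _ = ρ * (1 / 4) ^ (n + 1) := by ring
  have hlim : ∀ x ∈ ball (0:ℂ) r, ∃ y, Tendsto (fun n => itr μ G n x) atTop (𝓝 y) := by
    intro x hx
    exact cauchySeq_tendsto_of_complete (cauchySeq_of_le_geometric (1/4) ρ (by norm_num) (fun n => hdiff n x hx))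
  choose! S hSl using hlim
  have hSd : ∀ n, ∀ x ∈ ball (0:ℂ) r, dist (itr μ G n x) (S x) ≤ ρ * (1 / 4) ^ n / (1 - 1 / 4) := fun n x hx =>
    dist_le_of_le_geometric_of_tendsto (1/4) ρ (by norm_num) (fun n => hdiff n x hx) (hSl x hx) n
  have hgeo : Tendsto (fun n : ℕ => ρ * (1 / 4 : ℝ) ^ n / (1 - 1 / 4)) atTop (𝓝 0) := by
    have := (tendsto_pow_atTop_nhds_zero_of_lt_one (r := (1/4 : ℝ)) (by norm_num) (by norm_num)).const_mul ρ
    have h2 := this.div_const (1 - 1 / 4)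
    simpa using h2
  have hSu : TendstoUniformlyOn (itr μ G) S atTop (ball 0 r) := by
    rw [Metric.tendstoUniformlyOn_iff]
    intro ε hε
    filter_upwards [hgeo.eventually_lt_const hε] with n hn x hx
    rw [dist_comm]
    exact (hSd n x hx).trans_lt hn
  have hSdiff : DifferentiableOn ℂ S (ball 0 r) :=
    hSu.tendstoLocallyUniformlyOn.differentiableOn (Eventually.of_forall fun n => (hit n).1) isOpen_ball
  have hSb : ∀ x ∈ ball (0:ℂ) r, ‖S x‖ ≤ ρ := fun x hx =>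
    le_of_tendsto (hSl x hx).norm (Eventually.of_forall fun n => (hit n).2 x hx)
  have hcS := hcomp S hSdiff hSb
  have hfix : ∀ x ∈ ball (0:ℂ) r, S x = Top μ (fun w => G (w, S w)) x := by
    intro x hx
    have h1 : Tendsto (fun n => itr μ G (n + 1) x) atTop (𝓝 (S x)) := (hSl x hx).comp (tendsto_add_atTop_nat 1)
    have h2 : Tendsto (fun n => itr μ G (n + 1) x) atTop (𝓝 (Top μ (fun w => G (w, S w)) x)) := by
      rw [tendsto_iff_dist_tendsto_zero]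
      refine squeeze_zero (fun n => dist_nonneg) (fun n => ?_) hgeo
      rw [dist_eq_norm]
      have h3 : itr μ G (n + 1) x - Top μ (fun w => G (w, S w)) x =
        Top μ (fun w => G (w, itr μ G n w) - G (w, S w)) x :=
        top_sub hμ (hcomp _ (hit n).1 (hit n).2).continuousOn hcS.continuousOn hx
      rw [h3]
      refine top_bound hμ (fun w hw => ?_) hx
      refine (hlip w _ _ (hxρ w hw) ((hit n).2 w hw) (hSb w hw)).trans ?_
      have h4 := hSd n w hw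
      rw [dist_eq_norm] at h4
      have h5 : 0 ≤ ‖itr μ G n w - S w‖ := norm_nonneg _
      linarith
    exact tendsto_nhds_unique h1 h2
  have heq : ∀ x ∈ ball (0:ℂ) r, x * deriv S x = F (x, S x) := by
    intro x hx
    have h1 : deriv S x = deriv (Top μ (fun w => G (w, S w))) x := by
      apply Filter.EventuallyEq.deriv_eq
      filter_upwards [isOpen_ball.mem_nhds hx] with w hw using hfix w hw
    rw [h1, top_eq hμ hcS hx, ← hfix x hx]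
    simp only [hG]; ring
  have h00 : (0:ℂ) ∈ ball (0:ℂ) r := mem_ball_self hr0
  refine ⟨S, hSdiff.analyticAt (isOpen_ball.mem_nhds h00), ?_, ?_⟩
  · have h1 := heq 0 h00
    rw [zero_mul] at h1
    have h2 : G (0, S 0) = μ * S 0 := by simp only [hG]; rw [← h1, zero_add]
    have h3 := hlip 0 (S 0) 0 (by simpa using hρ0.le) (hSb 0 h00) (by simpa using hρ0.le)
    have h4 : G ((0:ℂ), (0:ℂ)) = 0 := hG0
    rw [h4, sub_zero, sub_zero, h2, norm_mul] at h3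
    have h5 : 2 ≤ ‖μ‖ := hμ.trans (Complex.re_le_norm μ)
    have h6 : ‖S 0‖ = 0 := by nlinarith [norm_nonneg (S 0)]
    exact norm_eq_zero.1 h6
  · filter_upwards [isOpen_ball.mem_nhds h00] with x hx using heq x hx

/-- `x ↦ g (x, u)` for small `u` -/
lemma shift {F : ℂ × ℂ → ℂ} (hF : AnalyticAt ℂ F 0) (h0 : F 0 = 0) (h1 : fderiv ℂ F 0 (0, 1) ≠ 1) :
    ∃ (c : ℂ) (g : ℂ × ℂ → ℂ), AnalyticAt ℂ g 0 ∧ g 0 = 0 ∧ fderiv ℂ g 0 (0, 1) = fderiv ℂ F 0 (0, 1) - 1 ∧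
      ∀ᶠ p in 𝓝 (0 : ℂ × ℂ), F (p.1, p.1 * (c + p.2)) - p.1 * (c + p.2) = p.1 * g p := by
  set l : ℂ := fderiv ℂ F 0 (0, 1) with hl
  set c : ℂ := fderiv ℂ F 0 (1, 0) / (1 - l) with hc
  have h1l : 1 - l ≠ 0 := sub_ne_zero.2 (Ne.symm h1)
  set f : ℂ × ℂ → ℂ := fun p => F (p.1, p.1 * (c + p.2)) - p.1 * (c + p.2) with hf
  have hm : AnalyticAt ℂ (fun p : ℂ × ℂ => (p.1, p.1 * (c + p.2))) 0 :=
    analyticAt_fst.prod (analyticAt_fst.mul (analyticAt_const.add analyticAt_snd))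
  have hfa : AnalyticAt ℂ f 0 := by
    refine AnalyticAt.sub ?_ (analyticAt_fst.mul (analyticAt_const.add analyticAt_snd))
    refine AnalyticAt.fun_comp (g := F) (f := fun p : ℂ × ℂ => (p.1, p.1 * (c + p.2))) ?_ hm
    have e0 : (((0 : ℂ × ℂ).1, (0 : ℂ × ℂ).1 * (c + (0 : ℂ × ℂ).2)) : ℂ × ℂ) = 0 := by ext <;> simp
    simp only [e0]; exact hF
  obtain ⟨g, hg, hfg⟩ := Pool.Agent.H17BP.exists_div_x hfa (Eventually.of_forall fun y => by
    simp only [hf, zero_mul, sub_zero]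
    exact h0)
  -- the values of `g` on the axis
  have hgu : ∀ᶠ u in 𝓝 (0:ℂ), g (0, u) = (l - 1) * u := by
    have e1 : ∀ᶠ p in 𝓝 (0 : ℂ × ℂ), (∀ᶠ q in 𝓝 p, f q = q.1 • g q) ∧ AnalyticAt ℂ g p :=
      hfg.eventually_nhds.and hg.eventually_analyticAt
    have e2 : Tendsto (fun u : ℂ => ((0:ℂ), u)) (𝓝 0) (𝓝 0) := (by fun_prop : Continuous fun u : ℂ => ((0:ℂ), u)).tendsto' _ _ rfl
    filter_upwards [e2.eventually e1] with u hu
    obtain ⟨a1, a2⟩ := hu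
    have a3 : Tendsto (fun x : ℂ => (x, u)) (𝓝 0) (𝓝 (0, u)) := (by fun_prop : Continuous fun x : ℂ => (x, u)).tendsto' _ _ rfl
    have d1 : HasDerivAt (fun x : ℂ => f (x, u)) (g (0, u)) 0 := by
      have b1 : HasDerivAt (fun x : ℂ => x * g (x, u)) (1 * g (0, u) + 0 * deriv (fun x : ℂ => g (x, u)) 0) 0 := by
        have b2 : DifferentiableAt ℂ (fun x : ℂ => g (x, u)) 0 := by
          have : DifferentiableAt ℂ g ((fun x : ℂ => (x, u)) 0) := a2.differentiableAt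
          exact this.comp (0:ℂ) (by fun_prop)
        exact (hasDerivAt_id (0:ℂ)).mul b2.hasDerivAt
      rw [one_mul, zero_mul, add_zero] at b1
      refine b1.congr_of_eventuallyEq ?_
      filter_upwards [a3.eventually a1] with x hx using by simpa using hx
    have d2 : HasDerivAt (fun x : ℂ => f (x, u)) (fderiv ℂ F 0 (1, c + u) - (c + u)) 0 := by
      have b1 : HasDerivAt (fun x : ℂ => (x, x * (c + u))) ((1, 1 * (c + u)) : ℂ × ℂ) 0 :=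
        (hasDerivAt_id (0:ℂ)).prodMk ((hasDerivAt_id (0:ℂ)).mul_const (c + u))
      have b2 : HasFDerivAt F (fderiv ℂ F 0) ((fun x : ℂ => (x, x * (c + u))) 0) := by
        simp only [zero_mul]
        exact hF.differentiableAt.hasFDerivAt
      have b3 := b2.comp_hasDerivAt (0:ℂ) b1
      have b4 := b3.sub ((hasDerivAt_id (0:ℂ)).mul_const (c + u))
      exact (b4.congr_deriv (by simp)).congr_of_eventuallyEq (Eventually.of_forall fun x => rfl)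
    rw [d1.unique d2]
    have b5 : ((1, c + u) : ℂ × ℂ) = ((1, 0) : ℂ × ℂ) + (c + u) • ((0, 1) : ℂ × ℂ) := by ext <;> simp
    rw [b5, map_add, map_smul, ← hl, smul_eq_mul]
    have b6 : fderiv ℂ F 0 (1, 0) = c * (1 - l) := by rw [hc]; field_simp
    rw [b6]; ring
  have hg0 : g 0 = 0 := by
    have := hgu.self_of_nhds
    rw [mul_zero] at this
    exact this
  refine ⟨c, g, hg, hg0, ?_, ?_⟩
  · have d1 : HasDerivAt (fun u : ℂ => g (0, u)) (fderiv ℂ g 0 (0, 1)) 0 := by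
      have b1 : HasDerivAt (fun u : ℂ => ((0:ℂ), u)) ((0, 1) : ℂ × ℂ) 0 := (hasDerivAt_const (0:ℂ) (0:ℂ)).prodMk (hasDerivAt_id (0:ℂ))
      have b2 : HasFDerivAt g (fderiv ℂ g 0) ((fun u : ℂ => ((0:ℂ), u)) 0) := hg.differentiableAt.hasFDerivAt
      exact b2.comp_hasDerivAt (0:ℂ) b1
    have d2 : HasDerivAt (fun u : ℂ => g (0, u)) (l - 1) 0 := by
      have b1 : HasDerivAt (fun u : ℂ => (l - 1) * u) (l - 1) 0 := by simpa using (hasDerivAt_id (0:ℂ)).const_mul (l - 1)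
      exact b1.congr_of_eventuallyEq hgu
    exact d1.unique d2
  · filter_upwards [hfg] with p hp
    simpa [hf] using hp

/-- **Briot and Bouquet** -/
theorem briot_bouquet {F : ℂ × ℂ → ℂ} (hF : AnalyticAt ℂ F 0) (h0 : F 0 = 0) (hn : ∀ n : ℕ, 1 ≤ n → fderiv ℂ F 0 (0, 1) ≠ n) :
    ∃ s : ℂ → ℂ, AnalyticAt ℂ s 0 ∧ s 0 = 0 ∧ ∀ᶠ x in 𝓝 (0 : ℂ), x * deriv s x = F (x, s x) := by
  suffices H : ∀ (N : ℕ) (F : ℂ × ℂ → ℂ), AnalyticAt ℂ F 0 → F 0 = 0 → (∀ n : ℕ, 1 ≤ n → fderiv ℂ F 0 (0, 1) ≠ n) →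
      (fderiv ℂ F 0 (0, 1)).re ≤ N - 2 →
      ∃ s : ℂ → ℂ, AnalyticAt ℂ s 0 ∧ s 0 = 0 ∧ ∀ᶠ x in 𝓝 (0 : ℂ), x * deriv s x = F (x, s x) by
    obtain ⟨N, hN⟩ := exists_nat_ge ((fderiv ℂ F 0 (0, 1)).re + 2)
    exact H N F hF h0 hn (by linarith)
  intro N
  induction N with
  | zero =>
    intro F hF h0 _ hl
    exact bb_neg hF h0 (by simpa using hl)
  | succ N ih =>
    intro F hF h0 hn hl
    obtain ⟨c, g, hg, hg0, hgl, hfg⟩ := shift hF h0 (by simpa using hn 1 le_rfl)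
    obtain ⟨u, hu, hu0, hue⟩ := ih g hg hg0 (fun n hn1 h => by
      rw [hgl] at h
      exact hn (n + 1) (by omega) (by push_cast; linear_combination h)) (by
      rw [hgl, Complex.sub_re, Complex.one_re]; push_cast at hl; linarith)
    refine ⟨fun x => x * (c + u x), analyticAt_id.mul (analyticAt_const.add hu), by simp, ?_⟩
    have e1 : Tendsto (fun x : ℂ => (x, u x)) (𝓝 0) (𝓝 0) := by
      have : ContinuousAt (fun x : ℂ => (x, u x)) 0 := continuousAt_id.prodMk hu.continuousAt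
      have h2 := this.tendsto
      rwa [hu0] at h2
    filter_upwards [hue, e1.eventually hfg, hu.eventually_analyticAt] with x hx1 hx2 hx3
    have d1 : HasDerivAt (fun x => x * (c + u x)) (1 * (c + u x) + x * deriv u x) x :=
      (hasDerivAt_id x).mul (hx3.differentiableAt.hasDerivAt.const_add c)
    rw [d1.deriv]
    have h2 : F (x, x * (c + u x)) - x * (c + u x) = x * g (x, u x) := hx2
    linear_combination x * hx1 - h2

end Pool.Agent.MQ2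

end
end

section

/-!
# MQ2 Dulac: the strong separatrix of a saddle-node

`v` is tangent to `{x = 0}` and `∂v₂/∂y (0) ≠ 0`: after `x ↦ x * w` the first component is `x ^ (n + 1) * A`, `A (0) ≠ 0`.
-/

set_option autoImplicit false

open Topology Filter Metric

noncomputable section

namespace Pool.Agent.MQ2

open Pool.Agent.H17BP (dx dy exists_div_x)

/-- a primitive -/
theorem exists_primitive {q : ℂ → ℂ} (hq : AnalyticAt ℂ q 0) : ∃ h : ℂ → ℂ, AnalyticAt ℂ h 0 ∧ ∀ᶠ z in 𝓝 (0 : ℂ), HasDerivAt h (q z) z := by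
  obtain ⟨r, hr, hq'⟩ := Metric.eventually_nhds_iff_ball.1 hq.eventually_analyticAt
  have hd : DifferentiableOn ℂ q (ball 0 r) := fun z hz => (hq' z hz).differentiableAt.differentiableWithinAt
  obtain ⟨h, hh⟩ := hd.isExactOn_ball
  have h1 : DifferentiableOn ℂ h (ball 0 r) := fun z hz => (hh z hz).differentiableAt.differentiableWithinAt
  exact ⟨h, h1.analyticAt (isOpen_ball.mem_nhds (mem_ball_self hr)), by
    filter_upwards [isOpen_ball.mem_nhds (mem_ball_self hr)] with z hz using hh z hz⟩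

/-- `φ h' = - ψ` -/
theorem exists_h {φ ψ : ℂ → ℂ} (hφ : AnalyticAt ℂ φ 0) (hφ0 : φ 0 = 0) (hφ1 : deriv φ 0 ≠ 0) (hψ : AnalyticAt ℂ ψ 0) (hψ0 : ψ 0 = 0) :
    ∃ h : ℂ → ℂ, AnalyticAt ℂ h 0 ∧ ∀ᶠ z in 𝓝 (0 : ℂ), φ z * deriv h z = - ψ z := by
  have key : ∀ f : ℂ → ℂ, AnalyticAt ℂ f 0 → f 0 = 0 → ∃ g : ℂ → ℂ, AnalyticAt ℂ g 0 ∧ (∀ᶠ z in 𝓝 (0:ℂ), f z = z * g z) ∧ g 0 = deriv f 0 := by
    intro f hf hf0
    have h1 : (1 : ℕ) ≤ analyticOrderAt f 0 := by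
      rw [Nat.cast_one, Order.one_le_iff_ne_zero]
      exact fun h => (hf.analyticOrderAt_eq_zero.1 h) hf0
    obtain ⟨g, hg, hfg⟩ := (natCast_le_analyticOrderAt hf).1 h1
    refine ⟨g, hg, by filter_upwards [hfg] with z hz using by simpa using hz, ?_⟩
    have h2 : HasDerivAt (fun z => z * g z) (1 * g 0 + 0 * deriv g 0) 0 := (hasDerivAt_id (0:ℂ)).mul hg.differentiableAt.hasDerivAt
    have h3 : HasDerivAt f (1 * g 0 + 0 * deriv g 0) 0 := h2.congr_of_eventuallyEq (by filter_upwards [hfg] with z hz using by simpa using hz)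
    rw [h3.deriv]; ring
  obtain ⟨φ₁, h1, h2, h3⟩ := key φ hφ hφ0
  obtain ⟨ψ₁, g1, g2, -⟩ := key ψ hψ hψ0
  have hne : φ₁ 0 ≠ 0 := by rw [h3]; exact hφ1
  obtain ⟨h, hh, hd⟩ := exists_primitive ((g1.div h1 hne).neg)
  refine ⟨h, hh, ?_⟩
  filter_upwards [hd, h2, g2, h1.continuousAt.eventually_ne hne] with z e1 e2 e3 e4
  rw [e1.deriv, e2, e3]
  simp only [Pi.neg_apply, Pi.div_apply]
  field_simp

/-- the derivative along `v` -/
def Dv (v : ℂ × ℂ → ℂ × ℂ) (X : ℂ × ℂ → ℂ) (p : ℂ × ℂ) : ℂ := fderiv ℂ X p (v p)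

theorem dulac_step {v : ℂ × ℂ → ℂ × ℂ} (hv : AnalyticAt ℂ v 0) (h0 : (v 0).2 = 0) (h1 : dy (fun p => (v p).2) 0 ≠ 0) {n : ℕ} {w A : ℂ × ℂ → ℂ}
    (hw : AnalyticAt ℂ w 0) (hw0 : w 0 ≠ 0) (hA : AnalyticAt ℂ A 0) (hA0 : A 0 = 0)
    (h : ∀ᶠ p in 𝓝 (0 : ℂ × ℂ), Dv v (fun q => q.1 * w q) p = (p.1 * w p) ^ (n + 1) * A p) :
    ∃ w' A' : ℂ × ℂ → ℂ, AnalyticAt ℂ w' 0 ∧ w' 0 ≠ 0 ∧ AnalyticAt ℂ A' 0 ∧
      ∀ᶠ p in 𝓝 (0 : ℂ × ℂ), Dv v (fun q => q.1 * w' q) p = (p.1 * w' p) ^ (n + 2) * A' p := by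
  have hl : AnalyticAt ℂ (fun y : ℂ => ((0:ℂ), y)) 0 := analyticAt_const.prod analyticAt_id
  have hv2 : AnalyticAt ℂ (fun p => (v p).2) 0 := analyticAt_snd.comp hv
  have hφ : AnalyticAt ℂ (fun y : ℂ => (v (0, y)).2) 0 := AnalyticAt.fun_comp (g := fun p => (v p).2) (f := fun y : ℂ => ((0:ℂ), y)) hv2 hl
  have hψ : AnalyticAt ℂ (fun y : ℂ => A (0, y)) 0 := AnalyticAt.fun_comp (g := A) (f := fun y : ℂ => ((0:ℂ), y)) hA hl
  have hφ1 : deriv (fun y : ℂ => (v (0, y)).2) 0 ≠ 0 := by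
    have b1 : HasDerivAt (fun u : ℂ => ((0:ℂ), u)) ((0, 1) : ℂ × ℂ) 0 := (hasDerivAt_const (0:ℂ) (0:ℂ)).prodMk (hasDerivAt_id (0:ℂ))
    have b2 : HasFDerivAt (fun p => (v p).2) (fderiv ℂ (fun p => (v p).2) 0) ((fun u : ℂ => ((0:ℂ), u)) 0) := hv2.differentiableAt.hasFDerivAt
    have b3 : HasDerivAt (fun y : ℂ => (v (0, y)).2) (fderiv ℂ (fun p => (v p).2) 0 (0, 1)) 0 := b2.comp_hasDerivAt (0:ℂ) b1
    rw [b3.deriv]
    exact h1
  obtain ⟨k, hk, hkd⟩ := exists_h hφ h0 hφ1 hψ hA0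
  -- the new coordinate
  set X : ℂ × ℂ → ℂ := fun q => q.1 * w q with hX
  have hXa : AnalyticAt ℂ X 0 := analyticAt_fst.mul hw
  have hk2 : AnalyticAt ℂ (fun q : ℂ × ℂ => k q.2) 0 := AnalyticAt.fun_comp (g := k) (f := fun q : ℂ × ℂ => q.2) hk analyticAt_snd
  set u : ℂ × ℂ → ℂ := fun q => X q ^ n * k q.2 with hu
  have hua : AnalyticAt ℂ u 0 := (hXa.pow n).mul hk2
  set w' : ℂ × ℂ → ℂ := fun q => w q * Complex.exp (u q) with hw'
  have hw'a : AnalyticAt ℂ w' 0 := hw.mul hua.cexp'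
  have hw'0 : w' 0 ≠ 0 := mul_ne_zero hw0 (Complex.exp_ne_zero _)
  -- the bracket
  set B : ℂ × ℂ → ℂ := fun q => A q * (1 + n * (X q ^ n * k q.2)) + deriv k q.2 * (v q).2 with hB
  have hkd2 : AnalyticAt ℂ (fun q : ℂ × ℂ => deriv k q.2) 0 := AnalyticAt.fun_comp (g := deriv k) (f := fun q : ℂ × ℂ => q.2) hk.deriv analyticAt_snd
  have hBa : AnalyticAt ℂ B 0 := (hA.mul (analyticAt_const.add (analyticAt_const.mul hua))).add (hkd2.mul hv2)
  obtain ⟨B₁, hB₁, hBB⟩ := exists_div_x hBa (by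
    filter_upwards [hkd] with y hy
    have e1 : (n : ℂ) * (X (0, y) ^ n * k y) = 0 := by
      rcases Nat.eq_zero_or_pos n with rfl | hn
      · simp
      · simp [hX, hn.ne']
    simp only [hB, e1, add_zero, mul_one]
    linear_combination hy)
  refine ⟨w', fun q => Complex.exp (-(n * u q)) * B₁ q / w' q, hw'a, hw'0, ?_, ?_⟩
  · exact ((analyticAt_const.mul hua).neg.cexp'.mul hB₁).div hw'a hw'0
  · have hev : ∀ᶠ p in 𝓝 (0 : ℂ × ℂ), AnalyticAt ℂ X p ∧ AnalyticAt ℂ k p.2 ∧ w' p ≠ 0 := by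
      refine hXa.eventually_analyticAt.and ((?_ : ∀ᶠ p in 𝓝 (0 : ℂ × ℂ), AnalyticAt ℂ k p.2).and (hw'a.continuousAt.eventually_ne hw'0))
      exact (continuous_snd.tendsto' (0 : ℂ × ℂ) (0:ℂ) rfl).eventually hk.eventually_analyticAt
    filter_upwards [h, hBB, hev] with p e1 e2 e3
    obtain ⟨a1, a2, a3⟩ := e3
    -- the derivative of `X exp (X ^ n k)`
    have d1 : HasFDerivAt X (fderiv ℂ X p) p := a1.differentiableAt.hasFDerivAt
    have d2 : HasFDerivAt (fun q : ℂ × ℂ => k q.2) (deriv k p.2 • ContinuousLinearMap.snd ℂ ℂ ℂ) p := by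
      have := (a2.differentiableAt.hasDerivAt).comp_hasFDerivAt p (hasFDerivAt_snd (𝕜 := ℂ) (p := p))
      exact this
    have d3 : HasFDerivAt (fun q => X q ^ n) ((n * X p ^ (n - 1)) • fderiv ℂ X p) p := by
      have := d1.pow n
      refine this.congr_fderiv ?_
      ext <;> simp [nsmul_eq_mul]
    have d4 : HasFDerivAt u (X p ^ n • (deriv k p.2 • ContinuousLinearMap.snd ℂ ℂ ℂ) + k p.2 • ((n * X p ^ (n - 1)) • fderiv ℂ X p)) p := d3.mul d2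
    have d5 : HasFDerivAt (fun q => X q * Complex.exp (u q)) (X p • (Complex.exp (u p) • (X p ^ n • (deriv k p.2 • ContinuousLinearMap.snd ℂ ℂ ℂ) + k p.2 • ((n * X p ^ (n - 1)) • fderiv ℂ X p))) + Complex.exp (u p) • fderiv ℂ X p) p := d1.mul d4.cexp
    have d6 : (fun q : ℂ × ℂ => q.1 * w' q) = fun q => X q * Complex.exp (u q) := by
      ext q; simp only [hw', hX]; ring
    have e4 : X p * (n * X p ^ (n - 1)) = n * X p ^ n := by
      rcases Nat.eq_zero_or_pos n with rfl | hn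
      · simp
      · obtain ⟨m, rfl⟩ := Nat.exists_eq_succ_of_ne_zero hn.ne'
        simp; ring
    have e5 : fderiv ℂ X p (v p) = X p ^ (n + 1) * A p := e1
    have e6 : B p = p.1 * B₁ p := by simpa using e2
    have e7 : X p * Complex.exp (u p) = p.1 * w' p := by simp only [hw', hX]; ring
    rw [Dv, d6, d5.fderiv]
    simp only [add_apply, smul_apply, ContinuousLinearMap.coe_snd', smul_eq_mul]
    rw [e5, ← e7]
    have e8 : X p * (Complex.exp (u p) * (X p ^ n * (deriv k p.2 * (v p).2) + k p.2 * (n * X p ^ (n - 1) * (X p ^ (n + 1) * A p)))) +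
        Complex.exp (u p) * (X p ^ (n + 1) * A p) = Complex.exp (u p) * X p ^ (n + 1) * B p := by
      simp only [hB]
      have : X p * (k p.2 * (n * X p ^ (n - 1) * (X p ^ (n + 1) * A p))) = k p.2 * (n * X p ^ n) * (X p ^ (n + 1) * A p) := by
        rw [← e4]; ring
      linear_combination Complex.exp (u p) * this
    rw [e8, e6]
    have e9 : Complex.exp (-(n * u p)) = (Complex.exp (u p) ^ n)⁻¹ := by
      rw [Complex.exp_neg, Complex.exp_nat_mul]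
    rw [e9]
    have e10 : p.1 = X p * Complex.exp (u p) / w' p := by rw [e7]; field_simp
    have hexp : Complex.exp (u p) ≠ 0 := Complex.exp_ne_zero _
    rw [show p.1 * B₁ p = (X p * Complex.exp (u p) / w' p) * B₁ p by rw [← e10]]
    field_simp
    try ring

/-- the curve `v₂ = 0` -/
theorem exists_curve {f : ℂ × ℂ → ℂ} (hf : AnalyticAt ℂ f 0) (h0 : f 0 = 0) (h1 : dy f 0 ≠ 0) :
    ∃ c : ℂ → ℂ, AnalyticAt ℂ c 0 ∧ c 0 = 0 ∧ ∀ᶠ x in 𝓝 (0 : ℂ), f (x, c x) = 0 := by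
  set F : ℂ × ℂ → ℂ × ℂ := fun p => (p.1, f p) with hF
  have hFa : AnalyticAt ℂ F 0 := analyticAt_fst.prod hf
  have hFd : HasFDerivAt F ((ContinuousLinearMap.fst ℂ ℂ ℂ).prod (fderiv ℂ f 0)) 0 := hasFDerivAt_fst.prodMk hf.differentiableAt.hasFDerivAt
  obtain ⟨ψ, h2, -, h4, h5⟩ := Pool.Agent.H62.BU.local_inverse hFa (by
    intro u hu
    rw [hFd.fderiv] at hu
    simp only [ContinuousLinearMap.prod_apply, ContinuousLinearMap.coe_fst', Prod.mk_eq_zero] at hu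
    obtain ⟨a1, a2⟩ := hu
    have a3 : u = u.2 • ((0, 1) : ℂ × ℂ) := by ext <;> simp [a1]
    rw [a3, map_smul, smul_eq_mul, mul_eq_zero] at a2
    rcases a2 with a2 | a2
    · rw [a3, a2, zero_smul]
    · exact absurd a2 h1)
  have hF0 : F 0 = 0 := by ext <;> simp [hF, h0]
  rw [hF0] at h2 h4 h5
  have hl : AnalyticAt ℂ (fun x : ℂ => (x, (0:ℂ))) 0 := analyticAt_id.prod analyticAt_const
  have h6 : AnalyticAt ℂ (fun x : ℂ => ψ (x, 0)) 0 := AnalyticAt.fun_comp (g := ψ) (f := fun x : ℂ => (x, (0:ℂ))) h2 hl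
  refine ⟨fun x => (ψ (x, 0)).2, analyticAt_snd.comp h6, by
    have : ψ (0, 0) = 0 := h5
    simp [this], ?_⟩
  have h7 : Tendsto (fun x : ℂ => (x, (0:ℂ))) (𝓝 0) (𝓝 0) := (by fun_prop : Continuous fun x : ℂ => (x, (0:ℂ))).tendsto' _ _ rfl
  filter_upwards [h7.eventually h4] with x hx
  have h8 : (ψ (x, 0)).1 = x := congrArg Prod.fst hx
  have h9 : f (ψ (x, 0)) = 0 := congrArg Prod.snd hx
  have h10 : ((x, (ψ (x, 0)).2) : ℂ × ℂ) = ψ (x, 0) := by ext <;> simp [h8]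
  rw [h10, h9]

/-- **Dulac**: the order of contact is finite. -/
theorem dulac {v : ℂ × ℂ → ℂ × ℂ} (hv : AnalyticAt ℂ v 0) (h0 : v 0 = 0) (h1 : dy (fun p => (v p).2) 0 ≠ 0)
    (hE : ∀ᶠ y in 𝓝 (0 : ℂ), (v (0, y)).1 = 0) (hiso : ∀ᶠ p in 𝓝[≠] (0 : ℂ × ℂ), v p ≠ 0) :
    ∃ (n : ℕ) (w A : ℂ × ℂ → ℂ), AnalyticAt ℂ w 0 ∧ w 0 ≠ 0 ∧ AnalyticAt ℂ A 0 ∧ A 0 ≠ 0 ∧
      ∀ᶠ p in 𝓝 (0 : ℂ × ℂ), Dv v (fun q => q.1 * w q) p = (p.1 * w p) ^ (n + 1) * A p := by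
  by_contra hcon
  push Not at hcon
  have hv1 : AnalyticAt ℂ (fun p => (v p).1) 0 := analyticAt_fst.comp hv
  have hv2 : AnalyticAt ℂ (fun p => (v p).2) 0 := analyticAt_snd.comp hv
  have hP : ∀ n : ℕ, ∃ w A : ℂ × ℂ → ℂ, AnalyticAt ℂ w 0 ∧ w 0 ≠ 0 ∧ AnalyticAt ℂ A 0 ∧
      ∀ᶠ p in 𝓝 (0 : ℂ × ℂ), Dv v (fun q => q.1 * w q) p = (p.1 * w p) ^ (n + 1) * A p := by
    intro n
    induction n with
    | zero =>
      obtain ⟨A, hA, hvA⟩ := exists_div_x hv1 hE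
      refine ⟨fun _ => 1, A, analyticAt_const, one_ne_zero, hA, ?_⟩
      filter_upwards [hvA] with p hp
      have : (fun q : ℂ × ℂ => q.1 * (1:ℂ)) = fun q => q.1 := by ext q; simp
      rw [Dv, this, (hasFDerivAt_fst (𝕜 := ℂ) (p := p)).fderiv]
      simpa using hp
    | succ n ih =>
      obtain ⟨w, A, a1, a2, a3, a4⟩ := ih
      by_cases hA0 : A 0 = 0
      · exact dulac_step hv (by rw [h0]; rfl) h1 a1 a2 a3 hA0 a4
      · exact ((hcon n w A a1 a2 a3 hA0) (a4.mono fun p hp h => h hp)).elim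
  obtain ⟨c, hc, hc0, hcv⟩ := exists_curve hv2 (by rw [h0]; rfl) h1
  have hγ : AnalyticAt ℂ (fun x : ℂ => (x, c x)) 0 := analyticAt_id.prod hc
  have hγ0 : ((0:ℂ), c 0) = (0 : ℂ × ℂ) := by rw [hc0]; rfl
  have hγt : Tendsto (fun x : ℂ => (x, c x)) (𝓝 0) (𝓝 0) := by
    have := hγ.continuousAt.tendsto
    rwa [hγ0] at this
  have hf : AnalyticAt ℂ (fun x : ℂ => (v (x, c x)).1) 0 :=
    AnalyticAt.fun_comp (g := fun p => (v p).1) (f := fun x : ℂ => (x, c x)) (by rw [hγ0]; exact hv1) hγ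
  -- the order is finite
  have hfin : analyticOrderAt (fun x : ℂ => (v (x, c x)).1) 0 ≠ ⊤ := by
    intro htop
    rw [analyticOrderAt_eq_top] at htop
    have e1 : ∀ᶠ x in 𝓝[≠] (0:ℂ), v (x, c x) ≠ 0 := by
      have e2 : Tendsto (fun x : ℂ => (x, c x)) (𝓝[≠] 0) (𝓝[≠] 0) := by
        refine tendsto_nhdsWithin_of_tendsto_nhds_of_eventually_within _ (hγt.mono_left nhdsWithin_le_nhds) ?_
        filter_upwards [self_mem_nhdsWithin] with x hx hx0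
        exact hx (congrArg Prod.fst hx0)
      exact e2.eventually hiso
    obtain ⟨x, hx1, hx2, hx3⟩ := (e1.and ((eventually_nhdsWithin_of_eventually_nhds htop).and (eventually_nhdsWithin_of_eventually_nhds hcv))).exists
    exact hx1 (Prod.ext hx2 hx3)
  set m := analyticOrderNatAt (fun x : ℂ => (v (x, c x)).1) 0 with hm
  have hmo : analyticOrderAt (fun x : ℂ => (v (x, c x)).1) 0 = m := (Nat.cast_analyticOrderNatAt hfin).symm
  obtain ⟨w, A, a1, a2, a3, a4⟩ := hP m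
  have hXa : AnalyticAt ℂ (fun q : ℂ × ℂ => q.1 * w q) 0 := analyticAt_fst.mul a1
  have hdx : AnalyticAt ℂ (dx (fun q : ℂ × ℂ => q.1 * w q)) 0 := Pool.Agent.H17BP.analyticAt_dx hXa
  have hdx0 : dx (fun q : ℂ × ℂ => q.1 * w q) 0 = w 0 := by
    have : HasFDerivAt (fun q : ℂ × ℂ => q.1 * w q) ((0 : ℂ × ℂ).1 • fderiv ℂ w 0 + w 0 • ContinuousLinearMap.fst ℂ ℂ ℂ) 0 :=
      (hasFDerivAt_fst (𝕜 := ℂ) (p := (0 : ℂ × ℂ))).mul a1.differentiableAt.hasFDerivAt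
    rw [dx, this.fderiv]
    simp
  have hdγ : AnalyticAt ℂ (fun x : ℂ => dx (fun q : ℂ × ℂ => q.1 * w q) (x, c x)) 0 :=
    AnalyticAt.fun_comp (g := dx (fun q : ℂ × ℂ => q.1 * w q)) (f := fun x : ℂ => (x, c x)) (by rw [hγ0]; exact hdx) hγ
  have hdγ0 : dx (fun q : ℂ × ℂ => q.1 * w q) ((0:ℂ), c 0) ≠ 0 := by rw [hγ0, hdx0]; exact a2
  have hG : AnalyticAt ℂ (fun x : ℂ => w (x, c x) ^ (m + 1) * A (x, c x) / dx (fun q : ℂ × ℂ => q.1 * w q) (x, c x)) 0 := by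
    refine AnalyticAt.div (AnalyticAt.mul (AnalyticAt.pow ?_ _) ?_) hdγ hdγ0
    · exact AnalyticAt.fun_comp (g := w) (f := fun x : ℂ => (x, c x)) (by rw [hγ0]; exact a1) hγ
    · exact AnalyticAt.fun_comp (g := A) (f := fun x : ℂ => (x, c x)) (by rw [hγ0]; exact a3) hγ
  have hle : ((m + 1 : ℕ) : ℕ∞) ≤ analyticOrderAt (fun x : ℂ => (v (x, c x)).1) 0 := by
    rw [natCast_le_analyticOrderAt hf]
    refine ⟨_, hG, ?_⟩
    filter_upwards [hγt.eventually a4, hcv, hdγ.continuousAt.eventually_ne hdγ0] with x e1 e2 e3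
    have e4 : v (x, c x) = (v (x, c x)).1 • ((1, 0) : ℂ × ℂ) := by ext <;> simp [e2]
    rw [Dv, e4, map_smul, smul_eq_mul] at e1
    have e5 : (v (x, c x)).1 * dx (fun q : ℂ × ℂ => q.1 * w q) (x, c x) = (x * w (x, c x)) ^ (m + 1) * A (x, c x) := e1
    rw [sub_zero, smul_eq_mul, ← mul_div_assoc, eq_div_iff e3, e5]
    ring
  rw [hmo] at hle
  have : m + 1 ≤ m := by exact_mod_cast hle
  omega

end Pool.Agent.MQ2

end
end

section

/-!
# MQ2 Term: normal forms of reduced singular points on an invariant curve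

The curve `E = {x = 0}` is invariant.  `λ₁ = ∂v₁/∂x (0)`, `λ₂ = ∂v₂/∂y (0)`.
-/

set_option autoImplicit false

open Topology Filter Metric

noncomputable section

namespace Pool.Agent.MQ2

open Pool.Agent.H17BP (dx dy exists_div_x exists_div_y Bihol Coord coord_iff)

/-! ### the derivative along `v` -/

theorem Dv_fst (v : ℂ × ℂ → ℂ × ℂ) (p : ℂ × ℂ) : Dv v (fun q => q.1) p = (v p).1 := by
  rw [Dv, (hasFDerivAt_fst (𝕜 := ℂ) (p := p)).fderiv]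
  rfl

theorem Dv_snd (v : ℂ × ℂ → ℂ × ℂ) (p : ℂ × ℂ) : Dv v (fun q => q.2) p = (v p).2 := by
  rw [Dv, (hasFDerivAt_snd (𝕜 := ℂ) (p := p)).fderiv]
  rfl

theorem Dv_eq (v : ℂ × ℂ → ℂ × ℂ) (X : ℂ × ℂ → ℂ) (p : ℂ × ℂ) : Dv v X p = (v p).1 * dx X p + (v p).2 * dy X p := by
  have h1 : v p = (v p).1 • ((1, 0) : ℂ × ℂ) + (v p).2 • ((0, 1) : ℂ × ℂ) := by ext <;> simp
  rw [Dv]
  conv_lhs => rw [h1]
  rw [map_add, map_smul, map_smul]
  rfl

theorem Dv_mul {v : ℂ × ℂ → ℂ × ℂ} {X Y : ℂ × ℂ → ℂ} {p : ℂ × ℂ} (hX : DifferentiableAt ℂ X p) (hY : DifferentiableAt ℂ Y p) :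
    Dv v (fun q => X q * Y q) p = X p * Dv v Y p + Y p * Dv v X p := by
  have h : HasFDerivAt (fun q => X q * Y q) (X p • fderiv ℂ Y p + Y p • fderiv ℂ X p) p := hX.hasFDerivAt.mul hY.hasFDerivAt
  rw [Dv, h.fderiv]
  rfl

theorem analyticAt_Dv {v : ℂ × ℂ → ℂ × ℂ} {X : ℂ × ℂ → ℂ} {p : ℂ × ℂ} (hv : AnalyticAt ℂ v p) (hX : AnalyticAt ℂ X p) : AnalyticAt ℂ (Dv v X) p := by
  have h1 : AnalyticAt ℂ (fun q => (v q).1) p := analyticAt_fst.comp hv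
  have h2 : AnalyticAt ℂ (fun q => (v q).2) p := analyticAt_snd.comp hv
  have h : Dv v X = fun q => (v q).1 * dx X q + (v q).2 * dy X q := funext fun q => Dv_eq v X q
  rw [h]
  exact (h1.mul (Pool.Agent.H17BP.analyticAt_dx hX)).add (h2.mul (Pool.Agent.H17BP.analyticAt_dy hX))

theorem Dv_congr {v : ℂ × ℂ → ℂ × ℂ} {X Y : ℂ × ℂ → ℂ} {p : ℂ × ℂ} (h : X =ᶠ[𝓝 p] Y) : Dv v X p = Dv v Y p := by
  rw [Dv, Dv, h.fderiv_eq]

/-- the field in other coordinates -/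
theorem exists_push {v : ℂ × ℂ → ℂ × ℂ} (hv : AnalyticAt ℂ v 0) {S T : ℂ × ℂ → ℂ} (h : Coord S T) :
    ∃ V : ℂ × ℂ → ℂ × ℂ, AnalyticAt ℂ V 0 ∧ (∀ᶠ p in 𝓝 (0 : ℂ × ℂ), V (S p, T p) = (Dv v S p, Dv v T p)) ∧
      ∀ X : ℂ × ℂ → ℂ, AnalyticAt ℂ X 0 → ∀ᶠ p in 𝓝 (0 : ℂ × ℂ), Dv v (fun q => X (S q, T q)) p = Dv V X (S p, T p) := by
  obtain ⟨hS, hT, hS0, hT0⟩ := h.parts
  obtain ⟨ψ, hψ, hl, hr⟩ := h.exists_inv
  have hW : AnalyticAt ℂ (fun p => (Dv v S p, Dv v T p)) 0 := (analyticAt_Dv hv hS).prod (analyticAt_Dv hv hT)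
  have hV : AnalyticAt ℂ (fun q => (Dv v S (ψ q), Dv v T (ψ q))) 0 :=
    AnalyticAt.fun_comp (g := fun p => (Dv v S p, Dv v T p)) (f := ψ) (by rw [hψ.zero]; exact hW) hψ.an
  have h1 : ∀ᶠ p in 𝓝 (0 : ℂ × ℂ), (fun q => (Dv v S (ψ q), Dv v T (ψ q))) (S p, T p) = (Dv v S p, Dv v T p) := by
    filter_upwards [hl] with p hp
    simp only [hp]
  refine ⟨_, hV, h1, fun X hX => ?_⟩
  have ht : Tendsto (fun p => (S p, T p)) (𝓝 0) (𝓝 0) := h.tendsto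
  filter_upwards [h1, ht.eventually hX.eventually_analyticAt, hS.eventually_analyticAt, hT.eventually_analyticAt] with p e1 e2 e3 e4
  have e5 : HasFDerivAt (fun q => (S q, T q)) ((fderiv ℂ S p).prod (fderiv ℂ T p)) p := e3.differentiableAt.hasFDerivAt.prodMk e4.differentiableAt.hasFDerivAt
  have e6 : HasFDerivAt (fun q => X (S q, T q)) ((fderiv ℂ X (S p, T p)).comp ((fderiv ℂ S p).prod (fderiv ℂ T p))) p :=
    e2.differentiableAt.hasFDerivAt.comp p e5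
  rw [Dv, e6.fderiv, Dv, e1]
  rfl

theorem Coord.isolated {S T : ℂ × ℂ → ℂ} (h : Coord S T) {v V : ℂ × ℂ → ℂ × ℂ} (hV : ∀ᶠ p in 𝓝 (0 : ℂ × ℂ), V (S p, T p) = (Dv v S p, Dv v T p))
    (hiso : ∀ᶠ p in 𝓝[≠] (0 : ℂ × ℂ), v p ≠ 0) : ∀ᶠ p in 𝓝[≠] (0 : ℂ × ℂ), V p ≠ 0 := by
  obtain ⟨hS, hT, hS0, hT0⟩ := h.parts
  obtain ⟨ψ, hψ, hl, hr⟩ := h.exists_inv
  have hdet : ∀ᶠ p in 𝓝 (0 : ℂ × ℂ), dx S p * dy T p - dy S p * dx T p ≠ 0 := by
    refine ContinuousAt.eventually_ne ?_ ((coord_iff hS hT hS0 hT0).1 h)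
    exact ((Pool.Agent.H17BP.analyticAt_dx hS).continuousAt.mul (Pool.Agent.H17BP.analyticAt_dy hT).continuousAt).sub
      ((Pool.Agent.H17BP.analyticAt_dy hS).continuousAt.mul (Pool.Agent.H17BP.analyticAt_dx hT).continuousAt)
  have h1 : ∀ᶠ p in 𝓝 (0 : ℂ × ℂ), p ≠ 0 → V (S p, T p) ≠ 0 := by
    filter_upwards [hdet, hV, eventually_nhdsWithin_iff.1 hiso] with p e1 e2 e3 hp h4
    refine e3 hp ?_
    rw [e2, Prod.mk_eq_zero, Dv_eq, Dv_eq] at h4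
    have e4 : (v p).1 * (dx S p * dy T p - dy S p * dx T p) = 0 := by linear_combination dy T p * h4.1 - dy S p * h4.2
    have e5 : (v p).2 * (dx S p * dy T p - dy S p * dx T p) = 0 := by linear_combination dx S p * h4.2 - dx T p * h4.1
    exact Prod.ext ((mul_eq_zero.1 e4).resolve_right e1) ((mul_eq_zero.1 e5).resolve_right e1)
  rw [eventually_nhdsWithin_iff]
  filter_upwards [hψ.tendsto.eventually h1, hr] with q e1 e2 hq
  have e3 : ψ q ≠ 0 := by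
    intro e4
    apply hq
    rw [← e2, e4]
    show (S 0, T 0) = (0 : ℂ × ℂ)
    rw [hS0, hT0]; rfl
  have e4 := e1 e3
  rwa [e2] at e4

/-! ### the second axis at a point with `λ₁ ≠ 0` -/

theorem dx_of_div {f a : ℂ × ℂ → ℂ} (ha : AnalyticAt ℂ a 0) (h : ∀ᶠ p in 𝓝 (0 : ℂ × ℂ), f p = p.1 * a p) : dx f 0 = a 0 ∧ dy f 0 = 0 := by
  have h1 : HasFDerivAt (fun q : ℂ × ℂ => q.1 * a q) ((0 : ℂ × ℂ).1 • fderiv ℂ a 0 + a 0 • ContinuousLinearMap.fst ℂ ℂ ℂ) 0 :=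
    (hasFDerivAt_fst (𝕜 := ℂ) (p := (0 : ℂ × ℂ))).mul ha.differentiableAt.hasFDerivAt
  have h2 := h1.congr_of_eventuallyEq h
  rw [dx, dy, h2.fderiv]
  simp

theorem dy_of_div {f a : ℂ × ℂ → ℂ} (ha : AnalyticAt ℂ a 0) (h : ∀ᶠ p in 𝓝 (0 : ℂ × ℂ), f p = p.2 * a p) : dy f 0 = a 0 ∧ dx f 0 = 0 := by
  have h1 : HasFDerivAt (fun q : ℂ × ℂ => q.2 * a q) ((0 : ℂ × ℂ).2 • fderiv ℂ a 0 + a 0 • ContinuousLinearMap.snd ℂ ℂ ℂ) 0 :=
    (hasFDerivAt_snd (𝕜 := ℂ) (p := (0 : ℂ × ℂ))).mul ha.differentiableAt.hasFDerivAt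
  have h2 := h1.congr_of_eventuallyEq h
  rw [dx, dy, h2.fderiv]
  simp

theorem coord_fst_sub {s : ℂ → ℂ} (hs : AnalyticAt ℂ s 0) (hs0 : s 0 = 0) : Coord (fun q => q.1) (fun q => q.2 - s q.1) := by
  have h1 : AnalyticAt ℂ (fun q : ℂ × ℂ => s q.1) 0 := AnalyticAt.fun_comp (g := s) (f := fun q : ℂ × ℂ => q.1) hs analyticAt_fst
  have h2 : HasFDerivAt (fun q : ℂ × ℂ => s q.1) ((ContinuousLinearMap.toSpanSingleton ℂ (deriv s 0)).comp (ContinuousLinearMap.fst ℂ ℂ ℂ)) 0 :=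
    (show HasFDerivAt s (ContinuousLinearMap.toSpanSingleton ℂ (deriv s 0)) ((0 : ℂ × ℂ).1) from hs.differentiableAt.hasDerivAt.hasFDerivAt).comp 0 hasFDerivAt_fst
  rw [coord_iff analyticAt_fst (show AnalyticAt ℂ (fun q : ℂ × ℂ => q.2 - s q.1) 0 from analyticAt_snd.sub h1) rfl (by simp [hs0])]
  have h3 : HasFDerivAt (fun q : ℂ × ℂ => q.2 - s q.1) _ 0 := (hasFDerivAt_snd (𝕜 := ℂ) (p := (0 : ℂ × ℂ))).sub h2
  rw [dx, dx, dy, dy, h3.fderiv, (hasFDerivAt_fst (𝕜 := ℂ) (p := (0 : ℂ × ℂ))).fderiv]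
  simp

/-- an invariant curve `y = s (x)` -/
theorem axis_of_curve {v : ℂ × ℂ → ℂ × ℂ} (hv : AnalyticAt ℂ v 0) {a : ℂ × ℂ → ℂ} (ha : AnalyticAt ℂ a 0)
    (hva : ∀ᶠ p in 𝓝 (0 : ℂ × ℂ), (v p).1 = p.1 * a p) {s : ℂ → ℂ} (hs : AnalyticAt ℂ s 0) (hs0 : s 0 = 0)
    (h : ∀ᶠ x in 𝓝 (0 : ℂ), (v (x, s x)).2 = deriv s x * (v (x, s x)).1) :
    ∃ b : ℂ × ℂ → ℂ, AnalyticAt ℂ b 0 ∧ b 0 = dy (fun p => (v p).2) 0 ∧ ∀ᶠ p in 𝓝 (0 : ℂ × ℂ), Dv v (fun q => q.2 - s q.1) p = (p.2 - s p.1) * b p := by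
  have hv1 : AnalyticAt ℂ (fun p => (v p).1) 0 := analyticAt_fst.comp hv
  have hv2 : AnalyticAt ℂ (fun p => (v p).2) 0 := analyticAt_snd.comp hv
  have hs1 : AnalyticAt ℂ (fun q : ℂ × ℂ => s q.1) 0 := AnalyticAt.fun_comp (g := s) (f := fun q : ℂ × ℂ => q.1) hs analyticAt_fst
  have hd1 : AnalyticAt ℂ (fun q : ℂ × ℂ => deriv s q.1) 0 := AnalyticAt.fun_comp (g := deriv s) (f := fun q : ℂ × ℂ => q.1) hs.deriv analyticAt_fst
  have hfst : Tendsto (fun p : ℂ × ℂ => p.1) (𝓝 0) (𝓝 0) := continuous_fst.tendsto' _ _ rfl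
  -- the field on `y - s`
  have hD : ∀ᶠ p in 𝓝 (0 : ℂ × ℂ), Dv v (fun q => q.2 - s q.1) p = (v p).2 - deriv s p.1 * (v p).1 := by
    filter_upwards [hfst.eventually hs.eventually_analyticAt] with p hp
    have h2 : HasFDerivAt (fun q : ℂ × ℂ => s q.1) ((ContinuousLinearMap.toSpanSingleton ℂ (deriv s p.1)).comp (ContinuousLinearMap.fst ℂ ℂ ℂ)) p :=
      hp.differentiableAt.hasDerivAt.hasFDerivAt.comp p hasFDerivAt_fst
    have h3 : HasFDerivAt (fun q : ℂ × ℂ => q.2 - s q.1) _ p := (hasFDerivAt_snd (𝕜 := ℂ) (p := p)).sub h2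
    rw [Dv, h3.fderiv]
    simp [mul_comm]
  set W : ℂ × ℂ → ℂ := fun p => (v p).2 - deriv s p.1 * (v p).1 with hW
  have hWa : AnalyticAt ℂ W 0 := hv2.sub (hd1.mul hv1)
  set τ : ℂ × ℂ → ℂ × ℂ := fun p => (p.1, p.2 + s p.1) with hτ
  have hτa : AnalyticAt ℂ τ 0 := analyticAt_fst.prod (analyticAt_snd.add hs1)
  have hτ0 : τ 0 = 0 := by simp [hτ, hs0]
  have hWτ : AnalyticAt ℂ (fun p => W (τ p)) 0 := AnalyticAt.fun_comp (g := W) (f := τ) (by rw [hτ0]; exact hWa) hτa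
  obtain ⟨b, hb, hWb⟩ := exists_div_y hWτ (by
    filter_upwards [h] with x hx
    simp only [hτ, hW, zero_add]
    rw [hx, sub_self])
  set ρ : ℂ × ℂ → ℂ × ℂ := fun p => (p.1, p.2 - s p.1) with hρ
  have hρa : AnalyticAt ℂ ρ 0 := analyticAt_fst.prod (analyticAt_snd.sub hs1)
  have hρ0 : ρ 0 = 0 := by simp [hρ, hs0]
  have hρt : Tendsto ρ (𝓝 0) (𝓝 0) := by
    have := hρa.continuousAt.tendsto
    rwa [hρ0] at this
  have hba : AnalyticAt ℂ (fun p => b (ρ p)) 0 := AnalyticAt.fun_comp (g := b) (f := ρ) (by rw [hρ0]; exact hb) hρa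
  refine ⟨fun p => b (ρ p), hba, ?_, ?_⟩
  · simp only [hρ0]
    have h1 := (dy_of_div hb (by filter_upwards [hWb] with p hp using by simpa using hp)).1
    rw [← h1]
    -- the derivative of `W ∘ τ` at `0` in the direction `(0, 1)`
    have h2 : HasFDerivAt (fun q : ℂ × ℂ => s q.1) ((ContinuousLinearMap.toSpanSingleton ℂ (deriv s 0)).comp (ContinuousLinearMap.fst ℂ ℂ ℂ)) 0 :=
      (show HasFDerivAt s (ContinuousLinearMap.toSpanSingleton ℂ (deriv s 0)) ((0 : ℂ × ℂ).1) from hs.differentiableAt.hasDerivAt.hasFDerivAt).comp 0 hasFDerivAt_fst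
    have h3 : HasFDerivAt τ _ 0 := hasFDerivAt_fst.prodMk ((hasFDerivAt_snd (𝕜 := ℂ) (p := (0 : ℂ × ℂ))).add h2)
    have h4 : HasFDerivAt (fun p => W (τ p)) _ 0 := (show HasFDerivAt W (fderiv ℂ W 0) (τ 0) from by rw [hτ0]; exact hWa.differentiableAt.hasFDerivAt).comp 0 h3
    have h5 : HasFDerivAt W (fderiv ℂ (fun p => (v p).2) 0 - (deriv s ((0 : ℂ × ℂ).1) • fderiv ℂ (fun p => (v p).1) 0 + (v 0).1 • fderiv ℂ (fun q : ℂ × ℂ => deriv s q.1) 0)) 0 :=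
      hv2.differentiableAt.hasFDerivAt.sub (hd1.differentiableAt.hasFDerivAt.mul hv1.differentiableAt.hasFDerivAt)
    have h6 : (v 0).1 = 0 := by rw [hva.self_of_nhds]; simp
    have h7 := (dx_of_div ha hva).2
    rw [dy, h4.fderiv, h5.fderiv, dy, h6]
    rw [dy] at h7
    simp [h7]
  · filter_upwards [hD, hρt.eventually hWb] with p e1 e2
    rw [e1]
    have e3 : τ (ρ p) = p := by ext <;> simp [hτ, hρ]
    rw [e3] at e2
    simpa using e2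

/-- the second invariant curve at a point with `λ₁ ≠ 0` -/
theorem exists_axis {v : ℂ × ℂ → ℂ × ℂ} (hv : AnalyticAt ℂ v 0) (h0 : v 0 = 0) (hE : ∀ᶠ y in 𝓝 (0 : ℂ), (v (0, y)).1 = 0)
    (h1 : dx (fun p => (v p).1) 0 ≠ 0) (h2 : ∀ n : ℕ, 1 ≤ n → dy (fun p => (v p).2) 0 ≠ n * dx (fun p => (v p).1) 0) :
    ∃ (s : ℂ → ℂ) (a b : ℂ × ℂ → ℂ), AnalyticAt ℂ s 0 ∧ s 0 = 0 ∧ AnalyticAt ℂ a 0 ∧ a 0 = dx (fun p => (v p).1) 0 ∧
      AnalyticAt ℂ b 0 ∧ b 0 = dy (fun p => (v p).2) 0 ∧ (∀ᶠ p in 𝓝 (0 : ℂ × ℂ), (v p).1 = p.1 * a p) ∧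
      ∀ᶠ p in 𝓝 (0 : ℂ × ℂ), Dv v (fun q => q.2 - s q.1) p = (p.2 - s p.1) * b p := by
  have hv1 : AnalyticAt ℂ (fun p => (v p).1) 0 := analyticAt_fst.comp hv
  have hv2 : AnalyticAt ℂ (fun p => (v p).2) 0 := analyticAt_snd.comp hv
  obtain ⟨a, ha, hva'⟩ := exists_div_x hv1 hE
  have hva : ∀ᶠ p in 𝓝 (0 : ℂ × ℂ), (v p).1 = p.1 * a p := by filter_upwards [hva'] with p hp using by simpa using hp
  have ha0 : dx (fun p => (v p).1) 0 = a 0 := (dx_of_div ha hva).1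
  have hane : a 0 ≠ 0 := by rw [← ha0]; exact h1
  have hF : AnalyticAt ℂ (fun p => (v p).2 / a p) 0 := hv2.div ha hane
  have hd : fderiv ℂ (fun p => (v p).2 / a p) 0 (0, 1) = dy (fun p => (v p).2) 0 / a 0 := by
    have e1 : (fun p => (v p).2) =ᶠ[𝓝 0] fun p => ((v p).2 / a p) * a p := by
      filter_upwards [ha.continuousAt.eventually_ne hane] with p hp
      rw [div_mul_cancel₀ _ hp]
    have e2 : HasFDerivAt (fun p => ((v p).2 / a p) * a p) (((v 0).2 / a 0) • fderiv ℂ a 0 + a 0 • fderiv ℂ (fun p => (v p).2 / a p) 0) 0 :=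
      hF.differentiableAt.hasFDerivAt.mul ha.differentiableAt.hasFDerivAt
    have e3 := (e2.congr_of_eventuallyEq e1).fderiv
    rw [dy, e3, h0]
    simp [hane]
  obtain ⟨s, hs, hs0, hs1⟩ := briot_bouquet hF (by simp [h0]) (by
    intro n hn
    rw [hd, Ne, div_eq_iff hane]
    rw [← ha0]
    exact h2 n hn)
  have hγ : AnalyticAt ℂ (fun x : ℂ => (x, s x)) 0 := analyticAt_id.prod hs
  have hγt : Tendsto (fun x : ℂ => (x, s x)) (𝓝 0) (𝓝 0) := by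
    have := hγ.continuousAt.tendsto
    rwa [hs0] at this
  have hinv : ∀ᶠ x in 𝓝 (0 : ℂ), (v (x, s x)).2 = deriv s x * (v (x, s x)).1 := by
    filter_upwards [hs1, hγt.eventually hva, hγt.eventually (ha.continuousAt.eventually_ne hane)] with x e1 e2 e3
    rw [e2]
    rw [eq_div_iff e3] at e1
    linear_combination -e1
  obtain ⟨b, hb, hb0, hbD⟩ := axis_of_curve hv ha hva hs hs0 hinv
  exact ⟨s, a, b, hs, hs0, ha, ha0.symm, hb, hb0, hva, hbD⟩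

/-! ### the normal forms with both axes -/

/-- a nondegenerate reduced point with the axes `{X = 0}`, `{Y = 0}` -/
def NodeAt (v : ℂ × ℂ → ℂ × ℂ) (X Y : ℂ × ℂ → ℂ) : Prop :=
  Coord X Y ∧ ∃ a b : ℂ × ℂ → ℂ, AnalyticAt ℂ a 0 ∧ AnalyticAt ℂ b 0 ∧ a 0 ≠ 0 ∧ b 0 ≠ 0 ∧ (∀ k l : ℕ, 1 ≤ k → 1 ≤ l → k * a 0 ≠ l * b 0) ∧
    ∀ᶠ p in 𝓝 (0 : ℂ × ℂ), Dv v X p = X p * a p ∧ Dv v Y p = Y p * b p

/-- a saddle-node with the strong axis `{X = 0}` and the weak axis `{Y = 0}` -/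
def SNAt (v : ℂ × ℂ → ℂ × ℂ) (X Y : ℂ × ℂ → ℂ) : Prop :=
  Coord X Y ∧ ∃ (k : ℕ) (a b : ℂ × ℂ → ℂ), 1 ≤ k ∧ AnalyticAt ℂ a 0 ∧ AnalyticAt ℂ b 0 ∧ a 0 ≠ 0 ∧ b 0 ≠ 0 ∧
    ∀ᶠ p in 𝓝 (0 : ℂ × ℂ), Dv v X p = X p ^ (k + 1) * a p ∧ Dv v Y p = Y p * b p

theorem coord_mul_left {S T w : ℂ × ℂ → ℂ} (h : Coord S T) (hw : AnalyticAt ℂ w 0) (hw0 : w 0 ≠ 0) : Coord (fun p => S p * w (S p, T p)) T := by
  obtain ⟨hS, hT, hS0, hT0⟩ := h.parts
  have h1 : Coord (fun p : ℂ × ℂ => p.1 * w p) (fun p => p.2) := by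
    rw [coord_iff (show AnalyticAt ℂ (fun p : ℂ × ℂ => p.1 * w p) 0 from analyticAt_fst.mul hw) analyticAt_snd (by simp) rfl]
    have e1 := dx_of_div hw (Eventually.of_forall fun p => rfl)
    have e2 := dy_of_div (f := fun p : ℂ × ℂ => p.2) (a := fun _ => 1) analyticAt_const (Eventually.of_forall fun p => (mul_one _).symm)
    rw [e1.1, e1.2, e2.1]
    simpa using hw0
  exact Bihol.comp h1 h

/-- Dulac in the coordinates `S`, `T` -/
theorem dulac_coord {v : ℂ × ℂ → ℂ × ℂ} (hv : AnalyticAt ℂ v 0) (hiso : ∀ᶠ p in 𝓝[≠] (0 : ℂ × ℂ), v p ≠ 0) {S T a b : ℂ × ℂ → ℂ}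
    (h : Coord S T) (ha : AnalyticAt ℂ a 0) (ha0 : a 0 = 0) (hb : AnalyticAt ℂ b 0) (hb0 : b 0 ≠ 0)
    (hD : ∀ᶠ p in 𝓝 (0 : ℂ × ℂ), Dv v S p = S p * a p ∧ Dv v T p = T p * b p) :
    ∃ w : ℂ × ℂ → ℂ, AnalyticAt ℂ w 0 ∧ w 0 ≠ 0 ∧ SNAt v (fun p => S p * w p) T := by
  obtain ⟨hS, hT, hS0, hT0⟩ := h.parts
  obtain ⟨ψ, hψ, hl, hr⟩ := h.exists_inv
  obtain ⟨V, hV, hV1, hV2⟩ := exists_push hv h
  have hψS : ∀ᶠ q in 𝓝 (0 : ℂ × ℂ), S (ψ q) = q.1 ∧ T (ψ q) = q.2 := by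
    filter_upwards [hr] with q hq
    exact ⟨congrArg Prod.fst hq, congrArg Prod.snd hq⟩
  have hVq : ∀ᶠ q in 𝓝 (0 : ℂ × ℂ), V q = (q.1 * a (ψ q), q.2 * b (ψ q)) := by
    filter_upwards [hψ.tendsto.eventually hV1, hψ.tendsto.eventually hD, hψS, hr] with q e1 e2 e3 e4
    rw [e3.1, e3.2] at e1
    rw [← Prod.mk.eta (p := q), e1, e2.1, e2.2, e3.1, e3.2]
  have haψ : AnalyticAt ℂ (fun q => a (ψ q)) 0 := AnalyticAt.fun_comp (g := a) (f := ψ) (by rw [hψ.zero]; exact ha) hψ.an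
  have hbψ : AnalyticAt ℂ (fun q => b (ψ q)) 0 := AnalyticAt.fun_comp (g := b) (f := ψ) (by rw [hψ.zero]; exact hb) hψ.an
  have hV0 : V 0 = 0 := by rw [hVq.self_of_nhds]; simp
  have hV2y : dy (fun q => (V q).2) 0 ≠ 0 := by
    rw [(dy_of_div hbψ (by filter_upwards [hVq] with q hq using by rw [hq])).1]
    simp only [hψ.zero]
    exact hb0
  have hfst : Tendsto (fun y : ℂ => ((0, y) : ℂ × ℂ)) (𝓝 0) (𝓝 0) := (by fun_prop : Continuous fun y : ℂ => ((0, y) : ℂ × ℂ)).tendsto' _ _ rfl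
  obtain ⟨n, w, A, hw, hw0, hA, hA0, hnw⟩ := dulac hV hV0 hV2y (by
    filter_upwards [hfst.eventually hVq] with y hy
    rw [hy]; simp) (Coord.isolated h hV1 hiso)
  have hθ0 : (S 0, T 0) = (0 : ℂ × ℂ) := by rw [hS0, hT0]; rfl
  have hθa : AnalyticAt ℂ (fun p => (S p, T p)) 0 := hS.prod hT
  have hθt : Tendsto (fun p => (S p, T p)) (𝓝 0) (𝓝 0) := h.tendsto
  have hwθ : AnalyticAt ℂ (fun p => w (S p, T p)) 0 := AnalyticAt.fun_comp (g := w) (f := fun p => (S p, T p)) (by rw [hθ0]; exact hw) hθa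
  have hAθ : AnalyticAt ℂ (fun p => A (S p, T p)) 0 := AnalyticAt.fun_comp (g := A) (f := fun p => (S p, T p)) (by rw [hθ0]; exact hA) hθa
  have hDX : ∀ᶠ p in 𝓝 (0 : ℂ × ℂ), Dv v (fun p => S p * w (S p, T p)) p = (S p * w (S p, T p)) ^ (n + 1) * A (S p, T p) := by
    filter_upwards [hV2 (fun q => q.1 * w q) (analyticAt_fst.mul hw), hθt.eventually hnw] with p e1 e2
    exact e1.trans e2
  -- `n ≥ 1`
  have hn : 1 ≤ n := by
    by_contra hn0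
    have hn1 : n = 0 := by omega
    subst hn1
    -- `dx (V.1) 0 = a 0 = 0` but also `= A 0`
    have e1 : ∀ᶠ q in 𝓝 (0 : ℂ × ℂ), Dv V (fun q => q.1 * w q) q = q.1 * (a (ψ q) * w q + Dv V w q) := by
      filter_upwards [hVq, hw.eventually_analyticAt] with q e2 e3
      rw [Dv_mul differentiableAt_fst e3.differentiableAt, Dv_fst, e2]
      ring
    have e2 : ∀ᶠ q in 𝓝 (0 : ℂ × ℂ), Dv V (fun q => q.1 * w q) q = q.1 * (w q * A q) := by
      filter_upwards [hnw] with q hq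
      rw [hq]; ring
    have e3 := (dx_of_div ((haψ.mul hw).add (analyticAt_Dv hV hw)) e1).1
    have e4 := (dx_of_div (hw.mul hA) e2).1
    rw [e3] at e4
    simp only [Pi.add_apply, Pi.mul_apply, hψ.zero, ha0, zero_mul, zero_add] at e4
    have e5 : Dv V w 0 = 0 := by rw [Dv, hV0, map_zero]
    rw [e5] at e4
    exact mul_ne_zero hw0 hA0 e4.symm
  refine ⟨fun p => w (S p, T p), hwθ, by simp only [hθ0]; exact hw0, coord_mul_left h hw hw0, n, fun p => A (S p, T p), b, hn, hAθ, hb,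
    by simp only [hθ0]; exact hA0, hb0, ?_⟩
  filter_upwards [hDX, hD] with p e1 e2
  exact ⟨e1, e2.2⟩

/-- **Corners**: both axes are invariant. -/
theorem corner {v : ℂ × ℂ → ℂ × ℂ} (hv : AnalyticAt ℂ v 0) (h0 : v 0 = 0) (hE : ∀ᶠ y in 𝓝 (0 : ℂ), (v (0, y)).1 = 0)
    (hE' : ∀ᶠ x in 𝓝 (0 : ℂ), (v (x, 0)).2 = 0) (hiso : ∀ᶠ p in 𝓝[≠] (0 : ℂ × ℂ), v p ≠ 0)
    (hne : dx (fun p => (v p).1) 0 ≠ 0 ∨ dy (fun p => (v p).2) 0 ≠ 0)
    (h2 : ∀ k l : ℕ, 1 ≤ k → 1 ≤ l → k * dx (fun p => (v p).1) 0 ≠ l * dy (fun p => (v p).2) 0) :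
    NodeAt v (fun p => p.1) (fun p => p.2) ∨
      (∃ w : ℂ × ℂ → ℂ, AnalyticAt ℂ w 0 ∧ w 0 ≠ 0 ∧ SNAt v (fun p => p.1 * w p) (fun p => p.2)) ∨
      ∃ w : ℂ × ℂ → ℂ, AnalyticAt ℂ w 0 ∧ w 0 ≠ 0 ∧ SNAt v (fun p => p.2 * w p) (fun p => p.1) := by
  have hv1 : AnalyticAt ℂ (fun p => (v p).1) 0 := analyticAt_fst.comp hv
  have hv2 : AnalyticAt ℂ (fun p => (v p).2) 0 := analyticAt_snd.comp hv
  obtain ⟨a, ha, hva'⟩ := exists_div_x hv1 hE
  obtain ⟨b, hb, hvb'⟩ := exists_div_y hv2 hE'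
  have hva : ∀ᶠ p in 𝓝 (0 : ℂ × ℂ), (v p).1 = p.1 * a p := by filter_upwards [hva'] with p hp using by simpa using hp
  have hvb : ∀ᶠ p in 𝓝 (0 : ℂ × ℂ), (v p).2 = p.2 * b p := by filter_upwards [hvb'] with p hp using by simpa using hp
  have ha0 := (dx_of_div ha hva).1
  have hb0 := (dy_of_div hb hvb).1
  have hD : ∀ᶠ p in 𝓝 (0 : ℂ × ℂ), Dv v (fun p => p.1) p = p.1 * a p ∧ Dv v (fun q => q.2) p = p.2 * b p := by
    filter_upwards [hva, hvb] with p e1 e2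
    exact ⟨by rw [Dv_fst, e1], by rw [Dv_snd, e2]⟩
  have hco : Coord (fun p => p.1) (fun p => p.2) := Pool.Agent.H17BP.coord_fst_snd
  rw [ha0, hb0] at hne
  by_cases ha1 : a 0 = 0
  · obtain ⟨w, hw, hw0, hSN⟩ := dulac_coord hv hiso hco ha ha1 hb (hne.resolve_left (fun h => h ha1)) hD
    exact Or.inr (Or.inl ⟨w, hw, hw0, hSN⟩)
  · by_cases hb1 : b 0 = 0
    · obtain ⟨w, hw, hw0, hSN⟩ := dulac_coord hv hiso hco.symm hb hb1 ha ha1 (hD.mono fun p hp => ⟨hp.2, hp.1⟩)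
      exact Or.inr (Or.inr ⟨w, hw, hw0, hSN⟩)
    · exact Or.inl ⟨hco, a, b, ha, hb, ha1, hb1, by rw [← ha0, ← hb0]; exact h2, hD⟩

end Pool.Agent.MQ2

end
end
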