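import Pool.Agent.H43.TL2.M01
import Pool.Agent.H43.TL2.M14
import Pool.Agent.H43.TL2.M21
import Pool.Agent.H43.TL2.M22
import Pool.Agent.H43.TL2.M24
import Pool.Agent.H43.TL2.M34
import Pool.Agent.H43.TL2.MQ.GDefs_1

/-! The parts of this file: MQ.Shell, MQ2.Defs, MQ2.Glue, MQ2.SlopeC. -/

section

/-!
# MQ Shell: the logarithm of a form with high contact with an axis, in a shell around the axis

`q (x, y)` is the form in the coordinates of the box, `q (0, y) = c y ^ n + …`.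
-/

set_option autoImplicit false

open MeasureTheory Topology Filter Metric Laplacian

noncomputable section

namespace Pool.Agent.MQ.AxisA

open Pool.Agent.MQ

/-- the gradient of `ψ (x, y)` -/
theorem norm_gr_comp_le {ψ : ℂ × ℂ → ℝ} {x y : ℂ → ℂ} {z : ℂ} (hψ : DifferentiableAt ℝ ψ (x z, y z)) (hx : AnalyticAt ℂ x z) (hy : AnalyticAt ℂ y z)
    {C : ℝ} (hC : ‖fderiv ℝ ψ (x z, y z)‖ ≤ C) : ‖gr (fun w => ψ (x w, y w)) z‖ ≤ C * max ‖deriv x z‖ ‖deriv y z‖ := by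
  have hx' : HasFDerivAt x ((ContinuousLinearMap.toSpanSingleton ℂ (deriv x z)).restrictScalars ℝ) z :=
    hx.differentiableAt.hasDerivAt.hasFDerivAt.restrictScalars ℝ
  have hy' : HasFDerivAt y ((ContinuousLinearMap.toSpanSingleton ℂ (deriv y z)).restrictScalars ℝ) z :=
    hy.differentiableAt.hasDerivAt.hasFDerivAt.restrictScalars ℝ
  have hp := hx'.prodMk hy'
  have h1 : HasFDerivAt (fun w => ψ (x w, y w)) ((fderiv ℝ ψ (x z, y z)).comp
      (((ContinuousLinearMap.toSpanSingleton ℂ (deriv x z)).restrictScalars ℝ).prod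
        ((ContinuousLinearMap.toSpanSingleton ℂ (deriv y z)).restrictScalars ℝ))) z := hψ.hasFDerivAt.comp z hp
  have hC0 : 0 ≤ C := (norm_nonneg _).trans hC
  rw [norm_gr, h1.fderiv]
  refine ContinuousLinearMap.opNorm_le_bound _ (by positivity) fun v => ?_
  simp only [ContinuousLinearMap.comp_apply]
  refine (ContinuousLinearMap.le_opNorm _ _).trans ?_
  have h2 : ‖(((ContinuousLinearMap.toSpanSingleton ℂ (deriv x z)).restrictScalars ℝ).prod
        ((ContinuousLinearMap.toSpanSingleton ℂ (deriv y z)).restrictScalars ℝ)) v‖ ≤ max ‖deriv x z‖ ‖deriv y z‖ * ‖v‖ := by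
    simp only [ContinuousLinearMap.prod_apply, ContinuousLinearMap.coe_restrictScalars', ContinuousLinearMap.toSpanSingleton_apply, Prod.norm_def,
      norm_smul]
    refine max_le ?_ ?_
    · rw [mul_comm]
      exact mul_le_mul_of_nonneg_right (le_max_left _ _) (norm_nonneg _)
    · rw [mul_comm]
      exact mul_le_mul_of_nonneg_right (le_max_right _ _) (norm_nonneg _)
  calc _ ≤ C * (max ‖deriv x z‖ ‖deriv y z‖ * ‖v‖) := mul_le_mul hC h2 (norm_nonneg _) hC0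
    _ = _ := by ring

end Pool.Agent.MQ.AxisA

end
end

section

/-!
# MQ2 Defs: a box with an arbitrary isolated singular point of the foliation

Everything is in one variable: `Om` is open in `ℂ`, `p : Om → ball 0 r` is a curve tangent to the vector field `v` (`MQ.Crv1`).

* `Child e ι t v w`: `w` is the transform of `v` at the point `t` of the exceptional line `{x = 0}`, old coordinates `(x, x (y + t))`; `x ^ e` has been divided
  out; `ι = 1` if the exceptional line is invariant.  The point `∞` is the point `0` for `swv v`.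
* `Tree v`: `v` is reduced by finitely many blow-ups.
* `Wt v g`: `g` is a (reduced) equation of a curve invariant under `v`.
* `Sep v c`: the germs `c N` are the `N`-jets of a formal curve tangent to `v`.
* `Dat`: the data of a curve in the box and of a form `Q` along it (`q`, `ψ` as in `MQ.shell`).
* `LocX`: the conclusion of the package.
* `Good P v`: the package for `v`, for all weights `g` and Jacobian factors `J` with `P g J`.
-/

set_option autoImplicit false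

open Topology Filter Metric MeasureTheory Asymptotics Laplacian

noncomputable section

namespace Pool.Agent.MQ2

open Pool.Agent.MQ

/-! ## vector fields -/

/-- the vector field in the coordinates `(y, x)` -/
def swv (v : ℂ × ℂ → ℂ × ℂ) (p : ℂ × ℂ) : ℂ × ℂ := (v p.swap).swap

/-- the chart of the blow-up at the direction `(1 : t)` -/
def be (t : ℂ) (p : ℂ × ℂ) : ℂ × ℂ := (p.1, p.1 * (p.2 + t))

/-- `w` is the transform of `v` at the point `t` of the exceptional line -/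
structure Child (e ι : ℕ) (t : ℂ) (v w : ℂ × ℂ → ℂ × ℂ) : Prop where
  an : AnalyticAt ℂ w 0
  fst : ∀ᶠ p in 𝓝 (0 : ℂ × ℂ), (v (be t p)).1 = p.1 ^ e * (w p).1
  snd : ∀ᶠ p in 𝓝 (0 : ℂ × ℂ), (v (be t p)).2 = (p.2 + t) * (v (be t p)).1 + p.1 ^ (e + 1) * (w p).2
  iso : ∀ᶠ p in 𝓝 (0 : ℂ × ℂ), p ≠ 0 → w p ≠ 0
  inv : (ι = 1 ∧ ∀ᶠ y in 𝓝 (0 : ℂ), (w (0, y)).1 = 0) ∨ (ι = 0 ∧ ∀ᶠ y in 𝓝[≠] (0 : ℂ), (w (0, y)).1 ≠ 0)

/-- elementary and reduced: the linear part has the eigenvalues `l ≠ 0` and `k`, and `k / l` is not a positive rational number -/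
def Elem (v : ℂ × ℂ → ℂ × ℂ) : Prop :=
  v 0 = 0 ∧ ∃ l k : ℂ, l + k = (fderiv ℂ v 0 (1, 0)).1 + (fderiv ℂ v 0 (0, 1)).2 ∧
    l * k = (fderiv ℂ v 0 (1, 0)).1 * (fderiv ℂ v 0 (0, 1)).2 - (fderiv ℂ v 0 (0, 1)).1 * (fderiv ℂ v 0 (1, 0)).2 ∧
    l ≠ 0 ∧ ∀ m n : ℕ, 0 < m → 0 < n → (m : ℂ) * l ≠ n * k

/-- reduced by finitely many blow-ups -/
inductive Tree : (ℂ × ℂ → ℂ × ℂ) → Prop
  | reg (v : ℂ × ℂ → ℂ × ℂ) : v 0 ≠ 0 → Tree v
  | elem (v : ℂ × ℂ → ℂ × ℂ) : Elem v → Tree v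
  | blow (v : ℂ × ℂ → ℂ × ℂ) (e ι : ℕ) (w : ℂ → ℂ × ℂ → ℂ × ℂ) (wi : ℂ × ℂ → ℂ × ℂ) : (∀ t, Child e ι t v (w t)) → Child e ι 0 (swv v) wi →
      (∀ t, Tree (w t)) → Tree wi → Tree v

/-- an isolated singular point -/
def Iso (v : ℂ × ℂ → ℂ × ℂ) : Prop := AnalyticAt ℂ v 0 ∧ v 0 = 0 ∧ ∀ᶠ p in 𝓝 (0 : ℂ × ℂ), p ≠ 0 → v p ≠ 0

/-! ## weights and formal separatrices -/

/-- a reduced equation of an invariant curve -/
structure Wt (v : ℂ × ℂ → ℂ × ℂ) (g : ℂ × ℂ → ℂ) : Prop where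
  an : AnalyticAt ℂ g 0
  ne : ∃ᶠ p in 𝓝 (0 : ℂ × ℂ), g p ≠ 0
  cof : ∃ c : ℂ × ℂ → ℂ, AnalyticAt ℂ c 0 ∧ ∀ᶠ p in 𝓝 (0 : ℂ × ℂ), fderiv ℂ g p (v p) = c p * g p
  red : ∀ᶠ p in 𝓝 (0 : ℂ × ℂ), p ≠ 0 → g p = 0 → fderiv ℂ g p ≠ 0

/-- `g` vanishes on the formal curve -/
def FZero (c : ℕ → ℂ → ℂ × ℂ) (g : ℂ × ℂ → ℂ) : Prop := ∀ N, (fun t => g (c N t)) =O[𝓝 0] fun t : ℂ => t ^ (N + 1)

/-- the order of `q` on the formal curve is finite and at least `n` -/
def HasOrd (c : ℕ → ℂ → ℂ × ℂ) (q : ℂ × ℂ → ℂ) (n : ℕ) : Prop :=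
  ∃ n' : ℕ, n ≤ n' ∧ ∀ N, n' ≤ N → analyticOrderAt (fun t => q (c N t)) 0 = n'

/-- a formal curve (`c N` is its `N`-jet) tangent to `v`; if it lies in an analytic curve then it converges -/
structure Sep (v : ℂ × ℂ → ℂ × ℂ) (c : ℕ → ℂ → ℂ × ℂ) : Prop where
  an : ∀ N, AnalyticAt ℂ (c N) 0
  zero : ∀ N, c N 0 = 0
  coh : ∀ N, (fun t => c (N + 1) t - c N t) =O[𝓝 0] fun t : ℂ => t ^ (N + 1)
  tan : ∀ N, (fun t => (v (c N t)).1 * (deriv (c N) t).2 - (v (c N t)).2 * (deriv (c N) t).1) =O[𝓝 0] fun t : ℂ => t ^ N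
  nc : ∃ N, ¬ (c N) =O[𝓝 0] fun t : ℂ => t ^ (N + 1)
  alg : ∀ R : ℂ × ℂ → ℂ, AnalyticAt ℂ R 0 → (∃ᶠ p in 𝓝 (0 : ℂ × ℂ), R p ≠ 0) → FZero c R →
    ∃ γ : ℂ → ℂ × ℂ, AnalyticAt ℂ γ 0 ∧ ∀ N, (fun t => γ t - c N t) =O[𝓝 0] fun t : ℂ => t ^ (N + 1)

/-! ## the package -/

/-- the class of the transforms of the pairs of the class `P`, at the point `t` of the exceptional line -/
def TP (ι : ℕ) (t : ℂ) (P : (ℂ × ℂ → ℂ) → (ℂ × ℂ → ℂ) → Prop) (g₁ J₁ : ℂ × ℂ → ℂ) : Prop :=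
  ∃ (g J : ℂ × ℂ → ℂ) (m : ℕ) (g' : ℂ × ℂ → ℂ), P g J ∧ AnalyticAt ℂ g 0 ∧ AnalyticAt ℂ J 0 ∧ AnalyticAt ℂ g' 0 ∧
    (∀ᶠ p in 𝓝 (0 : ℂ × ℂ), g (be t p) = p.1 ^ m * g' p) ∧ (∀ᶠ p in 𝓝 (0 : ℂ × ℂ), g₁ p = p.1 ^ ι * g' p) ∧
    ∀ᶠ p in 𝓝 (0 : ℂ × ℂ), J₁ p = p.1 * J (be t p)

/-- the class with the coordinates exchanged -/
def SP (P : (ℂ × ℂ → ℂ) → (ℂ × ℂ → ℂ) → Prop) (g J : ℂ × ℂ → ℂ) : Prop := P (fun p => g p.swap) fun p => J p.swap

/-- all pairs -/
def PT : (ℂ × ℂ → ℂ) → (ℂ × ℂ → ℂ) → Prop := fun _ _ => True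

/-- `x` divides `g`, `x ^ M` divides `J` -/
def PX (M : ℕ) (g J : ℂ × ℂ → ℂ) : Prop :=
  (∃ g₀ : ℂ × ℂ → ℂ, AnalyticAt ℂ g₀ 0 ∧ ∀ᶠ p in 𝓝 (0 : ℂ × ℂ), g p = p.1 * g₀ p) ∧
    ∃ J₀ : ℂ × ℂ → ℂ, AnalyticAt ℂ J₀ 0 ∧ ∀ᶠ p in 𝓝 (0 : ℂ × ℂ), J p = p.1 ^ M * J₀ p

/-- `x y` divides `g`, `x` divides `J` -/
def PC (g J : ℂ × ℂ → ℂ) : Prop :=
  (∃ g₀ : ℂ × ℂ → ℂ, AnalyticAt ℂ g₀ 0 ∧ ∀ᶠ p in 𝓝 (0 : ℂ × ℂ), g p = p.1 * p.2 * g₀ p) ∧
    ∃ J₀ : ℂ × ℂ → ℂ, AnalyticAt ℂ J₀ 0 ∧ ∀ᶠ p in 𝓝 (0 : ℂ × ℂ), J p = p.1 * J₀ p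

end Pool.Agent.MQ2

end
end

section

/-!
# MQ2 Glue: gluing of finitely many charts (one variable, no geometry)

`Cht`: a chart of the open set `O` with the closed core `K`.  `Df` is the field, `ell` the logarithm; in the chart `Df = D + N X'/X`, `ell = log |X| + u`.
The result is the field `η - N gr u`, the function `N ell + Φ`.
-/

set_option autoImplicit false

open Topology Filter Metric MeasureTheory Asymptotics Laplacian

noncomputable section

namespace Pool.Agent.MQ2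

open Pool.Agent.H30M (tau LogSing)
open Pool.Agent.MQ

/-- a chart -/
structure Cht (Df : ℂ → ℂ) (ell L : ℂ → ℝ) (V : Set ℂ) (N : ℝ) (l : ℂ → ℝ) (C : ℝ) (O K : Set ℂ) (η D X : ℂ → ℂ) (Φ err u : ℂ → ℝ) : Prop where
  op : IsOpen O
  cl : IsClosed K
  η_cd : ∀ z ∈ O, ContDiffAt ℝ 1 η z
  err_c : ∀ z ∈ O, ContinuousAt err z
  Φ_ls : ∀ z ∈ O, ∃ c, LogSing Φ c z
  out : ∀ z ∈ O, z ∉ K → η z = (starRingEnd ℂ) (D z) ∧ err z = 0 ∧ Φ z = 0
  bd : ∀ z ∈ O, ‖η z‖ ≤ C * l z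
  ineq : ∀ z ∈ O, ContDiffAt ℝ 2 Φ z → 0 ≤ dv η z + Δ Φ z + err z
  X_an : ∀ z ∈ O, AnalyticAt ℂ X z
  X_ne : ∀ z ∈ O, ∃ᶠ w in 𝓝 z, X w ≠ 0
  X_V : ∀ z ∈ O, z ∈ V → X z ≠ 0
  D_eq : ∀ z ∈ O, X z ≠ 0 → Df z = D z + N * (deriv X z / X z)
  ell_eq : ∀ z ∈ O, X z ≠ 0 → ell z = Real.log ‖X z‖ + u z
  u_cd : ∀ z ∈ O, ContDiffAt ℝ 2 u z
  u_gr : ∀ z ∈ O, ‖gr u z‖ ≤ C * l z
  u_bd : ∀ z ∈ O, N * u z ≤ C
  up : ∀ z ∈ O, z ∈ V → ContDiffAt ℝ 2 Φ z → L z + N * Real.log ‖X z‖ + Φ z ≤ C + Real.log (1 + l z)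

variable {Df : ℂ → ℂ} {ell L : ℂ → ℝ} {V : Set ℂ} {N : ℝ} {l : ℂ → ℝ} {C : ℝ} {O K : Set ℂ} {η D X : ℂ → ℂ} {Φ err u : ℂ → ℝ}

theorem Cht.X_ne' (h : Cht Df ell L V N l C O K η D X Φ err u) {z : ℂ} (hz : z ∈ O) : ∀ᶠ w in 𝓝[≠] z, X w ≠ 0 := by
  rcases (h.X_an z hz).eventually_eq_zero_or_eventually_ne_zero with h1 | h1
  · exact absurd h1 fun h2 => h.X_ne z hz (h2.mono fun w hw hw' => hw' hw)
  · exact h1

/-- `log |X|` is smooth where `X ≠ 0` -/
theorem Cht.log_cd (h : Cht Df ell L V N l C O K η D X Φ err u) {z : ℂ} (hz : z ∈ O) (hX : X z ≠ 0) : ContDiffAt ℝ 2 (fun w => Real.log ‖X w‖) z :=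
  Pool.Agent.H30M.contDiffAt_log_norm (h.X_an z hz) hX

theorem Cht.ell_ev (h : Cht Df ell L V N l C O K η D X Φ err u) {z : ℂ} (hz : z ∈ O) (hX : X z ≠ 0) :
    ell =ᶠ[𝓝 z] fun w => Real.log ‖X w‖ + u w := by
  filter_upwards [h.op.mem_nhds hz, (h.X_an z hz).continuousAt.eventually_ne hX] with w hw hXw
  exact h.ell_eq w hw hXw

theorem Cht.gr_ell (h : Cht Df ell L V N l C O K η D X Φ err u) {z : ℂ} (hz : z ∈ O) (hX : X z ≠ 0) :
    gr ell z = (starRingEnd ℂ) (deriv X z / X z) + gr u z := by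
  rw [gr_congr (h.ell_ev hz hX), gr_add ((h.log_cd hz hX).differentiableAt (by norm_num)) ((h.u_cd z hz).differentiableAt (by norm_num)),
    gr_log_norm (h.X_an z hz).differentiableAt hX]

/-- outside the core the field of the chart is the global one -/
theorem Cht.fld (h : Cht Df ell L V N l C O K η D X Φ err u) {z : ℂ} (hz : z ∈ O) (hK : z ∉ K) (hX : X z ≠ 0) :
    η z - N * gr u z = (starRingEnd ℂ) (Df z) - N * gr ell z := by
  rw [(h.out z hz hK).1, h.gr_ell hz hX, h.D_eq z hz hX, map_add, map_mul, Complex.conj_ofReal]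
  ring

theorem Cht.fld_cd (h : Cht Df ell L V N l C O K η D X Φ err u) {z : ℂ} (hz : z ∈ O) : ContDiffAt ℝ 1 (fun w => η w - N * gr u w) z :=
  (h.η_cd z hz).sub (contDiffAt_const.mul (contDiffAt_gr (h.u_cd z hz) (by norm_num)))

theorem Cht.ell_ls (h : Cht Df ell L V N l C O K η D X Φ err u) {z : ℂ} (hz : z ∈ O) : ∃ c, LogSing ell c z := by
  have h1 : analyticOrderAt X z ≠ ⊤ := fun h2 => h.X_ne z hz ((analyticOrderAt_eq_top.1 h2).mono fun w hw hw' => hw' hw)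
  have h2 := (LogSing.log_norm (h.X_an z hz) h1).add (LogSing.of_contDiffAt (h.u_cd z hz))
  refine ⟨_, h2.congr ?_⟩
  filter_upwards [h.X_ne' hz, nhdsWithin_le_nhds (h.op.mem_nhds hz)] with w hXw hw
  exact h.ell_eq w hw hXw

/-- the cores are disjoint from the other charts: the fields agree -/
theorem Cht.agree {O' K' : Set ℂ} {η' D' X' : ℂ → ℂ} {Φ' err' u' : ℂ → ℝ} (h : Cht Df ell L V N l C O K η D X Φ err u)
    (h' : Cht Df ell L V N l C O' K' η' D' X' Φ' err' u') {z : ℂ} (hz : z ∈ O) (hz' : z ∈ O') (hK : z ∉ K) (hK' : z ∉ K') :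
    η z - N * gr u z = η' z - N * gr u' z := by
  have h1 : (fun w => η w - N * gr u w) =ᶠ[𝓝[≠] z] fun w => η' w - N * gr u' w := by
    filter_upwards [h.X_ne' hz, h'.X_ne' hz', nhdsWithin_le_nhds (h.op.mem_nhds hz), nhdsWithin_le_nhds (h'.op.mem_nhds hz'),
      nhdsWithin_le_nhds (h.cl.isOpen_compl.mem_nhds hK), nhdsWithin_le_nhds (h'.cl.isOpen_compl.mem_nhds hK')] with w a1 a2 a3 a4 a5 a6
    rw [h.fld a3 a5 a1, h'.fld a4 a6 a2]
  have h2 : Tendsto (fun w => η w - N * gr u w) (𝓝[≠] z) (𝓝 (η z - N * gr u z)) :=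
    (h.fld_cd hz).continuousAt.tendsto.mono_left nhdsWithin_le_nhds
  have h3 : Tendsto (fun w => η' w - N * gr u' w) (𝓝[≠] z) (𝓝 (η' z - N * gr u' z)) :=
    (h'.fld_cd hz').continuousAt.tendsto.mono_left nhdsWithin_le_nhds
  exact tendsto_nhds_unique (h2.congr' h1) h3

/-- the inequality passes to the limit -/
theorem ineq_of_punctured {η : ℂ → ℂ} {Φ err : ℂ → ℝ} {z : ℂ} (h1 : ContDiffAt ℝ 1 η z) (h2 : ContDiffAt ℝ 2 Φ z) (h3 : ContinuousAt err z)
    (h : ∀ᶠ w in 𝓝[≠] z, 0 ≤ dv η w + Δ Φ w + err w) : 0 ≤ dv η z + Δ Φ z + err z := by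
  have h4 : ContinuousAt (fun w => lp Φ w) z := continuousAt_lp h2
  have h5 : (fun w => Δ Φ w) =ᶠ[𝓝 z] fun w => lp Φ w := by
    filter_upwards [h2.eventually (by simp)] with w hw
    exact (lp_eq_lap hw).symm
  have h6 : ContinuousAt (fun w => dv η w + Δ Φ w + err w) z := ((continuousAt_dv h1).add (h4.congr h5.symm)).add h3
  have h7 : Tendsto (fun w => dv η w + Δ Φ w + err w) (𝓝[≠] z) (𝓝 (dv η z + Δ Φ z + err z)) := h6.tendsto.mono_left nhdsWithin_le_nhds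
  exact ge_of_tendsto h7 h

/-! ## the gluing -/

section glue

variable {ι : Type} [Fintype ι] {Om : Set ℂ} {O K : ι → Set ℂ} {η D X : ι → ℂ → ℂ} {Φ err u : ι → ℂ → ℝ}

open Classical in
/-- the glued field -/
def gfld (N : ℝ) (O : ι → Set ℂ) (η : ι → ℂ → ℂ) (u : ι → ℂ → ℝ) (z : ℂ) : ℂ :=
  if h : ∃ i, z ∈ O i then η h.choose z - N * gr (u h.choose) z else 0

/-- the sum of the functions, extended by zero -/
def gsum (O : ι → Set ℂ) (f : ι → ℂ → ℝ) (z : ℂ) : ℝ := ∑ i, (O i).indicator (f i) z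

theorem gfld_eq (h : ∀ i, Cht Df ell L V N l C (O i) (K i) (η i) (D i) (X i) (Φ i) (err i) (u i)) (hdis : ∀ i j, i ≠ j → ∀ z ∈ K i, z ∉ O j) {i : ι}
    {z : ℂ} (hz : z ∈ O i) : gfld N O η u z = η i z - N * gr (u i) z := by
  classical
  have hex : ∃ i, z ∈ O i := ⟨i, hz⟩
  unfold gfld
  rw [dif_pos hex]
  set j := hex.choose with hj
  have hzj : z ∈ O j := hex.choose_spec
  by_cases hij : i = j
  · rw [← hij]
  · exact (h j).agree (h i) hzj hz (fun h1 => hdis j i (Ne.symm hij) z h1 hz) fun h1 => hdis i j hij z h1 hzj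

/-- on `O i` only the function of the chart `i` is left, if the functions vanish outside the cores -/
theorem gsum_eq {f : ι → ℂ → ℝ} (hf : ∀ i, ∀ z ∈ O i, z ∉ K i → f i z = 0) (hdis : ∀ i j, i ≠ j → ∀ z ∈ K i, z ∉ O j) {i : ι} {z : ℂ} (hz : z ∈ O i) :
    gsum O f z = f i z := by
  classical
  unfold gsum
  rw [Finset.sum_eq_single i]
  · rw [Set.indicator_of_mem hz]
  · intro j _ hji
    by_cases hzj : z ∈ O j
    · rw [Set.indicator_of_mem hzj]
      exact hf j z hzj fun h1 => hdis j i hji z h1 hz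
    · rw [Set.indicator_of_notMem hzj]
  · intro h1
    exact absurd (Finset.mem_univ i) h1

theorem cont_indicator {O K : Set ℂ} {f : ℂ → ℝ} (hO : IsOpen O) (hK : IsClosed K) (hKO : K ⊆ O) (hc : ∀ z ∈ O, ContinuousAt f z)
    (h0 : ∀ z ∈ O, z ∉ K → f z = 0) : Continuous (O.indicator f) := by
  rw [continuous_iff_continuousAt]
  intro z
  by_cases hz : z ∈ O
  · refine (hc z hz).congr ?_
    filter_upwards [hO.mem_nhds hz] with w hw
    rw [Set.indicator_of_mem hw]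
  · have h1 : z ∉ K := fun h => hz (hKO h)
    refine (continuousAt_const (y := (0 : ℝ))).congr ?_
    filter_upwards [hK.isOpen_compl.mem_nhds h1] with w hw
    by_cases hwO : w ∈ O
    · rw [Set.indicator_of_mem hwO, h0 w hwO hw]
    · rw [Set.indicator_of_notMem hwO]

/-- **The gluing.** -/
theorem glue (h : ∀ i, Cht Df ell L V N l C (O i) (K i) (η i) (D i) (X i) (Φ i) (err i) (u i))
    (hKO : ∀ i, K i ⊆ O i) (hsub : ∀ i, O i ⊆ Om) (hcov : ∀ z ∈ Om, ∃ i, z ∈ O i) (hdis : ∀ i j, i ≠ j → ∀ z ∈ K i, z ∉ O j) :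
    ∃ (η' : ℂ → ℂ) (Φ' err' : ℂ → ℝ), (∀ z ∈ Om, ContDiffAt ℝ 1 η' z) ∧ (∀ z ∈ Om, ContinuousAt err' z) ∧ (∀ z ∈ Om, ∃ c, LogSing Φ' c z) ∧
      (∀ i, ∀ z ∈ O i, z ∉ K i → X i z ≠ 0 → η' z = (starRingEnd ℂ) (Df z) - N * gr ell z ∧ err' z = 0 ∧ Φ' z = N * ell z) ∧
      (∀ z ∈ Om, ‖η' z‖ ≤ (C + |N| * C) * l z) ∧ (∀ z ∈ Om, ContDiffAt ℝ 2 Φ' z → 0 ≤ dv η' z + Δ Φ' z + err' z) ∧
      (∀ z ∈ Om, z ∈ V → ContDiffAt ℝ 2 Φ' z → L z + Φ' z ≤ 2 * C + Real.log (1 + l z)) ∧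
      ∀ R, 1 ≤ R → ∫ z in Om, tau R z * err' z = ∑ i, ∫ z in O i, tau R z * err i z := by
  classical
  have he0 : ∀ i, ∀ z ∈ O i, z ∉ K i → err i z = 0 := fun i z hz hK => ((h i).out z hz hK).2.1
  have hΦ0 : ∀ i, ∀ z ∈ O i, z ∉ K i → Φ i z = 0 := fun i z hz hK => ((h i).out z hz hK).2.2
  have ev : ∀ i, ∀ z ∈ O i, ∀ᶠ w in 𝓝 z, w ∈ O i := fun i z hz => (h i).op.mem_nhds hz
  have eη : ∀ i, ∀ z ∈ O i, gfld N O η u =ᶠ[𝓝 z] fun w => η i w - N * gr (u i) w := fun i z hz =>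
    (ev i z hz).mono fun w hw => gfld_eq h hdis hw
  have eE : ∀ i, ∀ z ∈ O i, gsum O err =ᶠ[𝓝 z] err i := fun i z hz => (ev i z hz).mono fun w hw => gsum_eq he0 hdis hw
  have eΦ : ∀ i, ∀ z ∈ O i, (fun w => N * ell w + gsum O Φ w) =ᶠ[𝓝 z] fun w => N * ell w + Φ i w := fun i z hz =>
    (ev i z hz).mono fun w hw => by
      show N * ell w + gsum O Φ w = N * ell w + Φ i w
      rw [gsum_eq hΦ0 hdis hw]
  have cη : ∀ z ∈ Om, ContDiffAt ℝ 1 (gfld N O η u) z := fun z hz => by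
    obtain ⟨i, hi⟩ := hcov z hz
    exact ((h i).fld_cd hi).congr_of_eventuallyEq (eη i z hi)
  have cE : ∀ z ∈ Om, ContinuousAt (gsum O err) z := fun z hz => by
    obtain ⟨i, hi⟩ := hcov z hz
    exact ((h i).err_c z hi).congr (eE i z hi).symm
  refine ⟨gfld N O η u, fun w => N * ell w + gsum O Φ w, gsum O err, cη, cE, ?_, ?_, ?_, ?_, ?_, ?_⟩
  · intro z hz
    obtain ⟨i, hi⟩ := hcov z hz
    obtain ⟨c, hc⟩ := (h i).ell_ls hi
    obtain ⟨c', hc'⟩ := (h i).Φ_ls z hi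
    exact ⟨_, ((hc.const_mul N).add hc').congr ((eΦ i z hi).filter_mono nhdsWithin_le_nhds)⟩
  · intro i z hz hK hX
    refine ⟨?_, ?_, ?_⟩
    · rw [gfld_eq h hdis hz, (h i).fld hz hK hX]
    · rw [gsum_eq he0 hdis hz, he0 i z hz hK]
    · show N * ell z + gsum O Φ z = N * ell z
      rw [gsum_eq hΦ0 hdis hz, hΦ0 i z hz hK, add_zero]
  · intro z hz
    obtain ⟨i, hi⟩ := hcov z hz
    rw [gfld_eq h hdis hi]
    have h1 : ‖(N : ℂ) * gr (u i) z‖ ≤ |N| * (C * l z) := by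
      rw [norm_mul, Complex.norm_real, Real.norm_eq_abs]
      exact mul_le_mul_of_nonneg_left ((h i).u_gr z hi) (abs_nonneg _)
    calc ‖η i z - N * gr (u i) z‖ ≤ ‖η i z‖ + ‖(N : ℂ) * gr (u i) z‖ := norm_sub_le _ _
      _ ≤ C * l z + |N| * (C * l z) := add_le_add ((h i).bd z hi) h1
      _ = (C + |N| * C) * l z := by ring
  · intro z hz hΦz
    obtain ⟨i, hi⟩ := hcov z hz
    refine ineq_of_punctured (cη z hz) hΦz (cE z hz) ?_
    obtain ⟨c', hc'⟩ := (h i).Φ_ls z hi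
    filter_upwards [(h i).X_ne' hi, nhdsWithin_le_nhds (ev i z hi), hc'.eventually] with w hX hw hΦw
    have h1 : dv (gfld N O η u) w = dv (η i) w - N * lp (u i) w := by
      rw [dv_congr (eη i w hw), dv_sub (((h i).η_cd w hw).differentiableAt (by norm_num))
        ((((contDiffAt_gr (m := 1) ((h i).u_cd w hw) (by norm_num)).differentiableAt (by norm_num)).const_mul _)),
        dv_const_mul _ ((contDiffAt_gr (m := 1) ((h i).u_cd w hw) (by norm_num)).differentiableAt (by norm_num))]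
      rfl
    have h2 : Δ (fun w => N * ell w + gsum O Φ w) w = N * lp (u i) w + Δ (Φ i) w := by
      have e1 : (fun w => N * ell w + gsum O Φ w) =ᶠ[𝓝 w] fun x => (N * Real.log ‖X i x‖ + N * u i x) + Φ i x := by
        filter_upwards [eΦ i w hw, (h i).ell_ev hw hX] with x hx hx'
        rw [hx, hx']
        ring
      have c1 := (h i).log_cd hw hX
      have c2 := (h i).u_cd w hw
      have c3 : ContDiffAt ℝ 2 (fun x => N * Real.log ‖X i x‖ + N * u i x) w := (contDiffAt_const.mul c1).add (contDiffAt_const.mul c2)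
      rw [← lp_eq_lap ((c3.add hΦw).congr_of_eventuallyEq e1), lp_congr e1, ← lp_eq_lap hΦw]
      unfold Pool.Agent.MQ.lp
      have e2 : gr (fun x => (N * Real.log ‖X i x‖ + N * u i x) + Φ i x) =ᶠ[𝓝 w] fun x =>
          (N : ℂ) * (starRingEnd ℂ) (deriv (X i) x / X i x) + N * gr (u i) x + gr (Φ i) x := by
        filter_upwards [ev i w hw, ((h i).X_an w hw).continuousAt.eventually_ne hX, hΦw.eventually (by simp)] with x hx hXx hΦx
        have d1 := ((h i).log_cd hx hXx).differentiableAt (by norm_num : (2 : WithTop ℕ∞) ≠ 0)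
        have d2 := ((h i).u_cd x hx).differentiableAt (by norm_num : (2 : WithTop ℕ∞) ≠ 0)
        have d12 : DifferentiableAt ℝ (fun y => N * Real.log ‖X i y‖ + N * u i y) x := (d1.const_mul N).add (d2.const_mul N)
        rw [gr_add d12 (hΦx.differentiableAt (by norm_num)), gr_add (d1.const_mul N) (d2.const_mul N),
          gr_const_mul _ d1, gr_const_mul _ d2, gr_log_norm ((h i).X_an x hx).differentiableAt hXx]
      have a1 : AnalyticAt ℂ (fun x => deriv (X i) x / X i x) w := ((h i).X_an w hw).deriv.div ((h i).X_an w hw) hX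
      have d3 : DifferentiableAt ℝ (fun x => (starRingEnd ℂ) (deriv (X i) x / X i x)) w :=
        (contDiffAt_conj_holo (n := 1) a1).differentiableAt (by norm_num)
      have d4 : DifferentiableAt ℝ (gr (u i)) w := (contDiffAt_gr (m := 1) ((h i).u_cd w hw) (by norm_num)).differentiableAt (by norm_num)
      have d5 : DifferentiableAt ℝ (gr (Φ i)) w := (contDiffAt_gr (m := 1) hΦw (by norm_num)).differentiableAt (by norm_num)
      have d34 : DifferentiableAt ℝ (fun x => (N : ℂ) * (starRingEnd ℂ) (deriv (X i) x / X i x) + N * gr (u i) x) w :=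
        (d3.const_mul _).add (d4.const_mul _)
      rw [dv_congr e2, dv_add d34 d5, dv_add (d3.const_mul _) (d4.const_mul _), dv_const_mul _ d3, dv_const_mul _ d4,
        dv_conj a1.differentiableAt]
      ring
    have h3 := (h i).ineq w hw hΦw
    rw [h1, h2, (eE i w hw).eq_of_nhds]
    linarith
  · intro z hz hzV hΦz
    obtain ⟨i, hi⟩ := hcov z hz
    have hX := (h i).X_V z hi hzV
    have e1 : Φ i =ᶠ[𝓝 z] fun w => (N * ell w + gsum O Φ w) - N * (Real.log ‖X i w‖ + u i w) := by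
      filter_upwards [eΦ i z hi, (h i).ell_ev hi hX] with w hw hw'
      rw [hw, hw']
      ring
    have c1 : ContDiffAt ℝ 2 (Φ i) z :=
      (hΦz.sub (contDiffAt_const.mul (((h i).log_cd hi hX).add ((h i).u_cd z hi)))).congr_of_eventuallyEq e1
    have h1 := (h i).up z hi hzV c1
    have h2 := (h i).u_bd z hi
    show L z + (N * ell z + gsum O Φ z) ≤ _
    rw [gsum_eq hΦ0 hdis hi, (h i).ell_eq z hi hX]
    linarith
  · intro R hR
    have hcont : ∀ i, Continuous ((O i).indicator (err i)) := fun i => cont_indicator (h i).op (h i).cl (hKO i) (h i).err_c (he0 i)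
    have hint : ∀ i, Integrable fun z => tau R z * (O i).indicator (err i) z := fun i =>
      ((Pool.Agent.H30M.contDiff_tau R).continuous.mul (hcont i)).integrable_of_hasCompactSupport (Pool.Agent.H30M.hcs_tau hR).mul_right
    have h1 : ∫ z in Om, tau R z * gsum O err z = ∫ z, tau R z * gsum O err z := by
      refine setIntegral_eq_integral_of_forall_compl_eq_zero fun z hz => ?_
      unfold gsum
      rw [Finset.sum_eq_zero, mul_zero]
      intro i _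
      exact Set.indicator_of_notMem (fun h2 => hz (hsub i h2)) _
    rw [h1]
    have h2 : ∀ z, tau R z * gsum O err z = ∑ i, tau R z * (O i).indicator (err i) z := fun z => by
      unfold gsum
      rw [Finset.mul_sum]
    simp only [h2]
    rw [integral_finsetSum _ fun i _ => hint i]
    refine Finset.sum_congr rfl fun i _ => ?_
    rw [← integral_indicator (h i).op.measurableSet]
    refine integral_congr_ae (Eventually.of_forall fun z => ?_)
    by_cases hz : z ∈ O i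
    · simp [Set.indicator_of_mem hz]
    · simp [Set.indicator_of_notMem hz]

end glue

end Pool.Agent.MQ2

end
end

section

/-!
# MQ2 SlopeC: the slope of a curve
-/

set_option autoImplicit false

open Topology Filter Metric MeasureTheory Asymptotics

noncomputable section

namespace Pool.Agent.MQ2

open Pool.Agent.MQ

/-- an analytic function which is frequently nonzero near `z` is eventually nonzero in the punctured neighbourhood -/
theorem ne_of_frequently {f : ℂ → ℂ} {z : ℂ} (hf : AnalyticAt ℂ f z) (h : ∃ᶠ w in 𝓝 z, f w ≠ 0) : ∀ᶠ w in 𝓝[≠] z, f w ≠ 0 := by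
  rcases hf.eventually_eq_zero_or_eventually_ne_zero with h1 | h1
  · exact absurd (h1.mono fun w hw h2 => h2 hw) h
  · exact h1

/-- two analytic functions which agree in a punctured neighbourhood -/
theorem eq_of_mul {g f₁ f₂ : ℂ → ℂ} {z : ℂ} (hg : AnalyticAt ℂ g z) (h : ∃ᶠ w in 𝓝 z, g w ≠ 0) (h₁ : AnalyticAt ℂ f₁ z) (h₂ : AnalyticAt ℂ f₂ z)
    (he : ∀ᶠ w in 𝓝 z, g w * f₁ w = g w * f₂ w) : ∀ᶠ w in 𝓝 z, f₁ w = f₂ w := by
  have h1 : ∀ᶠ w in 𝓝[≠] z, f₁ w = f₂ w := by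
    filter_upwards [ne_of_frequently hg h, he.filter_mono nhdsWithin_le_nhds] with w h2 h3
    exact mul_left_cancel₀ h2 h3
  exact (h₁.frequently_eq_iff_eventually_eq h₂).1 h1.frequently

/-- near a point with a slope `f` the slope is `f` -/
theorem slope_eq {p : ℂ → ℂ × ℂ} {z : ℂ} (hp : AnalyticAt ℂ p z) (h1 : ∃ᶠ w in 𝓝 z, (p w).1 ≠ 0) {f : ℂ → ℂ} (hf : AnalyticAt ℂ f z)
    (h2 : ∀ᶠ w in 𝓝 z, (p w).2 = (p w).1 * f w) : ∀ᶠ w in 𝓝 z, HasSlope p w ∧ slope p w = f w := by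
  have h3 : ∀ᶠ w in 𝓝 z, ∃ᶠ u in 𝓝 w, (p u).1 ≠ 0 := by
    have h4 := ne_of_frequently (an_fst hp) h1
    rw [eventually_nhdsWithin_iff] at h4
    filter_upwards [h4.eventually_nhds] with w h5
    intro h6
    have h7 : ∀ᶠ u in 𝓝[≠] w, u ∉ ({z} : Set ℂ)ᶜ := by
      filter_upwards [(h5.and h6).filter_mono nhdsWithin_le_nhds] with u h8 h9
      exact h8.2 (h8.1 h9)
    have h8 : ∀ᶠ u in 𝓝[≠] w, u = z := h7.mono fun u hu => by simpa using hu
    by_cases hwz : w = z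
    · subst hwz
      have h9 : ∀ᶠ u in 𝓝[≠] w, False := by
        filter_upwards [h8, self_mem_nhdsWithin] with u h10 h11
        exact h11 h10
      exact h9.exists.choose_spec
    · have h9 : ∀ᶠ u in 𝓝[≠] w, u ≠ z := (eventually_ne_nhds hwz).filter_mono nhdsWithin_le_nhds
      have h10 : ∀ᶠ u in 𝓝[≠] w, False := (h8.and h9).mono fun u hu => hu.2 hu.1
      exact h10.exists.choose_spec
  filter_upwards [h3, hf.eventually_analyticAt, h2.eventually_nhds, hp.eventually_analyticAt] with w h4 h5 h6 h7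
  have h8 : HasSlope p w := ⟨h4, f, h5, h6⟩
  refine ⟨h8, ?_⟩
  classical
  have h9 : slope p w = h8.2.choose w := by
    unfold slope
    rw [dif_pos h8]
  rw [h9]
  obtain ⟨h10, h11⟩ := h8.2.choose_spec
  refine (eq_of_mul (an_fst h7) h4 h10 h5 ?_).self_of_nhds
  filter_upwards [h6, h11] with u h12 h13
  rw [← h12, ← h13]

theorem HasSlope.exists {p : ℂ → ℂ × ℂ} {z : ℂ} (hp : AnalyticAt ℂ p z) (h : HasSlope p z) :
    ∃ f : ℂ → ℂ, AnalyticAt ℂ f z ∧ (∀ᶠ w in 𝓝 z, (p w).2 = (p w).1 * f w) ∧ ∀ᶠ w in 𝓝 z, HasSlope p w ∧ slope p w = f w := by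
  obtain ⟨h1, f, h2, h3⟩ := h
  exact ⟨f, h2, h3, slope_eq hp h1 h2 h3⟩

/-- the slope is analytic -/
theorem HasSlope.an {p : ℂ → ℂ × ℂ} {z : ℂ} (hp : AnalyticAt ℂ p z) (h : HasSlope p z) : AnalyticAt ℂ (slope p) z := by
  obtain ⟨f, h1, -, h3⟩ := h.exists hp
  exact h1.congr (h3.mono fun w hw => hw.2.symm)

theorem HasSlope.eq {p : ℂ → ℂ × ℂ} {z : ℂ} (hp : AnalyticAt ℂ p z) (h : HasSlope p z) : ∀ᶠ w in 𝓝 z, (p w).2 = (p w).1 * slope p w := by
  obtain ⟨f, -, h2, h3⟩ := h.exists hp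
  filter_upwards [h2, h3] with w h4 h5
  rw [h4, h5.2]

theorem be_pt {Om : Set ℂ} {p : ℂ → ℂ × ℂ} {t : ℂ} {ρ : ℝ} {z : ℂ} (hz : z ∈ Omt Om p t ρ) (hp : AnalyticAt ℂ p z) : be t (pt t p z) = p z := by
  have h1 := (hz.2.1.eq hp).self_of_nhds
  unfold be pt
  refine Prod.ext rfl ?_
  show (p z).1 * (slope p z - t + t) = (p z).2
  rw [sub_add_cancel, h1]

/-- every point is in the chart `x` with a slope `≤ K` or in the chart `y` with a slope `≤ 1 / K` -/
theorem slope_cover {p : ℂ → ℂ × ℂ} {z : ℂ} (hp : AnalyticAt ℂ p z) (h : ∃ᶠ w in 𝓝 z, p w ≠ 0) {K : ℝ} (hK : 0 < K) :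
    (HasSlope p z ∧ ‖slope p z‖ ≤ K) ∨ (HasSlope (fun w => (p w).swap) z ∧ ‖slope (fun w => (p w).swap) z‖ ≤ 1 / K) := by
  have hs : AnalyticAt ℂ (fun w => (p w).swap) z := (an_snd hp).prod (an_fst hp)
  -- if `x ^ n a = x`, `x ^ m b = y` with units `a`, `b` then one divides the other
  have key : HasSlope p z ∨ HasSlope (fun w => (p w).swap) z := by
    by_cases h1 : ∃ᶠ w in 𝓝 z, (p w).1 ≠ 0
    · by_cases h2 : ∃ᶠ w in 𝓝 z, (p w).2 ≠ 0
      · obtain ⟨n, a, ha, ha0, hna⟩ := (an_fst hp).exists_eventuallyEq_pow_smul_nonzero_iff.2 (fun h3 => h1 (h3.mono fun w hw h4 => h4 hw))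
        obtain ⟨m, b, hb, hb0, hmb⟩ := (an_snd hp).exists_eventuallyEq_pow_smul_nonzero_iff.2 (fun h3 => h2 (h3.mono fun w hw h4 => h4 hw))
        rcases le_total n m with hnm | hnm
        · left
          refine ⟨h1, fun w => (w - z) ^ (m - n) * (b w / a w), ((analyticAt_id.sub analyticAt_const).pow _).mul (hb.div ha ha0), ?_⟩
          filter_upwards [hna, hmb, ha.continuousAt.eventually_ne ha0] with w h3 h4 h5
          rw [h3, h4, smul_eq_mul, smul_eq_mul]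
          have h6 : (w - z) ^ m = (w - z) ^ n * (w - z) ^ (m - n) := by rw [← pow_add, Nat.add_sub_cancel' hnm]
          rw [h6]
          field_simp
        · right
          refine ⟨h2, fun w => (w - z) ^ (n - m) * (a w / b w), ((analyticAt_id.sub analyticAt_const).pow _).mul (ha.div hb hb0), ?_⟩
          filter_upwards [hna, hmb, hb.continuousAt.eventually_ne hb0] with w h3 h4 h5
          show (p w).1 = (p w).2 * _
          rw [h3, h4, smul_eq_mul, smul_eq_mul]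
          have h6 : (w - z) ^ n = (w - z) ^ m * (w - z) ^ (n - m) := by rw [← pow_add, Nat.add_sub_cancel' hnm]
          rw [h6]
          field_simp
      · left
        refine ⟨h1, fun _ => 0, analyticAt_const, ?_⟩
        rw [Filter.not_frequently] at h2
        filter_upwards [h2] with w hw
        push Not at hw
        rw [hw, mul_zero]
    · right
      rw [Filter.not_frequently] at h1
      refine ⟨?_, fun _ => 0, analyticAt_const, ?_⟩
      · refine (h.and_eventually h1).mono fun w hw => ?_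
        intro h2
        exact hw.1 (Prod.ext (not_not.1 hw.2) h2)
      · filter_upwards [h1] with w hw
        push Not at hw
        show (p w).1 = _
        rw [hw, mul_zero]
  -- if both are defined then the product of the slopes is `1`
  have key2 : ∀ {q : ℂ → ℂ × ℂ}, AnalyticAt ℂ q z → HasSlope q z → ∀ {c : ℝ}, 0 < c → ¬ ‖slope q z‖ ≤ c →
      HasSlope (fun w => (q w).swap) z ∧ ‖slope (fun w => (q w).swap) z‖ ≤ 1 / c := by
    intro q hq hsl c hc hne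
    obtain ⟨f, h1, h2, h3⟩ := hsl.exists hq
    have h4 : slope q z = f z := h3.self_of_nhds.2
    rw [h4] at hne
    push Not at hne
    have h5 : f z ≠ 0 := fun h6 => by
      rw [h6, norm_zero] at hne
      exact absurd hne (not_lt.2 hc.le)
    have hqs : AnalyticAt ℂ (fun w => (q w).swap) z := (an_snd hq).prod (an_fst hq)
    have h6 : ∃ᶠ w in 𝓝 z, ((fun w => (q w).swap) w).1 ≠ 0 := by
      refine ((hsl.1.and_eventually h2).and_eventually (h1.continuousAt.eventually_ne h5)).mono fun w hw => ?_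
      show (q w).2 ≠ 0
      rw [hw.1.2]
      exact mul_ne_zero hw.1.1 hw.2
    have h7 : ∀ᶠ w in 𝓝 z, ((fun w => (q w).swap) w).2 = ((fun w => (q w).swap) w).1 * (f w)⁻¹ := by
      filter_upwards [h2, h1.continuousAt.eventually_ne h5] with w h8 h9
      show (q w).1 = (q w).2 * (f w)⁻¹
      rw [h8, mul_assoc, mul_inv_cancel₀ h9, mul_one]
    have h8 := (slope_eq hqs h6 (h1.inv h5) h7).self_of_nhds
    refine ⟨h8.1, ?_⟩
    rw [h8.2, Pi.inv_apply, norm_inv, one_div]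
    exact inv_anti₀ hc hne.le
  rcases key with h1 | h1
  · by_cases h2 : ‖slope p z‖ ≤ K
    · exact Or.inl ⟨h1, h2⟩
    · exact Or.inr (key2 hp h1 hK h2)
  · by_cases h2 : ‖slope (fun w => (p w).swap) z‖ ≤ 1 / K
    · exact Or.inr ⟨h1, h2⟩
    · have h3 := key2 hs h1 (one_div_pos.2 hK) h2
      rw [one_div_one_div] at h3
      exact Or.inl h3

end Pool.Agent.MQ2

end
end
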