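import Mathlib

/-! The parts of this file: H14.PP.RootDeriv, H17BP.Nodal, H23.Omega, H62.BU.Had, H68.KR.CB1, H68.KR.CB2, MQ3.LiftW, SB.Defs. -/

section

/-!
# BPm RootDeriv: roots of functions without zeros

`f` holomorphic without zeros on `ball z₀ s`, `‖f‖ ≤ η` there. There is a holomorphic `g` with
`exp (g z) = f z` on the ball (a disc is simply connected; e.g. a primitive of `f'/f`,
`DifferentiableOn.isExactOn_ball`, or Mathlib's logarithm / root lemma), `w = exp (g/m)` satisfies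
`‖w‖ = ‖f‖^(1/m) ≤ η^(1/m)`, `w' = (1/m) (f'/f) w`, so `‖w' z₀‖ = (1/m) ‖f z₀‖^(1/m-1) ‖f' z₀‖`, and
Cauchy's estimate on circles of radius `s' < s`, `s' → s`: `‖w' z₀‖ ≤ η^(1/m)/s`.
-/

open Topology Filter Metric

namespace Pool.Agent.H14.PP

private theorem RootDeriv_exp {f : ℂ → ℂ} {z₀ : ℂ} {s : ℝ} (hs : 0 < s)
    (hf : DifferentiableOn ℂ f (ball z₀ s)) (h0 : ∀ z ∈ ball z₀ s, f z ≠ 0) :
    ∃ g : ℂ → ℂ, (∀ z ∈ ball z₀ s, HasDerivAt g (deriv f z / f z) z) ∧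
      ∀ z ∈ ball z₀ s, Complex.exp (g z) = f z := by
  have hz₀ : z₀ ∈ ball z₀ s := mem_ball_self hs
  have hq : DifferentiableOn ℂ (fun z => deriv f z / f z) (ball z₀ s) :=
    (hf.deriv isOpen_ball).div hf h0
  obtain ⟨g, hg0, hg⟩ := hq.isExactOn_ball.with_val_at z₀ (Complex.log (f z₀))
  refine ⟨g, hg, ?_⟩
  have hd : ∀ z ∈ ball z₀ s, HasDerivAt (fun z => Complex.exp (-g z) * f z) 0 z := by
    intro z hz
    have h1 := (hg z hz).neg.cexp
    have h2 := ((hf z hz).differentiableAt (isOpen_ball.mem_nhds hz)).hasDerivAt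
    have h3 := h1.mul h2
    have h4 : Complex.exp (-g z) * -(deriv f z / f z) * f z + Complex.exp (-g z) * deriv f z = 0 := by
      have := h0 z hz
      field_simp
      ring
    rw [← h4]
    exact h3
  intro z hz
  have hc : (fun z => Complex.exp (-g z) * f z) z = (fun z => Complex.exp (-g z) * f z) z₀ :=
    isOpen_ball.is_const_of_deriv_eq_zero (convex_ball z₀ s).isPreconnected
      (fun w hw => (hd w hw).differentiableAt.differentiableWithinAt)
      (fun w hw => (hd w hw).deriv) hz hz₀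
  simp only [hg0] at hc
  rw [Complex.exp_neg (Complex.log (f z₀)), Complex.exp_log (h0 z₀ hz₀), inv_mul_cancel₀ (h0 z₀ hz₀),
    Complex.exp_neg, inv_mul_eq_one₀ (Complex.exp_ne_zero _)] at hc
  exact hc

theorem root_deriv {f : ℂ → ℂ} {z₀ : ℂ} {s η : ℝ} (hs : 0 < s)
    (hf : DifferentiableOn ℂ f (ball z₀ s)) (h0 : ∀ z ∈ ball z₀ s, f z ≠ 0)
    (h1 : ∀ z ∈ ball z₀ s, ‖f z‖ ≤ η) {m : ℕ} (hm : 1 ≤ m) :
    ‖f z₀‖ ^ (-(((m : ℝ) - 1) / m)) * ‖deriv f z₀‖ ≤ m * η ^ (1 / (m : ℝ)) / s := by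
  have hz₀ : z₀ ∈ ball z₀ s := mem_ball_self hs
  obtain ⟨g, hg, hexp⟩ := RootDeriv_exp hs hf h0
  have hm0 : (0 : ℝ) < m := by exact_mod_cast hm
  have hmC : (m : ℂ) ≠ 0 := by exact_mod_cast hm0.ne'
  set w : ℂ → ℂ := fun z => Complex.exp (g z / m) with hw
  have hwd : ∀ z ∈ ball z₀ s, HasDerivAt w (w z * (deriv f z / f z / m)) z := fun z hz =>
    ((hg z hz).div_const (m : ℂ)).cexp
  have hwn : ∀ z ∈ ball z₀ s, ‖w z‖ = ‖f z‖ ^ (1 / (m : ℝ)) := by
    intro z hz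
    have h2 : w z ^ m = f z := by
      rw [hw]
      simp only
      rw [← Complex.exp_nat_mul, mul_div_cancel₀ _ hmC, hexp z hz]
    rw [← h2, norm_pow, ← Real.rpow_natCast, ← Real.rpow_mul (norm_nonneg _),
      mul_one_div_cancel hm0.ne', Real.rpow_one]
  have hη : 0 ≤ η := (norm_nonneg _).trans (h1 z₀ hz₀)
  have hwb : ∀ z ∈ ball z₀ s, ‖w z‖ ≤ η ^ (1 / (m : ℝ)) := fun z hz => by
    rw [hwn z hz]
    exact Real.rpow_le_rpow (norm_nonneg _) (h1 z hz) (by positivity)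
  -- Cauchy
  have hC : ∀ s', 0 < s' → s' < s → ‖deriv w z₀‖ ≤ η ^ (1 / (m : ℝ)) / s' := by
    intro s' h1' h2'
    apply Complex.norm_deriv_le_of_forall_mem_sphere_norm_le h1'
    · refine DifferentiableOn.diffContOnCl fun z hz => ?_
      have hz' : z ∈ ball z₀ s :=
        (closure_ball_subset_closedBall.trans (closedBall_subset_ball h2')) hz
      exact (hwd z hz').differentiableAt.differentiableWithinAt
    · intro z hz
      exact hwb z (mem_ball.mpr (by rw [mem_sphere.mp hz]; exact h2'))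
  have hC2 : ‖deriv w z₀‖ * s ≤ η ^ (1 / (m : ℝ)) := by
    have ht : Tendsto (fun s' : ℝ => ‖deriv w z₀‖ * s') (𝓝[<] s) (𝓝 (‖deriv w z₀‖ * s)) :=
      (tendsto_const_nhds.mul tendsto_id).mono_left nhdsWithin_le_nhds
    refine le_of_tendsto ht ?_
    filter_upwards [Ioo_mem_nhdsLT hs] with s' hs'
    exact (le_div_iff₀ hs'.1).mp (hC s' hs'.1 hs'.2)
  have hval : ‖deriv w z₀‖ = ‖f z₀‖ ^ (-(((m : ℝ) - 1) / m)) * ‖deriv f z₀‖ / m := by
    rw [(hwd z₀ hz₀).deriv, norm_mul, hwn z₀ hz₀, norm_div, norm_div, Complex.norm_natCast]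
    have hf0 : 0 < ‖f z₀‖ := norm_pos_iff.mpr (h0 z₀ hz₀)
    have h3 : ‖f z₀‖ ^ (-(((m : ℝ) - 1) / m)) = ‖f z₀‖ ^ (1 / (m : ℝ)) / ‖f z₀‖ := by
      rw [← Real.rpow_sub_one hf0.ne']
      congr 1
      field_simp
      ring
    rw [h3]
    ring
  have h5 : ‖f z₀‖ ^ (-(((m : ℝ) - 1) / m)) * ‖deriv f z₀‖ = m * ‖deriv w z₀‖ := by
    rw [hval]
    field_simp
  rw [h5, le_div_iff₀ hs, mul_assoc]
  exact mul_le_mul_of_nonneg_left hC2 hm0.le

end Pool.Agent.H14.PP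

end

section

/-!
# The nodal case
-/

open Topology Filter

noncomputable section

namespace Pool.Agent.H17BP

variable {V : Type} [NormedAddCommGroup V] [NormedSpace ℂ V]

/-- the family of equations as one function -/
def Nodal_Q {κ : Type} [Fintype κ] (Q : κ → V → ℂ) (x : V) : EuclideanSpace ℂ κ := WithLp.toLp 2 fun i => Q i x

end Pool.Agent.H17BP

end
end

section

set_option linter.style.haveILetI false

noncomputable section

namespace Pool.Agent.H23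

open scoped TensorProduct

variable {K : Type*} [Field K] [Algebra ℂ K]

lemma exists_poly_of_basis {σ : Type*} {g : σ → K} (hg : IsTranscendenceBasis ℂ g) (a : K) :
    ∃ F : Polynomial (MvPolynomial σ ℂ), F ≠ 0 ∧
      F.eval₂ (MvPolynomial.aeval g).toRingHom a = 0 := by
  have h1 := hg.isAlgebraic
  obtain ⟨p, hp, hpa⟩ := h1.isAlgebraic a
  let e : Algebra.adjoin ℂ (Set.range g) →+* MvPolynomial σ ℂ :=
    (hg.1.aevalEquiv.symm : Algebra.adjoin ℂ (Set.range g) →+* MvPolynomial σ ℂ)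
  have he : (MvPolynomial.aeval g).toRingHom.comp e =
      algebraMap (Algebra.adjoin ℂ (Set.range g)) K := by
    ext x
    have h2 := hg.1.algebraMap_aevalEquiv (hg.1.aevalEquiv.symm x)
    rw [AlgEquiv.apply_symm_apply] at h2
    exact h2.symm
  refine ⟨p.map e, ?_, ?_⟩
  · rwa [Ne, Polynomial.map_eq_zero_iff]
    exact hg.1.aevalEquiv.symm.injective
  · rw [Polynomial.eval₂_map, he]
    exact hpa

/-- For a transcendence basis `g` of `K/ℂ`, the differentials `dg i` form a basis of `Ω_{K/ℂ}`. -/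
theorem exists_basis_kaehler {σ : Type*} {g : σ → K} (hg : IsTranscendenceBasis ℂ g) :
    ∃ b : Module.Basis σ K Ω[K⁄ℂ], ∀ i, b i = KaehlerDifferential.D ℂ K (g i) := by
  classical
  letI alg1 : Algebra (MvPolynomial σ ℂ) K := (MvPolynomial.aeval g).toRingHom.toAlgebra
  have hmap : ∀ r, algebraMap (MvPolynomial σ ℂ) K r = MvPolynomial.aeval g r := fun _ => rfl
  haveI : FaithfulSMul (MvPolynomial σ ℂ) K := by
    rw [faithfulSMul_iff_algebraMap_injective]
    exact hg.1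
  haveI : IsScalarTower ℂ (MvPolynomial σ ℂ) K := by
    apply IsScalarTower.of_algebraMap_eq
    intro c
    rw [hmap, MvPolynomial.algebraMap_eq, MvPolynomial.aeval_C]
  letI alg2 : Algebra (FractionRing (MvPolynomial σ ℂ)) K := FractionRing.liftAlgebra _ K
  haveI : IsScalarTower (MvPolynomial σ ℂ) (FractionRing (MvPolynomial σ ℂ)) K :=
    inferInstance
  haveI : Algebra.IsAlgebraic (MvPolynomial σ ℂ) K := by
    refine ⟨fun a => ?_⟩
    obtain ⟨F, h1, h2⟩ := exists_poly_of_basis hg a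
    exact ⟨F, h1, h2⟩
  haveI : Algebra.IsAlgebraic (FractionRing (MvPolynomial σ ℂ)) K :=
    (IsFractionRing.comap_isAlgebraic_iff (A := (MvPolynomial σ ℂ))).1 this
  haveI : CharZero (FractionRing (MvPolynomial σ ℂ)) :=
    algebraRat.charZero _
  haveI : Algebra.IsSeparable (FractionRing (MvPolynomial σ ℂ)) K := inferInstance
  haveI : Algebra.FormallyEtale (MvPolynomial σ ℂ) (FractionRing (MvPolynomial σ ℂ)) :=
    Algebra.FormallyEtale.of_isLocalization (nonZeroDivisors _)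
  haveI : Algebra.FormallyEtale (FractionRing (MvPolynomial σ ℂ)) K :=
    Algebra.FormallyEtale.of_isSeparable _ K
  haveI : Algebra.FormallyEtale (MvPolynomial σ ℂ) K :=
    Algebra.FormallyEtale.comp _ (FractionRing (MvPolynomial σ ℂ)) _
  let e := KaehlerDifferential.tensorKaehlerEquivOfFormallyEtale ℂ (MvPolynomial σ ℂ) K
  let b := ((KaehlerDifferential.mvPolynomialBasis ℂ σ).baseChange K).map e
  refine ⟨b, fun i => ?_⟩
  simp only [b, Module.Basis.map_apply, Module.Basis.baseChange_apply,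
    KaehlerDifferential.mvPolynomialBasis_apply]
  rw [KaehlerDifferential.tensorKaehlerEquivOfFormallyEtale_apply]
  rw [KaehlerDifferential.mapBaseChange_tmul, one_smul, KaehlerDifferential.map_D, hmap,
    MvPolynomial.aeval_X]

end Pool.Agent.H23

end
end

section

/-!
# BU Had: Hadamard's lemma

If `f` is analytic at `x₀` then `f x = f x₀ + S x (x - x₀)` near `x₀` with `S` analytic at `x₀`, `S x₀ = fderiv f x₀`.
-/

set_option autoImplicit false

namespace Pool.Agent.H62.BU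

open Filter Topology

variable {E F : Type*} [NormedAddCommGroup E] [NormedSpace ℂ E] [NormedAddCommGroup F] [NormedSpace ℂ F]

/-- Hadamard's lemma for analytic functions -/
theorem hadamard [CompleteSpace F] {f : E → F} {x₀ : E} (hf : AnalyticAt ℂ f x₀) :
    ∃ S : E → E →L[ℂ] F, AnalyticAt ℂ S x₀ ∧ S x₀ = fderiv ℂ f x₀ ∧ ∀ᶠ x in 𝓝 x₀, f x = f x₀ + S x (x - x₀) := by
  obtain ⟨p, r, hp⟩ := hf
  have hr : r ≤ p.shift.radius := by
    rw [FormalMultilinearSeries.radius_shift]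
    exact hp.r_le
  have hpos : 0 < p.shift.radius := lt_of_lt_of_le hp.r_pos hr
  have h1 : HasFPowerSeriesOnBall p.shift.sum p.shift 0 r :=
    p.shift.hasFPowerSeriesOnBall hpos |>.mono hp.r_pos hr
  set S : E → E →L[ℂ] F := fun x => p.shift.sum (x - x₀) with hS
  have h2 : HasFPowerSeriesOnBall S p.shift x₀ r := by
    have := h1.comp_sub x₀
    simpa using this
  have h3 := h2.unshift (z := f x₀)
  have h4 : p.shift.unshift (f x₀) = p := by
    ext n
    cases n with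
    | zero =>
      rw [FormalMultilinearSeries.unshift]
      simp only [ContinuousMultilinearMap.uncurry0_apply, continuousMultilinearCurryFin0_symm_apply]
      exact (hp.coeff_zero _).symm
    | succ n =>
      simp only [FormalMultilinearSeries.unshift, FormalMultilinearSeries.shift]
      simp
  have h5 : ∀ᶠ x in 𝓝 x₀, f x = f x₀ + S x (x - x₀) := by
    have e1 : HasFPowerSeriesOnBall (fun y => f x₀ + S y (y - x₀)) p x₀ r := by
      rw [h4] at h3
      exact h3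
    have e2 := hp.unique e1
    filter_upwards [Metric.eball_mem_nhds x₀ hp.r_pos] with x hx
    exact e2 hx
  refine ⟨S, h2.analyticAt, ?_, h5⟩
  have e3 : HasFDerivAt f (S x₀) x₀ := by
    have e4 : HasFDerivAt (fun y => f x₀ + S y (y - x₀)) (S x₀) x₀ := by
      have e5 : HasFDerivAt S (fderiv ℂ S x₀) x₀ := h2.analyticAt.differentiableAt.hasFDerivAt
      have e6 : HasFDerivAt (fun y : E => y - x₀) (ContinuousLinearMap.id ℂ E) x₀ :=
        (hasFDerivAt_id x₀).sub_const x₀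
      have e7 := (e5.clm_apply e6).const_add (f x₀)
      refine e7.congr_fderiv ?_
      ext v
      simp
    exact e4.congr_of_eventuallyEq h5
  exact e3.fderiv.symm

end Pool.Agent.H62.BU

end

section

/-!
# KR CB1: a jointly analytic function as an analytic family of functions on a compact set

`S ⊆ ℂ` compact, `f : ℂ × ℂ → ℂ` analytic at all points `(0, ζ)`, `ζ ∈ S`.  Then `x ↦ f (x, ·)` is an analytic map
from a neighbourhood of `0` into the Banach space `C(S, ℂ)`.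

Proof.  By compactness of `S` (tube lemma: `generalized_tube_lemma` or `IsCompact.induction_on`/finite cover, the set
`{p | AnalyticAt ℂ f p}` is open: `isOpen_analyticAt`) there is `r > 0` such that `f` is analytic at all `(x, ζ)` with
`|x| < 2 r`, `ζ ∈ S`.  Put `Φ x = ⟨fun ζ => f (x, ζ), _⟩` for `|x| < 2 r` (continuous), `0` otherwise, and in the same
way `Ψ x ζ = ∂f/∂x (x, ζ) = fderiv ℂ f (x, ζ) (1, 0)`.  It is enough (`DifferentiableOn.analyticAt`, one complex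
variable, Banach space valued) to prove `HasDerivAt Φ (Ψ x) x` for `|x| < r`.  Let `ε > 0`.  `∂f/∂x` is uniformly
continuous on the compact set `closedBall 0 r ×ˢ S`, moreover continuous near it; choose `δ` such that
`‖∂f/∂x (x + h, ζ) - ∂f/∂x (x, ζ)‖ ≤ ε` for `|h| ≤ δ` and all `ζ ∈ S` (`|x + h| < 2 r`; take the compact set
`closedBall x δ₀ ×ˢ S`, `IsCompact.uniformContinuousOn_of_continuous`).  The function
`g (s) = f (s, ζ) - s * ∂f/∂x (x, ζ)` has `‖g' (s)‖ ≤ ε` for `|s - x| ≤ δ`, so by the mean value inequality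
(`Convex.norm_image_sub_le_of_norm_hasDerivWithin_le`, `convex_ball`)
`‖f (x + h, ζ) - f (x, ζ) - h ∂f/∂x (x, ζ)‖ ≤ ε |h|` for all `ζ ∈ S` and `|h| < δ`, that is
`‖Φ (x + h) - Φ x - h • Ψ x‖ ≤ ε |h|` (`ContinuousMap.norm_le`), which is `hasDerivAt_iff_isLittleO` /
`hasDerivAt_iff_isLittleO_nhds_zero`.

(Another possible proof: composition with `f` is an analytic map `C(S, ℂ × ℂ) → C(S, ℂ)`.)
-/

set_option autoImplicit false

open Topology Filter Metric

noncomputable section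

namespace Pool.Agent.H68.KR

open scoped Classical in
/-- The restriction of a function to `S` as a continuous map (`0` if it is not continuous). -/
private def CB1_restr (S : Set ℂ) (g : ℂ → ℂ) : C(S, ℂ) :=
  if h : Continuous fun ζ : S => g (ζ : ℂ) then ⟨fun ζ : S => g (ζ : ℂ), h⟩ else 0

private theorem CB1_restr_apply {S : Set ℂ} {g : ℂ → ℂ} (h : ∀ ζ ∈ S, ContinuousAt g ζ) (ζ : S) :
    CB1_restr S g ζ = g (ζ : ℂ) := by
  have h1 : Continuous fun ζ : S => g (ζ : ℂ) := by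
    rw [continuous_iff_continuousAt]
    intro z
    exact ContinuousAt.comp (h z z.2) continuous_subtype_val.continuousAt
  rw [CB1_restr, dif_pos h1]
  rfl

private theorem CB1_hasDerivAt {f : ℂ × ℂ → ℂ} {x ζ : ℂ} (h : AnalyticAt ℂ f (x, ζ)) :
    HasDerivAt (fun s => f (s, ζ)) (fderiv ℂ f (x, ζ) (1, 0)) x := by
  have h1 : HasDerivAt (fun s : ℂ => (s, ζ)) ((1 : ℂ), (0 : ℂ)) x :=
    (hasDerivAt_id x).prodMk (hasDerivAt_const x ζ)
  have h2 : HasFDerivAt f (fderiv ℂ f (x, ζ)) (x, ζ) := h.differentiableAt.hasFDerivAt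
  exact h2.comp_hasDerivAt x h1

private theorem CB1_continuousAt {f : ℂ × ℂ → ℂ} {p : ℂ × ℂ} (h : AnalyticAt ℂ f p) :
    ContinuousAt (fun q : ℂ × ℂ => fderiv ℂ f q (1, 0)) p := by
  have h1 : ContinuousAt (fderiv ℂ f) p := h.fderiv.continuousAt
  exact h1.clm_apply continuousAt_const

private theorem CB1_deriv {S : Set ℂ} (hS : IsCompact S) [CompactSpace S] {f : ℂ × ℂ → ℂ} {x : ℂ}
    (hx : ∀ ζ ∈ S, AnalyticAt ℂ f (x, ζ)) :
    HasDerivAt (fun s : ℂ => CB1_restr S fun ζ => f (s, ζ))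
      (CB1_restr S fun ζ => fderiv ℂ f (x, ζ) (1, 0)) x := by
  have hcont : ∀ y : ℂ, (∀ ζ ∈ S, AnalyticAt ℂ f (y, ζ)) → ∀ ζ ∈ S,
      ContinuousAt (fun z => f (y, z)) ζ := by
    intro y hy ζ hζ
    exact ContinuousAt.comp (f := fun z : ℂ => (y, z)) (hy ζ hζ).continuousAt (by fun_prop)
  have hcont' : ∀ ζ ∈ S, ContinuousAt (fun z => fderiv ℂ f (x, z) (1, 0)) ζ := by
    intro ζ hζ
    exact ContinuousAt.comp (f := fun z : ℂ => (x, z)) (CB1_continuousAt (hx ζ hζ)) (by fun_prop)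
  rw [hasDerivAt_iff_isLittleO, Asymptotics.isLittleO_iff]
  intro c hc
  have h1 : ∀ᶠ y in 𝓝 x, ∀ ζ ∈ S, AnalyticAt ℂ f (y, ζ) :=
    hS.eventually_forall_of_forall_eventually fun ζ hζ => (hx ζ hζ).eventually_analyticAt
  have h2 : ∀ᶠ y in 𝓝 x, ∀ ζ ∈ S,
      ‖fderiv ℂ f (y, ζ) (1, 0) - fderiv ℂ f (x, ζ) (1, 0)‖ < c := by
    refine hS.eventually_forall_of_forall_eventually
      (P := fun y ζ => ‖fderiv ℂ f (y, ζ) (1, 0) - fderiv ℂ f (x, ζ) (1, 0)‖ < c) fun ζ hζ => ?_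
    have h3 : ContinuousAt (fun q : ℂ × ℂ => fderiv ℂ f (q.1, q.2) (1, 0)) (x, ζ) :=
      CB1_continuousAt (hx ζ hζ)
    have h4 : ContinuousAt (fun q : ℂ × ℂ => fderiv ℂ f (x, q.2) (1, 0)) (x, ζ) :=
      ContinuousAt.comp (f := fun q : ℂ × ℂ => (x, q.2))
        (g := fun q : ℂ × ℂ => fderiv ℂ f q (1, 0)) (CB1_continuousAt (hx ζ hζ)) (by fun_prop)
    have h5 := (h3.sub h4).norm
    refine h5.eventually_lt continuousAt_const ?_
    simpa using hc
  obtain ⟨δ, hδ, hb⟩ := Metric.eventually_nhds_iff_ball.1 (h1.and h2)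
  filter_upwards [Metric.ball_mem_nhds x hδ] with y hy
  rw [ContinuousMap.norm_le _ (by positivity)]
  intro ζ
  have h6 : ∀ s ∈ Metric.ball x δ, HasDerivWithinAt
      (fun s => f (s, (ζ : ℂ)) - s * fderiv ℂ f (x, (ζ : ℂ)) (1, 0))
      (fderiv ℂ f (s, (ζ : ℂ)) (1, 0) - fderiv ℂ f (x, (ζ : ℂ)) (1, 0)) (Metric.ball x δ) s := by
    intro s hs
    have h7 := CB1_hasDerivAt ((hb s hs).1 ζ ζ.2)
    have h8 : HasDerivAt (fun s : ℂ => s * fderiv ℂ f (x, (ζ : ℂ)) (1, 0))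
        (1 * fderiv ℂ f (x, (ζ : ℂ)) (1, 0)) s := (hasDerivAt_id s).mul_const _
    rw [one_mul] at h8
    exact (h7.sub h8).hasDerivWithinAt
  have h9 := (convex_ball x δ).norm_image_sub_le_of_norm_hasDerivWithin_le h6
    (fun s hs => ((hb s hs).2 ζ ζ.2).le) (Metric.mem_ball_self hδ) hy
  have h10 : (CB1_restr S (fun ζ => f (y, ζ)) - CB1_restr S (fun ζ => f (x, ζ)) -
      (y - x) • CB1_restr S fun ζ => fderiv ℂ f (x, ζ) (1, 0)) ζ =
      f (y, (ζ : ℂ)) - y * fderiv ℂ f (x, (ζ : ℂ)) (1, 0) -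
        (f (x, (ζ : ℂ)) - x * fderiv ℂ f (x, (ζ : ℂ)) (1, 0)) := by
    rw [ContinuousMap.sub_apply, ContinuousMap.sub_apply, ContinuousMap.smul_apply,
      CB1_restr_apply (hcont y (hb y hy).1), CB1_restr_apply (hcont x hx),
      CB1_restr_apply hcont', smul_eq_mul]
    ring
  rw [h10]
  exact h9

theorem exists_family {S : Set ℂ} (hS : IsCompact S) [CompactSpace S] {f : ℂ × ℂ → ℂ}
    (hf : ∀ ζ ∈ S, AnalyticAt ℂ f (0, ζ)) :
    ∃ Φ : ℂ → C(S, ℂ), AnalyticAt ℂ Φ 0 ∧ ∀ᶠ x in 𝓝 (0 : ℂ), ∀ ζ : S, Φ x ζ = f (x, (ζ : ℂ)) := by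
  have h1 : ∀ᶠ y in 𝓝 (0 : ℂ), ∀ ζ ∈ S, AnalyticAt ℂ f (y, ζ) :=
    hS.eventually_forall_of_forall_eventually fun ζ hζ => (hf ζ hζ).eventually_analyticAt
  refine ⟨fun s : ℂ => CB1_restr S fun ζ => f (s, ζ), ?_, ?_⟩
  · rw [Complex.analyticAt_iff_eventually_differentiableAt]
    filter_upwards [h1] with y hy
    exact (CB1_deriv hS hy).differentiableAt
  · filter_upwards [h1] with y hy ζ
    refine CB1_restr_apply (g := fun z => f (y, z)) (fun z hz => ?_) ζ
    exact ContinuousAt.comp (f := fun z : ℂ => (y, z)) (hy z hz).continuousAt (by fun_prop)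

end Pool.Agent.H68.KR

end
end

section

/-!
# KR CB2: Cauchy's integral with an analytic parameter

`A, B` are analytic at the points `(0, ζ)`, `|ζ| = ρ`, and `B (0, ζ) ≠ 0` there.  Let `S = sphere 0 ρ` (compact).

* `exists_functional`: `I g = (2πi)⁻¹ ∮ g (ζ) dζ` is a continuous linear functional of `C(S, ℂ)`: it is
  `(2πi)⁻¹ • ∫ θ in 0..2π, deriv (circleMap 0 ρ) θ * g (circleMap 0 ρ θ)` with `circleMap 0 ρ θ ∈ S`
  (`circleMap_mem_sphere`), linear, and of norm `≤ ρ` (`intervalIntegral.norm_integral_le_of_norm_le_const`),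
  `LinearMap.mkContinuous`.  For `h : ℂ → ℂ` with `g ζ = h ζ` on `S`: `I g = (2πi)⁻¹ ∮ h`.
* `exists_kernel`: for `|y₀| < ρ` there is `κ : ℂ → C(S, ℂ)` analytic at `y₀` with `κ y ζ = (ζ - y)⁻¹` for `y` near
  `y₀`: `κ y = Ring.inverse (ι - y • 1)` with `ι ζ = ζ`; `ι - y₀ • 1` is a unit of the Banach algebra `C(S, ℂ)`
  (no zero: `ContinuousMap.isUnit_iff_forall_ne_zero`), `analyticAt_inverse`, and `Ring.inverse` of a unit is the
  pointwise inverse.
* `exists_cauchy`: `𝓐, 𝓑 : ℂ → C(S, ℂ)` from `exists_family`, `𝓑 0` is a unit, so `x ↦ Ring.inverse (𝓑 x)` is analytic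
  at `0`, with the values `1 / B (x, ζ)` for `x` near `0` (units are open).  One fixed function
  `κ y = Ring.inverse (ι - y • 1)`.  `Φ (x, y) = I (𝓐 x * Ring.inverse (𝓑 x) * κ y)` is analytic at `(0, y)` for
  `|y| < ρ` (compositions with `Prod.fst`, `Prod.snd`, product in a Banach algebra, continuous linear `I`).
  If `A (x, ζ) = B (x, ζ) q (ζ)` on `S`, then the function in `I` is `ζ ↦ q ζ / (ζ - y)`, so `Φ (x, y) = q y` by
  Cauchy's formula (`DiffContOnCl.two_pi_i_inv_smul_circleIntegral_sub_inv_smul` or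
  `Complex.two_pi_I_inv_smul_circleIntegral_sub_inv_smul_of_differentiable_on_off_countable`).
-/

set_option autoImplicit false

open Topology Filter Metric

noncomputable section

namespace Pool.Agent.H68.KR

private theorem CB2_inverse_apply {S : Set ℂ} [CompactSpace S] {u : C(S, ℂ)} (hu : IsUnit u) (ζ : S) :
    Ring.inverse u ζ = (u ζ)⁻¹ := by
  have h1 : Ring.inverse u * u = 1 := Ring.inverse_mul_cancel u hu
  have h2 : Ring.inverse u ζ * u ζ = 1 := by
    have h3 := DFunLike.congr_fun h1 ζ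
    simpa using h3
  exact eq_inv_of_mul_eq_one_left h2

private theorem CB2_exists_functional {ρ : ℝ} (hρ : 0 < ρ) [CompactSpace (sphere (0 : ℂ) ρ)] :
    ∃ J : C(sphere (0 : ℂ) ρ, ℂ) →L[ℂ] ℂ, ∀ (g : C(sphere (0 : ℂ) ρ, ℂ)) (h : ℂ → ℂ),
      (∀ ζ : sphere (0 : ℂ) ρ, g ζ = h ζ) →
      J g = (2 * Real.pi * Complex.I : ℂ)⁻¹ • ∮ ζ in C(0, ρ), h ζ := by
  set c : ℝ → sphere (0 : ℂ) ρ := fun θ => ⟨circleMap 0 ρ θ, circleMap_mem_sphere 0 hρ.le θ⟩ with hc
  have hcc : Continuous c := (continuous_circleMap 0 ρ).subtype_mk _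
  have hdc : Continuous fun θ => deriv (circleMap 0 ρ) θ := by
    simp only [deriv_circleMap]
    exact (continuous_circleMap 0 ρ).mul continuous_const
  have hint : ∀ g : C(sphere (0 : ℂ) ρ, ℂ), IntervalIntegrable
      (fun θ => deriv (circleMap 0 ρ) θ • g (c θ)) MeasureTheory.volume 0 (2 * Real.pi) := fun g =>
    (hdc.smul (g.continuous.comp hcc)).intervalIntegrable _ _
  set L : C(sphere (0 : ℂ) ρ, ℂ) →ₗ[ℂ] ℂ :=
    { toFun := fun g => ∫ θ in (0 : ℝ)..2 * Real.pi, deriv (circleMap 0 ρ) θ • g (c θ)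
      map_add' := fun g g' => by
        rw [← intervalIntegral.integral_add (hint g) (hint g')]
        refine intervalIntegral.integral_congr fun θ _ => ?_
        simp only [ContinuousMap.add_apply, smul_add]
      map_smul' := fun a g => by
        rw [RingHom.id_apply, ← intervalIntegral.integral_smul]
        refine intervalIntegral.integral_congr fun θ _ => ?_
        simp only [ContinuousMap.smul_apply, smul_eq_mul]
        ring } with hL
  have hbd : ∀ g, ‖L g‖ ≤ (ρ * |2 * Real.pi - 0|) * ‖g‖ := by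
    intro g
    have h1 : ‖∫ θ in (0 : ℝ)..2 * Real.pi, deriv (circleMap 0 ρ) θ • g (c θ)‖ ≤
        (ρ * ‖g‖) * |2 * Real.pi - 0| := by
      refine intervalIntegral.norm_integral_le_of_norm_le_const fun θ _ => ?_
      rw [norm_smul, deriv_circleMap, norm_mul, Complex.norm_I, mul_one, norm_circleMap_zero,
        abs_of_pos hρ]
      exact mul_le_mul_of_nonneg_left (g.norm_coe_le_norm _) hρ.le
    have h2 : (ρ * |2 * Real.pi - 0|) * ‖g‖ = (ρ * ‖g‖) * |2 * Real.pi - 0| := by ring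
    rw [h2]
    exact h1
  refine ⟨(2 * Real.pi * Complex.I : ℂ)⁻¹ • L.mkContinuous _ hbd, fun g h hgh => ?_⟩
  have h1 : L g = ∮ ζ in C(0, ρ), h ζ := by
    show (∫ θ in (0 : ℝ)..2 * Real.pi, deriv (circleMap 0 ρ) θ • g (c θ)) = _
    unfold circleIntegral
    refine intervalIntegral.integral_congr fun θ _ => ?_
    exact congrArg (fun w => deriv (circleMap 0 ρ) θ • w) (hgh (c θ))
  rw [_root_.smul_apply, LinearMap.mkContinuous_apply, h1]

theorem exists_cauchy {ρ : ℝ} (hρ : 0 < ρ) {A B : ℂ × ℂ → ℂ}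
    (hA : ∀ ζ ∈ sphere (0 : ℂ) ρ, AnalyticAt ℂ A (0, ζ))
    (hB : ∀ ζ ∈ sphere (0 : ℂ) ρ, AnalyticAt ℂ B (0, ζ))
    (hB0 : ∀ ζ ∈ sphere (0 : ℂ) ρ, B (0, ζ) ≠ 0) :
    ∃ Φ : ℂ × ℂ → ℂ, (∀ y ∈ ball (0 : ℂ) ρ, AnalyticAt ℂ Φ (0, y)) ∧
      ∀ᶠ x in 𝓝 (0 : ℂ), ∀ q : ℂ → ℂ, (∀ y ∈ closedBall (0 : ℂ) ρ, AnalyticAt ℂ q y) →
        (∀ y ∈ sphere (0 : ℂ) ρ, A (x, y) = B (x, y) * q y) →
        ∀ y ∈ ball (0 : ℂ) ρ, Φ (x, y) = q y := by
  haveI hcs : CompactSpace (sphere (0 : ℂ) ρ) := isCompact_iff_compactSpace.1 (isCompact_sphere _ _)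
  obtain ⟨J, hJ⟩ := CB2_exists_functional hρ
  obtain ⟨𝓐, hA1, hA2⟩ := exists_family (isCompact_sphere (0 : ℂ) ρ) hA
  obtain ⟨𝓑, hB1, hB2⟩ := exists_family (isCompact_sphere (0 : ℂ) ρ) hB
  set ι : C(sphere (0 : ℂ) ρ, ℂ) := ⟨fun ζ => (ζ : ℂ), continuous_subtype_val⟩ with hι
  have hunit : IsUnit (𝓑 0) := by
    rw [ContinuousMap.isUnit_iff_forall_ne_zero]
    intro ζ
    rw [hB2.self_of_nhds ζ]
    exact hB0 _ ζ.2
  have hκunit : ∀ y ∈ ball (0 : ℂ) ρ, IsUnit (ι - y • (1 : C(sphere (0 : ℂ) ρ, ℂ))) := by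
    intro y hy
    rw [ContinuousMap.isUnit_iff_forall_ne_zero]
    intro ζ h0
    have h1 : (ζ : ℂ) - y = 0 := by
      have h2 : (ι - y • (1 : C(sphere (0 : ℂ) ρ, ℂ))) ζ = (ζ : ℂ) - y := by
        simp [hι]
      rw [← h2]
      exact h0
    have h3 : (ζ : ℂ) = y := sub_eq_zero.1 h1
    have h4 : ‖(ζ : ℂ)‖ = ρ := mem_sphere_zero_iff_norm.1 ζ.2
    have h5 : ‖y‖ < ρ := mem_ball_zero_iff.1 hy
    rw [h3] at h4
    linarith
  refine ⟨fun p => J (𝓐 p.1 * Ring.inverse (𝓑 p.1) *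
    Ring.inverse (ι - p.2 • (1 : C(sphere (0 : ℂ) ρ, ℂ)))), ?_, ?_⟩
  · intro y hy
    have h1 : AnalyticAt ℂ (fun p : ℂ × ℂ => 𝓐 p.1) (0, y) :=
      AnalyticAt.comp (g := 𝓐) (f := Prod.fst) (x := ((0 : ℂ), y)) hA1 analyticAt_fst
    have h2 : AnalyticAt ℂ (fun p : ℂ × ℂ => 𝓑 p.1) (0, y) :=
      AnalyticAt.comp (g := 𝓑) (f := Prod.fst) (x := ((0 : ℂ), y)) hB1 analyticAt_fst
    have h3 : AnalyticAt ℂ (Ring.inverse : C(sphere (0 : ℂ) ρ, ℂ) → _) (𝓑 0) :=
      analyticOnNhd_inverse (𝕜 := ℂ) (𝓑 0) hunit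
    have h4 : AnalyticAt ℂ (fun p : ℂ × ℂ => Ring.inverse (𝓑 p.1)) (0, y) :=
      AnalyticAt.comp (g := Ring.inverse) (f := fun p : ℂ × ℂ => 𝓑 p.1) (x := ((0 : ℂ), y)) h3 h2
    have h5 : AnalyticAt ℂ (fun p : ℂ × ℂ => ι - p.2 • (1 : C(sphere (0 : ℂ) ρ, ℂ))) (0, y) :=
      analyticAt_const.sub (analyticAt_snd.smul analyticAt_const)
    have h6 : AnalyticAt ℂ (Ring.inverse : C(sphere (0 : ℂ) ρ, ℂ) → _)
        (ι - y • (1 : C(sphere (0 : ℂ) ρ, ℂ))) :=
      analyticOnNhd_inverse (𝕜 := ℂ) _ (hκunit y hy)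
    have h7 : AnalyticAt ℂ (fun p : ℂ × ℂ => Ring.inverse (ι - p.2 • (1 : C(sphere (0 : ℂ) ρ, ℂ))))
        (0, y) :=
      AnalyticAt.comp (g := Ring.inverse)
        (f := fun p : ℂ × ℂ => ι - p.2 • (1 : C(sphere (0 : ℂ) ρ, ℂ))) (x := ((0 : ℂ), y)) h6 h5
    exact (J.analyticAt _).comp ((h1.mul h4).mul h7)
  · have hopen : ∀ᶠ x in 𝓝 (0 : ℂ), IsUnit (𝓑 x) :=
      hB1.continuousAt.eventually (Units.isOpen.mem_nhds hunit)
    filter_upwards [hA2, hB2, hopen] with x hx1 hx2 hx3 q hq hAB y hy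
    have hne := (ContinuousMap.isUnit_iff_forall_ne_zero _).1 hx3
    show J (𝓐 x * Ring.inverse (𝓑 x) * Ring.inverse (ι - y • (1 : C(sphere (0 : ℂ) ρ, ℂ)))) = q y
    rw [hJ _ (fun ζ => (ζ - y)⁻¹ • q ζ)]
    · have hd : DifferentiableOn ℂ q (closedBall 0 ρ) := fun z hz =>
        (hq z hz).differentiableAt.differentiableWithinAt
      exact (hd.mono closure_ball_subset_closedBall).diffContOnCl.two_pi_i_inv_smul_circleIntegral_sub_inv_smul
        hy
    · intro ζ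
      rw [ContinuousMap.mul_apply, ContinuousMap.mul_apply, CB2_inverse_apply hx3,
        CB2_inverse_apply (hκunit y hy), hx1, hx2, hAB _ ζ.2]
      have h1 : B (x, (ζ : ℂ)) ≠ 0 := by
        rw [← hx2 ζ]
        exact hne ζ
      have h2 : (ι - y • (1 : C(sphere (0 : ℂ) ρ, ℂ))) ζ = (ζ : ℂ) - y := by
        simp [hι]
      rw [h2, smul_eq_mul]
      field_simp

end Pool.Agent.H68.KR

end
end

section

/-!
The local lifts for a web box.
-/

namespace Pool.Agent.MQ3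

open Complex Set Filter Topology

variable {p : ℕ} {T : Fin p → ℂ × ℂ → ℂ} {a b : Equiv.Perm (Fin p)}

/-- `w`, `w'` is a basis of the lattice `L`. -/
structure IsBas (L : AddSubgroup (ℤ × ℤ)) (w w' : ℕ × ℕ) : Prop where
  det : (w.1 : ℤ) * w'.2 - w.2 * w'.1 ≠ 0
  mem : ∀ n : ℤ × ℤ, n ∈ L ↔ ∃ i j : ℤ, n.1 = i * w.1 + j * w'.1 ∧ n.2 = i * w.2 + j * w'.2

/-- The bases cover the quadrant. -/
def Covers (F : Finset ((ℕ × ℕ) × (ℕ × ℕ))) : Prop :=
  ∀ A B : ℝ, 0 ≤ A → 0 ≤ B → ∃ c ∈ F, ∃ l l' : ℝ, 0 ≤ l ∧ 0 ≤ l' ∧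
    A = l * c.1.1 + l' * c.2.1 ∧ B = l * c.1.2 + l' * c.2.2

end Pool.Agent.MQ3

end

section

/-!
# SB Defs: reduction of singularities of germs of plane vector fields (Seidenberg), formal side

A germ of a vector field is a pair `(a, b)` of formal power series in two variables `x = X 0`, `y = X 1` (`v x = a`, `v y = b`).
Blow-up at the direction `(1 : t)`: coordinates `x, y` with old `y = x (y + t)`.
-/

set_option autoImplicit false

open MvPowerSeries

noncomputable section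

namespace Pool.Agent.SB

/-- formal power series in `x = X 0`, `y = X 1` -/
abbrev R2 := MvPowerSeries (Fin 2) ℂ

/-- the exponent `(i, j)` -/
def ex (i j : ℕ) : Fin 2 →₀ ℕ := Finsupp.single 0 i + Finsupp.single 1 j

/-- the coefficient of `x ^ i y ^ j` -/
def cf (a : R2) (i j : ℕ) : ℂ := coeff (ex i j) a

theorem hasSubst_bl (t : ℂ) : HasSubst (S := ℂ) (![X 0, X 0 * (X 1 + C t)] : Fin 2 → R2) :=
  hasSubst_of_constantCoeff_zero fun i => by fin_cases i <;> simp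

/-- `f (x, y) ↦ f (x, x (y + t))` -/
def bl (t : ℂ) : R2 →ₐ[ℂ] R2 := substAlgHom (hasSubst_bl t)

/-- `f (x, y) ↦ f (y, x)` -/
def sw : R2 ≃ₐ[ℂ] R2 := renameEquiv ℂ (Equiv.swap 0 1)

/-- finite intersection multiplicity -/
def Fin2 (a b : R2) : Prop := Module.Finite ℂ (R2 ⧸ Ideal.span {a, b})

/-- the intersection multiplicity -/
def mu (a b : R2) : ℕ := Module.finrank ℂ (R2 ⧸ Ideal.span {a, b})

/-- order at least `l` -/
def Ord (l : ℕ) (a : R2) : Prop := ∀ i j, i + j < l → cf a i j = 0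

/-- `(a₁, b₁)` is the saturated transform of `(a, b)` at the point `t` of the exceptional line -/
def Child (t : ℂ) (a b a₁ b₁ : R2) : Prop :=
  ∃ e : ℕ, X 0 ^ e * a₁ = bl t a ∧ X 0 ^ (e + 1) * b₁ = bl t b - (X 1 + C t) * bl t a ∧ ¬ (X 0 ∣ a₁ ∧ X 0 ∣ b₁)

/-- the linear part at `0` -/
def tr (a b : R2) : ℂ := cf a 1 0 + cf b 0 1

def dt (a b : R2) : ℂ := cf a 1 0 * cf b 0 1 - cf a 0 1 * cf b 1 0

/-- elementary and reduced: eigenvalues `λ ≠ 0` and `κ`, with `κ / λ` not a positive rational number -/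
def Elem (a b : R2) : Prop :=
  cf a 0 0 = 0 ∧ cf b 0 0 = 0 ∧ ∃ l k : ℂ, l + k = tr a b ∧ l * k = dt a b ∧ l ≠ 0 ∧ ∀ p q : ℕ, 0 < p → 0 < q → (p : ℂ) * l ≠ q * k

/-- reducible by finitely many blow-ups -/
inductive Red : R2 → R2 → Prop
  | reg (a b : R2) : (cf a 0 0 ≠ 0 ∨ cf b 0 0 ≠ 0) → Red a b
  | elem (a b : R2) : Elem a b → Red a b
  | blow (a b : R2) : (∀ t a₁ b₁, Child t a b a₁ b₁ → Red a₁ b₁) → (∀ a₁ b₁, Child 0 (sw b) (sw a) a₁ b₁ → Red a₁ b₁) → Red a b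

end Pool.Agent.SB

end
end
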