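import Pool.Agent.H43.TL2.M01
import Pool.Agent.H43.TL2.M03
import Pool.Agent.H43.TL2.M06
import Pool.Agent.H43.TL2.M09
import Pool.Agent.H43.TL2.M10
import Pool.Agent.H43.TL2.M25

/-! The parts of this file: H14.KB.KobFinal, H13.OT.Std, H36.BP.CirB, H36.BP.Char, H36.BPL.Aff, H36.BPL.Defs, H68.KR.FT. -/

section

/-!
# Pseudo Brody hyperbolic surfaces are Kobayashi hyperbolic modulo a proper closed subset
-/

open Topology Filter MvPolynomial Metric

noncomputable section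

namespace Pool.Agent.H14.KB

open Pool.Agent
open Pool.Agent.H17 (PN VanishesAt ZariskiClosedIn HolomorphicInto puncturedDisc PseudoBrodyHyperbolic PseudoPicardHyperbolic)

variable {N : ℕ} {P : Ideal (MvPolynomial (Fin (N + 1)) ℂ)}

/-- `X` is Kobayashi hyperbolic modulo the set of the zeros of `Q`, a form of degree `D`: for every
holomorphic map `f` from the unit disc to `X`, with a lift `F` near `0`, the length of the derivative
of `f` at `0` with respect to the Fubini–Study metric (that is, the distance of `F' 0` from the line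
through `F 0`, divided by the norm of `F 0`), multiplied by a power of `|Q (F 0)| / |F 0| ^ D`, is at
most `C`. -/
def KobayashiHyperbolicModulo (X : Set (PN N)) (Q : MvPolynomial (Fin (N + 1)) ℂ) (D : ℕ) : Prop :=
  ∃ (M : ℕ) (C : ℝ), ∀ (f : ℂ → PN N) (F : ℂ → Fin (N + 1) → ℂ), HolomorphicInto f (ball 0 1) →
    (∀ z ∈ ball (0 : ℂ) 1, f z ∈ X) → AnalyticAt ℂ F 0 →
    (∀ᶠ z in 𝓝 (0 : ℂ), ∃ h : F z ≠ 0, f z = Projectivization.mk ℂ (F z) h) →
    ∃ a : ℂ, (‖eval (F 0) Q‖ / ‖F 0‖ ^ D) ^ M * ‖deriv F 0 - a • F 0‖ ≤ C * ‖F 0‖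

/-- `X` is Kobayashi hyperbolic modulo a proper Zariski closed subset. -/
def PseudoKobayashiHyperbolic (X : Set (PN N)) : Prop :=
  ∃ (Q : MvPolynomial (Fin (N + 1)) ℂ) (D : ℕ), Q.IsHomogeneous D ∧ (∃ x ∈ X, ¬ VanishesAt Q x) ∧
    KobayashiHyperbolicModulo X Q D

end Pool.Agent.H14.KB

end
end

section

/-!
# Lifts bounded on discs and the characteristic

`F` is a lift (zeros allowed) of a curve on the disc of radius `R`, `‖F‖ ≤ 1`, `F 0 ≠ 0`; `F₀` is a lift without zeros.  Then the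
mean value of `log ‖F₀‖` over the circle of radius `r < R` is at most `log ‖F₀ 0‖ - log ‖F 0‖` (Jensen's formula).
-/

set_option autoImplicit false

namespace Pool.Agent.H13.OT

open Filter Topology Metric Real
open Pool.Agent.H17BP

variable {V : Type} [NormedAddCommGroup V] [NormedSpace ℂ V]

/-- the mean value of `log |φ|` over a circle is at least the value in the centre -/
theorem log_le_average {φ : ℂ → ℂ} {r : ℝ} (hr : 0 < r) (h : AnalyticOnNhd ℂ φ (closedBall 0 r)) (h0 : φ 0 ≠ 0) :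
    Real.log ‖φ 0‖ ≤ circleAverage (fun z => Real.log ‖φ z‖) 0 r := by
  have hrr : |r| = r := abs_of_pos hr
  have h1 : AnalyticOnNhd ℂ φ (closedBall 0 |r|) := by rwa [hrr]
  have h2 := h1.circleAverage_log_norm hr.ne' h0
  rw [h2]
  have h3 : 0 ≤ ∑ᶠ u, MeromorphicOn.divisor φ (closedBall 0 |r|) u * Real.log (r * ‖0 - u‖⁻¹) := by
    refine finsum_nonneg fun u => ?_
    by_cases hu : u ∈ closedBall (0 : ℂ) |r|
    · have h4 : (0 : ℤ) ≤ MeromorphicOn.divisor φ (closedBall 0 |r|) u :=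
        (MeromorphicOn.AnalyticOnNhd.divisor_nonneg h1) u
      have h5 : (0 : ℝ) ≤ MeromorphicOn.divisor φ (closedBall 0 |r|) u := by exact_mod_cast h4
      refine mul_nonneg h5 ?_
      by_cases hu0 : u = 0
      · simp [hu0]
      · apply Real.log_nonneg
        have h6 : 0 < ‖0 - u‖ := by simpa using hu0
        rw [← div_eq_mul_inv, le_div_iff₀ h6, one_mul]
        rw [mem_closedBall, dist_zero_right, hrr] at hu
        simpa using hu
    · have : MeromorphicOn.divisor φ (closedBall 0 |r|) u = 0 := by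
        exact Function.locallyFinsuppWithin.apply_eq_zero_of_notMem _ hu
      rw [this]
      simp
  linarith

theorem average_le {f F F₀ : ℂ → V} {ρ r : ℝ} (hr : 0 < r) (hrρ : r < ρ) (hF : DifferentiableOn ℂ F (ball 0 ρ))
    (hF1 : ∀ z ∈ ball (0 : ℂ) ρ, ‖F z‖ ≤ 1) (h0 : F 0 ≠ 0) (hFf : ∀ z ∈ ball (0 : ℂ) ρ, F z = 0 ∨ Pr (f z) (F z))
    (hF₀ : DifferentiableOn ℂ F₀ (ball 0 ρ)) (hF₀f : ∀ z ∈ ball (0 : ℂ) ρ, F₀ z ≠ 0 ∧ Pr (f z) (F₀ z)) :
    circleAverage (fun z => Real.log ‖F₀ z‖) 0 r ≤ Real.log ‖F₀ 0‖ - Real.log ‖F 0‖ := by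
  classical
  have hex : ∀ z : ℂ, ∃ a : ℂ, z ∈ ball (0 : ℂ) ρ → F z = a • F₀ z := by
    intro z
    by_cases hz : z ∈ ball (0 : ℂ) ρ
    · rcases hFf z hz with h | ⟨c, hc, h⟩
      · exact ⟨0, fun _ => by rw [h, zero_smul]⟩
      · obtain ⟨-, c', hc', h'⟩ := hF₀f z hz
        refine ⟨c⁻¹ * c', fun _ => ?_⟩
        rw [mul_smul, ← h', h, smul_smul, inv_mul_cancel₀ hc, one_smul]
    · exact ⟨0, fun h => absurd h hz⟩
  choose φ heq using hex
  have hloc' : ∀ z₀ ∈ ball (0 : ℂ) ρ, AnalyticAt ℂ φ z₀ := by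
    intro z₀ hz₀
    have hne : F₀ z₀ ≠ 0 := (hF₀f z₀ hz₀).1
    obtain ⟨ℓ, -, hℓ⟩ := exists_dual_vector ℂ (F₀ z₀) (norm_ne_zero_iff.2 hne)
    have hℓ0 : ℓ (F₀ z₀) ≠ 0 := by
      rw [hℓ]
      exact Complex.ofReal_ne_zero.2 (norm_ne_zero_iff.2 hne)
    have hnhds : ball (0 : ℂ) ρ ∈ 𝓝 z₀ := isOpen_ball.mem_nhds hz₀
    have ha : AnalyticAt ℂ (fun z => ℓ (F z)) z₀ := by
      have h1 : DifferentiableOn ℂ (fun z => ℓ (F z)) (ball 0 ρ) := fun z hz =>
        (ℓ.differentiableAt.comp_differentiableWithinAt z (hF z hz))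
      exact h1.analyticAt hnhds
    have ha₀ : AnalyticAt ℂ (fun z => ℓ (F₀ z)) z₀ := by
      have h1 : DifferentiableOn ℂ (fun z => ℓ (F₀ z)) (ball 0 ρ) := fun z hz =>
        (ℓ.differentiableAt.comp_differentiableWithinAt z (hF₀ z hz))
      exact h1.analyticAt hnhds
    refine (ha.div ha₀ hℓ0).congr ?_
    filter_upwards [hnhds, ha₀.continuousAt.eventually_ne hℓ0] with z hz h1
    simp only [Pi.div_apply]
    rw [heq z hz, map_smul, smul_eq_mul, mul_div_cancel_right₀ _ h1]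
  have hnorm : ∀ z ∈ ball (0 : ℂ) ρ, ‖φ z‖ * ‖F₀ z‖ ≤ 1 := by
    intro z hz
    rw [← norm_smul, ← heq z hz]
    exact hF1 z hz
  have h0m : (0 : ℂ) ∈ ball (0 : ℂ) ρ := mem_ball_self (hr.trans hrρ)
  have hφ0 : φ 0 ≠ 0 := by
    intro h
    apply h0
    rw [heq 0 h0m, h, zero_smul]
  have hsub : closedBall (0 : ℂ) r ⊆ ball 0 ρ := closedBall_subset_ball hrρ
  have hsph : sphere (0 : ℂ) |r| ⊆ ball 0 ρ := by
    rw [abs_of_pos hr]
    exact sphere_subset_closedBall.trans hsub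
  have hφan : AnalyticOnNhd ℂ φ (closedBall 0 r) := fun z hz => hloc' z (hsub hz)
  have hφsp : AnalyticOnNhd ℂ φ (sphere 0 |r|) := fun z hz => hloc' z (hsph hz)
  have hJ := log_le_average hr hφan hφ0
  -- the zeros of `φ` on the circle
  set f₁ : ℂ → ℝ := fun z => if φ z = 0 then -Real.log ‖F₀ z‖ else Real.log ‖φ z‖ with hf₁
  have hcod : (fun z => Real.log ‖φ z‖) =ᶠ[codiscreteWithin (sphere (0 : ℂ) |r|)] f₁ := by
    have h1 : ∀ᶠ z in codiscreteWithin (closedBall (0 : ℂ) r), φ z ≠ 0 := by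
      have h2 : φ ⁻¹' {0}ᶜ ∈ codiscreteWithin (closedBall (0 : ℂ) r) :=
        hφan.preimage_zero_mem_codiscreteWithin (x := 0) hφ0 (mem_closedBall_self hr.le)
          (isConnected_closedBall hr.le)
      exact h2
    have h3 : ∀ᶠ z in codiscreteWithin (sphere (0 : ℂ) |r|), φ z ≠ 0 := by
      refine (codiscreteWithin_mono ?_) h1
      rw [abs_of_pos hr]
      exact sphere_subset_closedBall
    filter_upwards [h3] with z hz
    rw [hf₁]
    simp [hz]
  have hint : CircleIntegrable (fun z => Real.log ‖φ z‖) 0 r := hφsp.meromorphicOn.circleIntegrable_log_norm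
  have hint₁ : CircleIntegrable f₁ 0 r := hint.congr_codiscreteWithin hcod
  have havg : circleAverage (fun z => Real.log ‖φ z‖) 0 r = circleAverage f₁ 0 r :=
    circleAverage_congr_codiscreteWithin hcod hr.ne'
  have hHint : CircleIntegrable (fun z => Real.log ‖F₀ z‖) 0 r := by
    refine ContinuousOn.circleIntegrable' ?_
    exact ((hF₀.continuousOn.mono hsph).norm).log fun z hz => norm_ne_zero_iff.mpr (hF₀f z (hsph hz)).1
  have hle : circleAverage (fun z => Real.log ‖F₀ z‖) 0 r ≤ circleAverage (fun z => -f₁ z) 0 r := by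
    refine circleAverage_mono hHint hint₁.neg fun z hz => ?_
    by_cases h : φ z = 0
    · simp [hf₁, h]
    · have h1 : 0 < ‖φ z‖ := norm_pos_iff.mpr h
      have h2 : 0 < ‖F₀ z‖ := norm_pos_iff.mpr (hF₀f z (hsph hz)).1
      have h3 := hnorm z (hsph hz)
      have h4 : Real.log (‖φ z‖ * ‖F₀ z‖) ≤ 0 := Real.log_nonpos (by positivity) h3
      rw [Real.log_mul h1.ne' h2.ne'] at h4
      simp only [hf₁, h, if_false]
      linarith
  have hneg : circleAverage (fun z => -f₁ z) 0 r = -circleAverage f₁ 0 r := by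
    have h := circleAverage_fun_smul (a := (-1 : ℝ)) (f := f₁) (c := 0) (R := r)
    simpa using h
  have h5 : Real.log ‖F 0‖ = Real.log ‖φ 0‖ + Real.log ‖F₀ 0‖ := by
    rw [heq 0 h0m, norm_smul, Real.log_mul (norm_ne_zero_iff.mpr hφ0) (norm_ne_zero_iff.mpr (hF₀f 0 h0m).1)]
  rw [hneg, ← havg] at hle
  linarith

end Pool.Agent.H13.OT

end

section

/-!
# BP CirB: approximation on two circles

`trig_approx` on both circles: `φ(r e^(iθ)) ≈ Re ∑ a_n e^(inθ)`, `φ(R e^(iθ)) ≈ Re ∑ b_n e^(inθ)` (common `m`, pad with zeros).  For `n ≥ 1` the function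
`Re(c_n z^n + d_n z^(-n))` has at `z = ρ e^(iθ)` the value `Re((c_n ρ^n + conj(d_n) ρ^(-n)) e^(inθ))`; solve `c_n r^n + conj(d_n) r^(-n) = a_n`,
`c_n R^n + conj(d_n) R^(-n) = b_n` (determinant `(r/R)^n - (R/r)^n ≠ 0`).  For `n = 0`: real `a`, `b` with `a + b log r = Re a_0`, `a + b log R = Re b_0`.
`g z = a + ∑_{n ≥ 1} (c_n z^n + d_n z^(-n))`.
-/

set_option autoImplicit false

namespace Pool.Agent.H36.BP

open Filter Topology Metric

variable {N : ℕ}

private theorem CirB_key (ρ : ℝ) (c d : ℂ) (n : ℕ) (θ : ℝ) :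
    (c * ((ρ : ℂ) * Complex.exp (θ * Complex.I)) ^ n + d * (((ρ : ℂ) * Complex.exp (θ * Complex.I))⁻¹) ^ n).re
      = ((c * (ρ : ℂ) ^ n + (starRingEnd ℂ) d * ((ρ : ℂ) ^ n)⁻¹) * Complex.exp (n * (θ * Complex.I))).re := by
  have h1 : (c * ((ρ : ℂ) * Complex.exp (θ * Complex.I)) ^ n) = c * (ρ : ℂ) ^ n * Complex.exp (n * (θ * Complex.I)) := by
    rw [mul_pow, ← Complex.exp_nat_mul, mul_assoc]
  have h2 : (starRingEnd ℂ) (d * (((ρ : ℂ) * Complex.exp (θ * Complex.I))⁻¹) ^ n)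
      = (starRingEnd ℂ) d * ((ρ : ℂ) ^ n)⁻¹ * Complex.exp (n * (θ * Complex.I)) := by
    have h3 : (((ρ : ℂ) * Complex.exp (θ * Complex.I))⁻¹) ^ n = ((ρ : ℂ) ^ n)⁻¹ * Complex.exp (-(n * (θ * Complex.I))) := by
      rw [inv_pow, mul_pow, ← Complex.exp_nat_mul, mul_inv, Complex.exp_neg]
    rw [h3, map_mul, map_mul, ← Complex.exp_conj]
    have h4 : (starRingEnd ℂ) (-(n * (θ * Complex.I))) = n * (θ * Complex.I) := by
      simp
    rw [h4, map_inv₀, map_pow, Complex.conj_ofReal, mul_assoc]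
  rw [Complex.add_re, h1, add_mul, Complex.add_re]
  congr 1
  rw [← Complex.conj_re, h2]

private theorem CirB_solve {r R : ℝ} (hr : 0 < r) (hrR : r < R) (a b : ℂ) (n : ℕ) (hn : n ≠ 0) :
    ∃ c d : ℂ, c * (r : ℂ) ^ n + (starRingEnd ℂ) d * ((r : ℂ) ^ n)⁻¹ = a ∧
      c * (R : ℂ) ^ n + (starRingEnd ℂ) d * ((R : ℂ) ^ n)⁻¹ = b := by
  have hR : 0 < R := hr.trans hrR
  have h1 : r ^ n < R ^ n := pow_lt_pow_left₀ hrR hr.le hn
  have h2 : 0 < r ^ n := pow_pos hr n
  have h3 : 0 < R ^ n := pow_pos hR n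
  have hr' : ((r : ℂ) ^ n) ≠ 0 := by exact_mod_cast h2.ne'
  have hR' : ((R : ℂ) ^ n) ≠ 0 := by exact_mod_cast h3.ne'
  have hD : ((r : ℂ) ^ n) ^ 2 - ((R : ℂ) ^ n) ^ 2 ≠ 0 := by
    have : (r ^ n) ^ 2 - (R ^ n) ^ 2 ≠ 0 := by nlinarith
    exact_mod_cast this
  refine ⟨(a * (r : ℂ) ^ n - b * (R : ℂ) ^ n) / (((r : ℂ) ^ n) ^ 2 - ((R : ℂ) ^ n) ^ 2),
    (starRingEnd ℂ) ((r : ℂ) ^ n * (R : ℂ) ^ n * ((r : ℂ) ^ n * b - (R : ℂ) ^ n * a) / (((r : ℂ) ^ n) ^ 2 - ((R : ℂ) ^ n) ^ 2)), ?_, ?_⟩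
  · rw [Complex.conj_conj]
    field_simp
    ring
  · rw [Complex.conj_conj]
    field_simp
    ring

private theorem CirB_pad (m m' : ℕ) (hm : m ≤ m') (a : ℕ → ℂ) (f : ℕ → ℂ) :
    ∑ n ∈ Finset.range (m + 1), a n * f n = ∑ n ∈ Finset.range (m' + 1), (if n ≤ m then a n else 0) * f n := by
  have h : Finset.range (m + 1) ⊆ Finset.range (m' + 1) := by
    intro x hx
    rw [Finset.mem_range] at hx ⊢
    omega
  rw [← Finset.sum_subset h]
  · apply Finset.sum_congr rfl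
    intro x hx
    rw [Finset.mem_range] at hx
    rw [if_pos (by omega)]
  · intro x _ hx
    rw [Finset.mem_range] at hx
    rw [if_neg (by omega), zero_mul]

private theorem CirB_circ (φ : ℂ → ℝ) (ρ : ℝ) (hρ : 0 < ρ) (S : Set ℂ) (hS : sphere (0 : ℂ) ρ ⊆ S) (hφ : ContinuousOn φ S)
    {ε : ℝ} (hε : 0 < ε) :
    ∃ (m : ℕ) (c : ℕ → ℂ), ∀ θ : ℝ, |φ (ρ * Complex.exp (θ * Complex.I)) -
      (∑ n ∈ Finset.range (m + 1), c n * Complex.exp (n * (θ * Complex.I))).re| ≤ ε := by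
  apply trig_approx (fun θ : ℝ => φ (ρ * Complex.exp (θ * Complex.I))) _ _ hε
  · apply hφ.comp_continuous
    · fun_prop
    · intro θ
      apply hS
      rw [mem_sphere_zero_iff_norm, norm_mul, Complex.norm_exp_ofReal_mul_I, mul_one, Complex.norm_real, Real.norm_eq_abs, abs_of_pos hρ]
  · intro θ
    have : Complex.exp (((θ + 2 * Real.pi : ℝ) : ℂ) * Complex.I) = Complex.exp (θ * Complex.I) := by
      have h := Complex.exp_periodic (θ * Complex.I)
      rw [← h]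
      congr 1
      push_cast
      ring
    show φ (ρ * Complex.exp (((θ + 2 * Real.pi : ℝ) : ℂ) * Complex.I)) = _
    rw [this]

theorem annulus_approx {r R : ℝ} (hr : 0 < r) (hrR : r < R) (φ : ℂ → ℝ) (hφ : ContinuousOn φ (sphere (0 : ℂ) r ∪ sphere (0 : ℂ) R))
    {ε : ℝ} (hε : 0 < ε) : ∃ (g : ℂ → ℂ) (b : ℝ), DifferentiableOn ℂ g {0}ᶜ ∧
      ∀ z ∈ sphere (0 : ℂ) r ∪ sphere (0 : ℂ) R, |(g z).re + b * Real.log ‖z‖ - φ z| ≤ ε := by
  have hR : 0 < R := hr.trans hrR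
  obtain ⟨m₁, a₁, h₁⟩ := CirB_circ φ r hr _ Set.subset_union_left hφ hε
  obtain ⟨m₂, a₂, h₂⟩ := CirB_circ φ R hR _ Set.subset_union_right hφ hε
  set m := max m₁ m₂ with hm
  set A : ℕ → ℂ := fun n => if n ≤ m₁ then a₁ n else 0 with hA
  set B : ℕ → ℂ := fun n => if n ≤ m₂ then a₂ n else 0 with hB
  have h₁' : ∀ θ : ℝ, |φ (r * Complex.exp (θ * Complex.I)) -
      (∑ n ∈ Finset.range (m + 1), A n * Complex.exp (n * (θ * Complex.I))).re| ≤ ε := by
    intro θ
    have := h₁ θ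
    rw [CirB_pad m₁ m (le_max_left _ _) a₁ (fun n => Complex.exp (n * (θ * Complex.I)))] at this
    exact this
  have h₂' : ∀ θ : ℝ, |φ (R * Complex.exp (θ * Complex.I)) -
      (∑ n ∈ Finset.range (m + 1), B n * Complex.exp (n * (θ * Complex.I))).re| ≤ ε := by
    intro θ
    have := h₂ θ
    rw [CirB_pad m₂ m (le_max_right _ _) a₂ (fun n => Complex.exp (n * (θ * Complex.I)))] at this
    exact this
  have hex : ∀ n : ℕ, ∃ c d : ℂ, c * (r : ℂ) ^ (n + 1) + (starRingEnd ℂ) d * ((r : ℂ) ^ (n + 1))⁻¹ = A (n + 1) ∧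
      c * (R : ℂ) ^ (n + 1) + (starRingEnd ℂ) d * ((R : ℂ) ^ (n + 1))⁻¹ = B (n + 1) :=
    fun n => CirB_solve hr hrR _ _ (n + 1) (Nat.succ_ne_zero n)
  choose c d hc hd using hex
  have hlog : Real.log r < Real.log R := Real.log_lt_log hr hrR
  obtain ⟨a, b, hab1, hab2⟩ : ∃ a b : ℝ, a + b * Real.log r = (A 0).re ∧ a + b * Real.log R = (B 0).re := by
    refine ⟨(A 0).re - ((B 0).re - (A 0).re) / (Real.log R - Real.log r) * Real.log r,
      ((B 0).re - (A 0).re) / (Real.log R - Real.log r), by ring, ?_⟩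
    have : Real.log R - Real.log r ≠ 0 := by linarith
    field_simp
    ring
  set g : ℂ → ℂ := fun z => (a : ℂ) + ∑ n ∈ Finset.range m, (c n * z ^ (n + 1) + d n * (z⁻¹) ^ (n + 1)) with hg
  have hval : ∀ (ρ : ℝ) (C : ℕ → ℂ), 0 < ρ → a + b * Real.log ρ = (C 0).re →
      (∀ n, c n * (ρ : ℂ) ^ (n + 1) + (starRingEnd ℂ) (d n) * ((ρ : ℂ) ^ (n + 1))⁻¹ = C (n + 1)) →
      ∀ θ : ℝ, (g (ρ * Complex.exp (θ * Complex.I))).re + b * Real.log ρ
        = (∑ n ∈ Finset.range (m + 1), C n * Complex.exp (n * (θ * Complex.I))).re := by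
    intro ρ C hρ h0 hC θ
    rw [Finset.sum_range_succ']
    simp only [hg, Complex.add_re, Complex.re_sum, Complex.ofReal_re]
    have e1 : ∀ n ∈ Finset.range m, (c n * ((ρ : ℂ) * Complex.exp (θ * Complex.I)) ^ (n + 1)).re +
        (d n * (((ρ : ℂ) * Complex.exp (θ * Complex.I))⁻¹) ^ (n + 1)).re
        = (C (n + 1) * Complex.exp (((n + 1 : ℕ) : ℂ) * (θ * Complex.I))).re := by
      intro n _
      rw [← Complex.add_re, CirB_key, hC n]
    rw [Finset.sum_congr rfl e1]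
    have e2 : (C 0 * Complex.exp (((0 : ℕ) : ℂ) * (θ * Complex.I))).re = a + b * Real.log ρ := by
      rw [h0]; simp
    rw [e2]
    ring
  refine ⟨g, b, ?_, ?_⟩
  · intro z hz
    have hz0 : z ≠ 0 := hz
    apply DifferentiableAt.differentiableWithinAt
    rw [hg]
    apply DifferentiableAt.const_add
    apply DifferentiableAt.fun_sum
    intro n _
    exact ((differentiableAt_id.pow _).const_mul _).add (((differentiableAt_inv hz0).pow _).const_mul _)
  · have harg : ∀ (z : ℂ), z = (‖z‖ : ℂ) * Complex.exp (Complex.arg z * Complex.I) := fun z => (Complex.norm_mul_exp_arg_mul_I z).symm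
    rintro z (hz | hz)
    · rw [mem_sphere_zero_iff_norm] at hz
      have h3 := h₁' (Complex.arg z)
      have h4 := hval r A hr hab1 hc (Complex.arg z)
      have h5 := harg z
      rw [hz] at h5
      rw [← h5] at h3 h4
      rw [hz, h4, abs_sub_comm]
      exact h3
    · rw [mem_sphere_zero_iff_norm] at hz
      have h3 := h₂' (Complex.arg z)
      have h4 := hval R B hR hab2 hd (Complex.arg z)
      have h5 := harg z
      rw [hz] at h5
      rw [← h5] at h3 h4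
      rw [hz, h4, abs_sub_comm]
      exact h3

end Pool.Agent.H36.BP

end

section

/-!
# BP Char: bounded characteristic

`g₁` entire with `|Re g₁ - c₀ log|F|| ≤ 1` on `|z| = R` (`circle_approx`).  (1) `|F exp(-g₁/c₀)| ≤ e^(1/c₀)` on the circle, hence on the disc (maximum modulus for vector valued
functions, `Complex.norm_le_of_forall_mem_frontier_norm_le`).  (2) `u = mt G F |F|^(-c₀) |exp g₁| exp((4C+1)|z|²)` is upper semicontinuous on the closed disc, `Sub` exponent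
`-C (mt)² + 4C + 1 ≥ 1 > 0` where `u > 0` (`sub`, `of_holo`, `exp_sq` with `t = z`), so `u(0) ≤ max over the circle ≤ 2 exp((4C+1)R²) e` (`max_principle`); `u(0) = |F 0|^(-c₀)|exp g₁(0)|`.
`g = -g₁/c₀ - 1/c₀`: `|exp g F| ≤ 1` and `|exp(g 0) F 0| = (|F 0|^(-c₀)|exp g₁ 0|)^(-1/c₀) e^(-1/c₀) ≥ c`.
-/

set_option autoImplicit false

namespace Pool.Agent.H36.BP

open Filter Topology Metric

variable {N : ℕ}

variable {K B : Set (EN N)} {G : EN N → EN N → ℝ} {ρ : EN N → ℝ} {M : ℕ} {c₀ C : ℝ}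

private theorem Char_usc {S : Set ℂ} {f h : ℂ → ℝ} (hf : UpperSemicontinuousOn f S)
    (hh : ContinuousOn h S) (hpos : ∀ z ∈ S, 0 < h z) :
    UpperSemicontinuousOn (fun z => f z * h z) S := by
  intro x hx y hy
  have hx0 := hpos x hx
  have h1 : f x < y / h x := (lt_div_iff₀ hx0).2 hy
  obtain ⟨a, ha1, ha2⟩ := exists_between h1
  have h2 : a * h x < y := (lt_div_iff₀ hx0).1 ha2
  have h3 : ∀ᶠ z in 𝓝[S] x, a * h z < y :=
    ((continuousWithinAt_const.mul (hh x hx)).tendsto).eventually (gt_mem_nhds h2)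
  filter_upwards [hf x hx a ha1, h3, self_mem_nhdsWithin] with z hz1 hz2 hz3
  exact (mul_lt_mul_of_pos_right hz1 (hpos z hz3)).trans hz2

/-- the lower bound with the explicit constant -/
theorem char_boundE (hM : MetricData K B G ρ M c₀ C) {R : ℝ} (hR : 0 < R) : ∀ F, Curve K (ball 0 (R + 1)) F →
    mt G F 0 = 1 → (∀ z ∈ ball (0 : ℂ) (R + 1), mt G F z ≤ 2) → ∃ g : ℂ → ℂ, Differentiable ℂ g ∧
      (∀ z ∈ ball (0 : ℂ) R, ‖Complex.exp (g z) • F z‖ ≤ 1) ∧
      Real.exp (-(1 + Real.log (2 * Real.exp 1 * Real.exp ((4 * C + 1) * R ^ 2))) / c₀) ≤ ‖Complex.exp (g 0) • F 0‖ := by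
  have hc := hM.c₀_pos
  have hC := hM.C_nonneg
  set A : ℝ := 2 * Real.exp 1 * Real.exp ((4 * C + 1) * R ^ 2) with hA
  have hA0 : 0 < A := mul_pos (mul_pos two_pos (Real.exp_pos _)) (Real.exp_pos _)
  refine fun F hF h0 h2 => ?_
  have hsub : closedBall (0 : ℂ) R ⊆ ball (0 : ℂ) (R + 1) := closedBall_subset_ball (by linarith)
  have hne : ∀ z ∈ ball (0 : ℂ) (R + 1), 0 < ‖F z‖ := fun z hz =>
    norm_pos_iff.2 (hM.ne _ (hF.2 z hz))
  have hcont : ContinuousOn F (ball (0 : ℂ) (R + 1)) := hF.1.continuousOn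
  have hsph : sphere (0 : ℂ) R ⊆ ball (0 : ℂ) (R + 1) := sphere_subset_closedBall.trans hsub
  obtain ⟨g, hg, hgφ⟩ := circle_approx hR (fun z => c₀ * Real.log ‖F z‖)
    (continuousOn_const.mul ((hcont.mono hsph).norm.log fun z hz => (hne z (hsph hz)).ne'))
    one_pos
  have hexp : ∀ z ∈ ball (0 : ℂ) (R + 1), ‖Complex.exp (-(g z / c₀)) • F z‖ =
      Real.exp (-((g z).re / c₀) + Real.log ‖F z‖) := by
    intro z hz
    have h1 : (-(g z / (c₀ : ℂ))).re = -((g z).re / c₀) := by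
      rw [Complex.neg_re, Complex.div_ofReal_re]
    rw [norm_smul, Complex.norm_exp, h1, Real.exp_add, Real.exp_log (hne z hz)]
  -- the upper bound
  have hup : ∀ z ∈ ball (0 : ℂ) R, ‖Complex.exp (-(g z / c₀)) • F z‖ ≤ Real.exp (1 / c₀) := by
    intro z hz
    have hd : DiffContOnCl ℂ (fun z => Complex.exp (-(g z / c₀)) • F z) (ball (0 : ℂ) R) := by
      refine DifferentiableOn.diffContOnCl ?_
      rw [closure_ball _ hR.ne']
      exact ((hg.differentiableOn.div_const _).neg.cexp).smul (hF.1.mono hsub)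
    refine Complex.norm_le_of_forall_mem_frontier_norm_le isBounded_ball hd (fun w hw => ?_)
      (subset_closure hz)
    rw [frontier_ball _ hR.ne'] at hw
    rw [hexp w (hsph hw), Real.exp_le_exp]
    have h1 := (abs_le.1 (hgφ w hw)).1
    have h3 : Real.log ‖F w‖ ≤ (1 + (g w).re) / c₀ := by
      rw [le_div_iff₀ hc]
      linarith
    rw [add_div] at h3
    linarith
  -- the lower bound
  have hlow : ‖F 0‖ ^ (-c₀) * ‖Complex.exp (g 0)‖ ≤ A := by
    have husc : UpperSemicontinuousOn (fun z => mt G F z * (‖F z‖ ^ (-c₀) * ‖Complex.exp (g z)‖ *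
        Real.exp ((4 * C + 1) * ‖z‖ ^ 2))) (closedBall (0 : ℂ) R) := by
      refine Char_usc ((mt_usc hM isOpen_ball hF).mono hsub) ?_ ?_
      · refine ContinuousOn.mul (ContinuousOn.mul ?_ ?_) ?_
        · exact (hcont.mono hsub).norm.rpow_const fun z hz => Or.inl (hne z (hsub hz)).ne'
        · exact (hg.continuous.cexp).norm.continuousOn
        · exact (Real.continuous_exp.comp
            (continuous_const.mul (continuous_norm.pow 2))).continuousOn
      · intro z hz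
        exact mul_pos (mul_pos (Real.rpow_pos_of_pos (hne z (hsub hz)) _)
          (norm_pos_iff.2 (Complex.exp_ne_zero _))) (Real.exp_pos _)
    have hmp := max_principle (isCompact_closedBall (0 : ℂ) R) isOpen_ball ball_subset_closedBall
      husc (fun z hz hz0 => ?_) hA0.le (fun z hz => ?_) 0 (mem_closedBall_self hR.le)
    · rw [h0, one_mul, norm_zero] at hmp
      norm_num at hmp
      exact hmp
    · have hzb : z ∈ ball (0 : ℂ) (R + 1) := hsub (ball_subset_closedBall hz)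
      have hnh : ball (0 : ℂ) (R + 1) ∈ 𝓝 z := isOpen_ball.mem_nhds hzb
      have han : AnalyticAt ℂ F z := hF.1.analyticAt hnh
      have hm0 : 0 < mt G F z := by
        by_contra h3
        have h4 : mt G F z ≤ 0 := not_lt.1 h3
        have h5 : 0 < ‖F z‖ ^ (-c₀) * ‖Complex.exp (g z)‖ *
            Real.exp ((4 * C + 1) * ‖z‖ ^ 2) :=
          mul_pos (mul_pos (Real.rpow_pos_of_pos (hne z hzb) _)
            (norm_pos_iff.2 (Complex.exp_ne_zero _))) (Real.exp_pos _)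
        exact absurd hz0 (not_lt.2 (mul_nonpos_of_nonpos_of_nonneg h4 h5.le))
      have hs1 := hM.sub F z han (Filter.eventually_of_mem hnh fun w hw => hF.2 w hw) hm0
      have hs2 : Sub (fun z => ‖Complex.exp (g z)‖) z 0 :=
        Sub.of_holo ((hg.analyticAt z).cexp) (Complex.exp_ne_zero _)
      have hs3 : Sub (fun z => Real.exp ((4 * C + 1) * ‖z‖ ^ 2)) z
          ((4 * C + 1) * ‖deriv (fun z : ℂ => z) z‖ ^ 2) := Sub.exp_sq analyticAt_id _
      have hs4 := (hs1.mul hs2).mul hs3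
      refine ⟨_, ?_, hs4.congr (Filter.Eventually.of_forall fun w => ?_)⟩
      · have h3 : deriv (fun z : ℂ => z) z = 1 := deriv_id z
        rw [h3, norm_one, one_pow, mul_one, add_zero]
        have h4 := h2 z hzb
        have h5 : mt G F z ^ 2 ≤ 4 := by nlinarith
        nlinarith
      · ring
    · have hz1 : z ∈ sphere (0 : ℂ) R := by
        rw [← closedBall_sdiff_ball]
        exact hz
      have hzb := hsph hz1
      have hzn : ‖z‖ = R := mem_sphere_zero_iff_norm.1 hz1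
      have h1 := (abs_le.1 (hgφ z hz1)).2
      have h3 : ‖F z‖ ^ (-c₀) * ‖Complex.exp (g z)‖ ≤ Real.exp 1 := by
        rw [Complex.norm_exp, Real.rpow_def_of_pos (hne z hzb), ← Real.exp_add, Real.exp_le_exp]
        linarith
      have h4 : mt G F z ≤ 2 := h2 z hzb
      have h5 : 0 ≤ ‖F z‖ ^ (-c₀) * ‖Complex.exp (g z)‖ :=
        mul_nonneg (Real.rpow_nonneg (norm_nonneg _) _) (norm_nonneg _)
      rw [hzn, hA, ← mul_assoc]
      refine mul_le_mul_of_nonneg_right ?_ (Real.exp_pos _).le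
      exact mul_le_mul h4 h3 h5 two_pos.le
  have h0b : (0 : ℂ) ∈ ball (0 : ℂ) (R + 1) := mem_ball_self (by linarith)
  refine ⟨fun z => -(g z / c₀) - 1 / c₀, (hg.div_const _).neg.sub_const _, fun z hz => ?_, ?_⟩
  · have h1 := hup z hz
    have h3 : Complex.exp (-(g z / c₀) - 1 / c₀) • F z =
        Complex.exp (-(1 / c₀ : ℂ)) • (Complex.exp (-(g z / c₀)) • F z) := by
      rw [smul_smul, ← Complex.exp_add]
      congr 2
      ring
    have h4 : ‖Complex.exp (-(1 / c₀ : ℂ))‖ = Real.exp (-(1 / c₀)) := by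
      rw [Complex.norm_exp]
      congr 1
      rw [Complex.neg_re, ← Complex.ofReal_one, ← Complex.ofReal_div, Complex.ofReal_re]
    rw [h3, norm_smul, h4]
    calc Real.exp (-(1 / c₀)) * ‖Complex.exp (-(g z / c₀)) • F z‖
        ≤ Real.exp (-(1 / c₀)) * Real.exp (1 / c₀) :=
          mul_le_mul_of_nonneg_left h1 (Real.exp_pos _).le
      _ = 1 := by rw [← Real.exp_add, neg_add_cancel, Real.exp_zero]
  · have h3 : Complex.exp (-(g 0 / c₀) - 1 / c₀) • F 0 =
        Complex.exp (-(1 / c₀ : ℂ)) • (Complex.exp (-(g 0 / c₀)) • F 0) := by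
      rw [smul_smul, ← Complex.exp_add]
      congr 2
      ring
    have h4 : ‖Complex.exp (-(1 / c₀ : ℂ))‖ = Real.exp (-(1 / c₀)) := by
      rw [Complex.norm_exp]
      congr 1
      rw [Complex.neg_re, ← Complex.ofReal_one, ← Complex.ofReal_div, Complex.ofReal_re]
    show _ ≤ ‖Complex.exp (-(g 0 / c₀) - 1 / c₀) • F 0‖
    rw [h3, norm_smul, h4, hexp 0 h0b, ← Real.exp_add, Real.exp_le_exp]
    rw [Complex.norm_exp, Real.rpow_def_of_pos (hne 0 h0b), ← Real.exp_add] at hlow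
    have h5 : Real.log ‖F 0‖ * -c₀ + (g 0).re ≤ Real.log A := by
      have h6 := Real.log_le_log (Real.exp_pos _) hlow
      rwa [Real.log_exp] at h6
    have h7 : ((g 0).re - Real.log A) / c₀ ≤ Real.log ‖F 0‖ := by
      rw [div_le_iff₀ hc]
      linarith
    rw [sub_div] at h7
    have h8 : -(1 + Real.log A) / c₀ = -(1 / c₀) - Real.log A / c₀ := by ring
    rw [h8]
    linarith

/-- the lower bound: the characteristic function grows at most like `R²` -/
theorem char_bound2 (hM : MetricData K B G ρ M c₀ C) : ∃ C₁ : ℝ, 0 ≤ C₁ ∧ ∀ R : ℝ, 0 < R → ∀ F, Curve K (ball 0 (R + 1)) F →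
    mt G F 0 = 1 → (∀ z ∈ ball (0 : ℂ) (R + 1), mt G F z ≤ 2) → ∃ g : ℂ → ℂ, Differentiable ℂ g ∧
      (∀ z ∈ ball (0 : ℂ) R, ‖Complex.exp (g z) • F z‖ ≤ 1) ∧ Real.exp (-(C₁ * (1 + R ^ 2))) ≤ ‖Complex.exp (g 0) • F 0‖ := by
  have hc := hM.c₀_pos
  have hC := hM.C_nonneg
  refine ⟨(4 * C + 4) / c₀, by positivity, fun R hR F hF h0 h2 => ?_⟩
  obtain ⟨g, h3, h4, h5⟩ := char_boundE hM hR F hF h0 h2
  refine ⟨g, h3, h4, le_trans (Real.exp_le_exp.mpr ?_) h5⟩
  rw [Real.log_mul (by positivity) (by positivity), Real.log_mul (by positivity) (by positivity), Real.log_exp, Real.log_exp]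
  have h6 : Real.log 2 ≤ 1 := by
    have := Real.log_two_lt_d9
    linarith
  rw [neg_div, neg_le_neg_iff, div_mul_eq_mul_div, div_le_div_iff_of_pos_right hc]
  nlinarith [sq_nonneg R]

end Pool.Agent.H36.BP

end

section

/-!
# BPL Aff: open parts which are proper over an affine variety

`AffProper X K Φ`: the functions `Φ : K → ℂ^M` (of degree `0`) are holomorphic along curves and tend to infinity at the points of `X \ K`.
-/

set_option autoImplicit false

namespace Pool.Agent.H36.BPL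

open Filter Topology Metric
open Pool.Agent.H36.BP (EN Curve)

/-- `Φ` is a proper map on the open part `K` of the closed cone `X` -/
structure AffProper {V : Type} [NormedAddCommGroup V] [NormedSpace ℂ V] {M : ℕ} (X K : Set V) (Φ : V → Fin M → ℂ) : Prop where
  smul : ∀ x ∈ K, ∀ c : ℂ, c ≠ 0 → Φ (c • x) = Φ x
  cont : ContinuousOn Φ K
  hol : ∀ (F : ℂ → V) (z₀ : ℂ), AnalyticAt ℂ F z₀ → (∀ᶠ z in 𝓝 z₀, F z ∈ K) → AnalyticAt ℂ (fun z => Φ (F z)) z₀
  proper : ∀ x ∈ X, x ∉ K → ∀ R : ℝ, ∀ᶠ y in 𝓝 x, y ∈ K → R < ‖Φ y‖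
  iso : ∀ (F : ℂ → V) (z₀ : ℂ), AnalyticAt ℂ F z₀ → (∀ᶠ z in 𝓝 z₀, F z ∈ X) → (∀ᶠ z in 𝓝 z₀, F z ∉ K) ∨ ∀ᶠ z in 𝓝[≠] z₀, F z ∈ K

variable {N : ℕ}

theorem hur_of_affProper {X K : Set (EN N)} {M : ℕ} {Φ : EN N → Fin M → ℂ} (hX : ∀ x ∈ closure K, x ≠ 0 → x ∈ X)
    (hsm : ∀ x ∈ K, ∀ c : ℂ, c ≠ 0 → c • x ∈ K) (h : AffProper X K Φ) :
    ∀ (l : Filter ℕ), l.NeBot → ∀ (F : ℕ → ℂ → EN N) (H : ℂ → EN N) (k : ℕ) (z₀ : ℂ) (s : ℝ), 0 < s →
    (∀ᶠ n in l, Curve K (Metric.ball z₀ s) (F n)) → DifferentiableOn ℂ H (Metric.ball z₀ s) →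
    TendstoLocallyUniformlyOn F (fun z => (z - z₀) ^ k • H z) l (Metric.ball z₀ s) → H z₀ ≠ 0 → H z₀ ∉ K → ∀ᶠ z in 𝓝 z₀, H z ∉ K := by
  intro l hl F H k z₀ s hs hF hH hlim h0 hK
  have hHa : AnalyticAt ℂ H z₀ := hH.analyticAt (isOpen_ball.mem_nhds (mem_ball_self hs))
  have hsmK : ∀ (x : EN N) (c : ℂ), c ≠ 0 → (c • x ∈ K ↔ x ∈ K) := by
    intro x c hc
    constructor
    · intro h1
      have h2 := hsm _ h1 c⁻¹ (inv_ne_zero hc)
      rwa [smul_smul, inv_mul_cancel₀ hc, one_smul] at h2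
    · intro h1
      exact hsm _ h1 c hc
  -- near `z₀` the curve `H` is in `X`
  have hcl : ∀ z ∈ ball z₀ s, z ≠ z₀ → (z - z₀) ^ k • H z ∈ closure K := by
    intro z hz _
    have h1 : Tendsto (fun n => F n z) l (𝓝 ((z - z₀) ^ k • H z)) := hlim.tendsto_at hz
    refine mem_closure_of_tendsto h1 ?_
    filter_upwards [hF] with n hn
    exact hn.2 z hz
  have hne : ∀ᶠ z in 𝓝 z₀, H z ≠ 0 := hHa.continuousAt.eventually_ne h0
  have hclK : ∀ (x : EN N) (c : ℂ), c ≠ 0 → c • x ∈ closure K → x ∈ closure K := by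
    intro x c hc hx
    have h1 : Continuous (fun y : EN N => c⁻¹ • y) := continuous_const_smul _
    have h2 := map_mem_closure h1 hx (fun y hy => hsm y hy c⁻¹ (inv_ne_zero hc))
    simpa [smul_smul, inv_mul_cancel₀ hc] using h2
  have hclH : ∀ᶠ z in 𝓝 z₀, H z ∈ closure K := by
    have h1 : ∀ᶠ z in 𝓝[≠] z₀, H z ∈ closure K := by
      rw [eventually_nhdsWithin_iff]
      filter_upwards [isOpen_ball.mem_nhds (mem_ball_self hs)] with z hz hzne
      exact hclK _ _ (pow_ne_zero k (sub_ne_zero.mpr hzne)) (hcl z hz hzne)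
    have h2 : H z₀ ∈ closure K := by
      have h3 : Tendsto H (𝓝[≠] z₀) (𝓝 (H z₀)) := hHa.continuousAt.tendsto.mono_left nhdsWithin_le_nhds
      exact isClosed_closure.mem_of_tendsto h3 h1
    have h4 := eventually_nhdsWithin_iff.mp h1
    filter_upwards [h4] with z hz
    by_cases hz0 : z = z₀
    · rw [hz0]; exact h2
    · exact hz hz0
  have hHX : ∀ᶠ z in 𝓝 z₀, H z ∈ X := by
    filter_upwards [hclH, hne] with z h1 h2
    exact hX _ h1 h2
  rcases h.iso H z₀ hHa hHX with h1 | h1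
  · exact h1
  exfalso
  -- a small closed disc
  have hball : ∀ᶠ z in 𝓝 z₀, z ∈ ball z₀ s := isOpen_ball.mem_nhds (mem_ball_self hs)
  obtain ⟨r₀, hr₀, hr₀K⟩ := Metric.eventually_nhds_iff_ball.mp ((eventually_nhdsWithin_iff.mp h1).and hball)
  set r : ℝ := r₀ / 2 with hr
  have hr0 : 0 < r := by rw [hr]; positivity
  have hrlt : r < r₀ := by rw [hr]; linarith
  have hcb : closedBall z₀ r ⊆ ball z₀ r₀ := closedBall_subset_ball hrlt
  have hKr : ∀ z ∈ closedBall z₀ r, z ≠ z₀ → H z ∈ K := fun z hz hne => (hr₀K z (hcb hz)).1 hne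
  have hsr : closedBall z₀ r ⊆ ball z₀ s := fun z hz => (hr₀K z (hcb hz)).2
  -- a uniform bound on the circle
  have hpt : ∀ w ∈ sphere z₀ r, ∃ t ∈ 𝓝 w, ∃ C : ℝ, ∀ᶠ n in l, ∀ z ∈ t, ‖Φ (F n z)‖ ≤ C := by
    intro w hw
    have hwcb : w ∈ closedBall z₀ r := sphere_subset_closedBall hw
    have hwne : w ≠ z₀ := by
      rintro rfl
      rw [mem_sphere, dist_self] at hw
      linarith
    have hws : w ∈ ball z₀ s := hsr hwcb
    have hxK : (w - z₀) ^ k • H w ∈ K := hsm _ (hKr w hwcb hwne) _ (pow_ne_zero k (sub_ne_zero.mpr hwne))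
    have hc : ∀ᶠ y in 𝓝 ((w - z₀) ^ k • H w), y ∈ K → ‖Φ y‖ < ‖Φ ((w - z₀) ^ k • H w)‖ + 1 := by
      have h2 := (h.cont _ hxK).norm.eventually_lt_const (show ‖Φ ((w - z₀) ^ k • H w)‖ < ‖Φ ((w - z₀) ^ k • H w)‖ + 1 by linarith)
      exact eventually_nhdsWithin_iff.mp h2
    obtain ⟨δ, hδ, hδc⟩ := Metric.eventually_nhds_iff.mp hc
    have hGc : ContinuousAt (fun z => (z - z₀) ^ k • H z) w :=
      (((continuous_id.sub continuous_const).pow k).continuousAt).smul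
        ((hH.differentiableAt (isOpen_ball.mem_nhds hws)).continuousAt)
    have hG : ∀ᶠ z in 𝓝 w, dist ((z - z₀) ^ k • H z) ((w - z₀) ^ k • H w) < δ / 2 :=
      Metric.tendsto_nhds.mp hGc (δ / 2) (by positivity)
    obtain ⟨t, ht, htn⟩ := (Metric.tendstoLocallyUniformlyOn_iff.mp hlim) (δ / 2) (by positivity) w hws
    rw [isOpen_ball.nhdsWithin_eq hws] at ht
    refine ⟨t ∩ ({z | dist ((z - z₀) ^ k • H z) ((w - z₀) ^ k • H w) < δ / 2} ∩ ball z₀ s),
      inter_mem ht (inter_mem hG (isOpen_ball.mem_nhds hws)), ‖Φ ((w - z₀) ^ k • H w)‖ + 1, ?_⟩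
    filter_upwards [htn, hF] with n hn1 hn2
    rintro z ⟨hz1, hz2, hz3⟩
    have h3 : dist (F n z) ((w - z₀) ^ k • H w) < δ := by
      have h4 := hn1 z hz1
      rw [dist_comm] at h4
      have h5 : dist ((z - z₀) ^ k • H z) ((w - z₀) ^ k • H w) < δ / 2 := hz2
      calc dist (F n z) ((w - z₀) ^ k • H w) ≤ dist (F n z) ((z - z₀) ^ k • H z) + dist ((z - z₀) ^ k • H z) ((w - z₀) ^ k • H w) :=
            dist_triangle _ _ _
        _ < δ := by linarith
    exact (hδc h3 (hn2.2 z hz3)).le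
  obtain ⟨C, hC⟩ : ∃ C : ℝ, ∀ᶠ n in l, ∀ z ∈ sphere z₀ r, ‖Φ (F n z)‖ ≤ C := by
    refine (isCompact_sphere z₀ r).induction_on (p := fun S => ∃ C : ℝ, ∀ᶠ n in l, ∀ z ∈ S, ‖Φ (F n z)‖ ≤ C) ?_ ?_ ?_ ?_
    · exact ⟨0, Filter.Eventually.of_forall fun n z hz => absurd hz (Set.notMem_empty z)⟩
    · rintro S T hST ⟨C, hC⟩
      exact ⟨C, hC.mono fun n hn z hz => hn z (hST hz)⟩
    · rintro S T ⟨C, hC⟩ ⟨C', hC'⟩
      refine ⟨max C C', ?_⟩
      filter_upwards [hC, hC'] with n h1 h2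
      rintro z (hz | hz)
      · exact (h1 z hz).trans (le_max_left _ _)
      · exact (h2 z hz).trans (le_max_right _ _)
    · intro w hw
      obtain ⟨t, ht, C, hC⟩ := hpt w hw
      exact ⟨t, mem_nhdsWithin_of_mem_nhds ht, C, hC⟩
  -- the bound inside
  have hin : ∀ᶠ n in l, ∀ z ∈ ball z₀ r, ‖Φ (F n z)‖ ≤ C := by
    filter_upwards [hC, hF] with n h1 h2
    intro z hz
    have hd : DifferentiableOn ℂ (fun z => Φ (F n z)) (ball z₀ s) := by
      intro w hw
      have hFa : AnalyticAt ℂ (F n) w := h2.1.analyticAt (isOpen_ball.mem_nhds hw)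
      have hFK : ∀ᶠ z in 𝓝 w, F n z ∈ K := by
        filter_upwards [isOpen_ball.mem_nhds hw] with z hz
        exact h2.2 z hz
      exact (h.hol _ w hFa hFK).differentiableAt.differentiableWithinAt
    have hdc : DiffContOnCl ℂ (fun z => Φ (F n z)) (ball z₀ r) := by
      refine DifferentiableOn.diffContOnCl ?_
      rw [closure_ball z₀ hr0.ne']
      exact hd.mono hsr
    refine Complex.norm_le_of_forall_mem_frontier_norm_le isBounded_ball hdc (fun w hw => ?_) (subset_closure hz)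
    rw [frontier_ball z₀ hr0.ne'] at hw
    exact h1 w hw
  -- the bound for the limit
  have hlimC : ∀ z ∈ ball z₀ r, z ≠ z₀ → ‖Φ (H z)‖ ≤ C := by
    intro z hz hzne
    have hzs : z ∈ ball z₀ s := hsr (ball_subset_closedBall hz)
    have hzK : H z ∈ K := hKr z (ball_subset_closedBall hz) hzne
    have hcne : (z - z₀) ^ k ≠ 0 := pow_ne_zero k (sub_ne_zero.mpr hzne)
    have hxK : (z - z₀) ^ k • H z ∈ K := hsm _ hzK _ hcne
    have h2 : Tendsto (fun n => F n z) l (𝓝[K] ((z - z₀) ^ k • H z)) := by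
      refine tendsto_nhdsWithin_iff.mpr ⟨hlim.tendsto_at hzs, ?_⟩
      filter_upwards [hF] with n hn
      exact hn.2 z hzs
    have h3 : Tendsto (fun n => ‖Φ (F n z)‖) l (𝓝 ‖Φ ((z - z₀) ^ k • H z)‖) := ((h.cont _ hxK).tendsto.comp h2).norm
    rw [h.smul _ hzK _ hcne] at h3
    refine le_of_tendsto h3 ?_
    filter_upwards [hin] with n hn
    exact hn z hz
  have hprop := h.proper (H z₀) (hHX.self_of_nhds) hK C
  have h4 : ∀ᶠ z in 𝓝[≠] z₀, H z ∈ K → C < ‖Φ (H z)‖ := (hHa.continuousAt.eventually hprop).filter_mono nhdsWithin_le_nhds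
  have h5 : ∀ᶠ z in 𝓝[≠] z₀, z ∈ ball z₀ r := (show ∀ᶠ z in 𝓝 z₀, z ∈ ball z₀ r from ball_mem_nhds z₀ hr0).filter_mono nhdsWithin_le_nhds
  obtain ⟨z, hz1, hz2, hz3, hz4⟩ := ((h4.and (h1.and h5)).and self_mem_nhdsWithin).exists.imp fun z hz => (⟨hz.1.1, hz.1.2.1, hz.1.2.2, hz.2⟩ : (H z ∈ K → C < ‖Φ (H z)‖) ∧ H z ∈ K ∧ z ∈ ball z₀ r ∧ z ∈ ({z₀} : Set ℂ)ᶜ)
  have h6 := hz1 hz2
  have h7 := hlimC z hz3 hz4
  linarith

end Pool.Agent.H36.BPL

end

section

/-!
# BPL: open surfaces in projective spaces, in terms of their cones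

`X` is the cone of a smooth closed surface, `K` the cone over the complement of a curve `D` in it.
-/

set_option autoImplicit false

namespace Pool.Agent.H36.BPL

open Filter Topology Metric
open Pool.Agent.H17BP (Surface IsChart IsForm NoZeros NodalAt)

variable {V : Type} [NormedAddCommGroup V] [NormedSpace ℂ V]

/-- `K` is the complement in `X` of a curve which is locally given by one equation. -/
structure OpenPart (X K : Set V) : Prop where
  sub : K ⊆ X
  smul : ∀ x ∈ K, ∀ c : ℂ, c ≠ 0 → c • x ∈ K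
  eqn : ∀ x ∈ X, ∃ h : V → ℂ, AnalyticAt ℂ h x ∧ ∀ᶠ y in 𝓝 x, y ∈ X → (y ∉ K ↔ h y = 0)

/-- `g` is holomorphic near `p` and vanishes on the preimage of `X ∖ K` under `φ` -/
def VanOff (K : Set V) (φ : ℂ × ℂ → V) (p : ℂ × ℂ) (g : ℂ × ℂ → ℂ) : Prop :=
  AnalyticAt ℂ g p ∧ ∀ᶠ y in 𝓝 p, φ y ∉ K → g y = 0

/-- The form `Ω` on `K` has poles of order at most `e` along `X ∖ K`: the pull back of `Ω` to `ℂ²` becomes holomorphic when it is multiplied with `e`
functions which vanish on the preimage of `X ∖ K`. -/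
def PoleLE (X K : Set V) (e : ℕ) (Ω : V → V → V → ℂ) : Prop :=
  ∀ (φ : ℂ × ℂ → V) (p : ℂ × ℂ), AnalyticAt ℂ φ p → (∀ᶠ y in 𝓝 p, φ y ∈ X) → ∀ G : List (ℂ × ℂ → ℂ), G.length = e →
    (∀ g ∈ G, VanOff K φ p g) → ∃ b : ℂ × ℂ → ℂ, AnalyticAt ℂ b p ∧
      ∀ᶠ y in 𝓝 p, φ y ∈ K → b y = (G.map fun g => g y).prod * Ω (φ y) (fderiv ℂ φ y (1, 0)) (fderiv ℂ φ y (0, 1))

/-- The curve `T ⊇ X ∖ K` is smooth or has a node at `x`, and `X ∖ K` is a union of branches of `T`. -/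
def PairNodalAt (X K T : Set V) (x : V) : Prop :=
  ∃ σ τ, IsChart X σ τ ∧ σ 0 = x ∧ ∃ (nd : Bool) (d : Bool × Bool),
    (∀ᶠ p in 𝓝 (0 : ℂ × ℂ), (σ p ∈ T ↔ p.1 = 0 ∨ (nd = true ∧ p.2 = 0))) ∧
    (∀ᶠ p in 𝓝 (0 : ℂ × ℂ), (σ p ∉ K ↔ (d.1 = true ∧ p.1 = 0) ∨ (d.2 = true ∧ p.2 = 0))) ∧ (d.2 = true → nd = true)

theorem OpenPart.rel {X K : Set V} (h : OpenPart X K) : ∀ x ∈ K, ∀ᶠ y in 𝓝 x, y ∈ X → y ∈ K := by
  intro x hx
  obtain ⟨g, hg, he⟩ := h.eqn x (h.sub hx)
  have h1 : g x ≠ 0 := fun h0 => ((he.self_of_nhds (h.sub hx)).mpr h0) hx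
  filter_upwards [he, hg.continuousAt.eventually_ne h1] with y hy hy2 hyX
  by_contra h2
  exact hy2 ((hy hyX).mp h2)

theorem PoleLE.pow {X K : Set V} {e : ℕ} {Ω : V → V → V → ℂ} (h : PoleLE X K e Ω) {φ : ℂ × ℂ → V} {p : ℂ × ℂ} (hφ : AnalyticAt ℂ φ p)
    (hX : ∀ᶠ y in 𝓝 p, φ y ∈ X) {g : ℂ × ℂ → ℂ} (hg : AnalyticAt ℂ g p) (hg0 : ∀ᶠ y in 𝓝 p, φ y ∉ K → g y = 0) :
    ∃ b : ℂ × ℂ → ℂ, AnalyticAt ℂ b p ∧
      ∀ᶠ y in 𝓝 p, φ y ∈ K → b y = g y ^ e * Ω (φ y) (fderiv ℂ φ y (1, 0)) (fderiv ℂ φ y (0, 1)) := by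
  obtain ⟨b, hb, hbe⟩ := h φ p hφ hX (List.replicate e g) (List.length_replicate ..) (fun g' hg' => by
    rw [List.eq_of_mem_replicate hg']
    exact ⟨hg, hg0⟩)
  refine ⟨b, hb, ?_⟩
  filter_upwards [hbe] with y hy hyK
  rw [hy hyK, List.map_replicate, List.prod_replicate]

/-- the product of holomorphic functions is holomorphic -/
theorem analyticAt_listProd {p : ℂ × ℂ} {G : List (ℂ × ℂ → ℂ)} (h : ∀ g ∈ G, AnalyticAt ℂ g p) :
    AnalyticAt ℂ (fun y => (G.map fun g => g y).prod) p := by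
  induction G with
  | nil => simpa using analyticAt_const
  | cons g G ih =>
    have h1 : (fun y => ((g :: G).map fun g => g y).prod) = fun y => g y * (G.map fun g => g y).prod := by
      funext y
      simp
    rw [h1]
    exact (h g (by simp)).mul (ih fun g' hg' => h g' (by simp [hg']))

theorem PoleLE.mono {X K : Set V} {e e' : ℕ} (he : e ≤ e') {Ω : V → V → V → ℂ} (h : PoleLE X K e Ω) : PoleLE X K e' Ω := by
  intro φ p hφ hX G hG hGg
  obtain ⟨b, hb, hbe⟩ := h φ p hφ hX (G.take e) (by rw [List.length_take]; omega) (fun g hg => hGg g (List.mem_of_mem_take hg))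
  refine ⟨fun y => ((G.drop e).map fun g => g y).prod * b y, (analyticAt_listProd fun g hg => (hGg g (List.mem_of_mem_drop hg)).1).mul hb, ?_⟩
  filter_upwards [hbe] with y hy hyK
  rw [hy hyK]
  have h1 : (G.map fun g => g y).prod = ((G.take e).map fun g => g y).prod * ((G.drop e).map fun g => g y).prod := by
    rw [← List.prod_append, ← List.map_append, List.take_append_drop]
  rw [h1]
  ring

/-- powers of a form with logarithmic poles, multiplied by a homogeneous function which vanishes on `X ∖ K` -/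
theorem PoleLE.pow_mul {X K : Set V} {M k : ℕ} (hM : 1 ≤ M) (hk : 1 ≤ k) {Ω : V → V → V → ℂ} (h : PoleLE X K M Ω) {H : V → ℂ}
    (hH : ∀ x, AnalyticAt ℂ H x) (hH0 : ∀ x ∈ X, x ∉ K → H x = 0) : PoleLE X K (M * k - 1) (fun x v w => H x * Ω x v w ^ k) := by
  -- the `k`-th power
  have key : ∀ k : ℕ, ∀ (φ : ℂ × ℂ → V) (p : ℂ × ℂ), AnalyticAt ℂ φ p → (∀ᶠ y in 𝓝 p, φ y ∈ X) → ∀ G : List (ℂ × ℂ → ℂ), G.length = M * k →
      (∀ g ∈ G, VanOff K φ p g) → ∃ b : ℂ × ℂ → ℂ, AnalyticAt ℂ b p ∧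
      ∀ᶠ y in 𝓝 p, φ y ∈ K → b y = (G.map fun g => g y).prod * Ω (φ y) (fderiv ℂ φ y (1, 0)) (fderiv ℂ φ y (0, 1)) ^ k := by
    intro k
    induction k with
    | zero =>
      intro φ p _ _ G hG _
      obtain rfl := List.eq_nil_of_length_eq_zero (by simpa using hG)
      exact ⟨fun _ => 1, analyticAt_const, Filter.Eventually.of_forall fun y _ => by simp⟩
    | succ k ih =>
      intro φ p hφ hX G hG hGg
      obtain ⟨b, hb, hbe⟩ := h φ p hφ hX (G.take M) (by rw [List.length_take, hG]; simp [Nat.mul_succ]) (fun g hg => hGg g (List.mem_of_mem_take hg))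
      obtain ⟨b', hb', hbe'⟩ := ih φ p hφ hX (G.drop M) (by rw [List.length_drop, hG]; simp [Nat.mul_succ]) (fun g hg => hGg g (List.mem_of_mem_drop hg))
      refine ⟨fun y => b y * b' y, hb.mul hb', ?_⟩
      filter_upwards [hbe, hbe'] with y hy hy' hyK
      rw [hy hyK, hy' hyK]
      have h1 : (G.map fun g => g y).prod = ((G.take M).map fun g => g y).prod * ((G.drop M).map fun g => g y).prod := by
        rw [← List.prod_append, ← List.map_append, List.take_append_drop]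
      rw [h1]
      ring
  intro φ p hφ hX G hG hGg
  have hHφ : AnalyticAt ℂ (fun y => H (φ y)) p := (hH _).comp hφ
  have hMk : 1 ≤ M * k := Nat.mul_pos hM hk
  obtain ⟨b, hb, hbe⟩ := key k φ p hφ hX ((fun y => H (φ y)) :: G) (by rw [List.length_cons, hG]; omega) (fun g hg => by
    rcases List.mem_cons.mp hg with rfl | hg
    · exact ⟨hHφ, hX.mono fun y hy hyK => hH0 _ hy hyK⟩
    · exact hGg g hg)
  refine ⟨b, hb, ?_⟩
  filter_upwards [hbe] with y hy hyK
  rw [hy hyK, List.map_cons, List.prod_cons]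
  ring

theorem isForm_pow_mul {K : Set V} {m j d k : ℕ} (hd : d ≤ j * k) {Ω : V → V → V → ℂ} (h : IsForm K m j Ω) {H : V → ℂ}
    (hH : ∀ x, AnalyticAt ℂ H x) (hHs : ∀ (c : ℂ) (x : V), H (c • x) = c ^ d * H x) (hsK : ∀ x ∈ K, ∀ c : ℂ, c ≠ 0 → c • x ∈ K) :
    IsForm K (m * k) (j * k - d) (fun x v w => H x * Ω x v w ^ k) where
  add_smul x hx v hv w hw a b := by simp only [h.add_smul x hx v hv w hw a b]
  det x hx v hv w hw a b c d := by
    simp only [h.det x hx v hv w hw a b c d]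
    ring
  scale x hx v hv w hw c hc := by
    have h1 := h.scale x hx v hv w hw c hc
    simp only [hHs]
    rw [← h1]
    obtain ⟨e, he⟩ := Nat.exists_eq_add_of_le hd
    have h2 : j * k - d = e := by omega
    rw [h2]
    have h3 : (c ^ j) ^ k = c ^ d * c ^ e := by rw [← pow_mul, he, pow_add]
    calc c ^ e * (c ^ d * H x * Ω (c • x) (c • v) (c • w) ^ k) = H x * ((c ^ d * c ^ e) * Ω (c • x) (c • v) (c • w) ^ k) := by ring
      _ = H x * ((c ^ j) ^ k * Ω (c • x) (c • v) (c • w) ^ k) := by rw [h3]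
      _ = _ := by rw [← mul_pow]
  analytic φ p hφ hφK := ((hH _).comp hφ).mul ((h.analytic φ p hφ hφK).pow k)

end Pool.Agent.H36.BPL

end

section

/-!
# KR FT: top forms

Let `b` be the basis of `Ω[K⁄ℂ]` with `b i = d (a i)` (`Pool.Agent.H23.exists_basis_kaehler`).  `⋀[K]^2 Ω` is spanned by the
elements `ιMulti v` (`exteriorPower.ιMulti_span`), and `ιMulti v = b.det v • ιMulti b` for `v : Fin 2 → Ω` (two
alternating maps which agree on the basis, `Module.Basis.ext_alternating`; the right hand side is an alternating map of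
`v`, e.g. `(b.det).smulRight`-like; or expand `v 0`, `v 1` in the basis by hand).  So every element is `W • ιMulti b`,
which is `Form.mk W a` (unfold `Form`, `ExtPow`, `Form.mk`, `ExtPow.wedge`, `d`).
-/

set_option autoImplicit false

open Pool.Agent.H23.Fano (Form)

noncomputable section

namespace Pool.Agent.H68.KR

private theorem FT_ext_smul {K V : Type} [Field K] [AddCommGroup V] [Module K V] {n : ℕ}
    (b : Module.Basis (Fin n) K V) (v : Fin n → V) :
    exteriorPower.ιMulti K n v = b.det v • exteriorPower.ιMulti K n b := by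
  have h : exteriorPower.ιMulti K n (M := V) =
      ((LinearMap.toSpanSingleton K (⋀[K]^n V) (exteriorPower.ιMulti K n b)).compAlternatingMap
        b.det) := by
    refine Module.Basis.ext_alternating b fun i hi => ?_
    let σ : Equiv.Perm (Fin n) := Equiv.ofBijective i (Finite.injective_iff_bijective.1 hi)
    change exteriorPower.ιMulti K n (b ∘ σ) = _
    change _ = (LinearMap.toSpanSingleton K (⋀[K]^n V) (exteriorPower.ιMulti K n b))
      (b.det (b ∘ σ))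
    rw [AlternatingMap.map_perm, AlternatingMap.map_perm, b.det_self,
      LinearMap.toSpanSingleton_apply]
    rcases Int.units_eq_one_or (Equiv.Perm.sign σ) with h1 | h1 <;> simp [h1]
  have h2 := congrArg (fun f => f v) h
  simpa using h2

private theorem FT_exists_smul {K V : Type} [Field K] [AddCommGroup V] [Module K V] {n : ℕ}
    (b : Module.Basis (Fin n) K V) (ω : ⋀[K]^n V) :
    ∃ W : K, ω = W • exteriorPower.ιMulti K n b := by
  have h : ω ∈ Submodule.span K (Set.range (exteriorPower.ιMulti K n (M := V))) := by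
    rw [exteriorPower.ιMulti_span]
    exact Submodule.mem_top
  induction h using Submodule.span_induction with
  | mem x hx =>
    obtain ⟨v, rfl⟩ := hx
    exact ⟨b.det v, FT_ext_smul b v⟩
  | zero => exact ⟨0, by simp⟩
  | add x y hx hy h1 h2 =>
    obtain ⟨W1, h1⟩ := h1
    obtain ⟨W2, h2⟩ := h2
    exact ⟨W1 + W2, by rw [h1, h2, add_smul]⟩
  | smul c x hx h1 =>
    obtain ⟨W1, h1⟩ := h1
    exact ⟨c * W1, by rw [h1, mul_smul]⟩

private theorem FT_exists_form {K : Type} [Field K] [Algebra ℂ K] {a : Fin 2 → K}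
    (b : Module.Basis (Fin 2) K Ω[K⁄ℂ]) (hb : ∀ i, b i = KaehlerDifferential.D ℂ K (a i))
    (ω : Form K 2) : ∃ W : K, ω = Form.mk W a := by
  obtain ⟨W, hW⟩ := FT_exists_smul b (show ⋀[K]^2 Ω[K⁄ℂ] from ω)
  refine ⟨W, ?_⟩
  have h1 : (b : Fin 2 → Ω[K⁄ℂ]) = fun i => KaehlerDifferential.D ℂ K (a i) := funext hb
  rw [h1] at hW
  exact hW

theorem exists_form_mk {K : Type} [Field K] [Algebra ℂ K] {a : Fin 2 → K}
    (ha : IsTranscendenceBasis ℂ a) (ω : Form K 2) : ∃ W : K, ω = Form.mk W a := by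
  obtain ⟨b, hb⟩ := Pool.Agent.H23.exists_basis_kaehler ha
  exact FT_exists_form b hb ω

end Pool.Agent.H68.KR

end
end
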