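import Pool.Agent.H43.TL2.M30
import Pool.Agent.H43.TL2.M32
import Pool.Agent.H43.TL2.M33
import Pool.Agent.H43.TL2.M35
import Pool.Agent.H43.TL2.M36

/-! The parts of this file: H36.BP.Lim, H36.BP.Brody, H62.FC.Eval, H62.FC.Dense, H7.Bir.Open, H14.V.MainV, AD.T.Defs, MQ2.RegE, MQ2.RegE_1, MQ3.DivR. -/

section

/-!
# BP Lim: the limit curve

Along the ultrafilter `𝒰 = hyperfilter ℕ`: for every natural `R ≥ 1` the curves `F_n^R = exp(g_n^R) F_n` (`n ≥ R`) converge locally uniformly on `ball 0 R` to `H_R` (`montel_ultrafilter`), `|H_R 0| ≥ c_R > 0`.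
`F_n^R` and `F_n^S` are proportional at every point, hence all 2x2 minors of `(H_R z, H_S z)` vanish.  Near every `z` with `|z| < R` the function `H_R` does not vanish identically
(identity theorem on the ball), so `H_R w = (w - z)^k φ(w)`, `φ(z) ≠ 0` (`AnalyticAt.exists_eventuallyEq_pow_smul_nonzero_iff`): define `f z = [φ z] ∈ ℙ^N`; it is independent of `R` and holomorphic
(`HolomorphicInto f univ`), and `[H_R w] = f w` where `H_R w ≠ 0`.  `exists_global_lift` gives an entire lift `H` of `f`.  Near every `z₀` with `|z₀| < R`: `H_R w = (w - z₀)^k • u w • H w` with `u` holomorphic without zeros near `z₀`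
(compare `H` and `φ`: both without zeros and proportional); absorb `u` into `H` to apply `hur` near `z₀` (`u w • H w ∈ K` iff `H w ∈ K`).
`H w ∈ closure K` for all `w`: limit of points `F_n^R w ∈ K` where `H_R w ≠ 0`, elsewhere by continuity.
* `A = {z : H z ∉ K}` is open (`hur`) and closed (`rel_open` and continuity of `H`), so `A = ∅` or `A = univ`.
* `A = univ` is impossible: `H_1 → ` near `0`, `H_1 w ≠ 0` and `H_1 w = u w • H w ∉ K`, `lim` gives `mt G (F_n^1) 0 < 1/2` eventually, but `mt G (F_n^1) 0 = mt G (F_n) 0 = 1` (`mt_smul`).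
* so `H z ∈ K` for all `z`; `mt G H 0 = mt G (u • H) 0 = mt G H_1 0 ≥ 1` (`mt_smul`, `mt_limit`).
(`EuclideanSpace ℂ (Fin (N+1))` versus `Fin (N+1) → ℂ`: `WithLp.toLp 2`, `WithLp.ofLp`, both continuous linear.)
-/

set_option autoImplicit false

namespace Pool.Agent.H36.BP

open Filter Topology Metric

variable {N : ℕ}

variable {K B : Set (EN N)} {G : EN N → EN N → ℝ} {ρ : EN N → ℝ} {M : ℕ} {c₀ C : ℝ}

/-- The coordinate `i`. -/
private noncomputable def Lim_pr (i : Fin (N + 1)) : EN N →L[ℂ] ℂ := EuclideanSpace.proj i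

private lemma Lim_exists_coord {w : EN N} (hw : w ≠ 0) : ∃ j, w j ≠ 0 := by
  by_contra h
  push Not at h
  apply hw
  ext j
  exact h j

private lemma Lim_prop {v w : EN N} (hw : w ≠ 0) (h : ∀ i j, v i * w j = v j * w i) :
    ∃ c : ℂ, v = c • w := by
  obtain ⟨j, hj⟩ := Lim_exists_coord hw
  refine ⟨v j / w j, ?_⟩
  ext i
  rw [PiLp.smul_apply, smul_eq_mul, div_mul_eq_mul_div, eq_div_iff hj]
  exact h i j

private lemma Lim_cont_minor {X : Type} [TopologicalSpace X] {f g : X → EN N} {x : X}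
    (hf : ContinuousAt f x) (hg : ContinuousAt g x) (i j : Fin (N + 1)) :
    ContinuousAt (fun y => f y i * g y j - f y j * g y i) x := by
  have hc : ∀ (f : X → EN N), ContinuousAt f x → ∀ i, ContinuousAt (fun y => f y i) x := by
    intro f hf i
    exact (Lim_pr i).continuous.continuousAt.comp hf
  exact ((hc f hf i).mul (hc g hg j)).sub ((hc f hf j).mul (hc g hg i))

/-- Gluing of local lifts. -/
private lemma Lim_glue (Hs : ℕ → ℂ → EN N)
    (hd : ∀ R : ℕ, DifferentiableOn ℂ (Hs R) (ball 0 (R + 1))) (h0 : ∀ R, Hs R 0 ≠ 0)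
    (hp : ∀ (R S : ℕ) (z : ℂ), z ∈ ball (0 : ℂ) (R + 1) → z ∈ ball (0 : ℂ) (S + 1) →
      ∀ i j, Hs R z i * Hs S z j = Hs R z j * Hs S z i) :
    ∃ H : ℂ → EN N, Differentiable ℂ H ∧ (∀ z, H z ≠ 0) ∧
      ∀ (R : ℕ), ∀ z₀ ∈ ball (0 : ℂ) (R + 1), ∃ (k : ℕ) (u : ℂ → ℂ), AnalyticAt ℂ u z₀ ∧
        u z₀ ≠ 0 ∧ ∀ᶠ w in 𝓝 z₀, Hs R w = (w - z₀) ^ k • (u w • H w) := by
  classical
  -- local factorisation
  have hfac : ∀ (R : ℕ), ∀ z₀ ∈ ball (0 : ℂ) (R + 1), ∃ (k : ℕ) (φ : ℂ → EN N),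
      AnalyticAt ℂ φ z₀ ∧ φ z₀ ≠ 0 ∧ ∀ᶠ w in 𝓝 z₀, Hs R w = (w - z₀) ^ k • φ w := by
    intro R z₀ hz₀
    have ha : AnalyticAt ℂ (Hs R) z₀ := (hd R).analyticAt (isOpen_ball.mem_nhds hz₀)
    rw [ha.exists_eventuallyEq_pow_smul_nonzero_iff]
    intro hcon
    have hon : AnalyticOnNhd ℂ (Hs R) (ball 0 (R + 1)) := fun w hw =>
      (hd R).analyticAt (isOpen_ball.mem_nhds hw)
    have h1 := hon.eqOn_zero_of_preconnected_of_eventuallyEq_zero
      (convex_ball (0 : ℂ) (R + 1)).isPreconnected hz₀ hcon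
    exact h0 R (h1 (mem_ball_self (by positivity)))
  have hmem : ∀ z : ℂ, z ∈ ball (0 : ℂ) ((⌈‖z‖⌉₊ : ℕ) + 1) := by
    intro z
    rw [mem_ball_zero_iff]
    have := Nat.le_ceil ‖z‖
    linarith
  choose k φ hφa hφ0 hφe using fun z : ℂ => hfac ⌈‖z‖⌉₊ z (hmem z)
  -- any local factor is proportional to φ
  have hcmp : ∀ (R : ℕ), ∀ z₀ ∈ ball (0 : ℂ) (R + 1), ∀ (m : ℕ) (ψ : ℂ → EN N),
      AnalyticAt ℂ ψ z₀ → (∀ᶠ w in 𝓝 z₀, Hs R w = (w - z₀) ^ m • ψ w) →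
      ∀ᶠ z in 𝓝 z₀, ∀ i j, φ z z i * ψ z j = φ z z j * ψ z i := by
    intro R z₀ hz₀ m ψ hψa hψe
    filter_upwards [hψe.eventually_nhds, hψa.eventually_analyticAt,
      isOpen_ball.mem_nhds hz₀] with z h1 h2 h3 i j
    -- near z
    have h4 : ∀ᶠ w in 𝓝[≠] z, φ z w i * ψ w j - φ z w j * ψ w i = 0 := by
      have hne0 : ∀ᶠ w in 𝓝[≠] z, w ≠ z₀ := by
        by_cases hz : z = z₀
        · rw [hz]
          exact self_mem_nhdsWithin
        · exact (eventually_ne_nhds hz).filter_mono nhdsWithin_le_nhds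
      filter_upwards [h1.filter_mono nhdsWithin_le_nhds, hne0, self_mem_nhdsWithin,
        (hφe z).filter_mono nhdsWithin_le_nhds,
        nhdsWithin_le_nhds (isOpen_ball.mem_nhds (hmem z)),
        nhdsWithin_le_nhds (isOpen_ball.mem_nhds h3)] with w a1 a2 a3 a4 a5 a6
      have h5 := hp ⌈‖z‖⌉₊ R w a5 a6 i j
      rw [a4, a1] at h5
      simp only [PiLp.smul_apply, smul_eq_mul] at h5
      have h6 : (w - z) ^ k z ≠ 0 := pow_ne_zero _ (sub_ne_zero.2 a3)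
      have h7 : (w - z₀) ^ m ≠ 0 := pow_ne_zero _ (sub_ne_zero.2 a2)
      have h8 : (w - z) ^ k z * (w - z₀) ^ m * (φ z w i * ψ w j - φ z w j * ψ w i) = 0 := by
        linear_combination h5
      rcases mul_eq_zero.1 h8 with h | h
      · exact absurd h (mul_ne_zero h6 h7)
      · exact h
    have h5 : Tendsto (fun w => φ z w i * ψ w j - φ z w j * ψ w i) (𝓝[≠] z)
        (𝓝 (φ z z i * ψ z j - φ z z j * ψ z i)) :=
      ((Lim_cont_minor (hφa z).continuousAt h2.continuousAt i j).tendsto).mono_left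
        nhdsWithin_le_nhds
    have h6 : Tendsto (fun w => φ z w i * ψ w j - φ z w j * ψ w i) (𝓝[≠] z) (𝓝 0) :=
      (tendsto_congr' h4).2 tendsto_const_nhds
    exact sub_eq_zero.1 (tendsto_nhds_unique h5 h6)
  have hofne : ∀ v : EN N, v ≠ 0 → v.ofLp ≠ 0 := by
    intro v hv h
    apply hv
    ext j
    exact congrFun h j
  set f : ℂ → Pool.Agent.H17.PN N := fun z => Projectivization.mk ℂ (φ z z).ofLp
    (hofne _ (hφ0 z)) with hf
  have hfhol : Pool.Agent.H17.HolomorphicInto f Set.univ := by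
    intro z₀ _
    refine ⟨fun w => (φ z₀ w).ofLp, ?_, ?_⟩
    · rw [analyticAt_pi_iff]
      intro j
      exact ((Lim_pr j).analyticAt _).comp (hφa z₀)
    · filter_upwards [hcmp ⌈‖z₀‖⌉₊ z₀ (hmem z₀) (k z₀) (φ z₀) (hφa z₀) (hφe z₀),
        (hφa z₀).continuousAt.eventually_ne (hφ0 z₀)] with z h1 h2
      refine ⟨hofne _ h2, ?_⟩
      obtain ⟨c, hc⟩ := Lim_prop h2 h1
      rw [hf, Projectivization.mk_eq_mk_iff']
      exact ⟨c, by rw [hc]; rfl⟩
  obtain ⟨x, hx⟩ := Pool.Agent.H17.exists_global_lift hfhol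
  refine ⟨fun z => WithLp.toLp 2 (fun j => (x j : ℂ → ℂ) z), ?_, ?_, ?_⟩
  · have h1 : Differentiable ℂ (fun z => (fun j => (x j : ℂ → ℂ) z)) :=
      differentiable_pi.2 fun j => (x j).diff
    exact (PiLp.continuousLinearEquiv 2 ℂ (fun _ : Fin (N + 1) => ℂ)).symm.differentiable.comp h1
  · intro z h
    obtain ⟨h1, _⟩ := hx z
    apply h1
    funext j
    exact congrArg (fun v : EN N => v j) h
  · intro R z₀ hz₀
    obtain ⟨m, ψ, hψa, hψ0, hψe⟩ := hfac R z₀ hz₀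
    have hH : ∀ z, ∀ i j, φ z z i * (x j : ℂ → ℂ) z = φ z z j * (x i : ℂ → ℂ) z := by
      intro z i j
      obtain ⟨h1, h2⟩ := hx z
      obtain ⟨c, hc, h3⟩ := Pool.Agent.H17.mk_eq_mk_cross h2
      have e1 : φ z z i = c * (x i : ℂ → ℂ) z := h3 i
      have e2 : φ z z j = c * (x j : ℂ → ℂ) z := h3 j
      rw [e1, e2]
      ring
    have hprop : ∀ᶠ z in 𝓝 z₀, ∀ i j, ψ z i * (x j : ℂ → ℂ) z = ψ z j * (x i : ℂ → ℂ) z := by
      filter_upwards [hcmp R z₀ hz₀ m ψ hψa hψe] with z h1 i j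
      obtain ⟨l, hl⟩ := Lim_exists_coord (hφ0 z)
      have e1 := h1 l i
      have e2 := h1 l j
      have e3 := hH z l i
      have e4 := hH z l j
      have h5 : (φ z z l) * (φ z z l) * (ψ z i * (x j : ℂ → ℂ) z) =
          (φ z z l) * (φ z z l) * (ψ z j * (x i : ℂ → ℂ) z) := by
        linear_combination (φ z z l * (x j : ℂ → ℂ) z) * e1 - (φ z z l * (x i : ℂ → ℂ) z) * e2 +
          (φ z z i * ψ z l) * e4 - (φ z z j * ψ z l) * e3
      exact mul_left_cancel₀ (mul_ne_zero hl hl) h5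
    obtain ⟨l, hl⟩ : ∃ l, (x l : ℂ → ℂ) z₀ ≠ 0 := by
      obtain ⟨h1, _⟩ := hx z₀
      by_contra hcon
      push Not at hcon
      exact h1 (funext hcon)
    have hψl : AnalyticAt ℂ (fun z => ψ z l) z₀ :=
      ((Lim_pr l).analyticAt _).comp hψa
    have hloc : ∀ᶠ w in 𝓝 z₀, ψ w = (ψ w l / (x l : ℂ → ℂ) w) •
        (WithLp.toLp 2 (fun j => (x j : ℂ → ℂ) w) : EN N) := by
      filter_upwards [hprop, (x l).diff.continuous.continuousAt.eventually_ne hl] with w h1 h2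
      ext i
      rw [PiLp.smul_apply, smul_eq_mul, div_mul_eq_mul_div, eq_div_iff h2]
      exact h1 i l
    refine ⟨m, fun w => ψ w l / (x l : ℂ → ℂ) w, hψl.div ((x l).analyticAt z₀) hl, ?_, ?_⟩
    · intro h
      apply hψ0
      rw [hloc.self_of_nhds]
      have h' : ψ z₀ l / (x l : ℂ → ℂ) z₀ = 0 := h
      rw [h', zero_smul]
    · filter_upwards [hψe, hloc] with w h1 h2
      rw [h1]
      exact congrArg _ h2

/-- the limit curve, with the growth -/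
theorem limit_curve2 (hM : MetricData K B G ρ M c₀ C) (F : ℕ → ℂ → EN N) (hF : ∀ n : ℕ, Curve K (ball 0 (n + 1)) (F n))
    (h0 : ∀ n, mt G (F n) 0 = 1) (c' : ℕ → ℝ) (hc' : ∀ R, 1 ≤ R → 0 < c' R)
    (hchar : ∀ R : ℕ, 1 ≤ R → ∀ n, R ≤ n → ∃ g : ℂ → ℂ, Differentiable ℂ g ∧
      (∀ z ∈ ball (0 : ℂ) R, ‖Complex.exp (g z) • F n z‖ ≤ 1) ∧ c' R ≤ ‖Complex.exp (g 0) • F n 0‖) :
    ∃ H : ℂ → EN N, Differentiable ℂ H ∧ (∀ z, H z ∈ K) ∧ 1 ≤ mt G H 0 ∧ ∀ R : ℕ, 1 ≤ R → ∃ HR : ℂ → EN N, DifferentiableOn ℂ HR (ball 0 R) ∧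
      (∀ z ∈ ball (0 : ℂ) R, ‖HR z‖ ≤ 1) ∧ c' R ≤ ‖HR 0‖ ∧ ∀ z ∈ ball (0 : ℂ) R, HR z = 0 ∨ ∃ k : ℂ, k ≠ 0 ∧ H z = k • HR z := by
  classical
  set 𝒰 : Ultrafilter ℕ := hyperfilter ℕ with h𝒰
  have h𝒰top : (𝒰 : Filter ℕ) ≤ atTop := by
    rw [← Nat.cofinite_eq_atTop]
    exact hyperfilter_le_cofinite
  -- the normalised curves
  set c : ℕ → ℝ := fun R => c' (R + 1) with hcdef
  have hc : ∀ R, 0 < c R := fun R => hc' (R + 1) (by omega)
  have hch : ∀ R : ℕ, ∃ g : ℕ → ℂ → ℂ, ∀ n, R + 1 ≤ n → Differentiable ℂ (g n) ∧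
      (∀ z ∈ ball (0 : ℂ) (R + 1), ‖Complex.exp (g n z) • F n z‖ ≤ 1) ∧
      c R ≤ ‖Complex.exp (g n 0) • F n 0‖ := by
    intro R
    have h1 := hchar (R + 1) (by omega)
    refine ⟨fun n => if h : R + 1 ≤ n then (h1 n h).choose else 0, fun n hn => ?_⟩
    have h2 := (h1 n hn).choose_spec
    simp only [hn, dite_true]
    refine ⟨h2.1, fun z hz => h2.2.1 z ?_, h2.2.2⟩
    push_cast
    exact hz
  choose g hg using hch
  set Fr : ℕ → ℕ → ℂ → EN N := fun R n z => Complex.exp (g R n z) • F n z with hFr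
  have hFrK : ∀ R n : ℕ, R + 1 ≤ n → Curve K (ball 0 (R + 1)) (Fr R n) := by
    intro R n hn
    have hsub : ball (0 : ℂ) (R + 1) ⊆ ball 0 (n + 1) := by
      apply ball_subset_ball
      have : (R : ℝ) ≤ n := by exact_mod_cast (by omega : R ≤ n)
      linarith
    refine ⟨?_, fun z hz => ?_⟩
    · exact ((hg R n hn).1.cexp.differentiableOn).smul ((hF n).1.mono hsub)
    · exact hM.smul _ ((hF n).2 z (hsub hz)) _ (Complex.exp_ne_zero _)
  have hev : ∀ R : ℕ, ∀ᶠ n in (𝒰 : Filter ℕ), R + 1 ≤ n := fun R =>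
    h𝒰top (eventually_ge_atTop (R + 1))
  have hmont : ∀ R : ℕ, ∃ h : ℂ → EN N, DifferentiableOn ℂ h (ball 0 (R + 1)) ∧
      TendstoLocallyUniformlyOn (Fr R) h (𝒰 : Filter ℕ) (ball 0 (R + 1)) := by
    intro R
    refine Pool.Agent.H17.montel_ultrafilter 𝒰 (B := 1) ?_ ?_
    · filter_upwards [hev R] with n hn
      exact (hFrK R n hn).1
    · filter_upwards [hev R] with n hn
      exact (hg R n hn).2.1
  choose Hs hHd hHc using hmont
  have hpt : ∀ (R : ℕ), ∀ z ∈ ball (0 : ℂ) (R + 1), Tendsto (fun n => Fr R n z) (𝒰 : Filter ℕ)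
      (𝓝 (Hs R z)) := fun R z hz => (hHc R).tendsto_at hz
  have hz0 : ∀ R : ℕ, (0 : ℂ) ∈ ball (0 : ℂ) (R + 1) := fun R => mem_ball_self (by positivity)
  have hHc0 : ∀ R, c R ≤ ‖Hs R 0‖ := by
    intro R
    have h1 := (hpt R 0 (hz0 R)).norm
    refine ge_of_tendsto h1 ?_
    filter_upwards [hev R] with n hn
    exact (hg R n hn).2.2
  have hHb : ∀ R : ℕ, ∀ z ∈ ball (0 : ℂ) (R + 1), ‖Hs R z‖ ≤ 1 := by
    intro R z hz
    refine le_of_tendsto (hpt R z hz).norm ?_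
    filter_upwards [hev R] with n hn
    exact (hg R n hn).2.1 z hz
  have hH0 : ∀ R, Hs R 0 ≠ 0 := by
    intro R h
    have h2 := hHc0 R
    rw [h, norm_zero] at h2
    exact absurd (hc R) (not_lt.2 h2)
  have hprop : ∀ (R S : ℕ) (z : ℂ), z ∈ ball (0 : ℂ) (R + 1) → z ∈ ball (0 : ℂ) (S + 1) →
      ∀ i j, Hs R z i * Hs S z j = Hs R z j * Hs S z i := by
    intro R S z hR hS i j
    have hco : ∀ (T : ℕ), z ∈ ball (0 : ℂ) (T + 1) → ∀ i, Tendsto (fun n => Fr T n z i)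
        (𝒰 : Filter ℕ) (𝓝 (Hs T z i)) := fun T hT i =>
      ((Lim_pr i).continuous.tendsto _).comp (hpt T z hT)
    have h1 : Tendsto (fun n => Fr R n z i * Fr S n z j) (𝒰 : Filter ℕ)
        (𝓝 (Hs R z i * Hs S z j)) := (hco R hR i).mul (hco S hS j)
    have h2 : Tendsto (fun n => Fr R n z j * Fr S n z i) (𝒰 : Filter ℕ)
        (𝓝 (Hs R z j * Hs S z i)) := (hco R hR j).mul (hco S hS i)
    refine tendsto_nhds_unique h1 (h2.congr fun n => ?_)
    simp only [hFr, PiLp.smul_apply, smul_eq_mul]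
    ring
  obtain ⟨H, hHdiff, hHne, hHloc⟩ := Lim_glue Hs hHd hH0 hprop
  -- membership is invariant under scaling
  have hsm : ∀ (x : EN N) (a : ℂ), a ≠ 0 → (a • x ∈ K ↔ x ∈ K) := by
    intro x a ha
    refine ⟨fun h => ?_, fun h => hM.smul x h a ha⟩
    have := hM.smul _ h a⁻¹ (inv_ne_zero ha)
    rwa [smul_smul, inv_mul_cancel₀ ha, one_smul] at this
  have hsmc : ∀ (x : EN N) (a : ℂ), a ≠ 0 → x ∈ closure K → a • x ∈ closure K := by
    intro x a ha hx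
    exact map_mem_closure (continuous_const_smul a) hx fun y hy => hM.smul y hy a ha
  have hHcl1 : ∀ (R : ℕ), ∀ z ∈ ball (0 : ℂ) (R + 1), Hs R z ∈ closure K := by
    intro R z hz
    refine mem_closure_of_tendsto (hpt R z hz) ?_
    filter_upwards [hev R] with n hn
    exact (hFrK R n hn).2 z hz
  have hmem : ∀ z : ℂ, z ∈ ball (0 : ℂ) ((⌈‖z‖⌉₊ : ℕ) + 1) := by
    intro z
    rw [mem_ball_zero_iff]
    have := Nat.le_ceil ‖z‖
    linarith
  have hHcl : ∀ z, H z ∈ closure K := by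
    intro z₀
    obtain ⟨k, u, hua, hu0, hue⟩ := hHloc _ z₀ (hmem z₀)
    have h1 : ∀ᶠ w in 𝓝[≠] z₀, H w ∈ closure K := by
      filter_upwards [hue.filter_mono nhdsWithin_le_nhds, self_mem_nhdsWithin,
        (hua.continuousAt.eventually_ne hu0).filter_mono nhdsWithin_le_nhds,
        nhdsWithin_le_nhds (isOpen_ball.mem_nhds (hmem z₀))] with w a1 a2 a3 a4
      have h2 := hHcl1 _ w a4
      rw [a1, smul_smul] at h2
      have h3 : (w - z₀) ^ k * u w ≠ 0 := mul_ne_zero (pow_ne_zero _ (sub_ne_zero.2 a2)) a3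
      have h4 := hsmc _ _ (inv_ne_zero h3) h2
      rwa [smul_smul, inv_mul_cancel₀ h3, one_smul] at h4
    have h2 : Tendsto H (𝓝[≠] z₀) (𝓝 (H z₀)) :=
      (hHdiff.continuous.tendsto z₀).mono_left nhdsWithin_le_nhds
    exact isClosed_closure.mem_of_tendsto h2 h1
  -- the set of points outside K is open
  have hopen : IsOpen {z : ℂ | H z ∉ K} := by
    rw [isOpen_iff_mem_nhds]
    intro z₀ hz₀
    obtain ⟨k, u, hua, hu0, hue⟩ := hHloc _ z₀ (hmem z₀)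
    have hball := isOpen_ball.mem_nhds (hmem z₀)
    obtain ⟨s, hs, hsub⟩ := Metric.eventually_nhds_iff_ball.1
      ((hue.and hua.eventually_analyticAt).and hball)
    have hd : DifferentiableOn ℂ (fun w => u w • H w) (ball z₀ s) := fun w hw =>
      (((hsub w hw).1.2.differentiableAt).smul (hHdiff w)).differentiableWithinAt
    have hconv : TendstoLocallyUniformlyOn (Fr ⌈‖z₀‖⌉₊) (fun z => (z - z₀) ^ k • (u z • H z))
        (𝒰 : Filter ℕ) (ball z₀ s) :=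
      ((hHc ⌈‖z₀‖⌉₊).mono fun w hw => (hsub w hw).2).congr_right fun w hw => (hsub w hw).1.1
    have hcur : ∀ᶠ n in (𝒰 : Filter ℕ), Curve K (ball z₀ s) (Fr ⌈‖z₀‖⌉₊ n) := by
      filter_upwards [hev ⌈‖z₀‖⌉₊] with n hn
      exact ⟨(hFrK _ n hn).1.mono fun w hw => (hsub w hw).2,
        fun w hw => (hFrK _ n hn).2 w (hsub w hw).2⟩
    have h1 := hM.hur (𝒰 : Filter ℕ) inferInstance (Fr ⌈‖z₀‖⌉₊) (fun w => u w • H w) k z₀ s hs hcur
      hd hconv (smul_ne_zero hu0 (hHne z₀)) (fun h => hz₀ ((hsm _ _ hu0).1 h))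
    filter_upwards [h1, hua.continuousAt.eventually_ne hu0] with w a1 a2
    exact fun h => a1 ((hsm _ _ a2).2 h)
  have hclosed : IsClosed {z : ℂ | H z ∉ K} := by
    rw [← isOpen_compl_iff, isOpen_iff_mem_nhds]
    intro z₀ hz₀
    have hz₀' : H z₀ ∈ K := not_not.1 hz₀
    have h1 := hHdiff.continuous.continuousAt.eventually (hM.rel_open _ hz₀')
    filter_upwards [h1] with w hw
    exact not_not.2 (hw (hHcl w))
  -- the first curve near the origin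
  obtain ⟨k, u, hua, hu0, hue⟩ := hHloc 0 0 (hz0 0)
  have hmt : ∀ n, 0 + 1 ≤ n → mt G (Fr 0 n) 0 = 1 := by
    intro n hn
    have hFn : DifferentiableAt ℂ (F n) 0 :=
      (hF n).1.differentiableAt (isOpen_ball.mem_nhds (hz0 n))
    have h1 := mt_smul hM hFn ((hg 0 n hn).1.cexp.differentiableAt (x := 0)) ((hF n).2 0 (hz0 n))
      (Complex.exp_ne_zero _)
    rw [hFr, h1, h0]
  have hball := isOpen_ball.mem_nhds (hz0 0)
  obtain ⟨s, hs, hsub⟩ := Metric.eventually_nhds_iff_ball.1 (hue.and hball)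
  have hcur0 : ∀ᶠ n in (𝒰 : Filter ℕ), Curve K (ball 0 s) (Fr 0 n) := by
    filter_upwards [hev 0] with n hn
    exact ⟨(hFrK _ n hn).1.mono fun w hw => (hsub w hw).2,
      fun w hw => (hFrK _ n hn).2 w (hsub w hw).2⟩
  have hconv0 : TendstoLocallyUniformlyOn (Fr 0) (Hs 0) (𝒰 : Filter ℕ) (ball 0 s) :=
    (hHc 0).mono fun w hw => (hsub w hw).2
  have hAK : ∀ z, H z ∈ K := by
    rcases isClopen_iff.1 ⟨hclosed, hopen⟩ with h | h
    · intro z
      by_contra hz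
      have : z ∈ {z : ℂ | H z ∉ K} := hz
      rw [h] at this
      exact this
    · exfalso
      have hout : ∀ z ∈ ball (0 : ℂ) s, Hs 0 z ∉ K := by
        intro z hz hzK
        have h1 := hM.ne _ hzK
        have h2 := (hsub z hz).1
        rw [smul_smul] at h2
        have h3 : (z - 0) ^ k * u z ≠ 0 := by
          intro h3
          rw [h3, zero_smul] at h2
          exact h1 h2
        rw [h2, hsm _ _ h3] at hzK
        have h4 : z ∈ {z : ℂ | H z ∉ K} := by rw [h]; trivial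
        exact h4 hzK
      have h1 := hM.lim (𝒰 : Filter ℕ) inferInstance (Fr 0) (Hs 0) 0 s hs hcur0 hconv0 (hH0 0)
        hout (1 / 2) (by norm_num)
      obtain ⟨n, h2, h3⟩ := (h1.and (hev 0)).exists
      rw [hmt n h3] at h2
      norm_num at h2
  refine ⟨H, hHdiff, hAK, ?_, fun R hR => ?_⟩
  swap
  · obtain ⟨S, rfl⟩ : ∃ S, R = S + 1 := ⟨R - 1, by omega⟩
    push_cast
    refine ⟨Hs S, hHd S, hHb S, hHc0 S, fun z hz => ?_⟩
    obtain ⟨k, u, hua, hu0, hue⟩ := hHloc S z hz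
    have h1 := hue.self_of_nhds
    rcases Nat.eq_zero_or_pos k with hk | hk
    · right
      subst hk
      rw [pow_zero, one_smul] at h1
      exact ⟨(u z)⁻¹, inv_ne_zero hu0, by rw [h1, smul_smul, inv_mul_cancel₀ hu0, one_smul]⟩
    · left
      rw [h1, sub_self, zero_pow hk.ne', zero_smul]
  have hκ0 : (0 - 0 : ℂ) ^ k * u 0 ≠ 0 := by
    intro h3
    have h2 := hue.self_of_nhds
    rw [smul_smul, h3, zero_smul] at h2
    exact hH0 0 h2
  have h0K : Hs 0 0 ∈ K := by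
    have h2 := hue.self_of_nhds
    rw [smul_smul] at h2
    rw [h2, hsm _ _ hκ0]
    exact hAK 0
  have h1 : 1 ≤ mt G (Hs 0) 0 := mt_limit hM hs hcur0 hconv0 h0K (by
    filter_upwards [hev 0] with n hn
    exact (hmt n hn).ge)
  have h2 : Hs 0 =ᶠ[𝓝 0] fun w => ((w - 0) ^ k * u w) • H w := by
    filter_upwards [hue] with w hw
    rw [hw, smul_smul]
  have h3 : mt G (Hs 0) 0 = mt G (fun w => ((w - 0) ^ k * u w) • H w) 0 := by
    unfold mt
    rw [h2.deriv_eq, h2.self_of_nhds]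
  have h4 := mt_smul hM (F := H) (k := fun w => (w - 0) ^ k * u w) (z := 0) (hHdiff 0)
    (by
      have : DifferentiableAt ℂ u 0 := hua.differentiableAt
      fun_prop) (hAK 0) hκ0
  rw [h3, h4] at h1
  exact h1

end Pool.Agent.H36.BP

end

section

/-!
# BP Brody: the Brody step

Otherwise `rescale`, `char_bound` (with `R ≤ n`: `Curve K (ball 0 (R+1))`), `limit_curve` give an entire curve `H` with `mt G H 0 ≥ 1`.  If `H` is not constant in projective space then it lies in `B`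
(`BrodyMod`) and `mt G H 0 = 0` (`zero`).  If it is constant, `H w = c(w) H 0` for all `w`, then `H' 0` is a multiple of `H 0` (`H' 0 = lim (H w - H 0)/w`, closed line) and `mt G H 0 = 0` (`mt_const`).
-/

set_option autoImplicit false

namespace Pool.Agent.H36.BP

open Filter Topology Metric

variable {N : ℕ}

variable {K B : Set (EN N)} {G : EN N → EN N → ℝ} {ρ : EN N → ℝ} {M : ℕ} {c₀ C : ℝ}

/-- the derivative of a curve on a line is on the line -/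
theorem Brody_deriv_line {H : ℂ → EN N} {z₀ : ℂ} (hH : DifferentiableAt ℂ H z₀) (h : ∀ z, ∃ c : ℂ, H z = c • H z₀) :
    ∃ a : ℂ, deriv H z₀ = a • H z₀ := by
  have hcl : IsClosed ((ℂ ∙ H z₀ : Submodule ℂ (EN N)) : Set (EN N)) := Submodule.closed_of_finiteDimensional _
  have hmem : deriv H z₀ ∈ (ℂ ∙ H z₀ : Submodule ℂ (EN N)) := by
    have ht := (hasDerivAt_iff_tendsto_slope.mp hH.hasDerivAt)
    refine hcl.mem_of_tendsto ht (Filter.Eventually.of_forall fun z => ?_)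
    obtain ⟨c, hc⟩ := h z
    rw [slope_def_module]
    refine Submodule.smul_mem _ _ (Submodule.sub_mem _ ?_ (Submodule.mem_span_singleton_self _))
    rw [hc]
    exact Submodule.smul_mem _ _ (Submodule.mem_span_singleton_self _)
  obtain ⟨a, ha⟩ := Submodule.mem_span_singleton.mp hmem
  exact ⟨a, ha.symm⟩

/-- the Brody step: only entire curves of order at most two are needed -/
theorem brody_bound2 (hM : MetricData K B G ρ M c₀ C) (hB : BrodyMod2 K B) :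
    ∃ L : ℝ, 0 < L ∧ ∀ F, Curve K (ball 0 1) F → mt G F 0 ≤ L := by
  by_contra hcon
  have hunb : ∀ L : ℝ, ∃ F, Curve K (ball 0 1) F ∧ L < mt G F 0 := by
    intro L
    by_contra h
    push Not at h
    apply hcon
    refine ⟨max L 1, lt_of_lt_of_le one_pos (le_max_right _ _), fun F hF => ?_⟩
    exact (h F hF).trans (le_max_left _ _)
  choose F hF1 hF2 hF3 using fun n => rescale hM hunb n
  obtain ⟨C₁, hC₁, hch⟩ := char_bound2 hM
  obtain ⟨H, hH, hHK, hH0, hHR⟩ := limit_curve2 hM F hF1 hF2 (fun R => Real.exp (-(C₁ * (1 + (R : ℝ) ^ 2)))) (fun R _ => Real.exp_pos _) (by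
    intro R hR n hn
    have hR0 : (0 : ℝ) < R := by exact_mod_cast hR
    have hle : (R : ℝ) + 1 ≤ n + 1 := by
      have : (R : ℝ) ≤ n := by exact_mod_cast hn
      linarith
    have hsub : ball (0 : ℂ) (R + 1) ⊆ ball (0 : ℂ) (n + 1) := ball_subset_ball hle
    exact hch R hR0 (F n) ⟨(hF1 n).1.mono hsub, fun z hz => (hF1 n).2 z (hsub hz)⟩ (hF2 n) (fun z hz => hF3 n z (hsub hz)))
  -- the growth of the limit curve
  have hord : OrdTwo H := by
    refine ⟨5 * C₁, fun r hr => ?_⟩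
    set R : ℕ := ⌈r⌉₊ with hR
    have h1 : 1 ≤ R := Nat.one_le_iff_ne_zero.mpr (by rw [hR]; exact (Nat.ceil_pos.mpr hr).ne')
    have h2 : r ≤ R := Nat.le_ceil r
    have h3 : (R : ℝ) < r + 1 := Nat.ceil_lt_add_one hr.le
    obtain ⟨HR, h4, h5, h6, h7⟩ := hHR R h1
    have hsub : ball (0 : ℂ) r ⊆ ball (0 : ℂ) R := ball_subset_ball h2
    refine ⟨HR, h4.mono hsub, fun z hz => h5 z (hsub hz), le_trans (Real.exp_le_exp.mpr ?_) h6, fun z hz => h7 z (hsub hz)⟩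
    have h8 : (1 + (R : ℝ) ^ 2) ≤ 5 * (1 + r ^ 2) := by nlinarith [sq_nonneg (r - 1)]
    have h9 := mul_le_mul_of_nonneg_left h8 hC₁
    linarith
  have hzero : mt G H 0 = 0 := by
    by_cases hc : ∃ z w, ∀ c : ℂ, H z ≠ c • H w
    · exact hM.zero H 0 (hH.analyticAt 0) (Filter.Eventually.of_forall fun z => ⟨hHK z, hB H hH hHK hc hord z⟩)
    · push Not at hc
      obtain ⟨a, ha⟩ := Brody_deriv_line (hH 0) (fun z => hc z 0)
      exact mt_const hM (hHK 0) ha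
  linarith

theorem brody_bound (hM : MetricData K B G ρ M c₀ C) (hB : BrodyMod K B) :
    ∃ L : ℝ, 0 < L ∧ ∀ F, Curve K (ball 0 1) F → mt G F 0 ≤ L :=
  brody_bound2 hM fun F h1 h2 h3 _ => hB F h1 h2 h3

end Pool.Agent.H36.BP

end

section

/-!
# Evaluation along one-parameter groups
-/

open MvPolynomial Topology Filter
open Pool.Agent.H17 (PN VanishesAt ZariskiClosedIn vanishesAt_mk_iff)

noncomputable section

namespace Pool.Agent.H62.FC

variable {N : ℕ} {κ : Type} {A : κ → MvPolynomial (Fin (N + 1)) ℂ} {e : κ → ℕ}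
  {O : Finset (Fin (N + 1))} {P : Ideal (MvPolynomial (Fin (N + 1)) ℂ)}

/-- The condition on the coordinates does not depend on the representative. -/
lemma rep_ne_zero_iff (a : Fin (N + 1) → ℂ) (ha : a ≠ 0) (i : Fin (N + 1)) :
    (Projectivization.mk ℂ a ha).rep i ≠ 0 ↔ a i ≠ 0 := by
  obtain ⟨c, hc, h⟩ := Pool.Agent.H17.exists_smul_rep a ha
  rw [h, Pi.smul_apply, smul_eq_mul]
  constructor
  · intro h1 h2
    exact h1 (by rw [h2, mul_zero])
  · intro h1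
    exact mul_ne_zero hc h1

lemma mk_mem_primeLocus (a : Fin (N + 1) → ℂ) (ha : a ≠ 0) :
    Projectivization.mk ℂ a ha ∈ primeLocus P O ↔
      (∀ Q ∈ P, ∀ n, Q.IsHomogeneous n → eval a Q = 0) ∧ ∀ i ∈ O, a i ≠ 0 := by
  constructor
  · rintro ⟨h1, h2⟩
    exact ⟨fun Q hQ n hn => (vanishesAt_mk_iff hn a ha).mp (h1 Q hQ n hn),
      fun i hi => (rep_ne_zero_iff a ha i).mp (h2 i hi)⟩
  · rintro ⟨h1, h2⟩
    exact ⟨fun Q hQ n hn => (vanishesAt_mk_iff hn a ha).mpr (h1 Q hQ n hn),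
      fun i hi => (rep_ne_zero_iff a ha i).mpr (h2 i hi)⟩

end Pool.Agent.H62.FC

end
end

section

/-!
# The Nullstellensatz for loci with nonzero coordinates and the exceptional set
-/

noncomputable section

namespace Pool.Agent.H62.FC

open MvPolynomial Topology Filter
open Pool.Agent.H17 (PN VanishesAt ZariskiClosedIn HolomorphicInto puncturedDisc PseudoBrodyHyperbolic PseudoPicardHyperbolic vanishesAt_mk_iff)
open Pool.Agent.H17GT (coordFun)
open Pool.Agent.H17LG.Variety (FunField ratio IsLogGeneralType)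
open Pool.Agent.H23.Fano (PrimeDivisorOver)

variable {N : ℕ} {κ : Type} {A : κ → MvPolynomial (Fin (N + 1)) ℂ} {e : κ → ℕ}
  {O : Finset (Fin (N + 1))} {P : Ideal (MvPolynomial (Fin (N + 1)) ℂ)}

/-! D-V -/
theorem mem_of_vanishes [P.IsPrime] (hP : Homog P) {S : Finset (Fin (N + 1))}
    (hS : ∀ i ∈ S, X i ∉ P) (hne : ∃ i, X i ∉ P) {m : ℕ} {F : MvPolynomial (Fin (N + 1)) ℂ}
    (hF : F.IsHomogeneous m) (h : ∀ x ∈ primeLocus P S, VanishesAt F x) : F ∈ P := by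
  obtain ⟨i1, hi1⟩ := hne
  have hG : F * (∏ i ∈ S, X i) * X i1 ∈ P := by
    rw [← MvPolynomial.IsPrime.vanishingIdeal_zeroLocus (K := ℂ) P,
      MvPolynomial.mem_vanishingIdeal_iff]
    intro v hv
    rw [MvPolynomial.aeval_eq_eval]
    have hv' : ∀ Q ∈ P, eval v Q = 0 := fun Q hQ => by
      have h1 := hv Q hQ
      rwa [MvPolynomial.aeval_eq_eval] at h1
    change eval v (F * (∏ i ∈ S, X i) * X i1) = 0
    rw [map_mul, map_mul, map_prod]
    simp only [eval_X]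
    by_cases hv0 : v = 0
    · rw [hv0]
      simp
    · by_cases hz : ∃ i ∈ S, v i = 0
      · obtain ⟨i, hi, hvi⟩ := hz
        rw [Finset.prod_eq_zero hi hvi]
        simp
      · push Not at hz
        have h1 : Projectivization.mk ℂ v hv0 ∈ primeLocus P S :=
          (mk_mem_primeLocus v hv0).2 ⟨fun Q hQ _ _ => hv' Q hQ, hz⟩
        have h2 := h _ h1
        rw [vanishesAt_mk_iff hF v hv0] at h2
        rw [h2]
        simp
  have hpr : P.IsPrime := inferInstance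
  rcases hpr.mem_or_mem hG with h1 | h1
  · rcases hpr.mem_or_mem h1 with h2 | h2
    · exact h2
    · exfalso
      obtain ⟨i, hi, h3⟩ := (hpr.prod_mem_iff).1 h2
      exact hS i hi h3
  · exact absurd h1 hi1

/-! D-A -/

end Pool.Agent.H62.FC

end
end

section

/-!
# Bir Open: the four properties for Zariski open subsets of projective varieties

`open_four`: if the closed subvariety `X` of `ℙ^N` has the properties of the conjecture with the exceptional set `Ξ`, then every nonempty Zariski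
open subset `U` of `X` has them with the exceptional set `Ξ ∩ U`.  `bir_open_four`: if `X` has the properties, then every quasi-projective variety
which is birational to `X` has them.
-/

set_option autoImplicit false

open Topology Filter MvPolynomial

noncomputable section

namespace Pool.Agent.H7.Bir

open Pool.Agent.H17 (PN VanishesAt HolomorphicInto puncturedDisc vanishesAt_mk_iff ZariskiClosedIn)
open Pool.Agent.H17GT (coordFun)
open Pool.Agent.H17LG.Variety (FunField IsLogGeneralType)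
open Pool.Agent.H62.FC (Homog)
open Pool.Agent.H62.SA (locVar OnBd)

variable {N M : ℕ}

/-- The properties of the conjecture for the quasi-projective variety `U = locVar P G`, with the exceptional set `Ξ`. -/
structure GGLOpen (P : Ideal (MvPolynomial (Fin (N + 1)) ℂ)) [P.IsPrime] {s : ℕ} (G : Fin s → MvPolynomial (Fin (N + 1)) ℂ)
    (Ξ : Set (PN N)) : Prop where
  closed : ZariskiClosedIn (locVar P G) Ξ
  proper : Ξ ≠ locVar P G
  logGeneralType : ∀ w, 1 ≤ w → (∃ z : Fin w → FunField P, IsTranscendenceBasis ℂ z) → IsLogGeneralType (OnBd P G (k := w))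
  picard : ∀ f : ℂ → PN N, HolomorphicInto f puncturedDisc → (∀ z ∈ puncturedDisc, f z ∈ locVar P G) →
    (∃ z ∈ puncturedDisc, f z ∉ Ξ) →
    ∃ g : ℂ → PN N, HolomorphicInto g (Metric.ball 0 1) ∧ ∀ z ∈ puncturedDisc, g z = f z
  brody : ∀ f : ℂ → PN N, HolomorphicInto f Set.univ → (∀ z, f z ∈ locVar P G) → (∃ z w, f z ≠ f w) → ∀ z, f z ∈ Ξ
  strongly : ∀ (Q : Ideal (MvPolynomial (Fin (N + 1)) ℂ)) [Q.IsPrime], Homog Q → P ≤ Q → ¬ locVar Q G ⊆ Ξ →
    ∀ w, 1 ≤ w → (∃ z : Fin w → FunField Q, IsTranscendenceBasis ℂ z) → IsLogGeneralType (OnBd Q G (k := w))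

/-- A form which vanishes on a nonempty Zariski open subset belongs to the ideal. -/
theorem mem_of_open {P : Ideal (MvPolynomial (Fin (N + 1)) ℂ)} [P.IsPrime] (hP : Homog P) {s : ℕ}
    {G : Fin s → MvPolynomial (Fin (N + 1)) ℂ} (hG : ∀ m, ∃ n, (G m).IsHomogeneous n) (hne : (locVar P G).Nonempty)
    {R : MvPolynomial (Fin (N + 1)) ℂ} {n : ℕ} (hR : R.IsHomogeneous n) (h : ∀ x ∈ locVar P G, VanishesAt R x) : R ∈ P := by
  obtain ⟨x, hx, m, hm⟩ := hne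
  obtain ⟨d, hd⟩ := hG m
  have hGm : G m ∉ P := fun h1 => hm (hx _ h1 d hd)
  have hX : ∃ i, X i ∉ P := by
    by_contra hcon
    push Not at hcon
    have h1 : ∀ i, x.rep i = 0 := by
      intro i
      have h2 := hx _ (hcon i) 1 (isHomogeneous_X ℂ i)
      unfold VanishesAt at h2
      rwa [eval_X] at h2
    exact x.rep_nonzero (funext h1)
  have h1 : R * G m ∈ P := by
    refine Pool.Agent.H62.FC.mem_of_vanishes hP (S := ∅) (fun i hi => absurd hi (Finset.notMem_empty i)) hX (hR.mul hd) ?_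
    intro y hy
    unfold VanishesAt
    rw [map_mul]
    by_cases h2 : VanishesAt (G m) y
    · rw [show eval y.rep (G m) = 0 from h2, mul_zero]
    · rw [show eval y.rep R = 0 from h y ⟨hy.1, m, h2⟩, zero_mul]
  exact ((inferInstance : P.IsPrime).mem_or_mem h1).resolve_right hGm

end Pool.Agent.H7.Bir

end
end

section

/-!
# V MainV: entire curves in surfaces of general type, in the projective space
-/

set_option autoImplicit false

open Topology Filter MvPolynomial Metric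

noncomputable section

namespace Pool.Agent.H14.V

open Pool.Agent.H17 (PN VanishesAt HolomorphicInto ZariskiClosedIn puncturedDisc)
open Pool.Agent.H62.FC (Homog)
open Pool.Agent.H17BP (Surface IsForm)
open Pool.Agent.H17LG.Variety (FunField IsLogGeneralType)
open Pool.Agent.H13.SM (cone)
open Pool.Agent.H36.BP (EN fs wd formT isCone_transport tan_transport)
open Pool.Agent.H14.PP (IsCone Chart Form)
open Pool.Agent.H17EF (projVar coneE LE mk_mem_projVar)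
open Pool.Agent.H92.TH (SymDiff)

variable {N : ℕ}

/-- `F` is an entire map to `ℂ^(N+1)` without zeros which represents `f`. -/
def IsLift (F : ℂ → EuclideanSpace ℂ (Fin (N + 1))) (f : ℂ → PN N) : Prop :=
  Differentiable ℂ F ∧ ∀ z, ∃ h : (F z).ofLp ≠ 0, f z = Projectivization.mk ℂ (F z).ofLp h

/-- The entire curve `f` is tangent to the symmetric differential `θ`. -/
def TangentTo {X : Set (EN N)} {m : ℕ} (θ : SymDiff X m) (f : ℂ → PN N) : Prop :=
  ∃ F, IsLift F f ∧ ∀ z, θ.toFun (F z) (deriv F z) = 0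

theorem IsLift.holomorphicInto {F : ℂ → EN N} {f : ℂ → PN N} (h : IsLift F f) : HolomorphicInto f Set.univ := by
  intro z _
  refine ⟨fun z => (LE N).symm (F z), (((LE N).symm : EN N →L[ℂ] (Fin (N + 1) → ℂ)).analyticAt _).comp (h.1.analyticAt z), ?_⟩
  exact Eventually.of_forall fun w => h.2 w

theorem IsLift.ne_zero {F : ℂ → EN N} {f : ℂ → PN N} (h : IsLift F f) (z : ℂ) : F z ≠ 0 := by
  obtain ⟨h1, -⟩ := h.2 z
  exact fun h2 => h1 (by rw [h2]; rfl)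

theorem isLift_mk {F : ℂ → EN N} (hF : Differentiable ℂ F) (h0 : ∀ z, (F z).ofLp ≠ 0) :
    IsLift F fun z => Projectivization.mk ℂ (F z).ofLp (h0 z) :=
  ⟨hF, fun z => ⟨h0 z, rfl⟩⟩

variable {P : Ideal (MvPolynomial (Fin (N + 1)) ℂ)} 

theorem IsLift.mem_iff (hP : Homog P) {F : ℂ → EN N} {f : ℂ → PN N} (h : IsLift F f) (z : ℂ) :
    f z ∈ projVar P ↔ F z ∈ coneE P := by
  obtain ⟨h1, h2⟩ := h.2 z
  rw [h2, mk_mem_projVar hP h1]
  rfl

end Pool.Agent.H14.V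

end
end

section

/-!
# AD T Defs: symmetric differentials and holomorphic maps to complex tori, in any dimension
-/

set_option autoImplicit false

open Topology Filter

namespace Pool.Agent.AD

open Pool.Agent.H36.BP (EN)
open Pool.Agent.H14.PP (Tan)
open Pool.Agent.H17 (PN)
open Pool.Agent.H14.V (IsLift)

variable {N : ℕ}

/-- A symmetric differential of degree `m` on the projective manifold whose cone is `X`: a function on the tangent bundle (in the language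
of the cone), homogeneous of degree `m` on the tangent spaces, which is holomorphic on the tangent bundle of `ℂ^k` for every holomorphic
map from an open subset of `ℂ^k` to the manifold, for all `k`. -/
structure SymDiff (X : Set (EN N)) (m : ℕ) where
  /-- the differential -/
  toFun : EN N → EN N → ℂ
  add_smul : ∀ x v, Tan X x v → ∀ a : ℂ, toFun x (v + a • x) = toFun x v
  smul : ∀ x v, Tan X x v → ∀ a : ℂ, toFun x (a • v) = a ^ m * toFun x v
  scale : ∀ x v, Tan X x v → ∀ c : ℂ, c ≠ 0 → toFun (c • x) (c • v) = toFun x v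
  analytic : ∀ (k : ℕ) (φ : (Fin k → ℂ) → EN N) (p w : Fin k → ℂ), AnalyticAt ℂ φ p → (∀ᶠ y in 𝓝 p, φ y ∈ X) →
    AnalyticAt ℂ (fun y : (Fin k → ℂ) × (Fin k → ℂ) => toFun (φ y.1) (fderiv ℂ φ y.1 y.2)) (p, w)

/-- The entire curve `f` is tangent to the symmetric differential `θ`. -/
def TangentTo {X : Set (EN N)} {m : ℕ} (θ : SymDiff X m) (f : ℂ → PN N) : Prop :=
  ∃ F, IsLift F f ∧ ∀ z, θ.toFun (F z) (deriv F z) = 0

end Pool.Agent.AD

end

section

/-!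
# MQ2 RegE: the field at regular points

`g` is a reduced equation of a curve which is invariant under `v`: `dg (v) = c g`.  Along a curve `p' = ζ' v (p)` this is `(g ∘ p)' = ζ' c g (p)`; so `g (p z) ≠ 0`
where `v (p z) ≠ 0`, if `g ∘ p` is not `0`, and `DD = (div v - c) ζ'`.
-/

set_option autoImplicit false

open Topology Filter Metric MeasureTheory Asymptotics Laplacian

noncomputable section

namespace Pool.Agent.MQ2

open Pool.Agent.MQ

namespace RegE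

/-- `y' = h y` and `y z = 0` give `y = 0` near `z` -/
theorem eventually_zero_of_ode {y h : ℂ → ℂ} {z : ℂ} (hy : AnalyticAt ℂ y z) (hh : AnalyticAt ℂ h z)
    (hd : ∀ᶠ w in 𝓝 z, deriv y w = h w * y w) (h0 : y z = 0) : ∀ᶠ w in 𝓝 z, y w = 0 := by
  have h1 := hy.analyticOrderAt_deriv_add_one
  have h2 : (fun w => y w - y z) = y := by
    funext w
    rw [h0, sub_zero]
  rw [h2, analyticOrderAt_congr (f := deriv y) (g := fun w => h w * y w) hd] at h1
  have h3 : analyticOrderAt (fun w => h w * y w) z = analyticOrderAt h z + analyticOrderAt y z := analyticOrderAt_mul hh hy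
  rw [h3] at h1
  rw [← analyticOrderAt_eq_top]
  by_contra h4
  obtain ⟨n, hn⟩ := ENat.ne_top_iff_exists.1 h4
  rw [← hn] at h1
  have h5 : ((n : ℕ∞)) + 1 ≤ n := by
    calc ((n : ℕ∞)) + 1 ≤ analyticOrderAt h z + n + 1 := by gcongr; exact le_add_self
      _ = n := h1
  have h6 : ((n + 1 : ℕ) : ℕ∞) ≤ (n : ℕ) := by exact_mod_cast h5
  have h7 : n + 1 ≤ n := by exact_mod_cast h6
  omega

/-- what holds on a small closed polydisc -/
structure Reg (v : ℂ × ℂ → ℂ × ℂ) (g c : ℂ × ℂ → ℂ) (r : ℝ) : Prop where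
  van : ∀ q ∈ closedBall (0 : ℂ × ℂ) r, AnalyticAt ℂ v q
  gan : ∀ q ∈ closedBall (0 : ℂ × ℂ) r, AnalyticAt ℂ g q
  can : ∀ q ∈ closedBall (0 : ℂ × ℂ) r, AnalyticAt ℂ c q
  iso : ∀ q ∈ closedBall (0 : ℂ × ℂ) r, q ≠ 0 → v q ≠ 0
  cof : ∀ q ∈ closedBall (0 : ℂ × ℂ) r, fderiv ℂ g q (v q) = c q * g q

theorem exists_reg {v : ℂ × ℂ → ℂ × ℂ} {g : ℂ × ℂ → ℂ} (hv : AnalyticAt ℂ v 0) (hiso : ∀ᶠ p in 𝓝 (0 : ℂ × ℂ), p ≠ 0 → v p ≠ 0) (hg : Wt v g) :
    ∃ c : ℂ × ℂ → ℂ, ∀ᶠ r in 𝓝[>] (0 : ℝ), Reg v g c r := by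
  obtain ⟨c, hc, hcof⟩ := hg.cof
  refine ⟨c, ?_⟩
  have h1 : ∀ᶠ q in 𝓝 (0 : ℂ × ℂ), AnalyticAt ℂ v q ∧ AnalyticAt ℂ g q ∧ AnalyticAt ℂ c q ∧ (q ≠ 0 → v q ≠ 0) ∧ fderiv ℂ g q (v q) = c q * g q := by
    filter_upwards [hv.eventually_analyticAt, hg.an.eventually_analyticAt, hc.eventually_analyticAt, hiso, hcof] with q a1 a2 a3 a4 a5
    exact ⟨a1, a2, a3, a4, a5⟩
  obtain ⟨ε, hε, hε'⟩ := Metric.eventually_nhds_iff_ball.1 h1
  filter_upwards [Ioo_mem_nhdsGT hε] with r hr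
  have h2 : ∀ q ∈ closedBall (0 : ℂ × ℂ) r, q ∈ ball (0 : ℂ × ℂ) ε := fun q hq => closedBall_subset_ball hr.2 hq
  exact ⟨fun q hq => (hε' q (h2 q hq)).1, fun q hq => (hε' q (h2 q hq)).2.1, fun q hq => (hε' q (h2 q hq)).2.2.1,
    fun q hq => (hε' q (h2 q hq)).2.2.2.1, fun q hq => (hε' q (h2 q hq)).2.2.2.2⟩

variable {v : ℂ × ℂ → ℂ × ℂ} {g c : ℂ × ℂ → ℂ} {r : ℝ} {Om : Set ℂ} {p : ℂ → ℂ × ℂ}

/-- `p' = ζ' v (p)` -/
theorem deriv_eq (hp : Crv1 v r Om p) {z : ℂ} (hz : z ∈ Om) (hv : v (p z) ≠ 0) : deriv p z = ztv v p z • v (p z) :=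
  Prod.ext (by rw [Prod.smul_fst, smul_eq_mul]; exact hp.deriv_fst hz hv) (by rw [Prod.smul_snd, smul_eq_mul]; exact hp.deriv_snd hz hv)

theorem ev_v_ne (h : Reg v g c r) (hp : Crv1 v r Om p) {z : ℂ} (hz : z ∈ Om) (hv : v (p z) ≠ 0) : ∀ᶠ w in 𝓝 z, w ∈ Om ∧ v (p w) ≠ 0 := by
  have h1 : ContinuousAt (fun w => v (p w)) z :=
    ContinuousAt.comp (f := p) (g := v) (h.van _ (ball_subset_closedBall (hp.mem z hz))).continuousAt (hp.an z hz).continuousAt
  exact (hp.isOpen.eventually_mem hz).and (h1.eventually_ne hv)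

theorem deriv_g (h : Reg v g c r) (hp : Crv1 v r Om p) {z : ℂ} (hz : z ∈ Om) (hv : v (p z) ≠ 0) :
    deriv (fun w => g (p w)) z = ztv v p z * c (p z) * g (p z) := by
  have hb := ball_subset_closedBall (hp.mem z hz)
  have h1 : HasDerivAt (fun w => g (p w)) (fderiv ℂ g (p z) (deriv p z)) z :=
    (h.gan _ hb).differentiableAt.hasFDerivAt.comp_hasDerivAt z (hp.an z hz).differentiableAt.hasDerivAt
  rw [h1.deriv, deriv_eq hp hz hv, map_smul, h.cof _ hb, smul_eq_mul, mul_assoc]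

theorem g_ne (h : Reg v g c r) (hp : Crv1 v r Om p) (hf : ∀ z ∈ Om, ∃ᶠ w in 𝓝 z, g (p w) ≠ 0) {z : ℂ} (hz : z ∈ Om) (hv : v (p z) ≠ 0) :
    g (p z) ≠ 0 := by
  intro h0
  have hb := ball_subset_closedBall (hp.mem z hz)
  have hga : AnalyticAt ℂ (fun w => g (p w)) z := (h.gan _ hb).comp (hp.an z hz)
  have hca : AnalyticAt ℂ (fun w => c (p w)) z := (h.can _ hb).comp (hp.an z hz)
  have hzt := hp.an_ztv hz (h.van _ hb) hv
  have h1 : ∀ᶠ w in 𝓝 z, g (p w) = 0 := by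
    refine eventually_zero_of_ode hga (hzt.mul hca) ?_ h0
    filter_upwards [ev_v_ne h hp hz hv] with w hw
    exact deriv_g h hp hw.1 hw.2
  obtain ⟨w, hw1, hw2⟩ := ((hf z hz).and_eventually h1).exists
  exact hw1 hw2

end RegE

end Pool.Agent.MQ2

end
end

section

/-!
# MQ2 RegE: the field at regular points

`g` is a reduced equation of a curve which is invariant under `v`: `dg (v) = c g`.  Along a curve `p' = ζ' v (p)` this is `(g ∘ p)' = ζ' c g (p)`; so `g (p z) ≠ 0`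
where `v (p z) ≠ 0`, if `g ∘ p` is not `0`, and `DD = (div v - c) ζ'`.
-/

set_option autoImplicit false

open Topology Filter Metric MeasureTheory Asymptotics Laplacian

noncomputable section

namespace Pool.Agent.MQ2

open Pool.Agent.H36.BP (EN)
open Pool.Agent.H30M (tau LogSing)
open Pool.Agent.MQ

namespace RegE

variable {v : ℂ × ℂ → ℂ × ℂ} {g c : ℂ × ℂ → ℂ} {r : ℝ} {Om : Set ℂ} {p : ℂ → ℂ × ℂ}

theorem DD_eq (h : Reg v g c r) (hp : Crv1 v r Om p) (hf : ∀ z ∈ Om, ∃ᶠ w in 𝓝 z, g (p w) ≠ 0) {z : ℂ} (hz : z ∈ Om) (hv : v (p z) ≠ 0) :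
    DDv v g p z = (dvg v (p z) - c (p z)) * ztv v p z := by
  rw [DDv, deriv_g h hp hz hv, mul_div_assoc, div_self (g_ne h hp hf hz hv)]
  ring

theorem dvg_an (h : Reg v g c r) {q : ℂ × ℂ} (hq : q ∈ closedBall (0 : ℂ × ℂ) r) : AnalyticAt ℂ (fun q => dvg v q - c q) q := by
  have h1 : AnalyticAt ℂ (fderiv ℂ v) q := (h.van q hq).fderiv
  have h2 : AnalyticAt ℂ (fun q => (fderiv ℂ v q (1, 0)).1) q := analyticAt_fst.comp (((ContinuousLinearMap.apply ℂ (ℂ × ℂ) ((1, 0) : ℂ × ℂ)).analyticAt _).comp h1)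
  have h3 : AnalyticAt ℂ (fun q => (fderiv ℂ v q (0, 1)).2) q := analyticAt_snd.comp (((ContinuousLinearMap.apply ℂ (ℂ × ℂ) ((0, 1) : ℂ × ℂ)).analyticAt _).comp h1)
  exact (h2.add h3).sub (h.can q hq)

end RegE

open RegE in
/-- the field in the form `(div v - c) ζ'`, analytic where `v ≠ 0` -/
theorem DD_cof {v : ℂ × ℂ → ℂ × ℂ} {g : ℂ × ℂ → ℂ} (hv : AnalyticAt ℂ v 0) (hiso : ∀ᶠ p in 𝓝 (0 : ℂ × ℂ), p ≠ 0 → v p ≠ 0) (hg : Wt v g) :
    ∀ᶠ r in 𝓝[>] (0 : ℝ), ∃ h : ℂ × ℂ → ℂ, AnalyticOnNhd ℂ h (closedBall 0 r) ∧ ∀ (Om : Set ℂ) (p : ℂ → ℂ × ℂ), Crv1 v r Om p →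
      (∀ z ∈ Om, ∃ᶠ w in 𝓝 z, g (p w) ≠ 0) → ∀ z ∈ Om, v (p z) ≠ 0 → g (p z) ≠ 0 ∧ AnalyticAt ℂ (ztv v p) z ∧
        ∀ᶠ w in 𝓝 z, DDv v g p w = h (p w) * ztv v p w := by
  obtain ⟨c, hc⟩ := exists_reg hv hiso hg
  filter_upwards [hc] with r h
  refine ⟨fun q => dvg v q - c q, fun q hq => dvg_an h hq, fun Om p hp hf z hz hvz => ⟨g_ne h hp hf hz hvz,
    hp.an_ztv hz (h.van _ (ball_subset_closedBall (hp.mem z hz))) hvz, ?_⟩⟩
  filter_upwards [ev_v_ne h hp hz hvz] with w hw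
  exact DD_eq h hp hf hw.1 hw.2

open RegE in
/-- off the center everything is bounded -/
theorem DD_bound {v : ℂ × ℂ → ℂ × ℂ} {g : ℂ × ℂ → ℂ} (hv : AnalyticAt ℂ v 0) (hiso : ∀ᶠ p in 𝓝 (0 : ℂ × ℂ), p ≠ 0 → v p ≠ 0) (hg : Wt v g) :
    ∀ᶠ r in 𝓝[>] (0 : ℝ), ∀ s, 0 < s ∨ v 0 ≠ 0 → ∃ C : ℝ, 0 < C ∧ ∀ (Om : Set ℂ) (p : ℂ → ℂ × ℂ), Crv1 v r Om p →
      (∀ z ∈ Om, ∃ᶠ w in 𝓝 z, g (p w) ≠ 0) → ∀ z ∈ Om, p z ∉ ball (0 : ℂ × ℂ) s → ‖ztv v p z‖ ≤ C * ‖deriv p z‖ ∧ ‖DDv v g p z‖ ≤ C * ‖deriv p z‖ := by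
  obtain ⟨c, hc⟩ := exists_reg hv hiso hg
  filter_upwards [hc] with r h s hs
  have hcp : IsCompact (closedBall (0 : ℂ × ℂ) r ∩ (ball (0 : ℂ × ℂ) s)ᶜ) := (isCompact_closedBall _ _).inter_right isOpen_ball.isClosed_compl
  have hv0 : ∀ q ∈ closedBall (0 : ℂ × ℂ) r ∩ (ball (0 : ℂ × ℂ) s)ᶜ, v q ≠ 0 := by
    intro q hq
    by_cases hq0 : q = 0
    · rcases hs with hs | hs
      · rw [hq0] at hq
        exact absurd (mem_ball_self hs) hq.2
      · rw [hq0]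
        exact hs
    · exact h.iso q hq.1 hq0
  obtain ⟨C₁, hC₁⟩ : ∃ C₁ : ℝ, ∀ q ∈ closedBall (0 : ℂ × ℂ) r ∩ (ball (0 : ℂ × ℂ) s)ᶜ, ‖dvg v q - c q‖ ≤ C₁ :=
    hcp.exists_bound_of_continuousOn fun q hq => (dvg_an h hq.1).continuousAt.continuousWithinAt
  obtain ⟨m, hm0, hm⟩ : ∃ m : ℝ, 0 < m ∧ ∀ q ∈ closedBall (0 : ℂ × ℂ) r ∩ (ball (0 : ℂ × ℂ) s)ᶜ, m ≤ ‖v q‖ := by
    rcases (closedBall (0 : ℂ × ℂ) r ∩ (ball (0 : ℂ × ℂ) s)ᶜ).eq_empty_or_nonempty with he | hne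
    · refine ⟨1, one_pos, fun q hq => ?_⟩
      rw [he] at hq
      exact hq.elim
    · obtain ⟨q, hq, hmin⟩ := hcp.exists_isMinOn hne (f := fun q => ‖v q‖) (fun q hq => (h.van q hq.1).continuousAt.norm.continuousWithinAt)
      exact ⟨‖v q‖, norm_pos_iff.2 (hv0 q hq), fun q hq => hmin hq⟩
  refine ⟨(|C₁| + 1) / m, by positivity, fun Om p hp hf z hz hpz => ?_⟩
  have hS : p z ∈ closedBall (0 : ℂ × ℂ) r ∩ (ball (0 : ℂ × ℂ) s)ᶜ := ⟨ball_subset_closedBall (hp.mem z hz), hpz⟩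
  have h1 : ‖ztv v p z‖ ≤ ‖deriv p z‖ / m := by
    rw [le_div_iff₀ hm0, deriv_eq hp hz (hv0 _ hS), norm_smul]
    exact mul_le_mul_of_nonneg_left (hm _ hS) (norm_nonneg _)
  have h2 : ‖dvg v (p z) - c (p z)‖ ≤ |C₁| + 1 := (hC₁ _ hS).trans ((le_abs_self _).trans (by linarith))
  constructor
  · calc ‖ztv v p z‖ ≤ ‖deriv p z‖ / m := h1
      _ = 1 / m * ‖deriv p z‖ := by ring
      _ ≤ (|C₁| + 1) / m * ‖deriv p z‖ := by
        gcongr
        linarith [abs_nonneg C₁]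
  · rw [DD_eq h hp hf hz (hv0 _ hS), norm_mul]
    calc ‖dvg v (p z) - c (p z)‖ * ‖ztv v p z‖ ≤ (|C₁| + 1) * (‖deriv p z‖ / m) := mul_le_mul h2 h1 (norm_nonneg _) (by positivity)
      _ = (|C₁| + 1) / m * ‖deriv p z‖ := by ring

end Pool.Agent.MQ2

end
end

section

/-!
# MQ3 DivR: the divergence of a vector field under a map, and the transformation rule of `Θ`

`κ : ℂ² → ℂ²`, `Dκ v = h • w ∘ κ`, `J = det Dκ`: `h (v J + J div v) = h² J (div w) ∘ κ + J v h`.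
For a curve with `p' = ζ v (p)`, `ζ₁ = h (p) ζ` (so `(κ p)' = ζ₁ w (κ p)`): `ζ₁' / ζ₁ + ζ₁ div w = ζ' / ζ + ζ div v + J' / J`.
-/

set_option autoImplicit false

open Topology Filter Metric

noncomputable section

namespace Pool.Agent.MQ3

open Pool.Agent.MQ (dvg)

/-- the Jacobian -/
def jc (κ : ℂ × ℂ → ℂ × ℂ) (p : ℂ × ℂ) : ℂ :=
  (fderiv ℂ κ p (1, 0)).1 * (fderiv ℂ κ p (0, 1)).2 - (fderiv ℂ κ p (0, 1)).1 * (fderiv ℂ κ p (1, 0)).2

theorem split_vec (L : ℂ × ℂ →L[ℂ] ℂ × ℂ) (u : ℂ × ℂ) : L u = u.1 • L (1, 0) + u.2 • L (0, 1) := by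
  rw [← map_smul, ← map_smul, ← map_add]
  congr 1
  ext <;> simp

theorem split_sc (L : ℂ × ℂ →L[ℂ] ℂ) (u : ℂ × ℂ) : L u = u.1 * L (1, 0) + u.2 * L (0, 1) := by
  rw [← smul_eq_mul, ← smul_eq_mul, ← map_smul, ← map_smul, ← map_add]
  congr 1
  ext <;> simp

theorem jc_an {κ : ℂ × ℂ → ℂ × ℂ} {P : ℂ × ℂ} (hκ : AnalyticAt ℂ κ P) : AnalyticAt ℂ (jc κ) P := by
  have h1 : ∀ e : ℂ × ℂ, AnalyticAt ℂ (fun Q => fderiv ℂ κ Q e) P := fun e =>
    ((ContinuousLinearMap.apply ℂ (ℂ × ℂ) e).analyticAt _).comp hκ.fderiv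
  have h2 : ∀ e : ℂ × ℂ, AnalyticAt ℂ (fun Q => (fderiv ℂ κ Q e).1) P := fun e => analyticAt_fst.comp (h1 e)
  have h3 : ∀ e : ℂ × ℂ, AnalyticAt ℂ (fun Q => (fderiv ℂ κ Q e).2) P := fun e => analyticAt_snd.comp (h1 e)
  exact ((h2 _).mul (h3 _)).sub ((h2 _).mul (h3 _))

/-- the derivative of the Jacobian -/
theorem fderiv_jc {κ : ℂ × ℂ → ℂ × ℂ} {P : ℂ × ℂ} (hκ : AnalyticAt ℂ κ P) (u : ℂ × ℂ) : fderiv ℂ (jc κ) P u =
    ((fderiv ℂ (fderiv ℂ κ) P u (1, 0)).1 * (fderiv ℂ κ P (0, 1)).2 + (fderiv ℂ κ P (1, 0)).1 * (fderiv ℂ (fderiv ℂ κ) P u (0, 1)).2) -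
      ((fderiv ℂ (fderiv ℂ κ) P u (0, 1)).1 * (fderiv ℂ κ P (1, 0)).2 + (fderiv ℂ κ P (0, 1)).1 * (fderiv ℂ (fderiv ℂ κ) P u (1, 0)).2) := by
  have hD : HasFDerivAt (fderiv ℂ κ) (fderiv ℂ (fderiv ℂ κ) P) P := hκ.fderiv.differentiableAt.hasFDerivAt
  have h1 : ∀ e : ℂ × ℂ, HasFDerivAt (fun Q => fderiv ℂ κ Q e) ((ContinuousLinearMap.apply ℂ (ℂ × ℂ) e).comp (fderiv ℂ (fderiv ℂ κ) P)) P := fun e =>
    (ContinuousLinearMap.apply ℂ (ℂ × ℂ) e).hasFDerivAt.comp P hD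
  have h2 : ∀ e : ℂ × ℂ, HasFDerivAt (fun Q => (fderiv ℂ κ Q e).1)
      ((ContinuousLinearMap.fst ℂ ℂ ℂ).comp ((ContinuousLinearMap.apply ℂ (ℂ × ℂ) e).comp (fderiv ℂ (fderiv ℂ κ) P))) P := fun e =>
    (ContinuousLinearMap.fst ℂ ℂ ℂ).hasFDerivAt.comp P (h1 e)
  have h3 : ∀ e : ℂ × ℂ, HasFDerivAt (fun Q => (fderiv ℂ κ Q e).2)
      ((ContinuousLinearMap.snd ℂ ℂ ℂ).comp ((ContinuousLinearMap.apply ℂ (ℂ × ℂ) e).comp (fderiv ℂ (fderiv ℂ κ) P))) P := fun e =>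
    (ContinuousLinearMap.snd ℂ ℂ ℂ).hasFDerivAt.comp P (h1 e)
  have h4 := ((h2 (1, 0)).mul (h3 (0, 1))).sub ((h2 (0, 1)).mul (h3 (1, 0)))
  have h5 : HasFDerivAt (jc κ) _ P := h4
  rw [h5.fderiv]
  simp
  ring

/-- **The divergence rule.** -/
theorem div_rule {κ v w : ℂ × ℂ → ℂ × ℂ} {h : ℂ × ℂ → ℂ} {P : ℂ × ℂ} (hκ : AnalyticAt ℂ κ P) (hv : AnalyticAt ℂ v P) (hw : AnalyticAt ℂ w (κ P))
    (hh : AnalyticAt ℂ h P) (hrel : ∀ᶠ Q in 𝓝 P, fderiv ℂ κ Q (v Q) = h Q • w (κ Q)) :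
    h P * (fderiv ℂ (jc κ) P (v P) + jc κ P * dvg v P) = h P ^ 2 * (jc κ P * dvg w (κ P)) + jc κ P * fderiv ℂ h P (v P) := by
  have hD : HasFDerivAt (fderiv ℂ κ) (fderiv ℂ (fderiv ℂ κ) P) P := hκ.fderiv.differentiableAt.hasFDerivAt
  have hκ' : HasFDerivAt κ (fderiv ℂ κ P) P := hκ.differentiableAt.hasFDerivAt
  have hv' : HasFDerivAt v (fderiv ℂ v P) P := hv.differentiableAt.hasFDerivAt
  have hh' : HasFDerivAt h (fderiv ℂ h P) P := hh.differentiableAt.hasFDerivAt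
  have hw' : HasFDerivAt w (fderiv ℂ w (κ P)) (κ P) := hw.differentiableAt.hasFDerivAt
  have hsym : ∀ a b : ℂ × ℂ, fderiv ℂ (fderiv ℂ κ) P a b = fderiv ℂ (fderiv ℂ κ) P b a := by
    have h1 : ContDiffAt ℂ ⊤ κ P := hκ.contDiffAt
    exact fun a b => h1.isSymmSndFDerivAt_of_omega a b
  have hL := hD.clm_apply hv'
  have hR := hh'.smul (hw'.comp P hκ')
  have heq := (hL.congr_of_eventuallyEq (hrel.mono fun Q hQ => hQ.symm)).unique hR
  have key : ∀ u : ℂ × ℂ, fderiv ℂ κ P (fderiv ℂ v P u) + fderiv ℂ (fderiv ℂ κ) P (v P) u =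
      h P • fderiv ℂ w (κ P) (fderiv ℂ κ P u) + fderiv ℂ h P u • w (κ P) := by
    intro u
    have h1 := congrArg (fun L : ℂ × ℂ →L[ℂ] ℂ × ℂ => L u) heq
    simp at h1
    rw [hsym (v P) u]
    exact h1
  have h0 := hrel.self_of_nhds
  have e1 := key (1, 0)
  have e2 := key (0, 1)
  rw [split_vec (fderiv ℂ κ P) (fderiv ℂ v P (1, 0)), split_vec (fderiv ℂ w (κ P)) (fderiv ℂ κ P (1, 0))] at e1
  rw [split_vec (fderiv ℂ κ P) (fderiv ℂ v P (0, 1)), split_vec (fderiv ℂ w (κ P)) (fderiv ℂ κ P (0, 1))] at e2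
  rw [split_vec (fderiv ℂ κ P) (v P)] at h0
  rw [fderiv_jc hκ, split_sc (fderiv ℂ h P) (v P), dvg, dvg, jc]
  have e11 := congrArg Prod.fst e1
  have e12 := congrArg Prod.snd e1
  have e21 := congrArg Prod.fst e2
  have e22 := congrArg Prod.snd e2
  have h01 := congrArg Prod.fst h0
  have h02 := congrArg Prod.snd h0
  simp only [Prod.fst_add, Prod.snd_add, Prod.smul_fst, Prod.smul_snd, smul_eq_mul] at e11 e12 e21 e22 h01 h02
  set x1 := (fderiv ℂ κ P (1, 0)).1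
  set y1 := (fderiv ℂ κ P (1, 0)).2
  set x2 := (fderiv ℂ κ P (0, 1)).1
  set y2 := (fderiv ℂ κ P (0, 1)).2
  set A1 := (fderiv ℂ (fderiv ℂ κ) P (v P) (1, 0)).1
  set B1 := (fderiv ℂ (fderiv ℂ κ) P (v P) (1, 0)).2
  set A2 := (fderiv ℂ (fderiv ℂ κ) P (v P) (0, 1)).1
  set B2 := (fderiv ℂ (fderiv ℂ κ) P (v P) (0, 1)).2
  linear_combination h P * y2 * e11 - h P * x2 * e12 - h P * y1 * e21 + h P * x1 * e22 +
    (- y2 * fderiv ℂ h P (1, 0) + y1 * fderiv ℂ h P (0, 1)) * h01 + (x2 * fderiv ℂ h P (1, 0) - x1 * fderiv ℂ h P (0, 1)) * h02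

/-- **The rule along a curve.**  `p' = ζ v (p)`, `(κ p)' = h (p) ζ w (κ p)`. -/
theorem curve_rule {κ v w : ℂ × ℂ → ℂ × ℂ} {h : ℂ × ℂ → ℂ} {p : ℂ → ℂ × ℂ} {ζ : ℂ → ℂ} {z : ℂ} (hκ : AnalyticAt ℂ κ (p z)) (hv : AnalyticAt ℂ v (p z))
    (hw : AnalyticAt ℂ w (κ (p z))) (hh : AnalyticAt ℂ h (p z)) (hrel : ∀ᶠ Q in 𝓝 (p z), fderiv ℂ κ Q (v Q) = h Q • w (κ Q))
    (hp : AnalyticAt ℂ p z) (hζ : AnalyticAt ℂ ζ z) (hode : deriv p z = ζ z • v (p z)) (hζ0 : ζ z ≠ 0) (hh0 : h (p z) ≠ 0) (hJ0 : jc κ (p z) ≠ 0) :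
    deriv (fun u => h (p u) * ζ u) z / (h (p z) * ζ z) + h (p z) * ζ z * dvg w (κ (p z)) =
      deriv ζ z / ζ z + ζ z * dvg v (p z) + deriv (fun u => jc κ (p u)) z / jc κ (p z) := by
  have hd := div_rule hκ hv hw hh hrel
  have h1 : HasDerivAt (fun u => h (p u)) (fderiv ℂ h (p z) (deriv p z)) z :=
    hh.differentiableAt.hasFDerivAt.comp_hasDerivAt z hp.differentiableAt.hasDerivAt
  have h2 : HasDerivAt (fun u => jc κ (p u)) (fderiv ℂ (jc κ) (p z) (deriv p z)) z :=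
    (jc_an hκ).differentiableAt.hasFDerivAt.comp_hasDerivAt z hp.differentiableAt.hasDerivAt
  have h3 := h1.mul hζ.differentiableAt.hasDerivAt
  have h3' : deriv (fun u => h (p u) * ζ u) z = fderiv ℂ h (p z) (deriv p z) * ζ z + h (p z) * deriv ζ z := h3.deriv
  rw [h3', h2.deriv, hode, map_smul, map_smul, smul_eq_mul, smul_eq_mul]
  field_simp
  linear_combination - ζ z ^ 2 * hd

end Pool.Agent.MQ3

end
end
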