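import Pool.Agent.H43.TL2.M01
import Pool.Agent.H43.TL2.M06
import Pool.Agent.H43.TL2.M07

/-! The parts of this file: H13.CV.Defs, H13.CV.Pl, H14.PP.Poly, E1.ChowS. -/

section

/-!
# Project CV (MP_64ff02_ag): entire curves in curves which are not of log general type.  Definitions

`K` is the function field of a curve over `ℂ`.  `Place K` is the type of its places (discrete valuations with value group `ℤ`, trivial on `ℂ`).
`E` lies over `x = 0` means `0 < E.ord x`, `E` lies over `x = ∞` means `E.ord x < 0`.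
-/

set_option autoImplicit false

open Pool.Agent.H23.Fano (PrimeDivisorOver Form regularForms)

noncomputable section

namespace Pool.Agent.H13.CV

/-- the places of the function field `K` of a curve -/
abbrev Place (K : Type) [Field K] [Algebra ℂ K] : Type := PrimeDivisorOver K 1

/-- `K` is the function field of a curve over `ℂ` -/
structure CurveField (K : Type) [Field K] [Algebra ℂ K] : Prop where
  exists_tr : ∃ x : K, Transcendental ℂ x
  fin : ∀ x : K, Transcendental ℂ x → FiniteDimensional (IntermediateField.adjoin ℂ {x}) K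

variable {K : Type} [Field K] [Algebra ℂ K]

/-- `L = ℂ(x)` and `x` is transcendental -/
structure Gen (L : IntermediateField ℂ K) (x : K) : Prop where
  tr : Transcendental ℂ x
  eq : L = IntermediateField.adjoin ℂ {x}

/-- the order as an integer (`0` for the function `0`) -/
def oz (E : Place K) (f : K) : ℤ := (E.ord f).untopD 0

open scoped Classical in
/-- the value of `f` at the place `E` (`0` if `f` has a pole) -/
def res (E : Place K) (f : K) : ℂ := if h : ∃ c : ℂ, 0 < E.ord (f - algebraMap ℂ K c) then h.choose else 0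

/-- `f` is regular at the places over `x = 0` -/
def RegLoc (x f : K) : Prop := ∀ E : Place K, 0 < E.ord x → 0 ≤ E.ord f

/-- `f` is regular at the places where `x` is regular -/
def RegAff (x f : K) : Prop := ∀ E : Place K, 0 ≤ E.ord x → 0 ≤ E.ord f

/-- `w` is a basis over `ℂ[x]` of the ring of the functions which are regular where `x` is regular -/
def AffB {L : IntermediateField ℂ K} (x : K) {n : ℕ} (w : Module.Basis (Fin n) L K) : Prop :=
  ∀ f : K, RegAff x f ↔ ∀ i, ((w.repr f i : L) : K) ∈ Algebra.adjoin ℂ {x}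

/-- `w` is a basis over the local ring of `ℂ[x]` at `x = 0` of the ring of the functions which are regular over `x = 0` -/
def LocB {L : IntermediateField ℂ K} (x : K) {n : ℕ} (w : Module.Basis (Fin n) L K) : Prop :=
  ∀ f : K, RegLoc x f ↔ ∀ i, RegLoc x ((w.repr f i : L) : K)

/-- a Birkhoff basis: `w` is a basis over `ℂ[x]` of the ring of the functions regular where `x` is regular, and `x ^ (-a i) * w i` is a basis over the local ring of `x = ∞` of the
ring of the functions which are regular over `x = ∞` -/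
structure Birk {L : IntermediateField ℂ K} (x : K) {n : ℕ} (w : Module.Basis (Fin n) L K) (a : Fin n → ℕ) : Prop where
  aff : AffB x w
  inf : ∀ f : K, RegLoc x⁻¹ f ↔ ∀ i, RegLoc x⁻¹ (x ^ a i * ((w.repr f i : L) : K))

/-- the functions of order at least `d` at `E` -/
def ordGe (E : Place K) (d : ℤ) : Submodule ℂ K where
  carrier := {f | (d : WithTop ℤ) ≤ E.ord f}
  add_mem' := fun {f g} hf hg => le_trans (le_min hf hg) (E.ord.map_add f g)
  zero_mem' := by
    show (d : WithTop ℤ) ≤ E.ord 0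
    rw [E.ord.map_zero]
    exact le_top
  smul_mem' := fun c f hf => by
    show (d : WithTop ℤ) ≤ E.ord (c • f)
    rw [Algebra.smul_def, E.ord.map_mul]
    calc (d : WithTop ℤ) = 0 + d := (zero_add _).symm
      _ ≤ _ := add_le_add (E.ord_const c) hf

/-- the functions `f` with `f = 0` or `ord_E f ≥ - D E` for all `E` -/
def LD (D : Place K → ℤ) : Submodule ℂ K := ⨅ E, ordGe E (-D E)

/-- the pole divisor of `x` -/
def polar (x : K) (E : Place K) : ℤ := max 0 (-oz E x)

open scoped Classical in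
/-- the divisor `k E` -/
def dv (E : Place K) (k : ℤ) (E' : Place K) : ℤ := if E' = E then k else 0

end Pool.Agent.H13.CV

end
end

section

/-!
# CV Pl: the order as an integer (elementary lemmas)

`E.ord : AddValuation K (WithTop ℤ)`; `E.ord f = ⊤` iff `f = 0` (`AddValuation.top_iff`), `E.ord (f * g) = E.ord f + E.ord g` (`AddValuation.map_mul`), `E.ord_const c : 0 ≤ E.ord (algebraMap ℂ K c)`.
For `c ≠ 0`: `0 ≤ ord c`, `0 ≤ ord c⁻¹` and the sum is `ord 1 = 0`, so `ord c = 0`.  `oz_add_of_lt`: `AddValuation.map_add_eq_of_lt_left` or similar.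
`Place.ext'`: the structure `PrimeDivisorOver` has only the data field `ord`; use `cases`, `congr`, `AddValuation.ext`.
-/

set_option autoImplicit false

open Pool.Agent.H23.Fano (PrimeDivisorOver Form regularForms)

noncomputable section

namespace Pool.Agent.H13.CV

variable {K : Type} [Field K] [Algebra ℂ K] {E E' : Place K} {f g : K}

theorem coe_oz (E : Place K) (hf : f ≠ 0) : ((oz E f : ℤ) : WithTop ℤ) = E.ord f := by
  unfold oz
  have h : E.ord f ≠ ⊤ := (AddValuation.ne_top_iff E.ord).2 hf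
  obtain ⟨a, ha⟩ := WithTop.ne_top_iff_exists.1 h
  rw [← ha]
  rfl

theorem le_ord_iff {n : ℤ} : (n : WithTop ℤ) ≤ E.ord f ↔ f = 0 ∨ n ≤ oz E f := by
  by_cases hf : f = 0
  · constructor
    · intro _
      exact Or.inl hf
    · intro _
      rw [hf, E.ord.map_zero]
      exact le_top
  · rw [← coe_oz E hf, WithTop.coe_le_coe]
    constructor
    · intro h
      exact Or.inr h
    · intro h
      exact h.resolve_left hf

theorem nonneg_iff : 0 ≤ E.ord f ↔ f = 0 ∨ 0 ≤ oz E f := by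
  have := le_ord_iff (E := E) (f := f) (n := 0)
  rwa [WithTop.coe_zero] at this

theorem pos_iff : 0 < E.ord f ↔ f = 0 ∨ 0 < oz E f := by
  by_cases hf : f = 0
  · constructor
    · intro _
      exact Or.inl hf
    · intro _
      rw [hf, E.ord.map_zero]
      exact WithTop.top_pos
  · rw [← coe_oz E hf, ← WithTop.coe_zero, WithTop.coe_lt_coe]
    constructor
    · intro h
      exact Or.inr h
    · intro h
      exact h.resolve_left hf

theorem neg_iff : E.ord f < 0 ↔ oz E f < 0 := by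
  by_cases hf : f = 0
  · rw [hf, E.ord.map_zero, show oz E (0 : K) = 0 by unfold oz; rw [E.ord.map_zero]; rfl]
    constructor
    · intro h
      exact absurd h (not_lt.2 le_top)
    · intro h
      exact absurd h (lt_irrefl _)
  · rw [← coe_oz E hf, ← WithTop.coe_zero, WithTop.coe_lt_coe]

theorem oz_zero (E : Place K) : oz E (0 : K) = 0 := by
  unfold oz
  rw [E.ord.map_zero]
  rfl

theorem oz_one (E : Place K) : oz E (1 : K) = 0 := by
  unfold oz
  rw [E.ord.map_one]
  rfl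

theorem oz_mul (E : Place K) (hf : f ≠ 0) (hg : g ≠ 0) : oz E (f * g) = oz E f + oz E g := by
  have h : ((oz E (f * g) : ℤ) : WithTop ℤ) = ((oz E f + oz E g : ℤ) : WithTop ℤ) := by
    rw [coe_oz E (mul_ne_zero hf hg), E.ord.map_mul, WithTop.coe_add, coe_oz E hf, coe_oz E hg]
  exact_mod_cast h

theorem oz_inv (E : Place K) (f : K) : oz E f⁻¹ = -oz E f := by
  by_cases hf : f = 0
  · rw [hf, inv_zero, oz_zero, neg_zero]
  · have h := oz_mul E hf (inv_ne_zero hf)
    rw [mul_inv_cancel₀ hf, oz_one] at h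
    linarith

theorem oz_div (E : Place K) (hf : f ≠ 0) (hg : g ≠ 0) : oz E (f / g) = oz E f - oz E g := by
  rw [div_eq_mul_inv, oz_mul E hf (inv_ne_zero hg), oz_inv]
  ring

theorem oz_pow (E : Place K) (f : K) (n : ℕ) : oz E (f ^ n) = n * oz E f := by
  induction n with
  | zero => simp [oz_one]
  | succ n ih =>
    by_cases hf : f = 0
    · rw [hf, zero_pow (Nat.succ_ne_zero n), oz_zero, mul_zero]
    · rw [pow_succ, oz_mul E (pow_ne_zero n hf) hf, ih]
      push_cast
      ring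

theorem oz_zpow (E : Place K) (f : K) (n : ℤ) : oz E (f ^ n) = n * oz E f := by
  obtain ⟨m, rfl | rfl⟩ := n.eq_nat_or_neg
  · rw [zpow_natCast, oz_pow]
  · rw [zpow_neg, oz_inv, zpow_natCast, oz_pow]
    ring

theorem oz_neg (E : Place K) (f : K) : oz E (-f) = oz E f := by
  unfold oz
  rw [E.ord.map_neg]

theorem oz_const (E : Place K) (c : ℂ) : oz E (algebraMap ℂ K c) = 0 := by
  by_cases hc : c = 0
  · rw [hc, map_zero, oz_zero]
  · have h0 : algebraMap ℂ K c ≠ 0 := fun h => hc ((map_eq_zero (algebraMap ℂ K)).1 h)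
    have h1 := (nonneg_iff.1 (E.ord_const c)).resolve_left h0
    have h2 := E.ord_const c⁻¹
    rw [map_inv₀] at h2
    have h3 := (nonneg_iff.1 h2).resolve_left (inv_ne_zero h0)
    rw [oz_inv] at h3
    linarith

theorem ord_const (E : Place K) {c : ℂ} (hc : c ≠ 0) : E.ord (algebraMap ℂ K c) = 0 := by
  have h0 : algebraMap ℂ K c ≠ 0 := fun h => hc ((map_eq_zero (algebraMap ℂ K)).1 h)
  rw [← coe_oz E h0, oz_const]
  rfl

theorem const_nonneg (E : Place K) (c : ℂ) : 0 ≤ E.ord (algebraMap ℂ K c) := E.ord_const c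

theorem oz_add_of_lt (E : Place K) (hf : f ≠ 0) (hg : g ≠ 0) (h : oz E f < oz E g) : f + g ≠ 0 ∧ oz E (f + g) = oz E f := by
  have h1 : E.ord f < E.ord g := by
    rw [← coe_oz E hf, ← coe_oz E hg]
    exact_mod_cast h
  have h2 := AddValuation.map_add_eq_of_lt_left E.ord h1
  have h3 : f + g ≠ 0 := by
    intro h0
    rw [h0, E.ord.map_zero] at h2
    exact (AddValuation.ne_top_iff E.ord).2 hf h2.symm
  refine ⟨h3, ?_⟩
  unfold oz
  rw [h2]

theorem ord_inv (E : Place K) (hf : f ≠ 0) : E.ord f⁻¹ = ((-oz E f : ℤ) : WithTop ℤ) := by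
  rw [← coe_oz E (inv_ne_zero hf), oz_inv]

theorem inv_pos_iff {x : K} (hx : x ≠ 0) : 0 < E.ord x⁻¹ ↔ E.ord x < 0 := by
  rw [neg_iff, pos_iff, oz_inv]
  constructor
  · intro h
    have := h.resolve_left (inv_ne_zero hx)
    linarith
  · intro h
    right
    linarith

theorem exists_uni (E : Place K) : ∃ t : K, t ≠ 0 ∧ oz E t = 1 := by
  obtain ⟨t, ht⟩ := E.exists_uniformizer
  have h0 : t ≠ 0 := by
    intro h
    rw [h, E.ord.map_zero] at ht
    exact absurd ht (by decide)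
  refine ⟨t, h0, ?_⟩
  unfold oz
  rw [ht]
  rfl

theorem nonneg_add (hf : 0 ≤ E.ord f) (hg : 0 ≤ E.ord g) : 0 ≤ E.ord (f + g) := E.ord.map_le_add hf hg

theorem nonneg_sub (hf : 0 ≤ E.ord f) (hg : 0 ≤ E.ord g) : 0 ≤ E.ord (f - g) := E.ord.map_le_sub hf hg

theorem nonneg_mul (hf : 0 ≤ E.ord f) (hg : 0 ≤ E.ord g) : 0 ≤ E.ord (f * g) := by
  rw [E.ord.map_mul]
  exact add_nonneg hf hg

theorem nonneg_pow (hf : 0 ≤ E.ord f) (n : ℕ) : 0 ≤ E.ord (f ^ n) := by
  rw [E.ord.map_pow]
  exact nsmul_nonneg hf n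

theorem nonneg_sum {ι : Type*} {s : Finset ι} {F : ι → K} (h : ∀ i ∈ s, 0 ≤ E.ord (F i)) : 0 ≤ E.ord (∑ i ∈ s, F i) := E.ord.map_le_sum h

theorem pos_add (hf : 0 < E.ord f) (hg : 0 < E.ord g) : 0 < E.ord (f + g) := E.ord.map_lt_add hf hg

theorem pos_sub (hf : 0 < E.ord f) (hg : 0 < E.ord g) : 0 < E.ord (f - g) := by
  rw [sub_eq_add_neg]
  refine E.ord.map_lt_add hf ?_
  rw [E.ord.map_neg]
  exact hg

theorem pos_mul (hf : 0 < E.ord f) (hg : 0 ≤ E.ord g) : 0 < E.ord (f * g) := by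
  rw [E.ord.map_mul]
  exact add_pos_of_pos_of_nonneg hf hg

theorem nonneg_aeval (hf : 0 ≤ E.ord f) (p : Polynomial ℂ) : 0 ≤ E.ord (Polynomial.aeval f p) := by
  rw [Polynomial.aeval_eq_sum_range]
  refine nonneg_sum fun i _ => ?_
  rw [Algebra.smul_def]
  exact nonneg_mul (E.ord_const _) (nonneg_pow hf i)

/-- a place is determined by its order function -/
theorem Place.ext' (h : ∀ f, E.ord f = E'.ord f) : E = E' := by
  obtain ⟨o, h1, h2, h3⟩ := E
  obtain ⟨o', h1', h2', h3'⟩ := E'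
  have : o = o' := AddValuation.ext h
  subst this
  rfl

/-- an algebraic function is a constant -/
theorem transcendental_of_not_const (h : ∀ c : ℂ, f ≠ algebraMap ℂ K c) : Transcendental ℂ f := by
  intro hf
  have hint : IsIntegral ℂ f := hf.isIntegral
  have hd : (minpoly ℂ f).degree = 1 := IsAlgClosed.degree_eq_one_of_irreducible ℂ (minpoly.irreducible hint)
  obtain ⟨c, hc⟩ := minpoly.mem_range_of_degree_eq_one ℂ f hd
  exact h c hc.symm

theorem tr_of_pole (h : E.ord f < 0) : Transcendental ℂ f := by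
  refine transcendental_of_not_const fun c hc => ?_
  rw [neg_iff, hc, oz_const] at h
  exact lt_irrefl _ h

theorem tr_of_oz_ne (h : oz E f ≠ 0) : Transcendental ℂ f := by
  refine transcendental_of_not_const fun c hc => ?_
  rw [hc, oz_const] at h
  exact h rfl

theorem Gen.sub_const {L : IntermediateField ℂ K} {x : K} (h : Gen L x) (a : ℂ) : Gen L (x - algebraMap ℂ K a) := by
  refine ⟨transcendental_of_not_const fun c hc => ?_, ?_⟩
  · refine h.tr ?_
    have hx : x = algebraMap ℂ K (c + a) := by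
      rw [map_add, ← hc]
      ring
    rw [hx]
    exact isAlgebraic_algebraMap _
  · rw [h.eq]
    apply le_antisymm
    · rw [IntermediateField.adjoin_simple_le_iff]
      have h1 := add_mem (IntermediateField.mem_adjoin_simple_self ℂ (x - algebraMap ℂ K a))
        ((IntermediateField.adjoin ℂ {x - algebraMap ℂ K a}).algebraMap_mem a)
      rwa [sub_add_cancel] at h1
    · rw [IntermediateField.adjoin_simple_le_iff]
      exact sub_mem (IntermediateField.mem_adjoin_simple_self ℂ x) ((IntermediateField.adjoin ℂ {x}).algebraMap_mem a)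

theorem Gen.inv {L : IntermediateField ℂ K} {x : K} (h : Gen L x) : Gen L x⁻¹ := by
  refine ⟨fun ha => h.tr ?_, ?_⟩
  · have := ha.inv
    rwa [inv_inv] at this
  · rw [h.eq]
    apply le_antisymm
    · rw [IntermediateField.adjoin_simple_le_iff]
      have h1 := inv_mem (IntermediateField.mem_adjoin_simple_self ℂ x⁻¹)
      rwa [inv_inv] at h1
    · rw [IntermediateField.adjoin_simple_le_iff]
      exact inv_mem (IntermediateField.mem_adjoin_simple_self ℂ x)

theorem Gen.ne_zero {L : IntermediateField ℂ K} {x : K} (h : Gen L x) : x ≠ 0 := by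
  intro h0
  exact h.tr (h0 ▸ isAlgebraic_zero)

theorem Gen.mem {L : IntermediateField ℂ K} {x : K} (h : Gen L x) : x ∈ L := by
  rw [h.eq]
  exact IntermediateField.mem_adjoin_simple_self ℂ x

end Pool.Agent.H13.CV

end
end

section

/-!
# Algebraic sets and the metric theorem
-/

open Topology Filter Metric MvPolynomial

namespace Pool.Agent.H14.PP

open Pool.Agent.H36.BP

variable {N : ℕ}

theorem continuous_evalEN (P : MvPolynomial (Fin (N + 1)) ℂ) :
    Continuous (fun x : EN N => MvPolynomial.eval x.ofLp P) :=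
  (MvPolynomial.continuous_eval P).comp (PiLp.continuous_ofLp 2 (fun _ : Fin (N + 1) => ℂ))

theorem analyticAt_evalEN (P : MvPolynomial (Fin (N + 1)) ℂ) (x : EN N) :
    AnalyticAt ℂ (fun x : EN N => MvPolynomial.eval x.ofLp P) x := by
  have h : ∀ i : Fin (N + 1), AnalyticAt ℂ (fun x : EN N => x.ofLp i) x := fun i =>
    (EuclideanSpace.proj (𝕜 := ℂ) (ι := Fin (N + 1)) i : EN N →L[ℂ] ℂ).analyticAt x
  have := AnalyticAt.aeval_mvPolynomial (𝕜 := ℂ) h P
  simpa [MvPolynomial.aeval_eq_eval] using this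

theorem eval_smulEN {P : MvPolynomial (Fin (N + 1)) ℂ} {e : ℕ} (hP : P.IsHomogeneous e) (c : ℂ)
    (x : EN N) : MvPolynomial.eval (c • x).ofLp P = c ^ e * MvPolynomial.eval x.ofLp P := by
  have h2 : (c • x).ofLp = fun k => c * x.ofLp k := by
    funext k
    simp
  rw [h2, Pool.Agent.H17.eval_smul_of_isHomogeneous hP]

theorem exists_coord {x : EN N} (hx : x ≠ 0) : ∃ l, ‖x‖ ≤ (N + 1) * ‖x.ofLp l‖ := by
  by_contra hcon
  push Not at hcon
  have h1 : ‖x‖ ^ 2 = ∑ l, ‖x.ofLp l‖ ^ 2 := EuclideanSpace.norm_sq_eq x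
  have hN : (0 : ℝ) < N + 1 := by positivity
  have hx0 : 0 < ‖x‖ := norm_pos_iff.mpr hx
  have h2 : ∀ l, ‖x.ofLp l‖ ^ 2 ≤ ‖x‖ ^ 2 / (N + 1) ^ 2 := by
    intro l
    rw [le_div_iff₀ (by positivity), mul_comm, ← mul_pow]
    exact pow_le_pow_left₀ (by positivity) (hcon l).le 2
  have h2' : ∀ l, ‖x.ofLp l‖ ^ 2 < ‖x‖ ^ 2 / (N + 1) ^ 2 := by
    intro l
    rw [lt_div_iff₀ (by positivity), mul_comm, ← mul_pow]
    exact pow_lt_pow_left₀ (hcon l) (by positivity) (by norm_num)
  have h3 : ∑ l : Fin (N + 1), ‖x.ofLp l‖ ^ 2 < ∑ _l : Fin (N + 1), ‖x‖ ^ 2 / (N + 1) ^ 2 :=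
    Finset.sum_lt_sum_of_nonempty Finset.univ_nonempty fun l _ => h2' l
  rw [← h1, Finset.sum_const, Finset.card_univ, Fintype.card_fin, nsmul_eq_mul] at h3
  push_cast at h3
  have h4 : ((N : ℝ) + 1) * (‖x‖ ^ 2 / (N + 1) ^ 2) = ‖x‖ ^ 2 / (N + 1) := by
    field_simp
  rw [h4] at h3
  have h5 : ‖x‖ ^ 2 / (N + 1) ≤ ‖x‖ ^ 2 := div_le_self (by positivity) (by
    have : (0 : ℝ) ≤ N := Nat.cast_nonneg N
    linarith)
  linarith

end Pool.Agent.H14.PP

end

section

/-!
# E1 ChowS: forms which vanish to high order at the centres of finitely many discs in a curve vanish on the curve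
-/

set_option autoImplicit false

open Topology Filter Metric MvPolynomial

noncomputable section

namespace Pool.Agent.E1

open Pool.Agent.H36.BP (EN)
open Pool.Agent.H14.PP (eval_smulEN analyticAt_evalEN continuous_evalEN)

variable {N : ℕ}

/-- Schwarz lemma for a zero of order `n`. -/
theorem schwarz_order {f : ℂ → ℂ} (hf : AnalyticOnNhd ℂ f (closedBall 0 1)) {M : ℝ} (hM : ∀ z ∈ closedBall (0 : ℂ) 1, ‖f z‖ ≤ M) {n : ℕ}
    (hn : (n : ℕ∞) ≤ analyticOrderAt f 0) {z : ℂ} (hz : z ∈ closedBall (0 : ℂ) 1) : ‖f z‖ ≤ M * ‖z‖ ^ n := by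
  have h0 : AnalyticAt ℂ f 0 := hf 0 (mem_closedBall_self zero_le_one)
  rw [natCast_le_analyticOrderAt h0] at hn
  obtain ⟨g₁, hg₁, hfg⟩ := hn
  simp only [sub_zero, smul_eq_mul] at hfg
  obtain ⟨g, hg⟩ : ∃ g : ℂ → ℂ, g = fun z => if z = 0 then g₁ 0 else f z / z ^ n := ⟨_, rfl⟩
  have hga : AnalyticOnNhd ℂ g (closedBall 0 1) := by
    intro w hw
    by_cases hw0 : w = 0
    · subst hw0
      refine hg₁.congr ?_
      filter_upwards [hfg] with y hy
      rw [hg]
      by_cases hy0 : y = 0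
      · simp [hy0]
      · simp only [hy0, if_false]
        rw [hy]
        field_simp
    · have h1 : AnalyticAt ℂ (fun z => f z / z ^ n) w := (hf w hw).div (analyticAt_id.pow n) (pow_ne_zero n hw0)
      refine h1.congr ?_
      filter_upwards [eventually_ne_nhds hw0] with y hy
      rw [hg]
      simp only [hy, if_false]
  have hgM : ∀ z ∈ closedBall (0 : ℂ) 1, ‖g z‖ ≤ M := by
    intro z hz
    have hcl : closure (ball (0 : ℂ) 1) = closedBall 0 1 := closure_ball 0 one_ne_zero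
    refine Complex.norm_le_of_forall_mem_frontier_norm_le (U := ball (0 : ℂ) 1) isBounded_ball ?_ ?_ (by rwa [hcl])
    · refine DifferentiableOn.diffContOnCl ?_
      rw [hcl]
      exact hga.differentiableOn
    · intro w hw
      rw [frontier_ball (0 : ℂ) one_ne_zero] at hw
      have hw1 : ‖w‖ = 1 := by simpa using hw
      have hw0 : w ≠ 0 := by
        intro h
        rw [h, norm_zero] at hw1
        exact zero_ne_one hw1
      rw [hg]
      simp only [hw0, if_false]
      rw [norm_div, norm_pow, hw1, one_pow, div_one]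
      exact hM w (by rw [mem_closedBall_zero_iff, hw1])
  have hfz : f z = z ^ n * g z := by
    by_cases hz0 : z = 0
    · subst hz0
      rw [hfg.self_of_nhds, hg]
      simp
    · rw [hg]
      simp only [hz0, if_false]
      field_simp
  rw [hfz, norm_mul, norm_pow, mul_comm]
  exact mul_le_mul_of_nonneg_right (hgM z hz) (by positivity)

/-- **Vanishing.**  The cone `Z` is covered by the cones over the half discs. -/
theorem vanish_of_discs {Z : Set (EN N)} (hZ0 : (0 : EN N) ∉ Z) (hZs : ∀ x ∈ Z, ∀ c : ℂ, c ≠ 0 → c • x ∈ Z) {r : ℕ} (γ : Fin r → ℂ → EN N)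
    (hγ : ∀ i, AnalyticOnNhd ℂ (γ i) (closedBall 0 1)) (hγZ : ∀ i, ∀ z ∈ closedBall (0 : ℂ) 1, γ i z ∈ Z)
    (hcov : ∀ x ∈ Z, ∃ i, ∃ z ∈ closedBall (0 : ℂ) (1 / 2), ∃ c : ℂ, c ≠ 0 ∧ γ i z = c • x) :
    ∃ K : ℕ, ∀ d : ℕ, 1 ≤ d → ∀ Q : MvPolynomial (Fin (N + 1)) ℂ, Q.IsHomogeneous d →
      (∀ i, ∀ k < K * d, iteratedDeriv k (fun z => eval (γ i z).ofLp Q) 0 = 0) → ∀ x ∈ Z, eval x.ofLp Q = 0 := by
  -- bounds for the discs
  obtain ⟨a, A, ha, hA, hbd⟩ : ∃ a A : ℝ, 0 < a ∧ 0 < A ∧ ∀ i, ∀ z ∈ closedBall (0 : ℂ) 1, a ≤ ‖γ i z‖ ∧ ‖γ i z‖ ≤ A := by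
    have h1 : ∀ i, ∃ a A : ℝ, 0 < a ∧ 0 < A ∧ ∀ z ∈ closedBall (0 : ℂ) 1, a ≤ ‖γ i z‖ ∧ ‖γ i z‖ ≤ A := by
      intro i
      have hc : ContinuousOn (fun z => ‖γ i z‖) (closedBall 0 1) := (hγ i).continuousOn.norm
      obtain ⟨z₁, hz₁, hmin⟩ := (isCompact_closedBall (0 : ℂ) 1).exists_isMinOn ⟨0, mem_closedBall_self zero_le_one⟩ hc
      obtain ⟨z₂, hz₂, hmax⟩ := (isCompact_closedBall (0 : ℂ) 1).exists_isMaxOn ⟨0, mem_closedBall_self zero_le_one⟩ hc
      have hp : ∀ z ∈ closedBall (0 : ℂ) 1, 0 < ‖γ i z‖ := fun z hz => norm_pos_iff.2 fun h => hZ0 (h ▸ hγZ i z hz)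
      exact ⟨‖γ i z₁‖, ‖γ i z₂‖, hp z₁ hz₁, hp z₂ hz₂, fun z hz => ⟨hmin hz, hmax hz⟩⟩
    choose a A ha hA hb using h1
    rcases Nat.eq_zero_or_pos r with hr | hr
    · subst hr
      exact ⟨1, 1, one_pos, one_pos, fun i => i.elim0⟩
    · have : Nonempty (Fin r) := ⟨⟨0, hr⟩⟩
      obtain ⟨i₁, -, hi₁⟩ := Finset.exists_min_image Finset.univ a Finset.univ_nonempty
      obtain ⟨i₂, -, hi₂⟩ := Finset.exists_max_image Finset.univ A Finset.univ_nonempty
      exact ⟨a i₁, A i₂, ha i₁, hA i₂, fun i z hz => ⟨(hi₁ i (Finset.mem_univ i)).trans (hb i z hz).1,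
        (hb i z hz).2.trans (hi₂ i (Finset.mem_univ i))⟩⟩
  obtain ⟨K, hK⟩ : ∃ K : ℕ, 2 * A / a ≤ 2 ^ K := by
    obtain ⟨K, hK⟩ := pow_unbounded_of_one_lt (2 * A / a) (one_lt_two)
    exact ⟨K, hK.le⟩
  refine ⟨K, fun d hd Q hQ hvan => ?_⟩
  -- the supremum of `Q` on the unit vectors of `Z`
  obtain ⟨B, hB0, hB⟩ : ∃ B : ℝ, 0 ≤ B ∧ ∀ x : EN N, ‖x‖ ≤ 1 → ‖eval x.ofLp Q‖ ≤ B := by
    obtain ⟨C, hC⟩ := (isCompact_closedBall (0 : EN N) 1).exists_bound_of_continuousOn (continuous_evalEN Q).continuousOn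
    refine ⟨max C 0, le_max_right _ _, fun x hx => (hC x (by simpa using hx)).trans (le_max_left _ _)⟩
  -- improvement
  have key : ∀ M : ℝ, 0 ≤ M → (∀ x ∈ Z, ‖x‖ = 1 → ‖eval x.ofLp Q‖ ≤ M) → ∀ x ∈ Z, ‖x‖ = 1 → ‖eval x.ofLp Q‖ ≤ M / 2 := by
    intro M hM0 hM x hx hx1
    have hhom : ∀ y ∈ Z, ‖eval y.ofLp Q‖ ≤ ‖y‖ ^ d * M := by
      intro y hy
      have hy0 : y ≠ 0 := fun h => hZ0 (h ▸ hy)
      have hyn : 0 < ‖y‖ := norm_pos_iff.2 hy0
      have hyc : ((‖y‖ : ℂ))⁻¹ ≠ 0 := by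
        simpa using hy0
      have h1 := hM _ (hZs y hy _ hyc) (by
        rw [norm_smul, norm_inv, Complex.norm_real, norm_norm]
        exact inv_mul_cancel₀ hyn.ne')
      rw [eval_smulEN hQ, norm_mul, norm_pow, norm_inv, Complex.norm_real, norm_norm] at h1
      rw [inv_pow] at h1
      have h2 : 0 < ‖y‖ ^ d := by positivity
      rwa [inv_mul_le_iff₀ h2] at h1
    obtain ⟨i, z, hz, c', hc', hxc'⟩ := hcov x hx
    obtain ⟨c, hcd⟩ : ∃ c : ℂ, c = c'⁻¹ := ⟨_, rfl⟩
    have hxc : x = c • γ i z := by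
      rw [hxc', hcd, smul_smul, inv_mul_cancel₀ hc', one_smul]
    have hz1 : z ∈ closedBall (0 : ℂ) 1 := closedBall_subset_closedBall (by norm_num) hz
    have hfa : AnalyticOnNhd ℂ (fun z => eval (γ i z).ofLp Q) (closedBall 0 1) := fun w hw =>
      (analyticAt_evalEN Q (γ i w)).fun_comp (hγ i w hw)
    have hord : ((K * d : ℕ) : ℕ∞) ≤ analyticOrderAt (fun z => eval (γ i z).ofLp Q) 0 := by
      rw [natCast_le_analyticOrderAt_iff_iteratedDeriv_eq_zero (hfa 0 (mem_closedBall_self zero_le_one))]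
      exact fun k hk => hvan i k hk
    have h3 := schwarz_order hfa (M := A ^ d * M) (fun w hw => (hhom _ (hγZ i w hw)).trans (by
      have := (hbd i w hw).2
      gcongr)) hord hz1
    have hzn : ‖z‖ ≤ 1 / 2 := by simpa using hz
    have hγn := (hbd i z hz1).1
    have hcn : ‖c‖ * ‖γ i z‖ = 1 := by
      rw [← norm_smul, ← hxc, hx1]
    have hca : ‖c‖ ≤ a⁻¹ := by
      have h4 : ‖c‖ * a ≤ 1 := by
        rw [← hcn]
        gcongr
      rwa [← le_div_iff₀ ha, one_div] at h4
    rw [hxc, eval_smulEN hQ, norm_mul, norm_pow]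
    calc ‖c‖ ^ d * ‖eval (γ i z).ofLp Q‖ ≤ (a⁻¹) ^ d * (A ^ d * M * (1 / 2) ^ (K * d)) := by
          have h5 : ‖z‖ ^ (K * d) ≤ (1 / 2) ^ (K * d) := by gcongr
          have h6 : A ^ d * M * ‖z‖ ^ (K * d) ≤ A ^ d * M * (1 / 2) ^ (K * d) := by gcongr
          gcongr
          exact h3.trans h6
      _ = (A / a / 2 ^ K) ^ d * M := by
          have e1 : ((1 : ℝ) / 2) ^ (K * d) = ((2 ^ K : ℝ)⁻¹) ^ d := by
            rw [pow_mul, one_div, inv_pow]
          have e2 : A / a / 2 ^ K = a⁻¹ * A * (2 ^ K : ℝ)⁻¹ := by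
            rw [div_eq_mul_inv, div_eq_mul_inv]
            ring
          rw [e1, e2, mul_pow, mul_pow]
          ring
      _ ≤ (1 / 2) ^ d * M := by
          have h7 : A / a / 2 ^ K ≤ 1 / 2 := by
            rw [div_le_div_iff₀ (by positivity) (by norm_num)]
            rw [mul_div_assoc] at hK
            linarith
          gcongr
      _ ≤ (1 / 2) ^ 1 * M := by
          have h8 : ((1 : ℝ) / 2) ^ d ≤ (1 / 2) ^ 1 := pow_le_pow_of_le_one (by norm_num) (by norm_num) hd
          gcongr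
      _ = M / 2 := by ring
  have hall : ∀ n : ℕ, ∀ x ∈ Z, ‖x‖ = 1 → ‖eval x.ofLp Q‖ ≤ B / 2 ^ n := by
    intro n
    induction n with
    | zero => intro x hx hx1; simpa using hB x hx1.le
    | succ n ih =>
      intro x hx hx1
      have := key (B / 2 ^ n) (by positivity) ih x hx hx1
      rw [pow_succ, ← div_div]
      exact this
  have hunit : ∀ x ∈ Z, ‖x‖ = 1 → eval x.ofLp Q = 0 := by
    intro x hx hx1
    rw [← norm_le_zero_iff]
    have ht : Tendsto (fun n : ℕ => B / 2 ^ n) atTop (𝓝 0) := by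
      have h1 : Tendsto (fun n : ℕ => B * (1 / 2 : ℝ) ^ n) atTop (𝓝 (B * 0)) :=
        (tendsto_pow_atTop_nhds_zero_of_lt_one (by norm_num) (by norm_num)).const_mul B
      rw [mul_zero] at h1
      refine h1.congr fun n => ?_
      rw [one_div, inv_pow]
      rfl
    exact ge_of_tendsto' ht fun n => hall n x hx hx1
  intro x hx
  have hx0 : x ≠ 0 := fun h => hZ0 (h ▸ hx)
  have hxn : 0 < ‖x‖ := norm_pos_iff.2 hx0
  have hxc : ((‖x‖ : ℂ))⁻¹ ≠ 0 := by
    simpa using hx0
  have h1 := hunit _ (hZs x hx _ hxc) (by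
    rw [norm_smul, norm_inv, Complex.norm_real, norm_norm]
    exact inv_mul_cancel₀ hxn.ne')
  rw [eval_smulEN hQ] at h1
  exact (mul_eq_zero.1 h1).resolve_left (pow_ne_zero _ hxc)

end Pool.Agent.E1

end
end
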