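import Pool.Agent.H43.TL2.M05

/-! The parts of this file: H17.AhlforsGlobal, H17.EntireRing, H17.Weierstrass, H17.GlobalLift. -/

section

/-!
# A vanishing theorem of Ahlfors–Schwarz type

`r i` are entire functions (without identically vanishing ones), `U = ∑ |r i|`, and `V` is the
variance of the logarithmic derivatives `r i' / r i` with weights `|r i| / U`.  If an entire
function `g` satisfies `|g|^2 U^a ≤ C ∏ |r i| V^ρ` with `a > 0`, and `V` is locally bounded, then
`g = 0`.
-/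

open Topology Filter Complex

namespace Pool.Agent.H17

section

variable {ι : Type} [Fintype ι]

/-- Zeros of a nonzero entire function are isolated. -/
lemma eventually_ne_zero_of_entire {f : ℂ → ℂ} (hf : Differentiable ℂ f) (h0 : ∃ z, f z ≠ 0)
    (s : ℂ) : ∀ᶠ z in 𝓝[≠] s, f z ≠ 0 := by
  rcases (hf.analyticAt s).eventually_eq_zero_or_eventually_ne_zero with h | h
  · exfalso
    obtain ⟨z, hz⟩ := h0
    have hana : AnalyticOnNhd ℂ f Set.univ := fun z _ => hf.analyticAt z
    exact hz (hana.eqOn_zero_of_preconnected_of_eventuallyEq_zero isPreconnected_univ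
      (Set.mem_univ s) h (Set.mem_univ z))
  · exact h

lemma finite_zeros {r : ι → ℂ → ℂ} (hr : ∀ i, Differentiable ℂ (r i))
    (hr0 : ∀ i, ∃ z, r i z ≠ 0) (R : ℝ) :
    {z ∈ Metric.closedBall (0 : ℂ) R | ∃ i, r i z = 0}.Finite := by
  by_contra hinf
  obtain ⟨x, -, hx⟩ := Set.Infinite.exists_accPt_of_subset_isCompact hinf
    (isCompact_closedBall (0 : ℂ) R) (fun z hz => hz.1)
  have h1 : ∀ᶠ z in 𝓝[≠] x, ∀ i, r i z ≠ 0 :=
    eventually_all.mpr fun i => eventually_ne_zero_of_entire (hr i) (hr0 i) x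
  rw [accPt_iff_frequently_nhdsNE] at hx
  obtain ⟨z, hz1, hz2⟩ := (hx.and_eventually h1).exists
  obtain ⟨i, hi⟩ := hz1.2
  exact hz2 i hi

end

end Pool.Agent.H17

end

section

/-!
# The ring of entire functions
-/

open Polynomial Topology Filter

namespace Pool.Agent.H17

/-- The algebra of entire functions. -/
def entire : Subalgebra ℂ (ℂ → ℂ) where
  carrier := {f | Differentiable ℂ f}
  mul_mem' hf hg := hf.mul hg
  add_mem' hf hg := hf.add hg
  algebraMap_mem' c := differentiable_const c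

/-- Entire functions. -/
abbrev EntFun : Type := ↥entire

namespace EntFun

lemma diff (f : EntFun) : Differentiable ℂ (f : ℂ → ℂ) := f.2

lemma analyticAt (f : EntFun) (z : ℂ) : AnalyticAt ℂ (f : ℂ → ℂ) z := f.2.analyticAt z

@[ext] lemma ext' {f g : EntFun} (h : ∀ z, (f : ℂ → ℂ) z = (g : ℂ → ℂ) z) : f = g :=
  Subtype.ext (funext h)

lemma ne_zero_iff (f : EntFun) : f ≠ 0 ↔ ∃ z, (f : ℂ → ℂ) z ≠ 0 := by
  constructor
  · intro h
    by_contra h1
    push Not at h1
    exact h (ext' fun z => by simpa using h1 z)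
  · rintro ⟨z, hz⟩ rfl
    exact hz rfl

instance : Nontrivial EntFun := ⟨⟨0, 1, fun h => by
  have := congrArg (fun f : EntFun => (f : ℂ → ℂ) 0) h
  simp at this⟩⟩

instance : NoZeroDivisors EntFun := ⟨by
  intro f g hfg
  by_contra h
  push Not at h
  have h1 := eventually_ne_zero_of_entire f.2 ((ne_zero_iff f).mp h.1) 0
  have h2 := eventually_ne_zero_of_entire g.2 ((ne_zero_iff g).mp h.2) 0
  obtain ⟨z, hz1, hz2⟩ := (h1.and h2).exists
  have h3 : (f * g : EntFun).1 z = 0 := by rw [hfg]; rfl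
  have h4 : (f : ℂ → ℂ) z * (g : ℂ → ℂ) z = 0 := h3
  rcases mul_eq_zero.mp h4 with h | h
  · exact hz1 h
  · exact hz2 h⟩

instance : IsDomain EntFun := NoZeroDivisors.to_isDomain _

/-- Evaluation at a point. -/
def ev (z : ℂ) : EntFun →+* ℂ := (Pi.evalRingHom (fun _ : ℂ => ℂ) z).comp entire.subtype

@[simp] lemma ev_apply (z : ℂ) (f : EntFun) : ev z f = (f : ℂ → ℂ) z := rfl

@[simp] lemma ev_algebraMap (z c : ℂ) : ev z (algebraMap ℂ EntFun c) = c := rfl

@[simp] lemma coe_algebraMap (c z : ℂ) : ((algebraMap ℂ EntFun c : EntFun) : ℂ → ℂ) z = c := rfl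

open Differential

/-- The coordinate function centred at `s`. -/
def coord (s : ℂ) : EntFun := ⟨fun z => z - s, by
  change Differentiable ℂ fun z : ℂ => z - s
  fun_prop⟩

@[simp] lemma coord_apply (s z : ℂ) : ((coord s : EntFun) : ℂ → ℂ) z = z - s := rfl

lemma coord_ne_zero (s : ℂ) : coord s ≠ 0 := (ne_zero_iff _).mpr ⟨s + 1, by simp⟩

/-- Division by the coordinate function. -/
lemma exists_coord_mul {f : EntFun} {s : ℂ} (h : (f : ℂ → ℂ) s = 0) : ∃ g, f = coord s * g := by
  refine ⟨⟨dslope (f : ℂ → ℂ) s, ?_⟩, ?_⟩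
  · intro z
    have h1 : DifferentiableOn ℂ (dslope (f : ℂ → ℂ) s) Set.univ :=
      (Complex.differentiableOn_dslope Filter.univ_mem).mpr f.diff.differentiableOn
    exact (h1 z (Set.mem_univ z)).differentiableAt Filter.univ_mem
  · ext z
    have h2 := sub_smul_dslope (f : ℂ → ℂ) s z
    rw [h, sub_zero, smul_eq_mul] at h2
    exact h2.symm

/-- The order of a nonzero entire function is finite. -/
lemma order_ne_top {f : EntFun} (hf : f ≠ 0) (s : ℂ) : analyticOrderAt (f : ℂ → ℂ) s ≠ ⊤ := by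
  intro h
  rw [analyticOrderAt_eq_top] at h
  have h1 := eventually_ne_zero_of_entire f.2 ((ne_zero_iff f).mp hf) s
  obtain ⟨z, hz1, hz2⟩ := ((h.filter_mono nhdsWithin_le_nhds).and h1).exists
  exact hz2 hz1

lemma order_mul (f g : EntFun) (s : ℂ) : analyticOrderAt ((f * g : EntFun) : ℂ → ℂ) s =
    analyticOrderAt (f : ℂ → ℂ) s + analyticOrderAt (g : ℂ → ℂ) s :=
  analyticOrderAt_mul (f.analyticAt s) (g.analyticAt s)

lemma order_pow (f : EntFun) (n : ℕ) (s : ℂ) : analyticOrderAt ((f ^ n : EntFun) : ℂ → ℂ) s =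
    n * analyticOrderAt (f : ℂ → ℂ) s := by
  have h : ((f ^ n : EntFun) : ℂ → ℂ) = (f : ℂ → ℂ) ^ n := rfl
  rw [h, analyticOrderAt_pow (f.analyticAt s), nsmul_eq_mul]

lemma order_prod {ι : Type*} (S : Finset ι) (f : ι → EntFun) (s : ℂ) :
    analyticOrderAt ((∏ i ∈ S, f i : EntFun) : ℂ → ℂ) s =
      ∑ i ∈ S, analyticOrderAt ((f i : EntFun) : ℂ → ℂ) s := by
  classical
  induction S using Finset.induction_on with
  | empty =>
    rw [Finset.prod_empty, Finset.sum_empty, analyticOrderAt_eq_zero]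
    right
    simp
  | insert a S ha ih => rw [Finset.prod_insert ha, Finset.sum_insert ha, order_mul, ih]

lemma order_eq_zero_iff (f : EntFun) (s : ℂ) :
    analyticOrderAt (f : ℂ → ℂ) s = 0 ↔ (f : ℂ → ℂ) s ≠ 0 :=
  (f.analyticAt s).analyticOrderAt_eq_zero

lemma order_coord (s : ℂ) : analyticOrderAt ((coord s : EntFun) : ℂ → ℂ) s = 1 :=
  analyticOrderAt_id_sub_const_self

end EntFun

open EntFun

end Pool.Agent.H17

end

section

/-!
# Weierstrass' theorem: entire functions with prescribed zeros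
-/

open Topology Filter

namespace Pool.Agent.H17

open EntFun

/-- The Taylor polynomial of the logarithm, as an entire function. -/
lemma differentiable_logTaylor (n : ℕ) : Differentiable ℂ (Complex.logTaylor n) := by
  have h : Complex.logTaylor n =
      fun z : ℂ => ∑ j ∈ Finset.range n, (-1 : ℂ) ^ (j + 1) * z ^ j / (j : ℂ) := rfl
  rw [h]
  fun_prop

/-- `1 - z / s`. -/
noncomputable def linFac (s : ℂ) : EntFun := ⟨fun z => 1 - z / s, by
  change Differentiable ℂ fun z : ℂ => 1 - z / s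
  fun_prop⟩

/-- The exponential factor. -/
noncomputable def expFac (m : ℕ) (s : ℂ) : EntFun :=
  ⟨fun z => Complex.exp (-Complex.logTaylor (m + 1) (-(z / s))), by
    change Differentiable ℂ fun z : ℂ => Complex.exp (-Complex.logTaylor (m + 1) (-(z / s)))
    have h := differentiable_logTaylor (m + 1)
    fun_prop⟩

lemma linFac_apply (s z : ℂ) : ((linFac s : EntFun) : ℂ → ℂ) z = 1 - z / s := rfl

lemma expFac_apply (m : ℕ) (s z : ℂ) : ((expFac m s : EntFun) : ℂ → ℂ) z =
    Complex.exp (-Complex.logTaylor (m + 1) (-(z / s))) := rfl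

lemma order_coord_of_ne {s z : ℂ} (h : s ≠ z) :
    analyticOrderAt ((coord s : EntFun) : ℂ → ℂ) z = 0 := by
  rw [order_eq_zero_iff, coord_apply]
  exact sub_ne_zero.mpr h.symm

lemma linFac_eq {s : ℂ} (hs : s ≠ 0) : linFac s = algebraMap ℂ EntFun (-s⁻¹) * coord s := by
  ext z
  have h1 : ((algebraMap ℂ EntFun (-s⁻¹) * coord s : EntFun) : ℂ → ℂ) z = -s⁻¹ * (z - s) := rfl
  rw [h1, linFac_apply]
  field_simp
  ring

lemma order_algebraMap {c : ℂ} (hc : c ≠ 0) (z : ℂ) :
    analyticOrderAt ((algebraMap ℂ EntFun c : EntFun) : ℂ → ℂ) z = 0 := by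
  rw [order_eq_zero_iff, coe_algebraMap]
  exact hc

lemma order_linFac {s : ℂ} (hs : s ≠ 0) (z : ℂ) :
    analyticOrderAt ((linFac s : EntFun) : ℂ → ℂ) z = if s = z then 1 else 0 := by
  rw [linFac_eq hs, order_mul, order_algebraMap (by simpa using hs), zero_add]
  split_ifs with h
  · rw [h, order_coord]
  · exact order_coord_of_ne h

lemma order_expFac (m : ℕ) (s z : ℂ) :
    analyticOrderAt ((expFac m s : EntFun) : ℂ → ℂ) z = 0 := by
  rw [order_eq_zero_iff, expFac_apply]
  exact Complex.exp_ne_zero _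

/-- The elementary estimate. -/
lemma norm_log_sub_logTaylor_le_half {u : ℂ} (hu : ‖u‖ ≤ 1 / 2) (m : ℕ) :
    ‖Complex.log (1 + u) - Complex.logTaylor (m + 1) u‖ ≤ (1 / 2) ^ m := by
  refine (Complex.norm_log_sub_logTaylor_le m (by linarith)).trans ?_
  have h0 := norm_nonneg u
  have h1 : ‖u‖ ^ (m + 1) ≤ (1 / 2) ^ (m + 1) := by gcongr
  have h2 : (1 - ‖u‖)⁻¹ ≤ 2 := by
    rw [inv_le_comm₀ (by linarith) (by norm_num)]
    linarith
  have h3 : 0 ≤ (1 - ‖u‖)⁻¹ := by
    rw [inv_nonneg]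
    linarith
  calc ‖u‖ ^ (m + 1) * (1 - ‖u‖)⁻¹ / (m + 1) ≤ (1 / 2) ^ (m + 1) * 2 / 1 := by
        gcongr
        · have : (0 : ℝ) ≤ m := by positivity
          linarith
    _ = (1 / 2) ^ m := by rw [pow_succ]; ring

section

variable (D : ℂ → ℕ) (hD : ∀ R : ℝ, {z ∈ Metric.closedBall (0 : ℂ) R | D z ≠ 0}.Finite)

open scoped Classical in
/-- The zeros with `k ≤ |s| < k + 1`. -/
noncomputable def shell (k : ℕ) : Finset ℂ :=
  (hD (k + 1)).toFinset.filter fun s => (k : ℝ) ≤ ‖s‖ ∧ ‖s‖ < k + 1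

lemma mem_shell {k : ℕ} {s : ℂ} :
    s ∈ shell D hD k ↔ D s ≠ 0 ∧ (k : ℝ) ≤ ‖s‖ ∧ ‖s‖ < k + 1 := by
  unfold shell
  rw [Finset.mem_filter, Set.Finite.mem_toFinset]
  constructor
  · rintro ⟨h1, h2⟩
    exact ⟨h1.2, h2⟩
  · rintro ⟨h1, h2⟩
    exact ⟨⟨by rw [mem_closedBall_zero_iff]; exact h2.2.le, h1⟩, h2⟩

/-- The number of zeros in a shell. -/
noncomputable def shellCard (k : ℕ) : ℕ := ∑ s ∈ shell D hD k, D s

/-- The partial product over a shell. -/
noncomputable def shellProd (k : ℕ) : EntFun :=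
  if k = 0 then ∏ s ∈ shell D hD k, coord s ^ D s
  else ∏ s ∈ shell D hD k, (linFac s * expFac (k + shellCard D hD k) s) ^ D s

/-- The logarithm of the partial product over a shell. -/
noncomputable def shellLog (k : ℕ) (z : ℂ) : ℂ :=
  ∑ s ∈ shell D hD k, (D s : ℂ) * (Complex.log (1 + -(z / s)) -
    Complex.logTaylor (k + shellCard D hD k + 1) (-(z / s)))

lemma shell_ne_zero {k : ℕ} (hk : k ≠ 0) {s : ℂ} (hs : s ∈ shell D hD k) : s ≠ 0 := by
  rintro rfl
  have h := ((mem_shell D hD).mp hs).2.1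
  rw [norm_zero] at h
  have : (k : ℝ) ≤ 0 := h
  exact hk (by exact_mod_cast le_antisymm (by exact_mod_cast this) (Nat.zero_le k))

lemma norm_div_le_half {k : ℕ} (hk : k ≠ 0) {s : ℂ} (hs : s ∈ shell D hD k) {z : ℂ}
    (hz : ‖z‖ < k / 2) : ‖-(z / s)‖ ≤ 1 / 2 := by
  have h := ((mem_shell D hD).mp hs).2.1
  have hkpos : (0 : ℝ) < k := by positivity
  rw [norm_neg, norm_div, div_le_iff₀ (hkpos.trans_le h)]
  linarith

lemma exp_shellLog {k : ℕ} (hk : k ≠ 0) {z : ℂ} (hz : ‖z‖ < k / 2) :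
    Complex.exp (shellLog D hD k z) = ((shellProd D hD k : EntFun) : ℂ → ℂ) z := by
  unfold shellLog shellProd
  rw [if_neg hk, Complex.exp_sum]
  have h1 : ((∏ s ∈ shell D hD k, (linFac s * expFac (k + shellCard D hD k) s) ^ D s : EntFun) :
      ℂ → ℂ) z = ev z (∏ s ∈ shell D hD k, (linFac s * expFac (k + shellCard D hD k) s) ^ D s) := rfl
  rw [h1, map_prod]
  refine Finset.prod_congr rfl fun s hs => ?_
  rw [map_pow, map_mul, ev_apply, ev_apply, linFac_apply, expFac_apply, Complex.exp_nat_mul,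
    Complex.exp_sub, Complex.exp_log, Complex.exp_neg]
  · rfl
  · have h2 := norm_div_le_half D hD hk hs hz
    intro h3
    have h4 : -(z / s) = -1 := by linear_combination h3
    rw [h4] at h2
    norm_num at h2

lemma norm_shellLog_le {k : ℕ} (hk : k ≠ 0) {z : ℂ} (hz : ‖z‖ < k / 2) :
    ‖shellLog D hD k z‖ ≤ (1 / 2) ^ k := by
  unfold shellLog
  refine (norm_sum_le _ _).trans ?_
  have h1 : ∀ s ∈ shell D hD k, ‖(D s : ℂ) * (Complex.log (1 + -(z / s)) -
      Complex.logTaylor (k + shellCard D hD k + 1) (-(z / s)))‖ ≤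
      D s * (1 / 2) ^ (k + shellCard D hD k) := by
    intro s hs
    rw [norm_mul, Complex.norm_natCast]
    gcongr
    exact norm_log_sub_logTaylor_le_half (norm_div_le_half D hD hk hs hz) _
  refine (Finset.sum_le_sum h1).trans ?_
  rw [← Finset.sum_mul]
  have h2 : (∑ s ∈ shell D hD k, (D s : ℝ)) = (shellCard D hD k : ℝ) := by
    unfold shellCard
    push_cast
    rfl
  rw [h2, pow_add]
  have h3 : (shellCard D hD k : ℝ) ≤ 2 ^ shellCard D hD k := by
    exact_mod_cast Nat.lt_two_pow_self.le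
  have h4 : (shellCard D hD k : ℝ) * (1 / 2) ^ shellCard D hD k ≤ 1 := by
    rw [one_div, inv_pow, ← div_eq_mul_inv, div_le_one (by positivity)]
    exact h3
  calc (shellCard D hD k : ℝ) * ((1 / 2) ^ k * (1 / 2) ^ shellCard D hD k)
      = ((shellCard D hD k : ℝ) * (1 / 2) ^ shellCard D hD k) * (1 / 2) ^ k := by ring
    _ ≤ 1 * (1 / 2) ^ k := by gcongr
    _ = _ := one_mul _

lemma differentiableOn_shellLog {k : ℕ} (hk : k ≠ 0) :
    DifferentiableOn ℂ (shellLog D hD k) (Metric.ball 0 (k / 2)) := by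
  intro z hz
  rw [mem_ball_zero_iff] at hz
  apply DifferentiableAt.differentiableWithinAt
  unfold shellLog
  refine DifferentiableAt.fun_sum fun s hs => ?_
  refine DifferentiableAt.const_mul ?_ _
  have h1 : DifferentiableAt ℂ (fun z : ℂ => 1 + -(z / s)) z := by fun_prop
  have h2 : DifferentiableAt ℂ (fun z : ℂ => -(z / s)) z := by fun_prop
  refine DifferentiableAt.sub ?_ ?_
  · refine h1.clog ?_
    apply Complex.mem_slitPlane_of_norm_lt_one
    have := norm_div_le_half D hD hk hs hz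
    linarith
  · exact (differentiable_logTaylor _ _).comp z h2

/-- The partial products. -/
noncomputable def partProd (K : ℕ) : EntFun := ∏ k ∈ Finset.range K, shellProd D hD k

/-- The remainder. -/
noncomputable def remLog (K : ℕ) (z : ℂ) : ℂ := ∑' k, shellLog D hD (K + k) z

lemma remLog_bound {K : ℕ} (hK : K ≠ 0) (k : ℕ) {z : ℂ} (hz : z ∈ Metric.ball (0 : ℂ) (K / 2)) :
    ‖shellLog D hD (K + k) z‖ ≤ (1 / 2) ^ k := by
  rw [mem_ball_zero_iff] at hz
  refine (norm_shellLog_le D hD (by omega) (hz.trans_le ?_)).trans ?_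
  · push_cast
    have : (0 : ℝ) ≤ k := by positivity
    linarith
  · exact pow_le_pow_of_le_one (by norm_num) (by norm_num) (by omega)

lemma summable_half : Summable fun k : ℕ => (1 / 2 : ℝ) ^ k :=
  summable_geometric_of_lt_one (by norm_num) (by norm_num)

lemma differentiableOn_remLog {K : ℕ} (hK : K ≠ 0) :
    DifferentiableOn ℂ (remLog D hD K) (Metric.ball 0 (K / 2)) := by
  refine Complex.differentiableOn_tsum_of_summable_norm summable_half (fun k => ?_)
    Metric.isOpen_ball (fun k z hz => remLog_bound D hD hK k hz)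
  refine (differentiableOn_shellLog D hD (k := K + k) (by omega)).mono ?_
  apply Metric.ball_subset_ball
  push_cast
  have : (0 : ℝ) ≤ k := by positivity
  linarith

lemma tendsto_partProd {K : ℕ} (hK : K ≠ 0) {z : ℂ} (hz : z ∈ Metric.ball (0 : ℂ) (K / 2)) :
    Tendsto (fun m => ((partProd D hD m : EntFun) : ℂ → ℂ) z) atTop
      (𝓝 (((partProd D hD K : EntFun) : ℂ → ℂ) z * Complex.exp (remLog D hD K z))) := by
  have hsum : Summable fun k => shellLog D hD (K + k) z :=
    Summable.of_norm_bounded summable_half fun k => remLog_bound D hD hK k hz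
  have h1 := hsum.hasSum.tendsto_sum_nat
  have h2 : Tendsto (fun m => ((partProd D hD K : EntFun) : ℂ → ℂ) z *
      Complex.exp (∑ k ∈ Finset.range m, shellLog D hD (K + k) z)) atTop
      (𝓝 (((partProd D hD K : EntFun) : ℂ → ℂ) z * Complex.exp (remLog D hD K z))) :=
    (h1.cexp).const_mul _
  have h3 : ∀ m, ((partProd D hD (m + K) : EntFun) : ℂ → ℂ) z =
      ((partProd D hD K : EntFun) : ℂ → ℂ) z *
      Complex.exp (∑ k ∈ Finset.range m, shellLog D hD (K + k) z) := by
    intro m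
    rw [mem_ball_zero_iff] at hz
    have h4 : partProd D hD (m + K) = partProd D hD K *
        ∏ k ∈ Finset.range m, shellProd D hD (K + k) := by
      unfold partProd
      rw [add_comm m K, Finset.prod_range_add]
    rw [h4, Complex.exp_sum]
    have h5 : ((partProd D hD K * ∏ k ∈ Finset.range m, shellProd D hD (K + k) : EntFun) :
        ℂ → ℂ) z = ((partProd D hD K : EntFun) : ℂ → ℂ) z *
        ev z (∏ k ∈ Finset.range m, shellProd D hD (K + k)) := rfl
    rw [h5, map_prod]
    congr 1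
    refine Finset.prod_congr rfl fun k _ => ?_
    rw [exp_shellLog D hD (by omega)]
    · rfl
    · refine hz.trans_le ?_
      push_cast
      have : (0 : ℝ) ≤ k := by positivity
      linarith
  rw [← tendsto_add_atTop_iff_nat K]
  exact h2.congr fun m => (h3 m).symm

include hD in
/-- **Weierstrass' theorem.** -/
theorem exists_entire_with_orders : ∃ w : EntFun, ∀ z, analyticOrderAt (w : ℂ → ℂ) z = D z := by
  classical
  set Kz : ℂ → ℕ := fun z => ⌈2 * ‖z‖⌉₊ + 1 with hKz
  have hKz0 : ∀ z, Kz z ≠ 0 := fun z => by simp [hKz]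
  have hKzball : ∀ z, z ∈ Metric.ball (0 : ℂ) (Kz z / 2) := by
    intro z
    rw [mem_ball_zero_iff, hKz]
    push_cast
    have := Nat.le_ceil (2 * ‖z‖)
    linarith
  set w : ℂ → ℂ := fun z => ((partProd D hD (Kz z) : EntFun) : ℂ → ℂ) z *
    Complex.exp (remLog D hD (Kz z) z) with hw
  have hweq : ∀ (K : ℕ), K ≠ 0 → ∀ z ∈ Metric.ball (0 : ℂ) (K / 2),
      w z = ((partProd D hD K : EntFun) : ℂ → ℂ) z * Complex.exp (remLog D hD K z) := by
    intro K hK z hz
    exact tendsto_nhds_unique (tendsto_partProd D hD (hKz0 z) (hKzball z))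
      (tendsto_partProd D hD hK hz)
  have hlocal : ∀ z, w =ᶠ[𝓝 z] fun y => ((partProd D hD (Kz z) : EntFun) : ℂ → ℂ) y *
      Complex.exp (remLog D hD (Kz z) y) := by
    intro z
    filter_upwards [Metric.isOpen_ball.mem_nhds (hKzball z)] with y hy
    exact hweq (Kz z) (hKz0 z) y hy
  have hremAn : ∀ z, AnalyticAt ℂ (remLog D hD (Kz z)) z := fun z =>
    (differentiableOn_remLog D hD (hKz0 z)).analyticAt
      (Metric.isOpen_ball.mem_nhds (hKzball z))
  have hexpAn : ∀ z, AnalyticAt ℂ (fun y => Complex.exp (remLog D hD (Kz z) y)) z := fun z =>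
    (hremAn z).cexp
  have hwdiff : Differentiable ℂ w := by
    intro z
    have h1 := (((partProd D hD (Kz z)).analyticAt z).mul (hexpAn z)).differentiableAt
    exact (hlocal z).differentiableAt_iff.mpr h1
  refine ⟨⟨w, hwdiff⟩, fun z => ?_⟩
  change analyticOrderAt w z = D z
  rw [analyticOrderAt_congr (hlocal z)]
  have h1 : analyticOrderAt (fun y => ((partProd D hD (Kz z) : EntFun) : ℂ → ℂ) y *
      Complex.exp (remLog D hD (Kz z) y)) z =
      analyticOrderAt ((partProd D hD (Kz z) : EntFun) : ℂ → ℂ) z +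
        analyticOrderAt (fun y => Complex.exp (remLog D hD (Kz z) y)) z :=
    analyticOrderAt_mul ((partProd D hD (Kz z)).analyticAt z) (hexpAn z)
  have h2 : analyticOrderAt (fun y => Complex.exp (remLog D hD (Kz z) y)) z = 0 := by
    rw [(hexpAn z).analyticOrderAt_eq_zero]
    exact Complex.exp_ne_zero _
  rw [h1, h2, add_zero]
  have h3 : ∀ k, analyticOrderAt ((shellProd D hD k : EntFun) : ℂ → ℂ) z =
      if z ∈ shell D hD k then (D z : ℕ∞) else 0 := by
    intro k
    unfold shellProd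
    split_ifs with hk hz hz
    · rw [order_prod, Finset.sum_eq_single z]
      · rw [order_pow, order_coord, mul_one]
      · intro s _ hs
        rw [order_pow, order_coord_of_ne hs, mul_zero]
      · intro h
        exact absurd hz h
    · rw [order_prod, Finset.sum_eq_zero]
      intro s hs
      rw [order_pow, order_coord_of_ne, mul_zero]
      rintro rfl
      exact hz hs
    · rw [order_prod, Finset.sum_eq_single z]
      · rw [order_pow, order_mul, order_expFac, order_linFac (shell_ne_zero D hD hk hz),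
          if_pos rfl, add_zero, mul_one]
      · intro s hs' hs
        rw [order_pow, order_mul, order_expFac, order_linFac (shell_ne_zero D hD hk hs'),
          if_neg hs, add_zero, mul_zero]
      · intro h
        exact absurd hz h
    · rw [order_prod, Finset.sum_eq_zero]
      intro s hs
      rw [order_pow, order_mul, order_expFac, order_linFac (shell_ne_zero D hD hk hs),
        if_neg, add_zero, mul_zero]
      rintro rfl
      exact hz hs
  unfold partProd
  rw [order_prod, Finset.sum_congr rfl fun k _ => h3 k]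
  by_cases hDz : D z = 0
  · rw [hDz, Finset.sum_eq_zero]
    · rfl
    · intro k _
      rw [if_neg]
      intro h
      exact ((mem_shell D hD).mp h).1 hDz
  · rw [Finset.sum_eq_single ⌊‖z‖⌋₊]
    · rw [if_pos]
      exact (mem_shell D hD).mpr ⟨hDz, Nat.floor_le (norm_nonneg z), Nat.lt_floor_add_one _⟩
    · intro k _ hk
      rw [if_neg]
      intro h
      obtain ⟨-, h1, h2⟩ := (mem_shell D hD).mp h
      apply hk
      exact ((Nat.floor_eq_iff (norm_nonneg z)).mpr ⟨h1, h2⟩).symm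
    · intro h
      exfalso
      apply h
      rw [Finset.mem_range]
      have h5 : ⌊‖z‖⌋₊ ≤ ⌈2 * ‖z‖⌉₊ := by
        refine (Nat.floor_le_ceil _).trans (Nat.ceil_mono ?_)
        have := norm_nonneg z
        linarith
      simp only [hKz]
      omega

end

end Pool.Agent.H17

end

section

/-!
# Global lifts of entire curves in projective space
-/

open Topology Filter

namespace Pool.Agent.H17

open EntFun

/-- Two vectors representing the same point are proportional. -/
lemma mk_eq_mk_cross {N : ℕ} {v w : Fin (N + 1) → ℂ} {hv : v ≠ 0} {hw : w ≠ 0}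
    (h : Projectivization.mk ℂ v hv = Projectivization.mk ℂ w hw) :
    ∃ c : ℂ, c ≠ 0 ∧ ∀ j, v j = c * w j := by
  obtain ⟨a, ha⟩ := (Projectivization.mk_eq_mk_iff ℂ v w hv hw).mp h
  refine ⟨(a : ℂ), a.ne_zero, fun j => ?_⟩
  rw [← ha]
  rfl

/-- If `f` is analytic and `g` is analytic of the same finite order, then `f / g` is analytic and
does not vanish. -/
lemma exists_unit_quotient {f g : ℂ → ℂ} {z₀ : ℂ} (hf : AnalyticAt ℂ f z₀) (hg : AnalyticAt ℂ g z₀)
    {n : ℕ} (hfn : analyticOrderAt f z₀ = n) (hgn : analyticOrderAt g z₀ = n) :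
    ∃ q : ℂ → ℂ, AnalyticAt ℂ q z₀ ∧ q z₀ ≠ 0 ∧ ∀ᶠ z in 𝓝 z₀, f z = q z * g z := by
  obtain ⟨u, hu, hu0, hfu⟩ := hf.analyticOrderAt_eq_natCast.mp hfn
  obtain ⟨v, hv, hv0, hgv⟩ := hg.analyticOrderAt_eq_natCast.mp hgn
  refine ⟨fun z => u z / v z, hu.div hv hv0, div_ne_zero hu0 hv0, ?_⟩
  filter_upwards [hfu, hgv, hv.continuousAt.eventually_ne hv0] with z h1 h2 h3
  rw [h1, h2, smul_eq_mul, smul_eq_mul]
  field_simp

/-- **Global lifts.** Every holomorphic map `ℂ → ℙ^N` is given by entire functions without common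
zeros. -/
theorem exists_global_lift {N : ℕ} {f : ℂ → PN N} (hf : HolomorphicInto f Set.univ) :
    ∃ x : Fin (N + 1) → EntFun, ∀ z, ∃ h : (fun j => (x j : ℂ → ℂ) z) ≠ 0,
      f z = Projectivization.mk ℂ _ h := by
  classical
  choose φ hφa hφe using fun z₀ => hf z₀ (Set.mem_univ _)
  have hφj : ∀ z₀ j, AnalyticAt ℂ (fun z => φ z₀ z j) z₀ := fun z₀ j =>
    (analyticAt_pi_iff.mp (hφa z₀)) j
  -- comparison of lifts
  have hcmp : ∀ z₀, ∀ᶠ z in 𝓝 z₀, ∃ c : ℂ, c ≠ 0 ∧ ∀ j, φ z₀ z j = c * φ z z j := by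
    intro z₀
    filter_upwards [hφe z₀] with z hz
    obtain ⟨h1, h2⟩ := hz
    obtain ⟨h3, h4⟩ := (hφe z).self_of_nhds
    exact mk_eq_mk_cross (h2.symm.trans h4)
  have hφ0 : ∀ z₀, φ z₀ z₀ ≠ 0 := fun z₀ => (hφe z₀).self_of_nhds.1
  obtain ⟨j₀, hj₀⟩ : ∃ j₀, φ 0 0 j₀ ≠ 0 := by
    by_contra h
    push Not at h
    exact hφ0 0 (funext h)
  -- the coordinate `j₀` does not vanish identically near any point
  set A : Set ℂ := {z₀ | ∀ᶠ z in 𝓝 z₀, φ z₀ z j₀ = 0} with hA
  have hAopen : IsOpen A := by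
    rw [isOpen_iff_mem_nhds]
    intro z₀ hz₀
    have h1 : ∀ᶠ z in 𝓝 z₀, φ z z j₀ = 0 := by
      filter_upwards [hz₀, hcmp z₀] with z h1 h2
      obtain ⟨c, hc, h3⟩ := h2
      have := h3 j₀
      rw [h1] at this
      exact (mul_eq_zero.mp this.symm).resolve_left hc
    filter_upwards [h1.eventually_nhds] with z₁ h2
    filter_upwards [h2, hcmp z₁] with z h3 h4
    obtain ⟨c, hc, h5⟩ := h4
    rw [h5, h3, mul_zero]
  have hAclosed : IsClosed A := by
    rw [← isOpen_compl_iff, isOpen_iff_mem_nhds]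
    intro z₀ hz₀
    have h1 : ∀ᶠ z in 𝓝[≠] z₀, φ z₀ z j₀ ≠ 0 := by
      rcases (hφj z₀ j₀).eventually_eq_zero_or_eventually_ne_zero with h | h
      · exact absurd h hz₀
      · exact h
    have h2 : ∀ᶠ z in 𝓝 z₀, z ≠ z₀ → z ∈ Aᶜ := by
      have h3 := eventually_nhdsWithin_iff.mp h1
      filter_upwards [h3, hcmp z₀] with z h4 h5 hne
      obtain ⟨c, hc, h6⟩ := h5
      intro h7
      have h7' : ∀ᶠ y in 𝓝 z, φ z y j₀ = 0 := h7
      have h8 : φ z z j₀ = 0 := h7'.self_of_nhds
      apply h4 hne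
      rw [h6, h8, mul_zero]
    filter_upwards [h2] with z h3
    by_cases hz : z = z₀
    · rw [hz]; exact hz₀
    · exact h3 hz
  have hAempty : A = ∅ := by
    rcases isClopen_iff.mp ⟨hAclosed, hAopen⟩ with h | h
    · exact h
    · exfalso
      have h0 : (0 : ℂ) ∈ A := by rw [h]; trivial
      have h0' : ∀ᶠ y in 𝓝 (0 : ℂ), φ 0 y j₀ = 0 := h0
      exact hj₀ h0'.self_of_nhds
  have hne : ∀ z₀, ∀ᶠ z in 𝓝[≠] z₀, φ z₀ z j₀ ≠ 0 := by
    intro z₀
    rcases (hφj z₀ j₀).eventually_eq_zero_or_eventually_ne_zero with h | h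
    · have : z₀ ∈ A := h
      rw [hAempty] at this
      exact absurd this (Set.notMem_empty _)
    · exact h
  have hfin : ∀ z₀, analyticOrderAt (fun z => φ z₀ z j₀) z₀ ≠ ⊤ := by
    intro z₀ h
    rw [analyticOrderAt_eq_top] at h
    have : z₀ ∈ A := h
    rw [hAempty] at this
    exact absurd this (Set.notMem_empty _)
  set D : ℂ → ℕ := fun z => analyticOrderNatAt (fun y => φ z y j₀) z with hD
  have hDord : ∀ z, analyticOrderAt (fun y => φ z y j₀) z = D z := fun z =>
    (Nat.cast_analyticOrderNatAt (hfin z)).symm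
  have hDfin : ∀ R : ℝ, {z ∈ Metric.closedBall (0 : ℂ) R | D z ≠ 0}.Finite := by
    intro R
    by_contra hinf
    obtain ⟨y, -, hy⟩ := Set.Infinite.exists_accPt_of_subset_isCompact hinf
      (isCompact_closedBall (0 : ℂ) R) (fun z hz => hz.1)
    rw [accPt_iff_frequently_nhdsNE] at hy
    obtain ⟨z, hz1, hz2, hz3⟩ := (hy.and_eventually ((hne y).and
      ((hcmp y).filter_mono nhdsWithin_le_nhds))).exists
    obtain ⟨c, hc, h4⟩ := hz3
    apply hz1.2
    have h5 : φ z z j₀ ≠ 0 := by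
      intro h
      apply hz2
      rw [h4, h, mul_zero]
    have h6 := hDord z
    rw [(hφj z j₀).analyticOrderAt_eq_zero.mpr h5] at h6
    exact_mod_cast h6.symm
  obtain ⟨w, hw⟩ := exists_entire_with_orders D hDfin
  choose q hqa hq0 hqe using fun z₀ => exists_unit_quotient (w.analyticAt z₀) (hφj z₀ j₀) (hw z₀)
    (hDord z₀)
  set X : Fin (N + 1) → ℂ → ℂ := fun j z => q z z * φ z z j with hX
  have hXloc : ∀ z₀ j, X j =ᶠ[𝓝 z₀] fun z => q z₀ z * φ z₀ z j := by
    intro z₀ j
    have h1 := eventually_nhdsWithin_iff.mp (hne z₀)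
    filter_upwards [h1, hcmp z₀, hqe z₀] with z h2 h3 h4
    by_cases hz : z = z₀
    · rw [hz]
    · obtain ⟨c, hc, h5⟩ := h3
      have h6 := h2 hz
      have h7 : (w : ℂ → ℂ) z = q z z * φ z z j₀ := (hqe z).self_of_nhds
      have h8 : φ z z j₀ ≠ 0 := by
        intro h
        apply h6
        rw [h5, h, mul_zero]
      have h9 : q z₀ z * c = q z z := by
        apply mul_right_cancel₀ h8
        rw [← h7, h4, h5]
        ring
      simp only [hX]
      rw [h5, ← h9]
      ring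
  have hXdiff : ∀ j, Differentiable ℂ (X j) := by
    intro j z₀
    exact (hXloc z₀ j).differentiableAt_iff.mpr ((hqa z₀).mul (hφj z₀ j)).differentiableAt
  refine ⟨fun j => ⟨X j, hXdiff j⟩, fun z => ?_⟩
  obtain ⟨h1, h2⟩ := (hφe z).self_of_nhds
  have h3 : (fun j => X j z) = q z z • φ z z := by
    funext j
    rfl
  have h4 : (fun j => X j z) ≠ 0 := by
    rw [h3]
    exact smul_ne_zero (hq0 z) h1
  refine ⟨h4, ?_⟩
  rw [h2, Projectivization.mk_eq_mk_iff]
  refine ⟨(Units.mk0 (q z z) (hq0 z))⁻¹, ?_⟩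
  change (Units.mk0 (q z z) (hq0 z))⁻¹ • (fun j => X j z) = φ z z
  rw [h3, Units.smul_def, smul_smul]
  simp [hq0 z]

end Pool.Agent.H17

end
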