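import Pool.Agent.H43.TL2.M03
import Pool.Agent.H43.TL2.M08
import Pool.Agent.H43.TL2.M28

/-! The parts of this file: H13.CV.EllB, H13.CV.HomA, H17EF.Four, H13.CV.Lgt, H13.CV.CubD, H13.CV.CubA, H13.CV.CubX, H13.CV.CubB, H13.CV.CubI, H36.BP.ExtE, H62.Qe.TopQ, H92.GGL.CasWei, MQ.Ker, MQ2.EquP, MQ3.ThInd, SB.An.Defs, SB.An.Ex, SB.An.Un. -/

section

/-!
# CV EllB: the Weierstrass normal form

`normal_form`: `v₁ = v - (a u + b) / 2`: `v₁² = c u³ + (d + a² / 4) u² + (e + a b / 2) u + (f + b² / 4)`.  Let `s` with `c s³ = 4` (`IsAlgClosed`), `r = - (d + a² / 4) / (3 c)`, `u₁ = (u - r) / s`: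
`v₁² = 4 u₁³ - α u₁ - β` for some `α, β`.  `ℂ(u₁, v₁) = ℂ(u, v)`, `ℂ(u₁) = ℂ(u)`, `v₁ ∉ ℂ(u)`.
`singular_rational`: let `α³ = 27 β²`.  There is `ρ` with `12 ρ² = α`, `- 8 ρ³ = β` (take `ρ² = α / 12`; then `(8 ρ³)² = α³ / 27 = β²`, change the sign of `ρ` if necessary).  Then
`4 u³ - α u - β = 4 (u - ρ)² (u + 2 ρ)`.  `u ≠ ρ` (`u` is transcendental).  `t = v / (u - ρ)`: `t² = 4 (u + 2 ρ)`, so `u = t² / 4 - 2 ρ ∈ ℂ(t)` and `v = t (u - ρ) ∈ ℂ(t)`.
-/

set_option autoImplicit false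

noncomputable section

namespace Pool.Agent.H13.CV

variable {K : Type} [Field K] [Algebra ℂ K]

theorem normal_form {u v : K} {c a d b e f : ℂ} (hc : c ≠ 0)
    (h : v ^ 2 = algebraMap ℂ K c * u ^ 3 + algebraMap ℂ K a * (u * v) + algebraMap ℂ K d * u ^ 2 + algebraMap ℂ K b * v +
      algebraMap ℂ K e * u + algebraMap ℂ K f) (hu : Transcendental ℂ u) (huv : IntermediateField.adjoin ℂ {u, v} = ⊤) (hvu : v ∉ IntermediateField.adjoin ℂ {u}) :
    ∃ (u' v' : K) (α β : ℂ), v' ^ 2 = 4 * u' ^ 3 - algebraMap ℂ K α * u' - algebraMap ℂ K β ∧ Transcendental ℂ u' ∧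
      IntermediateField.adjoin ℂ {u', v'} = ⊤ ∧ v' ∉ IntermediateField.adjoin ℂ {u'} := by
  obtain ⟨s, hs⟩ := IsAlgClosed.exists_pow_nat_eq (4 / c) (n := 3) (by norm_num)
  have hs0 : s ≠ 0 := by
    rintro rfl
    have : (4 : ℂ) / c ≠ 0 := div_ne_zero (by norm_num) hc
    apply this
    rw [← hs]
    norm_num
  have hcs : c * s ^ 3 = 4 := by
    rw [hs]
    field_simp
  set r : ℂ := -(d + a ^ 2 / 4) / (3 * c) with hr
  have hr' : 3 * c * r = -(d + a ^ 2 / 4) := by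
    rw [hr]
    field_simp
  haveI : CharZero K := charZero_of_injective_algebraMap (algebraMap ℂ K).injective
  set C := algebraMap ℂ K with hC
  have c2 : C 2 = 2 := map_ofNat C 2
  have c3 : C 3 = 3 := map_ofNat C 3
  have c4 : C 4 = 4 := map_ofNat C 4
  have hCs0 : C s ≠ 0 := by
    rw [hC]
    exact (map_ne_zero (algebraMap ℂ K)).2 hs0
  have hcsK : C c * C s ^ 3 = 4 := by
    rw [← map_pow, ← map_mul, hcs]
    exact map_ofNat C 4
  have hrK : 3 * C c * C r = -(C d + C a ^ 2 / 4) := by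
    have := congrArg C hr'
    simpa [c2, c3, c4] using this
  set u' : K := (u - C r) / C s with hu'
  have hu2 : u = C s * u' + C r := by
    rw [hu']
    field_simp
    ring
  set v' : K := v - (C a * u + C b) / 2 with hv'
  have hv2 : v = v' + (C a * u + C b) / 2 := by
    rw [hv']
    ring
  have hmem : ∀ (L : IntermediateField ℂ K) (z : ℂ), C z ∈ L := fun L z => L.algebraMap_mem z
  have h2mem : ∀ (L : IntermediateField ℂ K), (2 : K) ∈ L := fun L => by
    have := hmem L 2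
    rwa [hC, map_ofNat] at this
  have hvu2 : ∀ L : IntermediateField ℂ K, u ∈ L → v' ∈ L → v ∈ L := fun L h1 h2 => by
    rw [hv2]
    exact L.add_mem h2 (L.div_mem (L.add_mem (L.mul_mem (hmem L a) h1) (hmem L b)) (h2mem L))
  have huL : ∀ L : IntermediateField ℂ K, u' ∈ L → u ∈ L := fun L h1 => by
    rw [hu2]
    exact L.add_mem (L.mul_mem (hmem L s) h1) (hmem L r)
  refine ⟨u', v', 3 * c * s * r ^ 2 - (e + a * b / 2) * s,
    -(c * r ^ 3 + (d + a ^ 2 / 4) * r ^ 2 + (e + a * b / 2) * r + (f + b ^ 2 / 4)), ?_, ?_, ?_, ?_⟩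
  · have e1 : v' ^ 2 = C c * u ^ 3 + (C d + C a ^ 2 / 4) * u ^ 2 + (C e + C a * C b / 2) * u + (C f + C b ^ 2 / 4) := by
      rw [hv']
      linear_combination h
    have e2 : C (3 * c * s * r ^ 2 - (e + a * b / 2) * s) = 3 * C c * C s * C r ^ 2 - (C e + C a * C b / 2) * C s := by
      simp [c2, c3]
    have e3 : C (-(c * r ^ 3 + (d + a ^ 2 / 4) * r ^ 2 + (e + a * b / 2) * r + (f + b ^ 2 / 4))) =
        -(C c * C r ^ 3 + (C d + C a ^ 2 / 4) * C r ^ 2 + (C e + C a * C b / 2) * C r + (C f + C b ^ 2 / 4)) := by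
      simp [c2, c4]
    rw [e2, e3, e1, hu2]
    linear_combination u' ^ 3 * hcsK + (C s ^ 2 * u' ^ 2 + 2 * C s * C r * u') * hrK
  · intro hal
    apply hu
    rw [hu2]
    exact ((isAlgebraic_algebraMap s).mul hal).add (isAlgebraic_algebraMap r)
  · rw [eq_top_iff, ← huv, IntermediateField.adjoin_le_iff]
    have m1 : u' ∈ IntermediateField.adjoin ℂ {u', v'} := IntermediateField.subset_adjoin ℂ _ (by simp)
    have m2 : v' ∈ IntermediateField.adjoin ℂ {u', v'} := IntermediateField.subset_adjoin ℂ _ (by simp)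
    rintro z hz
    rcases hz with rfl | hz
    · exact huL _ m1
    · rw [Set.mem_singleton_iff] at hz
      rw [hz]
      exact hvu2 _ (huL _ m1) m2
  · intro hv3
    apply hvu
    have m1 : u ∈ IntermediateField.adjoin ℂ {u} := IntermediateField.mem_adjoin_simple_self ℂ u
    have m2 : u' ∈ IntermediateField.adjoin ℂ {u} := by
      rw [hu']
      exact div_mem (sub_mem m1 (hmem _ r)) (hmem _ s)
    have m3 : IntermediateField.adjoin ℂ {u'} ≤ IntermediateField.adjoin ℂ {u} := by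
      rw [IntermediateField.adjoin_simple_le_iff]
      exact m2
    exact hvu2 _ m1 (m3 hv3)

theorem singular_rational {u v : K} {α β : ℂ} (h : v ^ 2 = 4 * u ^ 3 - algebraMap ℂ K α * u - algebraMap ℂ K β) (hu : Transcendental ℂ u)
    (huv : IntermediateField.adjoin ℂ {u, v} = ⊤) (hd : α ^ 3 = 27 * β ^ 2) : ∃ t : K, IntermediateField.adjoin ℂ {t} = ⊤ := by
  obtain ⟨ρ, h1, h2⟩ : ∃ ρ : ℂ, 12 * ρ ^ 2 = α ∧ -8 * ρ ^ 3 = β := by
    obtain ⟨ρ, hρ⟩ := IsAlgClosed.exists_pow_nat_eq (α / 12) (n := 2) (by norm_num)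
    have h12 : 12 * ρ ^ 2 = α := by
      rw [hρ]
      ring
    have h3 : (8 * ρ ^ 3 - β) * (8 * ρ ^ 3 + β) = 0 := by
      have : 27 * ((8 * ρ ^ 3 - β) * (8 * ρ ^ 3 + β)) = 0 := by
        have e : α ^ 3 = (12 * ρ ^ 2) ^ 3 := by rw [h12]
        rw [hd] at e
        linear_combination -e
      exact (mul_eq_zero.1 this).resolve_left (by norm_num)
    rcases mul_eq_zero.1 h3 with h4 | h4
    · exact ⟨-ρ, by linear_combination h12, by linear_combination h4⟩
    · exact ⟨ρ, h12, by linear_combination -h4⟩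
  haveI : CharZero K := charZero_of_injective_algebraMap (algebraMap ℂ K).injective
  set C := algebraMap ℂ K with hC
  have c12 : C 12 = 12 := map_ofNat C 12
  have c8 : C 8 = 8 := map_ofNat C 8
  have e1 : C α = 12 * C ρ ^ 2 := by
    rw [← h1]
    simp [c12]
  have e2 : C β = -8 * C ρ ^ 3 := by
    rw [← h2]
    simp [c8]
  have hne : u - C ρ ≠ 0 := by
    intro h0
    apply hu
    rw [sub_eq_zero.1 h0]
    exact isAlgebraic_algebraMap ρ
  set t : K := v / (u - C ρ) with ht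
  have hvt : v = t * (u - C ρ) := by
    rw [ht]
    field_simp
  have ht2 : t ^ 2 = 4 * (u + 2 * C ρ) := by
    have h5 : (u - C ρ) ^ 2 * (t ^ 2 - 4 * (u + 2 * C ρ)) = 0 := by
      rw [e1, e2, hvt] at h
      linear_combination h
    exact sub_eq_zero.1 ((mul_eq_zero.1 h5).resolve_left (pow_ne_zero 2 hne))
  have hut : u = t ^ 2 / 4 - 2 * C ρ := by
    rw [ht2]
    ring
  refine ⟨t, ?_⟩
  rw [eq_top_iff, ← huv, IntermediateField.adjoin_le_iff]
  have m1 : t ∈ IntermediateField.adjoin ℂ {t} := IntermediateField.mem_adjoin_simple_self ℂ t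
  have hmem : ∀ z : ℂ, C z ∈ IntermediateField.adjoin ℂ {t} := fun z => (IntermediateField.adjoin ℂ {t}).algebraMap_mem z
  have m4 : (4 : K) ∈ IntermediateField.adjoin ℂ {t} := by
    have := hmem 4
    rwa [hC, map_ofNat] at this
  have m2 : (2 : K) ∈ IntermediateField.adjoin ℂ {t} := by
    have := hmem 2
    rwa [hC, map_ofNat] at this
  have mu : u ∈ IntermediateField.adjoin ℂ {t} := by
    rw [hut]
    exact sub_mem (div_mem (pow_mem m1 2) m4) (mul_mem m2 (hmem ρ))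
  have mv : v ∈ IntermediateField.adjoin ℂ {t} := by
    rw [hvt]
    exact mul_mem m1 (sub_mem mu (hmem ρ))
  rintro z hz
  rcases hz with rfl | hz
  · exact mu
  · rw [Set.mem_singleton_iff] at hz
    rw [hz]
    exact mv

end Pool.Agent.H13.CV

end
end

section

/-!
# CV HomA: the holomorphic map given by entire functions

For `z₀ : ℂ` let `k` be the least order of the `a i` at `z₀` (finite, as some `a j ≠ 0`: `order_ne_top`), `a i = coord z₀ ^ k * c i` with entire `c i` (`exists_coord_mul`, induction on `k`), not all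
`c i (z₀) = 0`.  `f z₀` is the point `(c i (z₀))_i`.  Near `z₀`, for `z ≠ z₀`, `(a i (z))_i = (z - z₀) ^ k (c i (z))_i ≠ 0`, and the representation at `z` (`k' , c'`) has `a i (z) = 0` for all `i` unless `k' = 0`; so
`k' = 0`, `c' = a` and `f z = [a i (z)] = [c i (z)]`.  So `f` is holomorphic at `z₀` with lift `z ↦ (c i (z))_i`.
-/

set_option autoImplicit false

open Topology Filter
open Pool.Agent.H17 Pool.Agent.H17.EntFun

noncomputable section

namespace Pool.Agent.H13.CV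

private lemma exists_decomp {N : ℕ} (z₀ : ℂ) : ∀ (n : ℕ) (a : Fin (N + 1) → EntFun) (j : Fin (N + 1)), a j ≠ 0 →
    analyticOrderAt (a j : ℂ → ℂ) z₀ = n →
    ∃ (k : ℕ) (c : Fin (N + 1) → EntFun), (fun i => (c i : ℂ → ℂ) z₀) ≠ 0 ∧ ∀ i, a i = coord z₀ ^ k * c i := by
  intro n
  induction n using Nat.strong_induction_on with
  | _ n ih =>
    intro a j hj hn
    by_cases h : (fun i => (a i : ℂ → ℂ) z₀) = 0
    · have h1 : ∀ i, ∃ g : EntFun, a i = coord z₀ * g := fun i => exists_coord_mul (congrFun h i)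
      choose g hg using h1
      have hgj : g j ≠ 0 := by
        intro h2
        apply hj
        rw [hg j, h2, mul_zero]
      obtain ⟨n', hn'⟩ : ∃ n' : ℕ, analyticOrderAt (g j : ℂ → ℂ) z₀ = n' :=
        ⟨_, (Nat.cast_analyticOrderNatAt (order_ne_top hgj z₀)).symm⟩
      have hlt : n' < n := by
        rw [hg j, order_mul, order_coord, hn'] at hn
        have : 1 + n' = n := by exact_mod_cast hn
        omega
      obtain ⟨k, c, hc, he⟩ := ih n' hlt g j hgj hn'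
      refine ⟨k + 1, c, hc, fun i => ?_⟩
      rw [hg i, he i, pow_succ', mul_assoc]
    · exact ⟨0, a, h, fun i => by rw [pow_zero, one_mul]⟩

theorem exists_map {N : ℕ} (a : Fin (N + 1) → EntFun) (ha : ∃ i, a i ≠ 0) :
    ∃ f : ℂ → PN N, HolomorphicInto f Set.univ ∧ ∀ z₀ : ℂ, ∃ (k : ℕ) (c : Fin (N + 1) → EntFun) (h : (fun i => (c i : ℂ → ℂ) z₀) ≠ 0),
      (∀ i, a i = coord z₀ ^ k * c i) ∧ f z₀ = Projectivization.mk ℂ _ h := by
  obtain ⟨j, hj⟩ := ha
  have key : ∀ z₀ : ℂ, ∃ (k : ℕ) (c : Fin (N + 1) → EntFun), (fun i => (c i : ℂ → ℂ) z₀) ≠ 0 ∧ ∀ i, a i = coord z₀ ^ k * c i :=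
    fun z₀ => exists_decomp z₀ _ a j hj (Nat.cast_analyticOrderNatAt (order_ne_top hj z₀)).symm
  choose k c hc he using key
  refine ⟨fun z => Projectivization.mk ℂ (fun i => (c z i : ℂ → ℂ) z) (hc z), ?_,
    fun z₀ => ⟨k z₀, c z₀, hc z₀, he z₀, rfl⟩⟩
  intro z₀ _
  refine ⟨fun z i => (c z₀ i : ℂ → ℂ) z, ?_, ?_⟩
  · exact analyticAt_pi_iff.mpr fun i => (c z₀ i).analyticAt z₀
  · obtain ⟨i₀, hi₀⟩ : ∃ i₀, (c z₀ i₀ : ℂ → ℂ) z₀ ≠ 0 := by
      by_contra h
      push Not at h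
      exact hc z₀ (funext h)
    have hev : ∀ᶠ z in 𝓝 z₀, (c z₀ i₀ : ℂ → ℂ) z ≠ 0 :=
      ((c z₀ i₀).diff z₀).continuousAt.eventually_ne hi₀
    filter_upwards [hev] with z hz
    have h : (fun i => (c z₀ i : ℂ → ℂ) z) ≠ 0 := fun h1 => hz (congrFun h1 i₀)
    refine ⟨h, ?_⟩
    by_cases hzz : z = z₀
    · subst hzz
      rfl
    · have hsub : z - z₀ ≠ 0 := sub_ne_zero.2 hzz
      have h1 : ∀ i, (a i : ℂ → ℂ) z = (z - z₀) ^ k z₀ * (c z₀ i : ℂ → ℂ) z := by
        intro i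
        have h2 := congrArg (fun g : EntFun => ev z g) (he z₀ i)
        simpa using h2
      have h3 : ∀ i, (a i : ℂ → ℂ) z = (z - z) ^ k z * (c z i : ℂ → ℂ) z := by
        intro i
        have h2 := congrArg (fun g : EntFun => ev z g) (he z i)
        simpa using h2
      have hk : k z = 0 := by
        by_contra hk
        have h4 := h3 i₀
        rw [sub_self, zero_pow hk, zero_mul, h1 i₀] at h4
        exact mul_ne_zero (pow_ne_zero _ hsub) hz h4
      have h5 : ∀ i, (c z i : ℂ → ℂ) z = (z - z₀) ^ k z₀ * (c z₀ i : ℂ → ℂ) z := by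
        intro i
        rw [← h1 i, h3 i, hk, pow_zero, one_mul]
      rw [Projectivization.mk_eq_mk_iff]
      refine ⟨Units.mk0 ((z - z₀) ^ k z₀) (pow_ne_zero _ hsub), ?_⟩
      funext i
      rw [h5 i]
      rfl

end Pool.Agent.H13.CV

end
end

section

/-!
# EF Four: the four properties of the Green–Griffiths–Lang conjecture
-/

set_option autoImplicit false

open MvPolynomial

noncomputable section

namespace Pool.Agent.H17EF

variable {N : ℕ}

theorem two_of_basis {K : Type} [Field K] [Algebra ℂ K] {w : ℕ} (h : ∃ z : Fin 2 → K, IsTranscendenceBasis ℂ z)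
    (hw : ∃ z : Fin w → K, IsTranscendenceBasis ℂ z) : w = 2 := by
  obtain ⟨z, hz⟩ := h
  obtain ⟨z', hz'⟩ := hw
  have h1 := hz.lift_cardinalMk_eq_trdeg
  have h2 := hz'.lift_cardinalMk_eq_trdeg
  rw [← h1] at h2
  have h3 : ((w : ℕ) : Cardinal) = ((2 : ℕ) : Cardinal) := by simpa using h2
  exact_mod_cast h3

end Pool.Agent.H17EF

end
end

section

/-!
# CV Lgt: pluricanonical forms

`pole_mul_pow`: `ω = g • η`, `0 ≤ ord (h * g ^ 1)`; the same `g`, `η`: `f * h ^ m * g ^ m = f * (h * g) ^ m`.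
`lgt_of_forms`: in the definition of `IsLogGeneralType` take `r = 1`, `f = ![f₀, f₁]`.  `K` is finite over `ℂ(f₁ / f₀)` (`hK.fin`), so it is algebraic over `ℂ(f₀ / f₀, f₁ / f₀)`.
-/

set_option autoImplicit false

open Pool.Agent.H23.Fano (PrimeDivisorOver Form regularForms)
open Pool.Agent.H17LG.Variety (PoleAtMost IsLogGeneralType)

noncomputable section

namespace Pool.Agent.H13.CV

variable {K : Type} [Field K] [Algebra ℂ K]

theorem pole_mul_pow {E : Place K} {h f : K} {ω : Form K 1} {m p : ℕ} (hh : PoleAtMost 0 E 1 h ω) (hf : 0 ≤ E.ord f + p) : PoleAtMost p E m (f * h ^ m) ω := by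
  obtain ⟨g, η, hη, hω, h0⟩ := hh
  refine ⟨g, η, hη, hω, ?_⟩
  have h1 : (0 : WithTop ℤ) ≤ E.ord (h * g) := by
    simpa using h0
  have h2 : f * h ^ m * g ^ m = f * (h * g) ^ m := by
    rw [mul_pow, mul_assoc]
  have h3 : (0 : WithTop ℤ) ≤ E.ord ((h * g) ^ m) := by
    rw [E.ord.map_pow]
    exact nsmul_nonneg h1 m
  rw [h2, E.ord.map_mul]
  calc (0 : WithTop ℤ) ≤ E.ord f + p := hf
    _ = E.ord f + 0 + p := by rw [add_zero]
    _ ≤ E.ord f + E.ord ((h * g) ^ m) + p := by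
      gcongr

/-- two pluricanonical forms with a non-constant ratio -/
theorem lgt_of_forms (hK : CurveField K) {B : Place K → Prop} {ω : Form K 1} (hω : ω ≠ 0) {m : ℕ} (hm : 1 ≤ m) {f₀ f₁ : K} (hf₀ : f₀ ≠ 0)
    (htr : Transcendental ℂ (f₁ / f₀)) (h₀ : ∀ E, (¬ B E → PoleAtMost 0 E m f₀ ω) ∧ (B E → PoleAtMost m E m f₀ ω))
    (h₁ : ∀ E, (¬ B E → PoleAtMost 0 E m f₁ ω) ∧ (B E → PoleAtMost m E m f₁ ω)) : IsLogGeneralType B := by
  refine ⟨m, hm, ω, hω, 1, ![f₀, f₁], by simpa using hf₀, ?_, ?_⟩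
  · intro i E
    fin_cases i
    · exact h₀ E
    · exact h₁ E
  · have he : IntermediateField.adjoin ℂ (Set.range fun i : Fin (1 + 1) => (![f₀, f₁] : Fin 2 → K) i / (![f₀, f₁] : Fin 2 → K) 0)
        = IntermediateField.adjoin ℂ {f₁ / f₀} := by
      apply le_antisymm
      · rw [IntermediateField.adjoin_le_iff]
        rintro _ ⟨i, rfl⟩
        fin_cases i
        · have : (f₀ / f₀ : K) ∈ IntermediateField.adjoin ℂ {f₁ / f₀} := by
            rw [div_self hf₀]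
            exact one_mem _
          simpa using this
        · have : (f₁ / f₀ : K) ∈ IntermediateField.adjoin ℂ {f₁ / f₀} :=
            IntermediateField.subset_adjoin _ _ rfl
          simpa using this
      · apply IntermediateField.adjoin.mono
        rintro _ rfl
        exact ⟨1, by simp⟩
    rw [he]
    have := hK.fin _ htr
    exact Algebra.IsAlgebraic.of_finite _ _

end Pool.Agent.H13.CV

end
end

section

/-!
# CV CubD: the cone of a Weierstrass cubic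

`cub α β x = x₁² x₂ - 4 x₀³ + α x₀ x₂² + β x₂³`, its gradient `gr`, the doubling map `dbl` (of degree `4`), the cone `Cub α β` (without `0`), the vector product `cr x v`.
-/

set_option autoImplicit false

open Topology Filter Metric
open Pool.Agent.H36.BP

noncomputable section

namespace Pool.Agent.H13.CV

/-- the form -/
def cub (α β : ℂ) (x : Fin 3 → ℂ) : ℂ := x 1 ^ 2 * x 2 - 4 * x 0 ^ 3 + α * x 0 * x 2 ^ 2 + β * x 2 ^ 3

/-- its gradient -/
def gr (α β : ℂ) (x : Fin 3 → ℂ) : Fin 3 → ℂ :=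
  ![-12 * x 0 ^ 2 + α * x 2 ^ 2, 2 * x 1 * x 2, x 1 ^ 2 + 2 * α * x 0 * x 2 + 3 * β * x 2 ^ 2]

/-- the vector product -/
def cr (x v : Fin 3 → ℂ) : Fin 3 → ℂ := ![x 1 * v 2 - x 2 * v 1, x 2 * v 0 - x 0 * v 2, x 0 * v 1 - x 1 * v 0]

/-- the doubling map -/
def dbl (α β : ℂ) (x : Fin 3 → ℂ) : Fin 3 → ℂ :=
  ![x 1 * (8 * x 0 * x 1 ^ 2 + 24 * α * x 0 ^ 2 * x 2 + 72 * β * x 0 * x 2 ^ 2 + 2 * α ^ 2 * x 2 ^ 3),
    4 * x 1 ^ 4 - 12 * α * x 0 * x 1 ^ 2 * x 2 - 72 * β * x 1 ^ 2 * x 2 ^ 2 - 36 * α ^ 2 * x 0 ^ 2 * x 2 ^ 2 - 108 * α * β * x 0 * x 2 ^ 3 + (α ^ 3 - 108 * β ^ 2) * x 2 ^ 4,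
    32 * x 1 ^ 3 * x 2]

/-- the cone of the cubic, without `0` -/
def Cub (α β : ℂ) : Set (EN 2) := {x | x ≠ 0 ∧ cub α β x.ofLp = 0}

end Pool.Agent.H13.CV

end
end

section

/-!
# CV CubA: algebra of the doubling map

`gr_ne`: let `cub x = 0`, `gr x = 0`, `x ≠ 0`.  If `x 2 = 0`: `x 0 = 0` (`cub`), `x 1 = 0` (`gr x 2`): contradiction.  If `x 2 ≠ 0`: `x 1 = 0` (`gr x 1`); `u = x 0 / x 2`: `12 u² = α` (`gr x 0`),
`4 u³ - α u - β = 0` (`cub`), so `- 8 u³ = β` and `α³ = 1728 u⁶ = 27 β²`: contradiction.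

`cub_dbl`: the polynomial `cub (dbl x)` (degree `12`) is a multiple of `cub x`: divide by `cub x` as a polynomial in `x 0` (leading coefficient `-4`) with a small program, and use
`linear_combination (quotient) * h`.  (In the affine coordinates `u = x 0 / x 2`, `v = x 1 / x 2`, `v² = 4 u³ - α u - β`: `U = -2 u + (12 u² - α)² / (16 v²) = (4 u v² + 12 α u² + 36 β u + α²) / (16 v²)`,
`V = - v - (12 u² - α) (U - u) / (2 v)`, `V = (4 v⁴ - 12 α u v² - 72 β v² - 36 α² u² - 108 α β u + α³ - 108 β²) / (32 v³)`, so an alternative is: if `x 1 * x 2 ≠ 0` go to affine coordinates and use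
`field_simp`; if `x 1 = 0` or `x 2 = 0` check directly.)

`dbl_ne`: let `dbl x = 0`, `cub x = 0`, `x ≠ 0`.  `x 1 ^ 3 * x 2 = 0`.  If `x 2 = 0` then `x 0 = 0` by `cub`, and `4 x₁⁴ = 0`, so `x = 0`.  If `x 2 ≠ 0`, `x 1 = 0`: with `u = x 0 / x 2`: `4 u³ = α u + β` and
`- 36 α² u² - 108 α β u + α³ - 108 β² = 0`; but `(12 u² - α)³ = 36 α² u² + 108 α β u - α³ + 108 β²` when `4 u³ = α u + β`, so `12 u² = α`, and then `gr x = 0`: contradiction to `gr_ne`.
-/

set_option autoImplicit false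

open Topology Filter Metric
open Pool.Agent.H36.BP

noncomputable section

namespace Pool.Agent.H13.CV

theorem gr_ne {α β : ℂ} (hd : α ^ 3 ≠ 27 * β ^ 2) {x : Fin 3 → ℂ} (hx : x ≠ 0) (hc : cub α β x = 0) : gr α β x ≠ 0 := by
  intro hg
  have h0 : -12 * x 0 ^ 2 + α * x 2 ^ 2 = 0 := by simpa [gr] using congrFun hg 0
  have h1 : 2 * x 1 * x 2 = 0 := by simpa [gr] using congrFun hg 1
  have h2 : x 1 ^ 2 + 2 * α * x 0 * x 2 + 3 * β * x 2 ^ 2 = 0 := by simpa [gr] using congrFun hg 2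
  unfold cub at hc
  by_cases hx2 : x 2 = 0
  · rw [hx2] at h0 h2 hc
    have h3 : x 0 = 0 := by
      have : x 0 ^ 2 = 0 := by linear_combination (-1 / 12 : ℂ) * h0
      exact pow_eq_zero_iff (by norm_num) |>.1 this
    have h4 : x 1 = 0 := by
      have : x 1 ^ 2 = 0 := by linear_combination h2
      exact pow_eq_zero_iff (by norm_num) |>.1 this
    apply hx
    funext i
    fin_cases i
    · exact h3
    · exact h4
    · exact hx2
  · have hx1 : x 1 = 0 := by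
      rcases mul_eq_zero.1 h1 with h | h
      · exact (mul_eq_zero.1 h).resolve_left two_ne_zero
      · exact absurd h hx2
    rw [hx1] at hc
    apply hd
    have h5 : -8 * x 0 ^ 3 = β * x 2 ^ 3 := by linear_combination -hc + x 0 * h0
    have h6 : 12 * x 0 ^ 2 = α * x 2 ^ 2 := by linear_combination -h0
    have h7 : (α ^ 3 - 27 * β ^ 2) * x 2 ^ 6 = 0 := by
      have e1 : (12 * x 0 ^ 2) ^ 3 = (α * x 2 ^ 2) ^ 3 := by rw [h6]
      have e2 : (-8 * x 0 ^ 3) ^ 2 = (β * x 2 ^ 3) ^ 2 := by rw [h5]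
      linear_combination -e1 + 27 * e2
    rcases mul_eq_zero.1 h7 with h | h
    · linear_combination h
    · exact absurd (pow_eq_zero_iff (by norm_num) |>.1 h) hx2

theorem cub_dbl {α β : ℂ} {x : Fin 3 → ℂ} (hc : cub α β x = 0) : cub α β (dbl α β x) = 0 := by
  unfold cub at hc
  have e0 : dbl α β x 0 = x 1 * (8 * x 0 * x 1 ^ 2 + 24 * α * x 0 ^ 2 * x 2 + 72 * β * x 0 * x 2 ^ 2 + 2 * α ^ 2 * x 2 ^ 3) := rfl
  have e1 : dbl α β x 1 = 4 * x 1 ^ 4 - 12 * α * x 0 * x 1 ^ 2 * x 2 - 72 * β * x 1 ^ 2 * x 2 ^ 2 - 36 * α ^ 2 * x 0 ^ 2 * x 2 ^ 2 -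
      108 * α * β * x 0 * x 2 ^ 3 + (α ^ 3 - 108 * β ^ 2) * x 2 ^ 4 := rfl
  have e2 : dbl α β x 2 = 32 * x 1 ^ 3 * x 2 := rfl
  unfold cub
  rw [e0, e1, e2]
  linear_combination ((13824) * x 0 ^ 3 * x 1 ^ 3 * x 2 ^ 3 * α ^ 3 + (13824) * x 0 ^ 2 * x 1 ^ 5 * x 2 ^ 2 * α ^ 2 +
    (124416) * x 0 ^ 2 * x 1 ^ 3 * x 2 ^ 4 * α ^ 2 * β + (4608) * x 0 * x 1 ^ 7 * x 2 * α + (82944) * x 0 * x 1 ^ 5 * x 2 ^ 3 * α * β +
    (-3456) * x 0 * x 1 ^ 3 * x 2 ^ 5 * α ^ 4 + (373248) * x 0 * x 1 ^ 3 * x 2 ^ 5 * α * β ^ 2 + (512) * x 1 ^ 9 +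
    (13824) * x 1 ^ 7 * x 2 ^ 2 * β + (2304) * x 1 ^ 5 * x 2 ^ 4 * α ^ 3 + (124416) * x 1 ^ 5 * x 2 ^ 4 * β ^ 2 +
    (-6912) * x 1 ^ 3 * x 2 ^ 6 * α ^ 3 * β + (373248) * x 1 ^ 3 * x 2 ^ 6 * β ^ 3) * hc

theorem dbl_ne {α β : ℂ} (hd : α ^ 3 ≠ 27 * β ^ 2) {x : Fin 3 → ℂ} (hx : x ≠ 0) (hc : cub α β x = 0) : dbl α β x ≠ 0 := by
  intro h
  have e1 : 4 * x 1 ^ 4 - 12 * α * x 0 * x 1 ^ 2 * x 2 - 72 * β * x 1 ^ 2 * x 2 ^ 2 - 36 * α ^ 2 * x 0 ^ 2 * x 2 ^ 2 -
      108 * α * β * x 0 * x 2 ^ 3 + (α ^ 3 - 108 * β ^ 2) * x 2 ^ 4 = 0 := congrFun h 1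
  have e2 : 32 * x 1 ^ 3 * x 2 = 0 := congrFun h 2
  have hg := gr_ne hd hx hc
  unfold cub at hc
  by_cases hx2 : x 2 = 0
  · rw [hx2] at e1 hc
    have h3 : x 0 = 0 := by
      have : x 0 ^ 3 = 0 := by linear_combination (-1 / 4 : ℂ) * hc
      exact pow_eq_zero_iff (by norm_num) |>.1 this
    have h4 : x 1 = 0 := by
      have : x 1 ^ 4 = 0 := by linear_combination (1 / 4 : ℂ) * e1
      exact pow_eq_zero_iff (by norm_num) |>.1 this
    apply hx
    funext i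
    fin_cases i
    · exact h3
    · exact h4
    · exact hx2
  · have hx1 : x 1 = 0 := by
      rcases mul_eq_zero.1 e2 with h | h
      · exact pow_eq_zero_iff (by norm_num) |>.1 ((mul_eq_zero.1 h).resolve_left (by norm_num))
      · exact absurd h hx2
    rw [hx1] at e1 hc
    have h5 : - 36 * α ^ 2 * x 0 ^ 2 - 108 * α * β * x 0 * x 2 + (α ^ 3 - 108 * β ^ 2) * x 2 ^ 2 = 0 := by
      have : x 2 ^ 2 * (- 36 * α ^ 2 * x 0 ^ 2 - 108 * α * β * x 0 * x 2 + (α ^ 3 - 108 * β ^ 2) * x 2 ^ 2) = 0 := by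
        linear_combination e1
      exact (mul_eq_zero.1 this).resolve_left (pow_ne_zero _ hx2)
    have h6 : (12 * x 0 ^ 2 - α * x 2 ^ 2) ^ 3 = 0 := by
      have hc' : 4 * x 0 ^ 3 = α * x 0 * x 2 ^ 2 + β * x 2 ^ 3 := by linear_combination -hc
      linear_combination (432 * x 0 ^ 3 + 108 * (α * x 0 * x 2 ^ 2 + β * x 2 ^ 3) - 108 * α * x 0 * x 2 ^ 2) * hc' - x 2 ^ 4 * h5
    have h7 : 12 * x 0 ^ 2 - α * x 2 ^ 2 = 0 := pow_eq_zero_iff (by norm_num) |>.1 h6
    apply hg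
    have h8 : 2 * α * x 0 * x 2 + 3 * β * x 2 ^ 2 = 0 := by
      have : x 2 * (2 * α * x 0 * x 2 + 3 * β * x 2 ^ 2) = 0 := by
        linear_combination 3 * hc + x 0 * h7
      exact (mul_eq_zero.1 this).resolve_left hx2
    funext i
    fin_cases i
    · change -12 * x 0 ^ 2 + α * x 2 ^ 2 = 0
      linear_combination -h7
    · change 2 * x 1 * x 2 = 0
      rw [hx1]; ring
    · change x 1 ^ 2 + 2 * α * x 0 * x 2 + 3 * β * x 2 ^ 2 = 0
      rw [hx1]
      linear_combination h8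

end Pool.Agent.H13.CV

end
end

section

/-!
# CV CubX: the derivative of the doubling map

`deriv_affine`: for complex numbers with `v² = 4 u³ - α u - β`, `v ≠ 0`, `u' = 2 l v`, `v' = l (12 u² - α)`: the derivatives of `U`, `V` in the direction `(u', v')` are `4 l V` and `2 l (12 U² - α)`.
Homogeneous version (`cross_dbl`): `x, v ∈ ℂ³`, `cub x = 0`, `x 1 * x 2 ≠ 0`, `cr x v = l • gr x`; `w` is the derivative of `dbl` at `x` in the direction `v`; then `cr (dbl x) w = (2 l) • gr (dbl x)`.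
Here `w` is given explicitly (`ddbl`).  Proof: by homogeneity (`cr (dbl x) (ddbl x x) = 0` as `ddbl x x = 4 dbl x`) one may change `v` by multiples of `x` and assume `v 2 = 0`; scale to `x 2 = 1`; `x = (u, v₁, 1)`,
`v = (u', v', 0)` with `u' = 2 l v₁`, `v' = l (12 u² - α)`.  Then the three identities are polynomial identities modulo `v₁² - 4 u³ + α u + β` (`linear_combination (…) * h`).
Any other proof is fine: e.g. all three components of `x₂ ^ k * (…)` by `linear_combination` with cofactors computed by a program.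
-/

set_option autoImplicit false

open Topology Filter Metric
open Pool.Agent.H36.BP

noncomputable section

namespace Pool.Agent.H13.CV

/-- the derivative of `dbl` at `x` in the direction `v` -/
def ddbl (α β : ℂ) (x v : Fin 3 → ℂ) : Fin 3 → ℂ :=
  ![v 1 * (8 * x 0 * x 1 ^ 2 + 24 * α * x 0 ^ 2 * x 2 + 72 * β * x 0 * x 2 ^ 2 + 2 * α ^ 2 * x 2 ^ 3) +
      x 1 * (8 * v 0 * x 1 ^ 2 + 16 * x 0 * x 1 * v 1 + 48 * α * x 0 * v 0 * x 2 + 24 * α * x 0 ^ 2 * v 2 + 72 * β * v 0 * x 2 ^ 2 + 144 * β * x 0 * x 2 * v 2 +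
        6 * α ^ 2 * x 2 ^ 2 * v 2),
    16 * x 1 ^ 3 * v 1 - 12 * α * (v 0 * x 1 ^ 2 * x 2 + 2 * x 0 * x 1 * v 1 * x 2 + x 0 * x 1 ^ 2 * v 2) - 72 * β * (2 * x 1 * v 1 * x 2 ^ 2 + 2 * x 1 ^ 2 * x 2 * v 2) -
      36 * α ^ 2 * (2 * x 0 * v 0 * x 2 ^ 2 + 2 * x 0 ^ 2 * x 2 * v 2) - 108 * α * β * (v 0 * x 2 ^ 3 + 3 * x 0 * x 2 ^ 2 * v 2) + (α ^ 3 - 108 * β ^ 2) * (4 * x 2 ^ 3 * v 2),
    32 * (3 * x 1 ^ 2 * v 1 * x 2 + x 1 ^ 3 * v 2)]

theorem cross_dbl {α β : ℂ} {x v : Fin 3 → ℂ} {l : ℂ} (hc : cub α β x = 0) (hx : x 1 * x 2 ≠ 0) (hv : cr x v = l • gr α β x) :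
    cr (dbl α β x) (ddbl α β x v) = (2 * l) • gr α β (dbl α β x) := by
  obtain ⟨a, ha⟩ : ∃ a, a = x 0 := ⟨_, rfl⟩
  obtain ⟨b, hb⟩ : ∃ b, b = x 1 := ⟨_, rfl⟩
  obtain ⟨c, hcc⟩ : ∃ c, c = x 2 := ⟨_, rfl⟩
  have hc0 : c ≠ 0 := by
    rw [hcc]
    exact right_ne_zero_of_mul hx
  -- the coordinates of `v`
  obtain ⟨s, hs⟩ : ∃ s, v 2 = s * c := ⟨v 2 / c, by field_simp⟩
  obtain ⟨m, hm⟩ : ∃ m, l = m * c := ⟨l / c, by field_simp⟩
  have h0 := congrFun hv 0
  have h1 := congrFun hv 1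
  simp only [cr, gr, Pi.smul_apply, smul_eq_mul, Matrix.cons_val_zero, Matrix.cons_val_one, ← ha, ← hb, ← hcc, hs, hm] at h0 h1
  have hq : v 1 = s * b + m * (12 * a ^ 2 - α * c ^ 2) := by
    apply mul_left_cancel₀ hc0
    linear_combination -h0
  have hp : v 0 = s * a + m * (2 * b * c) := by
    apply mul_left_cancel₀ hc0
    linear_combination h1
  have hcub : b ^ 2 * c - 4 * a ^ 3 + α * a * c ^ 2 + β * c ^ 3 = 0 := by
    rw [ha, hb, hcc]
    exact hc
  have hcr : ∀ y w z : Fin 3 → ℂ, y 1 * w 2 - y 2 * w 1 = z 0 → y 2 * w 0 - y 0 * w 2 = z 1 → y 0 * w 1 - y 1 * w 0 = z 2 →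
      cr y w = z := by
    intro y w z e0 e1 e2
    funext i
    fin_cases i
    · exact e0
    · exact e1
    · exact e2
  have hD0 : dbl α β x 0 = b * (8 * a * b ^ 2 + 24 * α * a ^ 2 * c + 72 * β * a * c ^ 2 + 2 * α ^ 2 * c ^ 3) := by
    rw [ha, hb, hcc]
    rfl
  have hD1 : dbl α β x 1 = 4 * b ^ 4 - 12 * α * a * b ^ 2 * c - 72 * β * b ^ 2 * c ^ 2 - 36 * α ^ 2 * a ^ 2 * c ^ 2 -
      108 * α * β * a * c ^ 3 + (α ^ 3 - 108 * β ^ 2) * c ^ 4 := by
    rw [ha, hb, hcc]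
    rfl
  have hD2 : dbl α β x 2 = 32 * b ^ 3 * c := by
    rw [hb, hcc]
    rfl
  have hW0 : ddbl α β x v 0 = v 1 * (8 * a * b ^ 2 + 24 * α * a ^ 2 * c + 72 * β * a * c ^ 2 + 2 * α ^ 2 * c ^ 3) +
      b * (8 * v 0 * b ^ 2 + 16 * a * b * v 1 + 48 * α * a * v 0 * c + 24 * α * a ^ 2 * v 2 + 72 * β * v 0 * c ^ 2 +
        144 * β * a * c * v 2 + 6 * α ^ 2 * c ^ 2 * v 2) := by
    rw [ha, hb, hcc]
    rfl
  have hW1 : ddbl α β x v 1 = 16 * b ^ 3 * v 1 - 12 * α * (v 0 * b ^ 2 * c + 2 * a * b * v 1 * c + a * b ^ 2 * v 2) -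
      72 * β * (2 * b * v 1 * c ^ 2 + 2 * b ^ 2 * c * v 2) - 36 * α ^ 2 * (2 * a * v 0 * c ^ 2 + 2 * a ^ 2 * c * v 2) -
      108 * α * β * (v 0 * c ^ 3 + 3 * a * c ^ 2 * v 2) + (α ^ 3 - 108 * β ^ 2) * (4 * c ^ 3 * v 2) := by
    rw [ha, hb, hcc]
    rfl
  have hW2 : ddbl α β x v 2 = 32 * (3 * b ^ 2 * v 1 * c + b ^ 3 * v 2) := by
    rw [hb, hcc]
    rfl
  apply hcr
  · rw [hW1, hW2, hD1, hD2, hp, hq, hs, hm]
    change _ = 2 * (m * c) * (-12 * dbl α β x 0 ^ 2 + α * dbl α β x 2 ^ 2)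
    rw [hD0, hD2]
    linear_combination (m * (6912*a*b^2*c^3*α^2 - 1152*b^4*c^2*α + 10368*b^2*c^4*α*β)) * hcub
  · rw [hW0, hW2, hD0, hD2, hp, hq, hs, hm]
    change _ = 2 * (m * c) * (2 * dbl α β x 1 * dbl α β x 2)
    rw [hD1, hD2]
    linear_combination (m * (4608*a*b^3*c^2*α + 13824*b^3*c^3*β)) * hcub
  · rw [hW0, hW1, hD0, hD1, hp, hq, hs, hm]
    change _ = 2 * (m * c) * (dbl α β x 1 ^ 2 + 2 * α * dbl α β x 0 * dbl α β x 2 + 3 * β * dbl α β x 2 ^ 2)
    rw [hD0, hD1, hD2]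
    linear_combination (m * (-2592*a^3*c^3*α^3 - 1728*a^2*b^2*c^2*α^2 - 15552*a^2*c^4*α^2*β - 1152*a*b^4*c*α + 72*a*c^5*α^4 - 31104*a*c^5*α*β^2 - 96*b^6 - 4320*b^4*c^2*β - 360*b^2*c^4*α^3 + 7776*b^2*c^4*β^2 + 216*c^6*α^3*β - 23328*c^6*β^3)) * hcub

end Pool.Agent.H13.CV

end
end

section

/-!
# CV CubB: discs in a cubic

`Dsc α β l F`: `F` is a holomorphic disc in the cone, `l` is continuous and nowhere zero, and `F × F' = l • gr F`.
`Dsc.dbl`: `G z = dbl (F z)`, `G' = ddbl (F z) (F' z)` (chain rule, polynomial).  `G z ∈ Cub` by `cub_dbl`, `dbl_ne`.  The identity `cr (G z) (G' z) = 2 l z • gr (G z)` holds where `F₁ F₂ ≠ 0` (`cross_dbl`).  Both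
sides are continuous in `z` (on the ball), so it suffices that the zeros of `F₁` and `F₂` are isolated.  If `F₂ = 0` near a point `z₀` then `F₀ = 0` near `z₀` (`cub = 0`), so `F × F' = 0`, contradiction to
`l ≠ 0`, `gr_ne`.  If `F₁ = 0` near `z₀`, then `F₁' = 0` and the components `0` and `2` of `F × F'` are `F₁ F₂' - F₂ F₁' = 0` and `F₀ F₁' - F₁ F₀' = 0`, and component `1` of `gr F` is `2 F₁ F₂ = 0`; so
`l • gr F = 0`: contradiction.  (`AnalyticAt.eventually_eq_zero_or_eventually_ne_zero`.)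
-/

set_option autoImplicit false

open Topology Filter Metric
open Pool.Agent.H36.BP

noncomputable section

namespace Pool.Agent.H13.CV

attribute [-instance] ProperSMul.toContinuousSMul

/-- a holomorphic disc in the cone of the cubic with `F × F' = l • gr F`, `l` continuous without zeros -/
structure Dsc (α β : ℂ) (l : ℂ → ℂ) (F : ℂ → EN 2) : Prop where
  curve : Curve (Cub α β) (ball 0 1) F
  cont : ContinuousOn l (ball 0 1)
  ne : ∀ z ∈ ball (0 : ℂ) 1, l z ≠ 0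
  eq : ∀ z ∈ ball (0 : ℂ) 1, cr (F z).ofLp (deriv F z : EN 2).ofLp = l z • gr α β (F z).ofLp

private theorem CubB_coord {F : ℂ → EN 2} {F' : EN 2} {z : ℂ} (h : HasDerivAt F F' z) (i : Fin 3) :
    HasDerivAt (fun z => (F z).ofLp i) (F'.ofLp i) z := by
  have h1 := (PiLp.proj 2 (fun _ : Fin 3 => ℂ) i : EN 2 →L[ℂ] ℂ).hasFDerivAt (x := F z)
  exact h1.comp_hasDerivAt z h

private theorem CubB_toLp {G : ℂ → Fin 3 → ℂ} {G' : Fin 3 → ℂ} {z : ℂ} (h : ∀ i, HasDerivAt (fun z => G z i) (G' i) z) :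
    HasDerivAt (fun z => (WithLp.toLp 2 (G z) : EN 2)) (WithLp.toLp 2 G') z := by
  have h1 : HasDerivAt G G' z := hasDerivAt_pi.2 h
  have h2 := ((PiLp.continuousLinearEquiv 2 ℂ (fun _ : Fin 3 => ℂ)).symm : (Fin 3 → ℂ) →L[ℂ] EN 2).hasFDerivAt (x := G z)
  exact h2.comp_hasDerivAt z h1

theorem Dsc.dbl {α β : ℂ} (hd : α ^ 3 ≠ 27 * β ^ 2) {l : ℂ → ℂ} {F : ℂ → EN 2} (h : Dsc α β l F) :
    Dsc α β (fun z => 2 * l z) (fun z => WithLp.toLp 2 (CV.dbl α β (F z).ofLp)) := by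
  have hop : IsOpen (ball (0 : ℂ) 1) := isOpen_ball
  obtain ⟨hFd, hFK⟩ := h.curve
  have hder : ∀ z ∈ ball (0 : ℂ) 1, ∀ i, HasDerivAt (fun z => (F z).ofLp i) ((deriv F z : EN 2).ofLp i) z :=
    fun z hz i => CubB_coord ((hFd.differentiableAt (hop.mem_nhds hz)).hasDerivAt) i
  have hfd : ∀ i, DifferentiableOn ℂ (fun z => (F z).ofLp i) (ball 0 1) :=
    fun i z hz => (hder z hz i).differentiableAt.differentiableWithinAt
  have hfa : ∀ i, ∀ z ∈ ball (0 : ℂ) 1, AnalyticAt ℂ (fun z => (F z).ofLp i) z :=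
    fun i z hz => (hfd i).analyticAt (hop.mem_nhds hz)
  have hG : ∀ z ∈ ball (0 : ℂ) 1, HasDerivAt (fun z => (WithLp.toLp 2 (CV.dbl α β (F z).ofLp) : EN 2))
      (WithLp.toLp 2 (ddbl α β (F z).ofLp (deriv F z : EN 2).ofLp)) z := by
    intro z hz
    refine CubB_toLp fun i => ?_
    have h0 := hder z hz 0
    have h1 := hder z hz 1
    have h2 := hder z hz 2
    fin_cases i
    · have e := h1.mul ((((h0.mul (h1.pow 2)).const_mul 8).add (((h0.pow 2).mul h2).const_mul (24 * α))).add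
        ((((h0.mul (h2.pow 2)).const_mul (72 * β))).add ((h2.pow 3).const_mul (2 * α ^ 2))))
      refine (e.congr_of_eventuallyEq (Filter.Eventually.of_forall fun w => ?_)).congr_deriv ?_
      · show (F w).ofLp 1 * (8 * (F w).ofLp 0 * (F w).ofLp 1 ^ 2 + 24 * α * (F w).ofLp 0 ^ 2 * (F w).ofLp 2 + 72 * β * (F w).ofLp 0 * (F w).ofLp 2 ^ 2 + 2 * α ^ 2 * (F w).ofLp 2 ^ 3) = _
        simp only [Pi.mul_apply, Pi.add_apply, Pi.pow_apply]
        ring
      · simp only [ddbl, Pi.mul_apply, Pi.add_apply, Pi.pow_apply, Fin.zero_eta, Matrix.cons_val_zero]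
        push_cast
        ring
    · have e := ((((h1.pow 4).const_mul 4).sub (((h0.mul (h1.pow 2)).mul h2).const_mul (12 * α))).sub
        (((h1.pow 2).mul (h2.pow 2)).const_mul (72 * β))).sub ((((h0.pow 2).mul (h2.pow 2)).const_mul (36 * α ^ 2)).add
          (((h0.mul (h2.pow 3)).const_mul (108 * α * β)).sub ((h2.pow 4).const_mul (α ^ 3 - 108 * β ^ 2))))
      refine (e.congr_of_eventuallyEq (Filter.Eventually.of_forall fun w => ?_)).congr_deriv ?_
      · show 4 * (F w).ofLp 1 ^ 4 - 12 * α * (F w).ofLp 0 * (F w).ofLp 1 ^ 2 * (F w).ofLp 2 - 72 * β * (F w).ofLp 1 ^ 2 * (F w).ofLp 2 ^ 2 - 36 * α ^ 2 * (F w).ofLp 0 ^ 2 * (F w).ofLp 2 ^ 2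
          - 108 * α * β * (F w).ofLp 0 * (F w).ofLp 2 ^ 3 + (α ^ 3 - 108 * β ^ 2) * (F w).ofLp 2 ^ 4 = _
        simp only [Pi.mul_apply, Pi.add_apply, Pi.sub_apply, Pi.pow_apply]
        ring
      · simp only [ddbl, Pi.mul_apply, Pi.pow_apply, Fin.mk_one, Matrix.cons_val_one, Matrix.cons_val_zero]
        push_cast
        ring
    · have e := ((h1.pow 3).mul h2).const_mul 32
      refine (e.congr_of_eventuallyEq (Filter.Eventually.of_forall fun w => ?_)).congr_deriv ?_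
      · show 32 * (F w).ofLp 1 ^ 3 * (F w).ofLp 2 = _
        simp only [Pi.mul_apply, Pi.pow_apply]
        ring
      · show _ = 32 * (3 * (F z).ofLp 1 ^ 2 * (deriv F z : EN 2).ofLp 1 * (F z).ofLp 2 + (F z).ofLp 1 ^ 3 * (deriv F z : EN 2).ofLp 2)
        simp only [Pi.pow_apply]
        push_cast
        ring
  have hGd : ∀ z ∈ ball (0 : ℂ) 1, deriv (fun z => (WithLp.toLp 2 (CV.dbl α β (F z).ofLp) : EN 2)) z
      = WithLp.toLp 2 (ddbl α β (F z).ofLp (deriv F z : EN 2).ofLp) := fun z hz => (hG z hz).deriv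
  have hF0 : ∀ z ∈ ball (0 : ℂ) 1, (F z).ofLp ≠ 0 ∧ cub α β (F z).ofLp = 0 := by
    intro z hz
    obtain ⟨h1, h2⟩ := hFK z hz
    refine ⟨fun h3 => h1 ?_, h2⟩
    ext i
    exact congrFun h3 i
  -- the first coordinate is not eventually zero
  have hn1 : ∀ z ∈ ball (0 : ℂ) 1, ¬ ∀ᶠ w in 𝓝 z, (F w).ofLp 1 = 0 := by
    intro z hz he
    have e1 : (deriv F z : EN 2).ofLp 1 = 0 := by
      rw [← (hder z hz 1).deriv]
      have : (fun w => (F w).ofLp 1) =ᶠ[𝓝 z] fun _ => (0 : ℂ) := he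
      rw [this.deriv_eq]
      simp
    have e2 : (F z).ofLp 1 = 0 := he.self_of_nhds
    have e3 := h.eq z hz
    apply gr_ne hd (hF0 z hz).1 (hF0 z hz).2
    have hl := h.ne z hz
    have e4 : l z • gr α β (F z).ofLp = 0 := by
      rw [← e3]
      ext i
      have e5 := congrFun e3 1
      fin_cases i
      · show (F z).ofLp 1 * (deriv F z : EN 2).ofLp 2 - (F z).ofLp 2 * (deriv F z : EN 2).ofLp 1 = 0
        rw [e1, e2]; ring
      · have e6 : (gr α β (F z).ofLp) 1 = 2 * (F z).ofLp 1 * (F z).ofLp 2 := rfl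
        show cr (F z).ofLp (deriv F z : EN 2).ofLp 1 = 0
        rw [e5]
        show l z * (gr α β (F z).ofLp) 1 = 0
        rw [e6, e2]; ring
      · show (F z).ofLp 0 * (deriv F z : EN 2).ofLp 1 - (F z).ofLp 1 * (deriv F z : EN 2).ofLp 0 = 0
        rw [e1, e2]; ring
    exact (smul_eq_zero.1 e4).resolve_left hl
  have hn2 : ∀ z ∈ ball (0 : ℂ) 1, ¬ ∀ᶠ w in 𝓝 z, (F w).ofLp 2 = 0 := by
    intro z hz he
    have e1 : (deriv F z : EN 2).ofLp 2 = 0 := by
      rw [← (hder z hz 2).deriv]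
      have : (fun w => (F w).ofLp 2) =ᶠ[𝓝 z] fun _ => (0 : ℂ) := he
      rw [this.deriv_eq]
      simp
    have he0 : ∀ᶠ w in 𝓝 z, (F w).ofLp 0 = 0 := by
      filter_upwards [he, hop.mem_nhds hz] with w hw hwb
      have e := (hF0 w hwb).2
      simp only [cub, hw] at e
      have : (F w).ofLp 0 ^ 3 = 0 := by linear_combination (-1 / 4) * e
      exact pow_eq_zero_iff (by norm_num) |>.1 this
    have e1' : (deriv F z : EN 2).ofLp 0 = 0 := by
      rw [← (hder z hz 0).deriv]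
      have : (fun w => (F w).ofLp 0) =ᶠ[𝓝 z] fun _ => (0 : ℂ) := he0
      rw [this.deriv_eq]
      simp
    have e2 : (F z).ofLp 2 = 0 := he.self_of_nhds
    have e2' : (F z).ofLp 0 = 0 := he0.self_of_nhds
    have e3 := h.eq z hz
    apply gr_ne hd (hF0 z hz).1 (hF0 z hz).2
    have hl := h.ne z hz
    have e4 : l z • gr α β (F z).ofLp = 0 := by
      rw [← e3]
      ext i
      fin_cases i
      · show (F z).ofLp 1 * (deriv F z : EN 2).ofLp 2 - (F z).ofLp 2 * (deriv F z : EN 2).ofLp 1 = 0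
        rw [e1, e2]; ring
      · show (F z).ofLp 2 * (deriv F z : EN 2).ofLp 0 - (F z).ofLp 0 * (deriv F z : EN 2).ofLp 2 = 0
        rw [e1, e2]; ring
      · show (F z).ofLp 0 * (deriv F z : EN 2).ofLp 1 - (F z).ofLp 1 * (deriv F z : EN 2).ofLp 0 = 0
        rw [e1', e2']; ring
    exact (smul_eq_zero.1 e4).resolve_left hl
  have hK : ∀ z ∈ ball (0 : ℂ) 1, (WithLp.toLp 2 (CV.dbl α β (F z).ofLp) : EN 2) ∈ Cub α β := by
    intro z hz
    refine ⟨fun h0 => ?_, cub_dbl (hF0 z hz).2⟩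
    apply dbl_ne hd (hF0 z hz).1 (hF0 z hz).2
    have := congrArg WithLp.ofLp h0
    simpa using this
  refine ⟨⟨fun z hz => (hG z hz).differentiableAt.differentiableWithinAt, hK⟩, continuousOn_const.mul h.cont, fun z hz => mul_ne_zero two_ne_zero (h.ne z hz), ?_⟩
  -- continuity
  have hcF : ∀ i, ContinuousOn (fun z => (F z).ofLp i) (ball 0 1) := fun i => (hfd i).continuousOn
  have hcF' : ∀ i, ContinuousOn (fun z => (deriv F z : EN 2).ofLp i) (ball 0 1) := by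
    intro i
    have h1 : ContinuousOn (deriv fun z => (F z).ofLp i) (ball 0 1) := ((hfd i).deriv hop).continuousOn
    refine h1.congr fun z hz => ?_
    exact (hder z hz i).deriv.symm
  intro z hz
  rw [hGd z hz]
  show cr (CV.dbl α β (F z).ofLp) (ddbl α β (F z).ofLp (deriv F z : EN 2).ofLp) = (2 * l z) • gr α β (CV.dbl α β (F z).ofLp)
  have hev : ∀ᶠ w in 𝓝[≠] z, cr (CV.dbl α β (F w).ofLp) (ddbl α β (F w).ofLp (deriv F w : EN 2).ofLp) = (2 * l w) • gr α β (CV.dbl α β (F w).ofLp) := by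
    have k1 := ((hfa 1 z hz).eventually_eq_zero_or_eventually_ne_zero).resolve_left (hn1 z hz)
    have k2 := ((hfa 2 z hz).eventually_eq_zero_or_eventually_ne_zero).resolve_left (hn2 z hz)
    filter_upwards [k1, k2, mem_nhdsWithin_of_mem_nhds (hop.mem_nhds hz)] with w h1 h2 hw
    exact cross_dbl (hF0 w hw).2 (mul_ne_zero h1 h2) (h.eq w hw)
  have hc0 : ∀ i, ContinuousAt (fun z => (F z).ofLp i) z := fun i => (hcF i).continuousAt (hop.mem_nhds hz)
  have hc0' : ∀ i, ContinuousAt (fun z => (deriv F z : EN 2).ofLp i) z := fun i => (hcF' i).continuousAt (hop.mem_nhds hz)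
  have hcl : ContinuousAt l z := h.cont.continuousAt (hop.mem_nhds hz)
  have a0 := hc0 0
  have a1 := hc0 1
  have a2 := hc0 2
  have b0 := hc0' 0
  have b1 := hc0' 1
  have b2 := hc0' 2
  have hL : ContinuousAt (fun w => cr (CV.dbl α β (F w).ofLp) (ddbl α β (F w).ofLp (deriv F w : EN 2).ofLp)) z := by
    refine continuousAt_pi.2 fun i => ?_
    fin_cases i <;> simp only [cr, CV.dbl, ddbl, Fin.zero_eta, Fin.mk_one, Fin.reduceFinMk, Matrix.cons_val_zero, Matrix.cons_val_one, Matrix.cons_val] <;> fun_prop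
  have hR : ContinuousAt (fun w => (2 * l w) • gr α β (CV.dbl α β (F w).ofLp)) z := by
    refine continuousAt_pi.2 fun i => ?_
    fin_cases i <;> simp only [gr, CV.dbl, Pi.smul_apply, smul_eq_mul, Fin.zero_eta, Fin.mk_one, Fin.reduceFinMk, Matrix.cons_val_zero, Matrix.cons_val_one, Matrix.cons_val] <;> fun_prop
  have t1 := hL.tendsto.mono_left (nhdsWithin_le_nhds (s := {z}ᶜ))
  have t2 := hR.tendsto.mono_left (nhdsWithin_le_nhds (s := {z}ᶜ))
  exact tendsto_nhds_unique_of_eventuallyEq t1 t2 hev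

end Pool.Agent.H13.CV

end
end

section

/-!
# CV CubI: a disc in the cubic

`exists_disc`: let `u₀` with `4 u₀³ - α u₀ - β = 1` (`IsAlgClosed`).  `s z = exp (log (4 (u₀ + z)³ - α (u₀ + z) - β) / 2)` (principal branch) is holomorphic for `|z| < r` (there the argument is in the slit plane), nowhere
zero, `s² = 4 (u₀ + z)³ - …`.  `F z = (u₀ + r z, s (r z), 1)` on the unit disc (`r > 0` small), `F' = (r, r s', 0)`, `2 s s' = 12 (u₀ + r z)² - α`; `F × F' = (- r s', r, …)`, `gr F = (- (12 u² - α), 2 s, …)`, so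
`l = r / (2 s)`; the third component: `u s' r - s r = l (s² + 2 α u + 3 β)`: use `s² = 4 u³ - α u - β`.
-/

set_option autoImplicit false

open Topology Filter Metric
open Pool.Agent.H36.BP

noncomputable section

namespace Pool.Agent.H13.CV

private theorem CubI_root (α β : ℂ) : ∃ u : ℂ, 4 * u ^ 3 - α * u - β = 1 := by
  have h : ∃ z : ℂ, (Polynomial.C 4 * Polynomial.X ^ 3 - Polynomial.C α * Polynomial.X - Polynomial.C (β + 1) : Polynomial ℂ).IsRoot z := by
    apply Complex.exists_root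
    have : (Polynomial.C 4 * Polynomial.X ^ 3 - Polynomial.C α * Polynomial.X - Polynomial.C (β + 1) : Polynomial ℂ).degree = 3 := by
      compute_degree!
    rw [this]
    norm_num
  obtain ⟨z, hz⟩ := h
  refine ⟨z, ?_⟩
  simp only [Polynomial.IsRoot.def, Polynomial.eval_sub, Polynomial.eval_mul, Polynomial.eval_C, Polynomial.eval_pow, Polynomial.eval_X] at hz
  linear_combination hz

private theorem CubI_toLp {G : ℂ → Fin 3 → ℂ} {G' : Fin 3 → ℂ} {z : ℂ} (h : ∀ i, HasDerivAt (fun z => G z i) (G' i) z) :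
    HasDerivAt (fun z => (WithLp.toLp 2 (G z) : EN 2)) (WithLp.toLp 2 G') z := by
  have h1 : HasDerivAt G G' z := hasDerivAt_pi.2 h
  have h2 := ((PiLp.continuousLinearEquiv 2 ℂ (fun _ : Fin 3 => ℂ)).symm : (Fin 3 → ℂ) →L[ℂ] EN 2).hasFDerivAt (x := G z)
  exact h2.comp_hasDerivAt z h1

theorem exists_disc (α β : ℂ) : ∃ (l : ℂ → ℂ) (F : ℂ → EN 2), Dsc α β l F := by
  obtain ⟨u₀, hu₀⟩ := CubI_root α β
  set p : ℂ → ℂ := fun u => 4 * u ^ 3 - α * u - β with hp
  have hpc : Continuous p := by fun_prop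
  -- a small radius
  have h1 : ∀ᶠ u in 𝓝 u₀, p u ∈ Complex.slitPlane := by
    have : p u₀ ∈ Complex.slitPlane := by
      show 4 * u₀ ^ 3 - α * u₀ - β ∈ Complex.slitPlane
      rw [hu₀]
      exact Complex.one_mem_slitPlane
    exact hpc.continuousAt.eventually (Complex.isOpen_slitPlane.mem_nhds this)
  obtain ⟨r, hr, hb⟩ := Metric.eventually_nhds_iff_ball.1 h1
  set u : ℂ → ℂ := fun z => u₀ + r * z with hu
  set s : ℂ → ℂ := fun z => Complex.exp (Complex.log (p (u z)) / 2) with hs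
  have hr0 : (r : ℂ) ≠ 0 := by exact_mod_cast hr.ne'
  have hus : ∀ z ∈ ball (0 : ℂ) 1, p (u z) ∈ Complex.slitPlane := by
    intro z hz
    apply hb
    rw [mem_ball_zero_iff] at hz
    rw [mem_ball, dist_eq_norm]
    simp only [hu, add_sub_cancel_left, norm_mul, Complex.norm_real, Real.norm_eq_abs, abs_of_pos hr]
    nlinarith
  have hs2 : ∀ z ∈ ball (0 : ℂ) 1, s z ^ 2 = p (u z) := by
    intro z hz
    simp only [hs]
    rw [← Complex.exp_nat_mul]
    have : ((2 : ℕ) : ℂ) * (Complex.log (p (u z)) / 2) = Complex.log (p (u z)) := by push_cast; ring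
    rw [this, Complex.exp_log (Complex.slitPlane_ne_zero (hus z hz))]
  have hsn : ∀ z, s z ≠ 0 := fun z => Complex.exp_ne_zero _
  have hud : ∀ z, HasDerivAt u r z := by
    intro z
    have := ((hasDerivAt_id z).const_mul (r : ℂ)).const_add u₀
    rw [mul_one] at this
    exact this
  have hsd : ∀ z ∈ ball (0 : ℂ) 1, HasDerivAt s ((12 * u z ^ 2 - α) * r / (2 * s z)) z := by
    intro z hz
    have e1 : HasDerivAt (fun w => p (u w)) ((12 * u z ^ 2 - α) * r) z := by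
      have := ((((hud z).pow 3).const_mul 4).sub ((hud z).const_mul α)).sub_const β
      refine this.congr_deriv ?_
      push_cast
      ring
    have e2 := ((e1.clog (hus z hz)).div_const 2).cexp
    refine e2.congr_deriv ?_
    have e3 : Complex.exp (Complex.log (p (u z)) / 2) = s z := rfl
    rw [e3]
    have e4 := hs2 z hz
    have e5 := hsn z
    rw [← e4]
    field_simp
  refine ⟨fun z => r / (2 * s z), fun z => WithLp.toLp 2 ![u z, s z, 1], ?_⟩
  have hF : ∀ z ∈ ball (0 : ℂ) 1, HasDerivAt (fun z => (WithLp.toLp 2 ![u z, s z, 1] : EN 2))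
      (WithLp.toLp 2 ![(r : ℂ), (12 * u z ^ 2 - α) * r / (2 * s z), 0]) z := by
    intro z hz
    refine CubI_toLp fun i => ?_
    fin_cases i
    · exact hud z
    · exact hsd z hz
    · exact hasDerivAt_const z (1 : ℂ)
  have hsc : ContinuousOn s (ball 0 1) := fun z hz => (hsd z hz).continuousAt.continuousWithinAt
  refine ⟨⟨fun z hz => (hF z hz).differentiableAt.differentiableWithinAt, fun z hz => ⟨fun h0 => ?_, ?_⟩⟩, ?_, fun z hz => ?_, fun z hz => ?_⟩
  · have := congrFun (congrArg WithLp.ofLp h0) 2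
    exact one_ne_zero (α := ℂ) this
  · show s z ^ 2 * 1 - 4 * u z ^ 3 + α * u z * 1 ^ 2 + β * 1 ^ 3 = 0
    rw [hs2 z hz]
    show (4 * u z ^ 3 - α * u z - β) * 1 - 4 * u z ^ 3 + α * u z * 1 ^ 2 + β * 1 ^ 3 = 0
    ring
  · exact continuousOn_const.div (continuousOn_const.mul hsc) fun z _ => mul_ne_zero two_ne_zero (hsn z)
  · exact div_ne_zero hr0 (mul_ne_zero two_ne_zero (hsn z))
  · rw [(hF z hz).deriv]
    have e4 : s z ^ 2 = 4 * u z ^ 3 - α * u z - β := hs2 z hz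
    have e5 := hsn z
    ext i
    fin_cases i
    · show s z * 0 - 1 * ((12 * u z ^ 2 - α) * r / (2 * s z)) = r / (2 * s z) * (-12 * u z ^ 2 + α * 1 ^ 2)
      field_simp
      ring
    · show 1 * (r : ℂ) - u z * 0 = r / (2 * s z) * (2 * s z * 1)
      field_simp
      ring
    · show u z * ((12 * u z ^ 2 - α) * r / (2 * s z)) - s z * r = r / (2 * s z) * (s z ^ 2 + 2 * α * u z * 1 + 3 * β * 1 ^ 2)
      field_simp
      linear_combination (-3) * e4

end Pool.Agent.H13.CV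

end
end

section

/-!
# BP ExtE: the limit at the puncture

For `r = |z₁|/(n+2)` take `θ_n`; `F_n = θ_n F` is bounded by `A` for `|z₁|/(n+2) ≤ |z| ≤ r₁`, `|F_n z₁| ≥ c`.  Along `hyperfilter ℕ` the pointwise limits `H z` exist for `0 < |z| < r₁` (bounded in a finite dimensional space), and by
`montel_ultrafilter` on small discs (`TendstoLocallyUniformlyOn` implies pointwise convergence, so the local limits are `H`) `H` is holomorphic on `0 < |z| < r₁`, `|H z| ≤ A`, `|H z₁| ≥ c`, and `H z` is a multiple of `F z` (closed line).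
`H` is bounded, so it extends to a holomorphic `P` on `|z| < r₁` (`Complex.differentiableOn_update_limUnder_of_bddAbove`, for vector valued functions), `P z₁ ≠ 0`, so `P` does not vanish identically near `0` (identity theorem on the disc),
`P z = z^k Q z`, `Q 0 ≠ 0` (`AnalyticAt.exists_eventuallyEq_pow_smul_nonzero_iff`), `Q z ≠ 0` near `0` and `Q z` is a multiple of `F z`.
-/

set_option autoImplicit false

namespace Pool.Agent.H36.BP

open Filter Topology Metric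

variable {N : ℕ}

theorem puncture_limit {F : ℂ → EN N} (hF : DifferentiableOn ℂ F (ball 0 1 \ {0})) (hF0 : ∀ z ∈ ball (0 : ℂ) 1 \ {0}, F z ≠ 0) {r₁ c A : ℝ} {z₁ : ℂ}
    (hc : 0 < c) (hz1 : 0 < ‖z₁‖) (hz2 : ‖z₁‖ < r₁) (hr1 : r₁ < 1)
    (h : ∀ r : ℝ, 0 < r → r < ‖z₁‖ → ∃ θ : ℂ → ℂ, DifferentiableOn ℂ θ {0}ᶜ ∧
      (∀ z : ℂ, r ≤ ‖z‖ → ‖z‖ ≤ r₁ → ‖θ z • F z‖ ≤ A) ∧ c ≤ ‖θ z₁ • F z₁‖) :
    ∃ Q : ℂ → EN N, AnalyticAt ℂ Q 0 ∧ Q 0 ≠ 0 ∧ ∀ᶠ z in 𝓝[≠] (0 : ℂ), ∃ k : ℂ, k ≠ 0 ∧ Q z = k • F z := by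
  classical
  have hr : ∀ n : ℕ, 0 < ‖z₁‖ / ((n : ℝ) + 2) ∧ ‖z₁‖ / ((n : ℝ) + 2) < ‖z₁‖ := by
    intro n
    have hn : (0 : ℝ) ≤ n := Nat.cast_nonneg n
    refine ⟨by positivity, ?_⟩
    rw [div_lt_iff₀ (by positivity)]
    nlinarith
  choose θ hθd hθb hθc using fun n : ℕ => h (‖z₁‖ / ((n : ℝ) + 2)) (hr n).1 (hr n).2
  set 𝒰 : Ultrafilter ℕ := hyperfilter ℕ with h𝒰
  have h𝒰l : (𝒰 : Filter ℕ) ≤ atTop := by
    rw [← Nat.cofinite_eq_atTop]
    exact hyperfilter_le_cofinite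
  have hsmall : ∀ δ : ℝ, 0 < δ → ∀ᶠ n : ℕ in (𝒰 : Filter ℕ), ‖z₁‖ / ((n : ℝ) + 2) ≤ δ := by
    intro δ hδ
    apply h𝒰l
    have ht : Tendsto (fun n : ℕ => ‖z₁‖ / ((n : ℝ) + 2)) atTop (𝓝 0) :=
      Tendsto.div_atTop tendsto_const_nhds (tendsto_natCast_atTop_atTop.atTop_add tendsto_const_nhds)
    exact (ht.eventually_lt_const hδ).mono fun _ h => h.le
  set Fn : ℕ → ℂ → EN N := fun n z => θ n z • F z with hFn
  -- local discs
  have hloc : ∀ z : ℂ, z ≠ 0 → ‖z‖ < r₁ → ∃ (s : ℝ) (g : ℂ → EN N), 0 < s ∧ ball z s ⊆ ball 0 r₁ \ {0} ∧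
      DifferentiableOn ℂ g (ball z s) ∧ ∀ w ∈ ball z s, Tendsto (fun n => Fn n w) (𝒰 : Filter ℕ) (𝓝 (g w)) := by
    intro z hz hzr
    have hzp : 0 < ‖z‖ := norm_pos_iff.mpr hz
    set s : ℝ := min (‖z‖ / 2) (r₁ - ‖z‖) with hs
    have hs0 : 0 < s := lt_min (by positivity) (by linarith)
    have hw1 : ∀ w ∈ ball z s, ‖z‖ / 2 ≤ ‖w‖ ∧ ‖w‖ < r₁ := by
      intro w hw
      have h1 : ‖w - z‖ < s := by rwa [mem_ball, dist_eq_norm] at hw
      have h2 : s ≤ ‖z‖ / 2 := min_le_left _ _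
      have h3 : s ≤ r₁ - ‖z‖ := min_le_right _ _
      have h4 : ‖z‖ ≤ ‖w‖ + ‖w - z‖ := by
        have := norm_sub_le w (w - z)
        simpa using this
      have h5 : ‖w‖ ≤ ‖z‖ + ‖w - z‖ := by
        have := norm_add_le z (w - z)
        simpa using this
      constructor <;> linarith
    have hsub : ball z s ⊆ ball 0 r₁ \ {0} := by
      intro w hw
      have := hw1 w hw
      refine ⟨by simpa using this.2, ?_⟩
      rintro rfl
      have h1 := this.1
      rw [norm_zero] at h1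
      linarith
    have hsub1 : ball z s ⊆ ball 0 1 \ {0} := fun w hw =>
      ⟨ball_subset_ball hr1.le (hsub hw).1, (hsub hw).2⟩
    obtain ⟨g, hg1, hg2⟩ := Pool.Agent.H17.montel_ultrafilter (E := EN N) 𝒰 (F := Fn) (a := z) (r := s) (B := A)
      (by
        refine Eventually.of_forall fun n => ?_
        refine DifferentiableOn.smul ((hθd n).mono ?_) (hF.mono hsub1)
        intro w hw
        exact (hsub hw).2)
      (by
        filter_upwards [hsmall (‖z‖ / 2) (by positivity)] with n hn w hw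
        exact hθb n w (hn.trans (hw1 w hw).1) (hw1 w hw).2.le)
    exact ⟨s, g, hs0, hsub, hg1, fun w hw => hg2.tendsto_at hw⟩
  -- the limit
  have hlim : ∀ z : ℂ, ∃ l : EN N, z ≠ 0 → ‖z‖ < r₁ → Tendsto (fun n => Fn n z) (𝒰 : Filter ℕ) (𝓝 l) := by
    intro z
    by_cases hz : z ≠ 0 ∧ ‖z‖ < r₁
    · obtain ⟨s, g, hs, -, -, hg⟩ := hloc z hz.1 hz.2
      exact ⟨g z, fun _ _ => hg z (mem_ball_self hs)⟩
    · exact ⟨0, fun h1 h2 => absurd ⟨h1, h2⟩ hz⟩
  choose H hH using hlim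
  have hHd : DifferentiableOn ℂ H (ball 0 r₁ \ {0}) := by
    intro z hz
    have hz0 : z ≠ 0 := hz.2
    have hzr : ‖z‖ < r₁ := by simpa using hz.1
    obtain ⟨s, g, hs, hsub, hgd, hg⟩ := hloc z hz0 hzr
    have heq : H =ᶠ[𝓝 z] g := by
      filter_upwards [ball_mem_nhds z hs] with w hw
      have hw' := hsub hw
      exact tendsto_nhds_unique (hH w hw'.2 (by simpa using hw'.1)) (hg w hw)
    have : DifferentiableAt ℂ g z := (hgd z (mem_ball_self hs)).differentiableAt (ball_mem_nhds z hs)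
    exact (this.congr_of_eventuallyEq heq).differentiableWithinAt
  have hHb : ∀ z ∈ ball (0 : ℂ) r₁ \ {0}, ‖H z‖ ≤ A := by
    intro z hz
    have hz0 : z ≠ 0 := hz.2
    have hzr : ‖z‖ < r₁ := by simpa using hz.1
    refine le_of_tendsto (hH z hz0 hzr).norm ?_
    filter_upwards [hsmall ‖z‖ (norm_pos_iff.mpr hz0)] with n hn
    exact hθb n z hn hzr.le
  have hz10 : z₁ ≠ 0 := norm_pos_iff.mp hz1
  have hHc : c ≤ ‖H z₁‖ := ge_of_tendsto (hH z₁ hz10 hz2).norm (Eventually.of_forall fun n => hθc n)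
  have hHs : ∀ z ∈ ball (0 : ℂ) r₁ \ {0}, ∃ a : ℂ, H z = a • F z := by
    intro z hz
    have hz0 : z ≠ 0 := hz.2
    have hzr : ‖z‖ < r₁ := by simpa using hz.1
    have hcl : IsClosed ((Submodule.span ℂ {F z} : Submodule ℂ (EN N)) : Set (EN N)) :=
      Submodule.closed_of_finiteDimensional _
    have hmem : H z ∈ (Submodule.span ℂ {F z} : Submodule ℂ (EN N)) :=
      hcl.mem_of_tendsto (hH z hz0 hzr) (Eventually.of_forall fun n =>
        Submodule.smul_mem _ _ (Submodule.mem_span_singleton_self _))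
    obtain ⟨a, ha⟩ := Submodule.mem_span_singleton.mp hmem
    exact ⟨a, ha.symm⟩
  have hr0 : 0 < r₁ := hz1.trans hz2
  -- the extension
  set P : ℂ → EN N := Function.update H 0 (limUnder (𝓝[≠] 0) H) with hP
  have hPd : DifferentiableOn ℂ P (ball 0 r₁) := by
    refine Complex.differentiableOn_update_limUnder_of_bddAbove (ball_mem_nhds 0 hr0) hHd ?_
    refine ⟨A, ?_⟩
    rintro _ ⟨z, hz, rfl⟩
    exact hHb z hz
  have hPH : ∀ z : ℂ, z ≠ 0 → P z = H z := fun z hz => Function.update_of_ne hz _ _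
  have hPa : AnalyticOnNhd ℂ P (ball 0 r₁) := hPd.analyticOnNhd isOpen_ball
  have hP0 : ¬ ∀ᶠ z in 𝓝 (0 : ℂ), P z = 0 := by
    intro hev
    have h1 := hPa.eqOn_zero_of_preconnected_of_eventuallyEq_zero (convex_ball (0 : ℂ) r₁).isPreconnected
      (mem_ball_self hr0) hev
    have h2 : P z₁ = 0 := h1 (by simpa using hz2)
    rw [hPH z₁ hz10] at h2
    rw [h2, norm_zero] at hHc
    linarith
  obtain ⟨k, Q, hQa, hQ0, hQ⟩ := (hPa 0 (mem_ball_self hr0)).exists_eventuallyEq_pow_smul_nonzero_iff.mpr hP0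
  refine ⟨Q, hQa, hQ0, ?_⟩
  have hQne : ∀ᶠ z in 𝓝 (0 : ℂ), Q z ≠ 0 := hQa.continuousAt.eventually_ne hQ0
  rw [eventually_nhdsWithin_iff]
  filter_upwards [hQ, hQne, ball_mem_nhds (0 : ℂ) hr0] with z hz1 hz2 hz3 hz4
  have hz0 : z ≠ 0 := hz4
  obtain ⟨a, ha⟩ := hHs z ⟨hz3, hz4⟩
  rw [hPH z hz0, sub_zero] at hz1
  have hzk : z ^ k ≠ 0 := pow_ne_zero _ hz0
  have he : Q z = ((z ^ k)⁻¹ * a) • F z := by
    rw [mul_smul, ← ha, hz1, smul_smul, inv_mul_cancel₀ hzk, one_smul]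
  refine ⟨(z ^ k)⁻¹ * a, ?_, he⟩
  intro h0
  rw [h0, zero_smul] at he
  exact hz2 he

end Pool.Agent.H36.BP

end

section

/-!
# Qe TopQ: maps which are local homeomorphisms over an open set, and lifts of continuous maps
-/

set_option autoImplicit false

open Topology Filter

namespace Pool.Agent.H62.Qe

/-- A continuous map which is injective near `e` and has a local section through `e` is a homeomorphism near `e`. -/
theorem exists_localHomeo {E Y : Type} [TopologicalSpace E] [TopologicalSpace Y] {p : E → Y} (hp : Continuous p) {e : E}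
    (hinj : ∀ᶠ q in 𝓝 (e, e), p q.1 = p q.2 → q.1 = q.2)
    (hsec : ∃ s : Y → E, s (p e) = e ∧ ∀ᶠ y in 𝓝 (p e), ContinuousAt s y ∧ p (s y) = y) :
    ∃ φ : OpenPartialHomeomorph E Y, e ∈ φ.source ∧ p = φ := by
  obtain ⟨s, hse, hs⟩ := hsec
  obtain ⟨V, hVs, hVo, heV⟩ := eventually_nhds_iff.1 hs
  have h1 : {q : E × E | p q.1 = p q.2 → q.1 = q.2} ∈ 𝓝 e ×ˢ 𝓝 e := by
    rw [← nhds_prod_eq]
    exact hinj
  obtain ⟨U₁, hU₁, hU₁s⟩ := Filter.mem_prod_self_iff.1 h1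
  obtain ⟨U, hUU₁, hUo, heU⟩ := mem_nhds_iff.1 hU₁
  have hU : ∀ e₁ ∈ U, ∀ e₂ ∈ U, p e₁ = p e₂ → e₁ = e₂ := fun e₁ h₁ e₂ h₂ => hU₁s (Set.mk_mem_prod (hUU₁ h₁) (hUU₁ h₂))
  have hsV : ContinuousOn s V := fun y hy => (hVs y hy).1.continuousWithinAt
  have hW : IsOpen (V ∩ s ⁻¹' U) := hsV.isOpen_inter_preimage hVo hUo
  have hU₀ : IsOpen (U ∩ p ⁻¹' (V ∩ s ⁻¹' U)) := hUo.inter (hW.preimage hp)
  have hleft : ∀ e' ∈ U ∩ p ⁻¹' (V ∩ s ⁻¹' U), s (p e') = e' := fun e' he' =>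
    hU _ he'.2.2 _ he'.1 (hVs _ he'.2.1).2
  refine ⟨
    { toFun := p
      invFun := s
      source := U ∩ p ⁻¹' (V ∩ s ⁻¹' U)
      target := V ∩ s ⁻¹' U
      map_source' := fun e' he' => he'.2
      map_target' := fun y hy => by
        refine ⟨hy.2, ?_⟩
        show p (s y) ∈ V ∩ s ⁻¹' U
        rw [(hVs y hy.1).2]
        exact hy
      left_inv' := hleft
      right_inv' := fun y hy => (hVs y hy.1).2
      open_source := hU₀
      open_target := hW
      continuousOn_toFun := hp.continuousOn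
      continuousOn_invFun := hsV.mono Set.inter_subset_left }, ?_, rfl⟩
  refine ⟨heU, heV, ?_⟩
  show s (p e) ∈ U
  rw [hse]
  exact heU

variable {E Y : Type} [TopologicalSpace E] [TopologicalSpace Y] [T2Space E] [T2Space Y] [CompactSpace E] {p : E → Y}

/-- Existence and uniqueness of the lifts of maps of the plane. -/
theorem exists_unique_lift (hp : Continuous p) {s : Set Y}
    (h : ∀ e : E, p e ∈ s → ∃ φ : OpenPartialHomeomorph E Y, e ∈ φ.source ∧ p = φ)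
    {f : ℂ → Y} (hf : Continuous f) (hfs : ∀ z, f z ∈ s) {a : ℂ} {e₀ : E} (he : p e₀ = f a) :
    ∃! F : C(ℂ, E), F a = e₀ ∧ p ∘ F = f := by
  have hl : IsLocalHomeomorphOn p (p ⁻¹' s) := fun e he => h e he
  have hc : IsCoveringMapOn p s := IsCoveringMapOn.of_isLocalHomeomorphOn hp hl
  exact hc.existsUnique_continuousMap_lifts (⟨f, hf⟩ : C(ℂ, Y)) he hfs

/-- Lifts of maps of the plane. -/
theorem exists_lift_plane (hp : Continuous p) {s : Set Y}
    (h : ∀ e : E, p e ∈ s → ∃ φ : OpenPartialHomeomorph E Y, e ∈ φ.source ∧ p = φ)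
    {f : ℂ → Y} (hf : Continuous f) (hfs : ∀ z, f z ∈ s) {a : ℂ} {e₀ : E} (he : p e₀ = f a) :
    ∃ g : ℂ → E, Continuous g ∧ g a = e₀ ∧ ∀ z, p (g z) = f z := by
  obtain ⟨F, ⟨h1, hF⟩, -⟩ := exists_unique_lift hp h hf hfs he
  exact ⟨F, F.continuous, h1, fun z => congrFun hF z⟩

/-- Two lifts which agree at a point are equal. -/
theorem lift_unique (hp : Continuous p) {s : Set Y}
    (h : ∀ e : E, p e ∈ s → ∃ φ : OpenPartialHomeomorph E Y, e ∈ φ.source ∧ p = φ)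
    {f : ℂ → Y} (hf : Continuous f) (hfs : ∀ z, f z ∈ s) {g g' : ℂ → E} (hg : Continuous g) (hg' : Continuous g')
    (h1 : ∀ z, p (g z) = f z) (h2 : ∀ z, p (g' z) = f z) {a : ℂ} (ha : g a = g' a) (z : ℂ) : g z = g' z := by
  have h3 := (exists_unique_lift hp h hf hfs (h1 a)).unique (y₁ := (⟨g, hg⟩ : C(ℂ, E))) (y₂ := (⟨g', hg'⟩ : C(ℂ, E)))
    ⟨rfl, funext h1⟩ ⟨ha.symm, funext h2⟩
  exact congrArg (fun F : C(ℂ, E) => F z) h3

omit [T2Space E] in
/-- The fibres are finite. -/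
theorem finite_fibre (hp : Continuous p) {s : Set Y}
    (h : ∀ e : E, p e ∈ s → ∃ φ : OpenPartialHomeomorph E Y, e ∈ φ.source ∧ p = φ) {y : Y} (hy : y ∈ s) :
    (p ⁻¹' {y}).Finite := by
  refine (isClosed_singleton.preimage hp).isCompact.finite (IsDiscrete.of_openPartialHomeomorph p subset_rfl fun e he => ?_)
  obtain ⟨φ, h1, h2⟩ := h e (by rw [show p e = y from he]; exact hy)
  exact ⟨φ, h1, h2.symm⟩

/-- **Periodic lifts.**  A periodic map has a lift which is periodic for a multiple of the period. -/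
theorem exists_lift_periodic (hp : Continuous p) (hsu : Function.Surjective p) {s : Set Y}
    (h : ∀ e : E, p e ∈ s → ∃ φ : OpenPartialHomeomorph E Y, e ∈ φ.source ∧ p = φ)
    {f : ℂ → Y} (hf : Continuous f) (hfs : ∀ z, f z ∈ s) {c : ℂ} (hfc : ∀ z, f (z + c) = f z) :
    ∃ (g : ℂ → E) (k : ℕ), Continuous g ∧ (∀ z, p (g z) = f z) ∧ 1 ≤ k ∧ ∀ z, g (z + k * c) = g z := by
  obtain ⟨e₀, he₀⟩ := hsu (f 0)
  obtain ⟨g, hg, -, hgf⟩ := exists_lift_plane hp h hf hfs he₀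
  have hper : ∀ (n : ℕ) (z : ℂ), f (z + n * c) = f z := by
    intro n
    induction n with
    | zero => intro z; simp
    | succ n ih =>
      intro z
      rw [← hfc z, ← ih (z + c)]
      congr 1
      push_cast
      ring
  have hfin : (p ⁻¹' {f 0}).Finite := finite_fibre hp h (hfs 0)
  have hmaps : ∀ n : ℕ, g (n * c) ∈ p ⁻¹' {f 0} := by
    intro n
    have h1 := hper n 0
    rw [zero_add] at h1
    change p (g (n * c)) = f 0
    rw [hgf, h1]
  obtain ⟨m, n, hmn, hval⟩ : ∃ m n : ℕ, m < n ∧ g (m * c) = g (n * c) := by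
    have : ¬ Function.Injective fun n : ℕ => (⟨g (n * c), hmaps n⟩ : (p ⁻¹' {f 0})) := by
      intro hinj
      have := hfin.to_subtype
      exact not_injective_infinite_finite _ hinj
    rw [Function.not_injective_iff] at this
    obtain ⟨a, b, hab, hne⟩ := this
    have hab' : g (a * c) = g (b * c) := congrArg Subtype.val hab
    rcases lt_or_gt_of_ne hne with hlt | hlt
    · exact ⟨a, b, hlt, hab'⟩
    · exact ⟨b, a, hlt, hab'.symm⟩
  refine ⟨g, n - m, hg, hgf, by omega, fun z => ?_⟩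
  have hgn : ∀ q : ℕ, Continuous fun z => g (z + q * c) := fun q => hg.comp (continuous_id.add continuous_const)
  have h3 : ∀ z, g (z + m * c) = g (z + n * c) := by
    intro z
    refine lift_unique hp h hf hfs (hgn m) (hgn n) (fun z => ?_) (fun z => ?_) (a := 0) ?_ z
    · rw [hgf, hper]
    · rw [hgf, hper]
    · simpa using hval
  have h4 := h3 (z - m * c)
  rw [sub_add_cancel] at h4
  rw [h4]
  congr 1
  rw [Nat.cast_sub hmn.le]
  ring

end Pool.Agent.H62.Qe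

end

section

/-!
# A function which takes every value finitely often near a puncture
-/

open Complex Metric Set Topology Filter

namespace Pool.Agent.H92.GGL

lemma isPreconnected_punctured (R : ℝ) : IsPreconnected {z : ℂ | 0 < ‖z‖ ∧ ‖z‖ < R} := by
  rcases le_or_gt R 0 with hR | hR
  · have : {z : ℂ | 0 < ‖z‖ ∧ ‖z‖ < R} = ∅ := by
      ext z
      simp only [mem_ofPred_eq, mem_empty_iff_false, iff_false, not_and, not_lt]
      intro h
      linarith
    rw [this]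
    exact isPreconnected_empty
  · have h1 : {z : ℂ | 0 < ‖z‖ ∧ ‖z‖ < R} = exp '' {τ : ℂ | τ.re < Real.log R} := by
      ext z
      constructor
      · rintro ⟨h1, h2⟩
        refine ⟨log z, ?_, exp_log (norm_pos_iff.mp h1)⟩
        rw [mem_ofPred_eq, log_re]
        exact Real.log_lt_log h1 h2
      · rintro ⟨τ, hτ, rfl⟩
        rw [mem_ofPred_eq, norm_exp]
        refine ⟨Real.exp_pos _, ?_⟩
        rw [← Real.exp_log hR]
        exact Real.exp_lt_exp.mpr hτ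
    rw [h1]
    exact ((convex_halfSpace_re_lt _).isPreconnected).image _ continuous_exp.continuousOn

lemma isOpen_punctured (R : ℝ) : IsOpen {z : ℂ | 0 < ‖z‖ ∧ ‖z‖ < R} :=
  (isOpen_lt continuous_const continuous_norm).inter (isOpen_lt continuous_norm continuous_const)

lemma punctured_mem {R : ℝ} (hR : 0 < R) : {z : ℂ | 0 < ‖z‖ ∧ ‖z‖ < R} ∈ 𝓝[≠] (0 : ℂ) := by
  have h1 : Metric.ball (0 : ℂ) R ∈ 𝓝 (0 : ℂ) := Metric.ball_mem_nhds _ hR
  filter_upwards [mem_nhdsWithin_of_mem_nhds h1, self_mem_nhdsWithin] with z h2 h3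
  exact ⟨norm_pos_iff.mpr h3, by simpa using h2⟩

/-- A bounded holomorphic function on a punctured disc is meromorphic at the puncture. -/
lemma meromorphicAt_of_bounded {u : ℂ → ℂ} {ε M : ℝ} (hε : 0 < ε)
    (hu : ∀ z, 0 < ‖z‖ → ‖z‖ < ε → AnalyticAt ℂ u z) (hM : ∀ z, 0 < ‖z‖ → ‖z‖ < ε → ‖u z‖ ≤ M) :
    ∃ w : ℂ → ℂ, AnalyticAt ℂ w 0 ∧ ∀ z, z ≠ 0 → w z = u z := by
  have h1 : Metric.ball (0 : ℂ) ε ∈ 𝓝 (0 : ℂ) := Metric.ball_mem_nhds _ hε
  have hmem : ∀ z ∈ Metric.ball (0 : ℂ) ε \ {0}, 0 < ‖z‖ ∧ ‖z‖ < ε := by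
    intro z hz
    refine ⟨norm_pos_iff.mpr hz.2, by simpa using hz.1⟩
  have h2 := differentiableOn_update_limUnder_of_bddAbove h1 (f := u)
    (fun z hz => (hu z (hmem z hz).1 (hmem z hz).2).differentiableAt.differentiableWithinAt) (by
      refine ⟨M, ?_⟩
      rintro _ ⟨z, hz, rfl⟩
      exact hM z (hmem z hz).1 (hmem z hz).2)
  refine ⟨_, (h2.analyticAt h1), fun z hz => ?_⟩
  rw [Function.update_of_ne hz]

/-- **A theorem of Casorati–Weierstrass type.** -/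
theorem meromorphicAt_of_omits {u : ℂ → ℂ} {ε : ℝ} (hε : 0 < ε)
    (hu : ∀ z, 0 < ‖z‖ → ‖z‖ < ε → AnalyticAt ℂ u z)
    (hom : ∀ c, ∃ δ : ℝ, 0 < δ ∧ ∀ z, 0 < ‖z‖ → ‖z‖ < δ → u z ≠ c) : MeromorphicAt u 0 := by
  set A : ℕ → Set ℂ := fun n => {z : ℂ | 0 < ‖z‖ ∧ ‖z‖ < ε / (n + 1)} with hA
  have hεn : ∀ n : ℕ, 0 < ε / (n + 1) := fun n => by positivity
  have hεle : ∀ n : ℕ, ε / (n + 1) ≤ ε := fun n => by
    apply div_le_self hε.le
    have : (0 : ℝ) ≤ n := Nat.cast_nonneg n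
    linarith
  have hAsub : ∀ n, ∀ z ∈ A n, 0 < ‖z‖ ∧ ‖z‖ < ε := fun n z hz =>
    ⟨hz.1, hz.2.trans_le (hεle n)⟩
  by_cases hdense : ∀ n, Dense (u '' A n)
  · exfalso
    have hopen : ∀ n, IsOpen (u '' A n) := by
      intro n
      have han : AnalyticOnNhd ℂ u (A n) := fun z hz => hu z (hAsub n z hz).1 (hAsub n z hz).2
      rcases han.is_constant_or_isOpen (isPreconnected_punctured _) with ⟨w, hw⟩ | hop
      · exfalso
        obtain ⟨δ, hδ, hδu⟩ := hom w
        obtain ⟨z, hz1, hz2⟩ := Filter.nonempty_of_mem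
          (Filter.inter_mem (punctured_mem (hεn n)) (punctured_mem hδ))
        exact hδu z hz2.1 hz2.2 (hw z hz1)
      · exact hop _ subset_rfl (isOpen_punctured _)
    have hD : Dense (⋂ n, u '' A n) := dense_iInter_of_isOpen hopen hdense
    obtain ⟨c, hc⟩ := hD.nonempty
    rw [mem_iInter] at hc
    obtain ⟨δ, hδ, hδu⟩ := hom c
    obtain ⟨n, hn⟩ := exists_nat_gt (ε / δ)
    obtain ⟨z, hz, hzc⟩ := hc n
    refine hδu z hz.1 (hz.2.trans ?_) hzc
    rw [div_lt_iff₀ (by positivity)]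
    rw [div_lt_iff₀ hδ] at hn
    nlinarith
  · push Not at hdense
    obtain ⟨n, hn⟩ := hdense
    obtain ⟨c, hc⟩ : ∃ c, c ∉ closure (u '' A n) := by
      by_contra h
      push Not at h
      exact hn h
    rw [Metric.mem_closure_iff] at hc
    push Not at hc
    obtain ⟨η, hη, hηu⟩ := hc
    have hlow : ∀ z, 0 < ‖z‖ → ‖z‖ < ε / (n + 1) → η ≤ ‖u z - c‖ := by
      intro z h1 h2
      have := hηu _ ⟨z, ⟨h1, h2⟩, rfl⟩
      rwa [dist_comm, dist_eq_norm] at this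
    have hne : ∀ z, 0 < ‖z‖ → ‖z‖ < ε / (n + 1) → u z - c ≠ 0 := by
      intro z h1 h2 h0
      have := hlow z h1 h2
      rw [h0, norm_zero] at this
      linarith
    obtain ⟨w, hw, hwu⟩ := meromorphicAt_of_bounded (u := fun z => (u z - c)⁻¹) (M := η⁻¹) (hεn n)
      (fun z h1 h2 => ((hu z h1 (h2.trans_le (hεle n))).sub analyticAt_const).inv (hne z h1 h2))
      (fun z h1 h2 => by
        rw [norm_inv]
        exact inv_anti₀ hη (hlow z h1 h2))
    have h1 : MeromorphicAt (fun z => (w z)⁻¹ + c) 0 :=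
      (hw.meromorphicAt.inv).add (MeromorphicAt.const c 0)
    refine h1.congr ?_
    filter_upwards [self_mem_nhdsWithin] with z hz
    rw [hwu z hz]
    simp

end Pool.Agent.H92.GGL

end

section

/-!
# MQ Ker: the Jensen kernel `2 ε² / (|w|² + ε²)²` on `ℂ`: mass `2 π`, approximate identity
-/

set_option autoImplicit false

open MeasureTheory Filter Topology Set

namespace Pool.Agent.MQ

/-! ### Polar coordinates with a logarithmic radius -/

private theorem polar_integrable {f : ℂ → ℝ} (hf : Integrable f) :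
    IntegrableOn (fun p : ℝ × ℝ => p.1 * f (Complex.polarCoord.symm p)) (Ioi (0 : ℝ) ×ˢ Ioo (-Real.pi) Real.pi) (volume.prod volume) := by
  have h1 : Integrable (fun p : ℝ × ℝ => f (Complex.measurableEquivRealProd.symm p)) :=
    (Complex.volume_preserving_equiv_real_prod.symm).integrable_comp_of_integrable hf
  have h2 := (integrableOn_image_iff_integrableOn_abs_det_fderiv_smul (volume : Measure (ℝ × ℝ))
    (s := polarCoord.target) (f := polarCoord.symm) (f' := fderivPolarCoordSymm) polarCoord.open_target.measurableSet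
    (fun p _ => (hasFDerivAt_polarCoord_symm p).hasFDerivWithinAt) polarCoord.symm.injOn
    (fun p : ℝ × ℝ => f (Complex.measurableEquivRealProd.symm p))).1 h1.integrableOn
  have h3 : IntegrableOn (fun p : ℝ × ℝ => p.1 * f (Complex.polarCoord.symm p)) polarCoord.target volume := by
    refine h2.congr_fun ?_ polarCoord.open_target.measurableSet
    intro p hp
    have hp1 : (0 : ℝ) < p.1 := hp.1
    simp only [det_fderivPolarCoordSymm, smul_eq_mul, abs_of_pos hp1]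
    rfl
  exact h3

theorem polar_radial (g : ℝ → ℝ) (u : ℂ → ℝ) (hint : Integrable (fun z : ℂ => g (Real.log ‖z‖) / ‖z‖ ^ 2 * u z)) :
    ∫ z : ℂ, g (Real.log ‖z‖) / ‖z‖ ^ 2 * u z = 2 * Real.pi * ∫ s : ℝ, g s * Real.circleAverage u 0 (Real.exp s) := by
  have h1 := Complex.integral_comp_polarCoord_symm (fun z : ℂ => g (Real.log ‖z‖) / ‖z‖ ^ 2 * u z)
  rw [← h1]
  have h2 := setIntegral_prod _ (polar_integrable hint)
  have h3 : ∫ p in polarCoord.target, p.1 • (g (Real.log ‖Complex.polarCoord.symm p‖) / ‖Complex.polarCoord.symm p‖ ^ 2 * u (Complex.polarCoord.symm p)) =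
      ∫ r in Ioi (0 : ℝ), ∫ θ in Ioo (-Real.pi) Real.pi,
        r * (g (Real.log ‖Complex.polarCoord.symm (r, θ)‖) / ‖Complex.polarCoord.symm (r, θ)‖ ^ 2 * u (Complex.polarCoord.symm (r, θ))) := h2
  rw [h3]
  have h4 : ∀ r ∈ Ioi (0 : ℝ), ∫ θ in Ioo (-Real.pi) Real.pi,
        r * (g (Real.log ‖Complex.polarCoord.symm (r, θ)‖) / ‖Complex.polarCoord.symm (r, θ)‖ ^ 2 * u (Complex.polarCoord.symm (r, θ))) =
      r⁻¹ * (2 * Real.pi * (g (Real.log r) * Real.circleAverage u 0 r)) := by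
    intro r hr
    have hr0 : (0 : ℝ) < r := hr
    have e1 : ∀ θ : ℝ, r * (g (Real.log ‖Complex.polarCoord.symm (r, θ)‖) / ‖Complex.polarCoord.symm (r, θ)‖ ^ 2 * u (Complex.polarCoord.symm (r, θ))) =
        r⁻¹ * g (Real.log r) * u (circleMap 0 r θ) := by
      intro θ
      have e2 : Complex.polarCoord.symm (r, θ) = circleMap 0 r θ := by
        rw [Complex.polarCoord_symm_apply, circleMap, Complex.exp_mul_I]
        simp
      have e3 : ‖circleMap 0 r θ‖ = r := by simp [abs_of_pos hr0]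
      rw [e2, e3]
      field_simp
    simp only [e1]
    rw [integral_const_mul, ← integral_Ioc_eq_integral_Ioo, ← intervalIntegral.integral_of_le (by linarith [Real.pi_pos])]
    have e4 : ∫ θ in (-Real.pi)..Real.pi, u (circleMap 0 r θ) = 2 * Real.pi * Real.circleAverage u 0 r := by
      have hper : (fun θ => u (circleMap 0 r θ)).Periodic (2 * Real.pi) := fun x => by simp [periodic_circleMap 0 r x]
      have e5 := hper.intervalIntegral_add_eq (-Real.pi) 0
      rw [show -Real.pi + 2 * Real.pi = Real.pi by ring, zero_add] at e5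
      rw [e5, Real.circleAverage_def, smul_eq_mul]
      have := Real.pi_ne_zero
      field_simp
    rw [e4]
    ring
  rw [setIntegral_congr_fun measurableSet_Ioi h4]
  have h5 := integral_image_eq_integral_abs_deriv_smul (s := univ) (f := Real.exp) (f' := Real.exp) MeasurableSet.univ
    (fun x _ => (Real.hasDerivAt_exp x).hasDerivWithinAt) Real.exp_injective.injOn
    (fun r : ℝ => r⁻¹ * (2 * Real.pi * (g (Real.log r) * Real.circleAverage u 0 r)))
  rw [image_univ, Real.range_exp, setIntegral_univ] at h5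
  rw [h5, ← integral_const_mul]
  refine integral_congr_ae (Eventually.of_forall fun s => ?_)
  have := Real.exp_pos s
  simp only [smul_eq_mul, Real.log_exp, abs_of_pos this]
  field_simp

end Pool.Agent.MQ

end

section

/-!
# MQ2 EquP: a family of graphs over the punctured disc has an analytic equation

`equ_poly`: `Z` is near every point of the closed polydisc outside `{x = 0}` empty or a graph, and empty near the points `(0, y)`, `y ≠ 0`: then
`∏ (y - y_i (x))` extends to an analytic function at `0`.  `equ_graph`: the implicit function.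
-/

set_option autoImplicit false

open Topology Filter Metric Polynomial

noncomputable section

namespace Pool.Agent.MQ2

/-! ## the implicit function -/

/-! ## the fibres -/

open Classical in
/-- the fibre of `Z` over `x` in the closed disc of radius `r` -/
def fibE (Z : Set (ℂ × ℂ)) (r : ℝ) (x : ℂ) : Finset ℂ :=
  if h : {y : ℂ | ‖y‖ ≤ r ∧ (x, y) ∈ Z}.Finite then h.toFinset else ∅

/-- near the points over `x` the set is empty or a graph -/
def LocE (Z : Set (ℂ × ℂ)) (r : ℝ) (x : ℂ) : Prop := ∀ y : ℂ, ‖y‖ ≤ r →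
  (∀ᶠ w in 𝓝 (x, y), w ∉ Z) ∨ (‖y‖ < r ∧ ∃ φ : ℂ → ℂ, AnalyticAt ℂ φ x ∧ φ x = y ∧ ∀ᶠ w in 𝓝 (x, y), (w ∈ Z ↔ w.2 = φ w.1))

variable {Z : Set (ℂ × ℂ)} {r : ℝ}

theorem LocE.finite {x : ℂ} (h : LocE Z r x) : {y : ℂ | ‖y‖ ≤ r ∧ (x, y) ∈ Z}.Finite := by
  have hK : IsCompact (closedBall (0 : ℂ) r) := isCompact_closedBall 0 r
  have h1 : (closedBall (0 : ℂ) r ∩ {y | (x, y) ∈ Z}).Finite := by
    refine hK.induction_on (p := fun s => (s ∩ {y | (x, y) ∈ Z}).Finite) ?_ ?_ ?_ ?_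
    · simp
    · intro s t hst ht
      exact ht.subset (Set.inter_subset_inter_left _ hst)
    · intro s t hs ht
      rw [Set.union_inter_distrib_right]
      exact hs.union ht
    · intro y hy
      have hy' : ‖y‖ ≤ r := by simpa using hy
      have hc : Tendsto (fun y' : ℂ => (x, y')) (𝓝 y) (𝓝 (x, y)) := (Continuous.prodMk_right x).tendsto y
      rcases h y hy' with h2 | ⟨-, φ, -, hφ, h2⟩
      · refine ⟨{y' | (x, y') ∉ Z}, mem_nhdsWithin_of_mem_nhds (hc.eventually h2), ?_⟩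
        refine Set.finite_empty.subset ?_
        rintro y' ⟨h3, h4⟩
        exact h3 h4
      · refine ⟨{y' | (x, y') ∈ Z ↔ y' = φ x}, mem_nhdsWithin_of_mem_nhds (hc.eventually h2), ?_⟩
        refine (Set.finite_singleton (φ x)).subset ?_
        rintro y' ⟨h3, h4⟩
        exact h3.1 h4
  refine h1.subset ?_
  rintro y ⟨h2, h3⟩
  exact ⟨by simpa using h2, h3⟩

theorem LocE.mem {x : ℂ} (h : LocE Z r x) {y : ℂ} : y ∈ fibE Z r x ↔ ‖y‖ ≤ r ∧ (x, y) ∈ Z := by
  unfold fibE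
  rw [dif_pos h.finite, Set.Finite.mem_toFinset]
  rfl

/-- the local structure -/
theorem LocE.loc {x₀ : ℂ} (h : LocE Z r x₀) (hn : ∀ᶠ x in 𝓝 x₀, LocE Z r x) :
    ∃ φ : ℂ → ℂ → ℂ, (∀ y ∈ fibE Z r x₀, AnalyticAt ℂ (φ y) x₀) ∧
      ∀ᶠ x in 𝓝 x₀, Set.InjOn (fun y => φ y x) (fibE Z r x₀ : Set ℂ) ∧ fibE Z r x = (fibE Z r x₀).image fun y => φ y x := by
  have h1 : ∀ y, ∃ φ : ℂ → ℂ, y ∈ fibE Z r x₀ → ‖y‖ < r ∧ AnalyticAt ℂ φ x₀ ∧ φ x₀ = y ∧ ∀ᶠ w in 𝓝 (x₀, y), (w ∈ Z ↔ w.2 = φ w.1) := by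
    intro y
    by_cases hy : y ∈ fibE Z r x₀
    · obtain ⟨hy1, hy2⟩ := h.mem.1 hy
      rcases h y hy1 with h2 | ⟨h2, φ, h3, h4, h5⟩
      · exact absurd hy2 h2.self_of_nhds
      · exact ⟨φ, fun _ => ⟨h2, h3, h4, h5⟩⟩
    · exact ⟨0, fun h => absurd h hy⟩
  choose φ hφ using h1
  refine ⟨φ, fun y hy => (hφ y hy).2.1, ?_⟩
  have ha : ∀ᶠ x in 𝓝 x₀, ∀ y ∈ closedBall (0 : ℂ) r, (x, y) ∈ Z → ∃ y₀ ∈ fibE Z r x₀, y = φ y₀ x := by
    refine (isCompact_closedBall (0 : ℂ) r).eventually_forall_of_forall_eventually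
      (P := fun x y => (x, y) ∈ Z → ∃ y₀ ∈ fibE Z r x₀, y = φ y₀ x) ?_
    intro y hy
    have hy' : ‖y‖ ≤ r := by simpa using hy
    by_cases hyF : y ∈ fibE Z r x₀
    · filter_upwards [(hφ y hyF).2.2.2] with w hw hwZ
      exact ⟨y, hyF, hw.1 hwZ⟩
    · rcases h y hy' with h2 | ⟨-, φ', -, h4, h5⟩
      · filter_upwards [h2] with w hw hwZ
        exact absurd hwZ hw
      · have h6 := h5.self_of_nhds.2 h4.symm
        exact absurd (h.mem.2 ⟨hy', h6⟩) hyF
  have hb : ∀ᶠ x in 𝓝 x₀, ∀ y₀ ∈ fibE Z r x₀, (x, φ y₀ x) ∈ Z ∧ ‖φ y₀ x‖ < r := by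
    refine (Filter.eventually_all_finset _).2 fun y₀ hy₀ => ?_
    obtain ⟨h2, h3, h4, h5⟩ := hφ y₀ hy₀
    have ht : Tendsto (fun x => (x, φ y₀ x)) (𝓝 x₀) (𝓝 (x₀, y₀)) := by
      have := (continuousAt_id.prodMk h3.continuousAt).tendsto
      simpa [h4] using this
    have hn' : ∀ᶠ x in 𝓝 x₀, ‖φ y₀ x‖ < r := h3.continuousAt.norm.eventually (gt_mem_nhds (by
      show ‖φ y₀ x₀‖ < r
      rw [h4]
      exact h2))
    filter_upwards [ht.eventually h5, hn'] with x hx hx'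
    exact ⟨hx.2 rfl, hx'⟩
  have hc : ∀ᶠ x in 𝓝 x₀, ∀ y ∈ fibE Z r x₀, ∀ y' ∈ fibE Z r x₀, y ≠ y' → φ y x ≠ φ y' x := by
    refine (Filter.eventually_all_finset _).2 fun y hy => (Filter.eventually_all_finset _).2 fun y' hy' => ?_
    by_cases hyy : y = y'
    · exact Eventually.of_forall fun x h => absurd hyy h
    · obtain ⟨-, h3, h4, -⟩ := hφ y hy
      obtain ⟨-, h3', h4', -⟩ := hφ y' hy'
      have h6 : ∀ᶠ x in 𝓝 x₀, φ y x - φ y' x ≠ 0 := (h3.continuousAt.sub h3'.continuousAt).eventually_ne (by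
        show φ y x₀ - φ y' x₀ ≠ 0
        rw [h4, h4']
        exact sub_ne_zero.2 hyy)
      filter_upwards [h6] with x hx _
      exact sub_ne_zero.1 hx
  filter_upwards [ha, hb, hc, hn] with x hxa hxb hxc hxn
  refine ⟨fun y hy y' hy' hyy => ?_, ?_⟩
  · by_contra hne
    exact hxc y hy y' hy' hne hyy
  · ext y
    rw [hxn.mem, Finset.mem_image]
    constructor
    · rintro ⟨h2, h3⟩
      obtain ⟨y₀, hy₀, h4⟩ := hxa y (by simpa using h2) h3
      exact ⟨y₀, hy₀, h4.symm⟩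
    · rintro ⟨y₀, hy₀, rfl⟩
      exact ⟨(hxb y₀ hy₀).2.le, (hxb y₀ hy₀).1⟩

/-! ## the polynomial of the fibre -/

variable (Z r) in
/-- the polynomial of the fibre -/
def pE (x : ℂ) : ℂ[X] := ∏ w ∈ fibE Z r x, (X - C w)

theorem pE_eval (x v : ℂ) : (pE Z r x).eval v = ∏ w ∈ fibE Z r x, (v - w) := by
  unfold pE
  rw [eval_prod]
  exact Finset.prod_congr rfl fun w _ => by rw [eval_sub, eval_X, eval_C]

theorem pE_natDegree (x : ℂ) : (pE Z r x).natDegree = (fibE Z r x).card := by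
  unfold pE
  rw [natDegree_prod_of_monic _ _ fun w _ => monic_X_sub_C w]
  simp

theorem pE_derivative {x y : ℂ} (hy : y ∈ fibE Z r x) : (pE Z r x).derivative.eval y ≠ 0 := by
  classical
  have h1 : pE Z r x = (X - C y) * ∏ w ∈ (fibE Z r x).erase y, (X - C w) := (Finset.mul_prod_erase _ _ hy).symm
  rw [h1, derivative_mul, eval_add, eval_mul, eval_mul, eval_prod]
  simp only [derivative_sub, derivative_X, derivative_C, sub_zero, eval_one, one_mul, eval_sub, eval_X, eval_C, sub_self, zero_mul, add_zero]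
  refine Finset.prod_ne_zero_iff.2 fun w hw => ?_
  exact sub_ne_zero.2 (Finset.ne_of_mem_erase hw).symm

theorem LocE.analyticAt {x₀ : ℂ} (h : LocE Z r x₀) (hn : ∀ᶠ x in 𝓝 x₀, LocE Z r x) (v : ℂ) : AnalyticAt ℂ (fun x => (pE Z r x).eval v) x₀ := by
  obtain ⟨φ, hφ, hev⟩ := h.loc hn
  have h1 : AnalyticAt ℂ (fun x => ∏ y ∈ fibE Z r x₀, (v - φ y x)) x₀ :=
    Finset.analyticAt_fun_prod _ fun y hy => analyticAt_const.sub (hφ y hy)
  refine h1.congr ?_
  filter_upwards [hev] with x hx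
  rw [pE_eval, hx.2, Finset.prod_image fun y hy y' hy' => hx.1 hy hy']

theorem LocE.card {x₀ : ℂ} (h : LocE Z r x₀) (hn : ∀ᶠ x in 𝓝 x₀, LocE Z r x) : ∀ᶠ x in 𝓝 x₀, (fibE Z r x).card = (fibE Z r x₀).card := by
  obtain ⟨φ, hφ, hev⟩ := h.loc hn
  filter_upwards [hev] with x hx
  rw [hx.2, Finset.card_image_of_injOn hx.1]

/-! ## the theorem -/

/-- **The equation of a family of graphs.** -/
theorem equ_poly {Z : Set (ℂ × ℂ)} {s r : ℝ} (hs : 0 < s) (hr : 0 < r)
    (hloc : ∀ x y : ℂ, x ≠ 0 → ‖x‖ < s → ‖y‖ ≤ r → (∀ᶠ w in 𝓝 (x, y), w ∉ Z) ∨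
      (‖y‖ < r ∧ ∃ φ : ℂ → ℂ, AnalyticAt ℂ φ x ∧ φ x = y ∧ ∀ᶠ w in 𝓝 (x, y), (w ∈ Z ↔ w.2 = φ w.1)))
    (h0 : ∀ y : ℂ, y ≠ 0 → ‖y‖ ≤ r → ∀ᶠ w in 𝓝 ((0 : ℂ), y), w ∉ Z) :
    ∃ g : ℂ × ℂ → ℂ, AnalyticAt ℂ g 0 ∧ (∃ᶠ p in 𝓝 (0 : ℂ × ℂ), g p ≠ 0) ∧
      ∀ᶠ p in 𝓝 (0 : ℂ × ℂ), p ≠ 0 → (g p = 0 ↔ p ∈ Z) ∧ (g p = 0 → fderiv ℂ g p ≠ 0) := by
  set D : Set ℂ := {z : ℂ | 0 < ‖z‖ ∧ ‖z‖ < s} with hD
  have hDo : IsOpen D := Pool.Agent.H92.GGL.isOpen_punctured s
  have hDc : IsPreconnected D := Pool.Agent.H92.GGL.isPreconnected_punctured s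
  have hL : ∀ x ∈ D, LocE Z r x := fun x hx y hy => hloc x y (norm_pos_iff.1 hx.1) hx.2 hy
  have hLn : ∀ x ∈ D, ∀ᶠ w in 𝓝 x, LocE Z r w := fun x hx => by
    filter_upwards [hDo.mem_nhds hx] with w hw
    exact hL w hw
  -- the number of the points of the fibre
  have hx₁ : ((s / 2 : ℝ) : ℂ) ∈ D := by
    have h1 : ‖((s / 2 : ℝ) : ℂ)‖ = s / 2 := by rw [Complex.norm_real, Real.norm_of_nonneg (by positivity)]
    exact ⟨by rw [h1]; positivity, by rw [h1]; linarith⟩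
  set m : ℕ := (fibE Z r ((s / 2 : ℝ) : ℂ)).card with hm
  have hcard : ∀ x ∈ D, (fibE Z r x).card = m := by
    intro x hx
    refine hDc.constant (f := fun x => (fibE Z r x).card) (fun w hw => ?_) hx hx₁
    exact (continuousAt_const.congr ((hL w hw).card (hLn w hw) |>.mono fun _ h => h.symm)).continuousWithinAt
  set v : ℕ → ℂ := fun k => (k : ℂ) with hv
  have hvi : Set.InjOn v (Finset.range (m + 1) : Set ℕ) := fun a _ b _ hab => Nat.cast_injective hab
  -- the values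
  set e : ℕ → ℂ → ℂ := fun k x => (pE Z r x).eval (v k) with he
  set Γ : ℕ → ℂ → ℂ := fun k => Function.update (e k) 0 (limUnder (𝓝[≠] 0) (e k)) with hΓ
  have hball : ∀ x ∈ ball (0 : ℂ) s \ {0}, x ∈ D := fun x hx => ⟨norm_pos_iff.2 hx.2, by simpa using hx.1⟩
  have hΓd : ∀ k, DifferentiableOn ℂ (Γ k) (ball 0 s) := by
    intro k
    refine Complex.differentiableOn_update_limUnder_of_bddAbove (ball_mem_nhds 0 hs) ?_ ?_
    · intro x hx
      exact ((hL x (hball x hx)).analyticAt (hLn x (hball x hx)) (v k)).differentiableAt.differentiableWithinAt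
    · refine ⟨(‖v k‖ + r) ^ m, ?_⟩
      rintro _ ⟨x, hx, rfl⟩
      show ‖(pE Z r x).eval (v k)‖ ≤ _
      rw [pE_eval, norm_prod, ← hcard x (hball x hx)]
      refine (Finset.prod_le_prod (fun _ _ => norm_nonneg _) fun w hw => ?_).trans (le_of_eq (Finset.prod_const _))
      exact (norm_sub_le _ _).trans (add_le_add le_rfl ((hL x (hball x hx)).mem.1 hw).1)
  have hΓa : ∀ k, ∀ x ∈ ball (0 : ℂ) s, AnalyticAt ℂ (Γ k) x := fun k x hx => (hΓd k).analyticAt (isOpen_ball.mem_nhds hx)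
  have hΓe : ∀ k, ∀ x, x ≠ 0 → Γ k x = (pE Z r x).eval (v k) := fun k x hx => Function.update_of_ne hx _ _
  set g : ℂ × ℂ → ℂ := fun p => ∑ k ∈ Finset.range (m + 1), Γ k p.1 * (Lagrange.basis (Finset.range (m + 1)) v k).eval p.2 with hg
  have hga : ∀ p : ℂ × ℂ, ‖p.1‖ < s → AnalyticAt ℂ g p := by
    intro p hp
    refine Finset.analyticAt_fun_sum _ fun k _ => ?_
    have h1 : AnalyticAt ℂ (fun p : ℂ × ℂ => Γ k p.1) p := (hΓa k p.1 (by simpa using hp)).comp analyticAt_fst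
    have h2 : AnalyticAt ℂ (fun p : ℂ × ℂ => (Lagrange.basis (Finset.range (m + 1)) v k).eval p.2) p :=
      ((Lagrange.basis (Finset.range (m + 1)) v k).differentiable.analyticAt p.2).comp analyticAt_snd
    exact h1.mul h2
  have hge : ∀ x ∈ D, ∀ y, g (x, y) = (pE Z r x).eval y := by
    intro x hx y
    have hdeg : (pE Z r x).degree < ((Finset.range (m + 1)).card : WithBot ℕ) := by
      refine lt_of_le_of_lt degree_le_natDegree ?_
      rw [pE_natDegree, hcard x hx, Finset.card_range]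
      exact_mod_cast Nat.lt_succ_self m
    have h1 := Lagrange.eq_interpolate hvi hdeg
    rw [Lagrange.interpolate_apply] at h1
    conv_rhs => rw [h1]
    rw [eval_finsetSum]
    refine Finset.sum_congr rfl fun k _ => ?_
    rw [eval_mul, eval_C, hΓe k x (norm_pos_iff.1 hx.1)]
  -- the fibre over `0`
  have hsmall : ∀ ε : ℝ, 0 < ε → ∀ᶠ x in 𝓝 (0 : ℂ), ∀ y ∈ closedBall (0 : ℂ) r ∩ {y | ε ≤ ‖y‖}, (x, y) ∉ Z := by
    intro ε hε
    have hK : IsCompact (closedBall (0 : ℂ) r ∩ {y | ε ≤ ‖y‖}) := (isCompact_closedBall 0 r).inter_right (isClosed_le continuous_const continuous_norm)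
    refine hK.eventually_forall_of_forall_eventually (P := fun x y => (x, y) ∉ Z) ?_
    rintro y ⟨hy1, hy2⟩
    have hy2' : ε ≤ ‖y‖ := hy2
    exact h0 y (norm_pos_iff.1 (by linarith)) (by simpa using hy1)
  have hg0 : ∀ y : ℂ, y ≠ 0 → g (0, y) ≠ 0 := by
    intro y hy
    have hyp : 0 < ‖y‖ := norm_pos_iff.2 hy
    have hcont : Tendsto (fun x : ℂ => ‖g (x, y)‖) (𝓝[≠] 0) (𝓝 ‖g (0, y)‖) := by
      have h1 : ContinuousAt g ((0 : ℂ), y) := (hga (0, y) (by simpa using hs)).continuousAt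
      have h2 : Tendsto (fun x : ℂ => (x, y)) (𝓝 0) (𝓝 (0, y)) := (Continuous.prodMk_left y).tendsto 0
      exact ((h1.tendsto.comp h2).norm).mono_left nhdsWithin_le_nhds
    have hlow : ∀ᶠ x in 𝓝[≠] (0 : ℂ), (‖y‖ / 2) ^ m ≤ ‖g (x, y)‖ := by
      filter_upwards [nhdsWithin_le_nhds (hsmall (‖y‖ / 2) (by positivity)), nhdsWithin_le_nhds (ball_mem_nhds (0 : ℂ) hs), self_mem_nhdsWithin]
        with x hx1 hx2 hx3
      have hxD : x ∈ D := hball x ⟨hx2, hx3⟩
      rw [hge x hxD, pE_eval, norm_prod, ← hcard x hxD, ← Finset.prod_const]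
      refine Finset.prod_le_prod (fun _ _ => by positivity) fun w hw => ?_
      obtain ⟨hw1, hw2⟩ := (hL x hxD).mem.1 hw
      have hw3 : ‖w‖ < ‖y‖ / 2 := by
        by_contra hcon
        push Not at hcon
        exact hx1 w ⟨by simpa using hw1, hcon⟩ hw2
      have := norm_sub_norm_le y w
      linarith
    have h1 := ge_of_tendsto hcont hlow
    have h2 : 0 < (‖y‖ / 2) ^ m := by positivity
    exact norm_pos_iff.1 (by linarith)
  refine ⟨g, hga 0 (by simpa using hs), ?_, ?_⟩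
  · have h1 : Tendsto (fun y : ℂ => ((0 : ℂ), y)) (𝓝[≠] 0) (𝓝 (0 : ℂ × ℂ)) := ((Continuous.prodMk_right (0 : ℂ)).tendsto 0).mono_left nhdsWithin_le_nhds
    have h2 : ∀ᶠ y in 𝓝[≠] (0 : ℂ), g (0, y) ≠ 0 := by
      filter_upwards [self_mem_nhdsWithin] with y hy
      exact hg0 y hy
    exact h1.frequently h2.frequently
  · filter_upwards [ball_mem_nhds (0 : ℂ × ℂ) (lt_min hs hr)] with p hp hp0
    obtain ⟨x, y⟩ := p
    rw [mem_ball_zero_iff, Prod.norm_def, max_lt_iff] at hp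
    have hxs : ‖x‖ < s := lt_of_lt_of_le hp.1 (min_le_left _ _)
    have hyr : ‖y‖ < r := lt_of_lt_of_le hp.2 (min_le_right _ _)
    rcases eq_or_ne x 0 with rfl | hx
    · have hy : y ≠ 0 := by
        rintro rfl
        exact hp0 rfl
      have h1 := hg0 y hy
      have h2 : ((0 : ℂ), y) ∉ Z := (h0 y hy hyr.le).self_of_nhds
      exact ⟨⟨fun h => absurd h h1, fun h => absurd h h2⟩, fun h => absurd h h1⟩
    · have hxD : x ∈ D := ⟨norm_pos_iff.2 hx, hxs⟩
      have hiff : g (x, y) = 0 ↔ y ∈ fibE Z r x := by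
        rw [hge x hxD, pE_eval, Finset.prod_eq_zero_iff]
        constructor
        · rintro ⟨w, hw, h1⟩
          rwa [sub_eq_zero.1 h1]
        · intro h1
          exact ⟨y, h1, sub_self y⟩
      refine ⟨?_, fun h1 h2 => ?_⟩
      · rw [hiff, (hL x hxD).mem]
        exact ⟨fun h => h.2, fun h => ⟨hyr.le, h⟩⟩
      · have h3 : HasDerivAt (fun y' : ℂ => g (x, y')) ((pE Z r x).derivative.eval y) y := by
          have h4 := (pE Z r x).hasDerivAt y
          refine h4.congr_of_eventuallyEq (Eventually.of_forall fun y' => ?_)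
          exact hge x hxD y'
        have h4 : HasFDerivAt g (fderiv ℂ g (x, y)) (x, y) := (hga (x, y) hxs).differentiableAt.hasFDerivAt
        have h5 : HasDerivAt (fun y' : ℂ => (x, y')) ((0 : ℂ), (1 : ℂ)) y := (hasDerivAt_const y x).prodMk (hasDerivAt_id y)
        have h6 : HasDerivAt (fun y' : ℂ => g (x, y')) (fderiv ℂ g (x, y) (0, 1)) y := h4.comp_hasDerivAt y h5
        have h7 := h3.unique h6
        rw [h2] at h7
        exact pE_derivative (hiff.1 h1) h7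

end Pool.Agent.MQ2

end
end

section

/-!
# MQ3 ThInd: the function `Θ` does not depend on the chart

`Th v om m p = ζ' / ζ + ζ div v (p) + (1 / m) (om p)' / om p`, where `p' = ζ v (p)`.
-/

set_option autoImplicit false

open Topology Filter Metric

noncomputable section

namespace Pool.Agent.MQ3

open Pool.Agent.MQ (ztv)

theorem ztv_of {v : ℂ × ℂ → ℂ × ℂ} {g : ℂ → ℂ × ℂ} {z c : ℂ} (h : deriv g z = c • v (g z)) (h0 : v (g z) ≠ 0) : ztv v g z = c := by
  classical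
  unfold ztv
  rw [h]
  split_ifs with h2
  · have h1 : (v (g z)).1 ≠ 0 := fun h1 => h0 (Prod.ext h1 h2)
    simp only [Prod.smul_fst, smul_eq_mul]
    rw [mul_div_cancel_right₀ _ h1]
  · simp only [Prod.smul_snd, smul_eq_mul]
    rw [mul_div_cancel_right₀ _ h2]

/-- `p' = ζ v (p)` -/
theorem ztv_smul {v : ℂ × ℂ → ℂ × ℂ} {g : ℂ → ℂ × ℂ} {z : ℂ} (h : (v (g z)).1 * (deriv g z).2 - (v (g z)).2 * (deriv g z).1 = 0) (h0 : v (g z) ≠ 0) :
    deriv g z = ztv v g z • v (g z) := by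
  classical
  unfold ztv
  split_ifs with h2
  · have h1 : (v (g z)).1 ≠ 0 := fun h1 => h0 (Prod.ext h1 h2)
    refine Prod.ext ?_ ?_
    · simp only [Prod.smul_fst, smul_eq_mul]
      rw [div_mul_cancel₀ _ h1]
    · simp only [Prod.smul_snd, smul_eq_mul]
      rw [h2, mul_zero]
      rw [h2, zero_mul, sub_zero] at h
      exact (mul_eq_zero.1 h).resolve_left h1
  · refine Prod.ext ?_ ?_
    · simp only [Prod.smul_fst, smul_eq_mul]
      rw [div_mul_eq_mul_div, eq_div_iff h2]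
      linear_combination -h
    · simp only [Prod.smul_snd, smul_eq_mul]
      rw [div_mul_cancel₀ _ h2]

theorem ztv_an {v : ℂ × ℂ → ℂ × ℂ} {g : ℂ → ℂ × ℂ} {z : ℂ} (hg : AnalyticAt ℂ g z) (hv : AnalyticAt ℂ v (g z))
    (h : ∀ᶠ w in 𝓝 z, (v (g w)).1 * (deriv g w).2 - (v (g w)).2 * (deriv g w).1 = 0) (h0 : v (g z) ≠ 0) : AnalyticAt ℂ (ztv v g) z := by
  have hvg : AnalyticAt ℂ (fun w => v (g w)) z := AnalyticAt.fun_comp (g := v) (f := g) hv hg
  have hne : ∀ᶠ w in 𝓝 z, v (g w) ≠ 0 := hvg.continuousAt.eventually_ne h0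
  by_cases h2 : (v (g z)).2 = 0
  · have h3 : (v (g z)).1 ≠ 0 := fun h3 => h0 (Prod.ext h3 h2)
    have h5 : AnalyticAt ℂ (fun w => (v (g w)).1) z := analyticAt_fst.comp hvg
    have h6 : AnalyticAt ℂ (fun w => (deriv g w).1) z := analyticAt_fst.comp hg.deriv
    refine (h6.div h5 h3).congr ?_
    filter_upwards [h, hne, h5.continuousAt.eventually_ne h3] with w e1 e2 e3
    have h4 := congrArg Prod.fst (ztv_smul e1 e2)
    simp only [Prod.smul_fst, smul_eq_mul] at h4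
    show (deriv g w).1 / (v (g w)).1 = _
    rw [h4, mul_div_cancel_right₀ _ e3]
  · have h5 : AnalyticAt ℂ (fun w => (v (g w)).2) z := analyticAt_snd.comp hvg
    have h6 : AnalyticAt ℂ (fun w => (deriv g w).2) z := analyticAt_snd.comp hg.deriv
    refine (h6.div h5 h2).congr ?_
    filter_upwards [h, hne, h5.continuousAt.eventually_ne h2] with w e1 e2 e3
    have h4 := congrArg Prod.snd (ztv_smul e1 e2)
    simp only [Prod.smul_snd, smul_eq_mul] at h4
    show (deriv g w).2 / (v (g w)).2 = _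
    rw [h4, mul_div_cancel_right₀ _ e3]

end Pool.Agent.MQ3

end
end

section

/-!
# SB/An: reduction of singularities, analytic side: definitions

`Jet f s`: the formal power series `s` is the Taylor series of `f` at `0`.
`Tree a b`: the germ at `0` of the vector field `v x = a`, `v y = b` (`a`, `b` analytic at `0`) is reduced by finitely many
blow-ups; the transforms are taken in the coordinates `(x, y)`, old `y = x (y + t)`, and the same with `x`, `y` exchanged.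
-/

set_option autoImplicit false

open Topology

noncomputable section

namespace Pool.Agent.SB

/-- `s` is the Taylor series of `f` at `0` -/
def Jet (f : ℂ × ℂ → ℂ) (s : R2) : Prop :=
  ∀ N : ℕ, ∃ P : MvPolynomial (Fin 2) ℂ, Ord N (s - (P : R2)) ∧
    (fun p : ℂ × ℂ => f p - MvPolynomial.eval ![p.1, p.2] P) =O[𝓝 0] fun p => ‖p‖ ^ N

/-- `(a₁, b₁)` is a transform of `(a, b)` at the point `t` of the exceptional line -/
def AChild (t : ℂ) (a b a₁ b₁ : ℂ × ℂ → ℂ) (e : ℕ) : Prop :=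
  (∀ᶠ p : ℂ × ℂ in 𝓝 0, a (p.1, p.1 * (p.2 + t)) = p.1 ^ e * a₁ p) ∧
  (∀ᶠ p : ℂ × ℂ in 𝓝 0, b (p.1, p.1 * (p.2 + t)) - (p.2 + t) * a (p.1, p.1 * (p.2 + t)) =
    p.1 ^ (e + 1) * b₁ p)

/-- elementary and reduced: the linear part has the eigenvalues `l ≠ 0` and `k`, and `k / l` is not a positive rational number -/
def AElem (a b : ℂ × ℂ → ℂ) : Prop :=
  a 0 = 0 ∧ b 0 = 0 ∧ ∃ l k : ℂ, l + k = fderiv ℂ a 0 (1, 0) + fderiv ℂ b 0 (0, 1) ∧
    l * k = fderiv ℂ a 0 (1, 0) * fderiv ℂ b 0 (0, 1) - fderiv ℂ a 0 (0, 1) * fderiv ℂ b 0 (1, 0) ∧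
    l ≠ 0 ∧ ∀ p q : ℕ, 0 < p → 0 < q → (p : ℂ) * l ≠ q * k

/-- reducible by finitely many blow-ups -/
inductive Tree : (ℂ × ℂ → ℂ) → (ℂ × ℂ → ℂ) → Prop
  | reg (a b : ℂ × ℂ → ℂ) : AnalyticAt ℂ a 0 → AnalyticAt ℂ b 0 → (a 0 ≠ 0 ∨ b 0 ≠ 0) → Tree a b
  | elem (a b : ℂ × ℂ → ℂ) : AnalyticAt ℂ a 0 → AnalyticAt ℂ b 0 → AElem a b → Tree a b
  | blow (a b : ℂ × ℂ → ℂ) (a₁ b₁ : ℂ → ℂ × ℂ → ℂ) (e : ℂ → ℕ) (a₂ b₂ : ℂ × ℂ → ℂ) (e₂ : ℕ) :
      AnalyticAt ℂ a 0 → AnalyticAt ℂ b 0 → (∀ t, AChild t a b (a₁ t) (b₁ t) (e t)) → (∀ t, Tree (a₁ t) (b₁ t)) →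
      AChild 0 (fun p => b p.swap) (fun p => a p.swap) a₂ b₂ e₂ → Tree a₂ b₂ → Tree a b

end Pool.Agent.SB

end
end

section

/-!
# SB/An Ex: every analytic germ has a Taylor series
-/

set_option autoImplicit false

open Topology MvPowerSeries

noncomputable section

namespace Pool.Agent.SB

namespace AnEx

/-- the coefficient of `x ^ i y ^ (n - i)` in `p n` -/
def A (p : FormalMultilinearSeries ℂ (ℂ × ℂ) ℂ) (n i : ℕ) : ℂ :=
  ∑ s ∈ (Finset.univ : Finset (Finset (Fin n))).filter (fun s => s.card = i),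
    p n (s.piecewise (fun _ => ((1 : ℂ), (0 : ℂ))) fun _ => ((0 : ℂ), (1 : ℂ)))

theorem p_apply (p : FormalMultilinearSeries ℂ (ℂ × ℂ) ℂ) (n : ℕ) (z : ℂ × ℂ) :
    p n (fun _ => z) = ∑ i ∈ Finset.range (n + 1), A p n i * (z.1 ^ i * z.2 ^ (n - i)) := by
  classical
  have h1 : (fun _ : Fin n => z) = (fun _ : Fin n => z.1 • ((1 : ℂ), (0 : ℂ))) + fun _ : Fin n => z.2 • ((0 : ℂ), (1 : ℂ)) := by
    funext i
    simp
  have h2 : ∀ s : Finset (Fin n), p n (s.piecewise (fun _ => z.1 • ((1 : ℂ), (0 : ℂ))) fun _ => z.2 • ((0 : ℂ), (1 : ℂ)))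
      = p n (s.piecewise (fun _ => ((1 : ℂ), (0 : ℂ))) fun _ => ((0 : ℂ), (1 : ℂ))) * (z.1 ^ s.card * z.2 ^ (n - s.card)) := by
    intro s
    have e1 : (s.piecewise (fun _ : Fin n => z.1 • ((1 : ℂ), (0 : ℂ))) fun _ => z.2 • ((0 : ℂ), (1 : ℂ)))
        = fun i => (if i ∈ s then z.1 else z.2) • (s.piecewise (fun _ : Fin n => ((1 : ℂ), (0 : ℂ))) (fun _ => ((0 : ℂ), (1 : ℂ))) i) := by
      funext i
      by_cases hi : i ∈ s <;> simp [Finset.piecewise, hi]
    rw [e1]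
    have e2 := (p n).toMultilinearMap.map_smul_univ (fun i => if i ∈ s then z.1 else z.2)
      (s.piecewise (fun _ : Fin n => ((1 : ℂ), (0 : ℂ))) fun _ => ((0 : ℂ), (1 : ℂ)))
    have e3 : ∏ i : Fin n, (if i ∈ s then z.1 else z.2) = z.1 ^ s.card * z.2 ^ (n - s.card) := by
      rw [Finset.prod_ite]
      simp only [Finset.prod_const]
      congr 2
      · congr 1
        ext i; simp
      · have : (Finset.univ.filter fun i : Fin n => i ∉ s) = sᶜ := by ext i; simp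
        rw [this, Finset.card_compl, Fintype.card_fin]
    rw [e3] at e2
    calc _ = _ := e2
      _ = _ := by rw [smul_eq_mul, mul_comm]; rfl
  have h3 := (p n).toMultilinearMap.map_add_univ (fun _ : Fin n => z.1 • ((1 : ℂ), (0 : ℂ))) fun _ : Fin n => z.2 • ((0 : ℂ), (1 : ℂ))
  have h4 : p n (fun _ => z) = ∑ s : Finset (Fin n), p n (s.piecewise (fun _ => z.1 • ((1 : ℂ), (0 : ℂ))) fun _ => z.2 • ((0 : ℂ), (1 : ℂ))) := by
    rw [h1]
    exact h3
  rw [h4, Finset.sum_congr rfl fun s _ => h2 s]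
  have h5 : ∀ s ∈ (Finset.univ : Finset (Finset (Fin n))), s.card ∈ Finset.range (n + 1) := fun s _ => by
    rw [Finset.mem_range]
    have := s.card_le_univ
    rw [Fintype.card_fin] at this
    omega
  rw [← Finset.sum_fiberwise_of_maps_to h5]
  refine Finset.sum_congr rfl fun i _ => ?_
  rw [A, Finset.sum_mul]
  refine Finset.sum_congr rfl fun s hs => ?_
  rw [(Finset.mem_filter.1 hs).2]

theorem ex_inj {i j i' j' : ℕ} (h : ex i j = ex i' j') : i = i' ∧ j = j' := by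
  have h0 := DFunLike.congr_fun h 0
  have h1 := DFunLike.congr_fun h 1
  simp [ex] at h0 h1
  exact ⟨h0, h1⟩

/-- the Taylor polynomial -/
def TP (p : FormalMultilinearSeries ℂ (ℂ × ℂ) ℂ) (N : ℕ) : MvPolynomial (Fin 2) ℂ :=
  ∑ n ∈ Finset.range N, ∑ i ∈ Finset.range (n + 1), MvPolynomial.monomial (ex i (n - i)) (A p n i)

theorem coeff_TP (p : FormalMultilinearSeries ℂ (ℂ × ℂ) ℂ) {N i j : ℕ} (h : i + j < N) :
    MvPolynomial.coeff (ex i j) (TP p N) = A p (i + j) i := by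
  classical
  unfold TP
  rw [MvPolynomial.coeff_sum]
  simp only [MvPolynomial.coeff_sum, MvPolynomial.coeff_monomial]
  rw [Finset.sum_eq_single (i + j)]
  · rw [Finset.sum_eq_single i]
    · rw [if_pos (by rw [Nat.add_sub_cancel_left])]
    · intro k _ hk
      rw [if_neg]
      intro he
      exact hk (ex_inj he).1
    · intro hi
      exact absurd (Finset.mem_range.2 (by omega)) hi
  · intro n _ hn
    refine Finset.sum_eq_zero fun k hk => ?_
    rw [if_neg]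
    intro he
    obtain ⟨h1, h2⟩ := ex_inj he
    rw [Finset.mem_range] at hk
    omega
  · intro hn
    exact absurd (Finset.mem_range.2 h) hn

theorem eval_TP (p : FormalMultilinearSeries ℂ (ℂ × ℂ) ℂ) (N : ℕ) (z : ℂ × ℂ) :
    MvPolynomial.eval ![z.1, z.2] (TP p N) = p.partialSum N z := by
  unfold TP FormalMultilinearSeries.partialSum
  rw [map_sum]
  refine Finset.sum_congr rfl fun n _ => ?_
  rw [map_sum, p_apply]
  refine Finset.sum_congr rfl fun i _ => ?_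
  rw [MvPolynomial.eval_monomial]
  congr 1
  rw [Finsupp.prod_fintype _ _ fun _ => pow_zero _, Fin.prod_univ_two]
  simp [ex]

/-- the Taylor series -/
def TS (p : FormalMultilinearSeries ℂ (ℂ × ℂ) ℂ) : R2 := fun d => A p (d 0 + d 1) (d 0)

theorem coeff_TS (p : FormalMultilinearSeries ℂ (ℂ × ℂ) ℂ) (i j : ℕ) : coeff (ex i j) (TS p) = A p (i + j) i := by
  have h2 : coeff (ex i j) (TS p) = A p ((ex i j) 0 + (ex i j) 1) ((ex i j) 0) := rfl
  have e0 : (ex i j) 0 = i := by simp [ex]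
  have e1 : (ex i j) 1 = j := by simp [ex]
  rw [h2, e0, e1]

end AnEx

open AnEx

theorem exists_jet {f : ℂ × ℂ → ℂ} (hf : AnalyticAt ℂ f 0) : ∃ s : R2, Jet f s := by
  obtain ⟨p, hp⟩ := hf
  refine ⟨TS p, fun N => ⟨TP p N, ?_, ?_⟩⟩
  · intro i j hij
    rw [cf, map_sub, MvPolynomial.coeff_coe, coeff_TP p hij, coeff_TS, sub_self]
  · have h1 := hp.isBigO_sub_partialSum_pow N
    simp only [zero_add] at h1
    simpa only [eval_TP] using h1

end Pool.Agent.SB

end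
end

section

/-!
# SB/An Un: the Taylor series is unique
-/

set_option autoImplicit false

open Topology MvPowerSeries Asymptotics

noncomputable section

namespace Pool.Agent.SB

namespace AnUn

/-- a polynomial in one variable which is `O(τ ^ N)` has no terms of degree less than `N` -/
theorem coeff_zero_of_isBigO {N : ℕ} : ∀ {q : Polynomial ℂ}, ((fun τ : ℂ => q.eval τ) =O[𝓝[≠] 0] fun τ => τ ^ N) → ∀ m < N, q.coeff m = 0 := by
  induction N with
  | zero => intro q _ m hm; omega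
  | succ N ih =>
    intro q h m hm
    have h0 : q.coeff 0 = 0 := by
      have t1 : Filter.Tendsto (fun τ : ℂ => τ ^ (N + 1)) (𝓝[≠] 0) (𝓝 0) := by
        have : Continuous fun τ : ℂ => τ ^ (N + 1) := by fun_prop
        have h2 := this.tendsto 0
        rw [zero_pow (Nat.succ_ne_zero N)] at h2
        exact h2.mono_left nhdsWithin_le_nhds
      have t2 := h.trans_tendsto t1
      have t3 : Filter.Tendsto (fun τ : ℂ => q.eval τ) (𝓝[≠] 0) (𝓝 (q.eval 0)) := (q.continuous.tendsto 0).mono_left nhdsWithin_le_nhds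
      rw [Polynomial.coeff_zero_eq_eval_zero]
      exact tendsto_nhds_unique t3 t2
    have hdiv : (fun τ : ℂ => q.divX.eval τ) =O[𝓝[≠] 0] fun τ => τ ^ N := by
      have e : q = q.divX * Polynomial.X := by
        have := Polynomial.divX_mul_X_add q
        rw [h0, map_zero, add_zero] at this
        exact this.symm
      have h2 := h.bound
      obtain ⟨c, hc⟩ := h2
      refine IsBigO.of_bound c ?_
      filter_upwards [hc, self_mem_nhdsWithin] with τ h3 hτ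
      have hτ0 : τ ≠ 0 := hτ
      have hn : 0 < ‖τ‖ := norm_pos_iff.2 hτ0
      rw [e, Polynomial.eval_mul, Polynomial.eval_X, norm_mul, pow_succ, norm_mul, ← mul_assoc] at h3
      exact le_of_mul_le_mul_right h3 hn
    rcases m with _ | m
    · exact h0
    · have := ih hdiv m (by omega)
      rwa [Polynomial.coeff_divX] at this

/-- restriction to a line -/
def ln (z : ℂ × ℂ) : MvPolynomial (Fin 2) ℂ →ₐ[ℂ] Polynomial ℂ :=
  MvPolynomial.aeval ![Polynomial.C z.1 * Polynomial.X, Polynomial.C z.2 * Polynomial.X]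

theorem eval_ln (z : ℂ × ℂ) (Q : MvPolynomial (Fin 2) ℂ) (τ : ℂ) :
    (ln z Q).eval τ = MvPolynomial.eval ![z.1 * τ, z.2 * τ] Q := by
  have h : (Polynomial.evalRingHom τ).comp (ln z).toRingHom = MvPolynomial.eval ![z.1 * τ, z.2 * τ] := by
    apply MvPolynomial.ringHom_ext
    · intro r
      simp [ln]
    · intro i
      fin_cases i <;> simp [ln]
  have := RingHom.congr_fun h Q
  simpa using this

theorem ln_hom (z : ℂ × ℂ) {Q : MvPolynomial (Fin 2) ℂ} {m : ℕ} (hQ : Q.IsHomogeneous m) :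
    ln z Q = Polynomial.C (MvPolynomial.eval ![z.1, z.2] Q) * Polynomial.X ^ m := by
  rw [ln, MvPolynomial.aeval_def, MvPolynomial.eval₂_eq', MvPolynomial.eval_eq', map_sum, Finset.sum_mul]
  refine Finset.sum_congr rfl fun d hd => ?_
  have h1 : d 0 + d 1 = m := by
    have := hQ (MvPolynomial.mem_support_iff.1 hd)
    rw [Finsupp.weight_apply, Finsupp.sum_fintype _ _ (by simp), Fin.sum_univ_two] at this
    simpa using this
  rw [Fin.prod_univ_two, Fin.prod_univ_two]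
  simp only [Matrix.cons_val_zero, Matrix.cons_val_one, Polynomial.algebraMap_eq, map_mul, map_pow]
  rw [← h1, pow_add]
  ring

theorem coeff_ln (z : ℂ × ℂ) (Q : MvPolynomial (Fin 2) ℂ) (m : ℕ) :
    (ln z Q).coeff m = MvPolynomial.eval ![z.1, z.2] (MvPolynomial.homogeneousComponent m Q) := by
  conv_lhs => rw [← MvPolynomial.sum_homogeneousComponent Q]
  rw [map_sum, Polynomial.finsetSum_coeff]
  simp_rw [fun i => ln_hom z (MvPolynomial.homogeneousComponent_isHomogeneous i Q), Polynomial.coeff_C_mul, Polynomial.coeff_X_pow]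
  by_cases hm : m < Q.totalDegree + 1
  · rw [Finset.sum_eq_single m]
    · simp
    · intro k _ hk
      rw [if_neg (Ne.symm hk), mul_zero]
    · intro h
      exact absurd (Finset.mem_range.2 hm) h
  · rw [MvPolynomial.homogeneousComponent_eq_zero _ _ (by omega), map_zero]
    refine Finset.sum_eq_zero fun k hk => ?_
    rw [Finset.mem_range] at hk
    rw [if_neg (by omega), mul_zero]

theorem eq_ex (d : Fin 2 →₀ ℕ) : d = ex (d 0) (d 1) := by
  ext i
  fin_cases i <;> simp [ex]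

end AnUn

open AnUn

theorem ord_of_isBigO {Q : MvPolynomial (Fin 2) ℂ} {N : ℕ}
    (h : (fun p : ℂ × ℂ => MvPolynomial.eval ![p.1, p.2] Q) =O[𝓝 0] fun p => ‖p‖ ^ N) : Ord N (Q : R2) := by
  have h1 : ∀ m < N, MvPolynomial.homogeneousComponent m Q = 0 := by
    intro m hm
    refine MvPolynomial.funext fun x => ?_
    rw [map_zero]
    have hx : x = ![x 0, x 1] := by
      funext i; fin_cases i <;> rfl
    have hz := coeff_ln (x 0, x 1) Q m
    simp only at hz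
    rw [← hx] at hz
    rw [← hz]
    refine coeff_zero_of_isBigO (N := N) ?_ m hm
    have h2 : Filter.Tendsto (fun τ : ℂ => (x 0 * τ, x 1 * τ)) (𝓝 0) (𝓝 (0 : ℂ × ℂ)) := by
      have : Continuous fun τ : ℂ => (x 0 * τ, x 1 * τ) := by fun_prop
      exact this.tendsto' 0 0 (by simp)
    have h3 := (h.comp_tendsto h2)
    have h4 : (fun τ : ℂ => ‖(x 0 * τ, x 1 * τ)‖ ^ N) =O[𝓝 0] fun τ : ℂ => τ ^ N := by
      refine IsBigO.of_bound (‖(x 0, x 1)‖ ^ N) (Filter.Eventually.of_forall fun τ => ?_)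
      have h5 : (x 0 * τ, x 1 * τ) = τ • (x 0, x 1) := by simp [mul_comm]
      rw [h5, norm_smul, norm_pow, norm_mul, norm_norm, norm_norm, mul_pow, norm_pow, mul_comm]
    have h6 : (fun τ : ℂ => (ln (x 0, x 1) Q).eval τ) = (fun p : ℂ × ℂ => MvPolynomial.eval ![p.1, p.2] Q) ∘ fun τ : ℂ => (x 0 * τ, x 1 * τ) := by
      funext τ
      rw [eval_ln]
      rfl
    rw [h6]
    exact ((h3.trans h4).mono nhdsWithin_le_nhds)
  intro i j hij
  have h2 := congrArg (MvPolynomial.coeff (ex i j)) (h1 (i + j) hij)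
  rw [MvPolynomial.coeff_homogeneousComponent, MvPolynomial.coeff_zero] at h2
  have hdeg : (ex i j).degree = i + j := by
    rw [Finsupp.degree_eq_sum, Fin.sum_univ_two]
    simp [ex]
  rw [if_pos hdeg] at h2
  rw [cf, MvPolynomial.coeff_coe, h2]

theorem Jet.unique {f : ℂ × ℂ → ℂ} {s s' : R2} (h : Jet f s) (h' : Jet f s') : s = s' := by
  refine MvPowerSeries.ext fun d => ?_
  obtain ⟨P, hP, hO⟩ := h (d 0 + d 1 + 1)
  obtain ⟨P', hP', hO'⟩ := h' (d 0 + d 1 + 1)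
  have h1 : (fun p : ℂ × ℂ => MvPolynomial.eval ![p.1, p.2] (P - P')) =O[𝓝 0] fun p => ‖p‖ ^ (d 0 + d 1 + 1) := by
    refine (hO'.sub hO).congr_left fun p => ?_
    rw [map_sub]
    ring
  have h2 := ord_of_isBigO h1 (d 0) (d 1) (by omega)
  have h3 := hP (d 0) (d 1) (by omega)
  have h4 := hP' (d 0) (d 1) (by omega)
  rw [cf, ← eq_ex] at h2 h3 h4
  rw [map_sub] at h3 h4
  rw [MvPolynomial.coeff_coe, MvPolynomial.coeff_sub] at h2
  rw [MvPolynomial.coeff_coe] at h3 h4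
  have e3 := sub_eq_zero.1 h3
  have e4 := sub_eq_zero.1 h4
  have e2 := sub_eq_zero.1 h2
  rw [e3, e4, e2]

end Pool.Agent.SB

end
end
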