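import Pool.Agent.H43.TL2.M10

/-! The parts of this file: H62.BU.Alg, H62.BU.Ch. -/

section

/-!
# BU Alg: the blow-up as a set, algebraic identities
-/

set_option autoImplicit false

namespace Pool.Agent.H62.BU

open Filter Topology

variable {V : Type*} [NormedAddCommGroup V] [NormedSpace ℂ V] {ι : Type*} [Fintype ι]

/-- the quadratic map of the blow-up -/
noncomputable def phi (l : ι → V →L[ℂ] ℂ) (x : V) : ι → V := fun b => l b x • x

/-- the part of the blow-up off the exceptional curve -/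
def dense (l : ι → V →L[ℂ] ℂ) (X : Set V) : Set (ι → V) :=
  {y | ∃ x ∈ X, (∃ b, l b x ≠ 0) ∧ ∃ c : ℂ, c ≠ 0 ∧ y = c • phi l x}

/-- the blow-up -/
def blow (l : ι → V →L[ℂ] ℂ) (X : Set V) : Set (ι → V) := {y | y ∈ closure (dense l X) ∧ y ≠ 0}

/-- the total transform -/
def total (l : ι → V →L[ℂ] ℂ) (X B : Set V) : Set (ι → V) := {y | y ∈ blow l X ∧ ∀ b, y b ≠ 0 → y b ∈ B}

variable {l : ι → V →L[ℂ] ℂ} {X : Set V}

theorem phi_ne {x : V} (h : ∃ b, l b x ≠ 0) : phi l x ≠ 0 := by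
  obtain ⟨b, hb⟩ := h
  intro h0
  have h1 : l b x • x = 0 := congrFun h0 b
  rcases smul_eq_zero.mp h1 with h2 | h2
  · exact hb h2
  · rw [h2, map_zero] at hb
    exact hb rfl

theorem phi_smul (c : ℂ) (x : V) : phi l (c • x) = c ^ 2 • phi l x := by
  funext b
  simp only [phi, map_smul, smul_eq_mul, Pi.smul_apply, smul_smul]
  ring_nf

theorem dense_sub : dense l X ⊆ blow l X := by
  rintro y ⟨x, hx, hb, c, hc, rfl⟩
  exact ⟨subset_closure ⟨x, hx, hb, c, hc, rfl⟩, smul_ne_zero hc (phi_ne hb)⟩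

theorem phi_mem_dense {x : V} (hx : x ∈ X) (h : ∃ b, l b x ≠ 0) : phi l x ∈ dense l X :=
  ⟨x, hx, h, 1, one_ne_zero, (one_smul _ _).symm⟩

theorem dense_smul {y : ι → V} (hy : y ∈ dense l X) {c : ℂ} (hc : c ≠ 0) : c • y ∈ dense l X := by
  obtain ⟨x, hx, hb, a, ha, rfl⟩ := hy
  exact ⟨x, hx, hb, c * a, mul_ne_zero hc ha, by rw [smul_smul]⟩

theorem blow_zero : (0 : ι → V) ∉ blow l X := fun h => h.2 rfl

theorem blow_smul (y : ι → V) (hy : y ∈ blow l X) (c : ℂ) (hc : c ≠ 0) : c • y ∈ blow l X := by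
  refine ⟨?_, smul_ne_zero hc hy.2⟩
  have h1 : Continuous fun y : ι → V => c • y := continuous_const_smul c
  have h2 : Set.MapsTo (fun y : ι → V => c • y) (dense l X) (dense l X) := fun y hy => dense_smul hy hc
  exact h2.closure h1 hy.1

theorem blow_closed (y : ι → V) (hy : y ∈ closure (blow l X)) (h0 : y ≠ 0) : y ∈ blow l X := by
  refine ⟨?_, h0⟩
  have h1 : blow l X ⊆ closure (dense l X) := fun z hz => hz.1
  have h2 := closure_mono h1 hy
  rwa [closure_closure] at h2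

/-- closed relations extend from the dense part -/
theorem blow_ind {P : (ι → V) → Prop} (hP : IsClosed {y | P y}) (h : ∀ y ∈ dense l X, P y) {y : ι → V}
    (hy : y ∈ blow l X) : P y :=
  (hP.closure_subset_iff.mpr (fun z hz => h z hz)) hy.1

theorem symm (y : ι → V) (hy : y ∈ blow l X) (b b' : ι) : l b (y b') = l b' (y b) := by
  refine blow_ind (P := fun y => l b (y b') = l b' (y b)) ?_ ?_ hy
  · exact isClosed_eq ((l b).continuous.comp (continuous_apply b')) ((l b').continuous.comp (continuous_apply b))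
  · rintro _ ⟨x, hx, hb, c, hc, rfl⟩
    simp only [phi, Pi.smul_apply, map_smul, smul_eq_mul]
    ring

theorem prop (y : ι → V) (hy : y ∈ blow l X) (Λ : V →L[ℂ] ℂ) (b b' : ι) : Λ (y b) • y b' = Λ (y b') • y b := by
  refine blow_ind (P := fun y => Λ (y b) • y b' = Λ (y b') • y b) ?_ ?_ hy
  · exact isClosed_eq ((Λ.continuous.comp (continuous_apply b)).smul (continuous_apply b'))
      ((Λ.continuous.comp (continuous_apply b')).smul (continuous_apply b))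
  · rintro _ ⟨x, hx, hb, c, hc, rfl⟩
    simp only [phi, Pi.smul_apply, map_smul, smul_eq_mul, smul_smul]
    ring_nf

theorem comp_mem (hX : Surface X) (y : ι → V) (hy : y ∈ blow l X) {b : ι} (hb : y b ≠ 0) : y b ∈ X := by
  have h1 : y b ∈ closure (insert 0 X) := by
    have h2 : Set.MapsTo (fun y : ι → V => y b) (dense l X) (insert 0 X) := by
      rintro _ ⟨x, hx, -, c, hc, rfl⟩
      show c • l b x • x ∈ insert 0 X
      rw [smul_smul]
      by_cases h3 : c * l b x = 0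
      · rw [h3, zero_smul]
        exact Set.mem_insert _ _
      · exact Set.mem_insert_of_mem _ (hX.smul x hx _ h3)
    exact h2.closure (continuous_apply b) hy.1
  rw [Set.insert_eq, closure_union, closure_singleton, Set.mem_union, Set.mem_singleton_iff] at h1
  rcases h1 with h1 | h1
  · exact absurd h1 hb
  · exact hX.closed _ h1 hb

theorem ne_of_ne (y : ι → V) (hy : y ∈ blow l X) {b b' : ι} (hb : y b ≠ 0) (hb' : l b' (y b) ≠ 0) : l b (y b) ≠ 0 := by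
  have h1 := prop y hy (l b') b b'
  have h2 := symm y hy b b'
  have h3 : y b' ≠ 0 := by
    intro h0
    rw [h0, map_zero] at h2
    exact hb' h2.symm
  intro h0
  have h4 := prop y hy (l b) b b'
  rw [h0, zero_smul, h2] at h4
  exact (smul_ne_zero hb' hb) h4.symm

theorem eq_phi (y : ι → V) (hy : y ∈ blow l X) {b b' : ι} (hb : y b ≠ 0) (hb' : l b' (y b) ≠ 0) :
    y = (l b (y b))⁻¹ • phi l (y b) := by
  have h1 := ne_of_ne y hy hb hb'
  funext c
  have h2 := prop y hy (l b) b c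
  rw [symm y hy b c] at h2
  simp only [phi, Pi.smul_apply]
  rw [← h2, smul_smul, inv_mul_cancel₀ h1, one_smul]

theorem mem_dense_of_ne (hX : Surface X) (y : ι → V) (hy : y ∈ blow l X) {b b' : ι} (hb : y b ≠ 0)
    (hb' : l b' (y b) ≠ 0) : y ∈ dense l X := by
  rw [eq_phi y hy hb hb']
  exact dense_smul (phi_mem_dense (comp_mem hX y hy hb) ⟨b', hb'⟩) (inv_ne_zero (ne_of_ne y hy hb hb'))

theorem exists_ne (y : ι → V) (hy : y ∈ blow l X) : ∃ b, y b ≠ 0 := by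
  by_contra h
  push Not at h
  exact hy.2 (funext h)

/-- the components are proportional -/
theorem comp_smul (y : ι → V) (hy : y ∈ blow l X) {b : ι} (hb : y b ≠ 0) (b' : ι) :
    ∃ c : ℂ, y b' = c • y b := by
  obtain ⟨Λ, hΛ⟩ := exists_dual_vector ℂ (y b) (norm_ne_zero_iff.mpr hb)
  have h1 : (Λ (y b)) ≠ 0 := by
    rw [hΛ.2]
    simpa using hb
  have h2 := prop y hy Λ b b'
  refine ⟨(Λ (y b))⁻¹ * Λ (y b'), ?_⟩
  rw [mul_smul, ← h2, smul_smul, inv_mul_cancel₀ h1, one_smul]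

end Pool.Agent.H62.BU

end

section

/-!
# BU Ch: operations with charts, charts of the blow-up from the dense part

* `scale`: `σ' = a σ`, `τ' y = τ (a⁻¹ y)`.
* `comp_linear`: `σ' = σ ∘ e`, `τ' = e⁻¹ ∘ τ`.
* `deriv_left`: differentiate `left` at `0`: `Dτ(σ 0) (Dσ(0) w) = w`.
* `deriv_self`: differentiate `c ↦ τ (c • σ 0)` at `c = 1`: it is constant near `1` by `inv` (put `y = σ 0`).
* `indep`: apply `Dτ(σ 0)` to `Dσ(0) w = c • σ 0`.
* `isChart_of_dense`: choose `Λ` with `Λ (σ1 0) ≠ 0` (`exists_dual_vector`).  There is an open neighbourhood `U` of `σ1 0` on which `τ1` and `y ↦ σ1 (τ1 y)` are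
  continuous (`AnalyticAt.eventually_analyticAt`) and `hright` holds.  For `y ∈ U ∩ dense`: `Λ(σ1(τ1 y)) • y = Λ(y) • σ1(τ1 y)`; by continuity this holds for `y ∈ U ∩ closure dense`
  (`y ∈ closure dense`, `U` open: `mem_closure_iff_frequently`; the limit of two functions which are equal frequently... use `ContinuousAt` and `tendsto_nhds_unique_of_frequently_eq`).
  Near `σ1 0` also `Λ (σ1 (τ1 y)) ≠ 0` and `Λ y ≠ 0`, so `c = Λ y / Λ (σ1 (τ1 y))`.  (`τ1 (σ1 0) = 0` by `hleft.self_of_nhds`.)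
-/

set_option autoImplicit false

namespace Pool.Agent.H62.BU

open Filter Topology

variable {V : Type*} [NormedAddCommGroup V] [NormedSpace ℂ V] {ι : Type*} [Fintype ι]
variable {l : ι → V →L[ℂ] ℂ} {X : Set V} {σ : ℂ × ℂ → V} {τ : V → ℂ × ℂ}

theorem IsChart.scale (h : IsChart X σ τ) (hX : ∀ x ∈ X, ∀ c : ℂ, c ≠ 0 → c • x ∈ X) {a : ℂ} (ha : a ≠ 0) :
    IsChart X (fun p => a • σ p) (fun y => τ (a⁻¹ • y)) := by
  have hs : a⁻¹ • (a • σ 0) = σ 0 := by rw [smul_smul, inv_mul_cancel₀ ha, one_smul]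
  have htend : Tendsto (fun y : V => a⁻¹ • y) (𝓝 (a • σ 0)) (𝓝 (σ 0)) := by
    have h1 : Tendsto (fun y : V => a⁻¹ • y) (𝓝 (a • σ 0)) (𝓝 (a⁻¹ • (a • σ 0))) :=
      (continuous_const_smul a⁻¹).tendsto _
    rwa [hs] at h1
  refine ⟨analyticAt_const.smul h.σ_an, ?_, smul_ne_zero ha h.ne, ?_, ?_, ?_, ?_⟩
  · filter_upwards [h.σ_mem] with p hp
    exact hX _ hp a ha
  · have h1 : AnalyticAt ℂ τ ((fun y : V => a⁻¹ • y) (a • σ 0)) := by
      simp only [hs]
      exact h.τ_an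
    exact h1.comp (analyticAt_const.smul analyticAt_id)
  · filter_upwards [h.left] with p hp
    rw [smul_smul, inv_mul_cancel₀ ha, one_smul]
    exact hp
  · filter_upwards [htend.eventually h.right] with y hy hyX
    obtain ⟨c, hc, hc2⟩ := hy (hX y hyX a⁻¹ (inv_ne_zero ha))
    refine ⟨c, hc, ?_⟩
    rw [smul_comm, ← hc2, smul_smul, mul_inv_cancel₀ ha, one_smul]
  · have h1 : Tendsto (fun p : V × ℂ => (a⁻¹ • p.1, p.2)) (𝓝 (a • σ 0, (1 : ℂ))) (𝓝 (σ 0, (1 : ℂ))) := by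
      rw [nhds_prod_eq, nhds_prod_eq]
      exact (htend.comp tendsto_fst).prodMk tendsto_snd
    filter_upwards [h1.eventually h.inv] with p hp
    rw [smul_comm]
    exact hp

theorem IsChart.comp_linear (h : IsChart X σ τ) (e : (ℂ × ℂ) ≃L[ℂ] (ℂ × ℂ)) :
    IsChart X (fun p => σ (e p)) (fun y => e.symm (τ y)) := by
  have he : Tendsto (fun p : ℂ × ℂ => e p) (𝓝 0) (𝓝 0) := by
    have h1 : Tendsto (fun p : ℂ × ℂ => e p) (𝓝 0) (𝓝 (e 0)) := e.continuous.tendsto 0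
    rwa [map_zero] at h1
  have h0 : σ (e 0) = σ 0 := by rw [map_zero]
  refine ⟨?_, ?_, ?_, ?_, ?_, ?_, ?_⟩
  · have h1 : AnalyticAt ℂ σ (e 0) := by rw [map_zero]; exact h.σ_an
    exact h1.comp (e.toContinuousLinearMap.analyticAt 0)
  · exact he.eventually h.σ_mem
  · rw [h0]; exact h.ne
  · rw [h0]
    exact (e.symm.toContinuousLinearMap.analyticAt _).comp h.τ_an
  · filter_upwards [he.eventually h.left] with p hp
    rw [hp, ContinuousLinearEquiv.symm_apply_apply]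
  · rw [h0]
    filter_upwards [h.right] with y hy hyX
    obtain ⟨c, hc, hc2⟩ := hy hyX
    exact ⟨c, hc, by rw [ContinuousLinearEquiv.apply_symm_apply]; exact hc2⟩
  · rw [h0]
    filter_upwards [h.inv] with p hp
    rw [hp]

theorem IsChart.deriv_left (h : IsChart X σ τ) (w : ℂ × ℂ) : fderiv ℂ τ (σ 0) (fderiv ℂ σ 0 w) = w := by
  have h1 : HasFDerivAt σ (fderiv ℂ σ 0) 0 := h.σ_an.differentiableAt.hasFDerivAt
  have h2 : HasFDerivAt τ (fderiv ℂ τ (σ 0)) (σ 0) := h.τ_an.differentiableAt.hasFDerivAt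
  have h3 := h2.comp (0 : ℂ × ℂ) h1
  have h4 : HasFDerivAt (τ ∘ σ) (ContinuousLinearMap.id ℂ (ℂ × ℂ)) 0 := by
    refine (hasFDerivAt_id (0 : ℂ × ℂ)).congr_of_eventuallyEq ?_
    filter_upwards [h.left] with p hp
    exact hp
  have h5 := h3.unique h4
  have h6 := congrArg (fun L : (ℂ × ℂ) →L[ℂ] (ℂ × ℂ) => L w) h5
  simpa using h6

theorem IsChart.deriv_self (h : IsChart X σ τ) : fderiv ℂ τ (σ 0) (σ 0) = 0 := by
  have h1 : HasDerivAt (fun c : ℂ => c • σ 0) (σ 0) 1 := by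
    have := (hasDerivAt_id (1 : ℂ)).smul_const (σ 0)
    simpa using this
  have h2 : HasFDerivAt τ (fderiv ℂ τ (σ 0)) ((1 : ℂ) • σ 0) := by
    rw [one_smul]; exact h.τ_an.differentiableAt.hasFDerivAt
  have h3 := h2.comp_hasDerivAt (1 : ℂ) h1
  have h4 : HasDerivAt (τ ∘ fun c : ℂ => c • σ 0) 0 1 := by
    refine (hasDerivAt_const (1 : ℂ) (τ (σ 0))).congr_of_eventuallyEq ?_
    have h5 : Tendsto (fun c : ℂ => (σ 0, c)) (𝓝 1) (𝓝 (σ 0, (1 : ℂ))) := by
      rw [nhds_prod_eq]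
      exact tendsto_const_nhds.prodMk tendsto_id
    filter_upwards [h5.eventually h.inv] with c hc
    exact hc
  exact h3.unique h4

theorem IsChart.indep (h : IsChart X σ τ) {w : ℂ × ℂ} {c : ℂ} (hw : fderiv ℂ σ 0 w = c • σ 0) : w = 0 := by
  rw [← h.deriv_left w, hw, map_smul, h.deriv_self, smul_zero]

theorem isChart_of_dense {σ1 : ℂ × ℂ → ι → V} {τ1 : (ι → V) → ℂ × ℂ} (hσ : AnalyticAt ℂ σ1 0)
    (hmem : ∀ᶠ p in 𝓝 (0 : ℂ × ℂ), σ1 p ∈ blow l X) (hτ : AnalyticAt ℂ τ1 (σ1 0))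
    (hleft : ∀ᶠ p in 𝓝 (0 : ℂ × ℂ), τ1 (σ1 p) = p)
    (hright : ∀ᶠ y in 𝓝 (σ1 0), y ∈ dense l X → ∃ c : ℂ, y = c • σ1 (τ1 y))
    (hinv : ∀ᶠ p in 𝓝 (σ1 0, (1 : ℂ)), τ1 (p.2 • p.1) = τ1 p.1) : IsChart (blow l X) σ1 τ1 := by
  have hne : σ1 0 ≠ 0 := (hmem.self_of_nhds).2
  refine ⟨hσ, hmem, hne, hτ, hleft, ?_, hinv⟩
  obtain ⟨Λ, hΛ⟩ := exists_dual_vector ℂ (σ1 0) (norm_ne_zero_iff.mpr hne)
  have hΛ0 : Λ (σ1 0) ≠ 0 := by
    rw [hΛ.2]
    simpa using hne
  have h00 : τ1 (σ1 0) = 0 := hleft.self_of_nhds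
  have hτt : Tendsto τ1 (𝓝 (σ1 0)) (𝓝 0) := by
    have := hτ.continuousAt
    unfold ContinuousAt at this
    rwa [h00] at this
  have hc1 : ∀ᶠ y in 𝓝 (σ1 0), ContinuousAt τ1 y := hτ.eventually_continuousAt
  have hc2 : ∀ᶠ y in 𝓝 (σ1 0), ContinuousAt σ1 (τ1 y) := hτt.eventually hσ.eventually_continuousAt
  have hst : Tendsto (fun y => σ1 (τ1 y)) (𝓝 (σ1 0)) (𝓝 (σ1 0)) := by
    have h1 : Tendsto σ1 (𝓝 0) (𝓝 (σ1 0)) := hσ.continuousAt
    exact h1.comp hτt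
  have hn1 : ∀ᶠ y in 𝓝 (σ1 0), Λ (σ1 (τ1 y)) ≠ 0 := by
    have h1 : Tendsto (fun y => Λ (σ1 (τ1 y))) (𝓝 (σ1 0)) (𝓝 (Λ (σ1 0))) :=
      (Λ.continuous.tendsto _).comp hst
    exact h1.eventually_ne hΛ0
  have hn2 : ∀ᶠ y in 𝓝 (σ1 0), Λ y ≠ 0 := (Λ.continuous.tendsto _).eventually_ne hΛ0
  filter_upwards [hc1, hc2, hn1, hn2, eventually_eventually_nhds.mpr hright] with y h1 h2 h3 h4 h5 hy
  have hF : ContinuousAt (fun z => Λ (σ1 (τ1 z)) • z - Λ z • σ1 (τ1 z)) y := by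
    have e1 : ContinuousAt (fun z => σ1 (τ1 z)) y := ContinuousAt.comp' h2 h1
    have e2 : ContinuousAt (fun z => Λ (σ1 (τ1 z))) y := Λ.continuous.continuousAt.comp' e1
    exact (e2.smul continuousAt_id).sub (Λ.continuous.continuousAt.smul e1)
  have hfr : ∃ᶠ z in 𝓝 y, Λ (σ1 (τ1 z)) • z - Λ z • σ1 (τ1 z) ∈ ({0} : Set (ι → V)) := by
    have e1 := mem_closure_iff_frequently.mp hy.1
    refine (e1.and_eventually h5).mono ?_
    rintro z ⟨hz1, hz2⟩
    obtain ⟨c, hc⟩ := hz2 hz1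
    rw [Set.mem_singleton_iff, sub_eq_zero]
    have e2 : Λ z = c * Λ (σ1 (τ1 z)) := by
      conv_lhs => rw [hc]
      rw [map_smul, smul_eq_mul]
    rw [e2, mul_comm c, mul_smul, ← hc]
  have hy0 := (isClosed_singleton (x := (0 : ι → V))).mem_of_frequently_of_tendsto hfr hF
  rw [Set.mem_singleton_iff, sub_eq_zero] at hy0
  refine ⟨Λ y / Λ (σ1 (τ1 y)), div_ne_zero h4 h3, ?_⟩
  rw [div_eq_inv_mul, mul_smul, ← hy0, smul_smul, inv_mul_cancel₀ h3, one_smul]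

end Pool.Agent.H62.BU

end
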