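import Pool.Agent.H43.TL2.M05
import Pool.Agent.H43.TL2.M07

/-! The parts of this file: H17.Projective, H14.PP.Defs_1, H62.EF.Defs. -/

section

/-!
# Separation of points and charts of projective space
-/

open Topology Filter

namespace Pool.Agent.H17

variable {N : ℕ}

/-- The vector of the `2 × 2` minors. -/
def minors (v w : Fin (N + 1) → ℂ) : Fin (N + 1) × Fin (N + 1) → ℂ :=
  fun p => v p.1 * w p.2 - v p.2 * w p.1

/-- The separation of two vectors. -/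
noncomputable def sepv (v w : Fin (N + 1) → ℂ) : ℝ := ‖minors v w‖ / (‖v‖ * ‖w‖)

/-- The separation of two points of projective space. -/
noncomputable def sep (p q : PN N) : ℝ := sepv p.rep q.rep

lemma minors_smul (a b : ℂ) (v w : Fin (N + 1) → ℂ) :
    minors (a • v) (b • w) = (a * b) • minors v w := by
  funext p
  simp only [minors, Pi.smul_apply, smul_eq_mul]
  ring

lemma sepv_smul {a b : ℂ} (ha : a ≠ 0) (hb : b ≠ 0) (v w : Fin (N + 1) → ℂ) :
    sepv (a • v) (b • w) = sepv v w := by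
  unfold sepv
  rw [minors_smul, norm_smul, norm_smul, norm_smul, norm_mul]
  have h1 := norm_pos_iff.mpr ha
  have h2 := norm_pos_iff.mpr hb
  rw [show ‖a‖ * ‖v‖ * (‖b‖ * ‖w‖) = (‖a‖ * ‖b‖) * (‖v‖ * ‖w‖) by ring]
  rw [mul_div_mul_left _ _ (by positivity)]

lemma exists_smul_rep (v : Fin (N + 1) → ℂ) (hv : v ≠ 0) :
    ∃ a : ℂ, a ≠ 0 ∧ (Projectivization.mk ℂ v hv).rep = a • v := by
  obtain ⟨a, ha⟩ := Projectivization.exists_smul_eq_mk_rep ℂ v hv
  exact ⟨a, a.ne_zero, by rw [← ha]; rfl⟩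

lemma sep_mk (v w : Fin (N + 1) → ℂ) (hv : v ≠ 0) (hw : w ≠ 0) :
    sep (Projectivization.mk ℂ v hv) (Projectivization.mk ℂ w hw) = sepv v w := by
  obtain ⟨a, ha, h1⟩ := exists_smul_rep v hv
  obtain ⟨b, hb, h2⟩ := exists_smul_rep w hw
  unfold sep
  rw [h1, h2, sepv_smul ha hb]

lemma minors_self (v : Fin (N + 1) → ℂ) : minors v v = 0 := by
  funext p
  simp only [minors, Pi.zero_apply]
  ring

/-- Vectors with vanishing minors are proportional. -/
lemma mk_eq_of_minors {v w : Fin (N + 1) → ℂ} (hv : v ≠ 0) (hw : w ≠ 0) (h : minors v w = 0) :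
    Projectivization.mk ℂ v hv = Projectivization.mk ℂ w hw := by
  obtain ⟨i, hi⟩ : ∃ i, w i ≠ 0 := by
    by_contra hcon
    push Not at hcon
    exact hw (funext hcon)
  have hcross : ∀ j, v i * w j = v j * w i := fun j => by
    have := congrFun h (i, j)
    simp only [minors, Pi.zero_apply] at this
    exact sub_eq_zero.mp this
  have hvi : v i ≠ 0 := by
    intro h0
    apply hv
    funext j
    have h1 := hcross j
    rw [h0, zero_mul] at h1
    exact (mul_eq_zero.mp h1.symm).resolve_right hi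
  rw [Projectivization.mk_eq_mk_iff]
  refine ⟨Units.mk0 (v i / w i) (div_ne_zero hvi hi), ?_⟩
  funext j
  change v i / w i * w j = v j
  have h1 := hcross j
  field_simp
  linear_combination h1

lemma eq_of_sepv_eq_zero {v w : Fin (N + 1) → ℂ} (hv : v ≠ 0) (hw : w ≠ 0) (h : sepv v w = 0) :
    Projectivization.mk ℂ v hv = Projectivization.mk ℂ w hw := by
  apply mk_eq_of_minors hv hw
  unfold sepv at h
  have h1 : ‖v‖ * ‖w‖ ≠ 0 := mul_ne_zero (norm_ne_zero_iff.mpr hv) (norm_ne_zero_iff.mpr hw)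
  rcases div_eq_zero_iff.mp h with h2 | h2
  · exact norm_eq_zero.mp h2
  · exact absurd h2 h1

/-- Continuity of the separation. -/
lemma continuousAt_sepv {v w : Fin (N + 1) → ℂ} (hv : v ≠ 0) (hw : w ≠ 0) :
    ContinuousAt (fun p : (Fin (N + 1) → ℂ) × (Fin (N + 1) → ℂ) => sepv p.1 p.2) (v, w) := by
  unfold sepv
  refine ContinuousAt.div ?_ ?_ ?_
  · apply Continuous.continuousAt
    refine Continuous.norm ?_
    refine continuous_pi fun q => ?_
    unfold minors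
    fun_prop
  · fun_prop
  · exact mul_ne_zero (norm_ne_zero_iff.mpr hv) (norm_ne_zero_iff.mpr hw)

/-- The affine coordinates with respect to the `i`-th coordinate hyperplane. -/
noncomputable def chart (i : Fin (N + 1)) (p : PN N) : Fin (N + 1) → ℂ := (p.rep i)⁻¹ • p.rep

/-- Holomorphic maps into projective space are continuous for the separation. -/
lemma tendsto_sep {f : ℂ → PN N} {U : Set ℂ} (hf : HolomorphicInto f U) {z₀ : ℂ} (hz₀ : z₀ ∈ U) :
    Tendsto (fun p : ℂ × ℂ => sep (f p.1) (f p.2)) (𝓝 (z₀, z₀)) (𝓝 0) := by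
  obtain ⟨φ, hφ, he⟩ := hf z₀ hz₀
  obtain ⟨h0, -⟩ := he.self_of_nhds
  have h1 := continuousAt_sepv h0 h0
  have h2 : Tendsto (fun p : ℂ × ℂ => (φ p.1, φ p.2)) (𝓝 (z₀, z₀)) (𝓝 (φ z₀, φ z₀)) := by
    have h3 := hφ.continuousAt
    exact (h3.tendsto.comp (continuous_fst.tendsto' (z₀, z₀) z₀ rfl)).prodMk_nhds
      (h3.tendsto.comp (continuous_snd.tendsto' (z₀, z₀) z₀ rfl))
  have h3 := h1.tendsto.comp h2
  have h4 : sepv (φ z₀) (φ z₀) = 0 := by
    unfold sepv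
    rw [minors_self]
    simp
  simp only [h4] at h3
  refine h3.congr' ?_
  have h5 : ∀ᶠ p : ℂ × ℂ in 𝓝 (z₀, z₀), (∃ h : φ p.1 ≠ 0, f p.1 = Projectivization.mk ℂ (φ p.1) h) ∧
      (∃ h : φ p.2 ≠ 0, f p.2 = Projectivization.mk ℂ (φ p.2) h) := by
    rw [nhds_prod_eq]
    exact (he.prod_mk he)
  filter_upwards [h5] with p hp
  obtain ⟨⟨h6, h7⟩, h8, h9⟩ := hp
  rw [h7, h9, sep_mk]
  rfl

end Pool.Agent.H17

end

section

/-!
# Project BP, metric half: definitions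

`X` is the cone (without `0`) over a compact surface in `ℙ^N`, `K ⊆ X` the cone over the complement
of a curve (`K = X` in the compact case), `T` the cone over the total curve: it contains `X \ K`,
and `K ∩ T` is the exceptional set.
-/

open Topology Filter Metric

namespace Pool.Agent.H14.PP

open Pool.Agent.H36.BP (EN Sub fs wd)

variable {N : ℕ}

/-- `K` is the cone over a relatively open subset. -/
structure IsOpenPart (X K : Set (EN N)) : Prop where
  subset : K ⊆ X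
  smul_mem : ∀ x ∈ K, ∀ c : ℂ, c ≠ 0 → c • x ∈ K
  rel_open : ∀ x ∈ K, ∀ᶠ y in 𝓝 x, y ∈ X → y ∈ K

/-- A chart of the surface whose cone is `X`: `σ` is a lift of the inverse of the chart, defined on
the bidisc of radius `2`, `U` is an open cone, and `q` the chart, a pair of holomorphic functions on
`U` which are invariant under scaling. -/
structure Chart (X : Set (EN N)) where
  /-- the parametrization -/
  σ : ℂ × ℂ → EN N
  /-- the domain -/
  U : Set (EN N)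
  /-- the coordinates -/
  q : EN N → ℂ × ℂ
  isOpen_U : IsOpen U
  smul_U : ∀ x ∈ U, ∀ c : ℂ, c ≠ 0 → c • x ∈ U
  σ_an : ∀ p ∈ ball (0 : ℂ × ℂ) 2, AnalyticAt ℂ σ p
  q_an : ∀ x ∈ U, AnalyticAt ℂ q x
  q_smul : ∀ x ∈ U, ∀ c : ℂ, c ≠ 0 → q (c • x) = q x
  σ_mem : ∀ p ∈ ball (0 : ℂ × ℂ) 2, σ p ∈ X ∧ σ p ∈ U ∧ q (σ p) = p
  surj : ∀ x ∈ X, x ∈ U → q x ∈ ball (0 : ℂ × ℂ) 2 ∧ ∃ c : ℂ, c ≠ 0 ∧ x = c • σ (q x)

/-- In the chart `χ` the curve `T` is the coordinate axis `s = 0` (`nd = false`) or the union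
`s t = 0` of the two coordinate axes (`nd = true`). -/
def HasType {X : Set (EN N)} (T : Set (EN N)) (χ : Chart X) (nd : Bool) : Prop :=
  ∀ p ∈ ball (0 : ℂ × ℂ) 2, (χ.σ p ∈ T ↔ p.1 = 0 ∨ (nd = true ∧ p.2 = 0))

/-- The complement of `K` in the chart: a union of some of the coordinate axes. -/
def DType {X : Set (EN N)} (K : Set (EN N)) (χ : Chart X) (d : Bool × Bool) : Prop :=
  ∀ p ∈ ball (0 : ℂ × ℂ) 2, (χ.σ p ∉ K ↔ (d.1 = true ∧ p.1 = 0) ∨ (d.2 = true ∧ p.2 = 0))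

/-- `T` is a curve with at most nodes on the surface whose cone is `X`, and `X \ K` is a union of
components of `T`. -/
def IsNodal (X K T : Set (EN N)) : Prop :=
  ∀ x ∈ T, ∃ (χ : Chart X) (nd : Bool) (d : Bool × Bool), x ∈ χ.U ∧ χ.q x = 0 ∧ HasType T χ nd ∧
    DType K χ d ∧ (d.2 = true → nd = true)

/-- A section of `m K (-j)` over the surface whose cone is `K`. -/
structure Form (K : Set (EN N)) (m j : ℕ) where
  /-- the form -/
  toFun : EN N → EN N → EN N → ℂ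
  add_smul : ∀ x ∈ K, ∀ v w, Tan K x v → Tan K x w → ∀ a b : ℂ,
    toFun x (v + a • x) (w + b • x) = toFun x v w
  det : ∀ x ∈ K, ∀ v w, Tan K x v → Tan K x w → ∀ a b c d : ℂ,
    toFun x (a • v + b • w) (c • v + d • w) = (a * d - b * c) ^ m * toFun x v w
  scale : ∀ x ∈ K, ∀ v w, Tan K x v → Tan K x w → ∀ c : ℂ, c ≠ 0 →
    c ^ j * toFun (c • x) (c • v) (c • w) = toFun x v w
  analytic : ∀ (φ : ℂ × ℂ → EN N) (p : ℂ × ℂ), AnalyticAt ℂ φ p → (∀ᶠ y in 𝓝 p, φ y ∈ K) →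
    AnalyticAt ℂ (fun y => toFun (φ y) (fderiv ℂ φ y (1, 0)) (fderiv ℂ φ y (0, 1))) p

/-- The form has no zeros outside `T`. -/
def Form.NoZeroOff {K : Set (EN N)} {m j : ℕ} (Ω : Form K m j) (T : Set (EN N)) : Prop :=
  ∀ x ∈ K, x ∉ T → ∀ v w, Tan K x v → Tan K x w → LinearIndependent ℂ ![x, v, w] →
    Ω.toFun x v w ≠ 0

/-- The coefficient of the form in a chart. -/
noncomputable def aCoef {X K : Set (EN N)} {m j : ℕ} (Ω : Form K m j) (χ : Chart X) (p : ℂ × ℂ) :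
    ℂ :=
  Ω.toFun (χ.σ p) (fderiv ℂ χ.σ p (1, 0)) (fderiv ℂ χ.σ p (0, 1))

/-- The reduced equation of `X \ K` in a chart. -/
def gD (d : Bool × Bool) (p : ℂ × ℂ) : ℂ :=
  (if d.1 = true then p.1 else 1) * (if d.2 = true then p.2 else 1)

/-- The form has poles of order at most `m - 1` along `X \ K`. -/
def Form.PoleBound {K : Set (EN N)} {m j : ℕ} (Ω : Form K m j) (X : Set (EN N)) : Prop :=
  ∀ (χ : Chart X) (d : Bool × Bool), DType K χ d → ∃ b : ℂ × ℂ → ℂ,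
    (∀ p ∈ ball (0 : ℂ × ℂ) 2, AnalyticAt ℂ b p) ∧
    ∀ p ∈ ball (0 : ℂ × ℂ) 2, χ.σ p ∈ K → b p = gD d p ^ (m - 1) * aCoef Ω χ p

/-- The invariant length of the form in a chart, to the power `1 / m`. -/
noncomputable def ACoef {X K : Set (EN N)} {m j : ℕ} (Ω : Form K m j) (χ : Chart X) (p : ℂ × ℂ) :
    ℝ :=
  ‖aCoef Ω χ p‖ ^ (1 / (m : ℝ)) * ‖χ.σ p‖ ^ ((j : ℝ) / m)

/-- The parameters of the metric near `T`. -/
structure Par where
  ε : ℝ
  κ : ℝ
  K : ℝ
  M : ℝ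
  e : ℝ

/-- The normal piece. -/
noncomputable def pN (nd : Bool) (P : Par) (s t s' : ℂ) : ℝ :=
  (if nd = true then ‖t‖ ^ (1 - P.κ) * Real.exp (-P.ε * ‖s‖ ^ 2) else 1) * ‖s'‖ *
    (1 + P.M * ‖s‖ ^ (2 * P.κ)) ^ P.e * Real.exp (-P.K * ‖t‖ ^ 2)

/-- The tangential piece. -/
noncomputable def pT (nd : Bool) (P : Par) (s t t' : ℂ) : ℝ :=
  if nd = true then pN true P t s t' else ‖s‖ ^ (1 - P.κ) * ‖t'‖ * Real.exp (-P.ε * ‖t‖ ^ 2)

/-- The maximum of the two pieces. -/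
noncomputable def pM (nd : Bool) (P : Par) (p w : ℂ × ℂ) : ℝ :=
  max (pN nd P p.1 p.2 w.1) (pT nd P p.1 p.2 w.2)

/-- The matrix `(l, b; c, m)` of the derivative of a change of charts, at a point with first
coordinate `s`, where the first new coordinate is `u`, is `C`-controlled. -/
def TE (C : ℝ) (s u l b c m : ℂ) : Prop :=
  ‖b‖ ≤ C * ‖s‖ ∧ ‖c‖ ≤ C ∧ |‖u‖ - ‖l‖ * ‖s‖| ≤ C * ‖s‖ ^ 2 ∧ C⁻¹ ≤ ‖l‖ ∧ ‖l‖ ≤ C ∧ C⁻¹ ≤ ‖m‖ ∧
    ‖m‖ ≤ C

/-- The conditions on the parameters for the comparison of the pieces of two charts. -/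
structure DomPar (C : ℝ) (P : Par) : Prop where
  ε_pos : 0 < P.ε
  ε_le : P.ε ≤ 1
  κ_pos : 0 < P.κ
  κ_le : P.κ ≤ 1 / 4
  κ_log : P.κ * Real.log C ≤ P.ε / 8
  K_pos : 0 < P.K
  K_ge : 16 * C ^ 4 * Real.exp 2 ≤ Real.exp (3 * P.K / 4)
  M_ge : 1 ≤ P.M
  e_pos : 0 < P.e
  e_log : P.e * Real.log (1 + P.M) ≤ P.ε / 16

/-- The condition on the parameters for the convexity. -/
structure ConvPar (P : Par) : Prop where
  ε_pos : 0 < P.ε
  ε_le : P.ε ≤ 1
  κ_pos : 0 < P.κ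
  κ_le : P.κ ≤ 1 / 4
  K_pos : 0 < P.K
  M_ge : 1 ≤ P.M
  e_pos : 0 < P.e
  e_log : P.e * Real.log (1 + P.M) ≤ P.ε / 16
  main : P.K ≤ P.e * P.M * P.κ ^ 2 * (Real.exp (-P.K - 1) / 2) ^ 2 / 4

/-- The Jacobian determinant. -/
noncomputable def jac (τ : ℂ × ℂ → ℂ × ℂ) (p : ℂ × ℂ) : ℂ :=
  (fderiv ℂ τ p (1, 0)).1 * (fderiv ℂ τ p (0, 1)).2 -
    (fderiv ℂ τ p (0, 1)).1 * (fderiv ℂ τ p (1, 0)).2

/-- `TE` for a map at a point. -/
def TEmap (C : ℝ) (τ : ℂ × ℂ → ℂ × ℂ) (p : ℂ × ℂ) : Prop :=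
  TE C p.1 (τ p).1 (fderiv ℂ τ p (1, 0)).1 (fderiv ℂ τ p (0, 1)).1 (fderiv ℂ τ p (1, 0)).2
    (fderiv ℂ τ p (0, 1)).2

section metric

variable {W : Type*} [NormedAddCommGroup W] [InnerProductSpace ℂ W]

/-- The equations `Q` of `T`: homogeneous polynomials of degree `D`. -/
structure IsEq (X T : Set (EN N)) (Q : EN N → W) (D : ℕ) : Prop where
  analytic : ∀ x, AnalyticAt ℂ Q x
  smul : ∀ (c : ℂ) (x : EN N), Q (c • x) = c ^ D • Q x
  mem_iff : ∀ x, x ∈ T ↔ x ∈ X ∧ Q x = 0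

end metric

end Pool.Agent.H14.PP

end

section

/-!
# EF Defs: surfaces with a holomorphic map to an elliptic curve

`X` is the cone (without `0`) of a smooth projective surface, in `EN N = ℂ^(N+1)` with the Euclidean norm.  The map to `ℂ / Λ` is
given by a function `u : EN N → ℂ` which is holomorphic modulo `Λ`.  `pr x` is the orthogonal projection to the line of `x`, a
matrix: in this way the projective space is a compact subset of a Euclidean space.
-/

set_option autoImplicit false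

open Topology Filter Metric

namespace Pool.Agent.H62.EF

open Pool.Agent.H36.BP (EN fs wd)

variable {N : ℕ}

/-- matrices with the Frobenius norm -/
abbrev MN (N : ℕ) : Type := EuclideanSpace ℂ (Fin (N + 1) × Fin (N + 1))

/-- the orthogonal projection to the line of `x` -/
noncomputable def pr (x : EN N) : MN N :=
  WithLp.toLp 2 fun i => x i.1 * (starRingEnd ℂ) (x i.2) / ((‖x‖ ^ 2 : ℝ) : ℂ)

end Pool.Agent.H62.EF

end
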