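import Pool.Agent.H43.TL2.M12
import Pool.Agent.H43.TL2.M18
import Pool.Agent.H43.TL2.M32

/-! The parts of this file: H14.PP.ConvNum, H14.PP.NodeGerm, H14.PP.Params, H14.PP.TELocal, H36.BPB.Defs, H36.BPB.MtA, MQ.SNPt. -/

section

/-!
# BPm ConvNum: the numerical inequality behind the convexity

`P` with `ConvPar P`; `c₁ = exp (-K-1)/2`. Claim: there is `r > 0` such that for `‖s‖, ‖t‖ ≤ 1`,
`small nd (s,t) ≤ r`, `s ≠ 0`, `s' ≠ 0`, (`nd = true → t ≠ 0`), `A ≥ 4ε(‖s'‖^2 + ‖t'‖^2)` and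
`pT nd P s t t' ≤ pN nd P s t s'`:
`A - ε‖s'‖^2 - K‖t'‖^2 + e M κ^2 ‖s‖^(2κ-2) ‖s'‖^2/(1 + M‖s‖^(2κ))^2 > 0`.

Note `(1 + M‖s‖^(2κ))^e ≤ (1+M)^e ≤ exp (ε/16)` for `‖s‖ ≤ 1` (`e_log`).
Step 1: `c₁ ‖t'‖ ≤ ‖s‖^(κ-1) ‖s'‖`. If `nd = false`: `pT ≤ pN` gives
`‖s‖^(1-κ) ‖t'‖ exp (-ε) ≤ ‖s'‖ exp (ε/16)`. If `nd = true`:
`‖s‖^(1-κ) ‖t'‖ exp (-ε - K) ≤ ‖t‖^(1-κ) ‖s'‖ exp (ε/16) ≤ ‖s'‖ exp (ε/16)`. In both cases
`‖s‖^(1-κ) ‖t'‖ ≤ exp (K + 17ε/16) ‖s'‖ ≤ 2 exp (K+1) ‖s'‖ = c₁⁻¹ ‖s'‖`, because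
`exp (1/16) ≤ 2`, `ε ≤ 1`.
Step 2, case `M‖s‖^(2κ) ≤ 1`: the last term is at least `e M κ^2 (c₁‖t'‖)^2/4 ≥ K ‖t'‖^2` by `main`
(`‖s‖^(2κ-2)‖s'‖^2 = (‖s‖^(κ-1)‖s'‖)^2`), and `A - ε‖s'‖^2 ≥ 3ε‖s'‖^2 > 0`.
Step 3, case `M‖s‖^(2κ) > 1`: `‖s‖ > s₁ := M^(-1/(2κ))`, `0 < s₁ ≤ 1`. Let `r < s₁`. Then
`nd = true` and `‖t‖ ≤ r/s₁`. From `pT ≤ pN`:
`‖s‖^(1-κ)‖t'‖ exp (-ε-K) ≤ ‖t‖^(1-κ)‖s'‖ exp (ε/16)` so
`‖t'‖ ≤ 2 exp (K+1) (r/s₁)^(1-κ) s₁^(κ-1) ‖s'‖`; choose `r` such that the factor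
`η = 2 exp (K+1) (r/s₁^2)^(1-κ)` satisfies `K η^2 ≤ ε`. Then `K‖t'‖^2 ≤ ε‖s'‖^2`, the last term is
`≥ 0` and `A - ε‖s'‖^2 - ε‖s'‖^2 ≥ 2ε‖s'‖^2 > 0`.
-/

open Topology Filter Metric

namespace Pool.Agent.H14.PP

private theorem ConvNum_up {P : Par} (hP : ConvPar P) {a : ℝ} (ha0 : 0 ≤ a) (ha : a ≤ 1) :
    (1 + P.M * a ^ (2 * P.κ)) ^ P.e ≤ Real.exp (P.ε / 16) := by
  have hM : 0 ≤ P.M := le_trans zero_le_one hP.M_ge
  have h1 : a ^ (2 * P.κ) ≤ 1 := Real.rpow_le_one ha0 ha (by linarith [hP.κ_pos])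
  have h0 : 0 ≤ a ^ (2 * P.κ) := Real.rpow_nonneg ha0 _
  have h2 : P.M * a ^ (2 * P.κ) ≤ P.M := mul_le_of_le_one_right hM h1
  have h3 : 0 ≤ P.M * a ^ (2 * P.κ) := mul_nonneg hM h0
  calc (1 + P.M * a ^ (2 * P.κ)) ^ P.e ≤ (1 + P.M) ^ P.e :=
        Real.rpow_le_rpow (by linarith) (by linarith) hP.e_pos.le
    _ = Real.exp (Real.log (1 + P.M) * P.e) := Real.rpow_def_of_pos (by linarith) _
    _ ≤ Real.exp (P.ε / 16) := by
        apply Real.exp_le_exp.mpr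
        have := hP.e_log
        linarith

private theorem ConvNum_lo {P : Par} (hP : ConvPar P) {a : ℝ} (ha0 : 0 ≤ a) :
    1 ≤ (1 + P.M * a ^ (2 * P.κ)) ^ P.e := by
  have hM : 0 ≤ P.M := le_trans zero_le_one hP.M_ge
  have h0 : 0 ≤ a ^ (2 * P.κ) := Real.rpow_nonneg ha0 _
  have h3 : 0 ≤ P.M * a ^ (2 * P.κ) := mul_nonneg hM h0
  exact Real.one_le_rpow (by linarith) hP.e_pos.le

private theorem ConvNum_exp {P : Par} (hP : ConvPar P) :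
    Real.exp (P.ε / 16) ≤ 2 * Real.exp (P.K + 1) * (Real.exp (-P.ε) * Real.exp (-P.K)) := by
  have h1 : Real.exp (1 / 16) ≤ 2 := by
    have h2 : (1 : ℝ) / 16 ≤ Real.log 2 := by
      have := Real.log_two_gt_d9
      linarith
    calc Real.exp (1 / 16) ≤ Real.exp (Real.log 2) := Real.exp_le_exp.mpr h2
      _ = 2 := Real.exp_log (by norm_num)
  have h2 : 2 * Real.exp (P.K + 1) * (Real.exp (-P.ε) * Real.exp (-P.K)) =
      2 * Real.exp (1 - P.ε) := by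
    rw [mul_assoc, ← Real.exp_add, ← Real.exp_add]
    congr 2
    ring
  have h3 : Real.exp (P.ε / 16) ≤ Real.exp (1 / 16) * Real.exp (1 - P.ε) := by
    rw [← Real.exp_add]
    apply Real.exp_le_exp.mpr
    have := hP.ε_le
    linarith
  rw [h2]
  exact h3.trans (mul_le_mul_of_nonneg_right h1 (Real.exp_pos _).le)

private theorem ConvNum_key {P : Par} (hP : ConvPar P) (nd : Bool) {s t s' t' : ℂ} (hs : ‖s‖ ≤ 1)
    (ht : ‖t‖ ≤ 1) (h : pT nd P s t t' ≤ pN nd P s t s') :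
    ‖s‖ ^ (1 - P.κ) * ‖t'‖ ≤
      (if nd = true then ‖t‖ ^ (1 - P.κ) else 1) * (2 * Real.exp (P.K + 1)) * ‖s'‖ := by
  have hsU := ConvNum_up hP (norm_nonneg s) hs
  have htL := ConvNum_lo hP (norm_nonneg t)
  have hsL := ConvNum_lo hP (norm_nonneg s)
  have hex := ConvNum_exp hP
  have hs2 : ‖s‖ ^ 2 ≤ 1 := pow_le_one₀ (norm_nonneg s) hs
  have ht2 : ‖t‖ ^ 2 ≤ 1 := pow_le_one₀ (norm_nonneg t) ht
  have e1 : Real.exp (-P.ε) ≤ Real.exp (-P.ε * ‖t‖ ^ 2) := by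
    apply Real.exp_le_exp.mpr
    linarith [mul_le_of_le_one_right hP.ε_pos.le ht2]
  have e2 : Real.exp (-P.K) ≤ Real.exp (-P.K * ‖s‖ ^ 2) := by
    apply Real.exp_le_exp.mpr
    linarith [mul_le_of_le_one_right hP.K_pos.le hs2]
  have e3 : Real.exp (-P.K * ‖t‖ ^ 2) ≤ 1 := by
    apply Real.exp_le_one_iff.mpr
    linarith [mul_nonneg hP.K_pos.le (sq_nonneg ‖t‖)]
  have e4 : Real.exp (-P.ε * ‖s‖ ^ 2) ≤ 1 := by
    apply Real.exp_le_one_iff.mpr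
    linarith [mul_nonneg hP.ε_pos.le (sq_nonneg ‖s‖)]
  have e5 : Real.exp (-P.K) ≤ 1 := by
    apply Real.exp_le_one_iff.mpr
    linarith [hP.K_pos]
  have hS : 0 ≤ ‖s‖ ^ (1 - P.κ) := Real.rpow_nonneg (norm_nonneg s) _
  have hT : 0 ≤ ‖t‖ ^ (1 - P.κ) := Real.rpow_nonneg (norm_nonneg t) _
  have hX : 0 ≤ ‖s‖ ^ (1 - P.κ) * ‖t'‖ := mul_nonneg hS (norm_nonneg t')
  have p1 : 0 < Real.exp (-P.ε) := Real.exp_pos _
  have p2 : 0 < Real.exp (-P.K) := Real.exp_pos _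
  have p3 : 0 < Real.exp (-P.K * ‖s‖ ^ 2) := Real.exp_pos _
  have p4 : 0 < Real.exp (-P.ε * ‖t‖ ^ 2) := Real.exp_pos _
  have p5 : 0 < Real.exp (-P.ε) * Real.exp (-P.K) := mul_pos p1 p2
  have p6 : 0 < Real.exp (P.ε / 16) := Real.exp_pos _
  set Y : ℝ := (if nd = true then ‖t‖ ^ (1 - P.κ) else 1) with hY
  have hY0 : 0 ≤ Y := by
    rw [hY]
    split_ifs
    · exact hT
    · exact zero_le_one
  have hmain : ‖s‖ ^ (1 - P.κ) * ‖t'‖ * (Real.exp (-P.ε) * Real.exp (-P.K)) ≤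
      Y * ‖s'‖ * Real.exp (P.ε / 16) := by
    cases nd with
    | false =>
      simp only [pT, pN, Bool.false_eq_true, if_false] at h
      have hY1 : Y = 1 := by
        rw [hY]
        simp
      rw [hY1]
      calc ‖s‖ ^ (1 - P.κ) * ‖t'‖ * (Real.exp (-P.ε) * Real.exp (-P.K))
          ≤ ‖s‖ ^ (1 - P.κ) * ‖t'‖ * (Real.exp (-P.ε) * 1) :=
            mul_le_mul_of_nonneg_left (mul_le_mul_of_nonneg_left e5 p1.le) hX
        _ ≤ ‖s‖ ^ (1 - P.κ) * ‖t'‖ * Real.exp (-P.ε * ‖t‖ ^ 2) := by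
            rw [mul_one]
            exact mul_le_mul_of_nonneg_left e1 hX
        _ ≤ 1 * ‖s'‖ * (1 + P.M * ‖s‖ ^ (2 * P.κ)) ^ P.e * Real.exp (-P.K * ‖t‖ ^ 2) := h
        _ ≤ 1 * ‖s'‖ * Real.exp (P.ε / 16) * 1 := by
            refine mul_le_mul ?_ e3 (Real.exp_pos _).le (by positivity)
            exact mul_le_mul_of_nonneg_left hsU (by positivity)
        _ = 1 * ‖s'‖ * Real.exp (P.ε / 16) := by ring
    | true =>
      simp only [pT, pN, if_true] at h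
      have hY1 : Y = ‖t‖ ^ (1 - P.κ) := by
        rw [hY]
        simp
      rw [hY1]
      calc ‖s‖ ^ (1 - P.κ) * ‖t'‖ * (Real.exp (-P.ε) * Real.exp (-P.K))
          = ‖s‖ ^ (1 - P.κ) * Real.exp (-P.ε) * ‖t'‖ * 1 * Real.exp (-P.K) := by ring
        _ ≤ ‖s‖ ^ (1 - P.κ) * Real.exp (-P.ε * ‖t‖ ^ 2) * ‖t'‖ *
            (1 + P.M * ‖t‖ ^ (2 * P.κ)) ^ P.e * Real.exp (-P.K * ‖s‖ ^ 2) := by
            refine mul_le_mul ?_ e2 p2.le (by positivity)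
            refine mul_le_mul ?_ htL zero_le_one (by positivity)
            exact mul_le_mul_of_nonneg_right (mul_le_mul_of_nonneg_left e1 hS) (norm_nonneg _)
        _ ≤ ‖t‖ ^ (1 - P.κ) * Real.exp (-P.ε * ‖s‖ ^ 2) * ‖s'‖ *
            (1 + P.M * ‖s‖ ^ (2 * P.κ)) ^ P.e * Real.exp (-P.K * ‖t‖ ^ 2) := h
        _ ≤ ‖t‖ ^ (1 - P.κ) * 1 * ‖s'‖ * Real.exp (P.ε / 16) * 1 := by
            refine mul_le_mul ?_ e3 (Real.exp_pos _).le (by positivity)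
            refine mul_le_mul ?_ hsU (by linarith) (by positivity)
            exact mul_le_mul_of_nonneg_right (mul_le_mul_of_nonneg_left e4 hT) (norm_nonneg _)
        _ = ‖t‖ ^ (1 - P.κ) * ‖s'‖ * Real.exp (P.ε / 16) := by ring
  have h3 : ‖s‖ ^ (1 - P.κ) * ‖t'‖ * (Real.exp (-P.ε) * Real.exp (-P.K)) ≤
      (Y * (2 * Real.exp (P.K + 1)) * ‖s'‖) * (Real.exp (-P.ε) * Real.exp (-P.K)) := by
    calc _ ≤ _ := hmain
      _ ≤ Y * ‖s'‖ * (2 * Real.exp (P.K + 1) * (Real.exp (-P.ε) * Real.exp (-P.K))) :=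
          mul_le_mul_of_nonneg_left hex (mul_nonneg hY0 (norm_nonneg _))
      _ = _ := by ring
  exact le_of_mul_le_mul_right h3 p5

theorem conv_num {P : Par} (hP : ConvPar P) :
    ∃ r : ℝ, 0 < r ∧ r ≤ 1 ∧ ∀ (nd : Bool) (s t s' t' : ℂ) (A : ℝ), ‖s‖ ≤ 1 → ‖t‖ ≤ 1 →
      small nd (s, t) ≤ r → s ≠ 0 → s' ≠ 0 → (nd = true → t ≠ 0) →
      4 * P.ε * (‖s'‖ ^ 2 + ‖t'‖ ^ 2) ≤ A → pT nd P s t t' ≤ pN nd P s t s' →
      0 < A - P.ε * ‖s'‖ ^ 2 - P.K * ‖t'‖ ^ 2 +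
        P.e * P.M * P.κ ^ 2 * ‖s‖ ^ (2 * P.κ - 2) * ‖s'‖ ^ 2 / (1 + P.M * ‖s‖ ^ (2 * P.κ)) ^ 2 := by
  have hM0 : 0 < P.M := lt_of_lt_of_le one_pos hP.M_ge
  have hκ := hP.κ_pos
  have hκ4 := hP.κ_le
  have hε := hP.ε_pos
  have hK := hP.K_pos
  have he := hP.e_pos
  set s₁ : ℝ := P.M⁻¹ ^ (1 / (2 * P.κ)) with hs₁
  have hs₁0 : 0 < s₁ := Real.rpow_pos_of_pos (inv_pos.mpr hM0) _
  have hs₁1 : s₁ ≤ 1 := Real.rpow_le_one (inv_pos.mpr hM0).le (inv_le_one_of_one_le₀ hP.M_ge)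
    (by positivity)
  set E : ℝ := 2 * Real.exp (P.K + 1) with hE
  have hE0 : 0 < E := by positivity
  set δ : ℝ := min (1 / 2) (P.ε / (P.K * E ^ 2)) with hδ
  have hδ0 : 0 < δ := lt_min (by norm_num) (by positivity)
  have hδ1 : δ ≤ 1 / 2 := min_le_left _ _
  have hδ2 : P.K * E ^ 2 * δ ≤ P.ε := by
    have h1 : δ ≤ P.ε / (P.K * E ^ 2) := min_le_right _ _
    rw [le_div_iff₀ (by positivity)] at h1
    linarith
  have hr0 : 0 < s₁ ^ 2 * δ := by positivity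
  have hr1 : s₁ ^ 2 * δ < s₁ := by
    have h1 : s₁ ^ 2 ≤ s₁ := by
      rw [pow_two]
      exact mul_le_of_le_one_left hs₁0.le hs₁1
    have h2 : s₁ ^ 2 * δ ≤ s₁ ^ 2 * (1 / 2) := mul_le_mul_of_nonneg_left hδ1 (sq_nonneg _)
    linarith
  refine ⟨s₁ ^ 2 * δ, hr0, by linarith, ?_⟩
  intro nd s t s' t' A hs ht hsm hs0 hs'0 hnd hA hle
  have ha : 0 < ‖s‖ := norm_pos_iff.mpr hs0
  have hσ : 0 < ‖s'‖ := norm_pos_iff.mpr hs'0
  have hτ : 0 ≤ ‖t'‖ := norm_nonneg _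
  have hb : 0 ≤ ‖t‖ := norm_nonneg _
  have hkey := ConvNum_key hP nd hs ht hle
  have hlast : 0 ≤ P.e * P.M * P.κ ^ 2 * ‖s‖ ^ (2 * P.κ - 2) * ‖s'‖ ^ 2 /
      (1 + P.M * ‖s‖ ^ (2 * P.κ)) ^ 2 := by
    have := Real.rpow_nonneg ha.le (2 * P.κ - 2)
    positivity
  have hA2 : 4 * P.ε * ‖s'‖ ^ 2 ≤ A := by
    have : 0 ≤ 4 * P.ε * ‖t'‖ ^ 2 := by positivity
    linarith
  have hεσ : 0 < P.ε * ‖s'‖ ^ 2 := by positivity
  by_cases hc : P.M * ‖s‖ ^ (2 * P.κ) ≤ 1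
  · -- step 2
    have hY : (if nd = true then ‖t‖ ^ (1 - P.κ) else 1) ≤ (1 : ℝ) := by
      split_ifs
      · exact Real.rpow_le_one hb ht (by linarith)
      · exact le_rfl
    have h1 : ‖s‖ ^ (1 - P.κ) * ‖t'‖ ≤ E * ‖s'‖ := by
      calc _ ≤ _ := hkey
        _ ≤ 1 * E * ‖s'‖ := by
            refine mul_le_mul_of_nonneg_right (mul_le_mul_of_nonneg_right hY hE0.le) hσ.le
        _ = E * ‖s'‖ := by ring
    have h2 : ‖s‖ ^ (P.κ - 1) * ‖s‖ ^ (1 - P.κ) = 1 := by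
      rw [← Real.rpow_add ha]
      have : P.κ - 1 + (1 - P.κ) = 0 := by ring
      rw [this, Real.rpow_zero]
    have h3 : ‖t'‖ ≤ E * (‖s‖ ^ (P.κ - 1) * ‖s'‖) := by
      have h4 := mul_le_mul_of_nonneg_left h1 (Real.rpow_nonneg ha.le (P.κ - 1))
      calc ‖t'‖ = ‖s‖ ^ (P.κ - 1) * ‖s‖ ^ (1 - P.κ) * ‖t'‖ := by rw [h2, one_mul]
        _ = ‖s‖ ^ (P.κ - 1) * (‖s‖ ^ (1 - P.κ) * ‖t'‖) := by ring
        _ ≤ _ := h4
        _ = _ := by ring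
    have hexp : Real.exp (-P.K - 1) / 2 * E = 1 := by
      rw [hE]
      calc Real.exp (-P.K - 1) / 2 * (2 * Real.exp (P.K + 1)) =
          Real.exp (-P.K - 1) * Real.exp (P.K + 1) := by ring
        _ = Real.exp (-P.K - 1 + (P.K + 1)) := (Real.exp_add _ _).symm
        _ = 1 := by
            have : -P.K - 1 + (P.K + 1) = 0 := by ring
            rw [this, Real.exp_zero]
    set c₁ : ℝ := Real.exp (-P.K - 1) / 2 with hc₁
    have hc₁0 : 0 < c₁ := by positivity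
    have h5 : c₁ * ‖t'‖ ≤ ‖s‖ ^ (P.κ - 1) * ‖s'‖ := by
      calc c₁ * ‖t'‖ ≤ c₁ * (E * (‖s‖ ^ (P.κ - 1) * ‖s'‖)) := mul_le_mul_of_nonneg_left h3 hc₁0.le
        _ = c₁ * E * (‖s‖ ^ (P.κ - 1) * ‖s'‖) := by ring
        _ = _ := by rw [hexp, one_mul]
    have h6 : (c₁ * ‖t'‖) ^ 2 ≤ (‖s‖ ^ (P.κ - 1) * ‖s'‖) ^ 2 :=
      pow_le_pow_left₀ (by positivity) h5 2
    have h7 : (‖s‖ ^ (P.κ - 1)) ^ 2 = ‖s‖ ^ (2 * P.κ - 2) := by
      rw [← Real.rpow_natCast, ← Real.rpow_mul ha.le]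
      congr 1
      push_cast
      ring
    have h8 : (1 + P.M * ‖s‖ ^ (2 * P.κ)) ^ 2 ≤ 4 := by
      have h9 : 0 ≤ P.M * ‖s‖ ^ (2 * P.κ) := mul_nonneg hM0.le (Real.rpow_nonneg ha.le _)
      have h10 := pow_le_pow_left₀ (add_nonneg zero_le_one h9) (add_le_add_right hc 1) 2
      exact h10.trans (by norm_num)
    have h10 : P.K * ‖t'‖ ^ 2 ≤ P.e * P.M * P.κ ^ 2 * ‖s‖ ^ (2 * P.κ - 2) * ‖s'‖ ^ 2 /
        (1 + P.M * ‖s‖ ^ (2 * P.κ)) ^ 2 := by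
      have h11 : 0 < (1 + P.M * ‖s‖ ^ (2 * P.κ)) ^ 2 := by
        have h9 : 0 ≤ P.M * ‖s‖ ^ (2 * P.κ) := mul_nonneg hM0.le (Real.rpow_nonneg ha.le _)
        positivity
      rw [le_div_iff₀ h11]
      have hm := hP.main
      calc P.K * ‖t'‖ ^ 2 * (1 + P.M * ‖s‖ ^ (2 * P.κ)) ^ 2 ≤ P.K * ‖t'‖ ^ 2 * 4 :=
            mul_le_mul_of_nonneg_left h8 (by positivity)
        _ ≤ P.e * P.M * P.κ ^ 2 * c₁ ^ 2 / 4 * ‖t'‖ ^ 2 * 4 := by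
            refine mul_le_mul_of_nonneg_right (mul_le_mul_of_nonneg_right hm (by positivity))
              (by norm_num)
        _ = P.e * P.M * P.κ ^ 2 * (c₁ * ‖t'‖) ^ 2 := by ring
        _ ≤ P.e * P.M * P.κ ^ 2 * (‖s‖ ^ (P.κ - 1) * ‖s'‖) ^ 2 :=
            mul_le_mul_of_nonneg_left h6 (by positivity)
        _ = P.e * P.M * P.κ ^ 2 * ‖s‖ ^ (2 * P.κ - 2) * ‖s'‖ ^ 2 := by
            rw [mul_pow, h7]
            ring
    linarith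
  · -- step 3
    push Not at hc
    have h1 : s₁ < ‖s‖ := by
      have h2 : P.M⁻¹ < ‖s‖ ^ (2 * P.κ) := by
        rw [inv_lt_iff_one_lt_mul₀ hM0]
        linarith
      have h3 := Real.rpow_lt_rpow (inv_pos.mpr hM0).le h2 (z := 1 / (2 * P.κ)) (by positivity)
      rw [← Real.rpow_mul ha.le] at h3
      have h4 : 2 * P.κ * (1 / (2 * P.κ)) = 1 := by
        field_simp
      rw [h4, Real.rpow_one] at h3
      exact h3
    have hnd' : nd = true := by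
      by_contra hn
      have hn2 : nd = false := by simpa using hn
      rw [hn2] at hsm
      simp only [small, Bool.false_eq_true, if_false] at hsm
      linarith
    subst hnd'
    simp only [small, if_true] at hsm
    have hbr : ‖t‖ ≤ s₁ * δ := by
      have h2 : s₁ * ‖t‖ ≤ s₁ * (s₁ * δ) := by
        calc s₁ * ‖t‖ ≤ ‖s‖ * ‖t‖ := mul_le_mul_of_nonneg_right h1.le hb
          _ ≤ s₁ ^ 2 * δ := hsm
          _ = s₁ * (s₁ * δ) := by ring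
      exact le_of_mul_le_mul_left h2 hs₁0
    simp only [if_true] at hkey
    have h2 : s₁ ^ (1 - P.κ) * ‖t'‖ ≤ s₁ ^ (1 - P.κ) * (δ ^ (1 - P.κ) * E * ‖s'‖) := by
      calc s₁ ^ (1 - P.κ) * ‖t'‖ ≤ ‖s‖ ^ (1 - P.κ) * ‖t'‖ :=
            mul_le_mul_of_nonneg_right (Real.rpow_le_rpow hs₁0.le h1.le (by linarith)) hτ
        _ ≤ ‖t‖ ^ (1 - P.κ) * E * ‖s'‖ := hkey
        _ ≤ (s₁ * δ) ^ (1 - P.κ) * E * ‖s'‖ := by
            refine mul_le_mul_of_nonneg_right (mul_le_mul_of_nonneg_right ?_ hE0.le) hσ.le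
            exact Real.rpow_le_rpow hb hbr (by linarith)
        _ = _ := by
            rw [Real.mul_rpow hs₁0.le hδ0.le]
            ring
    have h3 : ‖t'‖ ≤ δ ^ (1 - P.κ) * E * ‖s'‖ :=
      le_of_mul_le_mul_left h2 (Real.rpow_pos_of_pos hs₁0 _)
    have h4 : ‖t'‖ ^ 2 ≤ (δ ^ (1 - P.κ) * E * ‖s'‖) ^ 2 := pow_le_pow_left₀ hτ h3 2
    have h5 : (δ ^ (1 - P.κ)) ^ 2 ≤ δ := by
      rw [← Real.rpow_natCast, ← Real.rpow_mul hδ0.le]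
      calc δ ^ ((1 - P.κ) * ((2 : ℕ) : ℝ)) ≤ δ ^ (1 : ℝ) := by
            apply Real.rpow_le_rpow_of_exponent_ge hδ0 (by linarith)
            push_cast
            linarith
        _ = δ := Real.rpow_one _
    have h6 : P.K * ‖t'‖ ^ 2 ≤ P.ε * ‖s'‖ ^ 2 := by
      calc P.K * ‖t'‖ ^ 2 ≤ P.K * (δ ^ (1 - P.κ) * E * ‖s'‖) ^ 2 :=
            mul_le_mul_of_nonneg_left h4 hK.le
        _ = P.K * E ^ 2 * (δ ^ (1 - P.κ)) ^ 2 * ‖s'‖ ^ 2 := by ring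
        _ ≤ P.K * E ^ 2 * δ * ‖s'‖ ^ 2 := by
            refine mul_le_mul_of_nonneg_right (mul_le_mul_of_nonneg_left h5 (by positivity))
              (by positivity)
        _ ≤ P.ε * ‖s'‖ ^ 2 := mul_le_mul_of_nonneg_right hδ2 (by positivity)
    linarith

end Pool.Agent.H14.PP

end

section

/-!
# BPm NodeGerm: a node is not a smooth point; the Jacobian of a change of charts

* `jac_ne_zero`: `τ = χ'.q ∘ χ.σ` near `p`, `η = χ.q ∘ χ'.σ` near `τ p`. For `y` near `p`: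
  `χ.σ y = c • χ'.σ (τ y)` with `c ≠ 0`, so `η (τ y) = χ.q (χ'.σ (τ y)) = χ.q (χ.σ y) = y`. By the
  chain rule `Dη(τ p) ∘ Dτ(p) = id`, so `Dτ(p)` is injective and its determinant is not zero.
* `not_node`: let `p₀ = (0, t₀)`, `τ = χ'.q ∘ χ.σ`, and suppose `τ p₀ = 0`, `χ'` of type `true`. For
  `t` near `t₀` the point `χ.σ (0,t) ∈ T` so with `τ (0,t) = (u t, w t)` we have `u t * w t = 0`
  (`T` is a cone); `u`, `w` are analytic near `t₀`, so one of them vanishes identically near `t₀`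
  (`AnalyticAt.eventually_eq_zero_or_eventually_ne_zero`), say `u` (the other case is symmetric). Let
  `η = χ.q ∘ χ'.σ`, `η 0 = p₀` (as above). For small `x ≠ 0` the point `χ'.σ (x, 0)` is in `T`, it is
  a multiple of `χ.σ (η (x,0))`, so `χ.σ (η (x,0)) ∈ T`; `η (x,0)` is close to `p₀` and if
  `nd = true` its second coordinate is not `0` (as `t₀ ≠ 0`), so its first coordinate is `0`:
  `η (x,0) = (0,t)`, `t` close to `t₀`, and `(x,0) = τ (0,t)` has first coordinate `u t = 0`: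
  contradiction to `x ≠ 0`.
-/

open Topology Filter Metric

namespace Pool.Agent.H14.PP

open Pool.Agent.H36.BP

variable {N : ℕ} {X K T : Set (EN N)}

/-- the change of charts and its inverse, pointwise -/
private theorem NodeGerm_pt (χ χ' : Chart X) {y : ℂ × ℂ} (hy : y ∈ ball (0 : ℂ × ℂ) 2)
    (hU : χ.σ y ∈ χ'.U) :
    χ'.q (χ.σ y) ∈ ball (0 : ℂ × ℂ) 2 ∧ χ'.σ (χ'.q (χ.σ y)) ∈ χ.U ∧
      χ.q (χ'.σ (χ'.q (χ.σ y))) = y ∧ ∃ c : ℂ, c ≠ 0 ∧ χ'.σ (χ'.q (χ.σ y)) = c • χ.σ y := by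
  obtain ⟨h1, h2, h3⟩ := χ.σ_mem y hy
  obtain ⟨h4, c, hc, h5⟩ := χ'.surj _ h1 hU
  have h6 : χ'.σ (χ'.q (χ.σ y)) = c⁻¹ • χ.σ y := by
    rw [h5, smul_smul, inv_mul_cancel₀ hc, one_smul]
    congr 2
    exact h5.symm
  have hc' : c⁻¹ ≠ 0 := inv_ne_zero hc
  refine ⟨h4, ?_, ?_, c⁻¹, hc', h6⟩
  · rw [h6]
    exact χ.smul_U _ h2 _ hc'
  · rw [h6, χ.q_smul _ h2 _ hc', h3]

/-- the change of charts is analytic -/
private theorem NodeGerm_an (χ χ' : Chart X) {y : ℂ × ℂ} (hy : y ∈ ball (0 : ℂ × ℂ) 2)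
    (hU : χ.σ y ∈ χ'.U) : AnalyticAt ℂ (fun y => χ'.q (χ.σ y)) y :=
  AnalyticAt.comp (g := χ'.q) (f := χ.σ) (χ'.q_an _ hU) (χ.σ_an y hy)

/-- nearby points -/
private theorem NodeGerm_near (χ χ' : Chart X) {y : ℂ × ℂ} (hy : y ∈ ball (0 : ℂ × ℂ) 2)
    (hU : χ.σ y ∈ χ'.U) : ∀ᶠ z in 𝓝 y, z ∈ ball (0 : ℂ × ℂ) 2 ∧ χ.σ z ∈ χ'.U := by
  have h1 : ∀ᶠ z in 𝓝 y, z ∈ ball (0 : ℂ × ℂ) 2 := isOpen_ball.mem_nhds hy
  have h2 : ∀ᶠ x in 𝓝 (χ.σ y), x ∈ χ'.U := χ'.isOpen_U.mem_nhds hU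
  exact h1.and ((χ.σ_an y hy).continuousAt.tendsto.eventually h2)

theorem jac_ne_zero (hX : IsCone X) (χ χ' : Chart X) {p : ℂ × ℂ}
    (hp : p ∈ ball (0 : ℂ × ℂ) 2) (hU : χ.σ p ∈ χ'.U) :
    jac (fun y => χ'.q (χ.σ y)) p ≠ 0 := by
  obtain ⟨τ, hτ⟩ : ∃ τ : ℂ × ℂ → ℂ × ℂ, τ = fun y => χ'.q (χ.σ y) := ⟨_, rfl⟩
  obtain ⟨η, hη⟩ : ∃ η : ℂ × ℂ → ℂ × ℂ, η = fun y => χ.q (χ'.σ y) := ⟨_, rfl⟩
  obtain ⟨a1, a2, a3, -⟩ := NodeGerm_pt χ χ' hp hU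
  have hτa : AnalyticAt ℂ τ p := by
    rw [hτ]
    exact NodeGerm_an χ χ' hp hU
  have hηa : AnalyticAt ℂ η (τ p) := by
    rw [hη, hτ]
    exact NodeGerm_an χ' χ a1 a2
  have hid : ∀ᶠ y in 𝓝 p, η (τ y) = y := by
    filter_upwards [NodeGerm_near χ χ' hp hU] with y hy
    rw [hη, hτ]
    exact (NodeGerm_pt χ χ' hy.1 hy.2).2.2.1
  have h1 : HasFDerivAt (η ∘ τ) ((fderiv ℂ η (τ p)).comp (fderiv ℂ τ p)) p :=
    hηa.differentiableAt.hasFDerivAt.comp p hτa.differentiableAt.hasFDerivAt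
  have h2 : HasFDerivAt (η ∘ τ) (ContinuousLinearMap.id ℂ (ℂ × ℂ)) p :=
    (hasFDerivAt_id p).congr_of_eventuallyEq hid
  have h3 := h1.unique h2
  have h4 : ∀ w : ℂ × ℂ, fderiv ℂ τ p w = 0 → w = 0 := by
    intro w hw
    have h5 : ((fderiv ℂ η (τ p)).comp (fderiv ℂ τ p)) w = w := by
      rw [h3]
      rfl
    rw [ContinuousLinearMap.comp_apply, hw, map_zero] at h5
    exact h5.symm
  rw [← hτ]
  intro hJ
  unfold jac at hJ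
  have e1 : fderiv ℂ τ p ((fderiv ℂ τ p (0, 1)).2, -(fderiv ℂ τ p (1, 0)).2) = 0 := by
    have e : (((fderiv ℂ τ p (0, 1)).2, -(fderiv ℂ τ p (1, 0)).2) : ℂ × ℂ) =
        (fderiv ℂ τ p (0, 1)).2 • ((1 : ℂ), (0 : ℂ)) - (fderiv ℂ τ p (1, 0)).2 • ((0 : ℂ), (1 : ℂ)) := by
      ext <;> simp
    rw [e, map_sub, map_smul, map_smul]
    ext
    · simp only [Prod.fst_sub, Prod.smul_fst, smul_eq_mul, Prod.fst_zero]
      linear_combination hJ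
    · simp only [Prod.snd_sub, Prod.smul_snd, smul_eq_mul, Prod.snd_zero]
      ring
  have e2 : fderiv ℂ τ p ((fderiv ℂ τ p (0, 1)).1, -(fderiv ℂ τ p (1, 0)).1) = 0 := by
    have e : (((fderiv ℂ τ p (0, 1)).1, -(fderiv ℂ τ p (1, 0)).1) : ℂ × ℂ) =
        (fderiv ℂ τ p (0, 1)).1 • ((1 : ℂ), (0 : ℂ)) - (fderiv ℂ τ p (1, 0)).1 • ((0 : ℂ), (1 : ℂ)) := by
      ext <;> simp
    rw [e, map_sub, map_smul, map_smul]
    ext
    · simp only [Prod.fst_sub, Prod.smul_fst, smul_eq_mul, Prod.fst_zero]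
      ring
    · simp only [Prod.snd_sub, Prod.smul_snd, smul_eq_mul, Prod.snd_zero]
      linear_combination -hJ
  have f1 := h4 _ e1
  have f2 := h4 _ e2
  rw [Prod.mk_eq_zero] at f1 f2
  have g1 : fderiv ℂ τ p (1, 0) = 0 := by
    ext
    · simpa using f2.2
    · simpa using f1.2
  have g2 := h4 _ g1
  simp [Prod.mk_eq_zero] at g2

theorem not_node (hX : IsCone X) (hT : ∀ x ∈ T, ∀ c : ℂ, c ≠ 0 → c • x ∈ T) (χ χ' : Chart X)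
    {nd : Bool} (h : HasType T χ nd) (h' : HasType T χ' true) {t₀ : ℂ} (ht₀ : ‖t₀‖ < 2)
    (hnd : nd = true → t₀ ≠ 0) (hU : χ.σ (0, t₀) ∈ χ'.U) : χ'.q (χ.σ (0, t₀)) ≠ 0 := by
  intro h0
  have hp : ((0 : ℂ), t₀) ∈ ball (0 : ℂ × ℂ) 2 := by
    rw [mem_ball, dist_zero_right, Prod.norm_def]
    simpa using ht₀
  obtain ⟨a1, a2, a3, -⟩ := NodeGerm_pt χ χ' hp hU
  rw [h0] at a1 a2 a3
  -- the two component functions
  have hpath : AnalyticAt ℂ (fun t : ℂ => χ'.q (χ.σ (0, t))) t₀ := by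
    have h1 : AnalyticAt ℂ (fun t : ℂ => ((0 : ℂ), t)) t₀ := analyticAt_const.prod analyticAt_id
    exact AnalyticAt.comp (g := fun y => χ'.q (χ.σ y)) (f := fun t : ℂ => ((0 : ℂ), t))
      (NodeGerm_an χ χ' hp hU) h1
  have hu : AnalyticAt ℂ (fun t : ℂ => (χ'.q (χ.σ (0, t))).1) t₀ :=
    AnalyticAt.comp (g := fun x : ℂ × ℂ => x.1) (f := fun t : ℂ => χ'.q (χ.σ (0, t))) analyticAt_fst hpath
  have hw : AnalyticAt ℂ (fun t : ℂ => (χ'.q (χ.σ (0, t))).2) t₀ :=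
    AnalyticAt.comp (g := fun x : ℂ × ℂ => x.2) (f := fun t : ℂ => χ'.q (χ.σ (0, t))) analyticAt_snd hpath
  have htend : Tendsto (fun t : ℂ => ((0 : ℂ), t)) (𝓝 t₀) (𝓝 (0, t₀)) :=
    (continuous_const.prodMk continuous_id).tendsto t₀
  have huw : ∀ᶠ t in 𝓝 t₀, (χ'.q (χ.σ (0, t))).1 = 0 ∨ (χ'.q (χ.σ (0, t))).2 = 0 := by
    filter_upwards [htend.eventually (NodeGerm_near χ χ' hp hU)] with t ht
    obtain ⟨b1, b2, b3, c, hc, b4⟩ := NodeGerm_pt χ χ' ht.1 ht.2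
    have b5 : χ.σ (0, t) ∈ T := (h _ ht.1).2 (Or.inl rfl)
    have b6 : χ'.σ (χ'.q (χ.σ (0, t))) ∈ T := by
      rw [b4]
      exact hT _ b5 c hc
    rcases (h' _ b1).1 b6 with b7 | b7
    · exact Or.inl b7
    · exact Or.inr b7.2
  -- points on the axes of the second chart
  have hax : ∀ᶠ q in 𝓝 (0 : ℂ × ℂ), (q.1 = 0 ∨ q.2 = 0) →
      χ'.q (χ.σ (0, (χ.q (χ'.σ q)).2)) = q := by
    have hη := (NodeGerm_an χ' χ a1 a2).continuousAt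
    have hη2 : ContinuousAt (fun q => (χ.q (χ'.σ q)).2) (0 : ℂ × ℂ) := hη.snd
    have hne : ∀ᶠ q in 𝓝 (0 : ℂ × ℂ), nd = true → (χ.q (χ'.σ q)).2 ≠ 0 := by
      by_cases hn : nd = true
      · have h3 : (χ.q (χ'.σ 0)).2 ≠ 0 := by
          rw [a3]
          exact hnd hn
        exact (hη2.eventually_ne h3).mono fun q hq _ => hq
      · exact Eventually.of_forall fun q hq => absurd hq hn
    filter_upwards [NodeGerm_near χ' χ a1 a2, hne] with q hq hq2 hq3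
    obtain ⟨b1, b2, b3, c, hc, b4⟩ := NodeGerm_pt χ' χ hq.1 hq.2
    have b5 : χ'.σ q ∈ T := (h' _ hq.1).2 (by
      rcases hq3 with h4 | h4
      · exact Or.inl h4
      · exact Or.inr ⟨rfl, h4⟩)
    have b6 : χ.σ (χ.q (χ'.σ q)) ∈ T := by
      rw [b4]
      exact hT _ b5 c hc
    have b7 : (χ.q (χ'.σ q)).1 = 0 := by
      rcases (h _ b1).1 b6 with b8 | b8
      · exact b8
      · exact absurd b8.2 (hq2 b8.1)
    have b9 : ((0 : ℂ), (χ.q (χ'.σ q)).2) = χ.q (χ'.σ q) := by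
      ext
      · exact b7.symm
      · rfl
    rw [b9]
    exact b3
  have hη2 : Tendsto (fun q => (χ.q (χ'.σ q)).2) (𝓝 (0 : ℂ × ℂ)) (𝓝 t₀) := by
    have h2 : ContinuousAt (fun q => (χ.q (χ'.σ q)).2) (0 : ℂ × ℂ) :=
      (NodeGerm_an χ' χ a1 a2).continuousAt.snd
    have h3 := h2.tendsto
    rwa [a3] at h3
  have hx0 : ¬ ∀ᶠ x in 𝓝 (0 : ℂ), x = 0 := by
    intro h1
    have h2 : ∀ᶠ x in 𝓝[≠] (0 : ℂ), False := by
      filter_upwards [h1.filter_mono nhdsWithin_le_nhds, self_mem_nhdsWithin] with x hx hx'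
      exact hx' hx
    rw [eventually_false_iff_eq_bot] at h2
    exact (inferInstance : (𝓝[≠] (0 : ℂ)).NeBot).ne h2
  rcases hu.eventually_eq_zero_or_eventually_ne_zero with h1 | h1
  · have h2 : ∀ᶠ q in 𝓝 (0 : ℂ × ℂ), (q.1 = 0 ∨ q.2 = 0) → q.1 = 0 := by
      filter_upwards [hax, hη2.eventually h1] with q b1 b2 b3
      rw [b1 b3] at b2
      exact b2
    have h3 : Tendsto (fun x : ℂ => (x, (0 : ℂ))) (𝓝 0) (𝓝 (0 : ℂ × ℂ)) :=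
      (continuous_id.prodMk continuous_const).tendsto 0
    exact hx0 ((h3.eventually h2).mono fun x hx => hx (Or.inr rfl))
  · rcases hw.eventually_eq_zero_or_eventually_ne_zero with h1' | h1'
    · have h2 : ∀ᶠ q in 𝓝 (0 : ℂ × ℂ), (q.1 = 0 ∨ q.2 = 0) → q.2 = 0 := by
        filter_upwards [hax, hη2.eventually h1'] with q b1 b2 b3
        rw [b1 b3] at b2
        exact b2
      have h3 : Tendsto (fun x : ℂ => ((0 : ℂ), x)) (𝓝 0) (𝓝 (0 : ℂ × ℂ)) :=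
        (continuous_const.prodMk continuous_id).tendsto 0
      exact hx0 ((h3.eventually h2).mono fun x hx => hx (Or.inl rfl))
    · have h2 : ∀ᶠ x in 𝓝[≠] t₀, False := by
        filter_upwards [h1, h1', huw.filter_mono nhdsWithin_le_nhds] with t b1 b2 b3
        rcases b3 with b3 | b3
        · exact b1 b3
        · exact b2 b3
      rw [eventually_false_iff_eq_bot] at h2
      exact (inferInstance : (𝓝[≠] t₀).NeBot).ne h2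

end Pool.Agent.H14.PP

end

section

/-!
# BPm Params: choice of the parameters

Given `C ≥ 1`, `ε₁ > 0`, `κ₁ > 0`: `ε = min ε₁ 1`; `κ = min (min (1/4) κ₁) (ε/(8 (1 + log C)))`; `K > 0` with
`16 C^4 e^2 ≤ exp (3K/4)`; then `M ≥ 1` so large that with `e = ε/(16 log (1 + M))`:
`K ≤ e M κ^2 (exp (-K-1)/2)^2/4`, possible because `M/log (1+M) → ∞`.
-/

open Topology Filter Metric

namespace Pool.Agent.H14.PP

theorem exists_params {C ε₁ κ₁ : ℝ} (hC : 1 ≤ C) (hε₁ : 0 < ε₁) (hκ₁ : 0 < κ₁) :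
    ∃ P : Par, P.ε ≤ ε₁ ∧ P.κ ≤ κ₁ ∧ DomPar C P ∧ ConvPar P := by
  have hC0 : 0 < C := by linarith
  have hlogC : 0 ≤ Real.log C := Real.log_nonneg hC
  obtain ⟨ε, hε, hε1, hεε₁⟩ : ∃ ε : ℝ, 0 < ε ∧ ε ≤ 1 ∧ ε ≤ ε₁ :=
    ⟨min ε₁ 1, lt_min hε₁ one_pos, min_le_right _ _, min_le_left _ _⟩
  obtain ⟨κ, hκ, hκ4, hκκ₁, hκC⟩ : ∃ κ : ℝ, 0 < κ ∧ κ ≤ 1 / 4 ∧ κ ≤ κ₁ ∧ κ ≤ ε / (8 * (1 + Real.log C)) := by
    have h1 : 0 < ε / (8 * (1 + Real.log C)) := by positivity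
    refine ⟨min (min (1 / 4) κ₁) (ε / (8 * (1 + Real.log C))), ?_, ?_, ?_, ?_⟩
    · exact lt_min (lt_min (by norm_num) hκ₁) h1
    · exact (min_le_left _ _).trans (min_le_left _ _)
    · exact (min_le_left _ _).trans (min_le_right _ _)
    · exact min_le_right _ _
  have hκlog : κ * Real.log C ≤ ε / 8 := by
    have h1 : 0 < 8 * (1 + Real.log C) := by positivity
    rw [le_div_iff₀ h1] at hκC
    have h2 : 0 ≤ κ := hκ.le
    nlinarith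
  obtain ⟨K, hK, hKe⟩ : ∃ K : ℝ, 0 < K ∧ 16 * C ^ 4 * Real.exp 2 ≤ Real.exp (3 * K / 4) := by
    have h1 : 1 < 16 * C ^ 4 * Real.exp 2 := by
      have h2 : 1 ≤ C ^ 4 := one_le_pow₀ hC
      have h3 : 1 ≤ Real.exp 2 := Real.one_le_exp (by norm_num)
      nlinarith [mul_le_mul h2 h3 zero_le_one (by positivity)]
    have h2 : 0 < Real.log (16 * C ^ 4 * Real.exp 2) := Real.log_pos h1
    refine ⟨4 / 3 * Real.log (16 * C ^ 4 * Real.exp 2), by positivity, ?_⟩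
    have h3 : 3 * (4 / 3 * Real.log (16 * C ^ 4 * Real.exp 2)) / 4 = Real.log (16 * C ^ 4 * Real.exp 2) := by
      ring
    rw [h3, Real.exp_log (by linarith)]
  have hc : 0 < ε * κ ^ 2 * (Real.exp (-K - 1) / 2) ^ 2 / (64 * K) := by positivity
  obtain ⟨M, hM, hlogM⟩ : ∃ M : ℝ, 1 ≤ M ∧
      Real.log (1 + M) ≤ ε * κ ^ 2 * (Real.exp (-K - 1) / 2) ^ 2 / (64 * K) * M := by
    have h := Real.isLittleO_log_id_atTop.def (half_pos hc)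
    obtain ⟨x, hx, hx2⟩ := (h.and (eventually_ge_atTop (2 : ℝ))).exists
    refine ⟨x - 1, by linarith, ?_⟩
    have e1 : 1 + (x - 1) = x := by ring
    rw [e1]
    have e2 : |Real.log x| ≤ ε * κ ^ 2 * (Real.exp (-K - 1) / 2) ^ 2 / (64 * K) / 2 * |x| := by
      simpa only [Real.norm_eq_abs, id_eq] using hx
    rw [abs_of_nonneg (by linarith : (0 : ℝ) ≤ x)] at e2
    have e3 := (le_abs_self _).trans e2
    have e4 : ε * κ ^ 2 * (Real.exp (-K - 1) / 2) ^ 2 / (64 * K) / 2 * x ≤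
        ε * κ ^ 2 * (Real.exp (-K - 1) / 2) ^ 2 / (64 * K) * (x - 1) := by
      have e5 : x / 2 ≤ x - 1 := by linarith
      have e6 := mul_le_mul_of_nonneg_left e5 hc.le
      calc _ = ε * κ ^ 2 * (Real.exp (-K - 1) / 2) ^ 2 / (64 * K) * (x / 2) := by ring
        _ ≤ _ := e6
    exact e3.trans e4
  have hlog0 : 0 < Real.log (1 + M) := Real.log_pos (by linarith)
  have hlogne : Real.log (1 + M) ≠ 0 := hlog0.ne'
  have he : ε / (16 * Real.log (1 + M)) * Real.log (1 + M) = ε / 16 := by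
    field_simp
  have hmain : K ≤ ε / (16 * Real.log (1 + M)) * M * κ ^ 2 * (Real.exp (-K - 1) / 2) ^ 2 / 4 := by
    have h1 : Real.log (1 + M) * (64 * K) ≤ ε * κ ^ 2 * (Real.exp (-K - 1) / 2) ^ 2 * M := by
      have h2 := mul_le_mul_of_nonneg_right hlogM (by positivity : (0 : ℝ) ≤ 64 * K)
      calc Real.log (1 + M) * (64 * K) ≤ _ := h2
        _ = ε * κ ^ 2 * (Real.exp (-K - 1) / 2) ^ 2 * M := by
          field_simp
    have h3 : ε / (16 * Real.log (1 + M)) * M * κ ^ 2 * (Real.exp (-K - 1) / 2) ^ 2 / 4 =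
        ε * κ ^ 2 * (Real.exp (-K - 1) / 2) ^ 2 * M / (64 * Real.log (1 + M)) := by
      field_simp
      norm_num
    rw [h3, le_div_iff₀ (by positivity)]
    calc K * (64 * Real.log (1 + M)) = Real.log (1 + M) * (64 * K) := by ring
      _ ≤ _ := h1
  have hepos : 0 < ε / (16 * Real.log (1 + M)) := by positivity
  refine ⟨⟨ε, κ, K, M, ε / (16 * Real.log (1 + M))⟩, hεε₁, hκκ₁, ?_, ?_⟩
  · exact ⟨hε, hε1, hκ, hκ4, hκlog, hK, hKe, hM, hepos, he.le⟩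
  · exact ⟨hε, hε1, hκ, hκ4, hK, hM, hepos, he.le, hmain⟩

end Pool.Agent.H14.PP

end

section

/-!
# BPm TELocal: local estimates for a change of charts near a smooth point of `T`

`τ = (u, w)` is analytic at `p₀ = (0, t₀)`, `u (0,t) = 0` for `t` near `t₀`, and the Jacobian
determinant at `p₀` is not zero. Let `l = ∂_s u`, `b = ∂_t u`, `c = ∂_s w`, `m = ∂_t w` (continuous
near `p₀`, and Lipschitz near `p₀` because `fderiv ℂ τ` is analytic: `AnalyticAt.fderiv`,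
`ContDiffAt.exists_lipschitzOnWith`).
* `b (0,t) = 0` for `t` near `t₀`, so `‖b (s,t)‖ ≤ A ‖s‖` (Lipschitz).
* `jac = l m - b c`, at `p₀` it is `l m ≠ 0`; so `‖l‖, ‖m‖` are between two positive constants
  near `p₀`; `‖c‖` is bounded.
* `‖u (s,t) - l (s,t) s‖ ≤ A ‖s‖^2`: for fixed `(s,t)` the function
  `θ ↦ u (θ s, t) - θ s l (s,t)`, `θ ∈ [0,1]`, has derivative `s (l (θ s, t) - l (s,t))`, of norm
  `≤ A ‖s‖^2`, and vanishes at `0`. So `|‖u‖ - ‖l‖‖s‖| ≤ A ‖s‖^2`.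
-/

open Topology Filter Metric

namespace Pool.Agent.H14.PP

/-- two-sided bounds near a point -/
private theorem TELocal_bd {f : ℂ × ℂ → ℂ} {p : ℂ × ℂ} (hf : ContinuousAt f p) (h : f p ≠ 0) :
    ∀ᶠ q in 𝓝 p, ‖f p‖ / 2 ≤ ‖f q‖ ∧ ‖f q‖ ≤ ‖f p‖ + 1 := by
  have hp : 0 < ‖f p‖ := norm_pos_iff.2 h
  have h1 := hf.norm.eventually (lt_mem_nhds (show ‖f p‖ / 2 < ‖f p‖ by linarith))
  have h2 := hf.norm.eventually (gt_mem_nhds (show ‖f p‖ < ‖f p‖ + 1 by linarith))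
  filter_upwards [h1, h2] with q a b
  exact ⟨a.le, b.le⟩

theorem TE_local {τ : ℂ × ℂ → ℂ × ℂ} {t₀ : ℂ} (hτ : AnalyticAt ℂ τ (0, t₀))
    (hJ : jac τ (0, t₀) ≠ 0) (h0 : ∀ᶠ t in 𝓝 t₀, (τ (0, t)).1 = 0) :
    ∃ C : ℝ, 1 ≤ C ∧ ∀ᶠ p in 𝓝 ((0 : ℂ), t₀), TEmap C τ p := by
  have hD : AnalyticAt ℂ (fderiv ℂ τ) (0, t₀) := hτ.fderiv
  have hD1 : ContDiffAt ℂ 1 (fderiv ℂ τ) (0, t₀) := hD.contDiffAt
  obtain ⟨K, V, hV, hL⟩ := hD1.exists_lipschitzOnWith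
  have hV' : ∀ᶠ p in 𝓝 ((0 : ℂ), t₀), p ∈ V := hV
  obtain ⟨r1, hr1, hB1⟩ := Metric.eventually_nhds_iff_ball.1 (hτ.eventually_analyticAt.and hV')
  obtain ⟨r2, hr2, hB2⟩ := Metric.eventually_nhds_iff_ball.1 h0
  have hlip : ∀ p ∈ ball ((0 : ℂ), t₀) r1, ∀ q ∈ ball ((0 : ℂ), t₀) r1,
      ‖fderiv ℂ τ p - fderiv ℂ τ q‖ ≤ K * ‖p - q‖ := by
    intro p hp q hq
    have h1 := hL.dist_le_mul p (hB1 p hp).2 q (hB1 q hq).2
    rwa [dist_eq_norm, dist_eq_norm] at h1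
  have hfst : ∀ (A B : ℂ × ℂ →L[ℂ] ℂ × ℂ) (v : ℂ × ℂ), ‖v‖ ≤ 1 → ‖(A v).1 - (B v).1‖ ≤ ‖A - B‖ := by
    intro A B v hv
    have h1 : (A v).1 - (B v).1 = ((A - B) v).1 := by simp
    rw [h1]
    refine (norm_fst_le _).trans ?_
    refine ((A - B).le_opNorm v).trans ?_
    exact mul_le_of_le_one_right (norm_nonneg _) hv
  have hv1 : ‖((1 : ℂ), (0 : ℂ))‖ ≤ 1 := by simp [Prod.norm_def]
  have hv2 : ‖((0 : ℂ), (1 : ℂ))‖ ≤ 1 := by simp [Prod.norm_def]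
  -- the derivative of the first component vanishes on the curve
  have hb0 : ∀ t ∈ ball t₀ (min r1 r2), (fderiv ℂ τ (0, t) (0, 1)).1 = 0 := by
    intro t ht
    have ht1 : dist t t₀ < r1 := lt_of_lt_of_le ht (min_le_left _ _)
    have ht2 : t ∈ ball t₀ r2 := lt_of_lt_of_le (show dist t t₀ < min r1 r2 from ht) (min_le_right _ _)
    have hp : ((0 : ℂ), t) ∈ ball ((0 : ℂ), t₀) r1 := by
      rw [mem_ball, Prod.dist_eq]
      simp only [dist_self]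
      exact max_lt hr1 ht1
    have h1 : HasFDerivAt τ (fderiv ℂ τ (0, t)) (0, t) := (hB1 _ hp).1.differentiableAt.hasFDerivAt
    have h2 : HasDerivAt (fun y : ℂ => ((0 : ℂ), y)) ((0 : ℂ), (1 : ℂ)) t :=
      (hasDerivAt_const t (0 : ℂ)).prodMk (hasDerivAt_id t)
    have h3 : HasDerivAt (fun y : ℂ => τ (0, y)) (fderiv ℂ τ (0, t) (0, 1)) t :=
      h1.comp_hasDerivAt t h2
    have h4 : HasDerivAt (fun y : ℂ => (τ (0, y)).1) (fderiv ℂ τ (0, t) (0, 1)).1 t :=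
      (ContinuousLinearMap.fst ℂ ℂ ℂ).hasFDerivAt.comp_hasDerivAt t h3
    have h5 : HasDerivAt (fun y : ℂ => (τ (0, y)).1) 0 t := by
      refine (hasDerivAt_const t (0 : ℂ)).congr_of_eventuallyEq ?_
      filter_upwards [isOpen_ball.mem_nhds ht2] with y hy
      exact hB2 y hy
    exact h4.unique h5
  -- continuity
  have hcl : ContinuousAt (fun p => (fderiv ℂ τ p (1, 0)).1) ((0 : ℂ), t₀) :=
    (hD.continuousAt.clm_apply continuousAt_const).fst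
  have hcc : ContinuousAt (fun p => (fderiv ℂ τ p (1, 0)).2) ((0 : ℂ), t₀) :=
    (hD.continuousAt.clm_apply continuousAt_const).snd
  have hcm : ContinuousAt (fun p => (fderiv ℂ τ p (0, 1)).2) ((0 : ℂ), t₀) :=
    (hD.continuousAt.clm_apply continuousAt_const).snd
  have hb00 := hb0 t₀ (mem_ball_self (lt_min hr1 hr2))
  have hlm : (fderiv ℂ τ (0, t₀) (1, 0)).1 * (fderiv ℂ τ (0, t₀) (0, 1)).2 ≠ 0 := by
    intro h
    apply hJ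
    unfold jac
    rw [h, hb00]
    ring
  have hl0 := left_ne_zero_of_mul hlm
  have hm0 := right_ne_zero_of_mul hlm
  have hlp : 0 < ‖(fderiv ℂ τ (0, t₀) (1, 0)).1‖ := norm_pos_iff.2 hl0
  have hmp : 0 < ‖(fderiv ℂ τ (0, t₀) (0, 1)).2‖ := norm_pos_iff.2 hm0
  obtain ⟨L, hLd⟩ : ∃ L : ℝ, L = ‖(fderiv ℂ τ (0, t₀) (1, 0)).1‖ := ⟨_, rfl⟩
  obtain ⟨M, hMd⟩ : ∃ M : ℝ, M = ‖(fderiv ℂ τ (0, t₀) (0, 1)).2‖ := ⟨_, rfl⟩
  obtain ⟨c0, hcd⟩ : ∃ c0 : ℝ, c0 = ‖(fderiv ℂ τ (0, t₀) (1, 0)).2‖ := ⟨_, rfl⟩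
  have hc00 : 0 ≤ c0 := by
    rw [hcd]
    exact norm_nonneg _
  have hLp : 0 < L := by
    rw [hLd]
    exact hlp
  have hMp : 0 < M := by
    rw [hMd]
    exact hmp
  have hc1 : ∀ᶠ p in 𝓝 ((0 : ℂ), t₀), ‖(fderiv ℂ τ p (1, 0)).2‖ < c0 + 1 := by
    refine hcc.norm.eventually (gt_mem_nhds ?_)
    rw [hcd]
    linarith
  have hK0 : (0 : ℝ) ≤ K := K.2
  have h2L : 0 < 2 / L := by positivity
  have h2M : 0 < 2 / M := by positivity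
  refine ⟨1 + 2 * K + (c0 + 1) + (L + 1) + (M + 1) + 2 / L + 2 / M, by linarith, ?_⟩
  obtain ⟨C, hC⟩ : ∃ C : ℝ, C = 1 + 2 * K + (c0 + 1) + (L + 1) + (M + 1) + 2 / L + 2 / M := ⟨_, rfl⟩
  rw [← hC]
  have hCp : 0 < C := by linarith
  have hinv : ∀ x : ℝ, 0 < x → 2 / x ≤ C → C⁻¹ ≤ x / 2 := by
    intro x hx h
    rw [inv_le_comm₀ hCp (by positivity), inv_div]
    exact h
  have hCL : C⁻¹ ≤ L / 2 := hinv L hLp (by linarith)
  have hCM : C⁻¹ ≤ M / 2 := hinv M hMp (by linarith)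
  have hbl := TELocal_bd hcl hl0
  have hbm := TELocal_bd hcm hm0
  simp only [← hLd] at hbl
  simp only [← hMd] at hbm
  have hball : ∀ᶠ p in 𝓝 ((0 : ℂ), t₀), p ∈ ball ((0 : ℂ), t₀) (min r1 r2) :=
    isOpen_ball.mem_nhds (mem_ball_self (lt_min hr1 hr2))
  filter_upwards [hbl, hbm, hc1, hball] with p a1 a2 a3 hp
  obtain ⟨s, t⟩ := p
  rw [mem_ball, Prod.dist_eq, max_lt_iff] at hp
  obtain ⟨hs, ht⟩ := hp
  simp only at hs ht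
  have hs' : ‖s‖ < r1 := by
    have := lt_of_lt_of_le hs (min_le_left _ _)
    rwa [dist_zero_right] at this
  have ht' : dist t t₀ < r1 := lt_of_lt_of_le ht (min_le_left _ _)
  have hin : ∀ z : ℂ, ‖z‖ ≤ ‖s‖ → (z, t) ∈ ball ((0 : ℂ), t₀) r1 := by
    intro z hz
    rw [mem_ball, Prod.dist_eq]
    refine max_lt ?_ ht'
    rw [dist_zero_right]
    exact lt_of_le_of_lt hz hs'
  unfold TEmap TE
  refine ⟨?_, by linarith, ?_, hCL.trans a1.1, by linarith [a1.2], hCM.trans a2.1, by linarith [a2.2]⟩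
  · have h1 := hfst (fderiv ℂ τ (s, t)) (fderiv ℂ τ (0, t)) (0, 1) hv2
    rw [hb0 t ht, sub_zero] at h1
    have h2 := hlip (s, t) (hin s le_rfl) (0, t) (hin 0 (by simp))
    have h3 : ‖((s, t) : ℂ × ℂ) - (0, t)‖ = ‖s‖ := by simp [Prod.norm_def]
    rw [h3] at h2
    refine h1.trans (h2.trans ?_)
    exact mul_le_mul_of_nonneg_right (by linarith) (norm_nonneg _)
  · have hmv : ‖((τ (s, t)).1 - s * (fderiv ℂ τ (s, t) (1, 0)).1) -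
        ((τ (0, t)).1 - 0 * (fderiv ℂ τ (s, t) (1, 0)).1)‖ ≤ 2 * K * ‖s‖ * ‖s - 0‖ := by
      refine Convex.norm_image_sub_le_of_norm_hasDerivWithin_le
        (f := fun z : ℂ => (τ (z, t)).1 - z * (fderiv ℂ τ (s, t) (1, 0)).1)
        (f' := fun z : ℂ => (fderiv ℂ τ (z, t) (1, 0)).1 - 1 * (fderiv ℂ τ (s, t) (1, 0)).1)
        (s := closedBall (0 : ℂ) ‖s‖) ?_ ?_ (convex_closedBall _ _) (by simp) (by simp)
      · intro z hz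
        rw [mem_closedBall, dist_zero_right] at hz
        have h1 : HasFDerivAt τ (fderiv ℂ τ (z, t)) (z, t) :=
          (hB1 _ (hin z hz)).1.differentiableAt.hasFDerivAt
        have h2 : HasDerivAt (fun y : ℂ => (y, t)) ((1 : ℂ), (0 : ℂ)) z :=
          (hasDerivAt_id z).prodMk (hasDerivAt_const z t)
        have h3 : HasDerivAt (fun y : ℂ => τ (y, t)) (fderiv ℂ τ (z, t) (1, 0)) z :=
          h1.comp_hasDerivAt z h2
        have h4 : HasDerivAt (fun y : ℂ => (τ (y, t)).1) (fderiv ℂ τ (z, t) (1, 0)).1 z :=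
          (ContinuousLinearMap.fst ℂ ℂ ℂ).hasFDerivAt.comp_hasDerivAt z h3
        exact (h4.sub ((hasDerivAt_id z).mul_const _)).hasDerivWithinAt
      · intro z hz
        rw [mem_closedBall, dist_zero_right] at hz
        rw [one_mul]
        refine (hfst _ _ _ hv1).trans ?_
        refine (hlip (z, t) (hin z hz) (s, t) (hin s le_rfl)).trans ?_
        have h3 : ‖((z, t) : ℂ × ℂ) - (s, t)‖ = ‖z - s‖ := by simp [Prod.norm_def]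
        rw [h3]
        have h4 : ‖z - s‖ ≤ 2 * ‖s‖ := (norm_sub_le _ _).trans (by linarith)
        calc (K : ℝ) * ‖z - s‖ ≤ K * (2 * ‖s‖) := mul_le_mul_of_nonneg_left h4 hK0
          _ = 2 * K * ‖s‖ := by ring
    have h0t : (τ (0, t)).1 = 0 := hB2 t (lt_of_lt_of_le ht (min_le_right _ _))
    rw [h0t, zero_mul, sub_zero, sub_zero, sub_zero] at hmv
    have h5 : |‖(τ (s, t)).1‖ - ‖(fderiv ℂ τ (s, t) (1, 0)).1‖ * ‖s‖| ≤
        ‖(τ (s, t)).1 - s * (fderiv ℂ τ (s, t) (1, 0)).1‖ := by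
      have h6 := abs_norm_sub_norm_le (τ (s, t)).1 (s * (fderiv ℂ τ (s, t) (1, 0)).1)
      rwa [norm_mul, mul_comm ‖s‖] at h6
    refine h5.trans (hmv.trans ?_)
    rw [mul_assoc, ← pow_two]
    exact mul_le_mul_of_nonneg_right (by linarith) (by positivity)

theorem TE.mono {C C' : ℝ} (hC : 1 ≤ C) (h : C ≤ C') {s u l b c m : ℂ} (hT : TE C s u l b c m) :
    TE C' s u l b c m := by
  obtain ⟨h1, h2, h3, h4, h5, h6, h7⟩ := hT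
  have hC0 : 0 < C := by linarith
  have hi : C'⁻¹ ≤ C⁻¹ := inv_anti₀ hC0 h
  refine ⟨h1.trans (mul_le_mul_of_nonneg_right h (norm_nonneg _)), h2.trans h,
    h3.trans (mul_le_mul_of_nonneg_right h (by positivity)), hi.trans h4, h5.trans h, hi.trans h6, h7.trans h⟩

end Pool.Agent.H14.PP

end

section

/-!
# BPB Defs: the metric on an arbitrary open part, limit curves with bubbling

`MD` is `MetricData` without the field `hur` for `k ≥ 1`.  For arbitrary open surfaces the limit of the rescaled discs may meet the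
boundary at the points of a closed discrete set (the bubbling points).
-/

set_option autoImplicit false

namespace Pool.Agent.H36.BPB

open Filter Topology Metric

export Pool.Agent.H36.BP (EN Sub fs wd Curve mt OrdTwo)

variable {N : ℕ}

/-- `MetricData` without the condition at the bubbling points. -/
structure MD (K B : Set (EN N)) (G : EN N → EN N → ℝ) (ρ : EN N → ℝ) (M : ℕ) (c₀ C : ℝ) : Prop where
  ne : ∀ x ∈ K, x ≠ 0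
  smul : ∀ x ∈ K, ∀ c : ℂ, c ≠ 0 → c • x ∈ K
  c₀_pos : 0 < c₀
  C_nonneg : 0 ≤ C
  nonneg : ∀ x ∈ K, ∀ v, 0 ≤ G x v
  usc : ∀ x ∈ K, ∀ v, ∀ a : ℝ, G x v < a → ∀ᶠ p in 𝓝 (x, v), p.1 ∈ K → G p.1 p.2 < a
  inv : ∀ x ∈ K, ∀ v (c a : ℂ), c ≠ 0 → G (c • x) (c • v + a • x) = G x v
  hom : ∀ x ∈ K, ∀ v (c : ℂ), G x (c • v) = ‖c‖ * G x v
  zero : ∀ (F : ℂ → EN N) (z₀ : ℂ), AnalyticAt ℂ F z₀ → (∀ᶠ z in 𝓝 z₀, F z ∈ K ∧ F z ∈ B) → mt G F z₀ = 0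
  sub : ∀ (F : ℂ → EN N) (z₀ : ℂ), AnalyticAt ℂ F z₀ → (∀ᶠ z in 𝓝 z₀, F z ∈ K) → 0 < mt G F z₀ →
    Sub (fun z => mt G F z * ‖F z‖ ^ (-c₀)) z₀ (-(C * mt G F z₀ ^ 2))
  ρ_nonneg : ∀ x ∈ K, 0 ≤ ρ x
  lower : ∀ x ∈ K, ∀ v, ρ x ^ M * fs x v ≤ G x v
  ρ_zero : ∀ (F : ℂ → EN N) (z₀ : ℂ), AnalyticAt ℂ F z₀ → (∀ᶠ z in 𝓝 z₀, F z ∈ K) →
    (∃ᶠ z in 𝓝[≠] z₀, ρ (F z) = 0) → ∀ᶠ z in 𝓝 z₀, F z ∈ B
  rel_open : ∀ x ∈ K, ∀ᶠ y in 𝓝 x, y ∈ closure K → y ∈ K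
  hur : ∀ (l : Filter ℕ), l.NeBot → ∀ (F : ℕ → ℂ → EN N) (H : ℂ → EN N) (z₀ : ℂ) (s : ℝ), 0 < s →
    (∀ᶠ n in l, Curve K (Metric.ball z₀ s) (F n)) → DifferentiableOn ℂ H (Metric.ball z₀ s) →
    TendstoLocallyUniformlyOn F H l (Metric.ball z₀ s) → H z₀ ≠ 0 → H z₀ ∉ K → ∀ᶠ z in 𝓝 z₀, H z ∉ K
  lim : ∀ (l : Filter ℕ), l.NeBot → ∀ (F : ℕ → ℂ → EN N) (H : ℂ → EN N) (z₀ : ℂ) (s : ℝ), 0 < s →
    (∀ᶠ n in l, Curve K (Metric.ball z₀ s) (F n)) → TendstoLocallyUniformlyOn F H l (Metric.ball z₀ s) → H z₀ ≠ 0 →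
    (∀ z ∈ Metric.ball z₀ s, H z ∉ K) → ∀ ε : ℝ, 0 < ε → ∀ᶠ n in l, mt G (F n) z₀ < ε

/-- Near `z₀` the curves `[F n]` in projective space converge uniformly to `[H]`, with normalised lifts. -/
def ConvAt {V : Type} [NormedAddCommGroup V] [NormedSpace ℂ V] (l : Filter ℕ) (F : ℕ → ℂ → V) (H : ℂ → V) (z₀ : ℂ) : Prop :=
  ∃ s : ℝ, 0 < s ∧ ∃ φ : ℕ → ℂ → ℂ,
    (∀ᶠ n in l, DifferentiableOn ℂ (φ n) (ball z₀ s) ∧ ∀ z ∈ ball z₀ s, φ n z ≠ 0) ∧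
    TendstoLocallyUniformlyOn (fun n z => φ n z • F n z) H l (ball z₀ s)

/-- `[H]` is the limit of the curves `[F n]` in `K`, which are defined on larger and larger discs, in `0` and outside a closed
discrete set. -/
structure IsLimit {V : Type} [NormedAddCommGroup V] [NormedSpace ℂ V] (K : Set V) (l : Filter ℕ) (F : ℕ → ℂ → V) (H : ℂ → V) :
    Prop where
  neBot : l.NeBot
  le_atTop : l ≤ atTop
  diff : ∀ n : ℕ, DifferentiableOn ℂ (F n) (ball 0 (n + 1))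
  mem : ∀ n : ℕ, ∀ z ∈ ball (0 : ℂ) (n + 1), F n z ∈ K
  hol : Differentiable ℂ H
  ne : ∀ z, H z ≠ 0
  zero : ConvAt l F H 0
  conv : ∀ z₀ : ℂ, ∀ᶠ z in 𝓝[≠] z₀, ConvAt l F H z

/-- All limits of order at most two of discs in `K`, which are not constant as maps into projective space, lie in `B`. -/
def LimMod2 {V : Type} [NormedAddCommGroup V] [NormedSpace ℂ V] (K B : Set V) : Prop :=
  ∀ (l : Filter ℕ) (F : ℕ → ℂ → V) (H : ℂ → V), IsLimit K l F H → (∀ z, H z ∈ closure K) → H 0 ∈ K →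
    (∀ z, ConvAt l F H z → H z ∈ K) → (∃ z w, ∀ c : ℂ, H z ≠ c • H w) → OrdTwo H → ∀ z, H z ∈ K → H z ∈ B

end Pool.Agent.H36.BPB

end

section

/-!
# BPB (port) MtA: the metric along a curve

* `mt_usc`: `F` and `deriv F` are continuous near `z`, `usc`.
* `mt_smul`: for `k` holomorphic without zeros at `z`: `(k F)' = k F' + k' F`, `inv`.
* `mt_comp`: `(F ∘ φ)' = φ' F' ∘ φ`, `hom`.
* `mt_limit`: `F n → H` locally uniformly on a neighbourhood of `0`, then `F n 0 → H 0`, `(F n)' 0 → H' 0` (`TendstoLocallyUniformlyOn.deriv`), `usc` at `(H 0, H' 0)`.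
-/

set_option autoImplicit false

namespace Pool.Agent.H36.BPB

open Filter Topology Metric
open Pool.Agent.H36.BP

variable {N : ℕ}

variable {K B : Set (EN N)} {G : EN N → EN N → ℝ} {ρ : EN N → ℝ} {M : ℕ} {c₀ C : ℝ}

theorem mt_usc (hM : MD K B G ρ M c₀ C) {U : Set ℂ} (hU : IsOpen U) {F : ℂ → EN N} (hF : Curve K U F) :
    UpperSemicontinuousOn (mt G F) U := by
  intro z hz y hy
  have hA : AnalyticAt ℂ F z := hF.1.analyticAt (hU.mem_nhds hz)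
  have hc : ContinuousAt (fun w => (F w, deriv F w)) z := hA.continuousAt.prodMk hA.deriv.continuousAt
  have h1 := hM.usc (F z) (hF.2 z hz) (deriv F z) y hy
  have h2 := hc.eventually h1
  filter_upwards [nhdsWithin_le_nhds h2, self_mem_nhdsWithin] with w hw hwU
  exact hw (hF.2 w hwU)

theorem mt_nonneg (hM : MD K B G ρ M c₀ C) {F : ℂ → EN N} {z : ℂ} (hz : F z ∈ K) : 0 ≤ mt G F z := by
  exact hM.nonneg _ hz _

theorem mt_smul (hM : MD K B G ρ M c₀ C) {F : ℂ → EN N} {k : ℂ → ℂ} {z : ℂ} (hF : DifferentiableAt ℂ F z)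
    (hk : DifferentiableAt ℂ k z) (hz : F z ∈ K) (h0 : k z ≠ 0) : mt G (fun z => k z • F z) z = mt G F z := by
  have h : deriv (fun z => k z • F z) z = k z • deriv F z + deriv k z • F z := by
    have := (hk.hasDerivAt.smul hF.hasDerivAt).deriv
    exact this
  unfold mt
  rw [h]
  exact hM.inv (F z) hz (deriv F z) (k z) (deriv k z) h0

theorem mt_comp (hM : MD K B G ρ M c₀ C) {F : ℂ → EN N} {φ : ℂ → ℂ} {z : ℂ} (hF : DifferentiableAt ℂ F (φ z))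
    (hφ : DifferentiableAt ℂ φ z) (hz : F (φ z) ∈ K) : mt G (fun z => F (φ z)) z = ‖deriv φ z‖ * mt G F (φ z) := by
  have h : deriv (fun z => F (φ z)) z = deriv φ z • deriv F (φ z) := by
    have := (HasDerivAt.scomp z hF.hasDerivAt hφ.hasDerivAt).deriv
    exact this
  unfold mt
  rw [h]
  exact hM.hom (F (φ z)) hz (deriv F (φ z)) (deriv φ z)

theorem mt_limit (hM : MD K B G ρ M c₀ C) {κ : Type} {l : Filter κ} [l.NeBot] {F : κ → ℂ → EN N} {H : ℂ → EN N} {s : ℝ} (hs : 0 < s)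
    (hF : ∀ᶠ n in l, Curve K (ball 0 s) (F n)) (hH : TendstoLocallyUniformlyOn F H l (ball 0 s)) (h0 : H 0 ∈ K) {a : ℝ}
    (ha : ∀ᶠ n in l, a ≤ mt G (F n) 0) : a ≤ mt G H 0 := by
  by_contra hlt
  rw [not_le] at hlt
  have hmem : (0 : ℂ) ∈ ball (0 : ℂ) s := mem_ball_self hs
  have h1 : Tendsto (fun n => F n 0) l (𝓝 (H 0)) := hH.tendsto_at hmem
  have hd : TendstoLocallyUniformlyOn (deriv ∘ F) (deriv H) l (ball 0 s) :=
    hH.deriv (hF.mono fun n hn => hn.1) isOpen_ball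
  have h2 : Tendsto (fun n => deriv (F n) 0) l (𝓝 (deriv H 0)) := hd.tendsto_at hmem
  have h3 : Tendsto (fun n => (F n 0, deriv (F n) 0)) l (𝓝 (H 0, deriv H 0)) := h1.prodMk_nhds h2
  have h4 := h3.eventually (hM.usc (H 0) h0 (deriv H 0) a hlt)
  obtain ⟨n, hn1, hn2, hn3⟩ := (h4.and (hF.and ha)).exists
  have h5 : G (F n 0) (deriv (F n) 0) < a := hn1 (hn2.2 0 hmem)
  exact absurd hn3 (not_le.mpr h5)

theorem mt_const (hM : MD K B G ρ M c₀ C) {F : ℂ → EN N} {z : ℂ} (hz : F z ∈ K) {a : ℂ} (h : deriv F z = a • F z) : mt G F z = 0 := by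
  have h1 : G (F z) 0 = 0 := by
    have := hM.hom (F z) hz 0 0
    simpa using this
  have h2 := hM.inv (F z) hz 0 1 a one_ne_zero
  rw [smul_zero, zero_add, one_smul, h1] at h2
  unfold mt
  rw [h, h2]

end Pool.Agent.H36.BPB

end

section

/-!
# MQ/SNPt: the exit of a saddle-node, pointwise algebra

`Z` is the derivative of the potential `z = 1 / ω`, `θ` is `div v * ζ'`, `μ` is `Y' / Y`.
-/

set_option autoImplicit false

open Complex ComplexConjugate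

namespace Pool.Agent.MQ

theorem re_conj_mul_mul (Z ω : ℂ) : (conj (Z * ω) * Z).re = ‖Z‖ ^ 2 * ω.re := by
  rw [Complex.sq_norm, Complex.normSq_apply]
  simp only [map_mul, mul_re, mul_im, conj_re, conj_im]
  ring

theorem im_mul_conj (Z ω : ℂ) : (Z * ω * conj Z).im = ‖Z‖ ^ 2 * ω.im := by
  rw [Complex.sq_norm, Complex.normSq_apply]
  simp only [mul_re, mul_im, conj_re, conj_im]
  ring

theorem sn_point {ω Z θ μ : ℂ} {c₁ c₂ H₁ H₂ C Hm : ℝ} (hω : ω ≠ 0) (h1 : 0 ≤ c₁) (h2 : 0 ≤ c₂) (h2' : c₂ ≤ 1) (hH1 : 0 ≤ H₁) (hH2 : 0 ≤ H₂)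
    (hHm : H₂ ≤ Hm) (hC : 0 ≤ C) (hθ : H₁ ≠ 0 → c₂ ≠ 0 → ‖θ - Z‖ ≤ C * ‖ω‖ * ‖Z‖) (hμ : H₁ ≠ 0 → H₂ ≠ 0 → ‖μ - Z‖ ≤ C * ‖ω‖ * ‖Z‖)
    (hpos : H₂ ≠ 0 → c₁ ≠ 0 → 0 ≤ (conj μ * θ).re) :
    ip ((c₂ : ℂ) * ((H₁ : ℂ) * conj (Z * ω)) + (c₁ : ℂ) * (-(H₂ : ℂ) * conj μ)) (conj θ) ≤
      c₂ * (H₁ * (‖Z‖ ^ 2 * ω.re)) + (-ω.im / ‖ω‖ ^ 2) * (-(H₁ * H₂) * (Z * ω * conj μ).im) + (C + Hm * C ^ 2) * (H₁ * ‖Z * ω‖ ^ 2) := by
  have hn : 0 < ‖ω‖ := norm_pos_iff.2 hω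
  have e1 : ip ((c₂ : ℂ) * ((H₁ : ℂ) * conj (Z * ω)) + (c₁ : ℂ) * (-(H₂ : ℂ) * conj μ)) (conj θ) =
      c₂ * (H₁ * (conj (Z * ω) * θ).re) - c₁ * (H₂ * (conj μ * θ).re) := by
    simp only [ip, map_mul, mul_re, mul_im, conj_re, conj_im, add_re, add_im, ofReal_re, ofReal_im, neg_re, neg_im]
    ring
  have e2 : (conj (Z * ω) * θ).re = ‖Z‖ ^ 2 * ω.re + (conj (Z * ω) * (θ - Z)).re := by
    rw [← re_conj_mul_mul, ← add_re, ← mul_add]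
    congr 2
    ring
  have e3 : (Z * ω * conj μ).im = ‖Z‖ ^ 2 * ω.im + (Z * ω * conj (μ - Z)).im := by
    rw [← im_mul_conj, ← add_im, ← mul_add, ← map_add]
    congr 3
    ring
  have hp : 0 ≤ c₁ * (H₂ * (conj μ * θ).re) := by
    by_cases ha : H₂ = 0
    · rw [ha]; simp
    by_cases hb : c₁ = 0
    · rw [hb]; simp
    exact mul_nonneg h1 (mul_nonneg hH2 (hpos ha hb))
  have hA : c₂ * (H₁ * (conj (Z * ω) * (θ - Z)).re) ≤ C * (H₁ * ‖Z * ω‖ ^ 2) := by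
    by_cases ha : H₁ = 0
    · rw [ha]; simp
    by_cases hb : c₂ = 0
    · rw [hb, zero_mul]; positivity
    have h3 : (conj (Z * ω) * (θ - Z)).re ≤ ‖Z * ω‖ * (C * ‖ω‖ * ‖Z‖) := by
      refine (Complex.re_le_norm _).trans ?_
      rw [norm_mul, RCLike.norm_conj]
      exact mul_le_mul_of_nonneg_left (hθ ha hb) (norm_nonneg _)
    have h4 : ‖Z * ω‖ * (C * ‖ω‖ * ‖Z‖) = C * ‖Z * ω‖ ^ 2 := by rw [norm_mul]; ring
    rw [h4] at h3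
    have h5 : c₂ * (H₁ * (conj (Z * ω) * (θ - Z)).re) ≤ c₂ * (H₁ * (C * ‖Z * ω‖ ^ 2)) :=
      mul_le_mul_of_nonneg_left (mul_le_mul_of_nonneg_left h3 hH1) h2
    have h6 : c₂ * (H₁ * (C * ‖Z * ω‖ ^ 2)) ≤ 1 * (H₁ * (C * ‖Z * ω‖ ^ 2)) :=
      mul_le_mul_of_nonneg_right h2' (by positivity)
    linarith
  have hB : -(-ω.im / ‖ω‖ ^ 2) * (-(H₁ * H₂) * (Z * ω * conj μ).im) ≤ Hm * C ^ 2 * (H₁ * ‖Z * ω‖ ^ 2) := by
    by_cases ha : H₁ = 0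
    · rw [ha]; simp
    by_cases hb : H₂ = 0
    · rw [hb, mul_zero, neg_zero, zero_mul, mul_zero]
      have : 0 ≤ Hm := by rw [← hb]; exact hHm
      positivity
    have hHm0 : 0 ≤ Hm := hH2.trans hHm
    have h3 : |(Z * ω * conj (μ - Z)).im| ≤ ‖Z * ω‖ * (C * ‖ω‖ * ‖Z‖) := by
      refine (Complex.abs_im_le_norm _).trans ?_
      rw [norm_mul, RCLike.norm_conj]
      exact mul_le_mul_of_nonneg_left (hμ ha hb) (norm_nonneg _)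
    have h4 : ‖Z * ω‖ * (C * ‖ω‖ * ‖Z‖) = C * ‖Z‖ ^ 2 * ‖ω‖ ^ 2 := by rw [norm_mul]; ring
    rw [h4] at h3
    have h5 : -(ω.im * (Z * ω * conj μ).im) ≤ C ^ 2 * ‖Z‖ ^ 2 * ‖ω‖ ^ 4 := by
      rw [e3]
      have h6 : |ω.im * (Z * ω * conj (μ - Z)).im| ≤ |ω.im| * (C * ‖Z‖ ^ 2 * ‖ω‖ ^ 2) := by
        rw [abs_mul]
        exact mul_le_mul_of_nonneg_left h3 (abs_nonneg _)
      have h7 := neg_abs_le (ω.im * (Z * ω * conj (μ - Z)).im)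
      have h8 : 0 ≤ ‖Z‖ ^ 2 * (|ω.im| - C * ‖ω‖ ^ 2 / 2) ^ 2 := by positivity
      have h9 : |ω.im| ^ 2 = ω.im ^ 2 := sq_abs _
      have h10 : 0 ≤ C ^ 2 * ‖Z‖ ^ 2 * ‖ω‖ ^ 4 := by positivity
      nlinarith
    have h6 : -(-ω.im / ‖ω‖ ^ 2) * (-(H₁ * H₂) * (Z * ω * conj μ).im) = H₁ * H₂ / ‖ω‖ ^ 2 * (-(ω.im * (Z * ω * conj μ).im)) := by
      field_simp
    rw [h6]
    have h7 : H₁ * H₂ / ‖ω‖ ^ 2 * (-(ω.im * (Z * ω * conj μ).im)) ≤ H₁ * H₂ / ‖ω‖ ^ 2 * (C ^ 2 * ‖Z‖ ^ 2 * ‖ω‖ ^ 4) :=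
      mul_le_mul_of_nonneg_left h5 (by positivity)
    have h8 : H₁ * H₂ / ‖ω‖ ^ 2 * (C ^ 2 * ‖Z‖ ^ 2 * ‖ω‖ ^ 4) = H₂ * (C ^ 2 * (H₁ * ‖Z * ω‖ ^ 2)) := by
      rw [norm_mul]
      field_simp
    have h9 : H₂ * (C ^ 2 * (H₁ * ‖Z * ω‖ ^ 2)) ≤ Hm * (C ^ 2 * (H₁ * ‖Z * ω‖ ^ 2)) :=
      mul_le_mul_of_nonneg_right hHm (by positivity)
    linarith
  rw [e1, e2]
  have e4 : c₂ * (H₁ * (‖Z‖ ^ 2 * ω.re + (conj (Z * ω) * (θ - Z)).re)) = c₂ * (H₁ * (‖Z‖ ^ 2 * ω.re)) + c₂ * (H₁ * (conj (Z * ω) * (θ - Z)).re) := by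
    ring
  rw [e4]
  linarith

end Pool.Agent.MQ

end
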