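import Mathlib

/-! The parts of this file: G3.C.Ode, H62.BP.MinMod, H62.Log.Hurwitz, MQ2.Ell. -/

section

/-!
# G3 C Ode: real solutions of holomorphic differential equations extend to complex time

Let `V` be holomorphic and bounded by `M` on `ball (s₁, y₁) R ⊆ ℂ × ℂ^n` (sup norm).
`ode_hol`: PICARD ITERATION on the complex disc.  By the Cauchy estimates `V` is `K`-Lipschitz in `y` on `ball (s₁, y₁) (R / 2)` with `K = K (R, M, n)` (or: use the
Schwarz-type bound `Complex.norm_deriv_le_of_forall_mem_sphere_norm_le` on complex lines, or `dist_le_mul_dist_of_mapsTo_ball`).  `ε = min (R / 2) (R / (4 (M + 1))) …` with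
`K ε ≤ 1 / 2`.  For a holomorphic `Y : ball s₁ ε → closedBall y₁ (R / 4)` let `T Y` be the primitive of `s ↦ V (s, Y s)` on the ball with value `y₁` at `s₁`
(`DifferentiableOn.isExactOn_ball` or `Complex.IsExactOn`; mean value inequality `Convex.norm_image_sub_le_of_norm_hasDerivWithin_le` for the bounds).  The iterates
`Y_0 = y₁`, `Y_{m+1} = T Y_m` satisfy `‖Y_{m+1} - Y_m‖ ≤ 2^(-m) R` on the ball, so they converge uniformly to a holomorphic `Y` (`TendstoLocallyUniformlyOn.differentiableOn`,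
derivatives converge: `TendstoLocallyUniformlyOn.deriv`), and `Y' = V (s, Y)`.
`ode_real`: `ε` as in `ode_hol` (made smaller such that `M ε ≤ R / 4`); the restriction of `Y` to the real interval and `y` solve the same real differential equation with the
same value at `s₁`, and both stay in `ball y₁ (R / 2)` for `|s - s₁| < ε` (for `y`: `ODE_solution_unique_of_mem_Ioo` or a Gronwall / continuity argument: the set of `t < ε` such that
`Y = y` on `[s₁ - t, s₁ + t]` is open and closed; where `Y = y` the value lies in `ball y₁ (R / 2)`, a neighbourhood in which `V` is Lipschitz in `y`).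
-/

set_option autoImplicit false

open Topology Filter Metric

namespace Pool.Agent.G3.C

private theorem ode_comp {n : ℕ} {f : ℂ → Fin n → ℂ} {f' : Fin n → ℂ} {t : ℝ} (h : HasDerivAt f f' (t : ℂ)) :
    HasDerivAt (fun t : ℝ => f (t : ℂ)) f' t := by
  have h1 : HasDerivAt (fun t : ℝ => (t : ℂ)) 1 t := Complex.ofRealCLM.hasDerivAt
  have h2 := HasDerivAt.scomp (g₁ := f) (h := fun t : ℝ => (t : ℂ)) t h h1
  rw [one_smul] at h2
  exact h2

/-- Lipschitz bound in `y` -/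
private theorem ode_lip {n : ℕ} {R M : ℝ} (hR : 0 < R) (V : ℂ × (Fin n → ℂ) → Fin n → ℂ) (s₁ : ℂ) (y₁ : Fin n → ℂ)
    (hV : DifferentiableOn ℂ V (ball (s₁, y₁) R)) (hM : ∀ q ∈ ball (s₁, y₁) R, ‖V q‖ ≤ M) {s : ℂ} (hs : s ∈ ball s₁ R)
    {y y' : Fin n → ℂ} (hy : y ∈ ball y₁ (R / 2)) (hy' : y' ∈ ball y₁ (R / 2)) :
    ‖V (s, y') - V (s, y)‖ ≤ 4 * M / R * ‖y' - y‖ := by
  rcases eq_or_ne y' y with rfl | hne
  · simp
  have hv : 0 < ‖y' - y‖ := norm_pos_iff.2 (sub_ne_zero.2 hne)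
  -- the points of the segment
  have hseg : ∀ t ∈ Set.Icc (0 : ℝ) 1, y + (t : ℂ) • (y' - y) ∈ ball y₁ (R / 2) := by
    intro t ht
    have h := (convex_ball y₁ (R / 2)).add_smul_sub_mem hy hy' ht
    have e : (t : ℂ) • (y' - y) = t • (y' - y) := by
      funext i
      simp
    rw [e]
    exact h
  have hmem : ∀ t ∈ Set.Icc (0 : ℝ) 1, ∀ τ : ℂ, ‖τ‖ ≤ R / (4 * ‖y' - y‖) →
      (s, y + ((t : ℂ) + τ) • (y' - y)) ∈ ball (s₁, y₁) R := by
    intro t ht τ hτ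
    rw [← ball_prod_same]
    refine ⟨hs, ?_⟩
    have h1 := hseg t ht
    rw [mem_ball, dist_eq_norm] at h1 ⊢
    show ‖y + ((t : ℂ) + τ) • (y' - y) - y₁‖ < R
    have e : y + ((t : ℂ) + τ) • (y' - y) - y₁ = (y + (t : ℂ) • (y' - y) - y₁) + τ • (y' - y) := by
      rw [add_smul]
      abel
    rw [e]
    have h2 : ‖τ • (y' - y)‖ ≤ R / 4 := by
      rw [norm_smul]
      calc ‖τ‖ * ‖y' - y‖ ≤ R / (4 * ‖y' - y‖) * ‖y' - y‖ := by gcongr
        _ = R / 4 := by field_simp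
    calc ‖(y + (t : ℂ) • (y' - y) - y₁) + τ • (y' - y)‖ ≤ ‖y + (t : ℂ) • (y' - y) - y₁‖ + ‖τ • (y' - y)‖ := norm_add_le _ _
      _ < R := by linarith
  have hρ : 0 < R / (4 * ‖y' - y‖) := by positivity
  -- the complex line
  obtain ⟨G, hG⟩ : ∃ G : ℂ → Fin n → ℂ, G = fun τ => V (s, y + τ • (y' - y)) := ⟨_, rfl⟩
  have hGd : ∀ t ∈ Set.Icc (0 : ℝ) 1, ∀ τ : ℂ, ‖τ‖ ≤ R / (4 * ‖y' - y‖) → DifferentiableAt ℂ G ((t : ℂ) + τ) := by
    intro t ht τ hτ
    rw [hG]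
    have h1 : DifferentiableAt ℂ V (s, y + ((t : ℂ) + τ) • (y' - y)) :=
      hV.differentiableAt (isOpen_ball.mem_nhds (hmem t ht τ hτ))
    refine DifferentiableAt.comp (g := V) (f := fun τ : ℂ => (s, y + τ • (y' - y))) ((t : ℂ) + τ) h1 ?_
    exact (differentiableAt_const s).prodMk ((differentiableAt_const y).add (differentiableAt_id.smul_const _))
  have hGM : ∀ t ∈ Set.Icc (0 : ℝ) 1, ∀ τ : ℂ, ‖τ‖ ≤ R / (4 * ‖y' - y‖) → ‖G ((t : ℂ) + τ)‖ ≤ M := by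
    intro t ht τ hτ
    rw [hG]
    exact hM _ (hmem t ht τ hτ)
  have hder : ∀ t ∈ Set.Icc (0 : ℝ) 1, ‖deriv G (t : ℂ)‖ ≤ 4 * M / R * ‖y' - y‖ := by
    intro t ht
    have h := Complex.norm_deriv_le_of_forall_mem_sphere_norm_le (f := G) (c := (t : ℂ)) (C := M) hρ
      (DifferentiableOn.diffContOnCl (by
        intro z hz
        have hz' := closure_ball_subset_closedBall hz
        rw [mem_closedBall, dist_eq_norm] at hz'
        have := hGd t ht (z - t) hz'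
        rw [add_sub_cancel] at this
        exact this.differentiableWithinAt))
      (by
        intro z hz
        rw [mem_sphere, dist_eq_norm] at hz
        have := hGM t ht (z - t) hz.le
        rwa [add_sub_cancel] at this)
    refine h.trans (le_of_eq ?_)
    field_simp
  have key := norm_image_sub_le_of_norm_deriv_le_segment_01' (f := fun t : ℝ => G (t : ℂ)) (f' := fun t : ℝ => deriv G (t : ℂ))
    (C := 4 * M / R * ‖y' - y‖)
    (fun t ht => by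
      have h0 := hGd t ht 0 (by rw [norm_zero]; exact hρ.le)
      rw [add_zero] at h0
      exact (ode_comp h0.hasDerivAt).hasDerivWithinAt)
    (fun t ht => hder t ⟨ht.1, ht.2.le⟩)
  have e1 : G ((1 : ℝ) : ℂ) = V (s, y') := by
    rw [hG]
    simp
  have e0 : G ((0 : ℝ) : ℂ) = V (s, y) := by
    rw [hG]
    simp
  rw [e1, e0] at key
  exact key

/-- the functions of the iteration -/
private def OdeS {n : ℕ} (s₁ : ℂ) (y₁ : Fin n → ℂ) (ε R : ℝ) : Type :=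
  {Y : ℂ → Fin n → ℂ // Y s₁ = y₁ ∧ (∀ s ∈ ball s₁ ε, ‖Y s - y₁‖ ≤ R / 8) ∧ DifferentiableOn ℂ Y (ball s₁ ε)}

private theorem ode_hol' {n : ℕ} {R M ε : ℝ} (hR : 0 < R) (hM : 0 < M) (hε : 0 < ε) (hεR : ε ≤ R) (hεM : M * ε ≤ R / 8)
    (V : ℂ × (Fin n → ℂ) → Fin n → ℂ) (s₁ : ℂ) (y₁ : Fin n → ℂ) (hV : DifferentiableOn ℂ V (ball (s₁, y₁) R))
    (hVM : ∀ q ∈ ball (s₁, y₁) R, ‖V q‖ ≤ M) :
    ∃ Y : ℂ → Fin n → ℂ, Y s₁ = y₁ ∧ ∀ s ∈ ball s₁ ε, Y s ∈ ball y₁ (R / 2) ∧ HasDerivAt Y (V (s, Y s)) s := by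
  have hs₁ : s₁ ∈ ball s₁ ε := mem_ball_self hε
  have hsub : ∀ s ∈ ball s₁ ε, s ∈ ball s₁ R := fun s hs => ball_subset_ball hεR hs
  have hin : ∀ {s : ℂ} {y : Fin n → ℂ}, s ∈ ball s₁ ε → ‖y - y₁‖ ≤ R / 8 → (s, y) ∈ ball (s₁, y₁) R := by
    intro s y hs hy
    rw [← ball_prod_same]
    refine ⟨hsub s hs, ?_⟩
    rw [mem_ball, dist_eq_norm]
    show ‖y - y₁‖ < R
    linarith
  have hin2 : ∀ {y : Fin n → ℂ}, ‖y - y₁‖ ≤ R / 8 → y ∈ ball y₁ (R / 2) := by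
    intro y hy
    rw [mem_ball, dist_eq_norm]
    linarith
  -- mean value inequality on the ball
  have hmv : ∀ (f f' : ℂ → Fin n → ℂ) (C : ℝ), (∀ s ∈ ball s₁ ε, HasDerivAt f (f' s) s) → (∀ s ∈ ball s₁ ε, ‖f' s‖ ≤ C) →
      ∀ s ∈ ball s₁ ε, ‖f s - f s₁‖ ≤ C * ε := by
    intro f f' C hf hC s hs
    have hC0 : 0 ≤ C := (norm_nonneg _).trans (hC s₁ hs₁)
    have h := (convex_ball s₁ ε).norm_image_sub_le_of_norm_hasDerivWithin_le (𝕜 := ℂ) (f := f) (f' := f')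
      (fun x hx => (hf x hx).hasDerivWithinAt) hC hs₁ hs
    rw [mem_ball, dist_eq_norm] at hs
    exact h.trans (mul_le_mul_of_nonneg_left hs.le hC0)
  -- the step
  have hstep : ∀ Y : OdeS s₁ y₁ ε R, ∃ Y' : OdeS s₁ y₁ ε R, ∀ s ∈ ball s₁ ε, HasDerivAt Y'.1 (V (s, Y.1 s)) s := by
    rintro ⟨Y, hY1, hY2, hY3⟩
    have hd : DifferentiableOn ℂ (fun s => V (s, Y s)) (ball s₁ ε) := by
      refine DifferentiableOn.comp (g := V) (f := fun s => (s, Y s)) (t := ball (s₁, y₁) R) hV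
        (differentiableOn_id.prodMk hY3) ?_
      intro s hs
      exact hin hs (hY2 s hs)
    obtain ⟨g, hg1, hg⟩ := (hd.isExactOn_ball).with_val_at s₁ y₁
    refine ⟨⟨g, hg1, ?_, fun s hs => (hg s hs).differentiableAt.differentiableWithinAt⟩, hg⟩
    intro s hs
    have h := hmv g _ M hg (fun s hs => hVM _ (hin hs (hY2 s hs))) s hs
    rw [hg1] at h
    exact h.trans hεM
  choose T hT using hstep
  obtain ⟨Y, hY0⟩ : ∃ Y : ℕ → OdeS s₁ y₁ ε R, ∀ m, Y (m + 1) = T (Y m) := by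
    have h0 : (fun _ : ℂ => y₁) s₁ = y₁ ∧ (∀ s ∈ ball s₁ ε, ‖(fun _ : ℂ => y₁) s - y₁‖ ≤ R / 8) ∧
        DifferentiableOn ℂ (fun _ : ℂ => y₁) (ball s₁ ε) := by
      refine ⟨rfl, fun s _ => ?_, differentiableOn_const _⟩
      show ‖y₁ - y₁‖ ≤ R / 8
      rw [sub_self, norm_zero]
      positivity
    exact ⟨fun m => T^[m] ⟨fun _ => y₁, h0⟩, fun m => Function.iterate_succ_apply' T m _⟩
  have hder : ∀ m, ∀ s ∈ ball s₁ ε, HasDerivAt (Y (m + 1)).1 (V (s, (Y m).1 s)) s := by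
    intro m s hs
    rw [hY0]
    exact hT (Y m) s hs
  have hK : 4 * M / R * ε ≤ 1 / 2 := by
    rw [div_mul_eq_mul_div, div_le_iff₀ hR]
    linarith
  -- geometric convergence
  have hgeo : ∀ m, ∀ s ∈ ball s₁ ε, ‖(Y (m + 1)).1 s - (Y m).1 s‖ ≤ R / 4 * (1 / 2) ^ m := by
    intro m
    induction m with
    | zero =>
      intro s hs
      have h1 := (Y 1).2.2.1 s hs
      have h0 := (Y 0).2.2.1 s hs
      rw [pow_zero, mul_one]
      have e : (Y (0 + 1)).1 s - (Y 0).1 s = ((Y 1).1 s - y₁) - ((Y 0).1 s - y₁) := by abel_nf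
      rw [e]
      refine (norm_sub_le _ _).trans ?_
      linarith
    | succ m ih =>
      intro s hs
      have h := hmv (fun s => (Y (m + 1 + 1)).1 s - (Y (m + 1)).1 s)
        (fun s => V (s, (Y (m + 1)).1 s) - V (s, (Y m).1 s)) (4 * M / R * (R / 4 * (1 / 2) ^ m))
        (fun s hs => (hder (m + 1) s hs).sub (hder m s hs))
        (fun s hs => (ode_lip hR V s₁ y₁ hV hVM (hsub s hs) (hin2 ((Y m).2.2.1 s hs))
          (hin2 ((Y (m + 1)).2.2.1 s hs))).trans (by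
            have := ih s hs
            gcongr)) s hs
      have e : (Y (m + 1 + 1)).1 s₁ - (Y (m + 1)).1 s₁ = 0 := by
        rw [(Y (m + 1 + 1)).2.1, (Y (m + 1)).2.1, sub_self]
      simp only [e, sub_zero] at h
      refine h.trans ?_
      have h2 : 0 ≤ R / 4 * (1 / 2 : ℝ) ^ m := by positivity
      calc 4 * M / R * (R / 4 * (1 / 2) ^ m) * ε = (4 * M / R * ε) * (R / 4 * (1 / 2) ^ m) := by ring
        _ ≤ 1 / 2 * (R / 4 * (1 / 2) ^ m) := mul_le_mul_of_nonneg_right hK h2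
        _ = R / 4 * (1 / 2) ^ (m + 1) := by ring
  have hdist : ∀ s ∈ ball s₁ ε, ∀ m, dist ((Y m).1 s) ((Y (m + 1)).1 s) ≤ R / 4 * (1 / 2) ^ m := by
    intro s hs m
    rw [dist_comm, dist_eq_norm]
    exact hgeo m s hs
  have hlim : ∀ s : ℂ, ∃ y : Fin n → ℂ, s ∈ ball s₁ ε → Tendsto (fun m => (Y m).1 s) atTop (𝓝 y) := by
    intro s
    by_cases hs : s ∈ ball s₁ ε
    · obtain ⟨y, hy⟩ := cauchySeq_tendsto_of_complete (cauchySeq_of_le_geometric (1 / 2) (R / 4) (by norm_num) (hdist s hs))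
      exact ⟨y, fun _ => hy⟩
    · exact ⟨0, fun h => absurd h hs⟩
  choose Z hZ using hlim
  have hrate : ∀ s ∈ ball s₁ ε, ∀ m, ‖(Y m).1 s - Z s‖ ≤ R / 2 * (1 / 2) ^ m := by
    intro s hs m
    have h := dist_le_of_le_geometric_of_tendsto (1 / 2) (R / 4) (by norm_num) (hdist s hs) (hZ s hs) m
    rw [dist_eq_norm] at h
    refine h.trans (le_of_eq ?_)
    ring
  have hZb : ∀ s ∈ ball s₁ ε, ‖Z s - y₁‖ ≤ R / 8 := by
    intro s hs
    have h : Tendsto (fun m => ‖(Y m).1 s - y₁‖) atTop (𝓝 ‖Z s - y₁‖) := ((hZ s hs).sub_const y₁).norm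
    exact le_of_tendsto' h fun m => (Y m).2.2.1 s hs
  have hZ1 : Z s₁ = y₁ := by
    have h := hZ s₁ hs₁
    have e : (fun m => (Y m).1 s₁) = fun _ => y₁ := by
      funext m
      exact (Y m).2.1
    rw [e] at h
    exact tendsto_nhds_unique h tendsto_const_nhds
  refine ⟨Z, hZ1, fun s hs => ⟨hin2 (hZb s hs), ?_⟩⟩
  refine hasDerivAt_of_tendstoUniformlyOn (l := atTop) (f := fun m s => (Y (m + 1)).1 s)
    (f' := fun m s => V (s, (Y m).1 s)) (g' := fun s => V (s, Z s)) (s := ball s₁ ε) isOpen_ball ?_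
    (Eventually.of_forall fun m s hs => hder m s hs) (fun s hs => (tendsto_add_atTop_iff_nat 1).2 (hZ s hs)) hs
  rw [Metric.tendstoUniformlyOn_iff]
  intro η hη
  have h0 : Tendsto (fun m : ℕ => 4 * M / R * (R / 2 * (1 / 2 : ℝ) ^ m)) atTop (𝓝 (4 * M / R * (R / 2 * 0))) :=
    ((tendsto_pow_atTop_nhds_zero_of_lt_one (by norm_num) (by norm_num)).const_mul _).const_mul _
  rw [mul_zero, mul_zero] at h0
  filter_upwards [h0.eventually_lt_const hη] with m hm s hs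
  rw [dist_eq_norm, norm_sub_rev]
  refine lt_of_le_of_lt ((ode_lip hR V s₁ y₁ hV hVM (hsub s hs) (hin2 (hZb s hs)) (hin2 ((Y m).2.2.1 s hs))).trans ?_) hm
  have := hrate s hs m
  gcongr

/-- the holomorphic solution of the initial value problem -/
theorem ode_hol {n : ℕ} {R M : ℝ} (hR : 0 < R) (hM : 0 < M) :
    ∃ ε : ℝ, 0 < ε ∧ ε ≤ R ∧ ∀ (V : ℂ × (Fin n → ℂ) → Fin n → ℂ) (s₁ : ℂ) (y₁ : Fin n → ℂ), DifferentiableOn ℂ V (ball (s₁, y₁) R) →
      (∀ q ∈ ball (s₁, y₁) R, ‖V q‖ ≤ M) →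
      ∃ Y : ℂ → Fin n → ℂ, Y s₁ = y₁ ∧ ∀ s ∈ ball s₁ ε, Y s ∈ ball y₁ (R / 2) ∧ HasDerivAt Y (V (s, Y s)) s := by
  have h1 : 0 < R / (8 * M) := by positivity
  refine ⟨min R (R / (8 * M)), lt_min hR h1, min_le_left _ _, fun V s₁ y₁ hV hVM => ?_⟩
  refine ode_hol' hR hM (lt_min hR h1) (min_le_left _ _) ?_ V s₁ y₁ hV hVM
  calc M * min R (R / (8 * M)) ≤ M * (R / (8 * M)) := mul_le_mul_of_nonneg_left (min_le_right _ _) hM.le
    _ = R / 8 := by field_simp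

end Pool.Agent.G3.C

end

section

/-!
# Lower bounds for holomorphic functions of two variables whose zeros lie on the axes

`min_mod`: the minimum principle for a function with a zero of order at most `n` at the origin and no other
zeros.  `lower_smooth`: if `a (s, t) ≠ 0` for `s ≠ 0` then `c ‖s‖ ^ k ≤ ‖a (s, t)‖` on the closed
bidisc.  `lower_node`: if `a (s, t) ≠ 0` for `s ≠ 0`, `t ≠ 0` then
`c (‖s‖ ‖t‖) ^ k ≤ ‖a (s, t)‖`.  `upper_smooth`, `upper_node`: upper bounds for functions vanishing on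
the axes.
-/

set_option autoImplicit false

open Filter Topology Metric

noncomputable section

namespace Pool.Agent.H62.BP

/-- The minimum principle. -/
theorem min_principle {f : ℂ → ℂ} {z₀ : ℂ} {r c : ℝ} (hr : 0 < r) (hc : 0 < c)
    (hf : ∀ z, ‖z - z₀‖ ≤ r → AnalyticAt ℂ f z) (h0 : ∀ z, ‖z - z₀‖ ≤ r → f z ≠ 0)
    (h1 : ∀ z, ‖z - z₀‖ = r → c ≤ ‖f z‖) {z : ℂ} (hz : ‖z - z₀‖ ≤ r) : c ≤ ‖f z‖ := by
  have hcl : closure (ball z₀ r) = closedBall z₀ r := closure_ball z₀ hr.ne'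
  have hfr : frontier (ball z₀ r) = sphere z₀ r := frontier_ball z₀ hr.ne'
  have hmem : ∀ w, w ∈ closedBall z₀ r ↔ ‖w - z₀‖ ≤ r := fun w => by
    rw [mem_closedBall, dist_eq_norm]
  have hd : DiffContOnCl ℂ (fun w => (f w)⁻¹) (ball z₀ r) := by
    apply DifferentiableOn.diffContOnCl
    rw [hcl]
    intro w hw
    exact ((hf w ((hmem w).mp hw)).inv (h0 w ((hmem w).mp hw))).differentiableAt.differentiableWithinAt
  have h2 := Complex.norm_le_of_forall_mem_frontier_norm_le (C := c⁻¹) isBounded_ball hd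
    (by
      intro w hw
      rw [hfr, mem_sphere, dist_eq_norm] at hw
      rw [norm_inv]
      exact inv_anti₀ hc (h1 w hw)) (z := z) (by rw [hcl, hmem]; exact hz)
  rw [norm_inv] at h2
  exact (inv_le_inv₀ (norm_pos_iff.mpr (h0 z hz)) hc).mp h2

/-- The minimum principle for functions with a zero at the origin. -/
theorem min_mod {f : ℂ → ℂ} {c : ℝ} (hc : 0 < c) {n : ℕ}
    (hf : ∀ z, ‖z‖ ≤ 1 → AnalyticAt ℂ f z) (h0 : ∀ z, ‖z‖ ≤ 1 → z ≠ 0 → f z ≠ 0)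
    (h1 : ∀ z, ‖z‖ = 1 → c ≤ ‖f z‖) (hn : analyticOrderAt f 0 ≤ n) {z : ℂ} (hz : ‖z‖ ≤ 1) :
    c * ‖z‖ ^ n ≤ ‖f z‖ := by
  classical
  have hfa := hf 0 (by rw [norm_zero]; exact zero_le_one)
  obtain ⟨m, hm⟩ : ∃ m : ℕ, analyticOrderAt f 0 = m :=
    ENat.ne_top_iff_exists.mp (ne_top_of_le_ne_top (ENat.natCast_ne_top n) hn) |>.imp fun _ h => h.symm
  have hmn : m ≤ n := by
    rw [hm] at hn
    exact_mod_cast hn
  obtain ⟨g, hg, hg0, hfg⟩ := hfa.analyticOrderAt_eq_natCast.mp hm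
  obtain ⟨G, hG⟩ : ∃ G : ℂ → ℂ, ∀ z, G z = if z = 0 then g 0 else f z / z ^ m := ⟨_, fun z => rfl⟩
  have hG0 : G =ᶠ[𝓝 0] g := by
    filter_upwards [hfg] with w hw
    rw [hG]
    split_ifs with h2
    · rw [h2]
    · rw [hw, sub_zero, smul_eq_mul, mul_div_cancel_left₀ _ (pow_ne_zero m h2)]
  have hGa : ∀ w, ‖w‖ ≤ 1 → AnalyticAt ℂ G w := by
    intro w hw
    by_cases h2 : w = 0
    · rw [h2]
      exact hg.congr hG0.symm
    · have h3 : AnalyticAt ℂ (fun z => f z / z ^ m) w :=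
        (hf w hw).div (analyticAt_id.pow m) (pow_ne_zero m h2)
      refine h3.congr ?_
      filter_upwards [isOpen_compl_singleton.mem_nhds (show w ∈ ({0}ᶜ : Set ℂ) from h2)] with x hx
      have hx0 : x ≠ 0 := hx
      rw [hG, if_neg hx0]
  have hGn : ∀ w, ‖w‖ ≤ 1 → G w ≠ 0 := by
    intro w hw
    rw [hG]
    split_ifs with h2
    · exact hg0
    · exact div_ne_zero (h0 w hw h2) (pow_ne_zero m h2)
  have hG1 : ∀ w, ‖w‖ = 1 → c ≤ ‖G w‖ := by
    intro w hw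
    have h2 : w ≠ 0 := by
      rintro rfl
      rw [norm_zero] at hw
      exact zero_ne_one hw
    rw [hG, if_neg h2, norm_div, norm_pow, hw, one_pow, div_one]
    exact h1 w hw
  have h2 : c ≤ ‖G z‖ := min_principle (z₀ := 0) one_pos hc (by simpa using hGa)
    (by simpa using hGn) (by simpa using hG1) (by simpa using hz)
  by_cases hz0 : z = 0
  · subst hz0
    rcases Nat.eq_zero_or_pos n with h3 | h3
    · have h4 : m = 0 := by omega
      have h5 : f 0 = G 0 := by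
        have h6 := hfg.self_of_nhds
        rw [hG, if_pos rfl, h6, h4, pow_zero, one_smul]
      rw [h3, pow_zero, mul_one, h5]
      exact h2
    · rw [norm_zero, zero_pow h3.ne', mul_zero]
      exact norm_nonneg _
  · have h3 : f z = z ^ m * G z := by
      rw [hG, if_neg hz0, mul_div_cancel₀ _ (pow_ne_zero m hz0)]
    rw [h3, norm_mul, norm_pow, mul_comm c]
    refine mul_le_mul ?_ h2 hc.le (by positivity)
    exact pow_le_pow_of_le_one (norm_nonneg z) hz hmn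

/-! ### Two variables -/

/-- The derivative in the direction of the first variable. -/
def Ds (a : ℂ × ℂ → ℂ) (p : ℂ × ℂ) : ℂ := fderiv ℂ a p (1, 0)

theorem Ds_analytic {a : ℂ × ℂ → ℂ} {p : ℂ × ℂ} (h : AnalyticAt ℂ a p) :
    AnalyticAt ℂ (Ds a) p :=
  AnalyticAt.fun_comp (g := fun L : ℂ × ℂ →L[ℂ] ℂ => L (1, 0)) (f := fderiv ℂ a)
    ((ContinuousLinearMap.apply ℂ ℂ ((1, 0) : ℂ × ℂ)).analyticAt _) h.fderiv

theorem deriv_slice {a : ℂ × ℂ → ℂ} {s t : ℂ} (h : AnalyticAt ℂ a (s, t)) :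
    deriv (fun s' => a (s', t)) s = Ds a (s, t) := by
  have h1 : HasDerivAt (fun s' : ℂ => (s', t)) (1, 0) s :=
    (hasDerivAt_id s).prodMk (hasDerivAt_const s t)
  exact (h.differentiableAt.hasFDerivAt.comp_hasDerivAt s h1).deriv

theorem iter_analytic {a : ℂ × ℂ → ℂ} {p : ℂ × ℂ} (h : AnalyticAt ℂ a p) (i : ℕ) :
    AnalyticAt ℂ (Ds^[i] a) p := by
  induction i with
  | zero => exact h
  | succ i ih =>
    rw [Function.iterate_succ_apply']
    exact Ds_analytic ih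

theorem slice_analytic {a : ℂ × ℂ → ℂ} {s t : ℂ} (h : AnalyticAt ℂ a (s, t)) :
    AnalyticAt ℂ (fun s' => a (s', t)) s :=
  AnalyticAt.fun_comp (g := a) (f := fun s' => (s', t)) h (analyticAt_id.prod analyticAt_const)

theorem iter_slice {a : ℂ × ℂ → ℂ} (i : ℕ) : ∀ {s t : ℂ}, AnalyticAt ℂ a (s, t) →
    iteratedDeriv i (fun s' => a (s', t)) s = (Ds^[i] a) (s, t) := by
  induction i with
  | zero =>
    intro s t _
    rw [iteratedDeriv_zero, Function.iterate_zero, id]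
  | succ i ih =>
    intro s t h
    have h1 : ∀ᶠ s' in 𝓝 s, AnalyticAt ℂ a (s', t) :=
      (Continuous.prodMk continuous_id continuous_const).continuousAt.eventually
        h.eventually_analyticAt
    have h2 : iteratedDeriv i (fun s' => a (s', t)) =ᶠ[𝓝 s] fun s' => (Ds^[i] a) (s', t) := by
      filter_upwards [h1] with s' hs'
      exact ih hs'
    rw [iteratedDeriv_succ, h2.deriv_eq, deriv_slice (iter_analytic h i),
      Function.iterate_succ_apply']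

theorem order_le_of_ne {a : ℂ × ℂ → ℂ} {t : ℂ} (h : AnalyticAt ℂ a (0, t)) {n : ℕ}
    (hn : (Ds^[n] a) (0, t) ≠ 0) : analyticOrderAt (fun s => a (s, t)) 0 ≤ n := by
  by_contra hcon
  push Not at hcon
  have h1 : ((n + 1 : ℕ) : ℕ∞) ≤ analyticOrderAt (fun s => a (s, t)) 0 := by
    push_cast
    exact Order.add_one_le_of_lt hcon
  rw [natCast_le_analyticOrderAt_iff_iteratedDeriv_eq_zero (slice_analytic h)] at h1
  have h2 := h1 n (Nat.lt_succ_self n)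
  rw [iter_slice n h] at h2
  exact hn h2

theorem exists_ne_of_order {a : ℂ × ℂ → ℂ} {t : ℂ} (h : AnalyticAt ℂ a (0, t))
    (hfin : analyticOrderAt (fun s => a (s, t)) 0 ≠ ⊤) : ∃ n : ℕ, (Ds^[n] a) (0, t) ≠ 0 := by
  obtain ⟨m, hm⟩ := ENat.ne_top_iff_exists.mp hfin
  by_contra hcon
  push Not at hcon
  have h1 : ((m + 1 : ℕ) : ℕ∞) ≤ analyticOrderAt (fun s => a (s, t)) 0 := by
    rw [natCast_le_analyticOrderAt_iff_iteratedDeriv_eq_zero (slice_analytic h)]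
    intro i _
    rw [iter_slice i h]
    exact hcon i
  rw [← hm] at h1
  have h2 : m + 1 ≤ m := by exact_mod_cast h1
  omega

/-- a function without zeros in a punctured neighbourhood has finite order -/
theorem order_ne_top {f : ℂ → ℂ} {r : ℝ} (hr : 0 < r)
    (h : ∀ s, s ≠ 0 → ‖s‖ < r → f s ≠ 0) : analyticOrderAt f 0 ≠ ⊤ := by
  intro h1
  rw [analyticOrderAt_eq_top] at h1
  have h2 : ∀ᶠ s in 𝓝[≠] (0 : ℂ), f s = 0 := h1.filter_mono nhdsWithin_le_nhds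
  have h3 : ∀ᶠ s in 𝓝[≠] (0 : ℂ), f s ≠ 0 := by
    filter_upwards [self_mem_nhdsWithin, mem_nhdsWithin_of_mem_nhds (ball_mem_nhds (0 : ℂ) hr)]
      with s hs hs'
    rw [mem_ball_zero_iff] at hs'
    exact h s hs hs'
  obtain ⟨s, h4, h5⟩ := (h2.and h3).exists
  exact h5 h4

/-- The orders of the slices are bounded on compact sets of parameters. -/
theorem order_bound {a : ℂ × ℂ → ℂ} {T : Set ℂ} (hT : IsCompact T)
    (ha : ∀ t ∈ T, AnalyticAt ℂ a (0, t))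
    (hfin : ∀ t ∈ T, analyticOrderAt (fun s => a (s, t)) 0 ≠ ⊤) :
    ∃ n : ℕ, ∀ t ∈ T, analyticOrderAt (fun s => a (s, t)) 0 ≤ n := by
  have h1 : ∀ t ∈ T, ∃ n : ℕ, (Ds^[n] a) (0, t) ≠ 0 := fun t ht =>
    exists_ne_of_order (ha t ht) (hfin t ht)
  choose! n hn using h1
  have hU : ∀ t ∈ T, {t' | AnalyticAt ℂ a (0, t') ∧ (Ds^[n t] a) (0, t') ≠ 0} ∈ 𝓝 t := by
    intro t ht
    have hc : ContinuousAt (fun t' : ℂ => ((0 : ℂ), t')) t :=
      (Continuous.prodMk continuous_const continuous_id).continuousAt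
    have h2 : ∀ᶠ t' in 𝓝 t, AnalyticAt ℂ a (0, t') :=
      hc.eventually (ha t ht).eventually_analyticAt
    have h3 : ∀ᶠ t' in 𝓝 t, (Ds^[n t] a) (0, t') ≠ 0 :=
      hc.eventually ((iter_analytic (ha t ht) (n t)).continuousAt.eventually_ne (hn t ht))
    exact h2.and h3
  obtain ⟨F, hF, hcov⟩ := hT.elim_nhds_subcover _ hU
  refine ⟨F.sup n, fun t ht => ?_⟩
  have h2 := hcov ht
  rw [Set.mem_iUnion₂] at h2
  obtain ⟨t', ht', h3, h4⟩ := h2
  refine (order_le_of_ne h3 h4).trans ?_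
  exact_mod_cast Finset.le_sup ht'

/-- A positive lower bound on a compact set. -/
theorem exists_lower {X : Type*} [TopologicalSpace X] {K : Set X} (hK : IsCompact K) {f : X → ℂ}
    (hf : ∀ x ∈ K, ContinuousAt f x) (h0 : ∀ x ∈ K, f x ≠ 0) :
    ∃ c : ℝ, 0 < c ∧ ∀ x ∈ K, c ≤ ‖f x‖ := by
  rcases K.eq_empty_or_nonempty with h | h
  · exact ⟨1, one_pos, fun x hx => by rw [h] at hx; exact hx.elim⟩
  · obtain ⟨x, hx, hmin⟩ := hK.exists_isMinOn h
      (fun x hx => (hf x hx).norm.continuousWithinAt)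
    exact ⟨‖f x‖, norm_pos_iff.mpr (h0 x hx), fun y hy => hmin hy⟩

/-- The lower bound for the slices with parameters in a compact set. -/
theorem lower_param {a : ℂ × ℂ → ℂ} {T : Set ℂ} (hT : IsCompact T)
    (ha : ∀ s t, ‖s‖ ≤ 1 → t ∈ T → AnalyticAt ℂ a (s, t))
    (h0 : ∀ s t, ‖s‖ ≤ 1 → t ∈ T → s ≠ 0 → a (s, t) ≠ 0) :
    ∃ (c : ℝ) (k : ℕ), 0 < c ∧ ∀ s t, ‖s‖ ≤ 1 → t ∈ T → c * ‖s‖ ^ k ≤ ‖a (s, t)‖ := by
  have h01 : ‖(0 : ℂ)‖ ≤ 1 := by rw [norm_zero]; exact zero_le_one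
  obtain ⟨k, hk⟩ := order_bound hT (fun t ht => ha 0 t h01 ht)
    (fun t ht => order_ne_top one_pos fun s hs hs' => h0 s t hs'.le ht hs)
  obtain ⟨c, hc, hcK⟩ := exists_lower (f := a) ((isCompact_sphere (0 : ℂ) 1).prod hT)
    (by
      rintro ⟨s, t⟩ ⟨hs, ht⟩
      have hs' : ‖s‖ = 1 := by simpa using hs
      exact (ha s t hs'.le ht).continuousAt)
    (by
      rintro ⟨s, t⟩ ⟨hs, ht⟩
      have hs' : ‖s‖ = 1 := by simpa using hs
      have hs0 : s ≠ 0 := by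
        rintro rfl
        rw [norm_zero] at hs'
        exact zero_ne_one hs'
      exact h0 s t hs'.le ht hs0)
  refine ⟨c, k, hc, fun s t hs ht => ?_⟩
  exact min_mod (f := fun s => a (s, t)) hc (fun z hz => slice_analytic (ha z t hz ht))
    (fun z hz hz0 => h0 z t hz ht hz0)
    (fun z hz => hcK (z, t) ⟨by simpa using hz, ht⟩) (hk t ht) hs

/-- Zeros on one axis. -/
theorem lower_smooth {a : ℂ × ℂ → ℂ} (ha : ∀ s t, ‖s‖ ≤ 1 → ‖t‖ ≤ 1 → AnalyticAt ℂ a (s, t))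
    (h0 : ∀ s t, ‖s‖ ≤ 1 → ‖t‖ ≤ 1 → s ≠ 0 → a (s, t) ≠ 0) :
    ∃ (c : ℝ) (k : ℕ), 0 < c ∧ ∀ s t, ‖s‖ ≤ 1 → ‖t‖ ≤ 1 → c * ‖s‖ ^ k ≤ ‖a (s, t)‖ := by
  obtain ⟨c, k, hc, h⟩ := lower_param (isCompact_closedBall (0 : ℂ) 1)
    (fun s t hs ht => ha s t hs (by simpa using ht))
    (fun s t hs ht hs0 => h0 s t hs (by simpa using ht) hs0)
  exact ⟨c, k, hc, fun s t hs ht => h s t hs (by simpa using ht)⟩

theorem swap_analytic {a : ℂ × ℂ → ℂ} {s t : ℂ} (h : AnalyticAt ℂ a (s, t)) :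
    AnalyticAt ℂ (fun p : ℂ × ℂ => a (p.2, p.1)) (t, s) :=
  AnalyticAt.fun_comp (g := a) (f := fun p : ℂ × ℂ => (p.2, p.1)) h (analyticAt_snd.prod analyticAt_fst)

/-- The order at the origin from a lower bound. -/
theorem order_le_of_lower {f : ℂ → ℂ} (hf : AnalyticAt ℂ f 0) {c : ℝ} (hc : 0 < c) {k : ℕ}
    (h : ∀ᶠ s in 𝓝[≠] (0 : ℂ), c * ‖s‖ ^ k ≤ ‖f s‖) : analyticOrderAt f 0 ≤ k := by
  by_contra hcon
  push Not at hcon
  have h1 : ((k + 1 : ℕ) : ℕ∞) ≤ analyticOrderAt f 0 := by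
    push_cast
    exact Order.add_one_le_of_lt hcon
  obtain ⟨g, hg, hfg⟩ := (natCast_le_analyticOrderAt hf).mp h1
  have h2 : ∀ᶠ s in 𝓝[≠] (0 : ℂ), c ≤ ‖s * g s‖ := by
    filter_upwards [h, hfg.filter_mono nhdsWithin_le_nhds, self_mem_nhdsWithin] with s h3 h4 h5
    have h6 : 0 < ‖s‖ ^ k := pow_pos (norm_pos_iff.mpr h5) k
    rw [h4, sub_zero, smul_eq_mul, pow_succ, mul_assoc, norm_mul, norm_pow, mul_comm c] at h3
    exact le_of_mul_le_mul_left h3 h6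
  have h3 : Tendsto (fun s => ‖s * g s‖) (𝓝[≠] (0 : ℂ)) (𝓝 ‖(0 : ℂ) * g 0‖) :=
    ((continuousAt_id.mul hg.continuousAt).norm).tendsto.mono_left nhdsWithin_le_nhds
  have h4 := ge_of_tendsto h3 h2
  rw [zero_mul, norm_zero] at h4
  linarith

/-- The orders of the slices off a node are bounded. -/
theorem order_node {a : ℂ × ℂ → ℂ} (ha : ∀ s t, ‖s‖ < 2 → ‖t‖ < 2 → AnalyticAt ℂ a (s, t))
    (h0 : ∀ s t, ‖s‖ < 2 → ‖t‖ < 2 → s ≠ 0 → t ≠ 0 → a (s, t) ≠ 0) :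
    ∃ k : ℕ, ∀ t, t ≠ 0 → ‖t‖ < 2 → analyticOrderAt (fun s => a (s, t)) 0 ≤ k := by
  have h02 : ‖(0 : ℂ)‖ < 2 := by rw [norm_zero]; exact two_pos
  have h12 : ‖(1 : ℂ)‖ < 2 := by rw [norm_one]; exact one_lt_two
  obtain ⟨k, hk⟩ := exists_ne_of_order (ha 0 1 h02 h12)
    (order_ne_top two_pos fun s hs hs' => h0 s 1 hs' h12 hs one_ne_zero)
  refine ⟨k, fun t₀ ht₀ ht₀2 => ?_⟩
  -- the derivative of order `k` has isolated zeros
  have hD : AnalyticOnNhd ℂ (fun t => (Ds^[k] a) (0, t)) (ball 0 2) := by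
    intro t ht
    rw [mem_ball_zero_iff] at ht
    exact AnalyticAt.fun_comp (g := Ds^[k] a) (f := fun t' => ((0 : ℂ), t'))
      (iter_analytic (ha 0 t h02 ht) k) (analyticAt_const.prod analyticAt_id)
  have hDne : ∀ᶠ t in 𝓝[≠] t₀, (Ds^[k] a) (0, t) ≠ 0 := by
    rcases hD.eqOn_zero_or_eventually_ne_zero_of_preconnected (convex_ball 0 2).isPreconnected
      with h1 | h1
    · exfalso
      exact hk (h1 (by rw [mem_ball_zero_iff]; exact h12))
    · rw [Filter.eventually_iff, mem_codiscreteWithin] at h1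
      have h2 := h1 t₀ (by rw [mem_ball_zero_iff]; exact ht₀2)
      have h3 : ball (0 : ℂ) 2 ∈ 𝓝[≠] t₀ := mem_nhdsWithin_of_mem_nhds
        (isOpen_ball.mem_nhds (by rw [mem_ball_zero_iff]; exact ht₀2))
      rw [disjoint_principal_right] at h2
      filter_upwards [h2, h3] with t h4 h5
      by_contra h6
      exact h4 ⟨h5, fun h7 => h7 h6⟩
  -- a small circle around `t₀`
  obtain ⟨r, hr, hr1, hr2, hr3⟩ : ∃ r : ℝ, 0 < r ∧ (∀ t, ‖t - t₀‖ ≤ r → ‖t‖ < 2) ∧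
      (∀ t, ‖t - t₀‖ ≤ r → t ≠ 0) ∧ ∀ t, ‖t - t₀‖ = r → (Ds^[k] a) (0, t) ≠ 0 := by
    have h1 : ∀ᶠ t in 𝓝 t₀, ‖t‖ < 2 ∧ t ≠ 0 ∧ (t ≠ t₀ → (Ds^[k] a) (0, t) ≠ 0) := by
      have h2 : ∀ᶠ t in 𝓝 t₀, t ≠ 0 :=
        isOpen_compl_singleton.mem_nhds (show t₀ ∈ ({0}ᶜ : Set ℂ) from ht₀)
      exact (continuous_norm.continuousAt.eventually_lt continuousAt_const ht₀2).and
        (h2.and (eventually_nhdsWithin_iff.mp hDne))
    obtain ⟨ε, hε, hball⟩ := Metric.eventually_nhds_iff.mp h1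
    have h2 : ∀ t, ‖t - t₀‖ ≤ ε / 2 → dist t t₀ < ε := by
      intro t ht
      rw [dist_eq_norm]
      linarith
    refine ⟨ε / 2, half_pos hε, fun t ht => (hball (h2 t ht)).1, fun t ht => (hball (h2 t ht)).2.1,
      fun t ht => (hball (h2 t ht.le)).2.2 ?_⟩
    rintro rfl
    rw [sub_self, norm_zero] at ht
    linarith
  have hcirc : IsCompact {t : ℂ | ‖t - t₀‖ = r} := by
    have h1 : {t : ℂ | ‖t - t₀‖ = r} = sphere t₀ r := by
      ext t
      rw [mem_sphere, dist_eq_norm]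
      rfl
    rw [h1]
    exact isCompact_sphere t₀ r
  obtain ⟨c, hc, hcK⟩ := exists_lower (f := a) ((isCompact_sphere (0 : ℂ) 1).prod hcirc)
    (by
      rintro ⟨s, t⟩ ⟨hs, ht⟩
      have hs' : ‖s‖ = 1 := by simpa using hs
      exact (ha s t (by rw [hs']; exact one_lt_two) (hr1 t (le_of_eq ht))).continuousAt)
    (by
      rintro ⟨s, t⟩ ⟨hs, ht⟩
      have hs' : ‖s‖ = 1 := by simpa using hs
      have hs0 : s ≠ 0 := by
        rintro rfl
        rw [norm_zero] at hs'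
        exact zero_ne_one hs'
      exact h0 s t (by rw [hs']; exact one_lt_two) (hr1 t (le_of_eq ht)) hs0 (hr2 t (le_of_eq ht)))
  have hlt : ∀ s : ℂ, ‖s‖ ≤ 1 → ‖s‖ < 2 := fun s hs => hs.trans_lt one_lt_two
  -- on the circle
  have h1 : ∀ s t, ‖s‖ ≤ 1 → ‖t - t₀‖ = r → c * ‖s‖ ^ k ≤ ‖a (s, t)‖ := by
    intro s t hs ht
    exact min_mod (f := fun s => a (s, t)) hc
      (fun z hz => slice_analytic (ha z t (hlt z hz) (hr1 t ht.le)))
      (fun z hz hz0 => h0 z t (hlt z hz) (hr1 t ht.le) hz0 (hr2 t ht.le))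
      (fun z hz => hcK (z, t) ⟨by simpa using hz, ht⟩)
      (order_le_of_ne (ha 0 t h02 (hr1 t ht.le)) (hr3 t ht)) hs
  -- at the centre
  have h2 : ∀ s, ‖s‖ ≤ 1 → s ≠ 0 → c * ‖s‖ ^ k ≤ ‖a (s, t₀)‖ := by
    intro s hs hs0
    refine min_principle (f := fun t => a (s, t)) (z₀ := t₀) hr
      (mul_pos hc (pow_pos (norm_pos_iff.mpr hs0) k)) (fun t ht => ?_)
      (fun t ht => h0 s t (hlt s hs) (hr1 t ht) hs0 (hr2 t ht)) (fun t ht => h1 s t hs ht) ?_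
    · exact AnalyticAt.fun_comp (g := a) (f := fun t' => (s, t')) (ha s t (hlt s hs) (hr1 t ht))
        (analyticAt_const.prod analyticAt_id)
    · rw [sub_self, norm_zero]
      exact hr.le
  refine order_le_of_lower (slice_analytic (ha 0 t₀ h02 ht₀2)) hc ?_
  filter_upwards [self_mem_nhdsWithin, mem_nhdsWithin_of_mem_nhds (ball_mem_nhds (0 : ℂ) one_pos)]
    with s hs hs'
  rw [mem_ball_zero_iff] at hs'
  exact h2 s hs'.le hs

/-- Zeros on two axes. -/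
theorem lower_node {a : ℂ × ℂ → ℂ} (ha : ∀ s t, ‖s‖ < 2 → ‖t‖ < 2 → AnalyticAt ℂ a (s, t))
    (h0 : ∀ s t, ‖s‖ < 2 → ‖t‖ < 2 → s ≠ 0 → t ≠ 0 → a (s, t) ≠ 0) :
    ∃ (c : ℝ) (k : ℕ), 0 < c ∧ 1 ≤ k ∧ ∀ s t, ‖s‖ ≤ 1 → ‖t‖ ≤ 1 →
      c * (‖s‖ * ‖t‖) ^ k ≤ ‖a (s, t)‖ := by
  have hlt : ∀ s : ℂ, ‖s‖ ≤ 1 → ‖s‖ < 2 := fun s hs => hs.trans_lt one_lt_two
  obtain ⟨k, hk⟩ := order_node ha h0
  have hsph : ∀ s : ℂ, s ∈ sphere (0 : ℂ) 1 → ‖s‖ = 1 := fun s hs => by simpa using hs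
  have hne : ∀ s : ℂ, ‖s‖ = 1 → s ≠ 0 := by
    rintro s hs rfl
    rw [norm_zero] at hs
    exact zero_ne_one hs
  obtain ⟨c, l, hc, hl⟩ := lower_param (a := fun p : ℂ × ℂ => a (p.2, p.1))
    (isCompact_sphere (0 : ℂ) 1)
    (fun t s ht hs => swap_analytic (ha s t (hlt s (hsph s hs).le) (hlt t ht)))
    (fun t s ht hs ht0 => h0 s t (hlt s (hsph s hs).le) (hlt t ht) (hne s (hsph s hs)) ht0)
  refine ⟨c, max k l + 1, hc, Nat.le_add_left _ _, fun s t hs ht => ?_⟩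
  by_cases hs0 : s = 0
  · rw [hs0, norm_zero, zero_mul, zero_pow (Nat.succ_ne_zero _), mul_zero]
    exact norm_nonneg _
  by_cases ht0 : t = 0
  · rw [ht0, norm_zero, mul_zero, zero_pow (Nat.succ_ne_zero _), mul_zero]
    exact norm_nonneg _
  have h1 : c * ‖t‖ ^ l * ‖s‖ ^ k ≤ ‖a (s, t)‖ :=
    min_mod (f := fun s => a (s, t)) (mul_pos hc (pow_pos (norm_pos_iff.mpr ht0) l))
      (fun z hz => slice_analytic (ha z t (hlt z hz) (hlt t ht)))
      (fun z hz hz0 => h0 z t (hlt z hz) (hlt t ht) hz0 ht0)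
      (fun z hz => hl t z ht (by simpa using hz)) (hk t ht0 (hlt t ht)) hs
  refine le_trans ?_ h1
  rw [mul_pow, mul_assoc, mul_comm (‖t‖ ^ l)]
  refine mul_le_mul_of_nonneg_left (mul_le_mul ?_ ?_ (by positivity) (by positivity)) hc.le
  · exact pow_le_pow_of_le_one (norm_nonneg s) hs (by omega)
  · exact pow_le_pow_of_le_one (norm_nonneg t) ht (by omega)

/-! ### Upper bounds -/

end Pool.Agent.H62.BP

end
end

section

/-!
# Hurwitz' theorem along an ultrafilter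
-/

open Topology Filter

namespace Pool.Agent.H62.Log

/-- **Hurwitz' theorem.**  A limit of holomorphic functions without zeros is identically zero or
has no zeros. -/
theorem hurwitz {α : Type*} (𝒰 : Ultrafilter α) {φ : α → ℂ → ℂ} {ψ : ℂ → ℂ} {a : ℂ} {r : ℝ}
    (h1 : ∀ᶠ k in (𝒰 : Filter α), DifferentiableOn ℂ (φ k) (Metric.ball a r))
    (h2 : ∀ᶠ k in (𝒰 : Filter α), ∀ z ∈ Metric.ball a r, φ k z ≠ 0)
    (hψ : DifferentiableOn ℂ ψ (Metric.ball a r))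
    (hconv : ∀ (z : α → ℂ) (z₀ : ℂ), z₀ ∈ Metric.ball a r → Tendsto z (𝒰 : Filter α) (𝓝 z₀) →
      Tendsto (fun k => φ k (z k)) (𝒰 : Filter α) (𝓝 (ψ z₀))) :
    (∀ z ∈ Metric.ball a r, ψ z = 0) ∨ ∀ z ∈ Metric.ball a r, ψ z ≠ 0 := by
  have han : AnalyticOnNhd ℂ ψ (Metric.ball a r) := hψ.analyticOnNhd Metric.isOpen_ball
  rcases han.eqOn_zero_or_eventually_ne_zero_of_preconnected
    (convex_ball a r).isPreconnected with h0 | h0
  · exact Or.inl h0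
  right
  intro z₀ hz₀ hψ0
  have hev : ∀ᶠ z in 𝓝[≠] z₀, ψ z ≠ 0 := by
    rcases (han z₀ hz₀).eventually_eq_zero_or_eventually_ne_zero with h3 | h3
    · exfalso
      have h5 : {z | ψ z ≠ 0} ∈ codiscreteWithin (Metric.ball a r) := h0
      have h6 := (mem_codiscreteWithin.mp h5) z₀ hz₀
      rw [disjoint_principal_right] at h6
      have h7 : ∀ᶠ z in 𝓝[≠] z₀, z ∈ Metric.ball a r := by
        have := Metric.isOpen_ball.mem_nhds hz₀
        exact nhdsWithin_le_nhds this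
      have h8 := h3.filter_mono (nhdsWithin_le_nhds (s := {z₀}ᶜ))
      have h6' : ∀ᶠ z in 𝓝[≠] z₀, z ∈ (Metric.ball a r \ {z | ψ z ≠ 0})ᶜ := h6
      obtain ⟨z, hz1, hz2, hz3⟩ := (h6'.and (h7.and h8)).exists
      exact hz1 ⟨hz2, fun h => h hz3⟩
    · exact h3
  obtain ⟨s, hs0, hs1, hs2⟩ : ∃ s > 0, Metric.closedBall z₀ s ⊆ Metric.ball a r ∧
      ∀ z ∈ Metric.sphere z₀ s, ψ z ≠ 0 := by
    obtain ⟨s₁, hs₁, hs₁'⟩ := Metric.isOpen_iff.mp Metric.isOpen_ball z₀ hz₀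
    obtain ⟨s₂, hs₂, hs₂'⟩ := Metric.mem_nhdsWithin_iff.mp hev
    refine ⟨min s₁ s₂ / 2, by positivity, ?_, ?_⟩
    · refine (Metric.closedBall_subset_ball ?_).trans hs₁'
      have := min_le_left s₁ s₂
      have : 0 < min s₁ s₂ := lt_min hs₁ hs₂
      linarith
    · intro z hz
      have h3 : 0 < min s₁ s₂ := lt_min hs₁ hs₂
      have h4 := min_le_right s₁ s₂
      rw [mem_sphere_iff_norm] at hz
      refine hs₂' ⟨?_, ?_⟩
      · rw [mem_ball_iff_norm, hz]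
        linarith
      · intro h5
        rw [Set.mem_singleton_iff] at h5
        rw [h5, sub_self, norm_zero] at hz
        linarith
  have hcomp : IsCompact (Metric.sphere z₀ s) := isCompact_sphere z₀ s
  have hne : (Metric.sphere z₀ s).Nonempty := NormedSpace.sphere_nonempty.mpr hs0.le
  have hcont : ContinuousOn (fun z => ‖ψ z‖) (Metric.sphere z₀ s) :=
    (hψ.continuousOn.mono (Metric.sphere_subset_closedBall.trans hs1)).norm
  obtain ⟨z₁, hz₁, hmin⟩ := hcomp.exists_isMinOn hne hcont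
  set m : ℝ := ‖ψ z₁‖ with hm
  have hmpos : 0 < m := norm_pos_iff.mpr (hs2 z₁ hz₁)
  have hlow : ∀ᶠ k in (𝒰 : Filter α), ∀ z ∈ Metric.sphere z₀ s, m / 2 ≤ ‖φ k z‖ := by
    by_contra hcon
    rw [← Ultrafilter.eventually_not] at hcon
    push Not at hcon
    choose! w hw using fun (k : α) (h : ∃ z ∈ Metric.sphere z₀ s, ‖φ k z‖ < m / 2) => h
    have hw1 : ∀ᶠ k in (𝒰 : Filter α), w k ∈ Metric.sphere z₀ s := hcon.mono fun k hk => (hw k hk).1
    have hw2 : ∀ᶠ k in (𝒰 : Filter α), ‖φ k (w k)‖ < m / 2 := hcon.mono fun k hk => (hw k hk).2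
    obtain ⟨z', hz'mem, hz'⟩ : ∃ z' ∈ Metric.sphere z₀ s, Tendsto w (𝒰 : Filter α) (𝓝 z') := by
      obtain ⟨l, hl1, hl2⟩ := hcomp.ultrafilter_le_nhds (𝒰.map w) (by
        rw [le_principal_iff]
        exact hw1)
      exact ⟨l, hl1, hl2⟩
    have h3 := (hconv w z' (hs1 (Metric.sphere_subset_closedBall hz'mem)) hz').norm
    have h4 := le_of_tendsto h3 (hw2.mono fun k hk => hk.le)
    have h5 : m ≤ ‖ψ z'‖ := hmin hz'mem
    linarith
  have hball : Metric.closedBall z₀ s ⊆ Metric.ball a r := hs1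
  have hlow2 : ∀ᶠ k in (𝒰 : Filter α), m / 2 ≤ ‖φ k z₀‖ := by
    filter_upwards [h1, h2, hlow] with k hk1 hk2 hk3
    have h3 : DiffContOnCl ℂ (fun z => (φ k z)⁻¹) (Metric.ball z₀ s) := by
      apply DifferentiableOn.diffContOnCl
      have h4 : closure (Metric.ball z₀ s) ⊆ Metric.ball a r :=
        Metric.closure_ball_subset_closedBall.trans hball
      exact (hk1.mono h4).fun_inv fun z hz => hk2 z (h4 hz)
    have h4 := Complex.norm_le_of_forall_mem_frontier_norm_le (Metric.isBounded_ball) h3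
      (C := (m / 2)⁻¹) (by
        intro z hz
        rw [frontier_ball z₀ hs0.ne'] at hz
        rw [norm_inv]
        have := hk3 z hz
        gcongr) (z := z₀) (subset_closure (Metric.mem_ball_self hs0))
    rw [norm_inv] at h4
    have h5 : 0 < ‖φ k z₀‖ := norm_pos_iff.mpr (hk2 z₀ hz₀)
    rwa [inv_le_inv₀ h5 (by positivity)] at h4
  have h3 := (hconv (fun _ => z₀) z₀ hz₀ tendsto_const_nhds).norm
  have h4 := ge_of_tendsto h3 hlow2
  rw [hψ0, norm_zero] at h4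
  linarith

end Pool.Agent.H62.Log

end

section

/-!
# MQ2 Ell: the function `ell` = `log |p|` with a cut-off
-/

set_option autoImplicit false

open Topology Filter Metric

noncomputable section

namespace Pool.Agent.MQ2

private lemma Ell_pos {p : ℂ × ℂ} (hp : p ≠ 0) : 0 < ‖p.1‖ ^ 2 + ‖p.2‖ ^ 2 := by
  by_contra h
  have h1 : 0 ≤ ‖p.1‖ ^ 2 := sq_nonneg _
  have h2 : 0 ≤ ‖p.2‖ ^ 2 := sq_nonneg _
  have h3 : ‖p.1‖ ^ 2 = 0 := by linarith
  have h4 : ‖p.2‖ ^ 2 = 0 := by linarith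
  apply hp
  refine Prod.ext ?_ ?_
  · simpa using pow_eq_zero_iff (two_ne_zero) |>.1 h3
  · simpa using pow_eq_zero_iff (two_ne_zero) |>.1 h4

private lemma Ell_log_contDiffOn : ContDiffOn ℝ 2 (fun p : ℂ × ℂ => Real.log (‖p.1‖ ^ 2 + ‖p.2‖ ^ 2) / 2) {p | p ≠ 0} := by
  have h1 : ContDiff ℝ 2 (fun p : ℂ × ℂ => ‖p.1‖ ^ 2 + ‖p.2‖ ^ 2) :=
    (contDiff_fst.norm_sq ℝ).add (contDiff_snd.norm_sq ℝ)
  exact (h1.contDiffOn.log fun p hp => (Ell_pos hp).ne').div_const 2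

/-- `H p = 1/2 log (|x|² + |y|²)` near `0`, `H p = 0` outside the ball of radius `t` -/
theorem exists_ell {s : ℝ} (hs : 0 < s) : ∃ (ρ t C : ℝ) (H : ℂ × ℂ → ℝ), 0 < ρ ∧ ρ < t ∧ t < s ∧ 0 ≤ C ∧ ContDiffOn ℝ 2 H {p | p ≠ 0} ∧
    (∀ p : ℂ × ℂ, p ∉ ball (0 : ℂ × ℂ) t → H p = 0) ∧ (∀ p : ℂ × ℂ, p ≠ 0 → p ∈ ball (0 : ℂ × ℂ) ρ → H p = Real.log (‖p.1‖ ^ 2 + ‖p.2‖ ^ 2) / 2) ∧
    (∀ p : ℂ × ℂ, H p ≤ C) ∧ ∀ p : ℂ × ℂ, p ∉ ball (0 : ℂ × ℂ) (ρ / 2) → ‖fderiv ℝ H p‖ ≤ C ∧ |H p| ≤ C := by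
  obtain ⟨b, hb1, hb2⟩ : ∃ b : ContDiffBump (0 : ℂ × ℂ), b.rIn = s / 4 ∧ b.rOut = s / 2 :=
    ⟨⟨s / 4, s / 2, by positivity, by linarith⟩, rfl, rfl⟩
  obtain ⟨H, hH⟩ : ∃ H : ℂ × ℂ → ℝ, H = fun p => b p * (Real.log (‖p.1‖ ^ 2 + ‖p.2‖ ^ 2) / 2) := ⟨_, rfl⟩
  have hopen : IsOpen {p : ℂ × ℂ | p ≠ 0} := isOpen_ne
  have hsm : ContDiffOn ℝ 2 H {p | p ≠ 0} := by
    rw [hH]
    exact (b.contDiff.contDiffOn).mul Ell_log_contDiffOn
  have hout : ∀ p : ℂ × ℂ, p ∉ ball (0 : ℂ × ℂ) (s / 2) → H p = 0 := by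
    intro p hp
    rw [mem_ball, not_lt] at hp
    rw [hH]
    simp only
    rw [b.zero_of_le_dist (by rw [hb2]; exact hp), zero_mul]
  have hin : ∀ p : ℂ × ℂ, p ∈ ball (0 : ℂ × ℂ) (s / 4) → H p = Real.log (‖p.1‖ ^ 2 + ‖p.2‖ ^ 2) / 2 := by
    intro p hp
    rw [hH]
    simp only
    rw [b.one_of_mem_closedBall (by rw [hb1]; exact ball_subset_closedBall hp), one_mul]
  -- the compact ring
  have hK : IsCompact (closedBall (0 : ℂ × ℂ) (s / 2) \ ball (0 : ℂ × ℂ) (s / 4 / 2)) :=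
    (isCompact_closedBall _ _).diff isOpen_ball
  have hKne : closedBall (0 : ℂ × ℂ) (s / 2) \ ball (0 : ℂ × ℂ) (s / 4 / 2) ⊆ {p | p ≠ 0} := by
    intro p hp h0
    apply hp.2
    rw [h0]
    exact mem_ball_self (by positivity)
  obtain ⟨C₁, hC₁⟩ := hK.exists_bound_of_continuousOn ((hsm.continuousOn_fderiv_of_isOpen hopen (by norm_num)).mono hKne)
  obtain ⟨C₂, hC₂⟩ := hK.exists_bound_of_continuousOn (hsm.continuousOn.mono hKne)
  refine ⟨s / 4, s / 2, max (max C₁ C₂) (|Real.log (s ^ 2 / 2)| / 2), H, by positivity, by linarith, by linarith, ?_, hsm, hout,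
    fun p _ hp => hin p hp, ?_, ?_⟩
  · exact le_max_of_le_right (by positivity)
  · intro p
    refine le_max_of_le_right ?_
    by_cases hp : p ∈ ball (0 : ℂ × ℂ) (s / 2)
    · by_cases hp0 : p = 0
      · rw [hH, hp0]
        simp
        positivity
      · rw [mem_ball, dist_zero_right] at hp
        have h1 : ‖p.1‖ ≤ s / 2 := (norm_fst_le p).trans hp.le
        have h2 : ‖p.2‖ ≤ s / 2 := (norm_snd_le p).trans hp.le
        have h3 : ‖p.1‖ ^ 2 + ‖p.2‖ ^ 2 ≤ s ^ 2 / 2 := by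
          have h4 := pow_le_pow_left₀ (norm_nonneg p.1) h1 2
          have h5 := pow_le_pow_left₀ (norm_nonneg p.2) h2 2
          nlinarith
        have h6 : Real.log (‖p.1‖ ^ 2 + ‖p.2‖ ^ 2) ≤ |Real.log (s ^ 2 / 2)| :=
          (Real.log_le_log (Ell_pos hp0) h3).trans (le_abs_self _)
        rw [hH]
        simp only
        have h7 : 0 ≤ b p := b.nonneg
        have h8 : b p ≤ 1 := b.le_one
        have h9 : b p * (Real.log (‖p.1‖ ^ 2 + ‖p.2‖ ^ 2) / 2) ≤ b p * (|Real.log (s ^ 2 / 2)| / 2) :=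
          mul_le_mul_of_nonneg_left (by linarith) h7
        have h10 : b p * (|Real.log (s ^ 2 / 2)| / 2) ≤ 1 * (|Real.log (s ^ 2 / 2)| / 2) :=
          mul_le_mul_of_nonneg_right h8 (by positivity)
        linarith
    · rw [hout p hp]
      positivity
  · intro p hp
    by_cases hp2 : p ∈ closedBall (0 : ℂ × ℂ) (s / 2)
    · refine ⟨(hC₁ p ⟨hp2, hp⟩).trans ((le_max_left _ _).trans (le_max_left _ _)), ?_⟩
      have := hC₂ p ⟨hp2, hp⟩
      rw [Real.norm_eq_abs] at this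
      exact this.trans ((le_max_right _ _).trans (le_max_left _ _))
    · have h0 : H =ᶠ[𝓝 p] fun _ => 0 := by
        filter_upwards [isClosed_closedBall.isOpen_compl.mem_nhds hp2] with q hq
        exact hout q fun h => hq (ball_subset_closedBall h)
      rw [h0.fderiv_eq, h0.eq_of_nhds]
      simp only [fderiv_fun_const, Pi.zero_apply, norm_zero, abs_zero, and_self]
      exact le_max_of_le_right (by positivity)

/-- near the exceptional line `H = log |x| + 1/2 log (1 + |y/x|²)` -/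
theorem log_p_eq {p : ℂ → ℂ × ℂ} {z : ℂ} {f : ℂ} (h1 : (p z).1 ≠ 0) (h2 : (p z).2 = (p z).1 * f) :
    Real.log (‖(p z).1‖ ^ 2 + ‖(p z).2‖ ^ 2) / 2 = Real.log ‖(p z).1‖ + Real.log (1 + ‖f‖ ^ 2) / 2 := by
  have h3 : ‖(p z).1‖ ^ 2 + ‖(p z).2‖ ^ 2 = ‖(p z).1‖ ^ 2 * (1 + ‖f‖ ^ 2) := by
    rw [h2, norm_mul]
    ring
  have h4 : 0 < ‖(p z).1‖ := norm_pos_iff.2 h1
  rw [h3, Real.log_mul (by positivity) (by positivity), Real.log_pow]
  push_cast
  ring

end Pool.Agent.MQ2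

end
end
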