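import Pool.Agent.H43.TL2.H17BP.ChLem
import Pool.Agent.H43.TL2.H36.BP.WdA
import Pool.Agent.H43.TL2.M08
import Pool.Agent.H43.TL2.M11
import Pool.Agent.H43.TL2.M14
import Pool.Agent.H43.TL2.M17
import Pool.Agent.H43.TL2.M21
import Pool.Agent.H43.TL2.M24
import Pool.Agent.H43.TL2.M34
import Pool.Agent.H43.TL2.M36
import Pool.Agent.H43.TL2.M39
import Pool.Agent.H43.TL2.M43
import Pool.Agent.H43.TL2.MQ.GDefs_1

/-! The parts of this file: H13.CV.Dx, E2.Bd, H36.BPB.ExtC, H36.LB.Cv, E2.Loc, H17BP.Conv, H14.KB.Kob, H17BP.Ind, H36.BPL.IndK, H62.BU.LiftB, H36.LB.Hur, MQ.Unit, MQ2.Hart, MQ3.LogS0, MQ3.WForm, MQL.Ax, MQL.RegDA. -/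

section

/-!
# CV Dx: the order of the differential of a function

`Form K 1` is the exterior power `⋀¹ Ω_{K/ℂ}`, `Form.mk c a = c • ιMulti (d (a 0))` (`Pool/Agent/H23/Fano.lean`); `Form.mk c a` is additive in `d (a 0)` and `K`-linear in it.  (`Form K 1 ≃ Ω_{K/ℂ}`:
`exteriorPower.oneEquiv`; `exteriorPower.ιMulti` is multilinear: `AlternatingMap.map_update_smul`, `map_update_add` for `Fin 1`.)
`mk_ne_zero`: see e.g. `Pool/Agent/H62/FC/NotLGT.lean`, `Pool/Agent/H23/Forms.lean`: `d x ≠ 0` for a transcendental element in characteristic `0`: there is a derivation `D` of `K` over `ℂ` with `D x = 1`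
(Mathlib: `Differential`... or the library: look for `exists_derivation`, `IsTranscendenceBasis` basis of `Ω`, `Pool.Agent.H23` `mem_regularForms_iff`, `dualDer`).
`mk_inv`: `d x = - x² d (x⁻¹)` (`Derivation.leibniz_inv`).
`exists_eta`: let `oz E t = 1`, `e = oz E x` (may be negative), `u = x * t ^ (-e)` of order `0`: `x = t ^ e * u`, `d x = t ^ (e - 1) • (e u d t + t d u)`, and `η = e u d t + t d u` is a sum of two
generators of `regularForms`.
`pole_mk`: with `g = t ^ (e - 1)`: `0 ≤ oz E h + m * (e - 1) + p`.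
-/

set_option autoImplicit false

open Pool.Agent.H23.Fano (PrimeDivisorOver Form regularForms)
open Pool.Agent.H17LG.Variety (PoleAtMost IsLogGeneralType)

noncomputable section

namespace Pool.Agent.H13.CV

variable {K : Type} [Field K] [Algebra ℂ K]

/-- the form `dx` -/
def dx (x : K) : Form K 1 := Form.mk 1 fun _ => x

/-- a differential as a form -/
private def tf : Ω[K⁄ℂ] →ₗ[K] Form K 1 :=
  ((exteriorPower.oneEquiv K Ω[K⁄ℂ]).symm : Ω[K⁄ℂ] →ₗ[K] ⋀[K]^1 Ω[K⁄ℂ])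

private lemma tf_inj : Function.Injective (tf : Ω[K⁄ℂ] →ₗ[K] Form K 1) :=
  (exteriorPower.oneEquiv K Ω[K⁄ℂ]).symm.injective

private lemma mk_eq (c x : K) :
    Form.mk c (fun _ : Fin 1 => x) = tf (c • KaehlerDifferential.D ℂ K x) := by
  rw [map_smul]
  have h : (exteriorPower.ιMulti K 1 (fun _ : Fin 1 => KaehlerDifferential.D ℂ K x) :
      ⋀[K]^1 Ω[K⁄ℂ]) =
      (exteriorPower.oneEquiv K Ω[K⁄ℂ]).symm (KaehlerDifferential.D ℂ K x) := by
    rw [LinearEquiv.eq_symm_apply, exteriorPower.oneEquiv_ιMulti]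
  exact congrArg (fun w : ⋀[K]^1 Ω[K⁄ℂ] => c • w) h

private lemma dx_eq (x : K) : dx x = tf (KaehlerDifferential.D ℂ K x) := by
  rw [dx, mk_eq, one_smul]

theorem dx_sub_const (x : K) (c : ℂ) : dx (x - algebraMap ℂ K c) = dx x := by
  rw [dx_eq, dx_eq, map_sub, Derivation.map_algebraMap, sub_zero]

theorem dx_ne_zero {x : K} (hx : Transcendental ℂ x) : dx x ≠ 0 := by
  obtain ⟨t, hst, ht⟩ := exists_isTranscendenceBasis_superset (R := ℂ) (s := ({x} : Set K))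
    (algebraicIndependent_unique_type_iff.mpr hx)
  obtain ⟨b, hb⟩ := Pool.Agent.H23.exists_basis_kaehler ht
  have h1 := hb ⟨x, hst rfl⟩
  rw [dx_eq]
  intro h
  have h2 : KaehlerDifferential.D ℂ K x = 0 := tf_inj (h.trans (map_zero _).symm)
  exact b.ne_zero ⟨x, hst rfl⟩ (h1.trans h2)

theorem exists_eta (E : Place K) {x : K} (hx : x ≠ 0) :
    ∃ (t : K) (η : Form K 1), t ≠ 0 ∧ oz E t = 1 ∧ η ∈ regularForms 1 E.localRing ∧ dx x = t ^ (oz E x - 1) • η := by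
  obtain ⟨t, ht, h1⟩ := exists_uni E
  set e : ℤ := oz E x with he
  set u : K := x * t ^ (-e) with hu
  have hte : t ^ (-e) ≠ 0 := zpow_ne_zero _ ht
  have hu0 : u ≠ 0 := mul_ne_zero hx hte
  have hou : oz E u = 0 := by
    rw [hu, oz_mul E hx hte, oz_zpow, h1]
    omega
  have hxu : x = t ^ e * u := by
    rw [hu, mul_left_comm, ← zpow_add₀ ht, add_neg_cancel, zpow_zero, mul_one]
  have hru : 0 ≤ E.ord u := nonneg_iff.2 (Or.inr hou.ge)
  have hrt : 0 ≤ E.ord t := nonneg_iff.2 (Or.inr (by omega))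
  have hre : 0 ≤ E.ord (((e : ℂ) • u : K)) := by
    rw [Algebra.smul_def]
    exact nonneg_mul (const_nonneg E _) hru
  refine ⟨t, Form.mk t (fun _ => u) + Form.mk ((e : ℂ) • u) (fun _ => t), ht, h1, ?_, ?_⟩
  · refine AddSubgroup.add_mem _ (AddSubgroup.subset_closure ?_) (AddSubgroup.subset_closure ?_)
    · exact ⟨t, fun _ => u, hrt, fun _ => hru, rfl⟩
    · exact ⟨(e : ℂ) • u, fun _ => t, hre, fun _ => hrt, rfl⟩
  · rw [mk_eq, mk_eq, ← map_add, ← map_smul, dx_eq]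
    congr 1
    conv_lhs => rw [hxu]
    rw [Derivation.leibniz, Derivation.leibniz_zpow, smul_add, smul_smul, smul_smul]
    have h2 : t ^ (e - 1) * t = t ^ e := by
      rw [← zpow_add_one₀ ht, sub_add_cancel]
    rw [h2]
    congr 1
    rw [← Int.cast_smul_eq_zsmul K, smul_smul, smul_smul]
    congr 1
    rw [Algebra.smul_def, map_intCast]
    ring

/-- a sufficient condition for `h dx ^ m` to have a pole of order at most `p` at `E` -/
theorem pole_mk (E : Place K) {x h : K} (hx : x ≠ 0) {m p : ℕ} (hh : h = 0 ∨ 0 ≤ oz E h + m * (oz E x - 1) + p) : PoleAtMost p E m h (dx x) := by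
  obtain ⟨t, η, ht, h1, hη, hd⟩ := exists_eta E hx
  refine ⟨t ^ (oz E x - 1), η, hη, hd, ?_⟩
  rcases hh with hh | hh
  · rw [hh, zero_mul, E.ord.map_zero]
    exact le_of_le_of_eq le_top (WithTop.top_add _).symm
  · by_cases h0 : h = 0
    · rw [h0, zero_mul, E.ord.map_zero]
      exact le_of_le_of_eq le_top (WithTop.top_add _).symm
    have hg : (t ^ (oz E x - 1)) ^ m ≠ 0 := pow_ne_zero _ (zpow_ne_zero _ ht)
    rw [← coe_oz E (mul_ne_zero h0 hg), oz_mul E h0 hg, oz_pow, oz_zpow, h1, mul_one]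
    have h2 : ((p : ℕ) : WithTop ℤ) = (((p : ℤ)) : WithTop ℤ) := by
      push_cast
      rfl
    rw [h2, ← WithTop.coe_add]
    exact WithTop.coe_le_coe.2 hh

end Pool.Agent.H13.CV

end
end

section

/-!
# E2 Bd: the bound on a fibre without critical points

In a chart `σ` with coordinates `v'`, `w'` of the tangent vectors `v`, `w` and `E = dU_i`, `|E| ≥ δ`: `E v' = 0` gives `|v' ∧ w'| δ ≤ |v'| |E w'|`, and
`|v'| ≤ C fs x v`.
-/

set_option autoImplicit false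

open Topology Filter Metric MvPolynomial

noncomputable section

namespace Pool.Agent.E2

open Pool.Agent.H36.BP (EN fs wd wd_inv wd_nonneg)
open Pool.Agent.H14.PP (IsCone Tan)
open Pool.Agent.H17BP (Surface IsChart IsForm NoZeros)

variable {N g : ℕ} {X : Set (EN N)} {Λ : AddSubgroup (Fin g → ℂ)} {u : EN N → (Fin g → ℂ)}

/-- the length of a vector modulo `x` -/
theorem exists_wd_eq {x : EN N} (hx : x ≠ 0) (v : EN N) : ∃ a : ℂ, ‖x‖ * ‖v + a • x‖ = wd x v := by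
  have hxx : (inner ℂ x x : ℂ) ≠ 0 := by
    rw [Ne, inner_self_eq_zero]
    exact hx
  refine ⟨-(inner ℂ x v / inner ℂ x x), ?_⟩
  have ho : inner ℂ x (v + (-(inner ℂ x v / inner ℂ x x)) • x) = (0 : ℂ) := by
    rw [inner_add_right, inner_smul_right]
    field_simp
    ring
  have h1 : wd x (v + (-(inner ℂ x v / inner ℂ x x)) • x) = wd x v := by
    have h := wd_inv x v 1 (-(inner ℂ x v / inner ℂ x x))
    rw [one_smul, one_smul, norm_one] at h
    rw [h]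
    ring
  rw [← h1]
  unfold wd
  rw [ho, norm_zero, ← mul_pow, show (‖x‖ * ‖v + (-(inner ℂ x v / inner ℂ x x)) • x‖) ^ 2 - (0 : ℝ) ^ 2 =
    (‖x‖ * ‖v + (-(inner ℂ x v / inner ℂ x x)) • x‖) ^ 2 by ring]
  exact (Real.sqrt_sq (by positivity)).symm

/-- a chart is an immersion modulo the cone direction -/
theorem chart_lower {σ : ℂ × ℂ → EN N} {τ : EN N → ℂ × ℂ} (hσ : IsChart X σ τ) :
    ∃ K : ℝ, 0 < K ∧ ∀ᶠ p in 𝓝 (0 : ℂ × ℂ), ∀ (v : ℂ × ℂ) (a : ℂ), ‖v‖ ≤ K * ‖fderiv ℂ σ p v + a • σ p‖ := by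
  have hτc : ContinuousAt (fderiv ℂ τ) (σ 0) := hσ.τ_an.fderiv.continuousAt
  obtain ⟨K, hK⟩ : ∃ K, K = ‖fderiv ℂ τ (σ 0)‖ + 1 := ⟨_, rfl⟩
  have hσt : Tendsto σ (𝓝 0) (𝓝 (σ 0)) := hσ.σ_an.continuousAt.tendsto
  have h1 : ∀ᶠ y in 𝓝 (σ 0), ‖fderiv ℂ τ y‖ < K := by
    have := hτc.norm.eventually (gt_mem_nhds (show ‖fderiv ℂ τ (σ 0)‖ < K by rw [hK]; linarith))
    exact this
  have h2 : ∀ᶠ p in 𝓝 (0 : ℂ × ℂ), ∀ᶠ c in 𝓝 (1 : ℂ), τ (c • σ p) = τ (σ p) := by
    have h3 : ∀ᶠ q in 𝓝 (σ 0, (1 : ℂ)), ∀ᶠ q' in 𝓝 q, τ (q'.2 • q'.1) = τ q'.1 := eventually_eventually_nhds.2 hσ.inv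
    have h4 : Tendsto (fun p : ℂ × ℂ => (σ p, (1 : ℂ))) (𝓝 0) (𝓝 (σ 0, (1 : ℂ))) := hσt.prodMk_nhds tendsto_const_nhds
    filter_upwards [h4.eventually h3] with p hp
    have h5 : Tendsto (fun c : ℂ => (σ p, c)) (𝓝 1) (𝓝 (σ p, (1 : ℂ))) := tendsto_const_nhds.prodMk_nhds tendsto_id
    exact h5.eventually hp
  refine ⟨K, by rw [hK]; positivity, ?_⟩
  filter_upwards [hσt.eventually h1, h2, eventually_eventually_nhds.2 hσ.left, hσ.σ_an.eventually_analyticAt,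
    hσt.eventually hσ.τ_an.eventually_analyticAt] with p hp1 hp2 hp3 hp4 hp5 v a
  have h6 : fderiv ℂ τ (σ p) (σ p) = 0 := by
    have h7 : HasDerivAt (fun c : ℂ => c • σ p) (σ p) 1 := by
      have := (hasDerivAt_id (1 : ℂ)).smul_const (σ p)
      simpa using this
    have h8 : HasFDerivAt τ (fderiv ℂ τ (σ p)) ((fun c : ℂ => c • σ p) 1) := by
      simp only [one_smul]
      exact hp5.differentiableAt.hasFDerivAt
    have h9 := h8.comp_hasDerivAt (1 : ℂ) h7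
    have h10 : HasDerivAt (τ ∘ fun c : ℂ => c • σ p) 0 1 := by
      refine (hasDerivAt_const (1 : ℂ) (τ (σ p))).congr_of_eventuallyEq ?_
      filter_upwards [hp2] with c hc
      exact hc
    exact h9.unique h10
  have h11 : fderiv ℂ τ (σ p) (fderiv ℂ σ p v) = v := by
    have h12 : HasFDerivAt (τ ∘ σ) ((fderiv ℂ τ (σ p)).comp (fderiv ℂ σ p)) p :=
      hp5.differentiableAt.hasFDerivAt.comp p hp4.differentiableAt.hasFDerivAt
    have h13 : HasFDerivAt (τ ∘ σ) (ContinuousLinearMap.id ℂ (ℂ × ℂ)) p := by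
      refine (hasFDerivAt_id p).congr_of_eventuallyEq ?_
      filter_upwards [hp3] with q hq
      exact hq
    have h14 := h12.unique h13
    have h15 := congrArg (fun L => L v) h14
    simpa using h15
  have h16 : fderiv ℂ τ (σ p) (fderiv ℂ σ p v + a • σ p) = v := by
    rw [map_add, map_smul, h11, h6, smul_zero, add_zero]
  calc ‖v‖ = ‖fderiv ℂ τ (σ p) (fderiv ℂ σ p v + a • σ p)‖ := by rw [h16]
    _ ≤ ‖fderiv ℂ τ (σ p)‖ * ‖fderiv ℂ σ p v + a • σ p‖ := ContinuousLinearMap.le_opNorm _ _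
    _ ≤ K * ‖fderiv ℂ σ p v + a • σ p‖ := mul_le_mul_of_nonneg_right hp1.le (norm_nonneg _)

theorem tan_iff {x v : EN N} : Tan X x v ↔ v ∈ Pool.Agent.H17BP.Tan X x :=
  ⟨fun ⟨F, h1, h2, h3⟩ => ⟨F, h1.1, h1.2, h2, h3⟩, fun ⟨F, h1, h2, h3, h4⟩ => ⟨F, ⟨h1, h2⟩, h3, h4⟩⟩

end Pool.Agent.E2

end
end

section

/-!
# BPB (port) ExtC: points where the metric is positive

Near `z`: `ρ(F w) ≠ 0` for `w ≠ z` (`ρ_zero`, `hB`), and `wd (F w) (deriv F w) ≠ 0` for `w ≠ z`: otherwise (frequently `0`) all minors `F_i F_j' - F_j F_i'` (holomorphic; they vanish where `F' = a F`, `wd_eq_zero`) vanish frequently, hence near `z`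
(`AnalyticAt.frequently_zero_iff_eventually_zero`), and then `wd = 0` near `z` (if all minors of `(x, v)` vanish and `x ≠ 0` then `v` is a multiple of `x`), against `hc`.  Now `lower`: `mt G F w ≥ ρ^M fs > 0`.
-/

set_option autoImplicit false

namespace Pool.Agent.H36.BPB

open Filter Topology Metric
open Pool.Agent.H36.BP

variable {N : ℕ}

variable {K B : Set (EN N)} {G : EN N → EN N → ℝ} {ρ : EN N → ℝ} {M : ℕ} {c₀ C : ℝ}

private theorem ExtC_proj {F : ℂ → EN N} {z : ℂ} (hF : AnalyticAt ℂ F z) (i : Fin (N + 1)) :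
    AnalyticAt ℂ (fun w => F w i) z :=
  (ContinuousLinearMap.analyticAt (EuclideanSpace.proj i : EN N →L[ℂ] ℂ) (F z)).comp hF

theorem exists_pos (hM : MD K B G ρ M c₀ C) {F : ℂ → EN N} {z : ℂ} (hF : AnalyticAt ℂ F z) (hK : ∀ᶠ w in 𝓝 z, F w ∈ K)
    (hB : ¬ ∀ᶠ w in 𝓝 z, F w ∈ B) (hc : ¬ ∀ᶠ w in 𝓝 z, wd (F w) (deriv F w) = 0) : ∀ᶠ w in 𝓝[≠] z, 0 < mt G F w := by
  have h1 : ∀ᶠ w in 𝓝[≠] z, ρ (F w) ≠ 0 := by
    by_contra h
    exact hB (hM.ρ_zero F z hF hK (by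
      rw [Filter.not_eventually] at h
      simpa using h))
  have h2 : ∀ᶠ w in 𝓝[≠] z, wd (F w) (deriv F w) ≠ 0 := by
    by_contra h
    rw [Filter.not_eventually] at h
    refine hc ?_
    have h3 : ∀ i j : Fin (N + 1),
        ∀ᶠ w in 𝓝 z, F w i * deriv F w j - F w j * deriv F w i = 0 := by
      intro i j
      have han : AnalyticAt ℂ (fun w => F w i * deriv F w j - F w j * deriv F w i) z :=
        ((ExtC_proj hF i).mul (ExtC_proj hF.deriv j)).sub
          ((ExtC_proj hF j).mul (ExtC_proj hF.deriv i))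
      refine (han.frequently_zero_iff_eventually_zero).1 ?_
      refine (h.and_eventually (hK.filter_mono nhdsWithin_le_nhds)).mono ?_
      rintro w ⟨hw1, hw2⟩
      rw [not_not, wd_eq_zero (hM.ne _ hw2)] at hw1
      obtain ⟨a, ha⟩ := hw1
      rw [ha]
      simp only [PiLp.smul_apply, smul_eq_mul]
      ring
    have h4 : ∀ᶠ w in 𝓝 z, ∀ i j : Fin (N + 1),
        F w i * deriv F w j - F w j * deriv F w i = 0 :=
      Filter.eventually_all.2 fun i => Filter.eventually_all.2 fun j => h3 i j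
    filter_upwards [h4, hK] with w hw1 hw2
    rw [wd_eq_zero (hM.ne _ hw2)]
    have h5 : ∃ i, F w i ≠ 0 := by
      by_contra h6
      rw [not_exists] at h6
      refine hM.ne _ hw2 (PiLp.ext fun i => ?_)
      exact not_not.1 (h6 i)
    obtain ⟨i, hi⟩ := h5
    refine ⟨deriv F w i / F w i, PiLp.ext fun j => ?_⟩
    rw [PiLp.smul_apply, smul_eq_mul]
    have h6 := hw1 i j
    field_simp
    linear_combination h6
  filter_upwards [h1, h2, hK.filter_mono nhdsWithin_le_nhds] with w hw1 hw2 hw3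
  have h3 : 0 < ρ (F w) := lt_of_le_of_ne (hM.ρ_nonneg _ hw3) (Ne.symm hw1)
  have h4 : 0 < wd (F w) (deriv F w) := lt_of_le_of_ne (wd_nonneg _ _) (Ne.symm hw2)
  have h5 : 0 < ‖F w‖ := norm_pos_iff.2 (hM.ne _ hw3)
  have h6 : 0 < fs (F w) (deriv F w) := div_pos h4 (pow_pos h5 2)
  exact (mul_pos (pow_pos h3 M) h6).trans_le (hM.lower _ hw3 _)

end Pool.Agent.H36.BPB

end

section

/-!
# LB Cv: convergence of holomorphic maps into projective spaces, limit curves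

Holomorphic maps into `ℙ(V)` are given by functions with values in `V ∖ {0}`, see `HolP`.
-/

set_option autoImplicit false

open Topology Filter Metric

namespace Pool.Agent.H36.LB

open Pool.Agent.H17BP (Pr HolP)
open Pool.Agent.H36.BP (OrdTwo)

variable {V W : Type} [NormedAddCommGroup V] [NormedSpace ℂ V] [NormedAddCommGroup W] [NormedSpace ℂ W]

/-- Near `z₀` the maps `[F n]` into `ℙ(V)` converge to the map `[f]`, uniformly on a disc around `z₀`. -/
def ConvP (l : Filter ℕ) (F : ℕ → ℂ → V) (f : ℂ → V) (z₀ : ℂ) : Prop :=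
  ∃ (s : ℝ) (Φ : ℕ → ℂ → V) (Φ₀ : ℂ → V), 0 < s ∧
    (∀ᶠ n in l, DifferentiableOn ℂ (Φ n) (ball z₀ s) ∧ ∀ z ∈ ball z₀ s, Pr (F n z) (Φ n z)) ∧
    DifferentiableOn ℂ Φ₀ (ball z₀ s) ∧ (∀ z ∈ ball z₀ s, Φ₀ z ≠ 0 ∧ Pr (f z) (Φ₀ z)) ∧
    TendstoLocallyUniformlyOn Φ Φ₀ l (ball z₀ s)

/-- The holomorphic map `[f]` from `ℂ` to `X` is the limit of the holomorphic maps `[F n]` from discs to `K`, whose radii tend to infinity,
near `0` and outside a closed discrete set. -/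
structure LimCurve (X K : Set V) (l : Filter ℕ) (F : ℕ → ℂ → V) (f : ℂ → V) : Prop where
  neBot : l.NeBot
  le_atTop : l ≤ atTop
  hol : ∀ z, HolP f z
  mem : ∀ z, f z ∈ X
  zero_mem : f 0 ∈ K
  holF : ∀ n : ℕ, ∀ z ∈ ball (0 : ℂ) (n + 1), HolP (F n) z
  memF : ∀ n : ℕ, ∀ z ∈ ball (0 : ℂ) (n + 1), F n z ∈ K
  zero : ConvP l F f 0
  conv : ∀ z₀ : ℂ, ∀ᶠ z in 𝓝[≠] z₀, ConvP l F f z

/-- Every limit of order at most two of discs in `K` which is not a map into `T` is constant. -/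
def Lim2 (X K T : Set V) : Prop :=
  ∀ (l : Filter ℕ) (F : ℕ → ℂ → V) (f : ℂ → V), LimCurve X K l F f → OrdTwo f → (∃ z, f z ∉ T) → ∀ z w, Pr (f z) (f w)

/-- Composition with a map which is continuous at the values of the limit. -/
theorem tlu_comp {V W : Type} [NormedAddCommGroup V] [NormedAddCommGroup W] {l : Filter ℕ} {Φ : ℕ → ℂ → V} {Φ₀ : ℂ → V}
    {U : Set ℂ} (h : TendstoLocallyUniformlyOn Φ Φ₀ l U)
    (hc : ContinuousOn Φ₀ U) {p : V → W} (hp : ∀ x ∈ U, ContinuousAt p (Φ₀ x)) :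
    TendstoLocallyUniformlyOn (fun n z => p (Φ n z)) (fun z => p (Φ₀ z)) l U := by
  rw [tendstoLocallyUniformlyOn_iff_forall_tendsto] at h ⊢
  intro x hx
  have h1 := h x hx
  have h2 : Tendsto (fun y : ℕ × ℂ => Φ₀ y.2) (l ×ˢ 𝓝[U] x) (𝓝 (Φ₀ x)) := (hc x hx).tendsto.comp tendsto_snd
  have h3 : Tendsto (fun y : ℕ × ℂ => Φ y.1 y.2) (l ×ˢ 𝓝[U] x) (𝓝 (Φ₀ x)) := by
    rw [Metric.tendsto_nhds] at h2 ⊢
    intro ε hε
    have h4 := h1 (Metric.dist_mem_uniformity (show (0 : ℝ) < ε / 2 by positivity))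
    filter_upwards [h2 (ε / 2) (by positivity), h4] with y hy1 hy2
    have hy2 : dist (Φ₀ y.2) (Φ y.1 y.2) < ε / 2 := hy2
    calc dist (Φ y.1 y.2) (Φ₀ x) ≤ dist (Φ y.1 y.2) (Φ₀ y.2) + dist (Φ₀ y.2) (Φ₀ x) := dist_triangle _ _ _
      _ < ε := by rw [dist_comm (Φ y.1 y.2)]; linarith
  have h4 : Tendsto (fun y : ℕ × ℂ => (p (Φ₀ y.2), p (Φ y.1 y.2))) (l ×ˢ 𝓝[U] x) (𝓝 (p (Φ₀ x), p (Φ₀ x))) :=
    ((hp x hx).tendsto.comp h2).prodMk_nhds ((hp x hx).tendsto.comp h3)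
  exact h4.mono_right (nhds_le_uniformity _)

/-- Convergence of the values, uniformly on a smaller disc. -/
theorem ConvP.map {l : Filter ℕ} {F : ℕ → ℂ → V} {f : ℂ → V} {z₀ : ℂ} (h : ConvP l F f z₀) {p : V → W} {d : ℕ}
    (hp : ∀ x, AnalyticAt ℂ p x) (hps : ∀ (c : ℂ) (x : V), p (c • x) = c ^ d • p x) (h0 : p (f z₀) ≠ 0)
    {F' : ℕ → ℂ → W} {f' : ℂ → W}
    (hf' : ∀ᶠ z in 𝓝 z₀, p (f z) ≠ 0 → Pr (f' z) (p (f z))) (hF'' : ∃ s > 0, ∀ᶠ n in l, ∀ w ∈ ball z₀ s, p (F n w) ≠ 0 → Pr (F' n w) (p (F n w))) :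
    ConvP l F' f' z₀ := by
  obtain ⟨s, Φ, Φ₀, hs, hΦ, hΦ₀, hf, hlim⟩ := h
  obtain ⟨s₁, hs₁, hF1⟩ := hF''
  have hmem : z₀ ∈ ball z₀ s := mem_ball_self hs
  have hpr0 := (hf z₀ hmem).2
  have hpΦ0 : p (Φ₀ z₀) ≠ 0 := by
    obtain ⟨c, hc, e⟩ := hpr0
    intro h1
    apply h0
    rw [e, hps, h1, smul_zero]
  have hcont : ContinuousOn Φ₀ (ball z₀ s) := hΦ₀.continuousOn
  have hpc : ContinuousAt (fun z => p (Φ₀ z)) z₀ :=
    ContinuousAt.comp (g := p) (hp _).continuousAt (hcont.continuousAt (isOpen_ball.mem_nhds hmem))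
  -- a smaller disc
  have hev : ∀ᶠ z in 𝓝 z₀, ‖p (Φ₀ z₀)‖ / 2 < ‖p (Φ₀ z)‖ ∧ (p (f z) ≠ 0 → Pr (f' z) (p (f z))) ∧ z ∈ ball z₀ s ∧ z ∈ ball z₀ s₁ := by
    have h1 : 0 < ‖p (Φ₀ z₀)‖ := norm_pos_iff.mpr hpΦ0
    filter_upwards [hpc.norm.eventually_const_lt (show ‖p (Φ₀ z₀)‖ / 2 < ‖p (Φ₀ z₀)‖ by linarith), hf', isOpen_ball.mem_nhds hmem,
      ball_mem_nhds z₀ hs₁] with z h2 h3 h4 h5
    exact ⟨h2, h3, h4, h5⟩
  obtain ⟨r, hr, hrb⟩ := Metric.eventually_nhds_iff_ball.1 hev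
  have hsub : closedBall z₀ (r / 2) ⊆ ball z₀ r := closedBall_subset_ball (by linarith)
  have hsub2 : ball z₀ (r / 2) ⊆ ball z₀ r := ball_subset_closedBall.trans hsub
  have hlim2 : TendstoLocallyUniformlyOn (fun n z => p (Φ n z)) (fun z => p (Φ₀ z)) l (ball z₀ s) :=
    tlu_comp hlim hcont fun x _ => (hp _).continuousAt
  have hne0 : 0 < ‖p (Φ₀ z₀)‖ / 2 := by
    have := norm_pos_iff.mpr hpΦ0
    positivity
  have hunif : ∀ᶠ n in l, ∀ z ∈ closedBall z₀ (r / 2), dist (p (Φ₀ z)) (p (Φ n z)) < ‖p (Φ₀ z₀)‖ / 2 := by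
    have h1 := (tendstoLocallyUniformlyOn_iff_tendstoUniformlyOn_of_compact (isCompact_closedBall z₀ (r / 2))).1
      (hlim2.mono fun z hz => (hrb z (hsub hz)).2.2.1)
    exact Metric.tendstoUniformlyOn_iff.1 h1 _ hne0
  refine ⟨r / 2, fun n z => p (Φ n z), fun z => p (Φ₀ z), by positivity, ?_, ?_, ?_, hlim2.mono fun z hz => (hrb z (hsub2 hz)).2.2.1⟩
  · filter_upwards [hΦ, hF1, hunif] with n h1 h2 h3
    refine ⟨fun z hz => ?_, fun z hz => ?_⟩
    · have h4 : DifferentiableAt ℂ (Φ n) z := h1.1.differentiableAt (isOpen_ball.mem_nhds (hrb z (hsub2 hz)).2.2.1)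
      exact (DifferentiableAt.comp (g := p) z (hp _).differentiableAt h4).differentiableWithinAt
    · have hzs := (hrb z (hsub2 hz)).2.2.1
      obtain ⟨c, hc, e⟩ := h1.2 z hzs
      have h5 : p (Φ n z) ≠ 0 := by
        intro h6
        have h7 := h3 z (ball_subset_closedBall hz)
        rw [h6, dist_zero_right] at h7
        linarith [(hrb z (hsub2 hz)).1]
      have h6 : p (F n z) = c ^ d • p (Φ n z) := by rw [e, hps]
      have h7 : p (F n z) ≠ 0 := by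
        rw [h6]
        exact smul_ne_zero (pow_ne_zero d hc) h5
      exact (h2 z (hrb z (hsub2 hz)).2.2.2 h7).trans ⟨c ^ d, pow_ne_zero d hc, h6⟩
  · intro z hz
    have h4 : DifferentiableAt ℂ Φ₀ z := hΦ₀.differentiableAt (isOpen_ball.mem_nhds (hrb z (hsub2 hz)).2.2.1)
    exact (DifferentiableAt.comp (g := p) z (hp _).differentiableAt h4).differentiableWithinAt
  · intro z hz
    obtain ⟨h1, h2, h3, h4⟩ := hrb z (hsub2 hz)
    have h5 : p (Φ₀ z) ≠ 0 := by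
      intro h6
      rw [h6, norm_zero] at h1
      linarith
    obtain ⟨c, hc, e⟩ := (hf z h3).2
    have h6 : p (f z) = c ^ d • p (Φ₀ z) := by rw [e, hps]
    have h7 : p (f z) ≠ 0 := by
      rw [h6]
      exact smul_ne_zero (pow_ne_zero d hc) h5
    exact ⟨h5, (h2 h7).trans ⟨c ^ d, pow_ne_zero d hc, h6⟩⟩

end Pool.Agent.H36.LB

end

section

/-!
# E2 Loc: the differential of `u` in a chart
-/

set_option autoImplicit false

open Topology Filter Metric

noncomputable section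

namespace Pool.Agent.E2

open Pool.Agent.H36.BP (EN)
open Pool.Agent.H14.PP (IsCone Tan)
open Pool.Agent.H17BP (Surface IsChart)

variable {N g : ℕ} {X : Set (EN N)} {Λ : AddSubgroup (Fin g → ℂ)} {u : EN N → (Fin g → ℂ)}

/-- the differential of a chart maps to the tangent spaces -/
theorem tan_fderiv_chart {σ : ℂ × ℂ → EN N} {p : ℂ × ℂ} (hσ : AnalyticAt ℂ σ p) (hX : ∀ᶠ q in 𝓝 p, σ q ∈ X) (v : ℂ × ℂ) :
    Tan X (σ p) (fderiv ℂ σ p v) := by
  have hl : AnalyticAt ℂ (fun z : ℂ => p + z • v) 0 := by fun_prop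
  have h0 : p + (0 : ℂ) • v = p := by simp
  have hσ' : AnalyticAt ℂ σ (p + (0 : ℂ) • v) := by rwa [h0]
  refine ⟨fun z => σ (p + z • v), ⟨AnalyticAt.comp (g := σ) (f := fun z : ℂ => p + z • v) hσ' hl, ?_⟩, by simp, ?_⟩
  · have h1 : Tendsto (fun z : ℂ => p + z • v) (𝓝 0) (𝓝 p) := by
      have := hl.continuousAt.tendsto
      rwa [h0] at this
    exact h1.eventually hX
  · have h1 : HasFDerivAt σ (fderiv ℂ σ p) (p + (0 : ℂ) • v) := by
      rw [h0]
      exact hσ.differentiableAt.hasFDerivAt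
    have h2 : HasDerivAt (fun z : ℂ => p + z • v) v 0 := by
      have h3 : HasDerivAt (fun z : ℂ => z • v) ((1 : ℂ) • v) 0 := (hasDerivAt_id (0 : ℂ)).smul_const v
      rw [one_smul] at h3
      exact h3.const_add p
    exact (h1.comp_hasDerivAt (0 : ℂ) h2).deriv

/-- the tangent spaces in a chart -/
theorem tan_chart (_hX : Surface X) {σ : ℂ × ℂ → EN N} {τ : EN N → ℂ × ℂ} (hσ : IsChart X σ τ) :
    ∀ᶠ p in 𝓝 (0 : ℂ × ℂ), σ p ∈ X ∧ ∀ w, Tan X (σ p) w → ∃ (v : ℂ × ℂ) (a : ℂ), w = fderiv ℂ σ p v + a • σ p := by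
  have hσc : Tendsto σ (𝓝 (0 : ℂ × ℂ)) (𝓝 (σ 0)) := hσ.σ_an.continuousAt.tendsto
  have hne : ∀ᶠ p in 𝓝 (0 : ℂ × ℂ), σ p ≠ 0 := hσ.σ_an.continuousAt.eventually_ne hσ.ne
  filter_upwards [hσc.eventually (Pool.Agent.H36.TB.exists_coef hσ), hσ.σ_mem, hσ.left, hne] with p h1 h2 h3 h4
  refine ⟨h2, fun w hw => ?_⟩
  obtain ⟨F, ⟨hF, hFX⟩, hF0, hFd⟩ := hw
  obtain ⟨c, a, hc, h5, h6⟩ := h1 F 0 hF hFX hF0
  rw [hF0, h3] at h5
  rw [h3] at h6
  have hc1 : c = 1 := by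
    by_contra hc1
    apply h4
    have h7 : (c - 1) • σ p = 0 := by
      rw [sub_smul, one_smul, ← h5, sub_self]
    exact (smul_eq_zero.1 h7).resolve_left (sub_ne_zero.2 hc1)
  rw [hc1, one_smul] at h6
  exact ⟨_, a, hFd ▸ h6⟩

/-- an analytic function of two variables, its differential in coordinates -/
theorem fderiv_pair {E : Type*} [NormedAddCommGroup E] [NormedSpace ℂ E] (L : ℂ × ℂ →L[ℂ] E) (v : ℂ × ℂ) :
    L v = v.1 • L (1, 0) + v.2 • L (0, 1) := by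
  have h : v = v.1 • ((1 : ℂ), (0 : ℂ)) + v.2 • ((0 : ℂ), (1 : ℂ)) := by
    ext <;> simp
  conv_lhs => rw [h]
  rw [map_add, map_smul, map_smul]

end Pool.Agent.E2

end
end

section

/-!
# The two sets of definitions agree
-/

open Topology Filter

noncomputable section

namespace Pool.Agent.H17BP

variable {V : Type} [NormedAddCommGroup V] [NormedSpace ℂ V] {X B : Set V}

theorem chart_iff {σ : ℂ × ℂ → V} {τ : V → ℂ × ℂ} : H62.BU.IsChart X σ τ ↔ IsChart X σ τ :=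
  ⟨fun h => ⟨h.σ_an, h.σ_mem, h.ne, h.τ_an, h.left, h.right, h.inv⟩,
    fun h => ⟨h.σ_an, h.σ_mem, h.ne, h.τ_an, h.left, h.right, h.inv⟩⟩

theorem surface_iff : H62.BU.Surface X ↔ Surface X :=
  ⟨fun h => ⟨h.zero, h.smul, h.closed, fun x hx => by
      obtain ⟨σ, τ, h1, h2⟩ := h.chart x hx
      exact ⟨σ, τ, chart_iff.1 h1, h2⟩⟩,
    fun h => ⟨h.zero, h.smul, h.closed, fun x hx => by
      obtain ⟨σ, τ, h1, h2⟩ := h.chart x hx
      exact ⟨σ, τ, chart_iff.2 h1, h2⟩⟩⟩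

theorem Eqs.sub {κ : Type} {Q : κ → V → ℂ} {D : ℕ} (h : Eqs X B Q D) : B ⊆ X :=
  fun x hx => ((h.mem_iff x).1 hx).1

theorem Eqs.cone {κ : Type} {Q : κ → V → ℂ} {D : ℕ} (h : Eqs X B Q D)
    (hX : ∀ x ∈ X, ∀ c : ℂ, c ≠ 0 → c • x ∈ X) : ∀ x ∈ B, ∀ c : ℂ, c ≠ 0 → c • x ∈ B := by
  intro x hx c hc
  have h1 := (h.mem_iff x).1 hx
  exact (h.mem_iff _).2 ⟨hX x h1.1 c hc, fun i => by rw [h.smul, h1.2 i, mul_zero]⟩

theorem Pr.mem_iff (hX : ∀ x ∈ X, ∀ c : ℂ, c ≠ 0 → c • x ∈ X) {x y : V} (h : Pr x y) : x ∈ X ↔ y ∈ X := by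
  constructor
  · intro hx
    obtain ⟨c, hc, e⟩ := h.symm
    rw [e]
    exact hX x hx c hc
  · intro hy
    obtain ⟨c, hc, e⟩ := h
    rw [e]
    exact hX y hy c hc

end Pool.Agent.H17BP

end
end

section

/-!
# Kobayashi hyperbolicity modulo a curve and blow-ups
-/

open Topology Filter

noncomputable section

namespace Pool.Agent.H14.KB

open Pool.Agent Pool.Agent.H17BP
open Pool.Agent.H62.BU (blow total phi)

variable {V : Type} [NormedAddCommGroup V] [NormedSpace ℂ V]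

/-- The size of the equations. -/
def rhoS {κ : Type} [Fintype κ] (Q : κ → V → ℂ) (D : ℕ) (x : V) : ℝ := ‖fun i => Q i x‖ / ‖x‖ ^ D

theorem rhoS_nonneg {κ : Type} [Fintype κ] (Q : κ → V → ℂ) (D : ℕ) (x : V) : 0 ≤ rhoS Q D x := by
  unfold rhoS
  positivity

/-- The derivatives at `0` of the holomorphic maps from the unit disc to the projective set with the
cone `X` are bounded, up to a power of the size of the equations `Q`. -/
def Kob (X : Set V) {κ : Type} [Fintype κ] (Q : κ → V → ℂ) (D : ℕ) : Prop :=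
  ∃ (M : ℕ) (C : ℝ), 1 ≤ M ∧ 0 ≤ C ∧ ∀ (f F : ℂ → V), (∀ z : ℂ, ‖z‖ < 1 → HolP f z ∧ f z ∈ X) →
    AnalyticAt ℂ F 0 → F 0 ≠ 0 → (∀ᶠ z in 𝓝 (0 : ℂ), Pr (f z) (F z)) →
    ∃ a : ℂ, rhoS Q D (F 0) ^ M * ‖deriv F 0 - a • F 0‖ ≤ C * ‖F 0‖

variable {ι : Type} [Fintype ι] {l : ι → V →L[ℂ] ℂ} {X B : Set V} {q : V} {κ : Type} [Fintype κ]
  {Q : κ → V → ℂ} {D : ℕ}

theorem HolP.comp_affine {W : Type} [NormedAddCommGroup W] [NormedSpace ℂ W] {f : ℂ → W} {a b z₀ : ℂ}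
    (h : HolP f (a * z₀ + b)) : HolP (fun z => f (a * z + b)) z₀ := by
  obtain ⟨F, hF, hF0, he⟩ := h
  have h1 : AnalyticAt ℂ (fun z : ℂ => a * z + b) z₀ :=
    (analyticAt_const.mul analyticAt_id).add analyticAt_const
  refine ⟨fun z => F (a * z + b), AnalyticAt.comp (g := F) (f := fun z : ℂ => a * z + b) hF h1, hF0, ?_⟩
  exact h1.continuousAt.tendsto.eventually he

theorem rhoS_phi (hQs : ∀ i (c : ℂ) x, Q i (c • x) = c ^ D * Q i x) {x : V} (hx : x ≠ 0) {b : ι}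
    (hb : l b x ≠ 0) (hmax : ∀ b', ‖l b' x‖ ≤ ‖l b x‖) :
    rhoS Q D x ≤ rhoS (fun (p : κ × ι) (y : ι → V) => Q p.1 (y p.2)) D (phi l x) := by
  have hx0 : 0 < ‖x‖ := norm_pos_iff.mpr hx
  have hl0 : 0 < ‖l b x‖ := norm_pos_iff.mpr hb
  have hn : ‖phi l x‖ ≤ ‖l b x‖ * ‖x‖ := by
    refine (pi_norm_le_iff_of_nonneg (by positivity)).mpr fun b' => ?_
    show ‖l b' x • x‖ ≤ _
    rw [norm_smul]
    exact mul_le_mul_of_nonneg_right (hmax b') (norm_nonneg _)
  have hp0 : 0 < ‖phi l x‖ := norm_pos_iff.mpr (H62.BU.phi_ne ⟨b, hb⟩)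
  unfold rhoS
  rw [div_le_div_iff₀ (by positivity) (by positivity)]
  have h1 : ‖l b x‖ ^ D * ‖fun i => Q i x‖ ≤
      ‖fun p : κ × ι => Q p.1 (phi l x p.2)‖ := by
    have h2 : ‖l b x‖ ^ D * ‖fun i => Q i x‖ = ‖fun i => (l b x) ^ D * Q i x‖ := by
      have h3 : (fun i => (l b x) ^ D * Q i x) = ((l b x) ^ D) • (fun i => Q i x) := rfl
      rw [h3, norm_smul, norm_pow]
    rw [h2]
    refine (pi_norm_le_iff_of_nonneg (norm_nonneg _)).mpr fun i => ?_
    have h4 := norm_le_pi_norm (fun p : κ × ι => Q p.1 (phi l x p.2)) (i, b)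
    refine le_trans (le_of_eq ?_) h4
    show ‖(l b x) ^ D * Q i x‖ = ‖Q i (l b x • x)‖
    rw [hQs]
  have h5 : ‖phi l x‖ ^ D ≤ ‖l b x‖ ^ D * ‖x‖ ^ D := by
    rw [← mul_pow]
    exact pow_le_pow_left₀ hp0.le hn D
  calc ‖fun i => Q i x‖ * ‖phi l x‖ ^ D ≤ ‖fun i => Q i x‖ * (‖l b x‖ ^ D * ‖x‖ ^ D) := by gcongr
    _ = (‖l b x‖ ^ D * ‖fun i => Q i x‖) * ‖x‖ ^ D := by ring
    _ ≤ ‖fun p : κ × ι => Q p.1 (phi l x p.2)‖ * ‖x‖ ^ D := by gcongr

end Pool.Agent.H14.KB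

end
end

section

/-!
# The induction: from the nodal case to the general case
-/

open Topology Filter

noncomputable section

namespace Pool.Agent.H17BP

open Pool.Agent.H62.BU (blow total phi phi_smul)

theorem phi_pr {V : Type} [NormedAddCommGroup V] [NormedSpace ℂ V] {ι : Type} [Fintype ι]
    {l : ι → V →L[ℂ] ℂ} {x y : V} (h : Pr x y) : Pr (phi l x) (phi l y) := by
  obtain ⟨c, hc, rfl⟩ := h
  exact ⟨c ^ 2, pow_ne_zero _ hc, phi_smul c y⟩

end Pool.Agent.H17BP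

end
end

section

/-!
# BPL IndK: the induction over the blow-ups for open surfaces
-/

set_option autoImplicit false

open Topology Filter

noncomputable section

namespace Pool.Agent.H36.BPL

open Pool.Agent.H62.BU (blow total phi phi_smul)
open Pool.Agent.H17BP (Pr)

theorem phi_pr {V : Type} [NormedAddCommGroup V] [NormedSpace ℂ V] {ι : Type} [Fintype ι]
    {l : ι → V →L[ℂ] ℂ} {x y : V} (h : Pr x y) : Pr (phi l x) (phi l y) := by
  obtain ⟨c, hc, rfl⟩ := h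
  exact ⟨c ^ 2, pow_ne_zero _ hc, phi_smul c y⟩

end Pool.Agent.H36.BPL

end
end

section

/-!
# BU LiftB: lifting holomorphic curves to the blow-up, equations of the total transform

`lift_curve`: `g z = phi l (f z)` is analytic at `z₀` and not `0` near `z₀` identically (some `l b (f z) ≠ 0` frequently: `hne`), so `g z = (z - z₀)^k • F z` with `F z₀ ≠ 0`, `F` analytic (`AnalyticAt.exists_eventuallyEq_pow_smul_nonzero_iff`);
for `z ≠ z₀` near `z₀` some `l b (f z) ≠ 0` and `F z = (z - z₀)^(-k) • phi l (f z) ∈ dense`; `F z₀` is a limit and `≠ 0` (`blow_closed`).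
`curve_comp`: components (`comp_mem`).
`total_eq`: equations.  `Q i` continuous, homogeneous of degree `D ≥ 1`.
-/

set_option autoImplicit false

namespace Pool.Agent.H62.BU

open Filter Topology

variable {V : Type*} [NormedAddCommGroup V] [NormedSpace ℂ V] {ι : Type*} [Fintype ι]
variable {l : ι → V →L[ℂ] ℂ} {X : Set V} {σ : ℂ × ℂ → V} {τ : V → ℂ × ℂ}

theorem lift_curve {f : ℂ → V} {z₀ : ℂ} (hf : AnalyticAt ℂ f z₀) (hfX : ∀ᶠ z in 𝓝 z₀, f z ∈ X)
    (hne : ∃ᶠ z in 𝓝[≠] z₀, ∃ b, l b (f z) ≠ 0) :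
    ∃ (k : ℕ) (F : ℂ → ι → V), AnalyticAt ℂ F z₀ ∧ (∀ᶠ z in 𝓝 z₀, F z ∈ blow l X) ∧
      ∀ᶠ z in 𝓝 z₀, phi l (f z) = (z - z₀) ^ k • F z := by
  have hg : AnalyticAt ℂ (fun z => phi l (f z)) z₀ := by
    rw [analyticAt_pi_iff]
    intro b
    exact (((l b).analyticAt (f z₀)).comp hf).smul hf
  have hnot : ¬ ∀ᶠ z in 𝓝 z₀, phi l (f z) = 0 := by
    intro h
    refine hne ?_
    filter_upwards [h.filter_mono nhdsWithin_le_nhds] with z hz hb
    exact phi_ne hb hz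
  obtain ⟨k, F, hF, hF0, hFe⟩ := (hg.exists_eventuallyEq_pow_smul_nonzero_iff).2 hnot
  have hFne : ∀ᶠ z in 𝓝 z₀, F z ≠ 0 := hF.continuousAt.eventually_ne hF0
  have hpunc : ∀ᶠ z in 𝓝[≠] z₀, F z ∈ blow l X := by
    filter_upwards [(hFne.and (hFe.and hfX)).filter_mono nhdsWithin_le_nhds, self_mem_nhdsWithin]
      with z hz hzz
    obtain ⟨h1, h2, h3⟩ := hz
    have h4 : (z - z₀) ^ k ≠ 0 := pow_ne_zero _ (sub_ne_zero.2 hzz)
    have h5 : ∃ b, l b (f z) ≠ 0 := by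
      by_contra hcon
      push Not at hcon
      have h6 : phi l (f z) = 0 := by
        funext b
        show l b (f z) • f z = 0
        rw [hcon b, zero_smul]
      rw [h6] at h2
      exact smul_ne_zero h4 h1 h2.symm
    have h7 : F z = ((z - z₀) ^ k)⁻¹ • phi l (f z) := by
      rw [h2, smul_smul, inv_mul_cancel₀ h4, one_smul]
    rw [h7]
    exact dense_sub (dense_smul (phi_mem_dense h3 h5) (inv_ne_zero h4))
  have hz0 : F z₀ ∈ blow l X := by
    refine blow_closed _ ?_ hF0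
    exact mem_closure_of_tendsto (hF.continuousAt.tendsto.mono_left nhdsWithin_le_nhds) hpunc
  refine ⟨k, F, hF, ?_, hFe⟩
  rw [eventually_nhdsWithin_iff] at hpunc
  filter_upwards [hpunc] with z hz
  by_cases h : z = z₀
  · rw [h]; exact hz0
  · exact hz h

theorem total_eq (hX : Surface X) {B : Set V} {κ : Type*} {Q : κ → V → ℂ} {D : ℕ} (hD : D ≠ 0)
    (hQ : ∀ i (c : ℂ) x, Q i (c • x) = c ^ D * Q i x) (hB : ∀ x, x ∈ B ↔ x ∈ X ∧ ∀ i, Q i x = 0) (y : ι → V) :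
    y ∈ total l X B ↔ y ∈ blow l X ∧ ∀ i b, Q i (y b) = 0 := by
  constructor
  · rintro ⟨h1, h2⟩
    refine ⟨h1, fun i b => ?_⟩
    by_cases hb : y b = 0
    · rw [hb]
      have h3 := hQ i 0 (0 : V)
      rwa [smul_zero, zero_pow hD, zero_mul] at h3
    · exact ((hB _).1 (h2 b hb)).2 i
  · rintro ⟨h1, h2⟩
    exact ⟨h1, fun b hb => (hB _).2 ⟨comp_mem hX y h1 hb, fun i => h2 i b⟩⟩

end Pool.Agent.H62.BU

end

section

/-!
# LB Hur: Hurwitz' theorem for the boundary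
-/

set_option autoImplicit false

open Topology Filter Metric

namespace Pool.Agent.H36.LB

open Pool.Agent.H17BP (Pr HolP)
open Pool.Agent.H36.BPL (OpenPart)

variable {V : Type} [NormedAddCommGroup V] [NormedSpace ℂ V]

/-- Hurwitz' theorem for a function `h` which is holomorphic near the value of the limit. -/
theorem hur_local {h : V → ℂ} {l : Filter ℕ} (hl : l.NeBot) {F : ℕ → ℂ → V} {H : ℂ → V} {z₀ : ℂ} {s : ℝ}
    (hs : 0 < s) (hF : ∀ᶠ n in l, DifferentiableOn ℂ (F n) (ball z₀ s)) (hH : DifferentiableOn ℂ H (ball z₀ s))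
    (hlim : TendstoLocallyUniformlyOn F H l (ball z₀ s)) (hh : AnalyticAt ℂ h (H z₀)) (h0 : h (H z₀) = 0)
    (hne' : ∃ O ∈ 𝓝 (H z₀), ∀ᶠ n in l, ∀ z ∈ ball z₀ s, F n z ∈ O → h (F n z) ≠ 0) :
    ∀ᶠ z in 𝓝 z₀, h (H z) = 0 := by
  obtain ⟨O, hO, hne'⟩ := hne'
  have hmem : z₀ ∈ ball z₀ s := mem_ball_self hs
  have hHc : ContinuousAt H z₀ := (hH.differentiableAt (isOpen_ball.mem_nhds hmem)).continuousAt
  obtain ⟨ε, hε, hεb⟩ := Metric.eventually_nhds_iff_ball.1 (hh.eventually_analyticAt.and hO)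
  have hev : ∀ᶠ z in 𝓝 z₀, z ∈ ball z₀ s ∧ dist (H z) (H z₀) < ε / 2 := by
    filter_upwards [isOpen_ball.mem_nhds hmem, Metric.tendsto_nhds.1 hHc (ε / 2) (by positivity)] with z h1 h2
    exact ⟨h1, h2⟩
  obtain ⟨r, hr, hrb⟩ := Metric.eventually_nhds_iff_ball.1 hev
  have hsub : closedBall z₀ (r / 2) ⊆ ball z₀ r := closedBall_subset_ball (by linarith)
  have hsub2 : ball z₀ (r / 2) ⊆ ball z₀ r := ball_subset_closedBall.trans hsub
  have hunif : ∀ᶠ n in l, ∀ z ∈ closedBall z₀ (r / 2), dist (H z) (F n z) < ε / 2 :=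
    Metric.tendstoUniformlyOn_iff.1 ((tendstoLocallyUniformlyOn_iff_tendstoUniformlyOn_of_compact
      (isCompact_closedBall z₀ (r / 2))).1 (hlim.mono fun z hz => (hrb z (hsub hz)).1)) _ (by positivity)
  have hin : ∀ᶠ n in l, ∀ z ∈ ball z₀ (r / 2), F n z ∈ ball (H z₀) ε := by
    filter_upwards [hunif] with n hn z hz
    have h1 := hn z (ball_subset_closedBall hz)
    have h2 := (hrb z (hsub2 hz)).2
    rw [mem_ball]
    calc dist (F n z) (H z₀) ≤ dist (F n z) (H z) + dist (H z) (H z₀) := dist_triangle _ _ _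
      _ < ε := by rw [dist_comm (F n z)]; linarith
  have hinH : ∀ z ∈ ball z₀ (r / 2), H z ∈ ball (H z₀) ε := by
    intro z hz
    have h2 := (hrb z (hsub2 hz)).2
    rw [mem_ball]
    linarith
  have hl' : (Ultrafilter.of l : Filter ℕ) ≤ l := Ultrafilter.of_le l
  have key := Pool.Agent.H62.Log.hurwitz (Ultrafilter.of l) (φ := fun n z => h (F n z)) (ψ := fun z => h (H z)) (a := z₀) (r := r / 2)
    (by
      filter_upwards [hl' hF, hl' hin] with n h1 h2 z hz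
      have h3 : DifferentiableAt ℂ (F n) z := h1.differentiableAt (isOpen_ball.mem_nhds (hrb z (hsub2 hz)).1)
      exact (DifferentiableAt.comp (g := h) z (hεb _ (h2 z hz)).1.differentiableAt h3).differentiableWithinAt)
    (by
      filter_upwards [hl' hne', hl' hin] with n h1 h2 z hz
      exact h1 z (hrb z (hsub2 hz)).1 (hεb _ (h2 z hz)).2)
    (by
      intro z hz
      have h3 : DifferentiableAt ℂ H z := hH.differentiableAt (isOpen_ball.mem_nhds (hrb z (hsub2 hz)).1)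
      exact (DifferentiableAt.comp (g := h) z (hεb _ (hinH z hz)).1.differentiableAt h3).differentiableWithinAt)
    (by
      intro w z hz hw
      have h1 : Tendsto (fun n => F n (w n)) (Ultrafilter.of l : Filter ℕ) (𝓝 (H z)) := by
        have hzs : z ∈ ball z₀ s := (hrb z (hsub2 hz)).1
        have h2 := (hlim.mono (s' := ball z₀ (r / 2)) fun z hz => (hrb z (hsub2 hz)).1)
        have h3 := (tendstoLocallyUniformlyOn_iff_forall_tendsto.1 h2) z hz
        have h4 : Tendsto (fun n => (n, w n)) (Ultrafilter.of l : Filter ℕ) (l ×ˢ 𝓝[ball z₀ (r / 2)] z) := by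
          refine Tendsto.prodMk (tendsto_id'.2 hl') ?_
          rw [isOpen_ball.nhdsWithin_eq hz]
          exact hw
        have h5 := h3.comp h4
        have h6 : Tendsto (fun n => H (w n)) (Ultrafilter.of l : Filter ℕ) (𝓝 (H z)) :=
          ((hH.differentiableAt (isOpen_ball.mem_nhds hzs)).continuousAt.tendsto).comp hw
        rw [Metric.tendsto_nhds] at h6 ⊢
        intro δ hδ
        have h7 := h5 (Metric.dist_mem_uniformity (show (0 : ℝ) < δ / 2 by positivity))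
        filter_upwards [h6 (δ / 2) (by positivity), h7] with n h8 h9
        have h9 : dist (H (w n)) (F n (w n)) < δ / 2 := h9
        calc dist (F n (w n)) (H z) ≤ dist (F n (w n)) (H (w n)) + dist (H (w n)) (H z) := dist_triangle _ _ _
          _ < δ := by rw [dist_comm (F n (w n))]; linarith
      exact ((hεb _ (hinH z hz)).1.continuousAt.tendsto).comp h1)
  rcases key with h1 | h1
  · filter_upwards [ball_mem_nhds z₀ (show 0 < r / 2 by positivity)] with z hz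
    exact h1 z hz
  · exact absurd h0 (h1 z₀ (mem_ball_self (by positivity)))

/-- Hurwitz' theorem for an open part. -/
theorem hur_openPart {X K : Set V} (hX : ∀ x ∈ closure X, x ≠ 0 → x ∈ X) (hK : OpenPart X K) {l : Filter ℕ} (hl : l.NeBot)
    {F : ℕ → ℂ → V} {H : ℂ → V} {z₀ : ℂ} {s : ℝ} (hs : 0 < s)
    (hF : ∀ᶠ n in l, DifferentiableOn ℂ (F n) (ball z₀ s) ∧ ∀ z ∈ ball z₀ s, F n z ∈ K) (hH : DifferentiableOn ℂ H (ball z₀ s))
    (hlim : TendstoLocallyUniformlyOn F H l (ball z₀ s)) (hH0 : H z₀ ≠ 0) (h0 : H z₀ ∉ K) : ∀ᶠ z in 𝓝 z₀, H z ∉ K := by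
  have hmem : z₀ ∈ ball z₀ s := mem_ball_self hs
  have hHc : ContinuousAt H z₀ := (hH.differentiableAt (isOpen_ball.mem_nhds hmem)).continuousAt
  have hcl : ∀ z ∈ ball z₀ s, H z ∈ closure X := by
    intro z hz
    refine mem_closure_of_tendsto (hlim.tendsto_at hz) ?_
    filter_upwards [hF] with n hn
    exact hK.sub (hn.2 z hz)
  have hxX : H z₀ ∈ X := hX _ (hcl z₀ hmem) hH0
  obtain ⟨h, hh, he⟩ := hK.eqn (H z₀) hxX
  have h00 : h (H z₀) = 0 := (he.self_of_nhds hxX).1 h0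
  have hO : {y | y ∈ X → (y ∉ K ↔ h y = 0)} ∈ 𝓝 (H z₀) := he
  have hne' : ∀ᶠ n in l, ∀ z ∈ ball z₀ s, F n z ∈ {y | y ∈ X → (y ∉ K ↔ h y = 0)} → h (F n z) ≠ 0 := by
    filter_upwards [hF] with n hn z hz hy h1
    exact ((hy (hK.sub (hn.2 z hz))).2 h1) (hn.2 z hz)
  have key := hur_local hl hs (hF.mono fun n hn => hn.1) hH hlim hh h00 ⟨_, hO, hne'⟩
  filter_upwards [key, hHc.eventually hO, hHc.eventually_ne hH0, isOpen_ball.mem_nhds hmem] with z h1 h2 h3 h4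
  exact (h2 (hX _ (hcl z h4) h3)).2 h1

/-- A holomorphic curve in `X` lies in `X ∖ K` or meets it in isolated points. -/
theorem iso_openPart {X K : Set V} (hXs : ∀ x ∈ X, ∀ c : ℂ, c ≠ 0 → c • x ∈ X) (hK : OpenPart X K) {f : ℂ → V} {z₀ : ℂ}
    (hf : HolP f z₀) (hfX : ∀ᶠ z in 𝓝 z₀, f z ∈ X) : (∀ᶠ z in 𝓝 z₀, f z ∉ K) ∨ ∀ᶠ z in 𝓝[≠] z₀, f z ∈ K := by
  obtain ⟨Φ, hΦ, hΦ0, he⟩ := hf
  have hΦX : ∀ᶠ z in 𝓝 z₀, Φ z ∈ X := by
    filter_upwards [hfX, he] with z h1 h2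
    exact (h2.mem_iff hXs).1 h1
  obtain ⟨h, hh, hhe⟩ := hK.eqn (Φ z₀) hΦX.self_of_nhds
  have hc : AnalyticAt ℂ (fun z => h (Φ z)) z₀ := AnalyticAt.comp (g := h) (f := Φ) hh hΦ
  have h1 := hΦ.continuousAt.eventually hhe
  have hiff : ∀ᶠ z in 𝓝 z₀, (f z ∉ K ↔ h (Φ z) = 0) := by
    filter_upwards [h1, hΦX, he] with z h2 h3 h4
    rw [← h2 h3, h4.mem_iff hK.smul]
  rcases hc.eventually_eq_zero_or_eventually_ne_zero with h2 | h2
  · left
    filter_upwards [h2, hiff] with z h3 h4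
    exact h4.2 h3
  · right
    filter_upwards [h2, hiff.filter_mono nhdsWithin_le_nhds] with z h3 h4
    by_contra h5
    exact h3 (h4.1 h5)

/-- Near a point of `K` a holomorphic curve in `X` lies in `K`. -/
theorem mem_near {X K : Set V} (hXs : ∀ x ∈ X, ∀ c : ℂ, c ≠ 0 → c • x ∈ X) (hK : OpenPart X K) {f : ℂ → V} {z₀ : ℂ}
    (hf : HolP f z₀) (hfX : ∀ᶠ z in 𝓝 z₀, f z ∈ X) (h0 : f z₀ ∈ K) : ∀ᶠ z in 𝓝 z₀, f z ∈ K := by
  obtain ⟨Φ, hΦ, hΦ0, he⟩ := hf
  have h1 : Φ z₀ ∈ K := (he.self_of_nhds.mem_iff hK.smul).1 h0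
  filter_upwards [hΦ.continuousAt.eventually (hK.rel _ h1), hfX, he] with z h2 h3 h4
  exact (h4.mem_iff hK.smul).2 (h2 ((h4.mem_iff hXs).1 h3))

/-- The limit curve is not contained in the boundary. -/
theorem LimCurve.iso {X K : Set V} (hXs : ∀ x ∈ X, ∀ c : ℂ, c ≠ 0 → c • x ∈ X) (hK : OpenPart X K) {l : Filter ℕ}
    {F : ℕ → ℂ → V} {f : ℂ → V} (h : LimCurve X K l F f) (z₀ : ℂ) : ∀ᶠ z in 𝓝[≠] z₀, f z ∈ K := by
  set A : Set ℂ := {z | ∀ᶠ w in 𝓝 z, f w ∉ K} with hA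
  have hAo : IsOpen A := by
    rw [isOpen_iff_mem_nhds]
    intro z hz
    exact hz.eventually_nhds
  have hX : ∀ z, ∀ᶠ w in 𝓝 z, f w ∈ X := fun z => Eventually.of_forall h.mem
  have hAc : IsClosed A := by
    rw [← isOpen_compl_iff, isOpen_iff_mem_nhds]
    intro z hz
    rcases iso_openPart hXs hK (h.hol z) (hX z) with h1 | h1
    · exact absurd h1 hz
    · rw [eventually_nhdsWithin_iff] at h1
      filter_upwards [h1.eventually_nhds] with w hw hwA
      by_cases hwz : w = z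
      · rw [hwz] at hwA
        exact hz hwA
      · exact hwA.self_of_nhds (hw.self_of_nhds hwz)
  rcases isClopen_iff.1 ⟨hAc, hAo⟩ with h1 | h1
  · rcases iso_openPart hXs hK (h.hol z₀) (hX z₀) with h2 | h2
    · have : z₀ ∈ A := h2
      rw [h1] at this
      exact absurd this (Set.notMem_empty _)
    · exact h2
  · exfalso
    have h2 : (0 : ℂ) ∈ A := by
      rw [h1]
      trivial
    have h3 : ∀ᶠ w in 𝓝 (0 : ℂ), f w ∉ K := h2
    exact h3.self_of_nhds h.zero_mem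

/-- Where the curves converge the limit lies in `K`. -/
theorem LimCurve.mem_of_conv {X K : Set V} (hXs : ∀ x ∈ X, ∀ c : ℂ, c ≠ 0 → c • x ∈ X) (hXc : ∀ x ∈ closure X, x ≠ 0 → x ∈ X)
    (hK : OpenPart X K) {l : Filter ℕ}
    {F : ℕ → ℂ → V} {f : ℂ → V} (h : LimCurve X K l F f) {z : ℂ} (hz : ConvP l F f z) : f z ∈ K := by
  by_contra hzK
  obtain ⟨s, Φ, Φ₀, hs, hΦ, hΦ₀, hf, hlim⟩ := hz
  have hmem : z ∈ ball z s := mem_ball_self hs
  have h1 : Φ₀ z ∉ K := fun h2 => hzK (((hf z hmem).2.mem_iff hK.smul).2 h2)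
  obtain ⟨n₀, hn₀⟩ := exists_nat_ge (‖z‖ + s)
  have h2 := hur_openPart hXc hK h.neBot hs (by
    filter_upwards [hΦ, h.le_atTop (eventually_ge_atTop n₀)] with n hn hn2
    refine ⟨hn.1, fun w hw => ?_⟩
    have h3 : w ∈ ball (0 : ℂ) (n + 1) := by
      rw [mem_ball_zero_iff]
      have h2 : ‖w - z‖ < s := by simpa [dist_eq_norm] using hw
      have h3 : ‖w‖ ≤ ‖w - z‖ + ‖z‖ := by
        have := norm_add_le (w - z) z
        rwa [sub_add_cancel] at this
      have h4 : (n₀ : ℝ) ≤ n := by exact_mod_cast hn2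
      linarith
    exact ((hn.2 w hw).mem_iff hK.smul).1 (h.memF n w h3)) hΦ₀ hlim (hf z hmem).1 h1
  have h3 : ∀ᶠ w in 𝓝[≠] z, f w ∉ K := by
    filter_upwards [h2.filter_mono nhdsWithin_le_nhds, nhdsWithin_le_nhds (isOpen_ball.mem_nhds hmem)] with w hw hws h4
    exact hw (((hf w hws).2.mem_iff hK.smul).1 h4)
  obtain ⟨w, hw1, hw2⟩ := (h3.and (h.iso hXs hK z)).exists
  exact hw1 hw2

end Pool.Agent.H36.LB

end

section

/-!
# MQ Unit (C8): two local equations with the same zeros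
-/

set_option autoImplicit false

open Topology Filter MvPolynomial Asymptotics

noncomputable section

namespace Pool.Agent.MQ

open Pool.Agent.H17BP (Coord coord_iff exists_div_x dx dy)

variable {M : ℕ}

/-- a linear form on `ℂ × ℂ` is zero if it vanishes on the basis -/
private theorem Unit_lin {L : ℂ × ℂ →L[ℂ] ℂ} (h1 : L (1, 0) = 0) (h2 : L (0, 1) = 0) : L = 0 := by
  refine ContinuousLinearMap.ext fun x => ?_
  have e : x = x.1 • ((1, 0) : ℂ × ℂ) + x.2 • ((0, 1) : ℂ × ℂ) := by ext <;> simp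
  rw [e, map_add, map_smul, map_smul, h1, h2]
  simp

private theorem Unit_zero_coord {l l' T : ℂ × ℂ → ℂ} (hl : AnalyticAt ℂ l 0) (hl' : AnalyticAt ℂ l' 0) (h0 : l 0 = 0)
    (hT : Coord l T) (h' : fderiv ℂ l' 0 ≠ 0) (hz : ∀ᶠ x in 𝓝 0, (l x = 0 → l' x = 0)) :
    ∃ u : ℂ × ℂ → ℂ, AnalyticAt ℂ u 0 ∧ u 0 ≠ 0 ∧ ∀ᶠ x in 𝓝 0, l' x = u x * l x := by
  obtain ⟨θ', g1, g2, g3, g4⟩ := hT.inv
  have han : AnalyticAt ℂ (fun x => (l x, T x)) 0 := hT.an
  have hzero : (fun x => (l x, T x)) (0 : ℂ × ℂ) = 0 := hT.zero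
  have hh : AnalyticAt ℂ (fun z => l' (θ' z)) 0 := by
    have : AnalyticAt ℂ l' (θ' 0) := by rw [g2]; exact hl'
    exact this.comp g1
  have hc' : Tendsto θ' (𝓝 0) (𝓝 0) := by
    have := g1.continuousAt.tendsto; rwa [g2] at this
  have hcθ : Tendsto (fun x => (l x, T x)) (𝓝 (0 : ℂ × ℂ)) (𝓝 0) := by
    have h : Tendsto (fun x => (l x, T x)) (𝓝 (0 : ℂ × ℂ)) (𝓝 ((fun x => (l x, T x)) (0 : ℂ × ℂ))) := han.continuousAt
    rwa [hzero] at h
  have hv : ∀ᶠ y in 𝓝 (0 : ℂ), (fun z => l' (θ' z)) (0, y) = 0 := by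
    have e1 : ∀ᶠ z in 𝓝 (0 : ℂ × ℂ), (l (θ' z), T (θ' z)) = z ∧ (l (θ' z) = 0 → l' (θ' z) = 0) := by
      filter_upwards [g4, hc'.eventually hz] with z a b using ⟨a, b⟩
    have e2 : Tendsto (fun y : ℂ => ((0, y) : ℂ × ℂ)) (𝓝 0) (𝓝 0) :=
      (Continuous.prodMk_right (0 : ℂ)).tendsto' _ _ rfl
    filter_upwards [e2.eventually e1] with y hy
    apply hy.2
    have := congrArg Prod.fst hy.1
    exact this
  obtain ⟨k, hk, hk2⟩ := exists_div_x hh hv
  have hk' : AnalyticAt ℂ (fun x => k (l x, T x)) 0 := by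
    have h3 : AnalyticAt ℂ k ((fun x => (l x, T x)) (0 : ℂ × ℂ)) := by rw [hzero]; exact hk
    exact AnalyticAt.comp (g := k) (f := fun x => (l x, T x)) h3 han
  have heq : ∀ᶠ x in 𝓝 (0 : ℂ × ℂ), l' x = k (l x, T x) * l x := by
    filter_upwards [g3, hcθ.eventually hk2] with x a b
    rw [a] at b
    rw [b, smul_eq_mul, mul_comm]
  refine ⟨fun x => k (l x, T x), hk', ?_, heq⟩
  intro hu0
  apply h'
  have e3 : HasFDerivAt (fun x => k (l x, T x) * l x)
      (k (l 0, T 0) • fderiv ℂ l 0 + l 0 • fderiv ℂ (fun x => k (l x, T x)) 0) 0 :=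
    hk'.differentiableAt.hasFDerivAt.mul hl.differentiableAt.hasFDerivAt
  have e4 : HasFDerivAt l' (k (l 0, T 0) • fderiv ℂ l 0 + l 0 • fderiv ℂ (fun x => k (l x, T x)) 0) 0 :=
    e3.congr_of_eventuallyEq heq
  have hu0' : k (l 0, T 0) = 0 := hu0
  rw [e4.fderiv]
  refine ContinuousLinearMap.ext fun x => ?_
  show k (l 0, T 0) * fderiv ℂ l 0 x + l 0 * fderiv ℂ (fun x => k (l x, T x)) 0 x = 0
  rw [hu0', h0, zero_mul, zero_mul, add_zero]

private theorem Unit_zero {l l' : ℂ × ℂ → ℂ} (hl : AnalyticAt ℂ l 0) (hl' : AnalyticAt ℂ l' 0) (h0 : l 0 = 0)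
    (h : fderiv ℂ l 0 ≠ 0) (h' : fderiv ℂ l' 0 ≠ 0) (hz : ∀ᶠ x in 𝓝 0, (l x = 0 → l' x = 0)) :
    ∃ u : ℂ × ℂ → ℂ, AnalyticAt ℂ u 0 ∧ u 0 ≠ 0 ∧ ∀ᶠ x in 𝓝 0, l' x = u x * l x := by
  by_cases hx : Pool.Agent.H17BP.dx l 0 = 0
  · have hy : Pool.Agent.H17BP.dy l 0 ≠ 0 := by
      intro hy
      exact h (Unit_lin hx hy)
    have hT : AnalyticAt ℂ (fun x : ℂ × ℂ => x.1) 0 := analyticAt_fst
    have hd : HasFDerivAt (fun x : ℂ × ℂ => x.1) (ContinuousLinearMap.fst ℂ ℂ ℂ) 0 := hasFDerivAt_fst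
    have e1 : Pool.Agent.H17BP.dx (fun x : ℂ × ℂ => x.1) 0 = 1 := by
      show fderiv ℂ (fun x : ℂ × ℂ => x.1) 0 (1, 0) = 1
      rw [hd.fderiv]; rfl
    have e2 : Pool.Agent.H17BP.dy (fun x : ℂ × ℂ => x.1) 0 = 0 := by
      show fderiv ℂ (fun x : ℂ × ℂ => x.1) 0 (0, 1) = 0
      rw [hd.fderiv]; rfl
    have hc : Coord l (fun x => x.1) := by
      rw [coord_iff hl hT h0 rfl, e1, e2, hx]
      simpa using hy
    exact Unit_zero_coord hl hl' h0 hc h' hz
  · have hT : AnalyticAt ℂ (fun x : ℂ × ℂ => x.2) 0 := analyticAt_snd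
    have hd : HasFDerivAt (fun x : ℂ × ℂ => x.2) (ContinuousLinearMap.snd ℂ ℂ ℂ) 0 := hasFDerivAt_snd
    have e1 : Pool.Agent.H17BP.dx (fun x : ℂ × ℂ => x.2) 0 = 0 := by
      show fderiv ℂ (fun x : ℂ × ℂ => x.2) 0 (1, 0) = 0
      rw [hd.fderiv]; rfl
    have e2 : Pool.Agent.H17BP.dy (fun x : ℂ × ℂ => x.2) 0 = 1 := by
      show fderiv ℂ (fun x : ℂ × ℂ => x.2) 0 (0, 1) = 1
      rw [hd.fderiv]; rfl
    have hc : Coord l (fun x => x.2) := by
      rw [coord_iff hl hT h0 rfl, e1, e2]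
      simpa using hx
    exact Unit_zero_coord hl hl' h0 hc h' hz

/-- C8 -/
theorem unit {l l' : ℂ × ℂ → ℂ} {p : ℂ × ℂ} (hl : AnalyticAt ℂ l p) (hl' : AnalyticAt ℂ l' p) (h : l p = 0 → fderiv ℂ l p ≠ 0)
    (h' : l' p = 0 → fderiv ℂ l' p ≠ 0) (hz : ∀ᶠ x in 𝓝 p, (l x = 0 ↔ l' x = 0)) :
    ∃ u : ℂ × ℂ → ℂ, AnalyticAt ℂ u p ∧ u p ≠ 0 ∧ ∀ᶠ x in 𝓝 p, l' x = u x * l x := by
  have hzp : l p = 0 ↔ l' p = 0 := hz.self_of_nhds
  by_cases h0 : l p = 0
  · -- translate to the origin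
    have ht : AnalyticAt ℂ (fun x : ℂ × ℂ => x + p) 0 := analyticAt_id.add analyticAt_const
    have ht0 : (fun x : ℂ × ℂ => x + p) 0 = p := zero_add p
    have htc : Tendsto (fun x : ℂ × ℂ => x + p) (𝓝 0) (𝓝 p) := by
      have h : Tendsto (fun x : ℂ × ℂ => x + p) (𝓝 0) (𝓝 ((fun x : ℂ × ℂ => x + p) 0)) := ht.continuousAt
      rwa [ht0] at h
    have a1 : AnalyticAt ℂ (fun x => l (x + p)) 0 := by
      have : AnalyticAt ℂ l ((fun x : ℂ × ℂ => x + p) 0) := by rw [ht0]; exact hl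
      exact AnalyticAt.comp (g := l) (f := fun x : ℂ × ℂ => x + p) this ht
    have a2 : AnalyticAt ℂ (fun x => l' (x + p)) 0 := by
      have : AnalyticAt ℂ l' ((fun x : ℂ × ℂ => x + p) 0) := by rw [ht0]; exact hl'
      exact AnalyticAt.comp (g := l') (f := fun x : ℂ × ℂ => x + p) this ht
    have d1 : fderiv ℂ (fun x => l (x + p)) 0 = fderiv ℂ l p := by
      rw [fderiv_comp_add_right, zero_add]
    have d2 : fderiv ℂ (fun x => l' (x + p)) 0 = fderiv ℂ l' p := by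
      rw [fderiv_comp_add_right, zero_add]
    obtain ⟨u, hu1, hu2, hu3⟩ := Unit_zero a1 a2 (by simpa using h0) (by rw [d1]; exact h h0)
      (by rw [d2]; exact h' (hzp.1 h0)) (by filter_upwards [htc.eventually hz] with x hx using hx.1)
    have hs : AnalyticAt ℂ (fun x : ℂ × ℂ => x - p) p := analyticAt_id.sub analyticAt_const
    have hs0 : (fun x : ℂ × ℂ => x - p) p = 0 := sub_self p
    have hsc : Tendsto (fun x : ℂ × ℂ => x - p) (𝓝 p) (𝓝 0) := by
      have h : Tendsto (fun x : ℂ × ℂ => x - p) (𝓝 p) (𝓝 ((fun x : ℂ × ℂ => x - p) p)) := hs.continuousAt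
      rwa [hs0] at h
    refine ⟨fun x => u (x - p), ?_, ?_, ?_⟩
    · have : AnalyticAt ℂ u ((fun x : ℂ × ℂ => x - p) p) := by rw [hs0]; exact hu1
      exact AnalyticAt.comp (g := u) (f := fun x : ℂ × ℂ => x - p) this hs
    · simpa using hu2
    · filter_upwards [hsc.eventually hu3] with x hx
      simpa using hx
  · have h0' : l' p ≠ 0 := fun e => h0 (hzp.2 e)
    refine ⟨fun x => l' x / l x, hl'.div hl h0, div_ne_zero h0' h0, ?_⟩
    filter_upwards [hl.continuousAt.eventually_ne h0] with x hx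
    field_simp

end Pool.Agent.MQ

end
end

section

/-!
# MQ2 Hart: the theorem of Hartogs for an isolated point
-/

set_option autoImplicit false

open Topology Filter Metric

noncomputable section

namespace Pool.Agent.MQ2

open Pool.Agent.H22.HF

/-- A function which is analytic off the origin of `ℂ × ℂ` extends. -/
theorem hartogs {f : ℂ × ℂ → ℂ} (hf : ∀ᶠ p in 𝓝 (0 : ℂ × ℂ), p ≠ 0 → AnalyticAt ℂ f p) :
    ∃ F : ℂ × ℂ → ℂ, AnalyticAt ℂ F 0 ∧ ∀ᶠ p in 𝓝 (0 : ℂ × ℂ), p ≠ 0 → F p = f p := by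
  obtain ⟨δ, hδ, hball⟩ := Metric.eventually_nhds_iff_ball.mp hf
  obtain ⟨ρ, hρ, hρδ⟩ : ∃ ρ : ℝ, 0 < ρ ∧ ρ < δ := ⟨δ / 2, by linarith, by linarith⟩
  have han : ∀ x t : ℂ, ‖x‖ < δ → ‖t‖ < δ → (x, t) ≠ (0 : ℂ × ℂ) → AnalyticAt ℂ f (x, t) := fun x t hx ht h0 => by
    refine hball _ ?_ h0
    rw [mem_ball_zero_iff, Prod.norm_def]
    exact max_lt hx ht
  let F : ℂ × ℂ → ℂ := fun p => (2 * Real.pi * Complex.I)⁻¹ * ∮ t in C(0, ρ), f (p.1, t) / (t - p.2)
  have hF : ∀ p : ℂ × ℂ, ‖p.1‖ < δ → ‖p.2‖ < ρ → AnalyticAt ℂ F p := by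
    intro p h1 h2
    refine analyticAt_const.mul (analyticAt_circleIntegral (F := fun z : (ℂ × ℂ) × ℂ => f (z.1.1, z.2) / (z.2 - z.1.2)) hρ ?_)
    intro t ht
    rw [mem_sphere_zero_iff_norm] at ht
    have ht0 : t ≠ 0 := by
      rintro rfl
      rw [norm_zero] at ht
      exact hρ.ne ht
    have ha : AnalyticAt ℂ f (p.1, t) := han _ _ h1 (by rw [ht]; exact hρδ) (fun h => ht0 (congrArg Prod.snd h))
    have hpr : AnalyticAt ℂ (fun z : (ℂ × ℂ) × ℂ => ((z.1.1, z.2) : ℂ × ℂ)) (p, t) := (analyticAt_fst.comp analyticAt_fst).prod analyticAt_snd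
    refine (AnalyticAt.comp (g := f) (f := fun z : (ℂ × ℂ) × ℂ => ((z.1.1, z.2) : ℂ × ℂ)) (x := (p, t)) ha hpr).div
      (analyticAt_snd.sub (analyticAt_snd.comp analyticAt_fst)) ?_
    show t - p.2 ≠ 0
    intro h
    rw [sub_eq_zero] at h
    rw [← h, ht] at h2
    exact lt_irrefl _ h2
  have heq : ∀ p : ℂ × ℂ, ‖p.1‖ < δ → ‖p.2‖ < ρ → p.1 ≠ 0 → F p = f p := by
    rintro ⟨x, y⟩ h1 h2 h0
    have hd : DifferentiableOn ℂ (fun t => f (x, t)) (closedBall 0 ρ) := by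
      intro t ht
      rw [mem_closedBall_zero_iff] at ht
      have ha : AnalyticAt ℂ f (x, t) := han _ _ h1 (lt_of_le_of_lt ht hρδ) (fun h => h0 (congrArg Prod.fst h))
      have h3 : AnalyticAt ℂ (fun t : ℂ => ((x, t) : ℂ × ℂ)) t := analyticAt_const.prod analyticAt_id
      exact (AnalyticAt.comp (g := f) (f := fun t : ℂ => ((x, t) : ℂ × ℂ)) ha h3).differentiableAt.differentiableWithinAt
    have hc : DiffContOnCl ℂ (fun t => f (x, t)) (ball 0 ρ) := (hd.mono (closure_ball_subset_closedBall)).diffContOnCl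
    have h4 := hc.two_pi_i_inv_smul_circleIntegral_sub_inv_smul (w := y) (by rwa [mem_ball_zero_iff])
    show (2 * Real.pi * Complex.I)⁻¹ * (∮ t in C(0, ρ), f (x, t) / (t - y)) = f (x, y)
    rw [← h4, smul_eq_mul]
    congr 1
    refine circleIntegral.integral_congr hρ.le fun t _ => ?_
    simp only [smul_eq_mul]
    rw [div_eq_inv_mul]
  refine ⟨F, hF 0 (by simpa using hδ) (by simpa using hρ), ?_⟩
  filter_upwards [ball_mem_nhds (0 : ℂ × ℂ) hρ] with p hp h0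
  rw [mem_ball_zero_iff, Prod.norm_def, max_lt_iff] at hp
  rcases ne_or_eq p.1 0 with h1 | h1
  · exact heq p (hp.1.trans hρδ) hp.2 h1
  · -- the line `x = 0`
    obtain ⟨x, y⟩ := p
    simp only at h1 hp
    subst h1
    have hline : ∀ g : ℂ × ℂ → ℂ, ContinuousAt g (0, y) → Tendsto (fun x : ℂ => g (x, y)) (𝓝[≠] 0) (𝓝 (g (0, y))) := fun g hg => by
      have h2 : Tendsto (fun x : ℂ => ((x, y) : ℂ × ℂ)) (𝓝[≠] 0) (𝓝 (0, y)) := by
        have h3 : Continuous fun x : ℂ => ((x, y) : ℂ × ℂ) := by fun_prop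
        exact (h3.tendsto 0).mono_left nhdsWithin_le_nhds
      exact hg.tendsto.comp h2
    have hcF := hline F (hF (0, y) (by simpa using hδ) hp.2).continuousAt
    have hcf := hline f (han 0 y (by simpa using hδ) (hp.2.trans hρδ) h0).continuousAt
    refine tendsto_nhds_unique hcF (hcf.congr' ?_)
    have hb : ∀ᶠ x in 𝓝[≠] (0 : ℂ), ‖x‖ < δ := by
      filter_upwards [nhdsWithin_le_nhds (ball_mem_nhds (0 : ℂ) hδ)] with x hx
      rwa [mem_ball_zero_iff] at hx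
    filter_upwards [hb, self_mem_nhdsWithin] with x hx hx0
    exact (heq (x, y) hx hp.2 hx0).symm

end Pool.Agent.MQ2

end
end

section

/-!
# MQ3 LogS0: logarithmic singularities, general lemmas

`log ‖f‖` for a vector valued analytic function `f` (Euclidean norm), for a pair of analytic functions, for `ζ'` (`ztv`); the coefficient is `≥ 0` if the function
is bounded above.
-/

set_option autoImplicit false

open Topology Filter Metric

noncomputable section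

namespace Pool.Agent.MQ3

open Pool.Agent.H30M

/-- `log ‖f‖`, `f` analytic with values in a complex inner product space -/
theorem logSing_norm {E : Type*} [NormedAddCommGroup E] [InnerProductSpace ℂ E] [CompleteSpace E] {f : ℂ → E} {z : ℂ} (hf : AnalyticAt ℂ f z)
    (h : ∃ᶠ w in 𝓝 z, f w ≠ 0) : ∃ k : ℕ, LogSing (fun w => Real.log ‖f w‖) k z := by
  obtain ⟨k, g, hg, hg0, he⟩ := hf.exists_eventuallyEq_pow_smul_nonzero_iff.2 (by
    intro h0
    exact h (h0.mono fun w hw h1 => h1 hw))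
  refine ⟨k, fun w => Real.log ‖g w‖, ?_, ?_⟩
  · have h1 : ContDiffAt ℝ 2 g z := (hg.contDiffAt (n := 2)).restrict_scalars ℝ
    exact (h1.norm ℂ hg0).log (norm_ne_zero_iff.2 hg0)
  · have h3 : ∀ᶠ w in 𝓝[≠] z, g w ≠ 0 := (hg.continuousAt.eventually_ne hg0).filter_mono nhdsWithin_le_nhds
    filter_upwards [he.filter_mono nhdsWithin_le_nhds, h3, self_mem_nhdsWithin] with w e hne hw
    have hz : ‖w - z‖ ≠ 0 := norm_ne_zero_iff.2 (sub_ne_zero.2 hw)
    rw [e, norm_smul, norm_pow, Real.log_mul (pow_ne_zero _ hz) (norm_ne_zero_iff.2 hne), Real.log_pow]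

/-- scalar functions -/
theorem logSing_log {g : ℂ → ℂ} {z : ℂ} (hg : AnalyticAt ℂ g z) (h : ∃ᶠ w in 𝓝 z, g w ≠ 0) : ∃ k : ℕ, LogSing (fun w => Real.log ‖g w‖) k z :=
  logSing_norm hg h

/-- the coefficient is nonnegative if the function is bounded above near the point -/
theorem logSing_nonneg {w : ℂ → ℝ} {c B : ℝ} {z : ℂ} (h : LogSing w c z) (hB : ∃ᶠ ζ in 𝓝[≠] z, w ζ ≤ B) : 0 ≤ c := by
  by_contra hc
  push Not at hc
  obtain ⟨s, hs, h1⟩ := h
  have h2 : ∀ᶠ ζ in 𝓝[≠] z, s z - 1 < s ζ :=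
    (hs.continuousAt.tendsto.eventually (lt_mem_nhds (by linarith))).filter_mono nhdsWithin_le_nhds
  have h3 : Tendsto (fun ζ : ℂ => Real.log ‖ζ - z‖) (𝓝[≠] z) atBot := by
    refine Real.tendsto_log_nhdsGT_zero.comp ?_
    refine tendsto_nhdsWithin_iff.2 ⟨?_, ?_⟩
    · have h4 : Tendsto (fun ζ : ℂ => ‖ζ - z‖) (𝓝 z) (𝓝 ‖z - z‖) := (by fun_prop : Continuous fun ζ : ℂ => ‖ζ - z‖).tendsto z
      rw [sub_self, norm_zero] at h4
      exact h4.mono_left nhdsWithin_le_nhds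
    · filter_upwards [self_mem_nhdsWithin] with ζ hζ
      exact norm_pos_iff.2 (sub_ne_zero.2 hζ)
  have h4 : Tendsto (fun ζ : ℂ => c * Real.log ‖ζ - z‖) (𝓝[≠] z) atTop := h3.const_mul_atBot_of_neg hc
  have h5 : ∀ᶠ ζ in 𝓝[≠] z, B - s z + 1 < c * Real.log ‖ζ - z‖ := h4.eventually_gt_atTop _
  refine hB ?_
  filter_upwards [h1, h2, h5] with ζ e1 e2 e3 e4
  rw [e1] at e4
  linarith

/-- the coefficient is unique -/
theorem logSing_unique {w : ℂ → ℝ} {c c' : ℝ} {z : ℂ} (h : LogSing w c z) (h' : LogSing w c' z) : c = c' := by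
  have h0 := h.sub h'
  have h1 : LogSing (fun _ : ℂ => (0 : ℝ)) (c - c') z := h0.congr (Eventually.of_forall fun ζ => by simp)
  have h2 : LogSing (fun _ : ℂ => (0 : ℝ)) (-(c - c')) z := by
    have := h1.neg
    simpa using this
  have h3 := logSing_nonneg (B := 0) h1 (Eventually.of_forall fun _ => le_rfl).frequently
  have h4 := logSing_nonneg (B := 0) h2 (Eventually.of_forall fun _ => le_rfl).frequently
  linarith

end Pool.Agent.MQ3

end
end

section

/-!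
# MQ3 WForm: webs given by forms

A polynomial `G (x, z)` in `x` and in the Pluecker coordinates `z` of lines, homogeneous of degree `a` in `x` and of degree `m` in `z`, gives the web
`Θ (x; v) = G (x, x ∧ v)`.
-/

set_option autoImplicit false

open Topology Filter Metric MvPolynomial

noncomputable section

namespace Pool.Agent.MQ3

open Pool.Agent.H36.BP (EN)
open Pool.Agent.H14.PP (Tan)

variable {N : ℕ}

/-- the Pluecker coordinates of the line through `x` and `v` -/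
def plk (x v : Fin (N + 1) → ℂ) (s : Fin (N + 1) × Fin (N + 1)) : ℂ := x s.1 * v s.2 - x s.2 * v s.1

/-- the value of the polynomial `G` at `(x, x ∧ v)` -/
def webVal (G : MvPolynomial (Fin (N + 1) ⊕ Fin (N + 1) × Fin (N + 1)) ℂ) (x v : Fin (N + 1) → ℂ) : ℂ := eval (Sum.elim x (plk x v)) G

/-- `G` is homogeneous of degree `a` in `x` and of degree `m` in `z` -/
def IsBihom (a m : ℕ) (G : MvPolynomial (Fin (N + 1) ⊕ Fin (N + 1) × Fin (N + 1)) ℂ) : Prop :=
  ∀ (c d : ℂ) (x : Fin (N + 1) → ℂ) (z : Fin (N + 1) × Fin (N + 1) → ℂ), eval (Sum.elim (fun i => c * x i) fun s => d * z s) G =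
    c ^ a * d ^ m * eval (Sum.elim x z) G

theorem webVal_add (G : MvPolynomial (Fin (N + 1) ⊕ Fin (N + 1) × Fin (N + 1)) ℂ) (x v : Fin (N + 1) → ℂ) (a : ℂ) :
    webVal G x (fun i => v i + a * x i) = webVal G x v := by
  unfold webVal
  congr 2
  have : plk x (fun i => v i + a * x i) = plk x v := by
    funext s
    simp only [plk]
    ring
  rw [this]

theorem webVal_smul {a m : ℕ} {G : MvPolynomial (Fin (N + 1) ⊕ Fin (N + 1) × Fin (N + 1)) ℂ} (hG : IsBihom a m G) (c d : ℂ) (x v : Fin (N + 1) → ℂ) :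
    webVal G (fun i => c * x i) (fun i => d * v i) = c ^ (a + m) * d ^ m * webVal G x v := by
  unfold webVal
  have h1 : plk (fun i => c * x i) (fun i => d * v i) = fun s => (c * d) * plk x v s := by
    funext s
    simp only [plk]
    ring
  rw [h1, hG c (c * d) x (plk x v)]
  ring

/-- the web of a form, as a twisted symmetric differential -/
def WDiff.ofForm (X : Set (EN N)) {a m : ℕ} {G : MvPolynomial (Fin (N + 1) ⊕ Fin (N + 1) × Fin (N + 1)) ℂ} (hG : IsBihom a m G) : WDiff X m where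
  toFun x v := webVal G x.ofLp v.ofLp
  add_smul x v _ b := webVal_add G x.ofLp v.ofLp b
  smul x v _ c := by
    have h1 := webVal_smul hG 1 c x.ofLp v.ofLp
    simp only [one_mul, one_pow] at h1
    exact h1
  scale c hc := ⟨c ^ (a + m) * c ^ m, mul_ne_zero (pow_ne_zero _ hc) (pow_ne_zero _ hc), fun x v _ => webVal_smul hG c c x.ofLp v.ofLp⟩
  analytic k φ p w hφ _ := by
    have h1 : AnalyticAt ℂ (fun y : (Fin k → ℂ) × (Fin k → ℂ) => φ y.1) (p, w) := AnalyticAt.comp (g := φ) (f := Prod.fst) hφ analyticAt_fst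
    have h2 : AnalyticAt ℂ (fun y : (Fin k → ℂ) × (Fin k → ℂ) => fderiv ℂ φ y.1 y.2) (p, w) := by
      have h3 : AnalyticAt ℂ (fun y : (Fin k → ℂ) × (Fin k → ℂ) => fderiv ℂ φ y.1) (p, w) :=
        AnalyticAt.comp (g := fderiv ℂ φ) (f := Prod.fst) hφ.fderiv analyticAt_fst
      exact (ContinuousLinearMap.analyticAt_bilinear (ContinuousLinearMap.id ℂ ((Fin k → ℂ) →L[ℂ] EN N)) _).comp₂ h3 analyticAt_snd
    have h4 : ∀ (g : (Fin k → ℂ) × (Fin k → ℂ) → EN N), AnalyticAt ℂ g (p, w) → ∀ i, AnalyticAt ℂ (fun y => (g y).ofLp i) (p, w) := fun g hg i =>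
      ((EuclideanSpace.proj (𝕜 := ℂ) i).analyticAt _).comp hg
    have h5 : ∀ s : Fin (N + 1) ⊕ Fin (N + 1) × Fin (N + 1), AnalyticAt ℂ (fun y : (Fin k → ℂ) × (Fin k → ℂ) =>
        (Sum.elim (φ y.1).ofLp (plk (φ y.1).ofLp (fderiv ℂ φ y.1 y.2).ofLp) : Fin (N + 1) ⊕ Fin (N + 1) × Fin (N + 1) → ℂ) s) (p, w) := by
      rintro (i | s)
      · exact h4 _ h1 i
      · exact ((h4 _ h1 s.1).mul (h4 _ h2 s.2)).sub ((h4 _ h1 s.2).mul (h4 _ h2 s.1))
    have h6 := AnalyticAt.aeval_mvPolynomial h5 G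
    exact h6

@[simp] theorem WDiff.ofForm_toFun (X : Set (EN N)) {a m : ℕ} {G : MvPolynomial (Fin (N + 1) ⊕ Fin (N + 1) × Fin (N + 1)) ℂ} (hG : IsBihom a m G)
    (x v : EN N) : (WDiff.ofForm X hG).toFun x v = webVal G x.ofLp v.ofLp := rfl

end Pool.Agent.MQ3

end
end

section

/-!
# MQL Ax: the zeros of a function which is not zero off the axes; the bound from `PoleLE`
-/

set_option autoImplicit false

open Topology Filter Metric

noncomputable section

namespace Pool.Agent.MQL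

open Pool.Agent.H36.BPL (PoleLE)

/-- an analytic function of two variables has no isolated zeros -/
theorem frequently_zero_at {g : ℂ × ℂ → ℂ} {p : ℂ × ℂ} (hg : AnalyticAt ℂ g p) (h0 : g p = 0) : ∃ᶠ q in 𝓝 p, q ≠ p ∧ g q = 0 := by
  intro hcon
  have hadd : Tendsto (fun x : ℂ × ℂ => p + x) (𝓝 0) (𝓝 p) := by
    have h1 : ContinuousAt (fun x : ℂ × ℂ => p + x) 0 := by fun_prop
    have h2 := h1.tendsto
    rwa [add_zero] at h2
  have h1 : ∀ᶠ x in 𝓝 (0 : ℂ × ℂ), x ≠ 0 → AnalyticAt ℂ (fun w => (g (p + w))⁻¹) x := by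
    filter_upwards [hadd.eventually hcon, hadd.eventually hg.eventually_analyticAt] with x h2 h3 h4
    have h5 : AnalyticAt ℂ (fun w : ℂ × ℂ => g (p + w)) x := AnalyticAt.comp (g := g) (f := fun w : ℂ × ℂ => p + w) h3 (by fun_prop)
    exact h5.fun_inv fun h6 => h2 ⟨fun h7 => h4 (by simpa using h7), h6⟩
  obtain ⟨F, hF, hFe⟩ := Pool.Agent.MQ2.hartogs h1
  have h2 : (fun x => F x * g (p + x)) =ᶠ[𝓝[≠] (0 : ℂ × ℂ)] fun _ => 1 := by
    filter_upwards [hFe.filter_mono nhdsWithin_le_nhds, (hadd.eventually hcon).filter_mono nhdsWithin_le_nhds, self_mem_nhdsWithin] with x h3 h4 h5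
    rw [h3 h5]
    exact inv_mul_cancel₀ fun h6 => h4 ⟨fun h7 => h5 (by simpa using h7), h6⟩
  have hc : ContinuousAt (fun x : ℂ × ℂ => g (p + x)) 0 := by
    have h3 : ContinuousAt g (p + 0) := by
      rw [add_zero]
      exact hg.continuousAt
    exact ContinuousAt.comp (g := g) (f := fun x : ℂ × ℂ => p + x) h3 (by fun_prop)
  have h3 : Tendsto (fun x => F x * g (p + x)) (𝓝[≠] (0 : ℂ × ℂ)) (𝓝 (F 0 * g (p + 0))) :=
    ((hF.continuousAt.mul hc).tendsto).mono_left nhdsWithin_le_nhds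
  have h4 : F 0 * g (p + 0) = 1 := tendsto_nhds_unique (h3.congr' h2) tendsto_const_nhds
  rw [add_zero, h0, mul_zero] at h4
  exact zero_ne_one h4

/-- the zeros of `f` near `p` lie on the axes: `f` vanishes on one of the axes through `p` -/
theorem ax_local {f : ℂ × ℂ → ℂ} {p : ℂ × ℂ} (hf : AnalyticAt ℂ f p) (h0 : f p = 0) (hz : ∀ᶠ q in 𝓝 p, f q = 0 → q.1 * q.2 = 0) :
    (p.1 = 0 ∧ ∀ᶠ t in 𝓝 p.2, f (0, t) = 0) ∨ (p.2 = 0 ∧ ∀ᶠ t in 𝓝 p.1, f (t, 0) = 0) := by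
  by_contra hcon
  rw [not_or, not_and_or, not_and_or] at hcon
  obtain ⟨hc1, hc2⟩ := hcon
  -- the first axis
  have k1 : ∀ᶠ q in 𝓝 p, q.1 = 0 → q ≠ p → f q ≠ 0 := by
    by_cases h1 : p.1 = 0
    · have h2 : ¬ ∀ᶠ t in 𝓝 p.2, f (0, t) = 0 := hc1.resolve_left (not_not.2 h1)
      have hp : ((0 : ℂ), p.2) = p := by rw [← h1]
      have h3 : AnalyticAt ℂ (fun t : ℂ => f (0, t)) p.2 :=
        AnalyticAt.comp (g := f) (f := fun t : ℂ => ((0 : ℂ), t)) (by rw [hp]; exact hf) (by fun_prop)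
      have h4 := (h3.eventually_eq_zero_or_eventually_ne_zero).resolve_left h2
      rw [eventually_nhdsWithin_iff] at h4
      filter_upwards [(continuous_snd.tendsto p).eventually h4] with q h5 h6 h7 h8
      have h9 : q = (0, q.2) := Prod.ext h6 rfl
      refine h5 (fun h10 => h7 ?_) ?_
      · rw [h9, show q.2 = p.2 from h10, hp]
      · rw [← h9]
        exact h8
    · filter_upwards [(continuous_fst.continuousAt (x := p)).eventually_ne h1] with q h2 h3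
      exact absurd h3 h2
  have k2 : ∀ᶠ q in 𝓝 p, q.2 = 0 → q ≠ p → f q ≠ 0 := by
    by_cases h1 : p.2 = 0
    · have h2 : ¬ ∀ᶠ t in 𝓝 p.1, f (t, 0) = 0 := hc2.resolve_left (not_not.2 h1)
      have hp : (p.1, (0 : ℂ)) = p := by rw [← h1]
      have h3 : AnalyticAt ℂ (fun t : ℂ => f (t, 0)) p.1 :=
        AnalyticAt.comp (g := f) (f := fun t : ℂ => (t, (0 : ℂ))) (by rw [hp]; exact hf) (by fun_prop)
      have h4 := (h3.eventually_eq_zero_or_eventually_ne_zero).resolve_left h2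
      rw [eventually_nhdsWithin_iff] at h4
      filter_upwards [(continuous_fst.tendsto p).eventually h4] with q h5 h6 h7 h8
      have h9 : q = (q.1, 0) := Prod.ext rfl h6
      refine h5 (fun h10 => h7 ?_) ?_
      · rw [h9, show q.1 = p.1 from h10, hp]
      · rw [← h9]
        exact h8
    · filter_upwards [(continuous_snd.continuousAt (x := p)).eventually_ne h1] with q h2 h3
      exact absurd h3 h2
  refine frequently_zero_at hf h0 ?_
  filter_upwards [hz, k1, k2] with q h1 h2 h3 h4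
  rcases mul_eq_zero.1 (h1 h4.2) with h5 | h5
  · exact h2 h5 h4.1 h4.2
  · exact h3 h5 h4.1 h4.2

/-- the bound of a form with poles near a point -/
theorem pole_local {V : Type} [NormedAddCommGroup V] [NormedSpace ℂ V] {X K : Set V} {e : ℕ} {Ω : V → V → V → ℂ} (h : PoleLE X K e Ω)
    {φ : ℂ × ℂ → V} {p : ℂ × ℂ} (hφ : AnalyticAt ℂ φ p) (hX : ∀ᶠ y in 𝓝 p, φ y ∈ X) {g : ℂ × ℂ → ℂ} (hg : AnalyticAt ℂ g p)
    (hg0 : ∀ᶠ y in 𝓝 p, φ y ∉ K → g y = 0) :
    ∃ C : ℝ, ∀ᶠ y in 𝓝 p, φ y ∈ K → ‖g y‖ ^ e * ‖Ω (φ y) (fderiv ℂ φ y (1, 0)) (fderiv ℂ φ y (0, 1))‖ ≤ C := by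
  obtain ⟨b, hb, hbe⟩ := h.pow hφ hX hg hg0
  refine ⟨‖b p‖ + 1, ?_⟩
  filter_upwards [hbe, hb.continuousAt.norm.eventually_lt continuousAt_const (lt_add_one _)] with y h1 h2 h3
  rw [← norm_pow, ← norm_mul, ← h1 h3]
  exact h2.le

end Pool.Agent.MQL

end
end

section

/-!
# MQL RegDA: the potential `ramp (log (|y| / ρ) / log 2)`

`ramp` is concave, `0` for `t ≥ 0`, of slope `1` for `t ≤ -1`.  For a holomorphic function `y` the Laplacian of the potential lives in the shell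
`ρ / 2 ≤ |y| ≤ ρ`, where it is bounded by `|y' / y|²`, with a constant which does not depend on `ρ`.
-/

set_option autoImplicit false

open Topology Filter Metric MeasureTheory Asymptotics Laplacian

noncomputable section

namespace Pool.Agent.MQL

open Pool.Agent.H30M (LogSing)
open Pool.Agent.MQ

/-- concave, `0` for `t ≥ 0`, of slope `1` for `t ≤ -1` -/
def ramp (t : ℝ) : ℝ := ∫ u in (0 : ℝ)..t, (1 - Real.smoothTransition (1 + u))

theorem ramp_cont : Continuous fun u : ℝ => 1 - Real.smoothTransition (1 + u) := by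
  have h1 : Continuous Real.smoothTransition := (Real.smoothTransition.contDiff (n := 0)).continuous
  exact continuous_const.sub (h1.comp (continuous_const.add continuous_id))

theorem hasDerivAt_ramp (t : ℝ) : HasDerivAt ramp (1 - Real.smoothTransition (1 + t)) t :=
  (ramp_cont.integral_hasStrictDerivAt 0 t).hasDerivAt

theorem deriv_ramp : deriv ramp = fun t => 1 - Real.smoothTransition (1 + t) := funext fun t => (hasDerivAt_ramp t).deriv

theorem contDiff_st1 : ContDiff ℝ 1 fun u : ℝ => 1 - Real.smoothTransition (1 + u) :=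
  contDiff_const.sub ((Real.smoothTransition.contDiff (n := 1)).comp (contDiff_const.add contDiff_id))

theorem contDiff_ramp : ContDiff ℝ 2 ramp := by
  have h1 : ContDiff ℝ (1 + 1) ramp := by
    rw [contDiff_succ_iff_deriv]
    refine ⟨fun t => (hasDerivAt_ramp t).differentiableAt, fun h => by simp at h, ?_⟩
    rw [deriv_ramp]
    exact contDiff_st1
  exact h1.of_le (by norm_num)

theorem deriv2_ramp (t : ℝ) : deriv (deriv ramp) t = -deriv Real.smoothTransition (1 + t) := by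
  rw [deriv_ramp]
  have h1 : HasDerivAt Real.smoothTransition (deriv Real.smoothTransition (1 + t)) (1 + t) :=
    ((Real.smoothTransition.contDiff (n := 1)).differentiable (by norm_num) _).hasDerivAt
  have h2 : HasDerivAt (fun u : ℝ => 1 + u) 1 t := (hasDerivAt_id t).const_add 1
  have h3 : HasDerivAt (fun u : ℝ => Real.smoothTransition (1 + u)) (deriv Real.smoothTransition (1 + t) * 1) t :=
    HasDerivAt.comp (h₂ := Real.smoothTransition) t h1 h2
  rw [(h3.const_sub 1).deriv, mul_one]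

theorem deriv2_ramp_nonpos (t : ℝ) : deriv (deriv ramp) t ≤ 0 := by
  rw [deriv2_ramp, neg_nonpos]
  exact Pool.Agent.H30M.deriv_st_nonneg _

theorem deriv2_ramp_zero {t : ℝ} (h : t ≤ -1 ∨ 0 ≤ t) : deriv (deriv ramp) t = 0 := by
  rw [deriv2_ramp, neg_eq_zero]
  refine Pool.Agent.H30M.deriv_st_eq_zero ?_
  rcases h with h | h
  · left; linarith
  · right; linarith

theorem ramp_of_nonneg {t : ℝ} (ht : 0 ≤ t) : ramp t = 0 := by
  unfold ramp
  have h1 : ∫ u in (0 : ℝ)..t, (1 - Real.smoothTransition (1 + u)) = ∫ _ in (0 : ℝ)..t, (0 : ℝ) := by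
    refine intervalIntegral.integral_congr fun u hu => ?_
    rw [Set.uIcc_of_le ht] at hu
    rw [Real.smoothTransition.one_of_one_le (by linarith [hu.1]), sub_self]
  rw [h1, intervalIntegral.integral_zero]

/-- the constant of the linear part -/
def rc : ℝ := ramp (-1) + 1

theorem ramp_of_le {t : ℝ} (ht : t ≤ -1) : ramp t = t + rc := by
  have h0 : ramp t = ramp (-1) + ∫ u in (-1 : ℝ)..t, (1 - Real.smoothTransition (1 + u)) := by
    unfold ramp
    exact (intervalIntegral.integral_add_adjacent_intervals (ramp_cont.intervalIntegrable _ _) (ramp_cont.intervalIntegrable _ _)).symm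
  have h1 : ∫ u in (-1 : ℝ)..t, (1 - Real.smoothTransition (1 + u)) = ∫ _ in (-1 : ℝ)..t, (1 : ℝ) := by
    refine intervalIntegral.integral_congr fun u hu => ?_
    rw [Set.uIcc_of_ge ht] at hu
    rw [Real.smoothTransition.zero_of_nonpos (by linarith [hu.2]), sub_zero]
  rw [h0, h1, intervalIntegral.integral_const, rc]
  simp only [smul_eq_mul, mul_one]
  ring

theorem ramp_nonpos (t : ℝ) : ramp t ≤ 0 := by
  rcases le_total 0 t with h | h
  · rw [ramp_of_nonneg h]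
  · unfold ramp
    rw [intervalIntegral.integral_symm, neg_nonpos]
    exact intervalIntegral.integral_nonneg h fun u _ => sub_nonneg.2 (Real.smoothTransition.le_one _)

/-! ## the potential -/

/-- the scale -/
def pT (ρ : ℝ) (y : ℂ → ℂ) (z : ℂ) : ℝ := (Real.log ‖y z‖ - Real.log ρ) / Real.log 2

/-- the potential -/
def pot (ρ : ℝ) (y : ℂ → ℂ) (z : ℂ) : ℝ := ramp (pT ρ y z)

/-- its Laplacian with the opposite sign -/
def perr (ρ : ℝ) (y : ℂ → ℂ) (z : ℂ) : ℝ := -deriv (deriv ramp) (pT ρ y z) * (‖deriv y z / y z‖ / Real.log 2) ^ 2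

theorem log2_pos : 0 < Real.log 2 := Real.log_pos one_lt_two

variable {ρ : ℝ} {y : ℂ → ℂ} {z : ℂ}

theorem pT_le (hρ : 0 < ρ) (h0 : y z ≠ 0) (h : ‖y z‖ ≤ ρ / 2) : pT ρ y z ≤ -1 := by
  have h1 := Real.log_le_log (norm_pos_iff.2 h0) h
  rw [Real.log_div hρ.ne' two_ne_zero] at h1
  unfold pT
  rw [div_le_iff₀ log2_pos]
  linarith

theorem pT_ge (hρ : 0 < ρ) (h : ρ ≤ ‖y z‖) : 0 ≤ pT ρ y z := by
  have h1 := Real.log_le_log hρ h
  unfold pT
  exact div_nonneg (by linarith) log2_pos.le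

theorem pot_nonpos : pot ρ y z ≤ 0 := ramp_nonpos _

theorem pot_of_le (hρ : 0 < ρ) (h0 : y z ≠ 0) (h : ‖y z‖ ≤ ρ / 2) : pot ρ y z = (Real.log ‖y z‖ - Real.log ρ) / Real.log 2 + rc :=
  ramp_of_le (pT_le hρ h0 h)

theorem pot_of_ge (hρ : 0 < ρ) (h : ρ ≤ ‖y z‖) : pot ρ y z = 0 := ramp_of_nonneg (pT_ge hρ h)

theorem perr_nonneg : 0 ≤ perr ρ y z := mul_nonneg (neg_nonneg.2 (deriv2_ramp_nonpos _)) (sq_nonneg _)

theorem perr_eq_zero (hρ : 0 < ρ) (h : ‖y z‖ ≤ ρ / 2 ∨ ρ ≤ ‖y z‖) : perr ρ y z = 0 := by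
  unfold perr
  by_cases h0 : y z = 0
  · rw [h0, div_zero, norm_zero, zero_div, zero_pow two_ne_zero, mul_zero]
  rcases h with h | h
  · rw [deriv2_ramp_zero (Or.inl (pT_le hρ h0 h)), neg_zero, zero_mul]
  · rw [deriv2_ramp_zero (Or.inr (pT_ge hρ h)), neg_zero, zero_mul]

theorem perr_le {M : ℝ} (hM : ∀ t, deriv Real.smoothTransition t ≤ M) : perr ρ y z ≤ M / Real.log 2 ^ 2 * ‖deriv y z / y z‖ ^ 2 := by
  unfold perr
  rw [deriv2_ramp, neg_neg, div_pow]
  have h1 := hM (1 + pT ρ y z)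
  have h2 : 0 ≤ ‖deriv y z / y z‖ ^ 2 / Real.log 2 ^ 2 := by positivity
  calc deriv Real.smoothTransition (1 + pT ρ y z) * (‖deriv y z / y z‖ ^ 2 / Real.log 2 ^ 2) ≤ M * (‖deriv y z / y z‖ ^ 2 / Real.log 2 ^ 2) :=
        mul_le_mul_of_nonneg_right h1 h2
    _ = _ := by ring

theorem contDiffAt_log_y (hy : AnalyticAt ℂ y z) (h0 : y z ≠ 0) : ContDiffAt ℝ 2 (fun w => Real.log ‖y w‖) z :=
  Pool.Agent.H30M.contDiffAt_log_norm hy h0

theorem contDiffAt_pT (hy : AnalyticAt ℂ y z) (h0 : y z ≠ 0) : ContDiffAt ℝ 2 (pT ρ y) z :=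
  ((contDiffAt_log_y hy h0).sub contDiffAt_const).div_const _

theorem contDiffAt_pot (hy : AnalyticAt ℂ y z) (h0 : y z ≠ 0) : ContDiffAt ℝ 2 (pot ρ y) z :=
  contDiff_ramp.contDiffAt.comp z (contDiffAt_pT hy h0)

theorem gr_pT (hy : AnalyticAt ℂ y z) (h0 : y z ≠ 0) : gr (pT ρ y) z = (((Real.log 2)⁻¹ : ℝ) : ℂ) * (starRingEnd ℂ) (deriv y z / y z) := by
  have h1 : pT ρ y = fun w => (Real.log 2)⁻¹ * (Real.log ‖y w‖ - Real.log ρ) := by
    funext w
    unfold pT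
    ring
  have h2 : DifferentiableAt ℝ (fun w => Real.log ‖y w‖) z := (contDiffAt_log_y hy h0).differentiableAt (by norm_num)
  rw [h1, gr_const_mul _ (h2.sub_const _), gr_sub h2 (differentiableAt_const _), gr_const, sub_zero, gr_log_norm hy.differentiableAt h0]

theorem lap_pT (hy : AnalyticAt ℂ y z) (h0 : y z ≠ 0) : Δ (pT ρ y) z = 0 := by
  have h3 : (gr (pT ρ y)) =ᶠ[𝓝 z] fun w => (((Real.log 2)⁻¹ : ℝ) : ℂ) * (starRingEnd ℂ) (deriv y w / y w) := by
    filter_upwards [hy.eventually_analyticAt, hy.continuousAt.eventually_ne h0] with w h1 h2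
    exact gr_pT h1 h2
  have h4 : AnalyticAt ℂ (fun w => deriv y w / y w) z := hy.deriv.div hy h0
  rw [← lp_eq_lap (contDiffAt_pT hy h0)]
  unfold Pool.Agent.MQ.lp
  rw [dv_congr h3, dv_const_mul _ ((contDiffAt_conj_holo (n := 1) h4).differentiableAt (by norm_num)), dv_conj h4.differentiableAt, mul_zero]

/-- the Laplacian of the potential -/
theorem lap_pot (hy : AnalyticAt ℂ y z) (h0 : y z ≠ 0) : Δ (pot ρ y) z = -perr ρ y z := by
  have h1 : Δ (fun w => ramp (pT ρ y w)) z = deriv ramp (pT ρ y z) * Δ (pT ρ y) z + deriv (deriv ramp) (pT ρ y z) * Pool.Agent.H30M.gg (pT ρ y) (pT ρ y) z :=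
    Pool.Agent.H30M.lap_comp contDiff_ramp.contDiffAt (contDiffAt_pT hy h0)
  have h2 : Δ (pot ρ y) z = Δ (fun w => ramp (pT ρ y w)) z := rfl
  rw [h2, h1, lap_pT hy h0, gg_self, gr_pT hy h0, norm_mul, Complex.norm_real, RCLike.norm_conj, Real.norm_of_nonneg (inv_nonneg.2 log2_pos.le), perr]
  ring

/-- near a zero of `y` -/
theorem ev_small (hρ : 0 < ρ) (hy : ContinuousAt y z) (h0 : y z = 0) : ∀ᶠ w in 𝓝 z, ‖y w‖ ≤ ρ / 2 := by
  have h1 : ∀ᶠ w in 𝓝 z, ‖y w‖ < ρ / 2 := hy.norm.eventually (gt_mem_nhds (by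
    show ‖y z‖ < ρ / 2
    rw [h0, norm_zero]
    positivity))
  exact h1.mono fun w hw => hw.le

theorem continuousAt_perr (hρ : 0 < ρ) (hy : AnalyticAt ℂ y z) : ContinuousAt (perr ρ y) z := by
  by_cases h0 : y z = 0
  · have h1 : perr ρ y =ᶠ[𝓝 z] fun _ => 0 := by
      filter_upwards [ev_small hρ hy.continuousAt h0] with w hw
      exact perr_eq_zero hρ (Or.inl hw)
    exact continuousAt_const.congr h1.symm
  · have h1 : ContinuousAt (deriv (deriv ramp)) (pT ρ y z) := by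
      have h2 : deriv (deriv ramp) = fun t => -deriv Real.smoothTransition (1 + t) := funext deriv2_ramp
      rw [h2]
      have h3 : Continuous (deriv Real.smoothTransition) := (Real.smoothTransition.contDiff (n := 1)).continuous_deriv (by norm_num)
      exact ((h3.comp (continuous_const.add continuous_id)).neg).continuousAt
    have h2 : ContinuousAt (fun w => deriv (deriv ramp) (pT ρ y w)) z :=
      ContinuousAt.comp (f := pT ρ y) (g := deriv (deriv ramp)) h1 (contDiffAt_pT hy h0).continuousAt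
    have h3 : AnalyticAt ℂ (fun w => deriv y w / y w) z := hy.deriv.div hy h0
    exact h2.neg.mul ((h3.continuousAt.norm.div_const _).pow 2)

/-- near a zero of finite order the potential has a logarithmic singularity -/
theorem pot_logSing (hρ : 0 < ρ) (hy : AnalyticAt ℂ y z) (h0 : y z = 0) (hne : ∃ᶠ w in 𝓝 z, y w ≠ 0) :
    ∃ c : ℝ, 0 < c ∧ LogSing (pot ρ y) c z := by
  obtain ⟨k, g, hg, hg0, he⟩ := hy.exists_eventuallyEq_pow_smul_nonzero_iff.2 (by
    intro h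
    exact hne (h.mono fun w hw h1 => h1 hw))
  have hk : 1 ≤ k := by
    by_contra hk
    have hk0 : k = 0 := by omega
    have h1 := he.self_of_nhds
    rw [hk0, pow_zero, one_smul, h0] at h1
    exact hg0 h1.symm
  have hgl : ContDiffAt ℝ 2 (fun w => Real.log ‖g w‖) z := contDiffAt_log_y hg hg0
  refine ⟨k / Real.log 2, div_pos (by exact_mod_cast hk) log2_pos, fun w => (Real.log ‖g w‖ - Real.log ρ) / Real.log 2 + rc,
    (((hgl.sub contDiffAt_const).div_const _).add contDiffAt_const), ?_⟩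
  have h3 : ∀ᶠ w in 𝓝[≠] z, g w ≠ 0 := (hg.continuousAt.eventually_ne hg0).filter_mono nhdsWithin_le_nhds
  filter_upwards [he.filter_mono nhdsWithin_le_nhds, h3, self_mem_nhdsWithin, (ev_small hρ hy.continuousAt h0).filter_mono nhdsWithin_le_nhds] with w e hne hw hs
  have hz : ‖w - z‖ ≠ 0 := norm_ne_zero_iff.2 (sub_ne_zero.2 hw)
  have hyw : y w ≠ 0 := by
    rw [e]
    exact smul_ne_zero (pow_ne_zero _ (sub_ne_zero.2 hw)) hne
  rw [pot_of_le hρ hyw hs, e, norm_smul, norm_pow, Real.log_mul (pow_ne_zero _ hz) (norm_ne_zero_iff.2 hne), Real.log_pow]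
  ring

/-- the facts about a multiple of the potential -/
theorem pot_facts (hρ : 0 < ρ) (hy : AnalyticAt ℂ y z) (a : ℝ) :
    (∃ c, LogSing (fun w => a * pot ρ y w) c z) ∧ (ContDiffAt ℝ 2 (fun w => a * pot ρ y w) z → Δ (fun w => a * pot ρ y w) z + a * perr ρ y z = 0) := by
  by_cases h0 : y z = 0
  · by_cases hne : ∃ᶠ w in 𝓝 z, y w ≠ 0
    · obtain ⟨c, hc, hL⟩ := pot_logSing hρ hy h0 hne
      obtain ⟨s, hs, he⟩ := hL
      have hL2 : LogSing (fun w => a * pot ρ y w) (a * c) z := by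
        refine ⟨fun w => a * s w, contDiffAt_const.mul hs, ?_⟩
        filter_upwards [he] with w hw
        rw [hw]
        ring
      refine ⟨⟨_, hL2⟩, fun hC => ?_⟩
      have h1 := Pool.Agent.MQ3.logSing_unique hL2 (LogSing.of_contDiffAt hC)
      have h2 : a = 0 := (mul_eq_zero.1 h1).resolve_right hc.ne'
      have h3 : (fun w => a * pot ρ y w) = fun _ => (0 : ℝ) := by
        funext w
        rw [h2, zero_mul]
      have h4 : Δ (fun _ : ℂ => (0 : ℝ)) z = 0 := by simp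
      rw [h3, h4, h2, zero_mul, add_zero]
    · have h1 : ∀ᶠ w in 𝓝 z, y w = 0 := by
        rw [not_frequently] at hne
        exact hne.mono fun w hw => not_not.1 hw
      have h2 : (fun w => a * pot ρ y w) =ᶠ[𝓝 z] fun _ => a * ramp ((Real.log 0 - Real.log ρ) / Real.log 2) := by
        filter_upwards [h1] with w hw
        unfold pot pT
        rw [hw, norm_zero]
      refine ⟨⟨0, LogSing.of_contDiffAt (contDiffAt_const.congr_of_eventuallyEq h2)⟩, fun _ => ?_⟩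
      rw [Pool.Agent.H30M.lap_congr h2, perr_eq_zero hρ (Or.inl (by rw [h0, norm_zero]; positivity))]
      simp
  · have h1 : ContDiffAt ℝ 2 (pot ρ y) z := contDiffAt_pot hy h0
    refine ⟨⟨0, LogSing.of_contDiffAt (contDiffAt_const.mul h1)⟩, fun _ => ?_⟩
    rw [Pool.Agent.H30M.lap_const_mul h1 a, lap_pot hy h0]
    ring

/-- at a zero of finite order the potential is not of class `C²` -/
theorem pot_not_contDiffAt (hρ : 0 < ρ) (hy : AnalyticAt ℂ y z) (h0 : y z = 0) (hne : ∃ᶠ w in 𝓝 z, y w ≠ 0) {a : ℝ} (ha : 0 < a) :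
    ¬ ContDiffAt ℝ 2 (fun w => a * pot ρ y w) z := by
  intro hC
  obtain ⟨c, hc, s, hs, he⟩ := pot_logSing hρ hy h0 hne
  have hL2 : LogSing (fun w => a * pot ρ y w) (a * c) z := by
    refine ⟨fun w => a * s w, contDiffAt_const.mul hs, ?_⟩
    filter_upwards [he] with w hw
    rw [hw]
    ring
  have h1 := Pool.Agent.MQ3.logSing_unique hL2 (LogSing.of_contDiffAt hC)
  exact (mul_pos ha hc).ne' h1

end Pool.Agent.MQL

end
end
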