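import Pool.Agent.H43.TL2.M03
import Pool.Agent.H43.TL2.M04
import Pool.Agent.H43.TL2.M10
import Pool.Agent.H43.TL2.M18

/-! The parts of this file: H17BP.Same, H17EF.Alg, H23.LogDer, H23.Forms, H14.PP.DomN, H14.PP.Dom, H90.SG.CoNe, H92.GT.Homogenize, H94.Jac, MQ.AsmB0, MQ.KF, MQ.LeafDisc, MQ3.EnL, MQ3.GlobD, MQ3.WPoly, MQL.DensD, SY.EiQ. -/

section

/-!
# The same exceptional set

If holomorphic maps from the punctured disc to a surface extend, unless they are maps into a hypersurface, then they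
extend unless they are maps into the set which contains the entire curves.
-/

open Topology Filter MvPolynomial

noncomputable section

namespace Pool.Agent.H17BP

open Pool.Agent.H17 (PN VanishesAt ZariskiClosedIn HolomorphicInto puncturedDisc)

variable {N : ℕ} {P : Ideal (MvPolynomial (Fin (N + 1)) ℂ)}

theorem isPreconnected_puncturedDisc : IsPreconnected puncturedDisc := by
  have h : puncturedDisc = Complex.exp '' {z : ℂ | z.re < 0} := by
    ext z
    constructor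
    · rintro ⟨h1, h2⟩
      have h3 : z ≠ 0 := h2
      refine ⟨Complex.log z, ?_, Complex.exp_log h3⟩
      rw [mem_ball_zero_iff] at h1
      change (Complex.log z).re < 0
      rw [Complex.log_re]
      exact Real.log_neg (norm_pos_iff.mpr h3) h1
    · rintro ⟨w, hw, rfl⟩
      refine ⟨?_, Complex.exp_ne_zero w⟩
      rw [mem_ball_zero_iff, Complex.norm_exp]
      have h1 := Real.exp_lt_exp.mpr hw
      rwa [Real.exp_zero] at h1
  rw [h]
  exact (convex_halfSpace_re_lt 0).isPreconnected.image Complex.exp Complex.continuous_exp.continuousOn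

end Pool.Agent.H17BP

end
end

section

/-!
# EF Alg: doubly periodic entire curves of order two on a surface are algebraically degenerate
-/

set_option autoImplicit false

open MvPolynomial

noncomputable section

namespace Pool.Agent.H17EF

open Metric Filter Topology

variable {N : ℕ}

theorem eval_smul_form {d : ℕ} {Q : MvPolynomial (Fin (N + 1)) ℂ} (hQ : Q.IsHomogeneous d) (c : ℂ)
    (x : Fin (N + 1) → ℂ) : eval (c • x) Q = c ^ d * eval x Q := by
  rw [MvPolynomial.eval_eq', MvPolynomial.eval_eq', Finset.mul_sum]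
  apply Finset.sum_congr rfl
  intro m hm
  have hdeg : ∑ i, m i = d := by
    have := hQ (MvPolynomial.mem_support_iff.1 hm)
    rw [Finsupp.weight_apply] at this
    simpa [Finsupp.sum_fintype] using this
  have h1 : ∏ i, (c • x) i ^ m i = c ^ d * ∏ i, x i ^ m i := by
    rw [← hdeg, ← Finset.prod_pow_eq_pow_sum, ← Finset.prod_mul_distrib]
    exact Finset.prod_congr rfl fun i _ => by simp [mul_pow]
  rw [h1]
  ring

theorem analyticAt_eval {F : ℂ → Fin (N + 1) → ℂ} {z₀ : ℂ} (hF : AnalyticAt ℂ F z₀) (Q : MvPolynomial (Fin (N + 1)) ℂ) :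
    AnalyticAt ℂ (fun z => eval (F z) Q) z₀ := by
  have h1 : AnalyticAt ℂ (fun x : Fin (N + 1) → ℂ => eval x Q) (F z₀) := by
    have := AnalyticAt.aeval_mvPolynomial (𝕜 := ℂ) (A := ℂ) (f := fun (x : Fin (N + 1) → ℂ) i => x i) (z := F z₀)
      (fun i => (ContinuousLinearMap.proj (R := ℂ) (φ := fun _ : Fin (N + 1) => ℂ) i).analyticAt _) Q
    simpa [MvPolynomial.aeval_eq_eval] using this
  exact h1.comp hF

/-- a bound for a polynomial on the unit ball -/
theorem exists_bound (Q : MvPolynomial (Fin (N + 1)) ℂ) : ∃ B : ℝ, 0 < B ∧ ∀ x : Fin (N + 1) → ℂ, ‖x‖ ≤ 1 → ‖eval x Q‖ ≤ B := by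
  have hc : Continuous fun x : Fin (N + 1) → ℂ => ‖eval x Q‖ := (MvPolynomial.continuous_eval Q).norm
  obtain ⟨B, hB⟩ := (isCompact_closedBall (0 : Fin (N + 1) → ℂ) 1).exists_bound_of_continuousOn hc.continuousOn
  refine ⟨max B 1, by positivity, fun x hx => ?_⟩
  have := hB x (by rwa [mem_closedBall_zero_iff])
  rw [norm_norm] at this
  exact this.trans (le_max_left _ _)

end Pool.Agent.H17EF

end
end

section

open Polynomial

set_option linter.style.haveILetI false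

noncomputable section

namespace Pool.Agent.H23

variable {K : Type*} [Field K] [Algebra ℂ K] (v : AddValuation K (WithTop ℤ))

/-! ### elementary facts on discrete valuations -/

omit [Algebra ℂ K] in
lemma exists_int {f : K} (h : f ≠ 0) : ∃ k : ℤ, v f = k := by
  have := (v.ne_top_iff).2 h
  exact ⟨(v f).untop this, by simp⟩

lemma one_le_of_pos {a : WithTop ℤ} (h : 0 < a) : 1 ≤ a := by
  induction a using WithTop.recTopCoe with
  | top => exact le_top
  | coe a =>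
    have : (0 : ℤ) < a := by exact_mod_cast h
    exact_mod_cast this

section poly

variable {σ : Type*} (s : σ → K) (t : K)

/-- evaluation `ℂ[s][t] → K` -/
def ev : (MvPolynomial σ ℂ)[X] →+* K :=
  Polynomial.eval₂RingHom (MvPolynomial.aeval s).toRingHom t

lemma ev_C (p : MvPolynomial σ ℂ) : ev s t (C p) = MvPolynomial.aeval s p := by
  simp [ev]

lemma ev_X : ev s t X = t := by simp [ev]

lemma ev_decomp (q : (MvPolynomial σ ℂ)[X]) :
    ev s t q = ev s t q.divX * t + MvPolynomial.aeval s (q.coeff 0) := by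
  conv_lhs => rw [← Polynomial.divX_mul_X_add q]
  rw [map_add, map_mul, ev_X, ev_C]

variable {s t} (hs : ∀ p : MvPolynomial σ ℂ, p ≠ 0 → v (MvPolynomial.aeval s p) = 0)
  (ht : v t = 1)

include hs in
lemma val_aeval_nonneg (p : MvPolynomial σ ℂ) : 0 ≤ v (MvPolynomial.aeval s p) := by
  by_cases h : p = 0
  · simp [h]
  · rw [hs p h]

include hs ht in
lemma val_ev_nonneg (q : (MvPolynomial σ ℂ)[X]) : 0 ≤ v (ev s t q) := by
  induction q using Polynomial.induction_on' with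
  | add p q hp hq =>
    rw [map_add]
    exact v.map_le_add hp hq
  | monomial n a =>
    rw [← Polynomial.C_mul_X_pow_eq_monomial, map_mul, map_pow, ev_X, ev_C, v.map_mul, v.map_pow, ht]
    have := val_aeval_nonneg v hs a
    exact add_nonneg this (by simp)

include hs ht in
lemma val_ev_sub (q : (MvPolynomial σ ℂ)[X]) :
    1 ≤ v (ev s t q - MvPolynomial.aeval s (q.coeff 0)) := by
  rw [ev_decomp, add_sub_cancel_right, v.map_mul, ht]
  exact le_add_of_nonneg_left (val_ev_nonneg v hs ht _)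

include hs ht in
lemma val_ev_eq_zero {q : (MvPolynomial σ ℂ)[X]} (hq : q.coeff 0 ≠ 0) : v (ev s t q) = 0 := by
  have h1 := val_ev_sub v hs ht q
  have h2 : ev s t q = MvPolynomial.aeval s (q.coeff 0) +
    (ev s t q - MvPolynomial.aeval s (q.coeff 0)) := by ring
  rw [h2, v.map_add_eq_of_lt_left, hs _ hq]
  rw [hs _ hq]
  exact lt_of_lt_of_le (by norm_num) h1

include hs ht in
lemma ev_injective : Function.Injective (ev s t) := by
  rw [injective_iff_map_eq_zero]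
  intro q hq
  by_contra hne
  obtain ⟨n, q', h1, h2⟩ := WfDvdMonoid.max_power_factor hne (Polynomial.prime_X (R := MvPolynomial σ ℂ)).irreducible
  have h3 : q'.coeff 0 ≠ 0 := fun h => h1 (Polynomial.X_dvd_iff.2 h)
  have h4 := val_ev_eq_zero v hs ht h3
  have ht0 : t ≠ 0 := by
    rintro rfl
    simp at ht
  rw [h2, map_mul, map_pow, ev_X] at hq
  rcases mul_eq_zero.1 hq with h | h
  · exact pow_ne_zero n ht0 h
  · rw [h] at h4; simp at h4

end poly

/-! ### algebraic elements -/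

section alg

variable {σ : Type*} {s : σ → K} {t : K}
  (hs : ∀ p : MvPolynomial σ ℂ, p ≠ 0 → v (MvPolynomial.aeval s p) = 0)
  (ht : v t = 1)

/-- an element which is algebraic over `ℂ[s,t]` satisfies an equation one of whose coefficients
is a unit at `v` -/
lemma exists_primitive {f : K} {F : (MvPolynomial σ ℂ)[X][X]} (hF : F ≠ 0)
    (hFf : F.eval₂ (ev s t) f = 0) (ht0 : t ≠ 0) :
    ∃ G : (MvPolynomial σ ℂ)[X][X], G.eval₂ (ev s t) f = 0 ∧ ∃ i, (G.coeff i).coeff 0 ≠ 0 := by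
  obtain ⟨n, G, h1, h2⟩ := WfDvdMonoid.max_power_factor hF
    (Polynomial.prime_C_iff.2 (Polynomial.prime_X (R := MvPolynomial σ ℂ))).irreducible
  refine ⟨G, ?_, ?_⟩
  · rw [h2, eval₂_mul, eval₂_pow, eval₂_C, ev_X] at hFf
    rcases mul_eq_zero.1 hFf with h | h
    · exact absurd h (pow_ne_zero n ht0)
    · exact h
  · by_contra hcon
    push Not at hcon
    apply h1
    rw [Polynomial.C_dvd_iff_dvd_coeff]
    intro i
    exact Polynomial.X_dvd_iff.2 (hcon i)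

include hs ht in
/-- reduction of the equation modulo `t` -/
lemma exists_red {f : K} (hf : 0 ≤ v f) {F : (MvPolynomial σ ℂ)[X][X]} (hF : F ≠ 0)
    (hFf : F.eval₂ (ev s t) f = 0) :
    ∃ G : (MvPolynomial σ ℂ)[X], G ≠ 0 ∧ 1 ≤ v (G.eval₂ (MvPolynomial.aeval s).toRingHom f) := by
  have ht0 : t ≠ 0 := by
    rintro rfl
    simp at ht
  obtain ⟨G, hG1, i, hG2⟩ := exists_primitive hF hFf ht0
  refine ⟨G.map (Polynomial.constantCoeff), ?_, ?_⟩
  · intro h
    apply hG2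
    have := congrArg (fun q => q.coeff i) h
    simpa using this
  · have h3 : (G.map (Polynomial.constantCoeff)).eval₂ (MvPolynomial.aeval s).toRingHom f =
        - ∑ e ∈ G.support, (ev s t (G.coeff e) - MvPolynomial.aeval s ((G.coeff e).coeff 0)) * f ^ e := by
      have h4 : G.eval₂ (ev s t) f = ∑ e ∈ G.support, (ev s t (G.coeff e)) * f ^ e := by
        rw [eval₂_eq_sum, Polynomial.sum_def]
      rw [Polynomial.eval₂_map, eval₂_eq_sum, Polynomial.sum_def]
      simp only [sub_mul, Finset.sum_sub_distrib]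
      rw [← h4, hG1]
      simp
    rw [h3, v.map_neg]
    apply v.map_le_sum
    intro e _
    rw [v.map_mul, v.map_pow]
    exact le_trans (val_ev_sub v hs ht _) (le_add_of_nonneg_right (nsmul_nonneg hf _))

lemma eval2_nonneg (hs : ∀ p : MvPolynomial σ ℂ, 0 ≤ v (MvPolynomial.aeval s p))
    {f : K} (hf : 0 ≤ v f) (G : (MvPolynomial σ ℂ)[X]) :
    0 ≤ v (G.eval₂ (MvPolynomial.aeval s).toRingHom f) := by
  rw [eval₂_eq_sum, Polynomial.sum_def]
  apply v.map_le_sum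
  intro e _
  rw [v.map_mul, v.map_pow]
  exact add_nonneg (hs _) (nsmul_nonneg hf _)

include hs ht in
/-- a separable equation modulo `t` -/
lemma exists_sep {f : K} (hf : 0 ≤ v f) {F : (MvPolynomial σ ℂ)[X][X]} (hF : F ≠ 0)
    (hFf : F.eval₂ (ev s t) f = 0) :
    ∃ G : (MvPolynomial σ ℂ)[X], 1 ≤ v (G.eval₂ (MvPolynomial.aeval s).toRingHom f) ∧
      v (G.derivative.eval₂ (MvPolynomial.aeval s).toRingHom f) = 0 := by
  classical
  have hex := exists_red v hs ht hf hF hFf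
  have hex' : ∃ d : ℕ, ∃ G : (MvPolynomial σ ℂ)[X], G.natDegree = d ∧ G ≠ 0 ∧
      1 ≤ v (G.eval₂ (MvPolynomial.aeval s).toRingHom f) := by
    obtain ⟨G, h⟩ := hex
    exact ⟨_, G, rfl, h⟩
  obtain ⟨G, h1, h2, h3⟩ := Nat.find_spec hex'
  refine ⟨G, h3, ?_⟩
  have hdeg : G.natDegree ≠ 0 := by
    intro h0
    rw [Polynomial.eq_C_of_natDegree_eq_zero h0] at h3 h2
    rw [eval₂_C] at h3
    have h4 : G.coeff 0 ≠ 0 := by
      intro h; apply h2; rw [h]; simp
    have h5 := hs _ h4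
    change 1 ≤ v (MvPolynomial.aeval s (G.coeff 0)) at h3
    rw [h5] at h3
    exact absurd h3 (by norm_num)
  have hder : G.derivative ≠ 0 := by
    intro h
    exact hdeg (Polynomial.derivative_eq_zero.1 h)
  have hlt : G.derivative.natDegree < G.natDegree := Polynomial.natDegree_derivative_lt hdeg
  have hmin := Nat.find_min hex' (m := G.derivative.natDegree) (by rw [← h1]; exact hlt)
  have h6 : ¬ (1 ≤ v (G.derivative.eval₂ (MvPolynomial.aeval s).toRingHom f)) := fun h =>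
    hmin ⟨_, rfl, hder, h⟩
  have h7 := eval2_nonneg v (val_aeval_nonneg v hs) hf G.derivative
  rcases h7.lt_or_eq with h | h
  · exact absurd (one_le_of_pos h) h6
  · exact h.symm

end alg

/-! ### elements of the valuation ring are fractions of integral elements -/

section horner

variable {R : Type*} [CommRing R] [Algebra R K]

omit [Algebra ℂ K] in
lemma horner_aux (hB : ∀ b ∈ integralClosure R K, 0 ≤ v b) {f : K} (hf : 0 ≤ v f) :
    ∀ (d : ℕ) (G : (integralClosure R K)[X]), G.natDegree ≤ d → aeval f G = 0 →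
      (∃ i, v (G.coeff i : K) = 0) →
      ∃ b ∈ integralClosure R K, ∃ c ∈ integralClosure R K, v c = 0 ∧ f * c = b := by
  intro d
  induction d with
  | zero =>
    intro G hd h0 hi
    obtain ⟨i, hi⟩ := hi
    rw [Polynomial.eq_C_of_natDegree_eq_zero (Nat.le_zero.1 hd)] at h0 hi
    rw [aeval_C] at h0
    rcases Nat.eq_zero_or_pos i with rfl | hpos
    · rw [Polynomial.coeff_C_zero] at hi
      change ((G.coeff 0 : K)) = 0 at h0
      rw [h0] at hi
      simp at hi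
    · rw [Polynomial.coeff_C_of_ne_zero (by omega)] at hi
      simp at hi
  | succ d ih =>
    intro G hd' h0 hi
    rcases hd'.lt_or_eq with hd' | hd
    · exact ih G (by omega) h0 hi
    have hint : IsIntegral R (f * (G.leadingCoeff : K)) := by
      have h1 := isIntegral_leadingCoeff_smul G f h0
      have h2 := isIntegral_trans (R := R) _ h1
      rwa [Algebra.smul_def, mul_comm] at h2
    by_cases hlc : v (G.leadingCoeff : K) = 0
    · exact ⟨_, hint, G.leadingCoeff, G.leadingCoeff.2, hlc, rfl⟩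
    · have hlc' : 0 < v (G.leadingCoeff : K) :=
        lt_of_le_of_ne (hB _ G.leadingCoeff.2) (Ne.symm hlc)
      set a : integralClosure R K := ⟨f * (G.leadingCoeff : K), hint⟩ with ha
      set G' : (integralClosure R K)[X] := G.eraseLead + C a * X ^ d with hG'
      have hdeg : G'.natDegree ≤ d := by
        rw [hG']
        refine (Polynomial.natDegree_add_le _ _).trans (max_le ?_ ?_)
        · exact (eraseLead_natDegree_le G).trans (by omega)
        · exact natDegree_C_mul_X_pow_le _ _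
      have h0' : aeval f G' = 0 := by
        have h1 : G = G.eraseLead + C G.leadingCoeff * X ^ (d + 1) := by
          rw [← hd, Polynomial.eraseLead_add_C_mul_X_pow]
        have h2 := h0
        rw [h1, map_add, map_mul, aeval_C, map_pow, aeval_X] at h2
        rw [hG', map_add, map_mul, aeval_C, map_pow, aeval_X]
        rw [← h2]
        congr 1
        change (f * (G.leadingCoeff : K)) * f ^ d = (G.leadingCoeff : K) * f ^ (d + 1)
        ring
      have hi' : ∃ i, v (G'.coeff i : K) = 0 := by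
        obtain ⟨i, hi⟩ := hi
        refine ⟨i, ?_⟩
        have hne : i ≠ G.natDegree := by
          rintro rfl
          exact hlc hi
        rw [hG', coeff_add, eraseLead_coeff_of_ne i hne, coeff_C_mul, coeff_X_pow]
        by_cases hid : i = d
        · subst hid
          simp only [if_true, mul_one]
          push_cast
          rw [ha, v.map_add_eq_of_lt_left]
          · exact hi
          · rw [hi, v.map_mul]
            exact lt_of_lt_of_le hlc' (le_add_of_nonneg_left hf)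
        · simpa [hid] using hi
      exact ih G' hdeg h0' hi'

omit [Algebra ℂ K] in
lemma val_nonneg_of_isIntegral (hR : ∀ r : R, 0 ≤ v (algebraMap R K r)) {b : K}
    (hb : IsIntegral R b) : 0 ≤ v b := by
  obtain ⟨p, hp, hpb⟩ := hb
  by_contra hcon
  push Not at hcon
  have hb0 : b ≠ 0 := by
    rintro rfl
    simp at hcon
  obtain ⟨k, hk⟩ := exists_int v hb0
  rw [hk] at hcon
  have hk0 : k < 0 := by exact_mod_cast hcon
  rw [Polynomial.eval₂_eq_sum_range, Finset.sum_range_succ, hp.coeff_natDegree, map_one, one_mul,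
    add_comm, add_eq_zero_iff_eq_neg] at hpb
  have hsm : ∀ i : ℕ, i • (k : WithTop ℤ) = ((i * k : ℤ) : WithTop ℤ) := by
    intro i
    rw [← WithTop.coe_nsmul, nsmul_eq_mul]
  have h1 : v (b ^ p.natDegree) = ((p.natDegree * k : ℤ) : WithTop ℤ) := by
    rw [v.map_pow, hk, hsm]
  have h2 : (((p.natDegree - 1) * k : ℤ) : WithTop ℤ) ≤ v (b ^ p.natDegree) := by
    rw [hpb, v.map_neg]
    apply v.map_le_sum
    intro i hi
    rw [v.map_mul, v.map_pow, hk]
    have h3 : (((p.natDegree - 1) * k : ℤ) : WithTop ℤ) ≤ i • (k : WithTop ℤ) := by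
      rw [hsm]
      have h5 : (i : ℤ) ≤ p.natDegree - 1 := by
        have := Finset.mem_range.1 hi
        omega
      exact WithTop.coe_le_coe.2 (by nlinarith)
    exact le_trans h3 (le_add_of_nonneg_left (hR _))
  rw [h1] at h2
  have h6 : ((p.natDegree - 1) * k : ℤ) ≤ p.natDegree * k := WithTop.coe_le_coe.1 h2
  nlinarith

end horner

/-! ### the main result -/

section main

variable {σ : Type*} {s : σ → K} {t : K}

lemma der_ev_nonneg
    (hs : ∀ p : MvPolynomial σ ℂ, p ≠ 0 → v (MvPolynomial.aeval s p) = 0)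
    (ht : v t = 1)
    (D : Derivation ℂ K K) (hDt : 0 ≤ v (D t)) (hDs : ∀ i, 0 ≤ v (D (s i)))
    (q : (MvPolynomial σ ℂ)[X]) : 0 ≤ v (D (ev s t q)) := by
  have h0 : ∀ p : MvPolynomial σ ℂ, 0 ≤ v (D (MvPolynomial.aeval s p)) := by
    intro p
    induction p using MvPolynomial.induction_on with
    | C a =>
      rw [MvPolynomial.aeval_C, D.map_algebraMap]
      simp
    | add p q hp hq =>
      rw [map_add, map_add]
      exact v.map_le_add hp hq
    | mul_X p i hp =>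
      rw [map_mul, MvPolynomial.aeval_X, D.leibniz, smul_eq_mul, smul_eq_mul]
      apply v.map_le_add
      · rw [v.map_mul]
        exact add_nonneg (val_aeval_nonneg v hs _) (hDs i)
      · rw [v.map_mul]
        have : 0 ≤ v (s i) := by
          have := val_aeval_nonneg v hs (MvPolynomial.X i)
          rwa [MvPolynomial.aeval_X] at this
        exact add_nonneg this hp
  induction q using Polynomial.induction_on' with
  | add p q hp hq =>
    rw [map_add, map_add]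
    exact v.map_le_add hp hq
  | monomial n a =>
    have hDtn : 0 ≤ v (D (t ^ n)) := by
      rw [D.leibniz_pow, nsmul_eq_mul, smul_eq_mul, v.map_mul, v.map_mul, v.map_pow, ht]
      have h1 : 0 ≤ v ((n : K)) := by
        have := val_aeval_nonneg v hs (n : MvPolynomial σ ℂ)
        simpa using this
      exact add_nonneg h1 (add_nonneg (by simp) hDt)
    rw [← Polynomial.C_mul_X_pow_eq_monomial, map_mul, map_pow, ev_X, ev_C, D.leibniz,
      smul_eq_mul, smul_eq_mul]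
    apply v.map_le_add
    · rw [v.map_mul]
      exact add_nonneg (val_aeval_nonneg v hs _) hDtn
    · rw [v.map_mul, v.map_pow, ht]
      exact add_nonneg (by simp) (h0 _)

/-- The loss of a derivation on the valuation ring is bounded. -/
lemma exists_bound [Algebra.EssFiniteType ℂ K]
    (hs : ∀ p : MvPolynomial σ ℂ, p ≠ 0 → v (MvPolynomial.aeval s p) = 0)
    (ht : v t = 1)
    [Finite σ]
    (halg : ∀ f : K, ∃ F : (MvPolynomial σ ℂ)[X][X], F ≠ 0 ∧ F.eval₂ (ev s t) f = 0)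
    (D : Derivation ℂ K K) (hDt : 0 ≤ v (D t)) (hDs : ∀ i, 0 ≤ v (D (s i))) :
    ∃ ℓ : ℕ, ∀ f, 0 ≤ v f → ((-(ℓ : ℤ) : ℤ) : WithTop ℤ) ≤ v (D f) := by
  classical
  letI alg1 : Algebra (MvPolynomial σ ℂ)[X] K := (ev s t).toAlgebra
  have hmap : ∀ r, algebraMap (MvPolynomial σ ℂ)[X] K r = ev s t r := fun _ => rfl
  haveI : FaithfulSMul (MvPolynomial σ ℂ)[X] K := by
    rw [faithfulSMul_iff_algebraMap_injective]
    exact ev_injective v hs ht
  haveI : IsScalarTower ℂ (MvPolynomial σ ℂ)[X] K := by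
    apply IsScalarTower.of_algebraMap_eq
    intro c
    rw [hmap, Polynomial.algebraMap_apply, ev_C, MvPolynomial.algebraMap_eq, MvPolynomial.aeval_C]
  letI alg2 : Algebra (FractionRing (MvPolynomial σ ℂ)[X]) K := FractionRing.liftAlgebra _ K
  haveI : IsScalarTower (MvPolynomial σ ℂ)[X] (FractionRing (MvPolynomial σ ℂ)[X]) K :=
    inferInstance
  haveI : IsScalarTower ℂ (FractionRing (MvPolynomial σ ℂ)[X]) K := by
    apply IsScalarTower.of_algebraMap_eq
    intro c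
    rw [IsScalarTower.algebraMap_apply ℂ (MvPolynomial σ ℂ)[X] K,
      IsScalarTower.algebraMap_apply ℂ (MvPolynomial σ ℂ)[X] (FractionRing (MvPolynomial σ ℂ)[X]),
      ← IsScalarTower.algebraMap_apply (MvPolynomial σ ℂ)[X]
        (FractionRing (MvPolynomial σ ℂ)[X]) K]
  haveI : Algebra.EssFiniteType (FractionRing (MvPolynomial σ ℂ)[X]) K :=
    Algebra.EssFiniteType.of_comp ℂ _ K
  haveI : Algebra.IsAlgebraic (MvPolynomial σ ℂ)[X] K := ⟨fun f => by
    obtain ⟨F, h1, h2⟩ := halg f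
    exact ⟨F, h1, h2⟩⟩
  haveI : Algebra.IsAlgebraic (FractionRing (MvPolynomial σ ℂ)[X]) K :=
    (IsFractionRing.comap_isAlgebraic_iff (A := (MvPolynomial σ ℂ)[X])).1 this
  haveI : Module.Finite (FractionRing (MvPolynomial σ ℂ)[X]) K :=
    Algebra.finite_of_essFiniteType_of_isAlgebraic
  haveI : CharZero (FractionRing (MvPolynomial σ ℂ)[X]) :=
    algebraRat.charZero _
  haveI : Algebra.IsSeparable (FractionRing (MvPolynomial σ ℂ)[X]) K := inferInstance
  haveI : Module.Finite (MvPolynomial σ ℂ)[X] (integralClosure (MvPolynomial σ ℂ)[X] K) :=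
    IsIntegralClosure.finite (A := (MvPolynomial σ ℂ)[X])
      (K := (FractionRing (MvPolynomial σ ℂ)[X])) (L := K)
      (C := (integralClosure (MvPolynomial σ ℂ)[X] K))
  obtain ⟨S, hS⟩ := Module.Finite.fg_top (R := (MvPolynomial σ ℂ)[X])
    (M := (integralClosure (MvPolynomial σ ℂ)[X] K))
  have hint : ∀ b ∈ integralClosure (MvPolynomial σ ℂ)[X] K, 0 ≤ v b := fun b hb =>
    val_nonneg_of_isIntegral v (fun r => val_ev_nonneg v hs ht r) hb
  -- a bound on generators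
  have hbd : ∀ x : K, ∃ ℓ : ℕ, ((-(ℓ : ℤ) : ℤ) : WithTop ℤ) ≤ v x := by
    intro x
    by_cases hx : x = 0
    · exact ⟨0, by simp [hx]⟩
    · obtain ⟨k, hk⟩ := exists_int v hx
      refine ⟨k.natAbs, ?_⟩
      rw [hk]
      exact WithTop.coe_le_coe.2 (by omega)
  choose! bd hbd using hbd
  set ℓ : ℕ := S.sup (fun x => bd (D (x : K))) with hℓ
  have hℓS : ∀ x ∈ S, ((-(ℓ : ℤ) : ℤ) : WithTop ℤ) ≤ v (D (x : K)) := by
    intro x hx
    refine le_trans ?_ (hbd _)
    have : bd (D (x : K)) ≤ ℓ := Finset.le_sup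
      (f := fun x : integralClosure (MvPolynomial σ ℂ)[X] K => bd (D (x : K))) hx
    exact WithTop.coe_le_coe.2 (by omega)
  have hℓ0 : ((-(ℓ : ℤ) : ℤ) : WithTop ℤ) ≤ 0 := by
    exact_mod_cast (show (-(ℓ : ℤ) : ℤ) ≤ 0 by omega)
  have hB : ∀ b : integralClosure (MvPolynomial σ ℂ)[X] K,
      ((-(ℓ : ℤ) : ℤ) : WithTop ℤ) ≤ v (D (b : K)) := by
    intro b
    have hb : b ∈ Submodule.span (MvPolynomial σ ℂ)[X] (S : Set (integralClosure (MvPolynomial σ ℂ)[X] K)) := by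
      rw [hS]; trivial
    induction hb using Submodule.span_induction with
    | mem x hx => exact hℓS x hx
    | zero => simp
    | add x y _ _ hx hy =>
      push_cast
      rw [map_add]
      exact v.map_le_add hx hy
    | smul r x _ hx =>
      have h1 : ((r • x : integralClosure (MvPolynomial σ ℂ)[X] K) : K) = ev s t r * (x : K) := by
        rw [Subalgebra.coe_smul, Algebra.smul_def]; rfl
      rw [h1, D.leibniz, smul_eq_mul, smul_eq_mul]
      apply v.map_le_add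
      · rw [v.map_mul]
        exact le_trans hx (le_add_of_nonneg_left (val_ev_nonneg v hs ht r))
      · rw [v.map_mul]
        exact le_trans hℓ0 (add_nonneg (hint _ x.2) (der_ev_nonneg v hs ht D hDt hDs r))
  refine ⟨ℓ, fun f hf => ?_⟩
  have ht0 : t ≠ 0 := by
    rintro rfl
    simp at ht
  obtain ⟨F, hF, hFf⟩ := halg f
  obtain ⟨G, hG1, i, hG2⟩ := exists_primitive hF hFf ht0
  obtain ⟨b, hb, c, hc, hvc, hfc⟩ := horner_aux (R := (MvPolynomial σ ℂ)[X]) v hint hf _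
    (G.map (algebraMap (MvPolynomial σ ℂ)[X] (integralClosure (MvPolynomial σ ℂ)[X] K))) le_rfl
    (by
      rw [aeval_map_algebraMap]
      exact hG1)
    ⟨i, by
      rw [coeff_map]
      exact val_ev_eq_zero v hs ht hG2⟩
  have hc0 : c ≠ 0 := by
    rintro rfl
    simp at hvc
  have h1 : D b = f * D c + c * D f := by
    rw [← hfc, D.leibniz, smul_eq_mul, smul_eq_mul]
  have h2 : c * D f = D b - f * D c := by rw [h1]; ring
  have h3 : v (D f) = v (D b - f * D c) := by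
    rw [← h2, v.map_mul, hvc, zero_add]
  rw [h3]
  apply v.map_le_sub (hB ⟨b, hb⟩)
  rw [v.map_mul]
  exact le_trans (hB ⟨c, hc⟩) (le_add_of_nonneg_left hf)

lemma der_eval2 (D : Derivation ℂ K K) (hD : ∀ p : MvPolynomial σ ℂ, 0 ≤ v (D (MvPolynomial.aeval s p)))
    {f : K} (hf : 0 ≤ v f) (G : (MvPolynomial σ ℂ)[X]) :
    ∃ r : K, 0 ≤ v r ∧ D (G.eval₂ (MvPolynomial.aeval s).toRingHom f) =
      r + G.derivative.eval₂ (MvPolynomial.aeval s).toRingHom f * D f := by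
  induction G using Polynomial.induction_on' with
  | add p q hp hq =>
    obtain ⟨r, hr, h1⟩ := hp
    obtain ⟨r', hr', h2⟩ := hq
    refine ⟨r + r', v.map_le_add hr hr', ?_⟩
    rw [eval₂_add, map_add, h1, h2, derivative_add, eval₂_add]
    ring
  | monomial n a =>
    refine ⟨f ^ n * D (MvPolynomial.aeval s a), ?_, ?_⟩
    · rw [v.map_mul, v.map_pow]
      exact add_nonneg (nsmul_nonneg hf _) (hD a)
    · rw [eval₂_monomial, derivative_monomial, eval₂_monomial, D.leibniz, D.leibniz_pow]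
      change _ + _ = _ + (MvPolynomial.aeval s (a * (n : MvPolynomial σ ℂ))) * f ^ (n - 1) * D f
      rw [map_mul, map_natCast]
      change (MvPolynomial.aeval s a) • n • f ^ (n - 1) • D f + f ^ n • D (MvPolynomial.aeval s a) = _
      simp only [nsmul_eq_mul, smul_eq_mul]
      ring

/-- **Derivations preserve divisorial valuation rings.** If the discrete valuation `v` of a
finitely generated field `K` over `ℂ` has uniformizer `t`, the elements `s` have algebraically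
independent residues, and `K` is algebraic over `ℂ(s,t)`, then a derivation which sends `t` and
`s` into the valuation ring preserves the valuation ring. -/
theorem der_nonneg [Algebra.EssFiniteType ℂ K]
    (hs : ∀ p : MvPolynomial σ ℂ, p ≠ 0 → v (MvPolynomial.aeval s p) = 0)
    (ht : v t = 1) [Finite σ]
    (halg : ∀ f : K, ∃ F : (MvPolynomial σ ℂ)[X][X], F ≠ 0 ∧ F.eval₂ (ev s t) f = 0)
    (D : Derivation ℂ K K) (hDt : 0 ≤ v (D t)) (hDs : ∀ i, 0 ≤ v (D (s i))) :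
    ∀ f, 0 ≤ v f → 0 ≤ v (D f) := by
  classical
  have hex := exists_bound v hs ht halg D hDt hDs
  have hmin := fun m => Nat.find_min hex (m := m)
  obtain hspec := Nat.find_spec hex
  set ℓ := Nat.find hex with hℓ
  have ht0 : t ≠ 0 := by
    rintro rfl
    simp at ht
  have hDa : ∀ p : MvPolynomial σ ℂ, 0 ≤ v (D (MvPolynomial.aeval s p)) := by
    intro p
    have := der_ev_nonneg v hs ht D hDt hDs (C p)
    rwa [ev_C] at this
  rcases Nat.eq_zero_or_pos ℓ with h0 | hpos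
  · intro f hf
    have := hspec f hf
    rw [h0] at this
    simpa using this
  · exfalso
    refine hmin (ℓ - 1) (by omega) (fun f hf => ?_)
    have hle : ((-((ℓ - 1 : ℕ) : ℤ) : ℤ) : WithTop ℤ) ≤ 0 :=
      WithTop.coe_le_coe.2 (show (-((ℓ - 1 : ℕ) : ℤ) : ℤ) ≤ 0 by omega)
    obtain ⟨F, hF, hFf⟩ := halg f
    obtain ⟨G, hG1, hG2⟩ := exists_sep v hs ht hf hF hFf
    obtain ⟨r, hr, hDG⟩ := der_eval2 v D hDa hf G
    set g := G.eval₂ (MvPolynomial.aeval s).toRingHom f with hg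
    set g' := G.derivative.eval₂ (MvPolynomial.aeval s).toRingHom f with hg'
    have hh : 0 ≤ v (g / t) := by
      rw [v.map_div, ht]
      induction hx : v g using WithTop.recTopCoe with
      | top => simp
      | coe a =>
        rw [hx] at hG1
        have : (1 : ℤ) ≤ a := by exact_mod_cast hG1
        have h2 : ((a : WithTop ℤ) - 1) = ((a - 1 : ℤ) : WithTop ℤ) := by
          push_cast; rfl
        rw [h2]
        exact_mod_cast (show (0 : ℤ) ≤ a - 1 by omega)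
    have h1 : g = t * (g / t) := by field_simp
    have h2 : ((-((ℓ - 1 : ℕ) : ℤ) : ℤ) : WithTop ℤ) ≤ v (D g) := by
      rw [h1, D.leibniz, smul_eq_mul, smul_eq_mul]
      apply v.map_le_add
      · rw [v.map_mul, ht]
        have h3 := hspec _ hh
        have h4 : ((-((ℓ - 1 : ℕ) : ℤ) : ℤ) : WithTop ℤ) = 1 + ((-(ℓ : ℤ) : ℤ) : WithTop ℤ) := by
          have : (-((ℓ - 1 : ℕ) : ℤ) : ℤ) = 1 + (-(ℓ : ℤ)) := by omega
          rw [this]
          push_cast
          rfl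
        rw [h4]
        exact add_le_add le_rfl h3
      · rw [v.map_mul]
        exact le_trans hle (add_nonneg hh hDt)
    have h5 : g' * D f = D g - r := by rw [hDG]; ring
    have h6 : v (D f) = v (D g - r) := by
      rw [← h5, v.map_mul, hG2, zero_add]
    rw [h6]
    exact v.map_le_sub h2 (le_trans hle hr)

end main

end Pool.Agent.H23

end
end

section

set_option linter.style.haveILetI false

noncomputable section

namespace Pool.Agent.H23

section top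

variable {K : Type*} [Field K] {M : Type*} [AddCommGroup M] [Module K M] {n : ℕ}
  (b : Module.Basis (Fin n) K M)

lemma ιMulti_eq (v : Fin n → M) :
    exteriorPower.ιMulti K n v = b.det v • exteriorPower.ιMulti K n (fun i => b i) := by
  have h : (exteriorPower.ιMulti K n : M [⋀^Fin n]→ₗ[K] ⋀[K]^n M) =
      (LinearMap.toSpanSingleton K (⋀[K]^n M) (exteriorPower.ιMulti K n (fun i => b i))).compAlternatingMap
        b.det := by
    apply Module.Basis.ext_alternating b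
    intro σ hσ
    have hbij : Function.Bijective σ := (Finite.injective_iff_bijective).1 hσ
    let e : Equiv.Perm (Fin n) := Equiv.ofBijective σ hbij
    have h1 : (fun i => b (σ i)) = (fun i => b i) ∘ e := rfl
    rw [h1, AlternatingMap.map_perm, LinearMap.compAlternatingMap_apply, AlternatingMap.map_perm,
      Module.Basis.det_self]
    simp
  conv_lhs => rw [h]
  rw [LinearMap.compAlternatingMap_apply, LinearMap.toSpanSingleton_apply]

/-- coordinate of a top form -/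
def fc : (⋀[K]^n M) →ₗ[K] K := exteriorPower.alternatingMapLinearEquiv b.det

lemma fc_ιMulti (v : Fin n → M) : fc b (exteriorPower.ιMulti K n v) = b.det v := by
  rw [fc, exteriorPower.alternatingMapLinearEquiv_apply_ιMulti]

lemma fc_self : fc b (exteriorPower.ιMulti K n (fun i => b i)) = 1 := by
  rw [fc_ιMulti]
  exact b.det_self

lemma eq_fc_smul (ω : ⋀[K]^n M) : ω = fc b ω • exteriorPower.ιMulti K n (fun i => b i) := by
  have hω : ω ∈ Submodule.span K (Set.range (exteriorPower.ιMulti K n (M := M))) := by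
    rw [exteriorPower.ιMulti_span]; trivial
  induction hω using Submodule.span_induction with
  | mem x hx =>
    obtain ⟨v, rfl⟩ := hx
    rw [fc_ιMulti]
    exact ιMulti_eq b v
  | zero => simp
  | add x y _ _ hx hy =>
    rw [map_add, add_smul, ← hx, ← hy]
  | smul c x _ hx =>
    rw [map_smul, smul_assoc, ← hx]

end top

section coords

variable {K : Type} [Field K] [Algebra ℂ K] {n : ℕ}

/-- the derivation dual to a basis of differentials -/
def dualDer {σ : Type*} (b : Module.Basis σ K Ω[K⁄ℂ]) (i : σ) : Derivation ℂ K K :=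
  (b.coord i).compDer (KaehlerDifferential.D ℂ K)

lemma dualDer_apply {σ : Type*} (b : Module.Basis σ K Ω[K⁄ℂ]) (i : σ) (f : K) :
    dualDer b i f = b.repr (KaehlerDifferential.D ℂ K f) i := rfl

lemma dualDer_coord {σ : Type*} [DecidableEq σ] (b : Module.Basis σ K Ω[K⁄ℂ]) {a : σ → K}
    (hb : ∀ i, b i = KaehlerDifferential.D ℂ K (a i)) (i j : σ) :
    dualDer b i (a j) = if i = j then 1 else 0 := by
  rw [dualDer_apply, ← hb, Module.Basis.repr_self, Finsupp.single_apply]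
  simp [eq_comm]

lemma det_mem (O : Subalgebra ℂ K) (A : Matrix (Fin n) (Fin n) K) (hA : ∀ i j, A i j ∈ O) :
    A.det ∈ O := by
  rw [Matrix.det_apply']
  apply sum_mem
  intro σ _
  exact O.mul_mem (intCast_mem O _) (O.prod_mem fun i _ => hA _ _)

/-- The regular forms of a ring with coordinates. -/
lemma mem_regularForms_iff (O : Subalgebra ℂ K) (b : Module.Basis (Fin n) K Ω[K⁄ℂ]) {a : Fin n → K}
    (hb : ∀ i, b i = KaehlerDifferential.D ℂ K (a i)) (ha : ∀ i, a i ∈ O)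
    (hD : ∀ i, ∀ f ∈ O, dualDer b i f ∈ O) (ω : RatForm K n) :
    ω ∈ regularForms n O ↔ fc b ω ∈ O := by
  constructor
  · intro h
    induction h using AddSubgroup.closure_induction with
    | mem x hx =>
      obtain ⟨c, a', hc, ha', rfl⟩ := hx
      rw [map_smul, fc_ιMulti, smul_eq_mul]
      apply O.mul_mem hc
      rw [Module.Basis.det_apply]
      apply det_mem
      intro i j
      exact hD i _ (ha' j)
    | zero => simp
    | add x y _ _ hx hy =>
      rw [map_add]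
      exact O.add_mem hx hy
    | neg x _ hx =>
      rw [map_neg]
      exact O.neg_mem hx
  · intro h
    apply AddSubgroup.subset_closure
    refine ⟨fc b ω, a, h, ha, ?_⟩
    conv_lhs => rw [eq_fc_smul b ω]
    simp only [hb]

end coords

section primeDivisor

variable {K : Type} [Field K] [Algebra ℂ K]

lemma aeval_cons {k : ℕ} (s : Fin k → K) (t : K) (p : MvPolynomial (Fin (k + 1)) ℂ) :
    MvPolynomial.aeval (Fin.cons t s : Fin (k + 1) → K) p =
      ev s t (MvPolynomial.finSuccEquiv ℂ k p) := by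
  induction p using MvPolynomial.induction_on with
  | C a =>
    rw [MvPolynomial.aeval_C, MvPolynomial.finSuccEquiv_apply, MvPolynomial.eval₂Hom_C]
    change _ = ev s t (Polynomial.C (MvPolynomial.C a))
    rw [ev_C, MvPolynomial.aeval_C]
  | add p q hp hq => rw [map_add, hp, hq, map_add, map_add]
  | mul_X p i hp =>
    rw [map_mul, hp, map_mul, map_mul, MvPolynomial.aeval_X]
    congr 1
    refine Fin.cases ?_ (fun j => ?_) i
    · rw [Fin.cons_zero, MvPolynomial.finSuccEquiv_X_zero, ev_X]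
    · rw [Fin.cons_succ, MvPolynomial.finSuccEquiv_X_succ, ev_C, MvPolynomial.aeval_X]

/-- Coordinates adapted to a prime divisor. -/
theorem exists_divisorCoords [Algebra.EssFiniteType ℂ K] {k : ℕ} {z : Fin (k + 1) → K}
    (hz : IsTranscendenceBasis ℂ z) (E : PrimeDivisorOver K (k + 1)) :
    ∃ (g : Fin (k + 1) → K) (b : Module.Basis (Fin (k + 1)) K Ω[K⁄ℂ]),
      (∀ i, b i = KaehlerDifferential.D ℂ K (g i)) ∧ E.ord (g 0) = 1 ∧ (∀ i, 0 ≤ E.ord (g i)) ∧
      (∀ i f, 0 ≤ E.ord f → 0 ≤ E.ord (dualDer b i f)) := by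
  obtain ⟨t, ht⟩ := E.exists_uniformizer
  obtain ⟨s, hs0, hs⟩ := E.residue_trdeg
  change Fin k → K at s
  change ∀ i : Fin k, 0 ≤ E.ord (s i) at hs0
  change ∀ p : MvPolynomial (Fin k) ℂ, p ≠ 0 → E.ord (MvPolynomial.aeval s p) = 0 at hs
  set g : Fin (k + 1) → K := Fin.cons t s with hg
  have hind : AlgebraicIndependent ℂ g := by
    rw [algebraicIndependent_iff_injective_aeval]
    have h1 : (MvPolynomial.aeval g : MvPolynomial (Fin (k + 1)) ℂ → K) =
        ev s t ∘ MvPolynomial.finSuccEquiv ℂ k := by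
      funext p
      exact aeval_cons s t p
    rw [h1]
    exact (ev_injective E.ord hs ht).comp (MvPolynomial.finSuccEquiv ℂ k).injective
  have hbasis : IsTranscendenceBasis ℂ g := by
    apply hind.isTranscendenceBasis_of_trdeg_le_of_finite
    rw [← hz.cardinalMk_eq_trdeg]
  obtain ⟨b, hb⟩ := exists_basis_kaehler hbasis
  refine ⟨g, b, hb, ht, ?_, ?_⟩
  · intro i
    refine Fin.cases ?_ (fun j => ?_) i
    · rw [hg, Fin.cons_zero, ht]; norm_num
    · rw [hg, Fin.cons_succ]; exact hs0 j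
  · intro i
    apply der_nonneg E.ord hs ht
    · intro f
      obtain ⟨F, h1, h2⟩ := exists_poly_of_basis hbasis f
      refine ⟨F.map (MvPolynomial.finSuccEquiv ℂ k).toRingEquiv.toRingHom, ?_, ?_⟩
      · rwa [Ne, Polynomial.map_eq_zero_iff]
        exact (MvPolynomial.finSuccEquiv ℂ k).injective
      · rw [Polynomial.eval₂_map]
        have h3 : (ev s t).comp (MvPolynomial.finSuccEquiv ℂ k).toRingEquiv.toRingHom =
            (MvPolynomial.aeval g).toRingHom :=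
          RingHom.ext fun p => (aeval_cons s t p).symm
        rw [h3]
        exact h2
    · have := dualDer_coord b hb i 0
      rw [hg, Fin.cons_zero] at this
      rw [this]
      split_ifs <;> simp
    · intro j
      have := dualDer_coord b hb i j.succ
      rw [hg, Fin.cons_succ] at this
      rw [this]
      split_ifs <;> simp

end primeDivisor

end Pool.Agent.H23

end
end

section

/-!
# BPm DomN: comparison of the pieces of two charts, first estimates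

Notation: `u' = l s' + b t'`, `w' = c s' + m t'` (the new components of the vector), `TE C s u l b c m`.

`comp_s`: `‖s'‖ ≤ 2 C ‖u'‖ + 2 C^3 ‖s‖ ‖w'‖` if `‖s‖ ≤ 1/(2C^4)`. Proof: `l s' = u' - b t'`, so
`‖s'‖ ≤ C ‖u'‖ + C^2 ‖s‖ ‖t'‖`; `m t' = w' - c s'`, so `‖t'‖ ≤ C ‖w'‖ + C^2 ‖s'‖`. Insert:
`‖s'‖ ≤ C ‖u'‖ + C^3 ‖s‖‖w'‖ + C^4 ‖s‖ ‖s'‖`, and `C^4 ‖s‖ ≤ 1/2`.
`comp_t`: `‖m‖ ‖t'‖ ≤ ‖w'‖ + C ‖s'‖`.
`comp_u`: `‖l‖ ‖s‖ (1 - C^2 ‖s‖) ≤ ‖u‖ ≤ ‖l‖ ‖s‖ (1 + C^2 ‖s‖)` (from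
`|‖u‖ - ‖l‖‖s‖| ≤ C ‖s‖^2` and `C⁻¹ ≤ ‖l‖`).
`comp_J`: `‖l m - b c‖ ≤ ‖l‖ ‖m‖ + C^2 ‖s‖ ≤ 2 C^2` for `‖s‖ ≤ 1`.
-/

open Topology Filter Metric

namespace Pool.Agent.H14.PP

private lemma DomN_exp {P : Par} {C : ℝ} (hP : DomPar C P) {x : ℝ} (hx0 : 0 ≤ x) (hx : x ≤ 1) :
    (1 + P.M * x ^ (2 * P.κ)) ^ P.e ≤ Real.exp (P.ε / 16) := by
  have hM := hP.M_ge
  have h1 : x ^ (2 * P.κ) ≤ 1 := Real.rpow_le_one hx0 hx (by linarith [hP.κ_pos])
  have h0 : 0 ≤ x ^ (2 * P.κ) := Real.rpow_nonneg hx0 _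
  have h2 : 1 + P.M * x ^ (2 * P.κ) ≤ 1 + P.M := by nlinarith
  have h3 : (0 : ℝ) ≤ 1 + P.M * x ^ (2 * P.κ) := by positivity
  calc (1 + P.M * x ^ (2 * P.κ)) ^ P.e ≤ (1 + P.M) ^ P.e :=
        Real.rpow_le_rpow h3 h2 hP.e_pos.le
    _ = Real.exp (P.e * Real.log (1 + P.M)) := by
        rw [Real.rpow_def_of_pos (by linarith), mul_comm]
    _ ≤ Real.exp (P.ε / 16) := Real.exp_le_exp.mpr hP.e_log

private lemma DomN_one {P : Par} {C : ℝ} (hP : DomPar C P) {x : ℝ} (hx0 : 0 ≤ x) :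
    1 ≤ (1 + P.M * x ^ (2 * P.κ)) ^ P.e := by
  have hM := hP.M_ge
  have h0 : 0 ≤ x ^ (2 * P.κ) := Real.rpow_nonneg hx0 _
  have h1 : 0 ≤ P.M * x ^ (2 * P.κ) := mul_nonneg (by linarith) h0
  exact Real.one_le_rpow (by linarith) hP.e_pos.le

theorem comp_s {C : ℝ} (hC : 1 ≤ C) {s u l b c m s' t' : ℂ} (hT : TE C s u l b c m)
    (hs : ‖s‖ ≤ 1 / (2 * C ^ 4)) :
    ‖s'‖ ≤ 2 * C * ‖l * s' + b * t'‖ + 2 * C ^ 3 * ‖s‖ * ‖c * s' + m * t'‖ := by
  obtain ⟨hb, hc, -, hl, -, hm, -⟩ := hT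
  have hC0 : (0 : ℝ) < C := by linarith
  set U := ‖l * s' + b * t'‖ with hU
  set V := ‖c * s' + m * t'‖ with hV
  have e1 : ‖l‖ * ‖s'‖ ≤ U + ‖b‖ * ‖t'‖ := by
    rw [← norm_mul, ← norm_mul]
    calc ‖l * s'‖ = ‖(l * s' + b * t') - b * t'‖ := by ring_nf
      _ ≤ _ := norm_sub_le _ _
  have e2 : ‖m‖ * ‖t'‖ ≤ V + ‖c‖ * ‖s'‖ := by
    rw [← norm_mul, ← norm_mul]
    calc ‖m * t'‖ = ‖(c * s' + m * t') - c * s'‖ := by ring_nf
      _ ≤ _ := norm_sub_le _ _
  have hs0 := norm_nonneg s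
  have hs'0 := norm_nonneg s'
  have ht'0 := norm_nonneg t'
  have hU0 : 0 ≤ U := norm_nonneg _
  have hV0 : 0 ≤ V := norm_nonneg _
  have f1 : ‖s'‖ ≤ C * U + C ^ 2 * ‖s‖ * ‖t'‖ := by
    have h1 : C⁻¹ * ‖s'‖ ≤ U + C * ‖s‖ * ‖t'‖ := by
      calc C⁻¹ * ‖s'‖ ≤ ‖l‖ * ‖s'‖ := mul_le_mul_of_nonneg_right hl hs'0
        _ ≤ _ := e1
        _ ≤ _ := by
          have := mul_le_mul_of_nonneg_right hb ht'0
          linarith
    have h2 : C * (C⁻¹ * ‖s'‖) ≤ C * (U + C * ‖s‖ * ‖t'‖) := mul_le_mul_of_nonneg_left h1 hC0.le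
    rw [← mul_assoc, mul_inv_cancel₀ hC0.ne', one_mul] at h2
    calc ‖s'‖ ≤ _ := h2
      _ = _ := by ring
  have f2 : ‖t'‖ ≤ C * V + C ^ 2 * ‖s'‖ := by
    have h1 : C⁻¹ * ‖t'‖ ≤ V + C * ‖s'‖ := by
      calc C⁻¹ * ‖t'‖ ≤ ‖m‖ * ‖t'‖ := mul_le_mul_of_nonneg_right hm ht'0
        _ ≤ _ := e2
        _ ≤ _ := by
          have := mul_le_mul_of_nonneg_right hc hs'0
          linarith
    have h2 : C * (C⁻¹ * ‖t'‖) ≤ C * (V + C * ‖s'‖) := mul_le_mul_of_nonneg_left h1 hC0.le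
    rw [← mul_assoc, mul_inv_cancel₀ hC0.ne', one_mul] at h2
    calc ‖t'‖ ≤ _ := h2
      _ = _ := by ring
  have f3 : C ^ 2 * ‖s‖ * ‖t'‖ ≤ C ^ 2 * ‖s‖ * (C * V + C ^ 2 * ‖s'‖) :=
    mul_le_mul_of_nonneg_left f2 (by positivity)
  have f4 : C ^ 4 * ‖s‖ ≤ 1 / 2 := by
    have h4 : (0 : ℝ) < C ^ 4 := by positivity
    calc C ^ 4 * ‖s‖ ≤ C ^ 4 * (1 / (2 * C ^ 4)) := mul_le_mul_of_nonneg_left hs h4.le
      _ = 1 / 2 := by field_simp
  have f5 : C ^ 4 * ‖s‖ * ‖s'‖ ≤ 1 / 2 * ‖s'‖ := mul_le_mul_of_nonneg_right f4 hs'0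
  nlinarith [f1, f3, f5]

theorem comp_t {C : ℝ} {s u l b c m s' t' : ℂ} (hT : TE C s u l b c m) :
    ‖m‖ * ‖t'‖ ≤ ‖c * s' + m * t'‖ + C * ‖s'‖ := by
  obtain ⟨hb, hc, -, hl, -, hm, -⟩ := hT
  have e2 : ‖m‖ * ‖t'‖ ≤ ‖c * s' + m * t'‖ + ‖c‖ * ‖s'‖ := by
    rw [← norm_mul, ← norm_mul]
    calc ‖m * t'‖ = ‖(c * s' + m * t') - c * s'‖ := by ring_nf
      _ ≤ _ := norm_sub_le _ _
  have := mul_le_mul_of_nonneg_right hc (norm_nonneg s')
  linarith

theorem comp_u {C : ℝ} (hC : 1 ≤ C) {s u l b c m : ℂ} (hT : TE C s u l b c m) :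
    ‖l‖ * ‖s‖ * (1 - C ^ 2 * ‖s‖) ≤ ‖u‖ ∧ ‖u‖ ≤ ‖l‖ * ‖s‖ * (1 + C ^ 2 * ‖s‖) := by
  obtain ⟨-, -, hu, hl, -, -, -⟩ := hT
  have hC0 : (0 : ℝ) < C := by linarith
  have hs0 := norm_nonneg s
  have h1 : C * ‖s‖ ^ 2 ≤ ‖l‖ * ‖s‖ * (C ^ 2 * ‖s‖) := by
    have h2 : C⁻¹ * (C ^ 2 * ‖s‖ ^ 2) ≤ ‖l‖ * (C ^ 2 * ‖s‖ ^ 2) :=
      mul_le_mul_of_nonneg_right hl (by positivity)
    have h3 : C⁻¹ * (C ^ 2 * ‖s‖ ^ 2) = C * ‖s‖ ^ 2 := by field_simp
    rw [h3] at h2
    calc C * ‖s‖ ^ 2 ≤ _ := h2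
      _ = _ := by ring
  obtain ⟨h4, h5⟩ := abs_le.mp hu
  constructor <;> nlinarith

theorem comp_J {C : ℝ} (hC : 1 ≤ C) {s u l b c m : ℂ} (hT : TE C s u l b c m) :
    ‖l * m - b * c‖ ≤ ‖l‖ * ‖m‖ + C ^ 2 * ‖s‖ := by
  obtain ⟨hb, hc, -, hl, -, hm, -⟩ := hT
  have hC0 : (0 : ℝ) < C := by linarith
  have h1 : ‖b‖ * ‖c‖ ≤ C * ‖s‖ * C :=
    mul_le_mul hb hc (norm_nonneg _) (by positivity)
  calc ‖l * m - b * c‖ ≤ ‖l * m‖ + ‖b * c‖ := norm_sub_le _ _
    _ = ‖l‖ * ‖m‖ + ‖b‖ * ‖c‖ := by rw [norm_mul, norm_mul]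
    _ ≤ _ := by nlinarith

/-- bounds for the pieces, outer boundary -/
theorem pN_outer {C : ℝ} {P : Par} (hP : DomPar C P) (nd : Bool) {s t : ℂ} (ht : ‖t‖ = 1)
    (hs : ‖s‖ ≤ 1) (s' : ℂ) : pN nd P s t s' ≤ ‖s'‖ * Real.exp (P.ε / 16 - P.K) := by
  have h1 := DomN_exp hP (norm_nonneg s) hs
  have h0 : 0 ≤ (1 + P.M * ‖s‖ ^ (2 * P.κ)) ^ P.e := le_trans zero_le_one (DomN_one hP (norm_nonneg s))
  have h2 : (if nd = true then ‖t‖ ^ (1 - P.κ) * Real.exp (-P.ε * ‖s‖ ^ 2) else 1) ≤ 1 := by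
    split_ifs
    · rw [ht, Real.one_rpow, one_mul]
      apply Real.exp_le_one_iff.mpr
      have := hP.ε_pos
      nlinarith [mul_nonneg this.le (sq_nonneg ‖s‖)]
    · exact le_rfl
  have h3 : 0 ≤ (if nd = true then ‖t‖ ^ (1 - P.κ) * Real.exp (-P.ε * ‖s‖ ^ 2) else 1) := by
    split_ifs
    · positivity
    · exact zero_le_one
  unfold pN
  rw [show P.ε / 16 - P.K = P.ε / 16 + -P.K by ring, Real.exp_add, ht]
  calc (if nd = true then (1:ℝ) ^ (1 - P.κ) * Real.exp (-P.ε * ‖s‖ ^ 2) else 1) * ‖s'‖ *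
        (1 + P.M * ‖s‖ ^ (2 * P.κ)) ^ P.e * Real.exp (-P.K * 1 ^ 2)
      ≤ 1 * ‖s'‖ * Real.exp (P.ε / 16) * Real.exp (-P.K * 1 ^ 2) := by
        rw [ht] at h2 h3
        gcongr
    _ = _ := by rw [one_pow, mul_one, one_mul, mul_assoc]

/-- bounds for the pieces, outer boundary -/
theorem pT_outer {C : ℝ} {P : Par} (hP : DomPar C P) (nd : Bool) {s t : ℂ} (ht : ‖t‖ = 1)
    (hs : ‖s‖ ≤ 1) (t' : ℂ) :
    pT nd P s t t' ≤ ‖s‖ ^ (1 - P.κ) * ‖t'‖ * Real.exp (P.ε / 16 - P.ε) := by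
  have h1 := DomN_exp hP (norm_nonneg t) ht.le
  have h0 : 0 ≤ (1 + P.M * ‖t‖ ^ (2 * P.κ)) ^ P.e := le_trans zero_le_one (DomN_one hP (norm_nonneg t))
  have hε := hP.ε_pos
  have hK := hP.K_pos
  rw [show P.ε / 16 - P.ε = P.ε / 16 + -P.ε by ring, Real.exp_add]
  rcases Bool.eq_false_or_eq_true nd with hnd | hnd <;> subst hnd <;>
    simp only [pT, pN, if_true, Bool.false_eq_true, if_false]
  · have h2 : Real.exp (-P.K * ‖s‖ ^ 2) ≤ 1 := by
      apply Real.exp_le_one_iff.mpr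
      nlinarith [mul_nonneg hK.le (sq_nonneg ‖s‖)]
    calc ‖s‖ ^ (1 - P.κ) * Real.exp (-P.ε * ‖t‖ ^ 2) * ‖t'‖ *
          (1 + P.M * ‖t‖ ^ (2 * P.κ)) ^ P.e * Real.exp (-P.K * ‖s‖ ^ 2)
        ≤ ‖s‖ ^ (1 - P.κ) * Real.exp (-P.ε * ‖t‖ ^ 2) * ‖t'‖ *
          Real.exp (P.ε / 16) * 1 := by gcongr
      _ = _ := by
        rw [ht, one_pow, mul_one, mul_one]
        ring
  · rw [ht, one_pow, mul_one]
    have h2 : 1 ≤ Real.exp (P.ε / 16) := Real.one_le_exp (by linarith)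
    calc ‖s‖ ^ (1 - P.κ) * ‖t'‖ * Real.exp (-P.ε)
        = ‖s‖ ^ (1 - P.κ) * ‖t'‖ * (1 * Real.exp (-P.ε)) := by rw [one_mul]
      _ ≤ _ := by gcongr

/-- bounds for the pieces, inner region -/
theorem pN_inner {C : ℝ} (hC : 1 ≤ C) {P : Par} (hP : DomPar C P) (nd : Bool) {u w : ℂ}
    (hw : ‖w‖ ≤ 1 / 2) (hw' : nd = true → C⁻¹ ≤ ‖w‖) (hu : ‖u‖ ≤ 1) (u' : ℂ) :
    C⁻¹ * ‖u'‖ * Real.exp (-P.ε - P.K / 4) ≤ pN nd P u w u' := by
  have hC0 : (0 : ℝ) < C := by linarith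
  have hε := hP.ε_pos
  have hK := hP.K_pos
  have hκ := hP.κ_pos
  have hκ' := hP.κ_le
  have hCi : 0 < C⁻¹ := inv_pos.mpr hC0
  have hCi1 : C⁻¹ ≤ 1 := inv_le_one_of_one_le₀ hC
  have h1 := DomN_one hP (norm_nonneg u)
  have h2 : C⁻¹ * Real.exp (-P.ε) ≤
      (if nd = true then ‖w‖ ^ (1 - P.κ) * Real.exp (-P.ε * ‖u‖ ^ 2) else 1) := by
    split_ifs with hnd
    · have h3 : C⁻¹ ≤ ‖w‖ ^ (1 - P.κ) := by
        calc C⁻¹ = C⁻¹ ^ (1 : ℝ) := (Real.rpow_one _).symm
          _ ≤ C⁻¹ ^ (1 - P.κ) := Real.rpow_le_rpow_of_exponent_ge hCi hCi1 (by linarith)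
          _ ≤ _ := Real.rpow_le_rpow hCi.le (hw' hnd) (by linarith)
      have h4 : Real.exp (-P.ε) ≤ Real.exp (-P.ε * ‖u‖ ^ 2) := by
        apply Real.exp_le_exp.mpr
        have h5 : ‖u‖ ^ 2 ≤ 1 := pow_le_one₀ (norm_nonneg _) hu
        nlinarith
      gcongr
    · calc C⁻¹ * Real.exp (-P.ε) ≤ 1 * 1 := by
            apply mul_le_mul hCi1 _ (Real.exp_pos _).le zero_le_one
            exact Real.exp_le_one_iff.mpr (by linarith)
        _ = 1 := one_mul 1
  have h6 : Real.exp (-(P.K / 4)) ≤ Real.exp (-P.K * ‖w‖ ^ 2) := by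
    apply Real.exp_le_exp.mpr
    have h7 : ‖w‖ ^ 2 ≤ 1 / 4 := by
      have := norm_nonneg w
      nlinarith
    nlinarith
  have h8 : 0 ≤ C⁻¹ * Real.exp (-P.ε) := by positivity
  have h9 : 0 ≤ (if nd = true then ‖w‖ ^ (1 - P.κ) * Real.exp (-P.ε * ‖u‖ ^ 2) else 1) :=
    h8.trans h2
  unfold pN
  rw [show -P.ε - P.K / 4 = -P.ε + -(P.K / 4) by ring, Real.exp_add]
  calc C⁻¹ * ‖u'‖ * (Real.exp (-P.ε) * Real.exp (-(P.K / 4)))
      = (C⁻¹ * Real.exp (-P.ε)) * ‖u'‖ * 1 * Real.exp (-(P.K / 4)) := by ring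
    _ ≤ _ := by
      apply mul_le_mul _ h6 (Real.exp_pos _).le
      · positivity
      · apply mul_le_mul _ h1 zero_le_one
        · positivity
        · exact mul_le_mul_of_nonneg_right h2 (norm_nonneg _)

/-- bounds for the pieces, inner region -/
theorem pT_inner {C : ℝ} {P : Par} (hP : DomPar C P) (nd : Bool) {u w : ℂ} (hw : ‖w‖ ≤ 1 / 2)
    (hu : P.K * ‖u‖ ^ 2 ≤ P.ε / 16) (w' : ℂ) :
    ‖u‖ ^ (1 - P.κ) * ‖w'‖ * Real.exp (-(5 * P.ε / 16)) ≤ pT nd P u w w' := by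
  have hε := hP.ε_pos
  have hw2 : ‖w‖ ^ 2 ≤ 1 / 4 := by
    have := norm_nonneg w
    nlinarith
  have h1 : Real.exp (-(P.ε / 4)) ≤ Real.exp (-P.ε * ‖w‖ ^ 2) := by
    apply Real.exp_le_exp.mpr
    nlinarith
  have h2 : Real.exp (-(P.ε / 16)) ≤ Real.exp (-P.K * ‖u‖ ^ 2) := by
    apply Real.exp_le_exp.mpr
    linarith
  rcases Bool.eq_false_or_eq_true nd with hnd | hnd <;> subst hnd <;>
    simp only [pT, pN, if_true, Bool.false_eq_true, if_false]
  · have h3 := DomN_one hP (norm_nonneg w)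
    rw [show -(5 * P.ε / 16) = -(P.ε / 4) + -(P.ε / 16) by ring, Real.exp_add]
    calc ‖u‖ ^ (1 - P.κ) * ‖w'‖ * (Real.exp (-(P.ε / 4)) * Real.exp (-(P.ε / 16)))
        = ‖u‖ ^ (1 - P.κ) * Real.exp (-(P.ε / 4)) * ‖w'‖ * 1 * Real.exp (-(P.ε / 16)) := by ring
      _ ≤ ‖u‖ ^ (1 - P.κ) * Real.exp (-P.ε * ‖w‖ ^ 2) * ‖w'‖ *
          (1 + P.M * ‖w‖ ^ (2 * P.κ)) ^ P.e * Real.exp (-P.K * ‖u‖ ^ 2) := by
        gcongr
  · have h4 : Real.exp (-(5 * P.ε / 16)) ≤ Real.exp (-P.ε * ‖w‖ ^ 2) := by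
      refine le_trans (Real.exp_le_exp.mpr ?_) h1
      linarith
    gcongr

end Pool.Agent.H14.PP

end

section

/-!
# BPm Dom: comparison of the pieces of two charts

Let `C ≥ 1`, `P` with `DomPar C P`. There is `r > 0` such that: for `‖s‖ ≤ r`, `‖t‖ = 1`,
`TE C s u l b c m`, `‖w‖ ≤ 1/2`, (`nd' = true → C⁻¹ ≤ ‖w‖`), `0 < A'`, `A = ‖l m - b c‖ A'`,
`u' = l s' + b t'`, `w' = c s' + m t'`:
`A * max (pN nd P s t s') (pT nd P s t t') < A' * max (pN nd' P u w u') (pT nd' P u w w')`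
if the left side is positive.

Write `N' = pN nd' P u w u'`, `T' = pT nd' P u w w'`, `K, ε, κ` the parameters, `x = ‖s‖`; `O(x^θ)`
stands for a constant depending on `C, P` times `x^θ`.
From `DomN`: `‖u'‖ ≤ C exp (ε + K/4) N'`, `‖u‖^(1-κ) ‖w'‖ ≤ exp (5ε/16) T'`, and
`‖u‖ ≥ x/(2C)`, so `x^(1-κ) ≤ (2C)^(1-κ) ‖u‖^(1-κ) ≤ 2C ‖u‖^(1-κ)`, hence
`x ‖w'‖ = x^κ x^(1-κ) ‖w'‖ ≤ 2 C x^κ exp (5ε/16) T'`.
1. Normal piece: `A pN ≤ 2C^2 A' ‖s'‖ exp (ε/16 - K)` and
   `‖s'‖ ≤ 2C ‖u'‖ + 2C^3 x ‖w'‖ ≤ 2 C^2 exp (ε + K/4) N' + 4 C^4 x^κ exp (5ε/16) T'`, so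
   `A pN ≤ A' (4 C^4 exp (17ε/16 - 3K/4) N' + O(x^κ) T') ≤ A' (N'/4 + O(x^κ) T')`
   by `K_ge` (`16 C^4 e^2 ≤ exp (3K/4)`, `ε ≤ 1`).
2. Tangential piece: `A pT ≤ A' (‖l‖‖m‖ + C^2 x) x^(1-κ) ‖t'‖ exp (-15ε/16)`.
   `‖l‖ ‖m‖ x^(1-κ) ‖t'‖ ≤ ‖l‖ x^(1-κ) (‖w'‖ + C ‖s'‖)`,
   `‖l‖ x^(1-κ) = ‖l‖^κ (‖l‖ x)^(1-κ) ≤ exp (ε/8) (1 - C^2 x)^(-1) ‖u‖^(1-κ)`
   (`‖l‖^κ ≤ C^κ ≤ exp (ε/8)` by `κ_log`; `‖l‖ x ≤ ‖u‖/(1 - C^2 x)`, `comp_u`).
   So `A pT ≤ A' (exp (-15ε/16 + ε/8 + 5ε/16) (1 + O(x)) T' + O(x^(1-κ)) N' + O(x) T')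
   ≤ A' ((exp (-ε/2) + O(x^(1-κ))) T' + O(x^(1-κ)) N')` (`‖s'‖` from step 1, `‖t'‖ ≤ C (‖w'‖ + C‖s'‖)`).
With `m' = max N' T'`: both are at most `A' m' θ`, `θ < 1`, if `x ≤ r` is small enough; and `m' > 0`
since the left side is positive.
-/

open Topology Filter Metric

namespace Pool.Agent.H14.PP

/-- the small numbers of the proof -/
private theorem Dom_small {C : ℝ} (hC : 1 ≤ C) {P : Par} (hP : DomPar C P) (E1 E5 : ℝ) :
    ∃ r : ℝ, 0 < r ∧ r ≤ 1 ∧ ∀ x : ℝ, 0 ≤ x → x ≤ r → C ^ 2 * x ≤ 1 / 2 ∧ x ≤ 1 / (2 * C ^ 4) ∧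
      P.K * (4 * C ^ 2 * x ^ 2) ≤ P.ε / 16 ∧ 24 * C ^ 6 * x ^ P.κ ≤ 1 / 4 ∧
      Real.exp (-(P.ε / 2)) * (1 - C ^ 2 * x)⁻¹ + 2 * C ^ 4 * x * E5 +
        2 * C ^ 4 * x ^ (1 - P.κ) * (2 * C ^ 2 * E1 + 4 * C ^ 4 * x ^ P.κ * E5) < 1 := by
  have hC0 : 0 < C := by linarith
  have hε := hP.ε_pos
  have hκ := hP.κ_pos
  have hκ1 : 0 < 1 - P.κ := by linarith [hP.κ_le]
  have ck : Continuous fun x : ℝ => x ^ P.κ := Real.continuous_rpow_const hκ.le
  have ck1 : Continuous fun x : ℝ => x ^ (1 - P.κ) := Real.continuous_rpow_const hκ1.le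
  have h1 : ∀ᶠ x in 𝓝 (0 : ℝ), C ^ 2 * x < 1 / 2 := by
    have hc : Continuous fun x : ℝ => C ^ 2 * x := by fun_prop
    exact hc.continuousAt.eventually (gt_mem_nhds (by norm_num))
  have h2 : ∀ᶠ x in 𝓝 (0 : ℝ), x < 1 / (2 * C ^ 4) := gt_mem_nhds (by positivity)
  have h3 : ∀ᶠ x in 𝓝 (0 : ℝ), P.K * (4 * C ^ 2 * x ^ 2) < P.ε / 16 := by
    have hc : Continuous fun x : ℝ => P.K * (4 * C ^ 2 * x ^ 2) := by fun_prop
    refine hc.continuousAt.eventually (gt_mem_nhds ?_)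
    simp only [ne_eq, OfNat.ofNat_ne_zero, not_false_eq_true, zero_pow, mul_zero]
    positivity
  have h4 : ∀ᶠ x in 𝓝 (0 : ℝ), 24 * C ^ 6 * x ^ P.κ < 1 / 4 := by
    have hc : Continuous fun x : ℝ => 24 * C ^ 6 * x ^ P.κ := by fun_prop
    refine hc.continuousAt.eventually (gt_mem_nhds ?_)
    simp only [Real.zero_rpow hκ.ne', mul_zero]
    norm_num
  have h5 : ∀ᶠ x in 𝓝 (0 : ℝ), Real.exp (-(P.ε / 2)) * (1 - C ^ 2 * x)⁻¹ + 2 * C ^ 4 * x * E5 +
        2 * C ^ 4 * x ^ (1 - P.κ) * (2 * C ^ 2 * E1 + 4 * C ^ 4 * x ^ P.κ * E5) < 1 := by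
    have hc0 : ContinuousAt (fun x : ℝ => (1 - C ^ 2 * x)⁻¹) 0 := by
      refine ContinuousAt.inv₀ (by fun_prop) ?_
      norm_num
    have hc : ContinuousAt (fun x : ℝ => Real.exp (-(P.ε / 2)) * (1 - C ^ 2 * x)⁻¹ + 2 * C ^ 4 * x * E5 +
        2 * C ^ 4 * x ^ (1 - P.κ) * (2 * C ^ 2 * E1 + 4 * C ^ 4 * x ^ P.κ * E5)) 0 := by
      refine ContinuousAt.add (ContinuousAt.add (continuousAt_const.mul hc0) (by fun_prop)) ?_
      exact Continuous.continuousAt (by fun_prop)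
    refine hc.eventually (gt_mem_nhds ?_)
    simp only [Real.zero_rpow hκ.ne', Real.zero_rpow hκ1.ne', mul_zero, zero_mul, sub_zero, inv_one, mul_one, add_zero]
    rw [Real.exp_lt_one_iff]
    linarith
  obtain ⟨δ, hδ, hball⟩ := Metric.eventually_nhds_iff.1 (h1.and (h2.and (h3.and (h4.and h5))))
  refine ⟨min (δ / 2) 1, by positivity, min_le_right _ _, fun x hx0 hx => ?_⟩
  have hxd : dist x 0 < δ := by
    rw [Real.dist_eq, sub_zero, abs_of_nonneg hx0]
    linarith [hx.trans (min_le_left _ _)]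
  obtain ⟨k1, k2, k3, k4, k5⟩ := hball hxd
  exact ⟨k1.le, k2.le, k3.le, k4.le, k5⟩

theorem dom {C : ℝ} (hC : 1 ≤ C) {P : Par} (hP : DomPar C P) :
    ∃ r : ℝ, 0 < r ∧ r ≤ 1 ∧ ∀ (nd nd' : Bool) (p w p' : ℂ × ℂ) (l b c m : ℂ) (A A' : ℝ),
      ‖p.1‖ ≤ r → ‖p.2‖ = 1 → ‖p'‖ ≤ 1 / 2 → (nd' = true → C⁻¹ ≤ ‖p'.2‖) →
      TE C p.1 p'.1 l b c m → 0 ≤ A' → A = ‖l * m - b * c‖ * A' → 0 < A * pM nd P p w →
      A * pM nd P p w < A' * pM nd' P p' (l * w.1 + b * w.2, c * w.1 + m * w.2) := by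
  set E1 := Real.exp (P.ε + P.K / 4) with hE1
  set E5 := Real.exp (5 * P.ε / 16) with hE5
  have hE1p : 0 < E1 := Real.exp_pos _
  have hE5p : 0 < E5 := Real.exp_pos _
  have hC0 : 0 < C := by linarith
  have hε := hP.ε_pos
  have hε1 := hP.ε_le
  have hκ := hP.κ_pos
  have hκ1 : 0 < 1 - P.κ := by linarith [hP.κ_le]
  have hK := hP.K_pos
  obtain ⟨r, hr, hr1, hsm⟩ := Dom_small hC hP E1 E5
  refine ⟨r, hr, hr1, ?_⟩
  rintro nd nd' ⟨s, t⟩ ⟨s', t'⟩ ⟨u, v⟩ l b c m A A' hs ht hp' hnd hT hA' hA hpos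
  simp only at hs ht hnd hT hpos ⊢
  have hu12 : ‖u‖ ≤ 1 / 2 := (norm_fst_le ((u, v) : ℂ × ℂ)).trans hp'
  have hv12 : ‖v‖ ≤ 1 / 2 := (norm_snd_le ((u, v) : ℂ × ℂ)).trans hp'
  set x := ‖s‖ with hx
  have hx0 : 0 ≤ x := norm_nonneg _
  have hx1 : x ≤ 1 := hs.trans hr1
  obtain ⟨k1, k2, k3, k4, k5⟩ := hsm x hx0 hs
  obtain ⟨hb, hc, hul, hl1, hl2, hm1, hm2⟩ := hT
  have hT : TE C s u l b c m := ⟨hb, hc, hul, hl1, hl2, hm1, hm2⟩
  obtain ⟨hu1, hu2⟩ := comp_u hC hT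
  rw [← hx] at hu1 hu2
  have hl0 : 0 < ‖l‖ := lt_of_lt_of_le (by positivity) hl1
  have hm0 : 0 < ‖m‖ := lt_of_lt_of_le (by positivity) hm1
  -- bounds for `u`
  have hux : ‖u‖ ≤ 2 * C * x := by
    calc ‖u‖ ≤ ‖l‖ * x * (1 + C ^ 2 * x) := hu2
      _ ≤ C * x * 2 := by
          refine mul_le_mul (mul_le_mul_of_nonneg_right hl2 hx0) (by linarith) (by positivity) (by positivity)
      _ = 2 * C * x := by ring
  have hxu : x ≤ 2 * C * ‖u‖ := by
    have h1 : C⁻¹ * x * (1 / 2) ≤ ‖u‖ := by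
      refine le_trans ?_ hu1
      refine mul_le_mul (mul_le_mul_of_nonneg_right hl1 hx0) (by linarith) (by norm_num) (by positivity)
    calc x = 2 * C * (C⁻¹ * x * (1 / 2)) := by field_simp
      _ ≤ 2 * C * ‖u‖ := mul_le_mul_of_nonneg_left h1 (by positivity)
  have hKu : P.K * ‖u‖ ^ 2 ≤ P.ε / 16 := by
    refine le_trans (mul_le_mul_of_nonneg_left ?_ hK.le) k3
    calc ‖u‖ ^ 2 ≤ (2 * C * x) ^ 2 := pow_le_pow_left₀ (norm_nonneg _) hux 2
      _ = 4 * C ^ 2 * x ^ 2 := by ring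
  set u' := l * s' + b * t' with hu'
  set w' := c * s' + m * t' with hw'
  set N' := pN nd' P u v u' with hN'
  set T' := pT nd' P u v w' with hT'
  set q := x ^ (1 - P.κ) with hq
  set xk := x ^ P.κ with hxk
  set yk := ‖u‖ ^ (1 - P.κ) with hyk
  have hq0 : 0 ≤ q := Real.rpow_nonneg hx0 _
  have hxk0 : 0 ≤ xk := Real.rpow_nonneg hx0 _
  have hyk0 : 0 ≤ yk := Real.rpow_nonneg (norm_nonneg _) _
  have hNin := pN_inner hC hP nd' hv12 hnd (hu12.trans (by norm_num)) u'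
  have hTin := pT_inner (C := C) hP nd' hv12 hKu w'
  rw [← hN'] at hNin
  rw [← hT', ← hyk] at hTin
  have hN0 : 0 ≤ N' := le_trans (by positivity) hNin
  have hT0 : 0 ≤ T' := le_trans (by positivity) hTin
  have hunorm : ‖u'‖ ≤ C * E1 * N' := by
    have h1 : ‖u'‖ = C * E1 * (C⁻¹ * ‖u'‖ * Real.exp (-P.ε - P.K / 4)) := by
      have h2 : E1 * Real.exp (-P.ε - P.K / 4) = 1 := by
        rw [hE1, ← Real.exp_add]
        have : P.ε + P.K / 4 + (-P.ε - P.K / 4) = 0 := by ring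
        rw [this, Real.exp_zero]
      calc ‖u'‖ = (C * C⁻¹) * (E1 * Real.exp (-P.ε - P.K / 4)) * ‖u'‖ := by
            rw [h2, mul_inv_cancel₀ hC0.ne']; ring
        _ = C * E1 * (C⁻¹ * ‖u'‖ * Real.exp (-P.ε - P.K / 4)) := by ring
    rw [h1]
    exact mul_le_mul_of_nonneg_left hNin (by positivity)
  have hwnorm : yk * ‖w'‖ ≤ E5 * T' := by
    have h1 : yk * ‖w'‖ = E5 * (yk * ‖w'‖ * Real.exp (-(5 * P.ε / 16))) := by
      have h2 : E5 * Real.exp (-(5 * P.ε / 16)) = 1 := by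
        rw [hE5, ← Real.exp_add, add_neg_cancel, Real.exp_zero]
      calc yk * ‖w'‖ = (E5 * Real.exp (-(5 * P.ε / 16))) * (yk * ‖w'‖) := by rw [h2, one_mul]
        _ = E5 * (yk * ‖w'‖ * Real.exp (-(5 * P.ε / 16))) := by ring
    rw [h1]
    exact mul_le_mul_of_nonneg_left hTin hE5p.le
  have hqy : q ≤ 2 * C * yk := by
    have h1 : q ≤ (2 * C * ‖u‖) ^ (1 - P.κ) := Real.rpow_le_rpow hx0 hxu hκ1.le
    have h2 : (2 * C * ‖u‖) ^ (1 - P.κ) = (2 * C) ^ (1 - P.κ) * yk := Real.mul_rpow (by positivity) (norm_nonneg _)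
    have h3 : (2 * C) ^ (1 - P.κ) ≤ 2 * C := by
      calc (2 * C) ^ (1 - P.κ) ≤ (2 * C) ^ (1 : ℝ) :=
            Real.rpow_le_rpow_of_exponent_le (by linarith) (by linarith)
        _ = 2 * C := Real.rpow_one _
    rw [h2] at h1
    exact h1.trans (mul_le_mul_of_nonneg_right h3 hyk0)
  have hxq : x = xk * q := by
    rw [hxk, hq, ← Real.rpow_add_of_nonneg hx0 hκ.le hκ1.le]
    have : P.κ + (1 - P.κ) = 1 := by ring
    rw [this, Real.rpow_one]
  have hqw : q * ‖w'‖ ≤ 2 * C * (E5 * T') := by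
    calc q * ‖w'‖ ≤ 2 * C * yk * ‖w'‖ := mul_le_mul_of_nonneg_right hqy (norm_nonneg _)
      _ = 2 * C * (yk * ‖w'‖) := by ring
      _ ≤ 2 * C * (E5 * T') := mul_le_mul_of_nonneg_left hwnorm (by positivity)
  have hxw : x * ‖w'‖ ≤ xk * (2 * C * (E5 * T')) := by
    calc x * ‖w'‖ = xk * (q * ‖w'‖) := by rw [← mul_assoc, ← hxq]
      _ ≤ xk * (2 * C * (E5 * T')) := mul_le_mul_of_nonneg_left hqw hxk0
  have hsnorm : ‖s'‖ ≤ 2 * C ^ 2 * E1 * N' + 4 * C ^ 4 * xk * E5 * T' := by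
    have h1 := comp_s hC hT (s' := s') (t' := t') k2
    rw [← hu', ← hw', ← hx] at h1
    calc ‖s'‖ ≤ 2 * C * ‖u'‖ + 2 * C ^ 3 * x * ‖w'‖ := h1
      _ = 2 * C * ‖u'‖ + 2 * C ^ 3 * (x * ‖w'‖) := by ring
      _ ≤ 2 * C * (C * E1 * N') + 2 * C ^ 3 * (xk * (2 * C * (E5 * T'))) :=
          add_le_add (mul_le_mul_of_nonneg_left hunorm (by positivity))
            (mul_le_mul_of_nonneg_left hxw (by positivity))
      _ = 2 * C ^ 2 * E1 * N' + 4 * C ^ 4 * xk * E5 * T' := by ring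
  -- the Jacobian
  set J := ‖l * m - b * c‖ with hJ
  have hJ0 : 0 ≤ J := norm_nonneg _
  have hJ1 : J ≤ ‖l‖ * ‖m‖ + C ^ 2 * x := comp_J hC hT
  have hJ2 : J ≤ 2 * C ^ 2 := by
    have h1 : ‖l‖ * ‖m‖ ≤ C * C := mul_le_mul hl2 hm2 (norm_nonneg _) hC0.le
    have h2 : C ^ 2 * x ≤ C ^ 2 := mul_le_of_le_one_right (sq_nonneg C) hx1
    calc J ≤ ‖l‖ * ‖m‖ + C ^ 2 * x := hJ1
      _ ≤ C * C + C ^ 2 := add_le_add h1 h2
      _ = 2 * C ^ 2 := by ring
  set mm := max N' T' with hmm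
  have hNm : N' ≤ mm := le_max_left _ _
  have hTm : T' ≤ mm := le_max_right _ _
  have hm00 : 0 ≤ mm := hN0.trans hNm
  have hA0 : 0 ≤ A := by rw [hA]; positivity
  -- the normal piece
  have hnorm : A * pN nd P s t s' ≤ A' * (1 / 2 * mm) := by
    have h1 := pN_outer hP nd ht hx1 s'
    have e1 : Real.exp (P.ε / 16 - P.K) * E1 * (4 * C ^ 4) ≤ 1 / 4 := by
      have h2 : Real.exp (P.ε / 16 - P.K) * E1 = Real.exp (17 * P.ε / 16 - 3 * P.K / 4) := by
        rw [hE1, ← Real.exp_add]; congr 1; ring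
      have h3 : Real.exp (17 * P.ε / 16 - 3 * P.K / 4) ≤ Real.exp 2 * Real.exp (-(3 * P.K / 4)) := by
        rw [← Real.exp_add]
        exact Real.exp_le_exp.2 (by linarith)
      have h4 : Real.exp (3 * P.K / 4) * Real.exp (-(3 * P.K / 4)) = 1 := by
        rw [← Real.exp_add, add_neg_cancel, Real.exp_zero]
      have h5 : 16 * C ^ 4 * Real.exp 2 * Real.exp (-(3 * P.K / 4)) ≤ 1 := by
        calc 16 * C ^ 4 * Real.exp 2 * Real.exp (-(3 * P.K / 4)) ≤
              Real.exp (3 * P.K / 4) * Real.exp (-(3 * P.K / 4)) :=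
              mul_le_mul_of_nonneg_right hP.K_ge (Real.exp_pos _).le
          _ = 1 := h4
      rw [h2]
      have hC4 : 0 < 4 * C ^ 4 := by positivity
      calc Real.exp (17 * P.ε / 16 - 3 * P.K / 4) * (4 * C ^ 4) ≤
            Real.exp 2 * Real.exp (-(3 * P.K / 4)) * (4 * C ^ 4) := mul_le_mul_of_nonneg_right h3 hC4.le
        _ = (16 * C ^ 4 * Real.exp 2 * Real.exp (-(3 * P.K / 4))) / 4 := by ring
        _ ≤ 1 / 4 := by linarith
    have e2 : Real.exp (P.ε / 16 - P.K) * E5 ≤ 3 := by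
      rw [hE5, ← Real.exp_add]
      have h2 : Real.exp (P.ε / 16 - P.K + 5 * P.ε / 16) ≤ Real.exp 1 := Real.exp_le_exp.2 (by linarith)
      have h3 := Real.exp_one_lt_d9
      linarith
    have e3 : Real.exp (P.ε / 16 - P.K) * E5 * (8 * C ^ 6 * xk) ≤ 1 / 4 := by
      calc Real.exp (P.ε / 16 - P.K) * E5 * (8 * C ^ 6 * xk) ≤ 3 * (8 * C ^ 6 * xk) :=
            mul_le_mul_of_nonneg_right e2 (by positivity)
        _ = 24 * C ^ 6 * xk := by ring
        _ ≤ 1 / 4 := k4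
    have hexp0 : 0 ≤ Real.exp (P.ε / 16 - P.K) := (Real.exp_pos _).le
    calc A * pN nd P s t s' ≤ A * (‖s'‖ * Real.exp (P.ε / 16 - P.K)) := mul_le_mul_of_nonneg_left h1 hA0
      _ = A' * (J * (‖s'‖ * Real.exp (P.ε / 16 - P.K))) := by rw [hA]; ring
      _ ≤ A' * (2 * C ^ 2 * ((2 * C ^ 2 * E1 * N' + 4 * C ^ 4 * xk * E5 * T') * Real.exp (P.ε / 16 - P.K))) := by
          refine mul_le_mul_of_nonneg_left ?_ hA'
          refine mul_le_mul hJ2 ?_ (by positivity) (by positivity)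
          exact mul_le_mul_of_nonneg_right hsnorm hexp0
      _ = A' * ((Real.exp (P.ε / 16 - P.K) * E1 * (4 * C ^ 4)) * N' +
            (Real.exp (P.ε / 16 - P.K) * E5 * (8 * C ^ 6 * xk)) * T') := by ring
      _ ≤ A' * (1 / 4 * mm + 1 / 4 * mm) := by
          refine mul_le_mul_of_nonneg_left ?_ hA'
          refine add_le_add ?_ ?_
          · exact mul_le_mul e1 hNm hN0 (by norm_num)
          · exact mul_le_mul e3 hTm hT0 (by norm_num)
      _ = A' * (1 / 2 * mm) := by ring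
  -- the tangential piece
  have hD0 : 0 < 1 - C ^ 2 * x := by linarith
  set D := (1 - C ^ 2 * x)⁻¹ with hD
  have hDp : 0 < D := inv_pos.2 hD0
  have hD1 : 1 ≤ D := by
    rw [hD]
    exact (one_le_inv₀ hD0).2 (sub_le_self 1 (mul_nonneg (sq_nonneg C) hx0))
  have hlq : ‖l‖ * q ≤ Real.exp (P.ε / 8) * D * yk := by
    have h1 : ‖l‖ = ‖l‖ ^ P.κ * ‖l‖ ^ (1 - P.κ) := by
      rw [← Real.rpow_add_of_nonneg (norm_nonneg _) hκ.le hκ1.le]
      have : P.κ + (1 - P.κ) = 1 := by ring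
      rw [this, Real.rpow_one]
    have h2 : ‖l‖ ^ (1 - P.κ) * q = (‖l‖ * x) ^ (1 - P.κ) := (Real.mul_rpow (norm_nonneg _) hx0).symm
    have h3 : ‖l‖ * x ≤ ‖u‖ * D := by
      rw [hD, ← div_eq_mul_inv, le_div_iff₀ hD0]
      exact hu1
    have h4 : (‖l‖ * x) ^ (1 - P.κ) ≤ yk * D := by
      calc (‖l‖ * x) ^ (1 - P.κ) ≤ (‖u‖ * D) ^ (1 - P.κ) := Real.rpow_le_rpow (by positivity) h3 hκ1.le
        _ = yk * D ^ (1 - P.κ) := Real.mul_rpow (norm_nonneg _) hDp.le
        _ ≤ yk * D ^ (1 : ℝ) := mul_le_mul_of_nonneg_left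
            (Real.rpow_le_rpow_of_exponent_le hD1 (by linarith)) hyk0
        _ = yk * D := by rw [Real.rpow_one]
    have h5 : ‖l‖ ^ P.κ ≤ Real.exp (P.ε / 8) := by
      calc ‖l‖ ^ P.κ ≤ C ^ P.κ := Real.rpow_le_rpow (norm_nonneg _) hl2 hκ.le
        _ = Real.exp (Real.log C * P.κ) := Real.rpow_def_of_pos hC0 _
        _ ≤ Real.exp (P.ε / 8) := Real.exp_le_exp.2 (by linarith [hP.κ_log, mul_comm (Real.log C) P.κ])
    calc ‖l‖ * q = ‖l‖ ^ P.κ * (‖l‖ ^ (1 - P.κ) * q) := by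
          conv_lhs => rw [h1]
          ring
      _ = ‖l‖ ^ P.κ * (‖l‖ * x) ^ (1 - P.κ) := by rw [h2]
      _ ≤ Real.exp (P.ε / 8) * (yk * D) := mul_le_mul h5 h4 (by positivity) (Real.exp_pos _).le
      _ = Real.exp (P.ε / 8) * D * yk := by ring
  have hmt : ‖m‖ * ‖t'‖ ≤ ‖w'‖ + C * ‖s'‖ := comp_t hT
  set W := ‖w'‖ + C * ‖s'‖ with hW
  have hW0 : 0 ≤ W := by positivity
  have htW : ‖t'‖ ≤ C * W := by
    have h1 : C⁻¹ * ‖t'‖ ≤ W := (mul_le_mul_of_nonneg_right hm1 (norm_nonneg _)).trans hmt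
    calc ‖t'‖ = C * (C⁻¹ * ‖t'‖) := by rw [← mul_assoc, mul_inv_cancel₀ hC0.ne', one_mul]
      _ ≤ C * W := mul_le_mul_of_nonneg_left h1 hC0.le
  have hJt : J * (q * ‖t'‖) ≤ Real.exp (P.ε / 8) * D * (E5 * T') + 2 * C ^ 4 * x * (E5 * T') +
      2 * C ^ 4 * q * ‖s'‖ := by
    have h1 : J * (q * ‖t'‖) ≤ (‖l‖ * ‖m‖ + C ^ 2 * x) * (q * ‖t'‖) := mul_le_mul_of_nonneg_right hJ1 (by positivity)
    have h2 : ‖l‖ * q * (‖m‖ * ‖t'‖) ≤ ‖l‖ * q * W := mul_le_mul_of_nonneg_left hmt (by positivity)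
    have h3 : C ^ 2 * x * q * ‖t'‖ ≤ C ^ 2 * x * q * (C * W) := mul_le_mul_of_nonneg_left htW (by positivity)
    have h4 : ‖l‖ * q * ‖w'‖ ≤ Real.exp (P.ε / 8) * D * (E5 * T') := by
      calc ‖l‖ * q * ‖w'‖ ≤ Real.exp (P.ε / 8) * D * yk * ‖w'‖ := mul_le_mul_of_nonneg_right hlq (norm_nonneg _)
        _ = Real.exp (P.ε / 8) * D * (yk * ‖w'‖) := by ring
        _ ≤ Real.exp (P.ε / 8) * D * (E5 * T') := mul_le_mul_of_nonneg_left hwnorm (by positivity)
    have h5 : ‖l‖ * q * (C * ‖s'‖) ≤ C * q * (C * ‖s'‖) :=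
      mul_le_mul_of_nonneg_right (mul_le_mul_of_nonneg_right hl2 hq0) (by positivity)
    have h6 : C ^ 3 * x * (q * ‖w'‖) ≤ C ^ 3 * x * (2 * C * (E5 * T')) := mul_le_mul_of_nonneg_left hqw (by positivity)
    have h7 : C ^ 4 * q * ‖s'‖ * x ≤ C ^ 4 * q * ‖s'‖ * 1 := mul_le_mul_of_nonneg_left hx1 (by positivity)
    have h8 : C ^ 2 * q * ‖s'‖ ≤ C ^ 4 * q * ‖s'‖ := by
      have h9 : C ^ 2 ≤ C ^ 4 := pow_le_pow_right₀ hC (by norm_num)
      exact mul_le_mul_of_nonneg_right (mul_le_mul_of_nonneg_right h9 hq0) (norm_nonneg _)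
    have e1 : (‖l‖ * ‖m‖ + C ^ 2 * x) * (q * ‖t'‖) = ‖l‖ * q * (‖m‖ * ‖t'‖) + C ^ 2 * x * q * ‖t'‖ := by ring
    have e2 : ‖l‖ * q * W + C ^ 2 * x * q * (C * W) =
        ‖l‖ * q * ‖w'‖ + ‖l‖ * q * (C * ‖s'‖) + C ^ 3 * x * (q * ‖w'‖) + C ^ 4 * q * ‖s'‖ * x := by rw [hW]; ring
    have e3 : C * q * (C * ‖s'‖) = C ^ 2 * q * ‖s'‖ := by ring
    have e4 : C ^ 3 * x * (2 * C * (E5 * T')) = 2 * C ^ 4 * x * (E5 * T') := by ring
    have e5 : 2 * C ^ 4 * q * ‖s'‖ = C ^ 4 * q * ‖s'‖ + C ^ 4 * q * ‖s'‖ := by ring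
    rw [e3] at h5
    rw [e4] at h6
    rw [e5]
    linarith
  have hexp15 : Real.exp (P.ε / 16 - P.ε) ≤ 1 := Real.exp_le_one_iff.2 (by linarith)
  have hexp150 : 0 < Real.exp (P.ε / 16 - P.ε) := Real.exp_pos _
  have hqs : 2 * C ^ 4 * q * ‖s'‖ ≤ 2 * C ^ 4 * q * (2 * C ^ 2 * E1 + 4 * C ^ 4 * xk * E5) * mm := by
    have h1 : ‖s'‖ ≤ (2 * C ^ 2 * E1 + 4 * C ^ 4 * xk * E5) * mm := by
      calc ‖s'‖ ≤ 2 * C ^ 2 * E1 * N' + 4 * C ^ 4 * xk * E5 * T' := hsnorm
        _ ≤ 2 * C ^ 2 * E1 * mm + 4 * C ^ 4 * xk * E5 * mm :=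
            add_le_add (mul_le_mul_of_nonneg_left hNm (by positivity))
              (mul_le_mul_of_nonneg_left hTm (by positivity))
        _ = (2 * C ^ 2 * E1 + 4 * C ^ 4 * xk * E5) * mm := by ring
    calc 2 * C ^ 4 * q * ‖s'‖ ≤ 2 * C ^ 4 * q * ((2 * C ^ 2 * E1 + 4 * C ^ 4 * xk * E5) * mm) :=
          mul_le_mul_of_nonneg_left h1 (by positivity)
      _ = 2 * C ^ 4 * q * (2 * C ^ 2 * E1 + 4 * C ^ 4 * xk * E5) * mm := by ring
  set φ := Real.exp (-(P.ε / 2)) * D + 2 * C ^ 4 * x * E5 +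
        2 * C ^ 4 * q * (2 * C ^ 2 * E1 + 4 * C ^ 4 * xk * E5) with hφ
  have htan : A * pT nd P s t t' ≤ A' * (φ * mm) := by
    have h1 := pT_outer hP nd ht hx1 t'
    rw [← hx, ← hq] at h1
    have hmain : Real.exp (P.ε / 16 - P.ε) * (Real.exp (P.ε / 8) * D * (E5 * T')) =
        Real.exp (-(P.ε / 2)) * D * T' := by
      have h2 : Real.exp (P.ε / 16 - P.ε) * Real.exp (P.ε / 8) * E5 = Real.exp (-(P.ε / 2)) := by
        rw [hE5, ← Real.exp_add, ← Real.exp_add]; congr 1; ring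
      rw [← h2]; ring
    calc A * pT nd P s t t' ≤ A * (q * ‖t'‖ * Real.exp (P.ε / 16 - P.ε)) := mul_le_mul_of_nonneg_left h1 hA0
      _ = A' * (Real.exp (P.ε / 16 - P.ε) * (J * (q * ‖t'‖))) := by rw [hA]; ring
      _ ≤ A' * (Real.exp (P.ε / 16 - P.ε) * (Real.exp (P.ε / 8) * D * (E5 * T') +
            2 * C ^ 4 * x * (E5 * T') + 2 * C ^ 4 * q * ‖s'‖)) :=
          mul_le_mul_of_nonneg_left (mul_le_mul_of_nonneg_left hJt hexp150.le) hA'
      _ = A' * (Real.exp (-(P.ε / 2)) * D * T' +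
            Real.exp (P.ε / 16 - P.ε) * (2 * C ^ 4 * x * (E5 * T') + 2 * C ^ 4 * q * ‖s'‖)) := by
          rw [← hmain]; ring
      _ ≤ A' * (Real.exp (-(P.ε / 2)) * D * mm +
            1 * (2 * C ^ 4 * x * (E5 * mm) + 2 * C ^ 4 * q * (2 * C ^ 2 * E1 + 4 * C ^ 4 * xk * E5) * mm)) := by
          refine mul_le_mul_of_nonneg_left ?_ hA'
          refine add_le_add (mul_le_mul_of_nonneg_left hTm (by positivity)) ?_
          refine mul_le_mul hexp15 ?_ (by positivity) zero_le_one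
          refine add_le_add ?_ hqs
          exact mul_le_mul_of_nonneg_left (mul_le_mul_of_nonneg_left hTm hE5p.le) (by positivity)
      _ = A' * (φ * mm) := by rw [hφ]; ring
  -- conclusion
  have hθ : max (1 / 2) φ < 1 := max_lt (by norm_num) k5
  set θ := max (1 / 2) φ with hθd
  have hθ0 : 0 ≤ θ := le_trans (by norm_num) (le_max_left _ _)
  have htot : A * pM nd P (s, t) (s', t') ≤ A' * (θ * mm) := by
    show A * max (pN nd P s t s') (pT nd P s t t') ≤ A' * (θ * mm)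
    rw [mul_max_of_nonneg _ _ hA0]
    refine max_le (hnorm.trans ?_) (htan.trans ?_)
    · exact mul_le_mul_of_nonneg_left (mul_le_mul_of_nonneg_right (le_max_left _ _) hm00) hA'
    · exact mul_le_mul_of_nonneg_left (mul_le_mul_of_nonneg_right (le_max_right _ _) hm00) hA'
  have hgoal : A' * pM nd' P (u, v) (u', w') = A' * mm := rfl
  rw [hgoal]
  have hpos2 : 0 < A' * (θ * mm) := lt_of_lt_of_le hpos htot
  have hA'p : 0 < A' := by
    rcases hA'.eq_or_lt with h | h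
    · rw [← h, zero_mul] at hpos2; exact absurd hpos2 (lt_irrefl _)
    · exact h
  have hmmp : 0 < mm := by
    rcases hm00.eq_or_lt with h | h
    · rw [← h, mul_zero, mul_zero] at hpos2; exact absurd hpos2 (lt_irrefl _)
    · exact h
  refine lt_of_le_of_lt htot ?_
  refine mul_lt_mul_of_pos_left ?_ hA'p
  calc θ * mm < 1 * mm := mul_lt_mul_of_pos_right hθ hmmp
    _ = mm := one_mul _

end Pool.Agent.H14.PP

end

section

/-!
# SG CoNe: the coefficient of the form off the curve, and its order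
-/

set_option autoImplicit false

open Topology Filter Metric

noncomputable section

namespace Pool.Agent.H90.SG

open Pool.Agent.H17BP (Surface IsForm NoZeros IsChart Tan)

variable {V : Type} [NormedAddCommGroup V] [NormedSpace ℂ V]

/-- the three vectors of a chart are linearly independent -/
theorem linInd_chart [CompleteSpace V] {X : Set V} {σ : ℂ × ℂ → V} {τ : V → ℂ × ℂ} (h : IsChart X σ τ) :
    ∀ᶠ p in 𝓝 (0 : ℂ × ℂ), LinearIndependent ℂ ![σ p, fderiv ℂ σ p (1, 0), fderiv ℂ σ p (0, 1)] := by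
  have h1 : Tendsto σ (𝓝 0) (𝓝 (σ 0)) := h.σ_an.continuousAt
  have h2 : ∀ᶠ p in 𝓝 (0 : ℂ × ℂ), DifferentiableAt ℂ τ (σ p) := h1.eventually (h.τ_an.eventually_analyticAt.mono fun y hy => hy.differentiableAt)
  have h3 : ∀ᶠ p in 𝓝 (0 : ℂ × ℂ), ∀ᶠ q in 𝓝 (σ p, (1 : ℂ)), τ (q.2 • q.1) = τ q.1 := by
    have h4 : Tendsto (fun p => (σ p, (1 : ℂ))) (𝓝 0) (𝓝 (σ 0, (1 : ℂ))) := h1.prodMk_nhds tendsto_const_nhds
    exact h4.eventually h.inv.eventually_nhds
  have h5 : ∀ᶠ p in 𝓝 (0 : ℂ × ℂ), σ p ≠ 0 := h.σ_an.continuousAt.eventually_ne h.ne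
  filter_upwards [h2, h3, h5, h.left.eventually_nhds, h.σ_an.eventually_analyticAt] with p g1 g2 g3 g4 g5
  -- the derivative of `τ` kills `σ p`
  have e1 : fderiv ℂ τ (σ p) (σ p) = 0 := by
    have a1 : HasDerivAt (fun c : ℂ => c • σ p) (σ p) 1 := by
      have := (hasDerivAt_id (1 : ℂ)).smul_const (σ p)
      simpa using this
    have a0 : (1 : ℂ) • σ p = σ p := one_smul ℂ _
    have a2 : HasFDerivAt τ (fderiv ℂ τ (σ p)) ((1 : ℂ) • σ p) := by
      rw [a0]
      exact g1.hasFDerivAt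
    have a3 := a2.comp_hasDerivAt (1 : ℂ) a1
    have a4 : (fun c : ℂ => τ (c • σ p)) =ᶠ[𝓝 1] fun _ => τ (σ p) := by
      have a5 : Tendsto (fun c : ℂ => (σ p, c)) (𝓝 1) (𝓝 (σ p, (1 : ℂ))) := by
        have : Continuous fun c : ℂ => (σ p, c) := by fun_prop
        exact this.tendsto 1
      exact a5.eventually g2
    have a6 : HasDerivAt (fun c : ℂ => τ (c • σ p)) 0 1 := (hasDerivAt_const (1 : ℂ) (τ (σ p))).congr_of_eventuallyEq a4
    exact a3.unique a6
  -- the derivative of `τ` inverts the derivative of `σ`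
  have e2 : ∀ w, fderiv ℂ τ (σ p) (fderiv ℂ σ p w) = w := by
    intro w
    have a1 : HasFDerivAt (fun y => τ (σ y)) ((fderiv ℂ τ (σ p)).comp (fderiv ℂ σ p)) p :=
      g1.hasFDerivAt.comp p g5.differentiableAt.hasFDerivAt
    have a2 : HasFDerivAt (fun y => τ (σ y)) (ContinuousLinearMap.id ℂ (ℂ × ℂ)) p :=
      (hasFDerivAt_id p).congr_of_eventuallyEq g4
    have a3 := a1.unique a2
    exact congrArg (fun A : (ℂ × ℂ) →L[ℂ] (ℂ × ℂ) => A w) a3
  rw [Fintype.linearIndependent_iff]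
  intro a ha
  have e3 : a 0 • σ p + a 1 • fderiv ℂ σ p (1, 0) + a 2 • fderiv ℂ σ p (0, 1) = 0 := by
    simpa [Fin.sum_univ_three] using ha
  have e4 := congrArg (fderiv ℂ τ (σ p)) e3
  rw [map_add, map_add, map_smul, map_smul, map_smul, e1, e2, e2, map_zero, smul_zero, zero_add] at e4
  have e5 : a 1 = 0 := by
    have := congrArg Prod.fst e4
    simpa using this
  have e6 : a 2 = 0 := by
    have := congrArg Prod.snd e4
    simpa using this
  have e7 : a 0 = 0 := by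
    rw [e5, e6, zero_smul, zero_smul, add_zero, add_zero] at e3
    exact (smul_eq_zero.1 e3).resolve_right g3
  intro i
  fin_cases i
  · exact e7
  · exact e5
  · exact e6

end Pool.Agent.H90.SG

end
end

section

/-!
# Homogenisation
-/

open MvPolynomial

noncomputable section

namespace Pool.Agent.H92.GT

variable {r : ℕ}

/-- The homogenised polynomial. -/
def hmg {B : Type} [CommRing B] [Algebra ℂ B] (p : MvPolynomial (Fin r) ℂ) (A : Fin (r + 1) → B) :
    B :=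
  ∑ m ∈ p.support, algebraMap ℂ B (p.coeff m) *
    (A 0 ^ (p.totalDegree - ∑ i, m i) * ∏ i : Fin r, A (Fin.succ i) ^ m i)

lemma map_hmg {B B' : Type} [CommRing B] [Algebra ℂ B] [CommRing B'] [Algebra ℂ B']
    (f : B →ₐ[ℂ] B') (p : MvPolynomial (Fin r) ℂ) (A : Fin (r + 1) → B) :
    f (hmg p A) = hmg p fun i => f (A i) := by
  unfold hmg
  rw [map_sum]
  refine Finset.sum_congr rfl fun m _ => ?_
  rw [map_mul, map_mul, map_pow, map_prod, AlgHom.commutes]
  congr 2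
  exact Finset.prod_congr rfl fun i _ => map_pow _ _ _

lemma hmg_eq {K : Type} [Field K] [Algebra ℂ K] (p : MvPolynomial (Fin r) ℂ)
    {A : Fin (r + 1) → K} (h : A 0 ≠ 0) :
    hmg p A = A 0 ^ p.totalDegree * aeval (fun i : Fin r => A (Fin.succ i) / A 0) p := by
  unfold hmg
  rw [aeval_def, eval₂_eq', Finset.mul_sum]
  refine Finset.sum_congr rfl fun m hm => ?_
  have h1 : ∑ i, m i ≤ p.totalDegree := by
    have h2 := le_totalDegree hm
    rwa [Finsupp.sum_fintype _ _ (fun _ => rfl)] at h2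
  have h3 : A 0 ^ p.totalDegree = A 0 ^ (p.totalDegree - ∑ i, m i) * A 0 ^ (∑ i, m i) := by
    rw [← pow_add, Nat.sub_add_cancel h1]
  have h4 : ∏ i : Fin r, (A (Fin.succ i) / A 0) ^ m i =
      (∏ i : Fin r, A (Fin.succ i) ^ m i) / A 0 ^ (∑ i, m i) := by
    rw [Finset.prod_congr rfl fun i _ => div_pow (A (Fin.succ i)) (A 0) (m i),
      Finset.prod_div_distrib, Finset.prod_pow_eq_pow_sum]
  rw [h3, h4]
  field_simp

lemma hmg_isWeightedHomogeneous {σ : Type} {w : σ → ℕ} {d : ℕ} (p : MvPolynomial (Fin r) ℂ)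
    {A : Fin (r + 1) → MvPolynomial σ ℂ} (hA : ∀ i, IsWeightedHomogeneous w (A i) d) :
    IsWeightedHomogeneous w (hmg p A) (p.totalDegree * d) := by
  unfold hmg
  refine IsWeightedHomogeneous.sum _ _ _ fun m hm => ?_
  have h1 : ∑ i, m i ≤ p.totalDegree := by
    have h2 := le_totalDegree hm
    rwa [Finsupp.sum_fintype _ _ (fun _ => rfl)] at h2
  have h2 := (isWeightedHomogeneous_C w (p.coeff m)).mul
    (((hA 0).pow (p.totalDegree - ∑ i, m i)).mul
      (IsWeightedHomogeneous.prod Finset.univ (fun i : Fin r => A (Fin.succ i) ^ m i)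
        (fun i => m i * d) fun i _ => by
          have h3 := (hA (Fin.succ i)).pow (m i)
          rwa [smul_eq_mul] at h3))
  have h3 : 0 + ((p.totalDegree - ∑ i, m i) • d + ∑ i : Fin r, m i * d) = p.totalDegree * d := by
    rw [zero_add, smul_eq_mul, ← Finset.sum_mul, ← add_mul, Nat.sub_add_cancel h1]
  rw [h3] at h2
  exact h2

end Pool.Agent.H92.GT

end
end

section

/-!
# A Jacobian criterion for algebraic independence

* `algebraicIndependent_of_jacobian`: polynomials with nonzero Jacobian determinant at a point are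
  algebraically independent (characteristic zero).
* `exists_algebraicIndependent_of_injective`: from a family `c j` of polynomials whose differential
  at a point is injective one obtains linear combinations, as many as there are variables, that
  are algebraically independent.
-/

namespace Pool.Agent.H94

open MvPolynomial

variable {k : Type*} [Field k]

lemma eq_C_of_pderiv_eq_zero [CharZero k] {ι : Type*} (P : MvPolynomial ι k)
    (h : ∀ i, pderiv i P = 0) : P = C (coeff 0 P) := by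
  classical
  ext m
  rw [coeff_C]
  by_cases hm : m = 0
  · subst hm; simp
  · rw [if_neg (Ne.symm hm)]
    obtain ⟨i, hi⟩ : ∃ i, m i ≠ 0 := by
      by_contra hcon
      push Not at hcon
      exact hm (Finsupp.ext hcon)
    have h1 := congrArg (coeff (m - Finsupp.single i 1)) (h i)
    rw [coeff_pderiv, coeff_zero] at h1
    have h2 : m - Finsupp.single i 1 + Finsupp.single i 1 = m :=
      Finsupp.sub_add_single_one_cancel hi
    rw [h2] at h1
    rcases mul_eq_zero.1 h1 with h1 | h1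
    · exact h1
    · exfalso
      have : ((((m - Finsupp.single i 1 : ι →₀ ℕ)) i + 1 : ℕ) : k) = 0 := by push_cast; exact h1
      exact Nat.cast_ne_zero.2 (Nat.succ_ne_zero _) this

lemma totalDegree_pderiv_lt {ι : Type*} (P : MvPolynomial ι k) (i : ι) (h : pderiv i P ≠ 0) :
    (pderiv i P).totalDegree < P.totalDegree := by
  classical
  obtain ⟨m, hm, hmd⟩ := Finset.exists_mem_eq_sup (pderiv i P).support
    (support_nonempty.2 h) (fun s => s.sum fun _ e => e)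
  rw [mem_support_iff, coeff_pderiv] at hm
  have h1 : coeff (m + Finsupp.single i 1) P ≠ 0 := left_ne_zero_of_mul hm
  have h2 := le_totalDegree (mem_support_iff.2 h1)
  have h3 : (m + Finsupp.single i 1).degree = m.degree + 1 := by
    rw [map_add, Finsupp.degree_single]
  have h4 : (m + Finsupp.single i 1).sum (fun _ e => e) = (m + Finsupp.single i 1).degree := rfl
  have h5 : m.sum (fun _ e => e) = m.degree := rfl
  have h6 : (pderiv i P).totalDegree = m.degree := hmd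
  rw [h4, h3] at h2
  omega

end Pool.Agent.H94

end

section

/-!
# MQ AsmB0: regularity of the local functions of a box along a curve
-/

set_option autoImplicit false

open Topology Filter Metric MvPolynomial Asymptotics MeasureTheory Laplacian

noncomputable section

namespace Pool.Agent.MQ

open Pool.Agent.H36.BP (EN fs)
open Pool.Agent.H17EF (eval_smul_form)

variable {M : ℕ} {P : Ideal (MvPolynomial (Fin (M + 1)) ℂ)} {FF : Set (EN M × EN M)}

/-- evaluation of a form at an analytic map -/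
theorem analyticAt_evalE {E : Type} [NormedAddCommGroup E] [NormedSpace ℂ E] {γ : E → EN M} {z₀ : E} (h : AnalyticAt ℂ γ z₀)
    (Q : MvPolynomial (Fin (M + 1)) ℂ) : AnalyticAt ℂ (fun z => eval (γ z).ofLp Q) z₀ := by
  have h1 : ∀ i, AnalyticAt ℂ (fun z => (γ z).ofLp i) z₀ := fun i =>
    ((EuclideanSpace.proj i : EN M →L[ℂ] ℂ).analyticAt (γ z₀)).comp h
  refine (AnalyticAt.aeval_mvPolynomial h1 Q).congr (Eventually.of_forall fun y => ?_)
  exact congrArg (fun f : MvPolynomial (Fin (M + 1)) ℂ →+* ℂ => f Q) (MvPolynomial.coe_aeval_eq_eval (γ y).ofLp)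

theorem eval_smulE {Q : MvPolynomial (Fin (M + 1)) ℂ} {d : ℕ} (hQ : Q.IsHomogeneous d) (c : ℂ) (x : EN M) :
    eval (c • x).ofLp Q = c ^ d * eval x.ofLp Q := by
  rw [← eval_smul_form hQ]
  rfl

namespace GBox

end GBox

end Pool.Agent.MQ

end
end

section

/-!
# MQ/KF: forms along a curve

`ldr Q d F`: the modulus of the logarithmic derivative of the form `Q` of degree `d` along `F`.  `k2_form`, `k2_crv`: the mean of `log (1 + ldr)` over the
annulus `R < |z| < e R` is at most `C + 4 π log (1 + En F R)`.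
-/

set_option autoImplicit false

open Topology Filter Metric MvPolynomial MeasureTheory

noncomputable section

namespace Pool.Agent.MQ

open Pool.Agent.H36.BP (EN fs)

variable {M : ℕ} {P : Ideal (MvPolynomial (Fin (M + 1)) ℂ)} {FF : Set (EN M × EN M)}

/-! ## forms -/

theorem nt_form_le {d : ℕ} {Q : MvPolynomial (Fin (M + 1)) ℂ} (hQ : Q.IsHomogeneous d) :
    ∃ C : ℝ, 1 ≤ C ∧ ∀ x : EN M, ‖eval x.ofLp Q‖ ≤ C * ‖x‖ ^ d := by
  refine ⟨1 + ∑ m ∈ Q.support, ‖coeff m Q‖, by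
    have : 0 ≤ ∑ m ∈ Q.support, ‖coeff m Q‖ := Finset.sum_nonneg fun _ _ => norm_nonneg _
    linarith, fun x => ?_⟩
  have h1 : ‖eval x.ofLp Q‖ ≤ (∑ m ∈ Q.support, ‖coeff m Q‖) * ‖x‖ ^ d := by
    rw [MvPolynomial.eval_eq', Finset.sum_mul]
    refine (norm_sum_le _ _).trans (Finset.sum_le_sum fun m hm => ?_)
    rw [norm_mul, norm_prod]
    refine mul_le_mul_of_nonneg_left ?_ (norm_nonneg _)
    have hdeg : ∑ i, m i = d := by
      have := hQ (MvPolynomial.mem_support_iff.1 hm)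
      rw [Finsupp.weight_apply] at this
      simpa [Finsupp.sum_fintype] using this
    rw [← hdeg, ← Finset.prod_pow_eq_pow_sum]
    refine Finset.prod_le_prod (fun _ _ => norm_nonneg _) fun i _ => ?_
    rw [norm_pow]
    exact pow_le_pow_left₀ (norm_nonneg _) (PiLp.norm_apply_le x i) _
  have h2 : 0 ≤ ‖x‖ ^ d := by positivity
  linarith

/-! ## the logarithmic derivative -/

end Pool.Agent.MQ

end
end

section

/-!
# MQ C3 `LeafDisc`: an invariant disc through `0`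

If infinitely many invariant points accumulate at `0` then they lie on one disc `c` of the zero set of `q`; all derivatives `v^j q` vanish along `c`.
If `c` is transversal to `v` at some point then all partial derivatives of `q` vanish along `c`, so `q = 0`.
-/

set_option autoImplicit false

open Topology Filter MvPolynomial Asymptotics

noncomputable section

namespace Pool.Agent.MQ

theorem ld_clm {E F : Type*} [NormedAddCommGroup E] [NormedSpace ℂ E] [NormedAddCommGroup F] [NormedSpace ℂ F] {G : Type*} [NormedAddCommGroup G]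
    [NormedSpace ℂ G] {L : E → F →L[ℂ] G} {v : E → F} {p : E} (hL : AnalyticAt ℂ L p) (hv : AnalyticAt ℂ v p) : AnalyticAt ℂ (fun x => L x (v x)) p :=
  AnalyticAt.fun_comp (g := fun q : (F →L[ℂ] G) × F => (ContinuousLinearMap.id ℂ (F →L[ℂ] G)) q.1 q.2) (f := fun x => (L x, v x))
    ((ContinuousLinearMap.id ℂ (F →L[ℂ] G)).analyticAt_bilinear _) (hL.prod hv)

namespace LdK

end LdK

/-- two independent vectors -/
theorem ld_lin {L : ℂ × ℂ →L[ℂ] ℂ} {a b : ℂ × ℂ} (ha : L a = 0) (hb : L b = 0) (hJ : a.1 * b.2 - a.2 * b.1 ≠ 0) : L = 0 := by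
  have h : ∀ x : ℂ × ℂ, L x = x.1 * L (1, 0) + x.2 * L (0, 1) := by
    intro x
    have h1 : x = x.1 • ((1 : ℂ), (0 : ℂ)) + x.2 • ((0 : ℂ), (1 : ℂ)) := by ext <;> simp
    conv_lhs => rw [h1]
    rw [map_add, map_smul, map_smul, smul_eq_mul, smul_eq_mul]
  rw [h] at ha hb
  have e1 : L (1, 0) = 0 := by
    have : (a.1 * b.2 - a.2 * b.1) * L (1, 0) = 0 := by linear_combination b.2 * ha - a.2 * hb
    exact (mul_eq_zero.1 this).resolve_left hJ
  have e2 : L (0, 1) = 0 := by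
    have : (a.1 * b.2 - a.2 * b.1) * L (0, 1) = 0 := by linear_combination a.1 * hb - b.1 * ha
    exact (mul_eq_zero.1 this).resolve_left hJ
  refine ContinuousLinearMap.ext fun x => ?_
  rw [h, e1, e2]
  simp

/-- the derivative of `f ∘ c`, where `f` vanishes along `c` -/
theorem ld_chain {f : ℂ × ℂ → ℂ} {c : ℂ → ℂ × ℂ} {t : ℂ} (hf : AnalyticAt ℂ f (c t)) (hc : AnalyticAt ℂ c t) (h : ∀ᶠ s in 𝓝 t, f (c s) = 0) :
    fderiv ℂ f (c t) (deriv c t) = 0 := by
  have h1 : HasDerivAt (fun s => f (c s)) (fderiv ℂ f (c t) (deriv c t)) t :=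
    hf.differentiableAt.hasFDerivAt.comp_hasDerivAt t hc.differentiableAt.hasDerivAt
  have h2 : HasDerivAt (fun s => f (c s)) 0 t := (hasDerivAt_const t (0 : ℂ)).congr_of_eventuallyEq h
  exact h1.unique h2

namespace LdK

end LdK

/-- a curve which is not constant -/
theorem ld_deriv_ne {γ : ℂ → ℂ × ℂ} (hγ : AnalyticAt ℂ γ 0) (h : ∃ᶠ t in 𝓝 (0 : ℂ), γ t ≠ γ 0) : ∀ᶠ t in 𝓝[≠] (0 : ℂ), deriv γ t ≠ 0 := by
  refine (hγ.deriv.eventually_eq_zero_or_eventually_ne_zero).resolve_left fun h0 => ?_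
  obtain ⟨δ, hδ, hb⟩ := Metric.eventually_nhds_iff_ball.1 (h0.and hγ.eventually_analyticAt)
  refine h (Metric.eventually_nhds_iff_ball.2 ⟨δ, hδ, fun t ht => ?_⟩)
  rw [not_not]
  exact Metric.isOpen_ball.is_const_of_deriv_eq_zero (convex_ball (0 : ℂ) δ).isPreconnected
    (fun x hx => (hb x hx).2.differentiableAt.differentiableWithinAt) (fun x hx => (hb x hx).1) ht (Metric.mem_ball_self hδ)

end Pool.Agent.MQ

end
end

section

/-!
# MQ3 EnL: the energy of the coordinates of a monomial chart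
-/

set_option autoImplicit false

open MeasureTheory Topology Filter Metric Laplacian

noncomputable section

namespace Pool.Agent.MQ3

variable {U V : Set ℂ} {x y s t : ℂ → ℂ} {l : ℂ → ℝ}

theorem rpow_two_inv {u : ℝ} (hu : 0 < u) {a : ℕ} (ha : 1 ≤ a) : (u ^ a) ^ (2 * (1 / (a : ℝ)) - 2) = u ^ 2 * ((u ^ a) ^ 2)⁻¹ := by
  have ha' : (0 : ℝ) < a := by exact_mod_cast ha
  have h1 : 0 < u ^ a := by positivity
  rw [Real.rpow_sub h1, Real.rpow_two, div_eq_mul_inv]
  congr 1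
  rw [← Real.rpow_natCast u a, ← Real.rpow_mul hu.le, ← Real.rpow_natCast u 2]
  congr 1
  push_cast
  field_simp

/-- logarithmic derivative of a monomial -/
theorem dlog_mono (hV : IsOpen V) (hs : DifferentiableOn ℂ s V) (ht : DifferentiableOn ℂ t V) {a b : ℕ} (hx : ∀ z ∈ V, x z = s z ^ a * t z ^ b) {z : ℂ}
    (hz : z ∈ V) (hs0 : s z ≠ 0) (ht0 : t z ≠ 0) : deriv x z / x z = a * (deriv s z / s z) + b * (deriv t z / t z) := by
  have hsd := (hs.differentiableAt (hV.mem_nhds hz)).hasDerivAt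
  have htd := (ht.differentiableAt (hV.mem_nhds hz)).hasDerivAt
  have h1 : HasDerivAt (fun w => s w ^ a * t w ^ b) (a * s z ^ (a - 1) * deriv s z * t z ^ b + s z ^ a * (b * t z ^ (b - 1) * deriv t z)) z :=
    (hsd.fun_pow a).mul (htd.fun_pow b)
  have e : x =ᶠ[𝓝 z] fun w => s w ^ a * t w ^ b := by
    filter_upwards [hV.mem_nhds hz] with w hw
    exact hx w hw
  rw [e.deriv_eq, h1.deriv, hx z hz]
  have hsa : ((a : ℂ) * s z ^ (a - 1)) * s z = a * s z ^ a := by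
    rcases Nat.eq_zero_or_pos a with h | h
    · simp [h]
    · rw [mul_assoc, ← pow_succ, Nat.sub_add_cancel h]
  have htb : ((b : ℂ) * t z ^ (b - 1)) * t z = b * t z ^ b := by
    rcases Nat.eq_zero_or_pos b with h | h
    · simp [h]
    · rw [mul_assoc, ← pow_succ, Nat.sub_add_cancel h]
  have h2 : s z ^ a ≠ 0 := pow_ne_zero _ hs0
  have h3 : t z ^ b ≠ 0 := pow_ne_zero _ ht0
  rw [div_eq_iff (mul_ne_zero h2 h3)]
  have e1 : (a * s z ^ (a - 1) * deriv s z * t z ^ b) * s z = (a : ℂ) * (deriv s z) * s z ^ a * t z ^ b := by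
    calc _ = ((a : ℂ) * s z ^ (a - 1)) * s z * (deriv s z * t z ^ b) := by ring
      _ = _ := by rw [hsa]; ring
  have e2 : (s z ^ a * (b * t z ^ (b - 1) * deriv t z)) * t z = (b : ℂ) * (deriv t z) * s z ^ a * t z ^ b := by
    calc _ = ((b : ℂ) * t z ^ (b - 1)) * t z * (deriv t z * s z ^ a) := by ring
      _ = _ := by rw [htb]; ring
  have e1' : a * s z ^ (a - 1) * deriv s z * t z ^ b = (a : ℂ) * (deriv s z / s z) * (s z ^ a * t z ^ b) := by
    refine mul_right_cancel₀ hs0 ?_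
    rw [e1]
    field_simp
  have e2' : s z ^ a * (b * t z ^ (b - 1) * deriv t z) = (b : ℂ) * (deriv t z / t z) * (s z ^ a * t z ^ b) := by
    refine mul_right_cancel₀ ht0 ?_
    rw [e2]
    field_simp
  rw [e1', e2']
  ring

theorem coef_ge {u α β : ℝ} (hu : 0 < u) (hu1 : u ≤ 1) (h1 : α - β ≤ 2) (h2 : β - α ≤ 2) : u ^ 2 / 4 ≤ u ^ α * u ^ β / (u ^ α + u ^ β) ^ 2 := by
  have key : ∀ {α β : ℝ}, α - β ≤ 2 → β ≤ α → u ^ 2 / 4 ≤ u ^ α * u ^ β / (u ^ α + u ^ β) ^ 2 := by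
    intro α β h1 h
    have hA := Real.rpow_pos_of_pos hu α
    have hB := Real.rpow_pos_of_pos hu β
    have hAB : u ^ α ≤ u ^ β := Real.rpow_le_rpow_of_exponent_ge hu hu1 h
    have h3 : (u ^ α + u ^ β) ^ 2 ≤ 4 * (u ^ β) ^ 2 := by nlinarith
    have h4 : u ^ α = u ^ (α - β) * u ^ β := by rw [← Real.rpow_add hu]; congr 1; ring
    have h5 : u ^ (2 : ℝ) ≤ u ^ (α - β) := Real.rpow_le_rpow_of_exponent_ge hu hu1 h1
    rw [Real.rpow_two] at h5
    rw [div_le_div_iff₀ (by norm_num) (by positivity)]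
    calc u ^ 2 * (u ^ α + u ^ β) ^ 2 ≤ u ^ 2 * (4 * (u ^ β) ^ 2) := mul_le_mul_of_nonneg_left h3 (by positivity)
      _ ≤ u ^ (α - β) * (4 * (u ^ β) ^ 2) := mul_le_mul_of_nonneg_right h5 (by positivity)
      _ = u ^ α * u ^ β * 4 := by rw [h4]; ring
  rcases le_total β α with h | h
  · exact key h1 h
  · have := key h2 h
    rwa [mul_comm (u ^ β), add_comm (u ^ β)] at this

/-- the pointwise estimate, `x = s ^ a` -/
theorem pt_R (hV : IsOpen V) (hs : DifferentiableOn ℂ s V) {a : ℕ} (ha : 1 ≤ a) (hx : ∀ z ∈ V, x z = s z ^ a) {z : ℂ} (hz : z ∈ V)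
    (hs0 : s z ≠ 0) : ‖deriv s z‖ ^ 2 ≤ ‖x z‖ ^ (2 * (1 / (a : ℝ)) - 2) * ‖deriv x z‖ ^ 2 := by
  have hu : 0 < ‖s z‖ := norm_pos_iff.2 hs0
  have h1 := dlog_mono (x := x) (t := s) (b := 0) hV hs hs (a := a) (fun z hz => by rw [hx z hz, pow_zero, mul_one]) hz hs0 hs0
  have hx0 : x z ≠ 0 := by rw [hx z hz]; exact pow_ne_zero _ hs0
  have h2 : ‖deriv x z‖ = a * (‖deriv s z‖ / ‖s z‖) * ‖s z‖ ^ a := by
    have h3 : deriv x z = (a * (deriv s z / s z)) * s z ^ a := by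
      rw [div_eq_iff hx0, hx z hz] at h1
      rw [h1]
      simp
    rw [h3, norm_mul, norm_mul, norm_pow, norm_div, Complex.norm_natCast]
  have ha' : (1 : ℝ) ≤ a := by exact_mod_cast ha
  rw [h2, hx z hz, norm_pow, rpow_two_inv hu ha]
  have h4 : ‖s z‖ ^ 2 * ((‖s z‖ ^ a) ^ 2)⁻¹ * (a * (‖deriv s z‖ / ‖s z‖) * ‖s z‖ ^ a) ^ 2 = (a : ℝ) ^ 2 * ‖deriv s z‖ ^ 2 := by
    field_simp
  rw [h4]
  have h5 : (1 : ℝ) ≤ (a : ℝ) ^ 2 := by nlinarith
  nlinarith [sq_nonneg ‖deriv s z‖]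

end Pool.Agent.MQ3

end
end

section

/-!
# MQ3 GlobD: a surface on which the total transform of a curve has normal crossings

`X` is the cone of a closed surface in `ℙ(V)`, `B` the cone of a curve in it.  `Y` is the cone of a smooth closed surface in `ℙ(V')`, a composition of
blow-ups of points of `B`; the map to `X` is given by `L a` where `L a y ≠ 0`.
-/

set_option autoImplicit false

open Topology Filter

noncomputable section

namespace Pool.Agent.MQ3

open Pool.Agent.H17BP (Pr Surface NodalAt Tan)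

/-- A surface over `X` on which the total transform of `B` has normal crossings. -/
structure NCSurf {V : Type} [NormedAddCommGroup V] [NormedSpace ℂ V] (X B : Set V) where
  V' : Type
  [ng : NormedAddCommGroup V']
  [ns : NormedSpace ℂ V']
  [fd : FiniteDimensional ℂ V']
  /-- the surface -/
  Y : Set V'
  κ : Type
  [fin : Fintype κ]
  /-- the projections -/
  L : κ → V' →L[ℂ] V
  surf : Surface Y
  ex : ∀ y ∈ Y, ∃ a, L a y ≠ 0
  mem : ∀ y ∈ Y, ∀ a, L a y ≠ 0 → L a y ∈ X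
  pr : ∀ y ∈ Y, ∀ a b, L a y ≠ 0 → L b y ≠ 0 → Pr (L a y) (L b y)
  nodal : ∀ y ∈ Y, NodalAt Y {y | y ∈ Y ∧ ∀ a, L a y ≠ 0 → L a y ∈ B} y
  /-- off the total transform of `B` the projection is immersive -/
  imm : ∀ y ∈ Y, ∀ a, L a y ≠ 0 → L a y ∉ B → ∀ v ∈ Tan Y y, (∃ c : ℂ, L a v = c • L a y) → ∃ c : ℂ, v = c • y
  d : ℕ
  K : ℝ
  /-- the lift of a curve -/
  lift : ∀ F : ℂ → V, Differentiable ℂ F → (∀ z, F z ∈ X) → (∃ z, F z ∉ B) → ∃ (F' : ℂ → V') (h : ℂ → ℂ),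
    Differentiable ℂ F' ∧ (∀ z, F' z ∈ Y) ∧ Differentiable ℂ h ∧ (∃ z, h z ≠ 0) ∧ (∀ z, ‖h z‖ * ‖F' z‖ ≤ K * ‖F z‖ ^ d) ∧
      ∀ z a, ∃ c : ℂ, L a (F' z) = c • F z

attribute [instance] NCSurf.ng NCSurf.ns NCSurf.fd NCSurf.fin

end Pool.Agent.MQ3

end
end

section

/-!
# MQ3 WPoly: the boxes of the normal crossings model

A parametrization `ρ` of the surface over the closed unit bidisc, with values in `coneE P` only there, and immersive off the axes, is an `NCBox`.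
-/

set_option autoImplicit false

open Topology Filter Metric MvPolynomial

noncomputable section

namespace Pool.Agent.MQ3

open Pool.Agent.H36.BP (EN)

variable {N : ℕ} {P : Ideal (MvPolynomial (Fin (N + 1)) ℂ)}

theorem analyticAt_evalE {E : Type*} [NormedAddCommGroup E] [NormedSpace ℂ E] {f : E → EN N} {x : E} (hf : AnalyticAt ℂ f x)
    (Q : MvPolynomial (Fin (N + 1)) ℂ) : AnalyticAt ℂ (fun y => eval (f y).ofLp Q) x := by
  have h1 : ∀ i, AnalyticAt ℂ (fun y => (f y).ofLp i) x := fun i =>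
    ((EuclideanSpace.proj i : EN N →L[ℂ] ℂ).analyticAt _).comp hf
  induction Q using MvPolynomial.induction_on with
  | C a => simpa using (analyticAt_const : AnalyticAt ℂ (fun _ : E => a) x)
  | add p q hp hq => simpa using hp.fun_add hq
  | mul_X p i hp => simpa using hp.fun_mul (h1 i)

end Pool.Agent.MQ3

end
end

section

/-!
# MQL DensD: from `LocalN1` to `LocX` with a bigger density `l` in the pointwise bound; the pointwise bound from the two root densities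
-/

set_option autoImplicit false

open Topology Filter Metric MeasureTheory Asymptotics Laplacian

noncomputable section

namespace Pool.Agent.MQL

/-- `t ^ al` is bounded on `[s, r]` -/
theorem rpow_le_max {t s r al : ℝ} (hs : 0 < s) (h1 : s ≤ t) (h2 : t ≤ r) : t ^ al ≤ s ^ al + r ^ al := by
  have hr : 0 < r := hs.trans_le (h1.trans h2)
  rcases le_total 0 al with h | h
  · exact (Real.rpow_le_rpow (hs.le.trans h1) h2 h).trans (le_add_of_nonneg_left (Real.rpow_nonneg hs.le _))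
  · exact (Real.rpow_le_rpow_of_nonpos hs h1 h).trans (le_add_of_nonneg_right (Real.rpow_nonneg hr.le _))

end Pool.Agent.MQL

end
end

section

/-!
# SY EiQ: the Euclidean norm on the product
-/

set_option autoImplicit false

noncomputable section

namespace Pool.Agent.SY

open Pool.Agent.H36.BP (EN)

variable {V : Type} [NormedAddCommGroup V] [NormedSpace ℂ V]

/-- The Euclidean norm on the product. -/
theorem exists_equiv_sum {N : ℕ} (L : V ≃L[ℂ] EN N) (r : ℕ) (hr : 0 < r) :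
    ∃ (N' : ℕ) (L' : (Fin r → V) ≃L[ℂ] EN N'), ∀ y, ‖L' y‖ ^ 2 = ∑ b, ‖L (y b)‖ ^ 2 := by
  have hpos : 0 < Module.finrank ℂ (PiLp 2 (fun _ : Fin r => EN N)) := by
    have : Nonempty (Fin r) := ⟨⟨0, hr⟩⟩
    have : Nontrivial (PiLp 2 (fun _ : Fin r => EN N)) :=
      (WithLp.equiv 2 (∀ _ : Fin r, EN N)).nontrivial
    exact Module.finrank_pos
  obtain ⟨N', hN'⟩ : ∃ N', Module.finrank ℂ (PiLp 2 (fun _ : Fin r => EN N)) = N' + 1 :=
    ⟨_, (Nat.succ_pred_eq_of_pos hpos).symm⟩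
  let B := (stdOrthonormalBasis ℂ (PiLp 2 (fun _ : Fin r => EN N))).reindex (finCongr hN')
  refine ⟨N', (ContinuousLinearEquiv.piCongrRight (fun _ : Fin r => L)).trans
    ((PiLp.continuousLinearEquiv 2 ℂ (fun _ : Fin r => EN N)).symm.trans B.repr.toContinuousLinearEquiv), fun y => ?_⟩
  have h1 : ‖((ContinuousLinearEquiv.piCongrRight (fun _ : Fin r => L)).trans
    ((PiLp.continuousLinearEquiv 2 ℂ (fun _ : Fin r => EN N)).symm.trans B.repr.toContinuousLinearEquiv)) y‖ =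
      ‖(WithLp.toLp 2 (fun b => L (y b)) : PiLp 2 (fun _ : Fin r => EN N))‖ := by
    exact B.repr.norm_map _
  rw [h1, PiLp.norm_sq_eq_of_L2]

end Pool.Agent.SY

end
end
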