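import Pool.Agent.H43.TL2.M14
import Pool.Agent.H43.TL2.M21

/-! The parts of this file: H30M.Reg, H30M.Fund, H30M.Mean2. -/

section

/-!
# The Laplacian of `1/2 log (|g|^2 + ε^2)`
-/

set_option autoImplicit false

open MeasureTheory Complex Set Filter Topology Laplacian InnerProductSpace

namespace Pool.Agent.H30M

theorem fderiv_eq_line {u : ℂ → ℝ} {w v : ℂ} (hu : DifferentiableAt ℝ u w) {d : ℝ}
    (h : HasDerivAt (fun t : ℝ => u (w + t • v)) d 0) : fderiv ℝ u w v = d :=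
  (hu.hasFDerivAt.hasLineDerivAt v).unique h

/-- the regularised logarithm -/
noncomputable def rl (ε : ℝ) (g : ℂ → ℂ) (z : ℂ) : ℝ := Real.log (‖g z‖ ^ 2 + ε ^ 2) / 2

private theorem rg_line {g : ℂ → ℂ} {w : ℂ} (hg : DifferentiableAt ℂ g w) (v : ℂ) :
    HasDerivAt (fun t : ℝ => g (w + t • v)) (deriv g w * v) 0 := by
  have h1 : HasFDerivAt g ((ContinuousLinearMap.toSpanSingleton ℂ (deriv g w)).restrictScalars ℝ) w :=
    hg.hasDerivAt.hasFDerivAt.restrictScalars ℝ
  have h2 := h1.hasLineDerivAt v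
  have h3 : HasDerivAt (fun t : ℝ => g (w + t • v)) _ 0 := h2
  convert h3 using 1
  simp [mul_comm]

private theorem rg_re {g : ℂ → ℂ} {w : ℂ} (hg : DifferentiableAt ℂ g w) (v : ℂ) :
    HasDerivAt (fun t : ℝ => (g (w + t • v)).re) (deriv g w * v).re 0 :=
  (reCLM.hasFDerivAt.comp_hasDerivAt (0 : ℝ) (rg_line hg v))

private theorem rg_im {g : ℂ → ℂ} {w : ℂ} (hg : DifferentiableAt ℂ g w) (v : ℂ) :
    HasDerivAt (fun t : ℝ => (g (w + t • v)).im) (deriv g w * v).im 0 :=
  (imCLM.hasFDerivAt.comp_hasDerivAt (0 : ℝ) (rg_line hg v))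

theorem contDiffAt_rl {ε : ℝ} (hε : 0 < ε) {g : ℂ → ℂ} {z : ℂ} (hg : AnalyticAt ℂ g z) :
    ContDiffAt ℝ 2 (rl ε g) z := by
  have h1 : ContDiffAt ℝ 2 g z := (hg.contDiffAt (n := 2)).restrict_scalars ℝ
  have h2 : ContDiffAt ℝ 2 (fun z => ‖g z‖ ^ 2 + ε ^ 2) z := (h1.norm_sq ℝ).add contDiffAt_const
  exact (h2.log (by positivity)).div_const 2

/-- first derivatives -/
theorem fderiv_rl {ε : ℝ} (hε : 0 < ε) {g : ℂ → ℂ} {w : ℂ} (hg : AnalyticAt ℂ g w) (v : ℂ) :
    fderiv ℝ (rl ε g) w v = ((g w).re * (deriv g w * v).re + (g w).im * (deriv g w * v).im)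
      / ((g w).re ^ 2 + (g w).im ^ 2 + ε ^ 2) := by
  have hd := hg.differentiableAt
  apply fderiv_eq_line ((contDiffAt_rl hε hg).differentiableAt (by norm_num))
  have h1 := rg_re hd v
  have h2 := rg_im hd v
  have h3 := ((h1.pow 2).add (h2.pow 2)).add_const (ε ^ 2)
  have h4 := (h3.log (by simp only [Pi.pow_apply, Pi.add_apply]; positivity)).div_const 2
  have e : (fun t : ℝ => rl ε g (w + t • v)) = fun t : ℝ => Real.log (((((fun t : ℝ => (g (w + t • v)).re) ^ 2) +
      ((fun t : ℝ => (g (w + t • v)).im) ^ 2)) t) + ε ^ 2) / 2 := by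
    funext t
    simp only [rl, Pi.add_apply, Pi.pow_apply]
    rw [← Complex.normSq_eq_norm_sq, Complex.normSq_apply]
    ring_nf
  rw [e]
  refine h4.congr_deriv ?_
  simp only [Pi.pow_apply, Pi.add_apply, zero_smul, add_zero]
  have : (g w).re ^ 2 + (g w).im ^ 2 + ε ^ 2 ≠ 0 := by positivity
  field_simp
  ring

/-- **The Laplacian** -/
theorem lap_rl {ε : ℝ} (hε : 0 < ε) {g : ℂ → ℂ} {z : ℂ} (hg : AnalyticAt ℂ g z) :
    Δ (rl ε g) z = 2 * ε ^ 2 * ‖deriv g z‖ ^ 2 / (‖g z‖ ^ 2 + ε ^ 2) ^ 2 := by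
  rw [lap_eq (contDiffAt_rl hε hg)]
  have hev : ∀ v : ℂ, (fun w => fderiv ℝ (rl ε g) w v) =ᶠ[𝓝 z] fun w =>
      ((g w).re * (deriv g w * v).re + (g w).im * (deriv g w * v).im)
      / ((g w).re ^ 2 + (g w).im ^ 2 + ε ^ 2) := fun v => by
    filter_upwards [hg.eventually_analyticAt] with w hw
    exact fderiv_rl hε hw v
  have hd := hg.differentiableAt
  have hd' := hg.deriv.differentiableAt
  have key : ∀ v : ℂ, fderiv ℝ (fun w => fderiv ℝ (rl ε g) w v) z v =
      (((deriv g z * v).re * (deriv g z * v).re + (g z).re * (deriv (deriv g) z * v * v).re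
        + ((deriv g z * v).im * (deriv g z * v).im + (g z).im * (deriv (deriv g) z * v * v).im))
        * ((g z).re ^ 2 + (g z).im ^ 2 + ε ^ 2)
        - ((g z).re * (deriv g z * v).re + (g z).im * (deriv g z * v).im)
        * (2 * (g z).re * (deriv g z * v).re + 2 * (g z).im * (deriv g z * v).im))
      / ((g z).re ^ 2 + (g z).im ^ 2 + ε ^ 2) ^ 2 := by
    intro v
    apply fderiv_eq_line ((contDiffAt_d (contDiffAt_rl hε hg) v).differentiableAt (by norm_num))
    have e : (fun t : ℝ => fderiv ℝ (rl ε g) (z + t • v) v) =ᶠ[𝓝 0] fun t : ℝ =>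
      ((g (z + t • v)).re * (deriv g (z + t • v) * v).re + (g (z + t • v)).im * (deriv g (z + t • v) * v).im)
      / ((g (z + t • v)).re ^ 2 + (g (z + t • v)).im ^ 2 + ε ^ 2) := by
      have hc : Tendsto (fun t : ℝ => z + t • v) (𝓝 0) (𝓝 z) := by
        have : Continuous fun t : ℝ => z + t • v := by fun_prop
        simpa using this.tendsto 0
      exact hc.eventually (hev v)
    have h1 := rg_re hd v
    have h2 := rg_im hd v
    have h3 : HasDerivAt (fun t : ℝ => (deriv g (z + t • v) * v).re) (deriv (deriv g) z * v * v).re 0 := by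
      have := (rg_line hd' v).mul_const v
      exact (reCLM.hasFDerivAt.comp_hasDerivAt (0 : ℝ) this)
    have h4 : HasDerivAt (fun t : ℝ => (deriv g (z + t • v) * v).im) (deriv (deriv g) z * v * v).im 0 := by
      have := (rg_line hd' v).mul_const v
      exact (imCLM.hasFDerivAt.comp_hasDerivAt (0 : ℝ) this)
    have h5 := ((h1.mul h3).add (h2.mul h4)).div (((h1.pow 2).add (h2.pow 2)).add_const (ε ^ 2))
      (by simp only [Pi.pow_apply, Pi.add_apply]; positivity)
    refine HasDerivAt.congr_of_eventuallyEq (h5.congr_deriv ?_) e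
    simp only [Pi.pow_apply, Pi.add_apply, Pi.mul_apply, zero_smul, add_zero]
    push_cast
    ring
  rw [key, key]
  have hN : (g z).re ^ 2 + (g z).im ^ 2 + ε ^ 2 ≠ 0 := by positivity
  rw [← Complex.normSq_eq_norm_sq, ← Complex.normSq_eq_norm_sq, Complex.normSq_apply, Complex.normSq_apply]
  have hN2 : (g z).re * (g z).re + (g z).im * (g z).im + ε ^ 2 = (g z).re ^ 2 + (g z).im ^ 2 + ε ^ 2 := by ring
  rw [hN2, ← add_div]
  congr 1
  simp only [mul_re, mul_im, I_re, I_im, one_re, one_im]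
  ring

end Pool.Agent.H30M

end

section

/-!
# The fundamental solution: `∫ Δτ log |z - a| = 2 π τ(a)`
-/

set_option autoImplicit false

open MeasureTheory Complex Set Filter Topology Laplacian InnerProductSpace Metric

namespace Pool.Agent.H30M

/-- `log ‖z‖` is integrable on balls. -/
theorem integrableOn_log_ball (r : ℝ) : IntegrableOn (fun z : ℂ => Real.log ‖z‖) (ball 0 r) := by
  have h := (integrableOn_fun_norm_addHaar (E := ℂ) (μ := volume) (f := Real.log) (r := r)).2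
  apply h
  have h1 : Continuous fun y : ℝ => y * Real.log y := Real.continuous_mul_log
  have h2 : IntegrableOn (fun y : ℝ => y * Real.log y) (Icc 0 r) := h1.continuousOn.integrableOn_Icc
  refine (h2.mono_set Ioo_subset_Icc_self).congr_fun (fun y _ => ?_) measurableSet_Ioo
  simp [Complex.finrank_real_complex]

theorem locInt_log (a : ℂ) : LocallyIntegrable (fun z : ℂ => Real.log ‖z - a‖) := by
  have h0 : LocallyIntegrable (fun z : ℂ => Real.log ‖z‖) := by
    intro z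
    refine ⟨ball 0 (‖z‖ + 1), isOpen_ball.mem_nhds (by simp), integrableOn_log_ball _⟩
  intro z
  obtain ⟨s, hs, hi⟩ := h0 (z - a)
  refine ⟨(fun w => w - a) ⁻¹' s, ?_, ?_⟩
  · exact (continuous_sub_right a).continuousAt.preimage_mem_nhds hs
  · have hmp : MeasurePreserving (fun w : ℂ => w - a) volume volume := measurePreserving_sub_right volume a
    exact (hmp.integrableOn_comp_preimage (MeasurableEquiv.subRight a).measurableEmbedding).2 hi

theorem int_kernel : ∫ w : ℂ, 2 / (‖w‖ ^ 2 + 1) ^ 2 = 2 * Real.pi := by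
  have h := integral_fun_norm_addHaar (volume : Measure ℂ) (fun y : ℝ => 2 / (y ^ 2 + 1) ^ 2)
  rw [h, Complex.finrank_real_complex]
  have h1 : ∫ y in Ioi (0 : ℝ), y ^ (2 - 1) • (2 / (y ^ 2 + 1) ^ 2) = 1 := by
    have hd : ∀ y ∈ Ici (0 : ℝ), HasDerivAt (fun y : ℝ => - (1 / (y ^ 2 + 1))) (y ^ (2 - 1) • (2 / (y ^ 2 + 1) ^ 2)) y := by
      intro y _
      have h2 : HasDerivAt (fun y : ℝ => y ^ 2 + 1) (2 * y) y := by
        simpa using (hasDerivAt_pow 2 y).add_const (1 : ℝ)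
      have h3 := (h2.inv (by positivity)).neg
      refine (h3.congr_of_eventuallyEq (Eventually.of_forall fun y => ?_)).congr_deriv ?_
      · simp
      · have : y ^ 2 + 1 ≠ 0 := by positivity
        simp only [smul_eq_mul]
        field_simp
        norm_num
    have hl : Tendsto (fun y : ℝ => - (1 / (y ^ 2 + 1))) atTop (𝓝 0) := by
      have : Tendsto (fun y : ℝ => y ^ 2 + 1) atTop atTop :=
        tendsto_atTop_add_const_right _ _ (tendsto_pow_atTop (by norm_num))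
      have h4 := (this.const_div_atTop (1 : ℝ)).neg
      simpa using h4
    have := integral_Ioi_of_hasDerivAt_of_nonneg' hd (fun y hy => by
      have : (0 : ℝ) < y := hy
      rw [smul_eq_mul]; positivity) hl
    rw [this]
    simp
  rw [h1]
  have hv : volume.real (ball (0 : ℂ) 1) = Real.pi := by
    rw [Measure.real, Complex.volume_ball]
    simp
  rw [hv]
  simp

theorem integrable_kernel : Integrable fun w : ℂ => 2 / (‖w‖ ^ 2 + 1) ^ 2 := by
  by_contra h
  have := integral_undef h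
  rw [int_kernel] at this
  have hp := Real.pi_pos
  linarith

theorem lap_rl_sub {ε : ℝ} (hε : 0 < ε) (a z : ℂ) :
    Δ (rl ε fun w => w - a) z = 2 * ε ^ 2 / (‖z - a‖ ^ 2 + ε ^ 2) ^ 2 := by
  rw [lap_rl hε (by fun_prop)]
  simp

theorem fund_lhs {τ : ℂ → ℝ} (hτ : Continuous τ) (hc : HasCompactSupport τ) (a : ℂ) :
    Tendsto (fun n : ℕ => ∫ z, τ z * Δ (rl (1 / ((n : ℝ) + 1)) fun w => w - a) z) atTop (𝓝 (2 * Real.pi * τ a)) := by
  have e : ∀ ε : ℝ, 0 < ε → ∫ z, τ z * Δ (rl ε fun w => w - a) z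
      = ∫ w : ℂ, τ (a + ε • w) * (2 / (‖w‖ ^ 2 + 1) ^ 2) := by
    intro ε hε
    have h1 : ∫ z, τ z * Δ (rl ε fun w => w - a) z = ∫ z, τ (z + a) * (2 * ε ^ 2 / (‖z‖ ^ 2 + ε ^ 2) ^ 2) := by
      rw [← integral_add_right_eq_self _ a]
      congr 1
      funext z
      rw [lap_rl_sub hε, add_sub_cancel_right]
    have h2 := Measure.integral_comp_smul_of_nonneg (volume : Measure ℂ)
      (fun z : ℂ => τ (z + a) * (2 * ε ^ 2 / (‖z‖ ^ 2 + ε ^ 2) ^ 2)) ε (hR := hε.le)
    rw [Complex.finrank_real_complex] at h2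
    have h3 : ∀ w : ℂ, τ (a + ε • w) * (2 / (‖w‖ ^ 2 + 1) ^ 2)
        = ε ^ 2 * (τ (ε • w + a) * (2 * ε ^ 2 / (‖ε • w‖ ^ 2 + ε ^ 2) ^ 2)) := by
      intro w
      rw [norm_smul, Real.norm_of_nonneg hε.le, add_comm a]
      have : ‖w‖ ^ 2 + 1 ≠ 0 := by positivity
      have e2 : (ε * ‖w‖) ^ 2 + ε ^ 2 = ε ^ 2 * (‖w‖ ^ 2 + 1) := by ring
      rw [e2]
      field_simp
    rw [h1, integral_congr_ae (Eventually.of_forall h3), integral_const_mul, h2, smul_eq_mul, ← mul_assoc,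
      mul_inv_cancel₀ (by positivity), one_mul]
  have e' : ∀ n : ℕ, ∫ z, τ z * Δ (rl (1 / ((n : ℝ) + 1)) fun w => w - a) z
      = ∫ w : ℂ, τ (a + (1 / ((n : ℝ) + 1)) • w) * (2 / (‖w‖ ^ 2 + 1) ^ 2) := fun n => e _ (by positivity)
  simp_rw [e']
  have hlim : 2 * Real.pi * τ a = ∫ w : ℂ, τ a * (2 / (‖w‖ ^ 2 + 1) ^ 2) := by
    rw [integral_const_mul, int_kernel]; ring
  rw [hlim]
  obtain ⟨C, hC⟩ := hτ.bounded_above_of_compact_support hc
  refine tendsto_integral_of_dominated_convergence (fun w => C * (2 / (‖w‖ ^ 2 + 1) ^ 2)) ?_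
    (integrable_kernel.const_mul C) ?_ ?_
  · intro n
    refine Continuous.aestronglyMeasurable ?_
    refine (hτ.comp (by fun_prop)).mul (Continuous.div (by fun_prop) (by fun_prop) fun w => by positivity)
  · intro n
    refine Eventually.of_forall fun w => ?_
    rw [norm_mul, Real.norm_of_nonneg (by positivity : (0 : ℝ) ≤ 2 / (‖w‖ ^ 2 + 1) ^ 2)]
    exact mul_le_mul_of_nonneg_right (hC _) (by positivity)
  · refine Eventually.of_forall fun w => ?_
    refine Tendsto.mul_const _ ?_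
    have h1 : Tendsto (fun n : ℕ => a + (1 / ((n : ℝ) + 1)) • w) atTop (𝓝 (a + (0 : ℝ) • w)) :=
      (tendsto_one_div_add_atTop_nhds_zero_nat.smul_const w).const_add a
    rw [zero_smul, add_zero] at h1
    exact (hτ.tendsto a).comp h1

theorem fund_rhs {φ : ℂ → ℝ} (hφ : Continuous φ) (hc : HasCompactSupport φ) (a : ℂ) :
    Tendsto (fun n : ℕ => ∫ z, φ z * rl (1 / ((n : ℝ) + 1)) (fun w => w - a) z) atTop
      (𝓝 (∫ z, φ z * Real.log ‖z - a‖)) := by
  have hi1 : Integrable fun z : ℂ => |φ z| * |Real.log ‖z - a‖| := by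
    have := (locInt_log a).integrable_smul_left_of_hasCompactSupport hφ hc
    simpa [abs_mul, smul_eq_mul] using this.abs
  have hi2 : Integrable fun z : ℂ => |φ z| * Real.log (‖z - a‖ ^ 2 + 1) := by
    refine Continuous.integrable_of_hasCompactSupport ?_ ?_
    · exact (continuous_abs.comp hφ).mul (Continuous.log (by fun_prop) fun z => by positivity)
    · exact (hc.comp_left (g := fun x : ℝ => |x|) abs_zero).mul_right
  refine tendsto_integral_of_dominated_convergence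
    (fun z => |φ z| * |Real.log ‖z - a‖| + |φ z| * Real.log (‖z - a‖ ^ 2 + 1)) ?_ (hi1.add hi2) ?_ ?_
  · intro n
    refine (hφ.mul ?_).aestronglyMeasurable
    unfold rl
    exact (Continuous.log (by fun_prop) fun z => by positivity).div_const 2
  · intro n
    have hne : ∀ᵐ z : ℂ, z ≠ a := by
      rw [ae_iff]
      simp
    filter_upwards [hne] with z hz
    have hz' : 0 < ‖z - a‖ := norm_pos_iff.2 (sub_ne_zero.2 hz)
    rw [norm_mul, Real.norm_eq_abs, ← mul_add]
    refine mul_le_mul_of_nonneg_left ?_ (abs_nonneg _)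
    rw [Real.norm_eq_abs, abs_le]
    have h1 : (0 : ℝ) < 1 / ((n : ℝ) + 1) := by positivity
    have h2 : (1 / ((n : ℝ) + 1)) ≤ 1 := by
      rw [div_le_one (by positivity)]
      have : (0 : ℝ) ≤ n := n.cast_nonneg
      linarith
    have h3 : (1 / ((n : ℝ) + 1)) ^ 2 ≤ 1 := pow_le_one₀ h1.le h2
    have h4 : Real.log (‖z - a‖ ^ 2) = 2 * Real.log ‖z - a‖ := by
      rw [Real.log_pow]; norm_num
    have h5 : Real.log (‖z - a‖ ^ 2) ≤ Real.log (‖z - a‖ ^ 2 + (1 / ((n : ℝ) + 1)) ^ 2) :=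
      Real.log_le_log (by positivity) (by nlinarith)
    have h6 : Real.log (‖z - a‖ ^ 2 + (1 / ((n : ℝ) + 1)) ^ 2) ≤ Real.log (‖z - a‖ ^ 2 + 1) :=
      Real.log_le_log (by positivity) (by linarith)
    have h7 : 0 ≤ Real.log (‖z - a‖ ^ 2 + 1) := Real.log_nonneg (by nlinarith [sq_nonneg ‖z - a‖])
    unfold rl
    constructor
    · have := neg_abs_le (Real.log ‖z - a‖)
      linarith
    · have := abs_nonneg (Real.log ‖z - a‖)
      linarith
  · have hne : ∀ᵐ z : ℂ, z ≠ a := by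
      rw [ae_iff]
      simp
    filter_upwards [hne] with z hz
    have hz' : 0 < ‖z - a‖ := norm_pos_iff.2 (sub_ne_zero.2 hz)
    refine Tendsto.const_mul _ ?_
    unfold rl
    have h1 : Tendsto (fun n : ℕ => ‖z - a‖ ^ 2 + (1 / ((n : ℝ) + 1)) ^ 2) atTop (𝓝 (‖z - a‖ ^ 2 + 0 ^ 2)) :=
      (tendsto_one_div_add_atTop_nhds_zero_nat.pow 2).const_add _
    have h2 := ((Real.continuousAt_log (x := ‖z - a‖ ^ 2 + 0 ^ 2) (by positivity)).tendsto.comp h1).div_const 2
    have h3 : Real.log (‖z - a‖ ^ 2 + 0 ^ 2) / 2 = Real.log ‖z - a‖ := by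
      rw [zero_pow (by norm_num), add_zero, Real.log_pow]
      push_cast
      ring
    rw [h3] at h2
    exact h2

/-- **The fundamental solution** -/
theorem fund {τ : ℂ → ℝ} (hτ : ContDiff ℝ 2 τ) (hc : HasCompactSupport τ) (a : ℂ) :
    ∫ z, Δ τ z * Real.log ‖z - a‖ = 2 * Real.pi * τ a := by
  have hL : Continuous (Δ τ) := by
    have e : Δ τ = fun z => fderiv ℝ (fun w => fderiv ℝ τ w 1) z 1 + fderiv ℝ (fun w => fderiv ℝ τ w I) z I :=
      funext fun z => lap_eq hτ.contDiffAt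
    rw [e]
    have hd : ∀ v : ℂ, ContDiff ℝ 1 fun z => fderiv ℝ τ z v := fun v =>
      (hτ.fderiv_right (m := 1) (by norm_num)).clm_apply contDiff_const
    exact (((hd 1).continuous_fderiv (by norm_num)).clm_apply continuous_const).add
      (((hd I).continuous_fderiv (by norm_num)).clm_apply continuous_const)
  have h1 := fund_lhs hτ.continuous hc a
  have h2 := fund_rhs hL (hcs_of_sub hc (ts_lap τ)) a
  refine tendsto_nhds_unique h2 (h1.congr fun n => ?_)
  exact green2 hτ hc fun z _ => contDiffAt_rl (by positivity) (by fun_prop)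

end Pool.Agent.H30M

end

section

/-!
# Integration by parts for functions with logarithmic singularities
-/

set_option autoImplicit false

open MeasureTheory Complex Set Filter Topology Laplacian InnerProductSpace Metric

namespace Pool.Agent.H30M

theorem LogSing.eq_zero {w : ℂ → ℝ} {c : ℝ} {z : ℂ} (h : LogSing w c z) (hw : ContinuousAt w z) : c = 0 := by
  obtain ⟨s, hs, h1⟩ := h
  by_contra hc
  have hl : Tendsto (fun ζ : ℂ => ‖ζ - z‖) (𝓝[≠] z) (𝓝[>] 0) := by
    refine tendsto_nhdsWithin_iff.2 ⟨?_, ?_⟩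
    · have : Continuous fun ζ : ℂ => ‖ζ - z‖ := by fun_prop
      have h2 := this.tendsto z
      simp only [sub_self, norm_zero] at h2
      exact h2.mono_left nhdsWithin_le_nhds
    · filter_upwards [self_mem_nhdsWithin] with ζ hζ
      exact norm_pos_iff.2 (sub_ne_zero.2 hζ)
  have h2 : Tendsto (fun ζ : ℂ => Real.log ‖ζ - z‖) (𝓝[≠] z) atBot := Real.tendsto_log_nhdsGT_zero.comp hl
  have h3 : Tendsto (fun ζ => (w ζ - s ζ) / c) (𝓝[≠] z) (𝓝 ((w z - s z) / c)) :=
    ((hw.tendsto.sub hs.continuousAt.tendsto).div_const c).mono_left nhdsWithin_le_nhds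
  have h4 : (fun ζ : ℂ => Real.log ‖ζ - z‖) =ᶠ[𝓝[≠] z] fun ζ => (w ζ - s ζ) / c := by
    filter_upwards [h1] with ζ e
    rw [e]
    field_simp
    ring
  exact not_tendsto_nhds_of_tendsto_atBot h2 _ (h3.congr' h4.symm)

theorem locInt_inv (a : ℂ) : LocallyIntegrable (fun z : ℂ => ‖z - a‖⁻¹) := by
  have hb : ∀ r : ℝ, IntegrableOn (fun z : ℂ => ‖z‖⁻¹) (ball 0 r) := by
    intro r
    apply (integrableOn_fun_norm_addHaar (E := ℂ) (μ := volume) (f := fun y => y⁻¹) (r := r)).2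
    have h2 : IntegrableOn (fun _ : ℝ => (1 : ℝ)) (Ioo 0 r) := by
      rw [integrableOn_const_iff]
      right
      simp
    refine h2.congr_fun (fun y hy => ?_) measurableSet_Ioo
    have : y ≠ 0 := hy.1.ne'
    simp [Complex.finrank_real_complex, this]
  have h0 : LocallyIntegrable (fun z : ℂ => ‖z‖⁻¹) := by
    intro z
    refine ⟨ball 0 (‖z‖ + 1), isOpen_ball.mem_nhds (by simp), hb _⟩
  intro z
  obtain ⟨s, hs, hi⟩ := h0 (z - a)
  refine ⟨(fun w => w - a) ⁻¹' s, ?_, ?_⟩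
  · exact (continuous_sub_right a).continuousAt.preimage_mem_nhds hs
  · have hmp : MeasurePreserving (fun w : ℂ => w - a) volume volume := measurePreserving_sub_right volume a
    exact (hmp.integrableOn_comp_preimage (MeasurableEquiv.subRight a).measurableEmbedding).2 hi

private theorem m2_ne (a : ℂ) : ∀ᵐ z : ℂ, z ≠ a := by
  rw [ae_iff]
  simp

/-- the gradient of `log |z - a|` -/
theorem fderiv_log_sub {a z : ℂ} (hz : z ≠ a) (v : ℂ) :
    fderiv ℝ (fun ζ : ℂ => Real.log ‖ζ - a‖) z v = (1 / (z - a) * v).re := by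
  have := fderiv_log_norm (g := fun ζ : ℂ => ζ - a) (w := z) (by fun_prop) (sub_ne_zero.2 hz) v
  rw [this]
  have e : deriv (fun ζ : ℂ => ζ - a) z = 1 := by simp
  rw [e]

private theorem m2_cont {τ : ℂ → ℝ} (hτ : ContDiff ℝ 1 τ) (v : ℂ) : Continuous fun z => fderiv ℝ τ z v :=
  (hτ.continuous_fderiv (by norm_num)).clm_apply continuous_const

/-- the dominating function -/
private theorem m2_dom {τ : ℂ → ℝ} (hτ : ContDiff ℝ 1 τ) (hc : HasCompactSupport τ) (a v : ℂ) :
    Integrable fun z : ℂ => |fderiv ℝ τ z v| * ‖z - a‖⁻¹ := by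
  have := (locInt_inv a).integrable_smul_left_of_hasCompactSupport (continuous_abs.comp (m2_cont hτ v))
    ((hcs_of_sub hc (ts_fderiv τ v)).comp_left (g := fun x : ℝ => |x|) abs_zero)
  exact this

private theorem m2_meas (a v : ℂ) : AEStronglyMeasurable (fun z : ℂ => (1 / (z - a) * v).re) volume := by
  have h : Measurable fun z : ℂ => (1 / (z - a) * v).re := by
    have h1 : Measurable fun z : ℂ => 1 / (z - a) * v := ((measurable_id.sub_const a).const_div 1).mul_const v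
    exact Complex.measurable_re.comp h1
  exact h.aestronglyMeasurable

private theorem m2_int1 {τ : ℂ → ℝ} (hτ : ContDiff ℝ 1 τ) (hc : HasCompactSupport τ) (a v : ℂ) (hv : ‖v‖ = 1) :
    Integrable fun z : ℂ => fderiv ℝ τ z v * fderiv ℝ (fun ζ : ℂ => Real.log ‖ζ - a‖) z v := by
  have h1 : Integrable fun z : ℂ => fderiv ℝ τ z v * (1 / (z - a) * v).re := by
    refine (m2_dom hτ hc a v).mono' ((m2_cont hτ v).aestronglyMeasurable.mul (m2_meas a v)) ?_
    filter_upwards [m2_ne a] with z hz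
    rw [norm_mul, Real.norm_eq_abs]
    refine mul_le_mul_of_nonneg_left ?_ (abs_nonneg _)
    rw [Real.norm_eq_abs]
    refine (Complex.abs_re_le_norm _).trans ?_
    rw [norm_mul, norm_div, norm_one, hv, mul_one, one_div]
  refine h1.congr ?_
  filter_upwards [m2_ne a] with z hz
  rw [fderiv_log_sub hz]

theorem integrable_gg_log {τ : ℂ → ℝ} (hτ : ContDiff ℝ 1 τ) (hc : HasCompactSupport τ) (a : ℂ) :
    Integrable fun z : ℂ => gg τ (fun ζ : ℂ => Real.log ‖ζ - a‖) z :=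
  (m2_int1 hτ hc a 1 (by simp)).add (m2_int1 hτ hc a I (by simp))

private theorem m2_rl {ε : ℝ} (hε : 0 < ε) {a z : ℂ} (hz : z ≠ a) (v : ℂ) (hv : ‖v‖ = 1) :
    |fderiv ℝ (rl ε fun ζ => ζ - a) z v| ≤ ‖z - a‖⁻¹ := by
  have hp : 0 < ‖z - a‖ := norm_pos_iff.2 (sub_ne_zero.2 hz)
  rw [fderiv_rl hε (by fun_prop)]
  have e : deriv (fun ζ : ℂ => ζ - a) z = 1 := by simp
  rw [e, one_mul]
  have h1 : |(z - a).re * v.re + (z - a).im * v.im| ≤ ‖z - a‖ := by
    have h2 : (z - a).re * v.re + (z - a).im * v.im = ((z - a) * (starRingEnd ℂ) v).re := by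
      simp [Complex.mul_re]
    rw [h2]
    refine (Complex.abs_re_le_norm _).trans ?_
    rw [norm_mul, RCLike.norm_conj, hv, mul_one]
  have h3 : (z - a).re ^ 2 + (z - a).im ^ 2 = ‖z - a‖ ^ 2 := by
    rw [← Complex.normSq_eq_norm_sq, Complex.normSq_apply]; ring
  rw [abs_div, h3, abs_of_pos (by positivity : 0 < ‖z - a‖ ^ 2 + ε ^ 2), div_le_iff₀ (by positivity)]
  refine h1.trans ?_
  have : ‖z - a‖⁻¹ * (‖z - a‖ ^ 2 + ε ^ 2) = ‖z - a‖ + ‖z - a‖⁻¹ * ε ^ 2 := by
    field_simp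
  rw [this]
  have : 0 ≤ ‖z - a‖⁻¹ * ε ^ 2 := by positivity
  linarith

private theorem m2_lim {a z : ℂ} (hz : z ≠ a) (v : ℂ) :
    Tendsto (fun n : ℕ => fderiv ℝ (rl (1 / ((n : ℝ) + 1)) fun ζ => ζ - a) z v) atTop (𝓝 ((1 / (z - a) * v).re)) := by
  have e0 : ∀ n : ℕ, fderiv ℝ (rl (1 / ((n : ℝ) + 1)) fun ζ => ζ - a) z v =
      ((z - a).re * v.re + (z - a).im * v.im) / ((z - a).re ^ 2 + (z - a).im ^ 2 + (1 / ((n : ℝ) + 1)) ^ 2) := by
    intro n
    rw [fderiv_rl (by positivity) (by fun_prop)]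
    have e : deriv (fun ζ : ℂ => ζ - a) z = 1 := by simp
    rw [e, one_mul]
  simp_rw [e0]
  have hne : (z - a).re ^ 2 + (z - a).im ^ 2 ≠ 0 := by
    have := Complex.normSq_pos.2 (sub_ne_zero.2 hz)
    rw [Complex.normSq_apply] at this
    nlinarith
  have h1 : Tendsto (fun n : ℕ => (z - a).re ^ 2 + (z - a).im ^ 2 + (1 / ((n : ℝ) + 1)) ^ 2) atTop
      (𝓝 ((z - a).re ^ 2 + (z - a).im ^ 2 + 0 ^ 2)) := (tendsto_one_div_add_atTop_nhds_zero_nat.pow 2).const_add _
  have h2 := (tendsto_const_nhds (x := (z - a).re * v.re + (z - a).im * v.im)).div h1 (by simpa using hne)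
  have e2 : (1 / (z - a) * v).re = ((z - a).re * v.re + (z - a).im * v.im) / ((z - a).re ^ 2 + (z - a).im ^ 2 + 0 ^ 2) := by
    have hN : Complex.normSq (z - a) = (z - a).re ^ 2 + (z - a).im ^ 2 := by
      rw [Complex.normSq_apply]; ring
    rw [mul_re, one_div, Complex.inv_re, Complex.inv_im, hN]
    ring
  rw [e2]
  exact h2

/-- **`- ∫ ∇τ ∇log |z - a| = 2 π τ(a)`** for `τ` of class `C¹` -/
theorem gg_log {τ : ℂ → ℝ} (hτ : ContDiff ℝ 1 τ) (hc : HasCompactSupport τ) (a : ℂ) :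
    - ∫ z, gg τ (fun ζ : ℂ => Real.log ‖ζ - a‖) z = 2 * Real.pi * τ a := by
  have h1 := fund_lhs hτ.continuous hc a
  have h2 : ∀ n : ℕ, ∫ z, τ z * Δ (rl (1 / ((n : ℝ) + 1)) fun w => w - a) z
      = - ∫ z, gg τ (rl (1 / ((n : ℝ) + 1)) fun w => w - a) z := fun n =>
    green1 hτ hc fun z _ => contDiffAt_rl (by positivity) (by fun_prop)
  have h3 : Tendsto (fun n : ℕ => ∫ z, gg τ (rl (1 / ((n : ℝ) + 1)) fun w => w - a) z) atTop
      (𝓝 (∫ z, gg τ (fun ζ : ℂ => Real.log ‖ζ - a‖) z)) := by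
    refine tendsto_integral_of_dominated_convergence
      (fun z => |fderiv ℝ τ z 1| * ‖z - a‖⁻¹ + |fderiv ℝ τ z I| * ‖z - a‖⁻¹) ?_
      ((m2_dom hτ hc a 1).add (m2_dom hτ hc a I)) ?_ ?_
    · intro n
      have hr : ContDiff ℝ 2 (rl (1 / ((n : ℝ) + 1)) fun w => w - a) := by
        rw [contDiff_iff_contDiffAt]
        exact fun z => contDiffAt_rl (by positivity) (by fun_prop)
      have hr1 : ContDiff ℝ 1 (rl (1 / ((n : ℝ) + 1)) fun w => w - a) := hr.of_le (by norm_num)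
      exact (((m2_cont hτ 1).mul (m2_cont hr1 1)).add ((m2_cont hτ I).mul (m2_cont hr1 I))).aestronglyMeasurable
    · intro n
      filter_upwards [m2_ne a] with z hz
      unfold gg
      rw [Real.norm_eq_abs]
      refine (abs_add_le _ _).trans (add_le_add ?_ ?_)
      · rw [abs_mul]
        exact mul_le_mul_of_nonneg_left (m2_rl (by positivity) hz 1 (by simp)) (abs_nonneg _)
      · rw [abs_mul]
        exact mul_le_mul_of_nonneg_left (m2_rl (by positivity) hz I (by simp)) (abs_nonneg _)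
    · filter_upwards [m2_ne a] with z hz
      unfold gg
      rw [fderiv_log_sub hz, fderiv_log_sub hz]
      exact ((m2_lim hz 1).const_mul _).add ((m2_lim hz I).const_mul _)
  have h4 := h3.neg
  exact tendsto_nhds_unique h4 (h1.congr h2)

theorem gg_add_right {τ u v : ℂ → ℝ} {z : ℂ} (hu : DifferentiableAt ℝ u z) (hv : DifferentiableAt ℝ v z) :
    gg τ (fun ζ => u ζ + v ζ) z = gg τ u z + gg τ v z := by
  unfold gg
  rw [fderiv_fun_add hu hv]
  simp only [add_apply]
  ring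

theorem gg_of_not_ts {τ w : ℂ → ℝ} {z : ℂ} (hz : z ∉ tsupport τ) : gg τ w z = 0 := by
  have h0 : τ =ᶠ[𝓝 z] fun _ => 0 := by
    filter_upwards [(isClosed_tsupport τ).isOpen_compl.mem_nhds hz] with w hw
    exact image_eq_zero_of_notMem_tsupport hw
  rw [gg_congr h0]
  simp [gg]

private theorem m2_sum_diff (S : Finset ℂ) (c : ℂ → ℝ) {z : ℂ} (hz : z ∉ S) :
    ContDiffAt ℝ 2 (fun ζ : ℂ => ∑ a ∈ S, c a * Real.log ‖ζ - a‖) z := by
  refine ContDiffAt.sum fun a ha => ?_
  have hne : z ≠ a := by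
    rintro rfl
    exact hz ha
  exact contDiffAt_const.mul (contDiffAt_log_norm (h := fun ζ => ζ - a) (by fun_prop) (sub_ne_zero.2 hne))

private theorem m2_gg_sum (τ : ℂ → ℝ) (S : Finset ℂ) (c : ℂ → ℝ) {z : ℂ} (hz : z ∉ S) :
    gg τ (fun ζ : ℂ => ∑ a ∈ S, c a * Real.log ‖ζ - a‖) z = ∑ a ∈ S, c a * gg τ (fun ζ : ℂ => Real.log ‖ζ - a‖) z := by
  have key : ∀ v : ℂ, fderiv ℝ (fun ζ : ℂ => ∑ a ∈ S, c a * Real.log ‖ζ - a‖) z v
      = ∑ a ∈ S, c a * fderiv ℝ (fun ζ : ℂ => Real.log ‖ζ - a‖) z v := by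
    intro v
    have hd : ∀ a ∈ S, HasFDerivAt (fun ζ : ℂ => c a * Real.log ‖ζ - a‖)
        (c a • fderiv ℝ (fun ζ : ℂ => Real.log ‖ζ - a‖) z) z := by
      intro a ha
      have hne : z ≠ a := by
        rintro rfl
        exact hz ha
      have h1 : DifferentiableAt ℝ (fun ζ : ℂ => Real.log ‖ζ - a‖) z :=
        (contDiffAt_log_norm (h := fun ζ => ζ - a) (by fun_prop) (sub_ne_zero.2 hne)).differentiableAt (by norm_num)
      exact h1.hasFDerivAt.const_mul _
    rw [(HasFDerivAt.fun_sum hd).fderiv]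
    simp
  unfold gg
  rw [key, key, Finset.mul_sum, Finset.mul_sum, ← Finset.sum_add_distrib]
  refine Finset.sum_congr rfl fun a _ => ?_
  ring

private theorem m2_finsum {K : Set ℂ} {τ : ℂ → ℝ} (hK : tsupport τ ⊆ K) {w : ℂ → ℝ} {c : ℂ → ℝ} (hw : ∀ z ∈ K, LogSing w (c z) z)
    {S : Finset ℂ} (hS : ∀ z ∈ K, z ∉ S → ContDiffAt ℝ 2 w z) : ∑ᶠ z, c z * τ z = ∑ a ∈ S, c a * τ a := by
  refine finsum_eq_sum_of_support_subset _ fun z hz => ?_
  by_contra hn
  apply hz
  show c z * τ z = 0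
  by_cases hzK : z ∈ tsupport τ
  · rw [(hw z (hK hzK)).eq_zero (hS z (hK hzK) hn).continuousAt, zero_mul]
  · rw [image_eq_zero_of_notMem_tsupport hzK, mul_zero]

private theorem m2_ae (S : Finset ℂ) : ∀ᵐ z : ℂ, z ∉ S := by
  rw [ae_iff]
  simpa using S.finite_toSet.measure_zero (volume : Measure ℂ)

/-- integrability of a function with logarithmic singularities against a continuous function with compact support -/
theorem LogSing.integrable_mul {φ w : ℂ → ℝ} {c : ℂ → ℝ} (hφ : Continuous φ) (hc : HasCompactSupport φ)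
    (hw : ∀ z ∈ tsupport φ, LogSing w (c z) z) : Integrable fun z => φ z * w z := by
  obtain ⟨S, w₂, -, h2, -, he⟩ := logSing_decomp hc hw
  have h1 : Integrable fun z => ∑ a ∈ S, c a * (φ z * Real.log ‖z - a‖) + φ z * w₂ z := by
    refine (integrable_finsetSum _ fun a _ => Integrable.const_mul ?_ _).add ?_
    · exact (locInt_log a).integrable_smul_left_of_hasCompactSupport hφ hc
    · have hs : tsupport (fun z => φ z * w₂ z) ⊆ tsupport φ := tsupport_mul_subset_left (f := φ) (g := w₂)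
      exact integrable_of_ts (fun z hz => hφ.continuousAt.mul (h2 z (hs hz)).continuousAt) (hcs_of_sub hc hs)
  refine h1.congr ?_
  filter_upwards [m2_ae S] with z hz
  rw [he z hz, mul_add, Finset.mul_sum]
  congr 1
  refine Finset.sum_congr rfl fun a _ => ?_
  ring

section

variable {τ w : ℂ → ℝ} {c : ℂ → ℝ}

private theorem m2_lap {S : Finset ℂ} {w₂ : ℂ → ℝ}
    (h2 : ∀ z ∈ tsupport τ, ContDiffAt ℝ 2 w₂ z)
    (he : ∀ ζ, ζ ∉ S → w ζ = ∑ a ∈ S, c a * Real.log ‖ζ - a‖ + w₂ ζ) : ∀ᵐ z : ℂ, τ z * Δ w z = τ z * Δ w₂ z := by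
  filter_upwards [m2_ae S] with z hz
  by_cases hzK : z ∈ tsupport τ
  · have h1 : w =ᶠ[𝓝 z] fun ζ => ∑ a ∈ S, c a * Real.log ‖ζ - a‖ + w₂ ζ := by
      filter_upwards [S.finite_toSet.isClosed.isOpen_compl.mem_nhds (by simpa using hz)] with ζ hζ
      exact he ζ (by simpa using hζ)
    rw [lap_congr h1, lap_add (m2_sum_diff S c hz) (h2 z hzK)]
    have h3 : HarmonicAt (fun ζ : ℂ => ∑ a ∈ S, c a * Real.log ‖ζ - a‖) z := by
      clear h1 he
      induction S using Finset.induction_on with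
      | empty => simp
      | insert a S ha ih =>
        simp only [Finset.mem_insert, not_or] at hz
        have h4 : HarmonicAt (fun ζ : ℂ => Real.log ‖ζ - a‖) z :=
          AnalyticAt.harmonicAt_log_norm (f := fun ζ => ζ - a) (by fun_prop) (sub_ne_zero.2 hz.1)
        have h5 : HarmonicAt (fun ζ : ℂ => c a * Real.log ‖ζ - a‖) z := h4.const_smul (c := c a)
        have h6 := h5.add (ih hz.2)
        refine (harmonicAt_congr_nhds (Eventually.of_forall fun ζ => ?_)).1 h6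
        simp [Finset.sum_insert ha]
    rw [h3.2.eq_of_nhds]
    simp
  · rw [image_eq_zero_of_notMem_tsupport hzK, zero_mul, zero_mul]

/-- `τ Δw` is integrable -/
theorem LogSing.integrable_lap (hτ : Continuous τ) (hc : HasCompactSupport τ) (hw : ∀ z ∈ tsupport τ, LogSing w (c z) z) :
    Integrable fun z => τ z * Δ w z := by
  obtain ⟨S, w₂, -, h2, -, he⟩ := logSing_decomp hc hw
  have hs : tsupport (fun z => τ z * Δ w₂ z) ⊆ tsupport τ := tsupport_mul_subset_left (f := τ) (g := Δ w₂)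
  have h1 : Integrable fun z => τ z * Δ w₂ z := by
    refine integrable_of_ts (fun z hz => hτ.continuousAt.mul ?_) (hcs_of_sub hc hs)
    have h3 := h2 z (hs hz)
    have e : Δ w₂ =ᶠ[𝓝 z] fun z => fderiv ℝ (fun w => fderiv ℝ w₂ w 1) z 1 + fderiv ℝ (fun w => fderiv ℝ w₂ w I) z I := by
      filter_upwards [h3.eventually (by simp)] with ζ hζ
      exact lap_eq hζ
    refine ContinuousAt.congr ?_ e.symm
    have h4 : ∀ v : ℂ, ContinuousAt (fun z => fderiv ℝ (fun w => fderiv ℝ w₂ w v) z v) z := fun v =>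
      ((contDiffAt_d h3 v).fderiv_right (m := 0) (by norm_num)).continuousAt.clm_apply continuousAt_const
    exact (h4 1).add (h4 I)
  exact h1.congr ((m2_lap h2 he).mono fun z hz => hz.symm)

/-- **First formula** (`τ` of class `C¹`): `- ∫ ∇τ ∇w = ∫ τ Δw + 2 π ∑ c τ` -/
theorem LogSing.mean1 (hτ : ContDiff ℝ 1 τ) (hc : HasCompactSupport τ) (hw : ∀ z ∈ tsupport τ, LogSing w (c z) z) :
    - ∫ z, gg τ w z = (∫ z, τ z * Δ w z) + 2 * Real.pi * ∑ᶠ z, c z * τ z := by
  obtain ⟨S, w₂, -, h2, hS, he⟩ := logSing_decomp hc hw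
  have e1 : ∀ᵐ z : ℂ, gg τ w z = ∑ a ∈ S, c a * gg τ (fun ζ : ℂ => Real.log ‖ζ - a‖) z + gg τ w₂ z := by
    filter_upwards [m2_ae S] with z hz
    by_cases hzK : z ∈ tsupport τ
    · have h3 : w =ᶠ[𝓝 z] fun ζ => ∑ a ∈ S, c a * Real.log ‖ζ - a‖ + w₂ ζ := by
        filter_upwards [S.finite_toSet.isClosed.isOpen_compl.mem_nhds (by simpa using hz)] with ζ hζ
        exact he ζ (by simpa using hζ)
      rw [gg_comm τ w, gg_congr h3, gg_comm _ τ, gg_add_right ((m2_sum_diff S c hz).differentiableAt (by norm_num))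
        ((h2 z hzK).differentiableAt (by norm_num)), m2_gg_sum τ S c hz]
    · rw [gg_of_not_ts hzK, gg_of_not_ts hzK]
      simp [gg_of_not_ts hzK]
  have hi : ∀ v : ℂ, Integrable fun z => fderiv ℝ τ z v * fderiv ℝ w₂ z v := by
    intro v
    have hs : tsupport (fun z => fderiv ℝ τ z v * fderiv ℝ w₂ z v) ⊆ tsupport τ :=
      (tsupport_mul_subset_left (f := fun z => fderiv ℝ τ z v) (g := fun z => fderiv ℝ w₂ z v)).trans (ts_fderiv τ v)
    exact integrable_of_ts (fun z hz => (m2_cont hτ v).continuousAt.mul (contDiffAt_d (h2 z (hs hz)) v).continuousAt)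
      (hcs_of_sub hc hs)
  have i2 : Integrable fun z => gg τ w₂ z := (hi 1).add (hi I)
  have e2 : - ∫ z, gg τ w₂ z = ∫ z, τ z * Δ w₂ z := (green1 hτ hc h2).symm
  have e3 : ∫ z, τ z * Δ w z = ∫ z, τ z * Δ w₂ z := integral_congr_ae (m2_lap h2 he)
  rw [integral_congr_ae e1, integral_add (integrable_finsetSum _ fun a _ => (integrable_gg_log hτ hc a).const_mul _) i2,
    integral_finsetSum _ fun a _ => (integrable_gg_log hτ hc a).const_mul _, neg_add, e2,
    e3, m2_finsum (Subset.refl _) hw hS, Finset.mul_sum, ← Finset.sum_neg_distrib, add_comm]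
  congr 1
  refine Finset.sum_congr rfl fun a _ => ?_
  rw [integral_const_mul, ← mul_neg, gg_log hτ hc a]
  ring

/-- **Second formula** (`τ` of class `C²`): `∫ Δτ w = ∫ τ Δw + 2 π ∑ c τ` -/
theorem LogSing.mean2 (hτ : ContDiff ℝ 2 τ) (hc : HasCompactSupport τ) (hw : ∀ z ∈ tsupport τ, LogSing w (c z) z) :
    ∫ z, Δ τ z * w z = (∫ z, τ z * Δ w z) + 2 * Real.pi * ∑ᶠ z, c z * τ z := by
  obtain ⟨S, w₂, -, h2, hS, he⟩ := logSing_decomp hc hw
  have hL := continuous_lap hτ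
  have hcL := hcs_of_sub hc (ts_lap τ)
  have e1 : ∀ᵐ z : ℂ, Δ τ z * w z = ∑ a ∈ S, c a * (Δ τ z * Real.log ‖z - a‖) + Δ τ z * w₂ z := by
    filter_upwards [m2_ae S] with z hz
    rw [he z hz, mul_add, Finset.mul_sum]
    congr 1
    refine Finset.sum_congr rfl fun a _ => ?_
    ring
  have i1 : ∀ a : ℂ, Integrable fun z => Δ τ z * Real.log ‖z - a‖ := fun a =>
    (locInt_log a).integrable_smul_left_of_hasCompactSupport hL hcL
  have i2 : Integrable fun z => Δ τ z * w₂ z := by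
    have hs : tsupport (fun z => Δ τ z * w₂ z) ⊆ tsupport τ :=
      (tsupport_mul_subset_left (f := Δ τ) (g := w₂)).trans (ts_lap τ)
    exact integrable_of_ts (fun z hz => hL.continuousAt.mul (h2 z (hs hz)).continuousAt) (hcs_of_sub hc hs)
  have e3 : ∫ z, τ z * Δ w z = ∫ z, τ z * Δ w₂ z := integral_congr_ae (m2_lap h2 he)
  rw [integral_congr_ae e1, integral_add (integrable_finsetSum _ fun a _ => (i1 a).const_mul _) i2,
    integral_finsetSum _ fun a _ => (i1 a).const_mul _, ← green2 hτ hc h2,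
    e3, m2_finsum (Subset.refl _) hw hS, Finset.mul_sum, add_comm]
  congr 1
  refine Finset.sum_congr rfl fun a _ => ?_
  rw [integral_const_mul, fund hτ hc]
  ring

/-- **Mean** : `- ∫ ∇τ ∇w = ∫ Δτ w` -/
theorem LogSing.mean (hτ : ContDiff ℝ 2 τ) (hc : HasCompactSupport τ) (hw : ∀ z ∈ tsupport τ, LogSing w (c z) z) :
    - ∫ z, gg τ w z = ∫ z, Δ τ z * w z := by
  rw [LogSing.mean1 (hτ.of_le (by norm_num)) hc hw, LogSing.mean2 hτ hc hw]

end

/-- **Mean for `tau R`** -/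
theorem LogSing.mean_tau {R : ℝ} (hR : 1 ≤ R) {w : ℂ → ℝ} {c : ℂ → ℝ} (hw : ∀ z, ‖z‖ ≤ Real.exp 1 * R → LogSing w (c z) z) :
    - ∫ z, gg (tau R) w z = avg R w - avg 1 w := by
  have hts : ∀ {φ : ℂ → ℝ}, (∀ z, Real.exp 1 * R ≤ ‖z‖ → φ z = 0) → ∀ z ∈ tsupport φ, ‖z‖ ≤ Real.exp 1 * R := by
    intro φ hφ z hz
    have h1 : tsupport φ ⊆ closedBall 0 (Real.exp 1 * R) := by
      refine closure_minimal (fun z hz => ?_) isClosed_closedBall
      rw [mem_closedBall_zero_iff]
      by_contra h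
      exact hz (hφ z (not_le.1 h).le)
    simpa using h1 hz
  have he : Real.exp 1 ≤ Real.exp 1 * R := by
    have := Real.exp_pos 1
    nlinarith
  have h1 : ∀ z ∈ tsupport (tau R), LogSing w (c z) z := fun z hz => hw z (hts (fun z hz => tau_eq_zero hR hz) z hz)
  have h2 : ∀ z ∈ tsupport (rhoR R), LogSing w (c z) z := fun z hz =>
    hw z (hts (fun z hz => rhoR_eq_zero hR (Or.inr hz)) z hz)
  have h3 : ∀ z ∈ tsupport (rhoR 1), LogSing w (c z) z := fun z hz =>
    hw z (hts (fun z hz => rhoR_eq_zero le_rfl (Or.inr (by linarith))) z hz)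
  rw [LogSing.mean (contDiff_tau R) (hcs_tau hR) h1]
  unfold avg
  rw [← integral_sub (LogSing.integrable_mul (continuous_rhoR R) (hcs_rhoR hR) h2)
    (LogSing.integrable_mul (continuous_rhoR 1) (hcs_rhoR le_rfl) h3)]
  refine integral_congr_ae (Eventually.of_forall fun z => ?_)
  simp only [lap_tau hR, rhoR_one]
  ring

end Pool.Agent.H30M

end
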