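import Pool.Agent.H43.TL2.M08
import Pool.Agent.H43.TL2.M26
import Pool.Agent.H43.TL2.M45
import Pool.Agent.H43.TL2.M46

/-! The parts of this file: H30M.PL_1, H30M.Tau2_1, H13.CV.FunF, H62.FC.CurveIdeal, H62.FC.Trdeg, H17BP.TrdegLt, MQ.MLog, MQ3.AsmI. -/

section

/-!
# Poincare-Lelong for test functions: `∫ Δτ log |g| = 2 π ∑ ord_z(g) τ(z)`
-/

set_option autoImplicit false

open MeasureTheory Complex Set Filter Topology Laplacian InnerProductSpace Metric

namespace Pool.Agent.H30M

/-- `φ log ‖g‖` is integrable. -/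
theorem integrable_mul_log {φ : ℂ → ℝ} (hφ : Continuous φ) (hc : HasCompactSupport φ) {g : ℂ → ℂ}
    (hg : AnalyticOnNhd ℂ g (tsupport φ)) (h0 : ∀ z ∈ tsupport φ, analyticOrderAt g z ≠ ⊤) :
    Integrable fun z => φ z * Real.log ‖g z‖ := by
  obtain ⟨S, h, -, -, hh1, hh2, hae⟩ := log_decomp hc hg h0
  have h1 : Integrable fun z => ∑ u ∈ S, (analyticOrderNatAt g u : ℝ) * (φ z * Real.log ‖z - u‖) +
      φ z * Real.log ‖h z‖ := by
    refine Integrable.add (integrable_finsetSum _ fun u _ => Integrable.const_mul ?_ _) ?_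
    · exact (locInt_log u).integrable_smul_left_of_hasCompactSupport hφ hc
    · have hs : tsupport (fun z => φ z * Real.log ‖h z‖) ⊆ tsupport φ :=
        tsupport_mul_subset_left (f := φ) (g := fun z => Real.log ‖h z‖)
      exact integrable_of_ts (fun z hz => hφ.continuousAt.mul
        (contDiffAt_log_norm (hh1 z (hs hz)) (hh2 z (hs hz))).continuousAt) (hcs_of_sub hc hs)
  refine h1.congr ?_
  filter_upwards [hae] with z hz
  by_cases hzK : z ∈ tsupport φ
  · rw [hz hzK, mul_add, Finset.mul_sum]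
    congr 1
    refine Finset.sum_congr rfl fun u _ => ?_
    ring
  · simp [image_eq_zero_of_notMem_tsupport hzK]

/-- **Poincare-Lelong for test functions** -/
theorem pl {τ : ℂ → ℝ} (hτ : ContDiff ℝ 2 τ) (hc : HasCompactSupport τ) {g : ℂ → ℂ}
    (hg : AnalyticOnNhd ℂ g (tsupport τ)) (h0 : ∀ z ∈ tsupport τ, analyticOrderAt g z ≠ ⊤) :
    ∫ z, Δ τ z * Real.log ‖g z‖ = 2 * Real.pi * ∑ᶠ z, (analyticOrderNatAt g z : ℝ) * τ z := by
  obtain ⟨S, h, hS1, hS2, hh1, hh2, hae⟩ := log_decomp hc hg h0
  have hL := continuous_lap hτ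
  have hcL := hcs_of_sub hc (ts_lap τ)
  have e1 : ∀ᵐ z : ℂ, Δ τ z * Real.log ‖g z‖ = ∑ u ∈ S, (analyticOrderNatAt g u : ℝ) * (Δ τ z * Real.log ‖z - u‖) +
      Δ τ z * Real.log ‖h z‖ := by
    filter_upwards [hae] with z hz
    by_cases hzK : z ∈ tsupport τ
    · rw [hz hzK, mul_add, Finset.mul_sum]
      congr 1
      refine Finset.sum_congr rfl fun u _ => ?_
      ring
    · simp [lap_of_not_ts hzK]
  have i1 : ∀ u : ℂ, Integrable fun z => Δ τ z * Real.log ‖z - u‖ := fun u =>
    (locInt_log u).integrable_smul_left_of_hasCompactSupport hL hcL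
  have i2 : Integrable fun z => Δ τ z * Real.log ‖h z‖ := by
    have hs : tsupport (fun z => Δ τ z * Real.log ‖h z‖) ⊆ tsupport τ :=
      (tsupport_mul_subset_left (f := Δ τ) (g := fun z => Real.log ‖h z‖)).trans (ts_lap τ)
    exact integrable_of_ts (fun z hz => hL.continuousAt.mul
      (contDiffAt_log_norm (hh1 z (hs hz)) (hh2 z (hs hz))).continuousAt) (hcs_of_sub hc hs)
  have e2 : ∫ z, Δ τ z * Real.log ‖h z‖ = 0 := by
    rw [← green2 hτ hc (fun z hz => contDiffAt_log_norm (hh1 z hz) (hh2 z hz))]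
    rw [← integral_zero ℂ ℝ]
    refine integral_congr_ae (Eventually.of_forall fun z => ?_)
    by_cases hzK : z ∈ tsupport τ
    · simp only [lap_log_norm (hh1 z hzK) (hh2 z hzK), mul_zero]
    · simp only [image_eq_zero_of_notMem_tsupport hzK, zero_mul]
  rw [integral_congr_ae e1, integral_add (integrable_finsetSum _ fun u _ => (i1 u).const_mul _) i2, e2, add_zero,
    integral_finsetSum _ fun u _ => (i1 u).const_mul _]
  rw [finsum_eq_sum_of_support_subset (s := S), Finset.mul_sum]
  · refine Finset.sum_congr rfl fun u _ => ?_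
    rw [integral_const_mul, fund hτ hc]
    ring
  · intro u hu
    by_contra hn
    apply hu
    simp only
    by_cases huK : u ∈ tsupport τ
    · rw [hS2 u huK hn]; simp
    · rw [image_eq_zero_of_notMem_tsupport huK]; simp

end Pool.Agent.H30M

end

section

/-!
# The test functions `tau R z = log R - P z + P (z / R)`: properties
-/

set_option autoImplicit false

open MeasureTheory Complex Set Filter Topology Laplacian InnerProductSpace Metric

namespace Pool.Agent.H30M

theorem le_tau {R r : ℝ} (_hR : 1 ≤ R) (hr : 1 ≤ r) {z : ℂ} (hz : ‖z‖ ≤ r) : Real.log R - Real.log r ≤ tau R z := by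
  unfold tau
  have h1 : P z ≤ Real.log r := by
    unfold P
    rcases le_total (Real.log ‖z‖) 0 with h | h
    · rw [Th_nonpos h]; exact Real.log_nonneg hr
    · refine (Th_le h).trans ?_
      rcases eq_or_ne z 0 with rfl | hz0
      · simp; exact Real.log_nonneg hr
      · exact Real.log_le_log (norm_pos_iff.2 hz0) hz
  have h2 := P_nonneg (z / R)
  linarith

theorem one_le_tau {R : ℝ} (hR : 1 ≤ R) {z : ℂ} (hz : ‖z‖ ≤ Real.exp 1 * R) : 1 ≤ tau (Real.exp 2 * R) z := by
  have e1 : 1 ≤ Real.exp 1 * R := by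
    have := Real.one_le_exp (zero_le_one (α := ℝ))
    nlinarith
  have e2 : 1 ≤ Real.exp 2 * R := by
    have := Real.one_le_exp (zero_le_two (α := ℝ))
    nlinarith
  have h := le_tau e2 e1 hz
  rw [Real.log_mul (Real.exp_pos _).ne' (by linarith), Real.log_mul (Real.exp_pos _).ne' (by linarith),
    Real.log_exp, Real.log_exp] at h
  linarith

theorem fderiv_PR {R : ℝ} (hR : 1 ≤ R) (z v : ℂ) : fderiv ℝ (fun z : ℂ => P (z / R)) z v =
    Real.smoothTransition (Real.log ‖z / R‖) * (v / z).re := by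
  rw [t2_fd R P (contDiff_P.differentiable (by norm_num)), fderiv_P]
  congr 2
  have : (R : ℂ) ≠ 0 := by
    rw [Ne, Complex.ofReal_eq_zero]; linarith
  rw [div_div_div_cancel_right₀ this]

theorem fderiv_tau {R : ℝ} (hR : 1 ≤ R) (z v : ℂ) : fderiv ℝ (tau R) z v =
    (Real.smoothTransition (Real.log ‖z / R‖) - Real.smoothTransition (Real.log ‖z‖)) * (v / z).re := by
  have h1 : DifferentiableAt ℝ P z := contDiff_P.differentiable (by norm_num) z
  have h2 : DifferentiableAt ℝ (fun z : ℂ => P (z / R)) z := (contDiff_PR R).differentiable (by norm_num) z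
  have h3 : HasFDerivAt (tau R) (- fderiv ℝ P z + fderiv ℝ (fun z : ℂ => P (z / R)) z) z :=
    (h1.hasFDerivAt.const_sub _).add h2.hasFDerivAt
  rw [h3.fderiv]
  simp only [add_apply, neg_apply]
  rw [fderiv_P, fderiv_PR hR]
  ring

/-- **Jensen's formula** -/
theorem pl_tau {R : ℝ} (hR : 1 ≤ R) {g : ℂ → ℂ} (hg : Differentiable ℂ g) (h0 : ∃ z, g z ≠ 0) :
    avg R (fun z => Real.log ‖g z‖) - avg 1 (fun z => Real.log ‖g z‖)
      = 2 * Real.pi * ∑ᶠ z, (analyticOrderNatAt g z : ℝ) * tau R z := by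
  have hA : AnalyticOnNhd ℂ g univ := fun z _ => hg.analyticAt z
  have ho : ∀ z, analyticOrderAt g z ≠ ⊤ := by
    obtain ⟨w, hw⟩ := h0
    have hw' : analyticOrderAt g w ≠ ⊤ := by
      rw [(hg.analyticAt w).analyticOrderAt_eq_zero.2 hw]
      simp
    intro z
    exact hA.analyticOrderAt_ne_top_of_isPreconnected isPreconnected_univ (mem_univ w) (mem_univ z) hw'
  rw [← pl (contDiff_tau R) (hcs_tau hR) (fun z _ => hg.analyticAt z) fun z _ => ho z]
  unfold avg
  rw [← integral_sub]
  · refine integral_congr_ae (Eventually.of_forall fun z => ?_)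
    simp only [lap_tau hR, rhoR_one]
    ring
  · exact integrable_mul_log (continuous_rhoR R) (hcs_rhoR hR) (fun z _ => hg.analyticAt z) fun z _ => ho z
  · exact integrable_mul_log (continuous_rhoR 1) (hcs_rhoR le_rfl) (fun z _ => hg.analyticAt z) fun z _ => ho z

end Pool.Agent.H30M

end

section

/-!
# CV FunF: the function field of a curve in projective space

`FunField Q` is generated over `ℂ` by the finitely many functions `ratio Q i j`.  `exists_tr`: the member of the transcendence basis.  `fin`: let `x` be transcendental.  The transcendence degree is `1`, so `x` is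
a transcendence basis (`AlgebraicIndependent.isTranscendenceBasis_of_trdeg_le_of_finite` or similar, see the proof of `trdeg_lt` in `Pool/Agent/H17BP/TrdegLt.lean`), and `K` is algebraic over
`ℂ(x)` and generated by finitely many elements, so it is finite over `ℂ(x)` (`IntermediateField.finiteDimensional_adjoin`, `IntermediateField.finiteDimensional_of_exists_…`,
`IntermediateField.essFiniteType`, `Algebra.IsAlgebraic` + `Algebra.EssFiniteType` → `Module.Finite`: `Algebra.finite_of_essFiniteType_of_isAlgebraic`-like; there is also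
`Pool.Agent.H23` material with `[Algebra.EssFiniteType ℂ K]`).
-/

set_option autoImplicit false

open MvPolynomial
open Pool.Agent.H17LG.Variety (FunField IsLogGeneralType)

noncomputable section

namespace Pool.Agent.H13.CV

variable {N : ℕ}

private lemma funF_core {K : Type} [Field K] [Algebra ℂ K] (y : Fin (N + 1) → K)
    (hy : IntermediateField.adjoin ℂ (Set.range y) = ⊤) {z : Fin 1 → K} (hz : IsTranscendenceBasis ℂ z) :
    CurveField K := by
  refine ⟨⟨z 0, hz.1.transcendental 0⟩, fun x hx => ?_⟩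
  have hind : AlgebraicIndependent ℂ (fun _ : Fin 1 => x) := algebraicIndependent_unique_type_iff.2 hx
  have h2 := IsTranscendenceBasis.cardinalMk_eq_trdeg (R := ℂ) (A := K) (x := z) hz
  have hbasis : IsTranscendenceBasis ℂ fun _ : Fin 1 => x :=
    hind.isTranscendenceBasis_of_trdeg_le_of_finite h2.ge
  have halg := hbasis.isAlgebraic_field
  have hr : Set.range (fun _ : Fin 1 => x) = {x} := Set.range_const
  rw [hr] at halg
  have hfin : FiniteDimensional (IntermediateField.adjoin ℂ {x})
      (IntermediateField.adjoin (IntermediateField.adjoin ℂ {x}) (Set.range y)) :=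
    IntermediateField.finiteDimensional_adjoin fun u _ => (halg.isAlgebraic u).isIntegral
  have htop : IntermediateField.adjoin (IntermediateField.adjoin ℂ {x}) (Set.range y) = ⊤ := by
    rw [eq_top_iff]
    intro u _
    have hu : u ∈ IntermediateField.adjoin ℂ (Set.range y) := by
      rw [hy]
      exact IntermediateField.mem_top
    have hle : IntermediateField.adjoin ℂ (Set.range y) ≤
        (IntermediateField.adjoin (IntermediateField.adjoin ℂ {x}) (Set.range y)).restrictScalars ℂ := by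
      rw [IntermediateField.adjoin_le_iff]
      exact IntermediateField.subset_adjoin (IntermediateField.adjoin ℂ {x}) (Set.range y)
    exact hle hu
  rw [htop] at hfin
  exact FiniteDimensional.of_surjective
    ((⊤ : IntermediateField (IntermediateField.adjoin ℂ {x}) K).val.toLinearMap)
    (fun u => ⟨⟨u, IntermediateField.mem_top⟩, rfl⟩)

theorem curveField_funField (Q : Ideal (MvPolynomial (Fin (N + 1)) ℂ)) [Q.IsPrime] (hz : ∃ z : Fin 1 → FunField Q, IsTranscendenceBasis ℂ z) :
    CurveField (FunField Q) := by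
  obtain ⟨z, hz⟩ := hz
  obtain ⟨j, hj⟩ := Pool.Agent.H92.GT.Proj.exists_coordFun_ne_zero Q (k := 0) z hz
  obtain ⟨y, -, hygen, -⟩ := Pool.Agent.H92.GT.Proj.proj_point Q hj
  exact funF_core (K := FunField Q) y hygen hz

end Pool.Agent.H13.CV

end
end

section

/-!
# Fermat covers: subvarieties which are not of log general type

The closures of the monomial curves are rational curves stable under a one-parameter group, so they
are not of log general type.
-/

open MvPolynomial Topology Filter
open Pool.Agent.H17GT (coordFun functionField)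
open Pool.Agent.H17LG.Variety (FunField)

noncomputable section

namespace Pool.Agent.H62.FC

variable {N : ℕ} {κ : Type} {A : κ → MvPolynomial (Fin (N + 1)) ℂ} {e : κ → ℕ}
  {O : Finset (Fin (N + 1))} {P : Ideal (MvPolynomial (Fin (N + 1)) ℂ)}

variable {a : Fin (N + 1) → ℂ} {n : Fin (N + 1) → ℤ}

open scoped IntermediateField.algebraAdjoinAdjoin in
lemma exists_fin_basis_aux {K : Type} [Field K] [Algebra ℂ K] {m : ℕ} {x : Fin m → K}
    (hgen : IntermediateField.adjoin ℂ (Set.range x) = ⊤) :
    ∃ (w : ℕ) (z : Fin w → K), IsTranscendenceBasis ℂ z := by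
  have halg : Algebra.IsAlgebraic (IntermediateField.adjoin ℂ (Set.range x)) K := by
    rw [hgen]
    exact ⟨fun f => isAlgebraic_algebraMap (⟨f, IntermediateField.mem_top⟩ :
      (⊤ : IntermediateField ℂ K))⟩
  have h1 : Algebra.IsAlgebraic (Algebra.adjoin ℂ (Set.range x)) K :=
    (IsFractionRing.comap_isAlgebraic_iff (A := Algebra.adjoin ℂ (Set.range x))
      (K := IntermediateField.adjoin ℂ (Set.range x)) (C := K)).mpr halg
  obtain ⟨u, hu, hub⟩ := exists_isTranscendenceBasis_subset (R := ℂ) (Set.range x)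
  have h3 : Finite u := (Set.finite_range x).subset hu
  let eqv : Fin (Nat.card u) ≃ u := (Finite.equivFin u).symm
  refine ⟨Nat.card u, (Subtype.val : u → K) ∘ eqv, ?_⟩
  rw [isTranscendenceBasis_equiv]
  exact hub

/-- The function field of a projective variety has a finite transcendence basis. -/
lemma exists_fin_basis [P.IsPrime] (hne : ∃ i, X i ∉ P) :
    ∃ (w : ℕ) (z : Fin w → FunField P), IsTranscendenceBasis ℂ z := by
  obtain ⟨j, hj⟩ := hne
  have hj' : coordFun P j ≠ 0 := by
    intro h0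
    apply hj
    rw [← Pool.Agent.H92.GT.Proj.aeval_coordFun_eq_zero_iff P (X j), aeval_X]
    exact h0
  obtain ⟨x, -, hgen, -⟩ := Pool.Agent.H92.GT.Proj.proj_point P hj'
  exact exists_fin_basis_aux hgen

end Pool.Agent.H62.FC

end
end

section

/-!
# Fermat covers: the dimension is monotone

For homogeneous prime ideals `P ≤ Q` the transcendence degree of the function field of `Q` is at
most the transcendence degree of the function field of `P`: coordinates whose ratios are
algebraically independent on the variety of `Q` have the same property on the variety of `P`.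
-/

noncomputable section

namespace Pool.Agent.H62.FC

open MvPolynomial
open Pool.Agent.H17GT (coordFun)
open Pool.Agent.H17LG.Variety (FunField)

variable {N : ℕ} {P : Ideal (MvPolynomial (Fin (N + 1)) ℂ)}

/-- Coordinates which are algebraically independent on the smaller variety are so on the larger
one. -/
private lemma Trdeg_indep {K L : Type} [Field K] [Algebra ℂ K] [Field L] [Algebra ℂ L] {k : ℕ}
    {j : Fin (N + 1)} {x : Fin (N + 1) → K} {y : Fin (N + 1) → L} (hx : x j = 1) (hy : y j = 1)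
    (h : ∀ (n : ℕ) (G : MvPolynomial (Fin (N + 1)) ℂ), G.IsHomogeneous n → aeval x G = 0 →
      aeval y G = 0) {J : Fin k → Fin (N + 1)} (hJ : AlgebraicIndependent ℂ fun i => y (J i)) :
    AlgebraicIndependent ℂ fun i => x (J i) := by
  rw [algebraicIndependent_iff] at hJ ⊢
  intro p hp
  apply hJ
  set Af : Fin (k + 1) → MvPolynomial (Fin (N + 1)) ℂ := Fin.cons (X j) fun i => X (J i) with hAf
  have hAfhom : ∀ i, IsWeightedHomogeneous (1 : Fin (N + 1) → ℕ) (Af i) 1 := by
    intro i
    refine Fin.cases ?_ (fun i => ?_) i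
    · exact isHomogeneous_X ℂ j
    · exact isHomogeneous_X ℂ (J i)
  have key : ∀ {K : Type} [Field K] [Algebra ℂ K] {x : Fin (N + 1) → K}, x j = 1 →
      aeval x (Pool.Agent.H92.GT.hmg p Af) = aeval (fun i => x (J i)) p := by
    intro K _ _ x hx
    rw [Pool.Agent.H92.GT.map_hmg]
    have h0 : aeval x (Af 0) = 1 := by
      change aeval x (X j) = 1
      rw [aeval_X, hx]
    rw [Pool.Agent.H92.GT.hmg_eq p (by rw [h0]; exact one_ne_zero), h0, one_pow, one_mul]
    congr 2
    funext i
    change aeval x (X (J i)) / 1 = x (J i)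
    rw [aeval_X, div_one]
  rw [← key hy]
  exact h _ _ (Pool.Agent.H92.GT.hmg_isWeightedHomogeneous p hAfhom) (by rw [key hx, hp])

theorem trdeg_mono [P.IsPrime] {Q : Ideal (MvPolynomial (Fin (N + 1)) ℂ)} [Q.IsPrime]
    (hP : Homog P) (hQ : Homog Q) (hPQ : P ≤ Q) {r w : ℕ} (hr : ∃ z : Fin r → FunField P,
      IsTranscendenceBasis ℂ z) (hw : ∃ z : Fin w → FunField Q, IsTranscendenceBasis ℂ z) :
    w ≤ r := by
  rcases w with - | w
  · exact Nat.zero_le _
  obtain ⟨z, hz⟩ := hw
  obtain ⟨z', hz'⟩ := hr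
  obtain ⟨j, hj⟩ := Pool.Agent.H92.GT.Proj.exists_coordFun_ne_zero Q (k := w) z hz
  have hj' : coordFun P j ≠ 0 := by
    intro h0
    apply hj
    have h1 := (Pool.Agent.H92.GT.Proj.aeval_coordFun_eq_zero_iff P (X j)).1
      (by rw [aeval_X]; exact h0)
    have h2 := (Pool.Agent.H92.GT.Proj.aeval_coordFun_eq_zero_iff Q (X j)).2 (hPQ h1)
    rwa [aeval_X] at h2
  obtain ⟨y, hy1, hygen, hyker⟩ := Pool.Agent.H92.GT.Proj.proj_point Q hj
  obtain ⟨x, hx1, -, hxker⟩ := Pool.Agent.H92.GT.Proj.proj_point P hj'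
  have halg : Algebra.IsAlgebraic (IntermediateField.adjoin ℂ (Set.range y))
      (H17GT.functionField Q) := by
    rw [hygen]
    exact ⟨fun f => isAlgebraic_algebraMap (⟨f, IntermediateField.mem_top⟩ :
      (⊤ : IntermediateField ℂ (H17GT.functionField Q)))⟩
  obtain ⟨J, hJ⟩ := Pool.Agent.H92.GT.exists_index halg (z := z) hz
  have hind : AlgebraicIndependent ℂ fun i => x (J i) :=
    Trdeg_indep hx1 hy1 (fun n G hG h => (hyker n G hG).2 (hPQ ((hxker n G hG).1 h))) hJ.1
  have h1 := hind.cardinalMk_le_trdeg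
  have h2 := IsTranscendenceBasis.cardinalMk_eq_trdeg (R := ℂ) (A := H17GT.functionField P)
    (x := z') hz'
  rw [← h2, Cardinal.mk_fin, Cardinal.mk_fin, Nat.cast_le] at h1
  exact h1

end Pool.Agent.H62.FC

end
end

section

/-!
# The dimension of a proper closed subvariety is smaller

Start as in the proof of `trdeg_mono` (`Pool/Agent/H62/FC/Trdeg.lean`): `j` with `coordFun Q j ≠ 0` (from `hX`:
`aeval_coordFun_eq_zero_iff Q (X j)`), so `coordFun P j ≠ 0`; `proj_point` gives `y` in `K_Q = functionField Q` and `x` in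
`K_P = functionField P` with `y j = 1`, `x j = 1`, and `aeval y G = 0 ↔ G ∈ Q`, `aeval x G = 0 ↔ G ∈ P` for forms `G`;
`exists_index` (needs `halg`) gives `J : Fin w → Fin (N + 1)` such that `y ∘ J` is a transcendence basis of `K_Q`, and
`x ∘ J` is algebraically independent (`Trdeg_indep` is private there: copy it).

(a) For ALL polynomials `H` (not only forms): `aeval x H = 0 → aeval y H = 0`: let `d` be the total degree of `H`; the form
`H' = ∑ k ≤ d, X j ^ (d - k) * homogeneousComponent k H` has degree `d` and `aeval x H' = aeval x H` as `x j = 1`, the same for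
`y` (`sum_homogeneousComponent`).  So `H' ∈ P ≤ Q` and `aeval y H = 0`.

(b) By `trdeg_mono`, `w ≤ r`.  Suppose `w = r`.  There is `F ∈ Q`, `F ∉ P`, and by `Homog Q` one may take `F` a form (some
homogeneous component of `F` is not in `P`, all are in `Q`).  `f = aeval x F ≠ 0` and `aeval y F = 0`.  `f` is algebraic
over `A = Algebra.adjoin ℂ (range (x ∘ J))`, because `x ∘ J` is algebraically independent with `w = r = trdeg` elements
(otherwise `f` together with `x ∘ J` would be algebraically independent with `r + 1` elements: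
`AlgebraicIndependent.cardinalMk_le_trdeg`; or: a finite algebraically independent family with `trdeg` elements is a
transcendence basis).  As `f ≠ 0` and `A` is a domain: there is a polynomial `q` over `A` with `q.coeff 0 ≠ 0` and
`aeval f q = 0` (`exists_nonzero_coeff_and_aeval_eq_zero`).  Every coefficient of `q` is `aeval (x ∘ J) (c i)` with
`c i : MvPolynomial (Fin w) ℂ`, `c 0 ≠ 0`.  Let `H = ∑ i, rename J (c i) * F ^ i`: `aeval x H = 0`, so by (a)
`aeval y H = 0`; but `aeval y F = 0`, so `aeval y H = aeval (y ∘ J) (c 0) ≠ 0` (independence of `y ∘ J`): contradiction.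
-/

open MvPolynomial
open Pool.Agent.H17GT (coordFun)
open Pool.Agent.H17LG.Variety (FunField)
open Pool.Agent.H62.FC (Homog trdeg_mono)

noncomputable section

namespace Pool.Agent.H17BP

variable {N : ℕ} {P Q : Ideal (MvPolynomial (Fin (N + 1)) ℂ)}

/-- Coordinates which are algebraically independent on the smaller variety are so on the larger
one. -/
private lemma TrdegLt_indep {K L : Type} [Field K] [Algebra ℂ K] [Field L] [Algebra ℂ L] {k : ℕ}
    {x : Fin (N + 1) → K} {y : Fin (N + 1) → L}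
    (h : ∀ G : MvPolynomial (Fin (N + 1)) ℂ, aeval x G = 0 → aeval y G = 0)
    {J : Fin k → Fin (N + 1)} (hJ : AlgebraicIndependent ℂ fun i => y (J i)) :
    AlgebraicIndependent ℂ fun i => x (J i) := by
  rw [algebraicIndependent_iff] at hJ ⊢
  intro p hp
  apply hJ
  have h1 : aeval y (rename J p) = 0 := by
    apply h
    rw [aeval_rename]
    exact hp
  rw [aeval_rename] at h1
  exact h1

private lemma TrdegLt_hom {K L : Type} [Field K] [Algebra ℂ K] [Field L] [Algebra ℂ L]
    {j : Fin (N + 1)} {x : Fin (N + 1) → K} {y : Fin (N + 1) → L} (hx : x j = 1) (hy : y j = 1)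
    (h : ∀ (n : ℕ) (G : MvPolynomial (Fin (N + 1)) ℂ), G.IsHomogeneous n → aeval x G = 0 →
      aeval y G = 0) (H : MvPolynomial (Fin (N + 1)) ℂ) (hH : aeval x H = 0) : aeval y H = 0 := by
  have key : ∀ {K : Type} [Field K] [Algebra ℂ K] {x : Fin (N + 1) → K}, x j = 1 →
      aeval x (∑ k ∈ Finset.range (H.totalDegree + 1),
        X j ^ (H.totalDegree - k) * homogeneousComponent k H) = aeval x H := by
    intro K _ _ x hx
    conv_rhs => rw [← MvPolynomial.sum_homogeneousComponent H]
    rw [map_sum, map_sum]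
    refine Finset.sum_congr rfl fun k _ => ?_
    rw [map_mul, map_pow, aeval_X, hx, one_pow, one_mul]
  rw [← key hy]
  refine h H.totalDegree _ ?_ (by rw [key hx, hH])
  apply MvPolynomial.IsHomogeneous.sum
  intro d hd
  have h1 : d ≤ H.totalDegree := Nat.lt_succ_iff.1 (Finset.mem_range.1 hd)
  have h2 := (MvPolynomial.isHomogeneous_X_pow (R := ℂ) j (H.totalDegree - d)).mul
    (MvPolynomial.homogeneousComponent_isHomogeneous d H)
  rwa [Nat.sub_add_cancel h1] at h2

private lemma TrdegLt_core {K L : Type} [Field K] [Algebra ℂ K] [Field L] [Algebra ℂ L] {w : ℕ}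
    {x : Fin (N + 1) → K} {y : Fin (N + 1) → L} {J : Fin w → Fin (N + 1)}
    (hxJ : IsTranscendenceBasis ℂ fun i => x (J i)) (hyJ : AlgebraicIndependent ℂ fun i => y (J i))
    (hxy : ∀ H : MvPolynomial (Fin (N + 1)) ℂ, aeval x H = 0 → aeval y H = 0)
    {F : MvPolynomial (Fin (N + 1)) ℂ} (hF : aeval x F ≠ 0) (hF' : aeval y F = 0) : False := by
  have halg := hxJ.isAlgebraic
  obtain ⟨q, hq0, hq⟩ := (halg.isAlgebraic (aeval x F)).exists_nonzero_coeff_and_aeval_eq_zero
    (mem_nonZeroDivisors_of_ne_zero hF)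
  have hc : ∀ u : Algebra.adjoin ℂ (Set.range fun i => x (J i)),
      ∃ c : MvPolynomial (Fin w) ℂ, aeval (fun i => x (J i)) c = (u : K) := by
    have h1 : ∀ u ∈ Algebra.adjoin ℂ (Set.range fun i => x (J i)),
        ∃ c : MvPolynomial (Fin w) ℂ, aeval (fun i => x (J i)) c = u := by
      intro u hu
      rw [Algebra.adjoin_range_eq_range_aeval] at hu
      exact hu
    exact fun u => h1 _ u.2
  choose c hc using hc
  have h1 : aeval x (∑ i ∈ Finset.range (q.natDegree + 1), rename J (c (q.coeff i)) * F ^ i) = 0 := by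
    rw [map_sum, ← hq, Polynomial.aeval_eq_sum_range]
    refine Finset.sum_congr rfl fun i _ => ?_
    rw [map_mul, map_pow, aeval_rename, Algebra.smul_def]
    congr 1
    exact hc _
  have h2 := hxy _ h1
  rw [map_sum, Finset.sum_range_succ', Finset.sum_eq_zero, zero_add, map_mul, map_pow, pow_zero,
    mul_one, aeval_rename] at h2
  · rw [algebraicIndependent_iff] at hyJ
    have h3 : c (q.coeff 0) = 0 := hyJ _ h2
    have h4 := hc (q.coeff 0)
    rw [h3, map_zero] at h4
    exact hq0 (Subtype.ext h4.symm)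
  · intro i _
    rw [map_mul, map_pow, hF', zero_pow (Nat.succ_ne_zero i), mul_zero]

theorem trdeg_lt [P.IsPrime] [Q.IsPrime] (hP : Homog P) (hQ : Homog Q) (hPQ : P ≤ Q) (hne : ¬ Q ≤ P)
    (hX : ∃ i, (X i : MvPolynomial (Fin (N + 1)) ℂ) ∉ Q) {r w : ℕ}
    (hr : ∃ z : Fin r → FunField P, IsTranscendenceBasis ℂ z)
    (hw : ∃ z : Fin w → FunField Q, IsTranscendenceBasis ℂ z) : w < r := by
  refine lt_of_le_of_ne (trdeg_mono hP hQ hPQ hr hw) ?_
  rintro rfl
  obtain ⟨z, hz⟩ := hw
  obtain ⟨z', hz'⟩ := hr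
  obtain ⟨j, hj0⟩ := hX
  have hj : coordFun Q j ≠ 0 := by
    intro h0
    exact hj0 ((Pool.Agent.H92.GT.Proj.aeval_coordFun_eq_zero_iff Q (X j)).1
      (by rw [aeval_X]; exact h0))
  have hj' : coordFun P j ≠ 0 := by
    intro h0
    apply hj
    have h1 := (Pool.Agent.H92.GT.Proj.aeval_coordFun_eq_zero_iff P (X j)).1
      (by rw [aeval_X]; exact h0)
    have h2 := (Pool.Agent.H92.GT.Proj.aeval_coordFun_eq_zero_iff Q (X j)).2 (hPQ h1)
    rwa [aeval_X] at h2
  obtain ⟨y, hy1, hygen, hyker⟩ := Pool.Agent.H92.GT.Proj.proj_point Q hj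
  obtain ⟨x, hx1, -, hxker⟩ := Pool.Agent.H92.GT.Proj.proj_point P hj'
  have halg : Algebra.IsAlgebraic (IntermediateField.adjoin ℂ (Set.range y))
      (H17GT.functionField Q) := by
    rw [hygen]
    exact ⟨fun f => isAlgebraic_algebraMap (⟨f, IntermediateField.mem_top⟩ :
      (⊤ : IntermediateField ℂ (H17GT.functionField Q)))⟩
  obtain ⟨J, hJ⟩ := Pool.Agent.H92.GT.exists_index halg (z := z) hz
  have hxy : ∀ H : MvPolynomial (Fin (N + 1)) ℂ, aeval x H = 0 → aeval y H = 0 :=
    TrdegLt_hom hx1 hy1 fun n G hG h => (hyker n G hG).2 (hPQ ((hxker n G hG).1 h))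
  have hind : AlgebraicIndependent ℂ fun i => x (J i) := TrdegLt_indep hxy hJ.1
  have h2 := IsTranscendenceBasis.cardinalMk_eq_trdeg (R := ℂ) (A := H17GT.functionField P)
    (x := z') hz'
  have hbasis : IsTranscendenceBasis ℂ fun i => x (J i) :=
    hind.isTranscendenceBasis_of_trdeg_le_of_finite h2.ge
  obtain ⟨F₀, hF₀Q, hF₀P⟩ := Set.not_subset.1 hne
  obtain ⟨n, hn⟩ : ∃ n, homogeneousComponent n F₀ ∉ P := by
    by_contra hcon
    push Not at hcon
    apply hF₀P
    change F₀ ∈ P
    rw [← MvPolynomial.sum_homogeneousComponent F₀]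
    exact Ideal.sum_mem _ fun i _ => hcon i
  have hFQ := hQ F₀ hF₀Q n
  exact TrdegLt_core hbasis hJ.1 hxy
    (fun h => hn ((hxker n _ (homogeneousComponent_isHomogeneous n F₀)).1 h))
    ((hyker n _ (homogeneousComponent_isHomogeneous n F₀)).2 hFQ)

end Pool.Agent.H17BP

end
end

section

/-!
# MQ MLog: the averages of `log (1 + lam)`
-/

set_option autoImplicit false

open MeasureTheory Topology Filter Metric Laplacian Set

noncomputable section

namespace Pool.Agent.MQ

open Pool.Agent.H30M (tau rhoR avg rho tau_nonneg contDiff_tau hcs_tau green_tau rhoR_nonneg)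

variable {N M : ℕ}

/-- `rho` is bounded -/
theorem exists_rho_le : ∃ K : ℝ, 0 ≤ K ∧ ∀ z, rho z ≤ K := by
  have hcs : HasCompactSupport rho := by
    have := Pool.Agent.H30M.hcs_rhoR (R := 1) le_rfl
    rwa [Pool.Agent.H30M.rhoR_one] at this
  obtain ⟨K, hK⟩ := Pool.Agent.H30M.continuous_rho.bounded_above_of_compact_support hcs
  refine ⟨|K|, abs_nonneg K, fun z => ?_⟩
  have := hK z
  rw [Real.norm_eq_abs] at this
  exact (le_abs_self _).trans (this.trans (le_abs_self K))

/-- the average of the square of a density is controlled by its energy on a larger disc -/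
theorem exists_avg_sq_le : ∃ K : ℝ, 0 ≤ K ∧ ∀ {l : ℂ → ℝ}, Continuous l → ∀ R, 1 ≤ R →
    avg R (fun z => l z ^ 2) ≤ K / R ^ 2 * ∫ z, tau (Real.exp 2 * R) z * l z ^ 2 := by
  obtain ⟨K, hK0, hK⟩ := exists_rho_le
  refine ⟨K, hK0, fun {l} hl0 R hR => ?_⟩
  have hR0 : 0 < R := by linarith
  have he : 1 ≤ Real.exp 2 * R := by
    have := Real.one_le_exp (zero_le_two (α := ℝ))
    nlinarith
  have hc : Continuous fun z => l z ^ 2 := hl0.pow 2
  unfold Pool.Agent.H30M.avg
  rw [← integral_const_mul]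
  refine integral_mono (((Pool.Agent.H30M.continuous_rhoR R).mul hc).integrable_of_hasCompactSupport ((Pool.Agent.H30M.hcs_rhoR hR).mul_right))
    ((((contDiff_tau _).continuous.mul hc).integrable_of_hasCompactSupport ((hcs_tau he).mul_right)).const_mul _) fun z => ?_
  have hl : 0 ≤ l z ^ 2 := sq_nonneg _
  have h1 : rhoR R z ≤ K / R ^ 2 * tau (Real.exp 2 * R) z := by
    have hKR : 0 ≤ K / R ^ 2 := by positivity
    by_cases hz : ‖z‖ ≤ Real.exp 1 * R
    · have h2 := Pool.Agent.H30M.one_le_tau hR hz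
      have h3 : rhoR R z ≤ K / R ^ 2 := div_le_div_of_nonneg_right (hK _) (by positivity)
      nlinarith
    · rw [Pool.Agent.H30M.rhoR_eq_zero hR (Or.inr (not_le.1 hz).le)]
      exact mul_nonneg hKR (tau_nonneg he z)
  calc rhoR R z * l z ^ 2 ≤ (K / R ^ 2 * tau (Real.exp 2 * R) z) * l z ^ 2 := mul_le_mul_of_nonneg_right h1 hl
    _ = _ := by ring

/-- V8 for an arbitrary density -/
theorem mlog_gen {l : ℂ → ℝ} (hc : Continuous l) (h0 : ∀ z, 0 ≤ l z) {A : ℝ} (hA : ∀ R, 1 ≤ R → ∫ z, tau R z * l z ^ 2 ≤ A * R ^ 2) :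
    ∃ C, ∀ R, 1 ≤ R → avg R (fun z => Real.log (1 + l z)) ≤ C := by
  obtain ⟨K, hK0, hK⟩ := exists_avg_sq_le
  have hc2 : Continuous fun z => l z ^ 2 := hc.pow 2
  refine ⟨2 * Real.pi + K * (|A| * Real.exp 2 ^ 2), fun R hR => ?_⟩
  have hR0 : 0 < R := by linarith
  have he : 1 ≤ Real.exp 2 * R := by
    have := Real.one_le_exp (zero_le_two (α := ℝ))
    nlinarith
  have h1 : avg R (fun z => l z ^ 2) ≤ K * (|A| * Real.exp 2 ^ 2) := by
    refine (hK hc R hR).trans ?_
    have h2 : ∫ z, tau (Real.exp 2 * R) z * l z ^ 2 ≤ |A| * (Real.exp 2 * R) ^ 2 :=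
      (hA _ he).trans (mul_le_mul_of_nonneg_right (le_abs_self A) (sq_nonneg _))
    calc K / R ^ 2 * ∫ z, tau (Real.exp 2 * R) z * l z ^ 2 ≤ K / R ^ 2 * (|A| * (Real.exp 2 * R) ^ 2) :=
          mul_le_mul_of_nonneg_left h2 (by positivity)
      _ = K * (|A| * Real.exp 2 ^ 2) := by
        field_simp
  have hci : ∀ {f : ℂ → ℝ}, Continuous f → Integrable fun z => rhoR R z * f z := fun hf =>
    ((Pool.Agent.H30M.continuous_rhoR R).mul hf).integrable_of_hasCompactSupport ((Pool.Agent.H30M.hcs_rhoR hR).mul_right)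
  have hlog : Continuous fun z => Real.log (1 + l z) :=
    (continuous_const.add hc).log fun z => (add_pos_of_pos_of_nonneg one_pos (h0 z)).ne'
  have h3 : avg R (fun z => Real.log (1 + l z)) ≤ ∫ z, (rhoR R z + rhoR R z * l z ^ 2) := by
    unfold Pool.Agent.H30M.avg
    refine integral_mono (hci hlog) ((by simpa using hci continuous_const (f := fun _ => (1 : ℝ)) : Integrable fun z => rhoR R z).add (hci hc2)) fun z => ?_
    have h4 := h0 z
    have h5 : Real.log (1 + l z) ≤ 1 + l z ^ 2 := by
      have := Real.log_le_sub_one_of_pos (add_pos_of_pos_of_nonneg one_pos h4)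
      nlinarith [sq_nonneg (l z - 1)]
    calc rhoR R z * Real.log (1 + l z) ≤ rhoR R z * (1 + l z ^ 2) := mul_le_mul_of_nonneg_left h5 (rhoR_nonneg R z)
      _ = _ := by ring
  rw [integral_add (by simpa using hci continuous_const (f := fun _ => (1 : ℝ))) (hci hc2), Pool.Agent.H30M.int_rhoR hR] at h3
  exact h3.trans (by
    have : ∫ z, rhoR R z * l z ^ 2 = avg R (fun z => l z ^ 2) := rfl
    rw [this]
    linarith)

end Pool.Agent.MQ

end
end

section

/-!
# MQ3 AsmI: the interface of the patches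

`Psi` is the common value of `gr e + η`.  `IsPatch` collects what is needed of one patch: the open set `U`, the potential `e`, the field `η`, the error term
`err` with support in the closed core `K`, the density `l`.
-/

set_option autoImplicit false

open Topology Filter Metric MvPolynomial MeasureTheory Laplacian

noncomputable section

namespace Pool.Agent.MQ3

open Pool.Agent.H36.BP (EN fs)
open Pool.Agent.H30M (tau LogSing)
open Pool.Agent.MQ (lam En gr dv)

variable {M : ℕ}

/-- the common value of `gr e + η` -/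
def Psi (mK jH : ℕ) (F : ℂ → EN M) (Θ : ℂ → ℂ) (w : ℂ) : ℂ :=
  (starRingEnd ℂ) (Θ w) + gr (fun w => jH / mK * Real.log ‖F w‖) w

/-- one patch -/
structure IsPatch (F : ℂ → EN M) (Ψ : ℂ → ℂ) (ε₀ : ℝ) (l : ℂ → ℝ) (U : Set ℂ) (e : ℂ → ℝ) (η : ℂ → ℂ) (err : ℂ → ℝ) (K : Set ℂ) (C δ : ℝ) : Prop where
  isOpen : IsOpen U
  pos : ∀ z ∈ U, ∃ c, 0 ≤ c ∧ LogSing e c z
  field : ContDiffOn ℝ 1 η U
  field_le : ∀ z ∈ U, ‖η z‖ ≤ C * l z
  comp : ∀ z ∈ U, z ∉ K → ∀ᶠ w in 𝓝[≠] z, gr e w + η w = Ψ w
  closed : IsClosed K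
  sub : K ⊆ U
  err_cont : ContinuousOn err U
  err_off : ∀ z ∈ U, z ∉ K → err z = 0
  lap : ∀ z ∈ U, ContDiffAt ℝ 2 e z → ε₀ * lam F z ^ 2 ≤ Δ e z + dv η z + err z
  int : ∀ R, 1 ≤ R → ∫ z in U, tau R z * err z ≤ δ * En F R + C * (∫ z, ‖gr (tau R) z‖ * l z) + C
  up : ∀ z ∈ U, ContDiffAt ℝ 2 e z → e z ≤ C + Real.log (1 + l z)

end Pool.Agent.MQ3

end
end
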