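import Pool.Agent.H43.TL2.M01
import Pool.Agent.H43.TL2.M10
import Pool.Agent.H43.TL2.M18

/-! The parts of this file: H17.BrodyLimit, H36.BP.GermChart, H36.BP.MainA, H36.BP.Nodal. -/

section

/-!
# Limits of holomorphic curves in families of projective algebraic sets
-/

open Topology Filter

namespace Pool.Agent.H17

variable {N : ℕ}

lemma vanishesAt_mk_iff {P : MvPolynomial (Fin (N + 1)) ℂ} {d : ℕ} (hP : P.IsHomogeneous d)
    (v : Fin (N + 1) → ℂ) (hv : v ≠ 0) :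
    VanishesAt P (Projectivization.mk ℂ v hv) ↔ MvPolynomial.eval v P = 0 := by
  obtain ⟨a, ha, h1⟩ := exists_smul_rep v hv
  unfold VanishesAt
  have h2 : (a • v) = fun k => a * v k := by
    funext k
    simp
  rw [h1, h2, eval_smul_of_isHomogeneous hP]
  constructor
  · intro h
    exact (mul_eq_zero.mp h).resolve_left (pow_ne_zero _ ha)
  · intro h
    rw [h, mul_zero]

end Pool.Agent.H17

end

section

/-!
# BP GermChart: from germ-level charts to charts on the bidisc of radius 2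

Let `ℓ` be a linear form with `ℓ (σ 0) = 1`, `σ₁ p = (ℓ (σ p))⁻¹ • σ p`, `σ' p = σ₁ (r p)` for a small `r`, `U = {x : ℓ x ≠ 0, x/ℓ x ∈ W₀, |τ (x/ℓ x)| < 2r}`, `q x = τ (x/ℓ x)/r`.
-/

set_option autoImplicit false

namespace Pool.Agent.H36.BP

open Filter Topology Metric

open Pool.Agent.H14.PP (IsCone Chart HasType DType)

variable {N : ℕ}

/-- germ-level charts -/
structure IsGermChart (X : Set (EN N)) (σ : ℂ × ℂ → EN N) (τ : EN N → ℂ × ℂ) : Prop where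
  σ_an : AnalyticAt ℂ σ 0
  σ_mem : ∀ᶠ p in 𝓝 (0 : ℂ × ℂ), σ p ∈ X
  τ_an : AnalyticAt ℂ τ (σ 0)
  left : ∀ᶠ p in 𝓝 (0 : ℂ × ℂ), τ (σ p) = p
  right : ∀ᶠ y in 𝓝 (σ 0), y ∈ X → ∃ c : ℂ, c ≠ 0 ∧ y = c • σ (τ y)
  inv : ∀ᶠ z in 𝓝 (σ 0, (1 : ℂ)), τ (z.2 • z.1) = τ z.1

theorem exists_chart {X K T : Set (EN N)} (hX : IsCone X) (hK : ∀ x ∈ K, ∀ c : ℂ, c ≠ 0 → c • x ∈ K)
    (hT : ∀ x ∈ T, ∀ c : ℂ, c ≠ 0 → c • x ∈ T) {σ : ℂ × ℂ → EN N} {τ : EN N → ℂ × ℂ} (h : IsGermChart X σ τ) {nd : Bool} {d : Bool × Bool}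
    (hnd : ∀ᶠ p in 𝓝 (0 : ℂ × ℂ), (σ p ∈ T ↔ p.1 = 0 ∨ (nd = true ∧ p.2 = 0)))
    (hd : ∀ᶠ p in 𝓝 (0 : ℂ × ℂ), (σ p ∉ K ↔ (d.1 = true ∧ p.1 = 0) ∨ (d.2 = true ∧ p.2 = 0))) :
    ∃ χ : Chart X, σ 0 ∈ χ.U ∧ χ.q (σ 0) = 0 ∧ HasType T χ nd ∧ DType K χ d := by
  have hσ0 : σ 0 ≠ 0 := by
    intro h0
    have h1 := h.σ_mem.self_of_nhds
    rw [h0] at h1
    exact hX.zero_notMem h1
  -- the linear form
  obtain ⟨ℓ, hℓ⟩ : ∃ ℓ : EN N →L[ℂ] ℂ, ℓ (σ 0) = 1 := by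
    have hne : inner ℂ (σ 0) (σ 0) ≠ (0 : ℂ) := inner_self_ne_zero.mpr hσ0
    refine ⟨(inner ℂ (σ 0) (σ 0) : ℂ)⁻¹ • innerSL ℂ (σ 0), ?_⟩
    simp only [_root_.smul_apply, innerSL_apply_apply, smul_eq_mul]
    exact inv_mul_cancel₀ hne
  -- the normalised parametrisation
  have hℓσ : ContinuousAt (fun p => ℓ (σ p)) 0 := ℓ.continuous.continuousAt.comp h.σ_an.continuousAt
  have hℓne : ∀ᶠ p in 𝓝 (0 : ℂ × ℂ), ℓ (σ p) ≠ 0 := hℓσ.eventually_ne (by rw [hℓ]; exact one_ne_zero)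
  have hinvσ : ∀ᶠ p in 𝓝 (0 : ℂ × ℂ), τ ((ℓ (σ p))⁻¹ • σ p) = τ (σ p) := by
    have hc : Tendsto (fun p => (σ p, (ℓ (σ p))⁻¹)) (𝓝 (0 : ℂ × ℂ)) (𝓝 (σ 0, (1 : ℂ))) := by
      have h1 : Tendsto (fun p => (ℓ (σ p))⁻¹) (𝓝 (0 : ℂ × ℂ)) (𝓝 (ℓ (σ 0))⁻¹) := hℓσ.inv₀ (by rw [hℓ]; exact one_ne_zero)
      rw [hℓ, inv_one] at h1
      exact h.σ_an.continuousAt.prodMk_nhds h1
    exact hc.eventually h.inv
  -- the neighbourhood W₀
  have hW : ∀ᶠ y in 𝓝 (σ 0), AnalyticAt ℂ τ y ∧ (y ∈ X → ∃ c : ℂ, c ≠ 0 ∧ y = c • σ (τ y)) := h.τ_an.eventually_analyticAt.and h.right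
  obtain ⟨W₀, hW₀s, hW₀o, hW₀m⟩ := _root_.eventually_nhds_iff.mp hW
  have hσ₁ : Tendsto (fun p => (ℓ (σ p))⁻¹ • σ p) (𝓝 (0 : ℂ × ℂ)) (𝓝 (σ 0)) := by
    have h1 : Tendsto (fun p => (ℓ (σ p))⁻¹) (𝓝 (0 : ℂ × ℂ)) (𝓝 (ℓ (σ 0))⁻¹) := hℓσ.inv₀ (by rw [hℓ]; exact one_ne_zero)
    have h2 := h1.smul h.σ_an.continuousAt
    rwa [hℓ, inv_one, one_smul] at h2
  have hσ₁W : ∀ᶠ p in 𝓝 (0 : ℂ × ℂ), (ℓ (σ p))⁻¹ • σ p ∈ W₀ := hσ₁.eventually (hW₀o.mem_nhds hW₀m)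
  obtain ⟨R, hR, hall⟩ := Metric.eventually_nhds_iff_ball.mp
    ((((((h.σ_an.eventually_analyticAt.and h.σ_mem).and h.left).and hℓne).and hinvσ).and hσ₁W).and (hnd.and hd))
  set r : ℝ := R / 2 with hr
  have hr0 : 0 < r := by rw [hr]; positivity
  have hrC : (r : ℂ) ≠ 0 := by exact_mod_cast hr0.ne'
  have hball : ∀ p ∈ ball (0 : ℂ × ℂ) 2, (r : ℂ) • p ∈ ball (0 : ℂ × ℂ) R := by
    intro p hp
    rw [mem_ball_zero_iff] at hp ⊢
    rw [norm_smul, Complex.norm_real, Real.norm_of_nonneg hr0.le, hr]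
    nlinarith
  have hτσ : ∀ p ∈ ball (0 : ℂ × ℂ) R, τ ((ℓ (σ p))⁻¹ • σ p) = p := by
    intro p hp
    rw [(hall p hp).1.1.2, (hall p hp).1.1.1.1.2]
  set U : Set (EN N) := {x | ℓ x ≠ 0 ∧ (ℓ x)⁻¹ • x ∈ W₀ ∧ ‖τ ((ℓ x)⁻¹ • x)‖ < R} with hU
  have hmaps : ∀ x : EN N, ℓ x ≠ 0 → ∀ c : ℂ, c ≠ 0 → (ℓ (c • x))⁻¹ • (c • x) = (ℓ x)⁻¹ • x := by
    intro x hx c hc
    rw [map_smul, smul_eq_mul, smul_smul, mul_inv, mul_comm c⁻¹, mul_assoc, inv_mul_cancel₀ hc, mul_one]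
  have han1 : ∀ x : EN N, ℓ x ≠ 0 → AnalyticAt ℂ (fun y : EN N => (ℓ y)⁻¹ • y) x := by
    intro x hx
    exact ((ℓ.analyticAt x).inv hx).smul analyticAt_id
  have hanq : ∀ x ∈ U, AnalyticAt ℂ (fun y : EN N => τ ((ℓ y)⁻¹ • y)) x := by
    intro x hx
    exact AnalyticAt.fun_comp (hW₀s _ hx.2.1).1 (han1 x hx.1)
  have hUopen : IsOpen U := by
    rw [isOpen_iff_mem_nhds]
    intro x hx
    have h1 : ∀ᶠ y in 𝓝 x, ℓ y ≠ 0 := ℓ.continuous.continuousAt.eventually_ne hx.1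
    have h2 : ∀ᶠ y in 𝓝 x, (ℓ y)⁻¹ • y ∈ W₀ := (han1 x hx.1).continuousAt.eventually (hW₀o.mem_nhds hx.2.1)
    have h3 : ∀ᶠ y in 𝓝 x, ‖τ ((ℓ y)⁻¹ • y)‖ < R := (hanq x hx).continuousAt.norm.eventually_lt_const hx.2.2
    filter_upwards [h1, h2, h3] with y h4 h5 h6
    exact ⟨h4, h5, h6⟩
  let χ : Chart X :=
    { σ := fun p => (ℓ (σ ((r : ℂ) • p)))⁻¹ • σ ((r : ℂ) • p)
      U := U
      q := fun x => (r : ℂ)⁻¹ • τ ((ℓ x)⁻¹ • x)
      isOpen_U := hUopen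
      smul_U := by
        rintro x ⟨h1, h2, h3⟩ c hc
        refine ⟨?_, ?_, ?_⟩
        · rw [map_smul, smul_eq_mul]
          exact mul_ne_zero hc h1
        · rw [hmaps x h1 c hc]; exact h2
        · rw [hmaps x h1 c hc]; exact h3
      σ_an := by
        intro p hp
        have h1 := (hall _ (hball p hp)).1.1.1.1.1.1
        have h2 : AnalyticAt ℂ (fun p : ℂ × ℂ => σ ((r : ℂ) • p)) p :=
          AnalyticAt.fun_comp h1 (analyticAt_const.fun_smul analyticAt_id)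
        have h3 : AnalyticAt ℂ (fun p : ℂ × ℂ => ℓ (σ ((r : ℂ) • p))) p := (ℓ.analyticAt _).fun_comp h2
        exact (h3.inv (hall _ (hball p hp)).1.1.1.2).smul h2
      q_an := by
        intro x hx
        exact analyticAt_const.fun_smul (hanq x hx)
      q_smul := by
        rintro x ⟨h1, h2, h3⟩ c hc
        show (r : ℂ)⁻¹ • τ ((ℓ (c • x))⁻¹ • (c • x)) = _
        rw [hmaps x h1 c hc]
      σ_mem := by
        intro p hp
        have hb := hball p hp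
        have hh := hall _ hb
        have hne := hh.1.1.1.2
        have h1 : ℓ ((ℓ (σ ((r : ℂ) • p)))⁻¹ • σ ((r : ℂ) • p)) = 1 := by
          rw [map_smul, smul_eq_mul, inv_mul_cancel₀ hne]
        have h2 : τ ((ℓ (σ ((r : ℂ) • p)))⁻¹ • σ ((r : ℂ) • p)) = (r : ℂ) • p := hτσ _ hb
        refine ⟨hX.smul_mem _ hh.1.1.1.1.1.2 _ (inv_ne_zero hne), ⟨?_, ?_, ?_⟩, ?_⟩
        · rw [h1]; exact one_ne_zero
        · rw [h1, inv_one, one_smul]; exact hh.1.2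
        · rw [h1, inv_one, one_smul, h2]
          exact mem_ball_zero_iff.mp hb
        · show (r : ℂ)⁻¹ • τ ((ℓ ((ℓ (σ ((r : ℂ) • p)))⁻¹ • σ ((r : ℂ) • p)))⁻¹ • ((ℓ (σ ((r : ℂ) • p)))⁻¹ • σ ((r : ℂ) • p))) = p
          rw [h1, inv_one, one_smul, h2, smul_smul, inv_mul_cancel₀ hrC, one_smul]
      surj := by
        rintro x hxX ⟨h1, h2, h3⟩
        have hyX : (ℓ x)⁻¹ • x ∈ X := hX.smul_mem _ hxX _ (inv_ne_zero h1)
        obtain ⟨c, hc0, hc⟩ := (hW₀s _ h2).2 hyX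
        have hτb : τ ((ℓ x)⁻¹ • x) ∈ ball (0 : ℂ × ℂ) R := mem_ball_zero_iff.mpr h3
        have hrq : (r : ℂ) • ((r : ℂ)⁻¹ • τ ((ℓ x)⁻¹ • x)) = τ ((ℓ x)⁻¹ • x) := by
          rw [smul_smul, mul_inv_cancel₀ hrC, one_smul]
        refine ⟨?_, ?_⟩
        · show (r : ℂ)⁻¹ • τ ((ℓ x)⁻¹ • x) ∈ ball (0 : ℂ × ℂ) 2
          rw [mem_ball_zero_iff, norm_smul, norm_inv, Complex.norm_real, Real.norm_of_nonneg hr0.le, inv_mul_lt_iff₀ hr0, hr]
          linarith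
        · refine ⟨ℓ x * c * ℓ (σ (τ ((ℓ x)⁻¹ • x))), ?_, ?_⟩
          · exact mul_ne_zero (mul_ne_zero h1 hc0) (hall _ hτb).1.1.1.2
          · show x = (ℓ x * c * ℓ (σ (τ ((ℓ x)⁻¹ • x)))) •
              ((ℓ (σ ((r : ℂ) • ((r : ℂ)⁻¹ • τ ((ℓ x)⁻¹ • x)))))⁻¹ • σ ((r : ℂ) • ((r : ℂ)⁻¹ • τ ((ℓ x)⁻¹ • x))))
            rw [hrq, smul_smul, mul_assoc, mul_inv_cancel₀ (hall _ hτb).1.1.1.2, mul_one, mul_smul, ← hc, smul_smul, mul_inv_cancel₀ h1, one_smul] }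
  have h0b : (0 : ℂ × ℂ) ∈ ball (0 : ℂ × ℂ) R := mem_ball_self hR
  have hτ0 : τ (σ 0) = 0 := (hall 0 h0b).1.1.1.1.2
  refine ⟨χ, ⟨?_, ?_, ?_⟩, ?_, ?_, ?_⟩
  · rw [hℓ]; exact one_ne_zero
  · rw [hℓ, inv_one, one_smul]; exact hW₀m
  · rw [hℓ, inv_one, one_smul, hτ0, norm_zero]; exact hR
  · show (r : ℂ)⁻¹ • τ ((ℓ (σ 0))⁻¹ • σ 0) = 0
    rw [hℓ, inv_one, one_smul, hτ0, smul_zero]
  · intro p hp
    have hb := hball p hp
    have hne := (hall _ hb).1.1.1.2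
    have h1 := (hall _ hb).2.1
    have h2 : ((ℓ (σ ((r : ℂ) • p)))⁻¹ • σ ((r : ℂ) • p) ∈ T) ↔ σ ((r : ℂ) • p) ∈ T := by
      constructor
      · intro h3
        have h4 := hT _ h3 _ hne
        rwa [smul_smul, mul_inv_cancel₀ hne, one_smul] at h4
      · intro h3
        exact hT _ h3 _ (inv_ne_zero hne)
    show ((ℓ (σ ((r : ℂ) • p)))⁻¹ • σ ((r : ℂ) • p) ∈ T) ↔ _
    rw [h2, h1]
    simp [hrC, hr0.ne']
  · intro p hp
    have hb := hball p hp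
    have hne := (hall _ hb).1.1.1.2
    have h1 := (hall _ hb).2.2
    have h2 : ((ℓ (σ ((r : ℂ) • p)))⁻¹ • σ ((r : ℂ) • p) ∉ K) ↔ σ ((r : ℂ) • p) ∉ K := by
      constructor
      · intro h3 h4
        exact h3 (hK _ h4 _ (inv_ne_zero hne))
      · intro h3 h4
        apply h3
        have h5 := hK _ h4 _ hne
        rwa [smul_smul, mul_inv_cancel₀ hne, one_smul] at h5
    show ((ℓ (σ ((r : ℂ) • p)))⁻¹ • σ ((r : ℂ) • p) ∉ K) ↔ _
    rw [h2, h1]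
    simp [hrC, hr0.ne']

end Pool.Agent.H36.BP

end

section

/-!
# BP MainA: identity theorems for maps into projective space
-/

set_option autoImplicit false

namespace Pool.Agent.H36.BP

open Filter Topology Metric

variable {N : ℕ}

open Pool.Agent.H17 (PN HolomorphicInto puncturedDisc VanishesAt vanishesAt_mk_iff)

/-- the cone over a subset of projective space -/
def coneOf (X : Set (PN N)) : Set (EN N) := {x | ∃ h : x.ofLp ≠ 0, Projectivization.mk ℂ _ h ∈ X}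

theorem analyticAt_toLp {φ : ℂ → Fin (N + 1) → ℂ} {z : ℂ} (h : AnalyticAt ℂ φ z) :
    AnalyticAt ℂ (fun w => (WithLp.toLp 2 (φ w) : EN N)) z :=
  ((EuclideanSpace.equiv (Fin (N + 1)) ℂ).symm : (Fin (N + 1) → ℂ) →L[ℂ] EN N).analyticAt (φ z) |>.comp h

theorem analyticAt_ofLp {F : ℂ → EN N} {z : ℂ} (h : AnalyticAt ℂ F z) : AnalyticAt ℂ (fun w => (F w).ofLp) z :=
  ((EuclideanSpace.equiv (Fin (N + 1)) ℂ) : EN N →L[ℂ] (Fin (N + 1) → ℂ)).analyticAt (F z) |>.comp h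

theorem ne_zero_of_ofLp {x : EN N} (h : x.ofLp ≠ 0) : x ≠ 0 := by
  rintro rfl
  exact h rfl

theorem ofLp_ne_zero {x : EN N} (h : x ≠ 0) : x.ofLp ≠ 0 := by
  intro h0
  exact h (by ext i; exact congrFun h0 i)

/-- identity theorem for the vanishing of forms -/
theorem vanish_identity {f : ℂ → PN N} {U : Set ℂ} (hUc : IsPreconnected U) (hf : HolomorphicInto f U)
    {S : Set (MvPolynomial (Fin (N + 1)) ℂ)} (hS : ∀ P ∈ S, ∃ n, P.IsHomogeneous n) {z₀ : ℂ} (hz₀ : z₀ ∈ U)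
    (h : ∀ᶠ w in 𝓝 z₀, ∀ P ∈ S, VanishesAt P (f w)) : ∀ z ∈ U, ∀ P ∈ S, VanishesAt P (f z) := by
  set A : Set ℂ := {z | ∀ᶠ w in 𝓝 z, ∀ P ∈ S, VanishesAt P (f w)} with hA
  have hAo : IsOpen A := by
    rw [isOpen_iff_mem_nhds]
    intro z hz
    exact hz.eventually_nhds
  have hcl : closure A ∩ U ⊆ A := by
    rintro z ⟨hz1, hz2⟩
    obtain ⟨φ, hφ, he⟩ := hf z hz2
    obtain ⟨r, hr, hr1⟩ := Metric.eventually_nhds_iff_ball.mp (hφ.eventually_analyticAt.and he)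
    obtain ⟨z', hz'1, hz'2⟩ := mem_closure_iff_nhds.mp hz1 (ball z r) (ball_mem_nhds z hr)
    have hvan : ∀ P ∈ S, ∀ w ∈ ball z r, MvPolynomial.eval (φ w) P = 0 := by
      intro P hP
      obtain ⟨n, hn⟩ := hS P hP
      have han : AnalyticOnNhd ℂ (fun w => MvPolynomial.aeval (φ w) P) (ball z r) :=
        AnalyticOnNhd.aeval_mvPolynomial (fun i w hw => analyticAt_pi_iff.mp (hr1 w hw).1 i) P
      have h0 : (fun w => MvPolynomial.aeval (φ w) P) =ᶠ[𝓝 z'] 0 := by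
        have hz'A : ∀ᶠ w in 𝓝 z', ∀ P ∈ S, VanishesAt P (f w) := hz'2
        filter_upwards [hz'A, isOpen_ball.mem_nhds hz'1] with w hw1 hw2
        obtain ⟨h1, h2⟩ := (hr1 w hw2).2
        have h3 := hw1 P hP
        rw [h2, vanishesAt_mk_iff hn] at h3
        exact h3
      intro w hw
      exact han.eqOn_zero_of_preconnected_of_eventuallyEq_zero (convex_ball z r).isPreconnected hz'1 h0 hw
    show ∀ᶠ w in 𝓝 z, ∀ P ∈ S, VanishesAt P (f w)
    filter_upwards [ball_mem_nhds z hr] with w hw P hP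
    obtain ⟨n, hn⟩ := hS P hP
    obtain ⟨h1, h2⟩ := (hr1 w hw).2
    rw [h2, vanishesAt_mk_iff hn]
    exact hvan P hP w hw
  have hsub : U ⊆ A := hUc.subset_of_closure_inter_subset hAo ⟨z₀, hz₀, h⟩ hcl
  intro z hz
  have h1 : ∀ᶠ w in 𝓝 z, ∀ P ∈ S, VanishesAt P (f w) := hsub hz
  exact h1.self_of_nhds

/-- the linear forms vanishing at a vector -/
theorem const_identity {f : ℂ → PN N} {U : Set ℂ} (hUc : IsPreconnected U) (hf : HolomorphicInto f U)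
    {z₀ : ℂ} (hz₀ : z₀ ∈ U) (h : ∀ᶠ w in 𝓝 z₀, f w = f z₀) : ∀ z ∈ U, f z = f z₀ := by
  set v := (f z₀).rep with hv
  have hv0 : v ≠ 0 := (f z₀).rep_nonzero
  have hfz : f z₀ = Projectivization.mk ℂ v hv0 := (Projectivization.mk_rep _).symm
  obtain ⟨j, hj⟩ : ∃ j, v j ≠ 0 := by
    by_contra hcon
    push Not at hcon
    exact hv0 (funext hcon)
  set S : Set (MvPolynomial (Fin (N + 1)) ℂ) :=
    {P | ∃ i, P = MvPolynomial.C (v j) * MvPolynomial.X i - MvPolynomial.C (v i) * MvPolynomial.X j} with hSdef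
  have hS : ∀ P ∈ S, ∃ n, P.IsHomogeneous n := by
    rintro P ⟨i, rfl⟩
    refine ⟨1, ?_⟩
    have h1 : ∀ (a : ℂ) (i : Fin (N + 1)), (MvPolynomial.C a * MvPolynomial.X i : MvPolynomial (Fin (N + 1)) ℂ).IsHomogeneous 1 := by
      intro a i
      have := (MvPolynomial.isHomogeneous_C (Fin (N + 1)) a).mul (MvPolynomial.isHomogeneous_X ℂ i)
      simpa using this
    exact (h1 _ _).sub (h1 _ _)
  have hkey : ∀ p : PN N, (∀ P ∈ S, VanishesAt P p) → p = f z₀ := by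
    intro p hp
    have hp' : ∀ i, v j * p.rep i = v i * p.rep j := by
      intro i
      have h2 := hp _ ⟨i, rfl⟩
      unfold VanishesAt at h2
      simp only [map_sub, map_mul, MvPolynomial.eval_C, MvPolynomial.eval_X] at h2
      exact sub_eq_zero.mp h2
    rw [← Projectivization.mk_rep p, hfz, Projectivization.mk_eq_mk_iff']
    refine ⟨p.rep j / v j, ?_⟩
    funext i
    simp only [Pi.smul_apply, smul_eq_mul]
    field_simp
    rw [mul_comm (p.rep j), ← hp' i]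
  have hvan : ∀ P ∈ S, VanishesAt P (f z₀) := by
    rintro P ⟨i, rfl⟩
    unfold VanishesAt
    simp only [map_sub, map_mul, MvPolynomial.eval_C, MvPolynomial.eval_X]
    rw [← hv]
    ring
  have hmain := vanish_identity hUc hf hS hz₀ (by
    filter_upwards [h] with w hw P hP
    rw [hw]
    exact hvan P hP)
  intro z hz
  exact hkey _ (hmain z hz)

theorem preconnected_puncturedDisc : IsPreconnected puncturedDisc := by
  have h : puncturedDisc = Complex.exp '' {z : ℂ | z.re < 0} := by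
    ext z
    constructor
    · rintro ⟨h1, h2⟩
      have h3 : z ≠ 0 := h2
      refine ⟨Complex.log z, ?_, Complex.exp_log h3⟩
      rw [mem_ball_zero_iff] at h1
      change (Complex.log z).re < 0
      rw [Complex.log_re]
      exact Real.log_neg (norm_pos_iff.mpr h3) h1
    · rintro ⟨w, hw, rfl⟩
      refine ⟨?_, Complex.exp_ne_zero w⟩
      rw [mem_ball_zero_iff, Complex.norm_exp]
      have h1 := Real.exp_lt_exp.mpr hw
      rwa [Real.exp_zero] at h1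
  rw [h]
  exact (convex_halfSpace_re_lt 0).isPreconnected.image _ Complex.continuous_exp.continuousOn

theorem isOpen_puncturedDisc : IsOpen puncturedDisc :=
  Metric.isOpen_ball.sdiff isClosed_singleton

end Pool.Agent.H36.BP

end

section

/-!
# BP Nodal: the nodal theorem for surfaces in `ℙ(V)`

Transport of the metric theorem and of `picard_cone` along a linear isomorphism `V ≃ EN N`.
-/

set_option autoImplicit false

namespace Pool.Agent.H36.BP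

open Filter Topology Metric

open Pool.Agent.H17 (PN HolomorphicInto puncturedDisc)
open Pool.Agent.H17BP (Surface IsChart IsForm NoZeros NodalAt)

variable {V : Type} [NormedAddCommGroup V] [NormedSpace ℂ V] {N : ℕ}

/-- holomorphic maps into the projective space of `V` -/
def HolInto (f : ℂ → Projectivization ℂ V) (U : Set ℂ) : Prop :=
  ∀ z₀ ∈ U, ∃ φ : ℂ → V, AnalyticAt ℂ φ z₀ ∧ ∀ᶠ z in 𝓝 z₀, ∃ h : φ z ≠ 0, f z = Projectivization.mk ℂ (φ z) h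

/-- the point of `ℙ^N` of a point of `ℙ(V)` -/
noncomputable def toPN (L : V ≃L[ℂ] EN N) (p : Projectivization ℂ V) : PN N :=
  Projectivization.mk ℂ (L p.rep).ofLp (ofLp_ne_zero fun h => p.rep_nonzero (L.map_eq_zero_iff.mp h))

/-- the point of `ℙ(V)` of a point of `ℙ^N` -/
noncomputable def ofPN (L : V ≃L[ℂ] EN N) (p : PN N) : Projectivization ℂ V :=
  Projectivization.mk ℂ (L.symm (WithLp.toLp 2 p.rep)) (by
    intro h
    have h1 := L.symm.map_eq_zero_iff.mp h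
    exact p.rep_nonzero (congrArg WithLp.ofLp h1))

theorem rep_mk {x : V} (hx : x ≠ 0) : ∃ a : ℂ, a ≠ 0 ∧ (Projectivization.mk ℂ x hx).rep = a • x := by
  obtain ⟨a, ha⟩ := Projectivization.exists_smul_eq_mk_rep ℂ x hx
  exact ⟨a, a.ne_zero, by rw [← ha]; rfl⟩

theorem toPN_mk (L : V ≃L[ℂ] EN N) {x : V} (hx : x ≠ 0) (h : (L x).ofLp ≠ 0) :
    toPN L (Projectivization.mk ℂ x hx) = Projectivization.mk ℂ (L x).ofLp h := by
  obtain ⟨a, ha, h1⟩ := rep_mk hx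
  unfold toPN
  rw [Projectivization.mk_eq_mk_iff']
  refine ⟨a, ?_⟩
  rw [h1, map_smul]
  rfl

theorem ofPN_mk (L : V ≃L[ℂ] EN N) {x : Fin (N + 1) → ℂ} (hx : x ≠ 0) (h : L.symm (WithLp.toLp 2 x) ≠ 0) :
    ofPN L (Projectivization.mk ℂ x hx) = Projectivization.mk ℂ (L.symm (WithLp.toLp 2 x)) h := by
  obtain ⟨a, ha, h1⟩ := rep_mk hx
  unfold ofPN
  rw [Projectivization.mk_eq_mk_iff']
  refine ⟨a, ?_⟩
  rw [h1, WithLp.toLp_smul, map_smul]

theorem ofPN_toPN (L : V ≃L[ℂ] EN N) (p : Projectivization ℂ V) : ofPN L (toPN L p) = p := by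
  have h0 : (L p.rep).ofLp ≠ 0 := ofLp_ne_zero fun h => p.rep_nonzero (L.map_eq_zero_iff.mp h)
  have h1 : L.symm (WithLp.toLp 2 (L p.rep).ofLp) = p.rep := by
    rw [WithLp.toLp_ofLp, L.symm_apply_apply]
  have h2 : toPN L p = Projectivization.mk ℂ (L p.rep).ofLp h0 := rfl
  rw [h2, ofPN_mk L h0 (by rw [h1]; exact p.rep_nonzero)]
  conv_rhs => rw [← Projectivization.mk_rep p]
  congr 1

theorem holomorphicInto_toPN (L : V ≃L[ℂ] EN N) {f : ℂ → Projectivization ℂ V} {U : Set ℂ} (hf : HolInto f U) :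
    HolomorphicInto (fun z => toPN L (f z)) U := by
  intro z₀ hz₀
  obtain ⟨φ, hφ, he⟩ := hf z₀ hz₀
  refine ⟨fun z => (L (φ z)).ofLp, analyticAt_ofLp (((L : V →L[ℂ] EN N).analyticAt _).comp hφ), ?_⟩
  filter_upwards [he] with z hz
  obtain ⟨h1, h2⟩ := hz
  have h3 : (L (φ z)).ofLp ≠ 0 := ofLp_ne_zero fun h => h1 (L.map_eq_zero_iff.mp h)
  exact ⟨h3, by rw [h2, toPN_mk L h1 h3]⟩

theorem holInto_ofPN (L : V ≃L[ℂ] EN N) {g : ℂ → PN N} {U : Set ℂ} (hg : HolomorphicInto g U) :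
    HolInto (fun z => ofPN L (g z)) U := by
  intro z₀ hz₀
  obtain ⟨φ, hφ, he⟩ := hg z₀ hz₀
  refine ⟨fun z => L.symm (WithLp.toLp 2 (φ z)), ((L.symm : EN N →L[ℂ] V).analyticAt _).comp (analyticAt_toLp hφ), ?_⟩
  filter_upwards [he] with z hz
  obtain ⟨h1, h2⟩ := hz
  have h3 : L.symm (WithLp.toLp 2 (φ z)) ≠ 0 := by
    intro h
    exact h1 (congrArg WithLp.ofLp (L.symm.map_eq_zero_iff.mp h))
  exact ⟨h3, by rw [h2, ofPN_mk L h1 h3]⟩

theorem toPN_mem (L : V ≃L[ℂ] EN N) {X : Set V} (hX : ∀ x ∈ X, ∀ c : ℂ, c ≠ 0 → c • x ∈ X) (p : Projectivization ℂ V) :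
    (WithLp.toLp 2 (toPN L p).rep : EN N) ∈ (L.symm ⁻¹' X : Set (EN N)) ↔ p.rep ∈ X := by
  have h0 : (L p.rep).ofLp ≠ 0 := ofLp_ne_zero fun h => p.rep_nonzero (L.map_eq_zero_iff.mp h)
  obtain ⟨a, ha, h1⟩ := rep_mk (V := Fin (N + 1) → ℂ) h0
  have h2 : (toPN L p).rep = a • (L p.rep).ofLp := h1
  have h3 : L.symm (WithLp.toLp 2 (toPN L p).rep) = a • p.rep := by
    rw [h2, WithLp.toLp_smul, WithLp.toLp_ofLp, map_smul, L.symm_apply_apply]
  show L.symm (WithLp.toLp 2 (toPN L p).rep) ∈ X ↔ p.rep ∈ X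
  rw [h3]
  constructor
  · intro h
    have h4 := hX _ h a⁻¹ (inv_ne_zero ha)
    rwa [smul_smul, inv_mul_cancel₀ ha, one_smul] at h4
  · intro h
    exact hX _ h a ha

/-! ### transport of the surface -/

theorem isCone_transport (L : V ≃L[ℂ] EN N) {X : Set V} (hX : Surface X) : Pool.Agent.H14.PP.IsCone (L.symm ⁻¹' X : Set (EN N)) := by
  refine ⟨?_, ?_, ?_⟩
  · show L.symm 0 ∉ X
    rw [map_zero]
    exact hX.zero
  · intro x hx c hc
    show L.symm (c • x) ∈ X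
    rw [map_smul]
    exact hX.smul _ hx c hc
  · rw [← closure_subset_iff_isClosed]
    intro y hy
    rw [Set.insert_eq, closure_union, closure_singleton] at hy
    rcases hy with hy | hy
    · exact Or.inl hy
    · by_cases h0 : y = 0
      · exact Or.inl h0
      · right
        have h1 : L.symm y ∈ closure X := by
          have h2 : closure (L.symm ⁻¹' X : Set (EN N)) = L.symm ⁻¹' (closure X) := by
            exact (L.symm.toHomeomorph.preimage_closure X).symm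
          rw [h2] at hy
          exact hy
        exact hX.closed _ h1 fun h => h0 (L.symm.map_eq_zero_iff.mp h)

theorem germ_transport (L : V ≃L[ℂ] EN N) {X : Set V} {σ : ℂ × ℂ → V} {τ : V → ℂ × ℂ} (h : IsChart X σ τ) :
    IsGermChart (L.symm ⁻¹' X : Set (EN N)) (fun p => L (σ p)) (fun y => τ (L.symm y)) := by
  have hL : ∀ᶠ y in 𝓝 (L (σ 0)), (fun y => L.symm y) y = L.symm y := Filter.Eventually.of_forall fun _ => rfl
  have ht : Tendsto (fun y => L.symm y) (𝓝 (L (σ 0))) (𝓝 (σ 0)) := by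
    have := L.symm.continuous.tendsto (L (σ 0))
    rwa [L.symm_apply_apply] at this
  refine ⟨((L : V →L[ℂ] EN N).analyticAt _).comp h.σ_an, ?_, ?_, ?_, ?_, ?_⟩
  · filter_upwards [h.σ_mem] with p hp
    show L.symm (L (σ p)) ∈ X
    rwa [L.symm_apply_apply]
  · have h1 : AnalyticAt ℂ τ ((fun y => L.symm y) (L (σ 0))) := by
      show AnalyticAt ℂ τ (L.symm (L (σ 0)))
      rw [L.symm_apply_apply]; exact h.τ_an
    exact h1.comp ((L.symm : EN N →L[ℂ] V).analyticAt _)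
  · filter_upwards [h.left] with p hp
    rw [L.symm_apply_apply, hp]
  · filter_upwards [ht.eventually h.right] with y hy hyX
    obtain ⟨c, hc, h1⟩ := hy hyX
    refine ⟨c, hc, ?_⟩
    have h2 : L (L.symm y) = L (c • σ (τ (L.symm y))) := congrArg L h1
    rwa [L.apply_symm_apply, map_smul] at h2
  · have ht2 : Tendsto (fun z : EN N × ℂ => (L.symm z.1, z.2)) (𝓝 (L (σ 0), (1 : ℂ))) (𝓝 (σ 0, (1 : ℂ))) := by
      have h1 : Continuous (fun z : EN N × ℂ => (L.symm z.1, z.2)) := (L.symm.continuous.comp continuous_fst).prodMk continuous_snd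
      have h2 := h1.tendsto (L (σ 0), (1 : ℂ))
      simpa using h2
    filter_upwards [ht2.eventually h.inv] with z hz
    rw [map_smul]
    exact hz

theorem tan_transport (L : V ≃L[ℂ] EN N) {X : Set V} {x v : EN N} (h : Pool.Agent.H14.PP.Tan (L.symm ⁻¹' X : Set (EN N)) x v) :
    L.symm v ∈ Pool.Agent.H17BP.Tan X (L.symm x) := by
  obtain ⟨F, ⟨hF, hFX⟩, h0, h1⟩ := h
  refine ⟨fun z => L.symm (F z), ((L.symm : EN N →L[ℂ] V).analyticAt _).comp hF, hFX, by simp only [h0], ?_⟩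
  have h2 : HasDerivAt (fun z => L.symm (F z)) (L.symm (deriv F 0)) 0 :=
    (L.symm : EN N →L[ℂ] V).hasFDerivAt.comp_hasDerivAt 0 hF.differentiableAt.hasDerivAt
  rw [h2.deriv, h1]

/-- the transported form -/
noncomputable def formT (L : V ≃L[ℂ] EN N) {X : Set V} {m j : ℕ} {Ω : V → V → V → ℂ} (hΩ : IsForm X m j Ω) :
    Pool.Agent.H14.PP.Form (L.symm ⁻¹' X : Set (EN N)) m j where
  toFun x v w := Ω (L.symm x) (L.symm v) (L.symm w)
  add_smul x hx v w hv hw a b := by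
    rw [map_add, map_add, map_smul, map_smul]
    exact hΩ.add_smul _ hx _ (tan_transport L hv) _ (tan_transport L hw) a b
  det x hx v w hv hw a b c d := by
    rw [map_add, map_add, map_smul, map_smul, map_smul, map_smul]
    exact hΩ.det _ hx _ (tan_transport L hv) _ (tan_transport L hw) a b c d
  scale x hx v w hv hw c hc := by
    rw [map_smul, map_smul, map_smul]
    exact hΩ.scale _ hx _ (tan_transport L hv) _ (tan_transport L hw) c hc
  analytic φ p hφ hφX := by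
    have h1 : AnalyticAt ℂ (fun y => L.symm (φ y)) p := ((L.symm : EN N →L[ℂ] V).analyticAt _).comp hφ
    have h2 := hΩ.analytic _ p h1 hφX
    refine h2.congr ?_
    filter_upwards [hφ.eventually_analyticAt] with y hy
    have h3 : HasFDerivAt (fun y => L.symm (φ y)) ((L.symm : EN N →L[ℂ] V).comp (fderiv ℂ φ y)) y :=
      (L.symm : EN N →L[ℂ] V).hasFDerivAt.comp y hy.differentiableAt.hasFDerivAt
    rw [h3.fderiv]
    rfl

end Pool.Agent.H36.BP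

end
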