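import Pool.Agent.H43.TL2.H36.BP.WdA
import Pool.Agent.H43.TL2.M18
import Pool.Agent.H43.TL2.M25

/-! The parts of this file: H14.PP.CurveBasic, H14.PP.ChartBasic, H36.BP.SubC. -/

section

/-!
# BPm CurveBasic: rules for `rho`, `fs`, `CurveAt`

* `rho_smul`: `‖Q (c x)‖ = ‖c‖^D ‖Q x‖`, `‖c x‖^D = ‖c‖^D ‖x‖^D`.
* `continuousAt_rho`: quotient of continuous functions, `x ≠ 0`.
* `continuousAt_fs`: `fs = wd / ‖x‖^2`, `wd_cont`.
* `fs_eq`: `wd x v = ‖x‖ ‖v - (⟪x,v⟫/‖x‖^2) x‖` for `x ≠ 0`, since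
  `‖v - a x‖^2 = ‖v‖^2 - ‖⟪x,v⟫‖^2/‖x‖^2`, `a = ⟪x,v⟫/‖x‖^2` (`wd_sq`).
* `fs_le`: `fs x v ≤ ‖v‖/‖x‖` (`wd_le`).
* `exists_rho_bound`: `rho` is invariant under scaling and continuous on the compact set
  `{x ∈ X | ‖x‖ = 1}` (`insert 0 X` is closed).
* `IsEq.curve_discrete`: `Q ∘ F` is analytic at `z₀`
  (`AnalyticAt.eventually_eq_zero_or_eventually_ne_zero`).
-/

open Topology Filter Metric

namespace Pool.Agent.H14.PP

open Pool.Agent.H36.BP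

variable {N : ℕ} {W : Type*} [NormedAddCommGroup W] [InnerProductSpace ℂ W]
  {X K T : Set (EN N)} {Q : EN N → W} {D : ℕ}

theorem IsCone.ne_zero (hX : IsCone X) {x : EN N} (hx : x ∈ X) : x ≠ 0 := by
  rintro rfl
  exact hX.zero_notMem hx

theorem CurveAt.mem {F : ℂ → EN N} {z₀ : ℂ} (hF : CurveAt X F z₀) : F z₀ ∈ X :=
  hF.2.self_of_nhds

theorem CurveAt.mono {F : ℂ → EN N} {z₀ : ℂ} (hF : CurveAt K F z₀) (h : K ⊆ X) :
    CurveAt X F z₀ := ⟨hF.1, hF.2.mono fun _ hz => h hz⟩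

theorem rho_nonneg (Q : EN N → W) (D : ℕ) (x : EN N) : 0 ≤ rho Q D x := by
  unfold rho
  positivity

theorem rho_smul (hQ : ∀ (c : ℂ) (x : EN N), Q (c • x) = c ^ D • Q x) {x : EN N} {c : ℂ}
    (hc : c ≠ 0) : rho Q D (c • x) = rho Q D x := by
  unfold rho
  rw [hQ, norm_smul, norm_smul, norm_pow, mul_pow,
    mul_div_mul_left _ _ (pow_ne_zero _ (norm_ne_zero_iff.2 hc))]

theorem rho_eq_zero_iff {x : EN N} (hx : x ≠ 0) : rho Q D x = 0 ↔ Q x = 0 := by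
  unfold rho
  rw [div_eq_zero_iff, norm_eq_zero]
  refine ⟨fun h => ?_, Or.inl⟩
  rcases h with h | h
  · exact h
  · exact absurd h (pow_ne_zero _ (norm_ne_zero_iff.2 hx))

theorem continuousAt_rho (hQ : ∀ x, AnalyticAt ℂ Q x) {x : EN N} (hx : x ≠ 0) :
    ContinuousAt (rho Q D) x := by
  have h : ContinuousAt (fun y : EN N => ‖Q y‖ / ‖y‖ ^ D) x :=
    ContinuousAt.div (hQ x).continuousAt.norm (continuous_norm.pow D).continuousAt
      (pow_ne_zero _ (norm_ne_zero_iff.2 hx))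
  exact h

theorem continuousAt_fs {x : EN N} (hx : x ≠ 0) (v : EN N) :
    ContinuousAt (fun p : EN N × EN N => fs p.1 p.2) (x, v) := by
  have h : ContinuousAt (fun p : EN N × EN N => wd p.1 p.2 / ‖p.1‖ ^ 2) (x, v) :=
    ContinuousAt.div wd_cont.continuousAt (continuous_fst.norm.pow 2).continuousAt
      (pow_ne_zero _ (norm_ne_zero_iff.2 hx))
  exact h

private theorem CurveBasic_wd {x : EN N} (hx : x ≠ 0) (v : EN N) :
    wd x v = ‖x‖ * ‖v - (inner ℂ x v / (‖x‖ : ℂ) ^ 2) • x‖ := by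
  have hn : ‖x‖ ≠ 0 := norm_ne_zero_iff.2 hx
  have hnc : (‖x‖ : ℂ) ≠ 0 := by exact_mod_cast hn
  set a : ℂ := inner ℂ x v / (‖x‖ : ℂ) ^ 2 with ha
  have horth : inner ℂ (v - a • x) (a • x) = (0 : ℂ) := by
    rw [inner_smul_right, ← inner_conj_symm, inner_sub_right, inner_smul_right,
      inner_self_eq_norm_sq_to_K]
    have e1 : inner ℂ x v - a * ((‖x‖ : ℂ)) ^ 2 = 0 := by
      rw [ha, div_mul_cancel₀ _ (pow_ne_zero 2 hnc), sub_self]
    have e2 : (inner ℂ x v - a * ((RCLike.ofReal ‖x‖ : ℂ)) ^ 2) = 0 := e1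
    rw [e2, map_zero, mul_zero]
  have hpyth := norm_add_sq_eq_norm_sq_add_norm_sq_of_inner_eq_zero (v - a • x) (a • x) horth
  rw [sub_add_cancel] at hpyth
  have hax : ‖a • x‖ * ‖x‖ = ‖inner ℂ x v‖ := by
    rw [norm_smul, ha, norm_div, norm_pow, Complex.norm_real, norm_norm]
    field_simp
  have hsq : wd x v ^ 2 = (‖x‖ * ‖v - a • x‖) ^ 2 := by
    rw [wd_sq, ← hax]
    have e3 : ‖v‖ ^ 2 = ‖v - a • x‖ ^ 2 + ‖a • x‖ ^ 2 := by
      rw [pow_two, pow_two, pow_two]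
      exact hpyth
    rw [e3]
    ring
  exact (pow_left_inj₀ (wd_nonneg x v) (by positivity) two_ne_zero).1 hsq

theorem fs_eq {x : EN N} (hx : x ≠ 0) (v : EN N) :
    fs x v = ‖v - (inner ℂ x v / (‖x‖ : ℂ) ^ 2) • x‖ / ‖x‖ := by
  have hn : ‖x‖ ≠ 0 := norm_ne_zero_iff.2 hx
  unfold fs
  rw [CurveBasic_wd hx v, pow_two ‖x‖, mul_div_mul_left _ _ hn]

theorem fs_le {x : EN N} (hx : x ≠ 0) (v : EN N) : fs x v ≤ ‖v‖ / ‖x‖ := by
  have hn : ‖x‖ ≠ 0 := norm_ne_zero_iff.2 hx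
  have h1 : ‖v‖ / ‖x‖ = ‖x‖ * ‖v‖ / ‖x‖ ^ 2 := by
    rw [pow_two, mul_div_mul_left _ _ hn]
  rw [h1]
  unfold fs
  exact div_le_div_of_nonneg_right (wd_le x v) (sq_nonneg _)

theorem exists_rho_bound (hX : IsCone X) (hQ : IsEq X T Q D) :
    ∃ C : ℝ, 0 < C ∧ ∀ x ∈ X, rho Q D x ≤ C := by
  have hcomp : IsCompact (sphere (0 : EN N) 1 ∩ insert 0 X) :=
    (isCompact_sphere _ _).inter_right hX.closed
  obtain ⟨C, hC⟩ := hcomp.exists_bound_of_continuousOn (f := rho Q D) (by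
    intro x hx
    have hx0 : x ≠ 0 := by
      rintro rfl
      have := hx.1
      rw [mem_sphere_iff_norm, sub_zero, norm_zero] at this
      exact zero_ne_one this
    exact (continuousAt_rho hQ.analytic hx0).continuousWithinAt)
  refine ⟨max C 1, lt_of_lt_of_le one_pos (le_max_right _ _), fun x hx => ?_⟩
  have hx0 := hX.ne_zero hx
  have hn : ‖x‖ ≠ 0 := norm_ne_zero_iff.2 hx0
  have hc : ((‖x‖ : ℂ))⁻¹ ≠ 0 := inv_ne_zero (by exact_mod_cast hn)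
  have hy : ((‖x‖ : ℂ))⁻¹ • x ∈ X := hX.smul_mem x hx _ hc
  have hyn : ‖((‖x‖ : ℂ))⁻¹ • x‖ = 1 := by
    rw [norm_smul, norm_inv, Complex.norm_real, norm_norm, inv_mul_cancel₀ hn]
  have h1 := hC (((‖x‖ : ℂ))⁻¹ • x) ⟨by rw [mem_sphere_iff_norm, sub_zero, hyn],
    Set.mem_insert_of_mem _ hy⟩
  rw [rho_smul hQ.smul hc] at h1
  exact ((le_abs_self _).trans h1).trans (le_max_left _ _)

/-- a curve which is not contained in `T` meets `T` in a discrete set -/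
theorem IsEq.curve_discrete (hQ : IsEq X T Q D) {F : ℂ → EN N} {z₀ : ℂ} (hF : CurveAt X F z₀) :
    (∀ᶠ z in 𝓝 z₀, F z ∈ T) ∨ (∀ᶠ z in 𝓝[≠] z₀, F z ∉ T) := by
  have hQF : AnalyticAt ℂ (fun z => Q (F z)) z₀ := (hQ.analytic (F z₀)).fun_comp hF.1
  rcases hQF.eventually_eq_zero_or_eventually_ne_zero with h | h
  · left
    filter_upwards [h, hF.2] with z hz hzX
    exact (hQ.mem_iff (F z)).2 ⟨hzX, hz⟩
  · right
    filter_upwards [h] with z hz hzT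
    exact hz ((hQ.mem_iff (F z)).1 hzT).2

/-- `T` is a cone -/
theorem IsEq.smul_mem (hX : IsCone X) (hQ : IsEq X T Q D) {x : EN N} (hx : x ∈ T) {c : ℂ}
    (hc : c ≠ 0) : c • x ∈ T := by
  obtain ⟨h1, h2⟩ := (hQ.mem_iff x).1 hx
  exact (hQ.mem_iff _).2 ⟨hX.smul_mem x h1 c hc, by rw [hQ.smul, h2, smul_zero]⟩

end Pool.Agent.H14.PP

end

section

/-!
# BPm ChartBasic: charts, basic facts

* `Chart.fderiv_q_smul`: `q (c • y) = q y` for `y` near `x ∈ U` (`U` open); differentiate: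
  `Dq(c x) (c v) = Dq(x) v`; and `Dq(x) x = 0` (differentiate `q ((1 + h) • x) = q x` at `h = 0`).
* `Chart.fderiv_sigma`: derivative of `q ∘ σ = id` on the bidisc: `Dq(σ p) (Dσ(p) w) = w`.
* `Chart.tan`: the curve `z ↦ σ (p + z • w)`; if `σ p ∈ K` it stays in `K` (`rel_open`).
* `Chart.curve`: `q ∘ F` is analytic at `z₀` (composition), its derivative is given by the chain
  rule. For `z` near `z₀`, `F z ∈ X ∩ U`, so `q (F z) ∈ ball 0 2` and `F z = c z • σ (q (F z))` with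
  `c z ≠ 0` (`surj`). With `y = σ (q (F z₀)) ≠ 0`: `c z = ⟪y, F z⟫ / ⟪y, σ (q (F z))⟫` near `z₀`:
  analytic.
* `Chart.sigma_mem_iff`: for `x ∈ X ∩ U`, `x = c • σ (q x)`, so `x ∈ K ↔ σ (q x) ∈ K`.
-/

open Topology Filter Metric

namespace Pool.Agent.H14.PP

open Pool.Agent.H36.BP

variable {N : ℕ} {X K T : Set (EN N)}

theorem Chart.sigma_ne_zero (hX : IsCone X) (χ : Chart X) {p : ℂ × ℂ}
    (hp : p ∈ ball (0 : ℂ × ℂ) 2) : χ.σ p ≠ 0 :=
  hX.ne_zero (χ.σ_mem p hp).1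

private theorem ChartBasic_q_self (χ : Chart X) {x : EN N} (hx : x ∈ χ.U) :
    fderiv ℂ χ.q x x = 0 := by
  have hq : HasFDerivAt χ.q (fderiv ℂ χ.q x) x := (χ.q_an x hx).differentiableAt.hasFDerivAt
  have hl : HasDerivAt (fun h : ℂ => (1 + h) • x) x 0 := by
    have h1 : HasDerivAt (fun h : ℂ => 1 + h) 1 0 := by
      simpa using (hasDerivAt_id (0 : ℂ)).const_add (1 : ℂ)
    simpa using h1.smul_const x
  have hx0 : (fun h : ℂ => (1 + h) • x) 0 = x := by simp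
  have hq' : HasFDerivAt χ.q (fderiv ℂ χ.q x) ((fun h : ℂ => (1 + h) • x) 0) := by
    rw [hx0]; exact hq
  have h2 : HasDerivAt (χ.q ∘ fun h : ℂ => (1 + h) • x) (fderiv ℂ χ.q x x) 0 :=
    hq'.comp_hasDerivAt 0 hl
  have h3 : HasDerivAt (χ.q ∘ fun h : ℂ => (1 + h) • x) 0 0 := by
    apply (hasDerivAt_const (0 : ℂ) (χ.q x)).congr_of_eventuallyEq
    have h4 : ∀ᶠ h : ℂ in 𝓝 0, 1 + h ≠ 0 := by
      apply ContinuousAt.eventually_ne
      · fun_prop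
      · simp
    filter_upwards [h4] with h hh
    exact χ.q_smul x hx _ hh
  exact h2.unique h3

theorem Chart.fderiv_q_smul (χ : Chart X) {x : EN N} (hx : x ∈ χ.U) (v : EN N) {c : ℂ}
    (hc : c ≠ 0) (a : ℂ) : fderiv ℂ χ.q (c • x) (c • v + a • x) = fderiv ℂ χ.q x v := by
  have hcx : c • x ∈ χ.U := χ.smul_U x hx c hc
  have h1 : HasFDerivAt χ.q (fderiv ℂ χ.q (c • x)) (c • x) :=
    (χ.q_an _ hcx).differentiableAt.hasFDerivAt
  have h2 : HasFDerivAt (fun y : EN N => c • y) (c • ContinuousLinearMap.id ℂ (EN N)) x :=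
    (hasFDerivAt_id x).const_smul c
  have h3 : HasFDerivAt (χ.q ∘ fun y : EN N => c • y)
      ((fderiv ℂ χ.q (c • x)).comp (c • ContinuousLinearMap.id ℂ (EN N))) x := h1.comp x h2
  have h4 : HasFDerivAt (χ.q ∘ fun y : EN N => c • y) (fderiv ℂ χ.q x) x := by
    apply (χ.q_an x hx).differentiableAt.hasFDerivAt.congr_of_eventuallyEq
    filter_upwards [χ.isOpen_U.mem_nhds hx] with y hy
    exact χ.q_smul y hy c hc
  have h5 := h3.unique h4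
  have h6 : fderiv ℂ χ.q (c • x) (c • v) = fderiv ℂ χ.q x v := by
    rw [← h5]; simp
  have h7 : fderiv ℂ χ.q (c • x) x = 0 := by
    have h8 := ChartBasic_q_self χ hcx
    rw [map_smul] at h8
    exact (smul_eq_zero.1 h8).resolve_left hc
  rw [map_add, h6, map_smul, h7, smul_zero, add_zero]

theorem Chart.fderiv_q_self (χ : Chart X) {x : EN N} (hx : x ∈ χ.U) : fderiv ℂ χ.q x x = 0 :=
  ChartBasic_q_self χ hx

theorem Chart.fderiv_sigma (χ : Chart X) {p : ℂ × ℂ} (hp : p ∈ ball (0 : ℂ × ℂ) 2) (w : ℂ × ℂ) :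
    fderiv ℂ χ.q (χ.σ p) (fderiv ℂ χ.σ p w) = w := by
  have h1 : HasFDerivAt χ.q (fderiv ℂ χ.q (χ.σ p)) (χ.σ p) :=
    (χ.q_an _ (χ.σ_mem p hp).2.1).differentiableAt.hasFDerivAt
  have h2 : HasFDerivAt χ.σ (fderiv ℂ χ.σ p) p := (χ.σ_an p hp).differentiableAt.hasFDerivAt
  have h3 := h1.comp p h2
  have h4 : HasFDerivAt (χ.q ∘ χ.σ) (ContinuousLinearMap.id ℂ (ℂ × ℂ)) p := by
    apply (hasFDerivAt_id p).congr_of_eventuallyEq
    filter_upwards [isOpen_ball.mem_nhds hp] with y hy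
    exact (χ.σ_mem y hy).2.2
  have h5 := h3.unique h4
  have h6 := congrArg (fun L : (ℂ × ℂ) →L[ℂ] (ℂ × ℂ) => L w) h5
  simpa using h6

theorem Chart.tan (hK : IsOpenPart X K) (χ : Chart X) {p : ℂ × ℂ}
    (hp : p ∈ ball (0 : ℂ × ℂ) 2) (hpK : χ.σ p ∈ K) (w : ℂ × ℂ) :
    Tan K (χ.σ p) (fderiv ℂ χ.σ p w) := by
  have hl : AnalyticAt ℂ (fun z : ℂ => p + z • w) 0 := by fun_prop
  have h0 : p + (0 : ℂ) • w = p := by simp
  have hσ : AnalyticAt ℂ χ.σ (p + (0 : ℂ) • w) := by rw [h0]; exact χ.σ_an p hp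
  have hF : AnalyticAt ℂ (fun z : ℂ => χ.σ (p + z • w)) 0 :=
    AnalyticAt.comp (g := χ.σ) (f := fun z : ℂ => p + z • w) hσ hl
  refine ⟨fun z => χ.σ (p + z • w), ⟨hF, ?_⟩, by simp, ?_⟩
  · have h1 : ∀ᶠ z : ℂ in 𝓝 0, χ.σ (p + z • w) ∈ X → χ.σ (p + z • w) ∈ K := by
      have h2 := hF.continuousAt
      have h3 := hK.rel_open _ hpK
      have h4 : χ.σ (p + (0 : ℂ) • w) = χ.σ p := by rw [h0]
      have h5 : Tendsto (fun z : ℂ => χ.σ (p + z • w)) (𝓝 0) (𝓝 (χ.σ p)) := by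
        have := h2.tendsto
        rwa [h4] at this
      exact h5.eventually h3
    have h6 : ∀ᶠ z : ℂ in 𝓝 0, p + z • w ∈ ball (0 : ℂ × ℂ) 2 := by
      have h7 := hl.continuousAt
      apply h7.eventually_mem
      rw [h0]
      exact isOpen_ball.mem_nhds hp
    filter_upwards [h1, h6] with z hz hz'
    exact hz (χ.σ_mem _ hz').1
  · have h1 : HasFDerivAt χ.σ (fderiv ℂ χ.σ p) (p + (0 : ℂ) • w) := by
      rw [h0]
      exact (χ.σ_an p hp).differentiableAt.hasFDerivAt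
    have h2 : HasDerivAt (fun z : ℂ => p + z • w) w 0 := by
      have h3 : HasDerivAt (fun z : ℂ => z • w) ((1 : ℂ) • w) 0 :=
        (hasDerivAt_id (0 : ℂ)).smul_const w
      rw [one_smul] at h3
      exact h3.const_add p
    exact (h1.comp_hasDerivAt (0 : ℂ) h2).deriv

theorem Chart.curve (hX : IsCone X) (χ : Chart X) {F : ℂ → EN N} {z₀ : ℂ} (hF : CurveAt X F z₀)
    (hU : F z₀ ∈ χ.U) :
    AnalyticAt ℂ (fun z => χ.q (F z)) z₀ ∧
    deriv (fun z => χ.q (F z)) z₀ = fderiv ℂ χ.q (F z₀) (deriv F z₀) ∧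
    ∃ c : ℂ → ℂ, AnalyticAt ℂ c z₀ ∧ c z₀ ≠ 0 ∧
      ∀ᶠ z in 𝓝 z₀, χ.q (F z) ∈ ball (0 : ℂ × ℂ) 2 ∧ F z = c z • χ.σ (χ.q (F z)) := by
  have hq : AnalyticAt ℂ χ.q (F z₀) := χ.q_an _ hU
  have hqF : AnalyticAt ℂ (fun z => χ.q (F z)) z₀ := AnalyticAt.comp hq hF.1
  refine ⟨hqF, ?_, ?_⟩
  · have h1 : HasFDerivAt χ.q (fderiv ℂ χ.q (F z₀)) (F z₀) := hq.differentiableAt.hasFDerivAt
    have h2 : HasDerivAt F (deriv F z₀) z₀ := hF.1.differentiableAt.hasDerivAt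
    exact (h1.comp_hasDerivAt z₀ h2).deriv
  · have hX0 : F z₀ ∈ X := hF.mem
    obtain ⟨hb, c0, hc0, hF0⟩ := χ.surj _ hX0 hU
    have hσ : AnalyticAt ℂ (fun z => χ.σ (χ.q (F z))) z₀ :=
      AnalyticAt.comp (g := χ.σ) (f := fun z => χ.q (F z)) (χ.σ_an _ hb) hqF
    set y : EN N := χ.σ (χ.q (F z₀)) with hy
    have hy0 : y ≠ 0 := Chart.sigma_ne_zero hX χ hb
    have hn : AnalyticAt ℂ (fun z => inner ℂ y (F z)) z₀ :=
      AnalyticAt.comp (g := fun x : EN N => (innerSL ℂ y) x) (f := F)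
        ((innerSL ℂ y).analyticAt _) hF.1
    have hd : AnalyticAt ℂ (fun z => inner ℂ y (χ.σ (χ.q (F z)))) z₀ :=
      AnalyticAt.comp (g := fun x : EN N => (innerSL ℂ y) x) (f := fun z => χ.σ (χ.q (F z)))
        ((innerSL ℂ y).analyticAt _) hσ
    have hd0 : (fun z => inner ℂ y (χ.σ (χ.q (F z)))) z₀ ≠ (0 : ℂ) := by
      show inner ℂ y y ≠ (0 : ℂ)
      exact inner_self_ne_zero.2 hy0
    refine ⟨fun z => inner ℂ y (F z) / inner ℂ y (χ.σ (χ.q (F z))), hn.div hd hd0, ?_, ?_⟩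
    · refine div_ne_zero ?_ hd0
      rw [hF0, inner_smul_right]
      exact mul_ne_zero hc0 (inner_self_ne_zero.2 hy0)
    · have hev : ∀ᶠ z in 𝓝 z₀, (fun z => inner ℂ y (χ.σ (χ.q (F z)))) z ≠ (0 : ℂ) :=
        hd.continuousAt.eventually_ne hd0
      have hevU : ∀ᶠ z in 𝓝 z₀, F z ∈ χ.U :=
        hF.1.continuousAt.eventually_mem (χ.isOpen_U.mem_nhds hU)
      filter_upwards [hev, hevU, hF.2] with z h1 h2 h3
      obtain ⟨h4, c, hc, h5⟩ := χ.surj _ h3 h2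
      refine ⟨h4, ?_⟩
      have h6 : inner ℂ y (F z) / inner ℂ y (χ.σ (χ.q (F z))) = c := by
        rw [div_eq_iff h1]
        conv_lhs => rw [h5]
        rw [inner_smul_right]
      rw [h6]
      exact h5

theorem Chart.sigma_mem_iff (χ : Chart X) {x : EN N} (hx : x ∈ X) (hU : x ∈ χ.U) {S : Set (EN N)}
    (hS : ∀ y ∈ S, ∀ c : ℂ, c ≠ 0 → c • y ∈ S) : χ.σ (χ.q x) ∈ S ↔ x ∈ S := by
  obtain ⟨_, c, hc, h1⟩ := χ.surj x hx hU
  constructor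
  · intro h
    rw [h1]
    exact hS _ h c hc
  · intro h
    have h2 : χ.σ (χ.q x) = c⁻¹ • x := by
      conv_rhs => rw [h1]
      rw [smul_smul, inv_mul_cancel₀ hc, one_smul]
    rw [h2]
    exact hS _ h _ (inv_ne_zero hc)

theorem Chart.rho_sigma {W : Type*} [NormedAddCommGroup W] [InnerProductSpace ℂ W]
    {Q : EN N → W} {D : ℕ} (hQ : ∀ (c : ℂ) (x : EN N), Q (c • x) = c ^ D • Q x) (χ : Chart X)
    {x : EN N} (hx : x ∈ X) (hU : x ∈ χ.U) : rho Q D (χ.σ (χ.q x)) = rho Q D x := by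
  obtain ⟨_, c, hc, h1⟩ := χ.surj x hx hU
  conv_rhs => rw [h1]
  rw [rho_smul hQ hc]

private theorem ChartBasic_swap_mem {p : ℂ × ℂ} (hp : p ∈ ball (0 : ℂ × ℂ) 2) :
    p.swap ∈ ball (0 : ℂ × ℂ) 2 := by
  rw [mem_ball_zero_iff] at hp ⊢
  rw [Prod.norm_def] at hp ⊢
  rw [Prod.fst_swap, Prod.snd_swap, max_comm]
  exact hp

private theorem ChartBasic_swap_an (p : ℂ × ℂ) :
    AnalyticAt ℂ (fun p : ℂ × ℂ => p.swap) p := by
  have : (fun p : ℂ × ℂ => p.swap) = fun p => (p.2, p.1) := rfl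
  rw [this]
  exact AnalyticAt.prod analyticAt_snd analyticAt_fst

/-- The same chart with the two coordinates exchanged. -/
def Chart.swap (χ : Chart X) : Chart X where
  σ p := χ.σ p.swap
  U := χ.U
  q x := (χ.q x).swap
  isOpen_U := χ.isOpen_U
  smul_U := χ.smul_U
  σ_an p hp := AnalyticAt.comp (g := χ.σ) (f := fun p : ℂ × ℂ => p.swap)
    (χ.σ_an _ (ChartBasic_swap_mem hp)) (ChartBasic_swap_an p)
  q_an x hx := AnalyticAt.comp (g := fun p : ℂ × ℂ => p.swap) (f := χ.q)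
    (ChartBasic_swap_an _) (χ.q_an x hx)
  q_smul x hx c hc := by rw [χ.q_smul x hx c hc]
  σ_mem p hp := by
    obtain ⟨h1, h2, h3⟩ := χ.σ_mem _ (ChartBasic_swap_mem hp)
    refine ⟨h1, h2, ?_⟩
    rw [h3, Prod.swap_swap]
  surj x hx hU := by
    obtain ⟨h1, c, hc, h2⟩ := χ.surj x hx hU
    refine ⟨ChartBasic_swap_mem h1, c, hc, ?_⟩
    rw [Prod.swap_swap]
    exact h2

theorem hasType_swap {χ : Chart X} (h : HasType T χ true) : HasType T χ.swap true := by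
  intro p hp
  have h1 := h p.swap (ChartBasic_swap_mem hp)
  show χ.σ p.swap ∈ T ↔ _
  rw [h1]
  simp only [Prod.fst_swap, Prod.snd_swap, true_and]
  exact or_comm

/-- The oriented chart. -/
def Chart.orient (b : Bool) (χ : Chart X) : Chart X := if b = true then χ.swap else χ

/-- Orientation of the coordinates. -/
def ori (b : Bool) (p : ℂ × ℂ) : ℂ × ℂ := if b = true then p.swap else p

theorem hasType_orient {χ : Chart X} {nd b : Bool} (h : HasType T χ nd)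
    (hb : b = true → nd = true) : HasType T (χ.orient b) nd := by
  unfold Chart.orient
  split_ifs with h1
  · have h2 := hb h1
    subst h2
    exact hasType_swap h
  · exact h

end Pool.Agent.H14.PP

end

section

/-!
# BP SubC: norms and wedge norms of holomorphic curves

* `norm_rpow`: `x₀ = F z₀`, `α z = ⟨x₀, F z⟩/|x₀|²` (holomorphic), `W = F - α x₀ ⊥ x₀`, `|F|² = |α|²|x₀|² + |W|²`, `W z = (z - z₀)(W₁ + o(1))`,
  `|W₁| = wd x₀ F'(z₀)/|x₀|`; so `|F|^a = |α x₀|^a (1 + |W|²/|α x₀|²)^(a/2)` and `log(1+y) ~ y`; exponent `(a/2)|W₁|²/|x₀|² = a e²/2`, `e = fs x₀ F'(z₀)`.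
  Valid for every real `a` (for `a < 0`: `(1+y)^(a/2) ≥ exp(a y/2)`).
* `wedge`: `wd_norming` at `z₀`, `h z = ⟨a,F⟩⟨b,F'⟩ - ⟨b,F⟩⟨a,F'⟩` is holomorphic, `|h| ≤ wd F F'` (`gram_proj`), equality at `z₀`.
* `fs_curve`: `fs F F' = wd F F' * ‖F‖^(-2)`: exponent `0 - e²`.
-/

set_option autoImplicit false

namespace Pool.Agent.H36.BP

open Filter Topology Metric

variable {N : ℕ}

/-- the coefficient of the projection of `v` to the line of `x` -/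
private noncomputable def SubC_c (x v : EN N) : ℂ := (((‖x‖ ^ 2 : ℝ) : ℂ))⁻¹ * inner ℂ x v

/-- the projection orthogonal to `x` -/
private noncomputable def SubC_P (x : EN N) : EN N →L[ℂ] EN N :=
  ContinuousLinearMap.id ℂ (EN N) - (((((‖x‖ ^ 2 : ℝ) : ℂ))⁻¹) • innerSL ℂ x).smulRight x

private theorem SubC_P_apply (x v : EN N) : SubC_P x v = v - SubC_c x v • x := by
  simp [SubC_P, SubC_c]

private theorem SubC_inner {F : ℂ → EN N} {z₀ : ℂ} (hF : AnalyticAt ℂ F z₀) (x : EN N) :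
    AnalyticAt ℂ (fun z => (innerSL ℂ x) (F z)) z₀ :=
  ((innerSL ℂ x).analyticAt (F z₀)).comp hF

private theorem SubC_self {x : EN N} (hx : x ≠ 0) : SubC_c x x = 1 := by
  unfold SubC_c
  rw [inner_self_eq_norm_sq_to_K]
  have h : (((‖x‖ ^ 2 : ℝ) : ℂ)) ≠ 0 := by
    have := norm_ne_zero_iff.mpr hx
    exact_mod_cast pow_ne_zero 2 this
  have h2 : ((‖x‖ : ℂ)) ^ 2 = (((‖x‖ ^ 2 : ℝ) : ℂ)) := by push_cast; rfl
  show (((‖x‖ ^ 2 : ℝ) : ℂ))⁻¹ * ((‖x‖ : ℂ)) ^ 2 = 1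
  rw [h2, inv_mul_cancel₀ h]

private theorem SubC_orth {x : EN N} (hx : x ≠ 0) (v : EN N) :
    inner ℂ x (SubC_P x v) = (0 : ℂ) := by
  rw [SubC_P_apply, inner_sub_right, inner_smul_right]
  have h1 := SubC_self hx
  unfold SubC_c at h1 ⊢
  have h3 : (((‖x‖ ^ 2 : ℝ) : ℂ))⁻¹ * inner ℂ x v * inner ℂ x x =
      inner ℂ x v * ((((‖x‖ ^ 2 : ℝ) : ℂ))⁻¹ * inner ℂ x x) := by ring
  rw [h3, h1, mul_one, sub_self]

private theorem SubC_norm {x : EN N} (hx : x ≠ 0) (v : EN N) :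
    ‖v‖ ^ 2 = ‖SubC_c x v‖ ^ 2 * ‖x‖ ^ 2 + ‖SubC_P x v‖ ^ 2 := by
  have h1 : inner ℂ (SubC_c x v • x) (SubC_P x v) = (0 : ℂ) := by
    rw [inner_smul_left, SubC_orth hx, mul_zero]
  have h2 := norm_add_sq_eq_norm_sq_add_norm_sq_of_inner_eq_zero _ _ h1
  have h3 : SubC_c x v • x + SubC_P x v = v := by rw [SubC_P_apply]; abel
  rw [h3, norm_smul] at h2
  nlinarith [h2]

private theorem SubC_wd {x : EN N} (hx : x ≠ 0) (v : EN N) :
    wd x v ^ 2 = ‖x‖ ^ 2 * ‖SubC_P x v‖ ^ 2 := by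
  rw [wd_sq]
  have h1 := SubC_norm hx v
  have hn : 0 < ‖x‖ := norm_pos_iff.mpr hx
  have h2 : ‖SubC_c x v‖ = (‖x‖ ^ 2)⁻¹ * ‖(inner ℂ x v : ℂ)‖ := by
    unfold SubC_c
    rw [norm_mul, norm_inv, Complex.norm_real, Real.norm_of_nonneg (by positivity)]
  rw [h2] at h1
  have h3 : ((‖x‖ ^ 2)⁻¹ * ‖(inner ℂ x v : ℂ)‖) ^ 2 * ‖x‖ ^ 2 * ‖x‖ ^ 2 =
      ‖(inner ℂ x v : ℂ)‖ ^ 2 := by field_simp
  have h4 : ‖x‖ ^ 2 * ‖v‖ ^ 2 = ((‖x‖ ^ 2)⁻¹ * ‖(inner ℂ x v : ℂ)‖) ^ 2 * ‖x‖ ^ 2 * ‖x‖ ^ 2 +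
      ‖x‖ ^ 2 * ‖SubC_P x v‖ ^ 2 := by rw [h1]; ring
  rw [h4, h3]
  ring

private theorem SubC_fs {x : EN N} (hx : x ≠ 0) (v : EN N) :
    fs x v ^ 2 = ‖SubC_P x v‖ ^ 2 / ‖x‖ ^ 2 := by
  have hn : 0 < ‖x‖ := norm_pos_iff.mpr hx
  unfold fs
  rw [div_pow, SubC_wd hx]
  field_simp

theorem Sub.norm_rpow {F : ℂ → EN N} {z₀ : ℂ} (hF : AnalyticAt ℂ F z₀) (h0 : F z₀ ≠ 0) (a : ℝ) :
    Sub (fun z => ‖F z‖ ^ a) z₀ (a * fs (F z₀) (deriv F z₀) ^ 2 / 2) := by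
  obtain ⟨x₀, hx₀⟩ : ∃ x₀, x₀ = F z₀ := ⟨_, rfl⟩
  rw [← hx₀] at h0 ⊢
  have hn : 0 < ‖x₀‖ := norm_pos_iff.mpr h0
  obtain ⟨α, hα⟩ : ∃ α : ℂ → ℂ, ∀ z, α z = SubC_c x₀ (F z) := ⟨_, fun _ => rfl⟩
  obtain ⟨W, hW⟩ : ∃ W : ℂ → EN N, ∀ z, W z = SubC_P x₀ (F z) := ⟨_, fun _ => rfl⟩
  have hαan : AnalyticAt ℂ α z₀ := by
    have h1 : α = fun z => (((‖x₀‖ ^ 2 : ℝ) : ℂ))⁻¹ * (innerSL ℂ x₀) (F z) := by
      funext z
      rw [hα]
      rfl
    rw [h1]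
    exact analyticAt_const.mul (SubC_inner hF x₀)
  have hα0 : α z₀ = 1 := by rw [hα, ← hx₀, SubC_self h0]
  have hW0 : W z₀ = 0 := by
    rw [hW, ← hx₀, SubC_P_apply, SubC_self h0, one_smul, sub_self]
  have hWd : HasDerivAt W (SubC_P x₀ (deriv F z₀)) z₀ := by
    have h1 := (SubC_P x₀).hasFDerivAt.comp_hasDerivAt z₀ hF.differentiableAt.hasDerivAt
    have h2 : W = (SubC_P x₀) ∘ F := by
      funext z
      exact hW z
    rw [h2]
    exact h1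
  obtain ⟨y, hy⟩ : ∃ y : ℂ → ℝ, ∀ z, y z = ‖W z‖ ^ 2 / (‖α z‖ ^ 2 * ‖x₀‖ ^ 2) :=
    ⟨_, fun _ => rfl⟩
  have hαt : Tendsto α (𝓝 z₀) (𝓝 1) := by
    have := hαan.continuousAt.tendsto
    rwa [hα0] at this
  have hαne : ∀ᶠ z in 𝓝 z₀, α z ≠ 0 := hαt.eventually_ne one_ne_zero
  have hden : Tendsto (fun z => ‖α z‖ ^ 2 * ‖x₀‖ ^ 2) (𝓝 z₀) (𝓝 (‖x₀‖ ^ 2)) := by
    have h1 := (hαt.norm.pow 2).mul_const (‖x₀‖ ^ 2)
    rw [norm_one, one_pow, one_mul] at h1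
    exact h1
  have hsq : ‖x₀‖ ^ 2 ≠ 0 := by positivity
  have hyt : Tendsto y (𝓝 z₀) (𝓝 0) := by
    have h1 : Tendsto (fun z => ‖W z‖ ^ 2) (𝓝 z₀) (𝓝 0) := by
      have h2 := (hWd.continuousAt.tendsto.norm.pow 2)
      rw [hW0, norm_zero] at h2
      simpa using h2
    have h3 := h1.div hden hsq
    rw [zero_div] at h3
    exact h3.congr fun z => (hy z).symm
  have hyq : Tendsto (fun z => y z / ‖z - z₀‖ ^ 2) (𝓝[≠] z₀)
      (𝓝 (fs x₀ (deriv F z₀) ^ 2)) := by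
    have h1 := hWd.tendsto_slope
    have h2 := (h1.norm.pow 2).div (hden.mono_left nhdsWithin_le_nhds) hsq
    rw [SubC_fs h0]
    refine h2.congr' ?_
    filter_upwards [self_mem_nhdsWithin] with z hz
    have hz' : z - z₀ ≠ 0 := sub_ne_zero.mpr hz
    show ‖slope W z₀ z‖ ^ 2 / (‖α z‖ ^ 2 * ‖x₀‖ ^ 2) = y z / ‖z - z₀‖ ^ 2
    rw [hy, slope_def_module, hW0, sub_zero, norm_smul, norm_inv]
    have h3 : ‖z - z₀‖ ≠ 0 := norm_ne_zero_iff.mpr hz'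
    rw [mul_pow, inv_pow]
    simp only [div_eq_mul_inv]
    ring
  have hy0 : ∀ z, 0 ≤ y z := fun z => by rw [hy]; positivity
  -- the lower bound of the logarithm
  have hlog : ∀ c' : ℝ, c' < a * fs x₀ (deriv F z₀) ^ 2 / 2 →
      ∀ᶠ z in 𝓝 z₀, c' * ‖z - z₀‖ ^ 2 ≤ a / 2 * Real.log (1 + y z) := by
    intro c' hc'
    have hmain : ∀ᶠ z in 𝓝[≠] z₀, c' * ‖z - z₀‖ ^ 2 ≤ a / 2 * Real.log (1 + y z) := by
      rcases le_or_gt 0 a with ha | ha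
      · have h1 : Tendsto (fun z => a / 2 * (y z / ‖z - z₀‖ ^ 2 / (1 + y z))) (𝓝[≠] z₀)
            (𝓝 (a / 2 * (fs x₀ (deriv F z₀) ^ 2 / (1 + 0)))) :=
          (hyq.div ((hyt.mono_left nhdsWithin_le_nhds).const_add 1) (by norm_num)).const_mul _
        have h2 : c' < a / 2 * (fs x₀ (deriv F z₀) ^ 2 / (1 + 0)) := by
          rw [add_zero, div_one]; linarith
        filter_upwards [h1.eventually_const_lt h2, self_mem_nhdsWithin] with z hz hz'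
        have h3 : 0 < ‖z - z₀‖ := norm_pos_iff.mpr (sub_ne_zero.mpr hz')
        have h4 : 0 < 1 + y z := by linarith [hy0 z]
        have h5 : y z / (1 + y z) ≤ Real.log (1 + y z) := by
          have h6 := Real.one_sub_inv_le_log_of_pos h4
          have h7 : 1 - (1 + y z)⁻¹ = y z / (1 + y z) := by field_simp; ring
          rwa [h7] at h6
        have h8 : c' * ‖z - z₀‖ ^ 2 ≤ a / 2 * (y z / (1 + y z)) := by
          have h9 := mul_le_mul_of_nonneg_right hz.le (sq_nonneg ‖z - z₀‖)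
          have h10 : a / 2 * (y z / ‖z - z₀‖ ^ 2 / (1 + y z)) * ‖z - z₀‖ ^ 2 =
              a / 2 * (y z / (1 + y z)) := by field_simp
          rwa [h10] at h9
        exact h8.trans (mul_le_mul_of_nonneg_left h5 (by linarith))
      · have h1 : Tendsto (fun z => a / 2 * (y z / ‖z - z₀‖ ^ 2)) (𝓝[≠] z₀)
            (𝓝 (a / 2 * fs x₀ (deriv F z₀) ^ 2)) := hyq.const_mul _
        have h2 : c' < a / 2 * fs x₀ (deriv F z₀) ^ 2 := by linarith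
        filter_upwards [h1.eventually_const_lt h2, self_mem_nhdsWithin] with z hz hz'
        have h3 : 0 < ‖z - z₀‖ := norm_pos_iff.mpr (sub_ne_zero.mpr hz')
        have h4 : 0 < 1 + y z := by linarith [hy0 z]
        have h5 : Real.log (1 + y z) ≤ y z := by
          have h6 := Real.log_le_sub_one_of_pos h4
          linarith
        have h8 : c' * ‖z - z₀‖ ^ 2 ≤ a / 2 * y z := by
          have h9 := mul_le_mul_of_nonneg_right hz.le (sq_nonneg ‖z - z₀‖)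
          have h10 : a / 2 * (y z / ‖z - z₀‖ ^ 2) * ‖z - z₀‖ ^ 2 = a / 2 * y z := by field_simp
          rwa [h10] at h9
        refine h8.trans ?_
        exact mul_le_mul_of_nonpos_left h5 (by linarith)
    have h2 : ∀ᶠ z in 𝓝 z₀, z ∈ ({z₀}ᶜ : Set ℂ) →
        c' * ‖z - z₀‖ ^ 2 ≤ a / 2 * Real.log (1 + y z) :=
      eventually_nhdsWithin_iff.mp hmain
    filter_upwards [h2] with z hz
    by_cases h3 : z = z₀
    · subst h3
      rw [hy, hW0]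
      simp
    · exact hz h3
  refine ⟨?_, fun c' hc' => ⟨fun z => ((‖x₀‖ ^ a : ℝ) : ℂ) * (α z) ^ (a : ℂ), ?_, ?_, ?_⟩⟩
  · show 0 < ‖F z₀‖ ^ a
    rw [← hx₀]
    exact Real.rpow_pos_of_pos hn a
  · refine analyticAt_const.mul (hαan.cpow analyticAt_const ?_)
    rw [hα0]
    exact Complex.one_mem_slitPlane
  · show ‖((‖x₀‖ ^ a : ℝ) : ℂ) * (α z₀) ^ (a : ℂ)‖ = ‖F z₀‖ ^ a
    rw [← hx₀, hα0, Complex.one_cpow, mul_one, Complex.norm_real,
      Real.norm_of_nonneg (Real.rpow_nonneg hn.le a)]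
  · filter_upwards [hlog c' hc', hαne] with z hz hz'
    have hα1 : 0 < ‖α z‖ := norm_pos_iff.mpr hz'
    have h1 : ‖((‖x₀‖ ^ a : ℝ) : ℂ) * (α z) ^ (a : ℂ)‖ = (‖α z‖ * ‖x₀‖) ^ a := by
      rw [norm_mul, Complex.norm_real, Real.norm_of_nonneg (Real.rpow_nonneg hn.le a),
        Complex.norm_cpow_of_ne_zero hz']
      simp only [Complex.ofReal_re, Complex.ofReal_im, mul_zero, Real.exp_zero, div_one]
      rw [Real.mul_rpow hα1.le hn.le, mul_comm]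
    have h4 : 0 < 1 + y z := by linarith [hy0 z]
    have h2 : ‖F z‖ ^ 2 = (‖α z‖ * ‖x₀‖) ^ 2 * (1 + y z) := by
      rw [SubC_norm h0 (F z), ← hα, ← hW, hy]
      field_simp
    have h3 : ‖F z‖ = (‖α z‖ * ‖x₀‖) * Real.sqrt (1 + y z) := by
      have h5 : ‖F z‖ = Real.sqrt (‖F z‖ ^ 2) := (Real.sqrt_sq (norm_nonneg _)).symm
      rw [h5, h2, Real.sqrt_mul (by positivity), Real.sqrt_sq (by positivity)]
    have h5 : ‖F z‖ ^ a = (‖α z‖ * ‖x₀‖) ^ a * Real.exp (a / 2 * Real.log (1 + y z)) := by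
      rw [h3, Real.mul_rpow (by positivity) (Real.sqrt_nonneg _)]
      congr 1
      rw [Real.sqrt_eq_rpow, ← Real.rpow_mul h4.le, Real.rpow_def_of_pos h4]
      congr 1
      ring
    show ‖((‖x₀‖ ^ a : ℝ) : ℂ) * (α z) ^ (a : ℂ)‖ * Real.exp (c' * ‖z - z₀‖ ^ 2) ≤ ‖F z‖ ^ a
    rw [h1, h5]
    exact mul_le_mul_of_nonneg_left (Real.exp_le_exp.mpr hz) (Real.rpow_nonneg (by positivity) a)

theorem Sub.wedge {F : ℂ → EN N} {z₀ : ℂ} (hF : AnalyticAt ℂ F z₀) (h0 : 0 < wd (F z₀) (deriv F z₀)) :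
    Sub (fun z => wd (F z) (deriv F z)) z₀ 0 := by
  obtain ⟨a, b, ha, hb, hab, h1⟩ := wd_norming h0
  refine ⟨h0, fun c' hc' => ⟨fun z => (innerSL ℂ a) (F z) * (innerSL ℂ b) (deriv F z) -
    (innerSL ℂ b) (F z) * (innerSL ℂ a) (deriv F z), ?_, h1, ?_⟩⟩
  · have hd := hF.deriv
    exact ((SubC_inner hF a).mul (SubC_inner hd b)).sub ((SubC_inner hF b).mul (SubC_inner hd a))
  · refine Filter.Eventually.of_forall fun z => ?_
    have h2 := gram_proj ha hb hab (F z) (deriv F z)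
    have h3 : Real.exp (c' * ‖z - z₀‖ ^ 2) ≤ 1 := by
      rw [Real.exp_le_one_iff]
      exact mul_nonpos_of_nonpos_of_nonneg hc'.le (sq_nonneg _)
    refine le_trans ?_ h2
    calc ‖(innerSL ℂ a) (F z) * (innerSL ℂ b) (deriv F z) -
          (innerSL ℂ b) (F z) * (innerSL ℂ a) (deriv F z)‖ * Real.exp (c' * ‖z - z₀‖ ^ 2)
        ≤ ‖(innerSL ℂ a) (F z) * (innerSL ℂ b) (deriv F z) -
          (innerSL ℂ b) (F z) * (innerSL ℂ a) (deriv F z)‖ * 1 :=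
          mul_le_mul_of_nonneg_left h3 (norm_nonneg _)
      _ = _ := mul_one _

theorem Sub.fs_curve {F : ℂ → EN N} {z₀ : ℂ} (hF : AnalyticAt ℂ F z₀) (h0 : 0 < fs (F z₀) (deriv F z₀)) :
    Sub (fun z => fs (F z) (deriv F z)) z₀ (-(fs (F z₀) (deriv F z₀)) ^ 2) := by
  have hx : F z₀ ≠ 0 := by
    intro h
    unfold fs at h0
    rw [h, norm_zero] at h0
    simp at h0
  have hw : 0 < wd (F z₀) (deriv F z₀) := by
    refine lt_of_le_of_ne (wd_nonneg _ _) fun h => ?_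
    unfold fs at h0
    rw [← h, zero_div] at h0
    exact lt_irrefl _ h0
  have h1 := (Sub.wedge hF hw).mul (Sub.norm_rpow hF hx (-2))
  have h2 : (0 : ℝ) + -2 * fs (F z₀) (deriv F z₀) ^ 2 / 2 = -(fs (F z₀) (deriv F z₀)) ^ 2 := by
    ring
  rw [h2] at h1
  refine h1.congr (Filter.Eventually.of_forall fun z => ?_)
  show wd (F z) (deriv F z) * ‖F z‖ ^ (-2 : ℝ) = fs (F z) (deriv F z)
  unfold fs
  rw [Real.rpow_neg (norm_nonneg _), div_eq_mul_inv]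
  norm_num

end Pool.Agent.H36.BP

end
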