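import Pool.Agent.H43.TL2.M08
import Pool.Agent.H43.TL2.M09
import Pool.Agent.H43.TL2.M26
import Pool.Agent.H43.TL2.M34
import Pool.Agent.H43.TL2.M39
import Pool.Agent.H43.TL2.M40

/-! The parts of this file: H13.CV.Val, H14.PP.ChartClosed, H14.PP.Cover, H14.PP.FormChart, H14.PP.FormTrans, H14.PP.GDef, H14.PP.TECompact, H14.PP.FarSub, H17BP.Final, H7.Bir.Map. -/

section

/-!
# CV Val: the value of a function at a place

`exists_value`: let `0 ≤ ord f` and suppose that `0 < ord (f - c)` for no `c : ℂ`.  So `ord (f - c) = 0` for all `c` (it is `≥ 0`), in particular `f` is not a constant (`ord 0 = ⊤`), so `f` is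
transcendental (`transcendental_of_not_const`).  Every non-zero polynomial in `f` is a constant times a product of factors `f - c` (`IsAlgClosed.splits`,
`Polynomial.Splits.aeval_eq_prod_aroots` or induction on the degree with a root), so it has order `0`; so all non-zero elements of `L = ℂ(f)` have order `0`
(`IntermediateField.mem_adjoin_simple_iff`).  `K` is finite over `L` (`hK.fin`), so the uniformizer `t` (`oz E t = 1`) is algebraic over `L`; `t⁻¹` is also algebraic over `L`: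
there is a monic polynomial `p` over `L` with `p (t⁻¹) = 0`, of degree `n > 0`.  `(t⁻¹) ^ n = - ∑ i < n, p_i (t⁻¹) ^ i` has order `- n`, but the right side has order `≥ - (n - 1)`: contradiction.

The other lemmas follow from `res_spec` and `res_eq` (uniqueness: `ord (c - c') > 0` with `c ≠ c'` contradicts `ord_const`).
-/

set_option autoImplicit false

open Pool.Agent.H23.Fano (PrimeDivisorOver Form regularForms)

noncomputable section

namespace Pool.Agent.H13.CV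

variable {K : Type} [Field K] [Algebra ℂ K] {E E' : Place K} {f g : K}

theorem exists_value (hK : CurveField K) (hf : 0 ≤ E.ord f) : ∃ c : ℂ, 0 < E.ord (f - algebraMap ℂ K c) := by
  by_contra hc
  push Not at hc
  have h0 : ∀ c : ℂ, E.ord (f - algebraMap ℂ K c) = 0 := fun c =>
    le_antisymm (hc c) (nonneg_sub hf (const_nonneg E c))
  have hne : ∀ c : ℂ, f ≠ algebraMap ℂ K c := by
    intro c hfc
    have h1 := h0 c
    rw [hfc, sub_self, E.ord.map_zero] at h1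
    exact WithTop.top_ne_zero h1
  have htr : Transcendental ℂ f := transcendental_of_not_const hne
  -- polynomials in `f` have order `0`
  have hA : ∀ (n : ℕ) (q : Polynomial ℂ), q ≠ 0 → q.natDegree = n → E.ord (Polynomial.aeval f q) = 0 := by
    intro n
    induction n with
    | zero =>
      intro q hq hn
      rw [Polynomial.eq_C_of_natDegree_eq_zero hn, Polynomial.aeval_C]
      refine ord_const E ?_
      intro h2
      apply hq
      rw [Polynomial.eq_C_of_natDegree_eq_zero hn, h2, Polynomial.C_0]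
    | succ n ih =>
      intro q hq hn
      obtain ⟨a, ha⟩ := IsAlgClosed.exists_root q (by
        intro h2
        have h3 : q.natDegree = 0 := Polynomial.natDegree_eq_zero_iff_degree_le_zero.2 (le_of_eq h2)
        omega)
      obtain ⟨q', hq'⟩ := Polynomial.dvd_iff_isRoot.2 ha
      have hq0 : q' ≠ 0 := by
        rintro rfl
        exact hq (by rw [hq', mul_zero])
      have hdeg : q'.natDegree = n := by
        have h3 := congrArg Polynomial.natDegree hq'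
        rw [Polynomial.natDegree_mul (Polynomial.X_sub_C_ne_zero a) hq0, Polynomial.natDegree_X_sub_C] at h3
        omega
      rw [hq', map_mul, E.ord.map_mul, ih q' hq0 hdeg, map_sub, Polynomial.aeval_X, Polynomial.aeval_C, h0 a,
        add_zero]
  -- elements of `ℂ(f)`
  have hB : ∀ l : K, l ∈ IntermediateField.adjoin ℂ {f} → l ≠ 0 → E.ord l = 0 := by
    intro l hl hl0
    obtain ⟨r, s, hrs⟩ := (IntermediateField.mem_adjoin_simple_iff ℂ l).1 hl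
    have hs : Polynomial.aeval f s ≠ 0 := by
      intro h2
      rw [h2, div_zero] at hrs
      exact hl0 hrs
    have hr : Polynomial.aeval f r ≠ 0 := by
      intro h2
      rw [h2, zero_div] at hrs
      exact hl0 hrs
    have hs' : s ≠ 0 := by
      rintro rfl
      exact hs (map_zero _)
    have hr' : r ≠ 0 := by
      rintro rfl
      exact hr (map_zero _)
    have h3 : l * Polynomial.aeval f s = Polynomial.aeval f r := by
      rw [hrs, div_mul_cancel₀ _ hs]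
    have h4 := congrArg E.ord h3
    rw [E.ord.map_mul, hA _ s hs' rfl, hA _ r hr' rfl, add_zero] at h4
    exact h4
  have := hK.fin f htr
  obtain ⟨t, ht0, ht⟩ := exists_uni E
  have hu0 : t⁻¹ ≠ 0 := inv_ne_zero ht0
  have hint : IsIntegral (IntermediateField.adjoin ℂ {f}) t⁻¹ := Algebra.IsIntegral.isIntegral t⁻¹
  obtain ⟨p, hp, hpe⟩ := hint
  have hoz : ∀ n : ℕ, E.ord (t⁻¹ ^ n) = ((-(n : ℤ) : ℤ) : WithTop ℤ) := by
    intro n
    rw [← coe_oz E (pow_ne_zero n hu0), oz_pow, oz_inv, ht]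
    congr 1
    ring
  rw [Polynomial.eval₂_eq_sum_range, Finset.sum_range_succ, hp.coeff_natDegree, map_one, one_mul] at hpe
  have h5 : t⁻¹ ^ p.natDegree = -∑ i ∈ Finset.range p.natDegree,
      (algebraMap (IntermediateField.adjoin ℂ {f}) K) (p.coeff i) * t⁻¹ ^ i := by
    rw [eq_neg_iff_add_eq_zero, add_comm]
    exact hpe
  have h6 : ((-((p.natDegree : ℤ) - 1) : ℤ) : WithTop ℤ) ≤ E.ord (∑ i ∈ Finset.range p.natDegree,
      (algebraMap (IntermediateField.adjoin ℂ {f}) K) (p.coeff i) * t⁻¹ ^ i) := by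
    refine E.ord.map_le_sum fun i hi => ?_
    rw [Finset.mem_range] at hi
    by_cases hz : (algebraMap (IntermediateField.adjoin ℂ {f}) K) (p.coeff i) = 0
    · rw [hz, zero_mul, E.ord.map_zero]
      exact le_top
    · have h7 : E.ord ((algebraMap (IntermediateField.adjoin ℂ {f}) K) (p.coeff i)) = 0 :=
        hB _ (p.coeff i).2 hz
      rw [E.ord.map_mul, h7, zero_add, hoz]
      rw [WithTop.coe_le_coe]
      omega
  have h8 := hoz p.natDegree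
  rw [h5, E.ord.map_neg] at h8
  rw [h8, WithTop.coe_le_coe] at h6
  omega

theorem value_unique {c c' : ℂ} (h : 0 < E.ord (f - algebraMap ℂ K c)) (h' : 0 < E.ord (f - algebraMap ℂ K c')) : c = c' := by
  by_contra hcc
  have h1 := pos_sub h' h
  have h2 : f - algebraMap ℂ K c' - (f - algebraMap ℂ K c) = algebraMap ℂ K (c - c') := by
    rw [map_sub]
    ring
  rw [h2, ord_const E (sub_ne_zero.2 hcc)] at h1
  exact lt_irrefl _ h1

theorem res_eq {c : ℂ} (h : 0 < E.ord (f - algebraMap ℂ K c)) : res E f = c := by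
  classical
  have h1 : ∃ c : ℂ, 0 < E.ord (f - algebraMap ℂ K c) := ⟨c, h⟩
  unfold res
  rw [dif_pos h1]
  exact value_unique h1.choose_spec h

theorem res_spec (hK : CurveField K) (hf : 0 ≤ E.ord f) : 0 < E.ord (f - algebraMap ℂ K (res E f)) := by
  obtain ⟨c, hc⟩ := exists_value hK hf
  rw [res_eq hc]
  exact hc

theorem res_const (E : Place K) (c : ℂ) : res E (algebraMap ℂ K c) = c := by
  refine res_eq ?_
  rw [sub_self, E.ord.map_zero]
  exact WithTop.coe_lt_top (0 : ℤ)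

theorem res_zero (E : Place K) : res E (0 : K) = 0 := by
  have h := res_const E 0
  rwa [map_zero] at h

theorem res_add (hK : CurveField K) (hf : 0 ≤ E.ord f) (hg : 0 ≤ E.ord g) : res E (f + g) = res E f + res E g := by
  refine res_eq ?_
  have h : f + g - algebraMap ℂ K (res E f + res E g) =
      (f - algebraMap ℂ K (res E f)) + (g - algebraMap ℂ K (res E g)) := by
    rw [map_add]
    ring
  rw [h]
  exact pos_add (res_spec hK hf) (res_spec hK hg)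

theorem res_mul (hK : CurveField K) (hf : 0 ≤ E.ord f) (hg : 0 ≤ E.ord g) : res E (f * g) = res E f * res E g := by
  refine res_eq ?_
  have h : f * g - algebraMap ℂ K (res E f * res E g) =
      (f - algebraMap ℂ K (res E f)) * g + (g - algebraMap ℂ K (res E g)) * algebraMap ℂ K (res E f) := by
    rw [map_mul]
    ring
  rw [h]
  exact pos_add (pos_mul (res_spec hK hf) hg) (pos_mul (res_spec hK hg) (const_nonneg E _))

theorem res_smul (hK : CurveField K) (c : ℂ) (hf : 0 ≤ E.ord f) : res E (c • f) = c * res E f := by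
  rw [Algebra.smul_def, res_mul hK (const_nonneg E c) hf, res_const]

theorem res_sum (hK : CurveField K) {ι : Type*} {s : Finset ι} {F : ι → K} (h : ∀ i ∈ s, 0 ≤ E.ord (F i)) :
    res E (∑ i ∈ s, F i) = ∑ i ∈ s, res E (F i) := by
  classical
  induction s using Finset.induction_on with
  | empty => rw [Finset.sum_empty, Finset.sum_empty, res_zero]
  | insert a s ha ih =>
    rw [Finset.sum_insert ha, Finset.sum_insert ha,
      res_add hK (h a (Finset.mem_insert_self a s)) (nonneg_sum fun i hi => h i (Finset.mem_insert_of_mem hi)),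
      ih fun i hi => h i (Finset.mem_insert_of_mem hi)]

theorem res_eq_zero_iff (hK : CurveField K) (hf : 0 ≤ E.ord f) : res E f = 0 ↔ 0 < E.ord f := by
  constructor
  · intro h
    have h1 := res_spec hK hf
    rwa [h, map_zero, sub_zero] at h1
  · intro h
    refine res_eq ?_
    rwa [map_zero, sub_zero]

end Pool.Agent.H13.CV

end
end

section

/-!
# BPm ChartClosed: the closed cone of a closed bidisc

`S = {x ∈ X | x ∈ U, ‖q x‖ ≤ r} = {c • σ p | c ≠ 0, ‖p‖ ≤ r}` (`r < 2`; `ℂ × ℂ` has the sup norm), so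
`S ∪ {0} = {c • σ p | c : ℂ, ‖p‖ ≤ r}`. Closed: let `c_n • σ p_n → x`. The closed ball is compact,
pass to a subsequence `p_n → p`; `‖σ‖ ≥ b > 0` on the closed ball, so `c_n` is bounded, pass to a
subsequence `c_n → c`; `x = c • σ p`.
-/

open Topology Filter Metric

namespace Pool.Agent.H14.PP

open Pool.Agent.H36.BP

variable {N : ℕ} {X K T : Set (EN N)}

private theorem ChartClosed_mem (hX : IsCone X) (χ : Chart X) {r : ℝ} (hr0 : 0 ≤ r) (hr : r < 2)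
    (x : EN N) : x ∈ insert (0 : EN N) {x | x ∈ X ∧ x ∈ χ.U ∧ ‖χ.q x‖ ≤ r} ↔
      ∃ (c : ℂ) (p : ℂ × ℂ), p ∈ closedBall (0 : ℂ × ℂ) r ∧ x = c • χ.σ p := by
  constructor
  · rintro (rfl | ⟨h1, h2, h3⟩)
    · exact ⟨0, 0, mem_closedBall_self hr0, by rw [zero_smul]⟩
    · obtain ⟨-, c, -, hc⟩ := χ.surj x h1 h2
      exact ⟨c, χ.q x, mem_closedBall_zero_iff.mpr h3, hc⟩
  · rintro ⟨c, p, hp, rfl⟩
    by_cases hc : c = 0
    · left
      rw [hc, zero_smul]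
    · right
      obtain ⟨h1, h2, h3⟩ := χ.σ_mem p (closedBall_subset_ball hr hp)
      refine ⟨hX.smul_mem _ h1 c hc, χ.smul_U _ h2 c hc, ?_⟩
      rw [χ.q_smul _ h2 c hc, h3]
      exact mem_closedBall_zero_iff.mp hp

theorem Chart.isClosed (hX : IsCone X) (χ : Chart X) {r : ℝ} (hr0 : 0 ≤ r) (hr : r < 2) :
    IsClosed (insert (0 : EN N) {x | x ∈ X ∧ x ∈ χ.U ∧ ‖χ.q x‖ ≤ r}) := by
  have hcomp : IsCompact (closedBall (0 : ℂ × ℂ) r) := isCompact_closedBall _ _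
  have hcont : ContinuousOn χ.σ (closedBall (0 : ℂ × ℂ) r) := fun p hp =>
    (χ.σ_an p (closedBall_subset_ball hr hp)).continuousAt.continuousWithinAt
  obtain ⟨p₀, hp₀, hmin⟩ := hcomp.exists_isMinOn ⟨0, mem_closedBall_self hr0⟩ hcont.norm
  set b : ℝ := ‖χ.σ p₀‖ with hb
  have hbpos : 0 < b := norm_pos_iff.mpr
    (χ.sigma_ne_zero hX (closedBall_subset_ball hr hp₀))
  refine isClosed_of_closure_subset fun x hx => ?_
  set M : ℝ := (‖x‖ + 1) / b with hM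
  have hK : IsCompact ((fun z : ℂ × (ℂ × ℂ) => z.1 • χ.σ z.2) ''
      (closedBall (0 : ℂ) M ×ˢ closedBall (0 : ℂ × ℂ) r)) := by
    refine ((isCompact_closedBall _ _).prod hcomp).image_of_continuousOn ?_
    refine continuousOn_fst.smul (hcont.comp continuousOn_snd ?_)
    intro z hz
    exact hz.2
  have h1 : x ∈ closure (ball x 1 ∩ insert (0 : EN N) {x | x ∈ X ∧ x ∈ χ.U ∧ ‖χ.q x‖ ≤ r}) :=
    isOpen_ball.inter_closure ⟨mem_ball_self one_pos, hx⟩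
  have h2 : ball x 1 ∩ insert (0 : EN N) {x | x ∈ X ∧ x ∈ χ.U ∧ ‖χ.q x‖ ≤ r} ⊆
      (fun z : ℂ × (ℂ × ℂ) => z.1 • χ.σ z.2) ''
        (closedBall (0 : ℂ) M ×ˢ closedBall (0 : ℂ × ℂ) r) := by
    rintro y ⟨hy1, hy2⟩
    obtain ⟨c, p, hp, rfl⟩ := (ChartClosed_mem hX χ hr0 hr y).mp hy2
    refine ⟨(c, p), ⟨?_, hp⟩, rfl⟩
    rw [mem_closedBall_zero_iff, hM, le_div_iff₀ hbpos]
    have h3 : b ≤ ‖χ.σ p‖ := hmin hp
    have h4 : ‖c • χ.σ p‖ ≤ ‖x‖ + 1 := by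
      have h5 : ‖c • χ.σ p - x‖ < 1 := by
        rw [← dist_eq_norm]
        exact hy1
      have h6 : c • χ.σ p = (c • χ.σ p - x) + x := by abel
      rw [h6]
      refine (norm_add_le _ _).trans ?_
      linarith
    rw [norm_smul] at h4
    exact (mul_le_mul_of_nonneg_left h3 (norm_nonneg c)).trans h4
  have h3 := (hK.isClosed.closure_subset_iff.mpr h2) h1
  obtain ⟨⟨c, p⟩, ⟨-, hp⟩, rfl⟩ := h3
  exact (ChartClosed_mem hX χ hr0 hr _).mpr ⟨c, p, hp, rfl⟩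

end Pool.Agent.H14.PP

end

section

/-!
# BPm Cover: a finite atlas near `T`

`S = {x ∈ X | ‖x‖ = 1}` is compact (`insert 0 X` is closed, `EN N` is proper);
`T ∩ S = {x ∈ S | Q x = 0}` is compact. For `x ∈ T ∩ S` take the chart `χ_x` given by `IsNodal`; the
set `{y ∈ χ_x.U | ‖q y‖ < 1/2}` is open and contains `x`. Finitely many of them, with charts `χ i`,
cover `T ∩ S`. The set of `x ∈ S` outside all these open sets is compact and does not meet `T`, so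
`rho Q D` (continuous, positive there) is at least `δ' > 0` on it; `δ = δ'/2`. For general `x ∈ X`
use `x/‖x‖ ∈ S`: `rho`, `U` and `q` are invariant under scaling (`rho_smul`, `smul_U`, `q_smul`).
-/

open Topology Filter Metric

namespace Pool.Agent.H14.PP

open Pool.Agent.H36.BP

variable {N : ℕ} {W : Type*} [NormedAddCommGroup W] [InnerProductSpace ℂ W]
  {X K T : Set (EN N)} {Q : EN N → W} {D : ℕ}

private theorem Cover_compact (hX : IsCone X) : IsCompact {x : EN N | x ∈ X ∧ ‖x‖ = 1} := by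
  have h1 : {x : EN N | x ∈ X ∧ ‖x‖ = 1} = insert 0 X ∩ sphere (0 : EN N) 1 := by
    ext x
    simp only [Set.mem_ofPred_eq, Set.mem_inter_iff, Set.mem_insert_iff, mem_sphere_zero_iff_norm]
    constructor
    · rintro ⟨h1, h2⟩
      exact ⟨Or.inr h1, h2⟩
    · rintro ⟨h1 | h1, h2⟩
      · rw [h1, norm_zero] at h2
        exact absurd h2 zero_ne_one
      · exact ⟨h1, h2⟩
  rw [h1, Set.inter_comm]
  exact (isCompact_sphere _ _).inter_right hX.closed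

private theorem Cover_open (χ : Chart X) : IsOpen {y : EN N | y ∈ χ.U ∧ ‖χ.q y‖ < 1 / 2} := by
  rw [isOpen_iff_mem_nhds]
  rintro y ⟨hy1, hy2⟩
  filter_upwards [χ.isOpen_U.mem_nhds hy1,
    (χ.q_an y hy1).continuousAt.norm.eventually_lt_const hy2] with z hz1 hz2
  exact ⟨hz1, hz2⟩

theorem exists_atlas (hX : IsCone X) (hQ : IsEq X T Q D) (hT : IsNodal X K T) :
    ∃ (n : ℕ) (χ : Fin n → Chart X) (nd : Fin n → Bool) (d : Fin n → Bool × Bool),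
      (∀ i, HasType T (χ i) (nd i)) ∧ (∀ i, DType K (χ i) (d i)) ∧
      (∀ i, (d i).2 = true → nd i = true) ∧
      ∃ δ : ℝ, 0 < δ ∧ ∀ x ∈ X, rho Q D x ≤ δ → ∃ i, x ∈ (χ i).U ∧ ‖(χ i).q x‖ < 1 / 2 := by
  classical
  obtain ⟨S, hS⟩ : ∃ S : Set (EN N), S = {x : EN N | x ∈ X ∧ ‖x‖ = 1} := ⟨_, rfl⟩
  have hSc : IsCompact S := by rw [hS]; exact Cover_compact hX
  have hQc : Continuous Q := continuous_iff_continuousAt.mpr fun x => (hQ.analytic x).continuousAt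
  have hTc : IsCompact (S ∩ {x | Q x = 0}) :=
    hSc.inter_right (isClosed_eq hQc continuous_const)
  have hTS : ∀ x ∈ S ∩ {x | Q x = 0}, x ∈ T := by
    rintro x ⟨hx1, hx2⟩
    rw [hS] at hx1
    exact (hQ.mem_iff x).mpr ⟨hx1.1, hx2⟩
  -- the charts
  choose χ nd d hU h0 hty hdt hdn using hT
  obtain ⟨O, hO⟩ : ∃ O : (x : EN N) → x ∈ S ∩ {x | Q x = 0} → Set (EN N),
      ∀ x hx, O x hx = {y | y ∈ (χ x (hTS x hx)).U ∧ ‖(χ x (hTS x hx)).q y‖ < 1 / 2} :=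
    ⟨_, fun _ _ => rfl⟩
  have hOn : ∀ x (hx : x ∈ S ∩ {x | Q x = 0}), O x hx ∈ 𝓝 x := by
    intro x hx
    rw [hO]
    refine (Cover_open _).mem_nhds ⟨hU x (hTS x hx), ?_⟩
    rw [h0 x (hTS x hx), norm_zero]
    norm_num
  obtain ⟨t, ht⟩ := hTc.elim_nhds_subcover' O hOn
  -- enumerate the finite set
  obtain ⟨n, e⟩ : ∃ n : ℕ, Nonempty (Fin n ≃ t) := ⟨t.card, ⟨t.equivFin.symm⟩⟩
  obtain ⟨e⟩ := e
  refine ⟨n, fun i => χ _ (hTS _ (e i).1.2), fun i => nd _ (hTS _ (e i).1.2),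
    fun i => d _ (hTS _ (e i).1.2), fun i => hty _ _, fun i => hdt _ _, fun i => hdn _ _, ?_⟩
  -- the rest of the sphere
  obtain ⟨R, hR⟩ : ∃ R : Set (EN N), R = S \ ⋃ x ∈ t, O x.1 x.2 := ⟨_, rfl⟩
  have hRc : IsCompact R := by
    rw [hR]
    refine hSc.diff (isOpen_biUnion fun x _ => ?_)
    rw [hO]
    exact Cover_open _
  have hpos : ∀ x ∈ R, 0 < rho Q D x := by
    intro x hx
    rw [hR] at hx
    have hxS : x ∈ X ∧ ‖x‖ = 1 := by
      have := hx.1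
      rwa [hS] at this
    refine lt_of_le_of_ne (rho_nonneg _ _ _) fun h => ?_
    have hQ0 : Q x = 0 := (rho_eq_zero_iff (hX.ne_zero hxS.1)).mp h.symm
    exact hx.2 (ht ⟨hx.1, hQ0⟩)
  have hcont : ContinuousOn (rho Q D) R := by
    intro x hx
    rw [hR] at hx
    have hxS : x ∈ X ∧ ‖x‖ = 1 := by
      have := hx.1
      rwa [hS] at this
    exact (continuousAt_rho hQ.analytic (hX.ne_zero hxS.1)).continuousWithinAt
  obtain ⟨δ, hδ, hδR⟩ : ∃ δ : ℝ, 0 < δ ∧ ∀ x ∈ R, δ < rho Q D x := by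
    rcases R.eq_empty_or_nonempty with he | hne
    · exact ⟨1, one_pos, fun x hx => by rw [he] at hx; exact absurd hx (Set.notMem_empty x)⟩
    · obtain ⟨x₀, hx₀, hmin⟩ := hRc.exists_isMinOn hne hcont
      have h1 := hpos x₀ hx₀
      refine ⟨rho Q D x₀ / 2, by linarith, fun x hx => ?_⟩
      have h2 : rho Q D x₀ ≤ rho Q D x := hmin hx
      linarith
  refine ⟨δ, hδ, fun x hx hle => ?_⟩
  have hx0 : x ≠ 0 := hX.ne_zero hx
  have hn : (0 : ℝ) < ‖x‖ := norm_pos_iff.mpr hx0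
  obtain ⟨c, hc⟩ : ∃ c : ℂ, c = ((‖x‖ : ℂ))⁻¹ := ⟨_, rfl⟩
  have hc0 : c ≠ 0 := by
    rw [hc]
    exact inv_ne_zero (by exact_mod_cast hn.ne')
  have hyS : c • x ∈ S := by
    rw [hS]
    refine ⟨hX.smul_mem x hx c hc0, ?_⟩
    rw [norm_smul, hc, norm_inv, Complex.norm_real, norm_norm, inv_mul_cancel₀ hn.ne']
  have hy : c • x ∉ R := by
    intro hyR
    have h1 := hδR _ hyR
    rw [rho_smul hQ.smul hc0] at h1
    linarith
  have hy2 : c • x ∈ ⋃ x ∈ t, O x.1 x.2 := by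
    by_contra hcon
    exact hy (by rw [hR]; exact ⟨hyS, hcon⟩)
  rw [Set.mem_iUnion₂] at hy2
  obtain ⟨z, hz, hz2⟩ := hy2
  rw [hO] at hz2
  obtain ⟨hz3, hz4⟩ := hz2
  have hxU : x ∈ (χ z.1 (hTS z.1 z.2)).U := by
    have h1 := (χ z.1 (hTS z.1 z.2)).smul_U _ hz3 c⁻¹ (inv_ne_zero hc0)
    rwa [smul_smul, inv_mul_cancel₀ hc0, one_smul] at h1
  refine ⟨e.symm ⟨z, hz⟩, ?_⟩
  have h2 : e (e.symm ⟨z, hz⟩) = ⟨z, hz⟩ := e.apply_symm_apply _
  have h3 : (e (e.symm ⟨z, hz⟩)).1 = z := by rw [h2]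
  have h4 : χ (e (e.symm ⟨z, hz⟩)).1.1 (hTS _ (e (e.symm ⟨z, hz⟩)).1.2) =
      χ z.1 (hTS z.1 z.2) := by
    rw [h3]
  show x ∈ (χ (e (e.symm ⟨z, hz⟩)).1.1 (hTS _ (e (e.symm ⟨z, hz⟩)).1.2)).U ∧
    ‖(χ (e (e.symm ⟨z, hz⟩)).1.1 (hTS _ (e (e.symm ⟨z, hz⟩)).1.2)).q x‖ < 1 / 2
  rw [h4]
  refine ⟨hxU, ?_⟩
  rwa [(χ z.1 (hTS z.1 z.2)).q_smul x hxU c hc0] at hz4

end Pool.Agent.H14.PP

end

section

/-!
# BPm FormChart: the coefficient of the form in a chart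

* `aCoef_analytic`: `Form.analytic` for `φ = χ.σ` (near `p` the points `χ.σ y` are in `X`, hence in
  `K`, `rel_open`).
* `aCoef_ne_zero`: `v = Dσ(p)(1,0)`, `w = Dσ(p)(0,1)` are tangent (`Chart.tan`), and
  `![σ p, v, w]` is linearly independent: if `a σ p + b v + c w = 0` apply `Dq(σ p)`:
  `(b, c) = 0` (`Chart.fderiv_q_self`, `Chart.fderiv_sigma`), then `a = 0` as `σ p ≠ 0`.
* `continuousAt_ACoef` (exponents are `≥ 0`), `ACoef_pos_iff` (`1 ≤ m`, `σ p ≠ 0`).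
* `ACoef_swap`: `Ω x w v = (-1)^m Ω x v w` (`det` with `a = d = 0`, `b = c = 1`).
-/

open Topology Filter Metric

namespace Pool.Agent.H14.PP

open Pool.Agent.H36.BP

variable {N : ℕ} {X K T : Set (EN N)} {m j : ℕ}

private theorem FormChart_ev (hK : IsOpenPart X K) (χ : Chart X) {p : ℂ × ℂ}
    (hp : p ∈ ball (0 : ℂ × ℂ) 2) (hpK : χ.σ p ∈ K) : ∀ᶠ y in 𝓝 p, χ.σ y ∈ K := by
  have h1 : ∀ᶠ y in 𝓝 p, y ∈ ball (0 : ℂ × ℂ) 2 := isOpen_ball.mem_nhds hp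
  have h2 : ∀ᶠ y in 𝓝 p, χ.σ y ∈ X → χ.σ y ∈ K :=
    (χ.σ_an p hp).continuousAt.eventually (hK.rel_open _ hpK)
  filter_upwards [h1, h2] with y hy hy2
  exact hy2 (χ.σ_mem y hy).1

private theorem FormChart_swap (χ : Chart X) {p : ℂ × ℂ} (hp : p ∈ ball (0 : ℂ × ℂ) 2) (v : ℂ × ℂ) :
    fderiv ℂ χ.swap.σ p.swap v = fderiv ℂ χ.σ p v.swap := by
  have h1 : HasFDerivAt χ.σ (fderiv ℂ χ.σ p) ((ContinuousLinearEquiv.prodComm ℂ ℂ ℂ) p.swap) := by
    have : (ContinuousLinearEquiv.prodComm ℂ ℂ ℂ) p.swap = p := by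
      show p.swap.swap = p
      exact Prod.swap_swap p
    rw [this]
    exact (χ.σ_an p hp).differentiableAt.hasFDerivAt
  have h2 := h1.comp p.swap (ContinuousLinearEquiv.prodComm ℂ ℂ ℂ).hasFDerivAt
  have h3 : HasFDerivAt χ.swap.σ ((fderiv ℂ χ.σ p).comp
      ((ContinuousLinearEquiv.prodComm ℂ ℂ ℂ : (ℂ × ℂ) ≃L[ℂ] (ℂ × ℂ)) : (ℂ × ℂ) →L[ℂ] (ℂ × ℂ))) p.swap := h2
  rw [h3.fderiv]
  rfl

theorem aCoef_analytic (hK : IsOpenPart X K) (Ω : Form K m j) (χ : Chart X) {p : ℂ × ℂ}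
    (hp : p ∈ ball (0 : ℂ × ℂ) 2) (hpK : χ.σ p ∈ K) : AnalyticAt ℂ (aCoef Ω χ) p := by
  exact Ω.analytic χ.σ p (χ.σ_an p hp) (FormChart_ev hK χ hp hpK)

theorem aCoef_ne_zero (hX : IsCone X) (hK : IsOpenPart X K) (Ω : Form K m j) (χ : Chart X)
    (hΩ : Ω.NoZeroOff T) {p : ℂ × ℂ} (hp : p ∈ ball (0 : ℂ × ℂ) 2) (hpK : χ.σ p ∈ K)
    (hT : χ.σ p ∉ T) : aCoef Ω χ p ≠ 0 := by
  refine hΩ (χ.σ p) hpK hT _ _ (χ.tan hK hp hpK _) (χ.tan hK hp hpK _) ?_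
  rw [Fintype.linearIndependent_iff]
  intro g hg
  rw [Fin.sum_univ_three] at hg
  simp only [Matrix.cons_val_zero, Matrix.cons_val_one, Matrix.cons_val] at hg
  have h1 := congrArg (fderiv ℂ χ.q (χ.σ p)) hg
  rw [map_add, map_add, map_smul, map_smul, map_smul, χ.fderiv_q_self (χ.σ_mem p hp).2.1,
    χ.fderiv_sigma hp, χ.fderiv_sigma hp, map_zero, smul_zero, zero_add] at h1
  have h2 : g 1 = 0 := by
    have := congrArg Prod.fst h1
    simpa using this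
  have h3 : g 2 = 0 := by
    have := congrArg Prod.snd h1
    simpa using this
  rw [h2, h3, zero_smul, zero_smul, add_zero, add_zero] at hg
  have h4 : g 0 = 0 := (smul_eq_zero.1 hg).resolve_right (χ.sigma_ne_zero hX hp)
  intro i
  fin_cases i
  · exact h4
  · exact h2
  · exact h3

theorem ACoef_nonneg (Ω : Form K m j) (χ : Chart X) (p : ℂ × ℂ) : 0 ≤ ACoef Ω χ p := by
  unfold ACoef
  positivity

theorem continuousAt_ACoef (hK : IsOpenPart X K) (Ω : Form K m j) (χ : Chart X) {p : ℂ × ℂ}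
    (hp : p ∈ ball (0 : ℂ × ℂ) 2) (hpK : χ.σ p ∈ K) : ContinuousAt (ACoef Ω χ) p := by
  unfold ACoef
  refine ContinuousAt.mul ?_ ?_
  · exact (aCoef_analytic hK Ω χ hp hpK).continuousAt.norm.rpow_const (Or.inr (by positivity))
  · exact (χ.σ_an p hp).continuousAt.norm.rpow_const (Or.inr (by positivity))

theorem ACoef_pos_iff (hX : IsCone X) (hm : 1 ≤ m) (Ω : Form K m j) (χ : Chart X) {p : ℂ × ℂ}
    (hp : p ∈ ball (0 : ℂ × ℂ) 2) : 0 < ACoef Ω χ p ↔ aCoef Ω χ p ≠ 0 := by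
  have hσ : 0 < ‖χ.σ p‖ := norm_pos_iff.2 (χ.sigma_ne_zero hX hp)
  have h1 : 0 < ‖χ.σ p‖ ^ ((j : ℝ) / m) := Real.rpow_pos_of_pos hσ _
  have hm' : (1 / (m : ℝ)) ≠ 0 := by
    have : (0 : ℝ) < m := by exact_mod_cast hm
    positivity
  unfold ACoef
  constructor
  · intro h h0
    rw [h0, norm_zero, Real.zero_rpow hm', zero_mul] at h
    exact lt_irrefl _ h
  · intro h
    exact mul_pos (Real.rpow_pos_of_pos (norm_pos_iff.2 h) _) h1

theorem ACoef_swap (hK : IsOpenPart X K) (Ω : Form K m j) (χ : Chart X) {p : ℂ × ℂ}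
    (hp : p ∈ ball (0 : ℂ × ℂ) 2) (hpK : χ.σ p ∈ K) :
    ACoef Ω χ.swap p.swap = ACoef Ω χ p := by
  have hσ : χ.swap.σ p.swap = χ.σ p := by
    show χ.σ p.swap.swap = χ.σ p
    rw [Prod.swap_swap]
  have h1 : aCoef Ω χ.swap p.swap = (-1) ^ m * aCoef Ω χ p := by
    unfold aCoef
    rw [hσ, FormChart_swap χ hp, FormChart_swap χ hp]
    have h2 := Ω.det (χ.σ p) hpK _ _ (χ.tan hK hp hpK (1, 0)) (χ.tan hK hp hpK (0, 1)) 0 1 1 0
    rw [zero_smul, one_smul, one_smul, zero_smul, zero_add, add_zero] at h2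
    have h3 : ((0 : ℂ) * 0 - 1 * 1) = -1 := by ring
    rw [h3] at h2
    exact h2
  unfold ACoef
  rw [h1, hσ, norm_mul, norm_pow, norm_neg, norm_one, one_pow, one_mul]

end Pool.Agent.H14.PP

end

section

/-!
# BPm FormTrans: transformation of the coefficient of the form

`χ, χ'` charts, `‖p‖ < 2`, `χ.σ p ∈ K`, `χ.σ p ∈ χ'.U`, `τ = χ'.q ∘ χ.σ`. For `y` near `p`,
`χ.σ y ∈ X ∩ χ'.U`, so `χ.σ y = c y • χ'.σ (τ y)` with `c y ≠ 0`, `c` analytic near `p`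
(`c y = ⟪e, χ.σ y⟫/⟪e, χ'.σ (τ y)⟫`, `e = χ'.σ (τ p)`).
Let `x' = χ'.σ (τ p)`, `v₁ = Dχ'.σ(τ p)(1,0)`, `v₂ = Dχ'.σ(τ p)(0,1)`,
`Dτ(p)(1,0) = (l, c₁)`, `Dτ(p)(0,1) = (b, m₁)`. Then
`Dχ.σ(p)(1,0) = c_s x' + c (l v₁ + c₁ v₂)`, `Dχ.σ(p)(0,1) = c_t x' + c (b v₁ + m₁ v₂)`
(`c = c p`, `c_s, c_t` the partial derivatives).
`scale` (with the tangent vectors `l v₁ + c₁ v₂ + (c_s/c) x'` and `b v₁ + m₁ v₂ + (c_t/c) x'`; they are
tangent: derivatives at `0` of `z ↦ exp (z c_s/c) • χ'.σ (τ p + z (l, c₁))`, which is in `K` near `0`),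
`add_smul` and `det` give `c^j * aCoef Ω χ p = (l m₁ - c₁ b)^m * aCoef Ω χ' (τ p)`, so
`‖aCoef Ω χ p‖ = ‖jac‖^m ‖aCoef Ω χ' (τ p)‖ / ‖c‖^j`, and `‖χ.σ p‖ = ‖c‖ ‖x'‖`:
`ACoef Ω χ p = ‖jac‖ * ACoef Ω χ' (τ p)` (take `m`-th roots, `1 ≤ m`).
-/

open Topology Filter Metric

namespace Pool.Agent.H14.PP

open Pool.Agent.H36.BP

variable {N : ℕ} {X K T : Set (EN N)} {m j : ℕ}

private theorem FormTrans_tan_smul (hK : IsOpenPart X K) {x v : EN N} (h : Tan K x v) {c : ℂ}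
    (hc : c ≠ 0) : Tan K (c • x) (c • v) := by
  obtain ⟨F, hF, hF0, hFd⟩ := h
  refine ⟨fun z => c • F z, ⟨AnalyticAt.fun_smul analyticAt_const hF.1, ?_⟩, ?_, ?_⟩
  · filter_upwards [hF.2] with z hz
    exact hK.smul_mem _ hz c hc
  · show c • F 0 = c • x
    rw [hF0]
  · have h1 : HasDerivAt (fun z => c • F z) (c • deriv F 0) 0 :=
      hF.1.differentiableAt.hasDerivAt.const_smul c
    rw [h1.deriv, hFd]

/-- The lift: `χ.σ y = c y • χ'.σ (τ y)` near `p`, with `c` differentiable at `p`. -/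
private theorem FormTrans_lift (hX : IsCone X) (χ χ' : Chart X) {p : ℂ × ℂ}
    (hp : p ∈ ball (0 : ℂ × ℂ) 2) (hU : χ.σ p ∈ χ'.U) :
    ∃ (c : ℂ) (c' : (ℂ × ℂ) →L[ℂ] ℂ), c ≠ 0 ∧ χ'.q (χ.σ p) ∈ ball (0 : ℂ × ℂ) 2 ∧
      χ.σ p = c • χ'.σ (χ'.q (χ.σ p)) ∧
      ∀ w : ℂ × ℂ, fderiv ℂ χ.σ p w =
        c • fderiv ℂ χ'.σ (χ'.q (χ.σ p)) (fderiv ℂ (fun y => χ'.q (χ.σ y)) p w) +
          c' w • χ'.σ (χ'.q (χ.σ p)) := by
  obtain ⟨hτ, c0, hc0, hx⟩ := χ'.surj (χ.σ p) (χ.σ_mem p hp).1 hU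
  set x' : EN N := χ'.σ (χ'.q (χ.σ p)) with hx'
  have hx'0 : x' ≠ 0 := χ'.sigma_ne_zero hX hτ
  have hin : inner ℂ x' x' ≠ 0 := by
    rw [Ne, inner_self_eq_zero]
    exact hx'0
  have hτan : AnalyticAt ℂ (fun y => χ'.q (χ.σ y)) p :=
    AnalyticAt.comp (g := χ'.q) (f := χ.σ) (χ'.q_an _ hU) (χ.σ_an p hp)
  have hσ'an : AnalyticAt ℂ (fun y => χ'.σ (χ'.q (χ.σ y))) p :=
    AnalyticAt.comp (g := χ'.σ) (f := fun y => χ'.q (χ.σ y)) (χ'.σ_an _ hτ) hτan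
  have hnum : AnalyticAt ℂ (fun y => innerSL ℂ x' (χ.σ y)) p :=
    AnalyticAt.comp (g := fun v => innerSL ℂ x' v) (f := χ.σ)
      ((innerSL ℂ x').analyticAt _) (χ.σ_an p hp)
  have hden : AnalyticAt ℂ (fun y => innerSL ℂ x' (χ'.σ (χ'.q (χ.σ y)))) p :=
    AnalyticAt.comp (g := fun v => innerSL ℂ x' v) (f := fun y => χ'.σ (χ'.q (χ.σ y)))
      ((innerSL ℂ x').analyticAt _) hσ'an
  have hden0 : innerSL ℂ x' (χ'.σ (χ'.q (χ.σ p))) ≠ 0 := by
    rw [← hx', innerSL_apply_apply]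
    exact hin
  let C : ℂ × ℂ → ℂ := fun y => innerSL ℂ x' (χ.σ y) / innerSL ℂ x' (χ'.σ (χ'.q (χ.σ y)))
  have hC : AnalyticAt ℂ C p := hnum.div hden hden0
  have hCp : C p = c0 := by
    show innerSL ℂ x' (χ.σ p) / innerSL ℂ x' (χ'.σ (χ'.q (χ.σ p))) = c0
    rw [div_eq_iff hden0]
    conv_lhs => rw [hx]
    rw [map_smul, smul_eq_mul]
  have hev : ∀ᶠ y in 𝓝 p, χ.σ y = C y • χ'.σ (χ'.q (χ.σ y)) := by
    have h1 : ∀ᶠ y in 𝓝 p, y ∈ ball (0 : ℂ × ℂ) 2 := isOpen_ball.mem_nhds hp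
    have h2 : ∀ᶠ y in 𝓝 p, χ.σ y ∈ χ'.U :=
      (χ.σ_an p hp).continuousAt.eventually (χ'.isOpen_U.mem_nhds hU)
    have h3 : ∀ᶠ y in 𝓝 p, innerSL ℂ x' (χ'.σ (χ'.q (χ.σ y))) ≠ 0 :=
      hden.continuousAt.eventually_ne hden0
    filter_upwards [h1, h2, h3] with y hy1 hy2 hy3
    obtain ⟨-, b, hb, hxb⟩ := χ'.surj (χ.σ y) (χ.σ_mem y hy1).1 hy2
    have h4 : C y = b := by
      show innerSL ℂ x' (χ.σ y) / innerSL ℂ x' (χ'.σ (χ'.q (χ.σ y))) = b
      rw [div_eq_iff hy3]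
      conv_lhs => rw [hxb]
      rw [map_smul, smul_eq_mul]
    rw [h4]
    exact hxb
  refine ⟨c0, fderiv ℂ C p, hc0, hτ, hx, fun w => ?_⟩
  have hD1 : HasFDerivAt (fun y => χ'.σ (χ'.q (χ.σ y)))
      ((fderiv ℂ χ'.σ (χ'.q (χ.σ p))).comp (fderiv ℂ (fun y => χ'.q (χ.σ y)) p)) p :=
    HasFDerivAt.comp (g := χ'.σ) (f := fun y => χ'.q (χ.σ y)) p
      (χ'.σ_an _ hτ).differentiableAt.hasFDerivAt hτan.differentiableAt.hasFDerivAt
  have hD2 : HasFDerivAt (fun y => C y • χ'.σ (χ'.q (χ.σ y)))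
      (C p • ((fderiv ℂ χ'.σ (χ'.q (χ.σ p))).comp (fderiv ℂ (fun y => χ'.q (χ.σ y)) p)) +
        (fderiv ℂ C p).smulRight (χ'.σ (χ'.q (χ.σ p)))) p :=
    hC.differentiableAt.hasFDerivAt.smul hD1
  have hD3 : HasFDerivAt χ.σ
      (C p • ((fderiv ℂ χ'.σ (χ'.q (χ.σ p))).comp (fderiv ℂ (fun y => χ'.q (χ.σ y)) p)) +
        (fderiv ℂ C p).smulRight (χ'.σ (χ'.q (χ.σ p)))) p :=
    hD2.congr_of_eventuallyEq hev
  rw [hD3.fderiv, hCp]
  rfl

private theorem FormTrans_pair (L : (ℂ × ℂ) →L[ℂ] EN N) (w : ℂ × ℂ) :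
    L w = w.1 • L (1, 0) + w.2 • L (0, 1) := by
  rw [← map_smul, ← map_smul, ← map_add]
  congr 1
  ext
  · simp
  · simp

private theorem FormTrans_coef (hX : IsCone X) (hK : IsOpenPart X K) (Ω : Form K m j)
    (χ χ' : Chart X) {p : ℂ × ℂ} (hp : p ∈ ball (0 : ℂ × ℂ) 2) (hpK : χ.σ p ∈ K)
    (hU : χ.σ p ∈ χ'.U) :
    ∃ c : ℂ, c ≠ 0 ∧ χ.σ p = c • χ'.σ (χ'.q (χ.σ p)) ∧
      c ^ j * aCoef Ω χ p =
        jac (fun y => χ'.q (χ.σ y)) p ^ m * aCoef Ω χ' (χ'.q (χ.σ p)) := by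
  obtain ⟨c, c', hc, hτ, hx, hD⟩ := FormTrans_lift hX χ χ' hp hU
  refine ⟨c, hc, hx, ?_⟩
  have hx'K : χ'.σ (χ'.q (χ.σ p)) ∈ K := by
    have h1 := hK.smul_mem _ hpK c⁻¹ (inv_ne_zero hc)
    rw [hx, smul_smul, inv_mul_cancel₀ hc, one_smul] at h1
    exact h1
  set x' : EN N := χ'.σ (χ'.q (χ.σ p)) with hx'
  set A : ℂ × ℂ := fderiv ℂ (fun y => χ'.q (χ.σ y)) p (1, 0) with hA
  set B : ℂ × ℂ := fderiv ℂ (fun y => χ'.q (χ.σ y)) p (0, 1) with hB
  have htA : Tan K x' (fderiv ℂ χ'.σ (χ'.q (χ.σ p)) A) := χ'.tan hK hτ hx'K A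
  have htB : Tan K x' (fderiv ℂ χ'.σ (χ'.q (χ.σ p)) B) := χ'.tan hK hτ hx'K B
  have hV : fderiv ℂ χ.σ p (1, 0) =
      c • fderiv ℂ χ'.σ (χ'.q (χ.σ p)) A + (c' (1, 0) * c⁻¹) • (c • x') := by
    rw [hD (1, 0), smul_smul, mul_assoc, inv_mul_cancel₀ hc, mul_one]
  have hW : fderiv ℂ χ.σ p (0, 1) =
      c • fderiv ℂ χ'.σ (χ'.q (χ.σ p)) B + (c' (0, 1) * c⁻¹) • (c • x') := by
    rw [hD (0, 1), smul_smul, mul_assoc, inv_mul_cancel₀ hc, mul_one]
  have hcx : c • x' ∈ K := hK.smul_mem _ hx'K c hc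
  have h1 := Ω.add_smul (c • x') hcx _ _ (FormTrans_tan_smul hK htA hc)
    (FormTrans_tan_smul hK htB hc) (c' (1, 0) * c⁻¹) (c' (0, 1) * c⁻¹)
  have h2 := Ω.scale x' hx'K _ _ htA htB c hc
  have h3 := Ω.det x' hx'K _ _ (χ'.tan hK hτ hx'K (1, 0)) (χ'.tan hK hτ hx'K (0, 1))
    A.1 A.2 B.1 B.2
  rw [← FormTrans_pair, ← FormTrans_pair] at h3
  have h4 : aCoef Ω χ p = Ω.toFun (c • x') (c • fderiv ℂ χ'.σ (χ'.q (χ.σ p)) A)
      (c • fderiv ℂ χ'.σ (χ'.q (χ.σ p)) B) := by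
    rw [← h1, ← hV, ← hW, ← hx]
    rfl
  rw [h4, h2, h3]
  have h5 : jac (fun y => χ'.q (χ.σ y)) p = A.1 * B.2 - A.2 * B.1 := by
    show A.1 * B.2 - B.1 * A.2 = _
    ring
  rw [h5]
  rfl

theorem ACoef_trans (hX : IsCone X) (hK : IsOpenPart X K) (hm : 1 ≤ m) (Ω : Form K m j)
    (χ χ' : Chart X) {p : ℂ × ℂ} (hp : p ∈ ball (0 : ℂ × ℂ) 2) (hpK : χ.σ p ∈ K)
    (hU : χ.σ p ∈ χ'.U) :
    ACoef Ω χ p = ‖jac (fun y => χ'.q (χ.σ y)) p‖ * ACoef Ω χ' (χ'.q (χ.σ p)) := by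
  obtain ⟨c, hc, hx, hcoef⟩ := FormTrans_coef hX hK Ω χ χ' hp hpK hU
  have hmR : (0 : ℝ) < (m : ℝ) := by exact_mod_cast hm
  have hcn : 0 < ‖c‖ := norm_pos_iff.2 hc
  have hnorm : ‖c‖ ^ j * ‖aCoef Ω χ p‖ =
      ‖jac (fun y => χ'.q (χ.σ y)) p‖ ^ m * ‖aCoef Ω χ' (χ'.q (χ.σ p))‖ := by
    have h1 := congrArg norm hcoef
    rw [norm_mul, norm_mul, norm_pow, norm_pow] at h1
    exact h1
  have hroot : (‖c‖ ^ j * ‖aCoef Ω χ p‖) ^ (1 / (m : ℝ)) =
      (‖jac (fun y => χ'.q (χ.σ y)) p‖ ^ m * ‖aCoef Ω χ' (χ'.q (χ.σ p))‖) ^ (1 / (m : ℝ)) := by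
    rw [hnorm]
  rw [Real.mul_rpow (by positivity) (norm_nonneg _), Real.mul_rpow (by positivity) (norm_nonneg _),
    ← Real.rpow_natCast ‖c‖ j, ← Real.rpow_natCast ‖jac (fun y => χ'.q (χ.σ y)) p‖ m,
    ← Real.rpow_mul hcn.le, ← Real.rpow_mul (norm_nonneg _)] at hroot
  have h1 : (m : ℝ) * (1 / (m : ℝ)) = 1 := by
    field_simp
  have h2 : (j : ℝ) * (1 / (m : ℝ)) = (j : ℝ) / m := by ring
  rw [h1, h2, Real.rpow_one] at hroot
  unfold ACoef
  have h3 : ‖χ.σ p‖ = ‖c‖ * ‖χ'.σ (χ'.q (χ.σ p))‖ := by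
    conv_lhs => rw [hx]
    rw [norm_smul]
  rw [h3, Real.mul_rpow hcn.le (norm_nonneg _)]
  calc ‖aCoef Ω χ p‖ ^ (1 / (m : ℝ)) * (‖c‖ ^ ((j : ℝ) / m) * ‖χ'.σ (χ'.q (χ.σ p))‖ ^ ((j : ℝ) / m))
      = (‖c‖ ^ ((j : ℝ) / m) * ‖aCoef Ω χ p‖ ^ (1 / (m : ℝ))) *
          ‖χ'.σ (χ'.q (χ.σ p))‖ ^ ((j : ℝ) / m) := by ring
    _ = ‖jac (fun y => χ'.q (χ.σ y)) p‖ * ‖aCoef Ω χ' (χ'.q (χ.σ p))‖ ^ (1 / (m : ℝ)) *
          ‖χ'.σ (χ'.q (χ.σ p))‖ ^ ((j : ℝ) / m) := by rw [hroot]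
    _ = _ := by ring

end Pool.Agent.H14.PP

end

section

/-!
# BPm GDef: the metric

`nearG i` is the metric of the chart `χ i`, restricted to `‖q‖ ≤ 1`, `rho ≤ δ`;
`pieceG none` is the far piece, `pieceG (some i) = c₁ * nearG i`, `GG` the maximum of the pieces (a
supremum over the finite nonempty type `Option (Fin n)`).
-/

open Topology Filter Metric

namespace Pool.Agent.H14.PP

open Pool.Agent.H36.BP

variable {N : ℕ} {W : Type*} [NormedAddCommGroup W] [InnerProductSpace ℂ W]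
  {X K T : Set (EN N)} {m j : ℕ}

section defs

variable (Ω : Form K m j) {n : ℕ} (χ : Fin n → Chart X) (nd : Fin n → Bool) (P : Par)
  (Q : EN N → W) (D M' : ℕ) (δ c₁ : ℝ)

open Classical in
/-- The metric of the chart `i`. -/
noncomputable def nearG (i : Fin n) (x v : EN N) : ℝ :=
  if x ∈ X ∧ x ∈ (χ i).U ∧ ‖(χ i).q x‖ ≤ 1 ∧ rho Q D x ≤ δ then
    ACoef Ω (χ i) ((χ i).q x) * pM (nd i) P ((χ i).q x) (fderiv ℂ (χ i).q x v)
  else 0

/-- The pieces. -/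
noncomputable def pieceG (k : Option (Fin n)) (x v : EN N) : ℝ :=
  match k with
  | none => rho Q D x ^ M' * fs x v
  | some i => c₁ * nearG Ω χ nd P Q D δ i x v

/-- The metric. -/
noncomputable def GG (x v : EN N) : ℝ := ⨆ k, pieceG Ω χ nd P Q D M' δ c₁ k x v

end defs

variable {Ω : Form K m j} {n : ℕ} {χ : Fin n → Chart X} {nd : Fin n → Bool} {P : Par}
  {Q : EN N → W} {D M' : ℕ} {δ c₁ : ℝ}

theorem pieceG_le_GG (k : Option (Fin n)) (x v : EN N) :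
    pieceG Ω χ nd P Q D M' δ c₁ k x v ≤ GG Ω χ nd P Q D M' δ c₁ x v :=
  le_ciSup (f := fun k => pieceG Ω χ nd P Q D M' δ c₁ k x v) (Set.finite_range _).bddAbove k

theorem exists_GG_eq (x v : EN N) :
    ∃ k, GG Ω χ nd P Q D M' δ c₁ x v = pieceG Ω χ nd P Q D M' δ c₁ k x v := by
  obtain ⟨k, hk⟩ := exists_eq_ciSup_of_finite (f := fun k => pieceG Ω χ nd P Q D M' δ c₁ k x v)
  exact ⟨k, hk.symm⟩

theorem nearG_of_mem {i : Fin n} {x : EN N} (h1 : x ∈ X) (h2 : x ∈ (χ i).U)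
    (h3 : ‖(χ i).q x‖ ≤ 1) (h4 : rho Q D x ≤ δ) (v : EN N) : nearG Ω χ nd P Q D δ i x v =
      ACoef Ω (χ i) ((χ i).q x) * pM (nd i) P ((χ i).q x) (fderiv ℂ (χ i).q x v) := by
  unfold nearG
  rw [if_pos ⟨h1, h2, h3, h4⟩]

theorem mem_of_nearG_pos {i : Fin n} {x v : EN N} (h : 0 < nearG Ω χ nd P Q D δ i x v) :
    x ∈ X ∧ x ∈ (χ i).U ∧ ‖(χ i).q x‖ ≤ 1 ∧ rho Q D x ≤ δ := by
  unfold nearG at h
  split_ifs at h with h1
  · exact h1
  · exact absurd h (lt_irrefl 0)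

theorem GG_nonneg (x v : EN N) : 0 ≤ GG Ω χ nd P Q D M' δ c₁ x v :=
  (mul_nonneg (pow_nonneg (rho_nonneg _ _ _) _) (fs_nonneg x v)).trans
    (pieceG_le_GG (Ω := Ω) (χ := χ) (nd := nd) (P := P) (Q := Q) (D := D) (M' := M') (δ := δ)
      (c₁ := c₁) none x v)

end Pool.Agent.H14.PP

end

section

/-!
# BPm TECompact: uniform estimates for the changes of charts at the boundary of a chart

`χ i` (`i : Fin n`) are charts of types `nd i`; every point of `T` lies in the inner part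
(`‖q‖ < 1/2`) of some chart. Fix `i` and an orientation `b` (`b = true` only if `nd i = true`), let
`χ₁ = (χ i).orient b`, of type `nd i` (`hasType_orient`). For every `t₀` with `‖t₀‖ = 1` the point
`χ₁.σ (0, t₀)` is in `T`, so there is `k` with `χ₁.σ (0,t₀) ∈ (χ k).U`,
`‖(χ k).q (χ₁.σ (0,t₀))‖ < 1/2`. If `nd k = false` let `b' = false`: the first coordinate of
`(χ k).q (χ₁.σ (0,t))` vanishes for `t` near `t₀` (type `false`, `T` is a cone and
`χ₁.σ (0,t) = c • (χ k).σ (..)`). If `nd k = true`: by `not_node` (for `χ₁` and `χ k`) the point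
`q' = (χ k).q (χ₁.σ (0,t₀))` is not `0`, and one of its coordinates is `0`: choose `b'` such that the
first coordinate of `ori b' q'` is `0`, the second is not; by continuity the first coordinate of
`ori b' ((χ k).q (χ₁.σ (0,t)))` vanishes for `t` near `t₀` (the product does, the second does not).
`TE_local` (with `jac_ne_zero` for `χ₁` and `χ₂ = (χ k).orient b'`, note `χ₂.q = ori b' ∘ (χ k).q`)
gives a constant `C` and a neighbourhood of `(0,t₀)` on which `TEmap C τ` holds, `τ = χ₂.q ∘ χ₁.σ`;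
shrink it so that also `χ₁.σ y ∈ (χ k).U`, `‖τ y‖ < 1/2` and (if `nd k = true`)
`‖(τ y).2‖ ≥ C⁻¹`, after enlarging `C` (`TE.mono`). The circle `{(0,t₀) | ‖t₀‖ = 1}` is compact:
finitely many neighbourhoods cover it, hence also all `(s,t)` with `‖t‖ = 1`, `‖s‖ ≤ r` for some
`r > 0` (compactness; e.g. `IsCompact.exists_thickening_subset_open` or the generalized tube lemma).
Take the maximum of the constants over the finitely many neighbourhoods, over `i` and `b`, and the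
minimum of the `r`.
-/

open Topology Filter Metric

namespace Pool.Agent.H14.PP

open Pool.Agent.H36.BP

variable {N : ℕ} {X K T : Set (EN N)}

/-- The change from the chart `χ` to the chart `χ'` (of type `nd'`) is `C`-controlled at the
point `p`. -/
def Transition (C : ℝ) (χ χ' : Chart X) (nd' : Bool) (p : ℂ × ℂ) : Prop :=
  χ.σ p ∈ χ'.U ∧ ‖χ'.q (χ.σ p)‖ < 1 / 2 ∧ TEmap C (fun y => χ'.q (χ.σ y)) p ∧
    (nd' = true → C⁻¹ ≤ ‖(χ'.q (χ.σ p)).2‖)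

private theorem Transition.mono {C C' : ℝ} (hC : 1 ≤ C) (hCC : C ≤ C') {χ χ' : Chart X}
    {nd' : Bool} {p : ℂ × ℂ} (h : Transition C χ χ' nd' p) : Transition C' χ χ' nd' p :=
  ⟨h.1, h.2.1, TE.mono hC hCC h.2.2.1, fun hn =>
    (inv_anti₀ (by linarith) hCC).trans (h.2.2.2 hn)⟩

private theorem TECompact_aux (hX : IsCone X) (χ₁ χ₂ : Chart X) {t₀ : ℂ} (ht₀ : ‖t₀‖ = 1)
    (hU : χ₁.σ (0, t₀) ∈ χ₂.U) (hq : ‖χ₂.q (χ₁.σ (0, t₀))‖ < 1 / 2)
    (h0 : ∀ᶠ t in 𝓝 t₀, (χ₂.q (χ₁.σ (0, t))).1 = 0) (nd₂ : Bool)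
    (hnd : nd₂ = true → (χ₂.q (χ₁.σ (0, t₀))).2 ≠ 0) :
    ∃ C : ℝ, 1 ≤ C ∧ ∀ᶠ p in 𝓝 ((0 : ℂ), t₀), Transition C χ₁ χ₂ nd₂ p := by
  have hp : ((0 : ℂ), t₀) ∈ ball (0 : ℂ × ℂ) 2 := by
    rw [mem_ball_zero_iff, Prod.norm_def]
    simp only [norm_zero, ht₀]
    norm_num
  have hσ : AnalyticAt ℂ χ₁.σ (0, t₀) := χ₁.σ_an _ hp
  have hτ : AnalyticAt ℂ (fun y => χ₂.q (χ₁.σ y)) (0, t₀) := (χ₂.q_an _ hU).comp hσ
  have hJ := jac_ne_zero hX χ₁ χ₂ hp hU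
  obtain ⟨C₁, hC₁, hTE⟩ := TE_local hτ hJ h0
  set a : ℝ := ‖(χ₂.q (χ₁.σ (0, t₀))).2‖ with ha
  set C : ℝ := max C₁ (2 / a) with hC
  have hC1 : C₁ ≤ C := le_max_left _ _
  have hC2 : 2 / a ≤ C := le_max_right _ _
  have hτc : ContinuousAt (fun y => χ₂.q (χ₁.σ y)) (0, t₀) := hτ.continuousAt
  have e1 : ∀ᶠ p in 𝓝 ((0 : ℂ), t₀), χ₁.σ p ∈ χ₂.U :=
    hσ.continuousAt.eventually (χ₂.isOpen_U.mem_nhds hU)
  have e2 : ∀ᶠ p in 𝓝 ((0 : ℂ), t₀), ‖χ₂.q (χ₁.σ p)‖ < 1 / 2 :=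
    hτc.norm.eventually (Iio_mem_nhds hq)
  have e3 : ∀ᶠ p in 𝓝 ((0 : ℂ), t₀), nd₂ = true → C⁻¹ ≤ ‖(χ₂.q (χ₁.σ p)).2‖ := by
    by_cases hn : nd₂ = true
    · have ha0 : 0 < a := norm_pos_iff.2 (hnd hn)
      have hc2 : ContinuousAt (fun y => ‖(χ₂.q (χ₁.σ y)).2‖) (0, t₀) := hτc.snd.norm
      have h1 : ∀ᶠ p in 𝓝 ((0 : ℂ), t₀), a / 2 < ‖(χ₂.q (χ₁.σ p)).2‖ :=
        hc2.eventually (Ioi_mem_nhds (show a / 2 < ‖(χ₂.q (χ₁.σ (0, t₀))).2‖ by rw [← ha]; linarith))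
      filter_upwards [h1] with p hp _
      have h2 : C⁻¹ ≤ (2 / a)⁻¹ := inv_anti₀ (by positivity) hC2
      rw [inv_div] at h2
      exact h2.trans hp.le
    · exact Filter.Eventually.of_forall fun p h => absurd h hn
  refine ⟨C, hC₁.trans hC1, ?_⟩
  filter_upwards [e1, e2, e3, hTE] with p h1 h2 h3 h4
  exact ⟨h1, h2, TE.mono hC₁ hC1 h4, h3⟩

private theorem TECompact_local (hX : IsCone X) (hT : ∀ x ∈ T, ∀ c : ℂ, c ≠ 0 → c • x ∈ T)
    (χ₁ χ₂ : Chart X) {nd₁ nd₂ : Bool} (h₁ : HasType T χ₁ nd₁) (h₂ : HasType T χ₂ nd₂) {t₀ : ℂ}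
    (ht₀ : ‖t₀‖ = 1) (hU : χ₁.σ (0, t₀) ∈ χ₂.U) (hq : ‖χ₂.q (χ₁.σ (0, t₀))‖ < 1 / 2) :
    ∃ b' : Bool, (b' = true → nd₂ = true) ∧ ∃ C : ℝ, 1 ≤ C ∧
      ∀ᶠ p in 𝓝 ((0 : ℂ), t₀), Transition C χ₁ (χ₂.orient b') nd₂ p := by
  have hp : ((0 : ℂ), t₀) ∈ ball (0 : ℂ × ℂ) 2 := by
    rw [mem_ball_zero_iff, Prod.norm_def]
    simp only [norm_zero, ht₀]
    norm_num
  have hσ : AnalyticAt ℂ χ₁.σ (0, t₀) := χ₁.σ_an _ hp
  have hτ : AnalyticAt ℂ (fun y => χ₂.q (χ₁.σ y)) (0, t₀) := (χ₂.q_an _ hU).comp hσ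
  have hτc : ContinuousAt (fun y => χ₂.q (χ₁.σ y)) (0, t₀) := hτ.continuousAt
  have hpt : Tendsto (fun t : ℂ => ((0 : ℂ), t)) (𝓝 t₀) (𝓝 ((0 : ℂ), t₀)) := by
    have hc : Continuous fun t : ℂ => ((0 : ℂ), t) := by fun_prop
    exact hc.tendsto t₀
  have eB : ∀ᶠ t in 𝓝 t₀, ((0 : ℂ), t) ∈ ball (0 : ℂ × ℂ) 2 :=
    hpt.eventually (isOpen_ball.mem_nhds hp)
  have eU : ∀ᶠ t in 𝓝 t₀, χ₁.σ ((0 : ℂ), t) ∈ χ₂.U :=
    hpt.eventually (hσ.continuousAt.eventually (χ₂.isOpen_U.mem_nhds hU))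
  have hkey : ∀ᶠ t in 𝓝 t₀, (χ₂.q (χ₁.σ (0, t))).1 = 0 ∨
      (nd₂ = true ∧ (χ₂.q (χ₁.σ (0, t))).2 = 0) := by
    filter_upwards [eB, eU] with t ht1 ht2
    have hxX := (χ₁.σ_mem _ ht1).1
    have hxT : χ₁.σ (0, t) ∈ T := (h₁ _ ht1).2 (Or.inl rfl)
    have h3 := (χ₂.sigma_mem_iff hxX ht2 hT).2 hxT
    exact (h₂ _ (χ₂.surj _ hxX ht2).1).1 h3
  have eF : χ₂.orient false = χ₂ := by simp [Chart.orient]
  have eT : χ₂.orient true = χ₂.swap := by simp [Chart.orient]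
  have ht0 : t₀ ≠ 0 := by
    rintro rfl
    norm_num at ht₀
  by_cases hn : nd₂ = true
  · by_cases h2 : (χ₂.q (χ₁.σ (0, t₀))).2 = 0
    · have h1 : (χ₂.q (χ₁.σ (0, t₀))).1 ≠ 0 := by
        intro h1
        have hnn := not_node hX hT χ₁ χ₂ h₁ (hn ▸ h₂) (t₀ := t₀) (by rw [ht₀]; norm_num)
          (fun _ => ht0) hU
        exact hnn (Prod.ext h1 h2)
      refine ⟨true, fun _ => hn, ?_⟩
      rw [eT]
      have hne : ∀ᶠ t in 𝓝 t₀, (χ₂.q (χ₁.σ (0, t))).1 ≠ 0 :=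
        hpt.eventually (hτc.fst.eventually_ne h1)
      refine TECompact_aux hX χ₁ χ₂.swap ht₀ hU ?_ ?_ nd₂ (fun _ => h1)
      · have hsw : ‖(χ₂.q (χ₁.σ (0, t₀))).swap‖ = ‖χ₂.q (χ₁.σ (0, t₀))‖ := by
          rw [Prod.norm_def, Prod.norm_def, max_comm]
          rfl
        show ‖(χ₂.q (χ₁.σ (0, t₀))).swap‖ < 1 / 2
        rw [hsw]
        exact hq
      · filter_upwards [hkey, hne] with t ht1 ht2
        rcases ht1 with ht1 | ht1
        · exact absurd ht1 ht2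
        · exact ht1.2
    · refine ⟨false, fun h => absurd h (by decide), ?_⟩
      rw [eF]
      have hne : ∀ᶠ t in 𝓝 t₀, (χ₂.q (χ₁.σ (0, t))).2 ≠ 0 :=
        hpt.eventually (hτc.snd.eventually_ne h2)
      refine TECompact_aux hX χ₁ χ₂ ht₀ hU hq ?_ nd₂ (fun _ => h2)
      filter_upwards [hkey, hne] with t ht1 ht2
      rcases ht1 with ht1 | ht1
      · exact ht1
      · exact absurd ht1.2 ht2
  · refine ⟨false, fun h => absurd h (by decide), ?_⟩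
    rw [eF]
    refine TECompact_aux hX χ₁ χ₂ ht₀ hU hq ?_ nd₂ (fun h => absurd h hn)
    filter_upwards [hkey] with t ht1
    rcases ht1 with ht1 | ht1
    · exact ht1
    · exact absurd ht1.1 hn

private theorem TECompact_one (hX : IsCone X) (hT : ∀ x ∈ T, ∀ c : ℂ, c ≠ 0 → c • x ∈ T) {n : ℕ}
    (χ : Fin n → Chart X) (nd : Fin n → Bool) (h : ∀ i, HasType T (χ i) (nd i))
    (hcov : ∀ x ∈ T, ∃ i, x ∈ (χ i).U ∧ ‖(χ i).q x‖ < 1 / 2) (i : Fin n) (b : Bool)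
    (hb : b = true → nd i = true) :
    ∃ C r : ℝ, 1 ≤ C ∧ 0 < r ∧ ∀ p : ℂ × ℂ, ‖p.2‖ = 1 → ‖p.1‖ ≤ r →
        ∃ (k : Fin n) (b' : Bool), (b' = true → nd k = true) ∧
          Transition C ((χ i).orient b) ((χ k).orient b') (nd k) p := by
  have h₁ := hasType_orient (h i) hb
  set G : ℝ → ℂ × ℂ → Prop := fun C p => ∃ (k : Fin n) (b' : Bool), (b' = true → nd k = true) ∧
    Transition C ((χ i).orient b) ((χ k).orient b') (nd k) p with hG
  have hmonoG : ∀ C C' : ℝ, 1 ≤ C → C ≤ C' → ∀ p, G C p → G C' p := by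
    rintro C C' hC hCC p ⟨k, b', hb', hk⟩
    exact ⟨k, b', hb', hk.mono hC hCC⟩
  set S : Set (ℂ × ℂ) := ({0} : Set ℂ) ×ˢ sphere (0 : ℂ) 1 with hS
  have hSc : IsCompact S := isCompact_singleton.prod (isCompact_sphere _ _)
  have hloc : ∀ x ∈ S, ∃ C : ℝ, 1 ≤ C ∧ ∀ᶠ p in 𝓝 x, G C p := by
    rintro ⟨s, t₀⟩ ⟨hs, ht⟩
    have hs' : s = 0 := hs
    subst hs'
    have ht₀ : ‖t₀‖ = 1 := by
      have h3 : t₀ ∈ sphere (0 : ℂ) 1 := ht
      rwa [mem_sphere_zero_iff_norm] at h3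
    have hp : ((0 : ℂ), t₀) ∈ ball (0 : ℂ × ℂ) 2 := by
      rw [mem_ball_zero_iff, Prod.norm_def]
      simp only [norm_zero, ht₀]
      norm_num
    obtain ⟨k, hk1, hk2⟩ := hcov _ ((h₁ _ hp).2 (Or.inl rfl))
    obtain ⟨b', hb', C, hC, hev⟩ := TECompact_local hX hT _ _ h₁ (h k) ht₀ hk1 hk2
    exact ⟨C, hC, hev.mono fun p hp => ⟨k, b', hb', hp⟩⟩
  have hmain : ∃ C : ℝ, 1 ≤ C ∧ ∀ᶠ p in 𝓝ˢ S, G C p := by
    refine hSc.induction_on (p := fun s => ∃ C : ℝ, 1 ≤ C ∧ ∀ᶠ p in 𝓝ˢ s, G C p) ?_ ?_ ?_ ?_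
    · exact ⟨1, le_rfl, by simp⟩
    · rintro s t hst ⟨C, hC, hev⟩
      exact ⟨C, hC, hev.filter_mono (nhdsSet_mono hst)⟩
    · rintro s t ⟨C, hC, hev⟩ ⟨C', hC', hev'⟩
      refine ⟨max C C', hC.trans (le_max_left _ _), ?_⟩
      rw [nhdsSet_union, eventually_sup]
      exact ⟨hev.mono fun p hp => hmonoG _ _ hC (le_max_left _ _) p hp,
        hev'.mono fun p hp => hmonoG _ _ hC' (le_max_right _ _) p hp⟩
    · intro x hx
      obtain ⟨C, hC, hev⟩ := hloc x hx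
      obtain ⟨O, hO1, hO2, hO3⟩ := _root_.eventually_nhds_iff.1 hev
      refine ⟨O, mem_nhdsWithin_of_mem_nhds (hO2.mem_nhds hO3), C, hC, ?_⟩
      rw [hO2.nhdsSet_eq]
      exact eventually_principal.2 hO1
  obtain ⟨C, hC, hev⟩ := hmain
  obtain ⟨O, hO1, hO2, hO3⟩ := mem_nhdsSet_iff_exists.1 hev
  obtain ⟨δ, hδ, hδO⟩ := hSc.exists_thickening_subset_open hO1 hO2
  refine ⟨C, δ / 2, hC, by positivity, fun p hp1 hp2 => ?_⟩
  have hpO : p ∈ O := by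
    refine hδO ?_
    rw [mem_thickening_iff]
    refine ⟨(0, p.2), ⟨rfl, by rw [mem_sphere_zero_iff_norm]; exact hp1⟩, ?_⟩
    rw [Prod.dist_eq]
    simp only [dist_self, dist_zero_right]
    rw [max_lt_iff]
    exact ⟨by linarith, hδ⟩
  exact hO3 hpO

theorem exists_transition (hX : IsCone X) (hT : ∀ x ∈ T, ∀ c : ℂ, c ≠ 0 → c • x ∈ T) {n : ℕ}
    (χ : Fin n → Chart X) (nd : Fin n → Bool) (h : ∀ i, HasType T (χ i) (nd i))
    (hcov : ∀ x ∈ T, ∃ i, x ∈ (χ i).U ∧ ‖(χ i).q x‖ < 1 / 2) :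
    ∃ C r : ℝ, 1 ≤ C ∧ 0 < r ∧ ∀ (i : Fin n) (b : Bool), (b = true → nd i = true) →
      ∀ p : ℂ × ℂ, ‖p.2‖ = 1 → ‖p.1‖ ≤ r →
        ∃ (k : Fin n) (b' : Bool), (b' = true → nd k = true) ∧
          Transition C ((χ i).orient b) ((χ k).orient b') (nd k) p := by
  have hone : ∀ ib : Fin n × Bool, ∃ C r : ℝ, 1 ≤ C ∧ 0 < r ∧ ((ib.2 = true → nd ib.1 = true) →
      ∀ p : ℂ × ℂ, ‖p.2‖ = 1 → ‖p.1‖ ≤ r →
        ∃ (k : Fin n) (b' : Bool), (b' = true → nd k = true) ∧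
          Transition C ((χ ib.1).orient ib.2) ((χ k).orient b') (nd k) p) := by
    rintro ⟨i, b⟩
    by_cases hb : b = true → nd i = true
    · obtain ⟨C, r, hC, hr, hall⟩ := TECompact_one hX hT χ nd h hcov i b hb
      exact ⟨C, r, hC, hr, fun _ => hall⟩
    · exact ⟨1, 1, le_rfl, one_pos, fun hb' => absurd hb' hb⟩
  choose C r hC hr hall using hone
  obtain ⟨M, hM⟩ := Finite.exists_le C
  obtain ⟨M', hM'⟩ := Finite.exists_le fun ib => (r ib)⁻¹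
  refine ⟨max M 1, (max M' 1)⁻¹, le_max_right _ _, by positivity, fun i b hb p hp1 hp2 => ?_⟩
  have hr' : (max M' 1)⁻¹ ≤ r (i, b) := by
    rw [inv_le_comm₀ (by positivity) (hr _)]
    exact (hM' (i, b)).trans (le_max_left _ _)
  obtain ⟨k, b', hb', hk⟩ := hall (i, b) hb p hp1 (hp2.trans hr')
  exact ⟨k, b', hb', hk.mono (hC _) ((hM (i, b)).trans (le_max_left _ _))⟩

end Pool.Agent.H14.PP

end

section

/-!
# BPm FarSub: lower supports for the far piece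

`rho Q D (F z)^M' * fs (F z) (F' z) * ‖F z‖^(-c₀) =
  ‖Q (F z)‖^M' * ‖F z‖^(-(M' D)) * fs (F z) (F' z) * ‖F z‖^(-c₀)`.
`‖Q (F z)‖` has coefficient `≥ 0`: the norm of an analytic function with values in an inner product
space which does not vanish at `z₀`; lower support `z ↦ ⟪e, Q (F z)⟫`, `e = Q (F z₀)/‖Q (F z₀)‖`
(Cauchy–Schwarz), `M'` factors (`Sub.rpow` or induction);
`‖F‖^(-(M' D))` has `-(M' D) e^2/2`, `fs` has `-e^2`, `‖F‖^(-c₀)` has `-c₀ e^2/2` (`Sub.norm_rpow`,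
`Sub.fs_curve`), `e = fs (F z₀) (F' z₀)`.
-/

open Topology Filter Metric

namespace Pool.Agent.H14.PP

open Pool.Agent.H36.BP

variable {N : ℕ} {W : Type*} [NormedAddCommGroup W] [InnerProductSpace ℂ W]
  {X K T : Set (EN N)} {Q : EN N → W} {D M' : ℕ}

/-- The norm of a holomorphic function with values in an inner product space. -/
private theorem FarSub_norm {G : ℂ → W} {z₀ : ℂ} (hG : AnalyticAt ℂ G z₀) (h0 : G z₀ ≠ 0) :
    Sub (fun z => ‖G z‖) z₀ 0 := by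
  have hn : ‖G z₀‖ ≠ 0 := norm_ne_zero_iff.2 h0
  set e : W := ((‖G z₀‖ : ℂ)⁻¹) • G z₀ with he
  have hen : ‖e‖ = 1 := by
    rw [he, norm_smul, norm_inv, Complex.norm_real, norm_norm, inv_mul_cancel₀ hn]
  have hk : AnalyticAt ℂ (fun z => (inner ℂ e (G z) : ℂ)) z₀ := by
    have h1 : AnalyticAt ℂ (fun w : W => innerSL ℂ e w) (G z₀) := (innerSL ℂ e).analyticAt _
    exact h1.comp hG
  have hk0 : ‖(inner ℂ e (G z₀) : ℂ)‖ = ‖G z₀‖ := by
    rw [he, inner_smul_left, inner_self_eq_norm_sq_to_K, norm_mul, norm_pow]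
    simp only [map_inv₀, norm_inv]
    rw [RCLike.norm_conj]
    simp only [Complex.norm_real, norm_norm, Complex.coe_algebraMap]
    field_simp
  have hkne : (inner ℂ e (G z₀) : ℂ) ≠ 0 := by
    rw [← norm_ne_zero_iff, hk0]
    exact hn
  refine (Sub.of_holo hk hkne).mono hk0 (Filter.Eventually.of_forall fun z => ?_)
  calc ‖(inner ℂ e (G z) : ℂ)‖ ≤ ‖e‖ * ‖G z‖ := norm_inner_le_norm _ _
    _ = ‖G z‖ := by rw [hen, one_mul]

theorem sub_far (hX : IsCone X) (hQ : ∀ x, AnalyticAt ℂ Q x) {F : ℂ → EN N} {z₀ : ℂ}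
    (hF : CurveAt X F z₀) (h0 : 0 < rho Q D (F z₀)) (h1 : 0 < fs (F z₀) (deriv F z₀)) {c₀ : ℝ}
    (hc₀ : 0 ≤ c₀) :
    Sub (fun z => rho Q D (F z) ^ M' * fs (F z) (deriv F z) * ‖F z‖ ^ (-c₀)) z₀
      (-((M' * D + 2 + c₀) * (fs (F z₀) (deriv F z₀) ^ 2 / 2))) := by
  have hF0 : F z₀ ≠ 0 := hX.ne_zero hF.mem
  have hQ0 : Q (F z₀) ≠ 0 := by
    intro h
    rw [rho, h, norm_zero, zero_div] at h0
    exact lt_irrefl _ h0
  have hQF : AnalyticAt ℂ (fun z => Q (F z)) z₀ := (hQ (F z₀)).comp hF.1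
  have s1 : Sub (fun z => ‖Q (F z)‖ ^ (M' : ℝ)) z₀ ((M' : ℝ) * 0) :=
    (FarSub_norm hQF hQ0).rpow (Nat.cast_nonneg M')
  have s2 := Sub.norm_rpow hF.1 hF0 (-((M' : ℝ) * D + c₀))
  have s3 := Sub.fs_curve hF.1 h1
  have s := (s1.mul s2).mul s3
  refine (s.congr ?_).anti (le_of_eq (by ring))
  filter_upwards [hF.2] with z hz
  have hz0 : 0 < ‖F z‖ := norm_pos_iff.2 (hX.ne_zero hz)
  rw [rho, div_pow, ← pow_mul, Real.rpow_natCast]
  have e1 : -((M' : ℝ) * D + c₀) = -((D * M' : ℕ) : ℝ) + -c₀ := by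
    push_cast
    ring
  rw [e1, Real.rpow_add hz0, Real.rpow_neg hz0.le, Real.rpow_natCast]
  field_simp

end Pool.Agent.H14.PP

end

section

/-!
# From the extension theorem for models to projective surfaces
-/

open Topology Filter MvPolynomial

noncomputable section

namespace Pool.Agent.H17BP

open Pool.Agent.H17 (PN VanishesAt ZariskiClosedIn HolomorphicInto puncturedDisc PseudoBrodyHyperbolic PseudoPicardHyperbolic)
open Pool.Agent.H62.FC (Homog)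
open Pool.Agent.H17R (openVar)

variable {N : ℕ} {P : Ideal (MvPolynomial (Fin (N + 1)) ℂ)}

/-- The affine cone of the projective variety, without the vertex. -/
def cone (P : Ideal (MvPolynomial (Fin (N + 1)) ℂ)) : Set (Fin (N + 1) → ℂ) :=
  {x | x ≠ 0 ∧ ∀ Q ∈ P, eval x Q = 0}

/-- The projective variety. -/
abbrev variety (P : Ideal (MvPolynomial (Fin (N + 1)) ℂ)) : Set (PN N) :=
  openVar P (Fin.elim0 : Fin 0 → MvPolynomial (Fin (N + 1)) ℂ)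

theorem rep_mk_fin {x : Fin (N + 1) → ℂ} (hx : x ≠ 0) :
    ∃ a : ℂ, a ≠ 0 ∧ (Projectivization.mk ℂ x hx).rep = a • x := by
  obtain ⟨a, ha⟩ := Projectivization.exists_smul_eq_mk_rep ℂ x hx
  exact ⟨a, a.ne_zero, by rw [← ha]; rfl⟩

theorem eval_smul_form {d : ℕ} {Q : MvPolynomial (Fin (N + 1)) ℂ} (hQ : Q.IsHomogeneous d) (c : ℂ)
    (x : Fin (N + 1) → ℂ) : eval (c • x) Q = c ^ d * eval x Q := by
  rw [MvPolynomial.eval_eq', MvPolynomial.eval_eq', Finset.mul_sum]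
  apply Finset.sum_congr rfl
  intro m hm
  have hdeg : ∑ i, m i = d := by
    have := hQ (MvPolynomial.mem_support_iff.1 hm)
    rw [Finsupp.weight_apply] at this
    simpa [Finsupp.sum_fintype] using this
  have h1 : ∏ i, (c • x) i ^ m i = c ^ d * ∏ i, x i ^ m i := by
    rw [← hdeg, ← Finset.prod_pow_eq_pow_sum, ← Finset.prod_mul_distrib]
    exact Finset.prod_congr rfl fun i _ => by simp [mul_pow]
  rw [h1]
  ring

theorem rep_mem_cone (hP : Homog P) {x : PN N} : x.rep ∈ cone P ↔ x ∈ variety P := by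
  constructor
  · rintro ⟨-, h2⟩
    exact ⟨fun Q hQ n _ => h2 Q hQ, fun m => m.elim0⟩
  · rintro ⟨h1, -⟩
    refine ⟨x.rep_nonzero, fun Q hQ => ?_⟩
    rw [← MvPolynomial.sum_homogeneousComponent Q, map_sum]
    exact Finset.sum_eq_zero fun i _ => h1 _ (hP Q hQ i) i (homogeneousComponent_isHomogeneous i Q)

theorem mk_mem_variety (hP : Homog P) {x : Fin (N + 1) → ℂ} (hx : x ≠ 0)
    (hX : ∀ x ∈ cone P, ∀ c : ℂ, c ≠ 0 → c • x ∈ cone P) :
    Projectivization.mk ℂ x hx ∈ variety P ↔ x ∈ cone P := by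
  rw [← rep_mem_cone hP]
  obtain ⟨a, ha, h⟩ := rep_mk_fin hx
  rw [h]
  constructor
  · intro h1
    have h2 := hX _ h1 a⁻¹ (inv_ne_zero ha)
    rwa [smul_smul, inv_mul_cancel₀ ha, one_smul] at h2
  · intro h1
    exact hX _ h1 a ha

theorem vanishesAt_mk {d : ℕ} {Q : MvPolynomial (Fin (N + 1)) ℂ} (hQ : Q.IsHomogeneous d)
    {x : Fin (N + 1) → ℂ} (hx : x ≠ 0) : VanishesAt Q (Projectivization.mk ℂ x hx) ↔ eval x Q = 0 := by
  obtain ⟨a, ha, h⟩ := rep_mk_fin hx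
  unfold VanishesAt
  rw [h, eval_smul_form hQ, mul_eq_zero]
  exact ⟨fun h => h.resolve_left (pow_ne_zero _ ha), Or.inr⟩

theorem holP_rep {f : ℂ → PN N} {U : Set ℂ} (hf : HolomorphicInto f U) {z₀ : ℂ} (hz : z₀ ∈ U) :
    HolP (fun z => (f z).rep) z₀ := by
  obtain ⟨φ, hφ, he⟩ := hf z₀ hz
  refine ⟨φ, hφ, he.self_of_nhds.1, ?_⟩
  filter_upwards [he] with z hz'
  obtain ⟨h1, h2⟩ := hz'
  obtain ⟨a, ha, h3⟩ := rep_mk_fin h1
  exact ⟨a, ha, by rw [h2, h3]⟩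

theorem Pr.mk_eq {x y : Fin (N + 1) → ℂ} (h : Pr x y) (hx : x ≠ 0) (hy : y ≠ 0) :
    Projectivization.mk ℂ x hx = Projectivization.mk ℂ y hy := by
  obtain ⟨c, hc, h⟩ := h
  rw [Projectivization.mk_eq_mk_iff']
  exact ⟨c, h.symm⟩

end Pool.Agent.H17BP

end
end

section

/-!
# Bir Map: composition of holomorphic maps with rational maps

* `exists_comp`: the composition of a holomorphic map `f` into `ℙ^M` with the rational map given by forms `γ i` of the same degree, not all of them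
  zero on `f`, is holomorphic: near every point divide the functions `γ i (φ z)` by their common zeros.
* `pn_identity`: the identity theorem for maps into projective space.
-/

set_option autoImplicit false

open Topology Filter Metric MvPolynomial

noncomputable section

namespace Pool.Agent.H7.Bir

open Pool.Agent.H17 (PN VanishesAt HolomorphicInto)

variable {N M : ℕ}

/-- The values of the forms `γ i` at `x`. -/
def vals (γ : Fin (N + 1) → MvPolynomial (Fin (M + 1)) ℂ) (x : Fin (M + 1) → ℂ) : Fin (N + 1) → ℂ := fun i => eval x (γ i)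

theorem vals_smul {γ : Fin (N + 1) → MvPolynomial (Fin (M + 1)) ℂ} {D : ℕ} (hγ : ∀ i, (γ i).IsHomogeneous D)
    (c : ℂ) (x : Fin (M + 1) → ℂ) : vals γ (c • x) = c ^ D • vals γ x := by
  funext i
  exact Pool.Agent.H17BP.eval_smul_form (hγ i) c x

/-- The rational map given by the forms `γ i` (arbitrary value where it is not defined). -/
def rmap (γ : Fin (N + 1) → MvPolynomial (Fin (M + 1)) ℂ) (x : PN M) : PN N :=
  open Classical in
  if h : vals γ x.rep ≠ 0 then Projectivization.mk ℂ _ h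
  else Projectivization.mk ℂ (fun _ => 1) fun h => one_ne_zero (congrFun h 0)

theorem rmap_mk {γ : Fin (N + 1) → MvPolynomial (Fin (M + 1)) ℂ} {D : ℕ} (hγ : ∀ i, (γ i).IsHomogeneous D)
    {x : Fin (M + 1) → ℂ} (hx : x ≠ 0) (h : vals γ x ≠ 0) :
    rmap γ (Projectivization.mk ℂ x hx) = Projectivization.mk ℂ (vals γ x) h := by
  obtain ⟨a, ha⟩ := Projectivization.exists_smul_eq_mk_rep ℂ x hx
  have h1 : (Projectivization.mk ℂ x hx).rep = (a : ℂ) • x := ha.symm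
  have h2 : vals γ (Projectivization.mk ℂ x hx).rep = (a : ℂ) ^ D • vals γ x := by
    rw [h1, vals_smul hγ]
  have h3 : vals γ (Projectivization.mk ℂ x hx).rep ≠ 0 := by
    rw [h2]
    exact smul_ne_zero (pow_ne_zero _ a.ne_zero) h
  unfold rmap
  rw [dif_pos h3, Projectivization.mk_eq_mk_iff']
  exact ⟨(a : ℂ) ^ D, h2.symm⟩

/-- The identity theorem for maps into projective space. -/
theorem pn_identity {f g : ℂ → PN N} {U : Set ℂ} (hUc : IsPreconnected U) (hf : HolomorphicInto f U) (hg : HolomorphicInto g U)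
    {z₀ : ℂ} (hz₀ : z₀ ∈ U) (h : ∀ᶠ z in 𝓝 z₀, f z = g z) : ∀ z ∈ U, f z = g z := by
  set A : Set ℂ := {z | ∀ᶠ w in 𝓝 z, f w = g w} with hA
  have hAo : IsOpen A := by
    rw [isOpen_iff_mem_nhds]
    intro z hz
    exact hz.eventually_nhds
  have hcl : closure A ∩ U ⊆ A := by
    rintro z ⟨hz1, hz2⟩
    obtain ⟨φ, hφ, he⟩ := hf z hz2
    obtain ⟨χ, hχ, he'⟩ := hg z hz2
    obtain ⟨r, hr, hr1⟩ := Metric.eventually_nhds_iff_ball.mp
      ((hφ.eventually_analyticAt.and hχ.eventually_analyticAt).and (he.and he'))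
    obtain ⟨z', hz'1, hz'2⟩ := mem_closure_iff_nhds.mp hz1 (ball z r) (ball_mem_nhds z hr)
    have hz'A : ∀ᶠ w in 𝓝 z', f w = g w := hz'2
    have hprop : ∀ i j, ∀ w ∈ ball z r, φ w i * χ w j - φ w j * χ w i = 0 := by
      intro i j
      have han : AnalyticOnNhd ℂ (fun w => φ w i * χ w j - φ w j * χ w i) (ball z r) := by
        intro w hw
        have h1 := analyticAt_pi_iff.mp (hr1 w hw).1.1
        have h2 := analyticAt_pi_iff.mp (hr1 w hw).1.2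
        exact ((h1 i).mul (h2 j)).sub ((h1 j).mul (h2 i))
      have h0 : (fun w => φ w i * χ w j - φ w j * χ w i) =ᶠ[𝓝 z'] 0 := by
        filter_upwards [hz'A, isOpen_ball.mem_nhds hz'1] with w hw1 hw2
        obtain ⟨⟨h1, h2⟩, h3, h4⟩ := (hr1 w hw2).2
        rw [h2, h4, Projectivization.mk_eq_mk_iff'] at hw1
        obtain ⟨a, ha⟩ := hw1
        simp only [← ha, Pi.smul_apply, smul_eq_mul, Pi.zero_apply]
        ring
      exact han.eqOn_zero_of_preconnected_of_eventuallyEq_zero (convex_ball z r).isPreconnected hz'1 h0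
    show ∀ᶠ w in 𝓝 z, f w = g w
    filter_upwards [ball_mem_nhds z hr] with w hw
    obtain ⟨⟨h1, h2⟩, h3, h4⟩ := (hr1 w hw).2
    rw [h2, h4, Projectivization.mk_eq_mk_iff']
    obtain ⟨j, hj⟩ : ∃ j, χ w j ≠ 0 := by
      by_contra hcon
      push Not at hcon
      exact h3 (funext hcon)
    refine ⟨φ w j / χ w j, ?_⟩
    funext i
    have h5 := hprop i j w hw
    simp only [Pi.smul_apply, smul_eq_mul]
    field_simp
    linear_combination -h5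
  have hAU : U ⊆ A := hUc.subset_of_closure_inter_subset hAo ⟨z₀, hz₀, h⟩ hcl
  intro z hz
  have h1 : ∀ᶠ w in 𝓝 z, f w = g w := hAU hz
  exact h1.self_of_nhds

end Pool.Agent.H7.Bir

end
end
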