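import Pool.Agent.H43.TL2.M14
import Pool.Agent.H43.TL2.M24
import Pool.Agent.H43.TL2.M26

/-! The parts of this file: H30M.Key, H17R.Point, H13.SM.Homog, H13.SM.Grad. -/

section

/-!
# The key inequality, the charge of a level region and the passes (one variable, abstract form)

Data: `L` of class `C²` with `0 ≤ Δ L`, `g` entire, not `0`, `‖g‖ ≤ exp (d L)`, `u = log ‖g‖ - d L`.
-/

set_option autoImplicit false

open MeasureTheory Complex Set Filter Topology Laplacian InnerProductSpace Metric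

namespace Pool.Agent.H30M

/-- `I R = ∫ tau R * Δ L` -/
noncomputable def II (L : ℂ → ℝ) (R : ℝ) : ℝ := ∫ z, tau R z * Δ L z

/-- `u = log ‖g‖ - d L` -/
noncomputable def uu (L : ℂ → ℝ) (g : ℂ → ℂ) (d : ℝ) (z : ℂ) : ℝ := Real.log ‖g z‖ - d * L z

/-- `e^(2u)` -/
noncomputable def e2u (L : ℂ → ℝ) (g : ℂ → ℂ) (d : ℝ) (z : ℂ) : ℝ := ‖g z‖ ^ 2 * Real.exp (-(2 * d * L z))

/-- `e^(2u) |∇u|²` -/
noncomputable def GG (L : ℂ → ℝ) (g : ℂ → ℂ) (d : ℝ) (z : ℂ) : ℝ :=
  ‖deriv g z - d * g z * (⟨fderiv ℝ L z 1, - fderiv ℝ L z I⟩ : ℂ)‖ ^ 2 * Real.exp (-(2 * d * L z))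

/-- the charge density `K''(u) |∇u|²` for `K(u) = 1/2 log (e^(2u) + e^(2b))` -/
noncomputable def HH (L : ℂ → ℝ) (g : ℂ → ℂ) (d b : ℝ) (z : ℂ) : ℝ :=
  2 * Real.exp (2 * b) * GG L g d z / (e2u L g d z + Real.exp (2 * b)) ^ 2

/-- `K(u)` -/
noncomputable def KK (L : ℂ → ℝ) (g : ℂ → ℂ) (d b : ℝ) (z : ℂ) : ℝ := Real.log (e2u L g d z + Real.exp (2 * b)) / 2

theorem e2u_nonneg (L : ℂ → ℝ) (g : ℂ → ℂ) (d : ℝ) (z : ℂ) : 0 ≤ e2u L g d z := by unfold e2u; positivity

theorem GG_nonneg (L : ℂ → ℝ) (g : ℂ → ℂ) (d : ℝ) (z : ℂ) : 0 ≤ GG L g d z := by unfold GG; positivity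

theorem HH_nonneg (L : ℂ → ℝ) (g : ℂ → ℂ) (d b : ℝ) (z : ℂ) : 0 ≤ HH L g d b z := by
  unfold HH
  have := GG_nonneg L g d z
  positivity

section

variable {L : ℂ → ℝ} {g : ℂ → ℂ} {d : ℝ}

theorem e2u_eq {z : ℂ} (h : g z ≠ 0) : e2u L g d z = Real.exp (2 * uu L g d z) := by
  unfold e2u uu
  have hp : 0 < ‖g z‖ := norm_pos_iff.2 h
  have e : 2 * (Real.log ‖g z‖ - d * L z) = Real.log (‖g z‖ ^ 2) + (-(2 * d * L z)) := by
    rw [Real.log_pow]; push_cast; ring
  rw [e, Real.exp_add, Real.exp_log (by positivity)]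

theorem contDiff_g (hg : Differentiable ℂ g) : ContDiff ℝ 2 g := (hg.contDiff (n := 2)).restrict_scalars ℝ

theorem contDiff_KK (hL : ContDiff ℝ 2 L) (hg : Differentiable ℂ g) (b : ℝ) : ContDiff ℝ 2 (KK L g d b) := by
  have h1 : ContDiff ℝ 2 fun z => ‖g z‖ ^ 2 := (contDiff_g hg).norm_sq ℝ
  have h2 : ContDiff ℝ 2 fun z => Real.exp (-(2 * d * L z)) := ((contDiff_const.mul hL).neg).exp
  have h3 : ContDiff ℝ 2 fun z => e2u L g d z + Real.exp (2 * b) := (h1.mul h2).add contDiff_const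
  exact (h3.log fun z => by have := e2u_nonneg L g d z; positivity).div_const 2

theorem continuous_e2u (hL : ContDiff ℝ 2 L) (hg : Differentiable ℂ g) : Continuous (e2u L g d) := by
  unfold e2u
  have h1 := hL.continuous
  have h2 := hg.continuous
  fun_prop

theorem continuous_GG (hL : ContDiff ℝ 2 L) (hg : Differentiable ℂ g) : Continuous (GG L g d) := by
  unfold GG
  have h1 := hL.continuous
  have h2 := hg.continuous
  have h3 : Continuous (deriv g) := (hg.contDiff (n := 1)).continuous_deriv (by norm_num)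
  have h4 : Continuous fun z => fderiv ℝ L z 1 := (hL.continuous_fderiv (by norm_num)).clm_apply continuous_const
  have h5 : Continuous fun z => fderiv ℝ L z I := (hL.continuous_fderiv (by norm_num)).clm_apply continuous_const
  have h6 : Continuous fun z => (⟨fderiv ℝ L z 1, - fderiv ℝ L z I⟩ : ℂ) := by
    have e : (fun z => (⟨fderiv ℝ L z 1, - fderiv ℝ L z I⟩ : ℂ)) = fun z => ((fderiv ℝ L z 1 : ℝ) : ℂ) - (fderiv ℝ L z I : ℝ) * I := by
      funext z
      apply Complex.ext <;> simp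
    rw [e]
    exact (continuous_ofReal.comp h4).sub ((continuous_ofReal.comp h5).mul continuous_const)
  exact ((h3.sub ((continuous_const.mul h2).mul h6)).norm.pow 2).mul (by fun_prop)

theorem continuous_HH (hL : ContDiff ℝ 2 L) (hg : Differentiable ℂ g) (b : ℝ) : Continuous (HH L g d b) := by
  unfold HH
  refine (continuous_const.mul (continuous_GG hL hg)).div (((continuous_e2u hL hg).add continuous_const).pow 2) fun z => ?_
  have := e2u_nonneg L g d z
  positivity

theorem contDiffAt_uu (hL : ContDiff ℝ 2 L) (hg : Differentiable ℂ g) {z : ℂ} (h : g z ≠ 0) : ContDiffAt ℝ 2 (uu L g d) z :=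
  (contDiffAt_log_norm (hg.analyticAt z) h).sub (contDiffAt_const.mul hL.contDiffAt)

theorem GG_eq (hL : ContDiff ℝ 2 L) (hg : Differentiable ℂ g) {z : ℂ} (h : g z ≠ 0) :
    GG L g d z = e2u L g d z * gg (uu L g d) (uu L g d) z := by
  have hu : ∀ v : ℂ, fderiv ℝ (uu L g d) z v = (deriv g z / g z * v).re - d * fderiv ℝ L z v := by
    intro v
    have h1 : DifferentiableAt ℝ (fun z => Real.log ‖g z‖) z := (contDiffAt_log_norm (hg.analyticAt z) h).differentiableAt (by norm_num)
    have h2 : DifferentiableAt ℝ L z := hL.differentiable (by norm_num) z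
    have h3 : HasFDerivAt (uu L g d) (fderiv ℝ (fun z => Real.log ‖g z‖) z - d • fderiv ℝ L z) z :=
      h1.hasFDerivAt.sub (h2.hasFDerivAt.const_mul d)
    rw [h3.fderiv]
    simp only [sub_apply, smul_apply, smul_eq_mul]
    rw [fderiv_log_norm (hg z) h]
  unfold GG e2u gg
  rw [hu, hu]
  set a := fderiv ℝ L z 1
  set b := fderiv ℝ L z I
  have e1 : deriv g z - d * g z * (⟨a, -b⟩ : ℂ) = g z * (deriv g z / g z - d * (⟨a, -b⟩ : ℂ)) := by
    field_simp
  rw [e1, norm_mul, mul_pow]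
  have e2 : ‖deriv g z / g z - d * (⟨a, -b⟩ : ℂ)‖ ^ 2 = ((deriv g z / g z * 1).re - d * a) * ((deriv g z / g z * 1).re - d * a) +
      ((deriv g z / g z * I).re - d * b) * ((deriv g z / g z * I).re - d * b) := by
    rw [← Complex.normSq_eq_norm_sq, Complex.normSq_apply]
    simp only [sub_re, sub_im, mul_re, mul_im, ofReal_re, ofReal_im, I_re, I_im, one_re, one_im]
    ring
  rw [e2]
  ring

private theorem ky_phi (b t : ℝ) : HasDerivAt (fun t : ℝ => Real.log (Real.exp (2 * t) + Real.exp (2 * b)) / 2)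
    (Real.exp (2 * t) / (Real.exp (2 * t) + Real.exp (2 * b))) t := by
  have h1 : HasDerivAt (fun t : ℝ => Real.exp (2 * t)) (Real.exp (2 * t) * (2 * 1)) t :=
    ((hasDerivAt_id t).const_mul 2).exp
  have h2 := ((h1.add_const (Real.exp (2 * b))).log (by positivity)).div_const 2
  refine h2.congr_deriv ?_
  have : Real.exp (2 * t) + Real.exp (2 * b) ≠ 0 := by positivity
  field_simp

private theorem ky_phi2 (b t : ℝ) : HasDerivAt (fun t : ℝ => Real.exp (2 * t) / (Real.exp (2 * t) + Real.exp (2 * b)))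
    (2 * Real.exp (2 * b) * Real.exp (2 * t) / (Real.exp (2 * t) + Real.exp (2 * b)) ^ 2) t := by
  have h1 : HasDerivAt (fun t : ℝ => Real.exp (2 * t)) (Real.exp (2 * t) * (2 * 1)) t :=
    ((hasDerivAt_id t).const_mul 2).exp
  have h2 := h1.div (h1.add_const (Real.exp (2 * b))) (by positivity)
  refine h2.congr_deriv ?_
  ring

/-- **Laplacian of `K(u)`** -/
theorem lap_KK (hL : ContDiff ℝ 2 L) (hg : Differentiable ℂ g) (b : ℝ) {z : ℂ} (h : g z ≠ 0) :
    Δ (KK L g d b) z = HH L g d b z - e2u L g d z / (e2u L g d z + Real.exp (2 * b)) * (d * Δ L z) := by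
  set φ : ℝ → ℝ := fun t => Real.log (Real.exp (2 * t) + Real.exp (2 * b)) / 2 with hφ
  have hev : KK L g d b =ᶠ[𝓝 z] fun w => φ (uu L g d w) := by
    filter_upwards [hg.continuous.continuousAt.eventually_ne h] with w hw
    unfold KK
    rw [e2u_eq hw]
  have hφc : ContDiff ℝ 2 φ := by
    have h1 : ContDiff ℝ 2 fun t : ℝ => Real.exp (2 * t) + Real.exp (2 * b) :=
      ((contDiff_const.mul contDiff_id).exp).add contDiff_const
    exact (h1.log fun t => by positivity).div_const 2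
  have hu := contDiffAt_uu (d := d) hL hg h
  rw [lap_congr hev, lap_comp hφc.contDiffAt hu]
  have d1 : deriv φ = fun t => Real.exp (2 * t) / (Real.exp (2 * t) + Real.exp (2 * b)) := funext fun t => (ky_phi b t).deriv
  have d2 : deriv (deriv φ) (uu L g d z) = 2 * Real.exp (2 * b) * Real.exp (2 * uu L g d z) /
      (Real.exp (2 * uu L g d z) + Real.exp (2 * b)) ^ 2 := by
    rw [d1]; exact (ky_phi2 b _).deriv
  have hlu : Δ (uu L g d) z = - (d * Δ L z) := by
    have h1 := contDiffAt_log_norm (hg.analyticAt z) h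
    have h2 : ContDiffAt ℝ 2 (fun w => d * L w) z := contDiffAt_const.mul hL.contDiffAt
    have h3 : Δ (uu L g d) z = _ := lap_sub h1 h2
    rw [h3, lap_log_norm (hg.analyticAt z) h, lap_const_mul hL.contDiffAt]
    ring
  rw [hlu, d2, d1]
  unfold HH
  rw [GG_eq hL hg h, e2u_eq h]
  ring

theorem HH_eq (hL : ContDiff ℝ 2 L) (hg : Differentiable ℂ g) (b : ℝ) {z : ℂ} (h : g z ≠ 0) :
    HH L g d b z = 2 * Real.exp (2 * b) * Real.exp (2 * uu L g d z) /
      (Real.exp (2 * uu L g d z) + Real.exp (2 * b)) ^ 2 * gg (uu L g d) (uu L g d) z := by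
  unfold HH
  rw [GG_eq hL hg h, e2u_eq h]
  ring

theorem ae_ne_zero (hg : Differentiable ℂ g) (h0 : ∃ z, g z ≠ 0) : ∀ᵐ z : ℂ, g z ≠ 0 := by
  have hA : AnalyticOnNhd ℂ g univ := fun z _ => hg.analyticAt z
  obtain ⟨w, hw⟩ := h0
  have h1 : g ⁻¹' {0}ᶜ ∈ codiscreteWithin (univ : Set ℂ) := hA.preimage_zero_mem_codiscrete (x := w) hw
  have h2 := ae_restrict_le_codiscreteWithin (μ := (volume : Measure ℂ)) MeasurableSet.univ h1
  rw [Measure.restrict_univ] at h2
  exact h2

theorem e2u_le_one (hle : ∀ z, ‖g z‖ ≤ Real.exp (d * L z)) (z : ℂ) : e2u L g d z ≤ 1 := by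
  unfold e2u
  have h1 : ‖g z‖ ^ 2 ≤ Real.exp (d * L z) ^ 2 := pow_le_pow_left₀ (norm_nonneg _) (hle z) 2
  have h2 : Real.exp (d * L z) ^ 2 * Real.exp (-(2 * d * L z)) = 1 := by
    rw [← Real.exp_nat_mul, ← Real.exp_add]
    push_cast
    rw [show (2 : ℝ) * (d * L z) + -(2 * d * L z) = 0 by ring, Real.exp_zero]
  calc _ ≤ Real.exp (d * L z) ^ 2 * Real.exp (-(2 * d * L z)) := mul_le_mul_of_nonneg_right h1 (Real.exp_pos _).le
    _ = 1 := h2

theorem integrable_tau_mul {R : ℝ} (hR : 1 ≤ R) {f : ℂ → ℝ} (hf : Continuous f) : Integrable fun z => tau R z * f z :=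
  ((contDiff_tau R).continuous.mul hf).integrable_of_hasCompactSupport (hcs_tau hR).mul_right

theorem integrable_rhoR_mul {R : ℝ} (hR : 1 ≤ R) {f : ℂ → ℝ} (hf : Continuous f) : Integrable fun z => rhoR R z * f z :=
  ((continuous_rhoR R).mul hf).integrable_of_hasCompactSupport (hcs_rhoR hR).mul_right

theorem avg_le {R : ℝ} (hR : 1 ≤ R) {f : ℂ → ℝ} (hf : Continuous f) {M : ℝ} (h : ∀ z, f z ≤ M) : avg R f ≤ 2 * Real.pi * M := by
  unfold avg
  have h1 : Integrable (rhoR R) := (continuous_rhoR R).integrable_of_hasCompactSupport (hcs_rhoR hR)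
  calc ∫ z, rhoR R z * f z ≤ ∫ z, rhoR R z * M :=
        integral_mono (integrable_rhoR_mul hR hf) (h1.mul_const M) fun z => mul_le_mul_of_nonneg_left (h z) (rhoR_nonneg R z)
    _ = 2 * Real.pi * M := by rw [integral_mul_const, int_rhoR hR]

theorem le_avg {R : ℝ} (hR : 1 ≤ R) {f : ℂ → ℝ} (hf : Continuous f) {M : ℝ} (h : ∀ z, M ≤ f z) : 2 * Real.pi * M ≤ avg R f := by
  unfold avg
  have h1 : Integrable (rhoR R) := (continuous_rhoR R).integrable_of_hasCompactSupport (hcs_rhoR hR)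
  calc 2 * Real.pi * M = ∫ z, rhoR R z * M := by rw [integral_mul_const, int_rhoR hR]
    _ ≤ ∫ z, rhoR R z * f z :=
        integral_mono (h1.mul_const M) (integrable_rhoR_mul hR hf) fun z => mul_le_mul_of_nonneg_left (h z) (rhoR_nonneg R z)

/-- **The key inequality** -/
theorem key (hL : ContDiff ℝ 2 L) (hL0 : ∀ z, 0 ≤ Δ L z) (hg : Differentiable ℂ g) (h0 : ∃ z, g z ≠ 0) (hd : 0 ≤ d)
    (hle : ∀ z, ‖g z‖ ≤ Real.exp (d * L z)) (b : ℝ) {R : ℝ} (hR : 1 ≤ R) :
    ∫ z, tau R z * HH L g d b z ≤ d * II L R + 2 * Real.pi * (Real.log (1 + Real.exp (2 * b)) / 2 - b) := by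
  have hK := contDiff_KK (d := d) hL hg b
  have hcL := continuous_lap hL
  have hcK := continuous_lap hK
  have i1 := integrable_tau_mul hR (continuous_HH (d := d) hL hg b)
  have i2 := integrable_tau_mul hR hcK
  have i3 := integrable_tau_mul hR hcL
  have h1 : ∫ z, tau R z * HH L g d b z ≤ ∫ z, (tau R z * Δ (KK L g d b) z + d * (tau R z * Δ L z)) := by
    refine integral_mono_ae i1 (i2.add (i3.const_mul d)) ?_
    filter_upwards [ae_ne_zero hg h0] with z hz
    rw [lap_KK hL hg b hz]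
    have hq : e2u L g d z / (e2u L g d z + Real.exp (2 * b)) ≤ 1 := by
      rw [div_le_one (by have := e2u_nonneg L g d z; positivity)]
      have := Real.exp_pos (2 * b)
      linarith
    have ht := tau_nonneg hR z
    have hdL : 0 ≤ d * Δ L z := mul_nonneg hd (hL0 z)
    have h2 : e2u L g d z / (e2u L g d z + Real.exp (2 * b)) * (d * Δ L z) ≤ d * Δ L z := by nlinarith
    nlinarith [mul_nonneg ht (sub_nonneg.2 h2)]
  rw [integral_add i2 (i3.const_mul d), integral_const_mul, green_tau hR hK] at h1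
  have h3 : avg R (KK L g d b) ≤ 2 * Real.pi * (Real.log (1 + Real.exp (2 * b)) / 2) := by
    refine avg_le hR hK.continuous fun z => ?_
    unfold KK
    have := Real.log_le_log (by have := e2u_nonneg L g d z; positivity) (add_le_add_left (e2u_le_one hle z) (Real.exp (2 * b)))
    linarith
  have h4 : 2 * Real.pi * b ≤ avg 1 (KK L g d b) := by
    refine le_avg le_rfl hK.continuous fun z => ?_
    unfold KK
    have h5 : Real.log (Real.exp (2 * b)) ≤ Real.log (e2u L g d z + Real.exp (2 * b)) :=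
      Real.log_le_log (Real.exp_pos _) (by have := e2u_nonneg L g d z; linarith)
    rw [Real.log_exp] at h5
    linarith
  unfold II
  linarith

private theorem ky_kap {t : ℝ} (h1 : -1 ≤ t) (h2 : t ≤ 1) : 1 / 5 ≤ 2 * Real.exp (2 * t) / (Real.exp (2 * t) + 1) ^ 2 := by
  have hx : 0 < Real.exp (2 * t) := Real.exp_pos _
  have e1 : Real.exp (2 * t) ≤ 7.4 := by
    have h3 : Real.exp (2 * t) ≤ Real.exp 2 := Real.exp_le_exp.2 (by linarith)
    have h4 : Real.exp 2 = Real.exp 1 ^ 2 := by rw [← Real.exp_nat_mul]; norm_num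
    have h5 := Real.exp_one_lt_d9
    have h6 := Real.exp_pos 1
    rw [h4] at h3
    nlinarith
  have e2 : 1 / 7.4 ≤ Real.exp (2 * t) := by
    have h3 : Real.exp (-2) ≤ Real.exp (2 * t) := Real.exp_le_exp.2 (by linarith)
    have h4 : Real.exp 2 = Real.exp 1 ^ 2 := by rw [← Real.exp_nat_mul]; norm_num
    have h5 := Real.exp_one_lt_d9
    have h6 := Real.exp_pos 1
    have h7 : Real.exp 2 ≤ 7.4 := by rw [h4]; nlinarith
    have h8 : 1 / 7.4 ≤ Real.exp (-2) := by
      rw [Real.exp_neg, ← one_div]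
      exact one_div_le_one_div_of_le (Real.exp_pos _) h7
    linarith
  rw [div_le_div_iff₀ (by norm_num) (by positivity)]
  norm_num at e2
  nlinarith

/-- the density is at least `1/5 |∇u|²` where `|u - b| ≤ 1` -/
theorem le_HH (hL : ContDiff ℝ 2 L) (hg : Differentiable ℂ g) {b : ℝ} {z : ℂ} (h : g z ≠ 0) (h1 : b - 1 ≤ uu L g d z)
    (h2 : uu L g d z ≤ b + 1) : 1 / 5 * gg (uu L g d) (uu L g d) z ≤ HH L g d b z := by
  rw [HH_eq hL hg b h]
  refine mul_le_mul_of_nonneg_right ?_ (gg_self_nonneg _ _)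
  have h3 := ky_kap (t := uu L g d z - b) (by linarith) (by linarith)
  have e : Real.exp (2 * uu L g d z) = Real.exp (2 * b) * Real.exp (2 * (uu L g d z - b)) := by
    rw [← Real.exp_add]; congr 1; ring
  rw [e]
  have hb := Real.exp_pos (2 * b)
  have e2 : 2 * Real.exp (2 * b) * (Real.exp (2 * b) * Real.exp (2 * (uu L g d z - b))) /
      (Real.exp (2 * b) * Real.exp (2 * (uu L g d z - b)) + Real.exp (2 * b)) ^ 2 =
      2 * Real.exp (2 * (uu L g d z - b)) / (Real.exp (2 * (uu L g d z - b)) + 1) ^ 2 := by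
    have : Real.exp (2 * (uu L g d z - b)) + 1 ≠ 0 := by positivity
    have e3 : Real.exp (2 * b) * Real.exp (2 * (uu L g d z - b)) + Real.exp (2 * b) =
      Real.exp (2 * b) * (Real.exp (2 * (uu L g d z - b)) + 1) := by ring
    rw [e3]
    field_simp
  rw [e2]
  exact h3

theorem ky_const (b : ℝ) : Real.log (1 + Real.exp (2 * b)) / 2 - b ≤ 1 / 2 + |b| := by
  have hl2 : Real.log 2 ≤ 1 := by
    have := Real.log_two_lt_d9
    linarith
  rcases le_total b 0 with h | h
  · have h1 : Real.log (1 + Real.exp (2 * b)) ≤ Real.log 2 :=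
      Real.log_le_log (by positivity) (by
        have : Real.exp (2 * b) ≤ 1 := Real.exp_le_one_iff.2 (by linarith)
        linarith)
    rw [abs_of_nonpos h]
    linarith
  · have h1 : Real.log (1 + Real.exp (2 * b)) ≤ Real.log (2 * Real.exp (2 * b)) :=
      Real.log_le_log (by positivity) (by
        have : 1 ≤ Real.exp (2 * b) := Real.one_le_exp (by linarith)
        linarith)
    rw [Real.log_mul (by norm_num) (Real.exp_pos _).ne', Real.log_exp] at h1
    rw [abs_of_nonneg h]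
    linarith

/-- **The charge of a level region** -/
theorem charge (hL : ContDiff ℝ 2 L) (hL0 : ∀ z, 0 ≤ Δ L z) (hg : Differentiable ℂ g) (h0 : ∃ z, g z ≠ 0) (hd : 0 ≤ d)
    (hle : ∀ z, ‖g z‖ ≤ Real.exp (d * L z)) {a n : ℝ} {m : ℕ} (hn : 0 < n) {E : Set ℂ} {q : ℂ → ℝ}
    (hE : MeasurableSet E)
    (hq : ∀ z ∈ E, g z ≠ 0 ∧ a ≤ uu L g d z ∧ uu L g d z < a + 2 * m ∧ n ^ 2 * q z ^ 2 ≤ gg (uu L g d) (uu L g d) z)
    {R : ℝ} (hR : 1 ≤ R) :
    ∫ z in E, tau R z * q z ^ 2 ≤ 5 * m / n ^ 2 * (d * II L R + 2 * Real.pi * (|a| + 2 * m)) := by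
  have hH : ∀ k : ℕ, Integrable fun z => tau R z * HH L g d (a + 2 * k + 1) z := fun k =>
    integrable_tau_mul hR (continuous_HH hL hg _)
  have h1 : ∫ z in E, tau R z * q z ^ 2 ≤ ∫ z, ∑ k ∈ Finset.range m, 5 / n ^ 2 * (tau R z * HH L g d (a + 2 * k + 1) z) := by
    have hi : Integrable fun z => ∑ k ∈ Finset.range m, 5 / n ^ 2 * (tau R z * HH L g d (a + 2 * k + 1) z) :=
      integrable_finsetSum _ fun k _ => (hH k).const_mul _
    refine (integral_mono_of_nonneg ?_ hi.integrableOn ?_).trans (setIntegral_le_integral hi ?_)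
    · exact Eventually.of_forall fun z => mul_nonneg (tau_nonneg hR z) (sq_nonneg _)
    · rw [EventuallyLE, ae_restrict_iff' hE]
      refine Eventually.of_forall fun z hz => ?_
      obtain ⟨hz0, hz1, hz2, hz3⟩ := hq z hz
      have ht := tau_nonneg hR z
      set k := ⌊(uu L g d z - a) / 2⌋₊ with hk
      have hk1 : (k : ℝ) ≤ (uu L g d z - a) / 2 := Nat.floor_le (by linarith)
      have hk2 : (uu L g d z - a) / 2 < k + 1 := Nat.lt_floor_add_one _
      have hkm : k < m := by
        have : (k : ℝ) < m := by linarith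
        exact_mod_cast this
      have h2 := le_HH (b := a + 2 * k + 1) hL hg hz0 (by linarith) (by linarith)
      refine le_trans ?_ (Finset.single_le_sum (f := fun k : ℕ => 5 / n ^ 2 * (tau R z * HH L g d (a + 2 * k + 1) z))
        (fun j _ => mul_nonneg (by positivity) (mul_nonneg ht (HH_nonneg _ _ _ _ _))) (Finset.mem_range.2 hkm))
      have h3 : q z ^ 2 ≤ 5 / n ^ 2 * HH L g d (a + 2 * k + 1) z := by
        rw [div_mul_eq_mul_div, le_div_iff₀ (by positivity)]
        linarith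
      calc tau R z * q z ^ 2 ≤ tau R z * (5 / n ^ 2 * HH L g d (a + 2 * k + 1) z) := mul_le_mul_of_nonneg_left h3 ht
        _ = _ := by ring
    · exact Eventually.of_forall fun z => Finset.sum_nonneg fun k _ =>
        mul_nonneg (by positivity) (mul_nonneg (tau_nonneg hR z) (HH_nonneg _ _ _ _ _))
  refine h1.trans ?_
  rw [integral_finsetSum _ fun k _ => (hH k).const_mul _]
  have h2 : ∀ k ∈ Finset.range m, ∫ z, 5 / n ^ 2 * (tau R z * HH L g d (a + 2 * k + 1) z)
      ≤ 5 / n ^ 2 * (d * II L R + 2 * Real.pi * (|a| + 2 * m)) := by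
    intro k hk
    have hkm : (k : ℝ) + 1 ≤ m := by exact_mod_cast Finset.mem_range.1 hk
    have hk0 : (0 : ℝ) ≤ k := k.cast_nonneg
    rw [integral_const_mul]
    refine mul_le_mul_of_nonneg_left ((key hL hL0 hg h0 hd hle (a + 2 * k + 1) hR).trans ?_) (by positivity)
    have h3 := ky_const (a + 2 * k + 1)
    have h4 : |a + 2 * k + 1| ≤ |a| + (2 * k + 1) := by
      rw [add_assoc]
      refine (abs_add_le _ _).trans ?_
      rw [abs_of_nonneg (by positivity : (0 : ℝ) ≤ 2 * k + 1)]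
    have h5 : Real.log (1 + Real.exp (2 * (a + 2 * k + 1))) / 2 - (a + 2 * k + 1) ≤ |a| + 2 * m := by linarith
    have := Real.pi_pos
    nlinarith
  refine (Finset.sum_le_sum h2).trans (le_of_eq ?_)
  rw [Finset.sum_const, Finset.card_range, nsmul_eq_mul]
  ring

end

end Pool.Agent.H30M

end

section

/-!
# The generic point and the centre of a prime divisor

The generic point of the variety given by `P` in the affine coordinates `x i / x i₀` is
`fun i => ratio P i i₀`.

PROOFS.  `ratio_point`: as `Pool.Agent.H92.GT.Proj.proj_point` (the point constructed there is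
`fun i => ratio P i i₀`).
`ratio_change`: `ratio P i i₀ = ratio P i₁ i₀ * ratio P i i₁`, then `aeval_scale`.
`exists_center`: among the `i` with `ratio P i i₀ ≠ 0` choose `i₁` with `E.ord (ratio P i i₀)`
minimal.
`ord_forms`: `X i₁ ^ n ≡ ∑ j, c j * A j` modulo `P` (`exists_degree_bound`), evaluate at
`ratio P · i₁` (`ratio P i₁ i₁ = 1`): `1 = ∑ j, c j (..) * A j (..)`; if all `A j (..)` had positive
order then `0 = ord 1 > 0`.
-/

open MvPolynomial
open Pool.Agent.H17GT (coordFun functionField)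
open Pool.Agent.H17LG.Variety (FunField ratio)
open Pool.Agent.H23.Fano (PrimeDivisorOver)

noncomputable section

namespace Pool.Agent.H17R

variable {N : ℕ} {P : Ideal (MvPolynomial (Fin (N + 1)) ℂ)}

/-- The value of `Q` at the generic point, in the affine coordinates `x i / x i₀`. -/
def gen (P : Ideal (MvPolynomial (Fin (N + 1)) ℂ)) [P.IsPrime] (i₀ : Fin (N + 1))
    (Q : MvPolynomial (Fin (N + 1)) ℂ) : FunField P :=
  aeval (fun i => ratio P i i₀) Q

theorem ratio_self [P.IsPrime] {i₀ : Fin (N + 1)} (h : coordFun P i₀ ≠ 0) : ratio P i₀ i₀ = 1 := by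
  apply Subtype.ext
  exact div_self h

theorem adjoin_ratio [P.IsPrime] {i₀ : Fin (N + 1)} (h : coordFun P i₀ ≠ 0) :
    IntermediateField.adjoin ℂ (Set.range fun i => ratio P i i₀) = ⊤ := by
  classical
  set x : Fin (N + 1) → functionField P := fun i => ratio P i i₀ with hx
  have hratio : ∀ i j, ((x i / x j : functionField P) :
      FractionRing (MvPolynomial (Fin (N + 1)) ℂ ⧸ P)) = coordFun P i / coordFun P j := by
    intro i j
    have h1 : ((x i / x j : functionField P) :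
      FractionRing (MvPolynomial (Fin (N + 1)) ℂ ⧸ P)) =
        (coordFun P i / coordFun P i₀) / (coordFun P j / coordFun P i₀) := by
      rw [hx]
      rfl
    rw [h1, div_div_div_cancel_right₀ h]
  have hgen : IntermediateField.adjoin ℂ {y | ∃ i j, y = x i / x j} = ⊤ := by
    rw [← IntermediateField.lift_inj, IntermediateField.lift_adjoin, IntermediateField.lift_top]
    conv_rhs => rw [functionField]
    congr 1
    ext y
    constructor
    · rintro ⟨y', ⟨i, j, rfl⟩, rfl⟩
      exact ⟨i, j, hratio i j⟩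
    · rintro ⟨i, j, rfl⟩
      exact ⟨x i / x j, ⟨i, j, rfl⟩, hratio i j⟩
  change IntermediateField.adjoin ℂ (Set.range x) = ⊤
  rw [eq_top_iff, ← hgen, IntermediateField.adjoin_le_iff]
  rintro y ⟨i, j, rfl⟩
  exact div_mem (IntermediateField.subset_adjoin _ _ ⟨i, rfl⟩)
    (IntermediateField.subset_adjoin _ _ ⟨j, rfl⟩)

theorem gen_eq_zero_iff [P.IsPrime] {i₀ : Fin (N + 1)} (h : coordFun P i₀ ≠ 0) {n : ℕ}
    {Q : MvPolynomial (Fin (N + 1)) ℂ} (hQ : Q.IsHomogeneous n) : gen P i₀ Q = 0 ↔ Q ∈ P := by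
  set x : Fin (N + 1) → functionField P := fun i => ratio P i i₀ with hx
  have h0 : gen P i₀ Q = (aeval x Q : functionField P) := rfl
  have h1 : ((aeval x Q : functionField P) : FractionRing (MvPolynomial (Fin (N + 1)) ℂ ⧸ P)) =
      aeval (fun i => (coordFun P i₀)⁻¹ * coordFun P i) Q := by
    have h3 : ((functionField P).val (aeval x Q)) =
        aeval (fun i => (functionField P).val (x i)) Q := by
      rw [← MvPolynomial.comp_aeval]
      rfl
    change (functionField P).val (aeval x Q) = _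
    rw [h3]
    congr 2
    funext i
    change coordFun P i / coordFun P i₀ = _
    rw [div_eq_inv_mul]
  rw [Pool.Agent.H92.GT.Proj.aeval_scale hQ] at h1
  rw [← Pool.Agent.H92.GT.Proj.aeval_coordFun_eq_zero_iff, h0]
  constructor
  · intro h2
    have h3 : ((aeval x Q : functionField P) :
        FractionRing (MvPolynomial (Fin (N + 1)) ℂ ⧸ P)) = 0 := by
      rw [show (aeval x Q : functionField P) = 0 from h2]
      rfl
    rw [h3] at h1
    exact (mul_eq_zero.1 h1.symm).resolve_left (pow_ne_zero _ (inv_ne_zero h))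
  · intro h2
    apply Subtype.ext
    rw [h1, h2, mul_zero]
    rfl

theorem ratio_ne_zero_iff [P.IsPrime] {i i₀ : Fin (N + 1)} (h : coordFun P i₀ ≠ 0) :
    ratio P i i₀ ≠ 0 ↔ coordFun P i ≠ 0 := by
  have h1 : ratio P i i₀ = 0 ↔ coordFun P i / coordFun P i₀ = 0 :=
    ⟨fun h2 => congrArg Subtype.val h2, fun h2 => Subtype.ext h2⟩
  rw [Ne, h1, div_eq_zero_iff, not_or]
  exact ⟨fun h2 => h2.1, fun h2 => ⟨h2, h⟩⟩

private theorem ratio_change [P.IsPrime] {i i₀ i₁ : Fin (N + 1)} (h₁ : coordFun P i₁ ≠ 0) :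
    ratio P i i₀ = ratio P i₁ i₀ * ratio P i i₁ := by
  apply Subtype.ext
  change coordFun P i / coordFun P i₀ =
    coordFun P i₁ / coordFun P i₀ * (coordFun P i / coordFun P i₁)
  rw [div_mul_div_comm, mul_comm (coordFun P i₁) (coordFun P i), mul_div_mul_right _ _ h₁]

theorem gen_change [P.IsPrime] {i₀ i₁ : Fin (N + 1)} (h₁ : coordFun P i₁ ≠ 0) {n : ℕ}
    {Q : MvPolynomial (Fin (N + 1)) ℂ} (hQ : Q.IsHomogeneous n) :
    gen P i₀ Q = ratio P i₁ i₀ ^ n * gen P i₁ Q := by
  unfold gen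
  rw [← Pool.Agent.H92.GT.Proj.aeval_scale hQ]
  congr 2
  funext i
  exact ratio_change h₁

theorem coordFun_ne_zero_iff [P.IsPrime] {i : Fin (N + 1)} : coordFun P i ≠ 0 ↔ X i ∉ P := by
  rw [Ne, not_iff_not, ← Pool.Agent.H92.GT.Proj.aeval_coordFun_eq_zero_iff, aeval_X]

theorem exists_center [P.IsPrime] {w : ℕ} (E : PrimeDivisorOver (FunField P) w)
    {i₀ : Fin (N + 1)} (h : coordFun P i₀ ≠ 0) :
    ∃ i₁, coordFun P i₁ ≠ 0 ∧ ∀ i, 0 ≤ E.ord (ratio P i i₁) := by
  obtain ⟨i₁, -, h1⟩ := Finset.exists_min_image Finset.univ (fun i => E.ord (ratio P i i₀))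
    Finset.univ_nonempty
  have h2 : E.ord (ratio P i₁ i₀) ≤ 0 := by
    have h3 := h1 i₀ (Finset.mem_univ _)
    rwa [ratio_self h, E.ord.map_one] at h3
  have h3 : E.ord (ratio P i₁ i₀) ≠ ⊤ := ne_top_of_le_ne_top WithTop.zero_ne_top h2
  have h4 : coordFun P i₁ ≠ 0 := by
    rw [← ratio_ne_zero_iff h]
    intro h5
    rw [h5, E.ord.map_zero] at h3
    exact h3 rfl
  refine ⟨i₁, h4, fun i => ?_⟩
  have h5 := h1 i (Finset.mem_univ _)
  rw [ratio_change (i := i) h4, E.ord.map_mul] at h5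
  exact (WithTop.add_le_add_iff_left h3).1 (by rwa [add_zero])

/-- The forms have non-negative orders at the centre. -/
theorem ord_gen_nonneg [P.IsPrime] {w : ℕ} (E : PrimeDivisorOver (FunField P) w)
    {i₁ : Fin (N + 1)} (h : ∀ i, 0 ≤ E.ord (ratio P i i₁)) (Q : MvPolynomial (Fin (N + 1)) ℂ) :
    0 ≤ E.ord (gen P i₁ Q) := by
  unfold gen
  induction Q using MvPolynomial.induction_on with
  | C a =>
    rw [aeval_C]
    exact E.ord_const a
  | add p q hp hq =>
    rw [map_add]
    exact (le_min hp hq).trans (E.ord.map_add _ _)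
  | mul_X p i hp =>
    rw [map_mul, aeval_X, E.ord.map_mul]
    exact add_nonneg hp (h i)

end Pool.Agent.H17R

end
end

section

/-!
# The affine part of the cone of a homogeneous prime ideal

PROOF of `mem_pts_iff`.  Write `a i = ratio P i l`, so `aeval a Q = gen P l Q` and `a l = 1`
(`ratio_self`).
(→) `aeval a (X l - 1) = 0` gives `w l = 1`.  For `Q ∈ P` its components `Q_d` are in `P` (`Homog P`), so
`gen P l Q_d = 0` (`gen_eq_zero_iff`) and `aeval a Q = ∑ aeval a Q_d = 0`; hence `eval w Q = 0`.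
(←) Let `aeval a R = 0`, `D = R.totalDegree` and `R' = ∑ d ∈ range (D + 1), X l ^ (D - d) * R_d`
(`R_d = homogeneousComponent d R`), homogeneous of degree `D`.  Since `a l = 1`,
`gen P l R' = ∑ aeval a R_d = aeval a R = 0`, so `R' ∈ P` (`gen_eq_zero_iff`), and
`0 = eval w R' = ∑ w l ^ (D - d) * eval w R_d = eval w R` since `w l = 1`
(`MvPolynomial.sum_homogeneousComponent`).

PROOF of `euler`.  For the component `Q_d ∈ P`: `∑ x i * eval x (pderiv i Q_d) = d * eval x Q_d = 0`
(`IsHomogeneous.sum_X_mul_pderiv`); sum over `d`.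
-/

open MvPolynomial
open Pool.Agent.H17GT (coordFun functionField)
open Pool.Agent.H17LG.Variety (FunField ratio)
open Pool.Agent.H62.FC (Homog)

noncomputable section

namespace Pool.Agent.H13.SM

variable {N : ℕ} {P : Ideal (MvPolynomial (Fin (N + 1)) ℂ)}

private theorem hg_smul {d : ℕ} {Q : MvPolynomial (Fin (N + 1)) ℂ} (hQ : Q.IsHomogeneous d) (c : ℂ)
    (x : Fin (N + 1) → ℂ) : eval (c • x) Q = c ^ d * eval x Q := by
  rw [eval_eq', eval_eq', Finset.mul_sum]
  refine Finset.sum_congr rfl fun m hm => ?_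
  have h1 : ∏ i, (c • x) i ^ m i = c ^ d * ∏ i, x i ^ m i := by
    simp only [Pi.smul_apply, smul_eq_mul, mul_pow, Finset.prod_mul_distrib]
    rw [Finset.prod_pow_eq_pow_sum]
    have h2 := hQ (mem_support_iff.1 hm)
    rw [Finsupp.weight_apply, Finsupp.sum_fintype _ _ (by simp)] at h2
    simp only [Pi.one_apply, smul_eq_mul, mul_one] at h2
    rw [h2]
  rw [h1]
  ring

theorem mem_pts_iff [P.IsPrime] (hP : Homog P) {l : Fin (N + 1)} (h : coordFun P l ≠ 0)
    {w : Fin (N + 1) → ℂ} :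
    w ∈ pts (fun i => ratio P i l) ↔ w l = 1 ∧ ∀ Q ∈ P, eval w Q = 0 := by
  have hll := Pool.Agent.H17R.ratio_self h
  constructor
  · intro hw
    refine ⟨?_, fun Q hQ => hw Q ?_⟩
    · have h1 := hw (X l - 1) (by rw [map_sub, aeval_X, map_one, hll, sub_self])
      rw [map_sub, eval_X, map_one, sub_eq_zero] at h1
      exact h1
    · rw [← sum_homogeneousComponent Q, map_sum]
      exact Finset.sum_eq_zero fun d _ =>
        (Pool.Agent.H17R.gen_eq_zero_iff h (homogeneousComponent_isHomogeneous d Q)).2 (hP Q hQ d)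
  · rintro ⟨hl, hw⟩ R hR
    have h1 : ∀ {B : Type} [CommRing B] [Algebra ℂ B] (φ : MvPolynomial (Fin (N + 1)) ℂ →ₐ[ℂ] B)
        (_ : φ (X l) = 1), φ (∑ d ∈ Finset.range (R.totalDegree + 1),
          X l ^ (R.totalDegree - d) * homogeneousComponent d R) = φ R := by
      intro B _ _ φ hφ
      conv_rhs => rw [← sum_homogeneousComponent R]
      rw [map_sum, map_sum]
      refine Finset.sum_congr rfl fun d _ => ?_
      rw [map_mul, map_pow, hφ, one_pow, one_mul]
    have h2 : (∑ d ∈ Finset.range (R.totalDegree + 1),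
        X l ^ (R.totalDegree - d) * homogeneousComponent d R).IsHomogeneous R.totalDegree := by
      refine IsHomogeneous.sum _ _ _ fun d hd => ?_
      have h3 := ((isHomogeneous_X ℂ l).pow (R.totalDegree - d)).mul
        (homogeneousComponent_isHomogeneous d R)
      have h4 := Finset.mem_range.1 hd
      rwa [one_mul, Nat.sub_add_cancel (by omega)] at h3
    have h3 := h1 (aeval fun i => ratio P i l) (by rw [aeval_X, hll])
    have h4 := hw _ ((Pool.Agent.H17R.gen_eq_zero_iff h h2).1 (by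
      unfold Pool.Agent.H17R.gen
      rw [h3, hR]))
    have h5 := h1 (aeval w : MvPolynomial (Fin (N + 1)) ℂ →ₐ[ℂ] ℂ) (by rw [aeval_X, hl])
    rw [← coe_aeval_eq_eval] at h4
    rw [← coe_aeval_eq_eval]
    exact h5.symm.trans h4

theorem euler (hP : Homog P) {x : Fin (N + 1) → ℂ} (hx : ∀ Q ∈ P, eval x Q = 0)
    {Q : MvPolynomial (Fin (N + 1)) ℂ} (hQ : Q ∈ P) : ∑ i, x i * eval x (pderiv i Q) = 0 := by
  have h1 : ∀ d, ∑ i, x i * eval x (pderiv i (homogeneousComponent d Q)) = 0 := by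
    intro d
    have h2 := congrArg (eval x) (homogeneousComponent_isHomogeneous d Q).sum_X_mul_pderiv
    rw [map_sum, map_nsmul, hx _ (hP Q hQ d), smul_zero] at h2
    simpa only [map_mul, eval_X] using h2
  rw [← sum_homogeneousComponent Q]
  simp only [map_sum, Finset.mul_sum]
  rw [Finset.sum_comm]
  exact Finset.sum_eq_zero fun d _ => h1 d

/-- The affine cone of `P` is a cone. -/
theorem cone_smul (hP : Homog P) {x : Fin (N + 1) → ℂ} (hx : ∀ Q ∈ P, eval x Q = 0) (c : ℂ) :
    ∀ Q ∈ P, eval (c • x) Q = 0 := by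
  intro Q hQ
  rw [← sum_homogeneousComponent Q, map_sum]
  refine Finset.sum_eq_zero fun d _ => ?_
  rw [hg_smul (homogeneousComponent_isHomogeneous d Q), hx _ (hP Q hQ d), mul_zero]

end Pool.Agent.H13.SM

end
end

section

/-!
# Gradients

`conTan P x` is the tangent space at `x` of the affine cone of `P`.

PROOF of `exists_indep`.  Let `G = span {∇Q(x) | Q ∈ P}` in `Fin (N + 1) → ℂ`.  `conTan P x` is its
annihilator for the pairing `∑ i, v i * u i`, so `finrank G + finrank (conTan P x) = N + 1`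
(`Submodule.finrank_add_finrank_dualAnnihilator_eq`, or rank-nullity: let `u_1, .., u_r` be a basis of
`G` among the `∇Q(x)`; `conTan P x` is the kernel of `v ↦ (∑ i, v i * u_k i)_k`, so
`N + 1 - r ≤ finrank (conTan P x) ≤ n + 1`, `N - n ≤ r`).  The gradients form a spanning set of `G`, so
it contains a basis (`exists_linearIndependent'` or `exists_linearIndependent_extension`); take
`N - n` of its elements.

PROOF of `indep_snoc`.  Let `∑ j, c j • ∇(f j)(w) + e • single l 1 = 0`.  Apply the pairing with `w`: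
`∑ i, w i * ∂_i (f j)(w) = 0` (`euler`) and `w l = 1`, so `e = 0`; then all `c j = 0`.  (Gradient of
`X l - 1` at `w` is `Pi.single l 1`.)
-/

open MvPolynomial
open Pool.Agent.H62.FC (Homog)

noncomputable section

namespace Pool.Agent.H13.SM

variable {N : ℕ} {P : Ideal (MvPolynomial (Fin (N + 1)) ℂ)}

/-- The tangent space at `x` of the affine cone of `P`. -/
def conTan (P : Ideal (MvPolynomial (Fin (N + 1)) ℂ)) (x : Fin (N + 1) → ℂ) :
    Submodule ℂ (Fin (N + 1) → ℂ) where
  carrier := {v | ∀ Q ∈ P, ∑ i, v i * eval x (pderiv i Q) = 0}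
  add_mem' := by
    intro u v hu hv Q hQ
    have h1 := hu Q hQ
    have h2 := hv Q hQ
    simp only [Pi.add_apply, add_mul, Finset.sum_add_distrib, h1, h2, add_zero]
  zero_mem' := by
    intro Q _
    simp
  smul_mem' := by
    intro c v hv Q hQ
    have h1 := hv Q hQ
    simp only [Pi.smul_apply, smul_eq_mul, mul_assoc, ← Finset.mul_sum, h1, mul_zero]

theorem exists_indep {n : ℕ} {x : Fin (N + 1) → ℂ}
    (h : Module.finrank ℂ (conTan P x) ≤ n + 1) :
    ∃ f : Fin (N - n) → MvPolynomial (Fin (N + 1)) ℂ, (∀ j, f j ∈ P) ∧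
      LinearIndependent ℂ fun (j : Fin (N - n)) (i : Fin (N + 1)) => eval x (pderiv i (f j)) := by
  classical
  obtain ⟨b, hbS, hspan, hli⟩ := exists_linearIndependent ℂ
    {u : Fin (N + 1) → ℂ | ∃ Q ∈ P, (fun i => eval x (pderiv i Q)) = u}
  have hfin : Finite b := hli.finite
  have : Fintype b := Fintype.ofFinite b
  let φ : (Fin (N + 1) → ℂ) →ₗ[ℂ] (b → ℂ) :=
    LinearMap.pi fun u => ∑ i, (u : Fin (N + 1) → ℂ) i • (LinearMap.proj i)
  have hφ : ∀ v (u : b), φ v u = ∑ i, (u : Fin (N + 1) → ℂ) i * v i := by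
    intro v u
    simp [φ, LinearMap.sum_apply]
  have hker : LinearMap.ker φ ≤ conTan P x := by
    intro v hv Q hQ
    have hv' : ∀ u : b, ∑ i, (u : Fin (N + 1) → ℂ) i * v i = 0 := fun u => by
      rw [← hφ, LinearMap.mem_ker.mp hv, Pi.zero_apply]
    let ψ : (Fin (N + 1) → ℂ) →ₗ[ℂ] ℂ := ∑ i, v i • (LinearMap.proj i)
    have hψ : ∀ u, ψ u = ∑ i, v i * u i := by
      intro u
      simp [ψ, LinearMap.sum_apply]
    have h1 : Submodule.span ℂ b ≤ LinearMap.ker ψ := by
      rw [Submodule.span_le]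
      intro u hu
      rw [SetLike.mem_coe, LinearMap.mem_ker, hψ, ← hv' ⟨u, hu⟩]
      exact Finset.sum_congr rfl fun i _ => mul_comm _ _
    have h2 : (fun i => eval x (pderiv i Q)) ∈ Submodule.span ℂ b := by
      rw [hspan]
      exact Submodule.subset_span ⟨Q, hQ, rfl⟩
    have h3 := LinearMap.mem_ker.mp (h1 h2)
    rwa [hψ] at h3
  have hrk := LinearMap.finrank_range_add_finrank_ker φ
  have h1 : Module.finrank ℂ (LinearMap.range φ) ≤ Fintype.card b := by
    have := Submodule.finrank_le (LinearMap.range φ)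
    rwa [Module.finrank_fintype_fun_eq_card] at this
  have h2 := Submodule.finrank_mono hker
  rw [Module.finrank_fintype_fun_eq_card, Fintype.card_fin] at hrk
  have hcard : Fintype.card (Fin (N - n)) ≤ Fintype.card b := by
    rw [Fintype.card_fin]
    omega
  obtain ⟨e⟩ := Function.Embedding.nonempty_of_card_le hcard
  choose g hg using fun u : b => hbS u.2
  refine ⟨fun j => g (e j), fun j => (hg (e j)).1, ?_⟩
  have h3 := hli.comp e e.injective
  have h4 : (fun (j : Fin (N - n)) (i : Fin (N + 1)) => eval x (pderiv i (g (e j)))) =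
      (Subtype.val : b → Fin (N + 1) → ℂ) ∘ e := by
    funext j
    exact (hg (e j)).2
  rw [h4]
  exact h3

theorem indep_snoc (hP : Homog P) {w : Fin (N + 1) → ℂ} (hw : ∀ Q ∈ P, eval w Q = 0)
    {l : Fin (N + 1)} (hl : w l = 1) {c : ℕ} {f : Fin c → MvPolynomial (Fin (N + 1)) ℂ}
    (hf : ∀ j, f j ∈ P)
    (hli : LinearIndependent ℂ fun (j : Fin c) (i : Fin (N + 1)) => eval w (pderiv i (f j))) :
    LinearIndependent ℂ fun (j : Fin (c + 1)) (i : Fin (N + 1)) =>
      eval w (pderiv i ((Fin.snoc f (X l - 1) : Fin (c + 1) → MvPolynomial (Fin (N + 1)) ℂ) j)) := by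
  classical
  have h1 : (fun (j : Fin (c + 1)) (i : Fin (N + 1)) =>
      eval w (pderiv i ((Fin.snoc f (X l - 1) : Fin (c + 1) → MvPolynomial (Fin (N + 1)) ℂ) j))) =
      (Fin.snoc (fun (j : Fin c) (i : Fin (N + 1)) => eval w (pderiv i (f j)))
        (Pi.single l 1 : Fin (N + 1) → ℂ) : Fin (c + 1) → Fin (N + 1) → ℂ) := by
    funext j
    refine Fin.lastCases ?_ (fun k => ?_) j
    · funext i
      rw [Fin.snoc_last, Fin.snoc_last, map_sub, pderiv_X, Pi.single_apply, Pi.single_apply]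
      simp only [pderiv_one, sub_zero]
      by_cases h : i = l
      · rw [if_pos h.symm, if_pos h, map_one]
      · rw [if_neg fun h' => h h'.symm, if_neg h, map_zero]
    · funext i
      rw [Fin.snoc_castSucc, Fin.snoc_castSucc]
  rw [h1, linearIndependent_finSnoc]
  refine ⟨hli, fun hmem => ?_⟩
  let ψ : (Fin (N + 1) → ℂ) →ₗ[ℂ] ℂ := ∑ i, w i • (LinearMap.proj i)
  have hψ : ∀ u, ψ u = ∑ i, w i * u i := by
    intro u
    simp [ψ, LinearMap.sum_apply]
  have h2 : Submodule.span ℂ (Set.range fun (j : Fin c) (i : Fin (N + 1)) =>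
      eval w (pderiv i (f j))) ≤ LinearMap.ker ψ := by
    rw [Submodule.span_le]
    rintro _ ⟨j, rfl⟩
    rw [SetLike.mem_coe, LinearMap.mem_ker, hψ]
    exact euler hP hw (hf j)
  have h3 := LinearMap.mem_ker.mp (h2 hmem)
  rw [hψ, Finset.sum_eq_single l] at h3
  · rw [Pi.single_eq_same, mul_one, hl] at h3
    exact one_ne_zero h3
  · intro i _ hi
    rw [Pi.single_eq_of_ne hi, mul_zero]
  · intro h
    exact absurd (Finset.mem_univ l) h

end Pool.Agent.H13.SM

end
end
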