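import Pool.Agent.H43.TL2.M02
import Pool.Agent.H43.TL2.M22
import Pool.Agent.H43.TL2.M24

/-! The parts of this file: H22.HF.Div, MQ2.AlgConv, MQ2.Formal. -/

section

/-!
# HF Div: division by powers of the first variable

`g : ℂ × E → ℂ` analytic at `0`, not zero near `0`: `g (s, x) = s ^ a * g' (s, x)` with `g' (0, ·)` not zero near `0`.

Proof.  Choose `ρ > 0` such that `g` is analytic at `(σ, x)` for `‖σ‖ ≤ ρ`, `‖x‖ < ρ`.  For `a : ℕ`, `‖s‖ < ρ`, `‖x‖ < ρ` put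
`G a (s, x) = (2 π i)⁻¹ ∮_{‖σ‖ = ρ} g (σ, x) / (σ ^ a (σ - s)) dσ`: analytic (`analyticAt_circleIntegral`), `G 0 = g` (Cauchy's formula), and
`G a (s, x) = G a (0, x) + s * G (a + 1) (s, x)` because `1 / (σ ^ a (σ - s)) = 1 / σ ^ (a + 1) + s / (σ ^ (a + 1) (σ - s))`.
If for all `a` `G a (0, ·) = 0` near `0`, then on `ball 0 ρ` (identity theorem `AnalyticOnNhd.eqOn_zero_of_preconnected_of_eventuallyEq_zero`), so for `‖x‖ < ρ`
`g (s, x) = s ^ a * G a (s, x)` for all `a`, and `‖G a (s, x)‖ ≤ C_x ρ ^ (- a) ρ / (ρ - ‖s‖)`, so `g (s, x) = 0` for `‖s‖ < ρ` (or: all the derivatives of `g (·, x)` at `0` are zero):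
contradiction.  Let `a` be minimal with `G a (0, ·)` not zero near `0`, `g' = G a`.
-/

set_option autoImplicit false

open Metric Set Filter Topology

namespace Pool.Agent.H22.HF

theorem exists_div {E : Type} [NormedAddCommGroup E] [NormedSpace ℂ E] [FiniteDimensional ℂ E] {g : ℂ × E → ℂ} (hg : AnalyticAt ℂ g 0)
    (hne : ¬ ∀ᶠ y in 𝓝 (0 : ℂ × E), g y = 0) :
    ∃ (a : ℕ) (g' : ℂ × E → ℂ), AnalyticAt ℂ g' 0 ∧ (∀ᶠ y in 𝓝 (0 : ℂ × E), g y = y.1 ^ a * g' y) ∧ ¬ ∀ᶠ x in 𝓝 (0 : E), g' (0, x) = 0 := by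
  classical
  obtain ⟨r, hr, hball⟩ := Metric.eventually_nhds_iff_ball.mp hg.eventually_analyticAt
  obtain ⟨ρ, hρ, hρr⟩ : ∃ ρ : ℝ, 0 < ρ ∧ ρ < r := ⟨r / 2, by linarith, by linarith⟩
  have hmem : ∀ (σ : ℂ) (x : E), ‖σ‖ ≤ ρ → ‖x‖ < r → AnalyticAt ℂ g (σ, x) := by
    intro σ x h1 h2
    refine hball _ ?_
    rw [mem_ball_zero_iff, Prod.norm_mk]
    exact max_lt (lt_of_le_of_lt h1 hρr) h2
  let G : ℕ → ℂ × E → ℂ := fun a y => (2 * Real.pi * Complex.I : ℂ)⁻¹ * ∮ σ in C(0, ρ), g (σ, y.2) / (σ ^ a * (σ - y.1))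
  have hne0 : ∀ σ ∈ sphere (0 : ℂ) ρ, ∀ s : ℂ, ‖s‖ < ρ → σ ≠ 0 ∧ σ - s ≠ 0 := by
    intro σ hσ s hs
    have hn : ‖σ‖ = ρ := by simpa using hσ
    constructor
    · rintro rfl
      rw [norm_zero] at hn
      linarith
    · intro h
      rw [sub_eq_zero] at h
      rw [h] at hn
      linarith
  have hGan : ∀ a (y : ℂ × E), ‖y.1‖ < ρ → ‖y.2‖ < r → AnalyticAt ℂ (G a) y := by
    intro a y h1 h2
    have h3 : AnalyticAt ℂ (fun p : ℂ × E => ∮ σ in C(0, ρ), (fun q : (ℂ × E) × ℂ => g (q.2, q.1.2) / (q.2 ^ a * (q.2 - q.1.1))) (p, σ)) y := by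
      refine analyticAt_circleIntegral (E := ℂ × E)
        (F := fun q : (ℂ × E) × ℂ => g (q.2, q.1.2) / (q.2 ^ a * (q.2 - q.1.1))) hρ ?_
      intro σ hσ
      have hn : ‖σ‖ = ρ := by simpa using hσ
      obtain ⟨e1, e2⟩ := hne0 σ hσ y.1 h1
      have a1 : AnalyticAt ℂ (fun q : (ℂ × E) × ℂ => g (q.2, q.1.2)) (y, σ) := by
        have h4 : AnalyticAt ℂ g ((fun q : (ℂ × E) × ℂ => (q.2, q.1.2)) (y, σ)) := hmem σ y.2 hn.le h2
        have h5 : AnalyticAt ℂ (fun q : (ℂ × E) × ℂ => (q.2, q.1.2)) (y, σ) :=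
          analyticAt_snd.prod (AnalyticAt.comp (g := Prod.snd) (f := Prod.fst) analyticAt_snd analyticAt_fst)
        exact AnalyticAt.comp (g := g) (f := fun q : (ℂ × E) × ℂ => (q.2, q.1.2)) h4 h5
      have a2 : AnalyticAt ℂ (fun q : (ℂ × E) × ℂ => q.2 ^ a * (q.2 - q.1.1)) (y, σ) :=
        (analyticAt_snd.pow a).mul (analyticAt_snd.sub (analyticAt_fst.comp analyticAt_fst))
      exact a1.div a2 (mul_ne_zero (pow_ne_zero _ e1) e2)
    exact analyticAt_const.mul h3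
  have hcont : ∀ x : E, ‖x‖ < r → ContinuousOn (fun σ : ℂ => g (σ, x)) (sphere (0 : ℂ) ρ) := by
    intro x hx σ hσ
    have hn : ‖σ‖ = ρ := by simpa using hσ
    have h4 : ContinuousAt g ((fun σ : ℂ => (σ, x)) σ) := (hmem σ x hn.le hx).continuousAt
    exact (ContinuousAt.comp (f := fun σ : ℂ => (σ, x)) h4 (Continuous.prodMk_left x).continuousAt).continuousWithinAt
  have hG0 : ∀ (s : ℂ) (x : E), ‖s‖ < ρ → ‖x‖ < r → G 0 (s, x) = g (s, x) := by
    intro s x h1 h2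
    have hd : DiffContOnCl ℂ (fun σ : ℂ => g (σ, x)) (ball (0 : ℂ) ρ) := by
      refine DifferentiableOn.diffContOnCl ?_
      rw [closure_ball _ hρ.ne']
      intro σ hσ
      have hn : ‖σ‖ ≤ ρ := by simpa using hσ
      have h4 : DifferentiableAt ℂ g ((fun σ : ℂ => (σ, x)) σ) := (hmem σ x hn h2).differentiableAt
      exact (DifferentiableAt.comp σ h4 (differentiableAt_id.prodMk (differentiableAt_const x))).differentiableWithinAt
    have h5 := hd.two_pi_i_inv_smul_circleIntegral_sub_inv_smul (w := s) (by simpa using h1)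
    rw [smul_eq_mul] at h5
    rw [← h5]
    change (2 * Real.pi * Complex.I : ℂ)⁻¹ * _ = _
    congr 1
    refine circleIntegral.integral_congr hρ.le ?_
    intro σ _
    simp only [pow_zero, one_mul, smul_eq_mul]
    rw [div_eq_mul_inv, mul_comm]
  have hrec : ∀ a (s : ℂ) (x : E), ‖s‖ < ρ → ‖x‖ < r → G a (s, x) = G a (0, x) + s * G (a + 1) (s, x) := by
    intro a s x h1 h2
    have i1 : CircleIntegrable (fun σ : ℂ => g (σ, x) / (σ ^ a * (σ - 0))) 0 ρ := by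
      refine ContinuousOn.circleIntegrable hρ.le ((hcont x h2).div ?_ ?_)
      · fun_prop
      · intro σ hσ
        obtain ⟨e1, e2⟩ := hne0 σ hσ 0 (by simpa using hρ)
        exact mul_ne_zero (pow_ne_zero _ e1) e2
    have i2 : CircleIntegrable (fun σ : ℂ => s * (g (σ, x) / (σ ^ (a + 1) * (σ - s)))) 0 ρ := by
      refine ContinuousOn.circleIntegrable hρ.le (continuousOn_const.mul ((hcont x h2).div ?_ ?_))
      · fun_prop
      · intro σ hσ
        obtain ⟨e1, e2⟩ := hne0 σ hσ s h1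
        exact mul_ne_zero (pow_ne_zero _ e1) e2
    have h3 : (∮ σ in C(0, ρ), g (σ, x) / (σ ^ a * (σ - s)))
        = (∮ σ in C(0, ρ), g (σ, x) / (σ ^ a * (σ - 0))) + s * ∮ σ in C(0, ρ), g (σ, x) / (σ ^ (a + 1) * (σ - s)) := by
      rw [← circleIntegral.integral_const_mul, ← circleIntegral.integral_add i1 i2]
      refine circleIntegral.integral_congr hρ.le ?_
      intro σ hσ
      obtain ⟨e1, e2⟩ := hne0 σ hσ s h1
      simp only [sub_zero]
      field_simp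
      ring
    change (2 * Real.pi * Complex.I : ℂ)⁻¹ * _ = (2 * Real.pi * Complex.I : ℂ)⁻¹ * _ + s * ((2 * Real.pi * Complex.I : ℂ)⁻¹ * _)
    simp only
    rw [h3]
    ring
  have hid : ∀ a, (∀ᶠ x in 𝓝 (0 : E), G a (0, x) = 0) → ∀ x : E, ‖x‖ < r → G a (0, x) = 0 := by
    intro a ha x hx
    have h1 : AnalyticOnNhd ℂ (fun x : E => G a (0, x)) (ball (0 : E) r) := by
      intro z hz
      have h4 : AnalyticAt ℂ (G a) ((fun x : E => ((0 : ℂ), x)) z) := hGan a (0, z) (by simpa using hρ) (by simpa using hz)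
      exact AnalyticAt.comp (g := G a) (f := fun x : E => ((0 : ℂ), x)) h4 (analyticAt_const.prod analyticAt_id)
    exact h1.eqOn_zero_of_preconnected_of_eventuallyEq_zero (convex_ball _ _).isPreconnected (mem_ball_self hr) ha (by simpa using hx)
  have hpow : ∀ a, (∀ b < a, ∀ᶠ x in 𝓝 (0 : E), G b (0, x) = 0) → ∀ (s : ℂ) (x : E), ‖s‖ < ρ → ‖x‖ < r → g (s, x) = s ^ a * G a (s, x) := by
    intro a
    induction a with
    | zero =>
      intro _ s x h1 h2
      rw [pow_zero, one_mul, hG0 s x h1 h2]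
    | succ a ih =>
      intro hb s x h1 h2
      rw [ih (fun b hb' => hb b (Nat.lt_succ_of_lt hb')) s x h1 h2, hrec a s x h1 h2, hid a (hb a (Nat.lt_succ_self a)) x h2, zero_add, pow_succ]
      ring
  have hex : ∃ a, ¬ ∀ᶠ x in 𝓝 (0 : E), G a (0, x) = 0 := by
    by_contra hcon
    push Not at hcon
    have hall : ∀ b, ∀ᶠ x in 𝓝 (0 : E), G b (0, x) = 0 := hcon
    apply hne
    have hz : ∀ (s : ℂ) (x : E), ‖s‖ < ρ → ‖x‖ < r → g (s, x) = 0 := by
      intro s x hs hx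
      have hf : AnalyticOnNhd ℂ (fun σ : ℂ => g (σ, x)) (ball (0 : ℂ) ρ) := by
        intro σ hσ
        have h4 : AnalyticAt ℂ g ((fun σ : ℂ => (σ, x)) σ) := hmem σ x (by simpa using (mem_ball_zero_iff.mp hσ).le) hx
        exact AnalyticAt.comp h4 (analyticAt_id.prod analyticAt_const)
      have htop : analyticOrderAt (fun σ : ℂ => g (σ, x)) 0 = ⊤ := by
        refine ENat.eq_top_iff_forall_ge.mpr ?_
        intro a
        rw [natCast_le_analyticOrderAt (hf 0 (mem_ball_self hρ))]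
        refine ⟨fun σ => G a (σ, x), ?_, ?_⟩
        · have h4 : AnalyticAt ℂ (G a) ((fun σ : ℂ => (σ, x)) 0) := hGan a (0, x) (by simpa using hρ) hx
          exact AnalyticAt.comp (g := G a) (f := fun σ : ℂ => (σ, x)) h4 (analyticAt_id.prod analyticAt_const)
        · filter_upwards [ball_mem_nhds (0 : ℂ) hρ] with σ hσ
          rw [sub_zero, smul_eq_mul]
          exact hpow a (fun b _ => hall b) σ x (by simpa using hσ) hx
      rw [analyticOrderAt_eq_top] at htop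
      exact hf.eqOn_zero_of_preconnected_of_eventuallyEq_zero (convex_ball _ _).isPreconnected (mem_ball_self hρ) htop (by simpa using hs)
    filter_upwards [ball_mem_nhds (0 : ℂ × E) hρ] with y hy
    rw [mem_ball_zero_iff, Prod.norm_def] at hy
    exact hz y.1 y.2 (lt_of_le_of_lt (le_max_left _ _) hy) (lt_trans (lt_of_le_of_lt (le_max_right _ _) hy) hρr)
  refine ⟨Nat.find hex, G (Nat.find hex), hGan _ 0 (by simpa using hρ) (by simpa using hr), ?_, Nat.find_spec hex⟩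
  filter_upwards [ball_mem_nhds (0 : ℂ × E) hρ] with y hy
  rw [mem_ball_zero_iff, Prod.norm_def] at hy
  refine hpow (Nat.find hex) ?_ y.1 y.2 (lt_of_le_of_lt (le_max_left _ _) hy) (lt_trans (lt_of_le_of_lt (le_max_right _ _) hy) hρr)
  intro b hb
  by_contra h
  exact Nat.find_min hex hb h

end Pool.Agent.H22.HF

end

section

/-!
# MQ2 AlgConv: a formal solution of an analytic equation converges

`f (t, ∑ c i t^i) = 0` formally, `f` analytic and not `0`: the series `∑ c i t^i` converges.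
-/

set_option autoImplicit false

open Topology Filter Asymptotics

noncomputable section

namespace Pool.Agent.MQ2.AC

open Pool.Agent.MQ (jet)

/-! ## divisibility by `t ^ n` -/

/-- `g` is divisible by `t ^ n` near `0` -/
def Dv (n : ℕ) (g : ℂ → ℂ) : Prop := ∃ k : ℂ → ℂ, AnalyticAt ℂ k 0 ∧ ∀ᶠ t in 𝓝 (0 : ℂ), g t = t ^ n * k t

/-- `g` has a zero of order `n` at `0` -/
def Oq (n : ℕ) (g : ℂ → ℂ) : Prop := ∃ k : ℂ → ℂ, AnalyticAt ℂ k 0 ∧ k 0 ≠ 0 ∧ ∀ᶠ t in 𝓝 (0 : ℂ), g t = t ^ n * k t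

theorem Dv.congr {n : ℕ} {g h : ℂ → ℂ} (hg : Dv n g) (e : ∀ᶠ t in 𝓝 (0 : ℂ), h t = g t) : Dv n h := by
  obtain ⟨k, h1, h2⟩ := hg
  exact ⟨k, h1, by filter_upwards [h2, e] with t a b; rw [b, a]⟩

theorem Dv.add {n : ℕ} {g h : ℂ → ℂ} (hg : Dv n g) (hh : Dv n h) : Dv n fun t => g t + h t := by
  obtain ⟨k, h1, h2⟩ := hg
  obtain ⟨l, h3, h4⟩ := hh
  exact ⟨fun t => k t + l t, h1.add h3, by filter_upwards [h2, h4] with t a b; rw [a, b]; ring⟩

theorem Dv.sub {n : ℕ} {g h : ℂ → ℂ} (hg : Dv n g) (hh : Dv n h) : Dv n fun t => g t - h t := by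
  obtain ⟨k, h1, h2⟩ := hg
  obtain ⟨l, h3, h4⟩ := hh
  exact ⟨fun t => k t - l t, h1.sub h3, by filter_upwards [h2, h4] with t a b; rw [a, b]; ring⟩

theorem Dv.mono {m n : ℕ} (hmn : m ≤ n) {g : ℂ → ℂ} (hg : Dv n g) : Dv m g := by
  obtain ⟨k, h1, h2⟩ := hg
  obtain ⟨d, rfl⟩ := Nat.exists_eq_add_of_le hmn
  exact ⟨fun t => t ^ d * k t, (analyticAt_id.pow d).mul h1, by filter_upwards [h2] with t a; rw [a, pow_add]; ring⟩

theorem Dv.pow_mul {n : ℕ} (a : ℕ) {g : ℂ → ℂ} (hg : Dv n g) : Dv (a + n) fun t => t ^ a * g t := by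
  obtain ⟨k, h1, h2⟩ := hg
  exact ⟨k, h1, by filter_upwards [h2] with t a; rw [a, pow_add]; ring⟩

theorem Dv.zero {n : ℕ} {g : ℂ → ℂ} (hg : Dv (n + 1) g) : g 0 = 0 := by
  obtain ⟨k, _, h2⟩ := hg
  rw [h2.self_of_nhds, zero_pow (Nat.succ_ne_zero n), zero_mul]

theorem Dv.isBigO {n : ℕ} {g : ℂ → ℂ} (hg : Dv n g) : g =O[𝓝 0] fun t => t ^ n := by
  obtain ⟨k, h1, h2⟩ := hg
  have h3 : k =O[𝓝 0] fun _ => (1 : ℂ) := h1.continuousAt.isBigO_one ℂ
  have h4 : (fun t : ℂ => t ^ n * k t) =O[𝓝 0] fun t => t ^ n * 1 := (isBigO_refl _ _).mul h3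
  refine (h4.congr' ?_ ?_)
  · filter_upwards [h2] with t a
    rw [a]
  · filter_upwards with t
    rw [mul_one]

theorem not_eventually_iff {g : ℂ → ℂ} (hg : AnalyticAt ℂ g 0) (h : ¬ ∀ᶠ t in 𝓝 (0 : ℂ), g t = 0) : ∃ n, Oq n g := by
  have h1 : analyticOrderAt g 0 ≠ ⊤ := fun h2 => h (analyticOrderAt_eq_top.1 h2)
  obtain ⟨n, hn⟩ := ENat.ne_top_iff_exists.1 h1
  obtain ⟨k, hk, hk0, he⟩ := (hg.analyticOrderAt_eq_natCast).1 hn.symm
  exact ⟨n, k, hk, hk0, by filter_upwards [he] with t a; rw [a, sub_zero, smul_eq_mul]⟩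

theorem Oq.dv_iff {n m : ℕ} {g : ℂ → ℂ} (h : Oq n g) (hd : Dv m g) : m ≤ n := by
  by_contra hlt
  rw [not_le] at hlt
  obtain ⟨k, h1, h2, h3⟩ := h
  obtain ⟨l, h4, h5⟩ := hd
  obtain ⟨d, rfl⟩ := Nat.exists_eq_add_of_lt hlt
  have h6 : ∀ᶠ t in 𝓝[≠] (0 : ℂ), k t = t ^ (d + 1) * l t := by
    filter_upwards [h3.filter_mono nhdsWithin_le_nhds, h5.filter_mono nhdsWithin_le_nhds, self_mem_nhdsWithin] with t a b ht
    have ht' : t ^ n ≠ 0 := pow_ne_zero _ ht
    have : t ^ n * k t = t ^ n * (t ^ (d + 1) * l t) := by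
      rw [← a, b]; ring
    exact mul_left_cancel₀ ht' this
  have h7 : Tendsto k (𝓝[≠] 0) (𝓝 (k 0)) := h1.continuousAt.tendsto.mono_left nhdsWithin_le_nhds
  have h8 : Tendsto (fun t : ℂ => t ^ (d + 1) * l t) (𝓝[≠] 0) (𝓝 ((0 : ℂ) ^ (d + 1) * l 0)) :=
    ((continuousAt_id.pow _).mul h4.continuousAt).tendsto.mono_left nhdsWithin_le_nhds
  have h9 := tendsto_nhds_unique (h7.congr' h6) h8
  rw [zero_pow (Nat.succ_ne_zero d), zero_mul] at h9
  exact h2 h9

theorem dv_of_isBigO {n : ℕ} {g : ℂ → ℂ} (hg : AnalyticAt ℂ g 0) (h : g =O[𝓝[≠] 0] fun t => t ^ n) : Dv n g := by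
  by_cases h0 : ∀ᶠ t in 𝓝 (0 : ℂ), g t = 0
  · exact ⟨fun _ => 0, analyticAt_const, by filter_upwards [h0] with t a; rw [a, mul_zero]⟩
  · obtain ⟨m, k, h1, h2, h3⟩ := not_eventually_iff hg h0
    by_cases hmn : n ≤ m
    · exact Dv.mono hmn ⟨k, h1, h3⟩
    · exfalso
      rw [not_le] at hmn
      obtain ⟨d, rfl⟩ := Nat.exists_eq_add_of_lt hmn
      obtain ⟨C, hC⟩ := h.bound
      have h4 : ∀ᶠ t in 𝓝[≠] (0 : ℂ), ‖k t‖ ≤ C * ‖t‖ ^ (d + 1) := by
        filter_upwards [hC, h3.filter_mono nhdsWithin_le_nhds, self_mem_nhdsWithin] with t a b ht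
        have ht' : 0 < ‖t‖ ^ m := pow_pos (norm_pos_iff.2 ht) _
        rw [b, norm_mul, norm_pow, norm_pow, show m + d + 1 = m + (d + 1) by ring, pow_add] at a
        have : ‖t‖ ^ m * ‖k t‖ ≤ ‖t‖ ^ m * (C * ‖t‖ ^ (d + 1)) := by linarith
        exact le_of_mul_le_mul_left this ht'
      have h5 : Tendsto (fun t : ℂ => C * ‖t‖ ^ (d + 1)) (𝓝[≠] 0) (𝓝 0) := by
        have h6 : Continuous fun t : ℂ => C * ‖t‖ ^ (d + 1) := by fun_prop
        have h7 := h6.tendsto 0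
        simp only [norm_zero, zero_pow (Nat.succ_ne_zero d), mul_zero] at h7
        exact h7.mono_left nhdsWithin_le_nhds
      have h8 : Tendsto k (𝓝[≠] 0) (𝓝 0) := squeeze_zero_norm' h4 h5
      have h9 : Tendsto k (𝓝[≠] 0) (𝓝 (k 0)) := h1.continuousAt.tendsto.mono_left nhdsWithin_le_nhds
      exact h2 (tendsto_nhds_unique h9 h8)

theorem Dv.cancel {a b : ℕ} {g : ℂ → ℂ} (hg : AnalyticAt ℂ g 0) (h : Dv (a + b) fun t => t ^ a * g t) : Dv b g := by
  obtain ⟨k, h1, h2⟩ := h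
  refine dv_of_isBigO hg ?_
  have h3 : (fun t : ℂ => t ^ b * k t) =O[𝓝[≠] 0] fun t => t ^ b := by
    have : Dv b fun t => t ^ b * k t := ⟨k, h1, Eventually.of_forall fun t => rfl⟩
    exact this.isBigO.mono nhdsWithin_le_nhds
  refine h3.congr' ?_ EventuallyEq.rfl
  filter_upwards [h2.filter_mono nhdsWithin_le_nhds, self_mem_nhdsWithin] with t e ht
  have ht' : t ^ a ≠ 0 := pow_ne_zero _ ht
  refine (mul_left_cancel₀ ht' ?_).symm
  rw [e]; ring

/-! ## substitution -/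

variable {F : ℂ × ℂ → ℂ} {p q : ℂ → ℂ}

theorem analytic_subst (hF : AnalyticAt ℂ F 0) (hp : AnalyticAt ℂ p 0) (hp0 : p 0 = 0) : AnalyticAt ℂ (fun t => F (t, p t)) 0 := by
  have h : ((0 : ℂ), p 0) = 0 := by simp [hp0]
  exact AnalyticAt.fun_comp (g := F) (f := fun t : ℂ => (t, p t)) (by rw [h]; exact hF) (analyticAt_id.prod hp)

theorem tendsto_subst (hp : AnalyticAt ℂ p 0) (hp0 : p 0 = 0) : Tendsto (fun t : ℂ => (t, p t)) (𝓝 0) (𝓝 0) := by
  have h : ContinuousAt (fun t : ℂ => (t, p t)) 0 := continuousAt_id.prodMk hp.continuousAt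
  have h2 : ((0 : ℂ), p 0) = 0 := by simp [hp0]
  have h3 := h.tendsto
  simp only [h2] at h3
  exact h3

/-- Lipschitz -/
theorem dv_subst (hF : AnalyticAt ℂ F 0) (hp : AnalyticAt ℂ p 0) (hp0 : p 0 = 0) (hq : AnalyticAt ℂ q 0) (hq0 : q 0 = 0) {n : ℕ}
    (h : Dv n fun t => p t - q t) : Dv n fun t => F (t, p t) - F (t, q t) := by
  refine dv_of_isBigO ((analytic_subst hF hp hp0).sub (analytic_subst hF hq hq0)) ?_
  obtain ⟨K, s, hs, hK⟩ := hF.hasStrictFDerivAt.exists_lipschitzOnWith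
  refine IsBigO.trans (IsBigO.of_bound (K : ℝ) ?_) (h.isBigO.mono nhdsWithin_le_nhds)
  filter_upwards [((tendsto_subst hp hp0).eventually hs).filter_mono nhdsWithin_le_nhds,
    ((tendsto_subst hq hq0).eventually hs).filter_mono nhdsWithin_le_nhds] with t a b
  have := hK.dist_le_mul _ a _ b
  rw [dist_eq_norm, dist_eq_norm, Prod.mk_sub_mk, sub_self, Prod.norm_mk, norm_zero, max_eq_right (norm_nonneg _)] at this
  exact this

/-- the derivative in the second variable -/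
def dyF (F : ℂ × ℂ → ℂ) (x : ℂ × ℂ) : ℂ := fderiv ℂ F x (0, 1)

theorem analytic_dyF {x : ℂ × ℂ} (hF : AnalyticAt ℂ F x) : AnalyticAt ℂ (dyF F) x :=
  (ContinuousLinearMap.apply ℂ ℂ ((0 : ℂ), (1 : ℂ))).analyticAt _ |>.comp hF.fderiv

theorem hasDerivAt_snd {t y : ℂ} (hF : AnalyticAt ℂ F (t, y)) : HasDerivAt (fun y => F (t, y)) (dyF F (t, y)) y := by
  have h1 : HasDerivAt (fun y : ℂ => (t, y)) ((0 : ℂ), (1 : ℂ)) y := (hasDerivAt_const y t).prodMk (hasDerivAt_id y)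
  exact hF.differentiableAt.hasFDerivAt.comp_hasDerivAt y h1

/-- Taylor's formula -/
theorem dv_taylor (hF : AnalyticAt ℂ F 0) (hp : AnalyticAt ℂ p 0) (hp0 : p 0 = 0) (hq : AnalyticAt ℂ q 0) (hq0 : q 0 = 0) {n : ℕ}
    (h : Dv n fun t => q t - p t) : Dv (n + n) fun t => F (t, q t) - F (t, p t) - dyF F (t, p t) * (q t - p t) := by
  have hdF := analytic_dyF hF
  refine dv_of_isBigO (((analytic_subst hF hq hq0).sub (analytic_subst hF hp hp0)).sub ((analytic_subst hdF hp hp0).mul (hq.sub hp))) ?_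
  obtain ⟨K, s, hs, hK⟩ := hdF.hasStrictFDerivAt.exists_lipschitzOnWith
  obtain ⟨r, hr, hball⟩ := Metric.eventually_nhds_iff_ball.1 (hF.eventually_analyticAt.and hs)
  have e1 : (fun t => (q t - p t) * (q t - p t)) =O[𝓝[≠] 0] fun t : ℂ => t ^ (n + n) := by
    simp only [pow_add]
    exact (h.isBigO.mul h.isBigO).mono nhdsWithin_le_nhds
  refine IsBigO.trans (IsBigO.of_bound (K : ℝ) ?_) e1
  have c1 : ∀ᶠ t in 𝓝 (0 : ℂ), ‖t‖ < r ∧ ‖p t‖ < r / 2 ∧ ‖q t - p t‖ < r / 2 := by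
    have a1 : Tendsto (fun t : ℂ => ‖t‖) (𝓝 0) (𝓝 0) := by simpa using (continuous_norm (E := ℂ)).tendsto 0
    have a2 : Tendsto (fun t : ℂ => ‖p t‖) (𝓝 0) (𝓝 0) := by simpa [hp0] using hp.continuousAt.norm.tendsto
    have a3 : Tendsto (fun t : ℂ => ‖q t - p t‖) (𝓝 0) (𝓝 0) := by simpa [hp0, hq0] using (hq.continuousAt.sub hp.continuousAt).norm.tendsto
    exact (a1.eventually (gt_mem_nhds hr)).and ((a2.eventually (gt_mem_nhds (half_pos hr))).and (a3.eventually (gt_mem_nhds (half_pos hr))))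
  filter_upwards [c1.filter_mono nhdsWithin_le_nhds] with t ht
  obtain ⟨t1, t2, t3⟩ := ht
  have hmem : ∀ y ∈ Metric.closedBall (p t) ‖q t - p t‖, ((t, y) : ℂ × ℂ) ∈ Metric.ball (0 : ℂ × ℂ) r := by
    intro y hy
    rw [mem_closedBall_iff_norm] at hy
    rw [mem_ball_zero_iff, Prod.norm_mk]
    refine max_lt t1 ?_
    calc ‖y‖ = ‖(y - p t) + p t‖ := by ring_nf
      _ ≤ ‖y - p t‖ + ‖p t‖ := norm_add_le _ _
      _ < r := by linarith
  have hpm : p t ∈ Metric.closedBall (p t) ‖q t - p t‖ := Metric.mem_closedBall_self (norm_nonneg _)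
  have hqm : q t ∈ Metric.closedBall (p t) ‖q t - p t‖ := by rw [mem_closedBall_iff_norm]
  have key := Convex.norm_image_sub_le_of_norm_hasDerivWithin_le (f := fun y => F (t, y) - dyF F (t, p t) * y)
    (f' := fun y => dyF F (t, y) - dyF F (t, p t)) (C := K * ‖q t - p t‖) (s := Metric.closedBall (p t) ‖q t - p t‖) (x := p t) (y := q t)
    (fun y hy => by
      have h1 := hasDerivAt_snd (hball _ (hmem y hy)).1
      have h2 : HasDerivAt (fun y : ℂ => dyF F (t, p t) * y) (dyF F (t, p t)) y := by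
        simpa using (hasDerivAt_id y).const_mul (dyF F (t, p t))
      exact (h1.sub h2).hasDerivWithinAt)
    (fun y hy => by
      have h1 := hK.dist_le_mul _ (hball _ (hmem y hy)).2 _ (hball _ (hmem _ hpm)).2
      rw [dist_eq_norm, dist_eq_norm, Prod.mk_sub_mk, sub_self, Prod.norm_mk, norm_zero, max_eq_right (norm_nonneg _)] at h1
      refine h1.trans (mul_le_mul_of_nonneg_left ?_ K.2)
      rwa [mem_closedBall_iff_norm] at hy)
    (convex_closedBall _ _) hpm hqm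
  have e2 : F (t, q t) - F (t, p t) - dyF F (t, p t) * (q t - p t) = F (t, q t) - dyF F (t, p t) * q t - (F (t, p t) - dyF F (t, p t) * p t) := by ring
  rw [e2, norm_mul]
  refine key.trans (le_of_eq ?_)
  ring

/-- division of a function of two variables, pointwise criterion -/
theorem exists_div_pow {H : ℂ × ℂ → ℂ} (hH : AnalyticAt ℂ H 0) {k : ℕ} (h : ∀ᶠ u in 𝓝 (0 : ℂ), Dv k fun t => H (t, u)) :
    ∃ G : ℂ × ℂ → ℂ, AnalyticAt ℂ G 0 ∧ ∀ᶠ x in 𝓝 (0 : ℂ × ℂ), H x = x.1 ^ k * G x := by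
  by_cases h0 : ∀ᶠ x in 𝓝 (0 : ℂ × ℂ), H x = 0
  · exact ⟨fun _ => 0, analyticAt_const, by filter_upwards [h0] with x a; rw [a, mul_zero]⟩
  · obtain ⟨a, G, hG, he, hn⟩ := Pool.Agent.H22.HF.exists_div hH h0
    have hak : k ≤ a := by
      have hc : Tendsto (fun u : ℂ => ((0 : ℂ), u)) (𝓝 0) (𝓝 0) := (by fun_prop : Continuous fun u : ℂ => ((0 : ℂ), u)).tendsto' _ _ rfl
      have h1 : ∀ᶠ u in 𝓝 (0 : ℂ), (∀ᶠ x in 𝓝 ((0 : ℂ), u), H x = x.1 ^ a * G x) ∧ AnalyticAt ℂ G (0, u) :=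
        (hc.eventually he.eventually_nhds).and (hc.eventually hG.eventually_analyticAt)
      have h2 : ∃ᶠ u in 𝓝 (0 : ℂ), G (0, u) ≠ 0 := by simpa [Filter.not_eventually] using hn
      obtain ⟨u, hu, ⟨h3, h4⟩, h5⟩ := (h2.and_eventually (h1.and h)).exists
      have hl : AnalyticAt ℂ (fun t : ℂ => (t, u)) 0 := analyticAt_id.prod analyticAt_const
      have h6 : Oq a fun t => H (t, u) := by
        refine ⟨fun t => G (t, u), AnalyticAt.fun_comp (g := G) (f := fun t : ℂ => (t, u)) h4 hl, hu, ?_⟩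
        exact (hl.continuousAt.tendsto.eventually h3)
      exact h6.dv_iff h5
    obtain ⟨d, rfl⟩ := Nat.exists_eq_add_of_le hak
    exact ⟨fun x => x.1 ^ d * G x, (analyticAt_fst.pow d).mul hG, by filter_upwards [he] with x a; rw [a, pow_add]; ring⟩

/-! ## jets -/

theorem analytic_jet (c : ℕ → ℂ) (n : ℕ) (t : ℂ) : AnalyticAt ℂ (jet c n) t := by
  unfold Pool.Agent.MQ.jet
  exact Finset.analyticAt_fun_sum _ fun i _ => analyticAt_const.mul (analyticAt_id.pow i)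

theorem jet_zero {c : ℕ → ℂ} (hc : c 0 = 0) (n : ℕ) : jet c n 0 = 0 := by
  unfold Pool.Agent.MQ.jet
  rw [Finset.sum_range_succ']
  simp [hc]

theorem jet_add (c : ℕ → ℂ) (n m : ℕ) (t : ℂ) : jet c (n + m) t = jet c n t + t ^ (n + 1) * ∑ i ∈ Finset.range m, c (n + 1 + i) * t ^ i := by
  unfold Pool.Agent.MQ.jet
  rw [show n + m + 1 = (n + 1) + m by ring, Finset.sum_range_add, Finset.mul_sum]
  congr 1
  refine Finset.sum_congr rfl fun i _ => ?_
  rw [pow_add]; ring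

theorem dv_jet (c : ℕ → ℂ) (n m : ℕ) : Dv (n + 1) fun t => jet c (n + m) t - jet c n t := by
  refine ⟨fun t => ∑ i ∈ Finset.range m, c (n + 1 + i) * t ^ i, ?_, Eventually.of_forall fun t => ?_⟩
  · exact Finset.analyticAt_fun_sum _ fun i _ => analyticAt_const.mul (analyticAt_id.pow i)
  · simp only [jet_add]; ring

theorem dv_jet' (c : ℕ → ℂ) {e n m : ℕ} (hn : e ≤ n) (hm : e ≤ m) : Dv (e + 1) fun t => jet c n t - jet c m t := by
  obtain ⟨a, rfl⟩ := Nat.exists_eq_add_of_le hn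
  obtain ⟨b, rfl⟩ := Nat.exists_eq_add_of_le hm
  refine ((dv_jet c e a).sub (dv_jet c e b)).congr (Eventually.of_forall fun t => ?_)
  ring

/-- `F` vanishes along the formal curve -/
def Flat (c : ℕ → ℂ) (F : ℂ × ℂ → ℂ) : Prop := ∀ n, Dv (n + 1) fun t => F (t, jet c n t)

theorem exists_flat {c : ℕ → ℂ} (hc : c 0 = 0) (N : ℕ) : ∀ {g : ℂ × ℂ → ℂ}, AnalyticAt ℂ g 0 → Flat c g → (Oq N fun y => g (0, y)) →
    ∃ F : ℂ × ℂ → ℂ, AnalyticAt ℂ F 0 ∧ Flat c F ∧ ¬ Flat c (dyF F) := by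
  induction N with
  | zero =>
    intro g hg hf ho
    exfalso
    obtain ⟨k, _, hk0, hk⟩ := ho
    have h1 := (hf 0).zero
    simp only [jet_zero hc] at h1
    have h2 := hk.self_of_nhds
    simp only at h2
    rw [h1, pow_zero, one_mul] at h2
    exact hk0 h2.symm
  | succ N ih =>
    intro g hg hf ho
    by_cases hd : Flat c (dyF g)
    · refine ih (analytic_dyF hg) hd ?_
      obtain ⟨k, hk, hk0, he⟩ := ho
      refine ⟨fun y => (N + 1) * k y + y * deriv k y, (analyticAt_const.mul hk).add (analyticAt_id.mul hk.deriv), ?_, ?_⟩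
      · simp only [zero_mul, add_zero]
        exact mul_ne_zero (by exact_mod_cast Nat.succ_ne_zero N) hk0
      · have hc2 : Tendsto (fun u : ℂ => ((0 : ℂ), u)) (𝓝 0) (𝓝 0) := (by fun_prop : Continuous fun u : ℂ => ((0 : ℂ), u)).tendsto' _ _ rfl
        filter_upwards [he.eventually_nhds, hc2.eventually hg.eventually_analyticAt, hk.eventually_analyticAt] with y a b d
        have h1 := hasDerivAt_snd b
        have h2 : HasDerivAt (fun y : ℂ => y ^ (N + 1) * k y) (((N + 1 : ℕ) : ℂ) * y ^ N * k y + y ^ (N + 1) * deriv k y) y := by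
          have h3 : HasDerivAt (fun y : ℂ => y ^ (N + 1) * k y) _ y := (hasDerivAt_pow (N + 1) y).mul d.differentiableAt.hasDerivAt
          refine h3.congr_deriv ?_
          simp
        have h4 := (h1.congr_of_eventuallyEq (f₁ := fun y => y ^ (N + 1) * k y) (by filter_upwards [a] with z hz; rw [hz])).unique h2
        rw [h4]
        push_cast
        ring
    · exact ⟨g, hg, hf, hd⟩

/-- the main step -/
theorem main {F : ℂ × ℂ → ℂ} (hF : AnalyticAt ℂ F 0) {c : ℕ → ℂ} (hc : c 0 = 0) (hf : Flat c F) (hd : ¬ Flat c (dyF F)) :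
    ∃ s : ℂ → ℂ, AnalyticAt ℂ s 0 ∧ s 0 = 0 ∧ ∀ n, Dv (n + 1) fun t => s t - jet c n t := by
  have hdF := analytic_dyF hF
  -- the order `e` of `∂F/∂y` along the curve
  obtain ⟨e, U, hU, hU0, he, hUe⟩ : ∃ (e : ℕ) (U : ℂ → ℂ), AnalyticAt ℂ U 0 ∧ U 0 ≠ 0 ∧ True ∧
      ∀ᶠ t in 𝓝 (0 : ℂ), dyF F (t, jet c (2 * e + 1) t) = t ^ e * U t := by
    rw [Flat, not_forall] at hd
    obtain ⟨J, hJ⟩ := hd
    have ha : AnalyticAt ℂ (fun t => dyF F (t, jet c J t)) 0 := analytic_subst hdF (analytic_jet c J 0) (jet_zero hc J)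
    obtain ⟨e, ho⟩ := not_eventually_iff ha fun h => hJ ⟨fun _ => 0, analyticAt_const, by filter_upwards [h] with t a; rw [a, mul_zero]⟩
    have heJ : e ≤ J := by
      by_contra hlt
      rw [not_le] at hlt
      obtain ⟨k, h1, h2, h3⟩ := ho
      exact hJ (Dv.mono hlt ⟨k, h1, h3⟩)
    obtain ⟨U₀, h1, h2, h3⟩ := ho
    obtain ⟨κ, h4, h5⟩ := dv_subst hdF (analytic_jet c (2 * e + 1) 0) (jet_zero hc _) (analytic_jet c J 0) (jet_zero hc J)
      (dv_jet' c (e := e) (n := 2 * e + 1) (m := J) (by omega) heJ)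
    refine ⟨e, fun t => U₀ t + t * κ t, h1.add (analyticAt_id.mul h4), ?_, trivial, ?_⟩
    · simpa using h2
    · filter_upwards [h3, h5] with t a b
      have : dyF F (t, jet c (2 * e + 1) t) = (dyF F (t, jet c (2 * e + 1) t) - dyF F (t, jet c J t)) + dyF F (t, jet c J t) := by ring
      rw [this, b, a, pow_succ]
      ring
  set p : ℂ → ℂ := jet c (2 * e + 1) with hp
  have hpa : AnalyticAt ℂ p 0 := analytic_jet c _ 0
  have hp0 : p 0 = 0 := jet_zero hc _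
  -- the function `H (t, u) = F (t, p t + t ^ (e + 1) u)`
  set H : ℂ × ℂ → ℂ := fun x => F (x.1, p x.1 + x.1 ^ (e + 1) * x.2) with hH
  have hm0 : AnalyticAt ℂ (fun x : ℂ × ℂ => (x.1, p x.1 + x.1 ^ (e + 1) * x.2)) 0 := by
    have h1 : AnalyticAt ℂ (fun x : ℂ × ℂ => p x.1) 0 := AnalyticAt.fun_comp (g := p) (f := fun x : ℂ × ℂ => x.1) (x := 0) hpa analyticAt_fst
    exact analyticAt_fst.prod (h1.add ((analyticAt_fst.pow _).mul analyticAt_snd))
  have hHa : AnalyticAt ℂ H 0 := by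
    have h2 : ((0 : ℂ × ℂ).1, p (0 : ℂ × ℂ).1 + (0 : ℂ × ℂ).1 ^ (e + 1) * (0 : ℂ × ℂ).2) = 0 := by simp [hp0]
    exact AnalyticAt.fun_comp (g := F) (f := fun x : ℂ × ℂ => (x.1, p x.1 + x.1 ^ (e + 1) * x.2)) (by rw [h2]; exact hF) hm0
  have hT : ∀ u : ℂ, Dv (2 * e + 2) fun t => H (t, u) - t ^ (2 * e + 1) * (U t * u) := by
    intro u
    have hqa : AnalyticAt ℂ (fun t => p t + t ^ (e + 1) * u) 0 := hpa.add ((analyticAt_id.pow _).mul analyticAt_const)
    have hq0 : (fun t => p t + t ^ (e + 1) * u) 0 = 0 := by simp [hp0]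
    have h1 := dv_taylor (n := e + 1) hF hpa hp0 hqa hq0 ⟨fun _ => u, analyticAt_const, Eventually.of_forall fun t => by ring⟩
    have h2 := hf (2 * e + 1)
    rw [show e + 1 + (e + 1) = 2 * e + 2 by ring] at h1
    rw [show 2 * e + 1 + 1 = 2 * e + 2 by ring] at h2
    refine (h1.add h2).congr ?_
    filter_upwards [hUe] with t ht
    rw [← hp, ht]
    simp only [hH]
    ring
  obtain ⟨G, hG, hGe⟩ := exists_div_pow hHa (k := 2 * e + 1) (Eventually.of_forall fun u => by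
    have h1 : Dv (2 * e + 1) fun t => t ^ (2 * e + 1) * (U t * u) := ⟨fun t => U t * u, hU.mul analyticAt_const, Eventually.of_forall fun t => rfl⟩
    refine (((hT u).mono (by omega)).add h1).congr (Eventually.of_forall fun t => ?_)
    ring)
  -- `G (0, u) = U (0) u`
  have hG0 : ∀ᶠ u in 𝓝 (0 : ℂ), G (0, u) = U 0 * u := by
    have hc : Tendsto (fun u : ℂ => ((0 : ℂ), u)) (𝓝 0) (𝓝 0) := (by fun_prop : Continuous fun u : ℂ => ((0 : ℂ), u)).tendsto' _ _ rfl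
    filter_upwards [hc.eventually hGe.eventually_nhds, hc.eventually hG.eventually_analyticAt] with u h1 h2
    have hl : AnalyticAt ℂ (fun t : ℂ => (t, u)) 0 := analyticAt_id.prod analyticAt_const
    have h3 : AnalyticAt ℂ (fun t => G (t, u)) 0 := AnalyticAt.fun_comp (g := G) (f := fun t : ℂ => (t, u)) h2 hl
    have h4 : Dv ((2 * e + 1) + 1) fun t => t ^ (2 * e + 1) * (G (t, u) - U t * u) := by
      refine (hT u).congr ?_
      filter_upwards [hl.continuousAt.tendsto.eventually h1] with t ht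
      rw [ht]
      ring
    have h5 := (h4.cancel (h3.sub (hU.mul analyticAt_const))).zero
    exact sub_eq_zero.1 h5
  have hG00 : G 0 = 0 := by
    have h1 : G (0, 0) = U 0 * 0 := hG0.self_of_nhds
    rw [mul_zero] at h1
    exact h1
  -- the inverse of `(t, u) ↦ (t, G (t, u))`
  set Ψ : ℂ × ℂ → ℂ × ℂ := fun x => (x.1, G x) with hΨ
  have hΨa : AnalyticAt ℂ Ψ 0 := analyticAt_fst.prod hG
  have hΨd : HasFDerivAt Ψ ((ContinuousLinearMap.fst ℂ ℂ ℂ).prod (fderiv ℂ G 0)) 0 := hasFDerivAt_fst.prodMk hG.differentiableAt.hasFDerivAt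
  have hdG : fderiv ℂ G 0 (0, 1) = U 0 := by
    have h1 : HasDerivAt (fun u => G (0, u)) (dyF G (0, 0)) 0 := hasDerivAt_snd (F := G) (t := 0) (y := 0) hG
    have h2 : HasDerivAt (fun u : ℂ => U 0 * u) (U 0) 0 := by simpa using (hasDerivAt_id (0 : ℂ)).const_mul (U 0)
    exact h1.unique (h2.congr_of_eventuallyEq hG0)
  obtain ⟨Θ, hΘ, hΘ1, hΘ2, hΘ0⟩ := Pool.Agent.H62.BU.local_inverse hΨa (by
    intro v hv
    rw [hΨd.fderiv] at hv
    simp only [ContinuousLinearMap.prod_apply, ContinuousLinearMap.coe_fst', Prod.mk_eq_zero] at hv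
    obtain ⟨a1, a2⟩ := hv
    have a3 : v = v.2 • ((0, 1) : ℂ × ℂ) := by ext <;> simp [a1]
    rw [a3, map_smul, smul_eq_mul, mul_eq_zero, hdG] at a2
    rcases a2 with a2 | a2
    · rw [a3, a2, zero_smul]
    · exact absurd a2 hU0)
  have hΨ0 : Ψ 0 = 0 := by ext <;> simp [hΨ, hG00]
  rw [hΨ0] at hΘ hΘ2 hΘ0
  set T : ℂ × ℂ → ℂ := fun x => (Θ x).2 with hTd
  have hTa : AnalyticAt ℂ T 0 := AnalyticAt.fun_comp (g := Prod.snd) (f := Θ) analyticAt_snd hΘ
  have hua : AnalyticAt ℂ (fun t => T (t, 0)) 0 := analytic_subst (p := fun _ => 0) hTa analyticAt_const rfl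
  have hu0 : T (0, 0) = 0 := by
    have : Θ (0, 0) = 0 := hΘ0
    simp [hTd, this]
  refine ⟨fun t => p t + t ^ (e + 1) * T (t, 0), hpa.add ((analyticAt_id.pow _).mul hua), by simp [hp0], fun n => ?_⟩
  -- the jets in terms of `u`
  set w : ℂ → ℂ := fun t => t ^ (e + 1) * ∑ i ∈ Finset.range n, c (2 * e + 1 + 1 + i) * t ^ i with hw
  have hwa : AnalyticAt ℂ w 0 := (analyticAt_id.pow _).mul (Finset.analyticAt_fun_sum _ fun i _ => analyticAt_const.mul (analyticAt_id.pow i))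
  have hw0 : w 0 = 0 := by simp [hw]
  have hjet : ∀ t, jet c (2 * e + 1 + n) t = p t + t ^ (e + 1) * w t := by
    intro t
    rw [jet_add, hw]
    simp only
    rw [show 2 * e + 1 + 1 = (e + 1) + (e + 1) by ring, pow_add]
    ring
  have hGw : Dv (n + 1) fun t => G (t, w t) := by
    refine Dv.cancel (a := 2 * e + 1) (analytic_subst hG hwa hw0) ?_
    have h1 := hf (2 * e + 1 + n)
    rw [show 2 * e + 1 + n + 1 = 2 * e + 1 + (n + 1) by ring] at h1
    refine h1.congr ?_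
    filter_upwards [(tendsto_subst hwa hw0).eventually hGe] with t ht
    simp only [hH] at ht
    rw [hjet, ← ht]
  have hGw0 : G (0, w 0) = 0 := by rw [hw0]; exact hG00
  have h2 : Dv (n + 1) fun t => T (t, G (t, w t)) - T (t, 0) :=
    dv_subst hTa (analytic_subst hG hwa hw0) hGw0 analyticAt_const rfl (hGw.congr (Eventually.of_forall fun t => by simp))
  have h3 : ∀ᶠ t in 𝓝 (0 : ℂ), T (t, G (t, w t)) = w t := by
    filter_upwards [(tendsto_subst hwa hw0).eventually hΘ1] with t ht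
    have : Θ (t, G (t, w t)) = (t, w t) := ht
    simp [hTd, this]
  have h4 : Dv (n + 1) fun t => t ^ (e + 1) * (T (t, G (t, w t)) - T (t, 0)) := (h2.pow_mul (e + 1)).mono (by omega)
  have h5 := dv_jet' c (e := n) (n := 2 * e + 1 + n) (m := n) (by omega) le_rfl
  refine (h5.sub h4).congr ?_
  filter_upwards [h3] with t ht
  rw [ht, hjet]
  ring

end Pool.Agent.MQ2.AC

namespace Pool.Agent.MQ2

open Pool.Agent.MQ (jet)
open AC

/-- a formal solution of an analytic equation converges -/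
theorem conv_of_alg {f : ℂ × ℂ → ℂ} (hf : AnalyticAt ℂ f 0) (hne : ¬ ∀ᶠ p in 𝓝 (0 : ℂ × ℂ), f p = 0) {c : ℕ → ℂ} (hc : c 0 = 0)
    (h : ∀ n, (fun t => f (t, jet c n t)) =O[𝓝 0] fun t : ℂ => t ^ (n + 1)) :
    ∃ s : ℂ → ℂ, AnalyticAt ℂ s 0 ∧ s 0 = 0 ∧ (∀ n, (fun t => s t - jet c n t) =O[𝓝 0] fun t : ℂ => t ^ (n + 1)) ∧
      ∀ᶠ t in 𝓝 (0 : ℂ), f (t, s t) = 0 := by
  have hflat : Flat c f := fun n => dv_of_isBigO (analytic_subst hf (analytic_jet c n 0) (jet_zero hc n)) ((h n).mono nhdsWithin_le_nhds)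
  obtain ⟨m, g, hg, hge, hgn⟩ := Pool.Agent.H22.HF.exists_div hf hne
  have hgflat : Flat c g := by
    intro n
    have h1 : Dv (n + 1) fun t => g (t, jet c (n + m) t) := by
      refine Dv.cancel (a := m) (analytic_subst hg (analytic_jet c _ 0) (jet_zero hc _)) ?_
      refine ((hflat (n + m)).mono (by omega)).congr ?_
      filter_upwards [(tendsto_subst (analytic_jet c (n + m) 0) (jet_zero hc _)).eventually hge] with t ht
      exact ht.symm
    have h2 := dv_subst hg (analytic_jet c (n + m) 0) (jet_zero hc _) (analytic_jet c n 0) (jet_zero hc _) (dv_jet c n m)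
    refine (h1.sub h2).congr (Eventually.of_forall fun t => ?_)
    ring
  have hl : AnalyticAt ℂ (fun y : ℂ => ((0 : ℂ), y)) 0 := analyticAt_const.prod analyticAt_id
  have hg0 : AnalyticAt ℂ (fun y => g (0, y)) 0 := AnalyticAt.fun_comp (g := g) (f := fun y : ℂ => ((0 : ℂ), y)) hg hl
  obtain ⟨N, hN⟩ := not_eventually_iff hg0 hgn
  obtain ⟨F, hF, hFf, hFd⟩ := exists_flat hc N hg hgflat hN
  obtain ⟨s, hs, hs0, hsn⟩ := AC.main hF hc hFf hFd
  refine ⟨s, hs, hs0, fun n => (hsn n).isBigO, ?_⟩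
  by_contra hcon
  obtain ⟨e, he⟩ := not_eventually_iff (analytic_subst hf hs hs0) hcon
  have h1 := dv_subst hf hs hs0 (analytic_jet c e 0) (jet_zero hc _) (hsn e)
  have h2 : Dv (e + 1) fun t => f (t, s t) := by
    refine (h1.add (hflat e)).congr (Eventually.of_forall fun t => ?_)
    ring
  have := he.dv_iff h2
  omega

end Pool.Agent.MQ2

end
end

section

/-!
# MQ2 Formal: the formal weak separatrix of a saddle-node
-/

set_option autoImplicit false

open Topology Filter Asymptotics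

noncomputable section

namespace Pool.Agent.MQ2

open Pool.Agent.MQ (jet)

namespace Formal

theorem jet_succ (c : ℕ → ℂ) (J : ℕ) (t : ℂ) : jet c (J + 1) t = jet c J t + c (J + 1) * t ^ (J + 1) := by
  unfold jet
  rw [Finset.sum_range_succ]

theorem jet_congr {c c' : ℕ → ℂ} {J : ℕ} (h : ∀ i ≤ J, c' i = c i) : jet c' J = jet c J := by
  funext t
  unfold jet
  exact Finset.sum_congr rfl fun i hi => by rw [h i (Nat.lt_succ_iff.1 (Finset.mem_range.1 hi))]

theorem jet_zero {c : ℕ → ℂ} (hc : c 0 = 0) (J : ℕ) : jet c J 0 = 0 := by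
  unfold jet
  refine Finset.sum_eq_zero fun i _ => ?_
  rcases Nat.eq_zero_or_pos i with h | h
  · rw [h, hc, zero_mul]
  · rw [zero_pow h.ne', mul_zero]

theorem analyticAt_jet (c : ℕ → ℂ) (J : ℕ) (t : ℂ) : AnalyticAt ℂ (jet c J) t := by
  have h : AnalyticAt ℂ (fun s : ℂ => ∑ i ∈ Finset.range (J + 1), c i * s ^ i) t :=
    Finset.analyticAt_fun_sum _ fun i _ => analyticAt_const.mul (analyticAt_id.pow i)
  exact h

/-- an analytic function of order at least `n` -/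
theorem exists_div {n : ℕ} : ∀ {f : ℂ → ℂ}, AnalyticAt ℂ f 0 → (f =O[𝓝 0] fun t : ℂ => t ^ n) →
    ∃ g : ℂ → ℂ, AnalyticAt ℂ g 0 ∧ ∀ᶠ t in 𝓝 (0 : ℂ), f t = t ^ n * g t := by
  induction n with
  | zero => exact fun {f} hf _ => ⟨f, hf, Eventually.of_forall fun t => by simp⟩
  | succ n ih =>
    intro f hf h
    have h1 : f =O[𝓝 0] fun t : ℂ => t ^ n := by
      refine h.trans ?_
      have h2 : (fun t : ℂ => t ^ (n + 1)) = fun t => t ^ n * t := by funext t; ring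
      rw [h2]
      have h3 : (fun t : ℂ => t) =O[𝓝 0] fun _ : ℂ => (1 : ℂ) := continuousAt_id.isBigO_one ℂ
      simpa using (isBigO_refl (fun t : ℂ => t ^ n) (𝓝 0)).mul h3
    obtain ⟨g, hg, he⟩ := ih hf h1
    -- `g 0 = 0`
    have hg0 : g 0 = 0 := by
      obtain ⟨C, hC⟩ := h.bound
      have h2 : ∀ᶠ t in 𝓝[≠] (0 : ℂ), ‖g t‖ ≤ C * ‖t‖ := by
        filter_upwards [hC.filter_mono nhdsWithin_le_nhds, he.filter_mono nhdsWithin_le_nhds, self_mem_nhdsWithin] with t ht1 ht2 ht3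
        have h0 : 0 < ‖t‖ ^ n := pow_pos (norm_pos_iff.2 ht3) n
        rw [ht2, norm_mul, norm_pow, norm_pow, pow_succ] at ht1
        have : ‖t‖ ^ n * ‖g t‖ ≤ ‖t‖ ^ n * (C * ‖t‖) := by linarith
        exact le_of_mul_le_mul_left this h0
      have h3 : Tendsto (fun t : ℂ => ‖g t‖) (𝓝[≠] 0) (𝓝 ‖g 0‖) := hg.continuousAt.norm.tendsto.mono_left nhdsWithin_le_nhds
      have h4 : Tendsto (fun t : ℂ => C * ‖t‖) (𝓝[≠] 0) (𝓝 0) := by
        have : Continuous fun t : ℂ => C * ‖t‖ := by fun_prop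
        have h5 := this.tendsto 0
        simp only [norm_zero, mul_zero] at h5
        exact h5.mono_left nhdsWithin_le_nhds
      have := le_of_tendsto_of_tendsto h3 h4 h2
      exact norm_le_zero_iff.1 this
    have hord : ((1 : ℕ) : ℕ∞) ≤ analyticOrderAt g 0 := by
      have : analyticOrderAt g 0 ≠ 0 := hg.analyticOrderAt_ne_zero.2 hg0
      exact_mod_cast Order.one_le_iff_ne_zero.2 this
    obtain ⟨g₁, hg₁, he₁⟩ := (natCast_le_analyticOrderAt hg).1 hord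
    refine ⟨g₁, hg₁, ?_⟩
    filter_upwards [he, he₁] with t ht ht₁
    rw [ht, ht₁]
    simp only [sub_zero, smul_eq_mul, pow_one]
    ring

/-- the leading coefficient -/
theorem exists_coeff {f : ℂ → ℂ} {n : ℕ} (hf : AnalyticAt ℂ f 0) (h : f =O[𝓝 0] fun t : ℂ => t ^ n) :
    ∃ r : ℂ, (fun t => f t - r * t ^ n) =o[𝓝 0] fun t : ℂ => t ^ n := by
  obtain ⟨g, hg, he⟩ := exists_div hf h
  refine ⟨g 0, ?_⟩
  have h1 : (fun t => g t - g 0) =o[𝓝 0] fun _ : ℂ => (1 : ℂ) := by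
    rw [isLittleO_one_iff]
    have := hg.continuousAt.tendsto.sub_const (g 0)
    rwa [sub_self] at this
  have h2 : (fun t => t ^ n * (g t - g 0)) =o[𝓝 0] fun t : ℂ => t ^ n := by
    simpa using (isBigO_refl (fun t : ℂ => t ^ n) (𝓝 0)).mul_isLittleO h1
  refine h2.congr' ?_ EventuallyEq.rfl
  filter_upwards [he] with t ht
  rw [ht]
  ring

theorem isBigO_succ {f : ℂ → ℂ} {n : ℕ} (hf : AnalyticAt ℂ f 0) (h : f =o[𝓝 0] fun t : ℂ => t ^ n) : f =O[𝓝 0] fun t : ℂ => t ^ (n + 1) := by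
  obtain ⟨g, hg, he⟩ := exists_div hf h.isBigO
  have hg0 : g 0 = 0 := by
    by_contra h0
    have h1 : Tendsto (fun t => f t / t ^ n) (𝓝[≠] 0) (𝓝 0) := (h.mono nhdsWithin_le_nhds).tendsto_div_nhds_zero
    have h2 : Tendsto (fun t => f t / t ^ n) (𝓝[≠] 0) (𝓝 (g 0)) := by
      refine (hg.continuousAt.tendsto.mono_left nhdsWithin_le_nhds).congr' ?_
      filter_upwards [he.filter_mono nhdsWithin_le_nhds, self_mem_nhdsWithin] with t ht ht0
      rw [ht, mul_div_cancel_left₀ _ (pow_ne_zero n ht0)]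
    exact h0 (tendsto_nhds_unique h2 h1)
  have h3 : g =O[𝓝 0] fun t : ℂ => t := by
    have := hg.differentiableAt.isBigO_sub
    simpa [hg0] using this
  have h4 : (fun t => t ^ n * g t) =O[𝓝 0] fun t : ℂ => t ^ (n + 1) := by
    have h5 : (fun t : ℂ => t ^ (n + 1)) = fun t => t ^ n * t := by funext t; ring
    rw [h5]
    exact (isBigO_refl (fun t : ℂ => t ^ n) (𝓝 0)).mul h3
  exact h4.congr' (by filter_upwards [he] with t ht; rw [ht]) EventuallyEq.rfl

/-- the defect of the jet -/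
def Df (a b : ℂ × ℂ → ℂ) (k : ℕ) (c : ℕ → ℂ) (J : ℕ) (t : ℂ) : ℂ :=
  b (t, jet c J t) - deriv (jet c J) t * (t ^ (k + 1) * a (t, jet c J t))

theorem analyticAt_pair {c : ℕ → ℂ} (hc : c 0 = 0) (J : ℕ) {f : ℂ × ℂ → ℂ} (hf : AnalyticAt ℂ f 0) :
    AnalyticAt ℂ (fun t : ℂ => f (t, jet c J t)) 0 := by
  have h1 : AnalyticAt ℂ (fun t : ℂ => (t, jet c J t)) 0 := analyticAt_id.prod (analyticAt_jet c J 0)
  have h2 : (fun t : ℂ => (t, jet c J t)) 0 = 0 := by simp [jet_zero hc]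
  exact AnalyticAt.comp_of_eq hf h1 h2

theorem analyticAt_Df {a b : ℂ × ℂ → ℂ} (ha : AnalyticAt ℂ a 0) (hb : AnalyticAt ℂ b 0) (k : ℕ) {c : ℕ → ℂ} (hc : c 0 = 0) (J : ℕ) :
    AnalyticAt ℂ (Df a b k c J) 0 :=
  (analyticAt_pair hc J hb).sub ((analyticAt_jet c J 0).deriv.mul ((analyticAt_id.pow (k + 1)).mul (analyticAt_pair hc J ha)))

theorem step {a b : ℂ × ℂ → ℂ} (ha : AnalyticAt ℂ a 0) (hb : AnalyticAt ℂ b 0) (hb1 : fderiv ℂ b 0 (0, 1) ≠ 0) {k : ℕ} (hk : 1 ≤ k)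
    {c : ℕ → ℂ} (hc : c 0 = 0) {J : ℕ} (h : Df a b k c J =O[𝓝 0] fun t : ℂ => t ^ (J + 1)) :
    ∃ x : ℂ, ∀ c' : ℕ → ℂ, (∀ i ≤ J, c' i = c i) → c' (J + 1) = x → Df a b k c' (J + 1) =O[𝓝 0] fun t : ℂ => t ^ (J + 1 + 1) := by
  obtain ⟨r, hr⟩ := exists_coeff (analyticAt_Df ha hb k hc J) h
  set β := fderiv ℂ b 0 (0, 1) with hβ
  refine ⟨-r / β, fun c' hc' hx => ?_⟩
  set x := -r / β with hxd
  have hc0' : c' 0 = 0 := by rw [hc' 0 (Nat.zero_le _), hc]
  have hj : ∀ t, jet c' (J + 1) t = jet c J t + x * t ^ (J + 1) := fun t => by rw [jet_succ, jet_congr hc', hx]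
  have hdj : ∀ t, deriv (jet c' (J + 1)) t = deriv (jet c J) t + x * ((J + 1) * t ^ J) := by
    intro t
    have e : jet c' (J + 1) = fun t => jet c J t + x * t ^ (J + 1) := funext hj
    have h1 : HasDerivAt (fun t : ℂ => x * t ^ (J + 1)) (x * ((J + 1) * t ^ J)) t := by
      have := (hasDerivAt_pow (J + 1) t).const_mul x
      simpa using this
    rw [e]
    exact ((analyticAt_jet c J t).differentiableAt.hasDerivAt.add h1).deriv
  -- the two curves
  set p : ℂ → ℂ × ℂ := fun t => (t, jet c' (J + 1) t) with hp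
  set q : ℂ → ℂ × ℂ := fun t => (t, jet c J t) with hq
  have hpt : Tendsto p (𝓝 0) (𝓝 0) := by
    have h1 : ContinuousAt p 0 := continuousAt_id.prodMk (analyticAt_jet c' (J + 1) 0).continuousAt
    have h2 : p 0 = 0 := by simp [hp, jet_zero hc0']
    rw [← h2]
    conv_rhs => rw [h2]
    have := h1.tendsto
    rwa [h2] at this
  have hqt : Tendsto q (𝓝 0) (𝓝 0) := by
    have h1 : ContinuousAt q 0 := continuousAt_id.prodMk (analyticAt_jet c J 0).continuousAt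
    have h2 : q 0 = 0 := by simp [hq, jet_zero hc]
    have := h1.tendsto
    rwa [h2] at this
  have hpq : ∀ t, p t - q t = (0, x * t ^ (J + 1)) := by
    intro t
    simp only [hp, hq, hj, Prod.mk_sub_mk, sub_self, add_sub_cancel_left]
  have hpqO : (fun t => p t - q t) =O[𝓝 0] fun t : ℂ => t ^ (J + 1) := by
    refine IsBigO.of_bound ‖x‖ (Eventually.of_forall fun t => ?_)
    rw [hpq]
    have h0 : 0 ≤ ‖x‖ * ‖t‖ ^ (J + 1) := by positivity
    simpa [Prod.norm_def] using h0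
  have hpair : Tendsto (fun t => (p t, q t)) (𝓝 0) (𝓝 ((0 : ℂ × ℂ), (0 : ℂ × ℂ))) := by
    rw [nhds_prod_eq]
    exact hpt.prodMk hqt
  -- `b`
  have hB : (fun t => b (p t) - b (q t) - β * (x * t ^ (J + 1))) =o[𝓝 0] fun t : ℂ => t ^ (J + 1) := by
    have h1 := hb.hasStrictFDerivAt.isLittleO.comp_tendsto hpair
    have h2 : (fun t => b (p t) - b (q t) - fderiv ℂ b 0 (p t - q t)) =o[𝓝 0] fun t => p t - q t := h1
    refine (h2.trans_isBigO hpqO).congr' (Eventually.of_forall fun t => ?_) EventuallyEq.rfl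
    have h3 : fderiv ℂ b 0 (p t - q t) = β * (x * t ^ (J + 1)) := by
      rw [hpq]
      have : ((0 : ℂ), x * t ^ (J + 1)) = (x * t ^ (J + 1)) • ((0 : ℂ), (1 : ℂ)) := by simp
      rw [this, map_smul, smul_eq_mul, mul_comm]
    simp only [h3]
  -- `a`
  have hA : (fun t => a (p t) - a (q t)) =O[𝓝 0] fun t : ℂ => t ^ (J + 1) := by
    have h1 := hb.hasStrictFDerivAt
    have h2 := ha.hasStrictFDerivAt.isBigO_sub.comp_tendsto hpair
    exact IsBigO.trans h2 hpqO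
  have hap : (fun t => a (p t)) =O[𝓝 0] fun _ : ℂ => (1 : ℂ) :=
    ((ha.continuousAt.tendsto.comp hpt).isBigO_one ℂ)
  have htk : (fun t : ℂ => t ^ (k + 1)) =o[𝓝 0] fun _ : ℂ => (1 : ℂ) := by
    rw [isLittleO_one_iff]
    have : Continuous fun t : ℂ => t ^ (k + 1) := by fun_prop
    have h5 := this.tendsto 0
    simpa using h5
  have hdjO : (fun t => deriv (jet c J) t) =O[𝓝 0] fun _ : ℂ => (1 : ℂ) :=
    ((analyticAt_jet c J 0).deriv.continuousAt.tendsto.isBigO_one ℂ)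
  have hT1 : (fun t => deriv (jet c J) t * (t ^ (k + 1) * (a (p t) - a (q t)))) =o[𝓝 0] fun t : ℂ => t ^ (J + 1) := by
    have := hdjO.mul_isLittleO (htk.mul_isBigO hA)
    simpa using this
  have hT2 : (fun t => x * ((J + 1) * t ^ J) * (t ^ (k + 1) * a (p t))) =o[𝓝 0] fun t : ℂ => t ^ (J + 1) := by
    have hk' : (fun t : ℂ => t ^ k) =o[𝓝 0] fun _ : ℂ => (1 : ℂ) := by
      rw [isLittleO_one_iff]
      have : Continuous fun t : ℂ => t ^ k := by fun_prop
      have h5 := this.tendsto 0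
      simpa [zero_pow (by omega : k ≠ 0)] using h5
    have h1 : (fun t : ℂ => t ^ (J + 1) * (t ^ k * a (p t))) =o[𝓝 0] fun t : ℂ => t ^ (J + 1) := by
      simpa using (isBigO_refl (fun t : ℂ => t ^ (J + 1)) (𝓝 0)).mul_isLittleO (hk'.mul_isBigO hap)
    refine (h1.const_mul_left (x * (J + 1))).congr' (Eventually.of_forall fun t => ?_) EventuallyEq.rfl
    ring
  -- assembly
  have hβ0 : β * x = -r := by rw [hxd]; field_simp
  refine isBigO_succ (analyticAt_Df ha hb k hc0' (J + 1)) ?_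
  have := ((hr.add hB).sub hT1).sub hT2
  refine this.congr' (Eventually.of_forall fun t => ?_) EventuallyEq.rfl
  simp only [Df]
  rw [hdj]
  change b (q t) - deriv (jet c J) t * (t ^ (k + 1) * a (q t)) - r * t ^ (J + 1) + (b (p t) - b (q t) - β * (x * t ^ (J + 1))) -
    deriv (jet c J) t * (t ^ (k + 1) * (a (p t) - a (q t))) - x * ((J + 1) * t ^ J) * (t ^ (k + 1) * a (p t)) =
    b (p t) - (deriv (jet c J) t + x * ((J + 1) * t ^ J)) * (t ^ (k + 1) * a (p t))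
  have h6 : β * (x * t ^ (J + 1)) = -r * t ^ (J + 1) := by rw [← mul_assoc, hβ0]
  rw [h6]
  ring

end Formal

open Formal

/-- **Module Formal.**  The formal curve `y = ∑ c i x ^ i` which is invariant by `x ^ (k + 1) a ∂/∂x + b ∂/∂y`, `b (0) = 0`, `b_y (0) ≠ 0`. -/
theorem exists_formal {a b : ℂ × ℂ → ℂ} (ha : AnalyticAt ℂ a 0) (hb : AnalyticAt ℂ b 0) (hb0 : b 0 = 0) (hb1 : fderiv ℂ b 0 (0, 1) ≠ 0)
    {k : ℕ} (hk : 1 ≤ k) : ∃ c : ℕ → ℂ, c 0 = 0 ∧
      ∀ J, (fun t => b (t, jet c J t) - deriv (jet c J) t * (t ^ (k + 1) * a (t, jet c J t))) =O[𝓝 0] fun t : ℂ => t ^ (J + 1) := by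
  classical
  -- the recursion
  have hstep : ∀ (J : ℕ) (c : {c : ℕ → ℂ // c 0 = 0 ∧ Df a b k c J =O[𝓝 0] fun t : ℂ => t ^ (J + 1)}),
      ∃ c' : {c : ℕ → ℂ // c 0 = 0 ∧ Df a b k c (J + 1) =O[𝓝 0] fun t : ℂ => t ^ (J + 1 + 1)}, ∀ i ≤ J, c'.1 i = c.1 i := by
    rintro J ⟨c, hc, h⟩
    obtain ⟨x, hx⟩ := step ha hb hb1 hk hc h
    have h1 : ∀ i ≤ J, Function.update c (J + 1) x i = c i := fun i hi => Function.update_of_ne (by omega) _ _
    refine ⟨⟨Function.update c (J + 1) x, ?_, hx _ h1 (Function.update_self _ _ _)⟩, h1⟩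
    rw [h1 0 (Nat.zero_le _), hc]
  choose nxt hnxt using hstep
  have h0 : Df a b k (fun _ => 0) 0 =O[𝓝 0] fun t : ℂ => t ^ (0 + 1) := by
    have hj : jet (fun _ => 0) 0 = fun _ => 0 := by funext t; simp [jet]
    have e : Df a b k (fun _ => 0) 0 = fun t => b (t, 0) := by
      funext t
      simp [Df, hj]
    have h1 : DifferentiableAt ℂ (fun t : ℂ => b (t, 0)) 0 := by
      have h2 : DifferentiableAt ℂ (fun t : ℂ => (t, (0 : ℂ))) 0 := by fun_prop
      exact DifferentiableAt.comp (0 : ℂ) (g := b) (f := fun t : ℂ => (t, (0 : ℂ))) hb.differentiableAt h2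
    have h3 := h1.isBigO_sub
    have h4 : b ((0 : ℂ), (0 : ℂ)) = 0 := hb0
    rw [e]
    simpa [h4] using h3
  let S : ∀ J : ℕ, {c : ℕ → ℂ // c 0 = 0 ∧ Df a b k c J =O[𝓝 0] fun t : ℂ => t ^ (J + 1)} := fun J =>
    Nat.rec ⟨fun _ => 0, rfl, h0⟩ (fun J c => nxt J c) J
  have hS : ∀ J, ∀ i ≤ J, (S (J + 1)).1 i = (S J).1 i := fun J => hnxt J (S J)
  have hS' : ∀ J i, i ≤ J → (S J).1 i = (S i).1 i := by
    intro J
    induction J with
    | zero => intro i hi; rw [Nat.le_zero.1 hi]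
    | succ J ih =>
      intro i hi
      rcases Nat.lt_or_ge i (J + 1) with h | h
      · rw [hS J i (by omega), ih i (by omega)]
      · rw [le_antisymm hi h]
  refine ⟨fun i => (S i).1 i, (S 0).2.1, fun J => ?_⟩
  have hj : jet (fun i => (S i).1 i) J = jet (S J).1 J := jet_congr fun i hi => (hS' J i hi).symm
  rw [hj]
  exact (S J).2.2

end Pool.Agent.MQ2

end
end
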