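import Pool.Agent.H43.TL2.M28
import Pool.Agent.H43.TL2.M29
import Pool.Agent.H43.TL2.M33
import Pool.Agent.H43.TL2.M35
import Pool.Agent.H43.TL2.M36
import Pool.Agent.H43.TL2.M41
import Pool.Agent.H43.TL2.M48
import Pool.Agent.H43.TL2.M49

/-! The parts of this file: H13.CV.Step, H13.OT.Wrap, H62.Qe.Defs, H7.Bir.Alg, H7.Bir.Main, MQ2.SepF, MQ2.SingF, MQ2.StepS. -/

section

/-!
# CV Step: one more condition at a place lowers the dimension by at most one

`finrank_le_step`: let `oz E t = 1` (`exists_uni`).  The map `W → ℂ`, `f ↦ res E (f * t ^ (-d))` is linear (`res_add`, `res_smul`: `0 ≤ ord (f * t ^ (-d))` for `f ∈ W`), and its kernel is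
`W ⊓ ordGe E (d + 1)` (`res_eq_zero_iff`).  Rank-nullity: `LinearMap.finrank_range_add_finrank_ker`, and the range has dimension `≤ 1`.
`finrank_le_steps`: induction on `T`, and on `e E` for the new place.
-/

set_option autoImplicit false

open Pool.Agent.H23.Fano (PrimeDivisorOver Form regularForms)

noncomputable section

namespace Pool.Agent.H13.CV

variable {K : Type} [Field K] [Algebra ℂ K]

theorem mem_ordGe {E : Place K} {d : ℤ} {f : K} : f ∈ ordGe E d ↔ (d : WithTop ℤ) ≤ E.ord f := Iff.rfl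

theorem mem_LD {D : Place K → ℤ} {f : K} : f ∈ LD D ↔ ∀ E, ((-D E : ℤ) : WithTop ℤ) ≤ E.ord f := by
  rw [LD, Submodule.mem_iInf]
  exact Iff.rfl

theorem ordGe_anti (E : Place K) {d d' : ℤ} (h : d ≤ d') : ordGe E d' ≤ ordGe E d := by
  intro f hf
  rw [mem_ordGe] at hf ⊢
  exact le_trans (WithTop.coe_le_coe.mpr h) hf

/-- the twisted function is regular -/
private theorem Step_nonneg {E : Place K} {u f : K} {d : ℤ} (hu : u ≠ 0) (hou : oz E u = -d) (hf : f ∈ ordGe E d) :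
    0 ≤ E.ord (f * u) := by
  rw [nonneg_iff]
  rw [mem_ordGe, le_ord_iff] at hf
  by_cases h0 : f = 0
  · left
    rw [h0, zero_mul]
  · right
    rw [oz_mul E h0 hu, hou]
    rcases hf with h | h
    · exact absurd h h0
    · omega

/-- the twisted function vanishes at the place iff the order is one larger -/
private theorem Step_pos {E : Place K} {u f : K} {d : ℤ} (hu : u ≠ 0) (hou : oz E u = -d) (h : 0 < E.ord (f * u)) :
    f ∈ ordGe E (d + 1) := by
  rw [mem_ordGe, le_ord_iff]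
  by_cases h0 : f = 0
  · left
    exact h0
  · right
    rw [pos_iff, oz_mul E h0 hu, hou] at h
    rcases h with h | h
    · exact absurd h (mul_ne_zero h0 hu)
    · omega

/-- the linear map: the leading coefficient -/
private def Step_map (hK : CurveField K) (W : Submodule ℂ K) (E : Place K) (d : ℤ) (hW : W ≤ ordGe E d) (u : K)
    (hu : u ≠ 0) (hou : oz E u = -d) : W →ₗ[ℂ] ℂ where
  toFun f := res E ((f : K) * u)
  map_add' f g := by
    show res E (((f + g : W) : K) * u) = _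
    rw [Submodule.coe_add, add_mul]
    exact res_add hK (Step_nonneg hu hou (hW f.2)) (Step_nonneg hu hou (hW g.2))
  map_smul' c f := by
    show res E (((c • f : W) : K) * u) = _
    rw [Submodule.coe_smul, smul_mul_assoc]
    exact res_smul hK c (Step_nonneg hu hou (hW f.2))

theorem finrank_le_step (hK : CurveField K) (W : Submodule ℂ K) [FiniteDimensional ℂ W] (E : Place K) (d : ℤ) (hW : W ≤ ordGe E d) :
    Module.finrank ℂ W ≤ Module.finrank ℂ (W ⊓ ordGe E (d + 1) : Submodule ℂ K) + 1 := by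
  obtain ⟨t, ht, hot⟩ := exists_uni E
  have hu : t ^ (-d) ≠ 0 := zpow_ne_zero _ ht
  have hou : oz E (t ^ (-d)) = -d := by
    rw [oz_zpow, hot, mul_one]
  have hrk := LinearMap.finrank_range_add_finrank_ker (Step_map hK W E d hW (t ^ (-d)) hu hou)
  have hr : Module.finrank ℂ (LinearMap.range (Step_map hK W E d hW (t ^ (-d)) hu hou)) ≤ 1 := by
    have h := Submodule.finrank_le (LinearMap.range (Step_map hK W E d hW (t ^ (-d)) hu hou))
    rwa [Module.finrank_self] at h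
  have hk : Module.finrank ℂ (LinearMap.ker (Step_map hK W E d hW (t ^ (-d)) hu hou)) ≤
      Module.finrank ℂ (W ⊓ ordGe E (d + 1) : Submodule ℂ K) := by
    rw [← Submodule.finrank_map_subtype_eq W (LinearMap.ker (Step_map hK W E d hW (t ^ (-d)) hu hou))]
    refine Submodule.finrank_mono ?_
    rintro f hf
    obtain ⟨g, hg, rfl⟩ := Submodule.mem_map.mp hf
    refine Submodule.mem_inf.mpr ⟨g.2, ?_⟩
    have h1 : res E ((g : K) * t ^ (-d)) = 0 := hg
    have h2 := (res_eq_zero_iff hK (Step_nonneg hu hou (hW g.2))).mp h1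
    exact Step_pos hu hou h2
  omega

private theorem Step_iter (hK : CurveField K) (W : Submodule ℂ K) [FiniteDimensional ℂ W] (E : Place K) (d : ℤ)
    (hW : W ≤ ordGe E d) (k : ℕ) :
    Module.finrank ℂ W ≤ Module.finrank ℂ (W ⊓ ordGe E (d + k) : Submodule ℂ K) + k := by
  induction k with
  | zero =>
    have h : W ⊓ ordGe E (d + (0 : ℕ)) = W := by
      rw [Nat.cast_zero, add_zero]
      exact inf_eq_left.mpr hW
    rw [h, add_zero]
  | succ k ih =>
    have h1 := finrank_le_step hK (W ⊓ ordGe E (d + k)) E (d + k) inf_le_right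
    have h2 : (W ⊓ ordGe E (d + k)) ⊓ ordGe E (d + k + 1) = W ⊓ ordGe E (d + ((k + 1 : ℕ) : ℤ)) := by
      have h3 : d + (k : ℤ) + 1 = d + ((k + 1 : ℕ) : ℤ) := by
        push_cast
        ring
      rw [inf_assoc, inf_eq_right.mpr (ordGe_anti E (by omega : d + (k : ℤ) ≤ d + (k : ℤ) + 1)), h3]
    rw [h2] at h1
    omega

theorem finrank_le_steps (hK : CurveField K) (W : Submodule ℂ K) [FiniteDimensional ℂ W] (T : Finset (Place K)) (d : Place K → ℤ) (e : Place K → ℕ)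
    (hW : ∀ E ∈ T, W ≤ ordGe E (d E)) :
    Module.finrank ℂ W ≤ Module.finrank ℂ (W ⊓ ⨅ E ∈ T, ordGe E (d E + e E) : Submodule ℂ K) + ∑ E ∈ T, e E := by
  classical
  induction T using Finset.induction_on with
  | empty =>
    have h : W ⊓ ⨅ E ∈ (∅ : Finset (Place K)), ordGe E (d E + e E) = W :=
      inf_eq_left.mpr (le_iInf fun E => le_iInf fun hE => absurd hE (Finset.notMem_empty E))
    rw [h]
    exact Nat.le_add_right _ _
  | insert E T hE ih =>
    have ih' := ih fun E' hE' => hW E' (Finset.mem_insert_of_mem hE')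
    have hle : W ⊓ ⨅ E' ∈ T, ordGe E' (d E' + e E') ≤ ordGe E (d E) :=
      le_trans inf_le_left (hW E (Finset.mem_insert_self E T))
    have h1 := Step_iter hK (W ⊓ ⨅ E' ∈ T, ordGe E' (d E' + e E')) E (d E) hle (e E)
    have h2 : (W ⊓ ⨅ E' ∈ T, ordGe E' (d E' + e E')) ⊓ ordGe E (d E + e E) =
        W ⊓ ⨅ E' ∈ insert E T, ordGe E' (d E' + e E') := by
      rw [Finset.iInf_insert, inf_assoc, inf_comm (ordGe E (d E + e E))]
    rw [h2] at h1
    rw [Finset.sum_insert hE]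
    omega

end Pool.Agent.H13.CV

end
end

section

/-!
# Entire curves of order two in projective spaces
-/

set_option autoImplicit false

namespace Pool.Agent.H13.OT

open Filter Topology Metric
open Pool.Agent.H17BP (Pr HolP)
open Pool.Agent.H17 (PN HolomorphicInto EntFun exists_global_lift ZariskiClosedIn)
open Pool.Agent.H36.BP (OrdTwo)

variable {N : ℕ}

/-- The entire curve `f : ℂ → ℙ^N` has `T_f(r) = O(r²)`, so that it has order at most two. Here
`T_f(r)` is the characteristic function, that is, the mean value of `log ‖F‖` over the circle of radius `r` minus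
`log ‖F 0‖`, where `F : ℂ → ℂ^(N+1)` is an entire function without zeros which represents `f`. -/
def OrderTwo (f : ℂ → PN N) : Prop :=
  ∃ (F : ℂ → Fin (N + 1) → ℂ) (A : ℝ), Differentiable ℂ F ∧ (∀ z, ∃ h : F z ≠ 0, f z = Projectivization.mk ℂ (F z) h) ∧
    ∀ r : ℝ, 0 < r → Real.circleAverage (fun z => Real.log ‖F z‖) 0 r ≤ A * (1 + r ^ 2)

theorem mk_eq_of_pr {x y : Fin (N + 1) → ℂ} (h : Pr x y) (hx : x ≠ 0) (hy : y ≠ 0) :
    Projectivization.mk ℂ x hx = Projectivization.mk ℂ y hy := by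
  obtain ⟨c, hc, h⟩ := h
  rw [Projectivization.mk_eq_mk_iff']
  exact ⟨c, h.symm⟩

theorem pr_of_mk_eq {x y : Fin (N + 1) → ℂ} (hx : x ≠ 0) (hy : y ≠ 0)
    (h : Projectivization.mk ℂ x hx = Projectivization.mk ℂ y hy) : Pr x y := by
  rw [Projectivization.mk_eq_mk_iff'] at h
  obtain ⟨a, ha⟩ := h
  refine ⟨a, ?_, ha.symm⟩
  rintro rfl
  rw [zero_smul] at ha
  exact hx ha.symm

/-- the map into the projective space of a map into the cone is holomorphic -/
theorem holomorphicInto_mk {f : ℂ → Fin (N + 1) → ℂ} (hf0 : ∀ z, f z ≠ 0) (hf : ∀ z, HolP f z) :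
    HolomorphicInto (fun z => Projectivization.mk ℂ (f z) (hf0 z)) Set.univ := by
  intro z₀ _
  obtain ⟨G, hG, hG0, he⟩ := hf z₀
  refine ⟨G, hG, ?_⟩
  filter_upwards [he, hG.continuousAt.eventually_ne hG0] with z h1 h2
  exact ⟨h2, mk_eq_of_pr h1 (hf0 z) h2⟩

/-- the definition with bounded lifts on discs implies the definition with the characteristic function -/
theorem OrdTwo.orderTwo {f : ℂ → Fin (N + 1) → ℂ} (hf0 : ∀ z, f z ≠ 0) (hf : ∀ z, HolP f z) (h : OrdTwo f) :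
    OrderTwo (fun z => Projectivization.mk ℂ (f z) (hf0 z)) := by
  obtain ⟨x, hx⟩ := exists_global_lift (holomorphicInto_mk hf0 hf)
  set F₀ : ℂ → Fin (N + 1) → ℂ := fun z j => (x j : ℂ → ℂ) z with hF₀
  have hdiff : Differentiable ℂ F₀ := by
    rw [differentiable_pi]
    intro j
    exact (x j).2
  have hlift : ∀ z, F₀ z ≠ 0 ∧ Pr (f z) (F₀ z) := by
    intro z
    obtain ⟨h1, h2⟩ := hx z
    exact ⟨h1, pr_of_mk_eq (hf0 z) h1 h2⟩
  obtain ⟨C0, hC0⟩ := h
  refine ⟨F₀, |Real.log ‖F₀ 0‖| + 3 * |C0|, hdiff, hx, fun r hr => ?_⟩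
  obtain ⟨F, hF, hF1, hF0, hFf⟩ := hC0 (r + 1) (by linarith)
  have hF0' : F 0 ≠ 0 := by
    intro h0
    rw [h0, norm_zero] at hF0
    exact absurd hF0 (not_le.2 (Real.exp_pos _))
  have h1 := average_le hr (lt_add_one r) hF hF1 hF0' hFf hdiff.differentiableOn fun z _ => hlift z
  have h2 : -(C0 * (1 + (r + 1) ^ 2)) ≤ Real.log ‖F 0‖ := by
    rw [Real.le_log_iff_exp_le (norm_pos_iff.2 hF0')]
    exact hF0
  have h3 : C0 * (1 + (r + 1) ^ 2) ≤ 3 * |C0| * (1 + r ^ 2) := by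
    have h4 : C0 ≤ |C0| := le_abs_self _
    have h5 : 0 ≤ |C0| := abs_nonneg _
    have h6 : 1 + (r + 1) ^ 2 ≤ 3 * (1 + r ^ 2) := by nlinarith [sq_nonneg (r - 1)]
    calc C0 * (1 + (r + 1) ^ 2) ≤ |C0| * (1 + (r + 1) ^ 2) := mul_le_mul_of_nonneg_right h4 (by positivity)
      _ ≤ |C0| * (3 * (1 + r ^ 2)) := mul_le_mul_of_nonneg_left h6 h5
      _ = _ := by ring
  have h7 : Real.log ‖F₀ 0‖ ≤ |Real.log ‖F₀ 0‖| * (1 + r ^ 2) := by
    have h8 : Real.log ‖F₀ 0‖ ≤ |Real.log ‖F₀ 0‖| := le_abs_self _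
    have h9 : 0 ≤ |Real.log ‖F₀ 0‖| := abs_nonneg _
    nlinarith [sq_nonneg r]
  have h10 : (|Real.log ‖F₀ 0‖| + 3 * |C0|) * (1 + r ^ 2) = |Real.log ‖F₀ 0‖| * (1 + r ^ 2) + 3 * |C0| * (1 + r ^ 2) := by
    ring
  rw [h10]
  linarith

end Pool.Agent.H13.OT

end

section

/-!
# Qe Defs: coverings of quasi-projective varieties
-/

set_option autoImplicit false

open Topology Filter MvPolynomial

noncomputable section

namespace Pool.Agent.H62.Qe

open Pool.Agent.H17 (PN VanishesAt)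
open Pool.Agent.H17EF (projVar)
open Pool.Agent.H7.Bir (vals rmap)
open Pool.Agent.H62.SA (locVar)

variable {N M : ℕ}

/-- `p` is a surjective regular map `X' → X` of projective varieties. -/
structure IsReg (P : Ideal (MvPolynomial (Fin (N + 1)) ℂ)) (P' : Ideal (MvPolynomial (Fin (M + 1)) ℂ)) (p : PN M → PN N) : Prop where
  maps : ∀ y ∈ projVar P', p y ∈ projVar P
  surj : ∀ x ∈ projVar P, ∃ y ∈ projVar P', p y = x
  regular : ∀ y ∈ projVar P', ∃ (D : ℕ) (γ : Fin (N + 1) → MvPolynomial (Fin (M + 1)) ℂ), (∀ i, (γ i).IsHomogeneous D) ∧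
    vals γ y.rep ≠ 0 ∧ ∀ y' ∈ projVar P', vals γ y'.rep ≠ 0 → p y' = rmap γ y'

/-- `p : X' → X` is surjective and regular, and over the open subset `U` of `X` it is locally injective and has local holomorphic sections. -/
structure IsEtaleOver (P : Ideal (MvPolynomial (Fin (N + 1)) ℂ)) (P' : Ideal (MvPolynomial (Fin (M + 1)) ℂ)) {s s' : ℕ}
    (G : Fin s → MvPolynomial (Fin (N + 1)) ℂ) (G' : Fin s' → MvPolynomial (Fin (M + 1)) ℂ) (p : PN M → PN N) : Prop where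
  reg : IsReg P P' p
  inv : ∀ y ∈ projVar P', p y ∈ locVar P G ↔ y ∈ locVar P' G'
  locInj : ∀ (y : Fin (M + 1) → ℂ) (hy : y ≠ 0), Projectivization.mk ℂ y hy ∈ locVar P' G' → ∀ᶠ q in 𝓝 (y, y), ∀ (h : q.1 ≠ 0) (h' : q.2 ≠ 0),
    Projectivization.mk ℂ q.1 h ∈ projVar P' → Projectivization.mk ℂ q.2 h' ∈ projVar P' →
      p (Projectivization.mk ℂ q.1 h) = p (Projectivization.mk ℂ q.2 h') → Projectivization.mk ℂ q.1 h = Projectivization.mk ℂ q.2 h'
  locSec : ∀ (y : Fin (M + 1) → ℂ) (hy : y ≠ 0), Projectivization.mk ℂ y hy ∈ locVar P' G' →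
    ∃ (x : Fin (N + 1) → ℂ) (hx : x ≠ 0) (τ : (Fin (N + 1) → ℂ) → Fin (M + 1) → ℂ), p (Projectivization.mk ℂ y hy) = Projectivization.mk ℂ x hx ∧
      AnalyticAt ℂ τ x ∧ τ x = y ∧ ∀ᶠ x' in 𝓝 x, ∀ h : x' ≠ 0, Projectivization.mk ℂ x' h ∈ projVar P →
        ∃ h' : τ x' ≠ 0, Projectivization.mk ℂ (τ x') h' ∈ projVar P' ∧ p (Projectivization.mk ℂ (τ x') h') = Projectivization.mk ℂ x' h

end Pool.Agent.H62.Qe

end
end

section

/-!
# Bir Alg: birational maps and function fields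

* `exists_form`: homogenisation.
* `funIso`: a generic point `x` of the variety of `Q`, with coordinates which generate the field `L`, gives `FunField Q ≃ L`.
* `IsBir`: a birational map between the varieties of `P` and `P'`, given by forms.
* `exists_isBir`: it exists if the function fields are isomorphic.
* `exists_sub`: images of subvarieties.
-/

set_option autoImplicit false

open MvPolynomial

noncomputable section

namespace Pool.Agent.H7.Bir

open Pool.Agent.H17GT (coordFun functionField)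
open Pool.Agent.H17LG.Variety (FunField ratio)
open Pool.Agent.H17R (gen gen_eq_zero_iff ratio_self adjoin_ratio coordFun_ne_zero_iff)
open Pool.Agent.H92.GT.Proj (aeval_scale)

variable {N M : ℕ}

theorem exists_form (j : Fin (N + 1)) (p : MvPolynomial (Fin (N + 1)) ℂ) : ∃ D₀ : ℕ, ∀ D ≥ D₀,
    ∃ R : MvPolynomial (Fin (N + 1)) ℂ, R.IsHomogeneous D ∧
      ∀ (K : Type) [Field K] [Algebra ℂ K] (x : Fin (N + 1) → K), x j = 1 → aeval x R = aeval x p := by
  induction p using MvPolynomial.induction_on with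
  | C c =>
    refine ⟨0, fun D _ => ⟨MvPolynomial.C c * X j ^ D, ?_, ?_⟩⟩
    · have h1 := (isHomogeneous_C (Fin (N + 1)) c).mul ((isHomogeneous_X ℂ j).pow D)
      simpa using h1
    · intro K _ _ x hx
      simp [hx]
  | add p q hp hq =>
    obtain ⟨D₁, h1⟩ := hp
    obtain ⟨D₂, h2⟩ := hq
    refine ⟨max D₁ D₂, fun D hD => ?_⟩
    obtain ⟨R₁, h3, h4⟩ := h1 D ((le_max_left _ _).trans hD)
    obtain ⟨R₂, h5, h6⟩ := h2 D ((le_max_right _ _).trans hD)
    refine ⟨R₁ + R₂, h3.add h5, ?_⟩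
    intro K _ _ x hx
    rw [map_add, map_add, h4 K x hx, h6 K x hx]
  | mul_X p i hp =>
    obtain ⟨D₁, h1⟩ := hp
    refine ⟨D₁ + 1, fun D hD => ?_⟩
    obtain ⟨D', rfl⟩ : ∃ D', D = D' + 1 := ⟨D - 1, by omega⟩
    obtain ⟨R₁, h3, h4⟩ := h1 D' (by omega)
    refine ⟨R₁ * X i, h3.mul (isHomogeneous_X ℂ i), ?_⟩
    intro K _ _ x hx
    rw [map_mul, map_mul, h4 K x hx]

/-- Homogenisation of finitely many polynomials. -/
theorem exists_forms (j : Fin (N + 1)) {ι : Type} [Fintype ι] (p : ι → MvPolynomial (Fin (N + 1)) ℂ) : ∃ (D : ℕ)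
    (R : ι → MvPolynomial (Fin (N + 1)) ℂ), (∀ i, (R i).IsHomogeneous D) ∧
      ∀ (K : Type) [Field K] [Algebra ℂ K] (x : Fin (N + 1) → K), x j = 1 → ∀ i, aeval x (R i) = aeval x (p i) := by
  choose D₀ h using fun i => exists_form j (p i)
  choose R hR hR' using fun i => h i (∑ i, D₀ i) (Finset.single_le_sum (f := D₀) (fun i _ => Nat.zero_le _) (Finset.mem_univ i))
  exact ⟨∑ i, D₀ i, R, hR, fun K _ _ x hx i => hR' i K x hx⟩

open scoped IntermediateField.algebraAdjoinAdjoin in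
/-- Finitely many elements of a field generated by `x` are quotients of forms in `x` with the same denominator. -/
theorem exists_quot {L : Type} [Field L] [Algebra ℂ L] {x : Fin (N + 1) → L} {j : Fin (N + 1)} (hx : x j = 1)
    (hadj : IntermediateField.adjoin ℂ (Set.range x) = ⊤) (y : Fin (M + 1) → L) {j' : Fin (M + 1)} (hy : y j' = 1) :
    ∃ (D : ℕ) (α : Fin (M + 1) → MvPolynomial (Fin (N + 1)) ℂ), (∀ i, (α i).IsHomogeneous D) ∧ aeval x (α j') ≠ 0 ∧
      ∀ i, y i * aeval x (α j') = aeval x (α i) := by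
  classical
  have hmem : ∀ i, y i ∈ IntermediateField.adjoin ℂ (Set.range x) := fun i => by
    rw [hadj]
    trivial
  obtain ⟨b, hb⟩ := IsLocalization.exist_integer_multiples_of_finset (nonZeroDivisors (Algebra.adjoin ℂ (Set.range x)))
    (Finset.univ.image fun i => (⟨y i, hmem i⟩ : IntermediateField.adjoin ℂ (Set.range x)))
  have hpol : ∀ c : Algebra.adjoin ℂ (Set.range x), ∃ g : MvPolynomial (Fin (N + 1)) ℂ, aeval x g = (c : L) := by
    intro c
    obtain ⟨g, hg⟩ := (SetLike.ext_iff.1 (Algebra.adjoin_range_eq_range_aeval ℂ x) (c : L)).1 c.2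
    exact ⟨g, hg⟩
  obtain ⟨q, hq⟩ := hpol b
  have hp : ∀ i, ∃ g : MvPolynomial (Fin (N + 1)) ℂ, aeval x g = y i * aeval x q := by
    intro i
    obtain ⟨c, hc⟩ := hb ⟨y i, hmem i⟩ (Finset.mem_image_of_mem _ (Finset.mem_univ i))
    obtain ⟨g, hg⟩ := hpol c
    refine ⟨g, ?_⟩
    have h1 := congrArg Subtype.val hc
    rw [hg, hq, mul_comm]
    exact h1
  choose p hp using hp
  obtain ⟨D, α, hα, hα'⟩ := exists_forms j p
  have h1 : ∀ i, aeval x (α i) = y i * aeval x q := fun i => by rw [hα' L x hx i, hp]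
  have h2 : aeval x q ≠ 0 := by
    rw [hq]
    intro h0
    exact nonZeroDivisors.ne_zero b.2 (Subtype.ext h0)
  refine ⟨D, α, hα, ?_, fun i => ?_⟩
  · rw [h1, hy, one_mul]
    exact h2
  · rw [h1, h1, hy, one_mul]

open scoped IntermediateField.algebraAdjoinAdjoin in
theorem funIso {Q : Ideal (MvPolynomial (Fin (N + 1)) ℂ)} [Q.IsPrime] {j : Fin (N + 1)} (hj : coordFun Q j ≠ 0)
    {L : Type} [Field L] [Algebra ℂ L] {x : Fin (N + 1) → L} (hx : x j = 1)
    (hadj : IntermediateField.adjoin ℂ (Set.range x) = ⊤)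
    (h : ∀ (n : ℕ) (G : MvPolynomial (Fin (N + 1)) ℂ), G.IsHomogeneous n → (aeval x G = 0 ↔ G ∈ Q)) :
    Nonempty (FunField Q ≃ₐ[ℂ] L) := by
  set ξ : Fin (N + 1) → FunField Q := fun i => ratio Q i j with hξ
  have hker : RingHom.ker (aeval ξ : MvPolynomial (Fin (N + 1)) ℂ →ₐ[ℂ] FunField Q) =
      RingHom.ker (aeval x : MvPolynomial (Fin (N + 1)) ℂ →ₐ[ℂ] L) := by
    ext G
    rw [RingHom.mem_ker, RingHom.mem_ker]
    obtain ⟨D, h1⟩ := exists_form j G
    obtain ⟨R, h2, h3⟩ := h1 D le_rfl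
    rw [← h3 _ ξ (ratio_self hj), ← h3 _ x hx, h D R h2]
    exact gen_eq_zero_iff hj h2
  have e1 : Algebra.adjoin ℂ (Set.range ξ) ≃ₐ[ℂ] Algebra.adjoin ℂ (Set.range x) :=
    (Subalgebra.equivOfEq _ _ (Algebra.adjoin_range_eq_range_aeval ℂ ξ)).trans
      ((Ideal.quotientKerEquivRange (aeval ξ : MvPolynomial (Fin (N + 1)) ℂ →ₐ[ℂ] FunField Q)).symm.trans
        ((Ideal.quotientEquivAlgOfEq ℂ hker).trans
          ((Ideal.quotientKerEquivRange (aeval x : MvPolynomial (Fin (N + 1)) ℂ →ₐ[ℂ] L)).trans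
            (Subalgebra.equivOfEq _ _ (Algebra.adjoin_range_eq_range_aeval ℂ x)).symm)))
  have e2 : IntermediateField.adjoin ℂ (Set.range ξ) ≃ₐ[ℂ] IntermediateField.adjoin ℂ (Set.range x) :=
    IsFractionRing.algEquivOfAlgEquiv e1
  have e3 : IntermediateField.adjoin ℂ (Set.range ξ) ≃ₐ[ℂ] FunField Q :=
    (IntermediateField.equivOfEq (adjoin_ratio hj)).trans IntermediateField.topEquiv
  have e4 : IntermediateField.adjoin ℂ (Set.range x) ≃ₐ[ℂ] L :=
    (IntermediateField.equivOfEq hadj).trans IntermediateField.topEquiv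
  exact ⟨e3.symm.trans (e2.trans e4)⟩

theorem aeval_comp {K : Type} [Field K] [Algebra ℂ K] (x : Fin (M + 1) → K) (γ : Fin (N + 1) → MvPolynomial (Fin (M + 1)) ℂ)
    (R : MvPolynomial (Fin (N + 1)) ℂ) : aeval x (aeval γ R) = aeval (fun i => aeval x (γ i)) R := by
  rw [← AlgHom.comp_apply, MvPolynomial.comp_aeval]

theorem aeval_div {K : Type} [Field K] [Algebra ℂ K] {n : ℕ} {R : MvPolynomial (Fin (N + 1)) ℂ} (hR : R.IsHomogeneous n)
    {c : K} (hc : c ≠ 0) (y : Fin (N + 1) → K) : aeval y R = c ^ n * aeval (fun i => y i / c) R := by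
  rw [← aeval_scale hR]
  congr 2
  funext i
  rw [mul_div_cancel₀ _ hc]

end Pool.Agent.H7.Bir

end
end

section

/-!
# Bir Main: the properties of the Green–Griffiths–Lang conjecture are birationally invariant

`bir_four`: let `P` and `P'` be homogeneous prime ideals whose function fields are isomorphic over `ℂ`.  If the variety of `P` has the properties of
the conjecture (with an exceptional set `Ξ`), then so has the variety of `P'`.
-/

set_option autoImplicit false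

open Topology Filter MvPolynomial

noncomputable section

namespace Pool.Agent.H7.Bir

open Pool.Agent.H17 (PN VanishesAt HolomorphicInto puncturedDisc vanishesAt_mk_iff ZariskiClosedIn)
open Pool.Agent.H17GT (coordFun)
open Pool.Agent.H17LG.Variety (FunField IsLogGeneralType)
open Pool.Agent.H62.FC (Homog)
open Pool.Agent.H17R (coordFun_ne_zero_iff)
open Pool.Agent.H17EF (projVar)

variable {N M : ℕ}

/-- The properties of the conjecture for the closed subvariety of `ℙ^N` given by `P`, with the exceptional set `Ξ`. -/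
structure GGL (P : Ideal (MvPolynomial (Fin (N + 1)) ℂ)) [P.IsPrime] (Ξ : Set (PN N)) : Prop where
  closed : ZariskiClosedIn (projVar P) Ξ
  proper : Ξ ≠ projVar P
  generalType : ∀ w, 1 ≤ w → (∃ z : Fin w → FunField P, IsTranscendenceBasis ℂ z) →
    IsLogGeneralType (K := FunField P) (k := w) fun _ => False
  picard : ∀ f : ℂ → PN N, HolomorphicInto f puncturedDisc → (∀ z ∈ puncturedDisc, f z ∈ projVar P) →
    (∃ z ∈ puncturedDisc, f z ∉ Ξ) →
    ∃ g : ℂ → PN N, HolomorphicInto g (Metric.ball 0 1) ∧ ∀ z ∈ puncturedDisc, g z = f z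
  brody : ∀ f : ℂ → PN N, HolomorphicInto f Set.univ → (∀ z, f z ∈ projVar P) → (∃ z w, f z ≠ f w) → ∀ z, f z ∈ Ξ
  strongly : ∀ (Q : Ideal (MvPolynomial (Fin (N + 1)) ℂ)) [Q.IsPrime], Homog Q → P ≤ Q → ¬ projVar Q ⊆ Ξ →
    ∀ w, 1 ≤ w → (∃ z : Fin w → FunField Q, IsTranscendenceBasis ℂ z) →
      IsLogGeneralType (K := FunField Q) (k := w) fun _ => False

theorem punctured_open : IsOpen puncturedDisc := Metric.isOpen_ball.sdiff isClosed_singleton

/-- The value of a composed form. -/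
theorem eval_comp (γ : Fin (N + 1) → MvPolynomial (Fin (M + 1)) ℂ) (R : MvPolynomial (Fin (N + 1)) ℂ) (x : Fin (M + 1) → ℂ) :
    eval x (aeval γ R) = eval (vals γ x) R := by
  have h1 := aeval_comp (K := ℂ) x γ R
  exact h1

/-- A form vanishes at the image of a point if and only if its composition with the rational map vanishes. -/
theorem vanishesAt_rmap {γ : Fin (N + 1) → MvPolynomial (Fin (M + 1)) ℂ} {y : PN M} (hy : vals γ y.rep ≠ 0) {n : ℕ}
    {R : MvPolynomial (Fin (N + 1)) ℂ} (hR : R.IsHomogeneous n) : VanishesAt R (rmap γ y) ↔ VanishesAt (aeval γ R) y := by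
  unfold rmap
  rw [dif_pos hy, vanishesAt_mk_iff hR]
  unfold VanishesAt
  rw [eval_comp]

end Pool.Agent.H7.Bir

end
end

section

/-!
# MQ2 SepF: the formal weak separatrix of a saddle-node, and the axis
-/

set_option autoImplicit false

open Topology Filter Metric Asymptotics

noncomputable section

namespace Pool.Agent.MQ2

open Pool.Agent.MQ (jet)

namespace SepF

theorem nc_aux {f : ℂ → ℂ} : ¬ (fun t : ℂ => (t, f t)) =O[𝓝 0] fun t : ℂ => t ^ (1 + 1) := by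
  intro h
  obtain ⟨C, hC⟩ := h.bound
  have h1 : ∀ᶠ t in 𝓝[≠] (0 : ℂ), (1 : ℝ) ≤ C * ‖t‖ := by
    filter_upwards [hC.filter_mono nhdsWithin_le_nhds, self_mem_nhdsWithin] with t h2 h3
    have h4 : 0 < ‖t‖ := norm_pos_iff.2 h3
    have h5 : ‖t‖ ≤ C * ‖t ^ (1 + 1)‖ := (norm_fst_le (t, f t)).trans h2
    have h6 : ‖t‖ * 1 ≤ ‖t‖ * (C * ‖t‖) := by
      rw [norm_pow] at h5
      linarith [h5, show C * ‖t‖ ^ (1 + 1) = ‖t‖ * (C * ‖t‖) by ring]
    exact le_of_mul_le_mul_left h6 h4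
  have h2 : Tendsto (fun t : ℂ => C * ‖t‖) (𝓝[≠] 0) (𝓝 0) := by
    have h3 : Continuous fun t : ℂ => C * ‖t‖ := by fun_prop
    have h5 := h3.tendsto 0
    simp only [norm_zero, mul_zero] at h5
    exact h5.mono_left nhdsWithin_le_nhds
  have h4 : (1 : ℝ) ≤ 0 := ge_of_tendsto h2 h1
  linarith

theorem isBigO_zero_fst {f : ℂ → ℂ} {n : ℕ} (h : f =O[𝓝 0] fun t : ℂ => t ^ n) : (fun t => ((0 : ℂ), f t)) =O[𝓝 0] fun t : ℂ => t ^ n := by
  obtain ⟨C, hC⟩ := h.bound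
  refine IsBigO.of_bound C (hC.mono fun t ht => ?_)
  have h1 : ‖((0 : ℂ), f t)‖ = ‖f t‖ := by
    rw [Prod.norm_def, norm_zero]
    exact max_eq_right (norm_nonneg _)
  rw [h1]
  exact ht

end SepF

open SepF AC

set_option linter.unusedVariables false in
theorem sep_formal {k : ℕ} (hk : 1 ≤ k) {a b : ℂ × ℂ → ℂ} (ha : AnalyticAt ℂ a 0) (hb : AnalyticAt ℂ b 0) (hb0 : b 0 = 0)
    (hb1 : fderiv ℂ b 0 (0, 1) ≠ 0) {c : ℕ → ℂ} (hc : c 0 = 0)
    (hJ : ∀ J, (fun t => b (t, jet c J t) - deriv (jet c J) t * (t ^ (k + 1) * a (t, jet c J t))) =O[𝓝 0] fun t : ℂ => t ^ (J + 1)) :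
    Sep (fun p => (p.1 ^ (k + 1) * a p, b p)) fun N t => (t, jet c N t) := by
  have hd : ∀ N t, deriv (fun t : ℂ => (t, jet c N t)) t = (1, deriv (jet c N) t) := fun N t =>
    ((hasDerivAt_id t).prodMk (analytic_jet c N t).differentiableAt.hasDerivAt).deriv
  refine ⟨fun N => analyticAt_id.prod (analytic_jet c N 0), fun N => ?_, fun N => ?_, fun N => ?_, ⟨1, nc_aux⟩, fun R hR hne hz => ?_⟩
  · show ((0 : ℂ), jet c N 0) = 0
    rw [jet_zero hc]
    rfl
  · have h1 : (fun t : ℂ => (t, jet c (N + 1) t) - (t, jet c N t)) = fun t => ((0 : ℂ), c (N + 1) * t ^ (N + 1)) := by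
      funext t
      rw [Prod.mk_sub_mk, sub_self]
      have h2 : jet c (N + 1) t - jet c N t = c (N + 1) * t ^ (N + 1) := by
        unfold jet
        rw [Finset.sum_range_succ _ (N + 1)]
        ring
      rw [h2]
    show (fun t : ℂ => (t, jet c (N + 1) t) - (t, jet c N t)) =O[𝓝 0] fun t : ℂ => t ^ (N + 1)
    rw [h1]
    exact isBigO_zero_fst ((isBigO_refl _ _).const_mul_left _)
  · have h1 : (fun t : ℂ => t ^ (N + 1)) =O[𝓝 0] fun t : ℂ => t ^ N := by
      have h2 : (fun t : ℂ => t) =O[𝓝 0] fun _ : ℂ => (1 : ℂ) := continuousAt_id.isBigO_one ℂ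
      have h3 : (fun t : ℂ => t ^ (N + 1)) = fun t => t ^ N * t := by funext t; ring
      rw [h3]
      simpa using (isBigO_refl (fun t : ℂ => t ^ N) (𝓝 0)).mul h2
    refine ((hJ N).neg_left.trans h1).congr_left fun t => ?_
    show -(b (t, jet c N t) - deriv (jet c N) t * (t ^ (k + 1) * a (t, jet c N t))) =
      (t ^ (k + 1) * a (t, jet c N t)) * (deriv (fun t : ℂ => (t, jet c N t)) t).2 - b (t, jet c N t) * (deriv (fun t : ℂ => (t, jet c N t)) t).1
    rw [hd]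
    ring
  · obtain ⟨s, hs, -, h1, -⟩ := conv_of_alg hR (fun h => hne (h.mono fun p hp => not_not.2 hp)) hc hz
    refine ⟨fun t => (t, s t), analyticAt_id.prod hs, fun N => ?_⟩
    have h2 : (fun t : ℂ => (t, s t) - (t, jet c N t)) = fun t => ((0 : ℂ), s t - jet c N t) := by
      funext t
      rw [Prod.mk_sub_mk, sub_self]
    show (fun t : ℂ => (t, s t) - (t, jet c N t)) =O[𝓝 0] fun t : ℂ => t ^ (N + 1)
    rw [h2]
    exact isBigO_zero_fst (h1 N)

theorem sep_axis {a b : ℂ × ℂ → ℂ} : Sep (fun p => (p.1 * a p, p.2 * b p)) fun _ t => (t, 0) := by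
  have hd : ∀ t, deriv (fun t : ℂ => (t, (0 : ℂ))) t = (1, 0) := fun t => ((hasDerivAt_id t).prodMk (hasDerivAt_const t (0 : ℂ))).deriv
  refine ⟨fun N => analyticAt_id.prod analyticAt_const, fun N => rfl, fun N => ?_, fun N => ?_, ⟨1, nc_aux (f := fun _ => 0)⟩, fun R hR hne hz => ?_⟩
  · have h1 : (fun t : ℂ => (t, (0 : ℂ)) - (t, 0)) = fun _ => 0 := by
      funext t
      rw [sub_self]
    show (fun t : ℂ => (t, (0 : ℂ)) - (t, 0)) =O[𝓝 0] fun t : ℂ => t ^ (N + 1)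
    rw [h1]
    exact isBigO_zero _ _
  · refine (isBigO_zero _ _).congr_left fun t => ?_
    show (0 : ℂ) = (t * a (t, 0)) * (deriv (fun t : ℂ => (t, (0 : ℂ))) t).2 - (0 * b (t, 0)) * (deriv (fun t : ℂ => (t, (0 : ℂ))) t).1
    rw [hd]
    ring
  · refine ⟨fun t => (t, 0), analyticAt_id.prod analyticAt_const, fun N => ?_⟩
    have h1 : (fun t : ℂ => (t, (0 : ℂ)) - (t, 0)) = fun _ => 0 := by
      funext t
      rw [sub_self]
    show (fun t : ℂ => (t, (0 : ℂ)) - (t, 0)) =O[𝓝 0] fun t : ℂ => t ^ (N + 1)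
    rw [h1]
    exact isBigO_zero _ _

end Pool.Agent.MQ2

end
end

section

/-!
# MQ2 SingF: finitely many singular directions
-/

set_option autoImplicit false

open Topology Filter Metric MeasureTheory Asymptotics Laplacian

noncomputable section

namespace Pool.Agent.MQ2

open Pool.Agent.MQ

/-- the limit of an eventual identity along `x → 0`, `x ≠ 0` -/
theorem eq_of_punctured {f g : ℂ → ℂ} {a b : ℂ} (hf : Tendsto f (𝓝[≠] (0 : ℂ)) (𝓝 a)) (hg : Tendsto g (𝓝[≠] (0 : ℂ)) (𝓝 b))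
    (h : ∀ᶠ x in 𝓝[≠] (0 : ℂ), f x = g x) : a = b := by
  have h1 : Tendsto g (𝓝[≠] (0 : ℂ)) (𝓝 a) := hf.congr' h
  exact tendsto_nhds_unique h1 hg

theorem child_shift {e ι : ℕ} {v : ℂ × ℂ → ℂ × ℂ} {w : ℂ → ℂ × ℂ → ℂ × ℂ} (hw : ∀ t, Child e ι t v (w t)) (t : ℂ) :
    ∀ᶠ u in 𝓝 (0 : ℂ), w (t + u) 0 = w t (0, u) := by
  have hc : Tendsto (fun u : ℂ => ((0 : ℂ), u)) (𝓝 0) (𝓝 (0 : ℂ × ℂ)) := by
    have : Continuous fun u : ℂ => ((0 : ℂ), u) := by fun_prop
    exact this.tendsto' 0 0 rfl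
  have e1 : ∀ᶠ u in 𝓝 (0 : ℂ), AnalyticAt ℂ (w t) (0, u) := hc.eventually (hw t).an.eventually_analyticAt
  have e2 : ∀ᶠ u in 𝓝 (0 : ℂ), ∀ᶠ p in 𝓝 ((0 : ℂ), u), (v (be t p)).1 = p.1 ^ e * (w t p).1 :=
    hc.eventually (eventually_eventually_nhds.2 (hw t).fst)
  have e3 : ∀ᶠ u in 𝓝 (0 : ℂ), ∀ᶠ p in 𝓝 ((0 : ℂ), u), (v (be t p)).2 = (p.2 + t) * (v (be t p)).1 + p.1 ^ (e + 1) * (w t p).2 :=
    hc.eventually (eventually_eventually_nhds.2 (hw t).snd)
  filter_upwards [e1, e2, e3] with u h1 h2 h3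
  have ca : Tendsto (fun x : ℂ => (x, (0 : ℂ))) (𝓝[≠] (0 : ℂ)) (𝓝 (0 : ℂ × ℂ)) := by
    have : Continuous fun x : ℂ => (x, (0 : ℂ)) := by fun_prop
    exact (this.tendsto' 0 0 rfl).mono_left nhdsWithin_le_nhds
  have cb : Tendsto (fun x : ℂ => (x, u)) (𝓝[≠] (0 : ℂ)) (𝓝 ((0 : ℂ), u)) := by
    have : Continuous fun x : ℂ => (x, u) := by fun_prop
    exact (this.tendsto 0).mono_left nhdsWithin_le_nhds
  have hx : ∀ᶠ x in 𝓝[≠] (0 : ℂ), x ≠ 0 := eventually_mem_nhdsWithin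
  have hbe : ∀ x : ℂ, be (t + u) (x, 0) = be t (x, u) := by
    intro x
    simp [be, add_comm]
  have l1 : Tendsto (fun x : ℂ => w (t + u) (x, 0)) (𝓝[≠] (0 : ℂ)) (𝓝 (w (t + u) 0)) := (hw (t + u)).an.continuousAt.tendsto.comp ca
  have l2 : Tendsto (fun x : ℂ => w t (x, u)) (𝓝[≠] (0 : ℂ)) (𝓝 (w t (0, u))) := h1.continuousAt.tendsto.comp cb
  have f1 : ∀ᶠ x in 𝓝[≠] (0 : ℂ), (v (be (t + u) (x, 0))).1 = x ^ e * (w (t + u) (x, 0)).1 := ca.eventually (hw (t + u)).fst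
  have f2 : ∀ᶠ x in 𝓝[≠] (0 : ℂ), (v (be (t + u) (x, 0))).2 = (0 + (t + u)) * (v (be (t + u) (x, 0))).1 + x ^ (e + 1) * (w (t + u) (x, 0)).2 :=
    ca.eventually (hw (t + u)).snd
  have g1 : ∀ᶠ x in 𝓝[≠] (0 : ℂ), (v (be t (x, u))).1 = x ^ e * (w t (x, u)).1 := cb.eventually h2
  have g2 : ∀ᶠ x in 𝓝[≠] (0 : ℂ), (v (be t (x, u))).2 = (u + t) * (v (be t (x, u))).1 + x ^ (e + 1) * (w t (x, u)).2 := cb.eventually h3
  refine Prod.ext ?_ ?_
  · refine eq_of_punctured ((continuous_fst.tendsto _).comp l1) ((continuous_fst.tendsto _).comp l2) ?_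
    filter_upwards [hx, f1, g1] with x x0 k1 k2
    rw [hbe, k2] at k1
    exact (mul_left_cancel₀ (pow_ne_zero _ x0) k1).symm
  · refine eq_of_punctured ((continuous_snd.tendsto _).comp l1) ((continuous_snd.tendsto _).comp l2) ?_
    filter_upwards [hx, f2, g2] with x x0 k1 k2
    rw [hbe, k2] at k1
    have k3 : x ^ (e + 1) * (w t (x, u)).2 = x ^ (e + 1) * (w (t + u) (x, 0)).2 := by linear_combination k1
    exact (mul_left_cancel₀ (pow_ne_zero _ x0) k3).symm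

/-- `w (1 / u) 0` is `wi (0, u)` up to a linear map -/
theorem child_inf {e ι : ℕ} {v : ℂ × ℂ → ℂ × ℂ} {w : ℂ → ℂ × ℂ → ℂ × ℂ} {wi : ℂ × ℂ → ℂ × ℂ} (hw : ∀ t, Child e ι t v (w t))
    (hwi : Child e ι 0 (swv v) wi) : ∀ᶠ u in 𝓝[≠] (0 : ℂ), w u⁻¹ 0 ≠ 0 := by
  have hc : Tendsto (fun u : ℂ => ((0 : ℂ), u)) (𝓝[≠] (0 : ℂ)) (𝓝 (0 : ℂ × ℂ)) := by
    have : Continuous fun u : ℂ => ((0 : ℂ), u) := by fun_prop
    exact (this.tendsto' 0 0 rfl).mono_left nhdsWithin_le_nhds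
  have e1 : ∀ᶠ u in 𝓝[≠] (0 : ℂ), AnalyticAt ℂ wi (0, u) := hc.eventually hwi.an.eventually_analyticAt
  have e2 : ∀ᶠ u in 𝓝[≠] (0 : ℂ), ∀ᶠ p in 𝓝 ((0 : ℂ), u), (swv v (be 0 p)).1 = p.1 ^ e * (wi p).1 :=
    hc.eventually (eventually_eventually_nhds.2 hwi.fst)
  have e3 : ∀ᶠ u in 𝓝[≠] (0 : ℂ), ∀ᶠ p in 𝓝 ((0 : ℂ), u), (swv v (be 0 p)).2 = (p.2 + 0) * (swv v (be 0 p)).1 + p.1 ^ (e + 1) * (wi p).2 :=
    hc.eventually (eventually_eventually_nhds.2 hwi.snd)
  have e4 : ∀ᶠ u in 𝓝[≠] (0 : ℂ), ((0 : ℂ), u) ≠ 0 → wi (0, u) ≠ 0 := hc.eventually hwi.iso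
  have e5 : ∀ᶠ u in 𝓝[≠] (0 : ℂ), u ≠ 0 := eventually_mem_nhdsWithin
  filter_upwards [e1, e2, e3, e4, e5] with u h1 h2 h3 h4 u0 hcon
  have ca : Tendsto (fun x : ℂ => (x * u, (0 : ℂ))) (𝓝[≠] (0 : ℂ)) (𝓝 (0 : ℂ × ℂ)) := by
    have : Continuous fun x : ℂ => (x * u, (0 : ℂ)) := by fun_prop
    exact (this.tendsto' 0 0 (by simp)).mono_left nhdsWithin_le_nhds
  have cb : Tendsto (fun x : ℂ => (x, u)) (𝓝[≠] (0 : ℂ)) (𝓝 ((0 : ℂ), u)) := by
    have : Continuous fun x : ℂ => (x, u) := by fun_prop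
    exact (this.tendsto 0).mono_left nhdsWithin_le_nhds
  have hx : ∀ᶠ x in 𝓝[≠] (0 : ℂ), x ≠ 0 := eventually_mem_nhdsWithin
  have hbe : ∀ x : ℂ, be u⁻¹ (x * u, 0) = (x * u, x) := by
    intro x
    simp only [be, zero_add, Prod.mk.injEq, true_and]
    field_simp
  have hbe' : ∀ x : ℂ, swv v (be 0 (x, u)) = ((v (x * u, x)).2, (v (x * u, x)).1) := by
    intro x
    simp [be, swv, Prod.swap]
  have l1 : Tendsto (fun x : ℂ => w u⁻¹ (x * u, 0)) (𝓝[≠] (0 : ℂ)) (𝓝 (w u⁻¹ 0)) := (hw u⁻¹).an.continuousAt.tendsto.comp ca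
  have l2 : Tendsto (fun x : ℂ => wi (x, u)) (𝓝[≠] (0 : ℂ)) (𝓝 (wi (0, u))) := h1.continuousAt.tendsto.comp cb
  have lx : Tendsto (fun x : ℂ => x) (𝓝[≠] (0 : ℂ)) (𝓝 0) := nhdsWithin_le_nhds
  have f1 := ca.eventually (hw u⁻¹).fst
  have f2 := ca.eventually (hw u⁻¹).snd
  have g1 := cb.eventually h2
  have g2 := cb.eventually h3
  simp only [hbe] at f1 f2
  simp only [hbe'] at g1 g2
  have k1 : u ^ e * (w u⁻¹ 0).1 = u * (wi (0, u)).1 + 0 * (wi (0, u)).2 := by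
    refine eq_of_punctured (((continuous_fst.tendsto _).comp l1).const_mul (u ^ e))
      ((((continuous_fst.tendsto _).comp l2).const_mul u).add (lx.mul ((continuous_snd.tendsto _).comp l2))) ?_
    filter_upwards [hx, f1, g1, g2] with x x0 a1 b1 b2
    simp only [Function.comp_apply]
    have : x ^ e * (u ^ e * (w u⁻¹ (x * u, 0)).1) = x ^ e * (u * (wi (x, u)).1 + x * (wi (x, u)).2) := by
      rw [b2, b1, mul_pow] at a1
      linear_combination -a1
    exact mul_left_cancel₀ (pow_ne_zero _ x0) this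
  have k2 : u ^ (e + 1) * (w u⁻¹ 0).2 = -(u⁻¹ * (wi (0, u)).2) := by
    refine eq_of_punctured (((continuous_snd.tendsto _).comp l1).const_mul (u ^ (e + 1)))
      (((continuous_snd.tendsto _).comp l2).const_mul u⁻¹).neg ?_
    filter_upwards [hx, f2, g1, g2] with x x0 a1 b1 b2
    simp only [Function.comp_apply]
    have hu : u⁻¹ * u = 1 := inv_mul_cancel₀ u0
    have : x ^ (e + 1) * (u ^ (e + 1) * (w u⁻¹ (x * u, 0)).2) = x ^ (e + 1) * -(u⁻¹ * (wi (x, u)).2) := by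
      rw [b2, mul_pow] at a1
      linear_combination -a1 + (-(v (x * u, x)).2) * hu
    exact mul_left_cancel₀ (pow_ne_zero _ x0) this
  rw [hcon] at k1 k2
  simp only [Prod.fst_zero, Prod.snd_zero, mul_zero, zero_mul, add_zero] at k1 k2
  have m1 : (wi (0, u)).1 = 0 := by
    rcases mul_eq_zero.1 k1.symm with h | h
    · exact absurd h u0
    · exact h
  have m2 : (wi (0, u)).2 = 0 := by
    have : u⁻¹ * (wi (0, u)).2 = 0 := by
      have := k2.symm
      simpa using this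
    rcases mul_eq_zero.1 this with h | h
    · exact absurd h (inv_ne_zero u0)
    · exact h
  exact h4 (fun h => u0 (congrArg Prod.snd h)) (Prod.ext m1 m2)

theorem sing_finite {e ι : ℕ} {v : ℂ × ℂ → ℂ × ℂ} {w : ℂ → ℂ × ℂ → ℂ × ℂ} {wi : ℂ × ℂ → ℂ × ℂ} (hw : ∀ t, Child e ι t v (w t))
    (hwi : Child e ι 0 (swv v) wi) : {t : ℂ | w t 0 = 0}.Finite := by
  obtain ⟨ε, hε, hb⟩ := Metric.mem_nhdsWithin_iff.1 (child_inf hw hwi)
  have hsub : {t : ℂ | w t 0 = 0} ⊆ closedBall 0 (2 / ε) := by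
    intro t ht
    by_contra hcon
    simp only [mem_closedBall, dist_zero_right, not_le] at hcon
    have h1 : 0 < ‖t‖ := lt_trans (by positivity) hcon
    have t0 : t ≠ 0 := norm_pos_iff.1 h1
    have h2 : t⁻¹ ∈ ball (0 : ℂ) ε ∩ {0}ᶜ := by
      refine ⟨?_, inv_ne_zero t0⟩
      simp only [mem_ball, dist_zero_right, norm_inv]
      rw [inv_lt_comm₀ h1 hε]
      refine lt_of_le_of_lt ?_ hcon
      rw [inv_eq_one_div]
      gcongr
      norm_num
    have h3 : w t⁻¹⁻¹ 0 ≠ 0 := hb h2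
    rw [inv_inv] at h3
    exact h3 ht
  by_contra hinf
  obtain ⟨t, -, ht⟩ := Set.Infinite.exists_accPt_of_subset_isCompact hinf (isCompact_closedBall (0 : ℂ) (2 / ε)) hsub
  have h1 : ∀ᶠ u in 𝓝[≠] (0 : ℂ), w (t + u) 0 ≠ 0 := by
    have hc : Tendsto (fun u : ℂ => ((0 : ℂ), u)) (𝓝[≠] (0 : ℂ)) (𝓝 (0 : ℂ × ℂ)) := by
      have : Continuous fun u : ℂ => ((0 : ℂ), u) := by fun_prop
      exact (this.tendsto' 0 0 rfl).mono_left nhdsWithin_le_nhds
    have e5 : ∀ᶠ u in 𝓝[≠] (0 : ℂ), u ≠ 0 := eventually_mem_nhdsWithin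
    filter_upwards [(child_shift hw t).filter_mono nhdsWithin_le_nhds, hc.eventually (hw t).iso, e5] with u a b u0
    rw [a]
    exact b fun h => u0 (congrArg Prod.snd h)
  have h2 : ∀ᶠ s in 𝓝[≠] t, w s 0 ≠ 0 := by
    have hm : Tendsto (fun s : ℂ => s - t) (𝓝[≠] t) (𝓝[≠] (0 : ℂ)) := by
      refine tendsto_nhdsWithin_iff.2 ⟨?_, ?_⟩
      · have : Continuous fun s : ℂ => s - t := by fun_prop
        simpa using (this.tendsto t).mono_left nhdsWithin_le_nhds
      · filter_upwards [self_mem_nhdsWithin] with s hs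
        exact sub_ne_zero.2 hs
    filter_upwards [hm.eventually h1] with s hs
    simpa using hs
  exact (accPt_iff_frequently_nhdsNE.1 ht) (h2.mono fun s hs => by simpa using hs)

end Pool.Agent.MQ2

end
end

section

/-!
# MQ2 StepS: the package of a direction
-/

set_option autoImplicit false

open Topology Filter Metric MeasureTheory Asymptotics Laplacian

noncomputable section

namespace Pool.Agent.MQ2

open Pool.Agent.MQ

variable {e ι m : ℕ} {t : ℂ} {v w : ℂ × ℂ → ℂ × ℂ} {g g' J : ℂ × ℂ → ℂ}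

theorem be_zero' (t : ℂ) : be t 0 = 0 := by simp [be]

theorem an_be (t : ℂ) (p : ℂ × ℂ) : AnalyticAt ℂ (be t) p :=
  analyticAt_fst.prod (analyticAt_fst.mul (analyticAt_snd.add analyticAt_const))

theorem an_comp_be {q : ℂ × ℂ → ℂ} (hq : AnalyticAt ℂ q 0) (t : ℂ) : AnalyticAt ℂ (fun x => q (be t x)) 0 := by
  have h : AnalyticAt ℂ q (be t 0) := by rwa [be_zero']
  exact AnalyticAt.comp (g := q) (f := be t) h (an_be t 0)

theorem cd_comp_be {ψ : ℂ × ℂ → ℝ} (hψ : ContDiffAt ℝ 1 ψ 0) (t : ℂ) : ContDiffAt ℝ 1 (fun x => ψ (be t x)) 0 := by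
  have h : ContDiffAt ℝ 1 ψ (be t 0) := by rwa [be_zero']
  exact ContDiffAt.comp (g := ψ) (f := be t) 0 h (((an_be t 0).contDiffAt (n := 1)).restrict_scalars ℝ)

/-- small radii -/
theorem ev_small (t : ℂ) {r : ℝ} (hr : 0 < r) : ∀ᶠ ρ in 𝓝[>] (0 : ℝ), ρ < r ∧ ρ * (ρ + ‖t‖) < r := by
  have h1 : Tendsto (fun ρ : ℝ => ρ) (𝓝[>] 0) (𝓝 0) := tendsto_id.mono_left nhdsWithin_le_nhds
  have h2 : Tendsto (fun ρ : ℝ => ρ * (ρ + ‖t‖)) (𝓝[>] 0) (𝓝 0) := by
    have h3 : Tendsto (fun ρ : ℝ => ρ * (ρ + ‖t‖)) (𝓝 0) (𝓝 (0 * (0 + ‖t‖))) := by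
      have : Continuous fun ρ : ℝ => ρ * (ρ + ‖t‖) := by fun_prop
      exact this.tendsto 0
    rw [zero_mul] at h3
    exact h3.mono_left nhdsWithin_le_nhds
  exact (h1.eventually (gt_mem_nhds hr)).and (h2.eventually (gt_mem_nhds hr))

theorem frequently_of_punctured {P : ℂ → Prop} {z : ℂ} (h : ∀ᶠ w in 𝓝[≠] z, P w) : ∃ᶠ w in 𝓝 z, P w :=
  h.frequently.filter_mono nhdsWithin_le_nhds

theorem mem_ball_re {Om : Set ℂ} {p : ℂ → ℂ × ℂ} {ρ re : ℝ} {z : ℂ} (hbe : p z = be t (pt t p z)) (hz : z ∈ Omt Om p t ρ) (h1 : ρ < re)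
    (h2 : ρ * (ρ + ‖t‖) < re) : p z ∈ ball (0 : ℂ × ℂ) re := by
  have hx : ‖(p z).1‖ < ρ := hz.2.2.1
  have hs : ‖slope p z - t‖ < ρ := hz.2.2.2
  have h3 : ‖slope p z‖ ≤ ρ + ‖t‖ := by
    have h4 := norm_add_le (slope p z - t) t
    rw [sub_add_cancel] at h4
    linarith
  have h4 : (p z).2 = (p z).1 * slope p z := by
    have := congrArg Prod.snd hbe
    simpa only [be, pt, sub_add_cancel] using this
  have hρ : 0 < ρ := lt_of_le_of_lt (norm_nonneg _) hx
  rw [mem_ball_zero_iff, Prod.norm_def]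
  refine max_lt (hx.trans h1) ?_
  rw [h4, norm_mul]
  calc ‖(p z).1‖ * ‖slope p z‖ ≤ ρ * (ρ + ‖t‖) := mul_le_mul hx.le h3 (norm_nonneg _) hρ.le
    _ < re := h2

/-- a bound for a function near the center -/
theorem ev_bdd {g : ℂ × ℂ → ℂ} (hg : AnalyticAt ℂ g 0) : ∀ᶠ ρ in 𝓝[>] (0 : ℝ), ∀ q ∈ ball (0 : ℂ × ℂ) ρ, ‖g q‖ ≤ ‖g 0‖ + 1 := by
  have h1 : ∀ᶠ q in 𝓝 (0 : ℂ × ℂ), ‖g q‖ < ‖g 0‖ + 1 := hg.continuousAt.norm.eventually (gt_mem_nhds (by linarith))
  obtain ⟨ε, hε, h2⟩ := Metric.eventually_nhds_iff_ball.1 h1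
  filter_upwards [mem_nhdsWithin_of_mem_nhds (Iio_mem_nhds hε)] with ρ hρ q hq
  exact (h2 q (ball_subset_ball (Set.mem_Iio.1 hρ).le hq)).le

theorem log_norm_le {a : ℂ} {b : ℝ} (h : ‖a‖ ≤ b) : Real.log ‖a‖ ≤ b := (Real.log_le_self (norm_nonneg _)).trans h

/-- the upper bound of `log |ζ'|` -/
theorem log_le_of_bound {a : ℂ} {K l : ℝ} (ha : a ≠ 0) (hl : 0 ≤ l) (hK : 0 ≤ K) (h : ‖a‖ ≤ K * l) : Real.log ‖a‖ ≤ Real.log (1 + K) + Real.log (1 + l) := by
  rw [← Real.log_mul (by positivity) (by positivity)]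
  refine Real.log_le_log (norm_pos_iff.2 ha) (h.trans ?_)
  nlinarith

end Pool.Agent.MQ2

end
end
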