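import Pool.Agent.H43.TL2.M14
import Pool.Agent.H43.TL2.M24
import Pool.Agent.H43.TL2.M34
import Pool.Agent.H43.TL2.MQ.GDefs_1

/-! The parts of this file: MQ.Ax0, MQ.SNCalc. -/

section

/-!
# MQ Ax0: the cut-off of one axis

The cut-off is `χ = Real.smoothTransition (2 - 2 |x| / η) Real.smoothTransition (2 - 2 |y| / r₀)`.  The field `(1 - χ) conj a` has the divergence `- ∇χ ⬝ conj a`.  The derivative of
the first factor has the good sign, the derivative of the second factor is supported in `|x| ≤ η`, `r₀ / 2 ≤ |y| ≤ r₀`, where `|a| ≤ K |b|` and `|b|` is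
bounded by the gradient of `log |g| - d log |F|`.
-/

set_option autoImplicit false

open MeasureTheory Topology Filter Metric Laplacian

noncomputable section

namespace Pool.Agent.MQ.AxisA

open Pool.Agent.H30M (deriv_st_eq_zero deriv_st_nonneg)
open Pool.Agent.MQ

theorem st_deriv_bdd : ∃ M : ℝ, 0 < M ∧ ∀ t, deriv Real.smoothTransition t ≤ M := by
  have hc : Continuous (deriv Real.smoothTransition) := (Real.smoothTransition.contDiff (n := 1)).continuous_deriv (by norm_num)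
  obtain ⟨M, hM⟩ := (isCompact_Icc (a := (0 : ℝ)) (b := 1)).bddAbove_image (f := deriv Real.smoothTransition) hc.continuousOn
  refine ⟨max M 1, lt_of_lt_of_le one_pos (le_max_right _ _), fun t => ?_⟩
  rcases le_total t 0 with h | h
  · rw [deriv_st_eq_zero (Or.inl h)]
    exact zero_le_one.trans (le_max_right _ _)
  · rcases le_total t 1 with h1 | h1
    · exact (hM ⟨t, ⟨h, h1⟩, rfl⟩).trans (le_max_left _ _)
    · rw [deriv_st_eq_zero (Or.inr h1)]
      exact zero_le_one.trans (le_max_right _ _)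

/-- the cut-off in one variable -/
def ct (s t : ℝ) : ℝ := Real.smoothTransition (2 - 2 * t / s)

theorem ct_nonneg (s t : ℝ) : 0 ≤ ct s t := Real.smoothTransition.nonneg _

theorem ct_le_one (s t : ℝ) : ct s t ≤ 1 := Real.smoothTransition.le_one _

theorem ct_of_le {s t : ℝ} (hs : 0 < s) (h : t ≤ s / 2) : ct s t = 1 := by
  refine Real.smoothTransition.one_of_one_le ?_
  have : 2 * t / s ≤ 1 := by
    rw [div_le_one hs]
    linarith
  linarith

theorem ct_of_ge {s t : ℝ} (hs : 0 < s) (h : s ≤ t) : ct s t = 0 := by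
  refine Real.smoothTransition.zero_of_nonpos ?_
  have : 2 ≤ 2 * t / s := by
    rw [le_div_iff₀ hs]
    linarith
  linarith

/-- the derivative of the cut-off, times `t` -/
def cd (s t : ℝ) : ℝ := 2 / s * deriv Real.smoothTransition (2 - 2 * t / s) * t

theorem cd_nonneg {s t : ℝ} (hs : 0 < s) (ht : 0 ≤ t) : 0 ≤ cd s t :=
  mul_nonneg (mul_nonneg (by positivity) (deriv_st_nonneg _)) ht

theorem cd_eq_zero {s t : ℝ} (hs : 0 < s) (h : t ≤ s / 2 ∨ s ≤ t) : cd s t = 0 := by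
  unfold cd
  rw [deriv_st_eq_zero, mul_zero, zero_mul]
  rcases h with h | h
  · right
    have : 2 * t / s ≤ 1 := by
      rw [div_le_one hs]
      linarith
    linarith
  · left
    have : 2 ≤ 2 * t / s := by
      rw [le_div_iff₀ hs]
      linarith
    linarith

theorem cd_le {M : ℝ} (hM0 : 0 < M) (hM : ∀ t, deriv Real.smoothTransition t ≤ M) {s t : ℝ} (hs : 0 < s) (ht : 0 ≤ t) : cd s t ≤ 2 * M := by
  rcases le_total s t with h | h
  · rw [cd_eq_zero hs (Or.inr h)]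
    positivity
  · unfold cd
    have h1 : 2 / s * deriv Real.smoothTransition (2 - 2 * t / s) * t = 2 * deriv Real.smoothTransition (2 - 2 * t / s) * (t / s) := by ring
    have h2 : t / s ≤ 1 := (div_le_one hs).2 h
    have h3 : 0 ≤ t / s := by positivity
    have h4 := hM (2 - 2 * t / s)
    have h5 := deriv_st_nonneg (2 - 2 * t / s)
    rw [h1]
    nlinarith

theorem contDiffAt_ct {x : ℂ → ℂ} {z : ℂ} (hx : AnalyticAt ℂ x z) {s : ℝ} (hs : 0 < s) : ContDiffAt ℝ 1 (fun w => ct s ‖x w‖) z := by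
  by_cases h0 : x z = 0
  · have h1 : (fun w => ct s ‖x w‖) =ᶠ[𝓝 z] fun _ => 1 := by
      have h2 : ∀ᶠ w in 𝓝 z, ‖x w‖ < s / 2 := by
        have h3 := hx.continuousAt.norm
        refine h3.eventually (gt_mem_nhds ?_)
        show ‖x z‖ < s / 2
        rw [h0, norm_zero]
        positivity
      filter_upwards [h2] with w hw
      exact ct_of_le hs hw.le
    exact contDiffAt_const.congr_of_eventuallyEq h1
  · have h1 : ContDiffAt ℝ 1 (fun w => ‖x w‖) z := (hx.contDiffAt.restrict_scalars ℝ).norm ℝ h0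
    have h2 : ContDiffAt ℝ 1 (fun w => 2 - 2 * ‖x w‖ / s) z := contDiffAt_const.sub ((contDiffAt_const.mul h1).div_const s)
    exact (Real.smoothTransition.contDiff (n := 1)).contDiffAt.comp z h2

theorem gr_ct {x : ℂ → ℂ} {z : ℂ} (hx : AnalyticAt ℂ x z) {s : ℝ} (hs : 0 < s) :
    gr (fun w => ct s ‖x w‖) z = -((cd s ‖x z‖ : ℝ) : ℂ) * (starRingEnd ℂ) (deriv x z / x z) := by
  by_cases h0 : x z = 0
  · have h1 : (fun w => ct s ‖x w‖) =ᶠ[𝓝 z] fun _ => 1 := by
      have h2 : ∀ᶠ w in 𝓝 z, ‖x w‖ < s / 2 := by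
        have h3 := hx.continuousAt.norm
        refine h3.eventually (gt_mem_nhds ?_)
        show ‖x z‖ < s / 2
        rw [h0, norm_zero]
        positivity
      filter_upwards [h2] with w hw
      exact ct_of_le hs hw.le
    rw [gr_congr h1, gr_const, h0]
    simp
  · have hn : ‖x z‖ ≠ 0 := norm_ne_zero_iff.2 h0
    have h1 : (fun w => ct s ‖x w‖) =ᶠ[𝓝 z] fun w => Real.smoothTransition (2 - 2 * Real.exp (Real.log ‖x w‖) / s) := by
      filter_upwards [hx.continuousAt.eventually_ne h0] with w hw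
      rw [Real.exp_log (norm_pos_iff.2 hw)]
      rfl
    rw [gr_congr h1]
    have h2 : DifferentiableAt ℝ (fun w => Real.log ‖x w‖) z :=
      ((hx.contDiffAt.restrict_scalars ℝ (n := 1)).norm ℝ h0).differentiableAt (by norm_num) |>.log hn
    have h3 : HasDerivAt (fun t : ℝ => Real.smoothTransition (2 - 2 * Real.exp t / s)) (deriv Real.smoothTransition (2 - 2 * Real.exp (Real.log ‖x z‖) / s) *
        (-(2 * Real.exp (Real.log ‖x z‖) / s))) (Real.log ‖x z‖) := by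
      have h4 : HasDerivAt Real.smoothTransition (deriv Real.smoothTransition (2 - 2 * Real.exp (Real.log ‖x z‖) / s)) (2 - 2 * Real.exp (Real.log ‖x z‖) / s) :=
        ((Real.smoothTransition.contDiff (n := 1)).differentiable (by norm_num) _).hasDerivAt
      have h5 : HasDerivAt (fun t : ℝ => 2 - 2 * Real.exp t / s) (-(2 * Real.exp (Real.log ‖x z‖) / s)) (Real.log ‖x z‖) :=
        (((Real.hasDerivAt_exp _).const_mul 2).div_const s).const_sub 2
      exact HasDerivAt.comp (h₂ := Real.smoothTransition) (Real.log ‖x z‖) h4 h5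
    have h4 := gr_comp (K := fun t : ℝ => Real.smoothTransition (2 - 2 * Real.exp t / s)) h3 h2
    rw [h4, gr_log_norm hx.differentiableAt h0, Real.exp_log (norm_pos_iff.2 h0)]
    unfold cd
    push_cast
    ring

/-! ### the cut-off of an axis -/

/-- One axis of a box, without conditions at the common zeros of `x` and `y`: holomorphic functions `x`, `y` on the open set `U`, with `x' = x a`,
`y' = y b`, `|a| ≤ K |b|` outside the common zeros. -/
structure Axis0 (U : Set ℂ) (x y a b : ℂ → ℂ) (K rho : ℝ) : Prop where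
  isOpen : IsOpen U
  hx : ∀ z ∈ U, AnalyticAt ℂ x z
  hy : ∀ z ∈ U, AnalyticAt ℂ y z
  ha : ∀ z ∈ U, x z ≠ 0 ∨ y z ≠ 0 → AnalyticAt ℂ a z
  hb : ∀ z ∈ U, x z ≠ 0 ∨ y z ≠ 0 → AnalyticAt ℂ b z
  dx : ∀ z ∈ U, x z ≠ 0 ∨ y z ≠ 0 → deriv x z = x z * a z
  dy : ∀ z ∈ U, x z ≠ 0 ∨ y z ≠ 0 → deriv y z = y z * b z
  ab : ∀ z ∈ U, x z ≠ 0 ∨ y z ≠ 0 → ‖a z‖ ≤ K * ‖b z‖
  closed : ∀ s : ℝ, s < rho → IsClosed {z | z ∈ U ∧ ‖x z‖ ≤ s ∧ ‖y z‖ ≤ s}

variable {U : Set ℂ} {x y a b : ℂ → ℂ} {K rho : ℝ} {g : ℂ → ℂ}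

open Classical in
/-- the cut-off -/
def chi (U : Set ℂ) (x y : ℂ → ℂ) (η r₀ : ℝ) (z : ℂ) : ℝ := if z ∈ U then ct η ‖x z‖ * ct r₀ ‖y z‖ else 0

theorem chi_of_mem {η r₀ : ℝ} {z : ℂ} (hz : z ∈ U) : chi U x y η r₀ z = ct η ‖x z‖ * ct r₀ ‖y z‖ := by
  classical
  exact if_pos hz

theorem chi_of_notMem {η r₀ : ℝ} {z : ℂ} (hz : z ∉ U) : chi U x y η r₀ z = 0 := by
  classical
  exact if_neg hz

theorem chi_nonneg (η r₀ : ℝ) (z : ℂ) : 0 ≤ chi U x y η r₀ z := by
  by_cases hz : z ∈ U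
  · rw [chi_of_mem hz]
    exact mul_nonneg (ct_nonneg _ _) (ct_nonneg _ _)
  · rw [chi_of_notMem hz]

theorem chi_le_one (η r₀ : ℝ) (z : ℂ) : chi U x y η r₀ z ≤ 1 := by
  by_cases hz : z ∈ U
  · rw [chi_of_mem hz]
    exact mul_le_one₀ (ct_le_one _ _) (ct_nonneg _ _) (ct_le_one _ _)
  · rw [chi_of_notMem hz]
    exact zero_le_one

/-- the closed set which contains the support -/
def TT (U : Set ℂ) (x y : ℂ → ℂ) (η r₀ : ℝ) : Set ℂ := {z | z ∈ U ∧ ‖x z‖ ≤ η ∧ ‖y z‖ ≤ r₀}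

theorem mem_TT_of_ne {η r₀ : ℝ} (hη : 0 < η) (hr : 0 < r₀) {z : ℂ} (h : chi U x y η r₀ z ≠ 0) : z ∈ TT U x y η r₀ := by
  by_cases hz : z ∈ U
  · rw [chi_of_mem hz] at h
    refine ⟨hz, ?_, ?_⟩
    · by_contra h1
      exact h (by rw [ct_of_ge hη (not_le.1 h1).le, zero_mul])
    · by_contra h1
      exact h (by rw [ct_of_ge hr (not_le.1 h1).le, mul_zero])
  · exact absurd (chi_of_notMem hz) h

theorem isClosed_TT (h : Axis0 U x y a b K rho) {η r₀ : ℝ} (hη : η ≤ r₀) (hr : r₀ < rho) : IsClosed (TT U x y η r₀) := by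
  have h1 := h.closed r₀ hr
  rw [← isOpen_compl_iff, isOpen_iff_mem_nhds] at h1 ⊢
  intro z hz
  by_cases h2 : z ∈ {z | z ∈ U ∧ ‖x z‖ ≤ r₀ ∧ ‖y z‖ ≤ r₀}
  · have h3 : η < ‖x z‖ := by
      by_contra h4
      exact hz ⟨h2.1, not_lt.1 h4, h2.2.2⟩
    have h4 : ∀ᶠ w in 𝓝 z, η < ‖x w‖ := (h.hx z h2.1).continuousAt.norm.eventually (lt_mem_nhds h3)
    filter_upwards [h4] with w hw hw2
    exact absurd hw2.2.1 (not_le.2 hw)
  · filter_upwards [h1 z h2] with w hw hw2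
    exact hw ⟨hw2.1, hw2.2.1.trans hη, hw2.2.2⟩

theorem chi_ev_mem (h : Axis0 U x y a b K rho) {η r₀ : ℝ} {z : ℂ} (hz : z ∈ U) :
    chi U x y η r₀ =ᶠ[𝓝 z] fun w => ct η ‖x w‖ * ct r₀ ‖y w‖ := by
  filter_upwards [h.isOpen.mem_nhds hz] with w hw
  exact chi_of_mem hw

theorem chi_ev_zero (h : Axis0 U x y a b K rho) {η r₀ : ℝ} (hη0 : 0 < η) (hη : η ≤ r₀) (hr : r₀ < rho) {z : ℂ} (hz : z ∉ TT U x y η r₀) :
    chi U x y η r₀ =ᶠ[𝓝 z] fun _ => 0 := by
  filter_upwards [(isClosed_TT h hη hr).isOpen_compl.mem_nhds hz] with w hw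
  by_contra h1
  exact hw (mem_TT_of_ne hη0 (lt_of_lt_of_le hη0 hη) h1)

theorem contDiff_chi (h : Axis0 U x y a b K rho) {η r₀ : ℝ} (hη0 : 0 < η) (hη : η ≤ r₀) (hr : r₀ < rho) : ContDiff ℝ 1 (chi U x y η r₀) := by
  rw [contDiff_iff_contDiffAt]
  intro z
  by_cases hz : z ∈ TT U x y η r₀
  · exact ((contDiffAt_ct (h.hx z hz.1) hη0).mul (contDiffAt_ct (h.hy z hz.1) (lt_of_lt_of_le hη0 hη))).congr_of_eventuallyEq (chi_ev_mem h hz.1)
  · exact contDiffAt_const.congr_of_eventuallyEq (chi_ev_zero h hη0 hη hr hz)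

theorem gr_chi (h : Axis0 U x y a b K rho) {η r₀ : ℝ} (hη0 : 0 < η) (hr : 0 < r₀) {z : ℂ} (hz : z ∈ U) :
    gr (chi U x y η r₀) z = ((ct η ‖x z‖ : ℝ) : ℂ) * (-((cd r₀ ‖y z‖ : ℝ) : ℂ) * (starRingEnd ℂ) (deriv y z / y z)) +
      ((ct r₀ ‖y z‖ : ℝ) : ℂ) * (-((cd η ‖x z‖ : ℝ) : ℂ) * (starRingEnd ℂ) (deriv x z / x z)) := by
  rw [gr_congr (chi_ev_mem h hz), gr_mul ((contDiffAt_ct (h.hx z hz) hη0).differentiableAt (by norm_num))
    ((contDiffAt_ct (h.hy z hz) hr).differentiableAt (by norm_num)), gr_ct (h.hy z hz) hr, gr_ct (h.hx z hz) hη0]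

/-- the gradient of the cut-off against `conj a` -/
theorem ip_gr_chi_le (h : Axis0 U x y a b K rho) (hK : 0 ≤ K) {M : ℝ} (hM0 : 0 < M) (hM : ∀ t, deriv Real.smoothTransition t ≤ M) {η r₀ : ℝ} (hη0 : 0 < η) (hr : 0 < r₀)
    {z : ℂ} (hz : z ∈ U) : ip (gr (chi U x y η r₀) z) ((starRingEnd ℂ) (a z)) ≤ 0 ∨
      ‖x z‖ ≤ η ∧ r₀ / 2 ≤ ‖y z‖ ∧ ‖y z‖ ≤ r₀ ∧ ip (gr (chi U x y η r₀) z) ((starRingEnd ℂ) (a z)) ≤ 2 * M * K * ‖b z‖ ^ 2 := by
  by_cases hp : x z ≠ 0 ∨ y z ≠ 0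
  · -- the two terms
    have e1 : ((cd η ‖x z‖ : ℝ) : ℂ) * (starRingEnd ℂ) (deriv x z / x z) = ((cd η ‖x z‖ : ℝ) : ℂ) * (starRingEnd ℂ) (a z) := by
      by_cases hx : x z = 0
      · have : cd η ‖x z‖ = 0 := cd_eq_zero hη0 (Or.inl (by rw [hx, norm_zero]; positivity))
        rw [this]
        simp
      · rw [h.dx z hz hp, mul_div_cancel_left₀ _ hx]
    have e2 : ((cd r₀ ‖y z‖ : ℝ) : ℂ) * (starRingEnd ℂ) (deriv y z / y z) = ((cd r₀ ‖y z‖ : ℝ) : ℂ) * (starRingEnd ℂ) (b z) := by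
      by_cases hy : y z = 0
      · have : cd r₀ ‖y z‖ = 0 := cd_eq_zero hr (Or.inl (by rw [hy, norm_zero]; positivity))
        rw [this]
        simp
      · rw [h.dy z hz hp, mul_div_cancel_left₀ _ hy]
    have e3 : ip (gr (chi U x y η r₀) z) ((starRingEnd ℂ) (a z)) =
        -(ct η ‖x z‖ * cd r₀ ‖y z‖ * ip ((starRingEnd ℂ) (b z)) ((starRingEnd ℂ) (a z))) - ct r₀ ‖y z‖ * cd η ‖x z‖ * ‖a z‖ ^ 2 := by
      rw [gr_chi h hη0 hr hz, neg_mul, neg_mul, e1, e2, ip_add_left, ip_smul_left, ip_smul_left, ip_neg_left, ip_neg_left, ip_smul_left, ip_smul_left,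
        ip_self, RCLike.norm_conj]
      ring
    by_cases hin : ‖x z‖ ≤ η ∧ r₀ / 2 ≤ ‖y z‖ ∧ ‖y z‖ ≤ r₀
    · right
      refine ⟨hin.1, hin.2.1, hin.2.2, ?_⟩
      have h1 : |ip ((starRingEnd ℂ) (b z)) ((starRingEnd ℂ) (a z))| ≤ K * ‖b z‖ ^ 2 := by
        have h2 := abs_ip_le ((starRingEnd ℂ) (b z)) ((starRingEnd ℂ) (a z))
        rw [RCLike.norm_conj, RCLike.norm_conj] at h2
        have h3 := h.ab z hz hp
        have h4 := norm_nonneg (b z)
        nlinarith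
      have h2 : 0 ≤ ct r₀ ‖y z‖ * cd η ‖x z‖ * ‖a z‖ ^ 2 := mul_nonneg (mul_nonneg (ct_nonneg _ _) (cd_nonneg hη0 (norm_nonneg _))) (sq_nonneg _)
      have h3 : 0 ≤ ct η ‖x z‖ * cd r₀ ‖y z‖ := mul_nonneg (ct_nonneg _ _) (cd_nonneg hr (norm_nonneg _))
      have h4 : ct η ‖x z‖ * cd r₀ ‖y z‖ ≤ 2 * M := by
        have h5 := cd_le hM0 hM hr (norm_nonneg (y z))
        have h6 := cd_nonneg hr (norm_nonneg (y z))
        have h7 := ct_le_one η ‖x z‖
        nlinarith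
      have h5 := (abs_le.1 h1).1
      rw [e3]
      have h6 : 0 ≤ K * ‖b z‖ ^ 2 := by positivity
      nlinarith [mul_le_mul_of_nonneg_left h5 h3, mul_le_mul_of_nonneg_right h4 h6]
    · left
      have h1 : ct η ‖x z‖ * cd r₀ ‖y z‖ = 0 := by
        by_cases hx : ‖x z‖ ≤ η
        · rw [cd_eq_zero hr, mul_zero]
          by_contra h2
          push Not at h2
          exact hin ⟨hx, h2.1.le, h2.2.le⟩
        · rw [ct_of_ge hη0 (not_le.1 hx).le, zero_mul]
      have h2 : 0 ≤ ct r₀ ‖y z‖ * cd η ‖x z‖ * ‖a z‖ ^ 2 := mul_nonneg (mul_nonneg (ct_nonneg _ _) (cd_nonneg hη0 (norm_nonneg _))) (sq_nonneg _)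
      rw [e3, h1]
      linarith
  · left
    push Not at hp
    have e1 : cd η ‖x z‖ = 0 := cd_eq_zero hη0 (Or.inl (by rw [hp.1, norm_zero]; positivity))
    have e2 : cd r₀ ‖y z‖ = 0 := cd_eq_zero hr (Or.inl (by rw [hp.2, norm_zero]; positivity))
    rw [gr_chi h hη0 hr hz, e1, e2]
    simp

theorem gr_chi_zero (h : Axis0 U x y a b K rho) {η r₀ : ℝ} (hη0 : 0 < η) (hη : η ≤ r₀) (hr : r₀ < rho) {z : ℂ} (hz : z ∉ TT U x y η r₀) :
    gr (chi U x y η r₀) z = 0 := by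
  rw [gr_congr (chi_ev_zero h hη0 hη hr hz), gr_const]

/-- the scalar product is continuous -/
theorem continuous_ip_chi (h : Axis0 U x y a b K rho) {η r₀ : ℝ} (hη0 : 0 < η) (hη : η ≤ r₀) (hr : r₀ < rho) :
    Continuous fun z => ip (gr (chi U x y η r₀) z) ((starRingEnd ℂ) (a z)) := by
  have hg : Continuous (gr (chi U x y η r₀)) := continuous_gr (contDiff_chi h hη0 hη hr)
  have hr0 : 0 < r₀ := lt_of_lt_of_le hη0 hη
  rw [continuous_iff_continuousAt]
  intro z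
  by_cases hz : z ∈ TT U x y η r₀
  · by_cases hp : x z ≠ 0 ∨ y z ≠ 0
    · have h1 : ContinuousAt (fun z => (starRingEnd ℂ) (a z)) z := Complex.continuous_conj.continuousAt.comp (h.ha z hz.1 hp).continuousAt
      unfold ip
      exact ((Complex.continuous_re.continuousAt.comp hg.continuousAt).mul (Complex.continuous_re.continuousAt.comp h1)).add
        ((Complex.continuous_im.continuousAt.comp hg.continuousAt).mul (Complex.continuous_im.continuousAt.comp h1))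
    · push Not at hp
      -- near a common zero the cut-off is `1`
      have h1 : chi U x y η r₀ =ᶠ[𝓝 z] fun _ => 1 := by
        have h2 : ∀ᶠ w in 𝓝 z, ‖x w‖ < η / 2 := (h.hx z hz.1).continuousAt.norm.eventually (gt_mem_nhds (by
          show ‖x z‖ < η / 2
          rw [hp.1, norm_zero]
          positivity))
        have h3 : ∀ᶠ w in 𝓝 z, ‖y w‖ < r₀ / 2 := (h.hy z hz.1).continuousAt.norm.eventually (gt_mem_nhds (by
          show ‖y z‖ < r₀ / 2
          rw [hp.2, norm_zero]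
          positivity))
        filter_upwards [chi_ev_mem h (η := η) (r₀ := r₀) hz.1, h2, h3] with w hw hw2 hw3
        rw [hw, ct_of_le hη0 hw2.le, ct_of_le hr0 hw3.le, one_mul]
      have h2 : (fun z => ip (gr (chi U x y η r₀) z) ((starRingEnd ℂ) (a z))) =ᶠ[𝓝 z] fun _ => 0 := by
        filter_upwards [gr_eventuallyEq h1] with w hw
        rw [hw, gr_const, ip_zero_left]
      exact continuousAt_const.congr h2.symm
  · have h2 : (fun z => ip (gr (chi U x y η r₀) z) ((starRingEnd ℂ) (a z))) =ᶠ[𝓝 z] fun _ => 0 := by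
      filter_upwards [gr_eventuallyEq (chi_ev_zero h hη0 hη hr hz)] with w hw
      rw [hw, gr_const, ip_zero_left]
    exact continuousAt_const.congr h2.symm

/-! ### the field `(1 - χ) conj a` -/

theorem contDiffAt_conj_a (h : Axis0 U x y a b K rho) {z : ℂ} (hz : z ∈ U) (hp : x z ≠ 0 ∨ y z ≠ 0) :
    ContDiffAt ℝ 1 (fun w => (starRingEnd ℂ) (a w)) z := contDiffAt_conj_holo (h.ha z hz hp)

/-- near a common zero of `x` and `y` the cut-off is `1` -/
theorem chi_ev_one (h : Axis0 U x y a b K rho) {η r₀ : ℝ} (hη0 : 0 < η) (hr0 : 0 < r₀) {z : ℂ} (hz : z ∈ U) (hx : x z = 0) (hy : y z = 0) :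
    chi U x y η r₀ =ᶠ[𝓝 z] fun _ => 1 := by
  have h2 : ∀ᶠ w in 𝓝 z, ‖x w‖ < η / 2 := (h.hx z hz).continuousAt.norm.eventually (gt_mem_nhds (by
    show ‖x z‖ < η / 2
    rw [hx, norm_zero]
    positivity))
  have h3 : ∀ᶠ w in 𝓝 z, ‖y w‖ < r₀ / 2 := (h.hy z hz).continuousAt.norm.eventually (gt_mem_nhds (by
    show ‖y z‖ < r₀ / 2
    rw [hy, norm_zero]
    positivity))
  filter_upwards [chi_ev_mem h (η := η) (r₀ := r₀) hz, h2, h3] with w hw hw2 hw3
  rw [hw, ct_of_le hη0 hw2.le, ct_of_le hr0 hw3.le, one_mul]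

/-- the field `(1 - χ) conj a` is of class `C¹` on `U`, with divergence `- ∇χ ⬝ conj a` -/
theorem ax_field (h : Axis0 U x y a b K rho) {η r₀ : ℝ} (hη0 : 0 < η) (hη : η ≤ r₀) (hr : r₀ < rho) {z : ℂ} (hz : z ∈ U) :
    ContDiffAt ℝ 1 (fun w => ((1 - chi U x y η r₀ w : ℝ) : ℂ) * (starRingEnd ℂ) (a w)) z ∧
      dv (fun w => ((1 - chi U x y η r₀ w : ℝ) : ℂ) * (starRingEnd ℂ) (a w)) z = -ip (gr (chi U x y η r₀) z) ((starRingEnd ℂ) (a z)) := by
  have hr0 : 0 < r₀ := lt_of_lt_of_le hη0 hη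
  have hc := contDiff_chi h hη0 hη hr
  by_cases hp : x z ≠ 0 ∨ y z ≠ 0
  · have h1 := contDiffAt_conj_a h hz hp
    have h2 : ContDiffAt ℝ 1 (fun w => 1 - chi U x y η r₀ w) z := contDiffAt_const.sub hc.contDiffAt
    refine ⟨(Complex.ofRealCLM.contDiff.contDiffAt.comp z h2).mul h1, ?_⟩
    rw [dv_mul (h2.differentiableAt (by norm_num)) (h1.differentiableAt (by norm_num)), dv_conj (h.ha z hz hp).differentiableAt, mul_zero, zero_add,
      gr_sub (differentiableAt_const _) (hc.contDiffAt.differentiableAt (by norm_num)), gr_const, zero_sub, ip_neg_left]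
  · push Not at hp
    have h1 := chi_ev_one h hη0 hr0 hz hp.1 hp.2
    have h2 : (fun w => ((1 - chi U x y η r₀ w : ℝ) : ℂ) * (starRingEnd ℂ) (a w)) =ᶠ[𝓝 z] fun _ => 0 := by
      filter_upwards [h1] with w hw
      rw [hw]
      simp
    refine ⟨contDiffAt_const.congr_of_eventuallyEq h2, ?_⟩
    rw [dv_congr h2, dv_const, gr_congr h1, gr_const, ip_zero_left, neg_zero]

/-! ### the charge -/

end Pool.Agent.MQ.AxisA

end
end

section

/-!
# MQ/SNCalc: calculus for the exit of a saddle-node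
-/

set_option autoImplicit false

open Topology Filter Complex ComplexConjugate

noncomputable section

namespace Pool.Agent.MQ

open Pool.Agent.H30M (deriv_st_eq_zero deriv_st_nonneg)

/-- `(1 - χ) conj D` rotated gradient term -/
theorem dv_rot_gr {a b : ℂ → ℝ} {z : ℂ} (ha : DifferentiableAt ℝ a z) (hb : ContDiffAt ℝ 2 b z) :
    dv (fun w => (a w : ℂ) * (-I * gr b w)) z = ip (gr a z) (-I * gr b z) := by
  have hd : DifferentiableAt ℝ (gr b) z := differentiableAt_gr hb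
  have hd2 : DifferentiableAt ℝ (fun w => -I * gr b w) z := hd.const_mul _
  rw [dv_mul ha hd2]
  have h0 : dv (fun w => -I * gr b w) z = 0 := by
    have h1 : HasFDerivAt (fun w => -I * gr b w) ((-I) • fderiv ℝ (gr b) z) z := hd.hasFDerivAt.const_mul (-I)
    have hre : fderiv ℝ (fun w => fderiv ℝ b w 1) z = Complex.reCLM.comp (fderiv ℝ (gr b) z) :=
      (Complex.reCLM.hasFDerivAt.comp z hd.hasFDerivAt).fderiv
    have him : fderiv ℝ (fun w => fderiv ℝ b w I) z = Complex.imCLM.comp (fderiv ℝ (gr b) z) :=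
      (Complex.imCLM.hasFDerivAt.comp z hd.hasFDerivAt).fderiv
    have hc := dx_dy_comm hb
    have hc' : fderiv ℝ (fun w => fderiv ℝ b w I) z 1 = fderiv ℝ (fun w => fderiv ℝ b w 1) z I := hc
    rw [hre, him] at hc'
    unfold dv
    rw [h1.fderiv]
    simp at hc' ⊢
    linarith
  rw [h0, mul_zero, zero_add]

theorem ip_rot (a b : ℂ) : ip a (-I * b) = (conj a * b).im := by
  simp [ip, mul_re, mul_im]

theorem gr_normSq {f : ℂ → ℂ} {z : ℂ} (hf : DifferentiableAt ℂ f z) :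
    DifferentiableAt ℝ (fun w => ‖f w‖ ^ 2) z ∧ gr (fun w => ‖f w‖ ^ 2) z = 2 * (f z * conj (deriv f z)) := by
  have hfr : DifferentiableAt ℝ f z := hf.restrictScalars ℝ
  have hre : DifferentiableAt ℝ (fun w => (f w).re) z := Complex.reCLM.differentiableAt.comp z hfr
  have him : DifferentiableAt ℝ (fun w => (f w).im) z := Complex.imCLM.differentiableAt.comp z hfr
  have e : (fun w => ‖f w‖ ^ 2) = fun w => (f w).re * (f w).re + (f w).im * (f w).im := by
    funext w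
    rw [Complex.sq_norm, Complex.normSq_apply]
  rw [e]
  refine ⟨(hre.mul hre).add (him.mul him), ?_⟩
  have h1 : gr (fun w => (f w).re * (f w).re + (f w).im * (f w).im) z =
      gr (fun w => (f w).re * (f w).re) z + gr (fun w => (f w).im * (f w).im) z :=
    gr_add (u := fun w => (f w).re * (f w).re) (v := fun w => (f w).im * (f w).im) (hre.mul hre) (him.mul him)
  rw [h1, gr_mul hre hre, gr_mul him him, gr_re_holo hf, gr_im_holo hf]
  apply Complex.ext
  · simp [mul_re, mul_im]; ring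
  · simp [mul_re, mul_im]; ring

theorem contDiffAt_normSq {f : ℂ → ℂ} {z : ℂ} {n : WithTop ℕ∞} (hf : AnalyticAt ℂ f z) : ContDiffAt ℝ n (fun w => ‖f w‖ ^ 2) z :=
  ((hf.contDiffAt (n := n)).restrict_scalars ℝ).norm_sq ℂ

theorem gr_comp_normSq {f : ℂ → ℂ} {z : ℂ} (hf : DifferentiableAt ℂ f z) {h : ℝ → ℝ} {A : ℝ} (hh : DifferentiableAt ℝ h (A * ‖f z‖ ^ 2)) :
    gr (fun w => h (A * ‖f w‖ ^ 2)) z = ((deriv h (A * ‖f z‖ ^ 2) * A : ℝ) : ℂ) * (2 * (f z * conj (deriv f z))) := by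
  obtain ⟨h1, h2⟩ := gr_normSq hf
  have h3 : gr (fun w => A * ‖f w‖ ^ 2) z = (A : ℂ) * gr (fun w => ‖f w‖ ^ 2) z := gr_const_mul A h1
  have h4 : gr (fun w => h (A * ‖f w‖ ^ 2)) z = ((deriv h (A * ‖f z‖ ^ 2) : ℝ) : ℂ) * gr (fun w => A * ‖f w‖ ^ 2) z :=
    gr_comp (u := fun w => A * ‖f w‖ ^ 2) hh.hasDerivAt (h1.const_mul A)
  rw [h4, h3, h2]
  push_cast
  ring

theorem contDiffAt_comp_normSq {f : ℂ → ℂ} {z : ℂ} (hf : AnalyticAt ℂ f z) {h : ℝ → ℝ} {A : ℝ} {n : ℕ∞} (hh : ContDiff ℝ n h) :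
    ContDiffAt ℝ n (fun w => h (A * ‖f w‖ ^ 2)) z :=
  hh.contDiffAt.comp z (contDiffAt_const.mul (contDiffAt_normSq hf))

/-- `1` for `s ≥ 2`, `0` for `s ≤ 1` -/
def hp (s : ℝ) : ℝ := Real.smoothTransition (s - 1)

/-- `1` for `t ≤ 1 / 2`, `0` for `t ≥ 1` -/
def hm (t : ℝ) : ℝ := Real.smoothTransition (2 - 2 * t)

theorem hp_contDiff {n : ℕ∞} : ContDiff ℝ n hp := Real.smoothTransition.contDiff.comp (contDiff_id.sub contDiff_const)

theorem hm_contDiff {n : ℕ∞} : ContDiff ℝ n hm :=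
  Real.smoothTransition.contDiff.comp (contDiff_const.sub (contDiff_const.mul contDiff_id))

theorem hp_zero {s : ℝ} (h : s ≤ 1) : hp s = 0 := Real.smoothTransition.zero_of_nonpos (by linarith)

theorem hp_one {s : ℝ} (h : 2 ≤ s) : hp s = 1 := Real.smoothTransition.one_of_one_le (by linarith)

theorem hm_zero {t : ℝ} (h : 1 ≤ t) : hm t = 0 := Real.smoothTransition.zero_of_nonpos (by linarith)

theorem hm_one {t : ℝ} (h : t ≤ 1 / 2) : hm t = 1 := Real.smoothTransition.one_of_one_le (by linarith)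

theorem hp_nonneg (s : ℝ) : 0 ≤ hp s := Real.smoothTransition.nonneg _

theorem hp_le (s : ℝ) : hp s ≤ 1 := Real.smoothTransition.le_one _

theorem hm_nonneg (s : ℝ) : 0 ≤ hm s := Real.smoothTransition.nonneg _

theorem hm_le (s : ℝ) : hm s ≤ 1 := Real.smoothTransition.le_one _

theorem deriv_hp (s : ℝ) : deriv hp s = deriv Real.smoothTransition (s - 1) := by
  have h : HasDerivAt Real.smoothTransition (deriv Real.smoothTransition (s - 1)) (s - 1) :=
    ((Real.smoothTransition.contDiff (n := 1)).differentiable one_ne_zero _).hasDerivAt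
  have h2 : HasDerivAt hp (deriv Real.smoothTransition (s - 1) * 1) s := h.comp s ((hasDerivAt_id s).sub_const 1)
  rw [h2.deriv, mul_one]

theorem deriv_hm (t : ℝ) : deriv hm t = -2 * deriv Real.smoothTransition (2 - 2 * t) := by
  have h : HasDerivAt Real.smoothTransition (deriv Real.smoothTransition (2 - 2 * t)) (2 - 2 * t) :=
    ((Real.smoothTransition.contDiff (n := 1)).differentiable one_ne_zero _).hasDerivAt
  have h2 : HasDerivAt hm (deriv Real.smoothTransition (2 - 2 * t) * (-(2 * 1))) t :=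
    h.comp t (((hasDerivAt_id t).const_mul 2).const_sub 2)
  rw [h2.deriv]
  ring

/-- the factor of the gradient of the first cut-off -/
def HH₁ (s : ℝ) : ℝ := 2 * s * deriv hp s

/-- the factor of the gradient of the second cut-off -/
def HH₂ (t : ℝ) : ℝ := -(2 * t * deriv hm t)

theorem HH₁_zero {s : ℝ} (h : s ≤ 1 ∨ 2 ≤ s) : HH₁ s = 0 := by
  rw [HH₁, deriv_hp, deriv_st_eq_zero, mul_zero]
  rcases h with h | h
  · exact Or.inl (by linarith)
  · exact Or.inr (by linarith)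

theorem HH₂_zero {t : ℝ} (h : t ≤ 1 / 2 ∨ 1 ≤ t) : HH₂ t = 0 := by
  rw [HH₂, deriv_hm, deriv_st_eq_zero, mul_zero, mul_zero, neg_zero]
  rcases h with h | h
  · exact Or.inr (by linarith)
  · exact Or.inl (by linarith)

theorem HH₁_nonneg (s : ℝ) : 0 ≤ HH₁ s := by
  by_cases h : s ≤ 1
  · rw [HH₁_zero (Or.inl h)]
  · rw [HH₁, deriv_hp]
    have := deriv_st_nonneg (s - 1)
    have h1 : 0 ≤ s := by linarith
    positivity

theorem HH₂_nonneg (t : ℝ) : 0 ≤ HH₂ t := by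
  by_cases h : t ≤ 1 / 2
  · rw [HH₂_zero (Or.inl h)]
  · rw [HH₂, deriv_hm]
    have := deriv_st_nonneg (2 - 2 * t)
    have h1 : 0 ≤ t := by linarith
    have h2 : -(2 * t * (-2 * deriv Real.smoothTransition (2 - 2 * t))) = 4 * (t * deriv Real.smoothTransition (2 - 2 * t)) := by ring
    rw [h2]
    positivity

theorem HH_bdd : ∃ B : ℝ, 0 < B ∧ (∀ s, HH₁ s ≤ B) ∧ ∀ t, HH₂ t ≤ B := by
  obtain ⟨M, hM0, hM⟩ := AxisA.st_deriv_bdd
  refine ⟨4 * M, by positivity, fun s => ?_, fun t => ?_⟩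
  · by_cases h : s ≤ 1 ∨ 2 ≤ s
    · rw [HH₁_zero h]; positivity
    · push Not at h
      rw [HH₁, deriv_hp]
      have h1 := deriv_st_nonneg (s - 1)
      have h2 := hM (s - 1)
      nlinarith
  · by_cases h : t ≤ 1 / 2 ∨ 1 ≤ t
    · rw [HH₂_zero h]; positivity
    · push Not at h
      rw [HH₂, deriv_hm]
      have h1 := deriv_st_nonneg (2 - 2 * t)
      have h2 := hM (2 - 2 * t)
      nlinarith

/-- the gradient of the first cut-off: `f` is the potential, `f' = Z` -/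
theorem gr_hp {f : ℂ → ℂ} {z : ℂ} (hf : DifferentiableAt ℂ f z) (h0 : f z ≠ 0) (A : ℝ) :
    gr (fun w => hp (A * ‖f w‖ ^ 2)) z = (HH₁ (A * ‖f z‖ ^ 2) : ℂ) * conj (deriv f z * (f z)⁻¹) := by
  rw [gr_comp_normSq hf ((hp_contDiff (n := 1)).differentiable one_ne_zero _), HH₁]
  have h1 : (f z * conj (deriv f z)) = ((‖f z‖ ^ 2 : ℝ) : ℂ) * conj (deriv f z * (f z)⁻¹) := by
    have h2 : ((‖f z‖ ^ 2 : ℝ) : ℂ) = f z * conj (f z) := by
      rw [mul_conj, Complex.normSq_eq_norm_sq]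
    rw [h2, map_mul, map_inv₀]
    have h3 : conj (f z) ≠ 0 := (map_ne_zero _).2 h0
    field_simp
  rw [h1]
  push_cast
  ring

/-- the gradient of the second cut-off -/
theorem gr_hm {f : ℂ → ℂ} {z : ℂ} (hf : DifferentiableAt ℂ f z) (A : ℝ) :
    gr (fun w => hm (A * ‖f w‖ ^ 2)) z = -(HH₂ (A * ‖f z‖ ^ 2) : ℂ) * conj (deriv f z / f z) := by
  rw [gr_comp_normSq hf ((hm_contDiff (n := 1)).differentiable one_ne_zero _), HH₂]
  by_cases h0 : f z = 0
  · rw [h0]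
    simp
  have h1 : (f z * conj (deriv f z)) = ((‖f z‖ ^ 2 : ℝ) : ℂ) * conj (deriv f z / f z) := by
    have h2 : ((‖f z‖ ^ 2 : ℝ) : ℂ) = f z * conj (f z) := by
      rw [mul_conj, Complex.normSq_eq_norm_sq]
    rw [h2, map_div₀]
    have h3 : conj (f z) ≠ 0 := (map_ne_zero _).2 h0
    field_simp
  rw [h1]
  push_cast
  ring

end Pool.Agent.MQ

end
end
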