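import Pool.Agent.H43.TL2.M34
import Pool.Agent.H43.TL2.MQ.GDefs_1

/-! The parts of this file: MQ.FS, MQ3.Cut. -/

section

/-!
The Fubini-Study density: gradient and Laplacian of `log ‖F‖` for a holomorphic map `F` into a
complex inner product space.
-/

namespace Pool.Agent.MQ

open Complex Laplacian Topology Filter

open Pool.Agent.H30M (gg)

section

variable {V : Type*} [NormedAddCommGroup V] [InnerProductSpace ℂ V]

lemma hasFDerivAt_holoV {F : ℂ → V} {F' : V} {z : ℂ} (hF : HasDerivAt F F' z) :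
    HasFDerivAt F ((ContinuousLinearMap.toSpanSingleton ℂ F').restrictScalars ℝ) z :=
  hF.hasFDerivAt.restrictScalars ℝ

lemma hasFDerivAt_inner_holo {F G : ℂ → V} {F' G' : V} {z : ℂ} (hF : HasDerivAt F F' z)
    (hG : HasDerivAt G G' z) :
    HasFDerivAt (fun w => inner ℂ (F w) (G w)) ((fderivInnerCLM ℂ (F z, G z)).comp
      (((ContinuousLinearMap.toSpanSingleton ℂ F').restrictScalars ℝ).prod
        ((ContinuousLinearMap.toSpanSingleton ℂ G').restrictScalars ℝ))) z :=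
  (hasFDerivAt_holoV hF).inner ℂ (hasFDerivAt_holoV hG)

lemma fderiv_inner_holo {F G : ℂ → V} {F' G' : V} {z : ℂ} (hF : HasDerivAt F F' z)
    (hG : HasDerivAt G G' z) (v : ℂ) :
    fderiv ℝ (fun w => inner ℂ (F w) (G w)) z v =
      v * inner ℂ (F z) G' + (starRingEnd ℂ) v * inner ℂ F' (G z) := by
  rw [(hasFDerivAt_inner_holo hF hG).fderiv]
  simp [fderivInnerCLM_apply, inner_smul_left, inner_smul_right]

/-- The gradient of the square of the norm. -/
theorem gr_sqnorm {F : ℂ → V} {F' : V} {z : ℂ} (hF : HasDerivAt F F' z) :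
    gr (fun w => ‖F w‖ ^ 2) z = 2 * (starRingEnd ℂ) (inner ℂ (F z) F') := by
  have e : (fun w => ‖F w‖ ^ 2) = fun w => (inner ℂ (F w) (F w)).re := by
    funext w
    rw [← inner_self_eq_norm_sq (𝕜 := ℂ)]; rfl
  have h : HasFDerivAt (fun w => (inner ℂ (F w) (F w)).re)
      (Complex.reCLM.comp (fderiv ℝ (fun w => inner ℂ (F w) (F w)) z)) z :=
    Complex.reCLM.hasFDerivAt.comp z
      (hasFDerivAt_inner_holo hF hF).differentiableAt.hasFDerivAt
  rw [e, h.gr, grL_apply]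
  simp only [ContinuousLinearMap.coe_comp, Function.comp_apply]
  rw [fderiv_inner_holo hF hF, fderiv_inner_holo hF hF]
  have hs : inner ℂ F' (F z) = (starRingEnd ℂ) (inner ℂ (F z) F') := (inner_conj_symm _ _).symm
  rw [hs]
  generalize inner ℂ (F z) F' = c
  apply Complex.ext
  · simp; ring
  · simp; ring

theorem differentiableAt_sqnorm {F : ℂ → V} {F' : V} {z : ℂ} (hF : HasDerivAt F F' z) :
    DifferentiableAt ℝ (fun w => ‖F w‖ ^ 2) z := by
  have e : (fun w => ‖F w‖ ^ 2) = fun w => (inner ℂ (F w) (F w)).re := by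
    funext w
    rw [← inner_self_eq_norm_sq (𝕜 := ℂ)]; rfl
  rw [e]
  exact (Complex.reCLM.hasFDerivAt.comp z
      (hasFDerivAt_inner_holo hF hF).differentiableAt.hasFDerivAt).differentiableAt

theorem contDiffAt_sqnorm {F : ℂ → V} {z : ℂ} [CompleteSpace V] (hF : AnalyticAt ℂ F z)
    {n : WithTop ℕ∞} : ContDiffAt ℝ n (fun w => ‖F w‖ ^ 2) z :=
  ((hF.contDiffAt (n := n)).restrict_scalars ℝ).norm_sq ℂ

theorem contDiffAt_log_norm {F : ℂ → V} {z : ℂ} [CompleteSpace V] (hF : AnalyticAt ℂ F z)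
    (h0 : F z ≠ 0) {n : WithTop ℕ∞} : ContDiffAt ℝ n (fun w => Real.log ‖F w‖) z := by
  have h1 : ContDiffAt ℝ n (fun w => Real.log (‖F w‖ ^ 2) / 2) z :=
    ((contDiffAt_sqnorm hF).log (by simpa using h0)).div_const 2
  refine h1.congr_of_eventuallyEq ?_
  filter_upwards with w
  rw [Real.log_pow]; push_cast; ring

/-- The Laplacian of the square of the norm. -/
theorem lp_sqnorm {F : ℂ → V} {z : ℂ} [CompleteSpace V] (hF : AnalyticAt ℂ F z) :
    lp (fun w => ‖F w‖ ^ 2) z = 4 * ‖deriv F z‖ ^ 2 := by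
  have hd : AnalyticAt ℂ (deriv F) z := hF.deriv
  have h1 : HasDerivAt F (deriv F z) z := hF.differentiableAt.hasDerivAt
  have h2 : HasDerivAt (deriv F) (deriv (deriv F) z) z := hd.differentiableAt.hasDerivAt
  have e : gr (fun w => ‖F w‖ ^ 2) =ᶠ[𝓝 z]
      fun w => 2 * (starRingEnd ℂ) (inner ℂ (F w) (deriv F w)) := by
    filter_upwards [hF.eventually_analyticAt] with w hw
    exact gr_sqnorm hw.differentiableAt.hasDerivAt
  have h3 := (hasFDerivAt_inner_holo h1 h2).differentiableAt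
  have h4 : HasFDerivAt (fun w => 2 * (starRingEnd ℂ) (inner ℂ (F w) (deriv F w)))
      ((2 : ℂ) • ((Complex.conjCLE : ℂ →L[ℝ] ℂ).comp
        (fderiv ℝ (fun w => inner ℂ (F w) (deriv F w)) z))) z := by
    have h5 : HasFDerivAt (fun w => (starRingEnd ℂ) (inner ℂ (F w) (deriv F w)))
        ((Complex.conjCLE : ℂ →L[ℝ] ℂ).comp
        (fderiv ℝ (fun w => inner ℂ (F w) (deriv F w)) z)) z :=
      (Complex.conjCLE : ℂ →L[ℝ] ℂ).hasFDerivAt.comp z h3.hasFDerivAt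
    exact h5.const_mul 2
  unfold lp
  rw [dv_congr e]
  unfold dv
  rw [h4.fderiv]
  simp only [FunLike.coe_smul, Pi.smul_apply, ContinuousLinearMap.coe_comp,
    Function.comp_apply, ContinuousLinearEquiv.coe_coe, Complex.conjCLE_apply]
  rw [fderiv_inner_holo h1 h2, fderiv_inner_holo h1 h2]
  have hn : inner ℂ (deriv F z) (deriv F z) = ((‖deriv F z‖ ^ 2 : ℝ) : ℂ) := by
    rw [inner_self_eq_norm_sq_to_K]; simp
  rw [hn]
  generalize ‖deriv F z‖ ^ 2 = t
  generalize inner ℂ (F z) (deriv (deriv F) z) = c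
  simp only [smul_eq_mul, Complex.mul_re, Complex.mul_im, Complex.conj_re, Complex.conj_im,
    Complex.add_re, Complex.add_im, Complex.ofReal_re, Complex.ofReal_im, Complex.one_re,
    Complex.one_im, Complex.I_re, Complex.I_im, map_one]
  norm_num
  ring

/-- The gradient of `log ‖F‖`. -/
theorem gr_log_normV {F : ℂ → V} {F' : V} {z : ℂ} (hF : HasDerivAt F F' z) (h0 : F z ≠ 0) :
    gr (fun w => Real.log ‖F w‖) z =
      (((‖F z‖ ^ 2)⁻¹ : ℝ) : ℂ) * (starRingEnd ℂ) (inner ℂ (F z) F') := by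
  have hp : 0 < ‖F z‖ ^ 2 := by have := norm_pos_iff.2 h0; positivity
  have hK : HasDerivAt (fun t : ℝ => Real.log t / 2) ((‖F z‖ ^ 2)⁻¹ / 2) (‖F z‖ ^ 2) :=
    (Real.hasDerivAt_log hp.ne').div_const 2
  have hd : DifferentiableAt ℝ (fun w => ‖F w‖ ^ 2) z := differentiableAt_sqnorm hF
  have h := gr_comp hK hd
  have e : (fun w => Real.log ‖F w‖) = fun w => Real.log (‖F w‖ ^ 2) / 2 := by
    funext w
    rw [Real.log_pow]; push_cast; ring
  rw [e, h, gr_sqnorm hF]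
  push_cast
  ring

/-- The Fubini-Study density of `F` with derivative `F'`. -/
noncomputable def fsd (x v : V) : ℝ :=
  2 * (‖x‖ ^ 2 * ‖v‖ ^ 2 - ‖inner ℂ x v‖ ^ 2) / ‖x‖ ^ 4

theorem fsd_nonneg (x v : V) : 0 ≤ fsd x v := by
  unfold fsd
  apply div_nonneg _ (by positivity)
  have h := norm_inner_le_norm (𝕜 := ℂ) x v
  have h2 : ‖inner ℂ x v‖ ^ 2 ≤ (‖x‖ * ‖v‖) ^ 2 := pow_le_pow_left₀ (norm_nonneg _) h 2
  nlinarith

/-- **The Laplacian of `log ‖F‖`.** -/
theorem lap_log_normV {F : ℂ → V} {z : ℂ} [CompleteSpace V] (hF : AnalyticAt ℂ F z)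
    (h0 : F z ≠ 0) : Δ (fun w => Real.log ‖F w‖) z = fsd (F z) (deriv F z) := by
  have hn : 0 < ‖F z‖ := norm_pos_iff.2 h0
  have hp : 0 < ‖F z‖ ^ 2 := by positivity
  have hF' : HasDerivAt F (deriv F z) z := hF.differentiableAt.hasDerivAt
  have e : (fun w => Real.log ‖F w‖) = fun w => (fun t => Real.log t / 2) (‖F w‖ ^ 2) := by
    funext w
    simp only
    rw [Real.log_pow]; push_cast; ring
  have hu : ContDiffAt ℝ 2 (fun w => ‖F w‖ ^ 2) z := contDiffAt_sqnorm hF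
  have hφ : ContDiffAt ℝ 2 (fun t : ℝ => Real.log t / 2) (‖F z‖ ^ 2) :=
    (Real.contDiffAt_log.2 hp.ne').div_const 2
  have d1 : deriv (fun t : ℝ => Real.log t / 2) = fun t => t⁻¹ / 2 := by
    funext t
    rw [deriv_div_const, Real.deriv_log]
  have d2 : deriv (deriv (fun t : ℝ => Real.log t / 2)) (‖F z‖ ^ 2) =
      - ((‖F z‖ ^ 2) ^ 2)⁻¹ / 2 := by
    rw [d1, deriv_div_const, deriv_inv]
  rw [e, Pool.Agent.H30M.lap_comp hφ hu, d2, d1, ← lp_eq_lap hu, lp_sqnorm hF, gg_self,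
    gr_sqnorm hF', norm_mul, RCLike.norm_conj]
  unfold fsd
  simp only [Complex.norm_ofNat]
  field_simp
  ring

theorem lap_log_normV_nonneg {F : ℂ → V} {z : ℂ} [CompleteSpace V] (hF : AnalyticAt ℂ F z)
    (h0 : F z ≠ 0) : 0 ≤ Δ (fun w => Real.log ‖F w‖) z := by
  rw [lap_log_normV hF h0]; exact fsd_nonneg _ _

/-- The density does not change under `F ↦ g F`. -/
theorem fsd_smul (x v : V) (a c : ℂ) (ha : a ≠ 0) : fsd (a • x) (a • v + c • x) = fsd x v := by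
  have ha' : 0 < ‖a‖ := norm_pos_iff.2 ha
  by_cases hx : x = 0
  · simp [fsd, hx]
  have hx' : 0 < ‖x‖ := norm_pos_iff.2 hx
  -- the Gram determinant
  have key : ‖a • x‖ ^ 2 * ‖a • v + c • x‖ ^ 2 - ‖inner ℂ (a • x) (a • v + c • x)‖ ^ 2 =
      ‖a‖ ^ 4 * (‖x‖ ^ 2 * ‖v‖ ^ 2 - ‖inner ℂ x v‖ ^ 2) := by
    have e1 : ‖a • v + c • x‖ ^ 2 = ‖a‖ ^ 2 * ‖v‖ ^ 2 + ‖c‖ ^ 2 * ‖x‖ ^ 2 +
        2 * ((starRingEnd ℂ) a * c * inner ℂ v x).re := by
      rw [norm_add_sq (𝕜 := ℂ), norm_smul, norm_smul, inner_smul_left, inner_smul_right]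
      simp only [RCLike.re_to_complex]
      ring_nf
    have e2 : inner ℂ (a • x) (a • v + c • x) =
        (starRingEnd ℂ) a * (a * inner ℂ x v + c * ((‖x‖ ^ 2 : ℝ) : ℂ)) := by
      rw [inner_add_right, inner_smul_left, inner_smul_left, inner_smul_right, inner_smul_right,
        inner_self_eq_norm_sq_to_K]
      simp only [Complex.coe_algebraMap, Complex.ofReal_pow]
      ring
    rw [e1, e2, norm_smul, norm_mul, RCLike.norm_conj, mul_pow, mul_pow]
    have e3 : inner ℂ v x = (starRingEnd ℂ) (inner ℂ x v) := (inner_conj_symm _ _).symm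
    rw [e3]
    generalize inner ℂ x v = y
    generalize ‖x‖ ^ 2 = s
    generalize ‖v‖ ^ 2 = t
    have n1 : ‖a * y + c * (s : ℂ)‖ ^ 2 = Complex.normSq (a * y + c * (s : ℂ)) :=
      Complex.sq_norm _
    rw [n1]
    have n2 : ‖a‖ ^ 4 = (‖a‖ ^ 2) ^ 2 := by ring
    rw [n2, Complex.sq_norm, Complex.sq_norm, Complex.sq_norm]
    simp only [Complex.normSq_apply, Complex.add_re, Complex.add_im, Complex.mul_re,
      Complex.mul_im, Complex.conj_re, Complex.conj_im, Complex.ofReal_re, Complex.ofReal_im]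
    ring
  unfold fsd
  rw [key, norm_smul]
  field_simp

end

end Pool.Agent.MQ

end

section

/-!
# MQ3 Cut: the setting of the energy estimates, the cut-off, the basic inequality
-/

set_option autoImplicit false

open MeasureTheory Topology Filter Metric Laplacian

noncomputable section

namespace Pool.Agent.MQ3

open Pool.Agent.MQ
open Pool.Agent.H30M (gg lap_comp lap_mul lap_congr gg_congr gg_sq_le gg_self_nonneg gg_comm gg_comp)

/-- the coordinates of a curve in a box -/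
structure Crd (U : Set ℂ) (x y : ℂ → ℂ) : Prop where
  isOpen : IsOpen U
  hx : DifferentiableOn ℂ x U
  hy : DifferentiableOn ℂ y U
  closed : ∀ r : ℝ, r < 1 → IsClosed {z | z ∈ U ∧ ‖x z‖ ≤ r ∧ ‖y z‖ ≤ r}

variable {U : Set ℂ} {x y : ℂ → ℂ} {l : ℂ → ℝ}

theorem Crd.ax (h : Crd U x y) {z : ℂ} (hz : z ∈ U) : AnalyticAt ℂ x z := h.hx.analyticAt (h.isOpen.mem_nhds hz)

theorem Crd.ay (h : Crd U x y) {z : ℂ} (hz : z ∈ U) : AnalyticAt ℂ y z := h.hy.analyticAt (h.isOpen.mem_nhds hz)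

theorem Crd.symm (h : Crd U x y) : Crd U y x := by
  refine ⟨h.isOpen, h.hy, h.hx, fun r hr => ?_⟩
  have := h.closed r hr
  convert this using 1
  ext z
  constructor
  · rintro ⟨h1, h2, h3⟩
    exact ⟨h1, h3, h2⟩
  · rintro ⟨h1, h2, h3⟩
    exact ⟨h1, h3, h2⟩

/-! ## the square of the modulus -/

theorem cd_sq {x : ℂ → ℂ} {z : ℂ} (hx : AnalyticAt ℂ x z) : ContDiffAt ℝ 2 (fun w => ‖x w‖ ^ 2) z := contDiffAt_sqnorm hx

theorem lap_sq {x : ℂ → ℂ} {z : ℂ} (hx : AnalyticAt ℂ x z) : Δ (fun w => ‖x w‖ ^ 2) z = 4 * ‖deriv x z‖ ^ 2 := by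
  rw [← lp_eq_lap (cd_sq hx), lp_sqnorm hx]

theorem gg_sq {x : ℂ → ℂ} {z : ℂ} (hx : AnalyticAt ℂ x z) :
    gg (fun w => ‖x w‖ ^ 2) (fun w => ‖x w‖ ^ 2) z = 4 * ‖x z‖ ^ 2 * ‖deriv x z‖ ^ 2 := by
  rw [gg_self, gr_sqnorm hx.differentiableAt.hasDerivAt, norm_mul, RCLike.norm_conj, Complex.norm_ofNat]
  have : ‖inner ℂ (x z) (deriv x z)‖ = ‖x z‖ * ‖deriv x z‖ := by
    rw [RCLike.inner_apply, norm_mul, RCLike.norm_conj, mul_comm]
  rw [this]
  ring

/-! ## the cut-off -/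

/-- a smooth function, `1` for `t ≤ a`, `0` for `b ≤ t` -/
def et (a b t : ℝ) : ℝ := Real.smoothTransition ((b - t) / (b - a))

theorem et_nonneg (a b t : ℝ) : 0 ≤ et a b t := Real.smoothTransition.nonneg _

theorem et_le_one (a b t : ℝ) : et a b t ≤ 1 := Real.smoothTransition.le_one _

theorem et_one {a b t : ℝ} (hab : a < b) (ht : t ≤ a) : et a b t = 1 :=
  Real.smoothTransition.one_of_one_le (by rw [one_le_div (by linarith)]; linarith)

theorem et_zero {a b t : ℝ} (hab : a < b) (ht : b ≤ t) : et a b t = 0 :=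
  Real.smoothTransition.zero_of_nonpos (div_nonpos_of_nonpos_of_nonneg (by linarith) (by linarith))

theorem et_cd (a b : ℝ) : ContDiff ℝ 2 (et a b) :=
  Real.smoothTransition.contDiff.comp ((contDiff_const.sub contDiff_id).div_const _)

theorem et_bd (a b : ℝ) : ∃ C : ℝ, 0 ≤ C ∧ ∀ t, 0 ≤ t → t ≤ 1 → |deriv (et a b) t| ≤ C ∧ |deriv (deriv (et a b)) t| ≤ C := by
  have h1 : ContDiff ℝ 1 (deriv (et a b)) := by
    have := (et_cd a b).iterate_deriv' 1 1
    simpa using this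
  have h0 : Continuous (deriv (et a b)) := h1.continuous
  have h2 : Continuous (deriv (deriv (et a b))) := h1.continuous_deriv le_rfl
  obtain ⟨C1, hC1⟩ := (isCompact_Icc (a := (0 : ℝ)) (b := 1)).exists_bound_of_continuousOn h0.continuousOn
  obtain ⟨C2, hC2⟩ := (isCompact_Icc (a := (0 : ℝ)) (b := 1)).exists_bound_of_continuousOn h2.continuousOn
  refine ⟨max 0 (max C1 C2), le_max_left _ _, fun t h0 h1 => ⟨?_, ?_⟩⟩
  · exact (hC1 t ⟨h0, h1⟩).trans ((le_max_left _ _).trans (le_max_right _ _))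
  · exact (hC2 t ⟨h0, h1⟩).trans ((le_max_right _ _).trans (le_max_right _ _))

open Classical in
/-- the cut-off along the curve -/
def cut (U : Set ℂ) (x y : ℂ → ℂ) (a b : ℝ) (z : ℂ) : ℝ := if z ∈ U then et a b (‖x z‖ ^ 2) * et a b (‖y z‖ ^ 2) else 0

/-- the support of the cut-off -/
def Kb (U : Set ℂ) (x y : ℂ → ℂ) (b : ℝ) : Set ℂ := {z | z ∈ U ∧ ‖x z‖ ^ 2 ≤ b ∧ ‖y z‖ ^ 2 ≤ b}

theorem cut_nonneg (a b : ℝ) (z : ℂ) : 0 ≤ cut U x y a b z := by
  unfold cut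
  split_ifs
  · exact mul_nonneg (et_nonneg _ _ _) (et_nonneg _ _ _)
  · exact le_rfl

theorem cut_le_one (a b : ℝ) (z : ℂ) : cut U x y a b z ≤ 1 := by
  unfold cut
  split_ifs
  · exact mul_le_one₀ (et_le_one _ _ _) (et_nonneg _ _ _) (et_le_one _ _ _)
  · exact zero_le_one

theorem closed_Kb (h : Crd U x y) {b : ℝ} (hb0 : 0 ≤ b) (hb : b < 1) : IsClosed (Kb U x y b) := by
  have := h.closed (√b) (by rw [Real.sqrt_lt' one_pos]; simpa using hb)
  convert this using 1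
  ext z
  simp only [Kb, Set.mem_ofPred_eq]
  rw [Real.le_sqrt (norm_nonneg _) hb0, Real.le_sqrt (norm_nonneg _) hb0]

theorem cut_eq_zero {a b : ℝ} (hab : a < b) {z : ℂ} (hz : z ∉ Kb U x y b) : cut U x y a b z = 0 := by
  unfold cut
  split_ifs with h1
  · by_cases h2 : ‖x z‖ ^ 2 ≤ b
    · by_cases h3 : ‖y z‖ ^ 2 ≤ b
      · exact absurd ⟨h1, h2, h3⟩ hz
      · rw [et_zero hab (not_le.1 h3).le, mul_zero]
    · rw [et_zero hab (not_le.1 h2).le, zero_mul]
  · rfl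

theorem cut_ev_zero (h : Crd U x y) {a b : ℝ} (hb0 : 0 ≤ b) (hab : a < b) (hb : b < 1) {z : ℂ} (hz : z ∉ Kb U x y b) :
    cut U x y a b =ᶠ[𝓝 z] fun _ => 0 := by
  filter_upwards [(closed_Kb h hb0 hb).isOpen_compl.mem_nhds hz] with w hw
  exact cut_eq_zero hab hw

theorem cut_ev (h : Crd U x y) {a b : ℝ} {z : ℂ} (hz : z ∈ U) :
    cut U x y a b =ᶠ[𝓝 z] fun w => et a b (‖x w‖ ^ 2) * et a b (‖y w‖ ^ 2) := by
  filter_upwards [h.isOpen.mem_nhds hz] with w hw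
  unfold cut
  rw [if_pos hw]

theorem cut_cd (h : Crd U x y) {a b : ℝ} (hb0 : 0 ≤ b) (hab : a < b) (hb : b < 1) : ContDiff ℝ 2 (cut U x y a b) := by
  rw [contDiff_iff_contDiffAt]
  intro z
  by_cases hz : z ∈ Kb U x y b
  · refine ContDiffAt.congr_of_eventuallyEq ?_ (cut_ev h hz.1)
    exact ((et_cd a b).contDiffAt.comp z (cd_sq (h.ax hz.1))).mul ((et_cd a b).contDiffAt.comp z (cd_sq (h.ay hz.1)))
  · exact contDiffAt_const.congr_of_eventuallyEq (cut_ev_zero h hb0 hab hb hz)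

/-- the inner region, where the cut-off is `1` -/
def Inn (x y : ℂ → ℂ) (a : ℝ) (z : ℂ) : Prop := ‖x z‖ ^ 2 < a ∧ ‖y z‖ ^ 2 < a

theorem cut_ev_one (h : Crd U x y) {a b : ℝ} (hab : a < b) {z : ℂ} (hz : z ∈ U) (hi : Inn x y a z) :
    cut U x y a b =ᶠ[𝓝 z] fun _ => 1 := by
  have h1 := (cd_sq (h.ax hz)).continuousAt.eventually (gt_mem_nhds hi.1)
  have h2 := (cd_sq (h.ay hz)).continuousAt.eventually (gt_mem_nhds hi.2)
  filter_upwards [h.isOpen.mem_nhds hz, h1, h2] with w hw hw1 hw2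
  unfold cut
  rw [if_pos hw, et_one hab hw1.le, et_one hab hw2.le, one_mul]

theorem gg_add_le {u v : ℂ → ℝ} {z : ℂ} (hu : DifferentiableAt ℝ u z) (hv : DifferentiableAt ℝ v z) :
    gg (fun w => u w + v w) (fun w => u w + v w) z ≤ 2 * gg u u z + 2 * gg v v z := by
  unfold gg
  rw [fderiv_fun_add hu hv]
  simp only [add_apply]
  nlinarith [sq_nonneg (fderiv ℝ u z 1 - fderiv ℝ v z 1), sq_nonneg (fderiv ℝ u z Complex.I - fderiv ℝ v z Complex.I)]

theorem abs_mul_le' {p q E Q : ℝ} (hp : |p| ≤ E) (hq : 0 ≤ q) (hQ : q ≤ Q) : |p * q| ≤ E * Q := by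
  rw [abs_mul, abs_of_nonneg hq]
  exact mul_le_mul hp hQ hq ((abs_nonneg _).trans hp)

end Pool.Agent.MQ3

end
end
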