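import Pool.Agent.H43.TL2.M48
import Pool.Agent.H43.TL2.M58
import Pool.Agent.H43.TL2.M59

/-! The parts of this file: MQ.Fub, MQ.Jen, MQ.Charge, MQ.Ax0_1. -/

section

/-!
# MQ Fub (V1): the Fubini-Study density along a holomorphic curve
-/

set_option autoImplicit false

open MeasureTheory Topology Filter Metric Laplacian

noncomputable section

namespace Pool.Agent.MQ

open Pool.Agent.H36.BP (EN)

variable {M : ℕ}

theorem gram_nonneg (x v : EN M) : 0 ≤ ‖x‖ ^ 2 * ‖v‖ ^ 2 - ‖inner ℂ x v‖ ^ 2 := by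
  have h := norm_inner_le_norm (𝕜 := ℂ) x v
  have h2 : ‖inner ℂ x v‖ ^ 2 ≤ (‖x‖ * ‖v‖) ^ 2 := pow_le_pow_left₀ (norm_nonneg _) h 2
  nlinarith

theorem fs_sq_eq (x v : EN M) : 2 * Pool.Agent.H36.BP.fs x v ^ 2 = fsd x v := by
  unfold Pool.Agent.H36.BP.fs Pool.Agent.H36.BP.wd fsd
  rw [div_pow, Real.sq_sqrt (gram_nonneg x v)]
  ring

/-- The length of the derivative squared, by the Gram determinant. -/
theorem lam_sq (F : ℂ → EN M) (z : ℂ) : lam F z ^ 2 =
    (‖F z‖ ^ 2 * ‖deriv F z‖ ^ 2 - ‖inner ℂ (F z) (deriv F z)‖ ^ 2) / ‖F z‖ ^ 4 := by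
  unfold lam Pool.Agent.H36.BP.fs Pool.Agent.H36.BP.wd
  rw [div_pow, Real.sq_sqrt (gram_nonneg _ _)]
  ring

theorem lam_nonneg (F : ℂ → EN M) (z : ℂ) : 0 ≤ lam F z := by
  unfold lam Pool.Agent.H36.BP.fs Pool.Agent.H36.BP.wd
  positivity

/-- V1 -/
theorem lap_log_norm {F : ℂ → EN M} {z : ℂ} (hF : AnalyticAt ℂ F z) (h0 : F z ≠ 0) :
    ContDiffAt ℝ 2 (fun w => Real.log ‖F w‖) z ∧ Δ (fun w => Real.log ‖F w‖) z = 2 * lam F z ^ 2 := by
  refine ⟨contDiffAt_log_norm hF h0, ?_⟩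
  rw [lap_log_normV hF h0]
  exact (fs_sq_eq _ _).symm

/-- V1 -/
theorem continuous_lam {F : ℂ → EN M} (hF : Differentiable ℂ F) (h0 : ∀ z, F z ≠ 0) : Continuous (lam F) := by
  have hd : Continuous (deriv F) := (hF.contDiff (n := 1)).continuous_deriv le_rfl
  have hc : Continuous F := hF.continuous
  unfold lam Pool.Agent.H36.BP.fs Pool.Agent.H36.BP.wd
  apply Continuous.div
  · exact Real.continuous_sqrt.comp (((hc.norm.pow 2).mul (hd.norm.pow 2)).sub
      ((Continuous.inner hc hd).norm.pow 2))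
  · exact hc.norm.pow 2
  · intro z
    have := norm_pos_iff.2 (h0 z)
    positivity

end Pool.Agent.MQ

end
end

section

/-!
# MQ Jen: the number of zeros of a form along the curve
-/

set_option autoImplicit false

open MeasureTheory Topology Filter Metric Laplacian

namespace Pool.Agent.MQ

open Pool.Agent.H30M (tau rhoR avg rho gg uu II HH tau_nonneg HH_nonneg integrable_tau_mul)
open Pool.Agent.H36.BP (EN fs)

variable {N : ℕ}

section

variable {F : ℂ → EN N} (hF : Differentiable ℂ F) (h0 : ∀ z, F z ≠ 0)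

include hF h0

theorem cg_L : ContDiff ℝ 2 fun z => Real.log ‖F z‖ := by
  rw [contDiff_iff_contDiffAt]
  exact fun z => (lap_log_norm (hF.analyticAt z) (h0 z)).1

theorem cg_lap (z : ℂ) : Δ (fun w => Real.log ‖F w‖) z = 2 * lam F z ^ 2 := (lap_log_norm (hF.analyticAt z) (h0 z)).2

theorem cg_lap_nonneg (z : ℂ) : 0 ≤ Δ (fun w => Real.log ‖F w‖) z := by
  rw [cg_lap hF h0]; positivity

theorem cg_II (R : ℝ) : II (fun z => Real.log ‖F z‖) R = 2 * En F R := by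
  unfold II En
  rw [← integral_const_mul]
  refine integral_congr_ae (Eventually.of_forall fun z => ?_)
  simp only [cg_lap hF h0]
  ring

end

theorem En_nonneg (F : ℂ → EN N) {R : ℝ} (hR : 1 ≤ R) : 0 ≤ En F R :=
  integral_nonneg fun z => mul_nonneg (tau_nonneg hR z) (sq_nonneg _)

theorem cg_le {F : ℂ → EN N} (h0 : ∀ z, F z ≠ 0) {g : ℂ → ℂ} {d : ℕ} (hgF : ∀ z, ‖g z‖ ≤ ‖F z‖ ^ d) (z : ℂ) :
    ‖g z‖ ≤ Real.exp ((d : ℝ) * Real.log ‖F z‖) := by
  rw [← Real.log_pow, Real.exp_log (pow_pos (norm_pos_iff.2 (h0 z)) d)]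
  exact hgF z

end Pool.Agent.MQ

end

section

/-!
# MQ Charge: the energy in a level region of a form along the curve
-/

set_option autoImplicit false

open MeasureTheory Topology Filter Metric Laplacian

namespace Pool.Agent.MQ

open Pool.Agent.H30M (tau rhoR avg rho gg uu II HH tau_nonneg HH_nonneg integrable_tau_mul)
open Pool.Agent.H36.BP (EN fs)

variable {N : ℕ}

/-- **Charge** -/
theorem charge {F : ℂ → EN N} (hF : Differentiable ℂ F) (h0 : ∀ z, F z ≠ 0) {g : ℂ → ℂ} (hg : Differentiable ℂ g) {d : ℕ}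
    (hgF : ∀ z, ‖g z‖ ≤ ‖F z‖ ^ d) {n : ℕ} (hn : 1 ≤ n) (b₀ : ℝ) : ∃ C, ∀ R, 1 ≤ R →
      ∫ z, tau R z * {z | g z ≠ 0 ∧ b₀ ≤ lu F g d z ∧ lu F g d z ≤ b₀ + 2 * n}.indicator (fun z => ‖gr (lu F g d) z‖ ^ 2) z ≤
        12 * n * (d * En F R) + C := by
  set L : ℂ → ℝ := fun z => Real.log ‖F z‖ with hL
  have hlu : lu F g d = uu L g d := rfl
  by_cases hg0 : ∃ z, g z ≠ 0
  swap
  · push Not at hg0
    refine ⟨0, fun R hR => ?_⟩
    have he : ∀ z, tau R z * {z | g z ≠ 0 ∧ b₀ ≤ lu F g d z ∧ lu F g d z ≤ b₀ + 2 * n}.indicator (fun z => ‖gr (lu F g d) z‖ ^ 2) z = 0 := by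
      intro z
      rw [Set.indicator_of_notMem (fun h => h.1 (hg0 z)), mul_zero]
    simp only [he, integral_zero]
    have := En_nonneg F hR
    positivity
  refine ⟨10 * Real.pi * n * (1 / 2 + |b₀| + 2 * n), fun R hR => ?_⟩
  have hH : ∀ k : ℕ, Integrable fun z => tau R z * HH L g d (b₀ + 2 * k + 1) z := fun k =>
    integrable_tau_mul hR (Pool.Agent.H30M.continuous_HH (cg_L hF h0) hg _)
  have hi : Integrable fun z => ∑ k ∈ Finset.range n, 5 * (tau R z * HH L g d (b₀ + 2 * k + 1) z) :=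
    integrable_finsetSum _ fun k _ => (hH k).const_mul _
  have h1 : ∫ z, tau R z * {z | g z ≠ 0 ∧ b₀ ≤ lu F g d z ∧ lu F g d z ≤ b₀ + 2 * n}.indicator (fun z => ‖gr (lu F g d) z‖ ^ 2) z ≤
      ∫ z, ∑ k ∈ Finset.range n, 5 * (tau R z * HH L g d (b₀ + 2 * k + 1) z) := by
    refine integral_mono_of_nonneg (Eventually.of_forall fun z => mul_nonneg (tau_nonneg hR z) (Set.indicator_nonneg (fun _ _ => by positivity) z)) hi
      (Eventually.of_forall fun z => ?_)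
    have ht := tau_nonneg hR z
    by_cases hz : z ∈ {z | g z ≠ 0 ∧ b₀ ≤ lu F g d z ∧ lu F g d z ≤ b₀ + 2 * n}
    · simp only [Set.indicator_of_mem hz]
      obtain ⟨hz0, hz1, hz2⟩ := hz
      rw [hlu] at hz1 hz2 ⊢
      obtain ⟨k, hk, hk1, hk2⟩ : ∃ k < n, b₀ + 2 * (k : ℝ) ≤ uu L g d z ∧ uu L g d z ≤ b₀ + 2 * k + 2 := by
        have hf1 : ((⌊(uu L g d z - b₀) / 2⌋₊ : ℕ) : ℝ) ≤ (uu L g d z - b₀) / 2 := Nat.floor_le (by linarith)
        have hf2 : (uu L g d z - b₀) / 2 < (⌊(uu L g d z - b₀) / 2⌋₊ : ℕ) + 1 := Nat.lt_floor_add_one _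
        by_cases hlt : ⌊(uu L g d z - b₀) / 2⌋₊ < n
        · exact ⟨_, hlt, by linarith, by linarith⟩
        · refine ⟨n - 1, by omega, ?_, ?_⟩
          · have h3 : (n : ℝ) ≤ (⌊(uu L g d z - b₀) / 2⌋₊ : ℕ) := by exact_mod_cast not_lt.1 hlt
            have h4 : ((n - 1 : ℕ) : ℝ) ≤ n := by exact_mod_cast Nat.sub_le n 1
            linarith
          · have h4 : ((n - 1 : ℕ) : ℝ) = n - 1 := by push_cast [hn]; ring
            rw [h4]; linarith
      have h2 := Pool.Agent.H30M.le_HH (L := L) (d := (d : ℝ)) (b := b₀ + 2 * k + 1) (cg_L hF h0) hg hz0 (by linarith) (by linarith)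
      refine le_trans ?_ (Finset.single_le_sum (f := fun k : ℕ => 5 * (tau R z * HH L g d (b₀ + 2 * k + 1) z))
        (fun j _ => mul_nonneg (by norm_num) (mul_nonneg ht (HH_nonneg _ _ _ _ _))) (Finset.mem_range.2 hk))
      have h3 : ‖gr (uu L g d) z‖ ^ 2 = gg (uu L g d) (uu L g d) z := by
        rw [← ip_self]; rfl
      rw [h3]
      have h4 : gg (uu L g d) (uu L g d) z ≤ 5 * HH L g d (b₀ + 2 * k + 1) z := by linarith
      calc tau R z * gg (uu L g d) (uu L g d) z ≤ tau R z * (5 * HH L g d (b₀ + 2 * k + 1) z) := mul_le_mul_of_nonneg_left h4 ht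
        _ = _ := by ring
    · simp only [Set.indicator_of_notMem hz, mul_zero]
      exact Finset.sum_nonneg fun k _ => mul_nonneg (by norm_num) (mul_nonneg ht (HH_nonneg _ _ _ _ _))
  refine h1.trans ?_
  rw [integral_finsetSum _ fun k _ => (hH k).const_mul _]
  have h2 : ∀ k ∈ Finset.range n, ∫ z, 5 * (tau R z * HH L g d (b₀ + 2 * k + 1) z)
      ≤ 5 * (d * (2 * En F R) + 2 * Real.pi * (1 / 2 + |b₀| + 2 * n)) := by
    intro k hk
    have hkm : (k : ℝ) + 1 ≤ n := by exact_mod_cast Finset.mem_range.1 hk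
    have hk0 : (0 : ℝ) ≤ k := k.cast_nonneg
    rw [integral_const_mul]
    have h5 := Pool.Agent.H30M.key (cg_L hF h0) (cg_lap_nonneg hF h0) hg hg0 (by positivity : (0 : ℝ) ≤ d) (cg_le h0 hgF) (b₀ + 2 * k + 1) hR
    rw [cg_II hF h0] at h5
    refine mul_le_mul_of_nonneg_left (h5.trans ?_) (by norm_num)
    have h3 := Pool.Agent.H30M.ky_const (b₀ + 2 * k + 1)
    have h4 : |b₀ + 2 * k + 1| ≤ |b₀| + (2 * k + 1) := by
      rw [add_assoc]
      refine (abs_add_le _ _).trans ?_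
      rw [abs_of_nonneg (by positivity : (0 : ℝ) ≤ 2 * k + 1)]
    have h5 : Real.log (1 + Real.exp (2 * (b₀ + 2 * k + 1))) / 2 - (b₀ + 2 * k + 1) ≤ 1 / 2 + |b₀| + 2 * n := by linarith
    have := Real.pi_pos
    nlinarith
  refine (Finset.sum_le_sum h2).trans ?_
  rw [Finset.sum_const, Finset.card_range, nsmul_eq_mul]
  have hE := En_nonneg F hR
  have h6 : (0 : ℝ) ≤ n * (d * En F R) := by positivity
  nlinarith

end Pool.Agent.MQ

end

section

/-!
# MQ Ax0: the cut-off of one axis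

The cut-off is `χ = Real.smoothTransition (2 - 2 |x| / η) Real.smoothTransition (2 - 2 |y| / r₀)`.  The field `(1 - χ) conj a` has the divergence `- ∇χ ⬝ conj a`.  The derivative of
the first factor has the good sign, the derivative of the second factor is supported in `|x| ≤ η`, `r₀ / 2 ≤ |y| ≤ r₀`, where `|a| ≤ K |b|` and `|b|` is
bounded by the gradient of `log |g| - d log |F|`.
-/

set_option autoImplicit false

open MeasureTheory Topology Filter Metric Laplacian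

noncomputable section

namespace Pool.Agent.MQ.AxisA

open Pool.Agent.H30M (tau tau_nonneg contDiff_tau hcs_tau deriv_st_eq_zero deriv_st_nonneg)
open Pool.Agent.H36.BP (EN fs)
open Pool.Agent.MQ

/-! ### the cut-off of an axis -/

variable {U : Set ℂ} {x y a b : ℂ → ℂ} {K rho : ℝ} {g : ℂ → ℂ}

/-! ### the field `(1 - χ) conj a` -/

/-! ### the charge -/

variable {N : ℕ} {F : ℂ → EN N}

/-- the integrand of `charge` is integrable -/
theorem integrable_charge (hF : Differentiable ℂ F) (h0 : ∀ z, F z ≠ 0) (hg : Differentiable ℂ g) (d n : ℕ) (b₀ : ℝ) {R : ℝ} (hR : 1 ≤ R) :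
    Integrable fun z => tau R z * {z | g z ≠ 0 ∧ b₀ ≤ lu F g d z ∧ lu F g d z ≤ b₀ + 2 * n}.indicator (fun z => ‖gr (lu F g d) z‖ ^ 2) z := by
  set E : Set ℂ := {z | g z ≠ 0 ∧ b₀ ≤ lu F g d z ∧ lu F g d z ≤ b₀ + 2 * n} with hE
  have hpos : ∀ z, 0 < ‖F z‖ ^ d := fun z => pow_pos (norm_pos_iff.2 (h0 z)) d
  have hexp : ∀ (c : ℝ) (z : ℂ), Real.exp c * ‖F z‖ ^ d = Real.exp (c + d * Real.log ‖F z‖) := by
    intro c z
    rw [Real.exp_add, ← Real.log_pow, Real.exp_log (hpos z)]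
  have hEeq : E = {z | Real.exp b₀ * ‖F z‖ ^ d ≤ ‖g z‖} ∩ {z | ‖g z‖ ≤ Real.exp (b₀ + 2 * n) * ‖F z‖ ^ d} := by
    ext z
    constructor
    · rintro ⟨h1, h2, h3⟩
      have hgp : 0 < ‖g z‖ := norm_pos_iff.2 h1
      unfold lu at h2 h3
      constructor
      · show Real.exp b₀ * ‖F z‖ ^ d ≤ ‖g z‖
        rw [hexp, ← Real.le_log_iff_exp_le hgp]
        linarith
      · show ‖g z‖ ≤ Real.exp (b₀ + 2 * n) * ‖F z‖ ^ d
        rw [hexp, ← Real.log_le_iff_le_exp hgp]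
        linarith
    · rintro ⟨h1, h2⟩
      have h1' : Real.exp b₀ * ‖F z‖ ^ d ≤ ‖g z‖ := h1
      have h2' : ‖g z‖ ≤ Real.exp (b₀ + 2 * n) * ‖F z‖ ^ d := h2
      have hgp : 0 < ‖g z‖ := lt_of_lt_of_le (mul_pos (Real.exp_pos _) (hpos z)) h1'
      rw [hexp, ← Real.le_log_iff_exp_le hgp] at h1'
      rw [hexp, ← Real.log_le_iff_le_exp hgp] at h2'
      refine ⟨norm_pos_iff.1 hgp, ?_, ?_⟩
      · unfold lu
        linarith
      · unfold lu
        linarith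
  have hFc : Continuous fun z => ‖F z‖ := hF.continuous.norm
  have hEc : IsClosed E := by
    rw [hEeq]
    exact (isClosed_le (by fun_prop) hg.continuous.norm).inter (isClosed_le hg.continuous.norm (by fun_prop))
  have hcont : ContinuousOn (fun z => tau R z * ‖gr (lu F g d) z‖ ^ 2) E := by
    intro z hz
    have h1 : ContDiffAt ℝ 1 (lu F g d) z := by
      have h2 : ContDiffAt ℝ 1 (fun z => Real.log ‖g z‖) z :=
        (Pool.Agent.H30M.contDiffAt_log_norm (hg.analyticAt z) hz.1).of_le (by norm_num)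
      have h3 : ContDiffAt ℝ 1 (fun z => Real.log ‖F z‖) z := (cg_L hF h0).contDiffAt.of_le (by norm_num)
      exact h2.sub (contDiffAt_const.mul h3)
    exact ((contDiff_tau R).continuous.continuousAt.mul ((continuousAt_gr h1).norm.pow 2)).continuousWithinAt
  have hK : IsCompact (E ∩ closedBall (0 : ℂ) (Real.exp 1 * R)) := (isCompact_closedBall _ _).inter_left hEc
  have hI : IntegrableOn (fun z => tau R z * ‖gr (lu F g d) z‖ ^ 2) (E ∩ closedBall (0 : ℂ) (Real.exp 1 * R)) :=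
    (hcont.mono Set.inter_subset_left).integrableOn_compact hK
  have hI2 := (integrable_indicator_iff hK.measurableSet).2 hI
  refine hI2.congr (Eventually.of_forall fun z => ?_)
  by_cases hz : z ∈ E
  · by_cases hz2 : z ∈ closedBall (0 : ℂ) (Real.exp 1 * R)
    · simp only [Set.indicator_of_mem (show z ∈ E ∩ closedBall (0 : ℂ) (Real.exp 1 * R) from ⟨hz, hz2⟩), Set.indicator_of_mem hz]
    · have h1 : tau R z = 0 := Pool.Agent.H30M.tau_eq_zero hR (by
        rw [mem_closedBall, dist_zero_right, not_le] at hz2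
        exact hz2.le)
      simp only [Set.indicator_of_notMem (show z ∉ E ∩ closedBall (0 : ℂ) (Real.exp 1 * R) from fun h => hz2 h.2), h1, zero_mul]
  · simp only [Set.indicator_of_notMem (show z ∉ E ∩ closedBall (0 : ℂ) (Real.exp 1 * R) from fun h => hz h.1), Set.indicator_of_notMem hz, mul_zero]

/-- **The integral of `τ ∇χ ⬝ conj a`.** -/
theorem ax_int {M : ℝ} (hM0 : 0 < M) (hM : ∀ t, deriv Real.smoothTransition t ≤ M) (hF : Differentiable ℂ F) (h0 : ∀ z, F z ≠ 0) (hg : Differentiable ℂ g) {d : ℕ}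
    (hgF : ∀ z, ‖g z‖ ≤ ‖F z‖ ^ d) (hK : 0 ≤ K) (h : Axis0 U x y a b K rho) {n : ℕ} (hn : 1 ≤ n) {r₀ η b₀ : ℝ} (hη0 : 0 < η) (hη : η ≤ r₀)
    (hr : r₀ < rho) (hreg : ∀ z ∈ U, ‖x z‖ ≤ η → r₀ / 2 ≤ ‖y z‖ → ‖y z‖ ≤ r₀ → g z ≠ 0 ∧ b₀ ≤ lu F g d z ∧ lu F g d z ≤ b₀ + 2 * n ∧
      (n / 2) * ‖b z‖ ≤ ‖gr (lu F g d) z‖) :
    ∃ C, ∀ R, 1 ≤ R → ∫ z, tau R z * max 0 (ip (gr (chi U x y η r₀) z) ((starRingEnd ℂ) (a z))) ≤ 96 * M * K * (d / n) * En F R + C := by
  obtain ⟨C, hC⟩ := charge hF h0 hg hgF hn b₀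
  have hr0 : 0 < r₀ := lt_of_lt_of_le hη0 hη
  have hn0 : (0 : ℝ) < n := by exact_mod_cast hn
  refine ⟨8 * M * K / n ^ 2 * C, fun R hR => ?_⟩
  have hcont := continuous_ip_chi h hη0 hη hr
  have hint : Integrable fun z => tau R z * max 0 (ip (gr (chi U x y η r₀) z) ((starRingEnd ℂ) (a z))) :=
    Pool.Agent.H30M.integrable_tau_mul hR (continuous_const.max hcont)
  have hint2 := (integrable_charge hF h0 hg d n b₀ hR).const_mul (8 * M * K / n ^ 2)
  have h1 : ∫ z, tau R z * max 0 (ip (gr (chi U x y η r₀) z) ((starRingEnd ℂ) (a z))) ≤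
      ∫ z, 8 * M * K / n ^ 2 * (tau R z * {z | g z ≠ 0 ∧ b₀ ≤ lu F g d z ∧ lu F g d z ≤ b₀ + 2 * n}.indicator (fun z => ‖gr (lu F g d) z‖ ^ 2) z) := by
    refine integral_mono hint hint2 fun z => ?_
    simp only
    have ht := tau_nonneg hR z
    have hE0 : 0 ≤ {z | g z ≠ 0 ∧ b₀ ≤ lu F g d z ∧ lu F g d z ≤ b₀ + 2 * n}.indicator (fun z => ‖gr (lu F g d) z‖ ^ 2) z :=
      Set.indicator_nonneg (fun _ _ => by positivity) z
    have hc0 : 0 ≤ 8 * M * K / (n : ℝ) ^ 2 := by positivity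
    have h2 : max 0 (ip (gr (chi U x y η r₀) z) ((starRingEnd ℂ) (a z))) ≤
        8 * M * K / n ^ 2 * {z | g z ≠ 0 ∧ b₀ ≤ lu F g d z ∧ lu F g d z ≤ b₀ + 2 * n}.indicator (fun z => ‖gr (lu F g d) z‖ ^ 2) z := by
      by_cases hz : z ∈ U
      · rcases ip_gr_chi_le h hK hM0 hM hη0 hr0 hz with h3 | ⟨h3, h4, h5, h6⟩
        · rw [max_eq_left h3]
          positivity
        · obtain ⟨g1, g2, g3, g4⟩ := hreg z hz h3 h4 h5
          rw [Set.indicator_of_mem (show z ∈ {z | g z ≠ 0 ∧ b₀ ≤ lu F g d z ∧ lu F g d z ≤ b₀ + 2 * n} from ⟨g1, g2, g3⟩)]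
          refine max_le (by positivity) (h6.trans ?_)
          have g5 : ((n : ℝ) / 2 * ‖b z‖) ^ 2 ≤ ‖gr (lu F g d) z‖ ^ 2 := pow_le_pow_left₀ (by positivity) g4 2
          have g6 : 8 * M * K / (n : ℝ) ^ 2 * ((n : ℝ) / 2 * ‖b z‖) ^ 2 = 2 * M * K * ‖b z‖ ^ 2 := by
            field_simp
            ring
          rw [← g6]
          exact mul_le_mul_of_nonneg_left g5 hc0
      · rw [gr_chi_zero h hη0 hη hr (fun h3 => hz h3.1), ip_zero_left, max_self]
        positivity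
    calc tau R z * max 0 (ip (gr (chi U x y η r₀) z) ((starRingEnd ℂ) (a z))) ≤ tau R z * (8 * M * K / n ^ 2 *
          {z | g z ≠ 0 ∧ b₀ ≤ lu F g d z ∧ lu F g d z ≤ b₀ + 2 * n}.indicator (fun z => ‖gr (lu F g d) z‖ ^ 2) z) := mul_le_mul_of_nonneg_left h2 ht
      _ = _ := by ring
  refine h1.trans ?_
  rw [integral_const_mul]
  have h2 := mul_le_mul_of_nonneg_left (hC R hR) (show 0 ≤ 8 * M * K / (n : ℝ) ^ 2 by positivity)
  refine h2.trans (le_of_eq ?_)
  field_simp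
  ring

end Pool.Agent.MQ.AxisA

end
end
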