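import Pool.Agent.H43.TL2.H68.KR.D2
import Pool.Agent.H43.TL2.M01

/-! The parts of this file: H68.KR.T2, H68.KR.HD, H36.BPL.GPa. -/

section

/-!
# KR T2: the Taylor series of a function of two variables

`t2 f ∈ ℂ⟦X⟧⟦T⟧`: the coefficient of `T^n` is `1/n!` times the Taylor series in `x` of `(∂/∂y)^n f (x, 0)`.

Proofs.
* `t2_congr`: `iterate_dy_congr` along `x ↦ (x, 0)` and `t1_congr`.
* `t2_add`, `t2_mul`: for all `n` and all `f, g` analytic at `0`:
  `coeff n (t2 (f g)) = coeff n (t2 f * t2 g)` by induction on `n`.  `n = 0`: `coeff 0` is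
  `t1 (fun x => f (x, 0))` (`Nat.factorial 0 = 1`), so `t1_mul`.  Step: `(n + 1) coeff (n + 1) F = coeff n F'`, and by
  `t2_dy`, `t2_add`, `t2_congr`, `dy_mul` and the induction hypothesis `(t2 (f g))' = t2 (dy f g + f dy g)` has the same
  `n`-th coefficient as `(t2 f t2 g)'`.  `t2_add`: the same or directly.
* `t2_dy`: `coeff n (F') = (n + 1) coeff (n + 1) F` (`PowerSeries.coeff_derivative`), `dy^[n + 1] f = dy^[n] (dy f)`
  (`Function.iterate_succ_apply`), `(n + 1) / (n + 1)! = 1 / n!`.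
* `t2_dx`: `dx_iterate_dy_comm` and `t1_deriv`, `deriv_slice_x` (at the points `(x, 0)`, `x` near `0`:
  `deriv (fun x => g (x, 0)) x = dx g (x, 0)` with `g = dy^[n] f`).
* `t2_of_fst`: `dy (fun u => f u.1) = 0` near `0`.  `t2_snd`: `dy (fun u => u.2) = 1`, `dy (1) = 0`.
* `t2_eq_zero_iff` (`→`): let `f` be analytic at all points of the polydisc `|x| < r, |y| < r`
  (`AnalyticAt.eventually_analyticAt`, `Metric.nhds_basis_ball`, the sup norm of `ℂ × ℂ`).  By `t1_eq_zero_iff`
  `dy^[n] f (x, 0) = 0` for `x` near `0`, hence for all `|x| < r` (identity theorem in the connected ball,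
  `AnalyticOnNhd.eqOn_zero_of_preconnected_of_eventuallyEq_zero`).  By `iterate_dy_slice` all derivatives of
  `y ↦ f (x, y)` vanish at `0`, hence it vanishes near `0` (e.g. `t1_eq_zero_iff`) and for `|y| < r` (identity theorem).
* `t2_eval`: `MvPolynomial.induction_on`.
-/

set_option autoImplicit false

open Topology Filter

noncomputable section

namespace Pool.Agent.H68.KR

/-- The Taylor series at `0` of a function of two variables, as a power series in the second variable whose
coefficients are power series in the first variable. -/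
def t2 (f : ℂ × ℂ → ℂ) : PowerSeries (PowerSeries ℂ) :=
  PowerSeries.mk fun n => PowerSeries.C ((n.factorial : ℂ)⁻¹) * t1 (fun x => (dy^[n] f) (x, 0))

/-- The derivative in the first variable of a power series in two variables. -/
def pX (F : PowerSeries (PowerSeries ℂ)) : PowerSeries (PowerSeries ℂ) :=
  PowerSeries.mk fun n => PowerSeries.derivative ℂ (PowerSeries.coeff n F)

private theorem T2_slice_tendsto :
    Tendsto (fun x : ℂ => (x, (0 : ℂ))) (𝓝 0) (𝓝 (0 : ℂ × ℂ)) := by
  have h : ContinuousAt (fun x : ℂ => (x, (0 : ℂ))) 0 := by fun_prop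
  exact h

private theorem T2_slice {f : ℂ × ℂ → ℂ} {x : ℂ} (hf : AnalyticAt ℂ f (x, 0)) :
    AnalyticAt ℂ (fun x : ℂ => f (x, 0)) x := by
  have h : AnalyticAt ℂ (fun x : ℂ => (x, (0 : ℂ))) x := analyticAt_id.prod analyticAt_const
  exact AnalyticAt.comp (g := f) (f := fun x : ℂ => (x, (0 : ℂ))) hf h

private theorem T2_slice_y {f : ℂ × ℂ → ℂ} {x y : ℂ} (hf : AnalyticAt ℂ f (x, y)) :
    AnalyticAt ℂ (fun y : ℂ => f (x, y)) y := by
  have h : AnalyticAt ℂ (fun y : ℂ => (x, y)) y := analyticAt_const.prod analyticAt_id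
  exact AnalyticAt.comp (g := f) (f := fun y : ℂ => (x, y)) hf h

private theorem T2_coeff (f : ℂ × ℂ → ℂ) (n : ℕ) : PowerSeries.coeff n (t2 f) =
    PowerSeries.C ((n.factorial : ℂ)⁻¹) * t1 (fun x => (dy^[n] f) (x, 0)) := by
  unfold t2
  rw [PowerSeries.coeff_mk]

private theorem T2_der_mul {R : Type*} [CommRing R] (F G : PowerSeries R) :
    PowerSeries.derivative R (F * G) =
      PowerSeries.derivative R F * G + F * PowerSeries.derivative R G := by
  rw [Derivation.leibniz, smul_eq_mul, smul_eq_mul, mul_comm G, add_comm]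

private theorem T2_cast_ne (n : ℕ) : ((n : PowerSeries ℂ) + 1) ≠ 0 := by
  have h1 : ((n : PowerSeries ℂ) + 1) = PowerSeries.C ((n : ℂ) + 1) := by
    rw [map_add, map_natCast, map_one]
  rw [h1]
  intro h3
  rw [map_eq_zero_iff _ PowerSeries.C_injective] at h3
  exact Nat.cast_add_one_ne_zero n h3

private theorem T2_ext {F G : PowerSeries (PowerSeries ℂ)}
    (hD : PowerSeries.derivative (PowerSeries ℂ) F = PowerSeries.derivative (PowerSeries ℂ) G)
    (hc : PowerSeries.constantCoeff F = PowerSeries.constantCoeff G) : F = G := by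
  refine PowerSeries.ext fun n => ?_
  rcases n with - | n
  · rw [PowerSeries.coeff_zero_eq_constantCoeff_apply, PowerSeries.coeff_zero_eq_constantCoeff_apply]
    exact hc
  · have h := congrArg (PowerSeries.coeff n) hD
    rw [PowerSeries.coeff_derivative, PowerSeries.coeff_derivative] at h
    exact mul_right_cancel₀ (T2_cast_ne n) h

theorem t2_congr {f g : ℂ × ℂ → ℂ} (h : ∀ᶠ u in 𝓝 (0 : ℂ × ℂ), f u = g u) : t2 f = t2 g := by
  unfold t2
  congr 1
  funext n
  congr 1
  exact t1_congr (T2_slice_tendsto.eventually (iterate_dy_congr h n))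

theorem constantCoeff_t2 (f : ℂ × ℂ → ℂ) :
    PowerSeries.constantCoeff (t2 f) = t1 (fun x => f (x, 0)) := by
  rw [← PowerSeries.coeff_zero_eq_constantCoeff_apply, T2_coeff]
  simp

theorem t2_add {f g : ℂ × ℂ → ℂ} (hf : AnalyticAt ℂ f 0) (hg : AnalyticAt ℂ g 0) :
    t2 (fun u => f u + g u) = t2 f + t2 g := by
  have key : ∀ (n : ℕ) (f g : ℂ × ℂ → ℂ), AnalyticAt ℂ f 0 → AnalyticAt ℂ g 0 →
      ∀ᶠ u in 𝓝 (0 : ℂ × ℂ), (dy^[n] fun u => f u + g u) u = (dy^[n] f) u + (dy^[n] g) u := by
    intro n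
    induction n with
    | zero => intro f g _ _; exact Filter.Eventually.of_forall fun u => rfl
    | succ n ih =>
      intro f g hf hg
      have h1 := iterate_dy_congr (dy_add hf hg) n
      have h2 := ih (dy f) (dy g) (analyticAt_dy hf) (analyticAt_dy hg)
      filter_upwards [h1, h2] with u hu1 hu2
      rw [Function.iterate_succ_apply, Function.iterate_succ_apply, Function.iterate_succ_apply]
      exact hu1.trans hu2
  refine PowerSeries.ext fun n => ?_
  rw [map_add, T2_coeff, T2_coeff, T2_coeff, ← mul_add]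
  congr 1
  rw [← t1_add (T2_slice (analyticAt_iterate_dy hf n)) (T2_slice (analyticAt_iterate_dy hg n))]
  exact t1_congr (T2_slice_tendsto.eventually (key n f g hf hg))

theorem t2_dy {f : ℂ × ℂ → ℂ} (hf : AnalyticAt ℂ f 0) :
    PowerSeries.derivative (PowerSeries ℂ) (t2 f) = t2 (dy f) := by
  refine PowerSeries.ext fun n => ?_
  rw [PowerSeries.coeff_derivative, T2_coeff, T2_coeff, Function.iterate_succ_apply]
  have h1 : ((n : PowerSeries ℂ) + 1) = PowerSeries.C ((n : ℂ) + 1) := by
    rw [map_add, map_natCast, map_one]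
  have h2 : PowerSeries.C (((n + 1).factorial : ℂ)⁻¹) * PowerSeries.C ((n : ℂ) + 1) =
      PowerSeries.C ((n.factorial : ℂ)⁻¹) := by
    rw [← map_mul]
    congr 1
    rw [Nat.factorial_succ, Nat.cast_mul, Nat.cast_add, Nat.cast_one, mul_inv]
    have h3 : (n : ℂ) + 1 ≠ 0 := by exact_mod_cast Nat.succ_ne_zero n
    field_simp
  rw [h1, mul_right_comm, h2]

theorem t2_dx {f : ℂ × ℂ → ℂ} (hf : AnalyticAt ℂ f 0) : pX (t2 f) = t2 (dx f) := by
  refine PowerSeries.ext fun n => ?_
  unfold pX
  rw [PowerSeries.coeff_mk, T2_coeff, T2_coeff, ← PowerSeries.smul_eq_C_mul, ← PowerSeries.smul_eq_C_mul,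
    Derivation.map_smul]
  congr 1
  rw [t1_deriv (T2_slice (analyticAt_iterate_dy hf n))]
  refine t1_congr ?_
  have h1 := T2_slice_tendsto.eventually (dx_iterate_dy_comm hf n)
  have h2 := T2_slice_tendsto.eventually (analyticAt_iterate_dy hf n).eventually_analyticAt
  filter_upwards [h1, h2] with x hx1 hx2
  rw [← hx1]
  exact deriv_slice_x (p := (x, 0)) hx2

theorem t2_mul {f g : ℂ × ℂ → ℂ} (hf : AnalyticAt ℂ f 0) (hg : AnalyticAt ℂ g 0) :
    t2 (fun u => f u * g u) = t2 f * t2 g := by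
  have key : ∀ (n : ℕ) (f g : ℂ × ℂ → ℂ), AnalyticAt ℂ f 0 → AnalyticAt ℂ g 0 →
      PowerSeries.coeff n (t2 fun u => f u * g u) = PowerSeries.coeff n (t2 f * t2 g) := by
    intro n
    induction n with
    | zero =>
      intro f g hf hg
      rw [PowerSeries.coeff_zero_eq_constantCoeff_apply, PowerSeries.coeff_zero_eq_constantCoeff_apply,
        map_mul, constantCoeff_t2, constantCoeff_t2, constantCoeff_t2]
      exact t1_mul (T2_slice hf) (T2_slice hg)
    | succ n ih =>
      intro f g hf hg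
      have h1 : PowerSeries.derivative (PowerSeries ℂ) (t2 fun u => f u * g u) =
          t2 (fun u => dy f u * g u) + t2 (fun u => f u * dy g u) := by
        have hfg : AnalyticAt ℂ (fun u => f u * g u) 0 := hf.mul hg
        rw [t2_dy hfg, t2_congr (dy_mul hf hg)]
        exact t2_add ((analyticAt_dy hf).mul hg) (hf.mul (analyticAt_dy hg))
      have h2 : PowerSeries.derivative (PowerSeries ℂ) (t2 f * t2 g) =
          t2 (dy f) * t2 g + t2 f * t2 (dy g) := by
        rw [T2_der_mul, t2_dy hf, t2_dy hg]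
      have h3 : PowerSeries.coeff n (PowerSeries.derivative (PowerSeries ℂ) (t2 fun u => f u * g u)) =
          PowerSeries.coeff n (PowerSeries.derivative (PowerSeries ℂ) (t2 f * t2 g)) := by
        rw [h1, h2, map_add, map_add, ih _ _ (analyticAt_dy hf) hg, ih _ _ hf (analyticAt_dy hg)]
      rw [PowerSeries.coeff_derivative, PowerSeries.coeff_derivative] at h3
      exact mul_right_cancel₀ (T2_cast_ne n) h3
  exact PowerSeries.ext fun n => key n f g hf hg

private theorem T2_zero : t2 (fun _ => (0 : ℂ)) = 0 := by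
  have h1 : dy (fun _ => (0 : ℂ)) = fun _ => (0 : ℂ) := by
    funext u
    unfold dy
    simp
  refine PowerSeries.ext fun n => ?_
  rw [T2_coeff, Function.iterate_fixed h1 n, t1_const, map_zero, mul_zero, map_zero]

/-- Functions of the first variable. -/
theorem t2_of_fst {f : ℂ → ℂ} (hf : AnalyticAt ℂ f 0) :
    t2 (fun u => f u.1) = PowerSeries.C (t1 f) := by
  refine T2_ext ?_ ?_
  · have hF : AnalyticAt ℂ (fun u : ℂ × ℂ => f u.1) 0 := by
      have h : AnalyticAt ℂ (fun u : ℂ × ℂ => u.1) 0 := analyticAt_fst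
      exact AnalyticAt.comp (g := f) (f := fun u : ℂ × ℂ => u.1) hf h
    have h1 : ∀ᶠ u in 𝓝 (0 : ℂ × ℂ), dy (fun u => f u.1) u = (fun _ => (0 : ℂ)) u := by
      filter_upwards [hF.eventually_analyticAt] with u hu
      have h5 := deriv_slice_y hu
      have h6 : deriv (fun _ : ℂ => f u.1) u.2 = 0 := deriv_const _ _
      exact h5.symm.trans h6
    rw [t2_dy hF, t2_congr h1, T2_zero, PowerSeries.derivative_C]
  · rw [constantCoeff_t2, PowerSeries.constantCoeff_C]

theorem t2_const (c : ℂ) : t2 (fun _ => c) = PowerSeries.C (PowerSeries.C c) := by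
  have h := t2_of_fst (f := fun _ => c) analyticAt_const
  rw [h, t1_const]

theorem t2_eq_zero_iff {f : ℂ × ℂ → ℂ} (hf : AnalyticAt ℂ f 0) :
    t2 f = 0 ↔ ∀ᶠ u in 𝓝 (0 : ℂ × ℂ), f u = 0 := by
  constructor
  · intro h
    obtain ⟨r, hr, hball⟩ := Metric.eventually_nhds_iff_ball.1 hf.eventually_analyticAt
    have hmem : ∀ x y : ℂ, x ∈ Metric.ball (0 : ℂ) r → y ∈ Metric.ball (0 : ℂ) r →
        (x, y) ∈ Metric.ball (0 : ℂ × ℂ) r := by
      intro x y hx hy
      rw [Metric.mem_ball, Prod.dist_eq]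
      exact max_lt hx hy
    have hpre : IsPreconnected (Metric.ball (0 : ℂ) r) := (convex_ball _ _).isPreconnected
    have h0 : (0 : ℂ) ∈ Metric.ball (0 : ℂ) r := Metric.mem_ball_self hr
    have hcoef : ∀ n : ℕ, ∀ᶠ x in 𝓝 (0 : ℂ), (dy^[n] f) (x, 0) = 0 := by
      intro n
      have h1 : PowerSeries.C ((n.factorial : ℂ)⁻¹) * t1 (fun x => (dy^[n] f) (x, 0)) = 0 := by
        rw [← T2_coeff, h, map_zero]
      have h2 : PowerSeries.C ((n.factorial : ℂ)⁻¹) ≠ 0 := by
        intro h3
        rw [map_eq_zero_iff _ PowerSeries.C_injective, inv_eq_zero] at h3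
        exact Nat.factorial_ne_zero n (by exact_mod_cast h3)
      have h3 := (mul_eq_zero.1 h1).resolve_left h2
      exact (t1_eq_zero_iff (T2_slice (analyticAt_iterate_dy hf n))).1 h3
    have haxis : ∀ n : ℕ, ∀ x ∈ Metric.ball (0 : ℂ) r, (dy^[n] f) (x, 0) = 0 := by
      intro n x hx
      have h1 : AnalyticOnNhd ℂ (fun x : ℂ => (dy^[n] f) (x, 0)) (Metric.ball 0 r) := by
        intro x hx
        exact T2_slice (analyticAt_iterate_dy (hball _ (hmem x 0 hx h0)) n)
      exact h1.eqOn_zero_of_preconnected_of_eventuallyEq_zero hpre h0 (hcoef n) hx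
    have hall : ∀ x ∈ Metric.ball (0 : ℂ) r, ∀ y ∈ Metric.ball (0 : ℂ) r, f (x, y) = 0 := by
      intro x hx y hy
      have h1 : AnalyticOnNhd ℂ (fun y : ℂ => f (x, y)) (Metric.ball 0 r) := by
        intro y hy
        exact T2_slice_y (hball _ (hmem x y hx hy))
      have h2 : t1 (fun y : ℂ => f (x, y)) = 0 := by
        refine PowerSeries.ext fun n => ?_
        unfold t1
        rw [PowerSeries.coeff_mk, map_zero]
        have h3 := iterate_dy_slice (p := (x, 0)) (hball _ (hmem x 0 hx h0)) n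
        rw [haxis n x hx] at h3
        rw [← h3, zero_div]
      have h3 := (t1_eq_zero_iff (h1 0 h0)).1 h2
      exact h1.eqOn_zero_of_preconnected_of_eventuallyEq_zero hpre h0 h3 hy
    filter_upwards [Metric.ball_mem_nhds (0 : ℂ × ℂ) hr] with u hu
    rw [Metric.mem_ball, Prod.dist_eq, max_lt_iff] at hu
    exact hall u.1 hu.1 u.2 hu.2
  · intro h
    have h1 : ∀ᶠ u in 𝓝 (0 : ℂ × ℂ), f u = (fun _ => (0 : ℂ)) u := h
    rw [t2_congr h1, T2_zero]

theorem t2_pow {f : ℂ × ℂ → ℂ} (hf : AnalyticAt ℂ f 0) (n : ℕ) :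
    t2 (fun u => f u ^ n) = t2 f ^ n := by
  induction n with
  | zero =>
    simp only [pow_zero]
    rw [t2_const, map_one, map_one]
  | succ n ih =>
    have h1 : (fun u => f u ^ (n + 1)) = fun u => f u ^ n * f u := by
      funext u
      rw [pow_succ]
    have hn : AnalyticAt ℂ (fun u => f u ^ n) 0 := hf.pow n
    rw [h1, t2_mul hn hf, ih, pow_succ]

theorem t2_eval {n : ℕ} {ψ : ℂ × ℂ → Fin n → ℂ} (hψ : AnalyticAt ℂ ψ 0) (Q : MvPolynomial (Fin n) ℂ) :
    t2 (fun u => MvPolynomial.eval (ψ u) Q) =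
      MvPolynomial.eval₂ ((PowerSeries.C : PowerSeries ℂ →+* PowerSeries (PowerSeries ℂ)).comp
        (PowerSeries.C : ℂ →+* PowerSeries ℂ)) (fun i => t2 (fun u => ψ u i)) Q := by
  have hi : ∀ i, AnalyticAt ℂ (fun u => ψ u i) 0 := fun i => analyticAt_pi_iff.1 hψ i
  have key : ∀ Q : MvPolynomial (Fin n) ℂ, AnalyticAt ℂ (fun u => MvPolynomial.eval (ψ u) Q) 0 ∧
      t2 (fun u => MvPolynomial.eval (ψ u) Q) =
      MvPolynomial.eval₂ ((PowerSeries.C : PowerSeries ℂ →+* PowerSeries (PowerSeries ℂ)).comp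
        (PowerSeries.C : ℂ →+* PowerSeries ℂ)) (fun i => t2 (fun u => ψ u i)) Q := by
    intro Q
    induction Q using MvPolynomial.induction_on with
    | C a =>
      simp only [MvPolynomial.eval_C]
      refine ⟨analyticAt_const, ?_⟩
      rw [t2_const, MvPolynomial.eval₂_C]
      rfl
    | add p q hp hq =>
      simp only [map_add]
      refine ⟨hp.1.add hq.1, ?_⟩
      rw [t2_add hp.1 hq.1, hp.2, hq.2, MvPolynomial.eval₂_add]
    | mul_X p i hp =>
      simp only [map_mul, MvPolynomial.eval_X]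
      refine ⟨hp.1.mul (hi i), ?_⟩
      rw [t2_mul hp.1 (hi i), hp.2, MvPolynomial.eval₂_mul, MvPolynomial.eval₂_X]
  exact (key Q).2

end Pool.Agent.H68.KR

end
end

section

/-!
# KR HD: Laurent series with coefficients in Laurent series, their derivations

`LL = ℂ((X))((T))`.  `emb` embeds `ℂ⟦X⟧⟦T⟧`.  `vT` is the order in `T`.  (Do not use `Algebra ℂ LL` or
`Derivation`, there are several instances; derivations are additive maps with the Leibniz rule.)

Proofs.
* `exists_mapD` (coefficientwise `a_n ↦ δ a_n`, the support gets smaller).  Leibniz: `HahnSeries.coeff_mul_left'`,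
  `HahnSeries.coeff_mul_right'` (sum over the antidiagonal of larger well-founded sets),
  `δ (∑ a_i b_j) = ∑ (δ a_i b_j + a_i δ b_j)`.
* `exists_deriv`.  First the Euler derivation `θ : a_n ↦ n a_n` in the same way (`n = i + j` on the antidiagonal),
  then `D F = single (-1) 1 * θ F` (`HahnSeries.coeff_single_mul_add`: `(single (-1) 1 * G).coeff n = G.coeff (n + 1)`).
* `DT_emb`, `DX_emb`: compare coefficients (`HahnSeries.ofPowerSeries_apply`, `LaurentSeries.coeff_coe`,
  `PowerSeries.coeff_derivative`; indices `n < -1`: both sides `0`; `n = -1`: the factor `n + 1` is `0`).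
* `vT_nonneg_iff`: `HahnSeries.addVal_apply`, `HahnSeries.orderTop`.  `vT_DT_nonneg`, `vT_DX_nonneg` follow.
* `vT_emb`: the least index with a non-zero coefficient.
-/

set_option autoImplicit false

open Topology Filter

noncomputable section

namespace Pool.Agent.H68.KR

section

variable {R : Type} [CommRing R]

/-- The derivation of `R((T))` given by a derivation of `R`. -/
theorem exists_mapD (δ : R →+ R) (hδ : ∀ a b, δ (a * b) = a * δ b + b * δ a) :
    ∃ D : HahnSeries ℤ R →+ HahnSeries ℤ R, (∀ F n, (D F).coeff n = δ (F.coeff n)) ∧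
      ∀ F G, D (F * G) = F * D G + G * D F := by
  refine ⟨{ toFun := fun F => F.map δ, map_zero' := ?_, map_add' := ?_ }, fun F n => ?_,
    fun F G => ?_⟩
  · ext n
    simp
  · intro F G
    ext n
    simp
  · rfl
  · have hs : ∀ H : HahnSeries ℤ R, (H.map δ).support ⊆ H.support := by
      intro H n hn
      rw [HahnSeries.mem_support] at hn ⊢
      intro h0
      apply hn
      rw [HahnSeries.map_coeff, h0, map_zero]
    ext n
    have h1 : (F * G.map δ).coeff n = _ :=
      HahnSeries.coeff_mul_right' (x := F) (a := n) G.isPWO_support (hs G)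
    have h2 : (F.map δ * G).coeff n = _ :=
      HahnSeries.coeff_mul_left' (y := G) (a := n) F.isPWO_support (hs F)
    change ((F * G).map δ).coeff n = (F * G.map δ + G * F.map δ).coeff n
    rw [mul_comm G (F.map δ), HahnSeries.coeff_add, h1, h2, HahnSeries.map_coeff,
      HahnSeries.coeff_mul, map_sum, ← Finset.sum_add_distrib]
    refine Finset.sum_congr rfl fun ij _ => ?_
    rw [hδ, HahnSeries.map_coeff, HahnSeries.map_coeff, mul_comm (G.coeff ij.2)]

/-- The Euler derivation. -/
private theorem X_euler : ∃ D : HahnSeries ℤ R →+ HahnSeries ℤ R,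
    (∀ F (n : ℤ), (D F).coeff n = ((n : ℤ) : R) * F.coeff n) ∧
      ∀ F G, D (F * G) = F * D G + G * D F := by
  have hp : ∀ F : HahnSeries ℤ R, (Function.support fun n : ℤ => ((n : ℤ) : R) * F.coeff n).IsPWO := by
    intro F
    refine F.isPWO_support.mono fun n hn => ?_
    rw [HahnSeries.mem_support]
    intro h0
    apply hn
    change ((n : ℤ) : R) * F.coeff n = 0
    rw [h0, mul_zero]
  refine ⟨AddMonoidHom.mk' (fun F => HahnSeries.mk (fun n : ℤ => ((n : ℤ) : R) * F.coeff n) (hp F))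
    ?_, fun F n => rfl, fun F G => ?_⟩
  · intro F G
    ext n
    simp [mul_add]
  · set θ : HahnSeries ℤ R → HahnSeries ℤ R := fun F => ⟨fun n : ℤ => ((n : ℤ) : R) * F.coeff n, hp F⟩
      with hθ
    have hc : ∀ F n, (θ F).coeff n = ((n : ℤ) : R) * F.coeff n := fun F n => rfl
    have hs : ∀ H : HahnSeries ℤ R, (θ H).support ⊆ H.support := by
      intro H n hn
      rw [HahnSeries.mem_support] at hn ⊢
      intro h0
      apply hn
      rw [hc, h0, mul_zero]
    ext n
    have h1 : (F * θ G).coeff n = _ :=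
      HahnSeries.coeff_mul_right' (x := F) (a := n) G.isPWO_support (hs G)
    have h2 : (θ F * G).coeff n = _ :=
      HahnSeries.coeff_mul_left' (y := G) (a := n) F.isPWO_support (hs F)
    change (θ (F * G)).coeff n = (F * θ G + G * θ F).coeff n
    rw [mul_comm G (θ F), HahnSeries.coeff_add, h1, h2, hc, HahnSeries.coeff_mul, Finset.mul_sum,
      ← Finset.sum_add_distrib]
    refine Finset.sum_congr rfl fun ij hij => ?_
    have hn : ij.1 + ij.2 = n := (Finset.mem_antidiagonal.1 hij).2.2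
    rw [hc, hc, ← hn]
    push_cast
    ring

/-- The derivation `d/dT` of `R((T))`. -/
theorem exists_deriv : ∃ D : HahnSeries ℤ R →+ HahnSeries ℤ R,
    (∀ F (n : ℤ), (D F).coeff n = ((n + 1 : ℤ) : R) * F.coeff (n + 1)) ∧
      ∀ F G, D (F * G) = F * D G + G * D F := by
  obtain ⟨θ, hθ, hθm⟩ := X_euler (R := R)
  refine ⟨(AddMonoidHom.mulLeft (HahnSeries.single (-1 : ℤ) (1 : R))).comp θ, fun F n => ?_,
    fun F G => ?_⟩
  · change (HahnSeries.single (-1 : ℤ) (1 : R) * θ F).coeff n = _
    have h := HahnSeries.coeff_single_mul_add (r := (1 : R)) (x := θ F) (a := n + 1) (b := (-1 : ℤ))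
    rw [show n + 1 + (-1 : ℤ) = n by ring] at h
    rw [h, hθ, one_mul]
  · change HahnSeries.single (-1 : ℤ) (1 : R) * θ (F * G) =
      F * (HahnSeries.single (-1 : ℤ) (1 : R) * θ G) + G * (HahnSeries.single (-1 : ℤ) (1 : R) * θ F)
    rw [hθm]
    ring

end

/-- Laurent series in `X`. -/
abbrev L1 : Type := HahnSeries ℤ ℂ

/-- Laurent series in `T` whose coefficients are Laurent series in `X`. -/
abbrev LL : Type := HahnSeries ℤ L1

/-- The embedding `ℂ⟦X⟧⟦T⟧ → ℂ((X))((T))`. -/
def emb : PowerSeries (PowerSeries ℂ) →+* LL :=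
  (HahnSeries.ofPowerSeries ℤ L1).comp (PowerSeries.map (HahnSeries.ofPowerSeries ℤ ℂ))

/-- The constants. -/
def cst : ℂ →+* LL := (HahnSeries.C : L1 →+* LL).comp (HahnSeries.C : ℂ →+* L1)

/-- The first variable `X`. -/
def xx : LL := HahnSeries.C (HahnSeries.single 1 1)

/-- The order in `T`. -/
def vT : AddValuation LL (WithTop ℤ) := HahnSeries.addVal ℤ L1

/-- The derivation `d/dT`. -/
def DT : LL →+ LL := (exists_deriv (R := L1)).choose

/-- The derivation `d/dX`. -/
def DX : LL →+ LL :=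
  (exists_mapD (R := L1) (exists_deriv (R := ℂ)).choose (exists_deriv (R := ℂ)).choose_spec.2).choose

theorem DT_coeff (F : LL) (n : ℤ) : (DT F).coeff n = ((n + 1 : ℤ) : L1) * F.coeff (n + 1) :=
  (exists_deriv (R := L1)).choose_spec.1 F n

theorem DT_mul (F G : LL) : DT (F * G) = F * DT G + G * DT F :=
  (exists_deriv (R := L1)).choose_spec.2 F G

theorem DX_coeff (F : LL) (n k : ℤ) :
    ((DX F).coeff n).coeff k = ((k + 1 : ℤ) : ℂ) * (F.coeff n).coeff (k + 1) := by
  have h1 := (exists_mapD (R := L1) (exists_deriv (R := ℂ)).choose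
    (exists_deriv (R := ℂ)).choose_spec.2).choose_spec.1 F n
  have h2 := (exists_deriv (R := ℂ)).choose_spec.1 (F.coeff n) k
  rw [← h2, ← h1]
  rfl

theorem DX_mul (F G : LL) : DX (F * G) = F * DX G + G * DX F :=
  (exists_mapD (R := L1) (exists_deriv (R := ℂ)).choose
    (exists_deriv (R := ℂ)).choose_spec.2).choose_spec.2 F G

private theorem X_coeff_of {R : Type} [CommRing R] (F : PowerSeries R) (n : ℤ) :
    (HahnSeries.ofPowerSeries ℤ R F).coeff n = if n < 0 then 0 else PowerSeries.coeff n.natAbs F :=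
  PowerSeries.coeff_coe F n

private theorem X_coeff_emb (F : PowerSeries (PowerSeries ℂ)) (n : ℤ) :
    (emb F).coeff n = if n < 0 then 0 else
      HahnSeries.ofPowerSeries ℤ ℂ (PowerSeries.coeff n.natAbs F) := by
  change (HahnSeries.ofPowerSeries ℤ L1 (PowerSeries.map (HahnSeries.ofPowerSeries ℤ ℂ) F)).coeff n = _
  rw [X_coeff_of, PowerSeries.coeff_map]

theorem emb_injective : Function.Injective emb := by
  have h1 : Function.Injective (HahnSeries.ofPowerSeries ℤ L1) := HahnSeries.ofPowerSeries_injective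
  have h2 : Function.Injective (HahnSeries.ofPowerSeries ℤ ℂ) := HahnSeries.ofPowerSeries_injective
  have h3 : Function.Injective (PowerSeries.map (HahnSeries.ofPowerSeries ℤ ℂ)) := by
    intro F G h
    ext n : 1
    apply h2
    have := congrArg (PowerSeries.coeff n) h
    rwa [PowerSeries.coeff_map, PowerSeries.coeff_map] at this
  exact h1.comp h3

theorem emb_C_C (c : ℂ) : emb (PowerSeries.C (PowerSeries.C c)) = cst c := by
  change HahnSeries.ofPowerSeries ℤ L1 (PowerSeries.map (HahnSeries.ofPowerSeries ℤ ℂ)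
    (PowerSeries.C (PowerSeries.C c))) = HahnSeries.C (HahnSeries.C c)
  rw [PowerSeries.map_C, HahnSeries.ofPowerSeries_C, HahnSeries.ofPowerSeries_C]

theorem emb_C_X : emb (PowerSeries.C PowerSeries.X) = xx := by
  change HahnSeries.ofPowerSeries ℤ L1 (PowerSeries.map (HahnSeries.ofPowerSeries ℤ ℂ)
    (PowerSeries.C PowerSeries.X)) = HahnSeries.C (HahnSeries.single 1 1)
  rw [PowerSeries.map_C, HahnSeries.ofPowerSeries_C, HahnSeries.ofPowerSeries_X]

private theorem X_coeff_cst (c : ℂ) (n : ℤ) :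
    (cst c).coeff n = if n = 0 then HahnSeries.C c else 0 := by
  change (HahnSeries.single (0 : ℤ) (HahnSeries.single (0 : ℤ) c)).coeff n = _
  rw [HahnSeries.coeff_single]
  split_ifs <;> rfl

theorem DT_cst (c : ℂ) : DT (cst c) = 0 := by
  refine HahnSeries.ext (funext fun n => ?_)
  rw [DT_coeff, X_coeff_cst, HahnSeries.coeff_zero]
  split_ifs with h
  · rw [h, Int.cast_zero, zero_mul]
  · rw [mul_zero]

theorem DX_cst (c : ℂ) : DX (cst c) = 0 := by
  refine HahnSeries.ext (funext fun n => HahnSeries.ext (funext fun k => ?_))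
  rw [DX_coeff, X_coeff_cst, HahnSeries.coeff_zero, HahnSeries.coeff_zero]
  split_ifs with h
  · change _ * (HahnSeries.single (0 : ℤ) c).coeff (k + 1) = 0
    rw [HahnSeries.coeff_single]
    split_ifs with h'
    · rw [h', Int.cast_zero, zero_mul]
    · rw [mul_zero]
  · rw [HahnSeries.coeff_zero, mul_zero]

theorem DT_emb (F : PowerSeries (PowerSeries ℂ)) :
    DT (emb F) = emb (PowerSeries.derivative (PowerSeries ℂ) F) := by
  refine HahnSeries.ext (funext fun n => ?_)
  rw [DT_coeff, X_coeff_emb, X_coeff_emb]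
  rcases lt_trichotomy n (-1) with h | h | h
  · rw [if_pos (by omega), if_pos (by omega), mul_zero]
  · subst h
    rw [if_pos (by omega : (-1 : ℤ) < 0)]
    norm_num
  · obtain ⟨m, rfl⟩ := Int.eq_ofNat_of_zero_le (by omega : 0 ≤ n)
    rw [if_neg (by omega), if_neg (by omega)]
    have e1 : ((m : ℤ) + 1).natAbs = m + 1 := by omega
    have e2 : ((m : ℤ)).natAbs = m := by omega
    rw [e1, e2, PowerSeries.coeff_derivative, map_mul, mul_comm]
    congr 1
    push_cast
    rw [map_natCast]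

theorem DX_emb (F : PowerSeries (PowerSeries ℂ)) : DX (emb F) = emb (pX F) := by
  refine HahnSeries.ext (funext fun n => HahnSeries.ext (funext fun k => ?_))
  rw [DX_coeff, X_coeff_emb, X_coeff_emb]
  split_ifs with h0
  · rw [HahnSeries.coeff_zero, HahnSeries.coeff_zero, mul_zero]
  rw [pX, PowerSeries.coeff_mk, X_coeff_of, X_coeff_of]
  rcases lt_trichotomy k (-1) with h | h | h
  · rw [if_pos (by omega), if_pos (by omega), mul_zero]
  · subst h
    rw [if_pos (by omega : (-1 : ℤ) < 0)]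
    norm_num
  · obtain ⟨m, rfl⟩ := Int.eq_ofNat_of_zero_le (by omega : 0 ≤ k)
    rw [if_neg (by omega), if_neg (by omega)]
    have e1 : ((m : ℤ) + 1).natAbs = m + 1 := by omega
    have e2 : ((m : ℤ)).natAbs = m := by omega
    rw [e1, e2, PowerSeries.coeff_derivative, mul_comm]
    push_cast
    ring

theorem vT_nonneg_iff (F : LL) : 0 ≤ vT F ↔ ∀ n : ℤ, n < 0 → F.coeff n = 0 := by
  rw [vT, HahnSeries.addVal_apply]
  constructor
  · intro h n hn
    by_contra hc
    have h1 : F.orderTop ≤ (n : WithTop ℤ) := HahnSeries.orderTop_le_of_coeff_ne_zero hc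
    have h2 : (0 : WithTop ℤ) ≤ (n : WithTop ℤ) := h.trans h1
    have h3 : (0 : ℤ) ≤ n := by exact_mod_cast h2
    omega
  · intro h
    by_cases hF : F = 0
    · subst hF
      rw [HahnSeries.orderTop_zero]
      exact le_top
    · rw [HahnSeries.orderTop_of_ne_zero hF]
      by_contra hc
      rw [not_le] at hc
      have h3 : F.isWF_support.min (HahnSeries.support_nonempty_iff.2 hF) < (0 : ℤ) := by
        exact_mod_cast hc
      exact (Set.IsWF.min_mem F.isWF_support (HahnSeries.support_nonempty_iff.2 hF)) (h _ h3)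

theorem vT_DT_nonneg {F : LL} (h : 0 ≤ vT F) : 0 ≤ vT (DT F) := by
  rw [vT_nonneg_iff] at h ⊢
  intro n hn
  rw [DT_coeff]
  rcases lt_or_eq_of_le (by omega : n + 1 ≤ 0) with h1 | h1
  · rw [h _ h1, mul_zero]
  · rw [h1, Int.cast_zero, zero_mul]

theorem vT_DX_nonneg {F : LL} (h : 0 ≤ vT F) : 0 ≤ vT (DX F) := by
  rw [vT_nonneg_iff] at h ⊢
  intro n hn
  refine HahnSeries.ext (funext fun k => ?_)
  rw [DX_coeff, h n hn, HahnSeries.coeff_zero, HahnSeries.coeff_zero, mul_zero]

theorem vT_C {a : L1} (ha : a ≠ 0) : vT (HahnSeries.C a) = 0 := by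
  rw [vT, HahnSeries.addVal_apply]
  exact HahnSeries.orderTop_single ha

theorem vT_emb_nonneg (F : PowerSeries (PowerSeries ℂ)) : 0 ≤ vT (emb F) := by
  rw [vT_nonneg_iff]
  intro n hn
  rw [X_coeff_emb, if_pos hn]

theorem vT_emb {F : PowerSeries (PowerSeries ℂ)} {n : ℕ} (h : F.order = n) : vT (emb F) = (n : ℤ) := by
  rw [PowerSeries.order_eq_nat] at h
  obtain ⟨h1, h2⟩ := h
  have hinj : Function.Injective (HahnSeries.ofPowerSeries ℤ ℂ) := HahnSeries.ofPowerSeries_injective
  have hc : (emb F).coeff (n : ℤ) ≠ 0 := by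
    rw [X_coeff_emb, if_neg (by omega), Int.natAbs_natCast]
    exact (map_ne_zero_iff _ hinj).2 h1
  rw [vT, HahnSeries.addVal_apply]
  apply le_antisymm
  · exact HahnSeries.orderTop_le_of_coeff_ne_zero hc
  · have hF : emb F ≠ 0 := by
      intro h0
      apply hc
      rw [h0, HahnSeries.coeff_zero]
    rw [HahnSeries.orderTop_of_ne_zero hF]
    by_contra hlt
    rw [not_le] at hlt
    have h3 : (emb F).isWF_support.min (HahnSeries.support_nonempty_iff.2 hF) < (n : ℤ) := by
      exact_mod_cast hlt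
    have h4 := Set.IsWF.min_mem (emb F).isWF_support (HahnSeries.support_nonempty_iff.2 hF)
    apply h4
    rw [X_coeff_emb]
    split_ifs with h5
    · rfl
    · rw [h2 _ (by omega), map_zero]

theorem vT_emb_of_constantCoeff_ne {F : PowerSeries (PowerSeries ℂ)}
    (h : PowerSeries.constantCoeff F ≠ 0) : vT (emb F) = 0 := by
  have h1 : F.order = (0 : ℕ) := by
    rw [PowerSeries.order_eq_nat]
    refine ⟨?_, fun i hi => absurd hi (Nat.not_lt_zero i)⟩
    rw [PowerSeries.coeff_zero_eq_constantCoeff_apply]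
    exact h
  exact vT_emb h1

end Pool.Agent.H68.KR

end
end

section

/-!
# BPL GPa: orders, residues and Jacobians in `ℂ((X))((T))`
-/

set_option autoImplicit false

noncomputable section

namespace Pool.Agent.H36.BPL

open Pool.Agent.H68.KR

theorem le_vT_iff {F : LL} {n : ℤ} : (n : WithTop ℤ) ≤ vT F ↔ ∀ m : ℤ, m < n → F.coeff m = 0 := by
  rw [vT, HahnSeries.addVal_apply]
  constructor
  · intro h m hm
    by_contra hc
    have h1 : F.orderTop ≤ (m : WithTop ℤ) := HahnSeries.orderTop_le_of_coeff_ne_zero hc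
    have h3 : n ≤ m := by exact_mod_cast h.trans h1
    omega
  · intro h
    by_cases hF : F = 0
    · subst hF
      rw [HahnSeries.orderTop_zero]
      exact le_top
    · rw [HahnSeries.orderTop_of_ne_zero hF]
      by_contra hc
      rw [not_le] at hc
      have h3 : F.isWF_support.min (HahnSeries.support_nonempty_iff.2 hF) < n := by
        exact_mod_cast hc
      exact (Set.IsWF.min_mem F.isWF_support (HahnSeries.support_nonempty_iff.2 hF)) (h _ h3)

theorem le_vT_DT {F : LL} {n : ℤ} (h : (n : WithTop ℤ) ≤ vT F) : ((n - 1 : ℤ) : WithTop ℤ) ≤ vT (DT F) := by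
  rw [le_vT_iff] at h ⊢
  intro m hm
  rw [DT_coeff, h _ (by omega), mul_zero]

theorem le_vT_DX {F : LL} {n : ℤ} (h : (n : WithTop ℤ) ≤ vT F) : (n : WithTop ℤ) ≤ vT (DX F) := by
  rw [le_vT_iff] at h ⊢
  intro m hm
  refine HahnSeries.ext (funext fun k => ?_)
  rw [DX_coeff, h m hm, HahnSeries.coeff_zero, HahnSeries.coeff_zero, mul_zero]

theorem le_vT_mul {F G : LL} {m n : ℤ} (hF : (m : WithTop ℤ) ≤ vT F) (hG : (n : WithTop ℤ) ≤ vT G) :
    ((m + n : ℤ) : WithTop ℤ) ≤ vT (F * G) := by
  rw [AddValuation.map_mul]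
  push_cast
  exact add_le_add hF hG

theorem le_vT_add {F G : LL} {n : ℤ} (hF : (n : WithTop ℤ) ≤ vT F) (hG : (n : WithTop ℤ) ≤ vT G) :
    (n : WithTop ℤ) ≤ vT (F + G) := (le_min hF hG).trans (vT.map_add F G)

theorem le_vT_neg {F : LL} {n : ℤ} (hF : (n : WithTop ℤ) ≤ vT F) : (n : WithTop ℤ) ≤ vT (-F) := by
  rw [AddValuation.map_neg]
  exact hF

theorem le_vT_sub {F G : LL} {n : ℤ} (hF : (n : WithTop ℤ) ≤ vT F) (hG : (n : WithTop ℤ) ≤ vT G) :
    (n : WithTop ℤ) ≤ vT (F - G) := by
  have h : F - G = F + -G := sub_eq_add_neg F G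
  rw [h]
  exact le_vT_add hF (le_vT_neg hG)

theorem le_vT_mono {F : LL} {m n : ℤ} (h : m ≤ n) (hF : (n : WithTop ℤ) ≤ vT F) : (m : WithTop ℤ) ≤ vT F :=
  le_trans (by exact_mod_cast h) hF

theorem eq_zero_of_le {F : LL} (h : ∀ n : ℕ, ((n : ℤ) : WithTop ℤ) ≤ vT F) : F = 0 := by
  refine HahnSeries.ext (funext fun m => ?_)
  have h1 := h (m.toNat + 1)
  rw [le_vT_iff] at h1
  rw [h1 m (by omega)]
  rfl

/-- the Jacobian of two elements of `ℂ((X))((T))` -/
def JL (F G : LL) : LL := DX F * DT G - DX G * DT F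

theorem JL_self (F : LL) : JL F F = 0 := by
  unfold JL
  ring

theorem JL_anti (F G : LL) : JL F G = -JL G F := by
  unfold JL
  ring

theorem JL_add (F F' G : LL) : JL (F + F') G = JL F G + JL F' G := by
  unfold JL
  rw [map_add, map_add]
  ring

theorem JL_mul (F F' G : LL) : JL (F * F') G = F * JL F' G + F' * JL F G := by
  unfold JL
  rw [DX_mul, DT_mul]
  ring

theorem JL_cst (c : ℂ) (G : LL) : JL (cst c) G = 0 := by
  unfold JL
  rw [DX_cst, DT_cst]
  ring

/-- the order of the Jacobian -/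
theorem le_vT_JL {F G : LL} {m n : ℤ} (hF : (m : WithTop ℤ) ≤ vT F) (hG : (n : WithTop ℤ) ≤ vT G) :
    ((m + n - 1 : ℤ) : WithTop ℤ) ≤ vT (JL F G) := by
  unfold JL
  refine le_vT_sub ?_ ?_
  · have h := le_vT_mul (le_vT_DX hF) (le_vT_DT hG)
    have e : m + (n - 1) = m + n - 1 := by ring
    rwa [e] at h
  · have h := le_vT_mul (le_vT_DX hG) (le_vT_DT hF)
    have e : n + (m - 1) = m + n - 1 := by ring
    rwa [e] at h

theorem JL_nonneg {F G : LL} (hF : 0 ≤ vT F) (hG : 0 ≤ vT G) : 0 ≤ vT (JL F G) := by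
  unfold JL
  have h1 := le_vT_mul (m := 0) (n := 0) (vT_DX_nonneg hF) (vT_DT_nonneg hG)
  have h2 := le_vT_mul (m := 0) (n := 0) (vT_DX_nonneg hG) (vT_DT_nonneg hF)
  exact le_vT_sub (n := 0) h1 h2

/-- the order of the Jacobian, the second function has order at least `0` -/
theorem le_vT_JL' {F G : LL} {m : ℤ} (hF : (m : WithTop ℤ) ≤ vT F) (hG : 0 ≤ vT G) :
    ((m - 1 : ℤ) : WithTop ℤ) ≤ vT (JL F G) := by
  have h := le_vT_JL (n := 0) hF hG
  have e : m + 0 - 1 = m - 1 := by ring
  rwa [e] at h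

/-- the residue of a series of order at least `0` is multiplicative -/
theorem res_mul {F G : LL} (hF : 0 ≤ vT F) (hG : 0 ≤ vT G) : (F * G).coeff 0 = F.coeff 0 * G.coeff 0 := by
  have h1 : ((1 : ℤ) : WithTop ℤ) ≤ vT (F - HahnSeries.C (F.coeff 0)) := by
    rw [le_vT_iff]
    intro m hm
    have h2 : (F - HahnSeries.C (F.coeff 0)).coeff m = F.coeff m - (HahnSeries.C (F.coeff 0) : LL).coeff m := rfl
    rw [h2, HahnSeries.C_apply, HahnSeries.coeff_single]
    rcases lt_or_eq_of_le (by omega : m ≤ 0) with h3 | h3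
    · rw [if_neg (by omega), (vT_nonneg_iff F).1 hF m h3, sub_zero]
    · rw [if_pos h3, h3, sub_self]
  have h2 := le_vT_mul (n := 0) h1 hG
  rw [le_vT_iff] at h2
  have h3 := h2 0 (by norm_num)
  have h4 : F * G = HahnSeries.C (F.coeff 0) * G + (F - HahnSeries.C (F.coeff 0)) * G := by ring
  rw [h4, HahnSeries.coeff_add, h3, add_zero, HahnSeries.C_mul_eq_smul, HahnSeries.coeff_smul, smul_eq_mul]

theorem res_cst (c : ℂ) : (cst c).coeff 0 = HahnSeries.C c := by
  change (HahnSeries.single (0 : ℤ) (HahnSeries.C c)).coeff 0 = _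
  rw [HahnSeries.coeff_single, if_pos rfl]

theorem vT_cst_nonneg (c : ℂ) : 0 ≤ vT (cst c) := by
  by_cases hc : c = 0
  · subst hc
    rw [map_zero, AddValuation.map_zero]
    exact le_top
  · have : vT (cst c) = 0 := vT_C (a := HahnSeries.C c) (by simpa using hc)
    rw [this]

/-- a series of order at least `0` with residue `0` has positive order -/
theorem one_le_of_res {F : LL} (hF : 0 ≤ vT F) (h : F.coeff 0 = 0) : ((1 : ℤ) : WithTop ℤ) ≤ vT F := by
  rw [le_vT_iff]
  intro m hm
  rcases lt_or_eq_of_le (by omega : m ≤ 0) with h3 | h3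
  · exact (vT_nonneg_iff F).1 hF m h3
  · rw [h3, h]

theorem vT_eq_zero_of_res {F : LL} (hF : 0 ≤ vT F) (h : F.coeff 0 ≠ 0) : vT F = 0 := by
  refine le_antisymm ?_ hF
  rw [vT, HahnSeries.addVal_apply]
  exact HahnSeries.orderTop_le_of_coeff_ne_zero h

/-- an element of `ℂ((X))` which is not a constant is transcendental over `ℂ` -/
theorem transc {ρ : L1} (hρ : ∀ c : ℂ, ρ ≠ HahnSeries.C c) (p : Polynomial ℂ) (hp : p ≠ 0) :
    p.eval₂ (HahnSeries.C : ℂ →+* L1) ρ ≠ 0 := by
  induction h : p.natDegree generalizing p with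
  | zero =>
    obtain ⟨c, rfl⟩ := Polynomial.natDegree_eq_zero.1 h
    rw [Polynomial.eval₂_C]
    have hc : c ≠ 0 := by
      rintro rfl
      exact hp (map_zero _)
    simpa using hc
  | succ n ih =>
    have hd : p.degree ≠ 0 := by
      intro h0
      have := Polynomial.natDegree_eq_zero_iff_degree_le_zero.2 h0.le
      omega
    obtain ⟨c, hc⟩ := IsAlgClosed.exists_root p hd
    obtain ⟨q, hq⟩ := Polynomial.dvd_iff_isRoot.2 hc
    have hq0 : q ≠ 0 := by
      rintro rfl
      rw [mul_zero] at hq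
      exact hp hq
    have hqn : q.natDegree = n := by
      rw [hq, Polynomial.natDegree_mul (Polynomial.X_sub_C_ne_zero c) hq0, Polynomial.natDegree_X_sub_C] at h
      omega
    rw [hq, Polynomial.eval₂_mul, Polynomial.eval₂_sub, Polynomial.eval₂_X, Polynomial.eval₂_C]
    exact mul_ne_zero (sub_ne_zero.2 (hρ c)) (ih q hq0 hqn)

end Pool.Agent.H36.BPL

end
end
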