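import Pool.Agent.H43.TL2.M03
import Pool.Agent.H43.TL2.M28
import Pool.Agent.H43.TL2.M61

/-! The parts of this file: H13.CV.MerO, H13.CV.HomR, H68.KR.CB3, H68.KR.CB4, H68.KR.CB5. -/

section

/-!
# CV MerO: the field of meromorphic functions, as the fraction field of the ring of entire functions

`ofn z₀ f` is the order at `z₀` of `f`; it is defined with the chosen representation `f = a / b` (`IsLocalization.sec`), `ofn_div` says that it does not depend on the representation: if `a / b = a' / b'` then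
`a b' = a' b` as entire functions, so the meromorphic functions `a / b`, `a' / b'` agree outside the zeros of `b b'` (isolated), so their orders are the same (`meromorphicOrderAt_congr`).
The other lemmas: `meromorphicOrderAt_mul`, `meromorphicOrderAt_add` (`min ≤`), for functions `a / b`.  `ofn z₀ f = ⊤ ↔ f = 0`.
`tr_or_const`: `ℂ` is algebraically closed.
-/

set_option autoImplicit false

open Topology Filter
open Pool.Agent.H17 Pool.Agent.H17.EntFun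

noncomputable section

namespace Pool.Agent.H13.CV

attribute [-instance] Subalgebra.instFaithfulSMulSubtypeMem

/-- the field of meromorphic functions on `ℂ` -/
abbrev Mer : Type := FractionRing EntFun

/-- entire functions as meromorphic functions -/
abbrev toM (a : EntFun) : Mer := algebraMap EntFun Mer a

/-- the order at `z₀` -/
def ofn (z₀ : ℂ) (f : Mer) : WithTop ℤ :=
  meromorphicOrderAt (fun z => ((IsLocalization.sec (nonZeroDivisors EntFun) f).1 : ℂ → ℂ) z / (((IsLocalization.sec (nonZeroDivisors EntFun) f).2 : EntFun) : ℂ → ℂ) z) z₀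

/-- the function `z ↦ a z / b z` -/
private def qf (a b : EntFun) : ℂ → ℂ := fun z => (a : ℂ → ℂ) z / (b : ℂ → ℂ) z

private lemma qf_mero (z₀ : ℂ) (a b : EntFun) : MeromorphicAt (qf a b) z₀ :=
  (a.analyticAt z₀).meromorphicAt.fun_div (b.analyticAt z₀).meromorphicAt

private lemma ev_ne (z₀ : ℂ) {b : EntFun} (hb : b ≠ 0) : ∀ᶠ z in 𝓝[≠] z₀, (b : ℂ → ℂ) z ≠ 0 :=
  eventually_ne_zero_of_entire b.2 ((ne_zero_iff b).mp hb) z₀

private lemma toM_inj : Function.Injective toM := IsFractionRing.injective EntFun Mer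

private lemma toM_ne {b : EntFun} (hb : b ≠ 0) : toM b ≠ 0 := by
  intro h
  exact hb (toM_inj (by rw [h]; exact (map_zero (algebraMap EntFun Mer)).symm))

private lemma mul_val (a b : EntFun) (z : ℂ) : ((a * b : EntFun) : ℂ → ℂ) z = (a : ℂ → ℂ) z * (b : ℂ → ℂ) z := rfl

private lemma add_val (a b : EntFun) (z : ℂ) : ((a + b : EntFun) : ℂ → ℂ) z = (a : ℂ → ℂ) z + (b : ℂ → ℂ) z := rfl

private lemma exists_rep (f : Mer) : ∃ a b : EntFun, b ≠ 0 ∧ f = toM a / toM b := by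
  obtain ⟨a, b, hb, h⟩ := IsFractionRing.div_surjective (A := EntFun) f
  exact ⟨a, b, nonZeroDivisors.ne_zero hb, h.symm⟩

theorem ofn_div (z₀ : ℂ) (a : EntFun) {b : EntFun} (hb : b ≠ 0) : ofn z₀ (toM a / toM b) = meromorphicOrderAt (fun z => (a : ℂ → ℂ) z / (b : ℂ → ℂ) z) z₀ := by
  unfold ofn
  set f : Mer := toM a / toM b with hf
  set a' : EntFun := (IsLocalization.sec (nonZeroDivisors EntFun) f).1 with ha'
  set b' : EntFun := ((IsLocalization.sec (nonZeroDivisors EntFun) f).2 : EntFun) with hb'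
  have hb'0 : b' ≠ 0 := nonZeroDivisors.ne_zero (IsLocalization.sec (nonZeroDivisors EntFun) f).2.2
  have h1 : f * toM b' = toM a' := IsLocalization.sec_spec (nonZeroDivisors EntFun) f
  have h2 : a * b' = a' * b := by
    apply toM_inj
    have hbM := toM_ne hb
    have e1 : toM (a * b') = toM a * toM b' := map_mul _ _ _
    have e2 : toM (a' * b) = toM a' * toM b := map_mul _ _ _
    rw [e1, e2, ← h1, hf, mul_right_comm, div_mul_cancel₀ _ hbM]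
  apply meromorphicOrderAt_congr
  filter_upwards [ev_ne z₀ hb, ev_ne z₀ hb'0] with z hz hz'
  have h3 : (a : ℂ → ℂ) z * (b' : ℂ → ℂ) z = (a' : ℂ → ℂ) z * (b : ℂ → ℂ) z := by
    rw [← mul_val, ← mul_val, h2]
  rw [div_eq_div_iff hz' hz]
  exact h3.symm

private lemma ofn_rep (z₀ : ℂ) (a : EntFun) {b : EntFun} (hb : b ≠ 0) : ofn z₀ (toM a / toM b) = meromorphicOrderAt (qf a b) z₀ :=
  ofn_div z₀ a hb

private lemma toM_one : toM 1 = 1 := map_one (algebraMap EntFun Mer)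

private lemma toM_zero : toM 0 = 0 := map_zero (algebraMap EntFun Mer)

private lemma one_ne : (1 : EntFun) ≠ 0 := one_ne_zero

private lemma ofn_toM (z₀ : ℂ) (a : EntFun) : ofn z₀ (toM a) = meromorphicOrderAt (a : ℂ → ℂ) z₀ := by
  have h := ofn_div z₀ a one_ne
  rw [toM_one, div_one] at h
  rw [h]
  congr 1
  funext z
  have : ((1 : EntFun) : ℂ → ℂ) z = 1 := rfl
  rw [this, div_one]

theorem ofn_zero (z₀ : ℂ) : ofn z₀ 0 = ⊤ := by
  rw [← toM_zero, ofn_toM, meromorphicOrderAt_eq_top_iff]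
  exact Filter.Eventually.of_forall fun z => rfl

theorem ofn_one (z₀ : ℂ) : ofn z₀ 1 = 0 := by
  classical
  rw [← toM_one, ofn_toM]
  have h := meromorphicOrderAt_const z₀ (1 : ℂ)
  rw [if_neg one_ne_zero] at h
  exact h

theorem ofn_add (z₀ : ℂ) (f g : Mer) : min (ofn z₀ f) (ofn z₀ g) ≤ ofn z₀ (f + g) := by
  obtain ⟨a, b, hb, rfl⟩ := exists_rep f
  obtain ⟨c, d, hd, rfl⟩ := exists_rep g
  have h1 : toM a / toM b + toM c / toM d = toM (a * d + b * c) / toM (b * d) := by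
    have e1 : toM (a * d + b * c) = toM a * toM d + toM b * toM c := by
      rw [← map_mul, ← map_mul, ← map_add]
    have e2 : toM (b * d) = toM b * toM d := map_mul _ _ _
    rw [e1, e2, div_add_div _ _ (toM_ne hb) (toM_ne hd)]
  rw [h1, ofn_rep z₀ a hb, ofn_rep z₀ c hd, ofn_rep z₀ _ (mul_ne_zero hb hd)]
  refine (meromorphicOrderAt_add (qf_mero z₀ a b) (qf_mero z₀ c d)).trans (le_of_eq ?_)
  apply meromorphicOrderAt_congr
  filter_upwards [ev_ne z₀ hb, ev_ne z₀ hd] with z hz hz'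
  rw [Pi.add_apply]
  unfold qf
  rw [add_val, mul_val, mul_val, mul_val, div_add_div _ _ hz hz']

theorem ofn_mul (z₀ : ℂ) (f g : Mer) : ofn z₀ (f * g) = ofn z₀ f + ofn z₀ g := by
  obtain ⟨a, b, hb, rfl⟩ := exists_rep f
  obtain ⟨c, d, hd, rfl⟩ := exists_rep g
  have h1 : toM a / toM b * (toM c / toM d) = toM (a * c) / toM (b * d) := by
    have e1 : toM (a * c) = toM a * toM c := map_mul _ _ _
    have e2 : toM (b * d) = toM b * toM d := map_mul _ _ _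
    rw [e1, e2, div_mul_div_comm]
  rw [h1, ofn_rep z₀ a hb, ofn_rep z₀ c hd, ofn_rep z₀ _ (mul_ne_zero hb hd),
    ← meromorphicOrderAt_mul (qf_mero z₀ a b) (qf_mero z₀ c d)]
  congr 1
  funext z
  rw [Pi.mul_apply]
  unfold qf
  rw [mul_val, mul_val, div_mul_div_comm]

/-- the order at `z₀` as a valuation -/
def ordM (z₀ : ℂ) : AddValuation Mer (WithTop ℤ) := AddValuation.of (ofn z₀) (ofn_zero z₀) (ofn_one z₀) (ofn_add z₀) (ofn_mul z₀)

theorem ordM_div (z₀ : ℂ) (a : EntFun) {b : EntFun} (hb : b ≠ 0) : ordM z₀ (toM a / toM b) = meromorphicOrderAt (fun z => (a : ℂ → ℂ) z / (b : ℂ → ℂ) z) z₀ := by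
  exact ofn_div z₀ a hb

theorem ordM_toM (z₀ : ℂ) (a : EntFun) : ordM z₀ (toM a) = meromorphicOrderAt (a : ℂ → ℂ) z₀ := by
  exact ofn_toM z₀ a

theorem ordM_toM_nonneg (z₀ : ℂ) (a : EntFun) : 0 ≤ ordM z₀ (toM a) := by
  rw [ordM_toM]
  exact (a.analyticAt z₀).meromorphicOrderAt_nonneg

theorem ordM_toM_pos (z₀ : ℂ) (a : EntFun) : 0 < ordM z₀ (toM a) ↔ (a : ℂ → ℂ) z₀ = 0 := by
  rw [ordM_toM, ← tendsto_zero_iff_meromorphicOrderAt_pos (a.analyticAt z₀).meromorphicAt]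
  have hc : Tendsto (a : ℂ → ℂ) (𝓝[≠] z₀) (𝓝 ((a : ℂ → ℂ) z₀)) :=
    (a.analyticAt z₀).continuousAt.tendsto.mono_left nhdsWithin_le_nhds
  constructor
  · intro h
    exact tendsto_nhds_unique hc h
  · intro h
    rw [h] at hc
    exact hc

theorem ordM_eq_top (z₀ : ℂ) {f : Mer} : ordM z₀ f = ⊤ ↔ f = 0 := by
  constructor
  · intro h
    obtain ⟨a, b, hb, rfl⟩ := exists_rep f
    rw [ordM_div z₀ a hb, meromorphicOrderAt_eq_top_iff] at h
    by_contra h0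
    have ha : a ≠ 0 := by
      rintro rfl
      apply h0
      rw [toM_zero, zero_div]
    obtain ⟨z, ⟨hz1, hz2⟩, hz3⟩ := ((ev_ne z₀ ha).and (ev_ne z₀ hb)).and h |>.exists
    exact div_ne_zero hz1 hz2 hz3
  · rintro rfl
    exact ofn_zero z₀

theorem algebraMap_eq (c : ℂ) : algebraMap ℂ Mer c = toM (algebraMap ℂ EntFun c) := by
  exact IsScalarTower.algebraMap_apply ℂ EntFun Mer c

theorem ordM_const (z₀ : ℂ) {c : ℂ} (hc : c ≠ 0) : ordM z₀ (algebraMap ℂ Mer c) = 0 := by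
  classical
  rw [algebraMap_eq, ordM_toM]
  have h := meromorphicOrderAt_const z₀ c
  rw [if_neg hc] at h
  exact h

/-- a meromorphic function without pole at `z₀` has a value at `z₀` -/
theorem exists_valueM (z₀ : ℂ) {f : Mer} (hf : 0 ≤ ordM z₀ f) : ∃ c : ℂ, 0 < ordM z₀ (f - algebraMap ℂ Mer c) := by
  obtain ⟨a, b, hb, rfl⟩ := exists_rep f
  have h1 : ordM z₀ (toM a / toM b) = meromorphicOrderAt (qf a b) z₀ := ordM_div z₀ a hb
  rw [h1] at hf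
  obtain ⟨c, hc⟩ := tendsto_nhds_of_meromorphicOrderAt_nonneg (qf_mero z₀ a b) hf
  refine ⟨c, ?_⟩
  have h2 : toM a / toM b - algebraMap ℂ Mer c = toM (a - algebraMap ℂ EntFun c * b) / toM b := by
    have e1 : toM (a - algebraMap ℂ EntFun c * b) = toM a - toM (algebraMap ℂ EntFun c) * toM b := by
      rw [← map_mul, ← map_sub]
    rw [e1, algebraMap_eq, sub_div, mul_div_cancel_right₀ _ (toM_ne hb)]
  have h3 : ordM z₀ (toM (a - algebraMap ℂ EntFun c * b) / toM b) = meromorphicOrderAt (qf (a - algebraMap ℂ EntFun c * b) b) z₀ :=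
    ordM_div z₀ _ hb
  rw [h2, h3, ← tendsto_zero_iff_meromorphicOrderAt_pos (qf_mero z₀ _ b)]
  have h4 : Tendsto (fun z => qf a b z - c) (𝓝[≠] z₀) (𝓝 (c - c)) := hc.sub_const c
  rw [sub_self] at h4
  refine h4.congr' ?_
  filter_upwards [ev_ne z₀ hb] with z hz
  unfold qf
  have e2 : ((a - algebraMap ℂ EntFun c * b : EntFun) : ℂ → ℂ) z = (a : ℂ → ℂ) z - c * (b : ℂ → ℂ) z := rfl
  rw [e2, sub_div, mul_div_cancel_right₀ _ hz]

theorem tr_or_const (f : Mer) : (∃ c : ℂ, f = algebraMap ℂ Mer c) ∨ Transcendental ℂ f := by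
  by_cases h : Transcendental ℂ f
  · exact Or.inr h
  · left
    have halg : IsAlgebraic ℂ f := not_not.mp h
    have hint : IsIntegral ℂ f := halg.isIntegral
    have hdeg : (minpoly ℂ f).degree = 1 :=
      IsAlgClosed.degree_eq_one_of_irreducible ℂ (minpoly.irreducible hint)
    obtain ⟨c, hc⟩ := minpoly.mem_range_of_degree_eq_one ℂ f hdeg
    exact ⟨c, hc.symm⟩

end Pool.Agent.H13.CV

end
end

section

/-!
# CV HomR: homomorphisms into the field of meromorphic functions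

`hom_rat`: `K = ℂ(t)`: the elements of `K` are the quotients `p (t) / q (t)`; `IsFractionRing` / `RatFunc.algEquivOfTranscendental` (see `Place_rat` in `Pool/Agent/H62/FC/Place.lean` for the base field `L = ⊥`),
or `IntermediateField.adjoin` of a transcendental element: `Polynomial ℂ → Mer`, `X ↦ T` is injective, lift it to the fraction field.
`hom_cubic`: `K = ℂ(u)(v)`, `L = ℂ(u)`.  First `φ₀ : L →ₐ[ℂ] Mer` with `φ₀ u = U`.  `1, v` is a basis of `K` over `L`: every element is uniquely `a + b v` (`v² ∈ L`, `v ∉ L`, `K = L(v)`).  Define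
`φ (a + b v) = φ₀ a + φ₀ b * V`; or: `IntermediateField.algHomAdjoinIntegralEquiv` / `AdjoinRoot` for the minimal polynomial `X² - (4 u³ - α u - β)` of `v` over `L`, with `Mer` as an `L`-algebra via `φ₀`.
-/

set_option autoImplicit false

open Topology Filter
open Pool.Agent.H17 Pool.Agent.H17.EntFun

noncomputable section

namespace Pool.Agent.H13.CV

variable {K : Type} [Field K] [Algebra ℂ K]

private theorem hom_rat0 {t : K} (htr : Transcendental ℂ t) {M : Type} [Field M] [Algebra ℂ M] {T : M} (hT : Transcendental ℂ T) :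
    ∃ φ : IntermediateField.adjoin ℂ {t} →ₐ[ℂ] M, φ ⟨t, IntermediateField.mem_adjoin_simple_self ℂ t⟩ = T := by
  refine ⟨((IntermediateField.adjoin ℂ {T}).val.comp (RatFunc.algEquivOfTranscendental T hT).toAlgHom).comp
    (RatFunc.algEquivOfTranscendental t htr).symm.toAlgHom, ?_⟩
  have h1 : (RatFunc.algEquivOfTranscendental t htr).symm ⟨t, IntermediateField.mem_adjoin_simple_self ℂ t⟩ = RatFunc.X := by
    rw [AlgEquiv.symm_apply_eq]
    apply Subtype.ext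
    simp
  have h2 : ((RatFunc.algEquivOfTranscendental T hT) RatFunc.X : M) = T := by
    simp
  show ((RatFunc.algEquivOfTranscendental T hT) ((RatFunc.algEquivOfTranscendental t htr).symm
    ⟨t, IntermediateField.mem_adjoin_simple_self ℂ t⟩) : M) = T
  rw [h1, h2]

theorem hom_rat {t : K} (ht : IntermediateField.adjoin ℂ {t} = ⊤) (htr : Transcendental ℂ t) {T : Mer} (hT : Transcendental ℂ T) :
    ∃ φ : K →ₐ[ℂ] Mer, φ t = T := by
  obtain ⟨φ, hφ⟩ := hom_rat0 htr hT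
  refine ⟨(φ.comp (IntermediateField.equivOfEq ht.symm).toAlgHom).comp IntermediateField.topEquiv.symm.toAlgHom, ?_⟩
  rw [← hφ]
  rfl

theorem hom_cubic {u v : K} {α β : ℂ} (h : v ^ 2 = 4 * u ^ 3 - algebraMap ℂ K α * u - algebraMap ℂ K β) (hu : Transcendental ℂ u)
    (huv : IntermediateField.adjoin ℂ {u, v} = ⊤) (hvu : v ∉ IntermediateField.adjoin ℂ {u}) {U V : Mer} (hU : Transcendental ℂ U)
    (hUV : V ^ 2 = 4 * U ^ 3 - algebraMap ℂ Mer α * U - algebraMap ℂ Mer β) : ∃ φ : K →ₐ[ℂ] Mer, φ u = U ∧ φ v = V := by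
  classical
  obtain ⟨L, hL⟩ : ∃ L : IntermediateField ℂ K, L = IntermediateField.adjoin ℂ {u} := ⟨_, rfl⟩
  have huL : u ∈ L := by
    rw [hL]
    exact IntermediateField.mem_adjoin_simple_self ℂ u
  rw [← hL] at hvu
  obtain ⟨u₀, hu₀⟩ : ∃ u₀ : L, u₀ = ⟨u, huL⟩ := ⟨_, rfl⟩
  obtain ⟨φ₀, h₀⟩ : ∃ φ₀ : L →ₐ[ℂ] Mer, φ₀ u₀ = U := by
    subst hu₀
    subst hL
    exact hom_rat0 hu hU
  letI : Algebra L Mer := φ₀.toRingHom.toAlgebra
  haveI : IsScalarTower ℂ L Mer := IsScalarTower.of_algebraMap_eq' φ₀.comp_algebraMap.symm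
  have halg : ∀ a : L, algebraMap L Mer a = φ₀ a := fun a => rfl
  let c : L := 4 * u₀ ^ 3 - algebraMap ℂ L α * u₀ - algebraMap ℂ L β
  have hc : algebraMap L K c = v ^ 2 := by
    rw [h]
    simp only [c, map_sub, map_mul, map_pow, map_ofNat, ← IsScalarTower.algebraMap_apply]
    rw [hu₀]
    rfl
  have hv : Polynomial.aeval v (Polynomial.X ^ 2 - Polynomial.C c) = 0 := by
    simp [hc]
  have hmon : (Polynomial.X ^ 2 - Polynomial.C c : Polynomial L).Monic := Polynomial.monic_X_pow_sub_C c two_ne_zero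
  have hint : IsIntegral L v := ⟨_, hmon, hv⟩
  have hmin : minpoly L v = Polynomial.X ^ 2 - Polynomial.C c := by
    have h1 : minpoly L v ∣ Polynomial.X ^ 2 - Polynomial.C c := minpoly.dvd L v hv
    have h2 : 2 ≤ (minpoly L v).natDegree := by
      rw [minpoly.two_le_natDegree_iff hint]
      rintro ⟨a, ha⟩
      apply hvu
      rw [← ha]
      exact a.2
    refine (Polynomial.eq_of_monic_of_dvd_of_natDegree_le (minpoly.monic hint) hmon h1 ?_).symm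
    rw [Polynomial.natDegree_X_pow_sub_C]
    exact h2
  have htop : IntermediateField.adjoin L {v} = ⊤ := by
    apply IntermediateField.restrictScalars_injective ℂ
    rw [IntermediateField.restrictScalars_top, hL, IntermediateField.adjoin_adjoin_left, ← huv]
    congr 1
  have hroot : Polynomial.aeval V (minpoly L (IntermediateField.adjoin.powerBasis hint).gen) = 0 := by
    rw [IntermediateField.adjoin.powerBasis_gen, IntermediateField.minpoly_gen, hmin]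
    simp only [map_sub, map_pow, Polynomial.aeval_X, Polynomial.aeval_C, halg, c, map_mul, map_ofNat]
    rw [h₀, hUV, φ₀.commutes, φ₀.commutes]
    ring
  let ψ : IntermediateField.adjoin L {v} →ₐ[L] Mer := (IntermediateField.adjoin.powerBasis hint).lift V hroot
  have hψ : ψ (IntermediateField.AdjoinSimple.gen L v) = V := by
    have := (IntermediateField.adjoin.powerBasis hint).lift_gen V hroot
    rwa [IntermediateField.adjoin.powerBasis_gen] at this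
  let e : K →ₐ[L] IntermediateField.adjoin L {v} :=
    (IntermediateField.equivOfEq htop.symm).toAlgHom.comp IntermediateField.topEquiv.symm.toAlgHom
  refine ⟨(ψ.comp e).restrictScalars ℂ, ?_, ?_⟩
  · have h1 : (ψ.comp e) (algebraMap L K u₀) = algebraMap L Mer u₀ := AlgHom.commutes _ _
    rw [halg, h₀, hu₀] at h1
    exact h1
  · exact hψ

end Pool.Agent.H13.CV

end
end

section

/-!
# KR CB3: extension of a quotient which has no poles on many slices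

* `exists_quotient`: for every `y ∈ U` choose `q_y`; put `q y = q_y y`.  Near `y` (punctured neighbourhood) `b z ≠ 0`
  (isolated zeros: `AnalyticAt.eventually_eq_zero_or_eventually_ne_zero`), so
  `q_y z = a z / b z = q_z z = q z`; hence `q = q_y` near `y` (also at `y`), analytic, and `a y = b y * q y`.
* `extend_of_slices`: Let `A, B` be analytic on the polydisc `|x| < r, |y| < r` (`ℂ × ℂ` has the sup norm, so it is
  `ball 0 r`).  `B (0, ·)` is not `0` near `0`: choose `0 < ρ < min r ρ₀` (`ρ₀` the radius of `h`) with `B (0, y) ≠ 0`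
  for `0 < |y| ≤ ρ`, so on `|y| = ρ`.  Let `Φ` be given by `exists_cauchy`.  For `x` near `0`: `|x| < r`,
  `B (x, ζ) ≠ 0` for `|ζ| = ρ` (compactness: tube lemma), and the statement of `exists_cauchy`.  For those `x` with
  `LD A B x y` for all `|y| < ρ₀`: let `ρ' = min r ρ₀ > ρ`; `B (x, ·)` is analytic on the ball of radius `ρ'` and not
  identically `0`, so not `0` near any point of it (identity theorem,
  `AnalyticOnNhd.eqOn_zero_of_preconnected_of_eventuallyEq_zero`); `exists_quotient` on `U = ball 0 ρ'` gives `q`, and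
  `Φ (x, y) = q y`, hence `A (x, y) = B (x, y) Φ (x, y)` for `|y| < ρ`.
  Now let `r₁ ≤ ρ` be such that `Φ` is analytic on `|x| < r₁, |y| < r₁` (as `Φ` is analytic at `0`).  For fixed
  `|y| < r₁` the function `x ↦ A (x, y) - B (x, y) Φ (x, y)` is analytic on `|x| < r₁` and frequently `0` near `0`,
  so it is `0` (`AnalyticOnNhd.eqOn_zero_of_preconnected_of_frequently_eq_zero`).
-/

set_option autoImplicit false

open Topology Filter Metric

noncomputable section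

namespace Pool.Agent.H68.KR

/-- On the slice through `x` the function `A` is divisible by `B` near `y`. -/
def LD (A B : ℂ × ℂ → ℂ) (x y : ℂ) : Prop :=
  ∃ q : ℂ → ℂ, AnalyticAt ℂ q y ∧ ∀ᶠ z in 𝓝 y, A (x, z) = B (x, z) * q z

theorem exists_quotient {a b : ℂ → ℂ} {U : Set ℂ} (hU : IsOpen U) (hb : ∀ y ∈ U, AnalyticAt ℂ b y)
    (hb0 : ∀ y ∈ U, ¬ ∀ᶠ z in 𝓝 y, b z = 0)
    (h : ∀ y ∈ U, ∃ q : ℂ → ℂ, AnalyticAt ℂ q y ∧ ∀ᶠ z in 𝓝 y, a z = b z * q z) :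
    ∃ q : ℂ → ℂ, (∀ y ∈ U, AnalyticAt ℂ q y) ∧ ∀ y ∈ U, a y = b y * q y := by
  classical
  choose! Q hQa hQe using h
  refine ⟨fun y => Q y y, fun y hy => ?_, fun y hy => (hQe y hy).self_of_nhds⟩
  refine (hQa y hy).congr ?_
  have hb1 : ∀ᶠ z in 𝓝[≠] y, b z ≠ 0 :=
    ((hb y hy).eventually_eq_zero_or_eventually_ne_zero).resolve_left (hb0 y hy)
  have h1 : ∀ᶠ z in 𝓝[≠] y, Q y z = Q z z := by
    filter_upwards [hb1, nhdsWithin_le_nhds (hQe y hy), nhdsWithin_le_nhds (hU.mem_nhds hy)] with z hz1 hz2 hz3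
    have h3 := (hQe z hz3).self_of_nhds
    exact mul_left_cancel₀ hz1 (hz2.symm.trans h3)
  filter_upwards [eventually_nhdsWithin_iff.1 h1] with z hz
  by_cases hzy : z = y
  · rw [hzy]
  · exact hz hzy

/-- If `A / B` has no poles in a fixed disc for arbitrarily small `x ≠ 0`, then it is analytic at `0`. -/
theorem extend_of_slices {A B : ℂ × ℂ → ℂ} (hA : AnalyticAt ℂ A 0) (hB : AnalyticAt ℂ B 0)
    (hB0 : ¬ ∀ᶠ y in 𝓝 (0 : ℂ), B (0, y) = 0) {ρ₀ : ℝ} (hρ₀ : 0 < ρ₀)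
    (h : ∃ᶠ x in 𝓝[≠] (0 : ℂ), ∀ y ∈ ball (0 : ℂ) ρ₀, LD A B x y) :
    ∃ Φ : ℂ × ℂ → ℂ, AnalyticAt ℂ Φ 0 ∧ ∀ᶠ u in 𝓝 (0 : ℂ × ℂ), A u = B u * Φ u := by
  classical
  -- a polydisc on which both functions are analytic
  obtain ⟨r, hr, hAB⟩ := Metric.eventually_nhds_iff_ball.1 (hA.eventually_analyticAt.and hB.eventually_analyticAt)
  have hmem : ∀ {s : ℝ} {x y : ℂ}, ‖x‖ < s → ‖y‖ < s → ((x, y) : ℂ × ℂ) ∈ ball (0 : ℂ × ℂ) s := by
    intro s x y hx hy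
    rw [mem_ball_zero_iff, Prod.norm_def]
    exact max_lt hx hy
  have hslx : ∀ {F : ℂ × ℂ → ℂ} {x y : ℂ}, AnalyticAt ℂ F (x, y) → AnalyticAt ℂ (fun z => F (x, z)) y :=
    fun {F x y} hF => AnalyticAt.fun_comp (g := F) (f := fun z : ℂ => ((x, z) : ℂ × ℂ)) hF
      (analyticAt_const.prod analyticAt_id)
  have hsly : ∀ {F : ℂ × ℂ → ℂ} {x y : ℂ}, AnalyticAt ℂ F (x, y) → AnalyticAt ℂ (fun z => F (z, y)) x :=
    fun {F x y} hF => AnalyticAt.fun_comp (g := F) (f := fun z : ℂ => ((z, y) : ℂ × ℂ)) hF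
      (analyticAt_id.prod analyticAt_const)
  -- isolated zeros of the central slice
  have hb : AnalyticAt ℂ (fun y => B (0, y)) 0 := hslx hB
  have hb1 : ∀ᶠ y in 𝓝[≠] (0 : ℂ), B (0, y) ≠ 0 :=
    (hb.eventually_eq_zero_or_eventually_ne_zero).resolve_left hB0
  obtain ⟨ρ₁, hρ₁, hb2⟩ := Metric.eventually_nhds_iff_ball.1 (eventually_nhdsWithin_iff.1 hb1)
  obtain ⟨R, hR, hRr, hRρ₀, hRρ₁⟩ : ∃ R : ℝ, 0 < R ∧ R ≤ r ∧ R ≤ ρ₀ ∧ R ≤ ρ₁ :=
    ⟨min r (min ρ₀ ρ₁), lt_min hr (lt_min hρ₀ hρ₁), min_le_left _ _,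
      (min_le_right _ _).trans (min_le_left _ _), (min_le_right _ _).trans (min_le_right _ _)⟩
  obtain ⟨ρ, hρ, hρR⟩ : ∃ ρ : ℝ, 0 < ρ ∧ ρ < R := ⟨R / 2, by positivity, by linarith⟩
  have hsph : ∀ ζ ∈ sphere (0 : ℂ) ρ, ‖ζ‖ = ρ := fun ζ hζ => by simpa using hζ
  have hABs : ∀ ζ ∈ sphere (0 : ℂ) ρ, AnalyticAt ℂ A (0, ζ) ∧ AnalyticAt ℂ B (0, ζ) := fun ζ hζ =>
    hAB _ (hmem (by simpa using hr) (by rw [hsph ζ hζ]; linarith))
  have hBs : ∀ ζ ∈ sphere (0 : ℂ) ρ, B (0, ζ) ≠ 0 := fun ζ hζ =>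
    hb2 ζ (by rw [mem_ball_zero_iff, hsph ζ hζ]; linarith) (by
      intro h0
      have := hsph ζ hζ
      rw [h0, norm_zero] at this
      linarith)
  obtain ⟨Φ, hΦa, hΦe⟩ := exists_cauchy hρ (fun ζ hζ => (hABs ζ hζ).1) (fun ζ hζ => (hABs ζ hζ).2) hBs
  have h00 : ((0 : ℂ), (0 : ℂ)) = (0 : ℂ × ℂ) := rfl
  have hΦ0 : AnalyticAt ℂ Φ 0 := h00 ▸ hΦa 0 (by simpa using hρ)
  refine ⟨Φ, hΦ0, ?_⟩
  -- a point of the circle
  obtain ⟨ζ₀, hζ₀⟩ : ∃ ζ₀ : ℂ, ‖ζ₀‖ = ρ := ⟨(ρ : ℂ), by rw [Complex.norm_real, Real.norm_eq_abs, abs_of_pos hρ]⟩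
  have hζ₀s : ζ₀ ∈ sphere (0 : ℂ) ρ := by simpa using hζ₀
  have hBx : ∀ᶠ x in 𝓝 (0 : ℂ), B (x, ζ₀) ≠ 0 := by
    have h1 : ContinuousAt (fun x : ℂ => B (x, ζ₀)) 0 := (hsly (hABs ζ₀ hζ₀s).2).continuousAt
    exact h1.eventually_ne (hBs ζ₀ hζ₀s)
  have hxr : ∀ᶠ x in 𝓝 (0 : ℂ), ‖x‖ < r := by
    filter_upwards [Metric.ball_mem_nhds (0 : ℂ) hr] with x hx
    simpa using hx
  -- the good slices
  have hgood : ∃ᶠ x in 𝓝[≠] (0 : ℂ), ∀ y ∈ ball (0 : ℂ) ρ, A (x, y) = B (x, y) * Φ (x, y) := by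
    refine (h.and_eventually (nhdsWithin_le_nhds (hBx.and (hxr.and hΦe)))).mono ?_
    rintro x ⟨hx1, hx2, hx3, hx4⟩
    have hBa : ∀ y ∈ ball (0 : ℂ) R, AnalyticAt ℂ (fun z => B (x, z)) y := fun y hy =>
      hslx (hAB _ (hmem hx3 (lt_of_lt_of_le (by simpa using hy) hRr))).2
    obtain ⟨q, hqa, hqe⟩ := exists_quotient (a := fun z => A (x, z)) (b := fun z => B (x, z))
      (U := ball (0 : ℂ) R) isOpen_ball hBa (fun y hy hz => by
        have h2 : Set.EqOn (fun z => B (x, z)) 0 (ball (0 : ℂ) R) :=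
          AnalyticOnNhd.eqOn_zero_of_preconnected_of_eventuallyEq_zero hBa
            (convex_ball (0 : ℂ) R).isPreconnected hy hz
        exact hx2 (h2 (by rw [mem_ball_zero_iff, hζ₀]; exact hρR)))
      (fun y hy => hx1 y (ball_subset_ball hRρ₀ hy))
    have h3 := hx4 q (fun y hy => hqa y (closedBall_subset_ball hρR hy))
      (fun y hy => hqe y (closedBall_subset_ball hρR (sphere_subset_closedBall hy)))
    intro y hy
    rw [h3 y hy]
    exact hqe y (ball_subset_ball hρR.le hy)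
  -- analytic continuation in the first variable
  obtain ⟨r₂, hr₂, hΦb⟩ := Metric.eventually_nhds_iff_ball.1 hΦ0.eventually_analyticAt
  obtain ⟨r₁, hr₁, hr₁ρ, hr₁r, hr₁r₂⟩ : ∃ r₁ : ℝ, 0 < r₁ ∧ r₁ ≤ ρ ∧ r₁ ≤ r ∧ r₁ ≤ r₂ :=
    ⟨min ρ (min r r₂), lt_min hρ (lt_min hr hr₂), min_le_left _ _,
      (min_le_right _ _).trans (min_le_left _ _), (min_le_right _ _).trans (min_le_right _ _)⟩
  filter_upwards [Metric.ball_mem_nhds (0 : ℂ × ℂ) hr₁] with u hu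
  obtain ⟨x, y⟩ := u
  rw [mem_ball_zero_iff, Prod.norm_def] at hu
  have hx : ‖x‖ < r₁ := (le_max_left _ _).trans_lt hu
  have hy : ‖y‖ < r₁ := (le_max_right _ _).trans_lt hu
  have han : AnalyticOnNhd ℂ (fun z => A (z, y) - B (z, y) * Φ (z, y)) (ball (0 : ℂ) r₁) := by
    intro z hz
    have hz' : ‖z‖ < r₁ := by simpa using hz
    have h1 := hAB _ (hmem (hz'.trans_le hr₁r) (hy.trans_le hr₁r))
    have h2 := hΦb _ (hmem (hz'.trans_le hr₁r₂) (hy.trans_le hr₁r₂))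
    exact (hsly h1.1).sub ((hsly h1.2).mul (hsly h2))
  have hfr : ∃ᶠ z in 𝓝[≠] (0 : ℂ), A (z, y) - B (z, y) * Φ (z, y) = 0 :=
    hgood.mono fun z hz => sub_eq_zero.2 (hz y (by rw [mem_ball_zero_iff]; exact hy.trans_le hr₁ρ))
  have h0 := AnalyticOnNhd.eqOn_zero_of_preconnected_of_frequently_eq_zero han
    (convex_ball (0 : ℂ) r₁).isPreconnected (by simpa using hr₁ : (0 : ℂ) ∈ ball (0 : ℂ) r₁) hfr
  exact sub_eq_zero.1 (h0 (by simpa using hx : x ∈ ball (0 : ℂ) r₁))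

end Pool.Agent.H68.KR

end
end

section

/-!
# KR CB4: tools for the pole curve

* `exists_direction`: `B` analytic on `ball 0 r` (sup norm).  If for every `m : ℂ` the function `y ↦ B (m y, y)` is
  `0` near `0`, then for `|m| < 1` it is `0` for `|y| < r` (identity theorem).  So `B` vanishes on the open set
  `{(x, y) | |x| < |y| < r}` (`m = x / y`), which is not empty, hence on `ball 0 r`
  (`AnalyticOnNhd.eqOn_zero_of_preconnected_of_eventuallyEq_zero` in `ℂ × ℂ`).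
* `ld_of_vanish`: by `iterate_dy_slice` (valid at the point `(x, y)`) the function `a = A (x, ·)` has
  `iteratedDeriv i a y = 0` for `i < k`, and `b = B (x, ·)` has `iteratedDeriv i b y = 0` for `i < k`,
  `iteratedDeriv k b y ≠ 0`.  So `b z = (z - y)^k b₁ z`, `b₁ y ≠ 0` and `a z = (z - y)^k a₁ z`
  (`natCast_le_analyticOrderAt`, the relation of the order and the derivatives:
  `natCast_le_analyticOrderAt_iff_iteratedDeriv_eq_zero` or the Taylor series), `q = a₁ / b₁`.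
* `ld_of_ne_zero`: `q = A / B`.
* `exists_implicit`: implicit function theorem for `G : ℂ × ℂ → ℂ` analytic at `(x₁, y₁)`, `G (x₁, y₁) = 0`,
  `dy G (x₁, y₁) ≠ 0`: the map `F (x, y) = (x, G (x, y))` is analytic with invertible derivative at `(x₁, y₁)`
  (`(a, b) ↦ (a, G_x a + G_y b)`), so it has a local inverse which is analytic: e.g. `HasStrictFDerivAt` +
  `ContDiffAt.to_localInverse` with smoothness `ω` (`AnalyticAt.contDiffAt`, `ContDiffAt.analyticAt` for `n = ω`),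
  or `OpenPartialHomeomorph.analyticAt_symm`/`hasFPowerSeriesAt_symm`.  `c x = (F⁻¹ (x, 0)).2`.
-/

set_option autoImplicit false

open Topology Filter Metric

noncomputable section

namespace Pool.Agent.H68.KR

private lemma CB4_slice {B : ℂ × ℂ → ℂ} {x y : ℂ} (hB : AnalyticAt ℂ B (x, y)) :
    AnalyticAt ℂ (fun z => B (x, z)) y := by
  have h : AnalyticAt ℂ (fun z : ℂ => ((x, z) : ℂ × ℂ)) y := analyticAt_const.prod analyticAt_id
  exact AnalyticAt.comp (g := B) (f := fun z : ℂ => ((x, z) : ℂ × ℂ)) hB h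

theorem exists_direction {B : ℂ × ℂ → ℂ} (hB : AnalyticAt ℂ B 0)
    (h : ¬ ∀ᶠ u in 𝓝 (0 : ℂ × ℂ), B u = 0) :
    ∃ m : ℂ, ¬ ∀ᶠ y in 𝓝 (0 : ℂ), B (m * y, y) = 0 := by
  by_contra hcon
  push Not at hcon
  obtain ⟨r, hr, hBr⟩ := Metric.eventually_nhds_iff_ball.mp hB.eventually_analyticAt
  have key : ∀ x y : ℂ, ‖x‖ < ‖y‖ → ‖y‖ < r → B (x, y) = 0 := by
    intro x y hxy hy
    have hy0 : y ≠ 0 := by
      intro h0
      rw [h0, norm_zero] at hxy
      exact absurd hxy (not_lt.mpr (norm_nonneg x))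
    have hm : ‖x / y‖ < 1 := by
      rw [norm_div, div_lt_one (norm_pos_iff.mpr hy0)]
      exact hxy
    have han : AnalyticOnNhd ℂ (fun z : ℂ => B (x / y * z, z)) (ball 0 r) := by
      intro z hz
      have h1 : AnalyticAt ℂ (fun z : ℂ => ((x / y * z, z) : ℂ × ℂ)) z :=
        (analyticAt_const.mul analyticAt_id).prod analyticAt_id
      have h2 : ((x / y * z, z) : ℂ × ℂ) ∈ ball (0 : ℂ × ℂ) r := by
        rw [mem_ball_zero_iff] at hz ⊢
        rw [Prod.norm_mk, norm_mul]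
        refine max_lt (lt_of_le_of_lt ?_ hz) hz
        have := norm_nonneg z
        nlinarith
      exact AnalyticAt.comp (g := B) (f := fun z : ℂ => ((x / y * z, z) : ℂ × ℂ)) (hBr _ h2) h1
    have hz := han.eqOn_zero_of_preconnected_of_eventuallyEq_zero
      (convex_ball (0 : ℂ) r).isPreconnected (mem_ball_self hr) (hcon (x / y))
    have h3 := hz (mem_ball_zero_iff.mpr hy)
    simp only [Pi.zero_apply] at h3
    rwa [div_mul_cancel₀ _ hy0] at h3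
  apply h
  have han : AnalyticOnNhd ℂ B (ball 0 r) := fun u hu => hBr u hu
  have hr2 : ‖((r / 2 : ℝ) : ℂ)‖ = r / 2 := by
    rw [Complex.norm_real, Real.norm_of_nonneg (by linarith)]
  have hp : (((0 : ℂ), ((r / 2 : ℝ) : ℂ)) : ℂ × ℂ) ∈ ball (0 : ℂ × ℂ) r := by
    rw [mem_ball_zero_iff, Prod.norm_mk, norm_zero, hr2]
    exact max_lt hr (by linarith)
  have hev : B =ᶠ[𝓝 (((0 : ℂ), ((r / 2 : ℝ) : ℂ)) : ℂ × ℂ)] 0 := by
    have ho : IsOpen {u : ℂ × ℂ | ‖u.1‖ < ‖u.2‖ ∧ ‖u.2‖ < r} := by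
      apply IsOpen.inter
      · exact isOpen_lt continuous_fst.norm continuous_snd.norm
      · exact isOpen_lt continuous_snd.norm continuous_const
    have hm : (((0 : ℂ), ((r / 2 : ℝ) : ℂ)) : ℂ × ℂ) ∈
        {u : ℂ × ℂ | ‖u.1‖ < ‖u.2‖ ∧ ‖u.2‖ < r} := by
      refine ⟨?_, ?_⟩
      · show ‖(0 : ℂ)‖ < ‖((r / 2 : ℝ) : ℂ)‖
        rw [hr2, norm_zero]
        linarith
      · show ‖((r / 2 : ℝ) : ℂ)‖ < r
        rw [hr2]
        linarith
    filter_upwards [ho.mem_nhds hm] with u hu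
    exact key u.1 u.2 hu.1 hu.2
  have hz := han.eqOn_zero_of_preconnected_of_eventuallyEq_zero
    (convex_ball (0 : ℂ × ℂ) r).isPreconnected hp hev
  filter_upwards [ball_mem_nhds (0 : ℂ × ℂ) hr] with u hu
  exact hz hu

theorem ld_of_vanish {A B : ℂ × ℂ → ℂ} {x y : ℂ} (hA : AnalyticAt ℂ A (x, y))
    (hB : AnalyticAt ℂ B (x, y)) {k : ℕ} (h1 : ∀ i < k, (dy^[i] A) (x, y) = 0)
    (h2 : ∀ i < k, (dy^[i] B) (x, y) = 0) (h3 : (dy^[k] B) (x, y) ≠ 0) : LD A B x y := by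
  have ha := CB4_slice hA
  have hb := CB4_slice hB
  have e1 : ∀ i < k, iteratedDeriv i (fun z => A (x, z)) y = 0 := by
    intro i hi
    rw [← iterate_dy_slice hA i]
    exact h1 i hi
  have e2 : ∀ i < k, iteratedDeriv i (fun z => B (x, z)) y = 0 := by
    intro i hi
    rw [← iterate_dy_slice hB i]
    exact h2 i hi
  have e3 : iteratedDeriv k (fun z => B (x, z)) y ≠ 0 := by
    have := iterate_dy_slice hB k
    simp only at this
    rw [← this]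
    exact h3
  have oa : (k : ℕ∞) ≤ analyticOrderAt (fun z => A (x, z)) y :=
    (natCast_le_analyticOrderAt_iff_iteratedDeriv_eq_zero ha).mpr e1
  have ob : (k : ℕ∞) ≤ analyticOrderAt (fun z => B (x, z)) y :=
    (natCast_le_analyticOrderAt_iff_iteratedDeriv_eq_zero hb).mpr e2
  have ob' : ¬ ((k + 1 : ℕ) : ℕ∞) ≤ analyticOrderAt (fun z => B (x, z)) y := by
    intro hle
    exact e3 ((natCast_le_analyticOrderAt_iff_iteratedDeriv_eq_zero hb).mp hle k (Nat.lt_succ_self k))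
  obtain ⟨a1, ha1, hea⟩ := (natCast_le_analyticOrderAt ha).mp oa
  obtain ⟨b1, hb1, heb⟩ := (natCast_le_analyticOrderAt hb).mp ob
  have hb1y : b1 y ≠ 0 := by
    intro h0
    apply ob'
    have ho1 : ((1 : ℕ) : ℕ∞) ≤ analyticOrderAt b1 y := by
      apply (natCast_le_analyticOrderAt_iff_iteratedDeriv_eq_zero hb1).mpr
      intro i hi
      have hi0 : i = 0 := by omega
      subst hi0
      simpa using h0
    obtain ⟨b2, hb2, heb2⟩ := (natCast_le_analyticOrderAt hb1).mp ho1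
    refine (natCast_le_analyticOrderAt hb).mpr ⟨b2, hb2, ?_⟩
    filter_upwards [heb, heb2] with z hz hz2
    rw [hz, hz2, smul_smul, ← pow_add]
  refine ⟨fun z => a1 z / b1 z, ha1.div hb1 hb1y, ?_⟩
  filter_upwards [hea, heb, hb1.continuousAt.eventually_ne hb1y] with z hza hzb hz1
  rw [hza, hzb, smul_eq_mul, smul_eq_mul]
  field_simp

/-- If `B (x, ·)` is not `0` near `y`, there is a first derivative which does not vanish. -/
theorem exists_order {B : ℂ × ℂ → ℂ} {x y : ℂ} (hB : AnalyticAt ℂ B (x, y))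
    (h : ¬ ∀ᶠ z in 𝓝 y, B (x, z) = 0) :
    ∃ k : ℕ, (∀ i < k, (dy^[i] B) (x, y) = 0) ∧ (dy^[k] B) (x, y) ≠ 0 := by
  have hb := CB4_slice hB
  have hne : analyticOrderAt (fun z => B (x, z)) y ≠ ⊤ := by
    intro h0
    exact h (analyticOrderAt_eq_top.mp h0)
  obtain ⟨k, hk⟩ := ENat.ne_top_iff_exists.mp hne
  refine ⟨k, ?_, ?_⟩
  · intro i hi
    rw [iterate_dy_slice hB i]
    exact (natCast_le_analyticOrderAt_iff_iteratedDeriv_eq_zero hb).mp hk.le i hi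
  · intro h0
    rw [iterate_dy_slice hB k] at h0
    have hle : ((k + 1 : ℕ) : ℕ∞) ≤ analyticOrderAt (fun z => B (x, z)) y := by
      apply (natCast_le_analyticOrderAt_iff_iteratedDeriv_eq_zero hb).mpr
      intro i hi
      rcases Nat.lt_succ_iff_lt_or_eq.mp hi with h1 | h1
      · exact (natCast_le_analyticOrderAt_iff_iteratedDeriv_eq_zero hb).mp hk.le i h1
      · rw [h1]
        exact h0
    rw [← hk] at hle
    have : k + 1 ≤ k := by exact_mod_cast hle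
    omega

theorem exists_implicit {G : ℂ × ℂ → ℂ} {x₁ y₁ : ℂ} (hG : AnalyticAt ℂ G (x₁, y₁))
    (h0 : G (x₁, y₁) = 0) (h1 : dy G (x₁, y₁) ≠ 0) :
    ∃ c : ℂ → ℂ, AnalyticAt ℂ c x₁ ∧ c x₁ = y₁ ∧
      ∀ᶠ u in 𝓝 ((x₁, y₁) : ℂ × ℂ), G u = 0 → u.2 = c u.1 := by
  set p : ℂ × ℂ := (x₁, y₁) with hp
  set F : ℂ × ℂ → ℂ × ℂ := fun u => (u.1, G u) with hF
  have hFa : AnalyticAt ℂ F p := analyticAt_fst.prod hG
  set L := fderiv ℂ G p with hL
  have hLy : L (0, 1) ≠ 0 := h1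
  have hFd : HasFDerivAt F ((ContinuousLinearMap.fst ℂ ℂ ℂ).prod L) p :=
    hasFDerivAt_fst.prodMk hG.differentiableAt.hasFDerivAt
  have hLab : ∀ a b : ℂ, L (a, b) = a * L (1, 0) + b * L (0, 1) := by
    intro a b
    have : ((a, b) : ℂ × ℂ) = a • ((1, 0) : ℂ × ℂ) + b • ((0, 1) : ℂ × ℂ) := by
      ext <;> simp
    rw [this, map_add, map_smul, map_smul, smul_eq_mul, smul_eq_mul]
  let e0 : (ℂ × ℂ) ≃ₗ[ℂ] (ℂ × ℂ) :=
    { toFun := fun u => (u.1, L u)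
      invFun := fun v => (v.1, (v.2 - v.1 * L (1, 0)) / L (0, 1))
      map_add' := by
        intro u v
        simp
      map_smul' := by
        intro c u
        simp
      left_inv := by
        intro u
        obtain ⟨a, b⟩ := u
        ext
        · rfl
        · simp only
          rw [hLab a b]
          field_simp
          ring
      right_inv := by
        intro v
        obtain ⟨a, b⟩ := v
        ext
        · rfl
        · simp only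
          rw [hLab]
          field_simp
          ring }
  let e : (ℂ × ℂ) ≃L[ℂ] (ℂ × ℂ) := e0.toContinuousLinearEquiv
  have he : (e : (ℂ × ℂ) →L[ℂ] (ℂ × ℂ)) = (ContinuousLinearMap.fst ℂ ℂ ℂ).prod L := by
    ext <;> rfl
  have hFd' : HasFDerivAt F (e : (ℂ × ℂ) →L[ℂ] (ℂ × ℂ)) p := by
    rw [he]
    exact hFd
  have hc : ContDiffAt ℂ (⊤ : WithTop ℕ∞) F p := hFa.contDiffAt
  have hn : (⊤ : WithTop ℕ∞) ≠ 0 := by
    simp
  have hFp : F p = (x₁, 0) := by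
    simp only [hF, hp]
    rw [h0]
  have hinv : AnalyticAt ℂ (hc.localInverse hFd' hn) (x₁, 0) := by
    rw [← hFp]
    exact (hc.to_localInverse hFd' hn).analyticAt
  have hmap : AnalyticAt ℂ (fun x : ℂ => ((x, 0) : ℂ × ℂ)) x₁ := analyticAt_id.prod analyticAt_const
  have hcomp : AnalyticAt ℂ (fun x : ℂ => hc.localInverse hFd' hn (x, 0)) x₁ :=
    AnalyticAt.comp (g := hc.localInverse hFd' hn) (f := fun x : ℂ => ((x, 0) : ℂ × ℂ)) hinv hmap
  refine ⟨fun x => (hc.localInverse hFd' hn (x, 0)).2, ?_, ?_, ?_⟩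
  · exact analyticAt_snd.comp hcomp
  · have := hc.localInverse_apply_image hFd' hn
    rw [hFp] at this
    simp only
    rw [this]
  · have hleft : ∀ᶠ u in 𝓝 p, hc.localInverse hFd' hn (F u) = u :=
      (hc.hasStrictFDerivAt' hFd' hn).eventually_left_inverse
    filter_upwards [hleft] with u hu hGu
    have h5 : F u = (u.1, 0) := by
      simp only [hF]
      rw [hGu]
    rw [h5] at hu
    rw [hu]

end Pool.Agent.H68.KR

end
end

section

/-!
# KR CB5: a curve of poles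

Proof of `exists_pole_curve` (`A / B` with `B (0, ·) ≠ 0`, no extension at `0`; `U` a neighbourhood of `0`).
Let `r > 0` with `ball 0 r ⊆ U` and `A, B` analytic on `ball 0 r`; `0 < ρ < r` with `B (0, y) ≠ 0` for `0 < |y| ≤ ρ`;
`0 < δ < r` with `B (x, y) ≠ 0` for `|x| < δ, |y| = ρ` (compactness).  For `|x| < δ` the function `B (x, ·)` is analytic
on `|y| < r`, not `0` on the circle `|y| = ρ`, so it does not vanish identically near any `y`, `|y| < r`.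
Let `Bad = {(x, y) | |x| < δ, |y| < ρ, ¬ LD A B x y}` and for `(x, y) ∈ Bad` let `k (x, y)` be the order of
`exists_order`.  `Bad` is not empty: otherwise `extend_of_slices` with `ρ₀ = ρ` applies.  Let `k` be the minimum of the
orders over `Bad`, attained at `(x₁, y₁)`: `dy^[i] B (x₁, y₁) = 0` for `i < k`, `dy^[k] B (x₁, y₁) ≠ 0`, and for every
`(x, y) ∈ Bad`: `dy^[i] B (x, y) = 0` for all `i < k`.  `k ≥ 1`: if `k = 0` then `ld_of_vanish` with `k = 0` says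
`LD A B x₁ y₁`.
Let `G = dy^[k-1] B`, `G (x₁, y₁) = 0`, `dy G (x₁, y₁) = dy^[k] B (x₁, y₁) ≠ 0`: `exists_implicit` gives `c₁`.
Put `c x = c₁ (x₁ + x)`.
Claim: for `x` near `0`, `x ≠ 0`: `(x₁ + x, c x) ∈ Bad`.  The pair `A (x₁ + ·, y₁ + ·), B (x₁ + ·, y₁ + ·)` has no
extension at `0` (otherwise `LD A B x₁ y₁`, `q z = Φ (0, z - y₁)`), so by `extend_of_slices` (contrapositive) for every
`ρ' > 0` and all `x ≠ 0` near `0` there is `y` with `|y - y₁| < ρ'` and `¬ LD A B (x₁ + x) y` (translate `LD`).  With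
`ρ'` and `x` so small that `|x₁ + x| < δ`, `|y| < ρ` and that the point is in the neighbourhood of `exists_implicit`:
`(x₁ + x, y) ∈ Bad`, `G (x₁ + x, y) = 0`, `y = c₁ (x₁ + x) = c x`.
The conclusions: `(x₁, c 0) = (x₁, y₁) ∈ U`; for `i < k`: `dy^[i] B (x₁ + x, c x) = 0` for `x ≠ 0` near `0` (and for
`x = 0`); `dy^[k] B (x₁, c 0) ≠ 0`; if for all `i < k` `dy^[i] A (x₁ + x, c x) = 0` for `x` near `0`, then take one
`x ≠ 0` near `0` for which all hold and `dy^[k] B (x₁ + x, c x) ≠ 0`: `ld_of_vanish` contradicts `Bad`.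

Proof of `exists_curve`.  `m` from `exists_direction`.  `A' (x, y) = A (x + m y, y)`, `B'` similarly; no extension
`Φ'` at `0` (otherwise `Φ (x, y) = Φ' (x - m y, y)`).  Apply `exists_pole_curve` to `A', B'` and the preimage of `U`.
For `θ = shear m x₁ c` and `f' (x, y) = f (x + m y, y)`: `f (θ u) = f' (x₁ + u.1, c u.1 + u.2)`, and for `x` near `0`
`dy^[i] (f ∘ θ) (x, 0) = (dy^[i] f') (x₁ + x, c x)` (`iterate_dy_slice` for both sides, `iteratedDeriv_comp_const_add`;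
the hypothesis of `iterate_dy_slice` holds at `(x, 0)` and `(x₁ + x, c x)` for `x` near `0`).
The `i`-th coefficient of `t2 (f ∘ θ)` is `C (1/i!) * t1 (fun x => dy^[i] (f ∘ θ) (x, 0))`, `0` iff the function is `0`
near `0` (`t1_congr`, `t1_eq_zero_iff`).  So `t2 (B ∘ θ)` has order `k` and `t2 (A ∘ θ)` has a non-zero coefficient of
index `< k` (`PowerSeries.order_eq_nat`, `PowerSeries.order_le`).
-/

set_option autoImplicit false

open Topology Filter Metric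

noncomputable section

namespace Pool.Agent.H68.KR

theorem analyticAt_shift (x₁ y₁ : ℂ) (p : ℂ × ℂ) :
    AnalyticAt ℂ (fun u : ℂ × ℂ => ((x₁ + u.1, y₁ + u.2) : ℂ × ℂ)) p :=
  AnalyticAt.prod (analyticAt_const.add analyticAt_fst) (analyticAt_const.add analyticAt_snd)

theorem ld_shift_of {A B : ℂ × ℂ → ℂ} {x₁ y₁ x y : ℂ}
    (h : LD A B (x₁ + x) (y₁ + y)) :
    LD (fun u => A (x₁ + u.1, y₁ + u.2)) (fun u => B (x₁ + u.1, y₁ + u.2)) x y := by
  obtain ⟨q, hq, he⟩ := h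
  refine ⟨fun z => q (y₁ + z), ?_, ?_⟩
  · have h1 : AnalyticAt ℂ q ((fun z => y₁ + z) y) := hq
    exact AnalyticAt.fun_comp h1 (by fun_prop)
  · have hc : ContinuousAt (fun z : ℂ => y₁ + z) y := by fun_prop
    have ht : Tendsto (fun z : ℂ => y₁ + z) (𝓝 y) (𝓝 (y₁ + y)) := hc
    filter_upwards [ht.eventually he] with z hz
    simpa using hz

theorem ld_of_ext {A B Φ : ℂ × ℂ → ℂ} {x₁ y₁ : ℂ} (hΦ : AnalyticAt ℂ Φ 0)
    (h : ∀ᶠ u in 𝓝 (0 : ℂ × ℂ), A (x₁ + u.1, y₁ + u.2) = B (x₁ + u.1, y₁ + u.2) * Φ u) :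
    LD A B x₁ y₁ := by
  refine ⟨fun z => Φ (0, z - y₁), ?_, ?_⟩
  · have h1 : AnalyticAt ℂ Φ ((fun z : ℂ => ((0 : ℂ), z - y₁)) y₁) := by
      simpa [Prod.zero_eq_mk] using hΦ
    exact AnalyticAt.fun_comp h1 (by fun_prop)
  · have hc : ContinuousAt (fun z : ℂ => ((0 : ℂ), z - y₁)) y₁ := by fun_prop
    have ht : Tendsto (fun z : ℂ => ((0 : ℂ), z - y₁)) (𝓝 y₁) (𝓝 0) := by
      have h2 := hc.tendsto
      simpa [Prod.zero_eq_mk] using h2
    filter_upwards [ht.eventually h] with z hz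
    simpa using hz

theorem eventually_of_punctured {P : ℂ → Prop} (h : ∀ᶠ x in 𝓝[≠] (0 : ℂ), P x) (h0 : P 0) :
    ∀ᶠ x in 𝓝 (0 : ℂ), P x := by
  rw [eventually_nhdsWithin_iff] at h
  filter_upwards [h] with x hx
  by_cases hx0 : x = 0
  · rw [hx0]; exact h0
  · exact hx hx0

/-- The point of minimal order and the implicit function. -/
theorem exists_min {A B : ℂ × ℂ → ℂ} (hA : AnalyticAt ℂ A 0) (hB : AnalyticAt ℂ B 0)
    (hB0 : ¬ ∀ᶠ y in 𝓝 (0 : ℂ), B (0, y) = 0)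
    (hne : ¬ ∃ Φ : ℂ × ℂ → ℂ, AnalyticAt ℂ Φ 0 ∧ ∀ᶠ u in 𝓝 (0 : ℂ × ℂ), A u = B u * Φ u)
    {U : Set (ℂ × ℂ)} (hU : U ∈ 𝓝 (0 : ℂ × ℂ)) :
    ∃ (V : Set (ℂ × ℂ)) (k : ℕ) (x₁ y₁ : ℂ), IsOpen V ∧ ((x₁, y₁) : ℂ × ℂ) ∈ V ∧
      (∀ u ∈ V, AnalyticAt ℂ A u ∧ AnalyticAt ℂ B u ∧ u ∈ U) ∧
      (∀ x y : ℂ, (x, y) ∈ V → ¬ LD A B x y → ∀ i < k, (dy^[i] B) (x, y) = 0) ∧
      ¬ LD A B x₁ y₁ ∧ (dy^[k] B) (x₁, y₁) ≠ 0 ∧ 0 < k ∧
      ¬ ∀ᶠ z in 𝓝 y₁, B (x₁, z) = 0 := by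
  obtain ⟨r, hr0, hr⟩ : ∃ r > 0, ∀ u ∈ ball (0 : ℂ × ℂ) r, AnalyticAt ℂ A u ∧ AnalyticAt ℂ B u ∧ u ∈ U := by
    have h := (hA.eventually_analyticAt.and hB.eventually_analyticAt).and hU
    obtain ⟨r, hr0, hr⟩ := Metric.eventually_nhds_iff_ball.1 h
    exact ⟨r, hr0, fun u hu => ⟨(hr u hu).1.1, (hr u hu).1.2, (hr u hu).2⟩⟩
  have hrr : ∀ x y : ℂ, ‖x‖ < r → ‖y‖ < r → ((x, y) : ℂ × ℂ) ∈ ball (0 : ℂ × ℂ) r := by
    intro x y hx hy
    rw [mem_ball_zero_iff, Prod.norm_def]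
    exact max_lt hx hy
  have hb0 : AnalyticAt ℂ (fun y : ℂ => B (0, y)) 0 := by
    have h1 : AnalyticAt ℂ B ((fun y : ℂ => ((0 : ℂ), y)) 0) := by
      simpa [Prod.zero_eq_mk] using hB
    exact AnalyticAt.fun_comp h1 (by fun_prop)
  obtain ⟨ε, hε0, hε⟩ : ∃ ε > 0, ∀ y : ℂ, ‖y‖ < ε → y ≠ 0 → B (0, y) ≠ 0 := by
    rcases hb0.eventually_eq_zero_or_eventually_ne_zero with h | h
    · exact absurd h hB0
    · rw [eventually_nhdsWithin_iff, Metric.eventually_nhds_iff_ball] at h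
      obtain ⟨ε, hε0, hε⟩ := h
      exact ⟨ε, hε0, fun y hy hy0 => hε y (mem_ball_zero_iff.2 hy) hy0⟩
  set ρ : ℝ := min ε r / 2 with hρdef
  have hm0 : 0 < min ε r := lt_min hε0 hr0
  have hρ0 : 0 < ρ := by positivity
  have hρε : ρ < ε := lt_of_lt_of_le (by rw [hρdef]; linarith) (min_le_left ε r)
  have hρr : ρ < r := lt_of_lt_of_le (by rw [hρdef]; linarith) (min_le_right ε r)
  obtain ⟨δ₀, hδ0, hδ⟩ : ∃ δ₀ > 0, ∀ x : ℂ, ‖x‖ < δ₀ → ∀ y ∈ sphere (0 : ℂ) ρ, B (x, y) ≠ 0 := by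
    have h := (isCompact_sphere (0 : ℂ) ρ).eventually_forall_of_forall_eventually
      (x₀ := (0 : ℂ)) (P := fun x y => B (x, y) ≠ 0) (by
        intro y hy
        have hy' : ‖y‖ = ρ := by simpa using hy
        have hne0 : y ≠ 0 := by
          rintro rfl
          rw [norm_zero] at hy'
          linarith
        have h1 : B (0, y) ≠ 0 := hε y (by rw [hy']; exact hρε) hne0
        have h2 : AnalyticAt ℂ B (0, y) := (hr _ (hrr 0 y (by simpa using hr0) (by rw [hy']; exact hρr))).2.1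
        have h3 : ∀ᶠ z in 𝓝 ((0, y) : ℂ × ℂ), B z ≠ 0 := h2.continuousAt.eventually_ne h1
        filter_upwards [h3] with z hz
        exact hz)
    rw [Metric.eventually_nhds_iff_ball] at h
    obtain ⟨δ₀, hδ0, hδ⟩ := h
    exact ⟨δ₀, hδ0, fun x hx => hδ x (mem_ball_zero_iff.2 hx)⟩
  set δ : ℝ := min δ₀ r with hδdef
  have hδp : 0 < δ := lt_min hδ0 hr0
  have hδr : δ ≤ r := min_le_right _ _
  have hδδ : δ ≤ δ₀ := min_le_left _ _
  have hnz : ∀ x y : ℂ, ‖x‖ < δ → ‖y‖ < r → ¬ ∀ᶠ z in 𝓝 y, B (x, z) = 0 := by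
    intro x y hx hy h
    have han : AnalyticOnNhd ℂ (fun z : ℂ => B (x, z)) (ball (0 : ℂ) r) := by
      intro z hz
      have h1 : AnalyticAt ℂ B ((fun z : ℂ => (x, z)) z) :=
        (hr _ (hrr x z (lt_of_lt_of_le hx hδr) (mem_ball_zero_iff.1 hz))).2.1
      exact AnalyticAt.fun_comp h1 (by fun_prop)
    have h2 := han.eqOn_zero_of_preconnected_of_eventuallyEq_zero
      (convex_ball (0 : ℂ) r).isPreconnected (mem_ball_zero_iff.2 hy) h
    have hρn : ‖(ρ : ℂ)‖ = ρ := by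
      rw [Complex.norm_real, Real.norm_of_nonneg hρ0.le]
    have h3 := h2 (x := (ρ : ℂ)) (mem_ball_zero_iff.2 (by rw [hρn]; exact hρr))
    exact hδ x (lt_of_lt_of_le hx hδδ) (ρ : ℂ) (by simp [hρ0.le]) h3
  have hex : ∃ x y : ℂ, ‖x‖ < δ ∧ ‖y‖ < ρ ∧ ¬ LD A B x y := by
    by_contra hcon
    push Not at hcon
    apply hne
    apply extend_of_slices hA hB hB0 hρ0
    apply Eventually.frequently
    rw [eventually_nhdsWithin_iff, Metric.eventually_nhds_iff_ball]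
    exact ⟨δ, hδp, fun x hx _ y hy => hcon x y (mem_ball_zero_iff.1 hx) (mem_ball_zero_iff.1 hy)⟩
  have hord : ∀ x y : ℂ, ‖x‖ < δ → ‖y‖ < ρ →
      ∃ k : ℕ, (∀ i < k, (dy^[i] B) (x, y) = 0) ∧ (dy^[k] B) (x, y) ≠ 0 := by
    intro x y hx hy
    exact exists_order (hr _ (hrr x y (lt_of_lt_of_le hx hδr) (hy.trans hρr))).2.1
      (hnz x y hx (hy.trans hρr))
  have hK : ∃ k : ℕ, ∃ x y : ℂ, ‖x‖ < δ ∧ ‖y‖ < ρ ∧ ¬ LD A B x y ∧
      (∀ i < k, (dy^[i] B) (x, y) = 0) ∧ (dy^[k] B) (x, y) ≠ 0 := by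
    obtain ⟨x, y, hx, hy, hL⟩ := hex
    obtain ⟨k, hk⟩ := hord x y hx hy
    exact ⟨k, x, y, hx, hy, hL, hk⟩
  classical
  set k := Nat.find hK with hkdef
  obtain ⟨x₁, y₁, hx₁, hy₁, hL₁, hk1, hk2⟩ := Nat.find_spec hK
  rw [← hkdef] at hk1 hk2
  have hmin : ∀ x y : ℂ, ‖x‖ < δ → ‖y‖ < ρ → ¬ LD A B x y → ∀ i < k, (dy^[i] B) (x, y) = 0 := by
    intro x y hx hy hL i hi
    obtain ⟨j, hj1, hj2⟩ := hord x y hx hy
    have hkj : k ≤ j := Nat.find_min' hK ⟨x, y, hx, hy, hL, hj1, hj2⟩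
    exact hj1 i (lt_of_lt_of_le hi hkj)
  have hpt := hr _ (hrr x₁ y₁ (lt_of_lt_of_le hx₁ hδr) (hy₁.trans hρr))
  refine ⟨ball (0 : ℂ) δ ×ˢ ball (0 : ℂ) ρ, k, x₁, y₁, isOpen_ball.prod isOpen_ball, ?_, ?_, ?_,
    hL₁, hk2, ?_, hnz x₁ y₁ hx₁ (hy₁.trans hρr)⟩
  · exact ⟨mem_ball_zero_iff.2 hx₁, mem_ball_zero_iff.2 hy₁⟩
  · intro u hu
    exact hr _ (hrr u.1 u.2 (lt_of_lt_of_le (mem_ball_zero_iff.1 hu.1) hδr)
      ((mem_ball_zero_iff.1 hu.2).trans hρr))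
  · intro x y hxy hL
    exact hmin x y (mem_ball_zero_iff.1 hxy.1) (mem_ball_zero_iff.1 hxy.2) hL
  · by_contra h0
    have hk0 : k = 0 := by omega
    apply hL₁
    apply ld_of_vanish hpt.1 hpt.2.1 (k := k)
    · intro i hi
      omega
    · exact hk1
    · exact hk2

theorem exists_pole_curve {A B : ℂ × ℂ → ℂ} (hA : AnalyticAt ℂ A 0) (hB : AnalyticAt ℂ B 0)
    (hB0 : ¬ ∀ᶠ y in 𝓝 (0 : ℂ), B (0, y) = 0)
    (hne : ¬ ∃ Φ : ℂ × ℂ → ℂ, AnalyticAt ℂ Φ 0 ∧ ∀ᶠ u in 𝓝 (0 : ℂ × ℂ), A u = B u * Φ u)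
    {U : Set (ℂ × ℂ)} (hU : U ∈ 𝓝 (0 : ℂ × ℂ)) :
    ∃ (x₁ : ℂ) (c : ℂ → ℂ) (k : ℕ), AnalyticAt ℂ c 0 ∧ ((x₁, c 0) : ℂ × ℂ) ∈ U ∧
      AnalyticAt ℂ A (x₁, c 0) ∧ AnalyticAt ℂ B (x₁, c 0) ∧
      (∀ i < k, ∀ᶠ x in 𝓝 (0 : ℂ), (dy^[i] B) (x₁ + x, c x) = 0) ∧ (dy^[k] B) (x₁, c 0) ≠ 0 ∧
      ∃ i < k, ¬ ∀ᶠ x in 𝓝 (0 : ℂ), (dy^[i] A) (x₁ + x, c x) = 0 := by
  obtain ⟨V, k, x₁, y₁, hVo, hV1, hV, hmin, hL₁, hk2, hk0, hnz⟩ := exists_min hA hB hB0 hne hU
  obtain ⟨n, rfl⟩ : ∃ n, k = n + 1 := ⟨k - 1, by omega⟩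
  have hA1 : AnalyticAt ℂ A (x₁, y₁) := (hV _ hV1).1
  have hB1 : AnalyticAt ℂ B (x₁, y₁) := (hV _ hV1).2.1
  have hG : AnalyticAt ℂ (dy^[n] B) (x₁, y₁) := analyticAt_iterate_dy hB1 n
  have hk1 := hmin x₁ y₁ hV1 hL₁
  have hG1 : dy (dy^[n] B) (x₁, y₁) ≠ 0 := by
    rw [Function.iterate_succ_apply'] at hk2
    exact hk2
  obtain ⟨c₁, hc₁, hc₁0, hc₁e⟩ := exists_implicit hG (hk1 n (Nat.lt_succ_self n)) hG1
  have hc : AnalyticAt ℂ (fun x : ℂ => c₁ (x₁ + x)) 0 := by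
    have h1 : AnalyticAt ℂ c₁ ((fun x : ℂ => x₁ + x) 0) := by simpa using hc₁
    exact AnalyticAt.fun_comp h1 (by fun_prop)
  have hc0 : (fun x : ℂ => c₁ (x₁ + x)) 0 = y₁ := by simpa using hc₁0
  have hA2 : AnalyticAt ℂ (fun u : ℂ × ℂ => A (x₁ + u.1, y₁ + u.2)) 0 := by
    have h1 : AnalyticAt ℂ A ((fun u : ℂ × ℂ => (x₁ + u.1, y₁ + u.2)) 0) := by simpa using hA1
    exact AnalyticAt.fun_comp h1 (analyticAt_shift x₁ y₁ 0)
  have hB2 : AnalyticAt ℂ (fun u : ℂ × ℂ => B (x₁ + u.1, y₁ + u.2)) 0 := by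
    have h1 : AnalyticAt ℂ B ((fun u : ℂ × ℂ => (x₁ + u.1, y₁ + u.2)) 0) := by simpa using hB1
    exact AnalyticAt.fun_comp h1 (analyticAt_shift x₁ y₁ 0)
  have hB3 : ¬ ∀ᶠ y in 𝓝 (0 : ℂ), (fun u : ℂ × ℂ => B (x₁ + u.1, y₁ + u.2)) (0, y) = 0 := by
    intro h
    apply hnz
    have hcs : ContinuousAt (fun z : ℂ => z - y₁) y₁ := by fun_prop
    have ht : Tendsto (fun z : ℂ => z - y₁) (𝓝 y₁) (𝓝 0) := by
      have h2 := hcs.tendsto
      simpa using h2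
    filter_upwards [ht.eventually h] with z hz
    simpa using hz
  have hne2 : ¬ ∃ Φ : ℂ × ℂ → ℂ, AnalyticAt ℂ Φ 0 ∧ ∀ᶠ u in 𝓝 (0 : ℂ × ℂ),
      (fun u : ℂ × ℂ => A (x₁ + u.1, y₁ + u.2)) u = (fun u : ℂ × ℂ => B (x₁ + u.1, y₁ + u.2)) u * Φ u := by
    rintro ⟨Φ, hΦ, he⟩
    exact hL₁ (ld_of_ext hΦ he)
  obtain ⟨ε, hε0, hε⟩ : ∃ ε > 0, ∀ u ∈ ball ((x₁, y₁) : ℂ × ℂ) ε,
      u ∈ V ∧ ((dy^[n] B) u = 0 → u.2 = c₁ u.1) := by
    have h := (hVo.mem_nhds hV1 : V ∈ 𝓝 ((x₁, y₁) : ℂ × ℂ))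
    have h2 : ∀ᶠ u in 𝓝 ((x₁, y₁) : ℂ × ℂ), u ∈ V ∧ ((dy^[n] B) u = 0 → u.2 = c₁ u.1) :=
      Filter.Eventually.and h hc₁e
    exact Metric.eventually_nhds_iff_ball.1 h2
  have hbad : ∀ᶠ x in 𝓝[≠] (0 : ℂ), ((x₁ + x, c₁ (x₁ + x)) : ℂ × ℂ) ∈ V ∧
      ¬ LD A B (x₁ + x) (c₁ (x₁ + x)) := by
    have h1 : ¬ ∃ᶠ x in 𝓝[≠] (0 : ℂ), ∀ y ∈ ball (0 : ℂ) ε,
        LD (fun u : ℂ × ℂ => A (x₁ + u.1, y₁ + u.2)) (fun u : ℂ × ℂ => B (x₁ + u.1, y₁ + u.2)) x y := by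
      intro h
      exact hne2 (extend_of_slices hA2 hB2 hB3 hε0 h)
    rw [Filter.not_frequently] at h1
    have h2 : ∀ᶠ x in 𝓝[≠] (0 : ℂ), x ∈ ball (0 : ℂ) ε :=
      mem_nhdsWithin_of_mem_nhds (ball_mem_nhds 0 hε0)
    filter_upwards [h1, h2] with x hx hxε
    push Not at hx
    obtain ⟨y, hy, hLy⟩ := hx
    have hmem : ((x₁ + x, y₁ + y) : ℂ × ℂ) ∈ ball ((x₁, y₁) : ℂ × ℂ) ε := by
      rw [mem_ball, Prod.dist_eq]
      simp only [dist_eq_norm, add_sub_cancel_left]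
      exact max_lt (mem_ball_zero_iff.1 hxε) (mem_ball_zero_iff.1 hy)
    obtain ⟨hv, himp⟩ := hε _ hmem
    have hLD : ¬ LD A B (x₁ + x) (y₁ + y) := fun h => hLy (ld_shift_of h)
    have hG0 := hmin _ _ hv hLD n (Nat.lt_succ_self n)
    have hy2 : y₁ + y = c₁ (x₁ + x) := himp hG0
    rw [← hy2]
    exact ⟨hv, hLD⟩
  refine ⟨x₁, fun x => c₁ (x₁ + x), n + 1, hc, ?_, ?_, ?_, ?_, ?_, ?_⟩
  · rw [hc0]; exact (hV _ hV1).2.2
  · rw [hc0]; exact hA1
  · rw [hc0]; exact hB1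
  · intro i hi
    apply eventually_of_punctured
    · filter_upwards [hbad] with x hx
      exact hmin _ _ hx.1 hx.2 i hi
    · rw [add_zero, hc0]
      exact hk1 i hi
  · rw [hc0]; exact hk2
  · by_contra hcon
    push Not at hcon
    have h1 : ∀ᶠ x in 𝓝 (0 : ℂ), ∀ i ∈ Finset.range (n + 1), (dy^[i] A) (x₁ + x, c₁ (x₁ + x)) = 0 := by
      rw [Filter.eventually_all_finset]
      intro i hi
      exact hcon i (Finset.mem_range.1 hi)
    have h2 : ∀ᶠ x in 𝓝 (0 : ℂ), (dy^[n + 1] B) (x₁ + x, c₁ (x₁ + x)) ≠ 0 := by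
      have h3 : AnalyticAt ℂ (dy^[n + 1] B) ((fun x : ℂ => (x₁ + x, c₁ (x₁ + x))) 0) := by
        have h4 : ((fun x : ℂ => (x₁ + x, c₁ (x₁ + x))) 0 : ℂ × ℂ) = (x₁, y₁) := by
          simp [hc₁0]
        rw [h4]
        exact analyticAt_iterate_dy hB1 (n + 1)
      have h5 : AnalyticAt ℂ (fun x : ℂ => ((x₁ + x, c₁ (x₁ + x)) : ℂ × ℂ)) 0 :=
        AnalyticAt.prod (by fun_prop) hc
      have h6 : AnalyticAt ℂ (fun x : ℂ => (dy^[n + 1] B) ((fun x : ℂ => (x₁ + x, c₁ (x₁ + x))) x)) 0 :=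
        AnalyticAt.fun_comp (f := fun x : ℂ => ((x₁ + x, c₁ (x₁ + x)) : ℂ × ℂ)) h3 h5
      exact h6.continuousAt.eventually_ne (by simpa [hc₁0] using hk2)
    have h3 : ∀ᶠ x in 𝓝[≠] (0 : ℂ), False := by
      filter_upwards [hbad, nhdsWithin_le_nhds h1, nhdsWithin_le_nhds h2] with x hx1 hx2 hx3
      apply hx1.2
      apply ld_of_vanish (hV _ hx1.1).1 (hV _ hx1.1).2.1 (k := n + 1)
      · intro i hi
        exact hx2 i (Finset.mem_range.2 hi)
      · intro i hi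
        exact hmin _ _ hx1.1 hx1.2 i hi
      · exact hx3
    simpa using h3.exists

/-- The coordinate change `(x, y) ↦ (x₁ + x + m (c x + y), c x + y)`. -/
def shear (m x₁ : ℂ) (c : ℂ → ℂ) (u : ℂ × ℂ) : ℂ × ℂ :=
  (x₁ + u.1 + m * (c u.1 + u.2), c u.1 + u.2)

theorem iterate_dy_shift {f : ℂ × ℂ → ℂ} {c : ℂ → ℂ} {x₁ : ℂ} (hc : AnalyticAt ℂ c 0)
    (hf : AnalyticAt ℂ f (x₁, c 0)) (i : ℕ) :
    AnalyticAt ℂ (fun u : ℂ × ℂ => f (x₁ + u.1, c u.1 + u.2)) 0 ∧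
    ∀ᶠ x in 𝓝 (0 : ℂ), (dy^[i] fun u : ℂ × ℂ => f (x₁ + u.1, c u.1 + u.2)) (x, 0) =
      (dy^[i] f) (x₁ + x, c x) := by
  have hσ : AnalyticAt ℂ (fun u : ℂ × ℂ => ((x₁ + u.1, c u.1 + u.2) : ℂ × ℂ)) 0 := by
    have h1 : AnalyticAt ℂ (fun u : ℂ × ℂ => c u.1) 0 :=
      AnalyticAt.fun_comp (f := fun u : ℂ × ℂ => u.1) hc analyticAt_fst
    exact AnalyticAt.prod (analyticAt_const.add analyticAt_fst) (h1.add analyticAt_snd)
  have hfσ : AnalyticAt ℂ (fun u : ℂ × ℂ => f (x₁ + u.1, c u.1 + u.2)) 0 :=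
    AnalyticAt.fun_comp (f := fun u : ℂ × ℂ => ((x₁ + u.1, c u.1 + u.2) : ℂ × ℂ))
      (by simpa using hf) hσ
  refine ⟨hfσ, ?_⟩
  have ht1 : Tendsto (fun x : ℂ => ((x, 0) : ℂ × ℂ)) (𝓝 0) (𝓝 0) := by
    have h1 : ContinuousAt (fun x : ℂ => ((x, 0) : ℂ × ℂ)) 0 := by fun_prop
    simpa [Prod.zero_eq_mk] using h1.tendsto
  have ht2 : Tendsto (fun x : ℂ => ((x₁ + x, c x) : ℂ × ℂ)) (𝓝 0) (𝓝 (x₁, c 0)) := by
    have h0 : ContinuousAt c 0 := hc.continuousAt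
    have h1 : ContinuousAt (fun x : ℂ => ((x₁ + x, c x) : ℂ × ℂ)) 0 := by fun_prop
    simpa using h1.tendsto
  filter_upwards [ht1.eventually hfσ.eventually_analyticAt, ht2.eventually hf.eventually_analyticAt]
    with x hx1 hx2
  rw [iterate_dy_slice hx1 i, iterate_dy_slice hx2 i]
  have h3 := congrFun (iteratedDeriv_comp_const_add i (fun y : ℂ => f (x₁ + x, y)) (c x)) 0
  rw [add_zero] at h3
  exact h3

theorem coeff_t2_iff {g : ℂ × ℂ → ℂ} (hg : AnalyticAt ℂ g 0) (i : ℕ) :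
    PowerSeries.coeff i (t2 g) = 0 ↔ ∀ᶠ x in 𝓝 (0 : ℂ), (dy^[i] g) (x, 0) = 0 := by
  have h1 : AnalyticAt ℂ (fun x : ℂ => (dy^[i] g) (x, 0)) 0 :=
    AnalyticAt.fun_comp (f := fun x : ℂ => ((x, 0) : ℂ × ℂ))
      (by simpa [Prod.zero_eq_mk] using analyticAt_iterate_dy hg i)
      (AnalyticAt.prod analyticAt_id analyticAt_const)
  rw [← t1_eq_zero_iff h1, t2, PowerSeries.coeff_mk, mul_eq_zero]
  constructor
  · rintro (h | h)
    · exfalso
      have h2 := congrArg PowerSeries.constantCoeff h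
      rw [PowerSeries.constantCoeff_C, map_zero, inv_eq_zero, Nat.cast_eq_zero] at h2
      exact Nat.factorial_ne_zero i h2
    · exact h
  · exact Or.inr

theorem coeff_shear_iff {f : ℂ × ℂ → ℂ} {c : ℂ → ℂ} (m x₁ : ℂ) (hc : AnalyticAt ℂ c 0)
    (hf : AnalyticAt ℂ (fun u : ℂ × ℂ => f (u.1 + m * u.2, u.2)) (x₁, c 0)) (i : ℕ) :
    PowerSeries.coeff i (t2 fun u => f (shear m x₁ c u)) = 0 ↔
      ∀ᶠ x in 𝓝 (0 : ℂ), (dy^[i] fun u : ℂ × ℂ => f (u.1 + m * u.2, u.2)) (x₁ + x, c x) = 0 := by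
  obtain ⟨h1, h2⟩ := iterate_dy_shift (f := fun u : ℂ × ℂ => f (u.1 + m * u.2, u.2)) hc hf i
  have h3 : (fun u => f (shear m x₁ c u)) = fun u : ℂ × ℂ =>
      (fun u : ℂ × ℂ => f (u.1 + m * u.2, u.2)) (x₁ + u.1, c u.1 + u.2) := rfl
  rw [h3, coeff_t2_iff h1 i]
  exact Filter.eventually_congr (h2.mono fun x hx => by rw [hx])

/-- If `A / B` has no analytic extension at `0`, there are coordinates near a point close to `0` in which `B` is
divisible by a higher power of the second coordinate than `A`. -/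
theorem exists_curve {A B : ℂ × ℂ → ℂ} (hA : AnalyticAt ℂ A 0) (hB : AnalyticAt ℂ B 0)
    (hB0 : ¬ ∀ᶠ u in 𝓝 (0 : ℂ × ℂ), B u = 0)
    (hne : ¬ ∃ Φ : ℂ × ℂ → ℂ, AnalyticAt ℂ Φ 0 ∧ ∀ᶠ u in 𝓝 (0 : ℂ × ℂ), A u = B u * Φ u)
    {U : Set (ℂ × ℂ)} (hU : U ∈ 𝓝 (0 : ℂ × ℂ)) :
    ∃ (m x₁ : ℂ) (c : ℂ → ℂ) (j k : ℕ), AnalyticAt ℂ c 0 ∧ shear m x₁ c 0 ∈ U ∧
      (t2 fun u => A (shear m x₁ c u)).order = j ∧ (t2 fun u => B (shear m x₁ c u)).order = k ∧
      j < k := by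
  obtain ⟨m, hm⟩ := exists_direction hB hB0
  have hτ : ∀ p : ℂ × ℂ, AnalyticAt ℂ (fun u : ℂ × ℂ => ((u.1 + m * u.2, u.2) : ℂ × ℂ)) p := fun p =>
    AnalyticAt.prod (analyticAt_fst.add (analyticAt_const.mul analyticAt_snd)) analyticAt_snd
  have hτ' : ∀ p : ℂ × ℂ, AnalyticAt ℂ (fun u : ℂ × ℂ => ((u.1 - m * u.2, u.2) : ℂ × ℂ)) p := fun p =>
    AnalyticAt.prod (analyticAt_fst.sub (analyticAt_const.mul analyticAt_snd)) analyticAt_snd
  have hA' : AnalyticAt ℂ (fun u : ℂ × ℂ => A (u.1 + m * u.2, u.2)) 0 :=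
    AnalyticAt.fun_comp (f := fun u : ℂ × ℂ => ((u.1 + m * u.2, u.2) : ℂ × ℂ))
      (by simpa [Prod.zero_eq_mk] using hA) (hτ 0)
  have hB' : AnalyticAt ℂ (fun u : ℂ × ℂ => B (u.1 + m * u.2, u.2)) 0 :=
    AnalyticAt.fun_comp (f := fun u : ℂ × ℂ => ((u.1 + m * u.2, u.2) : ℂ × ℂ))
      (by simpa [Prod.zero_eq_mk] using hB) (hτ 0)
  have hB0' : ¬ ∀ᶠ y in 𝓝 (0 : ℂ), (fun u : ℂ × ℂ => B (u.1 + m * u.2, u.2)) (0, y) = 0 := by
    intro h
    apply hm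
    filter_upwards [h] with y hy
    simpa using hy
  have hne' : ¬ ∃ Φ : ℂ × ℂ → ℂ, AnalyticAt ℂ Φ 0 ∧ ∀ᶠ u in 𝓝 (0 : ℂ × ℂ),
      (fun u : ℂ × ℂ => A (u.1 + m * u.2, u.2)) u = (fun u : ℂ × ℂ => B (u.1 + m * u.2, u.2)) u * Φ u := by
    rintro ⟨Φ, hΦ, he⟩
    apply hne
    refine ⟨fun u => Φ (u.1 - m * u.2, u.2), ?_, ?_⟩
    · exact AnalyticAt.fun_comp (f := fun u : ℂ × ℂ => ((u.1 - m * u.2, u.2) : ℂ × ℂ))
        (by simpa [Prod.zero_eq_mk] using hΦ) (hτ' 0)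
    · have ht : Tendsto (fun u : ℂ × ℂ => ((u.1 - m * u.2, u.2) : ℂ × ℂ)) (𝓝 0) (𝓝 0) := by
        have h2 := (hτ' 0).continuousAt.tendsto
        simpa [Prod.zero_eq_mk] using h2
      filter_upwards [ht.eventually he] with u hu
      simpa using hu
  have hU' : (fun u : ℂ × ℂ => ((u.1 + m * u.2, u.2) : ℂ × ℂ)) ⁻¹' U ∈ 𝓝 (0 : ℂ × ℂ) := by
    apply (hτ 0).continuousAt.preimage_mem_nhds
    simpa [Prod.zero_eq_mk] using hU
  obtain ⟨x₁, c, k, hc, hmem, hA1, hB1, hv, hnv, i, hi, hiA⟩ := exists_pole_curve hA' hB' hB0' hne' hU'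
  have hcoefA := coeff_shear_iff m x₁ hc hA1
  have hcoefB := coeff_shear_iff m x₁ hc hB1
  have hex : ∃ i, PowerSeries.coeff i (t2 fun u => A (shear m x₁ c u)) ≠ 0 :=
    ⟨i, fun h => hiA ((hcoefA i).1 h)⟩
  classical
  refine ⟨m, x₁, c, Nat.find hex, k, hc, ?_, ?_, ?_, ?_⟩
  · have h : shear m x₁ c 0 = (x₁ + m * c 0, c 0) := by
      simp [shear]
    rw [h]
    exact hmem
  · rw [PowerSeries.order_eq_nat]
    refine ⟨Nat.find_spec hex, fun l hl => ?_⟩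
    have := Nat.find_min hex hl
    push Not at this
    exact this
  · rw [PowerSeries.order_eq_nat]
    refine ⟨fun h => ?_, fun l hl => (hcoefB l).2 (hv l hl)⟩
    have h2 := ((hcoefB k).1 h).self_of_nhds
    rw [add_zero] at h2
    exact hnv h2
  · exact lt_of_le_of_lt (Nat.find_min' hex fun h => hiA ((hcoefA i).1 h)) hi

end Pool.Agent.H68.KR

end
end
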