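import Pool.Agent.H43.TL2.M15
import Pool.Agent.H43.TL2.M23
import Pool.Agent.H43.TL2.M27
import Pool.Agent.H43.TL2.M37
import Pool.Agent.H43.TL2.M42
import Pool.Agent.H43.TL2.M44
import Pool.Agent.H43.TL2.M47
import Pool.Agent.H43.TL2.M50
import Pool.Agent.H43.TL2.M60
import Pool.Agent.H43.TL2.M62

/-! The parts of this file: H13.CV.MerP, H36.BPL.CurveK, H13.CV.Cub, H36.LB.PNDefs, H36.LB.PNConv, H13.CV.HomM, H7.Qup.Hom, MQ.CDefs, MQ.LeafReg, MQ.Ord, MQ.Sieg, MQ.OrdV, MQ2.Equ, MQ2.LeafS0, MQ3.GlobE. -/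

section

/-!
# CV MerP: the place under a point of `ℂ`, homomorphisms into the field of meromorphic functions

`exists_placeM`: `v g = ordM z₀ (φ g)` is a valuation of `K` (`φ` is injective), trivial on the constants.  It is not trivial: let `x` be transcendental (`hK.exists_tr`), or its inverse, with `0 ≤ v x`; `c` with
`0 < ordM z₀ (φ x - c)` (`exists_valueM`), so `0 < v (x - c)`, finite as `x ≠ c`.  So the values of `v` on `K ∖ {0}` form a non-zero subgroup of `ℤ`, equal to `e ℤ` with `e ≥ 1`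
(`Int.subgroup_cyclic`, or the least positive value).  `E.ord g = v g / e` (an integer or `⊤`), `AddValuation.of`.  `residue_trdeg`: `Fin 0`: polynomials in no variables are constants.
-/

set_option autoImplicit false

open Topology Filter
open Pool.Agent.H17 Pool.Agent.H17.EntFun

noncomputable section

namespace Pool.Agent.H13.CV

variable {K : Type} [Field K] [Algebra ℂ K]

private theorem merp_nsmul_top {e : ℕ} (he : 1 ≤ e) : e • (⊤ : WithTop ℤ) = ⊤ := by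
  obtain ⟨k, rfl⟩ : ∃ k, e = k + 1 := ⟨e - 1, by omega⟩
  rw [succ_nsmul, add_top]

private theorem merp_mono {e : ℕ} (he : 1 ≤ e) {x y : WithTop ℤ} (h : x ≤ y) :
    WithTop.map (fun a : ℤ => a / (e : ℤ)) x ≤ WithTop.map (fun a : ℤ => a / (e : ℤ)) y := by
  have he' : (0 : ℤ) < e := by exact_mod_cast he
  induction y with
  | top => exact le_top
  | coe b =>
    induction x with
    | top => exact absurd h (not_le.2 (WithTop.coe_lt_top b))
    | coe a =>
      rw [WithTop.map_coe, WithTop.map_coe, WithTop.coe_le_coe]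
      exact Int.ediv_le_ediv he' (WithTop.coe_le_coe.1 h)

private theorem merp_add {e : ℕ} {x y : WithTop ℤ} (hx : x = ⊤ ∨ ∃ k : ℤ, x = ((e * k : ℤ) : WithTop ℤ)) :
    WithTop.map (fun a : ℤ => a / (e : ℤ)) (x + y) =
      WithTop.map (fun a : ℤ => a / (e : ℤ)) x + WithTop.map (fun a : ℤ => a / (e : ℤ)) y := by
  rcases hx with rfl | ⟨k, rfl⟩
  · rw [top_add, WithTop.map_top, top_add]
  · induction y with
    | top => rw [add_top, WithTop.map_top, add_top]
    | coe b =>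
      rw [← WithTop.coe_add, WithTop.map_coe, WithTop.map_coe, WithTop.map_coe, ← WithTop.coe_add,
        WithTop.coe_inj]
      exact Int.add_ediv_of_dvd_left (Dvd.intro k rfl)

theorem exists_placeM (hK : CurveField K) (φ : K →ₐ[ℂ] Mer) (z₀ : ℂ) : ∃ (E : Place K) (e : ℕ), 1 ≤ e ∧ ∀ g : K, ordM z₀ (φ g) = e • E.ord g := by
  have hinj : Function.Injective φ := φ.toRingHom.injective
  have htop : ∀ g : K, ordM z₀ (φ g) = ⊤ ↔ g = 0 := by
    intro g
    rw [ordM_eq_top, map_eq_zero_iff φ hinj]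
  have hcst : ∀ c : ℂ, c ≠ 0 → ordM z₀ (φ (algebraMap ℂ K c)) = 0 := by
    intro c hc
    rw [AlgHom.commutes]
    exact ordM_const z₀ hc
  have hfin : ∀ g : K, g ≠ 0 → ∃ n : ℤ, ordM z₀ (φ g) = (n : WithTop ℤ) := by
    intro g hg
    have h : ordM z₀ (φ g) ≠ ⊤ := fun h => hg ((htop g).1 h)
    exact ⟨_, (WithTop.coe_untop _ h).symm⟩
  -- the group of the values
  let H : AddSubgroup ℤ :=
    { carrier := {n | ∃ g : K, g ≠ 0 ∧ ordM z₀ (φ g) = (n : WithTop ℤ)}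
      add_mem' := by
        rintro a b ⟨g, hg, h1⟩ ⟨g', hg', h2⟩
        refine ⟨g * g', mul_ne_zero hg hg', ?_⟩
        rw [map_mul, AddValuation.map_mul, h1, h2, WithTop.coe_add]
      zero_mem' := ⟨1, one_ne_zero, by rw [map_one, AddValuation.map_one]; rfl⟩
      neg_mem' := by
        rintro a ⟨g, hg, h1⟩
        refine ⟨g⁻¹, inv_ne_zero hg, ?_⟩
        obtain ⟨n, hn⟩ := hfin g⁻¹ (inv_ne_zero hg)
        have h2 : ordM z₀ (φ g) + ordM z₀ (φ g⁻¹) = 0 := by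
          rw [← AddValuation.map_mul, ← map_mul, mul_inv_cancel₀ hg, map_one, AddValuation.map_one]
        rw [h1, hn, ← WithTop.coe_add] at h2
        have h3 : a + n = 0 := WithTop.coe_eq_zero.1 h2
        rw [hn, WithTop.coe_inj]
        omega }
  have hmem : ∀ (n : ℤ), n ∈ H ↔ ∃ g : K, g ≠ 0 ∧ ordM z₀ (φ g) = (n : WithTop ℤ) := fun n => Iff.rfl
  -- a non-zero value
  have hne : ∃ n ∈ H, n ≠ 0 := by
    obtain ⟨x, hx⟩ := hK.exists_tr
    have hx0 : x ≠ 0 := by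
      rintro rfl
      exact hx isAlgebraic_zero
    obtain ⟨n, hn⟩ := hfin x hx0
    by_cases h0 : n = 0
    · have h1 : 0 ≤ ordM z₀ (φ x) := by rw [hn, h0]; exact le_refl _
      obtain ⟨c, hc⟩ := exists_valueM z₀ h1
      have h2 : φ x - algebraMap ℂ Mer c = φ (x - algebraMap ℂ K c) := by
        rw [map_sub, AlgHom.commutes]
      have h3 : x - algebraMap ℂ K c ≠ 0 := by
        intro h
        rw [sub_eq_zero] at h
        rw [h] at hx
        exact hx (isAlgebraic_algebraMap c)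
      obtain ⟨m, hm⟩ := hfin _ h3
      refine ⟨m, ⟨_, h3, hm⟩, ?_⟩
      rintro rfl
      rw [h2, hm] at hc
      exact lt_irrefl _ hc
    · exact ⟨n, ⟨x, hx0, hn⟩, h0⟩
  obtain ⟨a, ha⟩ := Int.subgroup_cyclic H
  have hdvd : ∀ n ∈ H, a ∣ n := by
    intro n hn
    rw [ha, ← AddSubgroup.zmultiples_eq_closure, Int.mem_zmultiples_iff] at hn
    exact hn
  have haH : a ∈ H := by
    rw [ha]
    exact AddSubgroup.subset_closure rfl
  have ha0 : a ≠ 0 := by
    rintro rfl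
    obtain ⟨n, hn, hn0⟩ := hne
    exact hn0 (zero_dvd_iff.1 (hdvd n hn))
  obtain ⟨e, he⟩ : ∃ e : ℕ, e = a.natAbs := ⟨_, rfl⟩
  have he1 : 1 ≤ e := by
    rw [he]
    exact Int.natAbs_pos.2 ha0
  have heH : (e : ℤ) ∈ H := by
    rcases Int.natAbs_eq a with h | h
    · rw [he, ← h]
      exact haH
    · have h2 : (e : ℤ) = -a := by
        rw [he]
        omega
      rw [h2]
      exact H.neg_mem haH
  have hval : ∀ g : K, ordM z₀ (φ g) = ⊤ ∨ ∃ k : ℤ, ordM z₀ (φ g) = ((e * k : ℤ) : WithTop ℤ) := by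
    intro g
    by_cases hg : g = 0
    · exact Or.inl ((htop g).2 hg)
    · obtain ⟨n, hn⟩ := hfin g hg
      have h1 : (e : ℤ) ∣ n := by
        rw [he, Int.natAbs_dvd]
        exact hdvd n ⟨g, hg, hn⟩
      obtain ⟨k, hk⟩ := h1
      exact Or.inr ⟨k, by rw [hn, hk]⟩
  have he0 : (e : ℤ) ≠ 0 := by
    have : 0 < e := he1
    omega
  -- the normalised valuation
  let v : AddValuation K (WithTop ℤ) := AddValuation.of
    (fun g => WithTop.map (fun a : ℤ => a / (e : ℤ)) (ordM z₀ (φ g)))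
    (by
      change WithTop.map (fun a : ℤ => a / (e : ℤ)) (ordM z₀ (φ 0)) = ⊤
      rw [(htop 0).2 rfl, WithTop.map_top])
    (by
      change WithTop.map (fun a : ℤ => a / (e : ℤ)) (ordM z₀ (φ 1)) = 0
      rw [map_one, AddValuation.map_one]
      change (((0 : ℤ) / (e : ℤ) : ℤ) : WithTop ℤ) = 0
      rw [Int.zero_ediv]
      rfl)
    (by
      intro f g
      have h := (ordM z₀).map_add (φ f) (φ g)
      rw [← map_add] at h
      rcases le_total (ordM z₀ (φ f)) (ordM z₀ (φ g)) with h1 | h1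
      · rw [min_eq_left h1] at h
        exact (min_le_left _ _).trans (merp_mono he1 h)
      · rw [min_eq_right h1] at h
        exact (min_le_right _ _).trans (merp_mono he1 h))
    (by
      intro f g
      rw [map_mul, AddValuation.map_mul]
      exact merp_add (hval f))
  have hv : ∀ g, v g = WithTop.map (fun a : ℤ => a / (e : ℤ)) (ordM z₀ (φ g)) := fun g => rfl
  have hvc : ∀ c : ℂ, c ≠ 0 → v (algebraMap ℂ K c) = 0 := by
    intro c hc
    rw [hv, hcst c hc]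
    change (((0 : ℤ) / (e : ℤ) : ℤ) : WithTop ℤ) = 0
    rw [Int.zero_ediv]
    rfl
  refine ⟨{ ord := v
            ord_const := ?_
            exists_uniformizer := ?_
            residue_trdeg := ?_ }, e, he1, ?_⟩
  · intro c
    by_cases hc : c = 0
    · rw [hc, map_zero, AddValuation.map_zero]
      exact le_top
    · rw [hvc c hc]
  · obtain ⟨t, ht, h1⟩ := (hmem e).1 heH
    refine ⟨t, ?_⟩
    rw [hv, h1]
    change ((((e : ℤ) / (e : ℤ) : ℤ)) : WithTop ℤ) = 1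
    rw [Int.ediv_self he0]
    rfl
  · have : IsEmpty (Fin (1 - 1)) := inferInstanceAs (IsEmpty (Fin 0))
    refine ⟨fun i => isEmptyElim i, fun i => isEmptyElim i, ?_⟩
    intro p hp
    rw [MvPolynomial.eq_C_of_isEmpty p, MvPolynomial.aeval_C]
    apply hvc
    intro h
    apply hp
    rw [MvPolynomial.eq_C_of_isEmpty p, h, map_zero]
  · intro g
    change ordM z₀ (φ g) = e • v g
    rw [hv]
    rcases hval g with h | ⟨k, h⟩
    · rw [h, WithTop.map_top, merp_nsmul_top he1]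
    · rw [h, WithTop.map_coe, ← WithTop.coe_nsmul, WithTop.coe_inj, Int.mul_ediv_cancel_left _ he0,
        nsmul_eq_mul]

end Pool.Agent.H13.CV

end
end

section

/-!
# BPL CurveK: curves

An open part `K` of a closed cone `X`, proper over an affine variety, whose complement `X ∖ K` contains no curves (for instance `X` is the cone of a curve).  If the entire curves
of order at most two in `K` are constant then all entire curves in `K` are constant and all holomorphic maps from the punctured disc to `K` extend.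
The metric is the Fubini-Study metric.
-/

set_option autoImplicit false

open Topology Filter Metric

noncomputable section

namespace Pool.Agent.H36.BPL

open Pool.Agent.H17 (PN HolomorphicInto puncturedDisc)
open Pool.Agent.H36.BP

variable {N : ℕ}

theorem continuousAt_fs {x : EN N} (hx : x ≠ 0) (v : EN N) : ContinuousAt (fun p : EN N × EN N => fs p.1 p.2) (x, v) := by
  unfold fs
  refine wd_cont.continuousAt.div ?_ ?_
  · exact (continuous_fst.norm.pow 2).continuousAt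
  · exact pow_ne_zero 2 (norm_ne_zero_iff.mpr hx)

/-- the metric data of the Fubini-Study metric -/
theorem curve_metric {X K : Set (EN N)} {M : ℕ} {Φ : EN N → Fin M → ℂ} (h0 : (0 : EN N) ∉ X) (hcl : ∀ x ∈ closure X, x ≠ 0 → x ∈ X)
    (hKX : K ⊆ X) (hKs : ∀ x ∈ K, ∀ c : ℂ, c ≠ 0 → c • x ∈ K) (hrel : ∀ x ∈ K, ∀ᶠ y in 𝓝 x, y ∈ X → y ∈ K) (hΦ : AffProper X K Φ)
    (hbd : ∀ (F : ℂ → EN N) (z₀ : ℂ), AnalyticAt ℂ F z₀ → (∀ᶠ z in 𝓝 z₀, F z ∈ X ∧ F z ∉ K) → ∀ᶠ z in 𝓝 z₀, ∃ c : ℂ, F z = c • F z₀) :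
    MetricData K ∅ (fun x v => fs x v) (fun _ => 1) 1 1 (3 / 2) := by
  have hne : ∀ x ∈ K, x ≠ 0 := fun x hx e => h0 (e ▸ hKX hx)
  refine
  { ne := hne
    smul := hKs
    c₀_pos := one_pos
    C_nonneg := by norm_num
    nonneg := fun x _ v => fs_nonneg x v
    usc := fun x hx v a ha => ((continuousAt_fs (hne x hx) v).eventually_lt continuousAt_const ha).mono fun p hp _ => hp
    inv := fun x hx v c a hc => fs_inv (hne x hx) v hc a
    hom := fun x _ v c => fs_smul_right x v c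
    zero := fun F z₀ _ h => absurd h.self_of_nhds.2 (Set.notMem_empty _)
    sub := ?_
    ρ_nonneg := fun x _ => zero_le_one
    lower := fun x _ v => by simp
    ρ_zero := fun F z₀ _ _ h => ?_
    rel_open := ?_
    hur := hur_of_affProper (fun x hx hx0 => hcl x (closure_mono hKX hx) hx0) hKs hΦ
    lim := ?_ }
  · intro F z₀ hF hFK hpos
    have h1 := (Sub.fs_curve hF hpos).mul (Sub.norm_rpow hF (hne _ hFK.self_of_nhds) (-1))
    have h2 : -(fs (F z₀) (deriv F z₀)) ^ 2 + -1 * fs (F z₀) (deriv F z₀) ^ 2 / 2 = -(3 / 2 * Pool.Agent.H36.BP.mt (fun x v => fs x v) F z₀ ^ 2) := by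
      unfold Pool.Agent.H36.BP.mt
      ring
    rw [h2] at h1
    exact h1
  · exact absurd h.exists (by rintro ⟨z, hz⟩; exact one_ne_zero hz)
  · intro x hx
    filter_upwards [hrel x hx, isOpen_ne.mem_nhds (hne x hx)] with y hy hy0 hyc
    exact hy (hcl y (closure_mono hKX hyc) hy0)
  · intro l hl F H z₀ s hs hF hlim hH0 hHK ε hε
    have hmem : z₀ ∈ ball z₀ s := mem_ball_self hs
    have hHd : DifferentiableOn ℂ H (ball z₀ s) := hlim.differentiableOn (hF.mono fun n hn => hn.1) isOpen_ball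
    have hHa : AnalyticAt ℂ H z₀ := hHd.analyticAt (isOpen_ball.mem_nhds hmem)
    have hHX : ∀ᶠ z in 𝓝 z₀, H z ∈ X ∧ H z ∉ K := by
      filter_upwards [isOpen_ball.mem_nhds hmem, hHa.continuousAt.eventually_ne hH0] with z hz hz0
      refine ⟨hcl _ ?_ hz0, hHK z hz⟩
      have h1 : Tendsto (fun n => F n z) l (𝓝 (H z)) := hlim.tendsto_at hz
      refine mem_closure_of_tendsto h1 ?_
      filter_upwards [hF] with n hn
      exact hKX (hn.2 z hz)
    have hconst := hbd H z₀ hHa hHX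
    -- the derivative of the limit
    have hder : ∃ a : ℂ, deriv H z₀ = a • H z₀ := by
      obtain ⟨j, hj⟩ : ∃ j, (H z₀) j ≠ 0 := by
        by_contra hcon
        push Not at hcon
        exact hH0 (by ext i; exact hcon i)
      have hcoord : AnalyticAt ℂ (fun w => H w j) z₀ := analyticAt_pi_iff.mp (analyticAt_ofLp hHa) j
      have he : H =ᶠ[𝓝 z₀] fun w => (H w j / H z₀ j) • H z₀ := by
        filter_upwards [hconst] with w hw
        obtain ⟨c, hc⟩ := hw
        have h3 : H w j = c * H z₀ j := by rw [hc]; rfl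
        rw [h3, mul_div_cancel_right₀ _ hj]
        exact hc
      have hd : HasDerivAt (fun w => (H w j / H z₀ j) • H z₀) ((deriv (fun w => H w j) z₀ / H z₀ j) • H z₀) z₀ :=
        (hcoord.differentiableAt.hasDerivAt.div_const _).smul_const _
      exact ⟨_, (he.deriv_eq).trans hd.deriv⟩
    obtain ⟨a, ha⟩ := hder
    have hz : fs (H z₀) (deriv H z₀) = 0 := by
      unfold fs
      rw [(wd_eq_zero hH0).mpr ⟨a, ha⟩, zero_div]
    have h1 : Tendsto (fun n => F n z₀) l (𝓝 (H z₀)) := hlim.tendsto_at hmem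
    have hd : TendstoLocallyUniformlyOn (deriv ∘ F) (deriv H) l (ball z₀ s) :=
      hlim.deriv (hF.mono fun n hn => hn.1) isOpen_ball
    have h2 : Tendsto (fun n => deriv (F n) z₀) l (𝓝 (deriv H z₀)) := hd.tendsto_at hmem
    have h3 : Tendsto (fun n => (F n z₀, deriv (F n) z₀)) l (𝓝 (H z₀, deriv H z₀)) := h1.prodMk_nhds h2
    have h4 := (continuousAt_fs hH0 (deriv H z₀)).tendsto.comp h3
    simp only [hz] at h4
    exact h4.eventually_lt_const hε

end Pool.Agent.H36.BPL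

end
end

section

/-!
# CV Cub: a smooth cubic contains an entire curve

`fs_ge`: for `x ∈ Cub`, `cr x v = l • gr x`: `wd x v = ‖cr x v‖` (Lagrange's identity, `wd_sq`; norm of the complex Euclidean space), so `fs x v = ‖l‖ ‖gr x‖ / ‖x‖²`.  The function `‖gr x‖ / ‖x‖²` is continuous,
positive (`gr_ne`) and invariant under `x → c x` (`gr (c x) = c² gr x`), so it has a positive lower bound `c₀` (compactness of `{x | ‖x‖ = 1, cub x = 0}`, non-empty or trivial).
`exists_entire_cubic`: suppose there is no such `F`.  Then `BrodyMod (Cub α β) ∅` (vacuously), and `curve_metric` (`Pool/Agent/H36/BPL/CurveK.lean`, with `X = K = Cub α β`, `Φ = 0 : EN 2 → Fin 0 → ℂ`; the cone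
is closed apart from `0`) and `brody_bound` (`Pool/Agent/H36/BP/Brody.lean`) give `C` with `fs (F 0) (F' 0) ≤ C` for all holomorphic discs `F` in `Cub α β` (`mt (fs) F 0 = fs (F 0) (deriv F 0)`).  By
`exists_disc` and `Dsc.dbl` (induction on `k`) there are discs with `l` replaced by `2 ^ k l`; so `c₀ 2 ^ k ‖l 0‖ ≤ C` for all `k`: contradiction.
-/

set_option autoImplicit false

open Topology Filter Metric
open Pool.Agent.H36.BP

noncomputable section

namespace Pool.Agent.H13.CV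

/-- Lagrange's identity -/
private theorem Cub_lagrange (a b c x y z : ℂ) :
    (‖a‖ ^ 2 + ‖b‖ ^ 2 + ‖c‖ ^ 2) * (‖x‖ ^ 2 + ‖y‖ ^ 2 + ‖z‖ ^ 2) -
      ‖x * (starRingEnd ℂ) a + y * (starRingEnd ℂ) b + z * (starRingEnd ℂ) c‖ ^ 2 =
    ‖b * z - c * y‖ ^ 2 + ‖c * x - a * z‖ ^ 2 + ‖a * y - b * x‖ ^ 2 := by
  simp only [Complex.sq_norm, Complex.normSq_apply, Complex.add_re, Complex.add_im, Complex.sub_re, Complex.sub_im,
    Complex.mul_re, Complex.mul_im, Complex.conj_re, Complex.conj_im]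
  ring

private theorem Cub_wd (x v : EN 2) : wd x v = ‖(WithLp.toLp 2 (cr x.ofLp v.ofLp) : EN 2)‖ := by
  have h : wd x v ^ 2 = ‖(WithLp.toLp 2 (cr x.ofLp v.ofLp) : EN 2)‖ ^ 2 := by
    rw [wd_sq, EuclideanSpace.norm_sq_eq, EuclideanSpace.norm_sq_eq, EuclideanSpace.norm_sq_eq, PiLp.inner_apply]
    have hs : ∀ f : Fin (2 + 1) → ℝ, ∑ i, f i = f 0 + f 1 + f 2 := fun f => Fin.sum_univ_three f
    have hs' : ∀ f : Fin (2 + 1) → ℂ, ∑ i, f i = f 0 + f 1 + f 2 := fun f => Fin.sum_univ_three f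
    simp only [hs, hs', RCLike.inner_apply]
    exact Cub_lagrange _ _ _ _ _ _
  exact (pow_left_inj₀ (wd_nonneg _ _) (norm_nonneg _) two_ne_zero).mp h

private theorem Cub_gr_smul (α β c : ℂ) (x : Fin 3 → ℂ) : gr α β (c • x) = c ^ 2 • gr α β x := by
  unfold gr
  ext i
  fin_cases i <;> simp only [Pi.smul_apply, smul_eq_mul] <;> simp <;> ring

private theorem Cub_cub_smul (α β c : ℂ) (x : Fin 3 → ℂ) : cub α β (c • x) = c ^ 3 * cub α β x := by
  unfold cub
  simp only [Pi.smul_apply, smul_eq_mul]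
  ring

private theorem Cub_cont_cub (α β : ℂ) : Continuous fun x : EN 2 => cub α β x.ofLp := by
  unfold cub
  fun_prop

private theorem Cub_cont_gr (α β : ℂ) : Continuous fun x : EN 2 => ‖(WithLp.toLp 2 (gr α β x.ofLp) : EN 2)‖ := by
  have h : Continuous fun x : EN 2 => gr α β x.ofLp := by
    refine continuous_pi fun i => ?_
    unfold gr
    fin_cases i
    · show Continuous fun x : EN 2 => -12 * x.ofLp 0 ^ 2 + α * x.ofLp 2 ^ 2
      fun_prop
    · show Continuous fun x : EN 2 => 2 * x.ofLp 1 * x.ofLp 2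
      fun_prop
    · show Continuous fun x : EN 2 => x.ofLp 1 ^ 2 + 2 * α * x.ofLp 0 * x.ofLp 2 + 3 * β * x.ofLp 2 ^ 2
      fun_prop
  fun_prop

theorem fs_ge {α β : ℂ} (hd : α ^ 3 ≠ 27 * β ^ 2) : ∃ c₀ : ℝ, 0 < c₀ ∧ ∀ (x v : EN 2) (l : ℂ), x ∈ Cub α β → cr x.ofLp v.ofLp = l • gr α β x.ofLp → c₀ * ‖l‖ ≤ fs x v := by
  have hK : IsCompact (sphere (0 : EN 2) 1 ∩ {x | cub α β x.ofLp = 0}) :=
    (isCompact_sphere _ _).inter_right (isClosed_eq (Cub_cont_cub α β) continuous_const)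
  obtain ⟨c₀, hc₀, hmin⟩ : ∃ c₀ : ℝ, 0 < c₀ ∧ ∀ x ∈ sphere (0 : EN 2) 1 ∩ {x | cub α β x.ofLp = 0},
      c₀ ≤ ‖(WithLp.toLp 2 (gr α β x.ofLp) : EN 2)‖ := by
    rcases Set.eq_empty_or_nonempty (sphere (0 : EN 2) 1 ∩ {x | cub α β x.ofLp = 0}) with h | h
    · exact ⟨1, one_pos, fun x hx => by rw [h] at hx; exact absurd hx (Set.notMem_empty x)⟩
    · obtain ⟨x₀, hx₀, hm⟩ := hK.exists_isMinOn h (Cub_cont_gr α β).continuousOn
      refine ⟨‖(WithLp.toLp 2 (gr α β x₀.ofLp) : EN 2)‖, ?_, fun x hx => hm hx⟩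
      rw [norm_pos_iff]
      intro h0
      have hne : x₀.ofLp ≠ 0 := by
        intro h1
        have h2 : x₀ = 0 := by
          ext i
          exact congrFun h1 i
        have h3 := hx₀.1
        rw [h2] at h3
        simp at h3
      refine gr_ne hd hne hx₀.2 ?_
      exact congrArg WithLp.ofLp h0
  refine ⟨c₀, hc₀, fun x v l hx hcr => ?_⟩
  have hn : 0 < ‖x‖ := norm_pos_iff.2 hx.1
  have h1 := hmin (((‖x‖⁻¹ : ℝ) : ℂ) • x) ⟨?_, ?_⟩
  · have h2 : (WithLp.toLp 2 (gr α β (((‖x‖⁻¹ : ℝ) : ℂ) • x).ofLp) : EN 2) =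
        (((‖x‖⁻¹ : ℝ) : ℂ) ^ 2) • (WithLp.toLp 2 (gr α β x.ofLp) : EN 2) := by
      have h3 := Cub_gr_smul α β ((‖x‖⁻¹ : ℝ) : ℂ) x.ofLp
      rw [WithLp.ofLp_smul, h3, WithLp.toLp_smul]
    rw [h2, norm_smul, norm_pow, Complex.norm_real, Real.norm_of_nonneg (by positivity)] at h1
    unfold fs
    rw [Cub_wd, hcr, WithLp.toLp_smul, norm_smul, mul_comm c₀, mul_div_assoc]
    refine mul_le_mul_of_nonneg_left (h1.trans (le_of_eq ?_)) (norm_nonneg l)
    field_simp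
  · rw [mem_sphere_zero_iff_norm, norm_smul, Complex.norm_real, Real.norm_of_nonneg (by positivity)]
    exact inv_mul_cancel₀ hn.ne'
  · show cub α β (((‖x‖⁻¹ : ℝ) : ℂ) • x).ofLp = 0
    rw [WithLp.ofLp_smul, Cub_cub_smul, hx.2, mul_zero]

theorem exists_entire_cubic {α β : ℂ} (hd : α ^ 3 ≠ 27 * β ^ 2) :
    ∃ F : ℂ → EN 2, Differentiable ℂ F ∧ (∀ z, F z ∈ Cub α β) ∧ ∃ z w, ∀ c : ℂ, F z ≠ c • F w := by
  by_contra hcon
  have hB : BrodyMod (Cub α β) ∅ := fun F h1 h2 h3 => absurd ⟨F, h1, h2, h3⟩ hcon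
  have h0 : (0 : EN 2) ∉ Cub α β := fun h => h.1 rfl
  have hΦ : Pool.Agent.H36.BPL.AffProper (Cub α β) (Cub α β) (fun _ : EN 2 => (0 : Fin 0 → ℂ)) :=
    { smul := fun _ _ _ _ => rfl
      cont := continuousOn_const
      hol := fun _ _ _ _ => analyticAt_const
      proper := fun x hx hx' => absurd hx hx'
      iso := fun F z₀ _ h => Or.inr (h.filter_mono nhdsWithin_le_nhds) }
  have hM := Pool.Agent.H36.BPL.curve_metric (X := Cub α β) (K := Cub α β) h0 ?_ le_rfl ?_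
    (fun x _ => Eventually.of_forall fun y hy => hy) hΦ
    (fun F z₀ _ h => absurd h.self_of_nhds.1 h.self_of_nhds.2)
  · obtain ⟨L, hL, hbd⟩ := brody_bound hM hB
    obtain ⟨c₀, hc₀, hfs⟩ := fs_ge hd
    obtain ⟨l, F, hF⟩ := exists_disc α β
    have hk : ∀ k : ℕ, ∃ G : ℂ → EN 2, Dsc α β (fun z => 2 ^ k * l z) G := by
      intro k
      induction k with
      | zero => exact ⟨F, by simpa using hF⟩
      | succ k ih =>
        obtain ⟨G, hG⟩ := ih
        have h1 := hG.dbl hd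
        have h2 : (fun z => 2 * (2 ^ k * l z)) = fun z => 2 ^ (k + 1) * l z := by
          funext z
          ring
        rw [h2] at h1
        exact ⟨_, h1⟩
    have hle : ∀ k : ℕ, c₀ * ‖l 0‖ * 2 ^ k ≤ L := by
      intro k
      obtain ⟨G, hG⟩ := hk k
      have hm : (0 : ℂ) ∈ ball (0 : ℂ) 1 := mem_ball_self one_pos
      have h1 := hfs (G 0) (deriv G 0) _ (hG.curve.2 0 hm) (hG.eq 0 hm)
      have h2 : fs (G 0) (deriv G 0) ≤ L := hbd G hG.curve
      rw [norm_mul, norm_pow, Complex.norm_ofNat] at h1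
      linarith
    have hl0 : 0 < ‖l 0‖ := norm_pos_iff.2 (hF.ne 0 (mem_ball_self one_pos))
    obtain ⟨k, hk2⟩ := pow_unbounded_of_one_lt (L / (c₀ * ‖l 0‖)) (one_lt_two : (1 : ℝ) < 2)
    rw [div_lt_iff₀ (by positivity)] at hk2
    have h3 := hle k
    linarith
  · intro x hx hx0
    refine ⟨hx0, ?_⟩
    have hcl : IsClosed {x : EN 2 | cub α β x.ofLp = 0} := isClosed_eq (Cub_cont_cub α β) continuous_const
    exact closure_minimal (fun y hy => hy.2) hcl hx
  · intro x hx c hc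
    refine ⟨smul_ne_zero hc hx.1, ?_⟩
    show cub α β (c • x).ofLp = 0
    rw [WithLp.ofLp_smul, Cub_cub_smul, hx.2, mul_zero]

end Pool.Agent.H13.CV

end
end

section

/-!
# LB PNDefs: limits of discs in a subset of `ℙ^N`
-/

set_option autoImplicit false

open Topology Filter Metric

namespace Pool.Agent.H36.LB

open Pool.Agent.H17 (PN HolomorphicInto ZariskiClosedIn)
open Pool.Agent.H13.OT (OrderTwo)

variable {N : ℕ}

/-- Near `z₀` the maps `F n` converge to `f`, uniformly on a disc around `z₀`: there are holomorphic homogeneous coordinates of the maps `F n`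
which converge to homogeneous coordinates of `f`. -/
def ConvPN (l : Filter ℕ) (F : ℕ → ℂ → PN N) (f : ℂ → PN N) (z₀ : ℂ) : Prop :=
  ∃ (s : ℝ) (Φ : ℕ → ℂ → Fin (N + 1) → ℂ) (Φ₀ : ℂ → Fin (N + 1) → ℂ), 0 < s ∧
    (∀ᶠ n in l, DifferentiableOn ℂ (Φ n) (ball z₀ s) ∧ ∀ z ∈ ball z₀ s, ∃ h : Φ n z ≠ 0, F n z = Projectivization.mk ℂ (Φ n z) h) ∧
    DifferentiableOn ℂ Φ₀ (ball z₀ s) ∧ (∀ z ∈ ball z₀ s, ∃ h : Φ₀ z ≠ 0, f z = Projectivization.mk ℂ (Φ₀ z) h) ∧
    TendstoLocallyUniformlyOn Φ Φ₀ l (ball z₀ s)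

/-- The entire curve `f` in `ℙ^N`, with `f 0 ∈ U`, is the limit of the holomorphic maps `F n` from the discs of radius `n + 1` to `U`, near `0` and
near every point outside a closed discrete set, and it has values in `U` at all points near which the maps `F n` converge. -/
structure IsLimitPN (U : Set (PN N)) (l : Filter ℕ) (F : ℕ → ℂ → PN N) (f : ℂ → PN N) : Prop where
  neBot : l.NeBot
  le_atTop : l ≤ atTop
  hol : HolomorphicInto f Set.univ
  zero_mem : f 0 ∈ U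
  holF : ∀ n : ℕ, HolomorphicInto (F n) (ball 0 (n + 1))
  memF : ∀ n : ℕ, ∀ z ∈ ball (0 : ℂ) (n + 1), F n z ∈ U
  zero : ConvPN l F f 0
  conv : ∀ z₀ : ℂ, ∀ᶠ z in 𝓝[≠] z₀, ConvPN l F f z
  mem_of_conv : ∀ z, ConvPN l F f z → f z ∈ U

/-- Every nonconstant limit `f` of discs in `U` with `T_f(r) = O(r²)` lies in `Ξ`, where it is in `U`. -/
def LimModPN (U Ξ : Set (PN N)) : Prop :=
  ∀ (l : Filter ℕ) (F : ℕ → ℂ → PN N) (f : ℂ → PN N), IsLimitPN U l F f → OrderTwo f → (∃ z w, f z ≠ f w) →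
    ∀ z, f z ∈ U → f z ∈ Ξ

end Pool.Agent.H36.LB

end

section

/-!
# LB PNConv: the hypothesis on limits in `ℙ^N` and on limits in the cone
-/

set_option autoImplicit false

open Topology Filter Metric

namespace Pool.Agent.H36.LB

open Pool.Agent.H17 (PN HolomorphicInto ZariskiClosedIn)
open Pool.Agent.H17BP (Pr HolP)
open Pool.Agent.H36.BP (OrdTwo)
open Pool.Agent.H36.BPL (OpenPart)
open Pool.Agent.H13.OT (OrderTwo mk_eq_of_pr pr_of_mk_eq holomorphicInto_mk OrdTwo.orderTwo)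

variable {N : ℕ}

open Classical in
/-- the point of `ℙ^N` of a vector -/
noncomputable def pt (x₀ : PN N) (x : Fin (N + 1) → ℂ) : PN N := if h : x ≠ 0 then Projectivization.mk ℂ x h else x₀

theorem pt_eq {x₀ : PN N} {x y : Fin (N + 1) → ℂ} (hy : y ≠ 0) (h : Pr x y) : pt x₀ x = Projectivization.mk ℂ y hy := by
  have hx : x ≠ 0 := by
    obtain ⟨c, hc, rfl⟩ := h
    exact smul_ne_zero hc hy
  unfold pt
  rw [dif_pos hx]
  exact mk_eq_of_pr h hx hy

theorem convPN_of_convP {x₀ : PN N} {l : Filter ℕ} {F : ℕ → ℂ → Fin (N + 1) → ℂ} {f : ℂ → Fin (N + 1) → ℂ} (hf0 : ∀ z, f z ≠ 0)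
    {z₀ : ℂ} (h : ConvP l F f z₀) (hF : ∀ s : ℝ, ∀ᶠ n in l, ∀ z ∈ ball z₀ s, F n z ≠ 0) :
    ConvPN l (fun n z => pt x₀ (F n z)) (fun z => Projectivization.mk ℂ (f z) (hf0 z)) z₀ := by
  obtain ⟨s, Φ, Φ₀, hs, hΦ, hΦ₀, hf, hlim⟩ := h
  refine ⟨s, Φ, Φ₀, hs, ?_, hΦ₀, fun z hz => ⟨(hf z hz).1, mk_eq_of_pr (hf z hz).2 _ _⟩, hlim⟩
  filter_upwards [hΦ, hF s] with n hn hn2
  refine ⟨hn.1, fun z hz => ?_⟩
  have h1 : Φ n z ≠ 0 := by
    obtain ⟨c, hc, e⟩ := hn.2 z hz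
    intro h0
    rw [h0, smul_zero] at e
    exact hn2 z hz e
  exact ⟨h1, pt_eq h1 (hn.2 z hz)⟩

/-- The hypothesis on limits in `ℙ^N` gives the hypothesis on limits in the cone: `U` is a set of points in the
projective space and `K` its cone, `X` the closed cone, `T ⊇ X ∖ K`. -/
theorem lim2_of_limModPN {U Ξ : Set (PN N)} {X K T : Set (Fin (N + 1) → ℂ)} (h0 : ∀ x ∈ X, x ≠ 0)
    (hXs : ∀ x ∈ X, ∀ c : ℂ, c ≠ 0 → c • x ∈ X) (hXc : ∀ x ∈ closure X, x ≠ 0 → x ∈ X) (hK : OpenPart X K)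
    (hKT : ∀ x ∈ X, x ∉ K → x ∈ T)
    (hU : ∀ (x : Fin (N + 1) → ℂ) (hx : x ≠ 0), Projectivization.mk ℂ x hx ∈ U ↔ x ∈ K)
    (hT : ∀ (x : Fin (N + 1) → ℂ) (hx : x ≠ 0), x ∈ K → Projectivization.mk ℂ x hx ∈ Ξ → x ∈ T)
    (h : LimModPN U Ξ) : Lim2 X K T := by
  rintro l F f hf hord ⟨z₁, hz₁⟩ z w
  by_contra hzw
  have hf0 : ∀ z, f z ≠ 0 := fun z => h0 _ (hf.mem z)
  have hF0 : ∀ n : ℕ, ∀ z ∈ ball (0 : ℂ) (n + 1), F n z ≠ 0 := fun n z hz => h0 _ (hK.sub (hf.memF n z hz))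
  set x₀ : PN N := Projectivization.mk ℂ (f 0) (hf0 0) with hx₀
  have hev : ∀ (z₀ : ℂ) (s : ℝ), ∀ᶠ n in l, ∀ z ∈ ball z₀ s, F n z ≠ 0 := by
    intro z₀ s
    obtain ⟨n₀, hn₀⟩ := exists_nat_ge (‖z₀‖ + s)
    filter_upwards [hf.le_atTop (eventually_ge_atTop n₀)] with n hn w hw
    refine hF0 n w ?_
    rw [mem_ball_zero_iff]
    have h2 : ‖w - z₀‖ < s := by simpa [dist_eq_norm] using hw
    have h3 : ‖w‖ ≤ ‖w - z₀‖ + ‖z₀‖ := by
      have := norm_add_le (w - z₀) z₀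
      rwa [sub_add_cancel] at this
    have h4 : (n₀ : ℝ) ≤ n := by exact_mod_cast hn
    linarith
  have hlim : IsLimitPN U l (fun n z => pt x₀ (F n z)) (fun z => Projectivization.mk ℂ (f z) (hf0 z)) := by
    refine
    { neBot := hf.neBot
      le_atTop := hf.le_atTop
      hol := holomorphicInto_mk hf0 hf.hol
      zero_mem := (hU _ _).2 hf.zero_mem
      holF := ?_
      memF := ?_
      zero := convPN_of_convP hf0 hf.zero (hev 0)
      conv := fun z₀ => (hf.conv z₀).mono fun z hz => convPN_of_convP hf0 hz (hev z)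
      mem_of_conv := ?_ }
    · intro n z hz
      obtain ⟨G, hG, hG0, he⟩ := hf.holF n z hz
      refine ⟨G, hG, ?_⟩
      filter_upwards [he, hG.continuousAt.eventually_ne hG0] with y h1 h2
      exact ⟨h2, pt_eq h2 h1⟩
    · intro n z hz
      have h1 := hF0 n z hz
      show pt x₀ (F n z) ∈ U
      rw [pt_eq h1 (Pool.Agent.H17BP.Pr.refl _)]
      exact (hU _ h1).2 (hf.memF n z hz)
    · intro z hz
      refine (hU _ _).2 ?_
      obtain ⟨s, Φ, Φ₀, hs, hΦ, hΦ₀, hf', hlim⟩ := hz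
      refine hf.mem_of_conv hXs hXc hK (z := z) ⟨s, Φ, Φ₀, hs, ?_, hΦ₀, fun w hw => ?_, hlim⟩
      · filter_upwards [hΦ, hev z s] with n hn hn2
        refine ⟨hn.1, fun w hw => ?_⟩
        obtain ⟨h1, h2⟩ := hn.2 w hw
        rw [pt_eq (hn2 w hw) (Pool.Agent.H17BP.Pr.refl _)] at h2
        exact pr_of_mk_eq _ _ h2
      · obtain ⟨h1, h2⟩ := hf' w hw
        exact ⟨h1, pr_of_mk_eq _ _ h2⟩
  have hz₁K : f z₁ ∈ K := by
    by_contra hcon
    exact hz₁ (hKT _ (hf.mem z₁) hcon)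
  exact hz₁ (hT _ (hf0 z₁) hz₁K (h l _ _ hlim (OrdTwo.orderTwo hf0 hf.hol hord) ⟨z, w, fun he => hzw (pr_of_mk_eq _ _ he)⟩ z₁
    ((hU _ _).2 hz₁K)))

end Pool.Agent.H36.LB

end

section

/-!
# CV HomM: the entire curve given by a homomorphism of the function field into the meromorphic functions

`homMap0`: let `X j ∉ Q`, so `coordFun Q j ≠ 0` (`Pool.Agent.H92.GT.Proj.aeval_coordFun_eq_zero_iff Q (X j)`).  `y i = φ (ratio Q i j) ∈ Mer`, `y j = 1`.  There are `a i, b ∈ EntFun`, `b ≠ 0`, with `y i = a i / b`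
(`IsLocalization.exist_integer_multiples_of_finset`), `a j = b`.
`exists_map` (HomA) gives `f` and, for every `z₀`, `k` and `c i` with `a i = coord z₀ ^ k * c i`, `f z₀ = [c i (z₀)]`.
Forms in `Q`: for a form `R ∈ Q`: `aeval (ratio Q · j) R = 0` in `FunField Q`, so `aeval y R = 0`, `aeval (toM ∘ a) R = 0` (homogeneous), so `aeval c R = 0` in `EntFun` (`coord ≠ 0`, domain), evaluate at `z₀`.
The index `l`: with `c l (z₀) ≠ 0`; then `a l ≠ 0`, `y l ≠ 0`, so `coordFun Q l ≠ 0`, and `φ (ratio Q i l) = y i / y l = c i / c l` has order `≥ 0` at `z₀`.  If the form `R` vanishes at `f z₀`, then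
`φ (aeval (ratio Q · l) R) = aeval (c / c l) R = (aeval c R) / c l ^ d` has positive order at `z₀`.
Non-constant: if `f` is constant then the `a i` are proportional to constants (near a point where `k = 0`, then everywhere), so the `y i` are constants, so `φ` of all `ratio Q i l = ratio Q i j / ratio Q l j` are constants,
and these generate `FunField Q` over `ℂ`; so `φ` maps `K` into `ℂ`: impossible as `φ` is injective and `K` contains a transcendental element (`hK.exists_tr`).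
Facts on `coordFun`, `ratio`, `aeval`: `Pool/Agent/H92/GT/Proj*.lean`, `Pool/Agent/H17BP/TrdegLt.lean`, `Pool/Agent/H62/FC/`.
-/

set_option autoImplicit false

open Topology Filter MvPolynomial
open Pool.Agent.H17 (PN VanishesAt ZariskiClosedIn HolomorphicInto puncturedDisc)
open Pool.Agent.H17GT (coordFun)
open Pool.Agent.H17LG.Variety (FunField IsLogGeneralType ratio)
open Pool.Agent.H62.SA (locVar OnBd)

noncomputable section

namespace Pool.Agent.H13.CV

variable {N : ℕ}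

open Pool.Agent.H17 in
open Pool.Agent.H17.EntFun in
private lemma HomM_vanishes_mk {G : MvPolynomial (Fin (N + 1)) ℂ} {n : ℕ} (hG : G.IsHomogeneous n) {v : Fin (N + 1) → ℂ} (hv : v ≠ 0) :
    VanishesAt G (Projectivization.mk ℂ v hv) ↔ eval v G = 0 := by
  obtain ⟨u, hu⟩ := Projectivization.exists_smul_eq_mk_rep ℂ v hv
  have h1 : eval (Projectivization.mk ℂ v hv).rep G = (u : ℂ) ^ n * eval v G := by
    rw [← hu]
    have h2 := Pool.Agent.H92.GT.Proj.aeval_scale (K := ℂ) hG (u : ℂ) v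
    have h3 : ∀ w : Fin (N + 1) → ℂ, eval w G = aeval w G := fun w => rfl
    rw [h3, h3]
    exact h2
  unfold Pool.Agent.H17.VanishesAt
  rw [h1, mul_eq_zero]
  constructor
  · rintro (h | h)
    · exact absurd h (pow_ne_zero _ u.ne_zero)
    · exact h
  · exact fun h => Or.inr h

private def HomM_val (P : Ideal (MvPolynomial (Fin (N + 1)) ℂ)) [P.IsPrime] :
    FunField P →ₐ[ℂ] FractionRing (MvPolynomial (Fin (N + 1)) ℂ ⧸ P) :=
  (Pool.Agent.H17GT.functionField P).val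

open Pool.Agent.H17GT (functionField)

private lemma HomM_val_ratio (P : Ideal (MvPolynomial (Fin (N + 1)) ℂ)) [P.IsPrime] (i j : Fin (N + 1)) :
    HomM_val P (ratio P i j) = coordFun P i / coordFun P j := rfl

private lemma HomM_val_injective (P : Ideal (MvPolynomial (Fin (N + 1)) ℂ)) [P.IsPrime] : Function.Injective (HomM_val P) :=
  (HomM_val P).injective

private lemma HomM_generate (P : Ideal (MvPolynomial (Fin (N + 1)) ℂ)) [P.IsPrime] :
    IntermediateField.adjoin ℂ {y : FunField P | ∃ i j, y = ratio P i j} = ⊤ := by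
  have h : IntermediateField.adjoin ℂ {y : functionField P | ∃ i j, y = ratio P i j} = ⊤ := by
    rw [← IntermediateField.lift_inj, IntermediateField.lift_adjoin, IntermediateField.lift_top]
    conv_rhs => rw [functionField]
    congr 1
    ext y
    constructor
    · rintro ⟨y', ⟨i, j, rfl⟩, rfl⟩
      exact ⟨i, j, rfl⟩
    · rintro ⟨i, j, rfl⟩
      exact ⟨ratio P i j, ⟨i, j, rfl⟩, rfl⟩
  exact h

private lemma HomM_ratio_div (P : Ideal (MvPolynomial (Fin (N + 1)) ℂ)) [P.IsPrime] {j : Fin (N + 1)} (hj : coordFun P j ≠ 0) (i l : Fin (N + 1)) :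
    ratio P i l = ratio P i j / ratio P l j := by
  apply HomM_val_injective
  rw [map_div₀, HomM_val_ratio, HomM_val_ratio, HomM_val_ratio, div_div_div_cancel_right₀ hj]

private lemma HomM_aeval_ratio (P : Ideal (MvPolynomial (Fin (N + 1)) ℂ)) [P.IsPrime] {G : MvPolynomial (Fin (N + 1)) ℂ} {n : ℕ} (hG : G.IsHomogeneous n)
    (hGP : G ∈ P) (j : Fin (N + 1)) : aeval (fun i => ratio P i j) G = 0 := by
  apply HomM_val_injective
  have h3 : HomM_val P (aeval (fun i => ratio P i j) G) = aeval (fun i => HomM_val P (ratio P i j)) G := by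
    rw [← MvPolynomial.comp_aeval]
    rfl
  have h4 : (fun i => HomM_val P (ratio P i j)) = fun i => (coordFun P j)⁻¹ * coordFun P i := by
    funext i
    rw [HomM_val_ratio, div_eq_inv_mul]
  rw [h3, h4, Pool.Agent.H92.GT.Proj.aeval_scale hG, (Pool.Agent.H92.GT.Proj.aeval_coordFun_eq_zero_iff P G).2 hGP, mul_zero, map_zero]

private lemma HomM_toM_aeval (c : Fin (N + 1) → Pool.Agent.H17.EntFun) (G : MvPolynomial (Fin (N + 1)) ℂ) : aeval (fun i => toM (c i)) G = toM (aeval c G) := by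
  have h := MvPolynomial.aeval_algebraMap_apply (R := ℂ) (A := Pool.Agent.H17.EntFun) Mer c G
  exact h

private lemma HomM_ev_aeval (z : ℂ) (c : Fin (N + 1) → Pool.Agent.H17.EntFun) (G : MvPolynomial (Fin (N + 1)) ℂ) :
    ((aeval c G : Pool.Agent.H17.EntFun) : ℂ → ℂ) z = eval (fun i => (c i : ℂ → ℂ) z) G := by
  have h1 : Pool.Agent.H17.EntFun.ev z (aeval c G) = eval₂ ((Pool.Agent.H17.EntFun.ev z).comp (algebraMap ℂ _)) (fun i => Pool.Agent.H17.EntFun.ev z (c i)) G := by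
    rw [aeval_def]
    exact (MvPolynomial.hom_eval₂ G _ _ _)
  exact h1

theorem homMap0 (Q : Ideal (MvPolynomial (Fin (N + 1)) ℂ)) [Q.IsPrime] (hX : ∃ i, (X i : MvPolynomial (Fin (N + 1)) ℂ) ∉ Q)
    (hK : CurveField (FunField Q)) (φ : FunField Q →ₐ[ℂ] Mer) :
    ∃ f : ℂ → PN N, HolomorphicInto f Set.univ ∧ (∀ z, ∀ R ∈ Q, ∀ n, R.IsHomogeneous n → VanishesAt R (f z)) ∧ (∃ z w, f z ≠ f w) ∧
      ∀ z₀ : ℂ, ∃ l, coordFun Q l ≠ 0 ∧ (∀ i, 0 ≤ ordM z₀ (φ (ratio Q i l))) ∧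
        ∀ (R : MvPolynomial (Fin (N + 1)) ℂ) (d : ℕ), R.IsHomogeneous d → VanishesAt R (f z₀) → 0 < ordM z₀ (φ (aeval (fun i => ratio Q i l) R)) := by
  classical
  obtain ⟨j, hjX⟩ := hX
  have hj : coordFun Q j ≠ 0 := by
    intro h0
    apply hjX
    rw [← Pool.Agent.H92.GT.Proj.aeval_coordFun_eq_zero_iff, aeval_X]
    exact h0
  have hrj : ratio Q j j = 1 := by
    apply HomM_val_injective
    rw [HomM_val_ratio, map_one, div_self hj]
  -- the common denominator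
  obtain ⟨b', hb'⟩ := IsLocalization.exist_integer_multiples_of_finite (nonZeroDivisors Pool.Agent.H17.EntFun) (fun i : Fin (N + 1) => φ (ratio Q i j))
  have hb'0 : (b' : Pool.Agent.H17.EntFun) ≠ 0 := nonZeroDivisors.ne_zero b'.2
  have hinj : Function.Injective (algebraMap Pool.Agent.H17.EntFun Mer) := IsFractionRing.injective _ _
  have htb : toM (b' : Pool.Agent.H17.EntFun) ≠ 0 := fun h => hb'0 (hinj (h.trans (map_zero _).symm))
  choose a ha using hb'
  have ha' : ∀ i, toM (a i) = toM (b' : Pool.Agent.H17.EntFun) * φ (ratio Q i j) := by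
    intro i
    have h1 := ha i
    rw [Algebra.smul_def] at h1
    exact h1
  have haj : a j ≠ 0 := by
    intro h0
    have h1 := ha' j
    rw [h0, hrj, map_one, mul_one] at h1
    exact htb (h1.symm.trans (map_zero _))
  obtain ⟨f, hf, hfz⟩ := exists_map a ⟨j, haj⟩
  -- the coordinates
  have key : ∀ (z₀ : ℂ) (k : ℕ) (c : Fin (N + 1) → Pool.Agent.H17.EntFun), (∀ i, a i = Pool.Agent.H17.EntFun.coord z₀ ^ k * c i) →
      ∃ s : Mer, s ≠ 0 ∧ ∀ i, φ (ratio Q i j) = s * toM (c i) := by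
    intro z₀ k c hc
    refine ⟨toM (Pool.Agent.H17.EntFun.coord z₀ ^ k) / toM (b' : Pool.Agent.H17.EntFun), ?_, ?_⟩
    · refine div_ne_zero ?_ htb
      intro h0
      exact pow_ne_zero k (Pool.Agent.H17.EntFun.coord_ne_zero z₀) (hinj (h0.trans (map_zero _).symm))
    · intro i
      have h1 := ha' i
      rw [hc i] at h1
      have h2 : toM (Pool.Agent.H17.EntFun.coord z₀ ^ k * c i) = toM (Pool.Agent.H17.EntFun.coord z₀ ^ k) * toM (c i) := map_mul _ _ _
      rw [h2] at h1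
      rw [div_mul_eq_mul_div, h1, mul_div_cancel_left₀ _ htb]
  refine ⟨f, hf, ?_, ?_, ?_⟩
  · -- the map is into the closed subvariety
    intro z₀ G hGQ n hG
    obtain ⟨k, c, h, hc, hfc⟩ := hfz z₀
    obtain ⟨s, hs, hsc⟩ := key z₀ k c hc
    rw [hfc, HomM_vanishes_mk hG]
    have h1 := congrArg φ (HomM_aeval_ratio Q hG hGQ j)
    rw [map_zero] at h1
    have h2 : φ (aeval (fun i => ratio Q i j) G) = aeval (fun i => φ (ratio Q i j)) G := by
      rw [← MvPolynomial.comp_aeval]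
      rfl
    have h3 : (fun i => φ (ratio Q i j)) = fun i => s * toM (c i) := funext hsc
    rw [h2, h3, Pool.Agent.H92.GT.Proj.aeval_scale hG, HomM_toM_aeval] at h1
    have h4 : toM (aeval c G) = 0 := (mul_eq_zero.1 h1).resolve_left (pow_ne_zero _ hs)
    have h5 : aeval c G = 0 := hinj (h4.trans (map_zero _).symm)
    rw [← HomM_ev_aeval, h5]
    rfl
  · -- the map is not constant
    by_contra hcon
    push Not at hcon
    obtain ⟨k, c, h, hc, hfc⟩ := hfz 0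
    obtain ⟨l, hl⟩ := Function.ne_iff.1 h
    set v : Fin (N + 1) → ℂ := fun i => (c i : ℂ → ℂ) 0 with hv
    have hl' : v l ≠ 0 := hl
    have hprop : ∀ i, a i * algebraMap ℂ Pool.Agent.H17.EntFun (v l) = a l * algebraMap ℂ Pool.Agent.H17.EntFun (v i) := by
      intro i
      ext z
      obtain ⟨k', c', h', hc', hfc'⟩ := hfz z
      have h1 : Projectivization.mk ℂ (fun i => (c' i : ℂ → ℂ) z) h' = Projectivization.mk ℂ v h := by
        rw [← hfc', ← hfc]
        exact hcon z 0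
      rw [Projectivization.mk_eq_mk_iff'] at h1
      obtain ⟨u, hu⟩ := h1
      have h2 : ∀ i, (c' i : ℂ → ℂ) z = u * v i := fun i => (congrFun hu i).symm
      have h3 : ∀ i, (a i : ℂ → ℂ) z = (z - z) ^ k' * (u * v i) := by
        intro i
        rw [hc' i, ← h2 i]
        rfl
      change (a i : ℂ → ℂ) z * v l = (a l : ℂ → ℂ) z * v i
      rw [h3 i, h3 l]
      ring
    have hprop' : ∀ i, φ (ratio Q i j) * algebraMap ℂ Mer (v l) = φ (ratio Q l j) * algebraMap ℂ Mer (v i) := by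
      intro i
      have h1 := congrArg (algebraMap Pool.Agent.H17.EntFun Mer) (hprop i)
      rw [map_mul, map_mul] at h1
      have h2 := ha' i
      have h3 := ha' l
      have h4 : toM (b' : Pool.Agent.H17.EntFun) * (φ (ratio Q i j) * algebraMap ℂ Mer (v l)) =
          toM (b' : Pool.Agent.H17.EntFun) * (φ (ratio Q l j) * algebraMap ℂ Mer (v i)) := by
        rw [← mul_assoc, ← mul_assoc, ← h2, ← h3, algebraMap_eq, algebraMap_eq]
        exact h1
      exact mul_left_cancel₀ htb h4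
    have hpropK : ∀ i, ratio Q i j * algebraMap ℂ (FunField Q) (v l) = ratio Q l j * algebraMap ℂ (FunField Q) (v i) := by
      intro i
      have hφ : Function.Injective φ := φ.toRingHom.injective
      apply hφ
      have h1 := hprop' i
      rw [map_mul, map_mul, AlgHom.commutes, AlgHom.commutes]
      exact h1
    have hvl : algebraMap ℂ (FunField Q) (v l) ≠ 0 := by
      intro h0
      exact hl' ((algebraMap ℂ (FunField Q)).injective (h0.trans (map_zero _).symm))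
    have hrl : ratio Q l j ≠ 0 := by
      intro h0
      have h1 := hpropK j
      rw [h0, zero_mul, hrj, one_mul] at h1
      exact hvl h1
    have hrc : ∀ i, ratio Q i j / ratio Q l j = algebraMap ℂ (FunField Q) (v i / v l) := by
      intro i
      rw [map_div₀, div_eq_div_iff hrl hvl, mul_comm (algebraMap ℂ (FunField Q) (v i))]
      exact hpropK i
    have hbot : IntermediateField.adjoin ℂ {y : FunField Q | ∃ i j, y = ratio Q i j} = ⊥ := by
      rw [IntermediateField.adjoin_eq_bot_iff]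
      rintro y ⟨i, i', rfl⟩
      have h1 : ratio Q i i' = (ratio Q i j / ratio Q l j) / (ratio Q i' j / ratio Q l j) := by
        rw [div_div_div_cancel_right₀ hrl, ← HomM_ratio_div Q hj]
      rw [h1, hrc, hrc, ← map_div₀]
      exact IntermediateField.algebraMap_mem _ _
    obtain ⟨x, hx⟩ := hK.exists_tr
    apply hx
    have hx1 : x ∈ (⊥ : IntermediateField ℂ (FunField Q)) := by
      rw [← hbot, HomM_generate]
      exact IntermediateField.mem_top
    obtain ⟨t, ht⟩ := IntermediateField.mem_bot.1 hx1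
    rw [← ht]
    exact isAlgebraic_algebraMap t
  · -- the forms which vanish at a point
    intro z₀
    obtain ⟨k, c, h, hc, hfc⟩ := hfz z₀
    obtain ⟨s, hs, hsc⟩ := key z₀ k c hc
    obtain ⟨l, hl⟩ := Function.ne_iff.1 h
    have hl' : (c l : ℂ → ℂ) z₀ ≠ 0 := hl
    have hcl : toM (c l) ≠ 0 := by
      intro h0
      have h1 : c l = 0 := hinj (h0.trans (map_zero _).symm)
      rw [h1] at hl'
      exact hl' rfl
    have hrl : ratio Q l j ≠ 0 := by
      intro h0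
      have h1 := hsc l
      rw [h0, map_zero] at h1
      exact mul_ne_zero hs hcl h1.symm
    have hcfl : coordFun Q l ≠ 0 := by
      intro h0
      apply hrl
      apply HomM_val_injective
      rw [HomM_val_ratio, h0, zero_div, map_zero]
    have hordl : ordM z₀ (toM (c l)) = 0 := by
      apply le_antisymm
      · rw [← not_lt, ordM_toM_pos]
        exact hl'
      · exact ordM_toM_nonneg _ _
    have hrat : ∀ i, φ (ratio Q i l) * toM (c l) = toM (c i) := by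
      intro i
      rw [HomM_ratio_div Q hj i l, map_div₀, hsc i, hsc l, mul_div_mul_left _ _ hs, div_mul_cancel₀ _ hcl]
    refine ⟨l, hcfl, fun i => ?_, fun R d hd hR => ?_⟩
    · have h1 := congrArg (ordM z₀) (hrat i)
      rw [AddValuation.map_mul, hordl, add_zero] at h1
      rw [h1]
      exact ordM_toM_nonneg _ _
    · rw [hfc, HomM_vanishes_mk hd] at hR
      have h2 : φ (aeval (fun i => ratio Q i l) R) = aeval (fun i => φ (ratio Q i l)) R := by
        rw [← MvPolynomial.comp_aeval]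
        rfl
      have h3 : toM (c l) ^ d * φ (aeval (fun i => ratio Q i l) R) = toM (aeval c R) := by
        rw [h2, ← Pool.Agent.H92.GT.Proj.aeval_scale hd, ← HomM_toM_aeval]
        congr 2
        funext i
        rw [mul_comm]
        exact hrat i
      have h4 := congrArg (ordM z₀) h3
      rw [AddValuation.map_mul, AddValuation.map_pow, hordl, smul_zero, zero_add] at h4
      rw [h4, ordM_toM_pos, HomM_ev_aeval]
      exact hR

theorem nonneg_of_smul {e : ℕ} (he : 1 ≤ e) {a b : WithTop ℤ} (h : a = e • b) (ha : 0 ≤ a) : 0 ≤ b := by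
  by_contra hcon
  push Not at hcon
  have hb : b ≠ ⊤ := ne_top_of_lt hcon
  obtain ⟨n, rfl⟩ := WithTop.ne_top_iff_exists.mp hb
  have h1 : n < 0 := by exact_mod_cast hcon
  rw [h, ← WithTop.coe_nsmul] at ha
  have h2 : (0 : ℤ) ≤ e • n := by exact_mod_cast ha
  rw [nsmul_eq_mul] at h2
  have h3 : (1 : ℤ) ≤ e := by exact_mod_cast he
  nlinarith

theorem pos_of_smul {e : ℕ} {a b : WithTop ℤ} (h : a = e • b) (ha : 0 < a) : 0 < b := by
  by_contra hcon
  push Not at hcon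
  have h1 : e • b ≤ e • (0 : WithTop ℤ) := nsmul_le_nsmul_right hcon e
  rw [smul_zero, ← h] at h1
  exact absurd ha (not_lt.mpr h1)

theorem homMapL (Q : Ideal (MvPolynomial (Fin (N + 1)) ℂ)) [Q.IsPrime] (hX : ∃ i, (X i : MvPolynomial (Fin (N + 1)) ℂ) ∉ Q) (hK : CurveField (FunField Q))
    {s : ℕ} {G : Fin s → MvPolynomial (Fin (N + 1)) ℂ} (hG : ∀ m, ∃ d, (G m).IsHomogeneous d) (φ : FunField Q →ₐ[ℂ] Mer)
    (hB : ∀ (z₀ : ℂ) (E : Place (FunField Q)) (e : ℕ), 1 ≤ e → (∀ g, ordM z₀ (φ g) = e • E.ord g) → ¬ OnBd Q G E) :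
    ∃ f : ℂ → PN N, HolomorphicInto f Set.univ ∧ (∀ z, f z ∈ locVar Q G) ∧ ∃ z w, f z ≠ f w := by
  obtain ⟨f, hf, hfQ, hne, hz⟩ := homMap0 Q hX hK φ
  refine ⟨f, hf, fun z₀ => ⟨hfQ z₀, ?_⟩, hne⟩
  by_contra hcon
  push Not at hcon
  obtain ⟨E, e, he, hE⟩ := exists_placeM hK φ z₀
  obtain ⟨l, hl, hreg, hR⟩ := hz z₀
  refine hB z₀ E e he hE ⟨l, hl, fun i => nonneg_of_smul he (hE _) (hreg i), fun m => ?_⟩
  obtain ⟨d, hd⟩ := hG m
  exact pos_of_smul (hE _) (hR _ d hd (hcon m))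

end Pool.Agent.H13.CV

end
end

section

/-!
# Qup Hom: the embedding of the function fields given by a dominant regular map
-/

set_option autoImplicit false

open MvPolynomial

noncomputable section

namespace Pool.Agent.H7.Qup

open Pool.Agent.H17GT (coordFun)
open Pool.Agent.H17LG.Variety (FunField ratio)
open Pool.Agent.H17R (gen gen_eq_zero_iff ratio_self adjoin_ratio coordFun_ne_zero_iff)
open Pool.Agent.H7.Bir (exists_form aeval_comp aeval_div)

variable {N M : ℕ}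

/-- A homomorphism from a function field with given values at the coordinates. -/
theorem exists_hom_val {Q : Ideal (MvPolynomial (Fin (N + 1)) ℂ)} [Q.IsPrime] {j : Fin (N + 1)} (hj : coordFun Q j ≠ 0)
    {L : Type} [Field L] [Algebra ℂ L] {x : Fin (N + 1) → L} (hx : x j = 1)
    (h : ∀ (n : ℕ) (R : MvPolynomial (Fin (N + 1)) ℂ), R.IsHomogeneous n → (aeval x R = 0 ↔ R ∈ Q)) :
    ∃ e : FunField Q →ₐ[ℂ] L, ∀ i, e (ratio Q i j) = x i := by
  set ξ : Fin (N + 1) → FunField Q := fun i => ratio Q i j with hξ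
  have hker : ∀ R : MvPolynomial (Fin (N + 1)) ℂ, aeval ξ R = 0 ↔ aeval x R = 0 := by
    intro R
    obtain ⟨D, h1⟩ := exists_form j R
    obtain ⟨R', h2, h3⟩ := h1 D le_rfl
    rw [← h3 _ ξ (ratio_self hj), ← h3 _ x hx, h D R' h2]
    exact gen_eq_zero_iff hj h2
  set f : MvPolynomial (Fin (N + 1)) ℂ →ₐ[ℂ] (aeval ξ : MvPolynomial (Fin (N + 1)) ℂ →ₐ[ℂ] FunField Q).range :=
    (aeval ξ : MvPolynomial (Fin (N + 1)) ℂ →ₐ[ℂ] FunField Q).rangeRestrict with hf
  have hfs : Function.Surjective f := AlgHom.rangeRestrict_surjective _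
  have hfv : ∀ R, ((f R : (aeval ξ : MvPolynomial (Fin (N + 1)) ℂ →ₐ[ℂ] FunField Q).range) : FunField Q) = aeval ξ R := fun R => rfl
  have hle : RingHom.ker f.toRingHom ≤ RingHom.ker (aeval x : MvPolynomial (Fin (N + 1)) ℂ →ₐ[ℂ] L).toRingHom := by
    intro R hR
    have h1 : f R = 0 := hR
    have h2 : aeval ξ R = 0 := by
      rw [← hfv, h1]
      rfl
    exact (hker R).1 h2
  set g := AlgHom.liftOfSurjective f hfs (aeval x) hle with hg
  have hgv : ∀ R, g (f R) = aeval x R := fun R => AlgHom.liftOfSurjective_apply f hfs (aeval x) hle R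
  have hgi : Function.Injective g := by
    rw [injective_iff_map_eq_zero]
    intro a ha
    obtain ⟨R, rfl⟩ := hfs a
    rw [hgv] at ha
    exact Subtype.ext ((hker R).2 ha)
  have hfr : IsFractionRing (aeval ξ : MvPolynomial (Fin (N + 1)) ℂ →ₐ[ℂ] FunField Q).range (FunField Q) := by
    refine IsFractionRing.of_field _ _ fun z => ?_
    have hz : z ∈ IntermediateField.adjoin ℂ (Set.range ξ) := by
      rw [adjoin_ratio hj]
      trivial
    obtain ⟨r, s, hrs⟩ := (IntermediateField.mem_adjoin_range_iff ℂ ξ z).1 hz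
    exact ⟨f r, f s, hrs⟩
  refine ⟨IsFractionRing.liftAlgHom hgi, fun i => ?_⟩
  rw [IsFractionRing.liftAlgHom_apply]
  have h1 : ratio Q i j = algebraMap (aeval ξ : MvPolynomial (Fin (N + 1)) ℂ →ₐ[ℂ] FunField Q).range (FunField Q) (f (X i)) := by
    change _ = aeval ξ (X i)
    rw [aeval_X]
  rw [h1, IsFractionRing.lift_algebraMap]
  change g (f (X i)) = _
  rw [hgv, aeval_X]

end Pool.Agent.H7.Qup

end
end

section

/-!
# MQ CDefs: the invariant part of an algebraic curve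
-/

set_option autoImplicit false

open Topology Filter MvPolynomial Asymptotics

noncomputable section

namespace Pool.Agent.MQ

open Pool.Agent.H36.BP (EN)
open Pool.Agent.H17BP (IsChart Pr)
open Pool.Agent.H17EF (projVar coneE)

variable {M : ℕ}

/-- through `x` there is a piece of a leaf which is contained in `{R = 0}` -/
def InvAt (P : Ideal (MvPolynomial (Fin (M + 1)) ℂ)) (FF : Set (EN M × EN M)) (R : MvPolynomial (Fin (M + 1)) ℂ) (x : EN M) : Prop :=
  ∃ γ : ℂ → EN M, AnalyticAt ℂ γ 0 ∧ γ 0 = x ∧ (∀ᶠ t in 𝓝 (0 : ℂ), γ t ∈ coneE P ∧ (γ t, deriv γ t) ∈ FF ∧ eval (γ t).ofLp R = 0) ∧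
    ∃ᶠ t in 𝓝 (0 : ℂ), ¬ Pr (γ t) x

/-- through `p` there is a curve tangent to `v` which is contained in `{q = 0}` -/
def LeafIn (v : ℂ × ℂ → ℂ × ℂ) (q : ℂ × ℂ → ℂ) (p : ℂ × ℂ) : Prop :=
  ∃ γ : ℂ → ℂ × ℂ, AnalyticAt ℂ γ 0 ∧ γ 0 = p ∧
    (∀ᶠ t in 𝓝 (0 : ℂ), (v (γ t)).1 * (deriv γ t).2 = (v (γ t)).2 * (deriv γ t).1 ∧ q (γ t) = 0) ∧ ∃ᶠ t in 𝓝 (0 : ℂ), γ t ≠ p

end Pool.Agent.MQ

end
end

section

/-!
# MQ/LeafReg: the leaves of a regular foliation in the zero set of a function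
-/

set_option autoImplicit false

open Topology Filter MvPolynomial Asymptotics

noncomputable section

namespace Pool.Agent.MQ

namespace LeafReg

theorem deriv_fst {γ : ℂ → ℂ × ℂ} {t : ℂ} (h : AnalyticAt ℂ γ t) : deriv (fun s => (γ s).1) t = (deriv γ t).1 := by
  have h1 : HasDerivAt γ (deriv γ t) t := h.differentiableAt.hasDerivAt
  exact ((ContinuousLinearMap.fst ℂ ℂ ℂ).hasFDerivAt.comp_hasDerivAt t h1).deriv

/-- a function which vanishes on a leaf through `p` vanishes on the whole line -/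
theorem zero_of_leaf {q : ℂ × ℂ → ℂ} {ρ : ℝ} (hq : ∀ p ∈ Metric.ball (0 : ℂ × ℂ) ρ, AnalyticAt ℂ q p) {p : ℂ × ℂ} (hp : p ∈ Metric.ball (0 : ℂ × ℂ) ρ)
    (h : LeafIn (fun _ => (0, 1)) q p) : ∀ y ∈ Metric.ball (0 : ℂ) ρ, q (p.1, y) = 0 := by
  obtain ⟨γ, hγ, h0, he, hf⟩ := h
  have hp1 : p.1 ∈ Metric.ball (0 : ℂ) ρ := by
    rw [mem_ball_zero_iff] at hp ⊢
    exact lt_of_le_of_lt (norm_fst_le p) hp
  have hp2 : p.2 ∈ Metric.ball (0 : ℂ) ρ := by
    rw [mem_ball_zero_iff] at hp ⊢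
    exact lt_of_le_of_lt (norm_snd_le p) hp
  have hg : AnalyticAt ℂ (fun t => (γ t).1) 0 := (ContinuousLinearMap.fst ℂ ℂ ℂ).analyticAt _ |>.comp hγ
  have hk : AnalyticAt ℂ (fun t => (γ t).2) 0 := (ContinuousLinearMap.snd ℂ ℂ ℂ).analyticAt _ |>.comp hγ
  have hd : ∀ᶠ t in 𝓝 (0 : ℂ), deriv (fun s => (γ s).1) t = 0 := by
    filter_upwards [he, hγ.eventually_analyticAt] with t ht hat
    rw [deriv_fst hat]
    have := ht.1
    simpa using this.symm
  have hc : ∀ᶠ t in 𝓝 (0 : ℂ), (γ t).1 = p.1 := by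
    obtain ⟨r, hr, hall⟩ := Metric.eventually_nhds_iff_ball.1 (hd.and hg.eventually_analyticAt)
    refine Metric.eventually_nhds_iff_ball.2 ⟨r, hr, fun t ht => ?_⟩
    have h1 := Metric.isOpen_ball.is_const_of_deriv_eq_zero (f := fun s => (γ s).1) (convex_ball (0 : ℂ) r).isPreconnected
      (fun s hs => (hall s hs).2.differentiableAt.differentiableWithinAt) (fun s hs => (hall s hs).1) ht (Metric.mem_ball_self hr)
    have h2 : (γ t).1 = (γ 0).1 := h1
    rw [h2, h0]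
  have hk2 : 𝓝 p.2 ≤ map (fun t => (γ t).2) (𝓝 0) := by
    rcases hk.eventually_constant_or_nhds_le_map_nhds with h1 | h1
    · exfalso
      refine hf ?_
      filter_upwards [hc, h1] with t a b
      simp only [not_not]
      rw [h0] at b
      exact Prod.ext a b
    · rwa [h0] at h1
  have hz : ∀ᶠ y in 𝓝 p.2, q (p.1, y) = 0 := by
    refine hk2 ?_
    change ∀ᶠ t in 𝓝 (0 : ℂ), q (p.1, (γ t).2) = 0
    filter_upwards [he, hc] with t a b
    rw [← b]
    exact a.2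
  have ha : AnalyticOnNhd ℂ (fun y => q (p.1, y)) (Metric.ball 0 ρ) := by
    intro y hy
    have h1 : AnalyticAt ℂ (fun y : ℂ => (p.1, y)) y := analyticAt_const.prod analyticAt_id
    refine AnalyticAt.fun_comp (f := fun y : ℂ => (p.1, y)) ?_ h1
    refine hq _ ?_
    rw [mem_ball_zero_iff] at hp1 hy ⊢
    exact max_lt hp1 hy
  exact fun y hy => ha.eqOn_zero_of_preconnected_of_eventuallyEq_zero (convex_ball _ _).isPreconnected hp2 hz hy

theorem leaf_of_zero {q : ℂ × ℂ → ℂ} {ρ : ℝ} {p : ℂ × ℂ} (hp : p ∈ Metric.ball (0 : ℂ × ℂ) ρ)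
    (h : ∀ y ∈ Metric.ball (0 : ℂ) ρ, q (p.1, y) = 0) : LeafIn (fun _ => (0, 1)) q p := by
  have hp2 : p.2 ∈ Metric.ball (0 : ℂ) ρ := by
    rw [mem_ball_zero_iff] at hp ⊢
    exact lt_of_le_of_lt (norm_snd_le p) hp
  have hd : ∀ t : ℂ, HasDerivAt (fun t : ℂ => (p.1, p.2 + t)) ((0 : ℂ), (1 : ℂ)) t := fun t =>
    (hasDerivAt_const t p.1).prodMk ((hasDerivAt_id t).const_add p.2)
  refine ⟨fun t => (p.1, p.2 + t), analyticAt_const.prod (analyticAt_const.add analyticAt_id), by simp, ?_, ?_⟩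
  · have h1 : ∀ᶠ t in 𝓝 (0 : ℂ), p.2 + t ∈ Metric.ball (0 : ℂ) ρ := by
      have hcont : Continuous fun t : ℂ => p.2 + t := by fun_prop
      have h2 := hcont.tendsto 0
      simp only [add_zero] at h2
      exact h2.eventually (Metric.isOpen_ball.mem_nhds hp2)
    filter_upwards [h1] with t ht
    rw [(hd t).deriv]
    exact ⟨by simp, h _ ht⟩
  · intro hcon
    have h1 : ∀ᶠ t : ℂ in 𝓝[≠] 0, t ≠ 0 := self_mem_nhdsWithin
    have h2 : ∀ᶠ t : ℂ in 𝓝[≠] 0, ¬ ((p.1, p.2 + t) ≠ p) := nhdsWithin_le_nhds hcon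
    obtain ⟨t, ht1, ht2⟩ := (h2.and h1).exists
    apply ht1
    intro he
    have := congrArg Prod.snd he
    simp at this
    exact ht2 this

end LeafReg

open LeafReg

/-- **Module C2.** -/
theorem leaf_regular {q : ℂ × ℂ → ℂ} (hq : AnalyticAt ℂ q 0) (hq0 : ∃ᶠ p in 𝓝 (0 : ℂ × ℂ), q p ≠ 0) :
    (∀ᶠ p in 𝓝 (0 : ℂ × ℂ), ¬ LeafIn (fun _ => (0, 1)) q p) ∨ ∀ᶠ p in 𝓝 (0 : ℂ × ℂ), (LeafIn (fun _ => (0, 1)) q p ↔ p.1 = 0) := by
  obtain ⟨ρ, hρ, hball⟩ := Metric.eventually_nhds_iff_ball.1 hq.eventually_analyticAt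
  have hiff : ∀ p ∈ Metric.ball (0 : ℂ × ℂ) ρ, (LeafIn (fun _ => (0, 1)) q p ↔ ∀ y ∈ Metric.ball (0 : ℂ) ρ, q (p.1, y) = 0) :=
    fun p hp => ⟨zero_of_leaf hball hp, leaf_of_zero hp⟩
  have hmem : ∀ᶠ p in 𝓝 (0 : ℂ × ℂ), p ∈ Metric.ball (0 : ℂ × ℂ) ρ := Metric.ball_mem_nhds _ hρ
  -- other lines are not contained in the zero set
  have hiso : ∀ᶠ x in 𝓝[≠] (0 : ℂ), ¬ ∀ y ∈ Metric.ball (0 : ℂ) ρ, q (x, y) = 0 := by
    by_contra hcon
    have hfr : ∃ᶠ x in 𝓝[≠] (0 : ℂ), ∀ y ∈ Metric.ball (0 : ℂ) ρ, q (x, y) = 0 := by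
      rw [Filter.not_eventually] at hcon
      exact hcon.mono fun x hx => not_not.1 hx
    apply hq0
    filter_upwards [hmem] with p hp
    rw [not_not]
    have hp1 : p.1 ∈ Metric.ball (0 : ℂ) ρ := by
      rw [mem_ball_zero_iff] at hp ⊢
      exact lt_of_le_of_lt (norm_fst_le p) hp
    have hp2 : p.2 ∈ Metric.ball (0 : ℂ) ρ := by
      rw [mem_ball_zero_iff] at hp ⊢
      exact lt_of_le_of_lt (norm_snd_le p) hp
    have ha : AnalyticOnNhd ℂ (fun x => q (x, p.2)) (Metric.ball 0 ρ) := by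
      intro x hx
      have h1 : AnalyticAt ℂ (fun x : ℂ => (x, p.2)) x := analyticAt_id.prod analyticAt_const
      refine AnalyticAt.fun_comp (f := fun x : ℂ => (x, p.2)) ?_ h1
      refine hball _ ?_
      rw [mem_ball_zero_iff] at hp2 hx ⊢
      exact max_lt hx hp2
    exact ha.eqOn_zero_of_preconnected_of_frequently_eq_zero (convex_ball _ _).isPreconnected (Metric.mem_ball_self hρ)
      (hfr.mono fun x hx => hx _ hp2) hp1
  rw [eventually_nhdsWithin_iff] at hiso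
  have hfst : Tendsto (fun p : ℂ × ℂ => p.1) (𝓝 0) (𝓝 (0 : ℂ)) := continuous_fst.tendsto' _ _ rfl
  have hiso2 : ∀ᶠ p : ℂ × ℂ in 𝓝 0, p.1 ≠ 0 → ¬ ∀ y ∈ Metric.ball (0 : ℂ) ρ, q (p.1, y) = 0 := by
    filter_upwards [hfst.eventually hiso] with p hp h1 using hp h1
  by_cases h0 : ∀ y ∈ Metric.ball (0 : ℂ) ρ, q (0, y) = 0
  · right
    filter_upwards [hmem, hiso2] with p hp h1
    rw [hiff p hp]
    constructor
    · intro h2
      by_contra h3
      exact h1 h3 h2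
    · intro h2
      rw [h2]
      exact h0
  · left
    filter_upwards [hmem, hiso2] with p hp h1
    rw [hiff p hp]
    by_cases h2 : p.1 = 0
    · rw [h2]; exact h0
    · exact h1 h2

end Pool.Agent.MQ

end
end

section

/-!
# MQ Ord: curves of order two

`∫ τ_R Δ log ‖F‖ ≤ C (1 + R²)` for the lifts `F` without zeros of the curves of order two.
-/

set_option autoImplicit false

open MeasureTheory Complex Set Filter Topology Laplacian InnerProductSpace

namespace Pool.Agent.MQ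

open Pool.Agent.H30M (rho)
open Pool.Agent.H36.BP (EN OrdTwo)

/-! ## the density at scale `R` -/

private theorem st_deriv_continuous : Continuous (deriv Real.smoothTransition) :=
  (Real.smoothTransition.contDiff (n := 1)).continuous_deriv le_rfl

/-- `rho (z / R) / R²` in logarithmic polar coordinates -/
theorem rho_scale {R : ℝ} (hR : 0 < R) (z : ℂ) :
    rho (z / R) / R ^ 2 = deriv Real.smoothTransition (Real.log ‖z‖ - Real.log R) / ‖z‖ ^ 2 := by
  rcases eq_or_ne z 0 with rfl | hz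
  · rw [zero_div, Pool.Agent.H30M.rho_eq_zero (Or.inl (by simp))]
    simp
  · have hn : 0 < ‖z‖ := norm_pos_iff.2 hz
    have e : ‖z / (R : ℂ)‖ = ‖z‖ / R := by
      rw [norm_div, Complex.norm_real, Real.norm_of_nonneg hR.le]
    rw [rho, e, Real.log_div hn.ne' hR.ne']
    field_simp

theorem continuous_rho_scale (R : ℝ) : Continuous fun z : ℂ => rho (z / R) / R ^ 2 :=
  (Pool.Agent.H30M.continuous_rho.comp (continuous_id.div_const _)).div_const _

theorem rho_scale_eq_zero {R : ℝ} (hR : 0 < R) {z : ℂ} (hz : ‖z‖ ≤ R ∨ Real.exp 1 * R ≤ ‖z‖) : rho (z / R) / R ^ 2 = 0 := by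
  have e : ‖z / (R : ℂ)‖ = ‖z‖ / R := by
    rw [norm_div, Complex.norm_real, Real.norm_of_nonneg hR.le]
  rw [Pool.Agent.H30M.rho_eq_zero, zero_div]
  rw [e, div_le_one hR, le_div_iff₀ hR]
  exact hz

theorem rho_scale_hasCompactSupport {R : ℝ} (hR : 0 < R) : HasCompactSupport fun z : ℂ => rho (z / R) / R ^ 2 := by
  refine HasCompactSupport.intro (isCompact_closedBall (0 : ℂ) (Real.exp 1 * R)) fun z hz => ?_
  rw [mem_closedBall_zero_iff, not_le] at hz
  exact rho_scale_eq_zero hR (Or.inr hz.le)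

theorem integrable_rho_scale_mul {R : ℝ} (hR : 0 < R) {u : ℂ → ℝ} (hu : Continuous u) :
    Integrable fun z : ℂ => rho (z / R) / R ^ 2 * u z :=
  ((continuous_rho_scale R).mul hu).integrable_of_hasCompactSupport (rho_scale_hasCompactSupport hR).mul_right

private theorem int_st_deriv (L : ℝ) : ∫ s : ℝ, deriv Real.smoothTransition (s - L) = 1 := by
  rw [integral_sub_right_eq_self (fun s => deriv Real.smoothTransition s) L]
  have h1 : ∫ s : ℝ, deriv Real.smoothTransition s = ∫ s in (0 : ℝ)..1, deriv Real.smoothTransition s := by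
    rw [intervalIntegral.integral_of_le zero_le_one]
    refine (setIntegral_eq_integral_of_forall_compl_eq_zero fun s hs => Pool.Agent.H30M.deriv_st_eq_zero ?_).symm
    rw [mem_Ioc, not_and_or, not_lt, not_le] at hs
    exact hs.imp id le_of_lt
  rw [h1, intervalIntegral.integral_deriv_eq_sub
    (fun x _ => (Real.smoothTransition.contDiff (n := 1)).differentiable (by norm_num) x) (st_deriv_continuous.intervalIntegrable _ _)]
  simp

/-- averages with respect to `rho (z / R) / R²` are controlled by circle averages -/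
theorem int_rho_scale_le {u : ℂ → ℝ} (hu : Continuous u) {R B : ℝ} (hR : 0 < R)
    (hB : ∀ r, R ≤ r → r ≤ Real.exp 1 * R → Real.circleAverage u 0 r ≤ B) :
    ∫ z : ℂ, rho (z / R) / R ^ 2 * u z ≤ 2 * Real.pi * B := by
  have hint := integrable_rho_scale_mul hR hu
  simp only [rho_scale hR] at hint ⊢
  rw [polar_radial (fun s => deriv Real.smoothTransition (s - Real.log R)) u hint]
  refine mul_le_mul_of_nonneg_left ?_ (by positivity)
  have hz : ∀ s : ℝ, s ∉ Icc (Real.log R) (Real.log R + 1) → deriv Real.smoothTransition (s - Real.log R) = 0 := by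
    intro s hs
    rw [mem_Icc, not_and_or, not_le, not_le] at hs
    exact Pool.Agent.H30M.deriv_st_eq_zero (hs.imp (fun h => by linarith) fun h => by linarith)
  have hcs : HasCompactSupport fun s : ℝ => deriv Real.smoothTransition (s - Real.log R) :=
    HasCompactSupport.intro isCompact_Icc hz
  have hc : Continuous fun s : ℝ => deriv Real.smoothTransition (s - Real.log R) :=
    st_deriv_continuous.comp (continuous_id.sub continuous_const)
  have hca : Continuous fun s : ℝ => Real.circleAverage u 0 (Real.exp s) := by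
    have h1 : (fun s : ℝ => Real.circleAverage u 0 (Real.exp s)) =
        fun s => (2 * Real.pi)⁻¹ * ∫ θ in (0 : ℝ)..2 * Real.pi, u (circleMap 0 (Real.exp s) θ) := by
      funext s
      rw [Real.circleAverage_def, smul_eq_mul]
    rw [h1]
    refine continuous_const.mul ?_
    refine intervalIntegral.continuous_parametric_intervalIntegral_of_continuous' (f := fun (s : ℝ) (θ : ℝ) => u (circleMap 0 (Real.exp s) θ)) ?_ _ _
    unfold circleMap
    fun_prop
  have i1 : Integrable fun s : ℝ => deriv Real.smoothTransition (s - Real.log R) * Real.circleAverage u 0 (Real.exp s) :=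
    (hc.mul hca).integrable_of_hasCompactSupport hcs.mul_right
  have i2 : Integrable fun s : ℝ => deriv Real.smoothTransition (s - Real.log R) * B :=
    (hc.mul continuous_const).integrable_of_hasCompactSupport hcs.mul_right
  calc ∫ s : ℝ, deriv Real.smoothTransition (s - Real.log R) * Real.circleAverage u 0 (Real.exp s)
      ≤ ∫ s : ℝ, deriv Real.smoothTransition (s - Real.log R) * B := by
        refine integral_mono i1 i2 fun s => ?_
        by_cases hs : s ∈ Icc (Real.log R) (Real.log R + 1)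
        · refine mul_le_mul_of_nonneg_left (hB _ ?_ ?_) (Pool.Agent.H30M.deriv_st_nonneg _)
          · rw [← Real.log_le_iff_le_exp hR]
            exact hs.1
          · have h2 := Real.exp_le_exp.2 hs.2
            rw [Real.exp_add, Real.exp_log hR] at h2
            linarith [h2, mul_comm R (Real.exp 1)]
        · simp only [hz s hs, zero_mul, le_refl]
    _ = B := by rw [integral_mul_const, int_st_deriv, one_mul]

/-- the characteristic function of a curve of order two -/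
theorem int_rho_scale_le_of_order {u : ℂ → ℝ} (hu : Continuous u) {A : ℝ}
    (hA : ∀ r : ℝ, 0 < r → Real.circleAverage u 0 r ≤ A * (1 + r ^ 2)) :
    ∃ C : ℝ, 0 ≤ C ∧ ∀ R : ℝ, 0 < R → ∫ z : ℂ, rho (z / R) / R ^ 2 * u z ≤ C * (1 + R ^ 2) := by
  have he : 1 ≤ Real.exp 1 := Real.one_le_exp zero_le_one
  refine ⟨2 * Real.pi * (|A| * Real.exp 1 ^ 2), by positivity, fun R hR => ?_⟩
  have h := int_rho_scale_le hu (B := |A| * Real.exp 1 ^ 2 * (1 + R ^ 2)) hR fun r h1 h2 => by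
    have hr : 0 < r := hR.trans_le h1
    calc Real.circleAverage u 0 r ≤ A * (1 + r ^ 2) := hA r hr
      _ ≤ |A| * (1 + r ^ 2) := mul_le_mul_of_nonneg_right (le_abs_self A) (by positivity)
      _ ≤ |A| * (Real.exp 1 ^ 2 * (1 + R ^ 2)) := by
          refine mul_le_mul_of_nonneg_left ?_ (abs_nonneg _)
          have h3 : r ^ 2 ≤ (Real.exp 1 * R) ^ 2 := pow_le_pow_left₀ hr.le h2 2
          have h4 : (1 : ℝ) ≤ Real.exp 1 ^ 2 := one_le_pow₀ he
          nlinarith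
      _ = |A| * Real.exp 1 ^ 2 * (1 + R ^ 2) := by ring
  calc _ ≤ _ := h
    _ = _ := by ring

/-! ## lifts -/

section

variable {V : Type} [NormedAddCommGroup V] [InnerProductSpace ℂ V] [CompleteSpace V]

theorem contDiff_log_norm {F : ℂ → V} (hF : Differentiable ℂ F) (h0 : ∀ z, F z ≠ 0) {n : ℕ∞} :
    ContDiff ℝ n fun z => Real.log ‖F z‖ := by
  have h1 : ContDiff ℝ n F := (hF.contDiff (n := n)).restrict_scalars ℝ
  exact (h1.norm ℂ h0).log fun z => norm_ne_zero_iff.2 (h0 z)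

theorem continuous_log_norm {F : ℂ → V} (hF : Differentiable ℂ F) (h0 : ∀ z, F z ≠ 0) : Continuous fun z => Real.log ‖F z‖ :=
  (contDiff_log_norm hF h0 (n := 0)).continuous

/-- ORD: `I(R) = ∫ τ_R Δ log ‖F‖ ≤ C (1 + R²)` -/
theorem ord_int {F : ℂ → V} (hF : Differentiable ℂ F) (h0 : ∀ z, F z ≠ 0) {A : ℝ}
    (hA : ∀ r : ℝ, 0 < r → Real.circleAverage (fun z => Real.log ‖F z‖) 0 r ≤ A * (1 + r ^ 2)) :
    ∃ C : ℝ, 0 ≤ C ∧ ∀ R : ℝ, 0 < R → ∀ τ : ℂ → ℝ, ContDiff ℝ 2 τ → HasCompactSupport τ →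
      (∀ z, Δ τ z = rho (z / R) / R ^ 2 - rho z) → ∫ z, τ z * Δ (fun z => Real.log ‖F z‖) z ≤ C * (1 + R ^ 2) := by
  have hc := continuous_log_norm hF h0
  obtain ⟨C, hC0, hC⟩ := int_rho_scale_le_of_order hc hA
  set B : ℝ := ∫ z : ℂ, rho z * Real.log ‖F z‖ with hB
  refine ⟨C + |B|, by positivity, fun R hR τ hτ hτc hlap => ?_⟩
  rw [Pool.Agent.H30M.green2 hτ hτc fun z _ => (contDiff_log_norm hF h0 (n := 2)).contDiffAt]
  simp only [hlap, sub_mul]
  have i2 : Integrable fun z : ℂ => rho z * Real.log ‖F z‖ := by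
    have h := integrable_rho_scale_mul one_pos hc
    simpa using h
  rw [integral_sub (integrable_rho_scale_mul hR hc) i2, ← hB]
  have h1 := hC R hR
  have h2 : -B ≤ |B| := neg_le_abs B
  nlinarith [abs_nonneg B, sq_nonneg R]

/-- ORD for the weights `tau R` -/
theorem ord_tau {F : ℂ → V} (hF : Differentiable ℂ F) (h0 : ∀ z, F z ≠ 0) {A : ℝ}
    (hA : ∀ r : ℝ, 0 < r → Real.circleAverage (fun z => Real.log ‖F z‖) 0 r ≤ A * (1 + r ^ 2)) :
    ∃ C : ℝ, 0 ≤ C ∧ ∀ R : ℝ, 1 ≤ R → ∫ z, Pool.Agent.H30M.tau R z * Δ (fun z => Real.log ‖F z‖) z ≤ C * (1 + R ^ 2) := by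
  obtain ⟨C, hC0, hC⟩ := ord_int hF h0 hA
  exact ⟨C, hC0, fun R hR => hC R (by linarith) _ (Pool.Agent.H30M.contDiff_tau R) (Pool.Agent.H30M.hcs_tau hR)
    fun z => Pool.Agent.H30M.lap_tau hR z⟩

omit [CompleteSpace V] in
/-- a curve of order two (bounded lifts on discs) has a characteristic function bounded by `A (1 + r²)` -/
theorem circleAverage_le_of_ordTwo {F : ℂ → V} (hF : Differentiable ℂ F) (h0 : ∀ z, F z ≠ 0) (ho : OrdTwo F) :
    ∃ A : ℝ, ∀ r : ℝ, 0 < r → Real.circleAverage (fun z => Real.log ‖F z‖) 0 r ≤ A * (1 + r ^ 2) := by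
  obtain ⟨C₀, hC₀⟩ := ho
  refine ⟨|Real.log ‖F 0‖| + 3 * |C₀|, fun r hr => ?_⟩
  obtain ⟨G, hG, hG1, hG0, hGf⟩ := hC₀ (r + 1) (by linarith)
  have hG0' : G 0 ≠ 0 := by
    intro h0
    rw [h0, norm_zero] at hG0
    exact absurd hG0 (not_le.2 (Real.exp_pos _))
  have h1 := Pool.Agent.H13.OT.average_le (f := F) hr (lt_add_one r) hG hG1 hG0' hGf hF.differentiableOn
    fun z _ => ⟨h0 z, 1, one_ne_zero, (one_smul _ _).symm⟩
  have h2 : -(C₀ * (1 + (r + 1) ^ 2)) ≤ Real.log ‖G 0‖ := by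
    rw [Real.le_log_iff_exp_le (norm_pos_iff.2 hG0')]
    exact hG0
  have h3 : C₀ * (1 + (r + 1) ^ 2) ≤ 3 * |C₀| * (1 + r ^ 2) := by
    have h4 : C₀ ≤ |C₀| := le_abs_self _
    have h5 : 0 ≤ |C₀| := abs_nonneg _
    have h6 : 1 + (r + 1) ^ 2 ≤ 3 * (1 + r ^ 2) := by nlinarith [sq_nonneg (r - 1)]
    calc C₀ * (1 + (r + 1) ^ 2) ≤ |C₀| * (1 + (r + 1) ^ 2) := mul_le_mul_of_nonneg_right h4 (by positivity)
      _ ≤ |C₀| * (3 * (1 + r ^ 2)) := mul_le_mul_of_nonneg_left h6 h5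
      _ = _ := by ring
  have h7 : Real.log ‖F 0‖ ≤ |Real.log ‖F 0‖| * (1 + r ^ 2) := by
    have h8 : Real.log ‖F 0‖ ≤ |Real.log ‖F 0‖| := le_abs_self _
    have h9 : 0 ≤ |Real.log ‖F 0‖| := abs_nonneg _
    nlinarith [sq_nonneg r]
  nlinarith

end

/-! ## from the maximum norm to the Euclidean norm -/

theorem continuous_log_norm_pi {N : ℕ} {F : ℂ → Fin (N + 1) → ℂ} (hF : Continuous F) (h0 : ∀ z, F z ≠ 0) :
    Continuous fun z => Real.log ‖F z‖ := hF.norm.log fun z => norm_ne_zero_iff.2 (h0 z)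

/-- the Euclidean lift of a lift -/
theorem circleAverage_toLp_le {N : ℕ} {F : ℂ → Fin (N + 1) → ℂ} (hF : Differentiable ℂ F) (h0 : ∀ z, F z ≠ 0) {A : ℝ}
    (hA : ∀ r : ℝ, 0 < r → Real.circleAverage (fun z => Real.log ‖F z‖) 0 r ≤ A * (1 + r ^ 2)) :
    Differentiable ℂ (fun z => (WithLp.toLp 2 (F z) : EN N)) ∧ (∀ z, (WithLp.toLp 2 (F z) : EN N) ≠ 0) ∧
      ∃ A' : ℝ, ∀ r : ℝ, 0 < r → Real.circleAverage (fun z => Real.log ‖(WithLp.toLp 2 (F z) : EN N)‖) 0 r ≤ A' * (1 + r ^ 2) := by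
  have hd : Differentiable ℂ (fun z => (WithLp.toLp 2 (F z) : EN N)) :=
    (PiLp.continuousLinearEquiv 2 ℂ (fun _ : Fin (N + 1) => ℂ)).symm.differentiable.comp hF
  have hne : ∀ z, (WithLp.toLp 2 (F z) : EN N) ≠ 0 := fun z h => h0 z (by
    have := congrArg WithLp.ofLp h
    simpa using this)
  refine ⟨hd, hne, |A| + Real.log (N + 1), fun r hr => ?_⟩
  have hN : (1 : ℝ) ≤ N + 1 := by
    have : (0 : ℝ) ≤ N := Nat.cast_nonneg N
    linarith
  have hlog : 0 ≤ Real.log ((N : ℝ) + 1) := Real.log_nonneg hN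
  have hle : ∀ z, Real.log ‖(WithLp.toLp 2 (F z) : EN N)‖ ≤ Real.log ‖F z‖ + Real.log (N + 1) := by
    intro z
    have hp : 0 < ‖F z‖ := norm_pos_iff.2 (h0 z)
    rw [← Real.log_mul hp.ne' (by linarith)]
    refine Real.log_le_log (norm_pos_iff.2 (hne z)) ?_
    rw [EuclideanSpace.norm_eq]
    have h1 : ∑ i, ‖(WithLp.toLp 2 (F z) : EN N) i‖ ^ 2 ≤ ((N : ℝ) + 1) * ‖F z‖ ^ 2 := by
      calc ∑ i, ‖(WithLp.toLp 2 (F z) : EN N) i‖ ^ 2 ≤ ∑ _i : Fin (N + 1), ‖F z‖ ^ 2 :=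
            Finset.sum_le_sum fun i _ => pow_le_pow_left₀ (norm_nonneg _) (norm_le_pi_norm (F z) i) 2
        _ = _ := by simp
    have h2 : ((N : ℝ) + 1) * ‖F z‖ ^ 2 ≤ (‖F z‖ * ((N : ℝ) + 1)) ^ 2 := by
      nlinarith [sq_nonneg ‖F z‖, mul_nonneg (sq_nonneg ‖F z‖) (by linarith : (0 : ℝ) ≤ N)]
    calc Real.sqrt (∑ i, ‖(WithLp.toLp 2 (F z) : EN N) i‖ ^ 2) ≤ Real.sqrt ((‖F z‖ * ((N : ℝ) + 1)) ^ 2) :=
          Real.sqrt_le_sqrt (h1.trans h2)
      _ = ‖F z‖ * (N + 1) := Real.sqrt_sq (by positivity)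
  have c1 : Continuous fun z => Real.log ‖(WithLp.toLp 2 (F z) : EN N)‖ := continuous_log_norm hd hne
  have c2 := continuous_log_norm_pi hF.continuous h0
  have hci : ∀ {u : ℂ → ℝ}, Continuous u → CircleIntegrable u 0 r := fun hu => hu.continuousOn.circleIntegrable'
  calc Real.circleAverage (fun z => Real.log ‖(WithLp.toLp 2 (F z) : EN N)‖) 0 r
      ≤ Real.circleAverage (fun z => Real.log ‖F z‖ + Real.log (N + 1)) 0 r :=
        Real.circleAverage_mono (hci c1) (hci (c2.add continuous_const)) fun z _ => hle z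
    _ = Real.circleAverage (fun z => Real.log ‖F z‖) 0 r + Real.log (N + 1) := by
        rw [Real.circleAverage_fun_add (hci c2) (hci continuous_const), Real.circleAverage_const]
    _ ≤ A * (1 + r ^ 2) + Real.log (N + 1) := by linarith [hA r hr]
    _ ≤ (|A| + Real.log (N + 1)) * (1 + r ^ 2) := by
        nlinarith [mul_le_mul_of_nonneg_right (le_abs_self A) (by positivity : (0 : ℝ) ≤ 1 + r ^ 2), sq_nonneg r,
          mul_nonneg hlog (sq_nonneg r)]

end Pool.Agent.MQ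

end

section

/-!
# MQ Sieg: forms of degree `d` with contact of order `k d` with finitely many germs of curves
-/

set_option autoImplicit false

open Topology Filter Metric MvPolynomial Asymptotics

noncomputable section

namespace Pool.Agent.MQ

open Pool.Agent.H36.BP (EN)
open Pool.Agent.H14.PP (analyticAt_evalEN)
open Pool.Agent.H17EF (exists_form_of_conditions)
open Pool.Agent.H17LG.Variety (FunField)

variable {N : ℕ}

/-- an analytic germ whose first `n` derivatives vanish is `O (t ^ n)` -/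
theorem isBigO_of_iteratedDeriv {g : ℂ → ℂ} (hg : AnalyticAt ℂ g 0) {n : ℕ} (h : ∀ i < n, iteratedDeriv i g 0 = 0) :
    g =O[𝓝 0] fun t : ℂ => t ^ n := by
  obtain ⟨q, hq, hgq⟩ := (natCast_le_analyticOrderAt hg).1 ((natCast_le_analyticOrderAt_iff_iteratedDeriv_eq_zero hg).2 h)
  have h1 : (fun z : ℂ => (z - 0) ^ n • q z) =O[𝓝 0] fun t : ℂ => t ^ n := by
    have h2 : q =O[𝓝 0] fun _ : ℂ => (1 : ℂ) := hq.continuousAt.isBigO_one ℂ
    have h3 := (isBigO_refl (fun t : ℂ => t ^ n) (𝓝 0)).mul h2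
    simpa [smul_eq_mul] using h3
  exact IsBigO.congr' h1 (hgq.mono fun z hz => hz.symm) (Eventually.of_forall fun _ => rfl)

/-- **Siegel's lemma.** -/
theorem sieg {P : Ideal (MvPolynomial (Fin (N + 1)) ℂ)} [P.IsPrime] {z : Fin 2 → FunField P} (hz : IsTranscendenceBasis ℂ z)
    (hX : ∃ i, (X i : MvPolynomial (Fin (N + 1)) ℂ) ∉ P) {r : ℕ} (c : ℕ → Fin r → ℂ → EN N) (hc : ∀ n i, AnalyticAt ℂ (c n i) 0) (k : ℕ) :
    ∃ (d : ℕ) (Q : MvPolynomial (Fin (N + 1)) ℂ), 1 ≤ d ∧ Q.IsHomogeneous d ∧ Q ∉ P ∧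
      ∀ i, (fun t => eval (c (k * d) i t).ofLp Q) =O[𝓝 0] fun t : ℂ => t ^ (k * d) := by
  obtain ⟨d, hd, hL⟩ := exists_form_of_conditions hz hX (r * k)
  have han : ∀ (Q : MvPolynomial (Fin (N + 1)) ℂ) (n : ℕ) (i : Fin r), AnalyticAt ℂ (fun t => eval (c n i t).ofLp Q) 0 := fun Q n i =>
    (analyticAt_evalEN Q (c n i 0)).fun_comp (hc n i)
  let e : Fin (r * k * d) ≃ Fin r × Fin (k * d) := (finCongr (mul_assoc r k d)).trans finProdFinEquiv.symm
  let L : MvPolynomial (Fin (N + 1)) ℂ →ₗ[ℂ] (Fin (r * k * d) → ℂ) :=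
    { toFun := fun Q t => iteratedDeriv ((e t).2 : ℕ) (fun z => eval (c (k * d) (e t).1 z).ofLp Q) 0
      map_add' := by
        intro Q R
        funext t
        have e1 : (fun z => eval (c (k * d) (e t).1 z).ofLp (Q + R)) =
            (fun z => eval (c (k * d) (e t).1 z).ofLp Q) + fun z => eval (c (k * d) (e t).1 z).ofLp R := by
          funext z; simp
        rw [e1, iteratedDeriv_add (han Q _ _).contDiffAt (han R _ _).contDiffAt]
        rfl
      map_smul' := by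
        intro a Q
        funext t
        have e1 : (fun z => eval (c (k * d) (e t).1 z).ofLp (a • Q)) = a • fun z => eval (c (k * d) (e t).1 z).ofLp Q := by
          funext z; simp [MvPolynomial.smul_eval]
        rw [e1, iteratedDeriv_const_smul (han Q _ _).contDiffAt]
        rfl }
  obtain ⟨Q, hQ, hQP, hLQ⟩ := hL L
  refine ⟨d, Q, hd, hQ, hQP, fun i => isBigO_of_iteratedDeriv (han Q _ i) fun n hn => ?_⟩
  have h1 := congrFun hLQ (e.symm (i, ⟨n, hn⟩))
  simpa [L] using h1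

end Pool.Agent.MQ

end
end

section

/-!
# MQ OrdV: curves of order two, comparison of energies
-/

set_option autoImplicit false

open MeasureTheory Topology Filter Metric Laplacian Set

noncomputable section

namespace Pool.Agent.MQ

open Pool.Agent.H30M (tau rhoR avg rho tau_nonneg contDiff_tau hcs_tau green_tau rhoR_nonneg)
open Pool.Agent.H36.BP (EN)

variable {N M : ℕ}

/-- the Laplacian of `log ‖F‖` is twice the square of the length -/
theorem lap_eq_lam {F : ℂ → EN M} {z : ℂ} (hF : AnalyticAt ℂ F z) (h0 : F z ≠ 0) : Δ (fun w => Real.log ‖F w‖) z = 2 * lam F z ^ 2 := by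
  rw [lap_log_normV hF h0]
  have hn : ‖F z‖ ≠ 0 := norm_ne_zero_iff.2 h0
  have h1 : ‖(inner ℂ (F z) (deriv F z) : ℂ)‖ ^ 2 ≤ ‖F z‖ ^ 2 * ‖deriv F z‖ ^ 2 := by
    rw [← mul_pow]
    exact pow_le_pow_left₀ (norm_nonneg _) (norm_inner_le_norm _ _) 2
  unfold fsd lam Pool.Agent.H36.BP.fs Pool.Agent.H36.BP.wd
  rw [div_pow, Real.sq_sqrt (sub_nonneg.2 h1)]
  field_simp

theorem two_En {F : ℂ → EN M} (hF : Differentiable ℂ F) (h0 : ∀ z, F z ≠ 0) (R : ℝ) :
    ∫ z, tau R z * Δ (fun z => Real.log ‖F z‖) z = 2 * En F R := by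
  unfold En
  rw [← integral_const_mul]
  refine integral_congr_ae (Eventually.of_forall fun z => ?_)
  simp only
  rw [lap_eq_lam (hF.analyticAt z) (h0 z)]
  ring

/-- V9 -/
theorem ord {F : ℂ → EN M} (hF : Differentiable ℂ F) (h0 : ∀ z, F z ≠ 0) {A : ℝ}
    (hA : ∀ r : ℝ, 0 < r → Real.circleAverage (fun z => Real.log ‖F z‖) 0 r ≤ A * (1 + r ^ 2)) : ∃ B, ∀ R, 1 ≤ R → En F R ≤ B * R ^ 2 := by
  obtain ⟨C, hC0, hC⟩ := ord_tau hF h0 hA
  refine ⟨C, fun R hR => ?_⟩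
  have h1 := hC R hR
  rw [two_En hF h0 R] at h1
  have h2 : 1 ≤ R ^ 2 := one_le_pow₀ hR
  nlinarith

end Pool.Agent.MQ

end
end

section

/-!
# MQ2 Equ: the reduced equation of a part of the zeros of a germ

The zeros of `ρ` near `0` lie on finitely many discs (`E1.disc_cover`).  After a linear change `ρ (0, y)` is not identically zero; then a disc which covers a point
`p ≠ 0` near `0` has no vertical tangent there (`Equ_disc`), so neither has the curve `{l = 0}` (`equ_no_vert`).  The rest is `equ_poly` (`EquP`).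
-/

set_option autoImplicit false

open Topology Filter Metric

noncomputable section

namespace Pool.Agent.MQ2

private theorem Equ_graph {l : ℂ × ℂ → ℂ} {p : ℂ × ℂ} (hl : AnalyticAt ℂ l p) (h0 : l p = 0) (h1 : fderiv ℂ l p (0, 1) ≠ 0) :
    ∃ φ : ℂ → ℂ, AnalyticAt ℂ φ p.1 ∧ φ p.1 = p.2 ∧ ∀ᶠ w in 𝓝 p, (l w = 0 ↔ φ w.1 = w.2) := by
  obtain ⟨x, y⟩ := p
  have hcd : ContDiffAt ℂ ⊤ l (x, y) := hl.contDiffAt
  have hinv : (fderiv ℂ l (x, y) ∘L ContinuousLinearMap.inr ℂ ℂ ℂ).IsInvertible := by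
    refine ⟨ContinuousLinearEquiv.unitsEquivAut ℂ (Units.mk0 _ h1), ?_⟩
    ext
    simp
  refine ⟨hcd.implicitFunction (by simp) hinv, ?_, hcd.implicitFunction_apply_self (by simp) hinv, ?_⟩
  · exact (hcd.contDiffAt_implicitFunction (by simp) hinv).analyticAt
  · have h2 := hcd.eventually_apply_eq_iff_implicitFunction (by simp) hinv
    filter_upwards [h2] with w hw
    rw [h0] at hw
    exact hw

/-- the critical parameters of a disc only give finitely many points -/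
private theorem Equ_disc {ρ : ℂ × ℂ → ℂ} {c : ℂ → ℂ × ℂ} (hc : AnalyticOnNhd ℂ c (closedBall 0 1))
    (hcW : ∀ z ∈ closedBall (0 : ℂ) 1, (c z).2 ≠ 0 → ρ (0, (c z).2) ≠ 0) (hcρ : ∀ z ∈ closedBall (0 : ℂ) 1, ρ (c z) = 0) :
    ∀ᶠ p in 𝓝 (0 : ℂ × ℂ), p ≠ 0 → ∀ z ∈ closedBall (0 : ℂ) (1 / 2), c z = p → deriv (fun z => (c z).1) z ≠ 0 := by
  have hX : AnalyticOnNhd ℂ (fun z => (c z).1) (closedBall 0 1) := fun z hz => analyticAt_fst.comp (hc z hz)
  have hX' : AnalyticOnNhd ℂ (deriv fun z => (c z).1) (closedBall 0 1) := hX.deriv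
  have hsub : closedBall (0 : ℂ) (1 / 2) ⊆ closedBall 0 1 := closedBall_subset_closedBall (by norm_num)
  by_cases hA : ∀ z ∈ closedBall (0 : ℂ) 1, deriv (fun z => (c z).1) z = 0
  · have hconst : ∀ z ∈ closedBall (0 : ℂ) (1 / 2), (c z).1 = (c 0).1 := by
      intro z hz
      have h1 : DifferentiableOn ℂ (fun z => (c z).1) (ball 0 1) := fun w hw => (hX w (ball_subset_closedBall hw)).differentiableAt.differentiableWithinAt
      exact isOpen_ball.is_const_of_deriv_eq_zero (convex_ball (0 : ℂ) 1).isPreconnected h1 (fun w hw => hA w (ball_subset_closedBall hw))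
        (closedBall_subset_ball (by norm_num) hz) (mem_ball_self one_pos)
    by_cases h0 : (c 0).1 = 0
    · refine Eventually.of_forall fun p hp z hz hzp => ?_
      exfalso
      apply hp
      have h2 : (c z).1 = 0 := (hconst z hz).trans h0
      have h3 : (c z).2 = 0 := by
        by_contra h4
        apply hcW z (hsub hz) h4
        have h5 := hcρ z (hsub hz)
        have h6 : c z = (0, (c z).2) := Prod.ext h2 rfl
        rwa [h6] at h5
      rw [← hzp]
      exact Prod.ext h2 h3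
    · have h1 : ∀ᶠ p in 𝓝 (0 : ℂ × ℂ), p.1 ≠ (c 0).1 := by
        have h2 : ContinuousAt (fun p : ℂ × ℂ => p.1) 0 := continuous_fst.continuousAt
        exact h2.eventually_ne (fun h => h0 h.symm)
      filter_upwards [h1] with p hp _ z hz hzp
      exact absurd (by rw [← hzp]; exact hconst z hz) hp
  · have hfin : {z ∈ closedBall (0 : ℂ) (1 / 2) | deriv (fun z => (c z).1) z = 0}.Finite := by
      by_contra hinf
      obtain ⟨z₀, hz₀, hacc⟩ := Set.Infinite.exists_accPt_of_subset_isCompact hinf (isCompact_closedBall (0 : ℂ) (1 / 2)) (fun z hz => hz.1)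
      apply hA
      have h1 : ∃ᶠ z in 𝓝[≠] z₀, deriv (fun z => (c z).1) z = 0 := by
        rw [accPt_iff_frequently] at hacc
        rw [frequently_nhdsWithin_iff]
        exact hacc.mono fun z hz => ⟨hz.2.2, hz.1⟩
      exact fun z hz => hX'.eqOn_zero_of_preconnected_of_frequently_eq_zero (convex_closedBall (0 : ℂ) 1).isPreconnected (hsub hz₀) h1 hz
    have hfin2 : ((c '' {z ∈ closedBall (0 : ℂ) (1 / 2) | deriv (fun z => (c z).1) z = 0}) \ {0}).Finite := (hfin.image c).subset Set.sdiff_subset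
    have h1 : ∀ᶠ p in 𝓝 (0 : ℂ × ℂ), p ∉ (c '' {z ∈ closedBall (0 : ℂ) (1 / 2) | deriv (fun z => (c z).1) z = 0}) \ {0} :=
      hfin2.isClosed.isOpen_compl.mem_nhds (fun h => h.2 rfl)
    filter_upwards [h1] with p hp hp0 z hz hzp h2
    exact hp ⟨⟨z, ⟨hz, h2⟩, hzp⟩, hp0⟩

/-- **No vertical tangents.** -/
theorem equ_no_vert {ρ : ℂ × ℂ → ℂ} (hρ : AnalyticAt ℂ ρ 0) (h : ∀ᶠ y in 𝓝[≠] (0 : ℂ), ρ (0, y) ≠ 0) :
    ∀ᶠ p in 𝓝 (0 : ℂ × ℂ), p ≠ 0 → ∀ l : ℂ × ℂ → ℂ, AnalyticAt ℂ l p → l p = 0 → fderiv ℂ l p ≠ 0 → (∀ᶠ w in 𝓝 p, l w = 0 → ρ w = 0) →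
      fderiv ℂ l p (0, 1) ≠ 0 := by
  have hne : ¬ ∀ᶠ x in 𝓝 (0 : ℂ × ℂ), ρ x = 0 := by
    intro h0
    have h1 : Tendsto (fun y : ℂ => ((0 : ℂ), y)) (𝓝[≠] 0) (𝓝 0) := by
      have h2 : ContinuousAt (fun y : ℂ => ((0 : ℂ), y)) 0 := by fun_prop
      exact h2.tendsto.mono_left nhdsWithin_le_nhds
    obtain ⟨y, hy1, hy2⟩ := (h.and (h1.eventually h0)).exists
    exact hy1 hy2
  obtain ⟨n, hn⟩ := Pool.Agent.H17BP.exists_resN hρ hne
  have hW : {p : ℂ × ℂ | p.2 ≠ 0 → ρ (0, p.2) ≠ 0} ∈ 𝓝 (0 : ℂ × ℂ) := by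
    have h1 : ∀ᶠ y in 𝓝 (0 : ℂ), y ≠ 0 → ρ (0, y) ≠ 0 := eventually_nhdsWithin_iff.mp h
    exact (continuous_snd.tendsto (0 : ℂ × ℂ)).eventually h1
  obtain ⟨r, c, hc, hcW, hcov⟩ := Pool.Agent.E1.disc_cover n hn hW
  have hall : ∀ᶠ p in 𝓝 (0 : ℂ × ℂ), ∀ i : Fin r, p ≠ 0 → ∀ z ∈ closedBall (0 : ℂ) (1 / 2), c i z = p → deriv (fun z => (c i z).1) z ≠ 0 :=
    eventually_all.2 fun i => Equ_disc (hc i) (fun z hz => (hcW i z hz).1) (fun z hz => (hcW i z hz).2)
  filter_upwards [hall, hcov.eventually_nhds] with p hp hcovp hp0 l hl hl0 hdl hlρ hv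
  have hsub : closedBall (0 : ℂ) (1 / 2) ⊆ closedBall 0 1 := closedBall_subset_closedBall (by norm_num)
  have ha : fderiv ℂ l p (1, 0) ≠ 0 := by
    intro ha
    apply hdl
    refine ContinuousLinearMap.ext fun w => ?_
    have h1 : w = w.1 • ((1 : ℂ), (0 : ℂ)) + w.2 • ((0 : ℂ), (1 : ℂ)) := by
      ext <;> simp
    rw [h1, map_add, map_smul, map_smul, ha, hv, smul_zero, smul_zero, add_zero]
    rfl
  -- the swapped equation
  have hsw : HasFDerivAt (fun w : ℂ × ℂ => l (w.2, w.1)) ((fderiv ℂ l p).comp ((ContinuousLinearMap.snd ℂ ℂ ℂ).prod (ContinuousLinearMap.fst ℂ ℂ ℂ)))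
      (p.2, p.1) := by
    have h1 : HasFDerivAt (fun w : ℂ × ℂ => (w.2, w.1)) ((ContinuousLinearMap.snd ℂ ℂ ℂ).prod (ContinuousLinearMap.fst ℂ ℂ ℂ)) (p.2, p.1) :=
      ((ContinuousLinearMap.snd ℂ ℂ ℂ).prod (ContinuousLinearMap.fst ℂ ℂ ℂ)).hasFDerivAt
    have h2 : HasFDerivAt l (fderiv ℂ l p) ((fun w : ℂ × ℂ => (w.2, w.1)) (p.2, p.1)) := hl.differentiableAt.hasFDerivAt
    exact HasFDerivAt.comp (g := l) (f := fun w : ℂ × ℂ => (w.2, w.1)) (p.2, p.1) h2 h1
  have hsa : AnalyticAt ℂ (fun w : ℂ × ℂ => l (w.2, w.1)) (p.2, p.1) := by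
    refine AnalyticAt.fun_comp (g := l) (f := fun w : ℂ × ℂ => (w.2, w.1)) hl ?_
    exact analyticAt_snd.prod analyticAt_fst
  obtain ⟨φ, hφ, hφ0, hφl⟩ := Equ_graph hsa hl0 (by
    rw [hsw.fderiv]
    simpa using ha)
  have hφ0' : φ p.2 = p.1 := hφ0
  have hφc : Tendsto (fun y => (φ y, y)) (𝓝 p.2) (𝓝 p) := by
    have h1 : ContinuousAt (fun y => (φ y, y)) p.2 := hφ.continuousAt.prodMk continuousAt_id
    have h2 := h1.tendsto
    rwa [hφ0'] at h2
  have hφc' : Tendsto (fun y => (y, φ y)) (𝓝 p.2) (𝓝 (p.2, p.1)) := by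
    have h1 : ContinuousAt (fun y => (y, φ y)) p.2 := continuousAt_id.prodMk hφ.continuousAt
    have h2 := h1.tendsto
    simp only [hφ0'] at h2
    exact h2
  have hlφ : ∀ᶠ y in 𝓝 p.2, l (φ y, y) = 0 := by
    filter_upwards [hφc'.eventually hφl] with y hy
    exact hy.2 rfl
  have hex : ∀ᶠ y in 𝓝 p.2, ∃ i, ∃ z ∈ closedBall (0 : ℂ) (1 / 2), c i z = (φ y, y) := by
    filter_upwards [hlφ, hφc.eventually hlρ, hφc.eventually hcovp] with y h1 h2 h3
    exact h3 (h2 h1)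
  obtain ⟨i, hi⟩ : ∃ i, ∃ᶠ y in 𝓝[≠] p.2, l (φ y, y) = 0 ∧ ∃ z ∈ closedBall (0 : ℂ) (1 / 2), c i z = (φ y, y) := by
    by_contra hcon
    have h1 : ∀ᶠ y in 𝓝[≠] p.2, ∀ i, ¬ (l (φ y, y) = 0 ∧ ∃ z ∈ closedBall (0 : ℂ) (1 / 2), c i z = (φ y, y)) :=
      eventually_all.2 fun i => not_frequently.1 (not_exists.1 hcon i)
    obtain ⟨y, hy1, hy2, hy3⟩ := (h1.and ((hlφ.filter_mono nhdsWithin_le_nhds).and (hex.filter_mono nhdsWithin_le_nhds))).exists
    obtain ⟨i, hi⟩ := hy3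
    exact hy1 i ⟨hy2, hi⟩
  obtain ⟨y, hy, hyi⟩ := exists_seq_forall_of_frequently hi
  choose hyl z hz hzy using hyi
  obtain ⟨z₀, hz₀, κ, hκ, hlim⟩ := (isCompact_closedBall (0 : ℂ) (1 / 2)).tendsto_subseq hz
  have hcz : c i z₀ = p := by
    have h1 : Tendsto (fun n => c i (z (κ n))) atTop (𝓝 (c i z₀)) := (hc i z₀ (hsub hz₀)).continuousAt.tendsto.comp hlim
    have h2 : Tendsto (fun n => c i (z (κ n))) atTop (𝓝 p) := by
      have h3 : Tendsto (fun n => (φ (y (κ n)), y (κ n))) atTop (𝓝 p) :=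
        hφc.comp ((hy.mono_right nhdsWithin_le_nhds).comp hκ.tendsto_atTop)
      refine h3.congr fun n => ?_
      exact (hzy (κ n)).symm
    exact tendsto_nhds_unique h1 h2
  have hyne : ∀ᶠ n in atTop, y n ≠ p.2 := hy.eventually self_mem_nhdsWithin
  have hfreq : ∃ᶠ t in 𝓝[≠] z₀, l (c i t) = 0 := by
    have h1 : Tendsto (fun n => z (κ n)) atTop (𝓝[≠] z₀) := by
      refine tendsto_nhdsWithin_iff.2 ⟨hlim, ?_⟩
      filter_upwards [hκ.tendsto_atTop.eventually hyne] with n hn hzn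
      apply hn
      have h2 := hzy (κ n)
      rw [show z (κ n) = z₀ from hzn, hcz] at h2
      rw [h2]
    refine h1.frequently (Eventually.frequently (Eventually.of_forall fun n => ?_))
    rw [hzy (κ n)]
    exact hyl (κ n)
  have hlc : AnalyticAt ℂ (fun t => l (c i t)) z₀ := by
    refine AnalyticAt.fun_comp (g := l) (f := c i) ?_ (hc i z₀ (hsub hz₀))
    rw [hcz]
    exact hl
  have hev : ∀ᶠ t in 𝓝 z₀, l (c i t) = 0 := hlc.frequently_zero_iff_eventually_zero.1 hfreq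
  have hder : HasDerivAt (fun t => l (c i t)) (fderiv ℂ l p (deriv (c i) z₀)) z₀ := by
    have h1 : HasFDerivAt l (fderiv ℂ l p) (c i z₀) := by
      rw [hcz]
      exact hl.differentiableAt.hasFDerivAt
    exact h1.comp_hasDerivAt z₀ (hc i z₀ (hsub hz₀)).differentiableAt.hasDerivAt
  have hd0 : fderiv ℂ l p (deriv (c i) z₀) = 0 := by
    have h1 : deriv (fun t => l (c i t)) z₀ = 0 := by
      have h2 : (fun t => l (c i t)) =ᶠ[𝓝 z₀] fun _ => 0 := hev
      rw [h2.deriv_eq, deriv_const]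
    rw [← hder.deriv, h1]
  have hX : deriv (fun t => (c i t).1) z₀ = (deriv (c i) z₀).1 :=
    ((ContinuousLinearMap.fst ℂ ℂ ℂ).hasFDerivAt.comp_hasDerivAt z₀ (hc i z₀ (hsub hz₀)).differentiableAt.hasDerivAt).deriv
  apply hp i hp0 z₀ hz₀ hcz
  rw [hX]
  have h1 : deriv (c i) z₀ = (deriv (c i) z₀).1 • ((1 : ℂ), (0 : ℂ)) + (deriv (c i) z₀).2 • ((0 : ℂ), (1 : ℂ)) := by
    ext <;> simp
  rw [h1, map_add, map_smul, map_smul, hv, smul_zero, add_zero, smul_eq_mul] at hd0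
  exact (mul_eq_zero.1 hd0).resolve_right ha

/-- the coordinates are such that `ρ (0, y)` is not identically zero -/
theorem equ_main {ρ : ℂ × ℂ → ℂ} (hρ : AnalyticAt ℂ ρ 0) (h : ∀ᶠ y in 𝓝[≠] (0 : ℂ), ρ (0, y) ≠ 0) {Z : Set (ℂ × ℂ)}
    (hZ : ∀ᶠ p in 𝓝 (0 : ℂ × ℂ), p ≠ 0 → (∀ᶠ w in 𝓝 p, w ∉ Z) ∨ ∃ l : ℂ × ℂ → ℂ, AnalyticAt ℂ l p ∧ l p = 0 ∧ fderiv ℂ l p ≠ 0 ∧
      ∀ᶠ w in 𝓝 p, (w ∈ Z ↔ l w = 0) ∧ (l w = 0 → ρ w = 0)) :
    ∃ g : ℂ × ℂ → ℂ, AnalyticAt ℂ g 0 ∧ (∃ᶠ p in 𝓝 (0 : ℂ × ℂ), g p ≠ 0) ∧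
      ∀ᶠ p in 𝓝 (0 : ℂ × ℂ), p ≠ 0 → (g p = 0 ↔ p ∈ Z) ∧ (g p = 0 → fderiv ℂ g p ≠ 0) := by
  obtain ⟨δ₁, hδ₁, hball⟩ := Metric.eventually_nhds_iff_ball.1 (hZ.and ((equ_no_vert hρ h).and hρ.eventually_analyticAt))
  obtain ⟨δ₂, hδ₂, hball2⟩ := Metric.eventually_nhds_iff_ball.1 (eventually_nhdsWithin_iff.mp h)
  set r : ℝ := min δ₁ δ₂ / 2 with hr
  have hr0 : 0 < r := by
    have := lt_min hδ₁ hδ₂
    rw [hr]
    linarith
  have hr1 : r < δ₁ := by
    have := min_le_left δ₁ δ₂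
    have := lt_min hδ₁ hδ₂
    rw [hr]
    linarith
  have hr2 : r < δ₂ := by
    have := min_le_right δ₁ δ₂
    have := lt_min hδ₁ hδ₂
    rw [hr]
    linarith
  have hρ0 : ∀ y : ℂ, y ≠ 0 → ‖y‖ ≤ r → ρ (0, y) ≠ 0 := fun y hy hyr => hball2 y (by
    rw [mem_ball, dist_zero_right]
    exact lt_of_le_of_lt hyr hr2) hy
  have hsph : ∀ᶠ x in 𝓝 (0 : ℂ), ∀ y ∈ sphere (0 : ℂ) r, ρ (x, y) ≠ 0 := by
    refine (isCompact_sphere (0 : ℂ) r).eventually_forall_of_forall_eventually fun y hy => ?_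
    have hyr : ‖y‖ = r := mem_sphere_zero_iff_norm.1 hy
    have hy0 : y ≠ 0 := fun h0 => by
      rw [h0, norm_zero] at hyr
      linarith
    have h1 : ContinuousAt ρ (0, y) := (hball (0, y) (by
      rw [mem_ball, dist_zero_right, Prod.norm_def, norm_zero, hyr]
      exact max_lt hδ₁ hr1)).2.2.continuousAt
    exact h1.eventually_ne (hρ0 y hy0 hyr.le)
  obtain ⟨s₀, hs₀, hs₁⟩ := Metric.eventually_nhds_iff_ball.1 hsph
  set s : ℝ := min s₀ δ₁ with hs
  have hin : ∀ x y : ℂ, ‖x‖ < s → ‖y‖ ≤ r → ((x, y) : ℂ × ℂ) ∈ ball (0 : ℂ × ℂ) δ₁ := by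
    intro x y hx hy
    rw [mem_ball, dist_zero_right, Prod.norm_def]
    exact max_lt (lt_of_lt_of_le hx (min_le_right _ _)) (lt_of_le_of_lt hy hr1)
  refine equ_poly (Z := Z) (lt_min hs₀ hδ₁) hr0 (fun x y hx hxs hyr => ?_) (fun y hy hyr => ?_)
  · have hp := hball (x, y) (hin x y hxs hyr)
    have hp0 : ((x, y) : ℂ × ℂ) ≠ 0 := fun h0 => hx (congrArg Prod.fst h0)
    rcases hp.1 hp0 with h1 | ⟨l, hl, hl0, hdl, hlZ⟩
    · exact Or.inl h1
    · right
      have hρp : ρ (x, y) = 0 := hlZ.self_of_nhds.2 hl0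
      have hyr' : ‖y‖ < r := by
        refine lt_of_le_of_ne hyr fun h0 => ?_
        exact hs₁ x (by
          rw [mem_ball, dist_zero_right]
          exact lt_of_lt_of_le hxs (min_le_left _ _)) y (mem_sphere_zero_iff_norm.2 h0) hρp
      have hvt := hp.2.1 hp0 l hl hl0 hdl (hlZ.mono fun w hw => hw.2)
      obtain ⟨φ, hφ, hφ0, hφl⟩ := Equ_graph hl hl0 hvt
      refine ⟨hyr', φ, hφ, hφ0, ?_⟩
      filter_upwards [hlZ, hφl] with w h2 h3
      rw [h2.1, h3]
      exact eq_comm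
  · have hp := hball (0, y) (hin 0 y (by rw [norm_zero]; exact lt_min hs₀ hδ₁) hyr)
    have hp0 : (((0 : ℂ), y) : ℂ × ℂ) ≠ 0 := fun h0 => hy (congrArg Prod.snd h0)
    rcases hp.1 hp0 with h1 | ⟨l, hl, hl0, hdl, hlZ⟩
    · exact h1
    · exact absurd (hlZ.self_of_nhds.2 hl0) (hρ0 y hy hyr)

/-- module Equ: the reduced equation of a part of the zeros of `ρ` -/
theorem exists_equ {ρ : ℂ × ℂ → ℂ} (hρ : AnalyticAt ℂ ρ 0) (hρ0 : ∃ᶠ p in 𝓝 (0 : ℂ × ℂ), ρ p ≠ 0) {Z : Set (ℂ × ℂ)}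
    (hZ : ∀ᶠ p in 𝓝 (0 : ℂ × ℂ), p ≠ 0 → (∀ᶠ w in 𝓝 p, w ∉ Z) ∨ ∃ l : ℂ × ℂ → ℂ, AnalyticAt ℂ l p ∧ l p = 0 ∧ fderiv ℂ l p ≠ 0 ∧
      ∀ᶠ w in 𝓝 p, (w ∈ Z ↔ l w = 0) ∧ (l w = 0 → ρ w = 0)) :
    ∃ g : ℂ × ℂ → ℂ, AnalyticAt ℂ g 0 ∧ (∃ᶠ p in 𝓝 (0 : ℂ × ℂ), g p ≠ 0) ∧
      ∀ᶠ p in 𝓝 (0 : ℂ × ℂ), p ≠ 0 → (g p = 0 ↔ p ∈ Z) ∧ (g p = 0 → fderiv ℂ g p ≠ 0) := by
  have hline : ∀ v : ℂ × ℂ, AnalyticAt ℂ (fun z : ℂ => ρ (z • v)) 0 := by
    intro v
    refine AnalyticAt.fun_comp (g := ρ) (f := fun z : ℂ => z • v) ?_ (by fun_prop)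
    rw [zero_smul]
    exact hρ
  obtain ⟨v, hv, hvρ⟩ : ∃ v : ℂ × ℂ, v ≠ 0 ∧ ∀ᶠ z in 𝓝[≠] (0 : ℂ), ρ (z • v) ≠ 0 := by
    obtain ⟨m, v, hm⟩ := Pool.Agent.H17BP.exists_slice_of_ne hρ (fun h0 => hρ0 (h0.mono fun p hp => not_not.2 hp))
    have h1 : ∀ᶠ z in 𝓝[≠] (0 : ℂ), ρ (z • v) ≠ 0 := by
      rcases (hline v).eventually_eq_zero_or_eventually_ne_zero with h1 | h1
      · exfalso
        have h2 : analyticOrderAt (fun z : ℂ => ρ (z * v.1, z * v.2)) 0 = ⊤ := analyticOrderAt_eq_top.2 h1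
        rw [h2] at hm
        exact absurd hm (by simp)
      · exact h1
    by_cases hv : v = 0
    · have h2 : ρ 0 ≠ 0 := by
        obtain ⟨z, hz⟩ := h1.exists
        rwa [hv, smul_zero] at hz
      refine ⟨(0, 1), by simp, ?_⟩
      have h3 : ContinuousAt (fun z : ℂ => ρ (z • ((0 : ℂ), (1 : ℂ)))) 0 := (hline _).continuousAt
      exact (h3.eventually_ne (by rwa [zero_smul])).filter_mono nhdsWithin_le_nhds
    · exact ⟨v, hv, h1⟩
  obtain ⟨A, hA⟩ := SeparatingDual.exists_continuousLinearEquiv_apply_eq (R := ℂ) (x := ((0 : ℂ), (1 : ℂ))) (y := v) (by simp) hv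
  have hA0 : Tendsto A (𝓝 0) (𝓝 0) := by
    have h1 := A.continuous.tendsto 0
    rwa [map_zero] at h1
  have hS0 : Tendsto A.symm (𝓝 0) (𝓝 0) := by
    have h1 := A.symm.continuous.tendsto 0
    rwa [map_zero] at h1
  have hAan : ∀ p, AnalyticAt ℂ A p := fun p => A.toContinuousLinearMap.analyticAt p
  have hSan : ∀ p, AnalyticAt ℂ A.symm p := fun p => A.symm.toContinuousLinearMap.analyticAt p
  obtain ⟨g, hg, hgf, hgZ⟩ := equ_main (ρ := fun w => ρ (A w)) (Z := {w | A w ∈ Z}) (by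
      refine AnalyticAt.fun_comp (g := ρ) (f := A) ?_ (hAan 0)
      rw [map_zero]
      exact hρ) (by
      filter_upwards [hvρ] with y hy
      have h1 : ((0 : ℂ), y) = y • ((0 : ℂ), (1 : ℂ)) := by simp
      rw [h1, map_smul, hA]
      exact hy) (by
      filter_upwards [hA0.eventually hZ] with p hp hp0
      have hAp0 : A p ≠ 0 := fun h0 => hp0 (A.map_eq_zero_iff.1 h0)
      have hAc : Tendsto A (𝓝 p) (𝓝 (A p)) := A.continuous.tendsto p
      rcases hp hAp0 with h1 | ⟨l, hl, hl0, hdl, hlZ⟩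
      · exact Or.inl (hAc.eventually h1)
      · refine Or.inr ⟨fun w => l (A w), AnalyticAt.fun_comp (g := l) (f := A) hl (hAan p), hl0, fun h0 => hdl ?_, hAc.eventually hlZ⟩
        have h2 : HasFDerivAt (fun w => l (A w)) ((fderiv ℂ l (A p)).comp (A : (ℂ × ℂ) →L[ℂ] (ℂ × ℂ))) p :=
          hl.differentiableAt.hasFDerivAt.comp p A.hasFDerivAt
        rw [h2.fderiv] at h0
        refine ContinuousLinearMap.ext fun w => ?_
        have h3 := congrArg (fun L : (ℂ × ℂ) →L[ℂ] ℂ => L (A.symm w)) h0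
        simpa using h3)
  refine ⟨fun w => g (A.symm w), ?_, ?_, ?_⟩
  · refine AnalyticAt.fun_comp (g := g) (f := A.symm) ?_ (hSan 0)
    rw [map_zero]
    exact hg
  · have h1 : ∃ᶠ p in 𝓝 (0 : ℂ × ℂ), g (A.symm (A p)) ≠ 0 := hgf.mono fun p hp => by rwa [A.symm_apply_apply]
    exact hA0.frequently h1
  · filter_upwards [hS0.eventually (hgZ.and hg.eventually_analyticAt)] with p hp hp0
    have hSp0 : A.symm p ≠ 0 := fun h0 => hp0 (A.symm.map_eq_zero_iff.1 h0)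
    obtain ⟨h1, h2⟩ := hp.1 hSp0
    have h3 : A.symm p ∈ {w | A w ∈ Z} ↔ p ∈ Z := by
      rw [Set.mem_ofPred_eq, A.apply_symm_apply]
    refine ⟨h1.trans h3, fun h4 h5 => h2 h4 ?_⟩
    have h6 : HasFDerivAt (fun w => g (A.symm w)) ((fderiv ℂ g (A.symm p)).comp (A.symm : (ℂ × ℂ) →L[ℂ] (ℂ × ℂ))) p :=
      hp.2.differentiableAt.hasFDerivAt.comp p A.symm.hasFDerivAt
    rw [h6.fderiv] at h5
    refine ContinuousLinearMap.ext fun w => ?_
    have h7 := congrArg (fun L : (ℂ × ℂ) →L[ℂ] ℂ => L (A w)) h5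
    simpa using h7

end Pool.Agent.MQ2

end
end

section

/-!
# MQ2 LeafS0: the leaves of a vector field in the zero set of a function, near a regular point

A flow box (hypothesis) and `leaf_regular`; the property to be a point of a leaf in the zero set is transported by the coordinates.
-/

set_option autoImplicit false

open Topology Filter Metric

noncomputable section

namespace Pool.Agent.MQ2

open Pool.Agent.MQ

namespace LeafS

theorem par {v w a : ℂ × ℂ} (hv : v ≠ 0) (hw : w ≠ 0) (h1 : v.1 * w.2 = v.2 * w.1) (h2 : v.1 * a.2 = v.2 * a.1) : ∃ c : ℂ, a = c • w := by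
  have hdet : a.2 * w.1 = a.1 * w.2 := by
    have e1 : v.1 * (a.2 * w.1 - a.1 * w.2) = 0 := by linear_combination w.1 * h2 - a.1 * h1
    have e2 : v.2 * (a.2 * w.1 - a.1 * w.2) = 0 := by linear_combination w.2 * h2 - a.2 * h1
    rcases mul_eq_zero.1 e1 with h | h
    · rcases mul_eq_zero.1 e2 with h' | h'
      · exact absurd (Prod.ext h h') hv
      · exact sub_eq_zero.1 h'
    · exact sub_eq_zero.1 h
  by_cases h0 : w.1 = 0
  · have h3 : w.2 ≠ 0 := fun h => hw (Prod.ext h0 h)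
    refine ⟨a.2 / w.2, Prod.ext ?_ ?_⟩
    · show a.1 = a.2 / w.2 * w.1
      rw [h0, mul_zero] at hdet
      rw [h0, mul_zero]
      rcases mul_eq_zero.1 hdet.symm with h | h
      · exact h
      · exact absurd h h3
    · show a.2 = a.2 / w.2 * w.2
      field_simp
  · refine ⟨a.1 / w.1, Prod.ext ?_ ?_⟩
    · show a.1 = a.1 / w.1 * w.1
      field_simp
    · show a.2 = a.1 / w.1 * w.2
      field_simp
      exact hdet

/-- the coordinates `Ψ` with the inverse `Ξ` are good at `u` -/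
structure Good (v Ψ Ξ : ℂ × ℂ → ℂ × ℂ) (u : ℂ × ℂ) : Prop where
  inv : Ξ (Ψ u) = u
  an : AnalyticAt ℂ Ψ u
  an' : AnalyticAt ℂ Ξ (Ψ u)
  der : ∀ a, fderiv ℂ Ξ (Ψ u) (fderiv ℂ Ψ u a) = a
  rel : (v (Ψ u)).1 * (fderiv ℂ Ψ u (0, 1)).2 = (v (Ψ u)).2 * (fderiv ℂ Ψ u (0, 1)).1
  ne : v (Ψ u) ≠ 0

theorem Good.ne' {v Ψ Ξ : ℂ × ℂ → ℂ × ℂ} {u : ℂ × ℂ} (h : Good v Ψ Ξ u) : fderiv ℂ Ψ u (0, 1) ≠ 0 := by
  intro h0
  have h1 := h.der (0, 1)
  rw [h0, map_zero] at h1
  have := congrArg Prod.snd h1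
  simp at this

theorem leaf_to {v Ψ Ξ : ℂ × ℂ → ℂ × ℂ} {q : ℂ × ℂ → ℂ} {p : ℂ × ℂ} (hG : ∀ᶠ u in 𝓝 p, Good v Ψ Ξ u) (h : LeafIn (fun _ => (0, 1)) (fun u => q (Ψ u)) p) :
    LeafIn v q (Ψ p) := by
  obtain ⟨γ, hγ, h0, he, hf⟩ := h
  have hGt : ∀ᶠ t in 𝓝 (0 : ℂ), Good v Ψ Ξ (γ t) := by
    have h1 := hγ.continuousAt.tendsto
    rw [h0] at h1
    exact h1.eventually hG
  have hp := hG.self_of_nhds
  refine ⟨fun t => Ψ (γ t), ?_, congrArg Ψ h0, ?_, ?_⟩
  · refine AnalyticAt.fun_comp (g := Ψ) (f := γ) ?_ hγ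
    rw [h0]
    exact hp.an
  · filter_upwards [he, hGt, hγ.eventually_analyticAt] with t ht hg hγt
    refine ⟨?_, ht.2⟩
    have h1 : HasDerivAt (fun t => Ψ (γ t)) (fderiv ℂ Ψ (γ t) (deriv γ t)) t :=
      hg.an.differentiableAt.hasFDerivAt.comp_hasDerivAt t hγt.differentiableAt.hasDerivAt
    have h2 : (deriv γ t).1 = 0 := by
      have := ht.1
      simpa using this.symm
    have h3 : deriv γ t = (deriv γ t).2 • ((0, 1) : ℂ × ℂ) := by ext <;> simp [h2]
    rw [h1.deriv, h3, map_smul]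
    show (v (Ψ (γ t))).1 * ((deriv γ t).2 * (fderiv ℂ Ψ (γ t) (0, 1)).2) = (v (Ψ (γ t))).2 * ((deriv γ t).2 * (fderiv ℂ Ψ (γ t) (0, 1)).1)
    linear_combination (deriv γ t).2 * hg.rel
  · refine (hf.and_eventually hGt).mono fun t ht h1 => ht.1 ?_
    have h2 : Ψ (γ t) = Ψ p := h1
    rw [← ht.2.inv, h2, hp.inv]

theorem leaf_from {v Ψ Ξ : ℂ × ℂ → ℂ × ℂ} {q : ℂ × ℂ → ℂ} {p : ℂ × ℂ} (hG : ∀ᶠ u in 𝓝 p, Good v Ψ Ξ u) (hr : ∀ᶠ y in 𝓝 (Ψ p), Ψ (Ξ y) = y)
    (h : LeafIn v q (Ψ p)) : LeafIn (fun _ => (0, 1)) (fun u => q (Ψ u)) p := by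
  obtain ⟨γ, hγ, h0, he, hf⟩ := h
  have hp := hG.self_of_nhds
  have hδ : AnalyticAt ℂ (fun t => Ξ (γ t)) 0 := by
    refine AnalyticAt.fun_comp (g := Ξ) (f := γ) ?_ hγ
    rw [h0]
    exact hp.an'
  have hδ0 : Ξ (γ 0) = p := by rw [h0, hp.inv]
  have hGt : ∀ᶠ t in 𝓝 (0 : ℂ), Good v Ψ Ξ (Ξ (γ t)) := by
    have h1 := hδ.continuousAt.tendsto
    rw [hδ0] at h1
    exact h1.eventually hG
  have hrt : ∀ᶠ t in 𝓝 (0 : ℂ), Ψ (Ξ (γ t)) = γ t := by
    have h1 := hγ.continuousAt.tendsto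
    rw [h0] at h1
    exact h1.eventually hr
  refine ⟨fun t => Ξ (γ t), hδ, hδ0, ?_, ?_⟩
  · filter_upwards [he, hGt, hδ.eventually_analyticAt, hrt.eventually_nhds] with t ht hg hδt hrn
    have hr0 := hrn.self_of_nhds
    refine ⟨?_, by show q (Ψ (Ξ (γ t))) = 0; rw [hr0]; exact ht.2⟩
    have h1 : HasDerivAt (fun t => Ψ (Ξ (γ t))) (fderiv ℂ Ψ (Ξ (γ t)) (deriv (fun t => Ξ (γ t)) t)) t :=
      hg.an.differentiableAt.hasFDerivAt.comp_hasDerivAt t hδt.differentiableAt.hasDerivAt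
    have h2 : deriv γ t = fderiv ℂ Ψ (Ξ (γ t)) (deriv (fun t => Ξ (γ t)) t) := by
      rw [← h1.deriv]
      exact (Filter.EventuallyEq.deriv_eq hrn).symm
    have h3 := hg.rel
    have h4 := hg.ne
    rw [hr0] at h3 h4
    obtain ⟨c, hc⟩ := par h4 hg.ne' h3 ht.1
    have h5 := hg.der (deriv (fun t => Ξ (γ t)) t)
    rw [← h2, hc, map_smul, hg.der] at h5
    rw [← h5]
    simp
  · refine (hf.and_eventually hrt).mono fun t ht h1 => ht.1 ?_
    have h2 : Ξ (γ t) = p := h1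
    rw [← ht.2, h2]

/-- the core, with the flow box as a hypothesis -/
theorem leaf_set_of {v : ℂ × ℂ → ℂ × ℂ} {q : ℂ × ℂ → ℂ} {p₀ : ℂ × ℂ} (hv : AnalyticAt ℂ v p₀) (hv0 : v p₀ ≠ 0) (hq : AnalyticAt ℂ q p₀)
    (hq0 : ∃ᶠ p in 𝓝 p₀, q p ≠ 0) {Ψ : ℂ × ℂ → ℂ × ℂ} (hΨ : AnalyticAt ℂ Ψ 0) (hΨ0 : Ψ 0 = p₀)
    (hli : LinearIndependent ℂ ![fderiv ℂ Ψ 0 (1, 0), fderiv ℂ Ψ 0 (0, 1)])
    (hrel : ∀ᶠ p in 𝓝 (0 : ℂ × ℂ), (v (Ψ p)).1 * (fderiv ℂ Ψ p (0, 1)).2 = (v (Ψ p)).2 * (fderiv ℂ Ψ p (0, 1)).1) :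
    (∀ᶠ p in 𝓝 p₀, ¬ LeafIn v q p) ∨ ∃ l : ℂ × ℂ → ℂ, AnalyticAt ℂ l p₀ ∧ l p₀ = 0 ∧ fderiv ℂ l p₀ ≠ 0 ∧
      ∀ᶠ p in 𝓝 p₀, (LeafIn v q p ↔ l p = 0) ∧ (l p = 0 → q p = 0 ∧ fderiv ℂ l p (v p) = 0) := by
  subst hΨ0
  obtain ⟨Ξ, hΞ, h1, h2, h3⟩ := Pool.Agent.H62.BU.local_inverse hΨ (by
    intro u hu
    have h4 : u = u.1 • ((1, 0) : ℂ × ℂ) + u.2 • ((0, 1) : ℂ × ℂ) := by ext <;> simp
    rw [h4, map_add, map_smul, map_smul] at hu
    have h5 := LinearIndependent.pair_iff.1 hli _ _ hu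
    exact Prod.ext h5.1 h5.2)
  have hΨt : Tendsto Ψ (𝓝 0) (𝓝 (Ψ 0)) := hΨ.continuousAt
  have hΞt : Tendsto Ξ (𝓝 (Ψ 0)) (𝓝 0) := by
    have := hΞ.continuousAt.tendsto
    rwa [h3] at this
  have hG : ∀ᶠ u in 𝓝 (0 : ℂ × ℂ), Good v Ψ Ξ u := by
    filter_upwards [h1.eventually_nhds, hΨ.eventually_analyticAt, hΨt.eventually hΞ.eventually_analyticAt, hrel, hΨt.eventually (hv.continuousAt.eventually_ne hv0)]
      with u hu1 hu2 hu3 hu4 hu5
    refine ⟨hu1.self_of_nhds, hu2, hu3, fun a => ?_, hu4, hu5⟩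
    have e1 : HasFDerivAt (fun x => Ξ (Ψ x)) ((fderiv ℂ Ξ (Ψ u)).comp (fderiv ℂ Ψ u)) u :=
      hu3.differentiableAt.hasFDerivAt.comp u hu2.differentiableAt.hasFDerivAt
    have e2 : HasFDerivAt (fun x => Ξ (Ψ x)) (ContinuousLinearMap.id ℂ (ℂ × ℂ)) u := (hasFDerivAt_id u).congr_of_eventuallyEq hu1
    exact congrArg (fun L : ℂ × ℂ →L[ℂ] ℂ × ℂ => L a) (e1.unique e2)
  have hqa : AnalyticAt ℂ (fun u => q (Ψ u)) 0 := AnalyticAt.fun_comp (g := q) (f := Ψ) hq hΨ
  have hqne : ∃ᶠ u in 𝓝 (0 : ℂ × ℂ), q (Ψ u) ≠ 0 := by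
    intro hcon
    apply hq0
    filter_upwards [hΞt.eventually hcon, h2] with y hy1 hy2
    rw [hy2] at hy1
    exact hy1
  -- the points near `Ψ 0`
  have hpt : ∀ᶠ y in 𝓝 (Ψ 0), Ψ (Ξ y) = y ∧ (∀ᶠ u in 𝓝 (Ξ y), Good v Ψ Ξ u) ∧ (LeafIn v q y ↔ LeafIn (fun _ => (0, 1)) (fun u => q (Ψ u)) (Ξ y)) := by
    filter_upwards [h2.eventually_nhds, hΞt.eventually hG.eventually_nhds] with y hy1 hy2
    have hy0 := hy1.self_of_nhds
    refine ⟨hy0, hy2, fun h => ?_, fun h => ?_⟩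
    · refine leaf_from (Ξ := Ξ) hy2 ?_ ?_
      · rw [hy0]
        exact hy1
      · rw [hy0]
        exact h
    · have := leaf_to hy2 h
      rwa [hy0] at this
  rcases leaf_regular hqa hqne with hc | hc
  · left
    filter_upwards [hpt, hΞt.eventually hc] with y hy hcy h
    exact hcy (hy.2.2.1 h)
  · right
    have hfst : ∀ y, AnalyticAt ℂ Ξ y → HasFDerivAt (fun y => (Ξ y).1) ((ContinuousLinearMap.fst ℂ ℂ ℂ).comp (fderiv ℂ Ξ y)) y := fun y hy =>
      (ContinuousLinearMap.fst ℂ ℂ ℂ).hasFDerivAt.comp y hy.differentiableAt.hasFDerivAt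
    refine ⟨fun y => (Ξ y).1, analyticAt_fst.fun_comp hΞ, congrArg Prod.fst h3, ?_, ?_⟩
    · rw [(hfst _ hΞ).fderiv]
      intro h0
      have e1 := congrArg (fun L : ℂ × ℂ →L[ℂ] ℂ => L (fderiv ℂ Ψ 0 (1, 0))) h0
      simp only [ContinuousLinearMap.comp_apply, hG.self_of_nhds.der] at e1
      simp at e1
    · filter_upwards [hpt, hΞt.eventually hc, hΞ.eventually_analyticAt] with y hy hcy hya
      have hiff : LeafIn v q y ↔ (Ξ y).1 = 0 := hy.2.2.trans hcy
      refine ⟨hiff, fun h => ⟨?_, ?_⟩⟩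
      · obtain ⟨γ, -, g0, g1, -⟩ := hiff.2 h
        have := g1.self_of_nhds.2
        rwa [g0] at this
      · have hg := hy.2.1.self_of_nhds
        have e3 := hg.rel
        have e4 := hg.ne
        have e5 := hg.der
        rw [hy.1] at e3 e4 e5
        obtain ⟨c, hc⟩ := par e4 hg.ne' e3 (mul_comm (v y).1 (v y).2)
        rw [(hfst _ hya).fderiv, ContinuousLinearMap.comp_apply, hc, map_smul, e5]
        simp

end LeafS

end Pool.Agent.MQ2

end
end

section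

/-!
# MQ3 GlobE: the energy of a lift

`F`, `G` are entire without zeros, `|h| |G| ≤ K |F| ^ d` with an entire function `h`.  `2 En F R = avg_R log |F| - avg_1 log |F|` (Green), and
`avg_R log |h| ≥ avg_1 log |h|` (Jensen), so `En G R ≤ d En F R + C`.
-/

set_option autoImplicit false

open Topology Filter Metric MeasureTheory Laplacian

noncomputable section

namespace Pool.Agent.MQ3

open Pool.Agent.H36.BP (EN)
open Pool.Agent.H30M (tau avg rhoR rhoR_nonneg continuous_rhoR hcs_rhoR int_rhoR green_tau pl_tau tau_nonneg integrable_mul_log)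
open Pool.Agent.MQ (lam En)

variable {N N' : ℕ}

theorem contDiff_log_norm {F : ℂ → EN N} (hF : Differentiable ℂ F) (h0 : ∀ z, F z ≠ 0) : ContDiff ℝ 2 fun z => Real.log ‖F z‖ :=
  contDiff_iff_contDiffAt.2 fun z => (Pool.Agent.MQ.lap_log_norm (hF.analyticAt z) (h0 z)).1

/-- the energy is the growth of the mean of `log |F|` -/
theorem two_en {F : ℂ → EN N} (hF : Differentiable ℂ F) (h0 : ∀ z, F z ≠ 0) {R : ℝ} (hR : 1 ≤ R) :
    2 * En F R = avg R (fun z => Real.log ‖F z‖) - avg 1 fun z => Real.log ‖F z‖ := by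
  rw [← green_tau hR (contDiff_log_norm hF h0), En, ← integral_const_mul]
  refine integral_congr_ae (Eventually.of_forall fun z => ?_)
  simp only [(Pool.Agent.MQ.lap_log_norm (hF.analyticAt z) (h0 z)).2]
  ring

/-- the zeros of an entire function have measure zero -/
theorem ae_ne {h : ℂ → ℂ} (hh : Differentiable ℂ h) (hh0 : ∃ z, h z ≠ 0) : ∀ᵐ z : ℂ, h z ≠ 0 := by
  obtain ⟨w, hw⟩ := hh0
  have h1 : AnalyticOnNhd ℂ h Set.univ := fun z _ => hh.analyticAt z
  have h2 : h ⁻¹' {0}ᶜ ∈ codiscreteWithin (Set.univ : Set ℂ) := h1.preimage_zero_mem_codiscrete (x := w) hw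
  have h3 := ae_restrict_le_codiscreteWithin (μ := (volume : Measure ℂ)) MeasurableSet.univ h2
  rw [Measure.restrict_univ] at h3
  exact h3

/-- **the energy of a lift** -/
theorem en_le {F : ℂ → EN N} {G : ℂ → EN N'} {h : ℂ → ℂ} {K : ℝ} {d : ℕ} (hF : Differentiable ℂ F) (hF0 : ∀ z, F z ≠ 0) (hG : Differentiable ℂ G)
    (hG0 : ∀ z, G z ≠ 0) (hh : Differentiable ℂ h) (hh0 : ∃ z, h z ≠ 0) (hle : ∀ z, ‖h z‖ * ‖G z‖ ≤ K * ‖F z‖ ^ d) :
    ∃ C : ℝ, ∀ R, 1 ≤ R → En G R ≤ d * En F R + C := by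
  have hK : 0 < K := by
    obtain ⟨w, hw⟩ := hh0
    have h1 : 0 < ‖h w‖ * ‖G w‖ := mul_pos (norm_pos_iff.2 hw) (norm_pos_iff.2 (hG0 w))
    exact pos_of_mul_pos_left (h1.trans_le (hle w)) (by positivity)
  have hFl := (contDiff_log_norm hF hF0).continuous
  have hGl := (contDiff_log_norm hG hG0).continuous
  have ho : ∀ z, analyticOrderAt h z ≠ ⊤ := by
    obtain ⟨w, hw⟩ := hh0
    have hw' : analyticOrderAt h w ≠ ⊤ := by
      rw [(hh.analyticAt w).analyticOrderAt_eq_zero.2 hw]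
      simp
    intro z
    exact (show AnalyticOnNhd ℂ h Set.univ from fun z _ => hh.analyticAt z).analyticOrderAt_ne_top_of_isPreconnected isPreconnected_univ
      (Set.mem_univ w) (Set.mem_univ z) hw'
  refine ⟨(2 * Real.pi * Real.log K + d * avg 1 (fun z => Real.log ‖F z‖) - avg 1 (fun z => Real.log ‖h z‖) - avg 1 fun z => Real.log ‖G z‖) / 2,
    fun R hR => ?_⟩
  have i1 : Integrable fun z => rhoR R z * Real.log ‖G z‖ :=
    ((continuous_rhoR R).mul hGl).integrable_of_hasCompactSupport ((hcs_rhoR hR).mul_right)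
  have i2 : Integrable fun z => rhoR R z * Real.log ‖F z‖ :=
    ((continuous_rhoR R).mul hFl).integrable_of_hasCompactSupport ((hcs_rhoR hR).mul_right)
  have i3 : Integrable fun z => rhoR R z * Real.log ‖h z‖ :=
    integrable_mul_log (continuous_rhoR R) (hcs_rhoR hR) (fun z _ => hh.analyticAt z) fun z _ => ho z
  have i4 : Integrable fun z => rhoR R z * Real.log K :=
    ((continuous_rhoR R).mul continuous_const).integrable_of_hasCompactSupport ((hcs_rhoR hR).mul_right)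
  have h1 : avg R (fun z => Real.log ‖G z‖) ≤
      2 * Real.pi * Real.log K + d * avg R (fun z => Real.log ‖F z‖) - avg R fun z => Real.log ‖h z‖ := by
    have h2 : ∫ z, (rhoR R z * Real.log K + d * (rhoR R z * Real.log ‖F z‖) - rhoR R z * Real.log ‖h z‖) =
        2 * Real.pi * Real.log K + d * avg R (fun z => Real.log ‖F z‖) - avg R fun z => Real.log ‖h z‖ := by
      have j1 : Integrable fun z => rhoR R z * Real.log K + d * (rhoR R z * Real.log ‖F z‖) := i4.add (i2.const_mul _)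
      rw [integral_sub j1 i3, integral_add i4 (i2.const_mul _), integral_const_mul, integral_mul_const, int_rhoR hR]
      rfl
    rw [← h2]
    refine integral_mono_ae i1 ((i4.add (i2.const_mul _)).sub i3) ?_
    filter_upwards [ae_ne hh hh0] with z hz
    have h3 : 0 < ‖h z‖ := norm_pos_iff.2 hz
    have h4 : 0 < ‖G z‖ := norm_pos_iff.2 (hG0 z)
    have h5 : 0 < ‖F z‖ := norm_pos_iff.2 (hF0 z)
    have h6 := Real.log_le_log (by positivity) (hle z)
    rw [Real.log_mul h3.ne' h4.ne', Real.log_mul hK.ne' (by positivity), Real.log_pow] at h6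
    have h7 : Real.log ‖G z‖ ≤ Real.log K + d * Real.log ‖F z‖ - Real.log ‖h z‖ := by linarith
    calc rhoR R z * Real.log ‖G z‖ ≤ rhoR R z * (Real.log K + d * Real.log ‖F z‖ - Real.log ‖h z‖) :=
          mul_le_mul_of_nonneg_left h7 (rhoR_nonneg R z)
      _ = _ := by ring
  have h2 := two_en hF hF0 hR
  have h3 := two_en hG hG0 hR
  have h4 := pl_tau hR hh hh0
  have h5 : 0 ≤ 2 * Real.pi * ∑ᶠ z, (analyticOrderNatAt h z : ℝ) * tau R z :=
    mul_nonneg (by positivity) (finsum_nonneg fun z => mul_nonneg (by positivity) (tau_nonneg hR z))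
  have h6 : (d : ℝ) * (2 * En F R) = d * (avg R (fun z => Real.log ‖F z‖) - avg 1 fun z => Real.log ‖F z‖) := by rw [h2]
  linarith

end Pool.Agent.MQ3

end
end
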