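import Pool.Agent.H43.TL2.M30
import Pool.Agent.H43.TL2.M35

/-! The parts of this file: MQ2.Defs_1, MQ2.Step0, MQL.Defs. -/

section

/-!
# MQ2 Defs: a box with an arbitrary isolated singular point of the foliation

Everything is in one variable: `Om` is open in `ℂ`, `p : Om → ball 0 r` is a curve tangent to the vector field `v` (`MQ.Crv1`).

* `Child e ι t v w`: `w` is the transform of `v` at the point `t` of the exceptional line `{x = 0}`, old coordinates `(x, x (y + t))`; `x ^ e` has been divided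
  out; `ι = 1` if the exceptional line is invariant.  The point `∞` is the point `0` for `swv v`.
* `Tree v`: `v` is reduced by finitely many blow-ups.
* `Wt v g`: `g` is a (reduced) equation of a curve invariant under `v`.
* `Sep v c`: the germs `c N` are the `N`-jets of a formal curve tangent to `v`.
* `Dat`: the data of a curve in the box and of a form `Q` along it (`q`, `ψ` as in `MQ.shell`).
* `LocX`: the conclusion of the package.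
* `Good P v`: the package for `v`, for all weights `g` and Jacobian factors `J` with `P g J`.
-/

set_option autoImplicit false

open Topology Filter Metric MeasureTheory Asymptotics Laplacian

noncomputable section

namespace Pool.Agent.MQ2

open Pool.Agent.H36.BP (EN)
open Pool.Agent.H30M (tau LogSing)
open Pool.Agent.MQ

/-! ## vector fields -/

/-! ## weights and formal separatrices -/

/-! ## the package -/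

/-- a curve in the box and a form `Q` along it; `lm` is an energy density -/
structure Dat (v : ℂ × ℂ → ℂ × ℂ) (g : ℂ × ℂ → ℂ) (r B : ℝ) (d : ℕ) (q : ℂ × ℂ → ℂ) (ψ : ℂ × ℂ → ℝ) {M : ℕ} (F : ℂ → EN M) (Q : ℂ → ℂ) (lm : ℂ → ℝ)
    (Om : Set ℂ) (p : ℂ → ℂ × ℂ) : Prop where
  crv : Crv1 v r Om p
  p_ne : ∀ z ∈ Om, ∃ᶠ w in 𝓝 z, p w ≠ 0
  g_ne : ∀ z ∈ Om, ∃ᶠ w in 𝓝 z, g (p w) ≠ 0
  lm_cont : Continuous lm
  lm_nonneg : ∀ z, 0 ≤ lm z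
  lm_ge : ∀ z ∈ Om, ‖deriv p z‖ ≤ B * lm z
  F_diff : Differentiable ℂ F
  F_ne : ∀ z, F z ≠ 0
  lam_le : ∀ z, lam F z ≤ lm z
  Q_diff : Differentiable ℂ Q
  Q_ne : ∃ z, Q z ≠ 0
  Q_le : ∀ z, ‖Q z‖ ≤ ‖F z‖ ^ d
  Q_eq : ∃ c : ℝ, 0 < c ∧ ∀ z ∈ Om, ‖Q z‖ * Real.exp (d * ψ (p z)) = c * ‖q (p z)‖ * ‖F z‖ ^ d

/-- **The conclusion of the package.**  `l` is a bigger density; outside the polydisc of radius `s` the field `η` is `conj D`; `Φ` is the exact term. -/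
def LocX (v : ℂ × ℂ → ℂ × ℂ) (g J : ℂ × ℂ → ℂ) (Om : Set ℂ) (p : ℂ → ℂ × ℂ) (lm : ℂ → ℝ) (s A δ : ℝ) : Prop :=
  ∃ (C : ℝ) (l : ℂ → ℝ) (η : ℂ → ℂ) (Φ err : ℂ → ℝ), 0 ≤ C ∧ Continuous l ∧ (∀ z, lm z ≤ l z) ∧
    (∀ R, 1 ≤ R → ∫ z, tau R z * l z ^ 2 ≤ A * (∫ z, tau R z * lm z ^ 2) + C) ∧
    ContDiffOn ℝ 1 η Om ∧ ContinuousOn err Om ∧ (∀ z ∈ Om, ∃ c, LogSing Φ c z) ∧
    (∀ z ∈ Om, p z ∉ ball (0 : ℂ × ℂ) s → η z = (starRingEnd ℂ) (DDv v g p z) ∧ err z = 0 ∧ Φ z = 0) ∧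
    (∀ z ∈ Om, p z ∈ ball (0 : ℂ × ℂ) s → ‖η z‖ ≤ C * l z) ∧
    (∀ z ∈ Om, ContDiffAt ℝ 2 Φ z → 0 ≤ dv η z + Δ Φ z + err z) ∧
    (∀ z ∈ Om, ContDiffAt ℝ 2 Φ z → ztv v p z ≠ 0 → g (p z) ≠ 0 → J (p z) ≠ 0 →
      Real.log ‖ztv v p z‖ + Real.log ‖g (p z)‖ + Real.log ‖J (p z)‖ + Φ z ≤ C + Real.log (1 + l z)) ∧
    ∀ R, 1 ≤ R → ∫ z in Om, tau R z * err z ≤ δ * (∫ z, tau R z * lm z ^ 2) + C * (∫ z, ‖gr (tau R) z‖ * l z) + C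

/-- **The package** for `v`, for the weights `g` and Jacobian factors `J` with `P g J`. -/
def Good (P : (ℂ × ℂ → ℂ) → (ℂ × ℂ → ℂ) → Prop) (v : ℂ × ℂ → ℂ × ℂ) : Prop :=
  ∃ (m : ℕ) (c : Fin m → ℕ → ℂ → ℂ × ℂ), (∀ i, Sep v (c i)) ∧
    ∀ g J : ℂ × ℂ → ℂ, P g J → Wt v g → AnalyticAt ℂ J 0 → ∀ᶠ r in 𝓝[>] (0 : ℝ), ∀ s, 0 < s → s < r → ∀ B, 0 ≤ B → ∃ A C₀ : ℝ, 0 ≤ A ∧ 0 ≤ C₀ ∧
      ∀ (d n : ℕ) (q : ℂ × ℂ → ℂ) (ψ : ℂ × ℂ → ℝ), 1 ≤ d → 1 ≤ n → AnalyticAt ℂ q 0 → ContDiffAt ℝ 1 ψ 0 → (∀ i, FZero (c i) g ∨ HasOrd (c i) q n) →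
        ∀ (M : ℕ) (F : ℂ → EN M) (Q : ℂ → ℂ) (lm : ℂ → ℝ) (Om : Set ℂ) (p : ℂ → ℂ × ℂ), Dat v g r B d q ψ F Q lm Om p →
          LocX v g J Om p lm s A (C₀ * d / n)

end Pool.Agent.MQ2

end
end

section

/-!
# MQ2 Step0: the definitions for the blow-up step

`DirP v g J N r Con re B A C₀ O K`: the package of one chart (`O Om p`, with the core `K Om p`) for all curves `p`; `Con n q` is the contact condition for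
the form; `ell` is equal to `log |p|` on the ball of radius `re`; `EnB` is the property of the density `l₁` of the blow-up.
-/

set_option autoImplicit false

open Topology Filter Metric MeasureTheory Asymptotics Laplacian

noncomputable section

namespace Pool.Agent.MQ2

open Pool.Agent.H36.BP (EN)
open Pool.Agent.H30M (tau LogSing)
open Pool.Agent.MQ

/-- the points where the inequality for the logarithms is required -/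
def VV (v : ℂ × ℂ → ℂ × ℂ) (g J : ℂ × ℂ → ℂ) (Om : Set ℂ) (p : ℂ → ℂ × ℂ) : Set ℂ := {z | z ∈ Om ∧ ztv v p z ≠ 0 ∧ g (p z) ≠ 0 ∧ J (p z) ≠ 0}

/-- the sum of the logarithms -/
def LL (v : ℂ × ℂ → ℂ × ℂ) (g J : ℂ × ℂ → ℂ) (p : ℂ → ℂ × ℂ) (z : ℂ) : ℝ :=
  Real.log ‖ztv v p z‖ + Real.log ‖g (p z)‖ + Real.log ‖J (p z)‖

/-- the weight of the transform -/
def gt (ι : ℕ) (g' : ℂ × ℂ → ℂ) (q : ℂ × ℂ) : ℂ := q.1 ^ ι * g' q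

/-- the Jacobian factor of the transform -/
def Jt (t : ℂ) (J : ℂ × ℂ → ℂ) (q : ℂ × ℂ) : ℂ := q.1 * J (be t q)

/-- `1/2 log (1 + |slope|²)` -/
def us (p : ℂ → ℂ × ℂ) (z : ℂ) : ℝ := Real.log (1 + ‖slope p z‖ ^ 2) / 2

/-- the estimate of the slopes by the density `l₁` -/
def EnB (Om : Set ℂ) (p : ℂ → ℂ × ℂ) (s : ℝ) (l₁ : ℂ → ℝ) : Prop :=
  ∀ z ∈ Om, p z ∈ closedBall (0 : ℂ × ℂ) s →
    (∀ h : ℂ → ℂ, AnalyticAt ℂ h z → (∀ᶠ w in 𝓝 z, (p w).2 = (p w).1 * h w) → ‖deriv h z‖ ≤ (1 + ‖h z‖ ^ 2) * l₁ z) ∧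
    ∀ h : ℂ → ℂ, AnalyticAt ℂ h z → (∀ᶠ w in 𝓝 z, (p w).1 = (p w).2 * h w) → ‖deriv h z‖ ≤ (1 + ‖h z‖ ^ 2) * l₁ z

/-- `ell = log |p|` near the center -/
def EllP (Om : Set ℂ) (p : ℂ → ℂ × ℂ) (re : ℝ) (ell : ℂ → ℝ) : Prop :=
  ∀ z ∈ Om, p z ≠ 0 → p z ∈ ball (0 : ℂ × ℂ) re → ell z = Real.log (‖(p z).1‖ ^ 2 + ‖(p z).2‖ ^ 2) / 2

/-- **The package of a chart.** -/
def DirP (v : ℂ × ℂ → ℂ × ℂ) (g J : ℂ × ℂ → ℂ) (N r : ℝ) (Con : ℕ → (ℂ × ℂ → ℂ) → Prop) (re B A C₀ : ℝ) (O K : Set ℂ → (ℂ → ℂ × ℂ) → Set ℂ) : Prop :=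
  ∀ (d n : ℕ) (q : ℂ × ℂ → ℂ) (ψ : ℂ × ℂ → ℝ), 1 ≤ d → 1 ≤ n → AnalyticAt ℂ q 0 → ContDiffAt ℝ 1 ψ 0 → Con n q →
    ∀ (M : ℕ) (F : ℂ → EN M) (Q : ℂ → ℂ) (lm : ℂ → ℝ) (Om : Set ℂ) (p : ℂ → ℂ × ℂ), Dat v g r B d q ψ F Q lm Om p →
      ∀ ell : ℂ → ℝ, EllP Om p re ell → ∀ l₁ : ℂ → ℝ, Continuous l₁ → (∀ z, lm z ≤ l₁ z) → EnB Om p re l₁ →
        ∃ (C : ℝ) (l : ℂ → ℝ) (η D X : ℂ → ℂ) (Φ err u : ℂ → ℝ), 0 ≤ C ∧ Continuous l ∧ (∀ z, l₁ z ≤ l z) ∧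
          (∀ R, 1 ≤ R → ∫ z, tau R z * l z ^ 2 ≤ A * (∫ z, tau R z * l₁ z ^ 2) + C) ∧
          Cht (DDv v g p) ell (LL v g J p) (VV v g J Om p) N l C (O Om p) (K Om p) η D X Φ err u ∧
          ∀ R, 1 ≤ R → ∫ z in O Om p, tau R z * err z ≤ C₀ * d / n * (∫ z, tau R z * l₁ z ^ 2) + C * (∫ z, ‖gr (tau R) z‖ * l z) + C

/-- the core of the chart at `t` -/
def Kt (t : ℂ) (ρ σ : ℝ) (Om : Set ℂ) (p : ℂ → ℂ × ℂ) : Set ℂ := {z | z ∈ Omt Om p t ρ ∧ pt t p z ∈ closedBall (0 : ℂ × ℂ) σ}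

end Pool.Agent.MQ2

end
end

section

/-!
# MQL Defs: the package at an isolated singular point for curves which avoid a curve `D` (logarithmic version)

The curve `D` lies in the axes `{x = 0}`, `{y = 0}` of the box; the form `W` has poles of order less than `m` along `D`.  The Jacobian factor is
`|x| ^ al * |y| ^ be` with real exponents `al`, `be` greater than `-1`; a negative exponent means that the axis belongs to `D`, so the curves do not meet it, and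
if it is invariant then the weight vanishes on it.  For `0 ≤ al`, `0 ≤ be` this is `MQ2.Good` with `J = 1`.
-/

set_option autoImplicit false

open Topology Filter Metric MeasureTheory Asymptotics Laplacian

noncomputable section

namespace Pool.Agent.MQL

open Pool.Agent.H36.BP (EN)
open Pool.Agent.H30M (tau LogSing)
open Pool.Agent.MQ Pool.Agent.MQ2

/-- `|x| ^ al * |y| ^ be` -/
def JD (al be : ℝ) (p : ℂ × ℂ) : ℂ := ((‖p.1‖ ^ al * ‖p.2‖ ^ be : ℝ) : ℂ)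

/-- `x` divides `g` -/
def DivX (g : ℂ × ℂ → ℂ) : Prop := ∃ g₀ : ℂ × ℂ → ℂ, AnalyticAt ℂ g₀ 0 ∧ ∀ᶠ p in 𝓝 (0 : ℂ × ℂ), g p = p.1 * g₀ p

/-- `y` divides `g` -/
def DivY (g : ℂ × ℂ → ℂ) : Prop := ∃ g₀ : ℂ × ℂ → ℂ, AnalyticAt ℂ g₀ 0 ∧ ∀ᶠ p in 𝓝 (0 : ℂ × ℂ), g p = p.2 * g₀ p

/-- the weight contains the invariant axes with a negative exponent -/
structure AxW (al be : ℝ) (v : ℂ × ℂ → ℂ × ℂ) (g : ℂ × ℂ → ℂ) : Prop where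
  fst : al < 0 → (∀ᶠ t in 𝓝 (0 : ℂ), (v (0, t)).1 = 0) → DivX g
  snd : be < 0 → (∀ᶠ t in 𝓝 (0 : ℂ), (v (t, 0)).2 = 0) → DivY g

/-- the curve avoids the axes with a negative exponent -/
structure Avoid (al be : ℝ) (Om : Set ℂ) (p : ℂ → ℂ × ℂ) : Prop where
  fst : al < 0 → ∀ z ∈ Om, (p z).1 ≠ 0
  snd : be < 0 → ∀ z ∈ Om, (p z).2 ≠ 0

/-- **The package** for `v` and the exponents `al`, `be`, for the weights `g` with `P g`.  The conclusion is for the part of the curve in the polydisc of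
radius `s' < r` (the root energies are bounded there only); outside the polydisc of radius `s` the field is `conj D`. -/
def GoodD (P : (ℂ × ℂ → ℂ) → Prop) (al be : ℝ) (v : ℂ × ℂ → ℂ × ℂ) : Prop :=
  ∃ (m : ℕ) (c : Fin m → ℕ → ℂ → ℂ × ℂ), (∀ i, Sep v (c i)) ∧
    ∀ g : ℂ × ℂ → ℂ, P g → Wt v g → AxW al be v g → ∀ᶠ r in 𝓝[>] (0 : ℝ), ∀ s s', 0 < s → s < s' → s' < r → ∀ B, 0 ≤ B → ∃ A C₀ : ℝ, 0 ≤ A ∧ 0 ≤ C₀ ∧
      ∀ (d n : ℕ) (q : ℂ × ℂ → ℂ) (ψ : ℂ × ℂ → ℝ), 1 ≤ d → 1 ≤ n → AnalyticAt ℂ q 0 → ContDiffAt ℝ 1 ψ 0 →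
        (∀ i, FZero (c i) g ∨ HasOrd (c i) q n) →
        ∀ (M : ℕ) (F : ℂ → EN M) (Q : ℂ → ℂ) (lm : ℂ → ℝ) (Om : Set ℂ) (p : ℂ → ℂ × ℂ), Dat v g r B d q ψ F Q lm Om p → Avoid al be Om p →
          LocX v g (JD al be) {z | z ∈ Om ∧ p z ∈ ball (0 : ℂ × ℂ) s'} p lm s A (C₀ * d / n)

/-- the package without separatrices (for all forms `q`); used at regular points which depend on the curve `{Ra = 0}` -/
def GoodD0 (P : (ℂ × ℂ → ℂ) → Prop) (al be : ℝ) (v : ℂ × ℂ → ℂ × ℂ) : Prop :=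
  ∀ g : ℂ × ℂ → ℂ, P g → Wt v g → AxW al be v g → ∀ᶠ r in 𝓝[>] (0 : ℝ), ∀ s s', 0 < s → s < s' → s' < r → ∀ B, 0 ≤ B → ∃ A C₀ : ℝ, 0 ≤ A ∧ 0 ≤ C₀ ∧
    ∀ (d n : ℕ) (q : ℂ × ℂ → ℂ) (ψ : ℂ × ℂ → ℝ), 1 ≤ d → 1 ≤ n → AnalyticAt ℂ q 0 → ContDiffAt ℝ 1 ψ 0 →
      ∀ (M : ℕ) (F : ℂ → EN M) (Q : ℂ → ℂ) (lm : ℂ → ℝ) (Om : Set ℂ) (p : ℂ → ℂ × ℂ), Dat v g r B d q ψ F Q lm Om p → Avoid al be Om p →
        LocX v g (JD al be) {z | z ∈ Om ∧ p z ∈ ball (0 : ℂ × ℂ) s'} p lm s A (C₀ * d / n)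

/-- all weights -/
def GT : (ℂ × ℂ → ℂ) → Prop := fun _ => True

/-- both axes are in the weight -/
def GC (g : ℂ × ℂ → ℂ) : Prop := ∃ g₀ : ℂ × ℂ → ℂ, AnalyticAt ℂ g₀ 0 ∧ ∀ᶠ p in 𝓝 (0 : ℂ × ℂ), g p = p.1 * p.2 * g₀ p

/-- the class of the transforms of the weights of the class `P`, at the point `t` of the exceptional line -/
def TG (ι : ℕ) (t : ℂ) (P : (ℂ × ℂ → ℂ) → Prop) (g₁ : ℂ × ℂ → ℂ) : Prop :=
  ∃ (g : ℂ × ℂ → ℂ) (m : ℕ) (g' : ℂ × ℂ → ℂ), P g ∧ AnalyticAt ℂ g 0 ∧ AnalyticAt ℂ g' 0 ∧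
    (∀ᶠ p in 𝓝 (0 : ℂ × ℂ), g (be t p) = p.1 ^ m * g' p) ∧ ∀ᶠ p in 𝓝 (0 : ℂ × ℂ), g₁ p = p.1 ^ ι * g' p

/-- the class with the coordinates exchanged -/
def SG (P : (ℂ × ℂ → ℂ) → Prop) (g : ℂ × ℂ → ℂ) : Prop := P fun p => g p.swap

end Pool.Agent.MQL

end
end
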