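import Pool.Agent.H43.TL2.M14
import Pool.Agent.H43.TL2.M59

/-! The parts of this file: MQ3.EnC, MQ3.EnR. -/

section

/-!
# MQ3 EnC: the pointwise inequality with the cut-off, its integral, Fatou
-/

set_option autoImplicit false

open MeasureTheory Topology Filter Metric Laplacian

noncomputable section

namespace Pool.Agent.MQ3

open Pool.Agent.MQ
open Pool.Agent.H30M (tau rhoR avg rho gg lap_comp lap_mul lap_congr gg_congr gg_sq_le gg_self_nonneg gg_comm gg_comp green_tau tau_nonneg contDiff_tau hcs_tau rhoR_nonneg continuous_rhoR hcs_rhoR int_rhoR abs_gg_le)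

variable {U : Set ℂ} {x y : ℂ → ℂ} {l : ℂ → ℝ}

/-- the pointwise inequality -/
theorem core_pt (h : Crd U x y) {a b C1 : ℝ} (hb0 : 0 ≤ b) (hab : a < b) (hb : b < 1) (hC10 : 0 ≤ C1)
    (hC1 : ∀ z, gg (cut U x y a b) (cut U x y a b) z ≤ C1 * l z ^ 2 ∧ |Δ (cut U x y a b) z| ≤ C1 * l z ^ 2)
    {g : ℂ → ℝ} {z : ℂ} (hz : z ∈ U) (hg : ContDiffAt ℝ 2 g z) {C0 θ H : ℝ} (hθ : 0 < θ) (hC0 : 0 ≤ C0) (hH : 0 ≤ H)
    (hs : z ∈ Kb U x y b → ¬ Inn x y a z → |g z| ≤ C0 ∧ gg g g z ≤ H) :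
    cut U x y a b z ^ 2 * Δ g z ≤ Δ (fun w => cut U x y a b w ^ 2 * g w) z + (4 * C0 + 2 / θ) * C1 * l z ^ 2 +
      2 * θ * cut U x y a b z ^ 2 * H := by
  set κ := cut U x y a b with hκ
  by_cases hK : z ∈ Kb U x y b
  · by_cases hi : Inn x y a z
    · have h1 := cut_ev_one h hab hz hi
      have e1 : (fun w => κ w ^ 2 * g w) =ᶠ[𝓝 z] g := by
        filter_upwards [h1] with w hw
        rw [hκ, hw, one_pow, one_mul]
      have e2 : κ z = 1 := h1.self_of_nhds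
      rw [lap_congr e1, e2]
      have : 0 ≤ (4 * C0 + 2 / θ) * C1 * l z ^ 2 := by positivity
      have : 0 ≤ 2 * θ * 1 ^ 2 * H := by positivity
      linarith
    · obtain ⟨hg0, hgH⟩ := hs hK hi
      obtain ⟨k1, k2⟩ := hC1 z
      have cκ : ContDiffAt ℝ 2 κ z := (cut_cd h hb0 hab hb).contDiffAt
      have cκ2 : ContDiffAt ℝ 2 (fun w => κ w * κ w) z := cκ.mul cκ
      have e0 : (fun w => κ w ^ 2 * g w) = fun w => (κ w * κ w) * g w := by
        funext w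
        ring
      have g2 : gg (fun w => κ w * κ w) g z = 2 * κ z * gg κ g z := by
        unfold gg
        rw [fderiv_fun_mul (cκ.differentiableAt (by norm_num)) (cκ.differentiableAt (by norm_num))]
        simp only [add_apply, smul_apply, smul_eq_mul]
        ring
      have e1 : Δ (fun w => κ w ^ 2 * g w) z = κ z ^ 2 * Δ g z + g z * (2 * κ z * Δ κ z + 2 * gg κ κ z) + 4 * κ z * gg κ g z := by
        rw [e0, lap_mul cκ2 hg, lap_mul cκ cκ, g2]
        ring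
      rw [e1]
      have hk0 : 0 ≤ κ z := cut_nonneg _ _ _
      have hk1 : κ z ≤ 1 := cut_le_one _ _ _
      have hl0 := sq_nonneg (l z)
      set m := C1 * l z ^ 2 with hm
      have hm0 : 0 ≤ m := by positivity
      have b1 : |g z * (2 * κ z * Δ κ z + 2 * gg κ κ z)| ≤ C0 * (4 * m) := by
        rw [abs_mul]
        refine mul_le_mul hg0 ?_ (abs_nonneg _) hC0
        refine (abs_add_le _ _).trans ?_
        rw [abs_mul, abs_mul, abs_mul, abs_of_nonneg hk0, abs_of_nonneg (gg_self_nonneg κ z), abs_of_nonneg (zero_le_two (α := ℝ))]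
        have : 2 * κ z * |Δ κ z| ≤ 2 * 1 * m := by gcongr
        linarith
      have b2 : |gg κ g z| ≤ √m * √(gg g g z) := (abs_gg_le κ g z).trans (mul_le_mul_of_nonneg_right (Real.sqrt_le_sqrt k1) (Real.sqrt_nonneg _))
      have b3 : |4 * κ z * gg κ g z| ≤ 2 / θ * m + 2 * θ * κ z ^ 2 * H := by
        rw [abs_mul, abs_of_nonneg (by positivity)]
        have c1 : 4 * κ z * |gg κ g z| ≤ 4 * κ z * (√m * √(gg g g z)) := by gcongr
        refine c1.trans ?_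
        have s1 : √m ^ 2 = m := Real.sq_sqrt hm0
        have s2 : √(gg g g z) ^ 2 = gg g g z := Real.sq_sqrt (gg_self_nonneg g z)
        have c2 : 4 * κ z * (√m * √(gg g g z)) ≤ 2 / θ * √m ^ 2 + 2 * θ * κ z ^ 2 * √(gg g g z) ^ 2 := by
          have hh : 0 ≤ 2 / θ * (√m - θ * κ z * √(gg g g z)) ^ 2 := by positivity
          have : 2 / θ * (√m - θ * κ z * √(gg g g z)) ^ 2 =
              2 / θ * √m ^ 2 - 4 * κ z * (√m * √(gg g g z)) + 2 * θ * κ z ^ 2 * √(gg g g z) ^ 2 := by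
            field_simp
            ring
          linarith
        refine c2.trans ?_
        rw [s1, s2]
        gcongr
      have d1 := (abs_le.1 b1).1
      have d3 := (abs_le.1 b3).1
      have e2 : (4 * C0 + 2 / θ) * C1 * l z ^ 2 = C0 * (4 * m) + 2 / θ * m := by
        rw [hm]
        ring
      rw [e2]
      linarith
  · have h0 := cut_ev_zero h hb0 hab hb hK
    have e1 : (fun w => κ w ^ 2 * g w) =ᶠ[𝓝 z] fun _ => 0 := by
      filter_upwards [h0] with w hw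
      rw [hκ, hw]
      ring
    have e2 : κ z = 0 := h0.self_of_nhds
    have e3 : Δ (fun w => κ w ^ 2 * g w) z = 0 := by
      rw [lap_congr e1]
      simp [InnerProductSpace.laplacian_const]
    rw [e3, e2]
    have : 0 ≤ (4 * C0 + 2 / θ) * C1 * l z ^ 2 := by positivity
    have e4 : (0 : ℝ) ^ 2 * Δ g z = 0 := by ring
    rw [e4]
    have e5 : 2 * θ * (0 : ℝ) ^ 2 * H = 0 := by ring
    rw [e5]
    linarith

theorem cut_mul_zero (h : Crd U x y) {a b : ℝ} (hb0 : 0 ≤ b) (hab : a < b) (hb : b < 1) (D : ℂ → ℝ) {z : ℂ} (hz : z ∉ Kb U x y b) :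
    (fun z => cut U x y a b z ^ 2 * D z) =ᶠ[𝓝 z] fun _ => 0 := by
  filter_upwards [cut_ev_zero h hb0 hab hb hz] with w hw
  rw [hw]
  ring

theorem cut_mul_cont (h : Crd U x y) {a b : ℝ} (hb0 : 0 ≤ b) (hab : a < b) (hb : b < 1) {D : ℂ → ℝ} (hD : ContinuousOn D U) :
    Continuous fun z => cut U x y a b z ^ 2 * D z := by
  rw [continuous_iff_continuousAt]
  intro z
  by_cases hz : z ∈ Kb U x y b
  · exact ((cut_cd h hb0 hab hb).continuous.continuousAt.pow 2).mul (hD.continuousAt (h.isOpen.mem_nhds hz.1))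
  · exact continuousAt_const.congr (cut_mul_zero h hb0 hab hb D hz).symm

theorem cut_mul_cd (h : Crd U x y) {a b : ℝ} (hb0 : 0 ≤ b) (hab : a < b) (hb : b < 1) {D : ℂ → ℝ} (hD : ∀ z ∈ U, ContDiffAt ℝ 2 D z) :
    ContDiff ℝ 2 fun z => cut U x y a b z ^ 2 * D z := by
  rw [contDiff_iff_contDiffAt]
  intro z
  by_cases hz : z ∈ Kb U x y b
  · exact ((cut_cd h hb0 hab hb).contDiffAt.pow 2).mul (hD z hz.1)
  · exact contDiffAt_const.congr_of_eventuallyEq (cut_mul_zero h hb0 hab hb D hz)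

theorem tau_int {R : ℝ} (hR : 1 ≤ R) {P : ℂ → ℝ} (hP : Continuous P) : Integrable fun z => tau R z * P z :=
  ((contDiff_tau R).continuous.mul hP).integrable_of_hasCompactSupport (hcs_tau hR).mul_right

theorem avg_le' {R : ℝ} (hR : 1 ≤ R) {G : ℂ → ℝ} (hG : Continuous G) {C : ℝ} (h : ∀ z, G z ≤ C) : avg R G ≤ 2 * Real.pi * C := by
  unfold avg
  rw [← int_rhoR hR, ← integral_mul_const]
  refine integral_mono ?_ ?_ fun z => mul_le_mul_of_nonneg_left (h z) (rhoR_nonneg R z)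
  · exact ((continuous_rhoR R).mul hG).integrable_of_hasCompactSupport (hcs_rhoR hR).mul_right
  · exact ((continuous_rhoR R).integrable_of_hasCompactSupport (hcs_rhoR hR)).mul_const C

/-- the integrated inequality -/
theorem core_int (hl : ∀ R, 1 ≤ R → Integrable fun z => tau R z * l z ^ 2) {B : ℝ} {e : ℝ → ℝ} (hB : ∀ R, 1 ≤ R → ∫ z, tau R z * l z ^ 2 ≤ B * e R)
    {G P Q : ℂ → ℝ} (hG : ContDiff ℝ 2 G) (hP : Continuous P) (hQ : Continuous Q) {C C2 C3 : ℝ} (hC : 0 ≤ C)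
    (hpt : ∀ z, P z ≤ Δ G z + C * l z ^ 2 + Q z) (hG2 : ∀ z, G z ≤ C2) (hG3 : -C3 ≤ avg 1 G) {R : ℝ} (hR : 1 ≤ R) :
    ∫ z, tau R z * P z ≤ 2 * Real.pi * C2 + C3 + C * (B * e R) + ∫ z, tau R z * Q z := by
  have hΔ : Continuous (Δ G) := by
    rw [continuous_iff_continuousAt]
    intro z
    have h1 : Δ G = fun w => fderiv ℝ (fun w => fderiv ℝ G w 1) w 1 + fderiv ℝ (fun w => fderiv ℝ G w Complex.I) w Complex.I := by
      funext w
      exact Pool.Agent.H30M.lap_eq hG.contDiffAt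
    rw [h1]
    have h2 : ∀ v : ℂ, Continuous fun w => fderiv ℝ (fun w => fderiv ℝ G w v) w v := by
      intro v
      have h3 : ContDiff ℝ 1 fun w => fderiv ℝ G w v := (hG.fderiv_right (m := 1) (by norm_num)).clm_apply contDiff_const
      exact (h3.continuous_fderiv (by norm_num)).clm_apply continuous_const
    exact ((h2 1).add (h2 Complex.I)).continuousAt
  have i1 := tau_int hR hP
  have i2 := tau_int hR hΔ
  have i3 := hl R hR
  have i4 := tau_int hR hQ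
  have h1 : ∫ z, tau R z * P z ≤ ∫ z, (tau R z * Δ G z + C * (tau R z * l z ^ 2) + tau R z * Q z) := by
    refine integral_mono i1 ((i2.add (i3.const_mul C)).add i4) fun z => ?_
    have := mul_le_mul_of_nonneg_left (hpt z) (tau_nonneg hR z)
    show tau R z * P z ≤ tau R z * Δ G z + C * (tau R z * l z ^ 2) + tau R z * Q z
    nlinarith
  have i23 : Integrable fun z => tau R z * Δ G z + C * (tau R z * l z ^ 2) := i2.add (i3.const_mul C)
  rw [integral_add i23 i4, integral_add i2 (i3.const_mul C), integral_const_mul, green_tau hR hG] at h1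
  have h2 := avg_le' hR hG.continuous hG2
  have h3 := mul_le_mul_of_nonneg_left (hB R hR) hC
  linarith

/-- Fatou -/
theorem fatou_real {f : ℕ → ℂ → ℝ} {g : ℂ → ℝ} {C : ℝ} {S : Set ℂ} (hC0 : 0 ≤ C) (hf : ∀ n, Integrable (f n)) (h0 : ∀ n z, 0 ≤ f n z) (hC : ∀ n, ∫ z, f n z ≤ C)
    (hg : AEStronglyMeasurable g) (g0 : ∀ z, 0 ≤ g z) (gS : ∀ z, z ∉ S → g z = 0) (hlim : ∀ z ∈ S, Tendsto (fun n => f n z) atTop (𝓝 (g z))) :
    Integrable g ∧ ∫ z, g z ≤ C := by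
  have h1 : ∫⁻ z, ENNReal.ofReal (g z) ≤ ENNReal.ofReal C := by
    calc ∫⁻ z, ENNReal.ofReal (g z) ≤ ∫⁻ z, liminf (fun n => ENNReal.ofReal (f n z)) atTop := by
          refine lintegral_mono fun z => ?_
          by_cases hz : z ∈ S
          · have := (ENNReal.continuous_ofReal.tendsto _).comp (hlim z hz)
            exact le_of_eq this.liminf_eq.symm
          · show ENNReal.ofReal (g z) ≤ _
            rw [gS z hz, ENNReal.ofReal_zero]
            exact zero_le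
      _ ≤ liminf (fun n => ∫⁻ z, ENNReal.ofReal (f n z)) atTop := lintegral_liminf_le' fun n => (hf n).aestronglyMeasurable.aemeasurable.ennreal_ofReal
      _ ≤ ENNReal.ofReal C := by
          refine liminf_le_of_le (by isBoundedDefault) fun b hb => ?_
          obtain ⟨n, hn⟩ := hb.exists
          refine hn.trans ?_
          rw [← ofReal_integral_eq_lintegral_ofReal (hf n) (Eventually.of_forall (h0 n))]
          exact ENNReal.ofReal_le_ofReal (hC n)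
  have hi : Integrable g := by
    refine ⟨hg, ?_⟩
    rw [hasFiniteIntegral_iff_ofReal (Eventually.of_forall g0)]
    exact h1.trans_lt ENNReal.ofReal_lt_top
  refine ⟨hi, ?_⟩
  rw [← ofReal_integral_eq_lintegral_ofReal hi (Eventually.of_forall g0)] at h1
  exact (ENNReal.ofReal_le_ofReal_iff hC0).1 h1

end Pool.Agent.MQ3

end
end

section

/-!
# MQ3 EnR: the energy of the power of one coordinate
-/

set_option autoImplicit false

open MeasureTheory Topology Filter Metric Laplacian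

noncomputable section

namespace Pool.Agent.MQ3

open Pool.Agent.MQ
open Pool.Agent.H30M (tau rhoR avg rho gg lap_comp lap_mul lap_congr gg_congr gg_sq_le gg_self_nonneg gg_comm gg_comp green_tau tau_nonneg contDiff_tau hcs_tau rhoR_nonneg continuous_rhoR hcs_rhoR int_rhoR abs_gg_le)

variable {U : Set ℂ} {x y : ℂ → ℂ} {l : ℂ → ℝ}

/-! ## the function `(t + ε) ^ a` -/

theorem rp_deriv {ε a t : ℝ} (ht : 0 < t + ε) : deriv (fun s : ℝ => (s + ε) ^ a) t = a * (t + ε) ^ (a - 1) := by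
  have h1 : HasDerivAt (fun s : ℝ => s + ε) 1 t := (hasDerivAt_id t).add_const ε
  have h2 := h1.rpow_const (p := a) (Or.inl ht.ne')
  rw [h2.deriv]
  ring

theorem rp_deriv2 {ε a t : ℝ} (ht : 0 < t + ε) : deriv (deriv (fun s : ℝ => (s + ε) ^ a)) t = a * ((a - 1) * (t + ε) ^ (a - 1 - 1)) := by
  have h0 : deriv (fun s : ℝ => (s + ε) ^ a) =ᶠ[𝓝 t] fun s => a * (s + ε) ^ (a - 1) := by
    have : ∀ᶠ s in 𝓝 t, 0 < s + ε := (continuous_id.add continuous_const).continuousAt.eventually (lt_mem_nhds ht)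
    filter_upwards [this] with s hs
    exact rp_deriv hs
  rw [h0.deriv_eq, deriv_const_mul_field, rp_deriv ht]

theorem rp_cd {ε a t : ℝ} (ht : 0 < t + ε) : ContDiffAt ℝ 2 (fun s : ℝ => (s + ε) ^ a) t :=
  (contDiffAt_id.add contDiffAt_const).rpow_const_of_ne ht.ne'

/-- the regularized power -/
def pw (x : ℂ → ℂ) (ε a : ℝ) (z : ℂ) : ℝ := (‖x z‖ ^ 2 + ε) ^ a

/-- the energy density -/
def dn (x : ℂ → ℂ) (ε a : ℝ) (z : ℂ) : ℝ := (‖x z‖ ^ 2 + ε) ^ (a - 1) * ‖deriv x z‖ ^ 2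

theorem pw_pos {ε a : ℝ} (hε : 0 < ε) (z : ℂ) : 0 < pw x ε a z := Real.rpow_pos_of_pos (by positivity) _

theorem dn_nonneg {ε a : ℝ} (hε : 0 < ε) (z : ℂ) : 0 ≤ dn x ε a z :=
  mul_nonneg (Real.rpow_nonneg (by positivity) _) (sq_nonneg _)

theorem pw_cd {ε a : ℝ} (hε : 0 < ε) {z : ℂ} (hx : AnalyticAt ℂ x z) : ContDiffAt ℝ 2 (pw x ε a) z := by
  have h1 : ContDiffAt ℝ 2 (fun s : ℝ => (s + ε) ^ a) ((fun w => ‖x w‖ ^ 2) z) := rp_cd (show 0 < ‖x z‖ ^ 2 + ε by positivity)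
  exact h1.comp z (cd_sq hx)

theorem pw_gg {ε a : ℝ} (hε : 0 < ε) {z : ℂ} (hx : AnalyticAt ℂ x z) :
    gg (pw x ε a) (pw x ε a) z = 4 * a ^ 2 * ((‖x z‖ ^ 2 + ε) ^ (a - 1)) ^ 2 * ‖x z‖ ^ 2 * ‖deriv x z‖ ^ 2 := by
  have hp : 0 < ‖x z‖ ^ 2 + ε := by positivity
  have ce : DifferentiableAt ℝ (fun s : ℝ => (s + ε) ^ a) (‖x z‖ ^ 2) := (rp_cd hp).differentiableAt (by norm_num)
  have cu : DifferentiableAt ℝ (fun w => ‖x w‖ ^ 2) z := (cd_sq hx).differentiableAt (by norm_num)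
  have e1 : pw x ε a = fun w => (fun s : ℝ => (s + ε) ^ a) ((fun w => ‖x w‖ ^ 2) w) := rfl
  rw [e1, gg_comp ce cu, gg_comm, gg_comp ce cu, rp_deriv hp, gg_sq hx]
  ring

theorem pw_lap {ε a : ℝ} (hε : 0 < ε) {z : ℂ} (hx : AnalyticAt ℂ x z) :
    Δ (pw x ε a) z = 4 * a * (‖x z‖ ^ 2 + ε) ^ (a - 1 - 1) * (a * ‖x z‖ ^ 2 + ε) * ‖deriv x z‖ ^ 2 := by
  have hp : 0 < ‖x z‖ ^ 2 + ε := by positivity
  have e1 : pw x ε a = fun w => (fun s : ℝ => (s + ε) ^ a) ((fun w => ‖x w‖ ^ 2) w) := rfl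
  rw [e1, lap_comp (rp_cd hp) (cd_sq hx), rp_deriv hp, rp_deriv2 hp, gg_sq hx, lap_sq hx]
  have e2 : (‖x z‖ ^ 2 + ε) ^ (a - 1) = (‖x z‖ ^ 2 + ε) ^ (a - 1 - 1) * (‖x z‖ ^ 2 + ε) := by
    rw [← Real.rpow_add_one hp.ne']
    congr 1
    ring
  rw [e2]
  ring

/-- lower bound for the Laplacian -/
theorem pw_lap_ge {ε a : ℝ} (hε : 0 < ε) (ha : 0 < a) (ha1 : a ≤ 1) {z : ℂ} (hx : AnalyticAt ℂ x z) : 4 * a ^ 2 * dn x ε a z ≤ Δ (pw x ε a) z := by
  rw [pw_lap hε hx]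
  have hp : 0 < ‖x z‖ ^ 2 + ε := by positivity
  have e2 : (‖x z‖ ^ 2 + ε) ^ (a - 1) = (‖x z‖ ^ 2 + ε) ^ (a - 1 - 1) * (‖x z‖ ^ 2 + ε) := by
    rw [← Real.rpow_add_one hp.ne']
    congr 1
    ring
  unfold dn
  rw [e2]
  have h1 : a * (‖x z‖ ^ 2 + ε) ≤ a * ‖x z‖ ^ 2 + ε := by nlinarith
  have h2 : 0 ≤ 4 * a * (‖x z‖ ^ 2 + ε) ^ (a - 1 - 1) * ‖deriv x z‖ ^ 2 := by positivity
  have := mul_le_mul_of_nonneg_left h1 h2
  nlinarith

/-- upper bound for the gradient -/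
theorem pw_gg_le {ε a : ℝ} (hε : 0 < ε) {z : ℂ} (hx : AnalyticAt ℂ x z) :
    gg (pw x ε a) (pw x ε a) z ≤ pw x ε a z * (4 * a ^ 2 * dn x ε a z) := by
  rw [pw_gg hε hx]
  have hp : 0 < ‖x z‖ ^ 2 + ε := by positivity
  have e2 : (‖x z‖ ^ 2 + ε) ^ a = (‖x z‖ ^ 2 + ε) ^ (a - 1) * (‖x z‖ ^ 2 + ε) := by
    rw [← Real.rpow_add_one hp.ne']
    congr 1
    ring
  unfold pw dn
  rw [e2]
  have h2 : 0 ≤ 4 * a ^ 2 * ((‖x z‖ ^ 2 + ε) ^ (a - 1)) ^ 2 * ‖deriv x z‖ ^ 2 := by positivity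
  have := mul_le_mul_of_nonneg_left (show ‖x z‖ ^ 2 ≤ ‖x z‖ ^ 2 + ε by linarith) h2
  nlinarith

theorem pw_le_two {ε a : ℝ} (hε : 0 < ε) (hε1 : ε ≤ 1) (ha : 0 < a) (ha1 : a ≤ 1) {z : ℂ} (hx : ‖x z‖ ^ 2 ≤ 1) : pw x ε a z ≤ 2 := by
  unfold pw
  calc (‖x z‖ ^ 2 + ε) ^ a ≤ 2 ^ a := Real.rpow_le_rpow (by positivity) (by linarith) ha.le
    _ ≤ 2 ^ (1 : ℝ) := Real.rpow_le_rpow_of_exponent_le (by norm_num) ha1
    _ = 2 := Real.rpow_one 2

theorem deriv_cont (h : Crd U x y) : ContinuousOn (deriv x) U := (h.hx.deriv h.isOpen).continuousOn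

theorem dn_cont' (hU : IsOpen U) {v : ℂ → ℂ} (hv : DifferentiableOn ℂ v U) {ε a : ℝ} (hε : 0 < ε) : ContinuousOn (dn v ε a) U := by
  unfold dn
  refine ContinuousOn.mul ?_ ((hv.deriv hU).continuousOn.norm.pow 2)
  refine ContinuousOn.rpow_const ((hv.continuousOn.norm.pow 2).add continuousOn_const) fun z _ => Or.inl ?_
  positivity

theorem dn_cont (h : Crd U x y) {ε a : ℝ} (hε : 0 < ε) : ContinuousOn (dn x ε a) U := dn_cont' h.isOpen h.hx hε

theorem cut_mul_le {a b : ℝ} (hab : a < b) {D : ℂ → ℝ} {C : ℝ} (hC : 0 ≤ C) (hD : ∀ z ∈ Kb U x y b, D z ≤ C) (z : ℂ) :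
    cut U x y a b z ^ 2 * D z ≤ C := by
  by_cases hz : z ∈ Kb U x y b
  · have h0 := cut_nonneg (U := U) (x := x) (y := y) a b z
    have h1 := cut_le_one (U := U) (x := x) (y := y) a b z
    have h2 : cut U x y a b z ^ 2 ≤ 1 := pow_le_one₀ h0 h1
    rcases le_total (D z) 0 with h3 | h3
    · exact (mul_nonpos_of_nonneg_of_nonpos (sq_nonneg _) h3).trans hC
    · calc _ ≤ 1 * D z := mul_le_mul_of_nonneg_right h2 h3
        _ ≤ C := by rw [one_mul]; exact hD z hz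
  · rw [cut_eq_zero hab hz]
    simpa using hC

/-! ## the limit -/

/-- the region of the estimates -/
def Kr (U : Set ℂ) (x y : ℂ → ℂ) (r : ℝ) : Set ℂ := {z | z ∈ U ∧ ‖x z‖ ≤ r ∧ ‖y z‖ ≤ r}

theorem Kr_closed (h : Crd U x y) {r : ℝ} (hr : r < 1) : IsClosed (Kr U x y r) := h.closed r hr

theorem meas_ne' {S : Set ℂ} (hS : IsClosed S) {v : ℂ → ℂ} (hv : ContinuousOn v S) : MeasurableSet (S ∩ {z | v z ≠ 0}) := by
  have h1 : IsClosed (S ∩ v ⁻¹' {0}) := hv.preimage_isClosed_of_isClosed hS isClosed_singleton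
  have h2 : S ∩ {z | v z ≠ 0} = S \ (S ∩ v ⁻¹' {0}) := by
    ext z
    constructor
    · rintro ⟨h3, h4⟩
      exact ⟨h3, fun h5 => h4 h5.2⟩
    · rintro ⟨h3, h4⟩
      exact ⟨h3, fun h5 => h4 ⟨h3, h5⟩⟩
  rw [h2]
  exact hS.measurableSet.diff h1.measurableSet

theorem meas_ne (h : Crd U x y) {r : ℝ} (hr : r < 1) : MeasurableSet (Kr U x y r ∩ {z | x z ≠ 0}) :=
  meas_ne' (Kr_closed h hr) (h.hx.continuousOn.mono fun _ hz => hz.1)

theorem meas_ind {T : Set ℂ} (hT : MeasurableSet T) {D : ℂ → ℝ} (hD : ContinuousOn D T) : AEStronglyMeasurable (T.indicator D) :=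
  (aestronglyMeasurable_indicator_iff hT).2 (hD.aestronglyMeasurable hT)

/-- parameters of the cut-off -/
theorem exists_par {r : ℝ} (hr : r < 1) : ∃ a b : ℝ, 0 ≤ b ∧ a < b ∧ b < 1 ∧ 0 < a ∧ ∀ t : ℝ, 0 ≤ t → t ≤ r → t ^ 2 < a := by
  set s := max r 0 with hs
  have hs0 : 0 ≤ s := le_max_right _ _
  have hs1 : s < 1 := max_lt hr one_pos
  have hs2 : s ^ 2 < 1 := by nlinarith
  refine ⟨(2 * s ^ 2 + 1) / 3, (s ^ 2 + 2) / 3, by positivity, by linarith, by linarith, by positivity, fun t h0 h1 => ?_⟩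
  have h2 : t ^ 2 ≤ s ^ 2 := pow_le_pow_left₀ h0 (h1.trans (le_max_left _ _)) 2
  linarith

theorem cut_Kr (h : Crd U x y) {r a b : ℝ} (hab : a < b) (hra : ∀ t : ℝ, 0 ≤ t → t ≤ r → t ^ 2 < a) {z : ℂ} (hz : z ∈ Kr U x y r) :
    cut U x y a b z = 1 :=
  (cut_ev_one h hab hz.1 ⟨hra _ (norm_nonneg _) hz.2.1, hra _ (norm_nonneg _) hz.2.2⟩).self_of_nhds

/-! ## the energy on compact parts -/

/-- the energy density of the pair of coordinates, cut off -/
def ed (x y : ℂ → ℂ) (S : Set ℂ) (z : ℂ) : ℝ := S.indicator (fun z => ‖deriv x z‖ ^ 2 + ‖deriv y z‖ ^ 2) z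

theorem ed_nonneg (S : Set ℂ) (z : ℂ) : 0 ≤ ed x y S z := Set.indicator_nonneg (fun z _ => by positivity) z

theorem tau_ind_int {R : ℝ} (hR : 1 ≤ R) {S : Set ℂ} (hS : IsClosed S) {D : ℂ → ℝ} (hD : ContinuousOn D S) : Integrable fun z => tau R z * S.indicator D z := by
  have hK : IsCompact (S ∩ closedBall (0 : ℂ) (Real.exp 1 * R)) := (isCompact_closedBall _ _).inter_left hS
  have h1 : IntegrableOn (fun z => tau R z * D z) (S ∩ closedBall (0 : ℂ) (Real.exp 1 * R)) :=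
    ((contDiff_tau R).continuous.continuousOn.mul (hD.mono Set.inter_subset_left)).integrableOn_compact hK
  have h2 : (fun z => tau R z * S.indicator D z) = (S ∩ closedBall (0 : ℂ) (Real.exp 1 * R)).indicator fun z => tau R z * D z := by
    funext z
    by_cases hz : z ∈ S
    · by_cases hb : z ∈ closedBall (0 : ℂ) (Real.exp 1 * R)
      · rw [Set.indicator_of_mem hz, Set.indicator_of_mem (show z ∈ S ∩ closedBall (0 : ℂ) (Real.exp 1 * R) from ⟨hz, hb⟩)]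
      · have h3 : tau R z = 0 := by
          refine Pool.Agent.H30M.tau_eq_zero hR ?_
          rw [mem_closedBall_zero_iff, not_le] at hb
          exact hb.le
        rw [Set.indicator_of_notMem (show z ∉ S ∩ closedBall (0 : ℂ) (Real.exp 1 * R) from fun h4 => hb h4.2), h3, zero_mul]
    · rw [Set.indicator_of_notMem hz, Set.indicator_of_notMem (show z ∉ S ∩ closedBall (0 : ℂ) (Real.exp 1 * R) from fun h4 => hz h4.1), mul_zero]
  rw [h2]
  exact (integrable_indicator_iff hK.measurableSet).2 h1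

theorem ed_int (h : Crd U x y) {R : ℝ} (hR : 1 ≤ R) {S : Set ℂ} (hS : IsClosed S) (hSU : S ⊆ U) : Integrable fun z => tau R z * ed x y S z :=
  tau_ind_int hR hS ((((deriv_cont h).mono hSU).norm.pow 2).add (((deriv_cont h.symm).mono hSU).norm.pow 2))

theorem Kb_eq {b : ℝ} (hb0 : 0 ≤ b) : Kb U x y b = Kr U x y (√b) := by
  ext z
  simp only [Kb, Kr, Set.mem_ofPred_eq]
  rw [Real.le_sqrt (norm_nonneg _) hb0, Real.le_sqrt (norm_nonneg _) hb0]

end Pool.Agent.MQ3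

end
end
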