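import Pool.Agent.H43.TL2.M48
import Pool.Agent.H43.TL2.M56
import Pool.Agent.H43.TL2.M65
import Pool.Agent.H43.TL2.MQ3.EnU

/-! The parts of this file: MQL.RootE, MQL.RootT, MQL.RegDB. -/

section

/-!
# MQL RootE: the root energy

`x = (p z).1` has no zeros; with `γ = 1 + al > 0` the function `|x| ^ (2 γ)` has the Laplacian `4 γ ^ 2 |x| ^ (2 al) |x'| ^ 2`, and the square of its gradient
is at most the Laplacian, if `|x| ≤ 1`.  So the cut-off costs only a multiple of `lm ^ 2` (`MQ3.core_pt` with `θ = 1 / 4`).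
-/

set_option autoImplicit false

open Topology Filter Metric MeasureTheory Asymptotics Laplacian

noncomputable section

namespace Pool.Agent.MQL

open Pool.Agent.H30M (tau gg lap_comp gg_comp gg_comm tau_nonneg rhoR_nonneg)
open Pool.Agent.MQ
open Pool.Agent.MQ3 (Crd cut Kb Inn pw rp_cd rp_deriv rp_deriv2 cd_sq gg_sq lap_sq core_pt core_int cut_mul_cont cut_mul_cd cut_bdU tau_int cut_nonneg cut_le_one cut_eq_zero et_one)

variable {x : ℂ → ℂ} {z : ℂ}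

theorem RootE.rt_cd (γ : ℝ) (hx : AnalyticAt ℂ x z) (h0 : x z ≠ 0) : ContDiffAt ℝ 2 (pw x 0 γ) z := by
  have hp : 0 < ‖x z‖ ^ 2 + 0 := by
    have := norm_pos_iff.2 h0
    positivity
  have h1 : ContDiffAt ℝ 2 (fun s : ℝ => (s + 0) ^ γ) ((fun w => ‖x w‖ ^ 2) z) := rp_cd hp
  exact h1.comp z (cd_sq hx)

theorem RootE.rt_gg (γ : ℝ) (hx : AnalyticAt ℂ x z) (h0 : x z ≠ 0) :
    gg (pw x 0 γ) (pw x 0 γ) z = pw x 0 γ z * (4 * γ ^ 2 * ((‖x z‖ ^ 2) ^ (γ - 1) * ‖deriv x z‖ ^ 2)) := by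
  have hn := norm_pos_iff.2 h0
  have hp : 0 < ‖x z‖ ^ 2 + 0 := by positivity
  have ce : DifferentiableAt ℝ (fun s : ℝ => (s + 0) ^ γ) (‖x z‖ ^ 2) := (rp_cd hp).differentiableAt (by norm_num)
  have cu : DifferentiableAt ℝ (fun w => ‖x w‖ ^ 2) z := (cd_sq hx).differentiableAt (by norm_num)
  have e1 : pw x 0 γ = fun w => (fun s : ℝ => (s + 0) ^ γ) ((fun w => ‖x w‖ ^ 2) w) := rfl
  have e2 : pw x 0 γ z = (‖x z‖ ^ 2) ^ (γ - 1) * ‖x z‖ ^ 2 := by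
    rw [← Real.rpow_add_one (by positivity)]
    show (‖x z‖ ^ 2 + 0) ^ γ = _
    rw [add_zero, sub_add_cancel]
  rw [e2, e1, gg_comp ce cu, gg_comm, gg_comp ce cu, rp_deriv hp, gg_sq hx, add_zero]
  ring

theorem RootE.rt_lap (γ : ℝ) (hx : AnalyticAt ℂ x z) (h0 : x z ≠ 0) :
    Δ (pw x 0 γ) z = 4 * γ ^ 2 * ((‖x z‖ ^ 2) ^ (γ - 1) * ‖deriv x z‖ ^ 2) := by
  have hn := norm_pos_iff.2 h0
  have hp : 0 < ‖x z‖ ^ 2 + 0 := by positivity
  have e1 : pw x 0 γ = fun w => (fun s : ℝ => (s + 0) ^ γ) ((fun w => ‖x w‖ ^ 2) w) := rfl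
  have e2 : (‖x z‖ ^ 2) ^ (γ - 1) = (‖x z‖ ^ 2) ^ (γ - 1 - 1) * ‖x z‖ ^ 2 := by
    rw [← Real.rpow_add_one (by positivity), sub_add_cancel]
  rw [e1, lap_comp (rp_cd hp) (cd_sq hx), rp_deriv hp, rp_deriv2 hp, gg_sq hx, lap_sq hx, add_zero, e2]
  ring

theorem root_energy {al r s B : ℝ} (hal : -1 < al) (hs : 0 < s) (hsr : s < r) (hB : 0 ≤ B) : ∃ A : ℝ, 0 ≤ A ∧ ∀ (Om : Set ℂ) (p : ℂ → ℂ × ℂ) (lm : ℂ → ℝ),
    IsOpen Om → (∀ z ∈ Om, AnalyticAt ℂ p z) → (∀ z ∈ Om, p z ∈ ball (0 : ℂ × ℂ) r) → (∀ t < r, IsClosed {z | z ∈ Om ∧ p z ∈ closedBall (0 : ℂ × ℂ) t}) →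
    (∀ z ∈ Om, (p z).1 ≠ 0) → Continuous lm → (∀ z, 0 ≤ lm z) → (∀ z ∈ Om, ‖deriv p z‖ ≤ B * lm z) →
    ∃ (l₁ : ℂ → ℝ) (K : ℝ), Continuous l₁ ∧ (∀ z, lm z ≤ l₁ z) ∧ (∀ R, 1 ≤ R → ∫ z, tau R z * l₁ z ^ 2 ≤ A * (∫ z, tau R z * lm z ^ 2) + K) ∧
      ∀ z ∈ Om, p z ∈ closedBall (0 : ℂ × ℂ) s → ‖(deriv p z).1‖ * ‖(p z).1‖ ^ al ≤ l₁ z := by
  have _ := hB
  have hr : 0 < r := hs.trans hsr
  obtain ⟨γ, hγ⟩ : ∃ γ : ℝ, γ = 1 + al := ⟨_, rfl⟩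
  have hγ0 : 0 < γ := by linarith
  obtain ⟨σ, hσ⟩ : ∃ σ : ℝ, σ = s / r := ⟨_, rfl⟩
  have hσ0 : 0 < σ := by rw [hσ]; positivity
  have hσ1 : σ < 1 := by rw [hσ, div_lt_one hr]; exact hsr
  obtain ⟨a, ha⟩ : ∃ a : ℝ, a = σ ^ 2 := ⟨_, rfl⟩
  obtain ⟨b, hb⟩ : ∃ b : ℝ, b = (1 + a) / 2 := ⟨_, rfl⟩
  have ha1 : a < 1 := by rw [ha]; nlinarith
  have ha0 : 0 < a := by rw [ha]; positivity
  have hb0 : 0 ≤ b := by rw [hb]; linarith
  have hab : a < b := by rw [hb]; linarith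
  have hb1 : b < 1 := by rw [hb]; linarith
  obtain ⟨C1, hC10, hC1⟩ := cut_bdU hb0 hab hb1 (B / r)
  obtain ⟨k, hk⟩ : ∃ k : ℝ, k = (r ^ γ) ^ 2 / γ ^ 2 := ⟨_, rfl⟩
  have hk0 : 0 ≤ k := by rw [hk]; positivity
  refine ⟨2 + k * (12 * C1), by positivity, fun Om p lm hOm hp hpr hcl hx0 hlm hlm0 hder => ?_⟩
  obtain ⟨X, hX⟩ : ∃ X : ℂ → ℂ, X = fun z => (p z).1 / r := ⟨_, rfl⟩
  obtain ⟨Y, hY⟩ : ∃ Y : ℂ → ℂ, Y = fun z => (p z).2 / r := ⟨_, rfl⟩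
  have hXn : ∀ z, ‖X z‖ = ‖(p z).1‖ / r := fun z => by
    rw [hX]
    show ‖(p z).1 / (r : ℂ)‖ = _
    rw [norm_div, Complex.norm_real, Real.norm_of_nonneg hr.le]
  have hYn : ∀ z, ‖Y z‖ = ‖(p z).2‖ / r := fun z => by
    rw [hY]
    show ‖(p z).2 / (r : ℂ)‖ = _
    rw [norm_div, Complex.norm_real, Real.norm_of_nonneg hr.le]
  have hXd : ∀ z ∈ Om, HasDerivAt X ((deriv p z).1 / r) z := fun z hz => by
    have h1 : HasDerivAt p (deriv p z) z := (hp z hz).differentiableAt.hasDerivAt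
    have h2 : HasDerivAt (fun w => (p w).1) (deriv p z).1 z := h1.fst
    rw [hX]
    exact h2.div_const (r : ℂ)
  have hYd : ∀ z ∈ Om, HasDerivAt Y ((deriv p z).2 / r) z := fun z hz => by
    have h1 : HasDerivAt p (deriv p z) z := (hp z hz).differentiableAt.hasDerivAt
    have h2 : HasDerivAt (fun w => (p w).2) (deriv p z).2 z := h1.snd
    rw [hY]
    exact h2.div_const (r : ℂ)
  have hXn' : ∀ z ∈ Om, ‖deriv X z‖ = ‖(deriv p z).1‖ / r := fun z hz => by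
    rw [(hXd z hz).deriv, norm_div, Complex.norm_real, Real.norm_of_nonneg hr.le]
  have hYn' : ∀ z ∈ Om, ‖deriv Y z‖ = ‖(deriv p z).2‖ / r := fun z hz => by
    rw [(hYd z hz).deriv, norm_div, Complex.norm_real, Real.norm_of_nonneg hr.le]
  have hcrd : Crd Om X Y := by
    refine ⟨hOm, fun z hz => (hXd z hz).differentiableAt.differentiableWithinAt, fun z hz => (hYd z hz).differentiableAt.differentiableWithinAt, fun t ht => ?_⟩
    have h1 : {z | z ∈ Om ∧ ‖X z‖ ≤ t ∧ ‖Y z‖ ≤ t} = {z | z ∈ Om ∧ p z ∈ closedBall (0 : ℂ × ℂ) (t * r)} := by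
      ext z
      simp only [Set.mem_ofPred_eq, mem_closedBall_zero_iff]
      rw [hXn, hYn, div_le_iff₀ hr, div_le_iff₀ hr, Prod.norm_def, max_le_iff]
    rw [h1]
    exact hcl _ (by nlinarith)
  have hX0 : ∀ z ∈ Om, X z ≠ 0 := fun z hz => by
    rw [← norm_pos_iff, hXn]
    exact div_pos (norm_pos_iff.2 (hx0 z hz)) hr
  have hX1 : ∀ z ∈ Om, ‖X z‖ ≤ 1 := fun z hz => by
    rw [hXn, div_le_one hr]
    have h1 := hpr z hz
    rw [mem_ball_zero_iff] at h1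
    exact (norm_fst_le (p z)).trans h1.le
  have hXa : ∀ z ∈ Om, AnalyticAt ℂ X z := fun z hz => hcrd.ax hz
  obtain ⟨D, hD⟩ : ∃ D : ℂ → ℝ, D = fun z => (‖X z‖ ^ 2) ^ (γ - 1) * ‖deriv X z‖ ^ 2 := ⟨_, rfl⟩
  have hD0 : ∀ z, 0 ≤ D z := fun z => by
    rw [hD]
    exact mul_nonneg (Real.rpow_nonneg (sq_nonneg _) _) (sq_nonneg _)
  obtain ⟨ch, hch⟩ : ∃ ch : ℂ → ℝ, ch = cut Om X Y a b := ⟨_, rfl⟩
  have hch0 : ∀ z, 0 ≤ ch z := fun z => by rw [hch]; exact cut_nonneg _ _ _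
  have hch1 : ∀ z, ch z ≤ 1 := fun z => by rw [hch]; exact cut_le_one _ _ _
  have hg1 : ∀ z ∈ Om, pw X 0 γ z ≤ 1 := fun z hz => by
    show (‖X z‖ ^ 2 + 0) ^ γ ≤ 1
    rw [add_zero]
    exact Real.rpow_le_one (sq_nonneg _) (pow_le_one₀ (norm_nonneg _) (hX1 z hz)) hγ0.le
  have hg0 : ∀ z, 0 ≤ pw X 0 γ z := fun z => Real.rpow_nonneg (by positivity) _
  -- the pointwise inequality
  have hpt : ∀ z, ch z ^ 2 * (2 * γ ^ 2 * D z) ≤ Δ (fun w => ch w ^ 2 * pw X 0 γ w) z + 12 * C1 * lm z ^ 2 + 0 := by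
    intro z
    by_cases hz : z ∈ Om
    · have h1 := core_pt (l := lm) hcrd hb0 hab hb1 hC10 (hC1 Om X Y lm hcrd hlm0 fun z hz => ?_) hz (RootE.rt_cd γ (hXa z hz) (hX0 z hz)) (C0 := 1) (θ := 1 / 4)
        (H := gg (pw X 0 γ) (pw X 0 γ) z) (by norm_num) (by norm_num) (by
          rw [RootE.rt_gg γ (hXa z hz) (hX0 z hz)]
          have := hD0 z
          rw [hD] at this
          have h2 := hg0 z
          positivity) (fun _ _ => ⟨by rw [abs_of_nonneg (hg0 z)]; exact hg1 z hz, le_rfl⟩)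
      · rw [RootE.rt_lap γ (hXa z hz) (hX0 z hz), RootE.rt_gg γ (hXa z hz) (hX0 z hz), ← hch] at h1
        have e1 : (‖X z‖ ^ 2) ^ (γ - 1) * ‖deriv X z‖ ^ 2 = D z := by rw [hD]
        rw [e1] at h1
        have h2 : ch z ^ 2 * (pw X 0 γ z * (4 * γ ^ 2 * D z)) ≤ ch z ^ 2 * (1 * (4 * γ ^ 2 * D z)) := by
          refine mul_le_mul_of_nonneg_left (mul_le_mul_of_nonneg_right (hg1 z hz) ?_) (sq_nonneg _)
          have := hD0 z
          positivity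
        nlinarith
      · have h3 := norm_fst_le (deriv p z)
        have h4 := norm_snd_le (deriv p z)
        have h5 := hder z hz.1
        rw [hXn' z hz.1, hYn' z hz.1]
        constructor
        · rw [div_mul_eq_mul_div]
          exact div_le_div_of_nonneg_right (h3.trans h5) hr.le
        · rw [div_mul_eq_mul_div]
          exact div_le_div_of_nonneg_right (h4.trans h5) hr.le
    · have hzK : z ∉ Kb Om X Y b := fun h => hz h.1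
      have h1 : ch z = 0 := by rw [hch]; exact cut_eq_zero hab hzK
      have h2 : Δ (fun w => ch w ^ 2 * pw X 0 γ w) z = 0 := by
        have h3 := Pool.Agent.MQ3.cut_mul_zero hcrd hb0 hab hb1 (pw X 0 γ) hzK
        rw [← hch] at h3
        rw [Pool.Agent.H30M.lap_congr h3, Pool.Agent.H30M.lap_eq contDiffAt_const]
        simp
      rw [h1, h2]
      have : 0 ≤ 12 * C1 * lm z ^ 2 := by positivity
      simpa using this
  have hGcd : ContDiff ℝ 2 fun w => ch w ^ 2 * pw X 0 γ w := by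
    rw [hch]
    exact cut_mul_cd hcrd hb0 hab hb1 fun z hz => RootE.rt_cd γ (hXa z hz) (hX0 z hz)
  have hDc : ContinuousOn D Om := by
    rw [hD]
    intro z hz
    have h1 : ContinuousAt (fun z => ‖X z‖ ^ 2) z := (hXa z hz).continuousAt.norm.pow 2
    have h2 : ContinuousAt (fun z => ‖deriv X z‖ ^ 2) z := (hXa z hz).deriv.continuousAt.norm.pow 2
    exact ((h1.rpow_const (Or.inl (pow_ne_zero 2 (norm_ne_zero_iff.2 (hX0 z hz))))).mul h2).continuousWithinAt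
  have hPc : Continuous fun z => ch z ^ 2 * (2 * γ ^ 2 * D z) := by
    rw [hch]
    exact cut_mul_cont hcrd hb0 hab hb1 (continuousOn_const.mul hDc)
  have hchD : Continuous fun z => ch z ^ 2 * D z := by
    rw [hch]
    exact cut_mul_cont hcrd hb0 hab hb1 hDc
  have hG1 : ∀ z, ch z ^ 2 * pw X 0 γ z ≤ 1 := by
    intro z
    by_cases hz : z ∈ Om
    · exact mul_le_one₀ (pow_le_one₀ (hch0 z) (hch1 z)) (hg0 z) (hg1 z hz)
    · have h1 : ch z = 0 := by rw [hch]; exact cut_eq_zero hab fun h => hz h.1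
      rw [h1]
      norm_num
  have hint : ∀ R, 1 ≤ R → ∫ z, tau R z * (ch z ^ 2 * (2 * γ ^ 2 * D z)) ≤ 2 * Real.pi * 1 + 0 + 12 * C1 * (1 * ∫ z, tau R z * lm z ^ 2) +
      ∫ z, tau R z * (0 : ℝ) := fun R hR =>
    core_int (l := lm) (fun R hR => tau_int hR (hlm.pow 2)) (B := 1) (e := fun R => ∫ z, tau R z * lm z ^ 2) (fun R _ => by rw [one_mul]) hGcd hPc
      continuous_const (by positivity) hpt hG1 (by
        rw [neg_zero]
        exact integral_nonneg fun z => mul_nonneg (rhoR_nonneg _ _) (mul_nonneg (sq_nonneg _) (hg0 z))) hR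
  -- the density
  obtain ⟨m, hm⟩ : ∃ m : ℂ → ℝ, m = fun z => Real.sqrt (ch z ^ 2 * D z) := ⟨_, rfl⟩
  have hm2 : ∀ z, m z ^ 2 = ch z ^ 2 * D z := fun z => by
    rw [hm]
    exact Real.sq_sqrt (mul_nonneg (sq_nonneg _) (hD0 z))
  have hm0 : ∀ z, 0 ≤ m z := fun z => by rw [hm]; exact Real.sqrt_nonneg _
  have hmc : Continuous m := by
    rw [hm]
    exact Real.continuous_sqrt.comp hchD
  have hrγ : 0 < r ^ γ := Real.rpow_pos_of_pos hr _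
  refine ⟨fun z => lm z + r ^ γ * m z, k * (2 * Real.pi), hlm.add (continuous_const.mul hmc), fun z => ?_, fun R hR => ?_, fun z hz hps => ?_⟩
  · exact le_add_of_nonneg_right (mul_nonneg hrγ.le (hm0 z))
  · have i1 : Integrable fun z => tau R z * lm z ^ 2 := tau_int hR (hlm.pow 2)
    have i2 : Integrable fun z => tau R z * (ch z ^ 2 * (2 * γ ^ 2 * D z)) := tau_int hR hPc
    have h1 : ∫ z, tau R z * (lm z + r ^ γ * m z) ^ 2 ≤ ∫ z, (2 * (tau R z * lm z ^ 2) + k * (tau R z * (ch z ^ 2 * (2 * γ ^ 2 * D z)))) := by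
      refine integral_mono (tau_int hR ((hlm.add (continuous_const.mul hmc)).pow 2))
        ((i1.const_mul 2).add (i2.const_mul k)) fun z => ?_
      have h2 : (lm z + r ^ γ * m z) ^ 2 ≤ 2 * lm z ^ 2 + 2 * ((r ^ γ) ^ 2 * m z ^ 2) := by nlinarith [sq_nonneg (lm z - r ^ γ * m z)]
      rw [hm2] at h2
      have h3 : 2 * ((r ^ γ) ^ 2 * (ch z ^ 2 * D z)) = k * (ch z ^ 2 * (2 * γ ^ 2 * D z)) := by
        rw [hk]
        field_simp
      rw [h3] at h2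
      have h4 := mul_le_mul_of_nonneg_left h2 (tau_nonneg hR z)
      show tau R z * (lm z + r ^ γ * m z) ^ 2 ≤ 2 * (tau R z * lm z ^ 2) + k * (tau R z * (ch z ^ 2 * (2 * γ ^ 2 * D z)))
      nlinarith
    rw [integral_add (i1.const_mul 2) (i2.const_mul k), integral_const_mul, integral_const_mul] at h1
    have h2 := hint R hR
    simp only [mul_zero, integral_zero, mul_one, add_zero, one_mul] at h2
    have h3 := mul_le_mul_of_nonneg_left h2 hk0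
    refine h1.trans ?_
    nlinarith
  · have hXs : ‖X z‖ ≤ σ := by
      rw [hXn, hσ]
      rw [mem_closedBall_zero_iff] at hps
      exact div_le_div_of_nonneg_right ((norm_fst_le (p z)).trans hps) hr.le
    have hYs : ‖Y z‖ ≤ σ := by
      rw [hYn, hσ]
      rw [mem_closedBall_zero_iff] at hps
      exact div_le_div_of_nonneg_right ((norm_snd_le (p z)).trans hps) hr.le
    have hc : ch z = 1 := by
      rw [hch]
      unfold cut
      rw [if_pos hz, et_one hab (by rw [ha]; exact pow_le_pow_left₀ (norm_nonneg _) hXs 2),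
        et_one hab (by rw [ha]; exact pow_le_pow_left₀ (norm_nonneg _) hYs 2), one_mul]
    have hxp : 0 < ‖(p z).1‖ := norm_pos_iff.2 (hx0 z hz)
    have hXp : 0 < ‖X z‖ := norm_pos_iff.2 (hX0 z hz)
    have h1 : m z = ‖X z‖ ^ al * ‖deriv X z‖ := by
      rw [hm, hD]
      show Real.sqrt (ch z ^ 2 * ((‖X z‖ ^ 2) ^ (γ - 1) * ‖deriv X z‖ ^ 2)) = _
      rw [hc]
      have h2 : (‖X z‖ ^ 2) ^ (γ - 1) = (‖X z‖ ^ al) ^ 2 := by
        rw [← Real.rpow_natCast (‖X z‖ ^ al) 2, ← Real.rpow_mul hXp.le, ← Real.rpow_natCast ‖X z‖ 2, ← Real.rpow_mul hXp.le, hγ]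
        congr 1
        push_cast
        ring
      rw [h2, one_pow, one_mul, ← mul_pow, Real.sqrt_sq (by positivity)]
    have h2 : ‖(deriv p z).1‖ * ‖(p z).1‖ ^ al = r ^ γ * m z := by
      rw [h1, hXn, hXn' z hz, Real.div_rpow hxp.le hr.le, hγ, Real.rpow_add hr, Real.rpow_one]
      have h3 : 0 < r ^ al := Real.rpow_pos_of_pos hr _
      field_simp
    rw [h2]
    exact le_add_of_nonneg_left (hlm0 z)

end Pool.Agent.MQL

end
end

section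

/-!
# MQL RootT: the root energy of both coordinates, for all exponents
-/

set_option autoImplicit false

open Topology Filter Metric MeasureTheory Asymptotics Laplacian

noncomputable section

namespace Pool.Agent.MQL

open Pool.Agent.H30M (tau)
open Pool.Agent.MQ Pool.Agent.MQ2

theorem root_fst {al r s B : ℝ} (hal : -1 < al) (hs : 0 < s) (hsr : s < r) (hB : 0 ≤ B) : ∃ A : ℝ, 0 ≤ A ∧ ∀ (Om : Set ℂ) (p : ℂ → ℂ × ℂ) (lm : ℂ → ℝ),
    IsOpen Om → (∀ z ∈ Om, AnalyticAt ℂ p z) → (∀ z ∈ Om, p z ∈ ball (0 : ℂ × ℂ) r) → (∀ t < r, IsClosed {z | z ∈ Om ∧ p z ∈ closedBall (0 : ℂ × ℂ) t}) →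
    (al < 0 → ∀ z ∈ Om, (p z).1 ≠ 0) → Continuous lm → (∀ z, 0 ≤ lm z) → (∀ z ∈ Om, ‖deriv p z‖ ≤ B * lm z) →
    ∃ (l₁ : ℂ → ℝ) (K : ℝ), Continuous l₁ ∧ (∀ z, lm z ≤ l₁ z) ∧ (∀ R, 1 ≤ R → ∫ z, tau R z * l₁ z ^ 2 ≤ A * (∫ z, tau R z * lm z ^ 2) + K) ∧
      ∀ z ∈ Om, p z ∈ closedBall (0 : ℂ × ℂ) s → ‖(deriv p z).1‖ * ‖(p z).1‖ ^ al ≤ l₁ z := by
  by_cases h0 : al < 0
  · obtain ⟨A, hA, h⟩ := root_energy hal hs hsr hB
    exact ⟨A, hA, fun Om p lm h1 h2 h3 h4 h5 => h Om p lm h1 h2 h3 h4 (h5 h0)⟩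
  · push Not at h0
    refine ⟨(1 + B * s ^ al) ^ 2, sq_nonneg _, fun Om p lm _ _ _ _ _ hlc hl0 hp => ⟨fun z => (1 + B * s ^ al) * lm z, 0, by fun_prop, fun z => ?_, fun R _ => ?_,
      fun z hz hpz => ?_⟩⟩
    · have h1 : 0 ≤ B * s ^ al := by positivity
      nlinarith [hl0 z]
    · refine le_of_eq ?_
      rw [add_zero, ← integral_const_mul]
      congr 1
      funext z
      ring
    · have h1 : ‖(p z).1‖ ≤ s := (norm_fst_le _).trans (by simpa using hpz)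
      have h2 : ‖(p z).1‖ ^ al ≤ s ^ al := Real.rpow_le_rpow (norm_nonneg _) h1 h0
      have h3 : ‖(deriv p z).1‖ ≤ B * lm z := (norm_fst_le _).trans (hp z hz)
      calc ‖(deriv p z).1‖ * ‖(p z).1‖ ^ al ≤ B * lm z * s ^ al := mul_le_mul h3 h2 (by positivity) (mul_nonneg hB (hl0 z))
        _ = B * s ^ al * lm z := by ring
        _ ≤ (1 + B * s ^ al) * lm z := mul_le_mul_of_nonneg_right (by linarith) (hl0 z)

theorem root_snd {be r s B : ℝ} (hbe : -1 < be) (hs : 0 < s) (hsr : s < r) (hB : 0 ≤ B) : ∃ A : ℝ, 0 ≤ A ∧ ∀ (Om : Set ℂ) (p : ℂ → ℂ × ℂ) (lm : ℂ → ℝ),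
    IsOpen Om → (∀ z ∈ Om, AnalyticAt ℂ p z) → (∀ z ∈ Om, p z ∈ ball (0 : ℂ × ℂ) r) → (∀ t < r, IsClosed {z | z ∈ Om ∧ p z ∈ closedBall (0 : ℂ × ℂ) t}) →
    (be < 0 → ∀ z ∈ Om, (p z).2 ≠ 0) → Continuous lm → (∀ z, 0 ≤ lm z) → (∀ z ∈ Om, ‖deriv p z‖ ≤ B * lm z) →
    ∃ (l₁ : ℂ → ℝ) (K : ℝ), Continuous l₁ ∧ (∀ z, lm z ≤ l₁ z) ∧ (∀ R, 1 ≤ R → ∫ z, tau R z * l₁ z ^ 2 ≤ A * (∫ z, tau R z * lm z ^ 2) + K) ∧
      ∀ z ∈ Om, p z ∈ closedBall (0 : ℂ × ℂ) s → ‖(deriv p z).2‖ * ‖(p z).2‖ ^ be ≤ l₁ z := by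
  obtain ⟨A, hA, h⟩ := root_fst hbe hs hsr hB
  refine ⟨A, hA, fun Om p lm h1 h2 h3 h4 h5 h6 h7 h8 => ?_⟩
  have hn : ∀ q : ℂ × ℂ, ‖q.swap‖ = ‖q‖ := fun q => by simp [Prod.norm_def, max_comm]
  have hb : ∀ (q : ℂ × ℂ) (t : ℝ), q.swap ∈ ball (0 : ℂ × ℂ) t ↔ q ∈ ball (0 : ℂ × ℂ) t := fun q t => by
    rw [mem_ball_zero_iff, mem_ball_zero_iff, hn]
  have hcb : ∀ (q : ℂ × ℂ) (t : ℝ), q.swap ∈ closedBall (0 : ℂ × ℂ) t ↔ q ∈ closedBall (0 : ℂ × ℂ) t := fun q t => by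
    rw [mem_closedBall_zero_iff, mem_closedBall_zero_iff, hn]
  have hd : ∀ z ∈ Om, deriv (fun w => (p w).swap) z = (deriv p z).swap := fun z hz => by
    have h9 := (h2 z hz).differentiableAt.hasDerivAt
    have h10 := ((ContinuousLinearEquiv.prodComm ℂ ℂ ℂ).toContinuousLinearMap.hasFDerivAt (x := p z)).comp_hasDerivAt z h9
    exact h10.deriv
  obtain ⟨l₁, K, e1, e2, e3, e4⟩ := h Om (fun w => (p w).swap) lm h1
    (fun z hz => ((ContinuousLinearEquiv.prodComm ℂ ℂ ℂ).toContinuousLinearMap.analyticAt _).comp (h2 z hz))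
    (fun z hz => (hb _ _).2 (h3 z hz)) (fun t ht => by simpa only [hcb] using h4 t ht) (fun h0 z hz => h5 h0 z hz) h6 h7
    (fun z hz => by rw [hd z hz, hn]; exact h8 z hz)
  refine ⟨l₁, K, e1, e2, e3, fun z hz hpz => ?_⟩
  have h9 := e4 z hz ((hcb _ _).2 hpz)
  rw [hd z hz] at h9
  exact h9

end Pool.Agent.MQL

end
end

section

/-!
# MQL RegDB: regular points, the germs

`v 0` has a second component `≠ 0`.  If `{x = 0}` is not a leaf, then `|y| ^ k ≤ C (|x| + |y| |v₁|)` for one more than the order `k - 1` of `v₁` on the axis, and the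
same holds for the weights which vanish at the origin.  The bound `|g| E ≤ C (|x| + |y| |v₁|)` gives `|ζ'| |g| E |x| ^ al |y| ^ be ≤ C' l` for the root densities.
-/

set_option autoImplicit false

open Topology Filter Metric MeasureTheory Asymptotics Laplacian Set

noncomputable section

namespace Pool.Agent.MQL

open Pool.Agent.H36.BP (EN)
open Pool.Agent.H30M (tau LogSing)
open Pool.Agent.MQ Pool.Agent.MQ2

/-- the function of the bounds -/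
def rg (v : ℂ × ℂ → ℂ × ℂ) (p : ℂ × ℂ) : ℝ := ‖p.1‖ + ‖p.2‖ * ‖(v p).1‖

theorem rg_nonneg (v : ℂ × ℂ → ℂ × ℂ) (p : ℂ × ℂ) : 0 ≤ rg v p := by unfold rg; positivity

theorem tendsto_axis : Tendsto (fun t : ℂ => ((0 : ℂ), t)) (𝓝 0) (𝓝 0) := by
  have : Continuous fun t : ℂ => ((0 : ℂ), t) := by fun_prop
  exact this.tendsto 0

theorem an_axis (t : ℂ) : AnalyticAt ℂ (fun t : ℂ => ((0 : ℂ), t)) t := analyticAt_const.prod analyticAt_id

/-- the comparison with the values on `{x = 0}` -/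
theorem lip_axis {f : ℂ × ℂ → ℂ} (hf : AnalyticAt ℂ f 0) : ∃ K : ℝ, 0 < K ∧ ∀ᶠ p in 𝓝 (0 : ℂ × ℂ), ‖f p - f (0, p.2)‖ ≤ K * ‖p.1‖ := by
  have h1 : ContDiffAt ℝ 1 f 0 := hf.contDiffAt.restrict_scalars ℝ
  obtain ⟨K, t, ht, hK⟩ := h1.exists_lipschitzOnWith
  have h2 : Tendsto (fun p : ℂ × ℂ => ((0 : ℂ), p.2)) (𝓝 0) (𝓝 0) := by
    have : Continuous fun p : ℂ × ℂ => ((0 : ℂ), p.2) := by fun_prop
    exact this.tendsto 0
  refine ⟨K + 1, by positivity, ?_⟩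
  filter_upwards [ht, h2.eventually ht] with p hp hp'
  have h3 := hK.dist_le_mul p hp (0, p.2) hp'
  rw [dist_eq_norm, dist_eq_norm] at h3
  have h4 : ‖p - ((0 : ℂ), p.2)‖ = ‖p.1‖ := by
    have : p - ((0 : ℂ), p.2) = (p.1, 0) := by
      ext <;> simp
    rw [this, Prod.norm_mk, norm_zero, max_eq_left (norm_nonneg _)]
  rw [h4] at h3
  have := norm_nonneg p.1
  linarith [mul_nonneg (zero_le_one (α := ℝ)) this, h3, (by ring : ((K : ℝ) + 1) * ‖p.1‖ = K * ‖p.1‖ + ‖p.1‖)]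

/-- an analytic function divisible by `t ^ n` -/
theorem le_of_order {G : ℂ → ℂ} (hG : AnalyticAt ℂ G 0) {n : ℕ} (h : (n : ℕ∞) ≤ analyticOrderAt G 0) : ∃ C : ℝ, 0 < C ∧ ∀ᶠ t in 𝓝 (0 : ℂ), ‖G t‖ ≤ C * ‖t‖ ^ n := by
  obtain ⟨g, hg, hgG⟩ := (natCast_le_analyticOrderAt hG).1 h
  refine ⟨‖g 0‖ + 1, by positivity, ?_⟩
  filter_upwards [hgG, hg.continuousAt.norm.eventually_lt_const (lt_add_one ‖g 0‖)] with t h1 h2
  rw [h1, sub_zero, norm_smul, norm_pow, mul_comm]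
  exact mul_le_mul_of_nonneg_right h2.le (by positivity)

theorem ge_of_order {f : ℂ → ℂ} (hf : AnalyticAt ℂ f 0) {n : ℕ} (h : analyticOrderAt f 0 = n) : ∃ C : ℝ, 0 < C ∧ ∀ᶠ t in 𝓝 (0 : ℂ), ‖t‖ ^ n ≤ C * ‖f t‖ := by
  obtain ⟨g, hg, hg0, hgf⟩ := (hf.analyticOrderAt_eq_natCast).1 h
  have h0 : 0 < ‖g 0‖ := norm_pos_iff.2 hg0
  refine ⟨2 / ‖g 0‖, by positivity, ?_⟩
  filter_upwards [hgf, hg.continuousAt.norm.eventually_const_lt (show ‖g 0‖ / 2 < ‖g 0‖ by linarith)] with t h1 h2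
  rw [h1, sub_zero, norm_smul, norm_pow]
  have h3 : 1 ≤ 2 / ‖g 0‖ * ‖g t‖ := by
    rw [div_mul_eq_mul_div, one_le_div h0]
    linarith
  calc ‖t‖ ^ n = ‖t‖ ^ n * 1 := (mul_one _).symm
    _ ≤ ‖t‖ ^ n * (2 / ‖g 0‖ * ‖g t‖) := mul_le_mul_of_nonneg_left h3 (by positivity)
    _ = _ := by ring

/-- the order of an invariant weight on the axis -/
theorem order_wt {v : ℂ × ℂ → ℂ × ℂ} (hv : AnalyticAt ℂ v 0) (h2 : (v 0).2 ≠ 0) {j : ℕ} (hj : analyticOrderAt (fun t => (v (0, t)).1) 0 = j)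
    {g : ℂ × ℂ → ℂ} (hg : Wt v g) (h0 : g 0 = 0) : ((j + 1 : ℕ) : ℕ∞) ≤ analyticOrderAt (fun t => g (0, t)) 0 := by
  obtain ⟨c, hc, hcof⟩ := hg.cof
  have ax := an_axis 0
  have hv1 : AnalyticAt ℂ (fun t : ℂ => (v (0, t)).1) 0 :=
    analyticAt_fst.comp (AnalyticAt.comp (g := v) (f := fun t : ℂ => ((0 : ℂ), t)) (x := 0) hv ax)
  have hv2 : AnalyticAt ℂ (fun t : ℂ => (v (0, t)).2) 0 :=
    analyticAt_snd.comp (AnalyticAt.comp (g := v) (f := fun t : ℂ => ((0 : ℂ), t)) (x := 0) hv ax)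
  have hG : AnalyticAt ℂ (fun t : ℂ => g (0, t)) 0 := AnalyticAt.comp (g := g) (f := fun t : ℂ => ((0 : ℂ), t)) (x := 0) hg.an ax
  have hcc : AnalyticAt ℂ (fun t : ℂ => c (0, t)) 0 := AnalyticAt.comp (g := c) (f := fun t : ℂ => ((0 : ℂ), t)) (x := 0) hc ax
  have hgx0 : AnalyticAt ℂ (fun q : ℂ × ℂ => fderiv ℂ g q (1, 0)) 0 :=
    ((ContinuousLinearMap.apply ℂ ℂ ((1, 0) : ℂ × ℂ)).analyticAt _).comp hg.an.fderiv
  have hgx : AnalyticAt ℂ (fun t : ℂ => fderiv ℂ g (0, t) (1, 0)) 0 :=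
    AnalyticAt.comp (g := fun q : ℂ × ℂ => fderiv ℂ g q (1, 0)) (f := fun t : ℂ => ((0 : ℂ), t)) (x := 0) hgx0 ax
  have hG' : AnalyticAt ℂ (deriv fun t : ℂ => g (0, t)) 0 := hG.deriv
  -- the equation
  have heq : (fun t : ℂ => (v (0, t)).2 * deriv (fun t : ℂ => g (0, t)) t) =ᶠ[𝓝 0]
      fun t => c (0, t) * g (0, t) - (v (0, t)).1 * fderiv ℂ g (0, t) (1, 0) := by
    filter_upwards [tendsto_axis.eventually (hcof.and hg.an.eventually_analyticAt)] with t ht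
    obtain ⟨e1, e2⟩ := ht
    have e3 : HasDerivAt (fun t : ℂ => g (0, t)) (fderiv ℂ g (0, t) (0, 1)) t :=
      HasFDerivAt.comp_hasDerivAt (f := fun t : ℂ => ((0 : ℂ), t)) t e2.differentiableAt.hasFDerivAt ((hasDerivAt_const t (0 : ℂ)).prodMk (hasDerivAt_id t))
    have e4 : v (0, t) = (v (0, t)).1 • ((1, 0) : ℂ × ℂ) + (v (0, t)).2 • ((0, 1) : ℂ × ℂ) := by
      ext <;> simp
    rw [e4, map_add, map_smul, map_smul, smul_eq_mul, smul_eq_mul] at e1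
    rw [e3.deriv]
    linear_combination e1
  -- the orders
  have o1 : analyticOrderAt (deriv fun t : ℂ => g (0, t)) 0 + 1 = analyticOrderAt (fun t : ℂ => g (0, t)) 0 := by
    have h3 := hG.analyticOrderAt_deriv_add_one
    have h4 : (fun w => (fun t : ℂ => g (0, t)) w - (fun t : ℂ => g (0, t)) 0) = fun t : ℂ => g (0, t) := by
      funext w
      show g (0, w) - g (0, 0) = g (0, w)
      have h5 : g ((0, 0) : ℂ × ℂ) = 0 := h0
      rw [h5, sub_zero]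
    rw [h4] at h3
    exact h3
  have o2 : analyticOrderAt (fun t : ℂ => (v (0, t)).2 * deriv (fun t : ℂ => g (0, t)) t) 0 = analyticOrderAt (deriv fun t : ℂ => g (0, t)) 0 := by
    have h3 : analyticOrderAt (fun t : ℂ => (v (0, t)).2 * deriv (fun t : ℂ => g (0, t)) t) 0 =
        analyticOrderAt (fun t : ℂ => (v (0, t)).2) 0 + analyticOrderAt (deriv fun t : ℂ => g (0, t)) 0 := analyticOrderAt_mul hv2 hG'
    have h4 : analyticOrderAt (fun t : ℂ => (v (0, t)).2) 0 = 0 := hv2.analyticOrderAt_eq_zero.2 h2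
    rw [h3, h4, zero_add]
  have o3 : min (analyticOrderAt (fun t : ℂ => g (0, t)) 0) (j : ℕ∞) ≤ analyticOrderAt (deriv fun t : ℂ => g (0, t)) 0 := by
    rw [← o2, analyticOrderAt_congr heq]
    have h3 : analyticOrderAt (fun t : ℂ => c (0, t) * g (0, t)) 0 = analyticOrderAt (fun t : ℂ => c (0, t)) 0 + analyticOrderAt (fun t : ℂ => g (0, t)) 0 :=
      analyticOrderAt_mul hcc hG
    have h4 : analyticOrderAt (fun t : ℂ => (v (0, t)).1 * fderiv ℂ g (0, t) (1, 0)) 0 = (j : ℕ∞) + analyticOrderAt (fun t : ℂ => fderiv ℂ g (0, t) (1, 0)) 0 := by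
      have := analyticOrderAt_mul hv1 hgx
      rw [hj] at this
      exact this
    have h5 : min (analyticOrderAt (fun t : ℂ => c (0, t) * g (0, t)) 0) (analyticOrderAt (fun t : ℂ => (v (0, t)).1 * fderiv ℂ g (0, t) (1, 0)) 0) ≤
        analyticOrderAt (fun t => c (0, t) * g (0, t) - (v (0, t)).1 * fderiv ℂ g (0, t) (1, 0)) 0 :=
      le_analyticOrderAt_sub
    refine le_trans (min_le_min ?_ ?_) h5
    · rw [h3]; exact le_add_self
    · rw [h4]; exact le_self_add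
  -- the conclusion
  rw [← o1] at o3 ⊢
  generalize analyticOrderAt (deriv fun t : ℂ => g (0, t)) 0 = o at o3
  cases o with
  | top => exact le_top
  | coe o =>
    have h4 : j ≤ o := by
      rcases min_le_iff.1 o3 with h | h
      · have h5 : o + 1 ≤ o := by exact_mod_cast h
        omega
      · exact_mod_cast h
    exact_mod_cast Nat.add_le_add_right h4 1

/-- a weight with a zero at the origin, and the powers of `y` -/
theorem reg_axis {v : ℂ × ℂ → ℂ × ℂ} (hv : AnalyticAt ℂ v 0) (h2 : (v 0).2 ≠ 0) (hx : ¬ ∀ᶠ t in 𝓝 (0 : ℂ), (v (0, t)).1 = 0) :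
    ∃ (k : ℕ) (C : ℝ), 1 ≤ k ∧ 0 < C ∧ (∀ᶠ p in 𝓝 (0 : ℂ × ℂ), ‖p.2‖ ^ k ≤ C * rg v p) ∧
      ∀ g, Wt v g → g 0 = 0 → ∃ C' : ℝ, 0 < C' ∧ ∀ᶠ p in 𝓝 (0 : ℂ × ℂ), ‖g p‖ ≤ C' * rg v p := by
  have ax := an_axis 0
  have hvf : AnalyticAt ℂ (fun q : ℂ × ℂ => (v q).1) 0 := analyticAt_fst.comp hv
  have hv1 : AnalyticAt ℂ (fun t : ℂ => (v (0, t)).1) 0 :=
    AnalyticAt.comp (g := fun q : ℂ × ℂ => (v q).1) (f := fun t : ℂ => ((0 : ℂ), t)) (x := 0) hvf ax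
  obtain ⟨j, hj⟩ : ∃ j : ℕ, analyticOrderAt (fun t : ℂ => (v (0, t)).1) 0 = j := by
    have h3 : analyticOrderAt (fun t : ℂ => (v (0, t)).1) 0 ≠ ⊤ := by
      rw [Ne, analyticOrderAt_eq_top]
      exact hx
    obtain ⟨j, hj⟩ := ENat.ne_top_iff_exists.1 h3
    exact ⟨j, hj.symm⟩
  obtain ⟨C₁, hC₁, h3⟩ := ge_of_order hv1 hj
  obtain ⟨K, hK, h4⟩ := lip_axis hvf
  have hsnd : Tendsto (fun p : ℂ × ℂ => p.2) (𝓝 0) (𝓝 0) := continuous_snd.tendsto' _ _ rfl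
  have hone : ∀ᶠ p in 𝓝 (0 : ℂ × ℂ), ‖p.2‖ ≤ 1 := by
    filter_upwards [Metric.ball_mem_nhds (0 : ℂ × ℂ) one_pos] with q hq
    rw [mem_ball_zero_iff] at hq
    exact (norm_snd_le q).trans hq.le
  have key : ∀ᶠ p in 𝓝 (0 : ℂ × ℂ), ‖p.2‖ ^ (j + 1) ≤ (C₁ * (K + 1)) * rg v p := by
    filter_upwards [hsnd.eventually h3, h4, hone] with p e3 e4 e5
    have hx0 := norm_nonneg p.1
    have hy0 := norm_nonneg p.2
    have hw0 := norm_nonneg (v p).1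
    have e6 : ‖(v (0, p.2)).1‖ ≤ ‖(v p).1‖ + K * ‖p.1‖ := by
      have := norm_sub_norm_le (v (0, p.2)).1 (v p).1
      rw [norm_sub_rev] at this
      linarith
    have e7 : ‖p.2‖ ^ j ≤ C₁ * (‖(v p).1‖ + K * ‖p.1‖) := e3.trans (mul_le_mul_of_nonneg_left e6 hC₁.le)
    calc ‖p.2‖ ^ (j + 1) = ‖p.2‖ * ‖p.2‖ ^ j := by ring
      _ ≤ ‖p.2‖ * (C₁ * (‖(v p).1‖ + K * ‖p.1‖)) := mul_le_mul_of_nonneg_left e7 hy0
      _ = C₁ * (‖p.2‖ * ‖(v p).1‖ + K * (‖p.2‖ * ‖p.1‖)) := by ring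
      _ ≤ C₁ * ((K + 1) * rg v p) := by
        refine mul_le_mul_of_nonneg_left ?_ hC₁.le
        unfold rg
        have e8 : ‖p.2‖ * ‖p.1‖ ≤ 1 * ‖p.1‖ := mul_le_mul_of_nonneg_right e5 hx0
        have e9 : K * (‖p.2‖ * ‖p.1‖) ≤ K * (1 * ‖p.1‖) := mul_le_mul_of_nonneg_left e8 hK.le
        nlinarith [mul_nonneg hy0 hw0, mul_nonneg hK.le (mul_nonneg hy0 hw0)]
      _ = _ := by ring
  refine ⟨j + 1, C₁ * (K + 1), by omega, by positivity, key, fun g hg h0 => ?_⟩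
  have hG : AnalyticAt ℂ (fun t : ℂ => g (0, t)) 0 := AnalyticAt.comp (g := g) (f := fun t : ℂ => ((0 : ℂ), t)) (x := 0) hg.an ax
  obtain ⟨C₂, hC₂, h5⟩ := le_of_order hG (order_wt hv h2 hj hg h0)
  obtain ⟨K', hK', h6⟩ := lip_axis hg.an
  refine ⟨C₂ * (C₁ * (K + 1)) + K', by positivity, ?_⟩
  filter_upwards [hsnd.eventually h5, h6, key] with p e5 e6 e7
  have e8 : ‖g p‖ ≤ ‖g (0, p.2)‖ + K' * ‖p.1‖ := by
    have := norm_sub_norm_le (g p) (g (0, p.2))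
    linarith
  have e9 : ‖p.1‖ ≤ rg v p := by
    unfold rg
    have : 0 ≤ ‖p.2‖ * ‖(v p).1‖ := by positivity
    linarith
  calc ‖g p‖ ≤ C₂ * ‖p.2‖ ^ (j + 1) + K' * ‖p.1‖ := by linarith
    _ ≤ C₂ * ((C₁ * (K + 1)) * rg v p) + K' * rg v p :=
      add_le_add (mul_le_mul_of_nonneg_left e7 hC₂.le) (mul_le_mul_of_nonneg_left e9 hK'.le)
    _ = _ := by ring

/-! ## the two root densities -/

/-- both root densities -/
theorem dens2 {al be r s B : ℝ} (hal : -1 < al) (hbe : -1 < be) (hs : 0 < s) (hsr : s < r) (hB : 0 ≤ B) : ∃ A : ℝ, 0 ≤ A ∧ ∀ (Om : Set ℂ) (p : ℂ → ℂ × ℂ)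
    (lm : ℂ → ℝ), IsOpen Om → (∀ z ∈ Om, AnalyticAt ℂ p z) → (∀ z ∈ Om, p z ∈ ball (0 : ℂ × ℂ) r) →
    (∀ t < r, IsClosed {z | z ∈ Om ∧ p z ∈ closedBall (0 : ℂ × ℂ) t}) → Avoid al be Om p → Continuous lm → (∀ z, 0 ≤ lm z) →
    (∀ z ∈ Om, ‖deriv p z‖ ≤ B * lm z) → ∃ (l : ℂ → ℝ) (K : ℝ), Continuous l ∧ (∀ z, lm z ≤ l z) ∧
      (∀ R, 1 ≤ R → ∫ z, tau R z * l z ^ 2 ≤ A * (∫ z, tau R z * lm z ^ 2) + K) ∧ ∀ z ∈ Om, p z ∈ closedBall (0 : ℂ × ℂ) s →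
        ‖(deriv p z).1‖ * ‖(p z).1‖ ^ al ≤ l z ∧ ‖(deriv p z).2‖ * ‖(p z).2‖ ^ be ≤ l z := by
  obtain ⟨A₁, hA₁, h1⟩ := root_fst hal hs hsr hB
  obtain ⟨A₂, hA₂, h2⟩ := root_snd hbe hs hsr hB
  refine ⟨2 * A₁ + 2 * A₂, by positivity, fun Om p lm e1 e2 e3 e4 e5 e6 e7 e8 => ?_⟩
  obtain ⟨l₁, K₁, c1, c2, c3, c4⟩ := h1 Om p lm e1 e2 e3 e4 e5.fst e6 e7 e8
  obtain ⟨l₂, K₂, d1, d2, d3, d4⟩ := h2 Om p lm e1 e2 e3 e4 e5.snd e6 e7 e8
  have n1 : ∀ z, 0 ≤ l₁ z := fun z => (e7 z).trans (c2 z)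
  have n2 : ∀ z, 0 ≤ l₂ z := fun z => (e7 z).trans (d2 z)
  refine ⟨fun z => l₁ z + l₂ z, 2 * K₁ + 2 * K₂, c1.add d1, fun z => (c2 z).trans (le_add_of_nonneg_right (n2 z)), fun R hR => ?_, fun z hz hpz => ⟨?_, ?_⟩⟩
  · have hi1 : Integrable fun z => tau R z * l₁ z ^ 2 := Pool.Agent.H30M.integrable_tau_mul hR (c1.pow 2)
    have hi2 : Integrable fun z => tau R z * l₂ z ^ 2 := Pool.Agent.H30M.integrable_tau_mul hR (d1.pow 2)
    have hi : Integrable fun z => tau R z * (l₁ z + l₂ z) ^ 2 := Pool.Agent.H30M.integrable_tau_mul hR ((c1.add d1).pow 2)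
    have h3 : ∫ z, tau R z * (l₁ z + l₂ z) ^ 2 ≤ ∫ z, (2 * (tau R z * l₁ z ^ 2) + 2 * (tau R z * l₂ z ^ 2)) := by
      refine integral_mono hi ((hi1.const_mul 2).add (hi2.const_mul 2)) fun z => ?_
      have ht := Pool.Agent.H30M.tau_nonneg hR z
      have h4 : (l₁ z + l₂ z) ^ 2 ≤ 2 * l₁ z ^ 2 + 2 * l₂ z ^ 2 := by nlinarith [sq_nonneg (l₁ z - l₂ z)]
      calc tau R z * (l₁ z + l₂ z) ^ 2 ≤ tau R z * (2 * l₁ z ^ 2 + 2 * l₂ z ^ 2) := mul_le_mul_of_nonneg_left h4 ht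
        _ = 2 * (tau R z * l₁ z ^ 2) + 2 * (tau R z * l₂ z ^ 2) := by ring
    rw [integral_add (hi1.const_mul 2) (hi2.const_mul 2), integral_const_mul, integral_const_mul] at h3
    have h5 := c3 R hR
    have h6 := d3 R hR
    have h7 : (2 * A₁ + 2 * A₂) * (∫ z, tau R z * lm z ^ 2) = 2 * (A₁ * ∫ z, tau R z * lm z ^ 2) + 2 * (A₂ * ∫ z, tau R z * lm z ^ 2) := by ring
    rw [h7]
    linarith
  · exact (c4 z hz hpz).trans (le_add_of_nonneg_right (n2 z))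
  · exact (d4 z hz hpz).trans (le_add_of_nonneg_left (n1 z))

theorem pow_le_one' {t a : ℝ} (ha : -1 < a) (ht : 0 ≤ t) (ht1 : t ≤ 1) : t * t ^ a ≤ 1 := by
  rcases ht.eq_or_lt with h1 | h1
  · rw [← h1, zero_mul]
    exact zero_le_one
  · have h2 : t * t ^ a = t ^ (1 + a) := by rw [Real.rpow_add h1, Real.rpow_one]
    rw [h2]
    exact Real.rpow_le_one ht ht1 (by linarith)

end Pool.Agent.MQL

end
end
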