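import Pool.Agent.H43.TL2.M56
import Pool.Agent.H43.TL2.MQ2.SepC

/-! The parts of this file: MQ2.Cong, MQ2.Swap, MQ2.StepW, MQL.BasicD. -/

section

/-!
# MQ2 Cong: the package depends only on the germ of `v`; bigger classes are stronger
-/

set_option autoImplicit false

open Topology Filter Metric MeasureTheory Asymptotics Laplacian

noncomputable section

namespace Pool.Agent.MQ2

open Pool.Agent.H36.BP (EN)
open Pool.Agent.H30M (tau LogSing)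
open Pool.Agent.MQ

theorem Good.mono {P P' : (ℂ × ℂ → ℂ) → (ℂ × ℂ → ℂ) → Prop} (h : ∀ g J, P g J → P' g J) {v : ℂ × ℂ → ℂ × ℂ} (hv : Good P' v) : Good P v := by
  obtain ⟨m, c, hc, hg⟩ := hv
  exact ⟨m, c, hc, fun g J hP => hg g J (h g J hP)⟩

theorem Cong.sep {v v' : ℂ × ℂ → ℂ × ℂ} (h : v =ᶠ[𝓝 0] v') {c : ℕ → ℂ → ℂ × ℂ} (hc : Sep v c) : Sep v' c where
  an := hc.an
  zero := hc.zero
  coh := hc.coh
  tan := by
    intro N
    refine (hc.tan N).congr' ?_ EventuallyEq.rfl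
    have h1 : Tendsto (c N) (𝓝 0) (𝓝 0) := by
      have := (hc.an N).continuousAt.tendsto
      rwa [hc.zero N] at this
    filter_upwards [h1.eventually h] with t ht
    rw [ht]
  nc := hc.nc
  alg := hc.alg

theorem Cong.wt {v v' : ℂ × ℂ → ℂ × ℂ} (h : v =ᶠ[𝓝 0] v') {g : ℂ × ℂ → ℂ} (hg : Wt v' g) : Wt v g where
  an := hg.an
  ne := hg.ne
  cof := by
    obtain ⟨c, hc, hc2⟩ := hg.cof
    refine ⟨c, hc, ?_⟩
    filter_upwards [hc2, h] with p hp hp2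
    rw [hp2, hp]
  red := hg.red

end Pool.Agent.MQ2

end
end

section

/-!
# MQ2 Swap: the coordinates exchanged
-/

set_option autoImplicit false

open Topology Filter Metric MeasureTheory Asymptotics Laplacian

noncomputable section

namespace Pool.Agent.MQ2

open Pool.Agent.H36.BP (EN)
open Pool.Agent.H30M (tau LogSing)
open Pool.Agent.MQ

/-- the exchange of the coordinates -/
def swL : (ℂ × ℂ) ≃L[ℂ] (ℂ × ℂ) := ContinuousLinearEquiv.prodComm ℂ ℂ ℂ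

theorem an_swap (p : ℂ × ℂ) : AnalyticAt ℂ (fun q : ℂ × ℂ => q.swap) p := (swL : (ℂ × ℂ) →L[ℂ] (ℂ × ℂ)).analyticAt p

theorem tendsto_swap0 : Tendsto (fun q : ℂ × ℂ => q.swap) (𝓝 0) (𝓝 0) := by
  have h := (continuous_swap (X := ℂ) (Y := ℂ)).tendsto (0 : ℂ × ℂ)
  exact h

theorem norm_swap' (p : ℂ × ℂ) : ‖p.swap‖ = ‖p‖ := by
  rw [Prod.norm_def, Prod.norm_def, Prod.fst_swap, Prod.snd_swap, max_comm]

theorem hasDerivAt_swap {p : ℂ → ℂ × ℂ} {z : ℂ} {p' : ℂ × ℂ} (h : HasDerivAt p p' z) : HasDerivAt (fun w => (p w).swap) p'.swap z :=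
  (swL : (ℂ × ℂ) →L[ℂ] (ℂ × ℂ)).hasFDerivAt.comp_hasDerivAt z h

theorem deriv_swap {p : ℂ → ℂ × ℂ} {z : ℂ} (h : DifferentiableAt ℂ p z) : deriv (fun w => (p w).swap) z = (deriv p z).swap :=
  (hasDerivAt_swap h.hasDerivAt).deriv

theorem crv_swap {v : ℂ × ℂ → ℂ × ℂ} {r : ℝ} {Om : Set ℂ} {p : ℂ → ℂ × ℂ} (h : Crv1 v r Om p) : Crv1 (swv v) r Om fun z => (p z).swap where
  isOpen := h.isOpen
  an := fun z hz => (an_swap (p z)).comp (h.an z hz)
  mem := fun z hz => by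
    have h1 := h.mem z hz
    rw [mem_ball_zero_iff] at h1 ⊢
    rwa [norm_swap']
  closed := fun s hs => by
    have h1 := h.closed s hs
    convert h1 using 4 with z
    rw [mem_closedBall_zero_iff, mem_closedBall_zero_iff, norm_swap']
  ode := fun z hz => by
    have h1 := h.ode z hz
    rw [deriv_swap (h.an z hz).differentiableAt]
    simp only [swv, Prod.swap_swap, Prod.fst_swap, Prod.snd_swap]
    linear_combination -h1

theorem ztv_swap {v : ℂ × ℂ → ℂ × ℂ} {r : ℝ} {Om : Set ℂ} {p : ℂ → ℂ × ℂ} (h : Crv1 v r Om p) {z : ℂ} (hz : z ∈ Om) (hv : v (p z) ≠ 0) :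
    ztv (swv v) (fun z => (p z).swap) z = ztv v p z := by
  have hd := deriv_swap (h.an z hz).differentiableAt
  by_cases h2 : (v (p z)).1 = 0
  · have h3 : (v (p z)).2 ≠ 0 := fun h3 => hv (Prod.ext h2 h3)
    have h4 : (swv v (p z).swap).1 ≠ 0 := by
      simpa [swv] using h3
    rw [(crv_swap h).ztv_fst hz h4, hd, MQ.ztv_snd h3]
    simp [swv]
  · have h4 : (swv v (p z).swap).2 ≠ 0 := by
      simpa [swv] using h2
    rw [MQ.ztv_snd (v := swv v) (g := fun z => (p z).swap) h4, hd, h.ztv_fst hz h2]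
    simp [swv]

theorem fderiv_swap (g : ℂ × ℂ → ℂ) (p w : ℂ × ℂ) : fderiv ℂ (fun q : ℂ × ℂ => g q.swap) p w = fderiv ℂ g p.swap w.swap := by
  have h : fderiv ℂ (g ∘ swL) p = (fderiv ℂ g (swL p)).comp (swL : (ℂ × ℂ) →L[ℂ] (ℂ × ℂ)) := swL.comp_right_fderiv
  have h' : fderiv ℂ (fun q : ℂ × ℂ => g q.swap) p = (fderiv ℂ g (swL p)).comp (swL : (ℂ × ℂ) →L[ℂ] (ℂ × ℂ)) := h
  rw [h']
  rfl

theorem fderiv_swv {v : ℂ × ℂ → ℂ × ℂ} (p w : ℂ × ℂ) : fderiv ℂ (swv v) p w = (fderiv ℂ v p.swap w.swap).swap := by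
  have h : fderiv ℂ ((swL ∘ v) ∘ swL) p = (fderiv ℂ (swL ∘ v) (swL p)).comp (swL : (ℂ × ℂ) →L[ℂ] (ℂ × ℂ)) := swL.comp_right_fderiv
  have h' : fderiv ℂ (swv v) p = (fderiv ℂ (swL ∘ v) (swL p)).comp (swL : (ℂ × ℂ) →L[ℂ] (ℂ × ℂ)) := h
  rw [h', swL.comp_fderiv]
  rfl

theorem dvg_swap {v : ℂ × ℂ → ℂ × ℂ} (p : ℂ × ℂ) : dvg (swv v) p.swap = dvg v p := by
  unfold dvg
  rw [fderiv_swv, fderiv_swv]
  simp only [Prod.swap_swap, Prod.fst_swap, Prod.snd_swap, Prod.swap_prod_mk]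
  ring

theorem Wt.swap {v : ℂ × ℂ → ℂ × ℂ} {g : ℂ × ℂ → ℂ} (h : Wt v g) : Wt (swv v) fun q => g q.swap where
  an := AnalyticAt.comp (f := fun q : ℂ × ℂ => q.swap) (g := g) (x := 0) h.an (an_swap 0)
  ne := tendsto_swap0.frequently (p := fun q => g q.swap ≠ 0) (by simpa only [Prod.swap_swap] using h.ne)
  cof := by
    obtain ⟨c, hc, h1⟩ := h.cof
    refine ⟨fun q => c q.swap, AnalyticAt.comp (f := fun q : ℂ × ℂ => q.swap) (g := c) (x := 0) hc (an_swap 0), ?_⟩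
    filter_upwards [tendsto_swap0.eventually h1] with p hp
    rw [fderiv_swap]
    simpa only [swv, Prod.swap_swap] using hp
  red := by
    filter_upwards [tendsto_swap0.eventually h.red] with p hp h0 hg hd
    have h1 : p.swap ≠ 0 := by
      intro h2
      apply h0
      rw [← Prod.swap_swap p, h2]
      rfl
    apply hp h1 hg
    ext w
    · have := congrArg (fun L : (ℂ × ℂ) →L[ℂ] ℂ => L ((1 : ℂ), (0 : ℂ)).swap) hd
      have h3 := fderiv_swap g p ((1 : ℂ), (0 : ℂ)).swap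
      rw [Prod.swap_swap] at h3
      simpa using h3.symm.trans this
    · have := congrArg (fun L : (ℂ × ℂ) →L[ℂ] ℂ => L ((0 : ℂ), (1 : ℂ)).swap) hd
      have h3 := fderiv_swap g p ((0 : ℂ), (1 : ℂ)).swap
      rw [Prod.swap_swap] at h3
      simpa using h3.symm.trans this

theorem Iso.swap {v : ℂ × ℂ → ℂ × ℂ} (h : Iso v) : Iso (swv v) := by
  obtain ⟨h1, h2, h3⟩ := h
  refine ⟨?_, ?_, ?_⟩
  · have h4 : AnalyticAt ℂ (fun q : ℂ × ℂ => v q.swap) 0 := AnalyticAt.comp (f := fun q : ℂ × ℂ => q.swap) (g := v) (x := 0) h1 (an_swap 0)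
    exact AnalyticAt.comp (f := fun q : ℂ × ℂ => v q.swap) (g := fun q : ℂ × ℂ => q.swap) (x := 0) (an_swap _) h4
  · show (v (0 : ℂ × ℂ).swap).swap = 0
    rw [show (0 : ℂ × ℂ).swap = 0 from rfl, h2]
    rfl
  · filter_upwards [tendsto_swap0.eventually h3] with p hp h0 hv
    have h5 : p.swap ≠ 0 := by
      intro h2
      apply h0
      rw [← Prod.swap_swap p, h2]
      rfl
    apply hp h5
    rw [← Prod.swap_swap (v p.swap)]
    have h6 : (v p.swap).swap = 0 := hv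
    rw [h6]
    rfl

end Pool.Agent.MQ2

end
end

section

/-!
# MQ2 StepW: the package of a chart in exchanged coordinates
-/

set_option autoImplicit false

open Topology Filter Metric MeasureTheory Asymptotics Laplacian

noncomputable section

namespace Pool.Agent.MQ2

open Pool.Agent.H36.BP (EN)
open Pool.Agent.H30M (tau LogSing)
open Pool.Agent.MQ

section

variable {Df Df' : ℂ → ℂ} {ell L L' : ℂ → ℝ} {V V' : Set ℂ} {N : ℝ} {l l' : ℂ → ℝ} {C C' : ℝ} {O K : Set ℂ} {η D X : ℂ → ℂ} {Φ err u : ℂ → ℝ}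

theorem Cht.congr (h : Cht Df ell L V N l C O K η D X Φ err u) (h1 : ∀ z ∈ O, Df' z = Df z) (h2 : ∀ z ∈ O, z ∈ V' → z ∈ V ∧ L' z = L z) :
    Cht Df' ell L' V' N l C O K η D X Φ err u where
  op := h.op
  cl := h.cl
  η_cd := h.η_cd
  err_c := h.err_c
  Φ_ls := h.Φ_ls
  out := h.out
  bd := h.bd
  ineq := h.ineq
  X_an := h.X_an
  X_ne := h.X_ne
  X_V := fun z hz hV => h.X_V z hz (h2 z hz hV).1
  D_eq := fun z hz hX => by rw [h1 z hz, h.D_eq z hz hX]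
  ell_eq := h.ell_eq
  u_cd := h.u_cd
  u_gr := h.u_gr
  u_bd := h.u_bd
  up := fun z hz hV hΦ => by
    rw [(h2 z hz hV).2]
    exact h.up z hz (h2 z hz hV).1 hΦ

theorem Cht.mono (h : Cht Df ell L V N l C O K η D X Φ err u) (hl : ∀ z, l z ≤ l' z) (hl0 : ∀ z, 0 ≤ l z) (hC : C ≤ C') (hC0 : 0 ≤ C) :
    Cht Df ell L V N l' C' O K η D X Φ err u where
  op := h.op
  cl := h.cl
  η_cd := h.η_cd
  err_c := h.err_c
  Φ_ls := h.Φ_ls
  out := h.out
  bd := fun z hz => (h.bd z hz).trans (mul_le_mul hC (hl z) (hl0 z) (hC0.trans hC))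
  ineq := h.ineq
  X_an := h.X_an
  X_ne := h.X_ne
  X_V := h.X_V
  D_eq := h.D_eq
  ell_eq := h.ell_eq
  u_cd := h.u_cd
  u_gr := fun z hz => (h.u_gr z hz).trans (mul_le_mul hC (hl z) (hl0 z) (hC0.trans hC))
  u_bd := fun z hz => (h.u_bd z hz).trans hC
  up := fun z hz hV hΦ => by
    have h1 := h.up z hz hV hΦ
    have h2 : Real.log (1 + l z) ≤ Real.log (1 + l' z) := Real.log_le_log (by linarith [hl0 z]) (by linarith [hl z])
    linarith

end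

private theorem ztv_zero {v : ℂ × ℂ → ℂ × ℂ} {p : ℂ → ℂ × ℂ} {z : ℂ} (h : v (p z) = 0) : ztv v p z = 0 := by
  classical
  unfold ztv
  rw [h]
  simp

theorem ztv_swap' {v : ℂ × ℂ → ℂ × ℂ} {r : ℝ} {Om : Set ℂ} {p : ℂ → ℂ × ℂ} (h : Crv1 v r Om p) {z : ℂ} (hz : z ∈ Om) :
    ztv (swv v) (fun z => (p z).swap) z = ztv v p z := by
  by_cases hv : v (p z) = 0
  · rw [ztv_zero hv, ztv_zero]
    show (v ((p z).swap).swap).swap = 0
    rw [Prod.swap_swap, hv]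
    rfl
  · exact ztv_swap h hz hv

theorem DDv_swap' {v : ℂ × ℂ → ℂ × ℂ} {g : ℂ × ℂ → ℂ} {r : ℝ} {Om : Set ℂ} {p : ℂ → ℂ × ℂ} (h : Crv1 v r Om p) {z : ℂ} (hz : z ∈ Om) :
    DDv (swv v) (fun q => g q.swap) (fun z => (p z).swap) z = DDv v g p z := by
  unfold DDv
  rw [ztv_swap' h hz, dvg_swap]
  simp only [Prod.swap_swap]

theorem Dat.swap {v : ℂ × ℂ → ℂ × ℂ} {g : ℂ × ℂ → ℂ} {r B : ℝ} {d : ℕ} {q : ℂ × ℂ → ℂ} {ψ : ℂ × ℂ → ℝ} {M : ℕ} {F : ℂ → EN M} {Q : ℂ → ℂ} {lm : ℂ → ℝ}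
    {Om : Set ℂ} {p : ℂ → ℂ × ℂ} (h : Dat v g r B d q ψ F Q lm Om p) :
    Dat (swv v) (fun p => g p.swap) r B d (fun p => q p.swap) (fun p => ψ p.swap) F Q lm Om fun z => (p z).swap where
  crv := crv_swap h.crv
  p_ne := fun z hz => (h.p_ne z hz).mono fun w hw h1 => hw (by
    rw [← Prod.swap_swap (p w), h1]
    rfl)
  g_ne := fun z hz => by simpa only [Prod.swap_swap] using h.g_ne z hz
  lm_cont := h.lm_cont
  lm_nonneg := h.lm_nonneg
  lm_ge := fun z hz => by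
    rw [deriv_swap (h.crv.an z hz).differentiableAt, norm_swap']
    exact h.lm_ge z hz
  F_diff := h.F_diff
  F_ne := h.F_ne
  lam_le := h.lam_le
  Q_diff := h.Q_diff
  Q_ne := h.Q_ne
  Q_le := h.Q_le
  Q_eq := by simpa only [Prod.swap_swap] using h.Q_eq

theorem dirP_swap {v : ℂ × ℂ → ℂ × ℂ} {g J : ℂ × ℂ → ℂ} {N r : ℝ} {Con : ℕ → (ℂ × ℂ → ℂ) → Prop} {re B A C₀ : ℝ}
    {O K : Set ℂ → (ℂ → ℂ × ℂ) → Set ℂ} (hO : ∀ Om p, O Om p ⊆ Om)
    (h : DirP (swv v) (fun p => g p.swap) (fun p => J p.swap) N r Con re B A C₀ O K) :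
    DirP v g J N r (fun n q => Con n fun p => q p.swap) re B A C₀ (fun Om p => O Om fun z => (p z).swap) fun Om p => K Om fun z => (p z).swap := by
  intro d n q ψ hd hn hq hψ hCon M F Q lm Om p hDat ell hell l₁ hl₁ hle hEn
  have hq' : AnalyticAt ℂ (fun p : ℂ × ℂ => q p.swap) 0 := AnalyticAt.comp (f := fun q : ℂ × ℂ => q.swap) (g := q) (x := 0) hq (an_swap 0)
  have hψ' : ContDiffAt ℝ 1 (fun p : ℂ × ℂ => ψ p.swap) 0 :=
    ContDiffAt.comp (g := ψ) (f := fun q : ℂ × ℂ => q.swap) 0 hψ (((an_swap 0).contDiffAt (n := 1)).restrict_scalars ℝ)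
  have hell' : EllP Om (fun z => (p z).swap) re ell := by
    intro z hz h0 hb
    have h1 : p z ≠ 0 := fun h2 => h0 (by
      show (p z).swap = 0
      rw [h2]
      rfl)
    have h2 : p z ∈ ball (0 : ℂ × ℂ) re := by
      rw [mem_ball_zero_iff] at hb ⊢
      rwa [norm_swap'] at hb
    rw [hell z hz h1 h2, Prod.fst_swap, Prod.snd_swap, add_comm]
  have hEn' : EnB Om (fun z => (p z).swap) re l₁ := by
    intro z hz hb
    rw [mem_closedBall_zero_iff, norm_swap', ← mem_closedBall_zero_iff] at hb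
    exact ⟨(hEn z hz hb).2, (hEn z hz hb).1⟩
  obtain ⟨C, l, η, D, X, Φ, err, u, h1, h2, h3, h4, h5, h6⟩ := h d n _ _ hd hn hq' hψ' hCon M F Q lm Om _ hDat.swap ell hell' l₁ hl₁ hle hEn'
  refine ⟨C, l, η, D, X, Φ, err, u, h1, h2, h3, h4, h5.congr (fun z hz => (DDv_swap' hDat.crv (hO _ _ hz)).symm) ?_, h6⟩
  intro z hz hV
  obtain ⟨a1, a2, a3, a4⟩ := hV
  have e1 := ztv_swap' hDat.crv a1
  refine ⟨⟨a1, by rw [e1]; exact a2, by simpa only [Prod.swap_swap] using a3, by simpa only [Prod.swap_swap] using a4⟩, ?_⟩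
  unfold LL
  rw [e1]
  simp only [Prod.swap_swap]

end Pool.Agent.MQ2

end
end

section

/-!
# MQL BasicD: monotonicity, congruence, exchange of the coordinates, the black box for nonnegative exponents
-/

set_option autoImplicit false

open Topology Filter Metric MeasureTheory Asymptotics Laplacian Set

noncomputable section

namespace Pool.Agent.MQL

open Pool.Agent.H36.BP (EN)
open Pool.Agent.H30M (tau LogSing)
open Pool.Agent.MQ Pool.Agent.MQ2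

/-- a smaller Jacobian factor -/
theorem locX_jac {v : ℂ × ℂ → ℂ × ℂ} {g J J' : ℂ × ℂ → ℂ} {Om : Set ℂ} {p : ℂ → ℂ × ℂ} {lm : ℂ → ℝ} {s A δ : ℝ}
    (h : ∀ z ∈ Om, J' (p z) ≠ 0 → J (p z) ≠ 0 ∧ ‖J' (p z)‖ ≤ ‖J (p z)‖) (hX : LocX v g J Om p lm s A δ) : LocX v g J' Om p lm s A δ := by
  obtain ⟨C, l, η, Φ, err, h1, h2, h3, h4, h5, h6, h7, h8, h9, h10, h11, h12⟩ := hX
  refine ⟨C, l, η, Φ, err, h1, h2, h3, h4, h5, h6, h7, h8, h9, h10, ?_, h12⟩
  intro z hz hΦ hzt hg hJ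
  obtain ⟨hJ1, hJ2⟩ := h z hz hJ
  have h13 := h11 z hz hΦ hzt hg hJ1
  have h14 : Real.log ‖J' (p z)‖ ≤ Real.log ‖J (p z)‖ := Real.log_le_log (norm_pos_iff.2 hJ) hJ2
  linarith

/-- a smaller box -/
theorem locX_sub {v : ℂ × ℂ → ℂ × ℂ} {g J : ℂ × ℂ → ℂ} {Om : Set ℂ} {p : ℂ → ℂ × ℂ} {lm : ℂ → ℝ} {s s' A δ : ℝ} (hO : IsOpen Om) (hs : s ≤ s')
    (hX : LocX v g J Om p lm s A δ) : LocX v g J {z | z ∈ Om ∧ p z ∈ ball (0 : ℂ × ℂ) s'} p lm s A δ := by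
  obtain ⟨C, l, η, Φ, err, h1, h2, h3, h4, h5, h6, h7, h8, h9, h10, h11, h12⟩ := hX
  have hsub : {z | z ∈ Om ∧ p z ∈ ball (0 : ℂ × ℂ) s'} ⊆ Om := fun z hz => hz.1
  refine ⟨C, l, η, Φ, err, h1, h2, h3, h4, h5.mono hsub, h6.mono hsub, fun z hz => h7 z hz.1, fun z hz => h8 z hz.1, fun z hz => h9 z hz.1,
    fun z hz => h10 z hz.1, fun z hz => h11 z hz.1, fun R hR => ?_⟩
  refine le_trans (le_of_eq ?_) (h12 R hR)
  refine (setIntegral_eq_of_subset_of_forall_sdiff_eq_zero hO.measurableSet hsub fun z hz => ?_).symm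
  have h13 : p z ∉ ball (0 : ℂ × ℂ) s := fun h => hz.2 ⟨hz.1, ball_subset_ball hs h⟩
  rw [(h8 z hz.1 h13).2.1, mul_zero]

theorem JD_norm (al be : ℝ) (p : ℂ × ℂ) : ‖JD al be p‖ = ‖p.1‖ ^ al * ‖p.2‖ ^ be := by
  unfold JD
  rw [Complex.norm_real, Real.norm_eq_abs, abs_of_nonneg (by positivity)]

theorem JD_swap (al be : ℝ) (p : ℂ × ℂ) : JD be al p.swap = JD al be p := by
  unfold JD
  rw [Prod.fst_swap, Prod.snd_swap, mul_comm]

theorem GoodD.mono {P P' : (ℂ × ℂ → ℂ) → Prop} {al be : ℝ} {v : ℂ × ℂ → ℂ × ℂ} (h : ∀ g, P g → Wt v g → AxW al be v g → P' g) (hv : GoodD P' al be v) :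
    GoodD P al be v := by
  obtain ⟨m, c, hc, hg⟩ := hv
  exact ⟨m, c, hc, fun g hP hW hA => hg g (h g hP hW hA) hW hA⟩

theorem axW_congr {al be : ℝ} {v v' : ℂ × ℂ → ℂ × ℂ} (h : v =ᶠ[𝓝 0] v') {g : ℂ × ℂ → ℂ} (hg : AxW al be v' g) : AxW al be v g := by
  have h1 : Tendsto (fun t : ℂ => ((0 : ℂ), t)) (𝓝 0) (𝓝 0) := by
    have : Continuous fun t : ℂ => ((0 : ℂ), t) := by fun_prop
    exact this.tendsto 0
  have h2 : Tendsto (fun t : ℂ => (t, (0 : ℂ))) (𝓝 0) (𝓝 0) := by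
    have : Continuous fun t : ℂ => (t, (0 : ℂ)) := by fun_prop
    exact this.tendsto 0
  refine ⟨fun ha hv => hg.fst ha ?_, fun hb hv => hg.snd hb ?_⟩
  · filter_upwards [hv, h1.eventually h] with t ht ht2
    rw [← ht2, ht]
  · filter_upwards [hv, h2.eventually h] with t ht ht2
    rw [← ht2, ht]

theorem GoodD.congr {P : (ℂ × ℂ → ℂ) → Prop} {al be : ℝ} {v v' : ℂ × ℂ → ℂ × ℂ} (h : v =ᶠ[𝓝 0] v') (hv : GoodD P al be v) : GoodD P al be v' := by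
  obtain ⟨m, c, hc, hg⟩ := hv
  obtain ⟨ε, hε, hball⟩ := Metric.eventually_nhds_iff_ball.1 h
  refine ⟨m, c, fun i => Cong.sep h (hc i), fun g hP hw hA => ?_⟩
  filter_upwards [hg g hP (Cong.wt h hw) (axW_congr h hA), Ioo_mem_nhdsGT hε] with r hr hrε
  intro s s' hs hss hsr B hB
  obtain ⟨A, C₀, hA, hC₀, hmain⟩ := hr s s' hs hss hsr B hB
  refine ⟨A, C₀, hA, hC₀, ?_⟩
  intro d n q ψ hd hn hq hψ hord M F Q lm Om p hD hAv
  have hpε : ∀ z ∈ Om, p z ∈ ball (0 : ℂ × ℂ) ε := fun z hz => ball_subset_ball hrε.2.le (hD.crv.mem z hz)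
  have hvp : ∀ z ∈ Om, v (p z) = v' (p z) := fun z hz => hball _ (hpε z hz)
  have hvn : ∀ z ∈ Om, v =ᶠ[𝓝 (p z)] v' := by
    intro z hz
    filter_upwards [isOpen_ball.mem_nhds (hpε z hz)] with w hw
    exact hball w hw
  have hcrv : Crv1 v r Om p := by
    refine ⟨hD.crv.isOpen, hD.crv.an, hD.crv.mem, hD.crv.closed, ?_⟩
    intro z hz
    rw [hvp z hz]
    exact hD.crv.ode z hz
  have hD' : Dat v g r B d q ψ F Q lm Om p :=
    ⟨hcrv, hD.p_ne, hD.g_ne, hD.lm_cont, hD.lm_nonneg, hD.lm_ge, hD.F_diff, hD.F_ne, hD.lam_le, hD.Q_diff, hD.Q_ne, hD.Q_le, hD.Q_eq⟩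
  have hz : ∀ z ∈ Om, ztv v p z = ztv v' p z := by
    intro z hz
    unfold ztv
    rw [hvp z hz]
  have hDD : ∀ z ∈ Om, DDv v g p z = DDv v' g p z := by
    intro z hz'
    unfold DDv
    rw [hz z hz']
    have : dvg v (p z) = dvg v' (p z) := by
      unfold dvg
      rw [(hvn z hz').fderiv_eq]
    rw [this]
  obtain ⟨C, l, η, Φ, err, h1, h2, h3, h4, h5, h6, h7, h8, h9, h10, h11, h12⟩ := hmain d n q ψ hd hn hq hψ hord M F Q lm Om p hD' hAv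
  refine ⟨C, l, η, Φ, err, h1, h2, h3, h4, h5, h6, h7, ?_, h9, h10, ?_, h12⟩
  · intro z hz' hs'
    rw [← hDD z hz'.1]
    exact h8 z hz' hs'
  · intro z hz' hΦ hzt
    rw [← hz z hz'.1] at hzt ⊢
    exact h11 z hz' hΦ hzt

/-! ## the exchange of the coordinates -/

theorem divX_swap {g : ℂ × ℂ → ℂ} (h : DivX g) : DivY fun p => g p.swap := by
  obtain ⟨g₀, h1, h2⟩ := h
  refine ⟨fun p => g₀ p.swap, AnalyticAt.comp (f := fun q : ℂ × ℂ => q.swap) (g := g₀) (x := 0) h1 (an_swap 0), ?_⟩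
  filter_upwards [tendsto_swap0.eventually h2] with p hp
  rw [hp, Prod.fst_swap]

theorem divY_swap {g : ℂ × ℂ → ℂ} (h : DivY g) : DivX fun p => g p.swap := by
  obtain ⟨g₀, h1, h2⟩ := h
  refine ⟨fun p => g₀ p.swap, AnalyticAt.comp (f := fun q : ℂ × ℂ => q.swap) (g := g₀) (x := 0) h1 (an_swap 0), ?_⟩
  filter_upwards [tendsto_swap0.eventually h2] with p hp
  rw [hp, Prod.snd_swap]

theorem AxW.swap {al be : ℝ} {v : ℂ × ℂ → ℂ × ℂ} {g : ℂ × ℂ → ℂ} (h : AxW al be v g) : AxW be al (swv v) fun p => g p.swap where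
  fst := fun hb hv => divY_swap (h.snd hb hv)
  snd := fun ha hv => divX_swap (h.fst ha hv)

theorem Avoid.swap {al be : ℝ} {Om : Set ℂ} {p : ℂ → ℂ × ℂ} (h : Avoid al be Om p) : Avoid be al Om fun z => (p z).swap where
  fst := h.snd
  snd := h.fst

theorem locX_swap {v : ℂ × ℂ → ℂ × ℂ} {g J : ℂ × ℂ → ℂ} {r : ℝ} {Om O : Set ℂ} {p : ℂ → ℂ × ℂ} {lm : ℂ → ℝ} {s A δ : ℝ} (hp : Crv1 v r Om p) (hO : O ⊆ Om)
    (hX : LocX (swv v) (fun q => g q.swap) (fun q => J q.swap) O (fun z => (p z).swap) lm s A δ) : LocX v g J O p lm s A δ := by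
  obtain ⟨C, l, η, Φ, err, h1, h2, h3, h4, h5, h6, h7, h8, h9, h10, h11, h12⟩ := hX
  have hb : ∀ z, (p z).swap ∈ ball (0 : ℂ × ℂ) s ↔ p z ∈ ball (0 : ℂ × ℂ) s := by
    intro z
    rw [mem_ball_zero_iff, mem_ball_zero_iff, norm_swap']
  refine ⟨C, l, η, Φ, err, h1, h2, h3, h4, h5, h6, h7, ?_, ?_, h10, ?_, h12⟩
  · intro z hz hs
    rw [← DDv_swap' hp (hO hz)]
    exact h8 z hz fun h => hs ((hb z).1 h)
  · intro z hz hs
    exact h9 z hz ((hb z).2 hs)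
  · intro z hz hΦ hzt hg hJ
    rw [← ztv_swap' hp (hO hz)] at hzt ⊢
    have := h11 z hz hΦ hzt (by simpa only [Prod.swap_swap] using hg) (by simpa only [Prod.swap_swap] using hJ)
    simpa only [Prod.swap_swap] using this

theorem GoodD.swap {P : (ℂ × ℂ → ℂ) → Prop} {al be : ℝ} {v : ℂ × ℂ → ℂ × ℂ} (hv : GoodD (SG P) be al (swv v)) : GoodD P al be v := by
  obtain ⟨m, c, hc, hg⟩ := hv
  refine ⟨m, fun i N z => (c i N z).swap, fun i => sep_swap (hc i), fun g hP hw hA => ?_⟩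
  have hPs : SG P fun q => g q.swap := by
    unfold SG
    simpa only [Prod.swap_swap] using hP
  filter_upwards [hg _ hPs hw.swap hA.swap] with r hr
  intro s s' hs hss hsr B hB
  obtain ⟨A, C₀, hA, hC₀, hmain⟩ := hr s s' hs hss hsr B hB
  refine ⟨A, C₀, hA, hC₀, ?_⟩
  intro d n q ψ hd hn hq hψ hord M F Q lm Om p hD hAv
  have hq' : AnalyticAt ℂ (fun p : ℂ × ℂ => q p.swap) 0 := AnalyticAt.comp (f := fun q : ℂ × ℂ => q.swap) (g := q) (x := 0) hq (an_swap 0)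
  have hψ' : ContDiffAt ℝ 1 (fun p : ℂ × ℂ => ψ p.swap) 0 :=
    ContDiffAt.comp (g := ψ) (f := fun q : ℂ × ℂ => q.swap) 0 hψ (((an_swap 0).contDiffAt (n := 1)).restrict_scalars ℝ)
  have h1 := hmain d n _ _ hd hn hq' hψ' (fun i => hord i) M F Q lm Om _ hD.swap hAv.swap
  refine locX_swap (Om := Om) hD.crv (fun z hz => hz.1) ?_
  have h2 : (fun q : ℂ × ℂ => JD al be q.swap) = JD be al := funext fun q => JD_swap be al q
  have h3 : {z | z ∈ Om ∧ (p z).swap ∈ ball (0 : ℂ × ℂ) s'} = {z | z ∈ Om ∧ p z ∈ ball (0 : ℂ × ℂ) s'} := by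
    ext z
    rw [mem_setOf_eq, mem_setOf_eq, mem_ball_zero_iff, mem_ball_zero_iff, norm_swap']
  rw [h2, ← h3]
  exact h1

/-! ## nonnegative exponents -/

/-- the black box of the second stage: `J ≤ 1` for nonnegative exponents -/
theorem goodD_of_good {al be : ℝ} (hal : 0 ≤ al) (hbe : 0 ≤ be) {v : ℂ × ℂ → ℂ × ℂ} (h : Good PT v) : GoodD GT al be v := by
  obtain ⟨m, c, hc, hg⟩ := h
  refine ⟨m, c, hc, fun g _ hw _ => ?_⟩
  filter_upwards [hg g (fun _ => 1) trivial hw analyticAt_const, Ioo_mem_nhdsGT one_pos] with r hr hr1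
  intro s s' hs hss hsr B hB
  obtain ⟨A, C₀, hA, hC₀, hmain⟩ := hr s hs (hss.trans hsr) B hB
  refine ⟨A, C₀, hA, hC₀, ?_⟩
  intro d n q ψ hd hn hq hψ hord M F Q lm Om p hD _
  refine locX_jac (fun z hz _ => ⟨one_ne_zero, ?_⟩) (locX_sub hD.crv.isOpen hss.le (hmain d n q ψ hd hn hq hψ hord M F Q lm Om p hD))
  have h1 := hD.crv.mem z hz.1
  rw [mem_ball_zero_iff] at h1
  have h2 : ‖(p z).1‖ ≤ 1 := (norm_fst_le (p z)).trans (h1.trans hr1.2).le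
  have h3 : ‖(p z).2‖ ≤ 1 := (norm_snd_le (p z)).trans (h1.trans hr1.2).le
  rw [JD_norm, norm_one]
  exact mul_le_one₀ (Real.rpow_le_one (norm_nonneg _) h2 hal) (by positivity) (Real.rpow_le_one (norm_nonneg _) h3 hbe)

/-- a positive exponent can be replaced by `0` -/
theorem GoodD.exp_zero {P : (ℂ × ℂ → ℂ) → Prop} {al be : ℝ} (hbe : 0 ≤ be) {v : ℂ × ℂ → ℂ × ℂ} (h : GoodD P al 0 v) : GoodD P al be v := by
  obtain ⟨m, c, hc, hg⟩ := h
  refine ⟨m, c, hc, fun g hP hw hA => ?_⟩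
  have hA' : AxW al 0 v g := ⟨hA.fst, fun h => absurd h (lt_irrefl 0)⟩
  filter_upwards [hg g hP hw hA', Ioo_mem_nhdsGT one_pos] with r hr hr1
  intro s s' hs hss hsr B hB
  obtain ⟨A, C₀, hA, hC₀, hmain⟩ := hr s s' hs hss hsr B hB
  refine ⟨A, C₀, hA, hC₀, ?_⟩
  intro d n q ψ hd hn hq hψ hord M F Q lm Om p hD hAv
  have hAv' : Avoid al 0 Om p := ⟨hAv.fst, fun h => absurd h (lt_irrefl 0)⟩
  refine locX_jac (fun z hz hJ => ?_) (hmain d n q ψ hd hn hq hψ hord M F Q lm Om p hD hAv')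
  have h1 := hD.crv.mem z hz.1
  rw [mem_ball_zero_iff] at h1
  have h3 : ‖(p z).2‖ ≤ 1 := (norm_snd_le (p z)).trans (h1.trans hr1.2).le
  have h4 : ‖JD al be (p z)‖ ≤ ‖JD al 0 (p z)‖ := by
    rw [JD_norm, JD_norm, Real.rpow_zero, mul_one]
    exact mul_le_of_le_one_right (by positivity) (Real.rpow_le_one (norm_nonneg _) h3 hbe)
  exact ⟨norm_pos_iff.1 ((norm_pos_iff.2 hJ).trans_le h4), h4⟩

end Pool.Agent.MQL

end
end
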