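import Pool.Agent.H43.TL2.M35
import Pool.Agent.H43.TL2.M59

/-! The parts of this file: MQ2.Slope, MQ2.StepB. -/

section

/-!
# MQ2 Slope: the lift of the curve to the blow-up
-/

set_option autoImplicit false

open Topology Filter Metric MeasureTheory Asymptotics Laplacian

noncomputable section

namespace Pool.Agent.MQ2

open Pool.Agent.MQ

/-- an analytic function which is not `0` near `z` has no zeros in a punctured neighbourhood -/
private theorem pun {a : ℂ → ℂ} {z : ℂ} (ha : AnalyticAt ℂ a z) (h : ∃ᶠ w in 𝓝 z, a w ≠ 0) : ∀ᶠ w in 𝓝[≠] z, a w ≠ 0 := by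
  rcases ha.eventually_eq_zero_or_eventually_ne_zero with h1 | h1
  · exact absurd h1 (by
      intro h2
      exact h (h2.mono fun w hw => not_not.2 hw))
  · exact h1

private theorem an_fst {p : ℂ → ℂ × ℂ} {z : ℂ} (hp : AnalyticAt ℂ p z) : AnalyticAt ℂ (fun w => (p w).1) z := analyticAt_fst.comp hp
private theorem an_snd {p : ℂ → ℂ × ℂ} {z : ℂ} (hp : AnalyticAt ℂ p z) : AnalyticAt ℂ (fun w => (p w).2) z := analyticAt_snd.comp hp

theorem slope_val {p : ℂ → ℂ × ℂ} {z : ℂ} (hp : AnalyticAt ℂ p z) (h1 : ∃ᶠ w in 𝓝 z, (p w).1 ≠ 0) {f : ℂ → ℂ} (hf : AnalyticAt ℂ f z)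
    (h2 : ∀ᶠ w in 𝓝 z, (p w).2 = (p w).1 * f w) : slope p z = f z := by
  have hS : HasSlope p z := ⟨h1, f, hf, h2⟩
  have h3 : slope p z = hS.2.choose z := by
    unfold slope
    rw [dif_pos hS]
  obtain ⟨h4, h5⟩ := hS.2.choose_spec
  rw [h3]
  have h6 : ∀ᶠ w in 𝓝[≠] z, hS.2.choose w = f w := by
    filter_upwards [pun (an_fst hp) h1, h5.filter_mono nhdsWithin_le_nhds, h2.filter_mono nhdsWithin_le_nhds] with w h7 h8 h9
    exact mul_left_cancel₀ h7 (h8.symm.trans h9)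
  exact ((h4.frequently_eq_iff_eventually_eq hf).1 h6.frequently).self_of_nhds

theorem HasSlope.snd_eq {p : ℂ → ℂ × ℂ} {z : ℂ} (h : HasSlope p z) (hp : AnalyticAt ℂ p z) : (p z).2 = (p z).1 * slope p z := by
  obtain ⟨h1, f, hf, h2⟩ := h
  rw [slope_val hp h1 hf h2]
  exact h2.self_of_nhds

/-- one of the two quotients is holomorphic -/
theorem slope_dich {p : ℂ → ℂ × ℂ} {z : ℂ} (hp : AnalyticAt ℂ p z) (h : ∃ᶠ w in 𝓝 z, p w ≠ 0) :
    ((∃ᶠ w in 𝓝 z, (p w).1 ≠ 0) ∧ ∃ f : ℂ → ℂ, AnalyticAt ℂ f z ∧ ∀ᶠ w in 𝓝 z, (p w).2 = (p w).1 * f w) ∨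
    ((∃ᶠ w in 𝓝 z, (p w).2 ≠ 0) ∧ ∃ f : ℂ → ℂ, AnalyticAt ℂ f z ∧ f z = 0 ∧ ∀ᶠ w in 𝓝 z, (p w).1 = (p w).2 * f w) := by
  by_cases h1 : ∀ᶠ w in 𝓝 z, (p w).1 = 0
  · right
    refine ⟨?_, fun _ => 0, analyticAt_const, rfl, ?_⟩
    · intro h2
      refine h ?_
      filter_upwards [h1, h2] with w h3 h4
      exact not_not.2 (Prod.ext h3 (not_not.1 h4))
    · filter_upwards [h1] with w h3
      rw [h3, mul_zero]
  by_cases h2 : ∀ᶠ w in 𝓝 z, (p w).2 = 0
  · left
    refine ⟨fun h3 => h1 (h3.mono fun w hw => not_not.1 hw), fun _ => 0, analyticAt_const, ?_⟩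
    filter_upwards [h2] with w h3
    rw [h3, mul_zero]
  obtain ⟨m, a, ha, ha0, ha1⟩ := (an_fst hp).exists_eventuallyEq_pow_smul_nonzero_iff.2 h1
  obtain ⟨n, b, hb, hb0, hb1⟩ := (an_snd hp).exists_eventuallyEq_pow_smul_nonzero_iff.2 h2
  by_cases hmn : m ≤ n
  · left
    refine ⟨fun h3 => h1 (h3.mono fun w hw => not_not.1 hw), fun w => (w - z) ^ (n - m) * (b w / a w), ?_, ?_⟩
    · exact ((analyticAt_id.sub analyticAt_const).pow _).mul (hb.div ha ha0)
    · filter_upwards [ha1, hb1, ha.continuousAt.eventually_ne ha0] with w h3 h4 h5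
      rw [h3, h4, smul_eq_mul, smul_eq_mul]
      have h6 : (w - z) ^ n = (w - z) ^ m * (w - z) ^ (n - m) := by rw [← pow_add, Nat.add_sub_cancel' hmn]
      rw [h6]
      field_simp
  · right
    have hnm : n < m := not_le.1 hmn
    refine ⟨fun h3 => h2 (h3.mono fun w hw => not_not.1 hw), fun w => (w - z) ^ (m - n) * (a w / b w), ?_, ?_, ?_⟩
    · exact ((analyticAt_id.sub analyticAt_const).pow _).mul (ha.div hb hb0)
    · simp only [sub_self]
      rw [zero_pow (Nat.sub_ne_zero_of_lt hnm), zero_mul]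
    · filter_upwards [ha1, hb1, hb.continuousAt.eventually_ne hb0] with w h3 h4 h5
      rw [h3, h4, smul_eq_mul, smul_eq_mul]
      have h6 : (w - z) ^ m = (w - z) ^ n * (w - z) ^ (m - n) := by rw [← pow_add, Nat.add_sub_cancel' hnm.le]
      rw [h6]
      field_simp

private theorem dch {e ι : ℕ} {t : ℂ} {v w : ℂ × ℂ → ℂ × ℂ} (hw : Child e ι t v w) : ∀ᶠ ρ in 𝓝[>] (0 : ℝ), ∀ q ∈ ball (0 : ℂ × ℂ) ρ,
    AnalyticAt ℂ w q ∧ (v (be t q)).1 = q.1 ^ e * (w q).1 ∧ (v (be t q)).2 = (q.2 + t) * (v (be t q)).1 + q.1 ^ (e + 1) * (w q).2 := by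
  have h1 := hw.an.eventually_analyticAt.and (hw.fst.and hw.snd)
  obtain ⟨δ, hδ, h2⟩ := Metric.eventually_nhds_iff_ball.1 h1
  filter_upwards [Ioo_mem_nhdsGT hδ] with ρ h3 q hq
  exact h2 q (ball_subset_ball h3.2.le hq)

/-- the curve in the chart is a curve tangent to the transform -/
theorem crv_child {e ι : ℕ} {t : ℂ} {v w : ℂ × ℂ → ℂ × ℂ} (hw : Child e ι t v w) : ∀ᶠ ρ in 𝓝[>] (0 : ℝ), ∀ (r : ℝ) (Om : Set ℂ) (p : ℂ → ℂ × ℂ),
    Crv1 v r Om p → (∀ z ∈ Om, ∃ᶠ w in 𝓝 z, p w ≠ 0) → ρ < r → ρ * (ρ + ‖t‖) < r → Crv1 w ρ (Omt Om p t ρ) (pt t p) ∧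
      (∀ z ∈ Omt Om p t ρ, ∃ᶠ w in 𝓝 z, pt t p w ≠ 0) ∧
      ∀ z ∈ Omt Om p t ρ, (p z).1 ≠ 0 → v (p z) ≠ 0 → w (pt t p z) ≠ 0 ∧ ztv w (pt t p) z = (p z).1 ^ e * ztv v p z := by
  filter_upwards [dch hw] with ρ hρ r Om p hc hne hρr hρt
  -- the data at a point of `Omt`
  have key : ∀ z ∈ Omt Om p t ρ, ∃ f : ℂ → ℂ, AnalyticAt ℂ f z ∧ (∀ᶠ u in 𝓝 z, (p u).2 = (p u).1 * f u) ∧
      (∀ᶠ u in 𝓝 z, u ∈ Om ∧ HasSlope p u ∧ slope p u = f u) := by
    rintro z ⟨hz, ⟨h1, f, hf, h2⟩, -, -⟩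
    exact ⟨f, hf, h2, Filter.Eventually.and (hc.isOpen.mem_nhds hz) (slope_eq (hc.an z hz) h1 hf h2)⟩
  have hmem : ∀ z ∈ Omt Om p t ρ, pt t p z ∈ ball (0 : ℂ × ℂ) ρ := by
    intro z hz
    rw [mem_ball_zero_iff, Prod.norm_def]
    exact max_lt hz.2.2.1 hz.2.2.2
  have han : ∀ z ∈ Omt Om p t ρ, AnalyticAt ℂ (pt t p) z := by
    intro z hz
    obtain ⟨f, hf, h2, h3⟩ := key z hz
    have h4 : AnalyticAt ℂ (fun u => ((p u).1, f u - t)) z := (an_fst (hc.an z hz.1)).prod (hf.sub analyticAt_const)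
    refine h4.congr ?_
    filter_upwards [h3] with u h5
    exact Prod.ext rfl (by show f u - t = slope p u - t; rw [h5.2.2])
  have hopen : IsOpen (Omt Om p t ρ) := by
    rw [isOpen_iff_eventually]
    intro z hz
    obtain ⟨f, hf, h2, h3⟩ := key z hz
    have h4 : ∀ᶠ u in 𝓝 z, pt t p u ∈ ball (0 : ℂ × ℂ) ρ := (han z hz).continuousAt.eventually (isOpen_ball.mem_nhds (hmem z hz))
    filter_upwards [h3, h4] with u h5 h6
    rw [mem_ball_zero_iff, Prod.norm_def] at h6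
    exact ⟨h5.1, h5.2.1, (le_max_left _ _).trans_lt h6, (le_max_right _ _).trans_lt h6⟩
  -- the first component is not `0` near a point of `Omt`
  have hpun : ∀ z ∈ Omt Om p t ρ, ∀ᶠ u in 𝓝[≠] z, (p u).1 ≠ 0 := fun z hz => pun (an_fst (hc.an z hz.1)) hz.2.1.1
  -- the derivative of `p` in terms of the chart
  have hder : ∀ z ∈ Omt Om p t ρ, (deriv p z).1 = (deriv (pt t p) z).1 ∧
      (deriv p z).2 = (p z).1 * (deriv (pt t p) z).2 + (deriv (pt t p) z).1 * ((pt t p z).2 + t) := by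
    intro z hz
    have h1 : HasDerivAt (pt t p) (deriv (pt t p) z) z := (han z hz).differentiableAt.hasDerivAt
    have h2 : HasDerivAt (fun u => (pt t p u).1) (deriv (pt t p) z).1 z := by
      have h9 := (ContinuousLinearMap.fst ℂ ℂ ℂ).hasFDerivAt (x := pt t p z) |>.comp_hasDerivAt z h1
      exact h9
    have h3 : HasDerivAt (fun u => (pt t p u).2) (deriv (pt t p) z).2 z := by
      have h9 := (ContinuousLinearMap.snd ℂ ℂ ℂ).hasFDerivAt (x := pt t p z) |>.comp_hasDerivAt z h1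
      exact h9
    have h4 : HasDerivAt (fun u => ((pt t p u).1, (pt t p u).1 * ((pt t p u).2 + t)))
        ((deriv (pt t p) z).1, (deriv (pt t p) z).1 * ((pt t p z).2 + t) + (pt t p z).1 * (deriv (pt t p) z).2) z :=
      h2.prodMk (h2.mul (h3.add_const t))
    have h5 : p =ᶠ[𝓝 z] fun u => ((pt t p u).1, (pt t p u).1 * ((pt t p u).2 + t)) := by
      filter_upwards [hopen.mem_nhds hz] with u hu
      exact (be_pt hu (hc.an u hu.1)).symm
    have h6 : deriv p z = ((deriv (pt t p) z).1, (deriv (pt t p) z).1 * ((pt t p z).2 + t) + (pt t p z).1 * (deriv (pt t p) z).2) :=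
      (h4.congr_of_eventuallyEq h5).deriv
    rw [h6]
    refine ⟨rfl, ?_⟩
    show (deriv (pt t p) z).1 * ((pt t p z).2 + t) + (p z).1 * (deriv (pt t p) z).2 = _
    ring
  -- the vector field in the chart
  have hv : ∀ z ∈ Omt Om p t ρ, (v (p z)).1 = (p z).1 ^ e * (w (pt t p z)).1 ∧
      (v (p z)).2 = ((pt t p z).2 + t) * ((p z).1 ^ e * (w (pt t p z)).1) + (p z).1 ^ (e + 1) * (w (pt t p z)).2 := by
    intro z hz
    obtain ⟨-, h1, h2⟩ := hρ _ (hmem z hz)
    rw [h1, be_pt hz (hc.an z hz.1)] at h2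
    rw [be_pt hz (hc.an z hz.1)] at h1
    exact ⟨h1, h2⟩
  have hode1 : ∀ z ∈ Omt Om p t ρ, (p z).1 ≠ 0 → (w (pt t p z)).1 * (deriv (pt t p) z).2 - (w (pt t p z)).2 * (deriv (pt t p) z).1 = 0 := by
    intro z hz h0
    have h1 := hc.ode z hz.1
    rw [(hder z hz).1, (hder z hz).2, (hv z hz).1, (hv z hz).2] at h1
    have h2 : (p z).1 ^ (e + 1) * ((w (pt t p z)).1 * (deriv (pt t p) z).2 - (w (pt t p z)).2 * (deriv (pt t p) z).1) = 0 := by
      rw [← h1]
      ring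
    exact (mul_eq_zero.1 h2).resolve_left (pow_ne_zero _ h0)
  have hcrv : Crv1 w ρ (Omt Om p t ρ) (pt t p) := by
    refine ⟨hopen, han, hmem, ?_, ?_⟩
    · intro s hs
      rcases lt_or_ge s 0 with hs0 | hs0
      · have h1 : {z | z ∈ Omt Om p t ρ ∧ pt t p z ∈ closedBall (0 : ℂ × ℂ) s} = ∅ := by
          rw [closedBall_eq_empty.2 hs0]
          ext z
          simp
        rw [h1]
        exact isClosed_empty
      have ht := norm_nonneg t
      set s' : ℝ := max s (s * (s + ‖t‖)) with hs'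
      have hs'r : s' < r := by
        refine max_lt (hs.trans hρr) (lt_of_le_of_lt ?_ hρt)
        exact mul_le_mul hs.le (by linarith) (by positivity) (by linarith)
      have hsub : {z | z ∈ Omt Om p t ρ ∧ pt t p z ∈ closedBall (0 : ℂ × ℂ) s} ⊆ {z | z ∈ Om ∧ p z ∈ closedBall (0 : ℂ × ℂ) s'} := by
        rintro z ⟨hz, h1⟩
        refine ⟨hz.1, ?_⟩
        rw [mem_closedBall_zero_iff, Prod.norm_def] at h1 ⊢
        have h2 : ‖(p z).1‖ ≤ s := (le_max_left _ _).trans h1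
        have h3 : ‖slope p z - t‖ ≤ s := (le_max_right _ _).trans h1
        refine max_le (h2.trans (le_max_left _ _)) ((le_max_right _ _).trans' ?_)
        rw [hz.2.1.snd_eq (hc.an z hz.1), norm_mul]
        have h4 : ‖slope p z‖ ≤ s + ‖t‖ := by
          calc ‖slope p z‖ = ‖(slope p z - t) + t‖ := by rw [sub_add_cancel]
            _ ≤ ‖slope p z - t‖ + ‖t‖ := norm_add_le _ _
            _ ≤ s + ‖t‖ := by linarith
        exact mul_le_mul h2 h4 (norm_nonneg _) hs0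
      have hbd : ∀ u, ‖slope p u - t‖ ≤ s → ‖slope p u‖ ≤ s + ‖t‖ := by
        intro u hu
        calc ‖slope p u‖ = ‖(slope p u - t) + t‖ := by rw [sub_add_cancel]
          _ ≤ ‖slope p u - t‖ + ‖t‖ := norm_add_le _ _
          _ ≤ s + ‖t‖ := by linarith
      rw [isClosed_iff_frequently]
      intro z hfr
      by_cases hzS : z ∈ {z | z ∈ Omt Om p t ρ ∧ pt t p z ∈ closedBall (0 : ℂ × ℂ) s}
      · exact hzS
      have hz : z ∈ {z | z ∈ Om ∧ p z ∈ closedBall (0 : ℂ × ℂ) s'} :=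
        isClosed_iff_frequently.1 (hc.closed s' hs'r) z (hfr.mono fun u hu => hsub hu)
      have hp := hc.an z hz.1
      have hfr' : ∃ᶠ u in 𝓝[≠] z, u ∈ {z | z ∈ Omt Om p t ρ ∧ pt t p z ∈ closedBall (0 : ℂ × ℂ) s} := by
        rw [frequently_nhdsWithin_iff]
        exact hfr.mono fun u hu => ⟨hu, fun h => hzS (by rw [← (h : u = z)]; exact hu)⟩
      rcases slope_dich hp (hne z hz.1) with ⟨h1, f, hf, h2⟩ | ⟨h1, f, hf, hf0, h2⟩
      · have h3 := slope_eq hp h1 hf h2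
        have h4 : ContinuousAt (fun u => ((p u).1, f u - t)) z := ((an_fst hp).prod (hf.sub analyticAt_const)).continuousAt
        have h5 : ((p z).1, f z - t) ∈ closedBall (0 : ℂ × ℂ) s := by
          by_contra h6
          have h7 : ∀ᶠ u in 𝓝 z, ((p u).1, f u - t) ∈ (closedBall (0 : ℂ × ℂ) s)ᶜ :=
            h4.eventually (isClosed_closedBall.isOpen_compl.mem_nhds h6)
          obtain ⟨u, hu, h8, h9⟩ := (hfr.and_eventually (h7.and h3)).exists
          refine h8 ?_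
          have h10 := hu.2
          rw [pt, h9.2] at h10
          exact h10
        have h6 : pt t p z = ((p z).1, f z - t) := by
          rw [pt, h3.self_of_nhds.2]
        have h7 : ‖(p z).1‖ ≤ s ∧ ‖f z - t‖ ≤ s := by
          rw [mem_closedBall_zero_iff, Prod.norm_def] at h5
          exact ⟨(le_max_left _ _).trans h5, (le_max_right _ _).trans h5⟩
        refine absurd ⟨⟨hz.1, h3.self_of_nhds.1, h7.1.trans_lt hs, ?_⟩, ?_⟩ hzS
        · rw [h3.self_of_nhds.2]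
          exact h7.2.trans_lt hs
        · rw [h6]
          exact h5
      · exfalso
        have h3 : ∀ᶠ u in 𝓝 z, ‖f u‖ * (s + ‖t‖ + 1) < 1 := by
          have h4 : ContinuousAt (fun u => ‖f u‖ * (s + ‖t‖ + 1)) z := hf.continuousAt.norm.mul continuousAt_const
          refine h4.eventually (Iio_mem_nhds ?_)
          show ‖f z‖ * (s + ‖t‖ + 1) < 1
          rw [hf0, norm_zero, zero_mul]
          exact one_pos
        obtain ⟨u, hu, h4, h5, h6⟩ := (hfr'.and_eventually ((pun (an_snd hp) h1).and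
          ((h3.filter_mono nhdsWithin_le_nhds).and (h2.filter_mono nhdsWithin_le_nhds)))).exists
        have h7 := hu.1.2.1.snd_eq (hc.an u hu.1.1)
        have h8 := hu.2
        rw [mem_closedBall_zero_iff, Prod.norm_def] at h8
        have h9 : ‖slope p u‖ ≤ s + ‖t‖ := hbd u ((le_max_right _ _).trans h8)
        rw [h6, mul_assoc] at h7
        have h10 : f u * slope p u = 1 := (mul_left_cancel₀ h4 (by rw [mul_one]; exact h7)).symm
        have h11 : ‖f u‖ * ‖slope p u‖ = 1 := by rw [← norm_mul, h10, norm_one]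
        have h12 : ‖f u‖ * ‖slope p u‖ ≤ ‖f u‖ * (s + ‖t‖ + 1) := mul_le_mul_of_nonneg_left (by linarith) (norm_nonneg _)
        linarith
    · intro z hz
      by_cases h0 : (p z).1 = 0
      · have h1 : AnalyticAt ℂ (fun u => (w (pt t p u)).1 * (deriv (pt t p) u).2 - (w (pt t p u)).2 * (deriv (pt t p) u).1) z := by
          have h2 : AnalyticAt ℂ (fun u => w (pt t p u)) z := ((hρ _ (hmem z hz)).1).comp (han z hz)
          exact ((an_fst h2).mul (an_snd (han z hz).deriv)).sub ((an_snd h2).mul (an_fst (han z hz).deriv))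
        have h3 : ∀ᶠ u in 𝓝[≠] z, (w (pt t p u)).1 * (deriv (pt t p) u).2 - (w (pt t p u)).2 * (deriv (pt t p) u).1 = 0 := by
          have h6 : ∀ᶠ u in 𝓝 z, u ∈ Omt Om p t ρ := hopen.mem_nhds hz
          filter_upwards [hpun z hz, h6.filter_mono nhdsWithin_le_nhds] with u h4 h5
          exact hode1 u h5 h4
        exact (h1.frequently_zero_iff_eventually_zero.1 h3.frequently).self_of_nhds
      · exact hode1 z hz h0
  refine ⟨hcrv, ?_, ?_⟩
  · intro z hz
    refine hz.2.1.1.mono fun u hu h1 => hu ?_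
    exact congrArg Prod.fst h1
  · intro z hz h0 h1
    have h2 : w (pt t p z) ≠ 0 := by
      intro h3
      apply h1
      refine Prod.ext ?_ ?_
      · rw [(hv z hz).1, h3]
        simp
      · rw [(hv z hz).2, h3]
        simp
    refine ⟨h2, ?_⟩
    have h3 := hc.deriv_fst hz.1 h1
    have h4 := hc.deriv_snd hz.1 h1
    have h5 := hcrv.deriv_fst hz h2
    have h6 := hcrv.deriv_snd hz h2
    rw [(hder z hz).1, (hv z hz).1] at h3
    rw [(hder z hz).2, (hv z hz).2, h3] at h4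
    have h7 : (deriv (pt t p) z).2 = (p z).1 ^ e * ztv v p z * (w (pt t p z)).2 := by
      have h8 : (p z).1 * (deriv (pt t p) z).2 = (p z).1 * ((p z).1 ^ e * ztv v p z * (w (pt t p z)).2) := by
        linear_combination h4
      exact mul_left_cancel₀ h0 h8
    by_cases h8 : (w (pt t p z)).1 = 0
    · have h9 : (w (pt t p z)).2 ≠ 0 := fun h9 => h2 (Prod.ext h8 h9)
      exact mul_right_cancel₀ h9 (h6.symm.trans h7)
    · refine mul_right_cancel₀ h8 (h5.symm.trans (h3.trans ?_))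
      ring

end Pool.Agent.MQ2

end
end

section

/-!
# MQ2 StepB: the chart of the blow-up at the direction `t`: the relations between the fields and the exact terms
-/

set_option autoImplicit false

open Topology Filter Metric MeasureTheory Asymptotics Laplacian

noncomputable section

namespace Pool.Agent.MQ2

open Pool.Agent.H36.BP (EN)
open Pool.Agent.MQ

/-- `1/2 log (1 + |y + t|²)` -/
def uu (t : ℂ) (q : ℂ × ℂ) : ℝ := Real.log (1 + ‖q.2 + t‖ ^ 2) / 2

theorem uu_eq (t : ℂ) (q : ℂ × ℂ) : uu t q = Real.log ‖embL (1, q.2 + t)‖ := by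
  have h : ‖embL (1, q.2 + t)‖ ^ 2 = 1 + ‖q.2 + t‖ ^ 2 := by
    rw [norm_embL_sq]
    simp
  unfold uu
  rw [← h, Real.log_pow]
  push_cast
  ring

theorem uu_nonneg (t : ℂ) (q : ℂ × ℂ) : 0 ≤ uu t q := by
  unfold uu
  have : 0 ≤ Real.log (1 + ‖q.2 + t‖ ^ 2) := Real.log_nonneg (by nlinarith [sq_nonneg ‖q.2 + t‖])
  linarith

section

variable {Om : Set ℂ} {p : ℂ → ℂ × ℂ} {t : ℂ} {ρ : ℝ} {z : ℂ}

theorem exists_slope (hp : AnalyticAt ℂ p z) (h : HasSlope p z) : ∃ f : ℂ → ℂ, AnalyticAt ℂ f z ∧ (∀ᶠ w in 𝓝 z, (p w).2 = (p w).1 * f w) ∧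
    ∀ᶠ w in 𝓝 z, HasSlope p w ∧ slope p w = f w := by
  obtain ⟨h1, f, hf, h2⟩ := h
  exact ⟨f, hf, h2, slope_eq hp h1 hf h2⟩

theorem an_pt (hp : AnalyticAt ℂ p z) (h : HasSlope p z) : AnalyticAt ℂ (pt t p) z := by
  obtain ⟨f, hf, -, h3⟩ := exists_slope hp h
  have e : pt t p =ᶠ[𝓝 z] fun w => ((p w).1, f w - t) := by
    filter_upwards [h3] with w hw
    simp only [pt, hw.2]
  exact ((Pool.Agent.MQ.an_fst hp).prod (hf.sub analyticAt_const)).congr e.symm

theorem an_uu (hp : AnalyticAt ℂ p z) (h : HasSlope p z) : AnalyticAt ℂ (fun w => embL (1, (pt t p w).2 + t)) z :=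
  an_embL (analyticAt_const.prod ((Pool.Agent.MQ.an_snd (an_pt hp h)).add analyticAt_const))

theorem embL_one_ne (c : ℂ) : embL (1, c) ≠ 0 := embL_ne fun h => one_ne_zero (congrArg Prod.fst h)

theorem contDiffAt_uu {n : WithTop ℕ∞} (hp : AnalyticAt ℂ p z) (h : HasSlope p z) : ContDiffAt ℝ n (fun w => uu t (pt t p w)) z := by
  have e : (fun w => uu t (pt t p w)) = fun w => Real.log ‖embL (1, (pt t p w).2 + t)‖ := funext fun w => uu_eq t _
  rw [e]
  exact MQ.contDiffAt_log_norm (an_uu hp h) (embL_one_ne _)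

/-- (R3) -/
theorem norm_gr_uu_le (hp : AnalyticAt ℂ p z) (h : HasSlope p z) : ‖gr (fun w => uu t (pt t p w)) z‖ ≤ ‖deriv (pt t p) z‖ := by
  have e : (fun w => uu t (pt t p w)) = fun w => Real.log ‖embL (1, (pt t p w).2 + t)‖ := funext fun w => uu_eq t _
  have hpt := an_pt (t := t) hp h
  have h1 : HasDerivAt (fun w => ((1 : ℂ), (pt t p w).2 + t)) (0, (deriv (pt t p) z).2) z := by
    have h2 : HasDerivAt (fun w => (pt t p w).2) (deriv (pt t p) z).2 z := by
      have := (Pool.Agent.MQ.an_snd hpt).differentiableAt.hasDerivAt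
      rwa [deriv_snd' hpt.differentiableAt] at this
    exact (hasDerivAt_const z (1 : ℂ)).prodMk (h2.add_const t)
  have h2 : HasDerivAt (fun w => embL (1, (pt t p w).2 + t)) (embL (0, (deriv (pt t p) z).2)) z := embL.hasFDerivAt.comp_hasDerivAt z h1
  rw [e, gr_log_normV h2 (embL_one_ne _), norm_mul, RCLike.norm_conj, Complex.norm_real, Real.norm_of_nonneg (by positivity)]
  have h3 := norm_inner_le_norm (𝕜 := ℂ) (embL (1, (pt t p z).2 + t)) (embL (0, (deriv (pt t p) z).2))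
  have h4 : 1 ≤ ‖embL (1, (pt t p z).2 + t)‖ := by
    refine le_trans ?_ (le_norm_embL _)
    rw [Prod.norm_def]
    exact (le_of_eq norm_one.symm).trans (le_max_left _ _)
  have h5 : ‖embL (0, (deriv (pt t p) z).2)‖ = ‖(deriv (pt t p) z).2‖ := by
    have h6 : ‖embL (0, (deriv (pt t p) z).2)‖ ^ 2 = ‖(deriv (pt t p) z).2‖ ^ 2 := by
      rw [norm_embL_sq]
      simp
    exact (sq_eq_sq₀ (norm_nonneg _) (norm_nonneg _)).1 h6
  have h7 : ‖(deriv (pt t p) z).2‖ ≤ ‖deriv (pt t p) z‖ := norm_snd_le _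
  rw [inv_mul_le_iff₀ (by positivity)]
  refine h3.trans ?_
  rw [h5]
  have h8 : ‖embL (1, (pt t p z).2 + t)‖ ≤ ‖embL (1, (pt t p z).2 + t)‖ ^ 2 := by nlinarith
  exact mul_le_mul h8 h7 (norm_nonneg _) (sq_nonneg _)

theorem norm_slope_le (hz : z ∈ Omt Om p t ρ) : ‖slope p z‖ ≤ ρ + ‖t‖ := by
  have h1 := norm_add_le (slope p z - t) t
  rw [sub_add_cancel] at h1
  have := hz.2.2.2
  linarith

/-- the point is in the ball where `H` is the logarithm -/
theorem mem_ball_of_Omt {ρe : ℝ} (hp : AnalyticAt ℂ p z) (hz : z ∈ Omt Om p t ρ) (h1 : ρ ≤ ρe) (h2 : ρ * (ρ + ‖t‖) ≤ ρe) : p z ∈ ball (0 : ℂ × ℂ) ρe := by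
  have h3 := be_pt hz hp
  have hx := hz.2.2.1
  have hρ : 0 < ρ := lt_of_le_of_lt (norm_nonneg _) hx
  have h4 : (p z).2 = (p z).1 * slope p z := by
    have := congrArg Prod.snd h3
    simp only [be, pt, sub_add_cancel] at this
    exact this.symm
  rw [mem_ball_zero_iff, Prod.norm_def]
  refine max_lt (hx.trans_le h1) ?_
  rw [h4, norm_mul]
  have h5 := norm_slope_le hz
  have h6 : 0 < ρ + ‖t‖ := by positivity
  calc ‖(p z).1‖ * ‖slope p z‖ ≤ ‖(p z).1‖ * (ρ + ‖t‖) := mul_le_mul_of_nonneg_left h5 (norm_nonneg _)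
    _ < ρ * (ρ + ‖t‖) := mul_lt_mul_of_pos_right hx h6
    _ ≤ ρe := h2

/-- `Omt` is a neighbourhood of its points -/
theorem Omt_ev (hOm : IsOpen Om) (hp : AnalyticAt ℂ p z) (hz : z ∈ Omt Om p t ρ) : ∀ᶠ w in 𝓝 z, w ∈ Omt Om p t ρ := by
  obtain ⟨f, hf, -, h3⟩ := exists_slope hp hz.2.1
  have h4 : ContinuousAt (fun w => ‖(p w).1‖) z := (Pool.Agent.MQ.an_fst hp).continuousAt.norm
  have h5 : ContinuousAt (fun w => ‖f w - t‖) z := (hf.continuousAt.sub continuousAt_const).norm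
  have h6 : ‖f z - t‖ < ρ := by
    rw [← h3.self_of_nhds.2]
    exact hz.2.2.2
  filter_upwards [hOm.mem_nhds hz.1, h3, h4.eventually (gt_mem_nhds hz.2.2.1), h5.eventually (gt_mem_nhds h6)] with w w1 w2 w3 w4
  refine ⟨w1, w2.1, w3, ?_⟩
  rw [w2.2]
  exact w4

end

end Pool.Agent.MQ2

end
end
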