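import Pool.Agent.H43.TL2.M43
import Pool.Agent.H43.TL2.M56
import Pool.Agent.H43.TL2.M69

/-! The parts of this file: MQ2.StepU, MQ2.TLoc, MQL.SD0, MQL.SDC. -/

section

/-!
# MQ2 StepU: the function `1/2 log (1 + |slope|²)` in a chart of the blow-up
-/

set_option autoImplicit false

open Topology Filter Metric MeasureTheory Asymptotics Laplacian

noncomputable section

namespace Pool.Agent.MQ2

open Pool.Agent.H36.BP (EN)
open Pool.Agent.H30M (tau LogSing)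
open Pool.Agent.MQ

theorem us_eq (t : ℂ) (p : ℂ → ℂ × ℂ) : us p = fun z => uu t (pt t p z) := by
  funext z
  simp only [us, uu, pt, sub_add_cancel]

/-- The function `u`. -/
theorem us_child {t : ℂ} {v : ℂ × ℂ → ℂ × ℂ} {r ρ B : ℝ} {Om : Set ℂ} {p : ℂ → ℂ × ℂ} {l₁ : ℂ → ℝ} (h : Crv1 v r Om p)
    (hp : ∀ z ∈ Omt Om p t ρ, ‖deriv (pt t p) z‖ ≤ B * l₁ z) : ∀ z ∈ Omt Om p t ρ, ContDiffAt ℝ 2 (us p) z ∧ ‖gr (us p) z‖ ≤ B * l₁ z ∧
      0 ≤ us p z ∧ us p z ≤ Real.log (1 + (‖t‖ + ρ) ^ 2) ∧ ((p z).1 ≠ 0 → Real.log (‖(p z).1‖ ^ 2 + ‖(p z).2‖ ^ 2) / 2 = Real.log ‖(p z).1‖ + us p z) := by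
  intro z hz
  have hpz := h.an z hz.1
  have e := us_eq t p
  refine ⟨?_, ?_, ?_, ?_, fun hx => ?_⟩
  · rw [e]
    exact contDiffAt_uu hpz hz.2.1
  · rw [e]
    exact (norm_gr_uu_le hpz hz.2.1).trans (hp z hz)
  · rw [e]
    exact uu_nonneg _ _
  · have h1 := norm_slope_le hz
    have h2 : 0 ≤ Real.log (1 + ‖slope p z‖ ^ 2) := Real.log_nonneg (by nlinarith [sq_nonneg ‖slope p z‖])
    have h3 : Real.log (1 + ‖slope p z‖ ^ 2) ≤ Real.log (1 + (‖t‖ + ρ) ^ 2) := by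
      refine Real.log_le_log (by positivity) ?_
      have h4 := pow_le_pow_left₀ (norm_nonneg _) h1 2
      rw [add_comm ρ] at h4
      linarith
    unfold us
    linarith
  · have hbe := be_pt hz hpz
    have h4 : (p z).2 = (p z).1 * slope p z := by
      have := congrArg Prod.snd hbe
      simp only [be, pt, sub_add_cancel] at this
      exact this.symm
    exact log_p_eq hx h4

end Pool.Agent.MQ2

end
end

section

/-!
# MQ2 TLoc: from `LocalN1` to `LocX`, with `Φ = 0` and the same density; classes of weights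
-/

set_option autoImplicit false

open Topology Filter Metric MeasureTheory Asymptotics Laplacian

noncomputable section

namespace Pool.Agent.MQ2

open Pool.Agent.H36.BP (EN)
open Pool.Agent.H30M (tau LogSing)
open Pool.Agent.MQ

theorem locX_of_localN1 {v : ℂ × ℂ → ℂ × ℂ} {g J : ℂ × ℂ → ℂ} {Om : Set ℂ} {p : ℂ → ℂ × ℂ} {lm : ℂ → ℝ} {s δ B C₁ : ℝ} (hB : 0 ≤ B) (hC₁ : 0 ≤ C₁)
    (hlc : Continuous lm) (hl0 : ∀ z, 0 ≤ lm z) (hp : ∀ z ∈ Om, ‖deriv p z‖ ≤ B * lm z)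
    (h : LocalN1 v g Om p (fun R => ∫ z, tau R z * lm z ^ 2) (fun R => ∫ z, ‖gr (tau R) z‖ * lm z) s δ)
    (hpt : ∀ z ∈ Om, ztv v p z ≠ 0 → ‖ztv v p z‖ * ‖g (p z)‖ * ‖J (p z)‖ ≤ C₁ * lm z) : LocX v g J Om p lm s 1 δ := by
  obtain ⟨C, η, err, hC, hη, herr, hout, hin, he0, hdv, hint⟩ := h
  have hL : ∀ R : ℝ, 0 ≤ ∫ z, ‖gr (tau R) z‖ * lm z := fun R => integral_nonneg fun z => mul_nonneg (norm_nonneg _) (hl0 z)
  refine ⟨max (C * B) (max C (Real.log (1 + C₁))), lm, η, fun _ => 0, err, le_max_of_le_left (mul_nonneg hC hB), hlc, fun z => le_rfl, fun R _ => ?_, hη, herr,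
    fun z _ => ⟨0, ?_⟩, fun z hz hs => ⟨(hout z hz hs).1, (hout z hz hs).2, rfl⟩, fun z hz hs => ?_, fun z hz _ => ?_, fun z hz _ h1 h2 h3 => ?_, fun R hR => ?_⟩
  · rw [one_mul]
    exact le_add_of_nonneg_right (le_max_of_le_left (mul_nonneg hC hB))
  · refine ⟨fun _ => 0, contDiff_const.contDiffAt, Eventually.of_forall fun w => by simp⟩
  · refine (hin z hz hs).trans ?_
    calc C * ‖deriv p z‖ ≤ C * (B * lm z) := mul_le_mul_of_nonneg_left (hp z hz) hC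
      _ = C * B * lm z := by ring
      _ ≤ _ := mul_le_mul_of_nonneg_right (le_max_left _ _) (hl0 z)
  · have h0 : Δ (fun _ : ℂ => (0 : ℝ)) z = 0 := by
      rw [InnerProductSpace.laplacian_const]
      rfl
    rw [h0, add_zero]
    exact hdv z hz
  · have h4 := hpt z hz h1
    have h5 : Real.log ‖ztv v p z‖ + Real.log ‖g (p z)‖ + Real.log ‖J (p z)‖ = Real.log (‖ztv v p z‖ * ‖g (p z)‖ * ‖J (p z)‖) := by
      rw [Real.log_mul (mul_ne_zero (norm_ne_zero_iff.2 h1) (norm_ne_zero_iff.2 h2)) (norm_ne_zero_iff.2 h3), Real.log_mul (norm_ne_zero_iff.2 h1) (norm_ne_zero_iff.2 h2)]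
    rw [h5, add_zero]
    have h6 : 0 < ‖ztv v p z‖ * ‖g (p z)‖ * ‖J (p z)‖ :=
      mul_pos (mul_pos (norm_pos_iff.2 h1) (norm_pos_iff.2 h2)) (norm_pos_iff.2 h3)
    have h7 : C₁ * lm z ≤ (1 + C₁) * (1 + lm z) := by nlinarith [hl0 z]
    calc Real.log (‖ztv v p z‖ * ‖g (p z)‖ * ‖J (p z)‖) ≤ Real.log ((1 + C₁) * (1 + lm z)) := Real.log_le_log h6 (h4.trans h7)
      _ = Real.log (1 + C₁) + Real.log (1 + lm z) := Real.log_mul (by linarith) (by linarith [hl0 z])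
      _ ≤ _ := by gcongr; exact (le_max_right _ _).trans (le_max_right _ _)
  · refine (hint R hR).trans ?_
    have h1 : C ≤ max (C * B) (max C (Real.log (1 + C₁))) := (le_max_left _ _).trans (le_max_right _ _)
    have h2 := mul_le_mul_of_nonneg_right h1 (hL R)
    simp only at h2 ⊢
    linarith

/-! ### classes of weights -/

theorem good_of_wt {v : ℂ × ℂ → ℂ × ℂ} {P P' : (ℂ × ℂ → ℂ) → (ℂ × ℂ → ℂ) → Prop} (h : Good P' v)
    (hP : ∀ g J, P g J → Wt v g → AnalyticAt ℂ J 0 → P' g J) : Good P v := by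
  obtain ⟨m, c, hc, h1⟩ := h
  exact ⟨m, c, hc, fun g J hg hw hJ => h1 g J (hP g J hg hw hJ) hw hJ⟩

theorem good_or {v : ℂ × ℂ → ℂ × ℂ} {P P' : (ℂ × ℂ → ℂ) → (ℂ × ℂ → ℂ) → Prop} (h : Good P v) (h' : Good P' v) :
    Good (fun g J => P g J ∨ P' g J) v := by
  obtain ⟨m, c, hc, h1⟩ := h
  obtain ⟨m', c', hc', h1'⟩ := h'
  refine ⟨m + m', Fin.append c c', ?_, ?_⟩
  · intro i
    refine Fin.addCases (fun i => ?_) (fun i => ?_) i
    · rw [Fin.append_left]; exact hc i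
    · rw [Fin.append_right]; exact hc' i
  · intro g J hg hw hJ
    rcases hg with hg | hg
    · filter_upwards [h1 g J hg hw hJ] with r hr s hs hsr B hB
      obtain ⟨A, C₀, hA, hC₀, h2⟩ := hr s hs hsr B hB
      refine ⟨A, C₀, hA, hC₀, fun d n q ψ hd hn hq hψ hi => h2 d n q ψ hd hn hq hψ fun i => ?_⟩
      have := hi (Fin.castAdd m' i)
      rwa [Fin.append_left] at this
    · filter_upwards [h1' g J hg hw hJ] with r hr s hs hsr B hB
      obtain ⟨A, C₀, hA, hC₀, h2⟩ := hr s hs hsr B hB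
      refine ⟨A, C₀, hA, hC₀, fun d n q ψ hd hn hq hψ hi => h2 d n q ψ hd hn hq hψ fun i => ?_⟩
      have := hi (Fin.natAdd m i)
      rwa [Fin.append_right] at this

end Pool.Agent.MQ2

end
end

section

/-!
# MQL SD0: the definitions for the blow-up step (logarithmic version)

`Rt`: the root densities are bounded by `l₁`.  `DirD`: the package of one chart (`O Om p`, with the core `K Om p`) for all curves `p` which avoid the axes with a
negative exponent.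
-/

set_option autoImplicit false

open Topology Filter Metric MeasureTheory Asymptotics Laplacian

noncomputable section

namespace Pool.Agent.MQL

open Pool.Agent.H36.BP (EN)
open Pool.Agent.H30M (tau LogSing)
open Pool.Agent.MQ Pool.Agent.MQ2

/-- the root densities are bounded by `l₁` -/
def Rt (al be : ℝ) (Om : Set ℂ) (p : ℂ → ℂ × ℂ) (s : ℝ) (l₁ : ℂ → ℝ) : Prop :=
  ∀ z ∈ Om, p z ∈ closedBall (0 : ℂ × ℂ) s →
    (al < 0 → ‖(deriv p z).1‖ * ‖(p z).1‖ ^ al ≤ l₁ z) ∧ (be < 0 → ‖(deriv p z).2‖ * ‖(p z).2‖ ^ be ≤ l₁ z)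

/-- **The package of a chart.** -/
def DirD (al be : ℝ) (v : ℂ × ℂ → ℂ × ℂ) (g : ℂ × ℂ → ℂ) (N r : ℝ) (Con : ℕ → (ℂ × ℂ → ℂ) → Prop) (re B A C₀ : ℝ)
    (O K : Set ℂ → (ℂ → ℂ × ℂ) → Set ℂ) : Prop :=
  ∀ (d n : ℕ) (q : ℂ × ℂ → ℂ) (ψ : ℂ × ℂ → ℝ), 1 ≤ d → 1 ≤ n → AnalyticAt ℂ q 0 → ContDiffAt ℝ 1 ψ 0 → Con n q →
    ∀ (M : ℕ) (F : ℂ → EN M) (Q : ℂ → ℂ) (lm : ℂ → ℝ) (Om : Set ℂ) (p : ℂ → ℂ × ℂ), Dat v g r B d q ψ F Q lm Om p → Avoid al be Om p →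
      ∀ ell : ℂ → ℝ, EllP Om p re ell → ∀ l₁ : ℂ → ℝ, Continuous l₁ → (∀ z, lm z ≤ l₁ z) → EnB Om p re l₁ → Rt al be Om p re l₁ →
        ∃ (C : ℝ) (l : ℂ → ℝ) (η D X : ℂ → ℂ) (Φ err u : ℂ → ℝ), 0 ≤ C ∧ Continuous l ∧ (∀ z, l₁ z ≤ l z) ∧
          (∀ R, 1 ≤ R → ∫ z, tau R z * l z ^ 2 ≤ A * (∫ z, tau R z * l₁ z ^ 2) + C) ∧
          Cht (DDv v g p) ell (LL v g (JD al be) p) (VV v g (JD al be) Om p) N l C (O Om p) (K Om p) η D X Φ err u ∧
          ∀ R, 1 ≤ R → ∫ z in O Om p, tau R z * err z ≤ C₀ * d / n * (∫ z, tau R z * l₁ z ^ 2) + C * (∫ z, ‖gr (tau R) z‖ * l z) + C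

end Pool.Agent.MQL

end
end

section

/-!
# MQL SDC: the Jacobian factor and the axes in the chart at the direction `t`
-/

set_option autoImplicit false

open Topology Filter Metric MeasureTheory Asymptotics Laplacian

noncomputable section

namespace Pool.Agent.MQL

open Pool.Agent.H36.BP (EN)
open Pool.Agent.H30M (tau LogSing)
open Pool.Agent.MQ Pool.Agent.MQ2

private theorem SDC_norm (al be : ℝ) (p : ℂ × ℂ) : ‖JD al be p‖ = ‖p.1‖ ^ al * ‖p.2‖ ^ be := by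
  unfold JD
  rw [Complex.norm_real, Real.norm_eq_abs, abs_of_nonneg (by positivity)]

private theorem SDC_rpow {a b y be : ℝ} (ha : 0 < a) (h1 : a ≤ y) (h2 : y ≤ b) : y ^ be ≤ a ^ be + b ^ be := by
  have hy : 0 < y := ha.trans_le h1
  have hb : 0 < b := hy.trans_le h2
  rcases le_total 0 be with h | h
  · have := Real.rpow_le_rpow hy.le h2 h
    have := Real.rpow_nonneg ha.le be
    linarith
  · have := Real.rpow_le_rpow_of_nonpos ha h1 h
    have := Real.rpow_nonneg hb.le be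
    linarith

/-- the product of the Jacobian factors, `y = x s` -/
theorem jd_mul (al be : ℝ) {x : ℂ} (hx : x ≠ 0) (s : ℂ) : ‖x‖ * ‖JD al be (x, x * s)‖ = ‖x‖ ^ (1 + al + be) * ‖s‖ ^ be := by
  have h0 : 0 < ‖x‖ := norm_pos_iff.2 hx
  rw [SDC_norm]
  simp only
  rw [norm_mul, Real.mul_rpow h0.le (norm_nonneg _), Real.rpow_add h0, Real.rpow_add h0, Real.rpow_one]
  ring

/-- the Jacobian factor of the chart at `t` -/
theorem jd_child (al be : ℝ) (t : ℂ) : ∃ K : ℝ, 1 ≤ K ∧ ∀ᶠ ρ in 𝓝[>] (0 : ℝ), ∀ x s : ℂ, x ≠ 0 → ‖s - t‖ < ρ →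
    ‖x‖ * ‖JD al be (x, x * s)‖ ≤ K * ‖JD (1 + al + be) (if t = 0 then be else 0) (x, s - t)‖ := by
  by_cases ht : t = 0
  · refine ⟨1, le_rfl, Eventually.of_forall fun ρ x s hx _ => ?_⟩
    rw [jd_mul al be hx, if_pos ht, ht, sub_zero, one_mul, SDC_norm]
  · have ht0 : 0 < ‖t‖ := norm_pos_iff.2 ht
    refine ⟨max 1 ((‖t‖ / 2) ^ be + (2 * ‖t‖) ^ be), le_max_left _ _, ?_⟩
    filter_upwards [mem_nhdsWithin_of_mem_nhds (Iio_mem_nhds (half_pos ht0))] with ρ hρ x s hx hs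
    have hρ' : ρ < ‖t‖ / 2 := hρ
    rw [jd_mul al be hx, if_neg ht, SDC_norm, Real.rpow_zero, mul_one, mul_comm]
    refine mul_le_mul_of_nonneg_right ?_ (Real.rpow_nonneg (norm_nonneg _) _)
    refine (SDC_rpow (half_pos ht0) ?_ ?_).trans (le_max_right _ _)
    · have h1 : ‖t‖ ≤ ‖s‖ + ‖s - t‖ := by
        have h2 : t = s - (s - t) := by ring
        calc ‖t‖ = ‖s - (s - t)‖ := by rw [← h2]
          _ ≤ ‖s‖ + ‖s - t‖ := norm_sub_le _ _
      linarith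
    · have h1 : ‖s‖ ≤ ‖s - t‖ + ‖t‖ := by
        have h2 := norm_add_le (s - t) t
        rwa [sub_add_cancel] at h2
      linarith

/-- the curve of the chart avoids the axes with a negative exponent -/
theorem avoid_child {al be : ℝ} (hal : -1 < al) (hbe : -1 < be) {t : ℂ} {ρ : ℝ} {Om : Set ℂ} {p : ℂ → ℂ × ℂ} (hp : ∀ z ∈ Om, AnalyticAt ℂ p z)
    (h : Avoid al be Om p) : Avoid (1 + al + be) (if t = 0 then be else 0) (Omt Om p t ρ) (pt t p) where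
  fst := fun hk z hz => h.fst (by linarith) z hz.1
  snd := by
    intro hb z hz
    by_cases ht : t = 0
    · rw [if_pos ht] at hb
      have h1 := h.snd hb z hz.1
      have h2 : (p z).2 = (p z).1 * MQ2.slope p z := (hz.2.1.eq (hp z hz.1)).self_of_nhds
      intro h3
      apply h1
      have h4 : MQ2.slope p z - t = 0 := h3
      rw [ht, sub_zero] at h4
      rw [h2, h4, mul_zero]
    · rw [if_neg ht] at hb
      exact absurd hb (lt_irrefl _)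

/-- the relations for the Jacobian factor -/
theorem rel_jd {al be : ℝ} {e ι m : ℕ} {t : ℂ} {v w : ℂ × ℂ → ℂ × ℂ} {g g' : ℂ × ℂ → ℂ} {p : ℂ → ℂ × ℂ} {z : ℂ} {Om : Set ℂ}
    (hrel : z ∈ VV v g (fun _ => 1) Om p → (p z).1 ≠ 0 ∧ ztv w (pt t p) z ≠ 0 ∧ gt ι g' (pt t p z) ≠ 0 ∧ Jt t (fun _ => 1) (pt t p z) ≠ 0 ∧
      LL v g (fun _ => 1) p z + ((e : ℝ) + 1 + ι - m) * Real.log ‖(p z).1‖ = LL w (gt ι g') (Jt t fun _ => 1) (pt t p) z)
    (hV : z ∈ VV v g (JD al be) Om p) : (p z).1 ≠ 0 ∧ ztv w (pt t p) z ≠ 0 ∧ gt ι g' (pt t p z) ≠ 0 ∧ JD al be (p z) ≠ 0 ∧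
      LL v g (JD al be) p z + ((e : ℝ) + 1 + ι - m) * Real.log ‖(p z).1‖ =
        Real.log ‖ztv w (pt t p) z‖ + Real.log ‖gt ι g' (pt t p z)‖ + Real.log (‖(p z).1‖ * ‖JD al be (p z)‖) := by
  obtain ⟨h1, h2, h3, h4⟩ := hV
  obtain ⟨a1, a2, a3, a4, a5⟩ := hrel ⟨h1, h2, h3, one_ne_zero⟩
  refine ⟨a1, a2, a3, h4, ?_⟩
  unfold LL Jt at a5
  have hxp : (pt t p z).1 = (p z).1 := rfl
  rw [norm_one, Real.log_one, mul_one, hxp] at a5
  unfold LL
  rw [Real.log_mul (norm_ne_zero_iff.2 a1) (norm_ne_zero_iff.2 h4)]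
  linarith

end Pool.Agent.MQL

end
end
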