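import Pool.Agent.H43.TL2.M28
import Pool.Agent.H43.TL2.M33
import Pool.Agent.H43.TL2.M35
import Pool.Agent.H43.TL2.M36
import Pool.Agent.H43.TL2.M39
import Pool.Agent.H43.TL2.M40
import Pool.Agent.H43.TL2.M49
import Pool.Agent.H43.TL2.M71

/-! The parts of this file: H36.BPB.ExtB, H36.BPB.ExtD, H36.BPB.Lim, MQ2.WtN. -/

section

/-!
# BPB (port) ExtB: comparison on annuli

`g, b` from `annulus_approx` for `φ = c₀ log|F|`, `ε = 1`.  `w = Re g + b log|z|`.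
(a) for `δ > 0` the function `|F|^(c₀) exp(-w) exp(δ|z|²)` has `Sub` exponent `≥ δ > 0` (`norm_rpow`; `exp(-Re g)|z|^(-b)` is locally the absolute value of a holomorphic function) and is continuous; on both circles it is
`≤ e exp(δ)`; let `δ → 0`.
(b) `u = mt G F |F|^(-c₀) (log 1/|z|)^(-C') |z| exp(w)`, `C' = 4 C L² + 1`: exponent `≥ -C L²/(|z|² log²) + C'/(4|z|² log²) > 0` where `u > 0`.  On the circles `u ≤ e mt G F (log 1/|z|)^(-C') |z| ≤ e L (log 1/|z|)^(-C'-1)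
≤ e L (log 1/r₁)^(-C'-1)`.  (`u` is upper semicontinuous on the closed annulus: `mt_usc` times a continuous nonnegative function.)
-/

set_option autoImplicit false

namespace Pool.Agent.H36.BPB

open Filter Topology Metric
open Pool.Agent.H36.BP

variable {N : ℕ}

variable {K B : Set (EN N)} {G : EN N → EN N → ℝ} {ρ : EN N → ℝ} {M : ℕ} {c₀ C : ℝ}

/-- product of a nonnegative upper semicontinuous function and a nonnegative continuous function -/
private theorem extB_usc_mul {α : Type*} [TopologicalSpace α] {S : Set α} {u k : α → ℝ} (hu : UpperSemicontinuousOn u S)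
    (hk : ContinuousOn k S) (hu0 : ∀ x ∈ S, 0 ≤ u x) (hk0 : ∀ x ∈ S, 0 ≤ k x) :
    UpperSemicontinuousOn (fun x => u x * k x) S := by
  intro x hx y hy
  have ht : Tendsto (fun ε : ℝ => (u x + ε) * (k x + ε)) (𝓝[>] 0) (𝓝 ((u x + 0) * (k x + 0))) := by
    apply tendsto_nhdsWithin_of_tendsto_nhds
    have hc : Continuous (fun ε : ℝ => (u x + ε) * (k x + ε)) := by fun_prop
    exact hc.tendsto 0
  have hy' : (u x + 0) * (k x + 0) < y := by simpa using hy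
  obtain ⟨ε, hε1, hε2⟩ := ((ht.eventually_lt_const hy').and self_mem_nhdsWithin).exists
  have hε : (0 : ℝ) < ε := hε2
  have h1 : ∀ᶠ x' in 𝓝[S] x, u x' < u x + ε := hu x hx _ (by linarith)
  have h2 : ∀ᶠ x' in 𝓝[S] x, k x' < k x + ε := (hk x hx).eventually_lt_const (by linarith)
  filter_upwards [h1, h2, self_mem_nhdsWithin] with x' h1' h2' hx'
  refine lt_of_le_of_lt ?_ hε1
  exact mul_le_mul h1'.le h2'.le (hk0 x' hx') (by linarith [hu0 x hx])

/-- `exp (t (Re g + b log|z|))` is locally the absolute value of a holomorphic function -/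
private theorem extB_sub_exp {g : ℂ → ℂ} (hg : DifferentiableOn ℂ g {0}ᶜ) (b t : ℝ) {z₀ : ℂ} (hz₀ : z₀ ≠ 0) :
    Sub (fun z => Real.exp (t * ((g z).re + b * Real.log ‖z‖))) z₀ 0 := by
  have hga : AnalyticAt ℂ g z₀ := hg.analyticAt (isOpen_compl_singleton.mem_nhds hz₀)
  set k : ℂ → ℂ := fun z => Complex.exp ((t : ℂ) * (g z + (b : ℂ) * (Complex.log (z / z₀) + (Real.log ‖z₀‖ : ℂ)))) with hk
  have hlog : AnalyticAt ℂ (fun z : ℂ => Complex.log (z / z₀)) z₀ := by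
    have h1 : AnalyticAt ℂ (fun z : ℂ => z / z₀) z₀ := by fun_prop
    refine AnalyticAt.clog h1 ?_
    simp [div_self hz₀]
  have hka : AnalyticAt ℂ k z₀ := by
    refine AnalyticAt.cexp ?_
    exact analyticAt_const.mul (hga.add (analyticAt_const.mul (hlog.add analyticAt_const)))
  have hk0 : k z₀ ≠ 0 := Complex.exp_ne_zero _
  refine (Sub.of_holo hka hk0).congr ?_
  filter_upwards [isOpen_compl_singleton.mem_nhds hz₀] with z hz
  have hz' : z ≠ 0 := hz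
  rw [hk]
  simp only
  rw [Complex.norm_exp]
  congr 1
  have h1 : (Complex.log (z / z₀)).re = Real.log ‖z‖ - Real.log ‖z₀‖ := by
    rw [Complex.log_re, norm_div, Real.log_div (norm_ne_zero_iff.mpr hz') (norm_ne_zero_iff.mpr hz₀)]
  rw [Complex.re_ofReal_mul, Complex.add_re, Complex.re_ofReal_mul, Complex.add_re, h1, Complex.ofReal_re]
  ring

theorem annulus_bounds (hM : MD K B G ρ M c₀ C) {L : ℝ} (hL : 0 < L) {F : ℂ → EN N} (hF : Curve K (ball 0 1 \ {0}) F)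
    (hgr : ∀ z : ℂ, z ≠ 0 → ‖z‖ < 1 → mt G F z * (‖z‖ * Real.log (1 / ‖z‖)) ≤ L) {r r₁ : ℝ} (hr : 0 < r) (hr1 : r < r₁) (hr2 : r₁ < 1) :
    ∃ (g : ℂ → ℂ) (b : ℝ), DifferentiableOn ℂ g {0}ᶜ ∧
      ∀ z : ℂ, r ≤ ‖z‖ → ‖z‖ ≤ r₁ → ‖F z‖ ^ c₀ ≤ Real.exp 1 * Real.exp ((g z).re + b * Real.log ‖z‖) ∧
        mt G F z * Real.log (1 / ‖z‖) ^ (-(4 * C * L ^ 2 + 1)) * ‖z‖ * Real.exp ((g z).re + b * Real.log ‖z‖) ≤
          Real.exp 1 * L * Real.log (1 / r₁) ^ (-(4 * C * L ^ 2 + 2)) * ‖F z‖ ^ c₀ := by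
  have hopen : IsOpen (ball (0 : ℂ) 1 \ {0}) := isOpen_ball.sdiff isClosed_singleton
  set S : Set ℂ := {z | r ≤ ‖z‖ ∧ ‖z‖ ≤ r₁} with hS
  set U : Set ℂ := {z | r < ‖z‖ ∧ ‖z‖ < r₁} with hU
  have hr10 : 0 < r₁ := hr.trans hr1
  have hSc : IsCompact S := by
    refine (isCompact_closedBall (0 : ℂ) r₁).of_isClosed_subset ?_ ?_
    · exact (isClosed_le continuous_const continuous_norm).inter (isClosed_le continuous_norm continuous_const)
    · intro z hz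
      simpa using hz.2
  have hUo : IsOpen U := (isOpen_lt continuous_const continuous_norm).inter (isOpen_lt continuous_norm continuous_const)
  have hUS : U ⊆ S := fun z hz => ⟨hz.1.le, hz.2.le⟩
  have hSsub : S ⊆ ball (0 : ℂ) 1 \ {0} := by
    intro z hz
    refine ⟨?_, ?_⟩
    · rw [mem_ball_zero_iff]; exact lt_of_le_of_lt hz.2 hr2
    · rintro rfl
      have := hz.1
      rw [norm_zero] at this
      linarith
  have hSsph : S \ U ⊆ sphere (0 : ℂ) r ∪ sphere (0 : ℂ) r₁ := by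
    intro z hz
    have h1 := hz.1
    have h2 : ¬ (r < ‖z‖ ∧ ‖z‖ < r₁) := hz.2
    rcases h1.1.lt_or_eq with h | h
    · right
      rw [mem_sphere_zero_iff_norm]
      by_contra hne
      exact h2 ⟨h, lt_of_le_of_ne h1.2 hne⟩
    · left
      rw [mem_sphere_zero_iff_norm, h]
  have hsphS : sphere (0 : ℂ) r ∪ sphere (0 : ℂ) r₁ ⊆ S := by
    rintro z (hz | hz)
    · rw [mem_sphere_zero_iff_norm] at hz
      exact ⟨hz.ge, by rw [hz]; exact hr1.le⟩
    · rw [mem_sphere_zero_iff_norm] at hz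
      exact ⟨by rw [hz]; exact hr1.le, hz.le⟩
  have hFK : ∀ z ∈ ball (0 : ℂ) 1 \ {0}, F z ∈ K := hF.2
  have hF0 : ∀ z ∈ ball (0 : ℂ) 1 \ {0}, F z ≠ 0 := fun z hz => hM.ne _ (hFK z hz)
  have hFn : ∀ z ∈ ball (0 : ℂ) 1 \ {0}, 0 < ‖F z‖ := fun z hz => norm_pos_iff.mpr (hF0 z hz)
  have hFc : ContinuousOn F S := hF.1.continuousOn.mono hSsub
  have hFa : ∀ z ∈ ball (0 : ℂ) 1 \ {0}, AnalyticAt ℂ F z := fun z hz => hF.1.analyticAt (hopen.mem_nhds hz)
  obtain ⟨g, b, hg, hgb⟩ := annulus_approx hr hr1 (fun z => c₀ * Real.log ‖F z‖)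
    (by
      refine ContinuousOn.mul continuousOn_const (ContinuousOn.log (hFc.mono hsphS).norm ?_)
      intro z hz
      exact (hFn z (hSsub (hsphS hz))).ne') (ε := 1) one_pos
  set w : ℂ → ℝ := fun z => (g z).re + b * Real.log ‖z‖ with hw
  have hwc : ContinuousOn w S := by
    have h1 : ContinuousOn g S := hg.continuousOn.mono fun z hz => (hSsub hz).2
    refine (Complex.continuous_re.comp_continuousOn h1).add (continuousOn_const.mul
      (ContinuousOn.log continuous_norm.continuousOn ?_))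
    intro z hz
    exact norm_ne_zero_iff.mpr (hSsub hz).2
  have hlogF : ∀ z ∈ ball (0 : ℂ) 1 \ {0}, ‖F z‖ ^ c₀ = Real.exp (c₀ * Real.log ‖F z‖) := by
    intro z hz
    rw [Real.rpow_def_of_pos (hFn z hz), mul_comm]
  have hlogF' : ∀ z ∈ ball (0 : ℂ) 1 \ {0}, ‖F z‖ ^ (-c₀) = Real.exp (-(c₀ * Real.log ‖F z‖)) := by
    intro z hz
    rw [Real.rpow_def_of_pos (hFn z hz)]
    congr 1
    ring
  have hsph1 : ∀ z ∈ S \ U, ‖F z‖ ^ c₀ * Real.exp (-(w z)) ≤ Real.exp 1 := by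
    intro z hz
    rw [hlogF z (hSsub hz.1), ← Real.exp_add, Real.exp_le_exp]
    have := (abs_le.mp (hgb z (hSsph hz))).1
    have hwz : w z = (g z).re + b * Real.log ‖z‖ := rfl
    rw [hwz]
    linarith
  have hsph2 : ∀ z ∈ S \ U, ‖F z‖ ^ (-c₀) * Real.exp (w z) ≤ Real.exp 1 := by
    intro z hz
    rw [hlogF' z (hSsub hz.1), ← Real.exp_add, Real.exp_le_exp]
    have := (abs_le.mp (hgb z (hSsph hz))).2
    have hwz : w z = (g z).re + b * Real.log ‖z‖ := rfl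
    rw [hwz]
    linarith
  -- part (a)
  have hA : ∀ δ : ℝ, 0 < δ → ∀ z ∈ S, ‖F z‖ ^ c₀ * Real.exp (-(w z)) * Real.exp (δ * ‖z‖ ^ 2) ≤ Real.exp 1 * Real.exp δ := by
    intro δ hδ
    refine max_principle hSc hUo hUS ?_ ?_ (by positivity) ?_
    · refine ContinuousOn.upperSemicontinuousOn ?_
      refine ContinuousOn.mul (ContinuousOn.mul ?_ ?_) (by fun_prop)
      · refine ContinuousOn.rpow_const hFc.norm ?_
        intro z hz
        exact Or.inl (hFn z (hSsub hz)).ne'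
      · exact Real.continuous_exp.comp_continuousOn hwc.neg
    · intro z hz _
      have hz' := hSsub (hUS hz)
      refine ⟨c₀ * fs (F z) (deriv F z) ^ 2 / 2 + 0 + δ, ?_, ?_⟩
      · have := hM.c₀_pos
        positivity
      · have h1 := Sub.norm_rpow (hFa z hz') (hF0 z hz') c₀
        have h2 := extB_sub_exp hg b (-1) (z₀ := z) hz'.2
        have h3 := Sub.exp_sq (t := fun z : ℂ => z) (z₀ := z) analyticAt_id δ
        have h4 : (δ * ‖deriv (fun z : ℂ => z) z‖ ^ 2) = δ := by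
          rw [deriv_id'']
          simp
        rw [h4] at h3
        refine ((h1.mul h2).mul h3).congr (Eventually.of_forall fun y => ?_)
        simp only [hw]
        rw [neg_one_mul]
    · intro z hz
      refine mul_le_mul (hsph1 z hz) ?_ (by positivity) (by positivity)
      rw [Real.exp_le_exp]
      have h1 : ‖z‖ ≤ 1 := (hz.1.2.trans_lt hr2).le
      have h2 : ‖z‖ ^ 2 ≤ 1 := by nlinarith [norm_nonneg z]
      nlinarith
  have hA' : ∀ z ∈ S, ‖F z‖ ^ c₀ * Real.exp (-(w z)) ≤ Real.exp 1 := by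
    intro z hz
    have ht : Tendsto (fun δ : ℝ => Real.exp 1 * Real.exp δ) (𝓝[>] 0) (𝓝 (Real.exp 1 * Real.exp 0)) := by
      apply tendsto_nhdsWithin_of_tendsto_nhds
      have hc : Continuous (fun δ : ℝ => Real.exp 1 * Real.exp δ) := by fun_prop
      exact hc.tendsto 0
    rw [Real.exp_zero, mul_one] at ht
    refine ge_of_tendsto ht ?_
    filter_upwards [self_mem_nhdsWithin] with δ hδ
    have hδ' : (0 : ℝ) < δ := hδ
    refine le_trans ?_ (hA δ hδ' z hz)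
    refine le_mul_of_one_le_right (by positivity) ?_
    exact Real.one_le_exp (by positivity)
  -- part (b)
  have hC := hM.C_nonneg
  set C' : ℝ := 4 * C * L ^ 2 + 1 with hC'
  have hC'0 : 0 < C' := by rw [hC']; positivity
  have hlog1 : 0 < Real.log (1 / r₁) := Real.log_pos (by rw [lt_div_iff₀ hr10]; linarith)
  have hlogz : ∀ z ∈ S, Real.log (1 / r₁) ≤ Real.log (1 / ‖z‖) := by
    intro z hz
    have hz0 : 0 < ‖z‖ := hr.trans_le hz.1
    exact Real.log_le_log (by positivity) (one_div_le_one_div_of_le hz0 hz.2)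
  have hB : ∀ z ∈ S, mt G F z * (‖F z‖ ^ (-c₀) * Real.log (1 / ‖z‖) ^ (-C') * ‖z‖ * Real.exp (w z)) ≤
      Real.exp 1 * L * Real.log (1 / r₁) ^ (-(C' + 1)) := by
    refine max_principle hSc hUo hUS ?_ ?_ (by positivity) ?_
    · refine extB_usc_mul ((mt_usc hM hopen hF).mono hSsub) ?_ ?_ ?_
      · refine ContinuousOn.mul (ContinuousOn.mul (ContinuousOn.mul ?_ ?_) (by fun_prop)) ?_
        · refine ContinuousOn.rpow_const hFc.norm ?_
          intro z hz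
          exact Or.inl (hFn z (hSsub hz)).ne'
        · refine ContinuousOn.rpow_const ?_ ?_
          · refine ContinuousOn.log ?_ ?_
            · refine ContinuousOn.div continuousOn_const continuous_norm.continuousOn ?_
              intro z hz
              exact norm_ne_zero_iff.mpr (hSsub hz).2
            · intro z hz
              have hz0 : 0 < ‖z‖ := hr.trans_le hz.1
              positivity
          · intro z hz
            exact Or.inl (hlog1.trans_le (hlogz z hz)).ne'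
        · exact Real.continuous_exp.comp_continuousOn hwc
      · intro z hz
        exact mt_nonneg hM (hFK z (hSsub hz))
      · intro z hz
        have h1 := hlog1.trans_le (hlogz z hz)
        have h2 := hFn z (hSsub hz)
        positivity
    · intro z hz hpos
      have hzS := hUS hz
      have hz' := hSsub hzS
      have hz0 : 0 < ‖z‖ := hr.trans_le hzS.1
      have hz1 : ‖z‖ < 1 := hzS.2.trans_lt hr2
      have hl := hlog1.trans_le (hlogz z hzS)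
      have hmt0 : 0 ≤ mt G F z := mt_nonneg hM (hFK z hz')
      have hmtpos : 0 < mt G F z := by
        rcases hmt0.lt_or_eq with h | h
        · exact h
        · rw [← h, zero_mul] at hpos
          exact absurd hpos (lt_irrefl _)
      have h1 := hM.sub F z (hFa z hz') (by
        filter_upwards [hopen.mem_nhds hz'] with y hy
        exact hFK y hy) hmtpos
      have h2 := Sub.log_rpow (z₀ := z) hz'.2 hz1 hC'0.le
      have h3 := Sub.of_holo (h := fun z : ℂ => z) (z₀ := z) analyticAt_id hz'.2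
      have h4 := extB_sub_exp hg b 1 (z₀ := z) hz'.2
      refine ⟨_, ?_, (((h1.mul h2).mul h3).mul h4).congr (Eventually.of_forall fun y => ?_)⟩
      · rw [add_zero, add_zero]
        have hmtL : mt G F z ≤ L / (‖z‖ * Real.log (1 / ‖z‖)) := by
          rw [le_div_iff₀ (by positivity)]
          exact hgr z hz'.2 hz1
        have hsq : mt G F z ^ 2 ≤ L ^ 2 / (‖z‖ ^ 2 * Real.log (1 / ‖z‖) ^ 2) := by
          calc mt G F z ^ 2 ≤ (L / (‖z‖ * Real.log (1 / ‖z‖))) ^ 2 := pow_le_pow_left₀ hmt0 hmtL 2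
            _ = L ^ 2 / (‖z‖ ^ 2 * Real.log (1 / ‖z‖) ^ 2) := by rw [div_pow, mul_pow]
        have h5 : C * mt G F z ^ 2 ≤ C * (L ^ 2 / (‖z‖ ^ 2 * Real.log (1 / ‖z‖) ^ 2)) :=
          mul_le_mul_of_nonneg_left hsq hC
        have h6 : C' / (4 * ‖z‖ ^ 2 * Real.log (1 / ‖z‖) ^ 2) =
            C * (L ^ 2 / (‖z‖ ^ 2 * Real.log (1 / ‖z‖) ^ 2)) + 1 / (4 * ‖z‖ ^ 2 * Real.log (1 / ‖z‖) ^ 2) := by
          rw [hC']
          field_simp
        rw [h6]
        have h7 : 0 < 1 / (4 * ‖z‖ ^ 2 * Real.log (1 / ‖z‖) ^ 2) := by positivity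
        linarith
      · simp only [hw]
        rw [one_mul]
        ring
    · intro z hz
      have hzS := hz.1
      have hz' := hSsub hzS
      have hz0 : 0 < ‖z‖ := hr.trans_le hzS.1
      have hz1 : ‖z‖ < 1 := hzS.2.trans_lt hr2
      have hl := hlog1.trans_le (hlogz z hzS)
      have hmt0 : 0 ≤ mt G F z := mt_nonneg hM (hFK z hz')
      have h1 : Real.log (1 / ‖z‖) ^ (-C') = Real.log (1 / ‖z‖) * Real.log (1 / ‖z‖) ^ (-(C' + 1)) := by
        have : (-C') = 1 + (-(C' + 1)) := by ring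
        rw [this, Real.rpow_add hl, Real.rpow_one]
      have h2 : Real.log (1 / ‖z‖) ^ (-(C' + 1)) ≤ Real.log (1 / r₁) ^ (-(C' + 1)) :=
        Real.rpow_le_rpow_of_nonpos hlog1 (hlogz z hzS) (by linarith)
      have h3 := hgr z hz'.2 hz1
      have h4 := hsph2 z hz
      have h5 : 0 ≤ Real.log (1 / ‖z‖) ^ (-(C' + 1)) := Real.rpow_nonneg hl.le _
      have h6 : 0 ≤ ‖F z‖ ^ (-c₀) * Real.exp (w z) := by
        have := hFn z hz'
        positivity
      calc mt G F z * (‖F z‖ ^ (-c₀) * Real.log (1 / ‖z‖) ^ (-C') * ‖z‖ * Real.exp (w z))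
          = (mt G F z * (‖z‖ * Real.log (1 / ‖z‖))) * (‖F z‖ ^ (-c₀) * Real.exp (w z)) *
            Real.log (1 / ‖z‖) ^ (-(C' + 1)) := by rw [h1]; ring
        _ ≤ L * Real.exp 1 * Real.log (1 / r₁) ^ (-(C' + 1)) := by
          refine mul_le_mul (mul_le_mul h3 h4 h6 hL.le) h2 h5 (by positivity)
        _ = Real.exp 1 * L * Real.log (1 / r₁) ^ (-(C' + 1)) := by ring
  refine ⟨g, b, hg, fun z hz1 hz2 => ?_⟩
  have hzS : z ∈ S := ⟨hz1, hz2⟩
  have hz' := hSsub hzS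
  constructor
  · have h1 := hA' z hzS
    have h2 : ‖F z‖ ^ c₀ = ‖F z‖ ^ c₀ * Real.exp (-(w z)) * Real.exp (w z) := by
      rw [mul_assoc, ← Real.exp_add]
      simp
    rw [h2]
    exact mul_le_mul_of_nonneg_right h1 (Real.exp_nonneg _)
  · have h1 := hB z hzS
    have h2 : ‖F z‖ ^ (-c₀) * ‖F z‖ ^ c₀ = 1 := by
      rw [← Real.rpow_add (hFn z hz')]
      simp
    have h3 : (4 * C * L ^ 2 + 2) = C' + 1 := by rw [hC']; ring
    rw [h3]
    have h4 : 0 ≤ ‖F z‖ ^ c₀ := Real.rpow_nonneg (norm_nonneg _) _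
    calc mt G F z * Real.log (1 / ‖z‖) ^ (-C') * ‖z‖ * Real.exp ((g z).re + b * Real.log ‖z‖)
        = mt G F z * Real.log (1 / ‖z‖) ^ (-C') * ‖z‖ * Real.exp (w z) * (‖F z‖ ^ (-c₀) * ‖F z‖ ^ c₀) := by
          rw [h2, mul_one]
      _ = mt G F z * (‖F z‖ ^ (-c₀) * Real.log (1 / ‖z‖) ^ (-C') * ‖z‖ * Real.exp (w z)) * ‖F z‖ ^ c₀ := by ring
      _ ≤ Real.exp 1 * L * Real.log (1 / r₁) ^ (-(C' + 1)) * ‖F z‖ ^ c₀ := mul_le_mul_of_nonneg_right h1 h4

end Pool.Agent.H36.BPB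

end

section

/-!
# BPB (port) ExtD: bounded lifts

`g, b` from `annulus_bounds` for `r < r₁`, `j = -⌊b/c₀⌋` (an integer), `θ z = z^j exp(-g z/c₀)`, `t = b/c₀ + j ∈ [0,1)`.
* upper bound: `|F z| ≤ e^(1/c₀) exp((Re g + b log|z|)/c₀)`, so `|θ z F z| ≤ e^(1/c₀) |z|^t ≤ e^(1/c₀)`.
* lower bound at `z₁` (`m₁ = mt G F z₁ > 0`): `|F z₁|^(c₀) exp(-(Re g + b log|z₁|)) ≥ q`, `q = m₁ (log 1/|z₁|)^(-C') |z₁|/(e L (log 1/r₁)^(-C'-1)) > 0`, so `|θ z₁ F z₁| = |z₁|^t |F z₁| exp(-(..)/c₀) ≥ |z₁| q^(1/c₀) = c`.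
-/

set_option autoImplicit false

namespace Pool.Agent.H36.BPB

open Filter Topology Metric
open Pool.Agent.H36.BP

variable {N : ℕ}

variable {K B : Set (EN N)} {G : EN N → EN N → ℝ} {ρ : EN N → ℝ} {M : ℕ} {c₀ C : ℝ}

theorem bounded_lifts (hM : MD K B G ρ M c₀ C) {L : ℝ} (hL : 0 < L) {F : ℂ → EN N} (hF : Curve K (ball 0 1 \ {0}) F)
    (hgr : ∀ z : ℂ, z ≠ 0 → ‖z‖ < 1 → mt G F z * (‖z‖ * Real.log (1 / ‖z‖)) ≤ L) {r₁ : ℝ} {z₁ : ℂ} (hz1 : 0 < ‖z₁‖) (hz2 : ‖z₁‖ < r₁)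
    (hr1 : r₁ < 1) (hpos : 0 < mt G F z₁) :
    ∃ c : ℝ, 0 < c ∧ ∀ r : ℝ, 0 < r → r < ‖z₁‖ → ∃ θ : ℂ → ℂ, DifferentiableOn ℂ θ {0}ᶜ ∧
      (∀ z : ℂ, r ≤ ‖z‖ → ‖z‖ ≤ r₁ → ‖θ z • F z‖ ≤ Real.exp (1 / c₀)) ∧ c ≤ ‖θ z₁ • F z₁‖ := by
  have hc := hM.c₀_pos
  have hr0 : 0 < r₁ := hz1.trans hz2
  have hlog1 : 0 < Real.log (1 / ‖z₁‖) := Real.log_pos (by
    rw [lt_div_iff₀ hz1, one_mul]
    exact hz2.trans hr1)
  have hlogr : 0 < Real.log (1 / r₁) := Real.log_pos (by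
    rw [lt_div_iff₀ hr0, one_mul]
    exact hr1)
  set P : ℝ := mt G F z₁ * Real.log (1 / ‖z₁‖) ^ (-(4 * C * L ^ 2 + 1)) * ‖z₁‖ with hP
  set Q : ℝ := Real.exp 1 * L * Real.log (1 / r₁) ^ (-(4 * C * L ^ 2 + 2)) with hQ
  have hP0 : 0 < P := mul_pos (mul_pos hpos (Real.rpow_pos_of_pos hlog1 _)) hz1
  have hQ0 : 0 < Q := mul_pos (mul_pos (Real.exp_pos 1) hL) (Real.rpow_pos_of_pos hlogr _)
  refine ⟨Real.exp (Real.log ‖z₁‖ + Real.log (P / Q) / c₀), Real.exp_pos _, ?_⟩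
  intro r hr hrz
  obtain ⟨g, b, hg, hgb⟩ := annulus_bounds hM hL hF hgr hr (hrz.trans hz2) hr1
  have ht0 : 0 ≤ b / c₀ + ((-⌊b / c₀⌋ : ℤ) : ℝ) := by
    have h := Int.floor_le (b / c₀)
    push_cast
    linarith
  have ht1 : b / c₀ + ((-⌊b / c₀⌋ : ℤ) : ℝ) ≤ 1 := by
    have h := Int.lt_floor_add_one (b / c₀)
    push_cast
    linarith
  set j : ℤ := -⌊b / c₀⌋ with hj
  -- the norm of the lift
  have hnorm : ∀ z : ℂ, 0 < ‖z‖ → 0 < ‖F z‖ → ‖(z ^ j * Complex.exp (-(g z / c₀))) • F z‖ =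
      Real.exp ((j : ℝ) * Real.log ‖z‖ - (g z).re / c₀ + Real.log ‖F z‖) := by
    intro z hz hFz
    rw [norm_smul, norm_mul, norm_zpow, Complex.norm_exp, Real.exp_add, Real.exp_sub,
      Real.exp_log hFz]
    have h1 : (-(g z / (c₀ : ℂ))).re = -((g z).re / c₀) := by
      rw [Complex.neg_re, Complex.div_ofReal_re]
    rw [h1, Real.exp_neg]
    have h2 : Real.exp ((j : ℝ) * Real.log ‖z‖) = ‖z‖ ^ j := by
      rw [mul_comm, Real.exp_mul, Real.exp_log hz, Real.rpow_intCast]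
    rw [h2]
    field_simp
  have hFK : ∀ z : ℂ, 0 < ‖z‖ → ‖z‖ < 1 → 0 < ‖F z‖ := by
    intro z hz hz'
    refine norm_pos_iff.2 (hM.ne _ (hF.2 z ⟨?_, ?_⟩))
    · rw [mem_ball_zero_iff]
      exact hz'
    · exact norm_pos_iff.1 hz
  have hpow : ∀ z : ℂ, 0 < ‖F z‖ → ‖F z‖ ^ c₀ = Real.exp (Real.log ‖F z‖ * c₀) := fun z hz =>
    Real.rpow_def_of_pos hz c₀
  refine ⟨fun z => z ^ j * Complex.exp (-(g z / c₀)), ?_, ?_, ?_⟩
  · intro z hz
    have hz' : z ≠ 0 := hz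
    have h1 : DifferentiableAt ℂ g z := (hg z hz).differentiableAt (isOpen_compl_singleton.mem_nhds hz)
    exact ((differentiableAt_zpow.2 (Or.inl hz')).mul
      ((h1.div_const _).neg.cexp)).differentiableWithinAt
  · intro z hz hz'
    have hz0 : 0 < ‖z‖ := hr.trans_le hz
    have hFz := hFK z hz0 (hz'.trans_lt hr1)
    show ‖(z ^ j * Complex.exp (-(g z / c₀))) • F z‖ ≤ _
    rw [hnorm z hz0 hFz]
    refine Real.exp_le_exp.2 ?_
    have h1 := (hgb z hz hz').1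
    rw [hpow z hFz, ← Real.exp_add, Real.exp_le_exp, ← le_div_iff₀ hc] at h1
    have h2 : Real.log ‖z‖ ≤ 0 := Real.log_nonpos hz0.le (hz'.trans hr1.le)
    have h3 : (1 + ((g z).re + b * Real.log ‖z‖)) / c₀ =
        1 / c₀ + (g z).re / c₀ + b / c₀ * Real.log ‖z‖ := by
      field_simp
      ring
    have h4 := mul_nonpos_of_nonneg_of_nonpos ht0 h2
    rw [h3] at h1
    linarith
  · have hFz := hFK z₁ hz1 (hz2.trans hr1)
    show _ ≤ ‖(z₁ ^ j * Complex.exp (-(g z₁ / c₀))) • F z₁‖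
    rw [hnorm z₁ hz1 hFz]
    refine Real.exp_le_exp.2 ?_
    have h1 := (hgb z₁ hrz.le hz2.le).2
    rw [← hP, ← hQ, hpow z₁ hFz] at h1
    have h2 : Real.log (P / Q) + ((g z₁).re + b * Real.log ‖z₁‖) ≤ Real.log ‖F z₁‖ * c₀ := by
      have h3 : P / Q * Real.exp ((g z₁).re + b * Real.log ‖z₁‖) ≤
          Real.exp (Real.log ‖F z₁‖ * c₀) := by
        rw [div_mul_eq_mul_div, div_le_iff₀ hQ0, mul_comm (Real.exp _) Q]
        exact h1
      have h4 : P / Q = Real.exp (Real.log (P / Q)) := (Real.exp_log (div_pos hP0 hQ0)).symm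
      rw [h4, ← Real.exp_add, Real.exp_le_exp] at h3
      exact h3
    rw [← div_le_iff₀ hc] at h2
    have h3 : (Real.log (P / Q) + ((g z₁).re + b * Real.log ‖z₁‖)) / c₀ =
        Real.log (P / Q) / c₀ + (g z₁).re / c₀ + b / c₀ * Real.log ‖z₁‖ := by
      field_simp
      ring
    have h4 : Real.log ‖z₁‖ ≤ 0 := Real.log_nonpos hz1.le (hz2.trans hr1).le
    have h5 : Real.log ‖z₁‖ ≤ (b / c₀ + (j : ℝ)) * Real.log ‖z₁‖ := by
      nlinarith
    rw [h3] at h2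
    linarith

end Pool.Agent.H36.BPB

end

section

/-!
# BPB Lim: the limit curve for an arbitrary open part

As in `BP/Lim.lean`.  At a point where the normalised lifts `F_n^R` tend to a function with a zero (a bubbling point) nothing is known; these points are isolated.  So the set
`A = {z : H w ∉ K for all w ≠ z near z}` is open and closed (a punctured disc is connected).
-/

set_option autoImplicit false

namespace Pool.Agent.H36.BPB

open Filter Topology Metric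
open Pool.Agent.H36.BP

variable {N : ℕ}

variable {K B : Set (EN N)} {G : EN N → EN N → ℝ} {ρ : EN N → ℝ} {M : ℕ} {c₀ C : ℝ}

/-- The coordinate `i`. -/
private noncomputable def Lim_pr (i : Fin (N + 1)) : EN N →L[ℂ] ℂ := EuclideanSpace.proj i

private lemma Lim_exists_coord {w : EN N} (hw : w ≠ 0) : ∃ j, w j ≠ 0 := by
  by_contra h
  push Not at h
  apply hw
  ext j
  exact h j

private lemma Lim_prop {v w : EN N} (hw : w ≠ 0) (h : ∀ i j, v i * w j = v j * w i) :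
    ∃ c : ℂ, v = c • w := by
  obtain ⟨j, hj⟩ := Lim_exists_coord hw
  refine ⟨v j / w j, ?_⟩
  ext i
  rw [PiLp.smul_apply, smul_eq_mul, div_mul_eq_mul_div, eq_div_iff hj]
  exact h i j

private lemma Lim_cont_minor {X : Type} [TopologicalSpace X] {f g : X → EN N} {x : X}
    (hf : ContinuousAt f x) (hg : ContinuousAt g x) (i j : Fin (N + 1)) :
    ContinuousAt (fun y => f y i * g y j - f y j * g y i) x := by
  have hc : ∀ (f : X → EN N), ContinuousAt f x → ∀ i, ContinuousAt (fun y => f y i) x := by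
    intro f hf i
    exact (Lim_pr i).continuous.continuousAt.comp hf
  exact ((hc f hf i).mul (hc g hg j)).sub ((hc f hf j).mul (hc g hg i))

/-- Gluing of local lifts. -/
private lemma Lim_glue (Hs : ℕ → ℂ → EN N)
    (hd : ∀ R : ℕ, DifferentiableOn ℂ (Hs R) (ball 0 (R + 1))) (h0 : ∀ R, Hs R 0 ≠ 0)
    (hp : ∀ (R S : ℕ) (z : ℂ), z ∈ ball (0 : ℂ) (R + 1) → z ∈ ball (0 : ℂ) (S + 1) →
      ∀ i j, Hs R z i * Hs S z j = Hs R z j * Hs S z i) :
    ∃ H : ℂ → EN N, Differentiable ℂ H ∧ (∀ z, H z ≠ 0) ∧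
      ∀ (R : ℕ), ∀ z₀ ∈ ball (0 : ℂ) (R + 1), ∃ (k : ℕ) (u : ℂ → ℂ), AnalyticAt ℂ u z₀ ∧
        u z₀ ≠ 0 ∧ ∀ᶠ w in 𝓝 z₀, Hs R w = (w - z₀) ^ k • (u w • H w) := by
  classical
  -- local factorisation
  have hfac : ∀ (R : ℕ), ∀ z₀ ∈ ball (0 : ℂ) (R + 1), ∃ (k : ℕ) (φ : ℂ → EN N),
      AnalyticAt ℂ φ z₀ ∧ φ z₀ ≠ 0 ∧ ∀ᶠ w in 𝓝 z₀, Hs R w = (w - z₀) ^ k • φ w := by
    intro R z₀ hz₀
    have ha : AnalyticAt ℂ (Hs R) z₀ := (hd R).analyticAt (isOpen_ball.mem_nhds hz₀)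
    rw [ha.exists_eventuallyEq_pow_smul_nonzero_iff]
    intro hcon
    have hon : AnalyticOnNhd ℂ (Hs R) (ball 0 (R + 1)) := fun w hw =>
      (hd R).analyticAt (isOpen_ball.mem_nhds hw)
    have h1 := hon.eqOn_zero_of_preconnected_of_eventuallyEq_zero
      (convex_ball (0 : ℂ) (R + 1)).isPreconnected hz₀ hcon
    exact h0 R (h1 (mem_ball_self (by positivity)))
  have hmem : ∀ z : ℂ, z ∈ ball (0 : ℂ) ((⌈‖z‖⌉₊ : ℕ) + 1) := by
    intro z
    rw [mem_ball_zero_iff]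
    have := Nat.le_ceil ‖z‖
    linarith
  choose k φ hφa hφ0 hφe using fun z : ℂ => hfac ⌈‖z‖⌉₊ z (hmem z)
  -- any local factor is proportional to φ
  have hcmp : ∀ (R : ℕ), ∀ z₀ ∈ ball (0 : ℂ) (R + 1), ∀ (m : ℕ) (ψ : ℂ → EN N),
      AnalyticAt ℂ ψ z₀ → (∀ᶠ w in 𝓝 z₀, Hs R w = (w - z₀) ^ m • ψ w) →
      ∀ᶠ z in 𝓝 z₀, ∀ i j, φ z z i * ψ z j = φ z z j * ψ z i := by
    intro R z₀ hz₀ m ψ hψa hψe
    filter_upwards [hψe.eventually_nhds, hψa.eventually_analyticAt,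
      isOpen_ball.mem_nhds hz₀] with z h1 h2 h3 i j
    -- near z
    have h4 : ∀ᶠ w in 𝓝[≠] z, φ z w i * ψ w j - φ z w j * ψ w i = 0 := by
      have hne0 : ∀ᶠ w in 𝓝[≠] z, w ≠ z₀ := by
        by_cases hz : z = z₀
        · rw [hz]
          exact self_mem_nhdsWithin
        · exact (eventually_ne_nhds hz).filter_mono nhdsWithin_le_nhds
      filter_upwards [h1.filter_mono nhdsWithin_le_nhds, hne0, self_mem_nhdsWithin,
        (hφe z).filter_mono nhdsWithin_le_nhds,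
        nhdsWithin_le_nhds (isOpen_ball.mem_nhds (hmem z)),
        nhdsWithin_le_nhds (isOpen_ball.mem_nhds h3)] with w a1 a2 a3 a4 a5 a6
      have h5 := hp ⌈‖z‖⌉₊ R w a5 a6 i j
      rw [a4, a1] at h5
      simp only [PiLp.smul_apply, smul_eq_mul] at h5
      have h6 : (w - z) ^ k z ≠ 0 := pow_ne_zero _ (sub_ne_zero.2 a3)
      have h7 : (w - z₀) ^ m ≠ 0 := pow_ne_zero _ (sub_ne_zero.2 a2)
      have h8 : (w - z) ^ k z * (w - z₀) ^ m * (φ z w i * ψ w j - φ z w j * ψ w i) = 0 := by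
        linear_combination h5
      rcases mul_eq_zero.1 h8 with h | h
      · exact absurd h (mul_ne_zero h6 h7)
      · exact h
    have h5 : Tendsto (fun w => φ z w i * ψ w j - φ z w j * ψ w i) (𝓝[≠] z)
        (𝓝 (φ z z i * ψ z j - φ z z j * ψ z i)) :=
      ((Lim_cont_minor (hφa z).continuousAt h2.continuousAt i j).tendsto).mono_left
        nhdsWithin_le_nhds
    have h6 : Tendsto (fun w => φ z w i * ψ w j - φ z w j * ψ w i) (𝓝[≠] z) (𝓝 0) :=
      (tendsto_congr' h4).2 tendsto_const_nhds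
    exact sub_eq_zero.1 (tendsto_nhds_unique h5 h6)
  have hofne : ∀ v : EN N, v ≠ 0 → v.ofLp ≠ 0 := by
    intro v hv h
    apply hv
    ext j
    exact congrFun h j
  set f : ℂ → Pool.Agent.H17.PN N := fun z => Projectivization.mk ℂ (φ z z).ofLp
    (hofne _ (hφ0 z)) with hf
  have hfhol : Pool.Agent.H17.HolomorphicInto f Set.univ := by
    intro z₀ _
    refine ⟨fun w => (φ z₀ w).ofLp, ?_, ?_⟩
    · rw [analyticAt_pi_iff]
      intro j
      exact ((Lim_pr j).analyticAt _).comp (hφa z₀)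
    · filter_upwards [hcmp ⌈‖z₀‖⌉₊ z₀ (hmem z₀) (k z₀) (φ z₀) (hφa z₀) (hφe z₀),
        (hφa z₀).continuousAt.eventually_ne (hφ0 z₀)] with z h1 h2
      refine ⟨hofne _ h2, ?_⟩
      obtain ⟨c, hc⟩ := Lim_prop h2 h1
      rw [hf, Projectivization.mk_eq_mk_iff']
      exact ⟨c, by rw [hc]; rfl⟩
  obtain ⟨x, hx⟩ := Pool.Agent.H17.exists_global_lift hfhol
  refine ⟨fun z => WithLp.toLp 2 (fun j => (x j : ℂ → ℂ) z), ?_, ?_, ?_⟩
  · have h1 : Differentiable ℂ (fun z => (fun j => (x j : ℂ → ℂ) z)) :=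
      differentiable_pi.2 fun j => (x j).diff
    exact (PiLp.continuousLinearEquiv 2 ℂ (fun _ : Fin (N + 1) => ℂ)).symm.differentiable.comp h1
  · intro z h
    obtain ⟨h1, _⟩ := hx z
    apply h1
    funext j
    exact congrArg (fun v : EN N => v j) h
  · intro R z₀ hz₀
    obtain ⟨m, ψ, hψa, hψ0, hψe⟩ := hfac R z₀ hz₀
    have hH : ∀ z, ∀ i j, φ z z i * (x j : ℂ → ℂ) z = φ z z j * (x i : ℂ → ℂ) z := by
      intro z i j
      obtain ⟨h1, h2⟩ := hx z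
      obtain ⟨c, hc, h3⟩ := Pool.Agent.H17.mk_eq_mk_cross h2
      have e1 : φ z z i = c * (x i : ℂ → ℂ) z := h3 i
      have e2 : φ z z j = c * (x j : ℂ → ℂ) z := h3 j
      rw [e1, e2]
      ring
    have hprop : ∀ᶠ z in 𝓝 z₀, ∀ i j, ψ z i * (x j : ℂ → ℂ) z = ψ z j * (x i : ℂ → ℂ) z := by
      filter_upwards [hcmp R z₀ hz₀ m ψ hψa hψe] with z h1 i j
      obtain ⟨l, hl⟩ := Lim_exists_coord (hφ0 z)
      have e1 := h1 l i
      have e2 := h1 l j
      have e3 := hH z l i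
      have e4 := hH z l j
      have h5 : (φ z z l) * (φ z z l) * (ψ z i * (x j : ℂ → ℂ) z) =
          (φ z z l) * (φ z z l) * (ψ z j * (x i : ℂ → ℂ) z) := by
        linear_combination (φ z z l * (x j : ℂ → ℂ) z) * e1 - (φ z z l * (x i : ℂ → ℂ) z) * e2 +
          (φ z z i * ψ z l) * e4 - (φ z z j * ψ z l) * e3
      exact mul_left_cancel₀ (mul_ne_zero hl hl) h5
    obtain ⟨l, hl⟩ : ∃ l, (x l : ℂ → ℂ) z₀ ≠ 0 := by
      obtain ⟨h1, _⟩ := hx z₀
      by_contra hcon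
      push Not at hcon
      exact h1 (funext hcon)
    have hψl : AnalyticAt ℂ (fun z => ψ z l) z₀ :=
      ((Lim_pr l).analyticAt _).comp hψa
    have hloc : ∀ᶠ w in 𝓝 z₀, ψ w = (ψ w l / (x l : ℂ → ℂ) w) •
        (WithLp.toLp 2 (fun j => (x j : ℂ → ℂ) w) : EN N) := by
      filter_upwards [hprop, (x l).diff.continuous.continuousAt.eventually_ne hl] with w h1 h2
      ext i
      rw [PiLp.smul_apply, smul_eq_mul, div_mul_eq_mul_div, eq_div_iff h2]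
      exact h1 i l
    refine ⟨m, fun w => ψ w l / (x l : ℂ → ℂ) w, hψl.div ((x l).analyticAt z₀) hl, ?_, ?_⟩
    · intro h
      apply hψ0
      rw [hloc.self_of_nhds]
      have h' : ψ z₀ l / (x l : ℂ → ℂ) z₀ = 0 := h
      rw [h', zero_smul]
    · filter_upwards [hψe, hloc] with w h1 h2
      rw [h1]
      exact congrArg _ h2

private theorem Lim_preconn (z₀ : ℂ) (ρ : ℝ) : IsPreconnected (ball z₀ ρ \ {z₀}) := by
  have h1 : IsPreconnected (Set.Ioo (0 : ℝ) ρ ×ˢ (Set.univ : Set ℝ)) := isPreconnected_Ioo.prod isPreconnected_univ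
  have h2 := h1.image (fun p : ℝ × ℝ => z₀ + (p.1 : ℂ) * Complex.exp (p.2 * Complex.I))
    (by fun_prop : Continuous fun p : ℝ × ℝ => z₀ + (p.1 : ℂ) * Complex.exp (p.2 * Complex.I)).continuousOn
  convert h2 using 1
  ext z
  constructor
  · rintro ⟨hz, hne⟩
    refine ⟨(‖z - z₀‖, Complex.arg (z - z₀)), ⟨⟨?_, ?_⟩, Set.mem_univ _⟩, ?_⟩
    · exact norm_pos_iff.2 (sub_ne_zero.2 hne)
    · simpa [dist_eq_norm] using hz
    · simp only
      rw [Complex.norm_mul_exp_arg_mul_I]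
      ring
  · rintro ⟨⟨s, t⟩, ⟨⟨h3, h4⟩, _⟩, rfl⟩
    have h5 : ‖(s : ℂ) * Complex.exp (t * Complex.I)‖ = s := by
      rw [norm_mul, Complex.norm_exp_ofReal_mul_I, mul_one, Complex.norm_real, Real.norm_of_nonneg h3.le]
    refine ⟨?_, ?_⟩
    · simp only [mem_ball, dist_eq_norm, add_sub_cancel_left]
      rw [h5]
      exact h4
    · intro h6
      have h7 : (s : ℂ) * Complex.exp (t * Complex.I) = 0 := by
        simpa using h6
      rw [h7, norm_zero] at h5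
      simp only at h3
      linarith

/-- the limit curve, with the growth -/
theorem limit_curveB (hM : MD K B G ρ M c₀ C) (F : ℕ → ℂ → EN N) (hF : ∀ n : ℕ, Curve K (ball 0 (n + 1)) (F n))
    (h0 : ∀ n, mt G (F n) 0 = 1) (c' : ℕ → ℝ) (hc' : ∀ R, 1 ≤ R → 0 < c' R)
    (hchar : ∀ R : ℕ, 1 ≤ R → ∀ n, R ≤ n → ∃ g : ℂ → ℂ, Differentiable ℂ g ∧
      (∀ z ∈ ball (0 : ℂ) R, ‖Complex.exp (g z) • F n z‖ ≤ 1) ∧ c' R ≤ ‖Complex.exp (g 0) • F n 0‖) :
    ∃ (l : Filter ℕ) (H : ℂ → EN N), IsLimit K l F H ∧ (∀ z, H z ∈ closure K) ∧ H 0 ∈ K ∧ (∀ z, ConvAt l F H z → H z ∈ K) ∧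
      1 ≤ mt G H 0 ∧ ∀ R : ℕ, 1 ≤ R → ∃ HR : ℂ → EN N, DifferentiableOn ℂ HR (ball 0 R) ∧
      (∀ z ∈ ball (0 : ℂ) R, ‖HR z‖ ≤ 1) ∧ c' R ≤ ‖HR 0‖ ∧ ∀ z ∈ ball (0 : ℂ) R, HR z = 0 ∨ ∃ k : ℂ, k ≠ 0 ∧ H z = k • HR z := by
  classical
  set 𝒰 : Ultrafilter ℕ := hyperfilter ℕ with h𝒰
  have h𝒰top : (𝒰 : Filter ℕ) ≤ atTop := by
    rw [← Nat.cofinite_eq_atTop]
    exact hyperfilter_le_cofinite
  -- the normalised curves
  set c : ℕ → ℝ := fun R => c' (R + 1) with hcdef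
  have hc : ∀ R, 0 < c R := fun R => hc' (R + 1) (by omega)
  have hch : ∀ R : ℕ, ∃ g : ℕ → ℂ → ℂ, ∀ n, R + 1 ≤ n → Differentiable ℂ (g n) ∧
      (∀ z ∈ ball (0 : ℂ) (R + 1), ‖Complex.exp (g n z) • F n z‖ ≤ 1) ∧
      c R ≤ ‖Complex.exp (g n 0) • F n 0‖ := by
    intro R
    have h1 := hchar (R + 1) (by omega)
    refine ⟨fun n => if h : R + 1 ≤ n then (h1 n h).choose else 0, fun n hn => ?_⟩
    have h2 := (h1 n hn).choose_spec
    simp only [hn, dite_true]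
    refine ⟨h2.1, fun z hz => h2.2.1 z ?_, h2.2.2⟩
    push_cast
    exact hz
  choose g hg using hch
  set Fr : ℕ → ℕ → ℂ → EN N := fun R n z => Complex.exp (g R n z) • F n z with hFr
  have hFrK : ∀ R n : ℕ, R + 1 ≤ n → Curve K (ball 0 (R + 1)) (Fr R n) := by
    intro R n hn
    have hsub : ball (0 : ℂ) (R + 1) ⊆ ball 0 (n + 1) := by
      apply ball_subset_ball
      have : (R : ℝ) ≤ n := by exact_mod_cast (by omega : R ≤ n)
      linarith
    refine ⟨?_, fun z hz => ?_⟩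
    · exact ((hg R n hn).1.cexp.differentiableOn).smul ((hF n).1.mono hsub)
    · exact hM.smul _ ((hF n).2 z (hsub hz)) _ (Complex.exp_ne_zero _)
  have hev : ∀ R : ℕ, ∀ᶠ n in (𝒰 : Filter ℕ), R + 1 ≤ n := fun R =>
    h𝒰top (eventually_ge_atTop (R + 1))
  have hmont : ∀ R : ℕ, ∃ h : ℂ → EN N, DifferentiableOn ℂ h (ball 0 (R + 1)) ∧
      TendstoLocallyUniformlyOn (Fr R) h (𝒰 : Filter ℕ) (ball 0 (R + 1)) := by
    intro R
    refine Pool.Agent.H17.montel_ultrafilter 𝒰 (B := 1) ?_ ?_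
    · filter_upwards [hev R] with n hn
      exact (hFrK R n hn).1
    · filter_upwards [hev R] with n hn
      exact (hg R n hn).2.1
  choose Hs hHd hHc using hmont
  have hpt : ∀ (R : ℕ), ∀ z ∈ ball (0 : ℂ) (R + 1), Tendsto (fun n => Fr R n z) (𝒰 : Filter ℕ)
      (𝓝 (Hs R z)) := fun R z hz => (hHc R).tendsto_at hz
  have hz0 : ∀ R : ℕ, (0 : ℂ) ∈ ball (0 : ℂ) (R + 1) := fun R => mem_ball_self (by positivity)
  have hHc0 : ∀ R, c R ≤ ‖Hs R 0‖ := by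
    intro R
    have h1 := (hpt R 0 (hz0 R)).norm
    refine ge_of_tendsto h1 ?_
    filter_upwards [hev R] with n hn
    exact (hg R n hn).2.2
  have hHb : ∀ R : ℕ, ∀ z ∈ ball (0 : ℂ) (R + 1), ‖Hs R z‖ ≤ 1 := by
    intro R z hz
    refine le_of_tendsto (hpt R z hz).norm ?_
    filter_upwards [hev R] with n hn
    exact (hg R n hn).2.1 z hz
  have hH0 : ∀ R, Hs R 0 ≠ 0 := by
    intro R h
    have h2 := hHc0 R
    rw [h, norm_zero] at h2
    exact absurd (hc R) (not_lt.2 h2)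
  have hprop : ∀ (R S : ℕ) (z : ℂ), z ∈ ball (0 : ℂ) (R + 1) → z ∈ ball (0 : ℂ) (S + 1) →
      ∀ i j, Hs R z i * Hs S z j = Hs R z j * Hs S z i := by
    intro R S z hR hS i j
    have hco : ∀ (T : ℕ), z ∈ ball (0 : ℂ) (T + 1) → ∀ i, Tendsto (fun n => Fr T n z i)
        (𝒰 : Filter ℕ) (𝓝 (Hs T z i)) := fun T hT i =>
      ((Lim_pr i).continuous.tendsto _).comp (hpt T z hT)
    have h1 : Tendsto (fun n => Fr R n z i * Fr S n z j) (𝒰 : Filter ℕ)
        (𝓝 (Hs R z i * Hs S z j)) := (hco R hR i).mul (hco S hS j)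
    have h2 : Tendsto (fun n => Fr R n z j * Fr S n z i) (𝒰 : Filter ℕ)
        (𝓝 (Hs R z j * Hs S z i)) := (hco R hR j).mul (hco S hS i)
    refine tendsto_nhds_unique h1 (h2.congr fun n => ?_)
    simp only [hFr, PiLp.smul_apply, smul_eq_mul]
    ring
  obtain ⟨H, hHdiff, hHne, hHloc⟩ := Lim_glue Hs hHd hH0 hprop
  -- membership is invariant under scaling
  have hsm : ∀ (x : EN N) (a : ℂ), a ≠ 0 → (a • x ∈ K ↔ x ∈ K) := by
    intro x a ha
    refine ⟨fun h => ?_, fun h => hM.smul x h a ha⟩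
    have := hM.smul _ h a⁻¹ (inv_ne_zero ha)
    rwa [smul_smul, inv_mul_cancel₀ ha, one_smul] at this
  have hsmc : ∀ (x : EN N) (a : ℂ), a ≠ 0 → x ∈ closure K → a • x ∈ closure K := by
    intro x a ha hx
    exact map_mem_closure (continuous_const_smul a) hx fun y hy => hM.smul y hy a ha
  have hHcl1 : ∀ (R : ℕ), ∀ z ∈ ball (0 : ℂ) (R + 1), Hs R z ∈ closure K := by
    intro R z hz
    refine mem_closure_of_tendsto (hpt R z hz) ?_
    filter_upwards [hev R] with n hn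
    exact (hFrK R n hn).2 z hz
  have hmem : ∀ z : ℂ, z ∈ ball (0 : ℂ) ((⌈‖z‖⌉₊ : ℕ) + 1) := by
    intro z
    rw [mem_ball_zero_iff]
    have := Nat.le_ceil ‖z‖
    linarith
  have hHcl : ∀ z, H z ∈ closure K := by
    intro z₀
    obtain ⟨k, u, hua, hu0, hue⟩ := hHloc _ z₀ (hmem z₀)
    have h1 : ∀ᶠ w in 𝓝[≠] z₀, H w ∈ closure K := by
      filter_upwards [hue.filter_mono nhdsWithin_le_nhds, self_mem_nhdsWithin,
        (hua.continuousAt.eventually_ne hu0).filter_mono nhdsWithin_le_nhds,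
        nhdsWithin_le_nhds (isOpen_ball.mem_nhds (hmem z₀))] with w a1 a2 a3 a4
      have h2 := hHcl1 _ w a4
      rw [a1, smul_smul] at h2
      have h3 : (w - z₀) ^ k * u w ≠ 0 := mul_ne_zero (pow_ne_zero _ (sub_ne_zero.2 a2)) a3
      have h4 := hsmc _ _ (inv_ne_zero h3) h2
      rwa [smul_smul, inv_mul_cancel₀ h3, one_smul] at h4
    have h2 : Tendsto H (𝓝[≠] z₀) (𝓝 (H z₀)) :=
      (hHdiff.continuous.tendsto z₀).mono_left nhdsWithin_le_nhds
    exact isClosed_closure.mem_of_tendsto h2 h1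
  -- convergence to `H` where the normalised lifts do not tend to zero
  have hconv : ∀ (R : ℕ) (z : ℂ), z ∈ ball (0 : ℂ) (R + 1) → ∀ v : ℂ → ℂ, AnalyticAt ℂ v z → v z ≠ 0 →
      (∀ᶠ w in 𝓝 z, Hs R w = v w • H w) → ConvAt (𝒰 : Filter ℕ) F H z := by
    intro R z hz v hva hv0 hve
    obtain ⟨s, hs, hsub⟩ := Metric.eventually_nhds_iff_ball.1
      ((hve.and (hva.eventually_analyticAt.and (hva.continuousAt.eventually_ne hv0))).and (isOpen_ball.mem_nhds hz))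
    refine ⟨s, hs, fun n w => Complex.exp (g R n w) * (v w)⁻¹, ?_, ?_⟩
    · filter_upwards [hev R] with n hn
      refine ⟨fun w hw => ?_, fun w hw => mul_ne_zero (Complex.exp_ne_zero _) (inv_ne_zero (hsub w hw).1.2.2)⟩
      exact (((hg R n hn).1.cexp.differentiableAt).mul ((hsub w hw).1.2.1.differentiableAt.inv (hsub w hw).1.2.2)).differentiableWithinAt
    · have h1 : TendstoLocallyUniformlyOn (fun (_ : ℕ) w => (v w)⁻¹) (fun w => (v w)⁻¹) (𝒰 : Filter ℕ) (ball z s) := by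
        intro ε hε w _
        exact ⟨ball z s, self_mem_nhdsWithin, Filter.Eventually.of_forall fun n y _ => refl_mem_uniformity hε⟩
      have h2 : TendstoLocallyUniformlyOn (Fr R) (Hs R) (𝒰 : Filter ℕ) (ball z s) := (hHc R).mono fun w hw => (hsub w hw).2
      have h3 := h1.fun_smul₀ h2 (fun w hw => ((hsub w hw).1.2.1.continuousAt.inv₀ (hsub w hw).1.2.2).continuousWithinAt)
        (((hHd R).mono fun w hw => (hsub w hw).2).continuousOn)
      refine (h3.congr_right fun w hw => ?_).congr fun n w hw => ?_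
      · rw [(hsub w hw).1.1, smul_smul, inv_mul_cancel₀ (hsub w hw).1.2.2, one_smul]
      · simp only [hFr]
        rw [smul_smul, mul_comm]
  have hconvP : ∀ z₀ : ℂ, ∀ᶠ z in 𝓝[≠] z₀, ConvAt (𝒰 : Filter ℕ) F H z := by
    intro z₀
    obtain ⟨k, u, hua, hu0, hue⟩ := hHloc _ z₀ (hmem z₀)
    filter_upwards [hue.eventually_nhds.filter_mono nhdsWithin_le_nhds, hua.eventually_analyticAt.filter_mono nhdsWithin_le_nhds,
      (hua.continuousAt.eventually_ne hu0).filter_mono nhdsWithin_le_nhds, self_mem_nhdsWithin,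
      nhdsWithin_le_nhds (isOpen_ball.mem_nhds (hmem z₀))] with z a1 a2 a3 a4 a5
    refine hconv _ z a5 (fun w => (w - z₀) ^ k * u w) ?_ (mul_ne_zero (pow_ne_zero _ (sub_ne_zero.2 a4)) a3) ?_
    · exact ((analyticAt_id.sub analyticAt_const).pow k).mul a2
    · filter_upwards [a1] with w hw
      rw [hw, smul_smul]
  have hconv0 : ConvAt (𝒰 : Filter ℕ) F H 0 := by
    obtain ⟨k, u, hua, hu0, hue⟩ := hHloc 0 0 (hz0 0)
    have hk : k = 0 := by
      by_contra hk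
      have h1 := hue.self_of_nhds
      rw [sub_self, zero_pow hk, zero_smul] at h1
      exact hH0 0 h1
    subst hk
    refine hconv 0 0 (hz0 0) u hua hu0 ?_
    filter_upwards [hue] with w hw
    rw [hw, pow_zero, one_smul]
  have hlim : IsLimit K (𝒰 : Filter ℕ) F H :=
    ⟨inferInstance, h𝒰top, fun n => (hF n).1, fun n => (hF n).2, hHdiff, hHne, hconv0, hconvP⟩
  -- at the points of convergence, the set of points outside `K` is open
  have hopen : ∀ z, ConvAt (𝒰 : Filter ℕ) F H z → H z ∉ K → ∀ᶠ w in 𝓝 z, H w ∉ K := by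
    rintro z ⟨s, hs, φ, hφ, hφc⟩ hz
    refine hM.hur (𝒰 : Filter ℕ) inferInstance (fun n w => φ n w • F n w) H z s hs ?_ hHdiff.differentiableOn hφc (hHne z) hz
    filter_upwards [hφ, hev (⌈‖z‖ + s⌉₊)] with n h1 h2
    have hsub : ball z s ⊆ ball (0 : ℂ) (n + 1) := by
      intro w hw
      rw [mem_ball_zero_iff]
      have h3 : ‖w - z‖ < s := by simpa [dist_eq_norm] using hw
      have h4 : ‖w‖ ≤ ‖z‖ + ‖w - z‖ := by
        calc ‖w‖ = ‖z + (w - z)‖ := by rw [add_sub_cancel]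
          _ ≤ _ := norm_add_le _ _
      have h5 := Nat.le_ceil (‖z‖ + s)
      have h6 : ((⌈‖z‖ + s⌉₊ : ℕ) : ℝ) + 1 ≤ n := by exact_mod_cast h2
      linarith
    exact ⟨h1.1.smul ((hF n).1.mono hsub), fun w hw => hM.smul _ ((hF n).2 w (hsub hw)) _ (h1.2 w hw)⟩
  have hrel : ∀ z, H z ∈ K → ∀ᶠ w in 𝓝 z, H w ∈ K := by
    intro z hz
    filter_upwards [hHdiff.continuous.continuousAt.eventually (hM.rel_open _ hz)] with w hw
    exact hw (hHcl w)
  -- the set of points with a punctured neighbourhood outside `K`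
  set A : Set ℂ := {z | ∀ᶠ w in 𝓝[≠] z, H w ∉ K} with hA
  have hAopen : IsOpen A := by
    rw [isOpen_iff_mem_nhds]
    intro z hz
    obtain ⟨s, hs, hsz⟩ := Metric.eventually_nhds_iff_ball.1 (eventually_nhdsWithin_iff.1 hz)
    refine Filter.mem_of_superset (ball_mem_nhds z hs) fun w hw => ?_
    show ∀ᶠ y in 𝓝[≠] w, H y ∉ K
    by_cases hwz : w = z
    · rw [hwz]
      exact hz
    · filter_upwards [nhdsWithin_le_nhds (isOpen_ball.mem_nhds hw), (eventually_ne_nhds hwz).filter_mono nhdsWithin_le_nhds] with y h1 h2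
      exact hsz y h1 h2
  have hAclosed : IsClosed A := by
    rw [isClosed_iff_nhds]
    intro z₀ hz₀
    obtain ⟨s, hs, hsz⟩ := Metric.eventually_nhds_iff_ball.1 (eventually_nhdsWithin_iff.1 (hconvP z₀))
    have hP := Lim_preconn z₀ s
    -- a point of the punctured ball outside `K`
    obtain ⟨z₁, hz₁b, hz₁A⟩ := hz₀ _ (ball_mem_nhds z₀ hs)
    obtain ⟨w, hwP, hwK⟩ : ∃ w, w ∈ ball z₀ s \ {z₀} ∧ H w ∉ K := by
      have h1 : ∀ᶠ w in 𝓝[≠] z₁, w ∈ ball z₀ s := nhdsWithin_le_nhds (isOpen_ball.mem_nhds hz₁b)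
      have h2 : ∀ᶠ w in 𝓝[≠] z₁, w ≠ z₀ := by
        by_cases h : z₁ = z₀
        · rw [h]
          exact self_mem_nhdsWithin
        · exact (eventually_ne_nhds h).filter_mono nhdsWithin_le_nhds
      obtain ⟨w, h3, h4, h5⟩ := (h1.and (h2.and (show ∀ᶠ w in 𝓝[≠] z₁, H w ∉ K from hz₁A))).exists
      exact ⟨w, ⟨h3, h4⟩, h5⟩
    have hall : ∀ y ∈ ball z₀ s \ {z₀}, H y ∉ K := by
      by_contra hcon
      push Not at hcon
      obtain ⟨y, hyP, hyK⟩ := hcon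
      have hU : IsOpen {w : ℂ | w ∈ ball z₀ s \ {z₀} ∧ H w ∈ K} := by
        rw [isOpen_iff_mem_nhds]
        rintro w ⟨h1, h2⟩
        filter_upwards [(isOpen_ball.sdiff isClosed_singleton).mem_nhds h1, hrel w h2] with x h3 h4
        exact ⟨h3, h4⟩
      have hV : IsOpen {w : ℂ | w ∈ ball z₀ s \ {z₀} ∧ H w ∉ K} := by
        rw [isOpen_iff_mem_nhds]
        rintro w ⟨h1, h2⟩
        filter_upwards [(isOpen_ball.sdiff isClosed_singleton).mem_nhds h1, hopen w (hsz w h1.1 h1.2) h2] with x h3 h4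
        exact ⟨h3, h4⟩
      obtain ⟨x, -, ⟨-, h1⟩, ⟨-, h2⟩⟩ := hP _ _ hU hV (fun x hx => (em (H x ∈ K)).imp (fun h => ⟨hx, h⟩) fun h => ⟨hx, h⟩)
        ⟨y, hyP, hyP, hyK⟩ ⟨w, hwP, hwP, hwK⟩
      exact h2 h1
    show ∀ᶠ w in 𝓝[≠] z₀, H w ∉ K
    filter_upwards [nhdsWithin_le_nhds (ball_mem_nhds z₀ hs), self_mem_nhdsWithin] with w h1 h2
    exact hall w ⟨h1, h2⟩
  -- the first curve near the origin
  obtain ⟨k, u, hua, hu0, hue⟩ := hHloc 0 0 (hz0 0)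
  have hmt : ∀ n, 0 + 1 ≤ n → mt G (Fr 0 n) 0 = 1 := by
    intro n hn
    have hFn : DifferentiableAt ℂ (F n) 0 :=
      (hF n).1.differentiableAt (isOpen_ball.mem_nhds (hz0 n))
    have h1 := mt_smul hM hFn ((hg 0 n hn).1.cexp.differentiableAt (x := 0)) ((hF n).2 0 (hz0 n))
      (Complex.exp_ne_zero _)
    rw [hFr, h1, h0]
  have hball := isOpen_ball.mem_nhds (hz0 0)
  obtain ⟨s, hs, hsub⟩ := Metric.eventually_nhds_iff_ball.1 (hue.and hball)
  have hcur0 : ∀ᶠ n in (𝒰 : Filter ℕ), Curve K (ball 0 s) (Fr 0 n) := by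
    filter_upwards [hev 0] with n hn
    exact ⟨(hFrK _ n hn).1.mono fun w hw => (hsub w hw).2,
      fun w hw => (hFrK _ n hn).2 w (hsub w hw).2⟩
  have hconv0' : TendstoLocallyUniformlyOn (Fr 0) (Hs 0) (𝒰 : Filter ℕ) (ball 0 s) :=
    (hHc 0).mono fun w hw => (hsub w hw).2
  have hAempty : A = ∅ := by
    rcases isClopen_iff.1 ⟨hAclosed, hAopen⟩ with h | h
    · exact h
    · exfalso
      have hnot : ∀ z, H z ∉ K := by
        intro z hz
        have h1 : z ∈ A := by rw [h]; trivial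
        obtain ⟨w, h2, h3⟩ := ((show ∀ᶠ w in 𝓝[≠] z, H w ∉ K from h1).and ((hrel z hz).filter_mono nhdsWithin_le_nhds)).exists
        exact h2 h3
      have hout : ∀ z ∈ ball (0 : ℂ) s, Hs 0 z ∉ K := by
        intro z hz hzK
        have h1 := hM.ne _ hzK
        have h2 := (hsub z hz).1
        rw [smul_smul] at h2
        have h3 : (z - 0) ^ k * u z ≠ 0 := by
          intro h3
          rw [h3, zero_smul] at h2
          exact h1 h2
        rw [h2, hsm _ _ h3] at hzK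
        exact hnot z hzK
      have h1 := hM.lim (𝒰 : Filter ℕ) inferInstance (Fr 0) (Hs 0) 0 s hs hcur0 hconv0' (hH0 0)
        hout (1 / 2) (by norm_num)
      obtain ⟨n, h2, h3⟩ := (h1.and (hev 0)).exists
      rw [hmt n h3] at h2
      norm_num at h2
  have hCK : ∀ z, ConvAt (𝒰 : Filter ℕ) F H z → H z ∈ K := by
    intro z hz
    by_contra hcon
    have h1 : z ∈ A := (hopen z hz hcon).filter_mono nhdsWithin_le_nhds
    rw [hAempty] at h1
    exact h1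
  have hH0K : H 0 ∈ K := hCK 0 hconv0
  refine ⟨(𝒰 : Filter ℕ), H, hlim, hHcl, hH0K, hCK, ?_, fun R hR => ?_⟩
  swap
  · obtain ⟨S, rfl⟩ : ∃ S, R = S + 1 := ⟨R - 1, by omega⟩
    push_cast
    refine ⟨Hs S, hHd S, hHb S, hHc0 S, fun z hz => ?_⟩
    obtain ⟨k, u, hua, hu0, hue⟩ := hHloc S z hz
    have h1 := hue.self_of_nhds
    rcases Nat.eq_zero_or_pos k with hk | hk
    · right
      subst hk
      rw [pow_zero, one_smul] at h1
      exact ⟨(u z)⁻¹, inv_ne_zero hu0, by rw [h1, smul_smul, inv_mul_cancel₀ hu0, one_smul]⟩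
    · left
      rw [h1, sub_self, zero_pow hk.ne', zero_smul]
  have hκ0 : (0 - 0 : ℂ) ^ k * u 0 ≠ 0 := by
    intro h3
    have h2 := hue.self_of_nhds
    rw [smul_smul, h3, zero_smul] at h2
    exact hH0 0 h2
  have h0K : Hs 0 0 ∈ K := by
    have h2 := hue.self_of_nhds
    rw [smul_smul] at h2
    rw [h2, hsm _ _ hκ0]
    exact hH0K
  have h1 : 1 ≤ mt G (Hs 0) 0 := mt_limit hM hs hcur0 hconv0' h0K (by
    filter_upwards [hev 0] with n hn
    exact (hmt n hn).ge)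
  have h2 : Hs 0 =ᶠ[𝓝 0] fun w => ((w - 0) ^ k * u w) • H w := by
    filter_upwards [hue] with w hw
    rw [hw, smul_smul]
  have h3 : mt G (Hs 0) 0 = mt G (fun w => ((w - 0) ^ k * u w) • H w) 0 := by
    unfold mt
    rw [h2.deriv_eq, h2.self_of_nhds]
  have h4 := mt_smul hM (F := H) (k := fun w => (w - 0) ^ k * u w) (z := 0) (hHdiff 0)
    (by
      have : DifferentiableAt ℂ u 0 := hua.differentiableAt
      fun_prop) hH0K hκ0
  rw [h3, h4] at h1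
  exact h1

end Pool.Agent.H36.BPB

end

section

/-!
# MQ2 WtN: the weights at the terminal points

`g = x g₀`, `v (g₀) = c₀ g₀`.  If `g₀ 0 = 0` then the restriction of this equation to `x = 0` gives `c₀ 0 = l b 0`, `l ≥ 1`, the restriction to `y = 0` (if
`g₀ (x, 0)` is not `0`) gives `c₀ 0 = k a 0`, `k ≥ 1`.
-/

set_option autoImplicit false

open Topology Filter Metric Asymptotics

noncomputable section

namespace Pool.Agent.MQ2

open Pool.Agent.H17BP (dx dy exists_div_x exists_div_y)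
open Pool.Agent.MQ

namespace WtN

/-- a factor which is not zero on a dense set can be cancelled -/
theorem zero_of_mul {ℓ E : ℂ × ℂ → ℂ} (hE : AnalyticAt ℂ E 0) (hℓ : ∀ p, ∃ᶠ q in 𝓝 p, ℓ q ≠ 0) (h : ∀ᶠ p in 𝓝 (0 : ℂ × ℂ), ℓ p * E p = 0) :
    ∀ᶠ p in 𝓝 (0 : ℂ × ℂ), E p = 0 := by
  filter_upwards [hE.eventually_analyticAt, eventually_eventually_nhds.2 h] with p hp hp2
  by_contra hne
  have h1 : ∀ᶠ q in 𝓝 p, E q ≠ 0 := hp.continuousAt.eventually_ne hne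
  obtain ⟨q, h2, h3, h4⟩ := ((hℓ p).and_eventually (h1.and hp2)).exists
  exact (mul_ne_zero h2 h3) h4

theorem freq_fst (p : ℂ × ℂ) : ∃ᶠ q in 𝓝 p, q.1 ≠ 0 := by
  have h1 : Tendsto (fun s : ℂ => ((p.1 + s, p.2) : ℂ × ℂ)) (𝓝 0) (𝓝 p) := by
    have h2 : Continuous fun s : ℂ => ((p.1 + s, p.2) : ℂ × ℂ) := by fun_prop
    have h3 := h2.tendsto 0
    rwa [add_zero] at h3
  refine h1.frequently ?_
  by_cases hp : p.1 = 0
  · have h4 : ∃ᶠ s in 𝓝[≠] (0 : ℂ), p.1 + s ≠ 0 := by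
      refine Filter.Eventually.frequently ?_
      filter_upwards [self_mem_nhdsWithin] with s hs
      rw [hp, zero_add]
      exact hs
    exact h4.filter_mono nhdsWithin_le_nhds
  · refine Filter.Eventually.frequently ?_
    have h5 : ContinuousAt (fun s : ℂ => p.1 + s) 0 := by fun_prop
    exact h5.eventually_ne (by rwa [add_zero])

theorem freq_snd (p : ℂ × ℂ) : ∃ᶠ q in 𝓝 p, q.2 ≠ 0 := by
  have h1 : Tendsto (fun q : ℂ × ℂ => q.swap) (𝓝 p.swap) (𝓝 p) := by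
    have h2 := (continuous_swap (X := ℂ) (Y := ℂ)).tendsto p.swap
    rwa [Prod.swap_swap] at h2
  exact h1.frequently (freq_fst p.swap)

/-- the cofactor of a quotient -/
theorem cof_div {v : ℂ × ℂ → ℂ × ℂ} {g h ℓ α c : ℂ × ℂ → ℂ} (hv : AnalyticAt ℂ v 0) (hh : AnalyticAt ℂ h 0) (hα : AnalyticAt ℂ α 0)
    (hc : AnalyticAt ℂ c 0) (hℓ : AnalyticAt ℂ ℓ 0) (hℓn : ∀ p, ∃ᶠ q in 𝓝 p, ℓ q ≠ 0) (hg : ∀ᶠ p in 𝓝 (0 : ℂ × ℂ), g p = ℓ p * h p)
    (hcof : ∀ᶠ p in 𝓝 (0 : ℂ × ℂ), Dv v g p = c p * g p) (hl : ∀ᶠ p in 𝓝 (0 : ℂ × ℂ), Dv v ℓ p = α p * ℓ p) :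
    ∀ᶠ p in 𝓝 (0 : ℂ × ℂ), Dv v h p = (c p - α p) * h p := by
  have hE : AnalyticAt ℂ (fun p => Dv v h p - (c p - α p) * h p) 0 := (analyticAt_Dv hv hh).sub ((hc.sub hα).mul hh)
  have h1 : ∀ᶠ p in 𝓝 (0 : ℂ × ℂ), ℓ p * (Dv v h p - (c p - α p) * h p) = 0 := by
    filter_upwards [hh.eventually_analyticAt, hℓ.eventually_analyticAt, eventually_eventually_nhds.2 hg, hg, hcof, hl] with p h1 h2 h3 h4 h5 h6
    have h7 : Dv v g p = Dv v (fun q => ℓ q * h q) p := Dv_congr h3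
    rw [Dv_mul h2.differentiableAt h1.differentiableAt, h5, h6, h4] at h7
    linear_combination -h7
  filter_upwards [zero_of_mul hE hℓn h1] with p hp
  exact sub_eq_zero.1 hp

theorem line_tendsto1 : Tendsto (fun y : ℂ => ((0, y) : ℂ × ℂ)) (𝓝 0) (𝓝 0) := by
  have h2 : Continuous fun x : ℂ => ((0, x) : ℂ × ℂ) := by fun_prop
  exact h2.tendsto 0

theorem line_tendsto2 : Tendsto (fun x : ℂ => ((x, 0) : ℂ × ℂ)) (𝓝 0) (𝓝 0) := by
  have h2 : Continuous fun x : ℂ => ((x, 0) : ℂ × ℂ) := by fun_prop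
  exact h2.tendsto 0

theorem red_fst {v : ℂ × ℂ → ℂ × ℂ} {g G : ℂ × ℂ → ℂ} (hg : Wt v g) (hG : AnalyticAt ℂ G 0) (h : ∀ᶠ p in 𝓝 (0 : ℂ × ℂ), g p = p.1 * G p) :
    ¬ ∀ᶠ y in 𝓝 (0 : ℂ), G (0, y) = 0 := by
  intro h0
  have h1 : ∀ᶠ y in 𝓝[≠] (0 : ℂ), False := by
    rw [eventually_nhdsWithin_iff]
    filter_upwards [h0, line_tendsto1.eventually hg.red, line_tendsto1.eventually (eventually_eventually_nhds.2 h),
      line_tendsto1.eventually h, line_tendsto1.eventually hG.eventually_analyticAt] with y h2 h3 h4 h5 h6 hy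
    refine h3 (fun h7 => hy (congrArg Prod.snd h7)) (by rw [h5]; exact zero_mul _) ?_
    have h7 : g =ᶠ[𝓝 (0, y)] fun p => p.1 * G p := h4
    have h8 : HasFDerivAt (fun p : ℂ × ℂ => p.1 * G p) (((0, y) : ℂ × ℂ).1 • fderiv ℂ G (0, y) + G (0, y) • ContinuousLinearMap.fst ℂ ℂ ℂ) (0, y) :=
      (hasFDerivAt_fst (𝕜 := ℂ) (p := ((0, y) : ℂ × ℂ))).mul h6.differentiableAt.hasFDerivAt
    have h9 : ((0, y) : ℂ × ℂ).1 = 0 := rfl
    rw [h7.fderiv_eq, h8.fderiv, h2, h9]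
    ext <;> simp
  exact h1.exists.elim fun _ h => h

theorem red_snd {v : ℂ × ℂ → ℂ × ℂ} {g G : ℂ × ℂ → ℂ} (hg : Wt v g) (hG : AnalyticAt ℂ G 0) (h : ∀ᶠ p in 𝓝 (0 : ℂ × ℂ), g p = p.2 * G p) :
    ¬ ∀ᶠ x in 𝓝 (0 : ℂ), G (x, 0) = 0 := by
  intro h0
  have h1 : ∀ᶠ y in 𝓝[≠] (0 : ℂ), False := by
    rw [eventually_nhdsWithin_iff]
    filter_upwards [h0, line_tendsto2.eventually hg.red, line_tendsto2.eventually (eventually_eventually_nhds.2 h),
      line_tendsto2.eventually h, line_tendsto2.eventually hG.eventually_analyticAt] with y h2 h3 h4 h5 h6 hy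
    refine h3 (fun h7 => hy (congrArg Prod.fst h7)) (by rw [h5]; exact zero_mul _) ?_
    have h7 : g =ᶠ[𝓝 (y, 0)] fun p => p.2 * G p := h4
    have h8 : HasFDerivAt (fun p : ℂ × ℂ => p.2 * G p) (((y, 0) : ℂ × ℂ).2 • fderiv ℂ G (y, 0) + G (y, 0) • ContinuousLinearMap.snd ℂ ℂ ℂ) (y, 0) :=
      (hasFDerivAt_snd (𝕜 := ℂ) (p := ((y, 0) : ℂ × ℂ))).mul h6.differentiableAt.hasFDerivAt
    have h9 : ((y, 0) : ℂ × ℂ).2 = 0 := rfl
    rw [h7.fderiv_eq, h8.fderiv, h2, h9]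
    ext <;> simp
  exact h1.exists.elim fun _ h => h

/-- the order of a solution -/
theorem ord_rel {φ β γ : ℂ → ℂ} (hφ : AnalyticAt ℂ φ 0) (hne : ¬ ∀ᶠ y in 𝓝 (0 : ℂ), φ y = 0) (h0 : φ 0 = 0) (hβ : ContinuousAt β 0)
    (hγ : ContinuousAt γ 0) (h : ∀ᶠ y in 𝓝 (0 : ℂ), y * β y * deriv φ y = γ y * φ y) : ∃ l : ℕ, 1 ≤ l ∧ (l : ℂ) * β 0 = γ 0 := by
  obtain ⟨l, ψ, hψ, hψ0, hl⟩ := (hφ.exists_eventuallyEq_pow_smul_nonzero_iff).2 hne
  have hl1 : 1 ≤ l := by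
    by_contra hlt
    have hl0 : l = 0 := by omega
    have h1 := hl.self_of_nhds
    rw [hl0, pow_zero, one_smul, h0] at h1
    exact hψ0 h1.symm
  refine ⟨l, hl1, ?_⟩
  obtain ⟨m, rfl⟩ : ∃ m, l = m + 1 := ⟨l - 1, by omega⟩
  have hl' : φ =ᶠ[𝓝 0] fun y => y ^ (m + 1) * ψ y := by
    filter_upwards [hl] with y hy
    rw [hy, sub_zero, smul_eq_mul]
  have h2 : ∀ᶠ y in 𝓝[≠] (0 : ℂ), β y * (((m + 1 : ℕ) : ℂ) * ψ y + y * deriv ψ y) - γ y * ψ y = 0 := by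
    rw [eventually_nhdsWithin_iff]
    filter_upwards [h, eventually_eventually_nhds.2 hl', hl', hψ.eventually_analyticAt] with y h3 h4 h5 h6 hy
    have h7 : deriv φ y = ((m + 1 : ℕ) : ℂ) * y ^ m * ψ y + y ^ (m + 1) * deriv ψ y := by
      have h8 : φ =ᶠ[𝓝 y] fun y => y ^ (m + 1) * ψ y := h4
      rw [h8.deriv_eq]
      exact ((hasDerivAt_pow (m + 1) y).mul h6.differentiableAt.hasDerivAt).deriv
    rw [h7, h5] at h3
    have hy0 : y ≠ 0 := hy
    have hp : y ^ (m + 1) ≠ 0 := pow_ne_zero _ hy0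
    refine mul_left_cancel₀ hp ?_
    rw [mul_zero]
    linear_combination h3
  have h3 : Tendsto (fun y => β y * (((m + 1 : ℕ) : ℂ) * ψ y + y * deriv ψ y) - γ y * ψ y) (𝓝[≠] 0)
      (𝓝 (β 0 * (((m + 1 : ℕ) : ℂ) * ψ 0 + 0 * deriv ψ 0) - γ 0 * ψ 0)) := by
    refine Tendsto.mono_left ?_ nhdsWithin_le_nhds
    have hψc := hψ.continuousAt
    have hψd := hψ.deriv.continuousAt
    exact ((hβ.mul ((continuousAt_const.mul hψc).add (continuousAt_id.mul hψd))).sub (hγ.mul hψc)).tendsto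
  have h4 : β 0 * (((m + 1 : ℕ) : ℂ) * ψ 0 + 0 * deriv ψ 0) - γ 0 * ψ 0 = 0 :=
    tendsto_nhds_unique (h3.congr' h2) tendsto_const_nhds
  refine mul_right_cancel₀ hψ0 ?_
  linear_combination h4

theorem line_deriv1 {h : ℂ × ℂ → ℂ} {y : ℂ} (hh : DifferentiableAt ℂ h (0, y)) : deriv (fun y : ℂ => h (0, y)) y = Pool.Agent.H17BP.dy h (0, y) := by
  have h1 : HasDerivAt (fun t : ℂ => ((0, t) : ℂ × ℂ)) ((0, 1) : ℂ × ℂ) y := (hasDerivAt_const y (0 : ℂ)).prodMk (hasDerivAt_id y)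
  exact (hh.hasFDerivAt.comp_hasDerivAt y h1).deriv

theorem line_deriv2 {h : ℂ × ℂ → ℂ} {x : ℂ} (hh : DifferentiableAt ℂ h (x, 0)) : deriv (fun x : ℂ => h (x, 0)) x = Pool.Agent.H17BP.dx h (x, 0) := by
  have h1 : HasDerivAt (fun t : ℂ => ((t, 0) : ℂ × ℂ)) ((1, 0) : ℂ × ℂ) x := (hasDerivAt_id x).prodMk (hasDerivAt_const x (0 : ℂ))
  exact (hh.hasFDerivAt.comp_hasDerivAt x h1).deriv

theorem line_an1 {h : ℂ × ℂ → ℂ} (hh : AnalyticAt ℂ h 0) : AnalyticAt ℂ (fun y : ℂ => h (0, y)) 0 :=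
  AnalyticAt.comp (g := h) (f := fun y : ℂ => ((0, y) : ℂ × ℂ)) (x := 0) hh (analyticAt_const.prod analyticAt_id)

theorem line_an2 {h : ℂ × ℂ → ℂ} (hh : AnalyticAt ℂ h 0) : AnalyticAt ℂ (fun x : ℂ => h (x, 0)) 0 :=
  AnalyticAt.comp (g := h) (f := fun x : ℂ => ((x, 0) : ℂ × ℂ)) (x := 0) hh (analyticAt_id.prod analyticAt_const)

/-- restriction to `x = 0` -/
theorem ord1 {v : ℂ × ℂ → ℂ × ℂ} {h β c : ℂ × ℂ → ℂ} (hh : AnalyticAt ℂ h 0) (hβ : AnalyticAt ℂ β 0) (hc : AnalyticAt ℂ c 0)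
    (h1 : ∀ᶠ y in 𝓝 (0 : ℂ), (v (0, y)).1 = 0) (h2 : ∀ᶠ y in 𝓝 (0 : ℂ), (v (0, y)).2 = y * β (0, y)) (hne : ¬ ∀ᶠ y in 𝓝 (0 : ℂ), h (0, y) = 0)
    (h0 : h 0 = 0) (hcof : ∀ᶠ p in 𝓝 (0 : ℂ × ℂ), Dv v h p = c p * h p) : ∃ l : ℕ, 1 ≤ l ∧ (l : ℂ) * β 0 = c 0 := by
  refine ord_rel (φ := fun y => h (0, y)) (β := fun y => β (0, y)) (γ := fun y => c (0, y)) (line_an1 hh) hne h0 (line_an1 hβ).continuousAt
    (line_an1 hc).continuousAt ?_
  filter_upwards [h1, h2, line_tendsto1.eventually hcof, line_tendsto1.eventually hh.eventually_analyticAt] with y h3 h4 h5 h6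
  rw [Dv_eq, h3, h4, zero_mul, zero_add] at h5
  rw [line_deriv1 h6.differentiableAt, h5]

/-- restriction to `y = 0` -/
theorem ord2 {v : ℂ × ℂ → ℂ × ℂ} {h α c : ℂ × ℂ → ℂ} (hh : AnalyticAt ℂ h 0) (hα : AnalyticAt ℂ α 0) (hc : AnalyticAt ℂ c 0)
    (h1 : ∀ᶠ x in 𝓝 (0 : ℂ), (v (x, 0)).2 = 0) (h2 : ∀ᶠ x in 𝓝 (0 : ℂ), (v (x, 0)).1 = x * α (x, 0)) (hne : ¬ ∀ᶠ x in 𝓝 (0 : ℂ), h (x, 0) = 0)
    (h0 : h 0 = 0) (hcof : ∀ᶠ p in 𝓝 (0 : ℂ × ℂ), Dv v h p = c p * h p) : ∃ l : ℕ, 1 ≤ l ∧ (l : ℂ) * α 0 = c 0 := by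
  refine ord_rel (φ := fun y => h (y, 0)) (β := fun y => α (y, 0)) (γ := fun y => c (y, 0)) (line_an2 hh) hne h0 (line_an2 hα).continuousAt
    (line_an2 hc).continuousAt ?_
  filter_upwards [h1, h2, line_tendsto2.eventually hcof, line_tendsto2.eventually hh.eventually_analyticAt] with y h3 h4 h5 h6
  rw [Dv_eq, h3, h4, zero_mul, add_zero] at h5
  rw [line_deriv2 h6.differentiableAt, h5]

end WtN

open WtN

theorem wt_node {a b g g₀ : ℂ × ℂ → ℂ} (ha : AnalyticAt ℂ a 0) (hb : AnalyticAt ℂ b 0) (hq : ∀ k l : ℕ, 1 ≤ k → 1 ≤ l → k * a 0 ≠ l * b 0)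
    (hg : Wt (fun p => (p.1 * a p, p.2 * b p)) g) (hg₀ : AnalyticAt ℂ g₀ 0) (h : ∀ᶠ p in 𝓝 (0 : ℂ × ℂ), g p = p.1 * g₀ p) :
    ∃ u : ℂ × ℂ → ℂ, AnalyticAt ℂ u 0 ∧ u 0 ≠ 0 ∧ ((∀ᶠ p in 𝓝 (0 : ℂ × ℂ), g p = p.1 * u p) ∨ ∀ᶠ p in 𝓝 (0 : ℂ × ℂ), g p = p.1 * p.2 * u p) := by
  by_cases h0 : g₀ 0 = 0
  swap
  · exact ⟨g₀, hg₀, h0, Or.inl h⟩
  set v : ℂ × ℂ → ℂ × ℂ := fun p => (p.1 * a p, p.2 * b p) with hvdef
  have hv : AnalyticAt ℂ v 0 := (analyticAt_fst.mul ha).prod (analyticAt_snd.mul hb)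
  obtain ⟨c, hc, hcof⟩ := hg.cof
  have hcof0 : ∀ᶠ p in 𝓝 (0 : ℂ × ℂ), Dv v g₀ p = (c p - a p) * g₀ p :=
    cof_div hv hg₀ ha hc analyticAt_fst freq_fst h hcof (Eventually.of_forall fun p => by rw [Dv_fst]; exact mul_comm _ _)
  obtain ⟨l, hl1, hl⟩ := ord1 (β := b) (c := fun p => c p - a p) hg₀ hb (hc.sub ha)
    (Eventually.of_forall fun y => zero_mul _) (Eventually.of_forall fun y => rfl) (red_fst hg hg₀ h) h0 hcof0
  by_cases hy : ∀ᶠ x in 𝓝 (0 : ℂ), g₀ (x, 0) = 0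
  swap
  · obtain ⟨k, hk1, hk⟩ := ord2 (α := a) (c := fun p => c p - a p) hg₀ ha (hc.sub ha)
      (Eventually.of_forall fun y => zero_mul _) (Eventually.of_forall fun y => rfl) hy h0 hcof0
    exact absurd (hk.trans hl.symm) (hq k l hk1 hl1)
  obtain ⟨g₁, hg₁, h1⟩ := exists_div_y hg₀ hy
  have h1' : ∀ᶠ p in 𝓝 (0 : ℂ × ℂ), g₀ p = p.2 * g₁ p := by
    filter_upwards [h1] with p hp
    rw [hp, smul_eq_mul]
  have hg12 : ∀ᶠ p in 𝓝 (0 : ℂ × ℂ), g p = p.1 * p.2 * g₁ p := by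
    filter_upwards [h, h1'] with p h2 h3
    rw [h2, h3, mul_assoc]
  refine ⟨g₁, hg₁, ?_, Or.inr hg12⟩
  intro h2
  have hcof1 : ∀ᶠ p in 𝓝 (0 : ℂ × ℂ), Dv v g₁ p = (c p - a p - b p) * g₁ p :=
    cof_div hv hg₁ hb (hc.sub ha) analyticAt_snd freq_snd h1' hcof0 (Eventually.of_forall fun p => by rw [Dv_snd]; exact mul_comm _ _)
  have hr1 : ¬ ∀ᶠ y in 𝓝 (0 : ℂ), g₁ (0, y) = 0 := fun h3 => red_fst (G := fun p => p.2 * g₁ p) hg (analyticAt_snd.mul hg₁)
    (by filter_upwards [hg12] with p hp; rw [hp, mul_assoc]) (by filter_upwards [h3] with y hy; rw [hy, mul_zero])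
  have hr2 : ¬ ∀ᶠ x in 𝓝 (0 : ℂ), g₁ (x, 0) = 0 := fun h3 => red_snd (G := fun p => p.1 * g₁ p) hg (analyticAt_fst.mul hg₁)
    (by filter_upwards [hg12] with p hp; rw [hp]; ring) (by filter_upwards [h3] with y hy; rw [hy, mul_zero])
  obtain ⟨l', hl1', hl'⟩ := ord1 (β := b) (c := fun p => c p - a p - b p) hg₁ hb ((hc.sub ha).sub hb)
    (Eventually.of_forall fun y => zero_mul _) (Eventually.of_forall fun y => rfl) hr1 h2 hcof1
  obtain ⟨k', hk1', hk'⟩ := ord2 (α := a) (c := fun p => c p - a p - b p) hg₁ ha ((hc.sub ha).sub hb)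
    (Eventually.of_forall fun y => zero_mul _) (Eventually.of_forall fun y => rfl) hr2 h2 hcof1
  exact hq k' l' hk1' hl1' (hk'.trans hl'.symm)

theorem wt_sn {k : ℕ} (hk : 1 ≤ k) {a b g g₀ : ℂ × ℂ → ℂ} (ha : AnalyticAt ℂ a 0) (hb : AnalyticAt ℂ b 0) (hb0 : b 0 ≠ 0)
    (hg : Wt (fun p => (p.1 ^ (k + 1) * a p, p.2 * b p)) g) (hg₀ : AnalyticAt ℂ g₀ 0) (h : ∀ᶠ p in 𝓝 (0 : ℂ × ℂ), g p = p.1 * g₀ p) :
    ∃ u : ℂ × ℂ → ℂ, AnalyticAt ℂ u 0 ∧ u 0 ≠ 0 ∧ ((∀ᶠ p in 𝓝 (0 : ℂ × ℂ), g p = p.1 * u p) ∨ ∀ᶠ p in 𝓝 (0 : ℂ × ℂ), g p = p.1 * p.2 * u p) := by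
  have h1 : (fun p : ℂ × ℂ => (p.1 ^ (k + 1) * a p, p.2 * b p)) = fun p => (p.1 * (p.1 ^ k * a p), p.2 * b p) := by
    funext p
    rw [pow_succ]
    congr 1
    ring
  rw [h1] at hg
  refine wt_node (a := fun p => p.1 ^ k * a p) ((analyticAt_fst.pow k).mul ha) hb (fun i j _ hj => ?_) hg hg₀ h
  have h2 : ((0 : ℂ × ℂ).1 ^ k * a 0 : ℂ) = 0 := by
    rw [Prod.fst_zero, zero_pow (by omega), zero_mul]
  rw [h2, mul_zero]
  exact (mul_ne_zero (Nat.cast_ne_zero.2 (by omega)) hb0).symm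

/-- if `g = x g₀`, `g₀ 0 = 0`, then the cofactor of `g₀` at `0` is a positive multiple of `∂b/∂y (0)`, so `g₀` vanishes on the formal curve -/
theorem wt_formal {k : ℕ} (hk : 1 ≤ k) {a b g g₀ : ℂ × ℂ → ℂ} (ha : AnalyticAt ℂ a 0) (hb : AnalyticAt ℂ b 0) (hb0 : b 0 = 0)
    (hb1 : fderiv ℂ b 0 (0, 1) ≠ 0) {c : ℕ → ℂ} (hc : c 0 = 0)
    (hJ : ∀ J, (fun t => b (t, jet c J t) - deriv (jet c J) t * (t ^ (k + 1) * a (t, jet c J t))) =O[𝓝 0] fun t : ℂ => t ^ (J + 1))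
    (hg : Wt (fun p => (p.1 ^ (k + 1) * a p, b p)) g) (hg₀ : AnalyticAt ℂ g₀ 0) (h : ∀ᶠ p in 𝓝 (0 : ℂ × ℂ), g p = p.1 * g₀ p) :
    FZero (fun N t => (t, jet c N t)) g ∨ g₀ 0 ≠ 0 := by
  by_cases h0 : g₀ 0 = 0
  swap
  · exact Or.inr h0
  left
  set v : ℂ × ℂ → ℂ × ℂ := fun p => (p.1 ^ (k + 1) * a p, b p) with hvdef
  have hv : AnalyticAt ℂ v 0 := ((analyticAt_fst.pow (k + 1)).mul ha).prod hb
  obtain ⟨co, hco, hcof⟩ := hg.cof
  have hα : AnalyticAt ℂ (fun p : ℂ × ℂ => p.1 ^ k * a p) 0 := (analyticAt_fst.pow k).mul ha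
  have hcof0 : ∀ᶠ p in 𝓝 (0 : ℂ × ℂ), Dv v g₀ p = (co p - p.1 ^ k * a p) * g₀ p :=
    cof_div hv hg₀ hα hco analyticAt_fst freq_fst h hcof (Eventually.of_forall fun p => by
      rw [Dv_fst]
      show p.1 ^ (k + 1) * a p = p.1 ^ k * a p * p.1
      ring)
  -- `b (0, y) = y β (0, y)`
  have hJ0 : ∀ᶠ y in 𝓝 (0 : ℂ), b (0, y) = y * dslope (fun y => b (0, y)) 0 y := by
    refine Eventually.of_forall fun y => ?_
    have h1 := sub_smul_dslope (fun y => b (0, y)) 0 y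
    rw [sub_zero, smul_eq_mul] at h1
    rw [h1]
    have h2 : b (0, 0) = 0 := hb0
    rw [h2, sub_zero]
  have hβa : AnalyticAt ℂ (fun p : ℂ × ℂ => dslope (fun y => b (0, y)) 0 p.2) 0 := by
    have h1 : AnalyticAt ℂ (dslope (fun y => b (0, y)) 0) 0 := by
      obtain ⟨q, hq⟩ := line_an1 hb
      exact ⟨_, hq.has_fpower_series_dslope_fslope⟩
    exact AnalyticAt.comp (g := dslope (fun y => b (0, y)) 0) (f := fun p : ℂ × ℂ => p.2) (x := 0) h1 analyticAt_snd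
  have hβ0 : dslope (fun y => b (0, y)) 0 (0 : ℂ × ℂ).2 = fderiv ℂ b 0 (0, 1) := by
    rw [Prod.snd_zero, dslope_same, line_deriv1 hb.differentiableAt]
    rfl
  obtain ⟨l, hl1, hl⟩ := ord1 (v := v) (β := fun p => dslope (fun y => b (0, y)) 0 p.2) (c := fun p => co p - p.1 ^ k * a p) hg₀ hβa (hco.sub hα)
    (Eventually.of_forall fun y => by
      show (0 : ℂ) ^ (k + 1) * a (0, y) = 0
      rw [zero_pow (by omega), zero_mul]) hJ0 (red_fst hg hg₀ h) h0 hcof0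
  rw [hβ0] at hl
  have hco0 : co 0 - (0 : ℂ × ℂ).1 ^ k * a 0 ≠ 0 := by
    rw [← hl]
    exact mul_ne_zero (Nat.cast_ne_zero.2 (by omega)) hb1
  -- along the jets
  have key : ∀ N, (fun t => g₀ (t, jet c N t)) =O[𝓝 0] fun t : ℂ => t ^ (N + 1) := by
    intro N
    have hpa : AnalyticAt ℂ (fun t : ℂ => (t, jet c N t)) 0 := analyticAt_id.prod (Formal.analyticAt_jet c N 0)
    have hpt : Tendsto (fun t : ℂ => ((t, jet c N t) : ℂ × ℂ)) (𝓝 0) (𝓝 0) := by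
      have h1 := hpa.continuousAt.tendsto
      rw [Formal.jet_zero hc] at h1
      exact h1
    have hφ : AnalyticAt ℂ (fun t : ℂ => g₀ (t, jet c N t)) 0 := Formal.analyticAt_pair hc N hg₀
    by_cases hz : ∀ᶠ t in 𝓝 (0 : ℂ), g₀ (t, jet c N t) = 0
    · exact (isBigO_zero _ _).congr' (by filter_upwards [hz] with t ht; rw [ht]) EventuallyEq.rfl
    obtain ⟨m, ψ, hψ, hψ0, hm⟩ := (hφ.exists_eventuallyEq_pow_smul_nonzero_iff).2 hz
    have hm' : ∀ᶠ t in 𝓝 (0 : ℂ), g₀ (t, jet c N t) = t ^ m * ψ t := by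
      filter_upwards [hm] with t ht
      rw [ht, sub_zero, smul_eq_mul]
    by_cases hmN : N + 1 ≤ m
    · obtain ⟨j, rfl⟩ := Nat.exists_eq_add_of_le hmN
      have h1 : (fun t : ℂ => t ^ (N + 1) * (t ^ j * ψ t)) =O[𝓝 0] fun t : ℂ => t ^ (N + 1) * 1 := by
        refine (isBigO_refl _ _).mul ?_
        exact ((analyticAt_id.pow j).mul hψ).continuousAt.isBigO_one ℂ
      refine (h1.congr' ?_ ?_)
      · filter_upwards [hm'] with t ht
        rw [ht, pow_add]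
        ring
      · exact Eventually.of_forall fun t => mul_one _
    exfalso
    push Not at hmN
    -- `c₀ φ = t ^ (k + 1) a φ' + O (t ^ (N + 1))`
    have hD : ∀ᶠ t in 𝓝 (0 : ℂ), (co (t, jet c N t) - t ^ k * a (t, jet c N t)) * g₀ (t, jet c N t) =
        t ^ (k + 1) * a (t, jet c N t) * deriv (fun t => g₀ (t, jet c N t)) t +
          (b (t, jet c N t) - deriv (jet c N) t * (t ^ (k + 1) * a (t, jet c N t))) * Pool.Agent.H17BP.dy g₀ (t, jet c N t) := by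
      filter_upwards [hpt.eventually hcof0, hpt.eventually hg₀.eventually_analyticAt] with t h1 h2
      have h3 : HasDerivAt (fun t : ℂ => ((t, jet c N t) : ℂ × ℂ)) ((1, deriv (jet c N) t) : ℂ × ℂ) t :=
        (hasDerivAt_id t).prodMk (Formal.analyticAt_jet c N t).differentiableAt.hasDerivAt
      have h4 : deriv (fun t => g₀ (t, jet c N t)) t = fderiv ℂ g₀ (t, jet c N t) (1, deriv (jet c N) t) :=
        (h2.differentiableAt.hasFDerivAt.comp_hasDerivAt t h3).deriv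
      have h5 : fderiv ℂ g₀ (t, jet c N t) (1, deriv (jet c N) t) = Pool.Agent.H17BP.dx g₀ (t, jet c N t) + deriv (jet c N) t * Pool.Agent.H17BP.dy g₀ (t, jet c N t) := by
        have h6 : ((1, deriv (jet c N) t) : ℂ × ℂ) = (1, 0) + deriv (jet c N) t • (0, 1) := by simp
        rw [h6, map_add, map_smul, smul_eq_mul]
        rfl
      rw [Dv_eq] at h1
      have h7 : (v (t, jet c N t)).1 = t ^ (k + 1) * a (t, jet c N t) := rfl
      have h8 : (v (t, jet c N t)).2 = b (t, jet c N t) := rfl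
      rw [h7, h8] at h1
      rw [← h1, h4, h5]
      ring
    have hφd : (fun t : ℂ => t ^ (k + 1) * a (t, jet c N t) * deriv (fun t => g₀ (t, jet c N t)) t) =O[𝓝 0] fun t : ℂ => t ^ (m + 1) := by
      have h1 : ∀ᶠ t in 𝓝 (0 : ℂ), t ^ (k + 1) * a (t, jet c N t) * deriv (fun t => g₀ (t, jet c N t)) t =
          t ^ (m + 1) * (t ^ (k - 1) * (a (t, jet c N t) * (m * ψ t + t * deriv ψ t))) := by
        filter_upwards [eventually_eventually_nhds.2 hm', hψ.eventually_analyticAt] with t h2 h3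
        have h4 : deriv (fun t => g₀ (t, jet c N t)) t = (m : ℂ) * t ^ (m - 1) * ψ t + t ^ m * deriv ψ t := by
          have h5 : (fun t => g₀ (t, jet c N t)) =ᶠ[𝓝 t] fun t => t ^ m * ψ t := h2
          rw [h5.deriv_eq]
          exact ((hasDerivAt_pow m t).mul h3.differentiableAt.hasDerivAt).deriv
        rw [h4]
        obtain ⟨k', rfl⟩ : ∃ k', k = k' + 1 := ⟨k - 1, by omega⟩
        rw [Nat.add_sub_cancel]
        rcases Nat.eq_zero_or_pos m with rfl | hm0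
        · simp only [Nat.cast_zero, zero_mul, pow_zero]
          ring
        · obtain ⟨m', rfl⟩ : ∃ m', m = m' + 1 := ⟨m - 1, by omega⟩
          rw [Nat.add_sub_cancel]
          ring
      have h2 : (fun t : ℂ => t ^ (m + 1) * (t ^ (k - 1) * (a (t, jet c N t) * (m * ψ t + t * deriv ψ t)))) =O[𝓝 0] fun t : ℂ => t ^ (m + 1) * 1 := by
        refine (isBigO_refl _ _).mul ?_
        have ha' : AnalyticAt ℂ (fun t : ℂ => a (t, jet c N t)) 0 := Formal.analyticAt_pair hc N ha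
        exact ((analyticAt_id.pow (k - 1)).mul (ha'.mul ((analyticAt_const.mul hψ).add (analyticAt_id.mul hψ.deriv)))).continuousAt.isBigO_one ℂ
      exact h2.congr' (by filter_upwards [h1] with t ht; rw [ht]) (Eventually.of_forall fun t => mul_one _)
    have herr : (fun t : ℂ => (b (t, jet c N t) - deriv (jet c N) t * (t ^ (k + 1) * a (t, jet c N t))) * Pool.Agent.H17BP.dy g₀ (t, jet c N t)) =O[𝓝 0]
        fun t : ℂ => t ^ (m + 1) := by
      have h1 : (fun t : ℂ => Pool.Agent.H17BP.dy g₀ (t, jet c N t)) =O[𝓝 0] fun _ : ℂ => (1 : ℂ) :=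
        (Formal.analyticAt_pair hc N (Pool.Agent.H17BP.analyticAt_dy hg₀)).continuousAt.isBigO_one ℂ
      have h2 : (fun t : ℂ => t ^ (N + 1)) =O[𝓝 0] fun t : ℂ => t ^ (m + 1) := by
        refine IsBigO.of_bound 1 ?_
        filter_upwards [Metric.ball_mem_nhds (0 : ℂ) one_pos] with t ht
        rw [mem_ball_zero_iff] at ht
        rw [norm_pow, norm_pow, one_mul]
        exact pow_le_pow_of_le_one (norm_nonneg _) ht.le (by omega)
      have h3 := ((hJ N).trans h2).mul h1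
      exact h3.congr_right fun t => mul_one _
    have hL : (fun t : ℂ => (co (t, jet c N t) - t ^ k * a (t, jet c N t)) * g₀ (t, jet c N t)) =O[𝓝 0] fun t : ℂ => t ^ (m + 1) :=
      (hφd.add herr).congr' (by filter_upwards [hD] with t ht; rw [ht]) EventuallyEq.rfl
    obtain ⟨w, hw, hwe⟩ := Formal.exists_div (n := m + 1)
      ((Formal.analyticAt_pair hc N (hco.sub hα)).mul hφ) hL
    have h4 : ∀ᶠ t in 𝓝[≠] (0 : ℂ), (co (t, jet c N t) - t ^ k * a (t, jet c N t)) * ψ t = t * w t := by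
      rw [eventually_nhdsWithin_iff]
      filter_upwards [hwe, hm'] with t h5 h6 ht
      have h7 : (co (t, jet c N t) - t ^ k * a (t, jet c N t)) * g₀ (t, jet c N t) = t ^ (m + 1) * w t := h5
      rw [h6] at h7
      have ht0 : t ≠ 0 := ht
      refine mul_left_cancel₀ (pow_ne_zero m ht0) ?_
      rw [← mul_assoc, mul_comm (t ^ m), mul_assoc, h7, pow_succ]
      ring
    have h5 : Tendsto (fun t : ℂ => (co (t, jet c N t) - t ^ k * a (t, jet c N t)) * ψ t) (𝓝[≠] 0)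
        (𝓝 ((co 0 - (0 : ℂ × ℂ).1 ^ k * a 0) * ψ 0)) := by
      refine Tendsto.mono_left ?_ nhdsWithin_le_nhds
      have h6 := ((Formal.analyticAt_pair hc N (hco.sub hα)).mul hψ).continuousAt.tendsto
      have h7 : ((0, jet c N 0) : ℂ × ℂ) = 0 := by rw [Formal.jet_zero hc]; rfl
      have h8 : ((fun t : ℂ => (co - fun p : ℂ × ℂ => p.1 ^ k * a p) (t, jet c N t)) * ψ) 0 = (co 0 - (0 : ℂ × ℂ).1 ^ k * a 0) * ψ 0 := by
        show (co (0, jet c N 0) - ((0, jet c N 0) : ℂ × ℂ).1 ^ k * a (0, jet c N 0)) * ψ 0 = _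
        rw [h7]
      rw [h8] at h6
      exact h6
    have h6 : Tendsto (fun t : ℂ => t * w t) (𝓝[≠] 0) (𝓝 0) := by
      refine Tendsto.mono_left ?_ nhdsWithin_le_nhds
      have h7 := ((continuousAt_id (x := (0 : ℂ))).mul hw.continuousAt).tendsto
      have h8 : ((id : ℂ → ℂ) * w) 0 = 0 := zero_mul _
      rw [h8] at h7
      exact h7
    have h7 := tendsto_nhds_unique (h5.congr' h4) h6
    exact (mul_ne_zero hco0 hψ0) h7
  intro N
  have hpa : AnalyticAt ℂ (fun t : ℂ => (t, jet c N t)) 0 := analyticAt_id.prod (Formal.analyticAt_jet c N 0)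
  have hpt : Tendsto (fun t : ℂ => ((t, jet c N t) : ℂ × ℂ)) (𝓝 0) (𝓝 0) := by
    have h1 := hpa.continuousAt.tendsto
    rw [Formal.jet_zero hc] at h1
    exact h1
  have h1 : (fun t : ℂ => t * g₀ (t, jet c N t)) =O[𝓝 0] fun t : ℂ => 1 * t ^ (N + 1) :=
    (continuousAt_id.isBigO_one ℂ).mul (key N)
  refine h1.congr' ?_ (Eventually.of_forall fun t => one_mul _)
  filter_upwards [hpt.eventually h] with t ht
  rw [ht]

end Pool.Agent.MQ2

end
end
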