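import Pool.Agent.H43.TL2.M27
import Pool.Agent.H43.TL2.M37
import Pool.Agent.H43.TL2.M70
import Pool.Agent.H43.TL2.M72
import Pool.Agent.H43.TL2.MQ.SNLocN

/-! The parts of this file: MQ2.TSN, MQL.SnA, MQL.SnD0, MQ3.NC, MQ3.NCD. -/

section

/-!
# MQ2 TSN: a saddle-node with both axes in the weight
-/

set_option autoImplicit false

open Topology Filter Metric MeasureTheory Asymptotics Laplacian

noncomputable section

namespace Pool.Agent.MQ2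

open Pool.Agent.H36.BP (EN)
open Pool.Agent.H30M (tau LogSing)
open Pool.Agent.MQ

/-- the field depends only on the values of the weight in the ball -/
theorem DDv_congr_weight {v : ℂ × ℂ → ℂ × ℂ} {g g' : ℂ × ℂ → ℂ} {r : ℝ} {Om : Set ℂ} {p : ℂ → ℂ × ℂ} (hc : Crv1 v r Om p)
    (h : ∀ q ∈ ball (0 : ℂ × ℂ) r, g q = g' q) {z : ℂ} (hz : z ∈ Om) : DDv v g p z = DDv v g' p z := by
  have e : (fun w => g (p w)) =ᶠ[𝓝 z] fun w => g' (p w) := by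
    filter_upwards [hc.isOpen.mem_nhds hz] with w hw
    exact h _ (hc.mem w hw)
  unfold DDv
  rw [e.deriv_eq, h _ (hc.mem z hz)]

theorem LocalN1.congr_weight {v : ℂ × ℂ → ℂ × ℂ} {g g' : ℂ × ℂ → ℂ} {r : ℝ} {Om : Set ℂ} {p : ℂ → ℂ × ℂ} (hc : Crv1 v r Om p)
    (h : ∀ q ∈ ball (0 : ℂ × ℂ) r, g q = g' q) {I Λ : ℝ → ℝ} {s δ : ℝ} (hN : LocalN1 v g' Om p I Λ s δ) : LocalN1 v g Om p I Λ s δ := by
  obtain ⟨C, η, err, h1, h2, h3, h4, h5⟩ := hN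
  refine ⟨C, η, err, h1, h2, h3, fun z hz hz' => ?_, h5⟩
  rw [DDv_congr_weight hc h hz]
  exact h4 z hz hz'

/-- small radii -/
theorem ev_closedBall {Q : ℂ × ℂ → Prop} (h : ∀ᶠ q in 𝓝 (0 : ℂ × ℂ), Q q) : ∀ᶠ r in 𝓝[>] (0 : ℝ), ∀ q ∈ closedBall (0 : ℂ × ℂ) r, Q q := by
  obtain ⟨e, he, h1⟩ := Metric.eventually_nhds_iff_ball.1 h
  filter_upwards [mem_nhdsWithin_of_mem_nhds (gt_mem_nhds he)] with r hr q hq
  exact h1 q (closedBall_subset_ball hr hq)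

/-- the package of a saddle-node with both axes in the weight: every positive error -/
theorem locX_sn {k : ℕ} (hk : 1 ≤ k) {a b : ℂ × ℂ → ℂ} (ha : AnalyticAt ℂ a 0) (hb : AnalyticAt ℂ b 0) (ha0 : a 0 ≠ 0) (hb0 : b 0 ≠ 0)
    {g J : ℂ × ℂ → ℂ} (hg : ∀ᶠ p in 𝓝 (0 : ℂ × ℂ), g p = p.1 * p.2) (hJ : ∀ᶠ p in 𝓝 (0 : ℂ × ℂ), J p = p.1 ^ (k + 1))
    (hW : Wt (fun p => (p.1 ^ (k + 1) * a p, p.2 * b p)) g) :
    ∀ᶠ r in 𝓝[>] (0 : ℝ), ∀ s, 0 < s → ∀ B, 0 ≤ B → ∀ (lm : ℂ → ℝ) (Om : Set ℂ) (p : ℂ → ℂ × ℂ), Crv1 (fun p => (p.1 ^ (k + 1) * a p, p.2 * b p)) r Om p →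
      (∀ z ∈ Om, ∃ᶠ w in 𝓝 z, g (p w) ≠ 0) → Continuous lm → (∀ z, 0 ≤ lm z) → (∀ z ∈ Om, ‖deriv p z‖ ≤ B * lm z) → ∀ δ, 0 < δ →
        LocX (fun p => (p.1 ^ (k + 1) * a p, p.2 * b p)) g J Om p lm s 1 δ := by
  set v : ℂ × ℂ → ℂ × ℂ := fun p => (p.1 ^ (k + 1) * a p, p.2 * b p) with hv
  have hvan : AnalyticAt ℂ v 0 := ((analyticAt_fst.pow _).mul ha).prod (analyticAt_snd.mul hb)
  have hiso : ∀ᶠ q in 𝓝 (0 : ℂ × ℂ), q ≠ 0 → v q ≠ 0 := by
    filter_upwards [ha.continuousAt.eventually_ne ha0, hb.continuousAt.eventually_ne hb0] with q h1 h2 h3 h4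
    have h5 : q.1 ^ (k + 1) * a q = 0 := congrArg Prod.fst h4
    have h6 : q.2 * b q = 0 := congrArg Prod.snd h4
    refine h3 (Prod.ext ?_ ((mul_eq_zero.1 h6).resolve_right h2))
    exact pow_eq_zero_iff (by omega) |>.1 ((mul_eq_zero.1 h5).resolve_right h1)
  filter_upwards [ev_closedBall ha.eventually_analyticAt, ev_closedBall hb.eventually_analyticAt, ev_closedBall (ha.continuousAt.eventually_ne ha0),
    ev_closedBall (hb.continuousAt.eventually_ne hb0), ev_closedBall hg, ev_closedBall hJ, ev_closedBall hiso, DD_cof hvan hiso hW, self_mem_nhdsWithin]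
    with r a1 a2 a3 a4 a5 a6 a7 a8 a9
  intro s hs B hB lm Om p hc hgne hlc hl0 hp δ hδ
  obtain ⟨_, -, h1⟩ := a8
  have hmem : ∀ z ∈ Om, p z ∈ closedBall (0 : ℂ × ℂ) r := fun z hz => ball_subset_closedBall (hc.mem z hz)
  have hgz : ∀ z ∈ Om, p z ≠ 0 → g (p z) ≠ 0 := fun z hz h0 => (h1 Om p hc hgne z hz (a7 _ (hmem z hz) h0)).1
  have hgz' : ∀ z ∈ Om, p z ≠ 0 → (fun q : ℂ × ℂ => q.1 * q.2) (p z) ≠ 0 := by
    intro z hz h0
    have := hgz z hz h0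
    rwa [a5 _ (hmem z hz)] at this
  have hN := localN1_saddleNode (g := fun q => q.1 * q.2) (g₁ := fun q => q.1) hc hk a1 a2 a3 a4 (fun _ => rfl) (fun _ => rfl) (Or.inl fun _ => rfl) hgz' hlc hp
    (I := fun R => ∫ z, tau R z * lm z ^ 2) (Λ := fun R => ∫ z, ‖gr (tau R) z‖ * lm z) (fun R _ => le_rfl)
    (fun R _ => integral_nonneg fun z => mul_nonneg (norm_nonneg _) (hl0 z)) hs hδ
  have hN' : LocalN1 v g Om p (fun R => ∫ z, tau R z * lm z ^ 2) (fun R => ∫ z, ‖gr (tau R) z‖ * lm z) s δ :=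
    LocalN1.congr_weight hc (fun q hq => a5 q (ball_subset_closedBall hq)) hN
  -- the pointwise bound
  have hr : 0 < r := a9
  obtain ⟨Cb, hCb⟩ := (isCompact_closedBall (0 : ℂ × ℂ) r).bddAbove_image (f := fun q => ‖b q‖⁻¹)
    (ContinuousOn.inv₀ (fun q hq => (a2 q hq).continuousAt.norm.continuousWithinAt) fun q hq => norm_ne_zero_iff.2 (a4 q hq))
  have hCb0 : 0 ≤ Cb := by
    have h0 : (0 : ℂ × ℂ) ∈ closedBall (0 : ℂ × ℂ) r := mem_closedBall_self hr.le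
    exact (inv_nonneg.2 (norm_nonneg (b 0))).trans (hCb ⟨0, h0, rfl⟩)
  refine locX_of_localN1 (C₁ := Cb * r ^ (k + 2) * B) hB (by positivity) hlc hl0 hp hN' fun z hz hzt => ?_
  have hz' := hmem z hz
  rw [a5 _ hz', a6 _ hz']
  by_cases hy : (p z).2 = 0
  · rw [hy, mul_zero, norm_zero, mul_zero, zero_mul]
    exact mul_nonneg (by positivity) (hl0 z)
  · have hy0 : 0 < ‖(p z).2‖ := norm_pos_iff.2 hy
    have hb' : 0 < ‖b (p z)‖ := norm_pos_iff.2 (a4 _ hz')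
    have hv2 : (v (p z)).2 ≠ 0 := mul_ne_zero hy (a4 _ hz')
    rw [ztv_snd hv2]
    have hv2' : (v (p z)).2 = (p z).2 * b (p z) := rfl
    rw [hv2', norm_div, norm_mul, norm_mul, norm_pow]
    have h2 : ‖(p z).1‖ ≤ r := by
      have := norm_fst_le (p z)
      rw [mem_closedBall_zero_iff] at hz'
      linarith
    have h3 : ‖(deriv p z).2‖ ≤ B * lm z := (norm_snd_le _).trans (hp z hz)
    have h4 : ‖b (p z)‖⁻¹ ≤ Cb := hCb ⟨p z, hz', rfl⟩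
    have h5 : ‖(p z).1‖ ^ (k + 2) ≤ r ^ (k + 2) := pow_le_pow_left₀ (norm_nonneg _) h2 _
    have e : ‖(deriv p z).2‖ / (‖(p z).2‖ * ‖b (p z)‖) * (‖(p z).1‖ * ‖(p z).2‖) * ‖(p z).1‖ ^ (k + 1) =
        ‖b (p z)‖⁻¹ * ‖(p z).1‖ ^ (k + 2) * ‖(deriv p z).2‖ := by
      rw [pow_succ' _ (k + 1)]
      field_simp
    rw [e]
    have hBl : 0 ≤ B * lm z := mul_nonneg hB (hl0 z)
    calc ‖b (p z)‖⁻¹ * ‖(p z).1‖ ^ (k + 2) * ‖(deriv p z).2‖ ≤ Cb * r ^ (k + 2) * (B * lm z) :=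
          mul_le_mul (mul_le_mul h4 h5 (by positivity) hCb0) h3 (norm_nonneg _) (by positivity)
      _ = Cb * r ^ (k + 2) * B * lm z := by ring

theorem good_sn {k : ℕ} (hk : 1 ≤ k) {a b : ℂ × ℂ → ℂ} (ha : AnalyticAt ℂ a 0) (hb : AnalyticAt ℂ b 0) (ha0 : a 0 ≠ 0) (hb0 : b 0 ≠ 0) :
    Good (fun g J => (∀ᶠ p in 𝓝 (0 : ℂ × ℂ), g p = p.1 * p.2) ∧ ∀ᶠ p in 𝓝 (0 : ℂ × ℂ), J p = p.1 ^ (k + 1))
      fun p => (p.1 ^ (k + 1) * a p, p.2 * b p) := by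
  refine ⟨0, fun i => i.elim0, fun i => i.elim0, fun g J hP hW hJ => ?_⟩
  filter_upwards [locX_sn hk ha hb ha0 hb0 hP.1 hP.2 hW] with r hr
  intro s hs hsr B hB
  refine ⟨1, 1, zero_le_one, zero_le_one, fun d n q ψ hd hn hq hψ _ M F Q lm Om p hD => ?_⟩
  have hd' : (0 : ℝ) < d := by exact_mod_cast hd
  have hn' : (0 : ℝ) < n := by exact_mod_cast hn
  exact hr s hs B hB lm Om p hD.crv hD.g_ne hD.lm_cont hD.lm_nonneg hD.lm_ge _ (by positivity)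

end Pool.Agent.MQ2

end
end

section

/-!
# MQL SnA: the weight of a saddle-node with both axes is `x y` times a unit
-/

set_option autoImplicit false

open Topology Filter Metric MeasureTheory Asymptotics Laplacian

noncomputable section

namespace Pool.Agent.MQL

open Pool.Agent.H36.BP (EN)
open Pool.Agent.H30M (tau LogSing)
open Pool.Agent.MQ Pool.Agent.MQ2

/-- the weight is `x y` times a unit -/
theorem sn_unit {k : ℕ} (hk : 1 ≤ k) {a b g : ℂ × ℂ → ℂ} (ha : AnalyticAt ℂ a 0) (hb : AnalyticAt ℂ b 0) (hb0 : b 0 ≠ 0)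
    (hg : Wt (fun p => (p.1 ^ (k + 1) * a p, p.2 * b p)) g) (hG : GC g) :
    ∃ u : ℂ × ℂ → ℂ, AnalyticAt ℂ u 0 ∧ u 0 ≠ 0 ∧ ∀ᶠ p in 𝓝 (0 : ℂ × ℂ), g p = p.1 * p.2 * u p := by
  obtain ⟨g₀, hg₀, h⟩ := hG
  obtain ⟨u, hu, hu0, h1 | h1⟩ := wt_sn hk ha hb hb0 hg (g₀ := fun p => p.2 * g₀ p) (analyticAt_snd.mul hg₀) (h.mono fun p hp => by rw [hp, mul_assoc])
  · exfalso
    have h2 : ∀ᶠ p in 𝓝 (0 : ℂ × ℂ), p.1 * (u p - p.2 * g₀ p) = 0 := by
      filter_upwards [h, h1] with p e1 e2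
      linear_combination e1 - e2
    have h3 := WtN.zero_of_mul (ℓ := fun p : ℂ × ℂ => p.1) (E := fun p => u p - p.2 * g₀ p) (hu.sub (analyticAt_snd.mul hg₀)) WtN.freq_fst h2
    have h4 := h3.self_of_nhds
    simp at h4
    exact hu0 h4
  · exact ⟨u, hu, hu0, h1⟩

end Pool.Agent.MQL

end
end

section

/-!
# MQL SnD0: units in the weight, from `LocalN1` to `LocX` with a bigger density
-/

set_option autoImplicit false

open Topology Filter Metric MeasureTheory Asymptotics Laplacian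

noncomputable section

namespace Pool.Agent.MQL

open Pool.Agent.H36.BP (EN)
open Pool.Agent.H30M (tau LogSing)
open Pool.Agent.MQ Pool.Agent.MQ2

variable {v : ℂ × ℂ → ℂ × ℂ} {g g' u J : ℂ × ℂ → ℂ} {r : ℝ} {Om : Set ℂ} {p : ℂ → ℂ × ℂ}

/-- the field for the weight `g' u`, `u` a unit -/
theorem DDv_unit (hc : Crv1 v r Om p) {z : ℂ} (hz : z ∈ Om) (hu : AnalyticAt ℂ u (p z)) (hu0 : u (p z) ≠ 0) (hg' : AnalyticAt ℂ g' (p z)) (hne : g' (p z) ≠ 0)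
    (hg : ∀ᶠ q in 𝓝 (p z), g q = g' q * u q) : DDv v g p z = DDv v g' p z - deriv (fun w => u (p w)) z / u (p z) := by
  have hpz := hc.an z hz
  have hU : DifferentiableAt ℂ (fun w => u (p w)) z := (hu.fun_comp hpz).differentiableAt
  have hG : DifferentiableAt ℂ (fun w => g' (p w)) z := (hg'.fun_comp hpz).differentiableAt
  have e : (fun w => g (p w)) =ᶠ[𝓝 z] fun w => g' (p w) * u (p w) := by
    filter_upwards [hpz.continuousAt.eventually hg] with w hw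
    exact hw
  unfold DDv
  rw [e.deriv_eq, deriv_fun_mul hG hU, hg.self_of_nhds]
  field_simp
  ring

/-- a unit in the weight -/
theorem localN1_unit (hc : Crv1 v r Om p) (hu : AnalyticOnNhd ℂ u (closedBall 0 r)) (hu0 : ∀ q ∈ closedBall (0 : ℂ × ℂ) r, u q ≠ 0)
    (hg : ∀ q ∈ ball (0 : ℂ × ℂ) r, g q = g' q * u q) (hg' : ∀ z ∈ Om, AnalyticAt ℂ g' (p z)) (hne : ∀ z ∈ Om, p z ≠ 0 → g' (p z) ≠ 0)
    {I Λ : ℝ → ℝ} (hΛ : ∀ R, 1 ≤ R → 0 ≤ Λ R) {s δ : ℝ} (hs : 0 < s) (h : LocalN1 v g' Om p I Λ s δ) : LocalN1 v g Om p I Λ s δ := by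
  obtain ⟨C, η, err, hC, hη, herr, hout, hin, he0, hdv, hint⟩ := h
  have hmem : ∀ z ∈ Om, p z ∈ closedBall (0 : ℂ × ℂ) r := fun z hz => ball_subset_closedBall (hc.mem z hz)
  obtain ⟨K, hK⟩ := (isCompact_closedBall (0 : ℂ × ℂ) r).bddAbove_image (f := fun q => ‖fderiv ℂ u q‖ / ‖u q‖)
    (ContinuousOn.div (fun q hq => (hu q hq).fderiv.continuousAt.norm.continuousWithinAt) (fun q hq => (hu q hq).continuousAt.norm.continuousWithinAt)
      fun q hq => norm_ne_zero_iff.2 (hu0 q hq))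
  have hUan : ∀ z ∈ Om, AnalyticAt ℂ (fun w => u (p w)) z := fun z hz => (hu _ (hmem z hz)).fun_comp (hc.an z hz)
  set L : ℂ → ℂ := fun z => deriv (fun w => u (p w)) z / u (p z) with hL
  have hLan : ∀ z ∈ Om, AnalyticAt ℂ L z := fun z hz => (hUan z hz).deriv.div (hUan z hz) (hu0 _ (hmem z hz))
  have hLb : ∀ z ∈ Om, ‖L z‖ ≤ max K 0 * ‖deriv p z‖ := by
    intro z hz
    have h1 : deriv (fun w => u (p w)) z = fderiv ℂ u (p z) (deriv p z) :=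
      ((hu _ (hmem z hz)).differentiableAt.hasFDerivAt.comp_hasDerivAt z (hc.an z hz).differentiableAt.hasDerivAt).deriv
    have h2 : ‖fderiv ℂ u (p z)‖ / ‖u (p z)‖ ≤ max K 0 := (hK ⟨p z, hmem z hz, rfl⟩).trans (le_max_left _ _)
    have h3 : 0 < ‖u (p z)‖ := norm_pos_iff.2 (hu0 _ (hmem z hz))
    calc ‖L z‖ = ‖fderiv ℂ u (p z) (deriv p z)‖ / ‖u (p z)‖ := by rw [hL, norm_div, h1]
      _ ≤ ‖fderiv ℂ u (p z)‖ * ‖deriv p z‖ / ‖u (p z)‖ := by gcongr; exact ContinuousLinearMap.le_opNorm _ _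
      _ = ‖fderiv ℂ u (p z)‖ / ‖u (p z)‖ * ‖deriv p z‖ := by ring
      _ ≤ _ := mul_le_mul_of_nonneg_right h2 (norm_nonneg _)
  have hK0 : 0 ≤ max K 0 := le_max_right _ _
  refine ⟨C + max K 0, fun z => η z - (starRingEnd ℂ) (L z), err, add_nonneg hC hK0, ?_, herr, fun z hz hs' => ⟨?_, (hout z hz hs').2⟩, fun z hz hs' => ?_, he0,
    fun z hz => ?_, fun R hR => ?_⟩
  · exact hη.sub fun z hz => (contDiffAt_conj_holo (hLan z hz)).contDiffWithinAt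
  · have h0 : p z ≠ 0 := fun h0 => hs' (by rw [h0]; exact mem_ball_self hs)
    have h1 : ∀ᶠ q in 𝓝 (p z), g q = g' q * u q := by
      filter_upwards [isOpen_ball.mem_nhds (hc.mem z hz)] with q hq
      exact hg q hq
    show η z - (starRingEnd ℂ) (L z) = (starRingEnd ℂ) (DDv v g p z)
    rw [DDv_unit hc hz (hu _ (hmem z hz)) (hu0 _ (hmem z hz)) (hg' z hz) (hne z hz h0) h1, (hout z hz hs').1, map_sub]
  · refine (norm_sub_le _ _).trans ?_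
    rw [RCLike.norm_conj, add_mul]
    exact add_le_add (hin z hz hs') (hLb z hz)
  · have h1 : DifferentiableAt ℝ η z := ((hη z hz).contDiffAt (hc.isOpen.mem_nhds hz)).differentiableAt (by norm_num)
    have h2 : DifferentiableAt ℝ (fun w => (starRingEnd ℂ) (L w)) z := (contDiffAt_conj_holo (n := 1) (hLan z hz)).differentiableAt (by norm_num)
    have h3 : dv (fun z => η z - (starRingEnd ℂ) (L z)) z = dv η z := by
      have h4 := dv_sub h1 h2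
      rw [dv_conj (hLan z hz).differentiableAt, sub_zero] at h4
      exact h4
    rw [h3]
    exact hdv z hz
  · have h1 := hint R hR
    have h2 := mul_nonneg hK0 (hΛ R hR)
    nlinarith

/-- **From `LocalN1` to `LocX`**, with `Φ = 0` and a bigger density. -/
theorem locX_of_localN1_den {lm l : ℂ → ℝ} {s δ B C₁ A K : ℝ} (hC₁ : 0 ≤ C₁) (hlc : Continuous l) (hl0 : ∀ z, 0 ≤ lm z) (hle : ∀ z, lm z ≤ l z)
    (hE : ∀ R, 1 ≤ R → ∫ z, tau R z * l z ^ 2 ≤ A * (∫ z, tau R z * lm z ^ 2) + K) (hp : ∀ z ∈ Om, ‖deriv p z‖ ≤ B * lm z)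
    (h : LocalN1 v g Om p (fun R => ∫ z, tau R z * lm z ^ 2) (fun R => ∫ z, ‖gr (tau R) z‖ * l z) s δ)
    (hpt : ∀ z ∈ Om, ztv v p z ≠ 0 → g (p z) ≠ 0 → J (p z) ≠ 0 → ‖ztv v p z‖ * ‖g (p z)‖ * ‖J (p z)‖ ≤ C₁ * l z) : LocX v g J Om p lm s A δ := by
  obtain ⟨C, η, err, hC, hη, herr, hout, hin, he0, hdv, hint⟩ := h
  have hl0' : ∀ z, 0 ≤ l z := fun z => (hl0 z).trans (hle z)
  have hL : ∀ R : ℝ, 0 ≤ ∫ z, ‖gr (tau R) z‖ * l z := fun R => integral_nonneg fun z => mul_nonneg (norm_nonneg _) (hl0' z)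
  set C' : ℝ := max (C * B) (max C (max (Real.log (1 + C₁)) K)) with hC'
  have c1 : C * B ≤ C' := le_max_left _ _
  have c2 : C ≤ C' := (le_max_left _ _).trans (le_max_right _ _)
  have c3 : Real.log (1 + C₁) ≤ C' := (le_max_left _ _).trans ((le_max_right _ _).trans (le_max_right _ _))
  have c4 : K ≤ C' := (le_max_right _ _).trans ((le_max_right _ _).trans (le_max_right _ _))
  refine ⟨C', l, η, fun _ => 0, err, hC.trans c2, hlc, hle, fun R hR => (hE R hR).trans (add_le_add le_rfl c4), hη, herr,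
    fun z _ => ⟨0, ?_⟩, fun z hz hs => ⟨(hout z hz hs).1, (hout z hz hs).2, rfl⟩, fun z hz hs => ?_, fun z hz _ => ?_, fun z hz _ h1 h2 h3 => ?_, fun R hR => ?_⟩
  · refine ⟨fun _ => 0, contDiff_const.contDiffAt, Eventually.of_forall fun w => by simp⟩
  · refine (hin z hz hs).trans ?_
    calc C * ‖deriv p z‖ ≤ C * (B * lm z) := mul_le_mul_of_nonneg_left (hp z hz) hC
      _ = C * B * lm z := by ring
      _ ≤ C' * l z := mul_le_mul c1 (hle z) (hl0 z) (hC.trans c2)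
  · have h0 : Δ (fun _ : ℂ => (0 : ℝ)) z = 0 := by
      rw [InnerProductSpace.laplacian_const]
      rfl
    rw [h0, add_zero]
    exact hdv z hz
  · have h4 := hpt z hz h1 h2 h3
    have h5 : Real.log ‖ztv v p z‖ + Real.log ‖g (p z)‖ + Real.log ‖J (p z)‖ = Real.log (‖ztv v p z‖ * ‖g (p z)‖ * ‖J (p z)‖) := by
      rw [Real.log_mul (mul_ne_zero (norm_ne_zero_iff.2 h1) (norm_ne_zero_iff.2 h2)) (norm_ne_zero_iff.2 h3), Real.log_mul (norm_ne_zero_iff.2 h1) (norm_ne_zero_iff.2 h2)]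
    rw [h5, add_zero]
    have h6 : 0 < ‖ztv v p z‖ * ‖g (p z)‖ * ‖J (p z)‖ :=
      mul_pos (mul_pos (norm_pos_iff.2 h1) (norm_pos_iff.2 h2)) (norm_pos_iff.2 h3)
    have h7 : C₁ * l z ≤ (1 + C₁) * (1 + l z) := by nlinarith [hl0' z]
    calc Real.log (‖ztv v p z‖ * ‖g (p z)‖ * ‖J (p z)‖) ≤ Real.log ((1 + C₁) * (1 + l z)) := Real.log_le_log h6 (h4.trans h7)
      _ = Real.log (1 + C₁) + Real.log (1 + l z) := Real.log_mul (by linarith) (by linarith [hl0' z])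
      _ ≤ _ := by gcongr
  · refine (hint R hR).trans ?_
    have h2 := mul_le_mul_of_nonneg_right c2 (hL R)
    simp only at h2 ⊢
    linarith

end Pool.Agent.MQL

end
end

section

/-!
# MQ3 NC: the canonical vector of a regular box and the vector field of a chart upstairs

`κ : ℂ² → ℂ²` is the map from a chart upstairs to a box, `v` the vector field upstairs, `jc κ` the Jacobian.  The vectors `hv0 = Dκ v`,
`hv1 = (v x, x v y)`, `hv2 = (y v x, x v y)`, `κ = (x, y)`, are `jc κ * g` times a vector without zeros, where `g = 1` if the exceptional curve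
`{G = 0}` is transversal to `v`, and `g = G` if it is invariant.
-/

set_option autoImplicit false

open Topology Filter Metric

noncomputable section

namespace Pool.Agent.MQ3

variable {κ v : ℂ × ℂ → ℂ × ℂ} {G u a : ℂ × ℂ → ℂ} {P : ℂ × ℂ} {n : ℕ}

/-- the canonical vector off the divisor -/
def hv0 (κ v : ℂ × ℂ → ℂ × ℂ) (Q : ℂ × ℂ) : ℂ × ℂ := fderiv ℂ κ Q (v Q)

/-- the canonical vector at a smooth point of the divisor `{x = 0}` -/
def hv1 (κ v : ℂ × ℂ → ℂ × ℂ) (Q : ℂ × ℂ) : ℂ × ℂ := ((fderiv ℂ κ Q (v Q)).1, (κ Q).1 * (fderiv ℂ κ Q (v Q)).2)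

/-- the canonical vector at a crossing point of the divisor `{x y = 0}` -/
def hv2 (κ v : ℂ × ℂ → ℂ × ℂ) (Q : ℂ × ℂ) : ℂ × ℂ := ((κ Q).2 * (fderiv ℂ κ Q (v Q)).1, (κ Q).1 * (fderiv ℂ κ Q (v Q)).2)

theorem analyticAt_fderiv_app {E : Type*} [NormedAddCommGroup E] [NormedSpace ℂ E] {f : ℂ × ℂ → E} {v : ℂ × ℂ → ℂ × ℂ} {P : ℂ × ℂ}
    (hf : AnalyticAt ℂ f P) (hv : AnalyticAt ℂ v P) [CompleteSpace E] : AnalyticAt ℂ (fun Q => fderiv ℂ f Q (v Q)) P :=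
  AnalyticAt.comp (g := fun z : (ℂ × ℂ →L[ℂ] E) × (ℂ × ℂ) => z.1 z.2) (f := fun q => (fderiv ℂ f q, v q))
    (ContinuousLinearMap.analyticAt_bilinear (ContinuousLinearMap.id ℂ (ℂ × ℂ →L[ℂ] E)) _) (hf.fderiv.prod hv)

theorem analyticAt_hv2 (hκ : AnalyticAt ℂ κ P) (hv : AnalyticAt ℂ v P) : AnalyticAt ℂ (hv2 κ v) P :=
  ((analyticAt_snd.fun_comp hκ).mul (analyticAt_fst.fun_comp (analyticAt_fderiv_app hκ hv))).prod
    ((analyticAt_fst.fun_comp hκ).mul (analyticAt_snd.fun_comp (analyticAt_fderiv_app hκ hv)))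

/-- a linear map with nonzero determinant is injective -/
theorem eq_zero_of_jc (h : jc κ P ≠ 0) {w : ℂ × ℂ} (hw : fderiv ℂ κ P w = 0) : w = 0 := by
  rw [split_vec] at hw
  have h1 := congrArg Prod.fst hw
  have h2 := congrArg Prod.snd hw
  simp only [Prod.fst_add, Prod.snd_add, Prod.smul_fst, Prod.smul_snd, smul_eq_mul, Prod.fst_zero, Prod.snd_zero] at h1 h2
  unfold jc at h
  have h3 : w.1 * ((fderiv ℂ κ P (1, 0)).1 * (fderiv ℂ κ P (0, 1)).2 - (fderiv ℂ κ P (0, 1)).1 * (fderiv ℂ κ P (1, 0)).2) = 0 := by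
    linear_combination (fderiv ℂ κ P (0, 1)).2 * h1 - (fderiv ℂ κ P (0, 1)).1 * h2
  have h4 : w.2 * ((fderiv ℂ κ P (1, 0)).1 * (fderiv ℂ κ P (0, 1)).2 - (fderiv ℂ κ P (0, 1)).1 * (fderiv ℂ κ P (1, 0)).2) = 0 := by
    linear_combination (fderiv ℂ κ P (1, 0)).1 * h2 - (fderiv ℂ κ P (1, 0)).2 * h1
  exact Prod.ext ((mul_eq_zero.1 h3).resolve_right h) ((mul_eq_zero.1 h4).resolve_right h)

/-! ### at the points where `κ` is etale -/

/-! ### over a smooth point of the divisor -/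

/-! ### over a crossing point of the divisor -/

variable {w w' : ℕ × ℕ}

/-- the vector `M (α, β)`, `M` the matrix of the exponents -/
def mv (w w' : ℕ × ℕ) (L : ℂ × ℂ) : ℂ × ℂ := (w.1 * L.1 + w'.1 * L.2, w.2 * L.1 + w'.2 * L.2)

theorem mv_smul (c : ℂ) (L : ℂ × ℂ) : mv w w' (c • L) = c • mv w w' L := by
  unfold mv
  ext
  · simp only [Prod.smul_fst, Prod.smul_snd, smul_eq_mul]
    ring
  · simp only [Prod.smul_fst, Prod.smul_snd, smul_eq_mul]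
    ring

theorem mv_ne (hd : dt w w' ≠ 0) {L : ℂ × ℂ} (h : L ≠ 0) : mv w w' L ≠ 0 := by
  intro h0
  apply h
  have h1 : ((dt w w' : ℤ) : ℂ) ≠ 0 := by exact_mod_cast hd
  have h2 : (w.1 : ℂ) * L.1 + w'.1 * L.2 = 0 := congrArg Prod.fst h0
  have h3 : (w.2 : ℂ) * L.1 + w'.2 * L.2 = 0 := congrArg Prod.snd h0
  rw [dt_cast] at h1
  refine Prod.ext ?_ ?_
  · refine (mul_eq_zero.1 (?_ : L.1 * ((w.1 : ℂ) * w'.2 - w.2 * w'.1) = 0)).resolve_right h1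
    linear_combination (w'.2 : ℂ) * h2 - (w'.1 : ℂ) * h3
  · refine (mul_eq_zero.1 (?_ : L.2 * ((w.1 : ℂ) * w'.2 - w.2 * w'.1) = 0)).resolve_right h1
    linear_combination (w.1 : ℂ) * h3 - (w.2 : ℂ) * h2

theorem analyticAt_mv {L : ℂ × ℂ → ℂ × ℂ} (hL : AnalyticAt ℂ L P) : AnalyticAt ℂ (fun Q => mv w w' (L Q)) P := by
  have h1 := analyticAt_fst.fun_comp hL
  have h2 := analyticAt_snd.fun_comp hL
  exact ((analyticAt_const.fun_mul h1).fun_add (analyticAt_const.fun_mul h2)).prod ((analyticAt_const.fun_mul h1).fun_add (analyticAt_const.fun_mul h2))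

/-- the logarithmic vector `(t v₁, s v₂)` of a vector field -/
def Lv (v : ℂ × ℂ → ℂ × ℂ) (Q : ℂ × ℂ) : ℂ × ℂ := (Q.2 * (v Q).1, Q.1 * (v Q).2)

theorem analyticAt_Lv (hv : AnalyticAt ℂ v P) : AnalyticAt ℂ (Lv v) P :=
  (analyticAt_snd.mul (analyticAt_fst.fun_comp hv)).prod (analyticAt_fst.mul (analyticAt_snd.fun_comp hv))

/-- `s t (y v x, x v y) = x y M L`. -/
theorem hv2_mono (v : ℂ × ℂ → ℂ × ℂ) (Q : ℂ × ℂ) : (Q.1 * Q.2) • hv2 (mono w w') v Q =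
    ((mono w w' Q).1 * (mono w w' Q).2) • mv w w' (Lv v Q) := by
  have key : ∀ m n : ℕ, Q.1 * Q.2 * (m * Q.1 ^ (m - 1) * Q.2 ^ n * (v Q).1 + n * Q.1 ^ m * Q.2 ^ (n - 1) * (v Q).2) =
      Q.1 ^ m * Q.2 ^ n * (m * (Q.2 * (v Q).1) + n * (Q.1 * (v Q).2)) := by
    intro m n
    rcases m with _ | m <;> rcases n with _ | n <;> simp [pow_succ] <;> ring
  unfold hv2 mv Lv
  rw [fderiv_mono]
  ext
  · simp only [Prod.smul_fst, smul_eq_mul]
    show Q.1 * Q.2 * ((Q.1 ^ w.2 * Q.2 ^ w'.2) * (w.1 * Q.1 ^ (w.1 - 1) * Q.2 ^ w'.1 * (v Q).1 + w'.1 * Q.1 ^ w.1 * Q.2 ^ (w'.1 - 1) * (v Q).2)) =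
      ((Q.1 ^ w.1 * Q.2 ^ w'.1) * (Q.1 ^ w.2 * Q.2 ^ w'.2)) * (w.1 * (Q.2 * (v Q).1) + w'.1 * (Q.1 * (v Q).2))
    linear_combination (Q.1 ^ w.2 * Q.2 ^ w'.2) * key w.1 w'.1
  · simp only [Prod.smul_snd, smul_eq_mul]
    show Q.1 * Q.2 * ((Q.1 ^ w.1 * Q.2 ^ w'.1) * (w.2 * Q.1 ^ (w.2 - 1) * Q.2 ^ w'.2 * (v Q).1 + w'.2 * Q.1 ^ w.2 * Q.2 ^ (w'.2 - 1) * (v Q).2)) =
      ((Q.1 ^ w.1 * Q.2 ^ w'.1) * (Q.1 ^ w.2 * Q.2 ^ w'.2)) * (w.2 * (Q.2 * (v Q).1) + w'.2 * (Q.1 * (v Q).2))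
    linear_combination (Q.1 ^ w.1 * Q.2 ^ w'.1) * key w.2 w'.2

theorem jc_mono (Q : ℂ × ℂ) : Q.1 * Q.2 * jc (mono w w') Q = dt w w' * ((mono w w' Q).1 * (mono w w' Q).2) := by
  rw [← mul_assoc, ← jac_mono, jc]
  ring

/-- **The canonical vector in a monomial chart**: `det M (y v x, x v y) = J M L`. -/
theorem hv2_mono_jc (v : ℂ × ℂ → ℂ × ℂ) (Q : ℂ × ℂ) :
    ((dt w w' : ℤ) : ℂ) • hv2 (mono w w') v Q = jc (mono w w') Q • mv w w' (Lv v Q) := by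
  -- both sides are continuous in `Q` for a constant vector field
  have h1 : ∀ c : ℂ × ℂ, ((dt w w' : ℤ) : ℂ) • hv2 (mono w w') (fun _ => c) Q = jc (mono w w') Q • mv w w' (Lv (fun _ => c) Q) := by
    intro c
    have hc : ∀ q, AnalyticAt ℂ (fun _ : ℂ × ℂ => c) q := fun q => analyticAt_const
    refine eq_of_off (f := fun Q => ((dt w w' : ℤ) : ℂ) • hv2 (mono w w') (fun _ => c) Q)
      (g := fun Q => jc (mono w w') Q • mv w w' (Lv (fun _ => c) Q)) ?_ ?_ (Eventually.of_forall fun q hq => ?_)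
    · exact (analyticAt_hv2 (analyticAt_mono Q) (hc Q)).continuousAt.const_smul (((dt w w' : ℤ) : ℂ))
    · exact (jc_an (analyticAt_mono Q)).continuousAt.smul (analyticAt_mv (analyticAt_Lv (hc Q))).continuousAt
    · have h2 := hv2_mono (w := w) (w' := w') (fun _ => c) q
      have h3 := jc_mono (w := w) (w' := w') q
      have h4 : (q.1 * q.2) • (((dt w w' : ℤ) : ℂ) • hv2 (mono w w') (fun _ => c) q) = (q.1 * q.2) • (jc (mono w w') q • mv w w' (Lv (fun _ => c) q)) := by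
        rw [smul_comm, h2, smul_smul, smul_smul, h3]
      exact smul_right_injective _ hq h4
  exact h1 (v Q)

/-- **Lemma NC**, with a logarithmic vector `L = g U`. -/
theorem nc_A (hd : dt w w' ≠ 0) {g : ℂ × ℂ → ℂ} {U : ℂ × ℂ → ℂ × ℂ} (hU : AnalyticAt ℂ U P) (hU0 : U P ≠ 0)
    (hL : ∀ᶠ Q in 𝓝 P, Lv v Q = g Q • U Q) :
    ∃ N : ℂ × ℂ → ℂ × ℂ, AnalyticAt ℂ N P ∧ N P ≠ 0 ∧ ∀ᶠ Q in 𝓝 P, hv2 (mono w w') v Q = (jc (mono w w') Q * g Q) • N Q := by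
  have h1 : ((dt w w' : ℤ) : ℂ) ≠ 0 := by exact_mod_cast hd
  refine ⟨fun Q => ((dt w w' : ℤ) : ℂ)⁻¹ • mv w w' (U Q), (analyticAt_mv hU).fun_const_smul, smul_ne_zero (inv_ne_zero h1) (mv_ne hd hU0), ?_⟩
  filter_upwards [hL] with Q hQ
  have h2 := hv2_mono_jc (w := w) (w' := w') v Q
  rw [hQ, mv_smul] at h2
  rw [smul_comm, mul_smul, ← h2, smul_smul, inv_mul_cancel₀ h1, one_smul]

/-! ### the logarithmic vector at the regular points of a chart -/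

/-- division by the first coordinate at a point of the axis -/
theorem exists_div₁ {F : Type} [NormedAddCommGroup F] [NormedSpace ℂ F] [CompleteSpace F] {f : ℂ × ℂ → F} (hf : AnalyticAt ℂ f P) (hP : P.1 = 0)
    (h : ∀ᶠ Q in 𝓝 P, Q.1 = 0 → f Q = 0) : ∃ g : ℂ × ℂ → F, AnalyticAt ℂ g P ∧ ∀ᶠ Q in 𝓝 P, f Q = Q.1 • g Q := by
  have hl : AnalyticAt ℂ (fun q : ℂ × ℂ => P + q) 0 := analyticAt_const.add analyticAt_id
  have ht : Tendsto (fun q : ℂ × ℂ => P + q) (𝓝 0) (𝓝 P) := by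
    have := hl.continuousAt.tendsto
    rwa [add_zero] at this
  have hf' : AnalyticAt ℂ (fun q => f (P + q)) 0 := by
    have h1 : AnalyticAt ℂ f (P + 0) := by rwa [add_zero]
    exact AnalyticAt.comp (g := f) (f := fun q : ℂ × ℂ => P + q) (x := 0) h1 hl
  have h0 : ∀ᶠ y in 𝓝 (0 : ℂ), f (P + (0, y)) = 0 := by
    have h1 : Tendsto (fun y : ℂ => ((0 : ℂ), y)) (𝓝 0) (𝓝 (0 : ℂ × ℂ)) := by
      have : Continuous fun y : ℂ => ((0 : ℂ), y) := by fun_prop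
      exact this.tendsto 0
    filter_upwards [(ht.comp h1).eventually h] with y hy
    exact hy (by simp [hP])
  obtain ⟨g, hg, hg'⟩ := Pool.Agent.H17BP.exists_div_x hf' h0
  have hs : AnalyticAt ℂ (fun q : ℂ × ℂ => q - P) P := analyticAt_id.sub analyticAt_const
  have hst : Tendsto (fun q : ℂ × ℂ => q - P) (𝓝 P) (𝓝 0) := by
    have := hs.continuousAt.tendsto
    rwa [sub_self] at this
  refine ⟨fun Q => g (Q - P), ?_, ?_⟩
  · have h1 : AnalyticAt ℂ g (P - P) := by rwa [sub_self]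
    exact AnalyticAt.comp (g := g) (f := fun q : ℂ × ℂ => q - P) (x := P) h1 hs
  · filter_upwards [hst.eventually hg'] with Q hQ
    rw [add_sub_cancel, Prod.fst_sub, hP, sub_zero] at hQ
    exact hQ

theorem exists_div₂ {F : Type} [NormedAddCommGroup F] [NormedSpace ℂ F] [CompleteSpace F] {f : ℂ × ℂ → F} (hf : AnalyticAt ℂ f P) (hP : P.2 = 0)
    (h : ∀ᶠ Q in 𝓝 P, Q.2 = 0 → f Q = 0) : ∃ g : ℂ × ℂ → F, AnalyticAt ℂ g P ∧ ∀ᶠ Q in 𝓝 P, f Q = Q.2 • g Q := by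
  have hs : ∀ q, AnalyticAt ℂ (fun w : ℂ × ℂ => (w.2, w.1)) q := fun q => analyticAt_snd.prod analyticAt_fst
  have hst : Tendsto (fun w : ℂ × ℂ => (w.2, w.1)) (𝓝 (P.2, P.1)) (𝓝 P) := (hs (P.2, P.1)).continuousAt.tendsto
  have hst' : Tendsto (fun w : ℂ × ℂ => (w.2, w.1)) (𝓝 P) (𝓝 (P.2, P.1)) := (hs P).continuousAt.tendsto
  obtain ⟨g, hg, hg'⟩ := exists_div₁ (P := (P.2, P.1)) (f := fun w => f (w.2, w.1))
    (AnalyticAt.comp (g := f) (f := fun w : ℂ × ℂ => (w.2, w.1)) (x := (P.2, P.1)) hf (hs _)) hP (by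
      filter_upwards [hst.eventually h] with Q hQ hQ0
      exact hQ hQ0)
  refine ⟨fun w => g (w.2, w.1), AnalyticAt.comp (g := g) (f := fun w : ℂ × ℂ => (w.2, w.1)) (x := P) hg (hs _), ?_⟩
  filter_upwards [hst'.eventually hg'] with Q hQ
  exact hQ

/-- off the axes -/
theorem Lv_off (h0 : P.1 * P.2 ≠ 0) (hv : v P ≠ 0) : Lv v P ≠ 0 := by
  intro h
  have h1 : P.2 * (v P).1 = 0 := congrArg Prod.fst h
  have h2 : P.1 * (v P).2 = 0 := congrArg Prod.snd h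
  exact hv (Prod.ext ((mul_eq_zero.1 h1).resolve_left (right_ne_zero_of_mul h0)) ((mul_eq_zero.1 h2).resolve_left (left_ne_zero_of_mul h0)))

theorem Lv_trans₁ (h2 : P.2 ≠ 0) (hv : (v P).1 ≠ 0) : Lv v P ≠ 0 := fun h => mul_ne_zero h2 hv (congrArg Prod.fst h)

theorem Lv_trans₂ (h1 : P.1 ≠ 0) (hv : (v P).2 ≠ 0) : Lv v P ≠ 0 := fun h => mul_ne_zero h1 hv (congrArg Prod.snd h)

/-- on the invariant axis `{s = 0}` -/
theorem Lv_inv₁ (hv : AnalyticAt ℂ v P) (h1 : P.1 = 0) (hv0 : v P ≠ 0) (hi : ∀ᶠ Q in 𝓝 P, Q.1 = 0 → (v Q).1 = 0) :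
    ∃ U : ℂ × ℂ → ℂ × ℂ, AnalyticAt ℂ U P ∧ U P ≠ 0 ∧ ∀ᶠ Q in 𝓝 P, Lv v Q = Q.1 • U Q := by
  obtain ⟨g, hg, hg'⟩ := exists_div₁ (analyticAt_fst.fun_comp hv) h1 hi
  refine ⟨fun Q => (Q.2 * g Q, (v Q).2), (analyticAt_snd.mul hg).prod (analyticAt_snd.fun_comp hv), ?_, ?_⟩
  · intro h
    have h2 : (v P).2 = 0 := congrArg Prod.snd h
    exact hv0 (Prod.ext (hi.self_of_nhds h1) h2)
  · filter_upwards [hg'] with Q hQ
    rw [smul_eq_mul] at hQ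
    unfold Lv
    ext
    · simp only [Prod.smul_fst, smul_eq_mul]
      rw [hQ]
      ring
    · simp only [Prod.smul_snd, smul_eq_mul]

/-- on the invariant axis `{t = 0}` -/
theorem Lv_inv₂ (hv : AnalyticAt ℂ v P) (h2 : P.2 = 0) (hv0 : v P ≠ 0) (hi : ∀ᶠ Q in 𝓝 P, Q.2 = 0 → (v Q).2 = 0) :
    ∃ U : ℂ × ℂ → ℂ × ℂ, AnalyticAt ℂ U P ∧ U P ≠ 0 ∧ ∀ᶠ Q in 𝓝 P, Lv v Q = Q.2 • U Q := by
  obtain ⟨g, hg, hg'⟩ := exists_div₂ (analyticAt_snd.fun_comp hv) h2 hi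
  refine ⟨fun Q => ((v Q).1, Q.1 * g Q), (analyticAt_fst.fun_comp hv).prod (analyticAt_fst.mul hg), ?_, ?_⟩
  · intro h
    have h3 : (v P).1 = 0 := congrArg Prod.fst h
    exact hv0 (Prod.ext h3 (hi.self_of_nhds h2))
  · filter_upwards [hg'] with Q hQ
    rw [smul_eq_mul] at hQ
    unfold Lv
    ext
    · simp only [Prod.smul_fst, smul_eq_mul]
    · simp only [Prod.smul_snd, smul_eq_mul]
      rw [hQ]
      ring

end Pool.Agent.MQ3

end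
end

section

/-!
# MQ3 NCD: division by an equation of a smooth curve, and lemma NC at an invariant curve
-/

set_option autoImplicit false

open Topology Filter Metric

noncomputable section

namespace Pool.Agent.MQ3

open Pool.Agent.H17BP (Coord Bihol coord_iff dx dy exists_div_x)

variable {P : ℂ × ℂ}

private theorem quot0 {F : Type} [NormedAddCommGroup F] [NormedSpace ℂ F] [CompleteSpace F] {G T : ℂ × ℂ → ℂ} {f : ℂ × ℂ → F} (hC : Coord G T)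
    (hf : AnalyticAt ℂ f 0) (h : ∀ᶠ Q in 𝓝 (0 : ℂ × ℂ), G Q = 0 → f Q = 0) :
    ∃ a : ℂ × ℂ → F, AnalyticAt ℂ a 0 ∧ ∀ᶠ Q in 𝓝 (0 : ℂ × ℂ), f Q = G Q • a Q := by
  obtain ⟨θ, hθ, hθ0, h1, h2⟩ := hC.inv
  have hψ : AnalyticAt ℂ (fun s => f (θ s)) 0 := by
    have h3 : AnalyticAt ℂ f (θ 0) := by rwa [hθ0]
    exact h3.fun_comp hθ
  have ht : Tendsto θ (𝓝 0) (𝓝 0) := by
    have := hθ.continuousAt.tendsto
    rwa [hθ0] at this
  have h4 : ∀ᶠ y in 𝓝 (0 : ℂ), f (θ (0, y)) = 0 := by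
    have h5 : Tendsto (fun y : ℂ => ((0 : ℂ), y)) (𝓝 0) (𝓝 (0 : ℂ × ℂ)) := (Continuous.prodMk_right (0 : ℂ)).tendsto 0
    filter_upwards [h5.eventually h2, h5.eventually (ht.eventually h)] with y h6 h7
    exact h7 (congrArg Prod.fst h6)
  obtain ⟨g, hg, hg'⟩ := exists_div_x hψ h4
  have hC0 : (fun x => (G x, T x)) (0 : ℂ × ℂ) = 0 := hC.zero
  have htC : Tendsto (fun x => (G x, T x)) (𝓝 0) (𝓝 (0 : ℂ × ℂ)) := by
    have := hC.an.continuousAt.tendsto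
    have h0 : ((G 0, T 0) : ℂ × ℂ) = 0 := hC0
    rwa [h0] at this
  refine ⟨fun Q => g (G Q, T Q), ?_, ?_⟩
  · have h3 : AnalyticAt ℂ g ((fun x => (G x, T x)) (0 : ℂ × ℂ)) := by rwa [hC0]
    exact AnalyticAt.comp (g := g) (f := fun x => (G x, T x)) (x := (0 : ℂ × ℂ)) h3 hC.an
  · filter_upwards [h1, htC.eventually hg'] with Q h5 h6
    rw [h5] at h6
    exact h6

/-- **Division by an equation of a smooth curve.** -/
theorem exists_quot_smooth {F : Type} [NormedAddCommGroup F] [NormedSpace ℂ F] [CompleteSpace F] {G : ℂ × ℂ → ℂ} {f : ℂ × ℂ → F}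
    (hG : AnalyticAt ℂ G P) (hG0 : G P = 0) (hdG : fderiv ℂ G P ≠ 0) (hf : AnalyticAt ℂ f P) (h : ∀ᶠ Q in 𝓝 P, G Q = 0 → f Q = 0) :
    ∃ a : ℂ × ℂ → F, AnalyticAt ℂ a P ∧ ∀ᶠ Q in 𝓝 P, f Q = G Q • a Q := by
  have hl : AnalyticAt ℂ (fun q : ℂ × ℂ => P + q) 0 := analyticAt_const.add analyticAt_id
  have hl' : AnalyticAt ℂ (fun q : ℂ × ℂ => q - P) P := analyticAt_id.sub analyticAt_const
  have ht : Tendsto (fun q : ℂ × ℂ => P + q) (𝓝 0) (𝓝 P) := by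
    have := hl.continuousAt.tendsto
    rwa [add_zero] at this
  have ht' : Tendsto (fun q : ℂ × ℂ => q - P) (𝓝 P) (𝓝 0) := by
    have := hl'.continuousAt.tendsto
    rwa [sub_self] at this
  have hG' : AnalyticAt ℂ (fun q => G (P + q)) 0 := by
    have h1 : AnalyticAt ℂ G (P + 0) := by rwa [add_zero]
    exact AnalyticAt.comp (g := G) (f := fun q : ℂ × ℂ => P + q) (x := 0) h1 hl
  have hf' : AnalyticAt ℂ (fun q => f (P + q)) 0 := by
    have h1 : AnalyticAt ℂ f (P + 0) := by rwa [add_zero]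
    exact AnalyticAt.comp (g := f) (f := fun q : ℂ × ℂ => P + q) (x := 0) h1 hl
  have hG00 : (fun q => G (P + q)) 0 = 0 := by
    show G (P + 0) = 0
    rw [add_zero, hG0]
  have hd : fderiv ℂ (fun q => G (P + q)) 0 = fderiv ℂ G P := by
    rw [fderiv_comp_add_left, add_zero]
  have hC : ∃ T : ℂ × ℂ → ℂ, Coord (fun q => G (P + q)) T := by
    by_cases hx : fderiv ℂ G P (1, 0) = 0
    · have hy : fderiv ℂ G P (0, 1) ≠ 0 := by
        intro hy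
        apply hdG
        ext
        · simpa using hx
        · simpa using hy
      refine ⟨Prod.fst, (coord_iff hG' analyticAt_fst hG00 rfl).2 ?_⟩
      have h1 : dx (Prod.fst : ℂ × ℂ → ℂ) 0 = 1 := by simp [dx, fderiv_fst]
      have h2 : dy (Prod.fst : ℂ × ℂ → ℂ) 0 = 0 := by simp [dy, fderiv_fst]
      rw [h1, h2, dx, dy, hd, hx, mul_zero, mul_one, zero_sub, neg_ne_zero]
      exact hy
    · refine ⟨Prod.snd, (coord_iff hG' analyticAt_snd hG00 rfl).2 ?_⟩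
      have h1 : dx (Prod.snd : ℂ × ℂ → ℂ) 0 = 0 := by simp [dx, fderiv_snd]
      have h2 : dy (Prod.snd : ℂ × ℂ → ℂ) 0 = 1 := by simp [dy, fderiv_snd]
      rw [h1, h2, dx, dy, hd, mul_zero, mul_one, sub_zero]
      exact hx
  obtain ⟨T, hC⟩ := hC
  obtain ⟨a, ha, ha'⟩ := quot0 hC hf' (ht.eventually h)
  refine ⟨fun Q => a (Q - P), ?_, ?_⟩
  · have h1 : AnalyticAt ℂ a (P - P) := by rwa [sub_self]
    exact AnalyticAt.comp (g := a) (f := fun q : ℂ × ℂ => q - P) (x := P) h1 hl'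
  · filter_upwards [ht'.eventually ha'] with Q hQ
    rwa [add_sub_cancel] at hQ

/-- a smooth invariant curve has a cofactor -/
theorem exists_cof {G : ℂ × ℂ → ℂ} {v : ℂ × ℂ → ℂ × ℂ} (hG : AnalyticAt ℂ G P) (hG0 : G P = 0) (hdG : fderiv ℂ G P ≠ 0) (hv : AnalyticAt ℂ v P)
    (h : ∀ᶠ Q in 𝓝 P, G Q = 0 → fderiv ℂ G Q (v Q) = 0) : ∃ a : ℂ × ℂ → ℂ, AnalyticAt ℂ a P ∧ ∀ᶠ Q in 𝓝 P, fderiv ℂ G Q (v Q) = G Q * a Q :=
  exists_quot_smooth hG hG0 hdG (analyticAt_fderiv_app hG hv) h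

end Pool.Agent.MQ3

end
end
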