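import Pool.Agent.H43.TL2.M38
import Pool.Agent.H43.TL2.M45
import Pool.Agent.H43.TL2.M66
import Pool.Agent.H43.TL2.M67
import Pool.Agent.H43.TL2.M73

/-! The parts of this file: MQL.RegDB_1, MQL.SnD, MQ3.SatN, MQL.SDefs. -/

section

/-!
# MQL RegDB: regular points, the germs

`v 0` has a second component `≠ 0`.  If `{x = 0}` is not a leaf, then `|y| ^ k ≤ C (|x| + |y| |v₁|)` for one more than the order `k - 1` of `v₁` on the axis, and the
same holds for the weights which vanish at the origin.  The bound `|g| E ≤ C (|x| + |y| |v₁|)` gives `|ζ'| |g| E |x| ^ al |y| ^ be ≤ C' l` for the root densities.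
-/

set_option autoImplicit false

open Topology Filter Metric MeasureTheory Asymptotics Laplacian Set

noncomputable section

namespace Pool.Agent.MQL

open Pool.Agent.H36.BP (EN)
open Pool.Agent.H30M (tau LogSing)
open Pool.Agent.MQ Pool.Agent.MQ2

/-! ## the two root densities -/

/-- **The pointwise bound.** -/
theorem reg_bound {v : ℂ × ℂ → ℂ × ℂ} {r : ℝ} {Om : Set ℂ} {p : ℂ → ℂ × ℂ} (hp : Crv1 v r Om p) (hr : r ≤ 1) {al be : ℝ} (hal : -1 < al) (hbe : -1 < be)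
    {m : ℝ} (hm : 0 < m) {z : ℂ} (hz : z ∈ Om) (hv : m ≤ ‖(v (p z)).2‖) {L : ℝ} (h1 : ‖(deriv p z).1‖ * ‖(p z).1‖ ^ al ≤ L)
    (h2 : ‖(deriv p z).2‖ * ‖(p z).2‖ ^ be ≤ L) : ‖ztv v p z‖ * rg v (p z) * ‖JD al be (p z)‖ ≤ (1 + 1 / m) * L ∧
      ‖ztv v p z‖ * ‖(p z).2‖ ^ be ≤ 1 / m * L := by
  have hv0 : v (p z) ≠ 0 := by
    intro h
    rw [h, Prod.snd_zero, norm_zero] at hv
    linarith
  have hpr : ‖p z‖ ≤ 1 := by
    have := hp.mem z hz
    rw [mem_ball_zero_iff] at this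
    linarith
  have hx1 : ‖(p z).1‖ ≤ 1 := (norm_fst_le _).trans hpr
  have hy1 : ‖(p z).2‖ ≤ 1 := (norm_snd_le _).trans hpr
  have e1 : ‖(deriv p z).1‖ = ‖ztv v p z‖ * ‖(v (p z)).1‖ := by rw [hp.deriv_fst hz hv0, norm_mul]
  have e2 : ‖(deriv p z).2‖ = ‖ztv v p z‖ * ‖(v (p z)).2‖ := by rw [hp.deriv_snd hz hv0, norm_mul]
  have hzt := norm_nonneg (ztv v p z)
  have h3 : ‖ztv v p z‖ ≤ 1 / m * ‖(deriv p z).2‖ := by
    rw [e2, one_div, inv_mul_eq_div, le_div_iff₀ hm]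
    exact mul_le_mul_of_nonneg_left hv hzt
  have h4 : ‖ztv v p z‖ * ‖(p z).2‖ ^ be ≤ 1 / m * L := by
    calc ‖ztv v p z‖ * ‖(p z).2‖ ^ be ≤ 1 / m * ‖(deriv p z).2‖ * ‖(p z).2‖ ^ be := mul_le_mul_of_nonneg_right h3 (by positivity)
      _ = 1 / m * (‖(deriv p z).2‖ * ‖(p z).2‖ ^ be) := by ring
      _ ≤ 1 / m * L := mul_le_mul_of_nonneg_left h2 (by positivity)
  refine ⟨?_, h4⟩
  have hL : 0 ≤ L := le_trans (by positivity) h1
  rw [JD_norm]
  have h5 : ‖ztv v p z‖ * rg v (p z) * (‖(p z).1‖ ^ al * ‖(p z).2‖ ^ be) =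
      (‖(p z).1‖ * ‖(p z).1‖ ^ al) * (‖ztv v p z‖ * ‖(p z).2‖ ^ be) + (‖(p z).2‖ * ‖(p z).2‖ ^ be) * (‖(deriv p z).1‖ * ‖(p z).1‖ ^ al) := by
    rw [e1]
    unfold rg
    ring
  rw [h5]
  have h6 : (‖(p z).1‖ * ‖(p z).1‖ ^ al) * (‖ztv v p z‖ * ‖(p z).2‖ ^ be) ≤ 1 * (1 / m * L) :=
    mul_le_mul (pow_le_one' hal (norm_nonneg _) hx1) h4 (by positivity) zero_le_one
  have h7 : (‖(p z).2‖ * ‖(p z).2‖ ^ be) * (‖(deriv p z).1‖ * ‖(p z).1‖ ^ al) ≤ 1 * L :=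
    mul_le_mul (pow_le_one' hbe (norm_nonneg _) hy1) h1 (by positivity) zero_le_one
  linarith

end Pool.Agent.MQL

end
end

section

/-!
# MQL SnD: the saddle-node with both axes in the weight

No curve tangent to `v` meets the axes; `|ζ'| |x y| |x| ^ al |y| ^ be ≤ C |y'| |y| ^ be`, or `≤ C |x'|` for `|x| ≥ s`.
-/

set_option autoImplicit false

open Topology Filter Metric MeasureTheory Asymptotics Laplacian

noncomputable section

namespace Pool.Agent.MQL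

open Pool.Agent.H36.BP (EN)
open Pool.Agent.H30M (tau LogSing)
open Pool.Agent.MQ Pool.Agent.MQ2

theorem goodD_sn2 {al be : ℝ} (hal : -1 < al) (hbe : -1 < be) {k : ℕ} (hk : 1 ≤ k) {a b : ℂ × ℂ → ℂ} (ha : AnalyticAt ℂ a 0) (hb : AnalyticAt ℂ b 0)
    (ha0 : a 0 ≠ 0) (hb0 : b 0 ≠ 0) : GoodD GC al be fun p => (p.1 ^ (k + 1) * a p, p.2 * b p) := by
  refine ⟨0, fun i => i.elim0, fun i => i.elim0, fun g hGC hw _ => ?_⟩
  obtain ⟨u, hu, hu0, hg⟩ := sn_unit hk ha hb hb0 hw hGC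
  set v : ℂ × ℂ → ℂ × ℂ := fun p => (p.1 ^ (k + 1) * a p, p.2 * b p) with hv
  have hvan : AnalyticAt ℂ v 0 := ((analyticAt_fst.pow _).mul ha).prod (analyticAt_snd.mul hb)
  have hiso : ∀ᶠ q in 𝓝 (0 : ℂ × ℂ), q ≠ 0 → v q ≠ 0 := by
    filter_upwards [ha.continuousAt.eventually_ne ha0, hb.continuousAt.eventually_ne hb0] with q h1 h2 h3 h4
    have h5 : q.1 ^ (k + 1) * a q = 0 := congrArg Prod.fst h4
    have h6 : q.2 * b q = 0 := congrArg Prod.snd h4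
    refine h3 (Prod.ext ?_ ((mul_eq_zero.1 h6).resolve_right h2))
    exact pow_eq_zero_iff (by omega) |>.1 ((mul_eq_zero.1 h5).resolve_right h1)
  filter_upwards [ev_closedBall ha.eventually_analyticAt, ev_closedBall hb.eventually_analyticAt, ev_closedBall (ha.continuousAt.eventually_ne ha0),
    ev_closedBall (hb.continuousAt.eventually_ne hb0), ev_closedBall hg, ev_closedBall hu.eventually_analyticAt,
    ev_closedBall (hu.continuousAt.eventually_ne hu0), ev_closedBall hiso, DD_cof hvan hiso hw, self_mem_nhdsWithin]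
    with r a1 a2 a3 a4 a5 a6 a7 a8 a9 a10 s s' hs hss hsr' B hB
  have hsr : s < r := hss.trans hsr'
  have hr : (0 : ℝ) < r := a10
  obtain ⟨_, -, h1⟩ := a9
  obtain ⟨A, hA, hroot⟩ := root_snd (be := be) hbe hs hsr hB
  obtain ⟨Cb, hCb⟩ := (isCompact_closedBall (0 : ℂ × ℂ) r).bddAbove_image (f := fun q => ‖u q‖ / ‖b q‖)
    (ContinuousOn.div (fun q hq => (a6 q hq).continuousAt.norm.continuousWithinAt) (fun q hq => (a2 q hq).continuousAt.norm.continuousWithinAt)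
      fun q hq => norm_ne_zero_iff.2 (a4 q hq))
  obtain ⟨Ca, hCa⟩ := (isCompact_closedBall (0 : ℂ × ℂ) r).bddAbove_image (f := fun q => ‖u q‖ / ‖a q‖)
    (ContinuousOn.div (fun q hq => (a6 q hq).continuousAt.norm.continuousWithinAt) (fun q hq => (a1 q hq).continuousAt.norm.continuousWithinAt)
      fun q hq => norm_ne_zero_iff.2 (a3 q hq))
  have h00 : (0 : ℂ × ℂ) ∈ closedBall (0 : ℂ × ℂ) r := mem_closedBall_self hr.le
  have hCb0 : 0 ≤ Cb := (by positivity : (0 : ℝ) ≤ ‖u 0‖ / ‖b 0‖).trans (hCb ⟨0, h00, rfl⟩)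
  have hCa0 : 0 ≤ Ca := (by positivity : (0 : ℝ) ≤ ‖u 0‖ / ‖a 0‖).trans (hCa ⟨0, h00, rfl⟩)
  refine ⟨A, 1, hA, zero_le_one, ?_⟩
  intro d n q ψ hd hn _ _ _ M F Q lm Om p hD _
  have hd' : (0 : ℝ) < d := by exact_mod_cast hd
  have hn' : (0 : ℝ) < n := by exact_mod_cast hn
  have hc := hD.crv
  have hl0 := hD.lm_nonneg
  have hp := hD.lm_ge
  have hmem : ∀ z ∈ Om, p z ∈ closedBall (0 : ℂ × ℂ) r := fun z hz => ball_subset_closedBall (hc.mem z hz)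
  have hgz : ∀ z ∈ Om, p z ≠ 0 → g (p z) ≠ 0 := fun z hz h0 => (h1 Om p hc hD.g_ne z hz (a8 _ (hmem z hz) h0)).1
  -- no curve meets the axes
  have hax0 : ∀ z ∈ Om, p z ≠ 0 → (p z).1 ≠ 0 ∧ (p z).2 ≠ 0 := by
    intro z hz h0
    have h2 := hgz z hz h0
    rw [a5 _ (hmem z hz)] at h2
    exact ⟨left_ne_zero_of_mul (left_ne_zero_of_mul h2), right_ne_zero_of_mul (left_ne_zero_of_mul h2)⟩
  have hax : ∀ z ∈ Om, (p z).1 ≠ 0 ∧ (p z).2 ≠ 0 := by
    intro z hz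
    refine hax0 z hz fun h0 => ?_
    have hpz := hc.an z hz
    have hx1 : AnalyticAt ℂ (fun w => (p w).1) z := analyticAt_fst.fun_comp hpz
    have hy1 : AnalyticAt ℂ (fun w => (p w).2) z := analyticAt_snd.fun_comp hpz
    have hxz : ∀ᶠ w in 𝓝 z, (p w).1 = 0 := by
      refine SNL.ev_zero (x := fun w => (p w).1) (y := fun w => (p w).2) (a := fun w => a (p w)) (b := fun w => b (p w)) hk hx1 hy1
        ((a1 _ (hmem z hz)).fun_comp hpz) ((a2 _ (hmem z hz)).fun_comp hpz) (a3 _ (hmem z hz)) (a4 _ (hmem z hz)) (by simp only [h0]; rfl)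
        (by simp only [h0]; rfl) ?_ ?_
      · filter_upwards [hc.isOpen.mem_nhds hz] with w hw
        have h2 := hc.ode w hw
        have e1 : deriv (fun w => (p w).1) w = (deriv p w).1 := deriv_fst' (hc.an w hw).differentiableAt
        have e2 : deriv (fun w => (p w).2) w = (deriv p w).2 := deriv_snd' (hc.an w hw).differentiableAt
        rw [e1, e2]
        exact sub_eq_zero.1 h2
      · filter_upwards [hc.isOpen.mem_nhds hz] with w hw h2
        by_contra h3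
        exact (hax0 w hw fun h4 => h3 (by rw [h4]; rfl)).2 h2
    have h3 : ∀ᶠ w in 𝓝 z, g (p w) = 0 := by
      filter_upwards [hxz, hc.isOpen.mem_nhds hz] with w h4 hw
      rw [a5 _ (hmem w hw), h4, zero_mul, zero_mul]
    exact (hD.g_ne z hz) (h3.mono fun w hw hw' => hw' hw)
  obtain ⟨l, K, hl, hle, hE, hrt⟩ := hroot Om p lm hc.isOpen hc.an hc.mem hc.closed (fun _ z hz => (hax z hz).2) hD.lm_cont hl0 hp
  have hll : ∀ z, 0 ≤ l z := fun z => (hl0 z).trans (hle z)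
  have hΛ : ∀ R : ℝ, 1 ≤ R → 0 ≤ ∫ z, ‖gr (tau R) z‖ * l z := fun R _ => integral_nonneg fun z => mul_nonneg (norm_nonneg _) (hll z)
  have hN := localN1_saddleNode (g := fun q => q.1 * q.2) (g₁ := fun q => q.1) hc hk a1 a2 a3 a4 (fun _ => rfl) (fun _ => rfl) (Or.inl fun _ => rfl)
    (fun z hz _ => mul_ne_zero (hax z hz).1 (hax z hz).2) hD.lm_cont hp
    (I := fun R => ∫ z, tau R z * lm z ^ 2) (Λ := fun R => ∫ z, ‖gr (tau R) z‖ * l z) (fun R _ => le_rfl) hΛ hs (δ := 1 * d / n) (by positivity)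
  have hN' : LocalN1 v g Om p (fun R => ∫ z, tau R z * lm z ^ 2) (fun R => ∫ z, ‖gr (tau R) z‖ * l z) s (1 * d / n) :=
    localN1_unit hc a6 a7 (fun q hq => a5 q (ball_subset_closedBall hq)) (fun z hz => analyticAt_fst.mul analyticAt_snd)
      (fun z hz _ => mul_ne_zero (hax z hz).1 (hax z hz).2) hΛ hs hN
  -- the pointwise bound
  have k1 : 0 ≤ r ^ (1 + be) := Real.rpow_nonneg hr.le _
  have k2 : 0 ≤ r ^ (1 + al) := Real.rpow_nonneg hr.le _
  have k4 : 0 ≤ s ^ be + r ^ be := add_nonneg (Real.rpow_nonneg hs.le _) (Real.rpow_nonneg hr.le _)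
  have t1 : 0 ≤ Cb * r ^ (1 + al) := mul_nonneg hCb0 k2
  have t2 : 0 ≤ Cb * r ^ (1 + al) * (s ^ be + r ^ be) * B := mul_nonneg (mul_nonneg t1 k4) hB
  have t3 : 0 ≤ Ca * r ^ (1 + al) * r ^ (1 + be) * (s ^ (k + 1))⁻¹ * B := by positivity
  set C₁ : ℝ := Cb * r ^ (1 + al) + Cb * r ^ (1 + al) * (s ^ be + r ^ be) * B + Ca * r ^ (1 + al) * r ^ (1 + be) * (s ^ (k + 1))⁻¹ * B with hC₁
  have hC₁0 : 0 ≤ C₁ := by rw [hC₁]; linarith
  refine locX_sub hc.isOpen hss.le (locX_of_localN1_den hC₁0 hl hl0 hle hE hp hN' fun z hz _ _ _ => ?_)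
  obtain ⟨hx, hy⟩ := hax z hz
  have hx0 : 0 < ‖(p z).1‖ := norm_pos_iff.2 hx
  have hy0 : 0 < ‖(p z).2‖ := norm_pos_iff.2 hy
  have hzm := hc.mem z hz
  rw [mem_ball_zero_iff] at hzm
  have hxr : ‖(p z).1‖ ≤ r := (norm_fst_le _).trans hzm.le
  have hyr : ‖(p z).2‖ ≤ r := (norm_snd_le _).trans hzm.le
  have hllz := hll z
  have hdx : ‖(deriv p z).1‖ ≤ B * l z := ((norm_fst_le _).trans (hp z hz)).trans (mul_le_mul_of_nonneg_left (hle z) hB)
  have hdy : ‖(deriv p z).2‖ ≤ B * l z := ((norm_snd_le _).trans (hp z hz)).trans (mul_le_mul_of_nonneg_left (hle z) hB)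
  have hp1 : ‖(p z).2‖ * ‖(p z).2‖ ^ be ≤ r ^ (1 + be) := by
    have e : ‖(p z).2‖ * ‖(p z).2‖ ^ be = ‖(p z).2‖ ^ (1 + be) := by rw [Real.rpow_add hy0, Real.rpow_one]
    rw [e]
    exact Real.rpow_le_rpow hy0.le hyr (by linarith)
  have hp2 : ‖(p z).1‖ * ‖(p z).1‖ ^ al ≤ r ^ (1 + al) := by
    have e : ‖(p z).1‖ * ‖(p z).1‖ ^ al = ‖(p z).1‖ ^ (1 + al) := by rw [Real.rpow_add hx0, Real.rpow_one]
    rw [e]
    exact Real.rpow_le_rpow hx0.le hxr (by linarith)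
  have hxa : 0 ≤ ‖(p z).1‖ ^ al := Real.rpow_nonneg hx0.le _
  have hyb : 0 ≤ ‖(p z).2‖ ^ be := Real.rpow_nonneg hy0.le _
  have hap : 0 < ‖a (p z)‖ := norm_pos_iff.2 (a3 _ (hmem z hz))
  have hbp : 0 < ‖b (p z)‖ := norm_pos_iff.2 (a4 _ (hmem z hz))
  have hCbz : ‖u (p z)‖ / ‖b (p z)‖ ≤ Cb := hCb ⟨p z, hmem z hz, rfl⟩
  have hCaz : ‖u (p z)‖ / ‖a (p z)‖ ≤ Ca := hCa ⟨p z, hmem z hz, rfl⟩
  rw [JD_norm, a5 _ (hmem z hz), norm_mul, norm_mul]
  have m2 : ‖ztv v p z‖ * (‖(p z).1‖ * ‖(p z).2‖ * ‖u (p z)‖) * (‖(p z).1‖ ^ al * ‖(p z).2‖ ^ be) ≤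
      Cb * r ^ (1 + al) * (‖(deriv p z).2‖ * ‖(p z).2‖ ^ be) := by
    have hv2 : (v (p z)).2 ≠ 0 := mul_ne_zero hy (a4 _ (hmem z hz))
    have hv2' : (v (p z)).2 = (p z).2 * b (p z) := rfl
    rw [ztv_snd hv2, hv2', norm_div, norm_mul]
    have e : ‖(deriv p z).2‖ / (‖(p z).2‖ * ‖b (p z)‖) * (‖(p z).1‖ * ‖(p z).2‖ * ‖u (p z)‖) * (‖(p z).1‖ ^ al * ‖(p z).2‖ ^ be) =
        (‖u (p z)‖ / ‖b (p z)‖) * (‖(p z).1‖ * ‖(p z).1‖ ^ al) * (‖(deriv p z).2‖ * ‖(p z).2‖ ^ be) := by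
      field_simp
    rw [e]
    exact mul_le_mul_of_nonneg_right (mul_le_mul hCbz hp2 (by positivity) hCb0) (by positivity)
  by_cases hin : p z ∈ closedBall (0 : ℂ × ℂ) s
  · refine m2.trans ?_
    calc Cb * r ^ (1 + al) * (‖(deriv p z).2‖ * ‖(p z).2‖ ^ be) ≤ Cb * r ^ (1 + al) * l z := mul_le_mul_of_nonneg_left (hrt z hz hin) t1
      _ ≤ C₁ * l z := mul_le_mul_of_nonneg_right (by rw [hC₁]; linarith) hllz
  · rw [mem_closedBall_zero_iff, Prod.norm_def, not_le, lt_max_iff] at hin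
    rcases hin with h | h
    · have hv1 : (v (p z)).1 ≠ 0 := mul_ne_zero (pow_ne_zero _ hx) (a3 _ (hmem z hz))
      have hv1' : (v (p z)).1 = (p z).1 ^ (k + 1) * a (p z) := rfl
      rw [hc.ztv_fst hz hv1, hv1', norm_div, norm_mul, norm_pow]
      have e : ‖(deriv p z).1‖ / (‖(p z).1‖ ^ (k + 1) * ‖a (p z)‖) * (‖(p z).1‖ * ‖(p z).2‖ * ‖u (p z)‖) * (‖(p z).1‖ ^ al * ‖(p z).2‖ ^ be) =
          (‖u (p z)‖ / ‖a (p z)‖) * (‖(p z).1‖ * ‖(p z).1‖ ^ al) * (‖(p z).2‖ * ‖(p z).2‖ ^ be) * (‖(p z).1‖ ^ (k + 1))⁻¹ * ‖(deriv p z).1‖ := by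
        field_simp
      rw [e]
      have h5 : (‖(p z).1‖ ^ (k + 1))⁻¹ ≤ (s ^ (k + 1))⁻¹ := inv_anti₀ (by positivity) (pow_le_pow_left₀ hs.le h.le _)
      have h6 : (‖u (p z)‖ / ‖a (p z)‖) * (‖(p z).1‖ * ‖(p z).1‖ ^ al) * (‖(p z).2‖ * ‖(p z).2‖ ^ be) * (‖(p z).1‖ ^ (k + 1))⁻¹ ≤
          Ca * r ^ (1 + al) * r ^ (1 + be) * (s ^ (k + 1))⁻¹ :=
        mul_le_mul (mul_le_mul (mul_le_mul hCaz hp2 (by positivity) hCa0) hp1 (by positivity) (by positivity)) h5 (by positivity) (by positivity)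
      calc _ ≤ Ca * r ^ (1 + al) * r ^ (1 + be) * (s ^ (k + 1))⁻¹ * (B * l z) := mul_le_mul h6 hdx (norm_nonneg _) (by positivity)
        _ = Ca * r ^ (1 + al) * r ^ (1 + be) * (s ^ (k + 1))⁻¹ * B * l z := by ring
        _ ≤ C₁ * l z := mul_le_mul_of_nonneg_right (by rw [hC₁]; linarith) hllz
    · have h3 : ‖(deriv p z).2‖ * ‖(p z).2‖ ^ be ≤ B * l z * (s ^ be + r ^ be) := mul_le_mul hdy (rpow_le_max hs h.le hyr) hyb (by positivity)
      refine m2.trans ?_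
      calc Cb * r ^ (1 + al) * (‖(deriv p z).2‖ * ‖(p z).2‖ ^ be) ≤ Cb * r ^ (1 + al) * (B * l z * (s ^ be + r ^ be)) := mul_le_mul_of_nonneg_left h3 t1
        _ = Cb * r ^ (1 + al) * (s ^ be + r ^ be) * B * l z := by ring
        _ ≤ C₁ * l z := mul_le_mul_of_nonneg_right (by rw [hC₁]; linarith) hllz

end Pool.Agent.MQL

end
end

section

/-!
# MQ3 SatN: elementary properties of the charts of the web over the model

The vector field `S.v k` is analytic with isolated zeros, `S.D k` is open, `S.cp k` is compact, the zeros of `RD` in a chart are the axes, the chart maps to the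
cone.
-/

set_option autoImplicit false

open Topology Filter Metric MvPolynomial

noncomputable section

namespace Pool.Agent.MQ3

open Pool.Agent.H36.BP (EN)
open Pool.Agent.H17EF (coneE)

variable {M : ℕ} {P : Ideal (MvPolynomial (Fin (M + 1)) ℂ)} {RD : MvPolynomial (Fin (M + 1)) ℂ} {m : ℕ} {X : NCModel P RD} {θ : WDiff (coneE P) m}
  {l : LF M} {S : Web X θ l}

theorem v_an (k : S.ι) : AnalyticOnNhd ℂ (S.v k) (S.D k) := fun q hq => (S.c k).v_an q hq.1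

theorem v_iso (k : S.ι) : ∀ q ∈ S.D k, ∀ᶠ x in 𝓝[≠] q, S.v k x ≠ 0 := fun q hq =>
  eventually_nhdsWithin_iff.2 ((S.c k).v_iso q hq.1)

private theorem continuous_κ (k : S.ι) : Continuous (S.κ k) :=
  continuous_iff_continuousAt.2 fun q => (analyticAt_mono q).continuousAt

theorem D_open (k : S.ι) : IsOpen (S.D k) :=
  (isOpen_Dm (w := (S.c k).w) (w' := (S.c k).w')).inter ((X.isOpen k.1).preimage (continuous_κ k))

theorem cp_compact (k : S.ι) : IsCompact (S.cp k) ∧ S.cp k ⊆ S.D k := by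
  refine ⟨?_, fun q hq => ⟨X.sub k.1 (X.C_sub k.1 hq.2.2), X.C_sub k.1 hq.2.2⟩⟩
  have h1 : IsClosed (S.cp k) := by
    have h2 : S.cp k = {q : ℂ × ℂ | ‖q.1‖ ≤ 1} ∩ ({q : ℂ × ℂ | ‖q.2‖ ≤ 1} ∩ S.κ k ⁻¹' X.C k.1) := rfl
    rw [h2]
    exact (isClosed_le continuous_fst.norm continuous_const).inter
      ((isClosed_le continuous_snd.norm continuous_const).inter ((X.compact k.1).isClosed.preimage (continuous_κ k)))
  refine (isCompact_closedBall (0 : ℂ × ℂ) 1).of_isClosed_subset h1 fun q hq => ?_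
  rw [mem_closedBall_zero_iff, Prod.norm_def]
  exact max_le hq.1 hq.2.1

/-- the zeros of `RD` upstairs are the axes -/
theorem zero_iff (k : S.ι) : ∀ q ∈ S.D k, eval (S.σ k q).ofLp RD = 0 ↔ q.1 * q.2 = 0 := by
  intro q hq
  rw [show S.σ k q = X.ρ k.1 (S.κ k q) from rfl, X.div k.1 _ hq.2]
  constructor
  · intro h
    by_contra h0
    exact (mem_DS.1 (mono_mem_DS hq.1 h0)).2 h
  · intro h
    have hd : dt (S.c k).w (S.c k).w' ≠ 0 := (S.c k).basis.det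
    rw [show S.κ k q = mono (S.c k).w (S.c k).w' q from rfl, mono]
    dsimp only
    rcases mul_eq_zero.1 h with h | h
    · rw [h]
      rcases Nat.eq_zero_or_pos (S.c k).w.1 with h1 | h1
      · rcases Nat.eq_zero_or_pos (S.c k).w.2 with h2 | h2
        · refine absurd ?_ hd
          rw [dt, h1, h2]
          simp
        · rw [zero_pow h2.ne']
          simp
      · rw [zero_pow h1.ne']
        simp
    · rw [h]
      rcases Nat.eq_zero_or_pos (S.c k).w'.1 with h1 | h1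
      · rcases Nat.eq_zero_or_pos (S.c k).w'.2 with h2 | h2
        · refine absurd ?_ hd
          rw [dt, h1, h2]
          simp
        · rw [zero_pow h2.ne']
          simp
      · rw [zero_pow h1.ne']
        simp

theorem σ_an (k : S.ι) : ∀ q ∈ S.D k, AnalyticAt ℂ (S.σ k) q ∧ S.σ k q ∈ coneE P := by
  intro q hq
  have h1 : S.κ k q ∈ DD := hq.1
  refine ⟨?_, ((X.box k.1).mem _ h1.1.le h1.2.le).self_of_nhds⟩
  exact AnalyticAt.comp (f := S.κ k) (g := X.ρ k.1) ((X.box k.1).an _ h1.1.le h1.2.le) (analyticAt_mono q)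

end Pool.Agent.MQ3

end
end

section

/-!
# MQL SDefs: the open surface, weights with poles, curves which avoid the boundary, exponents

`H₀` is a form, `D = {H₀ = 0}` the boundary; it is contained in the divisor `{RD = 0}` of the model.

* `okE P H₀`: the cone over the open surface.
* `LW`: `Wf` is a section of `mK (K + D) - jH H` with poles of order at most `mK - 1` along `D`.
* `LCrv`: the curves of the theorem, they avoid `D`.
* `exX H₀ mK φ q`, `exY H₀ mK φ q`: the exponents of the two lines through `q` in the parametrization `φ`: `1 / mK - 1` if the line lies in `D`, otherwise `0`.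
* `GoodC c al be v`: the package `GoodD GT al be v` with the formal curves `c`.
* `Reg0 S k q`: the vector field is regular at `q`, `q` is not the crossing, and the axis through `q` is invariant or transversal.
-/

set_option autoImplicit false

open Topology Filter Metric MvPolynomial MeasureTheory Laplacian

noncomputable section

namespace Pool.Agent.MQL

open Pool.Agent.H36.BP (EN)
open Pool.Agent.H17BP (Surface IsForm)
open Pool.Agent.H36.BPL (PoleLE)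
open Pool.Agent.H17EF (coneE)
open Pool.Agent.H30M (tau LogSing)
open Pool.Agent.MQ (lam En)
open Pool.Agent.MQ2 (Iso Wt Sep FZero HasOrd LocX Dat)
open Pool.Agent.MQ3

variable {M : ℕ}

/-- the cone over the open surface -/
def okE (P : Ideal (MvPolynomial (Fin (M + 1)) ℂ)) (H₀ : MvPolynomial (Fin (M + 1)) ℂ) : Set (EN M) := {x | x ∈ coneE P ∧ eval x.ofLp H₀ ≠ 0}

/-- the boundary is contained in `{RD = 0}` -/
structure DivB (P : Ideal (MvPolynomial (Fin (M + 1)) ℂ)) (RD H₀ : MvPolynomial (Fin (M + 1)) ℂ) : Prop where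
  hom : ∃ e, H₀.IsHomogeneous e
  le : ∀ x ∈ coneE P, eval x.ofLp H₀ = 0 → eval x.ofLp RD = 0

/-- a section of `mK (K + D) - jH H` with poles of order at most `mK - 1` -/
structure LW (P : Ideal (MvPolynomial (Fin (M + 1)) ℂ)) (H₀ : MvPolynomial (Fin (M + 1)) ℂ) (mK jH : ℕ) (Wf : EN M → EN M → EN M → ℂ) : Prop where
  one_m : 1 ≤ mK
  hom : ∃ e, H₀.IsHomogeneous e
  form : IsForm (okE P H₀) mK jH Wf
  pole : PoleLE (coneE P) (okE P H₀) (mK - 1) Wf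

variable {P : Ideal (MvPolynomial (Fin (M + 1)) ℂ)} {m : ℕ}

/-- the curves of the theorem avoid the boundary -/
structure LCrv (θ : WDiff (coneE P) m) (RD H₀ Ra : MvPolynomial (Fin (M + 1)) ℂ) (F : ℂ → EN M) : Prop extends RCrv θ RD Ra F where
  avoid : ∀ z, eval (F z).ofLp H₀ ≠ 0

open Classical in
/-- the exponent of the line `x = q.1` -/
def exX (H₀ : MvPolynomial (Fin (M + 1)) ℂ) (mK : ℕ) (φ : ℂ × ℂ → EN M) (q : ℂ × ℂ) : ℝ :=
  if ∀ᶠ t in 𝓝 (0 : ℂ), eval (φ (q.1, q.2 + t)).ofLp H₀ = 0 then (mK : ℝ)⁻¹ - 1 else 0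

open Classical in
/-- the exponent of the line `y = q.2` -/
def exY (H₀ : MvPolynomial (Fin (M + 1)) ℂ) (mK : ℕ) (φ : ℂ × ℂ → EN M) (q : ℂ × ℂ) : ℝ :=
  if ∀ᶠ t in 𝓝 (0 : ℂ), eval (φ (q.1 + t, q.2)).ofLp H₀ = 0 then (mK : ℝ)⁻¹ - 1 else 0

/-- the package with the formal curves `c` -/
def GoodC {n₀ : ℕ} (c : Fin n₀ → ℕ → ℂ → ℂ × ℂ) (al be : ℝ) (v : ℂ × ℂ → ℂ × ℂ) : Prop :=
  ∀ g : ℂ × ℂ → ℂ, Wt v g → AxW al be v g → ∀ᶠ r in 𝓝[>] (0 : ℝ), ∀ s s', 0 < s → s < s' → s' < r → ∀ B, 0 ≤ B → ∃ A C₀ : ℝ, 0 ≤ A ∧ 0 ≤ C₀ ∧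
    ∀ (d n : ℕ) (q : ℂ × ℂ → ℂ) (ψ : ℂ × ℂ → ℝ), 1 ≤ d → 1 ≤ n → AnalyticAt ℂ q 0 → ContDiffAt ℝ 1 ψ 0 →
      (∀ i, FZero (c i) g ∨ HasOrd (c i) q n) →
      ∀ (M : ℕ) (F : ℂ → EN M) (Q : ℂ → ℂ) (lm : ℂ → ℝ) (Om : Set ℂ) (p : ℂ → ℂ × ℂ), Dat v g r B d q ψ F Q lm Om p → Avoid al be Om p →
        LocX v g (JD al be) {z | z ∈ Om ∧ p z ∈ ball (0 : ℂ × ℂ) s'} p lm s A (C₀ * d / n)

variable {RD H₀ Ra : MvPolynomial (Fin (M + 1)) ℂ} {X : NCModel P RD} {θ : WDiff (coneE P) m} {l : LF M}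

/-- regular chart points: the axis through the point is invariant or transversal -/
structure Reg0 (S : Web X θ l) (k : S.ι) (q : ℂ × ℂ) : Prop where
  v_ne : S.v k q ≠ 0
  ne : q ≠ 0
  ax₁ : q.1 = 0 → (S.v k q).1 ≠ 0 ∨ ∀ᶠ x in 𝓝 q, x.1 = 0 → (S.v k x).1 = 0
  ax₂ : q.2 = 0 → (S.v k q).2 ≠ 0 ∨ ∀ᶠ x in 𝓝 q, x.2 = 0 → (S.v k x).2 = 0

/-- `lm` is a density for the cover, it bounds the potentials of the boxes; `A`, `B` do not depend on the curve -/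
structure DensL {S : Web X θ l} (C : Cov S Ra) {F : ℂ → EN M} (Y : NCLift X F) (Wf : EN M → EN M → EN M → ℂ) (mK jH : ℕ) (A B : ℝ) (lm : ℂ → ℝ) : Prop
    extends Dens C Y A lm where
  up : ∀ k, ∀ z ∈ Y.U (C.b k), Y.p (C.b k) z ∈ ball (C.y k) (C.t k) → ContDiffAt ℝ 2 (eN (C.H k) Wf mK jH Y (C.b k)) z →
    eN (C.H k) Wf mK jH Y (C.b k) z ≤ B + Real.log (1 + lm z)

end Pool.Agent.MQL

end
end
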