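import Pool.Agent.H43.TL2.M42
import Pool.Agent.H43.TL2.M44
import Pool.Agent.H43.TL2.M60
import Pool.Agent.H43.TL2.M74

/-! The parts of this file: MQ3.BdL, MQ3.EtaL, MQ3.EtaLoc, MQ3.LogN. -/

section

/-!
# MQ3 BdL: a change of boxes changes the potential by a bounded function (local form)
-/

set_option autoImplicit false

open Topology Filter Metric MvPolynomial MeasureTheory Laplacian

noncomputable section

namespace Pool.Agent.MQ3

open Pool.Agent.H36.BP (EN fs)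
open Pool.Agent.H14.PP (Tan)
open Pool.Agent.H17BP (Surface IsForm)
open Pool.Agent.H17EF (projVar coneE)
open Pool.Agent.H30M (tau LogSing)
open Pool.Agent.MQ (lam En ztv dvg gr dv)

namespace BdN

variable {M : ℕ} {P : Ideal (MvPolynomial (Fin (M + 1)) ℂ)} {RD : MvPolynomial (Fin (M + 1)) ℂ} {m : ℕ} {X : NCModel P RD} {θ : WDiff (coneE P) m}
  {l : LF M} {S : Web X θ l} {Ra : MvPolynomial (Fin (M + 1)) ℂ}

theorem det_eq (L : ℂ × ℂ →L[ℂ] ℂ × ℂ) : L.det = (L (1, 0)).1 * (L (0, 1)).2 - (L (0, 1)).1 * (L (1, 0)).2 := by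
  have h : L.det = LinearMap.det (L : ℂ × ℂ →ₗ[ℂ] ℂ × ℂ) := rfl
  rw [h, ← LinearMap.det_toMatrix (Module.Basis.finTwoProd ℂ), Matrix.det_fin_two]
  simp [LinearMap.toMatrix_apply]

theorem jc_ne {Φ : ℂ × ℂ → ℂ × ℂ} {p : ℂ × ℂ} (h : (fderiv ℂ Φ p).det ≠ 0) : jc Φ p ≠ 0 := by
  rw [det_eq] at h
  exact h

theorem eval_smul_hom {R : MvPolynomial (Fin (M + 1)) ℂ} {d : ℕ} (hR : R.IsHomogeneous d) {c : ℂ} (hc : c ≠ 0) (x : EN M) :
    eval (c • x).ofLp R = 0 ↔ eval x.ofLp R = 0 := by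
  have h : eval (c • x).ofLp R = c ^ d * eval x.ofLp R := by
    have h1 : (c • x).ofLp = c • x.ofLp := rfl
    rw [h1]
    exact Pool.Agent.H17EF.eval_smul_form hR c x.ofLp
  rw [h, mul_eq_zero, or_iff_right (pow_ne_zero d hc)]

theorem Chg.ev {i j : X.ι} {Φ : ℂ × ℂ → ℂ × ℂ} {p : ℂ × ℂ} (h : Chg X i j Φ p) : ∀ᶠ x in 𝓝 p, Chg X i j Φ x := by
  have hdet : ContinuousAt (fun x => (fderiv ℂ Φ x).det) p :=
    ContinuousLinearMap.continuous_det.continuousAt.comp h.an.fderiv.continuousAt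
  filter_upwards [(X.isOpen i).mem_nhds h.mem, h.an.continuousAt.eventually ((X.isOpen j).mem_nhds h.mem'), h.an.eventually_analyticAt,
    hdet.eventually_ne h.det, h.rel.eventually_nhds, h.eq.eventually_nhds] with x h1 h2 h3 h4 h5 h6
  exact ⟨h1, h2, h3, h4, h5, h6⟩

/-- near `p` the change of boxes sends the curve in the box `i` to the curve in the box `j` -/
theorem p_eq {F : ℂ → EN M} (Y : NCLift X F) {i j : X.ι} {Φ : ℂ × ℂ → ℂ × ℂ} {z : ℂ} (hi : z ∈ Y.U i) (hj : z ∈ Y.U j) (h : Chg X i j Φ (Y.p i z)) :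
    Φ (Y.p i z) = Y.p j z := by
  have h1 := h.rel.self_of_nhds
  have h2 := Y.rel i j z hi hj
  have h3 := X.symm i j _ _ h.mem h.mem' h1
  exact (X.refl j _ h.mem' _ (Y.mem j z hj)).1 (X.trans j i j _ _ _ h.mem' h.mem (Y.mem j z hj) h3 h2)

theorem log_bd {a b α α' : ℝ} (ha : 0 ≤ a) (hb : 0 ≤ b) (hα : 1 ≤ α) (hα' : 1 ≤ α') (h1 : b ≤ α * a) (h2 : a ≤ α' * b) :
    |Real.log a - Real.log b| ≤ Real.log α + Real.log α' := by
  have l1 := Real.log_nonneg hα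
  have l2 := Real.log_nonneg hα'
  rcases ha.eq_or_lt with h3 | h3
  · have h4 : b = 0 := le_antisymm (by rw [← h3, mul_zero] at h1; exact h1) hb
    rw [← h3, h4, sub_self, abs_zero]
    positivity
  · have h4 : 0 < b := by
      by_contra h5
      have h6 : b = 0 := le_antisymm (not_lt.1 h5) hb
      rw [h6, mul_zero] at h2
      linarith
    have h5 : Real.log b ≤ Real.log α + Real.log a := by
      rw [← Real.log_mul (by linarith) h3.ne']
      exact Real.log_le_log h4 h1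
    have h6 : Real.log a ≤ Real.log α' + Real.log b := by
      rw [← Real.log_mul (by linarith) h4.ne']
      exact Real.log_le_log h3 h2
    rw [abs_le]
    constructor <;> linarith

variable {Wf : EN M → EN M → EN M → ℂ} {mK jH : ℕ}

/-- the local bound -/
theorem loc (hX : Surface (coneE P)) (hm : 1 ≤ mK) (hW : IsForm (coneE P) mK jH Wf) {i j : X.ι} {H H' : ℂ × ℂ → ℂ × ℂ → EN 2} {Φ : ℂ × ℂ → ℂ × ℂ}
    {p : ℂ × ℂ} (h : Chg X i j Φ p) (hV : VRel H H' Φ p) :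
    ∃ N ∈ 𝓝 p, ∃ B : ℝ, ∀ F : ℂ → EN M, Differentiable ℂ F → ∀ Y : NCLift X F, ∀ z, z ∈ Y.U i → z ∈ Y.U j → Y.p i z ∈ N →
      |eN H Wf mK jH Y i z - eN H' Wf mK jH Y j z| ≤ B := by
  obtain ⟨A, A', hA, hA', hrel⟩ := hV
  have hJ := Pool.Agent.MQ3.jc_an h.an
  have hJ0 := jc_ne h.det
  have hJc : ContinuousAt (fun x => Real.log ‖jc Φ x‖) p := hJ.continuousAt.norm.log (norm_ne_zero_iff.2 hJ0)
  refine ⟨_, (Chg.ev h).and (hrel.and ((hA.continuousAt.norm.eventually_lt_const (lt_add_one ‖A p‖)).and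
    ((hA'.continuousAt.norm.eventually_lt_const (lt_add_one ‖A' p‖)).and ((hJ.continuousAt.eventually_ne hJ0).and
      (hJc.abs.eventually_lt_const (lt_add_one |Real.log ‖jc Φ p‖|)))))),
    Real.log (‖A p‖ + 1) + Real.log (‖A' p‖ + 1) + (|Real.log ‖jc Φ p‖| + 1), ?_⟩
  rintro F hF Y z hi hj ⟨h1, h2, h3, h4, h5, h6⟩
  have h0 := p_eq Y hi hj h1
  have hw := wt_chg hX hm hW hF Y hi hj h1 h0
  have hwz := hw.self_of_nhds.2
  have hd : deriv (Y.p j) z = fderiv ℂ Φ (Y.p i z) (deriv (Y.p i) z) := by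
    rw [EventuallyEq.deriv_eq (show Y.p j =ᶠ[𝓝 z] fun w => Φ (Y.p i w) from hw.mono fun w hw => hw.1)]
    exact (h1.an.differentiableAt.hasFDerivAt.comp_hasDerivAt z (Y.an i z hi).differentiableAt.hasDerivAt).deriv
  have e1 := (h2 (deriv (Y.p i) z)).1
  have e2 := (h2 (deriv (Y.p i) z)).2
  rw [h0, ← hd] at e1 e2
  unfold eN eH
  set a := H (Y.p i z) (deriv (Y.p i) z)
  set b := H' (Y.p j z) (deriv (Y.p j) z)
  have k1 : |Real.log ‖a‖ - Real.log ‖b‖| ≤ Real.log (‖A p‖ + 1) + Real.log (‖A' p‖ + 1) := by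
    refine log_bd (norm_nonneg _) (norm_nonneg _) (by linarith [norm_nonneg (A p)]) (by linarith [norm_nonneg (A' p)]) ?_ ?_
    · rw [e1]
      exact ((A _).le_opNorm _).trans (mul_le_mul_of_nonneg_right h3.le (norm_nonneg _))
    · rw [e2]
      exact ((A' _).le_opNorm _).trans (mul_le_mul_of_nonneg_right h4.le (norm_nonneg _))
  have k2 : |1 / mK * Real.log ‖wt Wf Y i z‖ - 1 / mK * Real.log ‖wt Wf Y j z‖| ≤ |Real.log ‖jc Φ p‖| + 1 := by
    rw [hwz]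
    by_cases h7 : wt Wf Y j z = 0
    · rw [h7, mul_zero, sub_self, abs_zero]
      positivity
    · have hmK : (mK : ℝ) ≠ 0 := by positivity
      rw [norm_mul, norm_pow, Real.log_mul (pow_ne_zero _ (norm_ne_zero_iff.2 h5)) (norm_ne_zero_iff.2 h7), Real.log_pow]
      have h8 : 1 / (mK : ℝ) * (mK * Real.log ‖jc Φ (Y.p i z)‖ + Real.log ‖wt Wf Y j z‖) - 1 / mK * Real.log ‖wt Wf Y j z‖ =
          Real.log ‖jc Φ (Y.p i z)‖ := by
        field_simp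
        ring
      rw [h8]
      exact h6.le
  have k3 : Real.log ‖a‖ + 1 / mK * Real.log ‖wt Wf Y i z‖ + jH / mK * Real.log ‖F z‖ -
      (Real.log ‖b‖ + 1 / mK * Real.log ‖wt Wf Y j z‖ + jH / mK * Real.log ‖F z‖) =
      (Real.log ‖a‖ - Real.log ‖b‖) + (1 / mK * Real.log ‖wt Wf Y i z‖ - 1 / mK * Real.log ‖wt Wf Y j z‖) := by ring
  rw [k3]
  exact (abs_add_le _ _).trans (add_le_add k1 k2)

theorem κ_cont (S : Web X θ l) (k : S.ι) : Continuous (S.κ k) := by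
  show Continuous fun q => mono (S.c k).w (S.c k).w' q
  unfold mono
  fun_prop

end BdN

end Pool.Agent.MQ3

end
end

section

/-!
# MQ3 EtaL: the gradient of the potential of a chart point
-/

set_option autoImplicit false

open Topology Filter Metric MvPolynomial MeasureTheory Laplacian

noncomputable section

namespace Pool.Agent.MQ3

open Pool.Agent.H36.BP (EN fs)
open Pool.Agent.H17BP (Surface IsForm)
open Pool.Agent.H17EF (coneE)

open Pool.Agent.MQ (lam ztv dvg DDv gr dv)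

variable {M : ℕ} {P : Ideal (MvPolynomial (Fin (M + 1)) ℂ)} {RD : MvPolynomial (Fin (M + 1)) ℂ} {m : ℕ} {X : NCModel P RD} {θ : WDiff (coneE P) m}
  {l : LF M} {S : Web X θ l}

/-- regularity, Laplacian and gradient of a function -/
private def Tri (u : ℂ → ℝ) (z : ℂ) (a : ℝ) (b : ℂ) : Prop := ContDiffAt ℝ 2 u z ∧ Δ u z = a ∧ gr u z = b

private theorem tri_add {u v : ℂ → ℝ} {z : ℂ} {a a' : ℝ} {b b' : ℂ} (h : Tri u z a b) (h' : Tri v z a' b') :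
    Tri (fun w => u w + v w) z (a + a') (b + b') := by
  obtain ⟨h1, h2, h3⟩ := h
  obtain ⟨k1, k2, k3⟩ := h'
  refine ⟨h1.add k1, ?_, ?_⟩
  · rw [Pool.Agent.H30M.lap_add h1 k1, h2, k2]
  · rw [MQ.gr_add (h1.differentiableAt (by norm_num)) (k1.differentiableAt (by norm_num)), h3, k3]

private theorem tri_mul (c : ℝ) {u : ℂ → ℝ} {z : ℂ} {a : ℝ} {b : ℂ} (h : Tri u z a b) : Tri (fun w => c * u w) z (c * a) (c * b) := by
  obtain ⟨h1, h2, h3⟩ := h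
  refine ⟨contDiffAt_const.mul h1, ?_, ?_⟩
  · rw [Pool.Agent.H30M.lap_const_mul h1, h2]
  · rw [MQ.gr_const_mul c (h1.differentiableAt (by norm_num)), h3]

private theorem tri_log {f : ℂ → ℂ} {z : ℂ} (hf : AnalyticAt ℂ f z) (h0 : f z ≠ 0) :
    Tri (fun w => Real.log ‖f w‖) z 0 ((starRingEnd ℂ) (deriv f z / f z)) :=
  ⟨(hf.harmonicAt_log_norm h0).1, Pool.Agent.H30M.lap_log_norm hf h0, MQ.gr_log_norm hf.differentiableAt h0⟩

private theorem etaL_jc {κ : ℂ × ℂ → ℂ × ℂ} {x : ℂ × ℂ} (hv : AnalyticAt ℂ κ x) : AnalyticAt ℂ (jc κ) x := by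
  have h1 : ∀ e : ℂ × ℂ, AnalyticAt ℂ (fun Q => fderiv ℂ κ Q e) x := fun e =>
    ((ContinuousLinearMap.apply ℂ (ℂ × ℂ) e).analyticAt _).comp hv.fderiv
  exact ((analyticAt_fst.comp (h1 (1, 0))).mul (analyticAt_snd.comp (h1 (0, 1)))).sub
    ((analyticAt_fst.comp (h1 (0, 1))).mul (analyticAt_snd.comp (h1 (1, 0))))

/-- the gradient of the potential of a chart point -/
theorem gr_eP {F : ℂ → EN M} {Wf : EN M → EN M → EN M → ℂ} {mK jH : ℕ} (hX : Surface (coneE P)) (hm : 1 ≤ mK)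
    (hW : IsForm (coneE P) mK jH Wf) (hF : WCrv θ RD F) (Y : NCLift X F) (hne : WNe Wf Y) {Θ : ℂ → ℂ} (hΘ : IsTh S Wf mK Y Θ) {k : S.ι} {z : ℂ}
    (hz : z ∈ S.Om Y k) {g : ℂ × ℂ → ℂ} (hg : AnalyticAt ℂ g (S.lf Y k z)) (hgn : ∃ᶠ w in 𝓝 z, g (S.lf Y k w) ≠ 0) :
    ∀ᶠ w in 𝓝[≠] z, ContDiffAt ℝ 2 (eP S g Wf mK jH Y k) w ∧ Δ (eP S g Wf mK jH Y k) w = 2 * jH / mK * lam F w ^ 2 ∧
      gr (eP S g Wf mK jH Y k) w + (starRingEnd ℂ) (DDv (S.v k) g (S.lf Y k) w) =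
        (starRingEnd ℂ) (Θ w) + gr (fun w => jH / mK * Real.log ‖F w‖) w := by
  set p : ℂ → ℂ × ℂ := S.lf Y k with hpdef
  have hp : AnalyticAt ℂ p z := lfN_an hF Y k z hz
  have hOm : ∀ᶠ w in 𝓝 z, w ∈ S.Om Y k := (Om_open hF Y k).mem_nhds hz
  have hFne : ∀ w, F w ≠ 0 := by
    intro w h0
    have h1 := hF.mem w
    rw [h0] at h1
    exact hX.zero h1
  have hgp : AnalyticAt ℂ (fun w => g (p w)) z := AnalyticAt.fun_comp (g := g) (f := p) hg hp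
  have hgne : ∀ᶠ w in 𝓝[≠] z, g (p w) ≠ 0 := by
    rcases hgp.eventually_eq_zero_or_eventually_ne_zero with h | h
    · exact absurd (h.mono fun w hw => not_not.2 hw) hgn
    · exact h
  have hga : ∀ᶠ w in 𝓝 z, AnalyticAt ℂ g (p w) := hp.continuousAt.eventually hg.eventually_analyticAt
  filter_upwards [hgne, hOm.filter_mono nhdsWithin_le_nhds, hOm.eventually_nhds.filter_mono nhdsWithin_le_nhds, lfN_ne hF Y k z hz,
    hne k.1 z (Om_sub hF Y k hz), hΘ k z hz, hga.filter_mono nhdsWithin_le_nhds] with w h1 h2 h3 h4 h5 h6 h7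
  obtain ⟨-, -, hv0, hζ0, hJ0⟩ := h4
  have hpw : AnalyticAt ℂ p w := lfN_an hF Y k w h2
  have hvw : AnalyticAt ℂ (S.v k) (p w) := v_an k (p w) (lfN_mem hF Y k w h2).1
  have hode : ∀ᶠ x in 𝓝 w, (S.v k (p x)).1 * (deriv p x).2 - (S.v k (p x)).2 * (deriv p x).1 = 0 := h3.mono fun x hx => lfN_tan hF Y k x hx
  have hζ : AnalyticAt ℂ (ztv (S.v k) p) w := ztv_an hpw hvw hode hv0
  have hκ : AnalyticAt ℂ (S.κ k) (p w) := analyticAt_mchart (S.c k).w.1 (S.c k).w'.1 (S.c k).w.2 (S.c k).w'.2 (p w)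
  have hJ : AnalyticAt ℂ (fun x => jc (S.κ k) (p x)) w := AnalyticAt.fun_comp (g := jc (S.κ k)) (f := p) (etaL_jc hκ) hpw
  have hgw : AnalyticAt ℂ (fun x => g (p x)) w := AnalyticAt.fun_comp (g := g) (f := p) h7 hpw
  have hwt : AnalyticAt ℂ (wt Wf Y k.1) w := wt_an hX hm hW hF.diff Y k.1 w (Om_sub hF Y k h2)
  have t5 : Tri (fun w => Real.log ‖F w‖) w (2 * lam F w ^ 2) (gr (fun w => Real.log ‖F w‖) w) :=
    ⟨(MQ.lap_log_norm (hF.diff.analyticAt w) (hFne w)).1, (MQ.lap_log_norm (hF.diff.analyticAt w) (hFne w)).2, rfl⟩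
  have t6 : Tri (fun w => (jH : ℝ) / mK * Real.log ‖F w‖) w ((jH : ℝ) / mK * (2 * lam F w ^ 2)) (((jH / mK : ℝ) : ℂ) * gr (fun w => Real.log ‖F w‖) w) :=
    tri_mul _ t5
  have key := tri_add (tri_add (tri_add (tri_add (tri_log hζ hζ0) (tri_log hJ hJ0)) (tri_log hgw h1)) (tri_mul (1 / mK : ℝ) (tri_log hwt h5))) t6
  obtain ⟨k1, k2, k3⟩ := key
  refine ⟨k1, ?_, ?_⟩
  · have h8 : Δ (eP S g Wf mK jH Y k) w = _ := k2
    rw [h8]
    ring
  · have h8 : gr (eP S g Wf mK jH Y k) w = _ := k3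
    rw [h8, t6.2.2, h6, ThC, DDv]
    simp only [map_add, map_sub, map_mul, map_div₀, map_one, Complex.ofReal_div, Complex.ofReal_one, Complex.ofReal_natCast, map_natCast]
    ring

end Pool.Agent.MQ3

end
end

section

/-!
# MQ3 EtaLoc: the local form of the field `η` of a box

Along the curve `eN - eP = log ‖L (p)‖`, and `Θ - 2 ∂ eH = ζ (div v - c) (p) - 2 ∂ log ‖L (p)‖` with `v (g) = c g`.
-/

set_option autoImplicit false

open Topology Filter Metric MvPolynomial MeasureTheory Laplacian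

noncomputable section

namespace Pool.Agent.MQ3

open Pool.Agent.H36.BP (EN fs)
open Pool.Agent.H17BP (Surface IsForm)
open Pool.Agent.H17EF (coneE)
open Pool.Agent.MQ (lam ztv dvg DDv gr dv)

variable {M : ℕ} {P : Ideal (MvPolynomial (Fin (M + 1)) ℂ)} {RD : MvPolynomial (Fin (M + 1)) ℂ} {m : ℕ} {X : NCModel P RD} {θ : WDiff (coneE P) m}
  {l : LF M} {S : Web X θ l} {Ra : MvPolynomial (Fin (M + 1)) ℂ}

theorem EtaLoc_punct {z : ℂ} {p : ℂ → Prop} (h : ∀ᶠ w in 𝓝[≠] z, p w) : ∀ᶠ w in 𝓝[≠] z, ∀ᶠ w' in 𝓝 w, p w' := by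
  have h1 := eventually_eventually_nhdsWithin.2 h
  filter_upwards [h1, self_mem_nhdsWithin] with w hw hne
  rwa [isOpen_compl_singleton.nhdsWithin_eq hne] at hw

/-- the algebra of the gradients -/
theorem EtaLoc_alg {eN eH eP ψ lF : ℂ → ℝ} {G : ℂ → ℂ} {Θw : ℂ} {w : ℂ} (h1 : ∀ᶠ x in 𝓝 w, eN x = eP x + ψ x) (h2 : ∀ x, eN x = eH x + lF x)
    (hP : ContDiffAt ℝ 2 eP w) (hψ : ContDiffAt ℝ 2 ψ w) (hF : ContDiffAt ℝ 2 lF w) (hG : DifferentiableAt ℂ G w)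
    (hgr : gr eP w + (starRingEnd ℂ) (G w) = (starRingEnd ℂ) Θw + gr lF w) :
    ContDiffAt ℝ 2 eN w ∧ (starRingEnd ℂ) (G w) - gr ψ w = (starRingEnd ℂ) Θw - gr eH w ∧
      Δ eN w + dv (fun x => (starRingEnd ℂ) (G x) - gr ψ x) w = Δ eP w := by
  have e1 : eN =ᶠ[𝓝 w] fun x => eP x + ψ x := h1
  have hN : ContDiffAt ℝ 2 eN w := (hP.add hψ).congr_of_eventuallyEq e1
  have dP : DifferentiableAt ℝ eP w := hP.differentiableAt (by norm_num)
  have dψ : DifferentiableAt ℝ ψ w := hψ.differentiableAt (by norm_num)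
  have dF : DifferentiableAt ℝ lF w := hF.differentiableAt (by norm_num)
  have dN : DifferentiableAt ℝ eN w := hN.differentiableAt (by norm_num)
  have g1 : gr eN w = gr eP w + gr ψ w := by
    rw [MQ.gr_congr e1, MQ.gr_add dP dψ]
  have g2 : gr eH w = gr eN w - gr lF w := by
    have e2 : eH = fun x => eN x - lF x := by
      funext x
      rw [h2 x, add_sub_cancel_right]
    rw [e2, MQ.gr_sub dN dF]
  refine ⟨hN, ?_, ?_⟩
  · rw [g2, g1]
    linear_combination hgr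
  · have l1 : Δ eN w = Δ eP w + Δ ψ w := by
      rw [Pool.Agent.H30M.lap_congr e1]
      exact Pool.Agent.H30M.lap_add hP hψ
    have l2 : DifferentiableAt ℝ (fun x => (starRingEnd ℂ) (G x)) w := (MQ.hasFDerivAt_conj_holo hG).differentiableAt
    have l3 : dv (fun x => (starRingEnd ℂ) (G x) - gr ψ x) w = - Δ ψ w := by
      rw [MQ.dv_sub l2 (MQ.differentiableAt_gr hψ), MQ.dv_conj hG, zero_sub]
      congr 1
      exact MQ.lp_eq_lap hψ
    rw [l1, l3]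
    ring

/-- the gradient of the logarithm of a vector along a curve -/
theorem EtaLoc_gr {n : ℕ} {L : ℂ × ℂ → EN n} {p : ℂ → ℂ × ℂ} {z : ℂ} (hL : AnalyticAt ℂ L (p z)) (hp : AnalyticAt ℂ p z) {b D : ℝ} (hb : 0 < b)
    (hbL : b ≤ ‖L (p z)‖) (hD : ‖fderiv ℂ L (p z)‖ ≤ D) : ‖gr (fun w => Real.log ‖L (p w)‖) z‖ ≤ D / b * ‖deriv p z‖ := by
  have h0 : L (p z) ≠ 0 := by
    intro h
    rw [h, norm_zero] at hbL
    exact absurd hbL (not_le.2 hb)
  have hd : HasDerivAt (fun w => L (p w)) (fderiv ℂ L (p z) (deriv p z)) z :=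
    hL.differentiableAt.hasFDerivAt.comp_hasDerivAt z hp.differentiableAt.hasDerivAt
  rw [MQ.gr_log_normV hd h0, norm_mul, RCLike.norm_conj, Complex.norm_real, norm_inv, norm_pow, norm_norm]
  have hn : 0 < ‖L (p z)‖ := norm_pos_iff.2 h0
  have h1 : ‖inner ℂ (L (p z)) (fderiv ℂ L (p z) (deriv p z))‖ ≤ ‖L (p z)‖ * (D * ‖deriv p z‖) := by
    refine (norm_inner_le_norm _ _).trans (mul_le_mul_of_nonneg_left ?_ hn.le)
    exact ((fderiv ℂ L (p z)).le_opNorm _).trans (mul_le_mul_of_nonneg_right hD (norm_nonneg _))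
  have hD0 : 0 ≤ D := (norm_nonneg _).trans hD
  calc (‖L (p z)‖ ^ 2)⁻¹ * ‖inner ℂ (L (p z)) (fderiv ℂ L (p z) (deriv p z))‖ ≤ (‖L (p z)‖ ^ 2)⁻¹ * (‖L (p z)‖ * (D * ‖deriv p z‖)) := by
        gcongr
    _ = D / ‖L (p z)‖ * ‖deriv p z‖ := by
        field_simp
    _ ≤ D / b * ‖deriv p z‖ := by gcongr

theorem EtaLoc_dvg {v : ℂ × ℂ → ℂ × ℂ} {x : ℂ × ℂ} (hv : AnalyticAt ℂ v x) : AnalyticAt ℂ (dvg v) x := by
  have h1 : ∀ e : ℂ × ℂ, AnalyticAt ℂ (fun Q => fderiv ℂ v Q e) x := fun e =>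
    ((ContinuousLinearMap.apply ℂ (ℂ × ℂ) e).analyticAt _).comp hv.fderiv
  exact (analyticAt_fst.comp (h1 (1, 0))).add (analyticAt_snd.comp (h1 (0, 1)))

theorem EtaLoc_κ (k : S.ι) (x : ℂ × ℂ) : AnalyticAt ℂ (S.κ k) x := analyticAt_mchart (S.c k).w.1 (S.c k).w'.1 (S.c k).w.2 (S.c k).w'.2 x

/-- a polynomial which is not zero along the curve -/
theorem EtaLoc_ne {F : ℂ → EN M} (hF : Differentiable ℂ F) {R : MvPolynomial (Fin (M + 1)) ℂ} (h : ∃ z, eval (F z).ofLp R ≠ 0) (z : ℂ) :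
    ∀ᶠ w in 𝓝[≠] z, eval (F w).ofLp R ≠ 0 := by
  have ha : AnalyticOnNhd ℂ (fun w => eval (F w).ofLp R) Set.univ := fun w _ =>
    AnalyticAt.fun_comp (g := fun x : EN M => eval x.ofLp R) (f := F) (Pool.Agent.H14.PP.analyticAt_evalEN R (F w)) (hF.analyticAt w)
  rcases (ha z (Set.mem_univ z)).eventually_eq_zero_or_eventually_ne_zero with h0 | h0
  · exfalso
    obtain ⟨a, ha0⟩ := h
    have h1 := ha.eqOn_zero_of_preconnected_of_eventuallyEq_zero isPreconnected_univ (Set.mem_univ z) h0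
    exact ha0 (h1 (Set.mem_univ a))
  · exact h0

/-- **EtaLoc.** The local form of the field `η` of a box; the constants do not depend on the curve. -/
theorem eta_loc {Wf : EN M → EN M → EN M → ℂ} {mK jH : ℕ} (hX : Surface (coneE P)) (hm : 1 ≤ mK)
    (hW : IsForm (coneE P) mK jH Wf) {k : S.ι} {q : ℂ × ℂ} (hq : q ∈ S.D k) (hv : S.v k q ≠ 0) {g : ℂ × ℂ → ℂ} (hg : InvAt S Ra k q g)
    {H : ℂ × ℂ → ℂ × ℂ → EN 2} (hH : ∀ p w (a : ℂ), H p (a • w) = a • H p w) {L : ℂ × ℂ → EN 2} (hL : AnalyticAt ℂ L q) (hL0 : L q ≠ 0)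
    (hHL : ∀ᶠ x in 𝓝 q, H (S.κ k x) (fderiv ℂ (S.κ k) x (S.v k x)) = (jc (S.κ k) x * g x) • L x) :
    ∃ N ∈ 𝓝 q, ∃ C : ℝ, ∀ F : ℂ → EN M, RCrv θ RD Ra F → ∀ Y : NCLift X F, WNe Wf Y → ∀ Θ : ℂ → ℂ, IsTh S Wf mK Y Θ →
      ∀ z ∈ S.Om Y k, S.lf Y k z ∈ N → ∃ (η : ℂ → ℂ) (ψ : ℂ → ℝ), ContDiffAt ℝ 1 η z ∧ ‖η z‖ ≤ C * ‖deriv (S.lf Y k) z‖ ∧ ContDiffAt ℝ 2 ψ z ∧ |ψ z| ≤ C ∧
        ∀ᶠ w in 𝓝[≠] z, ContDiffAt ℝ 2 (eN H Wf mK jH Y k.1) w ∧ η w = (starRingEnd ℂ) (Θ w) - gr (eH H Wf mK Y k.1) w ∧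
          Δ (eN H Wf mK jH Y k.1) w + dv η w = 2 * jH / mK * lam F w ^ 2 ∧ eN H Wf mK jH Y k.1 w - eP S g Wf mK jH Y k w = ψ w := by
  obtain ⟨hga, -, ⟨c, hc, hcv⟩, h, hh, hRh, -⟩ := hg
  have hva : AnalyticAt ℂ (S.v k) q := v_an k q hq
  -- the constants
  obtain ⟨a, ha, ha'⟩ : ∃ a : ℝ, 0 < a ∧ a < ‖S.v k q‖ := exists_between (norm_pos_iff.2 hv)
  obtain ⟨b, hb, hb'⟩ : ∃ b : ℝ, 0 < b ∧ b < ‖L q‖ := exists_between (norm_pos_iff.2 hL0)
  set B : ℝ := ‖L q‖ + 1 with hB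
  set D : ℝ := ‖fderiv ℂ L q‖ + 1 with hD
  set C₁ : ℝ := ‖dvg (S.v k) q - c q‖ + 1 with hC₁
  have e1 : ∀ᶠ x in 𝓝 q, a < ‖S.v k x‖ := hva.continuousAt.norm.eventually (lt_mem_nhds ha')
  have e2 : ∀ᶠ x in 𝓝 q, b < ‖L x‖ := hL.continuousAt.norm.eventually (lt_mem_nhds hb')
  have e3 : ∀ᶠ x in 𝓝 q, ‖L x‖ < B := hL.continuousAt.norm.eventually (gt_mem_nhds (by rw [hB]; linarith))
  have e4 : ∀ᶠ x in 𝓝 q, ‖fderiv ℂ L x‖ < D := hL.fderiv.continuousAt.norm.eventually (gt_mem_nhds (by rw [hD]; linarith))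
  have e5 : ∀ᶠ x in 𝓝 q, ‖dvg (S.v k) x - c x‖ < C₁ :=
    ((EtaLoc_dvg hva).continuousAt.sub hc.continuousAt).norm.eventually (gt_mem_nhds (by show ‖dvg (S.v k) q - c q‖ < C₁; rw [hC₁]; linarith))
  have e6 : ∀ᶠ x in 𝓝 q, x ∈ S.D k := (D_open k).mem_nhds hq
  obtain ⟨N, hN, hNo, hqN⟩ := _root_.mem_nhds_iff.1 (((((((((((e1.and e2).and e3).and e4).and e5).and e6).and hga.eventually_analyticAt).and
    hc.eventually_analyticAt).and hL.eventually_analyticAt).and hcv).and hHL).and hRh)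
  have hC₁0 : 0 < C₁ := by rw [hC₁]; positivity
  have hD0 : 0 < D := by rw [hD]; positivity
  have hB0 : 0 < B := by rw [hB]; positivity
  set C : ℝ := C₁ / a + D / b + (|Real.log b| + |Real.log B|) with hC
  refine ⟨N, hNo.mem_nhds hqN, C, ?_⟩
  intro F hF Y hne Θ hΘ z hz hzN
  have hFW := hF.toWCrv
  set p : ℂ → ℂ × ℂ := S.lf Y k with hpdef
  have hp : AnalyticAt ℂ p z := lfN_an hFW Y k z hz
  have hOm : ∀ᶠ w in 𝓝 z, w ∈ S.Om Y k := (Om_open hFW Y k).mem_nhds hz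
  have hpN : ∀ᶠ w in 𝓝 z, p w ∈ N := hp.continuousAt.eventually (hNo.mem_nhds hzN)
  have hode : ∀ᶠ w in 𝓝 z, (S.v k (p w)).1 * (deriv p w).2 - (S.v k (p w)).2 * (deriv p w).1 = 0 := hOm.mono fun w hw => lfN_tan hFW Y k w hw
  have hvN : ∀ x ∈ N, AnalyticAt ℂ (S.v k) x ∧ S.v k x ≠ 0 := by
    intro x hx
    have hx' := hN hx
    simp only [Set.mem_ofPred_eq] at hx'
    obtain ⟨⟨⟨⟨⟨⟨⟨⟨⟨⟨⟨h1, h2⟩, h3⟩, h4⟩, h5⟩, h6⟩, h7⟩, h8⟩, h9⟩, h10⟩, h11⟩, h12⟩ := hx'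
    exact ⟨v_an k x h6, norm_pos_iff.1 (ha.trans h1)⟩
  have hNN : ∀ x ∈ N, a < ‖S.v k x‖ ∧ b < ‖L x‖ ∧ ‖L x‖ < B ∧ ‖fderiv ℂ L x‖ < D ∧ ‖dvg (S.v k) x - c x‖ < C₁ ∧ AnalyticAt ℂ g x ∧ AnalyticAt ℂ c x ∧
      AnalyticAt ℂ L x ∧ fderiv ℂ g x (S.v k x) = c x * g x ∧ H (S.κ k x) (fderiv ℂ (S.κ k) x (S.v k x)) = (jc (S.κ k) x * g x) • L x ∧
      (eval (S.σ k x).ofLp (RD * Ra) = 0 ↔ g x * h x = 0) := by
    intro x hx
    have hx' := hN hx
    simp only [Set.mem_ofPred_eq] at hx'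
    obtain ⟨⟨⟨⟨⟨⟨⟨⟨⟨⟨⟨h1, h2⟩, h3⟩, h4⟩, h5⟩, h6⟩, h7⟩, h8⟩, h9⟩, h10⟩, h11⟩, h12⟩ := hx'
    exact ⟨h1, h2, h3, h4, h5, h7, h8, h9, h10, h11, h12⟩
  obtain ⟨hv0, hb0, hB1, hDz, hCz, hgz, hcz, hLz, -, -, -⟩ := hNN _ hzN
  set ζ : ℂ → ℂ := ztv (S.v k) p with hζdef
  have hζ : AnalyticAt ℂ ζ z := ztv_an hp (hvN _ hzN).1 hode (hvN _ hzN).2
  have hder : ∀ᶠ w in 𝓝 z, deriv p w = ζ w • S.v k (p w) := by
    filter_upwards [hode, hpN] with w h1 h2
    exact ztv_smul h1 (hvN _ h2).2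
  have hGp : AnalyticAt ℂ (fun w => dvg (S.v k) (p w) - c (p w)) z :=
    AnalyticAt.fun_comp (g := fun x => dvg (S.v k) x - c x) (f := p) ((EtaLoc_dvg (hvN _ hzN).1).sub hcz) hp
  set G : ℂ → ℂ := fun w => ζ w * (dvg (S.v k) (p w) - c (p w)) with hG
  have hGa : AnalyticAt ℂ G z := hζ.mul hGp
  have hLp : AnalyticAt ℂ (fun w => L (p w)) z := AnalyticAt.fun_comp (g := L) (f := p) hLz hp
  have hLp0 : L (p z) ≠ 0 := norm_pos_iff.1 (hb.trans hb0)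
  set ψ : ℂ → ℝ := fun w => Real.log ‖L (p w)‖ with hψ
  have hψc : ContDiffAt ℝ 2 ψ z := MQ.contDiffAt_log_norm (F := fun w => L (p w)) hLp hLp0
  refine ⟨fun w => (starRingEnd ℂ) (G w) - gr ψ w, ψ, ?_, ?_, hψc, ?_, ?_⟩
  · -- regularity
    have h1 : ContDiffAt ℝ 1 G z := (hGa.contDiffAt (n := 1)).restrict_scalars ℝ
    have h2 : ContDiffAt ℝ 1 (fun w => (starRingEnd ℂ) (G w)) z := (Complex.conjCLE.contDiff (n := 1)).contDiffAt.comp z h1
    exact h2.sub (MQ.contDiffAt_gr (m := 1) hψc (by norm_num))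
  · -- the bound
    have h1 : ‖G z‖ ≤ C₁ / a * ‖deriv p z‖ := by
      have h2 : ‖ζ z‖ * a ≤ ‖deriv p z‖ := by
        rw [hder.self_of_nhds, norm_smul]
        exact mul_le_mul_of_nonneg_left hv0.le (norm_nonneg _)
      have h3 : ‖ζ z‖ ≤ ‖deriv p z‖ / a := by rwa [le_div_iff₀ ha]
      calc ‖G z‖ = ‖ζ z‖ * ‖dvg (S.v k) (p z) - c (p z)‖ := norm_mul _ _
        _ ≤ ‖deriv p z‖ / a * C₁ := mul_le_mul h3 hCz.le (norm_nonneg _) (by positivity)
        _ = C₁ / a * ‖deriv p z‖ := by ring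
    have h4 := EtaLoc_gr hLz hp hb hb0.le hDz.le
    calc ‖(starRingEnd ℂ) (G z) - gr ψ z‖ ≤ ‖(starRingEnd ℂ) (G z)‖ + ‖gr ψ z‖ := norm_sub_le _ _
      _ ≤ C₁ / a * ‖deriv p z‖ + D / b * ‖deriv p z‖ := by
          rw [RCLike.norm_conj]
          exact add_le_add h1 h4
      _ = (C₁ / a + D / b) * ‖deriv p z‖ := by ring
      _ ≤ C * ‖deriv p z‖ := by
          refine mul_le_mul_of_nonneg_right ?_ (norm_nonneg _)
          rw [hC]
          linarith [abs_nonneg (Real.log b), abs_nonneg (Real.log B)]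
  · -- the difference
    have h1 : Real.log b ≤ ψ z := Real.log_le_log hb hb0.le
    have h2 : ψ z ≤ Real.log B := Real.log_le_log (hb.trans hb0) hB1.le
    have h3 : 0 ≤ C₁ / a := by positivity
    have h4 : 0 ≤ D / b := by positivity
    rw [abs_le]
    constructor
    · have := neg_abs_le (Real.log b)
      rw [hC]
      linarith [abs_nonneg (Real.log B)]
    · have := le_abs_self (Real.log B)
      rw [hC]
      linarith [abs_nonneg (Real.log b)]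
  -- the identities off `z`
  have hFne : ∀ w, F w ≠ 0 := by
    intro w h0
    have h1 := hFW.mem w
    rw [h0] at h1
    exact hX.zero h1
  have hgne : ∀ᶠ w in 𝓝[≠] z, g (p w) ≠ 0 := by
    have h1 := EtaLoc_ne hFW.diff hFW.ne z
    have h2 := EtaLoc_ne hFW.diff hF.neR z
    filter_upwards [h1, h2, hOm.filter_mono nhdsWithin_le_nhds, hpN.filter_mono nhdsWithin_le_nhds] with w h3 h4 h5 h6 h7
    obtain ⟨-, -, -, -, -, -, -, -, -, -, h8⟩ := hNN _ h6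
    obtain ⟨d, hd⟩ := hFW.hom
    obtain ⟨d', hd'⟩ := hF.homR
    obtain ⟨r, hr, hr'⟩ := Y.eq k.1 w (Om_sub hFW Y k h5)
    have h9 : X.ρ k.1 (Y.p k.1 w) = S.σ k (p w) := by
      show _ = X.ρ k.1 (S.κ k (p w))
      rw [(lfN_mem hFW Y k w h5).2]
    rw [h9] at hr'
    have h10 := h8.2 (by rw [h7, zero_mul])
    rw [map_mul] at h10
    rcases mul_eq_zero.1 h10 with h11 | h11
    · exact h3 (by rw [hr', Pool.Agent.H14.PP.eval_smulEN hd, h11, mul_zero])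
    · exact h4 (by rw [hr', Pool.Agent.H14.PP.eval_smulEN hd', h11, mul_zero])
  have hgf : ∃ᶠ w in 𝓝 z, g (p w) ≠ 0 := hgne.frequently.filter_mono nhdsWithin_le_nhds
  have hkey := gr_eP hX hm hW hFW Y hne hΘ hz hgz hgf
  -- the difference of the potentials
  have hdiff : ∀ᶠ w in 𝓝[≠] z, eN H Wf mK jH Y k.1 w = eP S g Wf mK jH Y k w + ψ w := by
    filter_upwards [hgne, hOm.filter_mono nhdsWithin_le_nhds, hOm.eventually_nhds.filter_mono nhdsWithin_le_nhds, hpN.filter_mono nhdsWithin_le_nhds,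
      hder.filter_mono nhdsWithin_le_nhds, lfN_ne hFW Y k z hz, hp.eventually_analyticAt.filter_mono nhdsWithin_le_nhds] with w h1 h2 h3 h4 h5 h6 h7
    obtain ⟨-, h8, -, -, -, -, -, -, -, h9, -⟩ := hNN _ h4
    have h10 : Y.p k.1 w = S.κ k (p w) := (lfN_mem hFW Y k w h2).2.symm
    have h11 : deriv (Y.p k.1) w = ζ w • fderiv ℂ (S.κ k) (p w) (S.v k (p w)) := by
      have h12 : Y.p k.1 =ᶠ[𝓝 w] fun x => S.κ k (p x) := h3.mono fun x hx => (lfN_mem hFW Y k x hx).2.symm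
      have h13 : deriv (fun x => S.κ k (p x)) w = fderiv ℂ (S.κ k) (p w) (deriv p w) :=
        ((EtaLoc_κ k (p w)).differentiableAt.hasFDerivAt.comp_hasDerivAt w h7.differentiableAt.hasDerivAt).deriv
      rw [h12.deriv_eq, h13, h5, map_smul]
    have h13 : H (Y.p k.1 w) (deriv (Y.p k.1) w) = (ζ w * (jc (S.κ k) (p w) * g (p w))) • L (p w) := by
      rw [h11, h10, hH, h9, smul_smul]
    have h14 : L (p w) ≠ 0 := norm_pos_iff.1 (hb.trans h8)
    have n1 : ‖ζ w‖ ≠ 0 := norm_ne_zero_iff.2 h6.2.2.2.1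
    have n2 : ‖jc (S.κ k) (p w)‖ ≠ 0 := norm_ne_zero_iff.2 h6.2.2.2.2
    have n3 : ‖g (p w)‖ ≠ 0 := norm_ne_zero_iff.2 h1
    have n4 : ‖L (p w)‖ ≠ 0 := norm_ne_zero_iff.2 h14
    show Real.log ‖H (Y.p k.1 w) (deriv (Y.p k.1) w)‖ + 1 / mK * Real.log ‖wt Wf Y k.1 w‖ + jH / mK * Real.log ‖F w‖ =
      Real.log ‖ζ w‖ + Real.log ‖jc (S.κ k) (p w)‖ + Real.log ‖g (p w)‖ + 1 / mK * Real.log ‖wt Wf Y k.1 w‖ + jH / mK * Real.log ‖F w‖ +
        Real.log ‖L (p w)‖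
    rw [h13, norm_smul, norm_mul, norm_mul, Real.log_mul (mul_ne_zero n1 (mul_ne_zero n2 n3)) n4, Real.log_mul n1 (mul_ne_zero n2 n3), Real.log_mul n2 n3]
    ring
  have hdiff' := EtaLoc_punct hdiff
  filter_upwards [hkey, hdiff, hdiff', hgne, hpN.filter_mono nhdsWithin_le_nhds, hder.filter_mono nhdsWithin_le_nhds,
    hGa.eventually_analyticAt.filter_mono nhdsWithin_le_nhds, hLp.eventually_analyticAt.filter_mono nhdsWithin_le_nhds,
    hp.eventually_analyticAt.filter_mono nhdsWithin_le_nhds] with w h1 h2 h3 h4 h5 h6 h7 h8 h9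
  obtain ⟨k1, k2, k3⟩ := h1
  obtain ⟨-, h10, -, -, -, hgw, -, -, hcw, -, -⟩ := hNN _ h5
  have hψw : ContDiffAt ℝ 2 ψ w := MQ.contDiffAt_log_norm (F := fun w => L (p w)) h8 (norm_pos_iff.1 (hb.trans h10))
  have hlF : ContDiffAt ℝ 2 (fun w => (jH : ℝ) / mK * Real.log ‖F w‖) w :=
    contDiffAt_const.mul (MQ.lap_log_norm (hFW.diff.analyticAt w) (hFne w)).1
  have hDD : DDv (S.v k) g p w = G w := by
    have h11 : deriv (fun x => g (p x)) w = ζ w * (c (p w) * g (p w)) := by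
      have h12 : deriv (fun x => g (p x)) w = fderiv ℂ g (p w) (deriv p w) :=
        (hgw.differentiableAt.hasFDerivAt.comp_hasDerivAt w h9.differentiableAt.hasDerivAt).deriv
      rw [h12, h6, map_smul, hcw, smul_eq_mul]
    rw [DDv, h11, ← mul_assoc, mul_div_cancel_right₀ _ h4]
    show dvg (S.v k) (p w) * ζ w - ζ w * c (p w) = ζ w * (dvg (S.v k) (p w) - c (p w))
    ring
  rw [hDD] at k3
  obtain ⟨r1, r2, r3⟩ := EtaLoc_alg (eN := eN H Wf mK jH Y k.1) (eH := eH H Wf mK Y k.1) (lF := fun w => (jH : ℝ) / mK * Real.log ‖F w‖) h3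
    (fun x => rfl) k1 hψw hlF h7.differentiableAt k3
  refine ⟨r1, r2, ?_, ?_⟩
  · rw [r3, k2]
  · rw [h2, add_sub_cancel_left]

end Pool.Agent.MQ3

end
end

section

/-!
# MQ3 LogN: the potentials have logarithmic singularities
-/

set_option autoImplicit false

open Topology Filter Metric MvPolynomial MeasureTheory Laplacian

noncomputable section

namespace Pool.Agent.MQ3

open Pool.Agent.H36.BP (EN fs)
open Pool.Agent.H14.PP (Tan)
open Pool.Agent.H17BP (Surface IsForm)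
open Pool.Agent.H17EF (projVar coneE)
open Pool.Agent.H30M (tau LogSing)
open Pool.Agent.MQ (lam En ztv dvg gr dv)

variable {M : ℕ} {P : Ideal (MvPolynomial (Fin (M + 1)) ℂ)} {RD : MvPolynomial (Fin (M + 1)) ℂ} {m : ℕ} {X : NCModel P RD} {θ : WDiff (coneE P) m}
  {l : LF M} {S : Web X θ l} {Ra : MvPolynomial (Fin (M + 1)) ℂ}

/-! ## general facts -/

/-- a form along an entire curve -/
private theorem ln_ev {F : ℂ → EN M} (hF : Differentiable ℂ F) {R : MvPolynomial (Fin (M + 1)) ℂ} (hR : ∃ z, eval (F z).ofLp R ≠ 0) (z : ℂ) :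
    ∀ᶠ w in 𝓝[≠] z, eval (F w).ofLp R ≠ 0 := by
  have han : AnalyticOnNhd ℂ (fun w => eval (F w).ofLp R) Set.univ := by
    intro w _
    have h1 : AnalyticAt ℂ (fun w => (F w).ofLp) w := by
      have h2 : Differentiable ℂ fun w => (F w).ofLp := (EuclideanSpace.equiv (Fin (M + 1)) ℂ).differentiable.comp hF
      exact h2.analyticAt w
    have h2 : AnalyticAt ℂ (fun w => aeval (fun s => (F w).ofLp s) R) w :=
      AnalyticAt.aeval_mvPolynomial (fun s => (analyticAt_pi_iff.1 h1) s) R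
    simpa only [MvPolynomial.aeval_eq_eval] using h2
  rcases (han z (Set.mem_univ z)).eventually_eq_zero_or_eventually_ne_zero with h | h
  · exfalso
    obtain ⟨w, hw⟩ := hR
    exact hw (han.eqOn_zero_of_preconnected_of_eventuallyEq_zero isPreconnected_univ (Set.mem_univ z) h (Set.mem_univ w))
  · exact h

/-- a vector with three analytic components -/
private theorem ln_vec {a b c : ℂ → ℂ} {z : ℂ} (ha : AnalyticAt ℂ a z) (hb : AnalyticAt ℂ b z) (hc : AnalyticAt ℂ c z) :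
    AnalyticAt ℂ (fun w => (WithLp.toLp 2 ![a w, b w, c w] : EN 2)) z := by
  have h1 : AnalyticAt ℂ (fun w => (![a w, b w, c w] : Fin 3 → ℂ)) z := by
    refine AnalyticAt.pi fun i => ?_
    fin_cases i
    · exact ha
    · exact hb
    · exact hc
  exact ((EuclideanSpace.equiv (Fin 3) ℂ).symm.toContinuousLinearMap.analyticAt _).comp h1

private theorem ln_vec_ne {a b c : ℂ} (h : a ≠ 0 ∨ b ≠ 0 ∨ c ≠ 0) : (WithLp.toLp 2 ![a, b, c] : EN 2) ≠ 0 := by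
  intro h0
  have h1 : (![a, b, c] : Fin 3 → ℂ) = 0 := congrArg WithLp.ofLp h0
  rcases h with h | h | h
  · exact h (congrFun h1 0)
  · exact h (congrFun h1 1)
  · exact h (congrFun h1 2)

/-- `ζ'` is meromorphic -/
private theorem ln_mero {v : ℂ × ℂ → ℂ × ℂ} {p : ℂ → ℂ × ℂ} {z : ℂ} (hp : AnalyticAt ℂ p z) (hv : AnalyticAt ℂ v (p z)) :
    MeromorphicAt (ztv v p) z := by
  classical
  have hvp : AnalyticAt ℂ (fun w => v (p w)) z := hv.comp hp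
  have h1 := Pool.Agent.MQ.an_fst hvp
  have h2 := Pool.Agent.MQ.an_snd hvp
  rcases h2.eventually_eq_zero_or_eventually_ne_zero with h3 | h3
  · have h5 : MeromorphicAt (fun w => (deriv p w).1 / (v (p w)).1) z := (Pool.Agent.MQ.an_fst hp.deriv).meromorphicAt.fun_div h1.meromorphicAt
    refine h5.congr ?_
    filter_upwards [h3.filter_mono nhdsWithin_le_nhds] with w e1
    unfold ztv
    rw [if_pos e1]
  · have h5 : MeromorphicAt (fun w => (deriv p w).2 / (v (p w)).2) z := (Pool.Agent.MQ.an_snd hp.deriv).meromorphicAt.fun_div h2.meromorphicAt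
    refine h5.congr ?_
    filter_upwards [h3] with w e1
    exact (Pool.Agent.MQ.ztv_snd e1).symm

private theorem ln_log_mero {f : ℂ → ℂ} {z : ℂ} (hf : MeromorphicAt f z) (hne : ∀ᶠ w in 𝓝[≠] z, f w ≠ 0) : ∃ c, LogSing (fun w => Real.log ‖f w‖) c z := by
  refine ⟨_, LogSing.log_norm_mero hf ?_⟩
  intro htop
  obtain ⟨w, h1, h2⟩ := ((meromorphicOrderAt_eq_top_iff.1 htop).and hne).exists
  exact h2 h1

private theorem ln_ne0 {x : EN M} (hx : x ∈ coneE P) : x ≠ 0 := by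
  intro h
  have h1 : (Pool.Agent.H17EF.LE M).symm x ∈ Pool.Agent.H13.SM.cone P := hx
  apply h1.1
  rw [h, map_zero]

private theorem ln_freq {Q : ℂ → Prop} {z : ℂ} (h : ∀ᶠ w in 𝓝[≠] z, Q w) : ∃ᶠ w in 𝓝 z, Q w :=
  h.frequently.filter_mono nhdsWithin_le_nhds

section

variable {Wf : EN M → EN M → EN M → ℂ} {mK jH : ℕ}

theorem logSing_N (hX : Surface (coneE P)) (hm : 1 ≤ mK) (hW : IsForm (coneE P) mK jH Wf) (C : Cov S Ra) (k : Fin C.nN) {F : ℂ → EN M}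
    (hF : RCrv θ RD Ra F) (Y : NCLift X F) (hne : WNe Wf Y) :
    ∀ z ∈ Y.U (C.b k), Y.p (C.b k) z ∈ ball (C.y k) (C.t k) → ∃ c, 0 ≤ c ∧ LogSing (eN (C.H k) Wf mK jH Y (C.b k)) c z := by
  intro z hz hzb
  have hBC : BCrv θ l (X.ρ (C.b k)) F (Y.U (C.b k)) (Y.p (C.b k)) := bcrv hF.toWCrv Y (C.b k)
  have hp := hBC.p_an z hz
  obtain ⟨p, hpe⟩ : ∃ p, p = Y.p (C.b k) := ⟨_, rfl⟩
  rw [← hpe] at hp hzb
  have hpd : ∀ᶠ w in 𝓝[≠] z, deriv p w ≠ 0 := hpe ▸ hBC.nc z hz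
  have hp0 : ∀ᶠ w in 𝓝[≠] z, (p w).1 ≠ 0 ∧ (p w).2 ≠ 0 := hpe ▸ hBC.ne z hz
  -- the vector
  have hvec : AnalyticAt ℂ (fun w => C.H k (p w) (deriv p w)) z ∧ ∀ᶠ w in 𝓝[≠] z, C.H k (p w) (deriv p w) ≠ 0 := by
    have hp1 := Pool.Agent.MQ.an_fst hp
    have hp2 := Pool.Agent.MQ.an_snd hp
    have hd1 := Pool.Agent.MQ.an_fst hp.deriv
    have hd2 := Pool.Agent.MQ.an_snd hp.deriv
    cases hu : C.u k with
    | none =>
      have hH : C.H k = hA := by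
        unfold Cov.H
        rw [hu]
        rfl
      rw [hH]
      refine ⟨ln_vec (hp2.mul hd1) (hp1.mul hd2) analyticAt_const, ?_⟩
      filter_upwards [hpd, hp0] with w h1 h2
      refine ln_vec_ne ?_
      by_cases h3 : (deriv p w).1 = 0
      · right; left
        refine mul_ne_zero h2.1 fun h4 => h1 (Prod.ext h3 h4)
      · left
        exact mul_ne_zero h2.2 h3
    | some u' =>
      have hH : C.H k = hB u' := by
        unfold Cov.H
        rw [hu]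
        rfl
      obtain ⟨-, hu', hu''⟩ := C.N_B k u' hu
      have hua : AnalyticAt ℂ u' (p z) := hu' _ (ball_subset_closedBall hzb)
      have hup : AnalyticAt ℂ (fun w => u' (p w)) z := hua.comp hp
      rw [hH]
      have hfd : AnalyticAt ℂ (fun w => fderiv ℂ u' (p w) (deriv p w)) z := by
        refine hup.deriv.congr ?_
        filter_upwards [hp.continuousAt.eventually hua.eventually_analyticAt, hp.eventually_analyticAt] with w h1 h2
        exact (h1.differentiableAt.hasFDerivAt.comp_hasDerivAt w h2.differentiableAt.hasDerivAt).deriv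
      refine ⟨ln_vec hfd (hup.mul hd1) (hup.mul hd2), ?_⟩
      have hU : ∀ᶠ w in 𝓝 z, w ∈ Y.U (C.b k) ∧ p w ∈ ball (C.y k) (C.t k) := by
        filter_upwards [(Y.isOpen _).mem_nhds hz, hp.continuousAt.eventually (isOpen_ball.mem_nhds hzb)] with w h1 h2 using ⟨h1, h2⟩
      have hup0 : ∀ᶠ w in 𝓝[≠] z, u' (p w) ≠ 0 := by
        obtain ⟨d, hd⟩ := hF.homR
        filter_upwards [ln_ev hF.diff hF.neR z, hU.filter_mono nhdsWithin_le_nhds] with w h1 h2 h3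
        obtain ⟨c, hc, h4⟩ := Y.eq (C.b k) w h2.1
        apply h1
        rw [h4, Pool.Agent.H14.PP.eval_smulEN hd, ← hpe, ((hu'' _ (ball_subset_closedBall h2.2)).self_of_nhds.1).2 h3, mul_zero]
      filter_upwards [hpd, hup0] with w h1 h2
      refine ln_vec_ne ?_
      by_cases h3 : (deriv p w).1 = 0
      · right; right
        exact mul_ne_zero h2 fun h4 => h1 (Prod.ext h3 h4)
      · right; left
        exact mul_ne_zero h2 h3
  obtain ⟨k₁, h1⟩ := logSing_norm hvec.1 (ln_freq hvec.2)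
  obtain ⟨k₂, h2⟩ := logSing_log (wt_an hX hm hW hF.diff Y (C.b k) z hz) (ln_freq (hne (C.b k) z hz))
  obtain ⟨k₃, h3⟩ := logSing_norm (hF.diff.analyticAt z) (Eventually.of_forall fun w => ln_ne0 (hF.mem w)).frequently
  refine ⟨k₁ + 1 / mK * k₂ + jH / mK * k₃, by positivity, ?_⟩
  have h4 := (h1.add (h2.const_mul (1 / mK))).add (h3.const_mul (jH / mK))
  refine h4.congr (Eventually.of_forall fun w => ?_)
  rw [hpe]
  rfl

/-- the curve is not contained in the invariant curve -/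
theorem g_ne (C : Cov S Ra) {g : Fin C.nP → ℂ × ℂ → ℂ} (hg : PG C g) (j : Fin C.nP) {F : ℂ → EN M} (hF : RCrv θ RD Ra F) (Y : NCLift X F) :
    ∀ z ∈ C.UP Y j, ∀ᶠ w in 𝓝[≠] z, g j (S.lf Y (C.ck j) w) ≠ 0 := by
  rintro z ⟨hz, hzb⟩
  have hlf := lfN_an hF.toWCrv Y (C.ck j) z hz
  have hO : ∀ᶠ w in 𝓝 z, w ∈ S.Om Y (C.ck j) ∧ S.lf Y (C.ck j) w ∈ ball (C.Q j) (C.r j) := by
    filter_upwards [(Om_open hF.toWCrv Y (C.ck j)).mem_nhds hz, hlf.continuousAt.eventually (isOpen_ball.mem_nhds hzb)] with w h1 h2 using ⟨h1, h2⟩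
  -- the lift is not constant
  have hQ : ∀ᶠ w in 𝓝[≠] z, S.lf Y (C.ck j) w ≠ C.Q j := by
    rcases (hlf.sub (analyticAt_const (v := C.Q j))).eventually_eq_zero_or_eventually_ne_zero with h | h
    · exfalso
      have h1 : ∀ᶠ w in 𝓝 z, deriv (S.lf Y (C.ck j)) w = 0 := by
        filter_upwards [h.eventually_nhds] with w hw
        have h2 : S.lf Y (C.ck j) =ᶠ[𝓝 w] fun _ => C.Q j := by
          filter_upwards [hw] with w' hw'
          exact sub_eq_zero.1 hw'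
        rw [h2.deriv_eq, deriv_const]
      obtain ⟨w, h2, h3⟩ := ((h1.filter_mono nhdsWithin_le_nhds).and (lfN_ne hF.toWCrv Y (C.ck j) z hz)).exists
      exact h3.2.1 h2
    · filter_upwards [h] with w hw h2
      exact hw (sub_eq_zero.2 h2)
  obtain ⟨d, hd⟩ := hF.hom
  obtain ⟨e, he⟩ := hF.homR
  filter_upwards [hO.filter_mono nhdsWithin_le_nhds, hQ, ln_ev hF.diff hF.ne z, ln_ev hF.diff hF.neR z] with w h1 h2 h3 h4 h5
  obtain ⟨-, -, -, h, -, hiff, -⟩ := hg.inv j _ (ball_subset_closedBall h1.2) h2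
  have h7 : eval (S.σ (C.ck j) (S.lf Y (C.ck j) w)).ofLp (RD * Ra) = 0 := hiff.self_of_nhds.2 (by rw [h5, zero_mul])
  have h8 := (lfN_mem hF.toWCrv Y (C.ck j) w h1.1).2
  obtain ⟨c, hc, h10⟩ := Y.eq _ w (Om_sub hF.toWCrv Y (C.ck j) h1.1)
  have h11 : S.σ (C.ck j) (S.lf Y (C.ck j) w) = X.ρ (C.ck j).1 (Y.p (C.ck j).1 w) := by
    unfold Web.σ
    rw [h8]
  rw [map_mul, mul_eq_zero, h11] at h7
  rcases h7 with h7 | h7
  · apply h3
    rw [h10, Pool.Agent.H14.PP.eval_smulEN hd, h7, mul_zero]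
  · apply h4
    rw [h10, Pool.Agent.H14.PP.eval_smulEN he, h7, mul_zero]

theorem logSing_P (hX : Surface (coneE P)) (hm : 1 ≤ mK) (hW : IsForm (coneE P) mK jH Wf) (C : Cov S Ra) {g : Fin C.nP → ℂ × ℂ → ℂ}
    (hg : PG C g) (j : Fin C.nP) {F : ℂ → EN M} (hF : RCrv θ RD Ra F) (Y : NCLift X F) (hne : WNe Wf Y) :
    ∀ z ∈ C.UP Y j, ∃ c, LogSing (eP S (g j) Wf mK jH Y (C.ck j)) c z := by
  intro z hzU
  have hgne := g_ne C hg j hF Y z hzU
  obtain ⟨hz, hzb⟩ := hzU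
  obtain ⟨k, hk⟩ : ∃ k, k = C.ck j := ⟨_, rfl⟩
  rw [← hk] at hz hzb hgne ⊢
  have hlf := lfN_an hF.toWCrv Y k z hz
  have hmem := lfN_mem hF.toWCrv Y k z hz
  have hlne := lfN_ne hF.toWCrv Y k z hz
  -- the five terms
  obtain ⟨c₁, h1⟩ := ln_log_mero (ln_mero hlf ((S.c k).v_an _ hmem.1.1)) (hlne.mono fun w hw => hw.2.2.2.1)
  have hκ : AnalyticAt ℂ (S.κ k) (S.lf Y k z) := by
    show AnalyticAt ℂ (fun q : ℂ × ℂ => (q.1 ^ (S.c k).w.1 * q.2 ^ (S.c k).w'.1, q.1 ^ (S.c k).w.2 * q.2 ^ (S.c k).w'.2)) _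
    exact ((analyticAt_fst.pow _).mul (analyticAt_snd.pow _)).prod ((analyticAt_fst.pow _).mul (analyticAt_snd.pow _))
  obtain ⟨c₂, h2⟩ := logSing_log (AnalyticAt.fun_comp (jc_an hκ) hlf) (ln_freq (hlne.mono fun w hw => hw.2.2.2.2))
  have hga : AnalyticAt ℂ (g j) (S.lf Y k z) := by
    by_cases h0 : S.lf Y k z = C.Q j
    · rw [h0]
      exact hg.an j
    · exact (hg.inv j _ (ball_subset_closedBall hzb) h0).1
  obtain ⟨c₃, h3⟩ := logSing_log (AnalyticAt.fun_comp hga hlf) (ln_freq hgne)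
  obtain ⟨c₄, h4⟩ := logSing_log (wt_an hX hm hW hF.diff Y k.1 z (Om_sub hF.toWCrv Y k hz)) (ln_freq (hne k.1 z (Om_sub hF.toWCrv Y k hz)))
  obtain ⟨c₅, h5⟩ := logSing_norm (hF.diff.analyticAt z) (Eventually.of_forall fun w => ln_ne0 (hF.mem w)).frequently
  exact ⟨_, (((h1.add h2).add h3).add (h4.const_mul (1 / mK))).add (h5.const_mul (jH / mK))⟩

end

end Pool.Agent.MQ3

end
end
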