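import Pool.Agent.H43.TL2.M06
import Pool.Agent.H43.TL2.M61

/-! The parts of this file: H36.BPL.GPb, H68.KR.PD, H68.KR.JF. -/

section

/-!
# BPL GPb: the prime divisor of an embedding of the function field of a surface into `ℂ((X))((T))`
-/

set_option autoImplicit false

noncomputable section

namespace Pool.Agent.H36.BPL

open Pool.Agent.H68.KR
open Pool.Agent.H23.Fano (Form regularForms PrimeDivisorOver)

variable {K : Type} [Field K] [Algebra ℂ K] (E : K →+* LL)

theorem ll_mul {F : Type} [Field F] {a b : F} (h : a * b = 0) : a = 0 ∨ b = 0 := mul_eq_zero.1 h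

omit [Algebra ℂ K] in
theorem nonneg_mul {f g : K} (hf : 0 ≤ vT (E f)) (hg : 0 ≤ vT (E g)) : 0 ≤ vT (E (f * g)) := by
  rw [map_mul, AddValuation.map_mul]
  exact add_nonneg hf hg

omit [Algebra ℂ K] in
theorem nonneg_add {f g : K} (hf : 0 ≤ vT (E f)) (hg : 0 ≤ vT (E g)) : 0 ≤ vT (E (f + g)) := by
  rw [map_add]
  exact le_vT_add (n := 0) hf hg

variable {E}

/-- the residue of a polynomial -/
theorem res_aeval (hE : ∀ c : ℂ, E (algebraMap ℂ K c) = cst c) {ι : Type} {s : ι → K} (hs : ∀ i, 0 ≤ vT (E (s i))) (p : MvPolynomial ι ℂ) :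
    0 ≤ vT (E (MvPolynomial.aeval s p)) ∧
      (E (MvPolynomial.aeval s p)).coeff 0 = MvPolynomial.eval₂ (HahnSeries.C : ℂ →+* L1) (fun i => (E (s i)).coeff 0) p := by
  induction p using MvPolynomial.induction_on with
  | C c =>
    rw [MvPolynomial.aeval_C, hE, MvPolynomial.eval₂_C]
    exact ⟨vT_cst_nonneg c, res_cst c⟩
  | add p q hp hq =>
    rw [map_add, MvPolynomial.eval₂_add, ← hp.2, ← hq.2]
    exact ⟨nonneg_add E hp.1 hq.1, by rw [map_add, HahnSeries.coeff_add]⟩
  | mul_X p i hp =>
    rw [map_mul, MvPolynomial.aeval_X, MvPolynomial.eval₂_mul, MvPolynomial.eval₂_X, ← hp.2]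
    exact ⟨nonneg_mul E hp.1 (hs i), by rw [map_mul, res_mul hp.1 (hs i)]⟩

omit [Algebra ℂ K] in
/-- the value group -/
theorem exists_unif (hneg : ∃ f : K, vT (E f) < 0) :
    ∃ (e : ℕ) (t : K), 1 ≤ e ∧ t ≠ 0 ∧ vT (E t) = ((e : ℤ) : WithTop ℤ) ∧
      ∀ f, f ≠ 0 → ∃ n : ℤ, vT (E f) = ((e * n : ℤ) : WithTop ℤ) := by
  classical
  set v : AddValuation K (WithTop ℤ) := vT.comap E with hv
  have hvE : ∀ f, v f = vT (E f) := fun f => rfl
  have hex : ∀ f : K, f ≠ 0 → ∃ n : ℤ, v f = (n : WithTop ℤ) := by
    intro f hf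
    have h : v f ≠ ⊤ := by
      intro h
      exact hf (v.top_iff.mp h)
    exact ⟨(v f).untop h, (WithTop.coe_untop _ _).symm⟩
  choose! val hval using hex
  have hval_mul : ∀ f g : K, f ≠ 0 → g ≠ 0 → val (f * g) = val f + val g := by
    intro f g hf hg
    have h := v.map_mul f g
    rw [hval f hf, hval g hg, hval (f * g) (mul_ne_zero hf hg)] at h
    exact_mod_cast h
  have hval_one : val 1 = 0 := by
    have h := v.map_one
    rw [hval 1 one_ne_zero] at h
    exact_mod_cast h
  have hval_inv : ∀ f : K, f ≠ 0 → val f⁻¹ = - val f := by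
    intro f hf
    have h := hval_mul f f⁻¹ hf (inv_ne_zero hf)
    rw [mul_inv_cancel₀ hf, hval_one] at h
    omega
  have hval_pow : ∀ (f : K) (n : ℕ), f ≠ 0 → val (f ^ n) = n * val f := by
    intro f n hf
    induction n with
    | zero => simp [hval_one]
    | succ n ih =>
      rw [pow_succ, hval_mul _ _ (pow_ne_zero n hf) hf, ih]
      push_cast
      ring
  have hval_zpow : ∀ (f : K) (n : ℤ), f ≠ 0 → val (f ^ n) = n * val f := by
    intro f n hf
    obtain ⟨m, rfl | rfl⟩ := n.eq_nat_or_neg
    · rw [zpow_natCast, hval_pow f m hf]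
    · rw [zpow_neg, zpow_natCast, hval_inv _ (pow_ne_zero m hf), hval_pow f m hf]
      ring
  have hpos : ∃ n : ℕ, 0 < n ∧ ∃ t : K, t ≠ 0 ∧ val t = n := by
    obtain ⟨f, hf⟩ := hneg
    have hf0 : f ≠ 0 := by
      rintro rfl
      simp at hf
    have h1 : val f < 0 := by
      have h := hval f hf0
      rw [hvE] at h
      rw [h] at hf
      exact_mod_cast hf
    refine ⟨(-val f).toNat, by omega, f⁻¹, inv_ne_zero hf0, ?_⟩
    rw [hval_inv f hf0]
    omega
  set e := Nat.find hpos with he
  obtain ⟨he0, t, ht0, htv⟩ := Nat.find_spec hpos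
  rw [← he] at he0 htv
  have hmin : ∀ (n : ℕ) (f : K), 0 < n → f ≠ 0 → val f = n → e ≤ n :=
    fun n f hn hf h => Nat.find_min' hpos ⟨hn, f, hf, h⟩
  have heZ : (0 : ℤ) < e := by exact_mod_cast he0
  refine ⟨e, t, he0, ht0, by rw [← hvE, hval t ht0, htv], fun f hf => ⟨val f / e, ?_⟩⟩
  have h1 : val (f * t ^ (-(val f / e))) = val f - (val f / e) * e := by
    rw [hval_mul _ _ hf (zpow_ne_zero _ ht0), hval_zpow t _ ht0, htv]
    ring
  have h2 : val f - (val f / e) * e = val f % e := by
    have := Int.emod_add_mul_ediv (val f) e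
    linarith
  have h3 : 0 ≤ val f % e := Int.emod_nonneg _ (ne_of_gt heZ)
  have h4 : val f % e < e := Int.emod_lt_of_pos _ heZ
  have h7 : val f = e * (val f / e) := by
    rcases h3.eq_or_lt with h5 | h5
    · have := Int.emod_add_mul_ediv (val f) e
      omega
    · exfalso
      have h6 := hmin (val f % e).toNat (f * t ^ (-(val f / e))) (by omega)
        (mul_ne_zero hf (zpow_ne_zero _ ht0)) (by rw [h1, h2]; omega)
      omega
  rw [← hvE, hval f hf, ← h7]

theorem JL_aeval (hE : ∀ c : ℂ, E (algebraMap ℂ K c) = cst c) (t : K) (p : Polynomial ℂ) (G : LL) :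
    JL (E (Polynomial.aeval t p)) G = E (Polynomial.aeval t (Polynomial.derivative p)) * JL (E t) G := by
  induction p using Polynomial.induction_on' with
  | add p q hp hq =>
    simp only [map_add] at hp hq ⊢
    rw [JL_add, hp, hq]
    ring
  | monomial n c =>
    induction n with
    | zero =>
      rw [Polynomial.monomial_zero_left, Polynomial.aeval_C, hE, JL_cst, Polynomial.derivative_C, map_zero, map_zero]
      ring
    | succ n ih =>
      have h1 : Polynomial.monomial (n + 1) c = Polynomial.monomial n c * Polynomial.X := (Polynomial.monomial_mul_X n c).symm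
      rw [h1, Polynomial.derivative_mul, Polynomial.derivative_X, map_mul, map_mul, map_add, map_mul, map_mul, map_add, map_mul, map_mul,
        Polynomial.aeval_X, map_one, map_one, JL_mul, ih]
      ring

/-- If a Jacobian is not zero, then there is an element of the valuation ring whose residue is not constant. -/
theorem exists_residue (hE : ∀ c : ℂ, E (algebraMap ℂ K c) = cst c) (hJ : ∃ a b : K, JL (E a) (E b) ≠ 0)
    (hneg : ∃ f : K, vT (E f) < 0) : ∃ s : K, 0 ≤ vT (E s) ∧ ∀ c : ℂ, (E s).coeff 0 ≠ HahnSeries.C c := by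
  by_contra hcon
  push Not at hcon
  obtain ⟨e, t, he, ht0, ht, hall⟩ := exists_unif hneg
  have htn : 0 ≤ vT (E t) := by
    rw [ht]
    exact_mod_cast Nat.zero_le e
  -- expansions
  have hexp : ∀ n : ℕ, ∀ f : K, 0 ≤ vT (E f) → ∃ (p : Polynomial ℂ) (g : K), 0 ≤ vT (E g) ∧ f = Polynomial.aeval t p + t ^ n * g := by
    intro n
    induction n with
    | zero => exact fun f hf => ⟨0, f, hf, by simp⟩
    | succ n ih =>
      intro f hf
      obtain ⟨p, g, hg, hfe⟩ := ih f hf
      obtain ⟨c, hc⟩ := hcon g hg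
      have h1 : ((1 : ℤ) : WithTop ℤ) ≤ vT (E (g - algebraMap ℂ K c)) := by
        rw [map_sub, hE]
        refine one_le_of_res (le_vT_sub (n := 0) hg (vT_cst_nonneg c)) ?_
        have h2 : (E g - cst c).coeff 0 = (E g).coeff 0 - (cst c).coeff 0 := rfl
        rw [h2, hc, res_cst, sub_self]
      refine ⟨p + Polynomial.C c * Polynomial.X ^ n, (g - algebraMap ℂ K c) / t, ?_, ?_⟩
      · by_cases h0 : g - algebraMap ℂ K c = 0
        · rw [h0, zero_div, map_zero, AddValuation.map_zero]
          exact le_top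
        obtain ⟨k, hk⟩ := hall _ h0
        have h2 : vT (E ((g - algebraMap ℂ K c) / t)) + vT (E t) = vT (E (g - algebraMap ℂ K c)) := by
          rw [← AddValuation.map_mul, ← map_mul, div_mul_cancel₀ _ ht0]
        have h00 : (g - algebraMap ℂ K c) / t ≠ 0 := div_ne_zero h0 ht0
        obtain ⟨l, hl⟩ := hall _ h00
        rw [hl, ht, hk] at h2
        rw [hk] at h1
        have h3 : 1 ≤ e * k := by exact_mod_cast h1
        have h4 : (e : ℤ) * l + e = e * k := by exact_mod_cast h2
        have h5 : 0 ≤ l := by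
          have h6 : (0 : ℤ) < e := by exact_mod_cast he
          have h7 : 0 < k := by
            by_contra h
            push Not at h
            have := mul_nonpos_of_nonneg_of_nonpos h6.le h
            omega
          have h8 : (e : ℤ) * (l + 1) = e * k := by linarith
          have h9 := mul_left_cancel₀ (ne_of_gt h6) h8
          omega
        rw [hl]
        have h6 : 0 ≤ (e : ℤ) * l := by positivity
        exact_mod_cast h6
      · rw [hfe, map_add, map_mul, map_pow, Polynomial.aeval_X, Polynomial.aeval_C, pow_succ]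
        field_simp
        ring
  -- the Jacobians of elements of the valuation ring are zero
  have hpn : ∀ p : Polynomial ℂ, 0 ≤ vT (E (Polynomial.aeval t p)) := by
    intro p
    induction p using Polynomial.induction_on' with
    | add p q hp hq =>
      rw [map_add]
      exact nonneg_add E hp hq
    | monomial n c =>
      rw [Polynomial.aeval_monomial]
      refine nonneg_mul E (by rw [hE]; exact vT_cst_nonneg c) ?_
      rw [map_pow, AddValuation.map_pow]
      exact nsmul_nonneg htn n
  have hz : ∀ a b : K, 0 ≤ vT (E a) → 0 ≤ vT (E b) → JL (E a) (E b) = 0 := by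
    intro a b ha hb
    apply eq_zero_of_le
    intro n
    obtain ⟨p, a', ha', hae⟩ := hexp (n + 1) a ha
    obtain ⟨q, b', hb', hbe⟩ := hexp (n + 1) b hb
    have htp : ∀ c : K, 0 ≤ vT (E c) → (((n : ℤ) + 1 : ℤ) : WithTop ℤ) ≤ vT (E (t ^ (n + 1) * c)) := by
      intro c hc
      have h1 : (((n : ℤ) + 1 : ℤ) : WithTop ℤ) ≤ vT (E (t ^ (n + 1))) := by
        have h2 : ∀ k : ℕ, ((k : ℤ) : WithTop ℤ) ≤ vT (E (t ^ k)) := by
          intro k
          induction k with
          | zero => rw [pow_zero, map_one, AddValuation.map_one]; rfl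
          | succ k ih =>
            rw [pow_succ, map_mul]
            have h3 : ((1 : ℤ) : WithTop ℤ) ≤ vT (E t) := by
              rw [ht]
              exact_mod_cast he
            have h4 := le_vT_mul ih h3
            push_cast at h4 ⊢
            exact h4
        exact_mod_cast h2 (n + 1)
      rw [map_mul]
      have h3 := le_vT_mul (n := 0) h1 hc
      rwa [add_zero] at h3
    have hb2 : 0 ≤ vT (E b) := hb
    have hpp := hpn p
    have hqq := hpn q
    have h1 : JL (E a) (E b) = JL (E (t ^ (n + 1) * a')) (E b) - JL (E (t ^ (n + 1) * b')) (E (Polynomial.aeval t p)) := by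
      have e1 : E a = E (Polynomial.aeval t p) + E (t ^ (n + 1) * a') := by rw [← map_add, ← hae]
      have e2 : E b = E (Polynomial.aeval t q) + E (t ^ (n + 1) * b') := by rw [← map_add, ← hbe]
      have e3 : JL (E (Polynomial.aeval t p)) (E (Polynomial.aeval t q)) = 0 := by
        rw [JL_aeval hE, JL_anti (E t), JL_aeval hE, JL_self]
        ring
      have e4 : JL (E (Polynomial.aeval t p)) (E b) = - JL (E (t ^ (n + 1) * b')) (E (Polynomial.aeval t p)) := by
        rw [JL_anti, e2, JL_add, JL_anti (E (Polynomial.aeval t q)), e3]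
        ring
      rw [e1, JL_add, e4]
      ring
    rw [h1]
    have e : ((n : ℤ) + 1) - 1 = n := by ring
    refine le_vT_sub ?_ ?_
    · have h2 := le_vT_JL' (htp a' ha') hb2
      rwa [e] at h2
    · have h2 := le_vT_JL' (htp b' hb') hpp
      rwa [e] at h2
  -- a derivation which vanishes on the valuation ring
  have hder : ∀ G : LL, (∀ a : K, 0 ≤ vT (E a) → JL (E a) G = 0) → ∀ a : K, JL (E a) G = 0 := by
    intro G hG a
    by_cases ha0 : a = 0
    · exact hG a (by rw [ha0, map_zero, AddValuation.map_zero]; exact le_top)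
    by_cases ha : 0 ≤ vT (E a)
    · exact hG a ha
    have h1 : 0 ≤ vT (E a⁻¹) := by
      have h2 : vT (E a) + vT (E a⁻¹) = 0 := by
        rw [← AddValuation.map_mul, ← map_mul, mul_inv_cancel₀ ha0, map_one, AddValuation.map_one]
      obtain ⟨k, hk⟩ := hall a ha0
      obtain ⟨l, hl⟩ := hall a⁻¹ (inv_ne_zero ha0)
      rw [hk] at ha h2
      rw [hl] at h2 ⊢
      have h3 : ¬ (0 : ℤ) ≤ e * k := fun h => ha (by exact_mod_cast h)
      have h4 : (e : ℤ) * k + e * l = 0 := by exact_mod_cast h2
      have h5 : (0 : ℤ) ≤ e * l := by omega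
      exact_mod_cast h5
    have h2 := hG _ h1
    have h3 : JL (E (a * a⁻¹)) G = 0 := by
      rw [mul_inv_cancel₀ ha0]
      have h4 : (1 : K) = algebraMap ℂ K 1 := (map_one _).symm
      rw [h4, hE, JL_cst]
    rw [map_mul, JL_mul, h2] at h3
    have h4 : E a⁻¹ * JL (E a) G = 0 := by
      rw [← h3]
      ring
    rcases ll_mul (F := LL) h4 with h5 | h5
    · exact absurd ((map_eq_zero E).1 h5) (inv_ne_zero ha0)
    · exact h5
  obtain ⟨a, b, hab⟩ := hJ
  apply hab
  refine hder _ (fun a' ha' => ?_) a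
  rw [JL_anti, hder (E a') (fun b' hb' => hz b' a' hb' ha') b]
  ring

/-- The prime divisor of the embedding. -/
theorem exists_primeDivisorG (hE : ∀ c : ℂ, E (algebraMap ℂ K c) = cst c) {s : K} (hs : 0 ≤ vT (E s))
    (hs' : ∀ c : ℂ, (E s).coeff 0 ≠ HahnSeries.C c) (hneg : ∃ f : K, vT (E f) < 0) :
    ∃ (D : PrimeDivisorOver K 2) (e : ℕ), 1 ≤ e ∧ ∀ f : K, f ≠ 0 → ∃ n : ℤ, D.ord f = n ∧ vT (E f) = ((e * n : ℤ) : WithTop ℤ) := by
  classical
  obtain ⟨e, t, he0, ht0, htv, hall⟩ := exists_unif hneg
  have heZ : (0 : ℤ) < e := by exact_mod_cast he0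
  choose! val hval using hall
  have hval_mul : ∀ f g : K, f ≠ 0 → g ≠ 0 → val (f * g) = val f + val g := by
    intro f g hf hg
    have h : vT (E (f * g)) = vT (E f) + vT (E g) := by rw [map_mul, AddValuation.map_mul]
    rw [hval f hf, hval g hg, hval (f * g) (mul_ne_zero hf hg)] at h
    have h1 : (e : ℤ) * val (f * g) = e * val f + e * val g := by exact_mod_cast h
    have h2 : (e : ℤ) * val (f * g) = e * (val f + val g) := by rw [h1, mul_add]
    exact mul_left_cancel₀ (ne_of_gt heZ) h2
  have hval_one : val 1 = 0 := by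
    have h := hval_mul 1 1 one_ne_zero one_ne_zero
    rw [mul_one] at h
    omega
  have hval_add : ∀ f g : K, f ≠ 0 → g ≠ 0 → f + g ≠ 0 → min (val f) (val g) ≤ val (f + g) := by
    intro f g hf hg hfg
    have h : min (vT (E f)) (vT (E g)) ≤ vT (E (f + g)) := by
      rw [map_add]
      exact vT.map_add _ _
    rw [hval f hf, hval g hg, hval (f + g) hfg] at h
    have h' : min ((e : ℤ) * val f) (e * val g) ≤ e * val (f + g) := by exact_mod_cast h
    rcases min_le_iff.mp h' with h4 | h4
    · exact le_trans (min_le_left _ _) (le_of_mul_le_mul_left h4 heZ)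
    · exact le_trans (min_le_right _ _) (le_of_mul_le_mul_left h4 heZ)
  have hval_t : val t = 1 := by
    have h := hval t ht0
    rw [htv] at h
    have h1 : (e : ℤ) = e * val t := by exact_mod_cast h
    have h2 : (e : ℤ) * 1 = e * val t := by rw [mul_one, ← h1]
    exact (mul_left_cancel₀ (ne_of_gt heZ) h2).symm
  set w : K → WithTop ℤ := fun f => if f = 0 then ⊤ else ((val f : ℤ) : WithTop ℤ) with hw
  have hw0 : w 0 = ⊤ := by simp [hw]
  have hwn : ∀ f : K, f ≠ 0 → w f = ((val f : ℤ) : WithTop ℤ) := by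
    intro f hf
    simp [hw, hf]
  let ord : AddValuation K (WithTop ℤ) := AddValuation.of w hw0
    (by rw [hwn 1 one_ne_zero, hval_one]; rfl)
    (by
      intro f g
      by_cases hf : f = 0
      · subst hf
        rw [zero_add, hw0]
        simp
      by_cases hg : g = 0
      · subst hg
        rw [add_zero, hw0]
        simp
      by_cases hfg : f + g = 0
      · rw [hfg, hw0]
        exact le_top
      rw [hwn f hf, hwn g hg, hwn _ hfg]
      exact_mod_cast hval_add f g hf hg hfg)
    (by
      intro f g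
      by_cases hf : f = 0
      · subst hf
        rw [zero_mul, hw0]
        simp
      by_cases hg : g = 0
      · subst hg
        rw [mul_zero, hw0]
        simp
      rw [hwn _ (mul_ne_zero hf hg), hwn f hf, hwn g hg, hval_mul f g hf hg]
      push_cast
      rfl)
  have hord : ∀ f, ord f = w f := fun f => rfl
  have hnn : ∀ f : K, 0 ≤ vT (E f) → 0 ≤ ord f := by
    intro f h
    rw [hord]
    by_cases hf : f = 0
    · subst hf
      rw [hw0]
      exact le_top
    rw [hval f hf] at h
    rw [hwn f hf]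
    have h' : (0 : ℤ) ≤ e * val f := by exact_mod_cast h
    have h2 : 0 ≤ val f := nonneg_of_mul_nonneg_right h' heZ
    exact_mod_cast h2
  have hz : ∀ f : K, vT (E f) = 0 → ord f = 0 := by
    intro f h
    by_cases hf : f = 0
    · subst hf
      rw [map_zero, AddValuation.map_zero] at h
      exact absurd h WithTop.top_ne_zero
    rw [hord, hwn f hf]
    rw [hval f hf] at h
    have h' : (e : ℤ) * val f = 0 := by exact_mod_cast h
    have h2 : val f = 0 := by
      rcases mul_eq_zero.1 h' with h3 | h3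
      · omega
      · exact h3
    rw [h2]
    rfl
  refine ⟨⟨ord, ?_, ⟨t, ?_⟩, ⟨fun _ => s, ?_, ?_⟩⟩, e, he0, ?_⟩
  · intro c
    exact hnn _ (by rw [hE]; exact vT_cst_nonneg c)
  · rw [hord, hwn t ht0, hval_t]
    rfl
  · intro i
    exact hnn s hs
  · intro p hp
    apply hz
    obtain ⟨h1, h2⟩ := res_aeval (s := fun _ : Fin (2 - 1) => s) hE (fun _ => hs) p
    refine vT_eq_zero_of_res h1 ?_
    rw [h2]
    -- from one variable to a polynomial
    set P : Polynomial ℂ := MvPolynomial.aeval (fun _ => Polynomial.X) p with hP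
    have hback : Polynomial.aeval (MvPolynomial.X (R := ℂ) (0 : Fin (2 - 1))) P = p := by
      have : (Polynomial.aeval (MvPolynomial.X (R := ℂ) (0 : Fin (2 - 1)))).comp
          (MvPolynomial.aeval (fun _ : Fin (2 - 1) => (Polynomial.X : Polynomial ℂ))) =
          AlgHom.id ℂ (MvPolynomial (Fin (2 - 1)) ℂ) := by
        apply MvPolynomial.algHom_ext
        intro i
        have hi : i = 0 := Subsingleton.elim (α := Fin 1) _ _
        simp [hi]
      exact congrArg (fun f => f p) this
    have hP0 : P ≠ 0 := by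
      intro h
      rw [h, map_zero] at hback
      exact hp hback.symm
    have hmain : MvPolynomial.eval₂ (HahnSeries.C : ℂ →+* L1) (fun _ => (E s).coeff 0) p =
        P.eval₂ (HahnSeries.C : ℂ →+* L1) ((E s).coeff 0) := by
      have h1 : ∀ q : MvPolynomial (Fin (2 - 1)) ℂ, MvPolynomial.eval₂Hom (HahnSeries.C : ℂ →+* L1)
          (fun _ => (E s).coeff 0) q =
          ((Polynomial.eval₂RingHom (HahnSeries.C : ℂ →+* L1) ((E s).coeff 0)).comp
            (MvPolynomial.aeval (fun _ : Fin (2 - 1) => (Polynomial.X : Polynomial ℂ))).toRingHom) q := by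
        intro q
        congr 1
        apply MvPolynomial.ringHom_ext
        · intro c
          simp
        · intro i
          simp
      have := h1 p
      simpa [hP] using this
    rw [hmain]
    exact transc hs' P hP0
  · intro f hf
    exact ⟨val f, hwn f hf, hval f hf⟩

end Pool.Agent.H36.BPL

end
end

section

set_option autoImplicit false

open Pool.Agent.H23.Fano (Form regularForms PrimeDivisorOver)

noncomputable section

namespace Pool.Agent.H68.KR

private def PD_phi : Polynomial ℂ →+* L1 :=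
  (HahnSeries.ofPowerSeries ℤ ℂ).comp Polynomial.coeToPowerSeries.ringHom

private theorem PD_phi_C (c : ℂ) : PD_phi (Polynomial.C c) = HahnSeries.C c := by
  simp [PD_phi]

private theorem PD_phi_X : PD_phi Polynomial.X = HahnSeries.single 1 1 := by
  simp [PD_phi]

private theorem PD_phi_injective : Function.Injective PD_phi := by
  intro p q h
  have h1 := HahnSeries.ofPowerSeries_injective (Γ := ℤ) (R := ℂ) h
  exact Polynomial.coe_injective ℂ h1

private theorem PD_eval_ne (a : ℂ) (p : MvPolynomial (Fin (2 - 1)) ℂ) (hp : p ≠ 0) :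
    MvPolynomial.eval₂ (HahnSeries.C : ℂ →+* L1) (fun _ => HahnSeries.C a + HahnSeries.single 1 1) p ≠ 0 := by
  set P : Polynomial ℂ := MvPolynomial.aeval (fun _ => Polynomial.X) p with hP
  have hback : Polynomial.aeval (MvPolynomial.X (R := ℂ) (0 : Fin (2 - 1))) P = p := by
    have : (Polynomial.aeval (MvPolynomial.X (R := ℂ) (0 : Fin (2 - 1)))).comp
        (MvPolynomial.aeval (fun _ : Fin (2 - 1) => (Polynomial.X : Polynomial ℂ))) =
        AlgHom.id ℂ (MvPolynomial (Fin (2 - 1)) ℂ) := by
      apply MvPolynomial.algHom_ext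
      intro i
      have hi : i = 0 := Subsingleton.elim (α := Fin 1) _ _
      simp [hi]
    exact congrArg (fun f => f p) this
  have hP0 : P ≠ 0 := by
    intro h
    rw [h, map_zero] at hback
    exact hp hback.symm
  have hT : Polynomial.taylor a P ≠ 0 := by
    intro h
    exact hP0 (Polynomial.taylor_injective a (by rw [h, map_zero]))
  have hmain : MvPolynomial.eval₂ (HahnSeries.C : ℂ →+* L1)
      (fun _ => HahnSeries.C a + HahnSeries.single 1 1) p = PD_phi (Polynomial.taylor a P) := by
    have h1 : ∀ q : MvPolynomial (Fin (2 - 1)) ℂ, MvPolynomial.eval₂Hom (HahnSeries.C : ℂ →+* L1)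
        (fun _ => HahnSeries.C a + HahnSeries.single 1 1) q =
        (PD_phi.comp ((Polynomial.taylorAlgHom a : Polynomial ℂ →ₐ[ℂ] Polynomial ℂ).toRingHom.comp
          (MvPolynomial.aeval (fun _ : Fin (2 - 1) => (Polynomial.X : Polynomial ℂ))).toRingHom)) q := by
      intro q
      congr 1
      apply MvPolynomial.ringHom_ext
      · intro c
        simp [PD_phi_C]
      · intro i
        simp [PD_phi_C, PD_phi_X, add_comm]
    have := h1 p
    simpa [hP] using this
  rw [hmain]
  intro h
  exact hT (PD_phi_injective (by rw [h, map_zero]))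

theorem exists_primeDivisor {K : Type} [Field K] [Algebra ℂ K] (E : K →+* LL)
    (hE : ∀ c : ℂ, E (algebraMap ℂ K c) = cst c) (s : K) (a : ℂ) (hs : E s = cst a + xx)
    (hneg : ∃ f : K, vT (E f) < 0) :
    ∃ D : PrimeDivisorOver K 2, ∀ f : K, 0 ≤ D.ord f ↔ 0 ≤ vT (E f) := by
  classical
  set v : AddValuation K (WithTop ℤ) := vT.comap E with hv
  have hvE : ∀ f, v f = vT (E f) := fun f => rfl
  -- integer values
  have hex : ∀ f : K, f ≠ 0 → ∃ n : ℤ, v f = (n : WithTop ℤ) := by
    intro f hf
    have h : v f ≠ ⊤ := by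
      intro h
      exact hf (v.top_iff.mp h)
    exact ⟨(v f).untop h, (WithTop.coe_untop _ _).symm⟩
  choose! val hval using hex
  have hval_mul : ∀ f g : K, f ≠ 0 → g ≠ 0 → val (f * g) = val f + val g := by
    intro f g hf hg
    have h := v.map_mul f g
    rw [hval f hf, hval g hg, hval (f * g) (mul_ne_zero hf hg)] at h
    exact_mod_cast h
  have hval_one : val 1 = 0 := by
    have h := v.map_one
    rw [hval 1 one_ne_zero] at h
    exact_mod_cast h
  have hval_inv : ∀ f : K, f ≠ 0 → val f⁻¹ = - val f := by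
    intro f hf
    have h := hval_mul f f⁻¹ hf (inv_ne_zero hf)
    rw [mul_inv_cancel₀ hf, hval_one] at h
    omega
  have hval_pow : ∀ (f : K) (n : ℕ), f ≠ 0 → val (f ^ n) = n * val f := by
    intro f n hf
    induction n with
    | zero => simp [hval_one]
    | succ n ih =>
      rw [pow_succ, hval_mul _ _ (pow_ne_zero n hf) hf, ih]
      push_cast
      ring
  have hval_zpow : ∀ (f : K) (n : ℤ), f ≠ 0 → val (f ^ n) = n * val f := by
    intro f n hf
    obtain ⟨m, rfl | rfl⟩ := n.eq_nat_or_neg
    · rw [zpow_natCast, hval_pow f m hf]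
    · rw [zpow_neg, zpow_natCast, hval_inv _ (pow_ne_zero m hf), hval_pow f m hf]
      ring
  -- minimal positive value
  have hpos : ∃ n : ℕ, 0 < n ∧ ∃ t : K, t ≠ 0 ∧ val t = n := by
    obtain ⟨f, hf⟩ := hneg
    have hf0 : f ≠ 0 := by
      rintro rfl
      simp at hf
    have h1 : val f < 0 := by
      have h := hval f hf0
      rw [hvE] at h
      rw [h] at hf
      exact_mod_cast hf
    refine ⟨(-val f).toNat, by omega, f⁻¹, inv_ne_zero hf0, ?_⟩
    rw [hval_inv f hf0]
    omega
  set e := Nat.find hpos with he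
  obtain ⟨he0, t, ht0, htv⟩ := Nat.find_spec hpos
  rw [← he] at he0 htv
  have hmin : ∀ (n : ℕ) (f : K), 0 < n → f ≠ 0 → val f = n → e ≤ n :=
    fun n f hn hf h => Nat.find_min' hpos ⟨hn, f, hf, h⟩
  have heZ : (0 : ℤ) < e := by exact_mod_cast he0
  have hdvd : ∀ f : K, f ≠ 0 → val f = e * (val f / e) := by
    intro f hf
    have h1 : val (f * t ^ (-(val f / e))) = val f - (val f / e) * e := by
      rw [hval_mul _ _ hf (zpow_ne_zero _ ht0), hval_zpow t _ ht0, htv]
      ring
    have h2 : val f - (val f / e) * e = val f % e := by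
      have := Int.emod_add_mul_ediv (val f) e
      linarith
    have h3 : 0 ≤ val f % e := Int.emod_nonneg _ (ne_of_gt heZ)
    have h4 : val f % e < e := Int.emod_lt_of_pos _ heZ
    rcases h3.eq_or_lt with h5 | h5
    · have := Int.emod_add_mul_ediv (val f) e
      omega
    · exfalso
      have h6 := hmin (val f % e).toNat (f * t ^ (-(val f / e))) (by omega)
        (mul_ne_zero hf (zpow_ne_zero _ ht0)) (by rw [h1, h2]; omega)
      omega
  set w : K → WithTop ℤ := fun f => if f = 0 then ⊤ else ((val f / e : ℤ) : WithTop ℤ) with hw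
  have hw0 : w 0 = ⊤ := by simp [hw]
  have hwn : ∀ f : K, f ≠ 0 → w f = ((val f / e : ℤ) : WithTop ℤ) := by
    intro f hf
    simp [hw, hf]
  let ord : AddValuation K (WithTop ℤ) := AddValuation.of w hw0
    (by rw [hwn 1 one_ne_zero, hval_one]; simp)
    (by
      intro f g
      by_cases hf : f = 0
      · subst hf
        rw [zero_add, hw0]
        simp
      by_cases hg : g = 0
      · subst hg
        rw [add_zero, hw0]
        simp
      by_cases hfg : f + g = 0
      · rw [hfg, hw0]
        exact le_top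
      have h := v.map_add f g
      rw [hval f hf, hval g hg, hval (f + g) hfg] at h
      rw [hwn f hf, hwn g hg, hwn _ hfg]
      have h' : min (val f) (val g) ≤ val (f + g) := by exact_mod_cast h
      have h1 := hdvd f hf
      have h2 := hdvd g hg
      have h3 := hdvd (f + g) hfg
      have : min (val f / e) (val g / e) ≤ val (f + g) / e := by
        rcases min_le_iff.mp h' with h4 | h4
        · exact le_trans (min_le_left _ _) (Int.ediv_le_ediv heZ h4)
        · exact le_trans (min_le_right _ _) (Int.ediv_le_ediv heZ h4)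
      exact_mod_cast this)
    (by
      intro f g
      by_cases hf : f = 0
      · subst hf
        rw [zero_mul, hw0]
        simp
      by_cases hg : g = 0
      · subst hg
        rw [mul_zero, hw0]
        simp
      rw [hwn _ (mul_ne_zero hf hg), hwn f hf, hwn g hg, hval_mul f g hf hg]
      have h1 := hdvd f hf
      have h2 : (val f + val g) / (e : ℤ) = val f / e + val g / e := by
        rw [Int.add_ediv_of_dvd_left ⟨_, h1⟩]
      rw [h2]
      push_cast
      rfl)
  have hord : ∀ f, ord f = w f := fun f => rfl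
  have hnn : ∀ f : K, 0 ≤ ord f ↔ 0 ≤ vT (E f) := by
    intro f
    rw [hord, ← hvE]
    by_cases hf : f = 0
    · subst hf
      rw [hw0, v.map_zero]
    rw [hwn f hf, hval f hf]
    have h1 := hdvd f hf
    constructor
    · intro h
      have h' : 0 ≤ val f / (e : ℤ) := by exact_mod_cast h
      have : 0 ≤ val f := by rw [h1]; positivity
      exact_mod_cast this
    · intro h
      have h' : 0 ≤ val f := by exact_mod_cast h
      have : 0 ≤ val f / (e : ℤ) := Int.ediv_nonneg h' heZ.le
      exact_mod_cast this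
  have hC : ∀ f : K, ∀ b : L1, b ≠ 0 → E f = HahnSeries.C b → ord f = 0 := by
    intro f b hb hf
    have h1 : v f = 0 := by rw [hvE, hf, vT_C hb]
    have hf0 : f ≠ 0 := by
      rintro rfl
      rw [v.map_zero] at h1
      exact WithTop.top_ne_zero h1
    rw [hord, hwn f hf0]
    rw [hval f hf0] at h1
    have h2 : val f = 0 := by exact_mod_cast h1
    rw [h2]
    simp
  refine ⟨⟨ord, ?_, ⟨t, ?_⟩, ⟨fun _ => s, ?_, ?_⟩⟩, hnn⟩
  · intro c
    rw [hnn, hE]
    by_cases hc : c = 0
    · subst hc
      simp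
    · have : vT (cst c) = 0 := vT_C (a := HahnSeries.C c) (by simpa using hc)
      rw [this]
  · rw [hord, hwn t ht0, htv, Int.ediv_self (ne_of_gt heZ)]
    rfl
  · intro i
    have : ord s = 0 := by
      apply hC s (HahnSeries.C a + HahnSeries.single 1 1)
      · have h := PD_eval_ne a (MvPolynomial.X 0) (MvPolynomial.X_ne_zero 0)
        simpa using h
      · rw [hs, map_add]
        rfl
    exact this.ge
  · intro p hp
    apply hC _ _ (PD_eval_ne a p hp)
    clear hp
    induction p using MvPolynomial.induction_on with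
    | C c => simp [hE, cst]
    | add p q hp' hq' =>
      rw [map_add, map_add, hp', hq', ← map_add, MvPolynomial.eval₂_add]
    | mul_X p i hp' =>
      rw [map_mul, map_mul, hp', MvPolynomial.aeval_X, MvPolynomial.eval₂_mul, map_mul,
        MvPolynomial.eval₂_X, hs, map_add]
      rfl

end Pool.Agent.H68.KR

end
end

section

/-!
# KR JF: the Jacobian of a rational `2`-form and its order

Proof of `exists_jac`.  `F` is a `K`-module through `E` (inside the proof: `letI := E.toAlgebra`,
`letI : Algebra ℂ F := (E.comp (algebraMap ℂ K)).toAlgebra`, `IsScalarTower.of_algebraMap_eq`).  `δ_i = D_i ∘ E` is a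
derivation `Derivation ℂ K F` (`Derivation.mk'` or by hand; `ℂ`-linear by the Leibniz rule and `hc`).  Let
`l_i = (δ_i).liftKaehlerDifferential : Ω[K⁄ℂ] →ₗ[K] F`, `l_i (d a) = D_i (E a)`.  The map
`(v, w) ↦ l_1 v * l_2 w - l_1 w * l_2 v` is alternating (as an `AlternatingMap K Ω F (Fin 2)`; e.g.
`MultilinearMap.alternatization` or by hand, `Matrix.det` of the `2 × 2` matrix `(l_i (v j))`:
`(Matrix.detRowAlternating).compLinearMap` with `LinearMap.pi ![l_1, l_2]`, then `Matrix.det_fin_two`), lift it to
`⋀[K]^2 Ω` with `exteriorPower.alternatingMapLinearEquiv`; `J` is this map as additive homomorphism; `Form.mk c a` is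
`c • ιMulti (fun i => D (a i))` (see `Pool/Agent/H23/Fano.lean`, `Form.mk`, `ExtPow.wedge`, `d`).

Proof of `pole_free`.  Let `J` be the map of `exists_jac` for `DX`, `DT` (`DX_cst`, `DT_cst`).  The element in question
is `m = E H * (J ω) ^ M`, `ω = Form.mk W a`.
(1) For `f` with `0 ≤ vT (E f)`: `0 ≤ vT (DX (E f)), vT (DT (E f))`.
(2) If `0 ≤ vT (E f)` for all `f : K`, all factors have order `≥ 0` (`AddValuation.map_mul`, `map_sub`, `map_pow`).
(3) Otherwise let `D` be the prime divisor of `exists_primeDivisor`.  `hpole D` gives `g`, `η` with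
`ω = g • η`, `0 ≤ D.ord (H * g ^ M)`.  `vT (J η) ≥ 0`: `AddSubgroup.closure_induction` (generators by (1)).
`m = E H * (E g * J η) ^ M = E (H * g ^ M) * (J η) ^ M`.
-/

set_option autoImplicit false

open Pool.Agent.H23.Fano (Form regularForms PrimeDivisorOver)
open Pool.Agent.H17LG.Variety (PoleAtMost)

noncomputable section

namespace Pool.Agent.H68.KR

theorem exists_jac {K F : Type} [Field K] [Algebra ℂ K] [Field F] (E : K →+* F) (D₁ D₂ : F →+ F)
    (h₁ : ∀ a b, D₁ (a * b) = a * D₁ b + b * D₁ a) (h₂ : ∀ a b, D₂ (a * b) = a * D₂ b + b * D₂ a)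
    (hc₁ : ∀ c : ℂ, D₁ (E (algebraMap ℂ K c)) = 0) (hc₂ : ∀ c : ℂ, D₂ (E (algebraMap ℂ K c)) = 0) :
    ∃ J : Form K 2 →+ F, (∀ (g : K) (η : Form K 2), J (g • η) = E g * J η) ∧
      ∀ (c : K) (a : Fin 2 → K), J (Form.mk c a) =
        E c * (D₁ (E (a 0)) * D₂ (E (a 1)) - D₁ (E (a 1)) * D₂ (E (a 0))) := by
  let algKF : Algebra K F := E.toAlgebra
  let algCF : Algebra ℂ F := (E.comp (algebraMap ℂ K)).toAlgebra
  have tow : IsScalarTower ℂ K F := IsScalarTower.of_algebraMap_eq (fun _ => rfl)
  have hsmulK : ∀ (k : K) (x : F), k • x = E k * x := fun k x => rfl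
  have hsmulC : ∀ (c : ℂ) (x : F), c • x = E (algebraMap ℂ K c) * x := fun c x => rfl
  have main : ∀ D : F →+ F, (∀ a b, D (a * b) = a * D b + b * D a) →
      (∀ c : ℂ, D (E (algebraMap ℂ K c)) = 0) → ∃ l : Ω[K⁄ℂ] →ₗ[K] F,
        ∀ x : K, l (KaehlerDifferential.D ℂ K x) = D (E x) := by
    intro D h hc
    let δ : Derivation ℂ K F := Derivation.mk'
      { toFun := fun x => D (E x)
        map_add' := fun x y => by rw [map_add, map_add]
        map_smul' := fun c x => by
          rw [Algebra.smul_def, map_mul, h, hc, mul_zero, add_zero, RingHom.id_apply, hsmulC] }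
      (fun x y => by
        change D (E (x * y)) = x • D (E y) + y • D (E x)
        rw [map_mul, h, hsmulK, hsmulK])
    exact ⟨δ.liftKaehlerDifferential, fun x => δ.liftKaehlerDifferential_comp_D x⟩
  obtain ⟨l₁, hl₁⟩ := main D₁ h₁ hc₁
  obtain ⟨l₂, hl₂⟩ := main D₂ h₂ hc₂
  let A : AlternatingMap K Ω[K⁄ℂ] F (Fin 2) :=
    { toFun := fun v => l₁ (v 0) * l₂ (v 1) - l₁ (v 1) * l₂ (v 0)
      map_update_add' := by
        intro _ v i x y
        fin_cases i
        · simp
          ring
        · simp
          ring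
      map_update_smul' := by
        intro _ v i c x
        fin_cases i
        · simp [hsmulK]
          ring
        · simp [hsmulK]
          ring
      map_eq_zero_of_eq' := by
        intro v i j hij hne
        fin_cases i <;> fin_cases j
        · exact absurd rfl hne
        · have h : v 0 = v 1 := hij
          simp only [h]
          ring
        · have h : v 1 = v 0 := hij
          simp only [h]
          ring
        · exact absurd rfl hne }
  let J₀ : (⋀[K]^2 Ω[K⁄ℂ]) →ₗ[K] F := exteriorPower.alternatingMapLinearEquiv A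
  have hJ₀ : ∀ v : Fin 2 → Ω[K⁄ℂ], J₀ (exteriorPower.ιMulti K 2 v) =
      l₁ (v 0) * l₂ (v 1) - l₁ (v 1) * l₂ (v 0) := fun v =>
    exteriorPower.alternatingMapLinearEquiv_apply_ιMulti A v
  let J : Form K 2 →+ F := J₀.toAddMonoidHom
  have hJs : ∀ (g : K) (η : Form K 2), J (g • η) = E g * J η := fun g η => J₀.map_smul g η
  refine ⟨J, hJs, fun c a => ?_⟩
  have h1 : J (Form.mk c a) = E c * J₀ (exteriorPower.ιMulti K 2 fun i => KaehlerDifferential.D ℂ K (a i)) :=
    J₀.map_smul c _
  rw [h1, hJ₀, hl₁, hl₁, hl₂, hl₂]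

private theorem JF_mul {x y : LL} (hx : 0 ≤ vT x) (hy : 0 ≤ vT y) : 0 ≤ vT (x * y) := by
  rw [AddValuation.map_mul]
  exact add_nonneg hx hy

private theorem JF_add {x y : LL} (hx : 0 ≤ vT x) (hy : 0 ≤ vT y) : 0 ≤ vT (x + y) :=
  (le_min hx hy).trans (vT.map_add x y)

private theorem JF_neg {x : LL} (hx : 0 ≤ vT x) : 0 ≤ vT (-x) := by
  rw [AddValuation.map_neg]
  exact hx

private theorem JF_sub {x y : LL} (hx : 0 ≤ vT x) (hy : 0 ≤ vT y) : 0 ≤ vT (x - y) := by
  have h : x - y = x + -y := sub_eq_add_neg x y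
  rw [h]
  exact JF_add hx (JF_neg hy)

private theorem JF_pow {x : LL} (hx : 0 ≤ vT x) (n : ℕ) : 0 ≤ vT (x ^ n) := by
  rw [AddValuation.map_pow]
  exact nsmul_nonneg hx n

private theorem JF_zero : 0 ≤ vT (0 : LL) := by
  rw [AddValuation.map_zero]
  exact le_top

private theorem JF_jac {x y : LL} (hx : 0 ≤ vT x) (hy : 0 ≤ vT y) :
    0 ≤ vT (DX x * DT y - DX y * DT x) :=
  JF_sub (JF_mul (vT_DX_nonneg hx) (vT_DT_nonneg hy)) (JF_mul (vT_DX_nonneg hy) (vT_DT_nonneg hx))

theorem pole_free {K : Type} [Field K] [Algebra ℂ K] (E : K →+* LL)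
    (hE : ∀ c : ℂ, E (algebraMap ℂ K c) = cst c) (s : K) (b : ℂ) (hs : E s = cst b + xx)
    (M : ℕ) (H W : K) (a : Fin 2 → K)
    (hpole : ∀ D : PrimeDivisorOver K 2, PoleAtMost 0 D M H (Form.mk W a)) :
    0 ≤ vT (E H * (E W * (DX (E (a 0)) * DT (E (a 1)) - DX (E (a 1)) * DT (E (a 0)))) ^ M) := by
  by_cases hall : ∀ f : K, 0 ≤ vT (E f)
  · exact JF_mul (hall H) (JF_pow (JF_mul (hall W) (JF_jac (hall (a 0)) (hall (a 1)))) M)
  · push Not at hall
    obtain ⟨D, hD⟩ := exists_primeDivisor E hE s b hs hall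
    have hX : ∀ c : ℂ, DX (E (algebraMap ℂ K c)) = 0 := fun c => by rw [hE]; exact DX_cst c
    have hT : ∀ c : ℂ, DT (E (algebraMap ℂ K c)) = 0 := fun c => by rw [hE]; exact DT_cst c
    obtain ⟨J, hJs, hJm⟩ := exists_jac (F := LL) E DX DT (fun a b => DX_mul a b)
      (fun a b => DT_mul a b) hX hT
    obtain ⟨g, η, hη, hω, hord⟩ := hpole D
    have hord' : 0 ≤ D.ord (H * g ^ M) := by
      simpa using hord
    have h1 : 0 ≤ vT (E (H * g ^ M)) := (hD _).1 hord'
    have hgen : ∀ ξ : Form K 2, ξ ∈ regularForms 2 D.localRing → 0 ≤ vT (J ξ) := by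
      intro ξ hξ
      unfold regularForms at hξ
      induction hξ using AddSubgroup.closure_induction with
      | mem x hx =>
        obtain ⟨c, b', hc, hb', rfl⟩ := hx
        rw [hJm]
        exact JF_mul ((hD c).1 hc) (JF_jac ((hD _).1 (hb' 0)) ((hD _).1 (hb' 1)))
      | zero => rw [map_zero]; exact JF_zero
      | add x y _ _ hx hy => rw [map_add]; exact JF_add hx hy
      | neg x _ hx => rw [map_neg]; exact JF_neg hx
    have h2 : 0 ≤ vT (J η) := hgen η hη
    rw [← hJm, hω, hJs]
    have h3 : E H * (E g * J η) ^ M = E (H * g ^ M) * J η ^ M := by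
      rw [map_mul, map_pow]
      ring
    rw [h3]
    exact JF_mul h1 (JF_pow h2 M)

end Pool.Agent.H68.KR

end
end
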