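import Pool.Agent.H43.TL2.H68.KR.D2
import Pool.Agent.H43.TL2.M09
import Pool.Agent.H43.TL2.M16
import Pool.Agent.H43.TL2.M17
import Pool.Agent.H43.TL2.M18

/-! The parts of this file: H14.PP.PieceBasic, H68.KR.Ch, MQ3.SecMul, MQ3.WBxA, MQ3.WebR. -/

section

/-!
# BPm PieceBasic: the pieces, basic properties

`pN`, `pT`, `pM` (`Defs.lean`): nonnegativity (`M ≥ 0`), homogeneity in the vector, continuity
(`0 ≤ κ ≤ 1/4`: all real powers have nonnegative exponents; `(1 + M‖s‖^(2κ))^e` has a base `≥ 1`),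
invariance of `pM true` under exchange of the coordinates.
-/

open Topology Filter Metric

namespace Pool.Agent.H14.PP

private theorem PieceBasic_base {P : Par} (hM : 0 ≤ P.M) (s : ℂ) : 1 ≤ 1 + P.M * ‖s‖ ^ (2 * P.κ) := by
  have : 0 ≤ P.M * ‖s‖ ^ (2 * P.κ) := mul_nonneg hM (Real.rpow_nonneg (norm_nonneg _) _)
  linarith

theorem pN_nonneg {P : Par} (hM : 0 ≤ P.M) (nd : Bool) (s t s' : ℂ) : 0 ≤ pN nd P s t s' := by
  unfold pN
  have h1 := PieceBasic_base hM s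
  have h2 : 0 ≤ (1 + P.M * ‖s‖ ^ (2 * P.κ)) ^ P.e := Real.rpow_nonneg (by linarith) _
  have h3 : 0 ≤ (if nd = true then ‖t‖ ^ (1 - P.κ) * Real.exp (-P.ε * ‖s‖ ^ 2) else 1) := by
    split_ifs
    · exact mul_nonneg (Real.rpow_nonneg (norm_nonneg _) _) (Real.exp_pos _).le
    · exact zero_le_one
  exact mul_nonneg (mul_nonneg (mul_nonneg h3 (norm_nonneg _)) h2) (Real.exp_pos _).le

theorem pT_nonneg {P : Par} (hM : 0 ≤ P.M) (nd : Bool) (s t t' : ℂ) : 0 ≤ pT nd P s t t' := by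
  unfold pT
  split_ifs
  · exact pN_nonneg hM true t s t'
  · exact mul_nonneg (mul_nonneg (Real.rpow_nonneg (norm_nonneg _) _) (norm_nonneg _)) (Real.exp_pos _).le

theorem pM_nonneg {P : Par} (hM : 0 ≤ P.M) (nd : Bool) (p w : ℂ × ℂ) : 0 ≤ pM nd P p w := by
  exact le_max_of_le_left (pN_nonneg hM nd _ _ _)

private theorem PieceBasic_pN_smul {P : Par} (nd : Bool) (s t s' c : ℂ) :
    pN nd P s t (c * s') = ‖c‖ * pN nd P s t s' := by
  unfold pN
  rw [norm_mul]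
  ring

private theorem PieceBasic_pT_smul {P : Par} (nd : Bool) (s t t' c : ℂ) :
    pT nd P s t (c * t') = ‖c‖ * pT nd P s t t' := by
  unfold pT
  split_ifs
  · exact PieceBasic_pN_smul true t s t' c
  · rw [norm_mul]
    ring

theorem pM_smul {P : Par} (nd : Bool) (p w : ℂ × ℂ) (c : ℂ) :
    pM nd P p (c • w) = ‖c‖ * pM nd P p w := by
  unfold pM
  rw [mul_max_of_nonneg _ _ (norm_nonneg c), ← PieceBasic_pN_smul, ← PieceBasic_pT_smul]
  rfl

theorem pM_swap {P : Par} (p w : ℂ × ℂ) : pM true P p.swap w.swap = pM true P p w := by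
  unfold pM pT
  rw [if_pos rfl, if_pos rfl]
  exact max_comm _ _

theorem continuous_pM {P : Par} (hM : 0 ≤ P.M) (hκ : 0 ≤ P.κ) (hκ1 : P.κ ≤ 1 / 4) (nd : Bool) :
    Continuous (fun y : (ℂ × ℂ) × (ℂ × ℂ) => pM nd P y.1 y.2) := by
  have hN : ∀ nd : Bool, Continuous (fun x : ℂ × ℂ × ℂ => pN nd P x.1 x.2.1 x.2.2) := by
    intro nd
    unfold pN
    have hs : Continuous (fun x : ℂ × ℂ × ℂ => ‖x.1‖) := continuous_fst.norm
    have ht : Continuous (fun x : ℂ × ℂ × ℂ => ‖x.2.1‖) := (continuous_fst.comp continuous_snd).norm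
    have hs' : Continuous (fun x : ℂ × ℂ × ℂ => ‖x.2.2‖) := (continuous_snd.comp continuous_snd).norm
    have h1 : Continuous (fun x : ℂ × ℂ × ℂ => ‖x.2.1‖ ^ (1 - P.κ)) :=
      ht.rpow_const fun _ => Or.inr (by linarith)
    have h2 : Continuous (fun x : ℂ × ℂ × ℂ => ‖x.1‖ ^ (2 * P.κ)) :=
      hs.rpow_const fun _ => Or.inr (by linarith)
    have h3a : Continuous (fun x : ℂ × ℂ × ℂ => 1 + P.M * ‖x.1‖ ^ (2 * P.κ)) :=
      continuous_const.add (continuous_const.mul h2)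
    have h3 : Continuous (fun x : ℂ × ℂ × ℂ => (1 + P.M * ‖x.1‖ ^ (2 * P.κ)) ^ P.e) :=
      h3a.rpow_const fun x =>
        Or.inl (ne_of_gt (lt_of_lt_of_le one_pos (PieceBasic_base (P := P) hM x.1)))
    have h4 : Continuous (fun x : ℂ × ℂ × ℂ => Real.exp (-P.K * ‖x.2.1‖ ^ 2)) :=
      Real.continuous_exp.comp (continuous_const.mul (ht.pow 2))
    have h5 : Continuous (fun x : ℂ × ℂ × ℂ => Real.exp (-P.ε * ‖x.1‖ ^ 2)) :=
      Real.continuous_exp.comp (continuous_const.mul (hs.pow 2))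
    cases nd
    · simp only [Bool.false_eq_true, if_false]
      exact ((continuous_const.mul hs').mul h3).mul h4
    · simp only [if_true]
      exact (((h1.mul h5).mul hs').mul h3).mul h4
  have hT : Continuous (fun x : ℂ × ℂ × ℂ => pT nd P x.1 x.2.1 x.2.2) := by
    unfold pT
    cases nd
    · simp only [Bool.false_eq_true, if_false]
      have hs : Continuous (fun x : ℂ × ℂ × ℂ => ‖x.1‖) := continuous_fst.norm
      have ht : Continuous (fun x : ℂ × ℂ × ℂ => ‖x.2.1‖) := (continuous_fst.comp continuous_snd).norm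
      have hs' : Continuous (fun x : ℂ × ℂ × ℂ => ‖x.2.2‖) := (continuous_snd.comp continuous_snd).norm
      have h1 : Continuous (fun x : ℂ × ℂ × ℂ => ‖x.1‖ ^ (1 - P.κ)) :=
        hs.rpow_const fun _ => Or.inr (by linarith)
      have h5 : Continuous (fun x : ℂ × ℂ × ℂ => Real.exp (-P.ε * ‖x.2.1‖ ^ 2)) :=
        Real.continuous_exp.comp (continuous_const.mul (ht.pow 2))
      exact (h1.mul hs').mul h5
    · simp only [if_true]
      have h6 : Continuous (fun x : ℂ × ℂ × ℂ => ((x.2.1, x.1, x.2.2) : ℂ × ℂ × ℂ)) := by fun_prop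
      have h7 := (hN true).comp h6
      exact h7
  unfold pM
  have h7 : Continuous (fun y : (ℂ × ℂ) × (ℂ × ℂ) => ((y.1.1, y.1.2, y.2.1) : ℂ × ℂ × ℂ)) := by fun_prop
  have h8 : Continuous (fun y : (ℂ × ℂ) × (ℂ × ℂ) => ((y.1.1, y.1.2, y.2.2) : ℂ × ℂ × ℂ)) := by fun_prop
  have h9 := (hN nd).comp h7
  have h10 := hT.comp h8
  have h11 := h9.max h10
  exact h11

private theorem PieceBasic_exp_le {a x : ℝ} (ha : 0 ≤ a) : Real.exp (-a * x ^ 2) ≤ 1 := by
  rw [Real.exp_le_one_iff]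
  nlinarith [sq_nonneg x]

private theorem PieceBasic_le_exp {a x : ℝ} (ha : 0 ≤ a) (hx0 : 0 ≤ x) (hx : x ≤ 1) :
    Real.exp (-a) ≤ Real.exp (-a * x ^ 2) := by
  rw [Real.exp_le_exp]
  have : x ^ 2 ≤ 1 := pow_le_one₀ hx0 hx
  nlinarith

private theorem PieceBasic_rpow_ge {x κ : ℝ} (hx0 : 0 ≤ x) (hx : x ≤ 1) (hκ : 0 ≤ κ) (hκ1 : κ ≤ 1 / 4) :
    x ≤ x ^ (1 - κ) := by
  rcases hx0.eq_or_lt with h | h
  · rw [← h, Real.zero_rpow (by linarith)]
  · have := Real.rpow_le_rpow_of_exponent_ge h hx (show 1 - κ ≤ 1 by linarith)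
    rwa [Real.rpow_one] at this

private theorem PieceBasic_rpow_le {x κ : ℝ} (hx0 : 0 ≤ x) (hx : x ≤ 1) (hκ1 : κ ≤ 1 / 4) :
    x ^ (1 - κ) ≤ 1 := Real.rpow_le_one hx0 hx (by linarith)

private theorem PieceBasic_pow_le {P : Par} (hP : ConvPar P) {s : ℂ} (hs : ‖s‖ ≤ 1) :
    (1 + P.M * ‖s‖ ^ (2 * P.κ)) ^ P.e ≤ 2 := by
  have hM : 0 ≤ P.M := by linarith [hP.M_ge]
  have h1 := PieceBasic_base (P := P) hM s
  have h2 : ‖s‖ ^ (2 * P.κ) ≤ 1 := Real.rpow_le_one (norm_nonneg _) hs (by linarith [hP.κ_pos])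
  have h3 : 1 + P.M * ‖s‖ ^ (2 * P.κ) ≤ 1 + P.M := by nlinarith
  have h4 : (1 + P.M * ‖s‖ ^ (2 * P.κ)) ^ P.e ≤ (1 + P.M) ^ P.e :=
    Real.rpow_le_rpow (by linarith) h3 hP.e_pos.le
  refine h4.trans ?_
  rw [Real.rpow_def_of_pos (by linarith)]
  have h5 : Real.log (1 + P.M) * P.e ≤ 1 / 16 := by
    have := hP.e_log
    have := hP.ε_le
    nlinarith
  have h6 : Real.exp (Real.log (1 + P.M) * P.e) ≤ Real.exp (1 / 16) := Real.exp_le_exp.2 h5
  have h7 : Real.exp (1 / 16) ≤ 2 := by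
    have h8 := Real.exp_bound_div_one_sub_of_interval (x := 1 / 16) (by norm_num) (by norm_num)
    refine h8.trans (by norm_num)
  exact h6.trans h7

private theorem PieceBasic_one_le {P : Par} (hP : ConvPar P) (s : ℂ) :
    1 ≤ (1 + P.M * ‖s‖ ^ (2 * P.κ)) ^ P.e :=
  Real.one_le_rpow (PieceBasic_base (by linarith [hP.M_ge]) s) hP.e_pos.le

private theorem PieceBasic_pN_le {P : Par} (hP : ConvPar P) (nd : Bool) {s t : ℂ} (hs : ‖s‖ ≤ 1) (ht : ‖t‖ ≤ 1)
    (s' : ℂ) : pN nd P s t s' ≤ 2 * ‖s'‖ := by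
  unfold pN
  have h1 := PieceBasic_pow_le hP hs
  have h1' := PieceBasic_one_le hP s
  have h2 : Real.exp (-P.K * ‖t‖ ^ 2) ≤ 1 := PieceBasic_exp_le hP.K_pos.le
  have h3 : (if nd = true then ‖t‖ ^ (1 - P.κ) * Real.exp (-P.ε * ‖s‖ ^ 2) else 1) ≤ 1 := by
    split_ifs
    · exact mul_le_one₀ (PieceBasic_rpow_le (norm_nonneg _) ht hP.κ_le) (Real.exp_pos _).le
        (PieceBasic_exp_le hP.ε_pos.le)
    · exact le_refl _
  have h4 : 0 ≤ (if nd = true then ‖t‖ ^ (1 - P.κ) * Real.exp (-P.ε * ‖s‖ ^ 2) else 1) := by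
    split_ifs
    · exact mul_nonneg (Real.rpow_nonneg (norm_nonneg _) _) (Real.exp_pos _).le
    · exact zero_le_one
  have h5 := norm_nonneg s'
  calc _ ≤ 1 * ‖s'‖ * 2 * 1 := by
        refine mul_le_mul (mul_le_mul (mul_le_mul h3 le_rfl h5 zero_le_one) h1 (by linarith) (by positivity)) h2
          (Real.exp_pos _).le (by positivity)
    _ = 2 * ‖s'‖ := by ring

private theorem PieceBasic_le_pN_true {P : Par} (hP : ConvPar P) {s t : ℂ} (hs : ‖s‖ ≤ 1) (ht : ‖t‖ ≤ 1)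
    (s' : ℂ) : ‖t‖ * ‖s'‖ * Real.exp (-P.K - 1) ≤ pN true P s t s' := by
  unfold pN
  rw [if_pos rfl]
  have h1 := PieceBasic_one_le hP s
  have h2 : Real.exp (-P.K) ≤ Real.exp (-P.K * ‖t‖ ^ 2) := PieceBasic_le_exp hP.K_pos.le (norm_nonneg _) ht
  have h3 : Real.exp (-1) ≤ Real.exp (-P.ε * ‖s‖ ^ 2) := by
    refine le_trans (Real.exp_le_exp.2 ?_) (PieceBasic_le_exp hP.ε_pos.le (norm_nonneg _) hs)
    linarith [hP.ε_le]
  have h4 : ‖t‖ ≤ ‖t‖ ^ (1 - P.κ) := PieceBasic_rpow_ge (norm_nonneg _) ht hP.κ_pos.le hP.κ_le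
  have h5 : Real.exp (-P.K - 1) = Real.exp (-1) * Real.exp (-P.K) := by
    rw [← Real.exp_add]
    congr 1
    ring
  rw [h5]
  have hr : 0 ≤ ‖t‖ ^ (1 - P.κ) := Real.rpow_nonneg (norm_nonneg _) _
  calc ‖t‖ * ‖s'‖ * (Real.exp (-1) * Real.exp (-P.K)) = ‖t‖ * Real.exp (-1) * ‖s'‖ * 1 * Real.exp (-P.K) := by ring
    _ ≤ ‖t‖ ^ (1 - P.κ) * Real.exp (-P.ε * ‖s‖ ^ 2) * ‖s'‖ * (1 + P.M * ‖s‖ ^ (2 * P.κ)) ^ P.e *
        Real.exp (-P.K * ‖t‖ ^ 2) := by
      gcongr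

private theorem PieceBasic_le_pN_false {P : Par} (hP : ConvPar P) {s t : ℂ} (ht : ‖t‖ ≤ 1)
    (s' : ℂ) : ‖s'‖ * Real.exp (-P.K - 1) ≤ pN false P s t s' := by
  unfold pN
  rw [if_neg (by decide)]
  have h1 := PieceBasic_one_le hP s
  have h2 : Real.exp (-P.K) ≤ Real.exp (-P.K * ‖t‖ ^ 2) := PieceBasic_le_exp hP.K_pos.le (norm_nonneg _) ht
  have h5 : Real.exp (-P.K - 1) ≤ Real.exp (-P.K) := Real.exp_le_exp.2 (by linarith)
  calc ‖s'‖ * Real.exp (-P.K - 1) ≤ ‖s'‖ * Real.exp (-P.K * ‖t‖ ^ 2) :=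
        mul_le_mul_of_nonneg_left (h5.trans h2) (norm_nonneg _)
    _ = 1 * ‖s'‖ * 1 * Real.exp (-P.K * ‖t‖ ^ 2) := by ring
    _ ≤ 1 * ‖s'‖ * (1 + P.M * ‖s‖ ^ (2 * P.κ)) ^ P.e * Real.exp (-P.K * ‖t‖ ^ 2) := by gcongr

private theorem PieceBasic_fst {p : ℂ × ℂ} (hp : ‖p‖ ≤ 1) : ‖p.1‖ ≤ 1 := (norm_fst_le p).trans hp

private theorem PieceBasic_snd {p : ℂ × ℂ} (hp : ‖p‖ ≤ 1) : ‖p.2‖ ≤ 1 := (norm_snd_le p).trans hp

/-- the upper bound -/
theorem pM_le {P : Par} (hP : ConvPar P) (nd : Bool) {p : ℂ × ℂ} (hp : ‖p‖ ≤ 1) (w : ℂ × ℂ) :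
    pM nd P p w ≤ 2 * ‖w‖ := by
  have h1 := PieceBasic_fst hp
  have h2 := PieceBasic_snd hp
  have hw1 : ‖w.1‖ ≤ ‖w‖ := norm_fst_le w
  have hw2 : ‖w.2‖ ≤ ‖w‖ := norm_snd_le w
  refine max_le ?_ ?_
  · exact (PieceBasic_pN_le hP nd h1 h2 w.1).trans (by linarith)
  · unfold pT
    split_ifs
    · exact (PieceBasic_pN_le hP true h2 h1 w.2).trans (by linarith)
    · have h3 : ‖p.1‖ ^ (1 - P.κ) ≤ 1 := PieceBasic_rpow_le (norm_nonneg _) h1 hP.κ_le
      have h4 : Real.exp (-P.ε * ‖p.2‖ ^ 2) ≤ 1 := PieceBasic_exp_le hP.ε_pos.le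
      calc ‖p.1‖ ^ (1 - P.κ) * ‖w.2‖ * Real.exp (-P.ε * ‖p.2‖ ^ 2) ≤ 1 * ‖w.2‖ * 1 := by gcongr
        _ ≤ 2 * ‖w‖ := by linarith [norm_nonneg w.2]

/-- the lower bounds -/
theorem le_pM_false {P : Par} (hP : ConvPar P) {p : ℂ × ℂ} (hp : ‖p‖ ≤ 1) (w : ℂ × ℂ) :
    ‖p.1‖ * ‖w‖ * Real.exp (-P.K - 1) ≤ pM false P p w := by
  have h1 := PieceBasic_fst hp
  have h2 := PieceBasic_snd hp
  have hw : ‖w‖ = max ‖w.1‖ ‖w.2‖ := Prod.norm_def _
  have hE : 0 ≤ Real.exp (-P.K - 1) := (Real.exp_pos _).le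
  rcases max_choice ‖w.1‖ ‖w.2‖ with h | h
  · rw [hw, h]
    refine le_max_of_le_left ((le_trans ?_ (PieceBasic_le_pN_false hP h2 w.1)))
    have h3 : ‖p.1‖ * ‖w.1‖ ≤ 1 * ‖w.1‖ := mul_le_mul_of_nonneg_right h1 (norm_nonneg _)
    rw [one_mul] at h3
    exact mul_le_mul_of_nonneg_right h3 hE
  · rw [hw, h]
    refine le_max_of_le_right ?_
    unfold pT
    rw [if_neg (by decide)]
    have h4 : ‖p.1‖ ≤ ‖p.1‖ ^ (1 - P.κ) := PieceBasic_rpow_ge (norm_nonneg _) h1 hP.κ_pos.le hP.κ_le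
    have h5 : Real.exp (-P.K - 1) ≤ Real.exp (-P.ε * ‖p.2‖ ^ 2) := by
      refine le_trans (Real.exp_le_exp.2 ?_) (PieceBasic_le_exp hP.ε_pos.le (norm_nonneg _) h2)
      linarith [hP.ε_le, hP.K_pos]
    have hr : 0 ≤ ‖p.1‖ ^ (1 - P.κ) := Real.rpow_nonneg (norm_nonneg _) _
    gcongr

theorem le_pM_true {P : Par} (hP : ConvPar P) {p : ℂ × ℂ} (hp : ‖p‖ ≤ 1) (w : ℂ × ℂ) :
    ‖p.1‖ * ‖p.2‖ * ‖w‖ * Real.exp (-P.K - 1) ≤ pM true P p w := by
  have h1 := PieceBasic_fst hp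
  have h2 := PieceBasic_snd hp
  have hw : ‖w‖ = max ‖w.1‖ ‖w.2‖ := Prod.norm_def _
  have hE : 0 ≤ Real.exp (-P.K - 1) := (Real.exp_pos _).le
  rcases max_choice ‖w.1‖ ‖w.2‖ with h | h
  · rw [hw, h]
    refine le_max_of_le_left ((le_trans ?_ (PieceBasic_le_pN_true hP h1 h2 w.1)))
    have h3 : ‖p.1‖ * ‖p.2‖ * ‖w.1‖ ≤ ‖p.2‖ * ‖w.1‖ := by
      have := mul_le_mul_of_nonneg_right h1 (mul_nonneg (norm_nonneg p.2) (norm_nonneg w.1))
      linarith
    exact mul_le_mul_of_nonneg_right h3 hE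
  · rw [hw, h]
    refine le_max_of_le_right ?_
    unfold pT
    rw [if_pos rfl]
    refine le_trans ?_ (PieceBasic_le_pN_true hP h2 h1 w.2)
    have h3 : ‖p.1‖ * ‖p.2‖ * ‖w.2‖ ≤ ‖p.1‖ * ‖w.2‖ := by
      have := mul_le_mul_of_nonneg_right h2 (mul_nonneg (norm_nonneg p.1) (norm_nonneg w.2))
      linarith
    exact mul_le_mul_of_nonneg_right h3 hE

end Pool.Agent.H14.PP

end

section

/-!
# KR Ch: charts of a cone by coordinate ratios

`CChart P x t σ`: `σ` is the chart at the point `x` of the cone of `P` whose coordinates are the ratios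
`x_(t 1) / x_(t 0)`, `x_(t 2) / x_(t 0)`.  `D3 t x v w` is the `3 × 3` minor `t` of the matrix with the rows `x, v, w`.
`d1 φ u`, `d2 φ u` are the partial derivatives of `φ : ℂ × ℂ → V`.

Proofs.
* `D3_add_smul`, `D3_det`, `D3_smul`: `simp only [D3, Pi.add_apply, Pi.smul_apply, smul_eq_mul]; ring`.
* `analyticAt_d1`, `analyticAt_d2`, `analyticAt_D3`: as in `D2` (`AnalyticAt.fderiv`); components by `analyticAt_pi_iff`.
* `d1_apply`, `d2_apply`: `(d1 φ u) i = dx (fun v => φ v i) u` if `φ` is differentiable at `u` (`fderiv_apply`-lemma of pi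
  types: `fderiv_pi`/`HasFDerivAt` composed with the projection `ContinuousLinearMap.proj i`).
* `CChart.D3_eq`: near `0` (`eventually_eventually_nhds`) the components `t 0, t 1, t 2` of `σ` are the affine functions of
  `c0, c1, c2`, so by `d1_apply` `d1 σ u` has the components `0, x (t 0), 0` and `d2 σ u` the components `0, 0, x (t 0)` at
  `t 0, t 1, t 2`; `D3 = x (t 0) ^ 3`.
* `CChart.param`: `κ u = (φ u (t 1) / φ u (t 0) - x (t 1) / x (t 0), …)`, `c u = φ u (t 0) / x (t 0)`, `surj` at `y = φ u`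
  (`φ` is continuous at `p`, `φ p = x`).
* `d1_smul_comp`: product and chain rule at `u`: `d1 φ u = (dx c u) • σ (κ u) + c u • (dx κ₁ u • d1 σ (κ u) + dx κ₂ u • d2 σ (κ u))`
  for `φ = c • σ ∘ κ` near `u`.
* `D3_comp`: from `d1_smul_comp`, `d2_smul_comp`: with `y = σ (κ u)`, `v, w` the derivatives:
  `D3 s (c y) (c_x y + c (a v + b w)) (c_y y + c (a' v + b' w)) = c ^ 3 (a b' - b a') D3 s y v w` (`simp only [D3, …]; ring`).
* `tan_of_analytic`: the curves `z ↦ φ (p + z (1, 0))`.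
* `CChart.tan`: for `v = γ' (0)`: with `κ z = (γ z (t 1) / γ z (t 0) - …, …)`, `c z = γ z (t 0) / x (t 0)`:
  `γ z = c z • σ (κ z)` near `0` by `surj`; differentiate at `0` (`c 0 = 1`, `κ 0 = 0`, `σ 0 = x`):
  `v = c' (0) • x + fderiv σ 0 (κ' 0)` and `fderiv σ 0 (a, b) = a • d1 σ 0 + b • d2 σ 0`.
* `CChart.nd_near`: `σ` is analytic on a ball about `0` (`AnalyticAt.eventually_analyticAt`); if `eval (σ u) Q = 0` near a point
  `p` of the ball, it vanishes on the ball (identity theorem,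
  `AnalyticOnNhd.eqOn_zero_of_preconnected_of_eventuallyEq_zero`), against `nd`.  (`u ↦ eval (σ u) Q` is analytic:
  `analyticAt_eval`, by `MvPolynomial.induction_on`.)
* `CChart.smul_mem`, `cone_smul`: for a homogeneous ideal `eval (c • x) Q = ∑ c ^ d eval x Q_d = 0`, because `Q_d ∈ P`.
-/

set_option autoImplicit false

open MvPolynomial Topology Filter
open Pool.Agent.H17BP (Tan)

noncomputable section

namespace Pool.Agent.H68.KR

variable {N : ℕ}

/-- The cone (without the vertex) of the zero set of `P`. -/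
def cone (P : Ideal (MvPolynomial (Fin (N + 1)) ℂ)) : Set (Fin (N + 1) → ℂ) :=
  {x | x ≠ 0 ∧ ∀ Q ∈ P, eval x Q = 0}

/-- The chart at `x` by the coordinate ratios `x_(t 1) / x_(t 0)`, `x_(t 2) / x_(t 0)`. -/
structure CChart (P : Ideal (MvPolynomial (Fin (N + 1)) ℂ)) (x : Fin (N + 1) → ℂ)
    (t : Fin 3 → Fin (N + 1)) (σ : ℂ × ℂ → Fin (N + 1) → ℂ) : Prop where
  an : AnalyticAt ℂ σ 0
  zero : σ 0 = x
  ne : x (t 0) ≠ 0
  mem : ∀ᶠ u in 𝓝 (0 : ℂ × ℂ), ∀ Q ∈ P, eval (σ u) Q = 0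
  c0 : ∀ᶠ u in 𝓝 (0 : ℂ × ℂ), σ u (t 0) = x (t 0)
  c1 : ∀ᶠ u in 𝓝 (0 : ℂ × ℂ), σ u (t 1) = x (t 1) + x (t 0) * u.1
  c2 : ∀ᶠ u in 𝓝 (0 : ℂ × ℂ), σ u (t 2) = x (t 2) + x (t 0) * u.2
  surj : ∀ᶠ y in 𝓝 x, (∀ Q ∈ P, eval y Q = 0) → y = (y (t 0) / x (t 0)) •
    σ (y (t 1) / y (t 0) - x (t 1) / x (t 0), y (t 2) / y (t 0) - x (t 2) / x (t 0))
  nd : ∀ (d : ℕ) (Q : MvPolynomial (Fin (N + 1)) ℂ), Q.IsHomogeneous d → Q ∉ P →
    ¬ ∀ᶠ u in 𝓝 (0 : ℂ × ℂ), eval (σ u) Q = 0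

/-- The minor `t` of the matrix with the rows `x, v, w`. -/
def D3 {F : Type} [Field F] (t : Fin 3 → Fin (N + 1)) (x v w : Fin (N + 1) → F) : F :=
  x (t 0) * (v (t 1) * w (t 2) - v (t 2) * w (t 1)) -
    x (t 1) * (v (t 0) * w (t 2) - v (t 2) * w (t 0)) +
    x (t 2) * (v (t 0) * w (t 1) - v (t 1) * w (t 0))

/-- The partial derivative in the first variable. -/
def d1 (φ : ℂ × ℂ → Fin (N + 1) → ℂ) (u : ℂ × ℂ) : Fin (N + 1) → ℂ := fderiv ℂ φ u (1, 0)

/-- The partial derivative in the second variable. -/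
def d2 (φ : ℂ × ℂ → Fin (N + 1) → ℂ) (u : ℂ × ℂ) : Fin (N + 1) → ℂ := fderiv ℂ φ u (0, 1)

/-- The Jacobian determinant. -/
def jac (κ : ℂ × ℂ → ℂ × ℂ) (u : ℂ × ℂ) : ℂ :=
  dx (fun v => (κ v).1) u * dy (fun v => (κ v).2) u - dy (fun v => (κ v).1) u * dx (fun v => (κ v).2) u

theorem D3_add_smul {F : Type} [Field F] (t : Fin 3 → Fin (N + 1)) (x v w : Fin (N + 1) → F) (a b : F) :
    D3 t x (v + a • x) (w + b • x) = D3 t x v w := by
  simp only [D3, Pi.add_apply, Pi.smul_apply, smul_eq_mul]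
  ring

theorem D3_det {F : Type} [Field F] (t : Fin 3 → Fin (N + 1)) (x v w : Fin (N + 1) → F) (a b c d : F) :
    D3 t x (a • v + b • w) (c • v + d • w) = (a * d - b * c) * D3 t x v w := by
  simp only [D3, Pi.add_apply, Pi.smul_apply, smul_eq_mul]
  ring

section

variable {φ : ℂ × ℂ → Fin (N + 1) → ℂ} {p : ℂ × ℂ}

theorem analyticAt_d1 (h : AnalyticAt ℂ φ p) : AnalyticAt ℂ (d1 φ) p := by
  have h1 := ContinuousLinearMap.analyticAt
    (ContinuousLinearMap.apply ℂ (Fin (N + 1) → ℂ) ((1, 0) : ℂ × ℂ)) (fderiv ℂ φ p)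
  exact AnalyticAt.comp (f := fderiv ℂ φ) h1 h.fderiv

theorem analyticAt_d2 (h : AnalyticAt ℂ φ p) : AnalyticAt ℂ (d2 φ) p := by
  have h1 := ContinuousLinearMap.analyticAt
    (ContinuousLinearMap.apply ℂ (Fin (N + 1) → ℂ) ((0, 1) : ℂ × ℂ)) (fderiv ℂ φ p)
  exact AnalyticAt.comp (f := fderiv ℂ φ) h1 h.fderiv

theorem analyticAt_D3 (t : Fin 3 → Fin (N + 1)) (h : AnalyticAt ℂ φ p) :
    AnalyticAt ℂ (fun u => D3 t (φ u) (d1 φ u) (d2 φ u)) p := by
  have hx : ∀ i, AnalyticAt ℂ (fun u => φ u i) p := analyticAt_pi_iff.1 h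
  have hv : ∀ i, AnalyticAt ℂ (fun u => d1 φ u i) p := analyticAt_pi_iff.1 (analyticAt_d1 h)
  have hw : ∀ i, AnalyticAt ℂ (fun u => d2 φ u i) p := analyticAt_pi_iff.1 (analyticAt_d2 h)
  unfold D3
  exact (((hx _).mul (((hv _).mul (hw _)).sub ((hv _).mul (hw _)))).sub
    ((hx _).mul (((hv _).mul (hw _)).sub ((hv _).mul (hw _))))).add
    ((hx _).mul (((hv _).mul (hw _)).sub ((hv _).mul (hw _))))

theorem analyticAt_eval (h : AnalyticAt ℂ φ p) (Q : MvPolynomial (Fin (N + 1)) ℂ) :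
    AnalyticAt ℂ (fun u => eval (φ u) Q) p := by
  have hi : ∀ i, AnalyticAt ℂ (fun u => φ u i) p := analyticAt_pi_iff.1 h
  induction Q using MvPolynomial.induction_on with
  | C a =>
    simp only [MvPolynomial.eval_C]
    exact analyticAt_const
  | add q r hq hr =>
    simp only [map_add]
    exact hq.add hr
  | mul_X q i hq =>
    simp only [map_mul, MvPolynomial.eval_X]
    exact hq.mul (hi i)

theorem analyticAt_jac {κ : ℂ × ℂ → ℂ × ℂ} (h : AnalyticAt ℂ κ p) : AnalyticAt ℂ (jac κ) p := by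
  have h1 : AnalyticAt ℂ (fun v => (κ v).1) p := 
    AnalyticAt.fun_comp (ContinuousLinearMap.analyticAt (ContinuousLinearMap.fst ℂ ℂ ℂ) _) h
  have h2 : AnalyticAt ℂ (fun v => (κ v).2) p := 
    AnalyticAt.fun_comp (ContinuousLinearMap.analyticAt (ContinuousLinearMap.snd ℂ ℂ ℂ) _) h
  exact ((analyticAt_dx h1).mul (analyticAt_dy h2)).sub ((analyticAt_dy h1).mul (analyticAt_dx h2))

theorem d1_apply (h : AnalyticAt ℂ φ p) (i : Fin (N + 1)) : d1 φ p i = dx (fun v => φ v i) p := by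
  have h1 := (hasFDerivAt_pi'.1 h.differentiableAt.hasFDerivAt) i
  unfold dx d1
  rw [h1.fderiv]
  rfl

theorem d2_apply (h : AnalyticAt ℂ φ p) (i : Fin (N + 1)) : d2 φ p i = dy (fun v => φ v i) p := by
  have h1 := (hasFDerivAt_pi'.1 h.differentiableAt.hasFDerivAt) i
  unfold dy d2
  rw [h1.fderiv]
  rfl

theorem d1_smul_comp {σ : ℂ × ℂ → Fin (N + 1) → ℂ} {c : ℂ × ℂ → ℂ} {κ : ℂ × ℂ → ℂ × ℂ}
    (hc : AnalyticAt ℂ c p) (hκ : AnalyticAt ℂ κ p) (hσ : AnalyticAt ℂ σ (κ p))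
    (h : ∀ᶠ u in 𝓝 p, φ u = c u • σ (κ u)) :
    ∀ᶠ u in 𝓝 p, d1 φ u = dx c u • σ (κ u) +
      c u • (dx (fun v => (κ v).1) u • d1 σ (κ u) + dx (fun v => (κ v).2) u • d2 σ (κ u)) := by
  have hφ : AnalyticAt ℂ φ p := by
    have h1 : AnalyticAt ℂ (fun u => c u • σ (κ u)) p := hc.smul (AnalyticAt.fun_comp hσ hκ)
    exact h1.congr (h.mono fun u hu => hu.symm)
  have hκc : ∀ᶠ u in 𝓝 p, AnalyticAt ℂ σ (κ u) :=
    hκ.continuousAt.eventually hσ.eventually_analyticAt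
  have hall : ∀ i : Fin (N + 1), ∀ᶠ u in 𝓝 p, d1 φ u i = (dx c u • σ (κ u) +
      c u • (dx (fun v => (κ v).1) u • d1 σ (κ u) + dx (fun v => (κ v).2) u • d2 σ (κ u))) i := by
    intro i
    have hσi : AnalyticAt ℂ (fun v => σ v i) (κ p) := analyticAt_pi_iff.1 hσ i
    have hσκ : AnalyticAt ℂ (fun u => σ (κ u) i) p :=
      AnalyticAt.fun_comp (f := κ) (g := fun v => σ v i) hσi hκ
    have e1 : ∀ᶠ u in 𝓝 p, φ u i = c u * σ (κ u) i := h.mono fun u hu => by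
      rw [hu, Pi.smul_apply, smul_eq_mul]
    have e2 := dx_congr e1
    have e3 := dx_mul hc hσκ
    have e4 := dx_comp (f := fun v => σ v i) hκ hσi
    filter_upwards [e2, e3, e4, hκc, hφ.eventually_analyticAt] with u u2 u3 u4 u5 u6
    rw [d1_apply u6, u2, u3, u4, Pi.add_apply, Pi.smul_apply, Pi.smul_apply, Pi.add_apply,
      Pi.smul_apply, Pi.smul_apply, d1_apply u5, d2_apply u5]
    simp only [smul_eq_mul]
    ring
  filter_upwards [eventually_all.2 hall] with u hu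
  funext i
  exact hu i

theorem d2_smul_comp {σ : ℂ × ℂ → Fin (N + 1) → ℂ} {c : ℂ × ℂ → ℂ} {κ : ℂ × ℂ → ℂ × ℂ}
    (hc : AnalyticAt ℂ c p) (hκ : AnalyticAt ℂ κ p) (hσ : AnalyticAt ℂ σ (κ p))
    (h : ∀ᶠ u in 𝓝 p, φ u = c u • σ (κ u)) :
    ∀ᶠ u in 𝓝 p, d2 φ u = dy c u • σ (κ u) +
      c u • (dy (fun v => (κ v).1) u • d1 σ (κ u) + dy (fun v => (κ v).2) u • d2 σ (κ u)) := by
  have hφ : AnalyticAt ℂ φ p := by
    have h1 : AnalyticAt ℂ (fun u => c u • σ (κ u)) p := hc.smul (AnalyticAt.fun_comp hσ hκ)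
    exact h1.congr (h.mono fun u hu => hu.symm)
  have hκc : ∀ᶠ u in 𝓝 p, AnalyticAt ℂ σ (κ u) :=
    hκ.continuousAt.eventually hσ.eventually_analyticAt
  have hall : ∀ i : Fin (N + 1), ∀ᶠ u in 𝓝 p, d2 φ u i = (dy c u • σ (κ u) +
      c u • (dy (fun v => (κ v).1) u • d1 σ (κ u) + dy (fun v => (κ v).2) u • d2 σ (κ u))) i := by
    intro i
    have hσi : AnalyticAt ℂ (fun v => σ v i) (κ p) := analyticAt_pi_iff.1 hσ i
    have hσκ : AnalyticAt ℂ (fun u => σ (κ u) i) p :=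
      AnalyticAt.fun_comp (f := κ) (g := fun v => σ v i) hσi hκ
    have e1 : ∀ᶠ u in 𝓝 p, φ u i = c u * σ (κ u) i := h.mono fun u hu => by
      rw [hu, Pi.smul_apply, smul_eq_mul]
    have e2 := dy_congr e1
    have e3 := dy_mul hc hσκ
    have e4 := dy_comp (f := fun v => σ v i) hκ hσi
    filter_upwards [e2, e3, e4, hκc, hφ.eventually_analyticAt] with u u2 u3 u4 u5 u6
    rw [d2_apply u6, u2, u3, u4, Pi.add_apply, Pi.smul_apply, Pi.smul_apply, Pi.add_apply,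
      Pi.smul_apply, Pi.smul_apply, d1_apply u5, d2_apply u5]
    simp only [smul_eq_mul]
    ring
  filter_upwards [eventually_all.2 hall] with u hu
  funext i
  exact hu i

theorem D3_comp (s : Fin 3 → Fin (N + 1)) {σ : ℂ × ℂ → Fin (N + 1) → ℂ} {c : ℂ × ℂ → ℂ}
    {κ : ℂ × ℂ → ℂ × ℂ} (hc : AnalyticAt ℂ c p) (hκ : AnalyticAt ℂ κ p) (hσ : AnalyticAt ℂ σ (κ p))
    (h : ∀ᶠ u in 𝓝 p, φ u = c u • σ (κ u)) :
    ∀ᶠ u in 𝓝 p, D3 s (φ u) (d1 φ u) (d2 φ u) =
      c u ^ 3 * jac κ u * D3 s (σ (κ u)) (d1 σ (κ u)) (d2 σ (κ u)) := by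
  filter_upwards [h, d1_smul_comp hc hκ hσ h, d2_smul_comp hc hκ hσ h] with u h0 h1 h2
  rw [h1, h2, h0]
  simp only [D3, jac, Pi.add_apply, Pi.smul_apply, smul_eq_mul]
  ring

theorem tan_d1 {X : Set (Fin (N + 1) → ℂ)} (h : AnalyticAt ℂ φ p) (hX : ∀ᶠ u in 𝓝 p, φ u ∈ X) :
    d1 φ p ∈ Tan X (φ p) := by
  have hl : HasDerivAt (fun z : ℂ => p + z • ((1, 0) : ℂ × ℂ)) ((1, 0)) 0 := by
    have h1 := ((hasDerivAt_id (0 : ℂ)).smul_const ((1, 0) : ℂ × ℂ)).const_add p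
    rw [one_smul] at h1
    exact h1
  have h0 : p + (0 : ℂ) • ((1, 0) : ℂ × ℂ) = p := by rw [zero_smul, add_zero]
  have hla : AnalyticAt ℂ (fun z : ℂ => p + z • ((1, 0) : ℂ × ℂ)) 0 :=
    analyticAt_const.add (analyticAt_id.smul analyticAt_const)
  refine ⟨fun z => φ (p + z • ((1, 0) : ℂ × ℂ)), ?_, ?_, ?_, ?_⟩
  · refine AnalyticAt.fun_comp (g := φ) ?_ hla
    rw [h0]
    exact h
  · have h2 := hla.continuousAt
    have h3 : Tendsto (fun z : ℂ => p + z • ((1, 0) : ℂ × ℂ)) (𝓝 0) (𝓝 p) := by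
      have h4 := h2.tendsto
      rwa [h0] at h4
    exact h3.eventually hX
  · dsimp only
    rw [h0]
  · have hφ : HasFDerivAt φ (fderiv ℂ φ p) (p + (0 : ℂ) • ((1, 0) : ℂ × ℂ)) := by
      rw [h0]
      exact h.differentiableAt.hasFDerivAt
    exact (hφ.comp_hasDerivAt 0 hl).deriv

theorem tan_d2 {X : Set (Fin (N + 1) → ℂ)} (h : AnalyticAt ℂ φ p) (hX : ∀ᶠ u in 𝓝 p, φ u ∈ X) :
    d2 φ p ∈ Tan X (φ p) := by
  have hl : HasDerivAt (fun z : ℂ => p + z • ((0, 1) : ℂ × ℂ)) ((0, 1)) 0 := by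
    have h1 := ((hasDerivAt_id (0 : ℂ)).smul_const ((0, 1) : ℂ × ℂ)).const_add p
    rw [one_smul] at h1
    exact h1
  have h0 : p + (0 : ℂ) • ((0, 1) : ℂ × ℂ) = p := by rw [zero_smul, add_zero]
  have hla : AnalyticAt ℂ (fun z : ℂ => p + z • ((0, 1) : ℂ × ℂ)) 0 :=
    analyticAt_const.add (analyticAt_id.smul analyticAt_const)
  refine ⟨fun z => φ (p + z • ((0, 1) : ℂ × ℂ)), ?_, ?_, ?_, ?_⟩
  · refine AnalyticAt.fun_comp (g := φ) ?_ hla
    rw [h0]
    exact h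
  · have h2 := hla.continuousAt
    have h3 : Tendsto (fun z : ℂ => p + z • ((0, 1) : ℂ × ℂ)) (𝓝 0) (𝓝 p) := by
      have h4 := h2.tendsto
      rwa [h0] at h4
    exact h3.eventually hX
  · dsimp only
    rw [h0]
  · have hφ : HasFDerivAt φ (fderiv ℂ φ p) (p + (0 : ℂ) • ((0, 1) : ℂ × ℂ)) := by
      rw [h0]
      exact h.differentiableAt.hasFDerivAt
    exact (hφ.comp_hasDerivAt 0 hl).deriv

end

section

variable {P : Ideal (MvPolynomial (Fin (N + 1)) ℂ)} {x : Fin (N + 1) → ℂ} {t : Fin 3 → Fin (N + 1)}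
  {σ : ℂ × ℂ → Fin (N + 1) → ℂ}

private theorem Ch_eval_smul {Q : MvPolynomial (Fin (N + 1)) ℂ} {n : ℕ} (hQ : Q.IsHomogeneous n) (c : ℂ)
    (x : Fin (N + 1) → ℂ) : eval (c • x) Q = c ^ n * eval x Q := by
  rw [eval_eq, eval_eq, Finset.mul_sum]
  refine Finset.sum_congr rfl fun d hd => ?_
  have h1 : ∑ i ∈ d.support, d i = n := by
    have h2 := hQ (mem_support_iff.1 hd)
    rw [← h2, Finsupp.weight_apply, Finsupp.sum]
    refine Finset.sum_congr rfl fun i _ => ?_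
    simp
  have h3 : ∏ i ∈ d.support, (c • x) i ^ d i = c ^ n * ∏ i ∈ d.support, x i ^ d i := by
    rw [← h1, ← Finset.prod_pow_eq_pow_sum, ← Finset.prod_mul_distrib]
    refine Finset.prod_congr rfl fun i _ => ?_
    rw [Pi.smul_apply, smul_eq_mul, mul_pow]
  rw [h3]
  ring

theorem cone_smul (hP : ∀ p ∈ P, ∀ n, homogeneousComponent n p ∈ P) (hx : x ∈ cone P) {c : ℂ}
    (hc : c ≠ 0) : c • x ∈ cone P := by
  obtain ⟨h1, h2⟩ := hx
  refine ⟨smul_ne_zero hc h1, fun Q hQ => ?_⟩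
  rw [← sum_homogeneousComponent Q, map_sum]
  refine Finset.sum_eq_zero fun i _ => ?_
  rw [Ch_eval_smul (homogeneousComponent_isHomogeneous i Q), h2 _ (hP Q hQ i), mul_zero]

theorem CChart.mem_cone (h : CChart P x t σ) : ∀ᶠ u in 𝓝 (0 : ℂ × ℂ), σ u ∈ cone P := by
  filter_upwards [h.mem, h.c0] with u h1 h2
  refine ⟨fun h3 => h.ne ?_, h1⟩
  rw [← h2, h3]
  rfl

theorem CChart.D3_eq (h : CChart P x t σ) :
    ∀ᶠ u in 𝓝 (0 : ℂ × ℂ), D3 t (σ u) (d1 σ u) (d2 σ u) = x (t 0) ^ 3 := by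
  filter_upwards [h.an.eventually_analyticAt, eventually_eventually_nhds.2 h.c0,
    eventually_eventually_nhds.2 h.c1, eventually_eventually_nhds.2 h.c2] with u hu h0 h1 h2
  have a0 : HasFDerivAt (fun v => σ v (t 0)) (0 : ℂ × ℂ →L[ℂ] ℂ) u :=
    (hasFDerivAt_const (x (t 0)) u).congr_of_eventuallyEq h0
  have a1 : HasFDerivAt (fun v => σ v (t 1)) (x (t 0) • ContinuousLinearMap.fst ℂ ℂ ℂ) u := by
    have h3 : HasFDerivAt (fun v : ℂ × ℂ => x (t 1) + x (t 0) * v.1)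
        (x (t 0) • ContinuousLinearMap.fst ℂ ℂ ℂ) u :=
      (hasFDerivAt_fst.const_mul (x (t 0))).const_add (x (t 1))
    exact h3.congr_of_eventuallyEq h1
  have a2 : HasFDerivAt (fun v => σ v (t 2)) (x (t 0) • ContinuousLinearMap.snd ℂ ℂ ℂ) u := by
    have h3 : HasFDerivAt (fun v : ℂ × ℂ => x (t 2) + x (t 0) * v.2)
        (x (t 0) • ContinuousLinearMap.snd ℂ ℂ ℂ) u :=
      (hasFDerivAt_snd.const_mul (x (t 0))).const_add (x (t 2))
    exact h3.congr_of_eventuallyEq h2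
  unfold D3
  rw [d1_apply hu, d1_apply hu, d1_apply hu, d2_apply hu, d2_apply hu, d2_apply hu]
  unfold dx dy
  rw [a0.fderiv, a1.fderiv, a2.fderiv, h0.self_of_nhds]
  simp only [ContinuousLinearMap.zero_apply, ContinuousLinearMap.smul_apply, ContinuousLinearMap.coe_fst',
    ContinuousLinearMap.coe_snd', smul_eq_mul]
  ring

private theorem Ch_proj {E : Type} [NormedAddCommGroup E] [NormedSpace ℂ E] {φ : E → Fin (N + 1) → ℂ} {p : E}
    (h : AnalyticAt ℂ φ p) (i : Fin (N + 1)) : AnalyticAt ℂ (fun u => φ u i) p :=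
  analyticAt_pi_iff.1 h i

private theorem Ch_param (h : CChart P x t σ) {E : Type} [NormedAddCommGroup E] [NormedSpace ℂ E]
    {φ : E → Fin (N + 1) → ℂ} {p : E}
    (hφ : AnalyticAt ℂ φ p) (hφx : φ p = x) (hφP : ∀ᶠ u in 𝓝 p, ∀ Q ∈ P, eval (φ u) Q = 0) :
    ∃ (κ : E → ℂ × ℂ) (c : E → ℂ), AnalyticAt ℂ κ p ∧ AnalyticAt ℂ c p ∧ κ p = 0 ∧ c p = 1 ∧
      ∀ᶠ u in 𝓝 p, φ u = c u • σ (κ u) := by
  have hne : φ p (t 0) ≠ 0 := by
    rw [hφx]
    exact h.ne
  refine ⟨fun u => (φ u (t 1) / φ u (t 0) - x (t 1) / x (t 0), φ u (t 2) / φ u (t 0) - x (t 2) / x (t 0)),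
    fun u => φ u (t 0) / x (t 0), ?_, ?_, ?_, ?_, ?_⟩
  · exact (((Ch_proj hφ _).div (Ch_proj hφ _) hne).sub analyticAt_const).prod
      (((Ch_proj hφ _).div (Ch_proj hφ _) hne).sub analyticAt_const)
  · exact (Ch_proj hφ _).div analyticAt_const h.ne
  · simp only [hφx, sub_self]
    rfl
  · simp only [hφx]
    exact div_self h.ne
  · have h1 : Tendsto φ (𝓝 p) (𝓝 x) := by
      have := hφ.continuousAt.tendsto
      rwa [hφx] at this
    filter_upwards [h1.eventually h.surj, hφP] with u h2 h3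
    exact h2 h3

theorem CChart.param (h : CChart P x t σ) {φ : ℂ × ℂ → Fin (N + 1) → ℂ} {p : ℂ × ℂ}
    (hφ : AnalyticAt ℂ φ p) (hφx : φ p = x) (hφP : ∀ᶠ u in 𝓝 p, ∀ Q ∈ P, eval (φ u) Q = 0) :
    ∃ (κ : ℂ × ℂ → ℂ × ℂ) (c : ℂ × ℂ → ℂ), AnalyticAt ℂ κ p ∧ AnalyticAt ℂ c p ∧ κ p = 0 ∧ c p = 1 ∧
      ∀ᶠ u in 𝓝 p, φ u = c u • σ (κ u) := by
  exact Ch_param h hφ hφx hφP

theorem CChart.tan (h : CChart P x t σ) {v : Fin (N + 1) → ℂ} (hv : v ∈ Tan (cone P) x) :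
    ∃ a b c : ℂ, v = a • d1 σ 0 + b • d2 σ 0 + c • x := by
  obtain ⟨γ, hγ, hγP, hγ0, hγv⟩ := hv
  obtain ⟨κ, c, hκ, hc, hκ0, hc0, he⟩ := Ch_param h hγ hγ0 (hγP.mono fun z hz => hz.2)
  have h1 : HasDerivAt γ v 0 := by
    rw [← hγv]
    exact hγ.differentiableAt.hasDerivAt
  have h2 : HasDerivAt κ (deriv κ 0) 0 := hκ.differentiableAt.hasDerivAt
  have h3 : HasDerivAt c (deriv c 0) 0 := hc.differentiableAt.hasDerivAt
  have h4 : HasFDerivAt σ (fderiv ℂ σ 0) (κ 0) := by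
    rw [hκ0]
    exact h.an.differentiableAt.hasFDerivAt
  have h5 : HasDerivAt (fun z => σ (κ z)) (fderiv ℂ σ 0 (deriv κ 0)) 0 := h4.comp_hasDerivAt 0 h2
  have h6 : HasDerivAt (fun z => c z • σ (κ z)) (c 0 • fderiv ℂ σ 0 (deriv κ 0) + deriv c 0 • σ (κ 0)) 0 :=
    h3.smul h5
  have h7 := h1.unique (h6.congr_of_eventuallyEq he)
  rw [hc0, one_smul, hκ0, h.zero] at h7
  refine ⟨(deriv κ 0).1, (deriv κ 0).2, deriv c 0, ?_⟩
  have h8 : deriv κ 0 = (deriv κ 0).1 • ((1 : ℂ), (0 : ℂ)) + (deriv κ 0).2 • ((0 : ℂ), (1 : ℂ)) := by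
    ext <;> simp
  rw [h7]
  congr 1
  conv_lhs => rw [h8]
  rw [map_add, map_smul, map_smul]
  rfl

theorem CChart.nd_near (h : CChart P x t σ) :
    ∀ᶠ p in 𝓝 (0 : ℂ × ℂ), ∀ (d : ℕ) (Q : MvPolynomial (Fin (N + 1)) ℂ), Q.IsHomogeneous d → Q ∉ P →
      ¬ ∀ᶠ u in 𝓝 p, eval (σ u) Q = 0 := by
  obtain ⟨r, hr, hB⟩ := Metric.eventually_nhds_iff_ball.1 h.an.eventually_analyticAt
  filter_upwards [Metric.ball_mem_nhds (0 : ℂ × ℂ) hr] with p hp d Q hQ hQP hcon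
  have h1 : AnalyticOnNhd ℂ (fun u => eval (σ u) Q) (Metric.ball (0 : ℂ × ℂ) r) :=
    fun u hu => analyticAt_eval (hB u hu) Q
  have h2 := h1.eqOn_zero_of_preconnected_of_eventuallyEq_zero
    (convex_ball (0 : ℂ × ℂ) r).isPreconnected hp hcon
  refine h.nd d Q hQ hQP ?_
  filter_upwards [Metric.ball_mem_nhds (0 : ℂ × ℂ) hr] with u hu
  exact h2 hu

end

end Pool.Agent.H68.KR

end
end

section

/-!
# MQ3 SecMul: the distinct roots of a family of monic polynomials over a convex set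

`Ω` open and convex, the coefficients analytic on `Ω`, exactly `e` distinct roots at every point: the `e` roots are analytic functions on `Ω`,
everywhere distinct, with constant multiplicities.
-/

set_option autoImplicit false
set_option linter.unusedSectionVars false

open Topology Filter Metric

noncomputable section

namespace Pool.Agent.MQ.AJ

variable {d e : ℕ}

section

variable {E : Type*} [NormedAddCommGroup E] [NormedSpace ℂ E] {Ω : Set E}

/-- a continuous selection of roots is a permutation -/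
theorem exists_perm {E : Type*} [TopologicalSpace E] {Ω : Set E} (hΩ : IsPreconnected Ω) {F G : E → Fin e → ℂ} (hF : ContinuousOn F Ω)
    (hG : ContinuousOn G Ω) (hFi : ∀ ω ∈ Ω, Function.Injective (F ω)) (hGi : ∀ ω ∈ Ω, Function.Injective (G ω))
    (h : ∀ ω ∈ Ω, ∀ j, ∃ k, G ω j = F ω k) : ∃ σ : Equiv.Perm (Fin e), ∀ ω ∈ Ω, ∀ j, G ω j = F ω (σ j) := by
  classical
  rcases Set.eq_empty_or_nonempty Ω with he | ⟨ω₀, hω₀⟩
  · refine ⟨1, fun ω hω => ?_⟩
    rw [he] at hω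
    exact absurd hω (Set.notMem_empty ω)
  have hex : ∀ j, ∃ k, ∀ ω ∈ Ω, G ω j = F ω k := by
    intro j
    have h1 : ∀ ω : E, ∃ k, ω ∈ Ω → G ω j = F ω k := by
      intro ω
      by_cases hω : ω ∈ Ω
      · obtain ⟨k, hk⟩ := h ω hω j
        exact ⟨k, fun _ => hk⟩
      · exact ⟨j, fun h => absurd h hω⟩
    choose f hf using h1
    have hc : ContinuousOn f Ω := by
      intro ω hω
      have h1 : ∀ᶠ ω' in 𝓝[Ω] ω, f ω' = f ω := by
        have h2 : ∀ k, k ≠ f ω → ∀ᶠ ω' in 𝓝[Ω] ω, G ω' j ≠ F ω' k := by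
          intro k hk
          have h3 : ContinuousWithinAt (fun ω' => G ω' j - F ω' k) Ω ω :=
            ((continuous_apply j).continuousAt.comp_continuousWithinAt (hG ω hω)).sub
              ((continuous_apply k).continuousAt.comp_continuousWithinAt (hF ω hω))
          have h4 : G ω j - F ω k ≠ 0 := by
            intro h5
            apply hk
            apply hFi ω hω
            rw [← sub_eq_zero.1 h5, hf ω hω]
          filter_upwards [h3.eventually_ne h4] with ω' h5 h6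
          exact h5 (by rw [h6, sub_self])
        have h3 : ∀ᶠ ω' in 𝓝[Ω] ω, ∀ k, k ≠ f ω → G ω' j ≠ F ω' k := by
          rw [Filter.eventually_all]
          intro k
          by_cases hk : k = f ω
          · exact Eventually.of_forall fun ω' h => absurd hk h
          · filter_upwards [h2 k hk] with ω' h _
            exact h
        filter_upwards [h3, self_mem_nhdsWithin] with ω' h4 h5
        by_contra h6
        exact h4 _ h6 (hf ω' h5)
      exact (continuousWithinAt_const (b := f ω)).congr_of_eventuallyEq h1 rfl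
    refine ⟨f ω₀, fun ω hω => ?_⟩
    rw [← hΩ.constant hc hω hω₀]
    exact hf ω hω
  choose s hs using hex
  have hsi : Function.Injective s := by
    intro a b hab
    apply hGi ω₀ hω₀
    rw [hs a ω₀ hω₀, hs b ω₀ hω₀, hab]
  exact ⟨Equiv.ofBijective s (Finite.injective_iff_bijective.1 hsi), fun ω hω j => hs j ω hω⟩

/-- **The distinct roots over a convex set, with multiplicities.** -/
theorem exists_sections_mul (hΩ : IsOpen Ω) (hc : Convex ℝ Ω) {p : Fin d → E → ℂ} (hp : ∀ i, ∀ ω ∈ Ω, AnalyticAt ℂ (p i) ω)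
    (hs : ∀ ω ∈ Ω, ∀ l : Fin d → ℂ, (∀ t, pv d (fun i => p i ω) t = ∏ j, (t - l j)) → (Finset.univ.image l).card = e) :
    ∃ (T : E → Fin e → ℂ) (μ : Fin e → ℕ), (∀ k, 1 ≤ μ k) ∧ (∀ ω ∈ Ω, AnalyticAt ℂ T ω) ∧ (∀ ω ∈ Ω, Function.Injective (T ω)) ∧
      ∀ ω ∈ Ω, ∀ t, pv d (fun i => p i ω) t = ∏ k, (t - T ω k) ^ μ k := by
  classical
  rcases Set.eq_empty_or_nonempty Ω with he | ⟨ω₀, hω₀⟩
  · refine ⟨0, fun _ => 1, fun _ => le_rfl, fun ω hω => ?_, fun ω hω => ?_, fun ω hω => ?_⟩ <;>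
    · rw [he] at hω
      exact absurd hω (Set.notMem_empty ω)
  -- roots
  choose l hl using fun x : E => exists_roots fun i => p i x
  have hm' : ∀ x : E, ∃ m : Fin e → ℂ, x ∈ Ω →
      Function.Injective m ∧ (∀ j, ∃ k, l x j = m k) ∧ ∀ k, ∃ j, m k = l x j := by
    intro x
    by_cases h : x ∈ Ω
    · obtain ⟨m, h1⟩ := exists_distinct (hs x h (l x) (hl x))
      exact ⟨m, fun _ => h1⟩
    · exact ⟨0, fun h' => absurd h' h⟩
  choose m hm using hm'
  -- power sums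
  choose S hSa hS using fun k => exists_psum (d := d) k
  have hSx : ∀ k {x : E}, x ∈ Ω → AnalyticAt ℂ (fun y => ∑ j, l y j ^ k) x := by
    intro k x hx
    have h1 : (fun y => ∑ j, l y j ^ k) = fun y => S k (fun i => p i y) := by
      funext y
      exact hS k _ _ (hl y)
    rw [h1]
    exact (hSa k _).fun_comp (analyticAt_pi_iff.2 fun i => hp i x hx)
  -- the coefficients of the reduced polynomial
  have hqa : ∀ i : Fin e, ∀ y ∈ Ω, AnalyticAt ℂ (fun y => (mp (m y)).coeff i) y := by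
    intro i y hy
    obtain ⟨h3, h4, h5⟩ := hm y hy
    refine solve_analytic (A := fun y => Matrix.of fun i j : Fin e => ∑ k, l y k ^ ((i : ℕ) + j)) (b := fun y i => -∑ k, l y k ^ ((i : ℕ) + e))
      (c := fun y i => (mp (m y)).coeff i) ?_ ?_ (hankel_det h3 h4 h5) ?_ i
    · intro a b
      exact hSx _ hy
    · intro a
      exact (hSx _ hy).fun_neg
    · filter_upwards [hΩ.mem_nhds hy] with y' h6
      obtain ⟨h8, h9, -⟩ := hm y' h6
      exact hankel_solve h8 h9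
  have hq : ∀ y, ∀ t, pv e (fun i : Fin e => (mp (m y)).coeff i) t = ∏ j, (t - m y j) := fun y t => pv_coeff _ _
  have hsimp : Simp Ω (fun (i : Fin e) y => (mp (m y)).coeff i) := by
    intro y hy l' hl'
    exact inj_of_prod (hm y hy).1 fun t => by rw [← hl', hq]
  obtain ⟨T, hTa, hTr⟩ := exists_sections hΩ hc hqa hsimp
  have hTp : ∀ y ∈ Ω, ∀ t, ∏ j, (t - T y j) = ∏ j, (t - m y j) := by
    intro y hy t
    rw [← hq y t]
    exact (pv_of_rm (hTr y hy) t).symm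
  have hTi : ∀ y ∈ Ω, Function.Injective (T y) := fun y hy => inj_of_prod (hm y hy).1 (hTp y hy)
  have hT1 : ∀ y ∈ Ω, (∀ j, ∃ k, l y j = T y k) ∧ ∀ k, ∃ j, T y k = l y j := by
    intro y hy
    obtain ⟨h7, h8, h9⟩ := hm y hy
    have h10 := hTp y hy
    refine ⟨fun j => ?_, fun k => ?_⟩
    · obtain ⟨k, hk⟩ := h8 j
      have h11 := h10 (m y k)
      rw [Finset.prod_eq_zero (f := fun j => m y k - m y j) (Finset.mem_univ k) (sub_self _)] at h11
      obtain ⟨k', -, hk'⟩ := Finset.prod_eq_zero_iff.1 h11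
      exact ⟨k', by rw [hk]; exact sub_eq_zero.1 hk'⟩
    · have h11 := h10 (T y k)
      rw [Finset.prod_eq_zero (f := fun j => T y k - T y j) (Finset.mem_univ k) (sub_self _)] at h11
      obtain ⟨k', -, hk'⟩ := Finset.prod_eq_zero_iff.1 h11.symm
      obtain ⟨j, hj⟩ := h9 k'
      exact ⟨j, by rw [← hj]; exact sub_eq_zero.1 hk'⟩
  -- multiplicities are continuous
  have hmc : ∀ k, ∀ s ∈ Ω, ContinuousAt (fun s => (mu (l s) (T s) k : ℂ)) s := by
    intro k s hsU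
    refine (solve_analytic (A := fun s : E => (Matrix.vandermonde (T s)).transpose) (b := fun s i => ∑ j, l s j ^ (i : ℕ))
      (c := fun s k => (mu (l s) (T s) k : ℂ)) ?_ ?_ ?_ ?_ k).continuousAt
    · intro i j
      simp only [Matrix.transpose_apply, Matrix.vandermonde_apply]
      exact ((analyticAt_pi_iff.1 (hTa s hsU)) j).fun_pow _
    · intro i
      exact hSx i hsU
    · rw [Matrix.det_transpose]
      exact Matrix.det_vandermonde_ne_zero_iff.2 (hTi s hsU)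
    · filter_upwards [hΩ.mem_nhds hsU] with s' hs'
      funext i
      have h3 := sum_mu (hTi s' hs') (hT1 s' hs').1 (fun t => t ^ (i : ℕ))
      rw [h3, Matrix.mulVec, dotProduct]
      refine Finset.sum_congr rfl fun k _ => ?_
      rw [Matrix.transpose_apply, Matrix.vandermonde_apply, mul_comm]
  have hconst : ∀ k, ∀ s ∈ Ω, mu (l s) (T s) k = mu (l ω₀) (T ω₀) k := by
    intro k s hsU
    have hcc : ContinuousOn (fun s => mu (l s) (T s) k) Ω := by
      intro s hsU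
      have h1 : ContinuousAt (fun s => (mu (l s) (T s) k : ℂ)) s := hmc k s hsU
      have h2 : IsClosedEmbedding (fun k : ℕ => (k : ℂ)) := by
        have h3 := Complex.isometry_ofReal.isClosedEmbedding.comp Nat.isClosedEmbedding_coe_real
        exact h3
      exact (h2.isInducing.continuousAt_iff.2 h1).continuousWithinAt
    exact hc.isPreconnected.constant hcc hsU hω₀
  refine ⟨T, fun k => mu (l ω₀) (T ω₀) k, fun k => mu_pos (hT1 ω₀ hω₀).2 k, hTa, hTi, fun ω hω t => ?_⟩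
  rw [hl, prod_mu (hTi ω hω) (hT1 ω hω).1 (fun z => t - z)]
  exact Finset.prod_congr rfl fun k _ => by rw [hconst k ω hω]

end

end Pool.Agent.MQ.AJ

end
end

section

/-!
# MQ3 WBxA: the tangent spaces of a surface in a parametrization which is an immersion at a point
-/

set_option autoImplicit false

open Topology Filter

noncomputable section

namespace Pool.Agent.MQ3

open Pool.Agent.H36.BP (EN)
open Pool.Agent.H14.PP (Tan)
open Pool.Agent.H17BP (Surface)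

variable {N : ℕ} {X : Set (EN N)} {ρ : ℂ × ℂ → EN N} {p : ℂ × ℂ}

/-- The tangent vectors of the cone at `ρ p` are the vectors `Dρ w + a ρ p`, if the differential of `ρ` is injective modulo `ρ p`. -/
theorem span_of_indep (hX : Surface X) (hρ : AnalyticAt ℂ ρ p) (hm : ∀ᶠ q in 𝓝 p, ρ q ∈ X)
    (hi : ∀ (w : ℂ × ℂ) (a : ℂ), fderiv ℂ ρ p w = a • ρ p → w = 0) {v : EN N} (hv : Tan X (ρ p) v) :
    ∃ (w : ℂ × ℂ) (a : ℂ), v = fderiv ℂ ρ p w + a • ρ p := by
  obtain ⟨σ, τ, hσ, h0⟩ := hX.chart (ρ p) hm.self_of_nhds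
  have hs := (Pool.Agent.E1.ResL_span hσ).self_of_nhds
  have hin := (Pool.Agent.E1.ResL_indep hσ).self_of_nhds
  rw [h0] at hs hin
  have huniq : ∀ (u u' : ℂ × ℂ) (a a' : ℂ), fderiv ℂ σ 0 u + a • ρ p = fderiv ℂ σ 0 u' + a' • ρ p → u = u' := by
    intro u u' a a' h
    have h1 : fderiv ℂ σ 0 (u - u') = (a' - a) • ρ p := by
      rw [map_sub, sub_smul, sub_eq_iff_eq_add, sub_add_eq_add_sub, eq_sub_iff_add_eq, h]
      abel
    exact sub_eq_zero.1 (hin _ _ h1)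
  choose B c hB using fun w : ℂ × ℂ => hs _ (Pool.Agent.E1.ResL_tan hρ hm w)
  let L : (ℂ × ℂ) →ₗ[ℂ] (ℂ × ℂ) :=
    { toFun := B
      map_add' := fun w w' => by
        refine huniq _ _ (c (w + w')) (c w + c w') ?_
        rw [← hB, map_add, hB w, hB w', map_add, add_smul]
        abel
      map_smul' := fun a w => by
        refine huniq _ _ (c (a • w)) (a * c w) ?_
        rw [← hB, map_smul, hB w, RingHom.id_apply, map_smul, smul_add, smul_smul] }
  have hLi : Function.Injective L := by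
    rw [injective_iff_map_eq_zero]
    intro w hw
    have h1 : B w = 0 := hw
    have h2 := hB w
    rw [h1, map_zero, zero_add] at h2
    exact hi w _ h2
  obtain ⟨u, a, hu⟩ := hs v hv
  obtain ⟨w, hw⟩ := (LinearMap.injective_iff_surjective.1 hLi) u
  have hw' : B w = u := hw
  refine ⟨w, a - c w, ?_⟩
  rw [hB w, hw', hu, sub_smul]
  abel

end Pool.Agent.MQ3

end
end

section

/-!
# MQ3 WebR: the sheets of a (non-reduced) web over a normal crossing point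

`∑ A i (x, y) t ^ i` (`i ≤ m`), bounded analytic coefficients off the axes of the unit bidisc, leading coefficient without zeros and exactly `e`
distinct roots off the axes: over the product of two half planes the roots are the sheets of a web box, with constant multiplicities.
-/

set_option autoImplicit false

open Topology Filter Polynomial

noncomputable section

namespace Pool.Agent.MQ3

open Pool.Agent.MQ.AJ

variable {m e : ℕ} {A : ℕ → ℂ × ℂ → ℂ}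

/-- the polynomial of the null directions -/
def Pe (m : ℕ) (A : ℕ → ℂ × ℂ → ℂ) (p : ℂ × ℂ) (t : ℂ) : ℂ := ∑ i ∈ Finset.range (m + 1), A i p * t ^ i

theorem Pe_eq {p : ℂ × ℂ} (h : A m p ≠ 0) (t : ℂ) : Pe m A p t = A m p * pv m (fun i : Fin m => A i p / A m p) t := by
  rw [Pe, Finset.sum_range_succ, Finset.sum_range, pv, mul_add, Finset.mul_sum, add_comm]
  congr 1
  refine Finset.sum_congr rfl fun i _ => ?_
  rw [← mul_assoc, mul_div_cancel₀ _ h]

/-- a bound for the roots of a monic polynomial -/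
theorem root_bound {c : ℕ → ℂ} {B : ℝ} (hB : ∀ i < m, ‖c i‖ ≤ B) {w : ℂ} (hw : w ^ m + ∑ i ∈ Finset.range m, c i * w ^ i = 0) : ‖w‖ ≤ 1 + m * B := by
  rcases Nat.eq_zero_or_pos m with rfl | hm
  · simp at hw
  have hB0 : 0 ≤ B := (norm_nonneg _).trans (hB 0 hm)
  by_contra hcon
  push Not at hcon
  have h1 : 1 < ‖w‖ := lt_of_le_of_lt (by nlinarith [mul_nonneg (Nat.cast_nonneg (α := ℝ) m) hB0]) hcon
  have h2 : ‖w‖ ^ m ≤ m * B * ‖w‖ ^ (m - 1) := by
    have h3 : w ^ m = -∑ i ∈ Finset.range m, c i * w ^ i := eq_neg_of_add_eq_zero_left hw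
    rw [← norm_pow, h3, norm_neg]
    refine (norm_sum_le _ _).trans ?_
    have h4 : ∀ i ∈ Finset.range m, ‖c i * w ^ i‖ ≤ B * ‖w‖ ^ (m - 1) := by
      intro i hi
      have hi' := Finset.mem_range.1 hi
      rw [norm_mul, norm_pow]
      exact mul_le_mul (hB i hi') (pow_le_pow_right₀ h1.le (by omega)) (by positivity) hB0
    refine (Finset.sum_le_sum h4).trans ?_
    rw [Finset.sum_const, Finset.card_range, nsmul_eq_mul]
    exact le_of_eq (by ring)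
  have h3 : ‖w‖ ^ m = ‖w‖ * ‖w‖ ^ (m - 1) := by
    rw [← pow_succ']
    congr 1
    omega
  rw [h3] at h2
  have h4 : 0 < ‖w‖ ^ (m - 1) := by positivity
  have h5 := le_of_mul_le_mul_right h2 h4
  linarith

/-- the bound of `A_m t` at a root `t` -/
theorem root_bound' {C : ℝ} {p : ℂ × ℂ} (hb : ∀ i ≤ m, ‖A i p‖ ≤ C) {t : ℂ} (ht : Pe m A p t = 0) (hm0 : 0 < m) :
    ‖A m p * t‖ ≤ 1 + m * (1 + C) ^ m := by
  have hC0 : 0 ≤ C := (norm_nonneg _).trans (hb m le_rfl)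
  refine root_bound (m := m) (c := fun i => A i p * A m p ^ (m - 1 - i)) (fun i hi => ?_) ?_
  · rw [norm_mul, norm_pow]
    have h1 : ‖A i p‖ ≤ 1 + C := (hb i hi.le).trans (by linarith)
    have h2 : ‖A m p‖ ^ (m - 1 - i) ≤ (1 + C) ^ (m - 1 - i) := pow_le_pow_left₀ (norm_nonneg _) ((hb m le_rfl).trans (by linarith)) _
    calc ‖A i p‖ * ‖A m p‖ ^ (m - 1 - i) ≤ (1 + C) * (1 + C) ^ (m - 1 - i) := mul_le_mul h1 h2 (by positivity) (by positivity)
      _ = (1 + C) ^ (m - 1 - i + 1) := by rw [pow_succ']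
      _ ≤ (1 + C) ^ m := pow_le_pow_right₀ (by linarith) (by omega)
  · have h1 : A m p ^ (m - 1) * Pe m A p t = (A m p * t) ^ m + ∑ i ∈ Finset.range m, A i p * A m p ^ (m - 1 - i) * (A m p * t) ^ i := by
      rw [Pe, Finset.sum_range_succ, mul_add, Finset.mul_sum, add_comm]
      congr 1
      · rw [mul_pow, ← mul_assoc, ← pow_succ]
        congr 2
        omega
      · refine Finset.sum_congr rfl fun i hi => ?_
        have hi' := Finset.mem_range.1 hi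
        have h2 : A m p ^ (m - 1) = A m p ^ (m - 1 - i) * A m p ^ i := by
          rw [← pow_add]
          congr 1
          omega
        rw [h2, mul_pow]
        ring
    rw [← h1, ht, mul_zero]

theorem pexp_per₁ (v : ℂ × ℂ) : pexp (v + per 1 0) = pexp v := by
  unfold pexp per
  simp only [Prod.fst_add, Prod.snd_add, Int.cast_one, one_mul, Int.cast_zero, zero_mul, add_zero]
  rw [Complex.exp_add, Complex.exp_two_pi_mul_I, mul_one]

theorem pexp_per₂ (v : ℂ × ℂ) : pexp (v + per 0 1) = pexp v := by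
  unfold pexp per
  simp only [Prod.fst_add, Prod.snd_add, Int.cast_one, one_mul, Int.cast_zero, zero_mul, add_zero]
  rw [Complex.exp_add, Complex.exp_two_pi_mul_I, mul_one]

theorem convex_HH : Convex ℝ HH := by
  refine Convex.inter ?_ ?_
  · exact convex_halfSpace_lt ((Complex.reLm.comp (LinearMap.fst ℝ ℂ ℂ)).isLinear) 0
  · exact convex_halfSpace_lt ((Complex.reLm.comp (LinearMap.snd ℝ ℂ ℂ)).isLinear) 0

theorem count_prod {c : Fin e → ℂ} (hc : Function.Injective c) (n : Fin e → ℕ) (k : Fin e) :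
    (∏ j, (X - C (c j)) ^ n j : ℂ[X]).roots.count (c k) = n k := by
  classical
  rw [roots_prod _ _ (Finset.prod_ne_zero_iff.2 fun j _ => pow_ne_zero _ (X_sub_C_ne_zero _)), Multiset.count_bind]
  simp only [roots_pow, roots_X_sub_C, Multiset.count_nsmul, Multiset.count_singleton]
  show (Multiset.map _ (Finset.univ : Finset (Fin e)).val).sum = n k
  rw [← Finset.sum_eq_multiset_sum, Finset.sum_eq_single k]
  · simp
  · intro j _ hj
    rw [if_neg fun h => hj (hc h).symm, mul_zero]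
  · intro h
    exact absurd (Finset.mem_univ k) h

/-- equal products have equal multiplicities -/
theorem mult_eq {c c' : Fin e → ℂ} (hc : Function.Injective c) (hc' : Function.Injective c') {n n' : Fin e → ℕ}
    (h : ∀ t, ∏ j, (t - c j) ^ n j = ∏ j, (t - c' j) ^ n' j) {j k : Fin e} (hjk : c j = c' k) : n j = n' k := by
  have h1 : (∏ j, (X - C (c j)) ^ n j : ℂ[X]) = ∏ j, (X - C (c' j)) ^ n' j := by
    refine Polynomial.funext fun t => ?_
    simp only [eval_prod, eval_pow, eval_sub, eval_X, eval_C]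
    exact h t
  rw [← count_prod hc n j, ← count_prod hc' n' k, h1, hjk]

/-- **The sheets over the product of two half planes.** -/
theorem exists_webBox (hA : ∀ i ≤ m, ∀ p ∈ DS, AnalyticAt ℂ (A i) p) {C : ℝ} (hb : ∀ i ≤ m, ∀ p ∈ DS, ‖A i p‖ ≤ C) (hm : ∀ p ∈ DS, A m p ≠ 0)
    (he : ∀ p ∈ DS, {t | Pe m A p t = 0}.ncard = e) :
    ∃ (T : Fin e → ℂ × ℂ → ℂ) (a b : Equiv.Perm (Fin e)) (μ : Fin e → ℕ), WebBox e T a b ∧ (∀ k, 1 ≤ μ k) ∧ (∀ k, μ (a k) = μ k) ∧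
      (∀ k, μ (b k) = μ k) ∧ (∀ v ∈ HH, ∀ t, Pe m A (pexp v) t = A m (pexp v) * ∏ k, (t - T k v) ^ μ k) ∧
      (∀ v ∈ HH, ∀ t, Pe m A (pexp v) t = 0 ↔ ∃ k, T k v = t) ∧ ∃ C' : ℝ, ∀ k, ∀ v ∈ HH, ‖A m (pexp v) * T k v‖ ≤ C' := by
  classical
  have hpe : ∀ v, AnalyticAt ℂ pexp v := fun v => by
    unfold pexp
    exact (analyticAt_fst.cexp).prod (analyticAt_snd.cexp)
  have hp : ∀ i : Fin m, ∀ v ∈ HH, AnalyticAt ℂ (fun v => A i (pexp v) / A m (pexp v)) v := by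
    intro i v hv
    exact ((hA i i.2.le _ (pexp_mem hv)).fun_comp (hpe v)).fun_div ((hA m le_rfl _ (pexp_mem hv)).fun_comp (hpe v)) (hm _ (pexp_mem hv))
  obtain ⟨T, μ, hμ, hTa, hTi, hT⟩ := exists_sections_mul (e := e) isOpen_HH convex_HH hp (fun v hv l hl => by
    have h1 : {t | Pe m A (pexp v) t = 0} = ((Finset.univ.image l : Finset ℂ) : Set ℂ) := by
      ext t
      rw [Set.mem_ofPred_eq, Pe_eq (hm _ (pexp_mem hv)), hl t, mul_eq_zero, or_iff_right (hm _ (pexp_mem hv)), Finset.prod_eq_zero_iff]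
      simp only [Finset.mem_univ, true_and, Finset.coe_image, Finset.coe_univ, Set.image_univ, Set.mem_range, sub_eq_zero]
      exact ⟨fun ⟨j, h⟩ => ⟨j, h.symm⟩, fun ⟨j, h⟩ => ⟨j, h.symm⟩⟩
    rw [← he _ (pexp_mem hv), h1, Set.ncard_coe_finset])
  have hroot : ∀ v ∈ HH, ∀ t, Pe m A (pexp v) t = A m (pexp v) * ∏ k, (t - T v k) ^ μ k := by
    intro v hv t
    rw [Pe_eq (hm _ (pexp_mem hv)), hT v hv t]
  have hroot' : ∀ v ∈ HH, ∀ t, Pe m A (pexp v) t = 0 ↔ ∃ k, T v k = t := by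
    intro v hv t
    rw [hroot v hv t, mul_eq_zero, or_iff_right (hm _ (pexp_mem hv)), Finset.prod_eq_zero_iff]
    constructor
    · rintro ⟨k, -, hk⟩
      exact ⟨k, (sub_eq_zero.1 (pow_eq_zero_iff (by have := hμ k; omega) |>.1 hk)).symm⟩
    · rintro ⟨k, hk⟩
      exact ⟨k, Finset.mem_univ k, by rw [hk, sub_self, zero_pow (by have := hμ k; omega)]⟩
  have hshift : ∀ c : ℂ × ℂ, (∀ v ∈ HH, v + c ∈ HH) → (∀ v, pexp (v + c) = pexp v) →
      ∃ σ : Equiv.Perm (Fin e), (∀ v ∈ HH, ∀ k, T (v + c) k = T v (σ k)) ∧ ∀ k, μ (σ k) = μ k := by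
    intro c hc1 hc2
    obtain ⟨σ, hσ⟩ := exists_perm (F := T) (G := fun v => T (v + c)) convex_HH.isPreconnected (fun v hv => (hTa v hv).continuousAt.continuousWithinAt)
      (fun v hv => by
        have h1 : ContinuousAt T (v + c) := (hTa _ (hc1 v hv)).continuousAt
        exact (ContinuousAt.comp (f := fun v => v + c) h1 (by fun_prop)).continuousWithinAt) hTi (fun v hv => hTi _ (hc1 v hv)) (fun v hv j => by
        have h1 := (hroot' _ (hc1 v hv) (T (v + c) j)).2 ⟨j, rfl⟩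
        rw [hc2] at h1
        obtain ⟨k, hk⟩ := (hroot' v hv _).1 h1
        exact ⟨k, hk.symm⟩)
    refine ⟨σ, hσ, fun k => ?_⟩
    have h0 := HH_mem
    set v : ℂ × ℂ := ((-1 : ℂ), (-1 : ℂ)) with hv
    refine (mult_eq (c := T v) (c' := fun j => T (v + c) j) (hTi v h0) (hTi _ (hc1 v h0)) (n := μ) (n' := μ) (fun t => ?_) (hσ v h0 k).symm)
    have h1 := hroot v h0 t
    have h2 := hroot _ (hc1 v h0) t
    rw [hc2, h1] at h2
    exact mul_left_cancel₀ (hm _ (pexp_mem h0)) h2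
  obtain ⟨a, ha1, ha2⟩ := hshift (per 1 0) (fun v hv => HH_add_per hv 1 0) pexp_per₁
  obtain ⟨b, hb1, hb2⟩ := hshift (per 0 1) (fun v hv => HH_add_per hv 0 1) pexp_per₂
  refine ⟨fun k v => T v k, a, b, μ, ⟨fun k v hv => analyticAt_pi_iff.1 (hTa v hv) k, fun v hv i j hij => hTi v hv hij, fun k v hv => ha1 v hv k,
    fun k v hv => hb1 v hv k⟩, hμ, ha2, hb2, hroot, hroot', 1 + m * (1 + C) ^ m, fun k v hv => ?_⟩
  refine root_bound' (fun i hi => hb i hi _ (pexp_mem hv)) ((hroot' v hv _).2 ⟨k, rfl⟩) ?_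
  rcases Nat.eq_zero_or_pos m with hm0 | hm0
  · exfalso
    subst hm0
    have h1 := (hroot' v hv (T v k)).2 ⟨k, rfl⟩
    rw [Pe, Finset.sum_range_one, pow_zero, mul_one] at h1
    exact hm _ (pexp_mem hv) h1
  · exact hm0

end Pool.Agent.MQ3

end
end
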