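import Pool.Agent.H43.TL2.M03
import Pool.Agent.H43.TL2.M110
import Pool.Agent.H43.TL2.M19
import Pool.Agent.H43.TL2.M41
import Pool.Agent.H43.TL2.M43

/-! The parts of this file: H14.PP.RhoChart, H14.PP.NearBounds, H14.PP.LimNear, H14.PP.Metric, H36.BPL.GPc. -/

section

/-!
# BPm RhoChart: the equations of `T` in a chart

(i) `p ↦ Q (σ p)` is analytic on the bidisc of radius `2` and vanishes for `p.1 = 0` (there
`σ p ∈ T`). Its derivative is bounded on the closed bidisc of radius `1` (compact, convex), so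
`‖Q (σ (s,t))‖ = ‖Q (σ (s,t)) - Q (σ (0,t))‖ ≤ C ‖s‖`; `‖σ‖` is bounded below. Same for `p.2` if
`nd = true`. (`Pool.Agent.H62.BP.upper_smooth` treats the scalar case.)
(ii) Compactness: on the compact set `{p | ‖p‖ ≤ 1, small nd p ≥ r}` the continuous function
`rho Q D (σ p)` is positive (`σ p ∉ T`, `mem_iff`), hence at least some `δ' > 0`; `δ = δ'/2` (if the
set is empty any `δ` works).
-/

open Topology Filter Metric

namespace Pool.Agent.H14.PP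

open Pool.Agent.H36.BP

variable {N : ℕ} {W : Type*} [NormedAddCommGroup W] [InnerProductSpace ℂ W]
  {X K T : Set (EN N)} {Q : EN N → W} {D : ℕ}

private theorem RhoChart_sub {p : ℂ × ℂ} (hp : p ∈ closedBall (0 : ℂ × ℂ) 1) :
    p ∈ ball (0 : ℂ × ℂ) 2 := by
  rw [mem_closedBall_zero_iff] at hp
  rw [mem_ball_zero_iff]
  linarith

private theorem RhoChart_lip (hQ : IsEq X T Q D) (χ : Chart X) :
    ∃ L : ℝ, 0 ≤ L ∧ ∀ p ∈ closedBall (0 : ℂ × ℂ) 1, ∀ p' ∈ closedBall (0 : ℂ × ℂ) 1,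
      ‖Q (χ.σ p) - Q (χ.σ p')‖ ≤ L * ‖p - p'‖ := by
  have hloc : LocallyLipschitzOn (closedBall (0 : ℂ × ℂ) 1) (fun p => Q (χ.σ p)) := by
    intro p hp
    have h1 : AnalyticAt ℂ (fun p => Q (χ.σ p)) p :=
      AnalyticAt.fun_comp (g := Q) (f := χ.σ) (hQ.analytic _) (χ.σ_an p (RhoChart_sub hp))
    obtain ⟨L, s, hs, hL⟩ := h1.hasStrictFDerivAt.exists_lipschitzOnWith
    exact ⟨L, s, mem_nhdsWithin_of_mem_nhds hs, hL⟩
  obtain ⟨L, hL⟩ := hloc.exists_lipschitzOnWith_of_compact (isCompact_closedBall _ _)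
  exact ⟨L, L.2, fun p hp p' hp' => lipschitzOnWith_iff_norm_sub_le.mp hL hp hp'⟩

private theorem RhoChart_low (hX : IsCone X) (χ : Chart X) :
    ∃ c : ℝ, 0 < c ∧ ∀ p ∈ closedBall (0 : ℂ × ℂ) 1, c ≤ ‖χ.σ p‖ := by
  have hc : ContinuousOn (fun p => ‖χ.σ p‖) (closedBall (0 : ℂ × ℂ) 1) := fun p hp =>
    (χ.σ_an p (RhoChart_sub hp)).continuousAt.norm.continuousWithinAt
  obtain ⟨p₀, hp₀, hmin⟩ := (isCompact_closedBall (0 : ℂ × ℂ) 1).exists_isMinOn
    ⟨0, mem_closedBall_self zero_le_one⟩ hc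
  exact ⟨‖χ.σ p₀‖, norm_pos_iff.mpr (χ.sigma_ne_zero hX (RhoChart_sub hp₀)), fun p hp => hmin hp⟩

theorem rho_chart_le (hX : IsCone X) (hQ : IsEq X T Q D) (χ : Chart X) {nd : Bool}
    (h : HasType T χ nd) :
    ∃ C : ℝ, 1 ≤ C ∧ ∀ p ∈ closedBall (0 : ℂ × ℂ) 1,
      rho Q D (χ.σ p) ≤ C * ‖p.1‖ ∧ (nd = true → rho Q D (χ.σ p) ≤ C * ‖p.2‖) := by
  obtain ⟨L, hL0, hL⟩ := RhoChart_lip hQ χ
  obtain ⟨c, hc, hlow⟩ := RhoChart_low hX χ
  have hcD : 0 < c ^ D := pow_pos hc D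
  have key : ∀ p ∈ closedBall (0 : ℂ × ℂ) 1, ∀ p' ∈ closedBall (0 : ℂ × ℂ) 1, χ.σ p' ∈ T →
      rho Q D (χ.σ p) ≤ max 1 (L / c ^ D) * ‖p - p'‖ := by
    intro p hp p' hp' hT
    have h1 := hL p hp p' hp'
    rw [((hQ.mem_iff _).mp hT).2, sub_zero] at h1
    have h2 : c ^ D ≤ ‖χ.σ p‖ ^ D := pow_le_pow_left₀ hc.le (hlow p hp) D
    calc rho Q D (χ.σ p) = ‖Q (χ.σ p)‖ / ‖χ.σ p‖ ^ D := rfl
      _ ≤ (L * ‖p - p'‖) / c ^ D := div_le_div₀ (by positivity) h1 hcD h2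
      _ = L / c ^ D * ‖p - p'‖ := by ring
      _ ≤ max 1 (L / c ^ D) * ‖p - p'‖ :=
        mul_le_mul_of_nonneg_right (le_max_right _ _) (norm_nonneg _)
  refine ⟨max 1 (L / c ^ D), le_max_left _ _, fun p hp => ⟨?_, fun hnd => ?_⟩⟩
  · have hp' : ((0, p.2) : ℂ × ℂ) ∈ closedBall (0 : ℂ × ℂ) 1 := by
      rw [mem_closedBall_zero_iff, Prod.norm_def] at hp ⊢
      simpa using (le_max_right _ _).trans hp
    have h1 := key p hp (0, p.2) hp' ((h _ (RhoChart_sub hp')).mpr (Or.inl rfl))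
    have h2 : ‖p - (0, p.2)‖ = ‖p.1‖ := by
      rw [Prod.norm_def]
      simp
    rwa [h2] at h1
  · have hp' : ((p.1, 0) : ℂ × ℂ) ∈ closedBall (0 : ℂ × ℂ) 1 := by
      rw [mem_closedBall_zero_iff, Prod.norm_def] at hp ⊢
      simpa using (le_max_left _ _).trans hp
    have h1 := key p hp (p.1, 0) hp' ((h _ (RhoChart_sub hp')).mpr (Or.inr ⟨hnd, rfl⟩))
    have h2 : ‖p - (p.1, 0)‖ = ‖p.2‖ := by
      rw [Prod.norm_def]
      simp
    rwa [h2] at h1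

private theorem RhoChart_cont (nd : Bool) : Continuous (small nd) := by
  unfold small
  cases nd
  · simpa using continuous_fst.norm
  · have h : Continuous fun p : ℂ × ℂ => ‖p.1‖ * ‖p.2‖ := by fun_prop
    simpa using h

theorem small_of_rho (hX : IsCone X) (hQ : IsEq X T Q D) (χ : Chart X) {nd : Bool}
    (h : HasType T χ nd) {r : ℝ} (hr : 0 < r) :
    ∃ δ : ℝ, 0 < δ ∧ ∀ p ∈ closedBall (0 : ℂ × ℂ) 1, rho Q D (χ.σ p) ≤ δ → small nd p ≤ r := by
  obtain ⟨S, hS⟩ : ∃ S : Set (ℂ × ℂ), S = closedBall (0 : ℂ × ℂ) 1 ∩ {p | r ≤ small nd p} :=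
    ⟨_, rfl⟩
  have hSc : IsCompact S := by
    rw [hS]
    exact (isCompact_closedBall _ _).inter_right (isClosed_le continuous_const (RhoChart_cont nd))
  have hpos : ∀ p ∈ S, 0 < rho Q D (χ.σ p) := by
    intro p hp
    rw [hS] at hp
    have hp2 : r ≤ small nd p := hp.2
    have hb := RhoChart_sub hp.1
    have hne := χ.sigma_ne_zero hX hb
    refine lt_of_le_of_ne (rho_nonneg _ _ _) fun h0 => ?_
    have hQ0 : Q (χ.σ p) = 0 := (rho_eq_zero_iff hne).mp h0.symm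
    have hT : χ.σ p ∈ T := (hQ.mem_iff _).mpr ⟨(χ.σ_mem p hb).1, hQ0⟩
    rcases (h p hb).mp hT with h1 | ⟨h1, h2⟩
    · have h3 : small nd p = 0 := by
        unfold small
        rw [h1, norm_zero, zero_mul, ite_self]
      linarith
    · have h3 : small nd p = 0 := by
        unfold small
        rw [if_pos h1, h2, norm_zero, mul_zero]
      linarith
  have hcont : ContinuousOn (fun p => rho Q D (χ.σ p)) S := by
    intro p hp
    rw [hS] at hp
    have hb := RhoChart_sub hp.1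
    have h1 : ContinuousAt (rho Q D) (χ.σ p) := continuousAt_rho hQ.analytic (χ.sigma_ne_zero hX hb)
    exact (ContinuousAt.comp (f := χ.σ) (g := rho Q D) h1
      (χ.σ_an p hb).continuousAt).continuousWithinAt
  have hout : ∀ p ∈ closedBall (0 : ℂ × ℂ) 1, p ∉ S → small nd p ≤ r := by
    intro p hp hpS
    by_contra hcon
    push Not at hcon
    exact hpS (by rw [hS]; exact ⟨hp, hcon.le⟩)
  rcases S.eq_empty_or_nonempty with he | hne
  · exact ⟨1, one_pos, fun p hp _ => hout p hp (by rw [he]; exact Set.notMem_empty p)⟩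
  · obtain ⟨p₀, hp₀, hmin⟩ := hSc.exists_isMinOn hne hcont
    have h0 := hpos p₀ hp₀
    refine ⟨rho Q D (χ.σ p₀) / 2, by linarith, fun p hp hle => hout p hp fun hpS => ?_⟩
    have h1 : rho Q D (χ.σ p₀) ≤ rho Q D (χ.σ p) := hmin hpS
    linarith

end Pool.Agent.H14.PP

end

section

/-!
# BPm NearBounds: upper and lower bounds for the metric near `T`

`b` analytic on the bidisc with `b = gD d^(m-1) * aCoef` on `{σ p ∈ K}` (`PoleBound`). For
`‖p‖ ≤ 1`: `small nd p ≤ ‖gD d p‖ ≤ 1` (`gD d p` is a product of some of the coordinates; if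
`d.2 = true` then `nd = true`; if `nd = false` and `d.1 = true` it is `p.1`, `small = ‖p.1‖`).
* Upper bound (`ACoef_le`): `‖aCoef p‖ = ‖b p‖/‖gD d p‖^(m-1) ≤ A/‖gD d p‖^(m-1)`, so
  `ACoef p ≤ C ‖gD d p‖^(-((m-1)/m))` (`‖σ‖` bounded above on the closed bidisc).
* `near_upper`: hence `ACoef p ≤ C small^(-1)`, `rho^2 ≤ C^2 small` (`rho_chart_le`: if `nd = true`
  `rho ≤ C ‖p.1‖, C ‖p.2‖`; if `nd = false` `rho ≤ C ‖p.1‖` and `‖p.1‖^2 ≤ ‖p.1‖`), and
  `pM ≤ 2 ‖w‖` (`pM_le`). If `small nd p = 0` then `rho = 0` and the left side is `0`.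
* `near_lower`: `b p ≠ 0` if `σ p ∉ T` (then `σ p ∈ K`, `gD ≠ 0` because `σ p ∈ K` means no
  `D`-coordinate vanishes, `aCoef_ne_zero`), that is if `p.1 ≠ 0` and (`nd = true → p.2 ≠ 0`). So
  `‖b p‖ ≥ c small^k` (`Pool.Agent.H62.BP.lower_smooth`, `lower_node`), `‖aCoef p‖ ≥ ‖b p‖`,
  `ACoef p ≥ c' small^k` (`small ≤ 1`, `‖σ‖` bounded below, `1 ≤ m`), and
  `pM nd P p w ≥ small nd p * ‖w‖ * exp (-K-1)` (`le_pM_false`, `le_pM_true`). Finally
  `small ≥ rho^2/C^2`: `M₀ = 2 (k + 1)`.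
-/

open Topology Filter Metric

namespace Pool.Agent.H14.PP

open Pool.Agent.H36.BP

variable {N : ℕ} {W : Type*} [NormedAddCommGroup W] [InnerProductSpace ℂ W]
  {X K T : Set (EN N)} {Q : EN N → W} {D m j : ℕ}

/-- the closed bidisc is contained in the bidisc of radius two -/
private theorem NearBounds_mem {p : ℂ × ℂ} (hp : p ∈ closedBall (0 : ℂ × ℂ) 1) :
    p ∈ ball (0 : ℂ × ℂ) 2 ∧ ‖p‖ ≤ 1 ∧ ‖p.1‖ ≤ 1 ∧ ‖p.2‖ ≤ 1 := by
  have h : ‖p‖ ≤ 1 := by simpa using hp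
  have h1 : ‖p.1‖ ≤ 1 := (norm_fst_le p).trans h
  have h2 : ‖p.2‖ ≤ 1 := (norm_snd_le p).trans h
  refine ⟨?_, h, h1, h2⟩
  rw [mem_ball_zero_iff]
  linarith

private theorem NearBounds_sigma (hX : IsCone X) (χ : Chart X) : ∃ a A : ℝ, 0 < a ∧ 0 < A ∧
    ∀ p ∈ closedBall (0 : ℂ × ℂ) 1, a ≤ ‖χ.σ p‖ ∧ ‖χ.σ p‖ ≤ A := by
  have hc : IsCompact (closedBall (0 : ℂ × ℂ) 1) := isCompact_closedBall _ _
  have hcont : ContinuousOn (fun p => ‖χ.σ p‖) (closedBall (0 : ℂ × ℂ) 1) := by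
    intro p hp
    exact ((χ.σ_an p (NearBounds_mem hp).1).continuousAt.norm).continuousWithinAt
  have hne : (closedBall (0 : ℂ × ℂ) 1).Nonempty := ⟨0, mem_closedBall_self zero_le_one⟩
  obtain ⟨p0, hp0, hmin⟩ := hc.exists_isMinOn hne hcont
  obtain ⟨p1, hp1, hmax⟩ := hc.exists_isMaxOn hne hcont
  have h0 : 0 < ‖χ.σ p0‖ := norm_pos_iff.2 (χ.sigma_ne_zero hX (NearBounds_mem hp0).1)
  have h1 : 0 < ‖χ.σ p1‖ := norm_pos_iff.2 (χ.sigma_ne_zero hX (NearBounds_mem hp1).1)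
  exact ⟨‖χ.σ p0‖, ‖χ.σ p1‖, h0, h1, fun p hp => ⟨hmin hp, hmax hp⟩⟩

private theorem NearBounds_gD (χ : Chart X) {d : Bool × Bool} (hd : DType K χ d) {p : ℂ × ℂ}
    (hp : p ∈ closedBall (0 : ℂ × ℂ) 1) (hpK : χ.σ p ∈ K) : 0 < ‖gD d p‖ ∧ ‖gD d p‖ ≤ 1 := by
  obtain ⟨hp2, -, h1, h2⟩ := NearBounds_mem hp
  have h3 : ¬ ((d.1 = true ∧ p.1 = 0) ∨ (d.2 = true ∧ p.2 = 0)) := fun h => (hd p hp2).2 h hpK
  rw [not_or] at h3
  have e1 : (if d.1 = true then p.1 else 1) ≠ 0 ∧ ‖(if d.1 = true then p.1 else 1)‖ ≤ 1 := by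
    split_ifs with h
    · exact ⟨fun h0 => h3.1 ⟨h, h0⟩, h1⟩
    · exact ⟨one_ne_zero, by rw [norm_one]⟩
  have e2 : (if d.2 = true then p.2 else 1) ≠ 0 ∧ ‖(if d.2 = true then p.2 else 1)‖ ≤ 1 := by
    split_ifs with h
    · exact ⟨fun h0 => h3.2 ⟨h, h0⟩, h2⟩
    · exact ⟨one_ne_zero, by rw [norm_one]⟩
  unfold gD
  refine ⟨norm_pos_iff.2 (mul_ne_zero e1.1 e2.1), ?_⟩
  rw [norm_mul]
  exact mul_le_one₀ e1.2 (norm_nonneg _) e2.2

private theorem NearBounds_small {nd : Bool} {d : Bool × Bool} (hdn : d.2 = true → nd = true)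
    {p : ℂ × ℂ} (hp : p ∈ closedBall (0 : ℂ × ℂ) 1) :
    0 ≤ small nd p ∧ small nd p ≤ ‖gD d p‖ ∧ small nd p ≤ 1 := by
  obtain ⟨-, -, h1, h2⟩ := NearBounds_mem hp
  obtain ⟨d1, d2⟩ := d
  have n1 := norm_nonneg p.1
  have n2 := norm_nonneg p.2
  unfold small gD
  dsimp only at hdn ⊢
  cases nd with
  | true =>
    rw [if_pos rfl, norm_mul]
    refine ⟨mul_nonneg n1 n2, ?_, mul_le_one₀ h1 n2 h2⟩
    refine mul_le_mul ?_ ?_ n2 (norm_nonneg _)
    · split_ifs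
      · exact le_rfl
      · rw [norm_one]; exact h1
    · split_ifs
      · exact le_rfl
      · rw [norm_one]; exact h2
  | false =>
    have hd2 : d2 = false := by
      cases d2 with
      | true => exact absurd (hdn rfl) (by simp)
      | false => rfl
    subst hd2
    simp only [Bool.false_eq_true, if_false, mul_one]
    refine ⟨n1, ?_, h1⟩
    split_ifs
    · exact le_rfl
    · rw [norm_one]; exact h1

theorem ACoef_le (hX : IsCone X) (hm : 1 ≤ m) (Ω : Form K m j) (hΩ : Ω.PoleBound X) (χ : Chart X)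
    {d : Bool × Bool} (hd : DType K χ d) : ∃ C : ℝ, 0 < C ∧
      ∀ p ∈ closedBall (0 : ℂ × ℂ) 1, χ.σ p ∈ K →
        ACoef Ω χ p ≤ C * ‖gD d p‖ ^ (-(((m : ℝ) - 1) / m)) := by
  obtain ⟨a, A, ha, hA, hσ⟩ := NearBounds_sigma hX χ
  obtain ⟨b, hb, hbe⟩ := hΩ χ d hd
  have hbc : ContinuousOn b (closedBall (0 : ℂ × ℂ) 1) := fun p hp =>
    (hb p (NearBounds_mem hp).1).continuousAt.continuousWithinAt
  obtain ⟨B, hB⟩ := (isCompact_closedBall (0 : ℂ × ℂ) 1).exists_bound_of_continuousOn hbc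
  have hB0 : 0 < |B| + 1 := by positivity
  have hm0 : (0 : ℝ) < m := by exact_mod_cast hm
  refine ⟨(|B| + 1) ^ (1 / (m : ℝ)) * A ^ ((j : ℝ) / m), by positivity, fun p hp hpK => ?_⟩
  obtain ⟨hg0, hg1⟩ := NearBounds_gD χ hd hp hpK
  have h1 : ‖b p‖ = ‖gD d p‖ ^ (m - 1) * ‖aCoef Ω χ p‖ := by
    rw [hbe p (NearBounds_mem hp).1 hpK, norm_mul, norm_pow]
  have hgm : 0 < ‖gD d p‖ ^ (m - 1) := by positivity
  have h2 : ‖aCoef Ω χ p‖ ≤ (|B| + 1) / ‖gD d p‖ ^ (m - 1) := by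
    rw [le_div_iff₀ hgm, mul_comm, ← h1]
    exact (hB p hp).trans ((le_abs_self B).trans (by linarith))
  have h3 : ‖aCoef Ω χ p‖ ^ (1 / (m : ℝ)) ≤ (|B| + 1) ^ (1 / (m : ℝ)) * ‖gD d p‖ ^ (-(((m : ℝ) - 1) / m)) := by
    refine (Real.rpow_le_rpow (norm_nonneg _) h2 (by positivity)).trans (le_of_eq ?_)
    rw [Real.div_rpow hB0.le hgm.le, ← Real.rpow_natCast, ← Real.rpow_mul (norm_nonneg _),
      Real.rpow_neg (norm_nonneg _), div_eq_mul_inv]
    congr 3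
    rw [Nat.cast_sub hm, Nat.cast_one]
    ring
  have h4 : ‖χ.σ p‖ ^ ((j : ℝ) / m) ≤ A ^ ((j : ℝ) / m) :=
    Real.rpow_le_rpow (norm_nonneg _) (hσ p hp).2 (by positivity)
  unfold ACoef
  calc ‖aCoef Ω χ p‖ ^ (1 / (m : ℝ)) * ‖χ.σ p‖ ^ ((j : ℝ) / m)
      ≤ ((|B| + 1) ^ (1 / (m : ℝ)) * ‖gD d p‖ ^ (-(((m : ℝ) - 1) / m))) * A ^ ((j : ℝ) / m) :=
        mul_le_mul h3 h4 (by positivity) (by positivity)
    _ = _ := by ring

private theorem NearBounds_rho (hX : IsCone X) (hQ : IsEq X T Q D) (χ : Chart X) {nd : Bool}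
    (h : HasType T χ nd) : ∃ C : ℝ, 0 < C ∧ ∀ p ∈ closedBall (0 : ℂ × ℂ) 1,
      0 ≤ rho Q D (χ.σ p) ∧ rho Q D (χ.σ p) ^ 2 ≤ C * small nd p := by
  obtain ⟨C, hC, hr⟩ := rho_chart_le hX hQ χ h
  refine ⟨C ^ 2, by positivity, fun p hp => ?_⟩
  obtain ⟨-, -, h1, h2⟩ := NearBounds_mem hp
  have h0 : 0 ≤ rho Q D (χ.σ p) := by unfold rho; positivity
  refine ⟨h0, ?_⟩
  obtain ⟨r1, r2⟩ := hr p hp
  have n1 := norm_nonneg p.1
  have n2 := norm_nonneg p.2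
  unfold small
  split_ifs with hnd
  · have r3 := r2 hnd
    calc rho Q D (χ.σ p) ^ 2 = rho Q D (χ.σ p) * rho Q D (χ.σ p) := sq _
      _ ≤ (C * ‖p.1‖) * (C * ‖p.2‖) := mul_le_mul r1 r3 h0 (by positivity)
      _ = C ^ 2 * (‖p.1‖ * ‖p.2‖) := by ring
  · calc rho Q D (χ.σ p) ^ 2 = rho Q D (χ.σ p) * rho Q D (χ.σ p) := sq _
      _ ≤ (C * ‖p.1‖) * (C * ‖p.1‖) := mul_le_mul r1 r1 h0 (by positivity)
      _ = C ^ 2 * (‖p.1‖ * ‖p.1‖) := by ring
      _ ≤ C ^ 2 * (‖p.1‖ * 1) := by gcongr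
      _ = C ^ 2 * ‖p.1‖ := by ring

theorem near_upper (hX : IsCone X) (hQ : IsEq X T Q D) (hm : 1 ≤ m) (Ω : Form K m j)
    (hΩ : Ω.PoleBound X) (χ : Chart X) {P : Par} (hP : ConvPar P) {nd : Bool} {d : Bool × Bool}
    (h : HasType T χ nd) (hd : DType K χ d) (hdn : d.2 = true → nd = true) :
    ∃ C : ℝ, 0 < C ∧ ∀ p ∈ closedBall (0 : ℂ × ℂ) 1, χ.σ p ∈ K → ∀ w,
      rho Q D (χ.σ p) ^ 2 * (ACoef Ω χ p * pM nd P p w) ≤ C * ‖w‖ := by
  obtain ⟨C1, hC1, hA⟩ := ACoef_le hX hm Ω hΩ χ hd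
  obtain ⟨C2, hC2, hr⟩ := NearBounds_rho hX hQ χ h
  have hm0 : (0 : ℝ) < m := by exact_mod_cast hm
  have hm1 : (1 : ℝ) ≤ m := by exact_mod_cast hm
  refine ⟨C2 * C1 * 2, by positivity, fun p hp hpK w => ?_⟩
  obtain ⟨hg0, hg1⟩ := NearBounds_gD χ hd hp hpK
  obtain ⟨hs0, hsg, hs1⟩ := NearBounds_small hdn hp
  obtain ⟨hr0, hr2⟩ := hr p hp
  have h1 : ACoef Ω χ p ≤ C1 * ‖gD d p‖⁻¹ := by
    refine (hA p hp hpK).trans (mul_le_mul_of_nonneg_left ?_ hC1.le)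
    rw [← Real.rpow_neg_one]
    refine Real.rpow_le_rpow_of_exponent_ge hg0 hg1 ?_
    rw [neg_le_neg_iff, div_le_one hm0]
    linarith
  have h2 : rho Q D (χ.σ p) ^ 2 ≤ C2 * ‖gD d p‖ := hr2.trans (mul_le_mul_of_nonneg_left hsg hC2.le)
  have h3 : pM nd P p w ≤ 2 * ‖w‖ := pM_le hP nd (NearBounds_mem hp).2.1 w
  have h4 : 0 ≤ pM nd P p w := pM_nonneg (zero_le_one.trans hP.M_ge) nd p w
  have h5 : 0 ≤ ACoef Ω χ p := ACoef_nonneg Ω χ p
  have hgi : 0 ≤ ‖gD d p‖⁻¹ := inv_nonneg.2 hg0.le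
  calc rho Q D (χ.σ p) ^ 2 * (ACoef Ω χ p * pM nd P p w)
      ≤ (C2 * ‖gD d p‖) * ((C1 * ‖gD d p‖⁻¹) * (2 * ‖w‖)) := by
        refine mul_le_mul h2 (mul_le_mul h1 h3 h4 (by positivity)) (by positivity) (by positivity)
    _ = C2 * C1 * 2 * ‖w‖ * (‖gD d p‖ * ‖gD d p‖⁻¹) := by ring
    _ = C2 * C1 * 2 * ‖w‖ := by rw [mul_inv_cancel₀ hg0.ne', mul_one]

private theorem NearBounds_b (hX : IsCone X) (hK : IsOpenPart X K) (hKT : ∀ x ∈ X, x ∉ K → x ∈ T)
    (Ω : Form K m j) (hΩ : Ω.NoZeroOff T) (χ : Chart X) {nd : Bool} {d : Bool × Bool}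
    (h : HasType T χ nd) (hd : DType K χ d) {b : ℂ × ℂ → ℂ}
    (hb : ∀ p ∈ ball (0 : ℂ × ℂ) 2, AnalyticAt ℂ b p)
    (hbe : ∀ p ∈ ball (0 : ℂ × ℂ) 2, χ.σ p ∈ K → b p = gD d p ^ (m - 1) * aCoef Ω χ p) :
    ∃ (c : ℝ) (k : ℕ), 0 < c ∧ ∀ p ∈ closedBall (0 : ℂ × ℂ) 1, c * small nd p ^ k ≤ ‖b p‖ := by
  have hball : ∀ s t : ℂ, ‖s‖ < 2 → ‖t‖ < 2 → (s, t) ∈ ball (0 : ℂ × ℂ) 2 := by
    intro s t hs ht
    rw [mem_ball_zero_iff, Prod.norm_def]
    exact max_lt hs ht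
  have hne : ∀ p ∈ ball (0 : ℂ × ℂ) 2, ¬ (p.1 = 0 ∨ (nd = true ∧ p.2 = 0)) → b p ≠ 0 := by
    intro p hp hp0
    have hT : χ.σ p ∉ T := fun hT => hp0 ((h p hp).1 hT)
    have hpK : χ.σ p ∈ K := by
      by_contra hpK
      exact hT (hKT _ (χ.σ_mem p hp).1 hpK)
    rw [hbe p hp hpK]
    refine mul_ne_zero (pow_ne_zero _ ?_) (aCoef_ne_zero hX hK Ω χ hΩ hp hpK hT)
    have h3 : ¬ ((d.1 = true ∧ p.1 = 0) ∨ (d.2 = true ∧ p.2 = 0)) := fun h' => (hd p hp).2 h' hpK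
    rw [not_or] at h3
    unfold gD
    refine mul_ne_zero ?_ ?_
    · split_ifs with h'
      · exact fun h0 => h3.1 ⟨h', h0⟩
      · exact one_ne_zero
    · split_ifs with h'
      · exact fun h0 => h3.2 ⟨h', h0⟩
      · exact one_ne_zero
  cases nd with
  | true =>
    obtain ⟨c, k, hc, -, hck⟩ := Pool.Agent.H62.BP.lower_node (a := b)
      (fun s t hs ht => hb _ (hball s t hs ht))
      (fun s t hs ht hs0 ht0 => hne _ (hball s t hs ht) (by
        rintro (h' | ⟨-, h'⟩)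
        · exact hs0 h'
        · exact ht0 h'))
    refine ⟨c, k, hc, fun p hp => ?_⟩
    obtain ⟨-, -, h1, h2⟩ := NearBounds_mem hp
    have := hck p.1 p.2 h1 h2
    unfold small
    rw [if_pos rfl]
    exact this
  | false =>
    obtain ⟨c, k, hc, hck⟩ := Pool.Agent.H62.BP.lower_smooth (a := b)
      (fun s t hs ht => hb _ (hball s t (hs.trans_lt one_lt_two) (ht.trans_lt one_lt_two)))
      (fun s t hs ht hs0 => hne _ (hball s t (hs.trans_lt one_lt_two) (ht.trans_lt one_lt_two)) (by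
        rintro (h' | ⟨h', -⟩)
        · exact hs0 h'
        · exact absurd h' (by simp)))
    refine ⟨c, k, hc, fun p hp => ?_⟩
    obtain ⟨-, -, h1, h2⟩ := NearBounds_mem hp
    have := hck p.1 p.2 h1 h2
    unfold small
    rw [if_neg (by simp)]
    exact this

theorem near_lower (hX : IsCone X) (hK : IsOpenPart X K) (hKT : ∀ x ∈ X, x ∉ K → x ∈ T)
    (hQ : IsEq X T Q D) (hm : 1 ≤ m) (Ω : Form K m j) (hΩ : Ω.NoZeroOff T)
    (hΩ' : Ω.PoleBound X) (χ : Chart X) {P : Par} (hP : ConvPar P) {nd : Bool} {d : Bool × Bool}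
    (h : HasType T χ nd) (hd : DType K χ d) (hdn : d.2 = true → nd = true) :
    ∃ (M₀ : ℕ) (c : ℝ), 0 < c ∧ ∀ p ∈ closedBall (0 : ℂ × ℂ) 1, χ.σ p ∈ K → ∀ w,
      c * rho Q D (χ.σ p) ^ M₀ * ‖w‖ ≤ ACoef Ω χ p * pM nd P p w := by
  obtain ⟨a, A, ha, hA, hσ⟩ := NearBounds_sigma hX χ
  obtain ⟨b, hb, hbe⟩ := hΩ' χ d hd
  obtain ⟨c0, k, hc0, hck⟩ := NearBounds_b hX hK hKT Ω hΩ χ h hd hb hbe
  obtain ⟨C2, hC2, hr⟩ := NearBounds_rho hX hQ χ h
  have hm0 : (0 : ℝ) < m := by exact_mod_cast hm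
  have hm1 : (1 : ℝ) ≤ m := by exact_mod_cast hm
  have hc1 : 0 < c0 ^ (1 / (m : ℝ)) * a ^ ((j : ℝ) / m) := by positivity
  refine ⟨2 * (k + 1), c0 ^ (1 / (m : ℝ)) * a ^ ((j : ℝ) / m) * Real.exp (-P.K - 1) / C2 ^ (k + 1),
    by positivity, fun p hp hpK w => ?_⟩
  obtain ⟨hg0, hg1⟩ := NearBounds_gD χ hd hp hpK
  obtain ⟨hs0, hsg, hs1⟩ := NearBounds_small hdn hp
  obtain ⟨hr0, hr2⟩ := hr p hp
  have hp1 := (NearBounds_mem hp).2.1
  have hsk0 : 0 ≤ small nd p ^ k := pow_nonneg hs0 k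
  have hsk1 : small nd p ^ k ≤ 1 := pow_le_one₀ hs0 hs1
  -- lower bound of the coefficient
  have e1 : c0 * small nd p ^ k ≤ ‖aCoef Ω χ p‖ := by
    refine (hck p hp).trans ?_
    rw [hbe p (NearBounds_mem hp).1 hpK, norm_mul, norm_pow]
    exact mul_le_of_le_one_left (norm_nonneg _) (pow_le_one₀ hg0.le hg1)
  have e2 : c0 ^ (1 / (m : ℝ)) * small nd p ^ k ≤ ‖aCoef Ω χ p‖ ^ (1 / (m : ℝ)) := by
    refine le_trans ?_ (Real.rpow_le_rpow (by positivity) e1 (by positivity))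
    rw [Real.mul_rpow hc0.le hsk0]
    refine mul_le_mul_of_nonneg_left ?_ (by positivity)
    rcases hsk0.eq_or_lt with h0 | h0
    · rw [← h0]
      exact Real.rpow_nonneg le_rfl _
    · calc small nd p ^ k = (small nd p ^ k) ^ (1 : ℝ) := (Real.rpow_one _).symm
        _ ≤ (small nd p ^ k) ^ (1 / (m : ℝ)) := by
          refine Real.rpow_le_rpow_of_exponent_ge h0 hsk1 ?_
          rw [div_le_one hm0]
          exact hm1
  have e3 : a ^ ((j : ℝ) / m) ≤ ‖χ.σ p‖ ^ ((j : ℝ) / m) :=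
    Real.rpow_le_rpow ha.le (hσ p hp).1 (by positivity)
  have e4 : c0 ^ (1 / (m : ℝ)) * small nd p ^ k * a ^ ((j : ℝ) / m) ≤ ACoef Ω χ p := by
    unfold ACoef
    exact mul_le_mul e2 e3 (by positivity) (by positivity)
  -- lower bound of the piece
  have e5 : small nd p * ‖w‖ * Real.exp (-P.K - 1) ≤ pM nd P p w := by
    cases nd with
    | true =>
      have := le_pM_true hP hp1 w
      unfold small
      rw [if_pos rfl]
      exact this
    | false =>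
      have := le_pM_false hP hp1 w
      unfold small
      rw [if_neg (by simp)]
      exact this
  have e6 : rho Q D (χ.σ p) ^ (2 * (k + 1)) ≤ C2 ^ (k + 1) * small nd p ^ (k + 1) := by
    rw [pow_mul, ← mul_pow]
    exact pow_le_pow_left₀ (by positivity) hr2 _
  have e7 : 0 ≤ ACoef Ω χ p := ACoef_nonneg Ω χ p
  have hCk : 0 < C2 ^ (k + 1) := by positivity
  calc c0 ^ (1 / (m : ℝ)) * a ^ ((j : ℝ) / m) * Real.exp (-P.K - 1) / C2 ^ (k + 1) *
        rho Q D (χ.σ p) ^ (2 * (k + 1)) * ‖w‖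
      ≤ c0 ^ (1 / (m : ℝ)) * a ^ ((j : ℝ) / m) * Real.exp (-P.K - 1) / C2 ^ (k + 1) *
        (C2 ^ (k + 1) * small nd p ^ (k + 1)) * ‖w‖ := by gcongr
    _ = (c0 ^ (1 / (m : ℝ)) * small nd p ^ k * a ^ ((j : ℝ) / m)) *
          (small nd p * ‖w‖ * Real.exp (-P.K - 1)) := by
        rw [pow_succ (small nd p) k]
        field_simp
    _ ≤ ACoef Ω χ p * pM nd P p w := mul_le_mul e4 e5 (by positivity) e7

end Pool.Agent.H14.PP

end

section

/-!
# BPm LimNear: the metric tends to zero along curves which converge to the boundary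

`F n` curves in `K` on `ball z₀ s`, `F n → H` locally uniformly, `H z₀ ≠ 0`, `H z ∉ K` on the ball.
Claim: `nearG i (F n z₀) ((F n)' z₀) → 0`.

`H` is holomorphic on the ball (locally uniform limit) and near `z₀` not `0`, `H z ∈ X` there
(`insert 0 X` is closed).
Case A: not (`H z₀ ∈ U` and `‖q (H z₀)‖ ≤ 1`). The set `{x ∈ X | x ∈ U, ‖q x‖ ≤ 1}` is closed in `X`
(`Chart.isClosed`), so eventually `F n z₀` is not in it and `nearG i = 0`.
Case B: `H z₀ ∈ U`, `‖q (H z₀)‖ ≤ 1`. On a small closed ball around `z₀`, of radius `s'`, `H ∈ U` and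
`(s_n, t_n) := q ∘ F n → (s, t) := q ∘ H` uniformly, all in a compact part of `U` (continuity of `q`,
compactness), the `F n` are in `U` there eventually; so `(s_n, t_n)` are holomorphic on the ball of
radius `s'`, their derivatives at `z₀` converge, hence are bounded, and equal
`fderiv ℂ q (F n z₀) ((F n)' z₀)` (`Chart.curve`). If `‖q (F n z₀)‖ > 1` the piece is `0`; so let
`‖q (F n z₀)‖ ≤ 1`. `H z ∉ K` means `σ (q (H z)) ∉ K` (`Chart.sigma_mem_iff`), so by `DType` for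
every `z` near `z₀`: (`d.1` and `s z = 0`) or (`d.2` and `t z = 0`); by analyticity one of the two
holds identically near `z₀`. Say `d.1 = true`, `s = 0` near `z₀` (the other case is symmetric, then
`nd = true` by `hdn` and one exchanges `s` and `t`). `s_n` has no zero near `z₀`
(`s_n z = 0` would give `F n z ∉ K`), and if `d.2 = true` neither has `t_n`.
`ACoef_le`: `ACoef (q (F n z₀)) ≤ C ‖s_n‖^(-μ) (‖t_n‖^(-μ) if d.2)`, `μ = (m-1)/m`, at `z₀`.
All the factors `exp`, `(1 + M..)^e` in the pieces are bounded (by `1`, `2`).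
* Normal piece: `≤ 2 C ‖s_n‖^(-μ) ‖s_n'‖ * (‖t_n‖^(1-κ-μ) ≤ 1 if nd and d.2; 1-κ-μ = 1/m - κ ≥ 0)`
  (if `nd`, not `d.2`: `‖t_n‖^(1-κ) ≤ 1`), and `‖s_n‖^(-μ) ‖s_n'‖ ≤ m η_n^(1/m)/s' → 0`
  (`root_deriv`, `η_n = sup ‖s_n‖ → 0`).
* Tangential piece: `≤ 2 C ‖s_n‖^(1-κ-μ) ‖t_n'‖ (‖t_n‖^(-μ) if d.2)`; `‖s_n‖^(1/m-κ) → 0`
  (`κ < 1/m`), `‖t_n'‖` is bounded, and if `d.2` `‖t_n‖^(-μ) ‖t_n'‖` is bounded by `root_deriv`.
-/

open Topology Filter Metric

namespace Pool.Agent.H14.PP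

open Pool.Agent.H36.BP

variable {N : ℕ} {W : Type*} [NormedAddCommGroup W] [InnerProductSpace ℂ W]
  {X K T : Set (EN N)} {m j : ℕ} {Ω : Form K m j} {n : ℕ} {χ : Fin n → Chart X}
  {nd : Fin n → Bool} {P : Par} {Q : EN N → W} {D M' : ℕ} {δ c₁ : ℝ}

private theorem LimNear_comp {A C : Type*} [UniformSpace A] [UniformSpace C] {F : ℕ → ℂ → A}
    {H : ℂ → A} {l : Filter ℕ} {B : Set ℂ} (h : TendstoLocallyUniformlyOn F H l B)
    (hH : ContinuousOn H B) {g : A → C} (hg : ∀ z ∈ B, ContinuousAt g (H z)) :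
    TendstoLocallyUniformlyOn (fun n z => g (F n z)) (fun z => g (H z)) l B := by
  rw [tendstoLocallyUniformlyOn_iff_forall_tendsto] at h ⊢
  intro x hx
  have h1 := h x hx
  have h2 : Tendsto (fun y : ℕ × ℂ => H y.2) (l ×ˢ 𝓝[B] x) (𝓝 (H x)) :=
    (hH x hx).tendsto.comp tendsto_snd
  have h3 : Tendsto (fun y : ℕ × ℂ => F y.1 y.2) (l ×ˢ 𝓝[B] x) (𝓝 (H x)) := by
    rw [Uniform.tendsto_nhds_right]
    exact (Uniform.tendsto_nhds_right.1 h2).uniformity_trans h1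
  have h4 : Tendsto (fun y : ℕ × ℂ => g (H y.2)) (l ×ˢ 𝓝[B] x) (𝓝 (g (H x))) :=
    (hg x hx).tendsto.comp h2
  have h5 : Tendsto (fun y : ℕ × ℂ => g (F y.1 y.2)) (l ×ˢ 𝓝[B] x) (𝓝 (g (H x))) :=
    (hg x hx).tendsto.comp h3
  exact (Uniform.tendsto_nhds_left.1 h4).uniformity_trans (Uniform.tendsto_nhds_right.1 h5)

/-- the factor of `ACoef` -/
private noncomputable def LimNear_g (m : ℕ) (f : Bool) (x : ℝ) : ℝ :=
  if f = true then x ^ (-(((m : ℝ) - 1) / m)) else 1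

private theorem LimNear_g_nonneg (m : ℕ) (f : Bool) {x : ℝ} (hx : 0 ≤ x) : 0 ≤ LimNear_g m f x := by
  unfold LimNear_g
  split_ifs
  · exact Real.rpow_nonneg hx _
  · exact zero_le_one

private theorem LimNear_gD (m : ℕ) (d : Bool × Bool) (p : ℂ × ℂ) :
    ‖gD d p‖ ^ (-(((m : ℝ) - 1) / m)) = LimNear_g m d.1 ‖p.1‖ * LimNear_g m d.2 ‖p.2‖ := by
  unfold gD LimNear_g
  rw [norm_mul, Real.mul_rpow (norm_nonneg _) (norm_nonneg _)]
  congr 1
  · split_ifs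
    · rfl
    · rw [norm_one, Real.one_rpow]
  · split_ifs
    · rfl
    · rw [norm_one, Real.one_rpow]

private theorem LimNear_g_true {m : ℕ} (hm : 1 ≤ m) {κ x : ℝ} (hx : 0 < x) :
    LimNear_g m true x * x ^ (1 - κ) = x ^ (1 / (m : ℝ) - κ) := by
  have hm0 : (m : ℝ) ≠ 0 := by
    have : 0 < m := hm
    exact_mod_cast this.ne'
  unfold LimNear_g
  rw [if_pos rfl, ← Real.rpow_add hx]
  congr 1
  field_simp
  ring

private theorem LimNear_g_le_one {m : ℕ} (hm : 1 ≤ m) {κ : ℝ} (hκ : κ < 1 / (m : ℝ))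
    (hκ1 : κ ≤ 1) {f : Bool} {x : ℝ}
    (hx : 0 ≤ x) (hx1 : x ≤ 1) (hf : f = true → 0 < x) : LimNear_g m f x * x ^ (1 - κ) ≤ 1 := by
  cases f with
  | true =>
    rw [LimNear_g_true hm (hf rfl)]
    exact Real.rpow_le_one hx hx1 (by linarith)
  | false =>
    unfold LimNear_g
    rw [if_neg (by simp), one_mul]
    exact Real.rpow_le_one hx hx1 (by linarith)

private theorem LimNear_two {P : Par} (hP : ConvPar P) {x : ℝ} (hx : 0 ≤ x) (hx1 : x ≤ 1) :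
    (1 + P.M * x ^ (2 * P.κ)) ^ P.e ≤ 2 := by
  have hM := hP.M_ge
  have h1 : x ^ (2 * P.κ) ≤ 1 := Real.rpow_le_one hx hx1 (by linarith [hP.κ_pos])
  have h0 : 0 ≤ x ^ (2 * P.κ) := Real.rpow_nonneg hx _
  have h2 : 1 + P.M * x ^ (2 * P.κ) ≤ 1 + P.M := by nlinarith
  have h3 : 0 ≤ 1 + P.M * x ^ (2 * P.κ) := by nlinarith
  have h4 : (1 + P.M * x ^ (2 * P.κ)) ^ P.e ≤ (1 + P.M) ^ P.e :=
    Real.rpow_le_rpow h3 h2 hP.e_pos.le
  refine h4.trans ?_
  rw [Real.rpow_def_of_pos (by linarith : (0 : ℝ) < 1 + P.M)]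
  have h5 : Real.log (1 + P.M) * P.e ≤ 1 / 16 := by
    have := hP.e_log
    have := hP.ε_le
    nlinarith
  have h6 : Real.exp (Real.log (1 + P.M) * P.e) ≤ Real.exp (1 / 16) := Real.exp_le_exp.2 h5
  have h7 : Real.exp (1 / 16 : ℝ) ≤ 2 := by
    have h8 : (1 / 16 : ℝ) ≤ Real.log 2 := by
      have := Real.log_two_gt_d9
      linarith
    calc Real.exp (1 / 16 : ℝ) ≤ Real.exp (Real.log 2) := Real.exp_le_exp.2 h8
      _ = 2 := Real.exp_log (by norm_num)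
  exact h6.trans h7

private theorem LimNear_pN {P : Par} (hP : ConvPar P) (nd : Bool) {s t : ℂ} (hs : ‖s‖ ≤ 1)
    (s' : ℂ) :
    pN nd P s t s' ≤ 2 * ((if nd = true then ‖t‖ ^ (1 - P.κ) else 1) * ‖s'‖) := by
  unfold pN
  have h1 := LimNear_two hP (norm_nonneg s) hs
  have h1' : 0 ≤ (1 + P.M * ‖s‖ ^ (2 * P.κ)) ^ P.e := by
    apply Real.rpow_nonneg
    have := hP.M_ge
    have h0 : 0 ≤ ‖s‖ ^ (2 * P.κ) := Real.rpow_nonneg (norm_nonneg _) _
    nlinarith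
  have h2 : Real.exp (-P.K * ‖t‖ ^ 2) ≤ 1 := by
    rw [Real.exp_le_one_iff]
    have := hP.K_pos
    have h0 : 0 ≤ ‖t‖ ^ 2 := by positivity
    nlinarith
  have h3 : (if nd = true then ‖t‖ ^ (1 - P.κ) * Real.exp (-P.ε * ‖s‖ ^ 2) else 1) ≤
      (if nd = true then ‖t‖ ^ (1 - P.κ) else 1) := by
    split_ifs
    · have h4 : Real.exp (-P.ε * ‖s‖ ^ 2) ≤ 1 := by
        rw [Real.exp_le_one_iff]
        have := hP.ε_pos
        have h0 : 0 ≤ ‖s‖ ^ 2 := by positivity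
        nlinarith
      calc ‖t‖ ^ (1 - P.κ) * Real.exp (-P.ε * ‖s‖ ^ 2) ≤ ‖t‖ ^ (1 - P.κ) * 1 :=
            mul_le_mul_of_nonneg_left h4 (Real.rpow_nonneg (norm_nonneg _) _)
        _ = _ := mul_one _
    · exact le_rfl
  have h3' : 0 ≤ (if nd = true then ‖t‖ ^ (1 - P.κ) * Real.exp (-P.ε * ‖s‖ ^ 2) else (1 : ℝ)) := by
    split_ifs
    · positivity
    · exact zero_le_one
  have h5 : 0 ≤ (if nd = true then ‖t‖ ^ (1 - P.κ) else (1 : ℝ)) := h3'.trans h3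
  calc (if nd = true then ‖t‖ ^ (1 - P.κ) * Real.exp (-P.ε * ‖s‖ ^ 2) else 1) * ‖s'‖ *
        (1 + P.M * ‖s‖ ^ (2 * P.κ)) ^ P.e * Real.exp (-P.K * ‖t‖ ^ 2)
      ≤ (if nd = true then ‖t‖ ^ (1 - P.κ) else 1) * ‖s'‖ * 2 * 1 := by
        apply mul_le_mul _ h2 (Real.exp_nonneg _)
        · positivity
        · apply mul_le_mul _ h1 h1'
          · positivity
          · exact mul_le_mul_of_nonneg_right h3 (norm_nonneg _)
    _ = _ := by ring

private theorem LimNear_pT {P : Par} (hP : ConvPar P) (nd : Bool) {s t : ℂ} (ht : ‖t‖ ≤ 1)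
    (t' : ℂ) : pT nd P s t t' ≤ 2 * (‖s‖ ^ (1 - P.κ) * ‖t'‖) := by
  unfold pT
  split_ifs with hnd
  · have h := LimNear_pN (nd := true) hP (s := t) (t := s) ht t'
    rwa [if_pos rfl] at h
  · have h4 : Real.exp (-P.ε * ‖t‖ ^ 2) ≤ 1 := by
      rw [Real.exp_le_one_iff]
      have := hP.ε_pos
      have h0 : 0 ≤ ‖t‖ ^ 2 := by positivity
      nlinarith
    have h5 : 0 ≤ ‖s‖ ^ (1 - P.κ) * ‖t'‖ := by positivity
    nlinarith [mul_le_mul_of_nonneg_left h4 h5]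

/-- the estimate of the near piece -/
private theorem LimNear_est {χ : Chart X} {nd : Bool} (hP : ConvPar P) {d : Bool × Bool} {C : ℝ}
    (hC0 : 0 < C) (hC : ∀ p ∈ closedBall (0 : ℂ × ℂ) 1, χ.σ p ∈ K →
        ACoef Ω χ p ≤ C * ‖gD d p‖ ^ (-(((m : ℝ) - 1) / m)))
    {p w : ℂ × ℂ} (hp : ‖p‖ ≤ 1) (hpK : χ.σ p ∈ K) (e : ℝ)
    (ha : LimNear_g m d.1 ‖p.1‖ * ‖w.1‖ *
      (LimNear_g m d.2 ‖p.2‖ * (if nd = true then ‖p.2‖ ^ (1 - P.κ) else 1)) ≤ e)
    (hb : LimNear_g m d.2 ‖p.2‖ * ‖w.2‖ * (LimNear_g m d.1 ‖p.1‖ * ‖p.1‖ ^ (1 - P.κ)) ≤ e) :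
    ACoef Ω χ p * pM nd P p w ≤ 2 * C * e := by
  have hp1 : ‖p.1‖ ≤ 1 := (norm_fst_le p).trans hp
  have hp2 : ‖p.2‖ ≤ 1 := (norm_snd_le p).trans hp
  have hM : 0 ≤ P.M := by linarith [hP.M_ge]
  have h1 := hC p (by rwa [mem_closedBall_zero_iff]) hpK
  rw [LimNear_gD] at h1
  have hg1 := LimNear_g_nonneg m d.1 (norm_nonneg p.1)
  have hg2 := LimNear_g_nonneg m d.2 (norm_nonneg p.2)
  unfold pM
  rcases max_cases (pN nd P p.1 p.2 w.1) (pT nd P p.1 p.2 w.2) with ⟨hmax, _⟩ | ⟨hmax, _⟩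
  · rw [hmax]
    calc ACoef Ω χ p * pN nd P p.1 p.2 w.1
        ≤ (C * (LimNear_g m d.1 ‖p.1‖ * LimNear_g m d.2 ‖p.2‖)) *
          (2 * ((if nd = true then ‖p.2‖ ^ (1 - P.κ) else 1) * ‖w.1‖)) := by
          apply mul_le_mul h1 (LimNear_pN hP nd hp1 _) (pN_nonneg hM _ _ _ _)
          positivity
      _ = 2 * C * (LimNear_g m d.1 ‖p.1‖ * ‖w.1‖ *
          (LimNear_g m d.2 ‖p.2‖ * (if nd = true then ‖p.2‖ ^ (1 - P.κ) else 1))) := by ring
      _ ≤ 2 * C * e := mul_le_mul_of_nonneg_left ha (by positivity)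
  · rw [hmax]
    calc ACoef Ω χ p * pT nd P p.1 p.2 w.2
        ≤ (C * (LimNear_g m d.1 ‖p.1‖ * LimNear_g m d.2 ‖p.2‖)) *
          (2 * (‖p.1‖ ^ (1 - P.κ) * ‖w.2‖)) := by
          apply mul_le_mul h1 (LimNear_pT hP nd hp2 _) (pT_nonneg hM _ _ _ _)
          positivity
      _ = 2 * C * (LimNear_g m d.2 ‖p.2‖ * ‖w.2‖ * (LimNear_g m d.1 ‖p.1‖ *
          ‖p.1‖ ^ (1 - P.κ))) := by ring
      _ ≤ 2 * C * e := mul_le_mul_of_nonneg_left hb (by positivity)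

/-- bound for the logarithmic type derivative of one coordinate, bounded by `η` -/
private theorem LimNear_root {f : ℂ → ℂ} {z₀ : ℂ} {r η : ℝ} (hr : 0 < r) {m : ℕ} (hm : 1 ≤ m)
    (hf : ∀ z ∈ closedBall z₀ r, DifferentiableAt ℂ f z) {fl : Bool}
    (h0 : fl = true → ∀ z ∈ closedBall z₀ r, f z ≠ 0)
    (h1 : ∀ z ∈ closedBall z₀ r, ‖f z‖ ≤ η) :
    LimNear_g m fl ‖f z₀‖ * ‖deriv f z₀‖ ≤ max (m * η ^ (1 / (m : ℝ)) / r) (η / r) := by
  unfold LimNear_g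
  split_ifs with hfl
  · refine le_trans ?_ (le_max_left _ _)
    refine root_deriv hr ?_ ?_ ?_ hm
    · intro z hz
      exact (hf z (ball_subset_closedBall hz)).differentiableWithinAt
    · intro z hz
      exact h0 hfl z (ball_subset_closedBall hz)
    · intro z hz
      exact h1 z (ball_subset_closedBall hz)
  · refine le_trans ?_ (le_max_right _ _)
    rw [one_mul]
    refine Complex.norm_deriv_le_of_forall_mem_sphere_norm_le hr ?_ ?_
    · apply DifferentiableOn.diffContOnCl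
      intro z hz
      have hz' : z ∈ closedBall z₀ r := closure_ball_subset_closedBall hz
      exact (hf z hz').differentiableWithinAt
    · intro z hz
      exact h1 z (sphere_subset_closedBall hz)

private theorem LimNear_type (hK : IsOpenPart X K) (χ : Chart X)
    {d : Bool × Bool} (hd : DType K χ d) {H : ℂ → EN N} {z₀ : ℂ} {s : ℝ} (hs : 0 < s)
    (hHd : DifferentiableOn ℂ H (ball z₀ s)) (hHX : ∀ z ∈ ball z₀ s, H z ∈ insert (0 : EN N) X)
    (h0 : H z₀ ≠ 0) (hHU : H z₀ ∈ χ.U) (hH : ∀ z ∈ ball z₀ s, H z ∉ K) :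
    ∃ r : ℝ, 0 < r ∧ closedBall z₀ r ⊆ ball z₀ s ∧ (∀ z ∈ closedBall z₀ r, H z ∈ χ.U) ∧
      ((d.1 = true ∧ ∀ z ∈ closedBall z₀ r, (χ.q (H z)).1 = 0) ∨
        (d.2 = true ∧ ∀ z ∈ closedBall z₀ r, (χ.q (H z)).2 = 0)) := by
  have hz₀ : z₀ ∈ ball z₀ s := mem_ball_self hs
  have han : AnalyticAt ℂ H z₀ := hHd.analyticAt (isOpen_ball.mem_nhds hz₀)
  have hqan : AnalyticAt ℂ (fun z => χ.q (H z)) z₀ :=
    AnalyticAt.comp (g := χ.q) (f := H) (χ.q_an _ hHU) han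
  have hq1 : AnalyticAt ℂ (fun z => (χ.q (H z)).1) z₀ :=
    AnalyticAt.comp (g := fun p : ℂ × ℂ => p.1) (f := fun z => χ.q (H z)) analyticAt_fst hqan
  have hq2 : AnalyticAt ℂ (fun z => (χ.q (H z)).2) z₀ :=
    AnalyticAt.comp (g := fun p : ℂ × ℂ => p.2) (f := fun z => χ.q (H z)) analyticAt_snd hqan
  have e1 : ∀ᶠ z in 𝓝 z₀, z ∈ ball z₀ s := isOpen_ball.mem_nhds hz₀
  have e2 : ∀ᶠ z in 𝓝 z₀, H z ∈ χ.U := han.continuousAt.eventually (χ.isOpen_U.mem_nhds hHU)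
  have e3 : ∀ᶠ z in 𝓝 z₀, H z ≠ 0 := han.continuousAt.eventually_ne h0
  have e4 : ∀ᶠ z in 𝓝 z₀, (d.1 = true ∧ (χ.q (H z)).1 = 0) ∨ (d.2 = true ∧ (χ.q (H z)).2 = 0) := by
    filter_upwards [e1, e2, e3] with z h1 h2 h3
    have hXz : H z ∈ X := (hHX z h1).resolve_left h3
    have h4 : χ.σ (χ.q (H z)) ∉ K := by
      rw [Chart.sigma_mem_iff χ hXz h2 (S := K) hK.smul_mem]
      exact hH z h1
    exact (hd _ (χ.surj _ hXz h2).1).1 h4
  have key : (d.1 = true ∧ ∀ᶠ z in 𝓝 z₀, (χ.q (H z)).1 = 0) ∨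
      (d.2 = true ∧ ∀ᶠ z in 𝓝 z₀, (χ.q (H z)).2 = 0) := by
    by_contra hcon
    rw [not_or, not_and, not_and] at hcon
    obtain ⟨c1, c2⟩ := hcon
    have a1 : ∀ᶠ z in 𝓝[≠] z₀, ¬ (d.1 = true ∧ (χ.q (H z)).1 = 0) := by
      by_cases hd1 : d.1 = true
      · rcases hq1.eventually_eq_zero_or_eventually_ne_zero with h | h
        · exact absurd h (c1 hd1)
        · filter_upwards [h] with z hz
          exact fun h' => hz h'.2
      · exact Eventually.of_forall fun z h' => hd1 h'.1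
    have a2 : ∀ᶠ z in 𝓝[≠] z₀, ¬ (d.2 = true ∧ (χ.q (H z)).2 = 0) := by
      by_cases hd2 : d.2 = true
      · rcases hq2.eventually_eq_zero_or_eventually_ne_zero with h | h
        · exact absurd h (c2 hd2)
        · filter_upwards [h] with z hz
          exact fun h' => hz h'.2
      · exact Eventually.of_forall fun z h' => hd2 h'.1
    obtain ⟨z, hz1, hz2, hz3⟩ := (a1.and (a2.and (e4.filter_mono nhdsWithin_le_nhds))).exists
    rcases hz3 with h | h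
    · exact hz1 h
    · exact hz2 h
  rcases key with ⟨k1, k2⟩ | ⟨k1, k2⟩
  · obtain ⟨r, hr, hsub⟩ := Metric.nhds_basis_closedBall.mem_iff.1 (e1.and (e2.and k2))
    exact ⟨r, hr, fun z hz => (hsub hz).1, fun z hz => (hsub hz).2.1,
      Or.inl ⟨k1, fun z hz => (hsub hz).2.2⟩⟩
  · obtain ⟨r, hr, hsub⟩ := Metric.nhds_basis_closedBall.mem_iff.1 (e1.and (e2.and k2))
    exact ⟨r, hr, fun z hz => (hsub hz).1, fun z hz => (hsub hz).2.1,
      Or.inr ⟨k1, fun z hz => (hsub hz).2.2⟩⟩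

private theorem LimNear_small {m : ℕ} (hm : 1 ≤ m) {κ C B r ε : ℝ} (hκ : κ < 1 / (m : ℝ))
    (hε : 0 < ε) : ∃ η : ℝ, 0 < η ∧ 2 * C * max (m * η ^ (1 / (m : ℝ)) / r) (η / r) < ε ∧
      2 * C * (B * η ^ (1 / (m : ℝ) - κ)) < ε := by
  have hm0 : (0 : ℝ) < 1 / (m : ℝ) := by
    have : (0 : ℝ) < m := by exact_mod_cast hm
    positivity
  have t1 : Tendsto (fun η : ℝ => η ^ (1 / (m : ℝ))) (𝓝 0) (𝓝 0) := by
    have := (Real.continuousAt_rpow_const 0 (1 / (m : ℝ)) (Or.inr hm0.le)).tendsto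
    rwa [Real.zero_rpow hm0.ne'] at this
  have t2 : Tendsto (fun η : ℝ => η ^ (1 / (m : ℝ) - κ)) (𝓝 0) (𝓝 0) := by
    have hp : 0 < 1 / (m : ℝ) - κ := by linarith
    have := (Real.continuousAt_rpow_const 0 (1 / (m : ℝ) - κ) (Or.inr hp.le)).tendsto
    rwa [Real.zero_rpow hp.ne'] at this
  have t3 : Tendsto (fun η : ℝ => 2 * C * max (m * η ^ (1 / (m : ℝ)) / r) (η / r)) (𝓝 0) (𝓝 0) := by
    have h1 : Tendsto (fun η : ℝ => m * η ^ (1 / (m : ℝ)) / r) (𝓝 0) (𝓝 (m * 0 / r)) :=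
      (t1.const_mul _).div_const _
    have h2 : Tendsto (fun η : ℝ => η / r) (𝓝 0) (𝓝 (0 / r)) := tendsto_id.div_const _
    have h3 := (h1.max h2).const_mul (2 * C)
    simpa using h3
  have t4 : Tendsto (fun η : ℝ => 2 * C * (B * η ^ (1 / (m : ℝ) - κ))) (𝓝 0) (𝓝 0) := by
    have h3 := (t2.const_mul B).const_mul (2 * C)
    simpa using h3
  have e1 := (t3.eventually (gt_mem_nhds hε)).filter_mono (nhdsWithin_le_nhds (s := Set.Ioi 0))
  have e2 := (t4.eventually (gt_mem_nhds hε)).filter_mono (nhdsWithin_le_nhds (s := Set.Ioi 0))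
  have e3 : ∀ᶠ η : ℝ in 𝓝[>] 0, 0 < η := self_mem_nhdsWithin
  obtain ⟨η, h1, h2, h3⟩ := (e1.and (e2.and e3)).exists
  exact ⟨η, h3, h1, h2⟩

theorem lim_near (hX : IsCone X) (hK : IsOpenPart X K) (hm : 1 ≤ m) (hΩ : Ω.PoleBound X)
    (hP : ConvPar P) (hκ : P.κ < 1 / (m : ℝ)) {i : Fin n} {d : Bool × Bool}
    (hd : DType K (χ i) d) (hdn : d.2 = true → nd i = true) (l : Filter ℕ) (hl : l.NeBot)
    {F : ℕ → ℂ → EN N} {H : ℂ → EN N} {z₀ : ℂ} {s : ℝ} (hs : 0 < s)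
    (hF : ∀ᶠ k in l, Curve K (ball z₀ s) (F k))
    (hlim : TendstoLocallyUniformlyOn F H l (ball z₀ s)) (h0 : H z₀ ≠ 0)
    (hH : ∀ z ∈ ball z₀ s, H z ∉ K) {ε : ℝ} (hε : 0 < ε) :
    ∀ᶠ k in l, nearG Ω χ nd P Q D δ i (F k z₀) (deriv (F k) z₀) < ε := by
  have hev : ∀ᶠ k in l, DifferentiableOn ℂ (F k) (ball z₀ s) := hF.mono fun k hk => hk.1
  have hHd : DifferentiableOn ℂ H (ball z₀ s) := hlim.differentiableOn hev isOpen_ball
  have hHc : ContinuousOn H (ball z₀ s) := hHd.continuousOn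
  have hHX : ∀ z ∈ ball z₀ s, H z ∈ insert (0 : EN N) X := by
    intro z hz
    refine hX.closed.mem_of_tendsto (hlim.tendsto_at hz) ?_
    filter_upwards [hF] with k hk
    exact Set.mem_insert_of_mem _ (hK.subset (hk.2 z hz))
  have hz₀ : z₀ ∈ ball z₀ s := mem_ball_self hs
  have hconv : Tendsto (fun k => F k z₀) l (𝓝 (H z₀)) := hlim.tendsto_at hz₀
  by_cases hB : H z₀ ∈ (χ i).U ∧ ‖(χ i).q (H z₀)‖ ≤ 1
  swap
  · have hcl := (χ i).isClosed hX (zero_le_one) (by norm_num : (1 : ℝ) < 2)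
    have hnot : H z₀ ∉ insert (0 : EN N) {x | x ∈ X ∧ x ∈ (χ i).U ∧ ‖(χ i).q x‖ ≤ 1} := by
      rintro (h | ⟨_, h2, h3⟩)
      · exact h0 h
      · exact hB ⟨h2, h3⟩
    have hev2 := hconv.eventually (hcl.isOpen_compl.mem_nhds hnot)
    filter_upwards [hev2] with k hk
    have hnp : ¬ 0 < nearG Ω χ nd P Q D δ i (F k z₀) (deriv (F k) z₀) := by
      intro hpos
      obtain ⟨h1, h2, h3, _⟩ := mem_of_nearG_pos hpos
      exact hk (Set.mem_insert_of_mem _ ⟨h1, h2, h3⟩)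
    linarith [not_lt.1 hnp]
  · obtain ⟨hBU, _⟩ := hB
    obtain ⟨r, hr, hsub, hrU, htype⟩ := LimNear_type hK (χ i) hd hs hHd hHX h0 hBU hH
    obtain ⟨C, hC0, hC⟩ := ACoef_le hX hm Ω hΩ (χ i) hd
    have hcomp : IsCompact (closedBall z₀ r) := isCompact_closedBall z₀ r
    have h4 : TendstoUniformlyOn F H l (closedBall z₀ r) :=
      (tendstoLocallyUniformlyOn_iff_tendstoUniformlyOn_of_compact hcomp).1 (hlim.mono hsub)
    have h3 : TendstoUniformlyOn (fun k z => (χ i).q (F k z)) (fun z => (χ i).q (H z)) l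
        (closedBall z₀ r) :=
      (tendstoLocallyUniformlyOn_iff_tendstoUniformlyOn_of_compact hcomp).1
        (LimNear_comp (hlim.mono hsub) (hHc.mono hsub)
          (fun z hz => ((χ i).q_an _ (hrU z hz)).continuousAt))
    have h5 : ∀ᶠ k in l, ∀ z ∈ closedBall z₀ r, F k z ∈ (χ i).U := by
      have himg : IsCompact (H '' closedBall z₀ r) := hcomp.image_of_continuousOn (hHc.mono hsub)
      obtain ⟨ρ', hρ', hthick⟩ := himg.exists_thickening_subset_open (χ i).isOpen_U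
        (by rintro _ ⟨z, hz, rfl⟩; exact hrU z hz)
      filter_upwards [Metric.tendstoUniformlyOn_iff.1 h4 ρ' hρ'] with k hk z hz
      refine hthick ?_
      rw [Metric.mem_thickening_iff]
      exact ⟨H z, ⟨z, hz, rfl⟩, by rw [dist_comm]; exact hk z hz⟩
    -- the constant for the bounded coordinate
    let B : ℝ := max (m * (2 : ℝ) ^ (1 / (m : ℝ)) / r) (2 / r)
    obtain ⟨η, hη, hη1, hη2⟩ := LimNear_small (C := C) (B := B) (r := r) hm hκ hε
    have h6 : ∀ᶠ k in l, ∀ z ∈ closedBall z₀ r,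
        dist ((χ i).q (H z)) ((χ i).q (F k z)) < η := Metric.tendstoUniformlyOn_iff.1 h3 η hη
    filter_upwards [hF, h5, h6] with k hk1 hk2 hk3
    by_cases hpos : 0 < nearG Ω χ nd P Q D δ i (F k z₀) (deriv (F k) z₀)
    swap
    · linarith [not_lt.1 hpos]
    obtain ⟨g1, g2, g3, g4⟩ := mem_of_nearG_pos hpos
    rw [nearG_of_mem g1 g2 g3 g4]
    have hzr : z₀ ∈ closedBall z₀ r := mem_closedBall_self hr.le
    have hFd : ∀ z ∈ closedBall z₀ r, DifferentiableAt ℂ (F k) z := fun z hz =>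
      hk1.1.differentiableAt (isOpen_ball.mem_nhds (hsub hz))
    have hFX : ∀ z ∈ closedBall z₀ r, F k z ∈ X := fun z hz => hK.subset (hk1.2 z (hsub hz))
    have hqd : ∀ z ∈ closedBall z₀ r, DifferentiableAt ℂ (fun z => (χ i).q (F k z)) z :=
      fun z hz => DifferentiableAt.comp (g := (χ i).q) (f := F k) z
        ((χ i).q_an _ (hk2 z hz)).differentiableAt (hFd z hz)
    have hq1 : ∀ z ∈ closedBall z₀ r, DifferentiableAt ℂ (fun z => ((χ i).q (F k z)).1) z :=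
      fun z hz => (hqd z hz).fst
    have hq2 : ∀ z ∈ closedBall z₀ r, DifferentiableAt ℂ (fun z => ((χ i).q (F k z)).2) z :=
      fun z hz => (hqd z hz).snd
    have hder : fderiv ℂ (χ i).q (F k z₀) (deriv (F k) z₀) =
        deriv (fun z => (χ i).q (F k z)) z₀ := by
      have h7 := (((χ i).q_an _ g2).differentiableAt.hasFDerivAt).comp_hasDerivAt z₀
        (hFd z₀ hzr).hasDerivAt
      exact h7.deriv.symm
    have hder1 : (fderiv ℂ (χ i).q (F k z₀) (deriv (F k) z₀)).1 =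
        deriv (fun z => ((χ i).q (F k z)).1) z₀ := by
      rw [hder]
      exact ((ContinuousLinearMap.fst ℂ ℂ ℂ).hasFDerivAt.comp_hasDerivAt z₀
        (hqd z₀ hzr).hasDerivAt).deriv.symm
    have hder2 : (fderiv ℂ (χ i).q (F k z₀) (deriv (F k) z₀)).2 =
        deriv (fun z => ((χ i).q (F k z)).2) z₀ := by
      rw [hder]
      exact ((ContinuousLinearMap.snd ℂ ℂ ℂ).hasFDerivAt.comp_hasDerivAt z₀
        (hqd z₀ hzr).hasDerivAt).deriv.symm
    have hσK : ∀ z ∈ closedBall z₀ r, (χ i).σ ((χ i).q (F k z)) ∈ K := fun z hz =>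
      (Chart.sigma_mem_iff (χ i) (hFX z hz) (hk2 z hz) (S := K) hK.smul_mem).2 (hk1.2 z (hsub hz))
    have hball : ∀ z ∈ closedBall z₀ r, (χ i).q (F k z) ∈ ball (0 : ℂ × ℂ) 2 := fun z hz =>
      ((χ i).surj _ (hFX z hz) (hk2 z hz)).1
    have hne : ∀ z ∈ closedBall z₀ r, ¬ ((d.1 = true ∧ ((χ i).q (F k z)).1 = 0) ∨
        (d.2 = true ∧ ((χ i).q (F k z)).2 = 0)) := fun z hz h' =>
      (hd _ (hball z hz)).2 h' (hσK z hz)
    have hn1 : d.1 = true → ∀ z ∈ closedBall z₀ r, ((χ i).q (F k z)).1 ≠ 0 :=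
      fun h' z hz h'' => hne z hz (Or.inl ⟨h', h''⟩)
    have hn2 : d.2 = true → ∀ z ∈ closedBall z₀ r, ((χ i).q (F k z)).2 ≠ 0 :=
      fun h' z hz h'' => hne z hz (Or.inr ⟨h', h''⟩)
    have hb1 : ∀ z ∈ closedBall z₀ r, ‖((χ i).q (F k z)).1‖ ≤ 2 := fun z hz =>
      (norm_fst_le _).trans (mem_ball_zero_iff.1 (hball z hz)).le
    have hb2 : ∀ z ∈ closedBall z₀ r, ‖((χ i).q (F k z)).2‖ ≤ 2 := fun z hz =>
      (norm_snd_le _).trans (mem_ball_zero_iff.1 (hball z hz)).le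
    have hp1 : ‖((χ i).q (F k z₀)).1‖ ≤ 1 := (norm_fst_le _).trans g3
    have hp2 : ‖((χ i).q (F k z₀)).2‖ ≤ 1 := (norm_snd_le _).trans g3
    have hκ1 : P.κ ≤ 1 := by linarith [hP.κ_le]
    have hBnn : 0 ≤ B := le_trans (by positivity) (le_max_right _ _)
    have hEnn : 0 ≤ max (m * η ^ (1 / (m : ℝ)) / r) (η / r) :=
      le_trans (by positivity) (le_max_right _ _)
    have hdist : ∀ z ∈ closedBall z₀ r,
        ‖((χ i).q (H z)).1 - ((χ i).q (F k z)).1‖ ≤ η ∧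
        ‖((χ i).q (H z)).2 - ((χ i).q (F k z)).2‖ ≤ η := by
      intro z hz
      have h8 := hk3 z hz
      rw [dist_eq_norm] at h8
      exact ⟨(norm_fst_le _).trans h8.le, (norm_snd_le _).trans h8.le⟩
    have hlam : 0 < 1 / (m : ℝ) - P.κ := by linarith
    -- bounds valid in both cases
    have r1 : LimNear_g m d.1 ‖((χ i).q (F k z₀)).1‖ *
        ‖(fderiv ℂ (χ i).q (F k z₀) (deriv (F k) z₀)).1‖ ≤ B := by
      rw [hder1]
      exact LimNear_root hr hm hq1 hn1 hb1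
    have r2 : LimNear_g m d.2 ‖((χ i).q (F k z₀)).2‖ *
        ‖(fderiv ℂ (χ i).q (F k z₀) (deriv (F k) z₀)).2‖ ≤ B := by
      rw [hder2]
      exact LimNear_root hr hm hq2 hn2 hb2
    have f1 : LimNear_g m d.1 ‖((χ i).q (F k z₀)).1‖ * ‖((χ i).q (F k z₀)).1‖ ^ (1 - P.κ) ≤ 1 :=
      LimNear_g_le_one hm hκ hκ1 (norm_nonneg _) hp1
        (fun h' => norm_pos_iff.2 (hn1 h' z₀ hzr))
    have f1' : 0 ≤ LimNear_g m d.1 ‖((χ i).q (F k z₀)).1‖ *
        ‖((χ i).q (F k z₀)).1‖ ^ (1 - P.κ) :=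
      mul_nonneg (LimNear_g_nonneg _ _ (norm_nonneg _)) (Real.rpow_nonneg (norm_nonneg _) _)
    have f2 : LimNear_g m d.2 ‖((χ i).q (F k z₀)).2‖ *
        (if nd i = true then ‖((χ i).q (F k z₀)).2‖ ^ (1 - P.κ) else 1) ≤ 1 := by
      split_ifs with hnd
      · exact LimNear_g_le_one hm hκ hκ1 (norm_nonneg _) hp2
          (fun h' => norm_pos_iff.2 (hn2 h' z₀ hzr))
      · unfold LimNear_g
        rw [if_neg (fun h' => hnd (hdn h')), one_mul]
    have f2' : 0 ≤ LimNear_g m d.2 ‖((χ i).q (F k z₀)).2‖ *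
        (if nd i = true then ‖((χ i).q (F k z₀)).2‖ ^ (1 - P.κ) else 1) := by
      refine mul_nonneg (LimNear_g_nonneg _ _ (norm_nonneg _)) ?_
      split_ifs
      · exact Real.rpow_nonneg (norm_nonneg _) _
      · exact zero_le_one
    have hEst := LimNear_est (Ω := Ω) (χ := χ i) (nd := nd i) hP hC0 hC (d := d)
      (p := (χ i).q (F k z₀)) (w := fderiv ℂ (χ i).q (F k z₀) (deriv (F k) z₀)) g3 (hσK z₀ hzr)
    rcases htype with ⟨t1, t2⟩ | ⟨t1, t2⟩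
    · -- the first coordinate tends to zero
      have hs1 : ∀ z ∈ closedBall z₀ r, ‖((χ i).q (F k z)).1‖ ≤ η := by
        intro z hz
        have := (hdist z hz).1
        rwa [t2 z hz, zero_sub, norm_neg] at this
      have r3 : LimNear_g m d.1 ‖((χ i).q (F k z₀)).1‖ *
          ‖(fderiv ℂ (χ i).q (F k z₀) (deriv (F k) z₀)).1‖ ≤
          max (m * η ^ (1 / (m : ℝ)) / r) (η / r) := by
        rw [hder1]
        exact LimNear_root hr hm hq1 hn1 hs1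
      have f3 : LimNear_g m d.1 ‖((χ i).q (F k z₀)).1‖ * ‖((χ i).q (F k z₀)).1‖ ^ (1 - P.κ) ≤
          η ^ (1 / (m : ℝ) - P.κ) := by
        rw [t1, LimNear_g_true hm (norm_pos_iff.2 (hn1 t1 z₀ hzr))]
        exact Real.rpow_le_rpow (norm_nonneg _) (hs1 z₀ hzr) hlam.le
      have u1 := mul_le_mul r3 f2 f2' hEnn
      have u2 := mul_le_mul r2 f3 f1' hBnn
      rw [mul_one] at u1
      have hE := hEst (max (max (m * η ^ (1 / (m : ℝ)) / r) (η / r))
        (B * η ^ (1 / (m : ℝ) - P.κ))) 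
        (u1.trans (le_max_left _ _)) (u2.trans (le_max_right _ _))
      refine lt_of_le_of_lt hE ?_
      rcases max_cases (max (m * η ^ (1 / (m : ℝ)) / r) (η / r))
        (B * η ^ (1 / (m : ℝ) - P.κ)) with ⟨h', _⟩ | ⟨h', _⟩
      · rw [h']; exact hη1
      · rw [h']; exact hη2
    · -- the second coordinate tends to zero
      have hnd : nd i = true := hdn t1
      have hs1 : ∀ z ∈ closedBall z₀ r, ‖((χ i).q (F k z)).2‖ ≤ η := by
        intro z hz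
        have := (hdist z hz).2
        rwa [t2 z hz, zero_sub, norm_neg] at this
      have r3 : LimNear_g m d.2 ‖((χ i).q (F k z₀)).2‖ *
          ‖(fderiv ℂ (χ i).q (F k z₀) (deriv (F k) z₀)).2‖ ≤
          max (m * η ^ (1 / (m : ℝ)) / r) (η / r) := by
        rw [hder2]
        exact LimNear_root hr hm hq2 hn2 hs1
      have f3 : LimNear_g m d.2 ‖((χ i).q (F k z₀)).2‖ *
          (if nd i = true then ‖((χ i).q (F k z₀)).2‖ ^ (1 - P.κ) else 1) ≤
          η ^ (1 / (m : ℝ) - P.κ) := by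
        rw [if_pos hnd, t1, LimNear_g_true hm (norm_pos_iff.2 (hn2 t1 z₀ hzr))]
        exact Real.rpow_le_rpow (norm_nonneg _) (hs1 z₀ hzr) hlam.le
      have u1 := mul_le_mul r3 f1 f1' hEnn
      have u2 := mul_le_mul r1 f3 f2' hBnn
      rw [mul_one] at u1
      have hE := hEst (max (max (m * η ^ (1 / (m : ℝ)) / r) (η / r))
        (B * η ^ (1 / (m : ℝ) - P.κ))) 
        (u2.trans (le_max_right _ _)) (u1.trans (le_max_left _ _))
      refine lt_of_le_of_lt hE ?_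
      rcases max_cases (max (m * η ^ (1 / (m : ℝ)) / r) (η / r))
        (B * η ^ (1 / (m : ℝ) - P.κ)) with ⟨h', _⟩ | ⟨h', _⟩
      · rw [h']; exact hη1
      · rw [h']; exact hη2

private theorem LimNear_pair {A B : Type*} [TopologicalSpace A] [TopologicalSpace B]
    {f : A → B → ℝ} {a : A} {b : B} (h : ContinuousAt (fun p : A × B => f p.1 p.2) (a, b))
    {l : Filter ℕ} {x : ℕ → A} {y : ℕ → B} (hx : Tendsto x l (𝓝 a)) (hy : Tendsto y l (𝓝 b)) :
    Tendsto (fun k => f (x k) (y k)) l (𝓝 (f a b)) :=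
  h.tendsto.comp (hx.prodMk_nhds hy)

/-- the far piece: `rho` and `fs` are continuous, `rho (H z₀) = 0`, and the derivatives
converge -/
theorem lim_far (hX : IsCone X) (hK : IsOpenPart X K) (hQ : IsEq X T Q D)
    (hKT : ∀ x ∈ X, x ∉ K → x ∈ T) (hM' : 1 ≤ M') (l : Filter ℕ) (hl : l.NeBot)
    {F : ℕ → ℂ → EN N} {H : ℂ → EN N} {z₀ : ℂ} {s : ℝ} (hs : 0 < s)
    (hF : ∀ᶠ k in l, Curve K (ball z₀ s) (F k))
    (hlim : TendstoLocallyUniformlyOn F H l (ball z₀ s)) (h0 : H z₀ ≠ 0)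
    (hH : ∀ z ∈ ball z₀ s, H z ∉ K) {ε : ℝ} (hε : 0 < ε) :
    ∀ᶠ k in l, rho Q D (F k z₀) ^ M' * fs (F k z₀) (deriv (F k) z₀) < ε := by
  have hev : ∀ᶠ k in l, DifferentiableOn ℂ (F k) (ball z₀ s) := hF.mono fun k hk => hk.1
  have hz₀ : z₀ ∈ ball z₀ s := mem_ball_self hs
  have hconv : Tendsto (fun k => F k z₀) l (𝓝 (H z₀)) := hlim.tendsto_at hz₀
  have hconv' : Tendsto (fun k => deriv (F k) z₀) l (𝓝 (deriv H z₀)) :=
    (hlim.deriv hev isOpen_ball).tendsto_at hz₀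
  have hHX : H z₀ ∈ X := by
    have : H z₀ ∈ insert (0 : EN N) X := by
      refine hX.closed.mem_of_tendsto hconv ?_
      filter_upwards [hF] with k hk
      exact Set.mem_insert_of_mem _ (hK.subset (hk.2 z₀ hz₀))
    exact this.resolve_left h0
  have hT : H z₀ ∈ T := hKT _ hHX (hH z₀ hz₀)
  have hQ0 : Q (H z₀) = 0 := ((hQ.mem_iff _).1 hT).2
  have hrho : rho Q D (H z₀) = 0 := (rho_eq_zero_iff h0).2 hQ0
  have t1 : Tendsto (fun k => rho Q D (F k z₀)) l (𝓝 (rho Q D (H z₀))) :=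
    (continuousAt_rho hQ.analytic h0).tendsto.comp hconv
  have t2 : Tendsto (fun k => fs (F k z₀) (deriv (F k) z₀)) l (𝓝 (fs (H z₀) (deriv H z₀))) := by
    exact LimNear_pair (f := fs) (continuousAt_fs h0 (deriv H z₀)) hconv hconv'
  have t3 : Tendsto (fun k => rho Q D (F k z₀) ^ M' * fs (F k z₀) (deriv (F k) z₀)) l
      (𝓝 (rho Q D (H z₀) ^ M' * fs (H z₀) (deriv H z₀))) := (t1.pow M').mul t2
  rw [hrho, zero_pow (by omega : M' ≠ 0), zero_mul] at t3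
  exact t3.eventually (gt_mem_nhds hε)

end Pool.Agent.H14.PP

end

section

/-!
# The metric theorem
-/

open Topology Filter Metric

namespace Pool.Agent.H14.PP

open Pool.Agent.H36.BP

variable {N : ℕ} {W : Type*} [NormedAddCommGroup W] [InnerProductSpace ℂ W]
  {X K T : Set (EN N)} {m j : ℕ} {Q : EN N → W} {D : ℕ}

/-- a common upper bound -/
lemma exists_ub {n : ℕ} (f : Fin n → ℝ) : ∃ C : ℝ, 1 ≤ C ∧ ∀ i, f i ≤ C := by
  refine ⟨1 + ∑ i, |f i|, ?_, fun i => ?_⟩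
  · have : 0 ≤ ∑ i, |f i| := Finset.sum_nonneg fun i _ => abs_nonneg _
    linarith
  · have h1 : |f i| ≤ ∑ i, |f i| :=
      Finset.single_le_sum (f := fun i => |f i|) (fun i _ => abs_nonneg _) (Finset.mem_univ i)
    have h2 := le_abs_self (f i)
    linarith

/-- a common positive lower bound -/
lemma exists_lb {n : ℕ} (f : Fin n → ℝ) (hf : ∀ i, 0 < f i) :
    ∃ c : ℝ, 0 < c ∧ c ≤ 1 ∧ ∀ i, c ≤ f i := by
  obtain ⟨C, hC, hCf⟩ := exists_ub fun i => (f i)⁻¹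
  refine ⟨C⁻¹, by positivity, inv_le_one_of_one_le₀ hC, fun i => ?_⟩
  exact inv_le_of_inv_le₀ (hf i) (hCf i)

/-- a common upper bound for natural numbers -/
lemma exists_nat_ub {n : ℕ} (f : Fin n → ℕ) : ∃ M : ℕ, ∀ i, f i ≤ M :=
  ⟨Finset.univ.sup f, fun i => Finset.le_sup (Finset.mem_univ i)⟩

section chart

variable {Ω : Form K m j} {n : ℕ} {χ : Fin n → Chart X} {nd : Fin n → Bool} {P : Par}
  {M' : ℕ} {δ c₁ : ℝ}

/-- upper bound of the near metrics -/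
lemma near_fs_upper (hX : IsCone X) (hK : IsOpenPart X K) (hQ : IsEq X T Q D) (hm : 1 ≤ m)
    (hΩ : Ω.PoleBound X) (hP : ConvPar P) {d : Fin n → Bool × Bool}
    (h : ∀ i, HasType T (χ i) (nd i)) (hd : ∀ i, DType K (χ i) (d i))
    (hdn : ∀ i, (d i).2 = true → nd i = true) {CE : ℝ}
    (hCE : ∀ i, ∀ x ∈ X, x ∈ (χ i).U → ‖(χ i).q x‖ ≤ 1 → ∀ v,
      ‖fderiv ℂ (χ i).q x v‖ ≤ CE * fs x v) :
    ∃ C : ℝ, 0 < C ∧ ∀ (δ : ℝ) (i : Fin n), ∀ x ∈ K, ∀ v,
      rho Q D x ^ 2 * nearG Ω χ nd P Q D δ i x v ≤ C * fs x v := by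
  choose CN hCN hup using fun i => near_upper hX hQ hm Ω hΩ (χ i) hP (h i) (hd i) (hdn i)
  obtain ⟨C, hC1, hC⟩ := exists_ub CN
  obtain ⟨CE', hCE1, hCE'⟩ : ∃ CE', 1 ≤ CE' ∧ CE ≤ CE' := ⟨max CE 1, le_max_right _ _,
    le_max_left _ _⟩
  refine ⟨C * CE', by positivity, fun δ i x hx v => ?_⟩
  have hfs := fs_nonneg x v
  by_cases hmem : x ∈ X ∧ x ∈ (χ i).U ∧ ‖(χ i).q x‖ ≤ 1 ∧ rho Q D x ≤ δ
  · obtain ⟨h1, h2, h3, h4⟩ := hmem
    rw [nearG_of_mem h1 h2 h3 h4]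
    have h5 := hup i ((χ i).q x) (by simpa using h3)
      (((χ i).sigma_mem_iff h1 h2 hK.smul_mem).mpr hx) (fderiv ℂ (χ i).q x v)
    rw [(χ i).rho_sigma hQ.smul h1 h2] at h5
    refine h5.trans ?_
    have h6 := hCE i x h1 h2 h3 v
    have h7 : CE * fs x v ≤ CE' * fs x v := by gcongr
    calc CN i * ‖fderiv ℂ (χ i).q x v‖ ≤ C * (CE' * fs x v) := by
          have := hC i
          have := (hCN i).le
          gcongr
          exact h6.trans h7
      _ = C * CE' * fs x v := by ring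
  · have h5 : nearG Ω χ nd P Q D δ i x v = 0 := by
      unfold nearG
      rw [if_neg hmem]
    rw [h5, mul_zero]
    positivity

/-- lower bound of the near metrics along curves -/
lemma near_fs_lower (hX : IsCone X) (hK : IsOpenPart X K) (hKT : ∀ x ∈ X, x ∉ K → x ∈ T)
    (hQ : IsEq X T Q D) (hm : 1 ≤ m) (hΩ : Ω.NoZeroOff T)
    (hΩ' : Ω.PoleBound X) (hP : ConvPar P) {d : Fin n → Bool × Bool}
    (h : ∀ i, HasType T (χ i) (nd i)) (hd : ∀ i, DType K (χ i) (d i))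
    (hdn : ∀ i, (d i).2 = true → nd i = true) {CE : ℝ}
    (hCE : ∀ i, ∀ (F : ℂ → EN N) (z₀ : ℂ), CurveAt X F z₀ → F z₀ ∈ (χ i).U →
      ‖(χ i).q (F z₀)‖ ≤ 1 →
        fs (F z₀) (deriv F z₀) ≤ CE * ‖deriv (fun z => (χ i).q (F z)) z₀‖) :
    ∃ (M₀ : ℕ) (c : ℝ), 0 < c ∧ ∀ (δ : ℝ), δ ≤ 1 → ∀ (i : Fin n) (F : ℂ → EN N) (z₀ : ℂ),
      CurveAt K F z₀ → F z₀ ∈ (χ i).U → ‖(χ i).q (F z₀)‖ ≤ 1 → rho Q D (F z₀) ≤ δ →
      c * rho Q D (F z₀) ^ M₀ * fs (F z₀) (deriv F z₀) ≤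
        nearG Ω χ nd P Q D δ i (F z₀) (deriv F z₀) := by
  choose Ms cs hcs hlow using fun i =>
    near_lower hX hK hKT hQ hm Ω hΩ hΩ' (χ i) hP (h i) (hd i) (hdn i)
  obtain ⟨M₀, hM₀⟩ := exists_nat_ub Ms
  obtain ⟨c, hc, -, hcc⟩ := exists_lb cs hcs
  obtain ⟨CE', hCE1, hCE'⟩ : ∃ CE', 1 ≤ CE' ∧ CE ≤ CE' := ⟨max CE 1, le_max_right _ _,
    le_max_left _ _⟩
  have hCE0 : 0 < CE' := by linarith
  refine ⟨M₀, c / CE', by positivity, fun δ hδ i F z₀ hF hU hq hρ => ?_⟩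
  have hFX : CurveAt X F z₀ := hF.mono hK.subset
  have hρ0 := rho_nonneg Q D (F z₀)
  rw [nearG_of_mem hFX.mem hU hq hρ]
  have h5 := hlow i ((χ i).q (F z₀)) (by simpa using hq)
    (((χ i).sigma_mem_iff hFX.mem hU hK.smul_mem).mpr hF.mem) (fderiv ℂ (χ i).q (F z₀) (deriv F z₀))
  rw [(χ i).rho_sigma hQ.smul hFX.mem hU] at h5
  refine le_trans ?_ h5
  obtain ⟨-, h6, -⟩ := (χ i).curve hX hFX hU
  rw [← h6]
  have h7 := hCE i F z₀ hFX hU hq
  have h8 : fs (F z₀) (deriv F z₀) ≤ CE' * ‖deriv (fun z => (χ i).q (F z)) z₀‖ :=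
    h7.trans (by gcongr)
  have h9 : rho Q D (F z₀) ^ M₀ ≤ rho Q D (F z₀) ^ Ms i :=
    pow_le_pow_of_le_one hρ0 (hρ.trans hδ) (hM₀ i)
  calc c / CE' * rho Q D (F z₀) ^ M₀ * fs (F z₀) (deriv F z₀)
      ≤ c / CE' * rho Q D (F z₀) ^ M₀ * (CE' * ‖deriv (fun z => (χ i).q (F z)) z₀‖) := by gcongr
    _ = c * rho Q D (F z₀) ^ M₀ * ‖deriv (fun z => (χ i).q (F z)) z₀‖ := by field_simp
    _ ≤ cs i * rho Q D (F z₀) ^ Ms i * ‖deriv (fun z => (χ i).q (F z)) z₀‖ := by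
        have h10 := hcc i
        have h11 := (hcs i).le
        have h12 : 0 ≤ ‖deriv (fun z => (χ i).q (F z)) z₀‖ := norm_nonneg _
        have h13 := pow_nonneg hρ0 (Ms i)
        have h14 := pow_nonneg hρ0 M₀
        exact mul_le_mul_of_nonneg_right (mul_le_mul h10 h9 h14 h11) h12

/-- at the boundary of a chart another chart has a larger metric -/
lemma near_boundary (hX : IsCone X) (hK : IsOpenPart X K) (hQ : IsEq X T Q D) {r' : ℝ}
    (hdom : ∀ (i : Fin n) (p w : ℂ × ℂ), ‖p‖ = 1 → small (nd i) p ≤ r' →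
      (χ i).σ p ∈ K → 0 < ACoef Ω (χ i) p * pM (nd i) P p w →
      ∃ k, (χ i).σ p ∈ (χ k).U ∧ ‖(χ k).q ((χ i).σ p)‖ < 1 / 2 ∧
        ACoef Ω (χ i) p * pM (nd i) P p w <
          ACoef Ω (χ k) ((χ k).q ((χ i).σ p)) * pM (nd k) P ((χ k).q ((χ i).σ p))
            (fderiv ℂ (fun y => (χ k).q ((χ i).σ y)) p w))
    {δ : ℝ} (hsm : ∀ i, ∀ p ∈ closedBall (0 : ℂ × ℂ) 1, rho Q D ((χ i).σ p) ≤ δ →
      small (nd i) p ≤ r')
    {i : Fin n} {F : ℂ → EN N} {z₀ : ℂ} (hF : CurveAt K F z₀)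
    (hpos : 0 < nearG Ω χ nd P Q D δ i (F z₀) (deriv F z₀))
    (hq : ‖(χ i).q (F z₀)‖ = 1) :
    ∃ k, nearG Ω χ nd P Q D δ i (F z₀) (deriv F z₀) <
      nearG Ω χ nd P Q D δ k (F z₀) (deriv F z₀) := by
  have hFX : CurveAt X F z₀ := hF.mono hK.subset
  obtain ⟨h1, h2, h3, h4⟩ := mem_of_nearG_pos hpos
  rw [nearG_of_mem h1 h2 h3 h4] at hpos ⊢
  have hρσ := (χ i).rho_sigma hQ.smul h1 h2
  have hσK := ((χ i).sigma_mem_iff h1 h2 hK.smul_mem).mpr hF.mem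
  obtain ⟨k, hk1, hk2, hk3⟩ := hdom i ((χ i).q (F z₀)) _ hq
    (hsm i _ (by simpa using h3) (by rw [hρσ]; exact h4)) hσK hpos
  refine ⟨k, ?_⟩
  obtain ⟨hqan, hqd, c, hc, hc0, hev⟩ := (χ i).curve hX hFX h2
  obtain ⟨hball, hFz⟩ := hev.self_of_nhds
  -- `F z₀` is in the chart `k`
  have hUk : F z₀ ∈ (χ k).U := by
    rw [hFz]
    exact (χ k).smul_U _ hk1 _ hc0
  have hqk : (χ k).q (F z₀) = (χ k).q ((χ i).σ ((χ i).q (F z₀))) := by
    conv_lhs => rw [hFz]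
    exact (χ k).q_smul _ hk1 _ hc0
  have hqk1 : ‖(χ k).q (F z₀)‖ ≤ 1 := by
    rw [hqk]
    linarith
  rw [nearG_of_mem h1 hUk hqk1 h4, hqk]
  refine lt_of_lt_of_eq hk3 ?_
  congr 2
  -- the derivative
  have hev2 : (fun z => (χ k).q (F z)) =ᶠ[𝓝 z₀]
      fun z => (χ k).q ((χ i).σ ((χ i).q (F z))) := by
    have h5 : ∀ᶠ z in 𝓝 z₀, F z ∈ (χ k).U :=
      hF.1.continuousAt.eventually ((χ k).isOpen_U.mem_nhds hUk)
    have h6 : ∀ᶠ z in 𝓝 z₀, c z ≠ 0 := hc.continuousAt.eventually_ne hc0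
    filter_upwards [hev, h5, h6] with z h7 h8 h9
    obtain ⟨h10, h11⟩ := h7
    have h12 : (χ i).σ ((χ i).q (F z)) = (c z)⁻¹ • F z := by
      conv_rhs => rw [h11]
      rw [smul_smul, inv_mul_cancel₀ h9, one_smul]
    rw [h12, (χ k).q_smul _ h8 _ (inv_ne_zero h9)]
  obtain ⟨-, hqkd, -⟩ := (χ k).curve hX hFX hUk
  rw [← hqkd, hev2.deriv_eq, ← hqd]
  have hτ : DifferentiableAt ℂ (fun y => (χ k).q ((χ i).σ y)) ((χ i).q (F z₀)) := by
    refine (AnalyticAt.fun_comp ?_ ((χ i).σ_an _ hball)).differentiableAt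
    exact (χ k).q_an _ hk1
  exact (fderiv_comp_deriv (f := fun z => (χ i).q (F z)) z₀ hτ hqan.differentiableAt).symm

end chart

end Pool.Agent.H14.PP

end

section

/-!
# BPL GPc: Jacobians of functions which are regular along a prime divisor; the order of a form with logarithmic poles along any curve
-/

set_option autoImplicit false

noncomputable section

namespace Pool.Agent.H36.BPL

open Pool.Agent.H68.KR
open Pool.Agent.H23.Fano (Form regularForms PrimeDivisorOver)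
open Pool.Agent.H17LG.Variety (PoleAtMost)

variable {K : Type} [Field K] [Algebra ℂ K]

/-- evaluation of polynomials in one more variable -/
theorem aeval_cons {n : ℕ} (y : Fin n → K) (t : K) (p : MvPolynomial (Fin (n + 1)) ℂ) :
    MvPolynomial.aeval (Fin.cons t y : Fin (n + 1) → K) p =
      (MvPolynomial.finSuccEquiv ℂ n p).eval₂ (MvPolynomial.aeval y : MvPolynomial (Fin n) ℂ →ₐ[ℂ] K).toRingHom t := by
  induction p using MvPolynomial.induction_on with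
  | C c =>
    rw [MvPolynomial.aeval_C]
    have h1 : MvPolynomial.finSuccEquiv ℂ n (MvPolynomial.C c) = Polynomial.C (MvPolynomial.C c) := by
      rw [MvPolynomial.finSuccEquiv_apply, MvPolynomial.eval₂Hom_C]
      rfl
    rw [h1, Polynomial.eval₂_C]
    simp
  | add p q hp hq => rw [map_add, hp, hq, map_add, Polynomial.eval₂_add]
  | mul_X p i hp =>
    rw [map_mul, hp, map_mul, Polynomial.eval₂_mul, MvPolynomial.aeval_X]
    congr 1
    refine Fin.cases ?_ (fun j => ?_) i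
    · rw [MvPolynomial.finSuccEquiv_X_zero, Polynomial.eval₂_X, Fin.cons_zero]
    · rw [MvPolynomial.finSuccEquiv_X_succ, Polynomial.eval₂_C, Fin.cons_succ]
      simp

/-- the order of a polynomial in elements of the valuation ring -/
theorem ord_aeval_nonneg {ι : Type} (D : PrimeDivisorOver K 2) {s : ι → K} (hs : ∀ i, 0 ≤ D.ord (s i)) (p : MvPolynomial ι ℂ) :
    0 ≤ D.ord (MvPolynomial.aeval s p) := by
  induction p using MvPolynomial.induction_on with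
  | C c =>
    rw [MvPolynomial.aeval_C]
    exact D.ord_const c
  | add p q hp hq =>
    rw [map_add]
    exact D.ord.map_le_add hp hq
  | mul_X p i hp =>
    rw [map_mul, MvPolynomial.aeval_X, D.ord.map_mul]
    exact add_nonneg hp (hs i)

theorem ord_eval₂_nonneg {R : Type} [CommRing R] (D : PrimeDivisorOver K 2) (f : R →+* K) (hf : ∀ r, 0 ≤ D.ord (f r)) {a : K}
    (ha : 0 ≤ D.ord a) (p : Polynomial R) : 0 ≤ D.ord (p.eval₂ f a) := by
  induction p using Polynomial.induction_on' with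
  | add p q hp hq =>
    rw [Polynomial.eval₂_add]
    exact D.ord.map_le_add hp hq
  | monomial n c =>
    rw [Polynomial.eval₂_monomial, D.ord.map_mul, D.ord.map_pow]
    exact add_nonneg (hf c) (nsmul_nonneg ha n)

/-- two elements of the valuation ring are algebraically dependent modulo the maximal ideal -/
theorem exists_rel {z : Fin 2 → K} (hz : IsTranscendenceBasis ℂ z) (D : PrimeDivisorOver K 2) {s : Fin 1 → K} (hs : ∀ i, 0 ≤ D.ord (s i))
    {a : K} (ha : 0 ≤ D.ord a) : ∃ p : Polynomial (MvPolynomial (Fin 1) ℂ), p ≠ 0 ∧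
      0 < D.ord (p.eval₂ (MvPolynomial.aeval s : MvPolynomial (Fin 1) ℂ →ₐ[ℂ] K).toRingHom a) := by
  obtain ⟨t, ht⟩ := D.exists_uniformizer
  have ht0 : t ≠ 0 := by
    rintro rfl
    rw [D.ord.map_zero] at ht
    exact absurd ht (by simp)
  set y : Fin 2 → K := Fin.cons a s with hy
  have hyn : ∀ i, 0 ≤ D.ord (y i) := by
    intro i
    refine Fin.cases ?_ (fun j => ?_) i
    · rw [hy, Fin.cons_zero]; exact ha
    · rw [hy, Fin.cons_succ]; exact hs j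
  -- three elements are dependent
  have hdep : ¬ AlgebraicIndependent ℂ (Fin.cons t y : Fin 3 → K) := by
    intro h
    have h1 := h.cardinalMk_le_trdeg
    rw [← hz.cardinalMk_eq_trdeg] at h1
    simp only [Cardinal.mk_fin] at h1
    exact absurd (by exact_mod_cast h1) (show ¬ (3 ≤ 2) by norm_num)
  obtain ⟨q, hq0, hq⟩ : ∃ q : MvPolynomial (Fin 3) ℂ, MvPolynomial.aeval (Fin.cons t y : Fin 3 → K) q = 0 ∧ q ≠ 0 := by
    rw [algebraicIndependent_iff] at hdep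
    push Not at hdep
    exact hdep
  rw [aeval_cons] at hq0
  set Q : Polynomial (MvPolynomial (Fin 2) ℂ) := MvPolynomial.finSuccEquiv ℂ 2 q with hQ
  have hQ0 : Q ≠ 0 := by
    intro h
    apply hq
    exact (MvPolynomial.finSuccEquiv ℂ 2).injective (by rw [← hQ, h, map_zero])
  -- divide by the power of `t`
  obtain ⟨k, Q', hQQ', hQ'0⟩ : ∃ (k : ℕ) (Q' : Polynomial (MvPolynomial (Fin 2) ℂ)), Q = Polynomial.X ^ k * Q' ∧ Q'.coeff 0 ≠ 0 := by
    have h1 : Polynomial.X ^ Q.natTrailingDegree ∣ Q := by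
      rw [Polynomial.X_pow_dvd_iff]
      intro d hd
      exact Polynomial.coeff_eq_zero_of_lt_natTrailingDegree hd
    obtain ⟨Q', hQ'⟩ := h1
    refine ⟨_, Q', hQ', fun h0 => ?_⟩
    have h2 : Q.coeff Q.natTrailingDegree = Q'.coeff 0 := by
      have := Polynomial.coeff_X_pow_mul Q' Q.natTrailingDegree 0
      rw [zero_add, ← hQ'] at this
      exact this
    rw [h0] at h2
    exact hQ0 (Polynomial.trailingCoeff_eq_zero.1 h2)
  set ev : MvPolynomial (Fin 2) ℂ →+* K := (MvPolynomial.aeval y : MvPolynomial (Fin 2) ℂ →ₐ[ℂ] K).toRingHom with hev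
  have hevn : ∀ r, 0 ≤ D.ord (ev r) := fun r => ord_aeval_nonneg D hyn r
  have h1 : Q'.eval₂ ev t = 0 := by
    rw [hQQ', Polynomial.eval₂_mul, Polynomial.eval₂_pow, Polynomial.eval₂_X] at hq0
    exact (mul_eq_zero.1 hq0).resolve_left (pow_ne_zero _ ht0)
  have h2 : 0 < D.ord (ev (Q'.coeff 0)) := by
    have h3 : ev (Q'.coeff 0) = - (t * Q'.divX.eval₂ ev t) := by
      have h4 := congrArg (Polynomial.eval₂ ev t) (Polynomial.X_mul_divX_add Q')
      rw [Polynomial.eval₂_add, Polynomial.eval₂_mul, Polynomial.eval₂_X, Polynomial.eval₂_C, h1] at h4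
      linear_combination h4
    rw [h3, AddValuation.map_neg, D.ord.map_mul, ht]
    have h5 := ord_eval₂_nonneg D ev hevn (by rw [ht]; exact zero_le_one) Q'.divX (a := t)
    calc (0 : WithTop ℤ) < 1 := by exact_mod_cast one_pos
      _ = 1 + 0 := (add_zero _).symm
      _ ≤ 1 + D.ord (Q'.divX.eval₂ ev t) := by gcongr
  refine ⟨MvPolynomial.finSuccEquiv ℂ 1 (Q'.coeff 0), ?_, ?_⟩
  · intro h
    apply hQ'0
    exact (MvPolynomial.finSuccEquiv ℂ 1).injective (by rw [h, map_zero])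
  · rw [← aeval_cons]
    exact h2

/-- a relation whose derivative is a unit -/
theorem exists_sep {z : Fin 2 → K} (hz : IsTranscendenceBasis ℂ z) (D : PrimeDivisorOver K 2) {s : Fin 1 → K} (hs : ∀ i, 0 ≤ D.ord (s i))
    (hs' : ∀ p : MvPolynomial (Fin 1) ℂ, p ≠ 0 → D.ord (MvPolynomial.aeval s p) = 0)
    {a : K} (ha : 0 ≤ D.ord a) : ∃ p : Polynomial (MvPolynomial (Fin 1) ℂ),
      0 < D.ord (p.eval₂ (MvPolynomial.aeval s : MvPolynomial (Fin 1) ℂ →ₐ[ℂ] K).toRingHom a) ∧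
      D.ord (p.derivative.eval₂ (MvPolynomial.aeval s : MvPolynomial (Fin 1) ℂ →ₐ[ℂ] K).toRingHom a) = 0 := by
  classical
  set ev : MvPolynomial (Fin 1) ℂ →+* K := (MvPolynomial.aeval s : MvPolynomial (Fin 1) ℂ →ₐ[ℂ] K).toRingHom with hev
  have hevn : ∀ r, 0 ≤ D.ord (ev r) := fun r => ord_aeval_nonneg D hs r
  have hex : ∃ n : ℕ, ∃ p : Polynomial (MvPolynomial (Fin 1) ℂ), p ≠ 0 ∧ 0 < D.ord (p.eval₂ ev a) ∧ p.natDegree = n := by
    obtain ⟨p, h1, h2⟩ := exists_rel hz D hs ha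
    exact ⟨_, p, h1, h2, rfl⟩
  obtain ⟨p, hp0, hp, hpn⟩ := Nat.find_spec hex
  have hmin : ∀ q : Polynomial (MvPolynomial (Fin 1) ℂ), q ≠ 0 → 0 < D.ord (q.eval₂ ev a) → p.natDegree ≤ q.natDegree := by
    intro q hq1 hq2
    rw [hpn]
    exact Nat.find_min' hex ⟨q, hq1, hq2, rfl⟩
  refine ⟨p, hp, ?_⟩
  have hdeg : p.natDegree ≠ 0 := by
    intro h0
    obtain ⟨c, rfl⟩ := Polynomial.natDegree_eq_zero.1 h0
    have hc : c ≠ 0 := by
      rintro rfl
      exact hp0 (map_zero _)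
    rw [Polynomial.eval₂_C] at hp
    have h1 : D.ord (ev c) = 0 := hs' c hc
    rw [h1] at hp
    exact lt_irrefl _ hp
  have hd0 : p.derivative ≠ 0 := by
    intro h0
    exact hdeg (Polynomial.derivative_eq_zero.1 h0)
  have hd1 : p.derivative.natDegree < p.natDegree := Polynomial.natDegree_derivative_lt hdeg
  refine le_antisymm ?_ (ord_eval₂_nonneg D ev hevn ha _)
  by_contra hlt
  rw [not_le] at hlt
  exact absurd (hmin _ hd0 hlt) (by omega)

/-- derivations of polynomials -/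
theorem exists_deriv_eval₂ {E : K →+* LL} (hE : ∀ c : ℂ, E (algebraMap ℂ K c) = cst c) (D : PrimeDivisorOver K 2) {s : Fin 1 → K}
    (hs : ∀ i, 0 ≤ D.ord (s i)) {a : K} (ha : 0 ≤ D.ord a) (p : Polynomial (MvPolynomial (Fin 1) ℂ)) :
    ∃ A : K, 0 ≤ D.ord A ∧ ∀ G : LL, JL (E (p.eval₂ (MvPolynomial.aeval s : MvPolynomial (Fin 1) ℂ →ₐ[ℂ] K).toRingHom a)) G =
      E A * JL (E (s 0)) G + E (p.derivative.eval₂ (MvPolynomial.aeval s : MvPolynomial (Fin 1) ℂ →ₐ[ℂ] K).toRingHom a) * JL (E a) G := by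
  set ev : MvPolynomial (Fin 1) ℂ →+* K := (MvPolynomial.aeval s : MvPolynomial (Fin 1) ℂ →ₐ[ℂ] K).toRingHom with hev
  have hevn : ∀ r, 0 ≤ D.ord (ev r) := fun r => ord_aeval_nonneg D hs r
  -- coefficients
  have hco : ∀ r : MvPolynomial (Fin 1) ℂ, ∃ A : K, 0 ≤ D.ord A ∧ ∀ G : LL, JL (E (ev r)) G = E A * JL (E (s 0)) G := by
    intro r
    induction r using MvPolynomial.induction_on with
    | C c =>
      refine ⟨0, by rw [D.ord.map_zero]; exact le_top, fun G => ?_⟩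
      have h1 : ev (MvPolynomial.C c) = algebraMap ℂ K c := MvPolynomial.aeval_C _ _
      rw [h1, hE, JL_cst, map_zero]
      ring
    | add p q hp hq =>
      obtain ⟨A, hA, hA'⟩ := hp
      obtain ⟨B, hB, hB'⟩ := hq
      refine ⟨A + B, D.ord.map_le_add hA hB, fun G => ?_⟩
      rw [map_add, map_add, JL_add, hA', hB', map_add]
      ring
    | mul_X p i hp =>
      obtain ⟨A, hA, hA'⟩ := hp
      have hi : i = 0 := Subsingleton.elim _ _
      subst hi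
      have hX : ev (MvPolynomial.X 0) = s 0 := MvPolynomial.aeval_X _ _
      refine ⟨ev p + s 0 * A, D.ord.map_le_add (hevn p) ?_, fun G => ?_⟩
      · rw [D.ord.map_mul]
        exact add_nonneg (hs 0) hA
      · rw [map_mul, hX, map_mul, JL_mul, hA', map_add, map_mul]
        ring
  induction p using Polynomial.induction_on' with
  | add p q hp hq =>
    obtain ⟨A, hA, hA'⟩ := hp
    obtain ⟨B, hB, hB'⟩ := hq
    refine ⟨A + B, D.ord.map_le_add hA hB, fun G => ?_⟩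
    rw [Polynomial.eval₂_add, map_add, JL_add, hA', hB', Polynomial.derivative_add, Polynomial.eval₂_add, map_add, map_add]
    ring
  | monomial n c =>
    induction n with
    | zero =>
      obtain ⟨A, hA, hA'⟩ := hco c
      refine ⟨A, hA, fun G => ?_⟩
      rw [Polynomial.monomial_zero_left, Polynomial.eval₂_C, hA', Polynomial.derivative_C, Polynomial.eval₂_zero, map_zero]
      ring
    | succ n ih =>
      obtain ⟨A, hA, hA'⟩ := ih
      refine ⟨a * A, ?_, fun G => ?_⟩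
      · rw [D.ord.map_mul]
        exact add_nonneg ha hA
      · have h1 : Polynomial.monomial (n + 1) c = Polynomial.monomial n c * Polynomial.X := (Polynomial.monomial_mul_X n c).symm
        rw [h1, Polynomial.eval₂_mul, Polynomial.eval₂_X, map_mul, JL_mul, hA', Polynomial.derivative_mul, Polynomial.derivative_X, mul_one,
          Polynomial.eval₂_add, Polynomial.eval₂_mul, Polynomial.eval₂_X, map_add, map_mul, map_mul]
        ring

/-- The Jacobian of two functions which are regular along the divisor `D` has order at least `e - 1`, where `e` is the ramification index. -/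
theorem le_vT_JL_reg {E : K →+* LL} (hE : ∀ c : ℂ, E (algebraMap ℂ K c) = cst c) {z : Fin 2 → K} (hz : IsTranscendenceBasis ℂ z)
    (D : PrimeDivisorOver K 2) {e : ℕ} (he : 1 ≤ e)
    (hD : ∀ f : K, f ≠ 0 → ∃ n : ℤ, D.ord f = n ∧ vT (E f) = ((e * n : ℤ) : WithTop ℤ)) {a b : K} (ha : 0 ≤ D.ord a) (hb : 0 ≤ D.ord b) :
    ((e - 1 : ℤ) : WithTop ℤ) ≤ vT (JL (E a) (E b)) := by
  have heZ : (0 : ℤ) < e := by exact_mod_cast he
  have hnn : ∀ f : K, 0 ≤ D.ord f → 0 ≤ vT (E f) := by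
    intro f hf
    by_cases h0 : f = 0
    · rw [h0, map_zero, AddValuation.map_zero]
      exact le_top
    obtain ⟨n, h1, h2⟩ := hD f h0
    rw [h1] at hf
    rw [h2]
    have h3 : 0 ≤ n := by exact_mod_cast hf
    have h4 : (0 : ℤ) ≤ e * n := by positivity
    exact_mod_cast h4
  have hpos : ∀ f : K, 0 < D.ord f → ((e : ℤ) : WithTop ℤ) ≤ vT (E f) := by
    intro f hf
    by_cases h0 : f = 0
    · rw [h0, map_zero, AddValuation.map_zero]
      exact le_top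
    obtain ⟨n, h1, h2⟩ := hD f h0
    rw [h1] at hf
    rw [h2]
    have h3 : 0 < n := by exact_mod_cast hf
    have h4 : (e : ℤ) ≤ e * n := by nlinarith
    exact_mod_cast h4
  obtain ⟨s, hs, hs'⟩ := D.residue_trdeg
  -- the main step
  have key : ∀ c : K, 0 ≤ D.ord c → ∀ G : LL, 0 ≤ vT G → ((e - 1 : ℤ) : WithTop ℤ) ≤ vT (JL (E (s 0)) G) →
      ((e - 1 : ℤ) : WithTop ℤ) ≤ vT (JL (E c) G) := by
    intro c hc G hG hsG
    obtain ⟨p, hp1, hp2⟩ := exists_sep hz D (s := s) hs hs' hc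
    obtain ⟨A, hA, hA'⟩ := exists_deriv_eval₂ hE D (s := s) hs hc p
    have h1 := hA' G
    set h := p.eval₂ (MvPolynomial.aeval s : MvPolynomial (Fin 1) ℂ →ₐ[ℂ] K).toRingHom c with hh
    set h' := p.derivative.eval₂ (MvPolynomial.aeval s : MvPolynomial (Fin 1) ℂ →ₐ[ℂ] K).toRingHom c with hh'
    have h2 : ((e - 1 : ℤ) : WithTop ℤ) ≤ vT (JL (E h) G) := le_vT_JL' (hpos h hp1) hG
    have h3 : ((e - 1 : ℤ) : WithTop ℤ) ≤ vT (E A * JL (E (s 0)) G) := by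
      have h4 := le_vT_mul (m := 0) (hnn A hA) hsG
      rwa [zero_add] at h4
    have h4 : E h' * JL (E c) G = JL (E h) G - E A * JL (E (s 0)) G := by
      rw [h1]
      ring
    have h5 : vT (E h') = 0 := by
      have h6 : h' ≠ 0 := by
        intro h0
        rw [h0, D.ord.map_zero] at hp2
        exact absurd hp2 WithTop.top_ne_zero
      obtain ⟨n, h7, h8⟩ := hD h' h6
      rw [hp2] at h7
      have h9 : n = 0 := by exact_mod_cast h7.symm
      rw [h8, h9, mul_zero]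
      rfl
    have h6 : vT (E h' * JL (E c) G) = vT (JL (E c) G) := by
      rw [AddValuation.map_mul, h5, zero_add]
    rw [← h6, h4]
    exact le_vT_sub h2 h3
  have hs0 := hnn (s 0) (hs 0)
  have hb' := hnn b hb
  refine key a ha (E b) hb' ?_
  rw [JL_anti]
  refine le_vT_neg (key b hb (E (s 0)) hs0 ?_)
  rw [JL_self, AddValuation.map_zero]
  exact le_top

/-- The order of a form with logarithmic poles along an arbitrary curve. -/
theorem pole_free_logG (E : K →+* LL) (hE : ∀ c : ℂ, E (algebraMap ℂ K c) = cst c) {z : Fin 2 → K} (hz : IsTranscendenceBasis ℂ z)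
    (hJ : ∃ a b : K, DX (E a) * DT (E b) - DX (E b) * DT (E a) ≠ 0)
    (M : ℕ) (H W : K) (a : Fin 2 → K) (Bd : PrimeDivisorOver K 2 → Prop)
    (hpole : ∀ D : PrimeDivisorOver K 2, (¬ Bd D → PoleAtMost 0 D M H (Form.mk W a)) ∧
      (Bd D → PoleAtMost M D M H (Form.mk W a))) :
    0 ≤ vT (E H * (E W * (DX (E (a 0)) * DT (E (a 1)) - DX (E (a 1)) * DT (E (a 0)))) ^ M) ∨
      ∃ D : PrimeDivisorOver K 2, Bd D ∧ (∃ e : ℕ, 1 ≤ e ∧ ∀ f : K, f ≠ 0 → ∃ n : ℤ, D.ord f = n ∧ vT (E f) = ((e * n : ℤ) : WithTop ℤ)) ∧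
        0 ≤ vT (E H * (E W * (DX (E (a 0)) * DT (E (a 1)) - DX (E (a 1)) * DT (E (a 0)))) ^ M) + M := by
  have hpow : ∀ (x : LL) (m : ℤ) (n : ℕ), (m : WithTop ℤ) ≤ vT x → ((n * m : ℤ) : WithTop ℤ) ≤ vT (x ^ n) := by
    intro x m n hx
    induction n with
    | zero => rw [pow_zero, AddValuation.map_one]; simp
    | succ n ih =>
      rw [pow_succ]
      have h := le_vT_mul ih hx
      have e1 : (n : ℤ) * m + m = ((n + 1 : ℕ) : ℤ) * m := by push_cast; ring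
      rwa [e1] at h
  by_cases hall : ∀ f : K, 0 ≤ vT (E f)
  · left
    have h1 : 0 ≤ vT (JL (E (a 0)) (E (a 1))) := JL_nonneg (hall _) (hall _)
    have h2 := le_vT_mul (m := 0) (n := 0) (hall W) h1
    have h3 := hpow _ _ M h2
    have h4 := le_vT_mul (m := 0) (hall H) h3
    have e1 : (0 : ℤ) + M * (0 + 0) = 0 := by ring
    rw [e1] at h4
    exact h4
  · push Not at hall
    obtain ⟨s, hs, hs'⟩ := exists_residue hE hJ hall
    obtain ⟨D, e, he, hD⟩ := exists_primeDivisorG hE hs hs' hall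
    have hX : ∀ c : ℂ, DX (E (algebraMap ℂ K c)) = 0 := fun c => by rw [hE]; exact DX_cst c
    have hT : ∀ c : ℂ, DT (E (algebraMap ℂ K c)) = 0 := fun c => by rw [hE]; exact DT_cst c
    obtain ⟨J, hJs, hJm⟩ := exists_jac (F := LL) E DX DT (fun a b => DX_mul a b)
      (fun a b => DT_mul a b) hX hT
    have heZ : (0 : ℤ) < e := by exact_mod_cast he
    have hnn : ∀ f : K, 0 ≤ D.ord f → 0 ≤ vT (E f) := by
      intro f hf
      by_cases h0 : f = 0
      · rw [h0, map_zero, AddValuation.map_zero]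
        exact le_top
      obtain ⟨n, h1, h2⟩ := hD f h0
      rw [h1] at hf
      rw [h2]
      have h3 : 0 ≤ n := by exact_mod_cast hf
      have h4 : (0 : ℤ) ≤ e * n := by positivity
      exact_mod_cast h4
    have hgen : ∀ ξ : Form K 2, ξ ∈ regularForms 2 D.localRing → ((e - 1 : ℤ) : WithTop ℤ) ≤ vT (J ξ) := by
      intro ξ hξ
      unfold regularForms at hξ
      induction hξ using AddSubgroup.closure_induction with
      | mem x hx =>
        obtain ⟨c, b', hc, hb', rfl⟩ := hx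
        rw [hJm]
        have h1 := le_vT_JL_reg hE hz D he hD (hb' 0) (hb' 1)
        have h2 := le_vT_mul (m := 0) (hnn c hc) h1
        rw [zero_add] at h2
        exact h2
      | zero =>
        rw [map_zero, AddValuation.map_zero]
        exact le_top
      | add x y _ _ hx hy => rw [map_add]; exact le_vT_add hx hy
      | neg x _ hx => rw [map_neg]; exact le_vT_neg hx
    have hcomm : ∀ (g : K) (η : Form K 2), Form.mk W a = g • η →
        E H * (E W * (DX (E (a 0)) * DT (E (a 1)) - DX (E (a 1)) * DT (E (a 0)))) ^ M =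
          E (H * g ^ M) * J η ^ M := by
      intro g η hω
      rw [← hJm, hω, hJs, map_mul, map_pow]
      ring
    by_cases hB : Bd D
    · right
      refine ⟨D, hB, ⟨e, he, hD⟩, ?_⟩
      obtain ⟨g, η, hη, hω, hord⟩ := (hpole D).2 hB
      rw [hcomm g η hω]
      have h2 : ((M * (e - 1) : ℤ) : WithTop ℤ) ≤ vT (J η ^ M) := hpow _ _ M (hgen η hη)
      by_cases h0 : H * g ^ M = 0
      · have h10 : E (H * g ^ M) * J η ^ M = 0 := by
          rw [h0, map_zero]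
          ring
        rw [h10, AddValuation.map_zero]
        simp
      obtain ⟨n, h3, h4⟩ := hD _ h0
      rw [h3] at hord
      have h5 : (0 : ℤ) ≤ n + M := by exact_mod_cast hord
      have h6 : ((e * n : ℤ) : WithTop ℤ) ≤ vT (E (H * g ^ M)) := h4.ge
      have h7 := le_vT_mul h6 h2
      have h8 : (0 : ℤ) ≤ (e * n + M * (e - 1)) + M := by
        have h9 : (e * n + M * (e - 1)) + M = (e : ℤ) * (n + M) := by ring
        rw [h9]
        positivity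
      calc (0 : WithTop ℤ) ≤ (((e * n + M * (e - 1)) + M : ℤ) : WithTop ℤ) := by exact_mod_cast h8
        _ = ((e * n + M * (e - 1) : ℤ) : WithTop ℤ) + M := by push_cast; rfl
        _ ≤ _ := by gcongr
    · left
      obtain ⟨g, η, hη, hω, hord⟩ := (hpole D).1 hB
      have hord' : 0 ≤ D.ord (H * g ^ M) := by
        simpa using hord
      rw [hcomm g η hω]
      have h1 : ((0 : ℤ) : WithTop ℤ) ≤ vT (J η) := le_vT_mono (by omega) (hgen η hη)
      have h3 := le_vT_mul (m := 0) (hnn _ hord') (hpow _ _ M h1)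
      have e1 : (0 : ℤ) + M * 0 = 0 := by ring
      rw [e1] at h3
      exact h3

end Pool.Agent.H36.BPL

end
end
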