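import Pool.Agent.H43.TL2.M02
import Pool.Agent.H43.TL2.M06

/-! The parts of this file: H68.KR.Pt, H68.KR.EV. -/

section

/-!
# KR Pt: the generic point of a subvariety of projective space

The proof of `exists_point_aux` is that of `Pool.Agent.H17LG.exists_point_log`.
-/

set_option autoImplicit false

open MvPolynomial
open Pool.Agent.H17GT (coordFun functionField)

noncomputable section

namespace Pool.Agent.H68.KR

/-- The function `x_i / x_j` on the subvariety of `ℙ^N` given by `P`. -/
def ratio' {N : ℕ} (P : Ideal (MvPolynomial (Fin (N + 1)) ℂ)) [P.IsPrime] (i j : Fin (N + 1)) :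
    functionField P :=
  ⟨coordFun P i / coordFun P j, IntermediateField.subset_adjoin _ _ ⟨i, j, rfl⟩⟩

/-- The generic point of a closed subvariety of `ℙ^N` of positive dimension. -/
theorem exists_point_aux {N : ℕ} (P : Ideal (MvPolynomial (Fin (N + 1)) ℂ)) [P.IsPrime]
    {k : ℕ} (z : Fin (k + 1) → functionField P) (hz : IsTranscendenceBasis ℂ z) :
    ∃ x : Fin (N + 1) → functionField P, x ≠ 0 ∧
      IntermediateField.adjoin ℂ {y | ∃ i j, y = x i / x j} = ⊤ ∧
      IntermediateField.adjoin ℂ (Set.range x) = ⊤ ∧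
      (∀ (d : ℕ) (G : MvPolynomial (Fin (N + 1)) ℂ), G.IsHomogeneous d →
        (aeval x G = 0 ↔ G ∈ P)) ∧ (∀ i, x i = 0 ↔ coordFun P i = 0) ∧
      ∀ i j, x i / x j = ratio' P i j := by
  classical
  -- some coordinate is nonzero
  obtain ⟨j₀, hj₀⟩ : ∃ j, coordFun P j ≠ 0 := by
    by_contra hcon
    push Not at hcon
    have h1 : functionField P = ⊥ := by
      rw [functionField, IntermediateField.adjoin_eq_bot_iff]
      rintro y ⟨i, j, rfl⟩
      rw [hcon i, zero_div]
      exact zero_mem _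
    have h2 := hz.1.transcendental 0
    apply h2
    have h3 : ((z 0 : functionField P) : FractionRing (MvPolynomial (Fin (N + 1)) ℂ ⧸ P)) ∈
        (⊥ : IntermediateField ℂ (FractionRing (MvPolynomial (Fin (N + 1)) ℂ ⧸ P))) := by
      rw [← h1]
      exact (z 0).2
    obtain ⟨a, ha⟩ := IntermediateField.mem_bot.1 h3
    have h4 : z 0 = algebraMap ℂ (functionField P) a := by
      apply Subtype.ext
      rw [← ha]
      rfl
    rw [h4]
    exact isAlgebraic_algebraMap a
  have hmem : ∀ i, coordFun P i / coordFun P j₀ ∈ functionField P := fun i =>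
    IntermediateField.subset_adjoin _ _ ⟨i, j₀, rfl⟩
  set x : Fin (N + 1) → functionField P := fun i => ⟨coordFun P i / coordFun P j₀, hmem i⟩ with hx
  have hx1 : x j₀ = 1 := by
    apply Subtype.ext
    rw [hx]
    exact div_self hj₀
  have hratio : ∀ i j, ((x i / x j : functionField P) :
      FractionRing (MvPolynomial (Fin (N + 1)) ℂ ⧸ P)) = coordFun P i / coordFun P j := by
    intro i j
    have h1 : ((x i / x j : functionField P) :
      FractionRing (MvPolynomial (Fin (N + 1)) ℂ ⧸ P)) =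
        (coordFun P i / coordFun P j₀) / (coordFun P j / coordFun P j₀) := by
      rw [hx]
      rfl
    rw [h1, div_div_div_cancel_right₀ hj₀]
  have hgen : IntermediateField.adjoin ℂ {y | ∃ i j, y = x i / x j} = ⊤ := by
    rw [← IntermediateField.lift_inj, IntermediateField.lift_adjoin, IntermediateField.lift_top]
    conv_rhs => rw [functionField]
    congr 1
    ext y
    constructor
    · rintro ⟨y', ⟨i, j, rfl⟩, rfl⟩
      exact ⟨i, j, hratio i j⟩
    · rintro ⟨i, j, rfl⟩
      exact ⟨x i / x j, ⟨i, j, rfl⟩, hratio i j⟩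
  refine ⟨x, fun h => ?_, hgen, ?_, ?_, ?_, ?_⟩
  · have := congrFun h j₀
    rw [hx1] at this
    exact one_ne_zero this
  · rw [eq_top_iff, ← hgen, IntermediateField.adjoin_le_iff]
    rintro y ⟨i, j, rfl⟩
    exact div_mem (IntermediateField.subset_adjoin _ _ ⟨i, rfl⟩)
      (IntermediateField.subset_adjoin _ _ ⟨j, rfl⟩)
  · intro d G hG
    have h1 : ((aeval x G : functionField P) : FractionRing (MvPolynomial (Fin (N + 1)) ℂ ⧸ P)) =
        aeval (fun i => (coordFun P j₀)⁻¹ * coordFun P i) G := by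
      have h3 : ((functionField P).val (aeval x G)) =
          aeval (fun i => (functionField P).val (x i)) G := by
        rw [← MvPolynomial.comp_aeval]
        rfl
      change (functionField P).val (aeval x G) = _
      rw [h3]
      congr 2
      funext i
      change coordFun P i / coordFun P j₀ = _
      rw [div_eq_inv_mul]
    have h4 : aeval (fun i => (coordFun P j₀)⁻¹ * coordFun P i) G =
        (coordFun P j₀)⁻¹ ^ d * aeval (coordFun P) G := by
      rw [aeval_def, aeval_def, eval₂_eq, eval₂_eq, Finset.mul_sum]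
      refine Finset.sum_congr rfl fun m hm => ?_
      have h5 : ∑ i ∈ m.support, m i = d := by
        have := hG (mem_support_iff.1 hm)
        rw [Finsupp.weight_apply, Finsupp.sum] at this
        simpa using this
      simp only [mul_pow, Finset.prod_mul_distrib]
      rw [Finset.prod_pow_eq_pow_sum, h5]
      ring
    have h7 : aeval (coordFun P) G =
        algebraMap (MvPolynomial (Fin (N + 1)) ℂ ⧸ P)
          (FractionRing (MvPolynomial (Fin (N + 1)) ℂ ⧸ P)) (Ideal.Quotient.mk P G) := by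
      have h8 : (aeval (coordFun P) : MvPolynomial (Fin (N + 1)) ℂ →ₐ[ℂ] _) =
          (IsScalarTower.toAlgHom ℂ (MvPolynomial (Fin (N + 1)) ℂ ⧸ P)
            (FractionRing (MvPolynomial (Fin (N + 1)) ℂ ⧸ P))).comp (Ideal.Quotient.mkₐ ℂ P) := by
        apply MvPolynomial.algHom_ext
        intro i
        rw [aeval_X]
        rfl
      rw [h8]
      rfl
    rw [h4, h7] at h1
    constructor
    · intro h0
      rw [h0] at h1
      have h9 := (mul_eq_zero.1 h1.symm).resolve_left (pow_ne_zero _ (inv_ne_zero hj₀))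
      have h10 : Ideal.Quotient.mk P G = 0 :=
        (IsFractionRing.injective (MvPolynomial (Fin (N + 1)) ℂ ⧸ P)
          (FractionRing (MvPolynomial (Fin (N + 1)) ℂ ⧸ P))) (by rw [h9, map_zero])
      exact Ideal.Quotient.eq_zero_iff_mem.1 h10
    · intro hGP
      apply Subtype.ext
      rw [h1, Ideal.Quotient.eq_zero_iff_mem.2 hGP, map_zero, mul_zero]
      rfl
  · intro i
    constructor
    · intro h0
      have h1 : coordFun P i / coordFun P j₀ = 0 := congrArg Subtype.val h0
      exact (div_eq_zero_iff.1 h1).resolve_right hj₀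
    · intro h0
      apply Subtype.ext
      change coordFun P i / coordFun P j₀ = 0
      rw [h0, zero_div]
  · intro i j
    apply Subtype.ext
    exact hratio i j

open Pool.Agent.H17LG.Variety (FunField ratio)

/-- The generic point of a closed subvariety of `ℙ^N` of positive dimension. -/
theorem exists_point {N : ℕ} (P : Ideal (MvPolynomial (Fin (N + 1)) ℂ)) [P.IsPrime]
    {k : ℕ} (z : Fin (k + 1) → FunField P) (hz : IsTranscendenceBasis ℂ z) :
    ∃ x : Fin (N + 1) → FunField P, x ≠ 0 ∧
      IntermediateField.adjoin ℂ {y | ∃ i j, y = x i / x j} = ⊤ ∧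
      IntermediateField.adjoin ℂ (Set.range x) = ⊤ ∧
      (∀ (d : ℕ) (G : MvPolynomial (Fin (N + 1)) ℂ), G.IsHomogeneous d →
        (aeval x G = 0 ↔ G ∈ P)) ∧ (∀ i, x i = 0 ↔ coordFun P i = 0) ∧
      ∀ i j, x i / x j = ratio P i j :=
  exists_point_aux P z hz

end Pool.Agent.H68.KR

end
end

section

/-!
# KR EV: evaluation of the function field at a generic point with values in a field

`P` is prime, `FunField P` has positive transcendence degree.  Let `x : Fin (N+1) → FunField P` be the point of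
`exists_point` (file `Pt`) (`aeval x G = 0 ↔ G ∈ P` for homogeneous `G`, `x i / x j = ratio P i j`,
`adjoin ℂ {x i / x j} = ⊤`, `x i = 0 ↔ coordFun P i = 0`; `coordFun P i = 0 ↔ X i ∈ P`; note that `FunField P` and
`functionField P` are the same type with the same instances).

For `G : MvPolynomial (Fin (N+1)) ℂ` of total degree `≤ n` let `G^h = hmz l n G` (file `HZ`), homogeneous of degree
`n`.  For a point `y` of a field `F` over `ℂ` with `y l ≠ 0`: `G^h (y) = y_l ^ n G (y / y_l)` (`eval₂_hmz`).  So for a point `y` with the property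
`hy : ∀ d Q, Q.IsHomogeneous d → (eval₂ ι y Q = 0 ↔ Q ∈ P)` and `y l ≠ 0`: `G (y / y_l) = 0 ↔ G^h ∈ P`.

`exists_eval`: choose `l` with `X l ∉ P` (exists, otherwise all `x i = 0` and `adjoin = ⊥`, but there is a transcendental
element `z 0`); then `x l ≠ 0` and `y l ≠ 0`.  By the remark (for `x` and for `y`) the ring homomorphisms
`α : G ↦ G (x / x_l)`, `β : G ↦ G (y / y_l)` of `MvPolynomial` have the same kernel.  So `β` induces an injective ring
homomorphism of the range `A` of `α` into `F` (`RingHom.liftOfSurjective` / `Ideal.Quotient` / by choice), and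
`FunField P` is the fraction field of `A` (every element of `adjoin ℂ {x i / x l}` is a quotient of two elements of
`A`: `IntermediateField.mem_adjoin_range_iff`, or `IsFractionRing.of_field`; the field generated by the `x i / x l`
contains `x i / x j`, so it is `⊤`).  `IsFractionRing.lift`.  Then `E (ratio P i l) = y i / y l` and
`ratio P i j = ratio P i l / ratio P j l` if `X j ∉ P`; if `X j ∈ P`, `ratio P i j = 0` (division by `0`) and `y j = 0`.

`exists_hom_rep`: `f = α G₁ / α G₂`, `α G₂ ≠ 0`; take `n ≥` both total degrees, `A = G₁^h`, `B = G₂^h` (for one `l₀`),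
`f * B (x) = A (x)` and then for every `l` with `x l ≠ 0` divide by `x_l ^ n`.
-/

set_option autoImplicit false

open MvPolynomial
open Pool.Agent.H17GT (coordFun functionField)
open Pool.Agent.H17LG.Variety (FunField ratio)

noncomputable section

namespace Pool.Agent.H68.KR

variable {N : ℕ} (P : Ideal (MvPolynomial (Fin (N + 1)) ℂ)) [P.IsPrime]

theorem coordFun_eq_zero_iff (i : Fin (N + 1)) : coordFun P i = 0 ↔ X i ∈ P := by
  unfold Pool.Agent.H17GT.coordFun
  rw [map_eq_zero_iff _ (IsFractionRing.injective (MvPolynomial (Fin (N + 1)) ℂ ⧸ P)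
    (FractionRing (MvPolynomial (Fin (N + 1)) ℂ ⧸ P))), Ideal.Quotient.eq_zero_iff_mem]

private theorem EV_smul {F : Type} [Field F] (ι : ℂ →+* F) {d : ℕ} {Q : MvPolynomial (Fin (N + 1)) ℂ}
    (hQ : Q.IsHomogeneous d) {l : Fin (N + 1)} (y : Fin (N + 1) → F) :
    eval₂ ι (fun i => y i / y l) Q = (y l)⁻¹ ^ d * eval₂ ι y Q := by
  have h1 : (fun i => y i / y l) = fun i => (y l)⁻¹ * y i := by
    funext i
    rw [div_eq_inv_mul]
  rw [h1, eval₂_of_isHomogeneous ι hQ]

/-- rational functions as quotients of polynomials in the ratios -/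
private theorem EV_quot {x : Fin (N + 1) → FunField P} (hgen : IntermediateField.adjoin ℂ {y | ∃ i j, y = x i / x j} = ⊤)
    {l : Fin (N + 1)} (hl : x l ≠ 0) (f : FunField P) :
    ∃ G₁ G₂ : MvPolynomial (Fin (N + 1)) ℂ, aeval (fun i => x i / x l) G₂ ≠ 0 ∧
      f * aeval (fun i => x i / x l) G₂ = aeval (fun i => x i / x l) G₁ := by
  have hf : f ∈ IntermediateField.adjoin ℂ {y | ∃ i j, y = x i / x j} := by
    rw [hgen]
    exact IntermediateField.mem_top
  induction hf using IntermediateField.adjoin_induction with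
  | mem y hy =>
    obtain ⟨i, j, rfl⟩ := hy
    by_cases hj : x j = 0
    · refine ⟨0, 1, ?_, ?_⟩
      · rw [map_one]
        exact one_ne_zero
      · rw [hj, div_zero, zero_mul, map_zero]
    · refine ⟨X i, X j, ?_, ?_⟩
      · rw [aeval_X]
        exact div_ne_zero hj hl
      · rw [aeval_X, aeval_X]
        field_simp
  | algebraMap c =>
    refine ⟨C c, 1, ?_, ?_⟩
    · rw [map_one]
      exact one_ne_zero
    · rw [map_one, mul_one, algHom_C]
  | add a b _ _ ha hb =>
    obtain ⟨A₁, A₂, hA, hA'⟩ := ha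
    obtain ⟨B₁, B₂, hB, hB'⟩ := hb
    refine ⟨A₁ * B₂ + B₁ * A₂, A₂ * B₂, ?_, ?_⟩
    · rw [map_mul]
      exact mul_ne_zero hA hB
    · rw [map_mul, map_add, map_mul, map_mul, ← hA', ← hB']
      ring
  | inv a _ ha =>
    obtain ⟨A₁, A₂, hA, hA'⟩ := ha
    by_cases h0 : a = 0
    · refine ⟨0, 1, ?_, ?_⟩
      · rw [map_one]
        exact one_ne_zero
      · rw [h0, inv_zero, zero_mul, map_zero]
    · refine ⟨A₂, A₁, ?_, ?_⟩
      · rw [← hA']
        exact mul_ne_zero h0 hA
      · rw [← hA', ← mul_assoc, inv_mul_cancel₀ h0, one_mul]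
  | mul a b _ _ ha hb =>
    obtain ⟨A₁, A₂, hA, hA'⟩ := ha
    obtain ⟨B₁, B₂, hB, hB'⟩ := hb
    refine ⟨A₁ * B₁, A₂ * B₂, ?_, ?_⟩
    · rw [map_mul]
      exact mul_ne_zero hA hB
    · rw [map_mul, map_mul, ← hA', ← hB']
      ring

/-- The evaluation at a generic point with values in `F`. -/
theorem exists_eval {k : ℕ} (z : Fin (k + 1) → FunField P) (hz : IsTranscendenceBasis ℂ z)
    {F : Type} [Field F] (ι : ℂ →+* F) (y : Fin (N + 1) → F)
    (hy : ∀ (d : ℕ) (Q : MvPolynomial (Fin (N + 1)) ℂ), Q.IsHomogeneous d →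
      (eval₂ ι y Q = 0 ↔ Q ∈ P)) :
    ∃ E : FunField P →+* F, (∀ c : ℂ, E (algebraMap ℂ (FunField P) c) = ι c) ∧
      ∀ i j, E (ratio P i j) = y i / y j := by
  obtain ⟨x, hx0, hgen, -, hxP, hxc, hxr⟩ := exists_point P z hz
  obtain ⟨l, hl⟩ : ∃ l, x l ≠ 0 := by
    by_contra hcon
    push Not at hcon
    exact hx0 (funext hcon)
  have hlP : X l ∉ P := by
    rw [← coordFun_eq_zero_iff, ← hxc]
    exact hl
  have hyl : y l ≠ 0 := by
    intro h0
    apply hlP
    rw [← hy 1 (X l) (isHomogeneous_X ℂ l), eval₂_X]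
    exact h0
  -- the two evaluations
  obtain ⟨α, hα⟩ : ∃ α : MvPolynomial (Fin (N + 1)) ℂ →+* FunField P, ∀ G, α G = aeval (fun i => x i / x l) G :=
    ⟨(aeval (fun i => x i / x l) : MvPolynomial (Fin (N + 1)) ℂ →ₐ[ℂ] FunField P).toRingHom, fun G => rfl⟩
  obtain ⟨β, hβ⟩ : ∃ β : MvPolynomial (Fin (N + 1)) ℂ →+* F, ∀ G, β G = eval₂ ι (fun i => y i / y l) G :=
    ⟨eval₂Hom ι (fun i => y i / y l), fun G => rfl⟩
  have hker : ∀ G, α G = 0 ↔ β G = 0 := by
    intro G
    have h1 := eval₂_hmz ι (le_refl G.totalDegree) hyl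
    have h2 := eval₂_hmz (algebraMap ℂ (FunField P)) (le_refl G.totalDegree) hl
    have h3 := hxP _ _ (hmz_isHomogeneous l G.totalDegree G)
    have h4 := hy _ _ (hmz_isHomogeneous l G.totalDegree G)
    rw [h1] at h4
    rw [aeval_def, h2] at h3
    rw [hα, hβ, aeval_def]
    constructor
    · intro h5
      have h6 := h4.mpr (h3.mp (by rw [h5, mul_zero]))
      exact (mul_eq_zero.mp h6).resolve_left (pow_ne_zero _ hyl)
    · intro h5
      have h6 := h3.mpr (h4.mp (by rw [h5, mul_zero]))
      exact (mul_eq_zero.mp h6).resolve_left (pow_ne_zero _ hl)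
  -- the range of `α`
  have hsurj : Function.Surjective α.rangeRestrict := α.rangeRestrict_surjective
  have hker' : RingHom.ker α.rangeRestrict ≤ RingHom.ker β := by
    intro G hG
    rw [RingHom.mem_ker] at hG ⊢
    rw [← hker]
    exact congrArg Subtype.val hG
  obtain ⟨g, hg⟩ : ∃ g : α.range →+* F, ∀ G, g (α.rangeRestrict G) = β G :=
    ⟨RingHom.liftOfSurjective α.rangeRestrict hsurj ⟨β, hker'⟩, fun G =>
      RingHom.liftOfRightInverse_comp_apply α.rangeRestrict _ (Function.rightInverse_surjInv hsurj) ⟨β, hker'⟩ G⟩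
  have hginj : Function.Injective g := by
    rw [injective_iff_map_eq_zero]
    intro a ha
    obtain ⟨G, rfl⟩ := hsurj a
    rw [hg, ← hker] at ha
    exact Subtype.ext ha
  let _ : Algebra α.range (FunField P) := α.range.subtype.toAlgebra
  have hfaith : FaithfulSMul α.range (FunField P) := by
    rw [faithfulSMul_iff_algebraMap_injective]
    exact Subtype.val_injective
  have hfrac : IsFractionRing α.range (FunField P) := by
    refine IsFractionRing.of_field _ _ fun f => ?_
    obtain ⟨G₁, G₂, h1, h2⟩ := EV_quot P hgen hl f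
    refine ⟨α.rangeRestrict G₁, α.rangeRestrict G₂, ?_⟩
    have e1 : (algebraMap α.range (FunField P)) (α.rangeRestrict G₁) = aeval (fun i => x i / x l) G₁ := hα G₁
    have e2 : (algebraMap α.range (FunField P)) (α.rangeRestrict G₂) = aeval (fun i => x i / x l) G₂ := hα G₂
    rw [e1, e2, ← h2, mul_div_assoc, div_self h1, mul_one]
  obtain ⟨E, hE⟩ : ∃ E : FunField P →+* F, ∀ a : α.range, E a = g a :=
    ⟨IsFractionRing.lift (A := α.range) (K := FunField P) hginj, fun a => IsFractionRing.lift_algebraMap hginj a⟩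
  have hEα : ∀ G, E (α G) = β G := fun G => by
    rw [← hg]
    exact hE (α.rangeRestrict G)
  have hEx : ∀ i, E (x i / x l) = y i / y l := fun i => by
    have h1 := hEα (X i)
    rw [hα, hβ, aeval_X, eval₂_X] at h1
    exact h1
  refine ⟨E, fun c => ?_, fun i j => ?_⟩
  · have h1 := hEα (C c)
    rw [hα, hβ, eval₂_C, algHom_C] at h1
    exact h1
  · have h1 : ratio P i j = (x i / x l) / (x j / x l) := by
      rw [div_div_div_cancel_right₀ hl, hxr]
    rw [h1, map_div₀, hEx, hEx, div_div_div_cancel_right₀ hyl]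

/-- Rational functions are quotients of homogeneous polynomials. -/
theorem exists_hom_rep {k : ℕ} (z : Fin (k + 1) → FunField P) (hz : IsTranscendenceBasis ℂ z)
    (f : FunField P) : ∃ (d : ℕ) (A B : MvPolynomial (Fin (N + 1)) ℂ), A.IsHomogeneous d ∧
      B.IsHomogeneous d ∧ B ∉ P ∧ (f ≠ 0 → A ∉ P) ∧
      ∀ l, X l ∉ P → f * aeval (fun i => ratio P i l) B = aeval (fun i => ratio P i l) A := by
  obtain ⟨x, hx0, hgen, -, hxP, hxc, hxr⟩ := exists_point P z hz
  obtain ⟨l, hl⟩ : ∃ l, x l ≠ 0 := by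
    by_contra hcon
    push Not at hcon
    exact hx0 (funext hcon)
  obtain ⟨G₁, G₂, h1, h2⟩ := EV_quot P hgen hl f
  obtain ⟨n, hn⟩ : ∃ n, n = max G₁.totalDegree G₂.totalDegree := ⟨_, rfl⟩
  have e1 := eval₂_hmz (algebraMap ℂ (FunField P)) (l := l) (n := n) (G := G₁) (by rw [hn]; exact le_max_left _ _) hl
  have e2 := eval₂_hmz (algebraMap ℂ (FunField P)) (l := l) (n := n) (G := G₂) (by rw [hn]; exact le_max_right _ _) hl
  rw [← aeval_def, ← aeval_def] at e1 e2
  have hH1 := hmz_isHomogeneous l n G₁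
  have hH2 := hmz_isHomogeneous l n G₂
  refine ⟨n, hmz l n G₁, hmz l n G₂, hH1, hH2, ?_, ?_, ?_⟩
  · intro hmem
    rw [← hxP _ _ hH2, e2] at hmem
    exact (mul_ne_zero (pow_ne_zero _ hl) h1) hmem
  · intro hf hmem
    rw [← hxP _ _ hH1, e1, ← h2] at hmem
    exact (mul_ne_zero (pow_ne_zero _ hl) (mul_ne_zero hf h1)) hmem
  · intro l' hl'
    have e3 : (fun i => ratio P i l') = fun i => x i / x l' := by
      funext i
      rw [hxr]
    rw [e3, aeval_def, aeval_def, EV_smul _ hH1, EV_smul _ hH2, ← aeval_def, ← aeval_def, e1, e2, ← h2]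
    ring

/-- The evaluation of a quotient of homogeneous polynomials. -/
theorem eval_hom_rep {F : Type} [Field F] (ι : ℂ →+* F) (y : Fin (N + 1) → F)
    (E : FunField P →+* F) (hE : ∀ c : ℂ, E (algebraMap ℂ (FunField P) c) = ι c)
    (hr : ∀ i j, E (ratio P i j) = y i / y j) {l : Fin (N + 1)} (hl : y l ≠ 0) {d : ℕ}
    {A B : MvPolynomial (Fin (N + 1)) ℂ} (hA : A.IsHomogeneous d) (hB : B.IsHomogeneous d)
    {f : FunField P} (hf : f * aeval (fun i => ratio P i l) B = aeval (fun i => ratio P i l) A) :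
    E f * eval₂ ι y B = eval₂ ι y A := by
  have hcomp : E.comp (algebraMap ℂ (FunField P)) = ι := RingHom.ext hE
  have h1 : ∀ G : MvPolynomial (Fin (N + 1)) ℂ, E (aeval (fun i => ratio P i l) G) = eval₂ ι (fun i => y i / y l) G := by
    intro G
    rw [aeval_def, hom_eval₂, hcomp]
    congr 1
    funext i
    exact hr i l
  have h2 := congrArg E hf
  rw [map_mul, h1, h1, EV_smul ι hA, EV_smul ι hB] at h2
  have h3 : (y l)⁻¹ ^ d ≠ 0 := pow_ne_zero _ (inv_ne_zero hl)
  have h4 : (y l)⁻¹ ^ d * (E f * eval₂ ι y B) = (y l)⁻¹ ^ d * eval₂ ι y A := by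
    rw [← h2]
    ring
  exact mul_left_cancel₀ h3 h4

/-- A relation between the coordinate ratios holds at all points. -/
theorem eval_eq_zero_of_relation {k : ℕ} (z : Fin (k + 1) → FunField P) (hz : IsTranscendenceBasis ℂ z)
    {l : Fin (N + 1)} (hl : X l ∉ P) {G : MvPolynomial (Fin (N + 1)) ℂ}
    (hG : aeval (fun i => ratio P i l) G = 0) {x : Fin (N + 1) → ℂ} (hx : ∀ Q ∈ P, eval x Q = 0)
    (hxl : x l ≠ 0) : eval (fun i => x i / x l) G = 0 := by
  obtain ⟨w, hw0, hgen, -, hwP, hwc, hwr⟩ := exists_point P z hz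
  have hwl : w l ≠ 0 := by
    intro h0
    rw [hwc, coordFun_eq_zero_iff] at h0
    exact hl h0
  have e1 := eval₂_hmz (algebraMap ℂ (FunField P)) (le_refl G.totalDegree) hwl
  have e2 : (fun i => ratio P i l) = fun i => w i / w l := by
    funext i
    rw [hwr]
  rw [e2, aeval_def] at hG
  rw [hG, mul_zero, ← aeval_def, hwP _ _ (hmz_isHomogeneous l _ G)] at e1
  have e3 := hx _ e1
  have e4 := eval₂_hmz (RingHom.id ℂ) (le_refl G.totalDegree) hxl
  have e5 : eval₂ (RingHom.id ℂ) x (hmz l G.totalDegree G) = 0 := e3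
  rw [e5] at e4
  exact (mul_eq_zero.mp e4.symm).resolve_left (pow_ne_zero _ hxl)

end Pool.Agent.H68.KR

end
end
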