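import Pool.Agent.H43.TL2.M08
import Pool.Agent.H43.TL2.M21
import Pool.Agent.H43.TL2.M29
import Pool.Agent.H43.TL2.M34
import Pool.Agent.H43.TL2.M36
import Pool.Agent.H43.TL2.M39
import Pool.Agent.H43.TL2.M40
import Pool.Agent.H43.TL2.M49
import Pool.Agent.H43.TL2.M75

/-! The parts of this file: H17BP.MonoOpen, H17BP.FinG, H13.CV.BirkA, H36.BPL.NodalK, H68.KR.KOD, MW.Ord2, SDA.KDefs, SDA.EA. -/

section

/-!
# Monomials at nearby points

* `Bihol.near`: let `θ'` be the inverse germ.  `θ` and `θ'` are analytic near `0` (`AnalyticAt.eventually_analyticAt`),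
  `θ' (θ x) = x` for `x` near `0`, `θ (θ' y) = y` for `y` near `0` (`eventually_eventually_nhds`), `θ p → 0` for `p → 0`.
  For `p` near `0` the inverse germ is `y ↦ θ' (θ p + y) - p` (it is analytic at `0`, because `θ'` is analytic at `θ p`).
* `Mono.near`: let `g = S^a T^b u` near `0`, `θ = (S, T)`.  For `p` near `0`: `S (p + x) = S p + S₁ x`,
  `T (p + x) = T p + T₁ x` with `Coord S₁ T₁` (`Bihol.near`, `(S₁, T₁) = θ (p + x) - θ p`), `u (p + x)` is a unit.
  If `S p ≠ 0` then `S (p + x)^a` is a unit; if `S p = 0` then `S (p + x) = S₁ x`; the same for `T`.  Four cases: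
  `(S₁)^(a or 0) (T₁)^(b or 0) (unit)`.
-/

open Topology Filter

noncomputable section

namespace Pool.Agent.H17BP

private theorem MonoOpen_add {E : Type*} [NormedAddCommGroup E] [NormedSpace ℂ E] {f : ℂ × ℂ → E}
    {p : ℂ × ℂ} (hf : AnalyticAt ℂ f p) : AnalyticAt ℂ (fun x => f (p + x)) 0 := by
  have h1 : AnalyticAt ℂ (fun x : ℂ × ℂ => p + x) 0 := analyticAt_const.add analyticAt_id
  have h2 : AnalyticAt ℂ f ((fun x : ℂ × ℂ => p + x) 0) := by
    simp only [add_zero]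
    exact hf
  exact AnalyticAt.comp (g := f) (f := fun x : ℂ × ℂ => p + x) h2 h1

private theorem MonoOpen_tendsto (p : ℂ × ℂ) : Tendsto (fun x : ℂ × ℂ => p + x) (𝓝 0) (𝓝 p) := by
  have h1 : ContinuousAt (fun x : ℂ × ℂ => p + x) 0 := by fun_prop
  have h2 := h1.tendsto
  simp only [add_zero] at h2
  exact h2

/-- A local biholomorphism is a local biholomorphism at the nearby points. -/
theorem Bihol.near {θ : ℂ × ℂ → ℂ × ℂ} (h : Bihol θ) :
    ∀ᶠ p in 𝓝 (0 : ℂ × ℂ), Bihol fun x => θ (p + x) - θ p := by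
  obtain ⟨θ', h1, h2, h3, h4⟩ := h.inv
  have A1 := h.an.eventually_analyticAt
  have A2 := h.tendsto.eventually h1.eventually_analyticAt
  have A3 := h3.eventually_nhds
  have A4 := h.tendsto.eventually h4.eventually_nhds
  filter_upwards [A1, A2, A3, A4] with p a1 a2 a3 a4
  refine ⟨(MonoOpen_add a1).sub analyticAt_const, ?_, fun y => θ' (θ p + y) - p,
    (MonoOpen_add a2).sub analyticAt_const, ?_, ?_, ?_⟩
  · simp only [add_zero, sub_self]
  · simp only [add_zero]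
    rw [a3.self_of_nhds, sub_self]
  · filter_upwards [(MonoOpen_tendsto p).eventually a3] with x hx
    rw [add_sub_cancel, hx, add_sub_cancel_left]
  · filter_upwards [(MonoOpen_tendsto (θ p)).eventually a4] with y hy
    rw [add_sub_cancel, hy, add_sub_cancel_left]

private theorem MonoOpen_pow {f : ℂ × ℂ → ℂ} {p : ℂ × ℂ} (hf : AnalyticAt ℂ f p) (a : ℕ) :
    ∃ (a' : ℕ) (w : ℂ × ℂ → ℂ), AnalyticAt ℂ w 0 ∧ w 0 ≠ 0 ∧
      ∀ x, f (p + x) ^ a = (f (p + x) - f p) ^ a' * w x := by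
  by_cases h : f p = 0
  · refine ⟨a, fun _ => 1, analyticAt_const, one_ne_zero, fun x => ?_⟩
    rw [h, sub_zero, mul_one]
  · refine ⟨0, fun x => f (p + x) ^ a, (MonoOpen_add hf).pow a, ?_, fun x => ?_⟩
    · simp only [add_zero]
      exact pow_ne_zero a h
    · rw [pow_zero, one_mul]

/-- A monomial times a unit is a monomial times a unit at the nearby points. -/
theorem Mono.near {g : ℂ × ℂ → ℂ} (h : Mono g) : ∀ᶠ p in 𝓝 (0 : ℂ × ℂ), Mono fun x => g (p + x) := by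
  obtain ⟨S, T, a, b, u, hc, hu, hu0, hg⟩ := h
  obtain ⟨hS, hT, -, -⟩ := hc.parts
  have B1 := Bihol.near hc
  have B2 := hu.eventually_analyticAt
  have B3 := hu.continuousAt.eventually_ne hu0
  have B4 := hg.eventually_nhds
  have B5 := hS.eventually_analyticAt
  have B6 := hT.eventually_analyticAt
  filter_upwards [B1, B2, B3, B4, B5, B6] with p b1 b2 b3 b4 b5 b6
  obtain ⟨a', w, hw, hw0, hwe⟩ := MonoOpen_pow b5 a
  obtain ⟨b', v, hv, hv0, hve⟩ := MonoOpen_pow b6 b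
  refine ⟨fun x => S (p + x) - S p, fun x => T (p + x) - T p, a', b',
    fun x => w x * v x * u (p + x), b1, (hw.mul hv).mul (MonoOpen_add b2), ?_, ?_⟩
  · simp only [add_zero]
    exact mul_ne_zero (mul_ne_zero hw0 hv0) b3
  · filter_upwards [(MonoOpen_tendsto p).eventually b4] with x hx
    rw [hx, hwe x, hve x]
    ring

end Pool.Agent.H17BP

end
end

section

/-!
# The points near `0` at which `g` is not a monomial

* `bl_near`: `bl c (s, t) = (s, s (c + t))` has near `p`, `p.1 ≠ 0`, the inverse `(S, T) ↦ (S, T / S - c)`.  So the inverse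
  germ of `x ↦ bl c (p + x) - bl c p` is `y ↦ (a, b / a - c) - p` with `(a, b) = bl c p + y`, analytic because `a ≠ 0`
  near `y = 0` (or use `bihol_iff`).  `blInf_near`: the same with the coordinates exchanged.
* `Mono.of_near`: if `β (p + x) - β p` is `Bihol` and `(g ∘ β) (p + x)` is `Mono` then `g (β p + x)` is `Mono`: with
  `θ x = β (p + x) - β p`: `g (β (p + x)) = (fun x => g (β p + x)) (θ x)`; compose with the inverse germ of `θ`
  (`ResN.of_comp` for `n = 0`).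
* `ResN.near`: induction on `n`.  `n = 0` and the case `Mono g`: `Mono.near`.  `n + 1`: for all `c`, `ResN n (g ∘ bl c)` and
  `ResN n (g ∘ blInf)` (`bchart_bl`, `bchart_blInf`).  If the claim is false then there is an ultrafilter `U ≤ 𝓝[≠] 0` with
  `¬ Mono (g (p + ·))` for `U`-almost all `p` (`Filter.Frequently`, `Ultrafilter.of`, e.g. take `U` finer than
  `𝓝[≠] 0 ⊓ 𝓟 {p | ¬ Mono ..}`).  `U`-almost surely `‖p.2‖ ≤ ‖p.1‖` or `U`-almost surely `‖p.1‖ ≤ ‖p.2‖`.
  First case: `p.1 ≠ 0` almost surely (because `p ≠ 0`); `p.2 / p.1` is in the closed unit ball (compact), so it tends to some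
  `c` along `U` (`IsCompact.ultrafilter_le_nhds`); `p' = (p.1, p.2 / p.1 - c) → 0`, `p' ≠ 0`, `bl c p' = p`.  By induction
  for `g ∘ bl c`: `Mono ((g ∘ bl c) (p' + ·))` almost surely, and `Mono.of_near` with `bl_near`.
  Second case: `p.2 ≠ 0`, `p.1 / p.2 → c'`.  If `c' = 0`: `p' = (p.1 / p.2, p.2) → 0`, `blInf p' = p`, `blInf_near`.
  If `c' ≠ 0` then `p.1 ≠ 0` almost surely and `p.2 / p.1 → c'⁻¹ = c`, continue as in the first case.
-/

open Topology Filter

noncomputable section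

namespace Pool.Agent.H17BP

theorem bl_near (c : ℂ) {p : ℂ × ℂ} (hp : p.1 ≠ 0) : Bihol fun x => bl c (p + x) - bl c p := by
  have h1 : HasFDerivAt (fun x : ℂ × ℂ => p.1 + x.1) (ContinuousLinearMap.fst ℂ ℂ ℂ) 0 :=
    (hasFDerivAt_fst (𝕜 := ℂ) (E := ℂ) (F := ℂ)).const_add p.1
  have h2 : HasFDerivAt (fun x : ℂ × ℂ => c + (p.2 + x.2)) (ContinuousLinearMap.snd ℂ ℂ ℂ) 0 :=
    ((hasFDerivAt_snd (𝕜 := ℂ) (E := ℂ) (F := ℂ)).const_add p.2).const_add c
  have h3 := (h1.prodMk (h1.mul h2)).sub_const (bl c p)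
  have h4 : HasFDerivAt (fun x => bl c (p + x) - bl c p) _ 0 := h3
  have ha : AnalyticAt ℂ (fun x => bl c (p + x) - bl c p) 0 := by
    refine AnalyticAt.sub ?_ analyticAt_const
    exact (analyticAt_bl c (p + 0)).comp (analyticAt_const.add analyticAt_id)
  refine (bihol_iff ha (by simp)).mpr ?_
  rw [h4.fderiv]
  simpa using hp

theorem blInf_near {p : ℂ × ℂ} (hp : p.2 ≠ 0) : Bihol fun x => blInf (p + x) - blInf p := by
  have h1 : HasFDerivAt (fun x : ℂ × ℂ => p.1 + x.1) (ContinuousLinearMap.fst ℂ ℂ ℂ) 0 :=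
    (hasFDerivAt_fst (𝕜 := ℂ) (E := ℂ) (F := ℂ)).const_add p.1
  have h2 : HasFDerivAt (fun x : ℂ × ℂ => p.2 + x.2) (ContinuousLinearMap.snd ℂ ℂ ℂ) 0 :=
    (hasFDerivAt_snd (𝕜 := ℂ) (E := ℂ) (F := ℂ)).const_add p.2
  have h3 := ((h1.mul h2).prodMk h2).sub_const (blInf p)
  have h4 : HasFDerivAt (fun x => blInf (p + x) - blInf p) _ 0 := h3
  have ha : AnalyticAt ℂ (fun x => blInf (p + x) - blInf p) 0 := by
    refine AnalyticAt.sub ?_ analyticAt_const
    exact (analyticAt_blInf (p + 0)).comp (analyticAt_const.add analyticAt_id)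
  refine (bihol_iff ha (by simp)).mpr ?_
  rw [h4.fderiv]
  simpa using hp

theorem Mono.of_near {g : ℂ × ℂ → ℂ} {β : ℂ × ℂ → ℂ × ℂ} {p : ℂ × ℂ} (h : Bihol fun x => β (p + x) - β p)
    (hg : Mono fun x => (g ∘ β) (p + x)) : Mono fun x => g (β p + x) := by
  have h1 : ResN 0 ((fun x => g (β p + x)) ∘ fun x => β (p + x) - β p) := by
    have h2 : ((fun x => g (β p + x)) ∘ fun x => β (p + x) - β p) = fun x => (g ∘ β) (p + x) := by
      funext x
      simp
    rw [h2]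
    exact hg
  exact ResN.of_comp h h1

/-- the first case -/
private theorem FinG_key1 {g : ℂ × ℂ → ℂ} {U : Ultrafilter (ℂ × ℂ)} (hU0 : (U : Filter (ℂ × ℂ)) ≤ 𝓝 0)
    (hbad : ∀ᶠ p in (U : Filter (ℂ × ℂ)), ¬ Mono fun x => g (p + x)) {c : ℂ}
    (hc : Tendsto (fun p : ℂ × ℂ => p.2 / p.1) U (𝓝 c)) (h1 : ∀ᶠ p in (U : Filter (ℂ × ℂ)), p.1 ≠ 0)
    (hih : ∀ᶠ p in 𝓝[≠] (0 : ℂ × ℂ), Mono fun x => (g ∘ bl c) (p + x)) : False := by
  have ht1 : Tendsto (fun p : ℂ × ℂ => p.1) U (𝓝 0) := by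
    have h2 : Tendsto (fun p : ℂ × ℂ => p.1) (𝓝 0) (𝓝 (0 : ℂ × ℂ).1) := continuous_fst.tendsto 0
    exact h2.mono_left hU0
  have ht2 : Tendsto (fun p : ℂ × ℂ => p.2 / p.1 - c) U (𝓝 0) := by
    have h2 := hc.sub_const c
    rwa [sub_self] at h2
  have ht : Tendsto (fun p : ℂ × ℂ => (p.1, p.2 / p.1 - c)) U (𝓝[≠] 0) := by
    rw [tendsto_nhdsWithin_iff]
    refine ⟨?_, ?_⟩
    · exact ht1.prodMk_nhds ht2
    · filter_upwards [h1] with p hp
      intro h0
      exact hp (congrArg Prod.fst h0)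
  obtain ⟨p, hp1, hp2, hp3⟩ := ((ht.eventually hih).and (h1.and hbad)).exists
  apply hp3
  have h4 : bl c (p.1, p.2 / p.1 - c) = p := by
    unfold bl
    ext
    · rfl
    · simp only
      field_simp
      ring
  have h5 := Mono.of_near (bl_near c (p := (p.1, p.2 / p.1 - c)) hp2) hp1
  rw [h4] at h5
  exact h5

/-- the second case -/
private theorem FinG_key2 {g : ℂ × ℂ → ℂ} {U : Ultrafilter (ℂ × ℂ)} (hU0 : (U : Filter (ℂ × ℂ)) ≤ 𝓝 0)
    (hbad : ∀ᶠ p in (U : Filter (ℂ × ℂ)), ¬ Mono fun x => g (p + x))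
    (hc : Tendsto (fun p : ℂ × ℂ => p.1 / p.2) U (𝓝 0)) (h1 : ∀ᶠ p in (U : Filter (ℂ × ℂ)), p.2 ≠ 0)
    (hih : ∀ᶠ p in 𝓝[≠] (0 : ℂ × ℂ), Mono fun x => (g ∘ blInf) (p + x)) : False := by
  have ht1 : Tendsto (fun p : ℂ × ℂ => p.2) U (𝓝 0) := by
    have h2 : Tendsto (fun p : ℂ × ℂ => p.2) (𝓝 0) (𝓝 (0 : ℂ × ℂ).2) := continuous_snd.tendsto 0
    exact h2.mono_left hU0
  have ht : Tendsto (fun p : ℂ × ℂ => (p.1 / p.2, p.2)) U (𝓝[≠] 0) := by
    rw [tendsto_nhdsWithin_iff]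
    refine ⟨?_, ?_⟩
    · exact hc.prodMk_nhds ht1
    · filter_upwards [h1] with p hp
      intro h0
      exact hp (congrArg Prod.snd h0)
  obtain ⟨p, hp1, hp2, hp3⟩ := ((ht.eventually hih).and (h1.and hbad)).exists
  apply hp3
  have h4 : blInf (p.1 / p.2, p.2) = p := by
    unfold blInf
    ext
    · simp only
      field_simp
    · rfl
  have h5 := Mono.of_near (blInf_near (p := (p.1 / p.2, p.2)) hp2) hp1
  rw [h4] at h5
  exact h5

/-- bounded functions converge along an ultrafilter -/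
private theorem FinG_lim {U : Ultrafilter (ℂ × ℂ)} {f : ℂ × ℂ → ℂ}
    (h : ∀ᶠ p in (U : Filter (ℂ × ℂ)), ‖f p‖ ≤ 1) : ∃ c : ℂ, Tendsto f U (𝓝 c) := by
  have h1 : ((U.map f : Ultrafilter ℂ) : Filter ℂ) ≤ 𝓟 (Metric.closedBall (0 : ℂ) 1) := by
    rw [Filter.le_principal_iff, Ultrafilter.coe_map, Filter.mem_map]
    filter_upwards [h] with p hp
    simpa using hp
  obtain ⟨c, -, hc⟩ := (isCompact_closedBall (0 : ℂ) 1).ultrafilter_le_nhds (U.map f) h1
  exact ⟨c, hc⟩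

/-- If the germ `g` is resolved by finitely many blow-ups then it is a monomial times a unit at all points near `0`
different from `0`. -/
theorem ResN.near {n : ℕ} : ∀ {g : ℂ × ℂ → ℂ}, ResN n g →
    ∀ᶠ p in 𝓝[≠] (0 : ℂ × ℂ), Mono fun x => g (p + x) := by
  induction n with
  | zero =>
    intro g h
    exact (Mono.near h).filter_mono nhdsWithin_le_nhds
  | succ n ih =>
    intro g h
    rcases h with h | h
    · exact (Mono.near h).filter_mono nhdsWithin_le_nhds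
    · by_contra hne
      have hf : ∃ᶠ p in 𝓝[≠] (0 : ℂ × ℂ), ¬ Mono fun x => g (p + x) := Filter.not_eventually.mp hne
      have hnb := Filter.frequently_iff_neBot.mp hf
      obtain ⟨U, hU⟩ := Ultrafilter.exists_le (𝓝[≠] (0 : ℂ × ℂ) ⊓ 𝓟 {p | ¬ Mono fun x => g (p + x)})
      have hU1 : (U : Filter (ℂ × ℂ)) ≤ 𝓝[≠] 0 := hU.trans inf_le_left
      have hU0 : (U : Filter (ℂ × ℂ)) ≤ 𝓝 0 := hU1.trans nhdsWithin_le_nhds
      have hbad : ∀ᶠ p in (U : Filter (ℂ × ℂ)), ¬ Mono fun x => g (p + x) :=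
        Filter.le_principal_iff.mp (hU.trans inf_le_right)
      have hne0 : ∀ᶠ p in (U : Filter (ℂ × ℂ)), p ≠ 0 := by
        have h1 : ∀ᶠ p in 𝓝[≠] (0 : ℂ × ℂ), p ≠ 0 := eventually_mem_nhdsWithin
        exact h1.filter_mono hU1
      rcases U.em (fun p => ‖p.2‖ ≤ ‖p.1‖) with h1 | h1
      · have h2 : ∀ᶠ p in (U : Filter (ℂ × ℂ)), p.1 ≠ 0 := by
          filter_upwards [h1, hne0] with p hp1 hp2 h0
          apply hp2
          rw [h0, norm_zero] at hp1
          exact Prod.ext h0 (norm_le_zero_iff.mp hp1)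
        obtain ⟨c, hc⟩ := FinG_lim (U := U) (f := fun p => p.2 / p.1) (by
          filter_upwards [h1] with p hp
          rw [norm_div]
          exact div_le_one_of_le₀ hp (norm_nonneg _))
        exact FinG_key1 hU0 hbad hc h2 (ih (h (bl c) (bchart_bl c)))
      · have h2 : ∀ᶠ p in (U : Filter (ℂ × ℂ)), p.2 ≠ 0 := by
          filter_upwards [h1] with p hp1 h0
          apply hp1
          rw [h0, norm_zero]
          exact norm_nonneg _
        obtain ⟨c, hc⟩ := FinG_lim (U := U) (f := fun p => p.1 / p.2) (by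
          filter_upwards [h1] with p hp
          rw [norm_div]
          exact div_le_one_of_le₀ (not_le.mp hp).le (norm_nonneg _))
        by_cases hc0 : c = 0
        · rw [hc0] at hc
          exact FinG_key2 hU0 hbad hc h2 (ih (h blInf bchart_blInf))
        · have h3 : ∀ᶠ p in (U : Filter (ℂ × ℂ)), p.1 ≠ 0 := by
            filter_upwards [hc.eventually_ne hc0] with p hp h0
            apply hp
            rw [h0, zero_div]
          have h4 : Tendsto (fun p : ℂ × ℂ => p.2 / p.1) U (𝓝 c⁻¹) := by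
            have h5 := hc.inv₀ hc0
            refine h5.congr ?_
            intro p
            rw [inv_div]
          exact FinG_key1 hU0 hbad h4 h3 (ih (h (bl c⁻¹) (bchart_bl c⁻¹)))

end Pool.Agent.H17BP

end
end

section

/-!
# CV BirkA: replacing an element of a basis over `ℂ[x]`

`w' i₀ = ∑ c i * w i`, `w' i = w i` for `i ≠ i₀`: a basis over `L` because `c i₀ = γ ≠ 0` (e.g. `Module.Basis.mk` with linear independence and span; or the change of basis by an invertible matrix / linear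
equivalence; or `basisOfLinearIndependentOfCardEqFinrank`).  Let `f = ∑ r i * w i = ∑ r' i * w' i`: `r i₀ = γ r' i₀`, `r i = r' i + r' i₀ * c i` for `i ≠ i₀`.  So the `r i` are in `ℂ[x]` if and only if the
`r' i` are (`γ⁻¹ ∈ ℂ[x]`).
-/

set_option autoImplicit false

open Pool.Agent.H23.Fano (PrimeDivisorOver Form regularForms)

noncomputable section

namespace Pool.Agent.H13.CV

variable {K : Type} [Field K] [Algebra ℂ K] {L : IntermediateField ℂ K} {x : K} {n : ℕ}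

theorem AffB.replace (hL : Gen L x) {w : Module.Basis (Fin n) L K} (hw : AffB x w) (i₀ : Fin n) (c : Fin n → K)
    (hc : ∀ i, c i ∈ Algebra.adjoin ℂ {x}) {γ : ℂ} (hγ : γ ≠ 0) (hi₀ : c i₀ = algebraMap ℂ K γ) :
    ∃ w' : Module.Basis (Fin n) L K, AffB x w' ∧ w' i₀ = ∑ i, c i * w i ∧ ∀ i, i ≠ i₀ → w' i = w i := by
  classical
  have hcL : ∀ i, c i ∈ L := by
    intro i
    rw [hL.eq]
    exact IntermediateField.algebra_adjoin_le_adjoin ℂ {x} (hc i)
  obtain ⟨c', hc'⟩ : ∃ c' : Fin n → L, ∀ i, ((c' i : L) : K) = c i := ⟨fun i => ⟨c i, hcL i⟩, fun i => rfl⟩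
  obtain ⟨g, hg⟩ : ∃ g : L, g = algebraMap ℂ L γ := ⟨_, rfl⟩
  have hgK : (g : K) = algebraMap ℂ K γ := by rw [hg]; rfl
  have hg0 : g ≠ 0 := by
    rw [hg]
    exact (map_ne_zero_iff _ (algebraMap ℂ L).injective).2 hγ
  have hcg : c' i₀ = g := by
    apply Subtype.ext
    rw [hc' i₀, hi₀, hgK]
  obtain ⟨u, hu⟩ : ∃ u : K, u = (∑ i, c' i • w i) - w i₀ := ⟨_, rfl⟩
  have hur : ∀ i, w.repr u i = c' i - if i = i₀ then 1 else 0 := by
    intro i
    rw [hu, map_sub, Finsupp.sub_apply, Module.Basis.repr_sum_self, Module.Basis.repr_self,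
      Finsupp.single_apply]
    congr 1
    by_cases h : i = i₀
    · simp [h]
    · simp [h, Ne.symm h]
  have hur0 : w.repr u i₀ = g - 1 := by rw [hur, if_pos rfl, hcg]
  have hT : ∀ f : K, (LinearMap.id + (LinearMap.toSpanSingleton L K u) ∘ₗ (w.coord i₀) : K →ₗ[L] K) f =
      f + w.repr f i₀ • u := by
    intro f
    simp
  have hS : ∀ f : K, (LinearMap.id - (LinearMap.toSpanSingleton L K u) ∘ₗ (g⁻¹ • w.coord i₀) : K →ₗ[L] K) f =
      f - (g⁻¹ * w.repr f i₀) • u := by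
    intro f
    simp
  obtain ⟨T, hTd⟩ : ∃ T : K →ₗ[L] K, ∀ f, T f = f + w.repr f i₀ • u := ⟨_, hT⟩
  obtain ⟨S, hSd⟩ : ∃ S : K →ₗ[L] K, ∀ f, S f = f - (g⁻¹ * w.repr f i₀) • u := ⟨_, hS⟩
  have hTS : ∀ f, T (S f) = f := by
    intro f
    rw [hTd, hSd, map_sub, map_smul, Finsupp.sub_apply, Finsupp.smul_apply, hur0, smul_eq_mul]
    have e : w.repr f i₀ - g⁻¹ * w.repr f i₀ * (g - 1) = g⁻¹ * w.repr f i₀ := by
      field_simp
      ring
    rw [e]
    abel
  have hST : ∀ f, S (T f) = f := by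
    intro f
    rw [hSd, hTd, map_add, map_smul, Finsupp.add_apply, Finsupp.smul_apply, hur0, smul_eq_mul]
    have e : g⁻¹ * (w.repr f i₀ + w.repr f i₀ * (g - 1)) = w.repr f i₀ := by
      field_simp
      ring
    rw [e]
    abel
  let e : K ≃ₗ[L] K := LinearEquiv.ofLinearMap T S (LinearMap.ext hTS) (LinearMap.ext hST)
  have he : ∀ f, e f = T f := fun f => rfl
  have hes : ∀ f, e.symm f = S f := fun f => rfl
  have hrepr : ∀ f i, (w.map e).repr f i = w.repr f i - g⁻¹ * w.repr f i₀ * (c' i - if i = i₀ then 1 else 0) := by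
    intro f i
    rw [Module.Basis.map_repr, LinearEquiv.trans_apply, hes, hSd, map_sub, map_smul, Finsupp.sub_apply,
      Finsupp.smul_apply, hur, smul_eq_mul]
  have hgi : algebraMap ℂ K γ⁻¹ ∈ Algebra.adjoin ℂ {x} := Subalgebra.algebraMap_mem _ _
  have hgg : algebraMap ℂ K γ ∈ Algebra.adjoin ℂ {x} := Subalgebra.algebraMap_mem _ _
  have hginv : ((g⁻¹ : L) : K) = algebraMap ℂ K γ⁻¹ := by
    rw [map_inv₀, ← hgK]
    rfl
  have hd : ∀ i, (((c' i - if i = i₀ then 1 else 0 : L)) : K) ∈ Algebra.adjoin ℂ {x} := by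
    intro i
    have e1 : (((c' i - if i = i₀ then 1 else 0 : L)) : K) = c i - if i = i₀ then 1 else 0 := by
      split_ifs
      · rw [← hc' i]; rfl
      · rw [← hc' i]; rfl
    rw [e1]
    refine Subalgebra.sub_mem _ (hc i) ?_
    split_ifs
    · exact Subalgebra.one_mem _
    · exact Subalgebra.zero_mem _
  refine ⟨w.map e, ?_, ?_, ?_⟩
  · intro f
    rw [hw f]
    constructor
    · intro h i
      rw [hrepr]
      have e1 : ((w.repr f i - g⁻¹ * w.repr f i₀ * (c' i - if i = i₀ then 1 else 0) : L) : K) =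
          ((w.repr f i : L) : K) - ((g⁻¹ : L) : K) * ((w.repr f i₀ : L) : K) *
            (((c' i - if i = i₀ then 1 else 0 : L)) : K) := rfl
      rw [e1, hginv]
      exact Subalgebra.sub_mem _ (h i) (Subalgebra.mul_mem _ (Subalgebra.mul_mem _ hgi (h i₀)) (hd i))
    · intro h
      have h0 : ((w.repr f i₀ : L) : K) ∈ Algebra.adjoin ℂ {x} := by
        have h1 := h i₀
        rw [hrepr, if_pos rfl, hcg] at h1
        have e1 : w.repr f i₀ - g⁻¹ * w.repr f i₀ * (g - 1) = g⁻¹ * w.repr f i₀ := by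
          field_simp
          ring
        rw [e1] at h1
        have e2 : ((w.repr f i₀ : L) : K) = algebraMap ℂ K γ * (((g⁻¹ * w.repr f i₀ : L)) : K) := by
          have e3 : w.repr f i₀ = g * (g⁻¹ * w.repr f i₀) := by
            field_simp
          rw [← hgK]
          conv_lhs => rw [e3]
          rfl
        rw [e2]
        exact Subalgebra.mul_mem _ hgg h1
      intro i
      have h1 := h i
      rw [hrepr] at h1
      have e1 : ((w.repr f i : L) : K) =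
          ((w.repr f i - g⁻¹ * w.repr f i₀ * (c' i - if i = i₀ then 1 else 0) : L) : K) +
            ((g⁻¹ : L) : K) * ((w.repr f i₀ : L) : K) * (((c' i - if i = i₀ then 1 else 0 : L)) : K) := by
        have e2 : w.repr f i = (w.repr f i - g⁻¹ * w.repr f i₀ * (c' i - if i = i₀ then 1 else 0)) +
            g⁻¹ * w.repr f i₀ * (c' i - if i = i₀ then 1 else 0) := by ring
        conv_lhs => rw [e2]
        rfl
      rw [e1, hginv]
      exact Subalgebra.add_mem _ h1 (Subalgebra.mul_mem _ (Subalgebra.mul_mem _ hgi h0) (hd i))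
  · rw [Module.Basis.map_apply, he, hTd, Module.Basis.repr_self, Finsupp.single_eq_same, one_smul, hu]
    have e1 : ∑ i, c' i • w i = ∑ i, c i * w i := by
      refine Finset.sum_congr rfl fun i _ => ?_
      rw [← hc' i]
      rfl
    rw [e1]
    ring
  · intro i hi
    rw [Module.Basis.map_apply, he, hTd, Module.Basis.repr_self, Finsupp.single_apply, if_neg hi, zero_smul,
      add_zero]

end Pool.Agent.H13.CV

end
end

section

/-!
# BPL NodalK: the nodal theorem for open surfaces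
-/

set_option autoImplicit false

namespace Pool.Agent.H36.BPL

open Filter Topology Metric
open Pool.Agent.H17 (PN HolomorphicInto puncturedDisc)
open Pool.Agent.H17BP (Surface IsChart IsForm NoZeros NodalAt)
open Pool.Agent.H36.BP
open Pool.Agent.H14.PP (IsCone IsOpenPart IsNodal Chart HasType DType gD aCoef Form IsEq)

variable {V : Type} [NormedAddCommGroup V] [NormedSpace ℂ V] {N : ℕ}

theorem analyticAt_gD (d : Bool × Bool) (p : ℂ × ℂ) : AnalyticAt ℂ (gD d) p := by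
  unfold gD
  refine AnalyticAt.mul ?_ ?_
  · split_ifs
    · exact analyticAt_fst
    · exact analyticAt_const
  · split_ifs
    · exact analyticAt_snd
    · exact analyticAt_const

/-- points with non-zero coordinates near a given point -/
theorem freq_ne (p : ℂ × ℂ) : ∃ᶠ y in 𝓝 p, y.1 ≠ 0 ∧ y.2 ≠ 0 := by
  have h1 : Tendsto (fun e : ℂ => (p.1 + e, p.2 + e)) (𝓝[≠] 0) (𝓝 p) := by
    have h2 : Continuous (fun e : ℂ => (p.1 + e, p.2 + e)) := by fun_prop
    have h3 := h2.tendsto 0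
    simp only [add_zero] at h3
    exact h3.mono_left nhdsWithin_le_nhds
  refine h1.frequently (Filter.Eventually.frequently ?_)
  have h4 : ∀ a : ℂ, ∀ᶠ e : ℂ in 𝓝[≠] 0, a + e ≠ 0 := by
    intro a
    by_cases ha : a = 0
    · rw [ha]
      filter_upwards [self_mem_nhdsWithin] with e he
      simpa using he
    · have h5 : ContinuousAt (fun e : ℂ => a + e) 0 := (continuous_const.add continuous_id).continuousAt
      have h6 : ∀ᶠ e : ℂ in 𝓝 0, a + e ≠ 0 := h5.eventually_ne (by simpa using ha)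
      exact h6.filter_mono nhdsWithin_le_nhds
  filter_upwards [h4 p.1, h4 p.2] with e h5 h6
  exact ⟨h5, h6⟩

/-- the pole bound in a chart -/
theorem poleBound_transport (L : V ≃L[ℂ] EN N) {X K : Set V} {m j : ℕ} {Ω : V → V → V → ℂ} (hΩ : IsForm K m j Ω)
    (hp : PoleLE X K (m - 1) Ω) : (formT L hΩ).PoleBound (L.symm ⁻¹' X : Set (EN N)) := by
  classical
  intro χ d hd
  set φ : ℂ × ℂ → V := fun p => L.symm (χ.σ p) with hφ
  have hφa : ∀ p ∈ ball (0 : ℂ × ℂ) 2, AnalyticAt ℂ φ p := fun p hp =>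
    ((L.symm : EN N →L[ℂ] V).analyticAt _).comp (χ.σ_an p hp)
  have hφd : ∀ p ∈ ball (0 : ℂ × ℂ) 2, ∀ v, fderiv ℂ φ p v = L.symm (fderiv ℂ χ.σ p v) := by
    intro p hp v
    have h3 : HasFDerivAt φ ((L.symm : EN N →L[ℂ] V).comp (fderiv ℂ χ.σ p)) p :=
      (L.symm : EN N →L[ℂ] V).hasFDerivAt.comp p (χ.σ_an p hp).differentiableAt.hasFDerivAt
    rw [h3.fderiv]
    rfl
  have hφX : ∀ p ∈ ball (0 : ℂ × ℂ) 2, φ p ∈ X := fun p hp => (χ.σ_mem p hp).1
  have hφK : ∀ p ∈ ball (0 : ℂ × ℂ) 2, (φ p ∉ K ↔ (d.1 = true ∧ p.1 = 0) ∨ (d.2 = true ∧ p.2 = 0)) := fun p hp => hd p hp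
  have hco : ∀ p ∈ ball (0 : ℂ × ℂ) 2, aCoef (formT L hΩ) χ p = Ω (φ p) (fderiv ℂ φ p (1, 0)) (fderiv ℂ φ p (0, 1)) := by
    intro p hp
    rw [hφd p hp, hφd p hp]
    rfl
  have hex : ∀ p ∈ ball (0 : ℂ × ℂ) 2, ∃ b : ℂ × ℂ → ℂ, AnalyticAt ℂ b p ∧
      ∀ᶠ y in 𝓝 p, φ y ∈ K → b y = gD d y ^ (m - 1) * Ω (φ y) (fderiv ℂ φ y (1, 0)) (fderiv ℂ φ y (0, 1)) := by
    intro p hpb
    refine hp.pow (hφa p hpb) ?_ (analyticAt_gD d p) ?_
    · filter_upwards [isOpen_ball.mem_nhds hpb] with y hy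
      exact hφX y hy
    · filter_upwards [isOpen_ball.mem_nhds hpb] with y hy h1
      rcases (hφK y hy).mp h1 with h2 | h2
      · simp [gD, h2.1, h2.2]
      · simp [gD, h2.1, h2.2]
  choose! B hBa hBe using hex
  set b : ℂ × ℂ → ℂ := fun p => if φ p ∈ K then gD d p ^ (m - 1) * Ω (φ p) (fderiv ℂ φ p (1, 0)) (fderiv ℂ φ p (0, 1)) else B p p with hb
  refine ⟨b, fun p hpb => ?_, fun p hpb hpK => ?_⟩
  · refine (hBa p hpb).congr ?_
    have h1 := (hBe p hpb).eventually_nhds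
    filter_upwards [(hBa p hpb).eventually_analyticAt, h1, isOpen_ball.mem_nhds hpb] with y hy1 hy2 hy3
    by_cases hyK : φ y ∈ K
    · have h2 : b y = gD d y ^ (m - 1) * Ω (φ y) (fderiv ℂ φ y (1, 0)) (fderiv ℂ φ y (0, 1)) := if_pos hyK
      rw [h2]
      exact hy2.self_of_nhds hyK
    · have h2 : b y = B y y := if_neg hyK
      rw [h2]
      have h3 : ∃ᶠ q in 𝓝 y, B p q = B y q := by
        refine ((freq_ne y).and_eventually (hy2.and ((hBe y hy3).and (isOpen_ball.mem_nhds hy3)))).mono ?_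
        rintro q ⟨⟨hq1, hq2⟩, hq3, hq4, hq5⟩
        have hqK : φ q ∈ K := by
          by_contra hcon
          rcases (hφK q hq5).mp hcon with h | h
          · exact hq1 h.2
          · exact hq2 h.2
        rw [hq3 hqK, hq4 hqK]
      have h4 : ContinuousAt (fun q => B p q - B y q) y := hy1.continuousAt.sub (hBa y hy3).continuousAt
      by_contra hne
      have h5 : (fun q => B p q - B y q) y ≠ 0 := sub_ne_zero.mpr hne
      exact h3 ((h4.eventually_ne h5).mono fun q hq h6 => hq (sub_eq_zero.mpr h6))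
  · show b p = gD d p ^ (m - 1) * aCoef (formT L hΩ) χ p
    have h2 : b p = gD d p ^ (m - 1) * Ω (φ p) (fderiv ℂ φ p (1, 0)) (fderiv ℂ φ p (0, 1)) := if_pos hpK
    rw [h2, hco p hpb]

/-- transport of a proper map -/
theorem affProper_transport (L : V ≃L[ℂ] EN N) {X K : Set V} {M : ℕ} {Φ : V → Fin M → ℂ} (h : AffProper X K Φ) :
    AffProper (L.symm ⁻¹' X : Set (EN N)) (L.symm ⁻¹' K) (fun y => Φ (L.symm y)) where
  smul x hx c hc := by
    rw [map_smul]
    exact h.smul _ hx c hc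
  cont := h.cont.comp L.symm.continuous.continuousOn fun x hx => hx
  hol F z₀ hF hFK := h.hol (fun z => L.symm (F z)) z₀ (((L.symm : EN N →L[ℂ] V).analyticAt _).comp hF) hFK
  proper x hx hxK R := (L.symm.continuous.tendsto x).eventually (h.proper _ hx hxK R)
  iso F z₀ hF hFX := h.iso (fun z => L.symm (F z)) z₀ (((L.symm : EN N →L[ℂ] V).analyticAt _).comp hF) hFX

end Pool.Agent.H36.BPL

end

section

/-!
# KR KOD: Kodaira's lemma

`exists_relation`.  `ξ` is algebraic over the field `ℂ(φ)`, `φ i = f i / f 0`, hence over the ring `ℂ[φ]` (the field is its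
fraction field: `IsFractionRing` instance in the scope `algebraAdjoinAdjoin` of
`Mathlib/FieldTheory/IntermediateField/Adjoin/Algebra.lean`, `IsFractionRing.isAlgebraic_iff` or
`IsAlgebraic.of…`/clearing denominators).  So there is a polynomial `p ≠ 0` over `ℂ[φ]` with `p (ξ) = 0`; divide by the
power of `T` (`Polynomial.exists_eq_X_pow…`, `p.divX`, or choose `p` of minimal degree; `ξ ≠ 0`): `p.coeff 0 ≠ 0`.
`p.coeff k = aeval φ (g k)` (`Algebra.adjoin_range_eq_range_aeval`).  Let `D ≥ 1` be at least all total degrees,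
`a k = hmz 0 D (g k)`: homogeneous of degree `D`, `aeval f (a k) = f 0 ^ D * aeval φ (g k)` (`eval₂_hmz`, `aeval` is
`eval₂ (algebraMap …)`).

`exists_good_coordinate`.  Let `x` be the point of `exists_point`, `l` with `D.ord (x l)` minimal (finite set,
`Finset.exists_min_image`); `x ≠ 0`, so `x l ≠ 0` (its order is not `⊤`) and `X l ∉ P`; `ratio P i l = x i / x l` has order
`≥ 0`: `D.ord (x i) = D.ord (x i / x l) + D.ord (x l)`.

`kodaira`.  Let `m, ω, r, f` be given by `hgt` (`B` is empty: for all `i`, `D` `PoleAtMost 0 D m (f i) ω`).  Choose `o` with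
`X o ∉ P`.  For every `l` with `X l ∉ P` let `ξ l = ratio P o l ≠ 0`, and `D_l ≥ 1`, `n_l`, `a^l` be given by
`exists_relation` (for other `l` put the factor `1` and `D_l = 0`).
`H = ∏_l aeval f (a^l 0)` over `l` with `X l ∉ P`, `M = m * ∑ D_l ≥ 1`.  `H ≠ 0`.
Let `D` be a prime divisor and `l'` with `X l' ∉ P`.  For every `i` there are `g_i, η_i` with `ω = g_i • η_i`,
`0 ≤ D.ord (f i * g_i ^ m)`.  Let `g = g_i, η = η_i` be those with `D.ord g_i` maximal (it is not `⊤`: `g_i ≠ 0` as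
`ω ≠ 0`).  Then `0 ≤ D.ord (f i * g ^ m)` for all `i`.  Hence for `a` homogeneous of degree `d`:
`aeval f a * g ^ (m d) = aeval (fun i => f i * g ^ m) a` has order `≥ 0` (`eval₂_of_isHomogeneous`; a polynomial with
constant coefficients in elements of the valuation ring, `D.ord_const`, `MvPolynomial.induction_on` or `eval₂_eq` and the sum
formula).  Let `l` be the coordinate of `exists_good_coordinate`.
`aeval f (a^l 0) * g^(m D_l) = - ξ_l * ∑_{k ≥ 1} (aeval f (a^l k) * g^(m D_l)) ξ_l^(k-1)` and `ξ_l = ratio P o l` has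
order `≥ 0`, so `D.ord (aeval f (a^l 0) * g^(m D_l)) ≥ D.ord ξ_l`, and the other factors of
`H * g ^ M = ∏ (aeval f (a^l 0) * g^(m D_l))` have order `≥ 0`.  So
`D.ord (H * ratio P l' o * g ^ M) ≥ D.ord (ratio P o l * ratio P l' o) = D.ord (ratio P l' l) ≥ 0`.
-/

set_option autoImplicit false

open MvPolynomial
open Pool.Agent.H23.Fano (Form regularForms PrimeDivisorOver)
open Pool.Agent.H17GT (coordFun functionField)
open Pool.Agent.H17LG.Variety (FunField ratio PoleAtMost IsLogGeneralType)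

noncomputable section

namespace Pool.Agent.H68.KR

theorem exists_relation {K : Type} [Field K] [Algebra ℂ K] {r : ℕ} {f : Fin (r + 1) → K} (hf : f 0 ≠ 0)
    {ξ : K} (hξ : ξ ≠ 0)
    (halg : IsAlgebraic (IntermediateField.adjoin ℂ (Set.range fun i => f i / f 0)) ξ) :
    ∃ (D n : ℕ) (a : ℕ → MvPolynomial (Fin (r + 1)) ℂ), 1 ≤ D ∧ (∀ k, (a k).IsHomogeneous D) ∧
      aeval f (a 0) ≠ 0 ∧ ∑ k ∈ Finset.range (n + 1), aeval f (a k) * ξ ^ k = 0 := by
  classical
  have halg2 : IsAlgebraic (Algebra.adjoin ℂ (Set.range fun i => f i / f 0)) ξ := by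
    open scoped IntermediateField.algebraAdjoinAdjoin in
    exact (IsFractionRing.isAlgebraic_iff (Algebra.adjoin ℂ (Set.range fun i => f i / f 0))
      (IntermediateField.adjoin ℂ (Set.range fun i => f i / f 0)) K).2 halg
  obtain ⟨p, hp0, hp⟩ := halg2
  obtain ⟨q, hpq, hq⟩ := Polynomial.exists_eq_pow_rootMultiplicity_mul_and_not_dvd p hp0 0
  rw [map_zero, sub_zero] at hpq hq
  rw [Polynomial.X_dvd_iff] at hq
  have hq0 : Polynomial.aeval ξ q = 0 := by
    rw [hpq, map_mul, map_pow, Polynomial.aeval_X] at hp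
    exact (mul_eq_zero.1 hp).resolve_left (pow_ne_zero _ hξ)
  have hg : ∀ k, ∃ G : MvPolynomial (Fin (r + 1)) ℂ, aeval (fun i => f i / f 0) G =
      ((q.coeff k : Algebra.adjoin ℂ (Set.range fun i => f i / f 0)) : K) := by
    intro k
    have h1 : ∀ y ∈ Algebra.adjoin ℂ (Set.range fun i => f i / f 0),
        ∃ G : MvPolynomial (Fin (r + 1)) ℂ, aeval (fun i => f i / f 0) G = y := by
      intro y hy
      rw [Algebra.adjoin_range_eq_range_aeval] at hy
      exact hy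
    exact h1 _ (q.coeff k).2
  choose G hG using hg
  refine ⟨1 + ∑ k ∈ Finset.range (q.natDegree + 1), (G k).totalDegree, q.natDegree,
    fun k => hmz 0 (1 + ∑ k ∈ Finset.range (q.natDegree + 1), (G k).totalDegree) (G k), by omega,
    fun k => hmz_isHomogeneous _ _ _, ?_, ?_⟩
  all_goals
    have key : ∀ k ∈ Finset.range (q.natDegree + 1),
        aeval f (hmz 0 (1 + ∑ k ∈ Finset.range (q.natDegree + 1), (G k).totalDegree) (G k)) =
          f 0 ^ (1 + ∑ k ∈ Finset.range (q.natDegree + 1), (G k).totalDegree) *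
            ((q.coeff k : Algebra.adjoin ℂ (Set.range fun i => f i / f 0)) : K) := by
      intro k hk
      rw [← hG k]
      have h1 : (G k).totalDegree ≤ 1 + ∑ k ∈ Finset.range (q.natDegree + 1), (G k).totalDegree := by
        have := Finset.single_le_sum (f := fun k => (G k).totalDegree)
          (fun i _ => Nat.zero_le _) hk
        exact le_trans this (Nat.le_add_left _ _)
      exact eval₂_hmz (algebraMap ℂ K) h1 hf
  · rw [key 0 (by simp)]
    apply mul_ne_zero (pow_ne_zero _ hf)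
    intro h
    exact hq (Subtype.ext h)
  · rw [Finset.sum_congr rfl fun k hk => by rw [key k hk, mul_assoc], ← Finset.mul_sum]
    have h2 : ∑ k ∈ Finset.range (q.natDegree + 1),
        ((q.coeff k : Algebra.adjoin ℂ (Set.range fun i => f i / f 0)) : K) * ξ ^ k = 0 := by
      rw [← hq0, Polynomial.aeval_eq_sum_range]
      refine Finset.sum_congr rfl fun k _ => ?_
      rw [Algebra.smul_def]
      rfl
    rw [h2, mul_zero]

variable {N : ℕ} (P : Ideal (MvPolynomial (Fin (N + 1)) ℂ)) [P.IsPrime]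

private theorem X_coordFun_ne {l : Fin (N + 1)} (h : coordFun P l ≠ 0) : X l ∉ P := by
  intro hX
  apply h
  rw [coordFun, Ideal.Quotient.eq_zero_iff_mem.2 hX, map_zero]

private theorem X_coordFun_ne' {l : Fin (N + 1)} (h : X l ∉ P) : coordFun P l ≠ 0 := by
  intro h0
  apply h
  rw [coordFun] at h0
  have h10 : Ideal.Quotient.mk P (X l) = 0 :=
    (IsFractionRing.injective (MvPolynomial (Fin (N + 1)) ℂ ⧸ P)
      (FractionRing (MvPolynomial (Fin (N + 1)) ℂ ⧸ P))) (by rw [h0, map_zero])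
  exact Ideal.Quotient.eq_zero_iff_mem.1 h10

theorem exists_good_coordinate {k : ℕ} (z : Fin (k + 1) → FunField P) (hz : IsTranscendenceBasis ℂ z)
    {n : ℕ} (D : PrimeDivisorOver (FunField P) n) :
    ∃ l, X l ∉ P ∧ ∀ i, 0 ≤ D.ord (ratio P i l) := by
  obtain ⟨x, hx0, -, -, -, hx5, hx6⟩ := exists_point P z hz
  obtain ⟨l, hl⟩ := Finite.exists_min fun l => D.ord (x l)
  obtain ⟨i₀, hi₀⟩ : ∃ i, x i ≠ 0 := by
    by_contra hcon
    push Not at hcon
    exact hx0 (funext hcon)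
  have hl1 : D.ord (x l) ≠ ⊤ := by
    intro h
    have h1 := hl i₀
    rw [h, top_le_iff] at h1
    exact hi₀ (D.ord.top_iff.1 h1)
  have hl2 : x l ≠ 0 := by
    intro h
    exact hl1 (by rw [h]; exact D.ord.map_zero)
  refine ⟨l, X_coordFun_ne P fun h => hl2 ((hx5 l).2 h), fun i => ?_⟩
  rw [← hx6]
  have h2 : x i = x i / x l * x l := by field_simp
  have h3 : D.ord (x l) ≤ D.ord (x i) := hl i
  rw [h2, D.ord.map_mul] at h3
  obtain ⟨c, hc⟩ := WithTop.ne_top_iff_exists.1 hl1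
  rw [← hc] at h3
  rcases h4 : D.ord (x i / x l) with _ | b
  · exact le_top
  · rw [h4] at h3
    have h5 : (c : WithTop ℤ) ≤ ((b + c : ℤ) : WithTop ℤ) := h3
    have h6 : c ≤ b + c := WithTop.coe_le_coe.1 h5
    have h7 : 0 ≤ b := by omega
    exact WithTop.coe_le_coe.2 h7

private theorem X_ord_aeval {K : Type} [Field K] [Algebra ℂ K] {n s : ℕ} (D : PrimeDivisorOver K n)
    (y : Fin s → K) (hy : ∀ i, 0 ≤ D.ord (y i)) (Q : MvPolynomial (Fin s) ℂ) :
    0 ≤ D.ord (aeval y Q) := by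
  induction Q using MvPolynomial.induction_on with
  | C a =>
    rw [aeval_C]
    exact D.ord_const a
  | add p q hp hq =>
    rw [map_add]
    exact D.ord.map_le_add hp hq
  | mul_X p i hp =>
    rw [map_mul, aeval_X, D.ord.map_mul]
    exact add_nonneg hp (hy i)

private theorem X_ord_prod {K : Type} [Field K] [Algebra ℂ K] {n : ℕ} (D : PrimeDivisorOver K n)
    {ι : Type} (S : Finset ι) (y : ι → K) (hy : ∀ i ∈ S, 0 ≤ D.ord (y i)) :
    0 ≤ D.ord (∏ i ∈ S, y i) := by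
  classical
  induction S using Finset.induction_on with
  | empty => rw [Finset.prod_empty, D.ord.map_one]
  | insert a S ha ih =>
    rw [Finset.prod_insert ha, D.ord.map_mul]
    exact add_nonneg (hy a (Finset.mem_insert_self _ _))
      (ih fun i hi => hy i (Finset.mem_insert_of_mem hi))

private theorem X_solve {K : Type} [Field K] {n : ℕ} {A : ℕ → K} {ξ : K} (c : K)
    (h : ∑ j ∈ Finset.range (n + 1), A j * ξ ^ j = 0) :
    c * A 0 = ξ * (-∑ j ∈ Finset.range n, c * A (j + 1) * ξ ^ j) := by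
  rw [Finset.sum_range_succ', pow_zero, mul_one] at h
  have h7 : A 0 = -∑ j ∈ Finset.range n, A (j + 1) * ξ ^ (j + 1) := by
    linear_combination h
  rw [h7, mul_neg, mul_neg, Finset.mul_sum, Finset.mul_sum]
  congr 1
  refine Finset.sum_congr rfl fun j _ => ?_
  ring

/-- Kodaira's lemma. -/
theorem kodaira {k : ℕ} (z : Fin (k + 1) → FunField P) (hz : IsTranscendenceBasis ℂ z) {n : ℕ}
    (hgt : IsLogGeneralType (K := FunField P) (k := n) fun _ => False) :
    ∃ ω : Form (FunField P) n, ω ≠ 0 ∧ ∃ (M : ℕ) (H : FunField P) (o : Fin (N + 1)), 1 ≤ M ∧ H ≠ 0 ∧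
      X o ∉ P ∧ ∀ l, X l ∉ P → ∀ D : PrimeDivisorOver (FunField P) n,
        PoleAtMost 0 D M (H * ratio P l o) ω := by
  classical
  obtain ⟨m, hm, ω, hω, r, f, hf, hpole, halg⟩ := hgt
  obtain ⟨x, hx0, -, -, -, hx5, hx6⟩ := exists_point P z hz
  obtain ⟨o, ho⟩ : ∃ i, x i ≠ 0 := by
    by_contra hcon
    push Not at hcon
    exact hx0 (funext hcon)
  have hoP : X o ∉ P := X_coordFun_ne P fun h => ho ((hx5 o).2 h)
  have hx7 : ∀ l, X l ∉ P → x l ≠ 0 := fun l hl h => X_coordFun_ne' P hl ((hx5 l).1 h)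
  have hξ : ∀ l, X l ∉ P → ratio P o l ≠ 0 := by
    intro l hl
    rw [← hx6]
    exact div_ne_zero ho (hx7 l hl)
  have hex : ∀ l : Fin (N + 1), ∃ (D n : ℕ) (a : ℕ → MvPolynomial (Fin (r + 1)) ℂ),
      (∀ k, (a k).IsHomogeneous D) ∧ aeval f (a 0) ≠ 0 ∧ (X l ∉ P → 1 ≤ D ∧
        ∑ k ∈ Finset.range (n + 1), aeval f (a k) * ratio P o l ^ k = 0) := by
    intro l
    by_cases hl : X l ∈ P
    · refine ⟨0, 0, fun _ => 1, fun _ => isHomogeneous_one _ _, ?_, fun h => absurd hl h⟩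
      rw [map_one]
      exact one_ne_zero
    · obtain ⟨D, n, a, h1, h2, h3, h4⟩ := exists_relation hf (hξ l hl)
        (halg.isAlgebraic (ratio P o l))
      exact ⟨D, n, a, h2, h3, fun _ => ⟨h1, h4⟩⟩
  choose d nn a ha ha0 hrel using hex
  refine ⟨ω, hω, m * ∑ l, d l, ∏ l, aeval f (a l 0), o, ?_, ?_, hoP, ?_⟩
  · have h1 : 1 ≤ d o := (hrel o hoP).1
    have h2 : d o ≤ ∑ l, d l := Finset.single_le_sum (f := d) (fun i _ => Nat.zero_le _)
      (Finset.mem_univ o)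
    exact Nat.mul_pos hm (by omega)
  · exact Finset.prod_ne_zero_iff.2 fun l _ => ha0 l
  · intro l' hl' D
    have h1 : ∀ i, ∃ (g : FunField P) (η : Form (FunField P) n), η ∈ regularForms n D.localRing ∧
        ω = g • η ∧ 0 ≤ D.ord (f i * g ^ m) := by
      intro i
      obtain ⟨g, η, h2, h3, h4⟩ := (hpole i D).1 (fun h => h)
      refine ⟨g, η, h2, h3, ?_⟩
      rw [Nat.cast_zero, add_zero] at h4
      exact h4
    choose g η hη hωg hord using h1
    obtain ⟨i₀, hi₀⟩ := Finite.exists_max fun i => D.ord (g i)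
    have h2 : ∀ i, 0 ≤ D.ord (g i₀ ^ m * f i) := by
      intro i
      refine le_trans (hord i) ?_
      rw [D.ord.map_mul, D.ord.map_mul, D.ord.map_pow, D.ord.map_pow, add_comm]
      gcongr
      exact hi₀ i
    have h3 : ∀ l j, 0 ≤ D.ord (g i₀ ^ (m * d l) * aeval f (a l j)) := by
      intro l j
      have h4 := eval₂_of_isHomogeneous (algebraMap ℂ (FunField P)) (ha l j) (g i₀ ^ m) f
      rw [pow_mul]
      have h5 := X_ord_aeval D (fun i => g i₀ ^ m * f i) h2 (a l j)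
      rw [aeval_def, h4] at h5
      exact h5
    obtain ⟨l, hlP, hl⟩ := exists_good_coordinate P z hz D
    have h4 : D.ord (ratio P o l) ≤ D.ord (g i₀ ^ (m * d l) * aeval f (a l 0)) := by
      have h6 := X_solve (g i₀ ^ (m * d l)) (hrel l hlP).2
      rw [h6, D.ord.map_mul]
      refine le_add_of_nonneg_right ?_
      rw [D.ord.map_neg]
      refine D.ord.map_le_sum fun j _ => ?_
      rw [D.ord.map_mul, D.ord.map_pow]
      exact add_nonneg (h3 l (j + 1)) (nsmul_nonneg (hl o) j)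
    have h5 : D.ord (ratio P o l) ≤ D.ord (g i₀ ^ (m * ∑ l, d l) * ∏ l, aeval f (a l 0)) := by
      have h6 : g i₀ ^ (m * ∑ l, d l) * ∏ l, aeval f (a l 0) =
          ∏ l, (g i₀ ^ (m * d l) * aeval f (a l 0)) := by
        rw [Finset.prod_mul_distrib, Finset.prod_pow_eq_pow_sum, Finset.mul_sum]
      rw [h6, ← Finset.mul_prod_erase _ _ (Finset.mem_univ l), D.ord.map_mul]
      exact le_add_of_le_of_nonneg h4 (X_ord_prod D _ _ fun i _ => h3 i 0)
    refine ⟨g i₀, η i₀, hη i₀, hωg i₀, ?_⟩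
    rw [Nat.cast_zero, add_zero]
    have h6 : (∏ l, aeval f (a l 0)) * ratio P l' o * g i₀ ^ (m * ∑ l, d l) =
        (g i₀ ^ (m * ∑ l, d l) * ∏ l, aeval f (a l 0)) * ratio P l' o := by ring
    rw [h6, D.ord.map_mul]
    have h7 : ratio P o l * ratio P l' o = ratio P l' l := by
      rw [← hx6, ← hx6, ← hx6]
      have := hx7 l hlP
      field_simp
    calc (0 : WithTop ℤ) ≤ D.ord (ratio P l' l) := hl l'
      _ = D.ord (ratio P o l) + D.ord (ratio P l' o) := by rw [← h7, D.ord.map_mul]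
      _ ≤ _ := by gcongr

end Pool.Agent.H68.KR

end
end

section

/-!
# MW Ord2: the initial form of a germ in two variables and the blow-up

`ord_blow`: if `f = O (‖x‖ ^ p)` then `f (x, x (c + w)) = x ^ p * h` with `h (0, w) = ∑ γ j (c + w) ^ j`, `f (x y, y) = y ^ p * h` with
`h (w, 0) = ∑ γ j w ^ (p - j)`, and `f = O (‖x‖ ^ (p + 1))` if `γ = 0`.
-/

set_option autoImplicit false

open Topology Filter Asymptotics

noncomputable section

namespace Pool.Agent.MW

open Pool.Agent.H17BP (bl blInf bl_zero blInf_zero analyticAt_bl analyticAt_blInf)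

/-- the homogeneous polynomial `∑ j ≤ p, γ j * a ^ (p - j) * b ^ j` -/
def hpol (γ : ℕ → ℂ) (p : ℕ) (a b : ℂ) : ℂ := ∑ j ∈ Finset.range (p + 1), γ j * a ^ (p - j) * b ^ j

theorem multi_hpol {p : ℕ} (q : ContinuousMultilinearMap ℂ (fun _ : Fin p => ℂ × ℂ) ℂ) :
    ∃ γ : ℕ → ℂ, ∀ a b : ℂ, q (fun _ => (a, b)) = hpol γ p a b := by
  classical
  refine ⟨fun j => ∑ S : Finset (Fin p) with S.card = p - j, if j ≤ p then
    q (S.piecewise (fun _ => ((1 : ℂ), (0 : ℂ))) (fun _ => ((0 : ℂ), (1 : ℂ)))) else 0, fun a b => ?_⟩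
  have h1 : (fun _ : Fin p => (a, b)) = (fun _ : Fin p => a • ((1 : ℂ), (0 : ℂ))) + fun _ : Fin p => b • ((0 : ℂ), (1 : ℂ)) := by
    funext i
    simp
  have h2 : q (fun _ => (a, b)) = ∑ S : Finset (Fin p), a ^ S.card * b ^ (p - S.card) *
      q (S.piecewise (fun _ => ((1 : ℂ), (0 : ℂ))) (fun _ => ((0 : ℂ), (1 : ℂ)))) := by
    rw [h1]
    have h3 := q.toMultilinearMap.map_add_univ (fun _ : Fin p => a • ((1 : ℂ), (0 : ℂ))) (fun _ : Fin p => b • ((0 : ℂ), (1 : ℂ)))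
    rw [ContinuousMultilinearMap.coe_coe] at h3
    rw [h3]
    refine Finset.sum_congr rfl fun S _ => ?_
    have h4 : (S.piecewise (fun _ : Fin p => a • ((1 : ℂ), (0 : ℂ))) (fun _ : Fin p => b • ((0 : ℂ), (1 : ℂ)))) =
        fun i => (if i ∈ S then a else b) • (S.piecewise (fun _ : Fin p => ((1 : ℂ), (0 : ℂ))) (fun _ => ((0 : ℂ), (1 : ℂ)))) i := by
      funext i
      by_cases hi : i ∈ S
      · simp [Finset.piecewise, hi]
      · simp [Finset.piecewise, hi]
    have h5 : ∏ i : Fin p, (if i ∈ S then a else b) = a ^ S.card * b ^ (p - S.card) := by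
      rw [Finset.prod_ite, Finset.prod_const, Finset.prod_const]
      congr 2
      · simp
      · have h6 : (Finset.univ.filter fun i : Fin p => i ∉ S) = Sᶜ := by
          ext i
          simp
        rw [h6, Finset.card_compl, Fintype.card_fin]
    rw [h4, q.map_smul_univ, h5, smul_eq_mul]
  rw [h2, hpol]
  have h7 : ∀ j ∈ Finset.range (p + 1), (∑ S : Finset (Fin p) with S.card = p - j, if j ≤ p then
      q (S.piecewise (fun _ => ((1 : ℂ), (0 : ℂ))) (fun _ => ((0 : ℂ), (1 : ℂ)))) else 0) * a ^ (p - j) * b ^ j =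
      ∑ S : Finset (Fin p) with p - S.card = j, a ^ S.card * b ^ (p - S.card) *
      q (S.piecewise (fun _ => ((1 : ℂ), (0 : ℂ))) (fun _ => ((0 : ℂ), (1 : ℂ)))) := by
    intro j hj
    have hj' : j ≤ p := Nat.lt_succ_iff.1 (Finset.mem_range.1 hj)
    rw [Finset.sum_mul, Finset.sum_mul]
    refine Finset.sum_congr ?_ ?_
    · ext S
      have h8 : S.card ≤ p := by
        have := S.card_le_univ
        simpa using this
      simp only [Finset.mem_filter, Finset.mem_univ, true_and]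
      omega
    · intro S hS
      have h8 : p - S.card = j := by simpa using hS
      have h9 : S.card ≤ p := by
        have := S.card_le_univ
        simpa using this
      have h10 : S.card = p - j := by omega
      rw [if_pos hj', h8, h10]
      ring
  rw [Finset.sum_congr rfl h7]
  symm
  refine Finset.sum_fiberwise_of_maps_to (s := Finset.univ) (t := Finset.range (p + 1)) (g := fun S : Finset (Fin p) => p - S.card) ?_ _
  intro S _
  rw [Finset.mem_range]
  omega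

theorem exists_init {f : ℂ × ℂ → ℂ} (hf : AnalyticAt ℂ f 0) {p : ℕ} (hO : f =O[𝓝 0] fun x => ‖x‖ ^ p) :
    ∃ γ : ℕ → ℂ, (fun x => f x - hpol γ p x.1 x.2) =O[𝓝 0] fun x => ‖x‖ ^ (p + 1) := by
  obtain ⟨q, hq⟩ := hf
  have h0 : ∀ k, k < p → ∀ y, q k (fun _ => y) = 0 := by
    intro k
    induction k using Nat.strong_induction_on with
    | _ k ih =>
    intro hk y
    have h1 := hq.isBigO_sub_partialSum_pow (k + 1)
    have h2 : (fun y => (q k fun _ => y)) =O[𝓝 0] fun y => ‖y‖ ^ (k + 1) := by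
      have h3 : f =O[𝓝 0] fun x => ‖x‖ ^ (k + 1) := hO.trans (by
        refine IsBigO.of_bound 1 ?_
        filter_upwards [Metric.ball_mem_nhds (0 : ℂ × ℂ) one_pos] with x hx
        rw [mem_ball_zero_iff] at hx
        rw [one_mul, norm_pow, norm_norm, norm_pow, norm_norm]
        exact pow_le_pow_of_le_one (norm_nonneg _) hx.le hk)
      have h4 : (fun y => (q k fun _ => y)) = fun y => f y - (f (0 + y) - q.partialSum (k + 1) y) := by
        funext y
        rw [FormalMultilinearSeries.partialSum, Finset.sum_range_succ, Finset.sum_eq_zero, zero_add, zero_add]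
        · ring
        · intro i hi
          have hi' := Finset.mem_range.1 hi
          exact ih i hi' (hi'.trans hk) y
      rw [h4]
      exact h3.sub h1
    exact h2.continuousMultilinearMap_apply_eq_zero y
  obtain ⟨γ, hγ⟩ := multi_hpol (q p)
  refine ⟨γ, ?_⟩
  have h1 := hq.isBigO_sub_partialSum_pow (p + 1)
  refine h1.congr_left fun y => ?_
  rw [FormalMultilinearSeries.partialSum, Finset.sum_range_succ, Finset.sum_eq_zero, zero_add, zero_add]
  · have h2 := hγ y.1 y.2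
    rw [← h2]
  · intro i hi
    exact h0 i (Finset.mem_range.1 hi) y

theorem exists_div_pow {g : ℂ × ℂ → ℂ} (hg : AnalyticAt ℂ g 0) {p : ℕ} (hO : g =O[𝓝 0] fun x => x.1 ^ p) :
    ∃ h : ℂ × ℂ → ℂ, AnalyticAt ℂ h 0 ∧ ∀ᶠ x in 𝓝 (0 : ℂ × ℂ), g x = x.1 ^ p * h x := by
  by_cases h0 : ∀ᶠ x in 𝓝 (0 : ℂ × ℂ), g x = 0
  · refine ⟨fun _ => 0, analyticAt_const, ?_⟩
    filter_upwards [h0] with x hx
    rw [hx, mul_zero]
  obtain ⟨a, g', hg', hev, hne⟩ := Pool.Agent.H22.HF.exists_div hg h0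
  have hpa : p ≤ a := by
    by_contra hlt
    push Not at hlt
    apply hne
    obtain ⟨C, hC⟩ := hO.bound
    have h1 : ∀ᶠ x in 𝓝 (0 : ℂ × ℂ), ContinuousAt g' x := hg'.eventually_analyticAt.mono fun x hx => hx.continuousAt
    have h2 : ∀ᶠ x in 𝓝 (0 : ℂ × ℂ), x.1 ≠ 0 → ‖g' x‖ ≤ C * ‖x.1‖ := by
      filter_upwards [hC, hev, Metric.ball_mem_nhds (0 : ℂ × ℂ) one_pos] with x h3 h4 h5 h6
      rw [mem_ball_zero_iff] at h5
      have h7 : ‖x.1‖ ≤ 1 := (norm_fst_le x).trans h5.le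
      rw [h4, norm_mul, norm_pow, norm_pow] at h3
      have h8 : 0 < ‖x.1‖ := norm_pos_iff.2 h6
      have h9 : ‖x.1‖ ^ p = ‖x.1‖ ^ a * ‖x.1‖ ^ (p - a) := by
        rw [← pow_add]
        congr 1
        omega
      have h11 : ‖x.1‖ ^ (p - a) ≤ ‖x.1‖ := by
        calc ‖x.1‖ ^ (p - a) ≤ ‖x.1‖ ^ 1 := pow_le_pow_of_le_one h8.le h7 (by omega)
          _ = ‖x.1‖ := pow_one _
      have h12 : 0 < ‖x.1‖ ^ a := pow_pos h8 a
      have h13 : ‖g' x‖ ≤ C * ‖x.1‖ ^ (p - a) := by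
        have h14 : ‖x.1‖ ^ a * ‖g' x‖ ≤ ‖x.1‖ ^ a * (C * ‖x.1‖ ^ (p - a)) := by
          calc ‖x.1‖ ^ a * ‖g' x‖ ≤ C * ‖x.1‖ ^ p := h3
            _ = ‖x.1‖ ^ a * (C * ‖x.1‖ ^ (p - a)) := by rw [h9]; ring
        exact le_of_mul_le_mul_left h14 h12
      have h15 : 0 < ‖x.1‖ ^ (p - a) := pow_pos h8 _
      have hC0 : 0 ≤ C := by
        by_contra hneg
        push Not at hneg
        have : C * ‖x.1‖ ^ (p - a) < 0 := mul_neg_of_neg_of_pos hneg h15
        linarith [norm_nonneg (g' x)]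
      exact h13.trans (mul_le_mul_of_nonneg_left h11 hC0)
    have h3 : ∀ᶠ w in 𝓝 (0 : ℂ), (∀ᶠ s in 𝓝 (0 : ℂ), s ≠ 0 → ‖g' (s, w)‖ ≤ C * ‖s‖) ∧ ContinuousAt g' (0, w) := by
      have h4 : ∀ᶠ x in 𝓝 (0 : ℂ) ×ˢ 𝓝 (0 : ℂ), (x.2 ≠ 0 → ‖g' (x.2, x.1)‖ ≤ C * ‖x.2‖) := by
        have h5 : Tendsto (fun x : ℂ × ℂ => (x.2, x.1)) (𝓝 (0 : ℂ) ×ˢ 𝓝 (0 : ℂ)) (𝓝 (0 : ℂ × ℂ)) := by
          rw [← nhds_prod_eq]
          exact (continuous_snd.prodMk continuous_fst).tendsto' _ _ rfl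
        exact h5.eventually h2
      have h6 : Tendsto (fun w : ℂ => ((0 : ℂ), w)) (𝓝 0) (𝓝 0) := (Continuous.prodMk_right (0 : ℂ)).tendsto' _ _ rfl
      exact h4.curry.and (h6.eventually h1)
    filter_upwards [h3] with w hw
    have h4 : Tendsto (fun s : ℂ => g' (s, w)) (𝓝[≠] 0) (𝓝 (g' (0, w))) := by
      have h5 : Tendsto (fun s : ℂ => (s, w)) (𝓝 0) (𝓝 ((0 : ℂ), w)) := (Continuous.prodMk_left w).tendsto' _ _ rfl
      exact (hw.2.tendsto.comp h5).mono_left nhdsWithin_le_nhds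
    have h5 : Tendsto (fun s : ℂ => g' (s, w)) (𝓝[≠] 0) (𝓝 0) := by
      refine squeeze_zero_norm' (a := fun s : ℂ => C * ‖s‖) ?_ ?_
      · rw [eventually_nhdsWithin_iff]
        filter_upwards [hw.1] with s hs hs0
        exact hs hs0
      · have h6 : Tendsto (fun s : ℂ => C * ‖s‖) (𝓝 0) (𝓝 (C * ‖(0 : ℂ)‖)) := (continuous_const.mul continuous_norm).tendsto 0
        rw [norm_zero, mul_zero] at h6
        exact h6.mono_left nhdsWithin_le_nhds
    exact tendsto_nhds_unique h4 h5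
  refine ⟨fun x => x.1 ^ (a - p) * g' x, (analyticAt_fst.pow _).mul hg', ?_⟩
  filter_upwards [hev] with x hx
  rw [hx, ← mul_assoc, ← pow_add]
  congr 2
  omega

/-- the value on the exceptional curve -/
theorem exc_value {g h P : ℂ × ℂ → ℂ} {p : ℕ} (hh : AnalyticAt ℂ h 0) (he : ∀ᶠ x in 𝓝 (0 : ℂ × ℂ), g x = x.1 ^ p * h x)
    (hP : Continuous P) (hO : (fun x => g x - x.1 ^ p * P x) =O[𝓝 0] fun x : ℂ × ℂ => x.1 ^ (p + 1)) :
    ∀ᶠ w in 𝓝 (0 : ℂ), h (0, w) = P (0, w) := by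
  obtain ⟨C, hC⟩ := hO.bound
  have h1 : ∀ᶠ x in 𝓝 (0 : ℂ × ℂ), ContinuousAt h x := hh.eventually_analyticAt.mono fun x hx => hx.continuousAt
  have h2 : ∀ᶠ x in 𝓝 (0 : ℂ × ℂ), x.1 ≠ 0 → ‖h x - P x‖ ≤ C * ‖x.1‖ := by
    filter_upwards [hC, he] with x h3 h4 h6
    have h8 : 0 < ‖x.1‖ := norm_pos_iff.2 h6
    rw [h4, ← mul_sub, norm_mul, norm_pow, norm_pow] at h3
    have h12 : 0 < ‖x.1‖ ^ p := pow_pos h8 p
    refine le_of_mul_le_mul_left ?_ h12
    calc ‖x.1‖ ^ p * ‖h x - P x‖ ≤ C * ‖x.1‖ ^ (p + 1) := h3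
      _ = ‖x.1‖ ^ p * (C * ‖x.1‖) := by rw [pow_succ]; ring
  have h3 : ∀ᶠ w in 𝓝 (0 : ℂ), (∀ᶠ s in 𝓝 (0 : ℂ), s ≠ 0 → ‖h (s, w) - P (s, w)‖ ≤ C * ‖s‖) ∧ ContinuousAt h (0, w) := by
    have h4 : ∀ᶠ x in 𝓝 (0 : ℂ) ×ˢ 𝓝 (0 : ℂ), (x.2 ≠ 0 → ‖h (x.2, x.1) - P (x.2, x.1)‖ ≤ C * ‖x.2‖) := by
      have h5 : Tendsto (fun x : ℂ × ℂ => (x.2, x.1)) (𝓝 (0 : ℂ) ×ˢ 𝓝 (0 : ℂ)) (𝓝 (0 : ℂ × ℂ)) := by
        rw [← nhds_prod_eq]
        exact (continuous_snd.prodMk continuous_fst).tendsto' _ _ rfl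
      exact h5.eventually h2
    have h6 : Tendsto (fun w : ℂ => ((0 : ℂ), w)) (𝓝 0) (𝓝 0) := (Continuous.prodMk_right (0 : ℂ)).tendsto' _ _ rfl
    exact h4.curry.and (h6.eventually h1)
  filter_upwards [h3] with w hw
  have h4 : Tendsto (fun s : ℂ => h (s, w) - P (s, w)) (𝓝[≠] 0) (𝓝 (h (0, w) - P (0, w))) := by
    have h5 : Tendsto (fun s : ℂ => (s, w)) (𝓝 0) (𝓝 ((0 : ℂ), w)) := (Continuous.prodMk_left w).tendsto' _ _ rfl
    exact ((hw.2.tendsto.comp h5).sub ((hP.tendsto _).comp h5)).mono_left nhdsWithin_le_nhds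
  have h5 : Tendsto (fun s : ℂ => h (s, w) - P (s, w)) (𝓝[≠] 0) (𝓝 0) := by
    refine squeeze_zero_norm' (a := fun s : ℂ => C * ‖s‖) ?_ ?_
    · rw [eventually_nhdsWithin_iff]
      filter_upwards [hw.1] with s hs hs0
      exact hs hs0
    · have h6 : Tendsto (fun s : ℂ => C * ‖s‖) (𝓝 0) (𝓝 (C * ‖(0 : ℂ)‖)) := (continuous_const.mul continuous_norm).tendsto 0
      rw [norm_zero, mul_zero] at h6
      exact h6.mono_left nhdsWithin_le_nhds
  exact sub_eq_zero.1 (tendsto_nhds_unique h4 h5)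

theorem norm_bl_le (c : ℂ) : ∀ᶠ x in 𝓝 (0 : ℂ × ℂ), ‖bl c x‖ ≤ (2 + ‖c‖) * ‖x.1‖ := by
  filter_upwards [Metric.ball_mem_nhds (0 : ℂ × ℂ) one_pos] with x hx
  rw [mem_ball_zero_iff] at hx
  have h1 : ‖x.2‖ ≤ 1 := (norm_snd_le x).trans hx.le
  rw [bl, Prod.norm_mk, norm_mul]
  refine max_le ?_ ?_
  · nlinarith [norm_nonneg x.1, norm_nonneg c]
  · have h2 : ‖c + x.2‖ ≤ ‖c‖ + 1 := (norm_add_le _ _).trans (by linarith)
    nlinarith [norm_nonneg x.1, norm_nonneg c]

theorem hpol_bl (γ : ℕ → ℂ) (p : ℕ) (x c : ℂ) : hpol γ p x (x * c) = x ^ p * hpol γ p 1 c := by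
  unfold hpol
  rw [Finset.mul_sum]
  refine Finset.sum_congr rfl fun j hj => ?_
  have h1 : j ≤ p := Nat.lt_succ_iff.1 (Finset.mem_range.1 hj)
  have h2 : x ^ p = x ^ (p - j) * x ^ j := by
    rw [← pow_add]
    congr 1
    omega
  rw [h2, one_pow, mul_pow]
  ring

theorem hpol_swap (γ : ℕ → ℂ) (p : ℕ) (a b : ℂ) : hpol γ p a b = hpol (fun j => γ (p - j)) p b a := by
  unfold hpol
  rw [← Finset.sum_range_reflect]
  refine Finset.sum_congr rfl fun j hj => ?_
  have h1 : j ≤ p := Nat.lt_succ_iff.1 (Finset.mem_range.1 hj)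
  have h2 : p + 1 - 1 - j = p - j := by omega
  have h3 : p - (p - j) = j := by omega
  rw [h2, h3]
  ring

theorem bl_chart {f : ℂ × ℂ → ℂ} (hf : AnalyticAt ℂ f 0) {p : ℕ} {γ : ℕ → ℂ} (hO : f =O[𝓝 0] fun x => ‖x‖ ^ p)
    (hγ : (fun x => f x - hpol γ p x.1 x.2) =O[𝓝 0] fun x => ‖x‖ ^ (p + 1)) (c : ℂ) :
    ∃ h : ℂ × ℂ → ℂ, AnalyticAt ℂ h 0 ∧ (∀ᶠ x in 𝓝 (0 : ℂ × ℂ), f (bl c x) = x.1 ^ p * h x) ∧
      ∀ᶠ w in 𝓝 (0 : ℂ), h (0, w) = hpol γ p 1 (c + w) := by
  have ht : Tendsto (bl c) (𝓝 0) (𝓝 0) := by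
    have := (analyticAt_bl c 0).continuousAt.tendsto
    rwa [bl_zero] at this
  have hg : AnalyticAt ℂ (fun x => f (bl c x)) 0 := by
    have h1 : AnalyticAt ℂ f (bl c 0) := by rw [bl_zero]; exact hf
    exact AnalyticAt.comp (g := f) (f := bl c) h1 (analyticAt_bl c 0)
  have hpow : ∀ k : ℕ, (fun x : ℂ × ℂ => ‖bl c x‖ ^ k) =O[𝓝 0] fun x : ℂ × ℂ => x.1 ^ k := by
    intro k
    refine IsBigO.of_bound ((2 + ‖c‖) ^ k) ?_
    filter_upwards [norm_bl_le c] with x hx
    rw [norm_pow, norm_norm, norm_pow, ← mul_pow]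
    exact pow_le_pow_left₀ (norm_nonneg _) hx k
  have h1 : (fun x => f (bl c x)) =O[𝓝 0] fun x : ℂ × ℂ => x.1 ^ p := (hO.comp_tendsto ht).trans (hpow p)
  obtain ⟨h, hh, he⟩ := exists_div_pow hg h1
  refine ⟨h, hh, he, ?_⟩
  have h2 := exc_value (g := fun x => f (bl c x)) (P := fun x : ℂ × ℂ => hpol γ p 1 (c + x.2)) hh he ?_ ?_
  · simpa using h2
  · unfold hpol
    fun_prop
  · refine (((hγ.comp_tendsto ht).trans (hpow (p + 1)))).congr_left fun x => ?_
    simp only [Function.comp_apply, bl]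
    rw [hpol_bl]

/-- the blow-up of a germ which vanishes of order `≥ p` -/
theorem ord_blow {f : ℂ × ℂ → ℂ} (hf : AnalyticAt ℂ f 0) {p : ℕ} (hO : f =O[𝓝 0] fun x => ‖x‖ ^ p) :
    ∃ γ : ℕ → ℂ,
      (∀ c : ℂ, ∃ h : ℂ × ℂ → ℂ, AnalyticAt ℂ h 0 ∧ (∀ᶠ x in 𝓝 (0 : ℂ × ℂ), f (bl c x) = x.1 ^ p * h x) ∧
        ∀ᶠ w in 𝓝 (0 : ℂ), h (0, w) = hpol γ p 1 (c + w)) ∧
      (∃ h : ℂ × ℂ → ℂ, AnalyticAt ℂ h 0 ∧ (∀ᶠ x in 𝓝 (0 : ℂ × ℂ), f (blInf x) = x.2 ^ p * h x) ∧
        ∀ᶠ w in 𝓝 (0 : ℂ), h (w, 0) = hpol γ p w 1) ∧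
      ((∀ j ≤ p, γ j = 0) → f =O[𝓝 0] fun x => ‖x‖ ^ (p + 1)) := by
  obtain ⟨γ, hγ⟩ := exists_init hf hO
  refine ⟨γ, fun c => bl_chart hf hO hγ c, ?_, ?_⟩
  · have hsw : AnalyticAt ℂ (fun x : ℂ × ℂ => (x.2, x.1)) 0 := analyticAt_snd.prod analyticAt_fst
    have hst : Tendsto (fun x : ℂ × ℂ => (x.2, x.1)) (𝓝 0) (𝓝 0) := (continuous_snd.prodMk continuous_fst).tendsto' _ _ rfl
    have hf' : AnalyticAt ℂ (fun x : ℂ × ℂ => f (x.2, x.1)) 0 := by
      have h1 : AnalyticAt ℂ f ((fun x : ℂ × ℂ => (x.2, x.1)) 0) := hf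
      exact AnalyticAt.comp (g := f) (f := fun x : ℂ × ℂ => (x.2, x.1)) h1 hsw
    have hn : ∀ x : ℂ × ℂ, ‖((x.2, x.1) : ℂ × ℂ)‖ = ‖x‖ := fun x => by
      rw [Prod.norm_mk, Prod.norm_def, max_comm]
    have hO' : (fun x : ℂ × ℂ => f (x.2, x.1)) =O[𝓝 0] fun x => ‖x‖ ^ p := by
      refine (hO.comp_tendsto hst).congr (fun x => rfl) fun x => ?_
      simp only [Function.comp_apply, hn]
    have hγ' : (fun x : ℂ × ℂ => f (x.2, x.1) - hpol (fun j => γ (p - j)) p x.1 x.2) =O[𝓝 0] fun x => ‖x‖ ^ (p + 1) := by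
      refine (hγ.comp_tendsto hst).congr (fun x => ?_) fun x => ?_
      · simp only [Function.comp_apply]
        rw [← hpol_swap]
      · simp only [Function.comp_apply, hn]
    obtain ⟨h, hh, he, hw⟩ := bl_chart hf' hO' hγ' 0
    refine ⟨fun x => h (x.2, x.1), ?_, ?_, ?_⟩
    · have h1 : AnalyticAt ℂ h ((fun x : ℂ × ℂ => (x.2, x.1)) 0) := hh
      exact AnalyticAt.comp (g := h) (f := fun x : ℂ × ℂ => (x.2, x.1)) h1 hsw
    · filter_upwards [hst.eventually he] with x hx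
      rw [← hx]
      simp only [bl, blInf, zero_add]
      congr 2
      ring
    · filter_upwards [hw] with w hw'
      rw [hw', zero_add, ← hpol_swap]
  · intro h0
    refine hγ.congr_left fun x => ?_
    have h1 : hpol γ p x.1 x.2 = 0 := Finset.sum_eq_zero fun j hj => by
      rw [h0 j (Nat.lt_succ_iff.1 (Finset.mem_range.1 hj)), zero_mul, zero_mul]
    rw [h1, sub_zero]

end Pool.Agent.MW

end
end

section

/-!
# SDA KDefs: the metric along entire curves in an open surface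

`X` is the cone of a closed surface, `K` the cone of an open subset of it, `T` the cone of a curve which contains the complement of `K`.
`EntU X K T F`: `F` is an entire curve in `K`, not contained in `T`.  `rho` measures the distance to `T`; where `rho < δ` the metric has no
error term (`near`).
-/

set_option autoImplicit false

open Topology Filter Metric

namespace Pool.Agent.SDA

open Pool.Agent.H36.BP (EN fs wd Sub mt)
open Pool.Agent.H17BP (Pr Surface IsForm NoZeros Eqs IsChart)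
open Pool.Agent.H36.BPL (OpenPart PoleLE AffProper)
open Pool.Agent.SY (Ent)

/-- entire curves in the open cone `K ⊆ X`, not contained in `T` -/
structure EntU {V : Type} [NormedAddCommGroup V] [NormedSpace ℂ V] (X K T : Set V) (F : ℂ → V) : Prop where
  ent : Ent X T F
  memK : ∀ z, F z ∈ K

/-- a metric along the entire curves in `K` -/
structure EnU {V : Type} [NormedAddCommGroup V] [NormedSpace ℂ V] (X K T : Set V) (nu rho : V → ℝ) (M : ℕ) (c₀ C δ : ℝ)
    (g : (ℂ → V) → ℂ → ℝ) : Prop where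
  c₀_pos : 0 < c₀
  C_pos : 0 < C
  δ_pos : 0 < δ
  nonneg : ∀ F, EntU X K T F → ∀ z, 0 ≤ g F z
  usc : ∀ F, EntU X K T F → ∀ z a, g F z < a → ∀ᶠ w in 𝓝 z, g F w < a
  aff : ∀ F, EntU X K T F → ∀ a b : ℂ, a ≠ 0 → ∀ z, g (fun w => F (a * w + b)) z = ‖a‖ * g F (a * z + b)
  unit : ∀ F, EntU X K T F → ∀ h : ℂ → ℂ, Differentiable ℂ h → (∀ z, h z ≠ 0) → ∀ z, g (fun w => h w • F w) z = g F z
  sub : ∀ F, EntU X K T F → ∀ z, 0 < g F z → Sub (fun w => g F w * nu (F w) ^ (-c₀)) z (-(C * g F z ^ 2))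
  near : ∀ F, EntU X K T F → ∀ z, 0 < g F z → rho (F z) < δ → Sub (fun w => g F w * nu (F w) ^ (-c₀)) z 0
  lower : ∀ F, EntU X K T F → ∀ z, ∃ a : ℂ, rho (F z) ^ M * ‖deriv F z - a • F z‖ ≤ C * ‖F z‖ * g F z
  lim : ∀ (l : Filter ℕ), l.NeBot → ∀ (r A ε : ℝ), 0 < r → 0 < ε → ∀ (F : ℕ → ℂ → V) (H : ℂ → V), (∀ᶠ n in l, EntU X K T (F n)) →
    (∀ᶠ n in l, ∀ z ∈ ball (0 : ℂ) r, g (F n) z ≤ A) → (∀ᶠ n in l, ε ≤ g (F n) 0) →
    (∃ h : ℕ → ℂ → ℂ, (∀ᶠ n in l, DifferentiableOn ℂ (h n) (ball 0 r) ∧ ∀ z ∈ ball (0 : ℂ) r, h n z ≠ 0) ∧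
      TendstoLocallyUniformlyOn (fun n z => h n z • F n z) H l (ball 0 r)) →
    (∀ z ∈ ball (0 : ℂ) r, H z ∈ X) → (∃ z ∈ ball (0 : ℂ) r, H z ∉ T) ∧ ∃ z ∈ ball (0 : ℂ) r, ∃ w ∈ ball (0 : ℂ) r, ¬ Pr (H z) (H w)

/-- An open surface `K` in the closed surface `X`, a curve `T ⊇ X ∖ K` and a section `Ω` of `m (K + D) - j H` without zeros outside `T`, with
poles of order less than `m` along `X ∖ K`. -/
structure ModelL {V : Type} [NormedAddCommGroup V] [NormedSpace ℂ V] (X K T : Set V) (m j : ℕ) (Ω : V → V → V → ℂ) {κ : Type} (Q : κ → V → ℂ)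
    (D : ℕ) : Prop where
  surf : Surface X
  opn : OpenPart X K
  aff : ∃ (M : ℕ) (Φ : V → Fin M → ℂ), AffProper X K Φ
  sub : ∀ x ∈ X, x ∉ K → x ∈ T
  one_m : 1 ≤ m
  one_j : 1 ≤ j
  form : IsForm K m j Ω
  noZeros : NoZeros K T Ω
  pole : PoleLE X K (m - 1) Ω
  eqs : Eqs X T Q D
  thin : ∀ σ τ, IsChart X σ τ → ∃ᶠ p in 𝓝 (0 : ℂ × ℂ), σ p ∉ T

end Pool.Agent.SDA

end

section

/-!
# SDA EA (K2): the metric of the nodal case on an open cone in `EN N`

Port of `SY/EiA.lean` to an open part `K` of the closed cone `X`.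
-/

set_option autoImplicit false

open Topology Filter Metric

namespace Pool.Agent.SDA

open Pool.Agent.H36.BP (EN fs wd Sub mt Curve)
open Pool.Agent.H17BP (Pr)
open Pool.Agent.H14.PP (IsCone IsOpenPart)
open Pool.Agent.H36.BPB (MD)

private theorem EiAK_sub_mono {u : ℂ → ℝ} {z : ℂ} {c c' : ℝ} (h : Sub u z c) (hc : c' ≤ c) : Sub u z c' :=
  ⟨h.1, fun t ht => h.2 t (lt_of_lt_of_le ht hc)⟩

private theorem EiAK_proj {N : ℕ} {x : EN N} (hx : x ≠ 0) (v : EN N) :
    ∃ a : ℂ, ‖v - a • x‖ = ‖x‖ * fs x v := by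
  have hxx : (inner ℂ x x : ℂ) ≠ 0 := by
    rw [Ne, inner_self_eq_zero]
    exact hx
  have hxn : 0 < ‖x‖ := norm_pos_iff.mpr hx
  set a : ℂ := inner ℂ x v / inner ℂ x x with ha
  refine ⟨a, ?_⟩
  have ho : inner ℂ x (v - a • x) = (0 : ℂ) := by
    rw [inner_sub_right, inner_smul_right, ha]
    field_simp
    ring
  have h1 : wd x (v - a • x) = ‖x‖ * ‖v - a • x‖ := by
    unfold wd
    rw [ho, norm_zero, ← mul_pow]
    rw [show (‖x‖ * ‖v - a • x‖) ^ 2 - (0 : ℝ) ^ 2 = (‖x‖ * ‖v - a • x‖) ^ 2 by ring]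
    exact Real.sqrt_sq (by positivity)
  have h2 : wd x (v - a • x) = wd x v := by
    have h := Pool.Agent.H36.BP.wd_inv x v 1 (-a)
    rw [one_smul, one_smul, norm_one, neg_smul, ← sub_eq_add_neg] at h
    rw [h]
    ring
  rw [h2] at h1
  unfold fs
  rw [h1]
  field_simp

private theorem EiAK_deriv {N : ℕ} {H : ℂ → EN N} {r : ℝ} (hr : 0 < r) (hd : DifferentiableOn ℂ H (ball 0 r)) (h0 : H 0 ≠ 0)
    (hp : ∀ z ∈ ball (0 : ℂ) r, Pr (H z) (H 0)) : ∃ a : ℂ, deriv H 0 = a • H 0 := by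
  have hxx : (inner ℂ (H 0) (H 0) : ℂ) ≠ 0 := by
    rw [Ne, inner_self_eq_zero]
    exact h0
  have hD : HasDerivAt H (deriv H 0) 0 := (hd.differentiableAt (ball_mem_nhds 0 hr)).hasDerivAt
  have h1 : HasDerivAt (fun w => (innerSL ℂ (H 0)) (H w)) ((innerSL ℂ (H 0)) (deriv H 0)) 0 :=
    (innerSL ℂ (H 0)).hasFDerivAt.comp_hasDerivAt 0 hD
  have h2 : HasDerivAt (fun w => ((innerSL ℂ (H 0)) (H w) / inner ℂ (H 0) (H 0)) • H 0)
      (((innerSL ℂ (H 0)) (deriv H 0) / inner ℂ (H 0) (H 0)) • H 0) 0 := (h1.div_const _).smul_const _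
  have h3 : H =ᶠ[𝓝 0] fun w => ((innerSL ℂ (H 0)) (H w) / inner ℂ (H 0) (H 0)) • H 0 := by
    filter_upwards [ball_mem_nhds (0 : ℂ) hr] with w hw
    obtain ⟨c, _, hc⟩ := hp w hw
    rw [innerSL_apply_apply, hc, inner_smul_right]
    congr 1
    field_simp
  have h4 := h2.congr_of_eventuallyEq h3
  exact ⟨_, hD.unique h4⟩

/-- K2: the metric of the nodal case on an open part `K` of a closed cone in `EN N`. -/
theorem enU_of_metric {N : ℕ} {X K T : Set (EN N)} (hX : IsCone X) (hK : IsOpenPart X K) {G : EN N → EN N → ℝ} {ρ : EN N → ℝ}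
    {M : ℕ} {c₀ C δ : ℝ} (hM : MD K (K ∩ T) G ρ M c₀ C) (hδ : 0 < δ)
    (hn : ∀ (F : ℂ → EN N) (z₀ : ℂ), AnalyticAt ℂ F z₀ → (∀ᶠ z in 𝓝 z₀, F z ∈ K) → 0 < mt G F z₀ → ρ (F z₀) < δ →
      Sub (fun z => mt G F z * ‖F z‖ ^ (-c₀)) z₀ 0) :
    ∃ C' : ℝ, EnU X K T (fun x => ‖x‖) ρ M c₀ C' δ (mt G) := by
  refine ⟨max C 1, ?_⟩
  have hC1 : 1 ≤ max C 1 := le_max_right _ _
  have hCC : C ≤ max C 1 := le_max_left _ _
  refine ⟨hM.c₀_pos, by linarith, hδ, ?_, ?_, ?_, ?_, ?_, ?_, ?_, ?_⟩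
  · intro F hF z
    exact hM.nonneg _ (hF.memK z) _
  · intro F hF z a ha
    have h1 := Pool.Agent.H36.BPB.mt_usc hM isOpen_univ (F := F) ⟨hF.ent.diff.differentiableOn, fun z _ => hF.memK z⟩
    have h2 := h1 z (Set.mem_univ z) a ha
    rwa [nhdsWithin_univ] at h2
  · intro F hF a b _ z
    have h1 := Pool.Agent.H36.BPB.mt_comp hM (F := F) (φ := fun w => a * w + b) (z := z) (hF.ent.diff _)
      (by fun_prop) (hF.memK _)
    have h2 : deriv (fun w : ℂ => a * w + b) z = a := by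
      have h3 : HasDerivAt (fun w : ℂ => a * w + b) a z := by
        simpa using ((hasDerivAt_id z).const_mul a).add_const b
      exact h3.deriv
    rw [h2] at h1
    exact h1
  · intro F hF h hh h0 z
    exact Pool.Agent.H36.BPB.mt_smul hM (hF.ent.diff z) (hh z) (hF.memK z) (h0 z)
  · intro F hF z hz
    have hA : AnalyticAt ℂ F z := hF.ent.diff.analyticAt z
    refine EiAK_sub_mono (hM.sub F z hA (Eventually.of_forall hF.memK) hz) ?_
    have := mul_le_mul_of_nonneg_right hCC (sq_nonneg (mt G F z))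
    linarith
  · intro F hF z hz hρ
    exact hn F z (hF.ent.diff.analyticAt z) (Eventually.of_forall hF.memK) hz hρ
  · intro F hF z
    have hx : F z ≠ 0 := hM.ne _ (hF.memK z)
    obtain ⟨a, ha⟩ := EiAK_proj hx (deriv F z)
    refine ⟨a, ?_⟩
    have h1 := hM.lower (F z) (hF.memK z) (deriv F z)
    have hg : 0 ≤ G (F z) (deriv F z) := hM.nonneg _ (hF.memK z) _
    rw [ha]
    show ρ (F z) ^ M * (‖F z‖ * fs (F z) (deriv F z)) ≤ max C 1 * ‖F z‖ * G (F z) (deriv F z)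
    have h2 : ρ (F z) ^ M * (‖F z‖ * fs (F z) (deriv F z)) = ‖F z‖ * (ρ (F z) ^ M * fs (F z) (deriv F z)) := by ring
    rw [h2, mul_assoc]
    have h3 : ‖F z‖ * (ρ (F z) ^ M * fs (F z) (deriv F z)) ≤ ‖F z‖ * G (F z) (deriv F z) :=
      mul_le_mul_of_nonneg_left h1 (norm_nonneg _)
    have h4 : 0 ≤ ‖F z‖ * G (F z) (deriv F z) := mul_nonneg (norm_nonneg _) hg
    nlinarith
  · intro l hl r A ε hr hε F H hF _ hB hc hH
    obtain ⟨h, hh, hlim⟩ := hc
    have := hl
    have hcur : ∀ᶠ n in l, Curve K (ball 0 r) (fun z => h n z • F n z) := by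
      filter_upwards [hF, hh] with n hn hn2
      exact ⟨hn2.1.smul hn.ent.diff.differentiableOn, fun z hz => hK.smul_mem _ (hn.memK z) _ (hn2.2 z hz)⟩
    have hmem : (0 : ℂ) ∈ ball (0 : ℂ) r := mem_ball_self hr
    have hge : ∀ᶠ n in l, ε ≤ mt G (fun z => h n z • F n z) 0 := by
      filter_upwards [hF, hh, hB] with n hn hn2 hn3
      rw [Pool.Agent.H36.BPB.mt_smul hM (hn.ent.diff 0) (hn2.1.differentiableAt (ball_mem_nhds 0 hr)) (hn.memK 0)
        (hn2.2 0 hmem)]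
      exact hn3
    have hHd : DifferentiableOn ℂ H (ball 0 r) := hlim.differentiableOn (hcur.mono fun n hn => hn.1) isOpen_ball
    have hH00 : H 0 ≠ 0 := hX.ne_zero (hH 0 hmem)
    -- the value at `0` is in `K`
    have hH0 : H 0 ∈ K := by
      by_contra hcon
      have h1 := hM.hur l hl (fun n z => h n z • F n z) H 0 r hr hcur hHd hlim hH00 hcon
      obtain ⟨s, hs, hs2⟩ := Metric.eventually_nhds_iff_ball.mp h1
      set s' : ℝ := min s r with hs'
      have hs'0 : 0 < s' := lt_min hs hr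
      have h2 := hM.lim l hl (fun n z => h n z • F n z) H 0 s' hs'0
        (hcur.mono fun n hn => ⟨hn.1.mono (ball_subset_ball (min_le_right _ _)),
          fun z hz => hn.2 z (ball_subset_ball (min_le_right _ _) hz)⟩)
        (hlim.mono (ball_subset_ball (min_le_right _ _))) hH00
        (fun z hz => hs2 z (ball_subset_ball (min_le_left _ _) hz)) ε hε
      obtain ⟨n, h3, h4⟩ := (h2.and hge).exists
      exact absurd h3 (not_lt.mpr h4)
    have hHε : ε ≤ mt G H 0 :=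
      Pool.Agent.H36.BPB.mt_limit hM (F := fun n z => h n z • F n z) hr hcur hlim hH0 hge
    constructor
    · by_contra hcon
      push Not at hcon
      have hK0 : ∀ᶠ z in 𝓝 (0 : ℂ), H z ∈ K := by
        have h1 : ContinuousAt H 0 := hHd.continuousOn.continuousAt (ball_mem_nhds 0 hr)
        filter_upwards [h1.eventually (hK.rel_open _ hH0), ball_mem_nhds (0 : ℂ) hr] with z hz hz2
        exact hz (hH z hz2)
      have h0 : mt G H 0 = 0 := hM.zero H 0 (hHd.analyticAt (ball_mem_nhds 0 hr)) (by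
        filter_upwards [ball_mem_nhds (0 : ℂ) hr, hK0] with z hz hz2
        exact ⟨hz2, hz2, hcon z hz⟩)
      linarith
    · by_contra hcon
      push Not at hcon
      obtain ⟨a, ha⟩ := EiAK_deriv hr hHd hH00 (fun z hz => hcon z hz 0 hmem)
      have h0 := Pool.Agent.H36.BPB.mt_const hM hH0 ha
      linarith

end Pool.Agent.SDA

end
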