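import Pool.Agent.H43.TL2.M44
import Pool.Agent.H43.TL2.M50
import Pool.Agent.H43.TL2.M76

/-! The parts of this file: H17BP.FinS, H13.CV.EllR, H14.KB.KobNodal, H36.BPL.Wrap, H36.LB.Model, H68.KR.KODL, MQ.CoreD, MQ2.TConv, SY.EiW. -/

section

/-!
# Isolated points of a closed surface

`X ∩ sphere 0 1` is compact (`V` is finite dimensional, hence proper; `X ∩ sphere 0 1` is closed by `Surface.closed`).  Every
`x` in it has an open neighbourhood `U x` on which `y ∈ X → ¬ Pr y x → R y`; finitely many of them, `x ∈ F`, cover it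
(`IsCompact.elim_nhds_subcover`).  Let `x ∈ X`; `x ≠ 0`; `y = (‖x‖⁻¹ : ℂ) • x ∈ X` has norm `1`, so it is in `U q`, `q ∈ F`:
`Pr y q`, hence `Pr x q`, or `R y`, hence `R x` by `hR`.
-/

open Topology Filter

noncomputable section

namespace Pool.Agent.H17BP

variable {V : Type} [NormedAddCommGroup V] [NormedSpace ℂ V]

theorem exists_finset_of_isolated [FiniteDimensional ℂ V] {X : Set V} (hX : Surface X) {R : V → Prop}
    (hR : ∀ x y, Pr x y → R y → R x) (h : ∀ x ∈ X, ∀ᶠ y in 𝓝 x, y ∈ X → ¬ Pr y x → R y) :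
    ∃ F : Finset V, (∀ q ∈ F, q ∈ X) ∧ ∀ x ∈ X, R x ∨ ∃ q ∈ F, Pr x q := by
  have : ProperSpace V := FiniteDimensional.proper ℂ V
  have hcl : IsClosed (X ∩ Metric.sphere (0 : V) 1) := by
    refine isClosed_of_closure_subset fun y hy => ?_
    have h1 : y ∈ Metric.sphere (0 : V) 1 := by
      have := closure_mono Set.inter_subset_right hy
      rwa [Metric.isClosed_sphere.closure_eq] at this
    have h2 : y ∈ closure X := closure_mono Set.inter_subset_left hy
    refine ⟨hX.closed y h2 ?_, h1⟩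
    rintro rfl
    simp at h1
  have hK : IsCompact (X ∩ Metric.sphere (0 : V) 1) :=
    (isCompact_sphere (0 : V) 1).of_isClosed_subset hcl Set.inter_subset_right
  obtain ⟨F, hF, hcov⟩ := hK.elim_nhds_subcover (fun x => {y | y ∈ X → ¬ Pr y x → R y}) fun x hx => h x hx.1
  refine ⟨F, fun q hq => (hF q hq).1, fun x hx => ?_⟩
  have hx0 : x ≠ 0 := fun h0 => hX.zero (h0 ▸ hx)
  have hn : ((‖x‖⁻¹ : ℝ) : ℂ) ≠ 0 := by
    exact_mod_cast inv_ne_zero (norm_ne_zero_iff.2 hx0)
  have hy : ((‖x‖⁻¹ : ℝ) : ℂ) • x ∈ X := hX.smul x hx _ hn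
  have hy1 : ((‖x‖⁻¹ : ℝ) : ℂ) • x ∈ Metric.sphere (0 : V) 1 := by
    rw [mem_sphere_zero_iff_norm, norm_smul, Complex.norm_real, norm_inv, norm_norm,
      inv_mul_cancel₀ (norm_ne_zero_iff.2 hx0)]
  have hxy : Pr x (((‖x‖⁻¹ : ℝ) : ℂ) • x) := Pr.symm ⟨_, hn, rfl⟩
  obtain ⟨q, hq, hyq⟩ := Set.mem_iUnion₂.1 (hcov ⟨hy, hy1⟩)
  by_cases hP : Pr (((‖x‖⁻¹ : ℝ) : ℂ) • x) q
  · exact Or.inr ⟨q, hq, hxy.trans hP⟩
  · exact Or.inl (hR _ _ hxy (hyq hy hP))

end Pool.Agent.H17BP

end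
end

section

/-!
# CV EllR: the relation between the generators

`ell_rel`: elimination: `v² / u³` has order `0`, value `c ≠ 0` at `E` (`exists_value`, `res_eq_zero_iff`): `v² - c u³` has order `≥ -5` (or is `0`); `uv` has order `-5`: subtract `a u v` with `a` the value of
`(v² - c u³) / (u v)`: the order is `≥ -4`; subtract `d u²`, `b v`, `e u` in the same way: the rest has order `≥ -1` at `E`, no other poles, so it is a constant.
-/

set_option autoImplicit false

open Pool.Agent.H23.Fano (PrimeDivisorOver Form regularForms)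

noncomputable section

namespace Pool.Agent.H13.CV

variable {K : Type} [Field K] [Algebra ℂ K]

private theorem step (hK : CurveField K) {E : Place K} {n : ℤ} {r g : K} (hr : (n : WithTop ℤ) ≤ E.ord r)
    (hg0 : g ≠ 0) (hg : oz E g = n) : ∃ a : ℂ, ((n + 1 : ℤ) : WithTop ℤ) ≤ E.ord (r - algebraMap ℂ K a * g) := by
  have hq : 0 ≤ E.ord (r / g) := by
    rw [nonneg_iff]
    rcases le_ord_iff.1 hr with h | h
    · left
      rw [h, zero_div]
    · by_cases hr0 : r = 0
      · left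
        rw [hr0, zero_div]
      · right
        rw [oz_div E hr0 hg0, hg]
        linarith
  obtain ⟨a, ha⟩ := exists_value hK hq
  refine ⟨a, ?_⟩
  have e : r - algebraMap ℂ K a * g = (r / g - algebraMap ℂ K a) * g := by
    rw [sub_mul, div_mul_cancel₀ _ hg0]
  rw [e, le_ord_iff]
  by_cases h0 : r / g - algebraMap ℂ K a = 0
  · left
    rw [h0, zero_mul]
  · right
    rcases pos_iff.1 ha with h | h
    · exact absurd h h0
    · rw [oz_mul E h0 hg0, hg]
      linarith

theorem ell_rel (hK : CurveField K) {E : Place K} (h1 : ∀ f ∈ LD (dv E 1), ∃ c : ℂ, f = algebraMap ℂ K c) {u v : K} (hu : oz E u = -2) (hv : oz E v = -3)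
    (hu' : ∀ E', E' ≠ E → 0 ≤ E'.ord u) (hv' : ∀ E', E' ≠ E → 0 ≤ E'.ord v) :
    ∃ c a d b e f : ℂ, c ≠ 0 ∧ v ^ 2 = algebraMap ℂ K c * u ^ 3 + algebraMap ℂ K a * (u * v) + algebraMap ℂ K d * u ^ 2 + algebraMap ℂ K b * v +
      algebraMap ℂ K e * u + algebraMap ℂ K f := by
  have hu0 : u ≠ 0 := by
    rintro rfl
    rw [oz_zero] at hu
    norm_num at hu
  have hv0 : v ≠ 0 := by
    rintro rfl
    rw [oz_zero] at hv
    norm_num at hv
  have ozv2 : oz E (v ^ 2) = -6 := by
    rw [oz_pow, hv]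
    norm_num
  have ozu3 : oz E (u ^ 3) = -6 := by
    rw [oz_pow, hu]
    norm_num
  have ozu2 : oz E (u ^ 2) = -4 := by
    rw [oz_pow, hu]
    norm_num
  have ozuv : oz E (u * v) = -5 := by
    rw [oz_mul E hu0 hv0, hu, hv]
    norm_num
  obtain ⟨c, hc⟩ := step hK (E := E) (n := -6) (r := v ^ 2) (g := u ^ 3)
    (le_ord_iff.2 (Or.inr (le_of_eq ozv2.symm))) (pow_ne_zero 3 hu0) ozu3
  have hc0 : c ≠ 0 := by
    rintro rfl
    rw [map_zero, zero_mul, sub_zero] at hc
    rcases le_ord_iff.1 hc with h | h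
    · exact pow_ne_zero 2 hv0 h
    · rw [ozv2] at h
      norm_num at h
  obtain ⟨a, ha⟩ := step hK (E := E) (n := -5) (r := v ^ 2 - algebraMap ℂ K c * u ^ 3) (g := u * v)
    (by simpa using hc) (mul_ne_zero hu0 hv0) ozuv
  obtain ⟨d, hd⟩ := step hK (E := E) (n := -4) (r := v ^ 2 - algebraMap ℂ K c * u ^ 3 - algebraMap ℂ K a * (u * v)) (g := u ^ 2)
    (by simpa using ha) (pow_ne_zero 2 hu0) ozu2
  obtain ⟨b, hb⟩ := step hK (E := E) (n := -3)
    (r := v ^ 2 - algebraMap ℂ K c * u ^ 3 - algebraMap ℂ K a * (u * v) - algebraMap ℂ K d * u ^ 2) (g := v)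
    (by simpa using hd) hv0 hv
  obtain ⟨e, he⟩ := step hK (E := E) (n := -2)
    (r := v ^ 2 - algebraMap ℂ K c * u ^ 3 - algebraMap ℂ K a * (u * v) - algebraMap ℂ K d * u ^ 2 - algebraMap ℂ K b * v) (g := u)
    (by simpa using hb) hu0 hu
  obtain ⟨f, hf⟩ := h1 (v ^ 2 - algebraMap ℂ K c * u ^ 3 - algebraMap ℂ K a * (u * v) - algebraMap ℂ K d * u ^ 2 -
    algebraMap ℂ K b * v - algebraMap ℂ K e * u) (by
      rw [mem_LD]
      intro E'
      by_cases hE : E' = E
      · subst hE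
        have : dv E' 1 E' = 1 := by simp [dv]
        rw [this]
        simpa using he
      · have : dv E 1 E' = 0 := by simp [dv, hE]
        rw [this]
        have hu1 := hu' E' hE
        have hv1 := hv' E' hE
        have := nonneg_sub (nonneg_sub (nonneg_sub (nonneg_sub (nonneg_sub (nonneg_pow hv1 2)
          (nonneg_mul (const_nonneg E' c) (nonneg_pow hu1 3)))
          (nonneg_mul (const_nonneg E' a) (nonneg_mul hu1 hv1)))
          (nonneg_mul (const_nonneg E' d) (nonneg_pow hu1 2)))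
          (nonneg_mul (const_nonneg E' b) hv1))
          (nonneg_mul (const_nonneg E' e) hu1)
        simpa using this)
  exact ⟨c, a, d, b, e, f, hc0, by linear_combination hf⟩

end Pool.Agent.H13.CV

end
end

section

/-!
# Kobayashi hyperbolicity modulo the curve: the nodal case
-/

open Topology Filter Metric

noncomputable section

namespace Pool.Agent.H14.KB

attribute [-instance] ProperSMul.toContinuousSMul

open Pool.Agent Pool.Agent.H17BP
open Pool.Agent.H17 (PN HolomorphicInto)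
open Pool.Agent.H36.BP

/-- the point of `ℙ^N` of a vector -/
def ptN {N : ℕ} (x₁ : Fin (N + 1) → ℂ) (hx₁ : x₁ ≠ 0) (x : Fin (N + 1) → ℂ) : PN N :=
  open Classical in if h : x ≠ 0 then Projectivization.mk ℂ x h else Projectivization.mk ℂ x₁ hx₁

theorem ptN_eq {N : ℕ} (x₁ : Fin (N + 1) → ℂ) (hx₁ : x₁ ≠ 0) {x y : Fin (N + 1) → ℂ} (hy : y ≠ 0)
    (h : Pr x y) : ptN x₁ hx₁ x = Projectivization.mk ℂ y hy := by
  obtain ⟨c, hc, rfl⟩ := h
  have h1 : c • y ≠ 0 := smul_ne_zero hc hy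
  unfold ptN
  rw [dif_pos h1, Projectivization.mk_eq_mk_iff']
  exact ⟨c, rfl⟩

/-- the set of points of `ℙ^N` of a cone -/
def ptsOf {N : ℕ} (X' : Set (EN N)) : Set (PN N) := {p | (WithLp.toLp 2 p.rep : EN N) ∈ X'}

theorem coneOf_ptsOf {N : ℕ} {X' : Set (EN N)} (h0 : (0 : EN N) ∉ X')
    (hs : ∀ x ∈ X', ∀ c : ℂ, c ≠ 0 → c • x ∈ X') : coneOf (ptsOf X') = X' := by
  ext x
  constructor
  · rintro ⟨h, h1⟩
    obtain ⟨a, ha, h2⟩ := rep_mk (V := Fin (N + 1) → ℂ) h
    have h3 : (WithLp.toLp 2 (Projectivization.mk ℂ x.ofLp h).rep : EN N) ∈ X' := h1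
    rw [h2, WithLp.toLp_smul, WithLp.toLp_ofLp] at h3
    have h4 := hs _ h3 a⁻¹ (inv_ne_zero ha)
    rwa [smul_smul, inv_mul_cancel₀ ha, one_smul] at h4
  · intro hx
    have hx0 : x ≠ 0 := fun e => h0 (e ▸ hx)
    refine ⟨ofLp_ne_zero hx0, ?_⟩
    show (WithLp.toLp 2 (Projectivization.mk ℂ x.ofLp (ofLp_ne_zero hx0)).rep : EN N) ∈ X'
    obtain ⟨a, ha, h2⟩ := rep_mk (V := Fin (N + 1) → ℂ) (ofLp_ne_zero hx0)
    rw [h2, WithLp.toLp_smul, WithLp.toLp_ofLp]
    exact hs _ hx a ha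

end Pool.Agent.H14.KB

end
end

section

/-!
# BPL Wrap: from maps into the projective space to functions
-/

set_option autoImplicit false

open Topology Filter

noncomputable section

namespace Pool.Agent.H36.BPL

open Pool.Agent.H17 (puncturedDisc)
open Pool.Agent.H36.BP (HolInto rep_mk)
open Pool.Agent.H17BP (Surface IsChart IsForm NoZeros NodalAt Pr HolP Picard Eqs)

variable {V : Type} [NormedAddCommGroup V] [NormedSpace ℂ V]

/-- the point of the projective space of a vector -/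
def W_pt (x₁ : V) (hx₁ : x₁ ≠ 0) (x : V) : Projectivization ℂ V :=
  open Classical in if h : x ≠ 0 then Projectivization.mk ℂ x h else Projectivization.mk ℂ x₁ hx₁

theorem W_pt_eq (x₁ : V) (hx₁ : x₁ ≠ 0) {x y : V} (hy : y ≠ 0) (h : Pr x y) : W_pt x₁ hx₁ x = Projectivization.mk ℂ y hy := by
  obtain ⟨c, hc, rfl⟩ := h
  have h1 : c • y ≠ 0 := smul_ne_zero hc hy
  unfold W_pt
  rw [dif_pos h1, Projectivization.mk_eq_mk_iff']
  exact ⟨c, rfl⟩

theorem W_pr_of_mk {x y : V} (hx : x ≠ 0) (hy : y ≠ 0) (h : Projectivization.mk ℂ x hx = Projectivization.mk ℂ y hy) : Pr x y := by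
  rw [Projectivization.mk_eq_mk_iff'] at h
  obtain ⟨c, hc⟩ := h
  refine ⟨c, ?_, hc.symm⟩
  rintro rfl
  rw [zero_smul] at hc
  exact hx hc.symm

theorem W_mem {z : ℂ} : z ∈ puncturedDisc ↔ z ≠ 0 ∧ ‖z‖ < 1 := by
  unfold puncturedDisc
  simp [and_comm]

/-- from maps into the projective space to functions -/
theorem W_picard {X B : Set V} (h0 : (0 : V) ∉ X) (hX : ∀ x ∈ X, ∀ c : ℂ, c ≠ 0 → c • x ∈ X) (hB : ∀ x ∈ B, ∀ c : ℂ, c ≠ 0 → c • x ∈ B)
    (hP : ∀ f : ℂ → Projectivization ℂ V, HolInto f puncturedDisc → (∀ z ∈ puncturedDisc, (f z).rep ∈ X) →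
      (∃ z ∈ puncturedDisc, (f z).rep ∉ B) →
      ∃ g : ℂ → Projectivization ℂ V, HolInto g (Metric.ball 0 1) ∧ ∀ z ∈ puncturedDisc, g z = f z) : Picard X B := by
  intro r hr f hf hfB
  obtain ⟨z₁, hz₁, hz₁r, hz₁B⟩ := hfB
  have hne : ∀ x ∈ X, x ≠ 0 := fun x hx e => h0 (e ▸ hx)
  have hx₁ : f z₁ ≠ 0 := hne _ (hf z₁ hz₁ hz₁r).2
  have hrC : (r : ℂ) ≠ 0 := by exact_mod_cast hr.ne'
  have hsc : ∀ z ∈ puncturedDisc, (r : ℂ) * z ≠ 0 ∧ ‖(r : ℂ) * z‖ < r := by
    intro z hz
    obtain ⟨h1, h2⟩ := W_mem.mp hz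
    refine ⟨mul_ne_zero hrC h1, ?_⟩
    rw [norm_mul, Complex.norm_real, Real.norm_of_nonneg hr.le]
    nlinarith
  set p : ℂ → Projectivization ℂ V := fun z => W_pt (f z₁) hx₁ (f (r * z)) with hp
  have hrefl : ∀ x : V, Pr x x := fun x => ⟨1, one_ne_zero, (one_smul _ _).symm⟩
  have hpz : ∀ z ∈ puncturedDisc, ∀ h : f (r * z) ≠ 0, p z = Projectivization.mk ℂ (f (r * z)) h :=
    fun z _ h => W_pt_eq _ _ h (hrefl _)
  obtain ⟨g, hg, hgf⟩ := hP p (fun z₀ hz₀ => by
    obtain ⟨h1, h2⟩ := hsc z₀ hz₀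
    obtain ⟨F, hF, hF0, hFe⟩ := (hf _ h1 h2).1
    have hmul : AnalyticAt ℂ (fun z : ℂ => (r : ℂ) * z) z₀ := analyticAt_const.mul analyticAt_id
    have hF' : AnalyticAt ℂ (fun z : ℂ => F ((r : ℂ) * z)) z₀ := AnalyticAt.comp (g := F) (f := fun z : ℂ => (r : ℂ) * z) hF hmul
    refine ⟨fun z => F (r * z), hF', ?_⟩
    filter_upwards [hF'.continuousAt.eventually_ne hF0, hmul.continuousAt.eventually hFe] with z h3 h4
    exact ⟨h3, W_pt_eq _ _ h3 h4⟩) (fun z hz => by
    obtain ⟨h1, h2⟩ := hsc z hz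
    have h3 := (hf _ h1 h2).2
    rw [hpz z hz (hne _ h3)]
    obtain ⟨a, ha, h4⟩ := rep_mk (hne _ h3)
    rw [h4]
    exact hX _ h3 a ha) ⟨z₁ / r, by
      rw [W_mem]
      constructor
      · exact div_ne_zero hz₁ hrC
      · rw [norm_div, Complex.norm_real, Real.norm_of_nonneg hr.le, div_lt_one hr]
        exact hz₁r, by
      have h1 : (r : ℂ) * (z₁ / r) = z₁ := by field_simp
      have h2 : p (z₁ / r) = Projectivization.mk ℂ (f z₁) hx₁ := by
        rw [hp]
        simp only [h1]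
        exact W_pt_eq _ _ hx₁ (hrefl _)
      rw [h2]
      obtain ⟨a, ha, h4⟩ := rep_mk hx₁
      rw [h4]
      intro h5
      apply hz₁B
      have h6 := hB _ h5 a⁻¹ (inv_ne_zero ha)
      rwa [smul_smul, inv_mul_cancel₀ ha, one_smul] at h6⟩
  obtain ⟨φ, hφ, hφe⟩ := hg 0 (Metric.mem_ball_self one_pos)
  have hdiv : AnalyticAt ℂ (fun z : ℂ => z / (r : ℂ)) 0 := analyticAt_id.div analyticAt_const hrC
  have hφ0 : φ 0 ≠ 0 := hφe.self_of_nhds.1
  refine ⟨fun z => φ (z / r), AnalyticAt.comp (g := φ) (f := fun z : ℂ => z / (r : ℂ)) (by rw [zero_div]; exact hφ) hdiv, by simpa using hφ0, ?_⟩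
  have ht : Tendsto (fun z : ℂ => z / (r : ℂ)) (𝓝 0) (𝓝 0) := by
    have := hdiv.continuousAt.tendsto
    rwa [zero_div] at this
  have hnear : ∀ᶠ z : ℂ in 𝓝 0, ‖z‖ < r := by
    have : ContinuousAt (fun z : ℂ => ‖z‖) 0 := continuous_norm.continuousAt
    exact this.eventually_lt continuousAt_const (by simpa using hr)
  rw [eventually_nhdsWithin_iff]
  filter_upwards [ht.eventually hφe, hnear] with z h1 h2 h3
  obtain ⟨h4, h5⟩ := h1
  have hz0 : z ≠ 0 := h3
  have hzp : z / r ∈ puncturedDisc := by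
    rw [W_mem]
    constructor
    · exact div_ne_zero hz0 hrC
    · rw [norm_div, Complex.norm_real, Real.norm_of_nonneg hr.le, div_lt_one hr]
      exact h2
  have h6 := hgf _ hzp
  have h7 : (r : ℂ) * (z / r) = z := by field_simp
  have h8 : f z ≠ 0 := hne _ (hf z hz0 h2).2
  have h9 := hpz _ hzp (by rw [h7]; exact h8)
  rw [h5, h9] at h6
  have h10 := W_pr_of_mk _ _ h6.symm
  rwa [h7] at h10

end Pool.Agent.H36.BPL

end
end

section

/-!
# LB Model: open surfaces with an arbitrary boundary curve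
-/

set_option autoImplicit false

namespace Pool.Agent.H36.LB

open Filter Topology Metric
open Pool.Agent.H17BP (Surface IsChart IsForm NoZeros NodalAt Pr HolP Picard Eqs)
open Pool.Agent.H36.BPL (OpenPart PoleLE)

variable {V : Type} [NormedAddCommGroup V] [NormedSpace ℂ V]

/-- A closed surface `X`, an open part `K` of it, a curve `T ⊇ X ∖ K`, a section `Ω` of `m K_X - j H` on `K` without zeros outside `T` and with
poles of order at most `m - 1` along `X ∖ K`, such that every limit of order at most two of discs in `K` which is not a map into `T` is constant. -/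
structure ModelL (X K T : Set V) (m j : ℕ) (Ω : V → V → V → ℂ) {κ : Type} (Q : κ → V → ℂ) (D : ℕ) : Prop where
  surf : Surface X
  opn : OpenPart X K
  sub : ∀ x ∈ X, x ∉ K → x ∈ T
  one_m : 1 ≤ m
  one_j : 1 ≤ j
  form : IsForm K m j Ω
  noZeros : NoZeros K T Ω
  pole : PoleLE X K (m - 1) Ω
  eqs : Eqs X T Q D
  thin : ∀ σ τ, IsChart X σ τ → ∃ᶠ p in 𝓝 (0 : ℂ × ℂ), σ p ∉ T
  lim : Lim2 X K T

end Pool.Agent.H36.LB

end

section

/-!
# KR KODL: Kodaira's lemma with logarithmic poles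
-/

set_option autoImplicit false

open MvPolynomial
open Pool.Agent.H23.Fano (Form regularForms PrimeDivisorOver)
open Pool.Agent.H17GT (coordFun functionField)
open Pool.Agent.H17LG.Variety (FunField ratio PoleAtMost IsLogGeneralType)

noncomputable section

namespace Pool.Agent.H68.KR

variable {N : ℕ} (P : Ideal (MvPolynomial (Fin (N + 1)) ℂ)) [P.IsPrime]

private theorem X_coordFun_ne {l : Fin (N + 1)} (h : coordFun P l ≠ 0) : X l ∉ P := by
  intro hX
  apply h
  rw [coordFun, Ideal.Quotient.eq_zero_iff_mem.2 hX, map_zero]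

private theorem X_coordFun_ne' {l : Fin (N + 1)} (h : X l ∉ P) : coordFun P l ≠ 0 := by
  intro h0
  apply h
  rw [coordFun] at h0
  have h10 : Ideal.Quotient.mk P (X l) = 0 :=
    (IsFractionRing.injective (MvPolynomial (Fin (N + 1)) ℂ ⧸ P)
      (FractionRing (MvPolynomial (Fin (N + 1)) ℂ ⧸ P))) (by rw [h0, map_zero])
  exact Ideal.Quotient.eq_zero_iff_mem.1 h10

private theorem X_ord_aeval {K : Type} [Field K] [Algebra ℂ K] {n s : ℕ} (D : PrimeDivisorOver K n)
    (y : Fin s → K) (hy : ∀ i, 0 ≤ D.ord (y i)) (Q : MvPolynomial (Fin s) ℂ) :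
    0 ≤ D.ord (aeval y Q) := by
  induction Q using MvPolynomial.induction_on with
  | C a =>
    rw [aeval_C]
    exact D.ord_const a
  | add p q hp hq =>
    rw [map_add]
    exact D.ord.map_le_add hp hq
  | mul_X p i hp =>
    rw [map_mul, aeval_X, D.ord.map_mul]
    exact add_nonneg hp (hy i)

private theorem X_ord_prod {K : Type} [Field K] [Algebra ℂ K] {n : ℕ} (D : PrimeDivisorOver K n)
    {ι : Type} (S : Finset ι) (y : ι → K) (hy : ∀ i ∈ S, 0 ≤ D.ord (y i)) :
    0 ≤ D.ord (∏ i ∈ S, y i) := by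
  classical
  induction S using Finset.induction_on with
  | empty => rw [Finset.prod_empty, D.ord.map_one]
  | insert a S ha ih =>
    rw [Finset.prod_insert ha, D.ord.map_mul]
    exact add_nonneg (hy a (Finset.mem_insert_self _ _))
      (ih fun i hi => hy i (Finset.mem_insert_of_mem hi))

private theorem X_solve {K : Type} [Field K] {n : ℕ} {A : ℕ → K} {ξ : K} (c : K)
    (h : ∑ j ∈ Finset.range (n + 1), A j * ξ ^ j = 0) :
    c * A 0 = ξ * (-∑ j ∈ Finset.range n, c * A (j + 1) * ξ ^ j) := by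
  rw [Finset.sum_range_succ', pow_zero, mul_one] at h
  have h7 : A 0 = -∑ j ∈ Finset.range n, A (j + 1) * ξ ^ (j + 1) := by
    linear_combination h
  rw [h7, mul_neg, mul_neg, Finset.mul_sum, Finset.mul_sum]
  congr 1
  refine Finset.sum_congr rfl fun j _ => ?_
  ring

/-- Kodaira's lemma. -/
theorem kodaira_log {k : ℕ} (z : Fin (k + 1) → FunField P) (hz : IsTranscendenceBasis ℂ z) {n : ℕ}
    {Bd : PrimeDivisorOver (FunField P) n → Prop} (hgt : IsLogGeneralType Bd) :
    ∃ ω : Form (FunField P) n, ω ≠ 0 ∧ ∃ (M : ℕ) (H : FunField P) (o : Fin (N + 1)), 1 ≤ M ∧ H ≠ 0 ∧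
      X o ∉ P ∧ ∀ l, X l ∉ P → ∀ D : PrimeDivisorOver (FunField P) n,
        (¬ Bd D → PoleAtMost 0 D M (H * ratio P l o) ω) ∧
          (Bd D → PoleAtMost M D M (H * ratio P l o) ω) := by
  classical
  obtain ⟨m, hm, ω, hω, r, f, hf, hpole, halg⟩ := hgt
  obtain ⟨x, hx0, -, -, -, hx5, hx6⟩ := exists_point P z hz
  obtain ⟨o, ho⟩ : ∃ i, x i ≠ 0 := by
    by_contra hcon
    push Not at hcon
    exact hx0 (funext hcon)
  have hoP : X o ∉ P := X_coordFun_ne P fun h => ho ((hx5 o).2 h)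
  have hx7 : ∀ l, X l ∉ P → x l ≠ 0 := fun l hl h => X_coordFun_ne' P hl ((hx5 l).1 h)
  have hξ : ∀ l, X l ∉ P → ratio P o l ≠ 0 := by
    intro l hl
    rw [← hx6]
    exact div_ne_zero ho (hx7 l hl)
  have hex : ∀ l : Fin (N + 1), ∃ (D n : ℕ) (a : ℕ → MvPolynomial (Fin (r + 1)) ℂ),
      (∀ k, (a k).IsHomogeneous D) ∧ aeval f (a 0) ≠ 0 ∧ (X l ∉ P → 1 ≤ D ∧
        ∑ k ∈ Finset.range (n + 1), aeval f (a k) * ratio P o l ^ k = 0) := by
    intro l
    by_cases hl : X l ∈ P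
    · refine ⟨0, 0, fun _ => 1, fun _ => isHomogeneous_one _ _, ?_, fun h => absurd hl h⟩
      rw [map_one]
      exact one_ne_zero
    · obtain ⟨D, n, a, h1, h2, h3, h4⟩ := exists_relation hf (hξ l hl)
        (halg.isAlgebraic (ratio P o l))
      exact ⟨D, n, a, h2, h3, fun _ => ⟨h1, h4⟩⟩
  choose d nn a ha ha0 hrel using hex
  refine ⟨ω, hω, m * ∑ l, d l, ∏ l, aeval f (a l 0), o, ?_, ?_, hoP, ?_⟩
  · have h1 : 1 ≤ d o := (hrel o hoP).1
    have h2 : d o ≤ ∑ l, d l := Finset.single_le_sum (f := d) (fun i _ => Nat.zero_le _)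
      (Finset.mem_univ o)
    exact Nat.mul_pos hm (by omega)
  · exact Finset.prod_ne_zero_iff.2 fun l _ => ha0 l
  · intro l' hl' D
    obtain ⟨t, ht⟩ := D.exists_uniformizer
    -- the common part
    have hmain : ∀ e : ℕ, (∀ i, ∃ (g : FunField P) (η : Form (FunField P) n),
        η ∈ regularForms n D.localRing ∧ ω = g • η ∧ 0 ≤ D.ord (f i * (t ^ e * g) ^ m)) →
        ∃ (g : FunField P) (η : Form (FunField P) n), η ∈ regularForms n D.localRing ∧ ω = g • η ∧
          0 ≤ D.ord ((∏ l, aeval f (a l 0)) * ratio P l' o * (t ^ e * g) ^ (m * ∑ l, d l)) := by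
      intro e h1
      choose g η hη hωg hord using h1
      obtain ⟨i₀, hi₀⟩ := Finite.exists_max fun i => D.ord (g i)
      have h2 : ∀ i, 0 ≤ D.ord ((t ^ e * g i₀) ^ m * f i) := by
        intro i
        refine le_trans (hord i) ?_
        rw [D.ord.map_mul, D.ord.map_mul, D.ord.map_pow, D.ord.map_pow, D.ord.map_mul, D.ord.map_mul,
          add_comm]
        gcongr
        exact hi₀ i
      have h3 : ∀ l j, 0 ≤ D.ord ((t ^ e * g i₀) ^ (m * d l) * aeval f (a l j)) := by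
        intro l j
        have h4 := eval₂_of_isHomogeneous (algebraMap ℂ (FunField P)) (ha l j) ((t ^ e * g i₀) ^ m) f
        rw [pow_mul]
        have h5 := X_ord_aeval D (fun i => (t ^ e * g i₀) ^ m * f i) h2 (a l j)
        rw [aeval_def, h4] at h5
        exact h5
      obtain ⟨l, hlP, hl⟩ := exists_good_coordinate P z hz D
      have h4 : D.ord (ratio P o l) ≤ D.ord ((t ^ e * g i₀) ^ (m * d l) * aeval f (a l 0)) := by
        have h6 := X_solve ((t ^ e * g i₀) ^ (m * d l)) (hrel l hlP).2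
        rw [h6, D.ord.map_mul]
        refine le_add_of_nonneg_right ?_
        rw [D.ord.map_neg]
        refine D.ord.map_le_sum fun j _ => ?_
        rw [D.ord.map_mul, D.ord.map_pow]
        exact add_nonneg (h3 l (j + 1)) (nsmul_nonneg (hl o) j)
      have h5 : D.ord (ratio P o l) ≤
          D.ord ((t ^ e * g i₀) ^ (m * ∑ l, d l) * ∏ l, aeval f (a l 0)) := by
        have h6 : (t ^ e * g i₀) ^ (m * ∑ l, d l) * ∏ l, aeval f (a l 0) =
            ∏ l, ((t ^ e * g i₀) ^ (m * d l) * aeval f (a l 0)) := by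
          rw [Finset.prod_mul_distrib, Finset.prod_pow_eq_pow_sum, Finset.mul_sum]
        rw [h6, ← Finset.mul_prod_erase _ _ (Finset.mem_univ l), D.ord.map_mul]
        exact le_add_of_le_of_nonneg h4 (X_ord_prod D _ _ fun i _ => h3 i 0)
      refine ⟨g i₀, η i₀, hη i₀, hωg i₀, ?_⟩
      have h6 : (∏ l, aeval f (a l 0)) * ratio P l' o * (t ^ e * g i₀) ^ (m * ∑ l, d l) =
          ((t ^ e * g i₀) ^ (m * ∑ l, d l) * ∏ l, aeval f (a l 0)) * ratio P l' o := by ring
      rw [h6, D.ord.map_mul]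
      have h7 : ratio P o l * ratio P l' o = ratio P l' l := by
        rw [← hx6, ← hx6, ← hx6]
        have := hx7 l hlP
        field_simp
      calc (0 : WithTop ℤ) ≤ D.ord (ratio P l' l) := hl l'
        _ = D.ord (ratio P o l) + D.ord (ratio P l' o) := by rw [← h7, D.ord.map_mul]
        _ ≤ _ := by gcongr
    constructor
    · intro hB
      obtain ⟨g, η, h1, h2, h3⟩ := hmain 0 (by
        intro i
        obtain ⟨g, η, h2, h3, h4⟩ := (hpole i D).1 hB
        refine ⟨g, η, h2, h3, ?_⟩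
        rw [pow_zero, one_mul]
        rw [Nat.cast_zero, add_zero] at h4
        exact h4)
      refine ⟨g, η, h1, h2, ?_⟩
      rw [Nat.cast_zero, add_zero]
      rw [pow_zero, one_mul] at h3
      exact h3
    · intro hB
      obtain ⟨g, η, h1, h2, h3⟩ := hmain 1 (by
        intro i
        obtain ⟨g, η, h2, h3, h4⟩ := (hpole i D).2 hB
        refine ⟨g, η, h2, h3, ?_⟩
        have h5 : f i * (t ^ 1 * g) ^ m = f i * g ^ m * t ^ m := by ring
        rw [h5, D.ord.map_mul, D.ord.map_pow t, ht, nsmul_one]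
        exact h4)
      refine ⟨g, η, h1, h2, ?_⟩
      have h5 : (∏ l, aeval f (a l 0)) * ratio P l' o * (t ^ 1 * g) ^ (m * ∑ l, d l) =
          (∏ l, aeval f (a l 0)) * ratio P l' o * g ^ (m * ∑ l, d l) * t ^ (m * ∑ l, d l) := by ring
      rw [h5, D.ord.map_mul, D.ord.map_pow t, ht, nsmul_one] at h3
      exact h3

end Pool.Agent.H68.KR

end
end

section

/-!
# MQ CoreD: an atlas along a curve, in one variable

The plane is covered by finitely many open sets `U i`.  `e i` is the logarithm of the length of the section in the box `i` (with the weight of the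
invariant curve), `η i` the local field: the conjugate of the meromorphic function `D i` outside the core of the box, a `C¹` modification of it in the core.
-/

set_option autoImplicit false

open Topology Filter Metric MeasureTheory Laplacian

noncomputable section

namespace Pool.Agent.MQ

open Pool.Agent.H30M (LogSing)

/-- **An atlas along a curve**, `l` is the density.  The sets `{χ i = 1}` cover the plane; `bound`: the functions `e i - e j` are bounded where `χ i = 1`,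
`χ j ≠ 0`.  `comp`: `grad (e i) + η i` is (outside the singularities) independent of `i`. -/
structure Patches (l : ℂ → ℝ) {ι : Type} (U : ι → Set ℂ) (χ e : ι → ℂ → ℝ) (η : ι → ℂ → ℂ) (C : ℝ) : Prop where
  isOpen : ∀ i, IsOpen (U i)
  smooth : ∀ i, ContDiff ℝ 2 (χ i)
  nonneg : ∀ i z, 0 ≤ χ i z
  le_one : ∀ i z, χ i z ≤ 1
  supp : ∀ i, tsupport (χ i) ⊆ U i
  gr_le : ∀ i z, ‖gr (χ i) z‖ ≤ C * l z
  cover : ∀ z, ∃ i, χ i z = 1
  log : ∀ i, ∀ z ∈ U i, ∃ c : ℝ, LogSing (e i) c z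
  field : ∀ i, ContDiffOn ℝ 1 (η i) (U i)
  field_le : ∀ i, ∀ z ∈ U i, ‖η i z‖ ≤ C * l z
  comp : ∀ i j, ∀ z ∈ U i, z ∈ U j → ∀ᶠ w in 𝓝[≠] z, gr (e i) w + η i w = gr (e j) w + η j w
  bound : ∀ i j z, χ i z = 1 → z ∈ tsupport (χ j) → ContDiffAt ℝ 2 (e i) z → ContDiffAt ℝ 2 (e j) z → |e i z - e j z| ≤ C

end Pool.Agent.MQ

end
end

section

/-!
# MQ2 TConv: a convergent weak separatrix is an invariant curve
-/

set_option autoImplicit false

open Topology Filter Metric Asymptotics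

noncomputable section

namespace Pool.Agent.MQ2

open Pool.Agent.MQ (jet)
open AC (dv_of_isBigO not_eventually_iff dv_subst analytic_subst)

theorem AC_dv_deriv {n : ℕ} {g : ℂ → ℂ} (hg : AC.Dv (n + 1) g) : AC.Dv n (deriv g) := by
  obtain ⟨k, h1, h2⟩ := hg
  refine ⟨fun t => ((n : ℂ) + 1) * k t + t * deriv k t, (analyticAt_const.mul h1).add (analyticAt_id.mul h1.deriv), ?_⟩
  filter_upwards [h2.eventually_nhds, h1.eventually_analyticAt] with t e1 e2
  have e3 : HasDerivAt (fun t : ℂ => t ^ (n + 1) * k t) (((n + 1 : ℕ) : ℂ) * t ^ n * k t + t ^ (n + 1) * deriv k t) t := by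
    have e4 : HasDerivAt (fun t : ℂ => t ^ (n + 1)) (((n + 1 : ℕ) : ℂ) * t ^ n) t := by simpa using hasDerivAt_pow (n + 1) t
    exact e4.mul e2.differentiableAt.hasDerivAt
  have e5 : g =ᶠ[𝓝 t] fun t => t ^ (n + 1) * k t := e1
  rw [e5.deriv_eq, e3.deriv]
  push_cast
  ring

/-- a flat analytic function is `0` -/
theorem eventually_zero_of_dv {g : ℂ → ℂ} (hg : AnalyticAt ℂ g 0) (h : ∀ n, AC.Dv n g) : ∀ᶠ t in 𝓝 (0 : ℂ), g t = 0 := by
  by_contra h0
  obtain ⟨n, hn⟩ := not_eventually_iff hg h0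
  have := hn.dv_iff (h (n + 1))
  omega

/-- a convergent weak separatrix is the invariant curve `y = s (x)` -/
theorem exists_conv {k : ℕ} {a b : ℂ × ℂ → ℂ} (ha : AnalyticAt ℂ a 0) (hb : AnalyticAt ℂ b 0) {c : ℕ → ℂ} (hc : c 0 = 0)
    (hJ : ∀ J, (fun t => b (t, jet c J t) - deriv (jet c J) t * (t ^ (k + 1) * a (t, jet c J t))) =O[𝓝 0] fun t : ℂ => t ^ (J + 1))
    {γ : ℂ → ℂ × ℂ} (hγ : AnalyticAt ℂ γ 0) (h : ∀ N, (fun t => γ t - (t, jet c N t)) =O[𝓝 0] fun t : ℂ => t ^ (N + 1)) :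
    ∃ s : ℂ → ℂ, AnalyticAt ℂ s 0 ∧ s 0 = 0 ∧ ∀ᶠ x in 𝓝 (0 : ℂ), b (x, s x) = deriv s x * (x ^ (k + 1) * a (x, s x)) := by
  set s : ℂ → ℂ := fun t => (γ t).2 with hsd
  have hs : AnalyticAt ℂ s 0 := analyticAt_snd.comp hγ
  have hsN : ∀ N, AC.Dv (N + 1) fun t => s t - jet c N t := by
    intro N
    refine dv_of_isBigO (hs.sub (AC.analytic_jet c N 0)) ?_
    have h1 : (fun t => s t - jet c N t) =O[𝓝 0] fun t : ℂ => t ^ (N + 1) := by
      refine IsBigO.trans (IsBigO.of_bound 1 (Eventually.of_forall fun t => ?_)) (h N)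
      rw [one_mul]
      exact norm_snd_le (γ t - (t, jet c N t))
    exact h1.mono nhdsWithin_le_nhds
  have hs0 : s 0 = 0 := by
    have h1 := (hsN 0).zero
    rw [AC.jet_zero hc, sub_zero] at h1
    exact h1
  refine ⟨s, hs, hs0, ?_⟩
  have hFa : AnalyticAt ℂ (fun t => b (t, s t) - deriv s t * (t ^ (k + 1) * a (t, s t))) 0 :=
    (analytic_subst hb hs hs0).sub (hs.deriv.mul ((analyticAt_id.pow (k + 1)).mul (analytic_subst ha hs hs0)))
  have hz := eventually_zero_of_dv hFa (by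
    intro n
    have hj := AC.analytic_jet c n 0
    have hj0 := AC.jet_zero hc n
    -- the jet equation
    have e1 : AC.Dv (n + 1) fun t => b (t, jet c n t) - deriv (jet c n) t * (t ^ (k + 1) * a (t, jet c n t)) :=
      dv_of_isBigO ((analytic_subst hb hj hj0).sub (hj.deriv.mul ((analyticAt_id.pow (k + 1)).mul (analytic_subst ha hj hj0)))) ((hJ n).mono nhdsWithin_le_nhds)
    have e2 : AC.Dv (n + 1) fun t => b (t, s t) - b (t, jet c n t) := dv_subst hb hs hs0 hj hj0 (hsN n)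
    have e3 : AC.Dv (n + 1) fun t => a (t, s t) - a (t, jet c n t) := dv_subst ha hs hs0 hj hj0 (hsN n)
    have e4 : AC.Dv n (deriv fun t => s t - jet c n t) := AC_dv_deriv (hsN n)
    have e5 : AC.Dv n fun t => deriv s t - deriv (jet c n) t := by
      refine e4.congr ?_
      filter_upwards [hs.eventually_analyticAt, hj.eventually_analyticAt] with t a1 a2
      rw [deriv_fun_sub a1.differentiableAt a2.differentiableAt]
    have hmul : ∀ {m : ℕ} {g f : ℂ → ℂ}, AC.Dv m g → AnalyticAt ℂ f 0 → AC.Dv m fun t => g t * f t := by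
      rintro m g f ⟨κ, a1, a2⟩ hf
      exact ⟨fun t => κ t * f t, a1.mul hf, by filter_upwards [a2] with t a3; rw [a3]; ring⟩
    have e6 : AC.Dv n fun t => (deriv s t - deriv (jet c n) t) * (t ^ (k + 1) * a (t, s t)) :=
      hmul e5 ((analyticAt_id.pow (k + 1)).mul (analytic_subst ha hs hs0))
    have e7 : AC.Dv n fun t => (a (t, s t) - a (t, jet c n t)) * (deriv (jet c n) t * t ^ (k + 1)) :=
      hmul (e3.mono (Nat.le_succ n)) (hj.deriv.mul (analyticAt_id.pow (k + 1)))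
    refine ((((e1.mono (Nat.le_succ n)).add (e2.mono (Nat.le_succ n))).sub e6).sub e7).congr (Eventually.of_forall fun t => ?_)
    ring)
  filter_upwards [hz] with t ht
  exact sub_eq_zero.1 ht

end Pool.Agent.MQ2

end
end

section

/-!
# SY EiW: the lower bound of the metric of the blow-up
-/

set_option autoImplicit false

open Topology Filter Metric

noncomputable section

namespace Pool.Agent.SY

open Pool.Agent.H17BP (Pr Surface IsForm NoZeros Eqs IsChart)
open Pool.Agent.H14.KB (rhoS)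
open Pool.Agent.H62.BU (blow total phi)

variable {V : Type} [NormedAddCommGroup V] [NormedSpace ℂ V]
variable {ι : Type} [Fintype ι] {l : ι → V →L[ℂ] ℂ} {X T : Set V} {q : V}

/-- The relative size of homogeneous functions is invariant. -/
theorem rhoS_smul_eq {W : Type} [NormedAddCommGroup W] [NormedSpace ℂ W] {κ : Type} [Fintype κ] {Q : κ → W → ℂ} {D : ℕ}
    (hQs : ∀ i (c : ℂ) x, Q i (c • x) = c ^ D * Q i x) {c : ℂ} (hc : c ≠ 0) (x : W) :
    rhoS Q D (c • x) = rhoS Q D x := by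
  unfold rhoS
  have h1 : (fun i => Q i (c • x)) = c ^ D • fun i => Q i x := by
    funext i
    rw [hQs]
    rfl
  have h2 : 0 < ‖c‖ ^ D := pow_pos (norm_pos_iff.mpr hc) D
  rw [h1, norm_smul, norm_smul, norm_pow, mul_pow, mul_div_mul_left _ _ h2.ne']

end Pool.Agent.SY

end
end
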