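import Pool.Agent.H43.TL2.M102
import Pool.Agent.H43.TL2.M111
import Pool.Agent.H43.TL2.M124
import Pool.Agent.H43.TL2.M82

/-! The parts of this file: H36.BPB.Metric, H36.LB.NodalL. -/

section

/-!
# BPB Metric (port): the metric theorem for an arbitrary open part
-/

open Topology Filter Metric

namespace Pool.Agent.H36.BPB

open Pool.Agent.H36.BP Pool.Agent.H14.PP

variable {N : ℕ} {W : Type*} [NormedAddCommGroup W] [InnerProductSpace ℂ W]
  {X K T : Set (EN N)} {m j : ℕ} {Q : EN N → W} {D : ℕ}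

/-- **The metric theorem**, without the condition at the bubbling points. -/
theorem exists_metricB (hX : IsCone X) (hK : IsOpenPart X K) (hKT : ∀ x ∈ X, x ∉ K → x ∈ T)
    (hQ : IsEq X T Q D) (hT : IsNodal X K T) (hm : 1 ≤ m) (hj : 1 ≤ j) (Ω : Form K m j)
    (hΩ : Ω.NoZeroOff T) (hΩ' : Ω.PoleBound X)
    (hur : ∀ (l : Filter ℕ), l.NeBot → ∀ (F : ℕ → ℂ → EN N) (H : ℂ → EN N) (z₀ : ℂ)
      (s : ℝ), 0 < s → (∀ᶠ n in l, Curve K (Metric.ball z₀ s) (F n)) →
      DifferentiableOn ℂ H (Metric.ball z₀ s) →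
      TendstoLocallyUniformlyOn F H l (Metric.ball z₀ s) → H z₀ ≠ 0 →
      H z₀ ∉ K → ∀ᶠ z in 𝓝 z₀, H z ∉ K) :
    ∃ (M' : ℕ) (c₀ C : ℝ) (G : EN N → EN N → ℝ), MD K (K ∩ T) G (rho Q D) M' c₀ C := by
  classical
  obtain ⟨n, χ, nd, d, hty, hdt, hdn, δ₀, hδ₀, hcov⟩ := exists_atlas hX hQ hT
  have hTX : T ⊆ X := fun x hx => ((hQ.mem_iff x).mp hx).1
  have hcovT : ∀ x ∈ T, ∃ i, x ∈ (χ i).U ∧ ‖(χ i).q x‖ < 1 / 2 := by
    intro x hx
    refine hcov x (hTX hx) ?_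
    rw [(rho_eq_zero_iff (hX.ne_zero (hTX hx))).mpr ((hQ.mem_iff x).mp hx).2]
    exact hδ₀.le
  obtain ⟨CT, rT, hCT, hrT, htr⟩ :=
    exists_transition hX (fun x hx c hc => hQ.smul_mem hX hx hc) χ nd hty hcovT
  choose CEs hCEs1 hCEs2 hCEs3 using fun i => (χ i).exists_fs_bound hX
  obtain ⟨CE, hCE1, hCE⟩ := exists_ub CEs
  have hCE0 : 0 < CE := by linarith
  have hfs1 : ∀ i, ∀ x ∈ X, x ∈ (χ i).U → ‖(χ i).q x‖ ≤ 1 → ∀ v,
      ‖fderiv ℂ (χ i).q x v‖ ≤ CE * fs x v := fun i x hx hU hq v =>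
    (hCEs2 i x hx hU hq v).trans (mul_le_mul_of_nonneg_right (hCE i) (fs_nonneg x v))
  have hfs2 : ∀ i, ∀ (F : ℂ → EN N) (z₀ : ℂ), CurveAt X F z₀ → F z₀ ∈ (χ i).U →
      ‖(χ i).q (F z₀)‖ ≤ 1 →
        fs (F z₀) (deriv F z₀) ≤ CE * ‖deriv (fun z => (χ i).q (F z)) z₀‖ :=
    fun i F z₀ hF hU hq => (hCEs3 i F z₀ hF hU hq).trans
      (mul_le_mul_of_nonneg_right (hCE i) (norm_nonneg _))
  have hm0 : (0 : ℝ) < m := by exact_mod_cast hm
  have hj0 : (0 : ℝ) < j := by exact_mod_cast hj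
  set c₀ : ℝ := (j : ℝ) / m / 2 with hc₀
  have hc₀pos : 0 < c₀ := by positivity
  obtain ⟨P, hPε, hPκ, hPD, hPC⟩ := exists_params (C := CT) (ε₁ := c₀ / (16 * CE ^ 2))
    (κ₁ := 1 / (2 * m)) hCT (by positivity) (by positivity)
  have hκm : P.κ < 1 / (m : ℝ) := by
    refine hPκ.trans_lt ?_
    apply one_div_lt_one_div_of_lt hm0
    linarith
  have hM0 : 0 ≤ P.M := by
    have := hPC.M_ge
    linarith
  obtain ⟨r₁, hr₁, hdom⟩ := near_dom hX hK hm Ω χ nd hCT hrT htr hPD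
  obtain ⟨r₂, hr₂, -, hconv⟩ := conv_num hPC
  choose δs hδs hδs2 using fun i => small_of_rho hX hQ (χ i) (hty i) (lt_min hr₁ hr₂)
  obtain ⟨δ₂, hδ₂, hδ₂1, hδ₂s⟩ := exists_lb δs hδs
  set δ : ℝ := min δ₂ δ₀ with hδdef
  have hδ : 0 < δ := lt_min hδ₂ hδ₀
  have hδ1 : δ ≤ 1 := (min_le_left _ _).trans hδ₂1
  have hsm : ∀ i, ∀ p ∈ closedBall (0 : ℂ × ℂ) 1, rho Q D ((χ i).σ p) ≤ δ →
      small (nd i) p ≤ min r₁ r₂ := fun i p hp h =>
    hδs2 i p hp ((h.trans (min_le_left _ _)).trans (hδ₂s i))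
  obtain ⟨CN, hCN, hup⟩ := near_fs_upper (P := P) hX hK hQ hm hΩ' hPC hty hdt hdn hfs1
  obtain ⟨M₀, c, hc, hlow⟩ := near_fs_lower hX hK hKT hQ hm hΩ hΩ' hPC hty hdt hdn hfs2
  set M' : ℕ := M₀ + 1 with hM'
  have hM'1 : 1 ≤ M' := by omega
  set c₁ : ℝ := δ ^ (M' + 2) / (2 * CN) with hc₁
  have hc₁pos : 0 < c₁ := by positivity
  set δ₁ : ℝ := min δ (c₁ * c) with hδ₁
  have hδ₁pos : 0 < δ₁ := lt_min hδ (by positivity)
  set CC : ℝ := (M' * D + 2 + c₀) / (2 * δ₁ ^ (2 * M')) with hCC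
  have hCC0 : 0 ≤ CC := by positivity
  refine ⟨M', c₀, CC, GG Ω χ nd P Q D M' δ c₁, ?_⟩
  refine
    { ne := fun x hx => hX.ne_zero (hK.subset hx)
      smul := hK.smul_mem
      c₀_pos := hc₀pos
      C_nonneg := hCC0
      nonneg := fun x _ v => GG_nonneg x v
      usc := fun x hx v a ha => GG_usc hX hK hQ hPC hc₁pos.le hx v ha
      inv := fun x hx v c a hc => GG_scale hX hQ (hK.subset hx) v a hc
      hom := fun x _ v c => GG_smul x v c
      zero := ?_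
      sub := ?_
      ρ_nonneg := fun x _ => rho_nonneg Q D x
      lower := fun x _ v => pieceG_le_GG (Ω := Ω) (χ := χ) (nd := nd) (P := P) (Q := Q) (D := D)
        (M' := M') (δ := δ) (c₁ := c₁) none x v
      ρ_zero := ?_
      rel_open := ?_
      hur := hur
      lim := ?_ }
  · intro F z₀ hF hev
    exact GG_zero hX hQ hM'1 hPC.κ_le hty ⟨hF, hev.mono fun z hz => hz.2.2⟩
  · intro F z₀ hF hev hpos
    have hCK : CurveAt K F z₀ := ⟨hF, hev⟩
    have hCX : CurveAt X F z₀ := hCK.mono hK.subset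
    set G := GG Ω χ nd P Q D M' δ c₁ with hG
    obtain ⟨k, hk⟩ := exists_GG_eq (Ω := Ω) (χ := χ) (nd := nd) (P := P) (Q := Q) (D := D)
      (M' := M') (δ := δ) (c₁ := c₁) (F z₀) (deriv F z₀)
    have hGz : mt G F z₀ = GG Ω χ nd P Q D M' δ c₁ (F z₀) (deriv F z₀) := rfl
    have hle : ∀ k z, pieceG Ω χ nd P Q D M' δ c₁ k (F z) (deriv F z) ≤ mt G F z :=
      fun k z => pieceG_le_GG k _ _
    have hrc : ContinuousAt (fun z => rho Q D (F z)) z₀ :=
      ContinuousAt.comp (g := rho Q D) (continuousAt_rho hQ.analytic (hX.ne_zero hCX.mem))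
        hF.continuousAt
    match k, hk with
    | none, hk =>
      have hk' : mt G F z₀ = rho Q D (F z₀) ^ M' * fs (F z₀) (deriv F z₀) := hGz.trans hk
      have hfs0 := fs_nonneg (F z₀) (deriv F z₀)
      have hρ0 := rho_nonneg Q D (F z₀)
      have hfspos : 0 < fs (F z₀) (deriv F z₀) := by
        rcases hfs0.lt_or_eq with h | h
        · exact h
        · rw [hk', ← h, mul_zero] at hpos
          exact absurd hpos (lt_irrefl 0)
      have hρpos : 0 < rho Q D (F z₀) := by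
        rcases hρ0.lt_or_eq with h | h
        · exact h
        · rw [hk', ← h, zero_pow (by omega), zero_mul] at hpos
          exact absurd hpos (lt_irrefl 0)
      have hρδ : δ₁ ≤ rho Q D (F z₀) := by
        by_contra hlt
        push Not at hlt
        have h1 : rho Q D (F z₀) ≤ δ := hlt.le.trans (min_le_left _ _)
        obtain ⟨i, hU, hq⟩ := hcov _ hCX.mem (h1.trans (min_le_right _ _))
        have h2 := hlow δ hδ1 i F z₀ hCK hU (by linarith) h1
        have h3 := hle (some i) z₀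
        have h4 : pieceG Ω χ nd P Q D M' δ c₁ (some i) (F z₀) (deriv F z₀) =
          c₁ * nearG Ω χ nd P Q D δ i (F z₀) (deriv F z₀) := rfl
        have h5 : rho Q D (F z₀) < c₁ * c := hlt.trans_le (min_le_right _ _)
        have h6 : rho Q D (F z₀) ^ M' * fs (F z₀) (deriv F z₀) <
            c₁ * (c * rho Q D (F z₀) ^ M₀ * fs (F z₀) (deriv F z₀)) := by
          have h7 : 0 < rho Q D (F z₀) ^ M₀ * fs (F z₀) (deriv F z₀) := by positivity
          calc rho Q D (F z₀) ^ M' * fs (F z₀) (deriv F z₀)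
              = rho Q D (F z₀) * (rho Q D (F z₀) ^ M₀ * fs (F z₀) (deriv F z₀)) := by
                rw [hM', pow_succ]
                ring
            _ < (c₁ * c) * (rho Q D (F z₀) ^ M₀ * fs (F z₀) (deriv F z₀)) :=
                mul_lt_mul_of_pos_right h5 h7
            _ = c₁ * (c * rho Q D (F z₀) ^ M₀ * fs (F z₀) (deriv F z₀)) := by ring
        have h8 : c₁ * (c * rho Q D (F z₀) ^ M₀ * fs (F z₀) (deriv F z₀)) ≤
            c₁ * nearG Ω χ nd P Q D δ i (F z₀) (deriv F z₀) :=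
          mul_le_mul_of_nonneg_left h2 hc₁pos.le
        rw [h4, hk'] at h3
        linarith
      have hs := sub_far (M' := M') hX hQ.analytic hCX hρpos hfspos hc₀pos.le
      refine (hs.mono ?_ ?_).anti ?_
      · rw [hk']
      · filter_upwards with z
        exact mul_le_mul_of_nonneg_right (hle none z) (Real.rpow_nonneg (norm_nonneg _) _)
      · rw [neg_le_neg_iff, hk', hCC]
        have h9 : δ₁ ^ (2 * M') ≤ rho Q D (F z₀) ^ (2 * M') :=
          pow_le_pow_left₀ hδ₁pos.le hρδ _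
        have h10 : 0 < δ₁ ^ (2 * M') := by positivity
        have h11 : 0 ≤ (M' * D + 2 + c₀ : ℝ) := by positivity
        rw [div_mul_eq_mul_div, le_div_iff₀ (by positivity), mul_pow, ← pow_mul, mul_comm M' 2]
        have h12 : 0 ≤ (M' * D + 2 + c₀ : ℝ) * fs (F z₀) (deriv F z₀) ^ 2 := by positivity
        linarith [mul_le_mul_of_nonneg_left h9 h12]
    | some i, hk =>
      have hk' : mt G F z₀ = c₁ * nearG Ω χ nd P Q D δ i (F z₀) (deriv F z₀) := hGz.trans hk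
      have hnpos : 0 < nearG Ω χ nd P Q D δ i (F z₀) (deriv F z₀) := by
        rw [hk'] at hpos
        exact (mul_pos_iff_of_pos_left hc₁pos).mp hpos
      obtain ⟨h1, h2, h3, h4⟩ := mem_of_nearG_pos hnpos
      -- not at the boundary of the chart
      have h3' : ‖(χ i).q (F z₀)‖ < 1 := by
        refine lt_of_le_of_ne h3 fun h => ?_
        obtain ⟨k, hk2⟩ := near_boundary hX hK hQ hdom
          (fun i p hp h => (hsm i p hp h).trans (min_le_left _ _)) hCK hnpos h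
        have h5 := hle (some k) z₀
        have h6 : pieceG Ω χ nd P Q D M' δ c₁ (some k) (F z₀) (deriv F z₀) =
          c₁ * nearG Ω χ nd P Q D δ k (F z₀) (deriv F z₀) := rfl
        rw [h6, hk'] at h5
        have h7 := mul_lt_mul_of_pos_left hk2 hc₁pos
        linarith
      -- `rho < δ`
      have h5 := hup δ i (F z₀) hCK.mem (deriv F z₀)
      have h4' : rho Q D (F z₀) < δ := by
        refine lt_of_le_of_ne h4 fun h => ?_
        rw [h] at h5
        have h6 := hle none z₀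
        have h7 : pieceG Ω χ nd P Q D M' δ c₁ none (F z₀) (deriv F z₀) =
          rho Q D (F z₀) ^ M' * fs (F z₀) (deriv F z₀) := rfl
        rw [h7, hk', h] at h6
        have h8 : 0 < fs (F z₀) (deriv F z₀) := by
          by_contra hcon
          have h9 : fs (F z₀) (deriv F z₀) = 0 := le_antisymm (not_lt.mp hcon) (fs_nonneg _ _)
          rw [h9, mul_zero] at h5
          have : 0 < δ ^ 2 * nearG Ω χ nd P Q D δ i (F z₀) (deriv F z₀) := by positivity
          linarith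
        have h9 : c₁ * nearG Ω χ nd P Q D δ i (F z₀) (deriv F z₀) =
            δ ^ M' / (2 * CN) * (δ ^ 2 * nearG Ω χ nd P Q D δ i (F z₀) (deriv F z₀)) := by
          rw [hc₁, pow_add]
          ring
        have h10 : c₁ * nearG Ω χ nd P Q D δ i (F z₀) (deriv F z₀) ≤
            δ ^ M' / 2 * fs (F z₀) (deriv F z₀) := by
          rw [h9]
          refine (mul_le_mul_of_nonneg_left h5 (by positivity)).trans (le_of_eq ?_)
          field_simp
        have h11 : 0 < δ ^ M' * fs (F z₀) (deriv F z₀) := by positivity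
        linarith
      -- the formula near `z₀`
      obtain ⟨hqan, hqd, -⟩ := (χ i).curve hX hCX h2
      have hform : ∀ᶠ z in 𝓝 z₀, nearG Ω χ nd P Q D δ i (F z) (deriv F z) =
          ACoef Ω (χ i) ((χ i).q (F z)) * pM (nd i) P ((χ i).q (F z))
            (deriv (fun z => (χ i).q (F z)) z) := by
        have e1 : ∀ᶠ z in 𝓝 z₀, F z ∈ (χ i).U :=
          hF.continuousAt.eventually ((χ i).isOpen_U.mem_nhds h2)
        have e2 : ∀ᶠ z in 𝓝 z₀, ‖(χ i).q (F z)‖ < 1 :=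
          hqan.continuousAt.norm.eventually (gt_mem_nhds h3')
        have e3 : ∀ᶠ z in 𝓝 z₀, rho Q D (F z) < δ := hrc.eventually (gt_mem_nhds h4')
        filter_upwards [e1, e2, e3, hF.eventually_analyticAt, hCX.2.eventually_nhds]
          with z f1 f2 f3 f4 f5
        have f6 : CurveAt X F z := ⟨f4, f5⟩
        obtain ⟨-, f7, -⟩ := (χ i).curve hX f6 f1
        rw [nearG_of_mem f6.mem f1 f2.le f3.le, f7]
      have hpos' : 0 < ACoef Ω (χ i) ((χ i).q (F z₀)) * pM (nd i) P ((χ i).q (F z₀))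
            (deriv (fun z => (χ i).q (F z)) z₀) := by
        rw [← hform.self_of_nhds]
        exact hnpos
      have hsm' : small (nd i) ((χ i).q (F z₀)) ≤ r₂ := by
        refine (hsm i _ (by simpa using h3) ?_).trans (min_le_right _ _)
        rw [(χ i).rho_sigma hQ.smul h1 h2]
        exact h4
      have hE : 4 * P.ε * (‖(deriv (fun z => (χ i).q (F z)) z₀).1‖ ^ 2 +
          ‖(deriv (fun z => (χ i).q (F z)) z₀).2‖ ^ 2) ≤
          ((j : ℝ) / m - c₀) * (fs (F z₀) (deriv F z₀) ^ 2 / 2) := by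
        have e1 : (j : ℝ) / m - c₀ = c₀ := by rw [hc₀]; ring
        rw [e1]
        have e2 : ‖deriv (fun z => (χ i).q (F z)) z₀‖ ≤ CE * fs (F z₀) (deriv F z₀) := by
          rw [hqd]
          exact hfs1 i _ h1 h2 h3 _
        set w := deriv (fun z => (χ i).q (F z)) z₀
        have e3 : ‖w.1‖ ≤ ‖w‖ := norm_fst_le w
        have e4 : ‖w.2‖ ≤ ‖w‖ := norm_snd_le w
        have e5 : ‖w‖ ^ 2 ≤ CE ^ 2 * fs (F z₀) (deriv F z₀) ^ 2 := by
          rw [← mul_pow]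
          exact pow_le_pow_left₀ (norm_nonneg _) e2 2
        have e6 : ‖w.1‖ ^ 2 ≤ ‖w‖ ^ 2 := pow_le_pow_left₀ (norm_nonneg _) e3 2
        have e7 : ‖w.2‖ ^ 2 ≤ ‖w‖ ^ 2 := pow_le_pow_left₀ (norm_nonneg _) e4 2
        have e8 : P.ε * (16 * CE ^ 2) ≤ c₀ := by
          rwa [le_div_iff₀ (by positivity)] at hPε
        have e9 := hPC.ε_pos
        calc 4 * P.ε * (‖w.1‖ ^ 2 + ‖w.2‖ ^ 2)
            ≤ 4 * P.ε * (CE ^ 2 * fs (F z₀) (deriv F z₀) ^ 2 +
              CE ^ 2 * fs (F z₀) (deriv F z₀) ^ 2) := by gcongr <;> linarith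
          _ = P.ε * (16 * CE ^ 2) * (fs (F z₀) (deriv F z₀) ^ 2 / 2) := by ring
          _ ≤ c₀ * (fs (F z₀) (deriv F z₀) ^ 2 / 2) := by gcongr
      obtain ⟨c', hc', hs⟩ := conv_chart hX hK hm Ω (χ i) (nd i) hPC hconv hCK h2 h3 hsm' hE hpos'
      refine ((hs.const_mul hc₁pos).mono ?_ ?_).anti ?_
      · rw [hk', hform.self_of_nhds]
        ring
      · filter_upwards [hform] with z hz
        have := hle (some i) z
        have h6 : pieceG Ω χ nd P Q D M' δ c₁ (some i) (F z) (deriv F z) =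
          c₁ * nearG Ω χ nd P Q D δ i (F z) (deriv F z) := rfl
        rw [h6, hz] at this
        have h7 := mul_le_mul_of_nonneg_right this (Real.rpow_nonneg (norm_nonneg (F z)) (-c₀))
        refine le_trans (le_of_eq ?_) h7
        ring
      · have : 0 ≤ CC * mt G F z₀ ^ 2 := by positivity
        linarith
  · intro F z₀ hF hev hfr
    have hCK : CurveAt K F z₀ := ⟨hF, hev⟩
    have hCX : CurveAt X F z₀ := hCK.mono hK.subset
    rcases hQ.curve_discrete hCX with h | h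
    · filter_upwards [h, hev] with z h1 h2
      exact ⟨h2, h1⟩
    · exfalso
      have h1 : ∀ᶠ z in 𝓝[≠] z₀, F z ∈ X := hCX.2.filter_mono nhdsWithin_le_nhds
      have h2 : ∃ᶠ z in 𝓝[≠] z₀, False := by
        refine (hfr.and_eventually (h.and h1)).mono ?_
        rintro z ⟨h3, h4, h5⟩
        exact h4 ((hQ.mem_iff _).mpr ⟨h5, (rho_eq_zero_iff (hX.ne_zero h5)).mp h3⟩)
      simp at h2
  · intro x hx
    have hx0 : x ≠ 0 := hX.ne_zero (hK.subset hx)
    filter_upwards [hK.rel_open x hx, isOpen_ne.mem_nhds hx0] with y hy hy0 hyc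
    apply hy
    have h1 : y ∈ insert (0 : EN N) X :=
      closure_minimal (fun z hz => Or.inr (hK.subset hz)) hX.closed hyc
    exact h1.resolve_left hy0
  · intro l hl F H z₀ s hs hF hlim h0 hH ε hε
    have hk : ∀ k, ∀ᶠ a in l, pieceG Ω χ nd P Q D M' δ c₁ k (F a z₀) (deriv (F a) z₀) < ε := by
      intro k
      match k with
      | none => exact lim_far hX hK hQ hKT hM'1 l hl hs hF hlim h0 hH hε
      | some i =>
        filter_upwards [lim_near (δ := δ) (Q := Q) (D := D) hX hK hm hΩ' hPC hκm (hdt i) (hdn i)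
          l hl hs hF hlim h0 hH (div_pos hε hc₁pos)] with a ha
        rw [lt_div_iff₀ hc₁pos] at ha
        show c₁ * nearG Ω χ nd P Q D δ i (F a z₀) (deriv (F a) z₀) < ε
        linarith
    filter_upwards [Filter.eventually_all.2 hk] with a ha
    obtain ⟨k, hk'⟩ := exists_GG_eq (Ω := Ω) (χ := χ) (nd := nd) (P := P) (Q := Q) (D := D)
      (M' := M') (δ := δ) (c₁ := c₁) (F a z₀) (deriv (F a) z₀)
    show GG Ω χ nd P Q D M' δ c₁ (F a z₀) (deriv (F a) z₀) < ε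
    rw [hk']
    exact ha k

end Pool.Agent.H36.BPB

end

section

/-!
# LB NodalL: open surfaces with an arbitrary boundary curve, the nodal case
-/

set_option autoImplicit false

open Topology Filter Metric

noncomputable section

namespace Pool.Agent.H36.LB

attribute [-instance] ProperSMul.toContinuousSMul

open Pool.Agent Pool.Agent.H17BP
open Pool.Agent.H17 (PN HolomorphicInto puncturedDisc)
open Pool.Agent.H36.BP hiding kobayashi_of_bound
open Pool.Agent.H36.BPL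
open Pool.Agent.H36.BPB (MD IsLimit LimMod2 ConvAt brody_bound_lim picard_cone_of_bound kobayashi_of_bound)
open Pool.Agent.H14.KB (Kob ptN ptN_eq ptsOf coneOf_ptsOf rhoS rhoS_nonneg)
open Pool.Agent.H14.PP (IsCone IsOpenPart IsNodal Chart HasType DType gD aCoef Form IsEq)

theorem convP_of_convAt {V : Type} [NormedAddCommGroup V] [NormedSpace ℂ V] {N : ℕ} (L : V ≃L[ℂ] EN N) {l : Filter ℕ} (hl : l ≤ atTop)
    {F : ℕ → ℂ → EN N} {H : ℂ → EN N} (hH : Differentiable ℂ H) (hH0 : ∀ z, H z ≠ 0)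
    (hF : ∀ n : ℕ, DifferentiableOn ℂ (F n) (ball 0 (n + 1))) {z₀ : ℂ} (h : ConvAt l F H z₀) :
    ConvP l (fun n z => L.symm (F n z)) (fun z => L.symm (H z)) z₀ := by
  obtain ⟨s, hs, φ, hφ, hlim⟩ := h
  refine ⟨s, fun n z => L.symm (φ n z • F n z), fun z => L.symm (H z), hs, ?_, ?_, ?_, ?_⟩
  · obtain ⟨n₀, hn₀⟩ := exists_nat_ge (‖z₀‖ + s)
    filter_upwards [hφ, hl (eventually_ge_atTop n₀)] with n hn hn2
    have hsub : ball z₀ s ⊆ ball (0 : ℂ) (n + 1) := by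
      intro w hw
      rw [mem_ball_zero_iff]
      have h2 : ‖w - z₀‖ < s := by simpa [dist_eq_norm] using hw
      have h3 : ‖w‖ ≤ ‖w - z₀‖ + ‖z₀‖ := by
        have := norm_add_le (w - z₀) z₀
        rwa [sub_add_cancel] at this
      have h4 : (n₀ : ℝ) ≤ n := by exact_mod_cast hn2
      linarith
    refine ⟨?_, fun z hz => ?_⟩
    · exact ((L.symm : EN N →L[ℂ] V).differentiable).comp_differentiableOn (hn.1.smul ((hF n).mono hsub))
    · refine Pr.symm ⟨φ n z, hn.2 z hz, ?_⟩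
      rw [map_smul]
  · exact (((L.symm : EN N →L[ℂ] V).differentiable).comp hH).differentiableOn
  · exact fun z _ => ⟨fun h => hH0 z (L.symm.map_eq_zero_iff.mp h), Pr.refl _⟩
  · exact tlu_comp hlim hH.continuous.continuousOn fun x _ => L.symm.continuous.continuousAt

/-- transport of the hypothesis on the limit curves -/
theorem limMod2_transport {V : Type} [NormedAddCommGroup V] [NormedSpace ℂ V] {N : ℕ} (L : V ≃L[ℂ] EN N) {X K T : Set V}
    (hX : Surface X) (hK : OpenPart X K) (h : Lim2 X K T) :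
    LimMod2 (L.symm ⁻¹' K : Set (EN N)) ((L.symm ⁻¹' K : Set (EN N)) ∩ L.symm ⁻¹' T) := by
  have hcone : IsCone (L.symm ⁻¹' X : Set (EN N)) := isCone_transport L hX
  intro l F H hlim hcl h0K _ hne hord z hzK
  refine ⟨hzK, ?_⟩
  by_contra hzT
  have hclX : ∀ x ∈ closure (L.symm ⁻¹' X : Set (EN N)), x ≠ 0 → x ∈ (L.symm ⁻¹' X : Set (EN N)) := fun x hx hx0 =>
    (hcone.closed.closure_subset_iff.mpr (Set.subset_insert 0 _) hx).resolve_left hx0
  have hKX : (L.symm ⁻¹' K : Set (EN N)) ⊆ L.symm ⁻¹' X := fun x hx => hK.sub hx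
  have hKne : ∀ x ∈ K, x ≠ 0 := fun x hx e => hX.zero (e ▸ hK.sub hx)
  have hcur : LimCurve X K l (fun n z => L.symm (F n z)) (fun z => L.symm (H z)) := by
    refine
    { neBot := hlim.neBot
      le_atTop := hlim.le_atTop
      hol := fun z => ⟨fun z => L.symm (H z), ((L.symm : EN N →L[ℂ] V).analyticAt _).comp (hlim.hol.analyticAt z),
        fun h => hlim.ne z (L.symm.map_eq_zero_iff.mp h), Eventually.of_forall fun w => Pr.refl _⟩
      mem := fun z => hclX _ (closure_mono hKX (hcl z)) (hlim.ne z)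
      zero_mem := h0K
      holF := fun n z hz => ⟨fun z => L.symm (F n z),
        ((L.symm : EN N →L[ℂ] V).analyticAt _).comp ((hlim.diff n).analyticAt (isOpen_ball.mem_nhds hz)), ?_,
        Eventually.of_forall fun w => Pr.refl _⟩
      memF := fun n z hz => hlim.mem n z hz
      zero := convP_of_convAt L hlim.le_atTop hlim.hol hlim.ne hlim.diff hlim.zero
      conv := fun z₀ => (hlim.conv z₀).mono fun z hz => convP_of_convAt L hlim.le_atTop hlim.hol hlim.ne hlim.diff hz }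
    exact hKne _ (hlim.mem n z hz)
  have hall := h l _ _ hcur (hord.equiv L.symm) ⟨z, hzT⟩
  obtain ⟨a, b, hab⟩ := hne
  obtain ⟨c, hc, e⟩ := hall a b
  refine hab c (L.symm.injective ?_)
  rw [map_smul]
  exact e

/-- The metric theorem for open surfaces in `ℙ(V)`. -/
theorem nodalL_metric {V : Type} [NormedAddCommGroup V] [NormedSpace ℂ V] {N : ℕ} (L : V ≃L[ℂ] EN N)
    {W : Type} [NormedAddCommGroup W] [InnerProductSpace ℂ W] {X K T : Set V} {m j : ℕ}
    {Ω : V → V → V → ℂ} {Q : V → W} {D : ℕ} (hX : Surface X) (hK : OpenPart X K)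
    (hKT : ∀ x ∈ X, x ∉ K → x ∈ T) (hQ : ∀ x, AnalyticAt ℂ Q x)
    (hQs : ∀ (c : ℂ) (x : V), Q (c • x) = c ^ D • Q x) (hT : ∀ x, x ∈ T ↔ x ∈ X ∧ Q x = 0)
    (hn : ∀ x ∈ T, PairNodalAt X K T x) (hm : 1 ≤ m) (hj : 1 ≤ j) (hΩ : IsForm K m j Ω)
    (hz : NoZeros K T Ω) (hpl : PoleLE X K (m - 1) Ω) :
    IsEq (L.symm ⁻¹' X : Set (EN N)) (L.symm ⁻¹' T) (fun y => Q (L.symm y)) D ∧
    ∃ (M' : ℕ) (c₀ C : ℝ) (G : EN N → EN N → ℝ), MD (L.symm ⁻¹' K : Set (EN N))
      ((L.symm ⁻¹' K : Set (EN N)) ∩ L.symm ⁻¹' T) G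
      (Pool.Agent.H14.PP.rho (fun y => Q (L.symm y)) D) M' c₀ C := by
  set X' : Set (EN N) := L.symm ⁻¹' X with hX'
  set K' : Set (EN N) := L.symm ⁻¹' K with hK'
  set T' : Set (EN N) := L.symm ⁻¹' T with hT'
  have hTs : ∀ x ∈ T, ∀ c : ℂ, c ≠ 0 → c • x ∈ T := by
    intro x hx c hc
    obtain ⟨h1, h2⟩ := (hT x).mp hx
    exact (hT _).mpr ⟨hX.smul x h1 c hc, by rw [hQs, h2, smul_zero]⟩
  have hTX : T ⊆ X := fun x hx => ((hT x).mp hx).1
  have hcone : IsCone X' := isCone_transport L hX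
  have hT's : ∀ x ∈ T', ∀ c : ℂ, c ≠ 0 → c • x ∈ T' := by
    intro x hx c hc
    show L.symm (c • x) ∈ T
    rw [map_smul]
    exact hTs _ hx c hc
  have hK's : ∀ x ∈ K', ∀ c : ℂ, c ≠ 0 → c • x ∈ K' := by
    intro x hx c hc
    show L.symm (c • x) ∈ K
    rw [map_smul]
    exact hK.smul _ hx c hc
  have hopen : IsOpenPart X' K' := ⟨fun x hx => hK.sub hx, hK's, fun x hx => (L.symm.continuous.tendsto x).eventually (hK.rel _ hx)⟩
  have hnodal : IsNodal X' K' T' := by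
    intro x hx
    have hxT : L.symm x ∈ T := hx
    obtain ⟨σ, τ, hc, h0, nd, d, hnd, hd, hdn⟩ := hn (L.symm x) hxT
    have hg := germ_transport L hc
    have hLσ0 : L (σ 0) = x := by rw [h0, L.apply_symm_apply]
    have hnd' : ∀ᶠ p in 𝓝 (0 : ℂ × ℂ), (L (σ p) ∈ T' ↔ p.1 = 0 ∨ (nd = true ∧ p.2 = 0)) := by
      filter_upwards [hnd] with p hp
      rw [← hp]
      show L.symm (L (σ p)) ∈ T ↔ _
      rw [L.symm_apply_apply]
    have hd' : ∀ᶠ p in 𝓝 (0 : ℂ × ℂ), (L (σ p) ∉ K' ↔ (d.1 = true ∧ p.1 = 0) ∨ (d.2 = true ∧ p.2 = 0)) := by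
      filter_upwards [hd] with p hp
      rw [← hp]
      show L.symm (L (σ p)) ∉ K ↔ _
      rw [L.symm_apply_apply]
    obtain ⟨χ, h2, h3, h4, h5⟩ := exists_chart hcone hK's hT's hg hnd' hd'
    refine ⟨χ, nd, d, ?_, ?_, h4, h5, hdn⟩
    · rwa [hLσ0] at h2
    · rwa [hLσ0] at h3
  have heq : IsEq X' T' (fun y => Q (L.symm y)) D := by
    refine ⟨fun x => (hQ _).comp ((L.symm : EN N →L[ℂ] V).analyticAt x), fun c x => ?_, fun x => ?_⟩
    · show Q (L.symm (c • x)) = _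
      rw [map_smul, hQs]
    · exact hT (L.symm x)
  have hnz : (formT L hΩ).NoZeroOff T' := by
    intro x hx hxT v w hv hw hli
    refine hz (L.symm x) hx hxT _ (tan_transport L hv) _ (tan_transport L hw) ?_
    have h1 := hli.map' ((L.symm : EN N →L[ℂ] V) : EN N →ₗ[ℂ] V) (LinearMap.ker_eq_bot.mpr L.symm.injective)
    have h2 : (((L.symm : EN N →L[ℂ] V) : EN N →ₗ[ℂ] V) ∘ ![x, v, w]) = ![L.symm x, L.symm v, L.symm w] := by
      funext i
      fin_cases i <;> rfl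
    rw [h2] at h1
    exact h1
  have hpole : (formT L hΩ).PoleBound X' := poleBound_transport L hΩ hpl
  have hclX : ∀ x ∈ closure X', x ≠ 0 → x ∈ X' := fun x hx hx0 =>
    (hcone.closed.closure_subset_iff.mpr (Set.subset_insert 0 X') hx).resolve_left hx0
  refine ⟨heq, Pool.Agent.H36.BPB.exists_metricB hcone hopen (fun x hx hxn => hKT _ hx hxn) heq hnodal hm hj (formT L hΩ) hnz hpole ?_⟩
  intro l hl F H z₀ s hs hF hH hlim hH0 h0
  have hXc : ∀ x ∈ closure X, x ≠ 0 → x ∈ X := by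
    intro x hx hx0
    have h1 : L x ∈ closure X' := by
      have h2 : closure X' = L.symm ⁻¹' (closure X) := (L.symm.toHomeomorph.preimage_closure X).symm
      rw [h2]
      show L.symm (L x) ∈ closure X
      rwa [L.symm_apply_apply]
    have h2 := hclX _ h1 fun h => hx0 (L.map_eq_zero_iff.mp h)
    have h3 : L.symm (L x) ∈ X := h2
    rwa [L.symm_apply_apply] at h3
  have h1 := hur_openPart hXc hK hl hs (F := fun n z => L.symm (F n z)) (H := fun z => L.symm (H z)) (by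
    filter_upwards [hF] with n hn
    exact ⟨((L.symm : EN N →L[ℂ] V).differentiable).comp_differentiableOn hn.1, fun z hz => hn.2 z hz⟩)
    (((L.symm : EN N →L[ℂ] V).differentiable).comp_differentiableOn hH)
    (tlu_comp hlim hH.continuousOn fun x _ => L.symm.continuous.continuousAt)
    (fun h => hH0 (L.symm.map_eq_zero_iff.mp h)) h0
  exact h1

/-- **The nodal case.** -/
theorem nodalL {V : Type} [NormedAddCommGroup V] [NormedSpace ℂ V] [FiniteDimensional ℂ V]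
    {X K B : Set V} {m j : ℕ} {Ω : V → V → V → ℂ} {κ : Type} [Fintype κ] {Q : κ → V → ℂ} {D : ℕ}
    (h : ModelL X K B m j Ω Q D) (hn : ∀ x ∈ X, NodalAt X B x) : Picard K B ∧ Kob K Q D := by
  classical
  have hKX := h.opn.sub
  have hKs := h.opn.smul
  -- the trivial case
  by_cases hXe : ∃ x₀, x₀ ∈ X
  swap
  · refine ⟨fun r hr f hf hfB => ?_, 1, 0, le_rfl, le_rfl, fun f F hf _ _ _ => ?_⟩
    · obtain ⟨z₁, hz₁, hz₁r, -⟩ := hfB
      exact absurd ⟨f z₁, hKX (hf z₁ hz₁ hz₁r).2⟩ hXe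
    · exact absurd ⟨f 0, hKX (hf 0 (by simp)).2⟩ hXe
  obtain ⟨x₀, hx₀⟩ := hXe
  have hXs := h.surf.smul
  have hne : ∀ x ∈ X, x ≠ 0 := fun x hx e => h.surf.zero (e ▸ hx)
  have hBs := h.eqs.cone h.surf.smul
  have hpos : 0 < Module.finrank ℂ V :=
    Module.finrank_pos_iff_exists_ne_zero.mpr ⟨x₀, hne x₀ hx₀⟩
  obtain ⟨N, hN⟩ : ∃ N, Module.finrank ℂ V = N + 1 := ⟨Module.finrank ℂ V - 1, by omega⟩
  let L : V ≃L[ℂ] EN N := ContinuousLinearEquiv.ofFinrankEq (by rw [hN]; simp)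
  obtain ⟨heq, M, c₀, C, G, hM⟩ := nodalL_metric L (Q := Nodal_Q Q) (D := D) h.surf h.opn h.sub (fun x => by
    have h1 : AnalyticAt ℂ (fun x : V => fun i => Q i x) x := by
      rw [analyticAt_pi_iff]
      exact fun i => h.eqs.an i x
    exact AnalyticAt.comp (g := (WithLp.toLp 2 : (κ → ℂ) → EuclideanSpace ℂ κ))
      (f := fun x : V => fun i => Q i x) ((EuclideanSpace.equiv κ ℂ).symm.analyticAt _) h1)
    (fun c x => by
      unfold Nodal_Q
      rw [← WithLp.toLp_smul]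
      congr 1
      funext i
      simp [h.eqs.smul]) (T := B) (fun x => by
      rw [h.eqs.mem_iff]
      unfold Nodal_Q
      constructor
      · rintro ⟨h1, h2⟩
        refine ⟨h1, ?_⟩
        have h3 : (fun i => Q i x) = (0 : κ → ℂ) := funext h2
        rw [h3]
        rfl
      · rintro ⟨h1, h2⟩
        refine ⟨h1, fun i => ?_⟩
        have h3 := congrFun (congrArg WithLp.ofLp h2) i
        exact h3) (fun x hx => pairNodal_of_nodal h.opn h.sub (h.eqs.sub hx) hx (hn x (h.eqs.sub hx)))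
      h.one_m h.one_j h.form h.noZeros h.pole
  have hcone : Pool.Agent.H14.PP.IsCone (L.symm ⁻¹' X : Set (EN N)) := isCone_transport L h.surf
  have hT's : ∀ x ∈ (L.symm ⁻¹' B : Set (EN N)), ∀ c : ℂ, c ≠ 0 → c • x ∈ (L.symm ⁻¹' B : Set (EN N)) := by
    intro x hx c hc
    show L.symm (c • x) ∈ B
    rw [map_smul]
    exact hBs _ hx c hc
  have hK's : ∀ x ∈ (L.symm ⁻¹' K : Set (EN N)), ∀ c : ℂ, c ≠ 0 → c • x ∈ (L.symm ⁻¹' K : Set (EN N)) := by
    intro x hx c hc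
    show L.symm (c • x) ∈ K
    rw [map_smul]
    exact hKs _ hx c hc
  have hK'0 : (0 : EN N) ∉ (L.symm ⁻¹' K : Set (EN N)) := fun h0 => hcone.zero_notMem (hKX h0)
  have e1 : coneOf (ptsOf (L.symm ⁻¹' K : Set (EN N))) = L.symm ⁻¹' K :=
    coneOf_ptsOf hK'0 hK's
  have e2 : coneOf (ptsOf ((L.symm ⁻¹' K : Set (EN N)) ∩ L.symm ⁻¹' B)) =
      (L.symm ⁻¹' K : Set (EN N)) ∩ L.symm ⁻¹' B :=
    coneOf_ptsOf (fun h0 => hK'0 h0.1)
      (fun x hx c hc => ⟨hK's x hx.1 c hc, hT's x hx.2 c hc⟩)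
  obtain ⟨K₁, hK₁, hK₁b⟩ := Pool.Agent.H14.PP.exists_rho_bound hcone heq
  have hM2 : MD (coneOf (ptsOf (L.symm ⁻¹' K : Set (EN N))))
      (coneOf (ptsOf ((L.symm ⁻¹' K : Set (EN N)) ∩ L.symm ⁻¹' B))) G
      (Pool.Agent.H14.PP.rho (fun y => Nodal_Q Q (L.symm y)) D) M c₀ C := by
    rw [e1, e2]
    exact hM
  have hbound := brody_bound_lim hM (limMod2_transport L h.surf h.opn h.lim)
  have hρB : ∀ x ∈ (L.symm ⁻¹' K : Set (EN N)), x ∈ (L.symm ⁻¹' K : Set (EN N)) ∩ L.symm ⁻¹' B →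
      Pool.Agent.H14.PP.rho (fun y => Nodal_Q Q (L.symm y)) D x = 0 := by
    intro x _ hx
    have h1 := ((heq.mem_iff x).1 hx.2).2
    unfold Pool.Agent.H14.PP.rho
    simp only at h1 ⊢
    rw [h1, norm_zero, zero_div]
  refine ⟨?_, ?_⟩
  · refine W_picard (fun h0 => h.surf.zero (h.opn.sub h0)) h.opn.smul hBs fun f hf hfX hfB => ?_
    obtain ⟨z₁, hz₁, hz₁T⟩ := hfB
    obtain ⟨g, hg, hgf⟩ := picard_cone_of_bound hM hbound (fun x hx c hc => ⟨hK's x hx.1 c hc, hT's x hx.2 c hc⟩) hρB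
      (fun z => toPN L (f z)) (holomorphicInto_toPN L hf)
      (fun z hz => (toPN_mem L h.opn.smul (f z)).mpr (hfX z hz)) ⟨z₁, hz₁, fun h1 => hz₁T ((toPN_mem L hBs (f z₁)).mp h1.2)⟩
    exact ⟨fun z => ofPN L (g z), holInto_ofPN L hg, fun z hz => by simp only; rw [hgf z hz, ofPN_toPN]⟩
  obtain ⟨L₁, hL₁, hkob⟩ := kobayashi_of_bound hM2 (by
    rw [e1]
    exact hbound)
  set A : ℝ := ‖(L : V →L[ℂ] EN N)‖ with hA
  set A' : ℝ := ‖(L.symm : EN N →L[ℂ] V)‖ with hA'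
  have hA0 : 0 ≤ A := norm_nonneg _
  have hA'0 : 0 ≤ A' := norm_nonneg _
  -- comparison of the sizes
  have hρ : ∀ x ∈ X, rhoS Q D x ≤ A ^ D *
      Pool.Agent.H14.PP.rho (fun y => Nodal_Q Q (L.symm y)) D (L x) := by
    intro x hx
    have hx0 : 0 < ‖x‖ := norm_pos_iff.mpr (hne x hx)
    have hLx0 : 0 < ‖L x‖ := norm_pos_iff.mpr fun h0 => hne x hx (L.map_eq_zero_iff.mp h0)
    unfold rhoS Pool.Agent.H14.PP.rho
    simp only
    rw [L.symm_apply_apply, ← mul_div_assoc, div_le_div_iff₀ (by positivity) (by positivity)]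
    have h1 : ‖fun i => Q i x‖ ≤ ‖Nodal_Q Q x‖ := by
      refine (pi_norm_le_iff_of_nonneg (norm_nonneg _)).mpr fun i => ?_
      exact PiLp.norm_apply_le (Nodal_Q Q x) i
    have h2 : ‖L x‖ ≤ A * ‖x‖ := (L : V →L[ℂ] EN N).le_opNorm x
    calc ‖fun i => Q i x‖ * ‖L x‖ ^ D ≤ ‖Nodal_Q Q x‖ * (A * ‖x‖) ^ D := by gcongr
      _ = A ^ D * ‖Nodal_Q Q x‖ * ‖x‖ ^ D := by rw [mul_pow]; ring
  have hρ2 : ∀ x ∈ X, rhoS Q D x ≤ A ^ D * K₁ := by
    intro x hx
    refine (hρ x hx).trans (mul_le_mul_of_nonneg_left (hK₁b _ ?_) (by positivity))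
    show L.symm (L x) ∈ X
    rwa [L.symm_apply_apply]
  refine ⟨M + 1, A ^ D * K₁ * ((A ^ D) ^ M * (A' * (L₁ * A))), by omega, by positivity,
    fun f F hf hF hF0 hfF => ?_⟩
  have hf0 := (hf 0 (by simp)).2
  have hFX : F 0 ∈ X := (Pr.mem_iff hXs hfF.self_of_nhds).1 (hKX hf0)
  have hx1 : (L x₀).ofLp ≠ 0 := ofLp_ne_zero fun h0 => hne x₀ hx₀ (L.map_eq_zero_iff.mp h0)
  set p : ℂ → PN N := fun z => ptN (L x₀).ofLp hx1 (L (f z)).ofLp with hp
  have hLne : ∀ y : V, y ≠ 0 → (L y).ofLp ≠ 0 := fun y hy =>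
    ofLp_ne_zero fun h0 => hy (L.map_eq_zero_iff.mp h0)
  have hLpr : ∀ {y y' : V}, Pr y y' → Pr (L y).ofLp (L y').ofLp := by
    rintro y y' ⟨c, hc, rfl⟩
    exact ⟨c, hc, by rw [map_smul]; rfl⟩
  have hpoint : ∀ {z : ℂ} {y : V} (hy : y ≠ 0), Pr (f z) y →
      p z = Projectivization.mk ℂ (L y).ofLp (hLne y hy) := fun hy h1 =>
    ptN_eq _ _ _ (hLpr h1)
  have h1 := hkob p (fun z => L (F z)) (by
    intro z₀ hz₀
    rw [mem_ball_zero_iff] at hz₀
    obtain ⟨Φ, hΦ, hΦ0, he⟩ := (hf z₀ hz₀).1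
    refine ⟨fun z => (L (Φ z)).ofLp, analyticAt_ofLp (((L : V →L[ℂ] EN N).analyticAt _).comp hΦ), ?_⟩
    filter_upwards [he, hΦ.continuousAt.eventually_ne hΦ0] with z h2 h3
    exact ⟨hLne _ h3, hpoint h3 h2⟩) (by
    intro z hz
    rw [mem_ball_zero_iff] at hz
    have h2 := (hf z hz).2
    have h2X := hKX h2
    show L.symm (WithLp.toLp 2 (p z).rep) ∈ K
    rw [hpoint (hne _ h2X) ⟨1, one_ne_zero, (one_smul _ _).symm⟩]
    obtain ⟨a, ha, h4⟩ := rep_mk (V := Fin (N + 1) → ℂ) (hLne _ (hne _ h2X))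
    rw [h4, WithLp.toLp_smul, WithLp.toLp_ofLp, map_smul, L.symm_apply_apply]
    exact hKs _ h2 a ha) (((L : V →L[ℂ] EN N).analyticAt _).comp hF) (by
    filter_upwards [hfF, hF.continuousAt.eventually_ne hF0] with z h2 h3
    exact ⟨hLne _ h3, hpoint h3 h2⟩)
  have hd : deriv (fun z => L (F z)) 0 = L (deriv F 0) := by
    have h2 : HasDerivAt (fun z => L (F z)) (L (deriv F 0)) 0 :=
      (L : V →L[ℂ] EN N).hasFDerivAt.comp_hasDerivAt 0 hF.differentiableAt.hasDerivAt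
    exact h2.deriv
  rw [hd] at h1
  have hLF0 : L (F 0) ≠ 0 := fun h0 => hF0 (L.map_eq_zero_iff.mp h0)
  rw [Pool.Agent.H14.PP.fs_eq hLF0] at h1
  set a : ℂ := inner ℂ (L (F 0)) (L (deriv F 0)) / (‖L (F 0)‖ : ℂ) ^ 2 with ha
  refine ⟨a, ?_⟩
  have hLFn : 0 < ‖L (F 0)‖ := norm_pos_iff.mpr hLF0
  have h2 : L (deriv F 0) - a • L (F 0) = L (deriv F 0 - a • F 0) := by
    rw [map_sub, map_smul]
  rw [h2, ← mul_div_assoc, div_le_iff₀ hLFn] at h1
  have h3 : ‖deriv F 0 - a • F 0‖ ≤ A' * ‖L (deriv F 0 - a • F 0)‖ := by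
    have := (L.symm : EN N →L[ℂ] V).le_opNorm (L (deriv F 0 - a • F 0))
    have e : (L.symm : EN N →L[ℂ] V) (L (deriv F 0 - a • F 0)) = deriv F 0 - a • F 0 :=
      L.symm_apply_apply _
    rwa [e] at this
  have h4 : ‖L (F 0)‖ ≤ A * ‖F 0‖ := (L : V →L[ℂ] EN N).le_opNorm _
  set ρ₀ := Pool.Agent.H14.PP.rho (fun y => Nodal_Q Q (L.symm y)) D (L (F 0)) with hρ₀
  have hρ₀0 : 0 ≤ ρ₀ := Pool.Agent.H14.PP.rho_nonneg _ _ _
  have h5 := hρ _ hFX
  have h6 := hρ2 _ hFX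
  have h7 := rhoS_nonneg Q D (F 0)
  calc rhoS Q D (F 0) ^ (M + 1) * ‖deriv F 0 - a • F 0‖
      = rhoS Q D (F 0) * (rhoS Q D (F 0) ^ M * ‖deriv F 0 - a • F 0‖) := by rw [pow_succ]; ring
    _ ≤ A ^ D * K₁ * ((A ^ D * ρ₀) ^ M * (A' * ‖L (deriv F 0 - a • F 0)‖)) := by gcongr
    _ = A ^ D * K₁ * ((A ^ D) ^ M * (A' * (ρ₀ ^ M * ‖L (deriv F 0 - a • F 0)‖))) := by
        rw [mul_pow]; ring
    _ ≤ A ^ D * K₁ * ((A ^ D) ^ M * (A' * (L₁ * ‖L (F 0)‖))) := by gcongr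
    _ ≤ A ^ D * K₁ * ((A ^ D) ^ M * (A' * (L₁ * (A * ‖F 0‖)))) := by gcongr
    _ = A ^ D * K₁ * ((A ^ D) ^ M * (A' * (L₁ * A))) * ‖F 0‖ := by ring

end Pool.Agent.H36.LB

end
end
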