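import Mathlib

/-! The parts of this file: H13.SM.Inv, H13.SM.Null, MQ.Reg2, MQL.SDA. -/

section

/-!
# The implicit function theorem for polynomials, with coordinates as parameters

PROOF.  The gradients `g j = fun i => eval w (pderiv i (f j))` are linearly independent in `ι → ℂ`,
`j : Fin c`.  Extend them by standard basis vectors to a basis: with `s = Set.range g`,
`t = s ∪ Set.range (fun i => Pi.single i 1)` take `s ⊆ B ⊆ t` linearly independent with
`t ⊆ span B` (`exists_linearIndependent_extension`), so `B` is a basis of `ι → ℂ`, `|B| = c + n`, and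
`B \ s` consists of `n` standard basis vectors `Pi.single (I k) 1`.
Let `Φ y = (fun j => eval y (f j), fun k => y (I k) - w (I k))`.  It is analytic, `Φ w = 0` and its
derivative at `w`, `v ↦ (∑ i, g j i * v i, v (I k))`, is injective: if it kills `v` then
`∑ i, u i * v i = 0` for all `u ∈ B`, hence for all `u`, so `v = 0`.  By dimension it is a linear
equivalence.  Let `Ψ` be the local inverse (`HasStrictFDerivAt.toOpenPartialHomeomorph`), analytic at
`0` (`OpenPartialHomeomorph.hasFPowerSeriesAt_symm` / `analyticAt_symm`); `σ u = Ψ (0, u)`.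
-/

open MvPolynomial Topology

noncomputable section

namespace Pool.Agent.H13.SM

/-- The derivative of the evaluation map of a polynomial. -/
theorem Inv_hasFDerivAt_eval {ι : Type} [Fintype ι] (p : MvPolynomial ι ℂ) (w : ι → ℂ) :
    HasFDerivAt (fun y : ι → ℂ => eval y p)
      (∑ i, eval w (pderiv i p) • (ContinuousLinearMap.proj i : (ι → ℂ) →L[ℂ] ℂ)) w := by
  classical
  induction p using MvPolynomial.induction_on with
  | C a =>
    have h := hasFDerivAt_const (𝕜 := ℂ) a w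
    have h2 : HasFDerivAt (fun y : ι → ℂ => eval y (C a : MvPolynomial ι ℂ)) (0 : (ι → ℂ) →L[ℂ] ℂ) w := by
      simpa using h
    refine h2.congr_fderiv ?_
    ext v
    simp
  | add p q hp hq =>
    have h := hp.add hq
    have h2 : (fun y : ι → ℂ => eval y (p + q)) = (fun y => eval y p) + fun y => eval y q := by
      funext y
      exact map_add _ _ _
    rw [h2]
    refine h.congr_fderiv ?_
    ext v
    simp [Finset.sum_add_distrib, add_mul]
  | mul_X p n hp =>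
    have h1 : HasFDerivAt (fun y : ι → ℂ => y n)
        (ContinuousLinearMap.proj n : (ι → ℂ) →L[ℂ] ℂ) w := hasFDerivAt_apply n w
    have h := hp.mul h1
    have h2 : (fun y : ι → ℂ => eval y (p * X n)) = (fun y => eval y p) * fun y => y n := by
      funext y
      simp only [map_mul, eval_X, Pi.mul_apply]
    rw [h2]
    refine h.congr_fderiv ?_
    ext v
    simp only [Derivation.leibniz, pderiv_X, smul_eq_mul, map_add, map_mul, eval_X,
      FunLike.coe_add, FunLike.coe_smul, Pi.add_apply, Pi.smul_apply, ContinuousLinearMap.proj_apply,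
      sum_apply, add_mul]
    rw [Finset.sum_add_distrib]
    congr 1
    · rw [Finset.sum_eq_single n]
      · simp
      · intro b _ hb
        simp [hb.symm]
      · intro h; exact absurd (Finset.mem_univ n) h
    · rw [Finset.mul_sum]
      exact Finset.sum_congr rfl fun i _ => by ring

/-- Completion of independent vectors by standard basis vectors. -/
theorem Inv_exists_coords {ι : Type} [Fintype ι] {c n : ℕ} (hcn : c + n = Fintype.card ι)
    {g : Fin c → ι → ℂ} (hli : LinearIndependent ℂ g) :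
    ∃ I : Fin n → ι, ∀ v : ι → ℂ, (∀ j, ∑ i, g j i * v i = 0) → (∀ k, v (I k) = 0) → v = 0 := by
  classical
  set S : Submodule ℂ (ι → ℂ) := Submodule.span ℂ (Set.range g) with hS
  have hfS : Module.finrank ℂ S = c := by
    rw [hS, finrank_span_eq_card hli, Fintype.card_fin]
  have hfW : Module.finrank ℂ ((ι → ℂ) ⧸ S) = n := by
    have h := Submodule.finrank_quotient_add_finrank S
    rw [hfS, Module.finrank_fintype_fun_eq_card] at h
    omega
  let q : ι → (ι → ℂ) ⧸ S := fun i => S.mkQ (Pi.single i 1)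
  have hspan : Submodule.span ℂ (Set.range q) = ⊤ := by
    have h1 : Set.range q = S.mkQ '' Set.range (fun i : ι => (Pi.single i (1 : ℂ) : ι → ℂ)) := by
      rw [← Set.range_comp]; rfl
    rw [h1, Submodule.span_image]
    have h2 : Submodule.span ℂ (Set.range (fun i : ι => (Pi.single i (1 : ℂ) : ι → ℂ))) = ⊤ := by
      have := (Pi.basisFun ℂ ι).span_eq
      convert this using 2
      ext i
      simp
    rw [h2, Submodule.map_top, Submodule.range_mkQ]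
  obtain ⟨κ, a, ha, hsp, hlin⟩ := exists_linearIndependent' ℂ q
  have hb := Module.Basis.mk hlin (by rw [hsp, hspan])
  have : Finite κ := Finite.of_injective a ha
  have : Fintype κ := Fintype.ofFinite κ
  have hcard : Fintype.card κ = n := by
    rw [← hfW, Module.finrank_eq_card_basis hb]
  let e : Fin n ≃ κ := (Fintype.equivFinOfCardEq hcard).symm
  refine ⟨fun k => a (e k), fun v hv1 hv2 => ?_⟩
  -- the functional
  let φ : (ι → ℂ) →ₗ[ℂ] ℂ := ∑ i, v i • (LinearMap.proj i : (ι → ℂ) →ₗ[ℂ] ℂ)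
  have hφ : ∀ u : ι → ℂ, φ u = ∑ i, v i * u i := by
    intro u
    simp [φ]
  have hφS : S ≤ LinearMap.ker φ := by
    rw [hS, Submodule.span_le]
    rintro _ ⟨j, rfl⟩
    rw [SetLike.mem_coe, LinearMap.mem_ker, hφ, ← hv1 j]
    exact Finset.sum_congr rfl fun i _ => mul_comm _ _
  let ψ : ((ι → ℂ) ⧸ S) →ₗ[ℂ] ℂ := S.liftQ φ hφS
  have hψ : ∀ u, ψ (S.mkQ u) = φ u := fun u => by simp [ψ]
  have hψ0 : ψ = 0 := by
    apply LinearMap.ext_on_range (v := q ∘ a)
    · rw [hsp, hspan]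
    · intro k
      obtain ⟨k', rfl⟩ := e.surjective k
      show ψ (S.mkQ (Pi.single (a (e k')) 1)) = 0
      rw [hψ, hφ, Finset.sum_eq_single (a (e k'))]
      · rw [hv2 k', zero_mul]
      · intro b _ hb
        rw [Pi.single_eq_of_ne hb, mul_zero]
      · intro h; exact absurd (Finset.mem_univ _) h
  ext i
  have h3 : φ (Pi.single i 1) = 0 := by rw [← hψ, hψ0]; rfl
  rw [hφ, Finset.sum_eq_single i] at h3
  · simpa using h3
  · intro b _ hb
    rw [Pi.single_eq_of_ne hb, mul_zero]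
  · intro h; exact absurd (Finset.mem_univ _) h

theorem exists_implicit {ι : Type} [Fintype ι] {c n : ℕ} (hcn : c + n = Fintype.card ι)
    {f : Fin c → MvPolynomial ι ℂ} {w : ι → ℂ} (hf : ∀ j, eval w (f j) = 0)
    (hli : LinearIndependent ℂ fun (j : Fin c) (i : ι) => eval w (pderiv i (f j))) :
    ∃ (I : Fin n → ι) (σ : (Fin n → ℂ) → ι → ℂ), AnalyticAt ℂ σ 0 ∧ σ 0 = w ∧
      (∀ᶠ u in 𝓝 0, (∀ j, eval (σ u) (f j) = 0) ∧ ∀ k, σ u (I k) = w (I k) + u k) ∧
      ∀ᶠ y in 𝓝 w, (∀ j, eval y (f j) = 0) → y = σ (fun k => y (I k) - w (I k)) := by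
  classical
  obtain ⟨I, hI⟩ := Inv_exists_coords hcn hli
  let Φ : (ι → ℂ) → (Fin c → ℂ) × (Fin n → ℂ) :=
    fun y => (fun j => eval y (f j), fun k => y (I k) - w (I k))
  have hΦan : AnalyticAt ℂ Φ w := by
    apply AnalyticAt.prod
    · rw [analyticAt_pi_iff]
      intro j
      exact AnalyticOnNhd.eval_mvPolynomial (f j) w (Set.mem_univ _)
    · rw [analyticAt_pi_iff]
      intro k
      exact ((ContinuousLinearMap.proj (I k) : (ι → ℂ) →L[ℂ] ℂ).analyticAt w).sub analyticAt_const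
  have hΦw : Φ w = 0 := by
    apply Prod.ext
    · funext j; exact hf j
    · funext k; exact sub_self _
  let L : (ι → ℂ) →L[ℂ] (Fin c → ℂ) × (Fin n → ℂ) :=
    (ContinuousLinearMap.pi fun j => ∑ i, eval w (pderiv i (f j)) •
      (ContinuousLinearMap.proj i : (ι → ℂ) →L[ℂ] ℂ)).prod
      (ContinuousLinearMap.pi fun k => (ContinuousLinearMap.proj (I k) : (ι → ℂ) →L[ℂ] ℂ))
  have hL : HasFDerivAt Φ L w := by
    apply HasFDerivAt.prodMk
    · rw [hasFDerivAt_pi]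
      intro j
      exact Inv_hasFDerivAt_eval (f j) w
    · rw [hasFDerivAt_pi]
      intro k
      exact (hasFDerivAt_apply (I k) w).sub_const _
  have hLinj : Function.Injective (L : (ι → ℂ) →ₗ[ℂ] (Fin c → ℂ) × (Fin n → ℂ)) := by
    rw [injective_iff_map_eq_zero]
    intro v hv
    apply hI v
    · intro j
      have h1 := congrFun (congrArg Prod.fst hv) j
      simpa [L] using h1
    · intro k
      have h1 := congrFun (congrArg Prod.snd hv) k
      simpa [L] using h1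
  have hdim : Module.finrank ℂ (ι → ℂ) = Module.finrank ℂ ((Fin c → ℂ) × (Fin n → ℂ)) := by
    rw [Module.finrank_prod, Module.finrank_fintype_fun_eq_card, Module.finrank_fintype_fun_eq_card,
      Module.finrank_fintype_fun_eq_card, Fintype.card_fin, Fintype.card_fin, hcn]
  let Le : (ι → ℂ) ≃ₗ[ℂ] (Fin c → ℂ) × (Fin n → ℂ) :=
    LinearEquiv.ofInjectiveOfFinrankEq (L : (ι → ℂ) →ₗ[ℂ] (Fin c → ℂ) × (Fin n → ℂ)) hLinj hdim
  let Lc : (ι → ℂ) ≃L[ℂ] (Fin c → ℂ) × (Fin n → ℂ) := Le.toContinuousLinearEquiv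
  have hLc : (Lc : (ι → ℂ) →L[ℂ] (Fin c → ℂ) × (Fin n → ℂ)) = L := by
    ext1 v; rfl
  have hL' : HasFDerivAt Φ (Lc : (ι → ℂ) →L[ℂ] (Fin c → ℂ) × (Fin n → ℂ)) w := by
    rw [hLc]; exact hL
  have hcd : ContDiffAt ℂ ⊤ Φ w := hΦan.contDiffAt
  have hs := hcd.hasStrictFDerivAt' hL' (by simp)
  let Ψ := hs.localInverse Φ Lc w
  have hΨan : AnalyticAt ℂ Ψ 0 := by
    have h1 : ContDiffAt ℂ ⊤ (hcd.localInverse hL' (by simp)) (Φ w) := hcd.to_localInverse hL' (by simp)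
    rw [hΦw] at h1
    have h2 := contDiffWithinAt_omega_iff_analyticWithinAt.1 (contDiffWithinAt_univ.2 h1)
    exact analyticWithinAt_univ.1 h2
  have hright : ∀ᶠ y in 𝓝 (0 : (Fin c → ℂ) × (Fin n → ℂ)), Φ (Ψ y) = y := by
    have := hs.eventually_right_inverse
    rwa [hΦw] at this
  have hleft : ∀ᶠ y in 𝓝 w, Ψ (Φ y) = y := hs.eventually_left_inverse
  have hΨ0 : Ψ 0 = w := by
    have := hleft.self_of_nhds
    rwa [hΦw] at this
  have hemb : AnalyticAt ℂ (fun u : Fin n → ℂ => ((0 : Fin c → ℂ), u)) 0 :=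
    analyticAt_const.prod analyticAt_id
  have hcont : Filter.Tendsto (fun u : Fin n → ℂ => ((0 : Fin c → ℂ), u)) (𝓝 0) (𝓝 0) := by
    have := hemb.continuousAt
    exact this
  refine ⟨I, fun u => Ψ (0, u), ?_, hΨ0, ?_, ?_⟩
  · exact AnalyticAt.comp (g := Ψ) (f := fun u : Fin n → ℂ => ((0 : Fin c → ℂ), u)) hΨan hemb
  · filter_upwards [hcont.eventually hright] with u hu
    constructor
    · intro j
      exact congrFun (congrArg Prod.fst hu) j
    · intro k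
      have := congrFun (congrArg Prod.snd hu) k
      have h' : Ψ (0, u) (I k) - w (I k) = u k := this
      rw [← h']; ring
  · filter_upwards [hleft] with y hy hy0
    rw [← hy]
    congr 1
    show Φ y = (0, fun k => Ψ (Φ y) (I k) - w (I k))
    rw [hy]
    apply Prod.ext
    · funext j; exact hy0 j
    · rfl

end Pool.Agent.H13.SM

end
end

section

/-!
# The zero set of an analytic function is a null set

PROOF.  `h` is analytic on a ball of radius `r` around `0` (`AnalyticAt.eventually_analyticAt`; sup norm,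
the ball is convex), and since it is not eventually `0` there is `v` with `‖v‖ < r / 2`, `h v ≠ 0`;
`v ≠ 0` since `h 0 = 0`.  By continuity there is `0 < δ ≤ r / 2` with `h (p + v) ≠ 0` for `‖p‖ < δ`.  Take
`W = Metric.ball 0 δ`, `Z' = {x ∈ W | h x = 0}`, measurable since `W \ Z' = {x ∈ W | h x ≠ 0}` is open.
By `MeasureTheory.ae_mem_of_ae_add_linearMap_mem` for `L : ℂ →ₗ[ℝ] (Fin n → ℂ)`, `t ↦ t • v`, and
`s = Z'ᶜ`, it is enough that for every `y` the set `{t : ℂ | y + t • v ∈ Z'}` is null.  If it is not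
empty, let `p = y + t₀ • v ∈ Z'`; the set is the translate by `t₀` of a subset of
`{s ∈ D | h (p + s • v) = 0}`, `D = {s : ℂ | ‖p + s • v‖ < r}`.  `D` is open and convex, contains `0` and
`1`, and `g s = h (p + s • v)` is analytic on `D` with `g 1 ≠ 0`.  So the zeros of `g` in `D` are
isolated (`AnalyticOnNhd.eqOn_zero_of_preconnected_of_frequently_eq_zero`,
`AnalyticAt.eventually_eq_zero_or_eventually_ne_zero`) and the zero set is null: it is codiscrete in `D`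
(`AnalyticOnNhd.preimage_zero_mem_codiscreteWithin` or similar) and
`MeasureTheory.ae_restrict_le_codiscreteWithin`; or it is countable.
-/

open Topology MeasureTheory

noncomputable section

namespace Pool.Agent.H13.SM

private theorem Null_line {n : ℕ} {h : (Fin n → ℂ) → ℂ} {r : ℝ} {v p : Fin n → ℂ}
    (hball : ∀ y ∈ Metric.ball (0 : Fin n → ℂ) r, AnalyticAt ℂ h y)
    (hpv : p + v ∈ Metric.ball (0 : Fin n → ℂ) r) (hv : h (p + v) ≠ 0) :
    ∀ᵐ s : ℂ, p + s • v ∈ Metric.ball (0 : Fin n → ℂ) r → h (p + s • v) ≠ 0 := by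
  have hline : Continuous fun s : ℂ => p + s • v :=
    continuous_const.add (continuous_id.smul continuous_const)
  have hDo : IsOpen {s : ℂ | p + s • v ∈ Metric.ball (0 : Fin n → ℂ) r} :=
    Metric.isOpen_ball.preimage hline
  have hDc : Convex ℝ {s : ℂ | p + s • v ∈ Metric.ball (0 : Fin n → ℂ) r} := by
    intro x hx y hy a b ha hb hab
    have h1 := (convex_ball (0 : Fin n → ℂ) r) hx hy ha hb hab
    have h2 : a • (p + x • v) + b • (p + y • v) = p + (a • x + b • y) • v := by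
      have h3 : (a + b) • p = p := by rw [hab, one_smul]
      calc a • (p + x • v) + b • (p + y • v) = (a + b) • p + (a • x + b • y) • v := by
            rw [smul_add, smul_add, add_smul, add_smul, smul_assoc, smul_assoc]
            abel
        _ = _ := by rw [h3]
    rw [h2] at h1
    exact h1
  have hg : AnalyticOnNhd ℂ (fun s : ℂ => h (p + s • v))
      {s : ℂ | p + s • v ∈ Metric.ball (0 : Fin n → ℂ) r} := by
    intro s hs
    have h1 : AnalyticAt ℂ (fun s : ℂ => p + s • v) s :=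
      analyticAt_const.add (analyticAt_id.smul analyticAt_const)
    exact AnalyticAt.comp (g := h) (f := fun s : ℂ => p + s • v) (hball _ hs) h1
  have h1D : (1 : ℂ) ∈ {s : ℂ | p + s • v ∈ Metric.ball (0 : Fin n → ℂ) r} := by
    show p + (1 : ℂ) • v ∈ Metric.ball (0 : Fin n → ℂ) r
    rw [one_smul]
    exact hpv
  rcases hg.eqOn_zero_or_eventually_ne_zero_of_preconnected hDc.isPreconnected with h2 | h2
  · exfalso
    have h3 := h2 h1D
    apply hv
    simpa using h3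
  · have h3 := ae_restrict_le_codiscreteWithin (μ := (volume : Measure ℂ)) hDo.measurableSet h2
    exact (ae_restrict_iff' hDo.measurableSet).1 h3

theorem exists_null {n : ℕ} {h : (Fin n → ℂ) → ℂ} (hh : AnalyticAt ℂ h 0) (h0 : h 0 = 0)
    (hne : ¬ ∀ᶠ u in 𝓝 0, h u = 0) :
    ∃ W ∈ 𝓝 (0 : Fin n → ℂ), volume {u | u ∈ W ∧ h u = 0} = 0 := by
  obtain ⟨r, hr, hball⟩ := Metric.eventually_nhds_iff_ball.1 hh.eventually_analyticAt
  have hex : ∃ v ∈ Metric.ball (0 : Fin n → ℂ) (r / 2), h v ≠ 0 := by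
    by_contra hcon
    push Not at hcon
    exact hne (Filter.mem_of_superset (Metric.ball_mem_nhds 0 (half_pos hr)) fun u hu => hcon u hu)
  obtain ⟨v, hvr, hv⟩ := hex
  have hvr' : v ∈ Metric.ball (0 : Fin n → ℂ) r := Metric.ball_subset_ball (by linarith) hvr
  have hcont : ContinuousAt (fun p : Fin n → ℂ => h (p + v)) 0 := by
    have h1 : ContinuousAt h ((0 : Fin n → ℂ) + v) := by
      rw [zero_add]
      exact (hball v hvr').continuousAt
    exact ContinuousAt.comp (g := h) (f := fun p : Fin n → ℂ => p + v) h1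
      (continuousAt_id.add continuousAt_const)
  have hev : ∀ᶠ p in 𝓝 (0 : Fin n → ℂ), h (p + v) ≠ 0 := hcont.eventually_ne (by rwa [zero_add])
  obtain ⟨δ0, hδ0, hδ⟩ := Metric.eventually_nhds_iff_ball.1 hev
  have hδpos : 0 < min δ0 (r / 2) := lt_min hδ0 (half_pos hr)
  have hsub : Metric.ball (0 : Fin n → ℂ) (min δ0 (r / 2)) ⊆ Metric.ball 0 r :=
    Metric.ball_subset_ball ((min_le_right _ _).trans (by linarith))
  refine ⟨Metric.ball 0 (min δ0 (r / 2)), Metric.ball_mem_nhds 0 hδpos, ?_⟩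
  have hZm : MeasurableSet {u : Fin n → ℂ | u ∈ Metric.ball (0 : Fin n → ℂ) (min δ0 (r / 2)) ∧ h u = 0} := by
    have hc : ContinuousOn h (Metric.ball (0 : Fin n → ℂ) (min δ0 (r / 2))) :=
      fun u hu => (hball u (hsub hu)).continuousAt.continuousWithinAt
    have ho : IsOpen (Metric.ball (0 : Fin n → ℂ) (min δ0 (r / 2)) ∩ h ⁻¹' {0}ᶜ) :=
      hc.isOpen_inter_preimage Metric.isOpen_ball isOpen_compl_singleton
    have he : {u : Fin n → ℂ | u ∈ Metric.ball (0 : Fin n → ℂ) (min δ0 (r / 2)) ∧ h u = 0} =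
        Metric.ball (0 : Fin n → ℂ) (min δ0 (r / 2)) \
          (Metric.ball (0 : Fin n → ℂ) (min δ0 (r / 2)) ∩ h ⁻¹' {0}ᶜ) := by
      ext u
      constructor
      · rintro ⟨h1, h2⟩
        exact ⟨h1, fun h3 => h3.2 h2⟩
      · rintro ⟨h1, h2⟩
        refine ⟨h1, ?_⟩
        by_contra h3
        exact h2 ⟨h1, h3⟩
    rw [he]
    exact Metric.isOpen_ball.measurableSet.diff ho.measurableSet
  have key : ∀ᵐ y : Fin n → ℂ, y ∈ {u : Fin n → ℂ | u ∈ Metric.ball (0 : Fin n → ℂ) (min δ0 (r / 2)) ∧ h u = 0}ᶜ := by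
    refine ae_mem_of_ae_add_linearMap_mem (LinearMap.toSpanSingleton ℂ (Fin n → ℂ) v) volume volume
      hZm.compl fun y => ?_
    by_cases hy : ∃ t0 : ℂ, y + t0 • v ∈ {u : Fin n → ℂ | u ∈ Metric.ball (0 : Fin n → ℂ) (min δ0 (r / 2)) ∧ h u = 0}
    · obtain ⟨t0, hp1, -⟩ := hy
      have hp2 : ‖y + t0 • v‖ < min δ0 (r / 2) := by simpa using hp1
      have hpv : (y + t0 • v) + v ∈ Metric.ball (0 : Fin n → ℂ) r := by
        rw [mem_ball_zero_iff]
        have h1 := norm_add_le (y + t0 • v) v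
        have h2 : ‖v‖ < r / 2 := by simpa using hvr
        have h3 : min δ0 (r / 2) ≤ r / 2 := min_le_right _ _
        linarith
      have hne1 : h ((y + t0 • v) + v) ≠ 0 :=
        hδ _ (Metric.ball_subset_ball (min_le_left _ _) hp1)
      have h1 := Null_line hball hpv hne1
      have h2 := (measurePreserving_sub_right (volume : Measure ℂ) t0).quasiMeasurePreserving.ae h1
      filter_upwards [h2] with t ht hZ
      have h3 : y + t0 • v + (t - t0) • v = y + t • v := by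
        rw [sub_smul]
        abel
      rw [h3] at ht
      have h4 : y + (LinearMap.toSpanSingleton ℂ (Fin n → ℂ) v) t = y + t • v := by
        rw [LinearMap.toSpanSingleton_apply]
      rw [h4] at hZ
      exact ht (hsub hZ.1) hZ.2
    · refine Filter.Eventually.of_forall fun t hZ => hy ⟨t, ?_⟩
      have h4 : y + (LinearMap.toSpanSingleton ℂ (Fin n → ℂ) v) t = y + t • v := by
        rw [LinearMap.toSpanSingleton_apply]
      rw [h4] at hZ
      exact hZ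
  have h5 := mem_ae_iff.1 key
  have h6 : {y : Fin n → ℂ | y ∈ {u : Fin n → ℂ | u ∈ Metric.ball (0 : Fin n → ℂ) (min δ0 (r / 2)) ∧ h u = 0}ᶜ}ᶜ =
      {u : Fin n → ℂ | u ∈ Metric.ball (0 : Fin n → ℂ) (min δ0 (r / 2)) ∧ h u = 0} :=
    compl_compl _
  rw [h6] at h5
  exact h5

end Pool.Agent.H13.SM

end
end

section

/-!
# MQ V10 `Reg2`: two variables, near an axis
-/

set_option autoImplicit false

open MeasureTheory Topology Filter Metric

noncomputable section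

namespace Pool.Agent.MQ

/-- the estimates on the axis `x = 0`, with strict inequalities, and near it -/
private theorem reg2_aux {q : ℂ × ℂ → ℂ} {n : ℕ} (hn : 1 ≤ n) {ε : ℝ} (hε : 0 < ε) {u : ℂ → ℂ} {y : ℂ} (hy : y ≠ 0)
    (hq : AnalyticAt ℂ q (0, y)) (hu : AnalyticAt ℂ u y) (hqu : ∀ᶠ t in 𝓝 y, q (0, t) = t ^ n * u t) (hu0 : u y ≠ 0)
    (hyu : ‖y * deriv u y‖ < ε * ‖u y‖) {b₀ : ℝ} (hb : b₀ < n * Real.log ‖y‖ + Real.log ‖u y‖)
    (hb' : n * Real.log ‖y‖ + Real.log ‖u y‖ < b₀ + n) :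
    ∀ᶠ p : ℂ × ℂ in 𝓝 (0, y), q (p.1, p.2) ≠ 0 ∧ b₀ ≤ Real.log ‖q (p.1, p.2)‖ ∧ Real.log ‖q (p.1, p.2)‖ ≤ b₀ + n ∧
      ‖p.1‖ * ‖fderiv ℂ q (p.1, p.2) (1, 0)‖ ≤ ε * ‖q (p.1, p.2)‖ ∧
      ‖p.2 * fderiv ℂ q (p.1, p.2) (0, 1) - n * q (p.1, p.2)‖ ≤ ε * ‖q (p.1, p.2)‖ := by
  have hq1 : q (0, y) = y ^ n * u y := hqu.self_of_nhds
  have hyn : y ^ n ≠ 0 := pow_ne_zero n hy
  have hq0 : q (0, y) ≠ 0 := by rw [hq1]; exact mul_ne_zero hyn hu0
  have hqn : 0 < ‖q (0, y)‖ := norm_pos_iff.2 hq0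
  have hlog : Real.log ‖q (0, y)‖ = n * Real.log ‖y‖ + Real.log ‖u y‖ := by
    rw [hq1, norm_mul, norm_pow, Real.log_mul (pow_ne_zero n (norm_ne_zero_iff.2 hy)) (norm_ne_zero_iff.2 hu0), Real.log_pow]
  have hd1 : HasDerivAt (fun t : ℂ => q (0, t)) (fderiv ℂ q (0, y) (0, 1)) y := by
    have h1 : HasFDerivAt q (fderiv ℂ q (0, y)) (0, y) := hq.differentiableAt.hasFDerivAt
    have h2 : HasDerivAt (fun t : ℂ => ((0 : ℂ), t)) ((0 : ℂ), (1 : ℂ)) y := (hasDerivAt_const y (0 : ℂ)).prodMk (hasDerivAt_id y)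
    exact h1.comp_hasDerivAt y h2
  have hd2 : HasDerivAt (fun t : ℂ => t ^ n * u t) (n * y ^ (n - 1) * u y + y ^ n * deriv u y) y :=
    (hasDerivAt_pow n y).mul hu.differentiableAt.hasDerivAt
  have hd3 : fderiv ℂ q (0, y) (0, 1) = n * y ^ (n - 1) * u y + y ^ n * deriv u y := by
    have h := hd1.congr_of_eventuallyEq (f₁ := fun t : ℂ => t ^ n * u t) (hqu.mono fun t ht => ht.symm)
    exact h.unique hd2
  have hd4 : y * fderiv ℂ q (0, y) (0, 1) - n * q (0, y) = y ^ n * (y * deriv u y) := by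
    rw [hd3, hq1]
    have : y ^ n = y * y ^ (n - 1) := by rw [← pow_succ', Nat.sub_add_cancel hn]
    rw [this]; ring
  have hfin : ‖y * fderiv ℂ q (0, y) (0, 1) - n * q (0, y)‖ < ε * ‖q (0, y)‖ := by
    rw [hd4, hq1, norm_mul, norm_mul (y ^ n) (u y)]
    have := mul_lt_mul_of_pos_left hyu (norm_pos_iff.2 hyn)
    linarith
  have cq : ContinuousAt q (0, y) := hq.continuousAt
  have cf : ContinuousAt (fderiv ℂ q) (0, y) := hq.fderiv.continuousAt
  have cqn : ContinuousAt (fun p : ℂ × ℂ => ‖q p‖) (0, y) := cq.norm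
  have cql : ContinuousAt (fun p : ℂ × ℂ => Real.log ‖q p‖) (0, y) := cqn.log (ne_of_gt hqn)
  have e1 : ∀ᶠ p : ℂ × ℂ in 𝓝 (0, y), q p ≠ 0 := cq.eventually_ne hq0
  have e2 : ∀ᶠ p : ℂ × ℂ in 𝓝 (0, y), b₀ < Real.log ‖q p‖ := cql.eventually_const_lt (by show b₀ < Real.log ‖q (0, y)‖; rw [hlog]; exact hb)
  have e3 : ∀ᶠ p : ℂ × ℂ in 𝓝 (0, y), Real.log ‖q p‖ < b₀ + n := cql.eventually_lt_const (by show Real.log ‖q (0, y)‖ < b₀ + n; rw [hlog]; exact hb')
  have e4 : ∀ᶠ p : ℂ × ℂ in 𝓝 (0, y), ‖p.1‖ * ‖fderiv ℂ q p (1, 0)‖ < ε * ‖q p‖ := by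
    have c1 : ContinuousAt (fun p : ℂ × ℂ => ‖p.1‖ * ‖fderiv ℂ q p (1, 0)‖) (0, y) :=
      continuousAt_fst.norm.mul (cf.clm_apply continuousAt_const).norm
    refine ContinuousAt.eventually_lt c1 (continuousAt_const.mul cqn) ?_
    simp only [norm_zero, zero_mul]
    positivity
  have e5 : ∀ᶠ p : ℂ × ℂ in 𝓝 (0, y), ‖p.2 * fderiv ℂ q p (0, 1) - n * q p‖ < ε * ‖q p‖ := by
    have c1 : ContinuousAt (fun p : ℂ × ℂ => ‖p.2 * fderiv ℂ q p (0, 1) - n * q p‖) (0, y) :=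
      ((continuousAt_snd.mul (cf.clm_apply continuousAt_const)).sub (continuousAt_const.mul cq)).norm
    exact ContinuousAt.eventually_lt c1 (continuousAt_const.mul cqn) hfin
  filter_upwards [e1, e2, e3, e4, e5] with p h1 h2 h3 h4 h5
  exact ⟨h1, h2.le, h3.le, h4.le, h5.le⟩

theorem reg2 {q : ℂ × ℂ → ℂ} (hq : AnalyticAt ℂ q 0) {n : ℕ} (hn : 1 ≤ n) (hord : analyticOrderAt (fun t => q (0, t)) 0 = n) {ε : ℝ} (hε : 0 < ε) :
    ∀ᶠ r₀ in 𝓝[>] (0 : ℝ), ∃ (η b₀ : ℝ), 0 < η ∧ 2 * η ≤ r₀ ∧ ∀ x y : ℂ, ‖x‖ ≤ η → r₀ / 2 ≤ ‖y‖ → ‖y‖ ≤ r₀ →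
      q (x, y) ≠ 0 ∧ b₀ ≤ Real.log ‖q (x, y)‖ ∧ Real.log ‖q (x, y)‖ ≤ b₀ + n ∧ ‖x‖ * ‖fderiv ℂ q (x, y) (1, 0)‖ ≤ ε * ‖q (x, y)‖ ∧
      ‖y * fderiv ℂ q (x, y) (0, 1) - n * q (x, y)‖ ≤ ε * ‖q (x, y)‖ := by
  have hc0 : Continuous fun t : ℂ => ((0 : ℂ), t) := by fun_prop
  have hq0 : AnalyticAt ℂ (fun t : ℂ => q (0, t)) 0 := by
    have h1 : AnalyticAt ℂ (fun t : ℂ => ((0 : ℂ), t)) 0 := analyticAt_const.prod analyticAt_id
    exact AnalyticAt.fun_comp (f := fun t : ℂ => ((0 : ℂ), t)) (g := q) hq h1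
  obtain ⟨u, hu, hu0, hqu⟩ := (hq0.analyticOrderAt_eq_natCast).1 hord
  have hun : 0 < ‖u 0‖ := norm_pos_iff.2 hu0
  -- the conditions on `y`
  have E1 : ∀ᶠ y : ℂ in 𝓝 0, AnalyticAt ℂ q (0, y) :=
    hc0.continuousAt.eventually (p := fun p => AnalyticAt ℂ q p) hq.eventually_analyticAt
  have E2 : ∀ᶠ y : ℂ in 𝓝 0, ∀ᶠ t in 𝓝 y, q (0, t) = t ^ n * u t := by
    refine eventually_eventually_nhds.2 (hqu.mono fun t ht => ?_)
    simpa using ht
  have E3 : ∀ᶠ y : ℂ in 𝓝 0, AnalyticAt ℂ u y := hu.eventually_analyticAt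
  have cu : ContinuousAt u 0 := hu.continuousAt
  have cul : ContinuousAt (fun y => Real.log ‖u y‖) 0 := cu.norm.log (ne_of_gt hun)
  have E4 : ∀ᶠ y : ℂ in 𝓝 0, ‖y * deriv u y‖ < ε * ‖u y‖ := by
    have c1 : ContinuousAt (fun y : ℂ => ‖y * deriv u y‖) 0 := (continuousAt_id.mul hu.deriv.continuousAt).norm
    refine ContinuousAt.eventually_lt c1 (continuousAt_const.mul cu.norm) ?_
    simp only [zero_mul, norm_zero]
    positivity
  have E5 : ∀ᶠ y : ℂ in 𝓝 0, Real.log ‖u 0‖ - 1 / 10 < Real.log ‖u y‖ := cul.eventually_const_lt (by linarith)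
  have E5' : ∀ᶠ y : ℂ in 𝓝 0, Real.log ‖u y‖ < Real.log ‖u 0‖ + 1 / 10 := cul.eventually_lt_const (by linarith)
  have E6 : ∀ᶠ y : ℂ in 𝓝 0, u y ≠ 0 := cu.eventually_ne hu0
  obtain ⟨δ, hδ, hball⟩ := Metric.eventually_nhds_iff.1 (E1.and (E2.and (E3.and (E4.and (E5.and (E5'.and E6))))))
  filter_upwards [Ioo_mem_nhdsGT hδ] with r₀ hr
  obtain ⟨hr0, hrδ⟩ := hr
  have hr2 : 0 < r₀ / 2 := by positivity
  have hA : IsCompact {y : ℂ | r₀ / 2 ≤ ‖y‖ ∧ ‖y‖ ≤ r₀} := by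
    have h1 : IsClosed {y : ℂ | r₀ / 2 ≤ ‖y‖ ∧ ‖y‖ ≤ r₀} :=
      (isClosed_le continuous_const continuous_norm).inter (isClosed_le continuous_norm continuous_const)
    refine (isCompact_closedBall (0 : ℂ) r₀).of_isClosed_subset h1 fun y hy => ?_
    rw [mem_closedBall, dist_zero_right]
    exact hy.2
  have key := hA.eventually_forall_of_forall_eventually (x₀ := (0 : ℂ))
    (P := fun x y => q (x, y) ≠ 0 ∧ n * Real.log (r₀ / 2) + Real.log ‖u 0‖ - 1 / 10 ≤ Real.log ‖q (x, y)‖ ∧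
      Real.log ‖q (x, y)‖ ≤ n * Real.log (r₀ / 2) + Real.log ‖u 0‖ - 1 / 10 + n ∧ ‖x‖ * ‖fderiv ℂ q (x, y) (1, 0)‖ ≤ ε * ‖q (x, y)‖ ∧
      ‖y * fderiv ℂ q (x, y) (0, 1) - n * q (x, y)‖ ≤ ε * ‖q (x, y)‖) (fun y hy => by
    have hyp : 0 < ‖y‖ := hr2.trans_le hy.1
    obtain ⟨h1, h2, h3, h4, h5, h5', h6⟩ := hball (y := y) (by rw [dist_zero_right]; exact hy.2.trans_lt hrδ)
    have hn1 : (1 : ℝ) ≤ n := by exact_mod_cast hn
    have l1 : Real.log (r₀ / 2) ≤ Real.log ‖y‖ := Real.log_le_log hr2 hy.1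
    have l2 : Real.log ‖y‖ ≤ Real.log (r₀ / 2) + Real.log 2 := by
      rw [← Real.log_mul (ne_of_gt hr2) (by norm_num)]
      exact Real.log_le_log hyp (by linarith [hy.2])
    have l3 : Real.log 2 < 0.7 := Real.log_two_lt_d9.trans (by norm_num)
    refine reg2_aux hn hε (norm_pos_iff.1 hyp) h1 h3 h2 h6 h4 ?_ ?_
    · nlinarith
    · nlinarith)
  obtain ⟨δ', hδ', hball'⟩ := Metric.eventually_nhds_iff.1 key
  refine ⟨min (δ' / 2) (r₀ / 2), n * Real.log (r₀ / 2) + Real.log ‖u 0‖ - 1 / 10, by positivity, ?_, fun x y hx h1 h2 => ?_⟩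
  · have := min_le_right (δ' / 2) (r₀ / 2)
    linarith
  · refine hball' (y := x) ?_ y ⟨h1, h2⟩
    rw [dist_zero_right]
    have := min_le_left (δ' / 2) (r₀ / 2)
    linarith

end Pool.Agent.MQ

end
end

section

/-!
# MQL SDA: the bound near a point of an axis
-/

set_option autoImplicit false

open Topology Filter Metric MeasureTheory Asymptotics Laplacian

noncomputable section

namespace Pool.Agent.MQL

/-- near a point of the axis `{x = 0}`: nonnegative exponent, or transversal, or in the weight -/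
theorem ax_bound {al : ℝ} (hal : -1 < al) {v : ℂ × ℂ → ℂ × ℂ} {g : ℂ × ℂ → ℂ} {q₀ : ℂ × ℂ} (h0 : q₀.1 = 0) (hv : AnalyticAt ℂ v q₀) (hv0 : v q₀ ≠ 0)
    (hg : AnalyticAt ℂ g q₀) (h : 0 ≤ al ∨ (v q₀).1 ≠ 0 ∨ ∃ g₀ : ℂ × ℂ → ℂ, AnalyticAt ℂ g₀ q₀ ∧ ∀ᶠ q in 𝓝 q₀, g q = q.1 * g₀ q) :
    ∃ C : ℝ, 0 ≤ C ∧ ∀ᶠ q in 𝓝 q₀, (al < 0 → q.1 ≠ 0) → ‖g q‖ * ‖q.1‖ ^ al ≤ C * (‖v q‖ + if al < 0 then ‖(v q).1‖ * ‖q.1‖ ^ al else 0) := by
  have hv1 : ∀ᶠ q in 𝓝 q₀, ‖v q₀‖ / 2 < ‖v q‖ := hv.continuousAt.norm.eventually (lt_mem_nhds (half_lt_self (norm_pos_iff.2 hv0)))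
  have hg1 : ∀ᶠ q in 𝓝 q₀, ‖g q‖ < ‖g q₀‖ + 1 := hg.continuousAt.norm.eventually (gt_mem_nhds (by linarith))
  have hx1 : ∀ᶠ q in 𝓝 q₀, ‖q.1‖ < 1 := by
    have h1 : ContinuousAt (fun q : ℂ × ℂ => ‖q.1‖) q₀ := by fun_prop
    refine h1.eventually (gt_mem_nhds ?_)
    show ‖q₀.1‖ < 1
    rw [h0, norm_zero]
    exact one_pos
  have hc : 0 < ‖v q₀‖ / 2 := by
    have := norm_pos_iff.2 hv0
    linarith
  by_cases hal0 : 0 ≤ al
  · refine ⟨(‖g q₀‖ + 1) / (‖v q₀‖ / 2), by positivity, ?_⟩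
    filter_upwards [hv1, hg1, hx1] with q a1 a2 a3 _
    rw [if_neg (not_lt.2 hal0), add_zero]
    have b1 : ‖q.1‖ ^ al ≤ 1 := Real.rpow_le_one (norm_nonneg _) a3.le hal0
    have b2 : ‖g q‖ * ‖q.1‖ ^ al ≤ (‖g q₀‖ + 1) * 1 := mul_le_mul a2.le b1 (Real.rpow_nonneg (norm_nonneg _) _) (by positivity)
    have b3 : (‖g q₀‖ + 1) * 1 = (‖g q₀‖ + 1) / (‖v q₀‖ / 2) * (‖v q₀‖ / 2) := by
      rw [div_mul_cancel₀ _ hc.ne', mul_one]
    rw [b3] at b2
    exact b2.trans (mul_le_mul_of_nonneg_left a1.le (by positivity))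
  · have hal1 : al < 0 := not_le.1 hal0
    rcases h with h | h | ⟨g₀, hg₀, h⟩
    · exact absurd h hal0
    · have hd : 0 < ‖(v q₀).1‖ / 2 := by
        have := norm_pos_iff.2 h
        linarith
      have hv2 : ∀ᶠ q in 𝓝 q₀, ‖(v q₀).1‖ / 2 < ‖(v q).1‖ := by
        have h2 : ContinuousAt (fun q => ‖(v q).1‖) q₀ := (continuous_fst.continuousAt.comp hv.continuousAt).norm
        exact h2.eventually (lt_mem_nhds (half_lt_self (norm_pos_iff.2 h)))
      refine ⟨(‖g q₀‖ + 1) / (‖(v q₀).1‖ / 2), by positivity, ?_⟩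
      filter_upwards [hv2, hg1] with q a1 a2 _
      rw [if_pos hal1]
      have b0 : 0 ≤ ‖q.1‖ ^ al := Real.rpow_nonneg (norm_nonneg _) _
      have b3 : ‖g q₀‖ + 1 = (‖g q₀‖ + 1) / (‖(v q₀).1‖ / 2) * (‖(v q₀).1‖ / 2) := by
        rw [div_mul_cancel₀ _ hd.ne']
      have b2 : ‖g q‖ ≤ (‖g q₀‖ + 1) / (‖(v q₀).1‖ / 2) * ‖(v q).1‖ := by
        rw [b3] at a2
        exact a2.le.trans (mul_le_mul_of_nonneg_left a1.le (by positivity))
      have b4 : ‖g q‖ * ‖q.1‖ ^ al ≤ (‖g q₀‖ + 1) / (‖(v q₀).1‖ / 2) * ‖(v q).1‖ * ‖q.1‖ ^ al := mul_le_mul_of_nonneg_right b2 b0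
      refine b4.trans ?_
      have b5 : 0 ≤ (‖g q₀‖ + 1) / (‖(v q₀).1‖ / 2) := by positivity
      have b6 := mul_nonneg b5 (norm_nonneg (v q))
      nlinarith
    · have hg2 : ∀ᶠ q in 𝓝 q₀, ‖g₀ q‖ < ‖g₀ q₀‖ + 1 := hg₀.continuousAt.norm.eventually (gt_mem_nhds (by linarith))
      refine ⟨(‖g₀ q₀‖ + 1) / (‖v q₀‖ / 2), by positivity, ?_⟩
      filter_upwards [hv1, hg2, hx1, h] with q a1 a2 a3 a4 a5
      have hx : 0 < ‖q.1‖ := norm_pos_iff.2 (a5 hal1)
      rw [if_pos hal1, a4, norm_mul]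
      have b1 : ‖q.1‖ * ‖q.1‖ ^ al = ‖q.1‖ ^ (1 + al) := by
        rw [Real.rpow_add hx, Real.rpow_one]
      have b2 : ‖q.1‖ ^ (1 + al) ≤ 1 := Real.rpow_le_one hx.le a3.le (by linarith)
      have b3 : ‖q.1‖ * ‖g₀ q‖ * ‖q.1‖ ^ al = ‖g₀ q‖ * ‖q.1‖ ^ (1 + al) := by
        rw [← b1]
        ring
      rw [b3]
      have b4 : ‖g₀ q‖ * ‖q.1‖ ^ (1 + al) ≤ (‖g₀ q₀‖ + 1) * 1 := mul_le_mul a2.le b2 (Real.rpow_nonneg hx.le _) (by positivity)
      have b5 : (‖g₀ q₀‖ + 1) * 1 = (‖g₀ q₀‖ + 1) / (‖v q₀‖ / 2) * (‖v q₀‖ / 2) := by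
        rw [div_mul_cancel₀ _ hc.ne', mul_one]
      rw [b5] at b4
      have b6 : (‖g₀ q₀‖ + 1) / (‖v q₀‖ / 2) * (‖v q₀‖ / 2) ≤ (‖g₀ q₀‖ + 1) / (‖v q₀‖ / 2) * ‖v q‖ := mul_le_mul_of_nonneg_left a1.le (by positivity)
      have b7 : 0 ≤ (‖g₀ q₀‖ + 1) / (‖v q₀‖ / 2) * (‖(v q).1‖ * ‖q.1‖ ^ al) := by
        have := Real.rpow_nonneg hx.le al
        positivity
      rw [mul_add]
      linarith

end Pool.Agent.MQL

end
end
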