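import Pool.Agent.H43.TL2.M11
import Pool.Agent.H43.TL2.M24
import Pool.Agent.H43.TL2.M32
import Pool.Agent.H43.TL2.M51

/-! The parts of this file: H13.SM.Bdd, H13.SM.Lift, H13.SM.Open, H13.SM.Dense, H13.SM.Aff, H62.BU.TanB, H62.BU.FormB, SY.DefB. -/

section

/-!
# The projection is proper with finite fibres

PROOF.  For every `i` let `p i` be the monic polynomial of `exists_monic hint (X i)`.  By `root_at` (with
`Z = X i`), for every point `w` of the variety `w i` is a root of `(p i).map (eval y)`, `y j = eval w (B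
j)`, a monic polynomial.

`finite_fiber`: for fixed `y` there are finitely many roots for each `i` (`Set.Finite.pi`,
`Polynomial.finite_setOf_isRoot` or `Multiset`/`rootSet`).

`bdd_near`: a root `t` of a monic polynomial `t^d + c_{d-1} t^{d-1} + ... + c_0` satisfies `‖t‖ ≤ 1 +
∑ ‖c_k‖` (if `‖t‖ > 1` divide `t^d = -∑ c_k t^k` by `t^{d-1}`; or `Polynomial.IsRoot.norm_lt_cauchyBound`),
and the `c_k` are continuous functions of `y`, so they are bounded near `y₀`; take the maximum over `i`.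
-/

open MvPolynomial Topology

noncomputable section

namespace Pool.Agent.H13.SM

variable {ι K : Type} [Field K] [Algebra ℂ K]

private theorem Bdd_root {q : Polynomial ℂ} (hq : q.Monic) {t : ℂ} (ht : q.eval t = 0) :
    ‖t‖ ≤ ∑ k ∈ Finset.range q.natDegree, ‖q.coeff k‖ + 1 := by
  have h1 := Polynomial.IsRoot.norm_lt_cauchyBound hq.ne_zero ht
  have h2 : Polynomial.cauchyBound q ≤ ∑ k ∈ Finset.range q.natDegree, ‖q.coeff k‖₊ + 1 := by
    unfold Polynomial.cauchyBound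
    rw [hq.leadingCoeff, nnnorm_one, div_one]
    gcongr
    exact Finset.sup_le fun k hk => Finset.single_le_sum (f := fun k => ‖q.coeff k‖₊) (fun _ _ => zero_le) hk
  have h3 : ‖t‖₊ ≤ ∑ k ∈ Finset.range q.natDegree, ‖q.coeff k‖₊ + 1 := h1.le.trans h2
  have h4 : (‖t‖₊ : ℝ) ≤ ((∑ k ∈ Finset.range q.natDegree, ‖q.coeff k‖₊ + 1 : NNReal) : ℝ) := by
    exact_mod_cast h3
  rw [NNReal.coe_add, NNReal.coe_sum, NNReal.coe_one] at h4
  exact h4

theorem finite_fiber [Finite ι] {a : ι → K} {n : ℕ} {b : Fin n → K}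
    {B : Fin n → MvPolynomial ι ℂ} (hB : ∀ j, aeval a (B j) = b j)
    (hint : ∀ i, IsIntegral (Algebra.adjoin ℂ (Set.range b)) (a i)) (y₀ : Fin n → ℂ) :
    {w | w ∈ pts a ∧ ∀ j, eval w (B j) = y₀ j}.Finite := by
  choose p hpm hp using fun i => exists_monic hint (X i : MvPolynomial ι ℂ)
  have hfin : {w : ι → ℂ | ∀ i, w i ∈ {t : ℂ | ((p i).map (eval y₀)).IsRoot t}}.Finite :=
    Set.Finite.pi' fun i => Polynomial.finite_setOfPred_isRoot ((hpm i).map _).ne_zero
  refine hfin.subset ?_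
  rintro w ⟨hw, hwy⟩ i
  have h1 := root_at hB (hp i) hw
  rw [eval_X] at h1
  have h2 : (fun j => eval w (B j)) = y₀ := funext hwy
  rw [h2] at h1
  exact h1

theorem bdd_near [Finite ι] {a : ι → K} {n : ℕ} {b : Fin n → K}
    {B : Fin n → MvPolynomial ι ℂ} (hB : ∀ j, aeval a (B j) = b j)
    (hint : ∀ i, IsIntegral (Algebra.adjoin ℂ (Set.range b)) (a i)) (y₀ : Fin n → ℂ) :
    ∃ C : ℝ, ∀ᶠ y in 𝓝 y₀, ∀ w ∈ pts a, (∀ j, eval w (B j) = y j) → ∀ i, ‖w i‖ ≤ C := by
  choose p hpm hp using fun i => exists_monic hint (X i : MvPolynomial ι ℂ)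
  cases nonempty_fintype ι
  have hcont : ∀ i, Continuous fun y : Fin n → ℂ =>
      ∑ k ∈ Finset.range (p i).natDegree, ‖eval y ((p i).coeff k)‖ + 1 := by
    intro i
    exact (continuous_finsetSum _ fun k _ => (MvPolynomial.continuous_eval _).norm).add continuous_const
  have hS : ∀ i, 0 ≤ ∑ k ∈ Finset.range (p i).natDegree, ‖eval y₀ ((p i).coeff k)‖ + 1 := by
    intro i
    positivity
  refine ⟨∑ i, (∑ k ∈ Finset.range (p i).natDegree, ‖eval y₀ ((p i).coeff k)‖ + 1 + 1), ?_⟩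
  have hev : ∀ᶠ y in 𝓝 y₀, ∀ i, ∑ k ∈ Finset.range (p i).natDegree, ‖eval y ((p i).coeff k)‖ + 1 <
      ∑ k ∈ Finset.range (p i).natDegree, ‖eval y₀ ((p i).coeff k)‖ + 1 + 1 := by
    rw [Filter.eventually_all]
    intro i
    exact (hcont i).continuousAt.eventually_lt continuousAt_const (by simp)
  filter_upwards [hev] with y hy w hw hwy i
  have h1 := root_at hB (hp i) hw
  rw [eval_X] at h1
  have h2 : (fun j => eval w (B j)) = y := funext hwy
  rw [h2] at h1
  have h3 := Bdd_root ((hpm i).map (eval y)) h1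
  rw [(hpm i).natDegree_map] at h3
  simp only [Polynomial.coeff_map] at h3
  refine (h3.trans (hy i).le).trans ?_
  exact Finset.single_le_sum (f := fun i => ∑ k ∈ Finset.range (p i).natDegree, ‖eval y₀ ((p i).coeff k)‖ + 1 + 1)
    (fun i _ => by have := hS i; positivity) (Finset.mem_univ i)

end Pool.Agent.H13.SM

end
end

section

/-!
# Lying over

PROOF of `exists_lift`.  Let `R = MvPolynomial (Fin n) ℂ`, which maps to
`A = Algebra.adjoin ℂ (Set.range a)` by `X j ↦ b j`; this map is injective and integral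
(`exists_monic`).  `ζ = aeval a Z` is an element of `A`, `μ = minpoly R ζ`: it is monic and, `R` being
integrally closed, it divides each polynomial with root `ζ`, so `AdjoinRoot μ → A` is injective.

Let `y', T'` satisfy `(μ.map (eval y')).eval T' = 0`.  `AdjoinRoot.lift` gives a ring hom
`χ : AdjoinRoot μ →+* ℂ` with `χ (X j) = y' j`, `χ root = T'` and which is the identity on `ℂ`.  It is
surjective, so its kernel `M` is a maximal ideal.  By `Ideal.exists_ideal_over_maximal_of_isIntegral`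
there is a maximal ideal `Q` of `A` over `M`.  `A ⧸ Q` is a field and a `ℂ`-algebra of finite type, so
it is finite over `ℂ` and `algebraMap ℂ (A ⧸ Q)` is bijective.  This gives `φ : A →ₐ[ℂ] ℂ` with kernel
`Q`, and `φ s = χ s` for `s` in `AdjoinRoot μ`.  The point of `φ` (`exists_pt_of_algHom`) has
`eval w (B j) = φ (b j) = y' j` and `eval w Z = φ ζ = T'`.
-/

open MvPolynomial

noncomputable section

namespace Pool.Agent.H13.SM

variable {ι K : Type} [Field K] [Algebra ℂ K]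

/-- A maximal ideal of a `ℂ`-algebra of finite type is the kernel of an algebra hom to `ℂ`. -/
private theorem Lift_exists_algHom {A : Type} [CommRing A] [Algebra ℂ A] [Algebra.FiniteType ℂ A]
    (Q : Ideal A) [hQ : Q.IsMaximal] : ∃ φ : A →ₐ[ℂ] ℂ, ∀ x, φ x = 0 ↔ x ∈ Q := by
  let : Field (A ⧸ Q) := Ideal.Quotient.field Q
  have : Module.Finite ℂ (A ⧸ Q) := finite_of_finite_type_of_isJacobsonRing ℂ (A ⧸ Q)
  have : Algebra.IsIntegral ℂ (A ⧸ Q) := Algebra.IsIntegral.of_finite ℂ (A ⧸ Q)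
  have hbij : Function.Bijective (algebraMap ℂ (A ⧸ Q)) :=
    IsAlgClosed.algebraMap_bijective_of_isIntegral
  let e : ℂ ≃ₐ[ℂ] (A ⧸ Q) := AlgEquiv.ofBijective (Algebra.ofId ℂ (A ⧸ Q)) hbij
  refine ⟨(e.symm : (A ⧸ Q) →ₐ[ℂ] ℂ).comp (Ideal.Quotient.mkₐ ℂ Q), fun x => ?_⟩
  have h1 : ((e.symm : (A ⧸ Q) →ₐ[ℂ] ℂ).comp (Ideal.Quotient.mkₐ ℂ Q)) x
      = e.symm (Ideal.Quotient.mk Q x) := rfl
  rw [h1, map_eq_zero_iff _ e.symm.injective, Ideal.Quotient.eq_zero_iff_mem]

/-- There is a monic polynomial `μ` for `Z` such that each root of a specialisation of `μ` is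
attained at a point of the variety. -/
theorem exists_lift [Finite ι] {a : ι → K} {n : ℕ} {b : Fin n → K} (hb : AlgebraicIndependent ℂ b)
    {B : Fin n → MvPolynomial ι ℂ} (hB : ∀ j, aeval a (B j) = b j)
    (hint : ∀ i, IsIntegral (Algebra.adjoin ℂ (Set.range b)) (a i)) (Z : MvPolynomial ι ℂ) :
    ∃ μ : Polynomial (MvPolynomial (Fin n) ℂ), μ.Monic ∧
      (μ.map (aeval b : MvPolynomial (Fin n) ℂ →ₐ[ℂ] K).toRingHom).eval (aeval a Z) = 0 ∧
      ∀ (y' : Fin n → ℂ) (T' : ℂ), (μ.map (eval y')).eval T' = 0 →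
        ∃ w ∈ pts a, (∀ j, eval w (B j) = y' j) ∧ eval w Z = T' := by
  classical
  have hbA : ∀ j, b j ∈ Algebra.adjoin ℂ (Set.range a) := fun j => by
    rw [← hB j]; exact aeval_mem_adjoin a (B j)
  -- the ring hom from R to A
  let ρ : MvPolynomial (Fin n) ℂ →ₐ[ℂ] Algebra.adjoin ℂ (Set.range a) :=
    aeval (fun j => (⟨b j, hbA j⟩ : Algebra.adjoin ℂ (Set.range a)))
  have hρ : (Algebra.adjoin ℂ (Set.range a)).val.comp ρ = aeval b := by
    apply MvPolynomial.algHom_ext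
    intro j
    simp [ρ]
  have hρ' : ∀ q, ((ρ q : Algebra.adjoin ℂ (Set.range a)) : K) = aeval b q := fun q => by
    rw [← hρ]; rfl
  have hinj : Function.Injective ρ := by
    intro q q' h
    apply hb
    rw [← hρ' q, ← hρ' q', h]
  let alg : Algebra (MvPolynomial (Fin n) ℂ) (Algebra.adjoin ℂ (Set.range a)) :=
    ρ.toRingHom.toAlgebra
  have halg : ∀ q, algebraMap (MvPolynomial (Fin n) ℂ) (Algebra.adjoin ℂ (Set.range a)) q = ρ q :=
    fun q => rfl
  have : FaithfulSMul (MvPolynomial (Fin n) ℂ) (Algebra.adjoin ℂ (Set.range a)) :=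
    (faithfulSMul_iff_algebraMap_injective _ _).2 hinj
  -- integrality
  have hI : ∀ x : Algebra.adjoin ℂ (Set.range a), IsIntegral (MvPolynomial (Fin n) ℂ) x := by
    intro x
    obtain ⟨x, hx⟩ := x
    obtain ⟨Q, hQ⟩ : ∃ Q : MvPolynomial ι ℂ, aeval a Q = x := by
      rw [Algebra.adjoin_range_eq_range_aeval] at hx
      exact hx
    obtain ⟨p, hp, hp0⟩ := exists_monic hint Q
    refine ⟨p, hp, ?_⟩
    apply Subtype.coe_injective
    have h1 := Polynomial.hom_eval₂ p (algebraMap (MvPolynomial (Fin n) ℂ)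
      (Algebra.adjoin ℂ (Set.range a))) (Algebra.adjoin ℂ (Set.range a)).val.toRingHom ⟨x, hx⟩
    have h2 : (Algebra.adjoin ℂ (Set.range a)).val.toRingHom.comp
        (algebraMap (MvPolynomial (Fin n) ℂ) (Algebra.adjoin ℂ (Set.range a)))
        = (aeval b : MvPolynomial (Fin n) ℂ →ₐ[ℂ] K).toRingHom := by
      ext q
      · exact hρ' _
      · exact hρ' _
    rw [h2] at h1
    rw [Polynomial.eval_map, hQ] at hp0
    exact h1.trans hp0
  have : Algebra.IsIntegral (MvPolynomial (Fin n) ℂ) (Algebra.adjoin ℂ (Set.range a)) := ⟨hI⟩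
  let ζ : Algebra.adjoin ℂ (Set.range a) := ⟨aeval a Z, aeval_mem_adjoin a Z⟩
  let μ : Polynomial (MvPolynomial (Fin n) ℂ) := minpoly (MvPolynomial (Fin n) ℂ) ζ
  have hμ : μ.Monic := minpoly.monic (hI ζ)
  have hμ0 : μ.eval₂ (algebraMap (MvPolynomial (Fin n) ℂ) (Algebra.adjoin ℂ (Set.range a))) ζ = 0 :=
    minpoly.aeval (MvPolynomial (Fin n) ℂ) ζ
  refine ⟨μ, hμ, ?_, ?_⟩
  · have h1 := Polynomial.hom_eval₂ μ (algebraMap (MvPolynomial (Fin n) ℂ)
      (Algebra.adjoin ℂ (Set.range a))) (Algebra.adjoin ℂ (Set.range a)).val.toRingHom ζ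
    have h2 : (Algebra.adjoin ℂ (Set.range a)).val.toRingHom.comp
        (algebraMap (MvPolynomial (Fin n) ℂ) (Algebra.adjoin ℂ (Set.range a)))
        = (aeval b : MvPolynomial (Fin n) ℂ →ₐ[ℂ] K).toRingHom := by
      ext q
      · exact hρ' _
      · exact hρ' _
    rw [h2, hμ0, map_zero] at h1
    rw [Polynomial.eval_map]
    exact h1.symm
  · intro y' T' hT
    rw [Polynomial.eval_map] at hT
    let χ : AdjoinRoot μ →+* ℂ := AdjoinRoot.lift (eval y') T' hT
    let θ : AdjoinRoot μ →+* Algebra.adjoin ℂ (Set.range a) :=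
      AdjoinRoot.lift (algebraMap (MvPolynomial (Fin n) ℂ) (Algebra.adjoin ℂ (Set.range a))) ζ hμ0
    have hχof : ∀ q, χ (AdjoinRoot.of μ q) = eval y' q := fun q => AdjoinRoot.lift_of hT
    have hχroot : χ (AdjoinRoot.root μ) = T' := AdjoinRoot.lift_root hT
    have hθof : ∀ q, θ (AdjoinRoot.of μ q) = ρ q := fun q => AdjoinRoot.lift_of hμ0
    have hθroot : θ (AdjoinRoot.root μ) = ζ := AdjoinRoot.lift_root hμ0
    have hsurj : Function.Surjective χ := by
      intro c
      refine ⟨AdjoinRoot.of μ (C c), ?_⟩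
      rw [hχof, eval_C]
    have hM : (RingHom.ker χ).IsMaximal := RingHom.ker_isMaximal_of_surjective χ hsurj
    let algθ : Algebra (AdjoinRoot μ) (Algebra.adjoin ℂ (Set.range a)) := θ.toAlgebra
    have : IsScalarTower (MvPolynomial (Fin n) ℂ) (AdjoinRoot μ)
        (Algebra.adjoin ℂ (Set.range a)) := by
      apply IsScalarTower.of_algebraMap_eq
      intro q
      exact (hθof q).symm
    have : Algebra.IsIntegral (AdjoinRoot μ) (Algebra.adjoin ℂ (Set.range a)) :=
      Algebra.IsIntegral.tower_top (MvPolynomial (Fin n) ℂ)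
    have hker : RingHom.ker (algebraMap (AdjoinRoot μ) (Algebra.adjoin ℂ (Set.range a)))
        ≤ RingHom.ker χ := by
      intro s hs
      obtain ⟨p, rfl⟩ := AdjoinRoot.mk_surjective s
      have h1 : Polynomial.aeval ζ p = 0 := by
        have h2 : θ (AdjoinRoot.mk μ p) = 0 := hs
        rwa [AdjoinRoot.lift_mk] at h2
      have h3 : μ ∣ p := minpoly.isIntegrallyClosed_dvd (hI ζ) h1
      have h4 : AdjoinRoot.mk μ p = 0 := AdjoinRoot.mk_eq_zero.2 h3
      rw [h4]
      exact Ideal.zero_mem _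
    obtain ⟨Q, hQ, hQM⟩ := Ideal.exists_ideal_over_maximal_of_isIntegral
      (S := Algebra.adjoin ℂ (Set.range a)) (RingHom.ker χ) hker
    have := hQ
    have : Algebra.FiniteType ℂ (Algebra.adjoin ℂ (Set.range a)) :=
      (Subalgebra.fg_iff_finiteType _).1 (Subalgebra.fg_def.2 ⟨_, Set.finite_range a, rfl⟩)
    obtain ⟨φ, hφ⟩ := Lift_exists_algHom (A := Algebra.adjoin ℂ (Set.range a)) Q
    have hφθ : ∀ s : AdjoinRoot μ, φ (θ s) = χ s := by
      intro s
      have h1 : s - AdjoinRoot.of μ (C (χ s)) ∈ RingHom.ker χ := by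
        rw [RingHom.mem_ker, map_sub, hχof, eval_C, sub_self]
      rw [← hQM, Ideal.mem_comap] at h1
      have h2 := (hφ _).2 h1
      have h3 : algebraMap (AdjoinRoot μ) (Algebra.adjoin ℂ (Set.range a))
          (s - AdjoinRoot.of μ (C (χ s))) = θ s - algebraMap ℂ _ (χ s) := by
        show θ _ = _
        rw [map_sub, hθof]
        congr 1
        show ρ (C (χ s)) = _
        rw [← MvPolynomial.algebraMap_eq, AlgHom.commutes]
      rw [h3, map_sub, AlgHom.commutes, sub_eq_zero] at h2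
      exact h2
    obtain ⟨w, hw, hwφ⟩ := exists_pt_of_algHom a φ
    refine ⟨w, hw, fun j => ?_, ?_⟩
    · rw [hwφ]
      have h1 : (⟨aeval a (B j), aeval_mem_adjoin a (B j)⟩ : Algebra.adjoin ℂ (Set.range a))
          = θ (AdjoinRoot.of μ (X j)) := by
        rw [hθof]
        apply Subtype.coe_injective
        show aeval a (B j) = ((ρ (X j) : Algebra.adjoin ℂ (Set.range a)) : K)
        rw [hρ', aeval_X]
        exact hB j
      rw [h1, hφθ, hχof, eval_X]
    · rw [hwφ]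
      have h1 : (⟨aeval a Z, aeval_mem_adjoin a Z⟩ : Algebra.adjoin ℂ (Set.range a))
          = θ (AdjoinRoot.root μ) := hθroot.symm
      rw [h1, hφθ, hχroot]

end Pool.Agent.H13.SM

end
end

section

/-!
# The projection is open

PROOF of `exists_small_root`.  All roots with `ε ≤ ‖t‖` would give `ε ^ d ≤ ∏ ‖t‖ = ‖p.coeff 0‖`
(`Polynomial.coeff_zero_eq_prod_roots_of_monic_of_splits` or similar, `d = p.natDegree`).

PROOF of `exists_separating`.  For every point `w'` of the finite set `F` with `w' ≠ w` choose `i` with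
`w' i ≠ w i` and let `u w' = C (w i - w' i)⁻¹ * (X i - C (w' i))`: it is `1` at `w` and `0` at `w'`.
`Z = 1 - ∏_{w' ∈ F, w' ≠ w} u w'`.

PROOF of `open_at`.  Let `y₀ j = eval w (B j)`.  Let `Z` be separating for the fibre over `y₀`
(`finite_fiber`) and let `μ` be as in `exists_lift` for `Z`.  `U` contains an open `U₀ ∋ w`.  Let `C` be
as in `bdd_near`.  The set `L = {w' ∈ pts a | w' ∉ U₀, ∀ i, ‖w' i‖ ≤ C}` is compact
(`isClosed_pts`, bounded), and the continuous function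
`w' ↦ ∑ j, ‖eval w' (B j) - y₀ j‖ + ‖eval w' Z‖` is positive on it (a zero would be a point of the
fibre with `Z = 0`, so it would be `w ∈ U₀`), so it is `≥ δ > 0` on `L` (if `L` is empty take `δ = 1`).
`(μ.map (eval y₀)).eval 0 = 0` by `root_at` (`eval w Z = 0`), so the coefficient
`eval y (μ.coeff 0)` tends to `0` as `y → y₀` and `1 ≤ μ.natDegree` (`μ` is monic and a specialisation
has a root).  So for `y` near `y₀`: `∑ j, ‖y j - y₀ j‖ < δ / 2`, the bound of `bdd_near` holds and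
`‖eval y (μ.coeff 0)‖ < (δ / 2) ^ μ.natDegree`.  By `exists_small_root` there is a root `T` of
`μ.map (eval y)` (monic of the same degree) with `‖T‖ < δ / 2`, and by `exists_lift` a point
`w' ∈ pts a` with `eval w' (B j) = y j`, `eval w' Z = T`.  It is not in `L`, so it is in `U₀`.
-/

open MvPolynomial Topology

noncomputable section

namespace Pool.Agent.H13.SM

variable {ι K : Type} [Field K] [Algebra ℂ K]

private theorem pow_le_prod_norm {ε : ℝ} (hε : 0 < ε) (s : Multiset ℂ) :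
    (∀ t ∈ s, ε ≤ ‖t‖) → ε ^ s.card ≤ ‖s.prod‖ := by
  induction s using Multiset.induction_on with
  | empty => intro _; simp
  | cons a s ih =>
    intro h
    rw [Multiset.card_cons, Multiset.prod_cons, norm_mul, pow_succ']
    exact mul_le_mul (h a (Multiset.mem_cons_self a s))
      (ih fun t ht => h t (Multiset.mem_cons_of_mem ht)) (by positivity) (norm_nonneg _)

theorem exists_small_root {p : Polynomial ℂ} (hp : p.Monic) (hd : 1 ≤ p.natDegree) {ε : ℝ}
    (hε : 0 < ε) (h : ‖p.coeff 0‖ < ε ^ p.natDegree) : ∃ t : ℂ, p.eval t = 0 ∧ ‖t‖ < ε := by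
  have _ := hd
  by_contra hcon
  push Not at hcon
  have hs : p.Splits := IsAlgClosed.splits p
  have h1 : p.coeff 0 = (-1) ^ p.natDegree * p.roots.prod :=
    hs.coeff_zero_eq_prod_roots_of_monic hp
  have h2 : ε ^ p.roots.card ≤ ‖p.roots.prod‖ :=
    pow_le_prod_norm hε _ fun t ht => hcon t (Polynomial.isRoot_of_mem_roots ht)
  rw [← hs.natDegree_eq_card_roots] at h2
  rw [h1, norm_mul, norm_pow, norm_neg, norm_one, one_pow, one_mul] at h
  exact absurd h2 (not_le.2 h)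

theorem exists_separating {F : Set (ι → ℂ)} (hF : F.Finite) (w : ι → ℂ) :
    ∃ Z : MvPolynomial ι ℂ, eval w Z = 0 ∧ ∀ w' ∈ F, w' ≠ w → eval w' Z ≠ 0 := by
  classical
  have h1 : ∀ w' : ι → ℂ, w' ≠ w → ∃ Y : MvPolynomial ι ℂ, eval w Y = 1 ∧ eval w' Y = 0 := by
    intro w' hne
    obtain ⟨i, hi⟩ := Function.ne_iff.1 hne
    refine ⟨C (w i - w' i)⁻¹ * (X i - C (w' i)), ?_, ?_⟩
    · have h3 : w i - w' i ≠ 0 := sub_ne_zero.2 (Ne.symm hi)
      simp [h3]
    · simp
  choose! u hu1 hu0 using h1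
  refine ⟨1 - ∏ w' ∈ hF.toFinset.filter (fun w' => w' ≠ w), u w', ?_, ?_⟩
  · rw [map_sub, map_one, map_prod, Finset.prod_eq_one, sub_self]
    intro w' hw'
    exact hu1 w' (Finset.mem_filter.1 hw').2
  · intro w' hw' hne
    rw [map_sub, map_one, map_prod,
      Finset.prod_eq_zero (Finset.mem_filter.2 ⟨hF.mem_toFinset.2 hw', hne⟩) (hu0 w' hne), sub_zero]
    exact one_ne_zero

/-- The finite projection `w ↦ (B j)(w)` is open. -/
theorem open_at [Finite ι] {a : ι → K} {n : ℕ} {b : Fin n → K} (hb : AlgebraicIndependent ℂ b)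
    {B : Fin n → MvPolynomial ι ℂ} (hB : ∀ j, aeval a (B j) = b j)
    (hint : ∀ i, IsIntegral (Algebra.adjoin ℂ (Set.range b)) (a i)) {w : ι → ℂ} (hw : w ∈ pts a)
    {U : Set (ι → ℂ)} (hU : U ∈ 𝓝 w) :
    (fun w' j => eval w' (B j)) '' (pts a ∩ U) ∈ 𝓝 (fun j => eval w (B j)) := by
  have hF := finite_fiber hB hint (fun j => eval w (B j))
  obtain ⟨Z, hZw, hZ⟩ := exists_separating hF w
  obtain ⟨μ, hμm, hμr, hμl⟩ := exists_lift hb hB hint Z
  obtain ⟨U₀, hU₀U, hU₀o, hwU₀⟩ := mem_nhds_iff.1 hU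
  obtain ⟨C, hC⟩ := bdd_near hB hint (fun j => eval w (B j))
  have hroot := root_at hB hμr hw
  rw [hZw] at hroot
  have hdeg : 1 ≤ μ.natDegree := by
    by_contra hlt
    have h0 : μ = 1 := by
      rw [Nat.not_le, Nat.lt_one_iff] at hlt
      exact Polynomial.eq_one_of_monic_natDegree_zero hμm hlt
    rw [h0, Polynomial.map_one, Polynomial.eval_one] at hroot
    exact one_ne_zero hroot
  -- the compact set of the points outside `U₀`
  have hLc : IsCompact ({w' : ι → ℂ | w' ∈ pts a ∧ w' ∉ U₀ ∧ ∀ i, ‖w' i‖ ≤ C}) := by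
    have hK : IsCompact (Set.pi Set.univ fun _ : ι => Metric.closedBall (0 : ℂ) C) :=
      isCompact_univ_pi fun _ => isCompact_closedBall _ _
    refine hK.of_isClosed_subset ?_ ?_
    · have e1 : {w' : ι → ℂ | w' ∈ pts a ∧ w' ∉ U₀ ∧ ∀ i, ‖w' i‖ ≤ C} =
          pts a ∩ (U₀ᶜ ∩ ⋂ i, {w' : ι → ℂ | ‖w' i‖ ≤ C}) := by
        ext w'
        simp only [Set.mem_ofPred_eq, Set.mem_inter_iff, Set.mem_compl_iff, Set.mem_iInter]
      rw [e1]
      refine (isClosed_pts a).inter (hU₀o.isClosed_compl.inter (isClosed_iInter fun i => ?_))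
      exact isClosed_le ((continuous_apply i).norm) continuous_const
    · intro w' hw' i _
      rw [mem_closedBall_zero_iff]
      exact hw'.2.2 i
  have hgc : Continuous fun w' : ι → ℂ =>
      (∑ j, ‖eval w' (B j) - eval w (B j)‖) + ‖eval w' Z‖ :=
    (continuous_finsetSum _ fun j _ =>
      ((MvPolynomial.continuous_eval (B j)).sub continuous_const).norm).add
      (MvPolynomial.continuous_eval Z).norm
  have hδ : ∃ δ : ℝ, 0 < δ ∧ ∀ w' ∈ {w' : ι → ℂ | w' ∈ pts a ∧ w' ∉ U₀ ∧ ∀ i, ‖w' i‖ ≤ C},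
      δ ≤ (∑ j, ‖eval w' (B j) - eval w (B j)‖) + ‖eval w' Z‖ := by
    rcases Set.eq_empty_or_nonempty
      {w' : ι → ℂ | w' ∈ pts a ∧ w' ∉ U₀ ∧ ∀ i, ‖w' i‖ ≤ C} with he | hne
    · refine ⟨1, one_pos, fun w' hw' => ?_⟩
      rw [he] at hw'
      exact absurd hw' (Set.notMem_empty _)
    · obtain ⟨w₁, hw₁, hmin⟩ := hLc.exists_isMinOn hne hgc.continuousOn
      refine ⟨_, ?_, fun w' hw' => hmin hw'⟩
      by_contra hle
      have hs0 : 0 ≤ ∑ j, ‖eval w₁ (B j) - eval w (B j)‖ :=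
        Finset.sum_nonneg fun _ _ => norm_nonneg _
      have hz0 : 0 ≤ ‖eval w₁ Z‖ := norm_nonneg _
      have hs : ∑ j, ‖eval w₁ (B j) - eval w (B j)‖ = 0 := by linarith [not_lt.1 hle]
      have hz : ‖eval w₁ Z‖ = 0 := by linarith [not_lt.1 hle]
      rw [Finset.sum_eq_zero_iff_of_nonneg fun _ _ => norm_nonneg _] at hs
      have hfib : ∀ j, eval w₁ (B j) = eval w (B j) := fun j =>
        sub_eq_zero.1 (norm_eq_zero.1 (hs j (Finset.mem_univ j)))
      have hww : w₁ = w := by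
        by_contra hne1
        exact hZ w₁ ⟨hw₁.1, hfib⟩ hne1 (norm_eq_zero.1 hz)
      exact hw₁.2.1 (hww ▸ hwU₀)
  obtain ⟨δ, hδ0, hδL⟩ := hδ
  have hev2 : ∀ᶠ y : Fin n → ℂ in 𝓝 (fun j => eval w (B j)),
      ∑ j, ‖y j - eval w (B j)‖ < δ / 2 := by
    have hc : Continuous fun y : Fin n → ℂ => ∑ j, ‖y j - eval w (B j)‖ :=
      continuous_finsetSum _ fun j _ => ((continuous_apply j).sub continuous_const).norm
    have h0 : ∑ j, ‖(fun j => eval w (B j)) j - eval w (B j)‖ < δ / 2 := by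
      have : ∑ j, ‖(fun j => eval w (B j)) j - eval w (B j)‖ = 0 :=
        Finset.sum_eq_zero fun j _ => by rw [sub_self, norm_zero]
      rw [this]
      linarith
    exact hc.continuousAt.eventually (gt_mem_nhds h0)
  have hev3 : ∀ᶠ y : Fin n → ℂ in 𝓝 (fun j => eval w (B j)),
      ‖eval y (μ.coeff 0)‖ < (δ / 2) ^ μ.natDegree := by
    have hc : Continuous fun y : Fin n → ℂ => ‖eval y (μ.coeff 0)‖ :=
      (MvPolynomial.continuous_eval (μ.coeff 0)).norm
    have h0 : ‖eval (fun j => eval w (B j)) (μ.coeff 0)‖ < (δ / 2) ^ μ.natDegree := by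
      have h1 : eval (fun j => eval w (B j)) (μ.coeff 0) = 0 := by
        rw [← Polynomial.coeff_map, Polynomial.coeff_zero_eq_eval_zero]
        exact hroot
      rw [h1, norm_zero]
      positivity
    exact hc.continuousAt.eventually (gt_mem_nhds h0)
  filter_upwards [hC, hev2, hev3] with y hy1 hy2 hy3
  have hnd : (μ.map (eval y)).natDegree = μ.natDegree := hμm.natDegree_map _
  obtain ⟨T, hT0, hTs⟩ := exists_small_root (hμm.map (eval y)) (by rw [hnd]; exact hdeg)
    (half_pos hδ0) (by rw [hnd, Polynomial.coeff_map]; exact hy3)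
  obtain ⟨w', hw'a, hw'B, hw'Z⟩ := hμl y T hT0
  have hin : w' ∈ U₀ := by
    by_contra hout
    have h1 := hδL w' ⟨hw'a, hout, hy1 w' hw'a hw'B⟩
    have h2 : ∑ j, ‖eval w' (B j) - eval w (B j)‖ = ∑ j, ‖y j - eval w (B j)‖ :=
      Finset.sum_congr rfl fun j _ => by rw [hw'B j]
    rw [h2, hw'Z] at h1
    linarith
  exact ⟨w', ⟨hw'a, hU₀U hin⟩, _root_.funext fun j => hw'B j⟩

end Pool.Agent.H13.SM

end
end

section

/-!
# A function which is not zero does not vanish near a point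

PROOF of `not_eventually_zero`.  Take `b, B` as in `exists_noether`.  Let `ζ = aeval a Q ≠ 0`, integral
over `R' = Algebra.adjoin ℂ (Set.range b) ≃ MvPolynomial (Fin n) ℂ`, hence algebraic, so there is
`q : Polynomial R'` with `q.coeff 0 ≠ 0` and `aeval ζ q = 0`
(`IsAlgebraic.exists_nonzero_coeff_and_aeval_eq_zero`); transport it to
`q : Polynomial (MvPolynomial (Fin n) ℂ)` with `q.coeff 0 ≠ 0` and `(q.map (aeval b)).eval ζ = 0`.
(Or take `μ` of `exists_monic`, `μ = X ^ k * q` with `q.coeff 0 ≠ 0`; `ζ ^ k * q(ζ) = 0`.)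
If `Q = 0` on the points of the variety in the neighbourhood `U` of `w` then by `root_at`
`eval y (q.coeff 0) = 0` for all `y` in the image of `pts a ∩ U`, a neighbourhood of `y₀` by `open_at`.
A polynomial which vanishes in a neighbourhood of a point is zero (identity theorem
`AnalyticOnNhd.eq_of_eventuallyEq` and `MvPolynomial.funext`), contradiction.
-/

open MvPolynomial Topology

noncomputable section

namespace Pool.Agent.H13.SM

variable {ι K : Type} [Field K] [Algebra ℂ K]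

theorem eq_zero_of_eventually {n : ℕ} {p : MvPolynomial (Fin n) ℂ} {y₀ : Fin n → ℂ}
    (h : ∀ᶠ y in 𝓝 y₀, eval y p = 0) : p = 0 := by
  have h1 : (fun y : Fin n → ℂ => eval y p) = fun y => eval y (0 : MvPolynomial (Fin n) ℂ) := by
    refine AnalyticOnNhd.eq_of_eventuallyEq (AnalyticOnNhd.eval_mvPolynomial p)
      (AnalyticOnNhd.eval_mvPolynomial 0) (z₀ := y₀) ?_
    filter_upwards [h] with y hy
    rw [hy, map_zero]
  exact MvPolynomial.funext fun x => congrFun h1 x

theorem not_eventually_zero [Finite ι] {a : ι → K}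
    (ha : IntermediateField.adjoin ℂ (Set.range a) = ⊤) {n : ℕ} {z : Fin n → K}
    (hz : IsTranscendenceBasis ℂ z) {w : ι → ℂ} (hw : w ∈ pts a) {Q : MvPolynomial ι ℂ}
    (hQ : aeval a Q ≠ 0) : ¬ ∀ᶠ y in 𝓝 w, y ∈ pts a → eval y Q = 0 := by
  intro h
  obtain ⟨b, B, hb, hB, hint⟩ := exists_noether ha hz
  obtain ⟨p, hp, hp0⟩ := exists_monic hint Q
  have hpne : p ≠ 0 := hp.ne_zero
  obtain ⟨q, hq⟩ : (Polynomial.X : Polynomial (MvPolynomial (Fin n) ℂ)) ^ p.natTrailingDegree ∣ p := by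
    rw [Polynomial.X_pow_dvd_iff]
    intro d hd
    exact Polynomial.coeff_eq_zero_of_lt_natTrailingDegree hd
  have hq0 : q.coeff 0 ≠ 0 := by
    have h1 : p.coeff p.natTrailingDegree ≠ 0 :=
      Polynomial.coeff_natTrailingDegree_ne_zero.mpr hpne
    intro h2
    apply h1
    have h3 : p.coeff (0 + p.natTrailingDegree) =
        (Polynomial.X ^ p.natTrailingDegree * q).coeff (0 + p.natTrailingDegree) := by
      rw [← hq]
    rw [Polynomial.coeff_X_pow_mul, h2, zero_add] at h3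
    exact h3
  have hqroot : (q.map (aeval b : MvPolynomial (Fin n) ℂ →ₐ[ℂ] K).toRingHom).eval (aeval a Q) = 0 := by
    rw [hq, Polynomial.map_mul, Polynomial.map_pow, Polynomial.map_X, Polynomial.eval_mul,
      Polynomial.eval_pow, Polynomial.eval_X] at hp0
    exact (mul_eq_zero.mp hp0).resolve_left (pow_ne_zero _ hQ)
  apply hq0
  apply eq_zero_of_eventually (y₀ := fun j => eval w (B j))
  have hU : {y : ι → ℂ | y ∈ pts a → eval y Q = 0} ∈ 𝓝 w := h
  filter_upwards [open_at hb hB hint hw hU] with y hy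
  obtain ⟨w', ⟨hw', hU'⟩, rfl⟩ := hy
  have h1 := root_at hB hqroot hw'
  rw [hU' hw', ← Polynomial.coeff_zero_eq_eval_zero, Polynomial.coeff_map] at h1
  exact h1

end Pool.Agent.H13.SM

end
end

section

/-!
# A chart at a smooth point of an affine variety

PROOF.  Let `I, σ` be as in `exists_implicit` (the `f j` vanish at `w` since `w ∈ pts a`).  Only
`∀ᶠ u in 𝓝 0, σ u ∈ pts a` is left, and the last clause.

The ideal `{Q | aeval a Q = 0}` is generated by finitely many `g 1, ..., g r` (noetherian).  Suppose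
that `h u = eval (σ u) (g k)` is not eventually `0` near `0` for some `k`; `h` is analytic at `0` and
`h 0 = eval w (g k) = 0`.  Let `W` be as in `exists_null`; shrink it to an open neighbourhood of `0` on
which `σ` is analytic.  The points `y ∈ pts a` near `w`, say `y ∈ U`, are `σ (u y)` with
`u y k = y (I k) - w (I k)`, `u y ∈ W`, and `h (u y) = eval y (g k) = 0`.  So with `b, B` of
`exists_noether` the image of `pts a ∩ U` under `y ↦ (eval y (B j))_j` is contained in the image of the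
null set `{u ∈ W | h u = 0}` under the map `u ↦ (eval (σ u) (B j))_j`, which is differentiable on `W`:
it is null (`MeasureTheory.addHaar_image_eq_zero_of_differentiableOn_of_addHaar_eq_zero`, over `ℝ`).  But
it is a neighbourhood of a point by `open_at`, so it has positive measure (`IsOpen.measure_pos`).
So all `g k` vanish on `σ u` for `u` near `0`, hence all `Q` with `aeval a Q = 0` do (`Q = ∑ c_k g k`,
`Submodule.span_induction` or `Ideal.mem_span_range_iff_exists_fun`).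

Last clause: if `eval (σ u) Q = 0` for `u` near `0` then, as `u y → 0` for `y → w`, `eval y Q = 0` for
`y ∈ pts a` near `w`, against `not_eventually_zero`.
-/

open MvPolynomial Topology

noncomputable section

namespace Pool.Agent.H13.SM

variable {ι K : Type} [Field K] [Algebra ℂ K]

/-- A polynomial which vanishes at the generic point vanishes along the chart. -/
private theorem Aff_key [Fintype ι] {a : ι → K}
    (ha : IntermediateField.adjoin ℂ (Set.range a) = ⊤)
    {n : ℕ} {z : Fin n → K} (hz : IsTranscendenceBasis ℂ z)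
    {w : ι → ℂ} (hw : w ∈ pts a) {I : Fin n → ι} {σ : (Fin n → ℂ) → ι → ℂ}
    (hσ : AnalyticAt ℂ σ 0) (hσ0 : σ 0 = w)
    (hpt : ∀ᶠ y in 𝓝 w, y ∈ pts a → y = σ (fun k => y (I k) - w (I k)))
    (Q : MvPolynomial ι ℂ) (hQ : aeval a Q = 0) : ∀ᶠ u in 𝓝 0, eval (σ u) Q = 0 := by
  classical
  by_contra hne
  obtain ⟨b, B, hb, hB, hint⟩ := exists_noether ha hz
  have hcont : ∀ R : MvPolynomial ι ℂ, AnalyticAt ℂ (fun y : ι → ℂ => eval y R) (σ 0) := by
    intro R
    exact AnalyticOnNhd.eval_mvPolynomial R (σ 0) (Set.mem_univ _)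
  have hh : AnalyticAt ℂ (fun u => eval (σ u) Q) 0 :=
    AnalyticAt.fun_comp (f := σ) (g := fun y : ι → ℂ => eval y Q) (hcont Q) hσ
  have h0 : eval (σ 0) Q = 0 := by
    rw [hσ0]
    exact hw Q hQ
  obtain ⟨W, hW, hnull⟩ := exists_null hh h0 hne
  -- an open neighbourhood on which `σ` is analytic
  have hWσ : ∀ᶠ u in 𝓝 (0 : Fin n → ℂ), u ∈ W ∧ AnalyticAt ℂ σ u :=
    (Filter.eventually_of_mem hW fun u hu => hu).and hσ.eventually_analyticAt
  obtain ⟨W', hW'sub, hW'open, hW'0⟩ := mem_nhds_iff.1 hWσ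
  have hκ : Filter.Tendsto (fun (y : ι → ℂ) (k : Fin n) => y (I k) - w (I k)) (𝓝 w) (𝓝 0) := by
    have hc : Continuous fun (y : ι → ℂ) (k : Fin n) => y (I k) - w (I k) := by fun_prop
    have := hc.tendsto w
    have h00 : (fun k : Fin n => w (I k) - w (I k)) = 0 := by
      ext k
      simp
    rwa [h00] at this
  have hU : {y : ι → ℂ | (y ∈ pts a → y = σ (fun k => y (I k) - w (I k))) ∧
      (fun k => y (I k) - w (I k)) ∈ W'} ∈ 𝓝 w :=
    hpt.and (hκ (hW'open.mem_nhds hW'0))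
  have himg := open_at hb hB hint hw hU
  set N : Set (Fin n → ℂ) := {u | u ∈ W' ∧ eval (σ u) Q = 0} with hN
  have hNnull : MeasureTheory.volume N = 0 := by
    refine MeasureTheory.measure_mono_null ?_ hnull
    rintro u ⟨hu, hu'⟩
    exact ⟨(hW'sub hu).1, hu'⟩
  have hdiff : DifferentiableOn ℝ (fun (u : Fin n → ℂ) (j : Fin n) => eval (σ u) (B j)) N := by
    intro u hu
    have hσu : AnalyticAt ℂ σ u := (hW'sub hu.1).2
    have hF : AnalyticAt ℂ (fun (u : Fin n → ℂ) (j : Fin n) => eval (σ u) (B j)) u := by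
      refine analyticAt_pi_iff.2 fun j => ?_
      exact AnalyticAt.fun_comp (f := σ) (g := fun y : ι → ℂ => eval y (B j))
        (AnalyticOnNhd.eval_mvPolynomial (B j) (σ u) (Set.mem_univ _)) hσu
    exact (hF.differentiableAt.restrictScalars ℝ).differentiableWithinAt
  have h1 := MeasureTheory.addHaar_image_eq_zero_of_differentiableOn_of_addHaar_eq_zero
    MeasureTheory.volume hdiff hNnull
  have h2 : (fun (w' : ι → ℂ) (j : Fin n) => eval w' (B j)) '' (pts a ∩
      {y : ι → ℂ | (y ∈ pts a → y = σ (fun k => y (I k) - w (I k))) ∧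
      (fun k => y (I k) - w (I k)) ∈ W'}) ⊆
      (fun (u : Fin n → ℂ) (j : Fin n) => eval (σ u) (B j)) '' N := by
    rintro _ ⟨y, ⟨hya, hy1, hy2⟩, rfl⟩
    have hy := hy1 hya
    refine ⟨fun k => y (I k) - w (I k), ⟨hy2, ?_⟩, ?_⟩
    · rw [← hy]
      exact hya Q hQ
    · simp only
      rw [← hy]
  have h3 : MeasureTheory.volume ((fun (w' : ι → ℂ) (j : Fin n) => eval w' (B j)) '' (pts a ∩
      {y : ι → ℂ | (y ∈ pts a → y = σ (fun k => y (I k) - w (I k))) ∧
      (fun k => y (I k) - w (I k)) ∈ W'})) = 0 :=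
    MeasureTheory.measure_mono_null h2 h1
  exact (MeasureTheory.Measure.measure_pos_of_mem_nhds MeasureTheory.volume himg).ne' h3

theorem exists_chart [Fintype ι] {a : ι → K} (ha : IntermediateField.adjoin ℂ (Set.range a) = ⊤)
    {n : ℕ} {z : Fin n → K} (hz : IsTranscendenceBasis ℂ z) {c : ℕ}
    (hcn : c + n = Fintype.card ι) {f : Fin c → MvPolynomial ι ℂ} (hf : ∀ j, aeval a (f j) = 0)
    {w : ι → ℂ} (hw : w ∈ pts a)
    (hli : LinearIndependent ℂ fun (j : Fin c) (i : ι) => eval w (pderiv i (f j))) :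
    ∃ (I : Fin n → ι) (σ : (Fin n → ℂ) → ι → ℂ), AnalyticAt ℂ σ 0 ∧ σ 0 = w ∧
      (∀ᶠ u in 𝓝 0, σ u ∈ pts a ∧ ∀ k, σ u (I k) = w (I k) + u k) ∧
      (∀ᶠ y in 𝓝 w, y ∈ pts a → y = σ (fun k => y (I k) - w (I k))) ∧
      ∀ Q : MvPolynomial ι ℂ, aeval a Q ≠ 0 → ¬ ∀ᶠ u in 𝓝 0, eval (σ u) Q = 0 := by
  obtain ⟨I, σ, hσ, hσ0, hev, hnear⟩ := exists_implicit hcn (fun j => hw (f j) (hf j)) hli
  have hpt : ∀ᶠ y in 𝓝 w, y ∈ pts a → y = σ (fun k => y (I k) - w (I k)) := by
    filter_upwards [hnear] with y hy hya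
    exact hy fun j => hya (f j) (hf j)
  have key := Aff_key ha hz hw hσ hσ0 hpt
  have hall : ∀ᶠ u in 𝓝 (0 : Fin n → ℂ), σ u ∈ pts a := by
    obtain ⟨S, hS⟩ := IsNoetherian.noetherian
      (RingHom.ker ((aeval a : MvPolynomial ι ℂ →ₐ[ℂ] K) : MvPolynomial ι ℂ →+* K))
    have h1 : ∀ᶠ u in 𝓝 (0 : Fin n → ℂ), ∀ g ∈ S, eval (σ u) g = 0 := by
      rw [Filter.eventually_all_finset]
      intro g hg
      refine key g ?_
      have : g ∈ RingHom.ker ((aeval a : MvPolynomial ι ℂ →ₐ[ℂ] K) : MvPolynomial ι ℂ →+* K) := by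
        rw [← hS]
        exact Submodule.subset_span hg
      simpa [RingHom.mem_ker] using this
    filter_upwards [h1] with u hu Q hQ
    have hle : RingHom.ker ((aeval a : MvPolynomial ι ℂ →ₐ[ℂ] K) : MvPolynomial ι ℂ →+* K) ≤
        RingHom.ker (eval (σ u)) := by
      rw [← hS]
      refine Ideal.span_le.2 fun g hg => ?_
      exact hu g hg
    exact hle (by simpa [RingHom.mem_ker] using hQ)
  refine ⟨I, σ, hσ, hσ0, ?_, hpt, ?_⟩
  · filter_upwards [hall, hev] with u hu1 hu2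
    exact ⟨hu1, hu2.2⟩
  · intro Q hQ hz0
    refine not_eventually_zero ha hz hw hQ ?_
    have hκ : Filter.Tendsto (fun (y : ι → ℂ) (k : Fin n) => y (I k) - w (I k)) (𝓝 w) (𝓝 0) := by
      have hc : Continuous fun (y : ι → ℂ) (k : Fin n) => y (I k) - w (I k) := by fun_prop
      have := hc.tendsto w
      have h00 : (fun k : Fin n => w (I k) - w (I k)) = 0 := by
        ext k
        simp
      rwa [h00] at this
    filter_upwards [hpt, hκ.eventually hz0] with y hy1 hy2 hya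
    have hy := hy1 hya
    rw [hy]
    exact hy2

end Pool.Agent.H13.SM

end
end

section

/-!
# BU TanB: tangent vectors of the blow-up

* `tan_comp`: `γ` in the blow-up near `0`, `γ 0 b ≠ 0`: `z ↦ γ z b` is in `X` near `0` (`comp_mem`).
* `tan_rel`: `γ_(b')(z) = λ(z) γ_b(z)` with `λ = Λ(γ_(b'))/Λ(γ_b)`, `Λ (y b) ≠ 0` (`prop`), differentiate.
* `tan_off`: near `y` with `l b' (y b) ≠ 0`: `l_b (γ_b) • γ = phi l (γ_b)` (`eq_phi` times `l_b (γ_b)`); differentiate at `0`: with `x = y b`, `x' = v b`: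
  `l_b x' • y + l_b x • v = (l_c x' • x + l_c x • x')_c`.  So if `x' = a • x` then `l_b x • v = (2 a l_c x • x)_c - a l_b x • y`, and `l_c x • x = l_b x • y c`: `v = a • y`.  The general linear form is what
  `indep_off` uses: a relation `α • x + β • v b + γ • w b = 0` gives `α' • y + β • v + γ • w = 0`.
-/

set_option autoImplicit false

namespace Pool.Agent.H62.BU

open Filter Topology

variable {V : Type*} [NormedAddCommGroup V] [NormedSpace ℂ V] {ι : Type*} [Fintype ι]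
variable {l : ι → V →L[ℂ] ℂ} {X : Set V} {σ : ℂ × ℂ → V} {τ : V → ℂ × ℂ}

theorem tan_comp (hX : Surface X) {y v : ι → V} (hy : y ∈ blow l X) (hv : Tan (blow l X) y v) {b : ι} (hb : y b ≠ 0) :
    Tan X (y b) (v b) := by
  obtain ⟨γ, hγ, hmem, h0, hd⟩ := hv
  have hpr : AnalyticAt ℂ (fun z : ι → V => z b) (γ 0) :=
    (ContinuousLinearMap.proj (R := ℂ) (φ := fun _ : ι => V) b).analyticAt _
  have han : AnalyticAt ℂ (fun z => γ z b) 0 := hpr.comp hγ
  refine ⟨fun z => γ z b, han, ?_, by show γ 0 b = y b; rw [h0], ?_⟩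
  · have h1 : ∀ᶠ z in 𝓝 (0 : ℂ), γ z b ≠ 0 := by
      have h2 : Tendsto (fun z => γ z b) (𝓝 0) (𝓝 (γ 0 b)) := han.continuousAt
      rw [h0] at h2
      exact h2.eventually_ne hb
    filter_upwards [hmem, h1] with z hz1 hz2
    exact comp_mem hX _ hz1 hz2
  · have h1 : HasDerivAt γ v 0 := by
      rw [← hd]; exact hγ.differentiableAt.hasDerivAt
    exact (hasDerivAt_pi.mp h1 b).deriv

theorem tan_rel {y v : ι → V} (hy : y ∈ blow l X) (hv : Tan (blow l X) y v) {b : ι} (hb : y b ≠ 0) (b' : ι) :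
    ∃ μ : ℂ, ∀ c : ℂ, y b' = c • y b → v b' = c • v b + μ • y b := by
  obtain ⟨γ, hγ, hmem, h0, hd⟩ := hv
  obtain ⟨Λ, hΛ⟩ := exists_dual_vector ℂ (y b) (norm_ne_zero_iff.mpr hb)
  have hΛ0 : Λ (y b) ≠ 0 := by
    rw [hΛ.2]
    simpa using hb
  have h1 : HasDerivAt γ v 0 := by
    rw [← hd]; exact hγ.differentiableAt.hasDerivAt
  have hb1 : HasDerivAt (fun z => γ z b) (v b) 0 := hasDerivAt_pi.mp h1 b
  have hb2 : HasDerivAt (fun z => γ z b') (v b') 0 := hasDerivAt_pi.mp h1 b'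
  have hL1 : HasDerivAt (fun z => Λ (γ z b)) (Λ (v b)) 0 := Λ.hasFDerivAt.comp_hasDerivAt 0 hb1
  have hL2 : HasDerivAt (fun z => Λ (γ z b')) (Λ (v b')) 0 := Λ.hasFDerivAt.comp_hasDerivAt 0 hb2
  -- `Λ (γ b) • γ b' = Λ (γ b') • γ b` near `0`
  have e1 : HasDerivAt (fun z => Λ (γ z b) • γ z b') (Λ (γ 0 b) • v b' + Λ (v b) • γ 0 b') 0 := hL1.smul hb2
  have e2 : HasDerivAt (fun z => Λ (γ z b') • γ z b) (Λ (γ 0 b') • v b + Λ (v b') • γ 0 b) 0 := hL2.smul hb1
  have e3 : (fun z => Λ (γ z b) • γ z b') =ᶠ[𝓝 0] fun z => Λ (γ z b') • γ z b := by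
    filter_upwards [hmem] with z hz
    exact prop _ hz Λ b b'
  have e4 := e1.unique (e2.congr_of_eventuallyEq e3)
  rw [h0] at e4
  refine ⟨(Λ (y b))⁻¹ * (Λ (v b') - (Λ (y b))⁻¹ * Λ (v b) * Λ (y b')), fun c hc => ?_⟩
  have e5 : Λ (y b') = c * Λ (y b) := by rw [hc, map_smul, smul_eq_mul]
  rw [e5, hc] at e4
  rw [e5]
  have e7 : Λ (y b) • (v b' - (c • v b + ((Λ (y b))⁻¹ * (Λ (v b') - (Λ (y b))⁻¹ * Λ (v b) * (c * Λ (y b)))) • y b)) = 0 := by
    have e8 : Λ (y b) * ((Λ (y b))⁻¹ * (Λ (v b') - (Λ (y b))⁻¹ * Λ (v b) * (c * Λ (y b)))) = Λ (v b') - Λ (v b) * c := by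
      field_simp
    rw [smul_sub, smul_add, smul_smul (Λ (y b)) _ (y b), e8]
    linear_combination (norm := module) e4
  rcases smul_eq_zero.mp e7 with h4 | h4
  · exact absurd h4 hΛ0
  · exact sub_eq_zero.mp h4

private theorem TanB_aux {y v : ι → V} (hv : Tan (blow l X) y v) {b b' : ι}
    (hb : y b ≠ 0) (hb' : l b' (y b) ≠ 0) (c : ι) :
    l b (y b) • v c = l c (v b) • y b + l c (y b) • v b - l b (v b) • y c := by
  obtain ⟨γ, hγ, hmem, h0, hd⟩ := hv
  have h1 : HasDerivAt γ v 0 := by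
    rw [← hd]; exact hγ.differentiableAt.hasDerivAt
  have hbb : HasDerivAt (fun z => γ z b) (v b) 0 := hasDerivAt_pi.mp h1 b
  have hcc : HasDerivAt (fun z => γ z c) (v c) 0 := hasDerivAt_pi.mp h1 c
  have hL : ∀ c, HasDerivAt (fun z => l c (γ z b)) (l c (v b)) 0 := fun c =>
    (l c).hasFDerivAt.comp_hasDerivAt 0 hbb
  have n1 : ∀ᶠ z in 𝓝 (0 : ℂ), γ z b ≠ 0 := by
    have h2 : Tendsto (fun z => γ z b) (𝓝 0) (𝓝 (γ 0 b)) := hbb.continuousAt
    rw [h0] at h2
    exact h2.eventually_ne hb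
  have n2 : ∀ᶠ z in 𝓝 (0 : ℂ), l b' (γ z b) ≠ 0 := by
    have h2 : Tendsto (fun z => l b' (γ z b)) (𝓝 0) (𝓝 (l b' (γ 0 b))) := (hL b').continuousAt
    rw [h0] at h2
    exact h2.eventually_ne hb'
  have e1 : HasDerivAt (fun z => l b (γ z b) • γ z c) (l b (γ 0 b) • v c + l b (v b) • γ 0 c) 0 := (hL b).smul hcc
  have e2 : HasDerivAt (fun z => l c (γ z b) • γ z b) (l c (γ 0 b) • v b + l c (v b) • γ 0 b) 0 := (hL c).smul hbb
  have e3 : (fun z => l b (γ z b) • γ z c) =ᶠ[𝓝 0] fun z => l c (γ z b) • γ z b := by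
    filter_upwards [hmem, n1, n2] with z hz hz1 hz2
    have h3 := prop (γ z) hz (l b) b c
    rw [symm (γ z) hz b c] at h3
    exact h3
  have e4 := e1.unique (e2.congr_of_eventuallyEq e3)
  rw [h0] at e4
  rw [eq_sub_iff_add_eq, e4]
  exact add_comm _ _

theorem indep_off (hX : Surface X) {y v w : ι → V} (hy : y ∈ blow l X) (hv : Tan (blow l X) y v) (hw : Tan (blow l X) y w) {b b' : ι}
    (hb : y b ≠ 0) (hb' : l b' (y b) ≠ 0) (hi : LinearIndependent ℂ ![y, v, w]) : LinearIndependent ℂ ![y b, v b, w b] := by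
  have hlb : l b (y b) ≠ 0 := ne_of_ne y hy hb hb'
  have hyc : ∀ c, l b (y b) • y c = l c (y b) • y b := by
    intro c
    have h1 := prop y hy (l b) b c
    rw [symm y hy b c] at h1
    exact h1
  rw [Fintype.linearIndependent_iff] at hi ⊢
  intro g hg
  have hi2 := hi g
  simp only [Fin.sum_univ_three, Matrix.cons_val_zero, Matrix.cons_val_one, Matrix.cons_val] at hg hi2
  apply hi2
  have hl0 : ∀ c, g 0 * l c (y b) + g 1 * l c (v b) + g 2 * l c (w b) = 0 := by
    intro c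
    have h1 := congrArg (l c) hg
    simpa only [map_add, map_smul, smul_eq_mul, map_zero] using h1
  funext c
  have ev := TanB_aux hv hb hb' c
  have ew := TanB_aux hw hb hb' c
  have h1 : (g 0 * l c (y b) + g 1 * l c (v b) + g 2 * l c (w b)) • y b = 0 := by rw [hl0, zero_smul]
  have h2 : (g 0 * l b (y b) + g 1 * l b (v b) + g 2 * l b (w b)) • y c = 0 := by rw [hl0, zero_smul]
  have h3 : l b (y b) • (g 0 • y c + g 1 • v c + g 2 • w c) = 0 := by
    linear_combination (norm := module) (g 1) • ev + (g 2) • ew + (2 * g 0) • (hyc c) + h1 - h2 + (l c (y b)) • hg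
  rcases smul_eq_zero.mp h3 with h4 | h4
  · exact absurd h4 hlb
  · exact h4

end Pool.Agent.H62.BU

end

section

/-!
# BU FormB: the pull back of a form to the blow-up

`Om y v w = l_b(y_b)^j Ω(y_b)(v_b, w_b)²` for any `b` with `y_b ≠ 0` (the value does not depend on `b`: `om_eq`).

`om_eq`: let `b`, `b'` be two such indices, `y b' = c • y b`, `c ≠ 0`; `l_(b')(y_(b')) = c² l_b (y_b)` (`symm`: `l_(b')(y_(b')) = c l_(b')(y_b) = c l_b (y_(b'))`);
`v b' = c • v b + μ • y b` (`tan_rel`), so `Ω(y_(b'))(v_(b'), w_(b')) = Ω(c y_b)(c v_b + μ y_b, c w_b + μ' y_b) = Ω (c y_b)(c v_b, c w_b)` (`add_smul` at the point `c y_b`: `μ y_b = (μ/c) (c y_b)`; `c v_b` is tangent at `c y_b`)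
`= c^(-j) Ω(y_b)(v_b, w_b)` (`scale`).  Squares and the factor `c^(2j)` cancel.

`isForm_om`: `add_smul`, `det` (the square gives `(ad-bc)^(2m)`), `scale`: `c^j` from `l_b(c y_b)^j = c^j l_b(y_b)^j` and `c^(-2j)` from the square: total `c^(-j)`; note that `Tan` of `y` passes to `c y` and to linear combinations only through `tan_comp`
(use the same `b` on both sides: `(c • y) b ≠ 0`).
`analytic`: near `p` the component `b` with `φ p b ≠ 0` works: `om_eq` for the tangent vectors `fderiv φ y (1,0)`, `fderiv φ y (0,1)` of `blow` at `φ y` (`tan_fderiv`), then `hΩ.analytic` for `y ↦ φ y b`, whose derivative is `(fderiv φ y w) b`.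
`noZero_om`: `y ∉ total`, so `y b ∉ B` for the `b` with `y b ≠ 0`... (if `y b ∈ B` for one such `b` then for all, `comp_smul` and the cone property of `B`); `q ∈ B`, so `y b` is not a multiple of `q`, some `l b' (y b) ≠ 0`, hence
`l_b (y_b) ≠ 0` (`ne_of_ne`), and `indep_off`, `NoZeroOff` for `Ω`.
-/

set_option autoImplicit false

namespace Pool.Agent.H62.BU

open Filter Topology

variable {V : Type*} [NormedAddCommGroup V] [NormedSpace ℂ V] {ι : Type*} [Fintype ι]
variable {l : ι → V →L[ℂ] ℂ} {X : Set V} {σ : ℂ × ℂ → V} {τ : V → ℂ × ℂ}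

/-- no zeros outside `B` -/
def NoZeroOff (X B : Set V) (Ω : V → V → V → ℂ) : Prop :=
  ∀ x ∈ X, x ∉ B → ∀ v w, Tan X x v → Tan X x w → LinearIndependent ℂ ![x, v, w] → Ω x v w ≠ 0

open Classical in
/-- the pull back -/
noncomputable def om (l : ι → V →L[ℂ] ℂ) (j : ℕ) (Ω : V → V → V → ℂ) (y v w : ι → V) : ℂ :=
  if h : ∃ b, y b ≠ 0 then l h.choose (y h.choose) ^ j * Ω (y h.choose) (v h.choose) (w h.choose) ^ 2 else 0

theorem tan_fderiv {φ : ℂ × ℂ → V} {p : ℂ × ℂ} (hφ : AnalyticAt ℂ φ p) (h : ∀ᶠ y in 𝓝 p, φ y ∈ X) (w : ℂ × ℂ) :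
    Tan X (φ p) (fderiv ℂ φ p w) := by
  have e0 : p + (0 : ℂ) • w = p := by rw [zero_smul, add_zero]
  have hlin : AnalyticAt ℂ (fun z : ℂ => p + z • w) 0 :=
    analyticAt_const.add (analyticAt_id.smul analyticAt_const)
  have ht : Tendsto (fun z : ℂ => p + z • w) (𝓝 0) (𝓝 p) := by
    have h1 : Tendsto (fun z : ℂ => p + z • w) (𝓝 0) (𝓝 (p + (0 : ℂ) • w)) := hlin.continuousAt
    rwa [e0] at h1
  refine ⟨fun z => φ (p + z • w), ?_, ht.eventually h, by simp only [e0], ?_⟩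
  · have h1 : AnalyticAt ℂ φ (p + (0 : ℂ) • w) := by rw [e0]; exact hφ
    exact AnalyticAt.comp (g := φ) (f := fun z : ℂ => p + z • w) h1 hlin
  · have h1 : HasFDerivAt φ (fderiv ℂ φ p) (p + (0 : ℂ) • w) := by
      rw [e0]; exact hφ.differentiableAt.hasFDerivAt
    have h2 : HasDerivAt (fun z : ℂ => p + z • w) w 0 := by
      have h3 := ((hasDerivAt_id (0 : ℂ)).smul_const w).const_add p
      simpa using h3
    exact (h1.comp_hasDerivAt (0 : ℂ) h2).deriv

private theorem FormB_tan_smul {W : Type*} [NormedAddCommGroup W] [NormedSpace ℂ W] {Y : Set W}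
    (hY : ∀ x ∈ Y, ∀ c : ℂ, c ≠ 0 → c • x ∈ Y) {x v : W} (hv : Tan Y x v) {c : ℂ} (hc : c ≠ 0) :
    Tan Y (c • x) (c • v) := by
  obtain ⟨γ, hγ, hmem, h0, hd⟩ := hv
  refine ⟨fun z => c • γ z, analyticAt_const.smul hγ, ?_, by show c • γ 0 = c • x; rw [h0], ?_⟩
  · filter_upwards [hmem] with z hz
    exact hY _ hz c hc
  · have h1 : HasDerivAt γ v 0 := by
      rw [← hd]; exact hγ.differentiableAt.hasDerivAt
    exact (h1.const_smul c).deriv

private theorem FormB_indep (hX : Surface X) {m j : ℕ} {Ω : V → V → V → ℂ} (hΩ : IsForm X m j Ω) {y v w : ι → V} (hy : y ∈ blow l X)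
    (hv : Tan (blow l X) y v) (hw : Tan (blow l X) y w) {b b' : ι} (hb : y b ≠ 0) (hb' : y b' ≠ 0) :
    l b' (y b') ^ j * Ω (y b') (v b') (w b') ^ 2 = l b (y b) ^ j * Ω (y b) (v b) (w b) ^ 2 := by
  obtain ⟨c, hc⟩ := comp_smul y hy hb b'
  have hc0 : c ≠ 0 := by
    rintro rfl
    rw [zero_smul] at hc
    exact hb' hc
  obtain ⟨μ, hμ⟩ := tan_rel hy hv hb b'
  obtain ⟨ν, hν⟩ := tan_rel hy hw hb b'
  have e1 := hμ c hc
  have e2 := hν c hc
  have hyb : y b ∈ X := comp_mem hX y hy hb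
  have hcy : c • y b ∈ X := hX.smul _ hyb c hc0
  have tv := tan_comp hX hy hv hb
  have tw := tan_comp hX hy hw hb
  have tv' := FormB_tan_smul hX.smul tv hc0
  have tw' := FormB_tan_smul hX.smul tw hc0
  have e3 : l b' (y b') = c ^ 2 * l b (y b) := by
    have h1 : l b' (y b') = c * l b' (y b) := by rw [hc, map_smul, smul_eq_mul]
    have h2 : l b' (y b) = l b (y b') := (symm y hy b b').symm
    have h3 : l b (y b') = c * l b (y b) := by rw [hc, map_smul, smul_eq_mul]
    rw [h1, h2, h3]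
    ring
  have e4 : Ω (y b') (v b') (w b') = Ω (c • y b) (c • v b) (c • w b) := by
    have h1 := hΩ.add_smul (c • y b) hcy (c • v b) (c • w b) tv' tw' (μ / c) (ν / c)
    rw [smul_smul, smul_smul, div_mul_cancel₀ _ hc0, div_mul_cancel₀ _ hc0] at h1
    rw [e1, e2, hc]
    exact h1
  have e5 := hΩ.scale (y b) hyb (v b) (w b) tv tw c hc0
  rw [e3, e4, ← e5, mul_pow]
  ring

theorem om_eq (hX : Surface X) {m j : ℕ} {Ω : V → V → V → ℂ} (hΩ : IsForm X m j Ω) {y v w : ι → V} (hy : y ∈ blow l X)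
    (hv : Tan (blow l X) y v) (hw : Tan (blow l X) y w) {b : ι} (hb : y b ≠ 0) :
    om l j Ω y v w = l b (y b) ^ j * Ω (y b) (v b) (w b) ^ 2 := by
  have h : ∃ b, y b ≠ 0 := ⟨b, hb⟩
  rw [om, dif_pos h]
  exact FormB_indep hX hΩ hy hv hw hb h.choose_spec

private theorem FormB_def {j : ℕ} {Ω : V → V → V → ℂ} {y : ι → V} (hy : y ∈ blow l X) :
    ∃ b, y b ≠ 0 ∧ ∀ v w : ι → V, om l j Ω y v w = l b (y b) ^ j * Ω (y b) (v b) (w b) ^ 2 := by
  have h : ∃ b, y b ≠ 0 := exists_ne y hy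
  refine ⟨h.choose, h.choose_spec, fun v w => ?_⟩
  rw [om, dif_pos h]

theorem isForm_om [FiniteDimensional ℂ V] (hX : Surface X) {m j : ℕ} {Ω : V → V → V → ℂ} (hΩ : IsForm X m j Ω) :
    IsForm (blow l X) (2 * m) j (om l j Ω) := by
  have : CompleteSpace V := FiniteDimensional.complete ℂ V
  refine ⟨?_, ?_, ?_, ?_⟩
  · intro y hy v w hv hw a b'
    obtain ⟨b, hb, hom⟩ := FormB_def (l := l) (j := j) (Ω := Ω) hy
    rw [hom, hom]
    have h1 := hΩ.add_smul (y b) (comp_mem hX y hy hb) (v b) (w b) (tan_comp hX hy hv hb) (tan_comp hX hy hw hb) a b'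
    simp only [Pi.add_apply, Pi.smul_apply]
    rw [h1]
  · intro y hy v w hv hw a b' c d
    obtain ⟨b, hb, hom⟩ := FormB_def (l := l) (j := j) (Ω := Ω) hy
    rw [hom, hom]
    have h1 := hΩ.det (y b) (comp_mem hX y hy hb) (v b) (w b) (tan_comp hX hy hv hb) (tan_comp hX hy hw hb) a b' c d
    simp only [Pi.add_apply, Pi.smul_apply]
    rw [h1, mul_pow, ← pow_mul, mul_comm m 2]
    ring
  · intro y hy v w hv hw c hc
    obtain ⟨b, hb, hom⟩ := FormB_def (l := l) (j := j) (Ω := Ω) hy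
    have hcy : c • y ∈ blow l X := blow_smul y hy c hc
    have hcb : (c • y) b ≠ 0 := by
      rw [Pi.smul_apply]
      exact smul_ne_zero hc hb
    rw [hom, om_eq hX hΩ hcy (FormB_tan_smul blow_smul hv hc) (FormB_tan_smul blow_smul hw hc) hcb]
    have h1 := hΩ.scale (y b) (comp_mem hX y hy hb) (v b) (w b) (tan_comp hX hy hv hb) (tan_comp hX hy hw hb) c hc
    simp only [Pi.smul_apply, map_smul, smul_eq_mul]
    rw [← h1, mul_pow]
    ring
  · intro φ p hφ hmem
    have hp : φ p ∈ blow l X := hmem.self_of_nhds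
    obtain ⟨b, hb⟩ := exists_ne (φ p) hp
    have hpr : ∀ y, AnalyticAt ℂ φ y → AnalyticAt ℂ (fun y => φ y b) y := fun y hy =>
      AnalyticAt.comp ((ContinuousLinearMap.proj (R := ℂ) (φ := fun _ : ι => V) b).analyticAt _) hy
    have hψ : AnalyticAt ℂ (fun y => φ y b) p := hpr p hφ
    have hne : ∀ᶠ y in 𝓝 p, φ y b ≠ 0 := by
      have h1 : Tendsto (fun y => φ y b) (𝓝 p) (𝓝 (φ p b)) := hψ.continuousAt
      exact h1.eventually_ne hb
    have hψX : ∀ᶠ y in 𝓝 p, φ y b ∈ X := by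
      filter_upwards [hmem, hne] with y h1 h2
      exact comp_mem hX _ h1 h2
    have hl : AnalyticAt ℂ (fun y => l b (φ y b)) p := AnalyticAt.comp ((l b).analyticAt _) hψ
    have hΩa := hΩ.analytic (fun y => φ y b) p hψ hψX
    refine ((hl.pow j).mul (hΩa.pow 2)).congr ?_
    filter_upwards [eventually_eventually_nhds.mpr hmem, hne, hφ.eventually_analyticAt] with y h1 h2 h3
    have h4 : ∀ w : ℂ × ℂ, fderiv ℂ (fun y => φ y b) y w = (fderiv ℂ φ y w) b := by
      intro w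
      have h5 := h3.differentiableAt.hasFDerivAt
      have h6 : HasFDerivAt (fun y => φ y b)
          ((ContinuousLinearMap.proj (R := ℂ) (φ := fun _ : ι => V) b).comp (fderiv ℂ φ y)) y :=
        ((ContinuousLinearMap.proj (R := ℂ) (φ := fun _ : ι => V) b).hasFDerivAt (x := φ y)).comp y h5
      rw [h6.fderiv]
      rfl
    rw [om_eq hX hΩ h1.self_of_nhds (tan_fderiv h3 h1 (1, 0)) (tan_fderiv h3 h1 (0, 1)) h2]
    simp only [Pi.mul_apply, Pi.pow_apply, h4]

theorem noZero_om (hX : Surface X) {m j : ℕ} {Ω : V → V → V → ℂ} (hΩ : IsForm X m j Ω) {B : Set V} (hB : ∀ x ∈ B, ∀ c : ℂ, c ≠ 0 → c • x ∈ B)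
    {q : V} (hl : ∀ v : V, (∀ b, l b v = 0) → ∃ c : ℂ, v = c • q) (hq : q ∈ B) (hn : NoZeroOff X B Ω) :
    NoZeroOff (blow l X) (total l X B) (om l j Ω) := by
  intro y hy hyt v w hv hw hi
  have h1 : ∃ b, y b ≠ 0 ∧ y b ∉ B := by
    by_contra hcon
    push Not at hcon
    exact hyt ⟨hy, hcon⟩
  obtain ⟨b, hb, hbB⟩ := h1
  have h2 : ∃ b', l b' (y b) ≠ 0 := by
    by_contra hcon
    push Not at hcon
    obtain ⟨c, hc⟩ := hl _ hcon
    have hc0 : c ≠ 0 := by
      rintro rfl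
      rw [zero_smul] at hc
      exact hb hc
    rw [hc] at hbB
    exact hbB (hB q hq c hc0)
  obtain ⟨b', hb'⟩ := h2
  rw [om_eq hX hΩ hy hv hw hb]
  refine mul_ne_zero (pow_ne_zero _ (ne_of_ne y hy hb hb')) (pow_ne_zero _ ?_)
  exact hn (y b) (comp_mem hX y hy hb) hbB (v b) (w b) (tan_comp hX hy hv hb) (tan_comp hX hy hw hb)
    (indep_off hX hy hv hw hb hb' hi)

end Pool.Agent.H62.BU

end

section

/-!
# SY DefB: lifts of entire curves to the blow-up
-/

set_option autoImplicit false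

open Topology Filter Metric

noncomputable section

namespace Pool.Agent.SY

open Pool.Agent.H62.BU (blow total phi)

variable {V : Type} [NormedAddCommGroup V] [NormedSpace ℂ V] {ι : Type} [Fintype ι]

/-- `Φ` is a lift of the entire curve `F` to the blow-up. -/
def IsLiftB (l : ι → V →L[ℂ] ℂ) (X T : Set V) (F : ℂ → V) (Φ : ℂ → ι → V) : Prop :=
  Ent (blow l X) (total l X T) Φ ∧ ∃ h : ℂ → ℂ, Differentiable ℂ h ∧ ∀ z, phi l (F z) = h z • Φ z

open Classical in
/-- the metric of the blow-up on the curves downstairs -/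
def down (l : ι → V →L[ℂ] ℂ) (X T : Set V) (g : (ℂ → ι → V) → ℂ → ℝ) (F : ℂ → V) : ℂ → ℝ :=
  if h : ∃ Φ, IsLiftB l X T F Φ then g h.choose else 0

end Pool.Agent.SY

end
end
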