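import Pool.Agent.H43.TL2.M02
import Pool.Agent.H43.TL2.M08
import Pool.Agent.H43.TL2.M19

/-! The parts of this file: H13.CV.Appr, H13.CV.Rat, H13.CV.FinPl, H13.CV.DedeA, H68.KR.GL. -/

section

/-!
# CV Appr: weak approximation

(1) `E ≠ E'` implies that there is `f` with `0 ≤ ord_E f` and `ord_{E'} f < 0`: otherwise `0 ≤ ord_E f → 0 ≤ ord_{E'} f` for all `f`.  Then `ord_E f = 0` implies `ord_{E'} f = 0` (apply it to `f` and `f⁻¹`).
Let `oz E t = 1`, `k = oz E' t ≥ 0`.  For `f ≠ 0`, `f * t ^ (- oz E f)` has order `0` at `E`, so `oz E' f = oz E f * k`.  With `f` a uniformizer of `E'`: `1 = oz E f * k`, so `k = 1` (`k ≥ 0`), so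
`oz E' = oz E` and `E = E'` (`Place.ext'`).
(2) `E ≠ E'` implies that there is `s ≠ 0` with `oz E s < 0`, `0 < oz E' s`: `f` as in (1) and `g` as in (1) for `(E', E)`: `s = g / f`:
`ord_E g < 0`, `0 ≤ ord_E f`, `0 ≤ ord_{E'} g`, `ord_{E'} f < 0`.
(3) `exists_sep`: for a finite set `T` of places not containing `E` there is `s ≠ 0` with `oz E s < 0`, `0 < oz E' s` for all `E' ∈ T`.  Induction on `T`: `T = ∅`: inverse of a uniformizer.  Let `a` be good
for `T`, and `b` for `E'' ∉ T`, as in (2).  If `0 ≤ oz E'' a`, then `a ^ r * b` is good for large `r` (at `E`: both negative; at `E' ∈ T`: `r * oz E' a + oz E' b > 0` for large `r`; at `E''`: `≥ oz E'' b > 0`).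
If `oz E'' a < 0`: `b * a ^ r / (1 + a ^ r)`: at `E` and at `E''`, `a ^ r / (1 + a ^ r)` has order `0`; at `E' ∈ T`: `1 + a ^ r` has order `0`, so the order is `oz E' b + r * oz E' a > 0` for large `r`.
(`1 + a ^ r ≠ 0` as at `E` it has negative order.)
(4) for all `n` there is `e` with `n ≤ ord_E (e - 1)` and `n ≤ ord_{E'} e` for all `E' ∈ T`: with `s` as in (3): `e = s ^ r / (1 + s ^ r)`, `e - 1 = - 1 / (1 + s ^ r)`, `r ≥ n`.
(5) `approx`: `f = ∑ E ∈ T, g E * e_E` with `e_E` as in (4) for `E` and `T.erase E`, with `n' = n + max` of the `- oz E' (g E)`: at `E'`: `f - g E' = g E' (e_{E'} - 1) + ∑ E ≠ E', g E * e_E`.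
-/

set_option autoImplicit false

open Pool.Agent.H23.Fano (PrimeDivisorOver Form regularForms)

noncomputable section

namespace Pool.Agent.H13.CV

variable {K : Type} [Field K] [Algebra ℂ K]

private theorem appr_sep1 {E E' : Place K} (h : E ≠ E') : ∃ f : K, f ≠ 0 ∧ 0 ≤ oz E f ∧ oz E' f < 0 := by
  by_contra hcon
  push Not at hcon
  apply h
  obtain ⟨t, ht0, ht⟩ := exists_uni E
  obtain ⟨u, hu0, hu⟩ := exists_uni E'
  have hk : 0 ≤ oz E' t := hcon t ht0 (by omega)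
  have key : ∀ f : K, f ≠ 0 → oz E' f = oz E f * oz E' t := by
    intro f hf
    have h1 : t ^ (-oz E f) ≠ 0 := zpow_ne_zero _ ht0
    have h2 : oz E (f * t ^ (-oz E f)) = 0 := by
      rw [oz_mul E hf h1, oz_zpow, ht]; ring
    have h3 : f * t ^ (-oz E f) ≠ 0 := mul_ne_zero hf h1
    have h4 := hcon _ h3 (by omega)
    have h5 := hcon (f * t ^ (-oz E f))⁻¹ (inv_ne_zero h3) (by rw [oz_inv]; omega)
    rw [oz_inv] at h5
    have h6 : oz E' (f * t ^ (-oz E f)) = 0 := by omega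
    rw [oz_mul E' hf h1, oz_zpow] at h6
    linarith
  have h7 := key u hu0
  rw [hu] at h7
  have h8 : oz E' t = 1 := by
    have h9 : oz E' t ∣ 1 := ⟨oz E u, by rw [mul_comm]; exact h7⟩
    exact Int.eq_one_of_dvd_one hk h9
  refine Place.ext' fun f => ?_
  by_cases hf : f = 0
  · subst hf
    rw [E.ord.map_zero, E'.ord.map_zero]
  · rw [← coe_oz E hf, ← coe_oz E' hf, key f hf, h8, mul_one]

private theorem appr_sep2 {E E' : Place K} (h : E ≠ E') : ∃ s : K, s ≠ 0 ∧ oz E s < 0 ∧ 0 < oz E' s := by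
  obtain ⟨f, hf0, hf1, hf2⟩ := appr_sep1 h
  obtain ⟨g, hg0, hg1, hg2⟩ := appr_sep1 h.symm
  refine ⟨g / f, div_ne_zero hg0 hf0, ?_, ?_⟩
  · rw [oz_div E hg0 hf0]; omega
  · rw [oz_div E' hg0 hf0]; omega

private theorem appr_one_add_neg {E : Place K} {a : K} {r : ℕ} (hr : 1 ≤ r) (h : oz E a < 0) :
    1 + a ^ r ≠ 0 ∧ oz E (1 + a ^ r) = r * oz E a := by
  have ha : a ≠ 0 := by
    rintro rfl
    rw [oz_zero] at h
    exact lt_irrefl _ h
  have h1 : oz E (a ^ r) < oz E (1 : K) := by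
    rw [oz_pow, oz_one]
    have : (1 : ℤ) ≤ r := by exact_mod_cast hr
    nlinarith
  have h2 := oz_add_of_lt E (pow_ne_zero r ha) one_ne_zero h1
  rw [add_comm, oz_pow] at h2
  exact h2

private theorem appr_one_add_pos {E : Place K} {a : K} {r : ℕ} (hr : 1 ≤ r) (h : 0 < oz E a) :
    1 + a ^ r ≠ 0 ∧ oz E (1 + a ^ r) = 0 := by
  have ha : a ≠ 0 := by
    rintro rfl
    rw [oz_zero] at h
    exact lt_irrefl _ h
  have h1 : oz E (1 : K) < oz E (a ^ r) := by
    rw [oz_pow, oz_one]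
    have : (1 : ℤ) ≤ r := by exact_mod_cast hr
    nlinarith
  have h2 := oz_add_of_lt E one_ne_zero (pow_ne_zero r ha) h1
  rw [oz_one] at h2
  exact h2

private theorem appr_large (T : Finset (Place K)) (b : K) : ∃ r : ℕ, 1 ≤ r ∧ ∀ E ∈ T, -oz E b < r := by
  refine ⟨1 + ∑ E ∈ T, (oz E b).natAbs, by omega, fun E hE => ?_⟩
  have h1 : (oz E b).natAbs ≤ ∑ E ∈ T, (oz E b).natAbs :=
    Finset.single_le_sum (f := fun E : Place K => (oz E b).natAbs) (fun _ _ => Nat.zero_le _) hE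
  have h2 : ((oz E b).natAbs : ℤ) ≤ ((∑ E ∈ T, (oz E b).natAbs : ℕ) : ℤ) := by exact_mod_cast h1
  have h3 : ((1 + ∑ E ∈ T, (oz E b).natAbs : ℕ) : ℤ) = 1 + ((∑ E ∈ T, (oz E b).natAbs : ℕ) : ℤ) := by
    rw [Nat.cast_add, Nat.cast_one]
  rw [h3]
  omega

theorem exists_sep {E : Place K} (T : Finset (Place K)) (hT : E ∉ T) : ∃ s : K, s ≠ 0 ∧ oz E s < 0 ∧ ∀ E' ∈ T, 0 < oz E' s := by
  classical
  induction T using Finset.induction_on with
  | empty =>
    obtain ⟨t, ht0, ht⟩ := exists_uni E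
    refine ⟨t⁻¹, inv_ne_zero ht0, by rw [oz_inv]; omega, fun E' hE' => absurd hE' (Finset.notMem_empty _)⟩
  | insert E'' T hE'' ih =>
    rw [Finset.mem_insert, not_or] at hT
    obtain ⟨a, ha0, ha1, ha2⟩ := ih hT.2
    obtain ⟨b, hb0, hb1, hb2⟩ := appr_sep2 hT.1
    obtain ⟨r, hr1, hr⟩ := appr_large T b
    have hr1' : (1 : ℤ) ≤ r := by exact_mod_cast hr1
    rcases le_or_gt 0 (oz E'' a) with h | h
    · refine ⟨a ^ r * b, mul_ne_zero (pow_ne_zero _ ha0) hb0, ?_, ?_⟩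
      · rw [oz_mul E (pow_ne_zero _ ha0) hb0, oz_pow]
        nlinarith
      · intro E' hE'
        rw [oz_mul E' (pow_ne_zero _ ha0) hb0, oz_pow]
        rcases Finset.mem_insert.1 hE' with rfl | hE'
        · nlinarith
        · have h1 := ha2 E' hE'
          have h2 := hr E' hE'
          nlinarith
    · have h0 : (1 + a ^ r) ≠ 0 := (appr_one_add_neg hr1 ha1).1
      have h3 : b * a ^ r ≠ 0 := mul_ne_zero hb0 (pow_ne_zero _ ha0)
      refine ⟨b * a ^ r / (1 + a ^ r), div_ne_zero h3 h0, ?_, ?_⟩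
      · rw [oz_div E h3 h0, oz_mul E hb0 (pow_ne_zero _ ha0), oz_pow, (appr_one_add_neg hr1 ha1).2]
        linarith
      · intro E' hE'
        rw [oz_div E' h3 h0, oz_mul E' hb0 (pow_ne_zero _ ha0), oz_pow]
        rcases Finset.mem_insert.1 hE' with rfl | hE'
        · rw [(appr_one_add_neg hr1 h).2]
          linarith
        · have h1 := ha2 E' hE'
          have h2 := hr E' hE'
          rw [(appr_one_add_pos hr1 h1).2]
          nlinarith

private theorem appr_idem {E : Place K} (T : Finset (Place K)) (hT : E ∉ T) (n : ℕ) :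
    ∃ e : K, ((n : ℤ) : WithTop ℤ) ≤ E.ord (e - 1) ∧ ∀ E' ∈ T, ((n : ℤ) : WithTop ℤ) ≤ E'.ord e := by
  obtain ⟨s, hs0, hs1, hs2⟩ := exists_sep T hT
  have hr : 1 ≤ n + 1 := by omega
  have h0 := appr_one_add_neg hr hs1
  have hc : (((n + 1 : ℕ)) : ℤ) = n + 1 := by push_cast; ring
  refine ⟨s ^ (n + 1) / (1 + s ^ (n + 1)), ?_, ?_⟩
  · have h1 : s ^ (n + 1) / (1 + s ^ (n + 1)) - 1 = -(1 + s ^ (n + 1))⁻¹ := by
      have := h0.1
      field_simp
      ring
    rw [h1, le_ord_iff]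
    right
    rw [oz_neg, oz_inv, h0.2, hc]
    nlinarith
  · intro E' hE'
    have h2 := hs2 E' hE'
    rw [le_ord_iff]
    right
    rw [oz_div E' (pow_ne_zero _ hs0) h0.1, oz_pow, (appr_one_add_pos hr h2).2, hc]
    nlinarith

/-- weak approximation -/
theorem approx (T : Finset (Place K)) (g : Place K → K) (n : ℤ) : ∃ f : K, ∀ E ∈ T, (n : WithTop ℤ) ≤ E.ord (f - g E) := by
  classical
  let N : ℕ := n.natAbs + ∑ E ∈ T, ∑ E' ∈ T, (oz E' (g E)).natAbs
  have hN : ∀ E ∈ T, ∀ E' ∈ T, n - oz E' (g E) ≤ (N : ℤ) := by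
    intro E hE E' hE'
    have h1 : (oz E' (g E)).natAbs ≤ ∑ E' ∈ T, (oz E' (g E)).natAbs :=
      Finset.single_le_sum (f := fun E' : Place K => (oz E' (g E)).natAbs) (fun _ _ => Nat.zero_le _) hE'
    have h2 : ∑ E' ∈ T, (oz E' (g E)).natAbs ≤ ∑ E ∈ T, ∑ E' ∈ T, (oz E' (g E)).natAbs :=
      Finset.single_le_sum (f := fun E : Place K => ∑ E' ∈ T, (oz E' (g E)).natAbs) (fun _ _ => Nat.zero_le _) hE
    have h3 : n.natAbs + (oz E' (g E)).natAbs ≤ N := Nat.add_le_add_left (h1.trans h2) _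
    omega
  have hex : ∀ E : Place K, ∃ e : K, ((N : ℤ) : WithTop ℤ) ≤ E.ord (e - 1) ∧
      ∀ E' ∈ T.erase E, ((N : ℤ) : WithTop ℤ) ≤ E'.ord e := fun E =>
    appr_idem (T.erase E) (Finset.notMem_erase E T) N
  choose e he1 he2 using hex
  have hmul : ∀ E ∈ T, ∀ E' ∈ T, ∀ x : K, ((N : ℤ) : WithTop ℤ) ≤ E'.ord x →
      (n : WithTop ℤ) ≤ E'.ord (g E * x) := by
    intro E hE E' hE' x hx
    rw [le_ord_iff] at hx ⊢
    by_cases hg : g E = 0
    · left; rw [hg, zero_mul]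
    · rcases hx with hx | hx
      · left; rw [hx, mul_zero]
      · by_cases hx0 : x = 0
        · left; rw [hx0, mul_zero]
        · right
          rw [oz_mul E' hg hx0]
          have := hN E hE E' hE'
          omega
  refine ⟨∑ E ∈ T, g E * e E, fun E' hE' => ?_⟩
  have h1 : (∑ E ∈ T, g E * e E) - g E' = g E' * (e E' - 1) + ∑ E ∈ T.erase E', g E * e E := by
    rw [← Finset.add_sum_erase T (fun E => g E * e E) hE']
    ring
  rw [h1]
  refine le_trans (le_min (hmul E' hE' E' hE' _ (he1 E')) ?_) (E'.ord.map_add _ _)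
  refine E'.ord.map_le_sum fun E hE => ?_
  exact hmul E (Finset.mem_of_mem_erase hE) E' hE' _
    (he2 E E' (Finset.mem_erase.2 ⟨(Finset.ne_of_mem_erase hE).symm, hE'⟩))

/-- functions with given orders at finitely many places -/
theorem exists_orders (T : Finset (Place K)) (d : Place K → ℤ) (hT : T.Nonempty) : ∃ f : K, f ≠ 0 ∧ ∀ E ∈ T, oz E f = d E := by
  classical
  choose t ht0 ht using fun E : Place K => exists_uni E
  obtain ⟨f, hf⟩ := approx T (fun E => t E ^ d E) (1 + ∑ E ∈ T, ((d E).natAbs : ℤ))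
  have key : ∀ E ∈ T, f ≠ 0 ∧ oz E f = d E := by
    intro E hE
    have h1 : ((d E).natAbs : ℤ) ≤ ∑ E ∈ T, ((d E).natAbs : ℤ) :=
      Finset.single_le_sum (f := fun E : Place K => ((d E).natAbs : ℤ)) (fun _ _ => by positivity) hE
    have h2 := hf E hE
    rw [le_ord_iff] at h2
    have h3 : t E ^ d E ≠ 0 := zpow_ne_zero _ (ht0 E)
    have h4 : oz E (t E ^ d E) = d E := by rw [oz_zpow, ht, mul_one]
    rcases h2 with h2 | h2
    · have h5 : f = t E ^ d E := sub_eq_zero.1 h2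
      rw [h5]
      exact ⟨h3, h4⟩
    · by_cases h6 : f - t E ^ d E = 0
      · have h5 : f = t E ^ d E := sub_eq_zero.1 h6
        rw [h5]
        exact ⟨h3, h4⟩
      · have h7 : oz E (t E ^ d E) < oz E (f - t E ^ d E) := by
          rw [h4]
          omega
        have h8 := oz_add_of_lt E h3 h6 h7
        rw [add_sub_cancel, h4] at h8
        exact h8
  obtain ⟨E0, hE0⟩ := hT
  exact ⟨f, (key E0 hE0).1, fun E hE => (key E hE).2⟩

end Pool.Agent.H13.CV

end
end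

section

/-!
# CV Rat: the orders of the elements of `L = ℂ(x)`

`mem_L_iff`: `IntermediateField.mem_adjoin_simple_iff`.  `mem_poly_iff`: `Algebra.adjoin_singleton_eq_range_aeval`.
`aeval_ord`: `p = X ^ k * p₁` with `k = p.rootMultiplicity 0` and `p₁.eval 0 ≠ 0` (`Polynomial.exists_eq_pow_rootMultiplicity_mul_and_not_dvd`); if `0 < ord_E x` then the value of `p₁ (x)` at `E` is
`p₁.eval 0 ≠ 0` (`res_aeval` with `res E x = 0`, or directly: `p₁ (x) = p₁ (0) + x * r (x)`), so its order is `0`.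
`exists_zpow`: quotient of two polynomials.
`mem_R`: (⇐) `q (x)` has order `0`.  `exists_residue`: let `c = p (x) / q (x)`, `p, q ≠ 0`, with `p = X ^ a * p₁`, `q = X ^ b * q₁`, `p₁ (0), q₁ (0) ≠ 0`; at a place over `x = 0` (it exists by assumption):
`0 ≤ (a - b) * ord x`, so `b ≤ a` and `c = X ^ (a - b) p₁ / q₁ (x)`: a quotient `p₂ (x) / q₁ (x)` with `q₁ (0) ≠ 0`.  `γ = p₂ (0) / q₁ (0)`; the polynomial `p₂ - γ q₁` has value `0` at `0`, so it is
`X * r`, and `c = γ + x * r (x) / q₁ (x)`.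
`poly_inf`: `c = p (x)`, `p ≠ 0` of degree `d`: at a place `E` with `ord x < 0`: `oz E (p (x)) = d * oz E x` (highest term), so `0 ≤ (k + d) * oz E x` and `k = d = 0`.
`regLoc_div_of_pos`, `regLoc_of_nonneg`: `exists_zpow`.
-/

set_option autoImplicit false

open Pool.Agent.H23.Fano (PrimeDivisorOver Form regularForms)

noncomputable section

namespace Pool.Agent.H13.CV

variable {K : Type} [Field K] [Algebra ℂ K] {L : IntermediateField ℂ K} {x : K}

theorem mem_L_iff (hL : Gen L x) {c : K} : c ∈ L ↔ ∃ p q : Polynomial ℂ, q ≠ 0 ∧ c = Polynomial.aeval x p / Polynomial.aeval x q := by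
  rw [hL.eq, IntermediateField.mem_adjoin_simple_iff]
  constructor
  · rintro ⟨p, q, h⟩
    by_cases hq : q = 0
    · refine ⟨0, 1, one_ne_zero, ?_⟩
      rw [h, hq]
      simp
    · exact ⟨p, q, hq, h⟩
  · rintro ⟨p, q, -, h⟩
    exact ⟨p, q, h⟩

theorem mem_poly_iff {c : K} : c ∈ Algebra.adjoin ℂ {x} ↔ ∃ p : Polynomial ℂ, c = Polynomial.aeval x p := by
  rw [Algebra.adjoin_singleton_eq_range_aeval]
  constructor
  · rintro ⟨p, hp⟩
    exact ⟨p, hp.symm⟩
  · rintro ⟨p, hp⟩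
    exact ⟨p, hp.symm⟩

theorem poly_le_L (hL : Gen L x) {c : K} (hc : c ∈ Algebra.adjoin ℂ {x}) : c ∈ L := by
  rw [hL.eq]
  exact IntermediateField.algebra_adjoin_le_adjoin ℂ {x} hc

private theorem ord_aeval_zero' {p : Polynomial ℂ} (hp : p.eval 0 ≠ 0) {E : Place K} (hE : 0 < E.ord x) : E.ord (Polynomial.aeval x p) = 0 := by
  have h0 : 0 ≤ E.ord (Polynomial.aeval x p) := nonneg_aeval hE.le p
  refine le_antisymm (not_lt.mp fun h => ?_) h0
  have h1 : Polynomial.X * p.divX + Polynomial.C (p.coeff 0) = p := Polynomial.X_mul_divX_add p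
  have h2 : Polynomial.aeval x p = x * Polynomial.aeval x p.divX + algebraMap ℂ K (p.coeff 0) := by
    conv_lhs => rw [← h1]
    rw [map_add, map_mul, Polynomial.aeval_X, Polynomial.aeval_C]
  have h3 : algebraMap ℂ K (p.coeff 0) = Polynomial.aeval x p - x * Polynomial.aeval x p.divX := by
    rw [h2]; ring
  have h4 : 0 < E.ord (algebraMap ℂ K (p.coeff 0)) := by
    rw [h3]
    exact pos_sub h (pos_mul hE (nonneg_aeval hE.le _))
  rw [Polynomial.coeff_zero_eq_eval_zero, ord_const E hp] at h4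
  exact lt_irrefl _ h4

private theorem ne_zero_of_ord_eq_zero {f : K} {E : Place K} (h : E.ord f = 0) : f ≠ 0 := by
  intro hf
  rw [hf, E.ord.map_zero] at h
  exact absurd h (by simp)

private theorem oz_of_ord_eq_zero {f : K} {E : Place K} (h : E.ord f = 0) : oz E f = 0 := by
  have h1 := coe_oz E (ne_zero_of_ord_eq_zero h)
  rw [h] at h1
  exact_mod_cast h1

private theorem factor {p : Polynomial ℂ} (hp : p ≠ 0) : ∃ p₁ : Polynomial ℂ, p = Polynomial.X ^ p.rootMultiplicity 0 * p₁ ∧ p₁.eval 0 ≠ 0 := by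
  obtain ⟨q, h1, h2⟩ := Polynomial.exists_eq_pow_rootMultiplicity_mul_and_not_dvd p hp 0
  refine ⟨q, ?_, ?_⟩
  · simpa using h1
  · intro h
    exact h2 (Polynomial.dvd_iff_isRoot.mpr h)

theorem aeval_ord {p : Polynomial ℂ} (hp : p ≠ 0) {E : Place K} (hE : 0 < E.ord x) (hx : x ≠ 0) :
    oz E (Polynomial.aeval x p) = p.rootMultiplicity 0 * oz E x := by
  obtain ⟨q, h1, h2⟩ := factor hp
  have h3 : Polynomial.aeval x p = x ^ p.rootMultiplicity 0 * Polynomial.aeval x q := by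
    conv_lhs => rw [h1]
    rw [map_mul, map_pow, Polynomial.aeval_X]
  have h4 := ord_aeval_zero' h2 hE
  rw [h3, oz_mul E (pow_ne_zero _ hx) (ne_zero_of_ord_eq_zero h4), oz_pow, oz_of_ord_eq_zero h4, add_zero]

theorem ord_aeval_zero {p : Polynomial ℂ} (hp : p.eval 0 ≠ 0) {E : Place K} (hE : 0 < E.ord x) : E.ord (Polynomial.aeval x p) = 0 :=
  ord_aeval_zero' hp hE

private theorem aeval_ne_zero (hL : Gen L x) {p : Polynomial ℂ} (hp : p ≠ 0) : Polynomial.aeval x p ≠ 0 :=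
  fun h => hp (transcendental_iff.mp hL.tr p h)

private theorem oz_pos {E : Place K} (hx : x ≠ 0) (hE : 0 < E.ord x) : 0 < oz E x := by
  rcases pos_iff.mp hE with h | h
  · exact absurd h hx
  · exact h

/-- the elements of `ℂ(x)` have orders proportional to the order of `x` at the places over `x = 0` -/
theorem exists_zpow (hL : Gen L x) {c : K} (hc : c ∈ L) (hc0 : c ≠ 0) : ∃ k : ℤ, ∀ E : Place K, 0 < E.ord x → oz E c = k * oz E x := by
  obtain ⟨p, q, hq, h⟩ := (mem_L_iff hL).mp hc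
  have hp : p ≠ 0 := by
    rintro rfl
    apply hc0
    rw [h]
    simp
  refine ⟨(p.rootMultiplicity 0 : ℤ) - (q.rootMultiplicity 0 : ℤ), fun E hE => ?_⟩
  rw [h, oz_div E (aeval_ne_zero hL hp) (aeval_ne_zero hL hq), aeval_ord hp hE hL.ne_zero, aeval_ord hq hE hL.ne_zero]
  ring

theorem regLoc_div {p q : Polynomial ℂ} (hq : q.eval 0 ≠ 0) : RegLoc x (Polynomial.aeval x p / Polynomial.aeval x q) := by
  intro E hE
  have h1 := ord_aeval_zero hq hE
  rw [div_eq_mul_inv]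
  refine nonneg_mul (nonneg_aeval hE.le p) ?_
  rw [ord_inv E (ne_zero_of_ord_eq_zero h1), oz_of_ord_eq_zero h1]
  simp

/-- the residue of an element of the local ring of `ℂ(x)` at `x = 0` -/
theorem exists_residue (hL : Gen L x) (hex : ∃ E : Place K, 0 < E.ord x) {c : K} (hc : c ∈ L) (h : RegLoc x c) :
    ∃ (γ : ℂ) (c' : K), c' ∈ L ∧ RegLoc x c' ∧ c = algebraMap ℂ K γ + x * c' := by
  by_cases hc0 : c = 0
  · refine ⟨0, 0, L.zero_mem, fun E _ => ?_, ?_⟩
    · rw [E.ord.map_zero]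
      exact le_top
    · rw [hc0]
      simp
  obtain ⟨E, hE⟩ := hex
  obtain ⟨p, q, hq, hpq⟩ := (mem_L_iff hL).mp hc
  have hp : p ≠ 0 := by
    rintro rfl
    apply hc0
    rw [hpq]
    simp
  have hx := hL.ne_zero
  have hxo := oz_pos hx hE
  have hb : q.rootMultiplicity 0 ≤ p.rootMultiplicity 0 := by
    have h1 : 0 ≤ oz E c := by
      rcases nonneg_iff.mp (h E hE) with h2 | h2
      · exact absurd h2 hc0
      · exact h2
    rw [hpq, oz_div E (aeval_ne_zero hL hp) (aeval_ne_zero hL hq), aeval_ord hp hE hx, aeval_ord hq hE hx, ← sub_mul] at h1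
    have h3 : (0 : ℤ) ≤ (p.rootMultiplicity 0 : ℤ) - (q.rootMultiplicity 0 : ℤ) := by
      by_contra h4
      push Not at h4
      have h5 := mul_neg_of_neg_of_pos h4 hxo
      omega
    omega
  obtain ⟨p₁, hp1, hp0⟩ := factor hp
  obtain ⟨q₁, hq1, hq0⟩ := factor hq
  obtain ⟨m, hm⟩ := Nat.exists_eq_add_of_le hb
  set p₂ : Polynomial ℂ := Polynomial.X ^ m * p₁ with hp2
  have hq1ne : q₁ ≠ 0 := by
    rintro rfl
    simp at hq0
  have hc2 : c = Polynomial.aeval x p₂ / Polynomial.aeval x q₁ := by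
    have e1 : Polynomial.aeval x p = x ^ q.rootMultiplicity 0 * Polynomial.aeval x p₂ := by
      conv_lhs => rw [hp1]
      rw [hm, hp2, map_mul, map_pow, map_mul, map_pow, Polynomial.aeval_X, pow_add, mul_assoc]
    have e2 : Polynomial.aeval x q = x ^ q.rootMultiplicity 0 * Polynomial.aeval x q₁ := by
      conv_lhs => rw [hq1]
      rw [map_mul, map_pow, Polynomial.aeval_X]
    rw [hpq, e1, e2, mul_div_mul_left _ _ (pow_ne_zero _ hx)]
  set γ : ℂ := p₂.eval 0 / q₁.eval 0 with hγ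
  set s : Polynomial ℂ := p₂ - Polynomial.C γ * q₁ with hs
  have hs0 : s.coeff 0 = 0 := by
    rw [Polynomial.coeff_zero_eq_eval_zero, hs, Polynomial.eval_sub, Polynomial.eval_C_mul, hγ, div_mul_cancel₀ _ hq0, sub_self]
  have hs1 : s = Polynomial.X * s.divX := by
    have h1 := Polynomial.X_mul_divX_add s
    rw [hs0, Polynomial.C_0, add_zero] at h1
    exact h1.symm
  refine ⟨γ, Polynomial.aeval x s.divX / Polynomial.aeval x q₁, (mem_L_iff hL).mpr ⟨s.divX, q₁, hq1ne, rfl⟩, regLoc_div hq0, ?_⟩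
  have hs2 : Polynomial.aeval x s = x * Polynomial.aeval x s.divX := by
    conv_lhs => rw [hs1]
    rw [map_mul, Polynomial.aeval_X]
  have hs3 : Polynomial.aeval x s = Polynomial.aeval x p₂ - algebraMap ℂ K γ * Polynomial.aeval x q₁ := by
    rw [hs, map_sub, map_mul (Polynomial.aeval x) (Polynomial.C γ) q₁, Polynomial.aeval_C]
  have hq2 := aeval_ne_zero hL hq1ne
  rw [hc2, mul_div_assoc', ← hs2, hs3, sub_div, mul_div_assoc, div_self hq2, mul_one]
  ring

/-- an element of the local ring which vanishes at one place over `x = 0` is divisible by `x` -/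
theorem regLoc_div_of_pos (hL : Gen L x) {c : K} (hc : c ∈ L) {E : Place K} (hE : 0 < E.ord x) (h : 0 < E.ord c) : RegLoc x (c / x) := by
  intro E' hE'
  by_cases hc0 : c = 0
  · rw [hc0, zero_div, E'.ord.map_zero]
    exact le_top
  obtain ⟨k, hk⟩ := exists_zpow hL hc hc0
  have hx := hL.ne_zero
  have h1 := oz_pos hx hE
  have h2 := oz_pos hx hE'
  have h3 := oz_pos hc0 h
  rw [hk E hE] at h3
  have hk0 : 0 < k := by
    by_contra h4
    push Not at h4
    have h5 := mul_nonpos_of_nonpos_of_nonneg h4 h1.le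
    omega
  refine nonneg_iff.mpr (Or.inr ?_)
  rw [oz_div E' hc0 hx, hk E' hE']
  have h6 : k * oz E' x - oz E' x = (k - 1) * oz E' x := by ring
  rw [h6]
  exact mul_nonneg (by omega) h2.le

private theorem oz_aeval_of_neg {p : Polynomial ℂ} (hp : p ≠ 0) (hx : x ≠ 0) {E : Place K} (hE : E.ord x < 0) :
    Polynomial.aeval x p ≠ 0 ∧ oz E (Polynomial.aeval x p) = p.natDegree * oz E x := by
  let _ : Invertible x := invertibleOfNonzero hx
  have h1 : Polynomial.aeval x⁻¹ p.reverse * x ^ p.natDegree = Polynomial.aeval x p := by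
    have h2 := Polynomial.eval₂_reverse_mul_pow (algebraMap ℂ K) x p
    rw [invOf_eq_inv] at h2
    exact h2
  have h3 : 0 < E.ord x⁻¹ := (inv_pos_iff hx).mpr hE
  have h4 : p.reverse.eval 0 ≠ 0 := by
    rw [← Polynomial.coeff_zero_eq_eval_zero, Polynomial.coeff_zero_reverse]
    exact Polynomial.leadingCoeff_ne_zero.mpr hp
  have h5 := ord_aeval_zero h4 h3
  have h6 := ne_zero_of_ord_eq_zero h5
  rw [← h1]
  refine ⟨mul_ne_zero h6 (pow_ne_zero _ hx), ?_⟩
  rw [oz_mul E h6 (pow_ne_zero _ hx), oz_of_ord_eq_zero h5, oz_pow, zero_add]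

/-- a polynomial in `x` which is `x ^ (-k)` times a function regular at `x = ∞` -/
theorem poly_inf (hL : Gen L x) (hex : ∃ E : Place K, E.ord x < 0) {c : K} (hc : c ∈ Algebra.adjoin ℂ {x}) {k : ℕ} (h : RegLoc x⁻¹ (x ^ k * c)) :
    (1 ≤ k → c = 0) ∧ ∃ γ : ℂ, c = algebraMap ℂ K γ := by
  obtain ⟨E, hE⟩ := hex
  obtain ⟨p, rfl⟩ := mem_poly_iff.mp hc
  have hx := hL.ne_zero
  by_cases hp : p = 0
  · rw [hp, map_zero]
    exact ⟨fun _ => rfl, 0, by simp⟩
  obtain ⟨h1, h2⟩ := oz_aeval_of_neg hp hx hE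
  have h3 := h E ((inv_pos_iff hx).mpr hE)
  have h4 : oz E x < 0 := neg_iff.mp hE
  have h5 : 0 ≤ oz E (x ^ k * Polynomial.aeval x p) := by
    rcases nonneg_iff.mp h3 with h6 | h6
    · exact absurd h6 (mul_ne_zero (pow_ne_zero _ hx) h1)
    · exact h6
  rw [oz_mul E (pow_ne_zero _ hx) h1, oz_pow, h2, ← add_mul] at h5
  have h7 : (k : ℤ) + (p.natDegree : ℤ) ≤ 0 := by
    by_contra h8
    push Not at h8
    have h9 := mul_neg_of_pos_of_neg h8 h4
    omega
  refine ⟨fun hk => ?_, p.coeff 0, ?_⟩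
  · exfalso
    omega
  · have h8 : p.natDegree = 0 := by omega
    conv_lhs => rw [Polynomial.eq_C_of_natDegree_eq_zero h8]
    rw [Polynomial.aeval_C]

end Pool.Agent.H13.CV

end
end

section

/-!
# CV FinPl: finitely many places over `x = 0`

`sum_le`: let `e E = oz E x > 0` for `E ∈ T`.  By `exists_orders` (applied to `T`, with `d E = j` and `d E' = e E'` for `E' ≠ E`) there are functions `f E j`, `E ∈ T`, `j < e E`, with `oz E (f E j) = j`,
`oz E' (f E j) = e E'` for `E' ∈ T`, `E' ≠ E`.  They are linearly independent over `L`: let `∑ c E j • f E j = 0`, not all `c E j = 0`.  For the `c E j ≠ 0` let `k E j` be as in `exists_zpow`, and let `k₀`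
be the minimum of them; multiply by `x ^ (- k₀)`: so we may assume that `k₀ = 0`, all `k E j ≥ 0`.  Let `(E, j)` have `c E j ≠ 0`, `k E j = 0`, and `j` minimal for this `E`.  Look at the orders at `E`:
the term `(E, j)` has order `j < e E`; the terms `(E, i)` with `i ≠ j`, `c E i ≠ 0` have order `k E i * e E + i > j` (`i > j` or `k E i ≥ 1`); the terms `(E', i)`, `E' ≠ E`, have order
`≥ e E > j`.  So the sum of the other terms has order `> j` (or is `0`) and the total sum has order `j`: contradiction.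
The number of these functions is `∑ E ∈ T, e E`, so it is `≤ finrank L K` (`LinearIndependent.fintype_card_le_finrank`, index type a sigma type `Σ E : T, Fin (oz E x).toNat`, or a finset of pairs).

`finite_over`: otherwise there is a set `T` with more than `finrank L K` elements, and all `oz E x ≥ 1`.  `finite_poles`: if `f` has a pole then it is transcendental (`tr_of_pole`), apply
`finite_over` to `f⁻¹` and `L = ℂ(f⁻¹)`.  `finite_supp`: the zeros of `f` are the poles of `f⁻¹`.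
-/

set_option autoImplicit false

open Pool.Agent.H23.Fano (PrimeDivisorOver Form regularForms)

noncomputable section

namespace Pool.Agent.H13.CV

variable {K : Type} [Field K] [Algebra ℂ K] {L : IntermediateField ℂ K} {x : K}

/-- the order of a product with an element of `ℂ(x)` -/
private theorem finPl_ord (E : Place K) {a b : K} (ha : a ≠ 0) (hb : b ≠ 0) {m n : ℤ}
    (h1 : oz E a = m) (h2 : oz E b = n) : E.ord (a * b) = ((m + n : ℤ) : WithTop ℤ) := by
  rw [← coe_oz E (mul_ne_zero ha hb), oz_mul E ha hb, h1, h2]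

theorem sum_le (hL : Gen L x) [FiniteDimensional L K] (T : Finset (Place K)) (hT : ∀ E ∈ T, 0 < E.ord x) :
    ∑ E ∈ T, oz E x ≤ (Module.finrank L K : ℤ) := by
  classical
  have hx := hL.ne_zero
  have he : ∀ E ∈ T, 0 < oz E x := fun E hE => (pos_iff.1 (hT E hE)).resolve_left hx
  -- the functions
  have hf : ∀ i : (Σ E : {E // E ∈ T}, Fin (oz E.1 x).toNat), ∃ f : K, f ≠ 0 ∧
      oz i.1.1 f = ((i.2 : ℕ) : ℤ) ∧ ∀ E' ∈ T, E' ≠ i.1.1 → oz E' f = oz E' x := by
    intro i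
    obtain ⟨f, hf0, hf1⟩ := exists_orders T
      (fun E' => if E' = i.1.1 then ((i.2 : ℕ) : ℤ) else oz E' x) ⟨i.1.1, i.1.2⟩
    refine ⟨f, hf0, ?_, fun E' hE' hne => ?_⟩
    · rw [hf1 _ i.1.2, if_pos rfl]
    · rw [hf1 _ hE', if_neg hne]
  choose f hf0 hf1 hf2 using hf
  have hli : LinearIndependent L f := by
    rw [Fintype.linearIndependent_iff]
    intro c hc
    by_contra hcon
    push Not at hcon
    obtain ⟨i₁, hi₁⟩ := hcon
    -- the exponents
    have hk : ∀ i, ∃ k : ℤ, c i ≠ 0 → ∀ E : Place K, 0 < E.ord x →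
        oz E (c i : K) = k * oz E x := by
      intro i
      by_cases h : c i = 0
      · exact ⟨0, fun h1 => absurd h h1⟩
      · obtain ⟨k, hk⟩ := exists_zpow hL (c i).2 (fun h1 => h (Subtype.ext h1))
        exact ⟨k, fun _ => hk⟩
    choose k hk using hk
    set S : Finset (Σ E : {E // E ∈ T}, Fin (oz E.1 x).toNat) :=
      Finset.univ.filter fun i => c i ≠ 0 with hS
    have hS1 : S.Nonempty := ⟨i₁, by rw [hS, Finset.mem_filter]; exact ⟨Finset.mem_univ _, hi₁⟩⟩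
    obtain ⟨i₂, hi₂, hmin₂⟩ := Finset.exists_min_image S k hS1
    obtain ⟨i₀, hi₀, hmin₀⟩ := Finset.exists_min_image (S.filter fun i => k i = k i₂)
      (fun i => (i.2 : ℕ)) ⟨i₂, by rw [Finset.mem_filter]; exact ⟨hi₂, rfl⟩⟩
    rw [Finset.mem_filter] at hi₀
    obtain ⟨hi₀S, hk₀⟩ := hi₀
    have hc0 : c i₀ ≠ 0 := by
      rw [hS, Finset.mem_filter] at hi₀S
      exact hi₀S.2
    have hcK : ∀ i, c i ≠ 0 → (c i : K) ≠ 0 := fun i h h1 => h (Subtype.ext h1)
    have hE0 : 0 < i₀.1.1.ord x := hT _ i₀.1.2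
    have hord0 : i₀.1.1.ord ((c i₀ : K) * f i₀) =
        ((k i₀ * oz i₀.1.1 x + ((i₀.2 : ℕ) : ℤ) : ℤ) : WithTop ℤ) :=
      finPl_ord _ (hcK _ hc0) (hf0 _) (hk _ hc0 _ hE0) (hf1 _)
    have hj0 : ((i₀.2 : ℕ) : ℤ) < oz i₀.1.1 x := by
      have h1 := i₀.2.2
      omega
    have hothers : ∀ i ∈ Finset.univ.erase i₀,
        i₀.1.1.ord ((c i₀ : K) * f i₀) < i₀.1.1.ord ((c i : K) * f i) := by
      intro i hi
      rw [Finset.mem_erase] at hi
      by_cases hci : c i = 0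
      · rw [hci, hord0]
        simp only [ZeroMemClass.coe_zero, zero_mul, AddValuation.map_zero]
        exact WithTop.coe_lt_top _
      · have hiS : i ∈ S := by
          rw [hS, Finset.mem_filter]
          exact ⟨Finset.mem_univ _, hci⟩
        have hki : k i₀ ≤ k i := by
          rw [hk₀]
          exact hmin₂ i hiS
        have hepos := he _ i₀.1.2
        by_cases hEi : i.1 = i₀.1
        · obtain ⟨Ei, ji⟩ := i
          simp only at hEi
          subst hEi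
          have h1 := finPl_ord i₀.1.1 (hcK _ hci) (hf0 _) (hk _ hci _ hE0)
            (hf1 (⟨i₀.1, ji⟩ : Σ E : {E // E ∈ T}, Fin (oz E.1 x).toNat))
          rw [hord0, h1, WithTop.coe_lt_coe]
          simp only
          rcases lt_or_eq_of_le hki with h2 | h2
          · have h3 : (k i₀ + 1) * oz i₀.1.1 x ≤ k ⟨i₀.1, ji⟩ * oz i₀.1.1 x :=
              mul_le_mul_of_nonneg_right (by omega) hepos.le
            have h4 : (k i₀ + 1) * oz i₀.1.1 x = k i₀ * oz i₀.1.1 x + oz i₀.1.1 x := by ring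
            have h5 : (0 : ℤ) ≤ ((ji : ℕ) : ℤ) := Int.natCast_nonneg _
            linarith
          · have h3 := hmin₀ ⟨i₀.1, ji⟩ (by
              rw [Finset.mem_filter]
              exact ⟨hiS, by rw [← h2, hk₀]⟩)
            simp only at h3
            have h4 : (i₀.2 : ℕ) ≠ (ji : ℕ) := by
              intro h5
              apply hi.1
              have h6 : ji = i₀.2 := Fin.ext h5.symm
              rw [h6]
            have h5 : (i₀.2 : ℕ) < (ji : ℕ) := lt_of_le_of_ne h3 h4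
            have h6 : ((i₀.2 : ℕ) : ℤ) < ((ji : ℕ) : ℤ) := by exact_mod_cast h5
            rw [← h2]
            linarith
        · have hne : i₀.1.1 ≠ i.1.1 := fun h => hEi (Subtype.ext h.symm)
          have h1 := finPl_ord i₀.1.1 (hcK _ hci) (hf0 i) (hk _ hci _ hE0)
            (hf2 i _ i₀.1.2 hne)
          rw [hord0, h1, WithTop.coe_lt_coe]
          have h3 : k i₀ * oz i₀.1.1 x ≤ k i * oz i₀.1.1 x :=
            mul_le_mul_of_nonneg_right hki hepos.le
          linarith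
    have hg : i₀.1.1.ord ((c i₀ : K) * f i₀) ≠ ⊤ := by
      rw [hord0]
      exact WithTop.coe_ne_top
    have hlt := AddValuation.map_lt_sum (v := i₀.1.1.ord) hg hothers
    have hsum : (c i₀ : K) * f i₀ + ∑ i ∈ Finset.univ.erase i₀, (c i : K) * f i = 0 := by
      rw [Finset.add_sum_erase _ (fun i => (c i : K) * f i) (Finset.mem_univ i₀)]
      exact hc
    have hneg : ∑ i ∈ Finset.univ.erase i₀, (c i : K) * f i = -((c i₀ : K) * f i₀) :=
      eq_neg_of_add_eq_zero_right hsum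
    rw [hneg, AddValuation.map_neg] at hlt
    exact lt_irrefl _ hlt
  have hcard := hli.fintype_card_le_finrank
  rw [Fintype.card_sigma] at hcard
  simp only [Fintype.card_fin] at hcard
  have h1 : ∑ E ∈ T, oz E x = ((∑ E : {E // E ∈ T}, (oz E.1 x).toNat : ℕ) : ℤ) := by
    rw [Nat.cast_sum, ← Finset.sum_coe_sort T (fun E => oz E x)]
    refine Finset.sum_congr rfl fun E _ => ?_
    rw [Int.toNat_of_nonneg (he E.1 E.2).le]
  rw [h1]
  exact_mod_cast hcard

theorem finite_over (hL : Gen L x) [FiniteDimensional L K] : {E : Place K | 0 < E.ord x}.Finite := by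
  by_contra hinf
  obtain ⟨T, hT, hcard⟩ := (Set.not_finite.1 hinf).exists_subset_card_eq (Module.finrank L K + 1)
  have h1 := sum_le hL T (fun E hE => hT hE)
  have hx := hL.ne_zero
  have h2 : ∀ E ∈ T, (1 : ℤ) ≤ oz E x := fun E hE => (pos_iff.1 (hT hE)).resolve_left hx
  have h3 := Finset.sum_le_sum h2
  rw [Finset.sum_const, nsmul_eq_mul, mul_one, hcard] at h3
  push_cast at h3
  linarith

theorem finite_poles (hK : CurveField K) (f : K) : {E : Place K | E.ord f < 0}.Finite := by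
  by_cases hne : ∃ E : Place K, E.ord f < 0
  · obtain ⟨E, hE⟩ := hne
    have htr := tr_of_pole hE
    have hL : Gen (IntermediateField.adjoin ℂ {f}) f := ⟨htr, rfl⟩
    have hfd : FiniteDimensional (IntermediateField.adjoin ℂ {f}) K := hK.fin f htr
    have h1 := finite_over hL.inv
    refine h1.subset fun E' hE' => ?_
    exact (inv_pos_iff hL.ne_zero).2 hE'
  · push Not at hne
    have h1 : {E : Place K | E.ord f < 0} = ∅ :=
      Set.eq_empty_of_forall_notMem fun E hE => absurd hE (not_lt.2 (hne E))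
    rw [h1]
    exact Set.finite_empty

end Pool.Agent.H13.CV

end
end

section

/-!
# CV DedeA: the functions regular where `x` is regular are integral over `ℂ[x]`

Let `A = Algebra.adjoin ℂ {x}` (isomorphic to `ℂ[X]`, so a principal ideal ring, hence integrally closed), `L = ℂ(x)` its fraction field, `C = integralClosure A K`: a Dedekind domain with fraction field `K`
(`integralClosure.isDedekindDomain A L K`, `integralClosure.isFractionRing_of_finite_extension`; or set up with `A = Polynomial ℂ` and `Algebra (Polynomial ℂ) K` given by `aeval x`).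
If `f ∈ K` is not in `C` then there is a height one prime `v` of `C` with `v.valuation K f > 1` (`IsDedekindDomain.HeightOneSpectrum.mem_integers_of_valuation_le_one`).  The valuation `v.valuation K` takes the values
in `ℤᵐ⁰`, it is surjective (`IsDedekindDomain.HeightOneSpectrum.valuation_exists_uniformizer`), it is `≤ 1` on `C` (so `0 ≤ ord` of `x` and of the constants).  Its additive form
`Pool.Agent.H62.FC.Place_add` (`Pool/Agent/H62/FC/Place.lean`: `Place_phi_exp`, `Place_phi_nonneg_iff`, `Place_add_apply`) gives the place; `residue_trdeg`: `Fin 0`: the polynomials in no variables are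
constants, which are units (`ord (aeval s p) = ord (algebraMap c) = 0` for `c ≠ 0`: `ord c ≥ 0` and `ord c⁻¹ ≥ 0`).
Conversely (`nonneg_of_isIntegral`): if `f` satisfies a monic equation with coefficients of order `≥ 0` and `ord f < 0` then `f ^ n` has order `n * oz f`, and the other terms have order `≥ (n - 1) * oz f`.
-/

set_option autoImplicit false

open Pool.Agent.H23.Fano (PrimeDivisorOver Form regularForms)

noncomputable section

namespace Pool.Agent.H13.CV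

variable {K : Type} [Field K] [Algebra ℂ K] {L : IntermediateField ℂ K} {x : K}

private theorem DedeA_pid (x : K) : IsPrincipalIdealRing (Algebra.adjoin ℂ {x}) := by
  have hr : ∀ a : Algebra.adjoin ℂ {x}, ∃ p : Polynomial ℂ, (a : K) = Polynomial.aeval x p := fun a => by
    exact (mem_poly_iff (x := x)).1 a.2
  let φ : Polynomial ℂ →+* Algebra.adjoin ℂ {x} :=
    (Polynomial.aeval (⟨x, Algebra.self_mem_adjoin_singleton ℂ x⟩ : Algebra.adjoin ℂ {x})).toRingHom
  have hφ : ∀ p : Polynomial ℂ, ((φ p : Algebra.adjoin ℂ {x}) : K) = Polynomial.aeval x p := fun p =>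
    (Polynomial.aeval_algebraMap_apply K (⟨x, Algebra.self_mem_adjoin_singleton ℂ x⟩ : Algebra.adjoin ℂ {x}) p).symm
  refine IsPrincipalIdealRing.of_surjective φ fun a => ?_
  obtain ⟨p, hp⟩ := hr a
  exact ⟨p, Subtype.ext ((hφ p).trans hp.symm)⟩

open scoped IntermediateField.algebraAdjoinAdjoin in
theorem exists_place_of_not_integral (hL : Gen L x) [FiniteDimensional L K] {f : K} (hf : ¬ IsIntegral (Algebra.adjoin ℂ {x}) f) :
    ∃ E : Place K, 0 ≤ E.ord x ∧ E.ord f < 0 := by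
  obtain ⟨htr, rfl⟩ := hL
  have hpid : IsPrincipalIdealRing (Algebra.adjoin ℂ {x}) := DedeA_pid x
  have hded : IsDedekindDomain (Algebra.adjoin ℂ {x}) := inferInstance
  have hsep : Algebra.IsSeparable (IntermediateField.adjoin ℂ {x}) K :=
    Algebra.IsAlgebraic.isSeparable_of_perfectField
  have hC : IsDedekindDomain (integralClosure (Algebra.adjoin ℂ {x}) K) :=
    integralClosure.isDedekindDomain (Algebra.adjoin ℂ {x}) (IntermediateField.adjoin ℂ {x}) K
  have hfr : IsFractionRing (integralClosure (Algebra.adjoin ℂ {x}) K) K :=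
    integralClosure.isFractionRing_of_finite_extension (IntermediateField.adjoin ℂ {x}) K
  obtain ⟨v, hv⟩ : ∃ v : IsDedekindDomain.HeightOneSpectrum (integralClosure (Algebra.adjoin ℂ {x}) K),
      ¬ v.valuation K f ≤ 1 := by
    by_contra hcon
    push Not at hcon
    obtain ⟨y, hy⟩ := IsDedekindDomain.HeightOneSpectrum.mem_integers_of_valuation_le_one K f hcon
    refine hf ?_
    rw [← hy]
    exact y.2
  have hle : ∀ g : K, IsIntegral (Algebra.adjoin ℂ {x}) g → v.valuation K g ≤ 1 := fun g hg =>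
    v.valuation_le_one (K := K) (⟨g, hg⟩ : integralClosure (Algebra.adjoin ℂ {x}) K)
  have hle' : ∀ g : K, g ∈ Algebra.adjoin ℂ {x} → v.valuation K g ≤ 1 := fun g hg =>
    hle g (isIntegral_algebraMap (R := Algebra.adjoin ℂ {x}) (x := ⟨g, hg⟩))
  have hconst : ∀ c : ℂ, 0 ≤ Pool.Agent.H62.FC.Place_add (v.valuation K) (algebraMap ℂ K c) := fun c => by
    rw [Pool.Agent.H62.FC.Place_add_apply, Pool.Agent.H62.FC.Place_phi_nonneg_iff]
    exact hle' _ (Subalgebra.algebraMap_mem _ c)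
  refine ⟨⟨Pool.Agent.H62.FC.Place_add (v.valuation K), hconst, ?_, ?_⟩, ?_, ?_⟩
  · obtain ⟨π, hπ⟩ := v.valuation_exists_uniformizer K
    refine ⟨π, ?_⟩
    rw [Pool.Agent.H62.FC.Place_add_apply, hπ, Pool.Agent.H62.FC.Place_phi_exp]
    simp
  · refine ⟨fun i => i.elim0, fun i => i.elim0, fun p hp => ?_⟩
    have hemp : IsEmpty (Fin (1 - 1)) := inferInstanceAs (IsEmpty (Fin 0))
    have h1 := MvPolynomial.eq_C_of_isEmpty (σ := Fin (1 - 1)) p
    have hc : MvPolynomial.coeff 0 p ≠ 0 := by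
      intro h0
      apply hp
      rw [h1, h0, map_zero]
    rw [h1, MvPolynomial.aeval_C]
    have h2 := hconst (MvPolynomial.coeff 0 p)
    have h3 := hconst (MvPolynomial.coeff 0 p)⁻¹
    have h4 : Pool.Agent.H62.FC.Place_add (v.valuation K) (algebraMap ℂ K (MvPolynomial.coeff 0 p)) +
        Pool.Agent.H62.FC.Place_add (v.valuation K) (algebraMap ℂ K (MvPolynomial.coeff 0 p)⁻¹) = 0 := by
      rw [← AddValuation.map_mul, ← map_mul, mul_inv_cancel₀ hc, map_one, AddValuation.map_one]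
    refine le_antisymm ?_ h2
    rw [← h4]
    exact le_add_of_nonneg_right h3
  · show 0 ≤ Pool.Agent.H62.FC.Place_add (v.valuation K) x
    rw [Pool.Agent.H62.FC.Place_add_apply, Pool.Agent.H62.FC.Place_phi_nonneg_iff]
    exact hle' x (Algebra.self_mem_adjoin_singleton ℂ x)
  · show Pool.Agent.H62.FC.Place_add (v.valuation K) f < 0
    rw [Pool.Agent.H62.FC.Place_add_apply]
    refine lt_of_not_ge fun h => hv ?_
    exact Pool.Agent.H62.FC.Place_phi_nonneg_iff.1 h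

theorem nonneg_of_isIntegral {f : K} (hf : IsIntegral (Algebra.adjoin ℂ {x}) f) {E : Place K} (hE : 0 ≤ E.ord x) : 0 ≤ E.ord f := by
  have hA : ∀ a : Algebra.adjoin ℂ {x}, (algebraMap (Algebra.adjoin ℂ {x}) K a) ∈ (AddValuation.toValuation E.ord).integer := fun a => by
    obtain ⟨p, hp⟩ := (mem_poly_iff (x := x)).1 a.2
    show 0 ≤ E.ord (a : K)
    rw [hp]
    exact nonneg_aeval hE p
  let φ : Algebra.adjoin ℂ {x} →+* (AddValuation.toValuation E.ord).integer :=
    (algebraMap (Algebra.adjoin ℂ {x}) K).codRestrict (AddValuation.toValuation E.ord).integer hA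
  have h1 : ((algebraMap (AddValuation.toValuation E.ord).integer K).comp φ).IsIntegralElem f := hf
  have h2 : IsIntegral (AddValuation.toValuation E.ord).integer f := h1.of_comp
  have h3 := (Valuation.integer.integers (AddValuation.toValuation E.ord)).mem_of_integral h2
  exact h3

theorem regAff_iff_isIntegral (hL : Gen L x) [FiniteDimensional L K] {f : K} : RegAff x f ↔ IsIntegral (Algebra.adjoin ℂ {x}) f := by
  constructor
  · intro h
    by_contra hcon
    obtain ⟨E, h1, h2⟩ := exists_place_of_not_integral hL hcon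
    exact absurd (h E h1) (not_le.mpr h2)
  · exact fun h E hE => nonneg_of_isIntegral h hE

end Pool.Agent.H13.CV

end
end

section

/-!
# KR GL: gluing the local extensions to a form on the cone

`Ext M t₀ A B φ Φ p`: near `p` the function `Φ` is the analytic extension of
`A (φ) / B (φ) * D3 t₀ (φ, φ_x, φ_y) ^ M`.

* `Ext.unique`: `g = Φ - Φ'` is analytic and `eval (φ u) B * g u = 0` near `p`.  If `g p ≠ 0` then `g ≠ 0` near `p` and
  `eval (φ u) B = 0` near `p`.
* `Ext.comp`: near `p` (`κ u → κ p`): `eval (φ u) B = c^b eval (σ (κ u)) B` (homogeneous of degree `b`; scaling: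
  `MvPolynomial.IsHomogeneous` lemma or `eval₂_of_isHomogeneous` of file `HZ` may be imported),
  `D3_comp`: `D3 t₀ (φ …) = c^3 jac κ D3 t₀ (σ …) (κ u)`.  With `b = a + 3 M + 1`:
  `eval (φ u) B * (c⁻¹ jac^M Φ (κ u)) = c^(b-1) jac^M (eval (σκ) B Φ (κ u)) = c^(b-1) jac^M eval (σκ) A D3^M
   = c^(b - 1 - a - 3 M) eval (φ u) A * D3 t₀ (φ …) ^ M`.
* `exists_om`: for `x ∈ cone P` choose `t, σ` (`hsm`) and `Φ` (`hext`), and
  `Om x v w = Φ 0 * (D3 t x v w / x (t 0) ^ 3) ^ M` (`0` for `x ∉ cone P`).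
  Second clause: `C = Φ 0 / x (t 0) ^ (3 M)`.
  First clause: let `φ p = x`.  `CChart.param`: `φ = c • σ ∘ κ` near `p`, `κ p = 0`, `c p = 1`.  By `Ext.comp`
  `Φ'' u = (c u)⁻¹ * jac κ u ^ M * Φ_x (κ u)` is an extension for `φ`, so by `Ext.unique`
  `Φ p = Φ'' p = jac κ p ^ M * Φ_x 0`.  `D3_comp` (with `s = t`, at `u = p`) and `CChart.D3_eq` (at `0`):
  `D3 t x (d1 φ p) (d2 φ p) = jac κ p * x (t 0) ^ 3`.
* `isForm_om`.  `add_smul`, `det`: from the second clause and `D3_add_smul`, `D3_det`.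
  Claim (*): for `x ∈ cone P` with its chart `t, σ, Φ` (any `CChart` with an extension): for `u` near `0`:
  `Om (σ u) (d1 σ u) (d2 σ u) = Φ u`: the first clause at the points `p` near `0` (`Ext` holds at all nearby points:
  `eventually_eventually_nhds`, `AnalyticAt.eventually_analyticAt`; `nd_near` for the non-degeneracy; `mem_cone`).
  `scale` (`j = 1`, write `c * Om (c x) (c v) (c w) = Om x v w`): by `CChart.tan` `v = a d1 σ 0 + b d2 σ 0 + e x`,
  `w = a' … + b' … + e' x`; by `add_smul` and `det` at `x` and at `c x` (where `c v = a (c d1 σ 0) + …`; note that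
  the second clause gives these rules for all vectors) it is enough to compare
  `Om (c x) (c d1 σ 0) (c d2 σ 0)` and `c⁻¹ Om x (d1 σ 0) (d2 σ 0)`: the first clause for `φ = c • σ`, `p = 0` and its
  extension `c⁻¹ Φ` (`Ext.comp` with `κ = id`).  (`jac id = 1`.)
  `analytic`: let `φ` be analytic at `p` with values in `cone P`, `x = φ p`, chart `t, σ, Φ` at `x`, `φ = c • σ ∘ κ` near `p`
  (`param`).  For `u` near `p` let `c = c u ≠ 0`, `y = σ (κ u) ∈ cone P`, `v₁ = d1 σ (κ u)`, `v₂ = d2 σ (κ u)` (tangent at `y` by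
  `tan_d1`, `tan_d2`).  `d1_smul_comp`, `d2_smul_comp`: `d1 φ u = c_x y + c (a v₁ + b v₂)`, `d2 φ u = c_y y + c (a' v₁ + b' v₂)` with
  `a b' - b a' = jac κ u`.  By the second clause at the point `c y` of the cone the rules `add_smul` and `det` hold there
  for ALL vectors: `c_x y = (c_x / c) (c y)`, `c (a v₁ + b v₂) = a (c v₁) + b (c v₂)`, so
  `Om (c y) (d1 φ u) (d2 φ u) = jac κ u ^ M * Om (c y) (c v₁) (c v₂) = jac κ u ^ M * (c u)⁻¹ * Om y v₁ v₂` (`scale`)
  `= jac κ u ^ M * (c u)⁻¹ * Φ (κ u)` by (*).  This is analytic in `u` at `p`.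
-/

set_option autoImplicit false

open MvPolynomial Topology Filter
open Pool.Agent.H17BP (Tan IsForm)

noncomputable section

namespace Pool.Agent.H68.KR

variable {N : ℕ}

/-- `Φ` is, near `p`, the analytic extension of `A (φ) / B (φ) * D3 t₀ (φ, φ_x, φ_y) ^ M`. -/
def Ext (M : ℕ) (t₀ : Fin 3 → Fin (N + 1)) (A B : MvPolynomial (Fin (N + 1)) ℂ)
    (φ : ℂ × ℂ → Fin (N + 1) → ℂ) (Φ : ℂ × ℂ → ℂ) (p : ℂ × ℂ) : Prop :=
  AnalyticAt ℂ Φ p ∧
    ∀ᶠ u in 𝓝 p, eval (φ u) B * Φ u = eval (φ u) A * D3 t₀ (φ u) (d1 φ u) (d2 φ u) ^ M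

variable {M a : ℕ} {t₀ : Fin 3 → Fin (N + 1)} {A B : MvPolynomial (Fin (N + 1)) ℂ}

theorem Ext.unique {φ : ℂ × ℂ → Fin (N + 1) → ℂ} {Φ Φ' : ℂ × ℂ → ℂ} {p : ℂ × ℂ}
    (h : Ext M t₀ A B φ Φ p) (h' : Ext M t₀ A B φ Φ' p)
    (hnd : ¬ ∀ᶠ u in 𝓝 p, eval (φ u) B = 0) : Φ p = Φ' p := by
  by_contra hne
  apply hnd
  have hg : ContinuousAt (fun u => Φ u - Φ' u) p := h.1.continuousAt.sub h'.1.continuousAt
  have hg0 : ∀ᶠ u in 𝓝 p, Φ u - Φ' u ≠ 0 := hg.eventually_ne (sub_ne_zero.2 hne)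
  filter_upwards [hg0, h.2, h'.2] with u h1 h2 h3
  have h4 : eval (φ u) B * (Φ u - Φ' u) = 0 := by
    rw [mul_sub, h2, h3, sub_self]
  exact (mul_eq_zero.1 h4).resolve_right h1

private theorem GL_eval_smul {n : ℕ} {Q : MvPolynomial (Fin (N + 1)) ℂ} (hQ : Q.IsHomogeneous n) (c : ℂ)
    (y : Fin (N + 1) → ℂ) : eval (c • y) Q = c ^ n * eval y Q :=
  eval₂_of_isHomogeneous (RingHom.id ℂ) hQ c y

theorem Ext.comp (hA : A.IsHomogeneous a) (hB : B.IsHomogeneous (a + 3 * M + 1))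
    {φ σ : ℂ × ℂ → Fin (N + 1) → ℂ} {Φ c : ℂ × ℂ → ℂ} {κ : ℂ × ℂ → ℂ × ℂ} {p : ℂ × ℂ}
    (hc : AnalyticAt ℂ c p) (hc0 : c p ≠ 0) (hκ : AnalyticAt ℂ κ p) (hσ : AnalyticAt ℂ σ (κ p))
    (h : Ext M t₀ A B σ Φ (κ p)) (hφ : ∀ᶠ u in 𝓝 p, φ u = c u • σ (κ u)) :
    Ext M t₀ A B φ (fun u => (c u)⁻¹ * jac κ u ^ M * Φ (κ u)) p := by
  refine ⟨((hc.inv hc0).mul ((analyticAt_jac hκ).pow M)).mul (h.1.comp hκ), ?_⟩
  have h2 : ∀ᶠ u in 𝓝 p, eval (σ (κ u)) B * Φ (κ u) =
      eval (σ (κ u)) A * D3 t₀ (σ (κ u)) (d1 σ (κ u)) (d2 σ (κ u)) ^ M :=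
    hκ.continuousAt.eventually h.2
  filter_upwards [h2, hφ, D3_comp t₀ hc hκ hσ hφ, hc.continuousAt.eventually_ne hc0] with u e1 e2 e3 e4
  rw [e3, e2, GL_eval_smul hB, GL_eval_smul hA]
  have e5 : c u ^ (a + 3 * M + 1) * eval (σ (κ u)) B * ((c u)⁻¹ * jac κ u ^ M * Φ (κ u)) =
      c u ^ (a + 3 * M) * jac κ u ^ M * (eval (σ (κ u)) B * Φ (κ u)) := by
    rw [pow_succ]
    field_simp
  rw [e5, e1, mul_pow, mul_pow, pow_add, pow_mul]
  ring

variable {P : Ideal (MvPolynomial (Fin (N + 1)) ℂ)}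

theorem exists_om (hA : A.IsHomogeneous a) (hB : B.IsHomogeneous (a + 3 * M + 1))
    (hsm : ∀ x ∈ cone P, ∃ t σ, CChart P x t σ)
    (hext : ∀ x t σ, CChart P x t σ → ∃ Φ, Ext M t₀ A B σ Φ 0) :
    ∃ Om : (Fin (N + 1) → ℂ) → (Fin (N + 1) → ℂ) → (Fin (N + 1) → ℂ) → ℂ,
      (∀ x ∈ cone P, ∀ (φ : ℂ × ℂ → Fin (N + 1) → ℂ) (p : ℂ × ℂ) (Φ : ℂ × ℂ → ℂ), AnalyticAt ℂ φ p →
        (∀ᶠ u in 𝓝 p, ∀ Q ∈ P, eval (φ u) Q = 0) → φ p = x → Ext M t₀ A B φ Φ p →
        (¬ ∀ᶠ u in 𝓝 p, eval (φ u) B = 0) → Om x (d1 φ p) (d2 φ p) = Φ p) ∧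
      ∀ x ∈ cone P, ∃ (t : Fin 3 → Fin (N + 1)) (C : ℂ), ∀ v w, Om x v w = C * D3 t x v w ^ M := by
  classical
  choose t σ hch using hsm
  choose Φx hΦx using fun (x : Fin (N + 1) → ℂ) (hx : x ∈ cone P) => hext x (t x hx) (σ x hx) (hch x hx)
  refine ⟨fun x v w => if hx : x ∈ cone P then Φx x hx 0 * (D3 (t x hx) x v w / x (t x hx 0) ^ 3) ^ M else 0,
    ?_, ?_⟩
  · intro x hx φ p Φ hφ hφP hφx hE hnd
    obtain ⟨κ, c, hκ, hc, hκ0, hc1, he⟩ := (hch x hx).param hφ hφx hφP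
    have hc0 : c p ≠ 0 := by
      rw [hc1]
      exact one_ne_zero
    have hσ : AnalyticAt ℂ (σ x hx) (κ p) := by
      rw [hκ0]
      exact (hch x hx).an
    have hE' : Ext M t₀ A B (σ x hx) (Φx x hx) (κ p) := by
      rw [hκ0]
      exact hΦx x hx
    have hcomp := Ext.comp hA hB hc hc0 hκ hσ hE' he
    have h1 := Ext.unique hE hcomp hnd
    have h1' : Φ p = (c p)⁻¹ * jac κ p ^ M * Φx x hx (κ p) := h1
    rw [hc1, hκ0, inv_one, one_mul] at h1'
    have h2 := (D3_comp (t x hx) hc hκ hσ he).self_of_nhds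
    have h3 := (hch x hx).D3_eq.self_of_nhds
    rw [hκ0, hc1, h3, one_pow, one_mul, hφx] at h2
    have h4 : x (t x hx 0) ≠ 0 := (hch x hx).ne
    simp only [hx, dif_pos]
    rw [h2, h1', mul_div_cancel_right₀ _ (pow_ne_zero 3 h4), mul_comm]
  · intro x hx
    refine ⟨t x hx, Φx x hx 0 / (x (t x hx 0) ^ 3) ^ M, fun v w => ?_⟩
    simp only [hx, dif_pos]
    rw [div_pow]
    ring

/-- The local form of `Om` in a chart. -/
private theorem GL_star (hB : B.IsHomogeneous (a + 3 * M + 1)) (hBP : B ∉ P)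
    {Om : (Fin (N + 1) → ℂ) → (Fin (N + 1) → ℂ) → (Fin (N + 1) → ℂ) → ℂ}
    (h1 : ∀ x ∈ cone P, ∀ (φ : ℂ × ℂ → Fin (N + 1) → ℂ) (p : ℂ × ℂ) (Φ : ℂ × ℂ → ℂ), AnalyticAt ℂ φ p →
        (∀ᶠ u in 𝓝 p, ∀ Q ∈ P, eval (φ u) Q = 0) → φ p = x → Ext M t₀ A B φ Φ p →
        (¬ ∀ᶠ u in 𝓝 p, eval (φ u) B = 0) → Om x (d1 φ p) (d2 φ p) = Φ p)
    {x : Fin (N + 1) → ℂ} {t : Fin 3 → Fin (N + 1)} {σ : ℂ × ℂ → Fin (N + 1) → ℂ}
    (hch : CChart P x t σ) {Φ : ℂ × ℂ → ℂ} (hΦ : Ext M t₀ A B σ Φ 0) :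
    ∀ᶠ u in 𝓝 (0 : ℂ × ℂ), Om (σ u) (d1 σ u) (d2 σ u) = Φ u := by
  filter_upwards [hch.an.eventually_analyticAt, hch.mem.eventually_nhds, hΦ.1.eventually_analyticAt,
    hΦ.2.eventually_nhds, hch.nd_near, hch.mem_cone] with u a1 a2 a3 a4 a5 a6
  exact h1 (σ u) a6 σ u Φ a1 a2 rfl ⟨a3, a4⟩ (a5 _ B hB hBP)

private theorem GL_d1_const_smul {σ : ℂ × ℂ → Fin (N + 1) → ℂ} {p : ℂ × ℂ} (h : AnalyticAt ℂ σ p) (c : ℂ) :
    d1 (fun u => c • σ u) p = c • d1 σ p := by
  unfold d1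
  rw [fderiv_fun_const_smul h.differentiableAt]
  rfl

private theorem GL_d2_const_smul {σ : ℂ × ℂ → Fin (N + 1) → ℂ} {p : ℂ × ℂ} (h : AnalyticAt ℂ σ p) (c : ℂ) :
    d2 (fun u => c • σ u) p = c • d2 σ p := by
  unfold d2
  rw [fderiv_fun_const_smul h.differentiableAt]
  rfl

private theorem GL_jac_id (p : ℂ × ℂ) : jac (fun u => u) p = 1 := by
  have e1 : fderiv ℂ (fun v : ℂ × ℂ => v.1) p = ContinuousLinearMap.fst ℂ ℂ ℂ := fderiv_fst
  have e2 : fderiv ℂ (fun v : ℂ × ℂ => v.2) p = ContinuousLinearMap.snd ℂ ℂ ℂ := fderiv_snd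
  simp only [jac, dx, dy]
  rw [e1, e2]
  simp

theorem isForm_om (hP : ∀ p ∈ P, ∀ n, homogeneousComponent n p ∈ P) (hA : A.IsHomogeneous a)
    (hB : B.IsHomogeneous (a + 3 * M + 1)) (hBP : B ∉ P) (hsm : ∀ x ∈ cone P, ∃ t σ, CChart P x t σ)
    (hext : ∀ x t σ, CChart P x t σ → ∃ Φ, Ext M t₀ A B σ Φ 0)
    {Om : (Fin (N + 1) → ℂ) → (Fin (N + 1) → ℂ) → (Fin (N + 1) → ℂ) → ℂ}
    (h1 : ∀ x ∈ cone P, ∀ (φ : ℂ × ℂ → Fin (N + 1) → ℂ) (p : ℂ × ℂ) (Φ : ℂ × ℂ → ℂ), AnalyticAt ℂ φ p →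
        (∀ᶠ u in 𝓝 p, ∀ Q ∈ P, eval (φ u) Q = 0) → φ p = x → Ext M t₀ A B φ Φ p →
        (¬ ∀ᶠ u in 𝓝 p, eval (φ u) B = 0) → Om x (d1 φ p) (d2 φ p) = Φ p)
    (h2 : ∀ x ∈ cone P, ∃ (t : Fin 3 → Fin (N + 1)) (C : ℂ), ∀ v w, Om x v w = C * D3 t x v w ^ M) :
    IsForm (cone P) M 1 Om := by
  -- the rules for all vectors
  have r1 : ∀ x ∈ cone P, ∀ v w : Fin (N + 1) → ℂ, ∀ α β : ℂ,
      Om x (v + α • x) (w + β • x) = Om x v w := by
    intro x hx v w α β
    obtain ⟨t, C, hC⟩ := h2 x hx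
    rw [hC, hC, D3_add_smul]
  have r2 : ∀ x ∈ cone P, ∀ v w : Fin (N + 1) → ℂ, ∀ α β γ δ : ℂ,
      Om x (α • v + β • w) (γ • v + δ • w) = (α * δ - β * γ) ^ M * Om x v w := by
    intro x hx v w α β γ δ
    obtain ⟨t, C, hC⟩ := h2 x hx
    rw [hC, hC, D3_det, mul_pow]
    ring
  have hscale : ∀ x ∈ cone P, ∀ v ∈ Tan (cone P) x, ∀ w ∈ Tan (cone P) x, ∀ c : ℂ, c ≠ 0 →
      c ^ 1 * Om (c • x) (c • v) (c • w) = Om x v w := by
    intro x hx v hv w hw c hc
    obtain ⟨t, σ, hch⟩ := hsm x hx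
    obtain ⟨Φ, hΦ⟩ := hext x t σ hch
    obtain ⟨α, β, e, hv'⟩ := hch.tan hv
    obtain ⟨γ, δ, e', hw'⟩ := hch.tan hw
    have hcx : c • x ∈ cone P := cone_smul hP hx hc
    have k1 : Om x (d1 σ 0) (d2 σ 0) = Φ 0 := by
      have := (GL_star hB hBP h1 hch hΦ).self_of_nhds
      rwa [hch.zero] at this
    have hσ' : AnalyticAt ℂ (fun u => c • σ u) 0 := by
      show AnalyticAt ℂ (c • σ) 0
      exact hch.an.const_smul
    have k2 : Om (c • x) (c • d1 σ 0) (c • d2 σ 0) = c⁻¹ * Φ 0 := by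
      have hE : Ext M t₀ A B (fun u => c • σ u) (fun u => c⁻¹ * jac (fun u => u) u ^ M * Φ u) 0 :=
        Ext.comp (c := fun _ => c) (κ := fun u => u) hA hB analyticAt_const hc analyticAt_id
          hch.an hΦ (Eventually.of_forall fun _ => rfl)
      have hm : ∀ᶠ u in 𝓝 (0 : ℂ × ℂ), ∀ Q ∈ P, eval (c • σ u) Q = 0 := by
        filter_upwards [hch.mem_cone] with u hu
        exact (cone_smul hP hu hc).2
      have hn : ¬ ∀ᶠ u in 𝓝 (0 : ℂ × ℂ), eval (c • σ u) B = 0 := by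
        intro hall
        apply hch.nd _ B hB hBP
        filter_upwards [hall] with u hu
        rw [GL_eval_smul hB] at hu
        exact (mul_eq_zero.1 hu).resolve_left (pow_ne_zero _ hc)
      have h3 := h1 (c • x) hcx (fun u => c • σ u) 0 _ hσ' hm (by rw [hch.zero]) hE hn
      rw [GL_d1_const_smul hch.an, GL_d2_const_smul hch.an] at h3
      rw [h3, GL_jac_id, one_pow, mul_one]
    have hv2 : c • v = (α • (c • d1 σ 0) + β • (c • d2 σ 0)) + e • (c • x) := by
      rw [hv']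
      module
    have hw2 : c • w = (γ • (c • d1 σ 0) + δ • (c • d2 σ 0)) + e' • (c • x) := by
      rw [hw']
      module
    rw [hv2, hw2, r1 _ hcx, r2 _ hcx, k2, hv', hw', r1 _ hx, r2 _ hx, k1]
    field_simp
  refine ⟨fun x hx v _ w _ α β => r1 x hx v w α β, fun x hx v _ w _ α β γ δ => r2 x hx v w α β γ δ,
    hscale, ?_⟩
  intro φ p hφ hφX
  have hx : φ p ∈ cone P := hφX.self_of_nhds
  obtain ⟨t, σ, hch⟩ := hsm (φ p) hx
  obtain ⟨Φ, hΦ⟩ := hext (φ p) t σ hch
  have hφP : ∀ᶠ u in 𝓝 p, ∀ Q ∈ P, eval (φ u) Q = 0 := hφX.mono fun u hu => hu.2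
  obtain ⟨κ, c, hκ, hc, hκ0, hc1, he⟩ := hch.param hφ rfl hφP
  have hσ : AnalyticAt ℂ σ (κ p) := by
    rw [hκ0]
    exact hch.an
  have hΦκ : AnalyticAt ℂ Φ (κ p) := by
    rw [hκ0]
    exact hΦ.1
  have hc0 : c p ≠ 0 := by
    rw [hc1]
    exact one_ne_zero
  have hκt : Tendsto κ (𝓝 p) (𝓝 0) := by
    have := hκ.continuousAt.tendsto
    rwa [hκ0] at this
  have hF : AnalyticAt ℂ (fun u => jac κ u ^ M * ((c u)⁻¹ * Φ (κ u))) p :=
    ((analyticAt_jac hκ).pow M).mul ((hc.inv hc0).mul (hΦκ.comp hκ))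
  refine hF.congr ?_
  filter_upwards [he, d1_smul_comp hc hκ hσ he, d2_smul_comp hc hκ hσ he,
    hc.continuousAt.eventually_ne hc0, hκt.eventually hch.mem_cone,
    hκt.eventually (GL_star hB hBP h1 hch hΦ), hκt.eventually hch.an.eventually_analyticAt,
    hκt.eventually hch.mem_cone.eventually_nhds] with u e1 e2 e3 e4 e5 e6 e7 e8
  have hcy : c u • σ (κ u) ∈ cone P := cone_smul hP e5 e4
  have ht1 : d1 σ (κ u) ∈ Tan (cone P) (σ (κ u)) := tan_d1 e7 e8
  have ht2 : d2 σ (κ u) ∈ Tan (cone P) (σ (κ u)) := tan_d2 e7 e8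
  have hs := hscale _ e5 _ ht1 _ ht2 (c u) e4
  rw [pow_one, e6] at hs
  show jac κ u ^ M * ((c u)⁻¹ * Φ (κ u)) = Om (φ u) (d1 φ u) (d2 φ u)
  have f1 : d1 φ u = (dx (fun v => (κ v).1) u • (c u • d1 σ (κ u)) +
      dx (fun v => (κ v).2) u • (c u • d2 σ (κ u))) + (dx c u / c u) • (c u • σ (κ u)) := by
    rw [e2, smul_smul (dx c u / c u), div_mul_cancel₀ _ e4]
    module
  have f2 : d2 φ u = (dy (fun v => (κ v).1) u • (c u • d1 σ (κ u)) +
      dy (fun v => (κ v).2) u • (c u • d2 σ (κ u))) + (dy c u / c u) • (c u • σ (κ u)) := by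
    rw [e3, smul_smul (dy c u / c u), div_mul_cancel₀ _ e4]
    module
  rw [f1, f2, e1, r1 _ hcy, r2 _ hcy, ← hs]
  unfold jac
  rw [inv_mul_cancel_left₀ e4]
  ring

end Pool.Agent.H68.KR

end
end
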