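import Pool.Agent.H43.TL2.M15
import Pool.Agent.H43.TL2.M29
import Pool.Agent.H43.TL2.M35
import Pool.Agent.H43.TL2.M41
import Pool.Agent.H43.TL2.M44
import Pool.Agent.H43.TL2.M52
import Pool.Agent.H43.TL2.M53

/-! The parts of this file: H17BP.TrP, H14.KB.KobBrody, H14.KB.KobKFinal, H17BP.MapIdeal, H17BP.SameK, H36.BPL.Start, H68.KR.GLK, H17BP.ConstV, MQ2.CC2A, MQ2.WtE, SY.EiM. -/

section

/-!
# Lifting holomorphic maps from a punctured disc to the blow-up

Let `f`, `r` be as in `Picard X B`, `A = {z | z ≠ 0 ∧ ‖z‖ < r}` (open and preconnected; e.g. the image of a half plane under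
`exp`, or `isPreconnected_compl_singleton...` for the ball minus a point; the library has it for complements of countable
sets: `IsConnected ... (Set.Countable.isPathConnected_compl_of_one_lt_rank)`; there may be the version for open connected
sets minus a countable set).
* `f` is not proportional to `q` near any point of `A`: let `A₁` be the set of the `z₀ ∈ A` with `Pr (f z) q` for `z` near `z₀`,
  `A₂` the set of the `z₀ ∈ A` with `¬ Pr (f z) q` for all `z ≠ z₀` near `z₀`.  Both are open, `A = A₁ ∪ A₂`: for a local lift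
  `F` of `f` and the forms `l b`: `Pr (f z) q ↔ ∀ b, l b (F z) = 0` near `z₀` (`Ker`, `F z ≠ 0`, `q ≠ 0`), and
  `AnalyticAt.eventually_eq_zero_or_eventually_ne_zero` for the finitely many functions `l b ∘ F`.  `A₁ ∩ A₂ = ∅`.  If
  `A₁ = A` then all `f z` are in `B` (`q ∈ B`, cone), against the hypothesis.  So `A₂ = A`.
* For `z₀ ∈ A` let `F` be a local lift at `z₀`; `lift_curve` gives `k` and `G` analytic at `z₀`, `G z ∈ blow`,
  `phi l (F z) = (z - z₀)^k • G z` near `z₀`.  For `z ≠ z₀` near `z₀`: `Pr (phi l (f z)) (G z)` (`phi_smul`).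
  Define `h z = phi l (f z)` if `¬ Pr (f z) q`, and `h z = G_z z` with such a `G_z` at the point `z` otherwise
  (`Classical.choose`).  `HolP h z₀` for `z₀ ∈ A` with the lift `G`: for `z ≠ z₀` near `z₀` we have `h z = phi l (f z)`; at
  `z₀` itself: if `Pr (f z₀) q` then `h z₀ = G z₀` for the chosen `G` (use the chosen `G` as the lift), otherwise
  `h z₀ = phi l (f z₀)`, `G z₀` is proportional to it (`k = 0` since `phi l (F z₀) ≠ 0`).
  `h z ∈ blow` for `z ∈ A`.  Second claim of `exists_lift` (`z ∈ A`, `h z b ≠ 0`): if `¬ Pr (f z) q` then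
  `h z b = l b (f z) • f z`.  If `Pr (f z) q`: `phi l (F w) = (w - z)^k • G w` for `w` near `z`, with `G = G_z`, so
  `l b (F w) • F w = (w - z)^k • G w b`; for every continuous linear form `Λ` and `w ≠ z` near `z`:
  `Λ (F w) • G w b = Λ (G w b) • F w`, hence in the limit `w → z`: `Λ (F z) • G z b = Λ (G z b) • F z`; with `Λ (F z) ≠ 0`
  (`exists_dual_vector`) the vector `G z b = h z b ≠ 0` is proportional to `F z`, hence to `f z`.
* `picard_blow`: `h z ∉ total` if `f z ∉ B` (`exists_ne`, second claim, `mem_total_iff`).  Apply `hp` to `h`: there is `G` analytic at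
  `0`, `G 0 ≠ 0`, `Pr (h z) (G z)` for `z ≠ 0` near `0`.  Let `G 0 b ≠ 0`, `F z = G z b`.  For `z ≠ 0` near `0`: `G z b ≠ 0`,
  so `h z b ≠ 0` and `Pr (f z) (h z b)`, `Pr (h z b) (G z b)`.
-/

open Topology Filter

noncomputable section

namespace Pool.Agent.H17BP

open Pool.Agent.H62.BU (blow total Ker phi)

variable {V : Type} [NormedAddCommGroup V] [NormedSpace ℂ V] {ι : Type} [Fintype ι] {l : ι → V →L[ℂ] ℂ}
  {X B : Set V} {q : V}

private theorem TrP_preconnected (r : ℝ) : IsPreconnected {z : ℂ | z ≠ 0 ∧ ‖z‖ < r} := by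
  by_cases hr : 0 < r
  · have h1 : IsPreconnected {w : ℂ | w.re < Real.log r} := (convex_halfSpace_re_lt (Real.log r)).isPreconnected
    have h2 := h1.image Complex.exp Complex.continuous_exp.continuousOn
    have h3 : Complex.exp '' {w : ℂ | w.re < Real.log r} = {z : ℂ | z ≠ 0 ∧ ‖z‖ < r} := by
      ext z
      constructor
      · rintro ⟨w, hw, rfl⟩
        refine ⟨Complex.exp_ne_zero w, ?_⟩
        rw [Complex.norm_exp]
        have h4 : w.re < Real.log r := hw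
        calc Real.exp w.re < Real.exp (Real.log r) := Real.exp_lt_exp.2 h4
          _ = r := Real.exp_log hr
      · rintro ⟨hz, hzr⟩
        refine ⟨Complex.log z, ?_, Complex.exp_log hz⟩
        show (Complex.log z).re < Real.log r
        rw [Complex.log_re]
        exact Real.log_lt_log (norm_pos_iff.2 hz) hzr
    rwa [h3] at h2
  · have h1 : {z : ℂ | z ≠ 0 ∧ ‖z‖ < r} = ∅ := by
      ext z
      simp only [Set.mem_ofPred_eq, Set.mem_empty_iff_false, iff_false, not_and]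
      intro _ h
      exact hr ((norm_nonneg z).trans_lt h)
    rw [h1]
    exact isPreconnected_empty

omit [Fintype ι] in
private theorem TrP_forms (hl : Ker l q) {x y : V} (h : Pr x y) (hy : y ≠ 0) : Pr x q ↔ ∀ b, l b y = 0 := by
  constructor
  · intro hx b
    obtain ⟨c, hc, e⟩ := h.symm.trans hx
    rw [e, map_smul, (hl q).2 ⟨1, (one_smul _ _).symm⟩ b, smul_zero]
  · intro hb
    obtain ⟨c, hc⟩ := (hl y).1 hb
    refine h.trans ⟨c, ?_, hc⟩
    rintro rfl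
    rw [zero_smul] at hc
    exact hy hc

private theorem TrP_dichotomy (hl : Ker l q) {f : ℂ → V} {z₀ : ℂ} (hf : HolP f z₀) :
    (∀ᶠ z in 𝓝 z₀, Pr (f z) q) ∨ ∀ᶠ z in 𝓝[≠] z₀, ¬ Pr (f z) q := by
  obtain ⟨F, hF, hF0, hfF⟩ := hf
  have hne : ∀ᶠ z in 𝓝 z₀, F z ≠ 0 := hF.continuousAt.eventually_ne hF0
  have han : ∀ b, AnalyticAt ℂ (fun z => l b (F z)) z₀ := fun b => ((l b).analyticAt (F z₀)).comp hF
  by_cases h : ∀ b, ∀ᶠ z in 𝓝 z₀, l b (F z) = 0
  · left
    filter_upwards [hne, hfF, eventually_all.2 h] with z h1 h2 h3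
    exact (TrP_forms hl h2 h1).2 h3
  · right
    obtain ⟨b, hb⟩ := not_forall.1 h
    have h1 := (han b).eventually_eq_zero_or_eventually_ne_zero.resolve_left hb
    filter_upwards [h1, hne.filter_mono nhdsWithin_le_nhds, hfF.filter_mono nhdsWithin_le_nhds] with z h2 h3 h4 h5
    exact h2 ((TrP_forms hl h4 h3).1 h5 b)

/-- A holomorphic map which is proportional to `q` only at isolated points. -/
theorem isolated_of_notMem (hl : Ker l q) (hB : ∀ x ∈ B, ∀ c : ℂ, c ≠ 0 → c • x ∈ B) (hq : q ∈ B)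
    (hq0 : q ≠ 0) {r : ℝ} {f : ℂ → V} (hf : ∀ z : ℂ, z ≠ 0 → ‖z‖ < r → HolP f z)
    (hfB : ∃ z : ℂ, z ≠ 0 ∧ ‖z‖ < r ∧ f z ∉ B) :
    ∀ z₀ : ℂ, z₀ ≠ 0 → ‖z₀‖ < r → ∀ᶠ z in 𝓝[≠] z₀, ¬ Pr (f z) q := by
  intro z₀ hz₀ hz₀r
  refine (TrP_dichotomy hl (hf z₀ hz₀ hz₀r)).resolve_left fun h => ?_
  have hu : IsOpen {z : ℂ | ∀ᶠ w in 𝓝 z, Pr (f w) q} := isOpen_setOfPred_eventually_nhds
  have hv : IsOpen {z : ℂ | ∀ᶠ w in 𝓝[≠] z, ¬ Pr (f w) q} := by
    rw [isOpen_iff_eventually]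
    intro z hz
    have h1 : ∀ᶠ w in 𝓝[≠] z, ¬ Pr (f w) q := hz
    rw [eventually_nhdsWithin_iff] at h1
    filter_upwards [eventually_eventually_nhds.2 h1] with y hy
    by_cases hyz : y = z
    · rw [hyz]
      exact hz
    · have h2 : ∀ᶠ w in 𝓝 y, w ≠ z := eventually_ne_nhds hyz
      have h3 : ∀ᶠ w in 𝓝 y, ¬ Pr (f w) q := by
        filter_upwards [hy, h2] with w h4 h5
        exact h4 h5
      exact h3.filter_mono nhdsWithin_le_nhds
  have huv : Disjoint {z : ℂ | ∀ᶠ w in 𝓝 z, Pr (f w) q} {z : ℂ | ∀ᶠ w in 𝓝[≠] z, ¬ Pr (f w) q} := by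
    rw [Set.disjoint_left]
    intro z h1 h2
    have h3 : ∀ᶠ w in 𝓝 z, Pr (f w) q := h1
    have h4 : ∀ᶠ w in 𝓝[≠] z, ¬ Pr (f w) q := h2
    obtain ⟨w, h5, h6⟩ := ((h3.filter_mono nhdsWithin_le_nhds).and h4).exists
    exact h6 h5
  have hsub : {z : ℂ | z ≠ 0 ∧ ‖z‖ < r} ⊆ {z : ℂ | ∀ᶠ w in 𝓝 z, Pr (f w) q} := by
    refine IsPreconnected.subset_left_of_subset_union hu hv huv ?_ ⟨z₀, ⟨hz₀, hz₀r⟩, h⟩ (TrP_preconnected r)
    intro z hz
    exact TrP_dichotomy hl (hf z hz.1 hz.2)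
  obtain ⟨z, h1, h2, h3⟩ := hfB
  have h4 : ∀ᶠ w in 𝓝 z, Pr (f w) q := hsub ⟨h1, h2⟩
  obtain ⟨c, hc, e⟩ := h4.self_of_nhds
  exact h3 (e ▸ hB q hq c hc)

private theorem TrP_phi {x y : V} {c : ℂ} (h : x = c • y) : phi l x = c ^ 2 • phi l y := by
  rw [h, H62.BU.phi_smul]

/-- The local lift. -/
private theorem TrP_local (hX : Surface X) (hl : Ker l q) {r : ℝ} {f : ℂ → V}
    (hf : ∀ z : ℂ, z ≠ 0 → ‖z‖ < r → HolP f z ∧ f z ∈ X)
    (hi : ∀ z₀ : ℂ, z₀ ≠ 0 → ‖z₀‖ < r → ∀ᶠ z in 𝓝[≠] z₀, ¬ Pr (f z) q) {z₀ : ℂ} (hz₀ : z₀ ≠ 0)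
    (hz₀r : ‖z₀‖ < r) :
    ∃ (F : ℂ → V) (G : ℂ → ι → V) (k : ℕ), AnalyticAt ℂ F z₀ ∧ F z₀ ≠ 0 ∧ (∀ᶠ z in 𝓝 z₀, Pr (f z) (F z)) ∧
      AnalyticAt ℂ G z₀ ∧ (∀ᶠ z in 𝓝 z₀, G z ∈ blow l X) ∧
      ∀ᶠ z in 𝓝 z₀, phi l (F z) = (z - z₀) ^ k • G z := by
  obtain ⟨F, hF, hF0, hfF⟩ := (hf z₀ hz₀ hz₀r).1
  have hA : ∀ᶠ z in 𝓝 z₀, z ≠ 0 ∧ ‖z‖ < r :=
    (eventually_ne_nhds hz₀).and (continuous_norm.continuousAt.eventually_lt_const hz₀r)
  have hFX : ∀ᶠ z in 𝓝 z₀, F z ∈ X := by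
    filter_upwards [hfF, hA] with z h1 h2
    exact (Pr.mem_iff hX.smul h1).1 (hf z h2.1 h2.2).2
  have hne : ∃ᶠ z in 𝓝[≠] z₀, ∃ b, l b (F z) ≠ 0 := by
    refine Eventually.frequently ?_
    filter_upwards [hi z₀ hz₀ hz₀r, hfF.filter_mono nhdsWithin_le_nhds,
      (hF.continuousAt.eventually_ne hF0).filter_mono nhdsWithin_le_nhds] with z h1 h2 h3
    by_contra h4
    push Not at h4
    exact h1 ((TrP_forms hl h2 h3).2 h4)
  obtain ⟨k, G, hG, hGb, hGe⟩ := H62.BU.lift_curve hF hFX hne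
  exact ⟨F, G, k, hF, hF0, hfF, hG, hGb, hGe⟩

private theorem TrP_prop {F : ℂ → V} {G : ℂ → ι → V} {k : ℕ} {z : ℂ} (hF : AnalyticAt ℂ F z)
    (hF0 : F z ≠ 0) (hG : AnalyticAt ℂ G z) (h : ∀ᶠ w in 𝓝 z, phi l (F w) = (w - z) ^ k • G w) {b : ι}
    (hb : G z b ≠ 0) : Pr (F z) (G z b) := by
  obtain ⟨Λ, hΛ1, hΛ2⟩ := exists_dual_vector ℂ (F z) (norm_ne_zero_iff.mpr hF0)
  have hΛ : Λ (F z) ≠ 0 := by
    rw [hΛ2]
    simpa using hF0
  have hGb : ContinuousAt (fun w => G w b) z := (continuous_apply b).continuousAt.comp hG.continuousAt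
  have h1 : Tendsto (fun w => Λ (F w) • G w b) (𝓝[≠] z) (𝓝 (Λ (F z) • G z b)) := by
    refine Tendsto.mono_left ?_ nhdsWithin_le_nhds
    exact ((Λ.continuous.continuousAt.comp hF.continuousAt).smul hGb).tendsto
  have h2 : Tendsto (fun w => Λ (G w b) • F w) (𝓝[≠] z) (𝓝 (Λ (G z b) • F z)) := by
    refine Tendsto.mono_left ?_ nhdsWithin_le_nhds
    exact ((Λ.continuous.continuousAt.comp hGb).smul hF.continuousAt).tendsto
  have h3 : ∀ᶠ w in 𝓝[≠] z, Λ (F w) • G w b = Λ (G w b) • F w := by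
    filter_upwards [h.filter_mono nhdsWithin_le_nhds, self_mem_nhdsWithin] with w h4 h5
    have h6 : (w - z) ^ k ≠ 0 := pow_ne_zero _ (sub_ne_zero.2 h5)
    have h7 : l b (F w) • F w = (w - z) ^ k • G w b := congrFun h4 b
    have h8 : (w - z) ^ k • (Λ (F w) • G w b) = (w - z) ^ k • (Λ (G w b) • F w) := by
      have h9 : (w - z) ^ k * Λ (G w b) = l b (F w) * Λ (F w) := by
        have h10 := congrArg Λ h7
        rw [map_smul, map_smul, smul_eq_mul, smul_eq_mul] at h10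
        exact h10.symm
      rw [smul_comm, ← h7, smul_smul ((w - z) ^ k), h9, smul_smul, mul_comm]
    exact (smul_right_injective V h6) h8
  have h4 : Λ (F z) • G z b = Λ (G z b) • F z :=
    tendsto_nhds_unique_of_eventuallyEq h1 h2 h3
  have h5 : G z b = ((Λ (F z))⁻¹ * Λ (G z b)) • F z := by
    rw [mul_smul, ← h4, smul_smul, inv_mul_cancel₀ hΛ, one_smul]
  refine Pr.symm ⟨(Λ (F z))⁻¹ * Λ (G z b), ?_, h5⟩
  intro h0
  rw [h0, zero_smul] at h5
  exact hb h5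

/-- The lift of a holomorphic map to the blow-up. -/
theorem exists_lift (hX : Surface X) (hl : Ker l q) (hq0 : q ≠ 0) {r : ℝ} {f : ℂ → V}
    (hf : ∀ z : ℂ, z ≠ 0 → ‖z‖ < r → HolP f z ∧ f z ∈ X)
    (hi : ∀ z₀ : ℂ, z₀ ≠ 0 → ‖z₀‖ < r → ∀ᶠ z in 𝓝[≠] z₀, ¬ Pr (f z) q) :
    ∃ h : ℂ → ι → V, (∀ z : ℂ, z ≠ 0 → ‖z‖ < r → HolP h z ∧ h z ∈ blow l X) ∧
      ∀ z : ℂ, z ≠ 0 → ‖z‖ < r → ∀ b, h z b ≠ 0 → Pr (f z) (h z b) := by
  classical
  have hloc : ∀ z₀ : ℂ, ∃ (F : ℂ → V) (G : ℂ → ι → V) (k : ℕ), z₀ ≠ 0 → ‖z₀‖ < r →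
      AnalyticAt ℂ F z₀ ∧ F z₀ ≠ 0 ∧ (∀ᶠ z in 𝓝 z₀, Pr (f z) (F z)) ∧
      AnalyticAt ℂ G z₀ ∧ (∀ᶠ z in 𝓝 z₀, G z ∈ blow l X) ∧
      ∀ᶠ z in 𝓝 z₀, phi l (F z) = (z - z₀) ^ k • G z := by
    intro z₀
    by_cases h : z₀ ≠ 0 ∧ ‖z₀‖ < r
    · obtain ⟨F, G, k, h1⟩ := TrP_local hX hl hf hi h.1 h.2
      exact ⟨F, G, k, fun _ _ => h1⟩
    · exact ⟨fun _ => 0, fun _ _ => 0, 0, fun h1 h2 => absurd ⟨h1, h2⟩ h⟩
  choose F G k hFG using hloc
  have hf0 : ∀ z : ℂ, z ≠ 0 → ‖z‖ < r → f z ≠ 0 := fun z h1 h2 h3 => hX.zero (h3 ▸ (hf z h1 h2).2)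
  refine ⟨fun z => if ∃ b, l b (f z) ≠ 0 then phi l (f z) else G z z, ?_, ?_⟩
  · intro z₀ hz₀ hz₀r
    obtain ⟨hF, hF0, hfF, hG, hGb, hGe⟩ := hFG z₀ hz₀ hz₀r
    have hA : ∀ᶠ z in 𝓝 z₀, z ≠ 0 ∧ ‖z‖ < r :=
      (eventually_ne_nhds hz₀).and (continuous_norm.continuousAt.eventually_lt_const hz₀r)
    refine ⟨⟨G z₀, hG, hGb.self_of_nhds.2, ?_⟩, ?_⟩
    · have hi' : ∀ᶠ z in 𝓝 z₀, z ≠ z₀ → ¬ Pr (f z) q := by
        have := hi z₀ hz₀ hz₀r
        rwa [eventually_nhdsWithin_iff] at this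
      filter_upwards [hfF, hGe, hi', hA] with z h1 h2 h3 h4
      split_ifs with h5
      · obtain ⟨c, hc, e⟩ := h1
        have h6 : phi l (f z) = (c ^ 2 * (z - z₀) ^ k z₀) • G z₀ z := by
          rw [TrP_phi e, h2, smul_smul]
        refine ⟨_, ?_, h6⟩
        intro h7
        rw [h7, zero_smul] at h6
        exact H62.BU.phi_ne h5 h6
      · push Not at h5
        have h6 : z = z₀ := by
          by_contra h7
          exact h3 h7 ((TrP_forms hl (Pr.refl (f z)) (hf0 z h4.1 h4.2)).2 h5)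
        rw [h6]
        exact Pr.refl _
    · show (if ∃ b, l b (f z₀) ≠ 0 then phi l (f z₀) else G z₀ z₀) ∈ blow l X
      split_ifs with h5
      · exact H62.BU.dense_sub (H62.BU.phi_mem_dense (hf z₀ hz₀ hz₀r).2 h5)
      · exact hGb.self_of_nhds
  · intro z hz hzr b
    obtain ⟨hF, hF0, hfF, hG, hGb, hGe⟩ := hFG z hz hzr
    simp only
    split_ifs with h5
    · intro h6
      have h7 : phi l (f z) b = l b (f z) • f z := rfl
      rw [h7] at h6 ⊢
      have h8 : l b (f z) ≠ 0 := by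
        intro h9
        rw [h9, zero_smul] at h6
        exact h6 rfl
      exact Pr.symm ⟨_, h8, rfl⟩
    · intro h6
      exact (hfF.self_of_nhds).trans (TrP_prop hF hF0 hG hGe h6)

end Pool.Agent.H17BP

end
end

section

/-!
# Kobayashi hyperbolicity modulo a curve implies Brody hyperbolicity modulo this curve
-/

open Topology Filter MvPolynomial Metric

noncomputable section

namespace Pool.Agent.H14.KB

open Pool.Agent Pool.Agent.H17BP
open Pool.Agent.H17 (PN VanishesAt ZariskiClosedIn HolomorphicInto puncturedDisc)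

variable {N : ℕ}

/-- a curve whose derivative is proportional to it is constant as a map into projective space -/
theorem const_of_deriv {F : ℂ → Fin (N + 1) → ℂ} {z₁ : ℂ} (hF : AnalyticAt ℂ F z₁) (h0 : F z₁ ≠ 0)
    (h : ∀ᶠ z in 𝓝 z₁, ∃ a : ℂ, deriv F z = a • F z) :
    ∀ᶠ z in 𝓝 z₁, ∃ c : ℂ, c ≠ 0 ∧ F z = c • F z₁ := by
  obtain ⟨j, hj⟩ : ∃ j, F z₁ j ≠ 0 := by
    by_contra hcon
    push Not at hcon
    exact h0 (funext hcon)
  have hFj : ∀ i, AnalyticAt ℂ (fun z => F z i) z₁ := fun i => (analyticAt_pi_iff.1 hF) i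
  have hjne : ∀ᶠ z in 𝓝 z₁, F z j ≠ 0 := (hFj j).continuousAt.eventually_ne hj
  obtain ⟨r, hr, hball⟩ := Metric.eventually_nhds_iff_ball.1 (h.and (hjne.and hF.eventually_analyticAt))
  have hconst : ∀ i, ∀ z ∈ ball z₁ r, F z i / F z j = F z₁ i / F z₁ j := by
    intro i z hz
    have hd : ∀ w ∈ ball z₁ r, HasDerivAt (fun w => F w i / F w j) 0 w := by
      intro w hw
      obtain ⟨⟨a, ha⟩, h1, h2⟩ := hball w hw
      have h3 := hasDerivAt_pi.1 h2.differentiableAt.hasDerivAt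
      have h4 := (h3 i).div (h3 j) h1
      have h5 : (deriv F w i * F w j - F w i * deriv F w j) / F w j ^ 2 = 0 := by
        rw [ha]
        simp only [Pi.smul_apply, smul_eq_mul]
        rw [div_eq_zero_iff]
        left
        ring
      rw [h5] at h4
      exact h4
    have hdiff : DifferentiableOn ℂ (fun w => F w i / F w j) (ball z₁ r) := fun w hw =>
      (hd w hw).differentiableAt.differentiableWithinAt
    exact (convex_ball z₁ r).is_const_of_fderivWithin_eq_zero hdiff (fun w hw => by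
      rw [fderivWithin_of_isOpen isOpen_ball hw]
      ext
      rw [(hd w hw).hasFDerivAt.fderiv]
      simp) hz (mem_ball_self hr)
  filter_upwards [ball_mem_nhds z₁ hr] with z hz
  obtain ⟨-, h1, -⟩ := hball z hz
  refine ⟨F z j / F z₁ j, div_ne_zero h1 hj, ?_⟩
  funext i
  have h2 := hconst i z hz
  simp only [Pi.smul_apply, smul_eq_mul]
  rw [div_eq_div_iff h1 hj] at h2
  field_simp
  linear_combination h2

/-- **Kobayashi hyperbolicity modulo a curve implies Brody hyperbolicity modulo this curve.** -/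
theorem brody_of_kobayashi {U : Set (PN N)} {Q : MvPolynomial (Fin (N + 1)) ℂ} {D : ℕ}
    (hQ : Q.IsHomogeneous D) (h : KobayashiHyperbolicModulo U Q D) {f : ℂ → PN N}
    (hf : HolomorphicInto f Set.univ) (hfU : ∀ z, f z ∈ U) (hne : ∃ z w, f z ≠ f w) (z : ℂ) :
    VanishesAt Q (f z) := by
  by_contra hz
  obtain ⟨M, C, hk⟩ := h
  obtain ⟨F, hF, hFf⟩ := hf z (Set.mem_univ z)
  have hF0 : F z ≠ 0 := hFf.self_of_nhds.choose
  have hQz : eval (F z) Q ≠ 0 := by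
    obtain ⟨h1, h2⟩ := hFf.self_of_nhds
    intro h3
    apply hz
    rw [h2]
    exact (vanishesAt_mk hQ h1).2 h3
  have hQan : AnalyticAt ℂ (fun w => eval (F w) Q) z := by
    have := AnalyticAt.aeval_mvPolynomial (𝕜 := ℂ) (fun i => (analyticAt_pi_iff.1 hF) i) Q
    simpa [MvPolynomial.aeval_eq_eval] using this
  -- the derivative is proportional to the curve
  have key : ∀ᶠ w in 𝓝 z, ∃ a : ℂ, deriv F w = a • F w := by
    filter_upwards [hFf.eventually_nhds, hQan.continuousAt.eventually_ne hQz, hF.eventually_analyticAt,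
      hF.continuousAt.eventually_ne hF0] with w h1 h2 h3 h4
    set t : ℝ := ‖eval (F w) Q‖ / ‖F w‖ ^ D with ht
    have hFw : 0 < ‖F w‖ := norm_pos_iff.2 h4
    have ht0 : 0 < t := div_pos (norm_pos_iff.2 h2) (pow_pos hFw _)
    have hbd : ∀ R : ℝ, 0 < R → ∃ a : ℂ, ‖deriv F w - a • F w‖ ≤ (C * ‖F w‖ / t ^ M) / R := by
      intro R hR
      have hRc : (R : ℂ) ≠ 0 := by exact_mod_cast hR.ne'
      have haff : ∀ u : ℂ, AnalyticAt ℂ (fun u : ℂ => w + R * u) u := fun u =>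
        analyticAt_const.add (analyticAt_const.mul analyticAt_id)
      have htd : Tendsto (fun u : ℂ => w + R * u) (𝓝 0) (𝓝 w) := by
        have := (haff 0).continuousAt.tendsto
        simpa using this
      obtain ⟨a, ha⟩ := hk (fun u => f (w + R * u)) (fun u => F (w + R * u)) (by
        intro u _
        obtain ⟨φ, hφ, he⟩ := hf (w + R * u) (Set.mem_univ _)
        exact ⟨fun u => φ (w + R * u), AnalyticAt.comp (g := φ) (f := fun u : ℂ => w + R * u) hφ (haff u),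
          (haff u).continuousAt.tendsto.eventually he⟩) (fun u _ => hfU _)
        (AnalyticAt.comp (g := F) (f := fun u : ℂ => w + R * u) (by simpa using h3) (haff 0))
        (htd.eventually h1)
      have hd : HasDerivAt (fun u : ℂ => F (w + R * u)) ((R : ℂ) • deriv F w) 0 := by
        have h5 : HasDerivAt (fun u : ℂ => w + R * u) (R : ℂ) 0 := by
          simpa using ((hasDerivAt_id (0 : ℂ)).const_mul (R : ℂ)).const_add w
        have h6 : HasDerivAt F (deriv F w) ((fun u : ℂ => w + R * u) 0) := by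
          simpa using h3.differentiableAt.hasDerivAt
        exact h6.scomp 0 h5
      rw [hd.deriv] at ha
      simp only [mul_zero, add_zero] at ha
      refine ⟨a / R, ?_⟩
      have h5 : (R : ℂ) • deriv F w - a • F w = (R : ℂ) • (deriv F w - (a / R) • F w) := by
        rw [smul_sub, smul_smul, mul_div_cancel₀ _ hRc]
      rw [h5, norm_smul, Complex.norm_real, Real.norm_of_nonneg hR.le, ← ht] at ha
      rw [le_div_iff₀ hR, le_div_iff₀ (pow_pos ht0 M)]
      calc ‖deriv F w - (a / R) • F w‖ * R * t ^ M = t ^ M * (R * ‖deriv F w - (a / R) • F w‖) := by ring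
        _ ≤ C * ‖F w‖ := ha
    have hcl : IsClosed ((ℂ ∙ F w : Submodule ℂ (Fin (N + 1) → ℂ)) : Set (Fin (N + 1) → ℂ)) :=
      Submodule.closed_of_finiteDimensional _
    have hmem : deriv F w ∈ (ℂ ∙ F w : Submodule ℂ (Fin (N + 1) → ℂ)) := by
      have h5 : ∀ n : ℕ, ∃ a : ℂ, ‖deriv F w - a • F w‖ ≤ (C * ‖F w‖ / t ^ M) / ((n : ℝ) + 1) := fun n =>
        hbd _ (by positivity)
      choose a ha using h5
      have h6 : Tendsto (fun n => a n • F w) atTop (𝓝 (deriv F w)) := by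
        rw [tendsto_iff_norm_sub_tendsto_zero]
        refine squeeze_zero (fun n => norm_nonneg _) (fun n => ?_)
          (tendsto_const_div_atTop_nhds_zero_nat (C * ‖F w‖ / t ^ M) |>.comp (tendsto_add_atTop_nat 1))
        have := ha n
        rw [norm_sub_rev]
        simpa using this
      exact hcl.mem_of_tendsto h6 (Filter.Eventually.of_forall fun n =>
        Submodule.smul_mem _ _ (Submodule.mem_span_singleton_self _))
    obtain ⟨a, ha⟩ := Submodule.mem_span_singleton.1 hmem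
    exact ⟨a, ha.symm⟩
  have hloc : ∀ᶠ w in 𝓝 z, f w = f z := by
    filter_upwards [const_of_deriv hF hF0 key, hFf] with w h1 h2
    obtain ⟨c, hc, h3⟩ := h1
    obtain ⟨h4, h5⟩ := h2
    obtain ⟨h6, h7⟩ := hFf.self_of_nhds
    rw [h5, h7, Projectivization.mk_eq_mk_iff']
    exact ⟨c, h3.symm⟩
  have hall := Pool.Agent.H36.BP.const_identity isPreconnected_univ hf (Set.mem_univ z) hloc
  obtain ⟨u, w, huw⟩ := hne
  exact huw ((hall u (Set.mem_univ u)).trans (hall w (Set.mem_univ w)).symm)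

/-- Kobayashi hyperbolic modulo a proper subset implies pseudo Brody hyperbolic. -/
theorem pseudoBrody_of_kobayashi {U : Set (PN N)} (h : PseudoKobayashiHyperbolic U) :
    Pool.Agent.H17.PseudoBrodyHyperbolic U := by
  obtain ⟨Q, D, hQ, ⟨x, hx, hxQ⟩, hk⟩ := h
  refine ⟨{x | x ∈ U ∧ ∀ P ∈ ({Q} : Set (MvPolynomial (Fin (N + 1)) ℂ)), VanishesAt P x},
    ⟨{Q}, fun P hP => ⟨D, by rw [Set.mem_singleton_iff.1 hP]; exact hQ⟩, rfl⟩, ?_, ?_⟩
  · intro h1
    rw [← h1] at hx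
    exact hxQ (hx.2 Q rfl)
  · intro f hf hfU hne z
    refine ⟨hfU z, fun P hP => ?_⟩
    rw [Set.mem_singleton_iff.1 hP]
    exact brody_of_kobayashi hQ hk hf hfU hne z

end Pool.Agent.H14.KB

end
end

section

/-!
# Open surfaces: from functions to maps into projective space
-/

open Topology Filter MvPolynomial Metric

noncomputable section

namespace Pool.Agent.H14.KB

open Pool.Agent Pool.Agent.H17BP
open Pool.Agent.H17 (PN VanishesAt ZariskiClosedIn HolomorphicInto puncturedDisc)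

variable {N : ℕ}

/-- from functions to maps into projective space -/
theorem kobayashi_of_kobK {U : Set (PN N)} {K : Set (Fin (N + 1) → ℂ)} (hUK : ∀ x ∈ U, x.rep ∈ K)
    {Q : MvPolynomial (Fin (N + 1)) ℂ} {D : ℕ}
    (h : Kob K (fun (_ : Unit) x => eval x Q) D) :
    KobayashiHyperbolicModulo U Q D := by
  obtain ⟨M, C, -, -, hk⟩ := h
  refine ⟨M, C, fun f F hf hfX hF hFf => ?_⟩
  obtain ⟨a, ha⟩ := hk (fun z => (f z).rep) F (fun z hz => by
    have hz' : z ∈ ball (0 : ℂ) 1 := by simpa using hz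
    exact ⟨holP_rep hf hz', hUK _ (hfX z hz')⟩) hF hFf.self_of_nhds.1 (by
    filter_upwards [hFf] with z hz
    obtain ⟨h1, h2⟩ := hz
    obtain ⟨c, hc, h3⟩ := rep_mk_fin h1
    exact ⟨c, hc, by rw [h2, h3]⟩)
  refine ⟨a, ?_⟩
  have h1 : rhoS (fun (_ : Unit) x => eval x Q) D (F 0) = ‖eval (F 0) Q‖ / ‖F 0‖ ^ D := by
    unfold rhoS
    congr 1
    refine le_antisymm ((pi_norm_le_iff_of_nonneg (norm_nonneg _)).mpr fun _ => le_rfl) ?_
    exact norm_le_pi_norm (fun _ : Unit => eval (F 0) Q) ()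
  rw [h1] at ha
  exact ha

end Pool.Agent.H14.KB

end
end

section

/-!
# The ideal of a holomorphic map

`mapIdeal f U`: the polynomials which vanish on the cone over `f U`.

* `mem_mapIdeal_form`: `eval_smul_form`; `VanishesAt Q x` is `eval x.rep Q = 0`; take `c = 1` for one direction.
* `mapIdeal_homog`: for fixed `z ∈ U`: `eval (c • x) Q = ∑ k, c ^ k * eval x (homogeneousComponent k Q)` is a polynomial in `c`
  which vanishes for all `c`, so all coefficients vanish (e.g. `Polynomial.funext`, or the lemma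
  `Pool.Agent.H62.FC.eval_homogeneousComponent_eq_zero` in `Pool/Agent/H62/FC/CurveIdeal.lean`).
* `mapIdeal_isPrime`: `1` is not in it (`U ≠ ∅`).  Let `A * B ∈ I`, `A ∉ I`, `B ∉ I`.  There are homogeneous components `A_k`,
  `B_l` not in `I` (`sum_homogeneousComponent`, ideal), i.e. `VanishesAt A_k (f z)` fails for some `z ∈ U`.  For a form `R` the set
  of the `z₀ ∈ U` with `VanishesAt R (f z)` for all `z` near `z₀` is open, and so is the set of the `z₀ ∈ U` with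
  `¬ VanishesAt R (f z)` for all `z ≠ z₀` near `z₀`; they cover `U` (local lift `φ` of `f`, `z ↦ eval (φ z) R` is analytic at
  `z₀`, `AnalyticAt.eventually_eq_zero_or_eventually_ne_zero`, `vanishesAt_mk`); `U` is preconnected, so one of them is `U`;
  if `R ∉ I` it is the second one.  So near a point `z₀ ∈ U`, for `z ≠ z₀`, both `A_k` and `B_l` do not vanish at `f z`.  For
  such a `z ∈ U` the polynomials `c ↦ eval (c • x) A`, `c ↦ eval (c • x) B` (`x = (f z).rep`) are not zero (their coefficients at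
  `c ^ k`, `c ^ l` are `eval x A_k ≠ 0`, `eval x B_l ≠ 0`), their product is zero for all `c`: contradiction.
-/

open Topology Filter MvPolynomial

noncomputable section

namespace Pool.Agent.H17BP

open Pool.Agent.H17 (PN VanishesAt ZariskiClosedIn HolomorphicInto puncturedDisc)
open Pool.Agent.H62.FC (Homog)

variable {N : ℕ} {f : ℂ → PN N} {U : Set ℂ}

/-- The ideal of the polynomials which vanish on the cone over `f U`. -/
def mapIdeal (f : ℂ → PN N) (U : Set ℂ) : Ideal (MvPolynomial (Fin (N + 1)) ℂ) where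
  carrier := {Q | ∀ z ∈ U, ∀ c : ℂ, eval (c • (f z).rep) Q = 0}
  add_mem' := by
    intro A B hA hB z hz c
    rw [map_add, hA z hz c, hB z hz c, add_zero]
  zero_mem' := by
    intro z _ c
    rw [map_zero]
  smul_mem' := by
    intro A B hB z hz c
    rw [smul_eq_mul, map_mul, hB z hz c, mul_zero]

/-- The polynomial `c ↦ Q (c x)`. -/
private def MapIdeal_poly (x : Fin (N + 1) → ℂ) (Q : MvPolynomial (Fin (N + 1)) ℂ) : Polynomial ℂ :=
  ∑ k ∈ Finset.range (Q.totalDegree + 1), Polynomial.C (eval x (homogeneousComponent k Q)) * Polynomial.X ^ k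

private lemma MapIdeal_poly_eval (x : Fin (N + 1) → ℂ) (Q : MvPolynomial (Fin (N + 1)) ℂ) (c : ℂ) :
    (MapIdeal_poly x Q).eval c = eval (c • x) Q := by
  conv_rhs => rw [← MvPolynomial.sum_homogeneousComponent Q]
  rw [MapIdeal_poly, Polynomial.eval_finsetSum, map_sum]
  refine Finset.sum_congr rfl fun k _ => ?_
  rw [eval_smul_form (homogeneousComponent_isHomogeneous k Q)]
  rw [Polynomial.eval_mul, Polynomial.eval_C, Polynomial.eval_pow, Polynomial.eval_X, mul_comm]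

private lemma MapIdeal_poly_coeff (x : Fin (N + 1) → ℂ) (Q : MvPolynomial (Fin (N + 1)) ℂ) (n : ℕ) :
    (MapIdeal_poly x Q).coeff n = eval x (homogeneousComponent n Q) := by
  rw [MapIdeal_poly, Polynomial.finsetSum_coeff]
  simp only [Polynomial.coeff_C_mul, Polynomial.coeff_X_pow]
  by_cases hn : n ∈ Finset.range (Q.totalDegree + 1)
  · rw [Finset.sum_eq_single n]
    · simp
    · intro b _ hb
      rw [if_neg hb.symm, mul_zero]
    · intro h
      exact absurd hn h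
  · rw [Finset.sum_eq_zero, homogeneousComponent_eq_zero, map_zero]
    · rw [Finset.mem_range] at hn
      omega
    · intro k hk
      rw [if_neg, mul_zero]
      rintro rfl
      exact hn hk

private lemma MapIdeal_comp {x : Fin (N + 1) → ℂ} {Q : MvPolynomial (Fin (N + 1)) ℂ}
    (h : ∀ c : ℂ, eval (c • x) Q = 0) (n : ℕ) : eval x (homogeneousComponent n Q) = 0 := by
  have h1 : MapIdeal_poly x Q = 0 := by
    apply Polynomial.funext
    intro c
    rw [MapIdeal_poly_eval, h c, Polynomial.eval_zero]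
  rw [← MapIdeal_poly_coeff, h1, Polynomial.coeff_zero]

theorem mem_mapIdeal_form {d : ℕ} {Q : MvPolynomial (Fin (N + 1)) ℂ} (hQ : Q.IsHomogeneous d) :
    Q ∈ mapIdeal f U ↔ ∀ z ∈ U, VanishesAt Q (f z) := by
  constructor
  · intro h z hz
    have h1 := h z hz 1
    rw [one_smul] at h1
    exact h1
  · intro h z hz c
    have h1 : eval (f z).rep Q = 0 := h z hz
    rw [eval_smul_form hQ, h1, mul_zero]

theorem mapIdeal_homog : Homog (mapIdeal f U) := by
  intro Q hQ n z hz c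
  rw [eval_smul_form (homogeneousComponent_isHomogeneous n Q), MapIdeal_comp (hQ z hz) n, mul_zero]

private lemma MapIdeal_analytic {φ : ℂ → Fin (N + 1) → ℂ} {z₀ : ℂ} (hφ : AnalyticAt ℂ φ z₀)
    (R : MvPolynomial (Fin (N + 1)) ℂ) : AnalyticAt ℂ (fun z => eval (φ z) R) z₀ := by
  have hi : ∀ i, AnalyticAt ℂ (fun z => φ z i) z₀ := fun i =>
    (ContinuousLinearMap.proj (R := ℂ) (φ := fun _ : Fin (N + 1) => ℂ) i).analyticAt _ |>.comp hφ
  induction R using MvPolynomial.induction_on with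
  | C a =>
    simp only [eval_C]
    exact analyticAt_const
  | add p q hp hq =>
    simp only [map_add]
    exact hp.add hq
  | mul_X p i hp =>
    simp only [map_mul, eval_X]
    exact hp.mul (hi i)

private lemma MapIdeal_notMem (hUc : IsPreconnected U) (hf : HolomorphicInto f U)
    {d : ℕ} {R : MvPolynomial (Fin (N + 1)) ℂ} (hR : R.IsHomogeneous d) (hRI : R ∉ mapIdeal f U) {z₀ : ℂ}
    (hz₀ : z₀ ∈ U) : ∀ᶠ z in 𝓝[≠] z₀, ¬ VanishesAt R (f z) := by
  have hu : IsOpen {x : ℂ | ∀ᶠ z in 𝓝 x, VanishesAt R (f z)} := isOpen_setOfPred_eventually_nhds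
  have hv : IsOpen {x : ℂ | ∀ᶠ z in 𝓝[≠] x, ¬ VanishesAt R (f z)} := isOpen_setOfPred_eventually_nhdsWithin
  have hcov : U ⊆ {x : ℂ | ∀ᶠ z in 𝓝 x, VanishesAt R (f z)} ∪
      {x : ℂ | ∀ᶠ z in 𝓝[≠] x, ¬ VanishesAt R (f z)} := by
    intro z₁ hz₁
    obtain ⟨φ, hφ, he⟩ := hf z₁ hz₁
    rcases (MapIdeal_analytic hφ R).eventually_eq_zero_or_eventually_ne_zero with h | h
    · left
      change ∀ᶠ z in 𝓝 z₁, VanishesAt R (f z)
      filter_upwards [h, he] with z h1 h2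
      obtain ⟨h3, h4⟩ := h2
      rw [h4, vanishesAt_mk hR]
      exact h1
    · right
      change ∀ᶠ z in 𝓝[≠] z₁, ¬ VanishesAt R (f z)
      filter_upwards [h, he.filter_mono nhdsWithin_le_nhds] with z h1 h2
      obtain ⟨h3, h4⟩ := h2
      rw [h4, vanishesAt_mk hR]
      exact h1
  by_contra hcon
  have h1 : z₀ ∈ {x : ℂ | ∀ᶠ z in 𝓝 x, VanishesAt R (f z)} := (hcov hz₀).resolve_right hcon
  apply hRI
  rw [mem_mapIdeal_form hR]
  intro z hz
  rcases hcov hz with h2 | h2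
  · have h3 : ∀ᶠ w in 𝓝 z, VanishesAt R (f w) := h2
    exact h3.self_of_nhds
  · exfalso
    obtain ⟨w, -, hw1, hw2⟩ := hUc _ _ hu hv hcov ⟨z₀, hz₀, h1⟩ ⟨z, hz, h2⟩
    have h3 : ∀ᶠ z in 𝓝 w, VanishesAt R (f z) := hw1
    have h4 : ∀ᶠ z in 𝓝[≠] w, ¬ VanishesAt R (f z) := hw2
    obtain ⟨t, ht1, ht2⟩ := ((h3.filter_mono nhdsWithin_le_nhds).and h4).exists
    exact ht2 ht1

theorem mapIdeal_isPrime (hUo : IsOpen U) (hUc : IsPreconnected U) (hne : U.Nonempty) (hf : HolomorphicInto f U) :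
    (mapIdeal f U).IsPrime := by
  obtain ⟨z₀, hz₀⟩ := hne
  have hcomp : ∀ A : MvPolynomial (Fin (N + 1)) ℂ, A ∉ mapIdeal f U →
      ∃ k, homogeneousComponent k A ∉ mapIdeal f U := by
    intro A hA
    by_contra hcon
    push Not at hcon
    apply hA
    rw [← MvPolynomial.sum_homogeneousComponent A]
    exact Ideal.sum_mem _ fun i _ => hcon i
  refine ⟨?_, ?_⟩
  · intro htop
    have h1 : (1 : MvPolynomial (Fin (N + 1)) ℂ) ∈ mapIdeal f U := by
      rw [htop]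
      trivial
    have h2 := h1 z₀ hz₀ 1
    rw [map_one] at h2
    exact one_ne_zero h2
  · intro A B hAB
    by_contra hcon
    push Not at hcon
    obtain ⟨k, hk⟩ := hcomp A hcon.1
    obtain ⟨l, hl⟩ := hcomp B hcon.2
    have h1 := MapIdeal_notMem hUc hf (homogeneousComponent_isHomogeneous k A) hk hz₀
    have h2 := MapIdeal_notMem hUc hf (homogeneousComponent_isHomogeneous l B) hl hz₀
    have h3' : ∀ᶠ z in 𝓝 z₀, z ∈ U := hUo.mem_nhds hz₀
    have h3 : ∀ᶠ z in 𝓝[≠] z₀, z ∈ U := h3'.filter_mono nhdsWithin_le_nhds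
    obtain ⟨z, ⟨h4, h5⟩, h6⟩ := ((h1.and h2).and h3).exists
    have h7 : MapIdeal_poly (f z).rep A * MapIdeal_poly (f z).rep B = 0 := by
      apply Polynomial.funext
      intro c
      rw [Polynomial.eval_mul, MapIdeal_poly_eval, MapIdeal_poly_eval, ← map_mul, Polynomial.eval_zero]
      exact hAB z h6 c
    rcases mul_eq_zero.1 h7 with h8 | h8
    · apply h4
      change eval (f z).rep (homogeneousComponent k A) = 0
      rw [← MapIdeal_poly_coeff, h8, Polynomial.coeff_zero]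
    · apply h5
      change eval (f z).rep (homogeneousComponent l B) = 0
      rw [← MapIdeal_poly_coeff, h8, Polynomial.coeff_zero]

theorem exists_X_notMem (hne : U.Nonempty) : ∃ i, (X i : MvPolynomial (Fin (N + 1)) ℂ) ∉ mapIdeal f U := by
  obtain ⟨z, hz⟩ := hne
  by_contra hcon
  push Not at hcon
  apply (f z).rep_nonzero
  funext i
  have h1 := hcon i z hz 1
  rw [one_smul, eval_X] at h1
  exact h1

theorem mem_variety_mapIdeal {z : ℂ} (hz : z ∈ U) : f z ∈ variety (mapIdeal f U) := by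
  refine ⟨fun Q hQ n hn => (mem_mapIdeal_form hn).1 hQ z hz, fun m => m.elim0⟩

theorem le_mapIdeal {P : Ideal (MvPolynomial (Fin (N + 1)) ℂ)} (hP : Homog P) (h : ∀ z ∈ U, f z ∈ variety P) :
    P ≤ mapIdeal f U := by
  intro Q hQ
  rw [← MvPolynomial.sum_homogeneousComponent Q]
  refine Ideal.sum_mem _ fun i _ => ?_
  rw [mem_mapIdeal_form (homogeneousComponent_isHomogeneous i Q)]
  exact fun z hz => (h z hz).1 _ (hP Q hQ i) i (homogeneousComponent_isHomogeneous i Q)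

end Pool.Agent.H17BP

end
end

section

/-!
# The same exceptional set, for complements of hypersurface sections
-/

open Topology Filter MvPolynomial

noncomputable section

namespace Pool.Agent.H17BP

open Pool.Agent.H17 (PN VanishesAt ZariskiClosedIn HolomorphicInto puncturedDisc)
open Pool.Agent.H17LG.Variety (FunField)
open Pool.Agent.H62.FC (Homog)
open Pool.Agent.H17R (openVar)

variable {N : ℕ} {P I : Ideal (MvPolynomial (Fin (N + 1)) ℂ)} {b : ℕ} {H : Fin b → MvPolynomial (Fin (N + 1)) ℂ}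
  {e : Fin b → ℕ}

theorem cone_smul' (hP : Homog P) : ∀ x ∈ cone P, ∀ c : ℂ, c ≠ 0 → c • x ∈ cone P := by
  intro x hx c hc
  refine ⟨smul_ne_zero hc hx.1, fun Q hQ => ?_⟩
  rw [← MvPolynomial.sum_homogeneousComponent Q, map_sum]
  refine Finset.sum_eq_zero fun i _ => ?_
  rw [eval_smul_form (homogeneousComponent_isHomogeneous i Q), hx.2 _ (hP Q hQ i), mul_zero]

theorem cone_closed : ∀ x ∈ closure (cone P), x ≠ 0 → x ∈ cone P := by
  intro x hx h0
  refine ⟨h0, fun Q hQ => ?_⟩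
  have h1 : IsClosed {y : Fin (N + 1) → ℂ | eval y Q = 0} :=
    isClosed_eq (MvPolynomial.continuous_eval Q) continuous_const
  have h2 : cone P ⊆ {y : Fin (N + 1) → ℂ | eval y Q = 0} := fun y hy => hy.2 Q hQ
  exact h1.closure_subset_iff.2 h2 hx

/-- Extension of a holomorphic map from the punctured disc to the projective space. -/
theorem extend_of_picard {K B : Set (Fin (N + 1) → ℂ)} (hpic : Picard K B) {f : ℂ → PN N}
    (hf : HolomorphicInto f puncturedDisc) (hfK : ∀ z ∈ puncturedDisc, (f z).rep ∈ K)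
    (hfB : ∃ z ∈ puncturedDisc, (f z).rep ∉ B) :
    ∃ g : ℂ → PN N, HolomorphicInto g (Metric.ball 0 1) ∧ ∀ z ∈ puncturedDisc, g z = f z := by
  classical
  obtain ⟨z₁, hz₁, hz₁B⟩ := hfB
  have hball : ∀ z : ℂ, z ≠ 0 → ‖z‖ < 1 → z ∈ puncturedDisc := fun z h0 h1 => ⟨by simpa using h1, h0⟩
  have hball' : ∀ z ∈ puncturedDisc, z ≠ 0 ∧ ‖z‖ < 1 := fun z hz => ⟨hz.2, by simpa using hz.1⟩
  obtain ⟨F, hF, hF0, he⟩ := hpic 1 one_pos (fun z => (f z).rep)
    (fun z h0 h1 => ⟨holP_rep hf (hball z h0 h1), hfK z (hball z h0 h1)⟩)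
    ⟨z₁, (hball' z₁ hz₁).1, (hball' z₁ hz₁).2, hz₁B⟩
  refine ⟨fun z => if z = 0 then Projectivization.mk ℂ (F 0) hF0 else f z, ?_, ?_⟩
  · intro z₀ hz₀
    by_cases h0 : z₀ = 0
    · subst h0
      refine ⟨F, hF, ?_⟩
      rw [eventually_nhdsWithin_iff] at he
      filter_upwards [he, hF.continuousAt.eventually_ne hF0] with z h1 h2
      refine ⟨h2, ?_⟩
      by_cases h3 : z = 0
      · subst h3
        rw [if_pos rfl]
      · rw [if_neg h3, ← (h1 h3).mk_eq (f z).rep_nonzero h2, Projectivization.mk_rep]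
    · obtain ⟨φ, hφ, hφe⟩ := hf z₀ ⟨hz₀, h0⟩
      refine ⟨φ, hφ, ?_⟩
      filter_upwards [hφe, isOpen_compl_singleton.mem_nhds (show z₀ ∈ ({0} : Set ℂ)ᶜ from h0)] with z h1 h2
      obtain ⟨h3, h4⟩ := h1
      have h5 : z ≠ 0 := h2
      exact ⟨h3, by rw [if_neg h5, h4]⟩
  · intro z hz
    exact if_neg hz.2

end Pool.Agent.H17BP

end
end

section

/-!
# BPL Start: from the extension theorem for models to complements of hypersurface sections

`P` is the ideal of a smooth closed surface in `ℙ^N`, `H m` are forms (`b` of them, `b = 0` is the closed case) and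
`coneK P H` is the cone over the complement of the hypersurfaces `H m = 0`.
-/

set_option autoImplicit false

open Topology Filter MvPolynomial

noncomputable section

namespace Pool.Agent.H36.BPL

open Pool.Agent.H17 (PN VanishesAt ZariskiClosedIn HolomorphicInto puncturedDisc PseudoBrodyHyperbolic PseudoPicardHyperbolic)
open Pool.Agent.H62.FC (Homog)
open Pool.Agent.H17R (openVar)
open Pool.Agent.H17BP (Surface IsChart IsForm NoZeros NodalAt Pr HolP Brody Picard Eqs Tan cone variety rep_mk_fin eval_smul_form rep_mem_cone vanishesAt_mk holP_rep)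

variable {N : ℕ} {P : Ideal (MvPolynomial (Fin (N + 1)) ℂ)} {b : ℕ} {H : Fin b → MvPolynomial (Fin (N + 1)) ℂ}

/-- The cone over the complement of the hypersurfaces `H m = 0`. -/
def coneK (P : Ideal (MvPolynomial (Fin (N + 1)) ℂ)) (H : Fin b → MvPolynomial (Fin (N + 1)) ℂ) :
    Set (Fin (N + 1) → ℂ) :=
  {x | x ∈ cone P ∧ ∀ m, eval x (H m) ≠ 0}

theorem analyticAt_form (Q : MvPolynomial (Fin (N + 1)) ℂ) (x : Fin (N + 1) → ℂ) :
    AnalyticAt ℂ (fun y : Fin (N + 1) → ℂ => eval y Q) x := by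
  have h : ∀ i : Fin (N + 1), AnalyticAt ℂ (fun y : Fin (N + 1) → ℂ => y i) x := fun i =>
    (ContinuousLinearMap.proj (R := ℂ) (φ := fun _ : Fin (N + 1) => ℂ) i).analyticAt x
  have := AnalyticAt.aeval_mvPolynomial (𝕜 := ℂ) h Q
  simpa [MvPolynomial.aeval_eq_eval] using this

theorem eval_prod_ne {x : Fin (N + 1) → ℂ} : eval x (∏ m, H m) ≠ 0 ↔ ∀ m, eval x (H m) ≠ 0 := by
  rw [map_prod, Finset.prod_ne_zero_iff]
  simp

theorem mem_coneK_iff {x : Fin (N + 1) → ℂ} : x ∈ coneK P H ↔ x ∈ cone P ∧ eval x (∏ m, H m) ≠ 0 := by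
  rw [eval_prod_ne]
  rfl

theorem mem_cone_notMem {x : Fin (N + 1) → ℂ} (hx : x ∈ cone P) : x ∉ coneK P H ↔ eval x (∏ m, H m) = 0 := by
  rw [mem_coneK_iff, not_and, not_not]
  exact ⟨fun h => h hx, fun h _ => h⟩

theorem coneK_smul {e : Fin b → ℕ} (hH : ∀ m, (H m).IsHomogeneous (e m)) (hX : ∀ x ∈ cone P, ∀ c : ℂ, c ≠ 0 → c • x ∈ cone P) :
    ∀ x ∈ coneK P H, ∀ c : ℂ, c ≠ 0 → c • x ∈ coneK P H := by
  rintro x ⟨h1, h2⟩ c hc
  refine ⟨hX x h1 c hc, fun m => ?_⟩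
  rw [eval_smul_form (hH m)]
  exact mul_ne_zero (pow_ne_zero _ hc) (h2 m)

theorem openPart_coneK {e : Fin b → ℕ} (hH : ∀ m, (H m).IsHomogeneous (e m))
    (hX : ∀ x ∈ cone P, ∀ c : ℂ, c ≠ 0 → c • x ∈ cone P) : OpenPart (cone P) (coneK P H) where
  sub _ hx := hx.1
  smul := coneK_smul hH hX
  eqn x _ := ⟨fun y => eval y (∏ m, H m), analyticAt_form _ x,
    Filter.Eventually.of_forall fun _ hy => mem_cone_notMem hy⟩

/-- The quotients `x_i ^ d / H₀` where `H₀` is the product of the forms `H m` and `d` is its degree. -/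
def affMap (H : Fin b → MvPolynomial (Fin (N + 1)) ℂ) (d : ℕ) (x : Fin (N + 1) → ℂ) (i : Fin (N + 1)) : ℂ :=
  x i ^ d / eval x (∏ m, H m)

theorem affProper_coneK {e : Fin b → ℕ} (hH : ∀ m, (H m).IsHomogeneous (e m)) :
    AffProper (cone P) (coneK P H) (affMap H (∑ m, e m)) where
  smul x hx c hc := by
    funext i
    have h1 : (∏ m, H m).IsHomogeneous (∑ m, e m) := IsHomogeneous.prod _ _ _ fun m _ => hH m
    have h2 := (mem_coneK_iff.1 hx).2
    unfold affMap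
    rw [eval_smul_form h1, Pi.smul_apply, smul_eq_mul, mul_pow]
    rw [mul_div_mul_left _ _ (pow_ne_zero _ hc)]
  cont := by
    rw [continuousOn_pi]
    intro i
    refine ContinuousOn.div ?_ ?_ fun x hx => (mem_coneK_iff.1 hx).2
    · exact ((continuous_apply i).pow _).continuousOn
    · exact fun x _ => (analyticAt_form _ x).continuousAt.continuousWithinAt
  hol F z₀ hF hFK := by
    rw [analyticAt_pi_iff]
    intro i
    have h1 : AnalyticAt ℂ (fun z => F z i) z₀ :=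
      ((ContinuousLinearMap.proj (R := ℂ) (φ := fun _ : Fin (N + 1) => ℂ) i).analyticAt _).comp hF
    have h2 : AnalyticAt ℂ (fun z => eval (F z) (∏ m, H m)) z₀ :=
      AnalyticAt.comp (g := fun y : Fin (N + 1) → ℂ => eval y (∏ m, H m)) (f := F) (analyticAt_form _ _) hF
    exact (h1.pow _).div h2 (mem_coneK_iff.1 hFK.self_of_nhds).2
  proper x hx hxK R := by
    have h0 : eval x (∏ m, H m) = 0 := (mem_cone_notMem hx).1 hxK
    obtain ⟨i, hi⟩ : ∃ i, x i ≠ 0 := by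
      by_contra hcon
      push Not at hcon
      exact hx.1 (funext hcon)
    set d := ∑ m, e m with hd
    have hc : 0 < ‖x i ^ d‖ / 2 := by
      have := norm_pos_iff.2 (pow_ne_zero d hi)
      positivity
    have h1 : ∀ᶠ y in 𝓝 x, ‖x i ^ d‖ / 2 < ‖y i ^ d‖ := by
      have h2 : ContinuousAt (fun y : Fin (N + 1) → ℂ => ‖y i ^ d‖) x := (((continuous_apply i).pow d).norm).continuousAt
      exact h2.eventually_const_lt (by linarith)
    have h3 : ∀ᶠ y in 𝓝 x, ‖eval y (∏ m, H m)‖ < ‖x i ^ d‖ / 2 / (|R| + 1) := by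
      have h4 : ContinuousAt (fun y : Fin (N + 1) → ℂ => ‖eval y (∏ m, H m)‖) x := (analyticAt_form _ x).continuousAt.norm
      refine h4.eventually_lt_const ?_
      show ‖eval x (∏ m, H m)‖ < ‖x i ^ d‖ / 2 / (|R| + 1)
      rw [h0, norm_zero]
      positivity
    filter_upwards [h1, h3] with y hy1 hy2 hyK
    have hne := (mem_coneK_iff.1 hyK).2
    have hpos : 0 < ‖eval y (∏ m, H m)‖ := norm_pos_iff.2 hne
    have h5 : |R| + 1 < ‖affMap H d y i‖ := by
      unfold affMap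
      rw [norm_div, lt_div_iff₀ hpos]
      have h6 : 0 < |R| + 1 := by positivity
      have h7 := (lt_div_iff₀ h6).1 hy2
      linarith
    calc R ≤ |R| := le_abs_self R
      _ < |R| + 1 := by linarith
      _ < ‖affMap H d y i‖ := h5
      _ ≤ ‖affMap H d y‖ := norm_le_pi_norm _ i
  iso F z₀ hF hFX := by
    have h2 : AnalyticAt ℂ (fun z => eval (F z) (∏ m, H m)) z₀ :=
      AnalyticAt.comp (g := fun y : Fin (N + 1) → ℂ => eval y (∏ m, H m)) (f := F) (analyticAt_form _ _) hF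
    rcases h2.eventually_eq_zero_or_eventually_ne_zero with h3 | h3
    · left
      filter_upwards [h3, hFX] with z h4 h5
      exact (mem_cone_notMem h5).2 h4
    · right
      filter_upwards [h3, hFX.filter_mono nhdsWithin_le_nhds] with z h4 h5
      exact mem_coneK_iff.2 ⟨h5, h4⟩

end Pool.Agent.H36.BPL

end
end

section

/-!
# KR GLK: gluing the local extensions to a form on an open part of the cone
-/

set_option autoImplicit false

open MvPolynomial Topology Filter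
open Pool.Agent.H17BP (Tan IsForm)

noncomputable section

namespace Pool.Agent.H68.KR

variable {N : ℕ} {M a : ℕ} {t₀ : Fin 3 → Fin (N + 1)} {A B : MvPolynomial (Fin (N + 1)) ℂ}
  {P : Ideal (MvPolynomial (Fin (N + 1)) ℂ)} {K : Set (Fin (N + 1) → ℂ)}

private theorem GL_eval_smul {n : ℕ} {Q : MvPolynomial (Fin (N + 1)) ℂ} (hQ : Q.IsHomogeneous n) (c : ℂ)
    (y : Fin (N + 1) → ℂ) : eval (c • y) Q = c ^ n * eval y Q :=
  eval₂_of_isHomogeneous (RingHom.id ℂ) hQ c y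

private theorem GLK_tan {X Y : Set (Fin (N + 1) → ℂ)} (h : X ⊆ Y) {x v : Fin (N + 1) → ℂ}
    (hv : v ∈ Tan X x) : v ∈ Tan Y x := by
  obtain ⟨γ, h1, h2, h3, h4⟩ := hv
  exact ⟨γ, h1, h2.mono fun z hz => h hz, h3, h4⟩

private theorem GLK_mem (hKo : ∀ x ∈ K, ∀ᶠ y in 𝓝 x, (∀ Q ∈ P, eval y Q = 0) → y ∈ K)
    {x : Fin (N + 1) → ℂ} (hx : x ∈ K) {t : Fin 3 → Fin (N + 1)} {σ : ℂ × ℂ → Fin (N + 1) → ℂ}
    (hch : CChart P x t σ) : ∀ᶠ u in 𝓝 (0 : ℂ × ℂ), σ u ∈ K := by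
  have h1 := hch.an.continuousAt.tendsto
  rw [hch.zero] at h1
  filter_upwards [h1.eventually (hKo x hx), hch.mem] with u h2 h3
  exact h2 h3

theorem exists_omK (hKP : K ⊆ cone P) (hA : A.IsHomogeneous a) (hB : B.IsHomogeneous (a + 3 * M + 1))
    (hsm : ∀ x ∈ K, ∃ t σ, CChart P x t σ)
    (hext : ∀ x ∈ K, ∀ t σ, CChart P x t σ → ∃ Φ, Ext M t₀ A B σ Φ 0) :
    ∃ Om : (Fin (N + 1) → ℂ) → (Fin (N + 1) → ℂ) → (Fin (N + 1) → ℂ) → ℂ,
      (∀ x ∈ K, ∀ (φ : ℂ × ℂ → Fin (N + 1) → ℂ) (p : ℂ × ℂ) (Φ : ℂ × ℂ → ℂ), AnalyticAt ℂ φ p →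
        (∀ᶠ u in 𝓝 p, ∀ Q ∈ P, eval (φ u) Q = 0) → φ p = x → Ext M t₀ A B φ Φ p →
        (¬ ∀ᶠ u in 𝓝 p, eval (φ u) B = 0) → Om x (d1 φ p) (d2 φ p) = Φ p) ∧
      ∀ x ∈ K, ∃ (t : Fin 3 → Fin (N + 1)) (C : ℂ), ∀ v w, Om x v w = C * D3 t x v w ^ M := by
  classical
  choose t σ hch using hsm
  choose Φx hΦx using fun (x : Fin (N + 1) → ℂ) (hx : x ∈ K) => hext x hx (t x hx) (σ x hx) (hch x hx)
  refine ⟨fun x v w => if hx : x ∈ K then Φx x hx 0 * (D3 (t x hx) x v w / x (t x hx 0) ^ 3) ^ M else 0,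
    ?_, ?_⟩
  · intro x hx φ p Φ hφ hφP hφx hE hnd
    obtain ⟨κ, c, hκ, hc, hκ0, hc1, he⟩ := (hch x hx).param hφ hφx hφP
    have hc0 : c p ≠ 0 := by
      rw [hc1]
      exact one_ne_zero
    have hσ : AnalyticAt ℂ (σ x hx) (κ p) := by
      rw [hκ0]
      exact (hch x hx).an
    have hE' : Ext M t₀ A B (σ x hx) (Φx x hx) (κ p) := by
      rw [hκ0]
      exact hΦx x hx
    have hcomp := Ext.comp hA hB hc hc0 hκ hσ hE' he
    have h1 := Ext.unique hE hcomp hnd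
    have h1' : Φ p = (c p)⁻¹ * jac κ p ^ M * Φx x hx (κ p) := h1
    rw [hc1, hκ0, inv_one, one_mul] at h1'
    have h2 := (D3_comp (t x hx) hc hκ hσ he).self_of_nhds
    have h3 := (hch x hx).D3_eq.self_of_nhds
    rw [hκ0, hc1, h3, one_pow, one_mul, hφx] at h2
    have h4 : x (t x hx 0) ≠ 0 := (hch x hx).ne
    simp only [hx, dif_pos]
    rw [h2, h1', mul_div_cancel_right₀ _ (pow_ne_zero 3 h4), mul_comm]
  · intro x hx
    refine ⟨t x hx, Φx x hx 0 / (x (t x hx 0) ^ 3) ^ M, fun v w => ?_⟩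
    simp only [hx, dif_pos]
    rw [div_pow]
    ring

/-- The local form of `Om` in a chart. -/
private theorem GL_star (hKo : ∀ x ∈ K, ∀ᶠ y in 𝓝 x, (∀ Q ∈ P, eval y Q = 0) → y ∈ K) (hB : B.IsHomogeneous (a + 3 * M + 1)) (hBP : B ∉ P)
    {Om : (Fin (N + 1) → ℂ) → (Fin (N + 1) → ℂ) → (Fin (N + 1) → ℂ) → ℂ}
    (h1 : ∀ x ∈ K, ∀ (φ : ℂ × ℂ → Fin (N + 1) → ℂ) (p : ℂ × ℂ) (Φ : ℂ × ℂ → ℂ), AnalyticAt ℂ φ p →
        (∀ᶠ u in 𝓝 p, ∀ Q ∈ P, eval (φ u) Q = 0) → φ p = x → Ext M t₀ A B φ Φ p →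
        (¬ ∀ᶠ u in 𝓝 p, eval (φ u) B = 0) → Om x (d1 φ p) (d2 φ p) = Φ p)
    {x : Fin (N + 1) → ℂ} (hx : x ∈ K) {t : Fin 3 → Fin (N + 1)} {σ : ℂ × ℂ → Fin (N + 1) → ℂ}
    (hch : CChart P x t σ) {Φ : ℂ × ℂ → ℂ} (hΦ : Ext M t₀ A B σ Φ 0) :
    ∀ᶠ u in 𝓝 (0 : ℂ × ℂ), Om (σ u) (d1 σ u) (d2 σ u) = Φ u := by
  filter_upwards [hch.an.eventually_analyticAt, hch.mem.eventually_nhds, hΦ.1.eventually_analyticAt,
    hΦ.2.eventually_nhds, hch.nd_near, GLK_mem hKo hx hch] with u a1 a2 a3 a4 a5 a6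
  exact h1 (σ u) a6 σ u Φ a1 a2 rfl ⟨a3, a4⟩ (a5 _ B hB hBP)

private theorem GL_d1_const_smul {σ : ℂ × ℂ → Fin (N + 1) → ℂ} {p : ℂ × ℂ} (h : AnalyticAt ℂ σ p) (c : ℂ) :
    d1 (fun u => c • σ u) p = c • d1 σ p := by
  unfold d1
  rw [fderiv_fun_const_smul h.differentiableAt]
  rfl

private theorem GL_d2_const_smul {σ : ℂ × ℂ → Fin (N + 1) → ℂ} {p : ℂ × ℂ} (h : AnalyticAt ℂ σ p) (c : ℂ) :
    d2 (fun u => c • σ u) p = c • d2 σ p := by
  unfold d2
  rw [fderiv_fun_const_smul h.differentiableAt]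
  rfl

private theorem GL_jac_id (p : ℂ × ℂ) : jac (fun u => u) p = 1 := by
  have e1 : fderiv ℂ (fun v : ℂ × ℂ => v.1) p = ContinuousLinearMap.fst ℂ ℂ ℂ := fderiv_fst
  have e2 : fderiv ℂ (fun v : ℂ × ℂ => v.2) p = ContinuousLinearMap.snd ℂ ℂ ℂ := fderiv_snd
  simp only [jac, dx, dy]
  rw [e1, e2]
  simp

theorem isForm_omK (hKP : K ⊆ cone P) (hKs : ∀ x ∈ K, ∀ c : ℂ, c ≠ 0 → c • x ∈ K)
    (hKo : ∀ x ∈ K, ∀ᶠ y in 𝓝 x, (∀ Q ∈ P, eval y Q = 0) → y ∈ K) (hP : ∀ p ∈ P, ∀ n, homogeneousComponent n p ∈ P) (hA : A.IsHomogeneous a)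
    (hB : B.IsHomogeneous (a + 3 * M + 1)) (hBP : B ∉ P) (hsm : ∀ x ∈ K, ∃ t σ, CChart P x t σ)
    (hext : ∀ x ∈ K, ∀ t σ, CChart P x t σ → ∃ Φ, Ext M t₀ A B σ Φ 0)
    {Om : (Fin (N + 1) → ℂ) → (Fin (N + 1) → ℂ) → (Fin (N + 1) → ℂ) → ℂ}
    (h1 : ∀ x ∈ K, ∀ (φ : ℂ × ℂ → Fin (N + 1) → ℂ) (p : ℂ × ℂ) (Φ : ℂ × ℂ → ℂ), AnalyticAt ℂ φ p →
        (∀ᶠ u in 𝓝 p, ∀ Q ∈ P, eval (φ u) Q = 0) → φ p = x → Ext M t₀ A B φ Φ p →
        (¬ ∀ᶠ u in 𝓝 p, eval (φ u) B = 0) → Om x (d1 φ p) (d2 φ p) = Φ p)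
    (h2 : ∀ x ∈ K, ∃ (t : Fin 3 → Fin (N + 1)) (C : ℂ), ∀ v w, Om x v w = C * D3 t x v w ^ M) :
    IsForm K M 1 Om := by
  -- the rules for all vectors
  have r1 : ∀ x ∈ K, ∀ v w : Fin (N + 1) → ℂ, ∀ α β : ℂ,
      Om x (v + α • x) (w + β • x) = Om x v w := by
    intro x hx v w α β
    obtain ⟨t, C, hC⟩ := h2 x hx
    rw [hC, hC, D3_add_smul]
  have r2 : ∀ x ∈ K, ∀ v w : Fin (N + 1) → ℂ, ∀ α β γ δ : ℂ,
      Om x (α • v + β • w) (γ • v + δ • w) = (α * δ - β * γ) ^ M * Om x v w := by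
    intro x hx v w α β γ δ
    obtain ⟨t, C, hC⟩ := h2 x hx
    rw [hC, hC, D3_det, mul_pow]
    ring
  have hscale : ∀ x ∈ K, ∀ v ∈ Tan K x, ∀ w ∈ Tan K x, ∀ c : ℂ, c ≠ 0 →
      c ^ 1 * Om (c • x) (c • v) (c • w) = Om x v w := by
    intro x hx v hv w hw c hc
    obtain ⟨t, σ, hch⟩ := hsm x hx
    obtain ⟨Φ, hΦ⟩ := hext x hx t σ hch
    obtain ⟨α, β, e, hv'⟩ := hch.tan (GLK_tan hKP hv)
    obtain ⟨γ, δ, e', hw'⟩ := hch.tan (GLK_tan hKP hw)
    have hcx : c • x ∈ K := hKs x hx c hc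
    have k1 : Om x (d1 σ 0) (d2 σ 0) = Φ 0 := by
      have := (GL_star hKo hB hBP h1 hx hch hΦ).self_of_nhds
      rwa [hch.zero] at this
    have hσ' : AnalyticAt ℂ (fun u => c • σ u) 0 := by
      show AnalyticAt ℂ (c • σ) 0
      exact hch.an.const_smul
    have k2 : Om (c • x) (c • d1 σ 0) (c • d2 σ 0) = c⁻¹ * Φ 0 := by
      have hE : Ext M t₀ A B (fun u => c • σ u) (fun u => c⁻¹ * jac (fun u => u) u ^ M * Φ u) 0 :=
        Ext.comp (c := fun _ => c) (κ := fun u => u) hA hB analyticAt_const hc analyticAt_id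
          hch.an hΦ (Eventually.of_forall fun _ => rfl)
      have hm : ∀ᶠ u in 𝓝 (0 : ℂ × ℂ), ∀ Q ∈ P, eval (c • σ u) Q = 0 := by
        filter_upwards [hch.mem_cone] with u hu
        exact (cone_smul hP hu hc).2
      have hn : ¬ ∀ᶠ u in 𝓝 (0 : ℂ × ℂ), eval (c • σ u) B = 0 := by
        intro hall
        apply hch.nd _ B hB hBP
        filter_upwards [hall] with u hu
        rw [GL_eval_smul hB] at hu
        exact (mul_eq_zero.1 hu).resolve_left (pow_ne_zero _ hc)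
      have h3 := h1 (c • x) hcx (fun u => c • σ u) 0 _ hσ' hm (by rw [hch.zero]) hE hn
      rw [GL_d1_const_smul hch.an, GL_d2_const_smul hch.an] at h3
      rw [h3, GL_jac_id, one_pow, mul_one]
    have hv2 : c • v = (α • (c • d1 σ 0) + β • (c • d2 σ 0)) + e • (c • x) := by
      rw [hv']
      module
    have hw2 : c • w = (γ • (c • d1 σ 0) + δ • (c • d2 σ 0)) + e' • (c • x) := by
      rw [hw']
      module
    rw [hv2, hw2, r1 _ hcx, r2 _ hcx, k2, hv', hw', r1 _ hx, r2 _ hx, k1]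
    field_simp
  refine ⟨fun x hx v _ w _ α β => r1 x hx v w α β, fun x hx v _ w _ α β γ δ => r2 x hx v w α β γ δ,
    hscale, ?_⟩
  intro φ p hφ hφX
  have hx : φ p ∈ K := hφX.self_of_nhds
  obtain ⟨t, σ, hch⟩ := hsm (φ p) hx
  obtain ⟨Φ, hΦ⟩ := hext (φ p) hx t σ hch
  have hφP : ∀ᶠ u in 𝓝 p, ∀ Q ∈ P, eval (φ u) Q = 0 := hφX.mono fun u hu => (hKP hu).2
  obtain ⟨κ, c, hκ, hc, hκ0, hc1, he⟩ := hch.param hφ rfl hφP
  have hσ : AnalyticAt ℂ σ (κ p) := by
    rw [hκ0]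
    exact hch.an
  have hΦκ : AnalyticAt ℂ Φ (κ p) := by
    rw [hκ0]
    exact hΦ.1
  have hc0 : c p ≠ 0 := by
    rw [hc1]
    exact one_ne_zero
  have hκt : Tendsto κ (𝓝 p) (𝓝 0) := by
    have := hκ.continuousAt.tendsto
    rwa [hκ0] at this
  have hF : AnalyticAt ℂ (fun u => jac κ u ^ M * ((c u)⁻¹ * Φ (κ u))) p :=
    ((analyticAt_jac hκ).pow M).mul ((hc.inv hc0).mul (hΦκ.comp hκ))
  refine hF.congr ?_
  filter_upwards [he, d1_smul_comp hc hκ hσ he, d2_smul_comp hc hκ hσ he,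
    hc.continuousAt.eventually_ne hc0, hκt.eventually (GLK_mem hKo hx hch),
    hκt.eventually (GL_star hKo hB hBP h1 hx hch hΦ), hκt.eventually hch.an.eventually_analyticAt,
    hκt.eventually (GLK_mem hKo hx hch).eventually_nhds] with u e1 e2 e3 e4 e5 e6 e7 e8
  have hcy : c u • σ (κ u) ∈ K := hKs _ e5 _ e4
  have ht1 : d1 σ (κ u) ∈ Tan K (σ (κ u)) := tan_d1 e7 e8
  have ht2 : d2 σ (κ u) ∈ Tan K (σ (κ u)) := tan_d2 e7 e8
  have hs := hscale _ e5 _ ht1 _ ht2 (c u) e4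
  rw [pow_one, e6] at hs
  show jac κ u ^ M * ((c u)⁻¹ * Φ (κ u)) = Om (φ u) (d1 φ u) (d2 φ u)
  have f1 : d1 φ u = (dx (fun v => (κ v).1) u • (c u • d1 σ (κ u)) +
      dx (fun v => (κ v).2) u • (c u • d2 σ (κ u))) + (dx c u / c u) • (c u • σ (κ u)) := by
    rw [e2, smul_smul (dx c u / c u), div_mul_cancel₀ _ e4]
    module
  have f2 : d2 φ u = (dy (fun v => (κ v).1) u • (c u • d1 σ (κ u)) +
      dy (fun v => (κ v).2) u • (c u • d2 σ (κ u))) + (dy c u / c u) • (c u • σ (κ u)) := by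
    rw [e3, smul_smul (dy c u / c u), div_mul_cancel₀ _ e4]
    module
  rw [f1, f2, e1, r1 _ hcy, r2 _ hcy, ← hs]
  unfold jac
  rw [inv_mul_cancel_left₀ e4]
  ring

end Pool.Agent.H68.KR

end
end

section

/-!
# A variety of dimension `0` is a point

`FunField Q` is algebraic over `ℂ` (`IsTranscendenceBasis` with the empty family: e.g.
`IsTranscendenceBasis.isAlgebraic`, the subalgebra adjoined by the empty range is `⊥`), so every element of it is in the
range of `algebraMap` (`IsAlgClosed.algebraMap_bijective_of_isIntegral` or `IsAlgClosed.algebraMap_surjective_of_isAlgebraic`).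
Let `X j ∉ Q`, so `coordFun Q j ≠ 0` (`Pool.Agent.H92.GT.Proj.aeval_coordFun_eq_zero_iff Q (X j)`).
`Pool.Agent.H92.GT.Proj.proj_point Q hj` gives `y` in `functionField Q` with `y j = 1` and `aeval y G = 0 ↔ G ∈ Q` for forms
`G`.  `y i = algebraMap c_i`; the form `X i - C c_i * X j` has `aeval y = y i - c_i y j = 0`, so it is in `Q`, and every point
`x` of the variety satisfies `x i = c_i * x j`, so `x.rep = x.rep j • c`, `x.rep j ≠ 0`: `x` is the point given by `c`.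
-/

open Topology Filter MvPolynomial

noncomputable section

namespace Pool.Agent.H17BP

open Pool.Agent.H17LG.Variety (FunField)
open Pool.Agent.H62.FC (Homog)

variable {N : ℕ} {Q : Ideal (MvPolynomial (Fin (N + 1)) ℂ)}

theorem eq_of_trdeg_zero [Q.IsPrime] (hQ : Homog Q) (hX : ∃ i, (X i : MvPolynomial (Fin (N + 1)) ℂ) ∉ Q)
    (hz : ∃ z : Fin 0 → FunField Q, IsTranscendenceBasis ℂ z) :
    ∀ x ∈ variety Q, ∀ y ∈ variety Q, x = y := by
  have _ := hQ
  obtain ⟨j, hj⟩ := hX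
  obtain ⟨z, hz⟩ := hz
  have hcj : Pool.Agent.H17GT.coordFun Q j ≠ 0 := by
    intro h
    apply hj
    rw [← Pool.Agent.H92.GT.Proj.aeval_coordFun_eq_zero_iff Q (X j), aeval_X]
    exact h
  obtain ⟨y, hy1, -, hker⟩ := Pool.Agent.H92.GT.Proj.proj_point Q hcj
  have halg : Algebra.IsAlgebraic ℂ (FunField Q) := hz.isEmpty_iff_isAlgebraic.1 inferInstance
  have halg' : Algebra.IsAlgebraic ℂ (Pool.Agent.H17GT.functionField Q) := halg
  have hsurj : Function.Surjective (algebraMap ℂ (Pool.Agent.H17GT.functionField Q)) :=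
    (IsAlgClosed.algebraMap_bijective_of_isIntegral (k := ℂ)
      (K := Pool.Agent.H17GT.functionField Q)).2
  choose c hc using fun i => hsurj (y i)
  have hform : ∀ i, (X i - C (c i) * X j : MvPolynomial (Fin (N + 1)) ℂ).IsHomogeneous 1 := by
    intro i
    refine (isHomogeneous_X ℂ i).sub ?_
    have h := (isHomogeneous_C (Fin (N + 1)) (c i)).mul (isHomogeneous_X ℂ j)
    simpa using h
  have hmem : ∀ i, (X i - C (c i) * X j : MvPolynomial (Fin (N + 1)) ℂ) ∈ Q := by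
    intro i
    rw [← hker 1 _ (hform i), map_sub, map_mul, aeval_X, aeval_X, hy1, mul_one, aeval_C, hc i,
      sub_self]
  have hrep : ∀ x ∈ variety Q, x.rep j ≠ 0 ∧ x.rep = x.rep j • c := by
    intro x hx
    have h1 : x.rep = x.rep j • c := by
      funext i
      have h2 : eval x.rep (X i - C (c i) * X j) = 0 := hx.1 _ (hmem i) 1 (hform i)
      rw [map_sub, map_mul, eval_X, eval_X, eval_C, sub_eq_zero] at h2
      rw [Pi.smul_apply, smul_eq_mul, h2]
      ring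
    refine ⟨fun h2 => x.rep_nonzero ?_, h1⟩
    rw [h1, h2, zero_smul]
  intro x hx x' hx'
  obtain ⟨h1, h2⟩ := hrep x hx
  obtain ⟨h3, h4⟩ := hrep x' hx'
  rw [← x.mk_rep, ← x'.mk_rep, Projectivization.mk_eq_mk_iff']
  refine ⟨x.rep j / x'.rep j, ?_⟩
  rw [h4, h2, smul_smul]
  congr 1
  simp only [Pi.smul_apply, smul_eq_mul]
  have h5 : c j ≠ 0 := by
    intro h6
    apply h1
    have := congrFun h2 j
    rw [Pi.smul_apply, smul_eq_mul, h6, mul_zero] at this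
    exact this
  have h6 : c j = 1 := by
    have h7 : algebraMap ℂ (Pool.Agent.H17GT.functionField Q) (c j) = algebraMap ℂ _ 1 := by
      rw [hc j, hy1, map_one]
    exact (algebraMap ℂ (Pool.Agent.H17GT.functionField Q)).injective h7
  rw [h6, mul_one, mul_one]
  exact div_mul_cancel₀ _ h3

end Pool.Agent.H17BP

end
end

section

/-!
# MQ2 CC2A: algebraic formal separatrices
-/

set_option autoImplicit false

open Topology Filter Metric MvPolynomial Asymptotics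

noncomputable section

namespace Pool.Agent.MQ2

open Pool.Agent.H36.BP (EN)
open Pool.Agent.MQ

variable {M : ℕ} {P : Ideal (MvPolynomial (Fin (M + 1)) ℂ)} {FF : Set (EN M × EN M)}

/-! ## convergent separatrices -/

namespace SepAux

end SepAux

/-- the formal curve lies in no algebraic curve -/
def NA (P : Ideal (MvPolynomial (Fin (M + 1)) ℂ)) (σ : ℂ × ℂ → EN M) (c : ℕ → ℂ → ℂ × ℂ) : Prop :=
  ∀ (R' : MvPolynomial (Fin (M + 1)) ℂ) (d' : ℕ), R'.IsHomogeneous d' → R' ∉ P → ¬ FZero c fun p => eval (σ p).ofLp R'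

/-- one form for all algebraic formal curves of a finite family -/
theorem exists_alg2 [P.IsPrime] {ι : Type} [Fintype ι] (σ : ι → ℂ × ℂ → EN M) (c : ι → ℕ → ℂ → ℂ × ℂ) :
    ∃ (R : MvPolynomial (Fin (M + 1)) ℂ) (d : ℕ), R.IsHomogeneous d ∧ R ∉ P ∧ ∀ i, NA P (σ i) (c i) ∨
      ∃ (R' : MvPolynomial (Fin (M + 1)) ℂ) (d' : ℕ), R'.IsHomogeneous d' ∧ R' ∉ P ∧ R' ∣ R ∧ FZero (c i) fun p => eval (σ i p).ofLp R' := by
  classical
  have hex : ∀ i, ∃ (R : MvPolynomial (Fin (M + 1)) ℂ) (d : ℕ), R.IsHomogeneous d ∧ R ∉ P ∧ (NA P (σ i) (c i) ∨ FZero (c i) fun p => eval (σ i p).ofLp R) := by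
    intro i
    by_cases h : NA P (σ i) (c i)
    · refine ⟨1, 0, isHomogeneous_one _ _, ?_, Or.inl h⟩
      intro h1
      exact (Ideal.IsPrime.ne_top ‹_›) ((Ideal.eq_top_iff_one _).2 h1)
    · simp only [NA, not_forall, not_not] at h
      obtain ⟨R, d, hR, hP, hn⟩ := h
      exact ⟨R, d, hR, hP, Or.inr hn⟩
  choose R d hR hP h using hex
  refine ⟨∏ i, R i, ∑ i, d i, IsHomogeneous.prod _ _ _ fun i _ => hR i, ?_, fun i => ?_⟩
  · intro hmem
    obtain ⟨i, -, hi⟩ := (Ideal.IsPrime.prod_mem_iff (p := P)).1 hmem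
    exact hP i hi
  · exact (h i).imp_right fun h1 => ⟨R i, d i, hR i, hP i, Finset.dvd_prod_of_mem R (Finset.mem_univ i), h1⟩

end Pool.Agent.MQ2

end
end

section

/-!
# MQ2 WtE: the cofactor of a reduced equation of an invariant curve

`v (g) / g` is analytic off `0`: at a smooth zero of `g` divide by the coordinate `g` (`exists_div_x`); the local quotients are unique, as `g` is not
locally zero.  Then `hartogs`.
-/

set_option autoImplicit false

open Topology Filter Metric MvPolynomial Asymptotics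

noncomputable section

namespace Pool.Agent.MQ2

open Pool.Agent.H17BP (Coord coord_iff exists_div_x dx dy)

private theorem WtE_lin {L : ℂ × ℂ →L[ℂ] ℂ} (h1 : L (1, 0) = 0) (h2 : L (0, 1) = 0) : L = 0 := by
  refine ContinuousLinearMap.ext fun x => ?_
  have e : x = x.1 • ((1, 0) : ℂ × ℂ) + x.2 • ((0, 1) : ℂ × ℂ) := by ext <;> simp
  rw [e, map_add, map_smul, map_smul, h1, h2]
  simp

private theorem WtE_coord {l l' T : ℂ × ℂ → ℂ} (hl' : AnalyticAt ℂ l' 0) (hT : Coord l T) (hz : ∀ᶠ x in 𝓝 0, (l x = 0 → l' x = 0)) :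
    ∃ u : ℂ × ℂ → ℂ, AnalyticAt ℂ u 0 ∧ ∀ᶠ x in 𝓝 0, l' x = u x * l x := by
  obtain ⟨θ', g1, g2, g3, g4⟩ := hT.inv
  have han : AnalyticAt ℂ (fun x => (l x, T x)) 0 := hT.an
  have hzero : (fun x => (l x, T x)) (0 : ℂ × ℂ) = 0 := hT.zero
  have hh : AnalyticAt ℂ (fun z => l' (θ' z)) 0 := by
    have : AnalyticAt ℂ l' (θ' 0) := by rw [g2]; exact hl'
    exact this.comp g1
  have hc' : Tendsto θ' (𝓝 0) (𝓝 0) := by
    have := g1.continuousAt.tendsto; rwa [g2] at this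
  have hcθ : Tendsto (fun x => (l x, T x)) (𝓝 (0 : ℂ × ℂ)) (𝓝 0) := by
    have h : Tendsto (fun x => (l x, T x)) (𝓝 (0 : ℂ × ℂ)) (𝓝 ((fun x => (l x, T x)) (0 : ℂ × ℂ))) := han.continuousAt
    rwa [hzero] at h
  have hv : ∀ᶠ y in 𝓝 (0 : ℂ), (fun z => l' (θ' z)) (0, y) = 0 := by
    have e1 : ∀ᶠ z in 𝓝 (0 : ℂ × ℂ), (l (θ' z), T (θ' z)) = z ∧ (l (θ' z) = 0 → l' (θ' z) = 0) := by
      filter_upwards [g4, hc'.eventually hz] with z a b using ⟨a, b⟩
    have e2 : Tendsto (fun y : ℂ => ((0, y) : ℂ × ℂ)) (𝓝 0) (𝓝 0) :=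
      (Continuous.prodMk_right (0 : ℂ)).tendsto' _ _ rfl
    filter_upwards [e2.eventually e1] with y hy
    apply hy.2
    have := congrArg Prod.fst hy.1
    exact this
  obtain ⟨k, hk, hk2⟩ := exists_div_x hh hv
  have hk' : AnalyticAt ℂ (fun x => k (l x, T x)) 0 := by
    have h3 : AnalyticAt ℂ k ((fun x => (l x, T x)) (0 : ℂ × ℂ)) := by rw [hzero]; exact hk
    exact AnalyticAt.comp (g := k) (f := fun x => (l x, T x)) h3 han
  refine ⟨fun x => k (l x, T x), hk', ?_⟩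
  filter_upwards [g3, hcθ.eventually hk2] with x a b
  rw [a] at b
  rw [b, smul_eq_mul, mul_comm]

private theorem WtE_div0 {l l' : ℂ × ℂ → ℂ} (hl : AnalyticAt ℂ l 0) (hl' : AnalyticAt ℂ l' 0) (h0 : l 0 = 0)
    (h : fderiv ℂ l 0 ≠ 0) (hz : ∀ᶠ x in 𝓝 0, (l x = 0 → l' x = 0)) :
    ∃ u : ℂ × ℂ → ℂ, AnalyticAt ℂ u 0 ∧ ∀ᶠ x in 𝓝 0, l' x = u x * l x := by
  by_cases hx : dx l 0 = 0
  · have hy : dy l 0 ≠ 0 := by
      intro hy
      exact h (WtE_lin hx hy)
    have hT : AnalyticAt ℂ (fun x : ℂ × ℂ => x.1) 0 := analyticAt_fst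
    have hd : HasFDerivAt (fun x : ℂ × ℂ => x.1) (ContinuousLinearMap.fst ℂ ℂ ℂ) 0 := hasFDerivAt_fst
    have e1 : dx (fun x : ℂ × ℂ => x.1) 0 = 1 := by
      show fderiv ℂ (fun x : ℂ × ℂ => x.1) 0 (1, 0) = 1
      rw [hd.fderiv]; rfl
    have e2 : dy (fun x : ℂ × ℂ => x.1) 0 = 0 := by
      show fderiv ℂ (fun x : ℂ × ℂ => x.1) 0 (0, 1) = 0
      rw [hd.fderiv]; rfl
    have hc : Coord l (fun x => x.1) := by
      rw [coord_iff hl hT h0 rfl, e1, e2, hx]
      simpa using hy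
    exact WtE_coord hl' hc hz
  · have hT : AnalyticAt ℂ (fun x : ℂ × ℂ => x.2) 0 := analyticAt_snd
    have hd : HasFDerivAt (fun x : ℂ × ℂ => x.2) (ContinuousLinearMap.snd ℂ ℂ ℂ) 0 := hasFDerivAt_snd
    have e1 : dx (fun x : ℂ × ℂ => x.2) 0 = 0 := by
      show fderiv ℂ (fun x : ℂ × ℂ => x.2) 0 (1, 0) = 0
      rw [hd.fderiv]; rfl
    have e2 : dy (fun x : ℂ × ℂ => x.2) 0 = 1 := by
      show fderiv ℂ (fun x : ℂ × ℂ => x.2) 0 (0, 1) = 1
      rw [hd.fderiv]; rfl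
    have hc : Coord l (fun x => x.2) := by
      rw [coord_iff hl hT h0 rfl, e1, e2]
      simpa using hx
    exact WtE_coord hl' hc hz

/-- division by a smooth equation -/
theorem div_smooth {l l' : ℂ × ℂ → ℂ} {p : ℂ × ℂ} (hl : AnalyticAt ℂ l p) (hl' : AnalyticAt ℂ l' p) (h : l p = 0 → fderiv ℂ l p ≠ 0)
    (hz : ∀ᶠ x in 𝓝 p, (l x = 0 → l' x = 0)) : ∃ u : ℂ × ℂ → ℂ, AnalyticAt ℂ u p ∧ ∀ᶠ x in 𝓝 p, l' x = u x * l x := by
  by_cases h0 : l p = 0
  · have ht : AnalyticAt ℂ (fun x : ℂ × ℂ => x + p) 0 := analyticAt_id.add analyticAt_const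
    have ht0 : (fun x : ℂ × ℂ => x + p) 0 = p := zero_add p
    have htc : Tendsto (fun x : ℂ × ℂ => x + p) (𝓝 0) (𝓝 p) := by
      have h : Tendsto (fun x : ℂ × ℂ => x + p) (𝓝 0) (𝓝 ((fun x : ℂ × ℂ => x + p) 0)) := ht.continuousAt
      rwa [ht0] at h
    have a1 : AnalyticAt ℂ (fun x => l (x + p)) 0 := by
      have : AnalyticAt ℂ l ((fun x : ℂ × ℂ => x + p) 0) := by rw [ht0]; exact hl
      exact AnalyticAt.comp (g := l) (f := fun x : ℂ × ℂ => x + p) this ht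
    have a2 : AnalyticAt ℂ (fun x => l' (x + p)) 0 := by
      have : AnalyticAt ℂ l' ((fun x : ℂ × ℂ => x + p) 0) := by rw [ht0]; exact hl'
      exact AnalyticAt.comp (g := l') (f := fun x : ℂ × ℂ => x + p) this ht
    have a3 : fderiv ℂ (fun x => l (x + p)) 0 ≠ 0 := by
      rw [fderiv_comp_add_right, zero_add]
      exact h h0
    obtain ⟨u, hu, hue⟩ := WtE_div0 a1 a2 (by simpa using h0) a3 (htc.eventually hz)
    have hs : AnalyticAt ℂ (fun x : ℂ × ℂ => x - p) p := analyticAt_id.sub analyticAt_const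
    have hs0 : (fun x : ℂ × ℂ => x - p) p = 0 := sub_self p
    have hsc : Tendsto (fun x : ℂ × ℂ => x - p) (𝓝 p) (𝓝 0) := by
      have h : Tendsto (fun x : ℂ × ℂ => x - p) (𝓝 p) (𝓝 ((fun x : ℂ × ℂ => x - p) p)) := hs.continuousAt
      rwa [hs0] at h
    refine ⟨fun x => u (x - p), ?_, ?_⟩
    · have : AnalyticAt ℂ u ((fun x : ℂ × ℂ => x - p) p) := by rw [hs0]; exact hu
      exact AnalyticAt.comp (g := u) (f := fun x : ℂ × ℂ => x - p) this hs
    · filter_upwards [hsc.eventually hue] with x hx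
      rwa [sub_add_cancel] at hx
  · refine ⟨fun x => l' x / l x, hl'.div hl h0, ?_⟩
    filter_upwards [hl.continuousAt.eventually_ne h0] with x hx
    rw [div_mul_cancel₀ _ hx]

/-- the cofactor -/
theorem wt_of_equ {v : ℂ × ℂ → ℂ × ℂ} (hv : Iso v) {g : ℂ × ℂ → ℂ} (hg : AnalyticAt ℂ g 0) (hne : ∃ᶠ p in 𝓝 (0 : ℂ × ℂ), g p ≠ 0)
    (hred : ∀ᶠ p in 𝓝 (0 : ℂ × ℂ), p ≠ 0 → g p = 0 → fderiv ℂ g p ≠ 0)
    (hinv : ∀ᶠ p in 𝓝 (0 : ℂ × ℂ), p ≠ 0 → g p = 0 → fderiv ℂ g p (v p) = 0) : Wt v g := by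
  classical
  refine ⟨hg, hne, ?_, hred⟩
  obtain ⟨H, hH⟩ : ∃ H : ℂ × ℂ → ℂ, H = fun p => fderiv ℂ g p (v p) := ⟨_, rfl⟩
  have hHa : AnalyticAt ℂ H 0 := by
    rw [hH]
    exact AnalyticAt.comp (g := fun q : (ℂ × ℂ →L[ℂ] ℂ) × (ℂ × ℂ) => q.1 q.2) (f := fun p => (fderiv ℂ g p, v p))
      ((ContinuousLinearMap.id ℂ (ℂ × ℂ →L[ℂ] ℂ)).analyticAt_bilinear (fderiv ℂ g 0, v 0)) (hg.fderiv.prod hv.1)
  -- the local quotients
  have hloc : ∀ᶠ p in 𝓝 (0 : ℂ × ℂ), p ≠ 0 → (∃ᶠ x in 𝓝 p, g x ≠ 0) ∧ ∃ u : ℂ × ℂ → ℂ, AnalyticAt ℂ u p ∧ ∀ᶠ x in 𝓝 p, H x = u x * g x := by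
    filter_upwards [hg.eventually_analyticAt, hHa.eventually_analyticAt, hred, hinv.eventually_nhds] with p h1 h2 h3 h4 hp
    refine ⟨?_, div_smooth h1 h2 (h3 hp) ?_⟩
    · intro h5
      have h6 : ∀ᶠ x in 𝓝 p, g x = 0 := by
        filter_upwards [h5] with x hx
        exact not_not.1 hx
      have h7 : fderiv ℂ g p = 0 := by
        have : g =ᶠ[𝓝 p] fun _ => 0 := h6
        rw [this.fderiv_eq]
        simp
      exact h3 hp h6.self_of_nhds h7
    · filter_upwards [h4, isOpen_ne.mem_nhds hp] with x h5 h6 h7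
      rw [hH]
      exact h5 h6 h7
  obtain ⟨f, hf⟩ : ∃ f : ℂ × ℂ → ℂ, f = fun p => if h : ∃ u : ℂ × ℂ → ℂ, AnalyticAt ℂ u p ∧ ∀ᶠ x in 𝓝 p, H x = u x * g x then h.choose p else 0 :=
    ⟨_, rfl⟩
  have huniq : ∀ (p : ℂ × ℂ), (∃ᶠ x in 𝓝 p, g x ≠ 0) → ∀ u : ℂ × ℂ → ℂ, AnalyticAt ℂ u p → (∀ᶠ x in 𝓝 p, H x = u x * g x) → f p = u p := by
    intro p hp u hu hue
    have hex : ∃ u : ℂ × ℂ → ℂ, AnalyticAt ℂ u p ∧ ∀ᶠ x in 𝓝 p, H x = u x * g x := ⟨u, hu, hue⟩
    have h1 : f p = hex.choose p := by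
      rw [hf]
      simp only
      rw [dif_pos hex]
    rw [h1]
    by_contra hcon
    have h2 : ∀ᶠ x in 𝓝 p, hex.choose x - u x ≠ 0 :=
      (hex.choose_spec.1.continuousAt.sub hu.continuousAt).eventually_ne (sub_ne_zero.2 hcon)
    apply hp
    filter_upwards [h2, hex.choose_spec.2, hue] with x h3 h4 h5
    rw [not_not]
    have h6 : (hex.choose x - u x) * g x = 0 := by
      rw [sub_mul, ← h4, ← h5, sub_self]
    exact (mul_eq_zero.1 h6).resolve_left h3
  have hfan : ∀ᶠ p in 𝓝 (0 : ℂ × ℂ), p ≠ 0 → AnalyticAt ℂ f p ∧ H p = f p * g p := by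
    filter_upwards [hloc.eventually_nhds] with p h1 hp
    obtain ⟨h2, u, hu, hue⟩ := h1.self_of_nhds hp
    have h3 : u =ᶠ[𝓝 p] f := by
      filter_upwards [h1, isOpen_ne.mem_nhds hp, hu.eventually_analyticAt, hue.eventually_nhds] with w h4 h5 h6 h7
      exact (huniq w (h4 h5).1 u h6 h7).symm
    refine ⟨hu.congr h3, ?_⟩
    rw [hue.self_of_nhds, huniq p h2 u hu hue]
  obtain ⟨c, hc, hcf⟩ := hartogs (f := f) (by filter_upwards [hfan] with p h1 hp using (h1 hp).1)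
  refine ⟨c, hc, ?_⟩
  have h1 : ∀ᶠ p in 𝓝 (0 : ℂ × ℂ), p ≠ 0 → H p = c p * g p := by
    filter_upwards [hfan, hcf] with p h2 h3 hp
    rw [h3 hp]
    exact (h2 hp).2
  have h2 : H 0 = c 0 * g 0 := by
    have e1 : Tendsto H (𝓝[≠] (0 : ℂ × ℂ)) (𝓝 (H 0)) := hHa.continuousAt.tendsto.mono_left nhdsWithin_le_nhds
    have e2 : Tendsto (fun p => c p * g p) (𝓝[≠] (0 : ℂ × ℂ)) (𝓝 (c 0 * g 0)) :=
      (hc.continuousAt.mul hg.continuousAt).tendsto.mono_left nhdsWithin_le_nhds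
    refine tendsto_nhds_unique (e1.congr' ?_) e2
    exact eventually_nhdsWithin_iff.2 h1
  filter_upwards [h1] with p h3
  have h4 : H p = c p * g p := by
    by_cases hp : p = 0
    · rw [hp]
      exact h2
    · exact h3 hp
  rw [hH] at h4
  exact h4

end Pool.Agent.MQ2

end
end

section

/-!
# SY EiM: limits of entire curves, the metric of the blow-up

Along an ultrafilter the lifts `Φ n` of the curves `F n`, normalised by units (`char_fun`), converge near `0` to a curve `Ψ` of the blow-up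
(`montel_ultrafilter`).  The components of `Ψ z` are multiples of `H z` (`lift_prop`), so the property `lim` upstairs gives `H z ∉ T` for some `z`.
If all the `H z` are proportional, then they are not multiples of `q`, and `Ψ z` is proportional to `phi l (H z)`: `Ψ` is constant, a contradiction.
-/

set_option autoImplicit false

open Topology Filter Metric

noncomputable section

namespace Pool.Agent.SY

open Pool.Agent.H36.BP (EN fs wd Sub)
open Pool.Agent.H17BP (Pr Surface)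
open Pool.Agent.H62.BU (blow total Ker phi)

variable {V : Type} [NormedAddCommGroup V] [NormedSpace ℂ V] {ι : Type} [Fintype ι] {l : ι → V →L[ℂ] ℂ} {X T : Set V} {q : V}

/-- the multiplier of the lift does not vanish identically near any point -/
private theorem eim_ne (hX : Surface X) (hl : Ker l q) (hT : ∀ x ∈ T, ∀ c : ℂ, c ≠ 0 → c • x ∈ T) (hq : q ∈ T) {F : ℂ → V}
    (hF : Ent X T F) {Φ : ℂ → ι → V} {h : ℂ → ℂ} (hh : Differentiable ℂ h) (hphi : ∀ z, phi l (F z) = h z • Φ z) (z₀ : ℂ) :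
    ∀ᶠ z in 𝓝[≠] z₀, h z ≠ 0 := by
  rcases (hh.analyticAt z₀).eventually_eq_zero_or_eventually_ne_zero with h1 | h1
  · exfalso
    have h2 : ∀ z, h z = 0 := by
      intro z
      have h3 : AnalyticOnNhd ℂ h Set.univ := fun w _ => hh.analyticAt w
      exact h3.eqOn_zero_of_preconnected_of_eventuallyEq_zero isPreconnected_univ (Set.mem_univ z₀) h1 (Set.mem_univ z)
    obtain ⟨z, hz⟩ := hF.out
    apply hz
    have hne : F z ≠ 0 := fun h0 => hX.zero (h0 ▸ hF.mem z)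
    have h4 : ∀ b, l b (F z) = 0 := by
      intro b
      have h5 := congrFun (hphi z) b
      rw [h2 z, zero_smul] at h5
      have h6 : l b (F z) • F z = 0 := h5
      exact (smul_eq_zero.mp h6).resolve_right hne
    obtain ⟨c, hc⟩ := (hl (F z)).mp h4
    have hc0 : c ≠ 0 := by
      rintro rfl
      rw [zero_smul] at hc
      exact hne hc
    rw [hc]
    exact hT q hq c hc0
  · exact h1

/-- the components of the lift are proportional to the curve -/
theorem lift_prop (hX : Surface X) (hl : Ker l q) (hT : ∀ x ∈ T, ∀ c : ℂ, c ≠ 0 → c • x ∈ T) (hq : q ∈ T) {F : ℂ → V}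
    (hF : Ent X T F) {Φ : ℂ → ι → V} (h1 : IsLiftB l X T F Φ) (Λ : V →L[ℂ] ℂ) (b : ι) (z₀ : ℂ) :
    Λ (Φ z₀ b) • F z₀ = Λ (F z₀) • Φ z₀ b := by
  obtain ⟨hΦ, h, hh, hphi⟩ := h1
  have hc1 : Continuous F := hF.diff.continuous
  have hc2 : Continuous (fun z => Φ z b) := (continuous_apply b).comp hΦ.diff.continuous
  have h2 : Tendsto (fun z => Λ (Φ z b) • F z) (𝓝[≠] z₀) (𝓝 (Λ (Φ z₀ b) • F z₀)) :=
    ((Λ.continuous.comp hc2).smul hc1).continuousAt.tendsto.mono_left nhdsWithin_le_nhds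
  have h3 : Tendsto (fun z => Λ (F z) • Φ z b) (𝓝[≠] z₀) (𝓝 (Λ (F z₀) • Φ z₀ b)) :=
    ((Λ.continuous.comp hc1).smul hc2).continuousAt.tendsto.mono_left nhdsWithin_le_nhds
  refine tendsto_nhds_unique_of_eventuallyEq h2 h3 ?_
  filter_upwards [eim_ne hX hl hT hq hF hh hphi z₀] with z hz
  have h4 : l b (F z) • F z = h z • Φ z b := congrFun (hphi z) b
  have h5 : Φ z b = ((h z)⁻¹ * l b (F z)) • F z := by
    rw [mul_smul, h4, smul_smul, inv_mul_cancel₀ hz, one_smul]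
  rw [h5, map_smul, smul_smul, smul_eq_mul, mul_comm]

end Pool.Agent.SY

end
end
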