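import Pool.Agent.H43.TL2.M19
import Pool.Agent.H43.TL2.M37
import Pool.Agent.H43.TL2.M50
import Pool.Agent.H43.TL2.M52
import Pool.Agent.H43.TL2.M56

/-! The parts of this file: H13.SM.Dim, H13.SM.Cone, H68.KR.SMC, H7.Qup.Defs, MQ2.StepA, SDA.RDefs. -/

section

/-!
# The dimension is at most `N`

PROOF.  Choose `l` with `coordFun P l ≠ 0` (if `coordFun P i = 0` for all `i` then the function field is
`ℂ` and `n = 0`; or use `h`).  By `adjoin_ratio` the field `FunField P` is generated over `ℂ` by the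
`ratio P i l`, `i ≠ l` (`ratio P l l = 1`), a set with at most `N` elements, so it contains a
transcendence basis indexed by a subset `s` of `{i | i ≠ l}` (`exists_isTranscendenceBasis_subset` /
`exists_isTranscendenceBasis_between` with the fact that `FunField P` is algebraic over the subalgebra
generated by the set), and `n = |s| ≤ N` (`IsTranscendenceBasis.cardinalMk_eq`).
-/

open MvPolynomial
open Pool.Agent.H17GT (coordFun functionField)
open Pool.Agent.H17LG.Variety (FunField ratio)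

noncomputable section

namespace Pool.Agent.H13.SM

variable {N : ℕ} {P : Ideal (MvPolynomial (Fin (N + 1)) ℂ)}

theorem trdeg_le [P.IsPrime] {l : Fin (N + 1)} (h : coordFun P l ≠ 0) {n : ℕ}
    {z : Fin n → FunField P} (hz : IsTranscendenceBasis ℂ z) : n ≤ N := by
  have htop : IntermediateField.adjoin ℂ
      (Set.range fun i : Fin N => ratio P (l.succAbove i) l) = ⊤ := by
    rw [eq_top_iff, ← Pool.Agent.H17R.adjoin_ratio h, IntermediateField.adjoin_le_iff]
    rintro y ⟨i, rfl⟩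
    dsimp only
    rcases Fin.eq_self_or_eq_succAbove l i with hi | ⟨j, hj⟩
    · rw [hi, Pool.Agent.H17R.ratio_self h]
      exact one_mem _
    · rw [hj]
      exact IntermediateField.subset_adjoin _ _ ⟨j, rfl⟩
  have halg : Algebra.IsAlgebraic (IntermediateField.adjoin ℂ
      (Set.range fun i : Fin N => ratio P (l.succAbove i) l)) (FunField P) := by
    rw [htop]
    refine ⟨fun a => ?_⟩
    exact isAlgebraic_algebraMap (⟨a, IntermediateField.mem_top⟩ :
      (⊤ : IntermediateField ℂ (FunField P)))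
  obtain ⟨J, hJ⟩ := Pool.Agent.H92.GT.exists_index halg hz
  have hinj : Function.Injective J := by
    intro a b hab
    apply hJ.1.injective
    dsimp only
    rw [hab]
  have := Fintype.card_le_of_injective J hinj
  simpa using this

end Pool.Agent.H13.SM

end
end

section

/-!
# Charts of the affine cone of a smooth projective variety

PROOF.  `X l ∉ P` as `x l ≠ 0`, so `coordFun P l ≠ 0` (`coordFun_ne_zero_iff`).  Let `w = (x l)⁻¹ • x`: a
point of the cone (`cone_smul`) with `w l = 1`, so `w ∈ pts a`, `a i = ratio P i l` (`mem_pts_iff`).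
`a` generates the field (`adjoin_ratio`).  By `exists_indep` (at `w`) there are `f : Fin (N - n) → _` in
`P`, by `indep_snoc` the family `f, X l - 1` has independent gradients at `w` and all of its members
vanish at `a` (`gen_eq_zero_iff` for homogeneous components; or: `aeval a (f j) = 0` because
of `Homog P`; prove it as in `mem_pts_iff`).  `(N - n + 1) + n = N + 1` by `trdeg_le`.  Let `I, τ` be the
chart of `exists_chart`, and `σ u = x l • τ u`.  Then `σ 0 = x l • w = x`; `σ u` is in the cone and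
`σ u l = x l * τ u l = x l` (`mem_pts_iff`); `σ u (I k) = x l * (w (I k) + u k) = x (I k) + x l * u k`.
For `y` near `x` in the cone: `y l ≠ 0`, `y' = (y l)⁻¹ • y` is in `pts a` and near `w`, so
`y' = τ (fun k => y' (I k) - w (I k))`, and `y = y l • y' = (y l / x l) • σ (...)`, where
`y' (I k) - w (I k) = y (I k) / y l - x (I k) / x l`.
Last clause: for a form `Q` of degree `d` not in `P`, `aeval a Q = gen P l Q ≠ 0` and
`eval (σ u) Q = x l ^ d * eval (τ u) Q`.
-/

open MvPolynomial Topology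
open Pool.Agent.H17GT (coordFun functionField)
open Pool.Agent.H17LG.Variety (FunField ratio)
open Pool.Agent.H62.FC (Homog)

noncomputable section

namespace Pool.Agent.H13.SM

variable {N : ℕ} {P : Ideal (MvPolynomial (Fin (N + 1)) ℂ)}

private theorem Cone_aeval_mem [P.IsPrime] (hP : Homog P) {l : Fin (N + 1)} (h : coordFun P l ≠ 0)
    {Q : MvPolynomial (Fin (N + 1)) ℂ} (hQ : Q ∈ P) : aeval (fun i => ratio P i l) Q = 0 := by
  rw [← MvPolynomial.sum_homogeneousComponent Q, map_sum]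
  refine Finset.sum_eq_zero fun d _ => ?_
  exact (Pool.Agent.H17R.gen_eq_zero_iff h (MvPolynomial.homogeneousComponent_isHomogeneous d Q)).2
    (hP Q hQ d)

private theorem Cone_eval_smul {Q : MvPolynomial (Fin (N + 1)) ℂ} {d : ℕ} (hQ : Q.IsHomogeneous d)
    (c : ℂ) (y : Fin (N + 1) → ℂ) : eval (c • y) Q = c ^ d * eval y Q := by
  have h1 := Pool.Agent.H92.GT.Proj.aeval_scale hQ (c := c) (x := y)
  have h2 : ∀ z : Fin (N + 1) → ℂ, aeval z Q = eval z Q := fun z => by
    rw [MvPolynomial.aeval_eq_eval]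
  rw [h2, h2] at h1
  exact h1

theorem exists_coneChart [P.IsPrime] (hP : Homog P) {n : ℕ} {z : Fin n → FunField P}
    (hz : IsTranscendenceBasis ℂ z)
    (hsm : ∀ y : Fin (N + 1) → ℂ, y ≠ 0 → (∀ Q ∈ P, eval y Q = 0) →
      Module.finrank ℂ (conTan P y) ≤ n + 1)
    {x : Fin (N + 1) → ℂ} (hx : ∀ Q ∈ P, eval x Q = 0) {l : Fin (N + 1)} (hl : x l ≠ 0) :
    ∃ (I : Fin n → Fin (N + 1)) (σ : (Fin n → ℂ) → Fin (N + 1) → ℂ),
      AnalyticAt ℂ σ 0 ∧ σ 0 = x ∧
      (∀ᶠ u in 𝓝 0, (∀ Q ∈ P, eval (σ u) Q = 0) ∧ σ u l = x l ∧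
        ∀ k, σ u (I k) = x (I k) + x l * u k) ∧
      (∀ᶠ y in 𝓝 x, (∀ Q ∈ P, eval y Q = 0) →
        y = (y l / x l) • σ (fun k => y (I k) / y l - x (I k) / x l)) ∧
      ∀ (d : ℕ) (Q : MvPolynomial (Fin (N + 1)) ℂ), Q.IsHomogeneous d → Q ∉ P →
        ¬ ∀ᶠ u in 𝓝 0, eval (σ u) Q = 0 := by
  have hXl : (X l : MvPolynomial (Fin (N + 1)) ℂ) ∉ P := by
    intro h
    have h1 := hx _ h
    rw [eval_X] at h1
    exact hl h1
  have hcf : coordFun P l ≠ 0 := Pool.Agent.H17R.coordFun_ne_zero_iff.2 hXl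
  obtain ⟨w, hw⟩ : ∃ w : Fin (N + 1) → ℂ, w = (x l)⁻¹ • x := ⟨_, rfl⟩
  have hwP : ∀ Q ∈ P, eval w Q = 0 := by
    rw [hw]
    exact cone_smul hP hx _
  have hwl : w l = 1 := by
    rw [hw, Pi.smul_apply, smul_eq_mul, inv_mul_cancel₀ hl]
  have hwk : ∀ i, x l * w i = x i := by
    intro i
    rw [hw, Pi.smul_apply, smul_eq_mul, mul_inv_cancel_left₀ hl]
  have hwx : x l • w = x := by
    rw [hw, smul_inv_smul₀ hl]
  have hw0 : w ≠ 0 := by
    intro h
    rw [h, Pi.zero_apply] at hwl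
    exact zero_ne_one hwl
  have hwp : w ∈ pts (fun i => ratio P i l) := (mem_pts_iff hP hcf).2 ⟨hwl, hwP⟩
  obtain ⟨f, hf, hli⟩ := exists_indep (hsm w hw0 hwP)
  have hli' := indep_snoc hP hwP hwl hf hli
  have hnN : n ≤ N := trdeg_le hcf hz
  have hf' : ∀ j, aeval (fun i => ratio P i l)
      ((Fin.snoc f (X l - 1) : Fin (N - n + 1) → MvPolynomial (Fin (N + 1)) ℂ) j) = 0 := by
    intro j
    refine Fin.lastCases ?_ (fun j => ?_) j
    · rw [Fin.snoc_last, map_sub, aeval_X, map_one, Pool.Agent.H17R.ratio_self hcf, sub_self]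
    · rw [Fin.snoc_castSucc]
      exact Cone_aeval_mem hP hcf (hf j)
  obtain ⟨I, τ, hτa, hτ0, hτ1, hτ2, hτ3⟩ := exists_chart
    (Pool.Agent.H17R.adjoin_ratio hcf) hz (c := N - n + 1) (by rw [Fintype.card_fin]; omega)
    hf' hwp hli'
  refine ⟨I, fun u => x l • τ u, ?_, ?_, ?_, ?_, ?_⟩
  · exact (analyticAt_const (v := x l)).smul hτa
  · simp only [hτ0]
    exact hwx
  · filter_upwards [hτ1] with u hu
    obtain ⟨h1, h2⟩ := hu
    obtain ⟨h3, h4⟩ := (mem_pts_iff hP hcf).1 h1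
    refine ⟨cone_smul hP h4 _, ?_, fun k => ?_⟩
    · rw [Pi.smul_apply, smul_eq_mul, h3, mul_one]
    · rw [Pi.smul_apply, smul_eq_mul, h2 k, mul_add, hwk]
  · have hc : ContinuousAt (fun y : Fin (N + 1) → ℂ => (y l)⁻¹ • y) x := by
      have h1 : ContinuousAt (fun y : Fin (N + 1) → ℂ => y l) x :=
        (continuous_apply l).continuousAt
      exact (h1.inv₀ hl).smul continuousAt_id
    have hc' : Filter.Tendsto (fun y : Fin (N + 1) → ℂ => (y l)⁻¹ • y) (𝓝 x) (𝓝 w) := by
      rw [hw]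
      exact hc
    have hne : ∀ᶠ y in 𝓝 x, (y : Fin (N + 1) → ℂ) l ≠ 0 :=
      (continuous_apply l).continuousAt.eventually_ne hl
    filter_upwards [hc'.eventually hτ2, hne] with y hy hyl hyP
    have h1 : (y l)⁻¹ • y ∈ pts (fun i => ratio P i l) := by
      rw [mem_pts_iff hP hcf]
      refine ⟨?_, cone_smul hP hyP _⟩
      rw [Pi.smul_apply, smul_eq_mul, inv_mul_cancel₀ hyl]
    have h2 := hy h1
    have h3 : (fun k => ((y l)⁻¹ • y) (I k) - w (I k)) =
        fun k => y (I k) / y l - x (I k) / x l := by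
      funext k
      rw [hw, Pi.smul_apply, Pi.smul_apply, smul_eq_mul, smul_eq_mul, div_eq_inv_mul,
        div_eq_inv_mul]
    rw [h3] at h2
    rw [← h2, smul_smul, smul_smul]
    have h4 : y l / x l * x l * (y l)⁻¹ = 1 := by
      field_simp
    rw [h4, one_smul]
  · intro d Q hQ hQP hev
    have h1 : aeval (fun i => ratio P i l) Q ≠ 0 := fun h =>
      hQP ((Pool.Agent.H17R.gen_eq_zero_iff hcf hQ).1 h)
    refine hτ3 Q h1 ?_
    filter_upwards [hev] with u hu
    rw [Cone_eval_smul hQ] at hu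
    exact (mul_eq_zero.1 hu).resolve_left (pow_ne_zero _ hl)

end Pool.Agent.H13.SM

end
end

section

/-!
# KR SMC: smooth surfaces of general type carry a holomorphic section of `M K - H`
-/

set_option autoImplicit false

open MvPolynomial Topology Filter
open Pool.Agent.H17LG.Variety (FunField ratio PoleAtMost IsLogGeneralType)
open Pool.Agent.H17BP (Tan IsForm NoZeros)
open Pool.Agent.H62.FC (Homog)
open Pool.Agent.H13.SM (conTan)

noncomputable section

namespace Pool.Agent.H68.KR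

variable {N : ℕ} {P : Ideal (MvPolynomial (Fin (N + 1)) ℂ)}

theorem exists_cchart [P.IsPrime] (hP : Homog P) {z : Fin 2 → FunField P}
    (hz : IsTranscendenceBasis ℂ z)
    (hsm : ∀ y : Fin (N + 1) → ℂ, y ≠ 0 → (∀ Q ∈ P, eval y Q = 0) →
      Module.finrank ℂ (conTan P y) ≤ 2 + 1) :
    ∀ x ∈ cone P, ∃ t σ, CChart P x t σ := by
  intro x hx
  obtain ⟨l, hl⟩ : ∃ l, x l ≠ 0 := by
    by_contra h
    push Not at h
    exact hx.1 (funext h)
  obtain ⟨I, σ, han, h0, hmem, hsurj, hnd⟩ := Pool.Agent.H13.SM.exists_coneChart hP hz hsm hx.2 hl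
  -- the linear map `u ↦ ![u.1, u.2]`
  set e : (ℂ × ℂ) → (Fin 2 → ℂ) := fun u => ![u.1, u.2] with he
  have hean : AnalyticAt ℂ e 0 := by
    rw [analyticAt_pi_iff]
    intro i
    fin_cases i
    · exact analyticAt_fst
    · exact analyticAt_snd
  have he0 : e 0 = 0 := by
    funext i
    fin_cases i <;> rfl
  have het : Tendsto e (𝓝 0) (𝓝 0) := by
    have := hean.continuousAt.tendsto
    rwa [he0] at this
  have hinv : ∀ w : Fin 2 → ℂ, e (w 0, w 1) = w := by
    intro w
    funext i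
    fin_cases i <;> rfl
  refine ⟨![l, I 0, I 1], fun u => σ (e u), ?_⟩
  have hm := het.eventually hmem
  refine
    { an := ?_
      zero := ?_
      ne := hl
      mem := hm.mono fun u hu => hu.1
      c0 := hm.mono fun u hu => hu.2.1
      c1 := hm.mono fun u hu => hu.2.2 0
      c2 := hm.mono fun u hu => hu.2.2 1
      surj := ?_
      nd := ?_ }
  · have h1 : AnalyticAt ℂ σ (e 0) := by rw [he0]; exact han
    exact h1.comp hean
  · simp only [he0, h0]
  · filter_upwards [hsurj] with y hy hyP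
    have h1 := hy hyP
    rw [← hinv (fun k => y (I k) / y l - x (I k) / x l)] at h1
    exact h1
  · intro d Q hQ hQP h
    apply hnd d Q hQ hQP
    have hpr : Tendsto (fun w : Fin 2 → ℂ => (w 0, w 1)) (𝓝 0) (𝓝 (0 : ℂ × ℂ)) := by
      have h2 : Continuous fun w : Fin 2 → ℂ => (w 0, w 1) := by fun_prop
      have := h2.tendsto 0
      exact this
    have h3 := hpr.eventually h
    filter_upwards [h3] with w hw
    rw [hinv] at hw
    exact hw

end Pool.Agent.H68.KR

end
end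

section

/-!
# Qup Defs: dominant regular maps of quasi-projective varieties
-/

set_option autoImplicit false

open Topology Filter MvPolynomial

noncomputable section

namespace Pool.Agent.H7.Qup

open Pool.Agent.H17 (PN VanishesAt)
open Pool.Agent.H62.FC (Homog)
open Pool.Agent.H62.SA (locVar)
open Pool.Agent.H7.Bir (vals rmap vals_smul mem_of_open)

variable {N M : ℕ}

/-- `p` is a dominant regular map from the quasi-projective variety `U' = locVar P' G'` to the quasi-projective variety `U = locVar P G`. -/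
structure IsDominantMap (P : Ideal (MvPolynomial (Fin (N + 1)) ℂ)) (P' : Ideal (MvPolynomial (Fin (M + 1)) ℂ)) {s s' : ℕ}
    (G : Fin s → MvPolynomial (Fin (N + 1)) ℂ) (G' : Fin s' → MvPolynomial (Fin (M + 1)) ℂ) (p : PN M → PN N) : Prop where
  /-- `p` maps `U'` into `U` -/
  maps : ∀ y ∈ locVar P' G', p y ∈ locVar P G
  /-- near every point of `U'` the map `p` is given by forms of the same degree -/
  regular : ∀ y ∈ locVar P' G', ∃ (D : ℕ) (γ : Fin (N + 1) → MvPolynomial (Fin (M + 1)) ℂ), (∀ i, (γ i).IsHomogeneous D) ∧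
    vals γ y.rep ≠ 0 ∧ ∀ y' ∈ locVar P' G', vals γ y'.rep ≠ 0 → p y' = rmap γ y'
  /-- the image is Zariski dense -/
  dense : ∀ (Q : MvPolynomial (Fin (N + 1)) ℂ) (n : ℕ), Q.IsHomogeneous n → (∀ y ∈ locVar P' G', VanishesAt Q (p y)) → Q ∈ P

variable {P : Ideal (MvPolynomial (Fin (N + 1)) ℂ)} {P' : Ideal (MvPolynomial (Fin (M + 1)) ℂ)} {s s' : ℕ}
  {G : Fin s → MvPolynomial (Fin (N + 1)) ℂ} {G' : Fin s' → MvPolynomial (Fin (M + 1)) ℂ} {p : PN M → PN N}

/-- The forms `γ i` represent `p` on `U'`. -/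
structure Rep (P' : Ideal (MvPolynomial (Fin (M + 1)) ℂ)) (G' : Fin s' → MvPolynomial (Fin (M + 1)) ℂ) (p : PN M → PN N) (D : ℕ)
    (γ : Fin (N + 1) → MvPolynomial (Fin (M + 1)) ℂ) : Prop where
  hom : ∀ i, (γ i).IsHomogeneous D
  rep : ∀ y ∈ locVar P' G', vals γ y.rep ≠ 0 → p y = rmap γ y

theorem IsDominantMap.exists_rep (hp : IsDominantMap P P' G G' p) {y : PN M} (hy : y ∈ locVar P' G') :
    ∃ (D : ℕ) (γ : Fin (N + 1) → MvPolynomial (Fin (M + 1)) ℂ), Rep P' G' p D γ ∧ vals γ y.rep ≠ 0 := by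
  obtain ⟨D, γ, h1, h2, h3⟩ := hp.regular y hy
  exact ⟨D, γ, ⟨h1, h3⟩, h2⟩

theorem aeval_homog {γ : Fin (N + 1) → MvPolynomial (Fin (M + 1)) ℂ} {D : ℕ} (hγ : ∀ i, (γ i).IsHomogeneous D) {n : ℕ}
    {Q : MvPolynomial (Fin (N + 1)) ℂ} (hQ : Q.IsHomogeneous n) : (aeval γ Q).IsHomogeneous (D * n) :=
  hQ.aeval _ hγ

theorem eval_smul {n : ℕ} {Q : MvPolynomial (Fin (N + 1)) ℂ} (hQ : Q.IsHomogeneous n) (c : ℂ) (x : Fin (N + 1) → ℂ) :
    eval (c • x) Q = c ^ n * eval x Q :=
  Pool.Agent.H17BP.eval_smul_form hQ c x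

/-- Two systems of forms which represent `p` are proportional at every point. -/
theorem Rep.prop {D D' : ℕ} {γ γ' : Fin (N + 1) → MvPolynomial (Fin (M + 1)) ℂ} (h : Rep P' G' p D γ) (h' : Rep P' G' p D' γ')
    {y : PN M} (hy : y ∈ locVar P' G') (i j : Fin (N + 1)) :
    eval y.rep (γ i) * eval y.rep (γ' j) = eval y.rep (γ j) * eval y.rep (γ' i) := by
  by_cases h1 : vals γ y.rep = 0
  · have h2 : ∀ i, eval y.rep (γ i) = 0 := fun i => congrFun h1 i
    rw [h2 i, h2 j]
    ring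
  by_cases h3 : vals γ' y.rep = 0
  · have h2 : ∀ i, eval y.rep (γ' i) = 0 := fun i => congrFun h3 i
    rw [h2 i, h2 j]
    ring
  have h4 : rmap γ y = rmap γ' y := by
    rw [← h.rep y hy h1, ← h'.rep y hy h3]
  unfold Pool.Agent.H7.Bir.rmap at h4
  rw [dif_pos h1, dif_pos h3, Projectivization.mk_eq_mk_iff'] at h4
  obtain ⟨a, ha⟩ := h4
  have h5 : ∀ i, eval y.rep (γ i) = a * eval y.rep (γ' i) := fun i => (congrFun ha i).symm
  rw [h5 i, h5 j]
  ring

/-- The value of a form at the image of a point. -/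
theorem Rep.vanishes_iff {D : ℕ} {γ : Fin (N + 1) → MvPolynomial (Fin (M + 1)) ℂ} (h : Rep P' G' p D γ) {y : PN M} (hy : y ∈ locVar P' G')
    (hv : vals γ y.rep ≠ 0) {n : ℕ} {Q : MvPolynomial (Fin (N + 1)) ℂ} (hQ : Q.IsHomogeneous n) :
    VanishesAt Q (p y) ↔ eval y.rep (aeval γ Q) = 0 := by
  rw [h.rep y hy hv, Pool.Agent.H7.Bir.vanishesAt_rmap hv hQ]
  rfl

/-- The forms which represent `p` define a dominant rational map. -/
theorem IsDominantMap.maps_iff [P.IsPrime] [P'.IsPrime] (hp : IsDominantMap P P' G G' p) (hP' : Homog P')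
    (hG' : ∀ m, ∃ n, (G' m).IsHomogeneous n) {D : ℕ} {γ : Fin (N + 1) → MvPolynomial (Fin (M + 1)) ℂ} (hγ : Rep P' G' p D γ)
    (hne : ∃ y ∈ locVar P' G', vals γ y.rep ≠ 0) (n : ℕ) (Q : MvPolynomial (Fin (N + 1)) ℂ) (hQ : Q.IsHomogeneous n) :
    aeval γ Q ∈ P' ↔ Q ∈ P := by
  obtain ⟨y₀, hy₀, hne⟩ := hne
  have hnon : (locVar P' G').Nonempty := ⟨y₀, hy₀⟩
  constructor
  · intro h
    refine hp.dense Q n hQ fun y' hy' => ?_
    obtain ⟨D', γ', hγ', hne'⟩ := hp.exists_rep hy'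
    rw [hγ'.vanishes_iff hy' hne' hQ]
    obtain ⟨j, hj⟩ : ∃ j, eval y₀.rep (γ j) ≠ 0 := by
      by_contra hcon
      push Not at hcon
      exact hne (funext hcon)
    have hjP : γ j ∉ P' := fun h1 => hj (hy₀.1 _ h1 D (hγ.hom j))
    have hmem : γ j ^ n * aeval γ' Q ∈ P' := by
      refine mem_of_open hP' hG' hnon (((hγ.hom j).pow n).mul (aeval_homog hγ'.hom hQ)) fun y hy => ?_
      have h3 : eval y.rep (aeval γ Q) = 0 := hy.1 _ h _ (aeval_homog hγ.hom hQ)
      unfold VanishesAt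
      rw [map_mul, map_pow, Pool.Agent.H7.Bir.eval_comp, ← eval_smul hQ]
      have h4 : eval y.rep (γ j) • vals γ' y.rep = eval y.rep (γ' j) • vals γ y.rep := by
        funext i
        have h5 := hγ.prop hγ' hy j i
        change eval y.rep (γ j) * eval y.rep (γ' i) = eval y.rep (γ' j) * eval y.rep (γ i)
        rw [h5, mul_comm]
      rw [h4, eval_smul hQ, ← Pool.Agent.H7.Bir.eval_comp, h3, mul_zero]
    rcases Ideal.IsPrime.mem_or_mem inferInstance hmem with h1 | h1
    · exact absurd (Ideal.IsPrime.mem_of_pow_mem inferInstance n h1) hjP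
    · exact hy'.1 _ h1 _ (aeval_homog hγ'.hom hQ)
  · intro h
    refine mem_of_open hP' hG' hnon (aeval_homog hγ.hom hQ) fun y hy => ?_
    have h2 : eval (p y).rep Q = 0 := (hp.maps y hy).1 Q h n hQ
    by_cases h1 : vals γ y.rep = 0
    · unfold VanishesAt
      rw [Pool.Agent.H7.Bir.eval_comp, h1]
      have h3 := eval_smul hQ 0 (p y).rep
      rw [zero_smul, h2, mul_zero] at h3
      exact h3
    · exact (hγ.vanishes_iff hy h1 hQ).1 h2

end Pool.Agent.H7.Qup

end
end

section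

/-!
# MQ2 StepA: the base chart of the blow-up step: outside a small polydisc
-/

set_option autoImplicit false

open Topology Filter Metric MeasureTheory Asymptotics Laplacian

noncomputable section

namespace Pool.Agent.MQ2

open Pool.Agent.H36.BP (EN)
open Pool.Agent.H30M (tau LogSing)
open Pool.Agent.MQ

/-- the chain rule for the real gradient along a holomorphic curve -/
theorem gr_comp_curve {H : ℂ × ℂ → ℝ} {p : ℂ → ℂ × ℂ} {z : ℂ} (hH : DifferentiableAt ℝ H (p z)) (hp : AnalyticAt ℂ p z) :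
    ‖gr (fun w => H (p w)) z‖ ≤ ‖fderiv ℝ H (p z)‖ * ‖deriv p z‖ := by
  rw [norm_gr]
  have h1 : HasFDerivAt p ((ContinuousLinearMap.toSpanSingleton ℂ (deriv p z)).restrictScalars ℝ) z :=
    hp.differentiableAt.hasDerivAt.hasFDerivAt.restrictScalars ℝ
  have h2 : HasFDerivAt (fun w => H (p w)) ((fderiv ℝ H (p z)).comp ((ContinuousLinearMap.toSpanSingleton ℂ (deriv p z)).restrictScalars ℝ)) z :=
    hH.hasFDerivAt.comp z h1
  rw [h2.fderiv]
  refine (ContinuousLinearMap.opNorm_comp_le _ _).trans (mul_le_mul_of_nonneg_left ?_ (norm_nonneg _))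
  refine ContinuousLinearMap.opNorm_le_bound _ (norm_nonneg _) fun c => ?_
  simp [norm_smul, mul_comm]

/-- The base chart: outside a small polydisc. -/
theorem cht_base {v : ℂ × ℂ → ℂ × ℂ} {g J : ℂ × ℂ → ℂ} (hv : Iso v) (hg : Wt v g) (hJ : AnalyticAt ℂ J 0) :
    ∀ᶠ r in 𝓝[>] (0 : ℝ), ∀ (ρb : ℝ), 0 < ρb → ∀ H : ℂ × ℂ → ℝ, ContDiffOn ℝ 2 H {p | p ≠ 0} → ∀ (N B : ℝ), 0 ≤ B → ∃ C : ℝ, 0 ≤ C ∧
      ∀ (Om : Set ℂ) (p : ℂ → ℂ × ℂ) (l₁ : ℂ → ℝ), Crv1 v r Om p → (∀ z ∈ Om, ∃ᶠ w in 𝓝 z, g (p w) ≠ 0) → (∀ z, 0 ≤ l₁ z) →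
        (∀ z ∈ Om, ‖deriv p z‖ ≤ B * l₁ z) →
        Cht (DDv v g p) (fun z => H (p z)) (LL v g J p) (VV v g J Om p) N l₁ C {z | z ∈ Om ∧ p z ∉ closedBall (0 : ℂ × ℂ) ρb} ∅
          (fun z => (starRingEnd ℂ) (DDv v g p z)) (DDv v g p) (fun _ => 1) (fun _ => 0) (fun _ => 0) fun z => H (p z) := by
  obtain ⟨c, hc⟩ := RegE.exists_reg hv.1 hv.2.2 hg
  have hJe : ∀ᶠ r in 𝓝[>] (0 : ℝ), ∀ q ∈ closedBall (0 : ℂ × ℂ) r, AnalyticAt ℂ J q := by
    obtain ⟨e, he, h1⟩ := Metric.eventually_nhds_iff_ball.1 hJ.eventually_analyticAt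
    filter_upwards [mem_nhdsWithin_of_mem_nhds (gt_mem_nhds he)] with r hr q hq
    exact h1 q (closedBall_subset_ball hr hq)
  filter_upwards [hc, DD_cof hv.1 hv.2.2 hg, DD_bound hv.1 hv.2.2 hg, hJe] with r a1 a2 a3 a4
  intro ρb hρb H hH N B hB
  obtain ⟨h, hh, a2⟩ := a2
  obtain ⟨C₁, hC₁, a3⟩ := a3 ρb (Or.inl hρb)
  -- compact sets
  have hop : IsOpen {q : ℂ × ℂ | q ≠ 0} := isOpen_ne
  have hKs : closedBall (0 : ℂ × ℂ) r \ ball 0 ρb ⊆ {q : ℂ × ℂ | q ≠ 0} := fun q hq h0 => hq.2 (by rw [h0]; exact mem_ball_self hρb)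
  have hK : IsCompact (closedBall (0 : ℂ × ℂ) r \ ball 0 ρb) := (isCompact_closedBall _ _).diff isOpen_ball
  have hHc : ContinuousOn H (closedBall (0 : ℂ × ℂ) r \ ball 0 ρb) := hH.continuousOn.mono hKs
  have hHd : ContinuousOn (fderiv ℝ H) (closedBall (0 : ℂ × ℂ) r \ ball 0 ρb) := (hH.continuousOn_fderiv_of_isOpen hop (by norm_num)).mono hKs
  obtain ⟨C₂, hC₂⟩ := hK.exists_bound_of_continuousOn hHc
  obtain ⟨C₃, hC₃⟩ := hK.exists_bound_of_continuousOn hHd
  obtain ⟨C₄, hC₄⟩ := (isCompact_closedBall (0 : ℂ × ℂ) r).exists_bound_of_continuousOn (f := g) fun q hq => (a1.gan q hq).continuousAt.continuousWithinAt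
  obtain ⟨C₅, hC₅⟩ := (isCompact_closedBall (0 : ℂ × ℂ) r).exists_bound_of_continuousOn (f := J) fun q hq => (a4 q hq).continuousAt.continuousWithinAt
  set M : ℝ := C₁ * B * |C₄| * |C₅| + 1 with hM
  have hM1 : 1 ≤ M := by
    have : 0 ≤ C₁ * B * |C₄| * |C₅| := by positivity
    linarith
  have hlM : 0 ≤ Real.log M := Real.log_nonneg hM1
  refine ⟨C₁ * B + |N| * |C₂| + |C₃| * B + Real.log M, by positivity, fun Om p l₁ hC hgne hl0 hp => ?_⟩
  set C : ℝ := C₁ * B + |N| * |C₂| + |C₃| * B + Real.log M with hCdef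
  have hC0 : 0 ≤ C := by positivity
  have hC1 : C₁ * B ≤ C := by
    have h1 : 0 ≤ |N| * |C₂| := by positivity
    have h2 : 0 ≤ |C₃| * B := by positivity
    linarith
  have hC2 : |N| * |C₂| ≤ C := by
    have h1 : 0 ≤ C₁ * B := by positivity
    have h2 : 0 ≤ |C₃| * B := by positivity
    linarith
  have hC3 : |C₃| * B ≤ C := by
    have h1 : 0 ≤ |N| * |C₂| := by positivity
    have h2 : 0 ≤ C₁ * B := by positivity
    linarith
  have hC4 : Real.log M ≤ C := by
    have h1 : 0 ≤ |N| * |C₂| := by positivity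
    have h2 : 0 ≤ C₁ * B := by positivity
    have h3 : 0 ≤ |C₃| * B := by positivity
    linarith
  have hmem : ∀ z ∈ Om, p z ∈ closedBall (0 : ℂ × ℂ) r := fun z hz => ball_subset_closedBall (hC.mem z hz)
  have hnb : ∀ z, p z ∉ closedBall (0 : ℂ × ℂ) ρb → p z ∉ ball (0 : ℂ × ℂ) ρb := fun z hz h1 => hz (ball_subset_closedBall h1)
  have hp0 : ∀ z, p z ∉ closedBall (0 : ℂ × ℂ) ρb → p z ≠ 0 := fun z hz h1 => hz (by rw [h1]; exact mem_closedBall_self hρb.le)
  have hvz : ∀ z ∈ Om, p z ∉ closedBall (0 : ℂ × ℂ) ρb → v (p z) ≠ 0 := fun z hz hz' => a1.iso _ (hmem z hz) (hp0 z hz')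
  have hK' : ∀ z ∈ Om, p z ∉ closedBall (0 : ℂ × ℂ) ρb → p z ∈ closedBall (0 : ℂ × ℂ) r \ ball 0 ρb := fun z hz hz' => ⟨hmem z hz, hnb z hz'⟩
  have hDan : ∀ z ∈ Om, p z ∉ closedBall (0 : ℂ × ℂ) ρb → AnalyticAt ℂ (DDv v g p) z := fun z hz hz' => by
    obtain ⟨-, b2, b3⟩ := a2 Om p hC hgne z hz (hvz z hz hz')
    have b4 : AnalyticAt ℂ (fun w => h (p w) * ztv v p w) z := ((hh _ (hmem z hz)).comp (hC.an z hz)).mul b2
    exact b4.congr (b3.mono fun w hw => hw.symm)
  have hHat : ∀ z ∈ Om, p z ∉ closedBall (0 : ℂ × ℂ) ρb → ContDiffAt ℝ 2 H (p z) := fun z hz hz' =>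
    hH.contDiffAt (hop.mem_nhds (hp0 z hz'))
  refine
    { op := ?_
      cl := isClosed_empty
      η_cd := fun z hz => contDiffAt_conj_holo (hDan z hz.1 hz.2)
      err_c := fun z hz => continuousAt_const
      Φ_ls := fun z hz => ⟨_, LogSing.of_contDiffAt contDiffAt_const⟩
      out := fun z hz _ => ⟨rfl, rfl, rfl⟩
      bd := fun z hz => ?_
      ineq := fun z hz _ => ?_
      X_an := fun z hz => analyticAt_const
      X_ne := fun z hz => Eventually.frequently (Eventually.of_forall fun _ => one_ne_zero)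
      X_V := fun z hz _ => one_ne_zero
      D_eq := fun z hz _ => ?_
      ell_eq := fun z hz _ => ?_
      u_cd := fun z hz => ?_
      u_gr := fun z hz => ?_
      u_bd := fun z hz => ?_
      up := fun z hz hV _ => ?_ }
  · rw [isOpen_iff_mem_nhds]
    intro z hz
    filter_upwards [hC.isOpen.mem_nhds hz.1, (hC.an z hz.1).continuousAt.eventually (isClosed_closedBall.isOpen_compl.mem_nhds hz.2)] with w h1 h2
    exact ⟨h1, h2⟩
  · rw [RCLike.norm_conj]
    have h1 := (a3 Om p hC hgne z hz.1 (hnb z hz.2)).2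
    have h2 : C₁ * ‖deriv p z‖ ≤ C₁ * (B * l₁ z) := mul_le_mul_of_nonneg_left (hp z hz.1) hC₁.le
    have h3 := mul_le_mul_of_nonneg_right hC1 (hl0 z)
    linarith
  · rw [dv_conj (hDan z hz.1 hz.2).differentiableAt]
    have h1 : Δ (fun _ : ℂ => (0 : ℝ)) z = 0 := by
      rw [← lp_eq_lap contDiffAt_const]
      have h2 : gr (fun _ : ℂ => (0 : ℝ)) = fun _ => 0 := by
        funext w
        exact gr_const 0 w
      unfold Pool.Agent.MQ.lp
      rw [h2]
      simp [dv]
    rw [h1]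
    norm_num
  · simp
  · simp
  · exact (hHat z hz.1 hz.2).comp z ((hC.an z hz.1).contDiffAt.restrict_scalars ℝ)
  · refine (gr_comp_curve ((hHat z hz.1 hz.2).differentiableAt (by norm_num)) (hC.an z hz.1)).trans ?_
    have h1 := hC₃ _ (hK' z hz.1 hz.2)
    have h2 : ‖fderiv ℝ H (p z)‖ ≤ |C₃| := h1.trans (le_abs_self _)
    calc ‖fderiv ℝ H (p z)‖ * ‖deriv p z‖ ≤ |C₃| * (B * l₁ z) := mul_le_mul h2 (hp z hz.1) (norm_nonneg _) (abs_nonneg _)
      _ = |C₃| * B * l₁ z := by ring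
      _ ≤ C * l₁ z := mul_le_mul_of_nonneg_right hC3 (hl0 z)
  · have h1 := hC₂ _ (hK' z hz.1 hz.2)
    rw [Real.norm_eq_abs] at h1
    calc N * H (p z) ≤ |N * H (p z)| := le_abs_self _
      _ = |N| * |H (p z)| := abs_mul _ _
      _ ≤ |N| * |C₂| := mul_le_mul_of_nonneg_left (h1.trans (le_abs_self _)) (abs_nonneg _)
      _ ≤ C := hC2
  · obtain ⟨-, b1, b2, b3⟩ := hV
    have h1 := (a3 Om p hC hgne z hz.1 (hnb z hz.2)).1
    have h2 : ‖ztv v p z‖ ≤ C₁ * B * l₁ z := by
      have h2 : C₁ * ‖deriv p z‖ ≤ C₁ * (B * l₁ z) := mul_le_mul_of_nonneg_left (hp z hz.1) hC₁.le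
      linarith
    have h3 : ‖g (p z)‖ ≤ |C₄| := (hC₄ _ (hmem z hz.1)).trans (le_abs_self _)
    have h4 : ‖J (p z)‖ ≤ |C₅| := (hC₅ _ (hmem z hz.1)).trans (le_abs_self _)
    have n1 : 0 < ‖ztv v p z‖ := norm_pos_iff.2 b1
    have n2 : 0 < ‖g (p z)‖ := norm_pos_iff.2 b2
    have n3 : 0 < ‖J (p z)‖ := norm_pos_iff.2 b3
    have hl := hl0 z
    have h5 : ‖ztv v p z‖ * ‖g (p z)‖ * ‖J (p z)‖ ≤ M * (1 + l₁ z) := by
      have hCB : 0 ≤ C₁ * B * l₁ z := by positivity
      calc ‖ztv v p z‖ * ‖g (p z)‖ * ‖J (p z)‖ ≤ C₁ * B * l₁ z * |C₄| * |C₅| := by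
            refine mul_le_mul (mul_le_mul h2 h3 (norm_nonneg _) hCB) h4 (norm_nonneg _) (by positivity)
        _ = (C₁ * B * |C₄| * |C₅|) * l₁ z := by ring
        _ ≤ M * (1 + l₁ z) := by
            have h6 : (C₁ * B * |C₄| * |C₅|) ≤ M := by linarith
            exact mul_le_mul h6 (by linarith) hl (by linarith)
    have h6 : Real.log (‖ztv v p z‖ * ‖g (p z)‖ * ‖J (p z)‖) ≤ Real.log M + Real.log (1 + l₁ z) := by
      rw [← Real.log_mul (by linarith) (by linarith)]
      exact Real.log_le_log (by positivity) h5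
    rw [Real.log_mul (by positivity) (by positivity), Real.log_mul (by positivity) (by positivity)] at h6
    unfold LL
    rw [norm_one, Real.log_one]
    linarith

end Pool.Agent.MQ2

end
end

section

/-!
# SDA RDefs: symmetric differentials on the complement of hypersurface sections, and the conclusion
-/

set_option autoImplicit false

open MvPolynomial

noncomputable section

namespace Pool.Agent.SDA

open Pool.Agent.H36.BP (EN fs)
open Pool.Agent.H14.PP (Tan)
open Pool.Agent.H17 (PN VanishesAt)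
open Pool.Agent.H62.FC (Homog)
open Pool.Agent.H62.SA (locVar OnBd)
open Pool.Agent.H62.Qe (IsEtaleOver)
open Pool.Agent.H7.Bir (GGLOpen)
open Pool.Agent.H7.Qup (IsDominantMap)
open Pool.Agent.H17LG.Variety (FunField IsLogGeneralType)
open Pool.Agent.H17EF (coneE)
open Pool.Agent.H14.KB (KobayashiHyperbolicModulo)
open Pool.Agent.AD (SymDiff)

variable {N k : ℕ}

/-- The cone over the complement in the variety of `P` of the hypersurfaces `{H i = 0}`. -/
def openCone (P : Ideal (MvPolynomial (Fin (N + 1)) ℂ)) (H : Fin k → MvPolynomial (Fin (N + 1)) ℂ) : Set (EN N) :=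
  {x | x ∈ coneE P ∧ ∀ i, eval x.ofLp (H i) ≠ 0}

/-- The logarithmic length of the tangent vector `v` at the point `x`: the sum of its Fubini–Study length and the absolute values of the complex numbers
`dH_i (v) / H_i (x) - e_i ⟨x, v⟩ / |x|²`, whose real parts are the derivatives along `v` of the functions `log (|H_i| / |x| ^ e_i)`. -/
def logLength (H : Fin k → MvPolynomial (Fin (N + 1)) ℂ) (e : Fin k → ℕ) (x v : EN N) : ℝ :=
  fs x v + ∑ i, ‖fderiv ℂ (fun y : EN N => eval y.ofLp (H i)) x v / eval x.ofLp (H i) - (e i : ℂ) * (inner ℂ x v / (‖x‖ : ℂ) ^ 2)‖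

/-- For every `ε > 0` the value of the symmetric differential `θ` on a tangent vector `v` of the complement of the hypersurfaces `{H i = 0}` is at most
`(ε |v|_log + C |v|) ^ m`, where `|v|` is the Fubini–Study length.  If the curves `{H i = 0}` are smooth and cross normally, then this means that `θ` has
at most logarithmic poles and vanishes on the static vectors, that is, on the logarithmic tangent vectors at the points of the boundary whose image in
the tangent space is `0`. -/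
def VanishesOnStatic {P : Ideal (MvPolynomial (Fin (N + 1)) ℂ)} {H : Fin k → MvPolynomial (Fin (N + 1)) ℂ} (e : Fin k → ℕ) {m : ℕ}
    (θ : SymDiff (openCone P H) m) : Prop :=
  ∀ ε : ℝ, 0 < ε → ∃ C : ℝ, ∀ x ∈ openCone P H, ∀ v, Tan (openCone P H) x v → ‖θ.toFun x v‖ ≤ (ε * logLength H e x v + C * fs x v) ^ m

/-- The conclusion, for the quasi-projective surface `U = locVar P G`: the properties of the Green–Griffiths–Lang conjecture (`GGLOpen`) hold for `U`
and for all quasi-projective surfaces which dominate `U`, or virtually dominate `U`. -/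
structure IsHyperbolicOpen (P : Ideal (MvPolynomial (Fin (N + 1)) ℂ)) [P.IsPrime] {s : ℕ} (G : Fin s → MvPolynomial (Fin (N + 1)) ℂ) : Prop where
  /-- `U` has the properties of the conjecture, with some exceptional set `Ξ` -/
  four : ∃ Ξ : Set (PN N), GGLOpen P G Ξ
  /-- every quasi-projective surface `V = locVar R F` with a dominant regular map to `U` has the properties of the conjecture -/
  dominating : ∀ (M t : ℕ) (R : Ideal (MvPolynomial (Fin (M + 1)) ℂ)) [R.IsPrime] (F : Fin t → MvPolynomial (Fin (M + 1)) ℂ) (p : PN M → PN N),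
    Homog R → (∀ i, ∃ n, (F i).IsHomogeneous n) → (∃ z : Fin 2 → FunField R, IsTranscendenceBasis ℂ z) → IsDominantMap P R G F p →
    ∃ Ξ : Set (PN M), GGLOpen R F Ξ
  /-- every quasi-projective surface `V = locVar R F` of log general type with a finite étale covering `V' = locVar R' F'` (given by a regular
  map `q` of the closures with `q⁻¹ (V) = V'`) and a dominant regular map from `V'` to `U` has the properties of the conjecture -/
  virtual : ∀ (M L t t' : ℕ) (R' : Ideal (MvPolynomial (Fin (M + 1)) ℂ)) [R'.IsPrime] (R : Ideal (MvPolynomial (Fin (L + 1)) ℂ)) [R.IsPrime]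
    (F : Fin t → MvPolynomial (Fin (L + 1)) ℂ) (F' : Fin t' → MvPolynomial (Fin (M + 1)) ℂ) (q : PN M → PN L) (p : PN M → PN N),
    Homog R' → Homog R → (∀ i, ∃ n, (F i).IsHomogeneous n) → (∀ i, ∃ n, (F' i).IsHomogeneous n) →
    (∃ z : Fin 2 → FunField R', IsTranscendenceBasis ℂ z) → (∃ z : Fin 2 → FunField R, IsTranscendenceBasis ℂ z) →
    IsDominantMap P R' G F' p → IsEtaleOver R R' F F' q → IsLogGeneralType (OnBd R F (k := 2)) → ∃ Ξ : Set (PN L), GGLOpen R F Ξ
  /-- the Kobayashi metric of `U` is bounded below by a power of `|Q|`, for a form `Q` which is not `0` on `U` -/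
  kobayashi : ∃ (Q : MvPolynomial (Fin (N + 1)) ℂ) (D : ℕ), Q.IsHomogeneous D ∧ (∃ x ∈ locVar P G, ¬ VanishesAt Q x) ∧
    KobayashiHyperbolicModulo (locVar P G) Q D

end Pool.Agent.SDA

end
end
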