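import Pool.Agent.H43.TL2.M15
import Pool.Agent.H43.TL2.M28
import Pool.Agent.H43.TL2.M52

/-! The parts of this file: H36.BP.Lift, H62.BU.Off, H62.BU.SurfB, H62.BU.Main, SY.EiL, SY.EiL1. -/

section

/-!
# BP Lift: lifts on discs and punctured discs

Both follow the proof of `Pool.Agent.H17.exists_global_lift` (Weierstrass' theorem `exists_entire_with_orders`: the orders are required on a closed subset where they are locally finite).
Let `j₀` be a coordinate which does not vanish identically near any point (connectedness) and `D z` the order of vanishing at `z` of the `j₀`-th coordinate of a local lift without common zeros.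
* disc: an entire function `w` with `ord_z w = D z` for `|z| ≤ r`, `0` elsewhere; `F_j = w φ_j/φ_(j₀)`.
* punctured disc: the same for `f(1/ζ)` on `|ζ| > 1`: an entire function `w` with order `D(1/ζ)` for `|ζ| ≥ 1/r` and `0` elsewhere; `F_j(z) = w(1/z) φ_j/φ_(j₀)`.
(The sets `{z : D z ≠ 0, |z| ≤ r}` and `{ζ : D(1/ζ) ≠ 0, |ζ| ≥ 1/r}` are locally finite in `ℂ`.)
-/

set_option autoImplicit false

namespace Pool.Agent.H36.BP

open Filter Topology Metric

variable {N : ℕ}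

open Pool.Agent.H17 (PN HolomorphicInto)

/-- common core of both lifting theorems: `w` is a function with the required orders -/
private lemma Lift_core {f : ℂ → PN N} {U V : Set ℂ} (hU : IsOpen U) (hUc : IsPreconnected U)
    (hV : IsOpen V) (hVU : V ⊆ U) (hne : U.Nonempty) (hf : HolomorphicInto f U)
    (hW : ∀ D : ℂ → ℕ, (∀ K : Set ℂ, IsCompact K → K ⊆ U → {z ∈ K | D z ≠ 0}.Finite) →
      ∃ w : ℂ → ℂ, ∀ z ∈ V, AnalyticAt ℂ w z ∧ analyticOrderAt w z = D z) :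
    ∃ F : ℂ → EN N, DifferentiableOn ℂ F V ∧
      ∀ z ∈ V, ∃ h : (F z).ofLp ≠ 0, f z = Projectivization.mk ℂ _ h := by
  classical
  have hf' : ∀ z₀, ∃ φ : ℂ → Fin (N + 1) → ℂ, z₀ ∈ U → (AnalyticAt ℂ φ z₀ ∧
      ∀ᶠ z in 𝓝 z₀, ∃ h : φ z ≠ 0, f z = Projectivization.mk ℂ (φ z) h) := by
    intro z₀
    by_cases h : z₀ ∈ U
    · obtain ⟨φ, h1, h2⟩ := hf z₀ h
      exact ⟨φ, fun _ => ⟨h1, h2⟩⟩
    · exact ⟨fun _ => 0, fun h' => absurd h' h⟩
  choose φ hφ using hf'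
  have hφj : ∀ z₀ ∈ U, ∀ j, AnalyticAt ℂ (fun z => φ z₀ z j) z₀ := fun z₀ hz₀ j =>
    (analyticAt_pi_iff.mp (hφ z₀ hz₀).1) j
  -- comparison of lifts
  have hcmp : ∀ z₀ ∈ U, ∀ᶠ z in 𝓝 z₀, ∃ c : ℂ, c ≠ 0 ∧ ∀ j, φ z₀ z j = c * φ z z j := by
    intro z₀ hz₀
    filter_upwards [(hφ z₀ hz₀).2, hU.mem_nhds hz₀] with z hz hzU
    obtain ⟨h1, h2⟩ := hz
    obtain ⟨h3, h4⟩ := ((hφ z hzU).2).self_of_nhds
    exact Pool.Agent.H17.mk_eq_mk_cross (h2.symm.trans h4)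
  have hφ0 : ∀ z₀ ∈ U, φ z₀ z₀ ≠ 0 := fun z₀ hz₀ => ((hφ z₀ hz₀).2).self_of_nhds.1
  obtain ⟨b, hb⟩ := hne
  obtain ⟨j₀, hj₀⟩ : ∃ j₀, φ b b j₀ ≠ 0 := by
    by_contra h
    push Not at h
    exact hφ0 b hb (funext h)
  -- the coordinate `j₀` does not vanish identically near any point
  set A : Set ℂ := {z₀ | z₀ ∈ U ∧ ∀ᶠ z in 𝓝 z₀, φ z₀ z j₀ = 0} with hA
  set B : Set ℂ := {z₀ | z₀ ∈ U ∧ ∀ᶠ z in 𝓝[≠] z₀, φ z₀ z j₀ ≠ 0} with hB
  have hAopen : IsOpen A := by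
    rw [isOpen_iff_mem_nhds]
    rintro z₀ ⟨hz₀U, hz₀⟩
    have h1 : ∀ᶠ z in 𝓝 z₀, φ z z j₀ = 0 := by
      filter_upwards [hz₀, hcmp z₀ hz₀U] with z h1 h2
      obtain ⟨c, hc, h3⟩ := h2
      have := h3 j₀
      rw [h1] at this
      exact (mul_eq_zero.mp this.symm).resolve_left hc
    filter_upwards [h1.eventually_nhds, hU.mem_nhds hz₀U] with z₁ h2 hz₁U
    refine ⟨hz₁U, ?_⟩
    filter_upwards [h2, hcmp z₁ hz₁U] with z h3 h4
    obtain ⟨c, hc, h5⟩ := h4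
    rw [h5, h3, mul_zero]
  have hBopen : IsOpen B := by
    rw [isOpen_iff_mem_nhds]
    rintro z₀ ⟨hz₀U, hz₀⟩
    have h3 := eventually_nhdsWithin_iff.mp hz₀
    filter_upwards [h3, hcmp z₀ hz₀U, hU.mem_nhds hz₀U] with z h4 h5 hzU
    by_cases hz : z = z₀
    · rw [hz]; exact ⟨hz₀U, hz₀⟩
    · refine ⟨hzU, ?_⟩
      obtain ⟨c, hc, h6⟩ := h5
      rcases (hφj z hzU j₀).eventually_eq_zero_or_eventually_ne_zero with h | h
      · exfalso
        have h8 : φ z z j₀ = 0 := h.self_of_nhds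
        apply h4 hz
        rw [h6, h8, mul_zero]
      · exact h
  have hUB : U ⊆ B := by
    have hdisj : Disjoint B A := by
      rw [Set.disjoint_left]
      rintro z ⟨_, h1⟩ ⟨_, h2⟩
      obtain ⟨y, hy1, hy2⟩ := (h1.and (h2.filter_mono nhdsWithin_le_nhds)).exists
      exact hy1 hy2
    have hcov : U ⊆ B ∪ A := by
      intro z hz
      rcases (hφj z hz j₀).eventually_eq_zero_or_eventually_ne_zero with h | h
      · exact Or.inr ⟨hz, h⟩
      · exact Or.inl ⟨hz, h⟩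
    have hbB : b ∈ B := by
      refine ⟨hb, ?_⟩
      rcases (hφj b hb j₀).eventually_eq_zero_or_eventually_ne_zero with h | h
      · exact absurd h.self_of_nhds hj₀
      · exact h
    exact hUc.subset_left_of_subset_union hBopen hAopen hdisj hcov ⟨b, hb, hbB⟩
  have hne : ∀ z₀ ∈ U, ∀ᶠ z in 𝓝[≠] z₀, φ z₀ z j₀ ≠ 0 := fun z₀ hz₀ => (hUB hz₀).2
  have hfin : ∀ z₀ ∈ U, analyticOrderAt (fun z => φ z₀ z j₀) z₀ ≠ ⊤ := by
    intro z₀ hz₀ h
    rw [analyticOrderAt_eq_top] at h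
    obtain ⟨y, hy1, hy2⟩ := ((hne z₀ hz₀).and (h.filter_mono nhdsWithin_le_nhds)).exists
    exact hy1 hy2
  set D : ℂ → ℕ := fun z => analyticOrderNatAt (fun y => φ z y j₀) z with hD
  have hDord : ∀ z ∈ U, analyticOrderAt (fun y => φ z y j₀) z = D z := fun z hz =>
    (Nat.cast_analyticOrderNatAt (hfin z hz)).symm
  have hDfin : ∀ K : Set ℂ, IsCompact K → K ⊆ U → {z ∈ K | D z ≠ 0}.Finite := by
    intro K hK hKU
    by_contra hinf
    obtain ⟨y, hyK, hy⟩ := Set.Infinite.exists_accPt_of_subset_isCompact hinf hK (fun z hz => hz.1)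
    have hyU := hKU hyK
    rw [accPt_iff_frequently_nhdsNE] at hy
    obtain ⟨z, hz1, hz2, hz3, hzU⟩ := (hy.and_eventually ((hne y hyU).and
      (((hcmp y hyU).filter_mono nhdsWithin_le_nhds).and
        (mem_nhdsWithin_of_mem_nhds (hU.mem_nhds hyU))))).exists
    obtain ⟨c, hc, h4⟩ := hz3
    apply hz1.2
    have h5 : φ z z j₀ ≠ 0 := by
      intro h
      apply hz2
      rw [h4, h, mul_zero]
    have h6 := hDord z hzU
    rw [(hφj z hzU j₀).analyticOrderAt_eq_zero.mpr h5] at h6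
    exact_mod_cast h6.symm
  obtain ⟨w, hw⟩ := hW D hDfin
  have hq : ∀ z₀, ∃ q : ℂ → ℂ, z₀ ∈ V → (AnalyticAt ℂ q z₀ ∧ q z₀ ≠ 0 ∧
      ∀ᶠ z in 𝓝 z₀, w z = q z * φ z₀ z j₀) := by
    intro z₀
    by_cases h : z₀ ∈ V
    · obtain ⟨q, h1⟩ := Pool.Agent.H17.exists_unit_quotient (hw z₀ h).1 (hφj z₀ (hVU h) j₀)
        (hw z₀ h).2 (hDord z₀ (hVU h))
      exact ⟨q, fun _ => h1⟩
    · exact ⟨fun _ => 0, fun h' => absurd h' h⟩
  choose q hq using hq
  set X : Fin (N + 1) → ℂ → ℂ := fun j z => q z z * φ z z j with hX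
  have hXloc : ∀ z₀ ∈ V, ∀ j, X j =ᶠ[𝓝 z₀] fun z => q z₀ z * φ z₀ z j := by
    intro z₀ hz₀ j
    have h1 := eventually_nhdsWithin_iff.mp (hne z₀ (hVU hz₀))
    filter_upwards [h1, hcmp z₀ (hVU hz₀), (hq z₀ hz₀).2.2, hV.mem_nhds hz₀] with z h2 h3 h4 hzV
    by_cases hz : z = z₀
    · rw [hz]
    · obtain ⟨c, hc, h5⟩ := h3
      have h6 := h2 hz
      have h7 : w z = q z z * φ z z j₀ := ((hq z hzV).2.2).self_of_nhds
      have h8 : φ z z j₀ ≠ 0 := by
        intro h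
        apply h6
        rw [h5, h, mul_zero]
      have h9 : q z₀ z * c = q z z := by
        apply mul_right_cancel₀ h8
        rw [← h7, h4, h5]
        ring
      simp only [hX]
      rw [h5, ← h9]
      ring
  have hXdiff : ∀ j, ∀ z₀ ∈ V, DifferentiableAt ℂ (X j) z₀ := by
    intro j z₀ hz₀
    exact (hXloc z₀ hz₀ j).differentiableAt_iff.mpr
      ((hq z₀ hz₀).1.mul (hφj z₀ (hVU hz₀) j)).differentiableAt
  refine ⟨fun z => WithLp.toLp 2 (fun j => X j z), ?_, fun z hz => ?_⟩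
  · intro z hz
    apply DifferentiableAt.differentiableWithinAt
    rw [differentiableAt_euclidean]
    exact fun j => hXdiff j z hz
  · obtain ⟨h1, h2⟩ := ((hφ z (hVU hz)).2).self_of_nhds
    have h3 : (fun j => X j z) = q z z • φ z z := by
      funext j
      rfl
    have h4 : (fun j => X j z) ≠ 0 := by
      rw [h3]
      exact smul_ne_zero (hq z hz).2.1 h1
    refine ⟨h4, ?_⟩
    rw [h2, Projectivization.mk_eq_mk_iff]
    refine ⟨(Units.mk0 (q z z) (hq z hz).2.1)⁻¹, ?_⟩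
    change (Units.mk0 (q z z) (hq z hz).2.1)⁻¹ • (fun j => X j z) = φ z z
    rw [h3, Units.smul_def, smul_smul]
    simp [(hq z hz).2.1]

theorem lift_disc {f : ℂ → PN N} (hf : HolomorphicInto f (ball 0 1)) {r : ℝ} (hr : 0 < r) (hr1 : r < 1) :
    ∃ F : ℂ → EN N, DifferentiableOn ℂ F (ball 0 r) ∧ ∀ z ∈ ball (0 : ℂ) r, ∃ h : (F z).ofLp ≠ 0, f z = Projectivization.mk ℂ _ h := by
  classical
  refine Lift_core isOpen_ball (convex_ball (0 : ℂ) 1).isPreconnected isOpen_ball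
    (ball_subset_ball hr1.le) ⟨0, mem_ball_self one_pos⟩ hf ?_
  intro D hD
  obtain ⟨w, hw⟩ := Pool.Agent.H17.exists_entire_with_orders
    (fun z => if z ∈ closedBall (0 : ℂ) r then D z else 0) (by
      intro R
      refine (hD (closedBall 0 r) (isCompact_closedBall _ _)
        (closedBall_subset_ball hr1)).subset ?_
      rintro z ⟨_, hz⟩
      by_cases h : z ∈ closedBall (0 : ℂ) r
      · simp only [h, if_true] at hz
        exact ⟨h, hz⟩
      · simp [h] at hz)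
  refine ⟨w, fun z hz => ⟨w.analyticAt z, ?_⟩⟩
  rw [hw z, if_pos (ball_subset_closedBall hz)]

/-- the punctured disc is preconnected -/
private lemma Lift_preconn : IsPreconnected (ball (0 : ℂ) 1 \ {0}) := by
  have h1 : ball (0 : ℂ) 1 \ {0} = Complex.exp '' {z : ℂ | z.re < 0} := by
    ext z
    constructor
    · rintro ⟨h1, h2⟩
      have h3 : z ≠ 0 := h2
      refine ⟨Complex.log z, ?_, Complex.exp_log h3⟩
      change (Complex.log z).re < 0
      rw [Complex.log_re]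
      exact Real.log_neg (norm_pos_iff.mpr h3) (mem_ball_zero_iff.mp h1)
    · rintro ⟨y, hy, rfl⟩
      refine ⟨?_, Complex.exp_ne_zero y⟩
      rw [mem_ball_zero_iff, Complex.norm_exp]
      exact Real.exp_lt_one_iff.mpr hy
  rw [h1]
  exact ((convex_halfSpace_re_lt 0).isPreconnected).image _ Complex.continuous_exp.continuousOn

theorem lift_punct {f : ℂ → PN N} (hf : HolomorphicInto f (ball 0 1 \ {0})) {r : ℝ} (hr : 0 < r) (hr1 : r < 1) :
    ∃ F : ℂ → EN N, DifferentiableOn ℂ F (ball 0 r \ {0}) ∧ ∀ z ∈ ball (0 : ℂ) r \ {0}, ∃ h : (F z).ofLp ≠ 0, f z = Projectivization.mk ℂ _ h := by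
  classical
  have hopen : ∀ s : ℝ, IsOpen (ball (0 : ℂ) s \ {0}) := fun s =>
    isOpen_ball.sdiff isClosed_singleton
  refine Lift_core (hopen 1) Lift_preconn (hopen r)
    (Set.sdiff_subset_sdiff_left (ball_subset_ball hr1.le)) ⟨1 / 2, ?_, ?_⟩ hf ?_
  · rw [mem_ball_zero_iff]; norm_num
  · norm_num
  intro D hD
  obtain ⟨w, hw⟩ := Pool.Agent.H17.exists_entire_with_orders
    (fun ζ => if r⁻¹ ≤ ‖ζ‖ then D ζ⁻¹ else 0) (by
      intro R
      set S : ℝ := max R 1 with hS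
      have hS1 : 0 < S := lt_of_lt_of_le one_pos (le_max_right _ _)
      have hK : IsCompact (closedBall (0 : ℂ) r \ ball 0 S⁻¹) :=
        (isCompact_closedBall _ _).diff isOpen_ball
      have hKU : closedBall (0 : ℂ) r \ ball 0 S⁻¹ ⊆ ball 0 1 \ {0} := by
        rintro z ⟨h1, h2⟩
        refine ⟨closedBall_subset_ball hr1 h1, ?_⟩
        rintro rfl
        exact h2 (mem_ball_self (inv_pos.mpr hS1))
      refine ((hD _ hK hKU).image (fun z => z⁻¹)).subset ?_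
      rintro z ⟨hz1, hz⟩
      by_cases h : r⁻¹ ≤ ‖z‖
      · simp only [h, if_true] at hz
        have h0 : 0 < ‖z‖ := lt_of_lt_of_le (inv_pos.mpr hr) h
        refine ⟨z⁻¹, ⟨⟨?_, ?_⟩, hz⟩, inv_inv z⟩
        · rw [mem_closedBall_zero_iff, norm_inv]
          exact inv_le_of_inv_le₀ hr h
        · rw [mem_ball_zero_iff, norm_inv, not_lt]
          apply inv_anti₀ h0
          exact le_trans (mem_closedBall_zero_iff.mp hz1) (le_max_left _ _)
      · simp [h] at hz)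
  refine ⟨fun z => (w : ℂ → ℂ) z⁻¹, fun z hz => ?_⟩
  have hz0 : z ≠ 0 := hz.2
  have hinv : AnalyticAt ℂ (fun z : ℂ => z⁻¹) z := analyticAt_inv hz0
  have hd : deriv (fun z : ℂ => z⁻¹) z ≠ 0 := by
    rw [deriv_inv]
    exact neg_ne_zero.mpr (inv_ne_zero (pow_ne_zero 2 hz0))
  refine ⟨(w.analyticAt z⁻¹).comp hinv, ?_⟩
  have h1 : analyticOrderAt ((w : ℂ → ℂ) ∘ fun z : ℂ => z⁻¹) z = analyticOrderAt (w : ℂ → ℂ) z⁻¹ :=
    analyticOrderAt_comp_of_deriv_ne_zero hinv hd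
  have h2 : r⁻¹ ≤ ‖z⁻¹‖ := by
    rw [norm_inv]
    exact inv_anti₀ (norm_pos_iff.mpr hz0) (mem_ball_zero_iff.mp hz.1).le
  have h3 := hw z⁻¹
  rw [if_pos h2, inv_inv] at h3
  rw [← h3, ← h1]
  rfl

end Pool.Agent.H36.BP

end

section

/-!
# BU Off: charts of the blow-up off the exceptional curve

`σ1 p = phi l (σ p)`, `τ1 y = τ (a⁻¹ • y b)`, `a = l b (σ 0) ≠ 0`.  Use `isChart_of_dense`.
* `σ1 p ∈ dense` for `p` near `0` (`l b (σ p) ≠ 0`).
* `left`: `σ1 p b = l b (σ p) • σ p`, `a⁻¹ l b (σ p)` is near `1`: `inv`, `left`.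
* `right`: `y = c • phi l x`, near `σ1 0`: `y b = (c l b x) • x` is near `a • σ 0`, so `x' = a⁻¹ • y b` is near `σ 0` and in `X`; `h.right`: `x' = c' • σ (τ x')`, and `x` is a multiple
  `c'' • σ (τ x')`, so `phi l x = c''^2 • phi l (σ (τ x'))` (`phi_smul`).
* `inv`: from `h.inv` (the map `(y, c) ↦ (a⁻¹ • y b, c)` is continuous).
-/

set_option autoImplicit false

namespace Pool.Agent.H62.BU

open Filter Topology

variable {V : Type*} [NormedAddCommGroup V] [NormedSpace ℂ V] {ι : Type*} [Fintype ι]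
variable {l : ι → V →L[ℂ] ℂ} {X : Set V} {σ : ℂ × ℂ → V} {τ : V → ℂ × ℂ}

theorem chart_off (hX : Surface X) (h : IsChart X σ τ) {b : ι} (hb : l b (σ 0) ≠ 0) :
    IsChart (blow l X) (fun p => phi l (σ p)) (fun y => τ ((l b (σ 0))⁻¹ • y b)) := by
  set a : ℂ := l b (σ 0) with ha
  set g : (ι → V) →L[ℂ] V := a⁻¹ • ContinuousLinearMap.proj b with hg
  have hgy : ∀ y : ι → V, a⁻¹ • y b = g y := fun y => rfl
  have hg0 : g (phi l (σ 0)) = σ 0 := by
    show a⁻¹ • (l b (σ 0) • σ 0) = σ 0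
    rw [← ha, smul_smul, inv_mul_cancel₀ hb, one_smul]
  have hσc : ContinuousAt σ 0 := h.σ_an.continuousAt
  have hlc : ContinuousAt (fun p => l b (σ p)) 0 := (l b).continuous.continuousAt.comp hσc
  have hne : ∀ᶠ p in 𝓝 (0 : ℂ × ℂ), l b (σ p) ≠ 0 := hlc.eventually_ne hb
  have hgc : Tendsto g (𝓝 (phi l (σ 0))) (𝓝 (σ 0)) := by
    have := g.continuous.tendsto (phi l (σ 0))
    rwa [hg0] at this
  refine isChart_of_dense ?_ ?_ ?_ ?_ ?_ ?_
  · refine AnalyticAt.pi fun b' => ?_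
    exact (((l b').analyticAt _).comp h.σ_an).smul h.σ_an
  · filter_upwards [h.σ_mem, hne] with p hp1 hp2
    exact dense_sub (phi_mem_dense hp1 ⟨b, hp2⟩)
  · have h1 := h.τ_an
    rw [← hg0] at h1
    exact h1.comp (g.analyticAt _)
  · have h1 : Tendsto (fun p => (σ p, a⁻¹ * l b (σ p))) (𝓝 (0 : ℂ × ℂ)) (𝓝 (σ 0, (1 : ℂ))) := by
      refine hσc.tendsto.prodMk_nhds ?_
      have h2 := (hlc.tendsto.const_mul a⁻¹)
      rwa [← ha, inv_mul_cancel₀ hb] at h2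
    filter_upwards [h1.eventually h.inv, h.left] with p hp1 hp2
    show τ (a⁻¹ • (l b (σ p) • σ p)) = p
    rw [smul_smul]
    exact hp1.trans hp2
  · have h0 : ∀ᶠ y in 𝓝 (phi l (σ 0)), g y ≠ 0 := (hgc.eventually_ne h.ne)
    filter_upwards [hgc.eventually h.right, h0] with y hy hy0 hyd
    obtain ⟨x, hx, -, c, hc, rfl⟩ := hyd
    have h1 : g (c • phi l x) = (a⁻¹ * (c * l b x)) • x := by
      show a⁻¹ • (c • (l b x • x)) = _
      rw [smul_smul, smul_smul, mul_assoc]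
    rw [h1] at hy hy0
    have h2 : a⁻¹ * (c * l b x) ≠ 0 := fun h3 => hy0 (by rw [h3, zero_smul])
    obtain ⟨c', hc', h4⟩ := hy (hX.smul x hx _ h2)
    show ∃ c'' : ℂ, c • phi l x = c'' • phi l (σ (τ (g (c • phi l x))))
    rw [h1]
    have h5 : x = ((a⁻¹ * (c * l b x))⁻¹ * c') • σ (τ ((a⁻¹ * (c * l b x)) • x)) := by
      rw [mul_smul, ← h4, smul_smul, inv_mul_cancel₀ h2, one_smul]
    refine ⟨c * ((a⁻¹ * (c * l b x))⁻¹ * c') ^ 2, ?_⟩
    rw [mul_smul, ← phi_smul, ← h5]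
  · have h1 : Tendsto (fun p : (ι → V) × ℂ => (g p.1, p.2)) (𝓝 (phi l (σ 0), (1 : ℂ))) (𝓝 (σ 0, (1 : ℂ))) := by
      have h2 : Continuous fun p : (ι → V) × ℂ => (g p.1, p.2) :=
        (g.continuous.comp continuous_fst).prodMk continuous_snd
      have h3 := h2.tendsto (phi l (σ 0), (1 : ℂ))
      simp only [hg0] at h3
      exact h3
    filter_upwards [h1.eventually h.inv] with p hp
    have h2 : g (p.2 • p.1) = p.2 • g p.1 := g.map_smul _ _
    show τ (g (p.2 • p.1)) = τ (g p.1)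
    rw [h2]
    exact hp

end Pool.Agent.H62.BU

end

section

/-!
# BU SurfB: the blow-up is a surface (proof: header of `Cov.lean`)

`blow_local`: the local form of a curve.  `f` is a local equation of `B` in the chart `σ` at `q`: at every point of the blow-up there is a chart in which the total transform has the local equation `f ∘ σ⁻¹`-pullback:
* off the exceptional curve: chart `c • phi l (σ p)`, `σ` a chart of `X` at `x`, and (near `0`) the point is in `total` iff `σ p ∈ B`;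
* over `q`: chart `c • σ1`, `σ1 (u, v) ∈ total ↔ σ (e (u, u v)) ∈ B`, for a linear isomorphism `e`.
-/

set_option autoImplicit false

namespace Pool.Agent.H62.BU

open Filter Topology

variable {V : Type*} [NormedAddCommGroup V] [NormedSpace ℂ V] {ι : Type*} [Fintype ι]
variable {l : ι → V →L[ℂ] ℂ} {X : Set V} {σ : ℂ × ℂ → V} {τ : V → ℂ × ℂ}

private theorem SurfB_smul_mem {B : Set V} (hB : ∀ x ∈ B, ∀ c : ℂ, c ≠ 0 → c • x ∈ B) {c : ℂ} (hc : c ≠ 0) (x : V) :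
    c • x ∈ B ↔ x ∈ B := by
  refine ⟨fun h => ?_, fun h => hB x h c hc⟩
  have h1 := hB _ h c⁻¹ (inv_ne_zero hc)
  rwa [smul_smul, inv_mul_cancel₀ hc, one_smul] at h1

private theorem SurfB_fderiv (h : IsChart X σ τ) (e : (ℂ × ℂ) ≃L[ℂ] (ℂ × ℂ)) (w : ℂ × ℂ) :
    fderiv ℂ (fun p => σ (e p)) 0 w = fderiv ℂ σ 0 (e w) := by
  have h1 : DifferentiableAt ℂ σ (e 0) := by
    rw [map_zero]
    exact h.σ_an.differentiableAt
  have h2 : HasFDerivAt (fun p => σ (e p)) ((fderiv ℂ σ (e 0)).comp (e : (ℂ × ℂ) →L[ℂ] (ℂ × ℂ))) 0 :=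
    h1.hasFDerivAt.comp 0 e.hasFDerivAt
  rw [h2.fderiv]
  simp [map_zero]

/-- chart of the blow-up at a point over `q` -/
private theorem SurfB_exc [FiniteDimensional ℂ V] (hX : Surface X) {q : V} (hl : Ker l q) (h : IsChart X σ τ) (h0 : σ 0 = q)
    {w : ℂ × ℂ} (hw : w ≠ 0) {c : ℂ} (hc : c ≠ 0) :
    ∃ (e : (ℂ × ℂ) ≃L[ℂ] (ℂ × ℂ)) (σ1 : ℂ × ℂ → ι → V) (τ1 : (ι → V) → ℂ × ℂ), IsChart (blow l X) σ1 τ1 ∧
      (σ1 0 = c • fun b => l b (fderiv ℂ σ 0 w) • q) ∧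
      ∀ᶠ p in 𝓝 (0 : ℂ × ℂ), c • phi l (σ (e (p.1, p.1 * p.2))) = p.1 • σ1 p := by
  obtain ⟨e, he⟩ := exists_equiv hw
  obtain ⟨σ1, τ1, h1, h2, h3⟩ := chart_exc hX hl (h.comp_linear e) (by simp only [map_zero]; exact h0)
  refine ⟨e, _, _, h1.scale blow_smul hc, ?_, ?_⟩
  · rw [h3]
    simp only [SurfB_fderiv h e, he]
  · filter_upwards [h2] with p hp
    rw [hp, smul_comm]

theorem surface_blow [FiniteDimensional ℂ V] (hX : Surface X) {q : V} (hl : Ker l q) (hq : q ∈ X) : Surface (blow l X) := by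
  refine ⟨blow_zero, blow_smul, blow_closed, fun y hy => ?_⟩
  obtain ⟨σ, τ, h, h0⟩ := hX.chart q hq
  rcases blow_cover hX hl h h0 y hy with hd | ⟨w, hw, c, hc, rfl⟩
  · obtain ⟨x, hx, ⟨b, hb⟩, c, hc, rfl⟩ := hd
    obtain ⟨σ', τ', h', h0'⟩ := hX.chart x hx
    have hb' : l b (σ' 0) ≠ 0 := by rw [h0']; exact hb
    refine ⟨_, _, (chart_off hX h' hb').scale blow_smul hc, ?_⟩
    simp only [h0']
  · obtain ⟨e, σ1, τ1, h1, h2, -⟩ := SurfB_exc hX hl h h0 hw hc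
    exact ⟨σ1, τ1, h1, h2⟩

theorem mem_total_iff {B : Set V} (hX : Surface X) (hB : ∀ x ∈ B, ∀ c : ℂ, c ≠ 0 → c • x ∈ B) (y : ι → V) (hy : y ∈ blow l X) {b : ι} (hb : y b ≠ 0) :
    y ∈ total l X B ↔ y b ∈ B := by
  refine ⟨fun h => h.2 b hb, fun h => ⟨hy, fun b' hb' => ?_⟩⟩
  obtain ⟨c, hc⟩ := comp_smul y hy hb b'
  have hc0 : c ≠ 0 := by
    rintro rfl
    rw [zero_smul] at hc
    exact hb' hc
  rw [hc]
  exact hB _ h c hc0

theorem blow_local [FiniteDimensional ℂ V] (hX : Surface X) {q : V} (hl : Ker l q) (h : IsChart X σ τ) (h0 : σ 0 = q) {B : Set V}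
    (hB : ∀ x ∈ B, ∀ c : ℂ, c ≠ 0 → c • x ∈ B) (y : ι → V) (hy : y ∈ blow l X) :
    (∃ σ' τ', IsChart X σ' τ' ∧ (∃ b, l b (σ' 0) ≠ 0) ∧ ∃ σ1 τ1, IsChart (blow l X) σ1 τ1 ∧ σ1 0 = y ∧
      (∃ c : ℂ, c ≠ 0 ∧ ∀ p, σ1 p = c • phi l (σ' p)) ∧ ∀ᶠ p in 𝓝 (0 : ℂ × ℂ), (σ1 p ∈ total l X B ↔ σ' p ∈ B)) ∨
    ∃ (e : (ℂ × ℂ) ≃L[ℂ] (ℂ × ℂ)) (σ1 : ℂ × ℂ → ι → V) (τ1 : (ι → V) → ℂ × ℂ), IsChart (blow l X) σ1 τ1 ∧ σ1 0 = y ∧
      ∀ᶠ p in 𝓝 (0 : ℂ × ℂ), (σ1 p ∈ total l X B ↔ σ (e (p.1, p.1 * p.2)) ∈ B) := by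
  rcases blow_cover hX hl h h0 y hy with hd | ⟨w, hw, c, hc, rfl⟩
  · left
    obtain ⟨x, hx, ⟨b, hb⟩, c, hc, rfl⟩ := hd
    obtain ⟨σ', τ', h', h0'⟩ := hX.chart x hx
    have hb' : l b (σ' 0) ≠ 0 := by rw [h0']; exact hb
    have h1 := (chart_off hX h' hb').scale blow_smul hc
    refine ⟨σ', τ', h', ⟨b, hb'⟩, _, _, h1, by simp only [h0'], ⟨c, hc, fun p => rfl⟩, ?_⟩
    have hcont : ContinuousAt (fun p => l b (σ' p)) 0 :=
      (l b).continuous.continuousAt.comp h'.σ_an.continuousAt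
    filter_upwards [h1.σ_mem, h'.σ_mem, hcont.eventually_ne hb'] with p hp hp' hpb
    have hne : σ' p ≠ 0 := fun h0 => hX.zero (h0 ▸ hp')
    have hval : (c • phi l (σ' p)) b = (c * l b (σ' p)) • σ' p := by
      simp only [phi, Pi.smul_apply, smul_smul]
    have hk : c * l b (σ' p) ≠ 0 := mul_ne_zero hc hpb
    have hvne : (c • phi l (σ' p)) b ≠ 0 := by
      rw [hval]
      exact smul_ne_zero hk hne
    rw [mem_total_iff hX hB _ hp hvne, hval]
    exact SurfB_smul_mem hB hk _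
  · right
    obtain ⟨e, σ1, τ1, h1, h2, h3⟩ := SurfB_exc hX hl h h0 hw hc
    refine ⟨e, σ1, τ1, h1, h2, ?_⟩
    have hq0 : σ 0 ≠ 0 := h.ne
    obtain ⟨Λ, -, hΛ⟩ := exists_dual_vector ℂ (σ 0) (norm_ne_zero_iff.mpr hq0)
    have hΛ0 : Λ (σ 0) ≠ 0 := by
      rw [hΛ]
      simpa using hq0
    have hinner : AnalyticAt ℂ (fun p : ℂ × ℂ => e (p.1, p.1 * p.2)) 0 := by
      have h4 : AnalyticAt ℂ (fun p : ℂ × ℂ => (p.1, p.1 * p.2)) 0 :=
        analyticAt_fst.prod (analyticAt_fst.mul analyticAt_snd)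
      exact ((e : (ℂ × ℂ) →L[ℂ] (ℂ × ℂ)).analyticAt _).comp h4
    have hz : e ((0 : ℂ × ℂ).1, (0 : ℂ × ℂ).1 * (0 : ℂ × ℂ).2) = 0 := by simp
    have hσe : AnalyticAt ℂ (fun p : ℂ × ℂ => σ (e (p.1, p.1 * p.2))) 0 := by
      refine AnalyticAt.fun_comp (g := σ) ?_ hinner
      rw [hz]
      exact h.σ_an
    have hcomp : ∀ b, AnalyticAt ℂ (fun p => σ1 p b) 0 := fun b =>
      ((ContinuousLinearMap.proj (R := ℂ) (φ := fun _ : ι => V) b).analyticAt _).comp h1.σ_an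
    have hG : ∀ b, AnalyticAt ℂ (fun p : ℂ × ℂ => Λ (σ (e (p.1, p.1 * p.2))) • σ1 p b - Λ (σ1 p b) • σ (e (p.1, p.1 * p.2))) 0 := by
      intro b
      exact (((Λ.analyticAt _).comp hσe).smul (hcomp b)).sub (((Λ.analyticAt _).comp (hcomp b)).smul hσe)
    have hG0 : ∀ b, ∀ᶠ p in 𝓝 (0 : ℂ × ℂ), Λ (σ (e (p.1, p.1 * p.2))) • σ1 p b - Λ (σ1 p b) • σ (e (p.1, p.1 * p.2)) = 0 := by
      intro b
      have h5 : ∀ᶠ p in 𝓝 (0 : ℂ × ℂ), p.1 ≠ 0 →
          Λ (σ (e (p.1, p.1 * p.2))) • σ1 p b - Λ (σ1 p b) • σ (e (p.1, p.1 * p.2)) = 0 := by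
        filter_upwards [h3] with p hp hp1
        have h6 : σ1 p = p.1⁻¹ • (c • phi l (σ (e (p.1, p.1 * p.2)))) := by
          rw [hp, smul_smul, inv_mul_cancel₀ hp1, one_smul]
        have h7 : σ1 p b = (p.1⁻¹ * (c * l b (σ (e (p.1, p.1 * p.2))))) • σ (e (p.1, p.1 * p.2)) := by
          rw [h6]
          simp only [phi, Pi.smul_apply, smul_smul]
        rw [h7, map_smul, smul_eq_mul, smul_smul, mul_comm, sub_self]
      filter_upwards [(hG b).eventually_analyticAt, h5.eventually_nhds] with p hp1 hp2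
      have h8 : ∃ᶠ p' in 𝓝 p, p'.1 ≠ 0 := by
        have h9 : Dense (({0}ᶜ : Set ℂ) ×ˢ (Set.univ : Set ℂ)) := (dense_compl_singleton (0 : ℂ)).prod dense_univ
        have h10 := mem_closure_iff_frequently.mp (h9 p)
        refine h10.mono fun p' hp' => ?_
        exact hp'.1
      have h11 := (h8.and_eventually hp2).mono fun p' hp' => hp'.2 hp'.1
      exact tendsto_nhds_unique_of_frequently_eq hp1.continuousAt tendsto_const_nhds h11
    have hΛe : ∀ᶠ p in 𝓝 (0 : ℂ × ℂ), Λ (σ (e (p.1, p.1 * p.2))) ≠ 0 := by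
      have h12 : ContinuousAt (fun p : ℂ × ℂ => Λ (σ (e (p.1, p.1 * p.2)))) 0 :=
        ((Λ.analyticAt _).comp hσe).continuousAt
      refine h12.eventually_ne ?_
      rw [hz]
      exact hΛ0
    filter_upwards [h1.σ_mem, eventually_all.mpr hG0, hΛe] with p hp hpG hpΛ
    obtain ⟨b, hb⟩ := exists_ne (σ1 p) hp
    have h13 : σ1 p b = ((Λ (σ (e (p.1, p.1 * p.2))))⁻¹ * Λ (σ1 p b)) • σ (e (p.1, p.1 * p.2)) := by
      rw [mul_smul, ← sub_eq_zero.mp (hpG b), smul_smul, inv_mul_cancel₀ hpΛ, one_smul]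
    have hk : (Λ (σ (e (p.1, p.1 * p.2))))⁻¹ * Λ (σ1 p b) ≠ 0 := by
      intro h14
      rw [h14, zero_smul] at h13
      exact hb h13
    rw [mem_total_iff hX hB _ hp hb, h13]
    exact SurfB_smul_mem hB hk _

end Pool.Agent.H62.BU

end

section

/-!
# BU Main: the blow-up of a surface at a point, in terms of the definitions of `H17BP.Surf`
-/

set_option autoImplicit false

namespace Pool.Agent.H62.BU

open Filter Topology

variable {V : Type} [NormedAddCommGroup V] [NormedSpace ℂ V] {ι : Type} [Fintype ι] {l : ι → V →L[ℂ] ℂ} {X B : Set V} {q : V}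

theorem toChart {X : Set V} {σ : ℂ × ℂ → V} {τ : V → ℂ × ℂ} (h : Pool.Agent.H17BP.IsChart X σ τ) : IsChart X σ τ :=
  ⟨h.σ_an, h.σ_mem, h.ne, h.τ_an, h.left, h.right, h.inv⟩

theorem toSurface {X : Set V} (h : Pool.Agent.H17BP.Surface X) : Surface X :=
  ⟨h.zero, h.smul, h.closed, fun x hx => by
    obtain ⟨σ, τ, h1, h2⟩ := h.chart x hx
    exact ⟨σ, τ, toChart h1, h2⟩⟩

theorem toForm {X : Set V} {m j : ℕ} {Ω : V → V → V → ℂ} (h : Pool.Agent.H17BP.IsForm X m j Ω) : IsForm X m j Ω :=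
  ⟨fun x hx v w hv hw => h.add_smul x hx v hv w hw, fun x hx v w hv hw => h.det x hx v hv w hw,
    fun x hx v w hv hw => h.scale x hx v hv w hw, h.analytic⟩

theorem ofForm {X : Set V} {m j : ℕ} {Ω : V → V → V → ℂ} (h : IsForm X m j Ω) : Pool.Agent.H17BP.IsForm X m j Ω :=
  ⟨fun x hx v hv w hw => h.add_smul x hx v w hv hw, fun x hx v hv w hw => h.det x hx v w hv hw,
    fun x hx v hv w hw => h.scale x hx v w hv hw, h.analytic⟩

/-- linear forms whose common kernel is the line through `q` -/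
theorem exists_forms [FiniteDimensional ℂ V] (q : V) : ∃ (r : ℕ) (l : Fin r → V →L[ℂ] ℂ), Ker l q := by
  let W : Submodule ℂ V := Submodule.span ℂ {q}
  let e := Module.finBasis ℂ (V ⧸ W)
  refine ⟨_, fun b => LinearMap.toContinuousLinearMap ((e.coord b).comp W.mkQ), fun v => ?_⟩
  constructor
  · intro h
    have h1 : W.mkQ v = 0 := by
      rw [← e.forall_coord_eq_zero_iff]
      intro b
      have := h b
      simpa using this
    rw [Submodule.mkQ_apply, Submodule.Quotient.mk_eq_zero, Submodule.mem_span_singleton] at h1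
    obtain ⟨c, hc⟩ := h1
    exact ⟨c, hc.symm⟩
  · rintro ⟨c, rfl⟩ b
    have h1 : W.mkQ (c • q) = 0 := by
      rw [Submodule.mkQ_apply, Submodule.Quotient.mk_eq_zero]
      exact W.smul_mem c (Submodule.mem_span_singleton_self q)
    have h2 : ((e.coord b).comp W.mkQ) (c • q) = 0 := by
      rw [LinearMap.comp_apply, h1, map_zero]
    simpa using h2

/-- (2) the form on the blow-up -/
theorem form [FiniteDimensional ℂ V] (hX : Pool.Agent.H17BP.Surface X) {m j : ℕ} {Ω : V → V → V → ℂ} (hΩ : Pool.Agent.H17BP.IsForm X m j Ω) :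
    Pool.Agent.H17BP.IsForm (blow l X) (2 * m) j (om l j Ω) :=
  ofForm (isForm_om (toSurface hX) (toForm hΩ))

/-- (3) the form on the blow-up has no zeros off the total transform -/
theorem noZeros (hX : Pool.Agent.H17BP.Surface X) {m j : ℕ} {Ω : V → V → V → ℂ} (hΩ : Pool.Agent.H17BP.IsForm X m j Ω)
    (hB : ∀ x ∈ B, ∀ c : ℂ, c ≠ 0 → c • x ∈ B) (hl : Ker l q) (hq : q ∈ B) (hn : Pool.Agent.H17BP.NoZeros X B Ω) :
    Pool.Agent.H17BP.NoZeros (blow l X) (total l X B) (om l j Ω) := by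
  have h1 := noZero_om (toSurface hX) (toForm hΩ) hB (fun v hv => (hl v).mp hv) hq
    (fun x hx hxB v w hv hw => hn x hx hxB v hv w hw)
  exact fun y hy hyB v hv w hw => h1 y hy hyB v w hv hw

/-- (6) the components of a point of the blow-up are in the surface, and proportional -/
theorem components (hX : Pool.Agent.H17BP.Surface X) {y : ι → V} (hy : y ∈ blow l X) {b : ι} (hb : y b ≠ 0) :
    y b ∈ X ∧ ∀ b', ∃ c : ℂ, y b' = c • y b :=
  ⟨comp_mem (toSurface hX) y hy hb, fun b' => comp_smul y hy hb b'⟩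

end Pool.Agent.H62.BU

end

section

/-!
# SY EiL: uniqueness of the lift of an entire curve to the blow-up

Two lifts are proportional off a discrete set, hence everywhere; the factor is locally a quotient of two holomorphic functions.
-/

set_option autoImplicit false

open Topology Filter Metric

noncomputable section

namespace Pool.Agent.SY

open Pool.Agent.H17BP (Surface)
open Pool.Agent.H62.BU (blow total Ker phi)

/-- Two nowhere vanishing entire curves which are proportional off a discrete set differ by a nowhere vanishing entire factor. -/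
private lemma eilu_factor {W : Type} [NormedAddCommGroup W] [NormedSpace ℂ W] {Φ Ψ : ℂ → W} (hΦ : Differentiable ℂ Φ)
    (hΨ : Differentiable ℂ Ψ) (hΦ0 : ∀ z, Φ z ≠ 0) (hΨ0 : ∀ z, Ψ z ≠ 0) (h : ∀ z, ∃ᶠ y in 𝓝[≠] z, ∃ c : ℂ, Φ y = c • Ψ y) :
    ∃ u : ℂ → ℂ, Differentiable ℂ u ∧ (∀ z, u z ≠ 0) ∧ ∀ z, Φ z = u z • Ψ z := by
  have hex : ∀ z, ∃ c : ℂ, Φ z = c • Ψ z := by
    intro z
    obtain ⟨L, -, hL⟩ := exists_dual_vector ℂ (Ψ z) (norm_ne_zero_iff.mpr (hΨ0 z))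
    have hL0 : L (Ψ z) ≠ 0 := by
      rw [hL]
      exact Complex.ofReal_ne_zero.mpr (norm_ne_zero_iff.mpr (hΨ0 z))
    have hkey : L (Ψ z) • Φ z = L (Φ z) • Ψ z := by
      by_contra hne
      have hc : ContinuousAt (fun y => L (Ψ y) • Φ y - L (Φ y) • Ψ y) z :=
        ((L.continuous.continuousAt.comp (hΨ z).continuousAt).smul (hΦ z).continuousAt).sub
          ((L.continuous.continuousAt.comp (hΦ z).continuousAt).smul (hΨ z).continuousAt)
      have h1 : ∀ᶠ y in 𝓝[≠] z, L (Ψ y) • Φ y - L (Φ y) • Ψ y ≠ 0 :=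
        (hc.eventually_ne (sub_ne_zero.mpr hne)).filter_mono nhdsWithin_le_nhds
      obtain ⟨y, ⟨c, hy⟩, hy2⟩ := ((h z).and_eventually h1).exists
      apply hy2
      rw [hy, map_smul, smul_smul, smul_eq_mul, mul_comm c, sub_self]
    refine ⟨L (Φ z) / L (Ψ z), ?_⟩
    rw [div_eq_inv_mul, mul_smul, ← hkey, smul_smul, inv_mul_cancel₀ hL0, one_smul]
  choose u hu using hex
  refine ⟨u, fun z => ?_, fun z h0 => hΦ0 z (by rw [hu z, h0, zero_smul]), hu⟩
  obtain ⟨L, -, hL⟩ := exists_dual_vector ℂ (Ψ z) (norm_ne_zero_iff.mpr (hΨ0 z))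
  have hL0 : L (Ψ z) ≠ 0 := by
    rw [hL]
    exact Complex.ofReal_ne_zero.mpr (norm_ne_zero_iff.mpr (hΨ0 z))
  have hd1 : DifferentiableAt ℂ (fun y => L (Φ y)) z := L.differentiableAt.comp z (hΦ z)
  have hd2 : DifferentiableAt ℂ (fun y => L (Ψ y)) z := L.differentiableAt.comp z (hΨ z)
  refine (hd1.div hd2 hL0).congr_of_eventuallyEq ?_
  filter_upwards [hd2.continuousAt.eventually_ne hL0] with y hy
  change u y = L (Φ y) / L (Ψ y)
  rw [hu y, map_smul, smul_eq_mul, mul_div_cancel_right₀ _ hy]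

variable {V : Type} [NormedAddCommGroup V] [NormedSpace ℂ V] {ι : Type} [Fintype ι] {l : ι → V →L[ℂ] ℂ} {X T : Set V} {q : V}

theorem liftB_unique (hX : Surface X) (hl : Ker l q) (hTX : T ⊆ X) (hT : ∀ x ∈ T, ∀ c : ℂ, c ≠ 0 → c • x ∈ T) (hq : q ∈ T) {F : ℂ → V}
    (hF : Ent X T F) {Φ Ψ : ℂ → ι → V} (h1 : IsLiftB l X T F Φ) (h2 : IsLiftB l X T F Ψ) :
    ∃ u : ℂ → ℂ, Differentiable ℂ u ∧ (∀ z, u z ≠ 0) ∧ ∀ z, Φ z = u z • Ψ z := by
  have hF0 : ∀ z, F z ≠ 0 := fun z h => hX.zero (h ▸ hF.mem z)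
  obtain ⟨hΦ, h, hh, hhΦ⟩ := h1
  obtain ⟨hΨ, k, hk, hkΨ⟩ := h2
  obtain ⟨z₀, hz₀⟩ := hF.out
  -- some coordinate of `phi l (F z)` does not vanish identically
  obtain ⟨b, hb⟩ : ∃ b, l b (F z₀) ≠ 0 := by
    by_contra hcon
    push Not at hcon
    obtain ⟨c, hc⟩ := (hl (F z₀)).mp hcon
    have hc0 : c ≠ 0 := by
      rintro rfl
      exact hF0 z₀ (by rw [hc, zero_smul])
    exact hz₀ (hc ▸ hT q hq c hc0)
  have hfa : AnalyticOnNhd ℂ (fun z => l b (F z)) Set.univ := fun z _ =>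
    ((l b).differentiable.comp hF.diff).analyticAt z
  have hne : ∀ z, ∀ᶠ y in 𝓝[≠] z, l b (F y) ≠ 0 := by
    intro z
    rcases (hfa z (Set.mem_univ z)).eventually_eq_zero_or_eventually_ne_zero with hz | hz
    · exact absurd (hfa.eqOn_zero_of_preconnected_of_eventuallyEq_zero isPreconnected_univ (Set.mem_univ z) hz (Set.mem_univ z₀)) hb
    · exact hz
  refine eilu_factor hΦ.diff hΨ.diff (fun z => (hΦ.mem z).2) (fun z => (hΨ.mem z).2) fun z => ?_
  refine Eventually.frequently ?_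
  filter_upwards [hne z] with y hy
  have hh0 : h y ≠ 0 := by
    intro h0
    have h3 := hhΦ y
    rw [h0, zero_smul] at h3
    have h4 : l b (F y) • F y = 0 := congrFun h3 b
    exact smul_ne_zero hy (hF0 y) h4
  refine ⟨(h y)⁻¹ * k y, ?_⟩
  rw [mul_smul, ← hkΨ y, hhΦ y, smul_smul, inv_mul_cancel₀ hh0, one_smul]

end Pool.Agent.SY

end
end

section

/-!
# SY EiL1: existence of the lift of an entire curve to the blow-up

The entire functions `l b (F z)` are divided by an entire function whose orders are the minima of their orders (Weierstrass' theorem).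
-/

set_option autoImplicit false

open Topology Filter Metric

noncomputable section

namespace Pool.Agent.SY

open Pool.Agent.H17BP (Surface)
open Pool.Agent.H62.BU (blow total Ker phi dense)

private lemma eil_quot {f w : ℂ → ℂ} {z₀ : ℂ} {n : ℕ} (hf : AnalyticAt ℂ f z₀) (hw : AnalyticAt ℂ w z₀)
    (hn : analyticOrderAt w z₀ = n) (h : (n : ℕ∞) ≤ analyticOrderAt f z₀) :
    ∃ q : ℂ → ℂ, AnalyticAt ℂ q z₀ ∧ ∀ᶠ z in 𝓝 z₀, f z = q z * w z := by
  obtain ⟨g, hg, hfg⟩ := (natCast_le_analyticOrderAt hf).mp h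
  obtain ⟨u, hu, hu0, hwu⟩ := hw.analyticOrderAt_eq_natCast.mp hn
  refine ⟨fun z => g z / u z, hg.div hu hu0, ?_⟩
  filter_upwards [hfg, hwu, hu.continuousAt.eventually_ne hu0] with z h1 h2 h3
  rw [h1, h2, smul_eq_mul, smul_eq_mul]
  field_simp

/-- Entire functions, not all zero, divided by their greatest common divisor. -/
private lemma eil_gcd {ι : Type} [Fintype ι] {f : ι → ℂ → ℂ} (hf : ∀ b, Differentiable ℂ (f b)) {z₀ : ℂ} (h0 : ∃ b, f b z₀ ≠ 0) :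
    ∃ (w : ℂ → ℂ) (k : ι → ℂ → ℂ), Differentiable ℂ w ∧ (∀ b, Differentiable ℂ (k b)) ∧ (∀ b z, f b z = k b z * w z) ∧
      (∀ z, ∃ b, k b z ≠ 0) ∧ ∀ z, ∀ᶠ y in 𝓝[≠] z, w y ≠ 0 := by
  classical
  obtain ⟨b₀, hb₀⟩ := h0
  have hfa : ∀ b z, AnalyticAt ℂ (f b) z := fun b z => (hf b).analyticAt z
  have hfin : ∀ z, analyticOrderAt (f b₀) z ≠ ⊤ := fun z =>
    Pool.Agent.H17.EntFun.order_ne_top (f := ⟨f b₀, hf b₀⟩) ((Pool.Agent.H17.EntFun.ne_zero_iff _).mpr ⟨z₀, hb₀⟩) z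
  -- the minimal order
  set m : ℂ → ℕ∞ := fun z => Finset.univ.inf (fun b => analyticOrderAt (f b) z) with hm
  have hmle : ∀ z b, m z ≤ analyticOrderAt (f b) z := fun z b => Finset.inf_le (Finset.mem_univ b)
  have hmfin : ∀ z, m z ≠ ⊤ := fun z h => hfin z (top_le_iff.mp (h ▸ hmle z b₀))
  set D : ℂ → ℕ := fun z => (m z).toNat with hD
  have hDm : ∀ z, (D z : ℕ∞) = m z := fun z => ENat.natCast_toNat (hmfin z)
  have hmex : ∀ z, ∃ b, analyticOrderAt (f b) z = m z := by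
    intro z
    obtain ⟨b, -, hb⟩ := Finset.exists_mem_eq_inf (Finset.univ : Finset ι) ⟨b₀, Finset.mem_univ _⟩ (fun b => analyticOrderAt (f b) z)
    exact ⟨b, hb.symm⟩
  have hne : ∀ z, ∀ᶠ y in 𝓝[≠] z, f b₀ y ≠ 0 := by
    intro z
    rcases (hfa b₀ z).eventually_eq_zero_or_eventually_ne_zero with h | h
    · exact absurd (analyticOrderAt_eq_top.mpr h) (hfin z)
    · exact h
  have hD0 : ∀ z, f b₀ z ≠ 0 → D z = 0 := by
    intro z hz
    have h1 := hmle z b₀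
    rw [(hfa b₀ z).analyticOrderAt_eq_zero.mpr hz, ← hDm z] at h1
    exact_mod_cast le_antisymm h1 zero_le
  have hDfin : ∀ R : ℝ, {z ∈ Metric.closedBall (0 : ℂ) R | D z ≠ 0}.Finite := by
    intro R
    by_contra hinf
    obtain ⟨y, -, hy⟩ := Set.Infinite.exists_accPt_of_subset_isCompact hinf
      (isCompact_closedBall (0 : ℂ) R) (fun z hz => hz.1)
    rw [accPt_iff_frequently_nhdsNE] at hy
    obtain ⟨z, hz1, hz2⟩ := (hy.and_eventually (hne y)).exists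
    exact hz1.2 (hD0 z hz2)
  obtain ⟨w, hw⟩ := Pool.Agent.H17.exists_entire_with_orders D hDfin
  have hwa : ∀ z, AnalyticAt ℂ (w : ℂ → ℂ) z := fun z => w.analyticAt z
  have hwne : ∀ z, ∀ᶠ y in 𝓝[≠] z, (w : ℂ → ℂ) y ≠ 0 := by
    intro z
    rcases (hwa z).eventually_eq_zero_or_eventually_ne_zero with h | h
    · have h1 := analyticOrderAt_eq_top.mpr h
      rw [hw z] at h1
      exact absurd h1 (ENat.natCast_ne_top _)
    · exact h
  choose q hqa hqe using fun b z => eil_quot (hfa b z) (hwa z) (hw z) ((hDm z).le.trans (hmle z b))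
  set k : ι → ℂ → ℂ := fun b z => q b z z with hk
  have hkloc : ∀ b z, k b =ᶠ[𝓝 z] q b z := by
    intro b z
    filter_upwards [eventually_nhdsWithin_iff.mp (hwne z), hqe b z] with y h1 h2
    by_cases hy : y = z
    · rw [hy]
    · have h3 : f b y = q b y y * (w : ℂ → ℂ) y := (hqe b y).self_of_nhds
      exact mul_right_cancel₀ (h1 hy) (h3.symm.trans h2)
  refine ⟨w, k, w.diff, fun b z => ((hkloc b z).differentiableAt_iff).mpr (hqa b z).differentiableAt,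
    fun b z => (hqe b z).self_of_nhds, fun z => ?_, hwne⟩
  obtain ⟨b, hb⟩ := hmex z
  refine ⟨b, ?_⟩
  have h1 : analyticOrderAt (f b) z = analyticOrderAt (fun y => q b z y * (w : ℂ → ℂ) y) z := analyticOrderAt_congr (hqe b z)
  have h2 : analyticOrderAt (fun y => q b z y * (w : ℂ → ℂ) y) z = analyticOrderAt (q b z) z + analyticOrderAt (w : ℂ → ℂ) z :=
    analyticOrderAt_mul (hqa b z) (hwa z)
  rw [h1, h2, hw z, ← hDm z] at hb
  have h3 : analyticOrderAt (q b z) z = 0 := by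
    have h4 : analyticOrderAt (q b z) z + (D z : ℕ∞) = 0 + (D z : ℕ∞) := by rw [hb, zero_add]
    exact (ENat.add_left_injective_of_ne_top (ENat.natCast_ne_top _)) h4
  exact (hqa b z).analyticOrderAt_eq_zero.mp h3

variable {V : Type} [NormedAddCommGroup V] [NormedSpace ℂ V] {ι : Type} [Fintype ι] {l : ι → V →L[ℂ] ℂ} {X T : Set V} {q : V}

theorem exists_liftB (hX : Surface X) (hl : Ker l q) (hTX : T ⊆ X) (hT : ∀ x ∈ T, ∀ c : ℂ, c ≠ 0 → c • x ∈ T) (hq : q ∈ T) {F : ℂ → V}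
    (hF : Ent X T F) : ∃ Φ, IsLiftB l X T F Φ := by
  have hF0 : ∀ z, F z ≠ 0 := fun z h => hX.zero (h ▸ hF.mem z)
  obtain ⟨z₀, hz₀⟩ := hF.out
  have h0 : ∃ b, l b (F z₀) ≠ 0 := by
    by_contra hcon
    push Not at hcon
    obtain ⟨c, hc⟩ := (hl (F z₀)).mp hcon
    have hc0 : c ≠ 0 := by
      rintro rfl
      exact hF0 z₀ (by rw [hc, zero_smul])
    exact hz₀ (hc ▸ hT q hq c hc0)
  have hfd : ∀ b, Differentiable ℂ (fun z => l b (F z)) := fun b => (l b).differentiable.comp hF.diff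
  obtain ⟨w, k, hwd, hkd, hkf, hk0, hwne⟩ := eil_gcd hfd h0
  have hphi : ∀ z, phi l (F z) = w z • (fun b => k b z • F z) := by
    intro z
    funext b
    change l b (F z) • F z = w z • (k b z • F z)
    rw [hkf b z, smul_smul, mul_comm]
  have hΦ0 : ∀ z, (fun b => k b z • F z) ≠ (0 : ι → V) := by
    intro z h
    obtain ⟨b, hb⟩ := hk0 z
    exact smul_ne_zero hb (hF0 z) (congrFun h b)
  have hΦd : Differentiable ℂ (fun z => (fun b => k b z • F z : ι → V)) := differentiable_pi.mpr fun b => (hkd b).smul hF.diff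
  refine ⟨fun z b => k b z • F z, ⟨hΦd, fun z => ⟨?_, hΦ0 z⟩, z₀, ?_⟩, w, hwd, hphi⟩
  · have hc : Tendsto (fun z => (fun b => k b z • F z : ι → V)) (𝓝[≠] z) (𝓝 (fun b => k b z • F z)) :=
      (hΦd z).continuousAt.tendsto.mono_left nhdsWithin_le_nhds
    refine mem_closure_of_tendsto hc ?_
    filter_upwards [hwne z] with y hy
    refine ⟨F y, hF.mem y, ?_, (w y)⁻¹, inv_ne_zero hy, ?_⟩
    · obtain ⟨b, hb⟩ := hk0 y
      exact ⟨b, by rw [hkf b y]; exact mul_ne_zero hb hy⟩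
    · rw [hphi y, smul_smul, inv_mul_cancel₀ hy, one_smul]
  · rintro ⟨-, h⟩
    obtain ⟨b, hb⟩ := hk0 z₀
    have h1 : k b z₀ • F z₀ ∈ T := h b (smul_ne_zero hb (hF0 z₀))
    have h2 := hT _ h1 (k b z₀)⁻¹ (inv_ne_zero hb)
    rw [smul_smul, inv_mul_cancel₀ hb, one_smul] at h2
    exact hz₀ h2

end Pool.Agent.SY

end
end
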