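import Pool.Agent.H43.TL2.M76
import Pool.Agent.H43.TL2.M77

/-! The parts of this file: SY.EiS, SDA.ED. -/

section

/-!
# SY EiS: the curvature of the metric downstairs

Near `z₀` every component of the lift is `Φ w b = k b w • F w` with `k b` analytic, `k = (k b)_b ≠ 0`, so `|L' (Φ w)| = |k w| |L (F w)|`.
`|k|` has a lower support of exponent `0` (Cauchy-Schwarz), hence so has `|k|^c₀`; multiply the property `sub` of `g Φ` by it.
-/

set_option autoImplicit false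

open Topology Filter Metric

noncomputable section

namespace Pool.Agent.SY

open Pool.Agent.H36.BP (EN fs wd Sub)
open Pool.Agent.H17BP (Pr Surface IsForm NoZeros NodalAt IsChart)
open Pool.Agent.H62.BU (blow total Ker phi)

variable {V : Type} [NormedAddCommGroup V] [NormedSpace ℂ V] {ι : Type} [Fintype ι] {l : ι → V →L[ℂ] ℂ} {X T : Set V} {q : V}

private theorem ne_of_mem (hX : Surface X) {x : V} (hx : x ∈ X) : x ≠ 0 := fun h => hX.zero (h ▸ hx)

/-- the norm of a holomorphic vector -/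
theorem sub_norm_pi {k : ι → ℂ → ℂ} {z₀ : ℂ} (hk : ∀ b, AnalyticAt ℂ (k b) z₀) (h0 : ∃ b, k b z₀ ≠ 0) :
    Sub (fun w => ‖(WithLp.toLp 2 (fun b => k b w) : EuclideanSpace ℂ ι)‖) z₀ 0 := by
  set U : ℂ → EuclideanSpace ℂ ι := fun w => WithLp.toLp 2 (fun b => k b w) with hU
  have hU0 : U z₀ ≠ 0 := by
    intro h
    obtain ⟨b, hb⟩ := h0
    apply hb
    have := congrArg (fun v : EuclideanSpace ℂ ι => v b) h
    exact this
  have hn : 0 < ‖U z₀‖ := norm_pos_iff.mpr hU0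
  set f : ℂ → ℂ := fun w => inner ℂ (U z₀) (U w) / (‖U z₀‖ : ℂ) with hf
  have hfa : AnalyticAt ℂ f z₀ := by
    refine AnalyticAt.div ?_ analyticAt_const (by exact_mod_cast hn.ne')
    have h1 : (fun w => (inner ℂ (U z₀) (U w) : ℂ)) = fun w => ∑ b, k b w * (starRingEnd ℂ) (k b z₀) := by
      funext w
      rw [PiLp.inner_apply]
      rfl
    rw [h1]
    exact Finset.analyticAt_fun_sum _ fun b _ => (hk b).mul analyticAt_const
  have hf0 : ‖f z₀‖ = ‖U z₀‖ := by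
    rw [hf]
    simp only
    rw [norm_div, inner_self_eq_norm_sq_to_K, norm_pow, Complex.norm_real]
    simp only [Complex.coe_algebraMap, Complex.norm_real, norm_norm]
    field_simp
  have hf1 : f z₀ ≠ 0 := by
    rw [← norm_pos_iff, hf0]
    exact hn
  refine (Pool.Agent.H36.BP.Sub.of_holo hfa hf1).mono hf0 (Eventually.of_forall fun w => ?_)
  rw [hf]
  simp only
  rw [norm_div, Complex.norm_real, norm_norm, div_le_iff₀ hn, mul_comm]
  exact norm_inner_le_norm _ _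

/-- the multiplier of the lift does not vanish identically near any point -/
theorem lift_ne (hX : Surface X) (hl : Ker l q) (hT : ∀ x ∈ T, ∀ c : ℂ, c ≠ 0 → c • x ∈ T) (hq : q ∈ T) {F : ℂ → V}
    (hF : Ent X T F) {Φ : ℂ → ι → V} {h : ℂ → ℂ} (hh : Differentiable ℂ h) (hphi : ∀ z, phi l (F z) = h z • Φ z) (z₀ : ℂ) :
    ∀ᶠ z in 𝓝[≠] z₀, h z ≠ 0 := by
  rcases (hh.analyticAt z₀).eventually_eq_zero_or_eventually_ne_zero with h1 | h1
  · exfalso
    have h2 : ∀ z, h z = 0 := by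
      intro z
      have h3 : AnalyticOnNhd ℂ h Set.univ := fun w _ => hh.analyticAt w
      exact h3.eqOn_zero_of_preconnected_of_eventuallyEq_zero isPreconnected_univ (Set.mem_univ z₀) h1 (Set.mem_univ z)
    obtain ⟨z, hz⟩ := hF.out
    apply hz
    have hne : F z ≠ 0 := ne_of_mem hX (hF.mem z)
    have h4 : ∀ b, l b (F z) = 0 := by
      intro b
      have h5 := congrFun (hphi z) b
      rw [h2 z, zero_smul] at h5
      have h6 : l b (F z) • F z = 0 := h5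
      exact (smul_eq_zero.mp h6).resolve_right hne
    obtain ⟨c, hc⟩ := (hl (F z)).mp h4
    have hc0 : c ≠ 0 := by
      rintro rfl
      rw [zero_smul] at hc
      exact hne hc
    rw [hc]
    exact hT q hq c hc0
  · exact h1

/-- the components of the lift are holomorphic multiples of `F` -/
theorem lift_comp {N : ℕ} (L : V ≃L[ℂ] EN N) (hX : Surface X) (hl : Ker l q) (hT : ∀ x ∈ T, ∀ c : ℂ, c ≠ 0 → c • x ∈ T) (hq : q ∈ T)
    {F : ℂ → V} (hF : Ent X T F) {Φ : ℂ → ι → V} (h1 : IsLiftB l X T F Φ) (z₀ : ℂ) :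
    ∃ k : ι → ℂ → ℂ, (∀ b, AnalyticAt ℂ (k b) z₀) ∧ (∃ b, k b z₀ ≠ 0) ∧ ∀ᶠ w in 𝓝 z₀, ∀ b, Φ w b = k b w • F w := by
  obtain ⟨hΦ, h, hh, hphi⟩ := h1
  haveI : FiniteDimensional ℂ V := L.symm.toLinearEquiv.finiteDimensional
  haveI : CompleteSpace V := FiniteDimensional.complete ℂ V
  have hne : F z₀ ≠ 0 := ne_of_mem hX (hF.mem z₀)
  have hLne : L (F z₀) ≠ 0 := fun h0 => hne (by simpa using congrArg L.symm h0)
  obtain ⟨i, hi⟩ : ∃ i, L (F z₀) i ≠ 0 := by
    by_contra hcon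
    push Not at hcon
    exact hLne (by ext i; exact hcon i)
  set e : V →L[ℂ] ℂ := (EuclideanSpace.proj i : EN N →L[ℂ] ℂ).comp (L : V →L[ℂ] EN N) with he
  have he0 : e (F z₀) ≠ 0 := hi
  have hFa : AnalyticAt ℂ F z₀ := hF.diff.analyticAt z₀
  have hΦa : ∀ b, AnalyticAt ℂ (fun w => Φ w b) z₀ := by
    intro b
    exact ((ContinuousLinearMap.proj (R := ℂ) (φ := fun _ : ι => V) b).analyticAt _).comp (hΦ.diff.analyticAt z₀)
  have hka : ∀ b, AnalyticAt ℂ (fun w => e (Φ w b) / e (F w)) z₀ := by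
    intro b
    exact ((e.analyticAt _).comp (hΦa b)).div ((e.analyticAt _).comp hFa) he0
  have hev : ∀ᶠ w in 𝓝 z₀, ∀ b, Φ w b = (e (Φ w b) / e (F w)) • F w := by
    rw [eventually_all]
    intro b
    have h2 : AnalyticAt ℂ (fun w => (e (Φ w b) / e (F w)) • F w) z₀ := (hka b).smul hFa
    have h3 : ∀ᶠ w in 𝓝[≠] z₀, Φ w b = (e (Φ w b) / e (F w)) • F w := by
      have h4 : ∀ᶠ w in 𝓝 z₀, e (F w) ≠ 0 := ((e.analyticAt _).comp hFa).continuousAt.eventually_ne he0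
      filter_upwards [lift_ne hX hl hT hq hF hh hphi z₀, h4.filter_mono nhdsWithin_le_nhds] with w h5 h6
      have h7 : l b (F w) • F w = h w • Φ w b := congrFun (hphi w) b
      have h8 : Φ w b = ((h w)⁻¹ * l b (F w)) • F w := by
        rw [mul_smul, h7, smul_smul, inv_mul_cancel₀ h5, one_smul]
      rw [h8, map_smul, smul_eq_mul, mul_div_assoc, div_self h6, mul_one]
    exact ((hΦa b).frequently_eq_iff_eventually_eq h2).mp h3.frequently
  refine ⟨fun b w => e (Φ w b) / e (F w), hka, ?_, hev⟩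
  by_contra hcon
  push Not at hcon
  have h2 : Φ z₀ = 0 := by
    funext b
    have h3 := hev.self_of_nhds b
    rw [h3, hcon b, zero_smul]
    rfl
  exact (hΦ.mem z₀).2 h2

end Pool.Agent.SY

end
end

section

/-!
# SDA ED: the metric of the blow-up on the curves of the open surface

The lift of a curve in `K` is a curve in `total l X K`; the value does not depend on the lift; it is compatible with affine changes of the
parameter and with units (compare `SY/EiD.lean`).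
-/

set_option autoImplicit false

open Topology Filter Metric

noncomputable section

namespace Pool.Agent.SDA

open Pool.Agent.H36.BP (EN)
open Pool.Agent.H17BP (Surface)
open Pool.Agent.H62.BU (blow total Ker phi)
open Pool.Agent.SY (Ent IsLiftB down exists_liftB liftB_unique lift_ne)

variable {V : Type} [NormedAddCommGroup V] [NormedSpace ℂ V] {ι : Type} [Fintype ι] {l : ι → V →L[ℂ] ℂ} {X K T : Set V} {q : V}

/-- the components of the lift are multiples of `F` -/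
theorem lift_mul (hX : Surface X) (hl : Ker l q) (hT : ∀ x ∈ T, ∀ c : ℂ, c ≠ 0 → c • x ∈ T) (hq : q ∈ T) {F : ℂ → V}
    (hF : Ent X T F) {Φ : ℂ → ι → V} (h1 : IsLiftB l X T F Φ) (z : ℂ) (b : ι) : ∃ c : ℂ, Φ z b = c • F z := by
  obtain ⟨hΦ, h, hh, hphi⟩ := h1
  have hne : F z ≠ 0 := fun h0 => hX.zero (h0 ▸ hF.mem z)
  obtain ⟨e, -, he⟩ := exists_dual_vector ℂ (F z) (norm_pos_iff.mpr hne).ne'
  have he0 : e (F z) ≠ 0 := by
    intro h0
    rw [h0] at he
    exact (norm_pos_iff.mpr hne).ne' (Complex.ofReal_eq_zero.mp he.symm)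
  have hFc : ContinuousAt F z := hF.diff.continuous.continuousAt
  have hΦc : ContinuousAt (fun w => Φ w b) z := ((continuous_apply b).comp hΦ.diff.continuous).continuousAt
  have heF : ContinuousAt (fun w => e (F w)) z := e.continuous.continuousAt.comp hFc
  have h4 : ∀ᶠ w in 𝓝 z, e (F w) ≠ 0 := heF.eventually_ne he0
  have h3 : ∀ᶠ w in 𝓝[≠] z, Φ w b = (e (Φ w b) / e (F w)) • F w := by
    filter_upwards [lift_ne hX hl hT hq hF hh hphi z, h4.filter_mono nhdsWithin_le_nhds] with w h5 h6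
    have h7 : l b (F w) • F w = h w • Φ w b := congrFun (hphi w) b
    have h8 : Φ w b = ((h w)⁻¹ * l b (F w)) • F w := by
      rw [mul_smul, h7, smul_smul, inv_mul_cancel₀ h5, one_smul]
    rw [h8, map_smul, smul_eq_mul, mul_div_assoc, div_self h6, mul_one]
  have h9 : ContinuousAt (fun w => (e (Φ w b) / e (F w)) • F w) z :=
    ((e.continuous.continuousAt.comp hΦc).div heF he0).smul hFc
  refine ⟨e (Φ z b) / e (F z), ?_⟩
  have h10 : Tendsto (fun w => Φ w b) (𝓝[≠] z) (𝓝 ((e (Φ z b) / e (F z)) • F z)) :=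
    (h9.mono_left nhdsWithin_le_nhds).congr' (h3.mono fun w hw => hw.symm)
  exact tendsto_nhds_unique (hΦc.mono_left nhdsWithin_le_nhds) h10

/-- MODULE K4 (0): the lift of a curve in `K` is a curve in `total l X K` -/
theorem entU_lift (hX : Surface X) (hKX : K ⊆ X) (hKs : ∀ x ∈ K, ∀ c : ℂ, c ≠ 0 → c • x ∈ K) (hl : Ker l q)
    (hT : ∀ x ∈ T, ∀ c : ℂ, c ≠ 0 → c • x ∈ T) (hq : q ∈ T) {F : ℂ → V}
    (hF : EntU X K T F) {Φ : ℂ → ι → V} (h1 : IsLiftB l X T F Φ) : EntU (blow l X) (total l X K) (total l X T) Φ := by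
  refine ⟨h1.1, fun z => ⟨h1.1.mem z, fun b hb => ?_⟩⟩
  obtain ⟨c, hc⟩ := lift_mul hX hl hT hq hF.ent h1 z b
  rw [hc] at hb ⊢
  exact hKs _ (hF.memK z) c fun h0 => hb (by rw [h0, zero_smul])

/-- MODULE K4 (1): the value on any lift -/
theorem downU_eq {N' : ℕ} {L' : (ι → V) ≃L[ℂ] EN N'} {rho : (ι → V) → ℝ} {M : ℕ} {c₀ C δ : ℝ} {g : (ℂ → ι → V) → ℂ → ℝ}
    (hX : Surface X) (hKX : K ⊆ X) (hKs : ∀ x ∈ K, ∀ c : ℂ, c ≠ 0 → c • x ∈ K) (hl : Ker l q) (hTX : T ⊆ X)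
    (hT : ∀ x ∈ T, ∀ c : ℂ, c ≠ 0 → c • x ∈ T) (hq : q ∈ T)
    (E : EnU (blow l X) (total l X K) (total l X T) (fun y => ‖L' y‖) rho M c₀ C δ g) {F : ℂ → V} (hF : EntU X K T F) {Φ : ℂ → ι → V}
    (h1 : IsLiftB l X T F Φ) : down l X T g F = g Φ := by
  have hex : ∃ Φ, IsLiftB l X T F Φ := ⟨Φ, h1⟩
  have h2 : down l X T g F = g hex.choose := by
    unfold down
    rw [dif_pos hex]
  obtain ⟨u, hu, hu0, huΦ⟩ := liftB_unique hX hl hTX hT hq hF.ent hex.choose_spec h1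
  rw [h2, show hex.choose = fun z => u z • Φ z from funext huΦ]
  exact funext fun z => E.unit Φ (entU_lift hX hKX hKs hl hT hq hF h1) u hu hu0 z

theorem ent_aff {W : Type} [NormedAddCommGroup W] [NormedSpace ℂ W] {X T : Set W} {F : ℂ → W} (hF : Ent X T F) {a b : ℂ}
    (ha : a ≠ 0) : Ent X T (fun w => F (a * w + b)) := by
  refine ⟨hF.diff.comp ((differentiable_id.const_mul a).add_const b), fun z => hF.mem _, ?_⟩
  obtain ⟨z, hz⟩ := hF.out
  refine ⟨(z - b) / a, ?_⟩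
  rwa [mul_div_cancel₀ _ ha, sub_add_cancel]

theorem entU_aff {W : Type} [NormedAddCommGroup W] [NormedSpace ℂ W] {X K T : Set W} {F : ℂ → W} (hF : EntU X K T F) {a b : ℂ}
    (ha : a ≠ 0) : EntU X K T (fun w => F (a * w + b)) :=
  ⟨ent_aff hF.ent ha, fun _ => hF.memK _⟩

/-- MODULE K4 (2) -/
theorem downU_aff {N' : ℕ} {L' : (ι → V) ≃L[ℂ] EN N'} {rho : (ι → V) → ℝ} {M : ℕ} {c₀ C δ : ℝ} {g : (ℂ → ι → V) → ℂ → ℝ}
    (hX : Surface X) (hKX : K ⊆ X) (hKs : ∀ x ∈ K, ∀ c : ℂ, c ≠ 0 → c • x ∈ K) (hl : Ker l q) (hTX : T ⊆ X)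
    (hT : ∀ x ∈ T, ∀ c : ℂ, c ≠ 0 → c • x ∈ T) (hq : q ∈ T)
    (E : EnU (blow l X) (total l X K) (total l X T) (fun y => ‖L' y‖) rho M c₀ C δ g) {F : ℂ → V} (hF : EntU X K T F) {a b : ℂ}
    (ha : a ≠ 0) (z : ℂ) :
    down l X T g (fun w => F (a * w + b)) z = ‖a‖ * down l X T g F (a * z + b) := by
  obtain ⟨Φ, hΦ, h, hh, hhΦ⟩ := exists_liftB hX hl hTX hT hq hF.ent
  have h2 : IsLiftB l X T (fun w => F (a * w + b)) (fun w => Φ (a * w + b)) :=
    ⟨ent_aff hΦ ha, fun w => h (a * w + b), hh.comp ((differentiable_id.const_mul a).add_const b), fun w => hhΦ _⟩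
  rw [downU_eq hX hKX hKs hl hTX hT hq E (entU_aff hF ha) h2, downU_eq hX hKX hKs hl hTX hT hq E hF ⟨hΦ, h, hh, hhΦ⟩]
  exact E.aff Φ (entU_lift hX hKX hKs hl hT hq hF ⟨hΦ, h, hh, hhΦ⟩) a b ha z

/-- MODULE K4 (3) -/
theorem downU_unit {N' : ℕ} {L' : (ι → V) ≃L[ℂ] EN N'} {rho : (ι → V) → ℝ} {M : ℕ} {c₀ C δ : ℝ} {g : (ℂ → ι → V) → ℂ → ℝ}
    (hX : Surface X) (hKX : K ⊆ X) (hKs : ∀ x ∈ K, ∀ c : ℂ, c ≠ 0 → c • x ∈ K) (hl : Ker l q) (hTX : T ⊆ X)
    (hT : ∀ x ∈ T, ∀ c : ℂ, c ≠ 0 → c • x ∈ T) (hq : q ∈ T)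
    (E : EnU (blow l X) (total l X K) (total l X T) (fun y => ‖L' y‖) rho M c₀ C δ g) {F : ℂ → V} (hF : EntU X K T F) {h : ℂ → ℂ}
    (hh : Differentiable ℂ h) (h0 : ∀ z, h z ≠ 0) (z : ℂ) :
    down l X T g (fun w => h w • F w) z = down l X T g F z := by
  obtain ⟨Φ, hΦ, k, hk, hkΦ⟩ := exists_liftB hX hl hTX hT hq hF.ent
  have h1 : EntU X K T (fun w => h w • F w) := by
    refine ⟨⟨fun w => (hh w).smul (hF.ent.diff w), fun w => hX.smul _ (hF.ent.mem w) _ (h0 w), ?_⟩, fun w => hKs _ (hF.memK w) _ (h0 w)⟩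
    obtain ⟨w, hw⟩ := hF.ent.out
    refine ⟨w, fun hc => hw ?_⟩
    have h3 := hT _ hc (h w)⁻¹ (inv_ne_zero (h0 w))
    rwa [smul_smul, inv_mul_cancel₀ (h0 w), one_smul] at h3
  have h2 : IsLiftB l X T (fun w => h w • F w) Φ := by
    refine ⟨hΦ, fun w => h w ^ 2 * k w, fun w => ((hh w).pow 2).mul (hk w), fun w => ?_⟩
    rw [mul_smul, ← hkΦ w]
    funext b
    simp only [phi, Pi.smul_apply, map_smul, smul_eq_mul, smul_smul]
    congr 1
    ring
  rw [downU_eq hX hKX hKs hl hTX hT hq E h1 h2, downU_eq hX hKX hKs hl hTX hT hq E hF ⟨hΦ, k, hk, hkΦ⟩]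

end Pool.Agent.SDA

end
end
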