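import Pool.Agent.H43.TL2.M42
import Pool.Agent.H43.TL2.M45
import Pool.Agent.H43.TL2.M54
import Pool.Agent.H43.TL2.M57
import Pool.Agent.H43.TL2.M78
import Pool.Agent.H43.TL2.M82

/-! The parts of this file: H13.CV.RatB, H14.KB.KobK, H36.BPL.BlowK, H36.LB.BlowL, AD.P.Bridge, AD.T.NCDefs, H13.SM.Surf_1, H90.SG.Poly, H22.WL.Proj, SDA.ES, SDA.EW. -/

section

/-!
# CV RatB: rational function fields

Let `K = ℂ(t)`; `t` is transcendental (`hK.exists_tr`: if `t` were algebraic then all elements of `K` would be algebraic).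
(1) `mob`: `IntermediateField.adjoin ℂ {t'} = ⊤` for `t' = t - c`, `t⁻¹`, `c t` (`c ≠ 0`): `t` is in `adjoin ℂ {t'}`.
(2) `oz_eq`: if `adjoin ℂ {s} = ⊤` then there is at most one place with `0 < ord s`, and `oz E s = 1` there (`sum_le` with `L = ⊤ = ℂ(s)`, `finrank ⊤ K = 1`, or with `T = {E}` and `T = {E, E'}`).  The same
for `ord s < 0` and `oz E s = -1` (`s⁻¹`).
(3) Given places `E₁ ≠ E₂` there is `s` with `adjoin ℂ {s} = ⊤`, `0 < ord_{E₁} s`, `ord_{E₂} s < 0`: replacing `t` by `t⁻¹` if necessary we may assume that `t` has a value `c₂` at `E₂` (`exists_value`), replacing it by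
`(t - c₂)⁻¹` we may assume that `ord_{E₂} t < 0`; by (2) `t` has no pole at `E₁`, so it has a value `c₁`: `s = t - c₁`.
(4) If all places in `B` are among two places `E₁, E₂`: if `E₁ ≠ E₂` take `t' = s` as in (3); if `E₁ = E₂` choose `t' = t - c` or `t` with `oz E₁ t' ≠ 0`.  If `B` is empty: `t' = t`.
(5) Otherwise there are three different places `E₁, E₂, E₃` in `B`.  `s` as in (3); at `E₃` it has no pole and no zero (2), so it has a value `c ≠ 0`; replace `s` by `s / c`, so that the value at `E₃` is `1`.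
`lgt_of_forms` with `m = 1`, `ω = dx s`, `f₀ = s⁻¹`, `f₁ = (s - 1)⁻¹`; `f₁ / f₀ = s / (s - 1)` is not a constant.  Check at a place `E` with `pole_mk` (`p = 1` in `B`, `p = 0` otherwise):
* `0 < ord s`: `E = E₁`, `oz E s = 1`, `oz E f₀ = -1`, `oz E f₁ = 0`: `-1 + (1 - 1) + 1 ≥ 0`.
* `ord s < 0`: `E = E₂`, `oz E s = -1`, `oz E f₀ = oz E f₁ = 1`: `1 + (-1 - 1) + 1 ≥ 0`.
* otherwise `s` has a value `c ≠ 0` at `E`; `dx s = dx (s - c)` (`dx_sub_const`) and `oz E (s - c) = 1` by (2).  If `c = 1` then `E = E₃` by (2) for `s - 1`: `oz E f₁ = -1`, `oz E f₀ = 0`: `-1 + 0 + 1 ≥ 0`.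
If `c ≠ 1`: `oz E f₀ = oz E f₁ = 0`.
-/

set_option autoImplicit false

open Pool.Agent.H23.Fano (PrimeDivisorOver Form regularForms)
open Pool.Agent.H17LG.Variety (PoleAtMost IsLogGeneralType)

noncomputable section

namespace Pool.Agent.H13.CV

variable {K : Type} [Field K] [Algebra ℂ K]

private lemma tr_of_top (hK : CurveField K) {t : K} (ht : IntermediateField.adjoin ℂ {t} = ⊤) : Transcendental ℂ t := by
  by_contra hal
  obtain ⟨c, hc⟩ : ∃ c : ℂ, t = algebraMap ℂ K c := by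
    by_contra h
    push Not at h
    exact hal (transcendental_of_not_const h)
  obtain ⟨x, hx⟩ := hK.exists_tr
  have h1 : IntermediateField.adjoin ℂ {t} = (⊥ : IntermediateField ℂ K) := by
    rw [IntermediateField.adjoin_simple_eq_bot_iff, IntermediateField.mem_bot]
    exact ⟨c, hc.symm⟩
  have h2 : x ∈ (⊥ : IntermediateField ℂ K) := by
    rw [← h1, ht]
    exact IntermediateField.mem_top
  rw [IntermediateField.mem_bot] at h2
  obtain ⟨d, hd⟩ := h2
  exact hx (hd ▸ isAlgebraic_algebraMap d)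

private lemma gen_top (hK : CurveField K) {t : K} (ht : IntermediateField.adjoin ℂ {t} = ⊤) : Gen (⊤ : IntermediateField ℂ K) t :=
  ⟨tr_of_top hK ht, ht.symm⟩

private lemma fin_top : FiniteDimensional (⊤ : IntermediateField ℂ K) K :=
  Module.finite_of_finrank_pos (by rw [IntermediateField.finrank_top]; norm_num)

private lemma one_le_oz {s : K} (hs : Gen (⊤ : IntermediateField ℂ K) s) {E : Place K} (hE : 0 < E.ord s) : 1 ≤ oz E s :=
  (pos_iff.1 hE).resolve_left hs.ne_zero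

private lemma oz_zero_eq {s : K} (hs : Gen (⊤ : IntermediateField ℂ K) s) {E : Place K} (hE : 0 < E.ord s) : oz E s = 1 := by
  have := fin_top (K := K)
  have h1 := sum_le hs {E} (by
    intro E' hE'
    rw [Finset.mem_singleton] at hE'
    rwa [hE'])
  rw [Finset.sum_singleton, IntermediateField.finrank_top] at h1
  have h2 := one_le_oz hs hE
  push_cast at h1
  omega

private lemma zero_uniq {s : K} (hs : Gen (⊤ : IntermediateField ℂ K) s) {E E' : Place K} (hE : 0 < E.ord s) (hE' : 0 < E'.ord s) : E = E' := by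
  classical
  by_contra hne
  have := fin_top (K := K)
  have h1 := sum_le hs {E, E'} (by
    intro E'' hE''
    rw [Finset.mem_insert, Finset.mem_singleton] at hE''
    rcases hE'' with h | h
    · rwa [h]
    · rwa [h])
  rw [Finset.sum_pair hne, IntermediateField.finrank_top] at h1
  have h2 := one_le_oz hs hE
  have h3 := one_le_oz hs hE'
  push_cast at h1
  omega

private lemma oz_pole_eq {s : K} (hs : Gen (⊤ : IntermediateField ℂ K) s) {E : Place K} (hE : E.ord s < 0) : oz E s = -1 := by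
  have h1 := oz_zero_eq hs.inv ((inv_pos_iff hs.ne_zero).2 hE)
  rw [oz_inv] at h1
  omega

private lemma pole_uniq {s : K} (hs : Gen (⊤ : IntermediateField ℂ K) s) {E E' : Place K} (hE : E.ord s < 0) (hE' : E'.ord s < 0) : E = E' :=
  zero_uniq hs.inv ((inv_pos_iff hs.ne_zero).2 hE) ((inv_pos_iff hs.ne_zero).2 hE')

private lemma pole_sub {s : K} {E : Place K} (hE : E.ord s < 0) (c : ℂ) : E.ord (s - algebraMap ℂ K c) < 0 := by
  by_contra h
  push Not at h
  have h1 := nonneg_add h (const_nonneg E c)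
  rw [sub_add_cancel] at h1
  exact absurd hE (not_lt.2 h1)

private lemma oz_sub {s : K} (hs : Gen (⊤ : IntermediateField ℂ K) s) {E : Place K} {a b : ℂ} (h : 0 < E.ord (s - algebraMap ℂ K a)) (hab : a ≠ b) :
    oz E (s - algebraMap ℂ K b) = 0 := by
  have h1 : oz E (s - algebraMap ℂ K a) = 1 := oz_zero_eq (hs.sub_const a) h
  have h2 : (algebraMap ℂ K (a - b)) ≠ 0 := by
    rw [Ne, map_eq_zero, sub_eq_zero]
    exact hab
  have h3 := (oz_add_of_lt E h2 (hs.sub_const a).ne_zero (by rw [oz_const, h1]; norm_num)).2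
  rw [oz_const] at h3
  rw [← h3]
  congr 1
  rw [map_sub]
  ring

private lemma exists_two (hK : CurveField K) {t : K} (ht : Gen (⊤ : IntermediateField ℂ K) t) {E₁ E₂ : Place K} (hne : E₁ ≠ E₂) :
    ∃ s : K, Gen (⊤ : IntermediateField ℂ K) s ∧ 0 < E₁.ord s ∧ E₂.ord s < 0 := by
  obtain ⟨t', ht', hp⟩ : ∃ t' : K, Gen (⊤ : IntermediateField ℂ K) t' ∧ E₂.ord t' < 0 := by
    by_cases h : E₂.ord t < 0
    · exact ⟨t, ht, h⟩
    · push Not at h
      obtain ⟨c, hc⟩ := exists_value hK h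
      refine ⟨(t - algebraMap ℂ K c)⁻¹, (ht.sub_const c).inv, ?_⟩
      rw [neg_iff, oz_inv, oz_zero_eq (ht.sub_const c) hc]
      norm_num
  have h1 : 0 ≤ E₁.ord t' := by
    by_contra h
    push Not at h
    exact hne (pole_uniq ht' h hp)
  obtain ⟨c, hc⟩ := exists_value hK h1
  exact ⟨t' - algebraMap ℂ K c, ht'.sub_const c, hc, pole_sub hp c⟩

private lemma lgt_three (hK : CurveField K) {B : Place K → Prop} {s : K} (hs : Gen (⊤ : IntermediateField ℂ K) s) {E₁ E₂ E₃ : Place K}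
    (hB₁ : B E₁) (hB₂ : B E₂) (hB₃ : B E₃) (h13 : E₁ ≠ E₃) (h23 : E₂ ≠ E₃) (h1 : 0 < E₁.ord s) (h2 : E₂.ord s < 0) : IsLogGeneralType B := by
  have h3 : 0 ≤ E₃.ord s := by
    by_contra h
    push Not at h
    exact h23 (pole_uniq hs h2 h)
  obtain ⟨c, hc⟩ := exists_value hK h3
  have hc0 : c ≠ 0 := by
    rintro rfl
    rw [map_zero, sub_zero] at hc
    exact h13 (zero_uniq hs h1 hc)
  have h1' : 0 < E₁.ord (s - algebraMap ℂ K 0) := by rwa [map_zero, sub_zero]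
  have hs0 : s ≠ 0 := hs.ne_zero
  have hsc : s - algebraMap ℂ K c ≠ 0 := (hs.sub_const c).ne_zero
  -- the orders of the two forms
  have key : ∀ E : Place K, (¬ B E → PoleAtMost 0 E 1 s⁻¹ (dx s) ∧ PoleAtMost 0 E 1 (s - algebraMap ℂ K c)⁻¹ (dx s)) ∧
      (B E → PoleAtMost 1 E 1 s⁻¹ (dx s) ∧ PoleAtMost 1 E 1 (s - algebraMap ℂ K c)⁻¹ (dx s)) := by
    intro E
    by_cases hpos : 0 < E.ord s
    · obtain rfl := zero_uniq hs h1 hpos
      have e1 := oz_zero_eq hs h1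
      have e2 := oz_sub hs h1' hc0.symm
      refine ⟨fun h => absurd hB₁ h, fun _ => ⟨pole_mk _ hs0 (Or.inr ?_), pole_mk _ hs0 (Or.inr ?_)⟩⟩
      · rw [oz_inv, e1]; norm_num
      · rw [oz_inv, e2, e1]; norm_num
    by_cases hneg : E.ord s < 0
    · obtain rfl := pole_uniq hs h2 hneg
      have e1 := oz_pole_eq hs h2
      have e2 := oz_pole_eq (hs.sub_const c) (pole_sub h2 c)
      refine ⟨fun h => absurd hB₂ h, fun _ => ⟨pole_mk _ hs0 (Or.inr ?_), pole_mk _ hs0 (Or.inr ?_)⟩⟩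
      · rw [oz_inv, e1]; norm_num
      · rw [oz_inv, e2, e1]; norm_num
    push Not at hneg
    obtain ⟨c', hc'⟩ := exists_value hK hneg
    have hc'0 : c' ≠ 0 := by
      rintro rfl
      rw [map_zero, sub_zero] at hc'
      exact hpos hc'
    have e0 : oz E s = 0 := by
      have := oz_sub hs hc' hc'0
      rwa [map_zero, sub_zero] at this
    have e1 : oz E (s - algebraMap ℂ K c') = 1 := oz_zero_eq (hs.sub_const c') hc'
    have hsc' : s - algebraMap ℂ K c' ≠ 0 := (hs.sub_const c').ne_zero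
    rw [← dx_sub_const s c']
    by_cases hcc : c' = c
    · subst hcc
      obtain rfl := zero_uniq (hs.sub_const c') hc hc'
      refine ⟨fun h => absurd hB₃ h, fun _ => ⟨pole_mk _ hsc' (Or.inr ?_), pole_mk _ hsc' (Or.inr ?_)⟩⟩
      · rw [oz_inv, e0, e1]; norm_num
      · rw [oz_inv, e1]; norm_num
    · have e2 : oz E (s - algebraMap ℂ K c) = 0 := oz_sub hs hc' hcc
      refine ⟨fun _ => ⟨pole_mk _ hsc' (Or.inr ?_), pole_mk _ hsc' (Or.inr ?_)⟩, fun _ => ⟨pole_mk _ hsc' (Or.inr ?_), pole_mk _ hsc' (Or.inr ?_)⟩⟩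
      · rw [oz_inv, e0, e1]; norm_num
      · rw [oz_inv, e2, e1]; norm_num
      · rw [oz_inv, e0, e1]; norm_num
      · rw [oz_inv, e2, e1]; norm_num
  refine lgt_of_forms hK (dx_ne_zero hs.tr) le_rfl (inv_ne_zero hs0) (f₁ := (s - algebraMap ℂ K c)⁻¹) ?_
    (fun E => ⟨fun h => ((key E).1 h).1, fun h => ((key E).2 h).1⟩) (fun E => ⟨fun h => ((key E).1 h).2, fun h => ((key E).2 h).2⟩)
  apply tr_of_oz_ne (E := E₁)
  rw [oz_div E₁ (inv_ne_zero hsc) (inv_ne_zero hs0), oz_inv, oz_inv, oz_sub hs h1' hc0.symm, oz_zero_eq hs h1]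
  norm_num

theorem rat_cases (hK : CurveField K) {t : K} (ht : IntermediateField.adjoin ℂ {t} = ⊤) (B : Place K → Prop) :
    IsLogGeneralType B ∨ ∃ t' : K, IntermediateField.adjoin ℂ {t'} = ⊤ ∧ ∀ E, B E → oz E t' ≠ 0 := by
  have hg := gen_top hK ht
  by_cases h3 : ∃ E₁ E₂ E₃ : Place K, B E₁ ∧ B E₂ ∧ B E₃ ∧ E₁ ≠ E₂ ∧ E₁ ≠ E₃ ∧ E₂ ≠ E₃
  · left
    obtain ⟨E₁, E₂, E₃, hB₁, hB₂, hB₃, h12, h13, h23⟩ := h3
    obtain ⟨s, hs, h1, h2⟩ := exists_two hK hg h12
    exact lgt_three hK hs hB₁ hB₂ hB₃ h13 h23 h1 h2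
  right
  by_cases h2 : ∃ E₁ E₂ : Place K, B E₁ ∧ B E₂ ∧ E₁ ≠ E₂
  · obtain ⟨E₁, E₂, hB₁, hB₂, h12⟩ := h2
    obtain ⟨s, hs, h1, h2⟩ := exists_two hK hg h12
    refine ⟨s, hs.eq.symm, fun E hE => ?_⟩
    by_cases hE1 : E = E₁
    · rw [hE1, oz_zero_eq hs h1]
      norm_num
    by_cases hE2 : E = E₂
    · rw [hE2, oz_pole_eq hs h2]
      norm_num
    exact absurd ⟨E₁, E₂, E, hB₁, hB₂, hE, h12, fun h => hE1 h.symm, fun h => hE2 h.symm⟩ h3
  by_cases h1 : ∃ E₁ : Place K, B E₁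
  · obtain ⟨E₁, hB₁⟩ := h1
    have hall : ∀ E, B E → E = E₁ := fun E hE => by
      by_contra hne
      exact h2 ⟨E, E₁, hE, hB₁, hne⟩
    by_cases hneg : E₁.ord t < 0
    · refine ⟨t, ht, fun E hE => ?_⟩
      rw [hall E hE, oz_pole_eq hg hneg]
      norm_num
    · push Not at hneg
      obtain ⟨c, hc⟩ := exists_value hK hneg
      refine ⟨t - algebraMap ℂ K c, (hg.sub_const c).eq.symm, fun E hE => ?_⟩
      rw [hall E hE, oz_zero_eq (hg.sub_const c) hc]
      norm_num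
  · exact ⟨t, ht, fun E hE => absurd ⟨E, hE⟩ h1⟩

end Pool.Agent.H13.CV

end
end

section

/-!
# Kobayashi hyperbolicity modulo a curve and blow-ups: open surfaces
-/

open Topology Filter

noncomputable section

namespace Pool.Agent.H14.KB

open Pool.Agent Pool.Agent.H17BP
open Pool.Agent.H62.BU (blow total Ker phi)

variable {V : Type} [NormedAddCommGroup V] [NormedSpace ℂ V]
variable {ι : Type} [Fintype ι] {l : ι → V →L[ℂ] ℂ} {X K B : Set V} {q : V} {κ : Type} [Fintype κ]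
  {Q : κ → V → ℂ} {D : ℕ}

theorem kobK_blow (hX : Surface X) (hl : Ker l q) (he : Eqs X B Q D) (hKX : K ⊆ X)
    (hKs : ∀ x ∈ K, ∀ c : ℂ, c ≠ 0 → c • x ∈ K) (hq : q ∈ B)
    (hk : Kob (total l X K) (fun (p : κ × ι) (y : ι → V) => Q p.1 (y p.2)) D) : Kob K Q D := by
  obtain ⟨M, C, hM, hC, hk⟩ := hk
  have hBX := he.sub
  have hB := he.cone hX.smul
  have hq0 : q ≠ 0 := fun h => hX.zero (h ▸ hBX hq)
  refine ⟨M, 4 * C, hM, by positivity, fun f F hf hF hF0 hfF => ?_⟩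
  have hF0' : 0 < ‖F 0‖ := norm_pos_iff.mpr hF0
  have hf0 := hKX (hf 0 (by simp)).2
  have hFX : F 0 ∈ X := (Pr.mem_iff hX.smul hfF.self_of_nhds).1 hf0
  by_cases hFB : F 0 ∈ B
  · refine ⟨0, ?_⟩
    have h1 : rhoS Q D (F 0) = 0 := by
      unfold rhoS
      have h2 : (fun i => Q i (F 0)) = 0 := funext fun i => ((he.mem_iff _).1 hFB).2 i
      rw [h2, norm_zero, zero_div]
    rw [h1, zero_pow (by omega), zero_mul]
    positivity
  have hfB : f 0 ∉ B := fun h => hFB ((Pr.mem_iff hB hfF.self_of_nhds).1 h)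
  -- the shifted curve
  have hnorm : ∀ z : ℂ, ‖z‖ < 1 / 2 → ‖z + 1 / 4‖ < 1 := by
    intro z hz
    have h1 : ‖(1 / 4 : ℂ)‖ = 1 / 4 := by norm_num
    have h2 := norm_add_le z (1 / 4 : ℂ)
    rw [h1] at h2
    linarith
  have hsh : ∀ z : ℂ, z ≠ 0 → ‖z‖ < 1 / 2 → HolP (fun z => f (z + 1 / 4)) z ∧ f (z + 1 / 4) ∈ X := by
    intro z _ hz
    obtain ⟨h1, h2⟩ := hf _ (hnorm z hz)
    refine ⟨?_, hKX h2⟩
    have h3 : HolP (fun z => f (1 * z + 1 / 4)) z := HolP.comp_affine (by rw [one_mul]; exact h1)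
    simpa using h3
  have hne : ∃ z : ℂ, z ≠ 0 ∧ ‖z‖ < 1 / 2 ∧ f (z + 1 / 4) ∉ B := by
    refine ⟨-(1 / 4), by norm_num, by norm_num, ?_⟩
    rw [neg_add_cancel]
    exact hfB
  have hi := isolated_of_notMem hl hB hq hq0 (fun z h1 h2 => (hsh z h1 h2).1) hne
  obtain ⟨h, h1, h2⟩ := exists_lift hX hl hq0 hsh hi
  -- the lifted curve
  have hz1 : ∀ z : ℂ, ‖z‖ < 1 → 1 / 4 * z + -(1 / 4) ≠ 0 ∧ ‖1 / 4 * z + -(1 / 4)‖ < 1 / 2 := by
    intro z hz
    constructor
    · intro h0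
      have h3 : z = 1 := by linear_combination 4 * h0
      rw [h3, norm_one] at hz
      exact lt_irrefl _ hz
    · have h3 := norm_add_le (1 / 4 * z) (-(1 / 4) : ℂ)
      rw [norm_mul, norm_neg] at h3
      have h4 : ‖(1 / 4 : ℂ)‖ = 1 / 4 := by norm_num
      rw [h4] at h3
      linarith
  set g : ℂ → ι → V := fun z => h (1 / 4 * z + -(1 / 4)) with hg
  have hgh : ∀ z : ℂ, ‖z‖ < 1 → HolP g z ∧ g z ∈ total l X K := by
    intro z hz
    obtain ⟨h3, h4⟩ := hz1 z hz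
    obtain ⟨h5, h6⟩ := h1 _ h3 h4
    refine ⟨HolP.comp_affine h5, h6, fun b hb => ?_⟩
    obtain ⟨c, hc, e⟩ := (h2 _ h3 h4 b hb).symm
    show h (1 / 4 * z + -(1 / 4)) b ∈ K
    rw [e]
    exact hKs _ (hf _ (hnorm _ h4)).2 c hc
  -- some `l b (F 0)` is not `0`
  have hlb : ∃ b, l b (F 0) ≠ 0 := by
    by_contra hcon
    push Not at hcon
    obtain ⟨c, e⟩ := (hl (F 0)).1 hcon
    have hc : c ≠ 0 := by
      rintro rfl
      rw [zero_smul] at e
      exact hF0 e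
    exact hFB (e ▸ hB q hq c hc)
  have : Nonempty ι := ⟨hlb.choose⟩
  obtain ⟨b, hbmax⟩ := Finite.exists_max fun b => ‖l b (F 0)‖
  have hb : l b (F 0) ≠ 0 := by
    obtain ⟨b', hb'⟩ := hlb
    have h3 := hbmax b'
    intro h0
    rw [h0, norm_zero] at h3
    exact hb' (norm_le_zero_iff.mp h3)
  have hb0 : 0 < ‖l b (F 0)‖ := norm_pos_iff.mpr hb
  set G : ℂ → ι → V := fun z => phi l (F (1 / 4 * z)) with hG
  have hsc : HasDerivAt (fun z : ℂ => 1 / 4 * z) (1 / 4) 0 := by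
    simpa using (hasDerivAt_id (0 : ℂ)).const_mul (1 / 4 : ℂ)
  have hsc0 : (fun z : ℂ => 1 / 4 * z) 0 = 0 := by simp
  have hscan : AnalyticAt ℂ (fun z : ℂ => 1 / 4 * z) 0 := analyticAt_const.mul analyticAt_id
  have hF1 : AnalyticAt ℂ (fun z : ℂ => F (1 / 4 * z)) 0 :=
    AnalyticAt.comp (g := F) (f := fun z : ℂ => 1 / 4 * z) (by simpa using hF) hscan
  have hGan : AnalyticAt ℂ G 0 := by
    rw [analyticAt_pi_iff]
    intro b
    exact (((l b).analyticAt _).comp hF1).smul hF1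
  have hG0 : G 0 = phi l (F 0) := by
    rw [hG]
    simp
  have hGne : G 0 ≠ 0 := by
    rw [hG0]
    exact H62.BU.phi_ne ⟨b, hb⟩
  have ht : Tendsto (fun z : ℂ => 1 / 4 * z) (𝓝 0) (𝓝 0) := by
    have := hscan.continuousAt.tendsto
    simpa using this
  have hgG : ∀ᶠ z in 𝓝 (0 : ℂ), Pr (g z) (G z) := by
    have h3 : ∀ᶠ z in 𝓝 (0 : ℂ), l b (F (1 / 4 * z)) ≠ 0 := by
      have h4 : ContinuousAt (fun z : ℂ => l b (F (1 / 4 * z))) 0 :=
        (l b).continuous.continuousAt.comp hF1.continuousAt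
      exact h4.eventually_ne (by simpa using hb)
    have h4 : ∀ᶠ z : ℂ in 𝓝 0, ‖z‖ < 1 :=
      continuous_norm.continuousAt.eventually_lt_const (by simp)
    filter_upwards [ht.eventually hfF, h3, h4] with z h5 h6 h7
    obtain ⟨h8, h9⟩ := hz1 z h7
    obtain ⟨h10, h11⟩ := h1 _ h8 h9
    obtain ⟨b₁, hb₁⟩ := H62.BU.exists_ne _ h11
    have h12 : Pr (f (1 / 4 * z)) (g z b₁) := by
      have := h2 _ h8 h9 b₁ hb₁
      have e : 1 / 4 * z + -(1 / 4) + 1 / 4 = 1 / 4 * z := by ring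
      rwa [e] at this
    have h13 : Pr (F (1 / 4 * z)) (g z b₁) := h5.symm.trans h12
    have h14 : l b (g z b₁) ≠ 0 := by
      obtain ⟨c, hc, e⟩ := h13
      intro h0
      rw [e, map_smul, h0, smul_zero] at h6
      exact h6 rfl
    have h15 := H62.BU.eq_phi (g z) h11 hb₁ h14
    have h16 := H62.BU.ne_of_ne (g z) h11 hb₁ h14
    have h17 : Pr (g z) (phi l (g z b₁)) := ⟨_, inv_ne_zero h16, h15⟩
    obtain ⟨c, hc, e⟩ := h13.symm
    refine h17.trans ⟨c ^ 2, pow_ne_zero _ hc, ?_⟩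
    rw [hG, e, H62.BU.phi_smul]
  obtain ⟨a', ha'⟩ := hk g G hgh hGan hGne hgG
  -- the derivative
  have hFd : HasDerivAt F (deriv F 0) 0 := hF.differentiableAt.hasDerivAt
  have hF1d : HasDerivAt (fun z : ℂ => F (1 / 4 * z)) ((1 / 4 : ℂ) • deriv F 0) 0 := by
    have h3 : HasDerivAt F (deriv F 0) ((fun z : ℂ => 1 / 4 * z) 0) := by rw [hsc0]; exact hFd
    exact h3.scomp 0 hsc
  have hGd : deriv G 0 b = (1 / 4 : ℂ) • (l b (deriv F 0) • F 0 + l b (F 0) • deriv F 0) := by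
    have h3 : HasDerivAt (fun z : ℂ => l b (F (1 / 4 * z))) (l b ((1 / 4 : ℂ) • deriv F 0)) 0 :=
      (l b).hasFDerivAt.comp_hasDerivAt (0 : ℂ) hF1d
    rw [map_smul, smul_eq_mul] at h3
    have h4 := h3.smul hF1d
    have h5 : HasDerivAt (fun z => G z b) (deriv G 0 b) 0 :=
      (hasDerivAt_pi.1 hGan.differentiableAt.hasDerivAt) b
    have h6 : (fun z => G z b) = fun z : ℂ => l b (F (1 / 4 * z)) • F (1 / 4 * z) := rfl
    rw [h6] at h5
    have h7 := h5.unique h4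
    rw [h7]
    simp only [mul_zero]
    module
  refine ⟨4 * a' - l b (deriv F 0) / l b (F 0), ?_⟩
  set a : ℂ := 4 * a' - l b (deriv F 0) / l b (F 0) with ha
  have h3 : deriv G 0 b - a' • G 0 b = (l b (F 0) / 4) • (deriv F 0 - a • F 0) := by
    rw [hGd, hG0]
    show _ - a' • (l b (F 0) • F 0) = _
    rw [ha]
    have h4 : (l b (F 0) / 4) * (4 * a' - l b (deriv F 0) / l b (F 0)) =
        l b (F 0) * a' - l b (deriv F 0) / 4 := by
      field_simp
    have h5 : (l b (F 0) / 4) • (deriv F 0 - (4 * a' - l b (deriv F 0) / l b (F 0)) • F 0) =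
        (l b (F 0) / 4) • deriv F 0 - (l b (F 0) * a' - l b (deriv F 0) / 4) • F 0 := by
      rw [smul_sub, smul_smul, h4]
    rw [h5]
    module
  have h4 : ‖l b (F 0)‖ / 4 * ‖deriv F 0 - a • F 0‖ ≤ ‖deriv G 0 - a' • G 0‖ := by
    have h5 := norm_le_pi_norm (deriv G 0 - a' • G 0) b
    have h6 : (deriv G 0 - a' • G 0) b = deriv G 0 b - a' • G 0 b := rfl
    rw [h6, h3, norm_smul, norm_div] at h5
    have h7 : ‖(4 : ℂ)‖ = 4 := by norm_num
    rwa [h7] at h5
  have h5 : ‖G 0‖ ≤ ‖l b (F 0)‖ * ‖F 0‖ := by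
    rw [hG0]
    refine (pi_norm_le_iff_of_nonneg (by positivity)).mpr fun b' => ?_
    show ‖l b' (F 0) • F 0‖ ≤ _
    rw [norm_smul]
    exact mul_le_mul_of_nonneg_right (hbmax b') (norm_nonneg _)
  have h6 := rhoS_phi (l := l) he.smul hF0 hb hbmax
  rw [hG0] at ha'
  rw [hG0] at h4 h5
  have h7 : rhoS Q D (F 0) ^ M ≤
      rhoS (fun (p : κ × ι) (y : ι → V) => Q p.1 (y p.2)) D (phi l (F 0)) ^ M :=
    pow_le_pow_left₀ (rhoS_nonneg _ _ _) h6 M
  have h8 : rhoS Q D (F 0) ^ M * (‖l b (F 0)‖ / 4 * ‖deriv F 0 - a • F 0‖) ≤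
      C * (‖l b (F 0)‖ * ‖F 0‖) := by
    refine le_trans ?_ (ha'.trans (mul_le_mul_of_nonneg_left h5 hC))
    exact mul_le_mul h7 h4 (by positivity) (pow_nonneg (rhoS_nonneg _ _ _) _)
  have h9 : ‖l b (F 0)‖ * (rhoS Q D (F 0) ^ M * ‖deriv F 0 - a • F 0‖) ≤
      ‖l b (F 0)‖ * (4 * C * ‖F 0‖) := by linarith
  exact le_of_mul_le_mul_left h9 hb0

end Pool.Agent.H14.KB

end
end

section

/-!
# BPL BlowK: blow-up of an open surface

`K₁ = total l X K` is the preimage of `K` in the blow-up.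
-/

set_option autoImplicit false

namespace Pool.Agent.H36.BPL

open Filter Topology Metric
open Pool.Agent.H17BP (Surface IsChart IsForm NoZeros NodalAt Pr HolP Picard)
open Pool.Agent.H36.BP (OrdTwo)
open Pool.Agent.H62.BU (blow total Ker phi)

variable {V : Type} [NormedAddCommGroup V] [NormedSpace ℂ V] {ι : Type} [Fintype ι] {l : ι → V →L[ℂ] ℂ} {X K T : Set V} {q : V}

theorem mem_totalK (hX : Surface X) (hK : ∀ x ∈ K, ∀ c : ℂ, c ≠ 0 → c • x ∈ K) {y : ι → V} (hy : y ∈ blow l X) {b : ι} (hb : y b ≠ 0) :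
    y ∈ total l X K ↔ y b ∈ K :=
  Pool.Agent.H62.BU.mem_total_iff (Pool.Agent.H17BP.surface_iff.2 hX) hK y hy hb

theorem total_smul (hK : ∀ x ∈ K, ∀ c : ℂ, c ≠ 0 → c • x ∈ K) {y : ι → V} (hy : y ∈ total l X K) {c : ℂ} (hc : c ≠ 0) : c • y ∈ total l X K := by
  refine ⟨Pool.Agent.H62.BU.blow_smul y hy.1 c hc, fun b hb => ?_⟩
  have h1 : y b ≠ 0 := fun h => hb (by rw [Pi.smul_apply, h, smul_zero])
  exact hK _ (hy.2 b h1) c hc

theorem comp_mem (hX : Surface X) {y : ι → V} (hy : y ∈ blow l X) {b : ι} (hb : y b ≠ 0) : y b ∈ X :=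
  Pool.Agent.H62.BU.comp_mem (Pool.Agent.H17BP.surface_iff.2 hX) y hy hb

theorem openPart_blow (hX : Surface X) (hK : OpenPart X K) : OpenPart (blow l X) (total l X K) where
  sub := fun y hy => hy.1
  smul := fun y hy c hc => total_smul hK.smul hy hc
  eqn y hy := by
    obtain ⟨b, hb⟩ := Pool.Agent.H62.BU.exists_ne y hy
    obtain ⟨h, hh, hhe⟩ := hK.eqn (y b) (comp_mem hX hy hb)
    have hpr : AnalyticAt ℂ (fun y : ι → V => y b) y := (ContinuousLinearMap.proj (R := ℂ) (φ := fun _ : ι => V) b).analyticAt y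
    refine ⟨fun y => h (y b), AnalyticAt.comp (g := h) (f := fun y : ι → V => y b) hh hpr, ?_⟩
    have hct : Tendsto (fun y : ι → V => y b) (𝓝 y) (𝓝 (y b)) := (continuous_apply b).tendsto y
    filter_upwards [hct.eventually hhe, hct.eventually_ne hb] with y' h1 h2 h3
    rw [mem_totalK hX hK.smul h3 h2]
    exact h1 (comp_mem hX h3 h2)

theorem affProper_blow {M : ℕ} {Φ : V → Fin M → ℂ} (hX : Surface X) (hK : OpenPart X K) (hΦ : AffProper X K Φ) :
    ∃ Ψ : (ι → V) → Fin M → ℂ, AffProper (blow l X) (total l X K) Ψ := by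
  classical
  -- a component which is not zero
  have hex : ∀ y : ι → V, ∃ x : V, y ∈ blow l X → x ≠ 0 ∧ ∃ b, x = y b := by
    intro y
    by_cases hy : y ∈ blow l X
    · obtain ⟨b, hb⟩ := Pool.Agent.H62.BU.exists_ne y hy
      exact ⟨y b, fun _ => ⟨hb, b, rfl⟩⟩
    · exact ⟨0, fun h => absurd h hy⟩
  choose P hP using hex
  have hPb : ∀ y ∈ total l X K, ∀ b, y b ≠ 0 → Φ (P y) = Φ (y b) := by
    intro y hy b hb
    obtain ⟨h1, b', h2⟩ := hP y hy.1
    obtain ⟨c, hc⟩ := Pool.Agent.H62.BU.comp_smul y hy.1 hb b'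
    have hc0 : c ≠ 0 := by
      rintro rfl
      rw [zero_smul] at hc
      exact h1 (h2.trans hc)
    rw [h2, hc]
    exact hΦ.smul _ (hy.2 b hb) c hc0
  have hKX : ∀ y ∈ total l X K, ∀ b, y b ≠ 0 → y b ∈ K := fun y hy b hb => hy.2 b hb
  refine ⟨fun y => Φ (P y), ?_, ?_, ?_, ?_, ?_⟩
  · intro y hy c hc
    obtain ⟨b, hb⟩ := Pool.Agent.H62.BU.exists_ne y hy.1
    have h1 : (c • y) b ≠ 0 := smul_ne_zero hc hb
    show Φ (P (c • y)) = Φ (P y)
    rw [hPb _ (total_smul hK.smul hy hc) b h1, hPb y hy b hb]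
    exact hΦ.smul _ (hKX y hy b hb) c hc
  · intro y hy
    obtain ⟨b, hb⟩ := Pool.Agent.H62.BU.exists_ne y hy.1
    have h1 : ContinuousWithinAt (fun y : ι → V => Φ (y b)) (total l X K ∩ {y | y b ≠ 0}) y := by
      refine ContinuousWithinAt.comp (t := K) (hΦ.cont (y b) (hKX y hy b hb)) (continuous_apply b).continuousWithinAt ?_
      rintro y' ⟨h2, h3⟩
      exact hKX y' h2 b h3
    have h2 : {y : ι → V | y b ≠ 0} ∈ 𝓝 y := (continuous_apply b).continuousAt.eventually_ne hb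
    have h3 : ContinuousWithinAt (fun y : ι → V => Φ (P y)) (total l X K ∩ {y | y b ≠ 0}) y := by
      refine h1.congr ?_ (hPb y hy b hb)
      rintro y' ⟨h4, h5⟩
      exact hPb y' h4 b h5
    exact (continuousWithinAt_inter h2).mp h3
  · intro F z₀ hF hFK
    have hy : F z₀ ∈ total l X K := hFK.self_of_nhds
    obtain ⟨b, hb⟩ := Pool.Agent.H62.BU.exists_ne (F z₀) hy.1
    have hFb : AnalyticAt ℂ (fun z => F z b) z₀ := (analyticAt_pi_iff.1 hF) b
    have hne : ∀ᶠ z in 𝓝 z₀, F z b ≠ 0 := hFb.continuousAt.eventually_ne hb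
    refine (hΦ.hol (fun z => F z b) z₀ hFb ?_).congr ?_
    · filter_upwards [hFK, hne] with z h1 h2
      exact hKX _ h1 b h2
    · filter_upwards [hFK, hne] with z h1 h2
      exact (hPb _ h1 b h2).symm
  · intro y hy hyK R
    obtain ⟨b, hb⟩ := Pool.Agent.H62.BU.exists_ne y hy
    have hbK : y b ∉ K := fun h => hyK ((mem_totalK hX hK.smul hy hb).mpr h)
    have hct : Tendsto (fun y : ι → V => y b) (𝓝 y) (𝓝 (y b)) := (continuous_apply b).tendsto y
    filter_upwards [hct.eventually (hΦ.proper (y b) (comp_mem hX hy hb) hbK R), hct.eventually_ne hb] with y' h1 h2 h3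
    rw [hPb y' h3 b h2]
    exact h1 (hKX y' h3 b h2)
  · intro F z₀ hF hFX
    have hy : F z₀ ∈ blow l X := hFX.self_of_nhds
    obtain ⟨b, hb⟩ := Pool.Agent.H62.BU.exists_ne (F z₀) hy
    have hFb : AnalyticAt ℂ (fun z => F z b) z₀ := (analyticAt_pi_iff.1 hF) b
    have hne : ∀ᶠ z in 𝓝 z₀, F z b ≠ 0 := hFb.continuousAt.eventually_ne hb
    have hX' : ∀ᶠ z in 𝓝 z₀, F z b ∈ X := by
      filter_upwards [hFX, hne] with z h1 h2
      exact comp_mem hX h1 h2
    rcases hΦ.iso (fun z => F z b) z₀ hFb hX' with h | h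
    · left
      filter_upwards [h, hFX, hne] with z h1 h2 h3 h4
      exact h1 ((mem_totalK hX hK.smul h2 h3).mp h4)
    · right
      filter_upwards [h, hFX.filter_mono nhdsWithin_le_nhds, hne.filter_mono nhdsWithin_le_nhds] with z h1 h2 h3
      exact (mem_totalK hX hK.smul h2 h3).mpr h1

/-- the order of the projection of a curve in the blow-up -/
theorem ordTwo_comp {h : ℂ → ι → V} (hmem : ∀ z, h z ∈ blow l X) {b : ℂ → ι} (hbne : ∀ z, h z (b z) ≠ 0) (hord : OrdTwo h) :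
    OrdTwo (fun z => h z (b z)) := by
  obtain ⟨C₀, hC⟩ := hord
  refine ⟨C₀, fun r hr => ?_⟩
  obtain ⟨F, h1, h2, h3, h4⟩ := hC r hr
  have hF0 : 0 < ‖F 0‖ := lt_of_lt_of_le (Real.exp_pos _) h3
  obtain ⟨b₀, hb₀⟩ : ∃ b₀, ‖F 0‖ ≤ ‖F 0 b₀‖ := by
    by_contra hcon
    push Not at hcon
    exact lt_irrefl _ ((pi_norm_lt_iff hF0).mpr hcon)
  refine ⟨fun z => F z b₀, fun z hz => ?_, fun z hz => (norm_le_pi_norm (F z) b₀).trans (h2 z hz), h3.trans hb₀, fun z hz => ?_⟩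
  · have h5 := h1 z hz
    rw [differentiableWithinAt_pi] at h5
    exact h5 b₀
  · by_cases h0 : F z b₀ = 0
    · exact Or.inl h0
    right
    rcases h4 z hz with h5 | ⟨c, hc, h5⟩
    · exact absurd (by rw [h5]; rfl) h0
    have e1 : h z b₀ = c • F z b₀ := congrFun h5 b₀
    have h6 : h z b₀ ≠ 0 := by
      rw [e1]
      exact smul_ne_zero hc h0
    obtain ⟨c', e2⟩ := Pool.Agent.H62.BU.comp_smul (h z) (hmem z) h6 (b z)
    have hc' : c' ≠ 0 := by
      intro h0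
      rw [h0, zero_smul] at e2
      exact hbne z e2
    exact ⟨c' * c, mul_ne_zero hc' hc, by simp only; rw [e2, e1, smul_smul]⟩

/-- descent of the extension property -/
theorem picardK_blow (hX : Surface X) (hl : Ker l q) (hKX : K ⊆ X) (hKs : ∀ x ∈ K, ∀ c : ℂ, c ≠ 0 → c • x ∈ K) (hTX : T ⊆ X)
    (hT : ∀ x ∈ T, ∀ c : ℂ, c ≠ 0 → c • x ∈ T) (hq : q ∈ T) (hp : Picard (total l X K) (total l X T)) : Picard K T := by
  intro r hr f hf hfB
  have hq0 : q ≠ 0 := fun h => hX.zero (h ▸ hTX hq)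
  have hi := Pool.Agent.H17BP.isolated_of_notMem hl hT hq hq0 (fun z h1 h2 => (hf z h1 h2).1) hfB
  obtain ⟨h, h1, h2⟩ := Pool.Agent.H17BP.exists_lift hX hl hq0 (fun z hz hzr => ⟨(hf z hz hzr).1, hKX (hf z hz hzr).2⟩) hi
  obtain ⟨z, hz, hzr, hzB⟩ := hfB
  have h1K : ∀ z : ℂ, z ≠ 0 → ‖z‖ < r → HolP h z ∧ h z ∈ total l X K := by
    intro z hz hzr
    refine ⟨(h1 z hz hzr).1, (h1 z hz hzr).2, fun b hb => ?_⟩
    obtain ⟨c, hc, e⟩ := (h2 z hz hzr b hb).symm
    rw [e]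
    exact hKs _ (hf z hz hzr).2 c hc
  obtain ⟨G, hG, hG0, hGe⟩ := hp r hr h h1K ⟨z, hz, hzr, fun h3 => by
    obtain ⟨b, hb⟩ := Pool.Agent.H62.BU.exists_ne (h z) h3.1
    obtain ⟨c, hc, e⟩ := h2 z hz hzr b hb
    exact hzB (e ▸ hT _ (h3.2 b hb) c hc)⟩
  obtain ⟨b, hb⟩ : ∃ b, G 0 b ≠ 0 := by
    by_contra h3
    push Not at h3
    exact hG0 (funext h3)
  have hGb : AnalyticAt ℂ (fun w => G w b) 0 := (analyticAt_pi_iff.1 hG) b
  refine ⟨fun w => G w b, hGb, hb, ?_⟩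
  have hlt : ∀ᶠ w in 𝓝 (0 : ℂ), ‖w‖ < r :=
    continuous_norm.continuousAt.eventually_lt_const (by simpa using hr)
  filter_upwards [hGe, self_mem_nhdsWithin, hlt.filter_mono nhdsWithin_le_nhds,
    (hGb.continuousAt.eventually_ne hb).filter_mono nhdsWithin_le_nhds] with w h3 h4 h5 h6
  obtain ⟨c, hc, e⟩ := h3
  have h7 : h w b = c • G w b := by
    rw [e]
    rfl
  exact (h2 w h4 h5 b (by rw [h7]; exact smul_ne_zero hc h6)).trans ⟨c, hc, h7⟩

end Pool.Agent.H36.BPL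

end

section

/-!
# LB BlowL: limit curves in the blow-up
-/

set_option autoImplicit false

namespace Pool.Agent.H36.LB

open Filter Topology Metric
open Pool.Agent.H17BP (Surface Pr HolP)
open Pool.Agent.H36.BP (OrdTwo)
open Pool.Agent.H36.BPL (comp_mem mem_totalK ordTwo_comp)
open Pool.Agent.H62.BU (blow total Ker phi)

variable {V : Type} [NormedAddCommGroup V] [NormedSpace ℂ V] {ι : Type} [Fintype ι] {l : ι → V →L[ℂ] ℂ} {X K T : Set V} {q : V}

theorem pr_comp {y : ι → V} (hy : y ∈ blow l X) {b b' : ι} (hb : y b ≠ 0) (hb' : y b' ≠ 0) : Pr (y b) (y b') := by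
  obtain ⟨c, e⟩ := Pool.Agent.H62.BU.comp_smul y hy hb' b
  refine ⟨c, ?_, e⟩
  rintro rfl
  rw [zero_smul] at e
  exact hb e

theorem holP_comp {h : ℂ → ι → V} {z₀ : ℂ} (hh : HolP h z₀) {b : ℂ → ι} (hmem : ∀ᶠ z in 𝓝 z₀, h z ∈ blow l X ∧ h z (b z) ≠ 0) :
    HolP (fun z => h z (b z)) z₀ := by
  obtain ⟨H, hHan, hH0, hHe⟩ := hh
  obtain ⟨b₀, hb₀⟩ := Function.ne_iff.1 hH0
  have hb₀' : H z₀ b₀ ≠ 0 := hb₀
  have han : AnalyticAt ℂ (fun z => H z b₀) z₀ := (analyticAt_pi_iff.1 hHan) b₀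
  refine ⟨fun z => H z b₀, han, hb₀', ?_⟩
  filter_upwards [hHe, han.continuousAt.eventually_ne hb₀', hmem] with z hz hz0 hz1
  obtain ⟨c, hc, e⟩ := hz
  have e1 : h z b₀ = c • H z b₀ := congrFun e b₀
  have h1 : h z b₀ ≠ 0 := by
    rw [e1]
    exact smul_ne_zero hc hz0
  exact (pr_comp hz1.1 hz1.2 h1).trans ⟨c, hc, e1⟩

theorem convP_comp {k : Filter ℕ} (hk : k ≤ atTop) {F : ℕ → ℂ → ι → V} {f : ℂ → ι → V} {z₀ : ℂ} (h : ConvP k F f z₀)
    {bn : ℕ → ℂ → ι} {b : ℂ → ι}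
    (hF : ∀ n : ℕ, ∀ z ∈ ball (0 : ℂ) (n + 1), F n z ∈ blow l X ∧ F n z (bn n z) ≠ 0) (hf : ∀ z, f z ∈ blow l X ∧ f z (b z) ≠ 0) :
    ConvP k (fun n z => F n z (bn n z)) (fun z => f z (b z)) z₀ := by
  have h0 : (ContinuousLinearMap.proj (R := ℂ) (φ := fun _ : ι => V) (b z₀)) (f z₀) ≠ 0 := (hf z₀).2
  refine h.map (p := (ContinuousLinearMap.proj (R := ℂ) (φ := fun _ : ι => V) (b z₀))) (d := 1)
    (fun x => (ContinuousLinearMap.proj (R := ℂ) (φ := fun _ : ι => V) (b z₀)).analyticAt x) (fun c x => by rw [pow_one, map_smul]) h0 ?_ ?_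
  · exact Eventually.of_forall fun z hz => pr_comp (hf z).1 (hf z).2 hz
  · refine ⟨1, one_pos, ?_⟩
    obtain ⟨n₀, hn₀⟩ := exists_nat_ge ‖z₀‖
    filter_upwards [hk (eventually_ge_atTop n₀)] with n hn z hz hz0
    have h1 : z ∈ ball (0 : ℂ) (n + 1) := by
      rw [mem_ball_zero_iff]
      have h2 : ‖z - z₀‖ < 1 := by simpa [dist_eq_norm] using hz
      have h3 : ‖z‖ ≤ ‖z - z₀‖ + ‖z₀‖ := by
        have := norm_add_le (z - z₀) z₀
        rwa [sub_add_cancel] at this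
      have h4 : (n₀ : ℝ) ≤ n := by exact_mod_cast hn
      linarith
    exact pr_comp (hF n z h1).1 (hF n z h1).2 hz0

/-- the image of a limit curve in the blow-up -/
theorem limCurve_comp (hX : Surface X) {k : Filter ℕ} {F : ℕ → ℂ → ι → V} {f : ℂ → ι → V}
    (h : LimCurve (blow l X) (total l X K) k F f) {bn : ℕ → ℂ → ι} {b : ℂ → ι}
    (hF : ∀ n : ℕ, ∀ z ∈ ball (0 : ℂ) (n + 1), F n z (bn n z) ≠ 0) (hf : ∀ z, f z (b z) ≠ 0) :
    LimCurve X K k (fun n z => F n z (bn n z)) (fun z => f z (b z)) where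
  neBot := h.neBot
  le_atTop := h.le_atTop
  hol z := holP_comp (h.hol z) (Eventually.of_forall fun w => ⟨h.mem w, hf w⟩)
  mem z := comp_mem hX (h.mem z) (hf z)
  zero_mem := h.zero_mem.2 _ (hf 0)
  holF n z hz := holP_comp (h.holF n z hz) (by
    filter_upwards [isOpen_ball.mem_nhds hz] with w hw
    exact ⟨(h.memF n w hw).1, hF n w hw⟩)
  memF n z hz := (h.memF n z hz).2 _ (hF n z hz)
  zero := convP_comp h.le_atTop h.zero (fun n z hz => ⟨(h.memF n z hz).1, hF n z hz⟩) fun z => ⟨h.mem z, hf z⟩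
  conv z₀ := (h.conv z₀).mono fun z hz => convP_comp h.le_atTop hz (fun n z hz => ⟨(h.memF n z hz).1, hF n z hz⟩) fun z => ⟨h.mem z, hf z⟩

/-- limit curves in the blow-up -/
theorem lim_blow (hX : Surface X) (hl : Ker l q)
    (hT : ∀ x ∈ T, ∀ c : ℂ, c ≠ 0 → c • x ∈ T) (hq : q ∈ T) (hb : Lim2 X K T) : Lim2 (blow l X) (total l X K) (total l X T) := by
  have hX' : Pool.Agent.H62.BU.Surface X := Pool.Agent.H17BP.surface_iff.2 hX
  intro k F h hh hord hex z w
  obtain ⟨z₁, hz₁⟩ := hex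
  have hmem := hh.mem
  choose b hbne using fun z => Pool.Agent.H62.BU.exists_ne (h z) (hmem z)
  have hι : ∀ n : ℕ, ∀ z : ℂ, ∃ b' : ι, z ∈ ball (0 : ℂ) (n + 1) → F n z b' ≠ 0 := by
    intro n z
    by_cases hz : z ∈ ball (0 : ℂ) (n + 1)
    · obtain ⟨b', hb'⟩ := Pool.Agent.H62.BU.exists_ne (F n z) (hh.memF n z hz).1
      exact ⟨b', fun _ => hb'⟩
    · exact ⟨b 0, fun h1 => absurd h1 hz⟩
  choose bn hbn using hι
  have hlim := limCurve_comp hX hh hbn hbne
  have hfB : ∀ z, h z ∈ total l X T ↔ h z (b z) ∈ T := fun z =>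
    Pool.Agent.H62.BU.mem_total_iff hX' hT (h z) (hmem z) (hbne z)
  have hall := hb k _ _ hlim (ordTwo_comp hmem hbne hord) ⟨z₁, fun hmemB => hz₁ ((hfB z₁).2 hmemB)⟩
  have hl' : ∀ z, ∃ b', l b' (h z (b z)) ≠ 0 := by
    intro z
    by_contra hcon
    push Not at hcon
    obtain ⟨c, e⟩ := (hl (h z (b z))).1 hcon
    have hc : c ≠ 0 := by
      intro h0
      rw [h0, zero_smul] at e
      exact hbne z e
    have h1 : h z (b z) ∈ T := by
      rw [e]
      exact hT q hq c hc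
    obtain ⟨d, hd, e'⟩ := hall z₁ z
    apply hz₁
    rw [hfB z₁]
    have e'' : h z₁ (b z₁) = d • h z (b z) := e'
    rw [e'']
    exact hT _ h1 d hd
  have hphi : ∀ z, Pr (h z) (phi l (h z (b z))) := by
    intro z
    obtain ⟨b', hb'⟩ := hl' z
    exact ⟨(l (b z) (h z (b z)))⁻¹, inv_ne_zero (Pool.Agent.H62.BU.ne_of_ne (h z) (hmem z) (hbne z) hb'),
      Pool.Agent.H62.BU.eq_phi (h z) (hmem z) (hbne z) hb'⟩
  have hpp : Pr (phi l (h z (b z))) (phi l (h w (b w))) := by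
    obtain ⟨c, hc, e⟩ := hall z w
    have e' : h z (b z) = c • h w (b w) := e
    refine ⟨c ^ 2, pow_ne_zero 2 hc, ?_⟩
    rw [e', Pool.Agent.H62.BU.phi_smul]
  exact ((hphi z).trans hpp).trans (hphi w).symm

end Pool.Agent.H36.LB

end

section

/-!
# AD P Bridge: algebraic sections of `S^(m,m) Ω_X (-1)` as analytic bivector forms

* `conTan_of_tan`: the derivative of a holomorphic curve in the cone is a tangent vector of the cone.
* `toBForm`: the section as a `BForm` on the cone in the Euclidean space.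
* `noZero_of_generates`: generating sections have no common zero on pairs of independent tangent vectors.
-/

set_option autoImplicit false

open MvPolynomial Topology Filter

namespace Pool.Agent.AD.P

open Pool.Agent.H36.BP (EN)
open Pool.Agent.H14.PP (IsCone CurveAt Tan)
open Pool.Agent.H13.SM (conTan cone Inv_hasFDerivAt_eval)
open Pool.Agent.H17EF (LE coneE)

variable {N : ℕ} {P : Ideal (MvPolynomial (Fin (N + 1)) ℂ)}

theorem conTan_of_tan {x v : EN N} (h : Tan (coneE P) x v) : (LE N).symm v ∈ conTan P ((LE N).symm x) := by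
  obtain ⟨F, ⟨hF, hFX⟩, h0, h1⟩ := h
  intro Q hQ
  have h2 : HasDerivAt (fun z => (LE N).symm (F z)) ((LE N).symm (deriv F 0)) 0 :=
    ((LE N).symm : EN N →L[ℂ] (Fin (N + 1) → ℂ)).hasFDerivAt.comp_hasDerivAt 0 hF.differentiableAt.hasDerivAt
  have h3 := (Inv_hasFDerivAt_eval Q ((LE N).symm (F 0))).comp_hasDerivAt 0 h2
  have h4 : HasDerivAt ((fun y : Fin (N + 1) → ℂ => eval y Q) ∘ fun z => (LE N).symm (F z)) 0 0 := by
    refine (hasDerivAt_const (0 : ℂ) (0 : ℂ)).congr_of_eventuallyEq ?_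
    filter_upwards [hFX] with z hz
    exact hz.2 Q hQ
  have h5 := h3.unique h4
  rw [h0, h1] at h5
  simp only [sum_apply, FunLike.coe_smul, Pi.smul_apply, ContinuousLinearMap.proj_apply, smul_eq_mul] at h5
  rw [← h5]
  exact Finset.sum_congr rfl fun i _ => mul_comm _ _

theorem eval_smul_of_homog {ι : Type} [Fintype ι] {d : ℕ} {Q : MvPolynomial ι ℂ} (hQ : Q.IsHomogeneous d) (c : ℂ)
    (x : ι → ℂ) : eval (c • x) Q = c ^ d * eval x Q := by
  rw [eval_eq', eval_eq', Finset.mul_sum]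
  refine Finset.sum_congr rfl fun m hm => ?_
  have h1 : ∏ i, (c • x) i ^ m i = c ^ d * ∏ i, x i ^ m i := by
    simp only [Pi.smul_apply, smul_eq_mul, mul_pow, Finset.prod_mul_distrib]
    rw [Finset.prod_pow_eq_pow_sum]
    have h2 := hQ (mem_support_iff.1 hm)
    rw [Finsupp.weight_apply, Finsupp.sum_fintype _ _ (by simp)] at h2
    simp only [Pi.one_apply, smul_eq_mul, mul_one] at h2
    rw [h2]
  rw [h1]
  ring

end Pool.Agent.AD.P

end

section

/-!
# AD T NCDefs: the four properties, finitely many curves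
-/

open MvPolynomial
open Pool.Agent.H17 (PN VanishesAt ZariskiClosedIn HolomorphicInto puncturedDisc)
open Pool.Agent.H62.FC (Homog)
open Pool.Agent.H17LG.Variety (FunField IsLogGeneralType)
open Pool.Agent.H13.SM (conTan)
open Pool.Agent.H17EF (projVar)
open Pool.Agent.H62.SA (OnBd)

noncomputable section

namespace Pool.Agent.AD.NC

variable {N s : ℕ}

/-- The closed subvariety of dimension `n` of `ℙ^N` given by the homogeneous prime ideal `P` is smooth: the tangent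
space of its affine cone has dimension at most `n + 1` at every point different from `0`. -/
def IsSmooth (P : Ideal (MvPolynomial (Fin (N + 1)) ℂ)) (n : ℕ) : Prop :=
  ∀ x : Fin (N + 1) → ℂ, x ≠ 0 → (∀ Q ∈ P, eval x Q = 0) → Module.finrank ℂ (conTan P x) ≤ n + 1

/-- `X ∖ D`: the complement in the closed subvariety `X` of `ℙ^N` given by `P` of the hypersurfaces `{G i = 0}`. If there
are no `G i`, this is `X`. -/
def complement (P : Ideal (MvPolynomial (Fin (N + 1)) ℂ)) (G : Fin s → MvPolynomial (Fin (N + 1)) ℂ) : Set (PN N) :=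
  {x | x ∈ projVar P ∧ ∀ i, ¬ VanishesAt (G i) x}

/-- The complement in the closed subvariety of `ℙ^N` given by `P`, of dimension `k`, of the hypersurfaces `{G i = 0}` is of
log general type. If there are no `G i`: the closed subvariety is of general type. -/
def IsOfLogGeneralType (P : Ideal (MvPolynomial (Fin (N + 1)) ℂ)) [P.IsPrime] (G : Fin s → MvPolynomial (Fin (N + 1)) ℂ)
    (k : ℕ) : Prop :=
  IsLogGeneralType (K := FunField P) (k := k) (OnBd P fun _ : Fin 1 => ∏ i, G i)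

end Pool.Agent.AD.NC

end
end

section

/-!
# The cone of a smooth projective surface is a `Surface`

`IsChart` and `Surface` are the definitions of `Pool.Agent.H17BP.Surf`.
-/

open MvPolynomial Topology Filter
open Pool.Agent.H17GT (coordFun functionField)
open Pool.Agent.H17LG.Variety (FunField ratio)
open Pool.Agent.H62.FC (Homog)
open Pool.Agent.H17BP (IsChart Surface Pr)

noncomputable section

namespace Pool.Agent.H13.SM

variable {N : ℕ} {P : Ideal (MvPolynomial (Fin (N + 1)) ℂ)}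

/-- The chart with the coordinate ratios `x i / x l`, `x j / x l` as parameters. -/
theorem exists_ratioChart [P.IsPrime] (hP : Homog P) {z : Fin 2 → FunField P}
    (hz : IsTranscendenceBasis ℂ z)
    (hsm : ∀ y ∈ cone P, Module.finrank ℂ (conTan P y) ≤ 3)
    {x : Fin (N + 1) → ℂ} (hx : x ∈ cone P) {l : Fin (N + 1)} (hl : x l ≠ 0) :
    ∃ (i j : Fin (N + 1)) (σ : ℂ × ℂ → Fin (N + 1) → ℂ),
      IsChart (cone P) σ (fun y => (y i / y l - x i / x l, y j / y l - x j / x l)) ∧ σ 0 = x ∧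
      (∀ᶠ p in 𝓝 (0 : ℂ × ℂ), σ p l = x l ∧ σ p i = x i + x l * p.1 ∧ σ p j = x j + x l * p.2) ∧
      (∀ᶠ y in 𝓝 x, (∀ Q ∈ P, eval y Q = 0) →
        y = (y l / x l) • σ (y i / y l - x i / x l, y j / y l - x j / x l)) ∧
      ∀ (d : ℕ) (Q : MvPolynomial (Fin (N + 1)) ℂ), Q.IsHomogeneous d → Q ∉ P →
        ¬ ∀ᶠ p in 𝓝 (0 : ℂ × ℂ), eval (σ p) Q = 0 := by
  obtain ⟨I, σ, h1, h2, h3, h4, h5⟩ := exists_coneChart hP hz (fun y hy hy' => hsm y ⟨hy, hy'⟩)
    hx.2 hl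
  -- the linear isomorphism `ℂ × ℂ → (Fin 2 → ℂ)`
  have hvan : ∀ p : ℂ × ℂ, AnalyticAt ℂ (fun q : ℂ × ℂ => (![q.1, q.2] : Fin 2 → ℂ)) p := by
    intro p
    refine AnalyticAt.pi fun k => ?_
    fin_cases k
    · exact analyticAt_fst
    · exact analyticAt_snd
  have hv0 : (![(0 : ℂ × ℂ).1, (0 : ℂ × ℂ).2] : Fin 2 → ℂ) = 0 := by
    funext k
    fin_cases k <;> rfl
  have hvt : Tendsto (fun q : ℂ × ℂ => (![q.1, q.2] : Fin 2 → ℂ)) (𝓝 0) (𝓝 0) := by
    have := (hvan 0).continuousAt.tendsto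
    rwa [hv0] at this
  have hl1 : ∀ᶠ y in 𝓝 x, y l ≠ 0 :=
    (continuous_apply l).continuousAt.eventually_ne hl
  have hvec : ∀ y : Fin (N + 1) → ℂ, (fun k => y (I k) / y l - x (I k) / x l) =
      (![y (I 0) / y l - x (I 0) / x l, y (I 1) / y l - x (I 1) / x l] : Fin 2 → ℂ) := by
    intro y
    funext k
    fin_cases k <;> rfl
  have h4' : ∀ᶠ y in 𝓝 x, (∀ Q ∈ P, eval y Q = 0) →
      y = (y l / x l) • σ ![y (I 0) / y l - x (I 0) / x l, y (I 1) / y l - x (I 1) / x l] := by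
    filter_upwards [h4] with y hy hy'
    have := hy hy'
    rwa [hvec] at this
  have hσ0 : σ ![(0 : ℂ × ℂ).1, (0 : ℂ × ℂ).2] = x := by rw [hv0, h2]
  refine ⟨I 0, I 1, fun p => σ ![p.1, p.2], ?_, hσ0, ?_, h4', ?_⟩
  · refine ⟨?_, ?_, ?_, ?_, ?_, ?_, ?_⟩
    · have h6 : AnalyticAt ℂ σ ((fun q : ℂ × ℂ => (![q.1, q.2] : Fin 2 → ℂ)) 0) := by
        simpa only [hv0] using h1
      exact AnalyticAt.comp (g := σ) (f := fun q : ℂ × ℂ => (![q.1, q.2] : Fin 2 → ℂ)) h6 (hvan 0)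
    · filter_upwards [hvt.eventually h3] with p hp
      refine ⟨?_, hp.1⟩
      intro h6
      apply hl
      rw [← hp.2.1, h6]
      rfl
    · rw [hσ0]
      exact hx.1
    · rw [hσ0]
      have hpr : ∀ i : Fin (N + 1), AnalyticAt ℂ (fun y : Fin (N + 1) → ℂ => y i) x := fun i =>
        (ContinuousLinearMap.proj (R := ℂ) (φ := fun _ : Fin (N + 1) => ℂ) i).analyticAt x
      exact (((hpr _).div (hpr l) hl).sub analyticAt_const).prod
        (((hpr _).div (hpr l) hl).sub analyticAt_const)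
    · filter_upwards [hvt.eventually h3] with p hp
      have e0 := hp.2.2 0
      have e1 := hp.2.2 1
      simp only [Matrix.cons_val_zero, Matrix.cons_val_one] at e0 e1
      ext
      · change σ ![p.1, p.2] (I 0) / σ ![p.1, p.2] l - x (I 0) / x l = p.1
        rw [e0, hp.2.1]
        field_simp
        ring
      · change σ ![p.1, p.2] (I 1) / σ ![p.1, p.2] l - x (I 1) / x l = p.2
        rw [e1, hp.2.1]
        field_simp
        ring
    · rw [hσ0]
      filter_upwards [h4', hl1] with y hy hyl hyX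
      exact ⟨y l / x l, div_ne_zero hyl hl, hy hyX.2⟩
    · rw [hσ0]
      have h7 : ∀ᶠ p in 𝓝 (x, (1 : ℂ)), p.2 ≠ 0 := by
        have : ContinuousAt (fun p : (Fin (N + 1) → ℂ) × ℂ => p.2) (x, (1 : ℂ)) :=
          continuousAt_snd
        exact this.eventually_ne one_ne_zero
      filter_upwards [h7] with p hp
      simp only [Pi.smul_apply, smul_eq_mul]
      rw [mul_div_mul_left _ _ hp, mul_div_mul_left _ _ hp]
  · filter_upwards [hvt.eventually h3] with p hp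
    have e0 := hp.2.2 0
    have e1 := hp.2.2 1
    simp only [Matrix.cons_val_zero, Matrix.cons_val_one] at e0 e1
    exact ⟨hp.2.1, e0, e1⟩
  · intro d Q hQ hQP h8
    refine h5 d Q hQ hQP ?_
    -- transport back along the inverse isomorphism
    have hpt : Tendsto (fun u : Fin 2 → ℂ => ((u 0, u 1) : ℂ × ℂ)) (𝓝 0) (𝓝 0) := by
      have : Continuous (fun u : Fin 2 → ℂ => ((u 0, u 1) : ℂ × ℂ)) := by fun_prop
      exact this.tendsto' _ _ rfl
    filter_upwards [hpt.eventually h8] with u hu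
    have h9 : (![u 0, u 1] : Fin 2 → ℂ) = u := by
      funext k
      fin_cases k <;> rfl
    simpa only [h9] using hu

theorem surface_cone [P.IsPrime] (hP : Homog P) {z : Fin 2 → FunField P}
    (hz : IsTranscendenceBasis ℂ z) (hsm : ∀ y ∈ cone P, Module.finrank ℂ (conTan P y) ≤ 3) :
    Surface (cone P) := by
  refine ⟨fun h => h.1 rfl, ?_, ?_, ?_⟩
  · intro x hx c hc
    exact ⟨smul_ne_zero hc hx.1, cone_smul hP hx.2 c⟩
  · intro x hx h0
    refine ⟨h0, fun Q hQ => ?_⟩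
    have h1 : IsClosed {y : Fin (N + 1) → ℂ | eval y Q = 0} :=
      isClosed_eq (MvPolynomial.continuous_eval Q) continuous_const
    have h2 : cone P ⊆ {y : Fin (N + 1) → ℂ | eval y Q = 0} := fun y hy => hy.2 Q hQ
    exact h1.closure_subset_iff.2 h2 hx
  · intro x hx
    obtain ⟨l, hl⟩ : ∃ l, x l ≠ 0 := by
      by_contra h
      push Not at h
      exact hx.1 (funext h)
    obtain ⟨i, j, σ, h1, h2, -⟩ := exists_ratioChart hP hz hsm hx hl
    exact ⟨σ, _, h1, h2⟩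

/-- A form which does not vanish on the surface is not identically zero in any chart. -/
theorem frequently_ne_zero [P.IsPrime] (hP : Homog P) {z : Fin 2 → FunField P}
    (hz : IsTranscendenceBasis ℂ z) (hsm : ∀ y ∈ cone P, Module.finrank ℂ (conTan P y) ≤ 3)
    {σ : ℂ × ℂ → Fin (N + 1) → ℂ} {τ : (Fin (N + 1) → ℂ) → ℂ × ℂ} (h : IsChart (cone P) σ τ)
    {d : ℕ} {Q : MvPolynomial (Fin (N + 1)) ℂ} (hQ : Q.IsHomogeneous d) (hQP : Q ∉ P) :
    ∃ᶠ p in 𝓝 (0 : ℂ × ℂ), eval (σ p) Q ≠ 0 := by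
  intro h8
  have hS := surface_cone hP hz hsm
  have hx : σ 0 ∈ cone P := h.σ_mem.self_of_nhds
  obtain ⟨l, hl⟩ : ∃ l, σ 0 l ≠ 0 := by
    by_contra h'
    push Not at h'
    exact hx.1 (funext h')
  obtain ⟨i, j, σ', h1, h2, -, -, h5⟩ := exists_ratioChart hP hz hsm hx hl
  obtain ⟨θ, hθ, hPr⟩ := IsChart.trans hS.smul h h1 (by rw [h2]; exact Pr.refl _)
  refine h5 d Q hQ hQP ?_
  filter_upwards [hPr, hθ.tendsto.eventually h8] with p hp hp'
  push Not at hp'
  obtain ⟨c, hc, hpc⟩ := hp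
  have h9 : eval (c • σ (θ p)) Q = c ^ d * eval (σ (θ p)) Q := by
    have h10 := Pool.Agent.H92.GT.Proj.aeval_scale (K := ℂ) hQ c (σ (θ p))
    rw [MvPolynomial.aeval_eq_eval, MvPolynomial.aeval_eq_eval] at h10
    exact h10
  rw [hpc, h9, hp', mul_zero]

end Pool.Agent.H13.SM

end
end

section

/-!
# SG: models on the cone of a projective surface, the curve is given by one form
-/

set_option autoImplicit false

open Topology Filter Metric MvPolynomial

noncomputable section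

namespace Pool.Agent.H90.SG

open Pool.Agent.H36.BP (EN)
open Pool.Agent.H17BP (Surface IsForm NoZeros Eqs IsChart)
open Pool.Agent.H62.FC (Homog)
open Pool.Agent.H17LG.Variety (FunField)
open Pool.Agent.H13.SM (conTan cone)
open Pool.Agent.H17EF (coneE LE)

section transport

variable {V V' : Type} [NormedAddCommGroup V] [NormedSpace ℂ V] [NormedAddCommGroup V'] [NormedSpace ℂ V']

/-- charts under a linear isomorphism -/
theorem isChart_transport (L : V ≃L[ℂ] V') {X : Set V} {σ : ℂ × ℂ → V} {τ : V → ℂ × ℂ} (h : IsChart X σ τ) :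
    IsChart (L.symm ⁻¹' X) (fun p => L (σ p)) (fun y => τ (L.symm y)) where
  σ_an := ((L : V →L[ℂ] V').analyticAt _).comp h.σ_an
  σ_mem := h.σ_mem.mono fun p hp => by
    rw [Set.mem_preimage, ContinuousLinearEquiv.symm_apply_apply]
    exact hp
  ne := fun e => h.ne ((map_eq_zero_iff L L.injective).1 e)
  τ_an := by
    have h1 : AnalyticAt ℂ τ (L.symm (L (σ 0))) := by
      rw [ContinuousLinearEquiv.symm_apply_apply]
      exact h.τ_an
    exact AnalyticAt.fun_comp (g := τ) h1 ((L.symm : V' →L[ℂ] V).analyticAt _)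
  left := h.left.mono fun p hp => by rw [ContinuousLinearEquiv.symm_apply_apply, hp]
  right := by
    have h1 : Tendsto (fun y => L.symm y) (𝓝 (L (σ 0))) (𝓝 (σ 0)) := by
      have := L.symm.continuous.tendsto (L (σ 0))
      rwa [ContinuousLinearEquiv.symm_apply_apply] at this
    filter_upwards [h1.eventually h.right] with y hy hyX
    obtain ⟨c, hc, hcy⟩ := hy hyX
    refine ⟨c, hc, ?_⟩
    have h2 := congrArg L hcy
    rwa [ContinuousLinearEquiv.apply_symm_apply, map_smul] at h2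
  inv := by
    have h1 : Tendsto (fun p : V' × ℂ => (L.symm p.1, p.2)) (𝓝 (L (σ 0), (1 : ℂ))) (𝓝 (σ 0, (1 : ℂ))) := by
      have h2 : Continuous (fun p : V' × ℂ => (L.symm p.1, p.2)) := by fun_prop
      have h3 := h2.tendsto (L (σ 0), (1 : ℂ))
      simpa only [ContinuousLinearEquiv.symm_apply_apply] using h3
    filter_upwards [h1.eventually h.inv] with p hp
    rw [map_smul]
    exact hp

/-- charts under the inverse of a linear isomorphism -/
theorem isChart_transport_symm (L : V ≃L[ℂ] V') {X : Set V} {σ : ℂ × ℂ → V'} {τ : V' → ℂ × ℂ} (h : IsChart (L.symm ⁻¹' X) σ τ) :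
    IsChart X (fun p => L.symm (σ p)) (fun y => τ (L y)) := by
  have h1 := isChart_transport L.symm h
  have h2 : (L.symm.symm ⁻¹' (L.symm ⁻¹' X) : Set V) = X := by
    ext x
    simp
  rw [h2] at h1
  exact h1

theorem surface_transport (L : V ≃L[ℂ] V') {X : Set V} (h : Surface X) : Surface (L.symm ⁻¹' X) where
  zero := by
    rw [Set.mem_preimage, map_zero]
    exact h.zero
  smul := fun x hx c hc => by
    rw [Set.mem_preimage, map_smul]
    exact h.smul _ hx c hc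
  closed := fun x hx hx0 => by
    rw [Set.mem_preimage]
    refine h.closed _ ?_ fun e => hx0 ((map_eq_zero_iff L.symm L.symm.injective).1 e)
    have h1 : Set.MapsTo (fun y => L.symm y) (L.symm ⁻¹' X) X := fun y hy => hy
    exact h1.closure L.symm.continuous hx
  chart := fun x hx => by
    obtain ⟨σ, τ, h1, h2⟩ := h.chart _ hx
    refine ⟨_, _, isChart_transport L h1, ?_⟩
    show L (σ 0) = x
    rw [h2, ContinuousLinearEquiv.apply_symm_apply]

end transport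

variable {N : ℕ} {P : Ideal (MvPolynomial (Fin (N + 1)) ℂ)}

/-- the cone of a smooth projective surface -/
theorem surface_coneE [P.IsPrime] (hP : Homog P) {z : Fin 2 → FunField P} (hz : IsTranscendenceBasis ℂ z)
    (hsm : ∀ y : Fin (N + 1) → ℂ, y ≠ 0 → (∀ Q ∈ P, eval y Q = 0) → Module.finrank ℂ (conTan P y) ≤ 3) : Surface (coneE P) :=
  surface_transport (LE N) (Pool.Agent.H13.SM.surface_cone hP hz fun y hy => hsm y hy.1 hy.2)

/-- a form which is not in the ideal does not vanish on any chart -/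
theorem thin_coneE [P.IsPrime] (hP : Homog P) {z : Fin 2 → FunField P} (hz : IsTranscendenceBasis ℂ z)
    (hsm : ∀ y : Fin (N + 1) → ℂ, y ≠ 0 → (∀ Q ∈ P, eval y Q = 0) → Module.finrank ℂ (conTan P y) ≤ 3)
    {Q : MvPolynomial (Fin (N + 1)) ℂ} {D : ℕ} (hQ : Q.IsHomogeneous D) (hQP : Q ∉ P) {σ : ℂ × ℂ → EN N} {τ : EN N → ℂ × ℂ}
    (h : IsChart (coneE P) σ τ) : ∃ᶠ p in 𝓝 (0 : ℂ × ℂ), eval (σ p).ofLp Q ≠ 0 :=
  Pool.Agent.H13.SM.frequently_ne_zero hP hz (fun y hy => hsm y hy.1 hy.2) (isChart_transport_symm (LE N) h) hQ hQP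

/-- the equation of a curve on the surface -/
theorem eqs_coneE {Q : MvPolynomial (Fin (N + 1)) ℂ} {D : ℕ} (hD : 1 ≤ D) (hQ : Q.IsHomogeneous D) :
    Eqs (coneE P) {x | x ∈ coneE P ∧ eval x.ofLp Q = 0} (fun (_ : Unit) (x : EN N) => eval x.ofLp Q) D where
  pos := hD
  an := fun _ x => by
    have h : ∀ i : Fin (N + 1), AnalyticAt ℂ (fun y : EN N => y.ofLp i) x := fun i =>
      (EuclideanSpace.proj (𝕜 := ℂ) i).analyticAt x
    have := AnalyticAt.aeval_mvPolynomial (𝕜 := ℂ) h Q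
    simpa [MvPolynomial.aeval_eq_eval] using this
  smul := fun _ c x => by
    have h1 : (c • x).ofLp = c • x.ofLp := rfl
    show eval (c • x).ofLp Q = c ^ D * eval x.ofLp Q
    rw [h1]
    exact Pool.Agent.H17EF.eval_smul_form hQ c x.ofLp
  mem_iff := fun x => ⟨fun h => ⟨h.1, fun _ => h.2⟩, fun h => ⟨h.1, h.2 ()⟩⟩
  gen := fun x hx => ⟨(), Eventually.of_forall fun y hy h => ⟨hy, h⟩⟩

end Pool.Agent.H90.SG

end
end

section

/-!
# WL Proj: complements in surfaces with nonpositively curved pseudo-lengths, in the projective space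
-/

set_option autoImplicit false

open Topology Filter MvPolynomial Metric

noncomputable section

namespace Pool.Agent.H22.WL

open Pool.Agent.H17 (PN VanishesAt HolomorphicInto ZariskiClosedIn puncturedDisc)
open Pool.Agent.H62.FC (Homog)
open Pool.Agent.H17BP (Surface)
open Pool.Agent.H17LG.Variety (FunField IsLogGeneralType)
open Pool.Agent.H13.SM (cone)
open Pool.Agent.H36.BP (EN fs wd isCone_transport analyticAt_ofLp)
open Pool.Agent.H14.PP (IsCone)
open Pool.Agent.H17EF (projVar coneE LE mk_mem_projVar)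
open Pool.Agent.H14.V (IsLift isLift_mk)

variable {N : ℕ} {P : Ideal (MvPolynomial (Fin (N + 1)) ℂ)} {s : ℕ} {G : Fin s → MvPolynomial (Fin (N + 1)) ℂ} {d : Fin s → ℕ}

theorem vanishesAt_lift {F : ℂ → EN N} {f : ℂ → PN N} (hF : IsLift F f) {Q : MvPolynomial (Fin (N + 1)) ℂ} {m : ℕ} (hQ : Q.IsHomogeneous m)
    (z : ℂ) : VanishesAt Q (f z) ↔ eval (F z).ofLp Q = 0 := by
  obtain ⟨h, h'⟩ := hF.2 z
  rw [h', Pool.Agent.H17.vanishesAt_mk_iff hQ]

/-- the form on `EN N` -/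
def evF (Q : MvPolynomial (Fin (N + 1)) ℂ) (x : EN N) : ℂ := eval x.ofLp Q

theorem evF_diff (Q : MvPolynomial (Fin (N + 1)) ℂ) : Differentiable ℂ (evF Q) := by
  intro x
  have h := AnalyticAt.aeval_mvPolynomial (𝕜 := ℂ) (f := fun y : EN N => y.ofLp) (z := x) (fun i =>
    (EuclideanSpace.proj (𝕜 := ℂ) i : EN N →L[ℂ] ℂ).analyticAt x) Q
  have h2 : AnalyticAt ℂ (fun y : EN N => eval y.ofLp Q) x := by simpa [MvPolynomial.aeval_eq_eval] using h
  exact h2.differentiableAt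

theorem evF_smul {Q : MvPolynomial (Fin (N + 1)) ℂ} {m : ℕ} (hQ : Q.IsHomogeneous m) (c : ℂ) (x : EN N) :
    evF Q (c • x) = c ^ m * evF Q x := by
  unfold evF
  exact Pool.Agent.H17.eval_smul_of_isHomogeneous hQ c x.ofLp

end Pool.Agent.H22.WL

end
end

section

/-!
# SDA ES: the curvature of the metric downstairs

`downU_sub` (compare `SY/EiS.lean`) and `downU_near`: the components of the lift are multiples of `F`, so the relative sizes of the equations
upstairs and downstairs are equal.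
-/

set_option autoImplicit false

open Topology Filter Metric

noncomputable section

namespace Pool.Agent.SDA

open Pool.Agent.H36.BP (EN fs wd Sub)
open Pool.Agent.H17BP (Pr Surface IsForm NoZeros NodalAt Eqs IsChart ResAt)
open Pool.Agent.H14.KB (rhoS)
open Pool.Agent.H62.BU (blow total Ker phi)
open Pool.Agent.SY (Ent IsLiftB down exists_liftB sub_norm_pi lift_comp)

variable {V : Type} [NormedAddCommGroup V] [NormedSpace ℂ V] {ι : Type} [Fintype ι] {l : ι → V →L[ℂ] ℂ} {X K T : Set V} {q : V}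

/-- multiplication of the curvature property upstairs by the norm of the multiplier -/
theorem sub_down {N N' : ℕ} {L : V ≃L[ℂ] EN N} {L' : (ι → V) ≃L[ℂ] EN N'} (hL : ∀ y, ‖L' y‖ ^ 2 = ∑ b, ‖L (y b)‖ ^ 2)
    (hX : Surface X) (hl : Ker l q) (hT : ∀ x ∈ T, ∀ c : ℂ, c ≠ 0 → c • x ∈ T) (hq : q ∈ T) {F : ℂ → V} (hF : Ent X T F)
    {Φ : ℂ → ι → V} (hΦ : IsLiftB l X T F Φ) {c₀ a : ℝ} (hc₀ : 0 < c₀) {G : ℂ → ℝ} {z : ℂ}
    (h1 : Sub (fun w => G w * ‖L' (Φ w)‖ ^ (-c₀)) z a) : Sub (fun w => G w * ‖L (F w)‖ ^ (-c₀)) z a := by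
  obtain ⟨k, hka, hk0, hk⟩ := lift_comp L hX hl hT hq hF hΦ z
  have h2 := (sub_norm_pi hka hk0).rpow hc₀.le
  have h3 := h1.mul h2
  rw [mul_zero, add_zero] at h3
  refine h3.congr ?_
  have hpos : ∀ᶠ w in 𝓝 z, (WithLp.toLp 2 (fun b => k b w) : EuclideanSpace ℂ ι) ≠ 0 := by
    obtain ⟨b, hb⟩ := hk0
    filter_upwards [(hka b).continuousAt.eventually_ne hb] with w hw h0
    exact hw (congrArg (fun v : EuclideanSpace ℂ ι => v b) h0)
  filter_upwards [hk, hpos] with w hw hw0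
  set U : EuclideanSpace ℂ ι := WithLp.toLp 2 (fun b => k b w) with hU
  have hUn : 0 < ‖U‖ := norm_pos_iff.mpr hw0
  have hLF : 0 < ‖L (F w)‖ := by
    refine norm_pos_iff.mpr fun h0 => hX.zero ?_
    have h4 : F w = 0 := by simpa using congrArg L.symm h0
    exact h4 ▸ hF.mem w
  have h4 : ‖L' (Φ w)‖ = ‖U‖ * ‖L (F w)‖ := by
    have h5 : ‖L' (Φ w)‖ ^ 2 = (‖U‖ * ‖L (F w)‖) ^ 2 := by
      rw [hL, mul_pow, EuclideanSpace.norm_sq_eq, Finset.sum_mul]
      refine Finset.sum_congr rfl fun b _ => ?_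
      rw [hw b, map_smul, norm_smul, mul_pow]
    exact (pow_left_inj₀ (norm_nonneg _) (by positivity) two_ne_zero).mp h5
  rw [h4, Real.mul_rpow hUn.le hLF.le]
  have h6 : ‖U‖ ^ (-c₀) * ‖U‖ ^ c₀ = 1 := by
    rw [← Real.rpow_add hUn, neg_add_cancel, Real.rpow_zero]
  calc G w * (‖U‖ ^ (-c₀) * ‖L (F w)‖ ^ (-c₀)) * ‖U‖ ^ c₀ = G w * ‖L (F w)‖ ^ (-c₀) * (‖U‖ ^ (-c₀) * ‖U‖ ^ c₀) := by ring
    _ = G w * ‖L (F w)‖ ^ (-c₀) := by rw [h6, mul_one]

/-- MODULE K5 (1): the curvature (compare `SY/EiS.lean`) -/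
theorem downU_sub {N N' : ℕ} {L : V ≃L[ℂ] EN N} {L' : (ι → V) ≃L[ℂ] EN N'} (hL : ∀ y, ‖L' y‖ ^ 2 = ∑ b, ‖L (y b)‖ ^ 2)
    {rho : (ι → V) → ℝ} {M : ℕ} {c₀ C δ : ℝ} {g : (ℂ → ι → V) → ℂ → ℝ}
    (hX : Surface X) (hKX : K ⊆ X) (hKs : ∀ x ∈ K, ∀ c : ℂ, c ≠ 0 → c • x ∈ K) (hl : Ker l q) (hTX : T ⊆ X)
    (hT : ∀ x ∈ T, ∀ c : ℂ, c ≠ 0 → c • x ∈ T) (hq : q ∈ T)
    (E : EnU (blow l X) (total l X K) (total l X T) (fun y => ‖L' y‖) rho M c₀ C δ g) {F : ℂ → V} (hF : EntU X K T F) (z : ℂ)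
    (hz : 0 < down l X T g F z) :
    Sub (fun w => down l X T g F w * ‖L (F w)‖ ^ (-c₀)) z (-(C * down l X T g F z ^ 2)) := by
  obtain ⟨Φ, hΦ⟩ := exists_liftB hX hl hTX hT hq hF.ent
  rw [downU_eq hX hKX hKs hl hTX hT hq E hF hΦ] at hz ⊢
  exact sub_down hL hX hl hT hq hF.ent hΦ E.c₀_pos (E.sub Φ (entU_lift hX hKX hKs hl hT hq hF hΦ) z hz)

/-- the relative size of the equations on a lift -/
theorem rhoS_lift (hX : Surface X) (hl : Ker l q) (hT : ∀ x ∈ T, ∀ c : ℂ, c ≠ 0 → c • x ∈ T) (hq : q ∈ T) {F : ℂ → V}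
    (hF : Ent X T F) {Φ : ℂ → ι → V} (h1 : IsLiftB l X T F Φ) {κ : Type} [Fintype κ] {Q : κ → V → ℂ} {D : ℕ}
    (hQs : ∀ i (c : ℂ) x, Q i (c • x) = c ^ D * Q i x) (z : ℂ) :
    rhoS (fun (p : κ × ι) (y : ι → V) => Q p.1 (y p.2)) D (Φ z) ≤ rhoS Q D (F z) := by
  choose k hk using fun b => lift_mul hX hl hT hq hF h1 z b
  have hF0 : 0 < ‖F z‖ := norm_pos_iff.mpr fun h0 => hX.zero (h0 ▸ hF.mem z)
  have hΦ : Φ z = fun b => k b • F z := funext hk
  have hne : (k : ι → ℂ) ≠ 0 := by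
    rintro rfl
    apply (h1.1.mem z).2
    rw [hΦ]
    funext b
    simp
  have hk0 : 0 < ‖k‖ := norm_pos_iff.mpr hne
  have h2 : ‖Φ z‖ = ‖k‖ * ‖F z‖ := by
    rw [hΦ]
    apply le_antisymm
    · refine (pi_norm_le_iff_of_nonneg (by positivity)).mpr fun b => ?_
      rw [norm_smul]
      exact mul_le_mul_of_nonneg_right (norm_le_pi_norm k b) (norm_nonneg _)
    · rw [← le_div_iff₀ hF0]
      refine (pi_norm_le_iff_of_nonneg (by positivity)).mpr fun b => ?_
      rw [le_div_iff₀ hF0, ← norm_smul]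
      exact norm_le_pi_norm (fun b => k b • F z) b
  have h3 : ‖fun p : κ × ι => Q p.1 (Φ z p.2)‖ ≤ ‖k‖ ^ D * ‖fun i => Q i (F z)‖ := by
    refine (pi_norm_le_iff_of_nonneg (by positivity)).mpr fun p => ?_
    rw [hk p.2, hQs, norm_mul, norm_pow]
    exact mul_le_mul (pow_le_pow_left₀ (norm_nonneg _) (norm_le_pi_norm k p.2) _)
      (norm_le_pi_norm (fun i => Q i (F z)) p.1) (norm_nonneg _) (by positivity)
  unfold rhoS
  rw [h2, div_le_div_iff₀ (by positivity) (by positivity), mul_pow]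
  calc ‖fun p : κ × ι => Q p.1 (Φ z p.2)‖ * ‖F z‖ ^ D ≤ ‖k‖ ^ D * ‖fun i => Q i (F z)‖ * ‖F z‖ ^ D :=
        mul_le_mul_of_nonneg_right h3 (by positivity)
    _ = ‖fun i => Q i (F z)‖ * (‖k‖ ^ D * ‖F z‖ ^ D) := by ring

/-- MODULE K5 (2): no error near the exceptional curve -/
theorem downU_near {N N' : ℕ} {L : V ≃L[ℂ] EN N} {L' : (ι → V) ≃L[ℂ] EN N'} (hL : ∀ y, ‖L' y‖ ^ 2 = ∑ b, ‖L (y b)‖ ^ 2)
    {κ : Type} [Fintype κ] {Q : κ → V → ℂ} {D : ℕ} {M : ℕ} {c₀ C δ : ℝ} {g : (ℂ → ι → V) → ℂ → ℝ}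
    (hX : Surface X) (hKX : K ⊆ X) (hKs : ∀ x ∈ K, ∀ c : ℂ, c ≠ 0 → c • x ∈ K) (hl : Ker l q) (he : Eqs X T Q D) (hq : q ∈ T)
    (E : EnU (blow l X) (total l X K) (total l X T) (fun y => ‖L' y‖) (rhoS (fun (p : κ × ι) (y : ι → V) => Q p.1 (y p.2)) D) M c₀ C δ g)
    {F : ℂ → V} (hF : EntU X K T F) (z : ℂ) (hz : 0 < down l X T g F z) (hρ : rhoS Q D (F z) < δ) :
    Sub (fun w => down l X T g F w * ‖L (F w)‖ ^ (-c₀)) z 0 := by
  have hTX := he.sub
  have hT : ∀ x ∈ T, ∀ c : ℂ, c ≠ 0 → c • x ∈ T := he.cone hX.smul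
  obtain ⟨Φ, hΦ⟩ := exists_liftB hX hl hTX hT hq hF.ent
  rw [downU_eq hX hKX hKs hl hTX hT hq E hF hΦ] at hz ⊢
  exact sub_down hL hX hl hT hq hF.ent hΦ E.c₀_pos (E.near Φ (entU_lift hX hKX hKs hl hT hq hF hΦ) z hz
    ((rhoS_lift hX hl hT hq hF.ent hΦ he.smul z).trans_lt hρ))

end Pool.Agent.SDA

end
end

section

/-!
# SDA EW: the lower bound of the metric of the blow-up on the curves in an open surface
-/

set_option autoImplicit false

open Topology Filter Metric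

noncomputable section

namespace Pool.Agent.SDA

open Pool.Agent.H36.BP (EN fs wd Sub)
open Pool.Agent.H17BP (Pr Surface IsForm NoZeros Eqs IsChart)
open Pool.Agent.H14.PP (IsCone)
open Pool.Agent.H14.KB (rhoS)
open Pool.Agent.H62.BU (blow total Ker phi)
open Pool.Agent.SY (Ent IsLiftB down exists_liftB rhoS_smul_eq)

variable {V : Type} [NormedAddCommGroup V] [NormedSpace ℂ V]
variable {ι : Type} [Fintype ι] {l : ι → V →L[ℂ] ℂ} {X K T : Set V} {q : V}

/-- the components of the lift are multiples of the curve -/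
private lemma ew_mul (hX : Surface X) (hl : Ker l q) (hT : ∀ x ∈ T, ∀ c : ℂ, c ≠ 0 → c • x ∈ T) (hq : q ∈ T) {F : ℂ → V}
    (hF : Ent X T F) {Φ : ℂ → ι → V} (h1 : IsLiftB l X T F Φ) (z : ℂ) (i : ι) : ∃ c : ℂ, Φ z i = c • F z := by
  have hF0 : ∀ z, F z ≠ 0 := fun z h => hX.zero (h ▸ hF.mem z)
  obtain ⟨hΦ, h, hh, hhΦ⟩ := h1
  obtain ⟨z₀, hz₀⟩ := hF.out
  obtain ⟨b, hb⟩ : ∃ b, l b (F z₀) ≠ 0 := by
    by_contra hcon
    push Not at hcon
    obtain ⟨c, hc⟩ := (hl (F z₀)).mp hcon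
    have hc0 : c ≠ 0 := by
      rintro rfl
      exact hF0 z₀ (by rw [hc, zero_smul])
    exact hz₀ (hc ▸ hT q hq c hc0)
  have hfa : AnalyticOnNhd ℂ (fun z => l b (F z)) Set.univ := fun z _ =>
    ((l b).differentiable.comp hF.diff).analyticAt z
  have hne : ∀ᶠ y in 𝓝[≠] z, l b (F y) ≠ 0 := by
    rcases (hfa z (Set.mem_univ z)).eventually_eq_zero_or_eventually_ne_zero with hz | hz
    · exact absurd (hfa.eqOn_zero_of_preconnected_of_eventuallyEq_zero isPreconnected_univ (Set.mem_univ z) hz (Set.mem_univ z₀)) hb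
    · exact hz
  obtain ⟨L, -, hL⟩ := exists_dual_vector ℂ (F z) (norm_ne_zero_iff.mpr (hF0 z))
  have hL0 : L (F z) ≠ 0 := by
    rw [hL]
    exact Complex.ofReal_ne_zero.mpr (norm_ne_zero_iff.mpr (hF0 z))
  have hΦi : ContinuousAt (fun y => Φ y i) z := (continuous_apply i).continuousAt.comp (hΦ.diff z).continuousAt
  have hkey : L (F z) • Φ z i = L (Φ z i) • F z := by
    by_contra hcon
    have hc : ContinuousAt (fun y => L (F y) • Φ y i - L (Φ y i) • F y) z :=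
      ((L.continuous.continuousAt.comp (hF.diff z).continuousAt).smul hΦi).sub
        ((L.continuous.continuousAt.comp hΦi).smul (hF.diff z).continuousAt)
    have h1 : ∀ᶠ y in 𝓝[≠] z, L (F y) • Φ y i - L (Φ y i) • F y ≠ 0 :=
      (hc.eventually_ne (sub_ne_zero.mpr hcon)).filter_mono nhdsWithin_le_nhds
    obtain ⟨y, hy1, hy2⟩ := (hne.and h1).exists
    apply hy2
    have hh0 : h y ≠ 0 := by
      intro h0
      have h3 := hhΦ y
      rw [h0, zero_smul] at h3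
      have h4 : l b (F y) • F y = 0 := congrFun h3 b
      exact smul_ne_zero hy1 (hF0 y) h4
    have h5 : l i (F y) • F y = h y • Φ y i := congrFun (hhΦ y) i
    have h6 : Φ y i = ((h y)⁻¹ * l i (F y)) • F y := by
      rw [mul_smul, h5, smul_smul, inv_mul_cancel₀ hh0, one_smul]
    rw [h6, map_smul, smul_smul, smul_eq_mul, mul_comm (L (F y)), sub_self]
  refine ⟨L (Φ z i) / L (F z), ?_⟩
  rw [div_eq_inv_mul, mul_smul, ← hkey, smul_smul, inv_mul_cancel₀ hL0, one_smul]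

private lemma ew_lift (hX : Surface X) (hKs : ∀ x ∈ K, ∀ c : ℂ, c ≠ 0 → c • x ∈ K) (hl : Ker l q)
    (hT : ∀ x ∈ T, ∀ c : ℂ, c ≠ 0 → c • x ∈ T) (hq : q ∈ T) {F : ℂ → V}
    (hF : EntU X K T F) {Φ : ℂ → ι → V} (h1 : IsLiftB l X T F Φ) : EntU (blow l X) (total l X K) (total l X T) Φ := by
  refine ⟨h1.1, fun z => ⟨h1.1.mem z, fun i hi => ?_⟩⟩
  obtain ⟨c, hc⟩ := ew_mul hX hl hT hq hF.ent h1 z i
  have hc0 : c ≠ 0 := by
    rintro rfl
    exact hi (by rw [hc, zero_smul])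
  rw [hc]
  exact hKs _ (hF.memK z) c hc0

/-- MODULE K6: the lower bound -/
theorem downU_lower {N' : ℕ} {L' : (ι → V) ≃L[ℂ] EN N'} {κ : Type} [Fintype κ] {Q : κ → V → ℂ} {D : ℕ} {M : ℕ} {c₀ C δ : ℝ}
    {g : (ℂ → ι → V) → ℂ → ℝ} (hX : Surface X) (hKX : K ⊆ X) (hKs : ∀ x ∈ K, ∀ c : ℂ, c ≠ 0 → c • x ∈ K) (hl : Ker l q)
    (he : Eqs X T Q D) (hq : q ∈ T) (hM : 1 ≤ M)
    (E : EnU (blow l X) (total l X K) (total l X T) (fun y => ‖L' y‖) (rhoS (fun (p : κ × ι) (y : ι → V) => Q p.1 (y p.2)) D) M c₀ C δ g)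
    {F : ℂ → V} (hF : EntU X K T F) (z : ℂ) :
    ∃ a : ℂ, rhoS Q D (F z) ^ M * ‖deriv F z - a • F z‖ ≤ C * ‖F z‖ * down l X T g F z := by
  have hTX := he.sub
  have hT : ∀ x ∈ T, ∀ c : ℂ, c ≠ 0 → c • x ∈ T := he.cone hX.smul
  have hex : ∃ Φ, IsLiftB l X T F Φ := exists_liftB hX hl hTX hT hq hF.ent
  have hd : down l X T g F = g hex.choose := by
    unfold down
    exact dif_pos hex
  have hΦU : EntU (blow l X) (total l X K) (total l X T) hex.choose := ew_lift hX hKs hl hT hq hF hex.choose_spec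
  obtain ⟨hΦ, h, hh, hphi⟩ := hex.choose_spec
  rw [hd]
  set Φ := hex.choose
  have hF0 : F z ≠ 0 := fun h0 => hX.zero (h0 ▸ hF.ent.mem z)
  by_cases hFT : F z ∈ T
  · refine ⟨0, ?_⟩
    have h1 : rhoS Q D (F z) = 0 := by
      unfold rhoS
      have h2 : (fun i => Q i (F z)) = 0 := funext fun i => ((he.mem_iff _).1 hFT).2 i
      rw [h2, norm_zero, zero_div]
    rw [h1, zero_pow (by omega), zero_mul]
    exact mul_nonneg (mul_nonneg E.C_pos.le (norm_nonneg _)) (E.nonneg Φ hΦU z)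
  -- some `l b (F z)` is not `0`
  have hlb : ∃ b, l b (F z) ≠ 0 := by
    by_contra hcon
    push Not at hcon
    obtain ⟨c, e⟩ := (hl (F z)).1 hcon
    have hc : c ≠ 0 := by
      rintro rfl
      rw [zero_smul] at e
      exact hF0 e
    exact hFT (e ▸ hT q hq c hc)
  have : Nonempty ι := ⟨hlb.choose⟩
  obtain ⟨b, hbmax⟩ := Finite.exists_max fun b => ‖l b (F z)‖
  have hb : l b (F z) ≠ 0 := by
    obtain ⟨b', hb'⟩ := hlb
    have h3 := hbmax b'
    intro h0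
    rw [h0, norm_zero] at h3
    exact hb' (norm_le_zero_iff.mp h3)
  have hb0 : 0 < ‖l b (F z)‖ := norm_pos_iff.mpr hb
  have hpne : phi l (F z) ≠ 0 := H62.BU.phi_ne ⟨b, hb⟩
  have hhz : h z ≠ 0 := by
    intro h0
    rw [hphi z, h0, zero_smul] at hpne
    exact hpne rfl
  have hhz0 : 0 < ‖h z‖ := norm_pos_iff.mpr hhz
  -- the lower bound upstairs
  obtain ⟨a', ha'⟩ := E.lower Φ hΦU z
  have hFd : HasDerivAt F (deriv F z) z := (hF.ent.diff z).hasDerivAt
  have hhd : HasDerivAt h (deriv h z) z := (hh z).hasDerivAt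
  have hΦd : HasDerivAt Φ (deriv Φ z) z := (hΦ.diff z).hasDerivAt
  have hΦb : HasDerivAt (fun w => Φ w b) (deriv Φ z b) z := (hasDerivAt_pi.1 hΦd) b
  -- the derivative of the identity `l b (F) F = h Φ_b`
  have h3 : l b (deriv F z) • F z + l b (F z) • deriv F z = deriv h z • Φ z b + h z • deriv Φ z b := by
    have h4 : HasDerivAt (fun w => l b (F w) • F w) (l b (F z) • deriv F z + l b (deriv F z) • F z) z := by
      have h5 : HasDerivAt (fun w => l b (F w)) (l b (deriv F z)) z :=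
        (l b).hasFDerivAt.comp_hasDerivAt z hFd
      exact h5.smul hFd
    have h6 : HasDerivAt (fun w => h w • Φ w b) (h z • deriv Φ z b + deriv h z • Φ z b) z :=
      hhd.smul hΦb
    have h7 : (fun w => l b (F w) • F w) = fun w => h w • Φ w b := by
      funext w
      exact congrFun (hphi w) b
    rw [h7] at h4
    have h8 := h4.unique h6
    rw [add_comm, h8, add_comm]
  have hzb : l b (F z) • F z = h z • Φ z b := congrFun (hphi z) b
  refine ⟨a' + deriv h z / h z - l b (deriv F z) / l b (F z), ?_⟩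
  set a : ℂ := a' + deriv h z / h z - l b (deriv F z) / l b (F z) with ha
  have h4 : h z • (deriv Φ z b - a' • Φ z b) = l b (F z) • (deriv F z - a • F z) := by
    have e1 : l b (F z) * a = (a' + deriv h z / h z) * l b (F z) - l b (deriv F z) := by
      rw [ha]
      field_simp
    have e2 : l b (F z) • (deriv F z - a • F z) = l b (F z) • deriv F z + l b (deriv F z) • F z -
        (a' + deriv h z / h z) • (l b (F z) • F z) := by
      rw [smul_sub, smul_smul, e1, smul_smul]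
      module
    rw [e2, add_comm (l b (F z) • deriv F z), h3, hzb, smul_smul]
    have e3 : (a' + deriv h z / h z) * h z = a' * h z + deriv h z := by
      field_simp
    rw [e3]
    module
  have h5 : ‖l b (F z)‖ * ‖deriv F z - a • F z‖ ≤ ‖h z‖ * ‖deriv Φ z - a' • Φ z‖ := by
    rw [← norm_smul, ← h4, norm_smul]
    exact mul_le_mul_of_nonneg_left (norm_le_pi_norm (deriv Φ z - a' • Φ z) b) (norm_nonneg _)
  have h6 : ‖h z‖ * ‖Φ z‖ ≤ ‖l b (F z)‖ * ‖F z‖ := by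
    rw [← norm_smul, ← hphi z]
    refine (pi_norm_le_iff_of_nonneg (by positivity)).mpr fun b' => ?_
    show ‖l b' (F z) • F z‖ ≤ _
    rw [norm_smul]
    exact mul_le_mul_of_nonneg_right (hbmax b') (norm_nonneg _)
  have h7 := H14.KB.rhoS_phi (l := l) he.smul hF0 hb hbmax
  have h8 : rhoS (fun (p : κ × ι) (y : ι → V) => Q p.1 (y p.2)) D (phi l (F z)) =
      rhoS (fun (p : κ × ι) (y : ι → V) => Q p.1 (y p.2)) D (Φ z) := by
    rw [hphi z]
    exact rhoS_smul_eq (fun p c y => he.smul p.1 c (y p.2)) hhz (Φ z)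
  rw [h8] at h7
  have h9 : rhoS Q D (F z) ^ M ≤ rhoS (fun (p : κ × ι) (y : ι → V) => Q p.1 (y p.2)) D (Φ z) ^ M :=
    pow_le_pow_left₀ (H14.KB.rhoS_nonneg _ _ _) h7 M
  have hg0 := E.nonneg Φ hΦU z
  have h10 : ‖l b (F z)‖ * (rhoS Q D (F z) ^ M * ‖deriv F z - a • F z‖) ≤
      ‖l b (F z)‖ * (C * ‖F z‖ * g Φ z) := by
    calc ‖l b (F z)‖ * (rhoS Q D (F z) ^ M * ‖deriv F z - a • F z‖)
        = rhoS Q D (F z) ^ M * (‖l b (F z)‖ * ‖deriv F z - a • F z‖) := by ring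
      _ ≤ rhoS (fun (p : κ × ι) (y : ι → V) => Q p.1 (y p.2)) D (Φ z) ^ M * (‖h z‖ * ‖deriv Φ z - a' • Φ z‖) :=
          mul_le_mul h9 h5 (by positivity) (pow_nonneg (H14.KB.rhoS_nonneg _ _ _) _)
      _ = ‖h z‖ * (rhoS (fun (p : κ × ι) (y : ι → V) => Q p.1 (y p.2)) D (Φ z) ^ M * ‖deriv Φ z - a' • Φ z‖) := by ring
      _ ≤ ‖h z‖ * (C * ‖Φ z‖ * g Φ z) := mul_le_mul_of_nonneg_left ha' hhz0.le
      _ = C * g Φ z * (‖h z‖ * ‖Φ z‖) := by ring
      _ ≤ C * g Φ z * (‖l b (F z)‖ * ‖F z‖) :=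
          mul_le_mul_of_nonneg_left h6 (mul_nonneg E.C_pos.le hg0)
      _ = ‖l b (F z)‖ * (C * ‖F z‖ * g Φ z) := by ring
  exact le_of_mul_le_mul_left h10 hb0

end Pool.Agent.SDA

end
end
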