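import Pool.Agent.H43.TL2.M02
import Pool.Agent.H43.TL2.M03
import Pool.Agent.H43.TL2.M43

/-! The parts of this file: H74.SB.Tr, H74.SB.Len, SB.Api, SB.Blow, SB.Mu, GG.Ode, MQ2.Rect. -/

section

/-!
# SB Tr: formal power series in two variables, truncations, the transform of a series of order `k` under the blow-up `(x, y) = (x, x t)`
-/

set_option autoImplicit false

open MvPowerSeries Finsupp

noncomputable section

namespace Pool.Agent.H74.SB

/-- `ℂ⟦x, y⟧` -/
abbrev R := MvPowerSeries (Fin 2) ℂ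

/-- the exponent of `x ^ i y ^ j` -/
def mon (i j : ℕ) : Fin 2 →₀ ℕ := single 0 i + single 1 j

@[simp] theorem mon_zero (i j : ℕ) : mon i j 0 = i := by simp [mon]

@[simp] theorem mon_one (i j : ℕ) : mon i j 1 = j := by simp [mon]

theorem eq_mon (d : Fin 2 →₀ ℕ) : d = mon (d 0) (d 1) := by
  ext i
  fin_cases i <;> simp

theorem degree_mon (d : Fin 2 →₀ ℕ) : degree d = d 0 + d 1 := by
  rw [degree_eq_sum, Fin.sum_univ_two]

/-- the series of order at least `k` -/
def M (k : ℕ) : Ideal R where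
  carrier := {f | (k : ℕ∞) ≤ f.order}
  add_mem' := fun hf hg => (le_min hf hg).trans min_order_le_add
  zero_mem' := by simp
  smul_mem' := fun _ _ hf => (le_add_left hf).trans le_order_mul

theorem mem_M {k : ℕ} {f : R} : f ∈ M k ↔ ∀ i j, i + j < k → coeff (mon i j) f = 0 := by
  constructor
  · intro h i j hij
    refine coeff_of_lt_order (lt_of_lt_of_le ?_ h)
    rw [degree_mon]
    simpa using mod_cast hij
  · intro h
    refine nat_le_order fun d hd => ?_
    rw [degree_mon] at hd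
    rw [eq_mon d]
    exact h _ _ hd

theorem mem_M_order {k : ℕ} {f : R} : f ∈ M k ↔ (k : ℕ∞) ≤ f.order := Iff.rfl

theorem M_anti {k l : ℕ} (h : k ≤ l) : M l ≤ M k := fun _ hf => mem_M.2 fun i j hij => mem_M.1 hf i j (lt_of_lt_of_le hij h)

theorem mul_mem_M {k l : ℕ} {f g : R} (hf : f ∈ M k) (hg : g ∈ M l) : f * g ∈ M (k + l) := by
  rw [mem_M_order] at *
  push_cast
  exact (add_le_add hf hg).trans le_order_mul

/-- a product with a series of order exactly `l` -/
theorem mem_M_of_mul {k l : ℕ} {f g : R} (hg : g.order = l) (h : f * g ∈ M (k + l)) : f ∈ M k := by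
  rw [mem_M_order, order_mul, hg] at h
  push_cast at h
  exact (ENat.add_le_add_iff_right (by simp)).1 h

/-- the monomials of degree less than `k` -/
abbrev T (k : ℕ) := (n : Fin k) × Fin (n + 1)

theorem card_T (k : ℕ) : 2 * Fintype.card (T k) = k * (k + 1) := by
  have h : Fintype.card (T k) = ∑ i ∈ Finset.range (k + 1), i := by
    rw [Finset.sum_range_succ', Fintype.card_sigma]
    simp only [Fintype.card_fin, add_zero]
    exact Fin.sum_univ_eq_sum_range (fun i => i + 1) k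
  rw [h, mul_comm 2, Finset.sum_range_id_mul_two]
  simp [mul_comm]

/-- the truncation -/
def tr (k : ℕ) : R →ₗ[ℂ] (T k → ℂ) where
  toFun f t := coeff (mon (t.1 - t.2) t.2) f
  map_add' f g := by ext; simp
  map_smul' c f := by ext; simp

theorem tr_eq_zero {k : ℕ} {f : R} : tr k f = 0 ↔ f ∈ M k := by
  rw [mem_M]
  constructor
  · intro h i j hij
    have := congrFun h ⟨⟨i + j, hij⟩, ⟨j, by simp⟩⟩
    simpa [tr] using this
  · intro h
    ext t
    refine h _ _ ?_
    have h1 := t.1.2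
    have h2 := t.2.2
    omega

/-- the polynomial with the given coefficients -/
def lf (k : ℕ) : (T k → ℂ) →ₗ[ℂ] R where
  toFun c := fun d => if h : d 0 + d 1 < k then c ⟨⟨d 0 + d 1, h⟩, ⟨d 1, by simp⟩⟩ else 0
  map_add' f g := by
    funext d
    show (if h : d 0 + d 1 < k then (f + g) ⟨⟨d 0 + d 1, h⟩, ⟨d 1, by simp⟩⟩ else 0) =
      (if h : d 0 + d 1 < k then f ⟨⟨d 0 + d 1, h⟩, ⟨d 1, by simp⟩⟩ else 0) +
        (if h : d 0 + d 1 < k then g ⟨⟨d 0 + d 1, h⟩, ⟨d 1, by simp⟩⟩ else 0)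
    by_cases h : d 0 + d 1 < k <;> simp [h]
  map_smul' c f := by
    funext d
    show (if h : d 0 + d 1 < k then (c • f) ⟨⟨d 0 + d 1, h⟩, ⟨d 1, by simp⟩⟩ else 0) =
      c • (if h : d 0 + d 1 < k then f ⟨⟨d 0 + d 1, h⟩, ⟨d 1, by simp⟩⟩ else (0 : ℂ))
    by_cases h : d 0 + d 1 < k <;> simp [h]

theorem coeff_lf {k : ℕ} (c : T k → ℂ) (d : Fin 2 →₀ ℕ) :
    coeff d (lf k c) = if h : d 0 + d 1 < k then c ⟨⟨d 0 + d 1, h⟩, ⟨d 1, by simp⟩⟩ else 0 := rfl

theorem tr_lf {k : ℕ} (c : T k → ℂ) : tr k (lf k c) = c := by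
  ext ⟨⟨n, hn⟩, ⟨j, hj⟩⟩
  have hj' : j ≤ n := by simpa [Nat.lt_succ_iff] using hj
  show coeff (mon (n - j) j) (lf k c) = _
  rw [coeff_lf]
  have e : n - j + j = n := Nat.sub_add_cancel hj'
  have h : mon (n - j) j 0 + mon (n - j) j 1 < k := by simpa [e] using hn
  rw [dif_pos h]
  have key : ∀ (a b : ℕ) (ha : a < k) (hb : b < a + 1), a = n → b = j → c ⟨⟨a, ha⟩, ⟨b, hb⟩⟩ = c ⟨⟨n, hn⟩, ⟨j, hj⟩⟩ := by
    rintro a b ha hb rfl rfl
    rfl
  refine key _ _ _ _ ?_ ?_
  · simpa using e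
  · simp

theorem sub_lf_mem {k : ℕ} (f : R) : f - lf k (tr k f) ∈ M k := by
  rw [← tr_eq_zero, map_sub, tr_lf, sub_self]

/-! ## the transform -/

/-- the substitution `(x, y) = (x, x t)` -/
def B : R →ₐ[ℂ] R := substAlgHom (a := ![X 0, X 0 * X 1]) (hasSubst_of_constantCoeff_zero fun s => by fin_cases s <;> simp)

theorem coeff_B (f : R) (d : Fin 2 →₀ ℕ) : coeff d (B f) = if d 1 ≤ d 0 then coeff (mon (d 0 - d 1) (d 1)) f else 0 := by
  classical
  have ha : HasSubst (![X 0, X 0 * X 1] : Fin 2 → R) := hasSubst_of_constantCoeff_zero fun s => by fin_cases s <;> simp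
  have h1 : B f = subst (![X 0, X 0 * X 1] : Fin 2 → R) f := by
    rw [← coe_substAlgHom ha]
    rfl
  have h2 : ∀ e : Fin 2 →₀ ℕ, (e.prod fun s n => (![X 0, X 0 * X 1] : Fin 2 → R) s ^ n) = monomial (mon (e 0 + e 1) (e 1)) 1 := by
    intro e
    rw [Finsupp.prod_fintype _ _ (by simp), Fin.prod_univ_two]
    show (X 0 : R) ^ (e 0) * (X 0 * X 1) ^ (e 1) = _
    rw [mul_pow, X_pow_eq, X_pow_eq, X_pow_eq, monomial_mul_monomial, monomial_mul_monomial, mul_one, mul_one, mon, single_add, add_assoc]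
  rw [h1, coeff_subst ha]
  simp_rw [h2, coeff_monomial]
  by_cases h : d 1 ≤ d 0
  · rw [if_pos h, finsum_eq_single _ (mon (d 0 - d 1) (d 1))]
    · rw [if_pos, smul_eq_mul, mul_one]
      rw [mon_zero, mon_one, Nat.sub_add_cancel h]
      exact eq_mon d
    · intro e he
      rw [if_neg, smul_zero]
      intro h3
      apply he
      have h4 := DFunLike.congr_fun h3 0
      have h5 := DFunLike.congr_fun h3 1
      simp only [mon_zero, mon_one] at h4 h5
      rw [eq_mon e]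
      congr 1
      · omega
      · exact h5.symm
  · rw [if_neg h]
    refine (finsum_congr fun e => ?_).trans finsum_zero
    rw [if_neg, smul_zero]
    intro h3
    have h4 := DFunLike.congr_fun h3 0
    have h5 := DFunLike.congr_fun h3 1
    simp only [mon_zero, mon_one] at h4 h5
    omega

/-- the transform `f (x, x t) / x ^ k` of a series of order at least `k` -/
def ph (k : ℕ) : R →ₗ[ℂ] R where
  toFun f := fun d => if d 1 ≤ d 0 + k then coeff (mon (d 0 + k - d 1) (d 1)) f else 0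
  map_add' f g := by
    funext d
    show (if d 1 ≤ d 0 + k then coeff (mon (d 0 + k - d 1) (d 1)) (f + g) else 0) =
      (if d 1 ≤ d 0 + k then coeff (mon (d 0 + k - d 1) (d 1)) f else 0) + (if d 1 ≤ d 0 + k then coeff (mon (d 0 + k - d 1) (d 1)) g else 0)
    by_cases h : d 1 ≤ d 0 + k <;> simp [h]
  map_smul' c f := by
    funext d
    show (if d 1 ≤ d 0 + k then coeff (mon (d 0 + k - d 1) (d 1)) (c • f) else 0) =
      c • (if d 1 ≤ d 0 + k then coeff (mon (d 0 + k - d 1) (d 1)) f else 0)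
    by_cases h : d 1 ≤ d 0 + k <;> simp [h]

theorem coeff_ph (k : ℕ) (f : R) (d : Fin 2 →₀ ℕ) :
    coeff d (ph k f) = if d 1 ≤ d 0 + k then coeff (mon (d 0 + k - d 1) (d 1)) f else 0 := rfl

theorem coeff_X_pow_mul_mon (k : ℕ) (f : R) (d : Fin 2 →₀ ℕ) :
    coeff d ((X 0 : R) ^ k * f) = if k ≤ d 0 then coeff (mon (d 0 - k) (d 1)) f else 0 := by
  classical
  rw [X_pow_eq, coeff_monomial_mul]
  by_cases h : k ≤ d 0
  · rw [if_pos h, if_pos (by simpa using h), one_mul]
    congr 1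
    rw [eq_mon (d - single 0 k)]
    simp
  · rw [if_neg h, if_neg (by simpa using h)]

theorem B_eq {k : ℕ} {f : R} (hf : f ∈ M k) : B f = (X 0 : R) ^ k * ph k f := by
  ext d
  rw [coeff_B, coeff_X_pow_mul_mon]
  by_cases h : k ≤ d 0
  · rw [if_pos h, coeff_ph]
    simp only [mon_zero, mon_one, Nat.sub_add_cancel h]
  · rw [if_neg h]
    by_cases h' : d 1 ≤ d 0
    · rw [if_pos h']
      exact mem_M.1 hf _ _ (by omega)
    · rw [if_neg h']

theorem X_pow_ne (k : ℕ) : (X 0 : R) ^ k ≠ 0 := pow_ne_zero _ fun h => by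
  classical
  have := congrArg (coeff (single 0 1)) h
  rw [coeff_index_single_self_X] at this
  exact one_ne_zero this

theorem ph_mul {k l : ℕ} {f g : R} (hf : f ∈ M k) (hg : g ∈ M l) : ph (k + l) (f * g) = ph k f * ph l g := by
  apply mul_left_cancel₀ (X_pow_ne (k + l))
  rw [← B_eq (mul_mem_M hf hg), map_mul, B_eq hf, B_eq hg, pow_add]
  ring

theorem ph_mem {k K : ℕ} {f : R} (hf : f ∈ M (k + K)) : ph k f ∈ M K := by
  refine mem_M.2 fun i j hij => ?_
  rw [coeff_ph]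
  simp only [mon_zero, mon_one]
  split_ifs with h
  · exact mem_M.1 hf _ _ (by omega)
  · rfl

/-- the transform is onto, modulo series of high order -/
theorem exists_ph {k K : ℕ} (h : K ≤ k) (g : R) : ∃ f ∈ M k, ph k f - g ∈ M K := by
  refine ⟨fun d => if k ≤ d 0 + d 1 then coeff (mon (d 0 + d 1 - k) (d 1)) g else 0, ?_, ?_⟩
  · refine mem_M.2 fun i j hij => ?_
    show (if k ≤ mon i j 0 + mon i j 1 then _ else (0 : ℂ)) = 0
    rw [if_neg (by simpa using hij)]
  · refine mem_M.2 fun i j hij => ?_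
    rw [map_sub, coeff_ph]
    simp only [mon_zero, mon_one]
    rw [if_pos (by omega)]
    show (if k ≤ mon (i + k - j) j 0 + mon (i + k - j) j 1 then coeff (mon (mon (i + k - j) j 0 + mon (i + k - j) j 1 - k) (mon (i + k - j) j 1)) g
      else (0 : ℂ)) - _ = 0
    simp only [mon_zero, mon_one]
    rw [if_pos (by omega), show i + k - j + j - k = i by omega, sub_self]

theorem ph_lf {k : ℕ} (c : T k → ℂ) : ph k (lf k c) = 0 := by
  ext d
  rw [coeff_ph, coeff_lf]
  simp only [mon_zero, mon_one, map_zero]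
  split_ifs with h1 h2 <;> first | rfl | omega

end Pool.Agent.H74.SB

end
end

section

/-!
# SB Len: the colength of an ideal under a blow-up: `i (a, b) ≥ l ^ 2 + i (a', b')`
-/

set_option autoImplicit false

open MvPowerSeries Finsupp

noncomputable section

namespace Pool.Agent.H74.SB

/-- the dimension of `R / J` -/
def dim (J : Ideal R) : ℕ := Module.finrank ℂ (R ⧸ J.restrictScalars ℂ)

theorem finQ {J : Ideal R} {K : ℕ} (h : M K ≤ J) : Module.Finite ℂ (R ⧸ J.restrictScalars ℂ) := by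
  refine Module.Finite.of_surjective ((J.restrictScalars ℂ).mkQ ∘ₗ lf K) ?_
  intro q
  obtain ⟨f, rfl⟩ := (J.restrictScalars ℂ).mkQ_surjective q
  refine ⟨tr K f, ?_⟩
  rw [LinearMap.comp_apply, ← sub_eq_zero, ← map_sub]
  rw [← neg_sub, map_neg, neg_eq_zero, Submodule.mkQ_apply, Submodule.Quotient.mk_eq_zero]
  exact h (sub_lf_mem f)

theorem finrank_le_dim {J : Ideal R} {K : ℕ} (h : M K ≤ J) {V : Type*} [AddCommGroup V] [Module ℂ V] (φ : R →ₗ[ℂ] V)
    (hφ : Function.Surjective φ) (hJ : ∀ f ∈ J, φ f = 0) : Module.finrank ℂ V ≤ dim J := by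
  have := finQ h
  refine LinearMap.finrank_le_finrank_of_surjective (f := (J.restrictScalars ℂ).liftQ φ fun f hf => LinearMap.mem_ker.2 (hJ f hf)) ?_
  intro v
  obtain ⟨f, rfl⟩ := hφ v
  exact ⟨(J.restrictScalars ℂ).mkQ f, by simp⟩

theorem dim_mono {I J : Ideal R} {K : ℕ} (h : M K ≤ I) (hIJ : I ≤ J) : dim J ≤ dim I :=
  finrank_le_dim h _ (Submodule.mkQ_surjective _) fun f hf => by
    rw [Submodule.mkQ_apply, Submodule.Quotient.mk_eq_zero]
    exact hIJ hf

/-- the first half of the count -/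
theorem step1 {a b : R} {l k K : ℕ} (ha : a ∈ M l) (hb : b.order = l) (hk : 2 * l ≤ k) :
    dim (M (k - l) * Ideal.span {a, b} ⊔ M K) + Fintype.card (T (k - 2 * l)) ≤
      dim (Ideal.span {a, b} ⊔ M K) + 2 * Fintype.card (T (k - l)) := by
  set J : Ideal R := M (k - l) * Ideal.span {a, b} ⊔ M K with hJ
  have : Module.Finite ℂ (R ⧸ J.restrictScalars ℂ) := finQ (K := K) le_sup_right
  have ha' : a ∈ Ideal.span ({a, b} : Set R) := Ideal.subset_span (by simp)
  have hb' : b ∈ Ideal.span ({a, b} : Set R) := Ideal.subset_span (by simp)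
  -- the map `(α, β) ↦ α a + β b`
  let F0 : (T (k - l) → ℂ) × (T (k - l) → ℂ) →ₗ[ℂ] R :=
    (LinearMap.mulRight ℂ a ∘ₗ lf (k - l)).coprod (LinearMap.mulRight ℂ b ∘ₗ lf (k - l))
  have hF0 : ∀ p, F0 p = lf (k - l) p.1 * a + lf (k - l) p.2 * b := fun p => by simp [F0]
  let F : (T (k - l) → ℂ) × (T (k - l) → ℂ) →ₗ[ℂ] (R ⧸ J.restrictScalars ℂ) := (J.restrictScalars ℂ).mkQ ∘ₗ F0
  have hzero : ∀ f ∈ J, (J.restrictScalars ℂ).mkQ f = 0 := fun f hf => by
    rw [Submodule.mkQ_apply, Submodule.Quotient.mk_eq_zero]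
    exact hf
  -- the relations
  let G : (T (k - 2 * l) → ℂ) →ₗ[ℂ] (T (k - l) → ℂ) × (T (k - l) → ℂ) :=
    (tr (k - l) ∘ₗ LinearMap.mulRight ℂ b ∘ₗ lf (k - 2 * l)).prod (-(tr (k - l) ∘ₗ LinearMap.mulRight ℂ a ∘ₗ lf (k - 2 * l)))
  have hG1 : ∀ c, (G c).1 = tr (k - l) (lf (k - 2 * l) c * b) := fun c => by simp [G]
  have hG2 : ∀ c, (G c).2 = -tr (k - l) (lf (k - 2 * l) c * a) := fun c => by simp [G]
  have hGinj : Function.Injective G := by
    rw [injective_iff_map_eq_zero]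
    intro c hc
    have h1 := congrArg Prod.fst hc
    rw [hG1, Prod.fst_zero, tr_eq_zero] at h1
    have h2 : lf (k - 2 * l) c ∈ M (k - 2 * l) := mem_M_of_mul hb (by rwa [show k - 2 * l + l = k - l by omega])
    rw [← tr_eq_zero, tr_lf] at h2
    exact h2
  have hGF : ∀ c, F (G c) = 0 := by
    intro c
    set γ := lf (k - 2 * l) c
    have e1 : F0 (G c) = -((γ * b - lf (k - l) (tr (k - l) (γ * b))) * a) + (γ * a - lf (k - l) (tr (k - l) (γ * a))) * b := by
      rw [hF0, hG1, hG2, map_neg]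
      ring
    show (J.restrictScalars ℂ).mkQ (F0 (G c)) = 0
    rw [e1]
    apply hzero
    refine Ideal.mem_sup_left (Ideal.add_mem _ (Ideal.neg_mem_iff _ |>.2 ?_) ?_)
    · exact Ideal.mul_mem_mul (sub_lf_mem _) ha'
    · exact Ideal.mul_mem_mul (sub_lf_mem _) hb'
  have hker : Fintype.card (T (k - 2 * l)) ≤ Module.finrank ℂ (LinearMap.ker F) := by
    rw [← Module.finrank_fintype_fun_eq_card ℂ (η := T (k - 2 * l))]
    exact LinearMap.finrank_le_finrank_of_injective (f := G.codRestrict (LinearMap.ker F) hGF) (fun x y h => hGinj (congrArg Subtype.val h))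
  have hrn := LinearMap.finrank_range_add_finrank_ker F
  rw [Module.finrank_prod, Module.finrank_fintype_fun_eq_card] at hrn
  have hq := Submodule.finrank_quotient_add_finrank (LinearMap.range F)
  have hcok : Module.finrank ℂ ((R ⧸ J.restrictScalars ℂ) ⧸ LinearMap.range F) ≤ dim (Ideal.span {a, b} ⊔ M K) := by
    refine finrank_le_dim (K := K) le_sup_right ((LinearMap.range F).mkQ ∘ₗ (J.restrictScalars ℂ).mkQ)
      ((Submodule.mkQ_surjective _).comp (Submodule.mkQ_surjective _)) ?_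
    intro f hf
    obtain ⟨g, hg, h, hh, rfl⟩ := Submodule.mem_sup.1 hf
    obtain ⟨α, β, rfl⟩ := Ideal.mem_span_pair.1 hg
    rw [LinearMap.comp_apply, map_add, hzero h (Ideal.mem_sup_right hh), add_zero, Submodule.mkQ_apply _ ((J.restrictScalars ℂ).mkQ _),
      Submodule.Quotient.mk_eq_zero]
    refine ⟨(tr (k - l) α, tr (k - l) β), ?_⟩
    show (J.restrictScalars ℂ).mkQ (F0 _) = _
    rw [← sub_eq_zero, ← map_sub]
    apply hzero
    have e1 : F0 (tr (k - l) α, tr (k - l) β) - (α * a + β * b) =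
        -((α - lf (k - l) (tr (k - l) α)) * a) + -((β - lf (k - l) (tr (k - l) β)) * b) := by
      rw [hF0]
      ring
    rw [e1]
    refine Ideal.mem_sup_left (Ideal.add_mem _ (Ideal.neg_mem_iff _ |>.2 ?_) (Ideal.neg_mem_iff _ |>.2 ?_))
    · exact Ideal.mul_mem_mul (sub_lf_mem _) ha'
    · exact Ideal.mul_mem_mul (sub_lf_mem _) hb'
  show Module.finrank ℂ (R ⧸ J.restrictScalars ℂ) + _ ≤ _
  omega

/-- the second half of the count -/
theorem step2 {a b : R} {l k K : ℕ} (ha : a ∈ M l) (hb : b ∈ M l) (hlk : l ≤ k) (hk : K ≤ k) :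
    Fintype.card (T k) + dim (Ideal.span {ph l a, ph l b} ⊔ M K) ≤ dim (M (k - l) * Ideal.span {a, b} ⊔ M (k + K)) := by
  set I : Ideal R := Ideal.span {ph l a, ph l b} ⊔ M K with hI
  have : Module.Finite ℂ (R ⧸ I.restrictScalars ℂ) := finQ (K := K) le_sup_right
  have hzero : ∀ f ∈ I, (I.restrictScalars ℂ).mkQ f = 0 := fun f hf => by
    rw [Submodule.mkQ_apply, Submodule.Quotient.mk_eq_zero]
    exact hf
  let φ : R →ₗ[ℂ] (T k → ℂ) × (R ⧸ I.restrictScalars ℂ) := (tr k).prod ((I.restrictScalars ℂ).mkQ ∘ₗ ph k)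
  have hφ : ∀ f, φ f = (tr k f, (I.restrictScalars ℂ).mkQ (ph k f)) := fun f => rfl
  have hsurj : Function.Surjective φ := by
    rintro ⟨c, q⟩
    obtain ⟨g, rfl⟩ := (I.restrictScalars ℂ).mkQ_surjective q
    obtain ⟨h, hh, hhg⟩ := exists_ph hk g
    refine ⟨lf k c + h, ?_⟩
    rw [hφ, map_add, tr_lf, tr_eq_zero.2 hh, add_zero, map_add, ph_lf, zero_add]
    congr 1
    rw [← sub_eq_zero, ← map_sub]
    exact hzero _ (Ideal.mem_sup_right hhg)
  have h1 : Module.finrank ℂ ((T k → ℂ) × (R ⧸ I.restrictScalars ℂ)) ≤ dim (M (k - l) * Ideal.span {a, b} ⊔ M (k + K)) := by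
    refine finrank_le_dim (K := k + K) le_sup_right φ hsurj ?_
    intro f hf
    -- members of the first ideal
    have hgen : ∀ g ∈ M (k - l) * Ideal.span {a, b}, g ∈ M k ∧ ph k g ∈ Ideal.span {ph l a, ph l b} := by
      intro g hg
      refine Submodule.mul_induction_on hg ?_ ?_
      · intro m hm n hn
        obtain ⟨α, β, rfl⟩ := Ideal.mem_span_pair.1 hn
        have e : m * (α * a + β * b) = m * α * a + m * β * b := by ring
        have hmα : m * α ∈ M (k - l) := Ideal.mul_mem_right _ _ hm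
        have hmβ : m * β ∈ M (k - l) := Ideal.mul_mem_right _ _ hm
        have e2 : k - l + l = k := by omega
        have p1 := ph_mul hmα ha
        have p2 := ph_mul hmβ hb
        have q1 := mul_mem_M hmα ha
        have q2 := mul_mem_M hmβ hb
        rw [e2] at p1 p2 q1 q2
        rw [e]
        refine ⟨Ideal.add_mem _ q1 q2, ?_⟩
        rw [map_add, p1, p2]
        exact Ideal.mem_span_pair.2 ⟨_, _, rfl⟩
      · intro x y hx hy
        exact ⟨Ideal.add_mem _ hx.1 hy.1, by rw [map_add]; exact Ideal.add_mem _ hx.2 hy.2⟩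
    obtain ⟨g, hg, h, hh, rfl⟩ := Submodule.mem_sup.1 hf
    obtain ⟨hg1, hg2⟩ := hgen g hg
    rw [hφ, map_add, tr_eq_zero.2 hg1, tr_eq_zero.2 (M_anti (Nat.le_add_right _ _) hh), add_zero, map_add, map_add,
      hzero _ (Ideal.mem_sup_left hg2), hzero _ (Ideal.mem_sup_right (ph_mem hh)), add_zero]
    rfl
  rw [Module.finrank_prod, Module.finrank_fintype_fun_eq_card] at h1
  exact h1

/-- `i (a, b) ≥ l ^ 2 + i (a', b')`, with truncations -/
theorem dim_ph {a b : R} {l : ℕ} (ha : a ∈ M l) (hb : b.order = l) (K : ℕ) :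
    dim (Ideal.span {ph l a, ph l b} ⊔ M K) + l * l ≤ dim (Ideal.span {a, b} ⊔ M (K + 2 * l + K)) := by
  have h1 := step1 (K := K + 2 * l + K) ha hb (k := K + 2 * l) (by omega)
  have h2 := step2 (K := K) ha (mem_M_order.2 hb.ge) (k := K + 2 * l) (by omega) (by omega)
  have c1 := card_T (K + 2 * l)
  have c2 := card_T (K + l)
  have c3 := card_T K
  rw [show K + 2 * l - l = K + l by omega, show K + 2 * l - 2 * l = K by omega] at h1
  rw [show K + 2 * l - l = K + l by omega] at h2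
  nlinarith

end Pool.Agent.H74.SB

end
end

section

/-!
# SB Api: coefficients of formal power series in two variables, of their transforms by the blow-up and by the swap
-/

set_option autoImplicit false

open MvPowerSeries

noncomputable section

namespace Pool.Agent.SB

theorem ex_eq (d : Fin 2 →₀ ℕ) : ex (d 0) (d 1) = d := by
  ext i
  fin_cases i <;> simp [ex]

@[simp] theorem ex_zero (i j : ℕ) : ex i j 0 = i := by simp [ex]

@[simp] theorem ex_one (i j : ℕ) : ex i j 1 = j := by simp [ex]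

theorem ex_inj {i j k l : ℕ} : ex i j = ex k l ↔ i = k ∧ j = l := by
  constructor
  · intro h
    exact ⟨by simpa using DFunLike.congr_fun h 0, by simpa using DFunLike.congr_fun h 1⟩
  · rintro ⟨rfl, rfl⟩
    rfl

theorem ex_le {i j k l : ℕ} : ex i j ≤ ex k l ↔ i ≤ k ∧ j ≤ l := by
  constructor
  · intro h
    exact ⟨by simpa using h 0, by simpa using h 1⟩
  · rintro ⟨h0, h1⟩ s
    fin_cases s
    · simpa using h0
    · simpa using h1

theorem ex_sub (i j k l : ℕ) : ex i j - ex k l = ex (i - k) (j - l) := by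
  ext s
  fin_cases s <;> simp [ex]

theorem ex_add (i j k l : ℕ) : ex i j + ex k l = ex (i + k) (j + l) := by
  ext s
  fin_cases s <;> simp [ex]

theorem cf_ext {a b : R2} (h : ∀ i j, cf a i j = cf b i j) : a = b := by
  ext d
  have := h (d 0) (d 1)
  rwa [cf, cf, ex_eq] at this

theorem cf_add (a b : R2) (i j : ℕ) : cf (a + b) i j = cf a i j + cf b i j := by
  simp [cf]

theorem cf_sub (a b : R2) (i j : ℕ) : cf (a - b) i j = cf a i j - cf b i j := by
  simp [cf]

theorem cf_C_mul (t : ℂ) (a : R2) (i j : ℕ) : cf (C t * a) i j = t * cf a i j := by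
  simp [cf]

theorem cf_mul (a b : R2) (i j : ℕ) :
    cf (a * b) i j = ∑ p ∈ Finset.HasAntidiagonal.antidiagonal i, ∑ q ∈ Finset.HasAntidiagonal.antidiagonal j, cf a p.1 q.1 * cf b p.2 q.2 := by
  classical
  rw [cf, coeff_mul, ← Finset.sum_product']
  refine Finset.sum_bij' (fun p _ => ((p.1 0, p.2 0), (p.1 1, p.2 1))) (fun r _ => (ex r.1.1 r.2.1, ex r.1.2 r.2.2)) ?_ ?_ ?_ ?_ ?_
  · intro p hp
    rw [Finset.HasAntidiagonal.mem_antidiagonal] at hp
    simp only [Finset.mem_product, Finset.HasAntidiagonal.mem_antidiagonal]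
    exact ⟨by simpa using DFunLike.congr_fun hp 0, by simpa using DFunLike.congr_fun hp 1⟩
  · intro r hr
    simp only [Finset.mem_product, Finset.HasAntidiagonal.mem_antidiagonal] at hr
    rw [Finset.HasAntidiagonal.mem_antidiagonal, ex_add, hr.1, hr.2]
  · intro p _
    simp only [ex_eq]
  · intro r _
    simp
  · intro p _
    simp only [cf, ex_eq]

theorem cf_X0_pow_mul (n : ℕ) (a : R2) (i j : ℕ) : cf (X 0 ^ n * a) i j = if n ≤ i then cf a (i - n) j else 0 := by
  have h : (Finsupp.single (0 : Fin 2) n : Fin 2 →₀ ℕ) = ex n 0 := by simp [ex]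
  rw [cf, X_pow_eq, coeff_monomial_mul, h, ex_sub]
  by_cases hn : n ≤ i
  · rw [if_pos (ex_le.2 ⟨hn, Nat.zero_le _⟩), if_pos hn, one_mul, Nat.sub_zero, cf]
  · rw [if_neg (fun hh => hn (ex_le.1 hh).1), if_neg hn]

theorem cf_X0_mul (a : R2) (i j : ℕ) : cf (X 0 * a) i j = if 1 ≤ i then cf a (i - 1) j else 0 := by
  simpa using cf_X0_pow_mul 1 a i j

theorem cf_X1_pow_mul (n : ℕ) (a : R2) (i j : ℕ) : cf (X 1 ^ n * a) i j = if n ≤ j then cf a i (j - n) else 0 := by
  have h : (Finsupp.single (1 : Fin 2) n : Fin 2 →₀ ℕ) = ex 0 n := by simp [ex]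
  rw [cf, X_pow_eq, coeff_monomial_mul, h, ex_sub]
  by_cases hn : n ≤ j
  · rw [if_pos (ex_le.2 ⟨Nat.zero_le _, hn⟩), if_pos hn, one_mul, Nat.sub_zero, cf]
  · rw [if_neg (fun hh => hn (ex_le.1 hh).2), if_neg hn]

theorem cf_X1_mul (a : R2) (i j : ℕ) : cf (X 1 * a) i j = if 1 ≤ j then cf a i (j - 1) else 0 := by
  simpa using cf_X1_pow_mul 1 a i j

theorem X0_pow_dvd_iff (n : ℕ) (a : R2) : X 0 ^ n ∣ a ↔ ∀ i j, i < n → cf a i j = 0 := by
  rw [X_pow_dvd_iff]
  constructor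
  · intro h i j hi
    exact h _ (by simpa using hi)
  · intro h d hd
    have := h (d 0) (d 1) hd
    rwa [cf, ex_eq] at this

theorem X0_dvd_iff (a : R2) : X 0 ∣ a ↔ ∀ j, cf a 0 j = 0 := by
  rw [← pow_one (X 0 : R2), X0_pow_dvd_iff]
  constructor
  · intro h j
    exact h 0 j one_pos
  · intro h i j hi
    obtain rfl : i = 0 := by omega
    exact h j

theorem cf_sw (a : R2) (i j : ℕ) : cf (sw a) i j = cf a j i := by
  have h : ex i j = Finsupp.embDomain (Equiv.swap (0 : Fin 2) 1).toEmbedding (ex j i) := by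
    rw [Finsupp.embDomain_eq_mapDomain]
    simp only [ex, Finsupp.mapDomain_add, Finsupp.mapDomain_single, Equiv.coe_toEmbedding, Equiv.swap_apply_left, Equiv.swap_apply_right]
    rw [add_comm]
  rw [cf, cf, h]
  exact coeff_embDomain_rename (Equiv.swap (0 : Fin 2) 1).toEmbedding a (ex j i)

theorem sw_sw (a : R2) : sw (sw a) = a := cf_ext fun i j => by rw [cf_sw, cf_sw]

theorem ord_sw {l : ℕ} {a : R2} : Ord l (sw a) ↔ Ord l a := by
  constructor
  · intro h i j hij
    rw [← cf_sw]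
    exact h j i (by omega)
  · intro h i j hij
    rw [cf_sw]
    exact h j i (by omega)

/-- the coefficients of the powers of `y + t` -/
theorem cf_pow_add (t : ℂ) (n i j : ℕ) : cf ((X 1 + C t : R2) ^ n) i j = if i = 0 then (n.choose j : ℂ) * t ^ (n - j) else 0 := by
  induction n generalizing i j with
  | zero =>
    rw [pow_zero, cf, coeff_one]
    by_cases hi : i = 0
    · subst hi
      by_cases hj : j = 0
      · subst hj
        have : ex 0 0 = 0 := by simp [ex]
        simp [this]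
      · have : ex 0 j ≠ 0 := fun h => hj (by simpa using DFunLike.congr_fun h 1)
        obtain ⟨k, rfl⟩ := Nat.exists_eq_succ_of_ne_zero hj
        simp [this]
    · have : ex i j ≠ 0 := fun h => hi (by simpa using DFunLike.congr_fun h 0)
      simp [this, hi]
  | succ n ih =>
    rw [pow_succ', add_mul, cf_add, cf_X1_mul, cf_C_mul, ih, ih]
    by_cases hi : i = 0
    · subst hi
      rcases Nat.eq_zero_or_pos j with rfl | hj
      · simp only [if_true, Nat.choose_zero_right, Nat.cast_one, one_mul, Nat.sub_zero]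
        simp [pow_succ']
      · obtain ⟨k, rfl⟩ : ∃ k, j = k + 1 := ⟨j - 1, by omega⟩
        rw [Nat.choose_succ_succ', Nat.cast_add, Nat.add_sub_cancel, show n + 1 - (k + 1) = n - k by omega]
        simp only [if_true, le_add_iff_nonneg_left, Nat.zero_le]
        by_cases hk : k + 1 ≤ n
        · have : t ^ (n - k) = t * t ^ (n - (k + 1)) := by
            rw [← pow_succ']
            congr 1
            omega
          rw [this]
          ring
        · rw [Nat.choose_eq_zero_of_lt (by omega : n < k + 1)]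
          simp
    · simp [hi]

/-- the coefficients of the blow-up -/
theorem cf_bl (t : ℂ) (a : R2) (i j : ℕ) :
    cf (bl t a) i j = ∑ k ∈ Finset.range (i + 1), cf a (i - k) k * (k.choose j : ℂ) * t ^ (k - j) := by
  classical
  have hterm : ∀ d : Fin 2 →₀ ℕ, coeff (ex i j) (d.prod fun s e => ((![X 0, X 0 * (X 1 + C t)] : Fin 2 → R2) s) ^ e) =
      if d 0 + d 1 = i then ((d 1).choose j : ℂ) * t ^ (d 1 - j) else 0 := by
    intro d
    have h1 : (d.prod fun s e => ((![X 0, X 0 * (X 1 + C t)] : Fin 2 → R2) s) ^ e) = X 0 ^ (d 0 + d 1) * (X 1 + C t) ^ (d 1) := by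
      rw [Finsupp.prod_fintype _ _ (fun s => pow_zero _), Fin.prod_univ_two]
      simp only [Matrix.cons_val_zero, Matrix.cons_val_one]
      rw [mul_pow, pow_add]
      ring
    rw [h1]
    have h2 := cf_X0_pow_mul (d 0 + d 1) ((X 1 + C t : R2) ^ (d 1)) i j
    rw [cf] at h2
    rw [h2]
    by_cases h : d 0 + d 1 = i
    · rw [if_pos h.le, if_pos h, cf_pow_add, if_pos (by omega)]
    · by_cases h' : d 0 + d 1 ≤ i
      · rw [if_pos h', if_neg h, cf_pow_add, if_neg (by omega)]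
      · rw [if_neg h', if_neg h]
  rw [cf, bl, substAlgHom_apply, coeff_subst (hasSubst_bl t)]
  have hinj : Set.InjOn (fun k : ℕ => ex (i - k) k) (Finset.range (i + 1) : Set ℕ) := fun k _ l _ h => (ex_inj.1 h).2
  rw [finsum_eq_sum_of_support_subset (s := (Finset.range (i + 1)).image fun k => ex (i - k) k)]
  · rw [Finset.sum_image (fun k hk l hl h => hinj hk hl h)]
    refine Finset.sum_congr rfl fun k hk => ?_
    rw [Finset.mem_range] at hk
    rw [hterm]
    have h3 : ex (i - k) k 0 + ex (i - k) k 1 = i := by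
      rw [ex_zero, ex_one]
      omega
    rw [if_pos h3, ex_one, smul_eq_mul, cf]
    ring
  · intro d hd
    rw [Function.mem_support, hterm] at hd
    have h4 : d 0 + d 1 = i := by
      by_contra h
      rw [if_neg h, smul_zero] at hd
      exact hd rfl
    rw [Finset.mem_coe, Finset.mem_image]
    refine ⟨d 1, Finset.mem_range.2 (by omega), ?_⟩
    rw [show i - d 1 = d 0 by omega, ex_eq]

/-- the coefficients of the strict transform -/
theorem cf_of_bl {t : ℂ} {l : ℕ} {a u : R2} (h : X 0 ^ l * u = bl t a) (i j : ℕ) :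
    cf u i j = ∑ k ∈ Finset.range (i + l + 1), cf a (i + l - k) k * (k.choose j : ℂ) * t ^ (k - j) := by
  rw [← cf_bl t a (i + l) j, ← h, cf_X0_pow_mul, if_pos (Nat.le_add_left _ _), Nat.add_sub_cancel]

/-- the strict transform exists -/
theorem exists_bl (t : ℂ) {l : ℕ} {a : R2} (h : Ord l a) : ∃ u, X 0 ^ l * u = bl t a := by
  have : X 0 ^ l ∣ bl t a := by
    rw [X0_pow_dvd_iff]
    intro i j hi
    rw [cf_bl]
    refine Finset.sum_eq_zero fun k hk => ?_
    rw [Finset.mem_range] at hk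
    rw [h (i - k) k (by omega)]
    simp
  obtain ⟨u, hu⟩ := this
  exact ⟨u, hu.symm⟩

/-- on the exceptional line it is a polynomial of degree at most `l` -/
theorem cf_zero_of_bl {t : ℂ} {l : ℕ} {a u : R2} (h : X 0 ^ l * u = bl t a) {j : ℕ} (hj : l < j) : cf u 0 j = 0 := by
  rw [cf_of_bl h]
  refine Finset.sum_eq_zero fun k hk => ?_
  rw [Finset.mem_range] at hk
  rw [Nat.choose_eq_zero_of_lt (by omega : k < j)]
  simp

/-- its leading part vanishes only if the order is bigger -/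
theorem ord_succ_of_dvd {t : ℂ} {l : ℕ} {a u : R2} (ha : Ord l a) (h : X 0 ^ l * u = bl t a) (hu : X 0 ∣ u) : Ord (l + 1) a := by
  rw [X0_dvd_iff] at hu
  have key : ∀ n j : ℕ, l - n ≤ j → j ≤ l → cf a (l - j) j = 0 := by
    intro n
    induction n with
    | zero =>
      intro j h1 h2
      obtain rfl : j = l := by omega
      have h3 := hu j
      rw [cf_of_bl h, Finset.sum_eq_single j] at h3
      · simpa using h3
      · intro k hk hkj
        rw [Finset.mem_range] at hk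
        rw [Nat.choose_eq_zero_of_lt (by omega : k < j)]
        simp
      · intro hj
        exact absurd (Finset.mem_range.2 (by omega)) hj
    | succ n ih =>
      intro j h1 h2
      by_cases h3 : l - n ≤ j
      · exact ih j h3 h2
      have h4 := hu j
      rw [cf_of_bl h, Finset.sum_eq_single j] at h4
      · simpa using h4
      · intro k hk hkj
        rw [Finset.mem_range] at hk
        rcases lt_or_gt_of_ne hkj with h5 | h5
        · rw [Nat.choose_eq_zero_of_lt h5]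
          simp
        · rw [Nat.zero_add, ih k (by omega) (by omega)]
          simp
      · intro hj
        exact absurd (Finset.mem_range.2 (by omega)) hj
  intro i j hij
  by_cases h1 : i + j < l
  · exact ha i j h1
  have h2 := key l j (by omega) (by omega)
  rwa [show l - j = i by omega] at h2

end Pool.Agent.SB

end
end

section

/-!
# SB Blow: the multiplicity of the strict transforms
-/

set_option autoImplicit false

open MvPowerSeries

noncomputable section

namespace Pool.Agent.SB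

open Pool.Agent.H74.SB (M mem_M mem_M_order B B_eq ph dim finQ finrank_le_dim dim_ph dim_mono mul_mem_M mem_M_of_mul mon)

namespace Blow

theorem M_succ_le (K : ℕ) : M (K + 1) ≤ M 1 * M K := by
  intro f hf
  let g : R2 := fun d => coeff (d + Finsupp.single 0 1) f
  have hg : ∀ d, coeff d g = coeff (d + Finsupp.single 0 1) f := fun d => rfl
  have hgM : g ∈ M K := by
    refine mem_M.2 fun i j hij => ?_
    rw [hg]
    have e : mon i j + Finsupp.single 0 1 = mon (i + 1) j := by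
      rw [mon, mon, Finsupp.single_add]
      abel
    rw [e]
    exact mem_M.1 hf _ _ (by omega)
  have hX0 : (X 0 : R2) ∈ M 1 := by
    refine mem_M.2 fun i j hij => ?_
    have h1 : i = 0 := by omega
    have h2 : j = 0 := by omega
    subst h1 h2
    simp [mon]
  have hX1 : (X 1 : R2) ∈ M 1 := by
    refine mem_M.2 fun i j hij => ?_
    have h1 : i = 0 := by omega
    have h2 : j = 0 := by omega
    subst h1 h2
    simp [mon]
  obtain ⟨h, hh⟩ : (X 1 : R2) ∣ f - X 0 * g := by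
    refine X_dvd_iff.2 fun d hd => ?_
    rw [map_sub]
    by_cases h0 : d 0 = 0
    · have e : d = mon 0 0 := by rw [Pool.Agent.H74.SB.eq_mon d, h0, hd]
      have h1 : coeff d f = 0 := by rw [e]; exact mem_M.1 hf _ _ (by omega)
      have h2 : coeff d (X 0 * g) = 0 := by
        have := Pool.Agent.H74.SB.coeff_X_pow_mul_mon 1 g d
        rw [pow_one] at this
        rw [this, if_neg (by omega)]
      rw [h1, h2, sub_zero]
    · have := Pool.Agent.H74.SB.coeff_X_pow_mul_mon 1 g d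
      rw [pow_one] at this
      rw [this, if_pos (by omega), hg, sub_eq_zero]
      have e : mon (d 0 - 1) (d 1) + Finsupp.single 0 1 = mon (d 0 - 1 + 1) (d 1) := by
        rw [mon, mon, Finsupp.single_add]
        abel
      rw [e, Nat.sub_add_cancel (by omega), ← Pool.Agent.H74.SB.eq_mon d]
  have hX1o : (X 1 : R2).order = (1 : ℕ) := by
    classical
    refine le_antisymm ?_ hX1
    have : coeff (Finsupp.single 1 1) (X 1 : R2) ≠ 0 := by
      rw [coeff_index_single_self_X]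
      exact one_ne_zero
    simpa using order_le this
  have hhM : h ∈ M K := by
    refine mem_M_of_mul hX1o ?_
    rw [mul_comm, ← hh]
    exact Ideal.sub_mem _ hf (by rw [add_comm]; exact mul_mem_M hX0 hgM)
  have e : f = X 0 * g + X 1 * h := by rw [← hh]; ring
  rw [e]
  exact Ideal.add_mem _ (Ideal.mul_mem_mul hX0 hgM) (Ideal.mul_mem_mul hX1 hhM)

theorem M_eq_pow (K : ℕ) : M K = M 1 ^ K := by
  induction K with
  | zero =>
    rw [pow_zero, Ideal.one_eq_top]
    refine eq_top_iff.2 fun f _ => mem_M.2 fun i j hij => by omega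
  | succ K ih =>
    rw [pow_succ', ← ih]
    refine le_antisymm (M_succ_le K) (Ideal.mul_le.2 fun a ha b hb => ?_)
    rw [add_comm]
    exact mul_mem_M ha hb

theorem M_one_eq : M 1 = Ideal.span {X 0, X 1} := by
  refine le_antisymm ?_ ?_
  · intro f hf
    have h1 := M_succ_le 0 hf
    -- repeat the decomposition
    obtain ⟨g, hg⟩ : ∃ g : R2, X 1 ∣ f - X 0 * g := by
      refine ⟨fun d => coeff (d + Finsupp.single 0 1) f, ?_⟩
      refine X_dvd_iff.2 fun d hd => ?_
      rw [map_sub]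
      have key := Pool.Agent.H74.SB.coeff_X_pow_mul_mon 1 (fun d => coeff (d + Finsupp.single 0 1) f : R2) d
      rw [pow_one] at key
      rw [key]
      by_cases h0 : d 0 = 0
      · have e : d = mon 0 0 := by rw [Pool.Agent.H74.SB.eq_mon d, h0, hd]
        rw [if_neg (by omega), sub_zero, e]
        exact mem_M.1 hf _ _ (by omega)
      · rw [if_pos (by omega), sub_eq_zero]
        show coeff d f = coeff (mon (d 0 - 1) (d 1) + Finsupp.single 0 1) f
        have e : mon (d 0 - 1) (d 1) + Finsupp.single 0 1 = mon (d 0 - 1 + 1) (d 1) := by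
          rw [mon, mon, Finsupp.single_add]
          abel
        rw [e, Nat.sub_add_cancel (by omega), ← Pool.Agent.H74.SB.eq_mon d]
    obtain ⟨h, hh⟩ := hg
    exact Ideal.mem_span_pair.2 ⟨g, h, by rw [mul_comm h, ← hh]; ring⟩
  · rw [Ideal.span_le]
    rintro f (rfl | rfl)
    · refine mem_M.2 fun i j hij => ?_
      have h1 : i = 0 := by omega
      have h2 : j = 0 := by omega
      subst h1 h2
      simp [mon]
    · refine mem_M.2 fun i j hij => ?_
      have h1 : i = 0 := by omega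
      have h2 : j = 0 := by omega
      subst h1 h2
      simp [mon]

/-! ## the linear change -/

theorem hasSubst_L (t : ℂ) : HasSubst (S := ℂ) (![X 0, X 1 + C t * X 0] : Fin 2 → R2) :=
  hasSubst_of_constantCoeff_zero fun i => by fin_cases i <;> simp

/-- `f (x, y) ↦ f (x, y + t x)` -/
def L (t : ℂ) : R2 →ₐ[ℂ] R2 := substAlgHom (hasSubst_L t)

theorem L_X0 (t : ℂ) : L t (X 0) = X 0 := by
  rw [L, substAlgHom_X]
  rfl

theorem L_X1 (t : ℂ) : L t (X 1) = X 1 + C t * X 0 := by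
  rw [L, substAlgHom_X]
  rfl

theorem L_C (t c : ℂ) : L t (C c) = C c := by
  have : (C c : R2) = algebraMap ℂ R2 c := by rw [MvPowerSeries.algebraMap_apply]; rfl
  rw [this, AlgHom.commutes]

theorem B_X0 : B (X 0) = X 0 := by
  unfold B
  rw [substAlgHom_X]
  rfl

theorem B_X1 : B (X 1) = X 0 * X 1 := by
  unfold B
  rw [substAlgHom_X]
  rfl

theorem B_L (t : ℂ) (f : R2) : B (L t f) = bl t f := by
  have ha := hasSubst_L t
  have hb : HasSubst (![X 0, X 0 * X 1] : Fin 2 → R2) := hasSubst_of_constantCoeff_zero fun s => by fin_cases s <;> simp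
  have h1 : ∀ g, B g = subst (![X 0, X 0 * X 1] : Fin 2 → R2) g := fun g => by
    rw [← coe_substAlgHom hb]
    rfl
  have h2 : L t f = subst (![X 0, X 1 + C t * X 0] : Fin 2 → R2) f := by
    rw [← coe_substAlgHom ha]
    rfl
  have h3 : bl t f = subst (![X 0, X 0 * (X 1 + C t)] : Fin 2 → R2) f := by
    rw [← coe_substAlgHom (hasSubst_bl t)]
    rfl
  rw [h1, h2, h3, subst_comp_subst_apply ha hb]
  congr 1
  funext i
  rw [← h1]
  fin_cases i
  · exact B_X0
  · show B (X 1 + C t * X 0) = X 0 * (X 1 + C t)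
    have hC : B (C t) = C t := by
      have : (C t : R2) = algebraMap ℂ R2 t := by rw [MvPowerSeries.algebraMap_apply]; rfl
      rw [this, AlgHom.commutes]
    rw [map_add, map_mul, hC, B_X0, B_X1]
    ring

theorem L_L (s t : ℂ) (f : R2) : L s (L t f) = L (s + t) f := by
  have ha := hasSubst_L t
  have hb := hasSubst_L s
  have h : ∀ (r : ℂ) (g : R2), L r g = subst (![X 0, X 1 + C r * X 0] : Fin 2 → R2) g := fun r g => by
    rw [← coe_substAlgHom (hasSubst_L r)]
    rfl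
  rw [h s, h t, h (s + t), subst_comp_subst_apply ha hb]
  congr 1
  funext i
  rw [← h]
  fin_cases i
  · exact L_X0 s
  · show L s (X 1 + C t * X 0) = X 1 + C (s + t) * X 0
    rw [map_add, map_mul, L_C, L_X0, L_X1, map_add]
    ring

theorem L_zero (f : R2) : L 0 f = f := by
  have h : L 0 f = subst (![X 0, X 1 + C (0 : ℂ) * X 0] : Fin 2 → R2) f := by
    rw [← coe_substAlgHom (hasSubst_L 0)]
    rfl
  rw [h]
  have e : (![X 0, X 1 + C (0 : ℂ) * X 0] : Fin 2 → R2) = X := by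
    funext i
    fin_cases i
    · rfl
    · show X 1 + C (0 : ℂ) * X 0 = X 1
      rw [map_zero, zero_mul, add_zero]
  rw [e, subst_self]
  rfl

/-- the automorphism -/
def LE (t : ℂ) : R2 ≃ₐ[ℂ] R2 :=
  AlgEquiv.ofAlgHom (L t) (L (-t)) (by ext1 f; simp [L_L, L_zero]) (by ext1 f; simp [L_L, L_zero])

theorem L_mem {t : ℂ} {k : ℕ} {f : R2} (hf : f ∈ M k) : L t f ∈ M k := by
  have h1 : Ideal.map (L t) (M 1) ≤ M 1 := by
    conv_lhs => rw [M_one_eq]
    rw [Ideal.map_span, Ideal.span_le]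
    rintro _ ⟨g, rfl | rfl, rfl⟩
    · rw [L_X0, M_one_eq]
      exact Ideal.subset_span (by simp)
    · rw [L_X1, M_one_eq]
      exact Ideal.add_mem _ (Ideal.subset_span (by simp)) (Ideal.mul_mem_left _ _ (Ideal.subset_span (by simp)))
  rw [M_eq_pow] at hf ⊢
  have h2 := Ideal.mem_map_of_mem (L t) hf
  rw [Ideal.map_pow] at h2
  exact Ideal.pow_right_mono h1 k h2

theorem L_mem_iff {t : ℂ} {k : ℕ} {f : R2} : L t f ∈ M k ↔ f ∈ M k :=
  ⟨fun h => by simpa [L_L, L_zero] using L_mem (t := -t) h, L_mem⟩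

/-! ## colengths -/

theorem dim_eq_finrank (J : Ideal R2) : dim J = Module.finrank ℂ (R2 ⧸ J) :=
  (Submodule.Quotient.restrictScalarsEquiv ℂ J).finrank_eq

theorem dim_le_finrank {I J : Ideal R2} (hIJ : I ≤ J) (hf : Module.Finite ℂ (R2 ⧸ I)) : dim J ≤ Module.finrank ℂ (R2 ⧸ I) := by
  rw [dim_eq_finrank]
  refine LinearMap.finrank_le_finrank_of_surjective (f := (Ideal.Quotient.factorₐ ℂ hIJ).toLinearMap) ?_
  exact Ideal.Quotient.factor_surjective hIJ

/-- Nakayama -/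
theorem fin_of_bdd {I : Ideal R2} {m : ℕ} (h : ∀ K, dim (I ⊔ M K) ≤ m) : Module.Finite ℂ (R2 ⧸ I) ∧ Module.finrank ℂ (R2 ⧸ I) ≤ m := by
  have hmono : ∀ K, dim (I ⊔ M K) ≤ dim (I ⊔ M (K + 1)) := fun K =>
    dim_mono (K := K + 1) le_sup_right (sup_le_sup_left (Pool.Agent.H74.SB.M_anti (Nat.le_succ K)) _)
  obtain ⟨K, hK⟩ : ∃ K, dim (I ⊔ M K) = dim (I ⊔ M (K + 1)) := by
    by_contra hcon
    push Not at hcon
    have hK : ∀ K, K ≤ dim (I ⊔ M K) := by
      intro K
      induction K with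
      | zero => exact Nat.zero_le _
      | succ K ih => exact lt_of_le_of_lt ih (lt_of_le_of_ne (hmono K) (hcon K))
    have := (hK (m + 1)).trans (h (m + 1))
    omega
  have h1 : M K ≤ I ⊔ M (K + 1) := by
    have hfin : Module.Finite ℂ (R2 ⧸ (I ⊔ M (K + 1)).restrictScalars ℂ) := finQ (K := K + 1) le_sup_right
    have hfin' : Module.Finite ℂ (R2 ⧸ (I ⊔ M K).restrictScalars ℂ) := finQ (K := K) le_sup_right
    have hle : (I ⊔ M (K + 1)).restrictScalars ℂ ≤ (I ⊔ M K).restrictScalars ℂ :=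
      sup_le_sup_left (Pool.Agent.H74.SB.M_anti (Nat.le_succ K)) _
    let φ := ((I ⊔ M (K + 1)).restrictScalars ℂ).liftQ ((I ⊔ M K).restrictScalars ℂ).mkQ (by rwa [Submodule.ker_mkQ])
    have hφ : Function.Surjective φ := by
      intro q
      obtain ⟨f, rfl⟩ := Submodule.mkQ_surjective _ q
      exact ⟨((I ⊔ M (K + 1)).restrictScalars ℂ).mkQ f, by simp [φ]⟩
    have hinj : Function.Injective φ := (LinearMap.injective_iff_surjective_of_finrank_eq_finrank hK.symm).2 hφ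
    intro f hf
    have h2 : φ (((I ⊔ M (K + 1)).restrictScalars ℂ).mkQ f) = 0 := by
      have : φ (((I ⊔ M (K + 1)).restrictScalars ℂ).mkQ f) = ((I ⊔ M K).restrictScalars ℂ).mkQ f := by simp [φ]
      rw [this, Submodule.mkQ_apply, Submodule.Quotient.mk_eq_zero]
      exact Ideal.mem_sup_right hf
    have h3 := hinj (h2.trans (map_zero φ).symm)
    rw [Submodule.mkQ_apply, Submodule.Quotient.mk_eq_zero] at h3
    exact h3
  have h2 : M K ≤ I := by
    refine Submodule.le_of_le_smul_of_le_jacobson_bot (I := M 1) (IsNoetherian.noetherian _) ?_ (h1.trans (sup_le_sup_left (M_succ_le K) _))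
    rw [IsLocalRing.jacobson_eq_maximalIdeal ⊥ bot_ne_top]
    refine IsLocalRing.le_maximalIdeal fun htop => ?_
    have h3 : (1 : R2) ∈ M 1 := htop ▸ Submodule.mem_top
    have h4 := mem_M.1 h3 0 0 (by omega)
    simp [mon] at h4
  have h3 : I ⊔ M K = I := sup_eq_left.2 h2
  have hfin : Module.Finite ℂ (R2 ⧸ I.restrictScalars ℂ) := finQ h2
  refine ⟨Module.Finite.equiv (Submodule.Quotient.restrictScalarsEquiv ℂ I), ?_⟩
  rw [← dim_eq_finrank, ← h3]
  exact h K

theorem ord_iff {l : ℕ} {a : R2} : Ord l a ↔ a ∈ M l := by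
  rw [mem_M]
  rfl

theorem order_eq {l : ℕ} {b : R2} (h1 : b ∈ M l) (h2 : b ∉ M (l + 1)) : b.order = l := by
  rw [mem_M_order] at h1 h2
  refine le_antisymm ?_ h1
  rw [not_le] at h2
  push_cast at h2
  exact (ENat.lt_add_one_iff (by simp)).1 h2

theorem fin_L {t : ℂ} {a b : R2} (h : Fin2 a b) : Module.Finite ℂ (R2 ⧸ Ideal.span {L t a, L t b}) ∧
    Module.finrank ℂ (R2 ⧸ Ideal.span {L t a, L t b}) = mu a b := by
  have e : Ideal.span {L t a, L t b} = Ideal.map ((LE t : R2 ≃ₐ[ℂ] R2) : R2 →+* R2) (Ideal.span {a, b}) := by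
    rw [Ideal.map_span, Set.image_pair]
    rfl
  let E := Ideal.quotientEquivAlg (Ideal.span {a, b}) (Ideal.span {L t a, L t b}) (LE t) e
  have hf : Module.Finite ℂ (R2 ⧸ Ideal.span {a, b}) := h
  exact ⟨Module.Finite.equiv E.toLinearEquiv, E.toLinearEquiv.finrank_eq.symm⟩

theorem core {a b u v : R2} {t : ℂ} {l : ℕ} (hf : Fin2 a b) (ha : a ∈ M l) (hb : b ∈ M l) (hl : b ∉ M (l + 1))
    (hu : X 0 ^ l * u = bl t a) (hv : X 0 ^ l * v = bl t b) : Fin2 u v ∧ mu u v + l * l ≤ mu a b := by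
  have hu' : u = ph l (L t a) := by
    apply mul_left_cancel₀ (Pool.Agent.H74.SB.X_pow_ne l)
    rw [hu, ← B_L, B_eq (L_mem ha)]
  have hv' : v = ph l (L t b) := by
    apply mul_left_cancel₀ (Pool.Agent.H74.SB.X_pow_ne l)
    rw [hv, ← B_L, B_eq (L_mem hb)]
  obtain ⟨hfin, hmu⟩ := fin_L (t := t) hf
  have hor : (L t b).order = l := order_eq (L_mem hb) (fun h => hl (L_mem_iff.1 h))
  have key : ∀ K, dim (Ideal.span {u, v} ⊔ M K) + l * l ≤ mu a b := by
    intro K
    rw [hu', hv', ← hmu]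
    exact (dim_ph (L_mem ha) hor K).trans (dim_le_finrank le_sup_left hfin)
  have hle : l * l ≤ mu a b := (Nat.le_add_left _ _).trans (key 0)
  have h1 := fin_of_bdd (I := Ideal.span {u, v}) (m := mu a b - l * l) fun K => by
    have := key K
    omega
  refine ⟨h1.1, ?_⟩
  have h2 : mu u v ≤ mu a b - l * l := h1.2
  omega

end Blow

open Blow

theorem mu_blow {a b u v : R2} {t : ℂ} {l : ℕ} (hf : Fin2 a b) (ha : Ord l a) (hb : Ord l b) (hl : ¬ (Ord (l + 1) a ∧ Ord (l + 1) b))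
    (hu : X 0 ^ l * u = bl t a) (hv : X 0 ^ l * v = bl t b) : Fin2 u v ∧ mu u v + l * l ≤ mu a b := by
  rw [ord_iff] at ha hb
  rw [ord_iff, ord_iff] at hl
  by_cases h : b ∈ M (l + 1)
  · have h1 : a ∉ M (l + 1) := fun h2 => hl ⟨h2, h⟩
    have e : ∀ p q : R2, ({p, q} : Set R2) = {q, p} := fun p q => Set.pair_comm p q
    unfold Fin2 mu at *
    rw [e u v, e a b]
    rw [e a b] at hf
    exact core hf hb ha h1 hv hu
  · exact core hf ha hb h hu hv

end Pool.Agent.SB

end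
end

section

/-!
# SB Mu: intersection multiplicities
-/

set_option autoImplicit false

open MvPowerSeries

noncomputable section

namespace Pool.Agent.SB

/-! ### coefficients -/

theorem Mu.ex_zero (i j : ℕ) : ex i j 0 = i := by simp [ex]

theorem Mu.ex_one (i j : ℕ) : ex i j 1 = j := by simp [ex]

theorem Mu.eq_ex (e : Fin 2 →₀ ℕ) : e = ex (e 0) (e 1) := by
  ext i
  fin_cases i
  · simp [ex]
  · simp [ex]

/-- the series with given coefficients -/
def Mu.mk (F : ℕ → ℕ → ℂ) : R2 := fun e => F (e 0) (e 1)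

theorem Mu.cf_mk (F : ℕ → ℕ → ℂ) (i j : ℕ) : cf (Mu.mk F) i j = F i j := by
  show F (ex i j 0) (ex i j 1) = _
  rw [Mu.ex_zero, Mu.ex_one]

theorem Mu.ext {a b : R2} (h : ∀ i j, cf a i j = cf b i j) : a = b := by
  ext e
  rw [Mu.eq_ex e]
  exact h _ _

theorem Mu.cf_monomial_mul (p q : ℕ) (z : ℂ) (a : R2) (i j : ℕ) :
    cf (monomial (ex p q) z * a) i j = if p ≤ i ∧ q ≤ j then z * cf a (i - p) (j - q) else 0 := by
  unfold cf
  rw [coeff_monomial_mul]
  have h1 : ex p q ≤ ex i j ↔ p ≤ i ∧ q ≤ j := by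
    constructor
    · intro h
      have h0 := h 0
      have h1 := h 1
      rw [Mu.ex_zero, Mu.ex_zero] at h0
      rw [Mu.ex_one, Mu.ex_one] at h1
      exact ⟨h0, h1⟩
    · rintro ⟨h0, h1⟩ k
      fin_cases k
      · simpa [ex] using h0
      · simpa [ex] using h1
  have h2 : ex i j - ex p q = ex (i - p) (j - q) := by
    ext k
    fin_cases k
    · simp [ex]
    · simp [ex]
  rw [h2]
  by_cases h : p ≤ i ∧ q ≤ j
  · rw [if_pos h, if_pos (h1.2 h)]
  · rw [if_neg h, if_neg (mt h1.1 h)]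

theorem Mu.X0_pow (n : ℕ) : (X 0 ^ n : R2) = monomial (ex n 0) 1 := by
  rw [X_pow_eq]
  congr 1
  simp [ex]

theorem Mu.X1_pow (n : ℕ) : (X 1 ^ n : R2) = monomial (ex 0 n) 1 := by
  rw [X_pow_eq]
  congr 1
  simp [ex]

theorem Mu.cf_X0_mul (a : R2) (i j : ℕ) : cf (X 0 * a) i j = if 1 ≤ i then cf a (i - 1) j else 0 := by
  have h := Mu.cf_monomial_mul 1 0 1 a i j
  rw [← Mu.X0_pow, pow_one] at h
  rw [h]
  simp

theorem Mu.cf_X1_pow_mul (n : ℕ) (a : R2) (i j : ℕ) : cf (X 1 ^ n * a) i j = if n ≤ j then cf a i (j - n) else 0 := by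
  have h := Mu.cf_monomial_mul 0 n 1 a i j
  rw [← Mu.X1_pow] at h
  rw [h]
  simp

theorem Mu.cf_C_mul_X1_pow (z : ℂ) (n : ℕ) (i j : ℕ) : cf (C z * X 1 ^ n) i j = if i = 0 ∧ j = n then z else 0 := by
  unfold cf
  rw [coeff_C_mul, Mu.X1_pow, coeff_monomial]
  have : ex i j = ex 0 n ↔ i = 0 ∧ j = n := by
    constructor
    · intro h
      have h0 := DFunLike.congr_fun h 0
      have h1 := DFunLike.congr_fun h 1
      rw [Mu.ex_zero, Mu.ex_zero] at h0
      rw [Mu.ex_one, Mu.ex_one] at h1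
      exact ⟨h0, h1⟩
    · rintro ⟨rfl, rfl⟩
      rfl
  by_cases h : i = 0 ∧ j = n
  · rw [if_pos h, if_pos (this.2 h), mul_one]
  · rw [if_neg h, if_neg (mt this.1 h), mul_zero]

theorem Mu.cf_add (a b : R2) (i j : ℕ) : cf (a + b) i j = cf a i j + cf b i j := by
  unfold cf
  rw [map_add]

theorem Mu.cf_sum {ι : Type*} (s : Finset ι) (f : ι → R2) (i j : ℕ) : cf (∑ k ∈ s, f k) i j = ∑ k ∈ s, cf (f k) i j := by
  unfold cf
  rw [map_sum]

/-- division by `x` and a power of `y` -/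
theorem Mu.decomp (f : R2) (n : ℕ) : ∃ g h : R2, f = (∑ k ∈ Finset.range n, C (cf f 0 k) * X 1 ^ k) + X 1 ^ n * g + X 0 * h ∧
    cf g 0 0 = cf f 0 n := by
  refine ⟨Mu.mk fun i j => if i = 0 then cf f 0 (j + n) else 0, Mu.mk fun i j => cf f (i + 1) j, ?_, ?_⟩
  · refine Mu.ext fun i j => ?_
    rw [Mu.cf_add, Mu.cf_add, Mu.cf_sum, Mu.cf_X0_mul, Mu.cf_X1_pow_mul, Mu.cf_mk, Mu.cf_mk]
    have hs : ∑ k ∈ Finset.range n, cf (C (cf f 0 k) * X 1 ^ k) i j = if i = 0 ∧ j < n then cf f 0 j else 0 := by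
      simp only [Mu.cf_C_mul_X1_pow]
      by_cases h : i = 0 ∧ j < n
      · rw [if_pos h, Finset.sum_eq_single_of_mem j (Finset.mem_range.2 h.2)]
        · rw [if_pos ⟨h.1, rfl⟩]
        · intro k _ hk
          rw [if_neg]
          rintro ⟨-, h2⟩
          exact hk h2.symm
      · rw [if_neg h]
        refine Finset.sum_eq_zero fun k hk => ?_
        rw [if_neg]
        rintro ⟨h1, h2⟩
        exact h ⟨h1, h2 ▸ Finset.mem_range.1 hk⟩
    rw [hs]
    rcases Nat.eq_zero_or_pos i with rfl | hi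
    · by_cases hj : j < n
      · rw [if_pos ⟨rfl, hj⟩, if_neg (by omega), if_neg (by omega)]
        ring
      · rw [if_neg (by omega), if_pos (by omega), if_pos rfl, if_neg (by omega), Nat.sub_add_cancel (by omega)]
        ring
    · rw [if_neg (by omega), if_pos (show 1 ≤ i from hi), Nat.sub_add_cancel hi, if_neg (show ¬ i = 0 by omega)]
      split_ifs <;> ring
  · rw [Mu.cf_mk, if_pos rfl, zero_add]

/-! ### the multiplicities -/

theorem mu_mul {p q c : R2} (hp : Fin2 p c) (hq : Fin2 q c) : Fin2 (p * q) c ∧ mu (p * q) c ≤ mu p c + mu q c := by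
  unfold Fin2 at hp hq
  have hle : Ideal.span {p * q, c} ≤ Ideal.span {p, c} := by
    rw [Ideal.span_le]
    rintro _ (rfl | rfl)
    · exact Ideal.mul_mem_right _ _ (Ideal.subset_span (by simp))
    · exact Ideal.subset_span (by simp)
  -- the projection
  let g : (R2 ⧸ Ideal.span {p * q, c}) →ₐ[ℂ] (R2 ⧸ Ideal.span {p, c}) := Ideal.Quotient.factorₐ ℂ hle
  have hg : Function.Surjective g := Ideal.Quotient.factor_surjective hle
  -- the multiplication by `p`
  let m : R2 →ₗ[ℂ] (R2 ⧸ Ideal.span {p * q, c}) := (Ideal.Quotient.mkₐ ℂ (Ideal.span {p * q, c})).toLinearMap ∘ₗ LinearMap.mulLeft ℂ p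
  have hker : (Ideal.span {q, c}).restrictScalars ℂ ≤ LinearMap.ker m := by
    intro z hz
    rw [LinearMap.mem_ker]
    show Ideal.Quotient.mk (Ideal.span {p * q, c}) (p * z) = 0
    rw [Ideal.Quotient.eq_zero_iff_mem]
    obtain ⟨a, b, rfl⟩ := Ideal.mem_span_pair.1 hz
    rw [Ideal.mem_span_pair]
    exact ⟨a, p * b, by ring⟩
  let f : (R2 ⧸ (Ideal.span {q, c}).restrictScalars ℂ) →ₗ[ℂ] (R2 ⧸ Ideal.span {p * q, c}) := Submodule.liftQ _ m hker
  have hf : LinearMap.ker g.toLinearMap ≤ LinearMap.range f := by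
    intro z hz
    obtain ⟨w, rfl⟩ := Ideal.Quotient.mk_surjective z
    have h1 : w ∈ Ideal.span {p, c} := by
      rw [← Ideal.Quotient.eq_zero_iff_mem]
      exact hz
    obtain ⟨a, b, rfl⟩ := Ideal.mem_span_pair.1 h1
    refine ⟨Submodule.Quotient.mk a, ?_⟩
    show Ideal.Quotient.mk (Ideal.span {p * q, c}) (p * a) = _
    rw [← sub_eq_zero, ← map_sub, Ideal.Quotient.eq_zero_iff_mem, Ideal.mem_span_pair]
    exact ⟨0, -b, by ring⟩
  have hq' : Module.Finite ℂ (R2 ⧸ (Ideal.span {q, c}).restrictScalars ℂ) := hq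
  have hr : Module.Finite ℂ (LinearMap.range f) := inferInstance
  have hk : Module.Finite ℂ (LinearMap.ker g.toLinearMap) := Submodule.finiteDimensional_of_le hf
  have hquo : Module.Finite ℂ ((R2 ⧸ Ideal.span {p * q, c}) ⧸ LinearMap.ker g.toLinearMap) :=
    Module.Finite.equiv (LinearMap.quotKerEquivOfSurjective g.toLinearMap hg).symm
  have hfin : Module.Finite ℂ (R2 ⧸ Ideal.span {p * q, c}) := Module.Finite.of_submodule_quotient (LinearMap.ker g.toLinearMap)
  refine ⟨hfin, ?_⟩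
  have h1 := LinearMap.finrank_range_add_finrank_ker g.toLinearMap
  have h2 : Module.finrank ℂ (LinearMap.range g.toLinearMap) = mu p c := by
    rw [LinearMap.range_eq_top.2 hg, finrank_top]
    rfl
  have h3 : Module.finrank ℂ (LinearMap.ker g.toLinearMap) ≤ mu q c :=
    (Submodule.finrank_mono hf).trans (LinearMap.finrank_range_le f)
  unfold mu at *
  omega

theorem Mu.of_le {I J : Ideal R2} (hle : I ≤ J) (h : Module.Finite ℂ (R2 ⧸ I)) :
    Module.Finite ℂ (R2 ⧸ J) ∧ Module.finrank ℂ (R2 ⧸ J) ≤ Module.finrank ℂ (R2 ⧸ I) := by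
  let g : (R2 ⧸ I) →ₐ[ℂ] (R2 ⧸ J) := Ideal.Quotient.factorₐ ℂ hle
  have hg : Function.Surjective g := Ideal.Quotient.factor_surjective hle
  exact ⟨Module.Finite.of_surjective g.toLinearMap hg, LinearMap.finrank_le_finrank_of_surjective (f := g.toLinearMap) hg⟩

theorem mu_X0 {c : R2} {n : ℕ} (h : cf c 0 n ≠ 0) : Fin2 (X 0) c ∧ mu (X 0) c ≤ n := by
  classical
  have hex : ∃ n, cf c 0 n ≠ 0 := ⟨n, h⟩
  set n₀ := Nat.find hex with hn₀
  have hc : cf c 0 n₀ ≠ 0 := Nat.find_spec hex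
  have hmin : ∀ k, k < n₀ → cf c 0 k = 0 := fun k hk => by
    by_contra hne
    exact Nat.find_min hex hk hne
  have hle : n₀ ≤ n := Nat.find_min' hex h
  obtain ⟨g, h', hd, hg⟩ := Mu.decomp c n₀
  have hs : (∑ k ∈ Finset.range n₀, C (cf c 0 k) * X 1 ^ k : R2) = 0 := by
    refine Finset.sum_eq_zero fun k hk => ?_
    rw [hmin k (Finset.mem_range.1 hk), map_zero, zero_mul]
  rw [hs, zero_add] at hd
  have hu : IsUnit g := by
    rw [isUnit_iff_constantCoeff]
    have : constantCoeff g = cf g 0 0 := by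
      unfold cf
      rw [show ex 0 0 = 0 by simp [ex], coeff_zero_eq_constantCoeff_apply]
    rw [this, hg]
    exact isUnit_iff_ne_zero.2 hc
  obtain ⟨w, hw⟩ := hu.exists_left_inv
  set I : Ideal R2 := Ideal.span {X 0, c} with hI
  have hy : (X 1 ^ n₀ : R2) ∈ I := by
    rw [hI, Ideal.mem_span_pair]
    refine ⟨-(w * h'), w, ?_⟩
    calc -(w * h') * X 0 + w * c = -(w * h') * X 0 + w * (X 1 ^ n₀ * g + X 0 * h') := by rw [← hd]
      _ = (w * g) * X 1 ^ n₀ := by ring
      _ = X 1 ^ n₀ := by rw [hw, one_mul]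
  -- the quotient is spanned by the powers of `y`
  let v : Fin n₀ → R2 ⧸ I := fun k => Ideal.Quotient.mk I (X 1 ^ (k : ℕ))
  have hspan : Submodule.span ℂ (Set.range v) = ⊤ := by
    rw [eq_top_iff]
    rintro z -
    obtain ⟨f, rfl⟩ := Ideal.Quotient.mk_surjective z
    obtain ⟨g₁, h₁, hf, -⟩ := Mu.decomp f n₀
    have h1 : Ideal.Quotient.mk I f = ∑ k ∈ Finset.range n₀, (cf f 0 k) • Ideal.Quotient.mk I (X 1 ^ k) := by
      conv_lhs => rw [hf]
      rw [map_add, map_add, map_mul, map_mul, Ideal.Quotient.eq_zero_iff_mem.2 hy,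
        Ideal.Quotient.eq_zero_iff_mem.2 (show (X 0 : R2) ∈ I from Ideal.subset_span (by simp)), zero_mul, zero_mul, add_zero, add_zero,
        map_sum]
      refine Finset.sum_congr rfl fun k _ => ?_
      have h3 : (cf f 0 k) • Ideal.Quotient.mk I (X 1 ^ k) = Ideal.Quotient.mk I ((cf f 0 k) • (X 1 ^ k : R2)) := rfl
      rw [h3, smul_eq_C_mul]
    rw [h1]
    refine Submodule.sum_mem _ fun k hk => Submodule.smul_mem _ _ (Submodule.subset_span ?_)
    exact ⟨⟨k, Finset.mem_range.1 hk⟩, rfl⟩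
  have hfin : Module.Finite ℂ (R2 ⧸ I) := ⟨⟨Finset.univ.image v, by rw [Finset.coe_image, Finset.coe_univ, Set.image_univ, hspan]⟩⟩
  refine ⟨hfin, ?_⟩
  have h2 : Module.finrank ℂ (R2 ⧸ I) ≤ n₀ := by
    have := finrank_range_le_card (R := ℂ) v
    unfold Set.finrank at this
    rw [hspan, finrank_top, Fintype.card_fin] at this
    exact this
  exact h2.trans hle

theorem Mu.span_sub (a b r : R2) : Ideal.span {a, b - r * a} = Ideal.span {a, b} := by
  apply le_antisymm
  · rw [Ideal.span_le]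
    rintro _ (rfl | rfl)
    · exact Ideal.subset_span (by simp)
    · exact Ideal.mem_span_pair.2 ⟨-r, 1, by ring⟩
  · rw [Ideal.span_le]
    rintro _ (rfl | rfl)
    · exact Ideal.subset_span (by simp)
    · exact Ideal.mem_span_pair.2 ⟨r, 1, by ring⟩

theorem fin2_sub (a b r : R2) : Fin2 a (b - r * a) ↔ Fin2 a b := by
  unfold Fin2
  rw [Mu.span_sub]

theorem mu_sub (a b r : R2) : mu a (b - r * a) = mu a b := by
  unfold mu
  rw [Mu.span_sub]

theorem mu_of_mul {a c p : R2} (h : Fin2 a (p * c)) : Fin2 a c ∧ mu a c ≤ mu a (p * c) := by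
  refine Mu.of_le ?_ h
  rw [Ideal.span_le]
  rintro _ (rfl | rfl)
  · exact Ideal.subset_span (by simp)
  · exact Ideal.mul_mem_left _ _ (Ideal.subset_span (by simp))

theorem Mu.map_sw (a b : R2) : Ideal.span {sw b, sw a} = (Ideal.span {a, b}).map (sw : R2 →+* R2) := by
  rw [Ideal.map_span, Set.image_pair, Set.pair_comm]
  rfl

theorem fin2_swap (a b : R2) : Fin2 (sw b) (sw a) ↔ Fin2 a b := by
  let e : (R2 ⧸ Ideal.span {a, b}) ≃ₐ[ℂ] (R2 ⧸ Ideal.span {sw b, sw a}) := Ideal.quotientEquivAlg _ _ sw (Mu.map_sw a b)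
  exact (Module.Finite.equiv_iff e.toLinearEquiv).symm

theorem mu_swap (a b : R2) : mu (sw b) (sw a) = mu a b := by
  let e : (R2 ⧸ Ideal.span {a, b}) ≃ₐ[ℂ] (R2 ⧸ Ideal.span {sw b, sw a}) := Ideal.quotientEquivAlg _ _ sw (Mu.map_sw a b)
  exact (LinearEquiv.finrank_eq e.toLinearEquiv).symm

/-- `R2` is not a finite dimensional vector space -/
theorem Mu.not_finite : ¬ Module.Finite ℂ R2 := by
  intro hfin
  set n := Module.finrank ℂ R2 with hn
  let L : R2 →ₗ[ℂ] (Fin (n + 1) → ℂ) := LinearMap.pi fun k => coeff (ex 0 k)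
  have hL : Function.Surjective L := by
    intro v
    refine ⟨Mu.mk fun _ j => if h : j < n + 1 then v ⟨j, h⟩ else 0, ?_⟩
    funext k
    have h1 : L (Mu.mk fun _ j => if h : j < n + 1 then v ⟨j, h⟩ else 0) k =
        cf (Mu.mk fun _ j => if h : j < n + 1 then v ⟨j, h⟩ else 0) 0 (k : ℕ) := rfl
    rw [h1, Mu.cf_mk, dif_pos k.2]
  have h := LinearMap.finrank_le_finrank_of_surjective hL
  rw [Module.finrank_fin_fun] at h
  omega

/-- a finite multiplicity and two series of positive order: not both vanish to infinite order -/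
theorem exists_order {a b : R2} (h : Fin2 a b) : ∃ l : ℕ, Ord l a ∧ Ord l b ∧ ¬ (Ord (l + 1) a ∧ Ord (l + 1) b) := by
  classical
  have hex : ∃ l : ℕ, ¬ (Ord (l + 1) a ∧ Ord (l + 1) b) := by
    by_contra hall
    push Not at hall
    have ha : a = 0 := Mu.ext fun i j => by
      rw [(hall (i + j)).1 i j (by omega)]
      rfl
    have hb : b = 0 := Mu.ext fun i j => by
      rw [(hall (i + j)).2 i j (by omega)]
      rfl
    unfold Fin2 at h
    rw [ha, hb] at h
    apply Mu.not_finite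
    have h0 : (Ideal.span {0, 0} : Ideal R2) = ⊥ := by simp
    rw [h0] at h
    exact Module.Finite.equiv (AlgEquiv.quotientBot ℂ R2).toLinearEquiv
  refine ⟨Nat.find hex, ?_, ?_, Nat.find_spec hex⟩
  · rcases Nat.eq_zero_or_pos (Nat.find hex) with h0 | h0
    · rw [h0]
      intro i j hij
      omega
    · have h1 := not_not.1 (Nat.find_min hex (show Nat.find hex - 1 < Nat.find hex by omega))
      have h2 := h1.1
      rwa [show Nat.find hex - 1 + 1 = Nat.find hex by omega] at h2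
  · rcases Nat.eq_zero_or_pos (Nat.find hex) with h0 | h0
    · rw [h0]
      intro i j hij
      omega
    · have h1 := not_not.1 (Nat.find_min hex (show Nat.find hex - 1 < Nat.find hex by omega))
      have h2 := h1.2
      rwa [show Nat.find hex - 1 + 1 = Nat.find hex by omega] at h2

end Pool.Agent.SB

end
end

section

/-!
# GG Ode: the local flow of a holomorphic vector field is holomorphic in the time and in the initial value; uniqueness
-/

set_option autoImplicit false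

open Topology Filter Metric

namespace Pool.Agent.GG

variable {n : ℕ}

/-- a bound which improves itself -/
private theorem ode_self {T E : Type*} [NormedAddCommGroup E] {S : Set T} {u : T → E} {a B₀ : ℝ} (h0 : ∀ z ∈ S, ‖u z‖ ≤ B₀)
    (h : ∀ B : ℝ, (∀ z ∈ S, ‖u z‖ ≤ B) → ∀ z ∈ S, ‖u z‖ ≤ a + B / 2) : ∀ z ∈ S, ‖u z‖ ≤ 2 * a := by
  intro z hz
  have h1 : ∀ k : ℕ, ∀ z ∈ S, ‖u z‖ ≤ 2 * a + (B₀ - 2 * a) * (1 / 2) ^ k := by
    intro k
    induction k with
    | zero =>
      intro z hz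
      have := h0 z hz
      simp only [pow_zero]
      linarith
    | succ k ih =>
      intro z hz
      refine (h _ ih z hz).trans (le_of_eq ?_)
      rw [pow_succ]
      ring
  have h2 : Tendsto (fun k : ℕ => 2 * a + (B₀ - 2 * a) * (1 / 2 : ℝ) ^ k) atTop (𝓝 (2 * a + (B₀ - 2 * a) * 0)) :=
    tendsto_const_nhds.add ((tendsto_pow_atTop_nhds_zero_of_lt_one (by norm_num) (by norm_num)).const_mul _)
  rw [mul_zero, add_zero] at h2
  exact ge_of_tendsto' h2 fun k => h1 k z hz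

/-- mean value inequality on a disc -/
private theorem ode_mv {a : ℂ} {ρ C : ℝ} {f f' : ℂ → Fin n → ℂ} (hf : ∀ z ∈ ball a ρ, HasDerivAt f (f' z) z) (hC : ∀ z ∈ ball a ρ, ‖f' z‖ ≤ C)
    {z : ℂ} (hz : z ∈ ball a ρ) : ‖f z - f a‖ ≤ C * ρ := by
  have ha : a ∈ ball a ρ := mem_ball_self ((dist_nonneg (x := z) (y := a)).trans_lt hz)
  have hC0 : 0 ≤ C := (norm_nonneg _).trans (hC a ha)
  have h := (convex_ball a ρ).norm_image_sub_le_of_norm_hasDerivWithin_le (f := f) (f' := f') (fun x hx => (hf x hx).hasDerivWithinAt) hC ha hz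
  refine h.trans (mul_le_mul_of_nonneg_left ?_ hC0)
  rw [← dist_eq_norm]
  exact (mem_ball.1 hz).le

/-- a good ball: the field and its derivative are bounded, the derivative is Lipschitz -/
private theorem ode_ball {V : (Fin n → ℂ) → (Fin n → ℂ)} {x₀ : Fin n → ℂ} (hV : AnalyticAt ℂ V x₀) {ρ : ℝ} (hρ : 0 < ρ) :
    ∃ R : ℝ, 0 < R ∧ R ≤ ρ ∧ ∃ K : ℝ, 0 < K ∧ (∀ x ∈ ball x₀ R, AnalyticAt ℂ V x) ∧ (∀ x ∈ ball x₀ R, ‖V x‖ ≤ K) ∧
      (∀ x ∈ ball x₀ R, ‖fderiv ℂ V x‖ ≤ K) ∧ ∀ x ∈ ball x₀ R, ∀ y ∈ ball x₀ R, ‖fderiv ℂ V x - fderiv ℂ V y‖ ≤ K * ‖x - y‖ := by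
  have h1 : ∀ᶠ x in 𝓝 x₀, AnalyticAt ℂ V x := hV.eventually_analyticAt
  have h2 : ∀ᶠ x in 𝓝 x₀, ‖V x‖ < ‖V x₀‖ + 1 := hV.continuousAt.norm.eventually_lt_const (lt_add_one _)
  have h3 : ∀ᶠ x in 𝓝 x₀, ‖fderiv ℂ V x‖ < ‖fderiv ℂ V x₀‖ + 1 := hV.fderiv.continuousAt.norm.eventually_lt_const (lt_add_one _)
  have h4 : ∀ᶠ x in 𝓝 x₀, ‖fderiv ℂ (fderiv ℂ V) x‖ < ‖fderiv ℂ (fderiv ℂ V) x₀‖ + 1 :=
    hV.fderiv.fderiv.continuousAt.norm.eventually_lt_const (lt_add_one _)
  obtain ⟨R, hR, hB⟩ := Metric.eventually_nhds_iff_ball.1 (h1.and (h2.and (h3.and h4)))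
  refine ⟨min R ρ, lt_min hR hρ, min_le_right _ _,
    max (‖V x₀‖ + 1) (max (‖fderiv ℂ V x₀‖ + 1) (‖fderiv ℂ (fderiv ℂ V) x₀‖ + 1)), ?_, ?_, ?_, ?_, ?_⟩
  · exact lt_max_of_lt_left (by positivity)
  · exact fun x hx => (hB x (ball_subset_ball (min_le_left _ _) hx)).1
  · exact fun x hx => (hB x (ball_subset_ball (min_le_left _ _) hx)).2.1.le.trans (le_max_left _ _)
  · exact fun x hx => (hB x (ball_subset_ball (min_le_left _ _) hx)).2.2.1.le.trans ((le_max_left _ _).trans (le_max_right _ _))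
  · intro x hx y hy
    refine (convex_ball x₀ (min R ρ)).norm_image_sub_le_of_norm_fderiv_le (𝕜 := ℂ) (f := fderiv ℂ V) ?_ ?_ hy hx
    · exact fun z hz => (hB z (ball_subset_ball (min_le_left _ _) hz)).1.fderiv.differentiableAt
    · exact fun z hz => (hB z (ball_subset_ball (min_le_left _ _) hz)).2.2.2.le.trans ((le_max_right _ _).trans (le_max_right _ _))

/-- the quadratic remainder -/
private theorem ode_quad {V : (Fin n → ℂ) → (Fin n → ℂ)} {x₀ : Fin n → ℂ} {R K : ℝ} (hK : 0 < K) (h1 : ∀ x ∈ ball x₀ R, AnalyticAt ℂ V x)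
    (h4 : ∀ x ∈ ball x₀ R, ∀ y ∈ ball x₀ R, ‖fderiv ℂ V x - fderiv ℂ V y‖ ≤ K * ‖x - y‖) {x y : Fin n → ℂ} (hx : x ∈ ball x₀ R)
    (hy : y ∈ ball x₀ R) : ‖V y - V x - fderiv ℂ V x (y - x)‖ ≤ K * ‖y - x‖ ^ 2 := by
  have hs : Convex ℝ (ball x₀ R ∩ closedBall x ‖y - x‖) := (convex_ball _ _).inter (convex_closedBall _ _)
  have h := hs.norm_image_sub_le_of_norm_fderiv_le' (𝕜 := ℂ) (f := V) (φ := fderiv ℂ V x) (C := K * ‖y - x‖) (x := x) (y := y)
    (fun z hz => (h1 z hz.1).differentiableAt) ?_ ⟨hx, mem_closedBall_self (norm_nonneg _)⟩ ⟨hy, by rw [mem_closedBall, dist_eq_norm]⟩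
  · refine h.trans (le_of_eq ?_)
    ring
  · intro z hz
    refine (h4 z hz.1 x hx).trans (mul_le_mul_of_nonneg_left ?_ hK.le)
    rw [← dist_eq_norm]
    exact mem_closedBall.1 hz.2

/-- **The local flow.** -/
theorem exists_flow {V : (Fin n → ℂ) → (Fin n → ℂ)} {x₀ : Fin n → ℂ} (hV : AnalyticAt ℂ V x₀) {ρ : ℝ} (hρ : 0 < ρ) :
    ∃ r : ℝ, 0 < r ∧ ∃ H : ℂ × (Fin n → ℂ) → (Fin n → ℂ), (∀ z ∈ ball (0 : ℂ) r, ∀ x ∈ ball x₀ r, AnalyticAt ℂ H (z, x)) ∧
      (∀ x ∈ ball x₀ r, H (0, x) = x) ∧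
      ∀ z ∈ ball (0 : ℂ) r, ∀ x ∈ ball x₀ r, H (z, x) ∈ ball x₀ ρ ∧ HasDerivAt (fun t => H (t, x)) (V (H (z, x))) z := by
  classical
  obtain ⟨R, hR, hRρ, K, hK, hVa, hVb, hVd, hVl⟩ := ode_ball hV hρ
  -- the solutions
  obtain ⟨ε₁, hε₁, hε₁R, hsol⟩ := Pool.Agent.G3.C.ode_hol (n := n) (half_pos hR) hK
  have hY : ∀ x ∈ ball x₀ (R / 2), ∃ Y : ℂ → Fin n → ℂ, Y 0 = x ∧ ∀ s ∈ ball (0 : ℂ) ε₁, Y s ∈ ball x₀ R ∧ HasDerivAt Y (V (Y s)) s := by
    intro x hx
    have hsub : ∀ q ∈ ball ((0 : ℂ), x) (R / 2), q.2 ∈ ball x₀ R := by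
      intro q hq
      rw [← ball_prod_same] at hq
      have h1 : dist q.2 x < R / 2 := hq.2
      have h2 : dist x x₀ < R / 2 := hx
      exact (dist_triangle q.2 x x₀).trans_lt (by linarith)
    obtain ⟨Y, hY0, hY⟩ := hsol (fun q => V q.2) 0 x
      (fun q hq => ((hVa q.2 (hsub q hq)).differentiableAt.comp q differentiableAt_snd).differentiableWithinAt) (fun q hq => hVb q.2 (hsub q hq))
    refine ⟨Y, hY0, fun s hs => ⟨?_, (hY s hs).2⟩⟩
    have h1 : dist (Y s) x < R / 2 / 2 := (hY s hs).1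
    have h2 : dist x x₀ < R / 2 := hx
    exact (dist_triangle (Y s) x x₀).trans_lt (by linarith)
  choose! Y hY0 hY using hY
  -- the linear equation
  obtain ⟨ε₂, hε₂, hε₂R, hlin⟩ := Pool.Agent.G3.C.ode_hol (n := n) (R := min ε₁ 1) (M := 2 * K) (lt_min hε₁ one_pos) (by positivity)
  obtain ⟨r, hr⟩ : ∃ r : ℝ, r = min (min ε₂ (R / 2)) (1 / (2 * K)) := ⟨_, rfl⟩
  have hr0 : 0 < r := by rw [hr]; exact lt_min (lt_min hε₂ (half_pos hR)) (by positivity)
  have hr1 : r ≤ ε₂ := by rw [hr]; exact (min_le_left _ _).trans (min_le_left _ _)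
  have hr2 : r ≤ R / 2 := by rw [hr]; exact (min_le_left _ _).trans (min_le_right _ _)
  have hr3 : K * r ≤ 1 / 2 := by
    have : r ≤ 1 / (2 * K) := by rw [hr]; exact min_le_right _ _
    calc K * r ≤ K * (1 / (2 * K)) := mul_le_mul_of_nonneg_left this hK.le
      _ = 1 / 2 := by field_simp
  have hr4 : r ≤ ε₁ := hr1.trans (hε₂R.trans (min_le_left _ _))
  have hxR : ∀ x ∈ ball x₀ r, x ∈ ball x₀ (R / 2) := fun x hx => ball_subset_ball hr2 hx
  have hzε : ∀ z ∈ ball (0 : ℂ) r, z ∈ ball (0 : ℂ) ε₁ := fun z hz => ball_subset_ball hr4 hz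
  refine ⟨r, hr0, fun q => Y q.2 q.1, ?_, fun x hx => hY0 x (hxR x hx), fun z hz x hx =>
    ⟨ball_subset_ball hRρ (hY x (hxR x hx) z (hzε z hz)).1, (hY x (hxR x hx) z (hzε z hz)).2⟩⟩
  -- Lipschitz dependence
  have hlip : ∀ x ∈ ball x₀ r, ∀ y ∈ ball x₀ r, ∀ z ∈ ball (0 : ℂ) r, ‖Y y z - Y x z‖ ≤ 2 * ‖y - x‖ := by
    intro x hx y hy
    refine ode_self (S := ball (0 : ℂ) r) (u := fun z => Y y z - Y x z) (B₀ := 2 * R) ?_ ?_
    · intro z hz
      have h1 := (hY x (hxR x hx) z (hzε z hz)).1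
      have h2 := (hY y (hxR y hy) z (hzε z hz)).1
      rw [← dist_eq_norm]
      calc dist (Y y z) (Y x z) ≤ dist (Y y z) x₀ + dist (Y x z) x₀ := dist_triangle_right _ _ _
        _ ≤ 2 * R := by linarith [mem_ball.1 h1, mem_ball.1 h2]
    · intro B hB z hz
      have hd : ∀ w ∈ ball (0 : ℂ) r, HasDerivAt (fun w => Y y w - Y x w) (V (Y y w) - V (Y x w)) w := fun w hw =>
        (hY y (hxR y hy) w (hzε w hw)).2.sub (hY x (hxR x hx) w (hzε w hw)).2
      have hb : ∀ w ∈ ball (0 : ℂ) r, ‖V (Y y w) - V (Y x w)‖ ≤ K * B := by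
        intro w hw
        have h1 := (hY x (hxR x hx) w (hzε w hw)).1
        have h2 := (hY y (hxR y hy) w (hzε w hw)).1
        refine ((convex_ball x₀ R).norm_image_sub_le_of_norm_fderiv_le (𝕜 := ℂ) (f := V) (fun z hz => (hVa z hz).differentiableAt) hVd h1 h2).trans ?_
        exact mul_le_mul_of_nonneg_left (hB w hw) hK.le
      have h3 := ode_mv hd hb hz
      rw [hY0 x (hxR x hx), hY0 y (hxR y hy)] at h3
      have hB0 : 0 ≤ B := (norm_nonneg _).trans (hB z hz)
      calc ‖Y y z - Y x z‖ ≤ ‖(Y y z - Y x z) - (y - x)‖ + ‖y - x‖ := by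
            have := norm_add_le ((Y y z - Y x z) - (y - x)) (y - x)
            rwa [sub_add_cancel] at this
        _ ≤ K * B * r + ‖y - x‖ := add_le_add h3 le_rfl
        _ = (K * r) * B + ‖y - x‖ := by ring
        _ ≤ 1 / 2 * B + ‖y - x‖ := add_le_add (mul_le_mul_of_nonneg_right hr3 hB0) le_rfl
        _ = ‖y - x‖ + B / 2 := by ring
  -- the derivative with respect to the initial value
  have hder : ∀ x ∈ ball x₀ r, ∀ e : Fin n → ℂ, ‖e‖ ≤ 1 → ∀ z ∈ ball (0 : ℂ) r, DifferentiableAt ℂ (fun t : ℂ => Y (x + t • e) z) 0 := by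
    intro x hx e he z hz
    have hdA : DifferentiableOn ℂ (fun q : ℂ × (Fin n → ℂ) => fderiv ℂ V (Y x q.1) q.2) (ball (((0 : ℂ), e) : ℂ × (Fin n → ℂ)) (min ε₁ 1)) := by
      intro q hq
      have hq1 : q.1 ∈ ball (0 : ℂ) ε₁ := by
        rw [← ball_prod_same] at hq
        exact ball_subset_ball (min_le_left _ _) hq.1
      have h1 := hY x (hxR x hx) q.1 hq1
      have h2 : DifferentiableAt ℂ (fun q : ℂ × (Fin n → ℂ) => fderiv ℂ V (Y x q.1)) q :=
        ((hVa _ h1.1).fderiv.differentiableAt).comp q (h1.2.differentiableAt.comp q differentiableAt_fst)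
      exact (h2.clm_apply differentiableAt_snd).differentiableWithinAt
    have hdB : ∀ q ∈ ball (((0 : ℂ), e) : ℂ × (Fin n → ℂ)) (min ε₁ 1), ‖fderiv ℂ V (Y x q.1) q.2‖ ≤ 2 * K := by
      intro q hq
      have hq1 : q.1 ∈ ball (0 : ℂ) ε₁ := by
        rw [← ball_prod_same] at hq
        exact ball_subset_ball (min_le_left _ _) hq.1
      have hq2 : dist q.2 e < 1 := by
        rw [← ball_prod_same] at hq
        exact (mem_ball.1 hq.2).trans_le (min_le_right _ _)
      have h1 := hY x (hxR x hx) q.1 hq1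
      refine ((fderiv ℂ V (Y x q.1)).le_opNorm _).trans ?_
      have h2 : ‖q.2‖ ≤ 2 := by
        calc ‖q.2‖ ≤ ‖q.2 - e‖ + ‖e‖ := by
              have := norm_add_le (q.2 - e) e
              rwa [sub_add_cancel] at this
          _ ≤ 2 := by
              rw [← dist_eq_norm]
              linarith
      calc ‖fderiv ℂ V (Y x q.1)‖ * ‖q.2‖ ≤ K * 2 := mul_le_mul (hVd _ h1.1) h2 (norm_nonneg _) hK.le
        _ = 2 * K := mul_comm _ _
    obtain ⟨W, hW0, hW⟩ := hlin (fun q => fderiv ℂ V (Y x q.1) q.2) 0 e hdA hdB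
    -- the remainder
    have hev : ∀ᶠ t : ℂ in 𝓝 0, x + t • e ∈ ball x₀ r := by
      have hc : ContinuousAt (fun t : ℂ => x + t • e) 0 := by fun_prop
      refine hc.eventually_mem ?_
      rw [zero_smul, add_zero]
      exact isOpen_ball.mem_nhds hx
    have hWb : ∀ w ∈ ball (0 : ℂ) r, ‖W w‖ ≤ 2 := by
      intro w hw
      have h1 : dist (W w) e < min ε₁ 1 / 2 := (hW w (ball_subset_ball hr1 hw)).1
      have h2 : min ε₁ 1 ≤ 1 := min_le_right _ _
      calc ‖W w‖ ≤ ‖W w - e‖ + ‖e‖ := by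
            have := norm_add_le (W w - e) e
            rwa [sub_add_cancel] at this
        _ ≤ 2 := by
            rw [← dist_eq_norm]
            linarith
    have hrem : ∀ t : ℂ, x + t • e ∈ ball x₀ r → ∀ w ∈ ball (0 : ℂ) r, ‖Y (x + t • e) w - Y x w - t • W w‖ ≤ 2 * (K * (2 * ‖t‖) ^ 2 * r) := by
      intro t ht
      have hl : ∀ w ∈ ball (0 : ℂ) r, ‖Y (x + t • e) w - Y x w‖ ≤ 2 * ‖t‖ := by
        intro w hw
        refine (hlip x hx _ ht w hw).trans ?_
        rw [add_sub_cancel_left, norm_smul]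
        nlinarith [norm_nonneg t, norm_nonneg e]
      refine ode_self (S := ball (0 : ℂ) r) (u := fun w => Y (x + t • e) w - Y x w - t • W w) (B₀ := 2 * ‖t‖ + ‖t‖ * 2) ?_ ?_
      · intro w hw
        refine (norm_sub_le _ _).trans (add_le_add (hl w hw) ?_)
        rw [norm_smul]
        exact mul_le_mul_of_nonneg_left (hWb w hw) (norm_nonneg _)
      · intro B hB w hw
        have hd : ∀ w ∈ ball (0 : ℂ) r, HasDerivAt (fun w => Y (x + t • e) w - Y x w - t • W w)
            (V (Y (x + t • e) w) - V (Y x w) - t • fderiv ℂ V (Y x w) (W w)) w := fun w hw =>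
          ((hY _ (hxR _ ht) w (hzε w hw)).2.sub (hY x (hxR x hx) w (hzε w hw)).2).sub ((hW w (ball_subset_ball hr1 hw)).2.const_smul t)
        have hb : ∀ w ∈ ball (0 : ℂ) r, ‖V (Y (x + t • e) w) - V (Y x w) - t • fderiv ℂ V (Y x w) (W w)‖ ≤ K * (2 * ‖t‖) ^ 2 + K * B := by
          intro w hw
          have h1 := (hY x (hxR x hx) w (hzε w hw)).1
          have h2 := (hY _ (hxR _ ht) w (hzε w hw)).1
          have h3 : V (Y (x + t • e) w) - V (Y x w) - t • fderiv ℂ V (Y x w) (W w) =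
              (V (Y (x + t • e) w) - V (Y x w) - fderiv ℂ V (Y x w) (Y (x + t • e) w - Y x w)) +
                fderiv ℂ V (Y x w) (Y (x + t • e) w - Y x w - t • W w) := by
            rw [map_sub (fderiv ℂ V (Y x w)) (Y (x + t • e) w - Y x w) (t • W w), map_smul]
            abel
          rw [h3]
          refine (norm_add_le _ _).trans (add_le_add ?_ ?_)
          · refine (ode_quad hK hVa hVl h1 h2).trans (mul_le_mul_of_nonneg_left ?_ hK.le)
            exact pow_le_pow_left₀ (norm_nonneg _) (hl w hw) 2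
          · refine ((fderiv ℂ V (Y x w)).le_opNorm _).trans ?_
            exact mul_le_mul (hVd _ h1) (hB w hw) (norm_nonneg _) hK.le
        have h3 := ode_mv hd hb hw
        have h4 : Y (x + t • e) 0 - Y x 0 - t • W 0 = 0 := by
          rw [hY0 x (hxR x hx), hY0 _ (hxR _ ht), hW0]
          abel
        rw [h4, sub_zero] at h3
        have hB0 : 0 ≤ B := (norm_nonneg _).trans (hB w hw)
        refine h3.trans ?_
        calc (K * (2 * ‖t‖) ^ 2 + K * B) * r = K * (2 * ‖t‖) ^ 2 * r + (K * r) * B := by ring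
          _ ≤ K * (2 * ‖t‖) ^ 2 * r + 1 / 2 * B := add_le_add le_rfl (mul_le_mul_of_nonneg_right hr3 hB0)
          _ = K * (2 * ‖t‖) ^ 2 * r + B / 2 := by ring
    have hD : HasDerivAt (fun t : ℂ => Y (x + t • e) z) (W z) 0 := by
      rw [hasDerivAt_iff_isLittleO]
      have hO : (fun t : ℂ => Y (x + t • e) z - Y (x + (0 : ℂ) • e) z - (t - 0) • W z) =O[𝓝 0] fun t : ℂ => (t - 0) ^ 2 := by
        refine Asymptotics.IsBigO.of_bound (2 * (K * 4 * r)) ?_
        filter_upwards [hev] with t ht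
        rw [zero_smul, add_zero, sub_zero]
        refine (hrem t ht z hz).trans (le_of_eq ?_)
        rw [norm_pow]
        ring
      refine hO.trans_isLittleO ?_
      have h5 : (fun t : ℂ => (t - 0) ^ 2) = fun t : ℂ => (t - 0) * (t - 0) := by
        funext t
        ring
      rw [h5]
      have h6 : (fun t : ℂ => t - 0) =o[𝓝 0] fun _ : ℂ => (1 : ℂ) := by
        rw [Asymptotics.isLittleO_one_iff]
        have : Tendsto (fun t : ℂ => t - 0) (𝓝 0) (𝓝 (0 - 0)) := (continuous_id.sub continuous_const).tendsto 0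
        rwa [sub_zero] at this
      have h7 := h6.mul_isBigO (Asymptotics.isBigO_refl (fun t : ℂ => t - 0) (𝓝 0))
      simpa using h7
    exact hD.differentiableAt
  -- analyticity
  intro z hz x hx
  obtain ⟨δ, hδ, hδz, hδx⟩ : ∃ δ : ℝ, 0 < δ ∧ ball z δ ⊆ ball (0 : ℂ) r ∧ ball x δ ⊆ ball x₀ r := by
    obtain ⟨δ₁, h1, h2⟩ := Metric.isOpen_iff.1 (isOpen_ball (x := (0 : ℂ)) (ε := r)) z hz
    obtain ⟨δ₂, h3, h4⟩ := Metric.isOpen_iff.1 (isOpen_ball (x := x₀) (ε := r)) x hx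
    exact ⟨min δ₁ δ₂, lt_min h1 h3, (ball_subset_ball (min_le_left _ _)).trans h2, (ball_subset_ball (min_le_right _ _)).trans h4⟩
  refine Pool.Agent.TN.osgood_prod (f := fun q : ℂ × (Fin n → ℂ) => Y q.2 q.1) (w := (z, x)) (r := δ) (M := ‖x₀‖ + R) hδ ?_ ?_ ?_
  · intro y hy
    rw [← ball_prod_same] at hy
    have h1 := (hY y.2 (hxR _ (hδx hy.2)) y.1 (hzε _ (hδz hy.1))).1
    calc ‖Y y.2 y.1‖ ≤ ‖Y y.2 y.1 - x₀‖ + ‖x₀‖ := by
          have := norm_add_le (Y y.2 y.1 - x₀) x₀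
          rwa [sub_add_cancel] at this
      _ ≤ ‖x₀‖ + R := by
          rw [← dist_eq_norm]
          linarith [mem_ball.1 h1]
  · intro y hy
    rw [← ball_prod_same] at hy
    have h1 := (hY y.2 (hxR _ (hδx hy.2)) y.1 (hzε _ (hδz hy.1))).2.differentiableAt
    have h2 : DifferentiableAt ℂ (fun t : ℂ => y.1 + t) 0 := by fun_prop
    have h3 : DifferentiableAt ℂ (Y y.2) (y.1 + 0) := by rwa [add_zero]
    exact h3.comp (0 : ℂ) h2
  · intro y hy l
    rw [← ball_prod_same] at hy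
    exact hder y.2 (hδx hy.2) (Pi.single l 1) (by rw [Pi.norm_single, norm_one]) y.1 (hδz hy.1)

end Pool.Agent.GG

end

section

/-!
# MQ2 Rect: the flow box

`Φ (x, y)` = the flow of `v` at the time `y` with the initial value `x e`, `e` and `v 0` independent.
-/

set_option autoImplicit false

open Topology Filter Metric

noncomputable section

namespace Pool.Agent.MQ2

/-- a vector independent of a given one -/
theorem Rect.exists_indep {w : ℂ × ℂ} (hw : w ≠ 0) : ∃ e : ℂ × ℂ, LinearIndependent ℂ ![e, w] := by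
  by_cases h2 : w.2 = 0
  · have h1 : w.1 ≠ 0 := fun h1 => hw (Prod.ext h1 h2)
    refine ⟨(0, 1), LinearIndependent.pair_iff.2 fun s t hst => ?_⟩
    have e1 := congrArg Prod.fst hst
    have e2 := congrArg Prod.snd hst
    simp only [Prod.fst_add, Prod.smul_fst, smul_eq_mul, Prod.fst_zero, mul_zero, zero_add, Prod.snd_add, Prod.smul_snd, mul_one, Prod.snd_zero] at e1 e2
    have ht : t = 0 := (mul_eq_zero.1 e1).resolve_right h1
    rw [ht, zero_mul, add_zero] at e2
    exact ⟨e2, ht⟩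
  · refine ⟨(1, 0), LinearIndependent.pair_iff.2 fun s t hst => ?_⟩
    have e1 := congrArg Prod.fst hst
    have e2 := congrArg Prod.snd hst
    simp only [Prod.fst_add, Prod.smul_fst, smul_eq_mul, Prod.fst_zero, mul_zero, zero_add, Prod.snd_add, Prod.smul_snd, mul_one, Prod.snd_zero] at e1 e2
    have ht : t = 0 := (mul_eq_zero.1 e2).resolve_right h2
    rw [ht, zero_mul, add_zero] at e1
    exact ⟨e1, ht⟩

/-- module Rect: the flow box -/
theorem rect {v : ℂ × ℂ → ℂ × ℂ} (hv : AnalyticAt ℂ v 0) (h0 : v 0 ≠ 0) : ∃ Φ : ℂ × ℂ → ℂ × ℂ, AnalyticAt ℂ Φ 0 ∧ Φ 0 = 0 ∧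
    LinearIndependent ℂ ![fderiv ℂ Φ 0 (1, 0), fderiv ℂ Φ 0 (0, 1)] ∧
    ∀ᶠ p in 𝓝 (0 : ℂ × ℂ), (v (Φ p)).1 * (fderiv ℂ Φ p (0, 1)).2 = (v (Φ p)).2 * (fderiv ℂ Φ p (0, 1)).1 := by
  obtain ⟨e, he⟩ := Rect.exists_indep h0
  let L : (Fin 2 → ℂ) ≃L[ℂ] ℂ × ℂ := ContinuousLinearEquiv.finTwoArrow ℂ ℂ
  have hV : AnalyticAt ℂ (fun x : Fin 2 → ℂ => L.symm (v (L x))) 0 := by
    have h1 : AnalyticAt ℂ v (L 0) := by
      rw [map_zero]
      exact hv
    have h2 : AnalyticAt ℂ (fun x : Fin 2 → ℂ => v (L x)) 0 := h1.comp ((L : (Fin 2 → ℂ) →L[ℂ] ℂ × ℂ).analyticAt 0)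
    exact ((L.symm : ℂ × ℂ →L[ℂ] (Fin 2 → ℂ)).analyticAt _).comp h2
  obtain ⟨r, hr, H, hHa, hH0, hHd⟩ := Pool.Agent.GG.exists_flow hV one_pos
  -- the inner map
  set ψ : ℂ × ℂ → ℂ × (Fin 2 → ℂ) := fun p => (p.2, L.symm (p.1 • e)) with hψ
  have hψa : ∀ p, AnalyticAt ℂ ψ p := by
    intro p
    have h1 : AnalyticAt ℂ (fun p : ℂ × ℂ => p.1 • e) p := by
      have h2 : AnalyticAt ℂ (fun p : ℂ × ℂ => p.1) p := analyticAt_fst
      exact h2.smul analyticAt_const
    exact analyticAt_snd.prod (((L.symm : ℂ × ℂ →L[ℂ] (Fin 2 → ℂ)).analyticAt _).comp h1)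
  have hψ0 : ψ 0 = ((0 : ℂ), (0 : Fin 2 → ℂ)) := by
    show ((0 : ℂ), L.symm ((0 : ℂ) • e)) = _
    rw [zero_smul, map_zero]
  have hgood : ∀ᶠ p in 𝓝 (0 : ℂ × ℂ), (ψ p).1 ∈ ball (0 : ℂ) r ∧ (ψ p).2 ∈ ball (0 : Fin 2 → ℂ) r := by
    have h1 : Tendsto ψ (𝓝 0) (𝓝 (ψ 0)) := (hψa 0).continuousAt
    rw [hψ0] at h1
    have h2 : ∀ᶠ q in 𝓝 ((0 : ℂ), (0 : Fin 2 → ℂ)), q.1 ∈ ball (0 : ℂ) r ∧ q.2 ∈ ball (0 : Fin 2 → ℂ) r := by
      have h3 : ball (0 : ℂ) r ×ˢ ball (0 : Fin 2 → ℂ) r ∈ 𝓝 ((0 : ℂ), (0 : Fin 2 → ℂ)) := prod_mem_nhds (ball_mem_nhds _ hr) (ball_mem_nhds _ hr)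
      filter_upwards [h3] with q hq
      exact hq
    exact h1.eventually h2
  set Φ : ℂ × ℂ → ℂ × ℂ := fun p => L (H (ψ p)) with hΦ
  have hΦa : ∀ᶠ p in 𝓝 (0 : ℂ × ℂ), AnalyticAt ℂ Φ p := by
    filter_upwards [hgood] with p hp
    have h1 : AnalyticAt ℂ H (ψ p) := hHa _ hp.1 _ hp.2
    exact ((L : (Fin 2 → ℂ) →L[ℂ] ℂ × ℂ).analyticAt _).comp (h1.comp (hψa p))
  have hΦ0 : Φ 0 = 0 := by
    show L (H (ψ 0)) = 0
    rw [hψ0, hH0 0 (mem_ball_self hr), map_zero]
  -- the derivative in the direction of `y`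
  have hy : ∀ᶠ p in 𝓝 (0 : ℂ × ℂ), fderiv ℂ Φ p (0, 1) = v (Φ p) := by
    filter_upwards [hgood, hΦa] with p hp hpa
    have h1 : HasDerivAt (fun t : ℂ => (p.1, t)) ((0 : ℂ), (1 : ℂ)) p.2 := (hasDerivAt_const p.2 p.1).prodMk (hasDerivAt_id p.2)
    have h2 : HasFDerivAt Φ (fderiv ℂ Φ p) ((fun t : ℂ => (p.1, t)) p.2) := hpa.differentiableAt.hasFDerivAt
    have h3 : HasDerivAt (fun t : ℂ => Φ (p.1, t)) (fderiv ℂ Φ p (0, 1)) p.2 := HasFDerivAt.comp_hasDerivAt (f := fun t : ℂ => (p.1, t)) p.2 h2 h1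
    have h4 : HasDerivAt (fun t : ℂ => H (t, L.symm (p.1 • e))) (L.symm (v (L (H (p.2, L.symm (p.1 • e)))))) p.2 := (hHd _ hp.1 _ hp.2).2
    have h5 : HasDerivAt (fun t : ℂ => L (H (t, L.symm (p.1 • e)))) (L (L.symm (v (L (H (p.2, L.symm (p.1 • e))))))) p.2 :=
      (L : (Fin 2 → ℂ) →L[ℂ] ℂ × ℂ).hasFDerivAt.comp_hasDerivAt p.2 h4
    rw [ContinuousLinearEquiv.apply_symm_apply] at h5
    exact h3.unique h5
  have hx : fderiv ℂ Φ 0 (1, 0) = e := by
    have h1 : HasDerivAt (fun t : ℂ => (t, (0 : ℂ))) ((1 : ℂ), (0 : ℂ)) 0 := (hasDerivAt_id (0 : ℂ)).prodMk (hasDerivAt_const (0 : ℂ) (0 : ℂ))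
    have h2 : HasFDerivAt Φ (fderiv ℂ Φ 0) ((fun t : ℂ => (t, (0 : ℂ))) 0) := hΦa.self_of_nhds.differentiableAt.hasFDerivAt
    have h3 : HasDerivAt (fun t : ℂ => Φ (t, 0)) (fderiv ℂ Φ 0 (1, 0)) 0 := HasFDerivAt.comp_hasDerivAt (f := fun t : ℂ => (t, (0 : ℂ))) 0 h2 h1
    have h4 : HasDerivAt (fun t : ℂ => t • e) e 0 := by
      have := (hasDerivAt_id (0 : ℂ)).smul_const e
      rwa [one_smul] at this
    have h5 : (fun t : ℂ => Φ (t, 0)) =ᶠ[𝓝 0] fun t : ℂ => t • e := by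
      have h6 : Tendsto (fun t : ℂ => (t, (0 : ℂ))) (𝓝 0) (𝓝 (0 : ℂ × ℂ)) := by
        have : Continuous (fun t : ℂ => (t, (0 : ℂ))) := by fun_prop
        exact this.tendsto' 0 0 rfl
      filter_upwards [h6.eventually hgood] with t ht
      show L (H (0, L.symm (t • e))) = t • e
      rw [hH0 _ ht.2, ContinuousLinearEquiv.apply_symm_apply]
    exact h3.unique (h4.congr_of_eventuallyEq h5)
  refine ⟨Φ, hΦa.self_of_nhds, hΦ0, ?_, ?_⟩
  · rw [hx, hy.self_of_nhds, hΦ0]
    exact he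
  · filter_upwards [hy] with p hp
    rw [hp]
    ring

end Pool.Agent.MQ2

end
end
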