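import Pool.Agent.H43.TL2.M36
import Pool.Agent.H43.TL2.M39
import Pool.Agent.H43.TL2.M49

/-! The parts of this file: H36.BPB.Char, H36.BPB.ExtA, H36.BPB.Resc, H36.BPL.Pair, SB.An.Bez, SY.EiN. -/

section

/-!
# BPB (port) Char: bounded characteristic

`g₁` entire with `|Re g₁ - c₀ log|F|| ≤ 1` on `|z| = R` (`circle_approx`).  (1) `|F exp(-g₁/c₀)| ≤ e^(1/c₀)` on the circle, hence on the disc (maximum modulus for vector valued
functions, `Complex.norm_le_of_forall_mem_frontier_norm_le`).  (2) `u = mt G F |F|^(-c₀) |exp g₁| exp((4C+1)|z|²)` is upper semicontinuous on the closed disc, `Sub` exponent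
`-C (mt)² + 4C + 1 ≥ 1 > 0` where `u > 0` (`sub`, `of_holo`, `exp_sq` with `t = z`), so `u(0) ≤ max over the circle ≤ 2 exp((4C+1)R²) e` (`max_principle`); `u(0) = |F 0|^(-c₀)|exp g₁(0)|`.
`g = -g₁/c₀ - 1/c₀`: `|exp g F| ≤ 1` and `|exp(g 0) F 0| = (|F 0|^(-c₀)|exp g₁ 0|)^(-1/c₀) e^(-1/c₀) ≥ c`.
-/

set_option autoImplicit false

namespace Pool.Agent.H36.BPB

open Filter Topology Metric
open Pool.Agent.H36.BP

variable {N : ℕ}

variable {K B : Set (EN N)} {G : EN N → EN N → ℝ} {ρ : EN N → ℝ} {M : ℕ} {c₀ C : ℝ}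

private theorem Char_usc {S : Set ℂ} {f h : ℂ → ℝ} (hf : UpperSemicontinuousOn f S)
    (hh : ContinuousOn h S) (hpos : ∀ z ∈ S, 0 < h z) :
    UpperSemicontinuousOn (fun z => f z * h z) S := by
  intro x hx y hy
  have hx0 := hpos x hx
  have h1 : f x < y / h x := (lt_div_iff₀ hx0).2 hy
  obtain ⟨a, ha1, ha2⟩ := exists_between h1
  have h2 : a * h x < y := (lt_div_iff₀ hx0).1 ha2
  have h3 : ∀ᶠ z in 𝓝[S] x, a * h z < y :=
    ((continuousWithinAt_const.mul (hh x hx)).tendsto).eventually (gt_mem_nhds h2)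
  filter_upwards [hf x hx a ha1, h3, self_mem_nhdsWithin] with z hz1 hz2 hz3
  exact (mul_lt_mul_of_pos_right hz1 (hpos z hz3)).trans hz2

/-- the lower bound with the explicit constant -/
theorem char_boundE (hM : MD K B G ρ M c₀ C) {R : ℝ} (hR : 0 < R) : ∀ F, Curve K (ball 0 (R + 1)) F →
    mt G F 0 = 1 → (∀ z ∈ ball (0 : ℂ) (R + 1), mt G F z ≤ 2) → ∃ g : ℂ → ℂ, Differentiable ℂ g ∧
      (∀ z ∈ ball (0 : ℂ) R, ‖Complex.exp (g z) • F z‖ ≤ 1) ∧
      Real.exp (-(1 + Real.log (2 * Real.exp 1 * Real.exp ((4 * C + 1) * R ^ 2))) / c₀) ≤ ‖Complex.exp (g 0) • F 0‖ := by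
  have hc := hM.c₀_pos
  have hC := hM.C_nonneg
  set A : ℝ := 2 * Real.exp 1 * Real.exp ((4 * C + 1) * R ^ 2) with hA
  have hA0 : 0 < A := mul_pos (mul_pos two_pos (Real.exp_pos _)) (Real.exp_pos _)
  refine fun F hF h0 h2 => ?_
  have hsub : closedBall (0 : ℂ) R ⊆ ball (0 : ℂ) (R + 1) := closedBall_subset_ball (by linarith)
  have hne : ∀ z ∈ ball (0 : ℂ) (R + 1), 0 < ‖F z‖ := fun z hz =>
    norm_pos_iff.2 (hM.ne _ (hF.2 z hz))
  have hcont : ContinuousOn F (ball (0 : ℂ) (R + 1)) := hF.1.continuousOn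
  have hsph : sphere (0 : ℂ) R ⊆ ball (0 : ℂ) (R + 1) := sphere_subset_closedBall.trans hsub
  obtain ⟨g, hg, hgφ⟩ := circle_approx hR (fun z => c₀ * Real.log ‖F z‖)
    (continuousOn_const.mul ((hcont.mono hsph).norm.log fun z hz => (hne z (hsph hz)).ne'))
    one_pos
  have hexp : ∀ z ∈ ball (0 : ℂ) (R + 1), ‖Complex.exp (-(g z / c₀)) • F z‖ =
      Real.exp (-((g z).re / c₀) + Real.log ‖F z‖) := by
    intro z hz
    have h1 : (-(g z / (c₀ : ℂ))).re = -((g z).re / c₀) := by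
      rw [Complex.neg_re, Complex.div_ofReal_re]
    rw [norm_smul, Complex.norm_exp, h1, Real.exp_add, Real.exp_log (hne z hz)]
  -- the upper bound
  have hup : ∀ z ∈ ball (0 : ℂ) R, ‖Complex.exp (-(g z / c₀)) • F z‖ ≤ Real.exp (1 / c₀) := by
    intro z hz
    have hd : DiffContOnCl ℂ (fun z => Complex.exp (-(g z / c₀)) • F z) (ball (0 : ℂ) R) := by
      refine DifferentiableOn.diffContOnCl ?_
      rw [closure_ball _ hR.ne']
      exact ((hg.differentiableOn.div_const _).neg.cexp).smul (hF.1.mono hsub)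
    refine Complex.norm_le_of_forall_mem_frontier_norm_le isBounded_ball hd (fun w hw => ?_)
      (subset_closure hz)
    rw [frontier_ball _ hR.ne'] at hw
    rw [hexp w (hsph hw), Real.exp_le_exp]
    have h1 := (abs_le.1 (hgφ w hw)).1
    have h3 : Real.log ‖F w‖ ≤ (1 + (g w).re) / c₀ := by
      rw [le_div_iff₀ hc]
      linarith
    rw [add_div] at h3
    linarith
  -- the lower bound
  have hlow : ‖F 0‖ ^ (-c₀) * ‖Complex.exp (g 0)‖ ≤ A := by
    have husc : UpperSemicontinuousOn (fun z => mt G F z * (‖F z‖ ^ (-c₀) * ‖Complex.exp (g z)‖ *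
        Real.exp ((4 * C + 1) * ‖z‖ ^ 2))) (closedBall (0 : ℂ) R) := by
      refine Char_usc ((mt_usc hM isOpen_ball hF).mono hsub) ?_ ?_
      · refine ContinuousOn.mul (ContinuousOn.mul ?_ ?_) ?_
        · exact (hcont.mono hsub).norm.rpow_const fun z hz => Or.inl (hne z (hsub hz)).ne'
        · exact (hg.continuous.cexp).norm.continuousOn
        · exact (Real.continuous_exp.comp
            (continuous_const.mul (continuous_norm.pow 2))).continuousOn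
      · intro z hz
        exact mul_pos (mul_pos (Real.rpow_pos_of_pos (hne z (hsub hz)) _)
          (norm_pos_iff.2 (Complex.exp_ne_zero _))) (Real.exp_pos _)
    have hmp := max_principle (isCompact_closedBall (0 : ℂ) R) isOpen_ball ball_subset_closedBall
      husc (fun z hz hz0 => ?_) hA0.le (fun z hz => ?_) 0 (mem_closedBall_self hR.le)
    · rw [h0, one_mul, norm_zero] at hmp
      norm_num at hmp
      exact hmp
    · have hzb : z ∈ ball (0 : ℂ) (R + 1) := hsub (ball_subset_closedBall hz)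
      have hnh : ball (0 : ℂ) (R + 1) ∈ 𝓝 z := isOpen_ball.mem_nhds hzb
      have han : AnalyticAt ℂ F z := hF.1.analyticAt hnh
      have hm0 : 0 < mt G F z := by
        by_contra h3
        have h4 : mt G F z ≤ 0 := not_lt.1 h3
        have h5 : 0 < ‖F z‖ ^ (-c₀) * ‖Complex.exp (g z)‖ *
            Real.exp ((4 * C + 1) * ‖z‖ ^ 2) :=
          mul_pos (mul_pos (Real.rpow_pos_of_pos (hne z hzb) _)
            (norm_pos_iff.2 (Complex.exp_ne_zero _))) (Real.exp_pos _)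
        exact absurd hz0 (not_lt.2 (mul_nonpos_of_nonpos_of_nonneg h4 h5.le))
      have hs1 := hM.sub F z han (Filter.eventually_of_mem hnh fun w hw => hF.2 w hw) hm0
      have hs2 : Sub (fun z => ‖Complex.exp (g z)‖) z 0 :=
        Sub.of_holo ((hg.analyticAt z).cexp) (Complex.exp_ne_zero _)
      have hs3 : Sub (fun z => Real.exp ((4 * C + 1) * ‖z‖ ^ 2)) z
          ((4 * C + 1) * ‖deriv (fun z : ℂ => z) z‖ ^ 2) := Sub.exp_sq analyticAt_id _
      have hs4 := (hs1.mul hs2).mul hs3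
      refine ⟨_, ?_, hs4.congr (Filter.Eventually.of_forall fun w => ?_)⟩
      · have h3 : deriv (fun z : ℂ => z) z = 1 := deriv_id z
        rw [h3, norm_one, one_pow, mul_one, add_zero]
        have h4 := h2 z hzb
        have h5 : mt G F z ^ 2 ≤ 4 := by nlinarith
        nlinarith
      · ring
    · have hz1 : z ∈ sphere (0 : ℂ) R := by
        rw [← closedBall_sdiff_ball]
        exact hz
      have hzb := hsph hz1
      have hzn : ‖z‖ = R := mem_sphere_zero_iff_norm.1 hz1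
      have h1 := (abs_le.1 (hgφ z hz1)).2
      have h3 : ‖F z‖ ^ (-c₀) * ‖Complex.exp (g z)‖ ≤ Real.exp 1 := by
        rw [Complex.norm_exp, Real.rpow_def_of_pos (hne z hzb), ← Real.exp_add, Real.exp_le_exp]
        linarith
      have h4 : mt G F z ≤ 2 := h2 z hzb
      have h5 : 0 ≤ ‖F z‖ ^ (-c₀) * ‖Complex.exp (g z)‖ :=
        mul_nonneg (Real.rpow_nonneg (norm_nonneg _) _) (norm_nonneg _)
      rw [hzn, hA, ← mul_assoc]
      refine mul_le_mul_of_nonneg_right ?_ (Real.exp_pos _).le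
      exact mul_le_mul h4 h3 h5 two_pos.le
  have h0b : (0 : ℂ) ∈ ball (0 : ℂ) (R + 1) := mem_ball_self (by linarith)
  refine ⟨fun z => -(g z / c₀) - 1 / c₀, (hg.div_const _).neg.sub_const _, fun z hz => ?_, ?_⟩
  · have h1 := hup z hz
    have h3 : Complex.exp (-(g z / c₀) - 1 / c₀) • F z =
        Complex.exp (-(1 / c₀ : ℂ)) • (Complex.exp (-(g z / c₀)) • F z) := by
      rw [smul_smul, ← Complex.exp_add]
      congr 2
      ring
    have h4 : ‖Complex.exp (-(1 / c₀ : ℂ))‖ = Real.exp (-(1 / c₀)) := by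
      rw [Complex.norm_exp]
      congr 1
      rw [Complex.neg_re, ← Complex.ofReal_one, ← Complex.ofReal_div, Complex.ofReal_re]
    rw [h3, norm_smul, h4]
    calc Real.exp (-(1 / c₀)) * ‖Complex.exp (-(g z / c₀)) • F z‖
        ≤ Real.exp (-(1 / c₀)) * Real.exp (1 / c₀) :=
          mul_le_mul_of_nonneg_left h1 (Real.exp_pos _).le
      _ = 1 := by rw [← Real.exp_add, neg_add_cancel, Real.exp_zero]
  · have h3 : Complex.exp (-(g 0 / c₀) - 1 / c₀) • F 0 =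
        Complex.exp (-(1 / c₀ : ℂ)) • (Complex.exp (-(g 0 / c₀)) • F 0) := by
      rw [smul_smul, ← Complex.exp_add]
      congr 2
      ring
    have h4 : ‖Complex.exp (-(1 / c₀ : ℂ))‖ = Real.exp (-(1 / c₀)) := by
      rw [Complex.norm_exp]
      congr 1
      rw [Complex.neg_re, ← Complex.ofReal_one, ← Complex.ofReal_div, Complex.ofReal_re]
    show _ ≤ ‖Complex.exp (-(g 0 / c₀) - 1 / c₀) • F 0‖
    rw [h3, norm_smul, h4, hexp 0 h0b, ← Real.exp_add, Real.exp_le_exp]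
    rw [Complex.norm_exp, Real.rpow_def_of_pos (hne 0 h0b), ← Real.exp_add] at hlow
    have h5 : Real.log ‖F 0‖ * -c₀ + (g 0).re ≤ Real.log A := by
      have h6 := Real.log_le_log (Real.exp_pos _) hlow
      rwa [Real.log_exp] at h6
    have h7 : ((g 0).re - Real.log A) / c₀ ≤ Real.log ‖F 0‖ := by
      rw [div_le_iff₀ hc]
      linarith
    rw [sub_div] at h7
    have h8 : -(1 + Real.log A) / c₀ = -(1 / c₀) - Real.log A / c₀ := by ring
    rw [h8]
    linarith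

/-- the lower bound: the characteristic function grows at most like `R²` -/
theorem char_bound2 (hM : MD K B G ρ M c₀ C) : ∃ C₁ : ℝ, 0 ≤ C₁ ∧ ∀ R : ℝ, 0 < R → ∀ F, Curve K (ball 0 (R + 1)) F →
    mt G F 0 = 1 → (∀ z ∈ ball (0 : ℂ) (R + 1), mt G F z ≤ 2) → ∃ g : ℂ → ℂ, Differentiable ℂ g ∧
      (∀ z ∈ ball (0 : ℂ) R, ‖Complex.exp (g z) • F z‖ ≤ 1) ∧ Real.exp (-(C₁ * (1 + R ^ 2))) ≤ ‖Complex.exp (g 0) • F 0‖ := by
  have hc := hM.c₀_pos
  have hC := hM.C_nonneg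
  refine ⟨(4 * C + 4) / c₀, by positivity, fun R hR F hF h0 h2 => ?_⟩
  obtain ⟨g, h3, h4, h5⟩ := char_boundE hM hR F hF h0 h2
  refine ⟨g, h3, h4, le_trans (Real.exp_le_exp.mpr ?_) h5⟩
  rw [Real.log_mul (by positivity) (by positivity), Real.log_mul (by positivity) (by positivity), Real.log_exp, Real.log_exp]
  have h6 : Real.log 2 ≤ 1 := by
    have := Real.log_two_lt_d9
    linarith
  rw [neg_div, neg_le_neg_iff, div_mul_eq_mul_div, div_le_div_iff_of_pos_right hc]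
  nlinarith [sq_nonneg R]

end Pool.Agent.H36.BPB

end

section

/-!
# BPB (port) ExtA: growth at the puncture

`z ≠ 0`, `|z| < 1`, `z = exp w₀`, `R = log(1/|z|) = -Re w₀`.  The curve `ζ ↦ F(exp(w₀ + R ζ))` is defined for `|ζ| < 1` (`Re(w₀ + Rζ) < 0`); `mt_comp` with `φ ζ = exp(w₀ + Rζ)`, `|φ'(0)| = R|z|`.
-/

set_option autoImplicit false

namespace Pool.Agent.H36.BPB

open Filter Topology Metric
open Pool.Agent.H36.BP

variable {N : ℕ}

variable {K B : Set (EN N)} {G : EN N → EN N → ℝ} {ρ : EN N → ℝ} {M : ℕ} {c₀ C : ℝ}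

theorem growth (hM : MD K B G ρ M c₀ C) {L : ℝ} (hL : ∀ F, Curve K (ball 0 1) F → mt G F 0 ≤ L) {F : ℂ → EN N}
    (hF : Curve K (ball 0 1 \ {0}) F) {z : ℂ} (hz : z ≠ 0) (hz1 : ‖z‖ < 1) :
    mt G F z * (‖z‖ * Real.log (1 / ‖z‖)) ≤ L := by
  have hzp : 0 < ‖z‖ := norm_pos_iff.2 hz
  obtain ⟨R, hR⟩ : ∃ R : ℝ, R = Real.log (1 / ‖z‖) := ⟨_, rfl⟩
  have hR0 : 0 < R := by
    rw [hR]
    exact Real.log_pos (by rw [lt_div_iff₀ hzp]; linarith)
  have hRl : R = -Real.log ‖z‖ := by rw [hR, one_div, Real.log_inv]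
  rw [← hR]
  obtain ⟨φ, hφ⟩ : ∃ φ : ℂ → ℂ, φ = fun ζ => Complex.exp (Complex.log z + R * ζ) := ⟨_, rfl⟩
  have hφd : ∀ ζ, HasDerivAt φ (Complex.exp (Complex.log z + R * ζ) * R) ζ := by
    intro ζ
    rw [hφ]
    have h1 : HasDerivAt (fun ζ : ℂ => Complex.log z + R * ζ) ((R : ℂ) * 1) ζ :=
      ((hasDerivAt_id' ζ).const_mul (R : ℂ)).const_add _
    rw [mul_one] at h1
    exact h1.cexp
  have hφ0 : φ 0 = z := by
    rw [hφ]
    simp only [mul_zero, add_zero]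
    exact Complex.exp_log hz
  have hφm : ∀ ζ ∈ ball (0 : ℂ) 1, φ ζ ∈ ball (0 : ℂ) 1 \ {0} := by
    intro ζ hζ
    rw [mem_ball_zero_iff] at hζ
    have h1 : ζ.re < 1 := lt_of_le_of_lt (Complex.re_le_norm ζ) hζ
    refine ⟨?_, ?_⟩
    · rw [mem_ball_zero_iff, hφ]
      simp only
      rw [Complex.norm_exp, Real.exp_lt_one_iff, Complex.add_re, Complex.log_re, Complex.re_ofReal_mul]
      have h2 : R * ζ.re < R * 1 := mul_lt_mul_of_pos_left h1 hR0
      linarith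
    · rw [Set.mem_singleton_iff, hφ]
      exact Complex.exp_ne_zero _
  have hopen : IsOpen (ball (0 : ℂ) 1 \ {0}) := isOpen_ball.sdiff isClosed_singleton
  have hFd : ∀ w ∈ ball (0 : ℂ) 1 \ {0}, DifferentiableAt ℂ F w := fun w hw =>
    hF.1.differentiableAt (hopen.mem_nhds hw)
  have hcurve : Curve K (ball 0 1) (fun ζ => F (φ ζ)) := by
    refine ⟨fun ζ hζ => ?_, fun ζ hζ => hF.2 _ (hφm ζ hζ)⟩
    exact ((hFd _ (hφm ζ hζ)).comp ζ (hφd ζ).differentiableAt).differentiableWithinAt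
  have hzm : z ∈ ball (0 : ℂ) 1 \ {0} := by
    have := hφm 0 (mem_ball_self one_pos)
    rwa [hφ0] at this
  have h1 := hL _ hcurve
  rw [mt_comp hM (by rw [hφ0]; exact hFd z hzm) (hφd 0).differentiableAt
    (by rw [hφ0]; exact hF.2 z hzm), hφ0, (hφd 0).deriv, mul_zero, add_zero, Complex.exp_log hz,
    norm_mul, Complex.norm_real, Real.norm_of_nonneg hR0.le] at h1
  rw [mul_comm]
  exact h1

end Pool.Agent.H36.BPB

end

section

/-!
# BPB (port) Resc: rescaling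

Given `L = 4 (n + 1)` take `F` with `mt G F 0 > L`.  On `closedBall 0 (1/2)` the function `mt G F z (1/2 - |z|)` is upper semicontinuous, so it has a maximum `m ≥ mt G F 0/2 > 0`
at some `z₀`, `|z₀| < 1/2`.  `λ = 1/mt G F z₀`, `F_n ζ = F (z₀ + λ ζ)`.  For `|ζ| ≤ m/2`: `|z| ≤ |z₀| + (1/2 - |z₀|)/2`, so `1/2 - |z| ≥ (1/2 - |z₀|)/2 > 0` and
`mt G F z ≤ m/(1/2 - |z|) ≤ 2 mt G F z₀`; `mt_comp`.  `m/2 ≥ L/4 = n + 1`.
-/

set_option autoImplicit false

namespace Pool.Agent.H36.BPB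

open Filter Topology Metric
open Pool.Agent.H36.BP

variable {N : ℕ}

variable {K B : Set (EN N)} {G : EN N → EN N → ℝ} {ρ : EN N → ℝ} {M : ℕ} {c₀ C : ℝ}

/-- product of a nonnegative upper semicontinuous function and a nonnegative continuous function -/
private theorem resc_usc_mul {α : Type*} [TopologicalSpace α] {S : Set α} {u k : α → ℝ} (hu : UpperSemicontinuousOn u S)
    (hk : ContinuousOn k S) (hu0 : ∀ x ∈ S, 0 ≤ u x) (hk0 : ∀ x ∈ S, 0 ≤ k x) :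
    UpperSemicontinuousOn (fun x => u x * k x) S := by
  intro x hx y hy
  have ht : Tendsto (fun ε : ℝ => (u x + ε) * (k x + ε)) (𝓝[>] 0) (𝓝 ((u x + 0) * (k x + 0))) := by
    apply tendsto_nhdsWithin_of_tendsto_nhds
    have hc : Continuous (fun ε : ℝ => (u x + ε) * (k x + ε)) := by fun_prop
    exact hc.tendsto 0
  have hy' : (u x + 0) * (k x + 0) < y := by simpa using hy
  obtain ⟨ε, hε1, hε2⟩ := ((ht.eventually_lt_const hy').and self_mem_nhdsWithin).exists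
  have hε : (0 : ℝ) < ε := hε2
  have h1 : ∀ᶠ x' in 𝓝[S] x, u x' < u x + ε := hu x hx _ (by linarith)
  have h2 : ∀ᶠ x' in 𝓝[S] x, k x' < k x + ε := (hk x hx).eventually_lt_const (by linarith)
  filter_upwards [h1, h2, self_mem_nhdsWithin] with x' h1' h2' hx'
  refine lt_of_le_of_lt ?_ hε1
  exact mul_le_mul h1'.le h2'.le (hk0 x' hx') (by linarith [hu0 x hx])

theorem rescale (hM : MD K B G ρ M c₀ C) (hunb : ∀ L : ℝ, ∃ F, Curve K (ball 0 1) F ∧ L < mt G F 0) (n : ℕ) :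
    ∃ F, Curve K (ball 0 (n + 1)) F ∧ mt G F 0 = 1 ∧ ∀ z ∈ ball (0 : ℂ) (n + 1), mt G F z ≤ 2 := by
  obtain ⟨F, hF, hL⟩ := hunb (4 * ((n : ℝ) + 1))
  have hn : (0 : ℝ) ≤ n := Nat.cast_nonneg n
  set u : ℂ → ℝ := fun z => mt G F z * (1 / 2 - ‖z‖) with hu
  have hsub : closedBall (0 : ℂ) (1 / 2) ⊆ ball 0 1 := closedBall_subset_ball (by norm_num)
  have husc : UpperSemicontinuousOn u (closedBall (0 : ℂ) (1 / 2)) := by
    refine resc_usc_mul ((mt_usc hM isOpen_ball hF).mono hsub) (by fun_prop) ?_ ?_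
    · intro x hx
      exact mt_nonneg hM (hF.2 x (hsub hx))
    · intro x hx
      have : ‖x‖ ≤ 1 / 2 := by simpa using hx
      linarith
  obtain ⟨z₀, hz₀, hmax⟩ := husc.exists_isMaxOn ⟨0, by simp⟩ (isCompact_closedBall _ _)
  have hz₀n : ‖z₀‖ ≤ 1 / 2 := by simpa using hz₀
  have h0 : u 0 ≤ u z₀ := hmax (by simp : (0 : ℂ) ∈ closedBall (0 : ℂ) (1 / 2))
  have hu0 : u 0 = mt G F 0 / 2 := by simp only [hu, norm_zero]; ring
  have hm : 2 * ((n : ℝ) + 1) < u z₀ := by rw [hu0] at h0; linarith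
  have hz₀K : F z₀ ∈ K := hF.2 z₀ (hsub hz₀)
  have hmt0 : 0 ≤ mt G F z₀ := mt_nonneg hM hz₀K
  set d : ℝ := 1 / 2 - ‖z₀‖ with hd
  have hd0 : 0 ≤ d := by rw [hd]; linarith
  have huz : u z₀ = mt G F z₀ * d := rfl
  have hpos : 0 < mt G F z₀ * d := by rw [← huz]; linarith
  have hmtpos : 0 < mt G F z₀ := by
    rcases hmt0.lt_or_eq with h | h
    · exact h
    · rw [← h] at hpos; simp at hpos
  have hdpos : 0 < d := by
    rcases hd0.lt_or_eq with h | h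
    · exact h
    · rw [← h] at hpos; simp at hpos
  set a : ℝ := mt G F z₀ with ha
  set φ : ℂ → ℂ := fun ζ => z₀ + ((a⁻¹ : ℝ) : ℂ) * ζ with hφ
  have hφd : ∀ ζ, HasDerivAt φ ((a⁻¹ : ℝ) : ℂ) ζ := by
    intro ζ
    have := ((hasDerivAt_id ζ).const_mul ((a⁻¹ : ℝ) : ℂ)).const_add z₀
    simpa [hφ] using this
  have hkey : ∀ ζ ∈ ball (0 : ℂ) (n + 1), ‖φ ζ‖ ≤ 1 / 2 - d / 2 := by
    intro ζ hζ
    have hζn : ‖ζ‖ < n + 1 := by simpa using hζ
    have h1 : ‖φ ζ‖ ≤ ‖z₀‖ + a⁻¹ * ‖ζ‖ := by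
      calc ‖φ ζ‖ ≤ ‖z₀‖ + ‖((a⁻¹ : ℝ) : ℂ) * ζ‖ := norm_add_le _ _
        _ = ‖z₀‖ + a⁻¹ * ‖ζ‖ := by
          rw [norm_mul, Complex.norm_real, Real.norm_of_nonneg (by positivity)]
    have h2 : a⁻¹ * ‖ζ‖ ≤ d / 2 := by
      rw [inv_mul_le_iff₀ hmtpos]
      rw [huz] at hm
      linarith
    have h3 : ‖z₀‖ = 1 / 2 - d := by rw [hd]; ring
    linarith
  have hball : ∀ ζ ∈ ball (0 : ℂ) (n + 1), φ ζ ∈ closedBall (0 : ℂ) (1 / 2) := by
    intro ζ hζ
    have := hkey ζ hζ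
    rw [mem_closedBall_zero_iff]
    linarith
  have hdiff : ∀ ζ ∈ ball (0 : ℂ) (n + 1), DifferentiableAt ℂ F (φ ζ) := fun ζ hζ =>
    (hF.1 _ (hsub (hball ζ hζ))).differentiableAt (isOpen_ball.mem_nhds (hsub (hball ζ hζ)))
  have hmt : ∀ ζ ∈ ball (0 : ℂ) (n + 1), mt G (fun ζ => F (φ ζ)) ζ = a⁻¹ * mt G F (φ ζ) := by
    intro ζ hζ
    rw [mt_comp hM (hdiff ζ hζ) (hφd ζ).differentiableAt (hF.2 _ (hsub (hball ζ hζ))), (hφd ζ).deriv,
      Complex.norm_real, Real.norm_of_nonneg (by positivity)]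
  refine ⟨fun ζ => F (φ ζ), ⟨?_, ?_⟩, ?_, ?_⟩
  · intro ζ hζ
    exact ((hdiff ζ hζ).comp ζ (hφd ζ).differentiableAt).differentiableWithinAt
  · intro ζ hζ
    exact hF.2 _ (hsub (hball ζ hζ))
  · rw [hmt 0 (mem_ball_self (by positivity))]
    have : φ 0 = z₀ := by simp [hφ]
    rw [this, ← ha]
    exact inv_mul_cancel₀ hmtpos.ne'
  · intro ζ hζ
    rw [hmt ζ hζ]
    have h1 : u (φ ζ) ≤ u z₀ := hmax (hball ζ hζ)
    have h2 := hkey ζ hζ
    have h3 : mt G F (φ ζ) * (1 / 2 - ‖φ ζ‖) ≤ a * d := h1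
    have h4 : 0 ≤ mt G F (φ ζ) := mt_nonneg hM (hF.2 _ (hsub (hball ζ hζ)))
    have h5 : mt G F (φ ζ) * (d / 2) ≤ a * d :=
      le_trans (mul_le_mul_of_nonneg_left (by linarith) h4) h3
    have h6 : mt G F (φ ζ) ≤ 2 * a := by
      by_contra hc
      push Not at hc
      have : 2 * a * (d / 2) < mt G F (φ ζ) * (d / 2) := mul_lt_mul_of_pos_right hc (by linarith)
      linarith
    rw [inv_mul_le_iff₀ hmtpos]
    linarith

end Pool.Agent.H36.BPB

end

section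

/-!
# BPL Pair: an analytic subset of a nodal curve given by one equation is a union of branches
-/

set_option autoImplicit false

namespace Pool.Agent.H36.BPL

open Filter Topology Metric
open Pool.Agent.H17BP (Surface IsChart IsForm NoZeros NodalAt)

variable {V : Type} [NormedAddCommGroup V] [NormedSpace ℂ V]

/-- a zero of an analytic function of two variables is not isolated -/
theorem freq_zero {g : ℂ × ℂ → ℂ} (hg : AnalyticAt ℂ g 0) (h0 : g 0 = 0) : ∃ᶠ p in 𝓝[≠] (0 : ℂ × ℂ), g p = 0 := by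
  by_contra hcon
  rw [not_frequently, eventually_nhdsWithin_iff] at hcon
  obtain ⟨r₀, hr₀, hr₀g⟩ := Metric.eventually_nhds_iff_ball.mp (hcon.and hg.eventually_analyticAt)
  set r : ℝ := r₀ / 2 with hr
  have hr0 : 0 < r := by rw [hr]; positivity
  have hrlt : r < r₀ := by rw [hr]; linarith
  have hmem : ∀ s t : ℂ, ‖s‖ ≤ r → ‖t‖ ≤ r → (s, t) ∈ ball (0 : ℂ × ℂ) r₀ := by
    intro s t hs ht
    rw [mem_ball_zero_iff, Prod.norm_def]
    exact (max_le hs ht).trans_lt hrlt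
  have hne : ∀ s t : ℂ, ‖s‖ ≤ r → ‖t‖ ≤ r → (s, t) ≠ (0 : ℂ × ℂ) → g (s, t) ≠ 0 := fun s t hs ht hst => (hr₀g _ (hmem s t hs ht)).1 hst
  have hcont : ContinuousOn g (ball (0 : ℂ × ℂ) r₀) := fun p hp => (hr₀g p hp).2.continuousAt.continuousWithinAt
  -- a lower bound on the compact set
  have hcomp : IsCompact (closedBall (0 : ℂ) r ×ˢ sphere (0 : ℂ) r) := (isCompact_closedBall _ _).prod (isCompact_sphere _ _)
  have hnon : (closedBall (0 : ℂ) r ×ˢ sphere (0 : ℂ) r).Nonempty := by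
    refine ⟨(0, (r : ℂ)), ?_, ?_⟩
    · exact mem_closedBall_self hr0.le
    · rw [mem_sphere_zero_iff_norm, Complex.norm_real, Real.norm_of_nonneg hr0.le]
  obtain ⟨p₀, hp₀, hp₀m⟩ := hcomp.exists_isMinOn hnon (f := fun p => ‖g p‖) (by
    refine (hcont.mono ?_).norm
    rintro ⟨s, t⟩ ⟨hs, ht⟩
    exact hmem s t (by simpa using hs) (by rw [mem_sphere_zero_iff_norm] at ht; exact ht.le))
  obtain ⟨s₀, t₀⟩ := p₀
  set c : ℝ := ‖g (s₀, t₀)‖ with hc
  have ht₀ : ‖t₀‖ = r := by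
    have := hp₀.2
    rwa [mem_sphere_zero_iff_norm] at this
  have hc0 : 0 < c := by
    rw [hc, norm_pos_iff]
    refine hne s₀ t₀ (by simpa using hp₀.1) ht₀.le ?_
    intro h
    have h1 : t₀ = 0 := congrArg Prod.snd h
    rw [h1, norm_zero] at ht₀
    exact hr0.ne ht₀
  have hlow : ∀ s : ℂ, s ≠ 0 → ‖s‖ ≤ r → c ≤ ‖g (s, 0)‖ := by
    intro s hs0 hs
    have hga : ∀ t : ℂ, ‖t‖ ≤ r → DifferentiableAt ℂ (fun t => (g (s, t))⁻¹) t := by
      intro t ht
      have h1 : AnalyticAt ℂ g (s, t) := (hr₀g _ (hmem s t hs ht)).2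
      have h2 : AnalyticAt ℂ (fun t : ℂ => g (s, t)) t := AnalyticAt.comp (g := g) (f := fun t : ℂ => (s, t)) h1 (analyticAt_const.prod analyticAt_id)
      refine h2.differentiableAt.inv (hne s t hs ht ?_)
      intro h
      exact hs0 (congrArg Prod.fst h)
    have hd : DiffContOnCl ℂ (fun t => (g (s, t))⁻¹) (ball 0 r) := by
      refine DifferentiableOn.diffContOnCl ?_
      rw [closure_ball _ hr0.ne']
      intro t ht
      exact (hga t (by simpa using ht)).differentiableWithinAt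
    have h3 := Complex.norm_le_of_forall_mem_frontier_norm_le isBounded_ball hd (C := c⁻¹) (fun t ht => by
      rw [frontier_ball _ hr0.ne', mem_sphere_zero_iff_norm] at ht
      rw [norm_inv]
      have h4 : c ≤ ‖g (s, t)‖ := hp₀m ⟨by simpa using hs, by rw [mem_sphere_zero_iff_norm]; exact ht⟩
      gcongr) (subset_closure (mem_ball_self hr0))
    rw [norm_inv] at h3
    have h5 : 0 < ‖g (s, 0)‖ := norm_pos_iff.mpr (hne s 0 hs (by rw [norm_zero]; exact hr0.le) fun h => hs0 (congrArg Prod.fst h))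
    exact (inv_le_inv₀ h5 hc0).mp h3
  -- the limit
  have h6 : Tendsto (fun s : ℂ => ‖g (s, 0)‖) (𝓝[≠] 0) (𝓝 0) := by
    have h7 : ContinuousAt (fun s : ℂ => ‖g (s, 0)‖) 0 := by
      have h8 : ContinuousAt (fun s : ℂ => (s, (0 : ℂ))) 0 := (continuous_id.prodMk continuous_const).continuousAt
      exact (ContinuousAt.comp (g := g) (f := fun s : ℂ => (s, (0 : ℂ))) hg.continuousAt h8).norm
    have h9 := h7.tendsto
    have h10 : ‖g ((0 : ℂ), 0)‖ = 0 := by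
      rw [show ((0 : ℂ), (0 : ℂ)) = (0 : ℂ × ℂ) from rfl, h0, norm_zero]
    rw [h10] at h9
    exact h9.mono_left nhdsWithin_le_nhds
  have h11 : ∀ᶠ s : ℂ in 𝓝[≠] 0, c ≤ ‖g (s, 0)‖ := by
    rw [eventually_nhdsWithin_iff]
    have h12 : ∀ᶠ s : ℂ in 𝓝 0, s ∈ ball (0 : ℂ) r := ball_mem_nhds _ hr0
    filter_upwards [h12] with s hs hs0
    exact hlow s hs0 (by rw [mem_ball_zero_iff] at hs; exact hs.le)
  exact absurd (ge_of_tendsto h6 h11) (not_le.mpr hc0)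

/-- the restriction of a function of two variables to an axis -/
theorem axis_dich {g : ℂ × ℂ → ℂ} (hg : AnalyticAt ℂ g 0) {γ : ℂ → ℂ × ℂ} (hγ : AnalyticAt ℂ γ 0) (h0 : γ 0 = 0) :
    (∀ᶠ t in 𝓝 (0 : ℂ), g (γ t) = 0) ∨ ∀ᶠ t in 𝓝 (0 : ℂ), t ≠ 0 → g (γ t) ≠ 0 := by
  have h1 : AnalyticAt ℂ (fun t => g (γ t)) 0 := AnalyticAt.comp (g := g) (f := γ) (by rw [h0]; exact hg) hγ
  rcases h1.eventually_eq_zero_or_eventually_ne_zero with h | h
  · exact Or.inl h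
  · exact Or.inr (eventually_nhdsWithin_iff.mp h)

theorem pairNodal_of_nodal {X K T : Set V} (hK : OpenPart X K) (hKT : ∀ x ∈ X, x ∉ K → x ∈ T) {x : V} (hx : x ∈ X) (hxT : x ∈ T) (hn : NodalAt X T x) :
    PairNodalAt X K T x := by
  obtain ⟨σ, τ, hc, hσ0, hcase⟩ := hn
  obtain ⟨h, hh, hhe⟩ := hK.eqn x hx
  set g : ℂ × ℂ → ℂ := fun p => h (σ p) with hgdef
  have hσt : Tendsto σ (𝓝 0) (𝓝 x) := by
    have := hc.σ_an.continuousAt.tendsto
    rwa [hσ0] at this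
  have hg : AnalyticAt ℂ g 0 := AnalyticAt.comp (g := h) (f := σ) (by rw [hσ0]; exact hh) hc.σ_an
  have hgK : ∀ᶠ p in 𝓝 (0 : ℂ × ℂ), (σ p ∉ K ↔ g p = 0) := by
    filter_upwards [hσt.eventually hhe, hc.σ_mem] with p h1 h2
    exact h1 h2
  have hgT : ∀ᶠ p in 𝓝 (0 : ℂ × ℂ), g p = 0 → σ p ∈ T := by
    filter_upwards [hgK, hc.σ_mem] with p h1 h2 h3
    exact hKT _ h2 (h1.mpr h3)
  have hA1 := axis_dich hg (γ := fun t => (0, t)) (analyticAt_const.prod analyticAt_id) rfl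
  have hA2 := axis_dich hg (γ := fun s => (s, 0)) (analyticAt_id.prod analyticAt_const) rfl
  have hsnd : Tendsto (fun p : ℂ × ℂ => p.2) (𝓝 0) (𝓝 0) := continuous_snd.tendsto 0
  have hfst : Tendsto (fun p : ℂ × ℂ => p.1) (𝓝 0) (𝓝 0) := continuous_fst.tendsto 0
  -- `g 0 = 0` and no zero near `0` except `0` is impossible
  have hiso : (∀ᶠ p in 𝓝 (0 : ℂ × ℂ), p ≠ 0 → g p ≠ 0) → g 0 ≠ 0 := by
    intro h1 h2
    obtain ⟨p, hp1, hp2⟩ := ((freq_zero hg h2).and_eventually (eventually_nhdsWithin_iff.mpr h1)).exists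
    exact hp2 hp1
  have hno : (∀ᶠ p in 𝓝 (0 : ℂ × ℂ), p ≠ 0 → g p ≠ 0) → ∀ᶠ p in 𝓝 (0 : ℂ × ℂ), σ p ∈ K := by
    intro h1
    have h2 := hiso h1
    filter_upwards [h1, hgK] with p h3 h4
    by_contra h5
    have h6 := h4.mp h5
    by_cases h7 : p = 0
    · rw [h7] at h6
      exact h2 h6
    · exact h3 h7 h6
  rcases hcase with h1 | h1 | h1
  · exact absurd (hσ0 ▸ hxT) h1.self_of_nhds
  · -- smooth
    have hTt : ∀ᶠ p in 𝓝 (0 : ℂ × ℂ), (σ p ∈ T ↔ p.1 = 0 ∨ (false = true ∧ p.2 = 0)) := by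
      filter_upwards [h1] with p hp
      rw [hp]
      simp
    rcases hA1 with h2 | h2
    · refine ⟨σ, τ, hc, hσ0, false, (true, false), hTt, ?_, by simp⟩
      filter_upwards [hgK, hgT, hsnd.eventually h2, h1] with p e1 e2 e3 e4
      rw [e1]
      constructor
      · intro e5
        exact Or.inl ⟨rfl, e4.mp (e2 e5)⟩
      · rintro (⟨-, e5⟩ | ⟨e5, -⟩)
        · have e6 : p = (0, p.2) := Prod.ext e5 rfl
          rw [e6]
          exact e3
        · simp at e5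
    · refine ⟨σ, τ, hc, hσ0, false, (false, false), hTt, ?_, by simp⟩
      have h3 : ∀ᶠ p in 𝓝 (0 : ℂ × ℂ), p ≠ 0 → g p ≠ 0 := by
        filter_upwards [hgT, hsnd.eventually h2, h1] with p e2 e3 e4 e5 e6
        have e7 : p.1 = 0 := e4.mp (e2 e6)
        have e8 : p = (0, p.2) := Prod.ext e7 rfl
        refine e3 ?_ (by rw [← e8]; exact e6)
        intro e9
        exact e5 (Prod.ext e7 e9)
      filter_upwards [hno h3] with p e1
      simp [e1]
  · -- node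
    have hTt : ∀ᶠ p in 𝓝 (0 : ℂ × ℂ), (σ p ∈ T ↔ p.1 = 0 ∨ (true = true ∧ p.2 = 0)) := by
      filter_upwards [h1] with p hp
      rw [hp]
      simp
    have hz : ∀ᶠ p in 𝓝 (0 : ℂ × ℂ), g p = 0 → p.1 = 0 ∨ p.2 = 0 := by
      filter_upwards [hgT, h1] with p e1 e2 e3
      have := e2.mp (e1 e3)
      simpa using this
    rcases hA1 with h2 | h2 <;> rcases hA2 with h3 | h3
    · refine ⟨σ, τ, hc, hσ0, true, (true, true), hTt, ?_, by simp⟩
      filter_upwards [hgK, hz, hsnd.eventually h2, hfst.eventually h3] with p e1 e2 e3 e4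
      rw [e1]
      constructor
      · intro e5
        rcases e2 e5 with e6 | e6
        · exact Or.inl ⟨rfl, e6⟩
        · exact Or.inr ⟨rfl, e6⟩
      · rintro (⟨-, e5⟩ | ⟨-, e5⟩)
        · have e6 : p = (0, p.2) := Prod.ext e5 rfl
          rw [e6]
          exact e3
        · have e6 : p = (p.1, 0) := Prod.ext rfl e5
          rw [e6]
          exact e4
    · refine ⟨σ, τ, hc, hσ0, true, (true, false), hTt, ?_, by simp⟩
      have h0 : g 0 = 0 := h2.self_of_nhds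
      filter_upwards [hgK, hz, hsnd.eventually h2, hfst.eventually h3] with p e1 e2 e3 e4
      rw [e1]
      constructor
      · intro e5
        rcases e2 e5 with e6 | e6
        · exact Or.inl ⟨rfl, e6⟩
        · by_cases e7 : p.1 = 0
          · exact Or.inl ⟨rfl, e7⟩
          · exfalso
            have e8 : p = (p.1, 0) := Prod.ext rfl e6
            exact e4 e7 (by rw [← e8]; exact e5)
      · rintro (⟨-, e5⟩ | ⟨e5, -⟩)
        · have e6 : p = (0, p.2) := Prod.ext e5 rfl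
          rw [e6]
          exact e3
        · simp at e5
    · refine ⟨σ, τ, hc, hσ0, true, (false, true), hTt, ?_, by simp⟩
      filter_upwards [hgK, hz, hsnd.eventually h2, hfst.eventually h3] with p e1 e2 e3 e4
      rw [e1]
      constructor
      · intro e5
        rcases e2 e5 with e6 | e6
        · by_cases e7 : p.2 = 0
          · exact Or.inr ⟨rfl, e7⟩
          · exfalso
            have e8 : p = (0, p.2) := Prod.ext e6 rfl
            exact e3 e7 (by rw [← e8]; exact e5)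
        · exact Or.inr ⟨rfl, e6⟩
      · rintro (⟨e5, -⟩ | ⟨-, e5⟩)
        · simp at e5
        · have e6 : p = (p.1, 0) := Prod.ext rfl e5
          rw [e6]
          exact e4
    · refine ⟨σ, τ, hc, hσ0, true, (false, false), hTt, ?_, by simp⟩
      have h4 : ∀ᶠ p in 𝓝 (0 : ℂ × ℂ), p ≠ 0 → g p ≠ 0 := by
        filter_upwards [hz, hsnd.eventually h2, hfst.eventually h3] with p e1 e2 e3 e4 e5
        rcases e1 e5 with e6 | e6
        · have e7 : p = (0, p.2) := Prod.ext e6 rfl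
          refine e2 (fun e8 => e4 (Prod.ext e6 e8)) (by rw [← e7]; exact e5)
        · have e7 : p = (p.1, 0) := Prod.ext rfl e6
          refine e3 (fun e8 => e4 (Prod.ext e8 e6)) (by rw [← e7]; exact e5)
      filter_upwards [hno h4] with p e1
      simp [e1]

end Pool.Agent.H36.BPL

end

section

/-!
# SB/An Bez: a power of `x` is a combination of two germs with an isolated common zero

`a`, `b` analytic at `0` in `ℂ × ℂ`, `a (0, ·)` not zero near `0`, isolated common zero.  For `x` near `0` let `r i` be the zeros of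
`a (x, ·)` in the disc of radius `ρ`, `χ (x, T) = ∏ (T - b (x, r i))`: analytic (`power_sum`, `esymm_newton`).  `χ (x, b (x, y))` is
divisible by `a (x, y)` (Cauchy integral of the quotient), `χ (x, T) - χ (x, 0)` by `T`.  So `χ (x, 0) ∈ (a, b)`, and
`χ (x, 0) ≠ 0` for `x ≠ 0`, so it is `x ^ M` times a unit.
-/

set_option autoImplicit false

open Metric Set Filter Topology

namespace Pool.Agent.SB.Bez

open Pool.Agent.H22.HF

/-- the normalised contour integral -/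
noncomputable def AA {E : Type} [NormedAddCommGroup E] [NormedSpace ℂ E] (g : E × ℂ → ℂ) (ρ : ℝ) (H : E × ℂ → ℂ) (p : E) : ℂ :=
  (2 * Real.pi * Complex.I)⁻¹ * ∮ t in C(0, ρ), H (p, t) * fderiv ℂ g (p, t) (0, 1) / g (p, t)

theorem AA_analytic {E : Type} [NormedAddCommGroup E] [NormedSpace ℂ E] [FiniteDimensional ℂ E] {g H : E × ℂ → ℂ} {ρ : ℝ} (hρ : 0 < ρ) {p : E}
    (hg : ∀ t ∈ sphere (0 : ℂ) ρ, AnalyticAt ℂ g (p, t)) (hH : ∀ t ∈ sphere (0 : ℂ) ρ, AnalyticAt ℂ H (p, t)) (hn : ∀ t ∈ sphere (0 : ℂ) ρ, g (p, t) ≠ 0) :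
    AnalyticAt ℂ (AA g ρ H) p := by
  unfold AA
  refine analyticAt_const.mul (analyticAt_circleIntegral (F := fun z => H z * fderiv ℂ g z (0, 1) / g z) hρ ?_)
  intro t ht
  refine ((hH t ht).mul ?_).div (hg t ht) (hn t ht)
  exact (ContinuousLinearMap.analyticAt (ContinuousLinearMap.apply ℂ ℂ ((0, 1) : E × ℂ)) _).comp (hg t ht).fderiv

theorem AA_eq {E : Type} [NormedAddCommGroup E] [NormedSpace ℂ E] [FiniteDimensional ℂ E] {g H : E × ℂ → ℂ} {ρ : ℝ} (hρ : 0 < ρ) {p : E}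
    (hg : ∀ t ∈ closedBall (0 : ℂ) ρ, AnalyticAt ℂ g (p, t)) (hH : ∀ t ∈ closedBall (0 : ℂ) ρ, AnalyticAt ℂ H (p, t))
    {w : ℂ → ℂ} {ν : ℕ} {r : Fin ν → ℂ} (hr : ∀ i, ‖r i‖ < ρ) (hw : ∀ t ∈ closedBall (0 : ℂ) ρ, AnalyticAt ℂ w t ∧ w t ≠ 0)
    (hφ : ∀ t ∈ closedBall (0 : ℂ) ρ, (fun t => g (p, t)) =ᶠ[𝓝 t] fun t => (∏ i, (t - r i)) * w t) :
    AA g ρ H p = ∑ i, H (p, r i) := by
  have hin : ∀ t : ℂ, AnalyticAt ℂ (fun t : ℂ => ((p, t) : E × ℂ)) t := fun t => analyticAt_const.prod analyticAt_id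
  have hps := power_sum (H := fun t => H (p, t)) hρ hr hw hφ (fun t ht => (hH t ht).comp (hin t))
  have hint : (∮ t in C(0, ρ), H (p, t) * fderiv ℂ g (p, t) (0, 1) / g (p, t)) = ∮ t in C(0, ρ), H (p, t) * deriv (fun t => g (p, t)) t / g (p, t) := by
    refine circleIntegral.integral_congr hρ.le (fun t ht => ?_)
    have h1 : HasFDerivAt g (fderiv ℂ g (p, t)) (p, t) := (hg t (sphere_subset_closedBall ht)).differentiableAt.hasFDerivAt
    have h2 : HasDerivAt (fun t : ℂ => ((p, t) : E × ℂ)) ((0, 1) : E × ℂ) t := (hasDerivAt_const t p).prodMk (hasDerivAt_id t)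
    have h3 : HasDerivAt (fun t => g (p, t)) (fderiv ℂ g (p, t) (0, 1)) t := h1.comp_hasDerivAt t h2
    simp only [h3.deriv]
  unfold AA
  rw [hint, hps, ← mul_assoc, inv_mul_cancel₀, one_mul]
  exact Complex.two_pi_I_ne_zero

/-- the characteristic polynomial of the multiplication by `b` modulo `a` -/
theorem exists_chi {a b : ℂ × ℂ → ℂ} (ha : AnalyticAt ℂ a 0) (hb : AnalyticAt ℂ b 0) (h0 : ¬ ∀ᶠ y in 𝓝 (0 : ℂ), a (0, y) = 0)
    {ε : ℝ} (hε : 0 < ε) :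
    ∃ (ρ : ℝ) (ν : ℕ) (χ : ℂ × ℂ → ℂ), 0 < ρ ∧ ρ ≤ ε ∧ (∀ t ∈ sphere (0 : ℂ) ρ, a (0, t) ≠ 0) ∧
      (∀ t ∈ closedBall (0 : ℂ) ρ, AnalyticAt ℂ a (0, t) ∧ AnalyticAt ℂ b (0, t)) ∧ (∀ T, AnalyticAt ℂ χ (0, T)) ∧
      ∀ᶠ x in 𝓝 (0 : ℂ), (∀ t ∈ closedBall (0 : ℂ) ρ, AnalyticAt ℂ a (x, t) ∧ AnalyticAt ℂ b (x, t)) ∧
        (∀ t ∈ sphere (0 : ℂ) ρ, a (x, t) ≠ 0) ∧
        ∃ (r : Fin ν → ℂ) (w : ℂ → ℂ), (∀ i, ‖r i‖ < ρ) ∧ (∀ t ∈ closedBall (0 : ℂ) ρ, AnalyticAt ℂ w t ∧ w t ≠ 0) ∧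
          (∀ t ∈ closedBall (0 : ℂ) ρ, (fun t => a (x, t)) =ᶠ[𝓝 t] fun t => (∏ i, (t - r i)) * w t) ∧
          ∀ T, χ (x, T) = ∏ i, (T - b (x, r i)) := by
  obtain ⟨δ, hδ, hball⟩ := Metric.eventually_nhds_iff_ball.mp (ha.eventually_analyticAt.and hb.eventually_analyticAt)
  have hg1 : AnalyticAt ℂ (fun t : ℂ => a (0, t)) 0 := by
    have h1 : AnalyticAt ℂ (fun t : ℂ => ((0, t) : ℂ × ℂ)) 0 := analyticAt_const.prod analyticAt_id
    exact AnalyticAt.comp (g := a) (f := fun t : ℂ => ((0, t) : ℂ × ℂ)) ha h1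
  have hne : ∀ᶠ t in 𝓝[≠] (0 : ℂ), a (0, t) ≠ 0 := hg1.eventually_eq_zero_or_eventually_ne_zero.resolve_left h0
  rw [eventually_nhdsWithin_iff] at hne
  obtain ⟨δ₁, hδ₁, hball₁⟩ := Metric.eventually_nhds_iff_ball.mp hne
  set ρ : ℝ := min ε (min (δ / 2) (δ₁ / 2)) with hρdef
  have hρ : 0 < ρ := lt_min hε (lt_min (by linarith) (by linarith))
  have hρε : ρ ≤ ε := min_le_left _ _
  have hρδ : ρ < δ := lt_of_le_of_lt ((min_le_right _ _).trans (min_le_left _ _)) (by linarith)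
  have hρδ₁ : ρ < δ₁ := lt_of_le_of_lt ((min_le_right _ _).trans (min_le_right _ _)) (by linarith)
  have han : ∀ x : ℂ, ‖x‖ < δ → ∀ t ∈ closedBall (0 : ℂ) ρ, AnalyticAt ℂ a (x, t) ∧ AnalyticAt ℂ b (x, t) := by
    intro p hp t ht
    apply hball
    rw [mem_ball_zero_iff, Prod.norm_def]
    rw [mem_closedBall_zero_iff] at ht
    exact max_lt hp (lt_of_le_of_lt ht hρδ)
  have hn0 : ∀ t ∈ sphere (0 : ℂ) ρ, a (0, t) ≠ 0 := by
    intro t ht
    rw [mem_sphere_zero_iff_norm] at ht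
    refine hball₁ t (by rw [mem_ball_zero_iff, ht]; exact hρδ₁) ?_
    rintro rfl
    rw [norm_zero] at ht
    exact hρ.ne ht
  have hev1 : ∀ᶠ p in 𝓝 (0 : ℂ), ‖p‖ < δ := by
    have := Metric.ball_mem_nhds (0 : ℂ) hδ
    filter_upwards [this] with p hp
    simpa using hp
  have hδ0 : ‖(0 : ℂ)‖ < δ := by simpa using hδ
  have hev2 : ∀ᶠ p in 𝓝 (0 : ℂ), ∀ t ∈ sphere (0 : ℂ) ρ, a (p, t) ≠ 0 := by
    refine IsCompact.eventually_forall_of_forall_eventually (isCompact_sphere (0 : ℂ) ρ) (P := fun (p : ℂ) (t : ℂ) => a (p, t) ≠ 0) ?_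
    intro t ht
    have hc : ContinuousAt a (0, t) := ((han 0 hδ0 t (sphere_subset_closedBall ht)).1).continuousAt
    exact hc.eventually_ne (hn0 t ht)
  have hfac : ∀ p : ℂ, ‖p‖ < δ → (∀ t ∈ sphere (0 : ℂ) ρ, a (p, t) ≠ 0) →
      ∃ (ν : ℕ) (r : Fin ν → ℂ) (w : ℂ → ℂ), (∀ i, ‖r i‖ < ρ) ∧ (∀ t ∈ closedBall (0 : ℂ) ρ, AnalyticAt ℂ w t ∧ w t ≠ 0) ∧
      ∀ t ∈ closedBall (0 : ℂ) ρ, (fun t => a (p, t)) =ᶠ[𝓝 t] fun t => (∏ i, (t - r i)) * w t := by
    intro p hp hn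
    refine exists_fac hρ (fun t ht => ?_) hn
    have hin : AnalyticAt ℂ (fun t : ℂ => ((p, t) : ℂ × ℂ)) t := analyticAt_const.prod analyticAt_id
    exact (han p hp t ht).1.comp hin
  obtain ⟨ν, r₀, w₀, hr₀, hw₀, hφ₀⟩ := hfac 0 hδ0 hn0
  have hA1 : AA a ρ (fun _ => 1) 0 = (ν : ℂ) := by
    rw [AA_eq hρ (fun t ht => (han 0 hδ0 t ht).1) (fun t _ => analyticAt_const) hr₀ hw₀ hφ₀]
    simp
  have hA1c : ContinuousAt (AA a ρ (fun _ => 1)) 0 :=
    (AA_analytic hρ (fun t ht => (han 0 hδ0 t (sphere_subset_closedBall ht)).1) (fun t _ => analyticAt_const) hn0).continuousAt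
  have hev3 : ∀ᶠ p in 𝓝 (0 : ℂ), ‖AA a ρ (fun _ => 1) p - (ν : ℂ)‖ < 1 := by
    have := Metric.continuousAt_iff.mp hA1c 1 one_pos
    obtain ⟨η, hη, hη'⟩ := this
    filter_upwards [Metric.ball_mem_nhds (0 : ℂ) hη] with p hp
    have h2 := hη' hp
    rwa [dist_eq_norm, hA1] at h2
  obtain ⟨P, hP⟩ := esymm_newton ν
  -- the functions of three variables
  let g : (ℂ × ℂ) × ℂ → ℂ := fun z => a (z.1.1, z.2)
  let H : (ℂ × ℂ) × ℂ → ℂ := fun z => z.1.2 - b (z.1.1, z.2)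
  have hpr : ∀ z : (ℂ × ℂ) × ℂ, AnalyticAt ℂ (fun z : (ℂ × ℂ) × ℂ => ((z.1.1, z.2) : ℂ × ℂ)) z := fun z =>
    ((analyticAt_fst.comp analyticAt_fst).prod analyticAt_snd)
  have hpT : ∀ z : (ℂ × ℂ) × ℂ, AnalyticAt ℂ (fun z : (ℂ × ℂ) × ℂ => z.1.2) z := fun z =>
    analyticAt_snd.comp analyticAt_fst
  have hg : ∀ x : ℂ, ‖x‖ < δ → ∀ T, ∀ t ∈ closedBall (0 : ℂ) ρ, AnalyticAt ℂ g ((x, T), t) := fun x hx T t ht =>
    AnalyticAt.comp (g := a) (f := fun z : (ℂ × ℂ) × ℂ => ((z.1.1, z.2) : ℂ × ℂ)) (x := ((x, T), t))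
      (han x hx t ht).1 (hpr _)
  have hH : ∀ x : ℂ, ‖x‖ < δ → ∀ T, ∀ t ∈ closedBall (0 : ℂ) ρ, AnalyticAt ℂ H ((x, T), t) := fun x hx T t ht =>
    (hpT _).sub (AnalyticAt.comp (g := b) (f := fun z : (ℂ × ℂ) × ℂ => ((z.1.1, z.2) : ℂ × ℂ)) (x := ((x, T), t))
      (han x hx t ht).2 (hpr _))
  refine ⟨ρ, ν, fun p => MvPolynomial.aeval (fun k : Fin ν => AA g ρ (fun z => H z ^ ((k : ℕ) + 1)) p) P, hρ, hρε, hn0,
    han 0 hδ0, ?_, ?_⟩
  · intro T
    refine AnalyticAt.aeval_mvPolynomial (fun k => ?_) P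
    exact AA_analytic hρ (fun t ht => hg 0 hδ0 T t (sphere_subset_closedBall ht))
      (fun t ht => (hH 0 hδ0 T t (sphere_subset_closedBall ht)).pow _) hn0
  · filter_upwards [hev1, hev2, hev3] with x hx hn h3
    obtain ⟨ν', r, w, hr, hw, hφ⟩ := hfac x hx hn
    have hA1' : AA a ρ (fun _ => 1) x = (ν' : ℂ) := by
      rw [AA_eq hρ (fun t ht => (han x hx t ht).1) (fun t _ => analyticAt_const) hr hw hφ]
      simp
    have hνν : ν' = ν := by
      rw [hA1'] at h3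
      have h4 : ‖(((ν' : ℤ) - (ν : ℤ) : ℤ) : ℂ)‖ < 1 := by push_cast; exact h3
      rw [Complex.norm_intCast] at h4
      have h5 : |(ν' : ℤ) - (ν : ℤ)| < 1 := by exact_mod_cast h4
      rw [Int.abs_lt_one_iff] at h5
      omega
    subst hνν
    refine ⟨han x hx, hn, r, w, hr, hw, hφ, fun T => ?_⟩
    show MvPolynomial.aeval (fun k : Fin ν' => AA g ρ (fun z => H z ^ ((k : ℕ) + 1)) (x, T)) P = _
    have h6 : ∀ k : Fin ν', AA g ρ (fun z => H z ^ ((k : ℕ) + 1)) (x, T) = ∑ i, (T - b (x, r i)) ^ ((k : ℕ) + 1) := fun k =>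
      AA_eq (H := fun z => H z ^ ((k : ℕ) + 1)) hρ (fun t ht => hg x hx T t ht)
        (fun t ht => (hH x hx T t ht).fun_pow _) hr hw hφ
    rw [funext h6, MvPolynomial.aeval_eq_eval, hP (fun i => T - b (x, r i))]

/-- division by the second coordinate -/
theorem exists_div_snd {F : ℂ × ℂ → ℂ} (hF : AnalyticAt ℂ F 0) (h0 : ∀ᶠ x in 𝓝 (0 : ℂ), F (x, 0) = 0) :
    ∃ κ : ℂ × ℂ → ℂ, AnalyticAt ℂ κ 0 ∧ ∀ᶠ p : ℂ × ℂ in 𝓝 0, F p = p.2 * κ p := by
  by_cases hz : ∀ᶠ p : ℂ × ℂ in 𝓝 0, F p = 0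
  · refine ⟨fun _ => 0, analyticAt_const, ?_⟩
    filter_upwards [hz] with p hp
    rw [hp, mul_zero]
  let g : ℂ × ℂ → ℂ := fun p => F p.swap
  have hsw : ∀ p : ℂ × ℂ, AnalyticAt ℂ (fun p : ℂ × ℂ => p.swap) p := fun p =>
    analyticAt_snd.prod analyticAt_fst
  have hswc : Tendsto (fun p : ℂ × ℂ => p.swap) (𝓝 0) (𝓝 0) := by
    have := (hsw 0).continuousAt.tendsto
    simpa using this
  have hg : AnalyticAt ℂ g 0 := AnalyticAt.comp (g := F) (f := fun p : ℂ × ℂ => p.swap) hF (hsw 0)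
  have hne : ¬ ∀ᶠ y in 𝓝 (0 : ℂ × ℂ), g y = 0 := by
    intro h
    refine hz ?_
    filter_upwards [hswc.eventually h] with p hp
    have h1 : g p.swap = 0 := hp
    simpa [g] using h1
  obtain ⟨k, g', hg', hgk, hgn⟩ := exists_div hg hne
  cases k with
  | zero =>
    exfalso
    refine hgn ?_
    have h1 : Tendsto (fun x : ℂ => ((0, x) : ℂ × ℂ)) (𝓝 0) (𝓝 0) := by
      have h2 : Continuous fun x : ℂ => ((0, x) : ℂ × ℂ) := by fun_prop
      exact h2.tendsto 0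
    filter_upwards [h1.eventually hgk, h0] with x hx hx0
    have h2 : g (0, x) = F (x, 0) := rfl
    rw [h2, hx0] at hx
    simpa using hx.symm
  | succ k =>
    refine ⟨fun p => p.2 ^ k * g' p.swap, ?_, ?_⟩
    · exact (analyticAt_snd.pow k).mul (AnalyticAt.comp (g := g') (f := fun p : ℂ × ℂ => p.swap) hg' (hsw 0))
    · filter_upwards [hswc.eventually hgk] with p hp
      have h1 : g p.swap = F p := by simp [g]
      rw [h1] at hp
      rw [hp, Prod.fst_swap, pow_succ]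
      ring

/-- **A power of `x` in the ideal.** -/
theorem exists_bezout {a b : ℂ × ℂ → ℂ} (ha : AnalyticAt ℂ a 0) (hb : AnalyticAt ℂ b 0) (h0 : ¬ ∀ᶠ y in 𝓝 (0 : ℂ), a (0, y) = 0)
    (hiso : ∀ᶠ p in 𝓝 (0 : ℂ × ℂ), p ≠ 0 → a p ≠ 0 ∨ b p ≠ 0) :
    ∃ (M : ℕ) (h k : ℂ × ℂ → ℂ), AnalyticAt ℂ h 0 ∧ AnalyticAt ℂ k 0 ∧
      ∀ᶠ p in 𝓝 (0 : ℂ × ℂ), p.1 ^ M = a p * h p + b p * k p := by
  by_cases hb0 : b 0 = 0
  swap
  · refine ⟨0, fun _ => 0, fun p => (b p)⁻¹, analyticAt_const, hb.inv hb0, ?_⟩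
    filter_upwards [hb.continuousAt.eventually_ne hb0] with p hp
    rw [pow_zero, mul_zero, zero_add, mul_inv_cancel₀ hp]
  obtain ⟨ε, hε, hεb⟩ := Metric.eventually_nhds_iff_ball.mp hiso
  obtain ⟨ρ, ν, χ, hρ, hρε, hn0, han0, hχ, hev⟩ := exists_chi ha hb h0 (ε := ε / 2) (by linarith)
  have hρε' : ρ < ε := by linarith
  -- the quotient of `χ (x, b (x, y))` by `a (x, y)`
  let G : ℂ × ℂ → ℂ := fun p => χ (p.1, b p)
  let h : ℂ × ℂ → ℂ := fun p => (2 * Real.pi * Complex.I)⁻¹ * ∮ t in C(0, ρ), (t - p.2)⁻¹ * (G (p.1, t) / a (p.1, t))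
  have hG : ∀ t ∈ closedBall (0 : ℂ) ρ, AnalyticAt ℂ G (0, t) := by
    intro t ht
    exact AnalyticAt.comp (g := χ) (f := fun p : ℂ × ℂ => (p.1, b p)) (x := (0, t)) (hχ _)
      (analyticAt_fst.prod (han0 t ht).2)
  have hh : AnalyticAt ℂ h 0 := by
    refine analyticAt_const.mul ?_
    refine analyticAt_circleIntegral (F := fun z : (ℂ × ℂ) × ℂ => (z.2 - z.1.2)⁻¹ * (G (z.1.1, z.2) / a (z.1.1, z.2))) hρ ?_
    intro t ht
    have hpr : AnalyticAt ℂ (fun z : (ℂ × ℂ) × ℂ => ((z.1.1, z.2) : ℂ × ℂ)) ((0 : ℂ × ℂ), t) :=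
      ((analyticAt_fst.comp analyticAt_fst).prod analyticAt_snd)
    have hpT : AnalyticAt ℂ (fun z : (ℂ × ℂ) × ℂ => z.1.2) ((0 : ℂ × ℂ), t) := analyticAt_snd.comp analyticAt_fst
    refine AnalyticAt.mul (AnalyticAt.inv (analyticAt_snd.sub hpT) ?_) (AnalyticAt.div ?_ ?_ ?_)
    · show t - (0 : ℂ × ℂ).2 ≠ 0
      rw [Prod.snd_zero, sub_zero]
      rintro rfl
      rw [mem_sphere_zero_iff_norm, norm_zero] at ht
      exact hρ.ne ht
    · exact AnalyticAt.comp (g := G) (f := fun z : (ℂ × ℂ) × ℂ => ((z.1.1, z.2) : ℂ × ℂ)) (x := ((0 : ℂ × ℂ), t))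
        (hG t (sphere_subset_closedBall ht)) hpr
    · exact AnalyticAt.comp (g := a) (f := fun z : (ℂ × ℂ) × ℂ => ((z.1.1, z.2) : ℂ × ℂ)) (x := ((0 : ℂ × ℂ), t))
        (han0 t (sphere_subset_closedBall ht)).1 hpr
    · exact hn0 t ht
  have hfst : Tendsto (fun p : ℂ × ℂ => p.1) (𝓝 0) (𝓝 0) := by
    simpa using (continuous_fst (X := ℂ) (Y := ℂ)).tendsto (0 : ℂ × ℂ)
  have hsnd : Tendsto (fun p : ℂ × ℂ => p.2) (𝓝 0) (𝓝 0) := by
    simpa using (continuous_snd (X := ℂ) (Y := ℂ)).tendsto (0 : ℂ × ℂ)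
  have hdiv : ∀ᶠ p : ℂ × ℂ in 𝓝 0, G p = a p * h p := by
    filter_upwards [hfst.eventually hev, hsnd.eventually (Metric.ball_mem_nhds (0 : ℂ) hρ)] with p hp hp2
    obtain ⟨han, hn, r, w, hr, hw, hφ, hχx⟩ := hp
    have hp2' : p.2 ∈ ball (0 : ℂ) ρ := hp2
    have hbx : ∀ t ∈ closedBall (0 : ℂ) ρ, AnalyticAt ℂ (fun t => b (p.1, t)) t := fun t ht =>
      AnalyticAt.comp (g := b) (f := fun t : ℂ => ((p.1, t) : ℂ × ℂ)) (x := t) (han t ht).2
        (analyticAt_const.prod analyticAt_id)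
    -- the quotient
    let q : ℂ → ℂ := fun t => (∏ i, dslope (fun t => b (p.1, t)) (r i) t) / w t
    have hq : ∀ t ∈ closedBall (0 : ℂ) ρ, G (p.1, t) = a (p.1, t) * q t := by
      intro t ht
      have h1 : G (p.1, t) = ∏ i, (b (p.1, t) - b (p.1, r i)) := hχx _
      have h2 : a (p.1, t) = (∏ i, (t - r i)) * w t := (hφ t ht).eq_of_nhds
      have h3 : ∀ i, b (p.1, t) - b (p.1, r i) = (t - r i) * dslope (fun t => b (p.1, t)) (r i) t := fun i => by
        have := sub_smul_dslope (fun t => b (p.1, t)) (r i) t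
        rw [smul_eq_mul] at this
        rw [this]
      rw [h1, h2, Finset.prod_congr rfl fun i _ => h3 i, Finset.prod_mul_distrib]
      show _ = (∏ i, (t - r i)) * w t * ((∏ i, dslope (fun t => b (p.1, t)) (r i) t) / w t)
      rw [mul_assoc, mul_div_cancel₀ _ (hw t ht).2]
    have hqd : DifferentiableOn ℂ q (closedBall (0 : ℂ) ρ) := by
      intro t ht
      refine DifferentiableWithinAt.div ?_ ((hw t ht).1.differentiableAt.differentiableWithinAt) (hw t ht).2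
      refine DifferentiableWithinAt.fun_finsetProd fun i _ => ?_
      have h4 : DifferentiableOn ℂ (fun t => b (p.1, t)) (ball (0 : ℂ) ρ) := fun s hs =>
        (hbx s (ball_subset_closedBall hs)).differentiableAt.differentiableWithinAt
      by_cases hti : t = r i
      · have h5 : DifferentiableOn ℂ (dslope (fun t => b (p.1, t)) (r i)) (ball (0 : ℂ) ρ) :=
          (Complex.differentiableOn_dslope (Metric.isOpen_ball.mem_nhds (by rw [mem_ball_zero_iff]; exact hr i))).2 h4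
        have h6 : ball (0 : ℂ) ρ ∈ 𝓝 t := Metric.isOpen_ball.mem_nhds (by rw [hti, mem_ball_zero_iff]; exact hr i)
        exact (h5.differentiableAt h6).differentiableWithinAt
      · exact ((differentiableAt_dslope_of_ne hti).2 (hbx t ht).differentiableAt).differentiableWithinAt
    have hC : (∮ t in C(0, ρ), (t - p.2)⁻¹ • q t) = (2 * Real.pi * Complex.I : ℂ) • q p.2 :=
      hqd.diffContOnCl_ball subset_rfl |>.circleIntegral_sub_inv_smul hp2'
    have hC2 : (∮ t in C(0, ρ), (t - p.2)⁻¹ * (G (p.1, t) / a (p.1, t))) = ∮ t in C(0, ρ), (t - p.2)⁻¹ • q t := by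
      refine circleIntegral.integral_congr hρ.le fun t ht => ?_
      show (t - p.2)⁻¹ * (G (p.1, t) / a (p.1, t)) = (t - p.2)⁻¹ • q t
      rw [hq t (sphere_subset_closedBall ht), mul_div_cancel_left₀ _ (hn t ht), smul_eq_mul]
    have hhp : h p = q p.2 := by
      show (2 * Real.pi * Complex.I)⁻¹ * (∮ t in C(0, ρ), (t - p.2)⁻¹ * (G (p.1, t) / a (p.1, t))) = q p.2
      rw [hC2, hC, smul_eq_mul, ← mul_assoc, inv_mul_cancel₀ Complex.two_pi_I_ne_zero, one_mul]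
    rw [hhp]
    exact hq p.2 (ball_subset_closedBall hp2')
  -- `χ (x, T) - χ (x, 0)`
  have hχ0 : AnalyticAt ℂ (fun x : ℂ => χ (x, 0)) 0 :=
    AnalyticAt.comp (g := χ) (f := fun x : ℂ => ((x, 0) : ℂ × ℂ)) (x := 0) (hχ 0) (analyticAt_id.prod analyticAt_const)
  have hχ0' : AnalyticAt ℂ (fun p : ℂ × ℂ => χ (p.1, 0)) 0 :=
    AnalyticAt.comp (g := χ) (f := fun p : ℂ × ℂ => ((p.1, 0) : ℂ × ℂ)) (x := 0) (hχ 0) (analyticAt_fst.prod analyticAt_const)
  obtain ⟨κ, hκ, hκe⟩ := exists_div_snd (F := fun p => χ p - χ (p.1, 0)) ((hχ 0).sub hχ0')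
    (Filter.Eventually.of_forall fun x => sub_self _)
  have hbp : Tendsto (fun p : ℂ × ℂ => ((p.1, b p) : ℂ × ℂ)) (𝓝 0) (𝓝 0) := by
    have h1 := (analyticAt_fst.prod hb : AnalyticAt ℂ (fun p : ℂ × ℂ => (p.1, b p)) 0).continuousAt.tendsto
    rw [hb0] at h1
    exact h1
  -- `χ (x, 0) ≠ 0`
  have hχne : ∀ᶠ x in 𝓝[≠] (0 : ℂ), χ (x, 0) ≠ 0 := by
    rw [eventually_nhdsWithin_iff]
    filter_upwards [hev, Metric.ball_mem_nhds (0 : ℂ) hε] with x hx hxε hx0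
    obtain ⟨han, hn, r, w, hr, hw, hφ, hχx⟩ := hx
    rw [hχx 0]
    refine Finset.prod_ne_zero_iff.2 fun i _ => ?_
    rw [zero_sub, neg_ne_zero]
    have h1 : a (x, r i) = 0 := by
      have h2 := (hφ (r i) (by rw [mem_closedBall_zero_iff]; exact (hr i).le)).eq_of_nhds
      have h2' : a (x, r i) = (∏ j, (r i - r j)) * w (r i) := h2
      rw [h2', Finset.prod_eq_zero (Finset.mem_univ i) (sub_self _), zero_mul]
    have h3 := hεb (x, r i) (by
      rw [mem_ball_zero_iff, Prod.norm_def]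
      rw [mem_ball_zero_iff] at hxε
      exact max_lt hxε ((hr i).trans hρε')) (by
      intro h
      exact hx0 (congrArg Prod.fst h))
    rcases h3 with h3 | h3
    · exact absurd h1 h3
    · exact h3
  have hnot : ¬ ∀ᶠ x in 𝓝 (0 : ℂ), χ (x, 0) = 0 := by
    intro h
    have h1 : ∀ᶠ x in 𝓝[≠] (0 : ℂ), χ (x, 0) = 0 := h.filter_mono nhdsWithin_le_nhds
    obtain ⟨x, hx1, hx2⟩ := (h1.and hχne).exists
    exact hx2 hx1
  obtain ⟨M, u, hu, hu0, hMu⟩ := (hχ0.exists_eventuallyEq_pow_smul_nonzero_iff).2 hnot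
  have hu' : AnalyticAt ℂ (fun p : ℂ × ℂ => (u p.1)⁻¹) 0 :=
    AnalyticAt.inv (AnalyticAt.comp (g := u) (f := fun p : ℂ × ℂ => p.1) (x := 0) hu analyticAt_fst) hu0
  refine ⟨M, fun p => (u p.1)⁻¹ * h p, fun p => -((u p.1)⁻¹ * κ (p.1, b p)), hu'.mul hh, ?_, ?_⟩
  · refine (hu'.mul ?_).neg
    refine AnalyticAt.comp (g := κ) (f := fun p : ℂ × ℂ => ((p.1, b p) : ℂ × ℂ)) (x := 0) ?_ (analyticAt_fst.prod hb)
    have h1 : ((0 : ℂ × ℂ).1, b 0) = (0 : ℂ × ℂ) := by rw [hb0]; rfl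
    rw [h1]
    exact hκ
  · filter_upwards [hdiv, hbp.eventually hκe, hfst.eventually hMu, hfst.eventually (hu.continuousAt.eventually_ne hu0)]
      with p h1 h2 h3 h4
    have h2' : χ (p.1, b p) - χ (p.1, 0) = b p * κ (p.1, b p) := h2
    have h1' : χ (p.1, b p) = a p * h p := h1
    have h3' : χ (p.1, 0) = p.1 ^ M * u p.1 := by
      have : χ (p.1, 0) = (p.1 - 0) ^ M • u p.1 := h3
      rw [this, sub_zero, smul_eq_mul]
    have h5 : p.1 ^ M = (u p.1)⁻¹ * χ (p.1, 0) := by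
      rw [h3']
      field_simp
    have h6 : χ (p.1, 0) = a p * h p - b p * κ (p.1, b p) := by
      rw [← h1', ← h2']
      ring
    rw [h5, h6]
    ring

end Pool.Agent.SB.Bez

end

section

/-!
# SY EiN: the metric along entire curves, the nodal case

`H14.KB.nodal_metric` gives the metric on the cone `L.symm ⁻¹' X` in `EN N`, `energy_of_metric` the metric along the entire curves in it; both are
pulled back by `L`.
-/

set_option autoImplicit false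

open Topology Filter Metric

noncomputable section

namespace Pool.Agent.SY

open Pool.Agent.H36.BP (EN fs wd Sub MetricData mt Curve)
open Pool.Agent.H17BP (Pr)
open Pool.Agent.H14.PP (IsCone)

variable {V : Type} [NormedAddCommGroup V] [NormedSpace ℂ V]

/-- curves in the transported cone -/
theorem ent_transport {N : ℕ} (L : V ≃L[ℂ] EN N) {X T : Set V} {F : ℂ → V} (hF : Ent X T F) :
    Ent (L.symm ⁻¹' X : Set (EN N)) (L.symm ⁻¹' T) (fun z => L (F z)) := by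
  refine ⟨(L : V →L[ℂ] EN N).differentiable.comp hF.diff, fun z => ?_, ?_⟩
  · show L.symm (L (F z)) ∈ X
    rw [L.symm_apply_apply]
    exact hF.mem z
  · obtain ⟨z, hz⟩ := hF.out
    refine ⟨z, fun h => hz ?_⟩
    have h1 : L.symm (L (F z)) ∈ T := h
    rwa [L.symm_apply_apply] at h1

end Pool.Agent.SY

end
end
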