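import Pool.Agent.H43.TL2.M35
import Pool.Agent.H43.TL2.M42
import Pool.Agent.H43.TL2.M77
import Pool.Agent.H43.TL2.M86
import Pool.Agent.H43.TL2.M89

/-! The parts of this file: H62.BU.FormK, SB.An.Ops, SB.An.TreeR, SB.Chd, SB.Eig, SB.Nilp, SB.Fin, MQ2.Uni. -/

section

/-!
# BU FormK: the pull back of a form on an open part of the surface to the blow-up

`K` is an open part of the surface `X`; the open part of the blow-up is `total l X K`.
-/

set_option autoImplicit false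

namespace Pool.Agent.H62.BU

open Filter Topology
open Pool.Agent.H36.BPL (OpenPart PoleLE VanOff)

variable {V : Type} [NormedAddCommGroup V] [NormedSpace ℂ V] {ι : Type} [Fintype ι]
variable {l : ι → V →L[ℂ] ℂ} {X K T : Set V} {q : V} {m j e : ℕ} {Ω : V → V → V → ℂ}

theorem total_smul (hK : ∀ x ∈ K, ∀ c : ℂ, c ≠ 0 → c • x ∈ K) (y : ι → V) (hy : y ∈ total l X K) (c : ℂ) (hc : c ≠ 0) :
    c • y ∈ total l X K := by
  refine ⟨blow_smul y hy.1 c hc, fun b hb => ?_⟩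
  rw [Pi.smul_apply] at hb ⊢
  exact hK _ (hy.2 b fun h0 => hb (by rw [h0, smul_zero])) c hc

theorem tan_total {y v : ι → V} (hv : Tan (total l X K) y v) : Tan (blow l X) y v := by
  obtain ⟨γ, h1, h2, h3, h4⟩ := hv
  exact ⟨γ, h1, h2.mono fun z hz => hz.1, h3, h4⟩

theorem tan_compK {y v : ι → V} (hv : Tan (total l X K) y v) {b : ι} (hb : y b ≠ 0) : Tan K (y b) (v b) := by
  obtain ⟨γ, hγ, hmem, h0, hd⟩ := hv
  have hpr : AnalyticAt ℂ (fun z : ι → V => z b) (γ 0) :=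
    (ContinuousLinearMap.proj (R := ℂ) (φ := fun _ : ι => V) b).analyticAt _
  have han : AnalyticAt ℂ (fun z => γ z b) 0 := hpr.comp hγ
  refine ⟨fun z => γ z b, han, ?_, by show γ 0 b = y b; rw [h0], ?_⟩
  · have h1 : ∀ᶠ z in 𝓝 (0 : ℂ), γ z b ≠ 0 := by
      have h2 : Tendsto (fun z => γ z b) (𝓝 0) (𝓝 (γ 0 b)) := han.continuousAt
      rw [h0] at h2
      exact h2.eventually_ne hb
    filter_upwards [hmem, h1] with z hz1 hz2
    exact hz1.2 b hz2
  · have h1 : HasDerivAt γ v 0 := by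
      rw [← hd]; exact hγ.differentiableAt.hasDerivAt
    exact (hasDerivAt_pi.mp h1 b).deriv

private theorem FormK_tan_smul {W : Type*} [NormedAddCommGroup W] [NormedSpace ℂ W] {Y : Set W}
    (hY : ∀ x ∈ Y, ∀ c : ℂ, c ≠ 0 → c • x ∈ Y) {x v : W} (hv : Tan Y x v) {c : ℂ} (hc : c ≠ 0) :
    Tan Y (c • x) (c • v) := by
  obtain ⟨γ, hγ, hmem, h0, hd⟩ := hv
  refine ⟨fun z => c • γ z, analyticAt_const.smul hγ, ?_, by show c • γ 0 = c • x; rw [h0], ?_⟩
  · filter_upwards [hmem] with z hz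
    exact hY _ hz c hc
  · have h1 : HasDerivAt γ v 0 := by
      rw [← hd]; exact hγ.differentiableAt.hasDerivAt
    exact (h1.const_smul c).deriv

private theorem FormK_indep (hK : ∀ x ∈ K, ∀ c : ℂ, c ≠ 0 → c • x ∈ K) (hΩ : IsForm K m j Ω) {y v w : ι → V}
    (hy : y ∈ total l X K) (hv : Tan (total l X K) y v) (hw : Tan (total l X K) y w) {b b' : ι} (hb : y b ≠ 0) (hb' : y b' ≠ 0) :
    l b' (y b') ^ j * Ω (y b') (v b') (w b') ^ 2 = l b (y b) ^ j * Ω (y b) (v b) (w b) ^ 2 := by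
  obtain ⟨c, hc⟩ := comp_smul y hy.1 hb b'
  have hc0 : c ≠ 0 := by
    rintro rfl
    rw [zero_smul] at hc
    exact hb' hc
  obtain ⟨μ, hμ⟩ := tan_rel hy.1 (tan_total hv) hb b'
  obtain ⟨ν, hν⟩ := tan_rel hy.1 (tan_total hw) hb b'
  have e1 := hμ c hc
  have e2 := hν c hc
  have hyb : y b ∈ K := hy.2 b hb
  have hcy : c • y b ∈ K := hK _ hyb c hc0
  have tv := tan_compK hv hb
  have tw := tan_compK hw hb
  have tv' := FormK_tan_smul hK tv hc0
  have tw' := FormK_tan_smul hK tw hc0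
  have e3 : l b' (y b') = c ^ 2 * l b (y b) := by
    have h1 : l b' (y b') = c * l b' (y b) := by rw [hc, map_smul, smul_eq_mul]
    have h2 : l b' (y b) = l b (y b') := (symm y hy.1 b b').symm
    have h3 : l b (y b') = c * l b (y b) := by rw [hc, map_smul, smul_eq_mul]
    rw [h1, h2, h3]
    ring
  have e4 : Ω (y b') (v b') (w b') = Ω (c • y b) (c • v b) (c • w b) := by
    have h1 := hΩ.add_smul (c • y b) hcy (c • v b) (c • w b) tv' tw' (μ / c) (ν / c)
    rw [smul_smul, smul_smul, div_mul_cancel₀ _ hc0, div_mul_cancel₀ _ hc0] at h1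
    rw [e1, e2, hc]
    exact h1
  have e5 := hΩ.scale (y b) hyb (v b) (w b) tv tw c hc0
  rw [e3, e4, ← e5, mul_pow]
  ring

theorem om_eqK (hK : ∀ x ∈ K, ∀ c : ℂ, c ≠ 0 → c • x ∈ K) (hΩ : IsForm K m j Ω) {y v w : ι → V} (hy : y ∈ total l X K)
    (hv : Tan (total l X K) y v) (hw : Tan (total l X K) y w) {b : ι} (hb : y b ≠ 0) :
    om l j Ω y v w = l b (y b) ^ j * Ω (y b) (v b) (w b) ^ 2 := by
  have h : ∃ b, y b ≠ 0 := ⟨b, hb⟩
  rw [om, dif_pos h]
  exact FormK_indep hK hΩ hy hv hw hb h.choose_spec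

private theorem FormK_def {y : ι → V} (hy : y ∈ blow l X) :
    ∃ b, y b ≠ 0 ∧ ∀ v w : ι → V, om l j Ω y v w = l b (y b) ^ j * Ω (y b) (v b) (w b) ^ 2 := by
  have h : ∃ b, y b ≠ 0 := exists_ne y hy
  refine ⟨h.choose, h.choose_spec, fun v w => ?_⟩
  rw [om, dif_pos h]

private theorem FormK_fderiv {φ : ℂ × ℂ → ι → V} {y : ℂ × ℂ} (h3 : AnalyticAt ℂ φ y) (b : ι) (w : ℂ × ℂ) :
    fderiv ℂ (fun y => φ y b) y w = (fderiv ℂ φ y w) b := by
  have h5 := h3.differentiableAt.hasFDerivAt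
  have h6 : HasFDerivAt (fun y => φ y b)
      ((ContinuousLinearMap.proj (R := ℂ) (φ := fun _ : ι => V) b).comp (fderiv ℂ φ y)) y :=
    ((ContinuousLinearMap.proj (R := ℂ) (φ := fun _ : ι => V) b).hasFDerivAt (x := φ y)).comp y h5
  rw [h6.fderiv]
  rfl

theorem isForm_omK [FiniteDimensional ℂ V] (hK : ∀ x ∈ K, ∀ c : ℂ, c ≠ 0 → c • x ∈ K) (hΩ : IsForm K m j Ω) :
    IsForm (total l X K) (2 * m) j (om l j Ω) := by
  have : CompleteSpace V := FiniteDimensional.complete ℂ V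
  refine ⟨?_, ?_, ?_, ?_⟩
  · intro y hy v w hv hw a b'
    obtain ⟨b, hb, hom⟩ := FormK_def (l := l) (j := j) (Ω := Ω) hy.1
    rw [hom, hom]
    have h1 := hΩ.add_smul (y b) (hy.2 b hb) (v b) (w b) (tan_compK hv hb) (tan_compK hw hb) a b'
    simp only [Pi.add_apply, Pi.smul_apply]
    rw [h1]
  · intro y hy v w hv hw a b' c d
    obtain ⟨b, hb, hom⟩ := FormK_def (l := l) (j := j) (Ω := Ω) hy.1
    rw [hom, hom]
    have h1 := hΩ.det (y b) (hy.2 b hb) (v b) (w b) (tan_compK hv hb) (tan_compK hw hb) a b' c d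
    simp only [Pi.add_apply, Pi.smul_apply]
    rw [h1, mul_pow, ← pow_mul, mul_comm m 2]
    ring
  · intro y hy v w hv hw c hc
    obtain ⟨b, hb, hom⟩ := FormK_def (l := l) (j := j) (Ω := Ω) hy.1
    have hcy : c • y ∈ total l X K := total_smul hK y hy c hc
    have hcb : (c • y) b ≠ 0 := by
      rw [Pi.smul_apply]
      exact smul_ne_zero hc hb
    rw [hom, om_eqK hK hΩ hcy (FormK_tan_smul (total_smul hK) hv hc) (FormK_tan_smul (total_smul hK) hw hc) hcb]
    have h1 := hΩ.scale (y b) (hy.2 b hb) (v b) (w b) (tan_compK hv hb) (tan_compK hw hb) c hc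
    simp only [Pi.smul_apply, map_smul, smul_eq_mul]
    rw [← h1, mul_pow]
    ring
  · intro φ p hφ hmem
    have hp : φ p ∈ total l X K := hmem.self_of_nhds
    obtain ⟨b, hb⟩ := exists_ne (φ p) hp.1
    have hψ : AnalyticAt ℂ (fun y => φ y b) p :=
      AnalyticAt.comp ((ContinuousLinearMap.proj (R := ℂ) (φ := fun _ : ι => V) b).analyticAt _) hφ
    have hne : ∀ᶠ y in 𝓝 p, φ y b ≠ 0 := by
      have h1 : Tendsto (fun y => φ y b) (𝓝 p) (𝓝 (φ p b)) := hψ.continuousAt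
      exact h1.eventually_ne hb
    have hψX : ∀ᶠ y in 𝓝 p, φ y b ∈ K := by
      filter_upwards [hmem, hne] with y h1 h2
      exact h1.2 b h2
    have hl : AnalyticAt ℂ (fun y => l b (φ y b)) p := AnalyticAt.comp ((l b).analyticAt _) hψ
    have hΩa := hΩ.analytic (fun y => φ y b) p hψ hψX
    refine ((hl.pow j).mul (hΩa.pow 2)).congr ?_
    filter_upwards [eventually_eventually_nhds.mpr hmem, hne, hφ.eventually_analyticAt] with y h1 h2 h3
    rw [om_eqK hK hΩ h1.self_of_nhds (tan_fderiv h3 h1 (1, 0)) (tan_fderiv h3 h1 (0, 1)) h2]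
    simp only [Pi.mul_apply, Pi.pow_apply, FormK_fderiv h3]

/-- (1) the form on the open part of the blow-up -/
theorem formK [FiniteDimensional ℂ V] (hK : OpenPart X K) (hΩ : Pool.Agent.H17BP.IsForm K m j Ω) :
    Pool.Agent.H17BP.IsForm (total l X K) (2 * m) j (om l j Ω) :=
  ofForm (isForm_omK hK.smul (toForm hΩ))

/-- (2) the form on the open part of the blow-up has no zeros off the total transform -/
theorem noZerosK (hX : Pool.Agent.H17BP.Surface X) (hK : OpenPart X K) (hΩ : Pool.Agent.H17BP.IsForm K m j Ω)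
    (hT : ∀ x ∈ T, ∀ c : ℂ, c ≠ 0 → c • x ∈ T) (hl : Ker l q) (hq : q ∈ T) (hn : Pool.Agent.H17BP.NoZeros K T Ω) :
    Pool.Agent.H17BP.NoZeros (total l X K) (total l X T) (om l j Ω) := by
  intro y hy hyt v hv w hw hi
  have h1 : ∃ b, y b ≠ 0 ∧ y b ∉ T := by
    by_contra hcon
    push Not at hcon
    exact hyt ⟨hy.1, hcon⟩
  obtain ⟨b, hb, hbT⟩ := h1
  have h2 : ∃ b', l b' (y b) ≠ 0 := by
    by_contra hcon
    push Not at hcon
    obtain ⟨c, hc⟩ := (hl _).mp hcon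
    have hc0 : c ≠ 0 := by
      rintro rfl
      rw [zero_smul] at hc
      exact hb hc
    rw [hc] at hbT
    exact hbT (hT q hq c hc0)
  obtain ⟨b', hb'⟩ := h2
  have hv' : Tan (total l X K) y v := hv
  have hw' : Tan (total l X K) y w := hw
  rw [om_eqK hK.smul (toForm hΩ) hy hv' hw' hb]
  refine mul_ne_zero (pow_ne_zero _ (ne_of_ne y hy.1 hb hb')) (pow_ne_zero _ ?_)
  exact hn (y b) (hy.2 b hb) hbT (v b) (tan_compK hv' hb) (w b) (tan_compK hw' hb)
    (indep_off (toSurface hX) hy.1 (tan_total hv') (tan_total hw') hb hb' hi)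

/-- (3) the order of the poles along the boundary -/
theorem poleLE_om [FiniteDimensional ℂ V] (hX : Pool.Agent.H17BP.Surface X) (hK : OpenPart X K) (hΩ : Pool.Agent.H17BP.IsForm K m j Ω)
    (hP : PoleLE X K e Ω) : PoleLE (blow l X) (total l X K) (2 * e) (om l j Ω) := by
  have : CompleteSpace V := FiniteDimensional.complete ℂ V
  have hX' := toSurface hX
  intro φ p hφ hmem G hG hGg
  have hp : φ p ∈ blow l X := hmem.self_of_nhds
  obtain ⟨b, hb⟩ := exists_ne (φ p) hp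
  have hψ : AnalyticAt ℂ (fun y => φ y b) p :=
    AnalyticAt.comp ((ContinuousLinearMap.proj (R := ℂ) (φ := fun _ : ι => V) b).analyticAt _) hφ
  have hne : ∀ᶠ y in 𝓝 p, φ y b ≠ 0 := by
    have h1 : Tendsto (fun y => φ y b) (𝓝 p) (𝓝 (φ p b)) := hψ.continuousAt
    exact h1.eventually_ne hb
  have hψX : ∀ᶠ y in 𝓝 p, φ y b ∈ X := by
    filter_upwards [hmem, hne] with y h1 h2
    exact comp_mem hX' _ h1 h2
  have hiff : ∀ᶠ y in 𝓝 p, (φ y ∈ total l X K ↔ φ y b ∈ K) := by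
    filter_upwards [hmem, hne] with y h1 h2
    exact mem_total_iff hX' hK.smul _ h1 h2
  have hl : AnalyticAt ℂ (fun y => l b (φ y b)) p := AnalyticAt.comp ((l b).analyticAt _) hψ
  have hvan : ∀ g ∈ G, VanOff K (fun y => φ y b) p g := by
    intro g hg
    obtain ⟨h1, h2⟩ := hGg g hg
    refine ⟨h1, ?_⟩
    filter_upwards [h2, hiff] with y h3 h4 h5
    exact h3 fun h6 => h5 (h4.mp h6)
  obtain ⟨b₁, hb₁, hb₁e⟩ := hP (fun y => φ y b) p hψ hψX (G.take e) (by rw [List.length_take]; omega)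
    (fun g hg => hvan g (List.mem_of_mem_take hg))
  obtain ⟨b₂, hb₂, hb₂e⟩ := hP (fun y => φ y b) p hψ hψX (G.drop e) (by rw [List.length_drop]; omega)
    (fun g hg => hvan g (List.mem_of_mem_drop hg))
  -- the open part of the blow-up is relatively open
  have hopen : ∀ᶠ y in 𝓝 p, φ y ∈ total l X K → ∀ᶠ y' in 𝓝 y, φ y' ∈ total l X K := by
    filter_upwards [eventually_eventually_nhds.mpr hiff, eventually_eventually_nhds.mpr hψX, hψ.eventually_analyticAt]
      with y h1 h2 h3 h4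
    have h5 : φ y b ∈ K := h1.self_of_nhds.mp h4
    have h6 : ∀ᶠ y' in 𝓝 y, φ y' b ∈ X → φ y' b ∈ K := h3.continuousAt.eventually (hK.rel _ h5)
    filter_upwards [h1, h2, h6] with y' h7 h8 h9
    exact h7.mpr (h9 h8)
  refine ⟨fun y => l b (φ y b) ^ j * (b₁ y * b₂ y), (hl.pow j).mul (hb₁.mul hb₂), ?_⟩
  filter_upwards [hb₁e, hb₂e, hopen, hne, hφ.eventually_analyticAt, hiff] with y h1 h2 h3 h4 h5 h6 h7
  have h8 := h3 h7
  have h9 : φ y b ∈ K := h6.mp h7
  rw [h1 h9, h2 h9, om_eqK hK.smul (toForm hΩ) h7 (tan_fderiv h5 h8 (1, 0)) (tan_fderiv h5 h8 (0, 1)) h4]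
  have h10 : (G.map fun g => g y).prod = ((G.take e).map fun g => g y).prod * ((G.drop e).map fun g => g y).prod := by
    rw [← List.prod_append, ← List.map_append, List.take_append_drop]
  rw [h10, FormK_fderiv h5, FormK_fderiv h5]
  ring

end Pool.Agent.H62.BU

end

section

/-!
# SB/An Ops: Taylor series of sums, products, blow-ups; exact division
-/

set_option autoImplicit false

open Topology MvPowerSeries Asymptotics Filter

noncomputable section

namespace Pool.Agent.SB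

/-! ### the ideals `Ord N` -/

theorem Ord.add {N : ℕ} {a b : R2} (ha : Ord N a) (hb : Ord N b) : Ord N (a + b) := fun i j h => by
  rw [cf_add, ha i j h, hb i j h, add_zero]

theorem Ord.sub {N : ℕ} {a b : R2} (ha : Ord N a) (hb : Ord N b) : Ord N (a - b) := fun i j h => by
  rw [cf_sub, ha i j h, hb i j h, sub_zero]

theorem Ord.mul_right {N : ℕ} {a : R2} (ha : Ord N a) (b : R2) : Ord N (a * b) := fun i j h => by
  rw [cf_mul]
  refine Finset.sum_eq_zero fun p hp => Finset.sum_eq_zero fun q hq => ?_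
  rw [Finset.HasAntidiagonal.mem_antidiagonal] at hp hq
  rw [ha p.1 q.1 (by omega), zero_mul]

theorem Ord.mul_left {N : ℕ} {a : R2} (ha : Ord N a) (b : R2) : Ord N (b * a) := by
  rw [mul_comm]
  exact ha.mul_right b

theorem ord_zero (N : ℕ) : Ord N (0 : R2) := fun i j _ => by
  rw [cf, map_zero]

/-! ### polynomials near `0` -/

theorem eval_fin2 (P : MvPolynomial (Fin 2) ℂ) (x y : ℂ) :
    MvPolynomial.eval ![x, y] P = ∑ d ∈ P.support, MvPolynomial.coeff d P * (x ^ d 0 * y ^ d 1) := by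
  rw [MvPolynomial.eval_eq']
  refine Finset.sum_congr rfl fun d _ => ?_
  rw [Fin.prod_univ_two]
  rfl

theorem cf_coe (P : MvPolynomial (Fin 2) ℂ) (i j : ℕ) : cf (P : R2) i j = MvPolynomial.coeff (ex i j) P :=
  MvPolynomial.coeff_coe _ _

theorem poly_isBigO_one (P : MvPolynomial (Fin 2) ℂ) :
    (fun p : ℂ × ℂ => MvPolynomial.eval ![p.1, p.2] P) =O[𝓝 0] fun _ : ℂ × ℂ => (1 : ℝ) := by
  have h1 : Continuous fun p : ℂ × ℂ => MvPolynomial.eval ![p.1, p.2] P := by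
    simp only [eval_fin2]
    fun_prop
  exact h1.continuousAt.isBigO_one ℝ

theorem isBigO_of_ord {Q : MvPolynomial (Fin 2) ℂ} {N : ℕ} (h : Ord N (Q : R2)) :
    (fun p : ℂ × ℂ => MvPolynomial.eval ![p.1, p.2] Q) =O[𝓝 0] fun p => ‖p‖ ^ N := by
  simp only [eval_fin2]
  refine IsBigO.fun_sum fun d hd => ?_
  have h1 : N ≤ d 0 + d 1 := by
    by_contra hlt
    push Not at hlt
    have h2 := h (d 0) (d 1) hlt
    rw [cf_coe, ex_eq] at h2
    exact (MvPolynomial.mem_support_iff.1 hd) h2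
  refine IsBigO.const_mul_left ?_ _
  refine IsBigO.of_bound 1 ?_
  filter_upwards [Metric.ball_mem_nhds (0 : ℂ × ℂ) one_pos] with p hp
  rw [mem_ball_zero_iff] at hp
  rw [norm_mul, norm_pow, norm_pow, one_mul, norm_pow, norm_norm]
  calc ‖p.1‖ ^ d 0 * ‖p.2‖ ^ d 1 ≤ ‖p‖ ^ d 0 * ‖p‖ ^ d 1 := by
        gcongr
        · exact norm_fst_le p
        · exact norm_snd_le p
    _ = ‖p‖ ^ (d 0 + d 1) := (pow_add _ _ _).symm
    _ ≤ ‖p‖ ^ N := pow_le_pow_of_le_one (norm_nonneg _) hp.le h1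

/-! ### operations -/

theorem Jet.isBigO_one {f : ℂ × ℂ → ℂ} {s : R2} (h : Jet f s) : f =O[𝓝 0] fun _ : ℂ × ℂ => (1 : ℝ) := by
  obtain ⟨P, -, hP⟩ := h 0
  have h1 : (fun p : ℂ × ℂ => f p - MvPolynomial.eval ![p.1, p.2] P) =O[𝓝 0] fun _ : ℂ × ℂ => (1 : ℝ) := by
    simpa using hP
  have h2 := h1.add (poly_isBigO_one P)
  refine h2.congr_left fun p => ?_
  ring

theorem Jet.congr {f g : ℂ × ℂ → ℂ} {s : R2} (h : Jet f s) (hfg : ∀ᶠ p in 𝓝 0, f p = g p) : Jet g s := by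
  intro N
  obtain ⟨P, h1, h2⟩ := h N
  refine ⟨P, h1, h2.congr' ?_ EventuallyEq.rfl⟩
  filter_upwards [hfg] with p hp
  rw [hp]

theorem Jet.add {f g : ℂ × ℂ → ℂ} {s s' : R2} (h : Jet f s) (h' : Jet g s') : Jet (fun p => f p + g p) (s + s') := by
  intro N
  obtain ⟨P, h1, h2⟩ := h N
  obtain ⟨P', h1', h2'⟩ := h' N
  refine ⟨P + P', ?_, ?_⟩
  · rw [MvPolynomial.coe_add, add_sub_add_comm]
    exact h1.add h1'
  · refine (h2.add h2').congr_left fun p => ?_
    rw [map_add]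
    ring

theorem Jet.mul {f g : ℂ × ℂ → ℂ} {s s' : R2} (h : Jet f s) (h' : Jet g s') : Jet (fun p => f p * g p) (s * s') := by
  intro N
  obtain ⟨P, h1, h2⟩ := h N
  obtain ⟨P', h1', h2'⟩ := h' N
  refine ⟨P * P', ?_, ?_⟩
  · rw [MvPolynomial.coe_mul]
    have h3 : s * s' - (P : R2) * (P' : R2) = (s - P) * s' + P * (s' - P') := by ring
    rw [h3]
    exact (h1.mul_right _).add (h1'.mul_left _)
  · have h4 : (fun p : ℂ × ℂ => MvPolynomial.eval ![p.1, p.2] P * (g p - MvPolynomial.eval ![p.1, p.2] P')) =O[𝓝 0]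
        fun p => ‖p‖ ^ N * 1 := ((poly_isBigO_one P).mul h2').congr_right fun p => by ring
    refine (((h2.mul h'.isBigO_one).add h4).congr_right fun p => ?_).congr_left fun p => ?_
    · ring
    · rw [map_mul]
      ring

theorem jet_poly (P : MvPolynomial (Fin 2) ℂ) : Jet (fun p => MvPolynomial.eval ![p.1, p.2] P) (P : R2) := fun N =>
  ⟨P, by rw [sub_self]; exact ord_zero N, by simpa using isBigO_zero _ _⟩

theorem jet_const (c : ℂ) : Jet (fun _ => c) (C c) := by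
  have h := jet_poly (MvPolynomial.C c)
  simpa using h

theorem jet_zero : Jet (fun _ => 0) 0 := by
  have h := jet_const 0
  rwa [map_zero] at h

theorem jet_fst : Jet (fun p => p.1) (X 0) := by
  have h := jet_poly (MvPolynomial.X 0)
  simpa using h

theorem jet_snd : Jet (fun p => p.2) (X 1) := by
  have h := jet_poly (MvPolynomial.X 1)
  simpa using h

theorem Jet.neg {f : ℂ × ℂ → ℂ} {s : R2} (h : Jet f s) : Jet (fun p => -f p) (-s) := by
  have h1 := (jet_const (-1)).mul h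
  rw [map_neg, map_one, neg_one_mul] at h1
  refine h1.congr (Filter.Eventually.of_forall fun p => ?_)
  ring

theorem Jet.sub {f g : ℂ × ℂ → ℂ} {s s' : R2} (h : Jet f s) (h' : Jet g s') : Jet (fun p => f p - g p) (s - s') := by
  have h1 := h.add h'.neg
  rw [← sub_eq_add_neg] at h1
  refine h1.congr (Filter.Eventually.of_forall fun p => ?_)
  ring

theorem jet_fst_pow (n : ℕ) : Jet (fun p => p.1 ^ n) (X 0 ^ n) := by
  induction n with
  | zero =>
    have h := jet_const 1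
    rw [map_one] at h
    simpa using h
  | succ n ih =>
    have h := ih.mul jet_fst
    rw [← pow_succ] at h
    refine h.congr (Filter.Eventually.of_forall fun p => ?_)
    rw [pow_succ]

/-- the point of the blow-up -/
def bt (t : ℂ) (p : ℂ × ℂ) : ℂ × ℂ := (p.1, p.1 * (p.2 + t))

theorem bt_zero (t : ℂ) : bt t 0 = 0 := by
  simp [bt]

theorem bt_analytic (t : ℂ) (p : ℂ × ℂ) : AnalyticAt ℂ (bt t) p :=
  analyticAt_fst.prod (analyticAt_fst.mul (analyticAt_snd.add analyticAt_const))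

theorem bt_tendsto (t : ℂ) : Tendsto (bt t) (𝓝 0) (𝓝 0) := by
  have h := (bt_analytic t 0).continuousAt.tendsto
  rwa [bt_zero] at h

theorem bt_isBigO (t : ℂ) : (fun p : ℂ × ℂ => ‖bt t p‖) =O[𝓝 0] fun p => ‖p‖ := by
  refine IsBigO.of_bound (1 + ‖t‖) ?_
  filter_upwards [Metric.ball_mem_nhds (0 : ℂ × ℂ) one_pos] with p hp
  rw [mem_ball_zero_iff] at hp
  rw [norm_norm, norm_norm, bt, Prod.norm_def]
  have h1 := norm_fst_le p
  have h2 := norm_snd_le p
  have h3 : 0 ≤ ‖t‖ := norm_nonneg t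
  have h4 : 0 ≤ ‖p‖ := norm_nonneg p
  refine max_le ?_ ?_
  · show ‖p.1‖ ≤ _
    nlinarith
  · show ‖p.1 * (p.2 + t)‖ ≤ _
    rw [norm_mul]
    calc ‖p.1‖ * ‖p.2 + t‖ ≤ ‖p‖ * (‖p.2‖ + ‖t‖) := by
          gcongr
          exact norm_add_le _ _
      _ ≤ (1 + ‖t‖) * ‖p‖ := by nlinarith

/-- the substitution on polynomials -/
def blP (t : ℂ) : MvPolynomial (Fin 2) ℂ →ₐ[ℂ] MvPolynomial (Fin 2) ℂ :=
  MvPolynomial.aeval ![MvPolynomial.X 0, MvPolynomial.X 0 * (MvPolynomial.X 1 + MvPolynomial.C t)]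

theorem bl_X (t : ℂ) (i : Fin 2) : bl t (X i) = (![X 0, X 0 * (X 1 + C t)] : Fin 2 → R2) i := by
  rw [bl, coe_substAlgHom, subst_X (hasSubst_bl t)]

theorem bl_coe (t : ℂ) (P : MvPolynomial (Fin 2) ℂ) : bl t (P : R2) = (blP t P : MvPolynomial (Fin 2) ℂ) := by
  induction P using MvPolynomial.induction_on with
  | C a =>
    rw [MvPolynomial.coe_C, blP, MvPolynomial.aeval_C, MvPolynomial.algebraMap_eq, MvPolynomial.coe_C]
    exact AlgHom.commutes (bl t) a
  | add p q hp hq => rw [MvPolynomial.coe_add, map_add, map_add, MvPolynomial.coe_add, hp, hq]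
  | mul_X p i hp =>
    rw [MvPolynomial.coe_mul, map_mul, map_mul, MvPolynomial.coe_mul, hp, MvPolynomial.coe_X, bl_X, blP, MvPolynomial.aeval_X]
    congr 1
    fin_cases i
    · simp
    · simp

theorem eval_blP (t : ℂ) (P : MvPolynomial (Fin 2) ℂ) (p : ℂ × ℂ) :
    MvPolynomial.eval ![p.1, p.2] (blP t P) = MvPolynomial.eval ![(bt t p).1, (bt t p).2] P := by
  induction P using MvPolynomial.induction_on with
  | C a => rw [blP, MvPolynomial.aeval_C, MvPolynomial.algebraMap_eq, MvPolynomial.eval_C, MvPolynomial.eval_C]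
  | add a b ha hb => rw [map_add, map_add, map_add, ha, hb]
  | mul_X a i ha =>
    rw [map_mul, map_mul, map_mul, ha, blP, MvPolynomial.aeval_X, MvPolynomial.eval_X]
    congr 1
    fin_cases i
    · simp [bt]
    · simp [bt]

theorem Ord.bl {N : ℕ} {s : R2} (h : Ord N s) (t : ℂ) : Ord N (SB.bl t s) := by
  obtain ⟨u, hu⟩ := exists_bl t h
  intro i j hij
  rw [← hu, cf_X0_pow_mul, if_neg (by omega)]

theorem Jet.bl {f : ℂ × ℂ → ℂ} {s : R2} (h : Jet f s) (t : ℂ) : Jet (fun p => f (bt t p)) (SB.bl t s) := by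
  intro N
  obtain ⟨P, h1, h2⟩ := h N
  refine ⟨blP t P, ?_, ?_⟩
  · rw [← bl_coe, ← map_sub]
    exact h1.bl t
  · have h3 := (h2.comp_tendsto (bt_tendsto t)).trans ((bt_isBigO t).pow N)
    refine h3.congr_left fun p => ?_
    rw [Function.comp_apply, eval_blP]

/-- the exchange of the variables on polynomials -/
theorem sw_coe (P : MvPolynomial (Fin 2) ℂ) : sw (P : R2) = (MvPolynomial.rename (Equiv.swap 0 1) P : MvPolynomial (Fin 2) ℂ) := by
  induction P using MvPolynomial.induction_on with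
  | C a =>
    rw [MvPolynomial.coe_C, MvPolynomial.rename_C, MvPolynomial.coe_C]
    exact AlgEquiv.commutes sw a
  | add p q hp hq => rw [MvPolynomial.coe_add, map_add, map_add, MvPolynomial.coe_add, hp, hq]
  | mul_X p i hp =>
    rw [MvPolynomial.coe_mul, map_mul, map_mul, MvPolynomial.coe_mul, hp, MvPolynomial.coe_X, MvPolynomial.rename_X,
      MvPolynomial.coe_X]
    congr 1
    refine cf_ext fun k l => ?_
    rw [cf_sw]
    have h1 : ∀ (i : Fin 2) (k l : ℕ), cf (X i : R2) k l = if k = (if i = 0 then 1 else 0) ∧ l = (if i = 0 then 0 else 1) then 1 else 0 := by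
      intro i k l
      rw [cf, coeff_X]
      have h2 : (Finsupp.single i 1 : Fin 2 →₀ ℕ) = ex (if i = 0 then 1 else 0) (if i = 0 then 0 else 1) := by
        fin_cases i
        · simp [ex]
        · simp [ex]
      rw [h2]
      simp only [ex_inj]
    rw [h1, h1]
    fin_cases i
    · simp [and_comm]
    · simp [and_comm]

theorem Jet.sw {f : ℂ × ℂ → ℂ} {s : R2} (h : Jet f s) : Jet (fun p => f p.swap) (SB.sw s) := by
  intro N
  obtain ⟨P, h1, h2⟩ := h N
  refine ⟨MvPolynomial.rename (Equiv.swap 0 1) P, ?_, ?_⟩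
  · rw [← sw_coe, ← map_sub, ord_sw]
    exact h1
  · have hsw : Tendsto (fun p : ℂ × ℂ => p.swap) (𝓝 0) (𝓝 0) := by
      have := (continuous_swap (X := ℂ) (Y := ℂ)).tendsto 0
      simpa using this
    have h3 := h2.comp_tendsto hsw
    refine (h3.congr_left fun p => ?_).congr_right fun p => ?_
    · rw [Function.comp_apply, MvPolynomial.eval_rename]
      congr 2
      rw [Function.comp_def]
      congr 1
      funext i
      fin_cases i
      · simp
      · simp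
    · rw [Function.comp_apply]
      congr 1
      rw [Prod.norm_def, Prod.norm_def, max_comm]
      rfl

/-! ### values and derivatives -/

theorem Jet.apply_zero {f : ℂ × ℂ → ℂ} {s : R2} (h : Jet f s) : f 0 = cf s 0 0 := by
  obtain ⟨P, h1, h2⟩ := h 1
  obtain ⟨c, hc⟩ := h2.bound
  have h3 := hc.self_of_nhds
  rw [norm_zero, pow_one, norm_zero, mul_zero] at h3
  have h4 : f 0 - MvPolynomial.eval ![(0 : ℂ × ℂ).1, (0 : ℂ × ℂ).2] P = 0 := norm_le_zero_iff.1 h3
  have h5 := h1 0 0 (by norm_num)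
  rw [cf_sub, sub_eq_zero] at h5
  rw [sub_eq_zero.1 h4, h5, cf_coe]
  have h6 : (![(0 : ℂ × ℂ).1, (0 : ℂ × ℂ).2] : Fin 2 → ℂ) = 0 := by
    funext i
    fin_cases i
    · rfl
    · rfl
  have h7 : ex 0 0 = 0 := by simp [ex]
  rw [h6, MvPolynomial.eval_zero, h7, MvPolynomial.constantCoeff_eq]

theorem Jet.hasFDerivAt {f : ℂ × ℂ → ℂ} {s : R2} (h : Jet f s) :
    HasFDerivAt f (cf s 1 0 • ContinuousLinearMap.fst ℂ ℂ ℂ + cf s 0 1 • ContinuousLinearMap.snd ℂ ℂ ℂ) 0 := by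
  let L : MvPolynomial (Fin 2) ℂ := MvPolynomial.C (cf s 0 0) + MvPolynomial.C (cf s 1 0) * MvPolynomial.X 0 +
    MvPolynomial.C (cf s 0 1) * MvPolynomial.X 1
  have hL : Ord 2 (s - (L : R2)) := by
    intro i j hij
    have h1 : (L : R2) = C (cf s 0 0) * 1 + C (cf s 1 0) * (X 0 * 1) + C (cf s 0 1) * (X 1 * 1) := by
      simp only [L, MvPolynomial.coe_add, MvPolynomial.coe_mul, MvPolynomial.coe_C, MvPolynomial.coe_X, mul_one]
    have h2 : ∀ i j, cf (1 : R2) i j = if i = 0 ∧ j = 0 then 1 else 0 := by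
      intro i j
      rw [cf, coeff_one]
      have h3 : (0 : Fin 2 →₀ ℕ) = ex 0 0 := by simp [ex]
      rw [h3]
      simp only [ex_inj]
    rw [h1, cf_sub, cf_add, cf_add, cf_C_mul, cf_C_mul, cf_C_mul, cf_X0_mul, cf_X1_mul, h2, h2, h2]
    have hij' : (i = 0 ∧ j = 0) ∨ (i = 1 ∧ j = 0) ∨ (i = 0 ∧ j = 1) := by omega
    rcases hij' with ⟨rfl, rfl⟩ | ⟨rfl, rfl⟩ | ⟨rfl, rfl⟩ <;> simp
  obtain ⟨P, h1, h2⟩ := h 2
  have h3 : Ord 2 ((P - L : MvPolynomial (Fin 2) ℂ) : R2) := by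
    have h4 : ((P - L : MvPolynomial (Fin 2) ℂ) : R2) = (s - (L : R2)) - (s - (P : R2)) := by
      have h5 : ((P - L : MvPolynomial (Fin 2) ℂ) : R2) = (P : R2) - (L : R2) := by
        refine cf_ext fun i j => ?_
        rw [cf_sub, cf_coe, cf_coe, cf_coe, MvPolynomial.coeff_sub]
      rw [h5]
      ring
    rw [h4]
    exact hL.sub h1
  have h6 : (fun p : ℂ × ℂ => f p - MvPolynomial.eval ![p.1, p.2] L) =O[𝓝 0] fun p => ‖p - 0‖ ^ 2 := by
    refine ((h2.add (isBigO_of_ord h3)).congr_left fun p => ?_).congr_right fun p => ?_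
    · rw [map_sub]
      ring
    · rw [sub_zero]
  have h7 := h6.hasFDerivAt (𝕜 := ℂ) one_lt_two
  have h8 : HasFDerivAt (fun p : ℂ × ℂ => MvPolynomial.eval ![p.1, p.2] L)
      (cf s 1 0 • ContinuousLinearMap.fst ℂ ℂ ℂ + cf s 0 1 • ContinuousLinearMap.snd ℂ ℂ ℂ) 0 := by
    have h9 : (fun p : ℂ × ℂ => MvPolynomial.eval ![p.1, p.2] L) = fun p : ℂ × ℂ =>
        cf s 0 0 + (cf s 1 0 • p.1 + cf s 0 1 • p.2) := by
      funext p
      simp only [L, map_add, map_mul, MvPolynomial.eval_C, MvPolynomial.eval_X, Matrix.cons_val_zero, Matrix.cons_val_one,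
        smul_eq_mul]
      ring
    rw [h9]
    exact ((hasFDerivAt_fst.const_smul (cf s 1 0)).add (hasFDerivAt_snd.const_smul (cf s 0 1))).const_add _
  have h10 := h7.add h8
  rw [zero_add] at h10
  refine h10.congr_of_eventuallyEq (Filter.Eventually.of_forall fun p => ?_)
  simp

theorem Jet.fderiv_fst {f : ℂ × ℂ → ℂ} {s : R2} (h : Jet f s) : fderiv ℂ f 0 (1, 0) = cf s 1 0 := by
  rw [h.hasFDerivAt.fderiv]
  simp

theorem Jet.fderiv_snd {f : ℂ × ℂ → ℂ} {s : R2} (h : Jet f s) : fderiv ℂ f 0 (0, 1) = cf s 0 1 := by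
  rw [h.hasFDerivAt.fderiv]
  simp

/-! ### exact division -/

/-- an analytic function of one variable of infinite order -/
theorem eventually_zero_of_isBigO {g : ℂ → ℂ} (hg : AnalyticAt ℂ g 0) (h : ∀ N : ℕ, g =O[𝓝 0] fun y => ‖y‖ ^ N) :
    ∀ᶠ y in 𝓝 (0 : ℂ), g y = 0 := by
  by_contra hne
  obtain ⟨n, u, hu, hu0, hn⟩ := (hg.exists_eventuallyEq_pow_smul_nonzero_iff).2 hne
  obtain ⟨c, hc⟩ := (h (n + 1)).bound
  have h1 : ∀ᶠ y in 𝓝[≠] (0 : ℂ), ‖u y‖ ≤ c * ‖y‖ := by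
    rw [eventually_nhdsWithin_iff]
    filter_upwards [hn, hc] with y h2 h3 hy
    have hy0 : 0 < ‖y‖ := norm_pos_iff.2 hy
    rw [h2, sub_zero, smul_eq_mul, norm_mul, norm_pow, norm_pow, norm_norm, pow_succ] at h3
    have h4 : 0 < ‖y‖ ^ n := pow_pos hy0 n
    refine le_of_mul_le_mul_left ?_ h4
    calc ‖y‖ ^ n * ‖u y‖ ≤ c * (‖y‖ ^ n * ‖y‖) := h3
      _ = ‖y‖ ^ n * (c * ‖y‖) := by ring
  have h2 : Tendsto (fun y : ℂ => c * ‖y‖) (𝓝[≠] 0) (𝓝 0) := by
    have h3 : Tendsto (fun y : ℂ => c * ‖y‖) (𝓝 0) (𝓝 (c * ‖(0 : ℂ)‖)) := (continuous_const.mul continuous_norm).tendsto 0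
    rw [norm_zero, mul_zero] at h3
    exact h3.mono_left nhdsWithin_le_nhds
  have h3 : Tendsto (fun y : ℂ => ‖u y‖) (𝓝[≠] 0) (𝓝 ‖u 0‖) := hu.continuousAt.norm.tendsto.mono_left nhdsWithin_le_nhds
  have h4 : ‖u 0‖ ≤ 0 := le_of_tendsto_of_tendsto h3 h2 h1
  exact hu0 (norm_le_zero_iff.1 h4)

theorem Jet.restrict {f : ℂ × ℂ → ℂ} (hf : AnalyticAt ℂ f 0) {s : R2} (h : Jet f s) (hs : ∀ j, cf s 0 j = 0) :
    ∀ᶠ y in 𝓝 (0 : ℂ), f (0, y) = 0 := by
  have hin : AnalyticAt ℂ (fun y : ℂ => ((0, y) : ℂ × ℂ)) 0 := analyticAt_const.prod analyticAt_id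
  refine eventually_zero_of_isBigO (AnalyticAt.comp (g := f) (f := fun y : ℂ => ((0, y) : ℂ × ℂ)) hf hin) fun N => ?_
  obtain ⟨P, h1, h2⟩ := h N
  have ht : Tendsto (fun y : ℂ => ((0, y) : ℂ × ℂ)) (𝓝 0) (𝓝 0) := hin.continuousAt.tendsto
  have hnorm : ∀ y : ℂ, ‖((0, y) : ℂ × ℂ)‖ = ‖y‖ := fun y => by
    rw [Prod.norm_def, norm_zero, max_eq_right (norm_nonneg _)]
  have h3 : (fun y : ℂ => f (0, y) - MvPolynomial.eval ![0, y] P) =O[𝓝 0] fun y => ‖y‖ ^ N := by
    refine (h2.comp_tendsto ht).congr_right fun y => ?_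
    rw [Function.comp_apply, hnorm]
  have h4 : (fun y : ℂ => MvPolynomial.eval ![0, y] P) =O[𝓝 0] fun y => ‖y‖ ^ N := by
    simp only [eval_fin2]
    refine IsBigO.fun_sum fun d hd => ?_
    refine IsBigO.const_mul_left ?_ _
    by_cases hd0 : d 0 = 0
    · have h5 : N ≤ d 1 := by
        by_contra hlt
        push Not at hlt
        have h6 := h1 0 (d 1) (by omega)
        rw [cf_sub, hs, zero_sub, neg_eq_zero, cf_coe] at h6
        have h7 : ex 0 (d 1) = d := by rw [← hd0]; exact ex_eq d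
        rw [h7] at h6
        exact (MvPolynomial.mem_support_iff.1 hd) h6
      refine IsBigO.of_bound 1 ?_
      filter_upwards [Metric.ball_mem_nhds (0 : ℂ) one_pos] with y hy
      rw [mem_ball_zero_iff] at hy
      rw [hd0, pow_zero, one_mul, one_mul, norm_pow, norm_pow, norm_norm]
      exact pow_le_pow_of_le_one (norm_nonneg _) hy.le h5
    · simp only [zero_pow hd0, zero_mul]
      exact isBigO_zero _ _
  refine (h3.add h4).congr_left fun y => ?_
  show f (0, y) - MvPolynomial.eval ![0, y] P + MvPolynomial.eval ![0, y] P = f (0, y)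
  ring

/-- **Exact division by a power of `x`.** -/
theorem Jet.exists_div {f : ℂ × ℂ → ℂ} (hf : AnalyticAt ℂ f 0) {e : ℕ} {u : R2} (h : Jet f (X 0 ^ e * u)) :
    ∃ g : ℂ × ℂ → ℂ, AnalyticAt ℂ g 0 ∧ (∀ᶠ p in 𝓝 0, f p = p.1 ^ e * g p) ∧ Jet g u := by
  by_cases hz : ∀ᶠ p in 𝓝 (0 : ℂ × ℂ), f p = 0
  · have h1 : Jet f 0 := jet_zero.congr (by filter_upwards [hz] with p hp; rw [hp])
    have h2 := h.unique h1
    have h3 : u = 0 := by
      refine cf_ext fun i j => ?_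
      have h4 : cf (X 0 ^ e * u) (i + e) j = cf (0 : R2) (i + e) j := by rw [h2]
      rw [cf_X0_pow_mul, if_pos (by omega), Nat.add_sub_cancel] at h4
      rw [h4, cf, cf, map_zero, map_zero]
    refine ⟨fun _ => 0, analyticAt_const, ?_, ?_⟩
    · filter_upwards [hz] with p hp
      rw [hp, mul_zero]
    · rw [h3]
      exact jet_zero
  obtain ⟨a, g', hg', hgk, hgn⟩ := H22.HF.exists_div hf hz
  obtain ⟨v, hv⟩ := exists_jet hg'
  have h1 : Jet f (X 0 ^ a * v) := ((jet_fst_pow a).mul hv).congr (by filter_upwards [hgk] with p hp; rw [hp])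
  have h2 := h.unique h1
  obtain ⟨j, hj⟩ : ∃ j, cf v 0 j ≠ 0 := by
    by_contra hcon
    push Not at hcon
    exact hgn (hv.restrict hg' hcon)
  have hea : e ≤ a := by
    by_contra hlt
    push Not at hlt
    have h3 : cf (X 0 ^ e * u) a j = cf (X 0 ^ a * v) a j := by rw [h2]
    rw [cf_X0_pow_mul, cf_X0_pow_mul, if_neg (by omega), if_pos le_rfl, Nat.sub_self] at h3
    exact hj h3.symm
  have h3 : u = X 0 ^ (a - e) * v := by
    refine cf_ext fun i j => ?_
    have h4 : cf (X 0 ^ e * u) (i + e) j = cf (X 0 ^ a * v) (i + e) j := by rw [h2]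
    rw [cf_X0_pow_mul, cf_X0_pow_mul, if_pos (by omega), Nat.add_sub_cancel] at h4
    rw [h4, cf_X0_pow_mul]
    by_cases h5 : a ≤ i + e
    · rw [if_pos h5, if_pos (by omega)]
      congr 1
      omega
    · rw [if_neg h5, if_neg (by omega)]
  refine ⟨fun p => p.1 ^ (a - e) * g' p, (analyticAt_fst.pow _).mul hg', ?_, ?_⟩
  · filter_upwards [hgk] with p hp
    rw [hp, ← mul_assoc, ← pow_add]
    congr 2
    omega
  · rw [h3]
    exact (jet_fst_pow _).mul hv

end Pool.Agent.SB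

end
end

section

/-!
# SB/An TreeR: from the reduction of formal germs to the reduction of analytic germs
-/

set_option autoImplicit false

open Topology MvPowerSeries Asymptotics Filter

noncomputable section

namespace Pool.Agent.SB

theorem exists_cf_ne {A : R2} (h : A ≠ 0) : ∃ i j, cf A i j ≠ 0 := by
  by_contra hcon
  push Not at hcon
  exact h (cf_ext fun i j => by rw [hcon, cf, map_zero])

/-- the order -/
theorem exists_ord {A : R2} (h : A ≠ 0) : ∃ l, Ord l A ∧ ¬ Ord (l + 1) A := by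
  classical
  obtain ⟨i, j, hij⟩ := exists_cf_ne h
  have hex : ∃ n, ¬ Ord n A := ⟨i + j + 1, fun h => hij (h i j (by omega))⟩
  have h1 := Nat.find_spec hex
  have h2 : Nat.find hex ≠ 0 := by
    intro h0
    rw [h0] at h1
    exact h1 fun i j hij => absurd hij (by omega)
  obtain ⟨l, hl⟩ := Nat.exists_eq_succ_of_ne_zero h2
  refine ⟨l, ?_, ?_⟩
  · by_contra h3
    have := Nat.find_min' hex h3
    omega
  · rw [hl] at h1
    exact h1

theorem bl_ne_zero {A : R2} (h : A ≠ 0) (t : ℂ) : bl t A ≠ 0 := by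
  obtain ⟨l, h1, h2⟩ := exists_ord h
  obtain ⟨u, hu⟩ := exists_bl t h1
  intro h3
  rw [h3] at hu
  have h4 : X 0 ∣ u := by
    rw [X0_dvd_iff]
    intro j
    have h5 : cf (X 0 ^ l * u) l j = cf (0 : R2) l j := by rw [hu]
    rw [cf_X0_pow_mul, if_pos le_rfl, Nat.sub_self] at h5
    rw [h5, cf, map_zero]
  exact h2 (ord_succ_of_dvd h1 (by rw [hu, h3]) h4)

/-- the formal child exists -/
theorem exists_child (t : ℂ) {A B : R2} (h : A ≠ 0 ∨ B ≠ 0) (hA : cf A 0 0 = 0) (hB : cf B 0 0 = 0) :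
    ∃ A₁ B₁, Child t A B A₁ B₁ := by
  classical
  have hd : ∀ {D : R2}, cf D 0 0 = 0 → X 0 ∣ bl t D := fun {D} hD => by
    rw [X0_dvd_iff]
    intro j
    rw [cf_bl]
    simp [hD]
  have hdw : X 0 ∣ bl t B - (X 1 + C t) * bl t A := dvd_sub (hd hB) ((hd hA).mul_left _)
  obtain ⟨w, hw⟩ := hdw
  have hne : bl t A ≠ 0 ∨ w ≠ 0 := by
    by_contra hcon
    push Not at hcon
    rw [hcon.1, hcon.2, mul_zero, mul_zero, sub_zero] at hw
    rcases h with h | h
    · exact bl_ne_zero h t hcon.1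
    · exact bl_ne_zero h t hw
  have hbd : ∃ n, ∀ e, X 0 ^ e ∣ bl t A → X 0 ^ e ∣ w → e ≤ n := by
    rcases hne with hne | hne
    · obtain ⟨i, j, hij⟩ := exists_cf_ne hne
      refine ⟨i, fun e he _ => ?_⟩
      by_contra hlt
      exact hij ((X0_pow_dvd_iff e _).1 he i j (by omega))
    · obtain ⟨i, j, hij⟩ := exists_cf_ne hne
      refine ⟨i, fun e _ he => ?_⟩
      by_contra hlt
      exact hij ((X0_pow_dvd_iff e _).1 he i j (by omega))
  obtain ⟨n, hn⟩ := hbd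
  let Pr : ℕ → Prop := fun e => X 0 ^ e ∣ bl t A ∧ X 0 ^ e ∣ w
  have hP0 : Pr 0 := by
    constructor
    · rw [pow_zero]; exact one_dvd _
    · rw [pow_zero]; exact one_dvd _
  have hspec : Pr (Nat.findGreatest Pr n) := Nat.findGreatest_spec (Nat.zero_le n) hP0
  set e := Nat.findGreatest Pr n with he
  obtain ⟨⟨A₁, h1⟩, ⟨B₁, h2⟩⟩ := hspec
  refine ⟨A₁, B₁, e, h1.symm, ?_, ?_⟩
  · rw [hw, h2]
    ring
  · rintro ⟨⟨a', ha'⟩, ⟨b', hb'⟩⟩
    have h3 : Pr (e + 1) := ⟨⟨a', by rw [h1, ha']; ring⟩, ⟨b', by rw [h2, hb']; ring⟩⟩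
    have h4 : e + 1 ≤ n := hn _ h3.1 h3.2
    have h5 : ¬ Pr (e + 1) := Nat.findGreatest_is_greatest (P := Pr) (n := n) (by rw [← he]; omega) h4
    exact h5 h3

/-- the analytic child -/
theorem exists_aChild (t : ℂ) {a b : ℂ × ℂ → ℂ} (ha : AnalyticAt ℂ a 0) (hb : AnalyticAt ℂ b 0) {A B A₁ B₁ : R2}
    (hA : Jet a A) (hB : Jet b B) (h : Child t A B A₁ B₁) :
    ∃ (a₁ b₁ : ℂ × ℂ → ℂ) (e : ℕ), AChild t a b a₁ b₁ e ∧ AnalyticAt ℂ a₁ 0 ∧ AnalyticAt ℂ b₁ 0 ∧ Jet a₁ A₁ ∧ Jet b₁ B₁ := by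
  obtain ⟨e, h1, h2, -⟩ := h
  have ha' : AnalyticAt ℂ (fun p => a (bt t p)) 0 :=
    AnalyticAt.comp (g := a) (f := bt t) (by rw [bt_zero]; exact ha) (bt_analytic t 0)
  have hb' : AnalyticAt ℂ (fun p => b (bt t p)) 0 :=
    AnalyticAt.comp (g := b) (f := bt t) (by rw [bt_zero]; exact hb) (bt_analytic t 0)
  have hJa : Jet (fun p => a (bt t p)) (X 0 ^ e * A₁) := by
    rw [h1]
    exact hA.bl t
  have hJb : Jet (fun p => b (bt t p) - (p.2 + t) * a (bt t p)) (X 0 ^ (e + 1) * B₁) := by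
    rw [h2]
    exact (hB.bl t).sub ((jet_snd.add (jet_const t)).mul (hA.bl t))
  obtain ⟨a₁, h3, h4, h5⟩ := hJa.exists_div ha'
  obtain ⟨b₁, h6, h7, h8⟩ := hJb.exists_div (hb'.sub ((analyticAt_snd.add analyticAt_const).mul ha'))
  exact ⟨a₁, b₁, e, ⟨h4, h7⟩, h3, h6, h5, h8⟩

theorem child_ne {t : ℂ} {A B A₁ B₁ : R2} (h : Child t A B A₁ B₁) : A₁ ≠ 0 ∨ B₁ ≠ 0 := by
  obtain ⟨e, -, -, h3⟩ := h
  by_contra hcon
  push Not at hcon
  exact h3 ⟨by rw [hcon.1]; exact dvd_zero _, by rw [hcon.2]; exact dvd_zero _⟩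

theorem sw_zero : sw (0 : R2) = 0 := map_zero _

/-- **The tree of an analytic germ from the tree of its Taylor series.** -/
theorem tree_of_red {A B : R2} (h : Red A B) : (A ≠ 0 ∨ B ≠ 0) → ∀ a b : ℂ × ℂ → ℂ, AnalyticAt ℂ a 0 → AnalyticAt ℂ b 0 →
    Jet a A → Jet b B → Tree a b := by
  induction h with
  | reg A B h =>
    intro _ a b ha hb hA hB
    refine Tree.reg a b ha hb ?_
    rw [hA.apply_zero, hB.apply_zero]
    exact h
  | elem A B h =>
    intro _ a b ha hb hA hB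
    refine Tree.elem a b ha hb ?_
    obtain ⟨h1, h2, l, k, h3, h4, h5, h6⟩ := h
    refine ⟨by rw [hA.apply_zero, h1], by rw [hB.apply_zero, h2], l, k, ?_, ?_, h5, h6⟩
    · rw [hA.fderiv_fst, hB.fderiv_snd]
      exact h3
    · rw [hA.fderiv_fst, hA.fderiv_snd, hB.fderiv_fst, hB.fderiv_snd]
      exact h4
  | blow A B _ _ ih1 ih2 =>
    intro hne a b ha hb hA hB
    by_cases h0 : cf A 0 0 ≠ 0 ∨ cf B 0 0 ≠ 0
    · refine Tree.reg a b ha hb ?_
      rw [hA.apply_zero, hB.apply_zero]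
      exact h0
    push Not at h0
    have hch : ∀ t : ℂ, ∃ (a₁ b₁ : ℂ × ℂ → ℂ) (e : ℕ), AChild t a b a₁ b₁ e ∧ Tree a₁ b₁ := by
      intro t
      obtain ⟨A₁, B₁, hc⟩ := exists_child t hne h0.1 h0.2
      obtain ⟨a₁, b₁, e, h1, h2, h3, h4, h5⟩ := exists_aChild t ha hb hA hB hc
      exact ⟨a₁, b₁, e, h1, ih1 t A₁ B₁ hc (child_ne hc) a₁ b₁ h2 h3 h4 h5⟩
    choose a₁ b₁ e h1 h2 using hch
    have hsw : AnalyticAt ℂ (fun p : ℂ × ℂ => p.swap) 0 := analyticAt_snd.prod analyticAt_fst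
    have hsa : AnalyticAt ℂ (fun p : ℂ × ℂ => a p.swap) 0 :=
      AnalyticAt.comp (g := a) (f := fun p : ℂ × ℂ => p.swap) ha hsw
    have hsb : AnalyticAt ℂ (fun p : ℂ × ℂ => b p.swap) 0 :=
      AnalyticAt.comp (g := b) (f := fun p : ℂ × ℂ => p.swap) hb hsw
    have hne' : sw B ≠ 0 ∨ sw A ≠ 0 := by
      have hinj : ∀ D : R2, D ≠ 0 → sw D ≠ 0 := fun D hD h => hD (by rw [← sw_sw D, h, sw_zero])
      rcases hne with hne | hne
      · exact Or.inr (hinj A hne)
      · exact Or.inl (hinj B hne)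
    obtain ⟨A₂, B₂, hc⟩ := exists_child 0 hne' (by rw [cf_sw]; exact h0.2) (by rw [cf_sw]; exact h0.1)
    obtain ⟨a₂, b₂, e₂, h3, h4, h5, h6, h7⟩ := exists_aChild 0 hsb hsa hB.sw hA.sw hc
    exact Tree.blow a b a₁ b₁ e a₂ b₂ e₂ ha hb h1 h2 h3 (ih2 A₂ B₂ hc (child_ne hc) a₂ b₂ h4 h5 h6 h7)

/-! ### isolated zeros -/

theorem fin2_one (A : R2) : Fin2 1 A := by
  have h1 : Ideal.span {(1 : R2), A} = ⊤ := Ideal.eq_top_of_isUnit_mem _ (Ideal.subset_span (by simp)) isUnit_one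
  unfold Fin2
  rw [h1]
  have : Subsingleton (R2 ⧸ (⊤ : Ideal R2)) := Ideal.Quotient.subsingleton_iff.2 rfl
  infer_instance

theorem fin2_X0_pow {A : R2} {n : ℕ} (h : cf A 0 n ≠ 0) (M : ℕ) : Fin2 (X 0 ^ M) A := by
  induction M with
  | zero =>
    rw [pow_zero]
    exact fin2_one A
  | succ M ih =>
    rw [pow_succ]
    exact (mu_mul ih (mu_X0 h).1).1

theorem fin2_of_bezout {A B H K : R2} {M n : ℕ} (h : cf A 0 n ≠ 0) (hM : (X 0 ^ M : R2) = A * H + B * K) : Fin2 A B := by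
  refine (Mu.of_le (I := Ideal.span {X 0 ^ M, A}) ?_ (fin2_X0_pow h M)).1
  rw [Ideal.span_le]
  intro z hz
  have hA : A ∈ Ideal.span {A, B} := Ideal.subset_span (by simp)
  have hB : B ∈ Ideal.span {A, B} := Ideal.subset_span (by simp)
  rcases hz with rfl | hz
  · rw [SetLike.mem_coe, hM]
    exact Ideal.add_mem _ (Ideal.mul_mem_right _ _ hA) (Ideal.mul_mem_right _ _ hB)
  · rw [Set.mem_singleton_iff] at hz
    rw [hz]
    exact hA

theorem fin2_aux {a b : ℂ × ℂ → ℂ} (ha : AnalyticAt ℂ a 0) (hb : AnalyticAt ℂ b 0)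
    (hiso : ∀ᶠ p in 𝓝 (0 : ℂ × ℂ), p ≠ 0 → a p ≠ 0 ∨ b p ≠ 0) {A B : R2} (hA : Jet a A) (hB : Jet b B)
    (h0 : ¬ ∀ᶠ y in 𝓝 (0 : ℂ), a (0, y) = 0) : Fin2 A B ∧ A ≠ 0 := by
  obtain ⟨n, hn⟩ : ∃ n, cf A 0 n ≠ 0 := by
    by_contra hcon
    push Not at hcon
    exact h0 (hA.restrict ha hcon)
  obtain ⟨M, h, k, hh, hk, hM⟩ := Bez.exists_bezout ha hb h0 hiso
  obtain ⟨H, hH⟩ := exists_jet hh
  obtain ⟨K, hK⟩ := exists_jet hk
  have h1 : Jet (fun p => p.1 ^ M) (A * H + B * K) := by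
    refine ((hA.mul hH).add (hB.mul hK)).congr ?_
    filter_upwards [hM] with p hp
    rw [hp]
  refine ⟨fin2_of_bezout hn ((jet_fst_pow M).unique h1), ?_⟩
  rintro rfl
  rw [cf, map_zero] at hn
  exact hn rfl

theorem fin2_comm {A B : R2} (h : Fin2 A B) : Fin2 B A := by
  have h1 : Ideal.span {B, A} = Ideal.span {A, B} := by rw [Set.pair_comm]
  unfold Fin2
  rw [h1]
  exact h

/-- the Taylor series of two germs with an isolated common zero have finite multiplicity -/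
theorem fin2_of_isolated {a b : ℂ × ℂ → ℂ} (ha : AnalyticAt ℂ a 0) (hb : AnalyticAt ℂ b 0)
    (hiso : ∀ᶠ p in 𝓝 (0 : ℂ × ℂ), p ≠ 0 → a p ≠ 0 ∨ b p ≠ 0) {A B : R2} (hA : Jet a A) (hB : Jet b B) :
    Fin2 A B ∧ (A ≠ 0 ∨ B ≠ 0) := by
  by_cases h0 : ∀ᶠ y in 𝓝 (0 : ℂ), a (0, y) = 0
  · have h1 : ¬ ∀ᶠ y in 𝓝 (0 : ℂ), b (0, y) = 0 := by
      intro h1
      have ht : Tendsto (fun y : ℂ => ((0, y) : ℂ × ℂ)) (𝓝 0) (𝓝 0) := by
        have h2 : Continuous fun x : ℂ => ((0, x) : ℂ × ℂ) := by fun_prop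
        exact h2.tendsto 0
      have h3 : ∀ᶠ y in 𝓝[≠] (0 : ℂ), False := by
        rw [eventually_nhdsWithin_iff]
        filter_upwards [h0, h1, ht.eventually hiso] with y h4 h5 h6 hy
        rcases h6 (fun h => hy (congrArg Prod.snd h)) with h7 | h7
        · exact h7 h4
        · exact h7 h5
      exact h3.exists.elim fun _ h => h
    obtain ⟨h2, h3⟩ := fin2_aux hb ha (hiso.mono fun p hp hp0 => (hp hp0).symm) hB hA h1
    exact ⟨fin2_comm h2, Or.inr h3⟩
  · obtain ⟨h2, h3⟩ := fin2_aux ha hb hiso hA hB h0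
    exact ⟨h2, Or.inl h3⟩

end Pool.Agent.SB

end
end

section

/-!
# SB Chd: the child and its intersection multiplicity
-/

set_option autoImplicit false

open MvPowerSeries

noncomputable section

namespace Pool.Agent.SB

theorem Chd.X0_ne : (X 0 : R2) ≠ 0 := by
  intro h
  have h1 := cf_X0_mul (1 : R2) 1 0
  rw [h, zero_mul] at h1
  have h2 : cf (0 : R2) 1 0 = 0 := map_zero _
  have h3 : cf (1 : R2) 0 0 = 1 := by
    unfold cf ex
    simp
  rw [h2] at h1
  simp [h3] at h1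

theorem Chd.cancel {n : ℕ} {p q : R2} (h : X 0 ^ n * p = X 0 ^ n * q) : p = q :=
  mul_left_cancel₀ (pow_ne_zero n Chd.X0_ne) h

theorem Chd.eq_c {a b u v : R2} {t : ℂ} {l : ℕ} (hu : X 0 ^ l * u = bl t a) (hv : X 0 ^ l * v = bl t b) :
    bl t b - (X 1 + C t) * bl t a = X 0 ^ l * (v - (X 1 + C t) * u) := by
  rw [← hu, ← hv]
  ring

theorem child_cases {a b a₁ b₁ u v : R2} {t : ℂ} {l : ℕ} (_hl1 : 1 ≤ l) (ha : Ord l a) (hb : Ord l b) (hl : ¬ (Ord (l + 1) a ∧ Ord (l + 1) b))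
    (hu : X 0 ^ l * u = bl t a) (hv : X 0 ^ l * v = bl t b) (h : Child t a b a₁ b₁) :
    (a₁ = X 0 * u ∧ b₁ = v - (X 1 + C t) * u ∧ ¬ X 0 ∣ b₁) ∨ (a₁ = u ∧ X 0 * b₁ = v - (X 1 + C t) * u) := by
  obtain ⟨e, h1, h2, h3⟩ := h
  rw [Chd.eq_c hu hv] at h2
  rw [← hu] at h1
  by_cases hc : X 0 ∣ v - (X 1 + C t) * u
  · right
    obtain ⟨c', hc'⟩ := hc
    have hnu : ¬ X 0 ∣ u := by
      intro hdu
      have hdv : X 0 ∣ v := by
        have : v = X 0 * c' + (X 1 + C t) * u := by rw [← hc']; ring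
        rw [this]
        exact dvd_add (dvd_mul_right _ _) (hdu.mul_left _)
      exact hl ⟨ord_succ_of_dvd ha hu hdu, ord_succ_of_dvd hb hv hdv⟩
    have hel : e ≤ l := by
      by_contra hlt
      apply hnu
      obtain ⟨k, hk⟩ := Nat.exists_eq_add_of_lt (not_le.1 hlt)
      refine ⟨X 0 ^ k * a₁, ?_⟩
      apply Chd.cancel (n := l)
      rw [← h1, hk]
      ring
    obtain ⟨k, hk⟩ := Nat.exists_eq_add_of_le hel
    subst hk
    have e1 : a₁ = X 0 ^ k * u := by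
      apply Chd.cancel (n := e)
      rw [h1]
      ring
    have e2 : b₁ = X 0 ^ k * c' := by
      apply Chd.cancel (n := e + 1)
      rw [h2, hc']
      ring
    rcases Nat.eq_zero_or_pos k with hk0 | hk0
    · subst hk0
      rw [pow_zero, one_mul] at e1 e2
      exact ⟨e1, by rw [e2, hc']⟩
    · exfalso
      apply h3
      rw [e1, e2]
      exact ⟨(dvd_pow_self _ hk0.ne').mul_right _, (dvd_pow_self _ hk0.ne').mul_right _⟩
  · left
    have hel : e + 1 ≤ l := by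
      by_contra hlt
      apply hc
      obtain ⟨k, hk⟩ := Nat.exists_eq_add_of_lt (not_le.1 hlt)
      refine ⟨X 0 ^ k * b₁, ?_⟩
      apply Chd.cancel (n := l)
      rw [← h2, hk]
      ring
    obtain ⟨k, hk⟩ := Nat.exists_eq_add_of_le hel
    subst hk
    have e1 : a₁ = X 0 ^ (k + 1) * u := by
      apply Chd.cancel (n := e)
      rw [h1]
      ring
    have e2 : b₁ = X 0 ^ k * (v - (X 1 + C t) * u) := by
      apply Chd.cancel (n := e + 1)
      rw [h2]
      ring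
    rcases Nat.eq_zero_or_pos k with hk0 | hk0
    · subst hk0
      rw [pow_zero, one_mul] at e2
      rw [zero_add, pow_one] at e1
      exact ⟨e1, e2, by rw [e2]; exact hc⟩
    · exfalso
      apply h3
      rw [e1, e2]
      exact ⟨(dvd_pow_self _ (Nat.succ_ne_zero k)).mul_right _, (dvd_pow_self _ hk0.ne').mul_right _⟩

theorem child_mu_le {a b a₁ b₁ u v : R2} {t : ℂ} {l n : ℕ} (hf : Fin2 a b) (hl1 : 1 ≤ l) (ha : Ord l a) (hb : Ord l b)
    (hl : ¬ (Ord (l + 1) a ∧ Ord (l + 1) b)) (hu : X 0 ^ l * u = bl t a) (hv : X 0 ^ l * v = bl t b) (h : Child t a b a₁ b₁)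
    (hn : cf (v - (X 1 + C t) * u) 0 n ≠ 0) : Fin2 a₁ b₁ ∧ mu a₁ b₁ + l * l ≤ mu a b + n := by
  obtain ⟨hfuv, hmuv⟩ := mu_blow hf ha hb hl hu hv
  have hfuc : Fin2 u (v - (X 1 + C t) * u) := (fin2_sub _ _ _).2 hfuv
  have hmuc : mu u (v - (X 1 + C t) * u) = mu u v := mu_sub _ _ _
  rcases child_cases hl1 ha hb hl hu hv h with ⟨e1, e2, -⟩ | ⟨e1, e2⟩
  · obtain ⟨hx1, hx2⟩ := mu_X0 hn
    obtain ⟨hm1, hm2⟩ := mu_mul hx1 hfuc
    rw [e1, e2]
    exact ⟨hm1, by omega⟩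
  · rw [← e2] at hfuc hmuc
    obtain ⟨hm1, hm2⟩ := mu_of_mul hfuc
    rw [e1]
    exact ⟨hm1, by omega⟩

theorem child_mu {a b a₁ b₁ : R2} {t : ℂ} {l : ℕ} (hf : Fin2 a b) (h2 : 2 ≤ l) (ha : Ord l a) (hb : Ord l b)
    (hl : ¬ (Ord (l + 1) a ∧ Ord (l + 1) b)) (h : Child t a b a₁ b₁) : Fin2 a₁ b₁ ∧ mu a₁ b₁ < mu a b := by
  obtain ⟨u, hu⟩ := exists_bl t ha
  obtain ⟨v, hv⟩ := exists_bl t hb
  have hl1 : 1 ≤ l := by omega
  have hll : l + 2 ≤ l * l := by nlinarith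
  rcases child_cases hl1 ha hb hl hu hv h with ⟨e1, e2, e3⟩ | ⟨e1, e2⟩
  · rw [X0_dvd_iff] at e3
    push Not at e3
    obtain ⟨n, hn⟩ := e3
    rw [e2] at hn
    have hnl : n ≤ l + 1 := by
      by_contra hcon
      push Not at hcon
      apply hn
      rw [cf_sub, add_mul, cf_add, cf_X1_mul, cf_C_mul, cf_zero_of_bl hv (by omega), cf_zero_of_bl hu (j := n) (by omega), if_pos (by omega),
        cf_zero_of_bl hu (j := n - 1) (by omega)]
      ring
    obtain ⟨h4, h5⟩ := child_mu_le hf hl1 ha hb hl hu hv h hn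
    exact ⟨h4, by omega⟩
  · obtain ⟨hfuv, hmuv⟩ := mu_blow hf ha hb hl hu hv
    have hfuc : Fin2 u (v - (X 1 + C t) * u) := (fin2_sub _ _ _).2 hfuv
    have hmuc : mu u (v - (X 1 + C t) * u) = mu u v := mu_sub _ _ _
    rw [← e2] at hfuc hmuc
    obtain ⟨hm1, hm2⟩ := mu_of_mul hfuc
    rw [e1]
    exact ⟨hm1, by omega⟩

end Pool.Agent.SB

end
end

section

/-!
# SB Eig: germs with a nonzero eigenvalue are reduced by finitely many blow-ups
-/

set_option autoImplicit false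

open MvPowerSeries

noncomputable section

namespace Pool.Agent.SB

/-! ### the coefficients of `c = v - (y + t) u` on the exceptional line -/

theorem cf_c_zero (u v : R2) (t : ℂ) : cf (v - (X 1 + C t) * u) 0 0 = cf v 0 0 - t * cf u 0 0 := by
  rw [cf_sub, add_mul, cf_add, cf_X1_mul, cf_C_mul]
  simp

theorem cf_c_succ (u v : R2) (t : ℂ) (j : ℕ) :
    cf (v - (X 1 + C t) * u) 0 (j + 1) = cf v 0 (j + 1) - (cf u 0 j + t * cf u 0 (j + 1)) := by
  rw [cf_sub, add_mul, cf_add, cf_X1_mul, cf_C_mul]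
  simp

theorem cf_X0_mul_zero (b : R2) (j : ℕ) : cf (X 0 * b) 0 j = 0 := by
  rw [cf_X0_mul]
  simp

/-- the tangent direction `(1 : t)` is not a root of `P`: the child is regular -/
theorem red_child_reg {a b a₁ b₁ u v : R2} {t : ℂ} {l : ℕ} (hl1 : 1 ≤ l) (ha : Ord l a) (hb : Ord l b) (hl : ¬ (Ord (l + 1) a ∧ Ord (l + 1) b))
    (hu : X 0 ^ l * u = bl t a) (hv : X 0 ^ l * v = bl t b) (h : Child t a b a₁ b₁) (h0 : cf (v - (X 1 + C t) * u) 0 0 ≠ 0) : Red a₁ b₁ := by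
  rcases child_cases hl1 ha hb hl hu hv h with ⟨_, h2, _⟩ | ⟨_, h2⟩
  · exact Red.reg _ _ (Or.inr (by rw [h2]; exact h0))
  · exact absurd (by rw [← h2]; exact cf_X0_mul_zero b₁ 0) h0

/-- the linear part of the child over an eigendirection -/
theorem red_child_eig {a₁ b₁ : R2} {l k : ℂ} {p q : ℕ}
    (ih : ∀ (a' b' : R2) (l' k' : ℂ) (p' q' : ℕ), p' + q' < p + q → cf a' 0 0 = 0 → cf b' 0 0 = 0 → l' + k' = tr a' b' → l' * k' = dt a' b' →
      l' ≠ 0 → 0 < p' → 0 < q' → (p' : ℂ) * l' = q' * k' → Red a' b')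
    (ha₁ : cf a₁ 0 0 = 0) (hb₁ : cf b₁ 0 0 = 0) (htr : tr a₁ b₁ = k) (hdt : dt a₁ b₁ = l * (k - l))
    (hl : l ≠ 0) (hp : 0 < p) (hq : 0 < q) (h : (p : ℂ) * l = q * k) : Red a₁ b₁ := by
  have hq' : (q : ℂ) ≠ 0 := Nat.cast_ne_zero.2 hq.ne'
  rcases lt_trichotomy p q with hpq | hpq | hpq
  · -- negative ratio
    refine Red.elem _ _ ⟨ha₁, hb₁, l, k - l, by rw [htr]; ring, hdt.symm, hl, fun p' q' hp' hq' he => ?_⟩
    obtain ⟨r, rfl⟩ := Nat.exists_eq_add_of_lt hpq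
    have h1 : ((p + r + 1 : ℕ) : ℂ) * (k - l) = -((r + 1 : ℕ) : ℂ) * l := by
      push_cast at h ⊢
      linear_combination -h
    have h2 : (((p + r + 1) * p' + q' * (r + 1) : ℕ) : ℂ) * l = 0 := by
      push_cast at h1 ⊢
      linear_combination ((p : ℂ) + r + 1) * he + (q' : ℂ) * h1
    rcases mul_eq_zero.1 h2 with h3 | h3
    · have h4 : (p + r + 1) * p' + q' * (r + 1) = 0 := by exact_mod_cast h3
      have h5 : 0 < (p + r + 1) * p' := Nat.mul_pos (by omega) hp'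
      omega
    · exact hl h3
  · -- equal eigenvalues
    subst hpq
    have hk : k = l := (mul_left_cancel₀ hq' h).symm
    subst hk
    refine Red.elem _ _ ⟨ha₁, hb₁, k, 0, by rw [htr]; ring, by rw [hdt]; ring, hl, fun p' q' hp' _ he => ?_⟩
    rw [mul_zero] at he
    rcases mul_eq_zero.1 he with h3 | h3
    · exact hp'.ne' (by exact_mod_cast h3)
    · exact hl h3
  · obtain ⟨r, rfl⟩ := Nat.exists_eq_add_of_lt hpq
    refine ih a₁ b₁ l (k - l) (r + 1) q (by omega) ha₁ hb₁ (by rw [htr]; ring) hdt.symm hl (by omega) hq ?_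
    push_cast at h ⊢
    linear_combination h

/-- the children of a germ with two eigenvalues of positive rational ratio -/
theorem red_child_of_eig {a b a₁ b₁ : R2} {t l k : ℂ} {p q : ℕ}
    (ih : ∀ (a' b' : R2) (l' k' : ℂ) (p' q' : ℕ), p' + q' < p + q → cf a' 0 0 = 0 → cf b' 0 0 = 0 → l' + k' = tr a' b' → l' * k' = dt a' b' →
      l' ≠ 0 → 0 < p' → 0 < q' → (p' : ℂ) * l' = q' * k' → Red a' b')
    (ha : cf a 0 0 = 0) (hb : cf b 0 0 = 0) (htr : l + k = tr a b) (hdt : l * k = dt a b)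
    (hl : l ≠ 0) (hp : 0 < p) (hq : 0 < q) (h : (p : ℂ) * l = q * k) (hc : Child t a b a₁ b₁) : Red a₁ b₁ := by
  have hk : k ≠ 0 := by
    rintro rfl
    rw [mul_zero] at h
    rcases mul_eq_zero.1 h with h3 | h3
    · exact hp.ne' (by exact_mod_cast h3)
    · exact hl h3
  have ha1 : Ord 1 a := by
    intro i j hij
    obtain ⟨rfl, rfl⟩ : i = 0 ∧ j = 0 := by omega
    exact ha
  have hb1 : Ord 1 b := by
    intro i j hij
    obtain ⟨rfl, rfl⟩ : i = 0 ∧ j = 0 := by omega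
    exact hb
  have hn : ¬ (Ord (1 + 1) a ∧ Ord (1 + 1) b) := by
    rintro ⟨h1, h2⟩
    have e1 : dt a b = 0 := by
      unfold dt
      rw [h1 1 0 (by norm_num), h1 0 1 (by norm_num)]
      ring
    rw [← hdt] at e1
    rcases mul_eq_zero.1 e1 with h3 | h3
    · exact hl h3
    · exact hk h3
  obtain ⟨u, hu⟩ := exists_bl t ha1
  obtain ⟨v, hv⟩ := exists_bl t hb1
  have hu0 : cf u 0 0 = cf a 1 0 + cf a 0 1 * t := by
    rw [cf_of_bl hu]
    simp [Finset.sum_range_succ]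
  have hu1 : cf u 0 1 = cf a 0 1 := by
    rw [cf_of_bl hu]
    simp [Finset.sum_range_succ]
  have hv0 : cf v 0 0 = cf b 1 0 + cf b 0 1 * t := by
    rw [cf_of_bl hv]
    simp [Finset.sum_range_succ]
  have hv1 : cf v 0 1 = cf b 0 1 := by
    rw [cf_of_bl hv]
    simp [Finset.sum_range_succ]
  by_cases h0 : cf (v - (X 1 + C t) * u) 0 0 = 0
  · have h0' : cf b 1 0 + cf b 0 1 * t - t * (cf a 1 0 + cf a 0 1 * t) = 0 := by
      rw [cf_c_zero, hv0, hu0] at h0
      exact h0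
    have h1 : cf (v - (X 1 + C t) * u) 0 1 = tr a b - 2 * cf u 0 0 := by
      rw [cf_c_succ, hv1, hu0, hu1]
      unfold tr
      ring
    have hroot : (cf u 0 0 - l) * (cf u 0 0 - k) = 0 := by
      have e1 : (cf u 0 0 - l) * (cf u 0 0 - k) = cf u 0 0 ^ 2 - (l + k) * cf u 0 0 + l * k := by ring
      rw [e1, htr, hdt, hu0]
      unfold tr dt
      linear_combination -(cf a 0 1) * h0'
    rcases child_cases (le_refl 1) ha1 hb1 hn hu hv hc with ⟨h2, h3, _⟩ | ⟨h2, h3⟩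
    · have ea0 : cf a₁ 0 0 = 0 := by rw [h2]; exact cf_X0_mul_zero u 0
      have eb0 : cf b₁ 0 0 = 0 := by rw [h3]; exact h0
      have ea10 : cf a₁ 1 0 = cf u 0 0 := by
        rw [h2, cf_X0_mul]
        simp
      have ea01 : cf a₁ 0 1 = 0 := by rw [h2]; exact cf_X0_mul_zero u 1
      have eb01 : cf b₁ 0 1 = tr a b - 2 * cf u 0 0 := by rw [h3]; exact h1
      have etr : tr a₁ b₁ = tr a b - cf u 0 0 := by
        unfold tr at eb01 ⊢
        rw [ea10, eb01]
        ring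
      have edt : dt a₁ b₁ = cf u 0 0 * (tr a b - 2 * cf u 0 0) := by
        unfold dt
        rw [ea10, ea01, eb01]
        ring
      rcases mul_eq_zero.1 hroot with h4 | h4
      · have h5 : cf u 0 0 = l := sub_eq_zero.1 h4
        refine red_child_eig (l := l) (k := k) ih ea0 eb0 ?_ ?_ hl hp hq h
        · rw [etr, h5, ← htr]; ring
        · rw [edt, h5, ← htr]; ring
      · have h5 : cf u 0 0 = k := sub_eq_zero.1 h4
        refine red_child_eig (l := k) (k := l) (p := q) (q := p) ?_ ea0 eb0 ?_ ?_ hk hq hp h.symm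
        · intro a' b' l' k' p' q' hpq
          exact ih a' b' l' k' p' q' (by omega)
        · rw [etr, h5, ← htr]; ring
        · rw [edt, h5, ← htr]; ring
    · refine Red.reg _ _ (Or.inl ?_)
      rw [h2]
      intro h4
      have e1 : tr a b = 0 := by
        have e2 := h1
        rw [← h3, cf_X0_mul_zero, h4] at e2
        linear_combination -e2
      rw [h4, zero_sub, zero_sub] at hroot
      rcases mul_eq_zero.1 hroot with h5 | h5
      · exact hl (neg_eq_zero.1 h5)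
      · exact hk (neg_eq_zero.1 h5)
  · exact red_child_reg (le_refl 1) ha1 hb1 hn hu hv hc h0

/-- two eigenvalues of positive rational ratio -/
theorem red_of_ratio (n : ℕ) : ∀ (a b : R2) (l k : ℂ) (p q : ℕ), p + q ≤ n → cf a 0 0 = 0 → cf b 0 0 = 0 → l + k = tr a b → l * k = dt a b →
      l ≠ 0 → 0 < p → 0 < q → (p : ℂ) * l = q * k → Red a b := by
  induction n with
  | zero =>
    intro a b l k p q hpq _ _ _ _ _ hp
    omega
  | succ n ih =>
    intro a b l k p q hpq ha hb htr hdt hl hp hq h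
    have ih' : ∀ (a' b' : R2) (l' k' : ℂ) (p' q' : ℕ), p' + q' < p + q → cf a' 0 0 = 0 → cf b' 0 0 = 0 → l' + k' = tr a' b' → l' * k' = dt a' b' →
        l' ≠ 0 → 0 < p' → 0 < q' → (p' : ℂ) * l' = q' * k' → Red a' b' :=
      fun a' b' l' k' p' q' hpq' => ih a' b' l' k' p' q' (by omega)
    refine Red.blow _ _ (fun t a₁ b₁ hc => red_child_of_eig ih' ha hb htr hdt hl hp hq h hc) fun a₁ b₁ hc => ?_
    refine red_child_of_eig (l := l) (k := k) ih' ?_ ?_ ?_ ?_ hl hp hq h hc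
    · rw [cf_sw]; exact hb
    · rw [cf_sw]; exact ha
    · rw [htr]; unfold tr; rw [cf_sw, cf_sw]; ring
    · rw [hdt]; unfold dt; rw [cf_sw, cf_sw, cf_sw, cf_sw]; ring

theorem red_of_roots {a b : R2} (ha : cf a 0 0 = 0) (hb : cf b 0 0 = 0) {l k : ℂ} (htr : l + k = tr a b) (hdt : l * k = dt a b) (hl : l ≠ 0) :
    Red a b := by
  by_cases h : ∀ p q : ℕ, 0 < p → 0 < q → (p : ℂ) * l ≠ q * k
  · exact Red.elem _ _ ⟨ha, hb, l, k, htr, hdt, hl, h⟩
  · push Not at h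
    obtain ⟨p, q, hp, hq, h⟩ := h
    exact red_of_ratio (p + q) a b l k p q le_rfl ha hb htr hdt hl hp hq h

theorem red_of_eig (a b : R2) (ha : cf a 0 0 = 0) (hb : cf b 0 0 = 0) (h : tr a b ≠ 0 ∨ dt a b ≠ 0) : Red a b := by
  obtain ⟨s, hs⟩ := IsAlgClosed.exists_pow_nat_eq (tr a b ^ 2 - 4 * dt a b) (n := 2) (by norm_num)
  have e1 : (tr a b + s) / 2 + (tr a b - s) / 2 = tr a b := by ring
  have e2 : (tr a b + s) / 2 * ((tr a b - s) / 2) = dt a b := by
    linear_combination -(1 / 4 : ℂ) * hs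
  by_cases hl : (tr a b + s) / 2 = 0
  · by_cases hk : (tr a b - s) / 2 = 0
    · rw [hl, hk, add_zero] at e1
      rw [hl, zero_mul] at e2
      rcases h with h | h
      · exact absurd e1.symm h
      · exact absurd e2.symm h
    · exact red_of_roots ha hb (by rw [add_comm]; exact e1) (by rw [mul_comm]; exact e2) hk
  · exact red_of_roots ha hb e1 e2 hl

/-- a simple root of `P` -/
theorem red_child_simple {a b a₁ b₁ u v : R2} {t : ℂ} {l : ℕ} (hl1 : 1 ≤ l) (ha : Ord l a) (hb : Ord l b)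
    (hl : ¬ (Ord (l + 1) a ∧ Ord (l + 1) b)) (hu : X 0 ^ l * u = bl t a) (hv : X 0 ^ l * v = bl t b) (h : Child t a b a₁ b₁)
    (h1 : cf (v - (X 1 + C t) * u) 0 1 ≠ 0) : Red a₁ b₁ := by
  by_cases h0 : cf (v - (X 1 + C t) * u) 0 0 = 0
  · rcases child_cases hl1 ha hb hl hu hv h with ⟨h2, h3, _⟩ | ⟨_, h3⟩
    · refine red_of_eig _ _ (by rw [h2]; exact cf_X0_mul_zero u 0) (by rw [h3]; exact h0) ?_
      have ea10 : cf a₁ 1 0 = cf u 0 0 := by
        rw [h2, cf_X0_mul]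
        simp
      have ea01 : cf a₁ 0 1 = 0 := by rw [h2]; exact cf_X0_mul_zero u 1
      have eb01 : cf b₁ 0 1 = cf (v - (X 1 + C t) * u) 0 1 := by rw [h3]
      by_cases hz : cf u 0 0 = 0
      · left
        unfold tr
        rw [ea10, hz, zero_add, eb01]
        exact h1
      · right
        unfold dt
        rw [ea10, ea01, zero_mul, sub_zero, eb01]
        exact mul_ne_zero hz h1
    · exact absurd (by rw [← h3]; exact cf_X0_mul_zero b₁ 1) h1
  · exact red_child_reg hl1 ha hb hl hu hv h h0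

end Pool.Agent.SB

end
end

section

/-!
# SB Nilp: nilpotent linear part

The child of a nilpotent germ at the kernel direction is `(x u, c)` with `u = m y + ..`, `c = be x - m y ^ 2 + ..`, `m ≠ 0`.
If `be ≠ 0`, two more blow-ups lead to a germ of order two with three simple tangents; if `be = 0`, it is of order two, one tangent is simple,
and `child_mu_le` gives a smaller multiplicity at the other points.
-/

set_option autoImplicit false

open MvPowerSeries

noncomputable section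

namespace Pool.Agent.SB

/-- the coefficients of `v - (y + t) u` -/
theorem cf_c (u v : R2) (t : ℂ) (i j : ℕ) :
    cf (v - (X 1 + C t) * u) i j = cf v i j - ((if 1 ≤ j then cf u i (j - 1) else 0) + t * cf u i j) := by
  rw [cf_sub, add_mul, cf_add, cf_X1_mul, cf_C_mul]

/-- the leading coefficients of the strict transform of a series of order one -/
theorem cf_one_of_bl {t : ℂ} {a u : R2} (h : X 0 ^ 1 * u = bl t a) :
    cf u 0 0 = cf a 1 0 + t * cf a 0 1 ∧ cf u 0 1 = cf a 0 1 ∧ cf u 0 2 = 0 ∧ cf u 1 0 = cf a 2 0 + cf a 1 1 * t + cf a 0 2 * t ^ 2 := by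
  refine ⟨?_, ?_, ?_, ?_⟩
  · rw [cf_of_bl h]; simp [Finset.sum_range_succ]; ring
  · rw [cf_of_bl h]; simp [Finset.sum_range_succ]
  · exact cf_zero_of_bl h (by norm_num)
  · rw [cf_of_bl h]; simp [Finset.sum_range_succ]

/-- the leading coefficients of the strict transform of a series of order two -/
theorem cf_two_of_bl {t : ℂ} {a u : R2} (h : X 0 ^ 2 * u = bl t a) :
    cf u 0 0 = cf a 2 0 + cf a 1 1 * t + cf a 0 2 * t ^ 2 ∧ cf u 0 1 = cf a 1 1 + 2 * cf a 0 2 * t ∧ cf u 0 2 = cf a 0 2 := by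
  refine ⟨?_, ?_, ?_⟩
  · rw [cf_of_bl h]; simp [Finset.sum_range_succ]
  · rw [cf_of_bl h]; simp [Finset.sum_range_succ]; left; ring
  · rw [cf_of_bl h]; simp [Finset.sum_range_succ]

theorem ord_one {a : R2} (h : cf a 0 0 = 0) : Ord 1 a := by
  intro i j hij
  obtain ⟨rfl, rfl⟩ : i = 0 ∧ j = 0 := by omega
  exact h

theorem ord_two {a : R2} (h : cf a 0 0 = 0) (h1 : cf a 1 0 = 0) (h2 : cf a 0 1 = 0) : Ord 2 a := by
  intro i j hij
  have : (i = 0 ∧ j = 0) ∨ (i = 1 ∧ j = 0) ∨ (i = 0 ∧ j = 1) := by omega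
  rcases this with ⟨rfl, rfl⟩ | ⟨rfl, rfl⟩ | ⟨rfl, rfl⟩
  · exact h
  · exact h1
  · exact h2

/-- a germ of order two with the quadratic part `(x (be y - m x), y (2 m x - be y))` -/
theorem red_three {A B : R2} {m be : ℂ} (hm : m ≠ 0) (hbe : be ≠ 0) (hA : Ord 2 A) (hB : Ord 2 B) (a20 : cf A 2 0 = -m) (a11 : cf A 1 1 = be)
    (a02 : cf A 0 2 = 0) (b20 : cf B 2 0 = 0) (b11 : cf B 1 1 = 2 * m) (b02 : cf B 0 2 = -be) : Red A B := by
  have hn : ¬ (Ord 3 A ∧ Ord 3 B) := fun h => hbe (by rw [← a11]; exact h.1 1 1 (by norm_num))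
  refine Red.blow A B ?_ ?_
  · intro s a₁ b₁ hc
    obtain ⟨u, hu⟩ := exists_bl s hA
    obtain ⟨v, hv⟩ := exists_bl s hB
    obtain ⟨u0, u1, u2⟩ := cf_two_of_bl hu
    obtain ⟨v0, v1, v2⟩ := cf_two_of_bl hv
    by_cases h0 : cf (v - (X 1 + C s) * u) 0 0 = 0
    · refine red_child_simple (by norm_num) hA hB hn hu hv hc ?_
      intro h1
      rw [cf_c, if_neg (by norm_num), u0, v0, a20, a11, a02, b20, b11, b02] at h0
      rw [cf_c, if_pos (le_refl 1), Nat.sub_self, u0, u1, v1, a20, a11, a02, b11, b02] at h1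
      have e1 : s * (3 * m - 2 * be * s) = 0 := by linear_combination h0
      have e2 : 3 * m - 4 * be * s = 0 := by linear_combination h1
      rcases mul_eq_zero.1 e1 with e | e
      · rw [e] at e2
        exact hm (by linear_combination (1 / 3 : ℂ) * e2)
      · exact hm (by linear_combination (2 / 3 : ℂ) * e - (1 / 3 : ℂ) * e2)
    · exact red_child_reg (by norm_num) hA hB hn hu hv hc h0
  · intro a₁ b₁ hc
    have hA' := ord_sw.2 hB
    have hB' := ord_sw.2 hA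
    have hn' : ¬ (Ord 3 (sw B) ∧ Ord 3 (sw A)) := fun h => hn ⟨ord_sw.1 h.2, ord_sw.1 h.1⟩
    obtain ⟨u, hu⟩ := exists_bl 0 hA'
    obtain ⟨v, hv⟩ := exists_bl 0 hB'
    obtain ⟨u0, u1, u2⟩ := cf_two_of_bl hu
    obtain ⟨v0, v1, v2⟩ := cf_two_of_bl hv
    refine red_child_simple (by norm_num) hA' hB' hn' hu hv hc ?_
    rw [cf_c, if_pos (le_refl 1), Nat.sub_self, u0, u1, v1]
    simp only [cf_sw, a20, a11, b20, b11, b02]
    intro h1
    exact hbe (by linear_combination (1 / 2 : ℂ) * h1)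

/-- the child of a nilpotent germ at the kernel direction -/
theorem red_child_nilp {a b a₁ b₁ : R2} {t : ℂ} (hf : Fin2 a b) (ha : cf a 0 0 = 0) (hb : cf b 0 0 = 0) (h12 : cf a 0 1 ≠ 0)
    (hker : cf a 1 0 + t * cf a 0 1 = 0) (ht : tr a b = 0) (hd : dt a b = 0)
    (ih : ∀ a' b' : R2, Fin2 a' b' → mu a' b' < mu a b → Red a' b') (h : Child t a b a₁ b₁) : Red a₁ b₁ := by
  set m : ℂ := cf a 0 1 with hm
  have a10 : cf a 1 0 = -(t * m) := by linear_combination hker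
  have b01 : cf b 0 1 = t * m := by
    have := ht
    unfold tr at this
    linear_combination this - a10
  have b10 : cf b 1 0 = -(t ^ 2 * m) := by
    have h2 := hd
    unfold dt at h2
    rw [a10, b01, ← hm] at h2
    have h3 : m * (cf b 1 0 + t ^ 2 * m) = 0 := by linear_combination -h2
    rcases mul_eq_zero.1 h3 with h4 | h4
    · exact absurd h4 h12
    · linear_combination h4
  have hA := ord_one ha
  have hB := ord_one hb
  have hn : ¬ (Ord 2 a ∧ Ord 2 b) := fun h => h12 (h.1 0 1 (by norm_num))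
  obtain ⟨u, hu⟩ := exists_bl t hA
  obtain ⟨v, hv⟩ := exists_bl t hB
  obtain ⟨u0, u1, u2, u3⟩ := cf_one_of_bl hu
  obtain ⟨v0, v1, v2, v3⟩ := cf_one_of_bl hv
  rw [a10, ← hm] at u0
  rw [← hm] at u1
  rw [b10, b01] at v0
  rw [b01] at v1
  have u0' : cf u 0 0 = 0 := by rw [u0]; ring
  have v0' : cf v 0 0 = 0 := by rw [v0]; ring
  have c00 : cf (v - (X 1 + C t) * u) 0 0 = 0 := by
    rw [cf_c, if_neg (by norm_num), u0', v0']; ring
  have c01 : cf (v - (X 1 + C t) * u) 0 1 = 0 := by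
    rw [cf_c, if_pos (le_refl 1), Nat.sub_self, u0', u1, v1]; ring
  have c02 : cf (v - (X 1 + C t) * u) 0 2 = -m := by
    rw [cf_c, if_pos (by norm_num), u2, v2, show (2 - 1 : ℕ) = 1 from rfl, u1]; ring
  have hcc := child_cases (le_refl 1) hA hB hn hu hv h
  obtain ⟨hf1, hmu1⟩ := child_mu_le (n := 2) hf (le_refl 1) hA hB hn hu hv h (by rw [c02]; exact neg_ne_zero.2 h12)
  rcases hcc with ⟨rfl, rfl, -⟩ | ⟨-, h2⟩
  swap
  · exfalso
    have h3 := (X0_dvd_iff _).1 (Dvd.intro _ h2) 2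
    rw [c02] at h3
    exact h12 (neg_eq_zero.1 h3)
  set B := v - (X 1 + C t) * u with hBdef
  -- the coefficients of `A = x u`
  have A0 : ∀ j, cf (X 0 * u) 0 j = 0 := fun j => by rw [cf_X0_mul, if_neg (by norm_num)]
  have A1 : ∀ i j, cf (X 0 * u) (i + 1) j = cf u i j := fun i j => by rw [cf_X0_mul, if_pos (by omega), Nat.add_sub_cancel]
  have A10 : cf (X 0 * u) 1 0 = 0 := by rw [A1 0 0, u0']
  have A11 : cf (X 0 * u) 1 1 = m := by rw [A1 0 1, u1]
  have hAo : Ord 1 (X 0 * u) := ord_one (A0 0)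
  have hBo : Ord 1 B := ord_one c00
  by_cases hbe : cf B 1 0 = 0
  · -- order two
    have hA2 : Ord 2 (X 0 * u) := ord_two (A0 0) A10 (A0 1)
    have hB2 : Ord 2 B := ord_two c00 hbe c01
    have hn2 : ¬ (Ord 3 (X 0 * u) ∧ Ord 3 B) := fun h => h12 (by rw [← A11]; exact h.1 1 1 (by norm_num))
    refine Red.blow _ _ ?_ ?_
    · intro s a' b' hc
      obtain ⟨p, hp⟩ := exists_bl s hA2
      obtain ⟨q, hq⟩ := exists_bl s hB2
      obtain ⟨p0, p1, p2⟩ := cf_two_of_bl hp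
      obtain ⟨q0, q1, q2⟩ := cf_two_of_bl hq
      have h1 : cf (q - (X 1 + C s) * p) 0 2 ≠ 0 := by
        rw [cf_c, if_pos (by norm_num), show (2 - 1 : ℕ) = 1 from rfl, p1, p2, q2, A11, A0 2, c02]
        intro h1
        exact h12 (by linear_combination (-1 / 2 : ℂ) * h1)
      obtain ⟨hf2, hmu2⟩ := child_mu_le (n := 2) hf1 (by norm_num) hA2 hB2 hn2 hp hq hc h1
      exact ih a' b' hf2 (by omega)
    · intro a' b' hc
      have hA' := ord_sw.2 hB2
      have hB' := ord_sw.2 hA2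
      have hn' : ¬ (Ord 3 (sw B) ∧ Ord 3 (sw (X 0 * u))) := fun h => hn2 ⟨ord_sw.1 h.2, ord_sw.1 h.1⟩
      obtain ⟨p, hp⟩ := exists_bl 0 hA'
      obtain ⟨q, hq⟩ := exists_bl 0 hB'
      obtain ⟨p0, p1, p2⟩ := cf_two_of_bl hp
      obtain ⟨q0, q1, q2⟩ := cf_two_of_bl hq
      refine red_child_simple (by norm_num) hA' hB' hn' hp hq hc ?_
      rw [cf_c, if_pos (le_refl 1), Nat.sub_self, p0, p1, q1]
      simp only [cf_sw, A11, c02]
      intro h1
      exact h12 (by linear_combination (1 / 2 : ℂ) * h1)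
  · -- order one
    have hn1 : ¬ (Ord 2 (X 0 * u) ∧ Ord 2 B) := fun h => hbe (h.2 1 0 (by norm_num))
    refine Red.blow _ _ ?_ ?_
    · intro s a' b' hc
      obtain ⟨p, hp⟩ := exists_bl s hAo
      obtain ⟨q, hq⟩ := exists_bl s hBo
      obtain ⟨p0, p1, p2, p3⟩ := cf_one_of_bl hp
      obtain ⟨q0, q1, q2, q3⟩ := cf_one_of_bl hq
      refine red_child_reg (le_refl 1) hAo hBo hn1 hp hq hc ?_
      rw [cf_c, if_neg (by norm_num), p0, q0, A10, A0 1, c01]
      intro h1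
      exact hbe (by linear_combination h1)
    · intro a' b' hc
      have hA' := ord_sw.2 hBo
      have hB' := ord_sw.2 hAo
      have hn' : ¬ (Ord 2 (sw B) ∧ Ord 2 (sw (X 0 * u))) := fun h => hn1 ⟨ord_sw.1 h.2, ord_sw.1 h.1⟩
      obtain ⟨p, hp⟩ := exists_bl 0 hA'
      obtain ⟨q, hq⟩ := exists_bl 0 hB'
      obtain ⟨p0, p1, p2, p3⟩ := cf_one_of_bl hp
      obtain ⟨q0, q1, q2, q3⟩ := cf_one_of_bl hq
      have q11 : cf q 1 1 = cf (sw (X 0 * u)) 1 1 := by
        rw [cf_of_bl hq]; simp [Finset.sum_range_succ]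
      have q20 : cf q 2 0 = cf (sw (X 0 * u)) 3 0 := by
        rw [cf_of_bl hq]; simp [Finset.sum_range_succ]
      simp only [cf_sw] at p0 p1 p2 p3 q0 q1 q2 q3 q11 q20
      rw [c01] at p0
      rw [A0 1] at q0
      rw [A10] at q1
      rw [A0 2] at q3
      rw [A11] at q11
      rw [A0 3] at q20
      rw [c02] at p3
      have d02 : cf (q - (X 1 + C 0) * p) 0 2 = -cf B 1 0 := by
        rw [cf_c, if_pos (by norm_num), show (2 - 1 : ℕ) = 1 from rfl, p1, p2, q2]; ring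
      have hcc := child_cases (le_refl 1) hA' hB' hn' hp hq hc
      rcases hcc with ⟨rfl, rfl, -⟩ | ⟨-, h2⟩
      swap
      · exfalso
        have h3 := (X0_dvd_iff _).1 (Dvd.intro _ h2) 2
        rw [d02] at h3
        exact hbe (neg_eq_zero.1 h3)
      have D0 : ∀ j, cf (X 0 * p) 0 j = 0 := fun j => by rw [cf_X0_mul, if_neg (by norm_num)]
      have D1 : ∀ i j, cf (X 0 * p) (i + 1) j = cf p i j := fun i j => by rw [cf_X0_mul, if_pos (by omega), Nat.add_sub_cancel]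
      have p00 : cf p 0 0 = 0 := by rw [p0]; ring
      have q00 : cf q 0 0 = 0 := by rw [q0]; ring
      have p10 : cf p 1 0 = -m := by rw [p3]; ring
      have q10 : cf q 1 0 = 0 := by rw [q3]; ring
      refine red_three (m := m) (be := cf B 1 0) h12 hbe (ord_two (D0 0) (by rw [D1 0 0, p00]) (D0 1)) (ord_two ?_ ?_ ?_) (by rw [D1 1 0, p10])
        (by rw [D1 0 1, p1]) (D0 2) ?_ ?_ d02
      · rw [cf_c, if_neg (by norm_num), p00, q00]; ring
      · rw [cf_c, if_neg (by norm_num), p10, q10]; ring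
      · rw [cf_c, if_pos (le_refl 1), Nat.sub_self, p00, q1]; ring
      · rw [cf_c, if_neg (by norm_num), q20]; ring
      · rw [cf_c, if_pos (le_refl 1), Nat.sub_self, p10, q11]; ring

end Pool.Agent.SB

end
end

section

/-!
# SB Fin: every germ of a vector field with an isolated singular point is reduced by finitely many blow-ups
-/

set_option autoImplicit false

open MvPowerSeries

noncomputable section

namespace Pool.Agent.SB

namespace FinP

theorem fp_ord1 {a : R2} : Ord 1 a ↔ cf a 0 0 = 0 := by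
  constructor
  · intro h
    exact h 0 0 (by omega)
  · intro h i j hij
    obtain rfl : i = 0 := by omega
    obtain rfl : j = 0 := by omega
    exact h

theorem fp_ord2 {a : R2} : Ord 2 a ↔ cf a 0 0 = 0 ∧ cf a 1 0 = 0 ∧ cf a 0 1 = 0 := by
  constructor
  · intro h
    exact ⟨h 0 0 (by omega), h 1 0 (by omega), h 0 1 (by omega)⟩
  · rintro ⟨h0, h1, h2⟩ i j hij
    rcases i with _ | _ | i
    · rcases j with _ | _ | j
      · exact h0
      · exact h2
      · omega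
    · obtain rfl : j = 0 := by omega
      exact h1
    · omega

theorem cf_one {t : ℂ} {a u : R2} (h : X 0 ^ 1 * u = bl t a) : cf u 0 0 = cf a 1 0 + cf a 0 1 * t := by
  rw [cf_of_bl h, Finset.sum_range_succ, Finset.sum_range_succ, Finset.sum_range_zero]
  simp

theorem cf_c {t : ℂ} {u v : R2} : cf (v - (X 1 + C t) * u) 0 0 = cf v 0 0 - t * cf u 0 0 := by
  rw [cf_sub, add_mul, cf_add, cf_X1_mul, cf_C_mul, if_neg (by omega), zero_add]

/-- the children of a germ with nilpotent linear part -/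
theorem child {a b a₁ b₁ : R2} {t : ℂ} (hf : Fin2 a b) (ha : cf a 0 0 = 0) (hb : cf b 0 0 = 0) (hl : ¬ (Ord (1 + 1) a ∧ Ord (1 + 1) b))
    (ht : tr a b = 0) (hd : dt a b = 0) (ih : ∀ a' b' : R2, Fin2 a' b' → mu a' b' < mu a b → Red a' b')
    (h12 : cf a 0 1 ≠ 0 ∨ cf b 1 0 ≠ 0) (h : Child t a b a₁ b₁) : Red a₁ b₁ := by
  have oa : Ord 1 a := fp_ord1.2 ha
  have ob : Ord 1 b := fp_ord1.2 hb
  obtain ⟨u, hu⟩ := exists_bl t oa
  obtain ⟨v, hv⟩ := exists_bl t ob
  by_cases h0 : cf (v - (X 1 + C t) * u) 0 0 ≠ 0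
  · exact red_child_reg le_rfl oa ob hl hu hv h h0
  · rw [not_not, cf_c, cf_one hu, cf_one hv] at h0
    unfold tr at ht
    unfold dt at hd
    -- the direction is an eigendirection, hence in the kernel
    have e1 : cf b 0 1 = -cf a 1 0 := by linear_combination ht
    rw [e1] at h0 hd
    have hk : (cf a 1 0 + cf a 0 1 * t) ^ 2 = 0 := by
      have : (cf a 1 0 + cf a 0 1 * t) ^ 2 = -(cf a 1 0 * -cf a 1 0 - cf a 0 1 * cf b 1 0) -
          cf a 0 1 * (cf b 1 0 + -cf a 1 0 * t - t * (cf a 1 0 + cf a 0 1 * t)) := by ring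
      rw [this, hd, h0]
      ring
    have hk' : cf a 1 0 + cf a 0 1 * t = 0 := pow_eq_zero_iff (two_ne_zero) |>.1 hk
    by_cases h01 : cf a 0 1 = 0
    · -- impossible
      exfalso
      rw [h01, zero_mul, add_zero] at hk'
      rw [h01, hk'] at h0
      rcases h12 with h12 | h12
      · exact h12 h01
      · apply h12
        linear_combination h0
    · exact red_child_nilp hf ha hb h01 (by linear_combination hk') ht (by unfold dt; rw [e1]; exact hd) ih h

end FinP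

open FinP

/-- **Seidenberg.**  Every germ with an isolated singular point is reduced by finitely many blow-ups. -/
theorem red_of_fin2 (a b : R2) (hf : Fin2 a b) : Red a b := by
  obtain ⟨m, hm⟩ : ∃ m, mu a b = m := ⟨_, rfl⟩
  induction m using Nat.strong_induction_on generalizing a b with
  | _ m ih =>
  subst hm
  have ih' : ∀ a' b' : R2, Fin2 a' b' → mu a' b' < mu a b → Red a' b' := fun a' b' h1 h2 => ih _ h2 a' b' h1 rfl
  by_cases h00 : cf a 0 0 ≠ 0 ∨ cf b 0 0 ≠ 0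
  · exact Red.reg _ _ h00
  push Not at h00
  obtain ⟨ha, hb⟩ := h00
  obtain ⟨l, hla, hlb, hl⟩ := exists_order hf
  have oa : Ord 1 a := fp_ord1.2 ha
  have ob : Ord 1 b := fp_ord1.2 hb
  rcases l with _ | _ | l
  · exact absurd ⟨oa, ob⟩ hl
  · -- order one
    by_cases he : tr a b ≠ 0 ∨ dt a b ≠ 0
    · exact red_of_eig a b ha hb he
    push Not at he
    obtain ⟨ht, hd⟩ := he
    have hfs : Fin2 (sw b) (sw a) := (fin2_swap a b).2 hf
    have hmu : mu (sw b) (sw a) = mu a b := mu_swap a b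
    have hts : tr (sw b) (sw a) = 0 := by
      rw [← ht]
      unfold tr
      rw [cf_sw, cf_sw, add_comm]
    have hds : dt (sw b) (sw a) = 0 := by
      rw [← hd]
      unfold dt
      rw [cf_sw, cf_sw, cf_sw, cf_sw]
      ring
    -- the linear part is not zero
    have h12 : cf a 0 1 ≠ 0 ∨ cf b 1 0 ≠ 0 := by
      by_contra hcon
      push Not at hcon
      obtain ⟨h1, h2⟩ := hcon
      unfold tr at ht
      unfold dt at hd
      have e1 : cf b 0 1 = -cf a 1 0 := by linear_combination ht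
      rw [h1, e1] at hd
      have e2 : cf a 1 0 ^ 2 = 0 := by linear_combination -hd
      have e3 : cf a 1 0 = 0 := pow_eq_zero_iff (two_ne_zero) |>.1 e2
      refine hl ⟨fp_ord2.2 ⟨ha, e3, h1⟩, fp_ord2.2 ⟨hb, h2, ?_⟩⟩
      rw [e1, e3, neg_zero]
    refine Red.blow a b (fun t a₁ b₁ h => child hf ha hb hl ht hd ih' h12 h) (fun a₁ b₁ h => ?_)
    refine child hfs (by rw [cf_sw]; exact hb) (by rw [cf_sw]; exact ha) ?_ hts hds (fun a' b' h1 h2 => ih' a' b' h1 (by rwa [hmu] at h2)) ?_ h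
    · rw [ord_sw, ord_sw]
      exact fun h => hl ⟨h.2, h.1⟩
    · rw [cf_sw, cf_sw]
      exact h12.symm
  · -- order at least two
    have hfs : Fin2 (sw b) (sw a) := (fin2_swap a b).2 hf
    refine Red.blow a b (fun t a₁ b₁ h => ?_) (fun a₁ b₁ h => ?_)
    · obtain ⟨h1, h2⟩ := child_mu hf (by omega) hla hlb hl h
      exact ih' _ _ h1 h2
    · obtain ⟨h1, h2⟩ := child_mu (l := l + 1 + 1) hfs (by omega) (ord_sw.2 hlb) (ord_sw.2 hla) (by
        rw [ord_sw, ord_sw]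
        exact fun h => hl ⟨h.2, h.1⟩) h
      rw [mu_swap] at h2
      exact ih' _ _ h1 h2

end Pool.Agent.SB

end
end

section

/-!
# MQ2 Uni: the tree of an isolated singular point

The tree comes from the formal theorem (`SB.Red`).  With `l` the order of `v` and `P` the tangent form of degree `l + 1`: `e = l - 1`, `ι = 1` if `P ≠ 0`,
`e = l`, `ι = 0` otherwise; this does not depend on the direction.
-/

set_option autoImplicit false

open Topology Filter Metric MvPowerSeries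

noncomputable section

namespace Pool.Agent.MQ2

open SB (R2 cf Ord Jet)

/-! ### the tangent form -/

/-- the leading form at `(1, s)` -/
def lead (A : R2) (l : ℕ) : Polynomial ℂ := ∑ k ∈ Finset.range (l + 1), Polynomial.monomial k (cf A (l - k) k)

/-- the tangent form at `(1, s)` -/
def tang (A B : R2) (l : ℕ) : Polynomial ℂ := lead B l - Polynomial.X * lead A l

theorem coeff_lead (A : R2) (l k : ℕ) : (lead A l).coeff k = if k ≤ l then cf A (l - k) k else 0 := by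
  rw [lead, Polynomial.finsetSum_coeff]
  simp only [Polynomial.coeff_monomial]
  rw [Finset.sum_ite_eq']
  simp only [Finset.mem_range, Nat.lt_succ_iff]

theorem coeff_X_mul_lead (A : R2) (l k : ℕ) :
    (Polynomial.X * lead A l).coeff k = if 1 ≤ k ∧ k ≤ l + 1 then cf A (l + 1 - k) (k - 1) else 0 := by
  cases k with
  | zero => simp
  | succ k =>
    rw [Polynomial.coeff_X_mul, coeff_lead]
    by_cases h : k ≤ l
    · rw [if_pos h, if_pos ⟨by omega, by omega⟩, Nat.add_sub_add_right, Nat.add_sub_cancel]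
    · rw [if_neg h, if_neg (by omega)]

theorem cf_lead {A u : R2} {t : ℂ} {l : ℕ} (hu : X 0 ^ l * u = SB.bl t A) (j : ℕ) : cf u 0 j = (Polynomial.taylor t (lead A l)).coeff j := by
  rw [SB.cf_of_bl hu, Polynomial.taylor_coeff, lead, map_sum, Polynomial.eval_finsetSum, zero_add]
  refine Finset.sum_congr rfl fun k _ => ?_
  rw [Polynomial.hasseDeriv_monomial, Polynomial.eval_monomial]
  ring

theorem cf_tang {A B u w : R2} {t : ℂ} {l : ℕ} (hu : X 0 ^ l * u = SB.bl t A) (hw : X 0 ^ l * w = SB.bl t B) (j : ℕ) :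
    cf (w - (X 1 + C t) * u) 0 j = (Polynomial.taylor t (tang A B l)).coeff j := by
  have h1 : cf ((X 1 + C t) * u) 0 j = (Polynomial.taylor t (Polynomial.X * lead A l)).coeff j := by
    rw [Polynomial.taylor_mul, Polynomial.taylor_X, add_mul, add_mul, SB.cf_add, SB.cf_X1_mul, SB.cf_C_mul, Polynomial.coeff_add,
      Polynomial.coeff_C_mul, ← cf_lead hu]
    congr 1
    cases j with
    | zero => simp
    | succ j => rw [if_pos (by omega), Polynomial.coeff_X_mul, ← cf_lead hu, Nat.add_sub_cancel]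
  rw [SB.cf_sub, h1, cf_lead hw, tang, map_sub, Polynomial.coeff_sub]

theorem dvd_iff_tang {A B u w : R2} {t : ℂ} {l : ℕ} (hu : X 0 ^ l * u = SB.bl t A) (hw : X 0 ^ l * w = SB.bl t B) :
    X 0 ∣ w - (X 1 + C t) * u ↔ tang A B l = 0 := by
  rw [SB.X0_dvd_iff]
  constructor
  · intro h
    have h1 : Polynomial.taylor t (tang A B l) = 0 := Polynomial.ext fun j => by rw [← cf_tang hu hw, h, Polynomial.coeff_zero]
    exact Polynomial.taylor_injective t (by rw [h1, map_zero])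
  · intro h j
    rw [cf_tang hu hw, h, map_zero, Polynomial.coeff_zero]

theorem coeff_tang (A B : R2) (l k : ℕ) : (tang A B l).coeff k =
    (if k ≤ l then cf B (l - k) k else 0) - if 1 ≤ k ∧ k ≤ l + 1 then cf A (l + 1 - k) (k - 1) else 0 := by
  rw [tang, Polynomial.coeff_sub, coeff_lead, coeff_X_mul_lead]

theorem tang_sw (A B : R2) (l : ℕ) : tang (SB.sw B) (SB.sw A) l = 0 ↔ tang A B l = 0 := by
  have h1 : ∀ A B : R2, tang A B l = 0 → tang (SB.sw B) (SB.sw A) l = 0 := by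
    intro A B h
    refine Polynomial.ext fun k => ?_
    rw [Polynomial.coeff_zero, coeff_tang, SB.cf_sw, SB.cf_sw]
    by_cases hk : k ≤ l + 1
    · have h2 : (tang A B l).coeff (l + 1 - k) = 0 := by rw [h, Polynomial.coeff_zero]
      rw [coeff_tang] at h2
      by_cases hk0 : k = 0
      · subst hk0
        rw [if_pos (by omega), if_neg (by omega)]
        rw [if_neg (by omega), if_pos (by omega), zero_sub, neg_eq_zero] at h2
        have e1 : l + 1 - (l + 1 - 0) = 0 := by omega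
        have e2 : l + 1 - 0 - 1 = l - 0 := by omega
        rw [e1, e2] at h2
        rw [h2, sub_zero]
      · by_cases hk1 : k = l + 1
        · subst hk1
          rw [if_neg (by omega), if_pos (by omega)]
          rw [if_pos (by omega), if_neg (by omega), sub_zero] at h2
          have e1 : l - (l + 1 - (l + 1)) = l + 1 - 1 := by omega
          rw [e1] at h2
          rw [h2, sub_zero]
        · rw [if_pos (by omega), if_pos (by omega)]
          rw [if_pos (by omega), if_pos (by omega)] at h2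
          have e1 : l - (l + 1 - k) = k - 1 := by omega
          have e2 : l + 1 - (l + 1 - k) = k := by omega
          have e3 : l + 1 - k - 1 = l - k := by omega
          rw [e1, e2, e3] at h2
          rw [← neg_sub, h2, neg_zero]
    · rw [if_neg (by omega), if_neg (by omega), sub_zero]
  refine ⟨fun h => ?_, h1 A B⟩
  have h2 := h1 _ _ h
  rwa [SB.sw_sw, SB.sw_sw] at h2

/-! ### from a formal child to an analytic child -/

theorem be_tendsto (t : ℂ) : Tendsto (be t) (𝓝 0) (𝓝 0) := SB.bt_tendsto t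

theorem line_tendsto : Tendsto (fun y : ℂ => ((0, y) : ℂ × ℂ)) (𝓝 0) (𝓝 0) := by
  have h2 : Continuous fun x : ℂ => ((0, x) : ℂ × ℂ) := by fun_prop
  exact h2.tendsto 0

theorem line_analytic {f : ℂ × ℂ → ℂ} (hf : AnalyticAt ℂ f 0) : AnalyticAt ℂ (fun y : ℂ => f (0, y)) 0 :=
  AnalyticAt.comp (g := f) (f := fun y : ℂ => ((0, y) : ℂ × ℂ)) (x := 0) hf (analyticAt_const.prod analyticAt_id)

/-- a germ whose Taylor series is not divisible by `x` has isolated zeros on `{x = 0}` -/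
theorem line_ne {f : ℂ × ℂ → ℂ} (hf : AnalyticAt ℂ f 0) {A : R2} (hA : Jet f A) (h : ¬ X 0 ∣ A) : ∀ᶠ y in 𝓝[≠] (0 : ℂ), f (0, y) ≠ 0 := by
  refine (line_analytic hf).eventually_eq_zero_or_eventually_ne_zero.resolve_left fun h0 => h ?_
  -- `f = x g`
  rw [SB.X0_dvd_iff]
  intro j
  by_cases hz : ∀ᶠ p in 𝓝 (0 : ℂ × ℂ), f p = 0
  · have h1 : Jet f 0 := SB.jet_zero.congr (by filter_upwards [hz] with p hp; rw [hp])
    rw [hA.unique h1, cf, map_zero]
  obtain ⟨a, g', hg', hgk, hgn⟩ := H22.HF.exists_div hf hz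
  cases a with
  | zero =>
    exfalso
    refine hgn ?_
    filter_upwards [line_tendsto.eventually hgk, h0] with y h1 h2
    have h3 : f (0, y) = g' (0, y) := by rw [h1, pow_zero, one_mul]
    rw [← h3, h2]
  | succ a =>
    obtain ⟨v, hv⟩ := SB.exists_jet hg'
    have h1 : Jet f (X 0 ^ (a + 1) * v) := ((SB.jet_fst_pow (a + 1)).mul hv).congr (by filter_upwards [hgk] with p hp; rw [hp])
    rw [hA.unique h1, SB.cf_X0_pow_mul, if_neg (by omega)]

theorem child_of_formal {v : ℂ × ℂ → ℂ × ℂ} (hv : AnalyticAt ℂ v 0) (hiso : ∀ᶠ p in 𝓝 (0 : ℂ × ℂ), p ≠ 0 → v p ≠ 0) {A B : R2}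
    (hA : Jet (fun p => (v p).1) A) (hB : Jet (fun p => (v p).2) B) {t : ℂ} {e ι : ℕ} {A₁ B₁ : R2} (h1 : X 0 ^ e * A₁ = SB.bl t A)
    (h2 : X 0 ^ (e + 1) * B₁ = SB.bl t B - (X 1 + C t) * SB.bl t A) (h3 : ¬ (X 0 ∣ A₁ ∧ X 0 ∣ B₁))
    (hι : (ι = 1 ∧ X 0 ∣ A₁) ∨ (ι = 0 ∧ ¬ X 0 ∣ A₁)) :
    ∃ w : ℂ × ℂ → ℂ × ℂ, Child e ι t v w ∧ Jet (fun p => (w p).1) A₁ ∧ Jet (fun p => (w p).2) B₁ := by
  have hbe : ∀ p, be t p = SB.bt t p := fun p => rfl
  have ha : AnalyticAt ℂ (fun p => (v p).1) 0 := analyticAt_fst.comp hv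
  have hb : AnalyticAt ℂ (fun p => (v p).2) 0 := analyticAt_snd.comp hv
  have ha' : AnalyticAt ℂ (fun p => (v (be t p)).1) 0 :=
    AnalyticAt.comp (g := fun p => (v p).1) (f := SB.bt t) (by rw [SB.bt_zero]; exact ha) (SB.bt_analytic t 0)
  have hb' : AnalyticAt ℂ (fun p => (v (be t p)).2) 0 :=
    AnalyticAt.comp (g := fun p => (v p).2) (f := SB.bt t) (by rw [SB.bt_zero]; exact hb) (SB.bt_analytic t 0)
  have hJa : Jet (fun p => (v (be t p)).1) (X 0 ^ e * A₁) := by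
    rw [h1]
    exact hA.bl t
  have hJb : Jet (fun p => (v (be t p)).2 - (p.2 + t) * (v (be t p)).1) (X 0 ^ (e + 1) * B₁) := by
    rw [h2]
    exact (hB.bl t).sub ((SB.jet_snd.add (SB.jet_const t)).mul (hA.bl t))
  obtain ⟨a₁, h4, h5, h6⟩ := hJa.exists_div ha'
  obtain ⟨b₁, h7, h8, h9⟩ := hJb.exists_div (hb'.sub ((analyticAt_snd.add analyticAt_const).mul ha'))
  have hsnd : ∀ᶠ p in 𝓝 (0 : ℂ × ℂ), (v (be t p)).2 = (p.2 + t) * (v (be t p)).1 + p.1 ^ (e + 1) * b₁ p := by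
    filter_upwards [h8] with p hp
    have hp' : (v (be t p)).2 - (p.2 + t) * (v (be t p)).1 = p.1 ^ (e + 1) * b₁ p := hp
    rw [← hp']
    ring
  refine ⟨fun p => (a₁ p, b₁ p), ⟨h4.prod h7, h5, hsnd, ?_, ?_⟩, h6, h9⟩
  · -- isolated zeros
    have hline : ∀ᶠ y in 𝓝[≠] (0 : ℂ), ((a₁ (0, y), b₁ (0, y)) : ℂ × ℂ) ≠ 0 := by
      by_cases hd : X 0 ∣ A₁
      · have hd' : ¬ X 0 ∣ B₁ := fun h => h3 ⟨hd, h⟩
        filter_upwards [line_ne h7 h9 hd'] with y hy h
        exact hy (congrArg Prod.snd h)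
      · filter_upwards [line_ne h4 h6 hd] with y hy h
        exact hy (congrArg Prod.fst h)
    rw [eventually_nhdsWithin_iff] at hline
    have hline' : ∀ᶠ p in 𝓝 (0 : ℂ × ℂ), p.2 ≠ 0 → ((a₁ (0, p.2), b₁ (0, p.2)) : ℂ × ℂ) ≠ 0 := by
      have h10 : Tendsto (fun p : ℂ × ℂ => p.2) (𝓝 0) (𝓝 0) := by
        simpa using (continuous_snd (X := ℂ) (Y := ℂ)).tendsto (0 : ℂ × ℂ)
      filter_upwards [h10.eventually hline] with p hp hp2
      exact hp hp2
    filter_upwards [hline', h5, hsnd, (be_tendsto t).eventually hiso] with p h10 h11 h12 h13 hp hw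
    by_cases hp1 : p.1 = 0
    · have hp2 : p.2 ≠ 0 := fun h => hp (Prod.ext hp1 h)
      refine h10 hp2 ?_
      have h14 : ((0, p.2) : ℂ × ℂ) = p := Prod.ext hp1.symm rfl
      rw [h14]
      exact hw
    · have h15 : be t p ≠ 0 := fun h => hp1 (congrArg Prod.fst h)
      refine h13 h15 ?_
      have h16 : a₁ p = 0 := congrArg Prod.fst hw
      have h17 : b₁ p = 0 := congrArg Prod.snd hw
      have h18 : (v (be t p)).1 = 0 := by rw [h11, h16, mul_zero]
      refine Prod.ext h18 ?_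
      rw [h12, h18, h17, mul_zero, mul_zero, add_zero]
      rfl
  · rcases hι with ⟨hι, hd⟩ | ⟨hι, hd⟩
    · exact Or.inl ⟨hι, h6.restrict h4 ((SB.X0_dvd_iff _).1 hd)⟩
    · exact Or.inr ⟨hι, line_ne h4 h6 hd⟩

/-- `e` and `ι` are the same for all directions -/
theorem exists_children {A B : R2} {l : ℕ} (hl : 1 ≤ l) (ha : Ord l A) (hb : Ord l B) (hn : ¬ (Ord (l + 1) A ∧ Ord (l + 1) B)) {t : ℂ} :
    ∃ A₁ B₁ : R2, (X 0 ^ (if tang A B l = 0 then l else l - 1) * A₁ = SB.bl t A) ∧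
      (X 0 ^ ((if tang A B l = 0 then l else l - 1) + 1) * B₁ = SB.bl t B - (X 1 + C t) * SB.bl t A) ∧ ¬ (X 0 ∣ A₁ ∧ X 0 ∣ B₁) ∧
      (((if tang A B l = 0 then 0 else 1) = 1 ∧ X 0 ∣ A₁) ∨ ((if tang A B l = 0 then 0 else 1) = 0 ∧ ¬ X 0 ∣ A₁)) := by
  obtain ⟨u, hu⟩ := SB.exists_bl t ha
  obtain ⟨w, hw⟩ := SB.exists_bl t hb
  by_cases hP : tang A B l = 0
  · obtain ⟨c, hc⟩ := (dvd_iff_tang hu hw).2 hP
    have hXu : ¬ X 0 ∣ u := by
      intro h
      refine hn ⟨SB.ord_succ_of_dvd ha hu h, SB.ord_succ_of_dvd hb hw ?_⟩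
      have h1 : w = X 0 * c + (X 1 + C t) * u := by rw [← hc]; ring
      rw [h1]
      exact dvd_add (dvd_mul_right _ _) (h.mul_left _)
    simp only [if_pos hP]
    refine ⟨u, c, hu, ?_, fun h => hXu h.1, Or.inr ⟨trivial, hXu⟩⟩
    rw [← hu, ← hw, pow_succ, mul_assoc, ← hc]
    ring
  · have hXc : ¬ X 0 ∣ w - (X 1 + C t) * u := fun h => hP ((dvd_iff_tang hu hw).1 h)
    simp only [if_neg hP]
    have hl' : l - 1 + 1 = l := by omega
    refine ⟨X 0 * u, w - (X 1 + C t) * u, ?_, ?_, fun h => hXc h.2, Or.inl ⟨trivial, dvd_mul_right _ _⟩⟩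
    · rw [← mul_assoc, ← pow_succ, hl', hu]
    · rw [hl', ← hu, ← hw]
      ring

theorem min_ord {A B : R2} (h : A ≠ 0 ∨ B ≠ 0) : ∃ l, Ord l A ∧ Ord l B ∧ ¬ (Ord (l + 1) A ∧ Ord (l + 1) B) := by
  classical
  have hex : ∃ n, ¬ (Ord n A ∧ Ord n B) := by
    rcases h with h | h
    · obtain ⟨l, -, h2⟩ := SB.exists_ord h
      exact ⟨l + 1, fun h => h2 h.1⟩
    · obtain ⟨l, -, h2⟩ := SB.exists_ord h
      exact ⟨l + 1, fun h => h2 h.2⟩
  have h1 := Nat.find_spec hex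
  have h2 : Nat.find hex ≠ 0 := by
    intro h0
    rw [h0] at h1
    exact h1 ⟨fun i j hij => absurd hij (by omega), fun i j hij => absurd hij (by omega)⟩
  obtain ⟨l, hl⟩ := Nat.exists_eq_succ_of_ne_zero h2
  have h3 : Ord l A ∧ Ord l B := by
    by_contra h3
    have := Nat.find_min' hex h3
    omega
  refine ⟨l, h3.1, h3.2, ?_⟩
  rw [hl] at h1
  exact h1

theorem elem_of_jets {v : ℂ × ℂ → ℂ × ℂ} (hv : AnalyticAt ℂ v 0) {A B : R2} (hA : Jet (fun p => (v p).1) A) (hB : Jet (fun p => (v p).2) B)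
    (h : SB.Elem A B) : Elem v := by
  obtain ⟨h1, h2, l, k, h3, h4, h5, h6⟩ := h
  have hd : DifferentiableAt ℂ v 0 := hv.differentiableAt
  have hf1 : ∀ x, (fderiv ℂ v 0 x).1 = fderiv ℂ (fun p => (v p).1) 0 x := fun x => by
    rw [fderiv.fst hd]
    rfl
  have hf2 : ∀ x, (fderiv ℂ v 0 x).2 = fderiv ℂ (fun p => (v p).2) 0 x := fun x => by
    rw [fderiv.snd hd]
    rfl
  refine ⟨Prod.ext ?_ ?_, l, k, ?_, ?_, h5, h6⟩
  · have := hA.apply_zero
    rw [h1] at this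
    exact this
  · have := hB.apply_zero
    rw [h2] at this
    exact this
  · rw [hf1, hf2, hA.fderiv_fst, hB.fderiv_snd]
    exact h3
  · rw [hf1, hf1, hf2, hf2, hA.fderiv_fst, hA.fderiv_snd, hB.fderiv_fst, hB.fderiv_snd]
    exact h4

/-- the tree of the vector field from the tree of its Taylor series -/
theorem tree_of_red {A B : R2} (h : SB.Red A B) : (A ≠ 0 ∨ B ≠ 0) → ∀ v : ℂ × ℂ → ℂ × ℂ, AnalyticAt ℂ v 0 →
    (∀ᶠ p in 𝓝 (0 : ℂ × ℂ), p ≠ 0 → v p ≠ 0) → Jet (fun p => (v p).1) A → Jet (fun p => (v p).2) B → Tree v := by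
  induction h with
  | reg A B h =>
    intro _ v _ _ hA hB
    refine Tree.reg v fun h0 => ?_
    have h1 : (v 0).1 = cf A 0 0 := hA.apply_zero
    have h2 : (v 0).2 = cf B 0 0 := hB.apply_zero
    rw [h0] at h1 h2
    rcases h with h | h
    · exact h h1.symm
    · exact h h2.symm
  | elem A B h =>
    intro _ v hv _ hA hB
    exact Tree.elem v (elem_of_jets hv hA hB h)
  | blow A B _ _ ih1 ih2 =>
    intro hne v hv hiso hA hB
    by_cases h0 : v 0 = 0
    swap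
    · exact Tree.reg v h0
    have hA0 : cf A 0 0 = 0 := by
      have h1 : (v 0).1 = cf A 0 0 := hA.apply_zero
      rw [h0] at h1
      exact h1.symm
    have hB0 : cf B 0 0 = 0 := by
      have h1 : (v 0).2 = cf B 0 0 := hB.apply_zero
      rw [h0] at h1
      exact h1.symm
    obtain ⟨l, ha, hb, hn⟩ := min_ord hne
    have hl : 1 ≤ l := by
      by_contra hlt
      have hl0 : l = 0 := by omega
      subst hl0
      refine hn ⟨fun i j hij => ?_, fun i j hij => ?_⟩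
      · have hi : i = 0 := by omega
        have hj : j = 0 := by omega
        rw [hi, hj, hA0]
      · have hi : i = 0 := by omega
        have hj : j = 0 := by omega
        rw [hi, hj, hB0]
    have hch : ∀ t : ℂ, ∃ w : ℂ × ℂ → ℂ × ℂ,
        Child (if tang A B l = 0 then l else l - 1) (if tang A B l = 0 then 0 else 1) t v w ∧ Tree w := by
      intro t
      obtain ⟨A₁, B₁, h1, h2, h3, h4⟩ := exists_children (t := t) hl ha hb hn
      obtain ⟨w, h5, h6, h7⟩ := child_of_formal hv hiso hA hB h1 h2 h3 h4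
      have hc : SB.Child t A B A₁ B₁ := ⟨_, h1, h2, h3⟩
      exact ⟨w, h5, ih1 t A₁ B₁ hc (SB.child_ne hc) w h5.an h5.iso h6 h7⟩
    choose w hw hwt using hch
    -- the point at infinity
    have hsw : ∀ q, AnalyticAt ℂ (fun p : ℂ × ℂ => p.swap) q := fun q => analyticAt_snd.prod analyticAt_fst
    have hvs : AnalyticAt ℂ (swv v) 0 := by
      have h1 : AnalyticAt ℂ (fun p : ℂ × ℂ => v p.swap) 0 := AnalyticAt.comp (g := v) (f := fun p : ℂ × ℂ => p.swap) hv (hsw 0)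
      exact AnalyticAt.comp (g := fun p : ℂ × ℂ => p.swap) (f := fun p : ℂ × ℂ => v p.swap) (hsw _) h1
    have hts : Tendsto (fun p : ℂ × ℂ => p.swap) (𝓝 0) (𝓝 0) := by
      have := (continuous_swap (X := ℂ) (Y := ℂ)).tendsto 0
      simpa using this
    have hisos : ∀ᶠ p in 𝓝 (0 : ℂ × ℂ), p ≠ 0 → swv v p ≠ 0 := by
      filter_upwards [hts.eventually hiso] with p hp hp0 h1
      refine hp (fun h2 => hp0 ?_) ?_
      · rw [← p.swap_swap, h2]
        rfl
      · have h3 : (v p.swap).swap = 0 := h1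
        rw [← (v p.swap).swap_swap, h3]
        rfl
    have hAs : Jet (fun p => (swv v p).1) (SB.sw B) := hB.sw
    have hBs : Jet (fun p => (swv v p).2) (SB.sw A) := hA.sw
    obtain ⟨A₂, B₂, h1, h2, h3, h4⟩ := exists_children (t := 0) (A := SB.sw B) (B := SB.sw A) hl (SB.ord_sw.2 hb) (SB.ord_sw.2 ha)
      fun h => hn ⟨SB.ord_sw.1 h.2, SB.ord_sw.1 h.1⟩
    simp only [tang_sw] at h1 h2 h4
    obtain ⟨wi, h5, h6, h7⟩ := child_of_formal hvs hisos hAs hBs h1 h2 h3 h4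
    have hc : SB.Child 0 (SB.sw B) (SB.sw A) A₂ B₂ := ⟨_, h1, h2, h3⟩
    exact Tree.blow v _ _ w wi hw h5 hwt (ih2 A₂ B₂ hc (SB.child_ne hc) wi h5.an h5.iso h6 h7)

theorem tree_of_iso' (hred : ∀ A B : R2, SB.Fin2 A B → SB.Red A B) {v : ℂ × ℂ → ℂ × ℂ} (hv : Iso v) : Tree v := by
  obtain ⟨h1, -, h3⟩ := hv
  have ha : AnalyticAt ℂ (fun p => (v p).1) 0 := analyticAt_fst.comp h1
  have hb : AnalyticAt ℂ (fun p => (v p).2) 0 := analyticAt_snd.comp h1
  obtain ⟨A, hA⟩ := SB.exists_jet ha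
  obtain ⟨B, hB⟩ := SB.exists_jet hb
  have hiso : ∀ᶠ p in 𝓝 (0 : ℂ × ℂ), p ≠ 0 → (v p).1 ≠ 0 ∨ (v p).2 ≠ 0 := by
    filter_upwards [h3] with p hp hp0
    by_contra hcon
    push Not at hcon
    exact hp hp0 (Prod.ext hcon.1 hcon.2)
  obtain ⟨h4, h5⟩ := SB.fin2_of_isolated ha hb hiso hA hB
  exact tree_of_red (hred A B h4) h5 v h1 h3 hA hB

/-- `e` and `ι` do not depend on the direction: with `l` the order of `v` and `P` the tangent form: `e = l - 1`, `ι = 1` if `P ≠ 0`, `e = l`, `ι = 0` otherwise -/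
theorem tree_of_iso {v : ℂ × ℂ → ℂ × ℂ} (hv : Iso v) : Tree v := tree_of_iso' SB.red_of_fin2 hv

end Pool.Agent.MQ2

end
end
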