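import Pool.Agent.H43.TL2.M114
import Pool.Agent.H43.TL2.M125
import Pool.Agent.H43.TL2.M63
import Pool.Agent.H43.TL2.M84
import Pool.Agent.H43.TL2.M90

/-! The parts of this file: H36.LB.Ind, H36.LB.Start, H36.LB.Final. -/

section

/-!
# LB Ind: the induction over the blow-ups
-/

set_option autoImplicit false

open Topology Filter

noncomputable section

namespace Pool.Agent.H36.LB

open Pool.Agent.H62.BU (blow total Ker phi om phi_smul)
open Pool.Agent.H17BP (Surface IsChart IsForm NoZeros NodalAt Pr HolP Picard Eqs ResAt eqs_blow thin_blow resAt_blow exists_forms exists_finset_of_isolated exists_resAt)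
open Pool.Agent.H36.BPL (openPart_blow comp_mem mem_totalK picardK_blow phi_pr)
open Pool.Agent.H14.KB (Kob kobK_blow)

/-- The blow-up of a model at a point of the curve is a model. -/
theorem modelL_blow {V : Type} [NormedAddCommGroup V] [NormedSpace ℂ V] [FiniteDimensional ℂ V] {ι : Type} [Fintype ι] {l : ι → V →L[ℂ] ℂ}
    {X K T : Set V} {q : V} {m j : ℕ} {Ω : V → V → V → ℂ} {κ : Type} {Q : κ → V → ℂ} {D : ℕ} (h : ModelL X K T m j Ω Q D) (hl : Ker l q) (hq : q ∈ T) :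
    ModelL (blow l X) (total l X K) (total l X T) (2 * m) j (om l j Ω) (fun (p : κ × ι) (y : ι → V) => Q p.1 (y p.2)) D where
  surf := Pool.Agent.H17BP.surface_iff.1 (Pool.Agent.H62.BU.surface_blow (Pool.Agent.H17BP.surface_iff.2 h.surf) hl (h.eqs.sub hq))
  opn := openPart_blow h.surf h.opn
  sub y hy hyK := by
    refine ⟨hy, fun b hb => ?_⟩
    have h1 : y b ∉ K := fun h2 => hyK ((mem_totalK h.surf h.opn.smul hy hb).mpr h2)
    exact h.sub _ (comp_mem h.surf hy hb) h1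
  one_m := by have := h.one_m; omega
  one_j := h.one_j
  form := Pool.Agent.H62.BU.formK h.opn h.form
  noZeros := Pool.Agent.H62.BU.noZerosK h.surf h.opn h.form (h.eqs.cone h.surf.smul) hl hq h.noZeros
  pole := (Pool.Agent.H62.BU.poleLE_om h.surf h.opn h.form h.pole).mono (by have := h.one_m; omega)
  eqs := eqs_blow h.surf h.eqs
  thin := fun σ τ h' => thin_blow h.surf h.eqs h.thin hl hq h'
  lim := lim_blow h.surf hl (h.eqs.cone h.surf.smul) hq h.lim

/-- The extension and boundedness theorem for models which are resolved by `n` blow-ups over every point. -/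
def PicKobN (n : ℕ) : Prop :=
  ∀ (V : Type) [NormedAddCommGroup V] [NormedSpace ℂ V] [FiniteDimensional ℂ V] (X K T : Set V) (m j : ℕ)
    (Ω : V → V → V → ℂ) (κ : Type) [Fintype κ] (Q : κ → V → ℂ) (D : ℕ), ModelL X K T m j Ω Q D →
    (∀ x ∈ X, ResAt X T x n) → Picard K T ∧ Kob K Q D

theorem picKobN_zero : PicKobN 0 := by
  intro V _ _ _ X K T m j Ω κ _ Q D h h0
  exact nodalL h fun x hx => (h0 x hx).nodal

theorem picKobN_step {n : ℕ} (ih : PicKobN n) : ∀ (k : ℕ) (V : Type) [NormedAddCommGroup V] [NormedSpace ℂ V]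
    [FiniteDimensional ℂ V] (X K T : Set V) (m j : ℕ) (Ω : V → V → V → ℂ) (κ : Type) [Fintype κ]
    (Q : κ → V → ℂ) (D : ℕ), ModelL X K T m j Ω Q D → (∀ x ∈ X, ResAt X T x (n + 1)) →
    (∃ F : Finset V, F.card ≤ k ∧ ∀ x ∈ X, ResAt X T x n ∨ ∃ q ∈ F, Pr x q) → Picard K T ∧ Kob K Q D := by
  intro k
  induction k with
  | zero =>
    intro V _ _ _ X K T m j Ω κ _ Q D h h0 hF
    obtain ⟨F, hF1, hF2⟩ := hF
    have hF0 : F = ∅ := Finset.card_eq_zero.1 (by omega)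
    refine ih V X K T m j Ω κ Q D h fun x hx => ?_
    rcases hF2 x hx with h1 | ⟨q, hq, -⟩
    · exact h1
    · rw [hF0] at hq
      simp at hq
  | succ k ihk =>
    intro V _ _ _ X K T m j Ω κ _ Q D h h0 hF
    obtain ⟨F, hF1, hF2⟩ := hF
    have hX := h.surf.smul
    have hB := h.eqs.cone h.surf.smul
    by_cases hall : ∀ x ∈ X, ResAt X T x n
    · exact ih V X K T m j Ω κ Q D h hall
    push Not at hall
    obtain ⟨x₀, hx₀, hx₀n⟩ := hall
    rcases hF2 x₀ hx₀ with h1 | ⟨q, hqF, hxq⟩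
    · exact absurd h1 hx₀n
    have hqX : q ∈ X := (hxq.mem_iff hX).1 hx₀
    have hqn : ¬ ResAt X T q n := fun h1 => hx₀n (h1.pr hX hB hxq)
    have hq0 : ¬ ResAt X T q 0 := fun h1 => hqn (h1.mono_le (Nat.zero_le n))
    have hqB : q ∈ T := by
      by_contra hqB
      exact hq0 (ResAt.of_notMem h.surf h.eqs hqX hqB)
    have hqne : q ≠ 0 := fun e => h.surf.zero (e ▸ hqX)
    obtain ⟨r, l, hl⟩ := exists_forms hqne
    classical
    refine And.imp (picardK_blow h.surf hl h.opn.sub h.opn.smul h.eqs.sub hB hqB)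
      (kobK_blow h.surf hl h.eqs h.opn.sub h.opn.smul hqB) ?_
    refine ihk (Fin r → V) (blow l X) (total l X K) (total l X T) (2 * m) j (om l j Ω) (κ × Fin r) _ D
      (modelL_blow h hl hqB) ?_ ⟨(F.erase q).image (phi l), ?_, ?_⟩
    · intro y hy
      rcases resAt_blow h.surf h.eqs hl hqB (h0 q hqX) hq0 hy with h1 | ⟨x, hx, -, -, h2⟩
      · exact h1.mono_le (Nat.le_succ n)
      · exact h2 _ (h0 x hx)
    · have h1 := Finset.card_image_le (s := F.erase q) (f := phi l)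
      have h2 := Finset.card_erase_of_mem hqF
      omega
    · intro y hy
      rcases resAt_blow h.surf h.eqs hl hqB (h0 q hqX) hq0 hy with h1 | ⟨x, hx, hxq', hyx, h2⟩
      · exact Or.inl h1
      · rcases hF2 x hx with h3 | ⟨q', hq'F, hxq''⟩
        · exact Or.inl (h2 _ h3)
        · refine Or.inr ⟨phi l q', Finset.mem_image_of_mem _ (Finset.mem_erase.2 ⟨?_, hq'F⟩),
            hyx.trans (phi_pr hxq'')⟩
          rintro rfl
          exact hxq' hxq''

/-- At all but finitely many points the curve is a monomial in local coordinates. -/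
theorem ModelL.exists_finset {V : Type} [NormedAddCommGroup V] [NormedSpace ℂ V] [FiniteDimensional ℂ V]
    {X K T : Set V} {m j : ℕ} {Ω : V → V → V → ℂ} {κ : Type} {Q : κ → V → ℂ} {D : ℕ}
    (h : ModelL X K T m j Ω Q D) :
    ∃ F : Finset V, (∀ q ∈ F, q ∈ X) ∧ ∀ x ∈ X, ResAt X T x 0 ∨ ∃ q ∈ F, Pr x q := by
  have hX := h.surf.smul
  have hB := h.eqs.cone h.surf.smul
  refine exists_finset_of_isolated h.surf (fun x y hxy hy => hy.pr hX hB hxy) fun x hx => ?_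
  obtain ⟨n, hn⟩ := exists_resAt h.surf h.eqs h.thin hx
  exact hn.near hX hB

theorem picKobN (n : ℕ) : PicKobN n := by
  induction n with
  | zero => exact picKobN_zero
  | succ n ih =>
    intro V _ _ _ X K T m j Ω κ _ Q D h h0
    obtain ⟨F, -, hF⟩ := h.exists_finset
    refine picKobN_step ih F.card V X K T m j Ω κ Q D h h0 ⟨F, le_rfl, fun x hx => ?_⟩
    rcases hF x hx with h1 | h1
    · exact Or.inl (h1.mono_le (Nat.zero_le n))
    · exact Or.inr h1

/-- **The extension and boundedness theorem.** -/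
theorem picKob_of_modelL {V : Type} [NormedAddCommGroup V] [NormedSpace ℂ V] [FiniteDimensional ℂ V]
    {X K T : Set V} {m j : ℕ} {Ω : V → V → V → ℂ} {κ : Type} [Fintype κ] {Q : κ → V → ℂ} {D : ℕ}
    (h : ModelL X K T m j Ω Q D) : Picard K T ∧ Kob K Q D := by
  classical
  have hX := h.surf.smul
  have hB := h.eqs.cone h.surf.smul
  obtain ⟨F, hFX, hF⟩ := h.exists_finset
  have h1 : ∀ q : V, ∃ n, q ∈ F → ResAt X T q n := by
    intro q
    by_cases hq : q ∈ F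
    · obtain ⟨n, hn⟩ := exists_resAt h.surf h.eqs h.thin (hFX q hq)
      exact ⟨n, fun _ => hn⟩
    · exact ⟨0, fun h2 => absurd h2 hq⟩
  choose n hn using h1
  refine picKobN (F.sup n) V X K T m j Ω κ Q D h fun x hx => ?_
  rcases hF x hx with h2 | ⟨q, hq, hxq⟩
  · exact h2.mono_le (Nat.zero_le _)
  · exact ((hn q hq).mono_le (Finset.le_sup (f := n) hq)).pr hX hB hxq

end Pool.Agent.H36.LB

end
end

section

/-!
# LB Start: the model of an open surface
-/

set_option autoImplicit false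

open Topology Filter MvPolynomial

noncomputable section

namespace Pool.Agent.H36.LB

open Pool.Agent.H17 (PN VanishesAt ZariskiClosedIn HolomorphicInto puncturedDisc)
open Pool.Agent.H62.FC (Homog)
open Pool.Agent.H62.SA (locVar locCone locCone_smul rep_mem_locCone mk_mem_locVar)
open Pool.Agent.H17BP (Surface IsChart IsForm NoZeros Pr HolP Picard Eqs Tan rep_mk_fin eval_smul_form rep_mem_cone vanishesAt_mk holP_rep)
open Pool.Agent.H36.BPL (OpenPart PoleLE analyticAt_form isForm_pow_mul)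
open Pool.Agent.H13.OT (OrderTwo)
open Pool.Agent.H68.KR (cone)

variable {N : ℕ} {P : Ideal (MvPolynomial (Fin (N + 1)) ℂ)} {s : ℕ} {G : Fin s → MvPolynomial (Fin (N + 1)) ℂ} {e : Fin s → ℕ}

/-- The cone of a closed subvariety is closed. -/
theorem cone_cl : ∀ x ∈ closure (cone P), x ≠ 0 → x ∈ cone P := Pool.Agent.H17BP.cone_closed

/-- The initial model. -/
theorem modelL_start [hPp : P.IsPrime] (hP : Homog P) (hG : ∀ m, (G m).IsHomogeneous (e m)) (hO : OpenPart (cone P) (locCone P G)) (hX : Surface (cone P))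
    (hthin : ∀ σ τ, IsChart (cone P) σ τ → ∀ (d : ℕ) (Q : MvPolynomial (Fin (N + 1)) ℂ), Q.IsHomogeneous d →
      Q ∉ P → ∃ᶠ p in 𝓝 (0 : ℂ × ℂ), eval (σ p) Q ≠ 0)
    {m₀ : Fin s} (hm₀ : G m₀ ∉ P)
    {k D₀ D₁ : ℕ} (hk : 1 ≤ k) {Ω : (Fin (N + 1) → ℂ) → (Fin (N + 1) → ℂ) → (Fin (N + 1) → ℂ) → ℂ}
    (hΩ : IsForm (locCone P G) k 1 Ω) (hpole : PoleLE (cone P) (locCone P G) k Ω)
    {Q₀ : MvPolynomial (Fin (N + 1)) ℂ} (hQ₀ : Q₀.IsHomogeneous D₀) (hQ₀P : Q₀ ∉ P)
    (hz : NoZeros (locCone P G) {x | x ∈ locCone P G ∧ eval x Q₀ = 0} Ω)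
    {Q₁ : MvPolynomial (Fin (N + 1)) ℂ} (hQ₁ : Q₁.IsHomogeneous D₁) (hQ₁P : Q₁ ∉ P) (hD₁ : 1 ≤ D₁)
    (hb : Lim2 (cone P) (locCone P G) {x | x ∈ cone P ∧ eval x (G m₀ * Q₀ * Q₁) = 0}) :
    ModelL (cone P) (locCone P G) {x | x ∈ cone P ∧ eval x (G m₀ * Q₀ * Q₁) = 0} (k * (e m₀ + 1)) 1
      (fun x v w => eval x (G m₀) * Ω x v w ^ (e m₀ + 1))
      (fun (_ : Unit) x => eval x (G m₀ * Q₀ * Q₁)) (e m₀ + D₀ + D₁) := by
  set d := e m₀ with hd
  have hH₀ : (G m₀).IsHomogeneous d := hG m₀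
  set Q : MvPolynomial (Fin (N + 1)) ℂ := G m₀ * Q₀ * Q₁ with hQdef
  have hQhom : Q.IsHomogeneous (d + D₀ + D₁) := (hH₀.mul hQ₀).mul hQ₁
  have hQP : Q ∉ P := by
    intro h
    rcases hPp.mem_or_mem h with h | h
    · rcases hPp.mem_or_mem h with h | h
      · exact hm₀ h
      · exact hQ₀P h
    · exact hQ₁P h
  have hout : ∀ x ∈ cone P, x ∉ locCone P G → eval x (G m₀) = 0 := by
    intro x hx hxK
    by_contra h1
    exact hxK ⟨hx, m₀, h1⟩
  have hform := isForm_pow_mul (k := d + 1) (d := d) (by omega) hΩ (H := fun x => eval x (G m₀)) (analyticAt_form _)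
    (fun c x => eval_smul_form hH₀ c x) (locCone_smul hP hG)
  have h1 : 1 * (d + 1) - d = 1 := by omega
  rw [h1] at hform
  refine ⟨hX, hO, ?_, Nat.mul_pos hk (Nat.succ_pos _), le_rfl,
    hform, ?_, ?_, ⟨by omega, ?_, ?_, ?_, ?_⟩, ?_, hb⟩
  · intro x hx hxK
    refine ⟨hx, ?_⟩
    rw [hQdef, map_mul, map_mul, hout x hx hxK, zero_mul, zero_mul]
  · intro x hx hxT v hv w hw hi
    have h2 : eval x (G m₀) ≠ 0 := by
      intro h0
      refine hxT ⟨hx.1, ?_⟩
      rw [hQdef, map_mul, map_mul, h0, zero_mul, zero_mul]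
    refine mul_ne_zero h2 (pow_ne_zero _ (hz x hx (fun h => hxT ⟨hx.1, ?_⟩) v hv w hw hi))
    rw [hQdef, map_mul, map_mul, h.2, mul_zero, zero_mul]
  · exact PoleLE.pow_mul hk (Nat.succ_pos d) hpole (H := fun x => eval x (G m₀)) (analyticAt_form _) hout
  · intro _ x
    exact analyticAt_form Q x
  · intro _ c x
    exact eval_smul_form hQhom c x
  · intro x
    exact ⟨fun h => ⟨h.1, fun _ => h.2⟩, fun h => ⟨h.1, h.2 ()⟩⟩
  · intro x hx
    exact ⟨(), Eventually.of_forall fun y hy h => ⟨hy, h⟩⟩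
  · intro σ τ h
    exact (hthin σ τ h _ Q hQhom hQP).mono fun p hp hpB => hp hpB.2

/-- **The model of an open surface which is proper over an affine variety**, with a section of a multiple of the logarithmic canonical
bundle minus a hyperplane, such that the nonconstant entire curves of order at most two lie in a proper closed subset. -/
theorem exists_modelL [hPp : P.IsPrime] (hP : Homog P) (hG : ∀ m, (G m).IsHomogeneous (e m)) (hO : OpenPart (cone P) (locCone P G)) (hX : Surface (cone P))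
    (hthin : ∀ σ τ, IsChart (cone P) σ τ → ∀ (d : ℕ) (Q : MvPolynomial (Fin (N + 1)) ℂ), Q.IsHomogeneous d →
      Q ∉ P → ∃ᶠ p in 𝓝 (0 : ℂ × ℂ), eval (σ p) Q ≠ 0)
    {k D₀ : ℕ} (hk : 1 ≤ k) {Ω : (Fin (N + 1) → ℂ) → (Fin (N + 1) → ℂ) → (Fin (N + 1) → ℂ) → ℂ}
    (hΩ : IsForm (locCone P G) k 1 Ω) (hpole : PoleLE (cone P) (locCone P G) k Ω)
    {Q₀ : MvPolynomial (Fin (N + 1)) ℂ} (hQ₀ : Q₀.IsHomogeneous D₀) (hQ₀P : Q₀ ∉ P)
    (hz : NoZeros (locCone P G) {x | x ∈ locCone P G ∧ eval x Q₀ = 0} Ω) {Ξ : Set (PN N)}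
    (hΞ : ZariskiClosedIn (locVar P G) Ξ) (hne : Ξ ≠ locVar P G)
    (hbr : LimModPN (locVar P G) Ξ) :
    ∃ (Q : MvPolynomial (Fin (N + 1)) ℂ) (D : ℕ), Q.IsHomogeneous D ∧ Q ∉ P ∧
      (∃ x ∈ locVar P G, ¬ VanishesAt Q x) ∧ (∀ x ∈ Ξ, VanishesAt Q x) ∧
      ∃ (m j : ℕ) (Ω' : (Fin (N + 1) → ℂ) → (Fin (N + 1) → ℂ) → (Fin (N + 1) → ℂ) → ℂ),
        ModelL (cone P) (locCone P G) {x | x ∈ cone P ∧ eval x Q = 0} m j Ω' (fun (_ : Unit) x => eval x Q) D := by
  classical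
  obtain ⟨S, hS, rfl⟩ := hΞ
  -- a form which vanishes on the exceptional set
  obtain ⟨x₁, hx₁, hx₁S⟩ : ∃ x ∈ locVar P G, ∃ Q ∈ S, ¬ VanishesAt Q x := by
    by_contra hcon
    push Not at hcon
    apply hne
    ext x
    exact ⟨fun h => h.1, fun h => ⟨h, hcon x h⟩⟩
  obtain ⟨Q₁, hQ₁S, hQ₁x⟩ := hx₁S
  obtain ⟨d₁, hQ₁⟩ := hS Q₁ hQ₁S
  have hQ₁P : Q₁ ∉ P := fun h => hQ₁x (hx₁.1 Q₁ h d₁ hQ₁)
  have hx₁K : x₁.rep ∈ locCone P G := (rep_mem_locCone hP).2 hx₁
  obtain ⟨m₀, hm₀x⟩ := hx₁K.2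
  have hm₀ : G m₀ ∉ P := fun h => hm₀x (hx₁K.1.2 _ h)
  obtain ⟨l, hl⟩ : ∃ l, x₁.rep l ≠ 0 := by
    by_contra hcon
    push Not at hcon
    exact x₁.rep_nonzero (funext hcon)
  have hlP : (X l : MvPolynomial (Fin (N + 1)) ℂ) ∉ P := by
    intro h
    have := hx₁K.1.2 _ h
    rw [eval_X] at this
    exact hl this
  have hQ₂ : (Q₁ * X l).IsHomogeneous (d₁ + 1) := hQ₁.mul (isHomogeneous_X ℂ l)
  have hQ₂P : Q₁ * X l ∉ P := fun h => (hPp.mem_or_mem h).elim hQ₁P hlP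
  have hout : ∀ x ∈ cone P, x ∉ locCone P G → eval x (G m₀) = 0 := by
    intro x hx hxK
    by_contra h1
    exact hxK ⟨hx, m₀, h1⟩
  have hBr : Lim2 (cone P) (locCone P G) {x | x ∈ cone P ∧ eval x (G m₀ * Q₀ * (Q₁ * X l)) = 0} := by
    refine lim2_of_limModPN (fun x hx => hx.1) hX.smul cone_cl hO ?_ (fun x hx0 => mk_mem_locVar hP hG hx0) ?_ hbr
    · intro x hx hxK
      refine ⟨hx, ?_⟩
      rw [map_mul, map_mul, hout x hx hxK, zero_mul, zero_mul]
    · intro x hx0 hx hxΞ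
      have h2 := hxΞ.2 Q₁ hQ₁S
      rw [vanishesAt_mk hQ₁] at h2
      refine ⟨hx.1, ?_⟩
      rw [map_mul, map_mul (eval x) Q₁, h2, zero_mul, mul_zero]
  have hmodel := modelL_start hP hG hO hX hthin hm₀ hk hΩ hpole hQ₀ hQ₀P hz hQ₂ hQ₂P (by omega) hBr
  set Q : MvPolynomial (Fin (N + 1)) ℂ := G m₀ * Q₀ * (Q₁ * X l) with hQdef
  have hQhom : Q.IsHomogeneous (e m₀ + D₀ + (d₁ + 1)) := ((hG m₀).mul hQ₀).mul hQ₂
  have hQP : Q ∉ P := by
    intro h'
    rcases hPp.mem_or_mem h' with h' | h'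
    · rcases hPp.mem_or_mem h' with h' | h'
      · exact hm₀ h'
      · exact hQ₀P h'
    · exact hQ₂P h'
  refine ⟨Q, e m₀ + D₀ + (d₁ + 1), hQhom, hQP, ?_, ?_, _, _, _, hmodel⟩
  · -- properness
    obtain ⟨σ, τ, h', hσ0⟩ := hX.chart x₁.rep hx₁K.1
    have hKσ : ∀ᶠ p in 𝓝 (0 : ℂ × ℂ), σ p ∈ locCone P G := by
      have h1 := h'.σ_an.continuousAt.tendsto
      rw [hσ0] at h1
      filter_upwards [h1.eventually (hO.rel _ hx₁K), h'.σ_mem] with p h2 h3
      exact h2 h3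
    obtain ⟨p, hp1, hp2⟩ := ((hthin σ τ h' _ Q hQhom hQP).and_eventually hKσ).exists
    have h3 : Projectivization.mk ℂ (σ p) hp2.1.1 ∈ locVar P G := (mk_mem_locVar hP hG hp2.1.1).2 hp2
    exact ⟨_, h3, fun h4 => hp1 ((vanishesAt_mk hQhom hp2.1.1).1 h4)⟩
  · intro x hx
    have h1 : eval x.rep Q₁ = 0 := hx.2 Q₁ hQ₁S
    show eval x.rep Q = 0
    rw [hQdef, map_mul, map_mul, map_mul, h1, zero_mul, mul_zero]

/-- The extension theorem for maps into the projective space. -/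
theorem extends_of_modelL (hP : Homog P)
    {Q : MvPolynomial (Fin (N + 1)) ℂ} {D m j : ℕ} {Ω : (Fin (N + 1) → ℂ) → (Fin (N + 1) → ℂ) → (Fin (N + 1) → ℂ) → ℂ}
    (h : ModelL (cone P) (locCone P G) {x | x ∈ cone P ∧ eval x Q = 0} m j Ω (fun (_ : Unit) x => eval x Q) D)
    {f : ℂ → PN N} (hf : HolomorphicInto f puncturedDisc) (hfX : ∀ z ∈ puncturedDisc, f z ∈ locVar P G)
    (hfQ : ∃ z ∈ puncturedDisc, ¬ VanishesAt Q (f z)) :
    ∃ g : ℂ → PN N, HolomorphicInto g (Metric.ball 0 1) ∧ ∀ z ∈ puncturedDisc, g z = f z := by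
  obtain ⟨z₁, hz₁, hz₁Q⟩ := hfQ
  have hball : ∀ z : ℂ, z ≠ 0 → ‖z‖ < 1 → z ∈ puncturedDisc := fun z h0 h1 => ⟨by simpa using h1, h0⟩
  have hball' : ∀ z ∈ puncturedDisc, z ≠ 0 ∧ ‖z‖ < 1 := fun z hz => ⟨hz.2, by simpa using hz.1⟩
  obtain ⟨F, hF, hF0, he⟩ := (picKob_of_modelL h).1 1 one_pos (fun z => (f z).rep)
    (fun z h0 h1 => ⟨holP_rep hf (hball z h0 h1), (rep_mem_locCone hP).2 (hfX z (hball z h0 h1))⟩)
    ⟨z₁, (hball' z₁ hz₁).1, (hball' z₁ hz₁).2, fun h => hz₁Q h.2⟩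
  classical
  refine ⟨fun z => if z = 0 then Projectivization.mk ℂ (F 0) hF0 else f z, ?_, ?_⟩
  · intro z₀ hz₀
    by_cases h0 : z₀ = 0
    · subst h0
      refine ⟨F, hF, ?_⟩
      rw [eventually_nhdsWithin_iff] at he
      filter_upwards [he, hF.continuousAt.eventually_ne hF0] with z h1 h2
      refine ⟨h2, ?_⟩
      by_cases h3 : z = 0
      · subst h3
        rw [if_pos rfl]
      · rw [if_neg h3, ← (h1 h3).mk_eq (f z).rep_nonzero h2, Projectivization.mk_rep]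
    · obtain ⟨φ, hφ, hφe⟩ := hf z₀ ⟨hz₀, h0⟩
      refine ⟨φ, hφ, ?_⟩
      filter_upwards [hφe, isOpen_compl_singleton.mem_nhds (show z₀ ∈ ({0} : Set ℂ)ᶜ from h0)] with z h1 h2
      obtain ⟨h3, h4⟩ := h1
      have h5 : z ≠ 0 := h2
      exact ⟨h3, by rw [if_neg h5, h4]⟩
  · intro z hz
    exact if_neg hz.2

end Pool.Agent.H36.LB

end
end

section

/-!
# LB Final: open surfaces of log general type, the complement of a curve

`IsCurveComplement P G`: the complement of `U = locVar P G` in the closed variety `X` given by `P` is locally given by one equation.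
-/

set_option autoImplicit false

open Topology Filter MvPolynomial

noncomputable section

namespace Pool.Agent.H36.LB

open Pool.Agent.H17 (PN VanishesAt ZariskiClosedIn HolomorphicInto puncturedDisc)
open Pool.Agent.H62.FC (Homog)
open Pool.Agent.H62.SA (locVar OnBd locCone locCone_smul locCone_subset rep_mem_locCone mk_mem_locVar exists_formF_of_smooth)
open Pool.Agent.H17BP (Surface IsChart IsForm NoZeros rep_mem_cone vanishesAt_mk rep_mk_fin)
open Pool.Agent.H17LG.Variety (FunField IsLogGeneralType)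
open Pool.Agent.H13.SM (conTan)
open Pool.Agent.H14.KB (KobayashiHyperbolicModulo)
open Pool.Agent.H36.BPL (OpenPart analyticAt_form)
open Pool.Agent.H68.KR (cone)

variable {N : ℕ} {P : Ideal (MvPolynomial (Fin (N + 1)) ℂ)} {s : ℕ} {G : Fin s → MvPolynomial (Fin (N + 1)) ℂ} {e : Fin s → ℕ}

/-- The complement of `U = locVar P G` in the zero locus `X` of `P` is locally given by one equation: every point of `X` has a neighbourhood
`{A ≠ 0}` in which `X ∖ U` is the zero set of one form `R`. -/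
def IsCurveComplement (P : Ideal (MvPolynomial (Fin (N + 1)) ℂ)) (G : Fin s → MvPolynomial (Fin (N + 1)) ℂ) : Prop :=
  ∀ x : PN N, (∀ Q ∈ P, ∀ n, Q.IsHomogeneous n → VanishesAt Q x) →
    ∃ (A R : MvPolynomial (Fin (N + 1)) ℂ) (a r : ℕ), A.IsHomogeneous a ∧ R.IsHomogeneous r ∧ ¬ VanishesAt A x ∧
      ∀ y : PN N, (∀ Q ∈ P, ∀ n, Q.IsHomogeneous n → VanishesAt Q y) → ¬ VanishesAt A y →
        (y ∈ locVar P G ↔ ¬ VanishesAt R y)

theorem openPart_of_curveComplement (hP : Homog P) (hG : ∀ m, (G m).IsHomogeneous (e m)) (h : IsCurveComplement P G) :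
    OpenPart (cone P) (locCone P G) where
  sub := locCone_subset G
  smul := locCone_smul hP hG
  eqn x hx := by
    have hmem : ∀ (y : Fin (N + 1) → ℂ) (hy : y ∈ cone P), ∀ Q ∈ P, ∀ n, Q.IsHomogeneous n →
        VanishesAt Q (Projectivization.mk ℂ y hy.1) := by
      intro y hy Q hQ n hQn
      rw [vanishesAt_mk hQn]
      exact hy.2 Q hQ
    obtain ⟨A, R, a, r, hA, hR, hAx, hiff⟩ := h _ (hmem x hx)
    rw [vanishesAt_mk hA] at hAx
    refine ⟨fun y => eval y R, analyticAt_form _ x, ?_⟩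
    filter_upwards [(analyticAt_form A x).continuousAt.eventually_ne hAx] with y hy hyX
    have h1 := hiff (Projectivization.mk ℂ y hyX.1) (hmem y hyX) (by rwa [vanishesAt_mk hA])
    rw [vanishesAt_mk hR, mk_mem_locVar hP hG] at h1
    rw [h1, not_not]

/-- A surface which is proper over an affine variety is the complement of a curve. -/
theorem curveComplement_of_proper {M : ℕ} {F : Fin s → Fin (M + 1) → MvPolynomial (Fin (N + 1)) ℂ}
    (h : Pool.Agent.H62.SA.IsProperMap P G F e) : IsCurveComplement P G := by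
  intro x hx
  obtain ⟨m, j, hm⟩ := h.noZero x hx
  refine ⟨F m j, G m, e m, e m, h.hom m j, h.homG m, hm, fun y hy hA => ⟨?_, fun h1 => ⟨hy, m, h1⟩⟩⟩
  rintro ⟨-, n, hn⟩ h0
  have hyc : ∀ (Q : MvPolynomial (Fin (N + 1)) ℂ) (d : ℕ), Q.IsHomogeneous d → (VanishesAt Q y ↔ eval y.rep Q = 0) := by
    intro Q d hQ
    have h2 := vanishesAt_mk hQ y.rep_nonzero
    rwa [Projectivization.mk_rep] at h2
  have hh : (F m j * G n - F n j * G m).IsHomogeneous (e m + e n) := by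
    have h2 := (h.hom m j).mul (h.homG n)
    have h3 := (h.hom n j).mul (h.homG m)
    rw [add_comm (e n) (e m)] at h3
    exact h2.sub h3
  have h1 := hy _ (h.rel m n j) (e m + e n) hh
  rw [hyc _ _ hh, map_sub, map_mul, map_mul] at h1
  rw [hyc _ _ (h.homG n)] at hn
  rw [hyc _ _ (h.hom m j)] at hA
  rw [hyc _ _ (h.homG m)] at h0
  rw [h0, mul_zero, sub_zero] at h1
  exact mul_ne_zero hA hn h1

/-- **The main theorem.** -/
theorem lim_surface [P.IsPrime] (hP : Homog P) {z : Fin 2 → FunField P} (hz : IsTranscendenceBasis ℂ z)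
    (hsm : ∀ y : Fin (N + 1) → ℂ, y ≠ 0 → (∀ Q ∈ P, eval y Q = 0) → Module.finrank ℂ (conTan P y) ≤ 3)
    (hG : ∀ m, (G m).IsHomogeneous (e m)) (hO : OpenPart (cone P) (locCone P G))
    (hgt : IsLogGeneralType (K := FunField P) (k := 2) (OnBd P G))
    {Ξ : Set (PN N)} (hΞ : ZariskiClosedIn (locVar P G) Ξ) (hne : Ξ ≠ locVar P G) (hbr : LimModPN (locVar P G) Ξ) :
    ∃ (Q : MvPolynomial (Fin (N + 1)) ℂ) (D : ℕ), Q.IsHomogeneous D ∧
      (∃ x ∈ locVar P G, ¬ VanishesAt Q x) ∧ (∀ x ∈ Ξ, VanishesAt Q x) ∧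
      KobayashiHyperbolicModulo (locVar P G) Q D ∧
      ∀ f : ℂ → PN N, HolomorphicInto f puncturedDisc → (∀ z ∈ puncturedDisc, f z ∈ locVar P G) →
        (∃ z ∈ puncturedDisc, ¬ VanishesAt Q (f z)) →
        ∃ g : ℂ → PN N, HolomorphicInto g (Metric.ball 0 1) ∧ ∀ z ∈ puncturedDisc, g z = f z := by
  have hX : Surface (cone P) := Pool.Agent.H13.SM.surface_cone hP hz fun y hy => hsm y hy.1 hy.2
  have hthin : ∀ σ τ, IsChart (cone P) σ τ → ∀ (d : ℕ) (Q : MvPolynomial (Fin (N + 1)) ℂ), Q.IsHomogeneous d →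
      Q ∉ P → ∃ᶠ p in 𝓝 (0 : ℂ × ℂ), eval (σ p) Q ≠ 0 := fun σ τ h d Q hQ hQP =>
    Pool.Agent.H13.SM.frequently_ne_zero hP hz (fun y hy => hsm y hy.1 hy.2) h hQ hQP
  obtain ⟨k, Ω, D₀, Q₀, hk, hQ₀, hQ₀P, hΩ, hnz, hpole⟩ := exists_formF_of_smooth P hP hz hG hsm hgt
  obtain ⟨Q, D, hQ, -, hex, hQΞ, m, j, Ω', hmodel⟩ := exists_modelL hP hG hO hX hthin hk hΩ hpole hQ₀ hQ₀P hnz hΞ hne hbr
  refine ⟨Q, D, hQ, hex, hQΞ, ?_, fun f hf hfX hfQ => extends_of_modelL hP hmodel hf hfX hfQ⟩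
  exact Pool.Agent.H14.KB.kobayashi_of_kobK (fun x hx => (rep_mem_locCone hP).2 hx) (picKob_of_modelL hmodel).2

end Pool.Agent.H36.LB

end
end
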