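import Pool.Agent.H43.TL2.M56
import Pool.Agent.H43.TL2.M69

/-! The parts of this file: MQ2.DDrel0, MQ2.DDrel, MQ2.StepR, MQ2.StepD. -/

section

/-!
# MQ2 DDrel0: the divergence of the transform

`div v ∘ β = x^e div w + (e + 1) x^(e-1) w₁`, `β = be t`, so off the zeros of `x` the functions `DDv` of `(v, g)` and of its transform `(w, x^ι g')` differ by
`(e + 1 + ι - m) x' / x`.
-/

set_option autoImplicit false

open Topology Filter Metric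

noncomputable section

namespace Pool.Agent.MQ2

open Pool.Agent.MQ

theorem hasFDerivAt_be (t : ℂ) (q : ℂ × ℂ) : HasFDerivAt (be t) ((ContinuousLinearMap.fst ℂ ℂ ℂ).prod
    (q.1 • ContinuousLinearMap.snd ℂ ℂ ℂ + (q.2 + t) • ContinuousLinearMap.fst ℂ ℂ ℂ)) q := by
  have h1 : HasFDerivAt (fun q : ℂ × ℂ => q.1) (ContinuousLinearMap.fst ℂ ℂ ℂ) q := hasFDerivAt_fst
  have h2 : HasFDerivAt (fun q : ℂ × ℂ => q.2 + t) (ContinuousLinearMap.snd ℂ ℂ ℂ) q := hasFDerivAt_snd.add_const t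
  exact h1.prodMk (h1.mul h2)

/-- the divergence under the blow-up -/
theorem dvg_be {e : ℕ} {t : ℂ} {v w : ℂ × ℂ → ℂ × ℂ} {q : ℂ × ℂ} (hv : AnalyticAt ℂ v (be t q)) (hw : AnalyticAt ℂ w q)
    (h1 : ∀ᶠ p in 𝓝 q, (v (be t p)).1 = p.1 ^ e * (w p).1)
    (h2 : ∀ᶠ p in 𝓝 q, (v (be t p)).2 = (p.2 + t) * (v (be t p)).1 + p.1 ^ (e + 1) * (w p).2) :
    q.1 * dvg v (be t q) = q.1 ^ (e + 1) * dvg w q + (e + 1) * q.1 ^ e * (w q).1 := by
  have hvd := hv.differentiableAt.hasFDerivAt.comp q (hasFDerivAt_be t q)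
  have hwd := hw.differentiableAt.hasFDerivAt
  set L := fderiv ℂ v (be t q) with hL
  set K := fderiv ℂ w q with hK
  -- the left sides
  have a1 : HasFDerivAt (fun p => (v (be t p)).1) ((ContinuousLinearMap.fst ℂ ℂ ℂ).comp (L.comp ((ContinuousLinearMap.fst ℂ ℂ ℂ).prod
    (q.1 • ContinuousLinearMap.snd ℂ ℂ ℂ + (q.2 + t) • ContinuousLinearMap.fst ℂ ℂ ℂ)))) q := (ContinuousLinearMap.fst ℂ ℂ ℂ).hasFDerivAt.comp q hvd
  have a2 : HasFDerivAt (fun p => (v (be t p)).2) ((ContinuousLinearMap.snd ℂ ℂ ℂ).comp (L.comp ((ContinuousLinearMap.fst ℂ ℂ ℂ).prod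
    (q.1 • ContinuousLinearMap.snd ℂ ℂ ℂ + (q.2 + t) • ContinuousLinearMap.fst ℂ ℂ ℂ)))) q := (ContinuousLinearMap.snd ℂ ℂ ℂ).hasFDerivAt.comp q hvd
  -- the right sides
  have f1 : HasFDerivAt (fun q : ℂ × ℂ => q.1) (ContinuousLinearMap.fst ℂ ℂ ℂ) q := hasFDerivAt_fst
  have f2 : HasFDerivAt (fun q : ℂ × ℂ => q.2 + t) (ContinuousLinearMap.snd ℂ ℂ ℂ) q := hasFDerivAt_snd.add_const t
  have w1 : HasFDerivAt (fun p => (w p).1) ((ContinuousLinearMap.fst ℂ ℂ ℂ).comp K) q := (ContinuousLinearMap.fst ℂ ℂ ℂ).hasFDerivAt.comp q hwd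
  have w2 : HasFDerivAt (fun p => (w p).2) ((ContinuousLinearMap.snd ℂ ℂ ℂ).comp K) q := (ContinuousLinearMap.snd ℂ ℂ ℂ).hasFDerivAt.comp q hwd
  have b1 := (f1.pow e).mul w1
  have b2 := (f2.mul a1).add ((f1.pow (e + 1)).mul w2)
  have c1 := a1.unique (b1.congr_of_eventuallyEq h1)
  have c2 := a2.unique (b2.congr_of_eventuallyEq h2)
  have hq1 := h1.self_of_nhds
  have d1 := congrArg (fun T : ℂ × ℂ →L[ℂ] ℂ => T (1, 0)) c1
  have d3 := congrArg (fun T : ℂ × ℂ →L[ℂ] ℂ => T (0, 1)) c2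
  simp at d1 d3
  have l1 : L (1, q.2 + t) = L (1, 0) + (q.2 + t) • L (0, 1) := by
    rw [← map_smul, ← map_add]
    congr 1
    simp
  have l2 : L (0, q.1) = q.1 • L (0, 1) := by
    rw [← map_smul]
    congr 1
    simp
  have he : q.1 * ((e : ℂ) * q.1 ^ (e - 1)) = e * q.1 ^ e := by
    rcases Nat.eq_zero_or_pos e with h | h
    · subst h
      simp
    · obtain ⟨m, rfl⟩ : ∃ m, e = m + 1 := ⟨e - 1, by omega⟩
      rw [Nat.add_sub_cancel, pow_succ]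
      ring
  rw [l1] at d1
  rw [l2] at d3
  simp only [Prod.fst_add, Prod.smul_fst, Prod.smul_snd, smul_eq_mul] at d1 d3
  unfold dvg
  rw [← hL, ← hK]
  rw [pow_succ] at d3 ⊢
  linear_combination q.1 * d1 + d3 + hq1 + (w q).1 * he

/-- the logarithmic derivative of a monomial times a function -/
theorem logDeriv_mono {x h f : ℂ → ℂ} {z : ℂ} {m : ℕ} (hx : DifferentiableAt ℂ x z) (hh : DifferentiableAt ℂ h z) (hx0 : x z ≠ 0) (hh0 : h z ≠ 0)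
    (hf : ∀ᶠ w in 𝓝 z, f w = x w ^ m * h w) : deriv f z / f z = m * deriv x z / x z + deriv h z / h z := by
  have h1 := (hx.hasDerivAt.pow m).mul hh.hasDerivAt
  have h2 : deriv f z = (m * x z ^ (m - 1) * deriv x z) * h z + x z ^ m * deriv h z := by
    rw [EventuallyEq.deriv_eq (show f =ᶠ[𝓝 z] x ^ m * h from hf), h1.deriv]
    rfl
  rw [h2, hf.self_of_nhds]
  rcases Nat.eq_zero_or_pos m with h3 | h3
  · subst h3
    simp
  · obtain ⟨k, rfl⟩ : ∃ k, m = k + 1 := ⟨m - 1, by omega⟩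
    rw [Nat.add_sub_cancel]
    field_simp
    ring

theorem continuous_be (t : ℂ) : Continuous (be t) := by
  unfold be
  fun_prop

end Pool.Agent.MQ2

end
end

section

/-!
# MQ2 DDrel: the field of the transform

`div v ∘ β = x^e div w + (e + 1) x^(e-1) w₁`, `β = be t`, so off the zeros of `x` the functions `DDv` of `(v, g)` and of its transform `(w, x^ι g')` differ by
`(e + 1 + ι - m) x' / x`.
-/

set_option autoImplicit false

open Topology Filter Metric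

noncomputable section

namespace Pool.Agent.MQ2

open Pool.Agent.MQ

/-- off the zeros of `x` the fields of `(v, g)` and of its transform differ by `(e + 1 + ι - m) x' / x` -/
theorem DD_child {e ι m : ℕ} {t : ℂ} {v w : ℂ × ℂ → ℂ × ℂ} {g g' : ℂ × ℂ → ℂ} (hv : AnalyticAt ℂ v 0) (hw : Child e ι t v w) (hg : Wt v g)
    (hg' : AnalyticAt ℂ g' 0) (hm : ∀ᶠ p in 𝓝 (0 : ℂ × ℂ), g (be t p) = p.1 ^ m * g' p) : ∀ᶠ ρ in 𝓝[>] (0 : ℝ), ∀ (r : ℝ) (Om : Set ℂ) (p : ℂ → ℂ × ℂ),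
      Crv1 v r Om p → (∀ z ∈ Om, ∃ᶠ w in 𝓝 z, p w ≠ 0) → ρ < r → ρ * (ρ + ‖t‖) < r →
        ∀ z ∈ Omt Om p t ρ, (p z).1 ≠ 0 → v (p z) ≠ 0 → g (p z) ≠ 0 → g' (pt t p z) ≠ 0 ∧
          DDv v g p z = DDv w (fun q => q.1 ^ ι * g' q) (pt t p) z + ((e : ℂ) + 1 + ι - m) * (deriv p z).1 / (p z).1 := by
  have hbe0 : be t 0 = 0 := by
    unfold be
    simp
  have hE : ∀ᶠ q in 𝓝 (0 : ℂ × ℂ), AnalyticAt ℂ w q ∧ AnalyticAt ℂ v (be t q) ∧ AnalyticAt ℂ g' q ∧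
      (∀ᶠ p in 𝓝 q, (v (be t p)).1 = p.1 ^ e * (w p).1) ∧ (∀ᶠ p in 𝓝 q, (v (be t p)).2 = (p.2 + t) * (v (be t p)).1 + p.1 ^ (e + 1) * (w p).2) ∧
      ∀ᶠ p in 𝓝 q, g (be t p) = p.1 ^ m * g' p := by
    have h1 : ∀ᶠ q in 𝓝 (0 : ℂ × ℂ), AnalyticAt ℂ v (be t q) := by
      have h2 : Tendsto (be t) (𝓝 0) (𝓝 0) := by
        have := (continuous_be t).tendsto 0
        rwa [hbe0] at this
      exact h2.eventually hv.eventually_analyticAt
    filter_upwards [hw.an.eventually_analyticAt, h1, hg'.eventually_analyticAt, hw.fst.eventually_nhds, hw.snd.eventually_nhds, hm.eventually_nhds]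
      with q a1 a2 a3 a4 a5 a6
    exact ⟨a1, a2, a3, a4, a5, a6⟩
  obtain ⟨ε, hε, hE⟩ := Metric.eventually_nhds_iff_ball.1 hE
  filter_upwards [crv_child hw, Ioo_mem_nhdsGT hε] with ρ h1 h2 r Om p hc hpn hρr hρt z hz hx hvz hgz
  obtain ⟨c1, -, c3⟩ := h1 r Om p hc hpn hρr hρt
  obtain ⟨hwa, hva, hga, e1, e2, e3⟩ := hE (pt t p z) (ball_subset_ball h2.2.le (c1.mem z hz))
  have hbe : be t (pt t p z) = p z := be_pt hz (hc.an z hz.1)
  have hbe' : ∀ᶠ w in 𝓝 z, be t (pt t p w) = p w := by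
    filter_upwards [c1.isOpen.mem_nhds hz] with w hw
    exact be_pt hw (hc.an w hw.1)
  have hpt := c1.an z hz
  obtain ⟨hw0, hzt⟩ := c3 z hz hx hvz
  have hptx : ∀ w, (pt t p w).1 = (p w).1 := fun w => rfl
  have hdx : (deriv (pt t p) z).1 = (deriv p z).1 := by
    rw [← deriv_fst' hpt.differentiableAt, ← deriv_fst' (hc.an z hz.1).differentiableAt]
    rfl
  have hX := c1.deriv_fst hz hw0
  rw [hdx, hzt] at hX
  -- the functions `g`
  have hgp : ∀ᶠ w in 𝓝 z, g (p w) = (p w).1 ^ m * g' (pt t p w) := by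
    filter_upwards [hbe', hpt.continuousAt.eventually e3] with w h3 h4
    rw [h3] at h4
    exact h4
  have hg'0 : g' (pt t p z) ≠ 0 := by
    intro h3
    rw [hgp.self_of_nhds, h3, mul_zero] at hgz
    exact hgz rfl
  refine ⟨hg'0, ?_⟩
  have hxd : DifferentiableAt ℂ (fun w => (p w).1) z := (an_fst (hc.an z hz.1)).differentiableAt
  have hgd : DifferentiableAt ℂ (fun w => g' (pt t p w)) z := (AnalyticAt.comp (g := g') hga hpt).differentiableAt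
  have k2 := logDeriv_mono (x := fun w => (p w).1) (h := fun w => g' (pt t p w)) (f := fun w => g (p w)) hxd hgd hx hg'0 hgp
  have k3 := logDeriv_mono (x := fun w => (p w).1) (h := fun w => g' (pt t p w)) (f := fun w => (fun q : ℂ × ℂ => q.1 ^ ι * g' q) (pt t p w)) (m := ι) hxd hgd hx hg'0
    (Eventually.of_forall fun w => rfl)
  have k1 := dvg_be hva hwa e1 e2
  rw [hbe, hptx] at k1
  rw [deriv_fst' (hc.an z hz.1).differentiableAt] at k2 k3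
  unfold DDv
  rw [k2, k3, hzt, hX]
  have k4 : dvg v (p z) = ((p z).1 ^ (e + 1) * dvg w (pt t p z) + (e + 1) * (p z).1 ^ e * (w (pt t p z)).1) / (p z).1 := by
    rw [eq_div_iff hx, mul_comm]
    exact k1
  rw [k4]
  field_simp
  ring

end Pool.Agent.MQ2

end
end

section

/-!
# MQ2 StepR: the relations in the chart at the direction `t`
-/

set_option autoImplicit false

open Topology Filter Metric MeasureTheory Asymptotics Laplacian

noncomputable section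

namespace Pool.Agent.MQ2

open Pool.Agent.H36.BP (EN)
open Pool.Agent.H30M (tau LogSing)
open Pool.Agent.MQ

theorem ztv_zero {v : ℂ × ℂ → ℂ × ℂ} {p : ℂ → ℂ × ℂ} {z : ℂ} (h : v (p z) = 0) : ztv v p z = 0 := by
  unfold ztv
  simp [h]

/-- The relations in the chart at `t`. -/
theorem rel_child {e ι m : ℕ} {t : ℂ} {v w : ℂ × ℂ → ℂ × ℂ} {g g' J : ℂ × ℂ → ℂ} (hv : Iso v) (hw : Child e ι t v w) (hg : Wt v g)
    (hJ : AnalyticAt ℂ J 0) (hg' : AnalyticAt ℂ g' 0) (hm : ∀ᶠ p in 𝓝 (0 : ℂ × ℂ), g (be t p) = p.1 ^ m * g' p) :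
    ∀ᶠ ρ in 𝓝[>] (0 : ℝ), ∀ (r : ℝ) (Om : Set ℂ) (p : ℂ → ℂ × ℂ), Crv1 v r Om p → (∀ z ∈ Om, ∃ᶠ w in 𝓝 z, p w ≠ 0) →
      (∀ z ∈ Om, ∃ᶠ w in 𝓝 z, g (p w) ≠ 0) → (∀ z ∈ Om, v (p z) ≠ 0 → g (p z) ≠ 0) → ρ < r → ρ * (ρ + ‖t‖) < r →
      Crv1 w ρ (Omt Om p t ρ) (pt t p) ∧ ∀ z ∈ Omt Om p t ρ, p z = be t (pt t p z) ∧ (∀ᶠ w' in 𝓝[≠] z, (p w').1 ≠ 0) ∧ AnalyticAt ℂ (slope p) z ∧
        (∀ᶠ w' in 𝓝 z, (p w').2 = (p w').1 * slope p w') ∧
        (∃ᶠ w' in 𝓝 z, pt t p w' ≠ 0) ∧ (∃ᶠ w' in 𝓝 z, gt ι g' (pt t p w') ≠ 0) ∧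
        ((p z).1 ≠ 0 → DDv v g p z = DDv w (gt ι g') (pt t p) z + ((e : ℂ) + 1 + ι - m) * (deriv (fun z => (p z).1) z / (p z).1)) ∧
        (z ∈ VV v g J Om p → (p z).1 ≠ 0 ∧ ztv w (pt t p) z ≠ 0 ∧ gt ι g' (pt t p z) ≠ 0 ∧ Jt t J (pt t p z) ≠ 0 ∧
          LL v g J p z + ((e : ℝ) + 1 + ι - m) * Real.log ‖(p z).1‖ = LL w (gt ι g') (Jt t J) (pt t p) z) := by
  obtain ⟨ρ₀, hρ₀, hm'⟩ := Metric.eventually_nhds_iff_ball.1 hm
  obtain ⟨ρ₁, hρ₁, hiso⟩ := Metric.eventually_nhds_iff_ball.1 (hv.2.2.and hg.an.eventually_analyticAt)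
  have hc : Tendsto (fun ρ : ℝ => ρ * (ρ + ‖t‖)) (𝓝[>] 0) (𝓝 0) := by
    have : ContinuousAt (fun ρ : ℝ => ρ * (ρ + ‖t‖)) 0 := by fun_prop
    have h := this.tendsto
    simp only [zero_mul] at h
    exact h.mono_left nhdsWithin_le_nhds
  filter_upwards [crv_child hw, DD_child hv.1 hw hg hg' hm, mem_nhdsWithin_of_mem_nhds (gt_mem_nhds hρ₀), mem_nhdsWithin_of_mem_nhds (gt_mem_nhds hρ₁),
    hc.eventually (gt_mem_nhds hρ₁)] with ρ a1 a2 a3 a4 a5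
  intro r Om p hC hne hgne hgv hρr hρr'
  obtain ⟨b1, b2, b3⟩ := a1 r Om p hC hne hρr hρr'
  refine ⟨b1, fun z hz => ?_⟩
  have hp := hC.an z hz.1
  have hbe := be_pt hz hp
  have hx0 : ∀ᶠ w' in 𝓝[≠] z, (p w').1 ≠ 0 := by
    rcases (an_fst hp).eventually_eq_zero_or_eventually_ne_zero with h | h
    · exact absurd (h.mono fun _ h' => not_not.2 h') hz.2.1.1
    · exact h
  obtain ⟨f, hf, h2, h3⟩ := exists_slope hp hz.2.1
  have hsl : AnalyticAt ℂ (slope p) z := hf.congr (by filter_upwards [h3] with w' hw' using hw'.2.symm)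
  have hball : ∀ w' ∈ Omt Om p t ρ, pt t p w' ∈ ball (0 : ℂ × ℂ) ρ₀ := fun w' hw' => by
    rw [mem_ball_zero_iff, Prod.norm_def]
    exact (max_lt hw'.2.2.1 hw'.2.2.2).trans a3
  have hgm : ∀ w' ∈ Omt Om p t ρ, g (p w') = (p w').1 ^ m * g' (pt t p w') := fun w' hw' => by
    have h := hm' _ (hball w' hw')
    rwa [be_pt hw' (hC.an w' hw'.1)] at h
  have hp1 : p z ∈ ball (0 : ℂ × ℂ) ρ₁ := mem_ball_of_Omt hp hz a4.le a5.le
  have hgp : AnalyticAt ℂ (fun w' => g (p w')) z := (hiso _ hp1).2.comp hp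
  have hg0 : ∀ᶠ w' in 𝓝[≠] z, g (p w') ≠ 0 := by
    rcases hgp.eventually_eq_zero_or_eventually_ne_zero with h | h
    · exact absurd (h.mono fun _ h' => not_not.2 h') (hgne z hz.1)
    · exact h
  have hgt0 : ∃ᶠ w' in 𝓝 z, gt ι g' (pt t p w') ≠ 0 := by
    have h4 : ∀ᶠ w' in 𝓝[≠] z, gt ι g' (pt t p w') ≠ 0 := by
      filter_upwards [hx0, hg0, (Omt_ev hC.isOpen hp hz).filter_mono nhdsWithin_le_nhds] with w' c1 c2 c3
      rw [hgm w' c3] at c2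
      exact mul_ne_zero (pow_ne_zero _ c1) (right_ne_zero_of_mul c2)
    exact h4.frequently.filter_mono nhdsWithin_le_nhds
  refine ⟨hbe.symm, hx0, hsl, ?_, b2 z hz, hgt0, fun hx => ?_, fun hV => ?_⟩
  · filter_upwards [h2, h3] with w' c1 c2
    rw [c2.2, c1]
  · have hpz : p z ≠ 0 := fun h => hx (by rw [h]; rfl)
    have hvz := (hiso _ hp1).1 hpz
    have h4 := (a2 r Om p hC hne hρr hρr' z hz hx hvz (hgv z hz.1 hvz)).2
    rw [deriv_fst' hp.differentiableAt, h4, mul_div_assoc]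
    rfl
  · obtain ⟨-, d1, d2, d3⟩ := hV
    have hvz : v (p z) ≠ 0 := fun h => d1 (ztv_zero h)
    have hx : (p z).1 ≠ 0 := fun h => by
      apply hvz
      have h4 : p z = 0 := by
        rw [← hbe]
        have h5 : (pt t p z).1 = 0 := h
        simp only [be, h5, zero_mul]
        rfl
      rw [h4]
      exact hv.2.1
    obtain ⟨e1, e2⟩ := b3 z hz hx hvz
    have e3 : g' (pt t p z) ≠ 0 := by
      have h4 := hgm z hz ▸ d2
      exact right_ne_zero_of_mul h4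
    have e4 : ztv w (pt t p) z ≠ 0 := by
      rw [e2]
      exact mul_ne_zero (pow_ne_zero _ hx) d1
    have e5 : gt ι g' (pt t p z) ≠ 0 := mul_ne_zero (pow_ne_zero _ hx) e3
    have hJz : J (be t (pt t p z)) = J (p z) := by rw [hbe]
    have e6 : Jt t J (pt t p z) ≠ 0 := by
      refine mul_ne_zero hx ?_
      rw [hJz]
      exact d3
    refine ⟨hx, e4, e5, e6, ?_⟩
    have hxn : ‖(p z).1‖ ≠ 0 := norm_ne_zero_iff.2 hx
    have hg0 : ‖g' (pt t p z)‖ ≠ 0 := norm_ne_zero_iff.2 e3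
    have hxp : (pt t p z).1 = (p z).1 := rfl
    unfold LL gt Jt
    rw [hJz, e2, hgm z hz, hxp, norm_mul, norm_mul, norm_mul, norm_mul, norm_pow, norm_pow, norm_pow,
      Real.log_mul (pow_ne_zero _ hxn) hg0, Real.log_mul (pow_ne_zero _ hxn) (norm_ne_zero_iff.2 d1), Real.log_mul (pow_ne_zero _ hxn) hg0,
      Real.log_mul hxn (norm_ne_zero_iff.2 d3), Real.log_pow, Real.log_pow, Real.log_pow]
    ring

end Pool.Agent.MQ2

end
end

section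

/-!
# MQ2 StepD: the data of the curve in the chart of the blow-up
-/

set_option autoImplicit false

open Topology Filter Metric MeasureTheory Asymptotics Laplacian

noncomputable section

namespace Pool.Agent.MQ2

open Pool.Agent.H36.BP (EN)
open Pool.Agent.H30M (tau LogSing)
open Pool.Agent.MQ

/-- the data of the curve in the chart. -/
theorem dat_child {e ι m : ℕ} {t : ℂ} {v w : ℂ × ℂ → ℂ × ℂ} {g g' J : ℂ × ℂ → ℂ} (hv : Iso v) (hw : Child e ι t v w) (hg : Wt v g)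
    (hJ : AnalyticAt ℂ J 0) (hg' : AnalyticAt ℂ g' 0) (hm : ∀ᶠ p in 𝓝 (0 : ℂ × ℂ), g (be t p) = p.1 ^ m * g' p) :
    ∀ᶠ ρ in 𝓝[>] (0 : ℝ), ∀ (r B re : ℝ), ρ < r → ρ * (ρ + ‖t‖) < r → ρ < re → ρ * (ρ + ‖t‖) < re → 0 ≤ B →
      ∀ (d : ℕ) (q : ℂ × ℂ → ℂ) (ψ : ℂ × ℂ → ℝ) (M : ℕ) (F : ℂ → EN M) (Q : ℂ → ℂ) (lm l₁ : ℂ → ℝ) (Om : Set ℂ) (p : ℂ → ℂ × ℂ),
        Dat v g r B d q ψ F Q lm Om p → (∀ z ∈ Om, v (p z) ≠ 0 → g (p z) ≠ 0) → Continuous l₁ → (∀ z, lm z ≤ l₁ z) → EnB Om p re l₁ →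
        Dat w (gt ι g') ρ (B + (1 + (‖t‖ + ρ) ^ 2)) d (fun x => q (be t x)) (fun x => ψ (be t x)) F Q l₁ (Omt Om p t ρ) (pt t p) := by
  filter_upwards [rel_child hv hw hg hJ hg' hm, self_mem_nhdsWithin] with ρ hρ hρ0
  have hρ0' : 0 < ρ := hρ0
  intro r B re h1 h2 h3 h4 hB d q ψ M F Q lm l₁ Om p hD hgz hl₁ hll hE
  obtain ⟨hcrv, hrel⟩ := hρ r Om p hD.crv hD.p_ne hD.g_ne hgz h1 h2
  refine ⟨hcrv, fun z hz => (hrel z hz).2.2.2.2.1, fun z hz => (hrel z hz).2.2.2.2.2.1, hl₁, fun z => (hD.lm_nonneg z).trans (hll z), ?_,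
    hD.F_diff, hD.F_ne, fun z => (hD.lam_le z).trans (hll z), hD.Q_diff, hD.Q_ne, hD.Q_le, ?_⟩
  · intro z hz
    obtain ⟨hbe, -, hsl, hsl2, -⟩ := hrel z hz
    obtain ⟨hzO, hS, hx, hs⟩ := hz
    have hl₁0 : 0 ≤ l₁ z := (hD.lm_nonneg z).trans (hll z)
    have hpa : AnalyticAt ℂ p z := hD.crv.an z hzO
    have hpz : p z ∈ closedBall (0 : ℂ × ℂ) re := by
      rw [mem_closedBall_zero_iff, hbe, be, Prod.norm_def]
      have hs' : ‖(pt t p z).2‖ < ρ := hs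
      have hx' : ‖(pt t p z).1‖ < ρ := hx
      refine max_le (hx'.le.trans h3.le) ?_
      show ‖(pt t p z).1 * ((pt t p z).2 + t)‖ ≤ re
      rw [norm_mul]
      calc ‖(pt t p z).1‖ * ‖(pt t p z).2 + t‖ ≤ ρ * (ρ + ‖t‖) := by
            gcongr
            exact (norm_add_le _ _).trans (by gcongr)
        _ ≤ re := h4.le
    have h5 : ‖deriv (slope p) z‖ ≤ (1 + ‖slope p z‖ ^ 2) * l₁ z := (hE z hzO hpz).1 (slope p) hsl hsl2
    have h6 : ‖slope p z‖ ≤ ‖t‖ + ρ := by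
      have h7 : slope p z = (slope p z - t) + t := by ring
      rw [h7]
      refine (norm_add_le _ _).trans ?_
      linarith
    have h8 : ‖deriv (slope p) z‖ ≤ (1 + (‖t‖ + ρ) ^ 2) * l₁ z := h5.trans (by gcongr)
    have h9 : HasDerivAt (pt t p) ((deriv p z).1, deriv (slope p) z) z := by
      have h10 : HasDerivAt (fun w => (p w).1) (deriv p z).1 z := by
        have := hpa.differentiableAt.hasDerivAt
        exact (hasFDerivAt_fst (𝕜 := ℂ) (p := p z)).comp_hasDerivAt z this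
      exact h10.prodMk (hsl.differentiableAt.hasDerivAt.sub_const t)
    rw [h9.deriv, Prod.norm_def]
    have h11 : ‖(deriv p z).1‖ ≤ B * lm z := (norm_fst_le _).trans (hD.lm_ge z hzO)
    refine max_le ?_ ?_
    · calc ‖(deriv p z).1‖ ≤ B * lm z := h11
        _ ≤ B * l₁ z := by gcongr; exact hll z
        _ ≤ (B + (1 + (‖t‖ + ρ) ^ 2)) * l₁ z := by nlinarith [sq_nonneg (‖t‖ + ρ)]
    · calc ‖deriv (slope p) z‖ ≤ (1 + (‖t‖ + ρ) ^ 2) * l₁ z := h8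
        _ ≤ (B + (1 + (‖t‖ + ρ) ^ 2)) * l₁ z := by nlinarith
  · obtain ⟨c, hc, hQ⟩ := hD.Q_eq
    refine ⟨c, hc, fun z hz => ?_⟩
    have hbe := (hrel z hz).1
    have h5 := hQ z hz.1
    show ‖Q z‖ * Real.exp (d * ψ (be t (pt t p z))) = c * ‖q (be t (pt t p z))‖ * ‖F z‖ ^ d
    rw [← hbe]
    exact h5

end Pool.Agent.MQ2

end
end
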