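import Pool.Agent.H43.TL2.M37
import Pool.Agent.H43.TL2.M67
import Pool.Agent.H43.TL2.M72
import Pool.Agent.H43.TL2.M76

/-! The parts of this file: MQ3.ThA, MQ2.WtC. -/

section

/-!
# MQ3 ThA: two parametrizations of a surface near a common point
-/

set_option autoImplicit false

open Topology Filter

noncomputable section

namespace Pool.Agent.MQ3

open Pool.Agent.H36.BP (EN)
open Pool.Agent.H17BP (Surface IsChart IsForm)

variable {N : ℕ} {X : Set (EN N)}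

/-- an immersion into the surface, modulo the scaling -/
structure Imm (X : Set (EN N)) (ρ : ℂ × ℂ → EN N) (Q : ℂ × ℂ) : Prop where
  an : AnalyticAt ℂ ρ Q
  mem : ∀ᶠ q in 𝓝 Q, ρ q ∈ X
  inj : ∀ (w : ℂ × ℂ) (a : ℂ), fderiv ℂ ρ Q w = a • ρ Q → w = 0

theorem ne_coord {x : EN N} (hx : x ≠ 0) : ∃ j, x.ofLp j ≠ 0 := by
  by_contra hcon
  push Not at hcon
  exact hx (by ext j; exact hcon j)

theorem Imm.ne (hX : Surface X) {ρ : ℂ × ℂ → EN N} {Q : ℂ × ℂ} (h : Imm X ρ Q) : ρ Q ≠ 0 := fun h0 => hX.zero (h0 ▸ h.mem.self_of_nhds)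

theorem an_coord {E : Type*} [NormedAddCommGroup E] [NormedSpace ℂ E] {f : E → EN N} {x : E} (hf : AnalyticAt ℂ f x) (j : Fin (N + 1)) :
    AnalyticAt ℂ (fun y => (f y).ofLp j) x :=
  ((EuclideanSpace.proj (𝕜 := ℂ) j : EN N →L[ℂ] ℂ).analyticAt _).comp hf

/-- a pointwise scalar factor is analytic -/
theorem exists_scalar {E : Type*} [NormedAddCommGroup E] [NormedSpace ℂ E] {f g : E → EN N} {x : E} (hf : AnalyticAt ℂ f x) (hg : AnalyticAt ℂ g x) (h0 : g x ≠ 0)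
    (h : ∀ᶠ y in 𝓝 x, ∃ c : ℂ, c ≠ 0 ∧ f y = c • g y) : ∃ b : E → ℂ, AnalyticAt ℂ b x ∧ b x ≠ 0 ∧ ∀ᶠ y in 𝓝 x, f y = b y • g y := by
  obtain ⟨j, hj⟩ := ne_coord h0
  have hj' : ∀ᶠ y in 𝓝 x, (g y).ofLp j ≠ 0 := (an_coord hg j).continuousAt.eventually_ne hj
  have key : ∀ᶠ y in 𝓝 x, (f y).ofLp j / (g y).ofLp j ≠ 0 ∧ f y = ((f y).ofLp j / (g y).ofLp j) • g y := by
    filter_upwards [h, hj'] with y hy hy'
    obtain ⟨c, hc, hcy⟩ := hy
    have h1 : (f y).ofLp j = c * (g y).ofLp j := by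
      have := congrArg (fun v : EN N => v.ofLp j) hcy
      simpa using this
    rw [h1, mul_div_cancel_right₀ _ hy']
    exact ⟨hc, hcy⟩
  exact ⟨fun y => (f y).ofLp j / (g y).ofLp j, (an_coord hf j).div (an_coord hg j) hj, key.self_of_nhds.1, key.mono fun y hy => hy.2⟩

theorem jc_ne_of_inj {κ : ℂ × ℂ → ℂ × ℂ} {Q : ℂ × ℂ} (h : ∀ w, fderiv ℂ κ Q w = 0 → w = 0) : jc κ Q ≠ 0 := by
  intro h0
  rw [jc] at h0
  have h1 : fderiv ℂ κ Q ((fderiv ℂ κ Q (0, 1)).2, -(fderiv ℂ κ Q (1, 0)).2) = 0 := by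
    rw [split_vec]
    refine Prod.ext ?_ ?_
    · simp only [Prod.fst_add, Prod.smul_fst, smul_eq_mul, Prod.fst_zero]
      linear_combination h0
    · simp only [Prod.snd_add, Prod.smul_snd, smul_eq_mul, Prod.snd_zero]
      ring
  have h2 := h _ h1
  have e1 : (fderiv ℂ κ Q (0, 1)).2 = 0 := congrArg Prod.fst h2
  have e2 : (fderiv ℂ κ Q (1, 0)).2 = 0 := by
    have := congrArg Prod.snd h2
    simpa using this
  have h3 : fderiv ℂ κ Q ((fderiv ℂ κ Q (0, 1)).1, -(fderiv ℂ κ Q (1, 0)).1) = 0 := by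
    rw [split_vec]
    refine Prod.ext ?_ ?_
    · simp only [Prod.fst_add, Prod.smul_fst, smul_eq_mul, Prod.fst_zero]
      ring
    · simp only [Prod.snd_add, Prod.smul_snd, smul_eq_mul, Prod.snd_zero]
      rw [e1, e2]
      ring
  have h4 := h _ h3
  have e3 : (fderiv ℂ κ Q (0, 1)).1 = 0 := congrArg Prod.fst h4
  have h5 : fderiv ℂ κ Q (0, 1) = 0 := Prod.ext e3 e1
  have h6 := congrArg Prod.snd (h _ h5)
  exact one_ne_zero h6

/-- the coordinate map composed with an immersion -/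
theorem chart_imm {σ : ℂ × ℂ → EN N} {τ : EN N → ℂ × ℂ} (hσ : IsChart X σ τ) {ρ : ℂ × ℂ → EN N} {Q : ℂ × ℂ} (hρ : Imm X ρ Q) (h0 : ρ Q = σ 0) :
    AnalyticAt ℂ (fun q => τ (ρ q)) Q ∧ τ (ρ Q) = 0 ∧ (∀ᶠ q in 𝓝 Q, ∃ c : ℂ, c ≠ 0 ∧ ρ q = c • σ (τ (ρ q))) ∧
      ∀ w, fderiv ℂ (fun q => τ (ρ q)) Q w = 0 → w = 0 := by
  have hτ : AnalyticAt ℂ τ (ρ Q) := by rw [h0]; exact hσ.τ_an
  have hκ : AnalyticAt ℂ (fun q => τ (ρ q)) Q := AnalyticAt.fun_comp (g := τ) (f := ρ) hτ hρ.an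
  have hτ0 : τ (ρ Q) = 0 := by rw [h0]; exact hσ.left.self_of_nhds
  have hc : ∀ᶠ q in 𝓝 Q, ∃ c : ℂ, c ≠ 0 ∧ ρ q = c • σ (τ (ρ q)) := by
    have h1 : Tendsto ρ (𝓝 Q) (𝓝 (σ 0)) := by rw [← h0]; exact hρ.an.continuousAt
    filter_upwards [h1.eventually hσ.right, hρ.mem] with q h2 h3
    exact h2 h3
  refine ⟨hκ, hτ0, hc, ?_⟩
  have hσκ : AnalyticAt ℂ (fun q => σ (τ (ρ q))) Q := by
    have h1 : AnalyticAt ℂ σ (τ (ρ Q)) := by rw [hτ0]; exact hσ.σ_an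
    exact AnalyticAt.fun_comp (g := σ) (f := fun q => τ (ρ q)) h1 hκ
  obtain ⟨b, hb, hb0, hbe⟩ := exists_scalar hρ.an hσκ (by rw [hτ0]; exact hσ.ne) hc
  intro w hw
  have h1 : HasFDerivAt (fun q => b q • σ (τ (ρ q))) _ Q := hb.differentiableAt.hasFDerivAt.smul hσκ.differentiableAt.hasFDerivAt
  have h2 : fderiv ℂ ρ Q = fderiv ℂ (fun q => b q • σ (τ (ρ q))) Q := Filter.EventuallyEq.fderiv_eq hbe
  have h3 : fderiv ℂ (fun q => σ (τ (ρ q))) Q w = 0 := by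
    have h4 : HasFDerivAt (fun q => σ (τ (ρ q))) ((fderiv ℂ σ (τ (ρ Q))).comp (fderiv ℂ (fun q => τ (ρ q)) Q)) Q := by
      have h5 : AnalyticAt ℂ σ (τ (ρ Q)) := by rw [hτ0]; exact hσ.σ_an
      exact h5.differentiableAt.hasFDerivAt.comp Q hκ.differentiableAt.hasFDerivAt
    rw [h4.fderiv, ContinuousLinearMap.comp_apply, hw, map_zero]
  refine hρ.inj w (fderiv ℂ b Q w / b Q) ?_
  rw [h2, h1.fderiv]
  have h6 := hbe.self_of_nhds
  simp only [add_apply, smul_apply, ContinuousLinearMap.smulRight_apply, h3, smul_zero, zero_add]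
  conv_rhs => rw [h6]
  rw [smul_smul, div_mul_cancel₀ _ hb0]

/-- **The change of parametrization.** -/
theorem exists_trans (hX : Surface X) {ρ ρ' : ℂ × ℂ → EN N} {Q Q' : ℂ × ℂ} (hρ : Imm X ρ Q) (hρ' : Imm X ρ' Q') {c : ℂ} (hc : c ≠ 0)
    (h : ρ Q = c • ρ' Q') : ∃ (Ψ : ℂ × ℂ → ℂ × ℂ) (b : ℂ × ℂ → ℂ), AnalyticAt ℂ Ψ Q ∧ Ψ Q = Q' ∧ AnalyticAt ℂ b Q ∧ b Q ≠ 0 ∧
      (∀ᶠ q in 𝓝 Q, ρ q = b q • ρ' (Ψ q)) ∧ jc Ψ Q ≠ 0 ∧ (∀ w, fderiv ℂ Ψ Q w = 0 → w = 0) ∧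
      ∀ᶠ x in 𝓝 (Q, Q'), (∃ a : ℂ, a ≠ 0 ∧ ρ x.1 = a • ρ' x.2) → x.2 = Ψ x.1 := by
  obtain ⟨σ, τ, hσ, h0⟩ := hX.chart (ρ Q) hρ.mem.self_of_nhds
  have hρc : Imm X (fun q => c • ρ' q) Q' := by
    refine ⟨(analyticAt_const (v := c)).fun_smul hρ'.an, hρ'.mem.mono fun q hq => hX.smul _ hq c hc, ?_⟩
    intro w a hw
    have h1 : fderiv ℂ (fun q => c • ρ' q) Q' = c • fderiv ℂ ρ' Q' := (hρ'.an.differentiableAt.hasFDerivAt.const_smul c).fderiv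
    rw [h1, smul_apply, smul_comm a c] at hw
    exact hρ'.inj w a (smul_right_injective _ hc hw)
  obtain ⟨hk, hk0, hkc, hki⟩ := chart_imm hσ hρ h0.symm
  obtain ⟨hk', hk0', hkc', hki'⟩ := chart_imm hσ hρc (by rw [← h, h0])
  obtain ⟨ψ, hψ, hψl, hψr, hψ0⟩ := Pool.Agent.H62.BU.local_inverse hk' hki'
  have hkk : τ (c • ρ' Q') = τ (ρ Q) := by rw [hk0', hk0]
  rw [hkk] at hψ hψr hψ0
  have hΨ : AnalyticAt ℂ (fun q => ψ (τ (ρ q))) Q := AnalyticAt.fun_comp (g := ψ) (f := fun q => τ (ρ q)) hψ hk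
  have hΨ0 : ψ (τ (ρ Q)) = Q' := hψ0
  have hρ'Ψ : AnalyticAt ℂ (fun q => ρ' (ψ (τ (ρ q)))) Q := by
    have h1 : AnalyticAt ℂ ρ' (ψ (τ (ρ Q))) := by rw [hΨ0]; exact hρ'.an
    exact AnalyticAt.fun_comp (g := ρ') (f := fun q => ψ (τ (ρ q))) h1 hΨ
  have hex : ∀ᶠ q in 𝓝 Q, ∃ a : ℂ, a ≠ 0 ∧ ρ q = a • ρ' (ψ (τ (ρ q))) := by
    have h1 : Tendsto (fun q => ψ (τ (ρ q))) (𝓝 Q) (𝓝 Q') := by
      have := hΨ.continuousAt.tendsto
      rwa [hΨ0] at this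
    have h2 : Tendsto (fun q => τ (ρ q)) (𝓝 Q) (𝓝 (τ (ρ Q))) := hk.continuousAt
    filter_upwards [hkc, h1.eventually hkc', h2.eventually hψr] with q e1 e2 e3
    obtain ⟨c₁, hc₁, e1⟩ := e1
    obtain ⟨c₂, hc₂, e2⟩ := e2
    rw [e3] at e2
    refine ⟨c₁ / c₂ * c, mul_ne_zero (div_ne_zero hc₁ hc₂) hc, ?_⟩
    rw [mul_smul, e2, smul_smul, div_mul_cancel₀ _ hc₂]
    exact e1
  have hρ'0 : ρ' (ψ (τ (ρ Q))) ≠ 0 := by rw [hΨ0]; exact hρ'.ne hX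
  obtain ⟨b, hb, hb0, hbe⟩ := exists_scalar hρ.an hρ'Ψ hρ'0 hex
  have hinj : ∀ w, fderiv ℂ (fun q => ψ (τ (ρ q))) Q w = 0 → w = 0 := by
    intro w hw
    have h1 : HasFDerivAt (fun q => b q • ρ' (ψ (τ (ρ q)))) _ Q := hb.differentiableAt.hasFDerivAt.smul hρ'Ψ.differentiableAt.hasFDerivAt
    have h2 : fderiv ℂ ρ Q = fderiv ℂ (fun q => b q • ρ' (ψ (τ (ρ q)))) Q := Filter.EventuallyEq.fderiv_eq hbe
    have h3 : fderiv ℂ (fun q => ρ' (ψ (τ (ρ q)))) Q w = 0 := by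
      have h4 : HasFDerivAt (fun q => ρ' (ψ (τ (ρ q)))) ((fderiv ℂ ρ' (ψ (τ (ρ Q)))).comp (fderiv ℂ (fun q => ψ (τ (ρ q))) Q)) Q := by
        have h5 : AnalyticAt ℂ ρ' (ψ (τ (ρ Q))) := by rw [hΨ0]; exact hρ'.an
        exact h5.differentiableAt.hasFDerivAt.comp Q hΨ.differentiableAt.hasFDerivAt
      rw [h4.fderiv, ContinuousLinearMap.comp_apply, hw, map_zero]
    refine hρ.inj w (fderiv ℂ b Q w / b Q) ?_
    rw [h2, h1.fderiv]
    have h6 := hbe.self_of_nhds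
    simp only [add_apply, smul_apply, ContinuousLinearMap.smulRight_apply, h3, smul_zero, zero_add]
    conv_rhs => rw [h6]
    rw [smul_smul, div_mul_cancel₀ _ hb0]
  refine ⟨fun q => ψ (τ (ρ q)), b, hΨ, hΨ0, hb, hb0, hbe, jc_ne_of_inj hinj, hinj, ?_⟩
  -- uniqueness
  obtain ⟨j, hj⟩ := ne_coord (hρ'.ne hX)
  have hcoord : ContinuousAt (fun x : (ℂ × ℂ) × (ℂ × ℂ) => (ρ x.1).ofLp j / (ρ' x.2).ofLp j) (Q, Q') := by
    have h1 : ContinuousAt (fun x : (ℂ × ℂ) × (ℂ × ℂ) => (ρ x.1).ofLp j) (Q, Q') :=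
      ContinuousAt.comp (f := Prod.fst) (g := fun q => (ρ q).ofLp j) (an_coord hρ.an j).continuousAt continuousAt_fst
    have h2 : ContinuousAt (fun x : (ℂ × ℂ) × (ℂ × ℂ) => (ρ' x.2).ofLp j) (Q, Q') :=
      ContinuousAt.comp (f := Prod.snd) (g := fun q => (ρ' q).ofLp j) (an_coord hρ'.an j).continuousAt continuousAt_snd
    exact h1.div h2 hj
  have hval : (ρ Q).ofLp j / (ρ' Q').ofLp j = c := by
    rw [h]
    simp [hj]
  have hinv : ∀ᶠ x in 𝓝 (Q, Q'), τ (((ρ x.1).ofLp j / (ρ' x.2).ofLp j / c) • (c • ρ' x.2)) = τ (c • ρ' x.2) := by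
    have h1 : ContinuousAt (fun x : (ℂ × ℂ) × (ℂ × ℂ) => (c • ρ' x.2, (ρ x.1).ofLp j / (ρ' x.2).ofLp j / c)) (Q, Q') := by
      refine ContinuousAt.prodMk ?_ (hcoord.div continuousAt_const hc)
      exact ContinuousAt.comp (f := Prod.snd) (g := fun q => c • ρ' q) hρc.an.continuousAt continuousAt_snd
    have h2 : Tendsto (fun x : (ℂ × ℂ) × (ℂ × ℂ) => (c • ρ' x.2, (ρ x.1).ofLp j / (ρ' x.2).ofLp j / c)) (𝓝 (Q, Q')) (𝓝 (σ 0, (1 : ℂ))) := by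
      have h3 := h1.tendsto
      simp only [hval, div_self hc] at h3
      rwa [← h, ← h0] at h3
    exact h2.eventually hσ.inv
  have hρ'j : ∀ᶠ x in 𝓝 (Q, Q'), (ρ' x.2).ofLp j ≠ 0 :=
    (ContinuousAt.comp (f := Prod.snd) (g := fun q => (ρ' q).ofLp j) (an_coord hρ'.an j).continuousAt continuousAt_snd).eventually_ne hj
  have hψ' : ∀ᶠ x in 𝓝 (Q, Q'), ψ (τ (c • ρ' x.2)) = x.2 := (continuousAt_snd (p := (Q, Q'))).eventually hψl
  filter_upwards [hinv, hρ'j, hψ'] with x e1 e2 e3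
  rintro ⟨a, ha, hax⟩
  have h1 : (ρ x.1).ofLp j / (ρ' x.2).ofLp j = a := by
    rw [hax]
    simp [e2]
  rw [h1, smul_smul, div_mul_cancel₀ _ hc, ← hax] at e1
  rw [e1]
  exact e3.symm

end Pool.Agent.MQ3

end
end

section

/-!
# MQ2 WtC: the weight of the transform

`m` is the order of `g`, `g (x, x (y + t)) = x ^ m g'` (`MW.ord_blow`), `g' (0, y)` is a polynomial in `y` which is not `0`.  The equation
`x ^ (e + 1) w (g') = (x c - m x ^ e w₁) g'` shows that `x ^ (e + 1)` divides the factor, because `x` does not divide `g'`.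
-/

set_option autoImplicit false

open Topology Filter Metric Asymptotics

noncomputable section

namespace Pool.Agent.MQ2

open Pool.Agent.H17BP (exists_div_x)
open Pool.Agent.MQ

namespace WtC

open WtN

/-! ## the order of a germ -/

/-- a germ which vanishes of infinite order is zero -/
theorem flat {g : ℂ × ℂ → ℂ} (hg : AnalyticAt ℂ g 0) (h : ∀ n : ℕ, g =O[𝓝 0] fun x => ‖x‖ ^ n) : ∀ᶠ p in 𝓝 (0 : ℂ × ℂ), g p = 0 := by
  obtain ⟨p, hp⟩ := hg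
  have h1 : ∀ n, ∀ y : ℂ × ℂ, (p n fun _ => y) = 0 := by
    intro n
    induction n using Nat.strong_induction_on with
    | _ n ih =>
    intro y
    refine Asymptotics.IsBigO.continuousMultilinearMap_apply_eq_zero (p := p n) ?_ y
    have h2 := hp.isBigO_sub_partialSum_pow (n + 1)
    have h3 : (fun y : ℂ × ℂ => p n fun _ => y) = fun y => g y - (g (0 + y) - p.partialSum (n + 1) y) := by
      funext y
      rw [FormalMultilinearSeries.partialSum, Finset.sum_range_succ, Finset.sum_eq_zero fun k hk => ih k (Finset.mem_range.1 hk) y, zero_add, zero_add]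
      ring
    rw [h3]
    exact (h (n + 1)).sub h2
  obtain ⟨r, hr⟩ := hp
  filter_upwards [Metric.eball_mem_nhds (0 : ℂ × ℂ) hr.r_pos] with y hy
  have h2 := hr.hasSum hy
  simp only [h1, zero_add] at h2
  exact h2.unique hasSum_zero

/-- the order -/
theorem exists_ord {g : ℂ × ℂ → ℂ} (hg : AnalyticAt ℂ g 0) (h : ¬ ∀ᶠ p in 𝓝 (0 : ℂ × ℂ), g p = 0) :
    ∃ m : ℕ, (g =O[𝓝 0] fun x => ‖x‖ ^ m) ∧ ¬ g =O[𝓝 0] fun x => ‖x‖ ^ (m + 1) := by
  classical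
  have h1 : ∃ n : ℕ, ¬ g =O[𝓝 0] fun x => ‖x‖ ^ n := by
    by_contra hcon
    push Not at hcon
    exact h (flat hg hcon)
  obtain ⟨n, hn1, hn2⟩ : ∃ n : ℕ, (¬ g =O[𝓝 0] fun x => ‖x‖ ^ n) ∧ ∀ k < n, g =O[𝓝 0] fun x => ‖x‖ ^ k :=
    ⟨Nat.find h1, Nat.find_spec h1, fun k hk => not_not.1 (Nat.find_min h1 hk)⟩
  cases n with
  | zero =>
    exfalso
    apply hn1
    simp only [pow_zero]
    exact hg.continuousAt.norm.isBoundedUnder_le.isBigO_one ℝ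
  | succ n => exact ⟨n, hn2 n (Nat.lt_succ_self n), hn1⟩

/-- the initial form in the chart at a finite point -/
theorem hpol_zero {γ : ℕ → ℂ} {m : ℕ} {t : ℂ} (h : ∀ᶠ y in 𝓝 (0 : ℂ), MW.hpol γ m 1 (t + y) = 0) : ∀ j ≤ m, γ j = 0 := by
  obtain ⟨Q, hQ⟩ : ∃ Q : Polynomial ℂ, Q = ∑ j ∈ Finset.range (m + 1), Polynomial.C (γ j) * Polynomial.X ^ j := ⟨_, rfl⟩
  have h1 : ∀ y, Q.eval y = MW.hpol γ m 1 y := by
    intro y
    rw [hQ, MW.hpol, Polynomial.eval_finsetSum]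
    exact Finset.sum_congr rfl fun j _ => by simp
  have h2 : Q = 0 := by
    refine Polynomial.eq_zero_of_infinite_isRoot Q ?_
    have h3 : Set.Infinite {y : ℂ | MW.hpol γ m 1 (t + y) = 0} := by
      obtain ⟨ε, hε, h4⟩ := Metric.eventually_nhds_iff_ball.1 h
      exact (infinite_of_mem_nhds (0 : ℂ) (ball_mem_nhds _ hε)).mono fun y hy => h4 y hy
    have h5 : Set.Infinite ((fun y => t + y) '' {y : ℂ | MW.hpol γ m 1 (t + y) = 0}) := h3.image (add_right_injective t).injOn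
    refine h5.mono ?_
    rintro _ ⟨y, hy, rfl⟩
    show Q.IsRoot (t + y)
    rw [Polynomial.IsRoot, h1]
    exact hy
  intro j hj
  have h3 : Q.coeff j = γ j := by
    rw [hQ, Polynomial.finsetSum_coeff]
    simp only [Polynomial.coeff_C_mul, Polynomial.coeff_X_pow]
    rw [Finset.sum_eq_single j]
    · simp
    · intro b _ hb
      rw [if_neg (Ne.symm hb), mul_zero]
    · intro hj'
      exact absurd (Finset.mem_range.2 (Nat.lt_succ_of_le hj)) hj'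
  rw [← h3, h2, Polynomial.coeff_zero]

/-- the initial form in the chart at infinity -/
theorem hpol_zero' {γ : ℕ → ℂ} {m : ℕ} (h : ∀ᶠ y in 𝓝 (0 : ℂ), MW.hpol γ m y 1 = 0) : ∀ j ≤ m, γ j = 0 := by
  have h1 : ∀ᶠ y in 𝓝 (0 : ℂ), MW.hpol (fun j => γ (m - j)) m 1 (0 + y) = 0 := by
    filter_upwards [h] with y hy
    rw [zero_add, ← MW.hpol_swap, hy]
  intro j hj
  have h2 := hpol_zero h1 (m - j) (Nat.sub_le _ _)
  simpa [Nat.sub_sub_self hj] using h2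

/-! ## the chart -/

theorem be_an (t : ℂ) (p : ℂ × ℂ) : AnalyticAt ℂ (be t) p :=
  analyticAt_fst.prod (analyticAt_fst.mul (analyticAt_snd.add analyticAt_const))

theorem be_zero (t : ℂ) : be t 0 = 0 := by
  ext <;> simp [be]

theorem be_tend (t : ℂ) : Tendsto (be t) (𝓝 0) (𝓝 0) := by
  have h := (be_an t 0).continuousAt.tendsto
  rwa [be_zero] at h

theorem be_fderiv (t : ℂ) (p u : ℂ × ℂ) : fderiv ℂ (be t) p u = (u.1, p.1 * u.2 + (p.2 + t) * u.1) := by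
  have h1 : HasFDerivAt (fun p : ℂ × ℂ => p.1) (ContinuousLinearMap.fst ℂ ℂ ℂ) p := hasFDerivAt_fst
  have h2 : HasFDerivAt (fun p : ℂ × ℂ => p.2 + t) (ContinuousLinearMap.snd ℂ ℂ ℂ) p := hasFDerivAt_snd.add_const t
  have h3 := h1.prodMk (h1.mul h2)
  have h4 : fderiv ℂ (be t) p = _ := HasFDerivAt.fderiv h3
  rw [h4]
  ext <;> simp

/-- the zeros of `g'` on the exceptional line are isolated -/
theorem line_ne {G : ℂ × ℂ → ℂ} (hG : AnalyticAt ℂ G 0) (h0 : ¬ ∀ᶠ y in 𝓝 (0 : ℂ), G (0, y) = 0) : ∀ᶠ y in 𝓝[≠] (0 : ℂ), G (0, y) ≠ 0 :=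
  (line_an1 hG).eventually_eq_zero_or_eventually_ne_zero.resolve_left h0

theorem freq_pow (n : ℕ) (p : ℂ × ℂ) : ∃ᶠ q in 𝓝 p, q.1 ^ n ≠ 0 := (freq_fst p).mono fun _ hq => pow_ne_zero n hq

/-- `x ^ n w (g') = γ g'` and `x` does not divide `g'`: `x ^ n` divides `γ` -/
theorem cof_pow {A G γ : ℂ × ℂ → ℂ} (hA : AnalyticAt ℂ A 0) (hG : AnalyticAt ℂ G 0) (hγ : AnalyticAt ℂ γ 0) {n : ℕ}
    (h : ∀ᶠ p in 𝓝 (0 : ℂ × ℂ), p.1 ^ n * A p = γ p * G p) (h0 : ¬ ∀ᶠ y in 𝓝 (0 : ℂ), G (0, y) = 0) :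
    ∃ c : ℂ × ℂ → ℂ, AnalyticAt ℂ c 0 ∧ ∀ᶠ p in 𝓝 (0 : ℂ × ℂ), A p = c p * G p := by
  by_cases hz : ∀ᶠ p in 𝓝 (0 : ℂ × ℂ), γ p = 0
  · refine ⟨fun _ => 0, analyticAt_const, ?_⟩
    have h1 : ∀ᶠ p in 𝓝 (0 : ℂ × ℂ), p.1 ^ n * A p = 0 := by
      filter_upwards [h, hz] with p h2 h3
      rw [h2, h3, zero_mul]
    filter_upwards [zero_of_mul hA (freq_pow n) h1] with p hp
    rw [hp, zero_mul]
  · obtain ⟨a, γ', hγ', h1, h2⟩ := H22.HF.exists_div hγ hz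
    by_cases hae : n ≤ a
    · refine ⟨fun p => p.1 ^ (a - n) * γ' p, (analyticAt_fst.pow _).mul hγ', ?_⟩
      have h3 : ∀ᶠ p in 𝓝 (0 : ℂ × ℂ), p.1 ^ n * (A p - p.1 ^ (a - n) * γ' p * G p) = 0 := by
        filter_upwards [h, h1] with p h4 h5
        have h6 : p.1 ^ a = p.1 ^ n * p.1 ^ (a - n) := by rw [← pow_add, Nat.add_sub_cancel' hae]
        rw [h5, h6] at h4
        linear_combination h4
      filter_upwards [zero_of_mul (hA.sub (((analyticAt_fst.pow _).mul hγ').mul hG)) (freq_pow n) h3] with p hp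
      exact sub_eq_zero.1 hp
    · exfalso
      have h3 : ∀ᶠ p in 𝓝 (0 : ℂ × ℂ), p.1 ^ a * (p.1 ^ (n - a) * A p - γ' p * G p) = 0 := by
        filter_upwards [h, h1] with p h4 h5
        have h6 : p.1 ^ n = p.1 ^ a * p.1 ^ (n - a) := by rw [← pow_add, Nat.add_sub_cancel' (by omega)]
        rw [h5, h6] at h4
        linear_combination h4
      have h4 : ∀ᶠ p in 𝓝 (0 : ℂ × ℂ), p.1 ^ (n - a) * A p - γ' p * G p = 0 :=
        zero_of_mul (((analyticAt_fst.pow _).mul hA).sub (hγ'.mul hG)) (freq_pow a) h3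
      have h5 : ∀ᶠ y in 𝓝[≠] (0 : ℂ), False := by
        filter_upwards [line_ne hG h0, line_ne hγ' h2, (line_tendsto1.eventually h4).filter_mono nhdsWithin_le_nhds] with y h6 h7 h8
        have h9 : (((0, y) : ℂ × ℂ).1) ^ (n - a) = 0 := zero_pow (by omega)
        rw [h9, zero_mul, zero_sub, neg_eq_zero] at h8
        exact mul_ne_zero h7 h6 h8
      exact h5.exists.elim fun _ h => h

/-- the weight of the transform in a chart -/
theorem wt_chart {e ι m : ℕ} {t : ℂ} {v w : ℂ × ℂ → ℂ × ℂ} {g G : ℂ × ℂ → ℂ} (hg : Wt v g) (hw : Child e ι t v w) (hG : AnalyticAt ℂ G 0)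
    (hm : ∀ᶠ p in 𝓝 (0 : ℂ × ℂ), g (be t p) = p.1 ^ m * G p) (h0 : ¬ ∀ᶠ y in 𝓝 (0 : ℂ), G (0, y) = 0) : Wt w fun p => p.1 ^ ι * G p := by
  have hgt : ∀ᶠ p in 𝓝 (0 : ℂ × ℂ), AnalyticAt ℂ g (be t p) := (be_tend t).eventually hg.an.eventually_analyticAt
  -- the derivative of `g ∘ be`
  have hcomp : ∀ᶠ p in 𝓝 (0 : ℂ × ℂ), ∀ u, fderiv ℂ (fun q => g (be t q)) p u = fderiv ℂ g (be t p) (u.1, p.1 * u.2 + (p.2 + t) * u.1) := by
    filter_upwards [hgt] with p h1 u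
    have h2 : HasFDerivAt (fun q => g (be t q)) ((fderiv ℂ g (be t p)).comp (fderiv ℂ (be t) p)) p :=
      h1.differentiableAt.hasFDerivAt.comp p (be_an t p).differentiableAt.hasFDerivAt
    rw [h2.fderiv, ContinuousLinearMap.comp_apply, be_fderiv]
  have hmul : ∀ n : ℕ, ∀ᶠ p in 𝓝 (0 : ℂ × ℂ), ∀ u, fderiv ℂ (fun q : ℂ × ℂ => q.1 ^ n * G q) p u =
      p.1 ^ n * fderiv ℂ G p u + G p * (n * p.1 ^ (n - 1) * u.1) := by
    intro n
    filter_upwards [hG.eventually_analyticAt] with p h1 u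
    have h2 : HasFDerivAt (fun q : ℂ × ℂ => q.1 ^ n) ((n * p.1 ^ (n - 1)) • ContinuousLinearMap.fst ℂ ℂ ℂ) p := by
      have h3 : HasFDerivAt (fun q : ℂ × ℂ => q.1) (ContinuousLinearMap.fst ℂ ℂ ℂ) p := hasFDerivAt_fst
      have h4 := (hasDerivAt_pow n p.1).comp_hasFDerivAt p h3
      exact h4
    have h3 : HasFDerivAt (fun q : ℂ × ℂ => q.1 ^ n * G q) _ p := h2.mul h1.differentiableAt.hasFDerivAt
    rw [h3.fderiv]
    simp
  have hcm : ∀ᶠ p in 𝓝 (0 : ℂ × ℂ), ∀ u, fderiv ℂ (fun q => g (be t q)) p u = p.1 ^ m * fderiv ℂ G p u + G p * (m * p.1 ^ (m - 1) * u.1) := by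
    filter_upwards [hmul m, eventually_eventually_nhds.2 hm] with p h1 h2 u
    have h3 : (fun q => g (be t q)) =ᶠ[𝓝 p] fun q => q.1 ^ m * G q := h2
    rw [h3.fderiv_eq, h1]
  -- the cofactor of `G`
  obtain ⟨c, hc, hcof⟩ := hg.cof
  have hw1 : AnalyticAt ℂ (fun p => (w p).1) 0 := analyticAt_fst.comp hw.an
  have hcb : AnalyticAt ℂ (fun p => c (be t p)) 0 := AnalyticAt.comp (g := c) (f := be t) (by rw [be_zero]; exact hc) (be_an t 0)
  have hDv : AnalyticAt ℂ (fun p => fderiv ℂ G p (w p)) 0 := analyticAt_Dv hw.an hG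
  have hγ : AnalyticAt ℂ (fun p : ℂ × ℂ => p.1 * c (be t p) - m * p.1 ^ e * (w p).1) 0 :=
    (analyticAt_fst.mul hcb).sub ((analyticAt_const.mul (analyticAt_fst.pow _)).mul hw1)
  have hrel : ∀ᶠ p in 𝓝 (0 : ℂ × ℂ), p.1 ^ m * (p.1 ^ (e + 1) * fderiv ℂ G p (w p) - (p.1 * c (be t p) - m * p.1 ^ e * (w p).1) * G p) = 0 := by
    filter_upwards [hcomp, hcm, (be_tend t).eventually hcof, hw.fst, hw.snd, hm] with p h1 h2 h3 h4 h5 h6
    have h7 : v (be t p) = p.1 ^ e • ((w p).1, p.1 * (w p).2 + (p.2 + t) * (w p).1) := by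
      ext
      · rw [h4]
        simp
      · rw [h5, h4]
        simp
        ring
    have h8 : p.1 ^ e * fderiv ℂ (fun q => g (be t q)) p (w p) = c (be t p) * (p.1 ^ m * G p) := by
      rw [h1, ← h6, ← h3, h7, map_smul, smul_eq_mul]
    rw [h2] at h8
    have h9 : p.1 * ((m : ℂ) * p.1 ^ (m - 1)) = m * p.1 ^ m := by
      cases m with
      | zero => simp
      | succ m =>
        rw [Nat.add_sub_cancel, pow_succ]
        ring
    linear_combination p.1 * h8 - p.1 ^ e * G p * (w p).1 * h9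
  have hrel' := zero_of_mul (((analyticAt_fst.pow _).mul hDv).sub (hγ.mul hG)) (freq_pow m) hrel
  obtain ⟨c', hc', hcG⟩ := cof_pow (A := fun p => fderiv ℂ G p (w p)) (n := e + 1) hDv hG hγ (by
    filter_upwards [hrel'] with p hp
    exact sub_eq_zero.1 hp) h0
  refine ⟨(analyticAt_fst.pow _).mul hG, ?_, ?_, ?_⟩
  · intro hcon
    have h1 : ∀ᶠ p in 𝓝 (0 : ℂ × ℂ), p.1 ^ ι * G p = 0 := by
      filter_upwards [hcon] with p hp
      exact not_not.1 hp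
    exact h0 (line_tendsto1.eventually (zero_of_mul hG (freq_pow ι) h1))
  · rcases hw.inv with ⟨rfl, h1⟩ | ⟨rfl, -⟩
    · obtain ⟨w₁, hw₁, h2⟩ := exists_div_x hw1 h1
      refine ⟨fun p => w₁ p + c' p, hw₁.add hc', ?_⟩
      filter_upwards [hmul 1, hcG, h2] with p h3 h4 h5
      rw [h3, h4, h5]
      simp
      ring
    · refine ⟨c', hc', ?_⟩
      filter_upwards [hmul 0, hcG] with p h3 h4
      rw [h3, h4]
      simp
  · have hsnd : ∀ᶠ p in 𝓝 (0 : ℂ × ℂ), p.2 ≠ 0 → G (0, p.2) ≠ 0 := by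
      have h1 := eventually_nhdsWithin_iff.1 (line_ne hG h0)
      exact (continuous_snd (X := ℂ) (Y := ℂ)).tendsto' (0 : ℂ × ℂ) (0 : ℂ) rfl |>.eventually h1
    filter_upwards [hmul ι, hcomp, hcm, hm, hsnd, (be_tend t).eventually hg.red] with p h1 h2 h3 h4 h5 h6 hp0 hz hd
    by_cases hx : p.1 = 0
    · have hy : p.2 ≠ 0 := fun hy => hp0 (Prod.ext hx hy)
      have hp : p = (0, p.2) := Prod.ext hx rfl
      have hGp : G p ≠ 0 := by rw [hp]; exact h5 hy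
      rcases hw.inv with ⟨rfl, -⟩ | ⟨rfl, -⟩
      · have h7 := h1 (1, 0)
        rw [hd, hx] at h7
        simp at h7
        exact hGp h7.symm
      · rw [pow_zero, one_mul] at hz
        exact hGp hz
    · have hGp : G p = 0 := (mul_eq_zero.1 hz).resolve_left (pow_ne_zero _ hx)
      have hbe : be t p ≠ 0 := fun h7 => hx (congrArg Prod.fst h7)
      have hgz : g (be t p) = 0 := by rw [h4, hGp, mul_zero]
      refine h6 hbe hgz ?_
      have hdG : ∀ u, fderiv ℂ G p u = 0 := by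
        intro u
        have h7 := h1 u
        rw [hd, hGp, zero_mul, add_zero] at h7
        exact (mul_eq_zero.1 h7.symm).resolve_left (pow_ne_zero _ hx)
      refine ContinuousLinearMap.ext fun z => ?_
      have h7 := h2 (z.1, (z.2 - (p.2 + t) * z.1) / p.1)
      rw [h3, hdG, hGp, mul_zero, zero_mul, add_zero] at h7
      have h8 : ((z.1, p.1 * ((z.2 - (p.2 + t) * z.1) / p.1) + (p.2 + t) * z.1) : ℂ × ℂ) = z := by
        refine Prod.ext rfl ?_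
        show p.1 * ((z.2 - (p.2 + t) * z.1) / p.1) + (p.2 + t) * z.1 = z.2
        rw [mul_div_cancel₀ _ hx]
        ring
      simp only [h8] at h7
      rw [← h7]
      rfl

end WtC

open WtC in
/-- MODULE WtC -/
theorem wt_child {v : ℂ × ℂ → ℂ × ℂ} {g : ℂ × ℂ → ℂ} (hv : AnalyticAt ℂ v 0) (hg : Wt v g) : ∃ m : ℕ,
    (∀ (e ι : ℕ) (t : ℂ) (w : ℂ × ℂ → ℂ × ℂ), Child e ι t v w → ∃ g' : ℂ × ℂ → ℂ, AnalyticAt ℂ g' 0 ∧
      (∀ᶠ p in 𝓝 (0 : ℂ × ℂ), g (be t p) = p.1 ^ m * g' p) ∧ Wt w fun p => p.1 ^ ι * g' p) ∧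
    ∀ (e ι : ℕ) (w : ℂ × ℂ → ℂ × ℂ), Child e ι 0 (swv v) w → ∃ g' : ℂ × ℂ → ℂ, AnalyticAt ℂ g' 0 ∧
      (∀ᶠ p in 𝓝 (0 : ℂ × ℂ), g (be 0 p).swap = p.1 ^ m * g' p) ∧ Wt w fun p => p.1 ^ ι * g' p := by
  have _ := hv
  have hne : ¬ ∀ᶠ p in 𝓝 (0 : ℂ × ℂ), g p = 0 := fun h => hg.ne (h.mono fun p hp => not_not.2 hp)
  obtain ⟨m, hO, hn⟩ := exists_ord hg.an hne
  obtain ⟨γ, h1, ⟨k, hk, hk1, hk2⟩, h3⟩ := MW.ord_blow hg.an hO
  refine ⟨m, fun e ι t w hw => ?_, fun e ι w hw => ?_⟩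
  · obtain ⟨h, hh, he, hh0⟩ := h1 t
    have he' : ∀ᶠ p in 𝓝 (0 : ℂ × ℂ), g (be t p) = p.1 ^ m * h p := by
      filter_upwards [he] with p hp
      rw [← hp]
      simp only [be, H17BP.bl, add_comm]
    refine ⟨h, hh, he', wt_chart hg hw hh he' fun h0 => hn (h3 (hpol_zero (t := t) ?_))⟩
    filter_upwards [h0, hh0] with y h4 h5
    rw [← h5, h4]
  · have hsw : Tendsto (fun q : ℂ × ℂ => q.swap) (𝓝 0) (𝓝 0) := tendsto_swap0
    have hks : AnalyticAt ℂ (fun p : ℂ × ℂ => k p.swap) 0 := AnalyticAt.comp (g := k) (f := fun q : ℂ × ℂ => q.swap) hk (an_swap 0)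
    have he' : ∀ᶠ p in 𝓝 (0 : ℂ × ℂ), g (be 0 p).swap = p.1 ^ m * k p.swap := by
      filter_upwards [hsw.eventually hk1] with p hp
      have h4 : (be 0 p).swap = H17BP.blInf p.swap := by
        simp only [be, H17BP.blInf, Prod.swap_prod_mk, Prod.fst_swap, Prod.snd_swap, add_zero]
        rw [mul_comm]
      rw [h4, hp]
      rfl
    refine ⟨fun p => k p.swap, hks, he', wt_chart (Wt.swap hg) hw hks he' fun h0 => hn (h3 (hpol_zero' ?_))⟩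
    filter_upwards [h0, hk2] with y h4 h5
    rw [← h5]
    exact h4

end Pool.Agent.MQ2

end
end
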