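import Pool.Agent.H43.TL2.M57
import Pool.Agent.H43.TL2.M70
import Pool.Agent.H43.TL2.M91
import Pool.Agent.H43.TL2.M92
import Pool.Agent.H43.TL2.MQ2.Energy_1

/-! The parts of this file: MQ2.StepS_1, MQ2.StepF, MQ2.Step. -/

section

/-!
# MQ2 StepS: the package of a direction
-/

set_option autoImplicit false

open Topology Filter Metric MeasureTheory Asymptotics Laplacian

noncomputable section

namespace Pool.Agent.MQ2

open Pool.Agent.H36.BP (EN)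
open Pool.Agent.H30M (tau LogSing)
open Pool.Agent.MQ

variable {e ι m : ℕ} {t : ℂ} {v w : ℂ × ℂ → ℂ × ℂ} {g g' J : ℂ × ℂ → ℂ}

theorem dirP_sing {P : (ℂ × ℂ → ℂ) → (ℂ × ℂ → ℂ) → Prop} (hv : Iso v)
    (hw : Child e ι t v w) (hg : Wt v g) (hJ : AnalyticAt ℂ J 0) (hg' : AnalyticAt ℂ g' 0)
    (hm : ∀ᶠ p in 𝓝 (0 : ℂ × ℂ), g (be t p) = p.1 ^ m * g' p) (hP : P g J) {r re : ℝ} (hr : 0 < r) (hre : 0 < re)
    (hgr : ∀ (Om : Set ℂ) (p : ℂ → ℂ × ℂ), Crv1 v r Om p → (∀ z ∈ Om, ∃ᶠ w in 𝓝 z, g (p w) ≠ 0) → ∀ z ∈ Om, v (p z) ≠ 0 → g (p z) ≠ 0)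
    (hwt : Wt w (gt ι g')) {k : ℕ} {c : Fin k → ℕ → ℂ → ℂ × ℂ} (hG : ∀ g J : ℂ × ℂ → ℂ, TP ι t P g J → Wt w g → AnalyticAt ℂ J 0 →
      ∀ᶠ r in 𝓝[>] (0 : ℝ), ∀ s, 0 < s → s < r → ∀ B, 0 ≤ B → ∃ A C₀ : ℝ, 0 ≤ A ∧ 0 ≤ C₀ ∧
      ∀ (d n : ℕ) (q : ℂ × ℂ → ℂ) (ψ : ℂ × ℂ → ℝ), 1 ≤ d → 1 ≤ n → AnalyticAt ℂ q 0 → ContDiffAt ℝ 1 ψ 0 → (∀ i, FZero (c i) g ∨ HasOrd (c i) q n) →
        ∀ (M : ℕ) (F : ℂ → EN M) (Q : ℂ → ℂ) (lm : ℂ → ℝ) (Om : Set ℂ) (p : ℂ → ℂ × ℂ), Dat w g r B d q ψ F Q lm Om p →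
          LocX w g J Om p lm s A (C₀ * d / n)) :
    ∀ᶠ ρ in 𝓝[>] (0 : ℝ), ∀ σ, 0 < σ → σ < ρ → ∀ B, 0 ≤ B → ∃ A C₀ : ℝ, 0 ≤ A ∧ 0 ≤ C₀ ∧
      DirP v g J ((e : ℝ) + 1 + ι - m) r (fun n q => ∀ i, FZero (c i) (gt ι g') ∨ HasOrd (c i) (fun x => q (be t x)) n) re B A C₀
        (fun Om p => Omt Om p t ρ) (Kt t ρ σ) := by
  have hTP : TP ι t P (gt ι g') (Jt t J) :=
    ⟨g, J, m, g', hP, hg.an, hJ, hg', hm, Eventually.of_forall fun _ => rfl, Eventually.of_forall fun _ => rfl⟩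
  have hJt : AnalyticAt ℂ (Jt t J) 0 := analyticAt_fst.mul (an_comp_be hJ t)
  filter_upwards [rel_child hv hw hg hJ hg' hm, dat_child hv hw hg hJ hg' hm, hG _ _ hTP hwt hJt, ev_small t hr, ev_small t hre,
    DD_bound hw.an hw.iso hwt, self_mem_nhdsWithin] with ρ h1 h2 h3 h4 h5 h6 h7 σ hσ hσρ B hB
  have hρ : 0 < ρ := h7
  set B' : ℝ := B + (1 + (‖t‖ + ρ) ^ 2) with hB'
  have hB'0 : 0 ≤ B' := by positivity
  obtain ⟨A, C₀, hA, hC₀, h8⟩ := h3 σ hσ hσρ B' hB'0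
  refine ⟨A, C₀, hA, hC₀, ?_⟩
  intro d n q ψ hd hn hq hψ hCon M F Q lm Om p hDat ell hell l₁ hl₁ hle hEn
  have hgne := hgr Om p hDat.crv hDat.g_ne
  obtain ⟨hcw, hrel⟩ := h1 r Om p hDat.crv hDat.p_ne hDat.g_ne hgne h4.1 h4.2
  have hdat := h2 r B re h4.1 h4.2 h5.1 h5.2 hB d q ψ M F Q lm l₁ Om p hDat hgne hl₁ hle hEn
  obtain ⟨C, l, η, Φ, err, hC, hlc, hll, hlE, hη, herr, hΦ, hout, hin, hineq, hup, hint⟩ :=
    h8 d n _ _ hd hn (an_comp_be hq t) (cd_comp_be hψ t) hCon M F Q l₁ _ _ hdat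
  obtain ⟨C2, hC2, h9⟩ := h6 σ (Or.inl hσ)
  have h9' := h9 _ _ hcw hdat.g_ne
  have hl₁0 : ∀ z, 0 ≤ l₁ z := fun z => (hDat.lm_nonneg z).trans (hle z)
  have hl0 : ∀ z, 0 ≤ l z := fun z => (hl₁0 z).trans (hll z)
  have hus := us_child (t := t) (ρ := ρ) hDat.crv hdat.lm_ge
  have hO : IsOpen (Omt Om p t ρ) := hcw.isOpen
  set N : ℝ := (e : ℝ) + 1 + ι - m with hN
  have hlog : 0 ≤ Real.log (1 + (‖t‖ + ρ) ^ 2) := Real.log_nonneg (by nlinarith [sq_nonneg (‖t‖ + ρ)])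
  set Cf : ℝ := C + C2 * B' + B' + |N| * Real.log (1 + (‖t‖ + ρ) ^ 2) with hCf
  have hN0 : 0 ≤ |N| * Real.log (1 + (‖t‖ + ρ) ^ 2) := mul_nonneg (abs_nonneg _) hlog
  have hCB : 0 ≤ C2 * B' := mul_nonneg hC2.le hB'0
  have hCf1 : C ≤ Cf := by rw [hCf]; linarith
  have hCf2 : C2 * B' ≤ Cf := by rw [hCf]; linarith
  have hCf3 : B' ≤ Cf := by rw [hCf]; linarith
  have hCf4 : |N| * Real.log (1 + (‖t‖ + ρ) ^ 2) ≤ Cf := by rw [hCf]; linarith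
  have hCf0 : 0 ≤ Cf := hC.trans hCf1
  refine ⟨Cf, l, η, DDv w (gt ι g') (pt t p), fun z => (p z).1, Φ, err, us p, hCf0, hlc, hll, fun R hR => (hlE R hR).trans (by linarith), ?_, ?_⟩
  · refine {
      op := hO
      cl := hcw.closed σ hσρ
      η_cd := fun z hz => hη.contDiffAt (hO.mem_nhds hz)
      err_c := fun z hz => (herr z hz).continuousAt (hO.mem_nhds hz)
      Φ_ls := hΦ
      out := fun z hz hK => hout z hz fun hb => hK ⟨hz, ball_subset_closedBall hb⟩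
      bd := ?_
      ineq := hineq
      X_an := fun z hz => an_fst (hDat.crv.an z hz.1)
      X_ne := fun z hz => ?_
      X_V := fun z hz hV => ((hrel z hz).2.2.2.2.2.2.2 hV).1
      D_eq := ?_
      ell_eq := ?_
      u_cd := fun z hz => (hus z hz).1
      u_gr := fun z hz => ?_
      u_bd := fun z hz => ?_
      up := ?_ }
    · intro z hz
      by_cases hb : pt t p z ∈ ball (0 : ℂ × ℂ) σ
      · exact (hin z hz hb).trans (mul_le_mul_of_nonneg_right hCf1 (hl0 z))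
      · rw [(hout z hz hb).1, RCLike.norm_conj]
        refine ((h9' z hz hb).2).trans ?_
        have a1 : C2 * ‖deriv (pt t p) z‖ ≤ C2 * (B' * l₁ z) := mul_le_mul_of_nonneg_left (hdat.lm_ge z hz) hC2.le
        have a2 : C2 * (B' * l₁ z) ≤ C2 * B' * l z := by
          rw [← mul_assoc]
          exact mul_le_mul_of_nonneg_left (hll z) hCB
        exact a1.trans (a2.trans (mul_le_mul_of_nonneg_right hCf2 (hl0 z)))
    · exact (frequently_of_punctured (hrel z hz).2.1)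
    · intro z hz hX
      rw [(hrel z hz).2.2.2.2.2.2.1 hX, hN]
      push_cast
      ring
    · intro z hz hX
      have h10 := (hus z hz).2.2.2.2 hX
      rw [← h10]
      refine hell z hz.1 (fun h => hX (by rw [h]; rfl)) ?_
      exact mem_ball_re (hrel z hz).1 hz h5.1 h5.2
    · have a1 := (hus z hz).2.1
      have a2 : B' * l₁ z ≤ Cf * l z := mul_le_mul hCf3 (hll z) (hl₁0 z) hCf0
      exact a1.trans a2
    · have a1 := (hus z hz).2.2.1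
      have a2 := (hus z hz).2.2.2.1
      calc N * us p z ≤ |N| * us p z := mul_le_mul_of_nonneg_right (le_abs_self N) a1
        _ ≤ |N| * Real.log (1 + (‖t‖ + ρ) ^ 2) := mul_le_mul_of_nonneg_left a2 (abs_nonneg _)
        _ ≤ Cf := hCf4
    · intro z hz hV hΦz
      obtain ⟨b1, b2, b3, b4, b5⟩ := (hrel z hz).2.2.2.2.2.2.2 hV
      have b6 := hup z hz hΦz b2 b3 b4
      rw [b5]
      unfold LL
      linarith
  · intro R hR
    refine (hint R hR).trans ?_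
    have a1 : 0 ≤ ∫ z, ‖gr (tau R) z‖ * l z := integral_nonneg fun z => mul_nonneg (norm_nonneg _) (hl0 z)
    have a2 : C * (∫ z, ‖gr (tau R) z‖ * l z) ≤ Cf * ∫ z, ‖gr (tau R) z‖ * l z := mul_le_mul_of_nonneg_right hCf1 a1
    linarith

theorem dirP_reg (hv : Iso v)
    (hw : Child e ι t v w) (hg : Wt v g) (hJ : AnalyticAt ℂ J 0) (hg' : AnalyticAt ℂ g' 0)
    (hm : ∀ᶠ p in 𝓝 (0 : ℂ × ℂ), g (be t p) = p.1 ^ m * g' p) {r re : ℝ} (hr : 0 < r) (hre : 0 < re)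
    (hgr : ∀ (Om : Set ℂ) (p : ℂ → ℂ × ℂ), Crv1 v r Om p → (∀ z ∈ Om, ∃ᶠ w in 𝓝 z, g (p w) ≠ 0) → ∀ z ∈ Om, v (p z) ≠ 0 → g (p z) ≠ 0)
    (hwt : Wt w (gt ι g')) (hw0 : w 0 ≠ 0) :
    ∀ᶠ ρ in 𝓝[>] (0 : ℝ), ∀ B, 0 ≤ B → ∃ A : ℝ, 0 ≤ A ∧ ∀ Con,
      DirP v g J ((e : ℝ) + 1 + ι - m) r Con re B A 0 (fun Om p => Omt Om p t ρ) fun _ _ => ∅ := by
  have hJt : AnalyticAt ℂ (Jt t J) 0 := analyticAt_fst.mul (an_comp_be hJ t)
  have hwne : ∀ᶠ ρ in 𝓝[>] (0 : ℝ), ∀ q ∈ ball (0 : ℂ × ℂ) ρ, w q ≠ 0 := by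
    obtain ⟨ε, hε, h2⟩ := Metric.eventually_nhds_iff_ball.1 (hw.an.continuousAt.eventually_ne hw0)
    filter_upwards [mem_nhdsWithin_of_mem_nhds (Iio_mem_nhds hε)] with ρ hρ q hq
    exact h2 q (ball_subset_ball (Set.mem_Iio.1 hρ).le hq)
  have hcof := DD_cof hw.an hw.iso hwt
  filter_upwards [rel_child hv hw hg hJ hg' hm, dat_child hv hw hg hJ hg' hm, hcof, ev_small t hr, ev_small t hre,
    DD_bound hw.an hw.iso hwt, self_mem_nhdsWithin, hwne, ev_bdd hwt.an, ev_bdd hJt] with ρ h1 h2 h3 h4 h5 h6 h7 hwn hbg hbJ B hB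
  have hρ : 0 < ρ := h7
  set B' : ℝ := B + (1 + (‖t‖ + ρ) ^ 2) with hB'
  have hB'0 : 0 ≤ B' := by positivity
  refine ⟨1, zero_le_one, ?_⟩
  intro Con d n q ψ hd hn hq hψ hCon M F Q lm Om p hDat ell hell l₁ hl₁ hle hEn
  have hgne := hgr Om p hDat.crv hDat.g_ne
  obtain ⟨hcw, hrel⟩ := h1 r Om p hDat.crv hDat.p_ne hDat.g_ne hgne h4.1 h4.2
  have hdat := h2 r B re h4.1 h4.2 h5.1 h5.2 hB d q ψ M F Q lm l₁ Om p hDat hgne hl₁ hle hEn
  obtain ⟨C2, hC2, h9⟩ := h6 0 (Or.inr hw0)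
  have h9' := fun z hz => h9 _ _ hcw hdat.g_ne z hz (by rw [ball_zero]; exact Set.notMem_empty _)
  obtain ⟨hh, hhan, h10⟩ := h3
  have h10' := fun z hz => h10 _ _ hcw hdat.g_ne z hz (hwn _ (hcw.mem z hz))
  have hl₁0 : ∀ z, 0 ≤ l₁ z := fun z => (hDat.lm_nonneg z).trans (hle z)
  have hus := us_child (t := t) (ρ := ρ) hDat.crv hdat.lm_ge
  have hO : IsOpen (Omt Om p t ρ) := hcw.isOpen
  have hDan : ∀ z ∈ Omt Om p t ρ, AnalyticAt ℂ (DDv w (gt ι g') (pt t p)) z := fun z hz => by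
    obtain ⟨-, a1, a2⟩ := h10' z hz
    have a3 : AnalyticAt ℂ (fun x => hh (pt t p x) * ztv w (pt t p) x) z :=
      (AnalyticAt.comp (g := hh) (f := pt t p) (hhan _ (ball_subset_closedBall (hcw.mem z hz))) (hcw.an z hz)).mul a1
    exact a3.congr (a2.mono fun x hx => hx.symm)
  set N : ℝ := (e : ℝ) + 1 + ι - m with hN
  have hlog : 0 ≤ Real.log (1 + (‖t‖ + ρ) ^ 2) := Real.log_nonneg (by nlinarith [sq_nonneg (‖t‖ + ρ)])
  have hCB : 0 ≤ C2 * B' := mul_nonneg hC2.le hB'0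
  have hlogK : 0 ≤ Real.log (1 + C2 * B') := Real.log_nonneg (by linarith)
  have hN0 : 0 ≤ |N| * Real.log (1 + (‖t‖ + ρ) ^ 2) := mul_nonneg (abs_nonneg _) hlog
  have hg0 : 0 ≤ ‖gt ι g' 0‖ + 1 := by positivity
  have hJ0 : 0 ≤ ‖Jt t J 0‖ + 1 := by positivity
  set Cf : ℝ := C2 * B' + B' + |N| * Real.log (1 + (‖t‖ + ρ) ^ 2) + (Real.log (1 + C2 * B') + (‖gt ι g' 0‖ + 1) + (‖Jt t J 0‖ + 1)) with hCf
  have hCf2 : C2 * B' ≤ Cf := by rw [hCf]; linarith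
  have hCf3 : B' ≤ Cf := by rw [hCf]; linarith
  have hCf4 : |N| * Real.log (1 + (‖t‖ + ρ) ^ 2) ≤ Cf := by rw [hCf]; linarith
  have hCf5 : Real.log (1 + C2 * B') + (‖gt ι g' 0‖ + 1) + (‖Jt t J 0‖ + 1) ≤ Cf := by rw [hCf]; linarith
  have hCf0 : 0 ≤ Cf := hCB.trans hCf2
  refine ⟨Cf, l₁, fun z => (starRingEnd ℂ) (DDv w (gt ι g') (pt t p) z), DDv w (gt ι g') (pt t p), fun z => (p z).1, fun _ => 0, fun _ => 0, us p, hCf0,
    hl₁, fun z => le_rfl, fun R hR => by linarith, ?_, ?_⟩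
  · refine {
      op := hO
      cl := isClosed_empty
      η_cd := fun z hz => contDiffAt_conj_holo (hDan z hz)
      err_c := fun z hz => continuousAt_const
      Φ_ls := fun z hz => ⟨0, LogSing.of_contDiffAt contDiffAt_const⟩
      out := fun z hz hK => ⟨rfl, rfl, rfl⟩
      bd := ?_
      ineq := ?_
      X_an := fun z hz => an_fst (hDat.crv.an z hz.1)
      X_ne := fun z hz => frequently_of_punctured (hrel z hz).2.1
      X_V := fun z hz hV => ((hrel z hz).2.2.2.2.2.2.2 hV).1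
      D_eq := ?_
      ell_eq := ?_
      u_cd := fun z hz => (hus z hz).1
      u_gr := fun z hz => ?_
      u_bd := fun z hz => ?_
      up := ?_ }
    · intro z hz
      rw [RCLike.norm_conj]
      refine ((h9' z hz).2).trans ?_
      have a1 : C2 * ‖deriv (pt t p) z‖ ≤ C2 * (B' * l₁ z) := mul_le_mul_of_nonneg_left (hdat.lm_ge z hz) hC2.le
      rw [← mul_assoc] at a1
      exact a1.trans (mul_le_mul_of_nonneg_right hCf2 (hl₁0 z))
    · intro z hz _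
      rw [dv_conj (hDan z hz).differentiableAt]
      have a1 : Δ (fun _ : ℂ => (0 : ℝ)) z = 0 := by
        rw [← lp_eq_lap contDiffAt_const]
        have : gr (fun _ : ℂ => (0 : ℝ)) = fun _ => 0 := funext fun z => gr_const 0 z
        show dv (gr fun _ : ℂ => (0 : ℝ)) z = 0
        rw [this, dv_const]
      rw [a1]
      norm_num
    · intro z hz hX
      rw [(hrel z hz).2.2.2.2.2.2.1 hX, hN]
      push_cast
      ring
    · intro z hz hX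
      have h10 := (hus z hz).2.2.2.2 hX
      rw [← h10]
      exact hell z hz.1 (fun h => hX (by rw [h]; rfl)) (mem_ball_re (hrel z hz).1 hz h5.1 h5.2)
    · have a1 := (hus z hz).2.1
      exact a1.trans (mul_le_mul_of_nonneg_right hCf3 (hl₁0 z))
    · have a1 := (hus z hz).2.2.1
      have a2 := (hus z hz).2.2.2.1
      calc N * us p z ≤ |N| * us p z := mul_le_mul_of_nonneg_right (le_abs_self N) a1
        _ ≤ |N| * Real.log (1 + (‖t‖ + ρ) ^ 2) := mul_le_mul_of_nonneg_left a2 (abs_nonneg _)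
        _ ≤ Cf := hCf4
    · intro z hz hV _
      obtain ⟨b1, b2, b3, b4, b5⟩ := (hrel z hz).2.2.2.2.2.2.2 hV
      rw [b5]
      unfold LL
      have c1 : ‖ztv w (pt t p) z‖ ≤ C2 * B' * l₁ z := by
        refine ((h9' z hz).1).trans ?_
        rw [mul_assoc]
        exact mul_le_mul_of_nonneg_left (hdat.lm_ge z hz) hC2.le
      have c2 := log_le_of_bound b2 (hl₁0 z) hCB c1
      have c3 := log_norm_le (hbg _ (hcw.mem z hz))
      have c4 := log_norm_le (hbJ _ (hcw.mem z hz))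
      linarith
  · intro R hR
    have a1 : 0 ≤ ∫ z, ‖gr (tau R) z‖ * l₁ z := integral_nonneg fun z => mul_nonneg (norm_nonneg _) (hl₁0 z)
    have a2 := mul_nonneg hCf0 a1
    simp only [mul_zero, integral_zero, zero_mul, zero_div, zero_add]
    linarith

end Pool.Agent.MQ2

end
end

section

/-!
# MQ2 StepF: from the charts to `LocX`
-/

set_option autoImplicit false

open Topology Filter Metric MeasureTheory Asymptotics Laplacian

noncomputable section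

namespace Pool.Agent.MQ2

open Pool.Agent.H36.BP (EN)
open Pool.Agent.H30M (tau LogSing)
open Pool.Agent.MQ

/-- the conclusion of the package of a chart, for a curve -/
def DirC (v : ℂ × ℂ → ℂ × ℂ) (g J : ℂ × ℂ → ℂ) (N : ℝ) (H : ℂ × ℂ → ℝ) (Om : Set ℂ) (p : ℂ → ℂ × ℂ) (A δ : ℝ) (O K : Set ℂ) (l₁ : ℂ → ℝ) : Prop :=
  ∃ (C : ℝ) (l : ℂ → ℝ) (η D X : ℂ → ℂ) (Φ err u : ℂ → ℝ), 0 ≤ C ∧ Continuous l ∧ (∀ z, l₁ z ≤ l z) ∧
    (∀ R, 1 ≤ R → ∫ z, tau R z * l z ^ 2 ≤ A * (∫ z, tau R z * l₁ z ^ 2) + C) ∧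
    Cht (DDv v g p) (fun z => H (p z)) (LL v g J p) (VV v g J Om p) N l C O K η D X Φ err u ∧
    ∀ R, 1 ≤ R → ∫ z in O, tau R z * err z ≤ δ * (∫ z, tau R z * l₁ z ^ 2) + C * (∫ z, ‖gr (tau R) z‖ * l z) + C

theorem integrable_tau_mul {R : ℝ} (hR : 1 ≤ R) {f : ℂ → ℝ} (hf : Continuous f) : Integrable fun z => tau R z * f z :=
  ((Pool.Agent.H30M.contDiff_tau R).continuous.mul hf).integrable_of_hasCompactSupport (Pool.Agent.H30M.hcs_tau hR).mul_right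

theorem integrable_gr_mul {R : ℝ} (hR : 1 ≤ R) {f : ℂ → ℝ} (hf : Continuous f) : Integrable fun z => ‖gr (tau R) z‖ * f z := by
  have h1 : Continuous (gr (tau R)) := continuous_gr ((Pool.Agent.H30M.contDiff_tau R).of_le (by norm_num))
  exact (h1.norm.mul hf).integrable_of_hasCompactSupport ((hasCompactSupport_gr (Pool.Agent.H30M.hcs_tau hR)).norm.mul_right)

theorem locX_of_charts {ι : Type} [Fintype ι] {v : ℂ × ℂ → ℂ × ℂ} {g J : ℂ × ℂ → ℂ} {N s te ρb A₁ K₁ Cb : ℝ} {H : ℂ × ℂ → ℝ}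
    (hte : te < s) (hH0 : ∀ p : ℂ × ℂ, p ∉ ball (0 : ℂ × ℂ) te → H p = 0) (hρb : ρb < s) {A δ : ι → ℝ} (hA : ∀ i, 0 ≤ A i) (hδ : ∀ i, 0 ≤ δ i)
    {Om : Set ℂ} {p : ℂ → ℂ × ℂ} (hp : ∀ z ∈ Om, AnalyticAt ℂ p z) {O K : ι → Set ℂ} {lm l₁ : ℂ → ℝ} (hlm : ∀ z, 0 ≤ lm z) (hle : ∀ z, lm z ≤ l₁ z)
    (hl₁ : Continuous l₁)
    (hE : ∀ R, 1 ≤ R → ∫ z, tau R z * l₁ z ^ 2 ≤ A₁ * (∫ z, tau R z * lm z ^ 2) + K₁) (hCb : 0 ≤ Cb)
    (hbase : Cht (DDv v g p) (fun z => H (p z)) (LL v g J p) (VV v g J Om p) N l₁ Cb {z | z ∈ Om ∧ p z ∉ closedBall (0 : ℂ × ℂ) ρb} ∅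
          (fun z => (starRingEnd ℂ) (DDv v g p z)) (DDv v g p) (fun _ => 1) (fun _ => 0) (fun _ => 0) fun z => H (p z))
    (hKO : ∀ i, K i ⊆ O i) (hsub : ∀ i, O i ⊆ Om) (hcov : ∀ z ∈ Om, p z ∈ closedBall (0 : ℂ × ℂ) ρb → ∃ i, z ∈ O i)
    (hdisb : ∀ i, ∀ z ∈ K i, p z ∈ closedBall (0 : ℂ × ℂ) ρb) (hdis : ∀ i j, i ≠ j → ∀ z ∈ K i, z ∉ O j)
    (hdir : ∀ i, DirC v g J N H Om p (A i) (δ i) (O i) (K i) l₁) :
    LocX v g J Om p lm s ((Fintype.card ι + 1) * (1 + ∑ i, A i) * A₁) ((∑ i, δ i) * A₁) := by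
  classical
  choose C l η D X Φ err u h1 h2 h3 h4 h5 h6 using hdir
  have hl₁0 : ∀ z, 0 ≤ l₁ z := fun z => (hlm z).trans (hle z)
  have hl0 : ∀ i z, 0 ≤ l i z := fun i z => (hl₁0 z).trans (h3 i z)
  set lt : ℂ → ℝ := fun z => l₁ z + ∑ i, l i z with hlt
  set Ct : ℝ := Cb + ∑ i, C i with hCt
  have hsum0 : 0 ≤ ∑ i, C i := Finset.sum_nonneg fun i _ => h1 i
  have hCt0 : 0 ≤ Ct := add_nonneg hCb hsum0
  have hlc : ∀ i z, l i z ≤ lt z := fun i z => by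
    have a1 : l i z ≤ ∑ i, l i z := Finset.single_le_sum (fun j _ => hl0 j z) (Finset.mem_univ i)
    have := hl₁0 z
    rw [hlt]
    dsimp only
    linarith
  have hlb : ∀ z, l₁ z ≤ lt z := fun z => by
    have a1 : 0 ≤ ∑ i, l i z := Finset.sum_nonneg fun j _ => hl0 j z
    rw [hlt]
    dsimp only
    linarith
  have hlt0 : ∀ z, 0 ≤ lt z := fun z => (hl₁0 z).trans (hlb z)
  have hCi : ∀ i, C i ≤ Ct := fun i => by
    have a1 : C i ≤ ∑ i, C i := Finset.single_le_sum (fun j _ => h1 j) (Finset.mem_univ i)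
    linarith
  have hltc : Continuous lt := hl₁.add (continuous_finsetSum _ fun i _ => h2 i)
  -- the charts
  let OO : Option ι → Set ℂ := fun i => i.elim {z | z ∈ Om ∧ p z ∉ closedBall (0 : ℂ × ℂ) ρb} O
  let KK : Option ι → Set ℂ := fun i => i.elim ∅ K
  let ηη : Option ι → ℂ → ℂ := fun i => i.elim (fun z => (starRingEnd ℂ) (DDv v g p z)) η
  let DD' : Option ι → ℂ → ℂ := fun i => i.elim (DDv v g p) D
  let XX : Option ι → ℂ → ℂ := fun i => i.elim (fun _ => 1) X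
  let ΦΦ : Option ι → ℂ → ℝ := fun i => i.elim (fun _ => 0) Φ
  let ee : Option ι → ℂ → ℝ := fun i => i.elim (fun _ => 0) err
  let uu : Option ι → ℂ → ℝ := fun i => i.elim (fun z => H (p z)) u
  have hch : ∀ i, Cht (DDv v g p) (fun z => H (p z)) (LL v g J p) (VV v g J Om p) N lt Ct (OO i) (KK i) (ηη i) (DD' i) (XX i) (ΦΦ i) (ee i) (uu i) := by
    rintro (_ | i)
    · exact hbase.mono hlb hl₁0 (by rw [hCt]; linarith) hCb
    · exact (h5 i).mono (hlc i) (hl0 i) (hCi i) (h1 i)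
  have hKO' : ∀ i, KK i ⊆ OO i := by
    rintro (_ | i)
    · exact Set.empty_subset _
    · exact hKO i
  have hsub' : ∀ i, OO i ⊆ Om := by
    rintro (_ | i)
    · exact fun z hz => hz.1
    · exact hsub i
  have hcov' : ∀ z ∈ Om, ∃ i, z ∈ OO i := by
    intro z hz
    by_cases hb : p z ∈ closedBall (0 : ℂ × ℂ) ρb
    · obtain ⟨i, hi⟩ := hcov z hz hb
      exact ⟨some i, hi⟩
    · exact ⟨none, hz, hb⟩
  have hdis' : ∀ i j, i ≠ j → ∀ z ∈ KK i, z ∉ OO j := by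
    rintro (_ | i) (_ | j) hij z hz
    · exact absurd rfl hij
    · exact hz.elim
    · exact fun h => h.2 (hdisb i z hz)
    · exact hdis i j (fun h => hij (by rw [h])) z hz
  obtain ⟨η', Φ', err', g1, g2, g3, g4, g5, g6, g7, g8⟩ := glue hch hKO' hsub' hcov' hdis'
  -- the constants
  set cE : ℝ := (Fintype.card ι + 1) * ((1 + ∑ i, A i) * |K₁| + ∑ i, C i) with hcE
  set cI : ℝ := (∑ i, δ i) * |K₁| + ∑ i, C i with hcI
  have hsA : 0 ≤ ∑ i, A i := Finset.sum_nonneg fun i _ => hA i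
  have hsδ : 0 ≤ ∑ i, δ i := Finset.sum_nonneg fun i _ => hδ i
  have hcE0 : 0 ≤ cE := by positivity
  have hcI0 : 0 ≤ cI := by positivity
  have hN0 : 0 ≤ |N| * Ct := mul_nonneg (abs_nonneg _) hCt0
  set Cf : ℝ := (Ct + |N| * Ct) + 2 * Ct + cE + cI with hCf
  have f1 : Ct + |N| * Ct ≤ Cf := by rw [hCf]; linarith
  have f2 : 2 * Ct ≤ Cf := by rw [hCf]; linarith
  have f3 : cE ≤ Cf := by rw [hCf]; linarith
  have f4 : cI ≤ Cf := by rw [hCf]; linarith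
  have f5 : ∑ i, C i ≤ Cf := by rw [hCf]; linarith
  have hCf0 : 0 ≤ Cf := hcE0.trans f3
  refine ⟨Cf, lt, η', Φ', err', hCf0, hltc, fun z => (hle z).trans (hlb z), ?_, fun z hz => (g1 z hz).contDiffWithinAt,
    fun z hz => (g2 z hz).continuousWithinAt, g3, ?_, ?_, g6, ?_, ?_⟩
  · intro R hR
    have a1 : ∀ z, lt z ^ 2 ≤ (Fintype.card ι + 1) * (l₁ z ^ 2 + ∑ i, l i z ^ 2) := by
      intro z
      have b1 := sq_sum_le_card_mul_sum_sq (s := (Finset.univ : Finset (Option ι))) (f := fun i => i.elim (l₁ z) fun i => l i z)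
      rw [Fintype.sum_option, Fintype.sum_option, Finset.card_univ, Fintype.card_option] at b1
      simp only [Option.elim] at b1
      push_cast at b1
      exact b1
    have a2 : ∫ z, tau R z * lt z ^ 2 ≤ ∫ z, tau R z * ((Fintype.card ι + 1) * (l₁ z ^ 2 + ∑ i, l i z ^ 2)) := by
      refine integral_mono (integrable_tau_mul hR (hltc.pow 2)) (integrable_tau_mul hR ?_) fun z => ?_
      · exact continuous_const.mul ((hl₁.pow 2).add (continuous_finsetSum _ fun i _ => (h2 i).pow 2))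
      · exact mul_le_mul_of_nonneg_left (a1 z) (Pool.Agent.H30M.tau_nonneg hR z)
    have a3 : ∫ z, tau R z * ((Fintype.card ι + 1) * (l₁ z ^ 2 + ∑ i, l i z ^ 2)) =
        (Fintype.card ι + 1) * ((∫ z, tau R z * l₁ z ^ 2) + ∑ i, ∫ z, tau R z * l i z ^ 2) := by
      have b1 : ∀ z, tau R z * (((Fintype.card ι : ℝ) + 1) * (l₁ z ^ 2 + ∑ i, l i z ^ 2)) =
          ((Fintype.card ι : ℝ) + 1) * (tau R z * l₁ z ^ 2 + ∑ i, tau R z * l i z ^ 2) := fun z => by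
        rw [← Finset.mul_sum]
        ring
      simp only [b1]
      have i1 : Integrable fun z => tau R z * l₁ z ^ 2 := integrable_tau_mul hR (hl₁.pow 2)
      have i2 : ∀ i ∈ (Finset.univ : Finset ι), Integrable fun z => tau R z * l i z ^ 2 := fun i _ => integrable_tau_mul hR ((h2 i).pow 2)
      rw [integral_const_mul, integral_add i1 (integrable_finsetSum _ i2), integral_finsetSum _ i2]
    have a4 : ∑ i, ∫ z, tau R z * l i z ^ 2 ≤ ∑ i, (A i * (∫ z, tau R z * l₁ z ^ 2) + C i) := Finset.sum_le_sum fun i _ => h4 i R hR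
    rw [Finset.sum_add_distrib, ← Finset.sum_mul] at a4
    have a5 := hE R hR
    have a6 : (0 : ℝ) ≤ Fintype.card ι + 1 := by positivity
    have a7 : K₁ ≤ |K₁| := le_abs_self _
    have a8 : (1 + ∑ i, A i) * (∫ z, tau R z * l₁ z ^ 2) ≤ (1 + ∑ i, A i) * (A₁ * (∫ z, tau R z * lm z ^ 2) + |K₁|) :=
      mul_le_mul_of_nonneg_left (by linarith) (by linarith)
    calc ∫ z, tau R z * lt z ^ 2 ≤ _ := a2
      _ = _ := a3
      _ ≤ (Fintype.card ι + 1) * ((1 + ∑ i, A i) * (∫ z, tau R z * l₁ z ^ 2) + ∑ i, C i) := mul_le_mul_of_nonneg_left (by linarith) a6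
      _ ≤ (Fintype.card ι + 1) * ((1 + ∑ i, A i) * (A₁ * (∫ z, tau R z * lm z ^ 2) + |K₁|) + ∑ i, C i) :=
        mul_le_mul_of_nonneg_left (by linarith) a6
      _ = (Fintype.card ι + 1) * (1 + ∑ i, A i) * A₁ * (∫ z, tau R z * lm z ^ 2) + cE := by rw [hcE]; ring
      _ ≤ _ := by linarith
  · intro z hz hb
    have hb' : p z ∉ closedBall (0 : ℂ × ℂ) ρb := fun h => hb (closedBall_subset_ball hρb h)
    obtain ⟨b1, b2, b3⟩ := g4 none z ⟨hz, hb'⟩ (Set.notMem_empty z) one_ne_zero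
    have e1 : (fun w => H (p w)) =ᶠ[𝓝 z] fun _ => 0 := by
      have c1 : p z ∉ closedBall (0 : ℂ × ℂ) te := fun h => hb (closedBall_subset_ball hte h)
      filter_upwards [(hp z hz).continuousAt.eventually (isClosed_closedBall.isOpen_compl.mem_nhds c1)] with w hw
      exact hH0 _ fun h => hw (ball_subset_closedBall h)
    have e2 : gr (fun w => H (p w)) z = 0 := by
      rw [gr_congr e1]
      exact gr_const 0 z
    rw [e2, mul_zero, sub_zero] at b1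
    have e3 : H (p z) = 0 := e1.self_of_nhds
    rw [e3, mul_zero] at b3
    exact ⟨b1, b2, b3⟩
  · intro z hz _
    exact (g5 z hz).trans (mul_le_mul_of_nonneg_right f1 (hlt0 z))
  · intro z hz hΦz c1 c2 c3
    have b1 := g7 z hz ⟨hz, c1, c2, c3⟩ hΦz
    unfold LL at b1
    linarith
  · intro R hR
    rw [g8 R hR, Fintype.sum_option]
    have b0 : ∫ z in OO none, tau R z * ee none z = 0 := by
      show ∫ z in OO none, tau R z * (0 : ℝ) = 0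
      simp
    rw [b0, zero_add]
    have b1 : ∀ i, ∫ z, ‖gr (tau R) z‖ * l i z ≤ ∫ z, ‖gr (tau R) z‖ * lt z := fun i =>
      integral_mono (integrable_gr_mul hR (h2 i)) (integrable_gr_mul hR hltc) fun z => mul_le_mul_of_nonneg_left (hlc i z) (norm_nonneg _)
    have b2 : ∑ i, ∫ z in OO (some i), tau R z * ee (some i) z ≤
        ∑ i, (δ i * (∫ z, tau R z * l₁ z ^ 2) + C i * (∫ z, ‖gr (tau R) z‖ * lt z) + C i) := by
      refine Finset.sum_le_sum fun i _ => ?_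
      have c1 : C i * (∫ z, ‖gr (tau R) z‖ * l i z) ≤ C i * (∫ z, ‖gr (tau R) z‖ * lt z) := mul_le_mul_of_nonneg_left (b1 i) (h1 i)
      have c2 := h6 i R hR
      exact c2.trans (by linarith)
    refine b2.trans ?_
    rw [Finset.sum_add_distrib, Finset.sum_add_distrib, ← Finset.sum_mul, ← Finset.sum_mul]
    have b3 : 0 ≤ ∫ z, ‖gr (tau R) z‖ * lt z := integral_nonneg fun z => mul_nonneg (norm_nonneg _) (hlt0 z)
    have b4 : (∑ i, C i) * (∫ z, ‖gr (tau R) z‖ * lt z) ≤ Cf * (∫ z, ‖gr (tau R) z‖ * lt z) := mul_le_mul_of_nonneg_right f5 b3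
    have b5 : (∑ i, δ i) * (∫ z, tau R z * l₁ z ^ 2) ≤ (∑ i, δ i) * (A₁ * (∫ z, tau R z * lm z ^ 2) + |K₁|) :=
      mul_le_mul_of_nonneg_left ((hE R hR).trans (by linarith [le_abs_self K₁])) hsδ
    have b6 : (∑ i, δ i) * (A₁ * (∫ z, tau R z * lm z ^ 2) + |K₁|) + ∑ i, C i = (∑ i, δ i) * A₁ * (∫ z, tau R z * lm z ^ 2) + cI := by
      rw [hcI]
      ring
    linarith

end Pool.Agent.MQ2

end
end

section

/-!
# MQ2 Step: the blow-up step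
-/

set_option autoImplicit false

open Topology Filter Metric MeasureTheory Asymptotics Laplacian

noncomputable section

namespace Pool.Agent.MQ2

open Pool.Agent.H36.BP (EN)
open Pool.Agent.H30M (tau LogSing)
open Pool.Agent.MQ

/-! ## slopes -/

/-- the two slopes are inverse to each other -/
theorem slope_mul {p : ℂ → ℂ × ℂ} {z : ℂ} (hp : AnalyticAt ℂ p z) (h : HasSlope p z) (h' : HasSlope (fun w => (p w).swap) z) :
    slope p z * slope (fun w => (p w).swap) z = 1 := by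
  have hs : AnalyticAt ℂ (fun w => (p w).swap) z := (an_snd hp).prod (an_fst hp)
  have h1 := h.eq hp
  have h2 := h'.eq hs
  have h3 : ∀ᶠ w in 𝓝[≠] z, slope p w * slope (fun w => (p w).swap) w = 1 := by
    filter_upwards [ne_of_frequently (an_fst hp) h.1, h1.filter_mono nhdsWithin_le_nhds, h2.filter_mono nhdsWithin_le_nhds] with w a1 a2 a3
    simp only [Prod.snd_swap, Prod.fst_swap] at a3
    have a4 : (p w).1 * (slope p w * slope (fun w => (p w).swap) w) = (p w).1 * 1 := by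
      rw [← mul_assoc, ← a2, ← a3, mul_one]
    exact mul_left_cancel₀ a1 a4
  have h4 : Tendsto (fun w => slope p w * slope (fun w => (p w).swap) w) (𝓝[≠] z) (𝓝 (slope p z * slope (fun w => (p w).swap) z)) :=
    (((h.an hp).mul (h'.an hs)).continuousAt.tendsto).mono_left nhdsWithin_le_nhds
  exact tendsto_nhds_unique (h4.congr' h3) tendsto_const_nhds

/-- the package of a direction, both cases -/
theorem dirP_all {P : (ℂ × ℂ → ℂ) → (ℂ × ℂ → ℂ) → Prop} {e ι m : ℕ} {t : ℂ} {v w : ℂ × ℂ → ℂ × ℂ} {g g' J : ℂ × ℂ → ℂ} (hv : Iso v)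
    (hw : Child e ι t v w) (hg : Wt v g) (hJ : AnalyticAt ℂ J 0) (hg' : AnalyticAt ℂ g' 0)
    (hm : ∀ᶠ p in 𝓝 (0 : ℂ × ℂ), g (be t p) = p.1 ^ m * g' p) (hP : P g J) {r re : ℝ} (hr : 0 < r) (hre : 0 < re)
    (hgr : ∀ (Om : Set ℂ) (p : ℂ → ℂ × ℂ), Crv1 v r Om p → (∀ z ∈ Om, ∃ᶠ w in 𝓝 z, g (p w) ≠ 0) → ∀ z ∈ Om, v (p z) ≠ 0 → g (p z) ≠ 0)
    (hwt : Wt w (gt ι g')) {k : ℕ} {c : Fin k → ℕ → ℂ → ℂ × ℂ} (hG : w 0 = 0 → ∀ g J : ℂ × ℂ → ℂ, TP ι t P g J → Wt w g → AnalyticAt ℂ J 0 →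
      ∀ᶠ r in 𝓝[>] (0 : ℝ), ∀ s, 0 < s → s < r → ∀ B, 0 ≤ B → ∃ A C₀ : ℝ, 0 ≤ A ∧ 0 ≤ C₀ ∧
      ∀ (d n : ℕ) (q : ℂ × ℂ → ℂ) (ψ : ℂ × ℂ → ℝ), 1 ≤ d → 1 ≤ n → AnalyticAt ℂ q 0 → ContDiffAt ℝ 1 ψ 0 → (∀ i, FZero (c i) g ∨ HasOrd (c i) q n) →
        ∀ (M : ℕ) (F : ℂ → EN M) (Q : ℂ → ℂ) (lm : ℂ → ℝ) (Om : Set ℂ) (p : ℂ → ℂ × ℂ), Dat w g r B d q ψ F Q lm Om p →
          LocX w g J Om p lm s A (C₀ * d / n)) :
    ∀ᶠ ρ in 𝓝[>] (0 : ℝ), ∀ σ, 0 < σ → σ < ρ → ∀ B, 0 ≤ B → ∃ A C₀ : ℝ, 0 ≤ A ∧ 0 ≤ C₀ ∧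
      DirP v g J ((e : ℝ) + 1 + ι - m) r (fun n q => ∀ i, FZero (c i) (gt ι g') ∨ HasOrd (c i) (fun x => q (be t x)) n) re B A C₀
        (fun Om p => Omt Om p t ρ) (fun Om p => {z | w 0 = 0 ∧ z ∈ Kt t ρ σ Om p}) := by
  by_cases h0 : w 0 = 0
  · have e1 : ∀ ρ σ, (fun Om p => {z | w 0 = 0 ∧ z ∈ Kt t ρ σ Om p}) = Kt t ρ σ := fun ρ σ => by
      funext Om p
      ext z
      simp [h0]
    filter_upwards [dirP_sing hv hw hg hJ hg' hm hP hr hre hgr hwt (hG h0)] with ρ h σ hσ hσρ B hB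
    obtain ⟨A, C₀, hA, hC₀, h1⟩ := h σ hσ hσρ B hB
    refine ⟨A, C₀, hA, hC₀, ?_⟩
    rw [e1]
    exact h1
  · have e1 : ∀ ρ σ, (fun Om p => {z | w 0 = 0 ∧ z ∈ Kt t ρ σ Om p}) = fun _ _ => ∅ := fun ρ σ => by
      funext Om p
      ext z
      simp [h0]
    filter_upwards [dirP_reg hv hw hg hJ hg' hm hr hre hgr hwt h0] with ρ h σ hσ hσρ B hB
    obtain ⟨A, hA, h1⟩ := h B hB
    refine ⟨A, 0, hA, le_rfl, ?_⟩
    rw [e1]
    exact h1 _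

/-! ## the families of separatrices -/

/-- the data of a direction: the families, empty at a regular direction -/
theorem exists_fam {P : (ℂ × ℂ → ℂ) → (ℂ × ℂ → ℂ) → Prop} {w : ℂ × ℂ → ℂ × ℂ} (h : w 0 = 0 → Good P w) :
    ∃ (m : ℕ) (c : Fin m → ℕ → ℂ → ℂ × ℂ), (∀ i, Sep w (c i)) ∧ (w 0 ≠ 0 → m = 0) ∧ (w 0 = 0 →
      ∀ g J : ℂ × ℂ → ℂ, P g J → Wt w g → AnalyticAt ℂ J 0 → ∀ᶠ r in 𝓝[>] (0 : ℝ), ∀ s, 0 < s → s < r → ∀ B, 0 ≤ B → ∃ A C₀ : ℝ, 0 ≤ A ∧ 0 ≤ C₀ ∧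
      ∀ (d n : ℕ) (q : ℂ × ℂ → ℂ) (ψ : ℂ × ℂ → ℝ), 1 ≤ d → 1 ≤ n → AnalyticAt ℂ q 0 → ContDiffAt ℝ 1 ψ 0 → (∀ i, FZero (c i) g ∨ HasOrd (c i) q n) →
        ∀ (M : ℕ) (F : ℂ → EN M) (Q : ℂ → ℂ) (lm : ℂ → ℝ) (Om : Set ℂ) (p : ℂ → ℂ × ℂ), Dat w g r B d q ψ F Q lm Om p →
          LocX w g J Om p lm s A (C₀ * d / n)) := by
  by_cases h0 : w 0 = 0
  · obtain ⟨m, c, h1, h2⟩ := h h0
    exact ⟨m, c, h1, fun h3 => absurd h0 h3, fun _ => h2⟩
  · exact ⟨0, Fin.elim0, fun i => i.elim0, fun _ => rfl, fun h3 => absurd h3 h0⟩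

/-- the contact condition for the transform -/
theorem con_child {e ι m : ℕ} {t : ℂ} {v w : ℂ × ℂ → ℂ × ℂ} {g g' : ℂ × ℂ → ℂ} (hw : Child e ι t v w) (hg' : AnalyticAt ℂ g' 0)
    (hm : ∀ᶠ p in 𝓝 (0 : ℂ × ℂ), g (be t p) = p.1 ^ m * g' p) {c : ℕ → ℂ → ℂ × ℂ} (hc : Sep w c) {q : ℂ × ℂ → ℂ} {n : ℕ}
    (h : ¬ FZero c (fun p => p.1) → FZero (fun N z => be t (c N z)) g ∨ HasOrd (fun N z => be t (c N z)) q n) :
    FZero c (gt ι g') ∨ HasOrd c (fun x => q (be t x)) n := by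
  by_cases hx : FZero c (fun p => p.1)
  · exact Or.inl (sep_exc hw hc hx hg')
  · rcases h hx with h1 | h1
    · exact Or.inl (fzero_child hc hx hg' hm h1)
    · exact Or.inr h1

/-! ## the geometry of the charts -/

theorem norm_slope_le_of_mem {Om : Set ℂ} {p : ℂ → ℂ × ℂ} {t : ℂ} {ρ : ℝ} {z : ℂ} (hz : z ∈ Omt Om p t ρ) : ‖slope p z‖ < ‖t‖ + ρ := by
  have h1 := norm_add_le (slope p z - t) t
  rw [sub_add_cancel] at h1
  have := hz.2.2.2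
  linarith

theorem norm_slope_le_of_core {Om : Set ℂ} {p : ℂ → ℂ × ℂ} {t : ℂ} {ρ σ : ℝ} {z : ℂ} (hz : z ∈ Kt t ρ σ Om p) :
    ‖slope p z - t‖ ≤ σ ∧ ‖(p z).1‖ ≤ σ ∧ ‖slope p z‖ ≤ ‖t‖ + σ := by
  have h0 : ‖pt t p z‖ ≤ σ := by
    have := hz.2
    rwa [mem_closedBall_zero_iff] at this
  have h1 : ‖slope p z - t‖ ≤ σ := (norm_snd_le (pt t p z)).trans h0
  have h2 : ‖(p z).1‖ ≤ σ := (norm_fst_le (pt t p z)).trans h0
  refine ⟨h1, h2, ?_⟩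
  have h3 := norm_add_le (slope p z - t) t
  rw [sub_add_cancel] at h3
  linarith

theorem mem_ball_of_core {Om : Set ℂ} {p : ℂ → ℂ × ℂ} {t : ℂ} {ρ σ ρb : ℝ} {z : ℂ} (hp : AnalyticAt ℂ p z) (hz : z ∈ Kt t ρ σ Om p) (h0 : 0 ≤ σ)
    (h1 : σ ≤ ρb) (h2 : σ * (‖t‖ + σ) ≤ ρb) : p z ∈ closedBall (0 : ℂ × ℂ) ρb := by
  obtain ⟨a1, a2, a3⟩ := norm_slope_le_of_core hz
  have a4 : (p z).2 = (p z).1 * slope p z := (hz.1.2.1.eq hp).self_of_nhds
  rw [mem_closedBall_zero_iff, Prod.norm_def]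
  refine max_le (a2.trans h1) ?_
  rw [a4, norm_mul]
  exact (mul_le_mul a2 a3 (norm_nonneg _) h0).trans h2

/-- a finite condition on small radii -/
theorem exists_radius {P : ℝ → Prop} (h : ∀ᶠ ρ in 𝓝[>] (0 : ℝ), P ρ) : ∃ ρ, 0 < ρ ∧ P ρ := by
  obtain ⟨ρ, h1, h2⟩ := (h.and self_mem_nhdsWithin).exists
  exact ⟨ρ, h2, h1⟩

theorem ev_lt {a : ℝ} (ha : 0 < a) : ∀ᶠ ρ in 𝓝[>] (0 : ℝ), ρ < a := mem_nhdsWithin_of_mem_nhds (Iio_mem_nhds ha)

theorem ev_mul_lt {a b : ℝ} (ha : 0 < a) : ∀ᶠ ρ in 𝓝[>] (0 : ℝ), ρ * b < a := by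
  have h1 : Tendsto (fun ρ : ℝ => ρ * b) (𝓝[>] 0) (𝓝 0) := by
    have h3 : Tendsto (fun ρ : ℝ => ρ * b) (𝓝 0) (𝓝 (0 * b)) := by
      have : Continuous fun ρ : ℝ => ρ * b := by fun_prop
      exact this.tendsto 0
    rw [zero_mul] at h3
    exact h3.mono_left nhdsWithin_le_nhds
  exact h1.eventually (gt_mem_nhds ha)

/-! ## the step -/

theorem good_step {P : (ℂ × ℂ → ℂ) → (ℂ × ℂ → ℂ) → Prop} {v : ℂ × ℂ → ℂ × ℂ} (hv : Iso v) {e ι : ℕ} {w : ℂ → ℂ × ℂ → ℂ × ℂ} {wi : ℂ × ℂ → ℂ × ℂ}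
    (hw : ∀ t, Child e ι t v (w t)) (hwi : Child e ι 0 (swv v) wi) (hg : ∀ t, w t 0 = 0 → Good (TP ι t P) (w t))
    (hgi : wi 0 = 0 → Good (TP ι 0 (SP P)) wi) : Good P v := by
  classical
  have hSfin : Finite {t : ℂ // w t 0 = 0} := (sing_finite hw hwi).to_subtype
  choose mm cc hsep hreg hGG using fun t => exists_fam (hg t)
  obtain ⟨mi, ci, hsepi, hregi, hGGi⟩ := exists_fam hgi
  -- the families
  let I : Type := {x : (Σ t : {t : ℂ // w t 0 = 0}, Fin (mm t.1)) // ¬ FZero (cc x.1.1 x.2) (fun p => p.1)} ⊕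
    {i : Fin mi // ¬ FZero (ci i) (fun p => p.1)}
  have hIfin : Finite I := inferInstance
  let cI : I → ℕ → ℂ → ℂ × ℂ := fun x => x.elim (fun x N z => be x.1.1.1 (cc x.1.1.1 x.1.2 N z)) fun i N z => (be 0 (ci i.1 N z)).swap
  have hcI : ∀ x, Sep v (cI x) := by
    rintro (x | i)
    · exact sep_child hv.1 (hw _) (hsep _ _) x.2
    · exact sep_swap (sep_child hv.swap.1 hwi (hsepi _) i.2)
  let eI := Finite.equivFin I
  refine ⟨Nat.card I, fun i => cI (eI.symm i), fun i => hcI _, ?_⟩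
  intro g J hP hWt hJ
  -- the weights
  obtain ⟨m, hm1, hm2⟩ := wt_child hv.1 hWt
  choose g' hg'an hg'm hg'wt using fun t => hm1 e ι t (w t) (hw t)
  obtain ⟨gi, hgian, hgim, hgiwt⟩ := hm2 e ι wi hwi
  have hWts : Wt (swv v) fun q => g q.swap := hWt.swap
  have hJs : AnalyticAt ℂ (fun q : ℂ × ℂ => J q.swap) 0 := AnalyticAt.comp (f := fun q : ℂ × ℂ => q.swap) (g := J) (x := 0) hJ (an_swap 0)
  have hPs : SP P (fun q => g q.swap) fun q => J q.swap := by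
    unfold SP
    simpa only [Prod.swap_swap] using hP
  filter_upwards [DD_cof hv.1 hv.2.2 hWt, DD_cof hv.swap.1 hv.swap.2.2 hWts, cht_base hv hWt hJ, self_mem_nhdsWithin] with r hr1 hr2 hr3 hr4 s hs hsr B hB
  have hr0 : 0 < r := hr4
  have hgr : ∀ (Om : Set ℂ) (p : ℂ → ℂ × ℂ), Crv1 v r Om p → (∀ z ∈ Om, ∃ᶠ w in 𝓝 z, g (p w) ≠ 0) → ∀ z ∈ Om, v (p z) ≠ 0 → g (p z) ≠ 0 := by
    obtain ⟨h, -, h1⟩ := hr1
    exact fun Om p hp hne z hz hvz => (h1 Om p hp hne z hz hvz).1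
  have hgrs : ∀ (Om : Set ℂ) (p : ℂ → ℂ × ℂ), Crv1 (swv v) r Om p → (∀ z ∈ Om, ∃ᶠ w in 𝓝 z, g (p w).swap ≠ 0) → ∀ z ∈ Om, swv v (p z) ≠ 0 →
      g (p z).swap ≠ 0 := by
    obtain ⟨h, -, h1⟩ := hr2
    exact fun Om p hp hne z hz hvz => (h1 Om p hp hne z hz hvz).1
  obtain ⟨A₁, hA₁, hEn⟩ := energy hs hsr hB
  obtain ⟨re, te, Ce, H, hre, hrete, htes, hCe, hHcd, hH0, hHlog, -, -⟩ := exists_ell hs
  set N : ℝ := (e : ℝ) + 1 + ι - m with hN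
  -- the direction `∞`
  have hinf := dirP_all (P := SP P) (m := m) hv.swap hwi hWts hJs hgian hgim hPs hr0 hre hgrs hgiwt hGGi
  have hSlt : ∀ᶠ ρ in 𝓝[>] (0 : ℝ), ∀ t : {t : ℂ // w t 0 = 0}, ρ * (‖t.1‖ + 1) < 1 / 2 := by
    rw [eventually_all]
    exact fun t => ev_mul_lt (by norm_num)
  obtain ⟨ρi, hρi, hρi1, hρi2⟩ := exists_radius (hinf.and hSlt)
  -- the other directions
  have hdir := fun t => dirP_all (P := P) (m := m) hv (hw t) hWt hJ (hg'an t) (hg'm t) hP hr0 hre hgr (hg'wt t) (hGG t)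
  have hex : ∀ t : ℂ, ∃ ρ, 0 < ρ ∧ (∀ σ, 0 < σ → σ < ρ → ∀ B, 0 ≤ B → ∃ A C₀ : ℝ, 0 ≤ A ∧ 0 ≤ C₀ ∧
      DirP v g J ((e : ℝ) + 1 + ι - m) r (fun n q => ∀ i, FZero (cc t i) (gt ι (g' t)) ∨ HasOrd (cc t i) (fun x => q (be t x)) n) re B A C₀
        (fun Om p => Omt Om p t ρ) (fun Om p => {z | w t 0 = 0 ∧ z ∈ Kt t ρ σ Om p})) ∧
      (∀ t' : {t : ℂ // w t 0 = 0}, t'.1 ≠ t → 2 * ρ < ‖t'.1 - t‖) ∧ ρ < 1 := by
    intro t
    have h1 : ∀ᶠ ρ in 𝓝[>] (0 : ℝ), ∀ t' : {t : ℂ // w t 0 = 0}, t'.1 ≠ t → 2 * ρ < ‖t'.1 - t‖ := by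
      rw [eventually_all]
      intro t'
      by_cases h2 : t'.1 = t
      · exact Eventually.of_forall fun ρ h3 => absurd h2 h3
      · have h3 : 0 < ‖t'.1 - t‖ := norm_pos_iff.2 (sub_ne_zero.2 h2)
        filter_upwards [ev_lt (half_pos h3)] with ρ hρ _
        linarith
    obtain ⟨ρ, a1, a2, a3, a4⟩ := exists_radius ((hdir t).and (h1.and (ev_lt one_pos)))
    exact ⟨ρ, a1, a2, a3, a4⟩
  choose ρ hρ hρD hρS hρ1 using hex
  -- the finite cover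
  obtain ⟨T, hT1, hT2⟩ := (isCompact_closedBall (0 : ℂ) (2 / ρi)).elim_nhds_subcover (fun t => ball t (ρ t)) fun t _ => ball_mem_nhds t (hρ t)
  -- the radius of the base
  have hb1 : ∀ᶠ x in 𝓝[>] (0 : ℝ), ∀ t ∈ T, x < ρ t := by
    rw [Finset.eventually_all]
    exact fun t _ => ev_lt (hρ t)
  obtain ⟨ρb, hρb, hρb1, hρb2, hρb3⟩ := exists_radius (hb1.and ((ev_lt hρi).and (ev_lt hs)))
  -- the radius of the cores
  have hc1 : ∀ᶠ x in 𝓝[>] (0 : ℝ), ∀ t ∈ T, x * (‖t‖ + 1) < ρb ∧ x * (‖t‖ + 1) < 1 := by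
    rw [Finset.eventually_all]
    exact fun t _ => (ev_mul_lt hρb).and (ev_mul_lt one_pos)
  obtain ⟨σ, hσ, hσ1, hσ2, hσ3⟩ := exists_radius (hc1.and ((ev_lt hρb).and (ev_lt one_pos)))
  have hσρ : ∀ t ∈ T, σ < ρ t := fun t ht => hσ2.trans (hρb1 t ht)
  -- the constants of the charts
  obtain ⟨Ai, Ci, hAi, hCi, hDi⟩ := hρi1 σ hσ (hσ2.trans hρb2) B hB
  have hex2 : ∀ t : {t // t ∈ T}, ∃ A C₀ : ℝ, 0 ≤ A ∧ 0 ≤ C₀ ∧
      DirP v g J ((e : ℝ) + 1 + ι - m) r (fun n q => ∀ i, FZero (cc t.1 i) (gt ι (g' t.1)) ∨ HasOrd (cc t.1 i) (fun x => q (be t.1 x)) n) re B A C₀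
        (fun Om p => Omt Om p t.1 (ρ t.1)) (fun Om p => {z | w t.1 0 = 0 ∧ z ∈ Kt t.1 (ρ t.1) σ Om p}) := fun t =>
    hρD t.1 σ hσ (hσρ t.1 t.2) B hB
  choose At Ct hAt hCt hDt using hex2
  obtain ⟨Cb, hCb, hbase⟩ := hr3 ρb hρb H hHcd N B hB
  let AA : Option {t // t ∈ T} → ℝ := fun i => i.elim Ai At
  let CC : Option {t // t ∈ T} → ℝ := fun i => i.elim Ci Ct
  have hAA : ∀ i, 0 ≤ AA i := by
    rintro (_ | i)
    · exact hAi
    · exact hAt i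
  have hCC : ∀ i, 0 ≤ CC i := by
    rintro (_ | i)
    · exact hCi
    · exact hCt i
  refine ⟨(Fintype.card (Option {t // t ∈ T}) + 1) * (1 + ∑ i, AA i) * A₁, (∑ i, CC i) * A₁, ?_, ?_, ?_⟩
  · have : 0 ≤ ∑ i, AA i := Finset.sum_nonneg fun i _ => hAA i
    positivity
  · exact mul_nonneg (Finset.sum_nonneg fun i _ => hCC i) hA₁
  intro d n q ψ hd hn hq hψ hCon M F Q lm Om p hDat
  have hcrv := hDat.crv
  have hcrvs := crv_swap hDat.crv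
  obtain ⟨l₁, K₁, hl₁, hle, hE, hEnB⟩ := hEn Om p lm hcrv.isOpen hcrv.an hcrv.mem hcrv.closed hDat.p_ne hDat.lm_cont hDat.lm_nonneg hDat.lm_ge
  have hEnB' : EnB Om p re l₁ := fun z hz hb => hEnB z hz (closedBall_subset_closedBall (hrete.trans htes).le hb)
  have hEll : EllP Om p re fun z => H (p z) := fun z hz h0 hb => hHlog _ h0 hb
  have hl₁0 : ∀ z, 0 ≤ l₁ z := fun z => (hDat.lm_nonneg z).trans (hle z)
  -- contact
  have hConI : ∀ x : I, FZero (cI x) g ∨ HasOrd (cI x) q n := fun x => by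
    have := hCon (eI x)
    rwa [Equiv.symm_apply_apply] at this
  have hCont : ∀ t : {t // t ∈ T}, ∀ i, FZero (cc t.1 i) (gt ι (g' t.1)) ∨ HasOrd (cc t.1 i) (fun x => q (be t.1 x)) n := by
    intro t i
    by_cases h0 : w t.1 0 = 0
    · exact con_child (hw t.1) (hg'an t.1) (hg'm t.1) (hsep t.1 i) fun hx => hConI (Sum.inl ⟨⟨⟨t.1, h0⟩, i⟩, hx⟩)
    · have h1 := hreg t.1 h0
      have h2 : (i : ℕ) < mm t.1 := i.2
      omega
  have hConi : ∀ i, FZero (ci i) (gt ι gi) ∨ HasOrd (ci i) (fun x => q (be 0 x).swap) n := by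
    intro i
    exact con_child (g := fun x => g x.swap) (q := fun x => q x.swap) hwi hgian hgim (hsepi i) fun hx => hConI (Sum.inr ⟨i, hx⟩)
  -- the charts
  let OO : Option {t // t ∈ T} → Set ℂ := fun i => i.elim (Omt Om (fun z => (p z).swap) 0 ρi) fun t => Omt Om p t.1 (ρ t.1)
  let KK : Option {t // t ∈ T} → Set ℂ := fun i => i.elim {z | wi 0 = 0 ∧ z ∈ Kt 0 ρi σ Om fun z => (p z).swap} fun t => {z | w t.1 0 = 0 ∧ z ∈ Kt t.1 (ρ t.1) σ Om p}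
  have hDi' := dirP_swap (v := v) (g := g) (J := J) (Con := fun n q => ∀ i, FZero (ci i) (gt ι gi) ∨ HasOrd (ci i) (fun x => q (be 0 x)) n)
    (O := fun Om p => Omt Om p 0 ρi) (K := fun Om p => {z | wi 0 = 0 ∧ z ∈ Kt 0 ρi σ Om p}) (fun Om p z hz => hz.1) hDi
  have hch : ∀ i, DirC v g J N H Om p (AA i) (CC i * d / n) (OO i) (KK i) l₁ := by
    rintro (_ | t)
    · exact hDi' d n q ψ hd hn hq hψ hConi M F Q lm Om p hDat _ hEll l₁ hl₁ hle hEnB'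
    · exact hDt t d n q ψ hd hn hq hψ (hCont t) M F Q lm Om p hDat _ hEll l₁ hl₁ hle hEnB'
  have hsl : ∀ z ∈ Om, HasSlope p z → HasSlope (fun w => (p w).swap) z → ‖slope p z‖ * ‖slope (fun w => (p w).swap) z‖ = 1 := by
    intro z hz h1 h2
    rw [← norm_mul, slope_mul (hcrv.an z hz) h1 h2, norm_one]
  have hKO : ∀ i, KK i ⊆ OO i := by
    rintro (_ | t) z hz
    · exact hz.2.1
    · exact hz.2.1
  have hsub : ∀ i, OO i ⊆ Om := by
    rintro (_ | t) z hz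
    · exact hz.1
    · exact hz.1
  have hσ0 := hσ.le
  have hσσ : σ * σ ≤ σ := by nlinarith
  have hdisb : ∀ i, ∀ z ∈ KK i, p z ∈ closedBall (0 : ℂ × ℂ) ρb := by
    rintro (_ | t) z hz
    · have h1 := mem_ball_of_core (hcrvs.an z hz.2.1.1) hz.2 hσ0 hσ2.le (by rw [norm_zero, zero_add]; linarith)
      rw [mem_closedBall_zero_iff, norm_swap', ← mem_closedBall_zero_iff] at h1
      exact h1
    · refine mem_ball_of_core (hcrv.an z hz.2.1.1) hz.2 hσ0 hσ2.le ?_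
      have h1 := (hσ1 t.1 t.2).1
      have h2 : σ * (‖t.1‖ + σ) ≤ σ * (‖t.1‖ + 1) := mul_le_mul_of_nonneg_left (by linarith) hσ0
      linarith
  have hdis : ∀ i j, i ≠ j → ∀ z ∈ KK i, z ∉ OO j := by
    rintro (_ | t) (_ | t') hij z hz hz'
    · exact hij rfl
    · obtain ⟨-, -, a3⟩ := norm_slope_le_of_core hz.2
      have a4 : ‖slope p z‖ < ‖t'.1‖ + ρ t'.1 := norm_slope_le_of_mem hz'
      have a5 := hsl z hz'.1 hz'.2.1 hz.2.1.2.1
      rw [norm_zero, zero_add] at a3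
      have a6 : ‖slope p z‖ * ‖slope (fun w => (p w).swap) z‖ ≤ (‖t'.1‖ + 1) * σ :=
        mul_le_mul (by linarith [hρ1 t'.1]) a3 (norm_nonneg _) (by positivity)
      have a7 := (hσ1 t'.1 t'.2).2
      rw [a5, mul_comm] at a6
      linarith
    · obtain ⟨-, -, a3⟩ := norm_slope_le_of_core hz.2
      have a4 : ‖slope (fun w => (p w).swap) z‖ < ‖(0 : ℂ)‖ + ρi := norm_slope_le_of_mem hz'
      have a5 := hsl z hz'.1 hz.2.1.2.1 hz'.2.1
      rw [norm_zero, zero_add] at a4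
      have a6 : ‖slope p z‖ * ‖slope (fun w => (p w).swap) z‖ ≤ (‖t.1‖ + 1) * ρi :=
        mul_le_mul (by linarith) a4.le (norm_nonneg _) (by positivity)
      have a7 := hρi2 ⟨t.1, hz.1⟩
      rw [a5, mul_comm] at a6
      dsimp only at a7
      linarith
    · have hne : t.1 ≠ t'.1 := fun h => hij (by rw [Subtype.ext h])
      obtain ⟨a1, -, -⟩ := norm_slope_le_of_core hz.2
      have a2 := hz'.2.2.2
      have a3 := hρS t'.1 ⟨t.1, hz.1⟩ hne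
      have a4 : ‖t.1 - t'.1‖ ≤ ‖slope p z - t'.1‖ + ‖slope p z - t.1‖ := by
        have : t.1 - t'.1 = (slope p z - t'.1) - (slope p z - t.1) := by ring
        rw [this]
        exact norm_sub_le _ _
      have a5 := hσρ t'.1 t'.2
      dsimp only at a3
      linarith
  have hcov : ∀ z ∈ Om, p z ∈ closedBall (0 : ℂ × ℂ) ρb → ∃ i, z ∈ OO i := by
    intro z hz hb
    have hb' : ‖p z‖ ≤ ρb := by rwa [mem_closedBall_zero_iff] at hb
    rcases slope_cover (hcrv.an z hz) (hDat.p_ne z hz) (K := 2 / ρi) (by positivity) with ⟨a1, a2⟩ | ⟨a1, a2⟩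
    · have h1 : slope p z ∈ closedBall (0 : ℂ) (2 / ρi) := by rwa [mem_closedBall_zero_iff]
      obtain ⟨t, ht⟩ := Set.mem_iUnion.1 (hT2 h1)
      obtain ⟨htT, ht2⟩ := Set.mem_iUnion.1 ht
      refine ⟨some ⟨t, htT⟩, hz, a1, ?_, ?_⟩
      · exact (norm_fst_le (p z)).trans_lt (hb'.trans_lt (hρb1 t htT))
      · rwa [mem_ball, dist_eq_norm] at ht2
    · refine ⟨none, hz, a1, ?_, ?_⟩
      · exact (norm_snd_le (p z)).trans_lt (hb'.trans_lt hρb2)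
      · rw [sub_zero]
        refine a2.trans_lt ?_
        rw [one_div_div]
        linarith
  have hδ : ∀ i, 0 ≤ CC i * d / n := fun i => div_nonneg (mul_nonneg (hCC i) (Nat.cast_nonneg _)) (Nat.cast_nonneg _)
  have hfin := locX_of_charts htes hH0 hρb3 hAA hδ hcrv.an hDat.lm_nonneg hle hl₁ hE hCb
    (hbase Om p l₁ hcrv hDat.g_ne hl₁0 fun z hz => (hDat.lm_ge z hz).trans (mul_le_mul_of_nonneg_left (hle z) hB))
    hKO hsub hcov hdisb hdis hch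
  have e1 : (∑ i, CC i * (d : ℝ) / n) * A₁ = (∑ i, CC i) * A₁ * d / n := by
    rw [← Finset.sum_div, ← Finset.sum_mul]
    ring
  rw [e1] at hfin
  exact hfin

end Pool.Agent.MQ2

end
end
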