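import Pool.Agent.H43.TL2.M66
import Pool.Agent.H43.TL2.M93
import Pool.Agent.H43.TL2.MQL.SDS

/-! The parts of this file: MQL.SDB, MQL.SDE, MQL.SDW, MQL.StepD. -/

section

/-!
# MQL SDB: the base chart of the blow-up step (logarithmic version)
-/

set_option autoImplicit false

open Topology Filter Metric MeasureTheory Asymptotics Laplacian

noncomputable section

namespace Pool.Agent.MQL

open Pool.Agent.H36.BP (EN)
open Pool.Agent.H30M (tau LogSing)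
open Pool.Agent.MQ Pool.Agent.MQ2

namespace SDB

/-- the hypothesis of `ax_bound` at the points of the axis `{x = 0}` near `0` -/
theorem ax_rad {al : ℝ} {v : ℂ × ℂ → ℂ × ℂ} {g : ℂ × ℂ → ℂ} (hv : AnalyticAt ℂ v 0) (hA : al < 0 → (∀ᶠ t in 𝓝 (0 : ℂ), (v (0, t)).1 = 0) → DivX g) :
    ∀ᶠ r in 𝓝[>] (0 : ℝ), ∀ t : ℂ, t ≠ 0 → ‖t‖ ≤ r → 0 ≤ al ∨ (v (0, t)).1 ≠ 0 ∨ ∃ g₀ : ℂ × ℂ → ℂ, AnalyticAt ℂ g₀ (0, t) ∧
      ∀ᶠ q in 𝓝 ((0 : ℂ), t), g q = q.1 * g₀ q := by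
  rcases le_or_gt 0 al with h | h
  · exact Eventually.of_forall fun r t _ _ => Or.inl h
  have h1 : AnalyticAt ℂ (fun t : ℂ => (v (0, t)).1) 0 := by
    have h2 : AnalyticAt ℂ (fun t : ℂ => ((0 : ℂ), t)) 0 := analyticAt_const.prod analyticAt_id
    have h3 : AnalyticAt ℂ (fun t : ℂ => v (0, t)) 0 := AnalyticAt.comp (g := v) (f := fun t : ℂ => ((0 : ℂ), t)) (x := 0) hv h2
    exact an_fst h3
  rcases h1.eventually_eq_zero_or_eventually_ne_zero with h2 | h2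
  · obtain ⟨g₀, hg₀, hg⟩ := hA h h2
    obtain ⟨ε, hε, hb⟩ := Metric.eventually_nhds_iff_ball.1 (hg₀.eventually_analyticAt.and hg.eventually_nhds)
    filter_upwards [mem_nhdsWithin_of_mem_nhds (gt_mem_nhds hε)] with r hr t _ ht
    have h3 : ((0 : ℂ), t) ∈ ball (0 : ℂ × ℂ) ε := by
      rw [mem_ball_zero_iff, Prod.norm_def]
      simp only [norm_zero, norm_nonneg, max_eq_right]
      linarith
    exact Or.inr (Or.inr ⟨g₀, (hb _ h3).1, (hb _ h3).2⟩)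
  · rw [eventually_nhdsWithin_iff] at h2
    obtain ⟨ε, hε, hb⟩ := Metric.eventually_nhds_iff_ball.1 h2
    filter_upwards [mem_nhdsWithin_of_mem_nhds (gt_mem_nhds hε)] with r hr t ht0 ht
    refine Or.inr (Or.inl (hb t ?_ ht0))
    rw [mem_ball_zero_iff]
    linarith

/-- the bound of the Jacobian factor -/
def Bd (al be : ℝ) (v : ℂ × ℂ → ℂ × ℂ) (q : ℂ × ℂ) : ℝ :=
  ‖v q‖ + (if al < 0 then ‖(v q).1‖ * ‖q.1‖ ^ al else 0) + if be < 0 then ‖(v q).2‖ * ‖q.2‖ ^ be else 0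

theorem Bd_fst_nonneg (al : ℝ) (v : ℂ × ℂ → ℂ × ℂ) (q : ℂ × ℂ) : 0 ≤ if al < 0 then ‖(v q).1‖ * ‖q.1‖ ^ al else 0 := by
  split_ifs
  · positivity
  · exact le_rfl

theorem Bd_snd_nonneg (be : ℝ) (v : ℂ × ℂ → ℂ × ℂ) (q : ℂ × ℂ) : 0 ≤ if be < 0 then ‖(v q).2‖ * ‖q.2‖ ^ be else 0 := by
  split_ifs
  · positivity
  · exact le_rfl

/-- the property on a set -/
def Pr (al be : ℝ) (v : ℂ × ℂ → ℂ × ℂ) (g : ℂ × ℂ → ℂ) (T : Set (ℂ × ℂ)) : Prop :=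
  ∃ C : ℝ, 0 ≤ C ∧ ∀ q ∈ T, (al < 0 → q.1 ≠ 0) → (be < 0 → q.2 ≠ 0) → ‖g q‖ * (‖q.1‖ ^ al * ‖q.2‖ ^ be) ≤ C * Bd al be v q

theorem rpow_bdd (be : ℝ) {q₀ : ℂ × ℂ} (h : q₀.2 ≠ 0) : ∃ C : ℝ, 0 ≤ C ∧ ∀ᶠ q in 𝓝 q₀, ‖q.2‖ ^ be ≤ C := by
  have h1 : ContinuousAt (fun q : ℂ × ℂ => ‖q.2‖ ^ be) q₀ := by
    have h2 : ContinuousAt (fun q : ℂ × ℂ => ‖q.2‖) q₀ := by fun_prop
    exact h2.rpow_const (Or.inl (norm_ne_zero_iff.2 h))
  have h3 : 0 ≤ ‖q₀.2‖ ^ be := by positivity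
  exact ⟨‖q₀.2‖ ^ be + 1, by linarith, (h1.eventually (gt_mem_nhds (by linarith))).mono fun q hq => le_of_lt hq⟩

theorem rpow_bdd' (al : ℝ) {q₀ : ℂ × ℂ} (h : q₀.1 ≠ 0) : ∃ C : ℝ, 0 ≤ C ∧ ∀ᶠ q in 𝓝 q₀, ‖q.1‖ ^ al ≤ C := by
  have h1 : ContinuousAt (fun q : ℂ × ℂ => ‖q.1‖ ^ al) q₀ := by
    have h2 : ContinuousAt (fun q : ℂ × ℂ => ‖q.1‖) q₀ := by fun_prop
    exact h2.rpow_const (Or.inl (norm_ne_zero_iff.2 h))
  have h3 : 0 ≤ ‖q₀.1‖ ^ al := by positivity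
  exact ⟨‖q₀.1‖ ^ al + 1, by linarith, (h1.eventually (gt_mem_nhds (by linarith))).mono fun q hq => le_of_lt hq⟩

/-- near one point -/
theorem pr_near {al be : ℝ} (hal : -1 < al) (hbe : -1 < be) {v : ℂ × ℂ → ℂ × ℂ} {g : ℂ × ℂ → ℂ} {q₀ : ℂ × ℂ} (hq : q₀ ≠ 0) (hv : AnalyticAt ℂ v q₀)
    (hv0 : v q₀ ≠ 0) (hg : AnalyticAt ℂ g q₀)
    (hx : q₀.1 = 0 → 0 ≤ al ∨ (v q₀).1 ≠ 0 ∨ ∃ g₀ : ℂ × ℂ → ℂ, AnalyticAt ℂ g₀ q₀ ∧ ∀ᶠ q in 𝓝 q₀, g q = q.1 * g₀ q)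
    (hy : q₀.2 = 0 → 0 ≤ be ∨ (v q₀).2 ≠ 0 ∨ ∃ g₀ : ℂ × ℂ → ℂ, AnalyticAt ℂ g₀ q₀.swap ∧ ∀ᶠ q in 𝓝 q₀.swap, g q.swap = q.1 * g₀ q) :
    ∃ T ∈ 𝓝 q₀, Pr al be v g T := by
  by_cases h1 : q₀.1 = 0
  · have h2 : q₀.2 ≠ 0 := fun h2 => hq (Prod.ext h1 h2)
    obtain ⟨C₁, hC₁, e1⟩ := ax_bound hal h1 hv hv0 hg (hx h1)
    obtain ⟨C₂, hC₂, e2⟩ := rpow_bdd be h2
    refine ⟨_, e1.and e2, C₁ * C₂, by positivity, fun q hq ha hb => ?_⟩
    have h3 := hq.1 ha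
    have n1 := Bd_fst_nonneg al v q
    have n2 := Bd_snd_nonneg be v q
    have n3 : 0 ≤ C₁ * (‖v q‖ + if al < 0 then ‖(v q).1‖ * ‖q.1‖ ^ al else 0) := mul_nonneg hC₁ (add_nonneg (norm_nonneg _) n1)
    calc ‖g q‖ * (‖q.1‖ ^ al * ‖q.2‖ ^ be) = (‖g q‖ * ‖q.1‖ ^ al) * ‖q.2‖ ^ be := by ring
      _ ≤ (C₁ * (‖v q‖ + if al < 0 then ‖(v q).1‖ * ‖q.1‖ ^ al else 0)) * C₂ := mul_le_mul h3 hq.2 (by positivity) n3
      _ = (C₁ * C₂) * (‖v q‖ + if al < 0 then ‖(v q).1‖ * ‖q.1‖ ^ al else 0) := by ring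
      _ ≤ (C₁ * C₂) * Bd al be v q := mul_le_mul_of_nonneg_left (by unfold Bd; linarith) (by positivity)
  by_cases h2 : q₀.2 = 0
  · have hsw : AnalyticAt ℂ (fun q : ℂ × ℂ => q.swap) q₀.swap := an_swap _
    have hv' : AnalyticAt ℂ (swv v) q₀.swap := by
      have h3 : AnalyticAt ℂ (fun q : ℂ × ℂ => v q.swap) q₀.swap :=
        AnalyticAt.comp (g := v) (f := fun q : ℂ × ℂ => q.swap) (x := q₀.swap) (by rw [Prod.swap_swap]; exact hv) hsw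
      exact AnalyticAt.comp (g := fun q : ℂ × ℂ => q.swap) (f := fun q : ℂ × ℂ => v q.swap) (x := q₀.swap) (an_swap _) h3
    have hg' : AnalyticAt ℂ (fun q : ℂ × ℂ => g q.swap) q₀.swap :=
      AnalyticAt.comp (g := g) (f := fun q : ℂ × ℂ => q.swap) (x := q₀.swap) (by rw [Prod.swap_swap]; exact hg) hsw
    have hv0' : swv v q₀.swap ≠ 0 := by
      unfold swv
      rw [Prod.swap_swap]
      intro h3
      exact hv0 (by have := congrArg Prod.swap h3; rwa [Prod.swap_swap] at this)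
    have hh : 0 ≤ be ∨ (swv v q₀.swap).1 ≠ 0 ∨ ∃ g₀ : ℂ × ℂ → ℂ, AnalyticAt ℂ g₀ q₀.swap ∧ ∀ᶠ q in 𝓝 q₀.swap, g q.swap = q.1 * g₀ q := by
      have h3 := hy h2
      have h4 : (swv v q₀.swap).1 = (v q₀).2 := by
        unfold swv
        rw [Prod.swap_swap, Prod.fst_swap]
      rwa [h4]
    obtain ⟨C₁, hC₁, e1⟩ := ax_bound (v := swv v) (g := fun q => g q.swap) hbe (by rw [Prod.fst_swap]; exact h2) hv' hv0' hg' hh
    obtain ⟨C₂, hC₂, e2⟩ := rpow_bdd' al h1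
    have e3 : ∀ᶠ q in 𝓝 q₀, (be < 0 → q.swap.1 ≠ 0) → ‖g q.swap.swap‖ * ‖q.swap.1‖ ^ be ≤
        C₁ * (‖swv v q.swap‖ + if be < 0 then ‖(swv v q.swap).1‖ * ‖q.swap.1‖ ^ be else 0) :=
      (continuous_swap.tendsto q₀).eventually e1
    refine ⟨_, e3.and e2, C₁ * C₂, by positivity, fun q hq ha hb => ?_⟩
    have h3 := hq.1 hb
    have h5 : swv v q.swap = (v q).swap := by
      unfold swv
      rw [Prod.swap_swap]
    rw [Prod.swap_swap, h5, Prod.fst_swap, Prod.fst_swap] at h3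
    have h6 : ‖(v q).swap‖ = ‖v q‖ := by
      rw [Prod.norm_def, Prod.norm_def, Prod.fst_swap, Prod.snd_swap, max_comm]
    rw [h6] at h3
    have n1 := Bd_fst_nonneg al v q
    have n2 := Bd_snd_nonneg be v q
    have n3 : 0 ≤ C₁ * (‖v q‖ + if be < 0 then ‖(v q).2‖ * ‖q.2‖ ^ be else 0) := mul_nonneg hC₁ (add_nonneg (norm_nonneg _) n2)
    calc ‖g q‖ * (‖q.1‖ ^ al * ‖q.2‖ ^ be) = (‖g q‖ * ‖q.2‖ ^ be) * ‖q.1‖ ^ al := by ring
      _ ≤ (C₁ * (‖v q‖ + if be < 0 then ‖(v q).2‖ * ‖q.2‖ ^ be else 0)) * C₂ := mul_le_mul h3 hq.2 (by positivity) n3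
      _ = (C₁ * C₂) * (‖v q‖ + if be < 0 then ‖(v q).2‖ * ‖q.2‖ ^ be else 0) := by ring
      _ ≤ (C₁ * C₂) * Bd al be v q := mul_le_mul_of_nonneg_left (by unfold Bd; linarith) (by positivity)
  · obtain ⟨C₁, hC₁, e1⟩ := rpow_bdd' al h1
    obtain ⟨C₂, hC₂, e2⟩ := rpow_bdd be h2
    have hv1 : 0 < ‖v q₀‖ := norm_pos_iff.2 hv0
    have e3 : ∀ᶠ q in 𝓝 q₀, ‖g q‖ < ‖g q₀‖ + 1 := hg.continuousAt.norm.eventually (gt_mem_nhds (by linarith))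
    have e4 : ∀ᶠ q in 𝓝 q₀, ‖v q₀‖ / 2 < ‖v q‖ := hv.continuousAt.norm.eventually (lt_mem_nhds (by linarith))
    refine ⟨_, (e1.and e2).and (e3.and e4), (‖g q₀‖ + 1) * (C₁ * C₂) * (2 / ‖v q₀‖), by positivity, fun q hq ha hb => ?_⟩
    obtain ⟨⟨f1, f2⟩, f3, f4⟩ := hq
    have n1 := Bd_fst_nonneg al v q
    have n2 := Bd_snd_nonneg be v q
    have h3 : ‖g q‖ * (‖q.1‖ ^ al * ‖q.2‖ ^ be) ≤ (‖g q₀‖ + 1) * (C₁ * C₂) :=
      mul_le_mul (le_of_lt f3) (mul_le_mul f1 f2 (by positivity) hC₁) (by positivity) (by positivity)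
    have h4 : 1 ≤ (2 / ‖v q₀‖) * Bd al be v q := by
      have h5 : ‖v q₀‖ / 2 ≤ Bd al be v q := by
        unfold Bd
        linarith
      calc (1 : ℝ) = (2 / ‖v q₀‖) * (‖v q₀‖ / 2) := by field_simp
        _ ≤ (2 / ‖v q₀‖) * Bd al be v q := mul_le_mul_of_nonneg_left h5 (by positivity)
    have h6 : 0 ≤ (‖g q₀‖ + 1) * (C₁ * C₂) := by positivity
    calc _ ≤ (‖g q₀‖ + 1) * (C₁ * C₂) * 1 := by rw [mul_one]; exact h3
      _ ≤ (‖g q₀‖ + 1) * (C₁ * C₂) * ((2 / ‖v q₀‖) * Bd al be v q) := mul_le_mul_of_nonneg_left h4 h6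
      _ = _ := by ring

/-- on a compact set -/
theorem pr_compact {al be : ℝ} {v : ℂ × ℂ → ℂ × ℂ} {g : ℂ × ℂ → ℂ} {T : Set (ℂ × ℂ)} (hT : IsCompact T) (h : ∀ q ∈ T, ∃ T' ∈ 𝓝 q, Pr al be v g T') :
    Pr al be v g T := by
  refine hT.induction_on (p := Pr al be v g) ?_ ?_ ?_ ?_
  · exact ⟨0, le_rfl, fun q hq => absurd hq (Set.notMem_empty q)⟩
  · rintro s t hst ⟨C, hC, h1⟩
    exact ⟨C, hC, fun q hq => h1 q (hst hq)⟩
  · rintro s t ⟨C, hC, h1⟩ ⟨C', hC', h2⟩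
    refine ⟨C + C', by positivity, fun q hq ha hb => ?_⟩
    have n : 0 ≤ Bd al be v q := by
      have n1 := Bd_fst_nonneg al v q
      have n2 := Bd_snd_nonneg be v q
      unfold Bd
      have := norm_nonneg (v q)
      linarith
    rcases hq with hq | hq
    · have := h1 q hq ha hb
      nlinarith
    · have := h2 q hq ha hb
      nlinarith
  · intro q hq
    obtain ⟨T', h1, h2⟩ := h q hq
    exact ⟨T', mem_nhdsWithin_of_mem_nhds h1, h2⟩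

end SDB

/-- The base chart: outside a small polydisc. -/
theorem cht_baseD {al be : ℝ} (hal : -1 < al) (hbe : -1 < be) {v : ℂ × ℂ → ℂ × ℂ} {g : ℂ × ℂ → ℂ} (hv : Iso v) (hg : Wt v g) (hA : AxW al be v g) :
    ∀ᶠ r in 𝓝[>] (0 : ℝ), ∀ (ρb s' : ℝ), 0 < ρb → s' < r → ∀ H : ℂ × ℂ → ℝ, ContDiffOn ℝ 2 H {p | p ≠ 0} → ∀ (N B : ℝ), 0 ≤ B → ∃ C : ℝ, 0 ≤ C ∧
      ∀ (Om : Set ℂ) (p : ℂ → ℂ × ℂ) (l₁ : ℂ → ℝ), Crv1 v r Om p → (∀ z ∈ Om, ∃ᶠ w in 𝓝 z, g (p w) ≠ 0) → Avoid al be Om p → (∀ z, 0 ≤ l₁ z) →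
        (∀ z ∈ Om, ‖deriv p z‖ ≤ B * l₁ z) → Rt al be Om p s' l₁ →
        Cht (DDv v g p) (fun z => H (p z)) (LL v g (JD al be) p) (VV v g (JD al be) Om p) N l₁ C
          {z | z ∈ Om ∧ p z ∈ ball (0 : ℂ × ℂ) s' ∧ p z ∉ closedBall (0 : ℂ × ℂ) ρb} ∅
          (fun z => (starRingEnd ℂ) (DDv v g p z)) (DDv v g p) (fun _ => 1) (fun _ => 0) (fun _ => 0) fun z => H (p z) := by
  obtain ⟨c, hc⟩ := RegE.exists_reg hv.1 hv.2.2 hg
  have hx := SDB.ax_rad (al := al) (g := g) hv.1 hA.fst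
  have hy := SDB.ax_rad (al := be) (v := swv v) (g := fun q => g q.swap) hv.swap.1 fun h1 h2 => divY_swap (hA.snd h1 h2)
  filter_upwards [hc, DD_cof hv.1 hv.2.2 hg, DD_bound hv.1 hv.2.2 hg, hx, hy] with r a1 a2 a3 a4 a5
  intro ρb s' hρb hs' H hH N B hB
  obtain ⟨h, hh, a2⟩ := a2
  obtain ⟨C₁, hC₁, a3⟩ := a3 ρb (Or.inl hρb)
  -- compact sets
  have hop : IsOpen {q : ℂ × ℂ | q ≠ 0} := isOpen_ne
  have hKs : closedBall (0 : ℂ × ℂ) r \ ball 0 ρb ⊆ {q : ℂ × ℂ | q ≠ 0} := fun q hq h0 => hq.2 (by rw [h0]; exact mem_ball_self hρb)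
  have hK : IsCompact (closedBall (0 : ℂ × ℂ) r \ ball 0 ρb) := (isCompact_closedBall _ _).diff isOpen_ball
  have hHc : ContinuousOn H (closedBall (0 : ℂ × ℂ) r \ ball 0 ρb) := hH.continuousOn.mono hKs
  have hHd : ContinuousOn (fderiv ℝ H) (closedBall (0 : ℂ × ℂ) r \ ball 0 ρb) := (hH.continuousOn_fderiv_of_isOpen hop (by norm_num)).mono hKs
  obtain ⟨C₂, hC₂⟩ := hK.exists_bound_of_continuousOn hHc
  obtain ⟨C₃, hC₃⟩ := hK.exists_bound_of_continuousOn hHd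
  obtain ⟨C₄, hC₄, hPr⟩ := SDB.pr_compact (al := al) (be := be) (v := v) (g := g) hK fun q hq => by
    refine SDB.pr_near hal hbe (hKs hq) (a1.van q hq.1) (a1.iso q hq.1 (hKs hq)) (a1.gan q hq.1) (fun h1 => ?_) fun h1 => ?_
    · have e : q = (0, q.2) := Prod.ext h1 rfl
      have h2 : q.2 ≠ 0 := fun h2 => hKs hq (Prod.ext h1 h2)
      have h3 := a4 q.2 h2 ((norm_snd_le q).trans (mem_closedBall_zero_iff.1 hq.1))
      rwa [← e] at h3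
    · have e : q.swap = (0, q.1) := Prod.ext h1 rfl
      have h2 : q.1 ≠ 0 := fun h2 => hKs hq (Prod.ext h2 h1)
      have h3 := a5 q.1 h2 ((norm_fst_le q).trans (mem_closedBall_zero_iff.1 hq.1))
      rw [← e] at h3
      have h4 : (swv v q.swap).1 = (v q).2 := by
        unfold swv
        rw [Prod.swap_swap, Prod.fst_swap]
      rwa [h4] at h3
  set M : ℝ := C₄ * (B + 2) + 1 with hM
  have hM1 : 1 ≤ M := by
    have : 0 ≤ C₄ * (B + 2) := by positivity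
    linarith
  have hlM : 0 ≤ Real.log M := Real.log_nonneg hM1
  refine ⟨C₁ * B + |N| * |C₂| + |C₃| * B + Real.log M, by positivity, fun Om p l₁ hC hgne hAv hl0 hp hRt => ?_⟩
  set C : ℝ := C₁ * B + |N| * |C₂| + |C₃| * B + Real.log M with hCdef
  have hC0 : 0 ≤ C := by positivity
  have m1 : 0 ≤ C₁ * B := by positivity
  have m2 : 0 ≤ |N| * |C₂| := by positivity
  have m3 : 0 ≤ |C₃| * B := by positivity
  have hC1 : C₁ * B ≤ C := by linarith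
  have hC2 : |N| * |C₂| ≤ C := by linarith
  have hC3 : |C₃| * B ≤ C := by linarith
  have hC4 : Real.log M ≤ C := by linarith
  have hmem : ∀ z ∈ Om, p z ∈ closedBall (0 : ℂ × ℂ) r := fun z hz => ball_subset_closedBall (hC.mem z hz)
  have hnb : ∀ z, p z ∉ closedBall (0 : ℂ × ℂ) ρb → p z ∉ ball (0 : ℂ × ℂ) ρb := fun z hz h1 => hz (ball_subset_closedBall h1)
  have hp0 : ∀ z, p z ∉ closedBall (0 : ℂ × ℂ) ρb → p z ≠ 0 := fun z hz h1 => hz (by rw [h1]; exact mem_closedBall_self hρb.le)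
  have hvz : ∀ z ∈ Om, p z ∉ closedBall (0 : ℂ × ℂ) ρb → v (p z) ≠ 0 := fun z hz hz' => a1.iso _ (hmem z hz) (hp0 z hz')
  have hK' : ∀ z ∈ Om, p z ∉ closedBall (0 : ℂ × ℂ) ρb → p z ∈ closedBall (0 : ℂ × ℂ) r \ ball 0 ρb := fun z hz hz' => ⟨hmem z hz, hnb z hz'⟩
  have hDan : ∀ z ∈ Om, p z ∉ closedBall (0 : ℂ × ℂ) ρb → AnalyticAt ℂ (DDv v g p) z := fun z hz hz' => by
    obtain ⟨-, b2, b3⟩ := a2 Om p hC hgne z hz (hvz z hz hz')
    have b4 : AnalyticAt ℂ (fun w => h (p w) * ztv v p w) z := ((hh _ (hmem z hz)).comp (hC.an z hz)).mul b2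
    exact b4.congr (b3.mono fun w hw => hw.symm)
  have hHat : ∀ z ∈ Om, p z ∉ closedBall (0 : ℂ × ℂ) ρb → ContDiffAt ℝ 2 H (p z) := fun z hz hz' =>
    hH.contDiffAt (hop.mem_nhds (hp0 z hz'))
  refine
    { op := ?_
      cl := isClosed_empty
      η_cd := fun z hz => contDiffAt_conj_holo (hDan z hz.1 hz.2.2)
      err_c := fun z hz => continuousAt_const
      Φ_ls := fun z hz => ⟨_, LogSing.of_contDiffAt contDiffAt_const⟩
      out := fun z hz _ => ⟨rfl, rfl, rfl⟩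
      bd := fun z hz => ?_
      ineq := fun z hz _ => ?_
      X_an := fun z hz => analyticAt_const
      X_ne := fun z hz => Eventually.frequently (Eventually.of_forall fun _ => one_ne_zero)
      X_V := fun z hz _ => one_ne_zero
      D_eq := fun z hz _ => ?_
      ell_eq := fun z hz _ => ?_
      u_cd := fun z hz => ?_
      u_gr := fun z hz => ?_
      u_bd := fun z hz => ?_
      up := fun z hz hV _ => ?_ }
  · rw [isOpen_iff_mem_nhds]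
    intro z hz
    filter_upwards [hC.isOpen.mem_nhds hz.1, (hC.an z hz.1).continuousAt.eventually (isOpen_ball.mem_nhds hz.2.1),
      (hC.an z hz.1).continuousAt.eventually (isClosed_closedBall.isOpen_compl.mem_nhds hz.2.2)] with w h1 h2 h3
    exact ⟨h1, h2, h3⟩
  · rw [RCLike.norm_conj]
    have h1 := (a3 Om p hC hgne z hz.1 (hnb z hz.2.2)).2
    have h2 : C₁ * ‖deriv p z‖ ≤ C₁ * (B * l₁ z) := mul_le_mul_of_nonneg_left (hp z hz.1) hC₁.le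
    have h3 := mul_le_mul_of_nonneg_right hC1 (hl0 z)
    linarith
  · rw [dv_conj (hDan z hz.1 hz.2.2).differentiableAt]
    have h1 : Δ (fun _ : ℂ => (0 : ℝ)) z = 0 := by simp
    rw [h1]
    norm_num
  · simp
  · simp
  · exact (hHat z hz.1 hz.2.2).comp z ((hC.an z hz.1).contDiffAt.restrict_scalars ℝ)
  · refine (gr_comp_curve ((hHat z hz.1 hz.2.2).differentiableAt (by norm_num)) (hC.an z hz.1)).trans ?_
    have h1 := hC₃ _ (hK' z hz.1 hz.2.2)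
    have h2 : ‖fderiv ℝ H (p z)‖ ≤ |C₃| := h1.trans (le_abs_self _)
    calc ‖fderiv ℝ H (p z)‖ * ‖deriv p z‖ ≤ |C₃| * (B * l₁ z) := mul_le_mul h2 (hp z hz.1) (norm_nonneg _) (abs_nonneg _)
      _ = |C₃| * B * l₁ z := by ring
      _ ≤ C * l₁ z := mul_le_mul_of_nonneg_right hC3 (hl0 z)
  · have h1 := hC₂ _ (hK' z hz.1 hz.2.2)
    rw [Real.norm_eq_abs] at h1
    calc N * H (p z) ≤ |N * H (p z)| := le_abs_self _
      _ = |N| * |H (p z)| := abs_mul _ _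
      _ ≤ |N| * |C₂| := mul_le_mul_of_nonneg_left (h1.trans (le_abs_self _)) (abs_nonneg _)
      _ ≤ C := hC2
  · obtain ⟨-, b1, b2, b3⟩ := hV
    have hvp := hvz z hz.1 hz.2.2
    have n1 : 0 < ‖ztv v p z‖ := norm_pos_iff.2 b1
    have n2 : 0 < ‖g (p z)‖ := norm_pos_iff.2 b2
    have n3 : 0 < ‖JD al be (p z)‖ := norm_pos_iff.2 b3
    have hl := hl0 z
    have h1 := hPr (p z) (hK' z hz.1 hz.2.2) (fun h => hAv.fst h z hz.1) fun h => hAv.snd h z hz.1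
    rw [← JD_norm] at h1
    have hd := RegE.deriv_eq hC hz.1 hvp
    have hd0 : ‖ztv v p z‖ * ‖v (p z)‖ = ‖deriv p z‖ := by rw [hd, norm_smul]
    have hd1 : ‖ztv v p z‖ * ‖(v (p z)).1‖ = ‖(deriv p z).1‖ := by rw [hd, Prod.smul_fst, smul_eq_mul, norm_mul]
    have hd2 : ‖ztv v p z‖ * ‖(v (p z)).2‖ = ‖(deriv p z).2‖ := by rw [hd, Prod.smul_snd, smul_eq_mul, norm_mul]
    have hR := hRt z hz.1 (ball_subset_closedBall hz.2.1)
    have hBd : ‖ztv v p z‖ * SDB.Bd al be v (p z) ≤ (B + 2) * l₁ z := by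
      have q1 : ‖ztv v p z‖ * (if al < 0 then ‖(v (p z)).1‖ * ‖(p z).1‖ ^ al else 0) ≤ l₁ z := by
        split_ifs with h
        · rw [← mul_assoc, hd1]
          exact hR.1 h
        · rw [mul_zero]
          exact hl
      have q2 : ‖ztv v p z‖ * (if be < 0 then ‖(v (p z)).2‖ * ‖(p z).2‖ ^ be else 0) ≤ l₁ z := by
        split_ifs with h
        · rw [← mul_assoc, hd2]
          exact hR.2 h
        · rw [mul_zero]
          exact hl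
      unfold SDB.Bd
      rw [mul_add, mul_add, hd0]
      have := hp z hz.1
      linarith
    have h5 : ‖ztv v p z‖ * ‖g (p z)‖ * ‖JD al be (p z)‖ ≤ M * (1 + l₁ z) := by
      calc ‖ztv v p z‖ * ‖g (p z)‖ * ‖JD al be (p z)‖ = ‖ztv v p z‖ * (‖g (p z)‖ * ‖JD al be (p z)‖) := by ring
        _ ≤ ‖ztv v p z‖ * (C₄ * SDB.Bd al be v (p z)) := mul_le_mul_of_nonneg_left h1 n1.le
        _ = C₄ * (‖ztv v p z‖ * SDB.Bd al be v (p z)) := by ring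
        _ ≤ C₄ * ((B + 2) * l₁ z) := mul_le_mul_of_nonneg_left hBd hC₄
        _ = (C₄ * (B + 2)) * l₁ z := by ring
        _ ≤ M * (1 + l₁ z) := mul_le_mul (by linarith) (by linarith) hl (by linarith)
    have h6 : Real.log (‖ztv v p z‖ * ‖g (p z)‖ * ‖JD al be (p z)‖) ≤ Real.log M + Real.log (1 + l₁ z) := by
      rw [← Real.log_mul (by linarith) (by linarith)]
      exact Real.log_le_log (by positivity) h5
    rw [Real.log_mul (by positivity) (by positivity), Real.log_mul (by positivity) (by positivity)] at h6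
    unfold LL
    rw [norm_one, Real.log_one]
    linarith

end Pool.Agent.MQL

end
end

section

/-!
# MQL SDE: the density of the blow-up step, the tangent directions, the weights of the children
-/

set_option autoImplicit false

open Topology Filter Metric MeasureTheory Asymptotics Laplacian

noncomputable section

namespace Pool.Agent.MQL

open Pool.Agent.H36.BP (EN)
open Pool.Agent.H30M (tau LogSing)
open Pool.Agent.MQ Pool.Agent.MQ2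

/-! ## the density -/

namespace SDE

theorem int_tau {l : ℂ → ℝ} (hl : Continuous l) {R : ℝ} (hR : 1 ≤ R) : Integrable fun z => tau R z * l z ^ 2 :=
  ((Pool.Agent.H30M.contDiff_tau R).continuous.mul (hl.pow 2)).integrable_of_hasCompactSupport (Pool.Agent.H30M.hcs_tau hR).mul_right

/-- the maximum of two densities -/
theorem max_dens {l l' lm : ℂ → ℝ} (hl : Continuous l) (hl' : Continuous l') (h : ∀ z, 0 ≤ l z) (h' : ∀ z, 0 ≤ l' z) {A A' K K' : ℝ}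
    (he : ∀ R, 1 ≤ R → ∫ z, tau R z * l z ^ 2 ≤ A * (∫ z, tau R z * lm z ^ 2) + K)
    (he' : ∀ R, 1 ≤ R → ∫ z, tau R z * l' z ^ 2 ≤ A' * (∫ z, tau R z * lm z ^ 2) + K') :
    ∀ R, 1 ≤ R → ∫ z, tau R z * max (l z) (l' z) ^ 2 ≤ (A + A') * (∫ z, tau R z * lm z ^ 2) + (K + K') := by
  intro R hR
  have h1 : ∫ z, tau R z * max (l z) (l' z) ^ 2 ≤ ∫ z, (tau R z * l z ^ 2 + tau R z * l' z ^ 2) := by
    refine integral_mono (int_tau (hl.max hl') hR) ((int_tau hl hR).add (int_tau hl' hR)) fun z => ?_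
    show tau R z * max (l z) (l' z) ^ 2 ≤ tau R z * l z ^ 2 + tau R z * l' z ^ 2
    rw [← mul_add]
    refine mul_le_mul_of_nonneg_left ?_ (Pool.Agent.H30M.tau_nonneg hR z)
    rcases max_choice (l z) (l' z) with h2 | h2 <;> rw [h2]
    · exact le_add_of_nonneg_right (sq_nonneg _)
    · exact le_add_of_nonneg_left (sq_nonneg _)
  rw [integral_add (int_tau hl hR) (int_tau hl' hR)] at h1
  have h2 := he R hR
  have h3 := he' R hR
  linarith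

end SDE

open SDE in
/-- `energy` of MQ2/Energy, then `root_energy` for both axes (exchanged coordinates for `{y = 0}`) -/
theorem exists_l1 {al be r s B : ℝ} (hal : -1 < al) (hbe : -1 < be) (hs : 0 < s) (hsr : s < r) (hB : 0 ≤ B) : ∃ A : ℝ, 0 ≤ A ∧
    ∀ (Om : Set ℂ) (p : ℂ → ℂ × ℂ) (lm : ℂ → ℝ), IsOpen Om → (∀ z ∈ Om, AnalyticAt ℂ p z) → (∀ z ∈ Om, p z ∈ ball (0 : ℂ × ℂ) r) →
    (∀ t < r, IsClosed {z | z ∈ Om ∧ p z ∈ closedBall (0 : ℂ × ℂ) t}) → (∀ z ∈ Om, ∃ᶠ w in 𝓝 z, p w ≠ 0) → Avoid al be Om p → Continuous lm →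
    (∀ z, 0 ≤ lm z) → (∀ z ∈ Om, ‖deriv p z‖ ≤ B * lm z) →
    ∃ (l₁ : ℂ → ℝ) (K : ℝ), Continuous l₁ ∧ (∀ z, lm z ≤ l₁ z) ∧ (∀ R, 1 ≤ R → ∫ z, tau R z * l₁ z ^ 2 ≤ A * (∫ z, tau R z * lm z ^ 2) + K) ∧
      EnB Om p s l₁ ∧ Rt al be Om p s l₁ := by
  obtain ⟨A₁, hA₁, h₁⟩ := energy hs hsr hB
  obtain ⟨A₂, hA₂, h₂⟩ := root_energy hal hs hsr hB
  obtain ⟨A₃, hA₃, h₃⟩ := root_energy hbe hs hsr hB
  refine ⟨A₁ + ((A₂ + 1) + (A₃ + 1)), by positivity, ?_⟩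
  intro Om p lm hO hpa hpb hpc hpn hAv hlc hl0 hpB
  obtain ⟨l₁, K₁, a1, a2, a3, a4⟩ := h₁ Om p lm hO hpa hpb hpc hpn hlc hl0 hpB
  have hone : ∀ R, 1 ≤ R → ∫ z, tau R z * lm z ^ 2 ≤ 1 * (∫ z, tau R z * lm z ^ 2) + 0 := fun R _ => by rw [one_mul, add_zero]
  have hI : ∀ R : ℝ, 1 ≤ R → 0 ≤ ∫ z, tau R z * lm z ^ 2 := fun R hR => integral_nonneg fun z => mul_nonneg (Pool.Agent.H30M.tau_nonneg hR z) (sq_nonneg _)
  -- the first axis
  obtain ⟨l₂, K₂, b1, b2, b3, b4⟩ : ∃ (l₂ : ℂ → ℝ) (K₂ : ℝ), Continuous l₂ ∧ (∀ z, lm z ≤ l₂ z) ∧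
      (∀ R, 1 ≤ R → ∫ z, tau R z * l₂ z ^ 2 ≤ (A₂ + 1) * (∫ z, tau R z * lm z ^ 2) + K₂) ∧
      ∀ z ∈ Om, p z ∈ closedBall (0 : ℂ × ℂ) s → al < 0 → ‖(deriv p z).1‖ * ‖(p z).1‖ ^ al ≤ l₂ z := by
    by_cases ha : al < 0
    · obtain ⟨l₂, K₂, b1, b2, b3, b4⟩ := h₂ Om p lm hO hpa hpb hpc (hAv.fst ha) hlc hl0 hpB
      refine ⟨l₂, K₂, b1, b2, fun R hR => (b3 R hR).trans ?_, fun z hz hz' _ => b4 z hz hz'⟩
      nlinarith [hI R hR]
    · refine ⟨lm, 0, hlc, fun z => le_rfl, fun R hR => ?_, fun z _ _ h => absurd h ha⟩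
      nlinarith [hI R hR, mul_nonneg hA₂ (hI R hR)]
  -- the second axis
  obtain ⟨l₃, K₃, c1, c2, c3, c4⟩ : ∃ (l₃ : ℂ → ℝ) (K₃ : ℝ), Continuous l₃ ∧ (∀ z, lm z ≤ l₃ z) ∧
      (∀ R, 1 ≤ R → ∫ z, tau R z * l₃ z ^ 2 ≤ (A₃ + 1) * (∫ z, tau R z * lm z ^ 2) + K₃) ∧
      ∀ z ∈ Om, p z ∈ closedBall (0 : ℂ × ℂ) s → be < 0 → ‖(deriv p z).2‖ * ‖(p z).2‖ ^ be ≤ l₃ z := by
    by_cases hb : be < 0
    · have hd : ∀ z ∈ Om, deriv (fun w => (p w).swap) z = (deriv p z).swap := fun z hz => deriv_swap (hpa z hz).differentiableAt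
      have hball : ∀ (t : ℝ) (z : ℂ), (p z).swap ∈ closedBall (0 : ℂ × ℂ) t ↔ p z ∈ closedBall (0 : ℂ × ℂ) t := by
        intro t z
        rw [mem_closedBall_zero_iff, mem_closedBall_zero_iff, norm_swap']
      obtain ⟨l₃, K₃, c1, c2, c3, c4⟩ := h₃ Om (fun z => (p z).swap) lm hO (fun z hz => (an_swap (p z)).comp (hpa z hz))
        (fun z hz => by
          have := hpb z hz
          rw [mem_ball_zero_iff] at this ⊢
          rwa [norm_swap'])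
        (fun t ht => by
          convert hpc t ht using 4 with z
          exact hball t z)
        (fun z hz => hAv.snd hb z hz) hlc hl0 (fun z hz => by
          rw [hd z hz, norm_swap']
          exact hpB z hz)
      refine ⟨l₃, K₃, c1, c2, fun R hR => (c3 R hR).trans ?_, fun z hz hz' _ => ?_⟩
      · nlinarith [hI R hR]
      · have h5 := c4 z hz ((hball s z).2 hz')
        rw [hd z hz] at h5
        exact h5
    · refine ⟨lm, 0, hlc, fun z => le_rfl, fun R hR => ?_, fun z _ _ h => absurd h hb⟩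
      nlinarith [hI R hR, mul_nonneg hA₃ (hI R hR)]
  have hl₁ : ∀ z, 0 ≤ l₁ z := fun z => (hl0 z).trans (a2 z)
  have hl₂ : ∀ z, 0 ≤ l₂ z := fun z => (hl0 z).trans (b2 z)
  have hl₃ : ∀ z, 0 ≤ l₃ z := fun z => (hl0 z).trans (c2 z)
  refine ⟨fun z => max (l₁ z) (max (l₂ z) (l₃ z)), K₁ + (K₂ + K₃), a1.max (b1.max c1), fun z => (a2 z).trans (le_max_left _ _),
    max_dens a1 (b1.max c1) hl₁ (fun z => (hl₂ z).trans (le_max_left _ _)) a3 (max_dens b1 c1 hl₂ hl₃ b3 c3), ?_, ?_⟩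
  · intro z hz hz'
    obtain ⟨e1, e2⟩ := a4 z hz hz'
    exact ⟨fun h ha hb => (e1 h ha hb).trans (mul_le_mul_of_nonneg_left (le_max_left _ _) (by positivity)),
      fun h ha hb => (e2 h ha hb).trans (mul_le_mul_of_nonneg_left (le_max_left _ _) (by positivity))⟩
  · intro z hz hz'
    exact ⟨fun h => (b4 z hz hz' h).trans ((le_max_left _ _).trans (le_max_right _ _)),
      fun h => (c4 z hz hz' h).trans ((le_max_right _ _).trans (le_max_right _ _))⟩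

/-! ## the tangent directions -/

namespace SDE

/-- the first component of the transforms near the point at infinity -/
theorem child_inf1 {e ι : ℕ} {v : ℂ × ℂ → ℂ × ℂ} {w : ℂ → ℂ × ℂ → ℂ × ℂ} {wi : ℂ × ℂ → ℂ × ℂ} (hw : ∀ t, Child e ι t v (w t))
    (hwi : Child e ι 0 (swv v) wi) : ∀ᶠ u in 𝓝[≠] (0 : ℂ), u ^ e * (w u⁻¹ 0).1 = u * (wi (0, u)).1 := by
  have hc : Tendsto (fun u : ℂ => ((0 : ℂ), u)) (𝓝[≠] (0 : ℂ)) (𝓝 (0 : ℂ × ℂ)) := by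
    have : Continuous fun u : ℂ => ((0 : ℂ), u) := by fun_prop
    exact (this.tendsto' 0 0 rfl).mono_left nhdsWithin_le_nhds
  have e1 : ∀ᶠ u in 𝓝[≠] (0 : ℂ), AnalyticAt ℂ wi (0, u) := hc.eventually hwi.an.eventually_analyticAt
  have e2 : ∀ᶠ u in 𝓝[≠] (0 : ℂ), ∀ᶠ p in 𝓝 ((0 : ℂ), u), (swv v (be 0 p)).1 = p.1 ^ e * (wi p).1 :=
    hc.eventually (eventually_eventually_nhds.2 hwi.fst)
  have e3 : ∀ᶠ u in 𝓝[≠] (0 : ℂ), ∀ᶠ p in 𝓝 ((0 : ℂ), u), (swv v (be 0 p)).2 = (p.2 + 0) * (swv v (be 0 p)).1 + p.1 ^ (e + 1) * (wi p).2 :=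
    hc.eventually (eventually_eventually_nhds.2 hwi.snd)
  have e5 : ∀ᶠ u in 𝓝[≠] (0 : ℂ), u ≠ 0 := eventually_mem_nhdsWithin
  filter_upwards [e1, e2, e3, e5] with u h1 h2 h3 u0
  have ca : Tendsto (fun x : ℂ => (x * u, (0 : ℂ))) (𝓝[≠] (0 : ℂ)) (𝓝 (0 : ℂ × ℂ)) := by
    have : Continuous fun x : ℂ => (x * u, (0 : ℂ)) := by fun_prop
    exact (this.tendsto' 0 0 (by simp)).mono_left nhdsWithin_le_nhds
  have cb : Tendsto (fun x : ℂ => (x, u)) (𝓝[≠] (0 : ℂ)) (𝓝 ((0 : ℂ), u)) := by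
    have : Continuous fun x : ℂ => (x, u) := by fun_prop
    exact (this.tendsto 0).mono_left nhdsWithin_le_nhds
  have hx : ∀ᶠ x in 𝓝[≠] (0 : ℂ), x ≠ 0 := eventually_mem_nhdsWithin
  have hbe : ∀ x : ℂ, be u⁻¹ (x * u, 0) = (x * u, x) := by
    intro x
    simp only [be, zero_add, Prod.mk.injEq, true_and]
    field_simp
  have hbe' : ∀ x : ℂ, swv v (be 0 (x, u)) = ((v (x * u, x)).2, (v (x * u, x)).1) := by
    intro x
    simp [be, swv, Prod.swap]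
  have l1 : Tendsto (fun x : ℂ => w u⁻¹ (x * u, 0)) (𝓝[≠] (0 : ℂ)) (𝓝 (w u⁻¹ 0)) := (hw u⁻¹).an.continuousAt.tendsto.comp ca
  have l2 : Tendsto (fun x : ℂ => wi (x, u)) (𝓝[≠] (0 : ℂ)) (𝓝 (wi (0, u))) := h1.continuousAt.tendsto.comp cb
  have lx : Tendsto (fun x : ℂ => x) (𝓝[≠] (0 : ℂ)) (𝓝 0) := nhdsWithin_le_nhds
  have f1 := ca.eventually (hw u⁻¹).fst
  have g1 := cb.eventually h2
  have g2 := cb.eventually h3
  simp only [hbe] at f1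
  simp only [hbe'] at g1 g2
  have k1 : u ^ e * (w u⁻¹ 0).1 = u * (wi (0, u)).1 + 0 * (wi (0, u)).2 := by
    refine eq_of_punctured (((continuous_fst.tendsto _).comp l1).const_mul (u ^ e))
      ((((continuous_fst.tendsto _).comp l2).const_mul u).add (lx.mul ((continuous_snd.tendsto _).comp l2))) ?_
    filter_upwards [hx, f1, g1, g2] with x x0 a1 b1 b2
    simp only [Function.comp_apply]
    have : x ^ e * (u ^ e * (w u⁻¹ (x * u, 0)).1) = x ^ e * (u * (wi (x, u)).1 + x * (wi (x, u)).2) := by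
      rw [b2, b1, mul_pow] at a1
      linear_combination -a1
    exact mul_left_cancel₀ (pow_ne_zero _ x0) this
  rw [zero_mul, add_zero] at k1
  exact k1

end SDE

open SDE in
/-- as `sing_finite` -/
theorem tan_finite {e : ℕ} {v : ℂ × ℂ → ℂ × ℂ} {w : ℂ → ℂ × ℂ → ℂ × ℂ} {wi : ℂ × ℂ → ℂ × ℂ} (hw : ∀ t, Child e 0 t v (w t))
    (hwi : Child e 0 0 (swv v) wi) : {t : ℂ | (w t 0).1 = 0}.Finite := by
  have e5 : ∀ᶠ u in 𝓝[≠] (0 : ℂ), u ≠ 0 := eventually_mem_nhdsWithin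
  have hinv : ∀ {v' w' : ℂ × ℂ → ℂ × ℂ} {t' : ℂ}, Child e 0 t' v' w' → ∀ᶠ y in 𝓝[≠] (0 : ℂ), (w' (0, y)).1 ≠ 0 := fun h =>
    (h.inv.resolve_left fun h1 => absurd h1.1 (by norm_num)).2
  have hinf : ∀ᶠ u in 𝓝[≠] (0 : ℂ), (w u⁻¹ 0).1 ≠ 0 := by
    filter_upwards [child_inf1 hw hwi, hinv hwi, e5] with u h1 h2 h3 h4
    rw [h4, mul_zero] at h1
    exact (mul_ne_zero h3 h2) h1.symm
  obtain ⟨ε, hε, hb⟩ := Metric.mem_nhdsWithin_iff.1 hinf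
  have hsub : {t : ℂ | (w t 0).1 = 0} ⊆ closedBall 0 (2 / ε) := by
    intro t ht
    by_contra hcon
    simp only [mem_closedBall, dist_zero_right, not_le] at hcon
    have h1 : 0 < ‖t‖ := lt_trans (by positivity) hcon
    have t0 : t ≠ 0 := norm_pos_iff.1 h1
    have h2 : t⁻¹ ∈ ball (0 : ℂ) ε ∩ {0}ᶜ := by
      refine ⟨?_, inv_ne_zero t0⟩
      simp only [mem_ball, dist_zero_right, norm_inv]
      rw [inv_lt_comm₀ h1 hε]
      refine lt_of_le_of_lt ?_ hcon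
      rw [inv_eq_one_div]
      gcongr
      norm_num
    have h3 : (w t⁻¹⁻¹ 0).1 ≠ 0 := hb h2
    rw [inv_inv] at h3
    exact h3 ht
  by_contra hinf
  obtain ⟨t, -, ht⟩ := Set.Infinite.exists_accPt_of_subset_isCompact hinf (isCompact_closedBall (0 : ℂ) (2 / ε)) hsub
  have h1 : ∀ᶠ u in 𝓝[≠] (0 : ℂ), (w (t + u) 0).1 ≠ 0 := by
    filter_upwards [(child_shift hw t).filter_mono nhdsWithin_le_nhds, hinv (hw t)] with u a b
    rw [a]
    exact b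
  have h2 : ∀ᶠ s in 𝓝[≠] t, (w s 0).1 ≠ 0 := by
    have hm : Tendsto (fun s : ℂ => s - t) (𝓝[≠] t) (𝓝[≠] (0 : ℂ)) := by
      refine tendsto_nhdsWithin_iff.2 ⟨?_, ?_⟩
      · have : Continuous fun s : ℂ => s - t := by fun_prop
        simpa using (this.tendsto t).mono_left nhdsWithin_le_nhds
      · filter_upwards [self_mem_nhdsWithin] with s hs
        exact sub_ne_zero.2 hs
    filter_upwards [hm.eventually h1] with s hs
    simpa using hs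
  exact (accPt_iff_frequently_nhdsNE.1 ht) (h2.mono fun s hs => by simpa using hs)

/-! ## the weights of the children -/

/-- the weights of the children contain the axes -/
theorem axW_child {al be : ℝ} {e ι m : ℕ} {t : ℂ} {v w : ℂ × ℂ → ℂ × ℂ} {g g' : ℂ × ℂ → ℂ} (hw : Child e ι t v w) (hA : AxW al be v g)
    (hg' : AnalyticAt ℂ g' 0) (hm : ∀ᶠ p in 𝓝 (0 : ℂ × ℂ), g (MQ2.be t p) = p.1 ^ m * g' p) :
    AxW (1 + al + be) (if t = 0 then be else 0) w (gt ι g') where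
  fst := by
    intro _ h
    rcases hw.inv with h1 | h1
    · refine ⟨g', hg', Eventually.of_forall fun p => ?_⟩
      show p.1 ^ ι * g' p = p.1 * g' p
      rw [h1.1, pow_one]
    · obtain ⟨y, h2, h3⟩ := (h1.2.and (h.filter_mono nhdsWithin_le_nhds)).exists
      exact absurd h3 h2
  snd := by
    intro hbe h
    have ht : t = 0 := by
      by_contra ht
      rw [if_neg ht] at hbe
      exact lt_irrefl _ hbe
    subst ht
    rw [if_pos rfl] at hbe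
    have hl : Tendsto (fun x : ℂ => (x, (0 : ℂ))) (𝓝 0) (𝓝 0) := (by fun_prop : Continuous fun x : ℂ => (x, (0 : ℂ))).tendsto' _ _ rfl
    have hbx : ∀ x : ℂ, MQ2.be 0 (x, 0) = (x, 0) := by
      intro x
      simp [MQ2.be]
    have hv0 : ∀ᶠ x in 𝓝 (0 : ℂ), (v (x, 0)).2 = 0 := by
      filter_upwards [hl.eventually hw.snd, h] with x h1 h2
      rw [hbx] at h1
      rw [h1]
      simp [h2]
    obtain ⟨g₀, hg₀, hgg⟩ := hA.snd hbe hv0
    have h1 : ∀ᶠ x in 𝓝[≠] (0 : ℂ), g' (x, 0) = 0 := by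
      filter_upwards [(hl.eventually hm).filter_mono nhdsWithin_le_nhds, (hl.eventually hgg).filter_mono nhdsWithin_le_nhds, self_mem_nhdsWithin] with x a1 a2 hx
      rw [hbx, a2] at a1
      simp only [zero_mul] at a1
      exact (mul_eq_zero.1 a1.symm).resolve_left (pow_ne_zero m hx)
    have h2 : AnalyticAt ℂ (fun x : ℂ => g' (x, 0)) 0 :=
      AnalyticAt.fun_comp (g := g') (f := fun x : ℂ => (x, (0 : ℂ))) (by exact hg') (analyticAt_id.prod analyticAt_const)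
    have h3 : ∀ᶠ x in 𝓝 (0 : ℂ), g' (x, 0) = 0 := by
      rcases h2.eventually_eq_zero_or_eventually_ne_zero with h3 | h3
      · exact h3
      · obtain ⟨x, h4, h5⟩ := (h1.and h3).exists
        exact absurd h4 h5
    obtain ⟨k, hk, hke⟩ := Pool.Agent.H17BP.exists_div_y hg' h3
    refine ⟨fun p => p.1 ^ ι * k p, (analyticAt_fst.pow ι).mul hk, ?_⟩
    filter_upwards [hke] with p hp
    show p.1 ^ ι * g' p = p.2 * (p.1 ^ ι * k p)
    rw [hp]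
    ring

end Pool.Agent.MQL

end
end

section

/-!
# MQL SDW: the package of a chart in exchanged coordinates
-/

set_option autoImplicit false

open Topology Filter Metric MeasureTheory Asymptotics Laplacian

noncomputable section

namespace Pool.Agent.MQL

open Pool.Agent.H36.BP (EN)
open Pool.Agent.H30M (tau LogSing)
open Pool.Agent.MQ Pool.Agent.MQ2

theorem Rt.swap {al be : ℝ} {Om : Set ℂ} {p : ℂ → ℂ × ℂ} {s : ℝ} {l₁ : ℂ → ℝ} (hp : ∀ z ∈ Om, AnalyticAt ℂ p z) (h : Rt al be Om p s l₁) :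
    Rt be al Om (fun z => (p z).swap) s l₁ := by
  intro z hz hb
  rw [mem_closedBall_zero_iff, norm_swap', ← mem_closedBall_zero_iff] at hb
  have h1 := h z hz hb
  rw [deriv_swap (hp z hz).differentiableAt]
  exact ⟨h1.2, h1.1⟩

theorem dirD_swap {al be : ℝ} {v : ℂ × ℂ → ℂ × ℂ} {g : ℂ × ℂ → ℂ} {N r : ℝ} {Con : ℕ → (ℂ × ℂ → ℂ) → Prop} {re B A C₀ : ℝ}
    {O K : Set ℂ → (ℂ → ℂ × ℂ) → Set ℂ} (hO : ∀ Om p, O Om p ⊆ Om)
    (h : DirD be al (swv v) (fun p => g p.swap) N r Con re B A C₀ O K) :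
    DirD al be v g N r (fun n q => Con n fun p => q p.swap) re B A C₀ (fun Om p => O Om fun z => (p z).swap) fun Om p => K Om fun z => (p z).swap := by
  intro d n q ψ hd hn hq hψ hCon M F Q lm Om p hDat hAv ell hell l₁ hl₁ hle hEn hRt
  have hq' : AnalyticAt ℂ (fun p : ℂ × ℂ => q p.swap) 0 := AnalyticAt.comp (f := fun q : ℂ × ℂ => q.swap) (g := q) (x := 0) hq (an_swap 0)
  have hψ' : ContDiffAt ℝ 1 (fun p : ℂ × ℂ => ψ p.swap) 0 :=
    ContDiffAt.comp (g := ψ) (f := fun q : ℂ × ℂ => q.swap) 0 hψ (((an_swap 0).contDiffAt (n := 1)).restrict_scalars ℝ)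
  have hell' : EllP Om (fun z => (p z).swap) re ell := by
    intro z hz h0 hb
    have h1 : p z ≠ 0 := fun h2 => h0 (by
      show (p z).swap = 0
      rw [h2]
      rfl)
    have h2 : p z ∈ ball (0 : ℂ × ℂ) re := by
      rw [mem_ball_zero_iff] at hb ⊢
      rwa [norm_swap'] at hb
    rw [hell z hz h1 h2, Prod.fst_swap, Prod.snd_swap, add_comm]
  have hEn' : EnB Om (fun z => (p z).swap) re l₁ := by
    intro z hz hb
    rw [mem_closedBall_zero_iff, norm_swap', ← mem_closedBall_zero_iff] at hb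
    exact ⟨(hEn z hz hb).2, (hEn z hz hb).1⟩
  obtain ⟨C, l, η, D, X, Φ, err, u, h1, h2, h3, h4, h5, h6⟩ := h d n _ _ hd hn hq' hψ' hCon M F Q lm Om _ hDat.swap hAv.swap ell hell' l₁ hl₁ hle hEn'
    (hRt.swap hDat.crv.an)
  refine ⟨C, l, η, D, X, Φ, err, u, h1, h2, h3, h4, h5.congr (fun z hz => (DDv_swap' hDat.crv (hO _ _ hz)).symm) ?_, h6⟩
  intro z hz hV
  obtain ⟨a1, a2, a3, a4⟩ := hV
  have e1 := ztv_swap' hDat.crv a1
  refine ⟨⟨a1, by rw [e1]; exact a2, by simpa only [Prod.swap_swap] using a3, by rw [JD_swap]; exact a4⟩, ?_⟩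
  unfold LL
  rw [e1]
  simp only [Prod.swap_swap, JD_swap]

end Pool.Agent.MQL

end
end

section

/-!
# MQL StepD: the blow-up step (logarithmic version)

The special directions are `0`, `∞`, the singular points of the transform and, if the exceptional line is not invariant, the points where the transform is tangent
to it.
-/

set_option autoImplicit false

open Topology Filter Metric MeasureTheory Asymptotics Laplacian

noncomputable section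

namespace Pool.Agent.MQL

open Pool.Agent.H36.BP (EN)
open Pool.Agent.H30M (tau LogSing)
open Pool.Agent.MQ Pool.Agent.MQ2

/-- the package of a direction, both cases -/
theorem dirD_all {P : (ℂ × ℂ → ℂ) → Prop} {al be : ℝ} (hal : -1 < al) (hbe : -1 < be) {e ι m : ℕ} {t : ℂ} {v w : ℂ × ℂ → ℂ × ℂ} {g g' : ℂ × ℂ → ℂ}
    (S : Prop) (hS : ¬ S → t ≠ 0 ∧ w 0 ≠ 0 ∧ (ι = 0 → (w 0).1 ≠ 0)) (hv : Iso v)
    (hw : Child e ι t v w) (hg : Wt v g) (hg' : AnalyticAt ℂ g' 0)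
    (hm : ∀ᶠ p in 𝓝 (0 : ℂ × ℂ), g (MQ2.be t p) = p.1 ^ m * g' p) (hP : P g) {r re : ℝ} (hr : 0 < r) (hre : 0 < re)
    (hgr : ∀ (Om : Set ℂ) (p : ℂ → ℂ × ℂ), Crv1 v r Om p → (∀ z ∈ Om, ∃ᶠ w in 𝓝 z, g (p w) ≠ 0) → ∀ z ∈ Om, v (p z) ≠ 0 → g (p z) ≠ 0)
    (hwt : Wt w (gt ι g')) (hAw : AxW (1 + al + be) (if t = 0 then be else 0) w (gt ι g'))
    {k : ℕ} {c : Fin k → ℕ → ℂ → ℂ × ℂ} (hG : ∀ g : ℂ × ℂ → ℂ, TG ι t P g → Wt w g → AxW (1 + al + be) (if t = 0 then be else 0) w g →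
      ∀ᶠ r in 𝓝[>] (0 : ℝ), ∀ s s', 0 < s → s < s' → s' < r → ∀ B, 0 ≤ B → ∃ A C₀ : ℝ, 0 ≤ A ∧ 0 ≤ C₀ ∧
      ∀ (d n : ℕ) (q : ℂ × ℂ → ℂ) (ψ : ℂ × ℂ → ℝ), 1 ≤ d → 1 ≤ n → AnalyticAt ℂ q 0 → ContDiffAt ℝ 1 ψ 0 →
        (∀ i, FZero (c i) g ∨ HasOrd (c i) q n) →
        ∀ (M : ℕ) (F : ℂ → EN M) (Q : ℂ → ℂ) (lm : ℂ → ℝ) (Om : Set ℂ) (p : ℂ → ℂ × ℂ), Dat w g r B d q ψ F Q lm Om p →
          Avoid (1 + al + be) (if t = 0 then be else 0) Om p →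
          LocX w g (JD (1 + al + be) (if t = 0 then be else 0)) {z | z ∈ Om ∧ p z ∈ ball (0 : ℂ × ℂ) s'} p lm s A (C₀ * d / n)) :
    ∀ᶠ ρ in 𝓝[>] (0 : ℝ), ∀ σ, 0 < σ → σ < ρ → ∀ B, 0 ≤ B → ∃ A C₀ : ℝ, 0 ≤ A ∧ 0 ≤ C₀ ∧
      DirD al be v g ((e : ℝ) + 1 + ι - m) r (fun n q => S → ∀ i, FZero (c i) (gt ι g') ∨ HasOrd (c i) (fun x => q (MQ2.be t x)) n) re B A C₀
        (fun Om p => Omt Om p t ρ) (fun Om p => {z | S ∧ z ∈ Kt t ρ σ Om p}) := by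
  by_cases hS' : S
  · have e1 : ∀ ρ σ, (fun Om p => {z | S ∧ z ∈ Kt t ρ σ Om p}) = Kt t ρ σ := fun ρ σ => by
      funext Om p
      ext z
      simp [hS']
    obtain ⟨ρ', h1, h2⟩ := exists_radius (dirD_sing hal hbe hv hw hg hg' hm hP hr hre hgr hwt hAw hG)
    filter_upwards [ev_lt h1] with ρ hρ σ hσ hσρ B hB
    obtain ⟨A, C₀, hA, hC₀, h3⟩ := h2 σ ρ hσ hσρ hρ B hB
    refine ⟨A, C₀, hA, hC₀, ?_⟩
    rw [e1]
    intro d n q ψ hd hn hq hψ hCon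
    exact h3 d n q ψ hd hn hq hψ (hCon hS')
  · have e1 : ∀ ρ σ, (fun Om p => {z | S ∧ z ∈ Kt t ρ σ Om p}) = fun _ _ => ∅ := fun ρ σ => by
      funext Om p
      ext z
      simp [hS']
    obtain ⟨a1, a2, a3⟩ := hS hS'
    filter_upwards [dirD_reg hal hbe a1 hv hw hg hg' hm hr hre hgr hwt a2 a3] with ρ h σ hσ hσρ B hB
    obtain ⟨A, hA, h1⟩ := h B hB
    refine ⟨A, 0, hA, le_rfl, ?_⟩
    rw [e1]
    exact h1 _

/-- the chart of the smaller set -/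
theorem vv_sub {v : ℂ × ℂ → ℂ × ℂ} {g J : ℂ × ℂ → ℂ} {Om : Set ℂ} {p : ℂ → ℂ × ℂ} {s' : ℝ} {Df : ℂ → ℂ} {ell : ℂ → ℝ} {N : ℝ} {l : ℂ → ℝ} {C : ℝ}
    {O K : Set ℂ} {η D X : ℂ → ℂ} {Φ err u : ℂ → ℝ} (h : Cht Df ell (LL v g J p) (VV v g J Om p) N l C O K η D X Φ err u) :
    Cht Df ell (LL v g J p) (VV v g J {z | z ∈ Om ∧ p z ∈ ball (0 : ℂ × ℂ) s'} p) N l C O K η D X Φ err u :=
  h.congr (fun _ _ => rfl) fun _ _ hV => ⟨⟨hV.1.1, hV.2.1, hV.2.2.1, hV.2.2.2⟩, rfl⟩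

theorem goodD_step {P : (ℂ × ℂ → ℂ) → Prop} {al be' : ℝ} (hal : -1 < al) (hbe : -1 < be') {v : ℂ × ℂ → ℂ × ℂ} (hv : Iso v) {e ι : ℕ}
    {w : ℂ → ℂ × ℂ → ℂ × ℂ} {wi : ℂ × ℂ → ℂ × ℂ} (hw : ∀ t, Child e ι t v (w t)) (hwi : Child e ι 0 (swv v) wi)
    (h0 : GoodD (TG ι 0 P) (1 + al + be') be' (w 0)) (hg : ∀ t, t ≠ 0 → GoodD (TG ι t P) (1 + al + be') 0 (w t))
    (hgi : GoodD (TG ι 0 (SG P)) (1 + al + be') al wi) : GoodD P al be' v := by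
  classical
  -- the special directions
  let Sp : ℂ → Prop := fun t => t = 0 ∨ w t 0 = 0 ∨ (ι = 0 ∧ (w t 0).1 = 0)
  have hSfin : Finite {t : ℂ // Sp t} := by
    have h1 : {t : ℂ | Sp t} ⊆ {0} ∪ ({t : ℂ | w t 0 = 0} ∪ {t : ℂ | ι = 0 ∧ (w t 0).1 = 0}) := by
      rintro t (h | h | h)
      · exact Or.inl h
      · exact Or.inr (Or.inl h)
      · exact Or.inr (Or.inr h)
    have h2 : {t : ℂ | ι = 0 ∧ (w t 0).1 = 0}.Finite := by
      by_cases hι : ι = 0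
      · subst hι
        exact (tan_finite hw hwi).subset fun t ht => ht.2
      · convert Set.finite_empty (α := ℂ) using 1
        ext t
        simp [hι]
    exact ((Set.finite_singleton 0).union ((sing_finite hw hwi).union h2)).subset h1 |>.to_subtype
  have hSp : ∀ t, ¬ Sp t → t ≠ 0 ∧ w t 0 ≠ 0 ∧ (ι = 0 → (w t 0).1 ≠ 0) := fun t ht =>
    ⟨fun h => ht (Or.inl h), fun h => ht (Or.inr (Or.inl h)), fun h h' => ht (Or.inr (Or.inr ⟨h, h'⟩))⟩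
  have hgt : ∀ t, GoodD (TG ι t P) (1 + al + be') (if t = 0 then be' else 0) (w t) := by
    intro t
    by_cases ht : t = 0
    · rw [if_pos ht, ht]
      exact h0
    · rw [if_neg ht]
      exact hg t ht
  have hgi' : GoodD (TG ι 0 (SG P)) (1 + be' + al) (if (0 : ℂ) = 0 then al else 0) wi := by
    have hk : 1 + be' + al = 1 + al + be' := by ring
    rw [if_pos rfl, hk]
    exact hgi
  choose mm cc hsep hGG using hgt
  obtain ⟨mi, ci, hsepi, hGGi⟩ := hgi'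
  -- the families
  let I : Type := {x : (Σ t : {t : ℂ // Sp t}, Fin (mm t.1)) // ¬ FZero (cc x.1.1 x.2) (fun p => p.1)} ⊕
    {i : Fin mi // ¬ FZero (ci i) (fun p => p.1)}
  have hIfin : Finite I := inferInstance
  let cI : I → ℕ → ℂ → ℂ × ℂ := fun x => x.elim (fun x N z => MQ2.be x.1.1.1 (cc x.1.1.1 x.1.2 N z)) fun i N z => (MQ2.be 0 (ci i.1 N z)).swap
  have hcI : ∀ x, Sep v (cI x) := by
    rintro (x | i)
    · exact sep_child hv.1 (hw _) (hsep _ _) x.2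
    · exact sep_swap (sep_child hv.swap.1 hwi (hsepi _) i.2)
  let eI := Finite.equivFin I
  refine ⟨Nat.card I, fun i => cI (eI.symm i), fun i => hcI _, ?_⟩
  intro g hP hWt hA
  -- the weights
  obtain ⟨m, hm1, hm2⟩ := wt_child hv.1 hWt
  choose g' hg'an hg'm hg'wt using fun t => hm1 e ι t (w t) (hw t)
  obtain ⟨gi, hgian, hgim, hgiwt⟩ := hm2 e ι wi hwi
  have hWts : Wt (swv v) fun q => g q.swap := hWt.swap
  have hPs : SG P fun q => g q.swap := by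
    unfold SG
    simpa only [Prod.swap_swap] using hP
  filter_upwards [DD_cof hv.1 hv.2.2 hWt, DD_cof hv.swap.1 hv.swap.2.2 hWts, cht_baseD hal hbe hv hWt hA, self_mem_nhdsWithin] with r hr1 hr2 hr3 hr4
    s s' hs hss' hs'r B hB
  have hr0 : 0 < r := hr4
  have hs'0 : 0 < s' := hs.trans hss'
  have hgr : ∀ (Om : Set ℂ) (p : ℂ → ℂ × ℂ), Crv1 v r Om p → (∀ z ∈ Om, ∃ᶠ w in 𝓝 z, g (p w) ≠ 0) → ∀ z ∈ Om, v (p z) ≠ 0 → g (p z) ≠ 0 := by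
    obtain ⟨h, -, h1⟩ := hr1
    exact fun Om p hp hne z hz hvz => (h1 Om p hp hne z hz hvz).1
  have hgrs : ∀ (Om : Set ℂ) (p : ℂ → ℂ × ℂ), Crv1 (swv v) r Om p → (∀ z ∈ Om, ∃ᶠ w in 𝓝 z, g (p w).swap ≠ 0) → ∀ z ∈ Om, swv v (p z) ≠ 0 →
      g (p z).swap ≠ 0 := by
    obtain ⟨h, -, h1⟩ := hr2
    exact fun Om p hp hne z hz hvz => (h1 Om p hp hne z hz hvz).1
  obtain ⟨A₁, hA₁, hEn⟩ := exists_l1 hal hbe hs'0 hs'r hB
  obtain ⟨re, te, Ce, H, hre, hrete, htes, hCe, hHcd, hH0, hHlog, -, -⟩ := exists_ell hs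
  set N : ℝ := (e : ℝ) + 1 + ι - m with hN
  -- the direction `∞`
  have hinf := dirD_all (P := SG P) (m := m) hbe hal True (fun h => absurd trivial h) hv.swap hwi hWts hgian hgim hPs hr0 hre hgrs hgiwt
    (axW_child hwi hA.swap hgian hgim) hGGi
  have hSlt : ∀ᶠ ρ in 𝓝[>] (0 : ℝ), ∀ t : {t : ℂ // Sp t}, ρ * (‖t.1‖ + 1) < 1 / 2 := by
    rw [eventually_all]
    exact fun t => ev_mul_lt (by norm_num)
  obtain ⟨ρi, hρi, hρi1, hρi2, hρi3⟩ := exists_radius (hinf.and (hSlt.and (ev_small 0 hre)))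
  -- the other directions
  have hdir := fun t => dirD_all (P := P) (m := m) hal hbe (Sp t) (hSp t) hv (hw t) hWt (hg'an t) (hg'm t) hP hr0 hre hgr (hg'wt t)
    (axW_child (hw t) hA (hg'an t) (hg'm t)) (hGG t)
  have hex : ∀ t : ℂ, ∃ ρ, 0 < ρ ∧ (∀ σ, 0 < σ → σ < ρ → ∀ B, 0 ≤ B → ∃ A C₀ : ℝ, 0 ≤ A ∧ 0 ≤ C₀ ∧
      DirD al be' v g ((e : ℝ) + 1 + ι - m) r (fun n q => Sp t → ∀ i, FZero (cc t i) (gt ι (g' t)) ∨ HasOrd (cc t i) (fun x => q (MQ2.be t x)) n) re B A C₀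
        (fun Om p => Omt Om p t ρ) (fun Om p => {z | Sp t ∧ z ∈ Kt t ρ σ Om p})) ∧
      (∀ t' : {t : ℂ // Sp t}, t'.1 ≠ t → 2 * ρ < ‖t'.1 - t‖) ∧ ρ < 1 ∧ ρ < re ∧ ρ * (ρ + ‖t‖) < re := by
    intro t
    have h1 : ∀ᶠ ρ in 𝓝[>] (0 : ℝ), ∀ t' : {t : ℂ // Sp t}, t'.1 ≠ t → 2 * ρ < ‖t'.1 - t‖ := by
      rw [eventually_all]
      intro t'
      by_cases h2 : t'.1 = t
      · exact Eventually.of_forall fun ρ h3 => absurd h2 h3
      · have h3 : 0 < ‖t'.1 - t‖ := norm_pos_iff.2 (sub_ne_zero.2 h2)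
        filter_upwards [ev_lt (half_pos h3)] with ρ hρ _
        linarith
    obtain ⟨ρ, a1, a2, a3, a4, a5⟩ := exists_radius ((hdir t).and (h1.and ((ev_lt one_pos).and (ev_small t hre))))
    exact ⟨ρ, a1, a2, a3, a4, a5.1, a5.2⟩
  choose ρ hρ hρD hρS hρ1 hρre hρre' using hex
  -- the finite cover
  obtain ⟨T, hT1, hT2⟩ := (isCompact_closedBall (0 : ℂ) (2 / ρi)).elim_nhds_subcover (fun t => ball t (ρ t)) fun t _ => ball_mem_nhds t (hρ t)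
  -- the radius of the base
  have hb1 : ∀ᶠ x in 𝓝[>] (0 : ℝ), ∀ t ∈ T, x < ρ t := by
    rw [Finset.eventually_all]
    exact fun t _ => ev_lt (hρ t)
  obtain ⟨ρb, hρb, hρb1, hρb2, hρb3⟩ := exists_radius (hb1.and ((ev_lt hρi).and (ev_lt hs)))
  -- the radius of the cores
  have hc1 : ∀ᶠ x in 𝓝[>] (0 : ℝ), ∀ t ∈ T, x * (‖t‖ + 1) < ρb ∧ x * (‖t‖ + 1) < 1 := by
    rw [Finset.eventually_all]
    exact fun t _ => (ev_mul_lt hρb).and (ev_mul_lt one_pos)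
  obtain ⟨σ, hσ, hσ1, hσ2, hσ3⟩ := exists_radius (hc1.and ((ev_lt hρb).and (ev_lt one_pos)))
  have hσρ : ∀ t ∈ T, σ < ρ t := fun t ht => hσ2.trans (hρb1 t ht)
  -- the constants of the charts
  obtain ⟨Ai, Ci, hAi, hCi, hDi⟩ := hρi1 σ hσ (hσ2.trans hρb2) B hB
  have hex2 : ∀ t : {t // t ∈ T}, ∃ A C₀ : ℝ, 0 ≤ A ∧ 0 ≤ C₀ ∧
      DirD al be' v g ((e : ℝ) + 1 + ι - m) r (fun n q => Sp t.1 → ∀ i, FZero (cc t.1 i) (gt ι (g' t.1)) ∨ HasOrd (cc t.1 i) (fun x => q (MQ2.be t.1 x)) n)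
        re B A C₀ (fun Om p => Omt Om p t.1 (ρ t.1)) (fun Om p => {z | Sp t.1 ∧ z ∈ Kt t.1 (ρ t.1) σ Om p}) := fun t =>
    hρD t.1 σ hσ (hσρ t.1 t.2) B hB
  choose At Ct hAt hCt hDt using hex2
  obtain ⟨Cb, hCb, hbase⟩ := hr3 ρb s' hρb hs'r H hHcd N B hB
  let AA : Option {t // t ∈ T} → ℝ := fun i => i.elim Ai At
  let CC : Option {t // t ∈ T} → ℝ := fun i => i.elim Ci Ct
  have hAA : ∀ i, 0 ≤ AA i := by
    rintro (_ | i)
    · exact hAi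
    · exact hAt i
  have hCC : ∀ i, 0 ≤ CC i := by
    rintro (_ | i)
    · exact hCi
    · exact hCt i
  refine ⟨(Fintype.card (Option {t // t ∈ T}) + 1) * (1 + ∑ i, AA i) * A₁, (∑ i, CC i) * A₁, ?_, ?_, ?_⟩
  · have : 0 ≤ ∑ i, AA i := Finset.sum_nonneg fun i _ => hAA i
    positivity
  · exact mul_nonneg (Finset.sum_nonneg fun i _ => hCC i) hA₁
  intro d n q ψ hd hn hq hψ hCon M F Q lm Om p hDat hAv
  have hcrv := hDat.crv
  have hcrvs := crv_swap hDat.crv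
  obtain ⟨l₁, K₁, hl₁, hle, hE, hEnB, hRt⟩ := hEn Om p lm hcrv.isOpen hcrv.an hcrv.mem hcrv.closed hDat.p_ne hAv hDat.lm_cont hDat.lm_nonneg hDat.lm_ge
  have hres' : re ≤ s' := ((hrete.trans htes).trans hss').le
  have hEnB' : EnB Om p re l₁ := fun z hz hb => hEnB z hz (closedBall_subset_closedBall hres' hb)
  have hRt' : Rt al be' Om p re l₁ := fun z hz hb => hRt z hz (closedBall_subset_closedBall hres' hb)
  have hEll : EllP Om p re fun z => H (p z) := fun z hz h0 hb => hHlog _ h0 hb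
  have hl₁0 : ∀ z, 0 ≤ l₁ z := fun z => (hDat.lm_nonneg z).trans (hle z)
  -- contact
  have hConI : ∀ x : I, FZero (cI x) g ∨ HasOrd (cI x) q n := fun x => by
    have := hCon (eI x)
    rwa [Equiv.symm_apply_apply] at this
  have hCont : ∀ t : {t // t ∈ T}, Sp t.1 → ∀ i, FZero (cc t.1 i) (gt ι (g' t.1)) ∨ HasOrd (cc t.1 i) (fun x => q (MQ2.be t.1 x)) n := by
    intro t h0 i
    exact con_child (hw t.1) (hg'an t.1) (hg'm t.1) (hsep t.1 i) fun hx => hConI (Sum.inl ⟨⟨⟨t.1, h0⟩, i⟩, hx⟩)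
  have hConi : ∀ i, FZero (ci i) (gt ι gi) ∨ HasOrd (ci i) (fun x => q (MQ2.be 0 x).swap) n := by
    intro i
    exact con_child (g := fun x => g x.swap) (q := fun x => q x.swap) hwi hgian hgim (hsepi i) fun hx => hConI (Sum.inr ⟨i, hx⟩)
  -- the charts
  let OO : Option {t // t ∈ T} → Set ℂ := fun i => i.elim (Omt Om (fun z => (p z).swap) 0 ρi) fun t => Omt Om p t.1 (ρ t.1)
  let KK : Option {t // t ∈ T} → Set ℂ := fun i => i.elim {z | True ∧ z ∈ Kt 0 ρi σ Om fun z => (p z).swap} fun t => {z | Sp t.1 ∧ z ∈ Kt t.1 (ρ t.1) σ Om p}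
  have hDi' := dirD_swap (v := v) (g := g) (Con := fun n q => True → ∀ i, FZero (ci i) (gt ι gi) ∨ HasOrd (ci i) (fun x => q (MQ2.be 0 x)) n)
    (O := fun Om p => Omt Om p 0 ρi) (K := fun Om p => {z | True ∧ z ∈ Kt 0 ρi σ Om p}) (fun Om p z hz => hz.1) hDi
  have hch : ∀ i, DirC v g (JD al be') N H {z | z ∈ Om ∧ p z ∈ ball (0 : ℂ × ℂ) s'} p (AA i) (CC i * d / n) (OO i) (KK i) l₁ := by
    rintro (_ | t)
    · obtain ⟨C, l, η, D, X, Φ, err, u, h1, h2, h3, h4, h5, h6⟩ := hDi' d n q ψ hd hn hq hψ (fun _ => hConi) M F Q lm Om p hDat hAv _ hEll l₁ hl₁ hle hEnB' hRt'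
      exact ⟨C, l, η, D, X, Φ, err, u, h1, h2, h3, h4, vv_sub h5, h6⟩
    · obtain ⟨C, l, η, D, X, Φ, err, u, h1, h2, h3, h4, h5, h6⟩ := hDt t d n q ψ hd hn hq hψ (hCont t) M F Q lm Om p hDat hAv _ hEll l₁ hl₁ hle hEnB' hRt'
      exact ⟨C, l, η, D, X, Φ, err, u, h1, h2, h3, h4, vv_sub h5, h6⟩
  have hsl : ∀ z ∈ Om, HasSlope p z → HasSlope (fun w => (p w).swap) z → ‖MQ2.slope p z‖ * ‖MQ2.slope (fun w => (p w).swap) z‖ = 1 := by
    intro z hz h1 h2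
    rw [← norm_mul, slope_mul (hcrv.an z hz) h1 h2, norm_one]
  have hKO : ∀ i, KK i ⊆ OO i := by
    rintro (_ | t) z hz
    · exact hz.2.1
    · exact hz.2.1
  have hsub : ∀ i, OO i ⊆ {z | z ∈ Om ∧ p z ∈ ball (0 : ℂ × ℂ) s'} := by
    rintro (_ | t) z hz
    · refine ⟨hz.1, ?_⟩
      have h1 := mem_ball_re (be_pt hz (hcrvs.an z hz.1)).symm hz hρi3.1 hρi3.2
      rw [mem_ball_zero_iff, norm_swap', ← mem_ball_zero_iff] at h1
      exact ball_subset_ball hres' h1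
    · exact ⟨hz.1, ball_subset_ball hres' (mem_ball_re (be_pt hz (hcrv.an z hz.1)).symm hz (hρre t.1) (hρre' t.1))⟩
  have hσ0 := hσ.le
  have hσσ : σ * σ ≤ σ := by nlinarith
  have hdisb : ∀ i, ∀ z ∈ KK i, p z ∈ closedBall (0 : ℂ × ℂ) ρb := by
    rintro (_ | t) z hz
    · have h1 := mem_ball_of_core (hcrvs.an z hz.2.1.1) hz.2 hσ0 hσ2.le (by rw [norm_zero, zero_add]; linarith)
      rw [mem_closedBall_zero_iff, norm_swap', ← mem_closedBall_zero_iff] at h1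
      exact h1
    · refine mem_ball_of_core (hcrv.an z hz.2.1.1) hz.2 hσ0 hσ2.le ?_
      have h1 := (hσ1 t.1 t.2).1
      have h2 : σ * (‖t.1‖ + σ) ≤ σ * (‖t.1‖ + 1) := mul_le_mul_of_nonneg_left (by linarith) hσ0
      linarith
  have hdis : ∀ i j, i ≠ j → ∀ z ∈ KK i, z ∉ OO j := by
    rintro (_ | t) (_ | t') hij z hz hz'
    · exact hij rfl
    · obtain ⟨-, -, a3⟩ := norm_slope_le_of_core hz.2
      have a4 : ‖MQ2.slope p z‖ < ‖t'.1‖ + ρ t'.1 := norm_slope_le_of_mem hz'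
      have a5 := hsl z hz'.1 hz'.2.1 hz.2.1.2.1
      rw [norm_zero, zero_add] at a3
      have a6 : ‖MQ2.slope p z‖ * ‖MQ2.slope (fun w => (p w).swap) z‖ ≤ (‖t'.1‖ + 1) * σ :=
        mul_le_mul (by linarith [hρ1 t'.1]) a3 (norm_nonneg _) (by positivity)
      have a7 := (hσ1 t'.1 t'.2).2
      rw [a5, mul_comm] at a6
      linarith
    · obtain ⟨-, -, a3⟩ := norm_slope_le_of_core hz.2
      have a4 : ‖MQ2.slope (fun w => (p w).swap) z‖ < ‖(0 : ℂ)‖ + ρi := norm_slope_le_of_mem hz'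
      have a5 := hsl z hz'.1 hz.2.1.2.1 hz'.2.1
      rw [norm_zero, zero_add] at a4
      have a6 : ‖MQ2.slope p z‖ * ‖MQ2.slope (fun w => (p w).swap) z‖ ≤ (‖t.1‖ + 1) * ρi :=
        mul_le_mul (by linarith) a4.le (norm_nonneg _) (by positivity)
      have a7 := hρi2 ⟨t.1, hz.1⟩
      rw [a5, mul_comm] at a6
      dsimp only at a7
      linarith
    · have hne : t.1 ≠ t'.1 := fun h => hij (by rw [Subtype.ext h])
      obtain ⟨a1, -, -⟩ := norm_slope_le_of_core hz.2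
      have a2 := hz'.2.2.2
      have a3 := hρS t'.1 ⟨t.1, hz.1⟩ hne
      have a4 : ‖t.1 - t'.1‖ ≤ ‖MQ2.slope p z - t'.1‖ + ‖MQ2.slope p z - t.1‖ := by
        have : t.1 - t'.1 = (MQ2.slope p z - t'.1) - (MQ2.slope p z - t.1) := by ring
        rw [this]
        exact norm_sub_le _ _
      have a5 := hσρ t'.1 t'.2
      dsimp only at a3
      linarith
  have hcov : ∀ z ∈ {z | z ∈ Om ∧ p z ∈ ball (0 : ℂ × ℂ) s'}, p z ∈ closedBall (0 : ℂ × ℂ) ρb → ∃ i, z ∈ OO i := by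
    rintro z ⟨hz, -⟩ hb
    have hb' : ‖p z‖ ≤ ρb := by rwa [mem_closedBall_zero_iff] at hb
    rcases slope_cover (hcrv.an z hz) (hDat.p_ne z hz) (K := 2 / ρi) (by positivity) with ⟨a1, a2⟩ | ⟨a1, a2⟩
    · have h1 : MQ2.slope p z ∈ closedBall (0 : ℂ) (2 / ρi) := by rwa [mem_closedBall_zero_iff]
      obtain ⟨t, ht⟩ := Set.mem_iUnion.1 (hT2 h1)
      obtain ⟨htT, ht2⟩ := Set.mem_iUnion.1 ht
      refine ⟨some ⟨t, htT⟩, hz, a1, ?_, ?_⟩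
      · exact (norm_fst_le (p z)).trans_lt (hb'.trans_lt (hρb1 t htT))
      · rwa [mem_ball, dist_eq_norm] at ht2
    · refine ⟨none, hz, a1, ?_, ?_⟩
      · exact (norm_snd_le (p z)).trans_lt (hb'.trans_lt hρb2)
      · rw [sub_zero]
        refine a2.trans_lt ?_
        rw [one_div_div]
        linarith
  have hδ : ∀ i, 0 ≤ CC i * d / n := fun i => div_nonneg (mul_nonneg (hCC i) (Nat.cast_nonneg _)) (Nat.cast_nonneg _)
  have hbase' := vv_sub (s' := s') (hbase Om p l₁ hcrv hDat.g_ne hAv hl₁0 (fun z hz => (hDat.lm_ge z hz).trans (mul_le_mul_of_nonneg_left (hle z) hB)) hRt)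
  have hset : {z | z ∈ Om ∧ p z ∈ ball (0 : ℂ × ℂ) s' ∧ p z ∉ closedBall (0 : ℂ × ℂ) ρb} =
      {z | z ∈ {z | z ∈ Om ∧ p z ∈ ball (0 : ℂ × ℂ) s'} ∧ p z ∉ closedBall (0 : ℂ × ℂ) ρb} := by
    ext z
    simp only [Set.mem_ofPred_eq, and_assoc]
  rw [hset] at hbase'
  have hfin := locX_of_charts htes hH0 hρb3 hAA hδ (fun z hz => hcrv.an z hz.1) hDat.lm_nonneg hle hl₁ hE hCb hbase'
    hKO hsub hcov hdisb hdis hch
  have e1 : (∑ i, CC i * (d : ℝ) / n) * A₁ = (∑ i, CC i) * A₁ * d / n := by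
    rw [← Finset.sum_div, ← Finset.sum_mul]
    ring
  rw [e1] at hfin
  exact hfin

end Pool.Agent.MQL

end
end
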