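import Pool.Agent.H43.TL2.M56
import Pool.Agent.H43.TL2.M60

/-! The parts of this file: MQ.LNode, MQ2.TAxes. -/

section

/-!
# MQ LNode: the normal bundle half of the local package at a node

`η = conj (a_x x' / a + b_y y' / b) + ∑ (1 - χ_i) conj (a_i ζ')`, the sum over the axes which are not in `{l = 0}`.
-/

set_option autoImplicit false

open Topology Filter Metric MeasureTheory

noncomputable section

namespace Pool.Agent.MQ

open Pool.Agent.H36.BP (EN fs)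
open Pool.Agent.H30M (tau tau_nonneg)
open AxisA

/-- one axis which is not in `{l = 0}` -/
theorem ax_piece : ∃ c₁ : ℝ, 0 < c₁ ∧ ∀ {M : ℕ} {F : ℂ → EN M} (_ : Differentiable ℂ F) (_ : ∀ z, F z ≠ 0) {Qf : ℂ → ℂ} (_ : Differentiable ℂ Qf) {d : ℕ}
    (_ : ∀ z, ‖Qf z‖ ≤ ‖F z‖ ^ d) {U : Set ℂ} {x y a b : ℂ → ℂ} {K ρ : ℝ} (_ : 0 ≤ K) (_ : Axis0 U x y a b K ρ)
    {n : ℕ} (_ : 1 ≤ n) {r₀ η s b₀ : ℝ} (_ : 0 < η) (_ : 2 * η ≤ r₀) (_ : r₀ < s) (_ : s < ρ)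
    (_ : ∀ z ∈ U, ‖x z‖ ≤ η → r₀ / 2 ≤ ‖y z‖ → ‖y z‖ ≤ r₀ → Qf z ≠ 0 ∧ b₀ ≤ lu F Qf d z ∧ lu F Qf d z ≤ b₀ + 2 * n ∧
      (n / 2) * ‖b z‖ ≤ ‖gr (lu F Qf d) z‖),
    ∃ (C : ℝ) (H : ℂ → ℂ) (err : ℂ → ℝ), 0 ≤ C ∧ (∀ z ∈ U, ContDiffAt ℝ 1 H z) ∧ Continuous err ∧
      (∀ z ∈ U, s ≤ ‖x z‖ ∨ s ≤ ‖y z‖ → H z = (starRingEnd ℂ) (a z) ∧ err z = 0) ∧
      (∀ z ∈ U, ‖H z‖ ≤ C * max ‖deriv x z‖ ‖deriv y z‖) ∧ (∀ z, 0 ≤ err z) ∧ (∀ z ∈ U, 0 ≤ dv H z + err z) ∧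
      ∀ R, 1 ≤ R → ∫ z, tau R z * err z ≤ c₁ * K * (d / n) * En F R + C := by
  obtain ⟨M, hM0, hM⟩ := st_deriv_bdd
  refine ⟨96 * M, by positivity, ?_⟩
  intro N F hF h0 Qf hQ d hQF U x y a b K ρ hK h n hn r₀ η s b₀ hη0 h2η hr hs hreg
  have hη : η ≤ r₀ := by linarith
  have hr0 : 0 < r₀ := by linarith
  have hrρ : r₀ < ρ := hr.trans hs
  obtain ⟨C₁, hC₁⟩ := ax_int hM0 hM hF h0 hQ hQF hK h hn hη0 hη hrρ hreg
  refine ⟨max C₁ (max (2 / η) (2 * K / r₀)), fun w => ((1 - chi U x y η r₀ w : ℝ) : ℂ) * (starRingEnd ℂ) (a w),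
    fun z => max 0 (ip (gr (chi U x y η r₀) z) ((starRingEnd ℂ) (a z))), ?_, fun z hz => (ax_field h hη0 hη hrρ hz).1,
    continuous_const.max (continuous_ip_chi h hη0 hη hrρ), ?_, ?_, fun z => le_max_left _ _, ?_, ?_⟩
  · exact le_max_of_le_right (le_max_of_le_left (by positivity))
  · intro z hz hsz
    have hT : z ∉ TT U x y η r₀ := by
      rintro ⟨-, h1, h2⟩
      rcases hsz with h3 | h3 <;> linarith
    have h1 : chi U x y η r₀ z = 0 := by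
      by_contra h2
      exact hT (mem_TT_of_ne hη0 hr0 h2)
    refine ⟨?_, ?_⟩
    · simp only [h1, sub_zero, Complex.ofReal_one, one_mul]
    · simp only [gr_chi_zero h hη0 hη hrρ hT, ip_zero_left, max_self]
  · intro z hz
    have hc0 : 0 ≤ 1 - chi U x y η r₀ z := sub_nonneg.2 (chi_le_one _ _ z)
    have hc1 : 1 - chi U x y η r₀ z ≤ 1 := sub_le_self _ (chi_nonneg _ _ z)
    have hH : ‖((1 - chi U x y η r₀ z : ℝ) : ℂ) * (starRingEnd ℂ) (a z)‖ = (1 - chi U x y η r₀ z) * ‖a z‖ := by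
      rw [norm_mul, Complex.norm_real, Real.norm_of_nonneg hc0, RCLike.norm_conj]
    rw [hH]
    have hm0 : 0 ≤ max ‖deriv x z‖ ‖deriv y z‖ := le_max_of_le_left (norm_nonneg _)
    have hCC1 : 2 / η ≤ max C₁ (max (2 / η) (2 * K / r₀)) := (le_max_left _ _).trans (le_max_right _ _)
    have hCC2 : 2 * K / r₀ ≤ max C₁ (max (2 / η) (2 * K / r₀)) := (le_max_right _ _).trans (le_max_right _ _)
    by_cases hx : η / 2 < ‖x z‖
    · have hx0 : x z ≠ 0 := fun h1 => by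
        rw [h1, norm_zero] at hx
        linarith
      have h1 : ‖deriv x z‖ = ‖x z‖ * ‖a z‖ := by rw [h.dx z hz (Or.inl hx0), norm_mul]
      have h2 : ‖a z‖ ≤ 2 / η * ‖deriv x z‖ := by
        rw [h1, div_mul_eq_mul_div, le_div_iff₀ hη0]
        nlinarith [norm_nonneg (a z)]
      calc (1 - chi U x y η r₀ z) * ‖a z‖ ≤ 1 * ‖a z‖ := mul_le_mul_of_nonneg_right hc1 (norm_nonneg _)
        _ = ‖a z‖ := one_mul _
        _ ≤ 2 / η * ‖deriv x z‖ := h2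
        _ ≤ max C₁ (max (2 / η) (2 * K / r₀)) * max ‖deriv x z‖ ‖deriv y z‖ :=
          mul_le_mul hCC1 (le_max_left _ _) (norm_nonneg _) ((by positivity : (0 : ℝ) ≤ 2 / η).trans hCC1)
    · by_cases hy : r₀ / 2 < ‖y z‖
      · have hy0 : y z ≠ 0 := fun h1 => by
          rw [h1, norm_zero] at hy
          linarith
        have h1 : ‖deriv y z‖ = ‖y z‖ * ‖b z‖ := by rw [h.dy z hz (Or.inr hy0), norm_mul]
        have h2 : ‖b z‖ ≤ 2 / r₀ * ‖deriv y z‖ := by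
          rw [h1, div_mul_eq_mul_div, le_div_iff₀ hr0]
          nlinarith [norm_nonneg (b z)]
        have h3 : ‖a z‖ ≤ 2 * K / r₀ * ‖deriv y z‖ := by
          calc ‖a z‖ ≤ K * ‖b z‖ := h.ab z hz (Or.inr hy0)
            _ ≤ K * (2 / r₀ * ‖deriv y z‖) := mul_le_mul_of_nonneg_left h2 hK
            _ = _ := by ring
        calc (1 - chi U x y η r₀ z) * ‖a z‖ ≤ 1 * ‖a z‖ := mul_le_mul_of_nonneg_right hc1 (norm_nonneg _)
          _ = ‖a z‖ := one_mul _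
          _ ≤ 2 * K / r₀ * ‖deriv y z‖ := h3
          _ ≤ max C₁ (max (2 / η) (2 * K / r₀)) * max ‖deriv x z‖ ‖deriv y z‖ :=
            mul_le_mul hCC2 (le_max_right _ _) (norm_nonneg _) ((by positivity : (0 : ℝ) ≤ 2 * K / r₀).trans hCC2)
      · have h1 : chi U x y η r₀ z = 1 := by
          rw [chi_of_mem hz, ct_of_le hη0 (not_lt.1 hx), ct_of_le hr0 (not_lt.1 hy), one_mul]
        rw [h1, sub_self, zero_mul]
        exact mul_nonneg ((by positivity : (0 : ℝ) ≤ 2 / η).trans hCC1) hm0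
  · intro z hz
    rw [(ax_field h hη0 hη hrρ hz).2]
    have := le_max_right 0 (ip (gr (chi U x y η r₀) z) ((starRingEnd ℂ) (a z)))
    linarith
  · intro R hR
    exact (hC₁ R hR).trans (by
      have := le_max_left C₁ (max (2 / η) (2 * K / r₀))
      linarith)

/-! ### the node -/

section

variable {v : ℂ × ℂ → ℂ × ℂ} {r : ℝ} {Om : Set ℂ} {g : ℂ → ℂ × ℂ} {a b : ℂ × ℂ → ℂ}

theorem exists_bound {r : ℝ} {f : ℂ × ℂ → ℂ} (hf : ContinuousOn f (closedBall 0 r)) : ∃ C : ℝ, 0 < C ∧ ∀ p ∈ closedBall (0 : ℂ × ℂ) r, ‖f p‖ ≤ C := by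
  obtain ⟨C, hC⟩ := (isCompact_closedBall (0 : ℂ × ℂ) r).exists_bound_of_continuousOn hf
  exact ⟨max C 1, lt_of_lt_of_le one_pos (le_max_right _ _), fun p hp => (hC p hp).trans (le_max_left _ _)⟩

/-- near a point the derivative of `p ↦ p.1 * a p` -/
theorem fderiv_fst_mul {p : ℂ × ℂ} (ha : AnalyticAt ℂ a p) : fderiv ℂ (fun p : ℂ × ℂ => p.1 * a p) p (1, 0) = a p + p.1 * fderiv ℂ a p (1, 0) := by
  have h := (hasFDerivAt_fst (𝕜 := ℂ) (E := ℂ) (F := ℂ) (p := p)).mul ha.differentiableAt.hasFDerivAt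
  rw [show (fun p : ℂ × ℂ => p.1 * a p) = (fun p : ℂ × ℂ => p.1) * a from rfl, h.fderiv]
  simp
  ring

theorem fderiv_snd_mul {p : ℂ × ℂ} (hb : AnalyticAt ℂ b p) : fderiv ℂ (fun p : ℂ × ℂ => p.2 * b p) p (0, 1) = b p + p.2 * fderiv ℂ b p (0, 1) := by
  have h := (hasFDerivAt_snd (𝕜 := ℂ) (E := ℂ) (F := ℂ) (p := p)).mul hb.differentiableAt.hasFDerivAt
  rw [show (fun p : ℂ × ℂ => p.2 * b p) = (fun p : ℂ × ℂ => p.2) * b from rfl, h.fderiv]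
  simp
  ring

theorem dvg_node (hv : ∀ p, v p = (p.1 * a p, p.2 * b p)) {p : ℂ × ℂ} (ha : AnalyticAt ℂ a p) (hb : AnalyticAt ℂ b p) :
    dvg v p = a p + b p + (p.1 * fderiv ℂ a p (1, 0) + p.2 * fderiv ℂ b p (0, 1)) := by
  have e : v = fun p => (p.1 * a p, p.2 * b p) := funext hv
  have h1 : DifferentiableAt ℂ (fun p : ℂ × ℂ => p.1 * a p) p := differentiableAt_fst.mul ha.differentiableAt
  have h2 : DifferentiableAt ℂ (fun p : ℂ × ℂ => p.2 * b p) p := differentiableAt_snd.mul hb.differentiableAt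
  unfold dvg
  rw [e, (h1.hasFDerivAt.prodMk h2.hasFDerivAt).fderiv]
  simp only [ContinuousLinearMap.prod_apply]
  rw [fderiv_fst_mul ha, fderiv_snd_mul hb]
  ring

/-- the part of the field which is bounded everywhere -/
def G0 (a b : ℂ × ℂ → ℂ) (g : ℂ → ℂ × ℂ) (z : ℂ) : ℂ :=
  fderiv ℂ a (g z) (1, 0) * (deriv g z).1 / a (g z) + fderiv ℂ b (g z) (0, 1) * (deriv g z).2 / b (g z)

theorem an_G0 {z : ℂ} (ha : AnalyticAt ℂ a (g z)) (hb : AnalyticAt ℂ b (g z)) (ha0 : a (g z) ≠ 0) (hb0 : b (g z) ≠ 0) (hg : AnalyticAt ℂ g z) :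
    AnalyticAt ℂ (G0 a b g) z := by
  have h1 : AnalyticAt ℂ (fun w => fderiv ℂ a (g w) (1, 0)) z :=
    ((ContinuousLinearMap.apply ℂ ℂ ((1, 0) : ℂ × ℂ)).analyticAt _).comp (ha.fderiv.comp hg)
  have h2 : AnalyticAt ℂ (fun w => fderiv ℂ b (g w) (0, 1)) z :=
    ((ContinuousLinearMap.apply ℂ ℂ ((0, 1) : ℂ × ℂ)).analyticAt _).comp (hb.fderiv.comp hg)
  exact ((h1.mul (an_fst hg.deriv)).div (ha.comp hg) ha0).add ((h2.mul (an_snd hg.deriv)).div (hb.comp hg) hb0)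

/-- the data of a node along a curve -/
structure NodeC (v : ℂ × ℂ → ℂ × ℂ) (r : ℝ) (Om : Set ℂ) (g : ℂ → ℂ × ℂ) (a b : ℂ × ℂ → ℂ) (K : ℝ) : Prop where
  crv : Crv1 v r Om g
  ha : AnalyticOnNhd ℂ a (closedBall 0 r)
  hb : AnalyticOnNhd ℂ b (closedBall 0 r)
  ha0 : ∀ p ∈ closedBall (0 : ℂ × ℂ) r, a p ≠ 0
  hb0 : ∀ p ∈ closedBall (0 : ℂ × ℂ) r, b p ≠ 0
  hv : ∀ p, v p = (p.1 * a p, p.2 * b p)
  hab : ∀ p ∈ closedBall (0 : ℂ × ℂ) r, ‖a p‖ ≤ K * ‖b p‖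
  hba : ∀ p ∈ closedBall (0 : ℂ × ℂ) r, ‖b p‖ ≤ K * ‖a p‖

namespace NodeC

variable {K : ℝ}

theorem memc (h : NodeC v r Om g a b K) {z : ℂ} (hz : z ∈ Om) : g z ∈ closedBall (0 : ℂ × ℂ) r := ball_subset_closedBall (h.crv.mem z hz)

theorem v_ne (h : NodeC v r Om g a b K) {z : ℂ} (hz : z ∈ Om) (hp : (g z).1 ≠ 0 ∨ (g z).2 ≠ 0) : v (g z) ≠ 0 := by
  rw [h.hv]
  intro h1
  rw [Prod.mk_eq_zero] at h1
  rcases hp with hp | hp
  · exact (mul_ne_zero hp (h.ha0 _ (h.memc hz))) h1.1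
  · exact (mul_ne_zero hp (h.hb0 _ (h.memc hz))) h1.2

theorem v_an (h : NodeC v r Om g a b K) {z : ℂ} (hz : z ∈ Om) : AnalyticAt ℂ v (g z) := by
  have e : v = fun p => (p.1 * a p, p.2 * b p) := funext h.hv
  rw [e]
  exact (analyticAt_fst.mul (h.ha _ (h.memc hz))).prod (analyticAt_snd.mul (h.hb _ (h.memc hz)))

theorem an_zt (h : NodeC v r Om g a b K) {z : ℂ} (hz : z ∈ Om) (hp : (g z).1 ≠ 0 ∨ (g z).2 ≠ 0) : AnalyticAt ℂ (ztv v g) z :=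
  h.crv.an_ztv hz (h.v_an hz) (h.v_ne hz hp)

theorem an_al (h : NodeC v r Om g a b K) {z : ℂ} (hz : z ∈ Om) (hp : (g z).1 ≠ 0 ∨ (g z).2 ≠ 0) : AnalyticAt ℂ (fun w => a (g w) * ztv v g w) z :=
  ((h.ha _ (h.memc hz)).comp (h.crv.an z hz)).mul (h.an_zt hz hp)

theorem an_be (h : NodeC v r Om g a b K) {z : ℂ} (hz : z ∈ Om) (hp : (g z).1 ≠ 0 ∨ (g z).2 ≠ 0) : AnalyticAt ℂ (fun w => b (g w) * ztv v g w) z :=
  ((h.hb _ (h.memc hz)).comp (h.crv.an z hz)).mul (h.an_zt hz hp)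

theorem dfst (h : NodeC v r Om g a b K) {z : ℂ} (hz : z ∈ Om) (hp : (g z).1 ≠ 0 ∨ (g z).2 ≠ 0) : (deriv g z).1 = (g z).1 * (a (g z) * ztv v g z) := by
  rw [h.crv.deriv_fst hz (h.v_ne hz hp), h.hv]
  ring

theorem dsnd (h : NodeC v r Om g a b K) {z : ℂ} (hz : z ∈ Om) (hp : (g z).1 ≠ 0 ∨ (g z).2 ≠ 0) : (deriv g z).2 = (g z).2 * (b (g z) * ztv v g z) := by
  rw [h.crv.deriv_snd hz (h.v_ne hz hp), h.hv]
  ring

/-- the axis `{x = 0}` -/
theorem ax₁ (h : NodeC v r Om g a b K) :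
    Axis0 Om (fun z => (g z).1) (fun z => (g z).2) (fun z => a (g z) * ztv v g z) (fun z => b (g z) * ztv v g z) K r where
  isOpen := h.crv.isOpen
  hx := fun z hz => an_fst (h.crv.an z hz)
  hy := fun z hz => an_snd (h.crv.an z hz)
  ha := fun z hz hp => h.an_al hz hp
  hb := fun z hz hp => h.an_be hz hp
  dx := fun z hz hp => by rw [deriv_fst' (h.crv.an z hz).differentiableAt, h.dfst hz hp]
  dy := fun z hz hp => by rw [deriv_snd' (h.crv.an z hz).differentiableAt, h.dsnd hz hp]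
  ab := fun z hz _ => by
    rw [norm_mul, norm_mul, ← mul_assoc]
    exact mul_le_mul_of_nonneg_right (h.hab _ (h.memc hz)) (norm_nonneg _)
  closed := fun s hs => by
    have h1 := h.crv.closed s hs
    convert h1 using 1
    ext z
    simp only [Set.mem_setOf_eq, mem_closedBall, dist_zero_right, Prod.norm_def, max_le_iff]

/-- the axis `{y = 0}` -/
theorem ax₂ (h : NodeC v r Om g a b K) :
    Axis0 Om (fun z => (g z).2) (fun z => (g z).1) (fun z => b (g z) * ztv v g z) (fun z => a (g z) * ztv v g z) K r where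
  isOpen := h.crv.isOpen
  hx := fun z hz => an_snd (h.crv.an z hz)
  hy := fun z hz => an_fst (h.crv.an z hz)
  ha := fun z hz hp => h.an_be hz hp.symm
  hb := fun z hz hp => h.an_al hz hp.symm
  dx := fun z hz hp => by rw [deriv_snd' (h.crv.an z hz).differentiableAt, h.dsnd hz hp.symm]
  dy := fun z hz hp => by rw [deriv_fst' (h.crv.an z hz).differentiableAt, h.dfst hz hp.symm]
  ab := fun z hz _ => by
    rw [norm_mul, norm_mul, ← mul_assoc]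
    exact mul_le_mul_of_nonneg_right (h.hba _ (h.memc hz)) (norm_nonneg _)
  closed := fun s hs => by
    have h1 := h.crv.closed s hs
    convert h1 using 1
    ext z
    simp only [Set.mem_setOf_eq, mem_closedBall, dist_zero_right, Prod.norm_def, max_le_iff]
    tauto

/-- `D` without the part of the equation `l` -/
theorem dvg_zt (h : NodeC v r Om g a b K) {z : ℂ} (hz : z ∈ Om) (hp : (g z).1 ≠ 0 ∨ (g z).2 ≠ 0) :
    dvg v (g z) * ztv v g z = G0 a b g z + (a (g z) * ztv v g z + b (g z) * ztv v g z) := by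
  have ha := h.ha0 _ (h.memc hz)
  have hb := h.hb0 _ (h.memc hz)
  rw [dvg_node h.hv (h.ha _ (h.memc hz)) (h.hb _ (h.memc hz))]
  unfold G0
  rw [h.dfst hz hp, h.dsnd hz hp]
  field_simp
  ring

end NodeC

end

/-- the result of the construction at one axis: `κ = 1` if the axis is not in `{l = 0}`, otherwise `κ = 0` and the field is `0` -/
def Piece (Om : Set ℂ) (g : ℂ → ℂ × ℂ) (α : ℂ → ℂ) (κ : ℂ) (I : ℝ → ℝ) (s δ : ℝ) : Prop :=
  ∃ (C : ℝ) (H : ℂ → ℂ) (err : ℂ → ℝ), 0 ≤ C ∧ (∀ z ∈ Om, ContDiffAt ℝ 1 H z) ∧ Continuous err ∧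
      (∀ z ∈ Om, g z ∉ ball (0 : ℂ × ℂ) s → H z = (starRingEnd ℂ) (κ * α z) ∧ err z = 0) ∧
      (∀ z ∈ Om, ‖H z‖ ≤ C * ‖deriv g z‖) ∧ (∀ z, 0 ≤ err z) ∧ (∀ z ∈ Om, 0 ≤ dv H z + err z) ∧
      ∀ R, 1 ≤ R → ∫ z, tau R z * err z ≤ δ * I R + C

theorem piece_zero {Om : Set ℂ} {g : ℂ → ℂ × ℂ} {α : ℂ → ℂ} {I : ℝ → ℝ} {s δ : ℝ} (hI : ∀ R, 1 ≤ R → 0 ≤ δ * I R) : Piece Om g α 0 I s δ := by
  refine ⟨0, fun _ => 0, fun _ => 0, le_rfl, fun z _ => contDiffAt_const, continuous_const, fun z _ _ => ⟨by simp, rfl⟩, fun z _ => by simp,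
    fun z => le_rfl, fun z _ => by simp, fun R hR => ?_⟩
  simp only [mul_zero, integral_zero, add_zero]
  exact hI R hR

/-- the local package from the pieces of the two axes -/
theorem localN1_of_pieces {v : ℂ × ℂ → ℂ × ℂ} {l : ℂ × ℂ → ℂ} {r : ℝ} {Om : Set ℂ} {g : ℂ → ℂ × ℂ} {G α β : ℂ → ℂ} {κ₁ κ₂ : ℂ} {I Λ : ℝ → ℝ}
    {s δ₁ δ₂ C₀ : ℝ} (hOm : IsOpen Om) (hG : ∀ z ∈ Om, AnalyticAt ℂ G z) (hGb : ∀ z ∈ Om, ‖G z‖ ≤ C₀ * ‖deriv g z‖)
    (hD : ∀ z ∈ Om, g z ∉ ball (0 : ℂ × ℂ) s → DDv v l g z = G z + (κ₁ * α z + κ₂ * β z)) (hΛ : ∀ R, 1 ≤ R → 0 ≤ Λ R)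
    (h₁ : Piece Om g α κ₁ I s δ₁) (h₂ : Piece Om g β κ₂ I s δ₂) : LocalN1 v l Om g I Λ s (δ₁ + δ₂) := by
  obtain ⟨C₁, H₁, e₁, hC₁, a₁, b₁, c₁, d₁, f₁, g₁, i₁⟩ := h₁
  obtain ⟨C₂, H₂, e₂, hC₂, a₂, b₂, c₂, d₂, f₂, g₂, i₂⟩ := h₂
  refine ⟨max C₀ 0 + C₁ + C₂, fun z => (starRingEnd ℂ) (G z) + (H₁ z + H₂ z), fun z => e₁ z + e₂ z, by positivity, ?_, (b₁.add b₂).continuousOn, ?_, ?_,
    fun z _ => add_nonneg (f₁ z) (f₂ z), ?_, ?_⟩
  · intro z hz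
    exact ((contDiffAt_conj_holo (hG z hz)).add ((a₁ z hz).add (a₂ z hz))).contDiffWithinAt
  · intro z hz hs
    refine ⟨?_, ?_⟩
    · simp only [(c₁ z hz hs).1, (c₂ z hz hs).1, hD z hz hs, map_add]
    · simp only [(c₁ z hz hs).2, (c₂ z hz hs).2, add_zero]
  · intro z hz _
    have h1 := d₁ z hz
    have h2 := d₂ z hz
    have h3 := hGb z hz
    have h4 : C₀ * ‖deriv g z‖ ≤ max C₀ 0 * ‖deriv g z‖ := mul_le_mul_of_nonneg_right (le_max_left _ _) (norm_nonneg _)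
    calc ‖(starRingEnd ℂ) (G z) + (H₁ z + H₂ z)‖ ≤ ‖G z‖ + (‖H₁ z‖ + ‖H₂ z‖) := by
          refine (norm_add_le _ _).trans ?_
          rw [RCLike.norm_conj]
          exact add_le_add_right (norm_add_le _ _) _
      _ ≤ (max C₀ 0 + C₁ + C₂) * ‖deriv g z‖ := by nlinarith
  · intro z hz
    have k0 := (contDiffAt_conj_holo (n := 1) (hG z hz)).differentiableAt (by norm_num)
    have k1 := (a₁ z hz).differentiableAt (by norm_num)
    have k2 := (a₂ z hz).differentiableAt (by norm_num)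
    have k3 : dv (fun z => (starRingEnd ℂ) (G z) + (H₁ z + H₂ z)) z = dv H₁ z + dv H₂ z := by
      rw [dv_add (V := fun z => (starRingEnd ℂ) (G z)) (W := fun z => H₁ z + H₂ z) k0 (k1.fun_add k2), dv_add k1 k2,
        dv_conj (hG z hz).differentiableAt, zero_add]
    show 0 ≤ dv (fun z => (starRingEnd ℂ) (G z) + (H₁ z + H₂ z)) z + (e₁ z + e₂ z)
    rw [k3]
    have h1 := g₁ z hz
    have h2 := g₂ z hz
    linarith
  · intro R hR
    have j₁ : Integrable fun z => tau R z * e₁ z := Pool.Agent.H30M.integrable_tau_mul hR b₁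
    have j₂ : Integrable fun z => tau R z * e₂ z := Pool.Agent.H30M.integrable_tau_mul hR b₂
    have h1 : ∫ z in Om, tau R z * (e₁ z + e₂ z) ≤ ∫ z, tau R z * (e₁ z + e₂ z) := by
      refine setIntegral_le_integral ?_ (Eventually.of_forall fun z => mul_nonneg (tau_nonneg hR z) (add_nonneg (f₁ z) (f₂ z)))
      exact (j₁.add j₂).congr (Eventually.of_forall fun z => by simp only [Pi.add_apply, mul_add])
    have h2 : ∫ z, tau R z * (e₁ z + e₂ z) = (∫ z, tau R z * e₁ z) + ∫ z, tau R z * e₂ z := by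
      rw [← integral_add j₁ j₂]
      simp only [mul_add]
    have h3 := i₁ R hR
    have h4 := i₂ R hR
    have h5 : 0 ≤ (max C₀ 0 + C₁ + C₂) * Λ R := mul_nonneg (by positivity) (hΛ R hR)
    have h6 : (0 : ℝ) ≤ max C₀ 0 := le_max_right _ _
    nlinarith

/-- the form `Q` in the shell `r₀ / 2 ≤ |y| ≤ r₀` near the axis `{x = 0}` -/
def ShellAt {M : ℕ} (U : Set ℂ) (x y b : ℂ → ℂ) (F : ℂ → EN M) (Qf : ℂ → ℂ) (d n : ℕ) (s : ℝ) : Prop :=
  ∃ r₀ η b₀ : ℝ, 0 < η ∧ 2 * η ≤ r₀ ∧ r₀ < s ∧ ∀ z ∈ U, ‖x z‖ ≤ η → r₀ / 2 ≤ ‖y z‖ → ‖y z‖ ≤ r₀ → Qf z ≠ 0 ∧ b₀ ≤ lu F Qf d z ∧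
    lu F Qf d z ≤ b₀ + 2 * n ∧ (n / 2) * ‖b z‖ ≤ ‖gr (lu F Qf d) z‖

theorem Piece.mono {Om : Set ℂ} {g : ℂ → ℂ × ℂ} {α : ℂ → ℂ} {κ : ℂ} {I : ℝ → ℝ} {s δ δ' : ℝ} (h : Piece Om g α κ I s δ) (hI : ∀ R, 1 ≤ R → 0 ≤ I R)
    (hδ : δ ≤ δ') : Piece Om g α κ I s δ' := by
  obtain ⟨C, H, e, h1, h2, h3, h4, h5, h6, h7, h8⟩ := h
  exact ⟨C, H, e, h1, h2, h3, h4, h5, h6, h7, fun R hR => (h8 R hR).trans (by
    have := mul_le_mul_of_nonneg_right hδ (hI R hR)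
    linarith)⟩

/-- the logarithmic derivative of the equation of the axes -/
theorem logDeriv_l {Om : Set ℂ} {g : ℂ → ℂ × ℂ} {l l₁ l₂ : ℂ × ℂ → ℂ} {α β κ₁ κ₂ : ℂ} {z : ℂ} (hg : DifferentiableAt ℂ g z)
    (hx : (deriv g z).1 = (g z).1 * α) (hy : (deriv g z).2 = (g z).2 * β) (hl : ∀ p, l p = l₁ p * l₂ p)
    (h₁ : (∀ p, l₁ p = p.1) ∧ κ₁ = 0 ∨ (∀ p, l₁ p = 1) ∧ κ₁ = 1) (h₂ : (∀ p, l₂ p = p.2) ∧ κ₂ = 0 ∨ (∀ p, l₂ p = 1) ∧ κ₂ = 1) (hlz : l (g z) ≠ 0) :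
    deriv (fun w => l (g w)) z / l (g z) = (1 - κ₁) * α + (1 - κ₂) * β := by
  have d₁ : HasDerivAt (fun w => l₁ (g w)) ((1 - κ₁) * α * l₁ (g z)) z := by
    rcases h₁ with ⟨h, k⟩ | ⟨h, k⟩
    · have e : (fun w => l₁ (g w)) = fun w => (g w).1 := funext fun w => h (g w)
      rw [e, h, k]
      have h3 := (ContinuousLinearMap.fst ℂ ℂ ℂ).hasFDerivAt.comp_hasDerivAt z hg.hasDerivAt
      have h4 : (ContinuousLinearMap.fst ℂ ℂ ℂ) (deriv g z) = (1 - 0) * α * (g z).1 := by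
        rw [ContinuousLinearMap.coe_fst', hx]
        ring
      rw [h4] at h3
      exact h3
    · have e : (fun w => l₁ (g w)) = fun w => 1 := funext fun w => h (g w)
      rw [e, k, sub_self, zero_mul, zero_mul]
      exact hasDerivAt_const z 1
  have d₂ : HasDerivAt (fun w => l₂ (g w)) ((1 - κ₂) * β * l₂ (g z)) z := by
    rcases h₂ with ⟨h, k⟩ | ⟨h, k⟩
    · have e : (fun w => l₂ (g w)) = fun w => (g w).2 := funext fun w => h (g w)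
      rw [e, h, k]
      have h3 := (ContinuousLinearMap.snd ℂ ℂ ℂ).hasFDerivAt.comp_hasDerivAt z hg.hasDerivAt
      have h4 : (ContinuousLinearMap.snd ℂ ℂ ℂ) (deriv g z) = (1 - 0) * β * (g z).2 := by
        rw [ContinuousLinearMap.coe_snd', hy]
        ring
      rw [h4] at h3
      exact h3
    · have e : (fun w => l₂ (g w)) = fun w => 1 := funext fun w => h (g w)
      rw [e, k, sub_self, zero_mul, zero_mul]
      exact hasDerivAt_const z 1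
  have e : (fun w => l (g w)) = fun w => l₁ (g w) * l₂ (g w) := funext fun w => hl (g w)
  rw [hl] at hlz
  rw [e, (d₁.fun_mul d₂).deriv, hl, div_eq_iff hlz]
  ring

/-- **The normal bundle half of the local package at a node.** -/
theorem localN1_node : ∃ c₁ : ℝ, 0 < c₁ ∧ ∀ {v : ℂ × ℂ → ℂ × ℂ} {r : ℝ} {Om : Set ℂ} {g : ℂ → ℂ × ℂ} {a b : ℂ × ℂ → ℂ} {K : ℝ} (_ : NodeC v r Om g a b K)
    (_ : 0 ≤ K) {M : ℕ} {F : ℂ → EN M} (_ : Differentiable ℂ F) (_ : ∀ z, F z ≠ 0) {Qf : ℂ → ℂ} (_ : Differentiable ℂ Qf) {d n : ℕ} (_ : 1 ≤ n)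
    (_ : ∀ z, ‖Qf z‖ ≤ ‖F z‖ ^ d) {l l₁ l₂ : ℂ × ℂ → ℂ} (_ : ∀ p, l p = l₁ p * l₂ p) {s : ℝ} (_ : 0 < s) (_ : s < r)
    (_ : (∀ p, l₁ p = p.1) ∨ (∀ p, l₁ p = 1) ∧ ∃ n₁, n ≤ n₁ ∧ ShellAt Om (fun z => (g z).1) (fun z => (g z).2) (fun z => b (g z) * ztv v g z) F Qf d n₁ s)
    (_ : (∀ p, l₂ p = p.2) ∨ (∀ p, l₂ p = 1) ∧ ∃ n₂, n ≤ n₂ ∧ ShellAt Om (fun z => (g z).2) (fun z => (g z).1) (fun z => a (g z) * ztv v g z) F Qf d n₂ s)
    (_ : ∀ z ∈ Om, g z ≠ 0 → l (g z) ≠ 0) {Λ : ℝ → ℝ} (_ : ∀ R, 1 ≤ R → 0 ≤ Λ R), LocalN1 v l Om g (En F) Λ s (c₁ * K * (d / n)) := by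
  obtain ⟨c₁, hc₁, hax⟩ := ax_piece
  refine ⟨2 * c₁, by positivity, ?_⟩
  intro v r Om g a b K h hK M F hF h0 Qf hQ d n hn hQF l l₁ l₂ hl s hs hsr h₁ h₂ hlz Λ hΛ
  have hE : ∀ R, 1 ≤ R → 0 ≤ En F R := fun R hR => En_nonneg F hR
  have hn0 : (0 : ℝ) < n := by exact_mod_cast hn
  have hδ0 : 0 ≤ c₁ * K * (d / n) := by positivity
  have hδle : ∀ n' : ℕ, n ≤ n' → c₁ * K * (d / n') ≤ c₁ * K * (d / n) := fun n' hn' => by
    refine mul_le_mul_of_nonneg_left ?_ (by positivity)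
    exact div_le_div_of_nonneg_left (Nat.cast_nonneg d) hn0 (by exact_mod_cast hn')
  have hmax : ∀ z ∈ Om, max ‖deriv (fun z => (g z).1) z‖ ‖deriv (fun z => (g z).2) z‖ = ‖deriv g z‖ := fun z hz => by
    rw [deriv_fst' (h.crv.an z hz).differentiableAt, deriv_snd' (h.crv.an z hz).differentiableAt, Prod.norm_def]
  have hball : ∀ z, g z ∉ ball (0 : ℂ × ℂ) s → s ≤ ‖(g z).1‖ ∨ s ≤ ‖(g z).2‖ := fun z hz => by
    rw [mem_ball, dist_zero_right, not_lt, Prod.norm_def, le_max_iff] at hz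
    exact hz
  -- the two pieces
  have p₁ : ∃ κ₁ : ℂ, ((∀ p, l₁ p = p.1) ∧ κ₁ = 0 ∨ (∀ p, l₁ p = 1) ∧ κ₁ = 1) ∧
      Piece Om g (fun z => a (g z) * ztv v g z) κ₁ (En F) s (c₁ * K * (d / n)) := by
    rcases h₁ with h₁ | ⟨h₁, n₁, hn₁, r₀, η, b₀, k1, k2, k3, k4⟩
    · exact ⟨0, Or.inl ⟨h₁, rfl⟩, piece_zero fun R hR => mul_nonneg hδ0 (hE R hR)⟩
    · refine ⟨1, Or.inr ⟨h₁, rfl⟩, Piece.mono ?_ hE (hδle n₁ hn₁)⟩
      obtain ⟨C, H, e, q1, q2, q3, q4, q5, q6, q7, q8⟩ := hax hF h0 hQ hQF hK h.ax₁ (hn.trans hn₁) k1 k2 k3 hsr k4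
      refine ⟨C, H, e, q1, q2, q3, fun z hz hz2 => ?_, fun z hz => ?_, q6, q7, q8⟩
      · rw [one_mul]
        exact q4 z hz (hball z hz2)
      · rw [← hmax z hz]
        exact q5 z hz
  have p₂ : ∃ κ₂ : ℂ, ((∀ p, l₂ p = p.2) ∧ κ₂ = 0 ∨ (∀ p, l₂ p = 1) ∧ κ₂ = 1) ∧
      Piece Om g (fun z => b (g z) * ztv v g z) κ₂ (En F) s (c₁ * K * (d / n)) := by
    rcases h₂ with h₂ | ⟨h₂, n₂, hn₂, r₀, η, b₀, k1, k2, k3, k4⟩
    · exact ⟨0, Or.inl ⟨h₂, rfl⟩, piece_zero fun R hR => mul_nonneg hδ0 (hE R hR)⟩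
    · refine ⟨1, Or.inr ⟨h₂, rfl⟩, Piece.mono ?_ hE (hδle n₂ hn₂)⟩
      obtain ⟨C, H, e, q1, q2, q3, q4, q5, q6, q7, q8⟩ := hax hF h0 hQ hQF hK h.ax₂ (hn.trans hn₂) k1 k2 k3 hsr k4
      refine ⟨C, H, e, q1, q2, q3, fun z hz hz2 => ?_, fun z hz => ?_, q6, q7, q8⟩
      · rw [one_mul]
        exact q4 z hz (hball z hz2).symm
      · rw [← hmax z hz, max_comm]
        exact q5 z hz
  obtain ⟨κ₁, hκ₁, P₁⟩ := p₁
  obtain ⟨κ₂, hκ₂, P₂⟩ := p₂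
  -- the bounded part
  have hr : 0 < r := hs.trans hsr
  obtain ⟨A, hA0, hA⟩ := exists_bound (r := r) (f := fun p => fderiv ℂ a p (1, 0) / a p)
    (ContinuousOn.div (fun p hp => (((ContinuousLinearMap.apply ℂ ℂ ((1, 0) : ℂ × ℂ)).analyticAt _).comp (h.ha p hp).fderiv).continuousAt.continuousWithinAt)
      (fun p hp => (h.ha p hp).continuousAt.continuousWithinAt) h.ha0)
  obtain ⟨B, hB0, hB⟩ := exists_bound (r := r) (f := fun p => fderiv ℂ b p (0, 1) / b p)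
    (ContinuousOn.div (fun p hp => (((ContinuousLinearMap.apply ℂ ℂ ((0, 1) : ℂ × ℂ)).analyticAt _).comp (h.hb p hp).fderiv).continuousAt.continuousWithinAt)
      (fun p hp => (h.hb p hp).continuousAt.continuousWithinAt) h.hb0)
  have hG : ∀ z ∈ Om, ‖G0 a b g z‖ ≤ (A + B) * ‖deriv g z‖ := fun z hz => by
    have e : G0 a b g z = fderiv ℂ a (g z) (1, 0) / a (g z) * (deriv g z).1 + fderiv ℂ b (g z) (0, 1) / b (g z) * (deriv g z).2 := by
      unfold G0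
      ring
    have m1 : ‖(deriv g z).1‖ ≤ ‖deriv g z‖ := norm_fst_le _
    have m2 : ‖(deriv g z).2‖ ≤ ‖deriv g z‖ := norm_snd_le _
    rw [e, add_mul]
    refine (norm_add_le _ _).trans (add_le_add ?_ ?_)
    · rw [norm_mul]
      exact mul_le_mul (hA _ (h.memc hz)) m1 (norm_nonneg _) hA0.le
    · rw [norm_mul]
      exact mul_le_mul (hB _ (h.memc hz)) m2 (norm_nonneg _) hB0.le
  have key := localN1_of_pieces (v := v) (l := l) (r := r) (Λ := Λ) h.crv.isOpen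
    (fun z hz => an_G0 (h.ha _ (h.memc hz)) (h.hb _ (h.memc hz)) (h.ha0 _ (h.memc hz)) (h.hb0 _ (h.memc hz)) (h.crv.an z hz)) hG ?_ hΛ P₁ P₂
  · have e : 2 * c₁ * K * (d / n : ℝ) = c₁ * K * (d / n) + c₁ * K * (d / n) := by ring
    rw [e]
    exact key
  · intro z hz hzs
    have hg0 : g z ≠ 0 := fun h1 => hzs (by rw [h1]; exact mem_ball_self hs)
    have hp : (g z).1 ≠ 0 ∨ (g z).2 ≠ 0 := by
      by_contra h1
      push Not at h1
      exact hg0 (Prod.ext h1.1 h1.2)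
    unfold DDv
    rw [h.dvg_zt hz hp, logDeriv_l (Om := Om) (h.crv.an z hz).differentiableAt (h.dfst hz hp) (h.dsnd hz hp) hl hκ₁ hκ₂ (hlz z hz hg0)]
    ring

end Pool.Agent.MQ

end
end

section

/-!
# MQ2 TAxes: the terminal package at a corner

`v = (x a, y b)`, `x y` divides the weight `g`, `x` divides the Jacobian factor `J`.  No curve tangent to `v` meets the axes; everything is holomorphic.
-/

set_option autoImplicit false

open Topology Filter Metric MeasureTheory Asymptotics Laplacian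

noncomputable section

namespace Pool.Agent.MQ2

open Pool.Agent.H36.BP (EN)
open Pool.Agent.H30M (tau LogSing)
open Pool.Agent.MQ

/-! ### orders -/

theorem eq_of_punct_ax {A B : ℂ → ℂ} {z : ℂ} (hA : ContinuousAt A z) (hB : ContinuousAt B z) (h : ∀ᶠ w in 𝓝[≠] z, A w = B w) : A z = B z := by
  have h1 : Tendsto A (𝓝[≠] z) (𝓝 (A z)) := hA.tendsto.mono_left nhdsWithin_le_nhds
  have h2 : Tendsto B (𝓝[≠] z) (𝓝 (B z)) := hB.tendsto.mono_left nhdsWithin_le_nhds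
  exact tendsto_nhds_unique h1 (h2.congr' (h.mono fun w hw => hw.symm))

theorem ord_pack {f : ℂ → ℂ} {z : ℂ} (hf : AnalyticAt ℂ f z) (hne : ∃ᶠ w in 𝓝 z, f w ≠ 0) :
    ∃ (m : ℕ) (ξ : ℂ → ℂ), AnalyticAt ℂ ξ z ∧ ξ z ≠ 0 ∧ (m = 0 ↔ f z ≠ 0) ∧ (∀ᶠ w in 𝓝 z, f w = (w - z) ^ m * ξ w) ∧
      (∀ᶠ w in 𝓝 z, (w - z) * deriv f w = (w - z) ^ m * (m * ξ w + (w - z) * deriv ξ w)) := by
  have h1 : analyticOrderAt f z ≠ ⊤ := by
    intro h
    rw [analyticOrderAt_eq_top] at h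
    exact hne (h.mono fun w hw h2 => h2 hw)
  obtain ⟨m, hm⟩ := ENat.ne_top_iff_exists.1 h1
  obtain ⟨ξ, hξ, hξ0, hfe⟩ := (hf.analyticOrderAt_eq_natCast).1 hm.symm
  have hfe' : ∀ᶠ w in 𝓝 z, f w = (w - z) ^ m * ξ w := hfe.mono fun w hw => by rw [hw, smul_eq_mul]
  refine ⟨m, ξ, hξ, hξ0, ?_, hfe', ?_⟩
  · have h2 := hfe'.self_of_nhds
    rw [sub_self] at h2
    constructor
    · rintro rfl
      rw [h2, pow_zero, one_mul]
      exact hξ0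
    · intro h3
      by_contra h4
      rw [h2, zero_pow h4, zero_mul] at h3
      exact h3 rfl
  · filter_upwards [hfe'.eventually_nhds, hξ.eventually_analyticAt] with w hw hξw
    have e : f =ᶠ[𝓝 w] fun w => (w - z) ^ m * ξ w := hw
    rw [e.deriv_eq]
    have h2 : HasDerivAt (fun w => (w - z) ^ m * ξ w) (m * (w - z) ^ (m - 1) * 1 * ξ w + (w - z) ^ m * deriv ξ w) w :=
      ((((hasDerivAt_id w).sub_const z).fun_pow m)).fun_mul hξw.differentiableAt.hasDerivAt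
    rw [h2.deriv]
    rcases Nat.eq_zero_or_pos m with rfl | hm0
    · simp
    · obtain ⟨k, rfl⟩ : ∃ k, m = k + 1 := ⟨m - 1, by omega⟩
      rw [Nat.add_sub_cancel]
      push_cast
      ring

/-- a curve tangent to `(x a, y b)` -/
theorem ord_axes {v : ℂ × ℂ → ℂ × ℂ} {r : ℝ} {Om : Set ℂ} {p : ℂ → ℂ × ℂ} (h : Crv1 v r Om p) {a b : ℂ × ℂ → ℂ}
    (hv : ∀ p, v p = (p.1 * a p, p.2 * b p)) {z : ℂ} (hz : z ∈ Om) (ha : ContinuousAt a (p z)) (hb : ContinuousAt b (p z))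
    (hx : ∃ᶠ w in 𝓝 z, (p w).1 ≠ 0) (hy : ∃ᶠ w in 𝓝 z, (p w).2 ≠ 0) :
    ∃ m n : ℕ, (m = 0 ↔ (p z).1 ≠ 0) ∧ (n = 0 ↔ (p z).2 ≠ 0) ∧ (m : ℂ) * b (p z) = n * a (p z) := by
  have hp := h.an z hz
  obtain ⟨m, ξ, hξ, hξ0, hm, h1, h2⟩ := ord_pack (an_fst hp) hx
  obtain ⟨n, υ, hυ, hυ0, hn, h3, h4⟩ := ord_pack (an_snd hp) hy
  refine ⟨m, n, hm, hn, ?_⟩
  have hpc : ContinuousAt p z := hp.continuousAt
  have key := eq_of_punct_ax (A := fun w => ξ w * a (p w) * (n * υ w + (w - z) * deriv υ w)) (B := fun w => υ w * b (p w) * (m * ξ w + (w - z) * deriv ξ w))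
    (z := z) ?_ ?_ ?_
  · simp only [sub_self, zero_mul, add_zero] at key
    have e : ξ z * υ z * ((n : ℂ) * a (p z) - m * b (p z)) = 0 := by linear_combination key
    have := (mul_eq_zero.1 e).resolve_left (mul_ne_zero hξ0 hυ0)
    rw [sub_eq_zero] at this
    exact this.symm
  · exact (hξ.continuousAt.mul (ha.comp hpc)).mul ((continuousAt_const.mul hυ.continuousAt).add ((continuousAt_id.sub continuousAt_const).mul hυ.deriv.continuousAt))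
  · exact (hυ.continuousAt.mul (hb.comp hpc)).mul ((continuousAt_const.mul hξ.continuousAt).add ((continuousAt_id.sub continuousAt_const).mul hξ.deriv.continuousAt))
  · filter_upwards [self_mem_nhdsWithin, nhdsWithin_le_nhds h1, nhdsWithin_le_nhds h2, nhdsWithin_le_nhds h3, nhdsWithin_le_nhds h4,
      nhdsWithin_le_nhds (h.isOpen.mem_nhds hz)] with w hw e1 e2 e3 e4 hwO
    have hw0 : w - z ≠ 0 := sub_ne_zero.2 hw
    have e5 := h.ode w hwO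
    rw [hv] at e5
    simp only at e5
    rw [deriv_fst' (h.an w hwO).differentiableAt] at e2
    rw [deriv_snd' (h.an w hwO).differentiableAt] at e4
    have e6 : (w - z) ^ (m + n) * (ξ w * a (p w) * (n * υ w + (w - z) * deriv υ w)) = (w - z) ^ (m + n) * (υ w * b (p w) * (m * ξ w + (w - z) * deriv ξ w)) := by
      have e7 : (p w).1 * a (p w) * ((w - z) * (deriv p w).2) = (p w).2 * b (p w) * ((w - z) * (deriv p w).1) := by linear_combination (w - z) * e5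
      rw [e2, e4, e1, e3] at e7
      rw [pow_add]
      linear_combination e7
    exact mul_left_cancel₀ (pow_ne_zero _ hw0) e6

/-! ### the weight -/

theorem eventually_cball {S : ℂ × ℂ → Prop} (h : ∀ᶠ p in 𝓝 (0 : ℂ × ℂ), S p) : ∀ᶠ r in 𝓝[>] (0 : ℝ), ∀ p ∈ closedBall (0 : ℂ × ℂ) r, S p := by
  obtain ⟨ε, hε, h1⟩ := Metric.eventually_nhds_iff_ball.1 h
  filter_upwards [Ioo_mem_nhdsGT hε] with r hr p hp
  exact h1 p (closedBall_subset_ball hr.2 hp)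

/-- the order of `g₀` on an axis -/
theorem axis_order {h bb cc : ℂ → ℂ} (hh : AnalyticAt ℂ h 0) (hb : ContinuousAt bb 0) (hc : ContinuousAt cc 0)
    (hne : ∃ᶠ y in 𝓝 (0 : ℂ), h y ≠ 0) (he : ∀ᶠ y in 𝓝 (0 : ℂ), y * deriv h y * bb y = cc y * h y) :
    ∃ j : ℕ, (j = 0 ↔ h 0 ≠ 0) ∧ (j : ℂ) * bb 0 = cc 0 := by
  obtain ⟨m, ξ, hξ, hξ0, hm, h1, h2⟩ := ord_pack hh hne
  refine ⟨m, hm, ?_⟩
  have key := eq_of_punct_ax (A := fun w => (m * ξ w + w * deriv ξ w) * bb w) (B := fun w => cc w * ξ w) (z := 0) ?_ ?_ ?_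
  · simp only [zero_mul, add_zero] at key
    have e : ξ 0 * ((m : ℂ) * bb 0 - cc 0) = 0 := by linear_combination key
    exact sub_eq_zero.1 ((mul_eq_zero.1 e).resolve_left hξ0)
  · exact ((continuousAt_const.mul hξ.continuousAt).add (continuousAt_id.mul hξ.deriv.continuousAt)).mul hb
  · exact hc.mul hξ.continuousAt
  · filter_upwards [self_mem_nhdsWithin, nhdsWithin_le_nhds h1, nhdsWithin_le_nhds h2, nhdsWithin_le_nhds he] with w hw e1 e2 e3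
    rw [sub_zero] at e1 e2
    have hw0 : (w : ℂ) ≠ 0 := hw
    have e6 : w ^ m * ((m * ξ w + w * deriv ξ w) * bb w) = w ^ m * (cc w * ξ w) := by
      rw [e1, e2] at e3
      linear_combination e3
    exact mul_left_cancel₀ (pow_ne_zero _ hw0) e6

theorem fderiv_xy {g₀ : ℂ × ℂ → ℂ} {p : ℂ × ℂ} (h : DifferentiableAt ℂ g₀ p) : HasFDerivAt (fun p : ℂ × ℂ => p.1 * p.2 * g₀ p)
    ((p.1 * p.2) • fderiv ℂ g₀ p + g₀ p • (p.1 • ContinuousLinearMap.snd ℂ ℂ ℂ + p.2 • ContinuousLinearMap.fst ℂ ℂ ℂ)) p :=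
  ((hasFDerivAt_fst (𝕜 := ℂ) (p := p)).mul (hasFDerivAt_snd (𝕜 := ℂ) (p := p))).mul h.hasFDerivAt

/-- at a corner the weight is `x y` times a unit -/
theorem corner_unit {a b g g₀ : ℂ × ℂ → ℂ} (ha : AnalyticAt ℂ a 0) (hb : AnalyticAt ℂ b 0)
    (hq : ∀ k l : ℕ, 1 ≤ k → 1 ≤ l → k * a 0 ≠ l * b 0) (hg₀ : AnalyticAt ℂ g₀ 0) (hg : ∀ᶠ p in 𝓝 (0 : ℂ × ℂ), g p = p.1 * p.2 * g₀ p)
    (hw : Wt (fun p => (p.1 * a p, p.2 * b p)) g) : g₀ 0 ≠ 0 := by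
  obtain ⟨c, hc, hcof⟩ := hw.cof
  have hfd : ∀ᶠ p in 𝓝 (0 : ℂ × ℂ), fderiv ℂ g p =
      (p.1 * p.2) • fderiv ℂ g₀ p + g₀ p • (p.1 • ContinuousLinearMap.snd ℂ ℂ ℂ + p.2 • ContinuousLinearMap.fst ℂ ℂ ℂ) := by
    filter_upwards [hg.eventually_nhds, hg₀.eventually_analyticAt] with p h1 h2
    rw [(show g =ᶠ[𝓝 p] fun p => p.1 * p.2 * g₀ p from h1).fderiv_eq, (fderiv_xy h2.differentiableAt).fderiv]
  -- the relation off the axes
  have hE0 : ∀ᶠ p in 𝓝 (0 : ℂ × ℂ), p.1 ≠ 0 → p.2 ≠ 0 → fderiv ℂ g₀ p (p.1 * a p, p.2 * b p) = (c p - a p - b p) * g₀ p := by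
    filter_upwards [hfd, hcof, hg] with p h1 h2 h3 hx hy
    rw [h1, h3] at h2
    simp only [ContinuousLinearMap.add_apply, ContinuousLinearMap.smul_apply, ContinuousLinearMap.coe_fst', ContinuousLinearMap.coe_snd',
      smul_eq_mul] at h2
    have h4 : (p.1 * p.2) * (fderiv ℂ g₀ p (p.1 * a p, p.2 * b p)) = (p.1 * p.2) * ((c p - a p - b p) * g₀ p) := by linear_combination h2
    exact mul_left_cancel₀ (mul_ne_zero hx hy) h4
  -- the relation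
  have hE : ∀ᶠ p in 𝓝 (0 : ℂ × ℂ), fderiv ℂ g₀ p (p.1 * a p, p.2 * b p) = (c p - a p - b p) * g₀ p := by
    filter_upwards [hE0.eventually_nhds, hg₀.eventually_analyticAt, ha.eventually_analyticAt, hb.eventually_analyticAt, hc.eventually_analyticAt]
      with p h1 h2 h3 h4 h5
    have hT : ContinuousAt (fun t : ℂ => ((p.1 + t, p.2 + t) : ℂ × ℂ)) 0 :=
      (continuous_const.add continuous_id).prodMk (continuous_const.add continuous_id) |>.continuousAt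
    have hT0 : ((p.1 + 0, p.2 + 0) : ℂ × ℂ) = p := by rw [add_zero, add_zero]
    have hL : ContinuousAt (fun q : ℂ × ℂ => fderiv ℂ g₀ q (q.1 * a q, q.2 * b q)) p :=
      h2.fderiv.continuousAt.clm_apply ((continuousAt_fst.mul h3.continuousAt).prodMk (continuousAt_snd.mul h4.continuousAt))
    have hR : ContinuousAt (fun q : ℂ × ℂ => (c q - a q - b q) * g₀ q) p :=
      ((h5.continuousAt.sub h3.continuousAt).sub h4.continuousAt).mul h2.continuousAt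
    have key := eq_of_punct_ax (A := fun t : ℂ => (fun q : ℂ × ℂ => fderiv ℂ g₀ q (q.1 * a q, q.2 * b q)) (p.1 + t, p.2 + t))
      (B := fun t : ℂ => (fun q : ℂ × ℂ => (c q - a q - b q) * g₀ q) (p.1 + t, p.2 + t)) (z := 0)
      (ContinuousAt.comp (g := fun q : ℂ × ℂ => fderiv ℂ g₀ q (q.1 * a q, q.2 * b q)) (by rw [hT0]; exact hL) hT)
      (ContinuousAt.comp (g := fun q : ℂ × ℂ => (c q - a q - b q) * g₀ q) (by rw [hT0]; exact hR) hT) ?_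
    · simpa only [add_zero] using key
    · have h6 := hT.tendsto.eventually (p := fun q : ℂ × ℂ => q.1 ≠ 0 → q.2 ≠ 0 → fderiv ℂ g₀ q (q.1 * a q, q.2 * b q) = (c q - a q - b q) * g₀ q)
        (by rw [hT0]; exact h1)
      have hne : ∀ x : ℂ, ∀ᶠ t in 𝓝[≠] (0 : ℂ), x + t ≠ 0 := fun x => by
        rcases eq_or_ne x 0 with rfl | hx
        · filter_upwards [self_mem_nhdsWithin] with t ht
          rw [zero_add]
          exact ht
        · have : ContinuousAt (fun t : ℂ => x + t) 0 := by fun_prop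
          exact nhdsWithin_le_nhds (this.eventually_ne (by simpa using hx))
      filter_upwards [nhdsWithin_le_nhds h6, hne p.1, hne p.2] with t e1 e2 e3
      exact e1 e2 e3
  intro h00
  have hc₁ : ContinuousAt (fun p => c p - a p - b p) 0 := (hc.continuousAt.sub ha.continuousAt).sub hb.continuousAt
  -- the axis `x = 0`
  have hi₁ : ContinuousAt (fun y : ℂ => ((0, y) : ℂ × ℂ)) 0 := (continuous_const.prodMk continuous_id).continuousAt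
  have hi₁' : Tendsto (fun y : ℂ => ((0, y) : ℂ × ℂ)) (𝓝 0) (𝓝 0) := hi₁.tendsto
  have hi₂ : ContinuousAt (fun x : ℂ => ((x, 0) : ℂ × ℂ)) 0 := (continuous_id.prodMk continuous_const).continuousAt
  have hi₂' : Tendsto (fun x : ℂ => ((x, 0) : ℂ × ℂ)) (𝓝 0) (𝓝 0) := hi₂.tendsto
  have e00 : ((0 : ℂ), (0 : ℂ)) = (0 : ℂ × ℂ) := rfl
  have hne0 : ∀ᶠ y in 𝓝[≠] (0 : ℂ), y ≠ 0 := self_mem_nhdsWithin
  obtain ⟨j, hj, hj'⟩ := axis_order (h := fun y => g₀ (0, y)) (bb := fun y => b (0, y)) (cc := fun y => c (0, y) - a (0, y) - b (0, y))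
    (AnalyticAt.fun_comp (g := g₀) (f := fun y : ℂ => ((0, y) : ℂ × ℂ)) (by rw [e00]; exact hg₀) (analyticAt_const.prod analyticAt_id))
    (ContinuousAt.comp (g := b) (f := fun y : ℂ => ((0, y) : ℂ × ℂ)) (by rw [e00]; exact hb.continuousAt) hi₁)
    (ContinuousAt.comp (g := fun p => c p - a p - b p) (f := fun y : ℂ => ((0, y) : ℂ × ℂ)) (by rw [e00]; exact hc₁) hi₁)
    (by
      intro h1
      have h2 : ∀ᶠ y in 𝓝[≠] (0 : ℂ), False := by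
        filter_upwards [nhdsWithin_le_nhds h1, nhdsWithin_le_nhds (hi₁'.eventually hfd), nhdsWithin_le_nhds (hi₁'.eventually hg),
          nhdsWithin_le_nhds (hi₁'.eventually hw.red), hne0] with y e1 e2 e3 e4 e5
        rw [not_not] at e1
        refine e4 (fun h => e5 (congrArg Prod.snd h)) (by rw [e3]; simp) ?_
        rw [e2, e1]
        refine ContinuousLinearMap.ext fun u => ?_
        simp
      exact (h2.exists).elim fun _ h => h)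
    (by
      filter_upwards [hi₁'.eventually hE, hi₁'.eventually hg₀.eventually_analyticAt] with y e1 e2
      have h3 : HasDerivAt (fun y : ℂ => g₀ (0, y)) (fderiv ℂ g₀ (0, y) (0, 1)) y :=
        e2.differentiableAt.hasFDerivAt.comp_hasDerivAt y ((hasDerivAt_const y (0 : ℂ)).prodMk (hasDerivAt_id y))
      rw [h3.deriv]
      have h4 : ((0 * a (0, y), y * b (0, y)) : ℂ × ℂ) = (y * b (0, y)) • ((0, 1) : ℂ × ℂ) := by ext <;> simp
      rw [h4, map_smul, smul_eq_mul] at e1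
      linear_combination e1)
  obtain ⟨i, hi, hi'⟩ := axis_order (h := fun x => g₀ (x, 0)) (bb := fun x => a (x, 0)) (cc := fun x => c (x, 0) - a (x, 0) - b (x, 0))
    (AnalyticAt.fun_comp (g := g₀) (f := fun x : ℂ => ((x, 0) : ℂ × ℂ)) (by rw [e00]; exact hg₀) (analyticAt_id.prod analyticAt_const))
    (ContinuousAt.comp (g := a) (f := fun x : ℂ => ((x, 0) : ℂ × ℂ)) (by rw [e00]; exact ha.continuousAt) hi₂)
    (ContinuousAt.comp (g := fun p => c p - a p - b p) (f := fun x : ℂ => ((x, 0) : ℂ × ℂ)) (by rw [e00]; exact hc₁) hi₂)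
    (by
      intro h1
      have h2 : ∀ᶠ x in 𝓝[≠] (0 : ℂ), False := by
        filter_upwards [nhdsWithin_le_nhds h1, nhdsWithin_le_nhds (hi₂'.eventually hfd), nhdsWithin_le_nhds (hi₂'.eventually hg),
          nhdsWithin_le_nhds (hi₂'.eventually hw.red), hne0] with x e1 e2 e3 e4 e5
        rw [not_not] at e1
        refine e4 (fun h => e5 (congrArg Prod.fst h)) (by rw [e3]; simp) ?_
        rw [e2, e1]
        refine ContinuousLinearMap.ext fun u => ?_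
        simp
      exact (h2.exists).elim fun _ h => h)
    (by
      filter_upwards [hi₂'.eventually hE, hi₂'.eventually hg₀.eventually_analyticAt] with x e1 e2
      have h3 : HasDerivAt (fun x : ℂ => g₀ (x, 0)) (fderiv ℂ g₀ (x, 0) (1, 0)) x :=
        e2.differentiableAt.hasFDerivAt.comp_hasDerivAt x ((hasDerivAt_id x).prodMk (hasDerivAt_const x (0 : ℂ)))
      rw [h3.deriv]
      have h4 : ((x * a (x, 0), 0 * b (x, 0)) : ℂ × ℂ) = (x * a (x, 0)) • ((1, 0) : ℂ × ℂ) := by ext <;> simp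
      rw [h4, map_smul, smul_eq_mul] at e1
      linear_combination e1)
  simp only [e00] at hj hj' hi hi'
  have hj1 : 1 ≤ j := Nat.one_le_iff_ne_zero.2 fun h => (hj.1 h) h00
  have hi1 : 1 ≤ i := Nat.one_le_iff_ne_zero.2 fun h => (hi.1 h) h00
  exact hq i j hi1 hj1 (hi'.trans hj'.symm)

theorem ratio_bound {r : ℝ} {a b : ℂ × ℂ → ℂ} (ha : AnalyticOnNhd ℂ a (closedBall 0 r)) (hb : AnalyticOnNhd ℂ b (closedBall 0 r))
    (hb0 : ∀ p ∈ closedBall (0 : ℂ × ℂ) r, b p ≠ 0) : ∃ K : ℝ, 0 < K ∧ ∀ p ∈ closedBall (0 : ℂ × ℂ) r, ‖a p‖ ≤ K * ‖b p‖ := by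
  obtain ⟨K, hK0, hK⟩ := exists_bound (r := r) (f := fun p => a p / b p)
    (ContinuousOn.div (fun p hp => (ha p hp).continuousAt.continuousWithinAt) (fun p hp => (hb p hp).continuousAt.continuousWithinAt) hb0)
  refine ⟨K, hK0, fun p hp => ?_⟩
  have h1 := hK p hp
  rwa [norm_div, div_le_iff₀ (norm_pos_iff.2 (hb0 p hp))] at h1

theorem fderiv_bound {r : ℝ} {g₀ : ℂ × ℂ → ℂ} (h : AnalyticOnNhd ℂ g₀ (closedBall 0 r)) :
    ∃ K : ℝ, 0 < K ∧ ∀ p ∈ closedBall (0 : ℂ × ℂ) r, ‖fderiv ℂ g₀ p‖ ≤ K := by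
  obtain ⟨C, hC⟩ := (isCompact_closedBall (0 : ℂ × ℂ) r).exists_bound_of_continuousOn (f := fderiv ℂ g₀)
    fun p hp => (h p hp).fderiv.continuousAt.continuousWithinAt
  exact ⟨max C 1, lt_of_lt_of_le one_pos (le_max_right _ _), fun p hp => (hC p hp).trans (le_max_left _ _)⟩

/-- the bounded part of the field of a node, with a unit `g₀` -/
def D0 (a b g₀ : ℂ × ℂ → ℂ) (p : ℂ → ℂ × ℂ) (z : ℂ) : ℂ := G0 a b p z - deriv (fun w => g₀ (p w)) z / g₀ (p z)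

theorem D0_bound {r : ℝ} {a b g₀ : ℂ × ℂ → ℂ} (ha : AnalyticOnNhd ℂ a (closedBall 0 r)) (hb : AnalyticOnNhd ℂ b (closedBall 0 r))
    (hg : AnalyticOnNhd ℂ g₀ (closedBall 0 r)) (ha0 : ∀ p ∈ closedBall (0 : ℂ × ℂ) r, a p ≠ 0) (hb0 : ∀ p ∈ closedBall (0 : ℂ × ℂ) r, b p ≠ 0)
    (hg0 : ∀ p ∈ closedBall (0 : ℂ × ℂ) r, g₀ p ≠ 0) : ∃ C : ℝ, 0 < C ∧ ∀ {p : ℂ → ℂ × ℂ} {z : ℂ} (_ : AnalyticAt ℂ p z)
      (_ : p z ∈ closedBall (0 : ℂ × ℂ) r), AnalyticAt ℂ (D0 a b g₀ p) z ∧ ‖D0 a b g₀ p z‖ ≤ C * ‖deriv p z‖ := by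
  have hda : AnalyticOnNhd ℂ (fun p => fderiv ℂ a p (1, 0)) (closedBall 0 r) := fun p hp =>
    ((ContinuousLinearMap.apply ℂ ℂ ((1, 0) : ℂ × ℂ)).analyticAt _).comp (ha p hp).fderiv
  have hdb : AnalyticOnNhd ℂ (fun p => fderiv ℂ b p (0, 1)) (closedBall 0 r) := fun p hp =>
    ((ContinuousLinearMap.apply ℂ ℂ ((0, 1) : ℂ × ℂ)).analyticAt _).comp (hb p hp).fderiv
  obtain ⟨K₁, hK₁, h1⟩ := ratio_bound hda ha ha0
  obtain ⟨K₂, hK₂, h2⟩ := ratio_bound hdb hb hb0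
  obtain ⟨K₃, hK₃, h3⟩ := fderiv_bound hg
  obtain ⟨K₄, hK₄, h4⟩ := ratio_bound (a := fun _ => 1) (fun p _ => analyticAt_const) hg hg0
  refine ⟨K₁ + K₂ + K₃ * K₄, by positivity, fun {p z} hp hz => ?_⟩
  have hgp : AnalyticAt ℂ (fun w => g₀ (p w)) z := (hg _ hz).comp hp
  refine ⟨(an_G0 (ha _ hz) (hb _ hz) (ha0 _ hz) (hb0 _ hz) hp).sub (hgp.deriv.div hgp (hg0 _ hz)), ?_⟩
  have e1 : ‖(deriv p z).1‖ ≤ ‖deriv p z‖ := norm_fst_le _
  have e2 : ‖(deriv p z).2‖ ≤ ‖deriv p z‖ := norm_snd_le _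
  have e0 := norm_nonneg (deriv p z)
  have k1 : ‖fderiv ℂ a (p z) (1, 0) * (deriv p z).1 / a (p z)‖ ≤ K₁ * ‖deriv p z‖ := by
    rw [norm_div, norm_mul, div_le_iff₀ (norm_pos_iff.2 (ha0 _ hz))]
    calc _ ≤ (K₁ * ‖a (p z)‖) * ‖deriv p z‖ := mul_le_mul (h1 _ hz) e1 (norm_nonneg _) (by positivity)
      _ = _ := by ring
  have k2 : ‖fderiv ℂ b (p z) (0, 1) * (deriv p z).2 / b (p z)‖ ≤ K₂ * ‖deriv p z‖ := by
    rw [norm_div, norm_mul, div_le_iff₀ (norm_pos_iff.2 (hb0 _ hz))]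
    calc _ ≤ (K₂ * ‖b (p z)‖) * ‖deriv p z‖ := mul_le_mul (h2 _ hz) e2 (norm_nonneg _) (by positivity)
      _ = _ := by ring
  have k3 : ‖deriv (fun w => g₀ (p w)) z / g₀ (p z)‖ ≤ K₃ * K₄ * ‖deriv p z‖ := by
    have h5 : HasDerivAt (fun w => g₀ (p w)) (fderiv ℂ g₀ (p z) (deriv p z)) z :=
      (hg _ hz).differentiableAt.hasFDerivAt.comp_hasDerivAt z hp.differentiableAt.hasDerivAt
    have h6 := h4 _ hz
    rw [norm_one] at h6
    rw [h5.deriv, norm_div, div_le_iff₀ (norm_pos_iff.2 (hg0 _ hz))]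
    calc ‖fderiv ℂ g₀ (p z) (deriv p z)‖ ≤ ‖fderiv ℂ g₀ (p z)‖ * ‖deriv p z‖ := ContinuousLinearMap.le_opNorm _ _
      _ ≤ K₃ * ‖deriv p z‖ := mul_le_mul_of_nonneg_right (h3 _ hz) e0
      _ = K₃ * ‖deriv p z‖ * 1 := by ring
      _ ≤ K₃ * ‖deriv p z‖ * (K₄ * ‖g₀ (p z)‖) := mul_le_mul_of_nonneg_left h6 (by positivity)
      _ = _ := by ring
  unfold D0 G0
  calc _ ≤ (‖fderiv ℂ a (p z) (1, 0) * (deriv p z).1 / a (p z)‖ + ‖fderiv ℂ b (p z) (0, 1) * (deriv p z).2 / b (p z)‖) +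
        ‖deriv (fun w => g₀ (p w)) z / g₀ (p z)‖ := (norm_sub_le _ _).trans (add_le_add (norm_add_le _ _) le_rfl)
    _ ≤ _ := by linarith

/-- the package at a corner, `g = x y g₀`, `g₀` a unit -/
theorem corner_pkg {a b g g₀ J : ℂ × ℂ → ℂ} (ha : AnalyticAt ℂ a 0) (hb : AnalyticAt ℂ b 0) (ha0 : a 0 ≠ 0) (hb0 : b 0 ≠ 0)
    (hq : ∀ k l : ℕ, 1 ≤ k → 1 ≤ l → k * a 0 ≠ l * b 0) (hg₀ : AnalyticAt ℂ g₀ 0) (hu : g₀ 0 ≠ 0)
    (hg : ∀ᶠ p in 𝓝 (0 : ℂ × ℂ), g p = p.1 * p.2 * g₀ p) (hJ : AnalyticAt ℂ J 0) : ∀ᶠ r in 𝓝[>] (0 : ℝ), ∀ B, 0 ≤ B → ∀ (d : ℕ) (q : ℂ × ℂ → ℂ)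
      (ψ : ℂ × ℂ → ℝ) (M : ℕ) (F : ℂ → EN M) (Q : ℂ → ℂ) (lm : ℂ → ℝ) (Om : Set ℂ) (p : ℂ → ℂ × ℂ),
        Dat (fun p => (p.1 * a p, p.2 * b p)) g r B d q ψ F Q lm Om p → ∀ s, LocX (fun p => (p.1 * a p, p.2 * b p)) g J Om p lm s 1 0 := by
  have h1 := eventually_cball (ha.eventually_analyticAt.and (hb.eventually_analyticAt.and (hg₀.eventually_analyticAt.and
    (hJ.eventually_analyticAt.and ((ha.continuousAt.eventually_ne ha0).and ((hb.continuousAt.eventually_ne hb0).and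
      ((hg₀.continuousAt.eventually_ne hu).and hg)))))))
  filter_upwards [h1] with r hr B hB
  have r1 : AnalyticOnNhd ℂ a (closedBall 0 r) := fun p hp => (hr p hp).1
  have r2 : AnalyticOnNhd ℂ b (closedBall 0 r) := fun p hp => (hr p hp).2.1
  have r3 : AnalyticOnNhd ℂ g₀ (closedBall 0 r) := fun p hp => (hr p hp).2.2.1
  have r4 : AnalyticOnNhd ℂ J (closedBall 0 r) := fun p hp => (hr p hp).2.2.2.1
  have r5 : ∀ p ∈ closedBall (0 : ℂ × ℂ) r, a p ≠ 0 := fun p hp => (hr p hp).2.2.2.2.1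
  have r6 : ∀ p ∈ closedBall (0 : ℂ × ℂ) r, b p ≠ 0 := fun p hp => (hr p hp).2.2.2.2.2.1
  have r7 : ∀ p ∈ closedBall (0 : ℂ × ℂ) r, g₀ p ≠ 0 := fun p hp => (hr p hp).2.2.2.2.2.2.1
  have r8 : ∀ p ∈ closedBall (0 : ℂ × ℂ) r, g p = p.1 * p.2 * g₀ p := fun p hp => (hr p hp).2.2.2.2.2.2.2
  obtain ⟨C₁, hC₁, hD0⟩ := D0_bound r1 r2 r3 r5 r6 r7
  obtain ⟨K₁, hK₁, hab⟩ := ratio_bound r1 r2 r6
  obtain ⟨K₂, hK₂, hba⟩ := ratio_bound r2 r1 r5
  have r10 : AnalyticOnNhd ℂ (fun p : ℂ × ℂ => p.2 * g₀ p * J p) (closedBall 0 r) := fun p hp =>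
    (analyticAt_snd.mul (r3 p hp)).mul (r4 p hp)
  obtain ⟨C₂, hC₂, hgJ⟩ := ratio_bound r10 r1 r5
  intro d q ψ M F Q lm Om p hD s
  have hcrv := hD.crv
  have hmem : ∀ z ∈ Om, p z ∈ closedBall (0 : ℂ × ℂ) r := fun z hz => ball_subset_closedBall (hcrv.mem z hz)
  have hN : NodeC (fun p => (p.1 * a p, p.2 * b p)) r Om p a b (max K₁ K₂) :=
    ⟨hcrv, r1, r2, r5, r6, fun _ => rfl, fun p hp => (hab p hp).trans (mul_le_mul_of_nonneg_right (le_max_left _ _) (norm_nonneg _)),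
      fun p hp => (hba p hp).trans (mul_le_mul_of_nonneg_right (le_max_right _ _) (norm_nonneg _))⟩
  -- no curve meets the axes
  have hax : ∀ z ∈ Om, (p z).1 ≠ 0 ∧ (p z).2 ≠ 0 := fun z hz => by
    have h2 : ∀ᶠ w in 𝓝 z, g (p w) = (p w).1 * (p w).2 * g₀ (p w) := by
      filter_upwards [hcrv.isOpen.mem_nhds hz] with w hw using r8 _ (hmem w hw)
    have h3 := (hD.g_ne z hz).and_eventually h2
    obtain ⟨m, k, hm, hk, hmk⟩ := ord_axes hcrv (fun _ => rfl) hz (r1 _ (hmem z hz)).continuousAt (r2 _ (hmem z hz)).continuousAt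
      (h3.mono fun w hw h4 => hw.1 (by rw [hw.2, h4, zero_mul, zero_mul])) (h3.mono fun w hw h4 => hw.1 (by rw [hw.2, h4, mul_zero, zero_mul]))
    rw [← hm, ← hk]
    have ha' := r5 _ (hmem z hz)
    have hb' := r6 _ (hmem z hz)
    rcases Nat.eq_zero_or_pos m with rfl | hm0
    · refine ⟨rfl, ?_⟩
      rw [Nat.cast_zero, zero_mul] at hmk
      exact_mod_cast (mul_eq_zero.1 hmk.symm).resolve_right ha'
    · exfalso
      rcases Nat.eq_zero_or_pos k with rfl | hk0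
      · rw [Nat.cast_zero, zero_mul] at hmk
        have := (mul_eq_zero.1 hmk).resolve_right hb'
        exact hm0.ne' (by exact_mod_cast this)
      · have h5 : (p z).1 = 0 := by
          by_contra h5
          exact hm0.ne' (hm.2 h5)
        have h6 : (p z).2 = 0 := by
          by_contra h6
          exact hk0.ne' (hk.2 h6)
        have h7 : p z = 0 := Prod.ext h5 h6
        rw [h7] at hmk
        exact hq k m hk0 hm0 hmk.symm
  have hgz : ∀ z ∈ Om, g (p z) = (p z).1 * (p z).2 * g₀ (p z) := fun z hz => r8 _ (hmem z hz)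
  have hDD : ∀ z ∈ Om, DDv (fun p => (p.1 * a p, p.2 * b p)) g p z = D0 a b g₀ p z := fun z hz => by
    obtain ⟨hx, hy⟩ := hax z hz
    have hg0 := r7 _ (hmem z hz)
    unfold DDv D0
    rw [hN.dvg_zt hz (Or.inl hx)]
    have e1 : (fun w => g (p w)) =ᶠ[𝓝 z] fun w => (p w).1 * (p w).2 * g₀ (p w) := by
      filter_upwards [hcrv.isOpen.mem_nhds hz] with w hw using hgz w hw
    have hp := hcrv.an z hz
    have d1 : HasDerivAt (fun w => (p w).1) (deriv p z).1 z := by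
      have := (an_fst hp).differentiableAt.hasDerivAt
      rwa [deriv_fst' hp.differentiableAt] at this
    have d2 : HasDerivAt (fun w => (p w).2) (deriv p z).2 z := by
      have := (an_snd hp).differentiableAt.hasDerivAt
      rwa [deriv_snd' hp.differentiableAt] at this
    have d3 : HasDerivAt (fun w => g₀ (p w)) (deriv (fun w => g₀ (p w)) z) z :=
      (AnalyticAt.differentiableAt ((r3 _ (hmem z hz)).comp hp)).hasDerivAt
    rw [e1.deriv_eq, ((d1.fun_mul d2).fun_mul d3).deriv, hgz z hz, hN.dfst hz (Or.inl hx), hN.dsnd hz (Or.inl hx)]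
    field_simp
    ring
  have hDan : ∀ z ∈ Om, AnalyticAt ℂ (D0 a b g₀ p) z := fun z hz => (hD0 (hcrv.an z hz) (hmem z hz)).1
  have hDle : ∀ z ∈ Om, ‖D0 a b g₀ p z‖ ≤ C₁ * B * lm z := fun z hz => by
    refine ((hD0 (hcrv.an z hz) (hmem z hz)).2).trans ?_
    rw [mul_assoc]
    exact mul_le_mul_of_nonneg_left (hD.lm_ge z hz) hC₁.le
  have hI : ∀ R, 1 ≤ R → 0 ≤ ∫ z, tau R z * lm z ^ 2 := fun R hR =>
    integral_nonneg fun z => mul_nonneg (Pool.Agent.H30M.tau_nonneg hR _) (sq_nonneg _)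
  set C : ℝ := C₁ * B + Real.log (1 + C₂ * B) with hC
  have hlog0 : 0 ≤ Real.log (1 + C₂ * B) := Real.log_nonneg (by
    have : 0 ≤ C₂ * B := by positivity
    linarith)
  have hC0 : 0 ≤ C := by positivity
  refine ⟨C, lm, fun z => (starRingEnd ℂ) (D0 a b g₀ p z), fun _ => 0, fun _ => 0, hC0, hD.lm_cont, fun z => le_rfl, fun R hR => by linarith, ?_,
    continuousOn_const, fun z _ => ⟨0, LogSing.of_contDiffAt contDiffAt_const⟩, fun z hz _ => ⟨by rw [hDD z hz], rfl, rfl⟩, fun z hz _ => ?_,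
    fun z hz _ => ?_, fun z hz _ hzt hgz' hJz => ?_, fun R hR => ?_⟩
  · exact fun z hz => (contDiffAt_conj_holo (hDan z hz)).contDiffWithinAt
  · rw [RCLike.norm_conj]
    refine (hDle z hz).trans (mul_le_mul_of_nonneg_right ?_ (hD.lm_nonneg z))
    linarith
  · have e : dv (fun z => (starRingEnd ℂ) (D0 a b g₀ p z)) z = 0 := dv_conj (hDan z hz).differentiableAt
    have e2 : Δ (fun _ : ℂ => (0 : ℝ)) z = 0 := by simp
    rw [e, e2]
    norm_num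
  · rw [add_zero]
    obtain ⟨hx, hy⟩ := hax z hz
    have hap := r5 _ (hmem z hz)
    rw [← Real.log_mul (norm_ne_zero_iff.2 hzt) (norm_ne_zero_iff.2 hgz'), ← Real.log_mul (mul_ne_zero (norm_ne_zero_iff.2 hzt) (norm_ne_zero_iff.2 hgz'))
      (norm_ne_zero_iff.2 hJz), ← norm_mul, ← norm_mul]
    have hlm := hD.lm_nonneg z
    have e1 : ‖ztv (fun p => (p.1 * a p, p.2 * b p)) p z * g (p z) * J (p z)‖ ≤ C₂ * B * lm z := by
      have e2 : ztv (fun p => (p.1 * a p, p.2 * b p)) p z * g (p z) * J (p z) =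
          (deriv p z).1 * ((p z).2 * g₀ (p z) * J (p z) / a (p z)) := by
        rw [hgz z hz, hN.dfst hz (Or.inl hx)]
        field_simp
      rw [e2, norm_mul, norm_div]
      have e3 := hgJ _ (hmem z hz)
      calc ‖(deriv p z).1‖ * (‖(p z).2 * g₀ (p z) * J (p z)‖ / ‖a (p z)‖) ≤ ‖deriv p z‖ * C₂ :=
            mul_le_mul (norm_fst_le _) (by rwa [div_le_iff₀ (norm_pos_iff.2 hap)]) (by positivity) (norm_nonneg _)
        _ ≤ B * lm z * C₂ := mul_le_mul_of_nonneg_right (hD.lm_ge z hz) hC₂.le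
        _ = _ := by ring
    have e3 : 0 < ‖ztv (fun p => (p.1 * a p, p.2 * b p)) p z * g (p z) * J (p z)‖ := norm_pos_iff.2 (mul_ne_zero (mul_ne_zero hzt hgz') hJz)
    have hCB : 0 ≤ C₂ * B := by positivity
    have e4 : C₂ * B * lm z ≤ (1 + C₂ * B) * (1 + lm z) := by nlinarith
    calc Real.log _ ≤ Real.log ((1 + C₂ * B) * (1 + lm z)) := Real.log_le_log e3 (e1.trans e4)
      _ = Real.log (1 + C₂ * B) + Real.log (1 + lm z) := Real.log_mul (by positivity) (by positivity)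
      _ ≤ _ := by
        have : 0 ≤ C₁ * B := by positivity
        linarith
  · simp only [mul_zero, integral_zero, zero_mul, zero_div, zero_add]
    refine add_nonneg (mul_nonneg hC0 (integral_nonneg fun z => mul_nonneg (norm_nonneg _) (hD.lm_nonneg z))) hC0

/-- **The package at a corner.** -/
theorem good_C {a b : ℂ × ℂ → ℂ} (ha : AnalyticAt ℂ a 0) (hb : AnalyticAt ℂ b 0) (ha0 : a 0 ≠ 0) (hb0 : b 0 ≠ 0)
    (hq : ∀ k l : ℕ, 1 ≤ k → 1 ≤ l → k * a 0 ≠ l * b 0) : Good PC fun p => (p.1 * a p, p.2 * b p) := by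
  refine ⟨0, fun i => i.elim0, fun i => i.elim0, ?_⟩
  rintro g J ⟨⟨g₀, hg₀, hg⟩, -⟩ hw hJan
  filter_upwards [corner_pkg ha hb ha0 hb0 hq hg₀ (corner_unit ha hb hq hg₀ hg hw) hg hJan] with r hr s hs hsr B hB
  refine ⟨1, 0, zero_le_one, le_rfl, ?_⟩
  intro d n q ψ _ _ _ _ _ M F Q lm Om p hD
  rw [zero_mul, zero_div]
  exact hr B hB d q ψ M F Q lm Om p hD s

end Pool.Agent.MQ2

end
end
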