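import Pool.Agent.H43.TL2.M23
import Pool.Agent.H43.TL2.M27
import Pool.Agent.H43.TL2.M45
import Pool.Agent.H43.TL2.M54
import Pool.Agent.H43.TL2.M66
import Pool.Agent.H43.TL2.M78
import Pool.Agent.H43.TL2.M79

/-! The parts of this file: E2.Kod, MQ3.InvS, MQ3.InvP, MQ3.RegL, MQL.CorD, SDA.EM. -/

section

/-!
# E2 Kod: a section of `M K - H` without zeros off a curve, and the curves along which it vanishes
-/

set_option autoImplicit false

open Topology Filter Metric MvPolynomial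

noncomputable section

namespace Pool.Agent.E2

open Pool.Agent.H36.BP (EN)
open Pool.Agent.H14.PP (Tan)
open Pool.Agent.H17BP (Surface IsChart IsForm NoZeros)
open Pool.Agent.H62.FC (Homog)
open Pool.Agent.H17LG.Variety (FunField)
open Pool.Agent.H17EF (coneE LE)
open Pool.Agent.H13.SM (cone)

variable {N : ℕ}

/-- the derivative of a nonconstant curve is not proportional to the curve, at a dense set of points -/
theorem frequently_ind {F : ℂ → EN N} (hF : Differentiable ℂ F) (h0 : ∀ z, F z ≠ 0) (hne : ∃ z w, ∀ c : ℂ, F z ≠ c • F w) (z₁ : ℂ) :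
    ∃ᶠ z in 𝓝 z₁, ∀ a : ℂ, deriv F z ≠ a • F z := by
  intro hcon
  have hcon' : ∀ᶠ z in 𝓝 z₁, ∃ a : ℂ, deriv F z = a • F z := by
    filter_upwards [hcon] with z hz
    push Not at hz
    exact hz
  set G : ℂ → Fin (N + 1) → ℂ := fun z => (LE N).symm (F z) with hG
  have hGd : ∀ z, HasDerivAt G ((LE N).symm (deriv F z)) z := fun z =>
    ((LE N).symm : EN N →L[ℂ] (Fin (N + 1) → ℂ)).hasFDerivAt.comp_hasDerivAt z (hF z).hasDerivAt
  have hGdiff : Differentiable ℂ G := fun z => (hGd z).differentiableAt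
  have hG0 : ∀ z, G z ≠ 0 := fun z e => h0 z ((LE N).symm.map_eq_zero_iff.1 e)
  have h1 := Pool.Agent.H14.KB.const_of_deriv (hGdiff.analyticAt z₁) (hG0 z₁) (by
    filter_upwards [hcon'] with z hz
    obtain ⟨a, ha⟩ := hz
    refine ⟨a, ?_⟩
    rw [(hGd z).deriv, ha, map_smul])
  obtain ⟨j, hj⟩ : ∃ j, G z₁ j ≠ 0 := by
    by_contra h
    push Not at h
    exact hG0 z₁ (funext h)
  have hm : ∀ i z, G z i * G z₁ j - G z j * G z₁ i = 0 := by
    intro i
    have hGi : ∀ i, Differentiable ℂ fun z => G z i := fun i z => (hasDerivAt_pi.1 (hGd z) i).differentiableAt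
    have hd : Differentiable ℂ fun z => G z i * G z₁ j - G z j * G z₁ i := ((hGi i).mul_const _).sub ((hGi j).mul_const _)
    have ha : AnalyticOnNhd ℂ (fun z => G z i * G z₁ j - G z j * G z₁ i) Set.univ := fun z _ => hd.analyticAt z
    have h2 : (fun z => G z i * G z₁ j - G z j * G z₁ i) =ᶠ[𝓝 z₁] fun _ => 0 := by
      filter_upwards [h1] with z hz
      obtain ⟨c, -, hc⟩ := hz
      rw [hc]
      simp only [Pi.smul_apply, smul_eq_mul]
      ring
    have h3 := ha.eqOn_of_preconnected_of_eventuallyEq (fun z _ => analyticAt_const) isPreconnected_univ (Set.mem_univ z₁) h2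
    exact fun z => h3 (Set.mem_univ z)
  have hc : ∀ z, F z = (G z j / G z₁ j) • F z₁ := by
    intro z
    apply (LE N).symm.injective
    rw [map_smul]
    funext i
    show G z i = G z j / G z₁ j * G z₁ i
    rw [div_mul_eq_mul_div, eq_div_iff hj]
    linear_combination hm i z
  have hc0 : ∀ z, G z j / G z₁ j ≠ 0 := by
    intro z e
    have h2 := hc z
    rw [e, zero_smul] at h2
    exact h0 z h2
  obtain ⟨z, w, h⟩ := hne
  refine h ((G z j / G z₁ j) * (G w j / G z₁ j)⁻¹) ?_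
  conv_rhs => rw [hc w]
  rw [smul_smul, mul_assoc, inv_mul_cancel₀ (hc0 w), mul_one]
  exact hc z

/-- a second tangent vector -/
theorem exists_second {X : Set (EN N)} (hX : Surface X) {x v : EN N} (hx : x ∈ X) (hv : Tan X x v) (hne : ∀ a : ℂ, v ≠ a • x) :
    ∃ w, Tan X x w ∧ LinearIndependent ℂ ![x, v, w] := by
  obtain ⟨σ, τ, hσ, h0⟩ := hX.chart x hx
  have hin : ∀ {w : ℂ × ℂ} {a : ℂ}, fderiv ℂ σ 0 w = a • σ 0 → w = 0 := fun h => (Pool.Agent.H62.BU.toChart hσ).indep h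
  obtain ⟨-, h1⟩ := (tan_chart hX hσ).self_of_nhds
  rw [h0] at h1
  obtain ⟨u, a, hu⟩ := h1 v hv
  have hu0 : u ≠ 0 := by
    rintro rfl
    rw [map_zero, zero_add] at hu
    exact hne a hu
  -- a vector of the plane which is not a multiple of `u`
  obtain ⟨u', hu'⟩ : ∃ u' : ℂ × ℂ, LinearIndependent ℂ ![u, u'] := by
    by_cases h : u.1 = 0
    · refine ⟨(1, 0), LinearIndependent.pair_iff.2 fun s t hst => ?_⟩
      have h2 : u.2 ≠ 0 := fun e => hu0 (Prod.ext h e)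
      have e1 := congrArg Prod.fst hst
      have e2 := congrArg Prod.snd hst
      simp only [Prod.fst_add, Prod.smul_fst, Prod.snd_add, Prod.smul_snd, smul_eq_mul, Prod.fst_zero, Prod.snd_zero, h, mul_zero, zero_add, mul_one,
        add_zero] at e1 e2
      exact ⟨(mul_eq_zero.1 e2).resolve_right h2, e1⟩
    · refine ⟨(0, 1), LinearIndependent.pair_iff.2 fun s t hst => ?_⟩
      have e1 := congrArg Prod.fst hst
      have e2 := congrArg Prod.snd hst
      simp only [Prod.fst_add, Prod.smul_fst, Prod.snd_add, Prod.smul_snd, smul_eq_mul, Prod.fst_zero, Prod.snd_zero, mul_zero, mul_one,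
        add_zero] at e1 e2
      have e3 := (mul_eq_zero.1 e1).resolve_right h
      rw [e3, zero_mul, zero_add] at e2
      exact ⟨e3, e2⟩
  refine ⟨fderiv ℂ σ 0 u', ?_, ?_⟩
  · rw [← h0]
    exact tan_fderiv_chart hσ.σ_an hσ.σ_mem u'
  · rw [LinearIndependent.pair_iff] at hu'
    rw [Fintype.linearIndependent_iff]
    intro g hg
    rw [Fin.sum_univ_three] at hg
    simp only [Matrix.cons_val_zero, Matrix.cons_val_one, Matrix.cons_val_two, Matrix.tail_cons, Matrix.head_cons] at hg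
    rw [hu, ← h0] at hg
    have h2 : fderiv ℂ σ 0 (g 1 • u + g 2 • u') = (-(g 0 + g 1 * a)) • σ 0 := by
      rw [map_add, map_smul, map_smul, ← sub_eq_zero, ← hg]
      module
    have h3 := hin h2
    obtain ⟨e1, e2⟩ := hu' _ _ h3
    have h4 : g 0 • σ 0 = 0 := by
      rw [e1, e2, zero_smul, zero_smul, add_zero, add_zero] at hg
      exact hg
    have e0 : g 0 = 0 := (smul_eq_zero.1 h4).resolve_right hσ.ne
    intro i
    fin_cases i
    · exact e0
    · exact e1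
    · exact e2

/-- the transported form -/
theorem isForm_transport {X : Set (Fin (N + 1) → ℂ)} {m j : ℕ} {Ω : (Fin (N + 1) → ℂ) → (Fin (N + 1) → ℂ) → (Fin (N + 1) → ℂ) → ℂ} (hΩ : IsForm X m j Ω) :
    IsForm ((LE N).symm ⁻¹' X : Set (EN N)) m j (fun x v w => Ω ((LE N).symm x) ((LE N).symm v) ((LE N).symm w)) := by
  have ht : ∀ x v : EN N, v ∈ Pool.Agent.H17BP.Tan ((LE N).symm ⁻¹' X : Set (EN N)) x → (LE N).symm v ∈ Pool.Agent.H17BP.Tan X ((LE N).symm x) := by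
    rintro x v ⟨F, hF, hFX, h0, h1⟩
    exact Pool.Agent.H36.BP.tan_transport (LE N) ⟨F, ⟨hF, hFX⟩, h0, h1⟩
  refine ⟨fun x hx v hv w hw a b => ?_, fun x hx v hv w hw a b c d => ?_, fun x hx v hv w hw c hc => ?_, fun φ p hφ hφX => ?_⟩
  · rw [map_add, map_add, map_smul, map_smul]
    exact hΩ.add_smul _ hx _ (ht x v hv) _ (ht x w hw) a b
  · rw [map_add, map_add, map_smul, map_smul, map_smul, map_smul]
    exact hΩ.det _ hx _ (ht x v hv) _ (ht x w hw) a b c d
  · rw [map_smul, map_smul, map_smul]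
    exact hΩ.scale _ hx _ (ht x v hv) _ (ht x w hw) c hc
  · have h1 : AnalyticAt ℂ (fun y => (LE N).symm (φ y)) p := (((LE N).symm : EN N →L[ℂ] (Fin (N + 1) → ℂ)).analyticAt _).comp hφ
    have h2 := hΩ.analytic _ p h1 hφX
    refine h2.congr ?_
    filter_upwards [hφ.eventually_analyticAt] with y hy
    have h3 : HasFDerivAt (fun y => (LE N).symm (φ y)) (((LE N).symm : EN N →L[ℂ] (Fin (N + 1) → ℂ)).comp (fderiv ℂ φ y)) y :=
      ((LE N).symm : EN N →L[ℂ] (Fin (N + 1) → ℂ)).hasFDerivAt.comp y hy.differentiableAt.hasFDerivAt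
    rw [h3.fderiv]
    rfl

end Pool.Agent.E2

end
end

section

/-!
# MQ3 InvS: the zeros of a germ in two variables are smooth off the origin
-/

set_option autoImplicit false

open Topology Filter

noncomputable section

namespace Pool.Agent.MQ3

open Pool.Agent.H17BP

/-- bounded functions converge along an ultrafilter -/
private theorem InvS_lim {U : Ultrafilter (ℂ × ℂ)} {f : ℂ × ℂ → ℂ}
    (h : ∀ᶠ p in (U : Filter (ℂ × ℂ)), ‖f p‖ ≤ 1) : ∃ c : ℂ, Tendsto f U (𝓝 c) := by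
  have h1 : ((U.map f : Ultrafilter ℂ) : Filter ℂ) ≤ 𝓟 (Metric.closedBall (0 : ℂ) 1) := by
    rw [Filter.le_principal_iff, Ultrafilter.coe_map, Filter.mem_map]
    filter_upwards [h] with p hp
    simpa using hp
  obtain ⟨c, -, hc⟩ := (isCompact_closedBall (0 : ℂ) 1).ultrafilter_le_nhds (U.map f) h1
  exact ⟨c, hc⟩

/-- Induction over the resolution of a germ. -/
theorem resN_near (Q : (ℂ × ℂ → ℂ) → ℂ × ℂ → Prop) (h0 : ∀ g, Mono g → ∀ᶠ p in 𝓝[≠] (0 : ℂ × ℂ), Q g p)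
    (h1 : ∀ g (c : ℂ) (p : ℂ × ℂ), p.1 ≠ 0 → Q (g ∘ bl c) p → Q g (bl c p))
    (h2 : ∀ g (p : ℂ × ℂ), p.2 ≠ 0 → Q (g ∘ blInf) p → Q g (blInf p)) {n : ℕ} :
    ∀ {g : ℂ × ℂ → ℂ}, ResN n g → ∀ᶠ p in 𝓝[≠] (0 : ℂ × ℂ), Q g p := by
  have key1 : ∀ {g : ℂ × ℂ → ℂ} {U : Ultrafilter (ℂ × ℂ)}, (U : Filter (ℂ × ℂ)) ≤ 𝓝 0 →
      (∀ᶠ p in (U : Filter (ℂ × ℂ)), ¬ Q g p) → ∀ {c : ℂ}, Tendsto (fun p : ℂ × ℂ => p.2 / p.1) U (𝓝 c) →
      (∀ᶠ p in (U : Filter (ℂ × ℂ)), p.1 ≠ 0) → (∀ᶠ p in 𝓝[≠] (0 : ℂ × ℂ), Q (g ∘ bl c) p) → False := by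
    intro g U hU0 hbad c hc hne hih
    have ht1 : Tendsto (fun p : ℂ × ℂ => p.1) U (𝓝 0) := by
      have h2 : Tendsto (fun p : ℂ × ℂ => p.1) (𝓝 0) (𝓝 (0 : ℂ × ℂ).1) := continuous_fst.tendsto 0
      exact h2.mono_left hU0
    have ht2 : Tendsto (fun p : ℂ × ℂ => p.2 / p.1 - c) U (𝓝 0) := by
      have h2 := hc.sub_const c
      rwa [sub_self] at h2
    have ht : Tendsto (fun p : ℂ × ℂ => (p.1, p.2 / p.1 - c)) U (𝓝[≠] 0) := by
      rw [tendsto_nhdsWithin_iff]
      refine ⟨?_, ?_⟩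
      · exact ht1.prodMk_nhds ht2
      · filter_upwards [hne] with p hp
        intro h0
        exact hp (congrArg Prod.fst h0)
    obtain ⟨p, hp1, hp2, hp3⟩ := ((ht.eventually hih).and (hne.and hbad)).exists
    apply hp3
    have h4 : bl c (p.1, p.2 / p.1 - c) = p := by
      unfold bl
      ext
      · rfl
      · simp only
        field_simp
        ring
    have h5 := h1 g c (p.1, p.2 / p.1 - c) hp2 hp1
    rwa [h4] at h5
  have key2 : ∀ {g : ℂ × ℂ → ℂ} {U : Ultrafilter (ℂ × ℂ)}, (U : Filter (ℂ × ℂ)) ≤ 𝓝 0 →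
      (∀ᶠ p in (U : Filter (ℂ × ℂ)), ¬ Q g p) → Tendsto (fun p : ℂ × ℂ => p.1 / p.2) U (𝓝 0) →
      (∀ᶠ p in (U : Filter (ℂ × ℂ)), p.2 ≠ 0) → (∀ᶠ p in 𝓝[≠] (0 : ℂ × ℂ), Q (g ∘ blInf) p) → False := by
    intro g U hU0 hbad hc hne hih
    have ht1 : Tendsto (fun p : ℂ × ℂ => p.2) U (𝓝 0) := by
      have h2 : Tendsto (fun p : ℂ × ℂ => p.2) (𝓝 0) (𝓝 (0 : ℂ × ℂ).2) := continuous_snd.tendsto 0
      exact h2.mono_left hU0
    have ht : Tendsto (fun p : ℂ × ℂ => (p.1 / p.2, p.2)) U (𝓝[≠] 0) := by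
      rw [tendsto_nhdsWithin_iff]
      refine ⟨?_, ?_⟩
      · exact hc.prodMk_nhds ht1
      · filter_upwards [hne] with p hp
        intro h0
        exact hp (congrArg Prod.snd h0)
    obtain ⟨p, hp1, hp2, hp3⟩ := ((ht.eventually hih).and (hne.and hbad)).exists
    apply hp3
    have h4 : blInf (p.1 / p.2, p.2) = p := by
      unfold blInf
      ext
      · simp only
        field_simp
      · rfl
    have h5 := h2 g (p.1 / p.2, p.2) hp2 hp1
    rwa [h4] at h5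
  induction n with
  | zero =>
    intro g h
    exact h0 g h
  | succ n ih =>
    intro g h
    rcases h with h | h
    · exact h0 g h
    · by_contra hne
      have hf : ∃ᶠ p in 𝓝[≠] (0 : ℂ × ℂ), ¬ Q g p := Filter.not_eventually.mp hne
      have hnb := Filter.frequently_iff_neBot.mp hf
      obtain ⟨U, hU⟩ := Ultrafilter.exists_le (𝓝[≠] (0 : ℂ × ℂ) ⊓ 𝓟 {p | ¬ Q g p})
      have hU1 : (U : Filter (ℂ × ℂ)) ≤ 𝓝[≠] 0 := hU.trans inf_le_left
      have hU0 : (U : Filter (ℂ × ℂ)) ≤ 𝓝 0 := hU1.trans nhdsWithin_le_nhds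
      have hbad : ∀ᶠ p in (U : Filter (ℂ × ℂ)), ¬ Q g p := Filter.le_principal_iff.mp (hU.trans inf_le_right)
      have hne0 : ∀ᶠ p in (U : Filter (ℂ × ℂ)), p ≠ 0 := by
        have h1 : ∀ᶠ p in 𝓝[≠] (0 : ℂ × ℂ), p ≠ 0 := eventually_mem_nhdsWithin
        exact h1.filter_mono hU1
      rcases U.em (fun p => ‖p.2‖ ≤ ‖p.1‖) with h1 | h1
      · have h2 : ∀ᶠ p in (U : Filter (ℂ × ℂ)), p.1 ≠ 0 := by
          filter_upwards [h1, hne0] with p hp1 hp2 h0
          apply hp2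
          rw [h0, norm_zero] at hp1
          exact Prod.ext h0 (norm_le_zero_iff.mp hp1)
        obtain ⟨c, hc⟩ := InvS_lim (U := U) (f := fun p => p.2 / p.1) (by
          filter_upwards [h1] with p hp
          rw [norm_div]
          exact div_le_one_of_le₀ hp (norm_nonneg _))
        exact key1 hU0 hbad hc h2 (ih (h (bl c) (bchart_bl c)))
      · have h2 : ∀ᶠ p in (U : Filter (ℂ × ℂ)), p.2 ≠ 0 := by
          filter_upwards [h1] with p hp1 h0
          apply hp1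
          rw [h0, norm_zero]
          exact norm_nonneg _
        obtain ⟨c, hc⟩ := InvS_lim (U := U) (f := fun p => p.1 / p.2) (by
          filter_upwards [h1] with p hp
          rw [norm_div]
          exact div_le_one_of_le₀ (not_le.mp hp).le (norm_nonneg _))
        by_cases hc0 : c = 0
        · rw [hc0] at hc
          exact key2 hU0 hbad hc h2 (ih (h blInf bchart_blInf))
        · have h3 : ∀ᶠ p in (U : Filter (ℂ × ℂ)), p.1 ≠ 0 := by
            filter_upwards [hc.eventually_ne hc0] with p hp h0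
            apply hp
            rw [h0, zero_div]
          have h4 : Tendsto (fun p : ℂ × ℂ => p.2 / p.1) U (𝓝 c⁻¹) := by
            have h5 := hc.inv₀ hc0
            refine h5.congr ?_
            intro p
            rw [inv_div]
          exact key1 hU0 hbad h4 h3 (ih (h (bl c⁻¹) (bchart_bl c⁻¹)))

/-- near `p` the zero set of `g` is empty or smooth -/
def Sm (g : ℂ × ℂ → ℂ) (p : ℂ × ℂ) : Prop :=
  g p ≠ 0 ∨ ∃ l : ℂ × ℂ → ℂ, AnalyticAt ℂ l p ∧ l p = 0 ∧ fderiv ℂ l p ≠ 0 ∧ ∀ᶠ w in 𝓝 p, (g w = 0 ↔ l w = 0)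

/-- transfer under a local isomorphism -/
theorem Sm.map {g : ℂ × ℂ → ℂ} {β γ : ℂ × ℂ → ℂ × ℂ} {x : ℂ × ℂ} (hβ : AnalyticAt ℂ β x) (hγ : AnalyticAt ℂ γ (β x)) (h0 : γ (β x) = x)
    (h1 : ∀ᶠ w in 𝓝 (β x), β (γ w) = w) (h2 : ∀ᶠ y in 𝓝 x, γ (β y) = y) (h : Sm (g ∘ β) x) : Sm g (β x) := by
  rcases h with h | ⟨l, hl, hl0, hl1, hl2⟩
  · exact Or.inl h
  · refine Or.inr ⟨l ∘ γ, AnalyticAt.comp (by rwa [h0]) hγ, by rw [Function.comp_apply, h0, hl0], ?_, ?_⟩
    · intro h3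
      apply hl1
      have h4 : l =ᶠ[𝓝 x] (l ∘ γ) ∘ β := by
        filter_upwards [h2] with y hy
        simp only [Function.comp_apply, hy]
      have h5 : DifferentiableAt ℂ (l ∘ γ) (β x) := (AnalyticAt.comp (by rwa [h0]) hγ).differentiableAt
      rw [h4.fderiv_eq, fderiv_comp x h5 hβ.differentiableAt, h3, ContinuousLinearMap.zero_comp]
    · have ht : Tendsto γ (𝓝 (β x)) (𝓝 x) := by
        have := hγ.continuousAt.tendsto
        rwa [h0] at this
      filter_upwards [h1, ht.eventually hl2] with w hw1 hw2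
      simp only [Function.comp_apply] at hw2 ⊢
      rwa [hw1] at hw2

theorem Sm.mono {g : ℂ × ℂ → ℂ} (h : Mono g) : ∀ᶠ p in 𝓝[≠] (0 : ℂ × ℂ), Sm g p := by
  obtain ⟨S, T, a, b, u, hST, hu, hu0, hgu⟩ := h
  obtain ⟨θ, hθ, h1, h2⟩ := Bihol.exists_inv hST
  have hθ' : AnalyticAt ℂ θ (S 0, T 0) := by
    have h3 : (S 0, T 0) = (0 : ℂ × ℂ) := hST.zero
    rw [h3]
    exact hθ.an
  have hSa : AnalyticAt ℂ S 0 := (ContinuousLinearMap.fst ℂ ℂ ℂ).analyticAt _ |>.comp hST.an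
  have hTa : AnalyticAt ℂ T 0 := (ContinuousLinearMap.snd ℂ ℂ ℂ).analyticAt _ |>.comp hST.an
  have hT0 : T 0 = 0 := congrArg Prod.snd hST.zero
  have hS0 : S 0 = 0 := congrArg Prod.fst hST.zero
  have hθt : Tendsto (fun p => (S p, T p)) (𝓝 0) (𝓝 0) := hST.tendsto
  rw [eventually_nhdsWithin_iff]
  filter_upwards [hSa.eventually_analyticAt, hTa.eventually_analyticAt, eventually_eventually_nhds.2 h1, hθt.eventually hθ.an.eventually_analyticAt,
    eventually_eventually_nhds.2 hgu, hu.eventually_analyticAt, hu.continuousAt.eventually_ne hu0] with p p1 p2 p3 p4 p5 p6 p7 hp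
  have hp0 : p ≠ 0 := hp
  -- the derivatives of `S` and `T` are independent
  have hind : ∀ α β : ℂ, (α ≠ 0 ∨ β ≠ 0) → fderiv ℂ (fun x => α * S x + β * T x) p ≠ 0 := by
    intro α β hαβ h0
    have hST' : HasFDerivAt (fun x => (S x, T x)) ((fderiv ℂ S p).prod (fderiv ℂ T p)) p :=
      p1.differentiableAt.hasFDerivAt.prodMk p2.differentiableAt.hasFDerivAt
    have h3 : HasFDerivAt (fun x => θ (S x, T x)) ((fderiv ℂ θ (S p, T p)).comp ((fderiv ℂ S p).prod (fderiv ℂ T p))) p :=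
      HasFDerivAt.comp p (g := θ) (f := fun x => (S x, T x)) p4.differentiableAt.hasFDerivAt hST'
    have h4 : HasFDerivAt (fun x => θ (S x, T x)) (ContinuousLinearMap.id ℂ (ℂ × ℂ)) p :=
      (hasFDerivAt_id p).congr_of_eventuallyEq p3
    have h5 := h3.unique h4
    have h6 : HasFDerivAt (fun x => α * S x + β * T x) (α • fderiv ℂ S p + β • fderiv ℂ T p) p := by
      have h7 := (p1.differentiableAt.hasFDerivAt.const_mul α).add (p2.differentiableAt.hasFDerivAt.const_mul β)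
      exact h7
    rw [h6.fderiv] at h0
    -- the kernel
    have h8 : ∀ w : ℂ × ℂ, fderiv ℂ θ (S p, T p) (fderiv ℂ S p w, fderiv ℂ T p w) = w := by
      intro w
      have := congrArg (fun L : ℂ × ℂ →L[ℂ] ℂ × ℂ => L w) h5
      simpa using this
    have h9 : ∀ w : ℂ × ℂ, α * fderiv ℂ S p w + β * fderiv ℂ T p w = 0 := by
      intro w
      have := congrArg (fun L : ℂ × ℂ →L[ℂ] ℂ => L w) h0
      simpa using this
    -- the vectors `(β, -α)` span the image
    have h10 : ∀ w : ℂ × ℂ, ∃ c : ℂ, w = c • fderiv ℂ θ (S p, T p) (β, -α) := by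
      intro w
      rcases hαβ with hα | hβ
      · refine ⟨-(fderiv ℂ T p w) / α, ?_⟩
        rw [← map_smul]
        conv_lhs => rw [← h8 w]
        congr 1
        have := h9 w
        ext
        · simp only [Prod.smul_fst, smul_eq_mul]
          field_simp
          linear_combination this
        · simp only [Prod.smul_snd, smul_eq_mul]
          field_simp
      · refine ⟨(fderiv ℂ S p w) / β, ?_⟩
        rw [← map_smul]
        conv_lhs => rw [← h8 w]
        congr 1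
        have := h9 w
        ext
        · simp only [Prod.smul_fst, smul_eq_mul]
          field_simp
        · simp only [Prod.smul_snd, smul_eq_mul]
          field_simp
          linear_combination this
    obtain ⟨c, hc⟩ := h10 (1, 0)
    obtain ⟨d, hd⟩ := h10 (0, 1)
    set z := fderiv ℂ θ (S p, T p) (β, -α) with hz
    have e1 : c * z.1 = 1 := (congrArg Prod.fst hc).symm
    have e2 : c * z.2 = 0 := (congrArg Prod.snd hc).symm
    have e4 : d * z.2 = 1 := (congrArg Prod.snd hd).symm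
    have hc0 : c ≠ 0 := by
      rintro rfl
      rw [zero_mul] at e1
      exact zero_ne_one e1
    have hz2 : z.2 = 0 := (mul_eq_zero.1 e2).resolve_left hc0
    rw [hz2, mul_zero] at e4
    exact zero_ne_one e4
  have hST0 : S p ≠ 0 ∨ T p ≠ 0 := by
    by_contra hcon
    push Not at hcon
    apply hp0
    have h3 := p3.self_of_nhds
    rw [hcon.1, hcon.2] at h3
    rw [← h3]
    exact hθ.zero
  have hune : ∀ᶠ w in 𝓝 p, u w ≠ 0 := p6.continuousAt.eventually_ne p7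
  by_cases hS : S p = 0
  · have hT : T p ≠ 0 := hST0.resolve_left (fun h => h hS)
    rcases Nat.eq_zero_or_pos a with ha | ha
    · left
      rw [p5.self_of_nhds, ha, pow_zero, one_mul]
      exact mul_ne_zero (pow_ne_zero _ hT) p7
    · right
      refine ⟨S, p1, hS, ?_, ?_⟩
      · have h3 := hind 1 0 (Or.inl one_ne_zero)
        have h4 : (fun x => 1 * S x + 0 * T x) = S := by
          funext x
          ring
        rwa [h4] at h3
      · filter_upwards [p5, hune, p2.continuousAt.eventually_ne hT] with w hw1 hw2 hw3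
        rw [hw1, mul_eq_zero, mul_eq_zero]
        constructor
        · rintro ((h | h) | h)
          · exact pow_eq_zero_iff (by omega) |>.1 h
          · exact absurd h (pow_ne_zero _ hw3)
          · exact absurd h hw2
        · intro h
          left; left
          rw [h, zero_pow (by omega)]
  · by_cases hT : T p = 0
    · rcases Nat.eq_zero_or_pos b with hb | hb
      · left
        rw [p5.self_of_nhds, hb, pow_zero, mul_one]
        exact mul_ne_zero (pow_ne_zero _ hS) p7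
      · right
        refine ⟨T, p2, hT, ?_, ?_⟩
        · have h3 := hind 0 1 (Or.inr one_ne_zero)
          have h4 : (fun x => 0 * S x + 1 * T x) = T := by
            funext x
            ring
          rwa [h4] at h3
        · filter_upwards [p5, hune, p1.continuousAt.eventually_ne hS] with w hw1 hw2 hw3
          rw [hw1, mul_eq_zero, mul_eq_zero]
          constructor
          · rintro ((h | h) | h)
            · exact absurd h (pow_ne_zero _ hw3)
            · exact pow_eq_zero_iff (by omega) |>.1 h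
            · exact absurd h hw2
          · intro h
            left; right
            rw [h, zero_pow (by omega)]
    · left
      rw [p5.self_of_nhds]
      exact mul_ne_zero (mul_ne_zero (pow_ne_zero _ hS) (pow_ne_zero _ hT)) p7

/-- **The zeros of a germ in two variables are smooth off the origin.** -/
theorem sm_off {g : ℂ × ℂ → ℂ} (hg : AnalyticAt ℂ g 0) (h : ∃ᶠ p in 𝓝 (0 : ℂ × ℂ), g p ≠ 0) : ∀ᶠ p in 𝓝 (0 : ℂ × ℂ), p ≠ 0 → Sm g p := by
  obtain ⟨n, hn⟩ := exists_resN hg (fun h' => h (h'.mono fun p hp hne => hne hp))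
  have h1 := resN_near Sm (fun g hg => Sm.mono hg) (fun g c p hp hQ => by
    refine Sm.map (β := bl c) (γ := fun w => (w.1, w.2 / w.1 - c)) (analyticAt_bl c p) ?_ ?_ ?_ ?_ hQ
    · refine analyticAt_fst.prod ((analyticAt_snd.div analyticAt_fst ?_).sub analyticAt_const)
      exact hp
    · simp only [bl]
      ext
      · rfl
      · simp only
        field_simp
        ring
    · have h2 : ∀ᶠ w in 𝓝 (bl c p), w.1 ≠ 0 := continuous_fst.continuousAt.eventually_ne hp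
      filter_upwards [h2] with w hw
      simp only [bl]
      ext
      · rfl
      · simp only
        field_simp
        ring
    · have h2 : ∀ᶠ w in 𝓝 p, w.1 ≠ 0 := continuous_fst.continuousAt.eventually_ne hp
      filter_upwards [h2] with w hw
      simp only [bl]
      ext
      · rfl
      · simp only
        field_simp
        ring) (fun g p hp hQ => by
    refine Sm.map (β := blInf) (γ := fun w => (w.1 / w.2, w.2)) (analyticAt_blInf p) ?_ ?_ ?_ ?_ hQ
    · refine (analyticAt_fst.div analyticAt_snd ?_).prod analyticAt_snd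
      exact hp
    · simp only [blInf]
      ext
      · simp only
        field_simp
      · rfl
    · have h2 : ∀ᶠ w in 𝓝 (blInf p), w.2 ≠ 0 := continuous_snd.continuousAt.eventually_ne hp
      filter_upwards [h2] with w hw
      simp only [blInf]
      ext
      · simp only
        field_simp
      · rfl
    · have h2 : ∀ᶠ w in 𝓝 p, w.2 ≠ 0 := continuous_snd.continuousAt.eventually_ne hp
      filter_upwards [h2] with w hw
      simp only [blInf]
      ext
      · simp only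
        field_simp
      · rfl) hn
  rw [eventually_nhdsWithin_iff] at h1
  exact h1

end Pool.Agent.MQ3

end
end

section

/-!
# MQ3 InvP: regular points of a foliation and a curve

`RegPt v f q`: near `q` the vector field `v` has no zero and the curve `{f = 0}` is empty or smooth, and then it is transversal to `v` at `q` or invariant.
The points which are not regular are isolated (`regPt_off`).
-/

set_option autoImplicit false

open Topology Filter

noncomputable section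

namespace Pool.Agent.MQ3

open Pool.Agent.H17BP (exists_resN Bihol bihol_iff)
open Pool.Agent.MQ (ld_lin ld_chain ld_deriv_ne)

/-- regular points -/
def RegPt (v : ℂ × ℂ → ℂ × ℂ) (f : ℂ × ℂ → ℂ) (q : ℂ × ℂ) : Prop :=
  v q ≠ 0 ∧ (f q ≠ 0 ∨ ∃ G : ℂ × ℂ → ℂ, AnalyticAt ℂ G q ∧ G q = 0 ∧ fderiv ℂ G q ≠ 0 ∧ (∀ᶠ w in 𝓝 q, (f w = 0 ↔ G w = 0)) ∧
    (fderiv ℂ G q (v q) ≠ 0 ∨ ∀ᶠ w in 𝓝 q, G w = 0 → fderiv ℂ G w (v w) = 0))

/-- selection of a curve -/
theorem curve_sel {f : ℂ × ℂ → ℂ} (hf : AnalyticAt ℂ f 0) (hf0 : ∃ᶠ p in 𝓝 (0 : ℂ × ℂ), f p ≠ 0) {B : ℂ × ℂ → Prop}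
    (hB : ∃ᶠ p in 𝓝 (0 : ℂ × ℂ), p ≠ 0 ∧ f p = 0 ∧ B p) :
    ∃ c : ℂ → ℂ × ℂ, AnalyticAt ℂ c 0 ∧ c 0 = 0 ∧ (∀ᶠ t in 𝓝 (0 : ℂ), f (c t) = 0) ∧ ∃ᶠ t in 𝓝 (0 : ℂ), c t ≠ 0 ∧ B (c t) := by
  obtain ⟨n, hn⟩ := exists_resN hf fun h => hf0 (h.mono fun p hp => not_not.2 hp)
  obtain ⟨r, d, hd1, hd2, hd3⟩ := Pool.Agent.E1.disc_cover n hn (W := Set.univ) univ_mem
  obtain ⟨i, z₀, hz₀, hz0, hfr⟩ : ∃ (i : Fin r) (z₀ : ℂ), z₀ ∈ Metric.closedBall (0 : ℂ) (1 / 2) ∧ d i z₀ = 0 ∧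
      ∃ᶠ z in 𝓝 z₀, d i z ≠ 0 ∧ B (d i z) := by
    by_contra hcon
    push Not at hcon
    have h1 : ∀ i : Fin r, ∀ᶠ p in 𝓝 (0 : ℂ × ℂ), ∀ z ∈ Metric.closedBall (0 : ℂ) (1 / 2), d i z = p → ¬ (p ≠ 0 ∧ B p) := by
      intro i
      refine (isCompact_closedBall (0 : ℂ) (1 / 2)).eventually_forall_of_forall_eventually fun z₀ hz₀ => ?_
      have hz1 : z₀ ∈ Metric.closedBall (0 : ℂ) 1 := Metric.closedBall_subset_closedBall (by norm_num) hz₀
      have hcont : ContinuousAt (d i) z₀ := (hd1 i z₀ hz1).continuousAt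
      by_cases h0 : d i z₀ = 0
      · have h2 := hcon i z₀ hz₀ h0
        have h3 : ∀ᶠ x : (ℂ × ℂ) × ℂ in 𝓝 ((0 : ℂ × ℂ), z₀), d i x.2 ≠ 0 → ¬ B (d i x.2) :=
          continuousAt_snd.eventually (p := fun z => d i z ≠ 0 → ¬ B (d i z)) h2
        filter_upwards [h3] with x hx he
        rw [← he]
        exact fun hh => hx hh.1 hh.2
      · have h3 : ContinuousAt (fun x : (ℂ × ℂ) × ℂ => d i x.2 - x.1) ((0 : ℂ × ℂ), z₀) :=
          (ContinuousAt.comp (f := fun x : (ℂ × ℂ) × ℂ => x.2) (g := d i) hcont continuousAt_snd).sub continuousAt_fst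
        have h4 : ∀ᶠ x : (ℂ × ℂ) × ℂ in 𝓝 ((0 : ℂ × ℂ), z₀), d i x.2 - x.1 ≠ 0 := h3.eventually_ne (by simpa using h0)
        filter_upwards [h4] with x hx he
        exact absurd (sub_eq_zero.2 he) hx
    refine hB ?_
    filter_upwards [eventually_all.2 h1, hd3] with p a1 a2 a3
    obtain ⟨i, z, hz, he⟩ := a2 a3.2.1
    exact a1 i z hz he ⟨a3.1, a3.2.2⟩
  have hz1 : z₀ ∈ Metric.closedBall (0 : ℂ) 1 := Metric.closedBall_subset_closedBall (by norm_num) hz₀
  refine ⟨fun t => d i (z₀ + t), ?_, by simpa using hz0, ?_, ?_⟩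
  · refine AnalyticAt.fun_comp (g := d i) (f := fun t : ℂ => z₀ + t) ?_ (analyticAt_const.add analyticAt_id)
    rw [add_zero]
    exact hd1 i z₀ hz1
  · have h1 : ∀ᶠ t in 𝓝 (0 : ℂ), t ∈ Metric.closedBall (0 : ℂ) (1 / 2) := Metric.closedBall_mem_nhds _ (by norm_num)
    filter_upwards [h1] with t ht
    refine (hd2 i (z₀ + t) ?_).2
    rw [mem_closedBall_zero_iff] at hz₀ ht ⊢
    exact (norm_add_le _ _).trans (by linarith)
  · intro hcon
    apply hfr
    have h1 : Tendsto (fun z : ℂ => z - z₀) (𝓝 z₀) (𝓝 0) := by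
      have : ContinuousAt (fun z : ℂ => z - z₀) z₀ := by fun_prop
      simpa using this.tendsto
    filter_upwards [h1.eventually hcon] with z hz
    simpa using hz

/-- a linear form with prescribed independence -/
private theorem InvP_form {L : ℂ × ℂ →L[ℂ] ℂ} (h : L ≠ 0) : ∃ l : ℂ × ℂ →L[ℂ] ℂ, L (1, 0) * l (0, 1) - L (0, 1) * l (1, 0) ≠ 0 := by
  by_cases h1 : L (1, 0) = 0
  · refine ⟨ContinuousLinearMap.fst ℂ ℂ ℂ, ?_⟩
    intro h2
    apply h
    have h3 : L (0, 1) = 0 := by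
      rw [h1] at h2
      simpa using h2
    ext
    · simpa using h1
    · simpa using h3
  · refine ⟨ContinuousLinearMap.snd ℂ ℂ ℂ, ?_⟩
    simpa using h1

/-- A function which vanishes on a curve in a smooth curve vanishes on the smooth curve. -/
theorem smooth_ident {l h : ℂ × ℂ → ℂ} {q : ℂ × ℂ} (hl : AnalyticAt ℂ l q) (hl0 : l q = 0) (hl1 : fderiv ℂ l q ≠ 0) (hh : AnalyticAt ℂ h q)
    {c : ℂ → ℂ × ℂ} {t₁ : ℂ} (hc : ContinuousAt c t₁) (hct : c t₁ = q) (hne : ∃ᶠ t in 𝓝 t₁, c t ≠ q) (hlc : ∀ᶠ t in 𝓝 t₁, l (c t) = 0)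
    (hhc : ∀ᶠ t in 𝓝 t₁, h (c t) = 0) : ∀ᶠ w in 𝓝 q, l w = 0 → h w = 0 := by
  obtain ⟨m, hm⟩ := InvP_form hl1
  set θ : ℂ × ℂ → ℂ × ℂ := fun x => (l (q + x), m x) with hθ
  have hq : Tendsto (fun x : ℂ × ℂ => q + x) (𝓝 0) (𝓝 q) := by
    have : Continuous fun x : ℂ × ℂ => q + x := by fun_prop
    simpa using this.tendsto 0
  have hqa : AnalyticAt ℂ (fun x : ℂ × ℂ => q + x) 0 := analyticAt_const.add analyticAt_id
  have hl' : AnalyticAt ℂ (fun x : ℂ × ℂ => l (q + x)) 0 := AnalyticAt.fun_comp (g := l) (f := fun x : ℂ × ℂ => q + x) (by rwa [add_zero]) hqa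
  have hθa : AnalyticAt ℂ θ 0 := hl'.prod (m.analyticAt 0)
  have hθ0 : θ 0 = 0 := by
    rw [hθ]
    simp [hl0]
  have hd : HasFDerivAt θ ((fderiv ℂ l q).prod m) 0 := by
    have h1 : HasFDerivAt l (fderiv ℂ l q) (q + 0) := by
      rw [add_zero]
      exact hl.differentiableAt.hasFDerivAt
    have h2 : HasFDerivAt (fun x : ℂ × ℂ => q + x) (ContinuousLinearMap.id ℂ (ℂ × ℂ)) 0 := (hasFDerivAt_id (0 : ℂ × ℂ)).const_add q
    have h3 : HasFDerivAt (fun x : ℂ × ℂ => l (q + x)) ((fderiv ℂ l q).comp (ContinuousLinearMap.id ℂ (ℂ × ℂ))) 0 :=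
      HasFDerivAt.comp (0 : ℂ × ℂ) (g := l) (f := fun x : ℂ × ℂ => q + x) h1 h2
    rw [ContinuousLinearMap.comp_id] at h3
    exact h3.prodMk m.hasFDerivAt
  have hB : Bihol θ := by
    rw [bihol_iff hθa hθ0, hd.fderiv]
    simpa using hm
  obtain ⟨θ', a1, a2, a3⟩ := hB.exists_inv
  -- in the coordinates
  have hqθ : AnalyticAt ℂ (fun y => h (q + θ' y)) 0 := by
    refine AnalyticAt.fun_comp (g := h) (f := fun y => q + θ' y) ?_ (analyticAt_const.add a1.an)
    rwa [a1.zero, add_zero]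
  have hH : AnalyticAt ℂ (fun s : ℂ => h (q + θ' (0, s))) 0 := by
    have e1 : AnalyticAt ℂ (fun s : ℂ => ((0, s) : ℂ × ℂ)) 0 := analyticAt_const.prod analyticAt_id
    exact AnalyticAt.fun_comp (g := fun y => h (q + θ' y)) (f := fun s : ℂ => ((0, s) : ℂ × ℂ)) hqθ e1
  have hcq : Tendsto (fun t => c t - q) (𝓝 t₁) (𝓝 0) := by
    have h1 := hc.tendsto.sub_const q
    rwa [hct, sub_self] at h1
  have hmt : Tendsto (fun t => m (c t - q)) (𝓝 t₁) (𝓝 0) := by
    have h1 := (m.continuous.tendsto 0).comp hcq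
    rw [map_zero] at h1
    exact h1
  have hz : ∀ᶠ s in 𝓝 (0 : ℂ), h (q + θ' (0, s)) = 0 := by
    rcases hH.eventually_eq_zero_or_eventually_ne_zero with h1 | h1
    · exact h1
    · exfalso
      rw [eventually_nhdsWithin_iff] at h1
      refine hne ?_
      filter_upwards [hcq.eventually a2, hlc, hhc, hmt.eventually h1] with t t1 t2 t3 t4 t5
      have e1 : θ (c t - q) = (0, m (c t - q)) := by
        rw [hθ]
        simp only [add_sub_cancel, t2]
      rw [e1] at t1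
      have e2 : m (c t - q) ≠ 0 := by
        intro h2
        apply t5
        have e3 : ((0 : ℂ), m (c t - q)) = 0 := by
          rw [h2]
          rfl
        rw [e3, a1.zero] at t1
        exact (sub_eq_zero.1 t1.symm)
      refine t4 e2 ?_
      rw [t1, add_sub_cancel, t3]
  have hwt : Tendsto (fun w : ℂ × ℂ => w - q) (𝓝 q) (𝓝 0) := by
    have : Continuous fun w : ℂ × ℂ => w - q := by fun_prop
    simpa using this.tendsto q
  have hmw : Tendsto (fun w : ℂ × ℂ => m (w - q)) (𝓝 q) (𝓝 0) := by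
    have h1 := (m.continuous.tendsto 0).comp hwt
    rw [map_zero] at h1
    exact h1
  filter_upwards [hwt.eventually a2, hmw.eventually hz] with w w1 w2 w3
  have e1 : θ (w - q) = (0, m (w - q)) := by
    rw [hθ]
    simp only [add_sub_cancel, w3]
  rw [e1] at w1
  rwa [w1, add_sub_cancel] at w2

/-- **The points which are not regular are isolated.** -/
theorem regPt_off {v : ℂ × ℂ → ℂ × ℂ} {f : ℂ × ℂ → ℂ} (hv : AnalyticAt ℂ v 0) (hv0 : ∀ᶠ p in 𝓝 (0 : ℂ × ℂ), p ≠ 0 → v p ≠ 0) (hf : AnalyticAt ℂ f 0)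
    (hf0 : ∃ᶠ p in 𝓝 (0 : ℂ × ℂ), f p ≠ 0) : ∀ᶠ q in 𝓝 (0 : ℂ × ℂ), q ≠ 0 → RegPt v f q := by
  by_contra hcon
  have hbad : ∃ᶠ q in 𝓝 (0 : ℂ × ℂ), q ≠ 0 ∧ f q = 0 ∧ (Sm f q ∧ ¬ RegPt v f q) := by
    have h1 : ∃ᶠ q in 𝓝 (0 : ℂ × ℂ), ¬ (q ≠ 0 → RegPt v f q) := not_eventually.1 hcon
    refine (h1.and_eventually ((sm_off hf hf0).and hv0)).mono ?_
    rintro q ⟨h2, h3, h4⟩
    push Not at h2
    refine ⟨h2.1, ?_, h3 h2.1, h2.2⟩
    by_contra h5
    exact h2.2 ⟨h4 h2.1, Or.inl h5⟩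
  obtain ⟨c, hc, hc0, hfc, hbc⟩ := curve_sel hf hf0 hbad
  have hct : Tendsto c (𝓝 0) (𝓝 0) := by
    have := hc.continuousAt.tendsto
    rwa [hc0] at this
  -- the determinant
  have hvc : AnalyticAt ℂ (fun t => v (c t)) 0 := AnalyticAt.fun_comp (by rw [hc0]; exact hv) hc
  have hJa : AnalyticAt ℂ (fun t => (v (c t)).1 * (deriv c t).2 - (v (c t)).2 * (deriv c t).1) 0 := by
    have a1 := AnalyticAt.fun_comp (g := fun x : ℂ × ℂ => x.1) (f := fun t => v (c t)) analyticAt_fst hvc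
    have a2 := AnalyticAt.fun_comp (g := fun x : ℂ × ℂ => x.2) (f := fun t => v (c t)) analyticAt_snd hvc
    have b1 := AnalyticAt.fun_comp (g := fun x : ℂ × ℂ => x.1) (f := fun t => deriv c t) analyticAt_fst hc.deriv
    have b2 := AnalyticAt.fun_comp (g := fun x : ℂ × ℂ => x.2) (f := fun t => deriv c t) analyticAt_snd hc.deriv
    exact (a1.mul b2).sub (a2.mul b1)
  have hfc2 : ∀ᶠ t in 𝓝 (0 : ℂ), ∀ᶠ s in 𝓝 t, f (c s) = 0 := eventually_eventually_nhds.2 hfc
  have hca : ∀ᶠ t in 𝓝 (0 : ℂ), AnalyticAt ℂ c t := hc.eventually_analyticAt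
  have hva : ∀ᶠ t in 𝓝 (0 : ℂ), AnalyticAt ℂ v (c t) := hct.eventually hv.eventually_analyticAt
  have hne' : ∃ᶠ t in 𝓝[≠] (0 : ℂ), c t ≠ 0 ∧ (Sm f (c t) ∧ ¬ RegPt v f (c t)) := by
    rw [frequently_nhdsWithin_iff]
    refine hbc.mono fun t ht => ⟨ht, ?_⟩
    rintro rfl
    exact ht.1 hc0
  -- at the points which are not regular the determinant vanishes
  have hJ0 : ∀ᶠ t in 𝓝 (0 : ℂ), (v (c t)).1 * (deriv c t).2 - (v (c t)).2 * (deriv c t).1 = 0 := by
    rcases hJa.eventually_eq_zero_or_eventually_ne_zero with h1 | h1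
    · exact h1
    · exfalso
      have h2 : ∀ᶠ t in 𝓝[≠] (0 : ℂ), (∀ᶠ s in 𝓝 t, f (c s) = 0) ∧ AnalyticAt ℂ c t ∧ (c t ≠ 0 → v (c t) ≠ 0) :=
        (hfc2.and (hca.and (hct.eventually hv0))).filter_mono nhdsWithin_le_nhds
      obtain ⟨t, ⟨b0, b1, b2⟩, h3, h4, h5, h6⟩ := (hne'.and_eventually (h1.and h2)).exists
      have hv1 := h6 b0
      rcases b1 with b1 | ⟨l, l1, l2, l3, l4⟩
      · exact b1 h4.self_of_nhds
      · have e1 : fderiv ℂ l (c t) (v (c t)) = 0 := by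
          by_contra h7
          exact b2 ⟨hv1, Or.inr ⟨l, l1, l2, l3, l4, Or.inl h7⟩⟩
        have e2 : fderiv ℂ l (c t) (deriv c t) = 0 := by
          refine ld_chain l1 h5 ?_
          filter_upwards [h4, h5.continuousAt.eventually l4] with s s1 s2
          exact s2.1 s1
        exact l3 (ld_lin e1 e2 h3)
  have hder : ∀ᶠ t in 𝓝[≠] (0 : ℂ), deriv c t ≠ 0 := ld_deriv_ne hc (by
    refine hbc.mono fun t ht => ?_
    rw [hc0]
    exact ht.1)
  have hder2 : ∀ᶠ t in 𝓝[≠] (0 : ℂ), ∀ᶠ s in 𝓝 t, deriv c s ≠ 0 := by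
    have h1 := eventually_eventually_nhdsWithin.2 hder
    have h2 : ∀ᶠ t in 𝓝[≠] (0 : ℂ), t ≠ 0 := self_mem_nhdsWithin
    filter_upwards [h1, h2] with t ht ht0
    have h4 : 𝓝[({0}ᶜ : Set ℂ)] t = 𝓝 t := IsOpen.nhdsWithin_eq isOpen_compl_singleton (by simpa using ht0)
    rwa [h4] at ht
  have h2 : ∀ᶠ t in 𝓝[≠] (0 : ℂ), (∀ᶠ s in 𝓝 t, f (c s) = 0) ∧ AnalyticAt ℂ c t ∧ (c t ≠ 0 → v (c t) ≠ 0) ∧
      (∀ᶠ s in 𝓝 t, (v (c s)).1 * (deriv c s).2 - (v (c s)).2 * (deriv c s).1 = 0) ∧ AnalyticAt ℂ v (c t) :=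
    (hfc2.and (hca.and ((hct.eventually hv0).and ((eventually_eventually_nhds.2 hJ0).and hva)))).filter_mono nhdsWithin_le_nhds
  obtain ⟨t, ⟨b0, b1, b2⟩, h3, h4, h5, h6, h7, h8⟩ := (hne'.and_eventually (hder2.and h2)).exists
  have hv1 := h6 b0
  rcases b1 with b1 | ⟨l, l1, l2, l3, l4⟩
  · exact b1 h4.self_of_nhds
  · refine b2 ⟨hv1, Or.inr ⟨l, l1, l2, l3, l4, Or.inr ?_⟩⟩
    have hh : AnalyticAt ℂ (fun w => fderiv ℂ l w (v w)) (c t) := by
      exact AnalyticAt.comp (g := fun z : (ℂ × ℂ →L[ℂ] ℂ) × (ℂ × ℂ) => z.1 z.2) (f := fun w => (fderiv ℂ l w, v w))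
        (ContinuousLinearMap.analyticAt_bilinear (ContinuousLinearMap.id ℂ (ℂ × ℂ →L[ℂ] ℂ)) _) (l1.fderiv.prod h8)
    have hlc : ∀ᶠ s in 𝓝 t, l (c s) = 0 := by
      filter_upwards [h4, h5.continuousAt.eventually l4] with s s1 s2
      exact s2.1 s1
    refine smooth_ident l1 l2 l3 hh h5.continuousAt rfl ?_ hlc ?_
    · -- `c` is not constant near `t`
      intro h9
      have h10 : ∀ᶠ s in 𝓝 t, c s = c t := by
        filter_upwards [h9] with s hs using not_not.1 hs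
      have h11 : deriv c t = 0 := by
        have e1 : c =ᶠ[𝓝 t] fun _ => c t := h10
        rw [e1.deriv_eq, deriv_const]
      exact h3.self_of_nhds h11
    · filter_upwards [eventually_eventually_nhds.2 hlc, h3, h7, h5.eventually_analyticAt, h5.continuousAt.eventually l1.eventually_analyticAt] with s s1 s2 s3 s4 s5
      have e2 : fderiv ℂ l (c s) (deriv c s) = 0 := ld_chain s5 s4 s1
      -- `v` is a multiple of the derivative
      obtain ⟨a, ha⟩ : ∃ a : ℂ, v (c s) = a • deriv c s := by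
        by_cases h9 : (deriv c s).1 = 0
        · have h10 : (deriv c s).2 ≠ 0 := fun h10 => s2 (Prod.ext h9 h10)
          refine ⟨(v (c s)).2 / (deriv c s).2, ?_⟩
          ext
          · simp only [Prod.smul_fst, smul_eq_mul, h9, mul_zero]
            rw [h9, mul_zero, sub_zero] at s3
            exact (mul_eq_zero.1 s3).resolve_right h10
          · simp only [Prod.smul_snd, smul_eq_mul]
            field_simp
        · refine ⟨(v (c s)).1 / (deriv c s).1, ?_⟩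
          ext
          · simp only [Prod.smul_fst, smul_eq_mul]
            field_simp
          · simp only [Prod.smul_snd, smul_eq_mul]
            field_simp
            linear_combination -s3
      rw [ha, map_smul, e2, smul_zero]

end Pool.Agent.MQ3

end
end

section

/-!
# MQ3 RegL: the local form of the regular chart points

`q` is a point of the plane, `v` a vector field with at most an isolated zero at `q`, `f` a function, not identically zero near `q`.  The points `x ≠ q` near `q`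
are regular: off the axes for `v` and `{f = 0}` (`RegPt`), on the axes: transversal to the axis or the axis is invariant, and the zeros of `f` near `x` are in
the axes.
-/

set_option autoImplicit false

open Topology Filter

noncomputable section

namespace Pool.Agent.MQ3

/-- the local form of `RegA` -/
def LA (v : ℂ × ℂ → ℂ × ℂ) (f : ℂ × ℂ → ℂ) (x : ℂ × ℂ) : Prop :=
  v x ≠ 0 ∧ x ≠ 0 ∧ (x.1 = 0 → (v x).1 ≠ 0 ∨ ∀ᶠ y in 𝓝 x, y.1 = 0 → (v y).1 = 0) ∧ (x.2 = 0 → (v x).2 ≠ 0 ∨ ∀ᶠ y in 𝓝 x, y.2 = 0 → (v y).2 = 0) ∧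
    ∀ᶠ y in 𝓝 x, y.1 * y.2 ≠ 0 → f y ≠ 0

/-- the local form of `RegB` -/
def LB (v : ℂ × ℂ → ℂ × ℂ) (f : ℂ × ℂ → ℂ) (x : ℂ × ℂ) : Prop :=
  v x ≠ 0 ∧ x.1 * x.2 ≠ 0 ∧ ∃ G : ℂ × ℂ → ℂ, AnalyticAt ℂ G x ∧ G x = 0 ∧ fderiv ℂ G x ≠ 0 ∧ (∀ᶠ w in 𝓝 x, (f w = 0 ↔ G w = 0)) ∧
    (fderiv ℂ G x (v x) ≠ 0 ∨ ∀ᶠ w in 𝓝 x, G w = 0 → fderiv ℂ G w (v w) = 0)

private theorem RegL_shift (q : ℂ × ℂ) : Tendsto (fun x : ℂ × ℂ => x - q) (𝓝 q) (𝓝 0) := by
  have : Continuous fun w : ℂ × ℂ => w - q := by fun_prop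
  simpa using this.tendsto q

private theorem RegL_shift' (q x : ℂ × ℂ) : Tendsto (fun y : ℂ × ℂ => y - q) (𝓝 x) (𝓝 (x - q)) := by
  have : Continuous fun w : ℂ × ℂ => w - q := by fun_prop
  exact this.tendsto x

private theorem RegL_an {E : Type*} [NormedAddCommGroup E] [NormedSpace ℂ E] {f : ℂ × ℂ → E} {q : ℂ × ℂ} (hf : AnalyticAt ℂ f q) :
    AnalyticAt ℂ (fun x => f (q + x)) 0 :=
  AnalyticAt.fun_comp (g := f) (f := fun x : ℂ × ℂ => q + x) (by rwa [add_zero]) (analyticAt_const.add analyticAt_id)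

/-- `regPt_off` at any point -/
theorem regPt_off' {v : ℂ × ℂ → ℂ × ℂ} {f : ℂ × ℂ → ℂ} {q : ℂ × ℂ} (hv : AnalyticAt ℂ v q) (hv0 : ∀ᶠ x in 𝓝 q, x ≠ q → v x ≠ 0) (hf : AnalyticAt ℂ f q)
    (hf0 : ∃ᶠ x in 𝓝 q, f x ≠ 0) : ∀ᶠ x in 𝓝 q, x ≠ q → RegPt v f x := by
  have hq : Tendsto (fun x : ℂ × ℂ => q + x) (𝓝 0) (𝓝 q) := by
    have : Continuous fun x : ℂ × ℂ => q + x := by fun_prop
    simpa using this.tendsto 0
  have h1 := regPt_off (v := fun x => v (q + x)) (f := fun x => f (q + x)) (RegL_an hv) (by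
    filter_upwards [hq.eventually hv0] with x hx hx0
    exact hx (by simpa using hx0)) (RegL_an hf) (by
    intro hcon
    apply hf0
    filter_upwards [(RegL_shift q).eventually hcon] with x hx
    simpa using hx)
  filter_upwards [(RegL_shift q).eventually h1] with x hx hxq
  obtain ⟨r1, r2⟩ := hx (sub_ne_zero.2 hxq)
  simp only [add_sub_cancel] at r1 r2
  refine ⟨r1, r2.imp_right ?_⟩
  rintro ⟨G, g1, g2, g3, g4, g5⟩
  have hsa : AnalyticAt ℂ (fun y : ℂ × ℂ => y - q) x := analyticAt_id.sub analyticAt_const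
  have hfd : ∀ y : ℂ × ℂ, fderiv ℂ (fun y : ℂ × ℂ => G (y - q)) y = fderiv ℂ G (y - q) := fun y => by
    have := fderiv_comp_add_right (𝕜 := ℂ) (f := G) (x := y) (-q)
    simpa [sub_eq_add_neg] using this
  have hqx : Tendsto (fun w : ℂ × ℂ => q + w) (𝓝 (x - q)) (𝓝 x) := by
    have h : Continuous fun w : ℂ × ℂ => q + w := by fun_prop
    have h2 := h.tendsto (x - q)
    simpa using h2
  refine ⟨fun y => G (y - q), AnalyticAt.fun_comp (g := G) g1 hsa, g2, by rwa [hfd], ?_, ?_⟩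
  · filter_upwards [(RegL_shift' q x).eventually g4] with y hy
    simpa using hy
  · rcases g5 with g5 | g5
    · left
      rwa [hfd]
    · right
      filter_upwards [(RegL_shift' q x).eventually g5] with y hy
      simpa [hfd] using hy

/-- on the first axis -/
private theorem RegL_ax {v : ℂ × ℂ → ℂ × ℂ} {f : ℂ × ℂ → ℂ} {q : ℂ × ℂ} (hv : AnalyticAt ℂ v q) (hf : AnalyticAt ℂ f q)
    (hf0 : ∃ᶠ x in 𝓝 q, f x ≠ 0) (hq : q.1 = 0) : ∀ᶠ x in 𝓝 q, x ≠ q → x.1 = 0 →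
      ((v x).1 ≠ 0 ∨ ∀ᶠ y in 𝓝 x, y.1 = 0 → (v y).1 = 0) ∧ ∀ᶠ y in 𝓝 x, y.1 ≠ 0 → f y ≠ 0 := by
  have hqe : q = (0, q.2) := Prod.ext hq rfl
  -- the restriction of a function to the axis
  have hres : ∀ {g : ℂ × ℂ → ℂ}, AnalyticAt ℂ g q → AnalyticAt ℂ (fun y : ℂ => g (0, y)) q.2 := by
    intro g hg
    exact AnalyticAt.fun_comp (g := g) (f := fun y : ℂ => ((0, y) : ℂ × ℂ)) (by rwa [← hqe]) (analyticAt_const.prod analyticAt_id)
  have ht2 : Tendsto (fun x : ℂ × ℂ => x.2) (𝓝 q) (𝓝 q.2) := continuous_snd.tendsto q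
  have hne2 : ∀ {x : ℂ × ℂ}, x ≠ q → x.1 = 0 → x.2 ≠ q.2 := fun h1 h2 h3 => h1 (Prod.ext (h2.trans hq.symm) h3)
  have hx : ∀ {x : ℂ × ℂ}, x.1 = 0 → x = (0, x.2) := fun h => Prod.ext h rfl
  -- the vector field
  have hA : ∀ᶠ x in 𝓝 q, x ≠ q → x.1 = 0 → ((v x).1 ≠ 0 ∨ ∀ᶠ y in 𝓝 x, y.1 = 0 → (v y).1 = 0) := by
    have h1 := hres (g := fun x => (v x).1) (analyticAt_fst.comp hv)
    rcases h1.eventually_eq_zero_or_eventually_ne_zero with h2 | h2
    · have h3 : ∀ᶠ x in 𝓝 q, ∀ᶠ y in 𝓝 x, (v (0, y.2)).1 = 0 := eventually_eventually_nhds.2 (ht2.eventually h2)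
      filter_upwards [h3] with x hx1 _ _
      right
      filter_upwards [hx1] with y hy hy0
      rwa [← hx hy0] at hy
    · rw [eventually_nhdsWithin_iff] at h2
      filter_upwards [ht2.eventually h2] with x hx1 hx2 hx3
      left
      have := hx1 (hne2 hx2 hx3)
      rwa [← hx hx3] at this
  -- the function
  have hB : ∀ᶠ x in 𝓝 q, x ≠ q → x.1 = 0 → ∀ᶠ y in 𝓝 x, y.1 ≠ 0 → f y ≠ 0 := by
    obtain ⟨a, g, hg, hfg, hg0⟩ := Pool.Agent.H22.HF.exists_div (g := fun x : ℂ × ℂ => f (q + x)) (RegL_an hf) (by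
      intro hcon
      apply hf0
      filter_upwards [(RegL_shift q).eventually hcon] with x hx
      simpa using hx)
    have hg1 : AnalyticAt ℂ (fun y : ℂ => g (0, y)) 0 :=
      AnalyticAt.fun_comp (g := g) (f := fun y : ℂ => ((0, y) : ℂ × ℂ)) hg (analyticAt_const.prod analyticAt_id)
    have h2 := hg1.eventually_eq_zero_or_eventually_ne_zero.resolve_left hg0
    rw [eventually_nhdsWithin_iff] at h2
    have ht3 : Tendsto (fun x : ℂ × ℂ => x.2 - q.2) (𝓝 q) (𝓝 0) := by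
      have := ht2.sub_const q.2
      rwa [sub_self] at this
    have hfg' := (RegL_shift q).eventually hfg
    filter_upwards [ht3.eventually h2, eventually_eventually_nhds.2 hfg', (RegL_shift q).eventually hg.eventually_analyticAt] with x x1 x2 x3 x4 x5
    have h6 : g (x - q) ≠ 0 := by
      have h7 := x1 (sub_ne_zero.2 (hne2 x4 x5))
      have h8 : x - q = (0, x.2 - q.2) := by
        ext
        · show x.1 - q.1 = 0
          rw [x5, hq, sub_zero]
        · rfl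
      rwa [h8]
    have h7 : ∀ᶠ y in 𝓝 x, g (y - q) ≠ 0 := (RegL_shift' q x).eventually (x3.continuousAt.eventually_ne h6)
    filter_upwards [x2, h7] with y y1 y2 y3
    simp only [add_sub_cancel] at y1
    rw [y1]
    refine mul_ne_zero (pow_ne_zero _ ?_) y2
    show y.1 - q.1 ≠ 0
    rwa [hq, sub_zero]
  filter_upwards [hA, hB] with x x1 x2 x3 x4
  exact ⟨x1 x3 x4, x2 x3 x4⟩

private theorem RegL_swap_tendsto (x : ℂ × ℂ) : Tendsto (fun y : ℂ × ℂ => y.swap) (𝓝 x) (𝓝 x.swap) := continuous_swap.tendsto x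

private theorem RegL_swap_an (x : ℂ × ℂ) : AnalyticAt ℂ (fun y : ℂ × ℂ => y.swap) x :=
  analyticAt_snd.prod analyticAt_fst

/-- **The regular points.** -/
theorem lreg_off {v : ℂ × ℂ → ℂ × ℂ} {f : ℂ × ℂ → ℂ} {q : ℂ × ℂ} (hv : AnalyticAt ℂ v q) (hv0 : ∀ᶠ x in 𝓝 q, x ≠ q → v x ≠ 0) (hf : AnalyticAt ℂ f q)
    (hf0 : ∃ᶠ x in 𝓝 q, f x ≠ 0) : ∀ᶠ x in 𝓝[≠] q, LA v f x ∨ LB v f x := by
  have h1 : ∀ᶠ x in 𝓝 q, x ≠ q → x.1 = 0 → ((v x).1 ≠ 0 ∨ ∀ᶠ y in 𝓝 x, y.1 = 0 → (v y).1 = 0) ∧ ∀ᶠ y in 𝓝 x, y.1 ≠ 0 → f y ≠ 0 := by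
    by_cases hq : q.1 = 0
    · exact RegL_ax hv hf hf0 hq
    · filter_upwards [continuous_fst.continuousAt.eventually_ne hq] with x hx _ hx0
      exact absurd hx0 hx
  have h2 : ∀ᶠ x in 𝓝 q, x ≠ q → x.2 = 0 → ((v x).2 ≠ 0 ∨ ∀ᶠ y in 𝓝 x, y.2 = 0 → (v y).2 = 0) ∧ ∀ᶠ y in 𝓝 x, y.2 ≠ 0 → f y ≠ 0 := by
    by_cases hq : q.2 = 0
    · have h3 := RegL_ax (v := fun x => (v x.swap).swap) (f := fun x => f x.swap) (q := q.swap)
        (AnalyticAt.fun_comp (g := fun y : ℂ × ℂ => y.swap) (f := fun x : ℂ × ℂ => v x.swap) (RegL_swap_an _)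
          (AnalyticAt.fun_comp (g := v) (f := fun x : ℂ × ℂ => x.swap) (by simpa using hv) (RegL_swap_an _)))
        (AnalyticAt.fun_comp (g := f) (f := fun x : ℂ × ℂ => x.swap) (by simpa using hf) (RegL_swap_an _)) (by
          intro hcon
          apply hf0
          filter_upwards [(RegL_swap_tendsto q).eventually hcon] with x hx
          simpa using hx) hq
      filter_upwards [(RegL_swap_tendsto q).eventually h3] with x hx hx1 hx2
      obtain ⟨a1, a2⟩ := hx (fun h => hx1 (Prod.swap_injective h)) hx2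
      refine ⟨a1.imp (fun h => by simpa using h) fun h => ?_, ?_⟩
      · filter_upwards [(RegL_swap_tendsto x).eventually h] with y hy hy0
        simpa using hy hy0
      · filter_upwards [(RegL_swap_tendsto x).eventually a2] with y hy hy0
        simpa using hy hy0
    · filter_upwards [continuous_snd.continuousAt.eventually_ne hq] with x hx _ hx0
      exact absurd hx0 hx
  have h3 : ∀ᶠ x in 𝓝 q, x ≠ q → x ≠ 0 := by
    by_cases hq : q = 0
    · exact Eventually.of_forall fun x hx => by rwa [hq] at hx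
    · filter_upwards [continuous_id.continuousAt.eventually_ne hq] with x hx _
      exact hx
  rw [eventually_nhdsWithin_iff]
  filter_upwards [h1, h2, h3, regPt_off' hv hv0 hf hf0, hf.eventually_analyticAt] with x x1 x2 x3 x4 x5 hxq
  have hxq' : x ≠ q := hxq
  obtain ⟨r1, r2⟩ := x4 hxq'
  by_cases hax : x.1 * x.2 = 0
  · left
    refine ⟨r1, x3 hxq', fun h => (x1 hxq' h).1, fun h => (x2 hxq' h).1, ?_⟩
    rcases mul_eq_zero.1 hax with h | h
    · filter_upwards [(x1 hxq' h).2] with y hy hy0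
      exact hy (left_ne_zero_of_mul hy0)
    · filter_upwards [(x2 hxq' h).2] with y hy hy0
      exact hy (right_ne_zero_of_mul hy0)
  · rcases r2 with r2 | r2
    · left
      refine ⟨r1, x3 hxq', fun h => absurd (by rw [h, zero_mul]) hax, fun h => absurd (by rw [h, mul_zero]) hax, ?_⟩
      filter_upwards [x5.continuousAt.eventually_ne r2] with y hy _
      exact hy
    · exact Or.inr ⟨r1, hax, r2⟩

end Pool.Agent.MQ3

end
end

section

/-!
# MQL CorD: the logarithmic package at a corner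

The field is the one of `MQ2.good_C`; in the small polydisc `|ζ'| |x y| |x| ^ al |y| ^ be ≤ C |x'| |x| ^ al`.
-/

set_option autoImplicit false

open Topology Filter Metric MeasureTheory Asymptotics Laplacian

noncomputable section

namespace Pool.Agent.MQL

open Pool.Agent.H36.BP (EN)
open Pool.Agent.H30M (tau LogSing)
open Pool.Agent.MQ Pool.Agent.MQ2

theorem norm_JD (al be : ℝ) (p : ℂ × ℂ) : ‖JD al be p‖ = ‖p.1‖ ^ al * ‖p.2‖ ^ be := by
  unfold JD
  rw [Complex.norm_real, Real.norm_of_nonneg (by positivity)]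

theorem mul_rpow_le {y r be : ℝ} (hbe : -1 < be) (hy : 0 < y) (hyr : y ≤ r) : y * y ^ be ≤ r ^ (1 + be) := by
  have h1 : y * y ^ be = y ^ (1 + be) := by rw [Real.rpow_add hy, Real.rpow_one]
  rw [h1]
  exact Real.rpow_le_rpow hy.le hyr (by linarith)

/-- the logarithm of a product bounded by a multiple of the density -/
theorem log_three_le {a b c C l : ℝ} (ha : 0 < a) (hb : 0 < b) (hc : 0 < c) (hC : 0 ≤ C) (hl : 0 ≤ l) (h : a * b * c ≤ C * l) :
    Real.log a + Real.log b + Real.log c ≤ Real.log (1 + C) + Real.log (1 + l) := by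
  rw [← Real.log_mul ha.ne' hb.ne', ← Real.log_mul (mul_pos ha hb).ne' hc.ne', ← Real.log_mul (by positivity) (by positivity)]
  exact Real.log_le_log (by positivity) (by nlinarith)

/-- **The package at a corner.** -/
theorem goodD_corner {al be : ℝ} (hal : -1 < al) (hbe : -1 < be) {a b : ℂ × ℂ → ℂ} (ha : AnalyticAt ℂ a 0) (hb : AnalyticAt ℂ b 0) (ha0 : a 0 ≠ 0) (hb0 : b 0 ≠ 0)
    (hq : ∀ k l : ℕ, 1 ≤ k → 1 ≤ l → k * a 0 ≠ l * b 0) : GoodD GC al be fun p => (p.1 * a p, p.2 * b p) := by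
  refine ⟨0, fun i => i.elim0, fun i => i.elim0, ?_⟩
  rintro g ⟨g₀, hg₀, hg⟩ hw -
  have hu := corner_unit ha hb hq hg₀ hg hw
  have h1 := eventually_cball (ha.eventually_analyticAt.and (hb.eventually_analyticAt.and (hg₀.eventually_analyticAt.and
    ((ha.continuousAt.eventually_ne ha0).and ((hb.continuousAt.eventually_ne hb0).and ((hg₀.continuousAt.eventually_ne hu).and hg))))))
  filter_upwards [h1] with r hr s s' hs hss hsr B hB
  have hs' : 0 < s' := hs.trans hss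
  have r1 : AnalyticOnNhd ℂ a (closedBall 0 r) := fun p hp => (hr p hp).1
  have r2 : AnalyticOnNhd ℂ b (closedBall 0 r) := fun p hp => (hr p hp).2.1
  have r3 : AnalyticOnNhd ℂ g₀ (closedBall 0 r) := fun p hp => (hr p hp).2.2.1
  have r5 : ∀ p ∈ closedBall (0 : ℂ × ℂ) r, a p ≠ 0 := fun p hp => (hr p hp).2.2.2.1
  have r6 : ∀ p ∈ closedBall (0 : ℂ × ℂ) r, b p ≠ 0 := fun p hp => (hr p hp).2.2.2.2.1
  have r7 : ∀ p ∈ closedBall (0 : ℂ × ℂ) r, g₀ p ≠ 0 := fun p hp => (hr p hp).2.2.2.2.2.1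
  have r8 : ∀ p ∈ closedBall (0 : ℂ × ℂ) r, g p = p.1 * p.2 * g₀ p := fun p hp => (hr p hp).2.2.2.2.2.2
  obtain ⟨C₁, hC₁, hD0⟩ := D0_bound r1 r2 r3 r5 r6 r7
  obtain ⟨K₁, hK₁, hab⟩ := ratio_bound r1 r2 r6
  obtain ⟨K₂, hK₂, hba⟩ := ratio_bound r2 r1 r5
  obtain ⟨C₂, hC₂, hga⟩ := ratio_bound r3 r1 r5
  obtain ⟨A, hA, hroot⟩ := root_energy hal hs' hsr hB
  refine ⟨A, 0, hA, le_rfl, ?_⟩
  intro d n q ψ _ _ _ _ _ M F Q lm Om p hD _
  have hcrv := hD.crv
  have hr0 : 0 < r := hs'.trans hsr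
  have hmem : ∀ z ∈ Om, p z ∈ closedBall (0 : ℂ × ℂ) r := fun z hz => ball_subset_closedBall (hcrv.mem z hz)
  have hN : NodeC (fun p => (p.1 * a p, p.2 * b p)) r Om p a b (max K₁ K₂) :=
    ⟨hcrv, r1, r2, r5, r6, fun _ => rfl, fun p hp => (hab p hp).trans (mul_le_mul_of_nonneg_right (le_max_left _ _) (norm_nonneg _)),
      fun p hp => (hba p hp).trans (mul_le_mul_of_nonneg_right (le_max_right _ _) (norm_nonneg _))⟩
  -- no curve meets the axes
  have hax : ∀ z ∈ Om, (p z).1 ≠ 0 ∧ (p z).2 ≠ 0 := fun z hz => by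
    have h2 : ∀ᶠ w in 𝓝 z, g (p w) = (p w).1 * (p w).2 * g₀ (p w) := by
      filter_upwards [hcrv.isOpen.mem_nhds hz] with w hw using r8 _ (hmem w hw)
    have h3 := (hD.g_ne z hz).and_eventually h2
    obtain ⟨m, k, hm, hk, hmk⟩ := ord_axes hcrv (fun _ => rfl) hz (r1 _ (hmem z hz)).continuousAt (r2 _ (hmem z hz)).continuousAt
      (h3.mono fun w hw h4 => hw.1 (by rw [hw.2, h4, zero_mul, zero_mul])) (h3.mono fun w hw h4 => hw.1 (by rw [hw.2, h4, mul_zero, zero_mul]))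
    rw [← hm, ← hk]
    have ha' := r5 _ (hmem z hz)
    have hb' := r6 _ (hmem z hz)
    rcases Nat.eq_zero_or_pos m with rfl | hm0
    · refine ⟨rfl, ?_⟩
      rw [Nat.cast_zero, zero_mul] at hmk
      exact_mod_cast (mul_eq_zero.1 hmk.symm).resolve_right ha'
    · exfalso
      rcases Nat.eq_zero_or_pos k with rfl | hk0
      · rw [Nat.cast_zero, zero_mul] at hmk
        have := (mul_eq_zero.1 hmk).resolve_right hb'
        exact hm0.ne' (by exact_mod_cast this)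
      · have h5 : (p z).1 = 0 := by
          by_contra h5
          exact hm0.ne' (hm.2 h5)
        have h6 : (p z).2 = 0 := by
          by_contra h6
          exact hk0.ne' (hk.2 h6)
        have h7 : p z = 0 := Prod.ext h5 h6
        rw [h7] at hmk
        exact hq k m hk0 hm0 hmk.symm
  have hgz : ∀ z ∈ Om, g (p z) = (p z).1 * (p z).2 * g₀ (p z) := fun z hz => r8 _ (hmem z hz)
  have hDD : ∀ z ∈ Om, DDv (fun p => (p.1 * a p, p.2 * b p)) g p z = D0 a b g₀ p z := fun z hz => by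
    obtain ⟨hx, hy⟩ := hax z hz
    have hg0 := r7 _ (hmem z hz)
    unfold DDv D0
    rw [hN.dvg_zt hz (Or.inl hx)]
    have e1 : (fun w => g (p w)) =ᶠ[𝓝 z] fun w => (p w).1 * (p w).2 * g₀ (p w) := by
      filter_upwards [hcrv.isOpen.mem_nhds hz] with w hw using hgz w hw
    have hp := hcrv.an z hz
    have d1 : HasDerivAt (fun w => (p w).1) (deriv p z).1 z := by
      have := (an_fst hp).differentiableAt.hasDerivAt
      rwa [deriv_fst' hp.differentiableAt] at this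
    have d2 : HasDerivAt (fun w => (p w).2) (deriv p z).2 z := by
      have := (an_snd hp).differentiableAt.hasDerivAt
      rwa [deriv_snd' hp.differentiableAt] at this
    have d3 : HasDerivAt (fun w => g₀ (p w)) (deriv (fun w => g₀ (p w)) z) z :=
      (AnalyticAt.differentiableAt ((r3 _ (hmem z hz)).comp hp)).hasDerivAt
    rw [e1.deriv_eq, ((d1.fun_mul d2).fun_mul d3).deriv, hgz z hz, hN.dfst hz (Or.inl hx), hN.dsnd hz (Or.inl hx)]
    field_simp
    ring
  have hDan : ∀ z ∈ Om, AnalyticAt ℂ (D0 a b g₀ p) z := fun z hz => (hD0 (hcrv.an z hz) (hmem z hz)).1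
  have hDle : ∀ z ∈ Om, ‖D0 a b g₀ p z‖ ≤ C₁ * B * lm z := fun z hz => by
    refine ((hD0 (hcrv.an z hz) (hmem z hz)).2).trans ?_
    rw [mul_assoc]
    exact mul_le_mul_of_nonneg_left (hD.lm_ge z hz) hC₁.le
  obtain ⟨l₁, K, hl₁c, hl₁, hl₁E, hl₁r⟩ := hroot Om p lm hcrv.isOpen hcrv.an hcrv.mem hcrv.closed (fun z hz => (hax z hz).1) hD.lm_cont hD.lm_nonneg hD.lm_ge
  have hl0 : ∀ z, 0 ≤ l₁ z := fun z => (hD.lm_nonneg z).trans (hl₁ z)
  -- the constant
  set E : ℝ := C₂ * r ^ (1 + be) with hE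
  have hE0 : 0 ≤ E := mul_nonneg hC₂.le (Real.rpow_nonneg hr0.le _)
  have hpt : ∀ z ∈ Om, p z ∈ ball (0 : ℂ × ℂ) s' → ‖ztv (fun p => (p.1 * a p, p.2 * b p)) p z‖ * ‖g (p z)‖ * ‖JD al be (p z)‖ ≤ E * l₁ z := fun z hz hps => by
    obtain ⟨hx, hy⟩ := hax z hz
    have hap := norm_pos_iff.2 (r5 _ (hmem z hz))
    have hy0 : 0 < ‖(p z).2‖ := norm_pos_iff.2 hy
    have hpr : ‖p z‖ ≤ r := by simpa using hmem z hz
    have hyr : ‖(p z).2‖ ≤ r := (norm_snd_le _).trans hpr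
    have t1 : ‖ztv (fun p => (p.1 * a p, p.2 * b p)) p z‖ * ‖g (p z)‖ * ‖JD al be (p z)‖ =
        (‖(deriv p z).1‖ * ‖(p z).1‖ ^ al) * ((‖g₀ (p z)‖ / ‖a (p z)‖) * (‖(p z).2‖ * ‖(p z).2‖ ^ be)) := by
      rw [norm_JD, hgz z hz, hN.dfst hz (Or.inl hx)]
      simp only [norm_mul]
      field_simp
    have u1 : (‖g₀ (p z)‖ / ‖a (p z)‖) * (‖(p z).2‖ * ‖(p z).2‖ ^ be) ≤ E :=
      mul_le_mul (by rw [div_le_iff₀ hap]; exact hga _ (hmem z hz)) (mul_rpow_le hbe hy0 hyr) (by positivity) hC₂.le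
    rw [t1, mul_comm E]
    exact mul_le_mul (hl₁r z hz (ball_subset_closedBall hps)) u1 (by positivity) (hl0 z)
  set C : ℝ := C₁ * B + Real.log (1 + E) + |K| with hC
  have hlog0 : 0 ≤ Real.log (1 + E) := Real.log_nonneg (by linarith)
  have hCB : 0 ≤ C₁ * B := by positivity
  have hC0 : 0 ≤ C := by positivity
  refine ⟨C, l₁, fun z => (starRingEnd ℂ) (D0 a b g₀ p z), fun _ => 0, fun _ => 0, hC0, hl₁c, hl₁, fun R hR => (hl₁E R hR).trans ?_, ?_,
    continuousOn_const, fun z _ => ⟨0, LogSing.of_contDiffAt contDiffAt_const⟩, fun z hz _ => ⟨by rw [hDD z hz.1], rfl, rfl⟩, fun z hz _ => ?_,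
    fun z hz _ => ?_, fun z hz _ hzt hgz' hJz => ?_, fun R hR => ?_⟩
  · have := le_abs_self K
    linarith
  · exact fun z hz => (contDiffAt_conj_holo (hDan z hz.1)).contDiffWithinAt
  · rw [RCLike.norm_conj]
    have h2 : C₁ * B ≤ C := by
      have := abs_nonneg K
      linarith
    exact (hDle z hz.1).trans (mul_le_mul h2 (hl₁ z) (hD.lm_nonneg z) hC0)
  · have e : dv (fun z => (starRingEnd ℂ) (D0 a b g₀ p z)) z = 0 := dv_conj (hDan z hz.1).differentiableAt
    have e2 : Δ (fun _ : ℂ => (0 : ℝ)) z = 0 := by simp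
    rw [e, e2]
    norm_num
  · rw [add_zero]
    refine (log_three_le (norm_pos_iff.2 hzt) (norm_pos_iff.2 hgz') (norm_pos_iff.2 hJz) hE0 (hl0 z) (hpt z hz.1 hz.2)).trans ?_
    have := abs_nonneg K
    linarith
  · simp only [mul_zero, integral_zero, zero_mul, zero_div, zero_add]
    refine add_nonneg (mul_nonneg hC0 (integral_nonneg fun z => mul_nonneg (norm_nonneg _) (hl0 z))) hC0

end Pool.Agent.MQL

end
end

section

/-!
# SDA EM: limits of entire curves in an open surface, the metric of the blow-up (copy of `SY/EiM.lean`)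

Along an ultrafilter the lifts `Φ n` of the curves `F n`, normalised by units (`char_fun`), converge near `0` to a curve `Ψ` of the blow-up
(`montel_ultrafilter`).  The components of `Ψ z` are multiples of `H z` (`lift_prop`), so the property `lim` upstairs gives `H z ∉ T` for some `z`.
If all the `H z` are proportional, then they are not multiples of `q`, and `Ψ z` is proportional to `phi l (H z)`: `Ψ` is constant, a contradiction.
-/

set_option autoImplicit false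

open Topology Filter Metric

noncomputable section

namespace Pool.Agent.SDA

open Pool.Agent.H36.BP (EN fs wd Sub)
open Pool.Agent.H17BP (Pr Surface)
open Pool.Agent.H62.BU (blow total Ker phi)
open Pool.Agent.SY (Ent IsLiftB down exists_liftB lift_prop char_fun)

variable {V : Type} [NormedAddCommGroup V] [NormedSpace ℂ V] {ι : Type} [Fintype ι] {l : ι → V →L[ℂ] ℂ} {X K T : Set V} {q : V}

/-- MODULE K7: limits -/
theorem downU_lim [FiniteDimensional ℂ V] {N' : ℕ} {L' : (ι → V) ≃L[ℂ] EN N'} {rho : (ι → V) → ℝ} {M : ℕ} {c₀ C δ : ℝ}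
    {g : (ℂ → ι → V) → ℂ → ℝ}
    (hX : Surface X) (hKX : K ⊆ X) (hKs : ∀ x ∈ K, ∀ c : ℂ, c ≠ 0 → c • x ∈ K) (hl : Ker l q) (hTX : T ⊆ X)
    (hT : ∀ x ∈ T, ∀ c : ℂ, c ≠ 0 → c • x ∈ T) (hq : q ∈ T)
    (E : EnU (blow l X) (total l X K) (total l X T) (fun y => ‖L' y‖) rho M c₀ C δ g)
    (u : Filter ℕ) (hu : u.NeBot) (r A ε : ℝ) (hr : 0 < r) (hε : 0 < ε) (F : ℕ → ℂ → V) (H : ℂ → V) (hF : ∀ᶠ n in u, EntU X K T (F n))
    (hA : ∀ᶠ n in u, ∀ z ∈ ball (0 : ℂ) r, down l X T g (F n) z ≤ A) (hB : ∀ᶠ n in u, ε ≤ down l X T g (F n) 0)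
    (hc : ∃ h : ℕ → ℂ → ℂ, (∀ᶠ n in u, DifferentiableOn ℂ (h n) (ball 0 r) ∧ ∀ z ∈ ball (0 : ℂ) r, h n z ≠ 0) ∧
      TendstoLocallyUniformlyOn (fun n z => h n z • F n z) H u (ball 0 r))
    (hH : ∀ z ∈ ball (0 : ℂ) r, H z ∈ X) :
    (∃ z ∈ ball (0 : ℂ) r, H z ∉ T) ∧ ∃ z ∈ ball (0 : ℂ) r, ∃ w ∈ ball (0 : ℂ) r, ¬ Pr (H z) (H w) := by
  classical
  have : CompleteSpace V := FiniteDimensional.complete ℂ V
  have : CompleteSpace (ι → V) := FiniteDimensional.complete ℂ (ι → V)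
  have : ProperSpace (ι → V) := FiniteDimensional.proper ℂ (ι → V)
  have hX' := Pool.Agent.H62.BU.toSurface hX
  -- the lifts
  have hΦex : ∀ n, ∃ Φ : ℂ → ι → V, EntU X K T (F n) → IsLiftB l X T (F n) Φ := by
    intro n
    by_cases h : EntU X K T (F n)
    · obtain ⟨Φ, hΦ⟩ := exists_liftB hX hl hTX hT hq h.ent
      exact ⟨Φ, fun _ => hΦ⟩
    · exact ⟨fun _ => 0, fun h' => absurd h' h⟩
  choose Φ hΦ using hΦex
  have hup : ∀ n, EntU X K T (F n) → EntU (blow l X) (total l X K) (total l X T) (Φ n) :=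
    fun n h => entU_lift hX hKX hKs hl hT hq h (hΦ n h)
  -- the units
  have hr' : 0 < r / 2 := half_pos hr
  have hsub : closedBall (0 : ℂ) (r / 2) ⊆ ball 0 r := closedBall_subset_ball (half_lt_self hr)
  set c' : ℝ := Real.exp (-(1 + Real.log (A / ε * Real.exp 1 * Real.exp ((C * A ^ 2 + 1) * (r / 2) ^ 2))) / c₀) with hc'
  have hc'0 : 0 < c' := Real.exp_pos _
  have hvex : ∀ n, ∃ v : ℂ → ℂ, EntU X K T (F n) → (∀ z ∈ ball (0 : ℂ) r, down l X T g (F n) z ≤ A) → ε ≤ down l X T g (F n) 0 →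
      Differentiable ℂ v ∧ (∀ z ∈ ball (0 : ℂ) (r / 2), ‖Complex.exp (v z) • L' (Φ n z)‖ ≤ 1) ∧
      c' ≤ ‖Complex.exp (v 0) • L' (Φ n 0)‖ := by
    intro n
    by_cases h : EntU X K T (F n) ∧ (∀ z ∈ ball (0 : ℂ) r, down l X T g (F n) z ≤ A) ∧ ε ≤ down l X T g (F n) 0
    · obtain ⟨h1, h2, h3⟩ := h
      have h4 := hΦ n h1
      rw [downU_eq hX hKX hKs hl hTX hT hq E h1 h4] at h2 h3
      obtain ⟨v, hv⟩ := char_fun (N := N') (F := fun z => L' (Φ n z)) (m := g (Φ n)) E.c₀_pos E.C_pos.le hr' hε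
        ((L' : (ι → V) →L[ℂ] EN N').differentiable.comp h4.1.diff)
        (fun z h0 => (h4.1.mem z).2 (by simpa using congrArg L'.symm h0))
        (fun z _ a ha => nhdsWithin_le_nhds (E.usc _ (hup n h1) z a ha)) (fun z hz => h2 z (hsub hz)) h3
        (fun z _ hz => E.sub _ (hup n h1) z hz)
      exact ⟨v, fun _ _ _ => hv⟩
    · exact ⟨fun _ => 0, fun h1 h2 h3 => absurd ⟨h1, h2, h3⟩ h⟩
  choose v hv using hvex
  -- the limit upstairs
  set 𝒰 : Ultrafilter ℕ := Ultrafilter.of u with h𝒰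
  have h𝒰u : (𝒰 : Filter ℕ) ≤ u := Ultrafilter.of_le u
  have hev : ∀ᶠ n in (𝒰 : Filter ℕ), EntU X K T (F n) ∧ (∀ z ∈ ball (0 : ℂ) r, down l X T g (F n) z ≤ A) ∧
      ε ≤ down l X T g (F n) 0 := h𝒰u (hF.and (hA.and hB))
  have hd : ∀ᶠ n in (𝒰 : Filter ℕ), DifferentiableOn ℂ (fun z => Complex.exp (v n z) • Φ n z) (ball 0 (r / 2)) := by
    filter_upwards [hev] with n hn
    exact ((hv n hn.1 hn.2.1 hn.2.2).1.cexp.smul (hΦ n hn.1).1.diff).differentiableOn
  have hbd : ∀ᶠ n in (𝒰 : Filter ℕ), ∀ z ∈ ball (0 : ℂ) (r / 2),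
      ‖Complex.exp (v n z) • Φ n z‖ ≤ ‖(L'.symm : EN N' →L[ℂ] (ι → V))‖ := by
    filter_upwards [hev] with n hn z hz
    have h4 : Complex.exp (v n z) • Φ n z = (L'.symm : EN N' →L[ℂ] (ι → V)) (Complex.exp (v n z) • L' (Φ n z)) := by
      rw [map_smul]
      simp
    rw [h4]
    calc ‖(L'.symm : EN N' →L[ℂ] (ι → V)) (Complex.exp (v n z) • L' (Φ n z))‖
        ≤ ‖(L'.symm : EN N' →L[ℂ] (ι → V))‖ * ‖Complex.exp (v n z) • L' (Φ n z)‖ :=
          (L'.symm : EN N' →L[ℂ] (ι → V)).le_opNorm _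
      _ ≤ ‖(L'.symm : EN N' →L[ℂ] (ι → V))‖ * 1 :=
          mul_le_mul_of_nonneg_left ((hv n hn.1 hn.2.1 hn.2.2).2.1 z hz) (norm_nonneg _)
      _ = _ := mul_one _
  obtain ⟨Ψ, hΨd, hΨc⟩ := Pool.Agent.H17.montel_ultrafilter 𝒰 hd hbd
  have h0mem : (0 : ℂ) ∈ ball (0 : ℂ) (r / 2) := mem_ball_self hr'
  have hpt : ∀ z ∈ ball (0 : ℂ) (r / 2), Tendsto (fun n => Complex.exp (v n z) • Φ n z) (𝒰 : Filter ℕ) (𝓝 (Ψ z)) :=
    fun z hz => hΨc.tendsto_at hz
  have hΨ0 : Ψ 0 ≠ 0 := by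
    have h1 : Tendsto (fun n => ‖L' (Complex.exp (v n 0) • Φ n 0)‖) (𝒰 : Filter ℕ) (𝓝 ‖L' (Ψ 0)‖) :=
      ((L'.continuous.tendsto _).comp (hpt 0 h0mem)).norm
    have h2 : c' ≤ ‖L' (Ψ 0)‖ := by
      refine ge_of_tendsto h1 ?_
      filter_upwards [hev] with n hn
      rw [map_smul]
      exact (hv n hn.1 hn.2.1 hn.2.2).2.2
    intro h3
    rw [h3, map_zero, norm_zero] at h2
    linarith
  have hcont : ContinuousAt Ψ 0 := (hΨd.differentiableAt (isOpen_ball.mem_nhds h0mem)).continuousAt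
  obtain ⟨s, hs, hsb⟩ := Metric.eventually_nhds_iff_ball.1 ((hcont.eventually_ne hΨ0).and (isOpen_ball.mem_nhds h0mem))
  have hsr : ∀ z ∈ ball (0 : ℂ) s, z ∈ ball (0 : ℂ) r := fun z hz => hsub (ball_subset_closedBall (hsb z hz).2)
  have hmem : ∀ z ∈ ball (0 : ℂ) s, Ψ z ∈ blow l X := by
    intro z hz
    refine Pool.Agent.H62.BU.blow_closed _ ?_ (hsb z hz).1
    refine mem_closure_of_tendsto (hpt z (hsb z hz).2) ?_
    filter_upwards [hev] with n hn
    exact Pool.Agent.H62.BU.blow_smul _ ((hΦ n hn.1).1.mem z) _ (Complex.exp_ne_zero _)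
  obtain ⟨⟨p, hp, hpT⟩, ⟨a, ha, b, hb, hab⟩⟩ := E.lim (𝒰 : Filter ℕ) inferInstance s A ε hs hε Φ Ψ
    (hev.mono fun n hn => hup n hn.1)
    (by
      filter_upwards [hev] with n hn z hz
      rw [← downU_eq hX hKX hKs hl hTX hT hq E hn.1 (hΦ n hn.1)]
      exact hn.2.1 z (hsr z hz))
    (by
      filter_upwards [hev] with n hn
      rw [← downU_eq hX hKX hKs hl hTX hT hq E hn.1 (hΦ n hn.1)]
      exact hn.2.2)
    ⟨fun n z => Complex.exp (v n z), by
      filter_upwards [hev] with n hn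
      exact ⟨(hv n hn.1 hn.2.1 hn.2.2).1.cexp.differentiableOn, fun z _ => Complex.exp_ne_zero _⟩,
      hΨc.mono fun w hw => (hsb w hw).2⟩
    hmem
  -- the components of the limit
  obtain ⟨h, hh1, hh2⟩ := hc
  have hH0 : ∀ z ∈ ball (0 : ℂ) s, H z ≠ 0 := fun z hz h0 => hX.zero (h0 ▸ hH z (hsr z hz))
  have hcomp : ∀ z ∈ ball (0 : ℂ) s, ∀ b, ∃ c : ℂ, Ψ z b = c • H z := by
    intro z hz b
    have hHz := hH0 z hz
    obtain ⟨Λ, hΛ⟩ := exists_dual_vector ℂ (H z) (norm_ne_zero_iff.mpr hHz)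
    have hΛ0 : Λ (H z) ≠ 0 := by
      rw [hΛ.2]
      simpa using hHz
    have hlimH : Tendsto (fun n => h n z • F n z) (𝒰 : Filter ℕ) (𝓝 (H z)) := (hh2.tendsto_at (hsr z hz)).mono_left h𝒰u
    have hlimΨ : Tendsto (fun n => Complex.exp (v n z) • Φ n z b) (𝒰 : Filter ℕ) (𝓝 (Ψ z b)) :=
      ((continuous_apply b).tendsto _).comp (hpt z (hsb z hz).2)
    have h1 : Λ (Ψ z b) • H z = Λ (H z) • Ψ z b := by
      refine tendsto_nhds_unique_of_eventuallyEq (((Λ.continuous.tendsto _).comp hlimΨ).smul hlimH)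
        (((Λ.continuous.tendsto _).comp hlimH).smul hlimΨ) ?_
      filter_upwards [hev] with n hn
      have h2 := lift_prop hX hl hT hq hn.1.ent (hΦ n hn.1) Λ b z
      simp only [Function.comp_apply, map_smul, smul_eq_mul]
      calc (Complex.exp (v n z) * Λ (Φ n z b)) • h n z • F n z
          = (Complex.exp (v n z) * h n z) • (Λ (Φ n z b) • F n z) := by
            simp only [smul_smul]
            congr 1
            ring
        _ = (Complex.exp (v n z) * h n z) • (Λ (F n z) • Φ n z b) := by rw [h2]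
        _ = (h n z * Λ (F n z)) • Complex.exp (v n z) • Φ n z b := by
            simp only [smul_smul]
            congr 1
            ring
    refine ⟨(Λ (H z))⁻¹ * Λ (Ψ z b), ?_⟩
    rw [mul_smul, h1, smul_smul, inv_mul_cancel₀ hΛ0, one_smul]
  have hout : ∀ z ∈ ball (0 : ℂ) s, Ψ z ∉ total l X T → H z ∉ T := by
    intro z hz hz1 hz2
    apply hz1
    refine ⟨hmem z hz, fun b hb => ?_⟩
    obtain ⟨c, hc⟩ := hcomp z hz b
    have hc0 : c ≠ 0 := by
      rintro rfl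
      rw [zero_smul] at hc
      exact hb hc
    rw [hc]
    exact hT _ hz2 c hc0
  refine ⟨⟨p, hsr p hp, hout p hp hpT⟩, ?_⟩
  by_contra hcon
  push Not at hcon
  apply hab
  -- the limit is determined by the curve downstairs
  have key : ∀ z ∈ ball (0 : ℂ) s, Pr (Ψ z) (phi l (H z)) := by
    intro z hz
    have hHT : H z ∉ T := by
      intro h1
      obtain ⟨c, hc0, hc⟩ := hcon p (hsr p hp) z (hsr z hz)
      apply hout p hp hpT
      rw [hc]
      exact hT _ h1 c hc0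
    have hlb : ∃ b', l b' (H z) ≠ 0 := by
      by_contra hcon'
      push Not at hcon'
      obtain ⟨c, e⟩ := (hl (H z)).1 hcon'
      have hc : c ≠ 0 := by
        rintro rfl
        rw [zero_smul] at e
        exact hH0 z hz e
      exact hHT (e ▸ hT q hq c hc)
    obtain ⟨b', hb'⟩ := hlb
    obtain ⟨b, hb⟩ := Pool.Agent.H62.BU.exists_ne _ (hmem z hz)
    obtain ⟨c, hc⟩ := hcomp z hz b
    have hc0 : c ≠ 0 := by
      rintro rfl
      rw [zero_smul] at hc
      exact hb hc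
    have h1 : l b' (Ψ z b) ≠ 0 := by
      rw [hc, map_smul]
      exact smul_ne_zero hc0 hb'
    have h2 := Pool.Agent.H62.BU.eq_phi _ (hmem z hz) hb h1
    have h3 := Pool.Agent.H62.BU.ne_of_ne _ (hmem z hz) hb h1
    refine ⟨(l b (Ψ z b))⁻¹ * c ^ 2, mul_ne_zero (inv_ne_zero h3) (pow_ne_zero 2 hc0), ?_⟩
    calc Ψ z = (l b (Ψ z b))⁻¹ • phi l (Ψ z b) := h2
      _ = (l b (Ψ z b))⁻¹ • (c ^ 2 • phi l (H z)) := by rw [← Pool.Agent.H62.BU.phi_smul, ← hc]
      _ = _ := by rw [smul_smul]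
  obtain ⟨c, hc0, hc⟩ := hcon a (hsr a ha) b (hsr b hb)
  have h1 : Pr (phi l (H a)) (phi l (H b)) :=
    ⟨c ^ 2, pow_ne_zero 2 hc0, by rw [hc, Pool.Agent.H62.BU.phi_smul]⟩
  exact (key a ha).trans (h1.trans (key b hb).symm)

end Pool.Agent.SDA

end
end
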