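import Pool.Agent.H43.TL2.M31
import Pool.Agent.H43.TL2.M37
import Pool.Agent.H43.TL2.M66
import Pool.Agent.H43.TL2.M67

/-! The parts of this file: MQL.RegD0, MQ3.FolT. -/

section

/-!
# MQL RegD0: regular points which need no separatrix

Every axis with a negative exponent is transversal or invariant, and at most one is transversal.  The field is `conj D`, `Φ = 0`; the density is the root density
of the transversal axis.
-/

set_option autoImplicit false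

open Topology Filter Metric MeasureTheory Asymptotics Laplacian Set

noncomputable section

namespace Pool.Agent.MQL

open Pool.Agent.H36.BP (EN)
open Pool.Agent.H30M (tau LogSing)
open Pool.Agent.MQ Pool.Agent.MQ2

namespace RegD0

/-- the package from a pointwise bound -/
theorem locX_reg {v : ℂ × ℂ → ℂ × ℂ} {g J : ℂ × ℂ → ℂ} (hv : AnalyticAt ℂ v 0) (h0 : v 0 ≠ 0) (hg : Wt v g) : ∀ᶠ r in 𝓝[>] (0 : ℝ),
    ∀ (Om : Set ℂ) (p : ℂ → ℂ × ℂ) (lm l : ℂ → ℝ) (s s' A K B C₁ : ℝ), Crv1 v r Om p → (∀ z ∈ Om, ∃ᶠ w in 𝓝 z, g (p w) ≠ 0) → 0 ≤ B →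
      (∀ z, 0 ≤ lm z) → (∀ z ∈ Om, ‖deriv p z‖ ≤ B * lm z) → Continuous l → (∀ z, lm z ≤ l z) →
      (∀ R, 1 ≤ R → ∫ z, tau R z * l z ^ 2 ≤ A * (∫ z, tau R z * lm z ^ 2) + K) → 0 ≤ C₁ →
      (∀ z ∈ Om, p z ∈ ball (0 : ℂ × ℂ) s' → ‖ztv v p z‖ * ‖g (p z)‖ * ‖J (p z)‖ ≤ C₁ * l z) →
      LocX v g J {z | z ∈ Om ∧ p z ∈ ball (0 : ℂ × ℂ) s'} p lm s A 0 := by
  have hiso : ∀ᶠ p in 𝓝 (0 : ℂ × ℂ), p ≠ 0 → v p ≠ 0 := (hv.continuousAt.eventually_ne h0).mono fun p hp _ => hp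
  obtain ⟨ε, hε, hball⟩ := Metric.eventually_nhds_iff_ball.1 (hv.continuousAt.eventually_ne h0)
  filter_upwards [DD_cof hv hiso hg, DD_bound hv hiso hg, Ioo_mem_nhdsGT hε] with r hcof hbd hr
  obtain ⟨h, han, hcof⟩ := hcof
  obtain ⟨C, hC, hbd⟩ := hbd 0 (Or.inr h0)
  intro Om p lm l s s' A K B C₁ hp hgn hB hlm0 hpB hlc hll hen hC₁ hpt
  have hl0 : ∀ z, 0 ≤ l z := fun z => (hlm0 z).trans (hll z)
  have hv0 : ∀ z ∈ Om, v (p z) ≠ 0 := fun z hz => hball _ (ball_subset_ball hr.2.le (hp.mem z hz))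
  have hDa : ∀ z ∈ Om, AnalyticAt ℂ (DDv v g p) z := by
    intro z hz
    obtain ⟨-, h1, h2⟩ := hcof Om p hp hgn z hz (hv0 z hz)
    have h3 : AnalyticAt ℂ (fun w => h (p w)) z := AnalyticAt.comp (g := h) (f := p) (han _ (ball_subset_closedBall (hp.mem z hz))) (hp.an z hz)
    exact (h3.mul h1).congr (h2.mono fun w hw => hw.symm)
  have hL : ∀ R : ℝ, 0 ≤ ∫ z, ‖gr (tau R) z‖ * l z := fun R => integral_nonneg fun z => mul_nonneg (norm_nonneg _) (hl0 z)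
  have hc : ∀ z ∈ Om, ContDiffAt ℝ 1 (fun w => (starRingEnd ℂ) (DDv v g p w)) z := fun z hz => contDiffAt_conj_holo (hDa z hz)
  refine ⟨max (C * B) (max |K| (Real.log (1 + C₁))), l, fun w => (starRingEnd ℂ) (DDv v g p w), fun _ => 0, fun _ => 0,
    le_max_of_le_left (mul_nonneg hC.le hB), hlc, hll, fun R hR => ?_, fun z hz => (hc z hz.1).contDiffWithinAt, continuousOn_const, fun z _ => ⟨0, ?_⟩,
    fun z _ _ => ⟨rfl, rfl, rfl⟩, fun z hz _ => ?_, fun z hz _ => ?_, fun z hz _ h1 h2 h3 => ?_, fun R hR => ?_⟩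
  · exact (hen R hR).trans (by gcongr; exact (le_abs_self K).trans ((le_max_left _ _).trans (le_max_right _ _)))
  · exact LogSing.of_contDiffAt contDiff_const.contDiffAt
  · show ‖(starRingEnd ℂ) (DDv v g p z)‖ ≤ _
    rw [RCLike.norm_conj]
    have h1 := (hbd Om p hp hgn z hz.1 (by rw [ball_zero]; exact Set.notMem_empty _)).2
    calc ‖DDv v g p z‖ ≤ C * ‖deriv p z‖ := h1
      _ ≤ C * (B * l z) := by
        gcongr
        exact (hpB z hz.1).trans (by gcongr; exact hll z)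
      _ = C * B * l z := by ring
      _ ≤ _ := mul_le_mul_of_nonneg_right (le_max_left _ _) (hl0 z)
  · have h4 : Δ (fun _ : ℂ => (0 : ℝ)) z = 0 := by
      rw [InnerProductSpace.laplacian_const]
      rfl
    rw [h4, dv_conj (hDa z hz.1).differentiableAt]
    norm_num
  · have h5 : 0 < ‖ztv v p z‖ * ‖g (p z)‖ * ‖J (p z)‖ := mul_pos (mul_pos (norm_pos_iff.2 h1) (norm_pos_iff.2 h2)) (norm_pos_iff.2 h3)
    have h6 : Real.log ‖ztv v p z‖ + Real.log ‖g (p z)‖ + Real.log ‖J (p z)‖ = Real.log (‖ztv v p z‖ * ‖g (p z)‖ * ‖J (p z)‖) := by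
      rw [Real.log_mul (mul_ne_zero (norm_ne_zero_iff.2 h1) (norm_ne_zero_iff.2 h2)) (norm_ne_zero_iff.2 h3),
        Real.log_mul (norm_ne_zero_iff.2 h1) (norm_ne_zero_iff.2 h2)]
    have h7 : C₁ * l z ≤ (1 + C₁) * (1 + l z) := by nlinarith [hl0 z]
    rw [h6, add_zero]
    calc Real.log (‖ztv v p z‖ * ‖g (p z)‖ * ‖J (p z)‖) ≤ Real.log ((1 + C₁) * (1 + l z)) := Real.log_le_log h5 ((hpt z hz.1 hz.2).trans h7)
      _ = Real.log (1 + C₁) + Real.log (1 + l z) := Real.log_mul (by linarith) (by linarith [hl0 z])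
      _ ≤ _ := by gcongr; exact (le_max_right _ _).trans (le_max_right _ _)
  · simp only [mul_zero, integral_zero, zero_mul, zero_add]
    have h1 : 0 ≤ max (C * B) (max |K| (Real.log (1 + C₁))) := le_max_of_le_left (mul_nonneg hC.le hB)
    have h2 := mul_nonneg h1 (hL R)
    linarith

theorem nJD (al be : ℝ) (p : ℂ × ℂ) : ‖JD al be p‖ = ‖p.1‖ ^ al * ‖p.2‖ ^ be := by
  unfold JD
  rw [Complex.norm_real, Real.norm_eq_abs, abs_of_nonneg (by positivity)]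

/-- `|g| |x| ^ al |y| ^ be` is bounded -/
theorem g_bound {g : ℂ × ℂ → ℂ} (hg : AnalyticAt ℂ g 0) {al be : ℝ} (hal : -1 < al) (hbe : -1 < be) (hx : 0 ≤ al ∨ DivX g) (hy : 0 ≤ be ∨ DivY g)
    (h : 0 ≤ al ∨ 0 ≤ be) : ∃ G : ℝ, 0 ≤ G ∧ ∀ᶠ q in 𝓝 (0 : ℂ × ℂ), ‖g q‖ * (‖q.1‖ ^ al * ‖q.2‖ ^ be) ≤ G := by
  have hone : ∀ᶠ q in 𝓝 (0 : ℂ × ℂ), ‖q.1‖ ≤ 1 ∧ ‖q.2‖ ≤ 1 := by
    filter_upwards [Metric.ball_mem_nhds (0 : ℂ × ℂ) one_pos] with q hq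
    rw [mem_ball_zero_iff] at hq
    exact ⟨(norm_fst_le q).trans hq.le, (norm_snd_le q).trans hq.le⟩
  have hbd : ∀ f : ℂ × ℂ → ℂ, AnalyticAt ℂ f 0 → ∀ᶠ q in 𝓝 (0 : ℂ × ℂ), ‖f q‖ ≤ ‖f 0‖ + 1 := fun f hf =>
    (hf.continuousAt.norm.eventually_lt_const (lt_add_one ‖f 0‖)).mono fun q hq => hq.le
  have hpow : ∀ {a t : ℝ}, -1 < a → 0 ≤ t → t ≤ 1 → t * t ^ a ≤ 1 := by
    intro a t ha ht ht1
    rcases ht.eq_or_lt with h1 | h1
    · rw [← h1, zero_mul]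
      exact zero_le_one
    · have h2 : t * t ^ a = t ^ (1 + a) := by rw [Real.rpow_add h1, Real.rpow_one]
      rw [h2]
      exact Real.rpow_le_one ht ht1 (by linarith)
  by_cases h1 : 0 ≤ al
  · by_cases h2 : 0 ≤ be
    · refine ⟨‖g 0‖ + 1, by positivity, ?_⟩
      filter_upwards [hone, hbd g hg] with q hq hq2
      have h3 : ‖q.1‖ ^ al * ‖q.2‖ ^ be ≤ 1 :=
        mul_le_one₀ (Real.rpow_le_one (norm_nonneg _) hq.1 h1) (by positivity) (Real.rpow_le_one (norm_nonneg _) hq.2 h2)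
      calc ‖g q‖ * (‖q.1‖ ^ al * ‖q.2‖ ^ be) ≤ (‖g 0‖ + 1) * 1 := mul_le_mul hq2 h3 (by positivity) (by positivity)
        _ = _ := mul_one _
    · obtain ⟨g₀, hg₀, hgg⟩ := hy.resolve_left h2
      refine ⟨‖g₀ 0‖ + 1, by positivity, ?_⟩
      filter_upwards [hone, hbd g₀ hg₀, hgg] with q hq hq2 hq3
      rw [hq3, norm_mul]
      have h3 : ‖q.2‖ * ‖g₀ q‖ * (‖q.1‖ ^ al * ‖q.2‖ ^ be) = ‖g₀ q‖ * (‖q.1‖ ^ al * (‖q.2‖ * ‖q.2‖ ^ be)) := by ring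
      have h4 : ‖q.1‖ ^ al * (‖q.2‖ * ‖q.2‖ ^ be) ≤ 1 :=
        mul_le_one₀ (Real.rpow_le_one (norm_nonneg _) hq.1 h1) (by positivity) (hpow hbe (norm_nonneg _) hq.2)
      rw [h3]
      calc ‖g₀ q‖ * (‖q.1‖ ^ al * (‖q.2‖ * ‖q.2‖ ^ be)) ≤ (‖g₀ 0‖ + 1) * 1 := mul_le_mul hq2 h4 (by positivity) (by positivity)
        _ = _ := mul_one _
  · have h2 := h.resolve_left h1
    obtain ⟨g₀, hg₀, hgg⟩ := hx.resolve_left h1
    refine ⟨‖g₀ 0‖ + 1, by positivity, ?_⟩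
    filter_upwards [hone, hbd g₀ hg₀, hgg] with q hq hq2 hq3
    rw [hq3, norm_mul]
    have h3 : ‖q.1‖ * ‖g₀ q‖ * (‖q.1‖ ^ al * ‖q.2‖ ^ be) = ‖g₀ q‖ * ((‖q.1‖ * ‖q.1‖ ^ al) * ‖q.2‖ ^ be) := by ring
    have h4 : (‖q.1‖ * ‖q.1‖ ^ al) * ‖q.2‖ ^ be ≤ 1 :=
      mul_le_one₀ (hpow hal (norm_nonneg _) hq.1) (by positivity) (Real.rpow_le_one (norm_nonneg _) hq.2 h2)
    rw [h3]
    calc ‖g₀ q‖ * ((‖q.1‖ * ‖q.1‖ ^ al) * ‖q.2‖ ^ be) ≤ (‖g₀ 0‖ + 1) * 1 := mul_le_mul hq2 h4 (by positivity) (by positivity)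
      _ = _ := mul_one _

/-- both axes with a negative exponent invariant (at most one of them) -/
theorem inv_case {al be : ℝ} (hal : -1 < al) (hbe : -1 < be) {v : ℂ × ℂ → ℂ × ℂ} (hv : AnalyticAt ℂ v 0) (h0 : v 0 ≠ 0) (h : 0 ≤ al ∨ 0 ≤ be)
    (hx : al < 0 → ∀ᶠ t in 𝓝 (0 : ℂ), (v (0, t)).1 = 0) (hy : be < 0 → ∀ᶠ t in 𝓝 (0 : ℂ), (v (t, 0)).2 = 0) : GoodD0 GT al be v := by
  intro g _ hg hA
  have hiso : ∀ᶠ p in 𝓝 (0 : ℂ × ℂ), p ≠ 0 → v p ≠ 0 := (hv.continuousAt.eventually_ne h0).mono fun p hp _ => hp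
  have hX : 0 ≤ al ∨ DivX g := (le_or_gt 0 al).imp_right fun h => hA.fst h (hx h)
  have hY : 0 ≤ be ∨ DivY g := (le_or_gt 0 be).imp_right fun h => hA.snd h (hy h)
  obtain ⟨G, hG, hGb⟩ := g_bound hg.an hal hbe hX hY h
  obtain ⟨ε, hε, hball⟩ := Metric.eventually_nhds_iff_ball.1 hGb
  filter_upwards [locX_reg (J := JD al be) hv h0 hg, DD_bound hv hiso hg, Ioo_mem_nhdsGT hε] with r hloc hbd hr
  intro s s' _ _ _ B hB
  obtain ⟨C, hC, hbd⟩ := hbd 0 (Or.inr h0)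
  refine ⟨1, 0, zero_le_one, le_rfl, ?_⟩
  intro d n q ψ _ _ _ _ M F Q lm Om p hD _
  rw [zero_mul, zero_div]
  refine hloc Om p lm lm s s' 1 0 B (C * B * G) hD.crv hD.g_ne hB hD.lm_nonneg hD.lm_ge hD.lm_cont (fun z => le_rfl) (fun R _ => by rw [one_mul, add_zero])
    (by positivity) fun z hz _ => ?_
  have h1 := (hbd Om p hD.crv hD.g_ne z hz (by rw [ball_zero]; exact Set.notMem_empty _)).1
  have h2 := hball _ (ball_subset_ball hr.2.le (hD.crv.mem z hz))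
  have h3 : ‖ztv v p z‖ ≤ C * B * lm z := by
    calc ‖ztv v p z‖ ≤ C * ‖deriv p z‖ := h1
      _ ≤ C * (B * lm z) := by gcongr; exact hD.lm_ge z hz
      _ = _ := by ring
  rw [nJD, mul_assoc]
  have h4 := hD.lm_nonneg z
  calc ‖ztv v p z‖ * (‖g (p z)‖ * (‖(p z).1‖ ^ al * ‖(p z).2‖ ^ be)) ≤ (C * B * lm z) * G := mul_le_mul h3 h2 (by positivity) (by positivity)
    _ = C * B * G * lm z := by ring

/-- `{x = 0}` transversal with a negative exponent -/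
theorem trans_case {al be : ℝ} (hal : -1 < al) (hbe : -1 < be) {v : ℂ × ℂ → ℂ × ℂ} (hv : AnalyticAt ℂ v 0) (hal' : al < 0) (h0 : (v 0).1 ≠ 0)
    (hy : be < 0 → ∀ᶠ t in 𝓝 (0 : ℂ), (v (t, 0)).2 = 0) : GoodD0 GT al be v := by
  intro g _ hg hA
  have h0' : v 0 ≠ 0 := fun h => h0 (by rw [h]; rfl)
  have hY : 0 ≤ be ∨ DivY g := (le_or_gt 0 be).imp_right fun h => hA.snd h (hy h)
  obtain ⟨G, hG, hGb⟩ := g_bound hg.an (al := 0) (by norm_num) hbe (Or.inl le_rfl) hY (Or.inl le_rfl)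
  obtain ⟨ε, hε, hball⟩ := Metric.eventually_nhds_iff_ball.1 hGb
  have hv1 : ContinuousAt (fun q => ‖(v q).1‖) 0 := (continuous_fst.continuousAt.comp hv.continuousAt).norm
  have hc0 : 0 < ‖(v 0).1‖ / 2 := half_pos (norm_pos_iff.2 h0)
  obtain ⟨ε', hε', hball'⟩ := Metric.eventually_nhds_iff_ball.1 (hv1.eventually_const_lt (show ‖(v 0).1‖ / 2 < ‖(v 0).1‖ by linarith))
  filter_upwards [locX_reg (J := JD al be) hv h0' hg, Ioo_mem_nhdsGT hε, Ioo_mem_nhdsGT hε'] with r hloc hr hr'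
  intro s s' hs hss hsr B hB
  obtain ⟨A, hA0, hroot⟩ := root_energy hal (hs.trans hss) hsr hB
  refine ⟨A, 0, hA0, le_rfl, ?_⟩
  intro d n q ψ _ _ _ _ M F Q lm Om p hD hAv
  rw [zero_mul, zero_div]
  obtain ⟨l₁, K, k1, k2, k3, k4⟩ := hroot Om p lm hD.crv.isOpen hD.crv.an hD.crv.mem hD.crv.closed (hAv.fst hal') hD.lm_cont hD.lm_nonneg hD.lm_ge
  refine hloc Om p lm l₁ s s' A K B ((‖(v 0).1‖ / 2)⁻¹ * G) hD.crv hD.g_ne hB hD.lm_nonneg hD.lm_ge k1 k2 k3 (by positivity) fun z hz hz' => ?_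
  have h1 := hball _ (ball_subset_ball hr.2.le (hD.crv.mem z hz))
  have h2 := hball' _ (ball_subset_ball hr'.2.le (hD.crv.mem z hz))
  have hvz : v (p z) ≠ 0 := by
    intro h
    rw [h] at h2
    simp only [Prod.fst_zero, norm_zero] at h2
    linarith
  have h3 : ‖ztv v p z‖ ≤ (‖(v 0).1‖ / 2)⁻¹ * ‖(deriv p z).1‖ := by
    rw [hD.crv.deriv_fst hz hvz, norm_mul]
    have h4 : (‖(v 0).1‖ / 2)⁻¹ * (‖ztv v p z‖ * ‖(v (p z)).1‖) = ‖ztv v p z‖ * ((‖(v 0).1‖ / 2)⁻¹ * ‖(v (p z)).1‖) := by ring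
    rw [h4]
    refine le_mul_of_one_le_right (norm_nonneg _) ?_
    rw [inv_mul_eq_div, one_le_div hc0]
    exact h2.le
  have h5 := k4 z hz (ball_subset_closedBall hz')
  rw [Real.rpow_zero, one_mul] at h1
  rw [nJD]
  have h6 : ‖ztv v p z‖ * ‖g (p z)‖ * (‖(p z).1‖ ^ al * ‖(p z).2‖ ^ be) = (‖ztv v p z‖ * ‖(p z).1‖ ^ al) * (‖g (p z)‖ * ‖(p z).2‖ ^ be) := by ring
  have h7 : ‖ztv v p z‖ * ‖(p z).1‖ ^ al ≤ (‖(v 0).1‖ / 2)⁻¹ * l₁ z := by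
    calc ‖ztv v p z‖ * ‖(p z).1‖ ^ al ≤ (‖(v 0).1‖ / 2)⁻¹ * ‖(deriv p z).1‖ * ‖(p z).1‖ ^ al := by gcongr
      _ = (‖(v 0).1‖ / 2)⁻¹ * (‖(deriv p z).1‖ * ‖(p z).1‖ ^ al) := by ring
      _ ≤ _ := by gcongr
  have h8 : 0 ≤ l₁ z := (hD.lm_nonneg z).trans (k2 z)
  rw [h6]
  calc (‖ztv v p z‖ * ‖(p z).1‖ ^ al) * (‖g (p z)‖ * ‖(p z).2‖ ^ be) ≤ ((‖(v 0).1‖ / 2)⁻¹ * l₁ z) * G :=
        mul_le_mul h7 h1 (by positivity) (by positivity)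
    _ = _ := by ring

/-- the exchange of the coordinates -/
theorem swap0 {al be : ℝ} {v : ℂ × ℂ → ℂ × ℂ} (hv : GoodD0 GT be al (swv v)) : GoodD0 GT al be v := by
  intro g _ hw hA
  filter_upwards [hv _ trivial hw.swap hA.swap] with r hr
  intro s s' hs hss hsr B hB
  obtain ⟨A, C₀, hA, hC₀, hmain⟩ := hr s s' hs hss hsr B hB
  refine ⟨A, C₀, hA, hC₀, ?_⟩
  intro d n q ψ hd hn hq hψ M F Q lm Om p hD hAv
  have hq' : AnalyticAt ℂ (fun p : ℂ × ℂ => q p.swap) 0 := AnalyticAt.comp (f := fun q : ℂ × ℂ => q.swap) (g := q) (x := 0) hq (an_swap 0)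
  have hψ' : ContDiffAt ℝ 1 (fun p : ℂ × ℂ => ψ p.swap) 0 :=
    ContDiffAt.comp (g := ψ) (f := fun q : ℂ × ℂ => q.swap) 0 hψ (((an_swap 0).contDiffAt (n := 1)).restrict_scalars ℝ)
  have h1 := hmain d n _ _ hd hn hq' hψ' M F Q lm Om _ hD.swap hAv.swap
  refine locX_swap (Om := Om) hD.crv (fun z hz => hz.1) ?_
  have h2 : (fun q : ℂ × ℂ => JD al be q.swap) = JD be al := funext fun q => JD_swap be al q
  have h3 : {z | z ∈ Om ∧ (p z).swap ∈ ball (0 : ℂ × ℂ) s'} = {z | z ∈ Om ∧ p z ∈ ball (0 : ℂ × ℂ) s'} := by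
    ext z
    rw [mem_setOf_eq, mem_setOf_eq, mem_ball_zero_iff, mem_ball_zero_iff, norm_swap']
  rw [h2, ← h3]
  exact h1

end RegD0

open RegD0 in
theorem goodD_reg0 {al be : ℝ} (hal : -1 < al) (hbe : -1 < be) {v : ℂ × ℂ → ℂ × ℂ} (hv : AnalyticAt ℂ v 0) (h0 : v 0 ≠ 0)
    (hx : al < 0 → (v 0).1 ≠ 0 ∨ ∀ᶠ t in 𝓝 (0 : ℂ), (v (0, t)).1 = 0) (hy : be < 0 → (v 0).2 ≠ 0 ∨ ∀ᶠ t in 𝓝 (0 : ℂ), (v (t, 0)).2 = 0)
    (hxy : al < 0 → be < 0 → (∀ᶠ t in 𝓝 (0 : ℂ), (v (0, t)).1 = 0) ∨ ∀ᶠ t in 𝓝 (0 : ℂ), (v (t, 0)).2 = 0) : GoodD0 GT al be v := by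
  have ex : (∀ᶠ t in 𝓝 (0 : ℂ), (v (0, t)).1 = 0) → (v 0).1 = 0 := fun h => h.self_of_nhds
  have ey : (∀ᶠ t in 𝓝 (0 : ℂ), (v (t, 0)).2 = 0) → (v 0).2 = 0 := fun h => h.self_of_nhds
  by_cases c1 : al < 0 ∧ (v 0).1 ≠ 0
  · refine trans_case hal hbe hv c1.1 c1.2 fun hb => ?_
    exact (hxy c1.1 hb).resolve_left fun h => c1.2 (ex h)
  by_cases c2 : be < 0 ∧ (v 0).2 ≠ 0
  · refine swap0 (trans_case (v := swv v) hbe hal ?_ c2.1 c2.2 fun ha => ?_)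
    · have h4 : AnalyticAt ℂ (fun q : ℂ × ℂ => v q.swap) 0 := AnalyticAt.comp (f := fun q : ℂ × ℂ => q.swap) (g := v) (x := 0) hv (an_swap 0)
      exact AnalyticAt.comp (f := fun q : ℂ × ℂ => v q.swap) (g := fun q : ℂ × ℂ => q.swap) (x := 0) (an_swap _) h4
    · exact (hxy ha c2.1).resolve_right fun h => c2.2 (ey h)
  have c3 : al < 0 → ∀ᶠ t in 𝓝 (0 : ℂ), (v (0, t)).1 = 0 := fun ha => (hx ha).resolve_left fun h => c1 ⟨ha, h⟩
  have c4 : be < 0 → ∀ᶠ t in 𝓝 (0 : ℂ), (v (t, 0)).2 = 0 := fun hb => (hy hb).resolve_left fun h => c2 ⟨hb, h⟩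
  refine inv_case hal hbe hv h0 ?_ c3 c4
  by_contra hcon
  push Not at hcon
  exact h0 (Prod.ext (ex (c3 hcon.1)) (ey (c4 hcon.2)))

end Pool.Agent.MQL

end
end

section

/-!
# MQ3 FolT: the foliations of two charts at a common point off the axes

`ρ (κ x) = b x • ρ' (κ' (Ψ x))` near `q`, the slopes agree at `q`: then they agree near `q` (`roots_agree`: the slopes are continuous functions with values
in the finite set of the slopes of the null directions), and `DΨ (v) = h • v' ∘ Ψ` with a unit `h`.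
-/

set_option autoImplicit false

open Topology Filter Metric

noncomputable section

namespace Pool.Agent.MQ3

open Pool.Agent.H36.BP (EN)
open Pool.Agent.H14.PP (Tan)

variable {M : ℕ} {X : Set (EN M)} {m : ℕ} {θ : WDiff X m} {l : LF M} {ρ ρ' : ℂ × ℂ → EN M}

/-- continuous functions with values in a finite set of continuous functions with distinct values -/
theorem roots_agree {α : Type*} [TopologicalSpace α] {e : ℕ} {t : Fin e → α → ℂ} {f g : α → ℂ} {q : α} (ht : ∀ k, ContinuousAt (t k) q)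
    (hd : ∀ j k, j ≠ k → t j q ≠ t k q) (hf : ContinuousAt f q) (hg : ContinuousAt g q) (hft : ∀ᶠ x in 𝓝 q, ∃ k, t k x = f x)
    (hgt : ∀ᶠ x in 𝓝 q, ∃ k, t k x = g x) (h : f q = g q) : ∀ᶠ x in 𝓝 q, f x = g x := by
  obtain ⟨k₀, hk₀⟩ := hft.self_of_nhds
  have key : ∀ F : α → ℂ, ContinuousAt F q → F q = t k₀ q → (∀ᶠ x in 𝓝 q, ∃ k, t k x = F x) → ∀ᶠ x in 𝓝 q, F x = t k₀ x := by
    intro F hF hq hFt
    have h1 : ∀ k, k ≠ k₀ → ∀ᶠ x in 𝓝 q, t k x - F x ≠ 0 := by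
      intro k hk
      refine ((ht k).sub hF).eventually_ne ?_
      show t k q - F q ≠ 0
      rw [hq]
      exact sub_ne_zero.2 (hd k k₀ hk)
    have h2 : ∀ᶠ x in 𝓝 q, ∀ k, k ≠ k₀ → t k x - F x ≠ 0 := by
      rw [eventually_all]
      intro k
      by_cases hk : k = k₀
      · exact Eventually.of_forall fun x h => absurd hk h
      · exact (h1 k hk).mono fun x hx _ => hx
    filter_upwards [hFt, h2] with x ⟨k, hk⟩ hx
    by_cases hkk : k = k₀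
    · rw [← hkk]
      exact hk.symm
    · exact absurd (sub_eq_zero.2 hk) (hx k hkk)
  have h1 := key f hf hk₀.symm hft
  have h2 := key g hg (h.symm.trans hk₀.symm) hgt
  filter_upwards [h1, h2] with x hx hx'
  rw [hx, hx']

/-- a branch of the logarithm with a given value -/
theorem exists_pbranch (P : ℂ × ℂ) : ∃ Λ : ℂ × ℂ → ℂ × ℂ, AnalyticAt ℂ Λ (pexp P) ∧ Λ (pexp P) = P ∧ ∀ᶠ y in 𝓝 (pexp P), pexp (Λ y) = y := by
  set p := pexp P with hp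
  have h1 : p.1 ≠ 0 := Complex.exp_ne_zero _
  have h2 : p.2 ≠ 0 := Complex.exp_ne_zero _
  refine ⟨fun q => (Complex.log (q.1 / p.1) + P.1, Complex.log (q.2 / p.2) + P.2), ?_, ?_, ?_⟩
  · have hs1 : p.1 / p.1 ∈ Complex.slitPlane := by rw [div_self h1]; exact Complex.one_mem_slitPlane
    have hs2 : p.2 / p.2 ∈ Complex.slitPlane := by rw [div_self h2]; exact Complex.one_mem_slitPlane
    exact (((analyticAt_fst.div_const).clog hs1).add analyticAt_const).prod (((analyticAt_snd.div_const).clog hs2).add analyticAt_const)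
  · simp [div_self h1, div_self h2]
  · have e1 : ∀ᶠ y : ℂ × ℂ in 𝓝 p, y.1 ≠ 0 := continuous_fst.continuousAt.eventually_ne h1
    have e2 : ∀ᶠ y : ℂ × ℂ in 𝓝 p, y.2 ≠ 0 := continuous_snd.continuousAt.eventually_ne h2
    filter_upwards [e1, e2] with y hy1 hy2
    refine Prod.ext ?_ ?_
    · show Complex.exp (Complex.log (y.1 / p.1) + P.1) = y.1
      have h3 : Complex.exp P.1 = p.1 := rfl
      rw [Complex.exp_add, Complex.exp_log (div_ne_zero hy1 h1), h3, div_mul_cancel₀ _ h1]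
    · show Complex.exp (Complex.log (y.2 / p.2) + P.2) = y.2
      have h3 : Complex.exp P.2 = p.2 := rfl
      rw [Complex.exp_add, Complex.exp_log (div_ne_zero hy2 h2), h3, div_mul_cancel₀ _ h2]

/-- the wedge product with the frame vector of slope `s` -/
theorem wedge_om (l : LF M) (ρ : ℂ × ℂ → EN M) (p w : ℂ × ℂ) (s : ℂ) :
    (v₁ l ρ p + s • v₂ l ρ p).1 * w.2 - (v₁ l ρ p + s • v₂ l ρ p).2 * w.1 = om l 2 (ρ p) (fderiv ℂ ρ p w) - s * om l 1 (ρ p) (fderiv ℂ ρ p w) := by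
  rw [om_chart, om_chart, v₁, v₂]
  simp only [Prod.fst_add, Prod.snd_add, Prod.smul_fst, Prod.smul_snd, smul_eq_mul]
  ring

theorem om_scale (l : LF M) (i : Fin 3) (x w : EN M) (c μ : ℂ) : om l i (c • x) (c • w + μ • x) = c ^ 2 * om l i x w := by
  simp only [om, map_add, map_smul, smul_eq_mul]
  ring

section

variable {W : BoxWeb θ l ρ} {W' : BoxWeb θ l ρ'}

theorem MChart.an_κ (c : MChart W) (q : ℂ × ℂ) : AnalyticAt ℂ c.κ q := analyticAt_mchart c.w.1 c.w'.1 c.w.2 c.w'.2 q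

theorem MChart.κ_DS (c : MChart W) {q : ℂ × ℂ} (hq : q ∈ c.D) (h0 : q.1 * q.2 ≠ 0) : c.κ q ∈ DS := mono_mem_DS hq h0

theorem MChart.pexp_κ (c : MChart W) {P q : ℂ × ℂ} (hP : pexp P = q) : pexp (ln c.w c.w' P) = c.κ q := by
  rw [pexp_ln, hP]
  rfl

theorem MChart.ln_HH (c : MChart W) {P q : ℂ × ℂ} (hP : pexp P = q) (hq : q ∈ c.D) : ln c.w c.w' P ∈ HH := by
  rw [ln_mem_iff, hP]
  exact hq

/-- off the axes the map to the box is a local isomorphism -/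
theorem MChart.inj_κ (c : MChart W) {q : ℂ × ℂ} (h : q.1 * q.2 ≠ 0) (v : ℂ × ℂ) (hv : fderiv ℂ c.κ q v = 0) : v = 0 := by
  have h1 := left_ne_zero_of_mul h
  have h2 := right_ne_zero_of_mul h
  have hd : c.w'.1 * c.w.2 < c.w.1 * c.w'.2 := by
    have h3 := c.pos
    rw [dt] at h3
    have h4 : (c.w.2 : ℤ) * c.w'.1 < c.w.1 * c.w'.2 := by linarith
    have h5 : c.w.2 * c.w'.1 < c.w.1 * c.w'.2 := by exact_mod_cast h4
    rwa [mul_comm c.w'.1]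
  have hj := jac_mchart hd q
  have hj0 : (((c.w.1 * c.w'.2 - c.w'.1 * c.w.2 : ℕ) : ℂ) * q.1 ^ (c.w.1 + c.w.2 - 1) * q.2 ^ (c.w'.1 + c.w'.2 - 1)) ≠ 0 := by
    refine mul_ne_zero (mul_ne_zero ?_ (pow_ne_zero _ h1)) (pow_ne_zero _ h2)
    have : c.w.1 * c.w'.2 - c.w'.1 * c.w.2 ≠ 0 := by omega
    exact_mod_cast this
  set L := fderiv ℂ (mchart c.w.1 c.w'.1 c.w.2 c.w'.2) q with hL
  have hL0 : L v = 0 := hv
  rw [← hj] at hj0
  rw [split_vec] at hL0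
  have e1 : v.1 * (L (1, 0)).1 + v.2 * (L (0, 1)).1 = 0 := congrArg Prod.fst hL0
  have e2 : v.1 * (L (1, 0)).2 + v.2 * (L (0, 1)).2 = 0 := congrArg Prod.snd hL0
  have e3 : v.1 = 0 := by
    have : v.1 * ((L (1, 0)).1 * (L (0, 1)).2 - (L (0, 1)).1 * (L (1, 0)).2) = 0 := by
      linear_combination (L (0, 1)).2 * e1 - (L (0, 1)).1 * e2
    exact (mul_eq_zero.1 this).resolve_right hj0
  have e4 : v.2 = 0 := by
    have : v.2 * ((L (1, 0)).1 * (L (0, 1)).2 - (L (0, 1)).1 * (L (1, 0)).2) = 0 := by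
      linear_combination (L (1, 0)).1 * e2 - (L (1, 0)).2 * e1
    exact (mul_eq_zero.1 this).resolve_right hj0
  exact Prod.ext e3 e4

/-- the directions of the foliation: `om l 2 = s om l 1` -/
theorem MChart.dir_iff (c : MChart W) {q P : ℂ × ℂ} (hP : pexp P = q) (hq : q ∈ c.D) (h0 : q.1 * q.2 ≠ 0) (u : ℂ × ℂ) :
    om l 2 (ρ (c.κ q)) (fderiv ℂ ρ (c.κ q) (fderiv ℂ c.κ q u)) =
      W.T c.k (ln c.w c.w' P) * om l 1 (ρ (c.κ q)) (fderiv ℂ ρ (c.κ q) (fderiv ℂ c.κ q u)) ↔ (c.v q).1 * u.2 - (c.v q).2 * u.1 = 0 := by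
  have hS := c.κ_DS hq h0
  have h1 := c.v_eq P (c.ln_HH hP hq) u
  rw [c.pexp_κ hP, hP] at h1
  have h2 := wedge_om l ρ (c.κ q) (fderiv ℂ c.κ q u) (W.T c.k (ln c.w c.w' P))
  have h3 : sA θ l ρ m (c.κ q) ≠ 0 := W.box.lead_ne W.surf W.hm hS (W.good _ hS).1 (W.good _ hS).2.1
  have h4 : q.1 ^ c.i * q.2 ^ c.j ≠ 0 := mul_ne_zero (pow_ne_zero _ (left_ne_zero_of_mul h0)) (pow_ne_zero _ (right_ne_zero_of_mul h0))
  have h5 : fderiv ℂ (mono c.w c.w') q u = fderiv ℂ c.κ q u := rfl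
  rw [h5, h2] at h1
  constructor
  · intro h
    rw [h, sub_self, mul_zero] at h1
    exact (mul_eq_zero.1 h1.symm).resolve_left h4
  · intro h
    rw [h, mul_zero] at h1
    exact sub_eq_zero.1 ((mul_eq_zero.1 h1).resolve_left h3)

/-- off the axes the vector field has no zeros -/
theorem MChart.v_ne (c : MChart W) {q : ℂ × ℂ} (hq : q ∈ c.D) (h0 : q.1 * q.2 ≠ 0) : c.v q ≠ 0 := by
  intro hv
  have hP : pexp (Complex.log q.1, Complex.log q.2) = q :=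
    Prod.ext (Complex.exp_log (left_ne_zero_of_mul h0)) (Complex.exp_log (right_ne_zero_of_mul h0))
  have hS := c.κ_DS hq h0
  have hinj : Function.Injective (fderiv ℂ c.κ q : ℂ × ℂ →ₗ[ℂ] ℂ × ℂ) := by
    rw [injective_iff_map_eq_zero]
    exact c.inj_κ h0
  have hsur := LinearMap.injective_iff_surjective.1 hinj
  have key : ∀ w : ℂ × ℂ, om l 2 (ρ (c.κ q)) (fderiv ℂ ρ (c.κ q) w) =
      W.T c.k (ln c.w c.w' (Complex.log q.1, Complex.log q.2)) * om l 1 (ρ (c.κ q)) (fderiv ℂ ρ (c.κ q) w) := by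
    intro w
    obtain ⟨u, hu⟩ := hsur w
    have h1 := (c.dir_iff hP hq h0 u).2 (by rw [hv]; simp)
    have h2 : fderiv ℂ c.κ q u = w := hu
    rwa [h2] at h1
  have hd := W.box.dl_ne W.surf hS (W.good _ hS).1
  have h1 := key (v₂ l ρ (c.κ q))
  rw [om_v₂_1, om_v₂_2, mul_zero] at h1
  exact hd h1

/-- **The slopes agree near the point.** -/
theorem slopes_agree (c : MChart W) (c' : MChart W') {q q' : ℂ × ℂ} (hq : q ∈ c.D) (hq' : q' ∈ c'.D) (h0 : q.1 * q.2 ≠ 0)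
    (h0' : q'.1 * q'.2 ≠ 0) {Ψ : ℂ × ℂ → ℂ × ℂ} (hΨ : ContinuousAt Ψ q) (hΨq : Ψ q = q') {b : ℂ × ℂ → ℂ} (hb : ContinuousAt b q) (hb0 : b q ≠ 0)
    (heq : ∀ᶠ x in 𝓝 q, ρ (c.κ x) = b x • ρ' (c'.κ (Ψ x))) {Λ Λ' : ℂ × ℂ → ℂ × ℂ} (hΛ : ContinuousAt Λ q) (hΛe : ∀ᶠ x in 𝓝 q, pexp (Λ x) = x)
    (hΛ' : ContinuousAt Λ' q') (hΛe' : ∀ᶠ x in 𝓝 q', pexp (Λ' x) = x)
    (hs : W.T c.k (ln c.w c.w' (Λ q)) = W'.T c'.k (ln c'.w c'.w' (Λ' q'))) :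
    ∀ᶠ x in 𝓝 q, W.T c.k (ln c.w c.w' (Λ x)) = W'.T c'.k (ln c'.w c'.w' (Λ' (Ψ x))) := by
  have hΨt : Tendsto Ψ (𝓝 q) (𝓝 q') := by
    have := hΨ.tendsto
    rwa [hΨq] at this
  have hD : ∀ᶠ x in 𝓝 q, x ∈ c.D := isOpen_Dm.mem_nhds hq
  have hD' : ∀ᶠ x in 𝓝 q, Ψ x ∈ c'.D := hΨt.eventually (isOpen_Dm.mem_nhds hq')
  have hz : ∀ᶠ x : ℂ × ℂ in 𝓝 q, x.1 * x.2 ≠ 0 := (continuous_fst.mul continuous_snd).continuousAt.eventually_ne h0
  have hz' : ∀ᶠ x in 𝓝 q, (Ψ x).1 * (Ψ x).2 ≠ 0 := hΨt.eventually ((continuous_fst.mul continuous_snd).continuousAt.eventually_ne h0')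
  have he' : ∀ᶠ x in 𝓝 q, pexp (Λ' (Ψ x)) = Ψ x := hΨt.eventually hΛe'
  have hbx : ∀ᶠ x in 𝓝 q, b x ≠ 0 := hb.eventually_ne hb0
  have hcl : ∀ (w w' : ℕ × ℕ), Continuous (ln w w') := fun w w' => by
    unfold ln
    fun_prop
  have hT : ∀ k, ContinuousAt (fun x => W'.T k (ln c'.w c'.w' (Λ' (Ψ x)))) q := by
    intro k
    have h1 : Tendsto (fun x => ln c'.w c'.w' (Λ' (Ψ x))) (𝓝 q) (𝓝 (ln c'.w c'.w' (Λ' q'))) :=
      ((hcl _ _).tendsto _).comp (hΛ'.tendsto.comp hΨt)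
    have h2 : ContinuousAt (W'.T k) (ln c'.w c'.w' (Λ' q')) := (W'.web.an k _ (c'.ln_HH hΛe'.self_of_nhds hq')).continuousAt
    have h3 := h2.tendsto.comp h1
    show Tendsto _ _ (𝓝 (W'.T k (ln c'.w c'.w' (Λ' (Ψ q)))))
    rw [hΨq]
    exact h3
  have hsl : ContinuousAt (fun x => W.T c.k (ln c.w c.w' (Λ x))) q := by
    have h2 : ContinuousAt (W.T c.k) (ln c.w c.w' (Λ q)) := (W.web.an c.k _ (c.ln_HH hΛe.self_of_nhds hq)).continuousAt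
    exact h2.tendsto.comp (((hcl _ _).tendsto _).comp hΛ.tendsto)
  refine roots_agree (t := fun k x => W'.T k (ln c'.w c'.w' (Λ' (Ψ x)))) hT ?_ hsl (hT c'.k) ?_ ?_ ?_
  · intro j k hjk h1
    have h2 : ln c'.w c'.w' (Λ' (Ψ q)) ∈ HH := c'.ln_HH he'.self_of_nhds hD'.self_of_nhds
    exact hjk (W'.web.inj _ h2 _ _ h1)
  · filter_upwards [hD, hD', hz, hz', he', hbx, heq, hΛe] with x a1 a2 a3 a4 a5 a6 a7 a8
    have h1 : W.T c.k (ln c.w c.w' (Λ x)) ∈ NS θ l (ρ (pexp (ln c.w c.w' (Λ x)))) := (W.ns _ (c.ln_HH a8 a1) _).2 ⟨c.k, rfl⟩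
    rw [c.pexp_κ a8, a7, ns_smul W.surf.smul θ l a6, ← c'.pexp_κ a5] at h1
    exact (W'.ns _ (c'.ln_HH a5 a2) _).1 h1
  · exact Eventually.of_forall fun x => ⟨c'.k, rfl⟩
  · show _ = W'.T c'.k (ln c'.w c'.w' (Λ' (Ψ q)))
    rw [hΨq]
    exact hs

/-- **FolT.** The change of charts carries the foliation to the foliation. -/
theorem fol_trans (c : MChart W) (c' : MChart W') {q q' : ℂ × ℂ} (hq : q ∈ c.D) (hq' : q' ∈ c'.D) (h0 : q.1 * q.2 ≠ 0)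
    (h0' : q'.1 * q'.2 ≠ 0) {Ψ : ℂ × ℂ → ℂ × ℂ} (hΨ : AnalyticAt ℂ Ψ q) (hΨq : Ψ q = q') (hinj : ∀ w, fderiv ℂ Ψ q w = 0 → w = 0)
    {b : ℂ × ℂ → ℂ} (hb : AnalyticAt ℂ b q) (hb0 : b q ≠ 0) (heq : ∀ᶠ x in 𝓝 q, ρ (c.κ x) = b x • ρ' (c'.κ (Ψ x))) {P P' : ℂ × ℂ}
    (hP : pexp P = q) (hP' : pexp P' = q') (hs : W.T c.k (ln c.w c.w' P) = W'.T c'.k (ln c'.w c'.w' P')) :
    ∃ h : ℂ × ℂ → ℂ, AnalyticAt ℂ h q ∧ h q ≠ 0 ∧ ∀ᶠ x in 𝓝 q, fderiv ℂ Ψ x (c.v x) = h x • c'.v (Ψ x) := by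
  obtain ⟨Λ, hΛ, hΛP, hΛe⟩ := exists_pbranch P
  obtain ⟨Λ', hΛ', hΛP', hΛe'⟩ := exists_pbranch P'
  rw [hP] at hΛ hΛP hΛe
  rw [hP'] at hΛ' hΛP' hΛe'
  have hΨt : Tendsto Ψ (𝓝 q) (𝓝 q') := by
    have := hΨ.continuousAt.tendsto
    rwa [hΨq] at this
  have hsl := slopes_agree c c' hq hq' h0 h0' hΨ.continuousAt hΨq hb.continuousAt hb0 heq hΛ.continuousAt hΛe hΛ'.continuousAt hΛe' (by rw [hΛP, hΛP', hs])
  have hD : ∀ᶠ x in 𝓝 q, x ∈ c.D := isOpen_Dm.mem_nhds hq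
  have hD' : ∀ᶠ x in 𝓝 q, Ψ x ∈ c'.D := hΨt.eventually (isOpen_Dm.mem_nhds hq')
  have hz : ∀ᶠ x : ℂ × ℂ in 𝓝 q, x.1 * x.2 ≠ 0 := (continuous_fst.mul continuous_snd).continuousAt.eventually_ne h0
  have hz' : ∀ᶠ x in 𝓝 q, (Ψ x).1 * (Ψ x).2 ≠ 0 := hΨt.eventually ((continuous_fst.mul continuous_snd).continuousAt.eventually_ne h0')
  have he' : ∀ᶠ x in 𝓝 q, pexp (Λ' (Ψ x)) = Ψ x := hΨt.eventually hΛe'
  have hbx : ∀ᶠ x in 𝓝 q, b x ≠ 0 := hb.continuousAt.eventually_ne hb0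
  -- the image of the vector field is tangent to the foliation
  have hpar : ∀ᶠ x in 𝓝 q, (c'.v (Ψ x)).1 * (fderiv ℂ Ψ x (c.v x)).2 - (c'.v (Ψ x)).2 * (fderiv ℂ Ψ x (c.v x)).1 = 0 := by
    filter_upwards [hD, hD', hz, hz', he', hbx, heq.eventually_nhds, hΛe, hsl, hΨ.eventually_analyticAt, hb.eventually_analyticAt] with x a1 a2 a3 a4 a5 a6
      a7 a8 a9 a10 a11
    rw [← c'.dir_iff a5 a2 a4, ← a9]
    have h1 := (c.dir_iff a8 a1 a3 (c.v x)).2 (by ring)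
    have hS := c.κ_DS a1 a3
    have hS' := c'.κ_DS a2 a4
    -- the derivatives
    have d1 : HasFDerivAt (fun y => ρ (c.κ y)) ((fderiv ℂ ρ (c.κ x)).comp (fderiv ℂ c.κ x)) x :=
      (W.box.an' hS).differentiableAt.hasFDerivAt.comp x (c.an_κ x).differentiableAt.hasFDerivAt
    have d2 : HasFDerivAt (fun y => ρ' (c'.κ (Ψ y))) ((fderiv ℂ ρ' (c'.κ (Ψ x))).comp ((fderiv ℂ c'.κ (Ψ x)).comp (fderiv ℂ Ψ x))) x :=
      (W'.box.an' hS').differentiableAt.hasFDerivAt.comp x ((c'.an_κ (Ψ x)).differentiableAt.hasFDerivAt.comp x a10.differentiableAt.hasFDerivAt)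
    have d3 := a11.differentiableAt.hasFDerivAt.smul d2
    have d4 := d3.congr_of_eventuallyEq a7
    have d5 := d1.unique d4
    have d6 : ∀ u, fderiv ℂ ρ (c.κ x) (fderiv ℂ c.κ x u) =
        b x • fderiv ℂ ρ' (c'.κ (Ψ x)) (fderiv ℂ c'.κ (Ψ x) (fderiv ℂ Ψ x u)) + fderiv ℂ b x u • ρ' (c'.κ (Ψ x)) := by
      intro u
      exact congrArg (fun L : ℂ × ℂ →L[ℂ] EN M => L u) d5
    rw [d6, a7.self_of_nhds, om_scale, om_scale, mul_left_comm] at h1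
    exact mul_left_cancel₀ (pow_ne_zero 2 a6) h1
  -- the unit
  have hva : AnalyticAt ℂ (fun x => c'.v (Ψ x)) q := by
    have h1 : AnalyticAt ℂ c'.v (Ψ q) := by
      rw [hΨq]
      exact c'.v_an q' hq'
    exact AnalyticAt.fun_comp (g := c'.v) (f := Ψ) h1 hΨ
  have hvn : c'.v (Ψ q) ≠ 0 := by
    rw [hΨq]
    exact c'.v_ne hq' h0'
  have hga : AnalyticAt ℂ (fun x => fderiv ℂ Ψ x (c.v x)) q :=
    AnalyticAt.comp (g := fun z : (ℂ × ℂ →L[ℂ] ℂ × ℂ) × (ℂ × ℂ) => z.1 z.2) (f := fun x => (fderiv ℂ Ψ x, c.v x))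
      (ContinuousLinearMap.analyticAt_bilinear (ContinuousLinearMap.id ℂ (ℂ × ℂ →L[ℂ] ℂ × ℂ)) _) (hΨ.fderiv.prod (c.v_an q hq))
  have hgn : fderiv ℂ Ψ q (c.v q) ≠ 0 := fun h1 => c.v_ne hq h0 (hinj _ h1)
  have main : ∃ h : ℂ × ℂ → ℂ, AnalyticAt ℂ h q ∧ ∀ᶠ x in 𝓝 q, fderiv ℂ Ψ x (c.v x) = h x • c'.v (Ψ x) := by
    by_cases h1 : (c'.v (Ψ q)).1 = 0
    · have h2 : (c'.v (Ψ q)).2 ≠ 0 := fun h2 => hvn (Prod.ext h1 h2)
      have h3 : AnalyticAt ℂ (fun x => (c'.v (Ψ x)).2) q := analyticAt_snd.comp hva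
      have h4 : AnalyticAt ℂ (fun x => (fderiv ℂ Ψ x (c.v x)).2) q := analyticAt_snd.comp hga
      refine ⟨fun x => (fderiv ℂ Ψ x (c.v x)).2 / (c'.v (Ψ x)).2, h4.div h3 h2, ?_⟩
      filter_upwards [hpar, h3.continuousAt.eventually_ne h2] with x e1 e2
      refine Prod.ext ?_ ?_
      · simp only [Prod.smul_fst, smul_eq_mul]
        rw [div_mul_eq_mul_div, eq_div_iff e2]
        linear_combination -e1
      · simp only [Prod.smul_snd, smul_eq_mul]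
        rw [div_mul_cancel₀ _ e2]
    · have h3 : AnalyticAt ℂ (fun x => (c'.v (Ψ x)).1) q := analyticAt_fst.comp hva
      have h4 : AnalyticAt ℂ (fun x => (fderiv ℂ Ψ x (c.v x)).1) q := analyticAt_fst.comp hga
      refine ⟨fun x => (fderiv ℂ Ψ x (c.v x)).1 / (c'.v (Ψ x)).1, h4.div h3 h1, ?_⟩
      filter_upwards [hpar, h3.continuousAt.eventually_ne h1] with x e1 e2
      refine Prod.ext ?_ ?_
      · simp only [Prod.smul_fst, smul_eq_mul]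
        rw [div_mul_cancel₀ _ e2]
      · simp only [Prod.smul_snd, smul_eq_mul]
        rw [div_mul_eq_mul_div, eq_div_iff e2]
        linear_combination e1
  obtain ⟨h, hh, hhx⟩ := main
  refine ⟨h, hh, fun h1 => hgn ?_, hhx⟩
  rw [hhx.self_of_nhds, h1, zero_smul]

end

end Pool.Agent.MQ3

end
end
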