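import Pool.Agent.H43.TL2.M19
import Pool.Agent.H43.TL2.M35
import Pool.Agent.H43.TL2.M39
import Pool.Agent.H43.TL2.M51
import Pool.Agent.H43.TL2.M58
import Pool.Agent.H43.TL2.M61
import Pool.Agent.H43.TL2.M75
import Pool.Agent.H43.TL2.MQ.SNTube

/-! The parts of this file: H68.KR.EM, MQ.SNBox, MQ.LForm, MQ.Shell_1. -/

section

/-!
# KR EM: the embedding of the function field given by an analytic map into the cone

Proof of `exists_embedding`.  Let `y i = emb (t2 (φ · i))`.  For every polynomial `Q`: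
`eval₂ cst y Q = emb (t2 (fun u => eval (φ u) Q))` (`t2_eval`, `MvPolynomial.hom_eval₂`,
`emb.comp (C.comp C) = cst` by `emb_C_C`).  So for homogeneous `Q`: `eval₂ cst y Q = 0 ↔ Q ∈ P` by `hmem`, `hnd`
(`emb_injective`, `t2_eq_zero_iff`, `analyticAt_eval`).  `exists_eval` gives `E` with `E (ratio i j) = y i / y j`.
Third statement: choose `l` with `X l ∉ P` (`exists_point`: some `x i ≠ 0`), then `y l ≠ 0`, and use `eval_hom_rep`.
Fourth statement: `y (s 0) ≠ 0`.  For an additive map `D` of the field `LL` with the Leibniz rule: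
`D (a / b) = (D a * b - a * D b) / b ^ 2` for `b ≠ 0` (from `a = (a / b) * b`).  So the left hand side is
`(1 / y₀^4) ((DX y₁ y₀ - y₁ DX y₀) (DT y₂ y₀ - y₂ DT y₀) - (DX y₂ y₀ - y₂ DX y₀) (DT y₁ y₀ - y₁ DT y₀))
  = D3 s y (DX ∘ y) (DT ∘ y) / y₀ ^ 3` (`field_simp; ring`),
and `DX (y i) = emb (pX (t2 (φ · i))) = emb (t2 (dx (φ · i))) = emb (t2 (d1 φ · i))` (`DX_emb`, `t2_dx`, `d1_apply`,
`t2_congr`), similarly `DT`; finally `D3 s y … = emb (t2 (D3 s φ (d1 φ) (d2 φ)))` by `t2_mul`, `t2_add` (and the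
consequence `t2_sub`, e.g. from `t2_add`, `t2_mul`, `t2_const (-1)`).
-/

set_option autoImplicit false

open MvPolynomial Topology Filter
open Pool.Agent.H17LG.Variety (FunField ratio)

noncomputable section

namespace Pool.Agent.H68.KR

private theorem EM_div {F : Type} [Field F] {D : F → F} (hD : ∀ a b, D (a * b) = a * D b + b * D a) (a b : F)
    (hb : b ≠ 0) : D (a / b) = (D a * b - a * D b) / b ^ 2 := by
  have h1 : D a = D (a / b * b) := by rw [div_mul_cancel₀ a hb]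
  rw [hD] at h1
  rw [h1, eq_div_iff (pow_ne_zero 2 hb)]
  field_simp
  ring

private theorem EM_jac {F : Type} [Field F] {D D' : F → F} (hD : ∀ a b, D (a * b) = a * D b + b * D a)
    (hD' : ∀ a b, D' (a * b) = a * D' b + b * D' a) (a b c : F) (ha : a ≠ 0) :
    D (b / a) * D' (c / a) - D (c / a) * D' (b / a) =
      (a * (D b * D' c - D c * D' b) - b * (D a * D' c - D c * D' a) + c * (D a * D' b - D b * D' a)) /
        a ^ 3 := by
  rw [EM_div hD _ _ ha, EM_div hD _ _ ha, EM_div hD' _ _ ha, EM_div hD' _ _ ha]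
  field_simp
  ring

private theorem EM_sub {f g : ℂ × ℂ → ℂ} (hf : AnalyticAt ℂ f 0) (hg : AnalyticAt ℂ g 0) :
    t2 (fun u => f u - g u) = t2 f - t2 g := by
  have h1 : t2 (fun u => (-1 : ℂ) * g u) = - t2 g := by
    rw [t2_mul analyticAt_const hg, t2_const]
    simp
  have h2 := t2_add hf (g := fun u => (-1 : ℂ) * g u) (analyticAt_const.mul hg)
  rw [h1] at h2
  rw [sub_eq_add_neg, ← h2]
  congr 1
  funext u
  ring

private theorem EM_comp {n : ℕ} {ψ : ℂ × ℂ → Fin n → ℂ} (h : AnalyticAt ℂ ψ 0) (i : Fin n) :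
    AnalyticAt ℂ (fun u => ψ u i) 0 :=
  (analyticAt_pi_iff.1 h) i

private theorem EM_DX {n : ℕ} {φ : ℂ × ℂ → Fin (n + 1) → ℂ} (hφ : AnalyticAt ℂ φ 0) (i : Fin (n + 1)) :
    DX (emb (t2 fun u => φ u i)) = emb (t2 fun u => d1 φ u i) := by
  rw [DX_emb, t2_dx (EM_comp hφ i)]
  congr 1
  refine t2_congr ?_
  filter_upwards [hφ.eventually_analyticAt] with u hu
  exact (d1_apply hu i).symm

private theorem EM_DT {n : ℕ} {φ : ℂ × ℂ → Fin (n + 1) → ℂ} (hφ : AnalyticAt ℂ φ 0) (i : Fin (n + 1)) :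
    DT (emb (t2 fun u => φ u i)) = emb (t2 fun u => d2 φ u i) := by
  rw [DT_emb, t2_dy (EM_comp hφ i)]
  congr 1
  refine t2_congr ?_
  filter_upwards [hφ.eventually_analyticAt] with u hu
  exact (d2_apply hu i).symm

private theorem EM_D3 {n : ℕ} {φ ψ χ : ℂ × ℂ → Fin (n + 1) → ℂ} (hφ : AnalyticAt ℂ φ 0)
    (hψ : AnalyticAt ℂ ψ 0) (hχ : AnalyticAt ℂ χ 0) (s : Fin 3 → Fin (n + 1)) :
    emb (t2 fun u => D3 s (φ u) (ψ u) (χ u)) =
      D3 s (fun i => emb (t2 fun u => φ u i)) (fun i => emb (t2 fun u => ψ u i))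
        (fun i => emb (t2 fun u => χ u i)) := by
  have hm : ∀ i j, AnalyticAt ℂ (fun u => ψ u i * χ u j) 0 := fun i j =>
    (EM_comp hψ i).mul (EM_comp hχ j)
  have hd : ∀ i j, AnalyticAt ℂ (fun u => ψ u i * χ u j - ψ u j * χ u i) 0 := fun i j =>
    (hm i j).sub (hm j i)
  have ht : ∀ k i j, AnalyticAt ℂ (fun u => φ u k * (ψ u i * χ u j - ψ u j * χ u i)) 0 := fun k i j =>
    (EM_comp hφ k).mul (hd i j)
  have h1 : ∀ i j, emb (t2 fun u => ψ u i * χ u j - ψ u j * χ u i) =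
      emb (t2 fun u => ψ u i) * emb (t2 fun u => χ u j) -
        emb (t2 fun u => ψ u j) * emb (t2 fun u => χ u i) := by
    intro i j
    rw [EM_sub (hm i j) (hm j i), t2_mul (EM_comp hψ i) (EM_comp hχ j),
      t2_mul (EM_comp hψ j) (EM_comp hχ i), map_sub, map_mul, map_mul]
  have h2 : ∀ k i j, emb (t2 fun u => φ u k * (ψ u i * χ u j - ψ u j * χ u i)) =
      emb (t2 fun u => φ u k) * (emb (t2 fun u => ψ u i) * emb (t2 fun u => χ u j) -
        emb (t2 fun u => ψ u j) * emb (t2 fun u => χ u i)) := by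
    intro k i j
    rw [t2_mul (EM_comp hφ k) (hd i j), map_mul, h1]
  have h3 : (fun u => D3 s (φ u) (ψ u) (χ u)) = fun u =>
      (φ u (s 0) * (ψ u (s 1) * χ u (s 2) - ψ u (s 2) * χ u (s 1)) -
        φ u (s 1) * (ψ u (s 0) * χ u (s 2) - ψ u (s 2) * χ u (s 0))) +
      φ u (s 2) * (ψ u (s 0) * χ u (s 1) - ψ u (s 1) * χ u (s 0)) := rfl
  have h4 : t2 (fun u => D3 s (φ u) (ψ u) (χ u)) =
      t2 (fun u => φ u (s 0) * (ψ u (s 1) * χ u (s 2) - ψ u (s 2) * χ u (s 1))) -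
        t2 (fun u => φ u (s 1) * (ψ u (s 0) * χ u (s 2) - ψ u (s 2) * χ u (s 0))) +
      t2 (fun u => φ u (s 2) * (ψ u (s 0) * χ u (s 1) - ψ u (s 1) * χ u (s 0))) := by
    rw [h3, ← EM_sub (ht (s 0) (s 1) (s 2)) (ht (s 1) (s 0) (s 2))]
    exact t2_add ((ht (s 0) (s 1) (s 2)).sub (ht (s 1) (s 0) (s 2))) (ht (s 2) (s 0) (s 1))
  rw [h4, map_add, map_sub, h2, h2, h2]
  rfl

theorem exists_embedding {N : ℕ} (P : Ideal (MvPolynomial (Fin (N + 1)) ℂ)) [P.IsPrime] {k : ℕ}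
    (z : Fin (k + 1) → FunField P) (hz : IsTranscendenceBasis ℂ z) {φ : ℂ × ℂ → Fin (N + 1) → ℂ}
    (hφ : AnalyticAt ℂ φ 0) (hmem : ∀ᶠ u in 𝓝 (0 : ℂ × ℂ), ∀ Q ∈ P, eval (φ u) Q = 0)
    (hnd : ∀ (d : ℕ) (Q : MvPolynomial (Fin (N + 1)) ℂ), Q.IsHomogeneous d → Q ∉ P →
      ¬ ∀ᶠ u in 𝓝 (0 : ℂ × ℂ), eval (φ u) Q = 0) :
    ∃ E : FunField P →+* LL, (∀ c : ℂ, E (algebraMap ℂ (FunField P) c) = cst c) ∧
      (∀ i j, E (ratio P i j) = emb (t2 fun u => φ u i) / emb (t2 fun u => φ u j)) ∧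
      (∀ (d : ℕ) (A B : MvPolynomial (Fin (N + 1)) ℂ) (f : FunField P), A.IsHomogeneous d →
        B.IsHomogeneous d →
        (∀ l, X l ∉ P → f * aeval (fun i => ratio P i l) B = aeval (fun i => ratio P i l) A) →
        E f * emb (t2 fun u => eval (φ u) B) = emb (t2 fun u => eval (φ u) A)) ∧
      ∀ s : Fin 3 → Fin (N + 1), X (s 0) ∉ P →
        DX (E (ratio P (s 1) (s 0))) * DT (E (ratio P (s 2) (s 0))) -
            DX (E (ratio P (s 2) (s 0))) * DT (E (ratio P (s 1) (s 0))) =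
          emb (t2 fun u => D3 s (φ u) (d1 φ u) (d2 φ u)) / emb (t2 fun u => φ u (s 0)) ^ 3 := by
  classical
  set y : Fin (N + 1) → LL := fun i => emb (t2 fun u => φ u i) with hy0
  have key : ∀ Q : MvPolynomial (Fin (N + 1)) ℂ,
      eval₂ cst y Q = emb (t2 fun u => eval (φ u) Q) := by
    intro Q
    have h1 := MvPolynomial.hom_eval₂ (S₂ := LL) Q ((PowerSeries.C : PowerSeries ℂ →+* PowerSeries (PowerSeries ℂ)).comp
        (PowerSeries.C : ℂ →+* PowerSeries ℂ)) emb (fun i => t2 (fun u => φ u i))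
    have h2 : emb.comp ((PowerSeries.C : PowerSeries ℂ →+* PowerSeries (PowerSeries ℂ)).comp
        (PowerSeries.C : ℂ →+* PowerSeries ℂ)) = cst := RingHom.ext fun c => (emb_C_C c)
    rw [h2] at h1
    rw [t2_eval hφ Q]
    exact h1.symm
  have hy : ∀ (d : ℕ) (Q : MvPolynomial (Fin (N + 1)) ℂ), Q.IsHomogeneous d →
      (eval₂ cst y Q = 0 ↔ Q ∈ P) := by
    intro d Q hQ
    rw [key, map_eq_zero_iff emb emb_injective, t2_eq_zero_iff (analyticAt_eval hφ Q)]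
    constructor
    · intro h
      by_contra hc
      exact hnd d Q hQ hc h
    · intro h
      exact hmem.mono fun u hu => hu Q h
  have hyl : ∀ l, X l ∉ P → y l ≠ 0 := by
    intro l hl h0
    apply hl
    rw [← hy 1 (X l) (isHomogeneous_X ℂ l), eval₂_X, h0]
  obtain ⟨l, hl⟩ : ∃ l, X l ∉ P := by
    obtain ⟨x, hx0, -, -, -, hx, -⟩ := exists_point P z hz
    by_contra hc
    push Not at hc
    apply hx0
    funext i
    exact (hx i).2 ((coordFun_eq_zero_iff P i).2 (hc i))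
  obtain ⟨E, hE, hr⟩ := exists_eval P z hz cst y hy
  refine ⟨E, hE, hr, ?_, ?_⟩
  · intro d A B f hA hB hf
    have h1 := eval_hom_rep (F := LL) P cst y E hE hr (hyl l hl) hA hB (hf l hl)
    rw [key, key] at h1
    exact h1
  · intro s hs
    have h0 : y (s 0) ≠ 0 := hyl _ hs
    have hd1 : AnalyticAt ℂ (d1 φ) 0 := analyticAt_d1 hφ
    have hd2 : AnalyticAt ℂ (d2 φ) 0 := analyticAt_d2 hφ
    have hx : ∀ i, emb (t2 fun u => d1 φ u i) = DX (y i) := fun i => (EM_DX hφ i).symm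
    have ht : ∀ i, emb (t2 fun u => d2 φ u i) = DT (y i) := fun i => (EM_DT hφ i).symm
    rw [EM_D3 hφ hd1 hd2 s, hr (s 1) (s 0), hr (s 2) (s 0)]
    have h1 := EM_jac (F := LL) (D := DX) (D' := DT) DX_mul DT_mul (y (s 0)) (y (s 1)) (y (s 2)) h0
    rw [← hx, ← hx, ← hx, ← ht, ← ht, ← ht] at h1
    exact h1

end Pool.Agent.H68.KR

end
end

section

/-!
# MQ/SNBox: saddle-nodes, the cut-offs in the box
-/

set_option autoImplicit false

open Topology Filter Asymptotics Complex Set ComplexConjugate Metric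

noncomputable section

namespace Pool.Agent.MQ

variable {α : ℕ → ℂ} {k : ℕ} {ρ : ℝ} {c : ℕ → ℂ} {J n : ℕ}

theorem pot_analytic {x : ℂ} (hx : x ≠ 0) : AnalyticAt ℂ (pot α k) x := by
  unfold pot
  exact ((PP_differentiable α k).analyticAt x).div (analyticAt_id.pow k) (pow_ne_zero k hx)

theorem pot_deriv {x : ℂ} (hx : x ≠ 0) : deriv (pot α k) x * x ^ (k + 1) = DD α k x := by
  have h1 : HasDerivAt (pot α k) ((deriv (PP α k) x * x ^ k - PP α k x * (k * x ^ (k - 1))) / (x ^ k) ^ 2) x := by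
    have h2 := ((PP_differentiable α k).differentiableAt (x := x)).hasDerivAt
    exact h2.div (hasDerivAt_pow k x) (pow_ne_zero k hx)
  rw [h1.deriv, ← PP_deriv]
  rcases Nat.eq_zero_or_pos k with h | h
  · subst h
    simp
    ring
  · obtain ⟨j, rfl⟩ : ∃ j, k = j + 1 := ⟨k - 1, by omega⟩
    simp only [Nat.add_sub_cancel]
    field_simp
    ring

open Classical in
/-- the first cut-off, a function of `x` -/
def XX (α : ℕ → ℂ) (k : ℕ) (ρ : ℝ) (x : ℂ) : ℝ := if x = 0 then 1 else hp (scl α k ρ * ‖pot α k x‖ ^ 2)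

/-- the second cut-off, a function of `Y` -/
def CC (n : ℕ) (ρ : ℝ) (Y : ℂ) : ℝ := hm ((1 / (ρ ^ n) ^ 2) * ‖Y‖ ^ 2)

/-- the imaginary part of the potential, cut off near `0` -/
def EEE (α : ℕ → ℂ) (k : ℕ) (ρ : ℝ) (x : ℂ) : ℝ := (1 - hm ((8 / ρ ^ 2) * ‖x‖ ^ 2)) * (pot α k x).im

theorem XX_ev_one (hk : 1 ≤ k) (h0 : α 0 ≠ 0) (hρ : 0 < ρ) : ∀ᶠ x in 𝓝 (0 : ℂ), XX α k ρ x = 1 := by
  have hP0 : 0 < ‖PP α k 0‖ := norm_pos_iff.2 (PP_zero hk h0)
  have hPc : Continuous (PP α k) := (PP_differentiable α k).continuous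
  have h1 : ∀ᶠ x in 𝓝 (0 : ℂ), ‖PP α k 0‖ / 2 < ‖PP α k x‖ :=
    (hPc.norm.tendsto 0).eventually (lt_mem_nhds (by linarith))
  have h2 : ∀ᶠ x in 𝓝 (0 : ℂ), 8 * ‖x‖ ^ (2 * k) < ρ ^ (2 * k) := by
    have hc : Continuous fun x : ℂ => 8 * ‖x‖ ^ (2 * k) := by fun_prop
    have ht : Tendsto (fun x : ℂ => 8 * ‖x‖ ^ (2 * k)) (𝓝 0) (𝓝 0) := by
      have := hc.tendsto 0
      simpa [zero_pow (by omega : 2 * k ≠ 0)] using this
    exact ht.eventually (gt_mem_nhds (by positivity))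
  filter_upwards [h1, h2] with x e1 e2
  unfold XX
  split_ifs with hx
  · rfl
  · apply hp_one
    have hxp : 0 < ‖x‖ := norm_pos_iff.2 hx
    have e3 : scl α k ρ * ‖pot α k x‖ ^ 2 = ρ ^ (2 * k) * ‖PP α k x‖ ^ 2 / (‖PP α k 0‖ ^ 2 * ‖x‖ ^ (2 * k)) := by
      rw [scl, pot, norm_div, norm_pow, pow_mul' ‖x‖]
      field_simp
    rw [e3, le_div_iff₀ (by positivity)]
    have e4 : ‖PP α k 0‖ ^ 2 ≤ 4 * ‖PP α k x‖ ^ 2 := by nlinarith
    have hx2 : 0 < ‖x‖ ^ (2 * k) := by positivity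
    calc 2 * (‖PP α k 0‖ ^ 2 * ‖x‖ ^ (2 * k)) ≤ 2 * (4 * ‖PP α k x‖ ^ 2 * ‖x‖ ^ (2 * k)) :=
          mul_le_mul_of_nonneg_left (mul_le_mul_of_nonneg_right e4 hx2.le) (by norm_num)
      _ = (8 * ‖x‖ ^ (2 * k)) * ‖PP α k x‖ ^ 2 := by ring
      _ ≤ ρ ^ (2 * k) * ‖PP α k x‖ ^ 2 := mul_le_mul_of_nonneg_right e2.le (by positivity)

theorem XX_ev {x : ℂ} (hx : x ≠ 0) : XX α k ρ =ᶠ[𝓝 x] fun y => hp (scl α k ρ * ‖pot α k y‖ ^ 2) := by
  filter_upwards [isOpen_ne.mem_nhds hx] with y hy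
  unfold XX
  rw [if_neg hy]

theorem XX_contDiff (hk : 1 ≤ k) (h0 : α 0 ≠ 0) (hρ : 0 < ρ) : ContDiff ℝ 2 (XX α k ρ) := by
  rw [contDiff_iff_contDiffAt]
  intro x
  by_cases hx : x = 0
  · rw [hx]
    exact contDiffAt_const.congr_of_eventuallyEq (XX_ev_one hk h0 hρ)
  · exact (contDiffAt_comp_normSq (n := 2) (pot_analytic hx) hp_contDiff).congr_of_eventuallyEq (XX_ev hx)

theorem XX_nonneg (x : ℂ) : 0 ≤ XX α k ρ x := by
  unfold XX
  split_ifs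
  · exact zero_le_one
  · exact hp_nonneg _

theorem XX_le (x : ℂ) : XX α k ρ x ≤ 1 := by
  unfold XX
  split_ifs
  · exact le_rfl
  · exact hp_le _

theorem CC_contDiff : ContDiff ℝ 2 (CC n ρ) := by
  unfold CC
  exact (hm_contDiff (n := 2)).comp (contDiff_const.mul (contDiff_id.norm_sq ℝ))

theorem CC_ev_one : ∀ᶠ Y in 𝓝 (0 : ℂ), CC n ρ Y = 1 := by
  have hc : Continuous fun Y : ℂ => (1 / (ρ ^ n) ^ 2) * ‖Y‖ ^ 2 := by fun_prop
  have ht : Tendsto (fun Y : ℂ => (1 / (ρ ^ n) ^ 2) * ‖Y‖ ^ 2) (𝓝 0) (𝓝 0) := by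
    have := hc.tendsto 0
    simpa using this
  filter_upwards [ht.eventually (gt_mem_nhds (show (0 : ℝ) < 1 / 2 by norm_num))] with Y hY using hm_one hY.le

theorem CC_zero (hρ : 0 < ρ) {Y : ℂ} (h : ρ ^ n ≤ ‖Y‖) : CC n ρ Y = 0 := by
  apply hm_zero
  have h1 : 0 < ρ ^ n := pow_pos hρ n
  rw [one_div, ← div_eq_inv_mul, le_div_iff₀ (by positivity), one_mul]
  exact pow_le_pow_left₀ h1.le h 2

theorem CC_nonneg (Y : ℂ) : 0 ≤ CC n ρ Y := hm_nonneg _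

theorem CC_le (Y : ℂ) : CC n ρ Y ≤ 1 := hm_le _

theorem EEE_ev_zero : ∀ᶠ x in 𝓝 (0 : ℂ), EEE α k ρ x = 0 := by
  have hc : Continuous fun Y : ℂ => (8 / ρ ^ 2) * ‖Y‖ ^ 2 := by fun_prop
  have ht : Tendsto (fun Y : ℂ => (8 / ρ ^ 2) * ‖Y‖ ^ 2) (𝓝 0) (𝓝 0) := by
    have := hc.tendsto 0
    simpa using this
  filter_upwards [ht.eventually (gt_mem_nhds (show (0 : ℝ) < 1 / 2 by norm_num))] with Y hY
  rw [EEE, hm_one hY.le, sub_self, zero_mul]

theorem EEE_contDiff : ContDiff ℝ 2 (EEE α k ρ) := by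
  rw [contDiff_iff_contDiffAt]
  intro x
  by_cases hx : x = 0
  · rw [hx]
    exact contDiffAt_const.congr_of_eventuallyEq EEE_ev_zero
  · unfold EEE
    have h1 : ContDiffAt ℝ 2 (pot α k) x := ((pot_analytic hx).contDiffAt (n := 2)).restrict_scalars ℝ
    have h2 : ContDiffAt ℝ 2 (fun y => (pot α k y).im) x := Complex.imCLM.contDiff.contDiffAt.comp x h1
    have h3 : ContDiffAt ℝ 2 (fun y : ℂ => hm ((8 / ρ ^ 2) * ‖y‖ ^ 2)) x :=
      contDiffAt_comp_normSq (n := 2) (f := fun y => y) analyticAt_id hm_contDiff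
    exact (contDiffAt_const.sub h3).mul h2

theorem EEE_ev (hρ : 0 < ρ) {x : ℂ} (hx : ρ / 2 ≤ ‖x‖) : EEE α k ρ =ᶠ[𝓝 x] fun y => (pot α k y).im := by
  have hc : Continuous fun Y : ℂ => (8 / ρ ^ 2) * ‖Y‖ ^ 2 := by fun_prop
  have h1 : 1 < (8 / ρ ^ 2) * ‖x‖ ^ 2 := by
    have h2 : (ρ / 2) ^ 2 ≤ ‖x‖ ^ 2 := pow_le_pow_left₀ (by positivity) hx 2
    rw [div_mul_eq_mul_div, lt_div_iff₀ (by positivity)]
    nlinarith
  filter_upwards [hc.continuousAt.eventually (lt_mem_nhds h1)] with y hy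
  rw [EEE, hm_zero hy.le, sub_zero, one_mul]

end Pool.Agent.MQ

end
end

section

/-!
# MQ/LForm: saddle-nodes, the field
-/

set_option autoImplicit false

open Topology Filter Asymptotics Complex Set ComplexConjugate Metric

noncomputable section

namespace Pool.Agent.MQ

variable {α : ℕ → ℂ} {k : ℕ} {ρ : ℝ} {c : ℕ → ℂ} {J n : ℕ} {g : ℂ → ℂ × ℂ}

/-- `a = χ₁` along the curve -/
def f₁ (α : ℕ → ℂ) (k : ℕ) (ρ : ℝ) (g : ℂ → ℂ × ℂ) (w : ℂ) : ℝ := XX α k ρ (g w).1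

/-- `χ₂` along the curve -/
def f₂ (c : ℕ → ℂ) (J n : ℕ) (ρ : ℝ) (g : ℂ → ℂ × ℂ) (w : ℂ) : ℝ := CC n ρ ((g w).2 - jet c J (g w).1)

/-- `χ₂ Im z` along the curve -/
def f₃ (α : ℕ → ℂ) (k : ℕ) (c : ℕ → ℂ) (J n : ℕ) (ρ : ℝ) (g : ℂ → ℂ × ℂ) (w : ℂ) : ℝ := f₂ c J n ρ g w * EEE α k ρ (g w).1

/-- the field -/
def snF (α : ℕ → ℂ) (k : ℕ) (c : ℕ → ℂ) (J n : ℕ) (ρ : ℝ) (D : ℂ → ℂ) (g : ℂ → ℂ × ℂ) (w : ℂ) : ℂ :=
  ((1 - f₁ α k ρ g w * f₂ c J n ρ g w : ℝ) : ℂ) * conj (D w) + (f₁ α k ρ g w : ℂ) * (-I * gr (f₃ α k c J n ρ g) w)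

theorem cd_pair {z : ℂ} (hg : AnalyticAt ℂ g z) {φ : ℂ × ℂ → ℝ} (hφ : ContDiff ℝ 2 φ) : ContDiffAt ℝ 2 (fun w => φ (g w)) z :=
  hφ.contDiffAt.comp z ((hg.contDiffAt (n := 2)).restrict_scalars ℝ)

theorem cd_XX (hk : 1 ≤ k) (h0 : α 0 ≠ 0) (hρ : 0 < ρ) : ContDiff ℝ 2 fun p : ℂ × ℂ => XX α k ρ p.1 :=
  (XX_contDiff hk h0 hρ).comp contDiff_fst

theorem cd_jet (c : ℕ → ℂ) (J : ℕ) : ContDiff ℝ 2 fun p : ℂ × ℂ => p.2 - jet c J p.1 := by
  have h1 : ContDiff ℝ 2 (jet c J) := ((jet_differentiable c J).contDiff (n := 2)).restrict_scalars ℝ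
  exact contDiff_snd.sub (h1.comp contDiff_fst)

theorem cd_CC (c : ℕ → ℂ) (J n : ℕ) (ρ : ℝ) : ContDiff ℝ 2 fun p : ℂ × ℂ => CC n ρ (p.2 - jet c J p.1) :=
  CC_contDiff.comp (cd_jet c J)

theorem cd_EE (α : ℕ → ℂ) (k : ℕ) (c : ℕ → ℂ) (J n : ℕ) (ρ : ℝ) :
    ContDiff ℝ 2 fun p : ℂ × ℂ => CC n ρ (p.2 - jet c J p.1) * EEE α k ρ p.1 :=
  (cd_CC c J n ρ).mul (EEE_contDiff.comp contDiff_fst)

theorem cd_f₁ (hk : 1 ≤ k) (h0 : α 0 ≠ 0) (hρ : 0 < ρ) {z : ℂ} (hg : AnalyticAt ℂ g z) : ContDiffAt ℝ 2 (f₁ α k ρ g) z :=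
  cd_pair hg (cd_XX hk h0 hρ)

theorem cd_f₂ {z : ℂ} (hg : AnalyticAt ℂ g z) : ContDiffAt ℝ 2 (f₂ c J n ρ g) z := cd_pair hg (cd_CC c J n ρ)

theorem cd_f₃ {z : ℂ} (hg : AnalyticAt ℂ g z) : ContDiffAt ℝ 2 (f₃ α k c J n ρ g) z := cd_pair hg (cd_EE α k c J n ρ)

/-- near a pass the field is `0` -/
theorem snF_zero (hk : 1 ≤ k) (h0 : α 0 ≠ 0) (hρ : 0 < ρ) (hc : c 0 = 0) {z : ℂ} (hg : AnalyticAt ℂ g z) (hz : g z = 0) (D : ℂ → ℂ) :
    ∀ᶠ w in 𝓝 z, snF α k c J n ρ D g w = 0 := by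
  have hg0 : Tendsto g (𝓝 z) (𝓝 0) := by
    have := hg.continuousAt.tendsto
    rwa [hz] at this
  have t1 : Tendsto (fun w => (g w).1) (𝓝 z) (𝓝 0) := (continuous_fst.tendsto (0 : ℂ × ℂ)).comp hg0
  have t2 : Tendsto (fun w => (g w).2 - jet c J (g w).1) (𝓝 z) (𝓝 0) := by
    have hc2 : Continuous fun p : ℂ × ℂ => p.2 - jet c J p.1 := (cd_jet c J).continuous
    have h3 : Tendsto (fun w => (g w).2 - jet c J (g w).1) (𝓝 z) (𝓝 ((0 : ℂ × ℂ).2 - jet c J (0 : ℂ × ℂ).1)) :=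
      (hc2.tendsto (0 : ℂ × ℂ)).comp hg0
    simpa [jet_zero hc] using h3
  have e1 := t1.eventually (XX_ev_one hk h0 hρ)
  have e2 := t2.eventually (CC_ev_one (n := n) (ρ := ρ))
  have e3 := t1.eventually (EEE_ev_zero (α := α) (k := k) (ρ := ρ))
  have e4 : ∀ᶠ w in 𝓝 z, gr (f₃ α k c J n ρ g) w = 0 := by
    filter_upwards [e3.eventually_nhds] with w hw
    have : f₃ α k c J n ρ g =ᶠ[𝓝 w] fun _ => (0 : ℝ) := by
      filter_upwards [hw] with y hy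
      rw [f₃, hy, mul_zero]
    rw [gr_congr this, gr_const]
  filter_upwards [e1, e2, e4] with w h1 h2 h4
  rw [snF, h4, f₁, f₂, h1, h2]
  simp

/-- `C¹` off the passes -/
theorem snF_contDiffAt (hk : 1 ≤ k) (h0 : α 0 ≠ 0) (hρ : 0 < ρ) {z : ℂ} (hg : AnalyticAt ℂ g z) {D : ℂ → ℂ} (hD : AnalyticAt ℂ D z) :
    ContDiffAt ℝ 1 (snF α k c J n ρ D g) z := by
  have h1 : ContDiffAt ℝ 1 (f₁ α k ρ g) z := (cd_f₁ hk h0 hρ hg).of_le (by norm_num)
  have h2 : ContDiffAt ℝ 1 (f₂ c J n ρ g) z := (cd_f₂ hg).of_le (by norm_num)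
  have h3 : ContDiffAt ℝ 1 (gr (f₃ α k c J n ρ g)) z := contDiffAt_gr (cd_f₃ hg) (by norm_num)
  have h4 : ContDiffAt ℝ 1 (fun w => conj (D w)) z := contDiffAt_conj_holo hD
  have h5 : ContDiffAt ℝ 1 (fun w => ((1 - f₁ α k ρ g w * f₂ c J n ρ g w : ℝ) : ℂ)) z :=
    Complex.ofRealCLM.contDiff.contDiffAt.comp z (contDiffAt_const.sub (h1.mul h2))
  have h6 : ContDiffAt ℝ 1 (fun w => ((f₁ α k ρ g w : ℝ) : ℂ)) z := Complex.ofRealCLM.contDiff.contDiffAt.comp z h1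
  unfold snF
  exact (h5.mul h4).add (h6.mul (contDiffAt_const.mul h3))

/-- the divergence of the field -/
theorem snF_dv (hk : 1 ≤ k) (h0 : α 0 ≠ 0) (hρ : 0 < ρ) {z : ℂ} (hg : AnalyticAt ℂ g z) {D : ℂ → ℂ} (hD : AnalyticAt ℂ D z) :
    -dv (snF α k c J n ρ D g) z = ip ((f₂ c J n ρ g z : ℂ) * gr (f₁ α k ρ g) z + (f₁ α k ρ g z : ℂ) * gr (f₂ c J n ρ g) z) (conj (D z)) -
      (conj (gr (f₁ α k ρ g) z) * gr (f₃ α k c J n ρ g) z).im := by
  have h1 : DifferentiableAt ℝ (f₁ α k ρ g) z := (cd_f₁ hk h0 hρ hg).differentiableAt (by norm_num)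
  have h2 : DifferentiableAt ℝ (f₂ c J n ρ g) z := (cd_f₂ hg).differentiableAt (by norm_num)
  have h3 : ContDiffAt ℝ 2 (f₃ α k c J n ρ g) z := cd_f₃ hg
  have h4 : DifferentiableAt ℝ (fun w => conj (D w)) z := (contDiffAt_conj_holo (n := 1) hD).differentiableAt one_ne_zero
  have h5 : DifferentiableAt ℝ (fun w => (1 : ℝ) - f₁ α k ρ g w * f₂ c J n ρ g w) z := (differentiableAt_const _).sub (h1.mul h2)
  have h6 : DifferentiableAt ℝ (fun w => (((1 - f₁ α k ρ g w * f₂ c J n ρ g w : ℝ)) : ℂ) * conj (D w)) z :=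
    (Complex.ofRealCLM.differentiableAt.comp z h5).mul h4
  have h7 : DifferentiableAt ℝ (fun w => (f₁ α k ρ g w : ℂ) * (-I * gr (f₃ α k c J n ρ g) w)) z :=
    (Complex.ofRealCLM.differentiableAt.comp z h1).mul ((differentiableAt_gr h3).const_mul _)
  have e1 : dv (snF α k c J n ρ D g) z = dv (fun w => (((1 - f₁ α k ρ g w * f₂ c J n ρ g w : ℝ)) : ℂ) * conj (D w)) z +
      dv (fun w => (f₁ α k ρ g w : ℂ) * (-I * gr (f₃ α k c J n ρ g) w)) z := dv_add h6 h7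
  rw [e1, dv_mul h5 h4, dv_conj hD.differentiableAt, dv_rot_gr h1 h3, ip_rot]
  have e2 : gr (fun w => (1 : ℝ) - f₁ α k ρ g w * f₂ c J n ρ g w) z =
      -((f₂ c J n ρ g z : ℂ) * gr (f₁ α k ρ g) z + (f₁ α k ρ g z : ℂ) * gr (f₂ c J n ρ g) z) := by
    have e5 : gr (fun w => (1 : ℝ) - f₁ α k ρ g w * f₂ c J n ρ g w) z = gr (fun _ : ℂ => (1 : ℝ)) z -
        gr (fun w => f₁ α k ρ g w * f₂ c J n ρ g w) z :=
      gr_sub (u := fun _ => (1 : ℝ)) (v := fun w => f₁ α k ρ g w * f₂ c J n ρ g w) (differentiableAt_const _) (h1.mul h2)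
    have e3 : gr (fun _ : ℂ => (1 : ℝ)) z = 0 := gr_const 1 z
    have e4 : gr (fun w => f₁ α k ρ g w * f₂ c J n ρ g w) z = (f₁ α k ρ g z : ℂ) * gr (f₂ c J n ρ g) z + (f₂ c J n ρ g z : ℂ) * gr (f₁ α k ρ g) z :=
      gr_mul h1 h2
    rw [e5, e3, e4]
    ring
  rw [e2, ip_neg_left]
  ring

/-- **The pointwise inequality.**  `ζ` is `ζ'`, `θ = δ ζ'`. -/
theorem snF_le (hk : 1 ≤ k) (h0 : α 0 ≠ 0) (hρ : 0 < ρ) {C B r : ℝ} (hC : 0 < C) (hB : 0 < B) (hB1 : ∀ s, HH₁ s ≤ B) (hB2 : ∀ t, HH₂ t ≤ B)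
    (hscl : ∀ x : ℂ, ‖x‖ ≤ r → 1 ≤ scl α k ρ * ‖pot α k x‖ ^ 2 → ‖x‖ ≤ 2 * ρ ∧ (scl α k ρ * ‖pot α k x‖ ^ 2 ≤ 2 → ρ / 2 ≤ ‖x‖))
    {z : ℂ} (hg : AnalyticAt ℂ g z) (hr : ‖(g z).1‖ ≤ r) {D : ℂ → ℂ} (hD : AnalyticAt ℂ D z) {ζ δ av Yv : ℂ}
    (hDz : D z = δ * ζ) (hx' : (deriv g z).1 = (g z).1 ^ (k + 1) * av * ζ) (hY' : deriv (fun w => (g w).2 - jet c J (g w).1) z = Yv * ζ)
    (ht : ‖(g z).1‖ ≤ 2 * ρ → ‖(g z).2 - jet c J (g z).1‖ ≤ ρ ^ n →
      (ρ / 2 ≤ ‖(g z).1‖ → ∀ w : ℂ, ‖δ * w - DD α k (g z).1 * av * w‖ ≤ C * ‖(pot α k (g z).1)⁻¹‖ * ‖DD α k (g z).1 * av * w‖ ∧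
        ‖DD α k (g z).1 * av * w * (pot α k (g z).1)⁻¹‖ ≤ C * ‖(g z).1 ^ k * av * w‖) ∧
      (ρ ^ n ≤ 2 * ‖(g z).2 - jet c J (g z).1‖ → ρ / 2 ≤ ‖(g z).1‖ → ∀ w : ℂ,
        ‖Yv / ((g z).2 - jet c J (g z).1) * w - DD α k (g z).1 * av * w‖ ≤
          C * ‖(pot α k (g z).1)⁻¹‖ * ‖DD α k (g z).1 * av * w‖) ∧
      (ρ ^ n ≤ 2 * ‖(g z).2 - jet c J (g z).1‖ → ∀ w : ℂ,
        0 ≤ (conj (Yv / ((g z).2 - jet c J (g z).1) * w) * (δ * w)).re)) :
    -dv (snF α k c J n ρ D g) z ≤ 0 ∨ ρ / 2 ≤ ‖(g z).1‖ ∧ ‖(g z).1‖ ≤ 2 * ρ ∧ ‖(g z).2 - jet c J (g z).1‖ ≤ ρ ^ n ∧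
      -dv (snF α k c J n ρ D g) z ≤ (C + B * C ^ 2) * (B * (C ^ 2 * ‖(deriv g z).1 / (g z).1‖ ^ 2)) := by
  rw [snF_dv hk h0 hρ hg hD]
  set x := (g z).1 with hx
  set Y := (g z).2 - jet c J x with hY
  set t := (1 / (ρ ^ n) ^ 2) * ‖Y‖ ^ 2 with htdef
  have hρn : 0 < ρ ^ n := pow_pos hρ n
  have hgd : DifferentiableAt ℂ g z := hg.differentiableAt
  have han1 : AnalyticAt ℂ (fun w => (g w).1) z := an_fst hg
  have hYan : AnalyticAt ℂ (fun w => (g w).2 - jet c J (g w).1) z := (an_snd hg).sub ((jet_analytic c J _).fun_comp han1)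
  -- the gradient of the second cut-off
  have gr2 : gr (f₂ c J n ρ g) z = -(HH₂ t : ℂ) * conj (Yv / Y * ζ) := by
    have h1 : f₂ c J n ρ g = fun w => hm ((1 / (ρ ^ n) ^ 2) * ‖(g w).2 - jet c J (g w).1‖ ^ 2) := rfl
    rw [h1, gr_hm hYan.differentiableAt, hY']
    congr 2
    rw [← hY]
    ring
  have hHt : HH₂ t ≠ 0 → ‖Y‖ ≤ ρ ^ n ∧ ρ ^ n ≤ 2 * ‖Y‖ := by
    intro h
    by_contra hcon
    apply h
    apply HH₂_zero
    rw [htdef, one_div, ← div_eq_inv_mul]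
    by_cases h1 : ‖Y‖ ≤ ρ ^ n
    · left
      have h2 : 2 * ‖Y‖ < ρ ^ n := by
        by_contra h3
        exact hcon ⟨h1, not_lt.1 h3⟩
      rw [div_le_iff₀ (by positivity)]
      have h3 := norm_nonneg Y
      nlinarith
    · right
      push Not at h1
      rw [le_div_iff₀ (by positivity), one_mul]
      exact pow_le_pow_left₀ hρn.le h1.le 2
  have hf2 : f₂ c J n ρ g z ≠ 0 → ‖Y‖ ≤ ρ ^ n := by
    intro h
    by_contra hcon
    push Not at hcon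
    exact h (CC_zero hρ hcon.le)
  have hf1 : f₁ α k ρ g z ≠ 0 → ‖x‖ ≤ 2 * ρ := by
    intro h
    by_cases hx0 : x = 0
    · rw [hx0, norm_zero]
      positivity
    · have h2 : f₁ α k ρ g z = hp (scl α k ρ * ‖pot α k x‖ ^ 2) := by
        rw [f₁, XX, if_neg hx0]
      by_cases h3 : scl α k ρ * ‖pot α k x‖ ^ 2 ≤ 1
      · rw [h2, hp_zero h3] at h
        exact absurd rfl h
      · exact (hscl x hr (not_le.1 h3).le).1
  have hpos : HH₂ t ≠ 0 → f₁ α k ρ g z ≠ 0 → 0 ≤ (conj (Yv / Y * ζ) * (δ * ζ)).re := by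
    intro h1 h2
    obtain ⟨h3, h4⟩ := hHt h1
    exact (ht (hf1 h2) h3).2.2 h4 ζ
  by_cases hH : x ≠ 0 ∧ 1 < scl α k ρ * ‖pot α k x‖ ^ 2 ∧ scl α k ρ * ‖pot α k x‖ ^ 2 < 2
  · obtain ⟨hx0, hs1, hs2⟩ := hH
    obtain ⟨hx2, hxl'⟩ := hscl x hr hs1.le
    have hxl : ρ / 2 ≤ ‖x‖ := hxl' hs2.le
    clear hxl'
    have hpot : pot α k x ≠ 0 := by
      intro h
      rw [h] at hs1
      simp at hs1
      linarith
    set Z := DD α k x * av * ζ with hZ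
    have hpan : AnalyticAt ℂ (fun w => pot α k (g w).1) z := (pot_analytic hx0).fun_comp han1
    have hpd : deriv (fun w => pot α k (g w).1) z = Z := by
      have h1 : HasDerivAt (fun w => (g w).1) (deriv g z).1 z := by
        have := han1.differentiableAt.hasDerivAt
        rwa [deriv_fst' hgd] at this
      have h2 : HasDerivAt (fun w => pot α k (g w).1) (deriv (pot α k) x * (deriv g z).1) z :=
        HasDerivAt.comp z (h₂ := pot α k) (pot_analytic hx0).differentiableAt.hasDerivAt h1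
      rw [h2.deriv, hx', hZ, ← pot_deriv (α := α) (k := k) hx0]
      ring
    have gr1 : gr (f₁ α k ρ g) z = (HH₁ (scl α k ρ * ‖pot α k x‖ ^ 2) : ℂ) * conj (Z * (pot α k x)⁻¹) := by
      have h1 : f₁ α k ρ g =ᶠ[𝓝 z] fun w => hp (scl α k ρ * ‖pot α k (g w).1‖ ^ 2) := by
        filter_upwards [han1.continuousAt.eventually_ne hx0] with w hw
        rw [f₁, XX, if_neg hw]
      rw [gr_congr h1, gr_hp (f := fun w => pot α k (g w).1) hpan.differentiableAt hpot, hpd]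
    have gr3 : gr (f₃ α k c J n ρ g) z = (f₂ c J n ρ g z : ℂ) * (I * conj Z) + ((pot α k x).im : ℂ) * gr (f₂ c J n ρ g) z := by
      have h1 : f₃ α k c J n ρ g =ᶠ[𝓝 z] fun w => f₂ c J n ρ g w * (pot α k (g w).1).im := by
        have h2 : ∀ᶠ w in 𝓝 z, EEE α k ρ (g w).1 = (pot α k (g w).1).im := han1.continuousAt.eventually (EEE_ev hρ hxl)
        filter_upwards [h2] with w hw
        rw [f₃, hw]
      have h3 : DifferentiableAt ℝ (f₂ c J n ρ g) z := (cd_f₂ hg).differentiableAt (by norm_num)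
      have h4 : DifferentiableAt ℝ (fun w => (pot α k (g w).1).im) z :=
        Complex.imCLM.differentiableAt.comp z (hpan.differentiableAt.restrictScalars ℝ)
      rw [gr_congr h1, gr_mul h3 h4, gr_im_holo (G := fun w => pot α k (g w).1) hpan.differentiableAt, hpd]
    set s := scl α k ρ * ‖pot α k x‖ ^ 2 with hs
    set ω := (pot α k x)⁻¹ with hω
    have hω0 : ω ≠ 0 := inv_ne_zero hpot
    have him : (pot α k x).im = -ω.im / ‖ω‖ ^ 2 := by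
      have h1 : pot α k x = ω⁻¹ := by rw [hω, inv_inv]
      rw [h1, Complex.inv_im, Complex.normSq_eq_norm_sq]
    by_cases hYn : ‖Y‖ ≤ ρ ^ n
    · right
      refine ⟨hxl, hx2, hYn, ?_⟩
      obtain ⟨ht1, ht2, ht3⟩ := ht hx2 hYn
      have hsn := sn_point (ω := ω) (Z := Z) (θ := δ * ζ) (μ := Yv / Y * ζ) (c₁ := f₁ α k ρ g z) (c₂ := f₂ c J n ρ g z) (H₁ := HH₁ s) (H₂ := HH₂ t)
        (C := C) (Hm := B) hω0 (XX_nonneg _) (CC_nonneg _) (CC_le _) (HH₁_nonneg s) (HH₂_nonneg t) (hB2 t) hC.le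
        (fun _ _ => (ht1 hxl ζ).1) (fun _ h2 => ht2 (hHt h2).2 hxl ζ) hpos
      have e1 : (conj (gr (f₁ α k ρ g) z) * gr (f₃ α k c J n ρ g) z).im =
          f₂ c J n ρ g z * (HH₁ s * (‖Z‖ ^ 2 * ω.re)) + (-ω.im / ‖ω‖ ^ 2) * (-(HH₁ s * HH₂ t) * (Z * ω * conj (Yv / Y * ζ)).im) := by
        rw [gr1, gr3, gr2, him]
        have e2 : conj ((HH₁ s : ℂ) * conj (Z * ω)) = (HH₁ s : ℂ) * (Z * ω) := by
          rw [map_mul, Complex.conj_conj, Complex.conj_ofReal]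
        rw [e2]
        have e3 : (HH₁ s : ℂ) * (Z * ω) * ((f₂ c J n ρ g z : ℂ) * (I * conj Z) + ((-ω.im / ‖ω‖ ^ 2 : ℝ) : ℂ) * (-(HH₂ t : ℂ) * conj (Yv / Y * ζ))) =
          ((f₂ c J n ρ g z * HH₁ s : ℝ) : ℂ) * (I * (Z * ω * conj Z)) +
            (((-ω.im / ‖ω‖ ^ 2) * (-(HH₁ s * HH₂ t)) : ℝ) : ℂ) * (Z * ω * conj (Yv / Y * ζ)) := by
          push_cast
          ring
        have e4 : (I * (Z * ω * conj Z)).im = ‖Z‖ ^ 2 * ω.re := by
          rw [Complex.sq_norm, Complex.normSq_apply]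
          simp only [mul_re, mul_im, conj_re, conj_im, I_re, I_im]
          ring
        rw [e3, add_im, Complex.im_ofReal_mul, Complex.im_ofReal_mul, e4]
        ring
      rw [e1, gr1, gr2, hDz]
      have e5 : ‖Z * ω‖ ≤ C * ‖(deriv g z).1 / x‖ := by
        have e6 : (deriv g z).1 / x = x ^ k * av * ζ := by
          rw [hx', pow_succ]
          field_simp
        rw [e6]
        exact (ht1 hxl ζ).2
      have e7 : HH₁ s * ‖Z * ω‖ ^ 2 ≤ B * (C ^ 2 * ‖(deriv g z).1 / x‖ ^ 2) := by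
        have e8 : ‖Z * ω‖ ^ 2 ≤ (C * ‖(deriv g z).1 / x‖) ^ 2 := pow_le_pow_left₀ (norm_nonneg _) e5 2
        rw [mul_pow] at e8
        exact mul_le_mul (hB1 s) e8 (by positivity) hB.le
      have e9 : (C + B * C ^ 2) * (HH₁ s * ‖Z * ω‖ ^ 2) ≤ (C + B * C ^ 2) * (B * (C ^ 2 * ‖(deriv g z).1 / x‖ ^ 2)) :=
        mul_le_mul_of_nonneg_left e7 (by positivity)
      linarith
    · left
      have h1 : f₂ c J n ρ g z = 0 := by
        by_contra h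
        exact hYn (hf2 h)
      have h2 : HH₂ t = 0 := by
        by_contra h
        exact hYn (hHt h).1
      rw [gr3, gr2, h1, h2]
      simp
  · left
    have gr1 : gr (f₁ α k ρ g) z = 0 := by
      by_cases hx0 : x = 0
      · have h1 : f₁ α k ρ g =ᶠ[𝓝 z] fun _ => 1 := by
          have h2 : Tendsto (fun w => (g w).1) (𝓝 z) (𝓝 0) := by
            have := han1.continuousAt.tendsto
            rwa [← hx, hx0] at this
          exact h2.eventually (XX_ev_one hk h0 hρ)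
        rw [gr_congr h1, gr_const]
      · have h1 : f₁ α k ρ g =ᶠ[𝓝 z] fun w => hp (scl α k ρ * ‖pot α k (g w).1‖ ^ 2) := by
          filter_upwards [han1.continuousAt.eventually_ne hx0] with w hw
          rw [f₁, XX, if_neg hw]
        have hpan : AnalyticAt ℂ (fun w => pot α k (g w).1) z := (pot_analytic hx0).fun_comp han1
        rw [gr_congr h1, gr_comp_normSq hpan.differentiableAt ((hp_contDiff (n := 1)).differentiable one_ne_zero _)]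
        have h2 : deriv hp (scl α k ρ * ‖pot α k (g z).1‖ ^ 2) = 0 := by
          rw [deriv_hp]
          apply Pool.Agent.H30M.deriv_st_eq_zero
          by_cases h3 : scl α k ρ * ‖pot α k x‖ ^ 2 ≤ 1
          · left; rw [← hx]; linarith
          · right
            have h4 : ¬ scl α k ρ * ‖pot α k x‖ ^ 2 < 2 := fun h4 => hH ⟨hx0, not_le.1 h3, h4⟩
            rw [← hx]
            linarith
        rw [h2]
        simp
    rw [gr1, gr2, mul_zero, zero_add, map_zero, zero_mul, zero_im, sub_zero, hDz]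
    have e1 : ip ((f₁ α k ρ g z : ℂ) * (-(HH₂ t : ℂ) * conj (Yv / Y * ζ))) (conj (δ * ζ)) =
        -(f₁ α k ρ g z * (HH₂ t * (conj (Yv / Y * ζ) * (δ * ζ)).re)) := by
      simp only [ip, map_mul, mul_re, mul_im, conj_re, conj_im, ofReal_re, ofReal_im, neg_re, neg_im]
      ring
    rw [e1, neg_nonpos]
    by_cases h1 : HH₂ t = 0
    · rw [h1]; simp
    by_cases h2 : f₁ α k ρ g z = 0
    · rw [h2]; simp
    exact mul_nonneg (XX_nonneg _) (mul_nonneg (HH₂_nonneg t) (hpos h1 h2))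

end Pool.Agent.MQ

end
end

section

/-!
# MQ Shell: the logarithm of a form with high contact with an axis, in a shell around the axis

`q (x, y)` is the form in the coordinates of the box, `q (0, y) = c y ^ n + …`.
-/

set_option autoImplicit false

open MeasureTheory Topology Filter Metric Laplacian

noncomputable section

namespace Pool.Agent.MQ.AxisA

open Pool.Agent.H36.BP (EN fs)
open Pool.Agent.MQ

/-- **The shell lemma.** -/
theorem shell {q : ℂ × ℂ → ℂ} (hq : AnalyticAt ℂ q 0) {n : ℕ} (hn : 1 ≤ n) (hord : analyticOrderAt (fun t => q (0, t)) 0 = n) {ψ : ℂ × ℂ → ℝ}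
    (hψ : ContDiffAt ℝ 1 ψ 0) (d : ℕ) {K : ℝ} (hK : 0 ≤ K) {s : ℝ} (hs : 0 < s) :
    ∃ ρ η : ℝ, 0 < η ∧ 2 * η ≤ ρ ∧ ρ < s ∧ ∀ c : ℝ, 0 < c → ∃ b₀ : ℝ, ∀ {M : ℕ} {F : ℂ → EN M} (_ : Differentiable ℂ F) (_ : ∀ z, F z ≠ 0)
      {g : ℂ → ℂ} {U : Set ℂ} {x y a b : ℂ → ℂ} {rho : ℝ} (_ : Axis0 U x y a b K rho)
      (_ : ∀ z ∈ U, ‖g z‖ * Real.exp (d * ψ (x z, y z)) = c * ‖q (x z, y z)‖ * ‖F z‖ ^ d),
      ∀ z ∈ U, ‖x z‖ ≤ η → ρ / 2 ≤ ‖y z‖ → ‖y z‖ ≤ ρ → g z ≠ 0 ∧ b₀ ≤ lu F g d z ∧ lu F g d z ≤ b₀ + 2 * n ∧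
        (n / 2) * ‖b z‖ ≤ ‖gr (lu F g d) z‖ := by
  have hn0 : (1 : ℝ) ≤ n := by exact_mod_cast hn
  have hd0 : (0 : ℝ) ≤ d := Nat.cast_nonneg d
  set ε : ℝ := 1 / (8 * (1 + K)) with hε
  have hε0 : 0 < ε := by positivity
  -- the function `ψ` near `0`
  obtain ⟨C, hC0, hCb⟩ : ∃ C : ℝ, 0 < C ∧ ∀ᶠ p in 𝓝 (0 : ℂ × ℂ), DifferentiableAt ℝ ψ p ∧ ‖fderiv ℝ ψ p‖ ≤ C := by
    refine ⟨‖fderiv ℝ ψ 0‖ + 1, by positivity, ?_⟩
    have h1 : ContinuousAt (fun p => ‖fderiv ℝ ψ p‖) 0 := (hψ.fderiv_right (m := 0) (by norm_num)).continuousAt.norm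
    filter_upwards [hψ.eventually (by simp), h1.eventually (gt_mem_nhds (lt_add_one _))] with p h2 h3
    exact ⟨h2.differentiableAt (by norm_num), h3.le⟩
  have hψc : ∀ᶠ p in 𝓝 (0 : ℂ × ℂ), |ψ p - ψ 0| ≤ 1 / (2 * ((d : ℝ) + 1)) := by
    have h1 : ContinuousAt (fun p => |ψ p - ψ 0|) 0 := (hψ.continuousAt.sub continuousAt_const).abs
    have h2 : |ψ 0 - ψ 0| < 1 / (2 * ((d : ℝ) + 1)) := by
      rw [sub_self, abs_zero]
      positivity
    filter_upwards [h1.eventually (gt_mem_nhds h2)] with p hp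
    exact hp.le
  obtain ⟨t, ht0, ht⟩ := Metric.eventually_nhds_iff_ball.1 (hCb.and (hψc.and hq.eventually_analyticAt))
  -- the radius
  have hsmall : ∀ᶠ r in 𝓝[>] (0 : ℝ), 0 < r ∧ r < s ∧ r < t ∧ ((d : ℝ) + 1) * C * (1 + K) * r ≤ 1 / 4 := by
    have h1 : Tendsto (fun r : ℝ => ((d : ℝ) + 1) * C * (1 + K) * r) (𝓝[>] 0) (𝓝 0) := by
      have h2 : Tendsto (fun r : ℝ => ((d : ℝ) + 1) * C * (1 + K) * r) (𝓝 0) (𝓝 (((d : ℝ) + 1) * C * (1 + K) * 0)) :=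
        (continuous_const.mul continuous_id).tendsto 0
      rw [mul_zero] at h2
      exact h2.mono_left nhdsWithin_le_nhds
    filter_upwards [self_mem_nhdsWithin, mem_nhdsWithin_of_mem_nhds (gt_mem_nhds hs), mem_nhdsWithin_of_mem_nhds (gt_mem_nhds ht0),
      h1.eventually (gt_mem_nhds (show (0 : ℝ) < 1 / 4 by norm_num))] with r h2 h3 h4 h5
    exact ⟨h2, h3, h4, h5.le⟩
  obtain ⟨ρ, ⟨hρ0, hρs, hρt, hρC⟩, η, b₀, hη0, hη2, hreg⟩ := (hsmall.and (reg2 hq hn hord hε0)).exists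
  refine ⟨ρ, η, hη0, hη2, hρs, fun c hc => ⟨b₀ + Real.log c - d * ψ 0 - n / 2, ?_⟩⟩
  intro M F hF h0 g U x y a b rho hA hrel z hz hx1 hy1 hy2
  obtain ⟨q0, q1, q2, q3, q4⟩ := hreg (x z) (y z) hx1 hy1 hy2
  have hηρ : η ≤ ρ := by linarith
  have hpt : (x z, y z) ∈ ball (0 : ℂ × ℂ) t := by
    rw [mem_ball_zero_iff, Prod.norm_def]
    exact max_lt (lt_of_le_of_lt (hx1.trans hηρ) hρt) (lt_of_le_of_lt hy2 hρt)
  obtain ⟨⟨p1, p2⟩, p3, p4⟩ := ht _ hpt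
  have hFp : 0 < ‖F z‖ := norm_pos_iff.2 (h0 z)
  have hy0 : y z ≠ 0 := norm_pos_iff.1 (by linarith)
  have hg0 : g z ≠ 0 := by
    intro h
    have h1 := hrel z hz
    rw [h, norm_zero, zero_mul] at h1
    have h2 : 0 < c * ‖q (x z, y z)‖ * ‖F z‖ ^ d := mul_pos (mul_pos hc (norm_pos_iff.2 q0)) (pow_pos hFp d)
    linarith
  -- the formula for `lu`
  have hxc := (hA.hx z hz)
  have hyc := (hA.hy z hz)
  have hqan : AnalyticAt ℂ (fun w => q (x w, y w)) z := AnalyticAt.fun_comp (g := q) (f := fun w => (x w, y w)) p4 (hxc.prod hyc)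
  have hform : ∀ w ∈ U, q (x w, y w) ≠ 0 → lu F g d w = Real.log c + Real.log ‖q (x w, y w)‖ - d * ψ (x w, y w) := by
    intro w hw hqw
    have h1 := hrel w hw
    have h2 : 0 < ‖F w‖ := norm_pos_iff.2 (h0 w)
    have h3 : 0 < c * ‖q (x w, y w)‖ * ‖F w‖ ^ d := mul_pos (mul_pos hc (norm_pos_iff.2 hqw)) (pow_pos h2 d)
    have h4 : ‖g w‖ ≠ 0 := by
      intro h5
      rw [h5, zero_mul] at h1
      linarith
    have h5 := congrArg Real.log h1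
    rw [Real.log_mul h4 (Real.exp_pos _).ne', Real.log_exp, Real.log_mul (mul_pos hc (norm_pos_iff.2 hqw)).ne' (pow_pos h2 d).ne',
      Real.log_mul hc.ne' (norm_ne_zero_iff.2 hqw), Real.log_pow] at h5
    unfold lu
    linarith
  have hev : lu F g d =ᶠ[𝓝 z] fun w => (Real.log c + Real.log ‖q (x w, y w)‖) - d * ψ (x w, y w) := by
    filter_upwards [hA.isOpen.mem_nhds hz, hqan.continuousAt.eventually_ne q0] with w h1 h2
    exact hform w h1 h2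
  have hval := hform z hz q0
  have hψz : |(d : ℝ) * (ψ (x z, y z) - ψ 0)| ≤ n / 2 := by
    rw [abs_mul, Nat.abs_cast]
    have h1 : (d : ℝ) * |ψ (x z, y z) - ψ 0| ≤ d * (1 / (2 * ((d : ℝ) + 1))) := mul_le_mul_of_nonneg_left p3 hd0
    have h2 : (d : ℝ) * (1 / (2 * ((d : ℝ) + 1))) ≤ 1 / 2 := by
      rw [mul_one_div, div_le_div_iff₀ (by positivity) (by norm_num)]
      linarith
    linarith
  have hψz' := abs_le.1 hψz
  refine ⟨hg0, ?_, ?_, ?_⟩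
  · rw [hval]
    linarith [hψz'.2]
  · rw [hval]
    linarith [hψz'.1]
  · -- the gradient
    have hd1 : DifferentiableAt ℝ (fun w => Real.log ‖q (x w, y w)‖) z :=
      (Pool.Agent.H30M.contDiffAt_log_norm hqan q0).differentiableAt (by norm_num)
    have hd2 : DifferentiableAt ℝ (fun w => ψ (x w, y w)) z := by
      have h1 : DifferentiableAt ℝ (fun w => (x w, y w)) z :=
        (hxc.differentiableAt.restrictScalars ℝ).prodMk (hyc.differentiableAt.restrictScalars ℝ)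
      exact DifferentiableAt.comp (g := ψ) z p1 h1
    have e1 : gr (lu F g d) z = (starRingEnd ℂ) (deriv (fun w => q (x w, y w)) z / q (x z, y z)) - (d : ℂ) * gr (fun w => ψ (x w, y w)) z := by
      have hd3 : DifferentiableAt ℝ (fun w => Real.log c + Real.log ‖q (x w, y w)‖) z := hd1.const_add _
      rw [gr_congr hev, gr_sub hd3 (hd2.const_mul (d : ℝ)), gr_add (u := fun _ => Real.log c) (differentiableAt_const _) hd1, gr_const, zero_add,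
        gr_const_mul (d : ℝ) hd2, gr_log_norm hqan.differentiableAt q0]
      push_cast
      rfl
    have hp : x z ≠ 0 ∨ y z ≠ 0 := Or.inr hy0
    have ha := hA.ab z hz hp
    -- the derivative of `q (x, y)`
    have e2 : deriv (fun w => q (x w, y w)) z = fderiv ℂ q (x z, y z) (1, 0) * (x z * a z) + fderiv ℂ q (x z, y z) (0, 1) * (y z * b z) := by
      have h1 : HasDerivAt (fun w => (x w, y w)) (deriv x z, deriv y z) z := hxc.differentiableAt.hasDerivAt.prodMk hyc.differentiableAt.hasDerivAt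
      have h2 : HasDerivAt (fun w => q (x w, y w)) (fderiv ℂ q (x z, y z) (deriv x z, deriv y z)) z :=
        p4.differentiableAt.hasFDerivAt.comp_hasDerivAt z h1
      have h3 : ((deriv x z, deriv y z) : ℂ × ℂ) = deriv x z • ((1, 0) : ℂ × ℂ) + deriv y z • ((0, 1) : ℂ × ℂ) := by simp
      rw [h2.deriv, h3, map_add, map_smul, map_smul, smul_eq_mul, smul_eq_mul, hA.dx z hz hp, hA.dy z hz hp]
      ring
    have hqn : 0 < ‖q (x z, y z)‖ := norm_pos_iff.2 q0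
    have e3 : ((n : ℝ) - 1 / 8) * ‖b z‖ ≤ ‖deriv (fun w => q (x w, y w)) z / q (x z, y z)‖ := by
      have h1 : deriv (fun w => q (x w, y w)) z / q (x z, y z) = n * b z +
          ((y z * fderiv ℂ q (x z, y z) (0, 1) - n * q (x z, y z)) / q (x z, y z) * b z + x z * fderiv ℂ q (x z, y z) (1, 0) / q (x z, y z) * a z) := by
        rw [e2]
        field_simp
        ring
      have h2 : ‖(y z * fderiv ℂ q (x z, y z) (0, 1) - n * q (x z, y z)) / q (x z, y z) * b z‖ ≤ ε * ‖b z‖ := by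
        rw [norm_mul, norm_div]
        exact mul_le_mul_of_nonneg_right ((div_le_iff₀ hqn).2 q4) (norm_nonneg _)
      have h3 : ‖x z * fderiv ℂ q (x z, y z) (1, 0) / q (x z, y z) * a z‖ ≤ ε * (K * ‖b z‖) := by
        rw [norm_mul, norm_div, norm_mul]
        exact mul_le_mul ((div_le_iff₀ hqn).2 q3) ha (norm_nonneg _) hε0.le
      have h4 : ε * ‖b z‖ + ε * (K * ‖b z‖) = 1 / 8 * ‖b z‖ := by
        have hK1 : (1 + K) ≠ 0 := by positivity
        rw [hε]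
        field_simp
      have h5 : ‖(n : ℂ) * b z‖ = n * ‖b z‖ := by
        rw [norm_mul, Complex.norm_natCast]
      have h6 := norm_sub_norm_le ((n : ℂ) * b z) (-((y z * fderiv ℂ q (x z, y z) (0, 1) - n * q (x z, y z)) / q (x z, y z) * b z +
        x z * fderiv ℂ q (x z, y z) (1, 0) / q (x z, y z) * a z))
      rw [norm_neg, sub_neg_eq_add, ← h1, h5] at h6
      have h7 := norm_add_le ((y z * fderiv ℂ q (x z, y z) (0, 1) - n * q (x z, y z)) / q (x z, y z) * b z)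
        (x z * fderiv ℂ q (x z, y z) (1, 0) / q (x z, y z) * a z)
      linarith
    have e4 : ‖(d : ℂ) * gr (fun w => ψ (x w, y w)) z‖ ≤ n / 4 * ‖b z‖ := by
      have h1 := norm_gr_comp_le p1 hxc hyc p2
      have h2 : ‖deriv x z‖ ≤ ρ * (K * ‖b z‖) := by
        rw [hA.dx z hz hp, norm_mul]
        exact mul_le_mul (hx1.trans hηρ) ha (norm_nonneg _) hρ0.le
      have h3 : ‖deriv y z‖ ≤ ρ * ‖b z‖ := by
        rw [hA.dy z hz hp, norm_mul]
        exact mul_le_mul_of_nonneg_right hy2 (norm_nonneg _)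
      have hb := norm_nonneg (b z)
      have h4 : max ‖deriv x z‖ ‖deriv y z‖ ≤ ρ * ((1 + K) * ‖b z‖) := by
        refine max_le (h2.trans ?_) (h3.trans ?_)
        · refine mul_le_mul_of_nonneg_left ?_ hρ0.le
          linarith only [hb]
        · refine mul_le_mul_of_nonneg_left ?_ hρ0.le
          linarith only [mul_nonneg hK hb]
      have h5 : ((d : ℝ) + 1) * (C * max ‖deriv x z‖ ‖deriv y z‖) ≤ 1 / 4 * ‖b z‖ := by
        calc ((d : ℝ) + 1) * (C * max ‖deriv x z‖ ‖deriv y z‖) ≤ ((d : ℝ) + 1) * (C * (ρ * ((1 + K) * ‖b z‖))) :=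
              mul_le_mul_of_nonneg_left (mul_le_mul_of_nonneg_left h4 hC0.le) (by positivity)
          _ = ((d : ℝ) + 1) * C * (1 + K) * ρ * ‖b z‖ := by ring
          _ ≤ 1 / 4 * ‖b z‖ := mul_le_mul_of_nonneg_right hρC hb
      rw [norm_mul, Complex.norm_natCast]
      have h6 : (d : ℝ) * ‖gr (fun w => ψ (x w, y w)) z‖ ≤ ((d : ℝ) + 1) * (C * max ‖deriv x z‖ ‖deriv y z‖) :=
        mul_le_mul (by linarith only) h1 (norm_nonneg _) (by positivity)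
      have h7 : (1 / 4 : ℝ) * ‖b z‖ ≤ n / 4 * ‖b z‖ := mul_le_mul_of_nonneg_right (by linarith only [hn0]) hb
      linarith only [h5, h6, h7]
    rw [e1]
    have h6 := norm_sub_norm_le ((starRingEnd ℂ) (deriv (fun w => q (x w, y w)) z / q (x z, y z))) ((d : ℂ) * gr (fun w => ψ (x w, y w)) z)
    rw [RCLike.norm_conj] at h6
    have hb := norm_nonneg (b z)
    have h7 : (n / 2 : ℝ) * ‖b z‖ ≤ ((n : ℝ) - 1 / 8 - n / 4) * ‖b z‖ := mul_le_mul_of_nonneg_right (by linarith only [hn0]) hb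
    linarith only [h6, h7, e3, e4]

end Pool.Agent.MQ.AxisA

end
end
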