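import Pool.Agent.H43.TL2.M37
import Pool.Agent.H43.TL2.M50
import Pool.Agent.H43.TL2.M66
import Pool.Agent.H43.TL2.M70
import Pool.Agent.H43.TL2.M79
import Pool.Agent.H43.TL2.M86
import Pool.Agent.H43.TL2.M95

/-! The parts of this file: MQ2.TNode, MQL.RegDC. -/

section

/-!
# MQ2 TNode: the terminal package at a node with the axis `{x = 0}` in the weight

The weight is `x y` (nothing to do) or `x`: then the axis `{y = 0}` is the separatrix of the package.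
-/

set_option autoImplicit false

open Topology Filter Metric MeasureTheory Asymptotics Laplacian

noncomputable section

namespace Pool.Agent.MQ2

open Pool.Agent.H36.BP (EN)
open Pool.Agent.H30M (tau LogSing)
open Pool.Agent.MQ
open Pool.Agent.MQ.AxisA (shell)

theorem tn_congr {v : ℂ × ℂ → ℂ × ℂ} {g g' : ℂ × ℂ → ℂ} {r : ℝ} {Om : Set ℂ} {p : ℂ → ℂ × ℂ} (hc : Crv1 v r Om p)
    (h : ∀ q ∈ ball (0 : ℂ × ℂ) r, g q = g' q) {I Λ : ℝ → ℝ} {s δ : ℝ} (hN : LocalN1 v g' Om p I Λ s δ) : LocalN1 v g Om p I Λ s δ := by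
  obtain ⟨C, η, err, h1, h2, h3, h4, h5⟩ := hN
  refine ⟨C, η, err, h1, h2, h3, fun z hz hz' => ?_, h5⟩
  have e : (fun w => g (p w)) =ᶠ[𝓝 z] fun w => g' (p w) := by
    filter_upwards [hc.isOpen.mem_nhds hz] with w hw
    exact h _ (hc.mem w hw)
  have e2 : DDv v g p z = DDv v g' p z := by
    unfold DDv
    rw [e.deriv_eq, h _ (hc.mem z hz)]
  rw [e2]
  exact h4 z hz hz'

theorem tn_energy {v : ℂ × ℂ → ℂ × ℂ} {l : ℂ × ℂ → ℂ} {Om : Set ℂ} {g : ℂ → ℂ × ℂ} {I I' Λ : ℝ → ℝ} {s δ : ℝ}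
    (h : LocalN1 v l Om g I Λ s δ) (hI : ∀ R, 1 ≤ R → I R ≤ I' R) (hδ : 0 ≤ δ) : LocalN1 v l Om g I' Λ s δ := by
  obtain ⟨C, η, err, h0, h1, h2, h3, h4, h5, h6, h7⟩ := h
  refine ⟨C, η, err, h0, h1, h2, h3, h4, h5, h6, fun R hR => (h7 R hR).trans ?_⟩
  have := mul_le_mul_of_nonneg_left (hI R hR) hδ
  linarith

theorem En_le_lm {M : ℕ} {F : ℂ → EN M} (hF : Differentiable ℂ F) (h0 : ∀ z, F z ≠ 0) {lm : ℂ → ℝ} (hc : Continuous lm)
    (hle : ∀ z, lam F z ≤ lm z) {R : ℝ} (hR : 1 ≤ R) : En F R ≤ ∫ z, tau R z * lm z ^ 2 := by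
  have ht : Continuous (tau R) := (Pool.Agent.H30M.contDiff_tau R).continuous
  have hcs : HasCompactSupport (tau R) := Pool.Agent.H30M.hcs_tau hR
  refine integral_mono ((ht.mul ((continuous_lam hF h0).pow 2)).integrable_of_hasCompactSupport hcs.mul_right)
    ((ht.mul (hc.pow 2)).integrable_of_hasCompactSupport hcs.mul_right) fun z => ?_
  have h1 : 0 ≤ lam F z := div_nonneg (Real.sqrt_nonneg _) (sq_nonneg _)
  exact mul_le_mul_of_nonneg_left (pow_le_pow_left₀ h1 (hle z) 2) (Pool.Agent.H30M.tau_nonneg hR z)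

/-- **The package at a node.** -/
theorem good_node {a b : ℂ × ℂ → ℂ} (ha : AnalyticAt ℂ a 0) (hb : AnalyticAt ℂ b 0) (ha0 : a 0 ≠ 0) (hb0 : b 0 ≠ 0)
    (hq : ∀ k l : ℕ, 1 ≤ k → 1 ≤ l → k * a 0 ≠ l * b 0) :
    Good (fun g _ => (∀ᶠ p in 𝓝 (0 : ℂ × ℂ), g p = p.1 * p.2) ∨ ∀ᶠ p in 𝓝 (0 : ℂ × ℂ), g p = p.1) fun p => (p.1 * a p, p.2 * b p) := by
  refine ⟨1, fun _ _ t => (t, 0), fun _ => sep_axis, fun g J hgg hw hJ => ?_⟩
  rcases hgg with hg | hg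
  · -- a corner
    have hg' : ∀ᶠ p in 𝓝 (0 : ℂ × ℂ), g p = p.1 * p.2 * (fun _ : ℂ × ℂ => (1 : ℂ)) p := hg.mono fun p hp => by rw [hp, mul_one]
    filter_upwards [corner_pkg ha hb ha0 hb0 hq analyticAt_const one_ne_zero hg' hJ] with r hr s hs hsr B hB
    refine ⟨1, 0, zero_le_one, le_rfl, ?_⟩
    intro d n q ψ _ _ _ _ _ M F Q lm Om p hD
    rw [zero_mul, zero_div]
    exact hr B hB d q ψ M F Q lm Om p hD s
  -- the weight is `x`
  obtain ⟨c₁, hc₁, hmain⟩ := localN1_node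
  have h1 := eventually_cball (ha.eventually_analyticAt.and (hb.eventually_analyticAt.and (hJ.eventually_analyticAt.and
    ((ha.continuousAt.eventually_ne ha0).and ((hb.continuousAt.eventually_ne hb0).and hg)))))
  filter_upwards [h1] with r hr s hs hsr B hB
  have r1 : AnalyticOnNhd ℂ a (closedBall 0 r) := fun p hp => (hr p hp).1
  have r2 : AnalyticOnNhd ℂ b (closedBall 0 r) := fun p hp => (hr p hp).2.1
  have r4 : AnalyticOnNhd ℂ J (closedBall 0 r) := fun p hp => (hr p hp).2.2.1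
  have r5 : ∀ p ∈ closedBall (0 : ℂ × ℂ) r, a p ≠ 0 := fun p hp => (hr p hp).2.2.2.1
  have r6 : ∀ p ∈ closedBall (0 : ℂ × ℂ) r, b p ≠ 0 := fun p hp => (hr p hp).2.2.2.2.1
  have r8 : ∀ p ∈ closedBall (0 : ℂ × ℂ) r, g p = p.1 := fun p hp => (hr p hp).2.2.2.2.2
  obtain ⟨K₁, hK₁, hab⟩ := ratio_bound r1 r2 r6
  obtain ⟨K₂, hK₂, hba⟩ := ratio_bound r2 r1 r5
  obtain ⟨C₂, hC₂, hgJ⟩ := ratio_bound r4 r1 r5
  set K : ℝ := max K₁ K₂ with hK
  have hK0 : 0 < K := lt_max_of_lt_left hK₁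
  refine ⟨1, c₁ * K, zero_le_one, by positivity, ?_⟩
  intro d n q ψ _ hn hqa hψ hord M F Q lm Om p hD
  have hcrv := hD.crv
  have hmem : ∀ z ∈ Om, p z ∈ closedBall (0 : ℂ × ℂ) r := fun z hz => ball_subset_closedBall (hcrv.mem z hz)
  have hN : NodeC (fun p => (p.1 * a p, p.2 * b p)) r Om p a b K :=
    ⟨hcrv, r1, r2, r5, r6, fun _ => rfl, fun p hp => (hab p hp).trans (mul_le_mul_of_nonneg_right (le_max_left _ _) (norm_nonneg _)),
      fun p hp => (hba p hp).trans (mul_le_mul_of_nonneg_right (le_max_right _ _) (norm_nonneg _))⟩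
  -- off the center no curve meets `{x = 0}`
  have hx : ∀ z ∈ Om, ∃ᶠ w in 𝓝 z, (p w).1 ≠ 0 := fun z hz => by
    have h2 : ∀ᶠ w in 𝓝 z, g (p w) = (p w).1 := by
      filter_upwards [hcrv.isOpen.mem_nhds hz] with w hw using r8 _ (hmem w hw)
    exact ((hD.g_ne z hz).and_eventually h2).mono fun w hw h4 => hw.1 (by rw [hw.2, h4])
  have hlz : ∀ z ∈ Om, p z ≠ 0 → (fun q : ℂ × ℂ => q.1) (p z) ≠ 0 := fun z hz hpz h3 => by
    have h4 : (p z).2 ≠ 0 := fun h4 => hpz (Prod.ext h3 h4)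
    obtain ⟨m, k, hm, hk, hmk⟩ := ord_axes hcrv (fun _ => rfl) hz (r1 _ (hmem z hz)).continuousAt (r2 _ (hmem z hz)).continuousAt (hx z hz)
      ((an_snd (hcrv.an z hz)).continuousAt.eventually_ne h4).frequently
    rw [hk.2 h4, Nat.cast_zero, zero_mul] at hmk
    have h5 : m = 0 := by exact_mod_cast (mul_eq_zero.1 hmk).resolve_right (r6 _ (hmem z hz))
    exact hm.1 h5 h3
  -- the order of the form on the axis
  obtain ⟨n', hn', hord'⟩ : HasOrd (fun _ t => (t, 0)) q n := by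
    rcases hord 0 with h2 | h2
    · exfalso
      have h4 : (fun t : ℂ => g (t, 0)) =ᶠ[𝓝 0] fun t => t := by
        have ht : Tendsto (fun t : ℂ => ((t, 0) : ℂ × ℂ)) (𝓝 0) (𝓝 0) := (continuous_id.prodMk continuous_const).tendsto 0
        exact ht.eventually hg
      obtain ⟨N, hN0⟩ := (sep_axis (a := a) (b := b)).nc
      refine hN0 (IsBigO.trans (IsBigO.of_bound 1 (Eventually.of_forall fun t => ?_)) (IsBigO.congr' (h2 N) h4 EventuallyEq.rfl))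
      rw [one_mul, Prod.norm_mk, norm_zero]
      exact max_le le_rfl (norm_nonneg _)
    · exact h2
  have hΛ : ∀ R, 1 ≤ R → 0 ≤ ∫ z, ‖gr (tau R) z‖ * lm z := fun R _ => integral_nonneg fun z => mul_nonneg (norm_nonneg _) (hD.lm_nonneg z)
  obtain ⟨cQ, hcQ, hcc⟩ := hD.Q_eq
  have key := hmain hN hK0.le hD.F_diff hD.F_ne hD.Q_diff hn hD.Q_le (l := fun q => q.1) (l₁ := fun q => q.1) (l₂ := fun _ => 1)
    (fun q => (mul_one _).symm) hs hsr (Or.inl fun _ => rfl) (Or.inr ⟨fun _ => rfl, n', hn', ?_⟩) hlz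
    (Λ := fun R => ∫ z, ‖gr (tau R) z‖ * lm z) hΛ
  · have e : c₁ * K * (d : ℝ) / n = c₁ * K * (d / n) := by ring
    rw [e]
    have hδ : 0 ≤ c₁ * K * ((d : ℝ) / n) := by positivity
    have key2 := tn_congr (g := g) hcrv (fun q hq => r8 q (ball_subset_closedBall hq)) (tn_energy key
      (I' := fun R => ∫ z, tau R z * lm z ^ 2) (fun R hR => En_le_lm hD.F_diff hD.F_ne hD.lm_cont hD.lam_le hR) hδ)
    refine locX_of_localN1 (C₁ := C₂ * B) hB (by positivity) hD.lm_cont hD.lm_nonneg hD.lm_ge key2 fun z hz hzt => ?_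
    rw [r8 _ (hmem z hz)]
    by_cases hxz : (p z).1 = 0
    · rw [hxz, norm_zero, mul_zero, zero_mul]
      exact mul_nonneg (by positivity) (hD.lm_nonneg z)
    · have hap := r5 _ (hmem z hz)
      have e2 : ztv (fun p => (p.1 * a p, p.2 * b p)) p z * (p z).1 * J (p z) = (deriv p z).1 * (J (p z) / a (p z)) := by
        rw [hN.dfst hz (Or.inl hxz)]
        field_simp
      rw [← norm_mul, ← norm_mul, e2, norm_mul, norm_div]
      calc ‖(deriv p z).1‖ * (‖J (p z)‖ / ‖a (p z)‖) ≤ ‖deriv p z‖ * C₂ :=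
            mul_le_mul (norm_fst_le _) (by rw [div_le_iff₀ (norm_pos_iff.2 hap)]; exact hgJ _ (hmem z hz)) (by positivity) (norm_nonneg _)
        _ ≤ B * lm z * C₂ := mul_le_mul_of_nonneg_right (hD.lm_ge z hz) hC₂.le
        _ = _ := by ring
  · have hsw : AnalyticAt ℂ (fun p : ℂ × ℂ => (p.2, p.1)) 0 := analyticAt_snd.prod analyticAt_fst
    have hq' : AnalyticAt ℂ (fun p : ℂ × ℂ => q (p.2, p.1)) 0 :=
      AnalyticAt.comp (g := q) (f := fun p : ℂ × ℂ => (p.2, p.1)) hqa hsw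
    have hψ' : ContDiffAt ℝ 1 (fun p : ℂ × ℂ => ψ (p.2, p.1)) 0 :=
      ContDiffAt.comp (g := ψ) (f := fun p : ℂ × ℂ => (p.2, p.1)) 0 hψ ((hsw.contDiffAt (n := 1)).restrict_scalars ℝ)
    obtain ⟨ρ, η, k1, k2, k3, k4⟩ := shell hq' (hn.trans hn') (hord' n' le_rfl) hψ' d hK0.le hs
    obtain ⟨b₀, k5⟩ := k4 cQ hcQ
    exact ⟨ρ, η, b₀, k1, k2, k3, k5 hD.F_diff hD.F_ne hN.ax₂ hcc⟩

end Pool.Agent.MQ2

end
end

section

/-!
# MQL RegDC: the flow box at a regular point, the leaf as a separatrix, the coordinates of a curve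
-/

set_option autoImplicit false

open Topology Filter Metric MeasureTheory Asymptotics Laplacian Set

noncomputable section

namespace Pool.Agent.MQL

open Pool.Agent.H36.BP (EN)
open Pool.Agent.H30M (tau LogSing)
open Pool.Agent.MQ Pool.Agent.MQ2
open Pool.Agent.H17BP (Bihol)

/-- the flow box -/
structure FBox (v Φ Ψ : ℂ × ℂ → ℂ × ℂ) : Prop where
  an : AnalyticAt ℂ Φ 0
  an' : AnalyticAt ℂ Ψ 0
  zero : Φ 0 = 0
  zero' : Ψ 0 = 0
  left : ∀ᶠ x in 𝓝 (0 : ℂ × ℂ), Ψ (Φ x) = x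
  right : ∀ᶠ x in 𝓝 (0 : ℂ × ℂ), Φ (Ψ x) = x
  tan : ∀ᶠ x in 𝓝 (0 : ℂ × ℂ), (v (Φ x)).1 * (fderiv ℂ Φ x (0, 1)).2 = (v (Φ x)).2 * (fderiv ℂ Φ x (0, 1)).1
  int : ∀ᶠ x in 𝓝 (0 : ℂ × ℂ), (fderiv ℂ Ψ x (v x)).1 = 0

theorem fderiv_left {Φ Ψ : ℂ × ℂ → ℂ × ℂ} (hΦ : AnalyticAt ℂ Φ 0) (hΨ : AnalyticAt ℂ Ψ 0) (h0 : Φ 0 = 0) (h1 : ∀ᶠ x in 𝓝 (0 : ℂ × ℂ), Ψ (Φ x) = x) :
    ∀ᶠ x in 𝓝 (0 : ℂ × ℂ), ∀ w, fderiv ℂ Ψ (Φ x) (fderiv ℂ Φ x w) = w := by
  have ht : Tendsto Φ (𝓝 0) (𝓝 0) := by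
    have := hΦ.continuousAt.tendsto
    rwa [h0] at this
  filter_upwards [hΦ.eventually_analyticAt, ht.eventually hΨ.eventually_analyticAt, h1.eventually_nhds] with x e1 e2 e3 w
  have h2 : HasFDerivAt (fun x => Ψ (Φ x)) ((fderiv ℂ Ψ (Φ x)).comp (fderiv ℂ Φ x)) x := e2.differentiableAt.hasFDerivAt.comp x e1.differentiableAt.hasFDerivAt
  have h3 : HasFDerivAt (fun x : ℂ × ℂ => x) (ContinuousLinearMap.id ℂ (ℂ × ℂ)) x := hasFDerivAt_id x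
  have h4 := h2.unique (h3.congr_of_eventuallyEq e3)
  have h5 := congrArg (fun L : ℂ × ℂ →L[ℂ] ℂ × ℂ => L w) h4
  exact h5

theorem exists_fbox {v : ℂ × ℂ → ℂ × ℂ} (hv : AnalyticAt ℂ v 0) (h0 : v 0 ≠ 0) : ∃ Φ Ψ : ℂ × ℂ → ℂ × ℂ, FBox v Φ Ψ := by
  obtain ⟨Φ, hΦ, hΦ0, hli, hr⟩ := rect hv h0
  have hdet : (fderiv ℂ Φ 0 (1, 0)).1 * (fderiv ℂ Φ 0 (0, 1)).2 - (fderiv ℂ Φ 0 (0, 1)).1 * (fderiv ℂ Φ 0 (1, 0)).2 ≠ 0 := by
    intro h0
    obtain ⟨A, hA⟩ : ∃ A, A = fderiv ℂ Φ 0 (1, 0) := ⟨_, rfl⟩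
    obtain ⟨B, hB⟩ : ∃ B, B = fderiv ℂ Φ 0 (0, 1) := ⟨_, rfl⟩
    rw [← hA, ← hB] at h0 hli
    rw [LinearIndependent.pair_iff] at hli
    have hB0 : B = 0 := by
      have e1 := hli B.2 (-A.2) (by
        refine Prod.ext ?_ ?_
        · show B.2 * A.1 + -A.2 * B.1 = 0
          linear_combination h0
        · show B.2 * A.2 + -A.2 * B.2 = 0
          ring)
      have e2 := hli B.1 (-A.1) (by
        refine Prod.ext ?_ ?_
        · show B.1 * A.1 + -A.1 * B.1 = 0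
          ring
        · show B.1 * A.2 + -A.1 * B.2 = 0
          linear_combination -h0)
      exact Prod.ext e2.1 e1.1
    have e3 := hli 0 1 (by rw [hB0]; simp)
    exact one_ne_zero e3.2
  have hbi : Bihol Φ := (Pool.Agent.H17BP.bihol_iff hΦ hΦ0).2 hdet
  obtain ⟨Ψ, hΨ, hΨ0, h1, h2⟩ := hbi.inv
  refine ⟨Φ, Ψ, hΦ, hΨ, hΦ0, hΨ0, h1, h2, hr, ?_⟩
  have htΨ : Tendsto Ψ (𝓝 0) (𝓝 0) := by
    have := hΨ.continuousAt.tendsto
    rwa [hΨ0] at this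
  filter_upwards [htΨ.eventually (hr.and (fderiv_left hΦ hΨ hΦ0 h1)), h2] with x e1 e2
  obtain ⟨e3, e4⟩ := e1
  rw [e2] at e3 e4
  obtain ⟨B, hB⟩ : ∃ B, B = fderiv ℂ Φ (Ψ x) (0, 1) := ⟨_, rfl⟩
  have e5 := e4 (0, 1)
  rw [← hB] at e3 e5
  -- `v x` is a multiple of `B`
  by_cases hB1 : B.1 = 0
  · have hB2 : B.2 ≠ 0 := by
      intro hB2
      have hB0 : B = 0 := Prod.ext hB1 hB2
      rw [hB0, map_zero] at e5
      exact one_ne_zero (congrArg Prod.snd e5).symm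
    have h3 : v x = ((v x).2 / B.2) • B := by
      refine Prod.ext ?_ ?_
      · rw [Prod.smul_fst, smul_eq_mul, hB1, mul_zero]
        rw [hB1, mul_zero] at e3
        exact (mul_eq_zero.1 e3).resolve_right hB2
      · rw [Prod.smul_snd, smul_eq_mul, div_mul_cancel₀ _ hB2]
    rw [h3, map_smul, e5, Prod.smul_fst, smul_zero]
  · have h3 : v x = ((v x).1 / B.1) • B := by
      refine Prod.ext ?_ ?_
      · rw [Prod.smul_fst, smul_eq_mul, div_mul_cancel₀ _ hB1]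
      · rw [Prod.smul_snd, smul_eq_mul, div_mul_eq_mul_div, eq_div_iff hB1]
        exact e3.symm
    rw [h3, map_smul, e5, Prod.smul_fst, smul_zero]

variable {v Φ Ψ : ℂ × ℂ → ℂ × ℂ}

/-- the leaf through the origin -/
def leaf (Φ : ℂ × ℂ → ℂ × ℂ) (t : ℂ) : ℂ × ℂ := Φ (0, t)

theorem FBox.leaf_an (h : FBox v Φ Ψ) : AnalyticAt ℂ (leaf Φ) 0 :=
  AnalyticAt.comp (g := Φ) (f := fun t : ℂ => ((0 : ℂ), t)) (x := 0) h.an (an_axis 0)

/-- the leaf is a separatrix -/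
theorem FBox.sep (h : FBox v Φ Ψ) : Sep v fun _ => leaf Φ where
  an := fun _ => h.leaf_an
  zero := fun _ => h.zero
  coh := fun N => by
    simp only [sub_self]
    exact isBigO_zero _ _
  tan := fun N => by
    have h1 : (fun t => (v (leaf Φ t)).1 * (deriv (leaf Φ) t).2 - (v (leaf Φ t)).2 * (deriv (leaf Φ) t).1) =ᶠ[𝓝 0] fun _ => 0 := by
      filter_upwards [tendsto_axis.eventually (h.tan.and h.an.eventually_analyticAt)] with t ht
      have h2 : HasDerivAt (leaf Φ) (fderiv ℂ Φ (0, t) (0, 1)) t :=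
        HasFDerivAt.comp_hasDerivAt (f := fun t : ℂ => ((0 : ℂ), t)) t ht.2.differentiableAt.hasFDerivAt ((hasDerivAt_const t (0 : ℂ)).prodMk (hasDerivAt_id t))
      rw [h2.deriv]
      exact sub_eq_zero.2 ht.1
    exact IsBigO.congr' (isBigO_zero _ _) h1.symm EventuallyEq.rfl
  nc := by
    refine ⟨1, fun hO => ?_⟩
    have h1 : HasDerivAt (leaf Φ) (fderiv ℂ Φ (0, 0) (0, 1)) 0 :=
      HasFDerivAt.comp_hasDerivAt (f := fun t : ℂ => ((0 : ℂ), t)) 0 (h.an.differentiableAt.hasFDerivAt) ((hasDerivAt_const 0 (0 : ℂ)).prodMk (hasDerivAt_id 0))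
    have h2 : HasDerivAt (leaf Φ) 0 0 := by
      rw [hasDerivAt_iff_isLittleO]
      have h3 : leaf Φ 0 = 0 := h.zero
      simp only [h3, sub_zero, smul_zero]
      refine hO.trans_isLittleO ?_
      have h4 : (fun t : ℂ => t ^ (1 + 1)) =o[𝓝 0] fun t : ℂ => t ^ 1 := isLittleO_pow_pow (by norm_num)
      simpa using h4
    have h3 := h1.unique h2
    have h4 := (fderiv_left h.an h.an' h.zero h.left).self_of_nhds ((0, 1) : ℂ × ℂ)
    have h5 : fderiv ℂ Φ 0 ((0, 1) : ℂ × ℂ) = 0 := h3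
    rw [h5, map_zero] at h4
    exact one_ne_zero (congrArg Prod.snd h4).symm
  alg := fun R _ _ _ => ⟨leaf Φ, h.leaf_an, fun N => by
    simp only [sub_self]
    exact isBigO_zero _ _⟩

/-- the second coordinate -/
theorem snd_bound {Ψ : ℂ × ℂ → ℂ × ℂ} (hΨ : AnalyticAt ℂ Ψ 0) (h0 : Ψ 0 = 0) {v : ℂ × ℂ → ℂ × ℂ} {k : ℕ} (hk : 1 ≤ k) {C : ℝ} (hC : 0 < C)
    (h : ∀ᶠ p in 𝓝 (0 : ℂ × ℂ), ‖p.2‖ ^ k ≤ C * rg v p) : ∃ C' : ℝ, 0 < C' ∧ ∀ᶠ p in 𝓝 (0 : ℂ × ℂ), ‖(Ψ p).2‖ ^ k ≤ C' * rg v p := by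
  have h1 : ContDiffAt ℝ 1 Ψ 0 := hΨ.contDiffAt.restrict_scalars ℝ
  obtain ⟨K, t, ht, hK⟩ := h1.exists_lipschitzOnWith
  have hone : ∀ᶠ p in 𝓝 (0 : ℂ × ℂ), ‖p.1‖ ≤ 1 := by
    filter_upwards [Metric.ball_mem_nhds (0 : ℂ × ℂ) one_pos] with q hq
    rw [mem_ball_zero_iff] at hq
    exact (norm_fst_le q).trans hq.le
  refine ⟨((K : ℝ) + 1) ^ k * (1 + C), by positivity, ?_⟩
  filter_upwards [ht, h, hone] with p hp h2 h3
  have h4 := hK.dist_le_mul p hp 0 (mem_of_mem_nhds ht)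
  rw [h0, dist_zero_right, dist_zero_right] at h4
  have h5 : ‖(Ψ p).2‖ ≤ (K + 1) * ‖p‖ := by
    have := norm_snd_le (Ψ p)
    have := norm_nonneg p
    linarith [(by ring : ((K : ℝ) + 1) * ‖p‖ = K * ‖p‖ + ‖p‖)]
  have h6 : ‖p‖ ^ k ≤ (1 + C) * rg v p := by
    have hg := rg_nonneg v p
    have hx : ‖p.1‖ ≤ rg v p := by
      unfold rg
      have : 0 ≤ ‖p.2‖ * ‖(v p).1‖ := by positivity
      linarith
    have h7 : ‖p.1‖ ^ k ≤ ‖p.1‖ := pow_le_of_le_one (norm_nonneg _) h3 (by omega)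
    rw [Prod.norm_def]
    rcases max_cases ‖p.1‖ ‖p.2‖ with ⟨e, _⟩ | ⟨e, _⟩
    · rw [e]
      nlinarith
    · rw [e]
      nlinarith
  calc ‖(Ψ p).2‖ ^ k ≤ ((K + 1) * ‖p‖) ^ k := pow_le_pow_left₀ (norm_nonneg _) h5 k
    _ = (K + 1) ^ k * ‖p‖ ^ k := mul_pow _ _ _
    _ ≤ (K + 1) ^ k * ((1 + C) * rg v p) := mul_le_mul_of_nonneg_left h6 (by positivity)
    _ = _ := by ring

/-- what holds on a small closed polydisc -/
structure FB (v Φ Ψ : ℂ × ℂ → ℂ × ℂ) (r : ℝ) : Prop where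
  an : ∀ x ∈ closedBall (0 : ℂ × ℂ) r, AnalyticAt ℂ Ψ x
  right : ∀ x ∈ closedBall (0 : ℂ × ℂ) r, Φ (Ψ x) = x
  int : ∀ x ∈ closedBall (0 : ℂ × ℂ) r, (fderiv ℂ Ψ x (v x)).1 = 0
  ne : ∀ x ∈ closedBall (0 : ℂ × ℂ) r, v x ≠ 0

theorem FBox.fb (h : FBox v Φ Ψ) (hv : AnalyticAt ℂ v 0) (h0 : v 0 ≠ 0) : ∀ᶠ r in 𝓝[>] (0 : ℝ), FB v Φ Ψ r := by
  filter_upwards [eventually_cball h.an'.eventually_analyticAt, eventually_cball h.right, eventually_cball h.int,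
    eventually_cball (hv.continuousAt.eventually_ne h0)] with r h1 h2 h3 h4
  exact ⟨h1, h2, h3, h4⟩

section Curve

variable {r : ℝ} {Om : Set ℂ} {p : ℂ → ℂ × ℂ}

theorem FB.an_p (h : FB v Φ Ψ r) (hp : Crv1 v r Om p) {z : ℂ} (hz : z ∈ Om) : AnalyticAt ℂ (fun w => Ψ (p w)) z :=
  AnalyticAt.comp (g := Ψ) (f := p) (h.an _ (ball_subset_closedBall (hp.mem z hz))) (hp.an z hz)

theorem FB.an_X (h : FB v Φ Ψ r) (hp : Crv1 v r Om p) {z : ℂ} (hz : z ∈ Om) : AnalyticAt ℂ (fun w => (Ψ (p w)).1) z := an_fst (h.an_p hp hz)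

theorem FB.an_Y (h : FB v Φ Ψ r) (hp : Crv1 v r Om p) {z : ℂ} (hz : z ∈ Om) : AnalyticAt ℂ (fun w => (Ψ (p w)).2) z := an_snd (h.an_p hp hz)

theorem FB.deriv_X (h : FB v Φ Ψ r) (hp : Crv1 v r Om p) {z : ℂ} (hz : z ∈ Om) : deriv (fun w => (Ψ (p w)).1) z = 0 := by
  have hb := ball_subset_closedBall (hp.mem z hz)
  have h1 : HasDerivAt (fun w => Ψ (p w)) (fderiv ℂ Ψ (p z) (deriv p z)) z :=
    (h.an _ hb).differentiableAt.hasFDerivAt.comp_hasDerivAt z (hp.an z hz).differentiableAt.hasDerivAt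
  have h2 : deriv (fun w => (Ψ (p w)).1) z = (deriv (fun w => Ψ (p w)) z).1 := deriv_fst' (h.an_p hp hz).differentiableAt
  rw [h2, h1.deriv, RegE.deriv_eq hp hz (h.ne _ hb), map_smul, Prod.smul_fst, h.int _ hb, smul_zero]

theorem FB.X_const (h : FB v Φ Ψ r) (hp : Crv1 v r Om p) {z : ℂ} (hz : z ∈ Om) : ∀ᶠ w in 𝓝 z, (Ψ (p w)).1 = (Ψ (p z)).1 := by
  obtain ⟨ε, hε, hsub⟩ := Metric.isOpen_iff.1 hp.isOpen z hz
  filter_upwards [ball_mem_nhds z hε] with w hw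
  exact isOpen_ball.is_const_of_deriv_eq_zero (convex_ball z ε).isPreconnected
    (fun w hw => (h.an_X hp (hsub hw)).differentiableAt.differentiableWithinAt) (fun w hw => h.deriv_X hp (hsub hw)) hw (mem_ball_self hε)

/-- if `Y = 0` near `z` then `ζ' = 0` -/
theorem FB.zt_zero (h : FB v Φ Ψ r) (hp : Crv1 v r Om p) {z : ℂ} (hz : z ∈ Om) (hY : ∀ᶠ w in 𝓝 z, (Ψ (p w)).2 = 0) : ztv v p z = 0 := by
  have h1 : p =ᶠ[𝓝 z] fun _ => Φ ((Ψ (p z)).1, 0) := by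
    filter_upwards [h.X_const hp hz, hY, hp.isOpen.mem_nhds hz] with w e1 e2 e3
    have e4 : Ψ (p w) = ((Ψ (p z)).1, 0) := Prod.ext e1 e2
    rw [← e4, h.right _ (ball_subset_closedBall (hp.mem w e3))]
  have h2 : deriv p z = 0 := by
    rw [h1.deriv_eq, deriv_const]
  have hb := ball_subset_closedBall (hp.mem z hz)
  rw [RegE.deriv_eq hp hz (h.ne _ hb)] at h2
  exact (smul_eq_zero.1 h2).resolve_right (h.ne _ hb)

/-- the coordinates satisfy the hypotheses of the shell lemma, off the zeros of `Y` -/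
theorem FB.axis (h : FB v Φ Ψ r) (hp : Crv1 v r Om p) : AxisA.Axis0 {z | z ∈ Om ∧ (Ψ (p z)).2 ≠ 0} (fun z => (Ψ (p z)).1) (fun z => (Ψ (p z)).2)
    (fun _ => 0) (fun z => deriv (fun w => (Ψ (p w)).2) z / (Ψ (p z)).2) 0 0 where
  isOpen := by
    rw [isOpen_iff_mem_nhds]
    rintro z ⟨hz, h0⟩
    filter_upwards [hp.isOpen.mem_nhds hz, (h.an_Y hp hz).continuousAt.eventually_ne h0] with w h1 h2
    exact ⟨h1, h2⟩
  hx := fun z hz => h.an_X hp hz.1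
  hy := fun z hz => h.an_Y hp hz.1
  ha := fun z _ _ => analyticAt_const
  hb := fun z hz _ => (h.an_Y hp hz.1).deriv.div (h.an_Y hp hz.1) hz.2
  dx := fun z hz _ => by
    rw [mul_zero]
    exact h.deriv_X hp hz.1
  dy := fun z hz _ => (mul_div_cancel₀ _ hz.2).symm
  ab := fun z _ _ => by simp
  closed := fun s hs => by
    have : {z | z ∈ {z | z ∈ Om ∧ (Ψ (p z)).2 ≠ 0} ∧ ‖(Ψ (p z)).1‖ ≤ s ∧ ‖(Ψ (p z)).2‖ ≤ s} = ∅ := by
      ext z
      simp only [mem_setOf_eq, mem_empty_iff_false, iff_false, not_and]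
      intro _ h2
      have := norm_nonneg (Ψ (p z)).1
      linarith
    rw [this]
    exact isClosed_empty

end Curve

end Pool.Agent.MQL

end
end
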