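import Pool.Agent.H43.TL2.M99
import Pool.Agent.H43.TL2.MQL.PtB
import Pool.Agent.H43.TL2.MQL.PtS2

/-! The parts of this file: MQL.PtN, MQL.PtS, MQL.ElemD, MQL.TreeD. -/

section

/-!
# MQL PtN: the points of an invariant exceptional line `{x = 0}`, nodes

`v p = (p.1 * a p, b p)`, `a 0 = λ ≠ 0`, `b_y (0) = μ ≠ 0`, `k λ ≠ l μ` for `k, l ≥ 1`.  `node_zero`: the exponents `(al, 0)`; if `al < 0` one step leads to the
exponents `(1 + al, 0)`, where the package of the second stage applies.  `node_ord`: `be < 0`, `b (x, 0) = x ^ (n + 1) * unit`, induction on `n`.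
-/

set_option autoImplicit false

open Topology Filter Metric MeasureTheory Asymptotics Laplacian

noncomputable section

namespace Pool.Agent.MQL

open Pool.Agent.H17BP (exists_div_x exists_div_y)
open Pool.Agent.MQ Pool.Agent.MQ2

/-- the data of a node on the invariant line `{x = 0}` -/
private structure Nd (a b : ℂ × ℂ → ℂ) : Prop where
  ha : AnalyticAt ℂ a 0
  hb : AnalyticAt ℂ b 0
  ha0 : a 0 ≠ 0
  hb0 : b 0 = 0
  hb1 : fderiv ℂ b 0 (0, 1) ≠ 0
  hq : ∀ k l : ℕ, 1 ≤ k → 1 ≤ l → k * a 0 ≠ l * fderiv ℂ b 0 (0, 1)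

private theorem Nd.ne {a b : ℂ × ℂ → ℂ} (h : Nd a b) : a 0 ≠ fderiv ℂ b 0 (0, 1) := by
  have h1 := h.hq 1 1 le_rfl le_rfl
  simpa using h1

private theorem Nd.hq' {a b : ℂ × ℂ → ℂ} (h : Nd a b) : ∀ k l : ℕ, 1 ≤ k → 1 ≤ l → k * fderiv ℂ b 0 (0, 1) ≠ l * (a 0 - fderiv ℂ b 0 (0, 1)) := by
  intro k l hk hl he
  refine h.hq l (k + l) hl (by omega) ?_
  push_cast
  linear_combination -he

private theorem Nd.iso {a b : ℂ × ℂ → ℂ} (h : Nd a b) : ∀ᶠ p in 𝓝 (0 : ℂ × ℂ), p ≠ 0 → (p.1 * a p, b p) ≠ (0 : ℂ × ℂ) := by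
  have h1 : HasDerivAt (fun y : ℂ => ((0 : ℂ), y)) ((0 : ℂ), (1 : ℂ)) 0 := (hasDerivAt_const _ _).prodMk (hasDerivAt_id _)
  have h2 : HasDerivAt (fun y => b (0, y)) (fderiv ℂ b 0 (0, 1)) 0 := h.hb.differentiableAt.hasFDerivAt.comp_hasDerivAt (0 : ℂ) h1
  have h3 : ∀ᶠ y in 𝓝[≠] (0 : ℂ), b (0, y) ≠ 0 := h2.eventually_ne h.hb1
  rw [eventually_nhdsWithin_iff] at h3
  have hsnd : Tendsto (fun q : ℂ × ℂ => q.2) (𝓝 0) (𝓝 0) := continuous_snd.tendsto' _ _ rfl
  filter_upwards [hsnd.eventually h3, h.ha.continuousAt.eventually_ne h.ha0] with p e1 e2 hp h0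
  rw [Prod.mk_eq_zero] at h0
  have hx : p.1 = 0 := (mul_eq_zero.1 h0.1).resolve_right e2
  have hy : p.2 ≠ 0 := fun hy => hp (Prod.ext hx hy)
  refine e1 hy ?_
  have e3 : ((0 : ℂ), p.2) = p := Prod.ext hx.symm rfl
  rw [e3]
  exact h0.2

private theorem Nd.Iso {a b : ℂ × ℂ → ℂ} (h : Nd a b) : Iso fun p : ℂ × ℂ => (p.1 * a p, b p) :=
  ⟨(analyticAt_fst.mul h.ha).prod h.hb, by simp [h.hb0], h.iso⟩

/-- the transforms at the singular directions are nodes -/
private theorem Nd.child {a b : ℂ × ℂ → ℂ} (h : Nd a b) {t : ℂ} {β : ℂ × ℂ → ℂ} (hβ : PtC a b t β)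
    (h0 : fderiv ℂ b 0 (1, 0) + t * (fderiv ℂ b 0 (0, 1) - a 0) = 0) :
    Nd (fun q => a (be t q)) (fun q : ℂ × ℂ => β q - (q.2 + t) * a (be t q)) where
  ha := hβ.an_a
  hb := hβ.an_b
  ha0 := by
    show a (be t 0) ≠ 0
    rw [pt_be_zero]
    exact h.ha0
  hb0 := by
    show β 0 - ((0 : ℂ × ℂ).2 + t) * a (be t 0) = 0
    rw [← h0]
    exact hβ.val
  hb1 := by
    rw [hβ.dy]
    exact sub_ne_zero.2 h.ne.symm
  hq := by
    intro k l hk hl he
    rw [hβ.dy] at he
    change (k : ℂ) * a (be t 0) = _ at he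
    rw [pt_be_zero] at he
    refine h.hq (k + l) l (by omega) hl ?_
    push_cast
    linear_combination he

/-- the derivative along the first axis -/
private theorem node_fst {b : ℂ × ℂ → ℂ} (hb : AnalyticAt ℂ b 0) : HasDerivAt (fun x : ℂ => b (x, 0)) (fderiv ℂ b 0 (1, 0)) 0 := by
  have h1 : HasDerivAt (fun x : ℂ => (x, (0 : ℂ))) ((1 : ℂ), (0 : ℂ)) 0 := (hasDerivAt_id _).prodMk (hasDerivAt_const _ _)
  have h2 : HasFDerivAt b (fderiv ℂ b 0) ((fun x : ℂ => (x, (0 : ℂ))) 0) := hb.differentiableAt.hasFDerivAt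
  exact HasFDerivAt.comp_hasDerivAt (f := fun x : ℂ => (x, (0 : ℂ))) (l := b) (0 : ℂ) h2 h1

/-- the exponents `(al, 0)` -/
private theorem node_zero {al : ℝ} (hal : -1 < al) {a b : ℂ × ℂ → ℂ} (h : Nd a b) : GoodD DivX al 0 fun p => (p.1 * a p, b p) := by
  by_cases h0 : 0 ≤ al
  · exact GoodD.mono (fun _ _ _ _ => trivial) (goodD_of_good h0 le_rfl (good_of_iso h.Iso))
  · have hbb : ∀ (t : ℂ) (β : ℂ × ℂ → ℂ), PtC a b t β → fderiv ℂ b 0 (1, 0) + t * (fderiv ℂ b 0 (0, 1) - a 0) = 0 →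
        GoodD (TG 1 t DivX) (1 + al + 0) 0 (pw a t β) := fun t β hβ ht =>
      GoodD.mono (fun _ _ _ _ => trivial) (goodD_of_good (by linarith) le_rfl (good_of_iso (h.child hβ ht).Iso))
    refine goodD_one (fun _ hg => hg) hal (by norm_num) h.ha h.hb h.hb0 h.hb1 h.ne h.hq' h.iso (fun h1 β hβ => ?_) (fun t _ ht β hβ => hbb t β hβ ht)
    exact hbb 0 β hβ (by rw [h1, zero_mul, add_zero])

/-- the order of `b (x, 0)` is finite -/
private theorem node_ord {be' : ℝ} (hbe : -1 < be') (n : ℕ) : ∀ (al : ℝ) (a b : ℂ × ℂ → ℂ), -1 < al → Nd a b →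
    (∃ u : ℂ → ℂ, AnalyticAt ℂ u 0 ∧ u 0 ≠ 0 ∧ ∀ᶠ x in 𝓝 (0 : ℂ), b (x, 0) = x ^ (n + 1) * u x) → GoodD DivX al be' fun p => (p.1 * a p, b p) := by
  induction n with
  | zero =>
    intro al a b hal h hu
    obtain ⟨u, hu, hu0, he⟩ := hu
    have hd : fderiv ℂ b 0 (1, 0) ≠ 0 := by
      have h2 : HasDerivAt (fun x : ℂ => b (x, 0)) (fderiv ℂ b 0 (1, 0)) 0 := node_fst h.hb
      have h3 : HasDerivAt (fun x : ℂ => x ^ (0 + 1) * u x) (u 0) 0 := by
        have h4 := (hasDerivAt_id (0 : ℂ)).mul hu.differentiableAt.hasDerivAt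
        have h5 : (fun x : ℂ => x ^ (0 + 1) * u x) = id * u := by
          funext x
          simp
        rw [h5]
        simpa using h4
      rw [h2.unique (h3.congr_of_eventuallyEq he)]
      exact hu0
    refine goodD_one (fun _ hg => hg) hal hbe h.ha h.hb h.hb0 h.hb1 h.ne h.hq' h.iso (fun h1 => absurd h1 hd) (fun t _ ht β hβ => ?_)
    exact GoodD.mono (fun g hg _ _ => tg_divX hg) (node_zero (by linarith) (h.child hβ ht))
  | succ n ih =>
    intro al a b hal h hu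
    obtain ⟨u, hu, hu0, he⟩ := hu
    have hd : fderiv ℂ b 0 (1, 0) = 0 := by
      have h2 : HasDerivAt (fun x : ℂ => b (x, 0)) (fderiv ℂ b 0 (1, 0)) 0 := node_fst h.hb
      have h3 : HasDerivAt (fun x : ℂ => x ^ (n + 1 + 1) * u x) 0 0 := by
        have h4 := (hasDerivAt_pow (n + 1 + 1) (0 : ℂ)).mul hu.differentiableAt.hasDerivAt
        have h5 : (fun x : ℂ => x ^ (n + 1 + 1) * u x) = (fun x : ℂ => x ^ (n + 1 + 1)) * u := rfl
        rw [h5]
        simpa using h4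
      exact h2.unique (h3.congr_of_eventuallyEq he)
    refine goodD_one (fun _ hg => hg) hal hbe h.ha h.hb h.hb0 h.hb1 h.ne h.hq' h.iso (fun _ β hβ => ?_) (fun t ht0 ht β hβ => ?_)
    · have h0 : fderiv ℂ b 0 (1, 0) + 0 * (fderiv ℂ b 0 (0, 1) - a 0) = 0 := by rw [hd, zero_mul, add_zero]
      refine GoodD.mono (fun g hg _ _ => tg_divX hg) (ih (1 + al + be') _ _ (by linarith) (h.child hβ h0) ⟨u, hu, hu0, ?_⟩)
      filter_upwards [he, pt_line'.eventually hβ.eq] with x e1 e2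
      have e3 : be 0 (x, (0 : ℂ)) = (x, 0) := by simp [be]
      rw [e3, e1] at e2
      by_cases hx : x = 0
      · have e4 := (h.child hβ h0).hb0
        rw [hx]
        rw [zero_pow (Nat.succ_ne_zero n), zero_mul]
        exact e4
      · show β (x, 0) - ((x, (0 : ℂ)).2 + 0) * a (be 0 (x, 0)) = x ^ (n + 1) * u x
        have e5 : x * β (x, 0) = x * (x ^ (n + 1) * u x) := by
          rw [← e2]
          ring
        rw [mul_left_cancel₀ hx e5]
        simp
    · exfalso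
      rw [hd, zero_add] at ht
      rcases mul_eq_zero.1 ht with h1 | h1
      · exact ht0 h1
      · exact h.ne (sub_eq_zero.1 h1).symm

theorem goodD_N {al be : ℝ} (hal : -1 < al) (hbe : -1 < be) {a b : ℂ × ℂ → ℂ} (ha : AnalyticAt ℂ a 0) (hb : AnalyticAt ℂ b 0) (ha0 : a 0 ≠ 0) (hb0 : b 0 = 0)
    (hb1 : fderiv ℂ b 0 (0, 1) ≠ 0) (hq : ∀ k l : ℕ, 1 ≤ k → 1 ≤ l → k * a 0 ≠ l * fderiv ℂ b 0 (0, 1)) : GoodD DivX al be fun p => (p.1 * a p, b p) := by
  have h : Nd a b := ⟨ha, hb, ha0, hb0, hb1, hq⟩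
  by_cases hbe0 : 0 ≤ be
  · exact GoodD.exp_zero hbe0 (node_zero hal h)
  · have hbn : be < 0 := not_le.1 hbe0
    have han : AnalyticAt ℂ (fun x : ℂ => b (x, 0)) 0 :=
      AnalyticAt.fun_comp (g := b) (f := fun x : ℂ => (x, (0 : ℂ))) (by exact hb) (analyticAt_id.prod analyticAt_const)
    by_cases hinv : ∀ᶠ x in 𝓝 (0 : ℂ), b (x, 0) = 0
    · -- the corner
      obtain ⟨b₀, hb₀, hbe'⟩ := exists_div_y hb hinv
      have hbe2 : ∀ᶠ p in 𝓝 (0 : ℂ × ℂ), b p = p.2 * b₀ p := by simpa using hbe'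
      have hb00 : b₀ 0 = fderiv ℂ b 0 (0, 1) := by
        have h1 : HasDerivAt (fun y : ℂ => ((0 : ℂ), y)) ((0 : ℂ), (1 : ℂ)) 0 := (hasDerivAt_const _ _).prodMk (hasDerivAt_id _)
        have h2 : HasDerivAt (fun y => b (0, y)) (fderiv ℂ b 0 (0, 1)) 0 := hb.differentiableAt.hasFDerivAt.comp_hasDerivAt (0 : ℂ) h1
        have h3 : HasDerivAt (fun y => b₀ (0, y)) (fderiv ℂ b₀ 0 (0, 1)) 0 := hb₀.differentiableAt.hasFDerivAt.comp_hasDerivAt (0 : ℂ) h1
        have h4 := (hasDerivAt_id (0 : ℂ)).mul h3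
        have h5 : (fun y => b (0, y)) =ᶠ[𝓝 0] (id * fun y => b₀ (0, y)) := by
          filter_upwards [pt_line.eventually hbe2] with y hy
          rw [hy]
          rfl
        have h6 := h2.unique (h4.congr_of_eventuallyEq h5)
        rw [h6]
        simp
        rfl
      have hcor : GoodD GC al be fun p : ℂ × ℂ => (p.1 * a p, p.2 * b₀ p) := goodD_corner hal hbe ha hb₀ ha0 (by rw [hb00]; exact hb1) (by rw [hb00]; exact hq)
      have hcor' : GoodD GC al be fun p : ℂ × ℂ => (p.1 * a p, b p) := by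
        refine hcor.congr ?_
        filter_upwards [hbe2] with p hp
        rw [hp]
      exact GoodD.mono (fun g hg _ hax => gc_of_div hg (hax.snd hbn hinv)) hcor'
    · obtain ⟨n, u, hu, hu0, he⟩ := han.exists_eventuallyEq_pow_smul_nonzero_iff.2 hinv
      have hn : n ≠ 0 := by
        intro h0
        have h1 := he.self_of_nhds
        rw [h0, pow_zero, one_smul] at h1
        exact hu0 (by rw [← h1]; exact hb0)
      obtain ⟨k, rfl⟩ := Nat.exists_eq_succ_of_ne_zero hn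
      refine node_ord hbe k al a b hal h ⟨u, hu, hu0, ?_⟩
      filter_upwards [he] with x hx
      rw [hx, sub_zero, smul_eq_mul]

end Pool.Agent.MQL

end
end

section

/-!
# MQL PtS: saddle-nodes with the strong separatrix `{x = 0}`, which is exceptional
-/

set_option autoImplicit false

open Topology Filter Metric MeasureTheory Asymptotics Laplacian

noncomputable section

namespace Pool.Agent.MQL

open Pool.Agent.H17BP (exists_div_x exists_div_y)
open Pool.Agent.MQ Pool.Agent.MQ2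

/-- the eigenvalues at infinity are opposite -/
theorem pt_hq {a b : ℂ × ℂ → ℂ} (ha0 : a 0 = 0) (hb1 : fderiv ℂ b 0 (0, 1) ≠ 0) (k l : ℕ) (hk : 1 ≤ k) (_hl : 1 ≤ l) :
    k * fderiv ℂ b 0 (0, 1) ≠ l * (a 0 - fderiv ℂ b 0 (0, 1)) := by
  intro h
  rw [ha0] at h
  have h2 : ((k : ℂ) + l) * fderiv ℂ b 0 (0, 1) = 0 := by linear_combination h
  rcases mul_eq_zero.1 h2 with h3 | h3
  · have h4 : ((k + l : ℕ) : ℂ) = 0 := by push_cast; exact h3
    rw [Nat.cast_eq_zero] at h4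
    omega
  · exact hb1 h3

/-- the black box at a singular transform -/
theorem pt_black {P : (ℂ × ℂ → ℂ) → Prop} {al be' : ℝ} (hal : 0 ≤ al) (hbe : 0 ≤ be') {w : ℂ × ℂ → ℂ × ℂ} (hw : Iso w) : GoodD P al be' w :=
  GoodD.mono (fun _ _ _ _ => trivial) (goodD_of_good hal hbe (good_of_iso hw))

/-- the singular transform is an isolated singular point -/
theorem PtC.iso {a b : ℂ × ℂ → ℂ} {t : ℂ} {β : ℂ × ℂ → ℂ} (h : PtC a b t β) (h0 : fderiv ℂ b 0 (1, 0) + t * (fderiv ℂ b 0 (0, 1) - a 0) = 0) : Iso (pw a t β) := by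
  refine ⟨h.child.an, ?_, h.child.iso⟩
  have h1 := h.val
  rw [h0] at h1
  exact Prod.ext (by simp [pw]) h1

/-- the case `be = 0` -/
theorem goodD_S0 {al : ℝ} (hal : -1 < al) {a b : ℂ × ℂ → ℂ} (ha : AnalyticAt ℂ a 0) (hb : AnalyticAt ℂ b 0) (ha0 : a 0 = 0) (hb0 : b 0 = 0)
    (hb1 : fderiv ℂ b 0 (0, 1) ≠ 0) (hiso : ∀ᶠ p in 𝓝 (0 : ℂ × ℂ), p ≠ 0 → (p.1 * a p, b p) ≠ (0 : ℂ × ℂ)) : GoodD DivX al 0 fun p => (p.1 * a p, b p) := by
  rcases le_or_gt 0 al with h | h
  · exact pt_black h le_rfl ⟨(analyticAt_fst.mul ha).prod hb, by simp [hb0], hiso⟩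
  · refine goodD_one (fun _ h => h) hal (by norm_num) ha hb hb0 hb1 (by rw [ha0]; exact hb1.symm) (pt_hq ha0 hb1) hiso ?_ ?_
    · intro h0 β hβ
      exact pt_black (by linarith) le_rfl (hβ.iso (by rw [h0, zero_mul, add_zero]))
    · intro t _ h0 β hβ
      exact pt_black (by linarith) le_rfl (hβ.iso h0)

/-- the case that `{y = 0}` is not invariant, by induction on the order of `b (x, 0)` -/
theorem goodD_S_ni (n : ℕ) : ∀ {al be' : ℝ}, -1 < al → -1 < be' → ∀ {a b : ℂ × ℂ → ℂ}, AnalyticAt ℂ a 0 → AnalyticAt ℂ b 0 → a 0 = 0 → b 0 = 0 →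
    fderiv ℂ b 0 (0, 1) ≠ 0 → (∀ᶠ p in 𝓝 (0 : ℂ × ℂ), p ≠ 0 → (p.1 * a p, b p) ≠ (0 : ℂ × ℂ)) → analyticOrderAt (fun x : ℂ => b (x, 0)) 0 = n →
    GoodD DivX al be' fun p => (p.1 * a p, b p) := by
  induction n with
  | zero =>
    intro al be' hal hbe a b ha hb ha0 hb0 hb1 hiso hn
    exfalso
    have h1 : AnalyticAt ℂ (fun x : ℂ => b (x, 0)) 0 :=
      AnalyticAt.fun_comp (g := b) (f := fun x : ℂ => (x, (0 : ℂ))) (by exact hb) (analyticAt_id.prod analyticAt_const)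
    rw [Nat.cast_zero, h1.analyticOrderAt_eq_zero] at hn
    exact hn hb0
  | succ n ih =>
    intro al be' hal hbe a b ha hb ha0 hb0 hb1 hiso hn
    have h2 : a 0 ≠ fderiv ℂ b 0 (0, 1) := by rw [ha0]; exact hb1.symm
    refine goodD_one (fun _ h => h) hal hbe ha hb hb0 hb1 h2 (pt_hq ha0 hb1) hiso ?_ ?_
    · intro h0 β hβ
      have e0 : (fun q : ℂ × ℂ => β q - (q.2 + 0) * a (be 0 q)) 0 = 0 := hβ.val.trans (by rw [h0, zero_mul, add_zero])
      refine GoodD.mono (fun _ hg _ _ => tg_divX hg) (ih (by linarith) hbe hβ.an_a hβ.an_b (by rw [pt_be_zero]; exact ha0) e0 ?_ hβ.child.iso ?_)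
      · rw [hβ.dy, ha0, sub_zero]; exact hb1
      · -- the order drops by one
        have hβ1 : AnalyticAt ℂ (fun x : ℂ => β (x, 0)) 0 :=
          AnalyticAt.fun_comp (g := β) (f := fun x : ℂ => (x, (0 : ℂ))) (by exact hβ.an) (analyticAt_id.prod analyticAt_const)
        have e1 : (fun x : ℂ => b (x, 0)) =ᶠ[𝓝 0] (fun x : ℂ => x) * fun x => β (x, 0) := by
          filter_upwards [pt_line'.eventually hβ.eq] with x hx
          have : be 0 (x, 0) = (x, 0) := by simp [be]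
          rw [this] at hx
          exact hx
        have e2 : (fun x : ℂ => β (x, 0) - (0 + 0) * a (be 0 (x, 0))) = fun x : ℂ => β (x, 0) := by
          funext x
          rw [add_zero, zero_mul, sub_zero]
        show analyticOrderAt (fun x : ℂ => β (x, 0) - (0 + 0) * a (be 0 (x, 0))) 0 = n
        rw [e2]
        have hid : AnalyticAt ℂ (fun x : ℂ => x) 0 := analyticAt_id
        rw [analyticOrderAt_congr e1, analyticOrderAt_mul hid hβ1] at hn
        have e3 : analyticOrderAt (fun x : ℂ => x) (0 : ℂ) = 1 := analyticOrderAt_id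
        rw [e3] at hn
        cases hm : analyticOrderAt (fun x : ℂ => β (x, 0)) 0 with
        | top =>
          rw [hm, add_top] at hn
          exact absurd hn.symm (ENat.natCast_ne_top (n + 1))
        | coe m' =>
          rw [hm] at hn
          have h3 : 1 + m' = n + 1 := by exact_mod_cast hn
          have h4 : m' = n := by omega
          rw [h4]
    · intro t _ h0 β hβ
      have e0 : (fun q : ℂ × ℂ => β q - (q.2 + t) * a (be t q)) 0 = 0 := hβ.val.trans h0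
      refine GoodD.mono (fun _ hg _ _ => tg_divX hg) (goodD_S0 (by linarith) hβ.an_a hβ.an_b (by rw [pt_be_zero]; exact ha0) e0 ?_ hβ.child.iso)
      rw [hβ.dy, ha0, sub_zero]; exact hb1

/-- MODULE PtS -/
theorem goodD_S {al be' : ℝ} (hal : -1 < al) (hbe : -1 < be') {a b : ℂ × ℂ → ℂ} (ha : AnalyticAt ℂ a 0) (hb : AnalyticAt ℂ b 0) (ha0 : a 0 = 0) (hb0 : b 0 = 0)
    (hb1 : fderiv ℂ b 0 (0, 1) ≠ 0) (hiso : ∀ᶠ p in 𝓝 (0 : ℂ × ℂ), p ≠ 0 → (p.1 * a p, b p) ≠ (0 : ℂ × ℂ)) : GoodD DivX al be' fun p => (p.1 * a p, b p) := by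
  rcases le_or_gt 0 be' with h | h
  · exact GoodD.exp_zero h (goodD_S0 hal ha hb ha0 hb0 hb1 hiso)
  have h1 : AnalyticAt ℂ (fun x : ℂ => b (x, 0)) 0 :=
    AnalyticAt.fun_comp (g := b) (f := fun x : ℂ => (x, (0 : ℂ))) (by exact hb) (analyticAt_id.prod analyticAt_const)
  by_cases ho : analyticOrderAt (fun x : ℂ => b (x, 0)) 0 = ⊤
  · have hinv := analyticOrderAt_eq_top.1 ho
    refine GoodD.mono (fun g hg _ hA => gc_of_div hg (hA.snd h ?_)) (goodD_S_inv hal hbe ha hb ha0 hb0 hb1 hinv hiso)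
    exact hinv
  · obtain ⟨n, hn⟩ := ENat.ne_top_iff_exists.1 ho
    exact goodD_S_ni n hal hbe ha hb ha0 hb0 hb1 hiso hn.symm

end Pool.Agent.MQL

end
end

section

/-!
# MQL ElemD: an elementary reduced singular point, logarithmic version

Blow up once, as `good_elem` (MQ2/TE).  `v (be t p) = x (A, B)`, `w t = (x A, B - (y + t) A)`; `w t 0 = 0` iff `(1, t)` is an eigenvector; with its
eigenvalue `l` and the other one `k`: `A 0 = l`, `∂_y (B - (y + t) A) = k - l` at `0`.  So `w t` is regular (`goodD_reg`), a node (`goodD_N`) or a saddle-node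
(`goodD_S`); the exceptional line is invariant, so `x` divides the new weights.
-/

set_option autoImplicit false

open Topology Filter Metric MeasureTheory Asymptotics Laplacian

noncomputable section

namespace Pool.Agent.MQL

open Pool.Agent.H36.BP (EN)
open Pool.Agent.H30M (tau LogSing)
open Pool.Agent.MQ Pool.Agent.MQ2
open Pool.Agent.MQ2.TE (an_be be_line be_ne tend_be div fderiv_fst fderiv_snd poly_zero iso_swap elem_swap)

namespace ElemD

/-- the classes of the transforms -/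
theorem tg_divX {P : (ℂ × ℂ → ℂ) → Prop} {t : ℂ} (g : ℂ × ℂ → ℂ) (h : TG 1 t P g) : DivX g := by
  obtain ⟨g₀, m, g', -, -, h3, -, h5⟩ := h
  refine ⟨g', h3, ?_⟩
  filter_upwards [h5] with p hp
  rw [hp, pow_one]

/-- the transforms of an elementary reduced singular point -/
theorem child {v : ℂ × ℂ → ℂ × ℂ} (hv : Iso v) (he : Elem v) (t : ℂ) : ∃ w : ℂ × ℂ → ℂ × ℂ, Child 0 1 t v w ∧
    ∀ (al be : ℝ), -1 < al → -1 < be → w 0 = 0 → GoodD DivX al be w := by
  obtain ⟨hva, hv0, hvi⟩ := hv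
  obtain ⟨-, l, k, htr, hdt, hl0, hlk⟩ := he
  have hne : l ≠ k := by
    intro h
    apply hlk 1 1 one_pos one_pos
    rw [h]
  have ha : AnalyticAt ℂ (fun p => (v p).1) 0 := analyticAt_fst.comp hva
  have hb : AnalyticAt ℂ (fun p => (v p).2) 0 := analyticAt_snd.comp hva
  obtain ⟨A, hA, hA1, hA2⟩ := div ha (by rw [hv0]; rfl) t
  obtain ⟨B, hB, hB1, hB2⟩ := div hb (by rw [hv0]; rfl) t
  rw [fderiv_fst hva, fderiv_fst hva] at hA2
  rw [fderiv_snd hva, fderiv_snd hva] at hB2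
  set a₁ := (fderiv ℂ v 0 (1, 0)).1 with ha₁
  set a₂ := (fderiv ℂ v 0 (0, 1)).1 with ha₂
  set b₁ := (fderiv ℂ v 0 (1, 0)).2 with hb₁
  set b₂ := (fderiv ℂ v 0 (0, 1)).2 with hb₂
  set b : ℂ × ℂ → ℂ := fun p => B p - (p.2 + t) * A p with hbdef
  have hban : AnalyticAt ℂ b 0 := hB.sub ((analyticAt_snd.add analyticAt_const).mul hA)
  have hbl : ∀ᶠ y in 𝓝 (0 : ℂ), b (0, y) = b₁ + (b₂ - a₁) * (y + t) + (-a₂) * (y + t) ^ 2 := by
    filter_upwards [hA2, hB2] with y h1 h2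
    show B (0, y) - (y + t) * A (0, y) = _
    rw [h1, h2]
    ring
  -- the polynomial is not zero
  have hbne : ∀ᶠ y in 𝓝[≠] (0 : ℂ), b (0, y) ≠ 0 := by
    have h1 : AnalyticAt ℂ (fun y : ℂ => b (0, y)) 0 := by
      have h2 : AnalyticAt ℂ (fun y : ℂ => ((0 : ℂ), y)) 0 := analyticAt_const.prod analyticAt_id
      have h3 : AnalyticAt ℂ b ((fun y : ℂ => ((0 : ℂ), y)) 0) := hban
      exact h3.comp h2
    rcases h1.eventually_eq_zero_or_eventually_ne_zero with h | h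
    · exfalso
      obtain ⟨e0, e1, e2⟩ := poly_zero (t := t) (by
        filter_upwards [h, hbl] with y hy hy'
        rw [← hy', hy])
      apply hne
      have e3 : (l - k) ^ 2 = 0 := by
        have e4 : b₂ = a₁ := sub_eq_zero.1 e1
        have e5 : a₂ = 0 := neg_eq_zero.1 e2
        rw [e4] at htr hdt
        rw [e5] at hdt
        linear_combination (l + k + 2 * a₁) * htr - 4 * hdt
      exact sub_eq_zero.1 (pow_eq_zero_iff two_ne_zero |>.1 e3)
    · exact h
  have hiso : ∀ᶠ p in 𝓝 (0 : ℂ × ℂ), p ≠ 0 → (p.1 * A p, b p) ≠ (0 : ℂ × ℂ) := by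
    have h1 : ∀ᶠ p in 𝓝 (0 : ℂ × ℂ), p.2 ≠ 0 → b (0, p.2) ≠ 0 := by
      have h2 : Tendsto (fun p : ℂ × ℂ => p.2) (𝓝 0) (𝓝 0) := continuous_snd.tendsto' 0 0 rfl
      exact h2.eventually (eventually_nhdsWithin_iff.1 hbne)
    have h3 := (tend_be t).eventually hvi
    filter_upwards [h1, h3, hA1, hB1] with p hp1 hp3 hpA hpB hp0 hw
    have w1 : p.1 * A p = 0 := congrArg Prod.fst hw
    have w2 : b p = 0 := congrArg Prod.snd hw
    by_cases hx : p.1 = 0
    · have hy : p.2 ≠ 0 := fun hy => hp0 (Prod.ext hx hy)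
      apply hp1 hy
      have hp' : p = (0, p.2) := Prod.ext hx rfl
      rw [← hp']
      exact w2
    · have hA0 : A p = 0 := (mul_eq_zero.1 w1).resolve_left hx
      have hB0 : B p = 0 := by
        have : B p - (p.2 + t) * A p = 0 := w2
        rw [hA0, mul_zero, sub_zero] at this
        exact this
      apply hp3 (be_ne hx)
      apply Prod.ext
      · rw [hpA, hA0, mul_zero]
        rfl
      · rw [hpB, hB0, mul_zero]
        rfl
  refine ⟨fun p => (p.1 * A p, b p), ⟨?_, ?_, ?_, ?_, Or.inl ⟨rfl, ?_⟩⟩, ?_⟩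
  · exact (analyticAt_fst.mul hA).prod hban
  · filter_upwards [hA1] with p hp
    rw [hp, pow_zero, one_mul]
  · filter_upwards [hA1, hB1] with p hp hp'
    rw [hp, hp']
    show p.1 * B p = (p.2 + t) * (p.1 * A p) + p.1 ^ (0 + 1) * (B p - (p.2 + t) * A p)
    ring
  · exact hiso
  · exact Eventually.of_forall fun y => by
      show (0 : ℂ) * A (0, y) = 0
      rw [zero_mul]
  · intro al be hal hbe hw0
    have hb0 : b 0 = 0 := congrArg Prod.snd hw0
    have hA0 : A 0 = a₁ + t * a₂ := by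
      have h1 := hA2.self_of_nhds
      rw [zero_add] at h1
      exact h1
    have hb0' : b₁ + (b₂ - a₁) * t + (-a₂) * t ^ 2 = 0 := by
      have h1 := hbl.self_of_nhds
      rw [zero_add] at h1
      rw [← h1]
      exact hb0
    have hbd : fderiv ℂ b 0 (0, 1) = b₂ - a₁ - 2 * t * a₂ := by
      have h1 : HasDerivAt (fun y : ℂ => b (0, y)) (fderiv ℂ b 0 (0, 1)) 0 := by
        have h2 : HasDerivAt (fun y : ℂ => ((0 : ℂ), y)) ((0 : ℂ), (1 : ℂ)) 0 :=
          (hasDerivAt_const (0 : ℂ) (0 : ℂ)).prodMk (hasDerivAt_id (0 : ℂ))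
        have h3 : HasFDerivAt b (fderiv ℂ b 0) ((fun y : ℂ => ((0 : ℂ), y)) 0) := hban.differentiableAt.hasFDerivAt
        exact HasFDerivAt.comp_hasDerivAt (f := fun y : ℂ => ((0 : ℂ), y)) (0 : ℂ) h3 h2
      have h4 : HasDerivAt (fun y : ℂ => b₁ + (b₂ - a₁) * (y + t) + (-a₂) * (y + t) ^ 2)
          ((b₂ - a₁) * 1 + (-a₂) * (2 * (0 + t) ^ 1 * 1)) 0 := by
        have h5 : HasDerivAt (fun y : ℂ => y + t) 1 0 := (hasDerivAt_id (0 : ℂ)).add_const t
        exact ((h5.const_mul (b₂ - a₁)).const_add b₁).add ((h5.pow 2).const_mul (-a₂))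
      have h6 := h4.congr_of_eventuallyEq hbl
      rw [h1.unique h6]
      ring
    -- the eigenvalues
    set μ := fderiv ℂ b 0 (0, 1) with hμ
    have e1 : A 0 + (A 0 + μ) = l + k := by
      rw [hA0, hbd, htr]
      ring
    have e2 : A 0 * (A 0 + μ) = l * k := by
      rw [hA0, hbd, hdt]
      linear_combination a₂ * hb0'
    have e3 : (A 0 - l) * (A 0 - k) = 0 := by
      linear_combination A 0 * e1 - e2
    rcases mul_eq_zero.1 e3 with e4 | e4
    · have e5 : A 0 = l := sub_eq_zero.1 e4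
      have e6 : μ = k - l := by linear_combination e1 - 2 * e5
      refine goodD_N hal hbe hA hban (by rw [e5]; exact hl0) hb0 (by rw [← hμ, e6]; exact sub_ne_zero.2 hne.symm) ?_
      intro m n hm hn h
      rw [← hμ, e5, e6] at h
      apply hlk (m + n) n (by omega) hn
      push_cast
      linear_combination h
    · have e5 : A 0 = k := sub_eq_zero.1 e4
      have e6 : μ = l - k := by linear_combination e1 - 2 * e5
      have e7 : μ ≠ 0 := by rw [e6]; exact sub_ne_zero.2 hne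
      by_cases hk : k = 0
      · exact goodD_S hal hbe hA hban (by rw [e5]; exact hk) hb0 e7 hiso
      · refine goodD_N hal hbe hA hban (by rw [e5]; exact hk) hb0 e7 ?_
        intro m n hm hn h
        rw [← hμ, e5, e6] at h
        apply hlk n (m + n) hn (by omega)
        push_cast
        linear_combination -h

/-- the package for a transform -/
theorem good_child {v : ℂ × ℂ → ℂ × ℂ} (hv : Iso v) (he : Elem v) (t : ℂ) : ∃ w : ℂ × ℂ → ℂ × ℂ, Child 0 1 t v w ∧
    ∀ (P : (ℂ × ℂ → ℂ) → Prop) (al be : ℝ), -1 < al → -1 < be → GoodD (TG 1 t P) al be w := by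
  obtain ⟨w, hw, h⟩ := child hv he t
  refine ⟨w, hw, fun P al be hal hbe => ?_⟩
  by_cases h0 : w 0 = 0
  · exact GoodD.mono (P' := DivX) (fun g hg _ _ => tg_divX g hg) (h al be hal hbe h0)
  · exact GoodD.mono (P' := GT) (fun _ _ _ _ => trivial) (goodD_reg hal hbe hw.an h0)

end ElemD

/-- module ElemD: one blow-up; the singular directions are the two eigenvalue directions, nodes or saddle-nodes -/
theorem goodD_elem {al be : ℝ} (hal : -1 < al) (hbe : -1 < be) {v : ℂ × ℂ → ℂ × ℂ} (hv : Iso v) (he : Elem v) : GoodD GT al be v := by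
  choose w hw hg using ElemD.good_child hv he
  obtain ⟨wi, hwi, hgi⟩ := ElemD.good_child (iso_swap hv) (elem_swap hv.1 he) 0
  have h1 : -1 < 1 + al + be := by linarith
  exact goodD_step hal hbe hv hw hwi (hg 0 GT _ _ h1 hbe) (fun t _ => hg t GT _ _ h1 (by norm_num)) (hgi (SG GT) _ _ h1 hal)

end Pool.Agent.MQL

end
end

section

/-!
# MQL TreeD: the logarithmic package at every isolated singular point

Induction over the tree of blow-ups, for all exponents at once: the exponents of the children are `1 + al + be`, `al`, `be`, `0`, all greater than `-1`.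
-/

set_option autoImplicit false

open Topology Filter Metric MeasureTheory Asymptotics Laplacian

noncomputable section

namespace Pool.Agent.MQL

open Pool.Agent.H36.BP (EN)
open Pool.Agent.H30M (tau LogSing)
open Pool.Agent.MQ Pool.Agent.MQ2

theorem goodD_of_tree {v : ℂ × ℂ → ℂ × ℂ} (ht : Tree v) : AnalyticAt ℂ v 0 → (∀ᶠ p in 𝓝 (0 : ℂ × ℂ), p ≠ 0 → v p ≠ 0) →
    ∀ al be : ℝ, -1 < al → -1 < be → GoodD GT al be v := by
  induction ht with
  | reg v h0 =>
    intro hv _ al be hal hbe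
    exact goodD_reg hal hbe hv h0
  | elem v he =>
    intro hv hi al be hal hbe
    exact goodD_elem hal hbe ⟨hv, he.1, hi⟩ he
  | blow v e ι w wi hw hwi _ _ ih ihi =>
    intro hv hi al be hal hbe
    by_cases h0 : v 0 = 0
    · have h1 : -1 < 1 + al + be := by linarith
      refine goodD_step hal hbe ⟨hv, h0, hi⟩ hw hwi ?_ (fun t _ => ?_) ?_
      · exact (ih 0 (hw 0).an (hw 0).iso _ _ h1 hbe).mono fun _ _ _ _ => trivial
      · exact (ih t (hw t).an (hw t).iso _ _ h1 neg_one_lt_zero).mono fun _ _ _ _ => trivial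
      · exact (ihi hwi.an hwi.iso _ _ h1 hal).mono fun _ _ _ _ => trivial
    · exact goodD_reg hal hbe hv h0

/-- module TreeD: the logarithmic package at every isolated singular point -/
theorem goodD_of_iso {al be : ℝ} (hal : -1 < al) (hbe : -1 < be) {v : ℂ × ℂ → ℂ × ℂ} (hv : Iso v) : GoodD GT al be v :=
  goodD_of_tree (tree_of_iso hv) hv.1 hv.2.2 al be hal hbe

end Pool.Agent.MQL

end
end
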