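import Pool.Agent.H43.TL2.H17BP.ResS
import Pool.Agent.H43.TL2.M27
import Pool.Agent.H43.TL2.M37
import Pool.Agent.H43.TL2.M42
import Pool.Agent.H43.TL2.M44
import Pool.Agent.H43.TL2.M72
import Pool.Agent.H43.TL2.M76
import Pool.Agent.H43.TL2.M77
import Pool.Agent.H43.TL2.M89

/-! The parts of this file: H17BP.ResS_1, H36.BP.Main, H36.BPB.Main, H36.BPB.Brody, H17BP.BlowM. -/

section

/-!
# The resolution number at a point of the surface

* `ResAt.chart`: let `σ, τ, g` be as in `ResAt`; `σ' p = c • σ (θ p)`, `c ≠ 0` near `0` (`IsChart.trans`).  As `B` is a cone,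
  `σ' p ∈ B ↔ σ (θ p) ∈ B ↔ g (θ p) = 0`: `g ∘ θ` is a local equation, `ResN.comp`.
* `ResAt.pr`: `IsChart.scale` of the chart (the value at `0` is `a • x = y`) and `ResAt.chart`.
* `ResAt.near`: for `y ∈ X` near `x`: `y = c • σ (τ y)`, `p = τ y` near `0` (`τ x = 0`); `p ≠ 0` because `y` is not proportional
  to `x = σ 0`.  `IsChart.near`: `x ↦ σ (p + x)` is a chart at `σ p`, `g (p + ·)` a local equation
  (`eventually_eventually_nhds`), `Mono` by `ResN.near`.  So `ResAt X B (σ p) 0`, then `ResAt.pr`.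
* `exists_resAt`: choose a chart `σ` at `x` (`Surface.chart`) and `i` (`Eqs.gen`); `g p = Q i (σ p)` is analytic at `0`, and for
  `p` near `0`: `σ p ∈ B ↔ g p = 0` (`mem_iff`, `gen`); `g` does not vanish identically near `0` by `thin`; `exists_resN`.
* `ResAt.of_notMem`: `x ∉ B`: with `i` and `g` as before, `g 0 = Q i x ≠ 0` (otherwise `x ∈ B` by `gen`,
  `self_of_nhds`), so `Mono g` with `a = b = 0`.
* `ResAt.nodal`: `g = S^a T^b u`.  Let `θ = (S, T)`, `θ'` the inverse germ; the chart `σ ∘ θ'` (`IsChart.comp`), in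
  which `B` is given by `g (θ' x) = x.1^a x.2^b u(θ' x) = 0`.  If `a = b = 0`: not in `B` near `0`; `b = 0`, `a ≠ 0`: `x.1 = 0`;
  `a ≠ 0`, `b ≠ 0`: `x.1 x.2 = 0`; `a = 0`, `b ≠ 0`: exchange `S`, `T` (`Coord.symm`).
-/

open Topology Filter

noncomputable section

namespace Pool.Agent.H17BP

variable {V : Type} [NormedAddCommGroup V] [NormedSpace ℂ V] {X B : Set V} {σ' : ℂ × ℂ → V} {τ' : V → ℂ × ℂ}
  {x y : V} {n k : ℕ}

theorem ResAt.mono_le (h : ResAt X B x n) (hnk : n ≤ k) : ResAt X B x k := by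
  obtain ⟨σ, τ, g, h1, h2, h3, h4⟩ := h
  exact ⟨σ, τ, g, h1, h2, h3, h4.mono_le hnk⟩

theorem ResAt.chart (hX : ∀ x ∈ X, ∀ c : ℂ, c ≠ 0 → c • x ∈ X) (hB : ∀ x ∈ B, ∀ c : ℂ, c ≠ 0 → c • x ∈ B)
    (h : ResAt X B x n) (h' : IsChart X σ' τ') (h0 : Pr (σ' 0) x) : ∃ g, LocalEq B σ' g ∧ ResN n g := by
  obtain ⟨σ, τ, g, hc, hx, hg, hr⟩ := h
  rw [← hx] at h0
  obtain ⟨θ, hθ, hev⟩ := IsChart.trans hX hc h' h0
  refine ⟨g ∘ θ, ⟨?_, ?_⟩, hr.comp hθ⟩
  · have h1 : AnalyticAt ℂ g (θ 0) := by rw [hθ.zero]; exact hg.1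
    exact h1.comp hθ.an
  · filter_upwards [hev, hθ.tendsto.eventually hg.2] with p hp1 hp2
    rw [ResS_pr_mem hB hp1]
    exact hp2

/-- Near `x` the curve is a monomial in local coordinates at all points different from `x`. -/
theorem ResAt.near [FiniteDimensional ℂ V] (hX : ∀ x ∈ X, ∀ c : ℂ, c ≠ 0 → c • x ∈ X) (hB : ∀ x ∈ B, ∀ c : ℂ, c ≠ 0 → c • x ∈ B)
    (h : ResAt X B x n) : ∀ᶠ y in 𝓝 x, y ∈ X → ¬ Pr y x → ResAt X B y 0 := by
  obtain ⟨σ, τ, g, hc, hx, hg, hr⟩ := h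
  have hτ0 : τ (σ 0) = 0 := hc.left.self_of_nhds
  have hτ : Tendsto τ (𝓝 (σ 0)) (𝓝 0) := by
    have h1 := hc.τ_an.continuousAt.tendsto
    rwa [hτ0] at h1
  have hadd : ∀ p : ℂ × ℂ, Tendsto (fun x : ℂ × ℂ => p + x) (𝓝 0) (𝓝 p) := fun p => by
    have h1 : Continuous fun x : ℂ × ℂ => p + x := by fun_prop
    have h2 := h1.tendsto 0
    simpa using h2
  have e1 : ∀ᶠ p in 𝓝 (0 : ℂ × ℂ), LocalEq B (fun x => σ (p + x)) (fun x => g (p + x)) := by
    filter_upwards [hg.1.eventually_analyticAt, eventually_eventually_nhds.2 hg.2] with p hp1 hp2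
    refine ⟨?_, (hadd p).eventually hp2⟩
    have h1 : AnalyticAt ℂ (fun x : ℂ × ℂ => p + x) 0 := analyticAt_const.add analyticAt_id
    have h2 : AnalyticAt ℂ g ((fun x : ℂ × ℂ => p + x) 0) := by
      simp only [add_zero]
      exact hp1
    exact h2.comp h1
  have e2 : ∀ᶠ p in 𝓝 (0 : ℂ × ℂ), p ≠ 0 → Mono fun x => g (p + x) :=
    eventually_nhdsWithin_iff.1 (ResN.near hr)
  have e3 : ∀ᶠ p in 𝓝 (0 : ℂ × ℂ), p ≠ 0 → ResAt X B (σ p) 0 := by
    filter_upwards [hc.near, e1, e2] with p hp1 hp2 hp3 hp0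
    exact ⟨_, _, _, hp1, by simp, hp2, hp3 hp0⟩
  rw [← hx]
  filter_upwards [hc.right, hτ.eventually e3] with y hy1 hy2 hyX hyn
  obtain ⟨c, hc0, hyc⟩ := hy1 hyX
  have hne : τ y ≠ 0 := by
    intro h0
    rw [h0] at hyc
    exact hyn ⟨c, hc0, hyc⟩
  exact (hy2 hne).pr hX hB ⟨c, hc0, hyc⟩

private theorem ResS_localEq (hX : Surface X) {κ : Type} {Q : κ → V → ℂ} {D : ℕ} (hE : Eqs X B Q D)
    (hx : x ∈ X) : ∃ σ τ g, IsChart X σ τ ∧ σ 0 = x ∧ LocalEq B σ g := by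
  obtain ⟨σ, τ, hc, hσ⟩ := hX.chart x hx
  obtain ⟨i, hi⟩ := hE.gen x hx
  refine ⟨σ, τ, fun p => Q i (σ p), hc, hσ, (hE.an i (σ 0)).comp hc.σ_an, ?_⟩
  have ht : Tendsto σ (𝓝 0) (𝓝 x) := by
    have h1 := hc.σ_an.continuousAt.tendsto
    rwa [hσ] at h1
  filter_upwards [hc.σ_mem, ht.eventually hi] with p hp1 hp2
  exact ⟨fun h => ((hE.mem_iff _).1 h).2 i, fun h => hp2 hp1 h⟩

theorem exists_resAt (hX : Surface X) {κ : Type} {Q : κ → V → ℂ} {D : ℕ} (hE : Eqs X B Q D)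
    (ht : ∀ σ τ, IsChart X σ τ → ∃ᶠ p in 𝓝 (0 : ℂ × ℂ), σ p ∉ B) (hx : x ∈ X) : ∃ n, ResAt X B x n := by
  obtain ⟨σ, τ, g, hc, hσ, hg⟩ := ResS_localEq hX hE hx
  have hne : ¬ ∀ᶠ p in 𝓝 (0 : ℂ × ℂ), g p = 0 := by
    intro h0
    have h1 := ht σ τ hc
    refine h1 ?_
    filter_upwards [hg.2, h0] with p hp1 hp2 hp3
    exact hp3 (hp1.2 hp2)
  obtain ⟨n, hn⟩ := exists_resN hg.1 hne
  exact ⟨n, σ, τ, g, hc, hσ, hg, hn⟩

theorem ResAt.of_notMem (hX : Surface X) {κ : Type} {Q : κ → V → ℂ} {D : ℕ} (hE : Eqs X B Q D) (hx : x ∈ X)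
    (hB : x ∉ B) : ResAt X B x 0 := by
  obtain ⟨σ, τ, g, hc, hσ, hg⟩ := ResS_localEq hX hE hx
  have h1 := hg.2.self_of_nhds
  rw [hσ] at h1
  have hne : g 0 ≠ 0 := fun h0 => hB (h1.2 h0)
  have hm : Mono g := ⟨_, _, 0, 0, g, coord_fst_snd, hg.1, hne, Eventually.of_forall fun p => by simp⟩
  exact ⟨σ, τ, g, hc, hσ, hg, hm⟩

private theorem ResS_nodal_aux {σ : ℂ × ℂ → V} {τ : V → ℂ × ℂ} {g : ℂ × ℂ → ℂ} (hc : IsChart X σ τ)
    (hx : σ 0 = x) (hg : LocalEq B σ g) {S T u : ℂ × ℂ → ℂ} {a b : ℕ} (hST : Coord S T)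
    (hu : AnalyticAt ℂ u 0) (hu0 : u 0 ≠ 0) (hev : ∀ᶠ x in 𝓝 0, g x = S x ^ a * T x ^ b * u x)
    (hab : a = 0 → b = 0) : NodalAt X B x := by
  have hθ : Bihol fun x => (S x, T x) := hST
  obtain ⟨θ', hθ', h1, h2⟩ := hθ.exists_inv
  have hne : ∀ᶠ p in 𝓝 (0 : ℂ × ℂ), u p ≠ 0 := hu.continuousAt.eventually_ne hu0
  have hkey : ∀ᶠ p in 𝓝 (0 : ℂ × ℂ), (σ (θ' p) ∈ B ↔ p.1 ^ a * p.2 ^ b = 0) := by
    filter_upwards [hθ'.tendsto.eventually hg.2, hθ'.tendsto.eventually hev, hθ'.tendsto.eventually hne, h2]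
      with p hp1 hp2 hp3 hp4
    have e1 : S (θ' p) = p.1 := congrArg Prod.fst hp4
    have e2 : T (θ' p) = p.2 := congrArg Prod.snd hp4
    rw [hp1, hp2, e1, e2, mul_eq_zero]
    exact ⟨fun h => h.resolve_right hp3, Or.inl⟩
  refine ⟨_, _, hc.comp hθ' hθ h2 h1, ?_, ?_⟩
  · show σ (θ' 0) = x
    rw [hθ'.zero, hx]
  · by_cases ha : a = 0
    · left
      have hb := hab ha
      subst ha
      subst hb
      filter_upwards [hkey] with p hp h3
      have h4 := hp.1 h3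
      simp at h4
    · right
      by_cases hb : b = 0
      · left
        subst hb
        filter_upwards [hkey] with p hp
        rw [hp, pow_zero, mul_one]
        exact ⟨fun h => eq_zero_of_pow_eq_zero h, fun h => by rw [h, zero_pow ha]⟩
      · right
        filter_upwards [hkey] with p hp
        rw [hp, mul_eq_zero, mul_eq_zero]
        refine or_congr ?_ ?_
        · exact ⟨fun h => eq_zero_of_pow_eq_zero h, fun h => by rw [h, zero_pow ha]⟩
        · exact ⟨fun h => eq_zero_of_pow_eq_zero h, fun h => by rw [h, zero_pow hb]⟩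

theorem ResAt.nodal (h : ResAt X B x 0) : NodalAt X B x := by
  obtain ⟨σ, τ, g, hc, hx, hg, hr⟩ := h
  obtain ⟨S, T, a, b, u, hST, hu, hu0, hev⟩ := (hr : Mono g)
  by_cases hab : a = 0 → b = 0
  · exact ResS_nodal_aux hc hx hg hST hu hu0 hev hab
  · push Not at hab
    refine ResS_nodal_aux hc hx hg hST.symm hu hu0 (a := b) (b := a) ?_ (fun h => absurd h hab.2)
    filter_upwards [hev] with p hp
    rw [hp, mul_comm (S p ^ a)]

end Pool.Agent.H17BP

end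
end

section

/-!
# BP Main: the main theorems of the function theory half

`picard`: let `F` be a lift on `0 < |z| < 1/2` (`lift_punct`), `F₁ z = F(z/2)`.  If `wd F F' = 0` near a point then `f` is constant near a point, so it is constant on the punctured disc and extends.  `F` lies in `B` near no point
(`vanish_identity`).  `exists_pos` gives `z₁` with positive metric; `brody_bound`, `growth`, `bounded_lifts`, `puncture_limit` give `Q` near `0`; glue.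
-/

set_option autoImplicit false

namespace Pool.Agent.H36.BP

open Filter Topology Metric

variable {N : ℕ}

open Pool.Agent.H17 (PN HolomorphicInto puncturedDisc VanishesAt vanishesAt_mk_iff)

variable {K B : Set (EN N)} {G : EN N → EN N → ℝ} {ρ : EN N → ℝ} {M : ℕ} {c₀ C : ℝ}

theorem brodyMod_of {X Z : Set (PN N)}
    (hB : ∀ f : ℂ → PN N, HolomorphicInto f Set.univ → (∀ z, f z ∈ X) → (∃ z w, f z ≠ f w) → ∀ z, f z ∈ Z) :
    BrodyMod (coneOf X) (coneOf Z) := by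
  intro F hF hK hne z
  set f : ℂ → PN N := fun z => Projectivization.mk ℂ _ (hK z).choose with hf
  have h1 : HolomorphicInto f Set.univ := by
    intro z₀ _
    refine ⟨fun w => (F w).ofLp, analyticAt_ofLp (hF.analyticAt z₀), ?_⟩
    exact Filter.Eventually.of_forall fun w => ⟨(hK w).choose, rfl⟩
  have h2 : ∀ z, f z ∈ X := fun z => (hK z).choose_spec
  refine ⟨(hK z).choose, hB f h1 h2 ?_ z⟩
  obtain ⟨a, b, hab⟩ := hne
  refine ⟨a, b, fun h => ?_⟩
  rw [hf] at h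
  simp only at h
  rw [Projectivization.mk_eq_mk_iff'] at h
  obtain ⟨c, hc⟩ := h
  apply hab c
  ext i
  exact (congrFun hc i).symm

/-- if the wedge of a curve with its derivative vanishes near a point then the curve is projectively constant near this point -/
theorem const_of_wedge {F : ℂ → EN N} {z : ℂ} (hF : AnalyticAt ℂ F z) (h0 : F z ≠ 0) (hw : ∀ᶠ w in 𝓝 z, wd (F w) (deriv F w) = 0) :
    ∀ᶠ w in 𝓝 z, ∃ c : ℂ, c ≠ 0 ∧ F w = c • F z := by
  obtain ⟨j, hj⟩ : ∃ j, (F z) j ≠ 0 := by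
    by_contra hcon
    push Not at hcon
    exact h0 (by ext i; exact hcon i)
  have hcoord : ∀ i, AnalyticAt ℂ (fun w => F w i) z := fun i => analyticAt_pi_iff.mp (analyticAt_ofLp hF) i
  have hne : ∀ᶠ w in 𝓝 z, F w j ≠ 0 := (hcoord j).continuousAt.eventually_ne hj
  obtain ⟨r, hr, hr1⟩ := Metric.eventually_nhds_iff_ball.mp ((hF.eventually_analyticAt.and hne).and hw)
  have hder : ∀ w ∈ ball z r, ∀ i, HasDerivAt (fun w => F w i) (deriv F w i) w := by
    intro w hw' i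
    have h1 : HasDerivAt F (deriv F w) w := (hr1 w hw').1.1.differentiableAt.hasDerivAt
    have h2 := ((EuclideanSpace.equiv (Fin (N + 1)) ℂ) : EN N →L[ℂ] (Fin (N + 1) → ℂ)).hasFDerivAt.comp_hasDerivAt w h1
    exact (hasDerivAt_pi.mp h2) i
  have hconst : ∀ i, ∀ w ∈ ball z r, F w i / F w j = F z i / F z j := by
    intro i w hw'
    have hd : ∀ y ∈ ball z r, HasDerivAt (fun w => F w i / F w j) 0 y := by
      intro y hy
      have h3 := (hder y hy i).div (hder y hy j) (hr1 y hy).1.2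
      have hFy : F y ≠ 0 := by
        intro h
        apply (hr1 y hy).1.2
        rw [h]; rfl
      obtain ⟨a, ha⟩ := (wd_eq_zero hFy).mp (hr1 y hy).2
      have h4 : (deriv F y i * F y j - F y i * deriv F y j) / F y j ^ 2 = 0 := by
        rw [ha]
        simp only [PiLp.smul_apply, smul_eq_mul]
        ring
      rwa [h4] at h3
    have hdo : DifferentiableOn ℂ (fun w => F w i / F w j) (ball z r) := fun y hy => (hd y hy).differentiableAt.differentiableWithinAt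
    exact (convex_ball z r).is_const_of_fderivWithin_eq_zero (𝕜 := ℂ) hdo (by
      intro y hy
      rw [fderivWithin_of_isOpen isOpen_ball hy]
      have := (hd y hy).hasFDerivAt.fderiv
      rw [this]
      ext
      simp) hw' (mem_ball_self hr)
  filter_upwards [ball_mem_nhds z hr] with w hw'
  refine ⟨F w j / F z j, div_ne_zero (hr1 w hw').1.2 hj, ?_⟩
  ext i
  have h5 := hconst i w hw'
  have h6 := (hr1 w hw').1.2
  simp only [PiLp.smul_apply, smul_eq_mul]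
  field_simp at h5 ⊢
  linear_combination h5

/-- Kobayashi hyperbolicity modulo the exceptional set: all lifts of all discs -/
theorem kobayashi_of_bound {X Z : Set (PN N)} (hM : MetricData (coneOf X) (coneOf Z) G ρ M c₀ C)
    (hbound : ∃ L : ℝ, 0 < L ∧ ∀ F, Curve (coneOf X) (ball 0 1) F → mt G F 0 ≤ L) :
    ∃ L : ℝ, 0 < L ∧ ∀ (f : ℂ → PN N) (F : ℂ → EN N), HolomorphicInto f (ball 0 1) → (∀ z ∈ ball (0 : ℂ) 1, f z ∈ X) →
      AnalyticAt ℂ F 0 → (∀ᶠ z in 𝓝 (0 : ℂ), ∃ h : (F z).ofLp ≠ 0, f z = Projectivization.mk ℂ _ h) →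
      ρ (F 0) ^ M * fs (F 0) (deriv F 0) ≤ L := by
  obtain ⟨L, hL, hLb⟩ := hbound
  refine ⟨2 * L, by positivity, fun f F hf hfX hF hFf => ?_⟩
  obtain ⟨F₁, hF1d, hF1f⟩ := lift_disc hf (r := 1 / 2) (by norm_num) (by norm_num)
  have h0mem : (0 : ℂ) ∈ ball (0 : ℂ) (1 / 2) := mem_ball_self (by norm_num)
  have hF10 : F₁ 0 ≠ 0 := ne_zero_of_ofLp (hF1f 0 h0mem).choose
  have hF1a : AnalyticAt ℂ F₁ 0 := hF1d.analyticAt (isOpen_ball.mem_nhds h0mem)
  have hF1K : ∀ z ∈ ball (0 : ℂ) (1 / 2), F₁ z ∈ coneOf X := by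
    intro z hz
    obtain ⟨h1, h2⟩ := hF1f z hz
    exact ⟨h1, by rw [← h2]; exact hfX z (ball_subset_ball (by norm_num) hz)⟩
  -- the scaled curve
  have hcur : Curve (coneOf X) (ball 0 1) (fun z => F₁ (z / 2)) := by
    have hh : ∀ z ∈ ball (0 : ℂ) 1, z / 2 ∈ ball (0 : ℂ) (1 / 2) := by
      intro z hz
      rw [mem_ball_zero_iff] at hz ⊢
      rw [norm_div]
      simp only [Complex.norm_ofNat]
      linarith
    refine ⟨fun z hz => ?_, fun z hz => hF1K _ (hh z hz)⟩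
    have h1 : DifferentiableAt ℂ F₁ (z / 2) := hF1d.differentiableAt (isOpen_ball.mem_nhds (hh z hz))
    exact (h1.comp z (differentiableAt_id.div_const 2)).differentiableWithinAt
  have hb := hLb _ hcur
  have hdz : HasDerivAt (fun z : ℂ => z / 2) (1 / 2) 0 := by simpa using (hasDerivAt_id (0 : ℂ)).div_const 2
  have e1 : mt G (fun z => F₁ (z / 2)) 0 = ‖deriv (fun z : ℂ => z / 2) 0‖ * mt G F₁ ((fun z : ℂ => z / 2) 0) := by
    refine mt_comp hM (φ := fun z : ℂ => z / 2) ?_ hdz.differentiableAt ?_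
    · simpa using hF1a.differentiableAt
    · simpa using hF1K 0 h0mem
  rw [hdz.deriv] at e1
  simp only [zero_div] at e1
  have hn : ‖(1 / 2 : ℂ)‖ = 1 / 2 := by norm_num
  rw [hn] at e1
  rw [e1] at hb
  -- comparison of the lifts
  obtain ⟨j, hj⟩ : ∃ j, (F₁ 0) j ≠ 0 := by
    by_contra hcon
    push Not at hcon
    exact hF10 (by ext i; exact hcon i)
  have hc1 : AnalyticAt ℂ (fun w => F₁ w j) 0 := analyticAt_pi_iff.mp (analyticAt_ofLp hF1a) j
  have hc2 : AnalyticAt ℂ (fun w => F w j) 0 := analyticAt_pi_iff.mp (analyticAt_ofLp hF) j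
  set k : ℂ → ℂ := fun w => F w j / F₁ w j with hk
  have hka : AnalyticAt ℂ k 0 := hc2.div hc1 hj
  have hrel : ∀ᶠ w in 𝓝 (0 : ℂ), F w = k w • F₁ w ∧ k w ≠ 0 := by
    filter_upwards [hFf, isOpen_ball.mem_nhds h0mem, hc1.continuousAt.eventually_ne hj] with w h1 h2 h3
    obtain ⟨h4, h5⟩ := h1
    obtain ⟨h6, h7⟩ := hF1f w h2
    rw [h5, Projectivization.mk_eq_mk_iff'] at h7
    obtain ⟨a, ha⟩ := h7
    have ha' : ∀ i, a * F₁ w i = F w i := fun i => congrFun ha i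
    have hka' : k w = a := by
      rw [hk]
      simp only
      rw [← ha' j]
      field_simp
    refine ⟨?_, ?_⟩
    · rw [hka']
      ext i
      exact (ha' i).symm
    · rw [hka']
      rintro rfl
      apply h4
      funext i
      rw [← ha' i, zero_mul]
      rfl
  have hF0 : F 0 ∈ coneOf X := by
    obtain ⟨h1, h2⟩ := hFf.self_of_nhds
    exact ⟨h1, by rw [← h2]; exact hfX 0 (mem_ball_self one_pos)⟩
  have e2 : mt G F 0 = mt G (fun w => k w • F₁ w) 0 := by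
    have h1 : F =ᶠ[𝓝 0] fun w => k w • F₁ w := by
      filter_upwards [hrel] with w hw
      exact hw.1
    unfold mt
    rw [h1.deriv_eq, h1.self_of_nhds]
  rw [mt_smul hM hF1a.differentiableAt hka.differentiableAt (hF1K 0 h0mem) hrel.self_of_nhds.2] at e2
  have hlow := hM.lower (F 0) hF0 (deriv F 0)
  have : mt G F 0 ≤ 2 * L := by rw [e2]; linarith
  exact hlow.trans this

theorem kobayashi {X Z : Set (PN N)} (hM : MetricData (coneOf X) (coneOf Z) G ρ M c₀ C)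
    (hB : ∀ f : ℂ → PN N, HolomorphicInto f Set.univ → (∀ z, f z ∈ X) → (∃ z w, f z ≠ f w) → ∀ z, f z ∈ Z) :
    ∃ L : ℝ, 0 < L ∧ ∀ (f : ℂ → PN N) (F : ℂ → EN N), HolomorphicInto f (ball 0 1) → (∀ z ∈ ball (0 : ℂ) 1, f z ∈ X) →
      AnalyticAt ℂ F 0 → (∀ᶠ z in 𝓝 (0 : ℂ), ∃ h : (F z).ofLp ≠ 0, f z = Projectivization.mk ℂ _ h) →
      ρ (F 0) ^ M * fs (F 0) (deriv F 0) ≤ L :=
  kobayashi_of_bound hM (brody_bound hM (brodyMod_of hB))

end Pool.Agent.H36.BP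

end

section

/-!
# BPB Main (port): the extension across the puncture and the Kobayashi estimate from the bound for discs
-/

set_option autoImplicit false

namespace Pool.Agent.H36.BPB

open Filter Topology Metric
open Pool.Agent.H36.BP hiding MetricData

variable {N : ℕ}

open Pool.Agent.H17 (PN HolomorphicInto puncturedDisc VanishesAt vanishesAt_mk_iff)

variable {K B : Set (EN N)} {G : EN N → EN N → ℝ} {ρ : EN N → ℝ} {M : ℕ} {c₀ C : ℝ}

/-- extension across the puncture, in terms of cones -/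
theorem picard_cone_of_bound (hM : MD K B G ρ M c₀ C) (hbound : ∃ L : ℝ, 0 < L ∧ ∀ F, Curve K (ball 0 1) F → mt G F 0 ≤ L) (hBs : ∀ x ∈ B, ∀ c : ℂ, c ≠ 0 → c • x ∈ B)
    (hρ : ∀ x ∈ K, x ∈ B → ρ x = 0) (f : ℂ → PN N) (hf : HolomorphicInto f puncturedDisc)
    (hfK : ∀ z ∈ puncturedDisc, (WithLp.toLp 2 (f z).rep : EN N) ∈ K) (hfB : ∃ z ∈ puncturedDisc, (WithLp.toLp 2 (f z).rep : EN N) ∉ B) :
    ∃ g : ℂ → PN N, HolomorphicInto g (ball 0 1) ∧ ∀ z ∈ puncturedDisc, g z = f z := by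
  classical
  -- lifts and representatives
  have hrep : ∀ (z : ℂ) (x : EN N) (h : x.ofLp ≠ 0), f z = Projectivization.mk ℂ _ h →
      ∃ a : ℂ, a ≠ 0 ∧ (WithLp.toLp 2 (f z).rep : EN N) = a • x := by
    intro z x h h1
    obtain ⟨a, ha, h2⟩ := Pool.Agent.H17.exists_smul_rep x.ofLp h
    refine ⟨a, ha, ?_⟩
    rw [h1, h2]
    rfl
  have hliftK : ∀ z ∈ puncturedDisc, ∀ (x : EN N) (h : x.ofLp ≠ 0), f z = Projectivization.mk ℂ _ h → x ∈ K := by
    intro z hz x h h1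
    obtain ⟨a, ha, h2⟩ := hrep z x h h1
    have h3 := hM.smul _ (hfK z hz) a⁻¹ (inv_ne_zero ha)
    rwa [h2, smul_smul, inv_mul_cancel₀ ha, one_smul] at h3
  have hliftB : ∀ (z : ℂ) (x : EN N) (h : x.ofLp ≠ 0), f z = Projectivization.mk ℂ _ h →
      ((WithLp.toLp 2 (f z).rep : EN N) ∈ B ↔ x ∈ B) := by
    intro z x h h1
    obtain ⟨a, ha, h2⟩ := hrep z x h h1
    constructor
    · intro h3
      rw [h2] at h3
      have h4 := hBs _ h3 a⁻¹ (inv_ne_zero ha)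
      rwa [smul_smul, inv_mul_cancel₀ ha, one_smul] at h4
    · intro h3
      rw [h2]
      exact hBs _ h3 a ha
  -- `f` lies in `B` near no point
  have hnB' : ∀ z ∈ puncturedDisc, ¬ ∀ᶠ w in 𝓝 z, (WithLp.toLp 2 (f w).rep : EN N) ∈ B := by
    intro z hz hzB
    set A : Set ℂ := {z | ∀ᶠ w in 𝓝 z, (WithLp.toLp 2 (f w).rep : EN N) ∈ B} with hA
    have hAo : IsOpen A := by
      rw [isOpen_iff_mem_nhds]
      intro z hz
      exact hz.eventually_nhds
    have hcl : closure A ∩ puncturedDisc ⊆ A := by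
      rintro y ⟨hy1, hy2⟩
      by_cases hyA : y ∈ A
      · exact hyA
      obtain ⟨φ, hφ, he⟩ := hf y hy2
      have hFa : AnalyticAt ℂ (fun w => (WithLp.toLp 2 (φ w) : EN N)) y := analyticAt_toLp hφ
      have hFK : ∀ᶠ w in 𝓝 y, (WithLp.toLp 2 (φ w) : EN N) ∈ K := by
        filter_upwards [he, isOpen_puncturedDisc.mem_nhds hy2] with w hw hw2
        obtain ⟨h1, h2⟩ := hw
        exact hliftK w hw2 _ h1 h2
      have hfreq : ∃ᶠ w in 𝓝[≠] y, ρ (WithLp.toLp 2 (φ w) : EN N) = 0 := by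
        have h1 : ∃ᶠ w in 𝓝 y, w ∈ A := mem_closure_iff_frequently.mp hy1
        have h2 : ∃ᶠ w in 𝓝 y, w ∈ A ∧ w ≠ y := by
          refine h1.mono fun w hw => ⟨hw, ?_⟩
          rintro rfl
          exact hyA hw
        have h3 : ∃ᶠ w in 𝓝[≠] y, w ∈ A := by
          rw [frequently_nhdsWithin_iff]
          exact h2.mono fun w hw => ⟨hw.1, hw.2⟩
        refine (h3.and_eventually ((hFK.and he).filter_mono nhdsWithin_le_nhds)).mono ?_
        rintro w ⟨hw1, hw2, h4, h5⟩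
        have h6 : (WithLp.toLp 2 (f w).rep : EN N) ∈ B := by
          have h7 : ∀ᶠ v in 𝓝 w, (WithLp.toLp 2 (f v).rep : EN N) ∈ B := hw1
          exact h7.self_of_nhds
        exact hρ _ hw2 ((hliftB w (WithLp.toLp 2 (φ w)) h4 h5).mp h6)
      have h8 := hM.ρ_zero _ y hFa hFK hfreq
      show ∀ᶠ w in 𝓝 y, (WithLp.toLp 2 (f w).rep : EN N) ∈ B
      filter_upwards [h8, he] with w hw hw2
      obtain ⟨h4, h5⟩ := hw2
      exact (hliftB w (WithLp.toLp 2 (φ w)) h4 h5).mpr hw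
    have hsub : puncturedDisc ⊆ A := preconnected_puncturedDisc.subset_of_closure_inter_subset hAo ⟨z, hz, hzB⟩ hcl
    obtain ⟨z', hz'1, hz'2⟩ := hfB
    have h9 : ∀ᶠ w in 𝓝 z', (WithLp.toLp 2 (f w).rep : EN N) ∈ B := hsub hz'1
    exact hz'2 h9.self_of_nhds
  obtain ⟨F, hFd, hFf⟩ := lift_punct hf (r := 1 / 2) (by norm_num) (by norm_num)
  have hhalf : ∀ z ∈ ball (0 : ℂ) 1 \ {0}, z / 2 ∈ ball (0 : ℂ) (1 / 2) \ {0} := by
    rintro z ⟨hz1, hz2⟩
    rw [mem_ball_zero_iff] at hz1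
    refine ⟨?_, ?_⟩
    · rw [mem_ball_zero_iff, norm_div]
      simp only [Complex.norm_ofNat]
      linarith
    · simpa using hz2
  have hsubp : ball (0 : ℂ) (1 / 2) \ {0} ⊆ puncturedDisc := by
    rintro z ⟨hz1, hz2⟩
    exact ⟨ball_subset_ball (by norm_num) hz1, hz2⟩
  have hopen : IsOpen (ball (0 : ℂ) (1 / 2) \ {0}) := isOpen_ball.sdiff isClosed_singleton
  have hopen1 : IsOpen (ball (0 : ℂ) 1 \ {0}) := isOpen_ball.sdiff isClosed_singleton
  set F₁ : ℂ → EN N := fun z => F (z / 2) with hF₁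
  have hF1c : Curve K (ball 0 1 \ {0}) F₁ := by
    refine ⟨?_, ?_⟩
    · intro z hz
      have h1 : DifferentiableAt ℂ F (z / 2) := hFd.differentiableAt (hopen.mem_nhds (hhalf z hz))
      exact (h1.comp z (differentiableAt_id.div_const 2)).differentiableWithinAt
    · intro z hz
      obtain ⟨h1, h2⟩ := hFf _ (hhalf z hz)
      exact hliftK _ (hsubp (hhalf z hz)) _ h1 h2
  -- the constant case
  by_cases hconst : ∃ c₁ : PN N, ∀ z ∈ puncturedDisc, f z = c₁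
  · obtain ⟨c₁, hc₁⟩ := hconst
    refine ⟨fun _ => c₁, ?_, fun z hz => (hc₁ z hz).symm⟩
    intro z _
    exact ⟨fun _ => c₁.rep, analyticAt_const, Filter.Eventually.of_forall fun w => ⟨c₁.rep_nonzero, (Projectivization.mk_rep c₁).symm⟩⟩
  have han1 : ∀ z ∈ ball (0 : ℂ) 1 \ {0}, AnalyticAt ℂ F₁ z := fun z hz => hF1c.1.analyticAt (hopen1.mem_nhds hz)
  have hc : ∀ z ∈ ball (0 : ℂ) 1 \ {0}, ¬ ∀ᶠ w in 𝓝 z, wd (F₁ w) (deriv F₁ w) = 0 := by
    intro z hz hw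
    apply hconst
    have h0 : F₁ z ≠ 0 := hM.ne _ (hF1c.2 z hz)
    have h1 := const_of_wedge (han1 z hz) h0 hw
    refine ⟨f (z / 2), const_identity preconnected_puncturedDisc hf (hsubp (hhalf z hz)) ?_⟩
    have h2 : Tendsto (fun w : ℂ => 2 * w) (𝓝 (z / 2)) (𝓝 z) := by
      have : Tendsto (fun w : ℂ => 2 * w) (𝓝 (z / 2)) (𝓝 (2 * (z / 2))) := (continuous_const.mul continuous_id).tendsto _
      rwa [mul_div_cancel₀ z (two_ne_zero)] at this
    filter_upwards [h2.eventually h1, hopen.mem_nhds (hhalf z hz)] with w hw1 hw2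
    obtain ⟨c, hc0, hcw⟩ := hw1
    have e1 : F₁ (2 * w) = F w := by
      rw [hF₁]
      simp only
      rw [mul_div_cancel_left₀ w (two_ne_zero)]
    rw [e1] at hcw
    obtain ⟨h3, h4⟩ := hFf w hw2
    obtain ⟨h5, h6⟩ := hFf _ (hhalf z hz)
    rw [h4, h6, Projectivization.mk_eq_mk_iff']
    refine ⟨c, ?_⟩
    rw [hcw]
    rfl
  have hnB : ∀ z ∈ ball (0 : ℂ) 1 \ {0}, ¬ ∀ᶠ w in 𝓝 z, F₁ w ∈ B := by
    intro z hz hw
    apply hnB' _ (hsubp (hhalf z hz))
    have h2 : Tendsto (fun w : ℂ => 2 * w) (𝓝 (z / 2)) (𝓝 z) := by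
      have : Tendsto (fun w : ℂ => 2 * w) (𝓝 (z / 2)) (𝓝 (2 * (z / 2))) := (continuous_const.mul continuous_id).tendsto _
      rwa [mul_div_cancel₀ z (two_ne_zero)] at this
    filter_upwards [h2.eventually hw, hopen.mem_nhds (hhalf z hz)] with w hw1 hw2
    have e1 : F₁ (2 * w) = F w := by
      rw [hF₁]
      simp only
      rw [mul_div_cancel_left₀ w (two_ne_zero)]
    rw [e1] at hw1
    obtain ⟨h5, h6⟩ := hFf w hw2
    exact (hliftB w (F w) h5 h6).mpr hw1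
  -- a point with positive metric
  have hz0 : (1 / 2 : ℂ) ∈ ball (0 : ℂ) 1 \ {0} := by
    refine ⟨?_, by simp⟩
    rw [mem_ball_zero_iff]
    norm_num
  have hpos := exists_pos hM (han1 _ hz0) (Filter.mem_of_superset (hopen1.mem_nhds hz0) fun z hz => hF1c.2 z hz)
    (hnB _ hz0) (hc _ hz0)
  obtain ⟨z₁, hz₁pos, hz₁⟩ := (hpos.and (hopen1.mem_nhds hz0 |> Filter.Eventually.filter_mono nhdsWithin_le_nhds)).exists
  have hz₁1 : ‖z₁‖ < 1 := by simpa using hz₁.1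
  have hz₁0 : 0 < ‖z₁‖ := norm_pos_iff.mpr hz₁.2
  obtain ⟨L, hL, hLb⟩ := hbound
  have hgr : ∀ z : ℂ, z ≠ 0 → ‖z‖ < 1 → mt G F₁ z * (‖z‖ * Real.log (1 / ‖z‖)) ≤ L := fun z hz hz1 => growth hM hLb hF1c hz hz1
  obtain ⟨c, hcpos, hlift⟩ := bounded_lifts hM hL hF1c hgr (r₁ := (‖z₁‖ + 1) / 2) hz₁0 (by linarith) (by linarith) hz₁pos
  obtain ⟨Q, hQa, hQ0, hQ⟩ := puncture_limit hF1c.1 (fun z hz => hM.ne _ (hF1c.2 z hz)) hcpos hz₁0 (r₁ := (‖z₁‖ + 1) / 2)
    (by linarith) (by linarith) hlift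
  -- gluing
  set q₀ : PN N := Projectivization.mk ℂ (Q 0).ofLp (ofLp_ne_zero hQ0) with hq₀
  refine ⟨fun z => if z = 0 then q₀ else f z, ?_, ?_⟩
  · intro z hz
    by_cases hz0 : z = 0
    · subst hz0
      refine ⟨fun w => (Q (2 * w)).ofLp, ?_, ?_⟩
      · apply analyticAt_ofLp
        have h1 : AnalyticAt ℂ Q ((fun w : ℂ => 2 * w) 0) := by simpa using hQa
        exact h1.comp (analyticAt_const.mul analyticAt_id)
      · have h2 : Tendsto (fun w : ℂ => 2 * w) (𝓝 0) (𝓝 0) := by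
          have : Tendsto (fun w : ℂ => 2 * w) (𝓝 0) (𝓝 (2 * 0)) := (continuous_const.mul continuous_id).tendsto _
          rwa [mul_zero] at this
        have h3 : ∀ᶠ w in 𝓝 (0 : ℂ), w ≠ 0 → ∃ k : ℂ, k ≠ 0 ∧ Q (2 * w) = k • F₁ (2 * w) := by
          filter_upwards [h2.eventually (eventually_nhdsWithin_iff.mp hQ)] with w hw hw0
          exact hw (by simpa using hw0)
        have h4 : ∀ᶠ w in 𝓝 (0 : ℂ), Q (2 * w) ≠ 0 := by
          have h5 : ∀ᶠ y in 𝓝 (0 : ℂ), Q y ≠ 0 := hQa.continuousAt.eventually_ne hQ0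
          exact h2.eventually h5
        filter_upwards [h3, h4, ball_mem_nhds (0 : ℂ) (show (0 : ℝ) < 1 / 2 by norm_num)] with w hw1 hw2 hw3
        refine ⟨ofLp_ne_zero hw2, ?_⟩
        by_cases hw0 : w = 0
        · subst hw0
          simp only [if_true, hq₀, mul_zero]
        · rw [if_neg hw0]
          obtain ⟨k, hk0, hk⟩ := hw1 hw0
          have e1 : F₁ (2 * w) = F w := by
            rw [hF₁]
            simp only
            rw [mul_div_cancel_left₀ w (two_ne_zero)]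
          rw [e1] at hk
          obtain ⟨h5, h6⟩ := hFf w ⟨hw3, hw0⟩
          rw [h6, Projectivization.mk_eq_mk_iff']
          refine ⟨k⁻¹, ?_⟩
          rw [hk]
          show k⁻¹ • (k • (F w).ofLp) = _
          rw [smul_smul, inv_mul_cancel₀ hk0, one_smul]
    · obtain ⟨φ, hφ, he⟩ := hf z ⟨hz, hz0⟩
      refine ⟨φ, hφ, ?_⟩
      filter_upwards [he, isOpen_ne.mem_nhds hz0] with w hw1 hw2
      rw [if_neg hw2]
      exact hw1
  · intro z hz
    have hz0 : z ≠ 0 := hz.2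
    simp only
    rw [if_neg hz0]

/-- Kobayashi hyperbolicity modulo the exceptional set: all lifts of all discs -/
theorem kobayashi_of_bound {X Z : Set (PN N)} (hM : MD (coneOf X) (coneOf Z) G ρ M c₀ C)
    (hbound : ∃ L : ℝ, 0 < L ∧ ∀ F, Curve (coneOf X) (ball 0 1) F → mt G F 0 ≤ L) :
    ∃ L : ℝ, 0 < L ∧ ∀ (f : ℂ → PN N) (F : ℂ → EN N), HolomorphicInto f (ball 0 1) → (∀ z ∈ ball (0 : ℂ) 1, f z ∈ X) →
      AnalyticAt ℂ F 0 → (∀ᶠ z in 𝓝 (0 : ℂ), ∃ h : (F z).ofLp ≠ 0, f z = Projectivization.mk ℂ _ h) →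
      ρ (F 0) ^ M * fs (F 0) (deriv F 0) ≤ L := by
  obtain ⟨L, hL, hLb⟩ := hbound
  refine ⟨2 * L, by positivity, fun f F hf hfX hF hFf => ?_⟩
  obtain ⟨F₁, hF1d, hF1f⟩ := lift_disc hf (r := 1 / 2) (by norm_num) (by norm_num)
  have h0mem : (0 : ℂ) ∈ ball (0 : ℂ) (1 / 2) := mem_ball_self (by norm_num)
  have hF10 : F₁ 0 ≠ 0 := ne_zero_of_ofLp (hF1f 0 h0mem).choose
  have hF1a : AnalyticAt ℂ F₁ 0 := hF1d.analyticAt (isOpen_ball.mem_nhds h0mem)
  have hF1K : ∀ z ∈ ball (0 : ℂ) (1 / 2), F₁ z ∈ coneOf X := by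
    intro z hz
    obtain ⟨h1, h2⟩ := hF1f z hz
    exact ⟨h1, by rw [← h2]; exact hfX z (ball_subset_ball (by norm_num) hz)⟩
  -- the scaled curve
  have hcur : Curve (coneOf X) (ball 0 1) (fun z => F₁ (z / 2)) := by
    have hh : ∀ z ∈ ball (0 : ℂ) 1, z / 2 ∈ ball (0 : ℂ) (1 / 2) := by
      intro z hz
      rw [mem_ball_zero_iff] at hz ⊢
      rw [norm_div]
      simp only [Complex.norm_ofNat]
      linarith
    refine ⟨fun z hz => ?_, fun z hz => hF1K _ (hh z hz)⟩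
    have h1 : DifferentiableAt ℂ F₁ (z / 2) := hF1d.differentiableAt (isOpen_ball.mem_nhds (hh z hz))
    exact (h1.comp z (differentiableAt_id.div_const 2)).differentiableWithinAt
  have hb := hLb _ hcur
  have hdz : HasDerivAt (fun z : ℂ => z / 2) (1 / 2) 0 := by simpa using (hasDerivAt_id (0 : ℂ)).div_const 2
  have e1 : mt G (fun z => F₁ (z / 2)) 0 = ‖deriv (fun z : ℂ => z / 2) 0‖ * mt G F₁ ((fun z : ℂ => z / 2) 0) := by
    refine mt_comp hM (φ := fun z : ℂ => z / 2) ?_ hdz.differentiableAt ?_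
    · simpa using hF1a.differentiableAt
    · simpa using hF1K 0 h0mem
  rw [hdz.deriv] at e1
  simp only [zero_div] at e1
  have hn : ‖(1 / 2 : ℂ)‖ = 1 / 2 := by norm_num
  rw [hn] at e1
  rw [e1] at hb
  -- comparison of the lifts
  obtain ⟨j, hj⟩ : ∃ j, (F₁ 0) j ≠ 0 := by
    by_contra hcon
    push Not at hcon
    exact hF10 (by ext i; exact hcon i)
  have hc1 : AnalyticAt ℂ (fun w => F₁ w j) 0 := analyticAt_pi_iff.mp (analyticAt_ofLp hF1a) j
  have hc2 : AnalyticAt ℂ (fun w => F w j) 0 := analyticAt_pi_iff.mp (analyticAt_ofLp hF) j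
  set k : ℂ → ℂ := fun w => F w j / F₁ w j with hk
  have hka : AnalyticAt ℂ k 0 := hc2.div hc1 hj
  have hrel : ∀ᶠ w in 𝓝 (0 : ℂ), F w = k w • F₁ w ∧ k w ≠ 0 := by
    filter_upwards [hFf, isOpen_ball.mem_nhds h0mem, hc1.continuousAt.eventually_ne hj] with w h1 h2 h3
    obtain ⟨h4, h5⟩ := h1
    obtain ⟨h6, h7⟩ := hF1f w h2
    rw [h5, Projectivization.mk_eq_mk_iff'] at h7
    obtain ⟨a, ha⟩ := h7
    have ha' : ∀ i, a * F₁ w i = F w i := fun i => congrFun ha i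
    have hka' : k w = a := by
      rw [hk]
      simp only
      rw [← ha' j]
      field_simp
    refine ⟨?_, ?_⟩
    · rw [hka']
      ext i
      exact (ha' i).symm
    · rw [hka']
      rintro rfl
      apply h4
      funext i
      rw [← ha' i, zero_mul]
      rfl
  have hF0 : F 0 ∈ coneOf X := by
    obtain ⟨h1, h2⟩ := hFf.self_of_nhds
    exact ⟨h1, by rw [← h2]; exact hfX 0 (mem_ball_self one_pos)⟩
  have e2 : mt G F 0 = mt G (fun w => k w • F₁ w) 0 := by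
    have h1 : F =ᶠ[𝓝 0] fun w => k w • F₁ w := by
      filter_upwards [hrel] with w hw
      exact hw.1
    unfold mt
    rw [h1.deriv_eq, h1.self_of_nhds]
  rw [mt_smul hM hF1a.differentiableAt hka.differentiableAt (hF1K 0 h0mem) hrel.self_of_nhds.2] at e2
  have hlow := hM.lower (F 0) hF0 (deriv F 0)
  have : mt G F 0 ≤ 2 * L := by rw [e2]; linarith
  exact hlow.trans this

end Pool.Agent.H36.BPB

end

section

/-!
# BPB Brody: the Brody step for an arbitrary open part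

As `BP/Brody.lean`: the limit curve `H` (with bubbling) satisfies `mt G H 0 ≥ 1`.
-/

set_option autoImplicit false

namespace Pool.Agent.H36.BPB

open Filter Topology Metric
open Pool.Agent.H36.BP (Brody_deriv_line)

variable {N : ℕ}

variable {K B : Set (EN N)} {G : EN N → EN N → ℝ} {ρ : EN N → ℝ} {M : ℕ} {c₀ C : ℝ}

/-- **The Brody step**: if all limits of discs lie in `B` then the discs are bounded. -/
theorem brody_bound_lim (hM : MD K B G ρ M c₀ C) (hB : LimMod2 K B) :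
    ∃ L : ℝ, 0 < L ∧ ∀ F, Curve K (ball 0 1) F → mt G F 0 ≤ L := by
  by_contra hcon
  have hunb : ∀ L : ℝ, ∃ F, Curve K (ball 0 1) F ∧ L < mt G F 0 := by
    intro L
    by_contra h
    push Not at h
    apply hcon
    refine ⟨max L 1, lt_of_lt_of_le one_pos (le_max_right _ _), fun F hF => ?_⟩
    exact (h F hF).trans (le_max_left _ _)
  choose F hF1 hF2 hF3 using fun n => rescale hM hunb n
  obtain ⟨C₁, hC₁, hch⟩ := char_bound2 hM
  obtain ⟨l, H, hlim, hHcl, hH0K, hCK, hH0, hHR⟩ := limit_curveB hM F hF1 hF2 (fun R => Real.exp (-(C₁ * (1 + (R : ℝ) ^ 2)))) (fun R _ => Real.exp_pos _) (by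
    intro R hR n hn
    have hR0 : (0 : ℝ) < R := by exact_mod_cast hR
    have hle : (R : ℝ) + 1 ≤ n + 1 := by
      have : (R : ℝ) ≤ n := by exact_mod_cast hn
      linarith
    have hsub : ball (0 : ℂ) (R + 1) ⊆ ball (0 : ℂ) (n + 1) := ball_subset_ball hle
    exact hch R hR0 (F n) ⟨(hF1 n).1.mono hsub, fun z hz => (hF1 n).2 z (hsub hz)⟩ (hF2 n) (fun z hz => hF3 n z (hsub hz)))
  -- the growth of the limit curve
  have hord : OrdTwo H := by
    refine ⟨5 * C₁, fun r hr => ?_⟩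
    set R : ℕ := ⌈r⌉₊ with hR
    have h1 : 1 ≤ R := Nat.one_le_iff_ne_zero.mpr (by rw [hR]; exact (Nat.ceil_pos.mpr hr).ne')
    have h2 : r ≤ R := Nat.le_ceil r
    have h3 : (R : ℝ) < r + 1 := Nat.ceil_lt_add_one hr.le
    obtain ⟨HR, h4, h5, h6, h7⟩ := hHR R h1
    have hsub : ball (0 : ℂ) r ⊆ ball (0 : ℂ) R := ball_subset_ball h2
    refine ⟨HR, h4.mono hsub, fun z hz => h5 z (hsub hz), le_trans (Real.exp_le_exp.mpr ?_) h6, fun z hz => h7 z (hsub hz)⟩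
    have h8 : (1 + (R : ℝ) ^ 2) ≤ 5 * (1 + r ^ 2) := by nlinarith [sq_nonneg (r - 1)]
    have h9 := mul_le_mul_of_nonneg_left h8 hC₁
    linarith
  have hrel : ∀ᶠ z in 𝓝 (0 : ℂ), H z ∈ K := by
    filter_upwards [hlim.hol.continuous.continuousAt.eventually (hM.rel_open _ hH0K)] with w hw
    exact hw (hHcl w)
  have hzero : mt G H 0 = 0 := by
    by_cases hc : ∃ z w, ∀ c : ℂ, H z ≠ c • H w
    · refine hM.zero H 0 (hlim.hol.analyticAt 0) ?_
      filter_upwards [hrel] with z hz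
      exact ⟨hz, hB l F H hlim hHcl hH0K hCK hc hord z hz⟩
    · push Not at hc
      obtain ⟨a, ha⟩ := Brody_deriv_line (hlim.hol 0) (fun z => hc z 0)
      exact mt_const hM hH0K ha
  linarith

end Pool.Agent.H36.BPB

end

section

/-!
# The blow-up of a model at a point of the curve

* `exists_forms`: choose a continuous linear form `Λ` with `Λ q = 1` and a basis of `V` with coordinate forms `e_i`
  (`Module.finBasis`, `LinearMap.toContinuousLinearMap`); `l i v = e_i (v - Λ v • q)`.  All `l i v = 0` iff `v = Λ v • q`.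
* `eqs_blow`: `mem_iff` is `H62.BU.total_eq`.  `gen` at `y ∈ blow`: choose `b` with `y b ≠ 0` (`exists_ne`) and `i` for the
  point `y b ∈ X`.  For `y'` near `y` in the blow-up: `y' b ≠ 0`, `y' b ∈ X` near `y b`; `Q i (y' b) = 0` gives `y' b ∈ B`,
  so `y' ∈ total` (`mem_total_iff`).
* `thin_blow`: let `σ1` be a chart of the blow-up, `y = σ1 0`; take a chart `σ` of `X` at `q` and the chart of
  `H62.BU.blow_local` at `y`; by `IsChart.trans` (and the cone property of `total`) it is enough to treat this chart (if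
  `σ1 p ∈ total` for all `p` near `0` then the same holds for the other chart: `Pr (σ1' p) (σ1 (θ p))`, `θ p → 0`).
  First case: `thin` for the chart `σ'` of `X`.  Second case: otherwise `σ (e (p.1, p.1 * p.2)) ∈ B` for all `p` near `0`; so
  for a local equation `g` of `B` in the chart `σ` (`Eqs.gen`, `g = Q i ∘ σ`) `g (e (s, s * t)) = 0` for small `s, t`.
  `g ∘ e` is analytic on a ball around `0` and vanishes at `(s, u)` for small `s` and `|u| < δ |s|`, i.e. near the point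
  `(s₀, 0)`, `s₀ ≠ 0` small; identity theorem on the ball (`AnalyticOnNhd.eqOn_zero_of_preconnected_of_eventuallyEq_zero`):
  `g ∘ e = 0` near `0`, `g = 0` near `0`, against `thin` for `σ`.
* `resAt_blow`: let `σ, τ, g` be as in `ResAt X B q (n + 1)`.  As `Mono g` would give `ResAt X B q 0`, `ResN n (g ∘ β)` for all
  `BChart β`.  `H62.BU.blow_local` with the chart `σ` at `y`: second case: `β p = e (p.1, p.1 * p.2)` is a `BChart`
  (`e` is `Bihol`, `β = e ∘ bl 0 ∘ id`), `g ∘ β` is a local equation of `total` in the chart `σ1`.  First case: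
  `x = σ' 0`, `y = c • phi l x`, `¬ Pr x q` because `l b x ≠ 0`; if `ResAt X B x k` then (`ResAt.chart`) there is `g` with
  `LocalEq B σ' g`, `ResN k g`, and `LocalEq (total l X B) σ1 g`.
-/

open Topology Filter

noncomputable section

namespace Pool.Agent.H17BP

open Pool.Agent.H62.BU (blow total Ker phi)

variable {V : Type} [NormedAddCommGroup V] [NormedSpace ℂ V] {ι : Type} [Fintype ι] {l : ι → V →L[ℂ] ℂ}
  {X B : Set V} {q : V} {m j : ℕ} {Ω : V → V → V → ℂ} {κ : Type} {Q : κ → V → ℂ} {D : ℕ}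

theorem exists_forms [FiniteDimensional ℂ V] (hq : q ≠ 0) : ∃ (r : ℕ) (l : Fin r → V →L[ℂ] ℂ), Ker l q := by
  obtain ⟨Λ, hΛ⟩ := exists_dual_vector ℂ q (norm_ne_zero_iff.mpr hq)
  have hΛ0 : Λ q ≠ 0 := by
    rw [hΛ.2]
    simpa using hq
  obtain ⟨b, hb⟩ : ∃ b : Module.Basis (Fin (Module.finrank ℂ V)) ℂ V, b = Module.finBasis ℂ V :=
    ⟨_, rfl⟩
  refine ⟨Module.finrank ℂ V, fun i => (LinearMap.toContinuousLinearMap (b.coord i)).comp
    (Λ q • ContinuousLinearMap.id ℂ V - Λ.smulRight q), fun v => ?_⟩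
  have hl : ∀ i, ((LinearMap.toContinuousLinearMap (b.coord i)).comp
      (Λ q • ContinuousLinearMap.id ℂ V - Λ.smulRight q)) v = b.coord i (Λ q • v - Λ v • q) := by
    intro i
    simp
  constructor
  · intro h
    have h1 : Λ q • v - Λ v • q = 0 := by
      rw [← b.forall_coord_eq_zero_iff]
      intro i
      rw [← hl i]
      exact h i
    refine ⟨(Λ q)⁻¹ * Λ v, ?_⟩
    rw [mul_smul, ← sub_eq_zero.1 h1, smul_smul, inv_mul_cancel₀ hΛ0, one_smul]
  · rintro ⟨c, hc⟩ i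
    rw [hl i]
    have h1 : Λ q • v - Λ v • q = 0 := by
      rw [hc, map_smul, smul_eq_mul, smul_smul, mul_comm, sub_self]
    rw [h1, map_zero]

private theorem BlowM_proj {κ' : Type} (b : ι) {R : κ' → V → ℂ} {i : κ'} {x : ι → V}
    (h : AnalyticAt ℂ (R i) (x b)) : AnalyticAt ℂ (fun y : ι → V => R i (y b)) x :=
  AnalyticAt.comp (g := R i) (f := fun y : ι → V => y b) h
    ((ContinuousLinearMap.proj (R := ℂ) (φ := fun _ : ι => V) b).analyticAt x)

theorem eqs_blow (hX : Surface X) (hE : Eqs X B Q D) :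
    Eqs (blow l X) (total l X B) (fun (p : κ × ι) (y : ι → V) => Q p.1 (y p.2)) D := by
  have hX' := surface_iff.2 hX
  refine ⟨hE.pos, fun i x => BlowM_proj i.2 (hE.an i.1 _), fun i c x => hE.smul i.1 c _,
    fun y => ?_, fun y hy => ?_⟩
  · rw [H62.BU.total_eq hX' (by have := hE.pos; omega) hE.smul hE.mem_iff]
    exact ⟨fun h => ⟨h.1, fun i => h.2 i.1 i.2⟩, fun h => ⟨h.1, fun i b => h.2 (i, b)⟩⟩
  · obtain ⟨b, hb⟩ := H62.BU.exists_ne y hy
    obtain ⟨i, hi⟩ := hE.gen (y b) (H62.BU.comp_mem hX' y hy hb)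
    refine ⟨(i, b), ?_⟩
    have h1 : Tendsto (fun y' : ι → V => y' b) (𝓝 y) (𝓝 (y b)) := (continuous_apply b).tendsto y
    filter_upwards [h1.eventually hi, h1.eventually_ne hb] with y' h2 h3 hy' hQ
    rw [H62.BU.mem_total_iff hX' (hE.cone hX.smul) y' hy' h3]
    exact h2 (H62.BU.comp_mem hX' y' hy' h3) hQ

/-- a local equation -/
private theorem BlowM_eq (hE : Eqs X B Q D) {σ : ℂ × ℂ → V} {τ : V → ℂ × ℂ} (h : IsChart X σ τ) :
    ∃ g, LocalEq B σ g := by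
  obtain ⟨i, hi⟩ := hE.gen (σ 0) h.σ_mem.self_of_nhds
  refine ⟨fun p => Q i (σ p), (hE.an i _).comp h.σ_an, ?_⟩
  have h1 : Tendsto σ (𝓝 0) (𝓝 (σ 0)) := h.σ_an.continuousAt
  filter_upwards [h1.eventually hi, h.σ_mem] with p h2 h3
  exact ⟨fun h4 => ((hE.mem_iff _).1 h4).2 i, fun h4 => h2 h3 h4⟩

/-- a germ which vanishes after the blow-up vanishes -/
private theorem BlowM_van {G : ℂ × ℂ → ℂ} (hG : AnalyticAt ℂ G 0)
    (h : ∀ᶠ p : ℂ × ℂ in 𝓝 0, G (p.1, p.1 * p.2) = 0) : ∀ᶠ p in 𝓝 (0 : ℂ × ℂ), G p = 0 := by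
  obtain ⟨r, hr, hGr⟩ := hG.exists_ball_analyticOnNhd
  have ht : Tendsto (fun s : ℂ => ((s, 0) : ℂ × ℂ)) (𝓝[≠] 0) (𝓝 0) := by
    have h1 : Tendsto (fun s : ℂ => ((s, 0) : ℂ × ℂ)) (𝓝 0) (𝓝 (0, 0)) :=
      (continuous_id.prodMk continuous_const).tendsto 0
    exact h1.mono_left nhdsWithin_le_nhds
  obtain ⟨s, ⟨h1, h2⟩, h3⟩ := ((ht.eventually (h.eventually_nhds.and (Metric.ball_mem_nhds 0 hr))).and
    (self_mem_nhdsWithin : ∀ᶠ s in 𝓝[≠] (0 : ℂ), s ∈ ({0}ᶜ : Set ℂ))).exists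
  have hs : s ≠ 0 := h3
  have hψ : Tendsto (fun w : ℂ × ℂ => ((w.1, w.2 / w.1) : ℂ × ℂ)) (𝓝 (s, 0)) (𝓝 (s, 0)) := by
    have h4 : ContinuousAt (fun w : ℂ × ℂ => ((w.1, w.2 / w.1) : ℂ × ℂ)) (s, 0) :=
      continuousAt_fst.prodMk (continuousAt_snd.div continuousAt_fst hs)
    have h5 := h4.tendsto
    simp only [zero_div] at h5
    exact h5
  have hne : ∀ᶠ w : ℂ × ℂ in 𝓝 (s, 0), w.1 ≠ 0 := continuousAt_fst.eventually_ne hs
  have h6 : G =ᶠ[𝓝 (s, 0)] 0 := by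
    filter_upwards [hψ.eventually h1, hne] with w h7 h8
    rw [mul_div_cancel₀ _ h8] at h7
    exact h7
  have h7 := hGr.eqOn_zero_of_preconnected_of_eventuallyEq_zero
    (convex_ball (0 : ℂ × ℂ) r).isPreconnected h2 h6
  filter_upwards [Metric.ball_mem_nhds (0 : ℂ × ℂ) hr] with p hp
  exact h7 hp

private theorem BlowM_tendsto (e : (ℂ × ℂ) ≃L[ℂ] (ℂ × ℂ)) : Tendsto (fun p => e p) (𝓝 0) (𝓝 0) := by
  have h1 : Tendsto (fun p : ℂ × ℂ => e p) (𝓝 0) (𝓝 (e 0)) := e.continuous.tendsto 0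
  rwa [map_zero] at h1

/-- `B` is a proper subset also after the blow-up -/
private theorem BlowM_thin (hE : Eqs X B Q D) {σ : ℂ × ℂ → V} {τ : V → ℂ × ℂ} (h : IsChart X σ τ)
    (ht : ∃ᶠ p in 𝓝 (0 : ℂ × ℂ), σ p ∉ B) (e : (ℂ × ℂ) ≃L[ℂ] (ℂ × ℂ)) :
    ∃ᶠ p in 𝓝 (0 : ℂ × ℂ), σ (e (p.1, p.1 * p.2)) ∉ B := by
  intro hcon
  simp only [not_not] at hcon
  obtain ⟨g, hg, hgB⟩ := BlowM_eq hE h
  have hm : Tendsto (fun p : ℂ × ℂ => e (p.1, p.1 * p.2)) (𝓝 0) (𝓝 0) := by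
    refine (BlowM_tendsto e).comp ?_
    have h1 : Continuous (fun p : ℂ × ℂ => ((p.1, p.1 * p.2) : ℂ × ℂ)) := by fun_prop
    have h2 := h1.tendsto 0
    have e0 : ((0 : ℂ × ℂ).1, (0 : ℂ × ℂ).1 * (0 : ℂ × ℂ).2) = (0 : ℂ × ℂ) := by
      ext <;> simp
    rwa [e0] at h2
  have hG : AnalyticAt ℂ (fun p => g (e p)) 0 := by
    have h1 : AnalyticAt ℂ g (e 0) := by rw [map_zero]; exact hg
    exact h1.comp (e.toContinuousLinearMap.analyticAt 0)
  have h1 : ∀ᶠ p : ℂ × ℂ in 𝓝 0, g (e (p.1, p.1 * p.2)) = 0 := by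
    filter_upwards [hcon, hm.eventually hgB] with p h2 h3
    exact h3.1 h2
  have h2 := BlowM_van hG h1
  have h3 : ∀ᶠ p in 𝓝 (0 : ℂ × ℂ), g p = 0 := by
    filter_upwards [(BlowM_tendsto e.symm).eventually h2] with p h4
    rwa [ContinuousLinearEquiv.apply_symm_apply] at h4
  refine ht ?_
  filter_upwards [h3, hgB] with p h4 h5
  exact not_not.2 (h5.2 h4)

theorem thin_blow [FiniteDimensional ℂ V] (hX : Surface X) (hE : Eqs X B Q D)
    (ht : ∀ σ τ, IsChart X σ τ → ∃ᶠ p in 𝓝 (0 : ℂ × ℂ), σ p ∉ B) (hl : Ker l q) (hq : q ∈ B)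
    {σ1 : ℂ × ℂ → ι → V} {τ1 : (ι → V) → ℂ × ℂ} (h : IsChart (blow l X) σ1 τ1) :
    ∃ᶠ p in 𝓝 (0 : ℂ × ℂ), σ1 p ∉ total l X B := by
  have hX' := surface_iff.2 hX
  have hBc := hE.cone hX.smul
  have htc : ∀ x ∈ total l X B, ∀ c : ℂ, c ≠ 0 → c • x ∈ total l X B :=
    (eqs_blow (l := l) hX hE).cone H62.BU.blow_smul
  obtain ⟨σ, τ, hσ, hσ0⟩ := hX.chart q (hE.sub hq)
  -- it is enough to treat one chart
  have key : ∀ {σ2 : ℂ × ℂ → ι → V} {τ2 : (ι → V) → ℂ × ℂ}, IsChart (blow l X) σ2 τ2 →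
      σ2 0 = σ1 0 → (∃ᶠ p in 𝓝 (0 : ℂ × ℂ), σ2 p ∉ total l X B) →
      ∃ᶠ p in 𝓝 (0 : ℂ × ℂ), σ1 p ∉ total l X B := by
    intro σ2 τ2 h2 h20 hfr hcon
    simp only [not_not] at hcon
    obtain ⟨θ, hθ, hp⟩ := IsChart.trans H62.BU.blow_smul h h2 (by rw [h20]; exact Pr.refl _)
    refine hfr ?_
    filter_upwards [hp, hθ.tendsto.eventually hcon] with p h3 h4
    obtain ⟨c, hc, h5⟩ := h3
    rw [not_not, h5]
    exact htc _ h4 c hc
  rcases H62.BU.blow_local hX' hl (chart_iff.2 hσ) hσ0 hBc (σ1 0) h.σ_mem.self_of_nhds with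
    ⟨σ', τ', h1, -, σ2, τ2, h2, h3, -, h4⟩ | ⟨e, σ2, τ2, h2, h3, h4⟩
  · refine key (chart_iff.1 h2) h3 ?_
    refine ((ht σ' τ' (chart_iff.1 h1)).and_eventually h4).mono ?_
    rintro p ⟨h5, h6⟩ h7
    exact h5 (h6.1 h7)
  · refine key (chart_iff.1 h2) h3 ?_
    refine ((BlowM_thin hE hσ (ht σ τ hσ) e).and_eventually h4).mono ?_
    rintro p ⟨h5, h6⟩ h7
    exact h5 (h6.1 h7)

private theorem BlowM_bihol (e : (ℂ × ℂ) ≃L[ℂ] (ℂ × ℂ)) : Bihol (fun x => e x) :=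
  ⟨e.toContinuousLinearMap.analyticAt 0, map_zero e, fun x => e.symm x,
    e.symm.toContinuousLinearMap.analyticAt 0, map_zero e.symm,
    Eventually.of_forall fun x => e.symm_apply_apply x,
    Eventually.of_forall fun x => e.apply_symm_apply x⟩

theorem resAt_blow [FiniteDimensional ℂ V] (hX : Surface X) (hE : Eqs X B Q D) (hl : Ker l q) (hq : q ∈ B) {n : ℕ}
    (hn : ResAt X B q (n + 1)) (h0 : ¬ ResAt X B q 0) {y : ι → V} (hy : y ∈ blow l X) :
    ResAt (blow l X) (total l X B) y n ∨ ∃ x ∈ X, ¬ Pr x q ∧ Pr y (phi l x) ∧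
      ∀ k, ResAt X B x k → ResAt (blow l X) (total l X B) y k := by
  obtain ⟨σ, τ, g, hσ, hσ0, hg, hN⟩ := hn
  have hN' : ∀ β, BChart β → ResN n (g ∘ β) := by
    rcases hN with hN | hN
    · exact absurd ⟨σ, τ, g, hσ, hσ0, hg, hN⟩ h0
    · exact hN
  rcases H62.BU.blow_local (surface_iff.2 hX) hl (chart_iff.2 hσ) hσ0 (hE.cone hX.smul) y hy with
    ⟨σ', τ', h1, ⟨b, hb⟩, σ1, τ1, h2, h3, ⟨c, hc, hc2⟩, h4⟩ | ⟨e, σ1, τ1, h2, h3, h4⟩
  · right
    have h1' := chart_iff.1 h1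
    refine ⟨σ' 0, h1'.σ_mem.self_of_nhds, ?_, ⟨c, hc, ?_⟩, fun k hk => ?_⟩
    · rintro ⟨a, -, ha⟩
      have h5 : l b q = 0 := (hl q).2 ⟨1, (one_smul _ _).symm⟩ b
      rw [ha, map_smul, h5, smul_zero] at hb
      exact hb rfl
    · rw [← h3]
      exact hc2 0
    · obtain ⟨g', ⟨hg1, hg2⟩, hg3⟩ := hk.chart hX.smul (hE.cone hX.smul) h1' (Pr.refl _)
      refine ⟨σ1, τ1, g', chart_iff.1 h2, h3, ⟨hg1, ?_⟩, hg3⟩
      filter_upwards [hg2, h4] with p h5 h6
      exact h6.trans h5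
  · left
    obtain ⟨β, hβ⟩ : ∃ β : ℂ × ℂ → ℂ × ℂ, β = fun p => e (p.1, p.1 * p.2) := ⟨_, rfl⟩
    have hBC : BChart β := by
      refine ⟨fun x => e x, fun x => x, BlowM_bihol e, Bihol.id, Eventually.of_forall fun x => ?_⟩
      rw [hβ]
      simp only [bl, zero_add]
    refine ⟨σ1, τ1, g ∘ β, chart_iff.1 h2, h3, ⟨?_, ?_⟩, hN' β hBC⟩
    · have h5 : AnalyticAt ℂ g (β 0) := by rw [hBC.zero]; exact hg.1
      exact h5.comp hBC.an
    · filter_upwards [hBC.tendsto.eventually hg.2, h4] with p h5 h6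
      rw [h6]
      rw [hβ] at h5 ⊢
      exact h5

end Pool.Agent.H17BP

end
end
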