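import Pool.Agent.H43.TL2.M102
import Pool.Agent.H43.TL2.M47
import Pool.Agent.H43.TL2.M60
import Pool.Agent.H43.TL2.M82

/-! The parts of this file: MQ.Sel, MQ.Core, MQ.CoreMn, MQ.VFin, MQ3.AsmA. -/

section

/-!
# MQ Sel: the choice of the radius

`tau R z = log R - P z + P (z / R)`, `I R = ∫ tau R z * lam z ^ 2`, `L R = ∫ ‖gr (tau R) z‖ * lam z`.  With `s = log R`:
`L ^ 2 ≤ 2 π (s + 1) dI/ds` by the inequality of Cauchy and Schwarz.  If `L ≥ ε I - C` for all large `s`, then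
`-1 / (ε I - C) - (ε / 2 π) log (s + 1)` is monotone, a contradiction.
-/

set_option autoImplicit false

open MeasureTheory Filter Topology Set

noncomputable section

namespace Pool.Agent.MQ.SelA

open Pool.Agent.H30M (Th hasDerivAt_Th Th_nonpos Th_mono Th_nonneg Th_sub_le Th_sub_eq P tau fderiv_tau tau_nonneg le_tau)

/-- the weight -/
def hh (s t : ℝ) : ℝ := Real.smoothTransition t - Real.smoothTransition (t - s)

/-- the test function in terms of `s = log R` -/
def tA (s : ℝ) (z : ℂ) : ℝ := s - Th (Real.log ‖z‖) + Th (Real.log ‖z‖ - s)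

theorem hh_nonneg {s : ℝ} (hs : 0 ≤ s) (t : ℝ) : 0 ≤ hh s t := by
  unfold hh
  have := Real.smoothTransition.monotone (show t - s ≤ t by linarith)
  linarith

theorem hh_le_one {s : ℝ} (t : ℝ) : hh s t ≤ 1 := by
  unfold hh
  have h1 := Real.smoothTransition.nonneg (t - s)
  have h2 := Real.smoothTransition.le_one t
  linarith

theorem hh_of_nonpos {s t : ℝ} (hs : 0 ≤ s) (h : t ≤ 0) : hh s t = 0 := by
  unfold hh
  rw [Real.smoothTransition.zero_of_nonpos h, Real.smoothTransition.zero_of_nonpos (by linarith)]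
  simp

theorem hh_of_ge {s t : ℝ} (hs : 0 ≤ s) (h : s + 1 ≤ t) : hh s t = 0 := by
  unfold hh
  rw [Real.smoothTransition.one_of_one_le (by linarith), Real.smoothTransition.one_of_one_le (by linarith)]
  simp

theorem tA_of_ge {s : ℝ} (hs : 0 ≤ s) {z : ℂ} (h : s + 1 ≤ Real.log ‖z‖) : tA s z = 0 := by
  have h1 := Th_sub_eq (s := Real.log ‖z‖) (t := Real.log ‖z‖ - s) (by linarith) (by linarith)
  unfold tA
  linarith

theorem tA_nonneg {s : ℝ} (hs : 0 ≤ s) (z : ℂ) : 0 ≤ tA s z := by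
  have := Th_sub_le (s := Real.log ‖z‖) (t := Real.log ‖z‖ - s) (by linarith)
  unfold tA
  linarith

theorem tA_le {s : ℝ} (hs : 0 ≤ s) (z : ℂ) : tA s z ≤ s := by
  have := Th_mono (show Real.log ‖z‖ - s ≤ Real.log ‖z‖ by linarith)
  unfold tA
  linarith

theorem continuous_Th : Continuous Th := continuous_iff_continuousAt.2 fun t => (hasDerivAt_Th t).continuousAt

theorem continuous_st : Continuous Real.smoothTransition := Real.smoothTransition.continuous

/-- the energy -/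
def II (lam : ℂ → ℝ) (s : ℝ) : ℝ := ∫ z : ℂ, tA s z * lam z ^ 2

/-- the length -/
def Lam (lam : ℂ → ℝ) (s : ℝ) : ℝ := ∫ z : ℂ, hh s (Real.log ‖z‖) * (lam z / ‖z‖)

variable {lam : ℂ → ℝ}

/-- functions with a bound and compact support -/
theorem integrable_of_bdd {f : ℂ → ℝ} (hm : AEStronglyMeasurable f volume) {M R : ℝ} (h0 : ∀ z, R < ‖z‖ → f z = 0) (hM : ∀ z, |f z| ≤ M) :
    Integrable f := by
  have h1 : Integrable ((Metric.closedBall (0 : ℂ) R).indicator fun _ => M) :=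
    (integrable_indicator_iff measurableSet_closedBall).2 (integrableOn_const (isCompact_closedBall (0 : ℂ) R).measure_lt_top.ne)
  refine h1.mono' hm (Eventually.of_forall fun z => ?_)
  by_cases hz : z ∈ Metric.closedBall (0 : ℂ) R
  · rw [indicator_of_mem hz]
    exact hM z
  · rw [indicator_of_notMem hz, h0 z (by simpa using hz)]
    simp

theorem bdd_of_cont {f : ℂ → ℝ} (hf : Continuous f) (R : ℝ) : ∃ M : ℝ, 0 ≤ M ∧ ∀ z, ‖z‖ ≤ R → |f z| ≤ M := by
  obtain ⟨M, hM⟩ := (isCompact_closedBall (0 : ℂ) R).bddAbove_image (f := fun z => |f z|) (by fun_prop)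
  refine ⟨max M 0, le_max_right _ _, fun z hz => ?_⟩
  exact (hM ⟨z, by simpa using hz, rfl⟩).trans (le_max_left _ _)

@[fun_prop]
theorem measurable_tA (s : ℝ) : Measurable (tA s) := by
  unfold tA
  have h1 : Measurable fun z : ℂ => Real.log ‖z‖ := Real.measurable_log.comp measurable_norm
  exact (measurable_const.sub (continuous_Th.measurable.comp h1)).add (continuous_Th.measurable.comp (h1.sub_const s))

@[fun_prop]
theorem measurable_hh (s : ℝ) : Measurable fun z : ℂ => hh s (Real.log ‖z‖) := by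
  unfold hh
  have h1 : Measurable fun z : ℂ => Real.log ‖z‖ := Real.measurable_log.comp measurable_norm
  exact (continuous_st.measurable.comp h1).sub (continuous_st.measurable.comp (h1.sub_const s))

theorem log_ge_of_exp_lt {z : ℂ} {a : ℝ} (h : Real.exp a < ‖z‖) : a ≤ Real.log ‖z‖ :=
  (Real.le_log_iff_exp_le (lt_trans (Real.exp_pos a) h)).2 h.le

theorem integrable_tA_mul {s : ℝ} (hs : 0 ≤ s) {q : ℂ → ℝ} (hq : Continuous q) : Integrable fun z => tA s z * q z := by
  obtain ⟨M, hM0, hM⟩ := bdd_of_cont hq (Real.exp (s + 1))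
  have h0 : ∀ z : ℂ, Real.exp (s + 1) < ‖z‖ → tA s z = 0 := fun z hz => tA_of_ge hs (log_ge_of_exp_lt hz)
  refine integrable_of_bdd (M := s * M) (R := Real.exp (s + 1)) ((measurable_tA s).aestronglyMeasurable.mul hq.aestronglyMeasurable)
    (fun z hz => ?_) fun z => ?_
  · rw [h0 z hz, zero_mul]
  · rcases le_or_gt ‖z‖ (Real.exp (s + 1)) with h | h
    · rw [abs_mul, abs_of_nonneg (tA_nonneg hs z)]
      exact mul_le_mul (tA_le hs z) (hM z h) (abs_nonneg _) hs
    · rw [h0 z h, zero_mul, abs_zero]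
      positivity

/-- the weight of the derivative of the energy -/
def ww (s : ℝ) (z : ℂ) : ℝ := 1 - Real.smoothTransition (Real.log ‖z‖ - s)

theorem ww_nonneg (s : ℝ) (z : ℂ) : 0 ≤ ww s z := by
  have := Real.smoothTransition.le_one (Real.log ‖z‖ - s)
  unfold ww
  linarith

theorem ww_le_one (s : ℝ) (z : ℂ) : ww s z ≤ 1 := by
  have := Real.smoothTransition.nonneg (Real.log ‖z‖ - s)
  unfold ww
  linarith

theorem hh_le_ww (s : ℝ) (z : ℂ) : hh s (Real.log ‖z‖) ≤ ww s z := by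
  have := Real.smoothTransition.le_one (Real.log ‖z‖)
  unfold ww hh
  linarith

theorem hasDerivAt_tA (s : ℝ) (z : ℂ) : HasDerivAt (fun s => tA s z) (ww s z) s := by
  have h1 : HasDerivAt (fun s => Th (Real.log ‖z‖ - s)) (Real.smoothTransition (Real.log ‖z‖ - s) * (-1)) s :=
    (hasDerivAt_Th (Real.log ‖z‖ - s)).comp s ((hasDerivAt_id s).const_sub (Real.log ‖z‖))
  have h2 := ((hasDerivAt_id s).sub_const (Th (Real.log ‖z‖))).add h1
  have h3 : (1 : ℝ) + Real.smoothTransition (Real.log ‖z‖ - s) * (-1) = ww s z := by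
    unfold ww
    ring
  rw [h3] at h2
  exact h2

theorem ww_eq_zero {s : ℝ} {z : ℂ} (h : Real.exp (s + 1) < ‖z‖) : ww s z = 0 := by
  have := log_ge_of_exp_lt h
  unfold ww
  rw [Real.smoothTransition.one_of_one_le (by linarith)]
  ring

/-- the derivative of the energy -/
theorem hasDerivAt_II (hl : Continuous lam) {s : ℝ} (hs : 0 < s) :
    HasDerivAt (II lam) (∫ z : ℂ, ww s z * lam z ^ 2) s := by
  obtain ⟨M, hM0, hM⟩ := bdd_of_cont (f := fun z => lam z ^ 2) (by fun_prop) (Real.exp (s + 2))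
  have hb : Integrable ((Metric.closedBall (0 : ℂ) (Real.exp (s + 2))).indicator fun _ => M) :=
    (integrable_indicator_iff measurableSet_closedBall).2 (integrableOn_const (isCompact_closedBall (0 : ℂ) _).measure_lt_top.ne)
  have hwm : ∀ s : ℝ, Measurable (ww s) := by
    intro s
    unfold ww
    have h1 : Measurable fun z : ℂ => Real.log ‖z‖ := Real.measurable_log.comp measurable_norm
    exact measurable_const.sub (continuous_st.measurable.comp (h1.sub_const s))
  refine (hasDerivAt_integral_of_dominated_loc_of_deriv_le (F := fun s z => tA s z * lam z ^ 2) (F' := fun s z => ww s z * lam z ^ 2)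
    (s := Ioo 0 (s + 1)) (bound := (Metric.closedBall (0 : ℂ) (Real.exp (s + 2))).indicator fun _ => M) (isOpen_Ioo.mem_nhds ⟨hs, by linarith⟩)
    ?_ ?_ ?_ ?_ hb ?_).2
  · exact Eventually.of_forall fun x => (measurable_tA x).aestronglyMeasurable.mul (by fun_prop)
  · exact integrable_tA_mul hs.le (by fun_prop)
  · exact (hwm s).aestronglyMeasurable.mul (by fun_prop)
  · refine Eventually.of_forall fun z x hx => ?_
    by_cases hz : z ∈ Metric.closedBall (0 : ℂ) (Real.exp (s + 2))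
    · rw [indicator_of_mem hz, norm_mul, Real.norm_eq_abs, Real.norm_eq_abs, abs_of_nonneg (ww_nonneg x z)]
      calc ww x z * |lam z ^ 2| ≤ 1 * M := mul_le_mul (ww_le_one x z) (hM z (by simpa using hz)) (abs_nonneg _) zero_le_one
        _ = M := one_mul M
    · rw [indicator_of_notMem hz, ww_eq_zero, zero_mul, norm_zero]
      have h1 : Real.exp (s + 2) < ‖z‖ := by simpa using hz
      exact (Real.exp_le_exp.2 (by linarith [hx.2])).trans_lt h1
  · refine Eventually.of_forall fun z x _ => ?_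
    exact (hasDerivAt_tA x z).mul_const _

theorem continuous_hh_div (s : ℝ) (hs : 0 ≤ s) {q : ℂ → ℝ} (hq : Continuous q) (k : ℕ) : Integrable fun z : ℂ => hh s (Real.log ‖z‖) * (q z / ‖z‖ ^ k) := by
  obtain ⟨M, hM0, hM⟩ := bdd_of_cont hq (Real.exp (s + 1))
  have h0 : ∀ z : ℂ, Real.exp (s + 1) < ‖z‖ → hh s (Real.log ‖z‖) = 0 := fun z hz => hh_of_ge hs (log_ge_of_exp_lt hz)
  refine integrable_of_bdd (M := M) (R := Real.exp (s + 1)) ?_ (fun z hz => ?_) fun z => ?_
  · exact ((measurable_hh s).mul (hq.measurable.div (measurable_norm.pow_const k))).aestronglyMeasurable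
  · rw [h0 z hz, zero_mul]
  · rcases le_or_gt ‖z‖ 1 with h1 | h1
    · rw [hh_of_nonpos hs (Real.log_nonpos (norm_nonneg z) h1), zero_mul, abs_zero]
      exact hM0
    · rcases le_or_gt ‖z‖ (Real.exp (s + 1)) with h | h
      · rw [abs_mul, abs_of_nonneg (hh_nonneg hs _), abs_div, abs_of_nonneg (pow_nonneg (norm_nonneg z) k)]
        have h2 : |q z| / ‖z‖ ^ k ≤ |q z| := div_le_self (abs_nonneg _) (one_le_pow₀ h1.le)
        calc hh s (Real.log ‖z‖) * (|q z| / ‖z‖ ^ k) ≤ 1 * |q z| :=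
              mul_le_mul (hh_le_one _) h2 (by positivity) zero_le_one
          _ ≤ M := by rw [one_mul]; exact hM z h
      · rw [h0 z h, zero_mul, abs_zero]
        exact hM0

/-- the mass of the weight -/
theorem integral_hh_le {s : ℝ} (hs : 0 ≤ s) : ∫ z : ℂ, hh s (Real.log ‖z‖) * (1 / ‖z‖ ^ 2) ≤ 2 * Real.pi * (s + 1) := by
  have h1 := integral_fun_norm_addHaar (volume : Measure ℂ) fun r : ℝ => hh s (Real.log r) * (1 / r ^ 2)
  rw [h1]
  have h2 : (volume : Measure ℂ).real (Metric.ball 0 1) = Real.pi := by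
    rw [Measure.real, Complex.volume_ball]
    simp
  rw [h2, Complex.finrank_real_complex]
  have h3 : ∫ y in Ioi (0 : ℝ), y ^ (2 - 1) • (hh s (Real.log y) * (1 / y ^ 2)) = ∫ y in Ioi (0 : ℝ), hh s y := by
    have h4 : ∫ y in Ioi (1 : ℝ), y⁻¹ • hh s (Real.log y) = ∫ y in Ioi (Real.log 1), hh s y :=
      integral_comp_log_Ioi (fun t => hh s t) one_pos
    rw [Real.log_one] at h4
    rw [← h4]
    have h5 : ∫ y in Ioi (0 : ℝ), y ^ (2 - 1) • (hh s (Real.log y) * (1 / y ^ 2)) =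
        ∫ y in Ioi (1 : ℝ), y ^ (2 - 1) • (hh s (Real.log y) * (1 / y ^ 2)) := by
      refine setIntegral_eq_of_subset_of_forall_sdiff_eq_zero measurableSet_Ioi (Ioi_subset_Ioi zero_le_one) fun x hx => ?_
      have hx0 : 0 < x := hx.1
      have hx1 : x ≤ 1 := not_lt.1 hx.2
      rw [hh_of_nonpos hs (Real.log_nonpos hx0.le hx1)]
      simp
    rw [h5]
    refine setIntegral_congr_fun measurableSet_Ioi fun x hx => ?_
    have hx0 : (0 : ℝ) < x := lt_trans one_pos hx
    simp only [smul_eq_mul]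
    field_simp
    ring
  rw [h3]
  have h6 : ∫ y in Ioi (0 : ℝ), hh s y ≤ s + 1 := by
    have h7 : ∫ y in Ioi (0 : ℝ), hh s y = ∫ y in Ioc (0 : ℝ) (s + 1), hh s y := by
      refine setIntegral_eq_of_subset_of_forall_sdiff_eq_zero measurableSet_Ioi Ioc_subset_Ioi_self fun x hx => ?_
      refine hh_of_ge hs ?_
      by_contra h8
      exact hx.2 ⟨hx.1, (not_le.1 h8).le⟩
    rw [h7]
    have hc : Continuous fun y => hh s y := by
      unfold hh
      fun_prop
    have h8 : ∫ y in Ioc (0 : ℝ) (s + 1), hh s y ≤ ∫ y in Ioc (0 : ℝ) (s + 1), (1 : ℝ) := by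
      refine setIntegral_mono_on ?_ ?_ measurableSet_Ioc fun x _ => hh_le_one x
      · exact (hc.integrableOn_Icc).mono_set Ioc_subset_Icc_self
      · exact integrableOn_const (by simp)
    refine h8.trans ?_
    rw [setIntegral_const, smul_eq_mul, mul_one, Real.volume_real_Ioc_of_le (by linarith)]
    linarith
  rw [nsmul_eq_mul, smul_eq_mul]
  have h9 : (0 : ℝ) ≤ 2 * Real.pi := by positivity
  calc ((2 : ℕ) : ℝ) * (Real.pi * ∫ y in Ioi (0 : ℝ), hh s y) = 2 * Real.pi * ∫ y in Ioi (0 : ℝ), hh s y := by push_cast; ring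
    _ ≤ 2 * Real.pi * (s + 1) := mul_le_mul_of_nonneg_left h6 h9

/-- **Length and area.** -/
theorem Lam_sq_le (hl : Continuous lam) (hl0 : ∀ z, 0 ≤ lam z) {s : ℝ} (hs : 0 ≤ s) :
    Lam lam s ^ 2 ≤ 2 * Real.pi * (s + 1) * ∫ z : ℂ, ww s z * lam z ^ 2 := by
  have hJ : Integrable fun z : ℂ => ww s z * lam z ^ 2 := by
    obtain ⟨M, hM0, hM⟩ := bdd_of_cont (f := fun z => lam z ^ 2) (by fun_prop) (Real.exp (s + 1))
    refine integrable_of_bdd (M := M) (R := Real.exp (s + 1)) ?_ (fun z hz => ?_) fun z => ?_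
    · have h1 : Measurable (ww s) := by
        unfold ww
        have h1 : Measurable fun z : ℂ => Real.log ‖z‖ := Real.measurable_log.comp measurable_norm
        exact measurable_const.sub (continuous_st.measurable.comp (h1.sub_const s))
      exact h1.aestronglyMeasurable.mul (by fun_prop)
    · rw [ww_eq_zero hz, zero_mul]
    · rcases le_or_gt ‖z‖ (Real.exp (s + 1)) with h | h
      · rw [abs_mul, abs_of_nonneg (ww_nonneg s z)]
        calc ww s z * |lam z ^ 2| ≤ 1 * M := mul_le_mul (ww_le_one s z) (hM z h) (abs_nonneg _) zero_le_one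
          _ = M := one_mul M
      · rw [ww_eq_zero h, zero_mul, abs_zero]
        exact hM0
  have hL : Integrable fun z : ℂ => hh s (Real.log ‖z‖) * (lam z / ‖z‖) := by
    have := continuous_hh_div s hs hl 1
    simpa using this
  have hA : Integrable fun z : ℂ => hh s (Real.log ‖z‖) * (1 / ‖z‖ ^ 2) := continuous_hh_div s hs continuous_const 2
  have hL0 : 0 ≤ Lam lam s := integral_nonneg fun z => mul_nonneg (hh_nonneg hs _) (div_nonneg (hl0 z) (norm_nonneg z))
  have hJ0 : 0 ≤ ∫ z : ℂ, ww s z * lam z ^ 2 := integral_nonneg fun z => mul_nonneg (ww_nonneg s z) (sq_nonneg _)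
  rcases hL0.eq_or_lt with h0 | h0
  · rw [← h0, zero_pow two_ne_zero]
    have : 0 ≤ 2 * Real.pi * (s + 1) := by positivity
    exact mul_nonneg this hJ0
  · set A : ℝ := 2 * Real.pi * (s + 1) with hAdef
    have hA0 : 0 < A := by positivity
    have key : 2 * Lam lam s ≤ (Lam lam s / A) * A + (A / Lam lam s) * ∫ z : ℂ, ww s z * lam z ^ 2 := by
      set a : ℝ := Lam lam s / A with ha
      have ha0 : 0 < a := by positivity
      have h1 : 2 * Lam lam s ≤ a * (∫ z : ℂ, hh s (Real.log ‖z‖) * (1 / ‖z‖ ^ 2)) + (1 / a) * ∫ z : ℂ, ww s z * lam z ^ 2 := by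
        unfold Lam
        rw [← integral_const_mul, ← integral_const_mul, ← integral_const_mul, ← integral_add (hA.const_mul a) (hJ.const_mul (1 / a))]
        refine integral_mono (hL.const_mul 2) ((hA.const_mul a).add (hJ.const_mul (1 / a))) fun z => ?_
        simp only
        have h2 : hh s (Real.log ‖z‖) * lam z ^ 2 ≤ ww s z * lam z ^ 2 := mul_le_mul_of_nonneg_right (hh_le_ww s z) (sq_nonneg _)
        have h3 : 1 / a * (hh s (Real.log ‖z‖) * lam z ^ 2) ≤ 1 / a * (ww s z * lam z ^ 2) := mul_le_mul_of_nonneg_left h2 (by positivity)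
        have h4 : 2 * (lam z / ‖z‖) ≤ a * (1 / ‖z‖ ^ 2) + 1 / a * lam z ^ 2 := by
          have h5 : 0 ≤ (Real.sqrt a * (1 / ‖z‖) - (1 / Real.sqrt a) * lam z) ^ 2 := sq_nonneg _
          have h6 : Real.sqrt a ^ 2 = a := Real.sq_sqrt ha0.le
          have h7 : 0 < Real.sqrt a := Real.sqrt_pos.2 ha0
          have h9 : Real.sqrt a * (1 / Real.sqrt a) = 1 := mul_one_div_cancel h7.ne'
          have h8 : (Real.sqrt a * (1 / ‖z‖) - (1 / Real.sqrt a) * lam z) ^ 2 =
              a * (1 / ‖z‖ ^ 2) + 1 / a * lam z ^ 2 - 2 * (lam z / ‖z‖) := by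
            rw [sub_sq, mul_pow, mul_pow, h6, div_pow, div_pow, h6, one_pow]
            have h10 : 2 * (Real.sqrt a * (1 / ‖z‖)) * (1 / Real.sqrt a * lam z) = 2 * (Real.sqrt a * (1 / Real.sqrt a)) * (lam z / ‖z‖) := by
              ring
            rw [h10, h9]
            ring
          linarith
        have h5 := mul_le_mul_of_nonneg_left h4 (hh_nonneg hs (Real.log ‖z‖))
        nlinarith [h3, h5]
      refine h1.trans ?_
      have h2 : a * (∫ z : ℂ, hh s (Real.log ‖z‖) * (1 / ‖z‖ ^ 2)) ≤ a * A := mul_le_mul_of_nonneg_left (integral_hh_le hs) ha0.le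
      have h3 : 1 / a = A / Lam lam s := by
        rw [ha, one_div, inv_div]
      rw [h3]
      linarith
    rw [div_mul_cancel₀ _ hA0.ne'] at key
    have key2 : Lam lam s ≤ A / Lam lam s * ∫ z : ℂ, ww s z * lam z ^ 2 := by linarith
    have key3 := mul_le_mul_of_nonneg_left key2 h0.le
    have key4 : Lam lam s * (A / Lam lam s * ∫ z : ℂ, ww s z * lam z ^ 2) = A * ∫ z : ℂ, ww s z * lam z ^ 2 := by
      field_simp
    rw [key4] at key3
    rw [sq]
    exact key3

/-- **The choice of the radius.** -/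
theorem exists_radius (hl : Continuous lam) (hl0 : ∀ z, 0 ≤ lam z) (hI : ∀ M : ℝ, ∃ s, 0 < s ∧ M ≤ II lam s) {ε : ℝ} (hε : 0 < ε)
    (C s₀ : ℝ) : ∃ s, s₀ ≤ s ∧ 0 < s ∧ Lam lam s ≤ ε * II lam s - C := by
  by_contra hcon
  push Not at hcon
  have hder : ∀ s, 0 < s → HasDerivAt (II lam) (∫ z : ℂ, ww s z * lam z ^ 2) s := fun s hs => hasDerivAt_II hl hs
  have hJ0 : ∀ s, 0 ≤ ∫ z : ℂ, ww s z * lam z ^ 2 := fun s => integral_nonneg fun z => mul_nonneg (ww_nonneg s z) (sq_nonneg _)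
  have hmono : ∀ a b, 0 < a → a ≤ b → II lam a ≤ II lam b := by
    intro a b ha hab
    have h1 : MonotoneOn (II lam) (Ioi 0) := by
      refine monotoneOn_of_deriv_nonneg (convex_Ioi 0) (fun x hx => (hder x hx).continuousAt.continuousWithinAt) ?_ ?_
      · rw [interior_Ioi]
        exact fun x hx => (hder x hx).differentiableAt.differentiableWithinAt
      · rw [interior_Ioi]
        intro x hx
        rw [(hder x hx).deriv]
        exact hJ0 x
    exact h1 ha (lt_of_lt_of_le ha hab) hab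
  obtain ⟨s₁, hs₁, hM⟩ := hI ((C + 1) / ε)
  set s₂ : ℝ := max s₁ (max s₀ 1) with hs₂
  have hs₂0 : 0 < s₂ := lt_of_lt_of_le hs₁ (le_max_left _ _)
  have hs₂1 : s₀ ≤ s₂ := (le_max_left _ _).trans (le_max_right _ _)
  have hy : ∀ s, s₂ ≤ s → 1 ≤ ε * II lam s - C := by
    intro s hs
    have h1 := hM.trans (hmono s₁ s hs₁ ((le_max_left _ _).trans hs))
    rw [div_le_iff₀ hε] at h1
    linarith
  set c : ℝ := ε / (2 * Real.pi) with hc
  have hc0 : 0 < c := by positivity
  set g : ℝ → ℝ := fun s => -(ε * II lam s - C)⁻¹ - c * Real.log (s + 1) with hg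
  have hgder : ∀ s, s₂ ≤ s → HasDerivAt g (-(-(ε * (∫ z : ℂ, ww s z * lam z ^ 2)) / (ε * II lam s - C) ^ 2) - c * (1 / (s + 1))) s := by
    intro s hs
    have hs0 : 0 < s := lt_of_lt_of_le hs₂0 hs
    have h1 : HasDerivAt (fun s => ε * II lam s - C) (ε * ∫ z : ℂ, ww s z * lam z ^ 2) s := ((hder s hs0).const_mul ε).sub_const C
    have h2 := h1.fun_inv (by have := hy s hs; linarith)
    have h3 : HasDerivAt (fun s => Real.log (s + 1)) (1 / (s + 1)) s := by
      have := ((hasDerivAt_id s).add_const 1).log (by simp; linarith)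
      simpa using this
    exact h2.neg.sub (h3.const_mul c)
  have hgmono : MonotoneOn g (Ici s₂) := by
    refine monotoneOn_of_deriv_nonneg (convex_Ici s₂) (fun x hx => (hgder x hx).continuousAt.continuousWithinAt) ?_ ?_
    · rw [interior_Ici]
      exact fun x hx => (hgder x (le_of_lt hx)).differentiableAt.differentiableWithinAt
    · rw [interior_Ici]
      intro x hx
      have hx' : s₂ ≤ x := le_of_lt hx
      have hx0 : 0 < x := lt_of_lt_of_le hs₂0 hx'
      rw [(hgder x hx').deriv]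
      have h1 := hcon x (hs₂1.trans hx') hx0
      have h2 := hy x hx'
      have h3 := Lam_sq_le hl hl0 hx0.le
      set y : ℝ := ε * II lam x - C with hydef
      set J : ℝ := ∫ z : ℂ, ww x z * lam z ^ 2 with hJ
      have h4 : y ^ 2 ≤ 2 * Real.pi * (x + 1) * J := by
        have : y ^ 2 ≤ Lam lam x ^ 2 := pow_le_pow_left₀ (by linarith) h1.le 2
        exact this.trans h3
      have hy0 : 0 < y := by linarith
      have h5 : c * (1 / (x + 1)) ≤ ε * J / y ^ 2 := by
        rw [le_div_iff₀ (by positivity), hc]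
        have h6 : ε / (2 * Real.pi) * (1 / (x + 1)) * y ^ 2 ≤ ε / (2 * Real.pi) * (1 / (x + 1)) * (2 * Real.pi * (x + 1) * J) :=
          mul_le_mul_of_nonneg_left h4 (by positivity)
        refine h6.trans (le_of_eq ?_)
        have hpi := Real.pi_ne_zero
        have hx1 : x + 1 ≠ 0 := by linarith
        field_simp
      have h7 : -(-(ε * J) / y ^ 2) = ε * J / y ^ 2 := by ring
      rw [h7]
      linarith
  -- the logarithm is unbounded
  obtain ⟨s₃, hs₃⟩ : ∃ s₃ : ℝ, s₂ ≤ s₃ ∧ 1 - g s₂ ≤ c * Real.log (s₃ + 1) := by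
    refine ⟨max s₂ (Real.exp ((1 - g s₂) / c)), le_max_left _ _, ?_⟩
    have h1 : (1 - g s₂) / c ≤ Real.log (max s₂ (Real.exp ((1 - g s₂) / c)) + 1) := by
      rw [Real.le_log_iff_exp_le (by positivity)]
      have := le_max_right s₂ (Real.exp ((1 - g s₂) / c))
      linarith
    rw [div_le_iff₀ hc0] at h1
    linarith
  have h1 := hgmono (mem_Ici.2 le_rfl) (mem_Ici.2 hs₃.1) hs₃.1
  have h2 : g s₃ ≤ - (c * Real.log (s₃ + 1)) := by
    have h3 : 0 ≤ (ε * II lam s₃ - C)⁻¹ := inv_nonneg.2 (by linarith [hy s₃ hs₃.1])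
    simp only [hg]
    linarith
  linarith [hs₃.2]

/-! ### the official test function -/

theorem tau_eq_tA {R : ℝ} (hR : 1 ≤ R) (z : ℂ) : tau R z = tA (Real.log R) z := by
  have hR0 : 0 < R := lt_of_lt_of_le one_pos hR
  unfold tau tA P
  rcases eq_or_ne z 0 with rfl | hz
  · have h1 : 0 ≤ Real.log R := Real.log_nonneg hR
    rw [zero_div, norm_zero, Real.log_zero, Th_nonpos (show (0 : ℝ) ≤ 0 from le_rfl), Th_nonpos (show 0 - Real.log R ≤ 0 by linarith)]
  · rw [norm_div, Complex.norm_real, Real.norm_of_nonneg hR0.le, Real.log_div (norm_ne_zero_iff.2 hz) hR0.ne']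

theorem norm_gr_tau {R : ℝ} (hR : 1 ≤ R) (z : ℂ) : ‖gr (tau R) z‖ = hh (Real.log R) (Real.log ‖z‖) / ‖z‖ := by
  have hR0 : 0 < R := lt_of_lt_of_le one_pos hR
  have h3 : ∀ v : ℂ, fderiv ℝ (tau R) z v = -(hh (Real.log R) (Real.log ‖z‖) * (v / z).re) := by
    intro v
    rw [fderiv_tau hR]
    rcases eq_or_ne z 0 with rfl | hz
    · simp
    · have e6 : Real.log ‖z / (R : ℂ)‖ = Real.log ‖z‖ - Real.log R := by
        rw [norm_div, Complex.norm_real, Real.norm_of_nonneg hR0.le, Real.log_div (norm_ne_zero_iff.2 hz) hR0.ne']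
      rw [e6]
      unfold hh
      ring
  have h4 : gr (tau R) z = -((hh (Real.log R) (Real.log ‖z‖) : ℝ) : ℂ) * (starRingEnd ℂ) (1 / z) := by
    apply Complex.ext
    · rw [gr_re, h3]
      simp
    · rw [gr_im, h3]
      simp [Complex.div_re, Complex.inv_im, Complex.inv_re]
  rw [h4, norm_mul, norm_neg, Complex.norm_real, RCLike.norm_conj, norm_div, norm_one,
    Real.norm_of_nonneg (hh_nonneg (Real.log_nonneg hR) _)]
  ring

/-- **The choice of the radius.** -/
theorem sel_of_unbounded (hl : Continuous lam) (hl0 : ∀ z, 0 ≤ lam z) (hI : ∀ M : ℝ, ∃ R : ℝ, 1 < R ∧ M ≤ ∫ z : ℂ, tau R z * lam z ^ 2) {ε : ℝ} (hε : 0 < ε)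
    (C R₀ : ℝ) : ∃ R : ℝ, R₀ ≤ R ∧ 1 < R ∧
      (∫ z : ℂ, ‖gr (tau R) z‖ * lam z) ≤ ε * (∫ z : ℂ, tau R z * lam z ^ 2) - C := by
  have e1 : ∀ R : ℝ, 1 ≤ R → ∫ z : ℂ, tau R z * lam z ^ 2 = II lam (Real.log R) := by
    intro R hR
    unfold II
    exact integral_congr_ae (Eventually.of_forall fun z => by simp only [tau_eq_tA hR])
  have e2 : ∀ R : ℝ, 1 ≤ R → (∫ z : ℂ, ‖gr (tau R) z‖ * lam z) = Lam lam (Real.log R) := by
    intro R hR
    unfold Lam
    refine integral_congr_ae (Eventually.of_forall fun z => ?_)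
    simp only [norm_gr_tau hR]
    ring
  obtain ⟨s, hs1, hs2, hs3⟩ := exists_radius hl hl0 (fun M => by
    obtain ⟨R, hR, hM⟩ := hI M
    exact ⟨Real.log R, Real.log_pos hR, by rw [← e1 R hR.le]; exact hM⟩) hε C R₀
  refine ⟨Real.exp s, ?_, Real.one_lt_exp_iff.2 hs2, ?_⟩
  · have := Real.add_one_le_exp s
    linarith
  · rw [e1 _ (Real.one_lt_exp_iff.2 hs2).le, e2 _ (Real.one_lt_exp_iff.2 hs2).le, Real.log_exp]
    exact hs3

/-- **The choice of the radius.** -/
theorem _root_.Pool.Agent.MQ.sel {l : ℂ → ℝ} (hc : Continuous l) (h0 : ∀ z, 0 ≤ l z) (hne : ∃ z, l z ≠ 0) {ε : ℝ} (hε : 0 < ε) (C R₀ : ℝ) :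
    ∃ R, R₀ ≤ R ∧ 1 ≤ R ∧ (∫ z, ‖gr (tau R) z‖ * l z) + C ≤ ε * ∫ z, tau R z * l z ^ 2 := by
  obtain ⟨a, ha⟩ := hne
  -- the mass of a ball
  set r : ℝ := ‖a‖ + 1 with hr
  have hr1 : 1 ≤ r := by
    have := norm_nonneg a
    linarith
  have hcont : Continuous fun z => l z ^ 2 := by fun_prop
  have hI : IntegrableOn (fun z => l z ^ 2) (Metric.closedBall (0 : ℂ) r) := hcont.continuousOn.integrableOn_compact (isCompact_closedBall _ _)
  have hpos : 0 < ∫ z in Metric.closedBall (0 : ℂ) r, l z ^ 2 := by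
    rw [setIntegral_pos_iff_support_of_nonneg_ae (Eventually.of_forall fun z => sq_nonneg (l z)) hI]
    have h1 : IsOpen ({z | l z ≠ 0} ∩ Metric.ball (0 : ℂ) r) := (isOpen_ne_fun hc continuous_const).inter Metric.isOpen_ball
    have h2 : (a : ℂ) ∈ {z | l z ≠ 0} ∩ Metric.ball (0 : ℂ) r := ⟨ha, by simp [hr]⟩
    refine lt_of_lt_of_le (h1.measure_pos volume ⟨a, h2⟩) (measure_mono fun z hz => ⟨?_, Metric.ball_subset_closedBall hz.2⟩)
    simp only [Function.mem_support]
    exact pow_ne_zero 2 hz.1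
  set m : ℝ := ∫ z in Metric.closedBall (0 : ℂ) r, l z ^ 2 with hm
  have hlow : ∀ R : ℝ, 1 ≤ R → (Real.log R - Real.log r) * m ≤ ∫ z : ℂ, tau R z * l z ^ 2 := by
    intro R hR
    have h1 : ∫ z : ℂ, tau R z * l z ^ 2 = II l (Real.log R) := by
      unfold II
      exact integral_congr_ae (Eventually.of_forall fun z => by simp only [tau_eq_tA hR])
    have hint : Integrable fun z : ℂ => tau R z * l z ^ 2 := by
      have h2 := integrable_tA_mul (Real.log_nonneg hR) hcont
      exact h2.congr (Eventually.of_forall fun z => by simp only [tau_eq_tA hR])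
    have h3 : ∫ z in Metric.closedBall (0 : ℂ) r, tau R z * l z ^ 2 ≤ ∫ z : ℂ, tau R z * l z ^ 2 :=
      setIntegral_le_integral hint (Eventually.of_forall fun z => mul_nonneg (tau_nonneg hR z) (sq_nonneg _))
    refine le_trans ?_ h3
    rw [hm, ← integral_const_mul]
    refine setIntegral_mono_on (hI.const_mul _) hint.integrableOn measurableSet_closedBall fun z hz => ?_
    exact mul_le_mul_of_nonneg_right (le_tau hR hr1 (by simpa using hz)) (sq_nonneg _)
  obtain ⟨R, hR1, hR2, hR3⟩ := sel_of_unbounded hc h0 (fun M => by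
    set R : ℝ := Real.exp (Real.log r + (|M| + 1) / m) with hRdef
    have hlr : 0 ≤ Real.log r := Real.log_nonneg hr1
    have hR : 1 < R := by
      rw [hRdef, Real.one_lt_exp_iff]
      positivity
    refine ⟨R, hR, le_trans ?_ (hlow R hR.le)⟩
    rw [hRdef, Real.log_exp]
    have h1 : (Real.log r + (|M| + 1) / m - Real.log r) * m = |M| + 1 := by
      field_simp
      ring
    rw [h1]
    have := le_abs_self M
    linarith) hε C R₀
  exact ⟨R, hR1, hR2.le, by linarith⟩

end Pool.Agent.MQ.SelA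

end
end

section

/-!
# MQ Core: the pack of a curve from an atlas along the curve

The global function is `E = - log ∑ χ k exp (- e k)`.  Near a point of `U i` it is `e i - mm i`, where `mm i = log ∑ χ k exp (e i - e k)` is of class `C²`,
and the global field is `grad (mm i) + η i`.
-/

set_option autoImplicit false

open Topology Filter Metric MeasureTheory Laplacian

noncomputable section

namespace Pool.Agent.MQ.Core

open Pool.Agent.H30M (tau avg LogSing rhoR)
open Pool.Agent.H36.BP (EN)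

theorem ev_nhds {p : ℂ → Prop} {z : ℂ} (h : ∀ᶠ w in 𝓝[≠] z, p w) : ∀ᶠ w in 𝓝[≠] z, ∀ᶠ x in 𝓝 w, p x := by
  have h2 := eventually_eventually_nhdsWithin.2 h
  filter_upwards [h2, self_mem_nhdsWithin] with w hw hne
  rwa [IsOpen.nhdsWithin_eq isOpen_compl_singleton hne] at hw

theorem ev_all {p : ℂ → Prop} {z : ℂ} (h : ∀ᶠ x in 𝓝[≠] z, p x) : ∀ᶠ w in 𝓝 z, ∀ᶠ x in 𝓝[≠] w, p x := by
  have h1 := ev_nhds h
  rw [eventually_nhdsWithin_iff] at h1
  filter_upwards [h1] with w hw
  by_cases hwz : w = z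
  · rw [hwz]; exact h
  · exact (hw hwz).filter_mono nhdsWithin_le_nhds

/-- gradient of `log |w - z|` -/
theorem gr_log {z w : ℂ} (h : w ≠ z) : gr (fun w => Real.log ‖w - z‖) w = (starRingEnd ℂ) (1 / (w - z)) := by
  have h1 := gr_log_norm (h := fun w => w - z) (z := w) (by fun_prop) (sub_ne_zero.2 h)
  have e : deriv (fun w : ℂ => w - z) w = 1 := by simp
  rwa [e] at h1

theorem diff_log {z w : ℂ} (h : w ≠ z) : DifferentiableAt ℝ (fun w : ℂ => Real.log ‖w - z‖) w :=
  (Pool.Agent.H30M.contDiffAt_log_norm (h := fun ζ => ζ - z) (by fun_prop) (sub_ne_zero.2 h)).differentiableAt (by norm_num)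

theorem gr_cls {c : ℝ} {s e : ℂ → ℝ} {z : ℂ} (hs : ContDiffAt ℝ 2 s z) (he : e =ᶠ[𝓝[≠] z] fun w => c * Real.log ‖w - z‖ + s w) :
    ∀ᶠ w in 𝓝[≠] z, gr e w = (c : ℂ) * (starRingEnd ℂ) (1 / (w - z)) + gr s w := by
  have h1 : ∀ᶠ w in 𝓝[≠] z, ContDiffAt ℝ 2 s w := (hs.eventually (by simp)).filter_mono nhdsWithin_le_nhds
  filter_upwards [ev_nhds he, h1, self_mem_nhdsWithin] with w hw h2 hne
  rw [gr_congr (show e =ᶠ[𝓝 w] fun w => c * Real.log ‖w - z‖ + s w from hw),
    gr_add ((diff_log hne).const_mul c) (h2.differentiableAt (by norm_num)), gr_const_mul c (diff_log hne), gr_log hne]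

/-- the difference of two local logarithms -/
theorem removable {e₁ e₂ : ℂ → ℝ} {η₁ η₂ : ℂ → ℂ} {z : ℂ}
    (h₁ : ∃ c, LogSing e₁ c z) (h₂ : ∃ c, LogSing e₂ c z) (hη₁ : ContinuousAt η₁ z)
    (hη₂ : ContinuousAt η₂ z) (h : ∀ᶠ w in 𝓝[≠] z, gr e₁ w + η₁ w = gr e₂ w + η₂ w) :
    ∃ φ : ℂ → ℝ, ContDiffAt ℝ 2 φ z ∧ (∀ᶠ w in 𝓝[≠] z, e₂ w - e₁ w = φ w) ∧ gr φ =ᶠ[𝓝 z] fun w => η₁ w - η₂ w := by
  obtain ⟨c₁, s₁, hs₁, he₁⟩ := h₁
  obtain ⟨c₂, s₂, hs₂, he₂⟩ := h₂
  have hφ : ContDiffAt ℝ 2 (fun w => s₂ w - s₁ w) z := hs₂.sub hs₁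
  have hd1 : ∀ᶠ w in 𝓝[≠] z, DifferentiableAt ℝ s₁ w :=
    ((hs₁.eventually (by simp)).filter_mono nhdsWithin_le_nhds).mono fun w hw => hw.differentiableAt (by norm_num)
  have hd2 : ∀ᶠ w in 𝓝[≠] z, DifferentiableAt ℝ s₂ w :=
    ((hs₂.eventually (by simp)).filter_mono nhdsWithin_le_nhds).mono fun w hw => hw.differentiableAt (by norm_num)
  have key : ∀ᶠ w in 𝓝[≠] z, ((c₂ - c₁ : ℝ) : ℂ) * (starRingEnd ℂ) (1 / (w - z)) = η₁ w - η₂ w - gr (fun w => s₂ w - s₁ w) w := by
    filter_upwards [gr_cls hs₁ he₁, gr_cls hs₂ he₂, h, hd1, hd2] with w h1 h2 h3 h4 h5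
    rw [gr_sub h5 h4]
    rw [h1, h2] at h3
    push_cast
    linear_combination - h3
  have hG : ContinuousAt (fun w => η₁ w - η₂ w - gr (fun w => s₂ w - s₁ w) w) z :=
    (hη₁.sub hη₂).sub (continuousAt_gr (hφ.of_le (by norm_num)))
  have hc : ((c₂ - c₁ : ℝ) : ℂ) = 0 := by
    have t1 : Tendsto (fun w => (starRingEnd ℂ) (w - z) * (η₁ w - η₂ w - gr (fun w => s₂ w - s₁ w) w)) (𝓝[≠] z) (𝓝 0) := by
      have t2 : ContinuousAt (fun w => (starRingEnd ℂ) (w - z) * (η₁ w - η₂ w - gr (fun w => s₂ w - s₁ w) w)) z := by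
        refine ContinuousAt.mul ?_ hG
        exact (Complex.continuous_conj.comp (continuous_id.sub continuous_const)).continuousAt
      have t3 := t2.tendsto.mono_left (nhdsWithin_le_nhds (s := {z}ᶜ))
      simpa using t3
    refine tendsto_nhds_unique (tendsto_const_nhds (f := 𝓝[≠] z)) (t1.congr' ?_)
    filter_upwards [key, self_mem_nhdsWithin] with w hw hne
    have h0 : w - z ≠ 0 := sub_ne_zero.2 hne
    rw [← hw]
    have h1 : (starRingEnd ℂ) (w - z) ≠ 0 := (map_ne_zero _).2 h0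
    rw [map_div₀, map_one]
    field_simp
  have hc' : c₂ - c₁ = 0 := by exact_mod_cast hc
  refine ⟨fun w => s₂ w - s₁ w, hφ, ?_, ?_⟩
  · filter_upwards [he₁, he₂] with w h1 h2
    rw [h1, h2]
    have : c₂ = c₁ := by linarith
    rw [this]; ring
  · refine ((continuousAt_gr (hφ.of_le (by norm_num))).eventuallyEq_nhds_iff_eventuallyEq_nhdsNE (hη₁.sub hη₂)).1 ?_
    filter_upwards [key] with w hw
    rw [hc, zero_mul] at hw
    show gr (fun w => s₂ w - s₁ w) w = η₁ w - η₂ w
    linear_combination hw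

variable {l : ℂ → ℝ} {ι : Type} {U : ι → Set ℂ} {χ e : ι → ℂ → ℝ} {η : ι → ℂ → ℂ} {C : ℝ}

/-- the continuous extension of `e k - e i` -/
def ps (e : ι → ℂ → ℝ) (i k : ι) (w : ℂ) : ℝ := limUnder (𝓝[≠] w) fun x => e k x - e i x

theorem ps_eq {i k : ι} {z : ℂ} {φ : ℂ → ℝ} (hφ : ContDiffAt ℝ 2 φ z) (h : ∀ᶠ w in 𝓝[≠] z, e k w - e i w = φ w) : ps e i k =ᶠ[𝓝 z] φ := by
  filter_upwards [ev_all h, hφ.eventually (by simp)] with w h1 h2
  refine Tendsto.limUnder_eq ?_
  exact (h2.continuousAt.tendsto.mono_left nhdsWithin_le_nhds).congr' (h1.mono fun x hx => hx.symm)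

theorem ext (h : Patches l U χ e η C) {i k : ι} {z : ℂ} (hi : z ∈ U i) (hk : z ∈ U k) : ContDiffAt ℝ 2 (ps e i k) z ∧
    (∀ᶠ w in 𝓝[≠] z, e k w - e i w = ps e i k w) ∧ gr (ps e i k) =ᶠ[𝓝 z] fun w => η i w - η k w := by
  have c1 : ContinuousAt (η i) z := ((h.field i).contDiffAt ((h.isOpen i).mem_nhds hi)).continuousAt
  have c2 : ContinuousAt (η k) z := ((h.field k).contDiffAt ((h.isOpen k).mem_nhds hk)).continuousAt
  obtain ⟨φ, h1, h2, h3⟩ := removable (h.log i z hi) (h.log k z hk) c1 c2 (h.comp i k z hi hk)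
  have h4 := ps_eq h1 h2
  refine ⟨h1.congr_of_eventuallyEq h4, ?_, ?_⟩
  · filter_upwards [h2, h4.filter_mono nhdsWithin_le_nhds] with w h5 h6
    rw [h5, h6]
  · exact (gr_eventuallyEq h4).trans h3

theorem cocycle (h : Patches l U χ e η C) {i j k : ι} {z : ℂ} (hi : z ∈ U i) (hj : z ∈ U j) (hk : z ∈ U k) :
    ps e i k z = ps e i j z + ps e j k z := by
  obtain ⟨a1, a2, -⟩ := ext h hi hk
  obtain ⟨b1, b2, -⟩ := ext h hi hj
  obtain ⟨c1, c2, -⟩ := ext h hj hk
  have t1 : Tendsto (ps e i k) (𝓝[≠] z) (𝓝 (ps e i k z)) := a1.continuousAt.tendsto.mono_left nhdsWithin_le_nhds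
  have t2 : Tendsto (fun w => ps e i j w + ps e j k w) (𝓝[≠] z) (𝓝 (ps e i j z + ps e j k z)) :=
    (b1.continuousAt.add c1.continuousAt).tendsto.mono_left nhdsWithin_le_nhds
  refine tendsto_nhds_unique t1 (t2.congr' ?_)
  filter_upwards [a2, b2, c2] with w h1 h2 h3
  rw [← h1, ← h2, ← h3]; ring

theorem ps_self (h : Patches l U χ e η C) {i : ι} {z : ℂ} (hi : z ∈ U i) : ps e i i z = 0 := by
  have := cocycle h hi hi hi
  linarith

variable [Fintype ι]

/-- the sum -/
def SS (χ e : ι → ℂ → ℝ) (i : ι) (w : ℂ) : ℝ := ∑ k, χ k w * Real.exp (-(ps e i k w))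

/-- the gauge -/
def mm (χ e : ι → ℂ → ℝ) (i : ι) (w : ℂ) : ℝ := Real.log (SS χ e i w)

omit [Fintype ι] in
theorem term_smooth (h : Patches l U χ e η C) {i : ι} {z : ℂ} (hi : z ∈ U i) (k : ι) :
    ContDiffAt ℝ 2 (fun w => χ k w * Real.exp (-(ps e i k w))) z := by
  by_cases hk : z ∈ tsupport (χ k)
  · exact (h.smooth k).contDiffAt.mul (Real.contDiff_exp.contDiffAt.comp z (ext h hi (h.supp k hk)).1.neg)
  · have h1 : (fun w => χ k w * Real.exp (-(ps e i k w))) =ᶠ[𝓝 z] fun _ => 0 := by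
      filter_upwards [notMem_tsupport_iff_eventuallyEq.1 hk] with w hw
      rw [hw]; simp
    exact contDiffAt_const.congr_of_eventuallyEq h1

theorem SS_smooth (h : Patches l U χ e η C) {i : ι} {z : ℂ} (hi : z ∈ U i) : ContDiffAt ℝ 2 (SS χ e i) z := by
  unfold SS
  exact ContDiffAt.sum fun k _ => term_smooth h hi k

theorem SS_pos (h : Patches l U χ e η C) (i : ι) (z : ℂ) : 0 < SS χ e i z := by
  obtain ⟨j, hj⟩ := h.cover z
  refine Finset.sum_pos' (fun k _ => mul_nonneg (h.nonneg k z) (Real.exp_pos _).le) ⟨j, Finset.mem_univ _, ?_⟩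
  rw [hj, one_mul]
  exact Real.exp_pos _

omit [Fintype ι] in
theorem mem_of_one {j : ι} {z : ℂ} (hj : χ j z = 1) : z ∈ tsupport (χ j) :=
  subset_tsupport _ (by rw [Function.mem_support, hj]; norm_num)

theorem SS_ge (h : Patches l U χ e η C) {j : ι} {z : ℂ} (hj : χ j z = 1) : 1 ≤ SS χ e j z := by
  have h1 : χ j z * Real.exp (-(ps e j j z)) ≤ SS χ e j z :=
    Finset.single_le_sum (f := fun k => χ k z * Real.exp (-(ps e j k z))) (fun k _ => mul_nonneg (h.nonneg k z) (Real.exp_pos _).le) (Finset.mem_univ j)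
  rw [hj, ps_self h (h.supp j (mem_of_one hj))] at h1
  simpa using h1

theorem mm_smooth (h : Patches l U χ e η C) {i : ι} {z : ℂ} (hi : z ∈ U i) : ContDiffAt ℝ 2 (mm χ e i) z :=
  (SS_smooth h hi).log (SS_pos h i z).ne'

theorem SS_comp (h : Patches l U χ e η C) {i j : ι} {z : ℂ} (hi : z ∈ U i) (hj : z ∈ U j) :
    SS χ e i z = Real.exp (-(ps e i j z)) * SS χ e j z := by
  unfold SS
  rw [Finset.mul_sum]
  refine Finset.sum_congr rfl fun k _ => ?_
  by_cases hk : χ k z = 0
  · rw [hk]; ring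
  · rw [cocycle h hi hj (h.supp k (subset_tsupport _ hk)), neg_add, Real.exp_add]; ring

theorem mm_comp (h : Patches l U χ e η C) {i j : ι} {z : ℂ} (hi : z ∈ U i) (hj : z ∈ U j) : mm χ e i z = mm χ e j z - ps e i j z := by
  unfold mm
  rw [SS_comp h hi hj, Real.log_mul (Real.exp_pos _).ne' (SS_pos h j z).ne', Real.log_exp]; ring

theorem gr_comp' (h : Patches l U χ e η C) {i j : ι} {z : ℂ} (hi : z ∈ U i) (hj : z ∈ U j) :
    gr (mm χ e i) z + η i z = gr (mm χ e j) z + η j z := by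
  have h1 : mm χ e i =ᶠ[𝓝 z] fun w => mm χ e j w - ps e i j w := by
    filter_upwards [(h.isOpen i).mem_nhds hi, (h.isOpen j).mem_nhds hj] with w a b using mm_comp h a b
  obtain ⟨a1, -, a3⟩ := ext h hi hj
  rw [gr_congr h1, gr_sub ((mm_smooth h hj).differentiableAt (by norm_num)) (a1.differentiableAt (by norm_num)), a3.eq_of_nhds]
  ring

open Classical in
/-- the global field -/
def fld (U : ι → Set ℂ) (χ e : ι → ℂ → ℝ) (η : ι → ℂ → ℂ) (z : ℂ) : ℂ :=
  if hz : ∃ i, z ∈ U i then gr (mm χ e hz.choose) z + η hz.choose z else 0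

theorem fld_eq (h : Patches l U χ e η C) {i : ι} {z : ℂ} (hi : z ∈ U i) : fld U χ e η z = gr (mm χ e i) z + η i z := by
  have hz : ∃ i, z ∈ U i := ⟨i, hi⟩
  unfold fld
  rw [dif_pos hz]
  exact gr_comp' h hz.choose_spec hi

omit [Fintype ι] in
theorem mem_some (h : Patches l U χ e η C) (z : ℂ) : ∃ i, z ∈ U i ∧ χ i z = 1 := by
  obtain ⟨j, hj⟩ := h.cover z
  exact ⟨j, h.supp j (mem_of_one hj), hj⟩

theorem fld_ev (h : Patches l U χ e η C) {i : ι} {z : ℂ} (hi : z ∈ U i) : fld U χ e η =ᶠ[𝓝 z] fun w => gr (mm χ e i) w + η i w := by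
  filter_upwards [(h.isOpen i).mem_nhds hi] with w hw using fld_eq h hw

theorem fld_smooth (h : Patches l U χ e η C) : ContDiff ℝ 1 (fld U χ e η) := by
  rw [contDiff_iff_contDiffAt]
  intro z
  obtain ⟨i, hi, -⟩ := mem_some h z
  exact ((contDiffAt_gr (mm_smooth h hi) (by norm_num)).add ((h.field i).contDiffAt ((h.isOpen i).mem_nhds hi))).congr_of_eventuallyEq (fld_ev h hi)

theorem gr_sum {κ : Type} (s : Finset κ) {f : κ → ℂ → ℝ} {z : ℂ} (hf : ∀ k ∈ s, DifferentiableAt ℝ (f k) z) :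
    gr (fun w => ∑ k ∈ s, f k w) z = ∑ k ∈ s, gr (f k) z := by
  rw [gr_eq, (HasFDerivAt.fun_sum fun k hk => (hf k hk).hasFDerivAt).fderiv, map_sum]
  rfl

omit [Fintype ι] in
theorem term_le (h : Patches l U χ e η C) (hl0 : ∀ z, 0 ≤ l z) (hC : 0 ≤ C) {j : ι} {z : ℂ} (hj : z ∈ tsupport (χ j)) (k : ι)
    (hb : z ∈ tsupport (χ k) → |ps e j k z| ≤ C) :
    ‖gr (fun w => χ k w * Real.exp (-(ps e j k w))) z‖ ≤ Real.exp C * (3 * C * l z) := by
  have hnn : 0 ≤ Real.exp C * (3 * C * l z) := by have := hl0 z; positivity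
  by_cases hk : z ∈ tsupport (χ k)
  · have hjU := h.supp j hj
    have hkU := h.supp k hk
    obtain ⟨a1, -, a3⟩ := ext h hjU hkU
    have hd : DifferentiableAt ℝ (ps e j k) z := a1.differentiableAt (by norm_num)
    have hde : DifferentiableAt ℝ (fun w => Real.exp (-(ps e j k w))) z := hd.neg.exp
    have h1 : gr (fun w => Real.exp (-(ps e j k w))) z = ((-Real.exp (-(ps e j k z)) : ℝ) : ℂ) * (η j z - η k z) := by
      have h2 : HasDerivAt (fun t : ℝ => Real.exp (-t)) (-Real.exp (-(ps e j k z))) (ps e j k z) := by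
        have := (hasDerivAt_neg (ps e j k z)).exp
        simpa using this
      rw [gr_comp h2 hd, a3.eq_of_nhds]
    rw [gr_mul ((h.smooth k).differentiable (by norm_num) z) hde, h1]
    have hb := abs_le.1 (hb hk)
    have he : Real.exp (-(ps e j k z)) ≤ Real.exp C := Real.exp_le_exp.2 (by linarith [hb.1])
    have n1 : ‖η j z - η k z‖ ≤ 2 * C * l z := by
      refine (norm_sub_le _ _).trans ?_
      have := h.field_le j z hjU
      have := h.field_le k z hkU
      linarith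
    have n2 := h.gr_le k z
    have n3 : 0 ≤ Real.exp (-(ps e j k z)) := (Real.exp_pos _).le
    have n4 : 0 ≤ C * l z := mul_nonneg hC (hl0 z)
    refine (norm_add_le _ _).trans ?_
    rw [norm_mul, norm_mul, norm_mul, Complex.norm_real, Complex.norm_real, Complex.norm_real, norm_neg, Real.norm_of_nonneg n3,
      Real.norm_of_nonneg (h.nonneg k z)]
    have m1 : χ k z * (Real.exp (-(ps e j k z)) * ‖η j z - η k z‖) ≤ Real.exp C * (2 * C * l z) := by
      calc χ k z * (Real.exp (-(ps e j k z)) * ‖η j z - η k z‖) ≤ 1 * (Real.exp (-(ps e j k z)) * ‖η j z - η k z‖) :=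
            mul_le_mul_of_nonneg_right (h.le_one k z) (mul_nonneg n3 (norm_nonneg _))
        _ = Real.exp (-(ps e j k z)) * ‖η j z - η k z‖ := one_mul _
        _ ≤ Real.exp C * (2 * C * l z) := mul_le_mul he n1 (norm_nonneg _) (Real.exp_pos _).le
    have m2 : Real.exp (-(ps e j k z)) * ‖gr (χ k) z‖ ≤ Real.exp C * (C * l z) := mul_le_mul he n2 (norm_nonneg _) (Real.exp_pos _).le
    calc _ ≤ Real.exp C * (2 * C * l z) + Real.exp C * (C * l z) := add_le_add m1 m2
      _ = Real.exp C * (3 * C * l z) := by ring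
  · have h1 : (fun w => χ k w * Real.exp (-(ps e j k w))) =ᶠ[𝓝 z] fun _ => 0 := by
      filter_upwards [notMem_tsupport_iff_eventuallyEq.1 hk] with w hw
      rw [hw]; simp
    rw [gr_congr h1, gr_const, norm_zero]
    exact hnn

omit [Fintype ι] in
theorem ps_val (h : Patches l U χ e η C) {j k : ι} {z : ℂ} (hj : z ∈ U j) (hk : z ∈ U k) (cj : ContDiffAt ℝ 2 (e j) z) (ck : ContDiffAt ℝ 2 (e k) z) :
    ps e j k z = e k z - e j z := by
  obtain ⟨a1, a2, -⟩ := ext h hj hk
  have t1 : Tendsto (ps e j k) (𝓝[≠] z) (𝓝 (ps e j k z)) := a1.continuousAt.tendsto.mono_left nhdsWithin_le_nhds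
  have t2 : Tendsto (fun w => e k w - e j w) (𝓝[≠] z) (𝓝 (e k z - e j z)) :=
    (ck.continuousAt.sub cj.continuousAt).tendsto.mono_left nhdsWithin_le_nhds
  exact tendsto_nhds_unique (t1.congr' (a2.mono fun w hw => hw.symm)) t2

theorem ev_reg (h : Patches l U χ e η C) (z : ℂ) : ∀ᶠ w in 𝓝[≠] z, ∀ k, w ∈ tsupport (χ k) → ContDiffAt ℝ 2 (e k) w := by
  rw [eventually_all]
  intro k
  by_cases hk : z ∈ tsupport (χ k)
  · obtain ⟨c, hc⟩ := h.log k z (h.supp k hk)
    exact hc.eventually.mono fun w hw _ => hw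
  · have : ∀ᶠ w in 𝓝 z, w ∉ tsupport (χ k) := (isClosed_tsupport _).isOpen_compl.mem_nhds hk
    exact (this.filter_mono nhdsWithin_le_nhds).mono fun w hw hn => absurd hn hw

theorem fld_le_reg (h : Patches l U χ e η C) (hl0 : ∀ z, 0 ≤ l z) (hC : 0 ≤ C) {z : ℂ} (hz : ∀ k, z ∈ tsupport (χ k) → ContDiffAt ℝ 2 (e k) z) :
    ‖fld U χ e η z‖ ≤ (Fintype.card ι * (Real.exp C * (3 * C)) + C) * l z := by
  obtain ⟨j, hj, hj1⟩ := mem_some h z
  have hjs := mem_of_one hj1
  have hb : ∀ k, z ∈ tsupport (χ k) → |ps e j k z| ≤ C := by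
    intro k hk
    rw [ps_val h hj (h.supp k hk) (hz j hjs) (hz k hk), abs_sub_comm]
    exact h.bound j k z hj1 hk (hz j hjs) (hz k hk)
  have h1 : ‖gr (SS χ e j) z‖ ≤ Fintype.card ι * (Real.exp C * (3 * C * l z)) := by
    have h2 : gr (SS χ e j) z = ∑ k, gr (fun w => χ k w * Real.exp (-(ps e j k w))) z :=
      gr_sum (z := z) Finset.univ fun k _ => (term_smooth h hj k).differentiableAt (by norm_num)
    rw [h2]
    refine (norm_sum_le _ _).trans ?_
    refine (Finset.sum_le_card_nsmul _ _ _ fun k _ => term_le h hl0 hC hjs k (hb k)).trans ?_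
    rw [nsmul_eq_mul, Finset.card_univ]
  have h3 : gr (mm χ e j) z = (((SS χ e j z)⁻¹ : ℝ) : ℂ) * gr (SS χ e j) z :=
    gr_comp (Real.hasDerivAt_log (SS_pos h j z).ne') ((SS_smooth h hj).differentiableAt (by norm_num))
  have h4 : (SS χ e j z)⁻¹ ≤ 1 := inv_le_one_of_one_le₀ (SS_ge h hj1)
  have h5 : 0 ≤ (SS χ e j z)⁻¹ := inv_nonneg.2 (SS_pos h j z).le
  rw [fld_eq h hj]
  refine (norm_add_le _ _).trans ?_
  rw [h3, norm_mul, Complex.norm_real, Real.norm_of_nonneg h5]
  have h6 := h.field_le j z hj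
  have h7 : (SS χ e j z)⁻¹ * ‖gr (SS χ e j) z‖ ≤ 1 * ‖gr (SS χ e j) z‖ := mul_le_mul_of_nonneg_right h4 (norm_nonneg _)
  calc _ ≤ Fintype.card ι * (Real.exp C * (3 * C * l z)) + C * l z := by linarith
    _ = _ := by ring

theorem fld_le (h : Patches l U χ e η C) (hl : Continuous l) (hl0 : ∀ z, 0 ≤ l z) (hC : 0 ≤ C) (z : ℂ) :
    ‖fld U χ e η z‖ ≤ (Fintype.card ι * (Real.exp C * (3 * C)) + C) * l z := by
  have t1 : Tendsto (fun w => ‖fld U χ e η w‖) (𝓝[≠] z) (𝓝 ‖fld U χ e η z‖) :=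
    ((fld_smooth h).continuous.norm.tendsto z).mono_left nhdsWithin_le_nhds
  have t2 : Tendsto (fun w => (Fintype.card ι * (Real.exp C * (3 * C)) + C) * l w) (𝓝[≠] z)
      (𝓝 ((Fintype.card ι * (Real.exp C * (3 * C)) + C) * l z)) := ((continuous_const.mul hl).tendsto z).mono_left nhdsWithin_le_nhds
  exact le_of_tendsto_of_tendsto t1 t2 ((ev_reg h z).mono fun w hw => fld_le_reg h hl0 hC hw)

/-- the global function -/
def Eg (χ e : ι → ℂ → ℝ) (w : ℂ) : ℝ := -Real.log (∑ k, χ k w * Real.exp (-(e k w)))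

theorem Eg_eq (h : Patches l U χ e η C) {i : ι} {z : ℂ} (hi : z ∈ U i) : ∀ᶠ w in 𝓝[≠] z, Eg χ e w = e i w - mm χ e i w := by
  have h1 : ∀ᶠ w in 𝓝[≠] z, ∀ k, χ k w * Real.exp (-(e k w)) = Real.exp (-(e i w)) * (χ k w * Real.exp (-(ps e i k w))) := by
    rw [eventually_all]
    intro k
    by_cases hk : z ∈ tsupport (χ k)
    · obtain ⟨-, a2, -⟩ := ext h hi (h.supp k hk)
      filter_upwards [a2] with w hw
      rw [← hw, show -(e k w) = -(e i w) + -(e k w - e i w) by ring, Real.exp_add]; ring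
    · have := (notMem_tsupport_iff_eventuallyEq.1 hk).filter_mono (nhdsWithin_le_nhds (s := {z}ᶜ))
      filter_upwards [this] with w hw
      rw [hw]; simp
  filter_upwards [h1] with w hw
  have h2 : ∑ k, χ k w * Real.exp (-(e k w)) = Real.exp (-(e i w)) * SS χ e i w := by
    rw [Finset.sum_congr rfl fun k _ => hw k, ← Finset.mul_sum]; rfl
  unfold Eg mm
  rw [h2, Real.log_mul (Real.exp_pos _).ne' (SS_pos h i w).ne', Real.log_exp]
  ring

theorem Eg_le (h : Patches l U χ e η C) {k : ι} {z : ℂ} (hk : χ k z = 1) : Eg χ e z ≤ e k z := by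
  have h1 : χ k z * Real.exp (-(e k z)) ≤ ∑ k, χ k z * Real.exp (-(e k z)) :=
    Finset.single_le_sum (f := fun k => χ k z * Real.exp (-(e k z))) (fun k _ => mul_nonneg (h.nonneg k z) (Real.exp_pos _).le) (Finset.mem_univ k)
  rw [hk, one_mul] at h1
  have h2 := Real.log_le_log (Real.exp_pos _) h1
  rw [Real.log_exp] at h2
  unfold Eg
  linarith

/-- `E` near a point of `U i`, with the function `v` -/
theorem logSing_Eg (h : Patches l U χ e η C) {i : ι} {z : ℂ} (hi : z ∈ U i) {v : ℂ → ℝ} {c : ℝ} (hc : LogSing (fun w => e i w + v w) c z) :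
    LogSing (fun w => Eg χ e w + v w) c z := by
  have h1 := hc.sub (LogSing.of_contDiffAt (mm_smooth h hi))
  rw [sub_zero] at h1
  refine h1.congr ?_
  filter_upwards [Eg_eq h hi] with w hw
  rw [hw]; ring

theorem lap_Eg (h : Patches l U χ e η C) {i : ι} {z : ℂ} (hi : z ∈ U i) {v : ℂ → ℝ} (hv : ∃ c, LogSing v c z) :
    ∀ᶠ w in 𝓝[≠] z, ContDiffAt ℝ 2 (e i) w ∧ ContDiffAt ℝ 2 v w ∧ w ∈ U i ∧
      Δ (fun w => Eg χ e w + v w) w + dv (fld U χ e η) w = Δ (e i) w + Δ v w + dv (η i) w := by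
  obtain ⟨c, hc⟩ := h.log i z hi
  obtain ⟨c', hc'⟩ := hv
  have hU : ∀ᶠ w in 𝓝[≠] z, w ∈ U i := nhdsWithin_le_nhds ((h.isOpen i).mem_nhds hi)
  filter_upwards [hc.eventually, hc'.eventually, ev_nhds (Eg_eq h hi), hU] with w h1 h2 h3 h4
  refine ⟨h1, h2, h4, ?_⟩
  have m1 := mm_smooth h h4
  have e1 : (fun w => Eg χ e w + v w) =ᶠ[𝓝 w] (fun w => e i w - mm χ e i w) + v := by
    filter_upwards [h3] with x hx
    simp only [Pi.add_apply]
    rw [hx]
  have e2 : Δ (fun w => Eg χ e w + v w) w = Δ (e i) w - Δ (mm χ e i) w + Δ v w := by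
    rw [Pool.Agent.H30M.lap_congr e1, (h1.sub m1).laplacian_add h2]
    congr 1
    exact h1.laplacian_sub m1
  have d1 : DifferentiableAt ℝ (gr (mm χ e i)) w := differentiableAt_gr m1
  have d2 : DifferentiableAt ℝ (η i) w := ((h.field i).contDiffAt ((h.isOpen i).mem_nhds h4)).differentiableAt (by norm_num)
  have e3 : dv (fld U χ e η) w = Δ (mm χ e i) w + dv (η i) w := by
    rw [dv_congr (fld_ev h h4), dv_add d1 d2]
    congr 1
    exact lp_eq_lap m1
  rw [e2, e3]; ring

/-! ## the error -/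

theorem continuous_err {U K : Set ℂ} (hU : IsOpen U) (hK : IsClosed K) {f : ℂ → ℝ} (hf : ContinuousOn f U) (h0 : ∀ z ∈ U, z ∉ K → f z = 0) (hKU : K ⊆ U) :
    Continuous (U.indicator f) := by
  rw [continuous_iff_continuousAt]
  intro z
  by_cases hz : z ∈ U
  · have h1 : U.indicator f =ᶠ[𝓝 z] f := by
      filter_upwards [hU.mem_nhds hz] with w hw
      rw [Set.indicator_of_mem hw]
    exact (hf.continuousAt (hU.mem_nhds hz)).congr h1.symm
  · have h1 : U.indicator f =ᶠ[𝓝 z] fun _ => 0 := by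
      filter_upwards [hK.isOpen_compl.mem_nhds (fun hn => hz (hKU hn))] with w hw
      by_cases hwU : w ∈ U
      · rw [Set.indicator_of_mem hwU, h0 w hwU hw]
      · rw [Set.indicator_of_notMem hwU]
    exact continuousAt_const.congr h1.symm

theorem en_nonneg {M : ℕ} (F : ℂ → EN M) {R : ℝ} (hR : 1 ≤ R) : 0 ≤ En F R :=
  integral_nonneg fun z => mul_nonneg (Pool.Agent.H30M.tau_nonneg hR z) (sq_nonneg _)

omit [Fintype ι] in
theorem measurable_one (h : Patches l U χ e η C) (i : ι) : MeasurableSet {z | χ i z = 1} :=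
  (isClosed_eq (h.smooth i).continuous continuous_const).measurableSet

omit [Fintype ι] in
/-- integrability of the positive part in one box -/
theorem integrable_pos (h : Patches l U χ e η C) (i : ι) {v : ℂ → ℝ} (hp : ∀ z ∈ U i, ∃ c, 0 ≤ c ∧ LogSing (fun w => e i w + v w) c z) {R : ℝ}
    (hR : 1 ≤ R) : Integrable (({z | χ i z = 1} : Set ℂ).indicator fun z => rhoR R z * max 0 (e i z + v z)) := by
  have hc : ∀ z ∈ U i, ∃ c, LogSing (fun w => e i w + v w) c z := fun z hz => let ⟨c, _, h1⟩ := hp z hz; ⟨c, h1⟩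
  choose! c hc using hc
  have hcont : Continuous fun z => rhoR R z * χ i z := (Pool.Agent.H30M.continuous_rhoR R).mul (h.smooth i).continuous
  have hcs : HasCompactSupport fun z => rhoR R z * χ i z := (Pool.Agent.H30M.hcs_rhoR hR).mul_right
  have h1 : Integrable fun z => rhoR R z * χ i z * (e i z + v z) := by
    refine LogSing.integrable_mul hcont hcs (w := fun z => e i z + v z) (c := c) fun z hz => hc z (h.supp i ?_)
    exact tsupport_mul_subset_right (f := rhoR R) (g := χ i) hz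
  have h2 := h1.pos_part.indicator (measurable_one h i)
  refine h2.congr (Eventually.of_forall fun z => ?_)
  by_cases hz : χ i z = 1
  · have hz' : z ∈ ({z | χ i z = 1} : Set ℂ) := hz
    rw [Set.indicator_of_mem hz', Set.indicator_of_mem hz']
    have h0 := Pool.Agent.H30M.rhoR_nonneg R z
    show max (rhoR R z * χ i z * (e i z + v z)) 0 = rhoR R z * max 0 (e i z + v z)
    rw [hz, mul_one, max_comm, mul_max_of_nonneg _ _ h0, mul_zero]
  · have hz' : z ∉ ({z | χ i z = 1} : Set ℂ) := hz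
    rw [Set.indicator_of_notMem hz', Set.indicator_of_notMem hz']

end Pool.Agent.MQ.Core

end
end

section

/-!
# MQ CoreMn: the mean hypothesis of the core from a pointwise bound
-/

set_option autoImplicit false

open Topology Filter Metric MeasureTheory Laplacian

noncomputable section

namespace Pool.Agent.MQ.Core

open Pool.Agent.H30M (tau avg LogSing rhoR)
open Pool.Agent.H36.BP (EN)

variable {l : ℂ → ℝ} {ι : Type} {U : ι → Set ℂ} {χ e : ι → ℂ → ℝ} {η : ι → ℂ → ℂ} {C : ℝ}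

/-- the singularities have measure zero -/
theorem ae_c2 {V : Set ℂ} {w : ℂ → ℝ} (hw : ∀ z ∈ V, ∃ c, LogSing w c z) : ∀ᵐ z : ℂ, z ∈ V → ContDiffAt ℝ 2 w z := by
  have h0 : volume {z | z ∈ V ∧ ¬ ContDiffAt ℝ 2 w z} = 0 := by
    refine measure_null_of_locally_null _ fun z hz => ?_
    obtain ⟨c, hc⟩ := hw z hz.1
    refine ⟨{z}, ?_, by simp⟩
    have h1 := hc.eventually
    rw [eventually_nhdsWithin_iff] at h1
    rw [mem_nhdsWithin_iff_eventually]
    filter_upwards [h1] with w hw hws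
    by_contra hne
    exact hws.2 (hw hne)
  rw [ae_iff]
  convert h0 using 2
  ext z
  simp

/-- **The hypothesis `hm` of `core` from a pointwise bound.** -/
theorem mean_of_le {M : ℕ} (F : ℂ → EN M) (h : Patches l U χ e η C) (hl : Continuous l) (hl0 : ∀ z, 0 ≤ l z) {A : ℝ}
    (hA : ∀ R, 1 ≤ R → ∫ z, tau R z * l z ^ 2 ≤ A * R ^ 2) (i : ι) {v : ℂ → ℝ} (hv : ∀ z, ∃ c, LogSing v c z)
    (hp : ∀ z ∈ U i, ∃ c, 0 ≤ c ∧ LogSing (fun w => e i w + v w) c z) {C₀ : ℝ}
    (hle : ∀ z, χ i z = 1 → ContDiffAt ℝ 2 (e i) z → ContDiffAt ℝ 2 v z → e i z + v z ≤ C₀ + Real.log (1 + l z)) {δ : ℝ} (hδ : 0 ≤ δ) :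
    ∃ C : ℝ, ∀ R, 1 ≤ R → ∫ z in {z | χ i z = 1}, rhoR R z * max 0 (e i z + v z) ≤ δ * En F R + C * Real.log (1 + En F R) + C := by
  obtain ⟨C₁, hC₁⟩ := mlog_gen hl hl0 hA
  refine ⟨2 * Real.pi * |C₀| + |C₁|, fun R hR => ?_⟩
  have hEn := en_nonneg F hR
  have hlog : 0 ≤ Real.log (1 + En F R) := Real.log_nonneg (by linarith)
  have hc1 : Continuous fun z => Real.log (1 + l z) := by
    have h1 : Continuous fun z => 1 + l z := continuous_const.add hl
    exact h1.log fun z => ne_of_gt (show 0 < 1 + l z by have := hl0 z; linarith)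
  have i1 : Integrable fun z => rhoR R z * (|C₀| + Real.log (1 + l z)) :=
    ((Pool.Agent.H30M.continuous_rhoR R).mul (continuous_const.add hc1)).integrable_of_hasCompactSupport (Pool.Agent.H30M.hcs_rhoR hR).mul_right
  have hnn : ∀ z, 0 ≤ |C₀| + Real.log (1 + l z) := fun z => add_nonneg (abs_nonneg _) (Real.log_nonneg (by linarith [hl0 z]))
  have h1 : ∫ z in {z | χ i z = 1}, rhoR R z * max 0 (e i z + v z) ≤ ∫ z, rhoR R z * (|C₀| + Real.log (1 + l z)) := by
    rw [← integral_indicator (measurable_one h i)]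
    refine integral_mono_ae (integrable_pos h i hp hR) i1 ?_
    filter_upwards [ae_c2 (V := U i) (h.log i), ae_c2 (V := Set.univ) fun z _ => hv z] with z h2 h3
    by_cases hz : χ i z = 1
    · have hz' : z ∈ ({z | χ i z = 1} : Set ℂ) := hz
      rw [Set.indicator_of_mem hz']
      refine mul_le_mul_of_nonneg_left (max_le (hnn z) ?_) (Pool.Agent.H30M.rhoR_nonneg R z)
      refine (hle z hz (h2 (h.supp i (mem_of_one hz))) (h3 trivial)).trans ?_
      linarith [le_abs_self C₀]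
    · have hz' : z ∉ ({z | χ i z = 1} : Set ℂ) := hz
      rw [Set.indicator_of_notMem hz']
      exact mul_nonneg (Pool.Agent.H30M.rhoR_nonneg R z) (hnn z)
  have i2 : Integrable fun z => rhoR R z * |C₀| :=
    ((Pool.Agent.H30M.continuous_rhoR R).mul continuous_const).integrable_of_hasCompactSupport (Pool.Agent.H30M.hcs_rhoR hR).mul_right
  have i3 : Integrable fun z => rhoR R z * Real.log (1 + l z) :=
    ((Pool.Agent.H30M.continuous_rhoR R).mul hc1).integrable_of_hasCompactSupport (Pool.Agent.H30M.hcs_rhoR hR).mul_right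
  have h2 : ∫ z, rhoR R z * (|C₀| + Real.log (1 + l z)) = 2 * Real.pi * |C₀| + avg R fun z => Real.log (1 + l z) := by
    rw [show (fun z => rhoR R z * (|C₀| + Real.log (1 + l z))) = fun z => rhoR R z * |C₀| + rhoR R z * Real.log (1 + l z) from
      funext fun z => mul_add _ _ _, integral_add i2 i3, integral_mul_const, Pool.Agent.H30M.int_rhoR hR]
    rfl
  have h3 := hC₁ R hR
  have h4 : 0 ≤ (2 * Real.pi * |C₀| + |C₁|) * Real.log (1 + En F R) := mul_nonneg (by have := Real.pi_pos; positivity) hlog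
  have h5 : 0 ≤ δ * En F R := mul_nonneg hδ hEn
  linarith [le_abs_self C₁]

end Pool.Agent.MQ.Core

end
end

section

/-!
# MQ VFin: the final inequality
-/

set_option autoImplicit false

open Topology Filter Metric MvPolynomial Asymptotics MeasureTheory Laplacian

noncomputable section

namespace Pool.Agent.MQ

open Pool.Agent.H36.BP (EN fs wd)
open Pool.Agent.H17EF (projVar coneE)
open Pool.Agent.H30M (tau avg rhoR LogSing contDiff_tau hcs_tau tau_nonneg gg)

variable {M : ℕ} {P : Ideal (MvPolynomial (Fin (M + 1)) ℂ)} {FF : Set (EN M × EN M)}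

/-- a curve which is not constant has a derivative which is not always zero -/
theorem exists_lam_ne {F : ℂ → EN M} (hF : Differentiable ℂ F) (h0 : ∀ z, F z ≠ 0) (hnc : ∃ z w, ∀ c : ℂ, F z ≠ c • F w) : ∃ z, lam F z ≠ 0 := by
  by_contra hcon
  push Not at hcon
  obtain ⟨z, w, hzw⟩ := hnc
  have hwd : ∀ y, wd (F y) (deriv F y) = 0 := by
    intro y
    have h1 := hcon y
    rw [lam, fs, div_eq_zero_iff] at h1
    rcases h1 with h1 | h1
    · exact h1
    · exact absurd h1 (pow_ne_zero 2 (norm_ne_zero_iff.2 (h0 y)))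
  have hloc := Pool.Agent.H36.BP.const_of_wedge (hF.analyticAt w) (h0 w) (Eventually.of_forall hwd)
  obtain ⟨i, hi⟩ : ∃ i, F w i ≠ 0 := by
    by_contra h
    push Not at h
    exact h0 w (by ext i; exact h i)
  have hcoord : ∀ j : Fin (M + 1), Differentiable ℂ fun y => F y j := fun j =>
    (EuclideanSpace.proj (𝕜 := ℂ) j : EN M →L[ℂ] ℂ).differentiable.comp hF
  have hmn : ∀ (j : Fin (M + 1)) (y : ℂ), F y j * F w i - F y i * F w j = 0 := by
    intro j
    have hdiff : Differentiable ℂ fun y => F y j * F w i - F y i * F w j := ((hcoord j).mul_const _).sub ((hcoord i).mul_const _)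
    have h2 : (fun y => F y j * F w i - F y i * F w j) =ᶠ[𝓝 w] fun _ => 0 := by
      filter_upwards [hloc] with y hy
      obtain ⟨c, -, hc⟩ := hy
      rw [hc, PiLp.smul_apply, PiLp.smul_apply, smul_eq_mul, smul_eq_mul]
      ring
    have h3 : AnalyticOnNhd ℂ (fun y => F y j * F w i - F y i * F w j) Set.univ := fun y _ => hdiff.analyticAt y
    exact fun y => congrFun (h3.eq_of_eventuallyEq (g := fun _ => 0) (fun y _ => analyticAt_const) h2) y
  apply hzw (F z i / F w i)
  ext j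
  rw [PiLp.smul_apply, smul_eq_mul, div_mul_eq_mul_div, eq_div_iff hi]
  linear_combination hmn j z

/-- a function with logarithmic singularities is of class `C²` almost everywhere -/
theorem ae_contDiffAt {E : ℂ → ℝ} (hE : ∀ z, ∃ c, LogSing E c z) : ∀ᵐ z, ContDiffAt ℝ 2 E z := by
  rw [ae_iff]
  refine measure_null_of_locally_null _ fun z _ => ?_
  obtain ⟨c, hc⟩ := hE z
  have h1 := hc.eventually
  rw [eventually_nhdsWithin_iff] at h1
  refine ⟨{y | ¬ ContDiffAt ℝ 2 E y} ∩ {y | y ∈ ({z}ᶜ : Set ℂ) → ContDiffAt ℝ 2 E y}, inter_mem_nhdsWithin _ h1, ?_⟩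
  refine measure_mono_null (t := {z}) ?_ (measure_singleton z)
  rintro y ⟨h2, h3⟩
  by_contra h4
  exact h2 (h3 h4)

/-- **The final inequality.** -/
theorem false_of_pack {F : ℂ → EN M} (hF : Crv P FF F) {l : ℂ → ℝ} (hl : Continuous l) (hl0 : ∀ z, 0 ≤ l z) (hle : ∀ z, lam F z ≤ l z)
    (hB : ∃ B : ℝ, ∀ R, 1 ≤ R → ∫ z, tau R z * l z ^ 2 ≤ B * (En F R + 1)) {ε₀ δ : ℝ} (h : Pack F l ε₀ δ) (hδ : 2 * δ < ε₀) : False := by
  obtain ⟨B, hB⟩ := hB
  obtain ⟨C, E, η, err, hC, hE, hη, hηb, herr, hlap, herrb, havg⟩ := h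
  choose c hc0 hE using hE
  have hF0 : ∀ z, F z ≠ 0 := fun z h0 => by
    obtain ⟨hh, -⟩ := hF.mem z
    exact hh (by rw [h0]; rfl)
  have hlc := continuous_lam hF.diff hF0
  have hLen : ∀ R, 0 ≤ ∫ z, ‖gr (tau R) z‖ * l z := fun R => integral_nonneg fun z => mul_nonneg (norm_nonneg _) (hl0 z)
  -- integrable functions
  have hint : ∀ {u : ℂ → ℝ} {R : ℝ}, 1 ≤ R → Continuous u → Integrable fun z => tau R z * u z := fun {u R} hR hu =>
    ((contDiff_tau R).continuous.mul hu).integrable_of_hasCompactSupport (hcs_tau hR).mul_right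
  -- the main inequality
  have hmain : ∀ R, 1 ≤ R → (ε₀ - 2 * δ) * En F R ≤ C * Real.log (1 + En F R) + 2 * C * (∫ z, ‖gr (tau R) z‖ * l z) + (2 * C - avg 1 E) := by
    intro R hR
    have hE' : ∀ z ∈ tsupport (tau R), LogSing E (c z) z := fun z _ => hE z
    have h1 := LogSing.mean1 ((contDiff_tau R).of_le (by norm_num)) (hcs_tau hR) hE'
    have h2 := LogSing.mean_tau hR (w := E) (c := c) fun z _ => hE z
    have h3 : 0 ≤ ∑ᶠ z, c z * tau R z := finsum_nonneg fun z => mul_nonneg (hc0 z) (tau_nonneg hR z)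
    have h4 : ∫ z, tau R z * Δ E z ≤ avg R E - avg 1 E := by
      have h5 : 0 ≤ 2 * Real.pi * ∑ᶠ z, c z * tau R z := mul_nonneg (by positivity) h3
      linarith
    have hiE := LogSing.integrable_lap (contDiff_tau R).continuous (hcs_tau hR) hE'
    have h5 : ∫ z, tau R z * dv η z ≤ C * ∫ z, ‖gr (tau R) z‖ * l z := by
      have h6 := ibp ((contDiff_tau R).of_le (by norm_num)) (hcs_tau hR) fun z _ => hη.contDiffAt (x := z)
      have h7 : Integrable fun z => ‖gr (tau R) z‖ * l z := by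
        have h8 : Continuous fun z => ‖gr (tau R) z‖ * l z := (continuous_gr ((contDiff_tau R).of_le (by norm_num))).norm.mul hl
        exact h8.integrable_of_hasCompactSupport ((hasCompactSupport_gr (hcs_tau hR)).norm.mul_right)
      have h8 : Integrable fun z => ip (gr (tau R) z) (η z) :=
        int_ip (continuous_gr ((contDiff_tau R).of_le (by norm_num))) (hasCompactSupport_gr (hcs_tau hR)) fun z _ => hη.continuous.continuousAt
      have h9 : ∫ z, tau R z * dv η z = ∫ z, - ip (gr (tau R) z) (η z) := by rw [integral_neg, h6, neg_neg]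
      rw [h9, ← integral_const_mul]
      refine integral_mono h8.neg (h7.const_mul C) fun z => ?_
      have h10 := abs_ip_le (gr (tau R) z) (η z)
      have h11 := mul_le_mul_of_nonneg_left (hηb z) (norm_nonneg (gr (tau R) z))
      calc -ip (gr (tau R) z) (η z) ≤ |ip (gr (tau R) z) (η z)| := neg_le_abs _
        _ ≤ ‖gr (tau R) z‖ * ‖η z‖ := h10
        _ ≤ C * (‖gr (tau R) z‖ * l z) := by linarith
    have hidv : Integrable fun z => tau R z * dv η z := by
      refine hint hR ?_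
      exact continuous_iff_continuousAt.2 fun z => continuousAt_dv hη.contDiffAt
    have hierr : Integrable fun z => tau R z * err z := hint hR herr
    have h6 : ε₀ * En F R ≤ ∫ z, (tau R z * Δ E z + tau R z * dv η z + tau R z * err z) := by
      rw [En, ← integral_const_mul]
      refine integral_mono_ae ((hint hR (hlc.pow 2)).const_mul ε₀) (by exact (hiE.add hidv).add hierr) ?_
      filter_upwards [ae_contDiffAt fun z => ⟨c z, hE z⟩] with z hz
      have h7 := mul_le_mul_of_nonneg_left (hlap z hz) (tau_nonneg hR z)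
      linarith
    rw [integral_add (by exact hiE.add hidv) hierr, integral_add hiE hidv] at h6
    have h7 := herrb R hR
    have h8 := havg R hR
    linarith
  -- the logarithm
  set δ' : ℝ := ε₀ - 2 * δ with hδ'
  have hδ0 : 0 < δ' := by linarith
  obtain ⟨C₁, hC₁⟩ : ∃ C₁ : ℝ, ∀ x : ℝ, 0 ≤ x → C * Real.log (1 + x) ≤ δ' / 2 * x + C₁ := by
    set b : ℝ := δ' / (2 * (C + 1)) with hb
    have hb0 : 0 < b := by positivity
    refine ⟨(C + 1) * (b + |Real.log b|), fun x hx => ?_⟩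
    have h1 : Real.log (1 + x) ≤ b * x + (b + |Real.log b|) := by
      have h2 := Real.log_le_sub_one_of_pos (mul_pos hb0 (by linarith : (0 : ℝ) < 1 + x))
      rw [Real.log_mul hb0.ne' (by linarith : (1 + x) ≠ 0)] at h2
      have h3 := neg_abs_le (Real.log b)
      linarith
    have h2 : 0 ≤ Real.log (1 + x) := Real.log_nonneg (by linarith)
    have h3 : C * Real.log (1 + x) ≤ (C + 1) * (b * x + (b + |Real.log b|)) := by
      have h4 : C * Real.log (1 + x) ≤ (C + 1) * Real.log (1 + x) := by nlinarith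
      exact h4.trans (mul_le_mul_of_nonneg_left h1 (by linarith))
    have h4 : (C + 1) * (b * x) = δ' / 2 * x := by
      rw [hb]
      field_simp
    rw [mul_add, h4] at h3
    exact h3
  have hne : ∃ z, l z ≠ 0 := by
    obtain ⟨z, hz⟩ := exists_lam_ne hF.diff hF0 hF.nc
    refine ⟨z, fun h0 => hz (le_antisymm ((hle z).trans h0.le) (lam_nonneg F z))⟩
  -- the selection
  have hq : 0 < δ' / (8 * (C + 1) * (|B| + 1)) := by positivity
  obtain ⟨R, -, hR, hsel⟩ := sel hl hl0 hne hq (δ' + |C₁| + |2 * C - avg 1 E|) 1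
  have hE0 := En_nonneg F hR
  have h1 := hmain R hR
  have h2 := hC₁ (En F R) hE0
  have h3 := hB R hR
  have h4 : δ' / (8 * (C + 1) * (|B| + 1)) * (∫ z, tau R z * l z ^ 2) ≤ δ' / (8 * (C + 1)) * (En F R + 1) := by
    have h5 : (∫ z, tau R z * l z ^ 2) ≤ (|B| + 1) * (En F R + 1) := by
      refine h3.trans ?_
      have := le_abs_self B
      nlinarith
    refine (mul_le_mul_of_nonneg_left h5 hq.le).trans (le_of_eq ?_)
    have : |B| + 1 ≠ 0 := by positivity
    field_simp
  have hL := hLen R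
  have h5 : 2 * C * (∫ z, ‖gr (tau R) z‖ * l z) ≤ 2 * (C + 1) * (δ' / (8 * (C + 1)) * (En F R + 1) - (δ' + |C₁| + |2 * C - avg 1 E|)) := by
    have h6 : (∫ z, ‖gr (tau R) z‖ * l z) ≤ δ' / (8 * (C + 1)) * (En F R + 1) - (δ' + |C₁| + |2 * C - avg 1 E|) := by linarith
    have h7 : 2 * C * (∫ z, ‖gr (tau R) z‖ * l z) ≤ 2 * (C + 1) * (∫ z, ‖gr (tau R) z‖ * l z) := by linarith
    exact h7.trans (mul_le_mul_of_nonneg_left h6 (by linarith))
  have h6 : 2 * (C + 1) * (δ' / (8 * (C + 1)) * (En F R + 1) - (δ' + |C₁| + |2 * C - avg 1 E|)) =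
      δ' / 4 * (En F R + 1) - 2 * (C + 1) * (δ' + |C₁| + |2 * C - avg 1 E|) := by
    have : C + 1 ≠ 0 := by positivity
    field_simp
    ring
  have h7 : 2 * (δ' + |C₁| + |2 * C - avg 1 E|) ≤ 2 * (C + 1) * (δ' + |C₁| + |2 * C - avg 1 E|) := by
    have h8 : 0 ≤ C * (δ' + |C₁| + |2 * C - avg 1 E|) := by positivity
    linarith
  have h8 := le_abs_self C₁
  have h9 := le_abs_self (2 * C - avg 1 E)
  have h10 := abs_nonneg C₁
  have h11 := abs_nonneg (2 * C - avg 1 E)
  have h12 : 0 ≤ δ' / 4 * En F R := by positivity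
  have h13 : (ε₀ - 2 * δ) * En F R = δ' / 2 * En F R + δ' / 4 * En F R + δ' / 4 * En F R := by rw [← hδ']; ring
  linarith

end Pool.Agent.MQ

end
end

section

/-!
# MQ3 AsmA: the pack of a curve from an atlas with disjoint cores

The version of `Core.core` without a sign of the error terms: the core `K i` meets no other patch.
-/

set_option autoImplicit false

open Topology Filter Metric MeasureTheory Laplacian

noncomputable section

namespace Pool.Agent.MQ3

open Pool.Agent.H30M (tau avg LogSing rhoR)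
open Pool.Agent.H36.BP (EN)
open Pool.Agent.MQ (lam En gr dv Pack Patches lp_eq_lap continuousAt_lp continuousAt_dv)
open Pool.Agent.MQ.Core (Eg fld mem_some logSing_Eg fld_smooth fld_le lap_Eg Eg_le integrable_pos measurable_one continuous_err en_nonneg)

variable {ι : Type} [Fintype ι] {l : ℂ → ℝ} {U : ι → Set ℂ} {χ e : ι → ℂ → ℝ} {η : ι → ℂ → ℂ} {C : ℝ}

/-- **The pack from an atlas with disjoint cores.** -/
theorem pack_of_patches_dis {M : ℕ} {F : ℂ → EN M} (hF : Continuous (lam F)) (hl : Continuous l) (hl0 : ∀ z, 0 ≤ l z) (hC : 0 ≤ C)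
    (h : Patches l U χ e η C) {K : ι → Set ℂ} {err : ι → ℂ → ℝ} (hK : ∀ i, IsClosed (K i)) (hKU : ∀ i, K i ⊆ U i) (herr : ∀ i, ContinuousOn (err i) (U i))
    (hdis : ∀ i j, i ≠ j → ∀ z ∈ K i, z ∉ U j) (herrK : ∀ i, ∀ z ∈ U i, z ∉ K i → err i z = 0) {D : ι → ℝ}
    (herri : ∀ i, ∃ C : ℝ, ∀ R, 1 ≤ R → ∫ z in U i, tau R z * err i z ≤ D i * En F R + C * (∫ z, ‖gr (tau R) z‖ * l z) + C)
    {v : ℂ → ℝ} {ε₀ : ℝ} (hv : ∀ z, ∃ c, LogSing v c z)
    (hlap : ∀ i, ∀ z ∈ U i, ContDiffAt ℝ 2 (e i) z → ContDiffAt ℝ 2 v z → ε₀ * lam F z ^ 2 ≤ Δ (e i) z + Δ v z + dv (η i) z + err i z)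
    (hp : ∀ i, ∀ z ∈ U i, ∃ c, 0 ≤ c ∧ LogSing (fun w => e i w + v w) c z)
    (hm : ∀ i, ∃ C : ℝ, ∀ R, 1 ≤ R → ∫ z in {z | χ i z = 1}, rhoR R z * max 0 (e i z + v z) ≤ D i * En F R + C * Real.log (1 + En F R) + C) :
    Pack F l ε₀ (∑ i, D i) := by
  classical
  choose C₁ hC₁ using herri
  choose C₂ hC₂ using hm
  have hce : ∀ i, Continuous ((U i).indicator (err i)) := fun i => continuous_err (h.isOpen i) (hK i) (herr i) (herrK i) (hKU i)
  have hs1 : 0 ≤ ∑ i, |C₁ i| := Finset.sum_nonneg fun i _ => abs_nonneg _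
  have hs2 : 0 ≤ ∑ i, |C₂ i| := Finset.sum_nonneg fun i _ => abs_nonneg _
  have hs3 : 0 ≤ (Fintype.card ι * (Real.exp C * (3 * C)) + C : ℝ) := by positivity
  refine ⟨(Fintype.card ι * (Real.exp C * (3 * C)) + C) + ∑ i, |C₁ i| + ∑ i, |C₂ i|, fun w => Eg χ e w + v w, fld U χ e η,
    fun z => ∑ i, (U i).indicator (err i) z, by positivity, ?_, fld_smooth h, ?_, continuous_finsetSum _ fun i _ => hce i, ?_, ?_, ?_⟩
  · intro z
    obtain ⟨i, hi, -⟩ := mem_some h z
    obtain ⟨c, hc, h1⟩ := hp i z hi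
    exact ⟨c, hc, logSing_Eg h hi h1⟩
  · intro z
    refine (fld_le h hl hl0 hC z).trans (mul_le_mul_of_nonneg_right ?_ (hl0 z))
    linarith
  · intro z hz
    obtain ⟨i, hi, -⟩ := mem_some h z
    have hlE : ContinuousAt (Δ fun w => Eg χ e w + v w) z := by
      have h2 : Pool.Agent.MQ.lp (fun w => Eg χ e w + v w) =ᶠ[𝓝 z] Δ fun w => Eg χ e w + v w := by
        filter_upwards [hz.eventually (by simp)] with w hw using lp_eq_lap hw
      exact (continuousAt_lp hz).congr h2
    have hdv : ContinuousAt (dv (fld U χ e η)) z := continuousAt_dv (fld_smooth h).contDiffAt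
    have herc : Continuous fun z => ∑ i, (U i).indicator (err i) z := continuous_finsetSum _ fun i _ => hce i
    have t1 : Tendsto (fun w => ε₀ * lam F w ^ 2) (𝓝[≠] z) (𝓝 (ε₀ * lam F z ^ 2)) :=
      ((continuous_const.mul (hF.pow 2)).tendsto z).mono_left nhdsWithin_le_nhds
    have t2 : Tendsto (fun w => Δ (fun w => Eg χ e w + v w) w + dv (fld U χ e η) w + ∑ i, (U i).indicator (err i) w) (𝓝[≠] z)
        (𝓝 (Δ (fun w => Eg χ e w + v w) z + dv (fld U χ e η) z + ∑ i, (U i).indicator (err i) z)) :=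
      ((hlE.add hdv).add herc.continuousAt).tendsto.mono_left nhdsWithin_le_nhds
    refine le_of_tendsto_of_tendsto t1 t2 ?_
    filter_upwards [lap_Eg h hi (hv z)] with w hw
    obtain ⟨h1, h2, h3, h4⟩ := hw
    have h5 := hlap i w h3 h1 h2
    have h6 : ∑ j, (U j).indicator (err j) w = err i w := by
      rw [Finset.sum_eq_single i, Set.indicator_of_mem h3]
      · intro j _ hji
        by_cases hj : w ∈ U j
        · rw [Set.indicator_of_mem hj, herrK j w hj fun hK' => hdis j i hji w hK' h3]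
        · rw [Set.indicator_of_notMem hj]
      · intro h7
        exact absurd (Finset.mem_univ i) h7
    show _ ≤ _
    rw [h4, h6]
    linarith
  · intro R hR
    have hLen : 0 ≤ ∫ z, ‖gr (tau R) z‖ * l z := integral_nonneg fun z => mul_nonneg (norm_nonneg _) (hl0 z)
    have h1 : ∀ i, Integrable fun z => tau R z * (U i).indicator (err i) z := fun i =>
      ((Pool.Agent.H30M.contDiff_tau R).continuous.mul (hce i)).integrable_of_hasCompactSupport (Pool.Agent.H30M.hcs_tau hR).mul_right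
    have h2 : ∫ z, tau R z * ∑ i, (U i).indicator (err i) z = ∑ i, ∫ z in U i, tau R z * err i z := by
      rw [show (fun z => tau R z * ∑ i, (U i).indicator (err i) z) = fun z => ∑ i, tau R z * (U i).indicator (err i) z from
        funext fun z => Finset.mul_sum _ _ _]
      rw [integral_finsetSum _ fun i _ => h1 i]
      refine Finset.sum_congr rfl fun i _ => ?_
      rw [← integral_indicator (h.isOpen i).measurableSet]
      congr 1
      funext z
      by_cases hz : z ∈ U i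
      · rw [Set.indicator_of_mem hz, Set.indicator_of_mem hz]
      · rw [Set.indicator_of_notMem hz, Set.indicator_of_notMem hz, mul_zero]
    rw [h2]
    have h3 : ∀ i, ∫ z in U i, tau R z * err i z ≤ D i * En F R + |C₁ i| * (∫ z, ‖gr (tau R) z‖ * l z) + |C₁ i| := by
      intro i
      have := hC₁ i R hR
      have := mul_le_mul_of_nonneg_right (le_abs_self (C₁ i)) hLen
      linarith [le_abs_self (C₁ i)]
    calc ∑ i, ∫ z in U i, tau R z * err i z ≤ ∑ i, (D i * En F R + |C₁ i| * (∫ z, ‖gr (tau R) z‖ * l z) + |C₁ i|) := Finset.sum_le_sum fun i _ => h3 i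
      _ = (∑ i, D i) * En F R + (∑ i, |C₁ i|) * (∫ z, ‖gr (tau R) z‖ * l z) + ∑ i, |C₁ i| := by
        rw [Finset.sum_add_distrib, Finset.sum_add_distrib, Finset.sum_mul, Finset.sum_mul]
      _ ≤ _ := by
        have := mul_le_mul_of_nonneg_right (show (∑ i, |C₁ i|) ≤ (Fintype.card ι * (Real.exp C * (3 * C)) + C) + ∑ i, |C₁ i| + ∑ i, |C₂ i| by linarith) hLen
        linarith
  · intro R hR
    have hEn := en_nonneg F hR
    have hlog : 0 ≤ Real.log (1 + En F R) := Real.log_nonneg (by linarith)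
    have hcE : ∀ z, ∃ c, LogSing (fun w => Eg χ e w + v w) c z := by
      intro z
      obtain ⟨i, hi, -⟩ := mem_some h z
      obtain ⟨c, -, h1⟩ := hp i z hi
      exact ⟨c, logSing_Eg h hi h1⟩
    choose c hc using hcE
    have i1 : Integrable fun z => rhoR R z * (Eg χ e z + v z) :=
      LogSing.integrable_mul (Pool.Agent.H30M.continuous_rhoR R) (Pool.Agent.H30M.hcs_rhoR hR) (w := fun z => Eg χ e z + v z) (c := c) fun z _ => hc z
    have i2 := fun i => integrable_pos h i (hp i) hR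
    have h1 : avg R (fun w => Eg χ e w + v w) ≤ ∫ z, ∑ i, ({z | χ i z = 1} : Set ℂ).indicator (fun z => rhoR R z * max 0 (e i z + v z)) z := by
      refine integral_mono i1 (integrable_finsetSum _ fun i _ => i2 i) fun z => ?_
      obtain ⟨k, hk⟩ := h.cover z
      have h0 := Pool.Agent.H30M.rhoR_nonneg R z
      have h2 : (({z | χ k z = 1} : Set ℂ).indicator fun z => rhoR R z * max 0 (e k z + v z)) z = rhoR R z * max 0 (e k z + v z) :=
        Set.indicator_of_mem (show z ∈ {z | χ k z = 1} from hk) _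
      have h3 := Finset.single_le_sum (f := fun i => (({z | χ i z = 1} : Set ℂ).indicator fun z => rhoR R z * max 0 (e i z + v z)) z)
        (fun i _ => Set.indicator_nonneg (fun z _ => mul_nonneg (Pool.Agent.H30M.rhoR_nonneg R z) (le_max_left _ _)) z) (Finset.mem_univ k)
      have h4 : rhoR R z * (Eg χ e z + v z) ≤ rhoR R z * max 0 (e k z + v z) :=
        mul_le_mul_of_nonneg_left ((add_le_add (Eg_le h hk) le_rfl).trans (le_max_right _ _)) h0
      rw [h2] at h3
      exact h4.trans h3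
    refine h1.trans ?_
    rw [integral_finsetSum _ fun i _ => i2 i]
    have h3 : ∀ i, ∫ z, ({z | χ i z = 1} : Set ℂ).indicator (fun z => rhoR R z * max 0 (e i z + v z)) z ≤
        D i * En F R + |C₂ i| * Real.log (1 + En F R) + |C₂ i| := by
      intro i
      rw [integral_indicator (measurable_one h i)]
      have := hC₂ i R hR
      have := mul_le_mul_of_nonneg_right (le_abs_self (C₂ i)) hlog
      linarith [le_abs_self (C₂ i)]
    calc _ ≤ ∑ i, (D i * En F R + |C₂ i| * Real.log (1 + En F R) + |C₂ i|) := Finset.sum_le_sum fun i _ => h3 i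
      _ = (∑ i, D i) * En F R + (∑ i, |C₂ i|) * Real.log (1 + En F R) + ∑ i, |C₂ i| := by
        rw [Finset.sum_add_distrib, Finset.sum_add_distrib, Finset.sum_mul, Finset.sum_mul]
      _ ≤ _ := by
        have := mul_le_mul_of_nonneg_right (show (∑ i, |C₂ i|) ≤ (Fintype.card ι * (Real.exp C * (3 * C)) + C) + ∑ i, |C₁ i| + ∑ i, |C₂ i| by linarith) hlog
        linarith

end Pool.Agent.MQ3

end
end
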