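import Pool.Agent.H43.TL2.M06

/-! The parts of this file: SR2.T.Defs, MQL.PBDefs. -/

section

/-!
# SR2 T Defs: compact definitions for the texts on logarithmic symmetric differentials

`P` is the ideal of a closed surface `X ⊆ ℙ^N`, `H` a form (or finitely many forms), `U` the complement of `{H = 0}` in `X`.  Points of the affine cones
are vectors of `ℂ^(N+1)` with the Euclidean norm.
-/

set_option autoImplicit false

open Topology Filter Metric MvPolynomial

noncomputable section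

namespace Pool.Agent.SR2.T

open Pool.Agent.H17 (PN VanishesAt HolomorphicInto ZariskiClosedIn puncturedDisc)
open Pool.Agent.H17GT (coordFun)
open Pool.Agent.H17LG.Variety (FunField ratio IsLogGeneralType)
open Pool.Agent.H23.Fano (PrimeDivisorOver)

variable {N M k s : ℕ}

/-- `v` is a vector of homogeneous coordinates of the point `x` -/
def Pt (v : Fin (N + 1) → ℂ) (x : PN N) : Prop := ∃ h : v ≠ 0, x = Projectivization.mk ℂ v h

/-- The ideal is homogeneous. -/
def Homog (P : Ideal (MvPolynomial (Fin (N + 1)) ℂ)) : Prop := ∀ p ∈ P, ∀ n, homogeneousComponent n p ∈ P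

/-- The dimension of the variety of `P` is `n`. -/
def HasDim (P : Ideal (MvPolynomial (Fin (N + 1)) ℂ)) [P.IsPrime] (n : ℕ) : Prop := ∃ z : Fin n → FunField P, IsTranscendenceBasis ℂ z

/-- The variety of `P` in `ℙ^N`. -/
def Var (P : Ideal (MvPolynomial (Fin (N + 1)) ℂ)) : Set (PN N) := {x | ∀ Q ∈ P, ∀ n, Q.IsHomogeneous n → VanishesAt Q x}

/-- The open subset of the variety of `P` where one of the forms `G i` is not `0`. -/
def Loc (P : Ideal (MvPolynomial (Fin (N + 1)) ℂ)) (G : Fin s → MvPolynomial (Fin (N + 1)) ℂ) : Set (PN N) := {x | x ∈ Var P ∧ ∃ i, ¬ VanishesAt (G i) x}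

/-- The variety of `P`, of dimension `n`, is smooth: the tangent spaces of its affine cone have dimension at most `n + 1` outside `0`. -/
def Smooth (P : Ideal (MvPolynomial (Fin (N + 1)) ℂ)) (n : ℕ) : Prop :=
  ∀ x : Fin (N + 1) → ℂ, x ≠ 0 → (∀ Q ∈ P, eval x Q = 0) → ∀ v : Fin (n + 2) → Fin (N + 1) → ℂ, LinearIndependent ℂ v →
    ∃ (i : Fin (n + 2)) (Q : MvPolynomial (Fin (N + 1)) ℂ), Q ∈ P ∧ ∑ l, v i l * eval x (pderiv l Q) ≠ 0

/-- The centre of the prime divisor lies in the set of the common zeros of the forms `G i` in the variety of `P`. -/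
def OnBd (P : Ideal (MvPolynomial (Fin (N + 1)) ℂ)) [P.IsPrime] (G : Fin s → MvPolynomial (Fin (N + 1)) ℂ) {k : ℕ}
    (E : PrimeDivisorOver (FunField P) k) : Prop :=
  ∃ j, coordFun P j ≠ 0 ∧ (∀ i, 0 ≤ E.ord (ratio P i j)) ∧ ∀ m, 0 < E.ord (aeval (fun i => ratio P i j) (G m))

/-- The variety `Loc P G`, of dimension `n`, is of log general type. -/
def LogGT (P : Ideal (MvPolynomial (Fin (N + 1)) ℂ)) [P.IsPrime] (G : Fin s → MvPolynomial (Fin (N + 1)) ℂ) (n : ℕ) : Prop :=
  IsLogGeneralType (OnBd P G (k := n))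

/-- `X` is Kobayashi hyperbolic modulo the zeros of the form `Q` of degree `D`: for every holomorphic map `f` from the unit disc to `X` with a lift `F` near
`0`, the Fubini–Study length of `f' 0`, times a power of `|Q (F 0)| / |F 0| ^ D`, is at most `C`. -/
def KobayashiModulo (X : Set (PN N)) (Q : MvPolynomial (Fin (N + 1)) ℂ) (D : ℕ) : Prop :=
  ∃ (m : ℕ) (C : ℝ), ∀ (f : ℂ → PN N) (F : ℂ → Fin (N + 1) → ℂ), HolomorphicInto f (ball 0 1) → (∀ z ∈ ball (0 : ℂ) 1, f z ∈ X) →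
    AnalyticAt ℂ F 0 → (∀ᶠ z in 𝓝 (0 : ℂ), Pt (F z) (f z)) →
      ∃ a : ℂ, (‖eval (F 0) Q‖ / ‖F 0‖ ^ D) ^ m * ‖deriv F 0 - a • F 0‖ ≤ C * ‖F 0‖

/-- The properties of the Green–Griffiths–Lang conjecture for `U = Loc P G`, with the exceptional set `Ξ`. -/
structure GGL (P : Ideal (MvPolynomial (Fin (N + 1)) ℂ)) [P.IsPrime] (G : Fin s → MvPolynomial (Fin (N + 1)) ℂ) (Ξ : Set (PN N)) : Prop where
  closed : ZariskiClosedIn (Loc P G) Ξ
  proper : Ξ ≠ Loc P G
  /-- `U` is of log general type -/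
  logGeneralType : ∀ n, 1 ≤ n → HasDim P n → LogGT P G n
  /-- every holomorphic map from the punctured disc to `U` which does not map to `Ξ` extends to the disc -/
  picard : ∀ f : ℂ → PN N, HolomorphicInto f puncturedDisc → (∀ z ∈ puncturedDisc, f z ∈ Loc P G) → (∃ z ∈ puncturedDisc, f z ∉ Ξ) →
    ∃ g : ℂ → PN N, HolomorphicInto g (ball 0 1) ∧ ∀ z ∈ puncturedDisc, g z = f z
  /-- every non-constant entire curve in `U` lies in `Ξ` -/
  brody : ∀ f : ℂ → PN N, HolomorphicInto f Set.univ → (∀ z, f z ∈ Loc P G) → (∃ z w, f z ≠ f w) → ∀ z, f z ∈ Ξ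
  /-- every closed subvariety of `U` of positive dimension which is not contained in `Ξ` is of log general type -/
  strongly : ∀ (Q : Ideal (MvPolynomial (Fin (N + 1)) ℂ)) [Q.IsPrime], Homog Q → P ≤ Q → ¬ Loc Q G ⊆ Ξ → ∀ n, 1 ≤ n → HasDim Q n → LogGT Q G n

/-- `p` is regular on the subset `S` of `ℙ^M`: near every point it is given by forms of the same degree. -/
def RegularOn (S : Set (PN M)) (p : PN M → PN N) : Prop :=
  ∀ y ∈ S, ∃ (D : ℕ) (γ : Fin (N + 1) → MvPolynomial (Fin (M + 1)) ℂ), (∀ i, (γ i).IsHomogeneous D) ∧ (∃ i, ¬ VanishesAt (γ i) y) ∧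
    ∀ y' ∈ S, (∃ i, ¬ VanishesAt (γ i) y') → Pt (fun i => eval y'.rep (γ i)) (p y')

/-- `p` is a dominant regular map `Loc P' G' → Loc P G`. -/
structure IsDominantMap {s' : ℕ} (P : Ideal (MvPolynomial (Fin (N + 1)) ℂ)) (P' : Ideal (MvPolynomial (Fin (M + 1)) ℂ))
    (G : Fin s → MvPolynomial (Fin (N + 1)) ℂ) (G' : Fin s' → MvPolynomial (Fin (M + 1)) ℂ) (p : PN M → PN N) : Prop where
  maps : ∀ y ∈ Loc P' G', p y ∈ Loc P G
  regular : RegularOn (Loc P' G') p
  dense : ∀ (Q : MvPolynomial (Fin (N + 1)) ℂ) (n : ℕ), Q.IsHomogeneous n → (∀ y ∈ Loc P' G', VanishesAt Q (p y)) → Q ∈ P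

/-- `p` is a surjective regular map `Var P' → Var P`, the inverse image of `Loc P G` is `Loc P' G'`, and there `p` is locally injective and has local
holomorphic sections: `Loc P' G' → Loc P G` is a finite étale covering. -/
structure IsEtale {s' : ℕ} (P : Ideal (MvPolynomial (Fin (N + 1)) ℂ)) (P' : Ideal (MvPolynomial (Fin (M + 1)) ℂ))
    (G : Fin s → MvPolynomial (Fin (N + 1)) ℂ) (G' : Fin s' → MvPolynomial (Fin (M + 1)) ℂ) (p : PN M → PN N) : Prop where
  maps : ∀ y ∈ Var P', p y ∈ Var P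
  surj : ∀ x ∈ Var P, ∃ y ∈ Var P', p y = x
  regular : RegularOn (Var P') p
  inv : ∀ y ∈ Var P', p y ∈ Loc P G ↔ y ∈ Loc P' G'
  locInj : ∀ y a, Pt y a → a ∈ Loc P' G' → ∀ᶠ q in 𝓝 (y, y), ∀ b ∈ Var P', ∀ b' ∈ Var P', Pt q.1 b → Pt q.2 b' → p b = p b' → b = b'
  locSec : ∀ y a, Pt y a → a ∈ Loc P' G' → ∃ (x : Fin (N + 1) → ℂ) (τ : (Fin (N + 1) → ℂ) → Fin (M + 1) → ℂ), Pt x (p a) ∧ AnalyticAt ℂ τ x ∧ τ x = y ∧
    ∀ᶠ x' in 𝓝 x, ∀ b ∈ Var P, Pt x' b → ∃ c ∈ Var P', Pt (τ x') c ∧ p c = b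

/-- `P` is the ideal of a surface in `ℙ^N` and the `G i` are forms. -/
structure Surf (P : Ideal (MvPolynomial (Fin (N + 1)) ℂ)) [P.IsPrime] (G : Fin s → MvPolynomial (Fin (N + 1)) ℂ) : Prop where
  homog : Homog P
  forms : ∀ i, ∃ n, (G i).IsHomogeneous n
  dim : HasDim P 2

/-- The conclusion: the properties of the Green–Griffiths–Lang conjecture hold for the surface `U = Loc P G` and for all quasi-projective surfaces which
dominate `U`, or virtually dominate `U`. -/
structure Hyperbolic (P : Ideal (MvPolynomial (Fin (N + 1)) ℂ)) [P.IsPrime] (G : Fin s → MvPolynomial (Fin (N + 1)) ℂ) : Prop where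
  /-- `U` has the properties of the conjecture, with some exceptional set `Ξ` -/
  four : ∃ Ξ : Set (PN N), GGL P G Ξ
  /-- every quasi-projective surface `V` with a dominant regular map to `U` has the properties of the conjecture -/
  dominating : ∀ (L t : ℕ) (R : Ideal (MvPolynomial (Fin (L + 1)) ℂ)) [R.IsPrime] (F : Fin t → MvPolynomial (Fin (L + 1)) ℂ) (p : PN L → PN N),
    Surf R F → IsDominantMap P R G F p → ∃ Ξ : Set (PN L), GGL R F Ξ
  /-- every quasi-projective surface `V` of log general type with a finite étale covering `V'` which has a dominant regular map to `U` has the properties of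
  the conjecture -/
  virtual : ∀ (L L' t t' : ℕ) (R : Ideal (MvPolynomial (Fin (L + 1)) ℂ)) [R.IsPrime] (R' : Ideal (MvPolynomial (Fin (L' + 1)) ℂ)) [R'.IsPrime]
    (F : Fin t → MvPolynomial (Fin (L + 1)) ℂ) (F' : Fin t' → MvPolynomial (Fin (L' + 1)) ℂ) (q : PN L' → PN L) (p : PN L' → PN N),
    Surf R F → Surf R' F' → IsDominantMap P R' G F' p → IsEtale R R' F F' q → LogGT R F 2 → ∃ Ξ : Set (PN L), GGL R F Ξ
  /-- the Kobayashi metric of `U` is bounded below by a power of `|Q|`, for a form `Q` which is not `0` on `U` -/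
  kobayashi : ∃ (Q : MvPolynomial (Fin (N + 1)) ℂ) (D : ℕ), Q.IsHomogeneous D ∧ (∃ x ∈ Loc P G, ¬ VanishesAt Q x) ∧ KobayashiModulo (Loc P G) Q D

/-- `T_f (r) = O (r²)` -/
def OrderTwo (f : ℂ → PN N) : Prop :=
  ∃ (F : ℂ → Fin (N + 1) → ℂ) (A : ℝ), Differentiable ℂ F ∧ (∀ z, Pt (F z) (f z)) ∧
    ∀ r : ℝ, 0 < r → Real.circleAverage (fun z => Real.log ‖F z‖) 0 r ≤ A * (1 + r ^ 2)

end Pool.Agent.SR2.T

end
end

section

/-!
# MQL PBDefs: algebraic differential equations of order at most one for entire curves in a projective variety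

`P` is the ideal of a closed surface `X ⊆ ℙ^N`, `U` an open subset of `X`.
-/

set_option autoImplicit false

open Topology Filter Metric MvPolynomial

noncomputable section

namespace Pool.Agent.MQL.PB.T

open Pool.Agent.H17 (PN VanishesAt ZariskiClosedIn)
open Pool.Agent.SR2.T (Pt Homog HasDim Loc LogGT OrderTwo KobayashiModulo)

variable {N s : ℕ}

/-- An algebraic differential equation of order at most one: a polynomial `G (x, p)`, the variables `p i j` stand for `x i * v j - x j * v i`. -/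
abbrev Eqn (N : ℕ) : Type := MvPolynomial (Fin (N + 1) ⊕ Fin (N + 1) × Fin (N + 1)) ℂ

/-- the value `G (x, x ∧ v)` -/
def value (G : Eqn N) (x v : Fin (N + 1) → ℂ) : ℂ := eval (Sum.elim x fun s => x s.1 * v s.2 - x s.2 * v s.1) G

/-- The equation is not an identity on the variety of `P`: its value is not `0` for some tangent vector `v` of the affine cone. -/
def Nontrivial (P : Ideal (MvPolynomial (Fin (N + 1)) ℂ)) (G : Eqn N) : Prop :=
  ∃ x v : Fin (N + 1) → ℂ, x ≠ 0 ∧ (∀ Q ∈ P, eval x Q = 0 ∧ ∑ l, v l * eval x (pderiv l Q) = 0) ∧ value G x v ≠ 0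

/-- All lifts `F` of the entire curve `f` satisfy `G (F, F ∧ F') = 0`. -/
def Satisfies (G : Eqn N) (f : ℂ → PN N) : Prop :=
  ∀ F : ℂ → Fin (N + 1) → ℂ, Differentiable ℂ F → (∀ z, Pt (F z) (f z)) → ∀ z, value G (F z) (deriv F z) = 0

/-- `f` is a nonconstant entire curve in `U` with `T_f (r) = O (r²)`. -/
structure IsCurve (U : Set (PN N)) (f : ℂ → PN N) : Prop where
  orderTwo : OrderTwo f
  mem : ∀ z, f z ∈ U
  nonconstant : ∃ z w, f z ≠ f w

/-- `Ξ` is a proper Zariski closed subset of `U`. -/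
def IsProperClosed (U Ξ : Set (PN N)) : Prop := ZariskiClosedIn U Ξ ∧ Ξ ≠ U

/-- `U` is Kobayashi hyperbolic modulo a proper Zariski closed subset. -/
def PseudoKobayashi (U : Set (PN N)) : Prop :=
  ∃ (Q : MvPolynomial (Fin (N + 1)) ℂ) (D : ℕ), Q.IsHomogeneous D ∧ (∃ x ∈ U, ¬ VanishesAt Q x) ∧ KobayashiModulo U Q D

/-- Every closed subvariety of positive dimension of `Loc P G` which is not contained in `Ξ` is of log general type. -/
def StronglyModulo (P : Ideal (MvPolynomial (Fin (N + 1)) ℂ)) (G : Fin s → MvPolynomial (Fin (N + 1)) ℂ) (Ξ : Set (PN N)) : Prop :=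
  ∀ (Q : Ideal (MvPolynomial (Fin (N + 1)) ℂ)) [Q.IsPrime], Homog Q → P ≤ Q → ¬ Loc Q G ⊆ Ξ → ∀ n, 1 ≤ n → HasDim Q n → LogGT Q G n

/-- `U = Loc P G` is strongly of log general type. -/
def StronglyLogGT (P : Ideal (MvPolynomial (Fin (N + 1)) ℂ)) (G : Fin s → MvPolynomial (Fin (N + 1)) ℂ) : Prop :=
  ∃ Ξ : Set (PN N), IsProperClosed (Loc P G) Ξ ∧ StronglyModulo P G Ξ

/-- The Zariski closure in `U` of the union of the nonconstant entire curves `f` in `U` with `T_f (r) = O (r²)`. -/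
def Exc (U : Set (PN N)) : Set (PN N) :=
  {x | x ∈ U ∧ ∀ R ∈ {R : MvPolynomial (Fin (N + 1)) ℂ | (∃ d, R.IsHomogeneous d) ∧ ∀ f, IsCurve U f → ∀ z, VanishesAt R (f z)}, VanishesAt R x}

end Pool.Agent.MQL.PB.T

end
end
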