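import Mathlib

/-! The parts of this file: H92.GGL.AnnMean, H92.GGL.AnnJensen, H62.FC.NevDefs, H62.FC.Nev0. -/

section

/-!
# Circle means of `log ‖v‖` for a holomorphic function without zeros on an annulus
-/

open Complex MeasureTheory Metric Set Topology Filter

namespace Pool.Agent.H92.GGL

/-- A continuous logarithm of a holomorphic function is holomorphic. -/
lemma analyticAt_of_exp_eq {h G : ℂ → ℂ} {τ : ℂ} (hh : ContinuousAt h τ) (hG : AnalyticAt ℂ G τ)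
    (he : ∀ᶠ w in 𝓝 τ, exp (h w) = G w) : AnalyticAt ℂ h τ := by
  have hG0 : G τ ≠ 0 := by
    rw [← he.self_of_nhds]
    exact exp_ne_zero _
  have h1 : AnalyticAt ℂ (fun w => h τ + log (G w / G τ)) τ := by
    refine analyticAt_const.add (AnalyticAt.clog ?_ ?_)
    · exact hG.div analyticAt_const hG0
    · rw [div_self hG0]
      exact one_mem_slitPlane
  refine h1.congr ?_
  have h2 : ∀ᶠ w in 𝓝 τ, ‖h w - h τ‖ < Real.pi := by
    have h3 : ContinuousAt (fun w => ‖h w - h τ‖) τ := (hh.sub continuousAt_const).norm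
    refine h3.eventually_lt continuousAt_const ?_
    simpa using Real.pi_pos
  filter_upwards [he, h2] with w hw hw2
  have h4 : G w / G τ = exp (h w - h τ) := by
    rw [exp_sub, hw, he.self_of_nhds]
  have h5 := (abs_im_le_norm (h w - h τ)).trans_lt hw2
  rw [abs_lt] at h5
  rw [h4, log_exp h5.1 h5.2.le]
  ring

/-- **The mean is an affine function of `log r`.** -/
theorem circleAverage_log_norm_affine {v : ℂ → ℂ} {r₁ R₁ : ℝ} (hr₁ : 0 < r₁)
    (hv : ∀ z, r₁ < ‖z‖ → ‖z‖ < R₁ → AnalyticAt ℂ v z)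
    (hv0 : ∀ z, r₁ < ‖z‖ → ‖z‖ < R₁ → v z ≠ 0) :
    ∃ a b : ℝ, ∀ r, r₁ < r → r < R₁ →
      Real.circleAverage (fun z => Real.log ‖v z‖) 0 r = a + b * Real.log r := by
  rcases le_or_gt R₁ r₁ with hle | hlt
  · exact ⟨0, 0, fun r h1 h2 => absurd (h1.trans h2) (not_lt.mpr hle)⟩
  have hR₁ : 0 < R₁ := hr₁.trans hlt
  set V : Set ℂ := {τ | Real.log r₁ < τ.re ∧ τ.re < Real.log R₁} with hV
  have hVo : IsOpen V := by
    refine (isOpen_lt continuous_const continuous_re).inter (isOpen_lt continuous_re continuous_const)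
  have hVconv : Convex ℝ V := by
    have h1 : V = {τ : ℂ | Real.log r₁ < τ.re} ∩ {τ : ℂ | τ.re < Real.log R₁} := rfl
    rw [h1]
    exact (convex_halfSpace_re_gt _).inter (convex_halfSpace_re_lt _)
  have hlog : Real.log r₁ < Real.log R₁ := Real.log_lt_log hr₁ hlt
  have hVne : V.Nonempty := by
    refine ⟨(((Real.log r₁ + Real.log R₁) / 2 : ℝ) : ℂ), ?_, ?_⟩ <;> simp only [ofReal_re] <;> linarith
  have hnorm : ∀ τ ∈ V, r₁ < ‖exp τ‖ ∧ ‖exp τ‖ < R₁ := by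
    intro τ hτ
    rw [norm_exp]
    constructor
    · rw [← Real.exp_log hr₁]
      exact Real.exp_lt_exp.mpr hτ.1
    · rw [← Real.exp_log hR₁]
      exact Real.exp_lt_exp.mpr hτ.2
  have hGan : ∀ τ ∈ V, AnalyticAt ℂ (fun τ => v (exp τ)) τ := by
    intro τ hτ
    obtain ⟨h1, h2⟩ := hnorm τ hτ
    exact (hv _ h1 h2).fun_comp analyticAt_cexp
  have hsc : IsSimplyConnected V := by
    have : ContractibleSpace V := hVconv.contractibleSpace hVne
    exact SimplyConnectedSpace.ofContractible V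
  obtain ⟨h, hc, he⟩ := exists_continuousOn_eqOn_exp_comp hsc hVo (g := fun τ => v (exp τ))
    (fun τ hτ => (hGan τ hτ).continuousAt.continuousWithinAt) (by
      rintro ⟨τ, hτ, h0⟩
      obtain ⟨h1, h2⟩ := hnorm τ hτ
      exact hv0 _ h1 h2 h0)
  have hhan : ∀ τ ∈ V, AnalyticAt ℂ h τ := by
    intro τ hτ
    refine analyticAt_of_exp_eq (hc.continuousAt (hVo.mem_nhds hτ)) (hGan τ hτ) ?_
    filter_upwards [hVo.mem_nhds hτ] with w hw
    exact he hw
  have hshift : ∀ τ ∈ V, τ + 2 * Real.pi * I ∈ V := by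
    intro τ hτ
    have h1 : (τ + 2 * Real.pi * I).re = τ.re := by simp
    rw [hV, mem_ofPred_eq, h1]
    exact hτ
  -- the difference is constant
  obtain ⟨δ, hδ⟩ : ∃ δ : ℂ, ∀ τ ∈ V, h (τ + 2 * Real.pi * I) - h τ = δ := by
    have hd : ∀ τ ∈ V, HasDerivAt (fun τ => h (τ + 2 * Real.pi * I) - h τ)
        (deriv h (τ + 2 * Real.pi * I) - deriv h τ) τ := by
      intro τ hτ
      refine HasDerivAt.sub ?_ (hhan τ hτ).differentiableAt.hasDerivAt
      exact HasDerivAt.comp_add_const τ _ (hhan _ (hshift τ hτ)).differentiableAt.hasDerivAt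
    have hexp1 : ∀ τ ∈ V, exp (h (τ + 2 * Real.pi * I) - h τ) = 1 := by
      intro τ hτ
      have h1 := he hτ
      have h2 := he (hshift τ hτ)
      simp only [Function.comp_apply] at h1 h2
      rw [exp_sub, h1, h2, exp_periodic, div_self]
      rw [← h1]
      exact exp_ne_zero _
    refine hVo.exists_is_const_of_deriv_eq_zero hVconv.isPreconnected
      (f := fun τ => h (τ + 2 * Real.pi * I) - h τ)
      (fun τ hτ => (hd τ hτ).differentiableAt.differentiableWithinAt) ?_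
    intro τ hτ
    have h1 := (hd τ hτ).cexp
    have h2 : HasDerivAt (fun τ => exp (h (τ + 2 * Real.pi * I) - h τ)) 0 τ := by
      refine (hasDerivAt_const τ (1 : ℂ)).congr_of_eventuallyEq ?_
      filter_upwards [hVo.mem_nhds hτ] with w hw
      exact hexp1 w hw
    have h3 := h1.unique h2
    rw [hexp1 τ hτ, one_mul] at h3
    rw [(hd τ hτ).deriv, h3]
    rfl
  -- the mean as an integral of `h`
  have hmemV : ∀ (σ θ : ℝ), Real.log r₁ < σ → σ < Real.log R₁ → (σ : ℂ) + θ * I ∈ V := by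
    intro σ θ h1 h2
    rw [hV, mem_ofPred_eq]
    simpa using ⟨h1, h2⟩
  have hmean : ∀ σ : ℝ, Real.log r₁ < σ → σ < Real.log R₁ →
      Real.circleAverage (fun z => Real.log ‖v z‖) 0 (Real.exp σ) =
        (2 * Real.pi)⁻¹ * (∫ θ in (0 : ℝ)..(2 * Real.pi), h (σ + θ * I)).re := by
    intro σ h1 h2
    have hcont : Continuous fun θ : ℝ => h (σ + θ * I) := by
      rw [continuous_iff_continuousAt]
      intro θ
      exact ContinuousAt.comp (f := fun θ : ℝ => (σ : ℂ) + θ * I) (g := h)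
        (hhan _ (hmemV σ θ h1 h2)).continuousAt (by fun_prop)
    rw [Real.circleAverage_def, smul_eq_mul]
    congr 1
    have h3 : ∫ θ in (0 : ℝ)..(2 * Real.pi), Real.log ‖v (circleMap 0 (Real.exp σ) θ)‖ =
        ∫ θ in (0 : ℝ)..(2 * Real.pi), (h (σ + θ * I)).re := by
      refine intervalIntegral.integral_congr fun θ _ => ?_
      have h4 : circleMap 0 (Real.exp σ) θ = exp (σ + θ * I) := by
        rw [circleMap_zero, exp_add, ofReal_exp]
      have h5 := he (hmemV σ θ h1 h2)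
      simp only [Function.comp_apply] at h5
      rw [h4, ← h5, norm_exp, Real.log_exp]
    rw [h3]
    have h6 := (reCLM).intervalIntegral_comp_comm (hcont.intervalIntegrable 0 (2 * Real.pi))
      (μ := volume)
    simpa using h6
  -- Cauchy's theorem
  have hcauchy : ∀ σ₁ σ₂ : ℝ, Real.log r₁ < σ₁ → σ₁ < Real.log R₁ → Real.log r₁ < σ₂ →
      σ₂ < Real.log R₁ → (∫ θ in (0 : ℝ)..(2 * Real.pi), h (σ₂ + θ * I)) -
        (∫ θ in (0 : ℝ)..(2 * Real.pi), h (σ₁ + θ * I)) = (σ₂ - σ₁) * δ * (-I) := by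
    intro σ₁ σ₂ h1 h2 h3 h4
    have hrect := integral_boundary_rect_eq_zero_of_differentiableOn h (σ₁ : ℂ)
      (σ₂ + (2 * Real.pi : ℝ) * I) (by
        intro τ hτ
        apply DifferentiableAt.differentiableWithinAt
        refine (hhan τ ?_).differentiableAt
        have h5 : τ.re ∈ uIcc σ₁ σ₂ := by
          have := hτ.1
          simpa using this
        rw [hV, mem_ofPred_eq]
        rcases le_total σ₁ σ₂ with h6 | h6
        · rw [uIcc_of_le h6] at h5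
          exact ⟨h1.trans_le h5.1, h5.2.trans_lt h4⟩
        · rw [uIcc_of_ge h6] at h5
          exact ⟨h3.trans_le h5.1, h5.2.trans_lt h2⟩)
    have e1 : ((σ₂ : ℂ) + (2 * Real.pi : ℝ) * I).re = σ₂ := by simp
    have e2 : ((σ₂ : ℂ) + (2 * Real.pi : ℝ) * I).im = 2 * Real.pi := by simp
    rw [e1, e2] at hrect
    simp only [ofReal_re, ofReal_im, ofReal_zero, zero_mul, add_zero, smul_eq_mul] at hrect
    have e3 : ∫ x in σ₁..σ₂, h (x + (2 * Real.pi : ℝ) * I) =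
        (∫ x in σ₁..σ₂, h x) + (σ₂ - σ₁) * δ := by
      have h5 : ∫ x in σ₁..σ₂, h (x + (2 * Real.pi : ℝ) * I) = ∫ x in σ₁..σ₂, (h x + δ) := by
        refine intervalIntegral.integral_congr fun x hx => ?_
        have hxV : (x : ℂ) ∈ V := by
          rw [hV, mem_ofPred_eq, ofReal_re]
          rcases le_total σ₁ σ₂ with h6 | h6
          · rw [uIcc_of_le h6] at hx
            exact ⟨h1.trans_le hx.1, hx.2.trans_lt h4⟩
          · rw [uIcc_of_ge h6] at hx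
            exact ⟨h3.trans_le hx.1, hx.2.trans_lt h2⟩
        have h7 := hδ x hxV
        rw [← h7]
        push_cast
        ring
      rw [h5, intervalIntegral.integral_add, intervalIntegral.integral_const]
      · rw [real_smul]
        push_cast
        ring
      · apply ContinuousOn.intervalIntegrable
        intro x hx
        have hxV : (x : ℂ) ∈ V := by
          rw [hV, mem_ofPred_eq, ofReal_re]
          rcases le_total σ₁ σ₂ with h6 | h6
          · rw [uIcc_of_le h6] at hx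
            exact ⟨h1.trans_le hx.1, hx.2.trans_lt h4⟩
          · rw [uIcc_of_ge h6] at hx
            exact ⟨h3.trans_le hx.1, hx.2.trans_lt h2⟩
        exact (ContinuousAt.comp (f := fun x : ℝ => (x : ℂ)) (g := h) (hhan _ hxV).continuousAt
          (by fun_prop)).continuousWithinAt
      · exact intervalIntegrable_const
    rw [e3] at hrect
    have h8 : I * ((∫ θ in (0 : ℝ)..(2 * Real.pi), h (σ₂ + θ * I)) -
        (∫ θ in (0 : ℝ)..(2 * Real.pi), h (σ₁ + θ * I))) = (σ₂ - σ₁) * δ := by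
      linear_combination hrect
    have h9 : I * I = -1 := I_mul_I
    linear_combination (-I) * h8 + ((∫ θ in (0 : ℝ)..(2 * Real.pi), h (σ₂ + θ * I)) -
        (∫ θ in (0 : ℝ)..(2 * Real.pi), h (σ₁ + θ * I))) * h9
  -- conclusion
  set σ₀ : ℝ := (Real.log r₁ + Real.log R₁) / 2 with hσ₀
  have hσ₀1 : Real.log r₁ < σ₀ := by linarith
  have hσ₀2 : σ₀ < Real.log R₁ := by linarith
  refine ⟨(2 * Real.pi)⁻¹ * (∫ θ in (0 : ℝ)..(2 * Real.pi), h (σ₀ + θ * I)).re -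
    σ₀ * ((2 * Real.pi)⁻¹ * (δ * (-I)).re), (2 * Real.pi)⁻¹ * (δ * (-I)).re, ?_⟩
  intro r hr1 hr2
  have hr0 : 0 < r := hr₁.trans hr1
  have h1 : Real.log r₁ < Real.log r := Real.log_lt_log hr₁ hr1
  have h2 : Real.log r < Real.log R₁ := Real.log_lt_log hr0 hr2
  have h3 := hmean (Real.log r) h1 h2
  rw [Real.exp_log hr0] at h3
  rw [h3]
  have h4 := congrArg Complex.re (hcauchy σ₀ (Real.log r) hσ₀1 hσ₀2 h1 h2)
  have h5 : (((Real.log r : ℂ) - σ₀) * δ * (-I)).re = (Real.log r - σ₀) * (δ * (-I)).re := by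
    rw [mul_assoc, ← ofReal_sub, re_ofReal_mul]
  rw [h5, sub_re] at h4
  linear_combination (2 * Real.pi)⁻¹ * h4

end Pool.Agent.H92.GGL

end

section

/-!
# Jensen's formula on a punctured disc
-/

open Complex MeasureTheory Metric Set Topology Filter

namespace Pool.Agent.H92.GGL

/-- The order of a meromorphic function as an integer. -/
noncomputable def ordZ (u : ℂ → ℂ) (s : ℂ) : ℤ := (meromorphicOrderAt u s).untop₀

lemma ordZ_cast {u : ℂ → ℂ} {s : ℂ} (h : meromorphicOrderAt u s ≠ ⊤) :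
    (ordZ u s : WithTop ℤ) = meromorphicOrderAt u s := by
  unfold ordZ
  exact WithTop.coe_untop₀_of_ne_top h

/-- There are finitely many zeros and poles in an annulus. -/
lemma finite_ordZ {u : ℂ → ℂ} {R₀ a b : ℝ} (ha : 0 < a) (hb : b < R₀)
    (hu : ∀ z, 0 < ‖z‖ → ‖z‖ < R₀ → MeromorphicAt u z) :
    {s : ℂ | a ≤ ‖s‖ ∧ ‖s‖ ≤ b ∧ ordZ u s ≠ 0}.Finite := by
  set K : Set ℂ := {s : ℂ | a ≤ ‖s‖ ∧ ‖s‖ ≤ b} with hK
  have hKc : IsCompact K := by
    refine (isCompact_closedBall (0 : ℂ) b).of_isClosed_subset ?_ ?_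
    · exact (isClosed_le continuous_const continuous_norm).inter
        (isClosed_le continuous_norm continuous_const)
    · intro s hs
      rw [mem_closedBall_zero_iff]
      exact hs.2
  have hm : MeromorphicOn u K := fun z hz => hu z (ha.trans_le hz.1) (hz.2.trans_lt hb)
  refine ((MeromorphicOn.divisor u K).finiteSupport hKc).subset ?_
  rintro s ⟨h1, h2, h3⟩
  rw [Function.mem_support, MeromorphicOn.divisor_apply hm ⟨h1, h2⟩]
  exact h3

/-- The formula on an annulus. -/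
lemma circleAverage_annulus {u : ℂ → ℂ} {R₀ r₁ R₁ : ℝ} (hr₁ : 0 < r₁) (hR₁ : R₁ < R₀)
    (hu : ∀ z, 0 < ‖z‖ → ‖z‖ < R₀ → MeromorphicAt u z)
    (ho : ∀ z, 0 < ‖z‖ → ‖z‖ < R₀ → meromorphicOrderAt u z ≠ ⊤)
    (S : Finset ℂ) (hS : ∀ s, s ∈ S ↔ (r₁ < ‖s‖ ∧ ‖s‖ < R₁) ∧ ordZ u s ≠ 0) :
    ∃ a b : ℝ, ∀ r, r₁ < r → r < R₁ →
      Real.circleAverage (fun z => Real.log ‖u z‖) 0 r =
        a + b * Real.log r + ∑ s ∈ S, ordZ u s * Real.posLog (‖s‖ / r) := by
  set U : Set ℂ := {s : ℂ | r₁ < ‖s‖ ∧ ‖s‖ < R₁} with hU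
  have hm : MeromorphicOn u U := fun z hz => hu z (hr₁.trans hz.1) (hz.2.trans hR₁)
  have hdiv : ∀ s, MeromorphicOn.divisor u U s = if s ∈ U then ordZ u s else 0 := by
    intro s
    split_ifs with h
    · rw [MeromorphicOn.divisor_apply hm h]
      rfl
    · exact Function.locallyFinsuppWithin.apply_eq_zero_of_notMem _ h
  have hsupp : (MeromorphicOn.divisor u U).support ⊆ (S : Set ℂ) := by
    intro s hs
    rw [Function.mem_support, hdiv] at hs
    split_ifs at hs with h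
    · exact (hS s).mpr ⟨h, hs⟩
    · exact absurd rfl hs
  have hfin : (MeromorphicOn.divisor u U).support.Finite := S.finite_toSet.subset hsupp
  obtain ⟨v, hv, hv0, hfv⟩ := hm.extract_zeros_poles
    (fun z => ho z (hr₁.trans z.2.1) (z.2.2.trans hR₁)) hfin
  have hlog := MeromorphicOn.extract_zeros_poles_log hv0 hfv
  obtain ⟨a, b, hab⟩ := circleAverage_log_norm_affine (v := v) hr₁
    (fun z h1 h2 => hv z ⟨h1, h2⟩) (fun z h1 h2 => hv0 ⟨z, h1, h2⟩)
  refine ⟨a, b + ∑ s ∈ S, (ordZ u s : ℝ), ?_⟩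
  intro r h1 h2
  have hr0 : 0 < r := hr₁.trans h1
  have hsum : ∑ᶠ s, (fun z : ℂ => (MeromorphicOn.divisor u U s : ℝ) * Real.log ‖z - s‖) =
      fun z => ∑ s ∈ S, (ordZ u s : ℝ) * Real.log ‖z - s‖ := by
    have h3 : ∑ᶠ s, (fun z : ℂ => (MeromorphicOn.divisor u U s : ℝ) * Real.log ‖z - s‖) =
        ∑ s ∈ S, (fun z : ℂ => (MeromorphicOn.divisor u U s : ℝ) * Real.log ‖z - s‖) := by
      apply finsum_eq_sum_of_support_subset
      intro s hs
      apply hsupp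
      rw [Function.mem_support] at hs ⊢
      intro h
      apply hs
      funext z
      rw [h]
      simp
    rw [h3]
    funext z
    rw [Finset.sum_apply]
    refine Finset.sum_congr rfl fun s hs => ?_
    have h4 : s ∈ U := ((hS s).mp hs).1
    rw [hdiv, if_pos h4]
  have hcongr : Real.circleAverage (fun z => Real.log ‖u z‖) 0 r =
      Real.circleAverage ((fun z => ∑ s ∈ S, (ordZ u s : ℝ) * Real.log ‖z - s‖) +
        fun z => Real.log ‖v z‖) 0 r := by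
    apply Real.circleAverage_congr_codiscreteWithin
    · rw [← hsum]
      refine Filter.EventuallyEq.filter_mono (l := codiscreteWithin U) hlog (codiscreteWithin_mono ?_)
      intro z hz
      rw [mem_sphere_zero_iff_norm, abs_of_pos hr0] at hz
      rw [hU, mem_ofPred_eq, hz]
      exact ⟨h1, h2⟩
    · exact hr0.ne'
  have hint1 : ∀ s : ℂ, CircleIntegrable (fun z => Real.log ‖z - s‖) 0 r := fun s =>
    circleIntegrable_log_norm_sub_const r
  have hint : CircleIntegrable (fun z => ∑ s ∈ S, (ordZ u s : ℝ) * Real.log ‖z - s‖) 0 r := by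
    refine CircleIntegrable.fun_sum S fun s _ => ?_
    exact (hint1 s).const_fun_smul (a := (ordZ u s : ℝ))
  have hintv : CircleIntegrable (fun z => Real.log ‖v z‖) 0 r := by
    apply MeromorphicOn.circleIntegrable_log_norm
    intro z hz
    rw [mem_sphere_zero_iff_norm, abs_of_pos hr0] at hz
    refine (hv z ?_).meromorphicAt
    rw [hU, mem_ofPred_eq, hz]
    exact ⟨h1, h2⟩
  rw [hcongr, Real.circleAverage_add hint hintv, hab r h1 h2, Real.circleAverage_fun_sum]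
  · have h4 : ∀ s ∈ S, Real.circleAverage (fun z => (ordZ u s : ℝ) * Real.log ‖z - s‖) 0 r =
        ordZ u s * (Real.log r + Real.posLog (‖s‖ / r)) := by
      intro s _
      have h5 := Real.circleAverage_fun_smul (a := (ordZ u s : ℝ))
        (f := fun z => Real.log ‖z - s‖) (c := 0) (R := r)
      simp only [smul_eq_mul] at h5
      rw [h5, circleAverage_log_norm_sub_const_eq_log_radius_add_posLog hr0.ne', zero_sub, norm_neg,
        inv_mul_eq_div]
    rw [Finset.sum_congr rfl h4]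
    simp only [mul_add, Finset.sum_add_distrib, ← Finset.sum_mul, add_mul]
    ring
  · intro s _
    exact (hint1 s).const_fun_smul (a := (ordZ u s : ℝ))

/-- **Jensen's formula on a punctured disc.** -/
theorem jensen_punctured {u : ℂ → ℂ} {R₀ R₁ : ℝ} (hR₁ : R₁ < R₀)
    (hu : ∀ z, 0 < ‖z‖ → ‖z‖ < R₀ → MeromorphicAt u z)
    (ho : ∀ z, 0 < ‖z‖ → ‖z‖ < R₀ → meromorphicOrderAt u z ≠ ⊤) :
    ∃ A B : ℝ, ∀ r, 0 < r → r < R₁ → ∀ S : Finset ℂ, (∀ s ∈ S, ‖s‖ < R₁) →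
      (∀ s, r < ‖s‖ → ‖s‖ < R₁ → ordZ u s ≠ 0 → s ∈ S) →
      Real.circleAverage (fun z => Real.log ‖u z‖) 0 r =
        A + B * Real.log r + ∑ s ∈ S, ordZ u s * Real.posLog (‖s‖ / r) := by
  classical
  rcases le_or_gt R₁ 0 with hle | hR1pos
  · exact ⟨0, 0, fun r h1 h2 => absurd (h1.trans h2) (not_lt.mpr hle)⟩
  -- the finite sets of zeros
  have hfin : ∀ r : ℝ, 0 < r → {s : ℂ | (r < ‖s‖ ∧ ‖s‖ < R₁) ∧ ordZ u s ≠ 0}.Finite := by
    intro r hr
    refine (finite_ordZ hr hR₁ hu).subset ?_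
    rintro s ⟨⟨h1, h2⟩, h3⟩
    exact ⟨h1.le, h2.le, h3⟩
  -- independence of the set
  have hindep : ∀ r, 0 < r → ∀ S : Finset ℂ, (∀ s ∈ S, ‖s‖ < R₁) →
      (∀ s, r < ‖s‖ → ‖s‖ < R₁ → ordZ u s ≠ 0 → s ∈ S) → ∀ S' : Finset ℂ,
      (∀ s ∈ S', ‖s‖ < R₁) → (∀ s, r < ‖s‖ → ‖s‖ < R₁ → ordZ u s ≠ 0 → s ∈ S') →
      ∑ s ∈ S, ordZ u s * Real.posLog (‖s‖ / r) = ∑ s ∈ S', ordZ u s * Real.posLog (‖s‖ / r) := by
    intro r hr S hS1 hS2 S' hS'1 hS'2
    have hz : ∀ s, (ordZ u s : ℝ) * Real.posLog (‖s‖ / r) ≠ 0 → r < ‖s‖ ∧ ordZ u s ≠ 0 := by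
      intro s hs
      refine ⟨?_, fun h => hs (by rw [h]; simp)⟩
      by_contra h
      apply hs
      have h1 : |‖s‖ / r| ≤ 1 := by
        rw [abs_of_nonneg (by positivity), div_le_one hr]
        exact not_lt.mp h
      rw [Real.posLog_eq_zero_iff _ |>.mpr h1, mul_zero]
    have h1 : ∀ T : Finset ℂ, (∀ s ∈ T, ‖s‖ < R₁) →
        (∀ s, r < ‖s‖ → ‖s‖ < R₁ → ordZ u s ≠ 0 → s ∈ T) →
        ∑ s ∈ T, (ordZ u s : ℝ) * Real.posLog (‖s‖ / r) =
          ∑ s ∈ (hfin r hr).toFinset, (ordZ u s : ℝ) * Real.posLog (‖s‖ / r) := by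
      intro T hT1 hT2
      symm
      apply Finset.sum_subset_zero_on_sdiff
      · intro s hs
        obtain ⟨⟨h1, h2⟩, h3⟩ := (hfin r hr).mem_toFinset.mp hs
        exact hT2 s h1 h2 h3
      · intro s hs
        rw [Finset.mem_sdiff] at hs
        by_contra h
        apply hs.2
        obtain ⟨h2, h3⟩ := hz s h
        exact (hfin r hr).mem_toFinset.mpr ⟨⟨h2, hT1 s hs.1⟩, h3⟩
      · intro s _
        rfl
    rw [h1 S hS1 hS2, h1 S' hS'1 hS'2]
  -- the formula on annuli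
  have hann : ∀ r₁ : ℝ, 0 < r₁ → ∃ a b : ℝ, ∀ r, r₁ < r → r < R₁ → ∀ S : Finset ℂ,
      (∀ s ∈ S, ‖s‖ < R₁) → (∀ s, r < ‖s‖ → ‖s‖ < R₁ → ordZ u s ≠ 0 → s ∈ S) →
      Real.circleAverage (fun z => Real.log ‖u z‖) 0 r =
        a + b * Real.log r + ∑ s ∈ S, ordZ u s * Real.posLog (‖s‖ / r) := by
    intro r₁ hr₁
    obtain ⟨a, b, hab⟩ := circleAverage_annulus hr₁ hR₁ hu ho (hfin r₁ hr₁).toFinset
      (fun s => (hfin r₁ hr₁).mem_toFinset)
    refine ⟨a, b, fun r h1 h2 S hS1 hS2 => ?_⟩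
    rw [hab r h1 h2]
    congr 1
    refine hindep r (hr₁.trans h1) _ ?_ ?_ S hS1 hS2
    · intro s hs
      exact ((hfin r₁ hr₁).mem_toFinset.mp hs).1.2
    · intro s h3 h4 h5
      exact (hfin r₁ hr₁).mem_toFinset.mpr ⟨⟨h1.trans h3, h4⟩, h5⟩
  -- reference points
  obtain ⟨A, B, hAB⟩ := hann (R₁ / 4) (by positivity)
  refine ⟨A, B, fun r h1 h2 S hS1 hS2 => ?_⟩
  obtain ⟨a, b, hab⟩ := hann (min (r / 2) (R₁ / 8)) (by positivity)
  have hmin1 : min (r / 2) (R₁ / 8) < r := (min_le_left _ _).trans_lt (by linarith)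
  have hmin2 : min (r / 2) (R₁ / 8) < R₁ / 3 := (min_le_right _ _).trans_lt (by linarith)
  have hmin3 : min (r / 2) (R₁ / 8) < R₁ / 2 := (min_le_right _ _).trans_lt (by linarith)
  have hT : ∀ (ρ : ℝ) (hρ : 0 < ρ), (∀ s ∈ (hfin ρ hρ).toFinset, ‖s‖ < R₁) ∧
      (∀ s, ρ < ‖s‖ → ‖s‖ < R₁ → ordZ u s ≠ 0 → s ∈ (hfin ρ hρ).toFinset) := by
    intro ρ hρ
    refine ⟨fun s hs => ((hfin ρ hρ).mem_toFinset.mp hs).1.2, fun s h3 h4 h5 => ?_⟩
    exact (hfin ρ hρ).mem_toFinset.mpr ⟨⟨h3, h4⟩, h5⟩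
  have h3pos : 0 < R₁ / 3 := by positivity
  have h2pos : 0 < R₁ / 2 := by positivity
  have e1 := hAB (R₁ / 3) (by linarith) (by linarith) _ (hT _ h3pos).1 (hT _ h3pos).2
  have e2 := hAB (R₁ / 2) (by linarith) (by linarith) _ (hT _ h2pos).1 (hT _ h2pos).2
  have e3 := hab (R₁ / 3) hmin2 (by linarith) _ (hT _ h3pos).1 (hT _ h3pos).2
  have e4 := hab (R₁ / 2) hmin3 (by linarith) _ (hT _ h2pos).1 (hT _ h2pos).2
  have e5 : A + B * Real.log (R₁ / 3) = a + b * Real.log (R₁ / 3) := by linarith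
  have e6 : A + B * Real.log (R₁ / 2) = a + b * Real.log (R₁ / 2) := by linarith
  have e7 : Real.log (R₁ / 3) < Real.log (R₁ / 2) := Real.log_lt_log h3pos (by linarith)
  have e8 : (B - b) * (Real.log (R₁ / 2) - Real.log (R₁ / 3)) = 0 := by linear_combination e6 - e5
  have e9 : B = b := by
    rcases mul_eq_zero.mp e8 with h | h
    · linarith
    · linarith
  have e10 : A = a := by
    rw [e9] at e5
    linarith
  rw [hab r hmin1 h2 S hS1 hS2, e9, e10]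

end Pool.Agent.H92.GGL

end

section

/-!
# Nevanlinna theory at a puncture: definitions

Circle means and counting functions near the puncture `0`, with the variable `x = log (1 / r)`.
-/

open Filter Topology MeasureTheory
open Pool.Agent.H92.GGL (ordZ)

noncomputable section

namespace Pool.Agent.H62.FC

/-- `u` is meromorphic and not identically zero on the punctured disc of radius `R₀`. -/
structure MeroPunct (R₀ : ℝ) (u : ℂ → ℂ) : Prop where
  mero : ∀ z, 0 < ‖z‖ → ‖z‖ < R₀ → MeromorphicAt u z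
  ord : ∀ z, 0 < ‖z‖ → ‖z‖ < R₀ → meromorphicOrderAt u z ≠ ⊤

/-- The weighted counting function of the annulus `r < ‖s‖ < R₁`. -/
def cnt (w : ℂ → ℝ) (R₁ r : ℝ) : ℝ :=
  ∑ᶠ s ∈ {s : ℂ | r < ‖s‖ ∧ ‖s‖ < R₁}, w s * Real.log (‖s‖ / r)

/-- The weight `w` has locally finite support in the punctured disc of radius `R₀`. -/
def LocFin (R₀ : ℝ) (w : ℂ → ℝ) : Prop :=
  ∀ r b : ℝ, 0 < r → b < R₀ → {s : ℂ | r ≤ ‖s‖ ∧ ‖s‖ ≤ b ∧ w s ≠ 0}.Finite

/-- The mean on the circle of radius `exp (-x)`. -/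
def mean (g : ℂ → ℝ) (x : ℝ) : ℝ := Real.circleAverage g 0 (Real.exp (-x))

/-- The characteristic function near the puncture. -/
def nevT (u : ℂ → ℂ) (R₁ x : ℝ) : ℝ :=
  mean (fun z => Real.posLog ‖u z‖) x + cnt (fun s => max (-(ordZ u s : ℝ)) 0) R₁ (Real.exp (-x))

/-- `S` is negligible with respect to `T`, outside a set of finite measure. -/
def Negl (R₁ : ℝ) (T S : ℝ → ℝ) : Prop :=
  ∀ ε : ℝ, 0 < ε → ∃ (C : ℝ) (E : Set ℝ), volume E ≠ ⊤ ∧
    ∀ x, Real.exp (-x) < R₁ → x ∉ E → S x ≤ ε * T x + C * (1 + |x|)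

/-- The Wronskian. -/
def wronsk {n : ℕ} (u : Fin n → ℂ → ℂ) (z : ℂ) : ℂ :=
  (Matrix.of fun i j : Fin n => iteratedDeriv i (u j) z).det

/-- `f` is, up to a discrete set, meromorphic at `0`. -/
def PunctMero (f : ℂ → ℂ) : Prop :=
  ∃ v : ℂ → ℂ, MeromorphicAt v 0 ∧ ∀ᶠ z in 𝓝[≠] (0 : ℂ), f =ᶠ[𝓝[≠] z] v

end Pool.Agent.H62.FC

end
end

section

/-!
# Nevanlinna theory at a puncture: counting functions and the first main theorem
-/

noncomputable section

namespace Pool.Agent.H62.FC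

open Filter Topology MeasureTheory
open Pool.Agent.H92.GGL (ordZ finite_ordZ jensen_punctured)

variable {R₀ R₁ : ℝ}

theorem cnt_eq_sum {w : ℂ → ℝ} {r : ℝ} {T : Finset ℂ}
    (hT : ∀ s, r < ‖s‖ → ‖s‖ < R₁ → w s ≠ 0 → s ∈ T) (hr : 0 < r) :
    cnt w R₁ r = ∑ s ∈ T with r < ‖s‖ ∧ ‖s‖ < R₁, w s * Real.log (‖s‖ / r) := by
  unfold cnt
  apply finsum_mem_eq_sum_of_inter_support_eq
  ext s
  simp only [Set.mem_inter_iff, Set.mem_ofPred_eq, Finset.coe_filter, Function.mem_support]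
  constructor
  · rintro ⟨⟨h1, h2⟩, h3⟩
    exact ⟨⟨hT s h1 h2 (fun h => h3 (by rw [h, zero_mul])), h1, h2⟩, h3⟩
  · rintro ⟨⟨_, h1, h2⟩, h3⟩
    exact ⟨⟨h1, h2⟩, h3⟩

private theorem Nev0_exists {w : ℂ → ℝ} (h : R₁ < R₀) (hw : LocFin R₀ w) {r : ℝ} (hr : 0 < r) :
    ∃ T : Finset ℂ, ∀ s, r < ‖s‖ → ‖s‖ < R₁ → w s ≠ 0 → s ∈ T :=
  ⟨(hw r R₁ hr h).toFinset, fun _ h1 h2 h3 => (hw r R₁ hr h).mem_toFinset.mpr ⟨h1.le, h2.le, h3⟩⟩

private theorem Nev0_exists2 {w w' : ℂ → ℝ} (h : R₁ < R₀) (hw : LocFin R₀ w)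
    (hw' : LocFin R₀ w') {r : ℝ} (hr : 0 < r) :
    ∃ T : Finset ℂ, (∀ s, r < ‖s‖ → ‖s‖ < R₁ → w s ≠ 0 → s ∈ T) ∧
      ∀ s, r < ‖s‖ → ‖s‖ < R₁ → w' s ≠ 0 → s ∈ T := by
  classical
  obtain ⟨T, hT⟩ := Nev0_exists h hw hr
  obtain ⟨T', hT'⟩ := Nev0_exists h hw' hr
  exact ⟨T ∪ T', fun s h1 h2 h3 => Finset.mem_union_left _ (hT s h1 h2 h3),
    fun s h1 h2 h3 => Finset.mem_union_right _ (hT' s h1 h2 h3)⟩

theorem cnt_add {w w' : ℂ → ℝ} (h : R₁ < R₀) (hw : LocFin R₀ w) (hw' : LocFin R₀ w') {r : ℝ}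
    (hr : 0 < r) : cnt (fun s => w s + w' s) R₁ r = cnt w R₁ r + cnt w' R₁ r := by
  obtain ⟨T, hT, hT'⟩ := Nev0_exists2 h hw hw' hr
  rw [cnt_eq_sum hT hr, cnt_eq_sum hT' hr, cnt_eq_sum (w := fun s => w s + w' s) (T := T) ?_ hr,
    ← Finset.sum_add_distrib]
  · exact Finset.sum_congr rfl fun s _ => add_mul _ _ _
  · intro s h1 h2 h3
    by_cases h4 : w s = 0
    · refine hT' s h1 h2 fun h5 => h3 ?_
      rw [h4, h5, add_zero]
    · exact hT s h1 h2 h4

theorem cnt_mul {w : ℂ → ℝ} (c : ℝ) {r : ℝ} (h : R₁ < R₀) (hw : LocFin R₀ w) (hr : 0 < r) :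
    cnt (fun s => c * w s) R₁ r = c * cnt w R₁ r := by
  obtain ⟨T, hT⟩ := Nev0_exists h hw hr
  rw [cnt_eq_sum hT hr, cnt_eq_sum (w := fun s => c * w s) (T := T) ?_ hr, Finset.mul_sum]
  · exact Finset.sum_congr rfl fun s _ => mul_assoc _ _ _
  · intro s h1 h2 h3
    refine hT s h1 h2 fun h4 => h3 ?_
    rw [h4, mul_zero]

theorem cnt_mono {w w' : ℂ → ℝ} (h : R₁ < R₀) (hw : LocFin R₀ w) (hw' : LocFin R₀ w') {r : ℝ}
    (hr : 0 < r) (hle : ∀ s, r < ‖s‖ → ‖s‖ < R₁ → w s ≤ w' s) : cnt w R₁ r ≤ cnt w' R₁ r := by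
  obtain ⟨T, hT, hT'⟩ := Nev0_exists2 h hw hw' hr
  rw [cnt_eq_sum hT hr, cnt_eq_sum hT' hr]
  refine Finset.sum_le_sum fun s hs => ?_
  obtain ⟨_, h1, h2⟩ := Finset.mem_filter.mp hs
  refine mul_le_mul_of_nonneg_right (hle s h1 h2) (Real.log_nonneg ?_)
  rw [one_le_div hr]
  exact h1.le

theorem cnt_nonneg {w : ℂ → ℝ} {r : ℝ} (hr : 0 < r) (hw : ∀ s, 0 ≤ w s) : 0 ≤ cnt w R₁ r := by
  unfold cnt
  refine finsum_nonneg fun s => finsum_nonneg fun hs => ?_
  refine mul_nonneg (hw s) (Real.log_nonneg ?_)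
  rw [one_le_div hr]
  exact hs.1.le

/-- change of the outer radius -/
theorem cnt_radius {w : ℂ → ℝ} {R₂ : ℝ} (h1 : 0 < R₁) (h12 : R₁ ≤ R₂) (h : R₂ < R₀)
    (hw : LocFin R₀ w) :
    ∃ C : ℝ, ∀ x, Real.exp (-x) < R₁ →
      |cnt w R₂ (Real.exp (-x)) - cnt w R₁ (Real.exp (-x))| ≤ C * (1 + |x|) := by
  classical
  set T₀ : Finset ℂ := (hw R₁ R₂ h1 h).toFinset with hT₀
  refine ⟨∑ s ∈ T₀, |w s| * (|Real.log ‖s‖| + 1), fun x hx => ?_⟩
  have hr : 0 < Real.exp (-x) := Real.exp_pos _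
  obtain ⟨T', hT'⟩ := Nev0_exists h hw hr
  set T : Finset ℂ := T' ∪ T₀ with hTdef
  have hT : ∀ s, Real.exp (-x) < ‖s‖ → ‖s‖ < R₂ → w s ≠ 0 → s ∈ T :=
    fun s h3 h4 h5 => Finset.mem_union_left _ (hT' s h3 h4 h5)
  rw [cnt_eq_sum hT hr, cnt_eq_sum (R₁ := R₁) (T := T)
    (fun s h3 h4 h5 => hT s h3 (h4.trans_le h12) h5) hr, Finset.sum_filter, Finset.sum_filter,
    ← Finset.sum_sub_distrib]
  refine (Finset.abs_sum_le_sum_abs _ _).trans ?_
  have hsub : T₀ ⊆ T := Finset.subset_union_right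
  have hz : ∀ s ∈ T, s ∉ T₀ →
      |(if Real.exp (-x) < ‖s‖ ∧ ‖s‖ < R₂ then w s * Real.log (‖s‖ / Real.exp (-x)) else 0) -
        (if Real.exp (-x) < ‖s‖ ∧ ‖s‖ < R₁ then w s * Real.log (‖s‖ / Real.exp (-x)) else 0)| =
        0 := by
    intro s _ hs
    by_cases hws : w s = 0
    · simp [hws]
    by_cases hs1 : ‖s‖ < R₁
    · have hs2 : ‖s‖ < R₂ := hs1.trans_le h12
      simp [hs1, hs2]
    · by_cases hs2 : ‖s‖ < R₂
      · exact absurd ((hw R₁ R₂ h1 h).mem_toFinset.mpr ⟨not_lt.mp hs1, hs2.le, hws⟩) hs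
      · simp [hs1, hs2]
  rw [← Finset.sum_subset hsub hz, Finset.sum_mul]
  refine Finset.sum_le_sum fun s hs => ?_
  obtain ⟨hs1, hs2, hs3⟩ := (hw R₁ R₂ h1 h).mem_toFinset.mp hs
  have hs0 : 0 < ‖s‖ := h1.trans_le hs1
  have hb : |w s * Real.log (‖s‖ / Real.exp (-x))| ≤
      |w s| * (|Real.log ‖s‖| + 1) * (1 + |x|) := by
    rw [Real.log_div hs0.ne' hr.ne', Real.log_exp, sub_neg_eq_add, abs_mul, mul_assoc]
    refine mul_le_mul_of_nonneg_left ((abs_add_le _ _).trans ?_) (abs_nonneg _)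
    have h4 := abs_nonneg (Real.log ‖s‖)
    have h5 := abs_nonneg x
    nlinarith [mul_nonneg h4 h5]
  have hnn : 0 ≤ |w s| * (|Real.log ‖s‖| + 1) * (1 + |x|) := by positivity
  have hns : ¬ (Real.exp (-x) < ‖s‖ ∧ ‖s‖ < R₁) := fun h6 => not_lt.mpr hs1 h6.2
  rw [if_neg hns, sub_zero]
  split_ifs with h6
  · exact hb
  · rw [abs_zero]
    exact hnn

theorem MeroPunct.locFin {u : ℂ → ℂ} (hu : MeroPunct R₀ u) : LocFin R₀ (fun s => (ordZ u s : ℝ)) := by
  intro r b hr hb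
  refine (finite_ordZ hr hb hu.mero).subset ?_
  rintro s ⟨h1, h2, h3⟩
  exact ⟨h1, h2, fun h => h3 (by change ((ordZ u s : ℤ) : ℝ) = 0; rw [h]; simp)⟩

theorem MeroPunct.jensen {u : ℂ → ℂ} (hu : MeroPunct R₀ u) (h1 : 0 < R₁) (h : R₁ < R₀) :
    ∃ A B : ℝ, ∀ x, Real.exp (-x) < R₁ →
      mean (fun z => Real.log ‖u z‖) x = A + B * x + cnt (fun s => (ordZ u s : ℝ)) R₁ (Real.exp (-x)) := by
  classical
  obtain ⟨A, B, hAB⟩ := jensen_punctured h hu.mero hu.ord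
  refine ⟨A, -B, fun x hx => ?_⟩
  have hr : 0 < Real.exp (-x) := Real.exp_pos _
  obtain ⟨T, hT⟩ := Nev0_exists h hu.locFin hr
  have hT' : ∀ s, Real.exp (-x) < ‖s‖ → ‖s‖ < R₁ → ordZ u s ≠ 0 →
      s ∈ T.filter (fun s => Real.exp (-x) < ‖s‖ ∧ ‖s‖ < R₁) := by
    intro s h3 h4 h5
    exact Finset.mem_filter.mpr ⟨hT s h3 h4 (by exact_mod_cast h5), h3, h4⟩
  unfold mean
  rw [hAB (Real.exp (-x)) hr hx _ (fun s hs => (Finset.mem_filter.mp hs).2.2) hT',
    cnt_eq_sum hT hr, Real.log_exp]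
  have e : ∀ s ∈ T.filter (fun s => Real.exp (-x) < ‖s‖ ∧ ‖s‖ < R₁),
      (ordZ u s : ℝ) * Real.posLog (‖s‖ / Real.exp (-x)) =
      (ordZ u s : ℝ) * Real.log (‖s‖ / Real.exp (-x)) := by
    intro s hs
    have h3 := (Finset.mem_filter.mp hs).2.1
    have h4 : 1 ≤ |‖s‖ / Real.exp (-x)| := by
      rw [abs_of_nonneg (by positivity), one_le_div hr]
      exact h3.le
    rw [Real.posLog_eq_log h4]
  rw [Finset.sum_congr rfl e]
  ring

private theorem Nev0_mem {u : ℂ → ℂ} (hu : MeroPunct R₀ u) {x : ℝ} (hx : Real.exp (-x) < R₀) :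
    MeromorphicOn u (Metric.sphere 0 |Real.exp (-x)|) := by
  intro z hz
  rw [mem_sphere_zero_iff_norm, abs_of_pos (Real.exp_pos _)] at hz
  exact hu.mero z (by rw [hz]; exact Real.exp_pos _) (by rw [hz]; exact hx)

theorem MeroPunct.circleIntegrable_log {u : ℂ → ℂ} (hu : MeroPunct R₀ u) {x : ℝ}
    (hx : Real.exp (-x) < R₀) : CircleIntegrable (fun z => Real.log ‖u z‖) 0 (Real.exp (-x)) :=
  (Nev0_mem hu hx).circleIntegrable_log_norm

theorem MeroPunct.circleIntegrable_posLog {u : ℂ → ℂ} (hu : MeroPunct R₀ u) {x : ℝ}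
    (hx : Real.exp (-x) < R₀) : CircleIntegrable (fun z => Real.posLog ‖u z‖) 0 (Real.exp (-x)) :=
  (Nev0_mem hu hx).circleIntegrable_posLog_norm

theorem MeroPunct.mul {u v : ℂ → ℂ} (hu : MeroPunct R₀ u) (hv : MeroPunct R₀ v) :
    MeroPunct R₀ (fun z => u z * v z) where
  mero z h1 h2 := (hu.mero z h1 h2).mul (hv.mero z h1 h2)
  ord z h1 h2 := by
    have e : meromorphicOrderAt (fun z => u z * v z) z =
        meromorphicOrderAt u z + meromorphicOrderAt v z :=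
      meromorphicOrderAt_mul (hu.mero z h1 h2) (hv.mero z h1 h2)
    rw [e]
    exact WithTop.add_ne_top.mpr ⟨hu.ord z h1 h2, hv.ord z h1 h2⟩

private theorem Nev0_ord_inv (u : ℂ → ℂ) (z : ℂ) :
    meromorphicOrderAt (fun z => (u z)⁻¹) z = -meromorphicOrderAt u z :=
  meromorphicOrderAt_inv

theorem MeroPunct.inv {u : ℂ → ℂ} (hu : MeroPunct R₀ u) : MeroPunct R₀ (fun z => (u z)⁻¹) where
  mero z h1 h2 := (hu.mero z h1 h2).inv
  ord z h1 h2 := by
    rw [Nev0_ord_inv]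
    intro h
    have h3 := hu.ord z h1 h2
    obtain ⟨k, hk⟩ := WithTop.ne_top_iff_exists.mp h3
    rw [← hk] at h
    exact absurd h (by exact WithTop.coe_ne_top (a := -k))

private theorem Nev0_ordZ_inv {u : ℂ → ℂ} {z : ℂ} (h : meromorphicOrderAt u z ≠ ⊤) :
    ordZ (fun z => (u z)⁻¹) z = -ordZ u z := by
  unfold Pool.Agent.H92.GGL.ordZ
  rw [Nev0_ord_inv]
  obtain ⟨k, hk⟩ := WithTop.ne_top_iff_exists.mp h
  rw [← hk]
  have e : -((k : ℤ) : WithTop ℤ) = ((-k : ℤ) : WithTop ℤ) := rfl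
  rw [e, WithTop.untop₀_coe, WithTop.untop₀_coe]

theorem nevT_nonneg (u : ℂ → ℂ) (R₁ x : ℝ) : 0 ≤ nevT u R₁ x := by
  unfold nevT mean
  refine add_nonneg (Real.circleAverage_nonneg_of_nonneg fun z _ => Real.posLog_nonneg)
    (cnt_nonneg (Real.exp_pos _) fun s => le_max_right _ _)

private theorem Nev0_locFin_comp {w : ℂ → ℝ} (hw : LocFin R₀ w) {f : ℝ → ℝ} (hf : f 0 = 0) :
    LocFin R₀ (fun s => f (w s)) := by
  intro r b hr hb
  refine (hw r b hr hb).subset ?_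
  rintro s ⟨h1, h2, h3⟩
  refine ⟨h1, h2, fun h => h3 ?_⟩
  change f (w s) = 0
  rw [h, hf]

private theorem Nev0_cnt_congr {w w' : ℂ → ℝ} {r : ℝ}
    (hle : ∀ s, r < ‖s‖ → ‖s‖ < R₁ → w s = w' s) : cnt w R₁ r = cnt w' R₁ r := by
  unfold cnt
  refine finsum_congr fun s => finsum_congr fun hs => ?_
  rw [hle s hs.1 hs.2]

/-- the characteristic function of the inverse -/
private theorem Nev0_inv {u : ℂ → ℂ} (hu : MeroPunct R₀ u) (h : R₁ < R₀) {x : ℝ}
    (hx : Real.exp (-x) < R₁) :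
    nevT (fun z => (u z)⁻¹) R₁ x = mean (fun z => Real.posLog ‖u z‖⁻¹) x +
      cnt (fun s => max (ordZ u s : ℝ) 0) R₁ (Real.exp (-x)) := by
  unfold nevT
  congr 1
  · congr 1
    funext z
    rw [norm_inv]
  · refine Nev0_cnt_congr fun s h1 h2 => ?_
    rw [Nev0_ordZ_inv (hu.ord s ((Real.exp_pos _).trans h1) (h2.trans h))]
    push_cast
    rw [neg_neg]

/-- first main theorem for `0` and `∞` -/
theorem MeroPunct.nevT_inv {u : ℂ → ℂ} (hu : MeroPunct R₀ u) (h1 : 0 < R₁) (h : R₁ < R₀) :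
    ∃ C : ℝ, ∀ x, Real.exp (-x) < R₁ →
      |nevT (fun z => (u z)⁻¹) R₁ x - nevT u R₁ x| ≤ C * (1 + |x|) := by
  obtain ⟨A, B, hAB⟩ := hu.jensen h1 h
  refine ⟨|A| + |B|, fun x hx => ?_⟩
  have hr : 0 < Real.exp (-x) := Real.exp_pos _
  have hx0 : Real.exp (-x) < R₀ := hx.trans h
  have hJ := hAB x hx
  have e1 : mean (fun z => Real.log ‖u z‖) x = mean (fun z => Real.posLog ‖u z‖) x -
      mean (fun z => Real.posLog ‖u z‖⁻¹) x := by
    unfold mean
    rw [← Real.circleAverage_fun_sub (hu.circleIntegrable_posLog hx0)]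
    · congr 1
      funext z
      rw [Real.posLog_sub_posLog_inv]
    · have := hu.inv.circleIntegrable_posLog hx0
      simpa only [norm_inv] using this
  have e2 : cnt (fun s => max (ordZ u s : ℝ) 0) R₁ (Real.exp (-x)) =
      cnt (fun s => (ordZ u s : ℝ)) R₁ (Real.exp (-x)) +
      cnt (fun s => max (-(ordZ u s : ℝ)) 0) R₁ (Real.exp (-x)) := by
    rw [← cnt_add h hu.locFin (Nev0_locFin_comp (f := fun t => max (-t) 0) hu.locFin (by simp)) hr]
    refine Nev0_cnt_congr fun s _ _ => ?_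
    rcases le_total (ordZ u s : ℝ) 0 with h3 | h3
    · rw [max_eq_right h3, max_eq_left (neg_nonneg.mpr h3), add_neg_cancel]
    · rw [max_eq_left h3, max_eq_right (neg_nonpos.mpr h3), add_zero]
  have e3 : nevT (fun z => (u z)⁻¹) R₁ x - nevT u R₁ x = -(A + B * x) := by
    rw [Nev0_inv hu h hx, nevT, e2]
    rw [e1] at hJ
    linarith
  rw [e3, abs_neg]
  have h4 := abs_nonneg A
  have h5 := abs_nonneg B
  have h6 := abs_nonneg x
  calc |A + B * x| ≤ |A| + |B * x| := abs_add_le _ _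
    _ = |A| + |B| * |x| := by rw [abs_mul]
    _ ≤ (|A| + |B|) * (1 + |x|) := by nlinarith [mul_nonneg h4 h6]

/-- the mean of `|log |u||` and the number of zeros and poles -/
theorem MeroPunct.mean_abs_add_cnt {u : ℂ → ℂ} (hu : MeroPunct R₀ u) (h1 : 0 < R₁) (h : R₁ < R₀) :
    ∃ C : ℝ, ∀ x, Real.exp (-x) < R₁ →
      mean (fun z => |Real.log ‖u z‖|) x + cnt (fun s => |(ordZ u s : ℝ)|) R₁ (Real.exp (-x)) ≤
        2 * nevT u R₁ x + C * (1 + |x|) := by
  obtain ⟨C, hC⟩ := hu.nevT_inv h1 h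
  refine ⟨C, fun x hx => ?_⟩
  have hr : 0 < Real.exp (-x) := Real.exp_pos _
  have hx0 : Real.exp (-x) < R₀ := hx.trans h
  have e1 : mean (fun z => |Real.log ‖u z‖|) x = mean (fun z => Real.posLog ‖u z‖) x +
      mean (fun z => Real.posLog ‖u z‖⁻¹) x := by
    unfold mean
    rw [← Real.circleAverage_fun_add (hu.circleIntegrable_posLog hx0)]
    · congr 1
      funext z
      have h2 := Real.half_mul_log_add_log_abs (x := ‖u z‖)
      have h3 := Real.posLog_sub_posLog_inv (x := ‖u z‖)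
      linarith
    · have := hu.inv.circleIntegrable_posLog hx0
      simpa only [norm_inv] using this
  have e2 : cnt (fun s => |(ordZ u s : ℝ)|) R₁ (Real.exp (-x)) =
      cnt (fun s => max (ordZ u s : ℝ) 0) R₁ (Real.exp (-x)) +
      cnt (fun s => max (-(ordZ u s : ℝ)) 0) R₁ (Real.exp (-x)) := by
    rw [← cnt_add h (Nev0_locFin_comp (f := fun t => max t 0) hu.locFin (by simp))
      (Nev0_locFin_comp (f := fun t => max (-t) 0) hu.locFin (by simp)) hr]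
    refine Nev0_cnt_congr fun s _ _ => ?_
    rcases le_total (ordZ u s : ℝ) 0 with h3 | h3
    · rw [max_eq_right h3, max_eq_left (neg_nonneg.mpr h3), zero_add, abs_of_nonpos h3]
    · rw [max_eq_left h3, max_eq_right (neg_nonpos.mpr h3), add_zero, abs_of_nonneg h3]
  have h2 := (abs_le.mp (hC x hx)).2
  have e3 : mean (fun z => |Real.log ‖u z‖|) x +
      cnt (fun s => |(ordZ u s : ℝ)|) R₁ (Real.exp (-x)) =
      nevT u R₁ x + nevT (fun z => (u z)⁻¹) R₁ x := by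
    rw [e1, e2, Nev0_inv hu h hx, nevT]
    ring
  rw [e3]
  linarith

end Pool.Agent.H62.FC

end
end
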