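import Pool.Agent.H43.TL2.M105

/-! The parts of this file: H62.FC.Avg, H62.FC.Calculus, H62.FC.Potential, H62.FC.LogDeriv. -/

section

/-!
# Second derivatives of circle means: the smooth case

Taylor's formula with integral remainder in `x` for every fixed `θ`, Fubini, and periodicity.
-/

noncomputable section

namespace Pool.Agent.H62.FC

open Filter Topology MeasureTheory

/-- directional derivatives -/
def Avg_d (F : ℝ × ℝ → ℝ) (v : ℝ × ℝ) (p : ℝ × ℝ) : ℝ := fderiv ℝ F p v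

theorem Avg_d_contDiffAt {F : ℝ × ℝ → ℝ} {p : ℝ × ℝ} (v : ℝ × ℝ) {m n : WithTop ℕ∞}
    (h : ContDiffAt ℝ n F p) (hmn : m + 1 ≤ n) : ContDiffAt ℝ m (Avg_d F v) p :=
  (h.fderiv_right hmn).clm_apply contDiffAt_const

theorem Avg_hasDerivAt_fst {F : ℝ × ℝ → ℝ} {x θ : ℝ} (h : DifferentiableAt ℝ F (x, θ)) :
    HasDerivAt (fun y => F (y, θ)) (Avg_d F (1, 0) (x, θ)) x :=
  HasFDerivAt.comp_hasDerivAt (f := fun y : ℝ => (y, θ)) x h.hasFDerivAt
    ((hasDerivAt_id x).prodMk (hasDerivAt_const x θ))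

theorem Avg_hasDerivAt_snd {F : ℝ × ℝ → ℝ} {x θ : ℝ} (h : DifferentiableAt ℝ F (x, θ)) :
    HasDerivAt (fun φ => F (x, φ)) (Avg_d F (0, 1) (x, θ)) θ :=
  HasFDerivAt.comp_hasDerivAt (f := fun φ : ℝ => (x, φ)) θ h.hasFDerivAt
    ((hasDerivAt_const θ x).prodMk (hasDerivAt_id θ))

theorem Avg_iter_two {f g : ℝ → ℝ} {x g' : ℝ} (h : ∀ᶠ y in 𝓝 x, HasDerivAt f (g y) y)
    (hg : HasDerivAt g g' x) : iteratedDeriv 2 f x = g' := by
  have h1 : iteratedDeriv 2 f = deriv (deriv f) := by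
    rw [iteratedDeriv_succ, iteratedDeriv_one]
  rw [h1]
  have h2 : deriv f =ᶠ[𝓝 x] g := h.mono fun y hy => hy.deriv
  rw [h2.deriv_eq]
  exact hg.deriv

/-- Taylor's formula with integral remainder -/
theorem Avg_taylor {u u' u'' : ℝ → ℝ} {x₀ x : ℝ} (h1 : ∀ y ∈ Set.uIcc x₀ x, HasDerivAt u (u' y) y)
    (h2 : ∀ y ∈ Set.uIcc x₀ x, HasDerivAt u' (u'' y) y)
    (hc : ContinuousOn u'' (Set.uIcc x₀ x)) :
    ∫ y in x₀..x, (x - y) * u'' y = u x - u x₀ - u' x₀ * (x - x₀) := by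
  have h3 : ∀ y ∈ Set.uIcc x₀ x,
      HasDerivAt (fun y => (x - y) * u' y + u y) ((x - y) * u'' y) y := by
    intro y hy
    have h4 := (((hasDerivAt_const y x).sub (hasDerivAt_id y)).mul (h2 y hy)).add (h1 y hy)
    refine HasDerivAt.congr_deriv (f' := _) h4 ?_
    simp only [Pi.sub_apply, id]
    ring
  rw [intervalIntegral.integral_eq_sub_of_hasDerivAt h3]
  · ring
  · exact ((continuousOn_const.sub continuousOn_id).mul hc).intervalIntegrable

theorem average_second_deriv {Φ L : ℝ → ℝ → ℝ} {α β : ℝ}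
    (hΦ : ∀ x ∈ Set.Ioo α β, ∀ θ, ContDiffAt ℝ 2 (fun p : ℝ × ℝ => Φ p.1 p.2) (x, θ))
    (hper : ∀ x θ, Φ x (θ + 2 * Real.pi) = Φ x θ)
    (hL : ∀ x ∈ Set.Ioo α β, ∀ θ, L x θ =
      iteratedDeriv 2 (fun y => Φ y θ) x + iteratedDeriv 2 (fun φ => Φ x φ) θ)
    {x₀ x : ℝ} (hx₀ : x₀ ∈ Set.Ioo α β) (hx : x ∈ Set.Ioo α β) :
    (∫ θ in (0 : ℝ)..2 * Real.pi, Φ x θ) = (∫ θ in (0 : ℝ)..2 * Real.pi, Φ x₀ θ) +
      (∫ θ in (0 : ℝ)..2 * Real.pi, deriv (fun y => Φ y θ) x₀) * (x - x₀) +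
      ∫ y in x₀..x, (x - y) * ∫ θ in (0 : ℝ)..2 * Real.pi, L y θ := by
  set F : ℝ × ℝ → ℝ := fun p => Φ p.1 p.2 with hF
  set G1 : ℝ × ℝ → ℝ := Avg_d F (1, 0) with hG1
  set G2 : ℝ × ℝ → ℝ := Avg_d F (0, 1) with hG2
  set G11 : ℝ × ℝ → ℝ := Avg_d G1 (1, 0) with hG11
  set G22 : ℝ × ℝ → ℝ := Avg_d G2 (0, 1) with hG22
  have c1 : ∀ y ∈ Set.Ioo α β, ∀ θ, ContDiffAt ℝ 1 G1 (y, θ) := fun y hy θ =>
    Avg_d_contDiffAt _ (hΦ y hy θ) (by norm_num)
  have c2 : ∀ y ∈ Set.Ioo α β, ∀ θ, ContDiffAt ℝ 1 G2 (y, θ) := fun y hy θ =>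
    Avg_d_contDiffAt _ (hΦ y hy θ) (by norm_num)
  have c11 : ∀ y ∈ Set.Ioo α β, ∀ θ, ContinuousAt G11 (y, θ) := fun y hy θ =>
    (Avg_d_contDiffAt (m := 0) _ (c1 y hy θ) (by norm_num)).continuousAt
  have c22 : ∀ y ∈ Set.Ioo α β, ∀ θ, ContinuousAt G22 (y, θ) := fun y hy θ =>
    (Avg_d_contDiffAt (m := 0) _ (c2 y hy θ) (by norm_num)).continuousAt
  have d1 : ∀ y ∈ Set.Ioo α β, ∀ θ, HasDerivAt (fun y => Φ y θ) (G1 (y, θ)) y := fun y hy θ =>
    Avg_hasDerivAt_fst ((hΦ y hy θ).differentiableAt (by norm_num))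
  have d2 : ∀ y ∈ Set.Ioo α β, ∀ θ, HasDerivAt (fun φ => Φ y φ) (G2 (y, θ)) θ := fun y hy θ =>
    Avg_hasDerivAt_snd ((hΦ y hy θ).differentiableAt (by norm_num))
  have d11 : ∀ y ∈ Set.Ioo α β, ∀ θ, HasDerivAt (fun y => G1 (y, θ)) (G11 (y, θ)) y :=
    fun y hy θ => Avg_hasDerivAt_fst ((c1 y hy θ).differentiableAt (by norm_num))
  have d22 : ∀ y ∈ Set.Ioo α β, ∀ θ, HasDerivAt (fun φ => G2 (y, φ)) (G22 (y, θ)) θ :=
    fun y hy θ => Avg_hasDerivAt_snd ((c2 y hy θ).differentiableAt (by norm_num))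
  have hsub : Set.uIcc x₀ x ⊆ Set.Ioo α β := Set.OrdConnected.uIcc_subset Set.ordConnected_Ioo hx₀ hx
  have hpair : ∀ y : ℝ, Continuous fun θ : ℝ => ((y, θ) : ℝ × ℝ) := fun y => by fun_prop
  have k0 : ∀ y ∈ Set.Ioo α β, Continuous fun θ => Φ y θ := fun y hy =>
    continuous_iff_continuousAt.2 fun θ => (d2 y hy θ).continuousAt
  have k1 : ∀ y ∈ Set.Ioo α β, Continuous fun θ => G1 (y, θ) := fun y hy =>
    continuous_iff_continuousAt.2 fun θ =>
      ContinuousAt.comp (f := fun θ : ℝ => ((y, θ) : ℝ × ℝ)) (g := G1) (c1 y hy θ).continuousAt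
        (hpair y).continuousAt
  have k11 : ∀ y ∈ Set.Ioo α β, Continuous fun θ => G11 (y, θ) := fun y hy =>
    continuous_iff_continuousAt.2 fun θ =>
      ContinuousAt.comp (f := fun θ : ℝ => ((y, θ) : ℝ × ℝ)) (g := G11) (c11 y hy θ)
        (hpair y).continuousAt
  have k22 : ∀ y ∈ Set.Ioo α β, Continuous fun θ => G22 (y, θ) := fun y hy =>
    continuous_iff_continuousAt.2 fun θ =>
      ContinuousAt.comp (f := fun θ : ℝ => ((y, θ) : ℝ × ℝ)) (g := G22) (c22 y hy θ)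
        (hpair y).continuousAt
  -- the function `L`
  have hL' : ∀ y ∈ Set.Ioo α β, ∀ θ, L y θ = G11 (y, θ) + G22 (y, θ) := by
    intro y hy θ
    rw [hL y hy θ, Avg_iter_two (g := fun y => G1 (y, θ)) ?_ (d11 y hy θ),
      Avg_iter_two (g := fun φ => G2 (y, φ)) ?_ (d22 y hy θ)]
    · exact Eventually.of_forall fun φ => d2 y hy φ
    · filter_upwards [isOpen_Ioo.mem_nhds hy] with y' hy' using d1 y' hy' θ
  -- periodicity
  have hper2 : ∀ y ∈ Set.Ioo α β, G2 (y, 2 * Real.pi) = G2 (y, 0) := by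
    intro y hy
    have e1 := d2 y hy (0 + 2 * Real.pi)
    have e2 : HasDerivAt (fun φ => Φ y (φ + 2 * Real.pi)) (G2 (y, 0 + 2 * Real.pi)) 0 :=
      HasDerivAt.comp_add_const 0 (2 * Real.pi) e1
    simp only [hper] at e2
    rw [zero_add] at e2
    exact e2.unique (d2 y hy 0)
  have hint22 : ∀ y ∈ Set.Ioo α β, ∫ θ in (0 : ℝ)..2 * Real.pi, G22 (y, θ) = 0 := by
    intro y hy
    rw [intervalIntegral.integral_eq_sub_of_hasDerivAt (fun θ _ => d22 y hy θ)
      ((k22 y hy).intervalIntegrable _ _), hper2 y hy, sub_self]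
  have hintL : ∀ y ∈ Set.Ioo α β, ∫ θ in (0 : ℝ)..2 * Real.pi, L y θ =
      ∫ θ in (0 : ℝ)..2 * Real.pi, G11 (y, θ) := by
    intro y hy
    simp only [hL' y hy]
    rw [intervalIntegral.integral_add ((k11 y hy).intervalIntegrable _ _)
      ((k22 y hy).intervalIntegrable _ _), hint22 y hy, add_zero]
  -- Taylor
  have hT : ∀ θ, ∫ y in x₀..x, (x - y) * G11 (y, θ) =
      Φ x θ - Φ x₀ θ - G1 (x₀, θ) * (x - x₀) := by
    intro θ
    refine Avg_taylor (u := fun y => Φ y θ) (u' := fun y => G1 (y, θ))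
      (u'' := fun y => G11 (y, θ)) (fun y hy => d1 y (hsub hy) θ)
      (fun y hy => d11 y (hsub hy) θ) fun y hy => ?_
    exact (ContinuousAt.comp (f := fun y : ℝ => ((y, θ) : ℝ × ℝ)) (g := G11)
      (c11 y (hsub hy) θ) (by fun_prop)).continuousWithinAt
  -- Fubini
  have hcont : ContinuousOn (Function.uncurry fun y θ : ℝ => (x - y) * G11 (y, θ))
      (Set.uIcc x₀ x ×ˢ Set.uIcc 0 (2 * Real.pi)) := by
    rintro ⟨y, θ⟩ hp
    refine ContinuousAt.continuousWithinAt ?_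
    change ContinuousAt (fun p : ℝ × ℝ => (x - p.1) * G11 (p.1, p.2)) (y, θ)
    have h2 : ContinuousAt (fun p : ℝ × ℝ => G11 (p.1, p.2)) (y, θ) := c11 y (hsub hp.1) θ
    exact ContinuousAt.mul (by fun_prop) h2
  have hfub : ∫ y in x₀..x, ∫ θ in (0 : ℝ)..2 * Real.pi, (x - y) * G11 (y, θ) =
      ∫ θ in (0 : ℝ)..2 * Real.pi, ∫ y in x₀..x, (x - y) * G11 (y, θ) := by
    refine intervalIntegral_intervalIntegral_swap ?_
    refine IntegrableOn.mono_set (hcont.integrableOn_compact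
      (isCompact_uIcc.prod isCompact_uIcc)) ?_
    exact Set.prod_mono Set.uIoc_subset_uIcc Set.uIoc_subset_uIcc
  have hR : ∫ y in x₀..x, (x - y) * ∫ θ in (0 : ℝ)..2 * Real.pi, L y θ =
      ∫ y in x₀..x, ∫ θ in (0 : ℝ)..2 * Real.pi, (x - y) * G11 (y, θ) := by
    refine intervalIntegral.integral_congr fun y hy => ?_
    rw [hintL y (hsub hy), intervalIntegral.integral_const_mul]
  have hD : ∀ θ, deriv (fun y => Φ y θ) x₀ = G1 (x₀, θ) := fun θ => (d1 x₀ hx₀ θ).deriv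
  rw [hR, hfub]
  simp only [hT, hD]
  have i0 := (k0 x hx).intervalIntegrable (μ := volume) 0 (2 * Real.pi)
  have i1 := (k0 x₀ hx₀).intervalIntegrable (μ := volume) 0 (2 * Real.pi)
  have i2 := ((k1 x₀ hx₀).mul_const (x - x₀)).intervalIntegrable (μ := volume) 0 (2 * Real.pi)
  rw [intervalIntegral.integral_sub (i0.sub i1) i2, intervalIntegral.integral_sub i0 i1,
    intervalIntegral.integral_mul_const]
  ring

end Pool.Agent.H62.FC

end
end

section

/-! FC Calculus: Borel's calculus lemma. -/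

noncomputable section

namespace Pool.Agent.H62.FC

open Filter Topology MeasureTheory

private theorem Calculus_step {f f' : ℝ → ℝ} {x₀ : ℝ} (hf : ∀ x, HasDerivAt f (f' x) x)
    (hc : Continuous f') (h0 : f x₀ = 0) (hpos : ∀ x, x₀ ≤ x → 0 ≤ f' x) :
    (∀ x, x₀ ≤ x → 0 ≤ f x) ∧ volume {x | x₀ ≤ x ∧ (1 + f x) ^ 2 < f' x} ≤ 1 := by
  have hfc : Continuous f := continuous_iff_continuousAt.2 fun x => (hf x).continuousAt
  have hnn : ∀ x, x₀ ≤ x → 0 ≤ f x := by
    intro x hx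
    have h1 := intervalIntegral.integral_eq_sub_of_hasDerivAt (f := f) (f' := f') (a := x₀)
      (b := x) (fun y _ => hf y) (hc.intervalIntegrable _ _)
    rw [h0, sub_zero] at h1
    rw [← h1]
    exact intervalIntegral.integral_nonneg hx fun y hy => hpos y hy.1
  refine ⟨hnn, ?_⟩
  -- the density
  set g : ℝ → ℝ := fun x => f' x / (1 + f x) ^ 2 with hg
  have hgc : ContinuousOn g (Set.Ici x₀) := by
    refine ContinuousOn.div hc.continuousOn (by fun_prop) ?_
    intro x hx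
    have := hnn x hx
    positivity
  have hgnn : ∀ x, x₀ ≤ x → 0 ≤ g x := fun x hx =>
    div_nonneg (hpos x hx) (sq_nonneg _)
  have hder : ∀ x, x₀ ≤ x → HasDerivAt (fun y => -(1 + f y)⁻¹) (g x) x := by
    intro x hx
    have h1 : 1 + f x ≠ 0 := by
      have := hnn x hx
      positivity
    have h2 := (((hf x).const_add 1).inv h1).neg
    refine h2.congr_deriv ?_
    rw [hg]
    simp only
    rw [neg_div, neg_neg]
  have hbound : ∀ b, x₀ ≤ b →
      volume ({x | x₀ ≤ x ∧ (1 + f x) ^ 2 < f' x} ∩ Set.Ioc x₀ b) ≤ 1 := by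
    intro b hb
    have hgi : IntervalIntegrable g volume x₀ b := by
      refine ContinuousOn.intervalIntegrable (hgc.mono ?_)
      rw [Set.uIcc_of_le hb]
      exact Set.Icc_subset_Ici_self
    have hint : ∫ x in x₀..b, g x = 1 - (1 + f b)⁻¹ := by
      rw [intervalIntegral.integral_eq_sub_of_hasDerivAt (f := fun y => -(1 + f y)⁻¹)
        (fun y hy => hder y (by rw [Set.uIcc_of_le hb] at hy; exact hy.1)) hgi, h0]
      ring
    have hle1 : ∫ x in x₀..b, g x ≤ 1 := by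
      rw [hint]
      have : 0 ≤ (1 + f b)⁻¹ := inv_nonneg.2 (by linarith [hnn b hb])
      linarith
    rw [intervalIntegral.integral_of_le hb] at hle1
    have hgi' : IntegrableOn g (Set.Ioc x₀ b) volume :=
      (intervalIntegrable_iff_integrableOn_Ioc_of_le hb).1 hgi
    have hae : 0 ≤ᵐ[volume.restrict (Set.Ioc x₀ b)] g :=
      (ae_restrict_iff' measurableSet_Ioc).2 (Eventually.of_forall fun x hx => hgnn x hx.1.le)
    have hL : ∫⁻ x in Set.Ioc x₀ b, ENNReal.ofReal (g x) ≤ 1 := by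
      rw [← ofReal_integral_eq_lintegral_ofReal hgi' hae]
      exact (ENNReal.ofReal_le_ofReal hle1).trans_eq ENNReal.ofReal_one
    have hM := mul_meas_ge_le_lintegral₀ (μ := volume.restrict (Set.Ioc x₀ b))
      (f := fun x => ENNReal.ofReal (g x)) hgi'.aestronglyMeasurable.aemeasurable.ennreal_ofReal 1
    rw [one_mul] at hM
    refine le_trans ?_ (hM.trans hL)
    rw [Measure.restrict_apply' measurableSet_Ioc]
    refine measure_mono ?_
    rintro x ⟨⟨hx1, hx2⟩, hx3⟩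
    refine ⟨?_, hx3⟩
    show (1 : ENNReal) ≤ ENNReal.ofReal (g x)
    rw [← ENNReal.ofReal_one]
    refine ENNReal.ofReal_le_ofReal ?_
    have h1 : 0 < 1 + f x := by linarith [hnn x hx1]
    rw [hg]
    simp only
    rw [le_div_iff₀ (by positivity), one_mul]
    exact hx2.le
  set E : Set ℝ := {x | x₀ ≤ x ∧ (1 + f x) ^ 2 < f' x} with hE
  have hmono : Monotone fun m : ℕ => E ∩ Set.Ioc x₀ (x₀ + m) := by
    intro m m' hmm
    refine Set.inter_subset_inter_right _ (Set.Ioc_subset_Ioc_right ?_)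
    have : (m : ℝ) ≤ m' := by exact_mod_cast hmm
    linarith
  have hcov : E ⊆ {x₀} ∪ ⋃ m : ℕ, E ∩ Set.Ioc x₀ (x₀ + m) := by
    intro x hx
    rcases eq_or_lt_of_le hx.1 with h | h
    · exact Or.inl h.symm
    · right
      obtain ⟨m, hm⟩ := exists_nat_ge (x - x₀)
      exact Set.mem_iUnion.2 ⟨m, hx, h, by linarith⟩
  calc volume E ≤ volume ({x₀} ∪ ⋃ m : ℕ, E ∩ Set.Ioc x₀ (x₀ + m)) := measure_mono hcov
    _ ≤ volume {x₀} + volume (⋃ m : ℕ, E ∩ Set.Ioc x₀ (x₀ + m)) := measure_union_le _ _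
    _ = volume (⋃ m : ℕ, E ∩ Set.Ioc x₀ (x₀ + m)) := by
        rw [Real.volume_singleton, zero_add]
    _ = ⨆ m : ℕ, volume (E ∩ Set.Ioc x₀ (x₀ + m)) := hmono.measure_iUnion
    _ ≤ 1 := iSup_le fun m => hbound _ (by
        have : (0 : ℝ) ≤ m := Nat.cast_nonneg m
        linarith)

/-- Borel's calculus lemma. -/
theorem calculus_lemma {G : ℝ → ℝ} {x₀ : ℝ} (hG : ContinuousOn G (Set.Ici x₀))
    (hG0 : ∀ x, x₀ ≤ x → 0 ≤ G x) :
    volume {x | x₀ ≤ x ∧ 4 * (1 + ∫ y in x₀..x, (x - y) * G y) ^ 4 < G x} ≤ 2 := by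
  -- a continuous extension
  set K : ℝ → ℝ := fun x => G (max x₀ x) with hK
  have hKc : Continuous K := by
    have h1 : Continuous fun x : ℝ => max x₀ x := by fun_prop
    exact hG.comp_continuous h1 fun x => Set.mem_Ici.2 (le_max_left _ _)
  have hKG : ∀ x, x₀ ≤ x → K x = G x := fun x hx => by
    rw [hK]
    simp only
    rw [max_eq_right hx]
  have hK0 : ∀ x, 0 ≤ K x := fun x => hG0 _ (le_max_left _ _)
  set P : ℝ → ℝ := fun x => ∫ y in x₀..x, K y with hP
  set Q : ℝ → ℝ := fun x => ∫ y in x₀..x, y * K y with hQ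
  have hP' : ∀ x, HasDerivAt P (K x) x := fun x =>
    intervalIntegral.integral_hasDerivAt_right (hKc.intervalIntegrable _ _)
      (hKc.stronglyMeasurableAtFilter _ _) hKc.continuousAt
  have hyK : Continuous fun y : ℝ => y * K y := continuous_id.mul hKc
  have hQ' : ∀ x, HasDerivAt Q (x * K x) x := fun x =>
    intervalIntegral.integral_hasDerivAt_right (hyK.intervalIntegrable _ _)
      (hyK.stronglyMeasurableAtFilter _ _) hyK.continuousAt
  have hPc : Continuous P := continuous_iff_continuousAt.2 fun x => (hP' x).continuousAt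
  have hP0 : P x₀ = 0 := intervalIntegral.integral_same
  set H : ℝ → ℝ := fun x => x * P x - Q x with hH
  have hH' : ∀ x, HasDerivAt H (P x) x := by
    intro x
    have h1 := ((hasDerivAt_id x).mul (hP' x)).sub (hQ' x)
    refine h1.congr_deriv ?_
    simp only [id]
    ring
  have hH0 : H x₀ = 0 := by
    rw [hH]
    simp only
    rw [hP0, hQ]
    simp only
    rw [intervalIntegral.integral_same]
    ring
  have hHeq : ∀ x, x₀ ≤ x → ∫ y in x₀..x, (x - y) * G y = H x := by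
    intro x hx
    have h1 : ∫ y in x₀..x, (x - y) * G y = ∫ y in x₀..x, (x * K y - y * K y) := by
      refine intervalIntegral.integral_congr fun y hy => ?_
      rw [Set.uIcc_of_le hx] at hy
      show (x - y) * G y = x * K y - y * K y
      rw [hKG y hy.1]
      ring
    have h2 : Continuous fun y : ℝ => x * K y := continuous_const.mul hKc
    rw [h1, intervalIntegral.integral_sub (h2.intervalIntegrable _ _)
      (hyK.intervalIntegrable _ _), intervalIntegral.integral_const_mul]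
  obtain ⟨hPnn, hE2⟩ := Calculus_step (x₀ := x₀) hP' hKc hP0 (fun x _ => hK0 x)
  obtain ⟨hHnn, hE1⟩ := Calculus_step (x₀ := x₀) hH' hPc hH0 hPnn
  have hsub : {x | x₀ ≤ x ∧ 4 * (1 + ∫ y in x₀..x, (x - y) * G y) ^ 4 < G x} ⊆
      {x | x₀ ≤ x ∧ (1 + H x) ^ 2 < P x} ∪ {x | x₀ ≤ x ∧ (1 + P x) ^ 2 < K x} := by
    rintro x ⟨hx, hx2⟩
    by_contra hcon
    rw [Set.mem_union, not_or] at hcon
    have h1 : P x ≤ (1 + H x) ^ 2 := by
      by_contra h
      exact hcon.1 ⟨hx, not_le.1 h⟩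
    have h2 : K x ≤ (1 + P x) ^ 2 := by
      by_contra h
      exact hcon.2 ⟨hx, not_le.1 h⟩
    rw [hHeq x hx, ← hKG x hx] at hx2
    have h3 := hHnn x hx
    have h4 := hPnn x hx
    have h5 : 1 ≤ (1 + H x) ^ 2 := by nlinarith
    have h6 : 1 + P x ≤ 2 * (1 + H x) ^ 2 := by linarith
    have h7 : (1 + P x) ^ 2 ≤ (2 * (1 + H x) ^ 2) ^ 2 :=
      pow_le_pow_left₀ (by linarith) h6 2
    have h8 : (2 * (1 + H x) ^ 2) ^ 2 = 4 * (1 + H x) ^ 4 := by ring
    linarith
  calc _ ≤ volume ({x | x₀ ≤ x ∧ (1 + H x) ^ 2 < P x} ∪ {x | x₀ ≤ x ∧ (1 + P x) ^ 2 < K x}) :=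
        measure_mono hsub
    _ ≤ volume {x | x₀ ≤ x ∧ (1 + H x) ^ 2 < P x} + volume {x | x₀ ≤ x ∧ (1 + P x) ^ 2 < K x} :=
        measure_union_le _ _
    _ ≤ 1 + 1 := add_le_add hE1 hE2
    _ = 2 := by norm_num

end Pool.Agent.H62.FC

end
end

section

noncomputable section

namespace Pool.Agent.H62.FC

open Filter Topology MeasureTheory
open Pool.Agent.H92.GGL (ordZ)

/-- a branch of the logarithm -/
private theorem Potential_branch {g : ℂ → ℂ} {z₀ : ℂ} (hg : AnalyticAt ℂ g z₀) (h0 : g z₀ ≠ 0) :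
    ∃ l : ℂ → ℂ, AnalyticAt ℂ l z₀ ∧ (∀ᶠ z in 𝓝 z₀, (l z).re = Real.log ‖g z‖) ∧
      deriv l z₀ = deriv g z₀ / g z₀ := by
  have h1 : g z₀ / g z₀ ∈ Complex.slitPlane := by
    rw [div_self h0]
    exact Complex.one_mem_slitPlane
  have h2 : AnalyticAt ℂ (fun z => g z / g z₀) z₀ := hg.div analyticAt_const h0
  refine ⟨fun z => Complex.log (g z / g z₀) + (Real.log ‖g z₀‖ : ℂ), ?_, ?_, ?_⟩
  · exact (h2.clog h1).add analyticAt_const
  · filter_upwards [hg.continuousAt.eventually_ne h0] with z hz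
    rw [Complex.add_re, Complex.log_re, Complex.ofReal_re, norm_div,
      Real.log_div (norm_ne_zero_iff.mpr hz) (norm_ne_zero_iff.mpr h0)]
    ring
  · have h3 : HasDerivAt g (deriv g z₀) z₀ := hg.differentiableAt.hasDerivAt
    have h4 := ((h3.div_const (g z₀)).clog h1).add_const (Real.log ‖g z₀‖ : ℂ)
    rw [h4.deriv, div_self h0, div_one]

/-- the second derivative along a line -/
private theorem Potential_line {F W w : ℝ → ℝ} (hF : ∀ t, HasDerivAt F (W t) t)
    (hW : ∀ t, HasDerivAt W (w t) t) {l m : ℂ → ℂ} {ζ₀ : ℂ} (hl : AnalyticAt ℂ l ζ₀)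
    (hm : AnalyticAt ℂ m ζ₀) (ζ₁ c : ℂ) (t₀ : ℝ) (h0 : ζ₁ + c * (t₀ : ℂ) = ζ₀) {g : ℝ → ℝ}
    (hg : ∀ᶠ t in 𝓝 t₀, g t = F (l (ζ₁ + c * (t : ℂ))).re + (m (ζ₁ + c * (t : ℂ))).re) :
    deriv g t₀ = W (l ζ₀).re * (c * deriv l ζ₀).re + (c * deriv m ζ₀).re ∧
    iteratedDeriv 2 g t₀ = w (l ζ₀).re * (c * deriv l ζ₀).re ^ 2 +
      W (l ζ₀).re * (c ^ 2 * deriv (deriv l) ζ₀).re + (c ^ 2 * deriv (deriv m) ζ₀).re := by
  have hp : ∀ t : ℝ, HasDerivAt (fun t : ℝ => ζ₁ + c * (t : ℂ)) c t := by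
    intro t
    have h1 : HasDerivAt (fun t : ℝ => (t : ℂ)) 1 t := Complex.ofRealCLM.hasDerivAt
    have h2 := (h1.const_mul c).const_add ζ₁
    rwa [mul_one] at h2
  have hpc : ContinuousAt (fun t : ℝ => ζ₁ + c * (t : ℂ)) t₀ := (hp t₀).continuousAt
  have hcomp : ∀ {k : ℂ → ℂ} {t : ℝ}, AnalyticAt ℂ k (ζ₁ + c * (t : ℂ)) →
      HasDerivAt (fun t : ℝ => (k (ζ₁ + c * (t : ℂ))).re)
        (c * deriv k (ζ₁ + c * (t : ℂ))).re t := by
    intro k t hk
    have h1 : HasDerivAt (fun t : ℝ => k (ζ₁ + c * (t : ℂ)))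
        (deriv k (ζ₁ + c * (t : ℂ)) * c) t :=
      HasDerivAt.comp t hk.differentiableAt.hasDerivAt (hp t)
    have h2 := Complex.reCLM.hasFDerivAt.comp_hasDerivAt t h1
    rw [mul_comm] at h2
    exact h2
  have hl' : ∀ᶠ t : ℝ in 𝓝 t₀, AnalyticAt ℂ l (ζ₁ + c * (t : ℂ)) := by
    have h1 : ∀ᶠ z in 𝓝 (ζ₁ + c * (t₀ : ℂ)), AnalyticAt ℂ l z := by
      rw [h0]; exact hl.eventually_analyticAt
    exact hpc.eventually h1
  have hm' : ∀ᶠ t : ℝ in 𝓝 t₀, AnalyticAt ℂ m (ζ₁ + c * (t : ℂ)) := by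
    have h1 : ∀ᶠ z in 𝓝 (ζ₁ + c * (t₀ : ℂ)), AnalyticAt ℂ m z := by
      rw [h0]; exact hm.eventually_analyticAt
    exact hpc.eventually h1
  have hd1 : ∀ᶠ t : ℝ in 𝓝 t₀, HasDerivAt g (W (l (ζ₁ + c * (t : ℂ))).re *
      (c * deriv l (ζ₁ + c * (t : ℂ))).re + (c * deriv m (ζ₁ + c * (t : ℂ))).re) t := by
    filter_upwards [hl', hm', hg.eventually_nhds] with t h1 h2 h3
    have h4 : HasDerivAt (fun t : ℝ => F (l (ζ₁ + c * (t : ℂ))).re + (m (ζ₁ + c * (t : ℂ))).re)
        (W (l (ζ₁ + c * (t : ℂ))).re *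
      (c * deriv l (ζ₁ + c * (t : ℂ))).re + (c * deriv m (ζ₁ + c * (t : ℂ))).re) t :=
      ((hF _).comp t (hcomp h1)).add (hcomp h2)
    exact h4.congr_of_eventuallyEq h3
  constructor
  · have h1 := hd1.self_of_nhds.deriv
    rw [h0] at h1
    exact h1
  · rw [iteratedDeriv_succ, iteratedDeriv_one]
    have h1 : deriv g =ᶠ[𝓝 t₀] fun t : ℝ => W (l (ζ₁ + c * (t : ℂ))).re *
      (c * deriv l (ζ₁ + c * (t : ℂ))).re + (c * deriv m (ζ₁ + c * (t : ℂ))).re := by
      filter_upwards [hd1] with t ht using ht.deriv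
    rw [h1.deriv_eq]
    have hl0 : AnalyticAt ℂ l (ζ₁ + c * (t₀ : ℂ)) := by rw [h0]; exact hl
    have hm0 : AnalyticAt ℂ m (ζ₁ + c * (t₀ : ℂ)) := by rw [h0]; exact hm
    have h2 : HasDerivAt (fun t : ℝ => (c * deriv l (ζ₁ + c * (t : ℂ))).re)
        (c ^ 2 * deriv (deriv l) (ζ₁ + c * (t₀ : ℂ))).re t₀ := by
      have h3 := hcomp (k := fun z => c * deriv l z) (t := t₀) (analyticAt_const.mul hl0.deriv)
      have h4 : deriv (fun z => c * deriv l z) (ζ₁ + c * (t₀ : ℂ)) =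
          c * deriv (deriv l) (ζ₁ + c * (t₀ : ℂ)) := by
        rw [deriv_const_mul_field]
      rw [h4, ← mul_assoc, ← pow_two] at h3
      exact h3
    have h2' : HasDerivAt (fun t : ℝ => (c * deriv m (ζ₁ + c * (t : ℂ))).re)
        (c ^ 2 * deriv (deriv m) (ζ₁ + c * (t₀ : ℂ))).re t₀ := by
      have h3 := hcomp (k := fun z => c * deriv m z) (t := t₀) (analyticAt_const.mul hm0.deriv)
      have h4 : deriv (fun z => c * deriv m z) (ζ₁ + c * (t₀ : ℂ)) =
          c * deriv (deriv m) (ζ₁ + c * (t₀ : ℂ)) := by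
        rw [deriv_const_mul_field]
      rw [h4, ← mul_assoc, ← pow_two] at h3
      exact h3
    have h5 := (((hW _).comp t₀ (hcomp hl0)).mul h2).add h2'
    have h6 := h5.deriv
    rw [h0] at h6
    refine Eq.trans ?_ (h6.trans ?_)
    · rfl
    · simp only [Function.comp_apply, h0]
      ring

/-- the primitives of the weight -/
private structure Potential_Data (w : ℝ → ℝ) (M : ℝ) (F W : ℝ → ℝ) (a b : ℝ) : Prop where
  hF : ∀ t, HasDerivAt F (W t) t
  hW : ∀ t, HasDerivAt W (w t) t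
  wc : Continuous w
  a0 : 0 ≤ a
  a1 : a ≤ 1
  W1 : ∀ t, |W t| ≤ 1
  F0 : ∀ t, 0 ≤ F t
  F1 : ∀ t, F t ≤ |t|
  big : ∀ t, M ≤ |t| → F t = a * |t| - b
  wbig : ∀ t, M ≤ |t| → w t = 0

private theorem Potential_data {w : ℝ → ℝ} {M : ℝ} (hw : Continuous w) (h0 : ∀ t, 0 ≤ w t)
    (he : ∀ t, w (-t) = w t) (hM : 0 ≤ M) (hz : ∀ t, M ≤ t → w t = 0)
    (h1 : (∫ t in (0 : ℝ)..M, w t) ≤ 1) :
    ∃ F W : ℝ → ℝ, ∃ a b : ℝ, Potential_Data w M F W a b := by
  set W : ℝ → ℝ := fun ξ => ∫ t in (0 : ℝ)..ξ, w t with hWdef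
  have hW : ∀ t, HasDerivAt W (w t) t := fun t => (hw.integral_hasStrictDerivAt 0 t).hasDerivAt
  have hWc : Continuous W := continuous_iff_continuousAt.mpr fun t => (hW t).continuousAt
  set F : ℝ → ℝ := fun ξ => ∫ t in (0 : ℝ)..ξ, W t with hFdef
  have hF : ∀ t, HasDerivAt F (W t) t := fun t => (hWc.integral_hasStrictDerivAt 0 t).hasDerivAt
  have hii : ∀ p q, IntervalIntegrable w volume p q := fun p q => hw.intervalIntegrable p q
  have hiW : ∀ p q, IntervalIntegrable W volume p q := fun p q => hWc.intervalIntegrable p q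
  have hWodd : ∀ t, W (-t) = -W t := by
    intro t
    have h2 : (∫ x in (0 : ℝ)..t, w (-x)) = ∫ x in -t..-0, w x :=
      intervalIntegral.integral_comp_neg w
    simp only [he, neg_zero] at h2
    have h3 : (∫ x in (0 : ℝ)..-t, w x) = -∫ x in -t..0, w x := intervalIntegral.integral_symm _ _
    simp only [hWdef]
    rw [h3, h2]
  have hFeven : ∀ t, F (-t) = F t := by
    intro t
    have h2 : (∫ x in (0 : ℝ)..t, W (-x)) = ∫ x in -t..-0, W x :=
      intervalIntegral.integral_comp_neg W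
    simp only [hWodd, neg_zero] at h2
    rw [intervalIntegral.integral_neg] at h2
    have h3 : (∫ x in (0 : ℝ)..-t, W x) = -∫ x in -t..0, W x := intervalIntegral.integral_symm _ _
    simp only [hFdef]
    linarith
  have hWM : ∀ t, M ≤ t → W t = W M := by
    intro t ht
    have h2 : W M + (∫ x in M..t, w x) = W t :=
      intervalIntegral.integral_add_adjacent_intervals (hii 0 M) (hii M t)
    have h3 : (∫ x in M..t, w x) = 0 := by
      have : (∫ x in M..t, w x) = ∫ x in M..t, (0 : ℝ) := by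
        apply intervalIntegral.integral_congr
        intro x hx
        rw [Set.uIcc_of_le ht] at hx
        exact hz x hx.1
      rw [this]
      simp
    linarith
  have hW0 : ∀ t, 0 ≤ t → 0 ≤ W t := fun t ht =>
    intervalIntegral.integral_nonneg ht fun x _ => h0 x
  have hWle : ∀ t, 0 ≤ t → W t ≤ 1 := by
    intro t ht
    rcases le_total M t with h | h
    · rw [hWM t h]
      exact h1
    · have h2 : W t + (∫ x in t..M, w x) = W M :=
        intervalIntegral.integral_add_adjacent_intervals (hii 0 t) (hii t M)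
      have h3 : 0 ≤ ∫ x in t..M, w x := intervalIntegral.integral_nonneg h fun x _ => h0 x
      have h4 : W M ≤ 1 := h1
      linarith
  have hF0 : ∀ t, 0 ≤ t → 0 ≤ F t := fun t ht =>
    intervalIntegral.integral_nonneg ht fun x hx => hW0 x hx.1
  have hFle : ∀ t, 0 ≤ t → F t ≤ t := by
    intro t ht
    have h2 : F t ≤ ∫ x in (0 : ℝ)..t, (1 : ℝ) :=
      intervalIntegral.integral_mono_on ht (hiW 0 t) (intervalIntegrable_const)
        fun x hx => hWle x hx.1
    simpa using h2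
  have hFM : ∀ t, M ≤ t → F t = W M * t - (W M * M - F M) := by
    intro t ht
    have h2 : F M + (∫ x in M..t, W x) = F t :=
      intervalIntegral.integral_add_adjacent_intervals (hiW 0 M) (hiW M t)
    have h3 : (∫ x in M..t, W x) = W M * (t - M) := by
      have : (∫ x in M..t, W x) = ∫ x in M..t, W M := by
        apply intervalIntegral.integral_congr
        intro x hx
        rw [Set.uIcc_of_le ht] at hx
        exact hWM x hx.1
      rw [this, intervalIntegral.integral_const, smul_eq_mul, mul_comm]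
    rw [← h2, h3]
    ring
  have hFabs : ∀ t, F |t| = F t := by
    intro t
    rcases abs_cases t with ⟨h, _⟩ | ⟨h, _⟩
    · rw [h]
    · rw [h, hFeven]
  refine ⟨F, W, W M, W M * M - F M, ⟨hF, hW, hw, hW0 M hM, h1, ?_, ?_, ?_, ?_, ?_⟩⟩
  · intro t
    rcases le_total 0 t with h | h
    · rw [abs_of_nonneg (hW0 t h)]
      exact hWle t h
    · have h2 : W t = -W (-t) := by rw [hWodd, neg_neg]
      have h3 : 0 ≤ -t := by linarith
      rw [h2, abs_neg, abs_of_nonneg (hW0 _ h3)]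
      exact hWle _ h3
  · intro t
    rw [← hFabs]
    exact hF0 _ (abs_nonneg t)
  · intro t
    rw [← hFabs]
    exact hFle _ (abs_nonneg t)
  · intro t ht
    rw [← hFabs]
    exact hFM _ ht
  · intro t ht
    rcases abs_cases t with ⟨h, _⟩ | ⟨h, _⟩
    · rw [h] at ht
      exact hz t ht
    · rw [h] at ht
      rw [← he]
      exact hz _ ht

/-- normal forms on the punctured disc -/
private structure Potential_NF (R₀ : ℝ) (U : ℂ → ℂ) : Prop where
  mer : ∀ z, 0 < ‖z‖ → ‖z‖ < R₀ → MeromorphicAt U z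
  ana : ∀ z, 0 < ‖z‖ → ‖z‖ < R₀ → U z ≠ 0 → AnalyticAt ℂ U z
  fac : ∀ z, 0 < ‖z‖ → ‖z‖ < R₀ → ∃ h : ℂ → ℂ, AnalyticAt ℂ h z ∧ h z ≠ 0 ∧
    ∀ᶠ z' in 𝓝[≠] z, U z' = (z' - z) ^ (ordZ U z) * h z'
  ord : ∀ z, 0 < ‖z‖ → ‖z‖ < R₀ → (U z = 0 ↔ ordZ U z ≠ 0)

private theorem Potential_exists_nf {R₀ : ℝ} {u : ℂ → ℂ} (hu : MeroPunct R₀ u) :
    ∃ U : ℂ → ℂ, Potential_NF R₀ U ∧ (∀ z, 0 < ‖z‖ → ‖z‖ < R₀ → U =ᶠ[𝓝[≠] z] u) ∧
      ∀ z, 0 < ‖z‖ → ‖z‖ < R₀ → ordZ U z = ordZ u z := by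
  set D : Set ℂ := {z | 0 < ‖z‖ ∧ ‖z‖ < R₀} with hD
  have hm : MeromorphicOn u D := fun z hz => hu.mero z hz.1 hz.2
  have hnf : ∀ z, 0 < ‖z‖ → ‖z‖ < R₀ → MeromorphicNFAt (toMeromorphicNFOn u D) z :=
    fun z h1 h2 => meromorphicNFOn_toMeromorphicNFOn u D ⟨h1, h2⟩
  have hor : ∀ z, 0 < ‖z‖ → ‖z‖ < R₀ →
      meromorphicOrderAt (toMeromorphicNFOn u D) z = meromorphicOrderAt u z :=
    fun z h1 h2 => meromorphicOrderAt_toMeromorphicNFOn hm ⟨h1, h2⟩
  have hcast : ∀ z, 0 < ‖z‖ → ‖z‖ < R₀ → (ordZ (toMeromorphicNFOn u D) z : WithTop ℤ) =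
      meromorphicOrderAt (toMeromorphicNFOn u D) z := fun z h1 h2 =>
    Pool.Agent.H92.GGL.ordZ_cast (by rw [hor z h1 h2]; exact hu.ord z h1 h2)
  refine ⟨toMeromorphicNFOn u D, ⟨fun z h1 h2 => (hnf z h1 h2).meromorphicAt, ?_, ?_, ?_⟩, ?_, ?_⟩
  · intro z h1 h2 h3
    refine (hnf z h1 h2).meromorphicOrderAt_nonneg_iff_analyticAt.mp ?_
    rw [(hnf z h1 h2).meromorphicOrderAt_eq_zero_iff.mpr h3]
  · intro z h1 h2
    obtain ⟨h, ha, hb, hc⟩ := (meromorphicOrderAt_eq_int_iff (hnf z h1 h2).meromorphicAt).mp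
      (hcast z h1 h2).symm
    refine ⟨h, ha, hb, ?_⟩
    filter_upwards [hc] with z' hz'
    rw [hz', smul_eq_mul]
  · intro z h1 h2
    have h3 := (hnf z h1 h2).meromorphicOrderAt_eq_zero_iff
    rw [← hcast z h1 h2] at h3
    have h4 : ((ordZ (toMeromorphicNFOn u D) z : WithTop ℤ) = 0) ↔
        ordZ (toMeromorphicNFOn u D) z = 0 := by
      exact_mod_cast Iff.rfl
    rw [h4] at h3
    tauto
  · intro z h1 h2
    exact hm.toMeromorphicNFOn_eq_self_on_nhdsNE ⟨h1, h2⟩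
  · intro z h1 h2
    unfold ordZ
    rw [hor z h1 h2]

/-- functions which agree off a discrete set have the same means -/
private theorem Potential_mean_congr {f g : ℂ → ℝ} {x : ℝ}
    (h : ∀ z, ‖z‖ = Real.exp (-x) → f =ᶠ[𝓝[≠] z] g) : mean f x = mean g x := by
  unfold mean
  have hr : 0 < Real.exp (-x) := Real.exp_pos _
  refine Real.circleAverage_congr_codiscreteWithin ?_ hr.ne'
  rw [Filter.EventuallyEq, Filter.Eventually, mem_codiscreteWithin]
  intro z hz
  rw [mem_sphere_zero_iff_norm, abs_of_pos hr] at hz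
  rw [disjoint_principal_right]
  filter_upwards [h z hz] with z' hz'
  intro hc
  exact hc.2 hz'

/-- the logarithms of the linear factors -/
private theorem Potential_sumlog (T : Finset ℂ) (c : ℂ → ℝ) (z₀ : ℂ) (hT : z₀ ∉ T) :
    ∃ m : ℂ → ℂ, AnalyticAt ℂ m z₀ ∧
      (∀ᶠ z in 𝓝 z₀, (m z).re = ∑ s ∈ T, c s * Real.log ‖z - s‖) ∧
      deriv m z₀ = ∑ s ∈ T, (c s : ℂ) * (1 / (z₀ - s)) := by
  have h1 : ∀ s : ℂ, ∃ ls : ℂ → ℂ, s ∈ T → (AnalyticAt ℂ ls z₀ ∧
      (∀ᶠ z in 𝓝 z₀, (ls z).re = Real.log ‖z - s‖) ∧ deriv ls z₀ = 1 / (z₀ - s)) := by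
    intro s
    by_cases hs : s ∈ T
    · have hne : z₀ - s ≠ 0 := by
        intro h0
        exact hT (by rw [sub_eq_zero.mp h0]; exact hs)
      obtain ⟨l, hl, hl2, hl3⟩ := Potential_branch (g := fun z => z - s) (z₀ := z₀)
        (analyticAt_id.sub analyticAt_const) hne
      refine ⟨l, fun _ => ⟨hl, hl2, ?_⟩⟩
      have hd : deriv (fun z : ℂ => z - s) z₀ = 1 := by
        rw [deriv_sub_const]
        exact deriv_id z₀
      rw [hl3, hd]
    · exact ⟨0, fun h => absurd h hs⟩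
  choose ls hls using h1
  refine ⟨fun z => ∑ s ∈ T, (c s : ℂ) * ls s z, ?_, ?_, ?_⟩
  · apply Finset.analyticAt_fun_sum
    intro s hs
    exact analyticAt_const.mul (hls s hs).1
  · have h2 : ∀ᶠ z in 𝓝 z₀, ∀ s ∈ T, (ls s z).re = Real.log ‖z - s‖ := by
      rw [Filter.eventually_all_finset]
      exact fun s hs => (hls s hs).2.1
    filter_upwards [h2] with z hz
    rw [Complex.re_sum]
    refine Finset.sum_congr rfl fun s hs => ?_
    rw [Complex.re_ofReal_mul, hz s hs]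
  · rw [deriv_fun_sum fun s hs => (hls s hs).1.differentiableAt.const_mul _]
    refine Finset.sum_congr rfl fun s hs => ?_
    rw [deriv_const_mul_field, (hls s hs).2.2]

/-- the regularised function -/
private def Potential_g (F : ℝ → ℝ) (a : ℝ) (U : ℂ → ℂ) (T : Finset ℂ) (z : ℂ) : ℝ :=
  F (Real.log ‖U z‖) + a * ∑ s ∈ T, |(ordZ U s : ℝ)| * Real.log ‖z - s‖

/-- the local structure of the regularised function -/
private theorem Potential_loc {w : ℝ → ℝ} {M : ℝ} {F W : ℝ → ℝ} {a b : ℝ}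
    (hd : Potential_Data w M F W a b) {R₀ : ℝ} {U : ℂ → ℂ} (hU : Potential_NF R₀ U)
    {T : Finset ℂ} (hT : ∀ s ∈ T, U s = 0) {z₀ : ℂ} (h1 : 0 < ‖z₀‖) (h2 : ‖z₀‖ < R₀)
    (h3 : U z₀ = 0 → z₀ ∈ T) :
    ∃ l m : ℂ → ℂ, AnalyticAt ℂ l z₀ ∧ AnalyticAt ℂ m z₀ ∧
      (∀ᶠ z in 𝓝[≠] z₀, Potential_g F a U T z = F (l z).re + (m z).re) ∧
      w (Real.log ‖U z₀‖) * ‖z₀ * deriv U z₀ / U z₀‖ ^ 2 =
        w (l z₀).re * ‖z₀ * deriv l z₀‖ ^ 2 := by
  by_cases h0 : U z₀ = 0
  · have hz₀T := h3 h0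
    obtain ⟨h, hha, hh0, hfac⟩ := hU.fac z₀ h1 h2
    have hn : ordZ U z₀ ≠ 0 := (hU.ord z₀ h1 h2).mp h0
    obtain ⟨lh, hlha, hlh, -⟩ := Potential_branch hha hh0
    obtain ⟨m, hma, hm, -⟩ := Potential_sumlog (T.erase z₀) (fun s => a * |(ordZ U s : ℝ)|) z₀
      (Finset.notMem_erase z₀ T)
    set n : ℝ := (ordZ U z₀ : ℝ) with hnd
    have hn0 : n ≠ 0 := by
      rw [hnd]
      exact_mod_cast hn
    -- the logarithm of `|U|` near `z₀`
    have hlog : ∀ᶠ z in 𝓝[≠] z₀, Real.log ‖U z‖ = n * Real.log ‖z - z₀‖ + Real.log ‖h z‖ := by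
      filter_upwards [hfac, self_mem_nhdsWithin,
        (hha.continuousAt.eventually_ne hh0).filter_mono nhdsWithin_le_nhds] with z hz hz1 hz2
      have hz3 : z - z₀ ≠ 0 := sub_ne_zero.mpr hz1
      rw [hz, norm_mul, norm_zpow, Real.log_mul (zpow_ne_zero _ (norm_ne_zero_iff.mpr hz3))
        (norm_ne_zero_iff.mpr hz2), Real.log_zpow]
    have htop : Tendsto (fun z : ℂ => Real.log ‖z - z₀‖) (𝓝[≠] z₀) atBot := by
      have ht1 : Tendsto (fun z : ℂ => ‖z - z₀‖) (𝓝[≠] z₀) (𝓝[>] 0) := by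
        refine tendsto_nhdsWithin_iff.mpr ⟨?_, ?_⟩
        · have : Tendsto (fun z : ℂ => ‖z - z₀‖) (𝓝 z₀) (𝓝 ‖z₀ - z₀‖) :=
            (continuous_norm.comp (continuous_id.sub continuous_const)).tendsto z₀
          rw [sub_self, norm_zero] at this
          exact this.mono_left nhdsWithin_le_nhds
        · filter_upwards [self_mem_nhdsWithin] with z hz
          exact norm_pos_iff.mpr (sub_ne_zero.mpr hz)
      exact Real.tendsto_log_nhdsGT_zero.comp ht1
    have hhc : Tendsto (fun z : ℂ => Real.log ‖h z‖) (𝓝[≠] z₀) (𝓝 (Real.log ‖h z₀‖)) := by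
      have : ContinuousAt (fun z : ℂ => Real.log ‖h z‖) z₀ :=
        hha.continuousAt.norm.log (norm_ne_zero_iff.mpr hh0)
      exact this.tendsto.mono_left nhdsWithin_le_nhds
    have hsum : ∀ z, ∑ s ∈ T, |(ordZ U s : ℝ)| * Real.log ‖z - s‖ =
        |n| * Real.log ‖z - z₀‖ + ∑ s ∈ T.erase z₀, |(ordZ U s : ℝ)| * Real.log ‖z - s‖ := by
      intro z
      rw [← Finset.add_sum_erase _ _ hz₀T]
    rcases lt_or_gt_of_ne hn0 with hneg | hpos
    · -- a pole
      have hbig : Tendsto (fun z : ℂ => n * Real.log ‖z - z₀‖ + Real.log ‖h z‖) (𝓝[≠] z₀)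
          atTop := Tendsto.atTop_add (htop.const_mul_atBot_of_neg hneg) hhc
      refine ⟨fun _ => 0, fun z => (a : ℂ) * lh z - (b : ℂ) - (F 0 : ℂ) + m z, analyticAt_const,
        (((analyticAt_const.mul hlha).sub analyticAt_const).sub analyticAt_const).add hma, ?_, ?_⟩
      · filter_upwards [hlog, hbig.eventually_ge_atTop (max M 0),
          hlh.filter_mono nhdsWithin_le_nhds, hm.filter_mono nhdsWithin_le_nhds] with z e1 e2 e3 e4
        rw [← e1] at e2
        have e5 : |Real.log ‖U z‖| = Real.log ‖U z‖ :=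
          abs_of_nonneg ((le_max_right M 0).trans e2)
        have e6 : F (Real.log ‖U z‖) = a * Real.log ‖U z‖ - b := by
          have := hd.big (Real.log ‖U z‖) (by rw [e5]; exact (le_max_left M 0).trans e2)
          rwa [e5] at this
        unfold Potential_g
        rw [e6, hsum, abs_of_neg hneg, e1]
        simp only [Complex.add_re, Complex.sub_re, Complex.re_ofReal_mul, Complex.ofReal_re,
          Complex.zero_re, e3, e4]
        have e7 : ∑ s ∈ T.erase z₀, a * |(ordZ U s : ℝ)| * Real.log ‖z - s‖ =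
            a * ∑ s ∈ T.erase z₀, |(ordZ U s : ℝ)| * Real.log ‖z - s‖ := by
          rw [Finset.mul_sum]
          simp only [mul_assoc]
        rw [e7]
        ring
      · rw [h0]
        simp
    · -- a zero
      have hbig : Tendsto (fun z : ℂ => n * Real.log ‖z - z₀‖ + Real.log ‖h z‖) (𝓝[≠] z₀)
          atBot := Tendsto.atBot_add (htop.const_mul_atBot hpos) hhc
      refine ⟨fun _ => 0, fun z => -((a : ℂ) * lh z) - (b : ℂ) - (F 0 : ℂ) + m z, analyticAt_const,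
        (((analyticAt_const.mul hlha).neg.sub analyticAt_const).sub analyticAt_const).add hma,
        ?_, ?_⟩
      · filter_upwards [hlog, hbig.eventually_le_atBot (min (-M) 0),
          hlh.filter_mono nhdsWithin_le_nhds, hm.filter_mono nhdsWithin_le_nhds] with z e1 e2 e3 e4
        rw [← e1] at e2
        have e5 : |Real.log ‖U z‖| = -Real.log ‖U z‖ :=
          abs_of_nonpos (e2.trans (min_le_right _ _))
        have e6 : F (Real.log ‖U z‖) = -(a * Real.log ‖U z‖) - b := by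
          have := hd.big (Real.log ‖U z‖) (by
            rw [e5]
            have := e2.trans (min_le_left _ _)
            linarith)
          rw [e5] at this
          rw [this]
          ring
        unfold Potential_g
        rw [e6, hsum, abs_of_pos hpos, e1]
        simp only [Complex.add_re, Complex.sub_re, Complex.neg_re, Complex.re_ofReal_mul,
          Complex.ofReal_re, Complex.zero_re, e3, e4]
        have e7 : ∑ s ∈ T.erase z₀, a * |(ordZ U s : ℝ)| * Real.log ‖z - s‖ =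
            a * ∑ s ∈ T.erase z₀, |(ordZ U s : ℝ)| * Real.log ‖z - s‖ := by
          rw [Finset.mul_sum]
          simp only [mul_assoc]
        rw [e7]
        ring
      · rw [h0]
        simp
  · have hz₀T : z₀ ∉ T := fun h => h0 (hT z₀ h)
    obtain ⟨l, hla, hl, hl'⟩ := Potential_branch (hU.ana z₀ h1 h2 h0) h0
    obtain ⟨m, hma, hm, -⟩ := Potential_sumlog T (fun s => a * |(ordZ U s : ℝ)|) z₀ hz₀T
    refine ⟨l, m, hla, hma, ?_, ?_⟩
    · filter_upwards [hl.filter_mono nhdsWithin_le_nhds, hm.filter_mono nhdsWithin_le_nhds]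
        with z e1 e2
      unfold Potential_g
      rw [e1, e2, Finset.mul_sum]
      simp only [mul_assoc]
    · rw [hl.self_of_nhds, hl', mul_div_assoc]

/-- the extension over the zeros and poles -/
private theorem Potential_ext {g k : ℂ → ℝ} {z₀ : ℂ} (h1 : ∀ᶠ z in 𝓝[≠] z₀, g z = k z)
    (h2 : ∀ᶠ z in 𝓝 z₀, ContinuousAt k z) :
    ∀ᶠ z in 𝓝 z₀, limUnder (𝓝[≠] z) g = k z := by
  have h3 : ∀ᶠ z in 𝓝 z₀, ∀ᶠ z' in 𝓝[≠] z, g z' = k z' := by
    rw [eventually_nhdsWithin_iff] at h1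
    filter_upwards [h1.eventually_nhds] with z hz
    by_cases hzz : z = z₀
    · rw [hzz] at hz ⊢
      rw [eventually_nhdsWithin_iff]
      exact hz
    · have h4 : ∀ᶠ z' in 𝓝 z, z' ≠ z₀ := eventually_ne_nhds hzz
      have h5 : ∀ᶠ z' in 𝓝 z, g z' = k z' := by
        filter_upwards [hz, h4] with z' e1 e2 using e1 e2
      exact h5.filter_mono nhdsWithin_le_nhds
  filter_upwards [h2, h3] with z e1 e2
  apply Filter.Tendsto.limUnder_eq
  have h6 : Tendsto k (𝓝[≠] z) (𝓝 (k z)) := e1.tendsto.mono_left nhdsWithin_le_nhds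
  exact h6.congr' (by filter_upwards [e2] with z' hz' using hz'.symm)

private theorem Potential_circleMap (x θ : ℝ) :
    circleMap 0 (Real.exp (-x)) θ = Complex.exp (-(x : ℂ) + (θ : ℂ) * Complex.I) := by
  rw [circleMap, zero_add, Complex.exp_add, Complex.ofReal_exp, Complex.ofReal_neg]

private theorem Potential_norm (x θ : ℝ) :
    ‖Complex.exp (-(x : ℂ) + (θ : ℂ) * Complex.I)‖ = Real.exp (-x) := by
  rw [Complex.norm_exp]
  simp

private theorem Potential_contDiff {F W w : ℝ → ℝ} (hF : ∀ t, HasDerivAt F (W t) t)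
    (hW : ∀ t, HasDerivAt W (w t) t) (hw : Continuous w) : ContDiff ℝ 2 F := by
  have h1 : deriv F = W := funext fun t => (hF t).deriv
  have h2 : deriv W = w := funext fun t => (hW t).deriv
  have h3 : ContDiff ℝ 1 W := by
    rw [contDiff_one_iff_deriv, h2]
    exact ⟨fun t => (hW t).differentiableAt, hw⟩
  have h4 : ContDiff ℝ (1 + 1) F := by
    rw [contDiff_succ_iff_deriv, h1]
    exact ⟨fun t => (hF t).differentiableAt, by simp, h3⟩
  have h5 : (1 + 1 : WithTop ℕ∞) = 2 := by norm_num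
  rwa [h5] at h4

/-- the composition with the exponential map is twice continuously differentiable -/
private theorem Potential_smooth {F W w : ℝ → ℝ} (hF : ∀ t, HasDerivAt F (W t) t)
    (hW : ∀ t, HasDerivAt W (w t) t) (hw : Continuous w) {S : ℂ → ℝ} {l m : ℂ → ℂ} (x θ : ℝ)
    (hl : AnalyticAt ℂ l (Complex.exp (-(x : ℂ) + (θ : ℂ) * Complex.I)))
    (hm : AnalyticAt ℂ m (Complex.exp (-(x : ℂ) + (θ : ℂ) * Complex.I)))
    (hS : ∀ᶠ z in 𝓝 (Complex.exp (-(x : ℂ) + (θ : ℂ) * Complex.I)),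
      S z = F (l z).re + (m z).re) :
    ContDiffAt ℝ 2 (fun p : ℝ × ℝ => S (Complex.exp (-(p.1 : ℂ) + (p.2 : ℂ) * Complex.I)))
      (x, θ) ∧
    deriv (fun y : ℝ => S (Complex.exp (-(y : ℂ) + (θ : ℂ) * Complex.I))) x =
      W (l (Complex.exp (-(x : ℂ) + (θ : ℂ) * Complex.I))).re *
        (-(Complex.exp (-(x : ℂ) + (θ : ℂ) * Complex.I) *
          deriv l (Complex.exp (-(x : ℂ) + (θ : ℂ) * Complex.I)))).re +
        (-(Complex.exp (-(x : ℂ) + (θ : ℂ) * Complex.I) *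
          deriv m (Complex.exp (-(x : ℂ) + (θ : ℂ) * Complex.I)))).re ∧
    iteratedDeriv 2 (fun y : ℝ => S (Complex.exp (-(y : ℂ) + (θ : ℂ) * Complex.I))) x +
      iteratedDeriv 2 (fun φ : ℝ => S (Complex.exp (-(x : ℂ) + (φ : ℂ) * Complex.I))) θ =
      w (l (Complex.exp (-(x : ℂ) + (θ : ℂ) * Complex.I))).re *
        ‖Complex.exp (-(x : ℂ) + (θ : ℂ) * Complex.I) *
          deriv l (Complex.exp (-(x : ℂ) + (θ : ℂ) * Complex.I))‖ ^ 2 := by
  set ζ₀ : ℂ := -(x : ℂ) + (θ : ℂ) * Complex.I with hζ₀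
  set z₀ : ℂ := Complex.exp ζ₀ with hz₀
  have hexp : AnalyticAt ℂ Complex.exp ζ₀ := analyticAt_cexp
  have hle : AnalyticAt ℂ (fun ζ => l (Complex.exp ζ)) ζ₀ := hl.comp hexp
  have hme : AnalyticAt ℂ (fun ζ => m (Complex.exp ζ)) ζ₀ := hm.comp hexp
  have hdle : deriv (fun ζ => l (Complex.exp ζ)) ζ₀ = z₀ * deriv l z₀ := by
    have h1 : HasDerivAt (fun ζ => l (Complex.exp ζ)) (deriv l z₀ * Complex.exp ζ₀) ζ₀ :=
      HasDerivAt.comp ζ₀ hl.differentiableAt.hasDerivAt (Complex.hasDerivAt_exp ζ₀)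
    rw [h1.deriv, mul_comm]
  have hdme : deriv (fun ζ => m (Complex.exp ζ)) ζ₀ = z₀ * deriv m z₀ := by
    have h1 : HasDerivAt (fun ζ => m (Complex.exp ζ)) (deriv m z₀ * Complex.exp ζ₀) ζ₀ :=
      HasDerivAt.comp ζ₀ hm.differentiableAt.hasDerivAt (Complex.hasDerivAt_exp ζ₀)
    rw [h1.deriv, mul_comm]
  have hSe : ∀ᶠ ζ in 𝓝 ζ₀, S (Complex.exp ζ) =
      F (l (Complex.exp ζ)).re + (m (Complex.exp ζ)).re :=
    hexp.continuousAt.eventually hS
  -- the two lines
  have hx0 : (θ : ℂ) * Complex.I + (-1) * (x : ℂ) = ζ₀ := by rw [hζ₀]; ring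
  have hy0 : -(x : ℂ) + Complex.I * (θ : ℂ) = ζ₀ := by rw [hζ₀]; ring
  have hcx : ∀ᶠ y : ℝ in 𝓝 x, S (Complex.exp (-(y : ℂ) + (θ : ℂ) * Complex.I)) =
      F (l (Complex.exp ((θ : ℂ) * Complex.I + (-1) * (y : ℂ)))).re +
        (m (Complex.exp ((θ : ℂ) * Complex.I + (-1) * (y : ℂ)))).re := by
    have h1 : ContinuousAt (fun y : ℝ => -(y : ℂ) + (θ : ℂ) * Complex.I) x := by fun_prop
    have h2 := h1.eventually hSe
    filter_upwards [h2] with y hy
    have h3 : (θ : ℂ) * Complex.I + (-1) * (y : ℂ) = -(y : ℂ) + (θ : ℂ) * Complex.I := by ring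
    rw [h3]
    exact hy
  have hcy : ∀ᶠ φ : ℝ in 𝓝 θ, S (Complex.exp (-(x : ℂ) + (φ : ℂ) * Complex.I)) =
      F (l (Complex.exp (-(x : ℂ) + Complex.I * (φ : ℂ)))).re +
        (m (Complex.exp (-(x : ℂ) + Complex.I * (φ : ℂ)))).re := by
    have h1 : ContinuousAt (fun φ : ℝ => -(x : ℂ) + (φ : ℂ) * Complex.I) θ := by fun_prop
    have h2 := h1.eventually hSe
    filter_upwards [h2] with φ hφ
    have h3 : -(x : ℂ) + Complex.I * (φ : ℂ) = -(x : ℂ) + (φ : ℂ) * Complex.I := by ring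
    rw [h3]
    exact hφ
  obtain ⟨k1, k2⟩ := Potential_line hF hW hle hme _ _ x hx0 hcx
  obtain ⟨-, k3⟩ := Potential_line hF hW hle hme _ _ θ hy0 hcy
  refine ⟨?_, ?_, ?_⟩
  · have hι : ContDiffAt ℝ 2 (fun p : ℝ × ℝ => -(p.1 : ℂ) + (p.2 : ℂ) * Complex.I) (x, θ) := by
      have h1 : ContDiff ℝ 2 (fun p : ℝ × ℝ => (p.1 : ℂ)) :=
        Complex.ofRealCLM.contDiff.comp contDiff_fst
      have h2 : ContDiff ℝ 2 (fun p : ℝ × ℝ => (p.2 : ℂ)) :=
        Complex.ofRealCLM.contDiff.comp contDiff_snd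
      exact (h1.neg.add (h2.mul contDiff_const)).contDiffAt
    have hlr : ContDiffAt ℝ 2 (fun ζ => l (Complex.exp ζ)) ζ₀ :=
      (hle.contDiffAt (n := 2)).restrict_scalars ℝ
    have hmr : ContDiffAt ℝ 2 (fun ζ => m (Complex.exp ζ)) ζ₀ :=
      (hme.contDiffAt (n := 2)).restrict_scalars ℝ
    have h3 : ContDiffAt ℝ 2 (fun p : ℝ × ℝ =>
        l (Complex.exp (-(p.1 : ℂ) + (p.2 : ℂ) * Complex.I))) (x, θ) :=
      ContDiffAt.comp (x, θ) (g := fun ζ => l (Complex.exp ζ))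
        (f := fun p : ℝ × ℝ => -(p.1 : ℂ) + (p.2 : ℂ) * Complex.I) hlr hι
    have h4 : ContDiffAt ℝ 2 (fun p : ℝ × ℝ =>
        m (Complex.exp (-(p.1 : ℂ) + (p.2 : ℂ) * Complex.I))) (x, θ) :=
      ContDiffAt.comp (x, θ) (g := fun ζ => m (Complex.exp ζ))
        (f := fun p : ℝ × ℝ => -(p.1 : ℂ) + (p.2 : ℂ) * Complex.I) hmr hι
    have h5 : ContDiffAt ℝ 2 (fun p : ℝ × ℝ =>
        (l (Complex.exp (-(p.1 : ℂ) + (p.2 : ℂ) * Complex.I))).re) (x, θ) :=
      Complex.reCLM.contDiff.contDiffAt.comp (x, θ) h3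
    have h6 : ContDiffAt ℝ 2 (fun p : ℝ × ℝ =>
        (m (Complex.exp (-(p.1 : ℂ) + (p.2 : ℂ) * Complex.I))).re) (x, θ) :=
      Complex.reCLM.contDiff.contDiffAt.comp (x, θ) h4
    have h7 : ContDiffAt ℝ 2 (fun p : ℝ × ℝ =>
        F (l (Complex.exp (-(p.1 : ℂ) + (p.2 : ℂ) * Complex.I))).re) (x, θ) :=
      (Potential_contDiff hF hW hw).contDiffAt.comp (x, θ) h5
    refine (h7.add h6).congr_of_eventuallyEq ?_
    have h8 : ContinuousAt (fun p : ℝ × ℝ => -(p.1 : ℂ) + (p.2 : ℂ) * Complex.I) (x, θ) :=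
      hι.continuousAt
    exact h8.eventually hSe
  · rw [k1]
    simp only [hdle, hdme, neg_one_mul]
    rfl
  · rw [k2, k3, hdle]
    simp only [Complex.I_sq, neg_one_sq, one_mul, neg_one_mul, Complex.neg_re, Complex.I_mul_re]
    have h9 : ‖z₀ * deriv l z₀‖ ^ 2 = (z₀ * deriv l z₀).re ^ 2 + (z₀ * deriv l z₀).im ^ 2 := by
      rw [← Complex.normSq_eq_norm_sq, Complex.normSq_apply]
      ring
    rw [h9]
    change w (l z₀).re * _ + W (l z₀).re * _ + _ + (w (l z₀).re * _ + W (l z₀).re * _ + _) = _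
    ring

/-- the density -/
private def Potential_L (w : ℝ → ℝ) (U : ℂ → ℂ) (z : ℂ) : ℝ :=
  w (Real.log ‖U z‖) * ‖z * deriv U z / U z‖ ^ 2

/-- the derivative at the outer radius -/
private def Potential_K (W : ℝ → ℝ) (a : ℝ) (U : ℂ → ℂ) (T : Finset ℂ) (z : ℂ) : ℝ :=
  W (Real.log ‖U z‖) * (-(z * (deriv U z / U z))).re +
    (-(z * ∑ s ∈ T, ((a * |(ordZ U s : ℝ)| : ℝ) : ℂ) * (1 / (z - s)))).re

private theorem Potential_mean_eq (f : ℂ → ℝ) (x : ℝ) :
    mean f x = (2 * Real.pi)⁻¹ *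
      ∫ θ in (0 : ℝ)..2 * Real.pi, f (Complex.exp (-(x : ℂ) + (θ : ℂ) * Complex.I)) := by
  unfold mean
  rw [Real.circleAverage_def, smul_eq_mul]
  simp only [Potential_circleMap]

private theorem Potential_S_eq {w : ℝ → ℝ} {M : ℝ} {F W : ℝ → ℝ} {a b : ℝ}
    (hd : Potential_Data w M F W a b) {g : ℂ → ℝ} {l m : ℂ → ℂ} {z₀ : ℂ}
    (hl : AnalyticAt ℂ l z₀) (hm : AnalyticAt ℂ m z₀)
    (hg : ∀ᶠ z in 𝓝[≠] z₀, g z = F (l z).re + (m z).re) :
    ∀ᶠ z in 𝓝 z₀, limUnder (𝓝[≠] z) g = F (l z).re + (m z).re := by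
  refine Potential_ext (k := fun z => F (l z).re + (m z).re) hg ?_
  filter_upwards [hl.eventually_analyticAt, hm.eventually_analyticAt] with z h1 h2
  have h3 : ContinuousAt F (l z).re := (hd.hF _).continuousAt
  have h4 : ContinuousAt (fun z => (l z).re) z :=
    Complex.continuous_re.continuousAt.comp h1.continuousAt
  have h5 : ContinuousAt (fun z => (m z).re) z :=
    Complex.continuous_re.continuousAt.comp h2.continuousAt
  exact (ContinuousAt.comp (f := fun z => (l z).re) h3 h4).add h5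

private theorem Potential_identity {w : ℝ → ℝ} {M : ℝ} {F W : ℝ → ℝ} {a b : ℝ}
    (hd : Potential_Data w M F W a b) {R₀ : ℝ} {U : ℂ → ℂ} (hU : Potential_NF R₀ U)
    {T : Finset ℂ} (hT : ∀ s ∈ T, U s = 0) {α β : ℝ} (hα : Real.exp (-α) ≤ R₀)
    (hTc : ∀ z, Real.exp (-β) < ‖z‖ → ‖z‖ < Real.exp (-α) → U z = 0 → z ∈ T)
    {x₀ x : ℝ} (hx₀ : x₀ ∈ Set.Ioo α β) (hx : x ∈ Set.Ioo α β)
    (hne : ∀ z, ‖z‖ = Real.exp (-x₀) → U z ≠ 0) :
    mean (Potential_g F a U T) x = mean (Potential_g F a U T) x₀ +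
      mean (Potential_K W a U T) x₀ * (x - x₀) +
      ∫ y in x₀..x, (x - y) * mean (Potential_L w U) y := by
  set g : ℂ → ℝ := Potential_g F a U T with hg
  set S : ℂ → ℝ := fun z => limUnder (𝓝[≠] z) g with hSdef
  have hloc : ∀ y ∈ Set.Ioo α β, ∀ z₀ : ℂ, ‖z₀‖ = Real.exp (-y) →
      ∃ l m : ℂ → ℂ, AnalyticAt ℂ l z₀ ∧ AnalyticAt ℂ m z₀ ∧
        (∀ᶠ z in 𝓝[≠] z₀, g z = F (l z).re + (m z).re) ∧
        Potential_L w U z₀ = w (l z₀).re * ‖z₀ * deriv l z₀‖ ^ 2 := by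
    intro y hy z₀ hz₀
    have h1 : Real.exp (-β) < ‖z₀‖ := by
      rw [hz₀]; exact Real.exp_lt_exp.mpr (by linarith [hy.2])
    have h2 : ‖z₀‖ < Real.exp (-α) := by
      rw [hz₀]; exact Real.exp_lt_exp.mpr (by linarith [hy.1])
    exact Potential_loc hd hU hT ((Real.exp_pos _).trans h1) (h2.trans_le hα)
      (hTc z₀ h1 h2)
  have hmeanS : ∀ y ∈ Set.Ioo α β, mean S y = mean g y := by
    intro y hy
    refine Potential_mean_congr fun z₀ hz₀ => ?_
    obtain ⟨l, m, hl, hm, h1, -⟩ := hloc y hy z₀ hz₀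
    have h2 := Potential_S_eq hd hl hm h1
    filter_upwards [h1, h2.filter_mono nhdsWithin_le_nhds] with z e1 e2
    rw [hSdef]
    exact e2.trans e1.symm
  have havg := average_second_deriv
    (Φ := fun y θ => S (Complex.exp (-(y : ℂ) + (θ : ℂ) * Complex.I)))
    (L := fun y θ => Potential_L w U (Complex.exp (-(y : ℂ) + (θ : ℂ) * Complex.I)))
    (α := α) (β := β) ?_ ?_ ?_ hx₀ hx
  · have h2π : (0 : ℝ) < 2 * Real.pi := Real.two_pi_pos
    rw [← hmeanS x hx, ← hmeanS x₀ hx₀, Potential_mean_eq S x, Potential_mean_eq S x₀, havg,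
      Potential_mean_eq (Potential_K W a U T) x₀]
    have hder : (∫ θ in (0 : ℝ)..2 * Real.pi,
        deriv (fun y : ℝ => S (Complex.exp (-(y : ℂ) + (θ : ℂ) * Complex.I))) x₀) =
        ∫ θ in (0 : ℝ)..2 * Real.pi,
          Potential_K W a U T (Complex.exp (-(x₀ : ℂ) + (θ : ℂ) * Complex.I)) := by
      apply intervalIntegral.integral_congr
      intro θ _
      have hn := Potential_norm x₀ θ
      have h0 := hne _ hn
      have h1 : 0 < ‖Complex.exp (-(x₀ : ℂ) + (θ : ℂ) * Complex.I)‖ := by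
        rw [hn]; exact Real.exp_pos _
      have h2 : ‖Complex.exp (-(x₀ : ℂ) + (θ : ℂ) * Complex.I)‖ < R₀ := by
        rw [hn]; exact (Real.exp_lt_exp.mpr (by linarith [hx₀.1])).trans_le hα
      have h3 : Complex.exp (-(x₀ : ℂ) + (θ : ℂ) * Complex.I) ∉ T := fun h => h0 (hT _ h)
      obtain ⟨l, hla, hl, hl'⟩ := Potential_branch (hU.ana _ h1 h2 h0) h0
      obtain ⟨m, hma, hm, hm'⟩ := Potential_sumlog T (fun s => a * |(ordZ U s : ℝ)|) _ h3
      have hgl : ∀ᶠ z in 𝓝[≠] (Complex.exp (-(x₀ : ℂ) + (θ : ℂ) * Complex.I)),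
          g z = F (l z).re + (m z).re := by
        filter_upwards [hl.filter_mono nhdsWithin_le_nhds, hm.filter_mono nhdsWithin_le_nhds]
          with z e1 e2
        rw [hg]
        unfold Potential_g
        rw [e1, e2, Finset.mul_sum]
        simp only [mul_assoc]
      have h4 := (Potential_smooth hd.hF hd.hW hd.wc x₀ θ hla hma
        (Potential_S_eq hd hla hma hgl)).2.1
      refine h4.trans ?_
      unfold Potential_K
      rw [hl.self_of_nhds, hl', hm']
    rw [hder]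
    have hint : (∫ y in x₀..x, (x - y) * mean (Potential_L w U) y) =
        (2 * Real.pi)⁻¹ * ∫ y in x₀..x, (x - y) * ∫ θ in (0 : ℝ)..2 * Real.pi,
          Potential_L w U (Complex.exp (-(y : ℂ) + (θ : ℂ) * Complex.I)) := by
      rw [← intervalIntegral.integral_const_mul]
      apply intervalIntegral.integral_congr
      intro y _
      simp only [Potential_mean_eq]
      ring
    rw [hint]
    ring
  · intro y hy θ
    obtain ⟨l, m, hl, hm, h1, -⟩ := hloc y hy _ (Potential_norm y θ)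
    exact (Potential_smooth hd.hF hd.hW hd.wc y θ hl hm (Potential_S_eq hd hl hm h1)).1
  · intro y θ
    have : Complex.exp (-(y : ℂ) + ((θ + 2 * Real.pi : ℝ) : ℂ) * Complex.I) =
        Complex.exp (-(y : ℂ) + (θ : ℂ) * Complex.I) := by
      have h1 : -(y : ℂ) + ((θ + 2 * Real.pi : ℝ) : ℂ) * Complex.I =
          (-(y : ℂ) + (θ : ℂ) * Complex.I) + 2 * Real.pi * Complex.I := by
        push_cast
        ring
      rw [h1, Complex.exp_periodic]
    simp only [this]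
  · intro y hy θ
    obtain ⟨l, m, hl, hm, h1, h2⟩ := hloc y hy _ (Potential_norm y θ)
    rw [(Potential_smooth hd.hF hd.hW hd.wc y θ hl hm (Potential_S_eq hd hl hm h1)).2.2]
    exact h2

private theorem Potential_big {R₀ : ℝ} {U : ℂ → ℂ} (hU : Potential_NF R₀ U) {z₀ : ℂ}
    (h1 : 0 < ‖z₀‖) (h2 : ‖z₀‖ < R₀) (h0 : U z₀ = 0) (M : ℝ) :
    ∀ᶠ z in 𝓝[≠] z₀, M ≤ |Real.log ‖U z‖| := by
  obtain ⟨h, hha, hh0, hfac⟩ := hU.fac z₀ h1 h2
  have hn : ordZ U z₀ ≠ 0 := (hU.ord z₀ h1 h2).mp h0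
  set n : ℝ := (ordZ U z₀ : ℝ) with hnd
  have hn0 : n ≠ 0 := by
    rw [hnd]
    exact_mod_cast hn
  have hlog : ∀ᶠ z in 𝓝[≠] z₀, Real.log ‖U z‖ = n * Real.log ‖z - z₀‖ + Real.log ‖h z‖ := by
    filter_upwards [hfac, self_mem_nhdsWithin,
      (hha.continuousAt.eventually_ne hh0).filter_mono nhdsWithin_le_nhds] with z hz hz1 hz2
    have hz3 : z - z₀ ≠ 0 := sub_ne_zero.mpr hz1
    rw [hz, norm_mul, norm_zpow, Real.log_mul (zpow_ne_zero _ (norm_ne_zero_iff.mpr hz3))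
      (norm_ne_zero_iff.mpr hz2), Real.log_zpow]
  have htop : Tendsto (fun z : ℂ => Real.log ‖z - z₀‖) (𝓝[≠] z₀) atBot := by
    have ht1 : Tendsto (fun z : ℂ => ‖z - z₀‖) (𝓝[≠] z₀) (𝓝[>] 0) := by
      refine tendsto_nhdsWithin_iff.mpr ⟨?_, ?_⟩
      · have : Tendsto (fun z : ℂ => ‖z - z₀‖) (𝓝 z₀) (𝓝 ‖z₀ - z₀‖) :=
          (continuous_norm.comp (continuous_id.sub continuous_const)).tendsto z₀
        rw [sub_self, norm_zero] at this
        exact this.mono_left nhdsWithin_le_nhds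
      · filter_upwards [self_mem_nhdsWithin] with z hz
        exact norm_pos_iff.mpr (sub_ne_zero.mpr hz)
    exact Real.tendsto_log_nhdsGT_zero.comp ht1
  have hhc : Tendsto (fun z : ℂ => Real.log ‖h z‖) (𝓝[≠] z₀) (𝓝 (Real.log ‖h z₀‖)) := by
    have : ContinuousAt (fun z : ℂ => Real.log ‖h z‖) z₀ :=
      hha.continuousAt.norm.log (norm_ne_zero_iff.mpr hh0)
    exact this.tendsto.mono_left nhdsWithin_le_nhds
  have habs : Tendsto (fun z : ℂ => |n * Real.log ‖z - z₀‖ + Real.log ‖h z‖|) (𝓝[≠] z₀)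
      atTop := by
    rcases lt_or_gt_of_ne hn0 with hneg | hpos
    · exact tendsto_abs_atTop_atTop.comp
        (Tendsto.atTop_add (htop.const_mul_atBot_of_neg hneg) hhc)
    · exact tendsto_abs_atBot_atTop.comp (Tendsto.atBot_add (htop.const_mul_atBot hpos) hhc)
  filter_upwards [hlog, habs.eventually_ge_atTop M] with z e1 e2
  rw [e1]
  exact e2

private theorem Potential_cont {w : ℝ → ℝ} {M : ℝ} (hw : Continuous w)
    (hwb : ∀ t, M ≤ |t| → w t = 0) {R₀ : ℝ} {U : ℂ → ℂ} (hU : Potential_NF R₀ U) {z₀ : ℂ}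
    (h1 : 0 < ‖z₀‖) (h2 : ‖z₀‖ < R₀) : ContinuousAt (Potential_L w U) z₀ := by
  by_cases h0 : U z₀ = 0
  · have h3 : ∀ᶠ z in 𝓝 z₀, Potential_L w U z = 0 := by
      have h4 := Potential_big hU h1 h2 h0 M
      rw [eventually_nhdsWithin_iff] at h4
      filter_upwards [h4] with z hz
      unfold Potential_L
      by_cases hzz : z = z₀
      · rw [hzz, h0]
        simp
      · rw [hwb _ (hz hzz), zero_mul]
    exact (continuousAt_const (y := (0 : ℝ))).congr (by filter_upwards [h3] with z hz using hz.symm)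
  · have hana := hU.ana z₀ h1 h2 h0
    have h3 : ContinuousAt (fun z => Real.log ‖U z‖) z₀ :=
      hana.continuousAt.norm.log (norm_ne_zero_iff.mpr h0)
    have h4 : ContinuousAt (fun z => w (Real.log ‖U z‖)) z₀ := hw.continuousAt.comp h3
    have h5 : ContinuousAt (fun z => ‖z * deriv U z / U z‖ ^ 2) z₀ :=
      (((continuousAt_id.mul hana.deriv.continuousAt).div hana.continuousAt h0).norm).pow 2
    exact h4.mul h5

private theorem Potential_avg_one {s : ℂ} {R : ℝ} (h : ‖s‖ < R) :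
    Real.circleAverage (fun z => z * (1 / (z - s))) 0 R = 1 := by
  have hR : 0 < R := (norm_nonneg s).trans_lt h
  rw [Real.circleAverage_eq_circleIntegral hR.ne']
  have h1 : (∮ z in C(0, R), (z - 0)⁻¹ • (z * (1 / (z - s)))) = ∮ z in C(0, R), (z - s)⁻¹ := by
    refine circleIntegral.integral_congr hR.le fun z hz => ?_
    have hz0 : z ≠ 0 := by
      intro h0
      rw [h0, mem_sphere_zero_iff_norm, norm_zero] at hz
      exact hR.ne hz
    simp only [smul_eq_mul, sub_zero]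
    rw [← mul_assoc, inv_mul_cancel₀ hz0, one_mul, one_div]
  rw [h1, circleIntegral.integral_sub_inv_of_mem_ball (by rwa [mem_ball_zero_iff]), smul_eq_mul]
  exact inv_mul_cancel₀ Complex.two_pi_I_ne_zero

/-- the mean of the regularised function -/
private theorem Potential_mean_g {w : ℝ → ℝ} {M : ℝ} {F W : ℝ → ℝ} {a b : ℝ}
    (hd : Potential_Data w M F W a b) {R₀ : ℝ} {U : ℂ → ℂ} (hU : Potential_NF R₀ U)
    (T : Finset ℂ) {x : ℝ} (hx : Real.exp (-x) < R₀) :
    mean (Potential_g F a U T) x = mean (fun z => F (Real.log ‖U z‖)) x +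
      a * ∑ s ∈ T, |(ordZ U s : ℝ)| * (-x + Real.posLog (‖s‖ / Real.exp (-x))) ∧
    0 ≤ mean (fun z => F (Real.log ‖U z‖)) x ∧
    mean (fun z => F (Real.log ‖U z‖)) x ≤ mean (fun z => |Real.log ‖U z‖|) x := by
  have hr : 0 < Real.exp (-x) := Real.exp_pos _
  have hlog : CircleIntegrable (fun z => Real.log ‖U z‖) 0 (Real.exp (-x)) := by
    apply MeromorphicOn.circleIntegrable_log_norm
    intro z hz
    rw [mem_sphere_zero_iff_norm, abs_of_pos hr] at hz
    exact hU.mer z (by rw [hz]; exact hr) (by rw [hz]; exact hx)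
  have hFc : Continuous F := continuous_iff_continuousAt.mpr fun t => (hd.hF t).continuousAt
  have hFi : CircleIntegrable (fun z => F (Real.log ‖U z‖)) 0 (Real.exp (-x)) := by
    unfold CircleIntegrable at hlog ⊢
    refine hlog.mono_fun ?_ ?_
    · exact hFc.comp_aestronglyMeasurable hlog.aestronglyMeasurable_restrict_uIoc
    · refine Filter.Eventually.of_forall fun θ => ?_
      simp only [Real.norm_eq_abs]
      rw [abs_of_nonneg (hd.F0 _)]
      exact hd.F1 _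
  have hsi : CircleIntegrable (fun z => a * ∑ s ∈ T, |(ordZ U s : ℝ)| * Real.log ‖z - s‖) 0
      (Real.exp (-x)) := by
    refine CircleIntegrable.const_fun_smul (a := a)
      (f := fun z => ∑ s ∈ T, |(ordZ U s : ℝ)| * Real.log ‖z - s‖) ?_
    refine CircleIntegrable.fun_sum T fun s _ => ?_
    exact (circleIntegrable_log_norm_sub_const (Real.exp (-x))).const_fun_smul
      (a := |(ordZ U s : ℝ)|)
  refine ⟨?_, ?_, ?_⟩
  · unfold mean Potential_g
    rw [Real.circleAverage_fun_add hFi hsi]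
    congr 1
    have h1 := Real.circleAverage_fun_smul (a := a)
      (f := fun z => ∑ s ∈ T, |(ordZ U s : ℝ)| * Real.log ‖z - s‖) (c := 0) (R := Real.exp (-x))
    simp only [smul_eq_mul] at h1
    have hsi' : ∀ s ∈ T, CircleIntegrable (fun z => |(ordZ U s : ℝ)| * Real.log ‖z - s‖) 0
        (Real.exp (-x)) := fun s _ =>
      (circleIntegrable_log_norm_sub_const (Real.exp (-x))).const_fun_smul
        (a := |(ordZ U s : ℝ)|)
    rw [h1, Real.circleAverage_fun_sum hsi']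
    congr 1
    refine Finset.sum_congr rfl fun s _ => ?_
    have h5 := Real.circleAverage_fun_smul (a := |(ordZ U s : ℝ)|)
      (f := fun z => Real.log ‖z - s‖) (c := 0) (R := Real.exp (-x))
    simp only [smul_eq_mul] at h5
    rw [h5, circleAverage_log_norm_sub_const_eq_log_radius_add_posLog hr.ne', zero_sub, norm_neg,
      inv_mul_eq_div, Real.log_exp]
  · exact Real.circleAverage_nonneg_of_nonneg fun z _ => hd.F0 _
  · refine Real.circleAverage_mono hFi ?_ fun z _ => hd.F1 _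
    unfold CircleIntegrable at hlog ⊢
    exact hlog.abs

/-- the mean of the derivative -/
private theorem Potential_mean_K {w : ℝ → ℝ} {M : ℝ} {F W : ℝ → ℝ} {a b : ℝ}
    (hd : Potential_Data w M F W a b) {R₀ : ℝ} {U : ℂ → ℂ} (hU : Potential_NF R₀ U)
    {T : Finset ℂ} {x : ℝ} (hx : Real.exp (-x) < R₀)
    (hne : ∀ z, ‖z‖ = Real.exp (-x) → U z ≠ 0) (hT : ∀ s ∈ T, ‖s‖ < Real.exp (-x)) :
    |(mean (Potential_K W a U T) x + a * (∑ s ∈ T, |(ordZ U s : ℝ)|))| ≤
      mean (fun z => ‖z * deriv U z / U z‖) x := by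
  have hr : 0 < Real.exp (-x) := Real.exp_pos _
  have hWc : Continuous W := continuous_iff_continuousAt.mpr fun t => (hd.hW t).continuousAt
  have hz0 : ∀ z : ℂ, z ∈ Metric.sphere (0 : ℂ) (Real.exp (-x)) → ‖z‖ = Real.exp (-x) :=
    fun z hz => mem_sphere_zero_iff_norm.mp hz
  have hana : ∀ z : ℂ, z ∈ Metric.sphere (0 : ℂ) (Real.exp (-x)) → AnalyticAt ℂ U z :=
    fun z hz => hU.ana z (by rw [hz0 z hz]; exact hr) (by rw [hz0 z hz]; exact hx)
      (hne z (hz0 z hz))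
  have hc0 : ∀ z : ℂ, z ∈ Metric.sphere (0 : ℂ) (Real.exp (-x)) →
      ContinuousAt (fun z => z * (deriv U z / U z)) z := fun z hz =>
    continuousAt_id.mul ((hana z hz).deriv.continuousAt.div (hana z hz).continuousAt
      (hne z (hz0 z hz)))
  have hi1 : CircleIntegrable (fun z => W (Real.log ‖U z‖) * (-(z * (deriv U z / U z))).re) 0
      (Real.exp (-x)) := by
    refine ContinuousOn.circleIntegrable hr.le fun z hz => ContinuousAt.continuousWithinAt ?_
    have h1 : ContinuousAt (fun z => W (Real.log ‖U z‖)) z :=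
      hWc.continuousAt.comp
        ((hana z hz).continuousAt.norm.log (norm_ne_zero_iff.mpr (hne z (hz0 z hz))))
    have h2 : ContinuousAt (fun z => (-(z * (deriv U z / U z))).re) z :=
      Complex.continuous_re.continuousAt.comp (hc0 z hz).neg
    exact h1.mul h2
  have hi3 : CircleIntegrable (fun z => ‖z * deriv U z / U z‖) 0 (Real.exp (-x)) := by
    refine ContinuousOn.circleIntegrable hr.le fun z hz => ContinuousAt.continuousWithinAt ?_
    have := (hc0 z hz).norm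
    simp only [← mul_div_assoc] at this
    exact this
  have hcs : ∀ s ∈ T, ContinuousOn (fun z : ℂ => z * (1 / (z - s)))
      (Metric.sphere (0 : ℂ) (Real.exp (-x))) := by
    intro s hs z hz
    refine ContinuousAt.continuousWithinAt ?_
    have h1 : z - s ≠ 0 := by
      intro h
      have h2 := hT s hs
      rw [← sub_eq_zero.mp h, hz0 z hz] at h2
      exact lt_irrefl _ h2
    exact continuousAt_id.mul (continuousAt_const.div (continuousAt_id.sub continuousAt_const) h1)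
  have hi4 : ∀ s ∈ T, CircleIntegrable (fun z : ℂ => z * (1 / (z - s))) 0 (Real.exp (-x)) :=
    fun s hs => ContinuousOn.circleIntegrable hr.le (hcs s hs)
  have hfun : (fun z : ℂ => -(z * ∑ s ∈ T, ((a * |(ordZ U s : ℝ)| : ℝ) : ℂ) * (1 / (z - s)))) =
      fun z => ∑ s ∈ T, (-((a * |(ordZ U s : ℝ)| : ℝ) : ℂ)) • (z * (1 / (z - s))) := by
    funext z
    rw [Finset.mul_sum, ← Finset.sum_neg_distrib]
    refine Finset.sum_congr rfl fun s _ => ?_
    rw [smul_eq_mul]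
    ring
  have hi5 : CircleIntegrable (fun z : ℂ =>
      -(z * ∑ s ∈ T, ((a * |(ordZ U s : ℝ)| : ℝ) : ℂ) * (1 / (z - s)))) 0 (Real.exp (-x)) := by
    rw [hfun]
    refine CircleIntegrable.fun_sum T fun s hs => ?_
    exact (hi4 s hs).const_fun_smul
  have hav : Real.circleAverage (fun z : ℂ =>
      -(z * ∑ s ∈ T, ((a * |(ordZ U s : ℝ)| : ℝ) : ℂ) * (1 / (z - s)))) 0 (Real.exp (-x)) =
      ((-(a * ∑ s ∈ T, |(ordZ U s : ℝ)|) : ℝ) : ℂ) := by
    rw [hfun, Real.circleAverage_fun_sum fun s hs => (hi4 s hs).const_fun_smul]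
    have h1 : ∀ s ∈ T, Real.circleAverage (fun z : ℂ =>
        (-((a * |(ordZ U s : ℝ)| : ℝ) : ℂ)) • (z * (1 / (z - s)))) 0 (Real.exp (-x)) =
        -((a * |(ordZ U s : ℝ)| : ℝ) : ℂ) := by
      intro s hs
      rw [Real.circleAverage_fun_smul, Potential_avg_one (hT s hs), smul_eq_mul, mul_one]
    rw [Finset.sum_congr rfl h1, Finset.sum_neg_distrib, Finset.mul_sum]
    push_cast
    rfl
  have hre : Real.circleAverage (fun z : ℂ =>
      (-(z * ∑ s ∈ T, ((a * |(ordZ U s : ℝ)| : ℝ) : ℂ) * (1 / (z - s)))).re) 0 (Real.exp (-x)) =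
      -(a * ∑ s ∈ T, |(ordZ U s : ℝ)|) := by
    have h1 := Complex.reCLM.circleAverage_comp_comm hi5
    rw [hav] at h1
    rw [Complex.reCLM_apply, Complex.ofReal_re] at h1
    exact h1
  have hi6 : CircleIntegrable (fun z : ℂ =>
      (-(z * ∑ s ∈ T, ((a * |(ordZ U s : ℝ)| : ℝ) : ℂ) * (1 / (z - s)))).re) 0
      (Real.exp (-x)) := by
    refine ContinuousOn.circleIntegrable hr.le ?_
    refine Complex.continuous_re.comp_continuousOn ?_
    rw [hfun]
    refine continuousOn_finsetSum T fun s hs => ?_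
    exact continuousOn_const.mul (hcs s hs)
  have hK : mean (Potential_K W a U T) x =
      Real.circleAverage (fun z => W (Real.log ‖U z‖) * (-(z * (deriv U z / U z))).re) 0
        (Real.exp (-x)) + -(a * ∑ s ∈ T, |(ordZ U s : ℝ)|) := by
    unfold mean Potential_K
    rw [Real.circleAverage_fun_add hi1 hi6, hre]
  rw [hK]
  have h7 : Real.circleAverage (fun z => W (Real.log ‖U z‖) * (-(z * (deriv U z / U z))).re) 0
        (Real.exp (-x)) + -(a * ∑ s ∈ T, |(ordZ U s : ℝ)|) + a * ∑ s ∈ T, |(ordZ U s : ℝ)| =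
      Real.circleAverage (fun z => W (Real.log ‖U z‖) * (-(z * (deriv U z / U z))).re) 0
        (Real.exp (-x)) := by ring
  rw [h7]
  refine Real.abs_circleAverage_le_circleAverage_abs.trans ?_
  unfold mean
  refine Real.circleAverage_mono ?_ hi3 fun z _ => ?_
  · unfold CircleIntegrable at hi1 ⊢
    exact hi1.abs
  · rw [Pi.abs_apply, abs_mul]
    have h8 : |(-(z * (deriv U z / U z))).re| ≤ ‖z * deriv U z / U z‖ := by
      refine (Complex.abs_re_le_norm _).trans ?_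
      rw [norm_neg, mul_div_assoc]
    calc |W (Real.log ‖U z‖)| * |(-(z * (deriv U z / U z))).re|
        ≤ 1 * ‖z * deriv U z / U z‖ :=
          mul_le_mul (hd.W1 _) h8 (abs_nonneg _) zero_le_one
      _ = ‖z * deriv U z / U z‖ := one_mul _

/-- radii without zeros and poles -/
private theorem Potential_radii {R₀ : ℝ} (hR₀ : 0 < R₀) {u : ℂ → ℂ} (hu : MeroPunct R₀ u) :
    ∃ R₁ R₂ : ℝ, 0 < R₁ ∧ R₁ < R₂ ∧ R₂ < R₀ ∧ ∀ z, R₁ ≤ ‖z‖ → ‖z‖ ≤ R₂ → ordZ u z = 0 := by
  have hfin : {s : ℂ | R₀ / 4 ≤ ‖s‖ ∧ ‖s‖ ≤ R₀ / 2 ∧ ordZ u s ≠ 0}.Finite :=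
    Pool.Agent.H92.GGL.finite_ordZ (by linarith) (by linarith) hu.mero
  set A : Set ℝ := (fun s : ℂ => ‖s‖) '' {s : ℂ | R₀ / 4 ≤ ‖s‖ ∧ ‖s‖ ≤ R₀ / 2 ∧ ordZ u s ≠ 0}
    with hA
  have hAfin : A.Finite := hfin.image _
  have hinf : (Set.Ioo (R₀ / 4) (R₀ / 2) \ A).Infinite :=
    (Set.Ioo_infinite (by linarith)).sdiff hAfin
  obtain ⟨R₁, ⟨h1, h2⟩, h3⟩ := hinf.nonempty
  have hopen : Aᶜ ∈ 𝓝 R₁ := hAfin.isClosed.isOpen_compl.mem_nhds h3
  obtain ⟨ε, hε, hε2⟩ := Metric.mem_nhds_iff.mp hopen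
  refine ⟨R₁, min (R₁ + ε / 2) ((R₁ + R₀ / 2) / 2), by linarith, ?_, ?_, ?_⟩
  · exact lt_min (by linarith) (by linarith)
  · exact (min_le_right _ _).trans_lt (by linarith)
  · intro z hz1 hz2
    by_contra h0
    have h4 : ‖z‖ ∈ A := by
      refine ⟨z, ⟨by linarith, ?_, h0⟩, rfl⟩
      have := hz2.trans (min_le_right _ _)
      linarith
    refine hε2 ?_ h4
    rw [Metric.mem_ball, Real.dist_eq, abs_of_nonneg (by linarith)]
    have := hz2.trans (min_le_left _ _)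
    linarith

/-- The potential inequality. -/
theorem potential_ineq {R₀ : ℝ} (hR₀ : 0 < R₀) {u : ℂ → ℂ} (hu : MeroPunct R₀ u) :
    ∃ (R₁ C : ℝ), 0 < R₁ ∧ R₁ < R₀ ∧ ∀ (w : ℝ → ℝ) (M : ℝ), Continuous w → (∀ t, 0 ≤ w t) →
      (∀ t, w (-t) = w t) → 0 ≤ M → (∀ t, M ≤ t → w t = 0) → (∫ t in (0 : ℝ)..M, w t) ≤ 1 →
      ContinuousOn (fun y => mean (fun z => w (Real.log ‖u z‖) * ‖z * deriv u z / u z‖ ^ 2) y)
        (Set.Ici (-Real.log R₁)) ∧
      ∀ x, -Real.log R₁ ≤ x →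
        (∫ y in (-Real.log R₁)..x, (x - y) *
          mean (fun z => w (Real.log ‖u z‖) * ‖z * deriv u z / u z‖ ^ 2) y) ≤
        mean (fun z => |Real.log ‖u z‖|) x +
          cnt (fun s => |(ordZ u s : ℝ)|) R₁ (Real.exp (-x)) + C * (1 + |x|) := by
  obtain ⟨R₁, R₂, hR1, hR12, hR2, hfree⟩ := Potential_radii hR₀ hu
  obtain ⟨U, hU, hUu, hord⟩ := Potential_exists_nf hu
  have hpl : ∀ t : ℝ, Real.posLog t = max 0 (Real.log t) := fun t => rfl
  set x₀ : ℝ := -Real.log R₁ with hx₀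
  have hex₀ : Real.exp (-x₀) = R₁ := by rw [hx₀, neg_neg, Real.exp_log hR1]
  set C₀ : ℝ := mean (fun z => ‖z * deriv U z / U z‖) x₀ with hC₀
  have hC₀0 : 0 ≤ C₀ := Real.circleAverage_nonneg_of_nonneg fun z _ => norm_nonneg _
  refine ⟨R₁, C₀ * (1 + |x₀|), hR1, hR12.trans hR2, ?_⟩
  intro w M hw hw0 hwe hM hwz hwi
  obtain ⟨F, W, a, b, hd⟩ := Potential_data hw hw0 hwe hM hwz hwi
  have hder : ∀ z, 0 < ‖z‖ → ‖z‖ < R₀ → ∀ᶠ z' in 𝓝[≠] z, U z' = u z' ∧ deriv U z' = deriv u z' := by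
    intro z h1 h2
    have h3 := hUu z h1 h2
    have h4 : ∀ᶠ z' in 𝓝[≠] z, U =ᶠ[𝓝 z'] u := by
      rw [Filter.EventuallyEq, eventually_nhdsWithin_iff] at h3
      rw [eventually_nhdsWithin_iff]
      filter_upwards [h3.eventually_nhds] with z' e1 e2
      have e3 : ∀ᶠ y in 𝓝 z', y ≠ z := eventually_ne_nhds e2
      filter_upwards [e1, e3] with y k1 k2 using k1 k2
    filter_upwards [h4] with z' hz'
    exact ⟨hz'.self_of_nhds, hz'.deriv_eq⟩
  have hG : ∀ y, Real.exp (-y) < R₀ →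
      mean (fun z => w (Real.log ‖u z‖) * ‖z * deriv u z / u z‖ ^ 2) y =
        mean (Potential_L w U) y := by
    intro y hy
    refine Potential_mean_congr fun z hz => ?_
    filter_upwards [hder z (by rw [hz]; exact Real.exp_pos _) (by rw [hz]; exact hy)] with z' hz'
    unfold Potential_L
    rw [hz'.1, hz'.2]
  have hexle : ∀ y, x₀ ≤ y → Real.exp (-y) < R₀ := by
    intro y hy
    have h1 : Real.exp (-y) ≤ Real.exp (-x₀) := Real.exp_le_exp.mpr (by linarith)
    rw [hex₀] at h1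
    exact h1.trans_lt (hR12.trans hR2)
  constructor
  · have h1 : ContinuousOn (Real.circleAverage (Potential_L w U) 0) (Set.Ioo 0 R₀) := by
      refine Real.ContinuousOn.circleAverage (fun z hz => ?_) fun r hr => hr.1.le
      have hz' : 0 < ‖z‖ ∧ ‖z‖ < R₀ := by simpa using hz
      exact (Potential_cont hw hd.wbig hU hz'.1 hz'.2).continuousWithinAt
    have h2 : ContinuousOn (fun y : ℝ => Real.exp (-y)) (Set.Ici x₀) :=
      (Real.continuous_exp.comp continuous_neg).continuousOn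
    have h3 : ContinuousOn (fun y => Real.circleAverage (Potential_L w U) 0 (Real.exp (-y)))
        (Set.Ici x₀) := h1.comp h2 fun y hy => ⟨Real.exp_pos _, hexle y hy⟩
    exact h3.congr fun y hy => hG y (hexle y hy)
  · intro x hx
    -- the zeros and poles
    set β : ℝ := x + 1 with hβ
    set α : ℝ := -Real.log R₂ with hα
    have hR2pos : 0 < R₂ := hR1.trans hR12
    have heα : Real.exp (-α) = R₂ := by rw [hα, neg_neg, Real.exp_log hR2pos]
    have hαx₀ : α < x₀ := by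
      rw [hα, hx₀]
      linarith [Real.log_lt_log hR1 hR12]
    have hfinT : {s : ℂ | Real.exp (-β) ≤ ‖s‖ ∧ ‖s‖ ≤ R₁ ∧ ordZ u s ≠ 0}.Finite :=
      Pool.Agent.H92.GGL.finite_ordZ (Real.exp_pos _) (hR12.trans hR2) hu.mero
    set T : Finset ℂ := hfinT.toFinset with hTdef
    have hTmem : ∀ s, s ∈ T ↔ Real.exp (-β) ≤ ‖s‖ ∧ ‖s‖ ≤ R₁ ∧ ordZ u s ≠ 0 := by
      intro s
      rw [hTdef, Set.Finite.mem_toFinset]
      rfl
    have hTD : ∀ s ∈ T, 0 < ‖s‖ ∧ ‖s‖ < R₀ := by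
      intro s hs
      obtain ⟨h1, h2, -⟩ := (hTmem s).mp hs
      exact ⟨(Real.exp_pos _).trans_le h1, h2.trans_lt (hR12.trans hR2)⟩
    have hTU : ∀ s ∈ T, U s = 0 := by
      intro s hs
      obtain ⟨h1, h2⟩ := hTD s hs
      rw [hU.ord s h1 h2, hord s h1 h2]
      exact ((hTmem s).mp hs).2.2
    have hTlt : ∀ s ∈ T, ‖s‖ < R₁ := by
      intro s hs
      obtain ⟨h1, h2, h3⟩ := (hTmem s).mp hs
      refine lt_of_le_of_ne h2 fun h4 => h3 (hfree s h4.ge ?_)
      rw [h4]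
      exact hR12.le
    have hTc : ∀ z, Real.exp (-β) < ‖z‖ → ‖z‖ < Real.exp (-α) → U z = 0 → z ∈ T := by
      intro z h1 h2 h3
      rw [heα] at h2
      have h4 : 0 < ‖z‖ := (Real.exp_pos _).trans h1
      have h5 : ‖z‖ < R₀ := h2.trans hR2
      rw [hU.ord z h4 h5, hord z h4 h5] at h3
      rw [hTmem]
      refine ⟨h1.le, ?_, h3⟩
      by_contra h6
      exact h3 (hfree z (not_le.mp h6).le h2.le)
    have hne : ∀ z, ‖z‖ = Real.exp (-x₀) → U z ≠ 0 := by
      intro z hz h0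
      rw [hex₀] at hz
      have h4 : 0 < ‖z‖ := by rw [hz]; exact hR1
      have h5 : ‖z‖ < R₀ := by rw [hz]; exact hR12.trans hR2
      rw [hU.ord z h4 h5, hord z h4 h5] at h0
      exact h0 (hfree z hz.ge (by rw [hz]; exact hR12.le))
    have hid := Potential_identity hd hU hTU (α := α) (β := β) (by rw [heα]; exact hR2.le) hTc
      (x₀ := x₀) (x := x) ⟨hαx₀, by rw [hβ]; linarith⟩ ⟨hαx₀.trans_le hx, by rw [hβ]; linarith⟩ hne
    obtain ⟨hg1, hg2, hg3⟩ := Potential_mean_g hd hU T (hexle x hx)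
    obtain ⟨hg4, hg5, hg6⟩ := Potential_mean_g hd hU T (hexle x₀ le_rfl)
    have hK := Potential_mean_K hd hU (T := T) (hexle x₀ le_rfl) hne
      (fun s hs => by rw [hex₀]; exact hTlt s hs)
    rw [hg1, hg4] at hid
    have hint : (∫ y in x₀..x, (x - y) *
        mean (fun z => w (Real.log ‖u z‖) * ‖z * deriv u z / u z‖ ^ 2) y) =
        ∫ y in x₀..x, (x - y) * mean (Potential_L w U) y := by
      apply intervalIntegral.integral_congr
      intro y hy
      rw [Set.uIcc_of_le hx] at hy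
      simp only [hG y (hexle y hy.1)]
    have habs : mean (fun z => |Real.log ‖U z‖|) x = mean (fun z => |Real.log ‖u z‖|) x := by
      refine Potential_mean_congr fun z hz => ?_
      filter_upwards [hUu z (by rw [hz]; exact Real.exp_pos _) (by rw [hz]; exact hexle x hx)]
        with z' hz'
      rw [hz']
    -- the counting function
    have hcnt : cnt (fun s => |(ordZ u s : ℝ)|) R₁ (Real.exp (-x)) =
        ∑ s ∈ T, |(ordZ U s : ℝ)| * Real.posLog (‖s‖ / Real.exp (-x)) := by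
      rw [cnt_eq_sum (T := T) ?_ (Real.exp_pos _), Finset.sum_filter]
      · refine Finset.sum_congr rfl fun s hs => ?_
        have hs2 := hTlt s hs
        obtain ⟨k1, k2⟩ := hTD s hs
        rw [hord s k1 k2, hpl]
        by_cases h1 : Real.exp (-x) < ‖s‖
        · rw [if_pos ⟨h1, hs2⟩, max_eq_right]
          exact Real.log_nonneg ((one_le_div (Real.exp_pos _)).mpr h1.le)
        · rw [if_neg fun h => h1 h.1, max_eq_left, mul_zero]
          exact Real.log_nonpos (div_nonneg (norm_nonneg _) (Real.exp_pos _).le)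
            ((div_le_one (Real.exp_pos _)).mpr (not_lt.mp h1))
      · intro s h1 h2 h3
        rw [hTmem]
        refine ⟨?_, h2.le, ?_⟩
        · have : Real.exp (-β) ≤ Real.exp (-x) := Real.exp_le_exp.mpr (by rw [hβ]; linarith)
          exact this.trans h1.le
        · intro h4
          exact h3 (by rw [h4]; simp)
    have hpos0 : ∀ s ∈ T, Real.posLog (‖s‖ / Real.exp (-x₀)) = 0 := by
      intro s hs
      rw [hpl, max_eq_left]
      rw [hex₀]
      exact Real.log_nonpos (div_nonneg (norm_nonneg _) hR1.le)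
        ((div_le_one hR1).mpr (hTlt s hs).le)
    have hs1 : ∑ s ∈ T, |(ordZ U s : ℝ)| * (-x + Real.posLog (‖s‖ / Real.exp (-x))) =
        -x * (∑ s ∈ T, |(ordZ U s : ℝ)|) + cnt (fun s => |(ordZ u s : ℝ)|) R₁ (Real.exp (-x)) := by
      rw [hcnt, Finset.mul_sum, ← Finset.sum_add_distrib]
      refine Finset.sum_congr rfl fun s _ => ?_
      ring
    have hs2 : ∑ s ∈ T, |(ordZ U s : ℝ)| * (-x₀ + Real.posLog (‖s‖ / Real.exp (-x₀))) =
        -x₀ * (∑ s ∈ T, |(ordZ U s : ℝ)|) := by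
      rw [Finset.mul_sum]
      refine Finset.sum_congr rfl fun s hs => ?_
      rw [hpos0 s hs]
      ring
    rw [hs1, hs2] at hid
    have hcnt0 : 0 ≤ cnt (fun s => |(ordZ u s : ℝ)|) R₁ (Real.exp (-x)) := by
      rw [hcnt]
      exact Finset.sum_nonneg fun s _ => mul_nonneg (abs_nonneg _) Real.posLog_nonneg
    rw [hint, ← habs]
    set N : ℝ := ∑ s ∈ T, |(ordZ U s : ℝ)| with hN
    have hKle := (abs_le.mp hK).1
    have hxx : 0 ≤ x - x₀ := by linarith
    have h1 : -(mean (Potential_K W a U T) x₀ + a * N) * (x - x₀) ≤ C₀ * (x - x₀) :=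
      mul_le_mul_of_nonneg_right (by linarith) hxx
    have h2 : a * cnt (fun s => |(ordZ u s : ℝ)|) R₁ (Real.exp (-x)) ≤
        cnt (fun s => |(ordZ u s : ℝ)|) R₁ (Real.exp (-x)) := by
      have := mul_le_mul_of_nonneg_right hd.a1 hcnt0
      linarith
    have h3 : C₀ * (x - x₀) ≤ C₀ * (1 + |x₀|) * (1 + |x|) := by
      rw [mul_assoc]
      refine mul_le_mul_of_nonneg_left ?_ hC₀0
      have e1 := le_abs_self x
      have e2 := neg_le_abs x₀
      have e3 := abs_nonneg x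
      have e4 := abs_nonneg x₀
      have e5 : (1 + |x₀|) * (1 + |x|) = 1 + |x| + |x₀| + |x₀| * |x| := by ring
      rw [e5]
      linarith [mul_nonneg e4 e3]
    linarith [hid, h1, h2, h3, hg3, hg5]

end Pool.Agent.H62.FC

end
end

section

/-!
# The lemma on the logarithmic derivative at a puncture
-/

open Filter Topology MeasureTheory
open Pool.Agent.H92.GGL (ordZ)

noncomputable section

namespace Pool.Agent.H62.FC

/-! ### The weights -/

private def wt (t : ℝ) : ℝ := 1 / (1 + |t|) ^ 2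

private def wn (n : ℕ) (t : ℝ) : ℝ := max 0 (wt t - wt n)

private lemma one_add_abs_pos (t : ℝ) : 0 < 1 + |t| := by positivity

private lemma wt_cont : Continuous wt := by
  unfold wt
  exact continuous_const.div₀ (by fun_prop) fun t => (pow_pos (one_add_abs_pos t) 2).ne'

private lemma wn_cont (n : ℕ) : Continuous (wn n) := by
  unfold wn
  exact continuous_const.max (wt_cont.sub continuous_const)

private lemma wn_nonneg (n : ℕ) (t : ℝ) : 0 ≤ wn n t := le_max_left _ _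

private lemma wt_nonneg (t : ℝ) : 0 ≤ wt t := by unfold wt; positivity

private lemma wn_neg (n : ℕ) (t : ℝ) : wn n (-t) = wn n t := by
  simp only [wn, wt, abs_neg]

private lemma wt_le {s t : ℝ} (h : |s| ≤ |t|) : wt t ≤ wt s := by
  unfold wt
  have h1 := one_add_abs_pos s
  exact one_div_le_one_div_of_le (by positivity) (pow_le_pow_left₀ h1.le (by linarith) 2)

private lemma wn_zero {n : ℕ} {t : ℝ} (h : (n : ℝ) ≤ |t|) : wn n t = 0 := by
  unfold wn
  refine max_eq_left ?_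
  have := wt_le (s := (n : ℝ)) (t := t) (by rwa [Nat.abs_cast])
  linarith

private lemma wn_le_wt (n : ℕ) (t : ℝ) : wn n t ≤ wt t := by
  unfold wn
  have := wt_nonneg (n : ℝ)
  have := wt_nonneg t
  exact max_le (by assumption) (by linarith)

private lemma wn_mono {n m : ℕ} (h : n ≤ m) (t : ℝ) : wn n t ≤ wn m t := by
  unfold wn
  refine max_le_max le_rfl ?_
  have : wt (m : ℝ) ≤ wt (n : ℝ) := wt_le (by
    rw [Nat.abs_cast, Nat.abs_cast]
    exact_mod_cast h)
  linarith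

private lemma wt_tendsto : Tendsto (fun n : ℕ => wt (n : ℝ)) atTop (𝓝 0) := by
  have h1 : Tendsto (fun n : ℕ => 1 / ((n : ℝ) + 1)) atTop (𝓝 0) :=
    tendsto_one_div_add_atTop_nhds_zero_nat
  have h2 := h1.pow 2
  rw [zero_pow two_ne_zero] at h2
  refine h2.congr fun n => ?_
  unfold wt
  rw [Nat.abs_cast, one_div_pow, add_comm]

private lemma wn_tendsto (t : ℝ) : Tendsto (fun n : ℕ => wn n t) atTop (𝓝 (wt t)) := by
  have h : Tendsto (fun n : ℕ => wt t - wt (n : ℝ)) atTop (𝓝 (wt t - 0)) :=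
    tendsto_const_nhds.sub wt_tendsto
  rw [sub_zero] at h
  have h2 : Tendsto (fun n : ℕ => max 0 (wt t - wt (n : ℝ))) atTop (𝓝 (max 0 (wt t))) :=
    (tendsto_const_nhds (x := (0 : ℝ))).max h
  rwa [max_eq_right (wt_nonneg t)] at h2

private lemma wn_integral (n : ℕ) : (∫ t in (0 : ℝ)..n, wn n t) ≤ 1 := by
  have hn : (0 : ℝ) ≤ n := Nat.cast_nonneg n
  have h1 : (∫ t in (0 : ℝ)..n, wn n t) ≤ ∫ t in (0 : ℝ)..n, wt t :=
    intervalIntegral.integral_mono_on hn ((wn_cont n).intervalIntegrable _ _)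
      (wt_cont.intervalIntegrable _ _) fun t _ => wn_le_wt n t
  have h2 : ∀ t ∈ Set.uIcc (0 : ℝ) n, HasDerivAt (fun t : ℝ => -(1 + t)⁻¹) (wt t) t := by
    intro t ht
    rw [Set.uIcc_of_le hn] at ht
    have h0 : (1 : ℝ) + t ≠ 0 := by have := ht.1; positivity
    have h3 : HasDerivAt (fun t : ℝ => (1 + t)⁻¹) (-1 / (1 + t) ^ 2) t := by
      exact ((hasDerivAt_id' t).const_add 1).fun_inv h0
    have h4 := h3.neg
    have h5 : wt t = -(-1 / (1 + t) ^ 2) := by
      unfold wt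
      rw [abs_of_nonneg ht.1]
      ring
    rw [h5]
    exact h4
  have h3 := intervalIntegral.integral_eq_sub_of_hasDerivAt h2 (wt_cont.intervalIntegrable _ _)
  rw [h3] at h1
  refine h1.trans ?_
  have : 0 ≤ (1 + (n : ℝ))⁻¹ := by positivity
  norm_num
  linarith

/-! ### Integrability on circles -/

private lemma circleIntegrable_of_local {f : ℂ → ℝ} {r : ℝ} (hr : 0 < r)
    (h : ∀ s, ‖s‖ = r → ∃ g : ℂ → ℝ, (∀ᶠ z in 𝓝 s, ContinuousAt g z) ∧ f =ᶠ[𝓝[≠] s] g) :
    CircleIntegrable f 0 r := by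
  have hl : LocallyIntegrable (fun θ : ℝ => f (circleMap 0 r θ)) volume := by
    intro θ
    obtain ⟨g, hg1, hg2⟩ := h (circleMap 0 r θ) (by simp [abs_of_pos hr])
    have hc : ContinuousAt (circleMap 0 r) θ := (continuous_circleMap 0 r).continuousAt
    have h1 : ∀ᶠ φ in 𝓝 θ, ContinuousAt (fun φ => g (circleMap 0 r φ)) φ := by
      filter_upwards [hc.eventually hg1] with φ hφ
      exact hφ.comp (continuous_circleMap 0 r).continuousAt
    have h2 : ∀ᶠ φ in 𝓝 θ, φ ≠ θ → f (circleMap 0 r φ) = g (circleMap 0 r φ) := by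
      have h3 : ∀ᶠ z in 𝓝 (circleMap 0 r θ), z ≠ circleMap 0 r θ → f z = g z :=
        eventually_nhdsWithin_iff.1 hg2
      have h4 : ∀ᶠ φ in 𝓝 θ, |φ - θ| < 2 * Real.pi := by
        have : ContinuousAt (fun φ : ℝ => |φ - θ|) θ := by fun_prop
        have h5 := this.tendsto
        rw [sub_self, abs_zero] at h5
        exact h5.eventually (gt_mem_nhds (by positivity))
      filter_upwards [hc.eventually h3, h4] with φ h5 h6 hne
      refine h5 fun h7 => hne ?_
      exact eq_of_circleMap_eq hr.ne' h6 h7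
    obtain ⟨ε, hε, hball⟩ := Metric.eventually_nhds_iff_ball.1 (h1.and h2)
    refine ⟨Set.Icc (θ - ε / 2) (θ + ε / 2), Icc_mem_nhds (by linarith) (by linarith), ?_⟩
    have hsub : ∀ φ ∈ Set.Icc (θ - ε / 2) (θ + ε / 2), φ ∈ Metric.ball θ ε := by
      intro φ hφ
      rw [Metric.mem_ball, Real.dist_eq, abs_lt]
      constructor <;> linarith [hφ.1, hφ.2]
    have hcont : ContinuousOn (fun φ => g (circleMap 0 r φ)) (Set.Icc (θ - ε / 2) (θ + ε / 2)) :=
      fun φ hφ => (hball φ (hsub φ hφ)).1.continuousWithinAt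
    refine hcont.integrableOn_Icc.congr_fun_ae ?_
    rw [EventuallyEq, ae_restrict_iff' measurableSet_Icc]
    have hne : ∀ᵐ φ : ℝ, φ ≠ θ := by
      rw [ae_iff]
      simp
    filter_upwards [hne] with φ h3 h4
    exact ((hball φ (hsub φ h4)).2 h3).symm
  unfold CircleIntegrable
  rw [intervalIntegrable_iff_integrableOn_Icc_of_le (by positivity)]
  exact hl.integrableOn_isCompact isCompact_Icc

private lemma circleIntegrable_wn {R₀ : ℝ} {u : ℂ → ℂ} (hu : MeroPunct R₀ u) (n : ℕ) {x : ℝ}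
    (hx : Real.exp (-x) < R₀) :
    CircleIntegrable (fun z => wn n (Real.log ‖u z‖) * ‖z * deriv u z / u z‖ ^ 2) 0
      (Real.exp (-x)) := by
  refine circleIntegrable_of_local (Real.exp_pos _) fun s hs => ?_
  have hs0 : 0 < ‖s‖ := by rw [hs]; exact Real.exp_pos _
  have hs1 : ‖s‖ < R₀ := by rw [hs]; exact hx
  have hm := hu.mero s hs0 hs1
  have ho := hu.ord s hs0 hs1
  rcases eq_or_ne (meromorphicOrderAt u s) 0 with h0 | h0
  · obtain ⟨g, hg, hgs, hug⟩ := (meromorphicOrderAt_ne_top_iff hm).1 ho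
    rw [h0] at hug
    have hug' : u =ᶠ[𝓝[≠] s] g := by
      filter_upwards [hug] with z hz
      rw [hz]
      simp
    refine ⟨fun z => wn n (Real.log ‖g z‖) * ‖z * deriv g z / g z‖ ^ 2, ?_, ?_⟩
    · have h1 : ∀ᶠ z in 𝓝 s, g z ≠ 0 := hg.continuousAt.eventually_ne hgs
      filter_upwards [h1, hg.eventually_analyticAt] with z h2 h3
      have h4 := h3.continuousAt
      have h5 := h3.deriv.continuousAt
      refine ((wn_cont n).continuousAt.comp ?_).mul ?_
      · exact h4.norm.log (norm_ne_zero_iff.2 h2)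
      · exact ((continuousAt_id.mul h5).div h4 h2).norm.pow 2
    · filter_upwards [hug', hug'.nhdsNE_deriv] with z h1 h2
      rw [h1, h2]
  · refine ⟨fun _ => 0, Eventually.of_forall fun _ => continuousAt_const, ?_⟩
    have key : ∀ᶠ z in 𝓝[≠] s, (n : ℝ) ≤ |Real.log ‖u z‖| := by
      rcases lt_or_gt_of_ne h0 with h1 | h1
      · have h2 := (tendsto_cobounded_iff_meromorphicOrderAt_neg hm).2 h1
        have h3 : Tendsto (fun z => Real.log ‖u z‖) (𝓝[≠] s) atTop :=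
          Real.tendsto_log_atTop.comp (tendsto_norm_cobounded_atTop.comp h2)
        filter_upwards [h3.eventually_ge_atTop (n : ℝ)] with z hz
        exact hz.trans (le_abs_self _)
      · have h2 := (tendsto_zero_iff_meromorphicOrderAt_pos hm).2 h1
        have hne := (meromorphicOrderAt_ne_top_iff_eventually_ne_zero hm).1 ho
        have h3 : Tendsto (fun z => ‖u z‖) (𝓝[≠] s) (𝓝[>] 0) := by
          rw [tendsto_nhdsWithin_iff]
          refine ⟨by simpa using h2.norm, ?_⟩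
          filter_upwards [hne] with z hz
          exact norm_pos_iff.2 hz
        have h4 : Tendsto (fun z => Real.log ‖u z‖) (𝓝[≠] s) atBot :=
          Real.tendsto_log_nhdsGT_zero.comp h3
        filter_upwards [h4.eventually_le_atBot (-(n : ℝ))] with z hz
        exact (by linarith : (n : ℝ) ≤ -Real.log ‖u z‖).trans (neg_le_abs _)
    filter_upwards [key] with z hz
    rw [wn_zero hz, zero_mul]

/-! ### Pointwise inequality -/

private lemma posLog_le_half_log (y : ℝ) : Real.posLog y ≤ 1 / 2 * Real.log (1 + y ^ 2) := by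
  unfold Real.posLog
  refine max_le (mul_nonneg (by norm_num) (Real.log_nonneg (by nlinarith [sq_nonneg y]))) ?_
  rcases eq_or_ne y 0 with rfl | hy
  · simp
  · have h : Real.log (y ^ 2) ≤ Real.log (1 + y ^ 2) :=
      Real.log_le_log (by positivity) (by linarith)
    rw [Real.log_pow] at h
    push_cast at h
    linarith

private lemma log_tangent {a A : ℝ} (ha : 0 ≤ a) (hA : 0 ≤ A) :
    Real.log (1 + a) ≤ Real.log (1 + A) + (a - A) / (1 + A) := by
  have h1 : 0 < 1 + a := by linarith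
  have h2 : 0 < 1 + A := by linarith
  have h3 := Real.log_le_sub_one_of_pos (div_pos h1 h2)
  rw [Real.log_div h1.ne' h2.ne'] at h3
  have h4 : (1 + a) / (1 + A) - 1 = (a - A) / (1 + A) := by
    field_simp
    ring
  linarith

/-- The pointwise inequality. -/
private lemma pointwise {z : ℂ} {x : ℝ} (hz : ‖z‖ = Real.exp (-x)) (w d : ℂ) {A B : ℝ}
    (hA : 0 ≤ A) (hB : 0 ≤ B) :
    Real.posLog ‖d / w‖ ≤ 1 / 2 * (Real.log (1 + A) +
      (wt (Real.log ‖w‖) * ‖z * d / w‖ ^ 2 - A) / (1 + A)) +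
      (Real.log (1 + B) + (|Real.log ‖w‖| - B) / (1 + B)) + |x| := by
  set L := Real.log ‖w‖ with hL
  set y := ‖z * d / w‖ with hy
  have hzpos : 0 < ‖z‖ := by rw [hz]; exact Real.exp_pos _
  have e1 : ‖d / w‖ = y * Real.exp x := by
    rw [hy, mul_div_assoc, norm_mul, hz, Real.exp_neg]
    field_simp
  have h1 : Real.posLog ‖d / w‖ ≤ Real.posLog y + |x| := by
    rw [e1]
    refine Real.posLog_mul.trans ?_
    have : Real.posLog (Real.exp x) ≤ |x| := by
      unfold Real.posLog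
      rw [Real.log_exp]
      exact max_le (abs_nonneg _) (le_abs_self _)
    linarith
  have hy0 : 0 ≤ y := norm_nonneg _
  have hL1 : 0 < 1 + |L| := by positivity
  have hg0 : 0 ≤ wt L * y ^ 2 := mul_nonneg (wt_nonneg _) (sq_nonneg _)
  have h2 : Real.log (1 + y ^ 2) ≤ Real.log (1 + wt L * y ^ 2) + 2 * Real.log (1 + |L|) := by
    have h3 : (1 : ℝ) + y ^ 2 ≤ (1 + wt L * y ^ 2) * (1 + |L|) ^ 2 := by
      have h4 : (1 + wt L * y ^ 2) * (1 + |L|) ^ 2 = (1 + |L|) ^ 2 + y ^ 2 := by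
        unfold wt
        field_simp
      rw [h4]
      have : 0 ≤ |L| := abs_nonneg L
      nlinarith
    have h5 := Real.log_le_log (by positivity) h3
    rw [Real.log_mul (by positivity) (by positivity), Real.log_pow] at h5
    push_cast at h5
    exact h5
  have h3 := posLog_le_half_log y
  have h4 := log_tangent hg0 hA
  have h5 := log_tangent (abs_nonneg L) hB
  linarith

/-! ### Bounds of logarithms -/

private lemma log_le_eps {η : ℝ} (hη : 0 < η) {t : ℝ} (ht : 0 ≤ t) :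
    Real.log (1 + t) ≤ η * t + (η + |Real.log η|) := by
  have h1 : 0 < 1 + t := by linarith
  have h2 := Real.log_le_sub_one_of_pos (mul_pos hη h1)
  rw [Real.log_mul hη.ne' h1.ne'] at h2
  have := neg_abs_le (Real.log η)
  have h3 : η * (1 + t) = η * t + η := by ring
  rw [h3] at h2
  have := le_abs_self (Real.log η)
  have := neg_le_abs (Real.log η)
  linarith

/-! ### The limit of the weights -/

private lemma limit_wn {R₀ : ℝ} {u : ℂ → ℂ} (hu : MeroPunct R₀ u) {x A : ℝ}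
    (hx : Real.exp (-x) < R₀) (hA : 0 ≤ A)
    (h : ∀ n : ℕ, mean (fun z => wn n (Real.log ‖u z‖) * ‖z * deriv u z / u z‖ ^ 2) x ≤ A) :
    CircleIntegrable (fun z => wt (Real.log ‖u z‖) * ‖z * deriv u z / u z‖ ^ 2) 0
      (Real.exp (-x)) ∧
    mean (fun z => wt (Real.log ‖u z‖) * ‖z * deriv u z / u z‖ ^ 2) x ≤ A := by
  set r := Real.exp (-x) with hr
  set F : ℕ → ℝ → ℝ := fun n θ => wn n (Real.log ‖u (circleMap 0 r θ)‖) *
    ‖circleMap 0 r θ * deriv u (circleMap 0 r θ) / u (circleMap 0 r θ)‖ ^ 2 with hF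
  set G : ℝ → ℝ := fun θ => wt (Real.log ‖u (circleMap 0 r θ)‖) *
    ‖circleMap 0 r θ * deriv u (circleMap 0 r θ) / u (circleMap 0 r θ)‖ ^ 2 with hG
  set μ : Measure ℝ := volume.restrict (Set.Ioc 0 (2 * Real.pi)) with hμ
  have hpi : (0 : ℝ) < 2 * Real.pi := by positivity
  have hFi : ∀ n, Integrable (F n) μ := by
    intro n
    have h1 := circleIntegrable_wn hu n hx
    unfold CircleIntegrable at h1
    rw [intervalIntegrable_iff_integrableOn_Ioc_of_le hpi.le] at h1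
    exact h1
  have hF0 : ∀ n θ, 0 ≤ F n θ := fun n θ => mul_nonneg (wn_nonneg _ _) (sq_nonneg _)
  have hG0 : ∀ θ, 0 ≤ G θ := fun θ => mul_nonneg (wt_nonneg _) (sq_nonneg _)
  have hlim : ∀ θ, Tendsto (fun n => F n θ) atTop (𝓝 (G θ)) := fun θ =>
    (wn_tendsto _).mul_const _
  have hFint : ∀ n, ∫ θ, F n θ ∂μ ≤ 2 * Real.pi * A := by
    intro n
    have h1 := h n
    unfold mean at h1
    rw [Real.circleAverage_def, smul_eq_mul, intervalIntegral.integral_of_le hpi.le] at h1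
    have h2 := mul_le_mul_of_nonneg_left h1 hpi.le
    rw [← mul_assoc, mul_inv_cancel₀ hpi.ne', one_mul] at h2
    exact h2
  have hmeas : AEStronglyMeasurable G μ :=
    aestronglyMeasurable_of_tendsto_ae atTop (fun n => (hFi n).aestronglyMeasurable)
      (Eventually.of_forall hlim)
  have hlint : ∫⁻ θ, ENNReal.ofReal (G θ) ∂μ ≤ ENNReal.ofReal (2 * Real.pi * A) := by
    have h1 := lintegral_liminf_le' (μ := μ) (f := fun n θ => ENNReal.ofReal (F n θ))
      (u := atTop) fun n => (hFi n).aestronglyMeasurable.aemeasurable.ennreal_ofReal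
    have h2 : ∀ θ, liminf (fun n => ENNReal.ofReal (F n θ)) atTop = ENNReal.ofReal (G θ) :=
      fun θ => (ENNReal.tendsto_ofReal (hlim θ)).liminf_eq
    simp only [h2] at h1
    refine h1.trans ?_
    have h3 : liminf (fun n => ∫⁻ θ, ENNReal.ofReal (F n θ) ∂μ) atTop ≤
        liminf (fun _ : ℕ => ENNReal.ofReal (2 * Real.pi * A)) atTop := by
      refine liminf_le_liminf (Eventually.of_forall fun n => ?_)
      rw [← ofReal_integral_eq_lintegral_ofReal (hFi n) (Eventually.of_forall (hF0 n))]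
      exact ENNReal.ofReal_le_ofReal (hFint n)
    rwa [liminf_const] at h3
  have hGi : Integrable G μ := by
    refine ⟨hmeas, ?_⟩
    rw [hasFiniteIntegral_iff_ofReal (Eventually.of_forall hG0)]
    exact hlint.trans_lt ENNReal.ofReal_lt_top
  refine ⟨?_, ?_⟩
  · unfold CircleIntegrable
    rw [intervalIntegrable_iff_integrableOn_Ioc_of_le hpi.le]
    exact hGi
  · unfold mean
    rw [Real.circleAverage_def, smul_eq_mul, intervalIntegral.integral_of_le hpi.le]
    have h1 : ∫ θ, G θ ∂μ ≤ 2 * Real.pi * A := by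
      rw [integral_eq_lintegral_of_nonneg_ae (Eventually.of_forall hG0) hmeas]
      have h2 := ENNReal.toReal_mono ENNReal.ofReal_ne_top hlint
      rwa [ENNReal.toReal_ofReal (by positivity)] at h2
    have h2 := mul_le_mul_of_nonneg_left h1 (inv_nonneg.2 hpi.le)
    rw [← mul_assoc, inv_mul_cancel₀ hpi.ne', one_mul] at h2
    exact h2

/-- The bound of the mean of `posLog ‖u' / u‖`. -/
private lemma mean_bound {R₀ : ℝ} {u : ℂ → ℂ} (hu : MeroPunct R₀ u) {x A B : ℝ}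
    (hx : Real.exp (-x) < R₀) (hA : 0 ≤ A)
    (h : ∀ n : ℕ, mean (fun z => wn n (Real.log ‖u z‖) * ‖z * deriv u z / u z‖ ^ 2) x ≤ A)
    (hB : mean (fun z => |Real.log ‖u z‖|) x ≤ B) :
    mean (fun z => Real.posLog ‖deriv u z / u z‖) x ≤
      1 / 2 * Real.log (1 + A) + Real.log (1 + B) + |x| := by
  obtain ⟨hgi, hgm⟩ := limit_wn hu hx hA h
  have hB0 : 0 ≤ B := (Real.circleAverage_nonneg_of_nonneg fun z _ => abs_nonneg _).trans hB
  have hR0 : 0 ≤ 1 / 2 * Real.log (1 + A) + Real.log (1 + B) + |x| := by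
    have h1 := Real.log_nonneg (by linarith : (1 : ℝ) ≤ 1 + A)
    have h2 := Real.log_nonneg (by linarith : (1 : ℝ) ≤ 1 + B)
    have := abs_nonneg x
    linarith
  by_cases hP : CircleIntegrable (fun z => Real.posLog ‖deriv u z / u z‖) 0 (Real.exp (-x))
  swap
  · unfold mean
    rw [Real.circleAverage.integral_undef hP]
    exact hR0
  have hL : CircleIntegrable (fun z => |Real.log ‖u z‖|) 0 (Real.exp (-x)) :=
    (MeroPunct.circleIntegrable_log hu hx).abs
  set g : ℂ → ℝ := fun z => wt (Real.log ‖u z‖) * ‖z * deriv u z / u z‖ ^ 2 with hg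
  set l : ℂ → ℝ := fun z => |Real.log ‖u z‖| with hl
  -- the upper bound as a linear combination
  set c : ℝ := 1 / 2 * (Real.log (1 + A) - A / (1 + A)) + (Real.log (1 + B) - B / (1 + B)) + |x|
    with hc
  have hci : CircleIntegrable (fun _ : ℂ => c) 0 (Real.exp (-x)) := circleIntegrable_const c 0 _
  have h1i : CircleIntegrable (fun z => (1 / (2 * (1 + A))) • g z) 0 (Real.exp (-x)) :=
    hgi.const_smul
  have h2i : CircleIntegrable (fun z => (1 / (1 + B)) • l z) 0 (Real.exp (-x)) :=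
    hL.const_smul
  have hsi : CircleIntegrable (fun z => (1 / (2 * (1 + A))) • g z + (1 / (1 + B)) • l z) 0
      (Real.exp (-x)) := h1i.add h2i
  have hti : CircleIntegrable
      (fun z => ((1 / (2 * (1 + A))) • g z + (1 / (1 + B)) • l z) + c) 0
      (Real.exp (-x)) := hsi.add hci
  have hmono : Real.circleAverage (fun z => Real.posLog ‖deriv u z / u z‖) 0 (Real.exp (-x)) ≤
      Real.circleAverage (fun z => ((1 / (2 * (1 + A))) • g z + (1 / (1 + B)) • l z) + c) 0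
        (Real.exp (-x)) := by
    refine Real.circleAverage_mono hP hti fun z hz => ?_
    rw [abs_of_pos (Real.exp_pos _), mem_sphere_zero_iff_norm] at hz
    have h1 := pointwise hz (u z) (deriv u z) hA hB0
    refine h1.trans (le_of_eq ?_)
    rw [hc, hg, hl, smul_eq_mul, smul_eq_mul]
    have hA1 : (1 : ℝ) + A ≠ 0 := by linarith
    have hB1 : (1 : ℝ) + B ≠ 0 := by linarith
    field_simp
    ring
  unfold mean at hgm hB ⊢
  rw [Real.circleAverage_fun_add hsi hci, Real.circleAverage_fun_add h1i h2i,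
    Real.circleAverage_fun_smul, Real.circleAverage_fun_smul, Real.circleAverage_const,
    smul_eq_mul, smul_eq_mul] at hmono
  refine hmono.trans ?_
  have hA1 : (0 : ℝ) < 1 + A := by linarith
  have hB1 : (0 : ℝ) < 1 + B := by linarith
  have e1 : 1 / (2 * (1 + A)) * Real.circleAverage g 0 (Real.exp (-x)) ≤
      1 / (2 * (1 + A)) * A := mul_le_mul_of_nonneg_left hgm (by positivity)
  have e2 : 1 / (1 + B) * Real.circleAverage l 0 (Real.exp (-x)) ≤ 1 / (1 + B) * B :=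
    mul_le_mul_of_nonneg_left hB (by positivity)
  have e3 : 1 / (2 * (1 + A)) * A = 1 / 2 * (A / (1 + A)) := by field_simp
  have e4 : 1 / (1 + B) * B = B / (1 + B) := by field_simp
  rw [hc]
  linarith

private lemma locFin_neg {R₀ : ℝ} {u : ℂ → ℂ} (hu : MeroPunct R₀ u) :
    LocFin R₀ (fun s => max (-(ordZ u s : ℝ)) 0) := by
  intro r b hr hb
  refine (MeroPunct.locFin hu r b hr hb).subset fun s hs => ?_
  refine ⟨hs.1, hs.2.1, fun h => hs.2.2 ?_⟩
  simp only [h, neg_zero, max_self]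

private lemma nevT_radius {R₀ R₁ R' : ℝ} (h1 : 0 < R₁) (h : R₁ < R₀) (h1' : 0 < R') (h' : R' < R₀)
    {u : ℂ → ℂ} (hu : MeroPunct R₀ u) :
    ∃ C : ℝ, ∀ x, Real.exp (-x) < R₁ → Real.exp (-x) < R' →
      nevT u R' x ≤ nevT u R₁ x + C * (1 + |x|) := by
  rcases le_total R₁ R' with hle | hle
  · obtain ⟨C, hC⟩ := cnt_radius h1 hle h' (locFin_neg hu)
    refine ⟨C, fun x hx _ => ?_⟩
    have h2 := (abs_le.1 (hC x hx)).2
    unfold nevT
    linarith
  · obtain ⟨C, hC⟩ := cnt_radius h1' hle h (locFin_neg hu)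
    refine ⟨C, fun x _ hx => ?_⟩
    have h2 := (abs_le.1 (hC x hx)).1
    unfold nevT
    linarith

/-- Lemma on the logarithmic derivative. -/
theorem MeroPunct.logDeriv_negl {R₀ R₁ : ℝ} (h1 : 0 < R₁) (h : R₁ < R₀) {u : ℂ → ℂ}
    (hu : MeroPunct R₀ u) :
    Negl R₁ (nevT u R₁) (mean fun z => Real.posLog ‖deriv u z / u z‖) := by
  intro ε hε
  have hR₀ : 0 < R₀ := h1.trans h
  obtain ⟨R', C₀, hR', hR'0, hpot⟩ := potential_ineq hR₀ hu
  obtain ⟨C₁, hC₁⟩ := MeroPunct.mean_abs_add_cnt hu hR' hR'0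
  obtain ⟨C₂, hC₂⟩ := nevT_radius h1 h hR' hR'0 hu
  have hpot' : ∀ n : ℕ, _ := fun n => hpot (wn n) n (wn_cont n) (wn_nonneg n) (wn_neg n)
    (Nat.cast_nonneg n) (fun t ht => wn_zero (ht.trans (le_abs_self t))) (wn_integral n)
  set x₀ : ℝ := -Real.log R' with hx₀
  set G : ℕ → ℝ → ℝ := fun n x =>
    mean (fun z => wn n (Real.log ‖u z‖) * ‖z * deriv u z / u z‖ ^ 2) x with hG
  set Bd : ℝ → ℝ := fun x => mean (fun z => |Real.log ‖u z‖|) x +
    cnt (fun s => |(ordZ u s : ℝ)|) R' (Real.exp (-x)) + |C₀| * (1 + |x|) with hBd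
  have hexp : ∀ x, x₀ ≤ x → Real.exp (-x) < R₀ := by
    intro x hx
    have : Real.exp (-x) ≤ R' := by
      rw [← Real.exp_log hR']
      refine Real.exp_le_exp.2 ?_
      rw [hx₀] at hx
      linarith
    linarith
  have hG0 : ∀ n x, 0 ≤ G n x := fun n x =>
    Real.circleAverage_nonneg_of_nonneg fun z _ => mul_nonneg (wn_nonneg _ _) (sq_nonneg _)
  have hH : ∀ n x, x₀ ≤ x → (∫ y in x₀..x, (x - y) * G n y) ≤ Bd x := by
    intro n x hx
    refine ((hpot' n).2 x hx).trans ?_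
    rw [hBd]
    have := le_abs_self C₀
    have := abs_nonneg x
    have h3 : C₀ * (1 + |x|) ≤ |C₀| * (1 + |x|) :=
      mul_le_mul_of_nonneg_right (le_abs_self C₀) (by linarith)
    show _ ≤ mean (fun z => |Real.log ‖u z‖|) x +
      cnt (fun s => |(ordZ u s : ℝ)|) R' (Real.exp (-x)) + |C₀| * (1 + |x|)
    linarith
  have hH0 : ∀ n x, x₀ ≤ x → 0 ≤ ∫ y in x₀..x, (x - y) * G n y := by
    intro n x hx
    refine intervalIntegral.integral_nonneg hx fun y hy => ?_
    exact mul_nonneg (by linarith [hy.2]) (hG0 n y)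
  have hBd0 : ∀ x, x₀ ≤ x → 0 ≤ Bd x := fun x hx => (hH0 0 x hx).trans (hH 0 x hx)
  set En : ℕ → Set ℝ := fun n => {x | x₀ ≤ x ∧ 4 * (1 + Bd x) ^ 4 < G n x} with hEn
  have hEn2 : ∀ n, volume (En n) ≤ 2 := by
    intro n
    refine (measure_mono ?_).trans (calculus_lemma (hpot' n).1 fun x _ => hG0 n x)
    rintro x ⟨hx, hx2⟩
    refine ⟨hx, lt_of_le_of_lt ?_ hx2⟩
    have h3 := hH n x hx
    have h4 := hH0 n x hx
    refine mul_le_mul_of_nonneg_left (pow_le_pow_left₀ (by linarith) (by linarith) 4) (by norm_num)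
  have hmono : Monotone En := by
    intro n m hnm x hx
    refine ⟨hx.1, lt_of_lt_of_le hx.2 ?_⟩
    refine Real.circleAverage_mono (circleIntegrable_wn hu n (hexp x hx.1))
      (circleIntegrable_wn hu m (hexp x hx.1)) fun z _ => ?_
    exact mul_le_mul_of_nonneg_right (wn_mono hnm _) (sq_nonneg _)
  have hEU : volume (⋃ n, En n) ≤ 2 := by
    rw [hmono.measure_iUnion]
    exact iSup_le hEn2
  set η : ℝ := ε / 6 with hη
  have hη0 : 0 < η := by positivity
  refine ⟨3 + 3 * (η + |Real.log η|) + ε / 2 * abs (2 * C₂ + C₁ + |C₀|),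
    (⋃ n, En n) ∪ Set.Icc (-Real.log R₁) x₀, ?_, ?_⟩
  · refine ne_top_of_le_ne_top ?_ (measure_union_le _ _)
    refine ENNReal.add_ne_top.2 ⟨ne_top_of_le_ne_top (by norm_num) hEU, ?_⟩
    rw [Real.volume_Icc]
    exact ENNReal.ofReal_ne_top
  · intro x hx hxE
    have hx1 : -Real.log R₁ < x := by
      have := Real.log_lt_log (Real.exp_pos _) hx
      rw [Real.log_exp] at this
      linarith
    have hx2 : x₀ < x := by
      by_contra hcon
      exact hxE (Or.inr ⟨hx1.le, not_lt.1 hcon⟩)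
    have hx3 : Real.exp (-x) < R' := by
      rw [← Real.exp_log hR']
      refine Real.exp_lt_exp.2 ?_
      rw [hx₀] at hx2
      linarith
    have hGA : ∀ n, G n x ≤ 4 * (1 + Bd x) ^ 4 := by
      intro n
      by_contra hcon
      exact hxE (Or.inl (Set.mem_iUnion.2 ⟨n, hx2.le, not_le.1 hcon⟩))
    have ht := hBd0 x hx2.le
    have hax : 0 ≤ |x| := abs_nonneg x
    have hcnt : 0 ≤ cnt (fun s => |(ordZ u s : ℝ)|) R' (Real.exp (-x)) :=
      cnt_nonneg (Real.exp_pos _) fun s => abs_nonneg _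
    have hB : mean (fun z => |Real.log ‖u z‖|) x ≤ Bd x := by
      have h3 : 0 ≤ |C₀| * (1 + |x|) := by positivity
      show _ ≤ mean (fun z => |Real.log ‖u z‖|) x +
        cnt (fun s => |(ordZ u s : ℝ)|) R' (Real.exp (-x)) + |C₀| * (1 + |x|)
      linarith
    have hmain := mean_bound hu (hexp x hx2.le) (A := 4 * (1 + Bd x) ^ 4) (B := Bd x)
      (by positivity) hGA hB
    have hlog1 : Real.log (1 + 4 * (1 + Bd x) ^ 4) ≤ 4 + 4 * Real.log (1 + Bd x) := by
      have h3 : 1 + 4 * (1 + Bd x) ^ 4 ≤ 5 * (1 + Bd x) ^ 4 := by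
        have : (1 : ℝ) ≤ (1 + Bd x) ^ 4 := one_le_pow₀ (by linarith)
        linarith
      have h4 := Real.log_le_log (by positivity) h3
      rw [Real.log_mul (by norm_num) (by positivity), Real.log_pow] at h4
      have h5 := Real.log_le_sub_one_of_pos (by norm_num : (0 : ℝ) < 5)
      push_cast at h4
      linarith
    have hlog2 := log_le_eps hη0 ht
    have hT := hC₁ x hx3
    have hT2 := hC₂ x hx hx3
    have hBdle : Bd x ≤ 2 * nevT u R₁ x + (2 * C₂ + C₁ + |C₀|) * (1 + |x|) := by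
      show mean (fun z => |Real.log ‖u z‖|) x +
        cnt (fun s => |(ordZ u s : ℝ)|) R' (Real.exp (-x)) + |C₀| * (1 + |x|) ≤ _
      nlinarith
    have hBdle2 : Bd x ≤ 2 * nevT u R₁ x + abs (2 * C₂ + C₁ + |C₀|) * (1 + |x|) := by
      have : (2 * C₂ + C₁ + |C₀|) * (1 + |x|) ≤ abs (2 * C₂ + C₁ + |C₀|) * (1 + |x|) :=
        mul_le_mul_of_nonneg_right (le_abs_self _) (by linarith)
      linarith
    have h6 : 3 * (η * Bd x) ≤ ε * nevT u R₁ x +
        ε / 2 * abs (2 * C₂ + C₁ + |C₀|) * (1 + |x|) := by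
      have h7 := mul_le_mul_of_nonneg_left hBdle2 (by positivity : 0 ≤ 3 * η)
      rw [hη] at h7 ⊢
      linarith
    have h8 : 0 ≤ 3 * (η + |Real.log η|) * |x| := by positivity
    show mean (fun z => Real.posLog ‖deriv u z / u z‖) x ≤ _
    nlinarith

end Pool.Agent.H62.FC

end
end
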