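import Pool.Agent.H43.TL2.M02
import Pool.Agent.H43.TL2.M06
import Pool.Agent.H43.TL2.M105
import Pool.Agent.H43.TL2.M14
import Pool.Agent.H43.TL2.M45

/-! The parts of this file: H17GT.Main, H23.Bridge, H62.LGC.Coef, H62.LGC.Dom, H62.LGC.Cert, H62.LGC.Ev, H62.LGC.EvDer, H62.LGC.EvPlace, H62.LGC.NevMul, H62.LGC.NevLog, H62.LGC.Pull, H62.LGC.Bound. -/

section

/-!
# Subvarieties of generic complete intersections are of general type
-/

open MvPolynomial

noncomputable section

namespace Pool.Agent.H17GT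

variable {N c : ℕ}

theorem essFiniteType_functionField (P : Ideal (MvPolynomial (Fin (N + 1)) ℂ)) [P.IsPrime] :
    Algebra.EssFiniteType ℂ (functionField P) := by
  rw [IntermediateField.essFiniteType_iff]
  have hfin : {y | ∃ i j, y = coordFun P i / coordFun P j}.Finite := by
    have : {y | ∃ i j, y = coordFun P i / coordFun P j} =
        Set.range fun q : Fin (N + 1) × Fin (N + 1) => coordFun P q.1 / coordFun P q.2 := by
      ext y
      constructor
      · rintro ⟨i, j, rfl⟩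
        exact ⟨(i, j), rfl⟩
      · rintro ⟨⟨i, j⟩, rfl⟩
        exact ⟨i, j, rfl⟩
    rw [this]
    exact Set.finite_range _
  refine ⟨hfin.toFinset, ?_⟩
  rw [functionField, Set.Finite.coe_toFinset]

end Pool.Agent.H17GT

end
end

section

/-!
# Comparison of two forms of the definitions

The definitions in `Fano.lean` (with subsets of the function field) agree with those in
`Defs.lean` (with subalgebras of the function field).
-/

open AlgebraicGeometry CategoryTheory MeasureTheory Filter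
open scoped ENNReal

set_option linter.style.haveILetI false

noncomputable section

namespace Pool.Agent.H23

section FunctionField

variable {K : Type} [Field K] [Algebra ℂ K] {n : ℕ} {ι : Type} (O : ι → Subalgebra ℂ K)

lemma fano_mem_regularForms {A : Subalgebra ℂ K} {S : Set K} (h : S = (A : Set K))
    (ω : RatForm K n) :
    (show Fano.Form K n from ω) ∈ Fano.regularForms n S ↔ ω ∈ regularForms n A := by
  subst h
  exact Iff.rfl

variable {O' : ι → Set K} (hO : ∀ x, O' x = (O x : Set K))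

include hO

omit hO in
/-- the same prime divisor, in the other form of the definition -/
def ofFano (E : Fano.PrimeDivisorOver K n) : PrimeDivisorOver K n :=
  ⟨E.ord, E.ord_const, E.exists_uniformizer, E.residue_trdeg⟩

end FunctionField

end Pool.Agent.H23

end
end

section

/-!
# LGC Coef: forms on a curve, in terms of a function

`Form.mk c (fun _ => a)` is `c • da`.  HINTS: `exists_coef`: `![a]` is a transcendence basis (`hz`: the transcendence degree is `1`; for
instance `IsTranscendenceBasis` of cardinality one), `exists_basis_kaehler` (`Pool/Agent/H23`) gives `b 0 = D a`, `eq_fc_smul`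
(`Pool/Agent/H23/Forms.lean`): `ω = fc b ω • ιMulti b`.  `exists_local`: `exists_divisorCoords hz (ofFano E)` gives `π = g 0`, `b`, `b 0 = D π`,
`E.ord π = 1` and `dualDer b 0` preserves the local ring; `mem_regularForms_iff` (with `O := ` the subalgebra of the elements of order `≥ 0`,
`valRing E.ord E.ord_const` of `Pool/Agent/H23`, `fano_mem_regularForms`): `η = β • Form.mk 1 (fun _ => π)` with `β = fc b η`, `E.ord β ≥ 0`.
See `exists_frame` in `Pool/Agent/H17R/Frame.lean`, which does the same with more data.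
-/

set_option autoImplicit false

open Pool.Agent.H23.Fano (Form PrimeDivisorOver)
open Pool.Agent.H17LG.Variety (PoleAtMost)
open Pool.Agent.H23 (fc eq_fc_smul exists_basis_kaehler exists_divisorCoords ofFano valRing mem_regularForms_iff fano_mem_regularForms RatForm regularForms)

noncomputable section

namespace Pool.Agent.H62.LGC

variable {K : Type} [Field K] [Algebra ℂ K]

private theorem Coef_mk (c a : K) :
    (Form.mk c fun _ => a : Form K 1) =
      (show Form K 1 from c • (exteriorPower.ιMulti K 1 (fun _ : Fin 1 => KaehlerDifferential.D ℂ K a))) :=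
  rfl

private theorem Coef_eq {b : Module.Basis (Fin 1) K Ω[K⁄ℂ]} {a : K}
    (hb : ∀ i, b i = KaehlerDifferential.D ℂ K a) (ω : Form K 1) :
    ω = Form.mk (fc b ω) fun _ => a := by
  have h := eq_fc_smul b ω
  simp only [hb] at h
  exact h

theorem exists_coef [Algebra.EssFiniteType ℂ K] (hz : ∃ z : Fin 1 → K, IsTranscendenceBasis ℂ z) (ω : Form K 1) {a : K}
    (ha : Transcendental ℂ a) : ∃ c : K, ω = Form.mk c fun _ => a := by
  obtain ⟨z, hz⟩ := hz
  have hind : AlgebraicIndependent ℂ (fun _ : Fin 1 => a) :=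
    algebraicIndependent_unique_type_iff.mpr ha
  have hbasis : IsTranscendenceBasis ℂ (fun _ : Fin 1 => a) := by
    apply hind.isTranscendenceBasis_of_trdeg_le_of_finite
    rw [← hz.cardinalMk_eq_trdeg]
  obtain ⟨b, hb⟩ := exists_basis_kaehler hbasis
  exact ⟨_, Coef_eq hb ω⟩

theorem coef_ne_zero {ω : Form K 1} (hω : ω ≠ 0) {a c : K} (h : ω = Form.mk c fun _ => a) : c ≠ 0 := by
  rintro rfl
  apply hω
  rw [h]
  exact zero_smul K _

private theorem Coef_trans {v : AddValuation K (WithTop ℤ)}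
    (hv : ∀ c : ℂ, 0 ≤ v (algebraMap ℂ K c)) {t : K} (ht : v t = 1) : Transcendental ℂ t := by
  intro halg
  have h1 : (minpoly ℂ t).degree = 1 :=
    IsAlgClosed.degree_eq_one_of_irreducible ℂ (minpoly.irreducible halg.isIntegral)
  obtain ⟨c, hc⟩ := minpoly.degree_eq_one_iff.mp h1
  have hc0 : c ≠ 0 := by
    rintro rfl
    rw [map_zero] at hc
    rw [← hc, AddValuation.map_zero] at ht
    exact absurd ht (by simp)
  have h2 := hv c⁻¹
  have h3 : v (algebraMap ℂ K c) + v (algebraMap ℂ K c⁻¹) = 0 := by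
    rw [← AddValuation.map_mul, ← map_mul, mul_inv_cancel₀ hc0, map_one, AddValuation.map_one]
  rw [hc, ht] at h3
  have h4 : (1 : WithTop ℤ) + 0 ≤ 1 + v (algebraMap ℂ K c⁻¹) := add_le_add le_rfl h2
  rw [h3, add_zero] at h4
  exact absurd h4 (by decide)

/-- A form with a pole of order at most `p` along a place, in terms of a local parameter. -/
theorem exists_local [Algebra.EssFiniteType ℂ K] (hz : ∃ z : Fin 1 → K, IsTranscendenceBasis ℂ z) {p m : ℕ}
    {E : PrimeDivisorOver K 1} {f : K} {ω : Form K 1} (hω : ω ≠ 0) (h : PoleAtMost p E m f ω) :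
    ∃ π c : K, Transcendental ℂ π ∧ E.ord π = 1 ∧ ω = Form.mk c (fun _ => π) ∧ 0 ≤ E.ord (f * c ^ m) + p := by
  obtain ⟨z, hz⟩ := hz
  obtain ⟨g, b, hb, hg0, hg, hD⟩ := exists_divisorCoords hz (ofFano E)
  obtain ⟨gg, η, hη, hωη, hpole⟩ := h
  have hb' : ∀ i, b i = KaehlerDifferential.D ℂ K (g 0) := by
    intro i
    have hi : i = 0 := Fin.fin_one_eq_zero i
    rw [hb i, hi]
  have hβ : (0 : WithTop ℤ) ≤ E.ord (fc b η) := by
    have h1 : (show RatForm K 1 from η) ∈ regularForms 1 (valRing E.ord E.ord_const) :=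
      (fano_mem_regularForms (A := valRing E.ord E.ord_const) (S := E.localRing) rfl η).mp hη
    exact (mem_regularForms_iff (valRing E.ord E.ord_const) b hb (fun i => hg i)
      (fun i f hf => hD i f hf) η).mp h1
  refine ⟨g 0, gg * fc b η, Coef_trans E.ord_const hg0, hg0, ?_, ?_⟩
  · rw [hωη]
    have h2 := Coef_eq hb' η
    conv_lhs => rw [h2]
    rw [Coef_mk, Coef_mk]
    exact smul_smul gg (fc b η) _
  · have e : f * (gg * fc b η) ^ m = f * gg ^ m * (fc b η) ^ m := by ring
    rw [e, AddValuation.map_mul, AddValuation.map_pow]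
    have h3 : (0 : WithTop ℤ) ≤ m • E.ord (fc b η) := nsmul_nonneg hβ m
    calc (0 : WithTop ℤ) ≤ E.ord (f * gg ^ m) + p := hpole
      _ = E.ord (f * gg ^ m) + 0 + p := by rw [add_zero]
      _ ≤ E.ord (f * gg ^ m) + m • E.ord (fc b η) + p := by
          gcongr

end Pool.Agent.H62.LGC

end
end

section

/-!
# LGC Dom: a place which dominates a subring

`K` is a function field of transcendence degree one over `ℂ`.  PROOF of `exists_dom`: `y ∈ J`, `y ≠ 0`; `(y : K)` is transcendental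
over `ℂ` (otherwise it is a constant `c ≠ 0`, `ℂ` being algebraically closed, hence a unit of `A`, and `J = ⊤`).  Let `M` be a maximal ideal
of `A` which contains `J`.  By `LocalSubring.exists_le_valuationSubring` (Mathlib, `RingTheory/Valuation/LocalSubring.lean`, applied to
`LocalSubring.ofPrime A.toSubring M`) there is a valuation subring `V` of `K` with `A ⊆ V` and `M` in the maximal ideal of `V`.
Let `B` be the integral closure of `ℂ[y] = Algebra.adjoin ℂ {y}` (or of `Polynomial ℂ`, mapped to `K` by `X ↦ y`, with the algebra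
structure `(Polynomial.aeval y).toAlgebra`) in `K`; `K` is finite over `ℂ(y)` (`EssFiniteType` and algebraic because the transcendence
degree is one), so `B` is a Dedekind domain with fraction field `K` (`integralClosure.isDedekindDomain`,
`integralClosure.isFractionRing_of_finite_extension`).  `B ⊆ V`, because `V` is integrally closed.  `p := (maximal ideal of V) ∩ B` is a prime
ideal, not zero because it contains `y`: a `HeightOneSpectrum`.  The valuation of `p`, as an `AddValuation` (`Place_add`, `Place_phi` of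
`Pool/Agent/H62/FC/Place.lean`, used as in `exists_place`), gives `E`; `residue_trdeg` for `n = 1` is about `Fin 0` (a nonzero polynomial in no
variables is a nonzero constant, its order is `0` by `ord_const` for `c` and `c⁻¹`).  If `a ∈ V` and `E.ord a < 0` then `a⁻¹ = b / s` with
`b ∈ p`, `s ∈ B ∖ p`, so `a⁻¹` is in the maximal ideal of `V`: contradiction.  So `E.ord a ≥ 0` for `a ∈ V`, and `E.ord a > 0` for `a` in the
maximal ideal of `V` (if `E.ord a = 0`, `a ≠ 0`, then `a⁻¹ = b / s` with `s ∉ p`, so `a⁻¹ ∈ V`: contradiction).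
-/

set_option autoImplicit false

open Pool.Agent.H23.Fano (PrimeDivisorOver)

noncomputable section

namespace Pool.Agent.H62.LGC

variable {K : Type} [Field K] [Algebra ℂ K]

open Pool.Agent.H62.FC in
private lemma DomX_place {B : Type} [CommRing B] [IsDedekindDomain B] [Algebra B K]
    [IsFractionRing B K] (V : ValuationSubring K) (hB : ∀ b : B, algebraMap B K b ∈ V)
    (hc : ∀ c : ℂ, ∃ b : B, algebraMap B K b = algebraMap ℂ K c) (y : B) (hy0 : y ≠ 0)
    (hy : V.valuation (algebraMap B K y) < 1) :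
    ∃ E : PrimeDivisorOver K 1, (∀ x ∈ V, 0 ≤ E.ord x) ∧
      ∀ x : K, V.valuation x < 1 → 0 < E.ord x := by
  let j : B →+* V := (algebraMap B K).codRestrict V.toSubring hB
  have hj : ∀ b : B, ((j b : V) : K) = algebraMap B K b := fun b => rfl
  let P : Ideal B := Ideal.comap j (IsLocalRing.maximalIdeal V)
  have hP : ∀ b : B, b ∈ P ↔ V.valuation (algebraMap B K b) < 1 := by
    intro b
    have : b ∈ P ↔ j b ∈ IsLocalRing.maximalIdeal V := Iff.rfl
    rw [this, ← hj, ValuationSubring.valuation_lt_one_iff]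
  have hbot : P ≠ ⊥ := by
    intro h
    apply hy0
    have : y ∈ P := (hP y).mpr hy
    rw [h] at this
    exact this
  let v : IsDedekindDomain.HeightOneSpectrum B := ⟨P, Ideal.IsPrime.comap j, hbot⟩
  have hv : ∀ b : B, v.valuation K (algebraMap B K b) < 1 ↔ V.valuation (algebraMap B K b) < 1 := by
    intro b
    rw [IsDedekindDomain.HeightOneSpectrum.valuation_lt_one_iff_mem]
    exact hP b
  have hle : ∀ b : B, V.valuation (algebraMap B K b) ≤ 1 := fun b =>
    (V.valuation_le_one_iff _).mpr (hB b)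
  -- the valuation ring of `v` is contained in `V`
  have k1 : ∀ x : K, v.valuation K x ≤ 1 → V.valuation x ≤ 1 := by
    intro x hx
    obtain ⟨b, s, hbs⟩ := v.exists_primeCompl_mul_eq_of_integer x hx
    have hs : V.valuation (algebraMap B K (s : B)) = 1 := by
      refine le_antisymm (hle _) (not_lt.mp fun h => s.2 ((hP _).mpr h))
    have := congrArg V.valuation hbs
    rw [map_mul, hs, mul_one] at this
    rw [this]
    exact hle b
  have k2 : ∀ x : K, v.valuation K x < 1 → V.valuation x < 1 := by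
    intro x hx
    obtain ⟨b, s, hbs⟩ := v.exists_primeCompl_mul_eq_of_integer x hx.le
    have hs : V.valuation (algebraMap B K (s : B)) = 1 := by
      refine le_antisymm (hle _) (not_lt.mp fun h => s.2 ((hP _).mpr h))
    have hs' : v.valuation K (algebraMap B K (s : B)) = 1 := by
      refine le_antisymm (v.valuation_le_one _) (not_lt.mp fun h => ?_)
      rw [hv, hs] at h
      exact lt_irrefl _ h
    have h1 := congrArg V.valuation hbs
    have h2 := congrArg (v.valuation K) hbs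
    rw [map_mul, hs, mul_one] at h1
    rw [map_mul, hs', mul_one] at h2
    rw [h1, ← hv, ← h2]
    exact hx
  let W : AddValuation K (WithTop ℤ) := Place_add (v.valuation K)
  have hW : ∀ x : K, W x = Place_phi (v.valuation K x) := fun x => rfl
  have n1 : ∀ x ∈ V, 0 ≤ W x := by
    intro x hx
    rw [hW, Place_phi_nonneg_iff]
    by_contra h
    push Not at h
    have h0 : v.valuation K x⁻¹ < 1 := by
      rw [map_inv₀]
      exact inv_lt_one_of_one_lt₀ h
    have h2 := k2 _ h0
    have hx0 : x ≠ 0 := by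
      rintro rfl
      rw [map_zero] at h
      exact absurd h (by simp)
    have h3 : V.valuation x ≤ 1 := (V.valuation_le_one_iff _).mpr hx
    have h4 : V.valuation x * V.valuation x⁻¹ = 1 := by
      rw [← map_mul, mul_inv_cancel₀ hx0, map_one]
    have h5 : V.valuation x * V.valuation x⁻¹ < 1 :=
      (mul_le_mul' h3 le_rfl).trans_lt (by rw [one_mul]; exact h2)
    exact absurd h4 h5.ne
  have n2 : ∀ x : K, V.valuation x < 1 → 0 < W x := by
    intro x hx
    have h1 : 0 ≤ W x := n1 x ((V.valuation_le_one_iff _).mp hx.le)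
    refine lt_of_le_of_ne h1 fun h => ?_
    by_cases hx0 : x = 0
    · rw [hx0, W.map_zero] at h
      exact absurd h (by simp)
    have h2 : W x + W x⁻¹ = 0 := by
      rw [← W.map_mul, mul_inv_cancel₀ hx0, W.map_one]
    rw [← h, zero_add] at h2
    have h3 : v.valuation K x⁻¹ ≤ 1 := by
      rw [← Place_phi_nonneg_iff, ← hW, h2]
    have h4 := k1 _ h3
    have h5 : V.valuation x * V.valuation x⁻¹ = 1 := by
      rw [← map_mul, mul_inv_cancel₀ hx0, map_one]
    have h6 : V.valuation x * V.valuation x⁻¹ < 1 :=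
      (mul_le_mul' le_rfl h4).trans_lt (by rw [mul_one]; exact hx)
    exact absurd h5 h6.ne
  have nc : ∀ c : ℂ, 0 ≤ W (algebraMap ℂ K c) := by
    intro c
    obtain ⟨b, hb⟩ := hc c
    rw [← hb]
    exact n1 _ (hB b)
  obtain ⟨π, hπ⟩ := v.valuation_exists_uniformizer K
  refine ⟨⟨W, nc, ⟨π, ?_⟩, ⟨fun _ => 0, fun _ => by simp, ?_⟩⟩, n1, n2⟩
  · rw [hW, hπ, Place_phi_exp]
    simp
  · intro p hp
    have : IsEmpty (Fin (1 - 1)) := inferInstanceAs (IsEmpty (Fin 0))
    obtain ⟨c, rfl⟩ : ∃ c : ℂ, p = MvPolynomial.C c :=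
      ⟨_, MvPolynomial.eq_C_of_isEmpty p⟩
    have hc0 : c ≠ 0 := by
      rintro rfl
      exact hp (map_zero _)
    rw [MvPolynomial.aeval_C]
    have h1 : W (algebraMap ℂ K c) + W (algebraMap ℂ K c⁻¹) = 0 := by
      rw [← W.map_mul, ← map_mul, mul_inv_cancel₀ hc0, map_one, W.map_one]
    exact ((add_eq_zero_iff_of_nonneg (nc c) (nc c⁻¹)).mp h1).1

open IntermediateField.algebraAdjoinAdjoin in
theorem exists_dom [Algebra.EssFiniteType ℂ K] (hz : ∃ z : Fin 1 → K, IsTranscendenceBasis ℂ z) (A : Subalgebra ℂ K)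
    (J : Ideal A) (hJ : J ≠ ⊤) (hne : ∃ y ∈ J, y ≠ 0) :
    ∃ E : PrimeDivisorOver K 1, (∀ a ∈ A, 0 ≤ E.ord a) ∧ ∀ y ∈ J, 0 < E.ord (y : K) := by
  obtain ⟨y, hyJ, hy0⟩ := hne
  have hyK : (y : K) ≠ 0 := fun h => hy0 (Subtype.ext h)
  -- `y` is transcendental
  have htr : Transcendental ℂ (y : K) := by
    intro halg
    have h1 := IsAlgClosed.degree_eq_one_of_irreducible ℂ (minpoly.irreducible halg.isIntegral)
    obtain ⟨c, hc⟩ := minpoly.mem_range_of_degree_eq_one ℂ (y : K) h1
    have hc0 : c ≠ 0 := by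
      rintro rfl
      rw [map_zero] at hc
      exact hyK hc.symm
    apply hJ
    rw [Ideal.eq_top_iff_one]
    have h2 : (1 : A) = algebraMap ℂ A c⁻¹ * y := by
      apply Subtype.ext
      change (1 : K) = algebraMap ℂ K c⁻¹ * (y : K)
      rw [← hc, ← map_mul, inv_mul_cancel₀ hc0, map_one]
    rw [h2]
    exact J.mul_mem_left _ hyJ
  let x : Fin 1 → K := fun _ => (y : K)
  have hx : IsTranscendenceBasis ℂ x := by
    have ha : AlgebraicIndependent ℂ x := (algebraicIndependent_singleton_iff 0).mpr htr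
    obtain ⟨z, hz⟩ := hz
    refine ha.isTranscendenceBasis_of_trdeg_le_of_finite ?_
    rw [← hz.cardinalMk_eq_trdeg]
  have : Algebra.IsAlgebraic (IntermediateField.adjoin ℂ (Set.range x)) K := hx.isAlgebraic_field
  have : Algebra.EssFiniteType (IntermediateField.adjoin ℂ (Set.range x)) K :=
    Algebra.EssFiniteType.of_comp ℂ _ K
  have : FiniteDimensional (IntermediateField.adjoin ℂ (Set.range x)) K :=
    Algebra.finite_of_essFiniteType_of_isAlgebraic
  have hyR : (y : K) ∈ Algebra.adjoin ℂ (Set.range x) := Algebra.subset_adjoin ⟨0, rfl⟩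
  have hSr : Set.range x = {(y : K)} := Set.range_const
  have : IsPrincipalIdealRing (Algebra.adjoin ℂ (Set.range x)) := by
    refine IsPrincipalIdealRing.of_surjective
      (Polynomial.aeval (R := ℂ) (⟨(y : K), hyR⟩ : Algebra.adjoin ℂ (Set.range x))).toRingHom ?_
    rintro ⟨r, hr⟩
    have hr' := hr
    rw [hSr, Algebra.adjoin_singleton_eq_range_aeval] at hr'
    obtain ⟨p, hp⟩ := hr'
    refine ⟨p, Subtype.ext ?_⟩
    have h3 := Polynomial.aeval_algHom_apply (Algebra.adjoin ℂ (Set.range x)).val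
      (⟨(y : K), hyR⟩ : Algebra.adjoin ℂ (Set.range x)) p
    exact h3.symm.trans hp
  have : IsDedekindDomain (integralClosure (Algebra.adjoin ℂ (Set.range x)) K) :=
    integralClosure.isDedekindDomain (Algebra.adjoin ℂ (Set.range x))
      (IntermediateField.adjoin ℂ (Set.range x)) K
  have : IsFractionRing (integralClosure (Algebra.adjoin ℂ (Set.range x)) K) K :=
    integralClosure.isFractionRing_of_finite_extension
      (IntermediateField.adjoin ℂ (Set.range x)) K
  obtain ⟨V, hAV, hJV⟩ := Ideal.image_subset_nonunits_valuationSubring (A := A.toSubring) J hJ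
  have hAV' : ∀ a ∈ A, a ∈ V := fun a ha => hAV ha
  have hJV' : ∀ a ∈ J, V.valuation (a : K) < 1 := fun a ha =>
    (V.mem_nonunits_iff).mp (hJV ⟨a, ha, rfl⟩)
  have hRA : Algebra.adjoin ℂ (Set.range x) ≤ A := by
    refine Algebra.adjoin_le ?_
    rw [hSr]
    rintro _ rfl
    exact y.2
  have hB : ∀ b : integralClosure (Algebra.adjoin ℂ (Set.range x)) K,
      algebraMap (integralClosure (Algebra.adjoin ℂ (Set.range x)) K) K b ∈ V := by
    rintro ⟨b, p, hp, hpb⟩
    let ι : Algebra.adjoin ℂ (Set.range x) →+* V :=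
      (algebraMap (Algebra.adjoin ℂ (Set.range x)) K).codRestrict V.toSubring
        (fun r => hAV' _ (hRA r.2))
    have h1 : IsIntegral V b := by
      refine ⟨p.map ι, hp.map ι, ?_⟩
      rw [Polynomial.eval₂_map]
      exact hpb
    obtain ⟨c, hc⟩ := IsIntegrallyClosed.isIntegral_iff.mp h1
    change b ∈ V
    rw [← hc]
    exact c.2
  obtain ⟨E, h1, h2⟩ := DomX_place (B := integralClosure (Algebra.adjoin ℂ (Set.range x)) K) V hB
    (fun c => ⟨algebraMap (Algebra.adjoin ℂ (Set.range x)) _ (algebraMap ℂ _ c), rfl⟩)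
    (algebraMap (Algebra.adjoin ℂ (Set.range x)) _ ⟨(y : K), hyR⟩)
    (fun h => hyK (congrArg (Subtype.val : _ → K) h)) (hJV' y hyJ)
  exact ⟨E, fun a ha => h1 a (hAV' a ha), fun a ha => h2 _ (hJV' a ha)⟩

end Pool.Agent.H62.LGC

end
end

section

/-!
# LGC Cert: functions without common zero

PROOF: `A := Algebra.adjoin ℂ (Set.range y)`, `J := Ideal.span (Set.range fun l => (⟨y l, _⟩ : A))`.  If `J = ⊤` then
`1 = ∑ a_l y_l` (`Submodule.mem_span_range_iff_exists_fun`-like, finite sum), `a_l = aeval y q_l`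
(`Algebra.adjoin_range_eq_range_aeval`), `p := ∑ q_l * X l`.  If `J ≠ ⊤` and some `y l ≠ 0`: `exists_dom` gives `E` with
`0 < E.ord (y l)` for all `l`: contradiction to `h E`.  If all `y l = 0`: `h E` fails for every `E` (`E.ord 0 = ⊤`), and a place
exists, by `exists_dom` for `A := Algebra.adjoin ℂ {z 0}`, `J := Ideal.span {z 0}` (`z 0` is transcendental, so `J ≠ ⊤`: if
`1 = q(z 0) * z 0` then the polynomial `q X - 1` has the root `z 0`).
-/

set_option autoImplicit false

open Pool.Agent.H23.Fano (PrimeDivisorOver)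
open MvPolynomial

noncomputable section

namespace Pool.Agent.H62.LGC

variable {K : Type} [Field K] [Algebra ℂ K]

/-- If every place has nonnegative order at some `1 / y l` then `1` is a polynomial without constant term in the `y l`. -/
theorem exists_cert [Algebra.EssFiniteType ℂ K] (hz : ∃ z : Fin 1 → K, IsTranscendenceBasis ℂ z) {ι : Type} (y : ι → K)
    (h : ∀ E : PrimeDivisorOver K 1, ∃ l, E.ord (y l) ≤ 0) :
    ∃ p : MvPolynomial ι ℂ, constantCoeff p = 0 ∧ aeval y p = 1 := by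
  classical
  have hy : ∀ l, y l ∈ Algebra.adjoin ℂ (Set.range y) := fun l => Algebra.subset_adjoin ⟨l, rfl⟩
  let y' : ι → Algebra.adjoin ℂ (Set.range y) := fun l => ⟨y l, hy l⟩
  by_cases hJ : Ideal.span (Set.range y') = ⊤
  · have h1 : (1 : Algebra.adjoin ℂ (Set.range y)) ∈ Submodule.span (Algebra.adjoin ℂ (Set.range y)) (Set.range y') :=
      (Ideal.eq_top_iff_one _).1 hJ
    obtain ⟨c, hc⟩ := Finsupp.mem_span_range_iff_exists_finsupp.1 h1
    have h2 : ∀ i, ∃ q : MvPolynomial ι ℂ, aeval y q = (c i : K) := by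
      intro i
      have h3 : ∀ x : K, x ∈ Algebra.adjoin ℂ (Set.range y) → ∃ q : MvPolynomial ι ℂ, aeval y q = x := by
        intro x hx
        rw [Algebra.adjoin_range_eq_range_aeval] at hx
        exact hx
      exact h3 _ (c i).2
    choose q hq using h2
    refine ⟨∑ i ∈ c.support, q i * X i, ?_, ?_⟩
    · rw [map_sum]
      apply Finset.sum_eq_zero
      intro i _
      rw [map_mul, constantCoeff_X, mul_zero]
    · rw [map_sum]
      have h4 : ((c.sum fun i a => a • y' i : Algebra.adjoin ℂ (Set.range y)) : K) = 1 := by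
        rw [hc]
        rfl
      rw [← h4, Finsupp.sum]
      rw [AddSubmonoidClass.coe_finsetSum]
      apply Finset.sum_congr rfl
      intro i _
      rw [map_mul, aeval_X, hq i]
      rfl
  · exfalso
    by_cases hl : ∃ l, y l ≠ 0
    · obtain ⟨l0, hl0⟩ := hl
      have hmem : ∀ l, y' l ∈ Ideal.span (Set.range y') := fun l => Ideal.subset_span ⟨l, rfl⟩
      obtain ⟨E, -, hE⟩ := exists_dom hz (Algebra.adjoin ℂ (Set.range y)) (Ideal.span (Set.range y')) hJ
        ⟨y' l0, hmem l0, fun h0 => hl0 (congrArg Subtype.val h0)⟩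
      obtain ⟨l, hl⟩ := h E
      exact absurd (hE (y' l) (hmem l)) (not_lt.2 hl)
    · push Not at hl
      obtain ⟨z, hz'⟩ := hz
      have htr : Transcendental ℂ (z 0) := hz'.1.transcendental 0
      let z' : Algebra.adjoin ℂ {z 0} := ⟨z 0, Algebra.subset_adjoin rfl⟩
      have hz0 : z 0 ≠ 0 := by
        intro h0
        apply htr
        rw [h0]
        exact isAlgebraic_zero
      have hJ2 : Ideal.span {z'} ≠ ⊤ := by
        intro htop
        rw [Ideal.span_singleton_eq_top] at htop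
        obtain ⟨a, ha⟩ := htop.exists_left_inv
        have h3 : ∀ x : K, x ∈ Algebra.adjoin ℂ {z 0} → ∃ q : Polynomial ℂ, Polynomial.aeval (z 0) q = x := by
          intro x hx
          rw [Algebra.adjoin_singleton_eq_range_aeval] at hx
          exact hx
        obtain ⟨q, hq⟩ := h3 _ a.2
        have h4 : (a : K) * z 0 = 1 := congrArg Subtype.val ha
        have h5 : Polynomial.aeval (z 0) (q * Polynomial.X - 1) = 0 := by
          have h6 : Polynomial.aeval (z 0) q = (a : K) := hq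
          rw [map_sub, map_mul, Polynomial.aeval_X, map_one, h6, h4, sub_self]
        have h7 : q * Polynomial.X - 1 = 0 := by
          by_contra hne
          exact htr ⟨_, hne, h5⟩
        have h8 := congrArg (Polynomial.eval 0) h7
        simp at h8
      obtain ⟨E, -, -⟩ := exists_dom ⟨z, hz'⟩ (Algebra.adjoin ℂ {z 0}) (Ideal.span {z'}) hJ2
        ⟨z', Ideal.subset_span rfl, fun h0 => hz0 (congrArg Subtype.val h0)⟩
      obtain ⟨l, hE⟩ := h E
      rw [hl l, AddValuation.map_zero] at hE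
      exact absurd hE (by simp)

end Pool.Agent.H62.LGC

end
end

section

/-!
# LGC Ev: evaluation of the functions of a field along a map from the punctured disc

`Ev ψ`: the `ψ g` (`g ∈ K`) are meromorphic functions on the punctured disc, and `g ↦ ψ g` is a homomorphism up to discrete sets.
HINTS: `ne_zero`: `ψ g * ψ g⁻¹ = ψ 1 = 1` eventually (`const` for `c = 1`, `map_one`); `inv` follows; `zero`: `const` for `0`; `neg`, `sub`:
`mul` with `ψ (algebraMap ℂ K (-1))`; `pow`: induction; `aeval`: `MvPolynomial.induction_on`;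
`polyAeval`: `Polynomial.induction_on`; `meroPunct`: `meromorphicOrderAt_ne_top_iff_eventually_ne_zero`; `z ∈ puncturedDisc ↔ 0 < ‖z‖ ∧ ‖z‖ < 1`
(see `mem_puncturedDisc` in `Pool/Agent/H17R/Curve.lean`).
`order_add`, `order_mul`, `order_inv`: `meromorphicOrderAt_congr`, `meromorphicOrderAt_mul`, `meromorphicOrderAt_add`, `meromorphicOrderAt_inv`.
-/

set_option autoImplicit false

open Topology Filter
open Pool.Agent.H17 (puncturedDisc)
open Pool.Agent.H62.FC (MeroPunct)

noncomputable section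

namespace Pool.Agent.H62.LGC

variable {K : Type} [Field K] [Algebra ℂ K]

/-- Evaluation along a holomorphic map from the punctured disc. -/
structure Ev (ψ : K → ℂ → ℂ) : Prop where
  mero : ∀ g : K, ∀ s ∈ puncturedDisc, MeromorphicAt (ψ g) s
  const : ∀ c : ℂ, ∀ s ∈ puncturedDisc, ψ (algebraMap ℂ K c) =ᶠ[𝓝[≠] s] fun _ => c
  add : ∀ g h : K, ∀ s ∈ puncturedDisc, ψ (g + h) =ᶠ[𝓝[≠] s] fun z => ψ g z + ψ h z
  mul : ∀ g h : K, ∀ s ∈ puncturedDisc, ψ (g * h) =ᶠ[𝓝[≠] s] fun z => ψ g z * ψ h z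

variable {ψ : K → ℂ → ℂ}

theorem Ev.zero (h : Ev ψ) {s : ℂ} (hs : s ∈ puncturedDisc) : ψ 0 =ᶠ[𝓝[≠] s] fun _ => 0 := by
  have h1 := h.const 0 s hs
  rwa [map_zero] at h1

theorem Ev.one (h : Ev ψ) {s : ℂ} (hs : s ∈ puncturedDisc) : ψ 1 =ᶠ[𝓝[≠] s] fun _ => 1 := by
  have h1 := h.const 1 s hs
  rwa [map_one] at h1

theorem Ev.neg (h : Ev ψ) (g : K) {s : ℂ} (hs : s ∈ puncturedDisc) : ψ (-g) =ᶠ[𝓝[≠] s] fun z => -ψ g z := by
  have h1 := h.add g (-g) s hs
  rw [add_neg_cancel] at h1
  filter_upwards [h1, h.zero hs] with z h2 h3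
  rw [h3] at h2
  exact eq_neg_of_add_eq_zero_right h2.symm

theorem Ev.sub (h : Ev ψ) (g g' : K) {s : ℂ} (hs : s ∈ puncturedDisc) :
    ψ (g - g') =ᶠ[𝓝[≠] s] fun z => ψ g z - ψ g' z := by
  have h1 := h.add g (-g') s hs
  rw [← sub_eq_add_neg] at h1
  filter_upwards [h1, h.neg g' hs] with z h2 h3
  rw [h2, h3, sub_eq_add_neg]

private theorem Ev_mul_inv (h : Ev ψ) {g : K} (hg : g ≠ 0) {s : ℂ} (hs : s ∈ puncturedDisc) :
    ∀ᶠ z in 𝓝[≠] s, ψ g z * ψ g⁻¹ z = 1 := by
  have h1 := h.mul g g⁻¹ s hs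
  rw [mul_inv_cancel₀ hg] at h1
  filter_upwards [h1, h.one hs] with z h2 h3
  rw [← h2, h3]

theorem Ev.ne_zero (h : Ev ψ) {g : K} (hg : g ≠ 0) {s : ℂ} (hs : s ∈ puncturedDisc) : ∀ᶠ z in 𝓝[≠] s, ψ g z ≠ 0 := by
  filter_upwards [Ev_mul_inv h hg hs] with z hz h0
  rw [h0, zero_mul] at hz
  exact zero_ne_one hz

theorem Ev.inv (h : Ev ψ) {g : K} (hg : g ≠ 0) {s : ℂ} (hs : s ∈ puncturedDisc) :
    ψ g⁻¹ =ᶠ[𝓝[≠] s] fun z => (ψ g z)⁻¹ := by
  filter_upwards [Ev_mul_inv h hg hs] with z hz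
  exact eq_inv_of_mul_eq_one_right hz

theorem Ev.div (h : Ev ψ) (g : K) {g' : K} (hg : g' ≠ 0) {s : ℂ} (hs : s ∈ puncturedDisc) :
    ψ (g / g') =ᶠ[𝓝[≠] s] fun z => ψ g z / ψ g' z := by
  have h1 := h.mul g g'⁻¹ s hs
  rw [← div_eq_mul_inv] at h1
  filter_upwards [h1, h.inv hg hs] with z h2 h3
  rw [h2, h3, div_eq_mul_inv]

theorem Ev.pow (h : Ev ψ) (g : K) (n : ℕ) {s : ℂ} (hs : s ∈ puncturedDisc) :
    ψ (g ^ n) =ᶠ[𝓝[≠] s] fun z => ψ g z ^ n := by
  induction n with
  | zero =>
    rw [pow_zero]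
    filter_upwards [h.one hs] with z h1
    rw [h1, pow_zero]
  | succ n ih =>
    have h1 := h.mul (g ^ n) g s hs
    rw [← pow_succ] at h1
    filter_upwards [h1, ih] with z h2 h3
    rw [h2, h3, pow_succ]

theorem Ev.aeval (h : Ev ψ) {ι : Type} (y : ι → K) (p : MvPolynomial ι ℂ) {s : ℂ} (hs : s ∈ puncturedDisc) :
    ψ (MvPolynomial.aeval y p) =ᶠ[𝓝[≠] s] fun z => MvPolynomial.eval (fun l => ψ (y l) z) p := by
  induction p using MvPolynomial.induction_on with
  | C a =>
    have h1 := h.const a s hs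
    rw [MvPolynomial.aeval_C]
    filter_upwards [h1] with z h2
    rw [h2, MvPolynomial.eval_C]
  | add p q hp hq =>
    have h1 := h.add (MvPolynomial.aeval y p) (MvPolynomial.aeval y q) s hs
    rw [map_add]
    filter_upwards [h1, hp, hq] with z h2 h3 h4
    rw [h2, h3, h4, map_add]
  | mul_X p i hp =>
    have h1 := h.mul (MvPolynomial.aeval y p) (y i) s hs
    rw [map_mul, MvPolynomial.aeval_X]
    filter_upwards [h1, hp] with z h2 h3
    rw [h2, h3, map_mul, MvPolynomial.eval_X]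

theorem Ev.polyAeval (h : Ev ψ) (g : K) (p : Polynomial ℂ) {s : ℂ} (hs : s ∈ puncturedDisc) :
    ψ (Polynomial.aeval g p) =ᶠ[𝓝[≠] s] fun z => Polynomial.eval (ψ g z) p := by
  induction p using Polynomial.induction_on' with
  | add p q hp hq =>
    have h1 := h.add (Polynomial.aeval g p) (Polynomial.aeval g q) s hs
    rw [map_add]
    filter_upwards [h1, hp, hq] with z h2 h3 h4
    rw [h2, h3, h4, Polynomial.eval_add]
  | monomial n a =>
    have h1 := h.mul (algebraMap ℂ K a) (g ^ n) s hs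
    rw [Polynomial.aeval_monomial]
    filter_upwards [h1, h.const a s hs, h.pow g n hs] with z h2 h3 h4
    rw [h2, h3, h4, Polynomial.eval_monomial]

private theorem Ev_mem {z : ℂ} (h1 : 0 < ‖z‖) (h2 : ‖z‖ < 1) : z ∈ puncturedDisc := by
  unfold puncturedDisc
  rw [Set.mem_sdiff, mem_ball_zero_iff, Set.mem_singleton_iff]
  exact ⟨h2, norm_pos_iff.mp h1⟩

theorem Ev.meroPunct (h : Ev ψ) {g : K} (hg : g ≠ 0) : MeroPunct 1 (ψ g) := by
  constructor
  · intro z h1 h2
    exact h.mero g z (Ev_mem h1 h2)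
  · intro z h1 h2
    have hs := Ev_mem h1 h2
    rw [meromorphicOrderAt_ne_top_iff_eventually_ne_zero (h.mero g z hs)]
    exact h.ne_zero hg hs

end Pool.Agent.H62.LGC

end
end

section

/-!
# LGC EvDer: the pull back of a form does not depend on the coordinate

PROOF of `coef_eq`: let `M := Filter.Germ (𝓝[≠] s) ℂ`, a commutative ring.  `Ψ : K →+* M`, `g ↦ (ψ g : Germ)` is a ring homomorphism by `Ev`.
Make `M` a `K`-module through `Ψ` (`Module.compHom`, or `RingHom.toAlgebra`; use a type synonym or local instances).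
`D : K → M`, `g ↦ (deriv (ψ g) : Germ)` is a derivation over `ℂ`: near `s` (punctured) the functions are analytic
(`MeromorphicAt.eventually_analyticAt`), and eventual equality on `𝓝[≠] s` passes to the derivatives (`EventuallyEq.nhdsNE_deriv`, used in
`Pool/Agent/H62/FC/LocalEst.lean`).  By the universal property (`Derivation.liftKaehlerDifferential`) there is a `K`-linear
`Λ : Ω[K⁄ℂ] → M` with `Λ (D a) = D a`; so `Λ` of `c • da = c' • da'` gives the claim.  The 1-forms `Form K 1` are the first exterior power of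
`Ω[K⁄ℂ]`; from `Form.mk c (fun _ => a) = Form.mk c' (fun _ => a')` one gets `c • D a = c' • D a'` in `Ω[K⁄ℂ]` by the linear map
`⋀[K]^1 Ω → Ω` which comes from the alternating map `v ↦ v 0` (`exteriorPower.alternatingMapLinearEquiv (AlternatingMap.ofSubsingleton ...)`,
`exteriorPower.alternatingMapLinearEquiv_apply_ιMulti`; or `exteriorPower.oneEquiv`).
-/

set_option autoImplicit false

open Topology Filter
open Pool.Agent.H17 (puncturedDisc)
open Pool.Agent.H23.Fano (Form)

noncomputable section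

namespace Pool.Agent.H62.LGC

variable {K : Type} [Field K] [Algebra ℂ K] {ψ : K → ℂ → ℂ}

/-- The germ of `ψ g` at `s` (punctured), as a ring homomorphism. -/
private def evHom (h : Ev ψ) {s : ℂ} (hs : s ∈ puncturedDisc) : K →+* Filter.Germ (𝓝[≠] s) ℂ where
  toFun g := (ψ g : Filter.Germ (𝓝[≠] s) ℂ)
  map_one' := Filter.Germ.coe_eq.2 (h.one hs)
  map_mul' g g' := Filter.Germ.coe_eq.2 (h.mul g g' s hs)
  map_zero' := Filter.Germ.coe_eq.2 (h.zero hs)
  map_add' g g' := Filter.Germ.coe_eq.2 (h.add g g' s hs)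

private theorem Ev.eventually_diff (h : Ev ψ) (g : K) {s : ℂ} (hs : s ∈ puncturedDisc) :
    ∀ᶠ z in 𝓝[≠] s, DifferentiableAt ℂ (ψ g) z :=
  (h.mero g s hs).eventually_analyticAt.mono fun _ hz => hz.differentiableAt

private theorem Ev.deriv_add (h : Ev ψ) (g g' : K) {s : ℂ} (hs : s ∈ puncturedDisc) :
    deriv (ψ (g + g')) =ᶠ[𝓝[≠] s] fun z => deriv (ψ g) z + deriv (ψ g') z := by
  refine (Filter.EventuallyEq.nhdsNE_deriv (h.add g g' s hs)).trans ?_
  filter_upwards [h.eventually_diff g hs, h.eventually_diff g' hs] with z h1 h2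
  exact deriv_fun_add h1 h2

private theorem Ev.deriv_mul (h : Ev ψ) (g g' : K) {s : ℂ} (hs : s ∈ puncturedDisc) :
    deriv (ψ (g * g')) =ᶠ[𝓝[≠] s] fun z => ψ g z * deriv (ψ g') z + ψ g' z * deriv (ψ g) z := by
  refine (Filter.EventuallyEq.nhdsNE_deriv (h.mul g g' s hs)).trans ?_
  filter_upwards [h.eventually_diff g hs, h.eventually_diff g' hs] with z h1 h2
  rw [deriv_fun_mul h1 h2]
  ring

private theorem Ev.smul (h : Ev ψ) (c : ℂ) (g : K) {s : ℂ} (hs : s ∈ puncturedDisc) :
    ψ (c • g) =ᶠ[𝓝[≠] s] fun z => c * ψ g z := by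
  rw [Algebra.smul_def]
  refine (h.mul _ g s hs).trans ?_
  filter_upwards [h.const c s hs] with z hz
  rw [hz]

private theorem Ev.deriv_smul (h : Ev ψ) (c : ℂ) (g : K) {s : ℂ} (hs : s ∈ puncturedDisc) :
    deriv (ψ (c • g)) =ᶠ[𝓝[≠] s] fun z => c * deriv (ψ g) z := by
  refine (Filter.EventuallyEq.nhdsNE_deriv (h.smul c g hs)).trans ?_
  filter_upwards [h.eventually_diff g hs] with z h1
  exact deriv_const_mul c h1

theorem coef_eq (h : Ev ψ) {a a' c c' : K} (hc : (Form.mk c (fun _ => a) : Form K 1) = Form.mk c' fun _ => a') {s : ℂ}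
    (hs : s ∈ puncturedDisc) :
    (fun z => ψ c z * deriv (ψ a) z) =ᶠ[𝓝[≠] s] fun z => ψ c' z * deriv (ψ a') z := by
  letI : Module K (Filter.Germ (𝓝[≠] s) ℂ) := Module.compHom (Filter.Germ (𝓝[≠] s) ℂ) (evHom h hs)
  have hsm : ∀ (k : K) (m : Filter.Germ (𝓝[≠] s) ℂ), k • m = evHom h hs k * m := fun k m => rfl
  haveI : IsScalarTower ℂ K (Filter.Germ (𝓝[≠] s) ℂ) := ⟨fun r k m => by
    rw [hsm, hsm]
    have h1 : evHom h hs (r • k) = r • evHom h hs k := Filter.Germ.coe_eq.2 (h.smul r k hs)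
    rw [h1]
    induction m using Filter.Germ.inductionOn with
    | _ f =>
      refine Filter.Germ.coe_eq.2 (Filter.Eventually.of_forall fun z => ?_)
      exact mul_assoc _ _ _⟩
  let L : K →ₗ[ℂ] Filter.Germ (𝓝[≠] s) ℂ :=
    { toFun := fun g => ((deriv (ψ g) : ℂ → ℂ) : Filter.Germ (𝓝[≠] s) ℂ)
      map_add' := fun g g' => Filter.Germ.coe_eq.2 (h.deriv_add g g' hs)
      map_smul' := fun r g => Filter.Germ.coe_eq.2 (h.deriv_smul r g hs) }
  let D : Derivation ℂ K (Filter.Germ (𝓝[≠] s) ℂ) :=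
    Derivation.mk' L fun g g' => Filter.Germ.coe_eq.2 (h.deriv_mul g g' hs)
  have h1 : c • exteriorPower.ιMulti K 1 (fun _ : Fin 1 => KaehlerDifferential.D ℂ K a) =
      c' • exteriorPower.ιMulti K 1 (fun _ : Fin 1 => KaehlerDifferential.D ℂ K a') := hc
  have h2 := congrArg (exteriorPower.oneEquiv K Ω[K⁄ℂ]) h1
  rw [map_smul, map_smul, exteriorPower.oneEquiv_ιMulti, exteriorPower.oneEquiv_ιMulti] at h2
  have h3 := congrArg D.liftKaehlerDifferential h2
  rw [map_smul, map_smul, Derivation.liftKaehlerDifferential_comp_D, Derivation.liftKaehlerDifferential_comp_D,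
    hsm, hsm] at h3
  exact Filter.Germ.coe_eq.1 h3

end Pool.Agent.H62.LGC

end
end

section

/-!
# LGC EvPlace: the place under a point of the punctured disc

PROOF: `v g := meromorphicOrderAt (ψ g) s` is an `AddValuation K (WithTop ℤ)` (`Ev.mul`, `Ev.add`, `Ev.one`, `Ev.zero`,
`meromorphicOrderAt_congr`, `meromorphicOrderAt_mul`, `meromorphicOrderAt_add`), `v g ≠ ⊤` for `g ≠ 0` (`Ev.ne_zero`), and `v c = 0` for
constants `c ≠ 0`.  It is not trivial: for `z` transcendental, `ψ z` is meromorphic at `s`; if its order is negative take `g = z`; otherwise it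
has a value `c` at `s` (a limit, `MeromorphicAt.tendsto_nhds_iff_meromorphicOrderAt_nonneg`-like) and `ψ (z - c)` has positive order (`z - c ≠ 0`).
The values of `v` on `K ∖ 0` are a nontrivial subgroup `e ℤ` of `ℤ`, `e ≥ 1` the least positive value; `E.ord g := n` if
`v g = e * n` (and `⊤` for `g = 0`).  Compare `Pool/Agent/H68/KR/PD.lean` (the same for two variables) and the AddValuation
construction there.  `residue_trdeg`: `Fin 0`.
-/

set_option autoImplicit false

open Topology Filter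
open Pool.Agent.H17 (puncturedDisc)
open Pool.Agent.H23.Fano (PrimeDivisorOver)

noncomputable section

namespace Pool.Agent.H62.LGC

variable {K : Type} [Field K] [Algebra ℂ K] {ψ : K → ℂ → ℂ}

/-- `E` is the place under the point `s`. -/
def Under (ψ : K → ℂ → ℂ) (s : ℂ) (E : PrimeDivisorOver K 1) : Prop :=
  ∃ e : ℕ, 1 ≤ e ∧ ∀ g : K, g ≠ 0 → ∃ n : ℤ, E.ord g = (n : WithTop ℤ) ∧
    meromorphicOrderAt (ψ g) s = (((e : ℤ) * n : ℤ) : WithTop ℤ)

theorem exists_under (h : Ev ψ) (hz : ∃ z : Fin 1 → K, IsTranscendenceBasis ℂ z) {s : ℂ} (hs : s ∈ puncturedDisc) :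
    ∃ E : PrimeDivisorOver K 1, Under ψ s E := by
  classical
  have hv0 : meromorphicOrderAt (ψ 0) s = ⊤ := by
    rw [meromorphicOrderAt_congr (h.zero hs)]
    exact meromorphicOrderAt_eq_top_iff.2 (Eventually.of_forall fun _ => rfl)
  have hvmul : ∀ f g : K, meromorphicOrderAt (ψ (f * g)) s =
      meromorphicOrderAt (ψ f) s + meromorphicOrderAt (ψ g) s := by
    intro f g
    rw [meromorphicOrderAt_congr (h.mul f g s hs)]
    exact meromorphicOrderAt_mul (h.mero f s hs) (h.mero g s hs)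
  have hvadd : ∀ f g : K, min (meromorphicOrderAt (ψ f) s) (meromorphicOrderAt (ψ g) s) ≤
      meromorphicOrderAt (ψ (f + g)) s := by
    intro f g
    rw [meromorphicOrderAt_congr (h.add f g s hs)]
    exact meromorphicOrderAt_add (h.mero f s hs) (h.mero g s hs)
  have hvconst : ∀ c : ℂ, c ≠ 0 → meromorphicOrderAt (ψ (algebraMap ℂ K c)) s = 0 := by
    intro c hc
    rw [meromorphicOrderAt_congr (h.const c s hs)]
    exact (tendsto_ne_zero_iff_meromorphicOrderAt_eq_zero (MeromorphicAt.const c s)).1 ⟨c, hc, tendsto_const_nhds⟩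
  have hvtop : ∀ g : K, g ≠ 0 → meromorphicOrderAt (ψ g) s ≠ ⊤ := by
    intro g hg
    exact (meromorphicOrderAt_ne_top_iff_eventually_ne_zero (h.mero g s hs)).2 (h.ne_zero hg hs)
  -- integer values
  have hex : ∀ f : K, f ≠ 0 → ∃ n : ℤ, meromorphicOrderAt (ψ f) s = (n : WithTop ℤ) := by
    intro f hf
    exact ⟨(meromorphicOrderAt (ψ f) s).untop (hvtop f hf), (WithTop.coe_untop _ _).symm⟩
  choose! val hval using hex
  have hval_mul : ∀ f g : K, f ≠ 0 → g ≠ 0 → val (f * g) = val f + val g := by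
    intro f g hf hg
    have h1 := hvmul f g
    rw [hval f hf, hval g hg, hval (f * g) (mul_ne_zero hf hg)] at h1
    exact_mod_cast h1
  have hval_one : val 1 = 0 := by
    have h1 := hval_mul 1 1 one_ne_zero one_ne_zero
    rw [mul_one] at h1
    omega
  have hval_inv : ∀ f : K, f ≠ 0 → val f⁻¹ = - val f := by
    intro f hf
    have h1 := hval_mul f f⁻¹ hf (inv_ne_zero hf)
    rw [mul_inv_cancel₀ hf, hval_one] at h1
    omega
  have hval_pow : ∀ (f : K) (n : ℕ), f ≠ 0 → val (f ^ n) = n * val f := by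
    intro f n hf
    induction n with
    | zero => simp [hval_one]
    | succ n ih =>
      rw [pow_succ, hval_mul _ _ (pow_ne_zero n hf) hf, ih]
      push_cast
      ring
  have hval_zpow : ∀ (f : K) (n : ℤ), f ≠ 0 → val (f ^ n) = n * val f := by
    intro f n hf
    obtain ⟨m, rfl | rfl⟩ := n.eq_nat_or_neg
    · rw [zpow_natCast, hval_pow f m hf]
    · rw [zpow_neg, zpow_natCast, hval_inv _ (pow_ne_zero m hf), hval_pow f m hf]
      ring
  -- a function whose order is not zero
  have hnz : ∃ f : K, f ≠ 0 ∧ val f ≠ 0 := by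
    obtain ⟨z, hz⟩ := hz
    have htr : Transcendental ℂ (z 0) := (algebraicIndependent_unique_type_iff).1 hz.1
    have hne : ∀ c : ℂ, z 0 - algebraMap ℂ K c ≠ 0 := by
      intro c hc
      apply htr
      rw [sub_eq_zero.1 hc]
      exact isAlgebraic_algebraMap c
    by_cases hneg : 0 ≤ meromorphicOrderAt (ψ (z 0)) s
    · obtain ⟨c, hc⟩ := (tendsto_nhds_iff_meromorphicOrderAt_nonneg (h.mero (z 0) s hs)).2 hneg
      refine ⟨z 0 - algebraMap ℂ K c, hne c, ?_⟩
      have h1 : Tendsto (ψ (z 0 - algebraMap ℂ K c)) (𝓝[≠] s) (𝓝 0) := by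
        have h2 : Tendsto (fun w => ψ (z 0) w - ψ (algebraMap ℂ K c) w) (𝓝[≠] s) (𝓝 (c - c)) := by
          refine hc.sub ?_
          exact (tendsto_const_nhds (x := c)).congr' (h.const c s hs).symm
        rw [sub_self] at h2
        exact h2.congr' (h.sub _ _ hs).symm
      have h3 := (tendsto_zero_iff_meromorphicOrderAt_pos (h.mero _ s hs)).1 h1
      rw [hval _ (hne c)] at h3
      have h4 : 0 < val (z 0 - algebraMap ℂ K c) := by exact_mod_cast h3
      exact h4.ne'
    · have hz0 : z 0 ≠ 0 := by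
        have := hne 0
        rwa [map_zero, sub_zero] at this
      refine ⟨z 0, hz0, ?_⟩
      intro h1
      apply hneg
      rw [hval _ hz0, h1]
      rfl
  -- minimal positive value
  have hpos : ∃ n : ℕ, 0 < n ∧ ∃ t : K, t ≠ 0 ∧ val t = n := by
    obtain ⟨f, hf0, hf⟩ := hnz
    rcases lt_or_gt_of_ne hf with h1 | h1
    · refine ⟨(-val f).toNat, by omega, f⁻¹, inv_ne_zero hf0, ?_⟩
      rw [hval_inv f hf0]
      omega
    · exact ⟨(val f).toNat, by omega, f, hf0, by omega⟩
  set e := Nat.find hpos with he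
  obtain ⟨he0, t, ht0, htv⟩ := Nat.find_spec hpos
  rw [← he] at he0 htv
  have hmin : ∀ (n : ℕ) (f : K), 0 < n → f ≠ 0 → val f = n → e ≤ n :=
    fun n f hn hf h => Nat.find_min' hpos ⟨hn, f, hf, h⟩
  have heZ : (0 : ℤ) < e := by exact_mod_cast he0
  have hdvd : ∀ f : K, f ≠ 0 → val f = e * (val f / e) := by
    intro f hf
    have h1 : val (f * t ^ (-(val f / e))) = val f - (val f / e) * e := by
      rw [hval_mul _ _ hf (zpow_ne_zero _ ht0), hval_zpow t _ ht0, htv]
      ring
    have h2 : val f - (val f / e) * e = val f % e := by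
      have := Int.emod_add_mul_ediv (val f) e
      linarith
    have h3 : 0 ≤ val f % e := Int.emod_nonneg _ (ne_of_gt heZ)
    have h4 : val f % e < e := Int.emod_lt_of_pos _ heZ
    rcases h3.eq_or_lt with h5 | h5
    · have := Int.emod_add_mul_ediv (val f) e
      omega
    · exfalso
      have h6 := hmin (val f % e).toNat (f * t ^ (-(val f / e))) (by omega)
        (mul_ne_zero hf (zpow_ne_zero _ ht0)) (by rw [h1, h2]; omega)
      omega
  set w : K → WithTop ℤ := fun f => if f = 0 then ⊤ else ((val f / e : ℤ) : WithTop ℤ) with hw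
  have hw0 : w 0 = ⊤ := by simp [hw]
  have hwn : ∀ f : K, f ≠ 0 → w f = ((val f / e : ℤ) : WithTop ℤ) := by
    intro f hf
    simp [hw, hf]
  let ord : AddValuation K (WithTop ℤ) := AddValuation.of w hw0
    (by rw [hwn 1 one_ne_zero, hval_one]; simp)
    (by
      intro f g
      by_cases hf : f = 0
      · subst hf
        rw [zero_add, hw0]
        simp
      by_cases hg : g = 0
      · subst hg
        rw [add_zero, hw0]
        simp
      by_cases hfg : f + g = 0
      · rw [hfg, hw0]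
        exact le_top
      have h0 := hvadd f g
      rw [hval f hf, hval g hg, hval (f + g) hfg] at h0
      rw [hwn f hf, hwn g hg, hwn _ hfg]
      have h' : min (val f) (val g) ≤ val (f + g) := by exact_mod_cast h0
      have : min (val f / e) (val g / e) ≤ val (f + g) / e := by
        rcases min_le_iff.mp h' with h4 | h4
        · exact le_trans (min_le_left _ _) (Int.ediv_le_ediv heZ h4)
        · exact le_trans (min_le_right _ _) (Int.ediv_le_ediv heZ h4)
      exact_mod_cast this)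
    (by
      intro f g
      by_cases hf : f = 0
      · subst hf
        rw [zero_mul, hw0]
        simp
      by_cases hg : g = 0
      · subst hg
        rw [mul_zero, hw0]
        simp
      rw [hwn _ (mul_ne_zero hf hg), hwn f hf, hwn g hg, hval_mul f g hf hg]
      have h1 := hdvd f hf
      have h2 : (val f + val g) / (e : ℤ) = val f / e + val g / e := by
        rw [Int.add_ediv_of_dvd_left ⟨_, h1⟩]
      rw [h2]
      push_cast
      rfl)
  have hord : ∀ f, ord f = w f := fun f => rfl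
  have hoc : ∀ c : ℂ, c ≠ 0 → ord (algebraMap ℂ K c) = 0 := by
    intro c hc
    have hc0 : algebraMap ℂ K c ≠ 0 := (map_ne_zero _).2 hc
    have h1 := hvconst c hc
    rw [hval _ hc0] at h1
    have h2 : val (algebraMap ℂ K c) = 0 := by exact_mod_cast h1
    rw [hord, hwn _ hc0, h2]
    simp
  refine ⟨⟨ord, ?_, ⟨t, ?_⟩, ⟨fun i => i.elim0, fun i => i.elim0, ?_⟩⟩, e, he0, ?_⟩
  · intro c
    by_cases hc : c = 0
    · subst hc
      rw [map_zero, hord, hw0]
      exact le_top
    · exact (hoc c hc).ge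
  · rw [hord, hwn t ht0, htv, Int.ediv_self (ne_of_gt heZ)]
    rfl
  · intro p hp
    have hem : IsEmpty (Fin (1 - 1)) := ⟨fun i => i.elim0⟩
    obtain ⟨c, rfl⟩ := (MvPolynomial.C_surjective (R := ℂ) (Fin (1 - 1))) p
    have hc : c ≠ 0 := by
      intro hc
      apply hp
      rw [hc, map_zero]
    rw [MvPolynomial.aeval_C]
    exact hoc c hc
  · intro g hg
    refine ⟨val g / e, hwn g hg, ?_⟩
    rw [← hdvd g hg]
    exact hval g hg

end Pool.Agent.H62.LGC

end
end

section

/-!
# LGC NevMul: the characteristic function of a product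

`mean g x` is the average of `g` on the circle of radius `exp (-x)`, `cnt` the weighted counting function, `nevT` their sum
(`Pool/Agent/H62/FC/NevDefs.lean`, `Nev0.lean`).
HINTS: `mean_mono_of_eventually`: the points of the (compact) circle at which the inequality fails are finitely many; modify `g₁` there
(`Real.circleAverage_mono` and `Real.circleAverage_congr_codiscreteWithin`, or write the averages as integrals over `[0, 2π]`,
`intervalIntegral.integral_mono_ae`, the set of the `θ` with `exp (-x) e^{iθ}` exceptional is countable).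
`nevT_congr`: two times `mean_mono_of_eventually`, and `ordZ u s = ordZ v s` (`meromorphicOrderAt_congr`) in the annulus (`finsum_mem_congr`).
`nevT_mul_le`: `Real.posLog_mul`, `circleAverage_add`, and `max (-(a+b)) 0 ≤ max (-a) 0 + max (-b) 0`, `cnt_mono`, `cnt_add` (see the proof of
`MeroPunct.nevT_inv` in `Nev0.lean` for local finiteness, and `MeroPunct.mul`, `MeroPunct.circleIntegrable_posLog`).
-/

set_option autoImplicit false

open Filter Topology MeasureTheory
open Pool.Agent.H92.GGL (ordZ)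
open Pool.Agent.H62.FC

noncomputable section

namespace Pool.Agent.H62.LGC

variable {R₀ R₁ : ℝ}

theorem mean_mono_of_eventually {g₁ g₂ : ℂ → ℝ} {x : ℝ} (hx : Real.exp (-x) < R₀)
    (h1 : CircleIntegrable g₁ 0 (Real.exp (-x))) (h2 : CircleIntegrable g₂ 0 (Real.exp (-x)))
    (h : ∀ s : ℂ, 0 < ‖s‖ → ‖s‖ < R₀ → ∀ᶠ z in 𝓝[≠] s, g₁ z ≤ g₂ z) : mean g₁ x ≤ mean g₂ x := by
  have hr : 0 < Real.exp (-x) := Real.exp_pos _
  have hcod : g₁ =ᶠ[codiscreteWithin (Metric.sphere (0 : ℂ) |Real.exp (-x)|)] fun z => min (g₁ z) (g₂ z) := by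
    rw [Filter.EventuallyEq, Filter.Eventually, mem_codiscreteWithin_iff_forall_mem_nhdsNE]
    intro s hs
    rw [mem_sphere_zero_iff_norm, abs_of_pos hr] at hs
    filter_upwards [h s (by rw [hs]; exact hr) (by rw [hs]; exact hx)] with z hz
    left
    show g₁ z = min (g₁ z) (g₂ z)
    rw [min_eq_left hz]
  have hint : CircleIntegrable (fun z => min (g₁ z) (g₂ z)) 0 (Real.exp (-x)) :=
    CircleIntegrable.congr_codiscreteWithin hcod h1
  unfold mean
  rw [Real.circleAverage_congr_codiscreteWithin hcod hr.ne']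
  exact Real.circleAverage_mono hint h2 fun z _ => min_le_right _ _

private theorem ordZ_congr {u v : ℂ → ℂ} {s : ℂ} (h : u =ᶠ[𝓝[≠] s] v) : ordZ u s = ordZ v s := by
  unfold Pool.Agent.H92.GGL.ordZ
  rw [meromorphicOrderAt_congr h]

theorem nevT_congr {u v : ℂ → ℂ} (hu : MeroPunct R₀ u) (hv : MeroPunct R₀ v) (h : R₁ < R₀)
    (huv : ∀ s : ℂ, 0 < ‖s‖ → ‖s‖ < R₀ → u =ᶠ[𝓝[≠] s] v) {x : ℝ} (hx : Real.exp (-x) < R₁) :
    nevT u R₁ x = nevT v R₁ x := by
  have hx0 : Real.exp (-x) < R₀ := hx.trans h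
  unfold nevT
  congr 1
  · refine le_antisymm (mean_mono_of_eventually hx0 (hu.circleIntegrable_posLog hx0)
      (hv.circleIntegrable_posLog hx0) fun s h1 h2 => ?_)
      (mean_mono_of_eventually hx0 (hv.circleIntegrable_posLog hx0)
      (hu.circleIntegrable_posLog hx0) fun s h1 h2 => ?_)
    · filter_upwards [huv s h1 h2] with z hz
      rw [hz]
    · filter_upwards [huv s h1 h2] with z hz
      rw [hz]
  · unfold cnt
    refine finsum_congr fun s => finsum_congr fun hs => ?_
    simp only [ordZ_congr (huv s ((Real.exp_pos _).trans hs.1) (hs.2.trans h))]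

private theorem locFin_comp {w : ℂ → ℝ} (hw : LocFin R₀ w) {f : ℝ → ℝ} (hf : f 0 = 0) :
    LocFin R₀ (fun s => f (w s)) := by
  intro r b hr hb
  refine (hw r b hr hb).subset ?_
  rintro s ⟨h1, h2, h3⟩
  refine ⟨h1, h2, fun h => h3 ?_⟩
  change f (w s) = 0
  rw [h, hf]

private theorem locFin_add {w w' : ℂ → ℝ} (hw : LocFin R₀ w) (hw' : LocFin R₀ w') :
    LocFin R₀ (fun s => w s + w' s) := by
  intro r b hr hb
  refine ((hw r b hr hb).union (hw' r b hr hb)).subset ?_
  rintro s ⟨h1, h2, h3⟩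
  by_cases h : w s = 0
  · right
    refine ⟨h1, h2, fun h' => h3 ?_⟩
    change w s + w' s = 0
    rw [h, h', add_zero]
  · left
    exact ⟨h1, h2, h⟩

theorem nevT_mul_le {u v : ℂ → ℂ} (hu : MeroPunct R₀ u) (hv : MeroPunct R₀ v) (h : R₁ < R₀) {x : ℝ}
    (hx : Real.exp (-x) < R₁) : nevT (fun z => u z * v z) R₁ x ≤ nevT u R₁ x + nevT v R₁ x := by
  have hx0 : Real.exp (-x) < R₀ := hx.trans h
  have hr : 0 < Real.exp (-x) := Real.exp_pos _
  have huv := hu.mul hv
  have e1 : mean (fun z => Real.posLog ‖u z * v z‖) x ≤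
      mean (fun z => Real.posLog ‖u z‖) x + mean (fun z => Real.posLog ‖v z‖) x := by
    unfold mean
    rw [← Real.circleAverage_fun_add (hu.circleIntegrable_posLog hx0) (hv.circleIntegrable_posLog hx0)]
    refine Real.circleAverage_mono (huv.circleIntegrable_posLog hx0)
      ((hu.circleIntegrable_posLog hx0).add (hv.circleIntegrable_posLog hx0)) fun z _ => ?_
    rw [norm_mul]
    exact Real.posLog_mul
  have hf : ∀ {w : ℂ → ℂ}, MeroPunct R₀ w → LocFin R₀ (fun s => max (-(ordZ w s : ℝ)) 0) := fun hw =>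
    locFin_comp (f := fun t => max (-t) 0) hw.locFin (by simp)
  have e2 : cnt (fun s => max (-(ordZ (fun z => u z * v z) s : ℝ)) 0) R₁ (Real.exp (-x)) ≤
      cnt (fun s => max (-(ordZ u s : ℝ)) 0) R₁ (Real.exp (-x)) +
      cnt (fun s => max (-(ordZ v s : ℝ)) 0) R₁ (Real.exp (-x)) := by
    rw [← cnt_add h (hf hu) (hf hv) hr]
    refine cnt_mono h (hf huv) (locFin_add (hf hu) (hf hv)) hr fun s h1 h2 => ?_
    have hs1 : 0 < ‖s‖ := hr.trans h1
    have hs2 : ‖s‖ < R₀ := h2.trans h
    have hord : ordZ (fun z => u z * v z) s = ordZ u s + ordZ v s := by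
      have e : meromorphicOrderAt (fun z => u z * v z) s =
          meromorphicOrderAt u s + meromorphicOrderAt v s :=
        meromorphicOrderAt_mul (hu.mero s hs1 hs2) (hv.mero s hs1 hs2)
      unfold Pool.Agent.H92.GGL.ordZ
      rw [e, WithTop.untop₀_add (hu.ord s hs1 hs2) (hv.ord s hs1 hs2)]
    rw [hord]
    push_cast
    refine max_le ?_ (add_nonneg (le_max_right _ _) (le_max_right _ _))
    rw [neg_add]
    exact add_le_add (le_max_left _ _) (le_max_left _ _)
  unfold nevT
  linarith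

end Pool.Agent.H62.LGC

end
end

section

/-!
# LGC NevLog: functions bounded by logarithmic derivatives

PROOF: `cnt` of the weight `max (-(ordZ w s)) 0` is `0` (all the weights in the annulus are `0`); `mean_mono_of_eventually`; the mean of a
finite sum (`Real.circleAverage_sum`-like or induction on `S`), circle integrability of `posLog ‖u' / u‖`: `deriv (u l) / u l` is meromorphic
(`MeromorphicAt.deriv`, `MeromorphicOn`), see how `Pool/Agent/H62/FC/LogDeriv.lean` gets `CircleIntegrable` for it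
(`circleIntegrable_posLog_norm`).
-/

set_option autoImplicit false

open Filter Topology MeasureTheory
open Pool.Agent.H62.FC
open Pool.Agent.H17 (puncturedDisc)

noncomputable section

namespace Pool.Agent.H62.LGC

theorem nevT_le_logDeriv {ι : Type} (S : Finset ι) {w : ℂ → ℂ} (hw : MeroPunct 1 w)
    (h0 : ∀ s ∈ puncturedDisc, 0 ≤ meromorphicOrderAt w s) {u : ι → ℂ → ℂ} (hu : ∀ l ∈ S, MeroPunct 1 (u l)) {m : ℕ} {C : ℝ}
    (hb : ∀ s ∈ puncturedDisc, ∀ᶠ z in 𝓝[≠] s,
      Real.posLog ‖w z‖ ≤ C + m * ∑ l ∈ S, Real.posLog ‖deriv (u l) z / u l z‖) {R₁ : ℝ} (h1 : R₁ < 1) {x : ℝ}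
    (hx : Real.exp (-x) < R₁) :
    nevT w R₁ x ≤ C + m * ∑ l ∈ S, mean (fun z => Real.posLog ‖deriv (u l) z / u l z‖) x := by
  have hx1 : Real.exp (-x) < 1 := hx.trans h1
  have hr : 0 < Real.exp (-x) := Real.exp_pos _
  have hmem : ∀ s : ℂ, 0 < ‖s‖ → ‖s‖ < 1 → s ∈ puncturedDisc := by
    intro s hs0 hs1
    refine ⟨?_, ?_⟩
    · rw [Metric.mem_ball, dist_zero_right]
      exact hs1
    · intro hs
      rw [Set.mem_singleton_iff] at hs
      rw [hs, norm_zero] at hs0
      exact lt_irrefl _ hs0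
  -- the counting function
  have hcnt : cnt (fun s => max (-(Pool.Agent.H92.GGL.ordZ w s : ℝ)) 0) R₁ (Real.exp (-x)) = 0 := by
    unfold cnt
    refine finsum_mem_eq_zero_of_forall_eq_zero fun s hs => ?_
    have hs0 : 0 < ‖s‖ := hr.trans hs.1
    have hs1 : ‖s‖ < 1 := hs.2.trans h1
    have h2 := h0 s (hmem s hs0 hs1)
    have h3 : 0 ≤ Pool.Agent.H92.GGL.ordZ w s := by
      rw [← Pool.Agent.H92.GGL.ordZ_cast (hw.ord s hs0 hs1)] at h2
      exact WithTop.coe_nonneg.1 h2
    have h4 : (0 : ℝ) ≤ (Pool.Agent.H92.GGL.ordZ w s : ℝ) := by exact_mod_cast h3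
    have h5 : max (-(Pool.Agent.H92.GGL.ordZ w s : ℝ)) 0 = 0 := max_eq_right (by linarith)
    change max (-(Pool.Agent.H92.GGL.ordZ w s : ℝ)) 0 * _ = 0
    rw [h5, zero_mul]
  -- integrability
  have hI : ∀ l ∈ S, CircleIntegrable (fun z => Real.posLog ‖deriv (u l) z / u l z‖) 0
      (Real.exp (-x)) := by
    intro l hl
    apply MeromorphicOn.circleIntegrable_posLog_norm
    intro z hz
    rw [mem_sphere_zero_iff_norm, abs_of_pos hr] at hz
    have hm := (hu l hl).mero z (by rw [hz]; exact hr) (by rw [hz]; exact hx1)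
    exact hm.deriv.fun_div hm
  have hIs : CircleIntegrable (fun z => ∑ l ∈ S, Real.posLog ‖deriv (u l) z / u l z‖) 0
      (Real.exp (-x)) := CircleIntegrable.fun_sum S hI
  have hIm : CircleIntegrable (fun z => (m : ℝ) * ∑ l ∈ S, Real.posLog ‖deriv (u l) z / u l z‖) 0
      (Real.exp (-x)) := CircleIntegrable.const_fun_smul (a := (m : ℝ)) hIs
  have hIc : CircleIntegrable (fun _ : ℂ => C) 0 (Real.exp (-x)) := circleIntegrable_const _ _ _
  have hI2 : CircleIntegrable
      (fun z => C + (m : ℝ) * ∑ l ∈ S, Real.posLog ‖deriv (u l) z / u l z‖) 0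
      (Real.exp (-x)) := CircleIntegrable.fun_add hIc hIm
  have hmean : mean (fun z => Real.posLog ‖w z‖) x ≤
      mean (fun z => C + (m : ℝ) * ∑ l ∈ S, Real.posLog ‖deriv (u l) z / u l z‖) x :=
    mean_mono_of_eventually hx1 (hw.circleIntegrable_posLog hx1) hI2
      fun s hs0 hs1 => hb s (hmem s hs0 hs1)
  have heq : mean (fun z => C + (m : ℝ) * ∑ l ∈ S, Real.posLog ‖deriv (u l) z / u l z‖) x =
      C + m * ∑ l ∈ S, mean (fun z => Real.posLog ‖deriv (u l) z / u l z‖) x := by
    unfold mean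
    rw [Real.circleAverage_fun_add hIc hIm, Real.circleAverage_const]
    congr 1
    have e1 := Real.circleAverage_fun_smul (a := (m : ℝ)) (c := (0 : ℂ)) (R := Real.exp (-x))
      (f := fun z => ∑ l ∈ S, Real.posLog ‖deriv (u l) z / u l z‖)
    simp only [smul_eq_mul] at e1
    rw [e1, Real.circleAverage_fun_sum hI]
  unfold nevT
  rw [hcnt, add_zero, ← heq]
  exact hmean

end Pool.Agent.H62.LGC

end
end

section

/-!
# LGC Pull: the pull back of a pluricanonical form

PROOF of `order_pull`: `exists_local` with `p = 0` for the place `E` under `s`: `ω = c' • dπ`, `E.ord π = 1`, `0 ≤ E.ord (f * c' ^ m)`; by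
`coef_eq` the function is eventually `ψ f * (ψ c' * deriv (ψ π)) ^ m`, hence eventually `ψ (f * c' ^ m) * deriv (ψ π) ^ m`; `ψ (f * c'^m)` has order
`e * n ≥ 0` (`Under`; or is `0`), `ψ π` has order `e ≥ 1`, so it extends analytically to `s` and the order of its
derivative is `≥ 0` (`meromorphicOrderAt` of the derivative of an analytic function; eventual equality `EventuallyEq.nhdsNE_deriv`).
PROOF of `exists_log`: `exists_local`; `y := f * (c * π) ^ m`, its order is `E.ord (f * c ^ m) + m`.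
-/

set_option autoImplicit false

open Topology Filter
open Pool.Agent.H17 (puncturedDisc)
open Pool.Agent.H23.Fano (Form PrimeDivisorOver)
open Pool.Agent.H17LG.Variety (PoleAtMost)

noncomputable section

namespace Pool.Agent.H62.LGC

variable {K : Type} [Field K] [Algebra ℂ K] {ψ : K → ℂ → ℂ}

/-- The pull back of the form `f ω^m`, `ω = c • da`. -/
def pull (ψ : K → ℂ → ℂ) (f c a : K) (m : ℕ) (z : ℂ) : ℂ := ψ f z * (ψ c z * deriv (ψ a) z) ^ m

theorem pull_mero (h : Ev ψ) (f c a : K) (m : ℕ) {s : ℂ} (hs : s ∈ puncturedDisc) : MeromorphicAt (pull ψ f c a m) s :=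
  (h.mero f s hs).mul (((h.mero c s hs).mul (h.mero a s hs).deriv).pow m)

theorem order_pull [Algebra.EssFiniteType ℂ K] (hz : ∃ z : Fin 1 → K, IsTranscendenceBasis ℂ z) (h : Ev ψ) {s : ℂ}
    (hs : s ∈ puncturedDisc) {E : PrimeDivisorOver K 1} (hE : Under ψ s E) {m : ℕ} {f a c : K} {ω : Form K 1} (hω : ω ≠ 0)
    (hp : PoleAtMost 0 E m f ω) (hc : ω = Form.mk c fun _ => a) :
    0 ≤ meromorphicOrderAt (pull ψ f c a m) s := by
  obtain ⟨π, c', hπt, hπ1, hω', hcond⟩ := exists_local hz hω hp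
  have hcoef := coef_eq h (hc.symm.trans hω') hs
  have hcond' : 0 ≤ E.ord (f * c' ^ m) := by simpa using hcond
  obtain ⟨e, he, hord⟩ := hE
  have hpull : pull ψ f c a m =ᶠ[𝓝[≠] s] fun z => ψ (f * c' ^ m) z * deriv (ψ π) z ^ m := by
    filter_upwards [hcoef, h.mul f (c' ^ m) s hs, h.pow c' m hs] with z h1 h2 h3
    show ψ f z * (ψ c z * deriv (ψ a) z) ^ m = ψ (f * c' ^ m) z * deriv (ψ π) z ^ m
    rw [h2, h3, h1]
    ring
  have hπ0 : π ≠ 0 := by
    rintro rfl
    exact hπt isAlgebraic_zero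
  have ho1 : ∃ n : ℤ, 0 ≤ n ∧ meromorphicOrderAt (deriv (ψ π)) s = (n : WithTop ℤ) := by
    obtain ⟨n, hn, hn'⟩ := hord π hπ0
    have hn1 : n = 1 := by
      rw [hπ1] at hn
      exact_mod_cast hn.symm
    rw [hn1, mul_one] at hn'
    refine ⟨(e : ℤ) - 1, by omega, meromorphicOrderAt_deriv_eq_sub_one (n := (e : ℤ)) ?_ hn'⟩
    have : e ≠ 0 := by omega
    exact_mod_cast this
  obtain ⟨n, hn0, hn⟩ := ho1
  have hpow : 0 ≤ meromorphicOrderAt (fun z => deriv (ψ π) z ^ m) s := by
    have e1 : meromorphicOrderAt (fun z => deriv (ψ π) z ^ m) s = (m : WithTop ℤ) * meromorphicOrderAt (deriv (ψ π)) s :=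
      meromorphicOrderAt_pow (h.mero π s hs).deriv
    rw [e1, hn]
    have e2 : ((m : ℕ) : WithTop ℤ) * (n : WithTop ℤ) = (((m : ℤ) * n : ℤ) : WithTop ℤ) := by push_cast; rfl
    rw [e2]
    exact_mod_cast mul_nonneg (Int.natCast_nonneg m) hn0
  have hfst : 0 ≤ meromorphicOrderAt (ψ (f * c' ^ m)) s := by
    by_cases h0 : f * c' ^ m = 0
    · have e1 : meromorphicOrderAt (ψ (f * c' ^ m)) s = ⊤ := by
        rw [meromorphicOrderAt_eq_top_iff, h0]
        exact h.zero hs
      rw [e1]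
      exact le_top
    · obtain ⟨k, hk, hk'⟩ := hord _ h0
      rw [hk] at hcond'
      rw [hk']
      have hk0 : 0 ≤ k := by exact_mod_cast hcond'
      exact_mod_cast mul_nonneg (Int.natCast_nonneg e) hk0
  have hmul : meromorphicOrderAt (fun z => ψ (f * c' ^ m) z * deriv (ψ π) z ^ m) s =
      meromorphicOrderAt (ψ (f * c' ^ m)) s + meromorphicOrderAt (fun z => deriv (ψ π) z ^ m) s :=
    meromorphicOrderAt_mul (h.mero _ s hs) ((h.mero π s hs).deriv.pow m)
  rw [meromorphicOrderAt_congr hpull, hmul]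
  exact add_nonneg hfst hpow

theorem exists_log [Algebra.EssFiniteType ℂ K] (hz : ∃ z : Fin 1 → K, IsTranscendenceBasis ℂ z) {E : PrimeDivisorOver K 1}
    {m : ℕ} {f : K} {ω : Form K 1} (hω : ω ≠ 0) (hp : PoleAtMost m E m f ω) :
    ∃ a c : K, Transcendental ℂ a ∧ ω = Form.mk c (fun _ => a) ∧ 0 ≤ E.ord (f * (c * a) ^ m) := by
  obtain ⟨π, c, hπt, hπ1, hω', hcond⟩ := exists_local hz hω hp
  refine ⟨π, c, hπt, hω', ?_⟩
  rw [mul_pow, ← mul_assoc, E.ord.map_mul, E.ord.map_pow, hπ1, nsmul_one]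
  exact hcond

end Pool.Agent.H62.LGC

end
end

section

/-!
# LGC Bound: the pull back of a form with logarithmic poles is bounded by logarithmic derivatives

PROOF: `ι := {q : K × K // Transcendental ℂ q.1 ∧ ω = Form.mk q.2 fun _ => q.1}`, `y q := (f * (q.2 * q.1) ^ m)⁻¹` (`f ≠ 0`, `q.2 ≠ 0` by
`coef_ne_zero`, `q.1 ≠ 0`).  `exists_log` and `E.ord (x⁻¹) = -E.ord x`-like give `E.ord (y q) ≤ 0` for some `q`; `exists_cert` gives `p` with
`constantCoeff p = 0`, `aeval y p = 1`.  By continuity of `p` in its finitely many variables (`p.vars`; `MvPolynomial.eval_eq`,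
`MvPolynomial.eval₂_congr`-like) there is `δ > 0`
such that `‖eval v p‖ < 1` whenever `‖v q‖ < δ` for all `q ∈ p.vars`.  `S := ` the image of `p.vars` under `q ↦ q.1.1`.  By `Ev.aeval`, `Ev.one`:
eventually `eval (fun q => ψ (y q) z) p = 1`, so `‖ψ (y q) z‖ ≥ δ` for some `q ∈ p.vars`.  By `coef_eq`, `Ev.inv`, `Ev.mul`, `Ev.pow`, eventually
`pull ψ f c a m z = (ψ (y q) z)⁻¹ * (deriv (ψ q.1.1) z / ψ q.1.1 z) ^ m`; so its norm is at most `δ⁻¹ ‖log derivative‖ ^ m` and
`Real.posLog_mul`, `Real.posLog_pow`-like.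
-/

set_option autoImplicit false

open Topology Filter
open Pool.Agent.H17 (puncturedDisc)
open Pool.Agent.H23.Fano (Form PrimeDivisorOver)
open Pool.Agent.H17LG.Variety (PoleAtMost)

noncomputable section

namespace Pool.Agent.H62.LGC

variable {K : Type} [Field K] [Algebra ℂ K] {ψ : K → ℂ → ℂ}

private theorem bound_delta {ι : Type} (p : MvPolynomial ι ℂ) (hp : MvPolynomial.constantCoeff p = 0) :
    ∃ δ : ℝ, 0 < δ ∧ ∀ v : ι → ℂ, MvPolynomial.eval v p = 1 → ∃ q ∈ p.vars, δ ≤ ‖v q‖ := by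
  classical
  set B : ℝ := ∑ d ∈ p.support, ‖p.coeff d‖ with hB
  have hB0 : 0 ≤ B := Finset.sum_nonneg fun d _ => norm_nonneg _
  have hδ : 0 < min 1 (1 / (2 * (1 + B))) := lt_min one_pos (by positivity)
  refine ⟨min 1 (1 / (2 * (1 + B))), hδ, fun v hv => ?_⟩
  set δ : ℝ := min 1 (1 / (2 * (1 + B))) with hδdef
  by_contra hcon
  push Not at hcon
  have h1 : δ ≤ 1 := min_le_left _ _
  have h2 : δ ≤ 1 / (2 * (1 + B)) := min_le_right _ _
  have h3 : ‖MvPolynomial.eval v p‖ ≤ B * δ := by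
    rw [MvPolynomial.eval_eq, hB, Finset.sum_mul]
    refine (norm_sum_le _ _).trans (Finset.sum_le_sum fun d hd => ?_)
    rw [norm_mul]
    refine mul_le_mul_of_nonneg_left ?_ (norm_nonneg _)
    have hd0 : d ≠ 0 := by
      rintro rfl
      exact MvPolynomial.mem_support_iff.1 hd hp
    obtain ⟨i, hi⟩ := Finsupp.support_nonempty_iff.2 hd0
    have hv1 : ∀ j ∈ d.support, ‖v j‖ < δ := fun j hj =>
      hcon j ((MvPolynomial.mem_vars_iff_mem_support j).2 ⟨d, hd, hj⟩)
    rw [norm_prod, ← Finset.mul_prod_erase _ _ hi]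
    have h4 : ‖v i ^ d i‖ ≤ δ := by
      rw [norm_pow]
      have h5 : d i ≠ 0 := Finsupp.mem_support_iff.1 hi
      calc ‖v i‖ ^ d i ≤ δ ^ d i := pow_le_pow_left₀ (norm_nonneg _) (hv1 i hi).le _
        _ ≤ δ := pow_le_of_le_one hδ.le h1 h5
    have h6 : ∏ j ∈ d.support.erase i, ‖v j ^ d j‖ ≤ 1 := by
      refine Finset.prod_le_one (fun j _ => norm_nonneg _) fun j hj => ?_
      rw [norm_pow]
      exact pow_le_one₀ (norm_nonneg _) ((hv1 j (Finset.mem_of_mem_erase hj)).le.trans h1)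
    calc ‖v i ^ d i‖ * ∏ j ∈ d.support.erase i, ‖v j ^ d j‖ ≤ δ * 1 :=
          mul_le_mul h4 h6 (Finset.prod_nonneg fun j _ => norm_nonneg _) hδ.le
      _ = δ := mul_one δ
  rw [hv, norm_one] at h3
  have h4 : B * δ ≤ B * (1 / (2 * (1 + B))) := mul_le_mul_of_nonneg_left h2 hB0
  have h5 : B * (1 / (2 * (1 + B))) < 1 := by
    rw [mul_one_div, div_lt_one (by positivity)]
    linarith
  linarith

private theorem bound_ord_inv {E : PrimeDivisorOver K 1} {g : K} (hg : g ≠ 0) (h : 0 ≤ E.ord g) :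
    E.ord g⁻¹ ≤ 0 := by
  by_contra hcon
  rw [not_le] at hcon
  have h1 : E.ord (g * g⁻¹) = E.ord g + E.ord g⁻¹ := E.ord.map_mul g g⁻¹
  rw [mul_inv_cancel₀ hg, E.ord.map_one] at h1
  have h2 : 0 < E.ord g + E.ord g⁻¹ := lt_of_lt_of_le hcon (le_add_of_nonneg_left h)
  exact absurd h1 (ne_of_lt h2)

theorem exists_bound [Algebra.EssFiniteType ℂ K] (hz : ∃ z : Fin 1 → K, IsTranscendenceBasis ℂ z) (h : Ev ψ) {m : ℕ}
    {f : K} (hf : f ≠ 0) {ω : Form K 1} (hω : ω ≠ 0) (hp : ∀ E, PoleAtMost m E m f ω) {a c : K}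
    (hc : ω = Form.mk c fun _ => a) :
    ∃ (S : Finset K) (C : ℝ), 0 ∉ S ∧ ∀ s ∈ puncturedDisc, ∀ᶠ z in 𝓝[≠] s,
      Real.posLog ‖pull ψ f c a m z‖ ≤ C + m * ∑ b ∈ S, Real.posLog ‖deriv (ψ b) z / ψ b z‖ := by
  classical
  set ι : Type := {q : K × K // Transcendental ℂ q.1 ∧ ω = Form.mk q.2 fun _ => q.1} with hι
  have hq1 : ∀ q : ι, q.1.1 ≠ 0 := fun q h0 => q.2.1 (h0 ▸ isAlgebraic_zero)
  have hq2 : ∀ q : ι, q.1.2 ≠ 0 := fun q => coef_ne_zero hω q.2.2
  have hy0 : ∀ q : ι, f * (q.1.2 * q.1.1) ^ m ≠ 0 := fun q =>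
    mul_ne_zero hf (pow_ne_zero _ (mul_ne_zero (hq2 q) (hq1 q)))
  obtain ⟨p, hp0, hp1⟩ := exists_cert hz (fun q : ι => (f * (q.1.2 * q.1.1) ^ m)⁻¹) (fun E => by
    obtain ⟨a', c', ha', hc', hE⟩ := exists_log hz hω (hp E)
    exact ⟨⟨(a', c'), ha', hc'⟩, bound_ord_inv (hy0 ⟨(a', c'), ha', hc'⟩) hE⟩)
  obtain ⟨δ, hδ, hδ1⟩ := bound_delta p hp0
  refine ⟨p.vars.image fun q => q.1.1, Real.posLog δ⁻¹, ?_, fun s hs => ?_⟩
  · intro h0
    obtain ⟨q, _, hq⟩ := Finset.mem_image.1 h0
    exact hq1 q hq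
  have e1 := h.aeval (fun q : ι => (f * (q.1.2 * q.1.1) ^ m)⁻¹) p hs
  rw [hp1] at e1
  have e2 : ∀ᶠ z in 𝓝[≠] s, ∀ q ∈ p.vars, ψ c z * deriv (ψ a) z = ψ q.1.2 z * deriv (ψ q.1.1) z :=
    (Filter.eventually_all_finset _).2 fun q _ => coef_eq h (hc.symm.trans q.2.2) hs
  have e3 : ∀ᶠ z in 𝓝[≠] s, ∀ q ∈ p.vars,
      ψ ((f * (q.1.2 * q.1.1) ^ m)⁻¹) z = (ψ f z * (ψ q.1.2 z * ψ q.1.1 z) ^ m)⁻¹ := by
    refine (Filter.eventually_all_finset _).2 fun q _ => ?_
    filter_upwards [h.inv (hy0 q) hs, h.mul f ((q.1.2 * q.1.1) ^ m) s hs, h.pow (q.1.2 * q.1.1) m hs,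
      h.mul q.1.2 q.1.1 s hs] with z h1 h2 h3 h4
    rw [h1, h2, h3, h4]
  have e4 : ∀ᶠ z in 𝓝[≠] s, ∀ q ∈ p.vars, ψ q.1.1 z ≠ 0 :=
    (Filter.eventually_all_finset _).2 fun q _ => h.ne_zero (hq1 q) hs
  filter_upwards [e1, h.one hs, e2, e3, e4] with z h1 h2 h3 h4 h5
  rw [h2] at h1
  obtain ⟨q, hq, hqδ⟩ := hδ1 _ h1.symm
  rw [h4 q hq] at hqδ
  have k1 : pull ψ f c a m z =
      (ψ f z * (ψ q.1.2 z * ψ q.1.1 z) ^ m) * (deriv (ψ q.1.1) z / ψ q.1.1 z) ^ m := by
    unfold pull
    rw [h3 q hq, mul_assoc, ← mul_pow]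
    congr 2
    rw [mul_assoc, mul_div_cancel₀ _ (h5 q hq)]
  have k2 : ‖ψ f z * (ψ q.1.2 z * ψ q.1.1 z) ^ m‖ ≤ δ⁻¹ := by
    rw [norm_inv] at hqδ
    exact (le_inv_comm₀ hδ (by
      by_contra h0
      have h6 : ‖ψ f z * (ψ q.1.2 z * ψ q.1.1 z) ^ m‖ = 0 :=
        le_antisymm (not_lt.1 h0) (norm_nonneg _)
      rw [h6, inv_zero] at hqδ
      linarith)).1 hqδ
  rw [k1, norm_mul, norm_pow]
  refine Real.posLog_mul.trans ?_
  rw [Real.posLog_pow]
  refine add_le_add (Real.posLog_le_posLog (norm_nonneg _) k2) ?_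
  refine mul_le_mul_of_nonneg_left ?_ (Nat.cast_nonneg m)
  exact Finset.single_le_sum (f := fun b => Real.posLog ‖deriv (ψ b) z / ψ b z‖)
    (fun _ _ => Real.posLog_nonneg) (Finset.mem_image_of_mem (fun q : ι => q.1.1) hq)

end Pool.Agent.H62.LGC

end
end
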