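import Pool.Agent.H43.TL2.M107
import Pool.Agent.H43.TL2.M38
import Pool.Agent.H43.TL2.M42

/-! The parts of this file: H17.Modulus, H62.FC.Extend, H62.LGC.NevAlg, H92.GGL.NevMero, H62.FC.CharMero, H99.Cover.Basic, H17R.Brody, H36.BPL.Main, MQK.OkE, MQL.PBb, SR2.T.Defs_1, MQK.SDefs. -/

section

/-!
# The uniform modulus of continuity of holomorphic discs
-/

open Topology Filter

namespace Pool.Agent.H17

variable {N : ℕ}

/-- Composition with a holomorphic function. -/
lemma HolomorphicInto.comp {f : ℂ → PN N} {V U : Set ℂ} (hf : HolomorphicInto f V) {u : ℂ → ℂ}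
    (hu : ∀ z ∈ U, AnalyticAt ℂ u z) (hUV : ∀ z ∈ U, u z ∈ V) :
    HolomorphicInto (fun z => f (u z)) U := by
  intro z₀ hz₀
  obtain ⟨φ, hφ, he⟩ := hf (u z₀) (hUV z₀ hz₀)
  exact ⟨fun z => φ (u z), hφ.comp (hu z₀ hz₀), (hu z₀ hz₀).continuousAt.eventually he⟩

end Pool.Agent.H17

end

section

/-!
# Extension of a holomorphic map into projective space across a puncture
-/

noncomputable section

namespace Pool.Agent.H62.FC

open Pool.Agent.H62.FC
open MvPolynomial Topology Filter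
open Pool.Agent.H17 (PN VanishesAt ZariskiClosedIn HolomorphicInto puncturedDisc PseudoBrodyHyperbolic PseudoPicardHyperbolic)

variable {N : ℕ}

/-- A meromorphic function of order at least `n` is `z ^ n` times an analytic function. -/
private theorem Extend_factor {v : ℂ → ℂ} (hv : MeromorphicAt v 0) {n : ℤ}
    (hn : (n : WithTop ℤ) ≤ meromorphicOrderAt v 0) :
    ∃ w : ℂ → ℂ, AnalyticAt ℂ w 0 ∧ (∀ᶠ z in 𝓝[≠] (0 : ℂ), v z = z ^ n * w z) ∧
      (meromorphicOrderAt v 0 = n → w 0 ≠ 0) := by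
  by_cases h : meromorphicOrderAt v 0 = ⊤
  · refine ⟨fun _ => 0, analyticAt_const, ?_, ?_⟩
    · rw [meromorphicOrderAt_eq_top_iff] at h
      filter_upwards [h] with z hz
      rw [hz, mul_zero]
    · intro h'
      rw [h] at h'
      exact absurd h' (by simp)
  · obtain ⟨k, hk⟩ := WithTop.ne_top_iff_exists.mp h
    rw [← hk] at hn
    have hnk : n ≤ k := by exact_mod_cast hn
    obtain ⟨g, hg, hg0, hge⟩ := (meromorphicOrderAt_eq_int_iff hv).mp hk.symm
    refine ⟨fun z => z ^ (k - n).toNat * g z, ?_, ?_, ?_⟩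
    · exact (analyticAt_id.pow _).mul hg
    · filter_upwards [hge, self_mem_nhdsWithin] with z hz hz0
      have hz0' : z ≠ 0 := hz0
      rw [hz, sub_zero, smul_eq_mul, ← mul_assoc, ← zpow_natCast z, ← zpow_add₀ hz0',
        Int.toNat_of_nonneg (by omega)]
      congr 2
      ring
    · intro h'
      rw [← hk] at h'
      have : k = n := by exact_mod_cast h'
      subst this
      simpa using hg0

/-- The representative of a point given by homogeneous coordinates. -/
private theorem Extend_rep {x : PN N} {u : Fin (N + 1) → ℂ} (hu : u ≠ 0)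
    (hx : x = Projectivization.mk ℂ u hu) : ∃ c : ℂ, c ≠ 0 ∧ ∀ i, x.rep i = c * u i := by
  have h1 : Projectivization.mk ℂ x.rep x.rep_nonzero = Projectivization.mk ℂ u hu := by
    rw [Projectivization.mk_rep, hx]
  rw [Projectivization.mk_eq_mk_iff'] at h1
  obtain ⟨a, ha⟩ := h1
  refine ⟨a, ?_, fun i => ?_⟩
  · rintro rfl
    exact x.rep_nonzero (by rw [← ha, zero_smul])
  · rw [← ha]
    rfl

/-- **Extension criterion.** -/
theorem exists_extension {f : ℂ → PN N} (hf : HolomorphicInto f puncturedDisc)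
    {i₀ : Fin (N + 1)} (h0 : ∀ᶠ z in 𝓝[≠] (0 : ℂ), ∀ᶠ ζ in 𝓝[≠] z, (f ζ).rep i₀ ≠ 0)
    (h : ∀ i, PunctMero (fun z => (f z).rep i / (f z).rep i₀)) :
    ∃ g : ℂ → PN N, HolomorphicInto g (Metric.ball 0 1) ∧ ∀ z ∈ puncturedDisc, g z = f z := by
  classical
  choose v hv hvf using h
  -- the minimal order
  obtain ⟨j₁, -, hj₁⟩ := (Finset.univ : Finset (Fin (N + 1))).exists_min_image
    (fun j => meromorphicOrderAt (v j) 0) ⟨i₀, Finset.mem_univ _⟩
  have hne : meromorphicOrderAt (v i₀) 0 ≠ ⊤ := by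
    intro htop
    rw [meromorphicOrderAt_eq_top_iff] at htop
    have h1 : ∀ᶠ z in 𝓝[≠] (0 : ℂ), ∀ᶠ ζ in 𝓝[≠] z, v i₀ ζ = 0 := by
      have h2 : ∀ᶠ z in 𝓝 (0 : ℂ), z ≠ 0 → v i₀ z = 0 := eventually_nhdsWithin_iff.mp htop
      have h3 := h2.eventually_nhds
      filter_upwards [h3.filter_mono nhdsWithin_le_nhds, self_mem_nhdsWithin] with z hz hz0
      have hz0' : z ≠ 0 := hz0
      have h4 : ∀ᶠ ζ in 𝓝 z, ζ ≠ 0 := isOpen_ne.mem_nhds hz0'
      have h5 : ∀ᶠ ζ in 𝓝 z, v i₀ ζ = 0 := by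
        filter_upwards [hz, h4] with ζ ha hb
        exact ha hb
      exact h5.filter_mono nhdsWithin_le_nhds
    obtain ⟨z, ha, hb, hc⟩ := (h1.and (h0.and (hvf i₀))).exists
    obtain ⟨ζ, hd, he, hg⟩ := (ha.and (hb.and hc)).exists
    have hg' : (f ζ).rep i₀ / (f ζ).rep i₀ = v i₀ ζ := hg
    rw [hd, div_self he] at hg'
    exact one_ne_zero hg'
  have hne1 : meromorphicOrderAt (v j₁) 0 ≠ ⊤ :=
    ne_top_of_le_ne_top hne (hj₁ i₀ (Finset.mem_univ _))
  obtain ⟨n, hn⟩ := WithTop.ne_top_iff_exists.mp hne1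
  have hw : ∀ j, ∃ w : ℂ → ℂ, AnalyticAt ℂ w 0 ∧ (∀ᶠ z in 𝓝[≠] (0 : ℂ), v j z = z ^ n * w z) ∧
      (meromorphicOrderAt (v j) 0 = n → w 0 ≠ 0) := fun j =>
    Extend_factor (hv j) (by rw [hn]; exact hj₁ j (Finset.mem_univ _))
  choose w hwan hwv hw0 using hw
  have hw1 : w j₁ 0 ≠ 0 := hw0 j₁ hn.symm
  -- the local statement near the puncture
  have hmain : ∀ᶠ z in 𝓝[≠] (0 : ℂ), ∃ hh : (fun j => w j z) ≠ 0,
      f z = Projectivization.mk ℂ (fun j => w j z) hh := by
    have a1 : ∀ᶠ z in 𝓝[≠] (0 : ℂ), ∀ j, ∀ᶠ ζ in 𝓝 z, v j ζ = ζ ^ n * w j ζ := by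
      rw [eventually_all]
      intro j
      have h2 : ∀ᶠ z in 𝓝 (0 : ℂ), z ≠ 0 → v j z = z ^ n * w j z :=
        eventually_nhdsWithin_iff.mp (hwv j)
      have h3 := h2.eventually_nhds
      filter_upwards [h3.filter_mono nhdsWithin_le_nhds, self_mem_nhdsWithin] with z hz hz0
      have hz0' : z ≠ 0 := hz0
      have h4 : ∀ᶠ ζ in 𝓝 z, ζ ≠ 0 := isOpen_ne.mem_nhds hz0'
      filter_upwards [hz, h4] with ζ ha hb
      exact ha hb
    have a2 : ∀ᶠ z in 𝓝[≠] (0 : ℂ), ∀ j,
        (fun ζ => (f ζ).rep j / (f ζ).rep i₀) =ᶠ[𝓝[≠] z] v j := by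
      rw [eventually_all]
      exact hvf
    have a3 : ∀ᶠ z in 𝓝[≠] (0 : ℂ), ∀ j, AnalyticAt ℂ (w j) z := by
      rw [eventually_all]
      exact fun j => (hwan j).eventually_analyticAt.filter_mono nhdsWithin_le_nhds
    have a4 : ∀ᶠ z in 𝓝[≠] (0 : ℂ), w j₁ z ≠ 0 :=
      ((hwan j₁).continuousAt.eventually_ne hw1).filter_mono nhdsWithin_le_nhds
    have a5 : ∀ᶠ z in 𝓝[≠] (0 : ℂ), z ∈ puncturedDisc := by
      filter_upwards [mem_nhdsWithin_of_mem_nhds (Metric.ball_mem_nhds (0 : ℂ) one_pos),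
        self_mem_nhdsWithin] with z h1 h2
      exact ⟨h1, h2⟩
    filter_upwards [a1, a2, a3, a4, a5, h0, self_mem_nhdsWithin] with z b1 b2 b3 b4 b5 b6 b7
    obtain ⟨φ, hφ, hφf⟩ := hf z b5
    have hφ1 : ∀ i, AnalyticAt ℂ (fun z => φ z i) z := fun i => (analyticAt_pi_iff.mp hφ) i
    have hcross : ∀ i j, φ z i * w j z = φ z j * w i z := by
      intro i j
      have hev : (fun ζ => φ ζ i * w j ζ - φ ζ j * w i ζ) =ᶠ[𝓝[≠] z] fun _ => (0 : ℂ) := by
        have b1' : ∀ᶠ ζ in 𝓝[≠] z, ∀ j, v j ζ = ζ ^ n * w j ζ := by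
          rw [eventually_all]
          exact fun j => (b1 j).filter_mono nhdsWithin_le_nhds
        have b2' : ∀ᶠ ζ in 𝓝[≠] z, ∀ j, (f ζ).rep j / (f ζ).rep i₀ = v j ζ := by
          rw [eventually_all]
          exact b2
        filter_upwards [b1', b2', b6, hφf.filter_mono nhdsWithin_le_nhds] with ζ c1 c2 c3 c4
        obtain ⟨hφ0, hfφ⟩ := c4
        obtain ⟨c, hc, hrep⟩ := Extend_rep hφ0 hfφ
        have key : ∀ j, φ ζ j = φ ζ i₀ * (ζ ^ n * w j ζ) := by
          intro j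
          have e1 := c2 j
          rw [c1 j, hrep j, hrep i₀, mul_div_mul_left _ _ hc] at e1
          have e2 : φ ζ i₀ ≠ 0 := by
            intro e3
            apply c3
            rw [hrep i₀, e3, mul_zero]
          rw [div_eq_iff e2] at e1
          rw [e1, mul_comm]
        rw [key i, key j]
        ring
      have hcont : ContinuousAt (fun ζ => φ ζ i * w j ζ - φ ζ j * w i ζ) z :=
        (((hφ1 i).mul (b3 j)).sub ((hφ1 j).mul (b3 i))).continuousAt
      have h1 : Tendsto (fun ζ => φ ζ i * w j ζ - φ ζ j * w i ζ) (𝓝[≠] z)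
          (𝓝 (φ z i * w j z - φ z j * w i z)) := hcont.tendsto.mono_left nhdsWithin_le_nhds
      have h2 : Tendsto (fun ζ => φ ζ i * w j ζ - φ ζ j * w i ζ) (𝓝[≠] z) (𝓝 0) :=
        tendsto_const_nhds.congr' hev.symm
      exact sub_eq_zero.mp (tendsto_nhds_unique h1 h2)
    have hwz : (fun j => w j z) ≠ 0 := fun hh => b4 (congrFun hh j₁)
    refine ⟨hwz, ?_⟩
    obtain ⟨hφ0, hfφ⟩ := hφf.self_of_nhds
    rw [hfφ, Projectivization.mk_eq_mk_iff']
    refine ⟨φ z j₁ / w j₁ z, ?_⟩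
    funext j
    simp only [Pi.smul_apply, smul_eq_mul]
    rw [div_mul_eq_mul_div, div_eq_iff b4]
    exact hcross j₁ j
  -- the extension
  have hv0 : (fun j => w j 0) ≠ 0 := fun h => hw1 (congrFun h j₁)
  set g : ℂ → PN N := Function.update f 0 (Projectivization.mk ℂ (fun j => w j 0) hv0) with hg
  have hgf : ∀ z, z ≠ 0 → g z = f z := fun z hz => by
    rw [hg, Function.update_of_ne hz]
  refine ⟨g, ?_, fun z hz => hgf z fun h => hz.2 (by simp [h])⟩
  intro z₀ hz₀
  by_cases h00 : z₀ = 0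
  · subst h00
    refine ⟨fun z => (fun j => w j z), analyticAt_pi_iff.mpr hwan, ?_⟩
    filter_upwards [eventually_nhdsWithin_iff.mp hmain] with z hz
    by_cases hz0 : z = 0
    · subst hz0
      exact ⟨hv0, by rw [hg, Function.update_self]⟩
    · obtain ⟨h1, h2⟩ := hz hz0
      exact ⟨h1, by rw [hgf z hz0, h2]⟩
  · obtain ⟨φ, hφ, hφf⟩ := hf z₀ ⟨hz₀, by simpa using h00⟩
    refine ⟨φ, hφ, ?_⟩
    have h1 : ∀ᶠ z in 𝓝 z₀, z ∈ ({0}ᶜ : Set ℂ) := isOpen_compl_singleton.mem_nhds h00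
    filter_upwards [hφf, h1] with z hz hz'
    rw [hgf z hz']
    exact hz

end Pool.Agent.H62.FC

end
end

section

/-!
# LGC NevAlg: the characteristic function of an algebraic function

HINTS: `nevT_poly_le`: pointwise `posLog ‖p(u)‖ ≤ p.natDegree * posLog ‖u‖ + C` and
`max (-(ord p(u))) 0 ≤ p.natDegree * max (-(ord u)) 0` (if `ord u ≥ 0` then `p(u)` is analytic up to the value at the point; if `ord u = -k < 0`
then `p(u) * (z - s)^(k * deg)` is; or by Horner induction on `p` with `meromorphicOrderAt` inequalities for sums and products); `cnt_mono`, `cnt_mul`.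
`nevT_alg`: let `n = P.natDegree`, `a_j = P.coeff j`, `A_j = a_j(v)`, `L = A_n`.  Pointwise (off a discrete set), from
`u^n = -∑_{j<n} (A_j / L) u^j`: `‖u‖ ≤ 1 + ∑_{j<n} ‖A_j / L‖` (if `‖u‖ ≥ 1`: divide by `u^(n-1)`; `n ≥ 1` because `L ≠ 0` and the relation), so
`posLog ‖u‖ ≤ C + ∑_j posLog ‖A_j‖ + n * posLog ‖L⁻¹‖`-like; for the orders: `ord u ≥ min(0, min_j (ord A_j - ord L))` because otherwise the term
`L u^n` has order strictly smaller than the other ones; so `max (-ord u) 0 ≤ ∑_j max (-ord A_j) 0 + n max (ord L) 0`-like (the `A_j` which are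
identically zero near `s` are left out).  So `nevT u ≤ ∑_j nevT A_j + n * nevT (L⁻¹) + C` and `MeroPunct.nevT_inv`, `nevT_poly_le`.
A cleaner way: `w := L * u` is integral: `w^n + ∑_{j<n} A_j L^(n-1-j) w^j = 0` with coefficients polynomials in `v`, so
`‖w‖ ≤ 1 + ∑ ‖A_j L^(n-1-j)‖` and `-ord w ≤ max over the coefficients`; then `u = w * L⁻¹` and `nevT_mul_le`.
-/

set_option autoImplicit false

open Filter Topology MeasureTheory
open Pool.Agent.H92.GGL (ordZ)
open Pool.Agent.H62.FC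

noncomputable section

namespace Pool.Agent.H62.LGC

variable {R₀ R₁ : ℝ}

private theorem nrm_poly (p : Polynomial ℂ) :
    ∃ M : ℝ, 0 ≤ M ∧ ∀ w : ℂ, ‖p.eval w‖ ≤ M * max 1 ‖w‖ ^ p.natDegree := by
  refine ⟨∑ i ∈ Finset.range (p.natDegree + 1), ‖p.coeff i‖, Finset.sum_nonneg fun _ _ => norm_nonneg _,
    fun w => ?_⟩
  rw [Polynomial.eval_eq_sum_range, Finset.sum_mul]
  refine (norm_sum_le _ _).trans (Finset.sum_le_sum fun i hi => ?_)
  rw [norm_mul, norm_pow]
  refine mul_le_mul_of_nonneg_left ?_ (norm_nonneg _)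
  have hi' : i ≤ p.natDegree := by
    have := Finset.mem_range.mp hi
    omega
  calc ‖w‖ ^ i ≤ max 1 ‖w‖ ^ i := pow_le_pow_left₀ (norm_nonneg _) (le_max_right _ _) _
    _ ≤ max 1 ‖w‖ ^ p.natDegree := pow_le_pow_right₀ (le_max_left _ _) hi'

private theorem posLog_le_of {a b M : ℝ} {D : ℕ} (ha : 0 ≤ a) (hb : 0 ≤ b) (hM : 1 ≤ M)
    (h : a ≤ M * max 1 b ^ D) : Real.posLog a ≤ D * Real.posLog b + Real.log M := by
  rw [Real.posLog_eq_log_max_one ha, Real.posLog_eq_log_max_one hb]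
  have h1 : (1 : ℝ) ≤ max 1 b := le_max_left _ _
  have h2 : (1 : ℝ) ≤ max 1 b ^ D := one_le_pow₀ h1
  have h3 : max 1 a ≤ M * max 1 b ^ D := max_le (by nlinarith) h
  calc Real.log (max 1 a) ≤ Real.log (M * max 1 b ^ D) :=
        Real.log_le_log (lt_of_lt_of_le one_pos (le_max_left _ _)) h3
    _ = Real.log M + D * Real.log (max 1 b) := by
        rw [Real.log_mul (by positivity) (by positivity), Real.log_pow]
    _ = D * Real.log (max 1 b) + Real.log M := by ring

private theorem ord_sum_ge {ι : Type*} (S : Finset ι) (f : ι → ℂ → ℂ) {s : ℂ} {m : WithTop ℤ}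
    (hf : ∀ i ∈ S, MeromorphicAt (f i) s) (hm : ∀ i ∈ S, m ≤ meromorphicOrderAt (f i) s) :
    MeromorphicAt (fun z => ∑ i ∈ S, f i z) s ∧ m ≤ meromorphicOrderAt (fun z => ∑ i ∈ S, f i z) s := by
  classical
  induction S using Finset.induction_on with
  | empty =>
    constructor
    · simp
    · have : meromorphicOrderAt (fun z : ℂ => ∑ i ∈ (∅ : Finset ι), f i z) s = ⊤ := by
        rw [meromorphicOrderAt_eq_top_iff]
        exact Filter.Eventually.of_forall fun z => by simp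
      rw [this]
      exact le_top
  | insert a S ha ih =>
    obtain ⟨h1, h2⟩ := ih (fun i hi => hf i (Finset.mem_insert_of_mem hi))
      (fun i hi => hm i (Finset.mem_insert_of_mem hi))
    have h3 := hf a (Finset.mem_insert_self a S)
    have h4 := hm a (Finset.mem_insert_self a S)
    have e : (fun z => ∑ i ∈ insert a S, f i z) = (f a) + fun z => ∑ i ∈ S, f i z := by
      funext z
      rw [Finset.sum_insert ha]
      rfl
    rw [e]
    exact ⟨h3.add h1, (le_min h4 h2).trans (meromorphicOrderAt_add h3 h1)⟩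

private theorem ord_term_ge {u : ℂ → ℂ} {s : ℂ} (hu : MeromorphicAt u s) {a : ℤ}
    (ha : meromorphicOrderAt u s = (a : WithTop ℤ)) {b : ℤ} {c : ℂ → ℂ} (hc : MeromorphicAt c s)
    (hcb : ((b : ℤ) : WithTop ℤ) ≤ meromorphicOrderAt c s) (j : ℕ) :
    MeromorphicAt (fun z => c z * u z ^ j) s ∧
      ((b + j * a : ℤ) : WithTop ℤ) ≤ meromorphicOrderAt (fun z => c z * u z ^ j) s := by
  have h1 : MeromorphicAt (fun z => u z ^ j) s := hu.pow j
  have h2 : meromorphicOrderAt (fun z => u z ^ j) s = ((j * a : ℤ) : WithTop ℤ) := by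
    have := fun_meromorphicOrderAt_pow hu (n := j)
    rw [this, ha]
    push_cast
    rfl
  refine ⟨hc.mul h1, ?_⟩
  rw [fun_meromorphicOrderAt_mul hc h1, h2, WithTop.coe_add]
  exact add_le_add_left hcb _

private theorem ord_poly_ge {v : ℂ → ℂ} {s : ℂ} (hv : MeromorphicAt v s) (hv' : meromorphicOrderAt v s ≠ ⊤)
    (p : Polynomial ℂ) :
    MeromorphicAt (fun z => p.eval (v z)) s ∧
      ((-((p.natDegree : ℤ) * max (-(ordZ v s)) 0) : ℤ) : WithTop ℤ) ≤
        meromorphicOrderAt (fun z => p.eval (v z)) s := by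
  have ha : meromorphicOrderAt v s = ((ordZ v s : ℤ) : WithTop ℤ) :=
    (Pool.Agent.H92.GGL.ordZ_cast hv').symm
  have e : (fun z => p.eval (v z)) = fun z => ∑ i ∈ Finset.range (p.natDegree + 1), p.coeff i * v z ^ i := by
    funext z
    rw [Polynomial.eval_eq_sum_range]
  rw [e]
  have hc : ∀ i, MeromorphicAt (fun _ : ℂ => p.coeff i) s := fun i => MeromorphicAt.const _ s
  have hc0 : ∀ i, (((0 : ℤ)) : WithTop ℤ) ≤ meromorphicOrderAt (fun _ : ℂ => p.coeff i) s := fun i =>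
    (analyticAt_const : AnalyticAt ℂ (fun _ : ℂ => p.coeff i) s).meromorphicOrderAt_nonneg
  apply ord_sum_ge
  · exact fun i _ => (ord_term_ge hv ha (hc i) (hc0 i) i).1
  · intro i hi
    refine le_trans ?_ (ord_term_ge hv ha (hc i) (hc0 i) i).2
    rw [WithTop.coe_le_coe, zero_add]
    have hi' : (i : ℤ) ≤ p.natDegree := by
      have := Finset.mem_range.mp hi
      omega
    have h1 : -(max (-(ordZ v s)) 0) ≤ ordZ v s := by
      have := le_max_left (-(ordZ v s)) 0
      linarith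
    have h2 : 0 ≤ max (-(ordZ v s)) 0 := le_max_right _ _
    calc -((p.natDegree : ℤ) * max (-(ordZ v s)) 0) ≤ -((i : ℤ) * max (-(ordZ v s)) 0) := by
          have := mul_le_mul_of_nonneg_right hi' h2
          linarith
      _ = (i : ℤ) * -(max (-(ordZ v s)) 0) := by ring
      _ ≤ (i : ℤ) * ordZ v s := mul_le_mul_of_nonneg_left h1 (Int.natCast_nonneg i)

private theorem locFin_comp {w : ℂ → ℝ} (hw : LocFin R₀ w) {f : ℝ → ℝ} (hf : f 0 = 0) :
    LocFin R₀ (fun s => f (w s)) := by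
  intro r b hr hb
  refine (hw r b hr hb).subset ?_
  rintro s ⟨h1, h2, h3⟩
  refine ⟨h1, h2, fun h => h3 ?_⟩
  change f (w s) = 0
  rw [h, hf]

private theorem nevT_le_of {a v : ℂ → ℂ} (ha : MeroPunct R₀ a) (hv : MeroPunct R₀ v) (h : R₁ < R₀)
    {M : ℝ} (hM : 1 ≤ M) (D : ℕ)
    (h1 : ∀ s : ℂ, 0 < ‖s‖ → ‖s‖ < R₀ → ∀ᶠ z in 𝓝[≠] s, ‖a z‖ ≤ M * max 1 ‖v z‖ ^ D)
    (h2 : ∀ s : ℂ, 0 < ‖s‖ → ‖s‖ < R₀ →
      ((-((D : ℤ) * max (-(ordZ v s)) 0) : ℤ) : WithTop ℤ) ≤ meromorphicOrderAt a s)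
    {x : ℝ} (hx : Real.exp (-x) < R₁) : nevT a R₁ x ≤ D * nevT v R₁ x + Real.log M := by
  have hx0 : Real.exp (-x) < R₀ := hx.trans h
  have hr : 0 < Real.exp (-x) := Real.exp_pos _
  have hI1 : CircleIntegrable (fun z => Real.posLog ‖a z‖) 0 (Real.exp (-x)) :=
    ha.circleIntegrable_posLog hx0
  have hI2 : CircleIntegrable (fun z => Real.posLog ‖v z‖) 0 (Real.exp (-x)) :=
    hv.circleIntegrable_posLog hx0
  have hI3 : CircleIntegrable (fun z => (D : ℝ) * Real.posLog ‖v z‖) 0 (Real.exp (-x)) :=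
    hI2.const_fun_smul (a := (D : ℝ))
  have hI4 : CircleIntegrable (fun _ : ℂ => Real.log M) 0 (Real.exp (-x)) := circleIntegrable_const _ _ _
  have hI5 : CircleIntegrable (fun z => (D : ℝ) * Real.posLog ‖v z‖ + Real.log M) 0 (Real.exp (-x)) :=
    hI3.add hI4
  have hmean : mean (fun z => Real.posLog ‖a z‖) x ≤
      D * mean (fun z => Real.posLog ‖v z‖) x + Real.log M := by
    refine (mean_mono_of_eventually hx0 hI1 hI5 fun s hs1 hs2 => ?_).trans (le_of_eq ?_)
    · filter_upwards [h1 s hs1 hs2] with z hz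
      exact posLog_le_of (norm_nonneg _) (norm_nonneg _) hM hz
    · unfold mean
      rw [Real.circleAverage_fun_add hI3 hI4, Real.circleAverage_const]
      congr 1
      exact Real.circleAverage_fun_smul (a := (D : ℝ)) (f := fun z => Real.posLog ‖v z‖)
  have hL1 : LocFin R₀ (fun s => max (-(ordZ a s : ℝ)) 0) :=
    locFin_comp (f := fun t => max (-t) 0) ha.locFin (by simp)
  have hL2 : LocFin R₀ (fun s => max (-(ordZ v s : ℝ)) 0) :=
    locFin_comp (f := fun t => max (-t) 0) hv.locFin (by simp)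
  have hL3 : LocFin R₀ (fun s => (D : ℝ) * max (-(ordZ v s : ℝ)) 0) :=
    locFin_comp (f := fun t => (D : ℝ) * t) hL2 (by simp)
  have hcnt : cnt (fun s => max (-(ordZ a s : ℝ)) 0) R₁ (Real.exp (-x)) ≤
      D * cnt (fun s => max (-(ordZ v s : ℝ)) 0) R₁ (Real.exp (-x)) := by
    rw [← cnt_mul (D : ℝ) h hL2 hr]
    refine cnt_mono h hL1 hL3 hr fun s hs1 hs2 => ?_
    have hs1' : 0 < ‖s‖ := hr.trans hs1
    have hs2' : ‖s‖ < R₀ := hs2.trans h
    have h3 := h2 s hs1' hs2'
    rw [← Pool.Agent.H92.GGL.ordZ_cast (ha.ord s hs1' hs2'), WithTop.coe_le_coe] at h3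
    have h4 : -((D : ℝ) * max (-(ordZ v s : ℝ)) 0) ≤ (ordZ a s : ℝ) := by exact_mod_cast h3
    refine max_le (by linarith) (mul_nonneg (Nat.cast_nonneg _) (le_max_right _ _))
  unfold nevT
  rw [mul_add]
  linarith

theorem nevT_poly_le {u : ℂ → ℂ} (hu : MeroPunct R₀ u) (h : R₁ < R₀) (p : Polynomial ℂ)
    (hp : MeroPunct R₀ fun z => p.eval (u z)) :
    ∃ C : ℝ, ∀ x, Real.exp (-x) < R₁ → nevT (fun z => p.eval (u z)) R₁ x ≤ p.natDegree * nevT u R₁ x + C := by
  obtain ⟨M, hM0, hM⟩ := nrm_poly p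
  refine ⟨Real.log (max 1 M), fun x hx => ?_⟩
  refine nevT_le_of hp hu h (le_max_left _ _) p.natDegree (fun s _ _ => ?_) (fun s hs1 hs2 => ?_) hx
  · refine Filter.Eventually.of_forall fun z => (hM (u z)).trans ?_
    exact mul_le_mul_of_nonneg_right (le_max_right _ _) (by positivity)
  · exact (ord_poly_ge (hu.mero s hs1 hs2) (hu.ord s hs1 hs2) p).2

private theorem norm_le_of_monic {w : ℂ} {n : ℕ} {b : ℕ → ℂ}
    (h : w ^ n + ∑ j ∈ Finset.range n, b j * w ^ j = 0) : ‖w‖ ≤ 1 + ∑ j ∈ Finset.range n, ‖b j‖ := by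
  have hS : 0 ≤ ∑ j ∈ Finset.range n, ‖b j‖ := Finset.sum_nonneg fun _ _ => norm_nonneg _
  rcases le_total ‖w‖ 1 with h1 | h1
  · linarith
  rcases Nat.eq_zero_or_pos n with rfl | hn
  · simp at h
  obtain ⟨m, rfl⟩ : ∃ m, n = m + 1 := ⟨n - 1, by omega⟩
  have h2 : ‖w‖ ^ (m + 1) ≤ (∑ j ∈ Finset.range (m + 1), ‖b j‖) * ‖w‖ ^ m := by
    have h3 : w ^ (m + 1) = -∑ j ∈ Finset.range (m + 1), b j * w ^ j := by
      linear_combination h
    rw [← norm_pow, h3, norm_neg, Finset.sum_mul]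
    refine (norm_sum_le _ _).trans (Finset.sum_le_sum fun j hj => ?_)
    rw [norm_mul, norm_pow]
    refine mul_le_mul_of_nonneg_left ?_ (norm_nonneg _)
    exact pow_le_pow_right₀ h1 (by have := Finset.mem_range.mp hj; omega)
  have h4 : 0 < ‖w‖ ^ m := by positivity
  rw [pow_succ, mul_comm] at h2
  have h5 : ‖w‖ ≤ ∑ j ∈ Finset.range (m + 1), ‖b j‖ := le_of_mul_le_mul_right h2 h4
  linarith

theorem nevT_alg {u v : ℂ → ℂ} (hu : MeroPunct R₀ u) (hv : MeroPunct R₀ v) (h1 : 0 < R₁) (h : R₁ < R₀)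
    (P : Polynomial (Polynomial ℂ))
    (hP : ∀ s : ℂ, 0 < ‖s‖ → ‖s‖ < R₀ → ∀ j, P.coeff j ≠ 0 → ∀ᶠ z in 𝓝[≠] s, (P.coeff j).eval (v z) ≠ 0)
    (hP0 : P ≠ 0)
    (hrel : ∀ s : ℂ, 0 < ‖s‖ → ‖s‖ < R₀ → ∀ᶠ z in 𝓝[≠] s,
      ∑ j ∈ Finset.range (P.natDegree + 1), (P.coeff j).eval (v z) * u z ^ j = 0) :
    ∃ C : ℝ, ∀ x, Real.exp (-x) < R₁ → nevT u R₁ x ≤ C * nevT v R₁ x + C * (1 + |x|) := by
  classical
  set n := P.natDegree with hn
  have hlead : P.coeff n ≠ 0 := by
    rw [hn]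
    exact Polynomial.leadingCoeff_ne_zero.mpr hP0
  -- the leading coefficient
  set L : ℂ → ℂ := fun z => (P.coeff n).eval (v z) with hL
  have hLne : ∀ s : ℂ, 0 < ‖s‖ → ‖s‖ < R₀ → ∀ᶠ z in 𝓝[≠] s, L z ≠ 0 := fun s hs1 hs2 => hP s hs1 hs2 n hlead
  have hLM : MeroPunct R₀ L := by
    refine ⟨fun s hs1 hs2 => (ord_poly_ge (hv.mero s hs1 hs2) (hv.ord s hs1 hs2) _).1, fun s hs1 hs2 => ?_⟩
    rw [meromorphicOrderAt_ne_top_iff_eventually_ne_zero
      (ord_poly_ge (hv.mero s hs1 hs2) (hv.ord s hs1 hs2) (P.coeff n)).1]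
    exact hLne s hs1 hs2
  -- the degree is positive
  have hn1 : 1 ≤ n := by
    by_contra hn0
    have hn0' : n = 0 := by omega
    have hs1 : 0 < ‖(R₁ : ℂ)‖ := by
      rw [Complex.norm_real, Real.norm_eq_abs, abs_of_pos h1]
      exact h1
    have hs2 : ‖(R₁ : ℂ)‖ < R₀ := by
      rw [Complex.norm_real, Real.norm_eq_abs, abs_of_pos h1]
      exact h
    obtain ⟨z, hz1, hz2⟩ := ((hLne _ hs1 hs2).and (hrel _ hs1 hs2)).exists
    apply hz1
    rw [hn0'] at hz2
    simp only [zero_add, Finset.range_one, Finset.sum_singleton, pow_zero, mul_one] at hz2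
    rw [hL]
    simp only
    rw [hn0']
    exact hz2
  -- the integral function w
  set q : ℕ → Polynomial ℂ := fun j => P.coeff j * P.coeff n ^ (n - 1 - j) with hq
  set w : ℂ → ℂ := fun z => L z * u z with hw
  have hwM : MeroPunct R₀ w := hLM.mul hu
  have hwrel : ∀ s : ℂ, 0 < ‖s‖ → ‖s‖ < R₀ → ∀ᶠ z in 𝓝[≠] s,
      w z ^ n + ∑ j ∈ Finset.range n, (q j).eval (v z) * w z ^ j = 0 := by
    intro s hs1 hs2
    filter_upwards [hrel s hs1 hs2] with z hz
    rw [Finset.sum_range_succ] at hz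
    have e1 : ∀ j ∈ Finset.range n, (q j).eval (v z) * w z ^ j =
        L z ^ (n - 1) * ((P.coeff j).eval (v z) * u z ^ j) := by
      intro j hj
      have hj' : j ≤ n - 1 := by
        have := Finset.mem_range.mp hj
        omega
      have e2 : L z ^ (n - 1) = L z ^ (n - 1 - j) * L z ^ j := by
        rw [← pow_add, Nat.sub_add_cancel hj']
      rw [e2, hq, hw]
      simp only [Polynomial.eval_mul, Polynomial.eval_pow]
      rw [mul_pow]
      ring
    rw [Finset.sum_congr rfl e1, ← Finset.mul_sum]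
    have e3 : w z ^ n = L z ^ (n - 1) * (L z * u z ^ n) := by
      rw [hw]
      simp only
      rw [mul_pow, ← mul_assoc, ← pow_succ, Nat.sub_add_cancel hn1]
    rw [e3, ← mul_add]
    have e4 : L z * u z ^ n + ∑ j ∈ Finset.range n, (P.coeff j).eval (v z) * u z ^ j = 0 := by
      rw [add_comm]
      exact hz
    rw [e4, mul_zero]
  -- bounds of the coefficients
  choose Mq hMq0 hMq using fun j => nrm_poly (q j)
  set D : ℕ := ∑ j ∈ Finset.range n, (q j).natDegree with hD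
  set M : ℝ := 1 + ∑ j ∈ Finset.range n, Mq j with hMdef
  have hM1 : 1 ≤ M := by
    have : 0 ≤ ∑ j ∈ Finset.range n, Mq j := Finset.sum_nonneg fun j _ => hMq0 j
    rw [hMdef]
    linarith
  have hdeg : ∀ j ∈ Finset.range n, (q j).natDegree ≤ D := fun j hj =>
    Finset.single_le_sum (f := fun j => (q j).natDegree) (fun _ _ => Nat.zero_le _) hj
  have hA1 : ∀ s : ℂ, 0 < ‖s‖ → ‖s‖ < R₀ → ∀ᶠ z in 𝓝[≠] s, ‖w z‖ ≤ M * max 1 ‖v z‖ ^ D := by
    intro s hs1 hs2
    filter_upwards [hwrel s hs1 hs2] with z hz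
    have hm1 : (1 : ℝ) ≤ max 1 ‖v z‖ := le_max_left _ _
    refine (norm_le_of_monic hz).trans ?_
    rw [hMdef, add_mul, one_mul, Finset.sum_mul]
    refine add_le_add (one_le_pow₀ hm1) (Finset.sum_le_sum fun j hj => (hMq j (v z)).trans ?_)
    exact mul_le_mul_of_nonneg_left (pow_le_pow_right₀ hm1 (hdeg j hj)) (hMq0 j)
  have hA2 : ∀ s : ℂ, 0 < ‖s‖ → ‖s‖ < R₀ →
      ((-((D : ℤ) * max (-(ordZ v s)) 0) : ℤ) : WithTop ℤ) ≤ meromorphicOrderAt w s := by
    intro s hs1 hs2
    set k : ℤ := max (-(ordZ v s)) 0 with hk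
    have hk0 : 0 ≤ k := le_max_right _ _
    have hwo : meromorphicOrderAt w s = ((ordZ w s : ℤ) : WithTop ℤ) :=
      (Pool.Agent.H92.GGL.ordZ_cast (hwM.ord s hs1 hs2)).symm
    rw [hwo, WithTop.coe_le_coe]
    by_contra hlt
    push Not at hlt
    set a : ℤ := ordZ w s with ha
    have hDk : 0 ≤ (D : ℤ) * k := mul_nonneg (Int.natCast_nonneg _) hk0
    have ha0 : a < 0 := by linarith
    -- the lower terms
    have hterm : ∀ j ∈ Finset.range n, MeromorphicAt (fun z => (q j).eval (v z) * w z ^ j) s ∧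
        (((n : ℤ) * a + 1 : ℤ) : WithTop ℤ) ≤ meromorphicOrderAt (fun z => (q j).eval (v z) * w z ^ j) s := by
      intro j hj
      obtain ⟨g1, g2⟩ := ord_poly_ge (hv.mero s hs1 hs2) (hv.ord s hs1 hs2) (q j)
      obtain ⟨g3, g4⟩ := ord_term_ge (hwM.mero s hs1 hs2) hwo g1 g2 j
      refine ⟨g3, le_trans ?_ g4⟩
      rw [WithTop.coe_le_coe]
      have g5 : ((q j).natDegree : ℤ) * k ≤ (D : ℤ) * k :=
        mul_le_mul_of_nonneg_right (by exact_mod_cast hdeg j hj) hk0
      have g6 : (j : ℤ) + 1 ≤ n := by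
        have := Finset.mem_range.mp hj
        omega
      have g7 : ((n : ℤ) - j) * a ≤ a := by nlinarith
      have g8 : a + 1 ≤ -((D : ℤ) * k) := by linarith
      change (n : ℤ) * a + 1 ≤ -(((q j).natDegree : ℤ) * k) + (j : ℤ) * a
      nlinarith
    obtain ⟨g1, g2⟩ := ord_sum_ge (Finset.range n) (fun j z => (q j).eval (v z) * w z ^ j)
      (fun j hj => (hterm j hj).1) (fun j hj => (hterm j hj).2)
    have g3 : meromorphicOrderAt (fun z => w z ^ n) s = (((n : ℤ) * a : ℤ) : WithTop ℤ) := by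
      have := fun_meromorphicOrderAt_pow (hwM.mero s hs1 hs2) (n := n)
      rw [this, hwo]
      push_cast
      rfl
    have g4 : meromorphicOrderAt (fun z => w z ^ n) s <
        meromorphicOrderAt (fun z => ∑ j ∈ Finset.range n, (q j).eval (v z) * w z ^ j) s := by
      refine lt_of_lt_of_le ?_ g2
      rw [g3, WithTop.coe_lt_coe]
      linarith
    have g5 := meromorphicOrderAt_add_eq_left_of_lt g1 g4
    have g6 : meromorphicOrderAt ((fun z => w z ^ n) +
        fun z => ∑ j ∈ Finset.range n, (q j).eval (v z) * w z ^ j) s = ⊤ := by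
      rw [meromorphicOrderAt_eq_top_iff]
      exact hwrel s hs1 hs2
    rw [g6, g3] at g5
    exact WithTop.coe_ne_top g5.symm
  have hTw : ∀ x, Real.exp (-x) < R₁ → nevT w R₁ x ≤ D * nevT v R₁ x + Real.log M := fun x hx =>
    nevT_le_of hwM hv h hM1 D hA1 hA2 hx
  obtain ⟨C₁, hC₁⟩ := nevT_poly_le hv h (P.coeff n) hLM
  obtain ⟨C₂, hC₂⟩ := hLM.nevT_inv h1 h
  have hC₂0 : 0 ≤ |C₂| := abs_nonneg _
  have hlog : 0 ≤ Real.log M := Real.log_nonneg hM1
  refine ⟨D + (P.coeff n).natDegree + Real.log M + |C₁| + |C₂|, fun x hx => ?_⟩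
  have hx0 : Real.exp (-x) < R₀ := hx.trans h
  have t1 : nevT u R₁ x = nevT (fun z => w z * (L z)⁻¹) R₁ x := by
    refine nevT_congr hu (hwM.mul hLM.inv) h (fun s hs1 hs2 => ?_) hx
    filter_upwards [hLne s hs1 hs2] with z hz
    rw [hw]
    simp only
    field_simp
  have t2 : nevT (fun z => w z * (L z)⁻¹) R₁ x ≤ nevT w R₁ x + nevT (fun z => (L z)⁻¹) R₁ x :=
    nevT_mul_le hwM hLM.inv h hx
  have t3 := hTw x hx
  have t4 := (abs_le.mp (hC₂ x hx)).2
  have t5 : nevT L R₁ x ≤ (P.coeff n).natDegree * nevT v R₁ x + C₁ := hC₁ x hx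
  have hv0 := nevT_nonneg v R₁ x
  have hx1 := abs_nonneg x
  have t6 : C₂ * (1 + |x|) ≤ |C₂| * (1 + |x|) :=
    mul_le_mul_of_nonneg_right (le_abs_self _) (by linarith)
  have t7 := le_abs_self C₁
  have t8 := abs_nonneg C₁
  have hdn : (0 : ℝ) ≤ (P.coeff n).natDegree := Nat.cast_nonneg _
  have hDn : (0 : ℝ) ≤ D := Nat.cast_nonneg _
  rw [t1]
  have t9 : nevT (fun z => w z * (L z)⁻¹) R₁ x ≤
      (D * nevT v R₁ x + Real.log M) + (((P.coeff n).natDegree * nevT v R₁ x + |C₁|) + |C₂| * (1 + |x|)) := by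
    linarith
  refine t9.trans ?_
  have t10 : 0 ≤ Real.log M * nevT v R₁ x := mul_nonneg hlog hv0
  have t11 : 0 ≤ |C₁| * nevT v R₁ x := mul_nonneg t8 hv0
  have t12 : 0 ≤ |C₂| * nevT v R₁ x := mul_nonneg hC₂0 hv0
  have t13 : 0 ≤ Real.log M * |x| := mul_nonneg hlog hx1
  have t14 : 0 ≤ |C₁| * |x| := mul_nonneg t8 hx1
  have t15 : 0 ≤ (D : ℝ) * (1 + |x|) := mul_nonneg hDn (by linarith)
  have t16 : 0 ≤ ((P.coeff n).natDegree : ℝ) * (1 + |x|) := mul_nonneg hdn (by linarith)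
  nlinarith

end Pool.Agent.H62.LGC

end
end

section

/-!
# A meromorphic function on a punctured disc with characteristic `O (log (1 / r))`
-/

open Complex MeasureTheory Metric Set Topology Filter

namespace Pool.Agent.H92.GGL

lemma exists_radius {P : Set ℂ} (hP : P.Finite) (h0 : ∀ s ∈ P, 0 < ‖s‖) :
    ∃ ε : ℝ, 0 < ε ∧ ∀ s ∈ P, ε ≤ ‖s‖ := by
  rcases hP.toFinset.eq_empty_or_nonempty with h | h
  · refine ⟨1, one_pos, fun s hs => ?_⟩
    have : s ∈ hP.toFinset := hP.mem_toFinset.mpr hs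
    rw [h] at this
    exact absurd this (Finset.notMem_empty s)
  · obtain ⟨s₀, hs₀, hmin⟩ := hP.toFinset.exists_min_image (fun s => ‖s‖) h
    exact ⟨‖s₀‖, h0 s₀ (hP.mem_toFinset.mp hs₀), fun s hs => hmin s (hP.mem_toFinset.mpr hs)⟩

/-- The order of the difference with a constant. -/
lemma neg_ordZ_sub_const_le {u : ℂ → ℂ} {s c : ℂ} (hu : MeromorphicAt u s)
    (ho : meromorphicOrderAt u s ≠ ⊤) (hc : meromorphicOrderAt (fun z => u z - c) s ≠ ⊤) :
    max (-(ordZ (fun z => u z - c) s : ℝ)) 0 ≤ max (-(ordZ u s : ℝ)) 0 := by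
  have h1 : min (meromorphicOrderAt u s) (meromorphicOrderAt (fun _ : ℂ => -c) s) ≤
      meromorphicOrderAt (fun z => u z - c) s := by
    have h2 := meromorphicOrderAt_add hu (MeromorphicAt.const (-c) s)
    have h3 : (u + fun _ : ℂ => -c) = fun z => u z - c := by
      funext z
      simp [sub_eq_add_neg]
    rwa [h3] at h2
  have h4 : (0 : WithTop ℤ) ≤ meromorphicOrderAt (fun _ : ℂ => -c) s :=
    (analyticAt_const).meromorphicOrderAt_nonneg
  have h5 : min (ordZ u s) 0 ≤ ordZ (fun z => u z - c) s := by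
    have h6 : min (meromorphicOrderAt u s) 0 ≤ meromorphicOrderAt (fun z => u z - c) s :=
      (min_le_min_left _ h4).trans h1
    rw [← ordZ_cast ho, ← ordZ_cast hc] at h6
    exact_mod_cast h6
  have h7 : (min (ordZ u s : ℝ) 0) ≤ ordZ (fun z => u z - c) s := by exact_mod_cast h5
  refine max_le ?_ (le_max_right _ _)
  rcases le_total (ordZ u s : ℝ) 0 with h8 | h8
  · rw [min_eq_left h8] at h7
    exact le_trans (by linarith) (le_max_left _ _)
  · rw [min_eq_right h8] at h7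
    exact le_trans (by linarith) (le_max_right _ _)

end Pool.Agent.H92.GGL

end

section

/-!
# FC, module CharMero: small characteristic implies meromorphic at the puncture
-/

open Complex MeasureTheory Metric Set Topology Filter
open Pool.Agent.H92.GGL

noncomputable section

namespace Pool.Agent.H62.FC

/-- A set of points of a punctured disc with small counting function for arbitrarily small
radii is finite. -/
private lemma CharMero_finite_of_count {P : Set ℂ} {C D : ℝ} (hP : ∀ s ∈ P, 0 < ‖s‖)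
    (h : ∀ r₁, 0 < r₁ → ∃ r, 0 < r ∧ r < r₁ ∧ ∀ S : Finset ℂ, (∀ s ∈ S, s ∈ P) →
      ∑ s ∈ S, Real.posLog (‖s‖ / r) ≤ C - D * Real.log r) : P.Finite := by
  by_contra hinf
  obtain ⟨n₀, hn₀⟩ := exists_nat_gt D
  obtain ⟨S, hSP, hScard⟩ := (Set.not_finite.mp hinf).exists_subset_card_eq (n₀ + 1)
  have hSne : S.Nonempty := by
    rw [← Finset.card_pos, hScard]
    omega
  obtain ⟨s₀, hs₀, hmin⟩ := S.exists_min_image (fun s => ‖s‖) hSne
  set δ := ‖s₀‖ with hδ
  have hδ0 : 0 < δ := hP s₀ (hSP hs₀)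
  set n : ℝ := ((n₀ + 1 : ℕ) : ℝ) with hn
  have hnD : 1 < n - D := by
    rw [hn]
    push_cast
    linarith
  have hnpos : 0 ≤ n := Nat.cast_nonneg _
  set t₀ : ℝ := max (1 + -Real.log δ) (|C - n * Real.log δ| + 1) with ht₀
  obtain ⟨r, hr0, hr1, hr⟩ := h (Real.exp (-t₀)) (Real.exp_pos _)
  set t : ℝ := -Real.log r with ht
  have hrt : r = Real.exp (-t) := by
    rw [ht, neg_neg, Real.exp_log hr0]
  have htt : t₀ < t := by
    have := Real.log_lt_log hr0 hr1
    rw [Real.log_exp] at this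
    linarith
  have ht1 : -Real.log δ < t := by
    have h1 := le_max_left (1 + -Real.log δ) (|C - n * Real.log δ| + 1)
    linarith
  have ht3 : |C - n * Real.log δ| + 1 ≤ t := (le_max_right _ _).trans htt.le
  have hr2 : Real.exp (-t) < δ := by
    rw [← Real.exp_log hδ0]
    exact Real.exp_lt_exp.mpr (by linarith)
  have h1 := hr S (fun s hs => hSP hs)
  rw [hrt, Real.log_exp] at h1
  have h2 : n * (Real.log δ + t) ≤ ∑ s ∈ S, Real.posLog (‖s‖ / Real.exp (-t)) := by
    have h3 : ∑ _s ∈ S, (Real.log δ + t) = n * (Real.log δ + t) := by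
      rw [Finset.sum_const, hScard, nsmul_eq_mul]
    rw [← h3]
    refine Finset.sum_le_sum fun s hs => ?_
    have h4 : δ ≤ ‖s‖ := hmin s hs
    have h5 : Real.log δ + t = Real.log (δ / Real.exp (-t)) := by
      rw [Real.log_div hδ0.ne' (Real.exp_pos _).ne', Real.log_exp]
      ring
    rw [h5]
    refine le_trans ?_ (le_max_right _ _)
    refine Real.log_le_log (by positivity) ?_
    gcongr
  have h6 : (n - D) * t ≤ C - n * Real.log δ := by linarith
  have h7 : t ≤ (n - D) * t := by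
    have : 0 ≤ t := by
      have := abs_nonneg (C - n * Real.log δ)
      linarith
    nlinarith
  have h8 := le_abs_self (C - n * Real.log δ)
  linarith

private theorem CharMero_core {u : ℂ → ℂ} {R₀ R₁ : ℝ} (hR₁0 : 0 < R₁) (hR₁ : R₁ < R₀)
    (hu : ∀ z, 0 < ‖z‖ → ‖z‖ < R₀ → MeromorphicAt u z) {C D : ℝ}
    (hT : ∀ r₁, 0 < r₁ → ∃ r, 0 < r ∧ r < r₁ ∧ r < R₁ ∧
      ∀ S : Finset ℂ, (∀ s ∈ S, 0 < ‖s‖ ∧ ‖s‖ < R₁) →
      Real.circleAverage (fun z => Real.posLog ‖u z‖) 0 r +
        ∑ s ∈ S, max (-(ordZ u s : ℝ)) 0 * Real.posLog (‖s‖ / r) ≤ C - D * Real.log r) :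
    PunctMero u := by
  classical
  set Ω : Set ℂ := {z : ℂ | 0 < ‖z‖ ∧ ‖z‖ < R₀} with hΩ
  have hΩo : IsOpen Ω := isOpen_punctured R₀
  have hm : MeromorphicOn u Ω := fun z hz => hu z hz.1 hz.2
  -- the constant case
  by_cases hconst : ∃ c, ∃ z ∈ Ω, meromorphicOrderAt (fun z => u z - c) z = ⊤
  · obtain ⟨c, z₀, hz₀, hc⟩ := hconst
    have hmc : MeromorphicOn (fun z => u z - c) Ω := fun z hz =>
      (hm z hz).sub (MeromorphicAt.const c z)
    have hall : ∀ z ∈ Ω, meromorphicOrderAt (fun z => u z - c) z = ⊤ := by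
      intro z hz
      by_contra h
      exact (hmc.meromorphicOrderAt_ne_top_of_isPreconnected (isPreconnected_punctured R₀) hz
        hz₀ h) hc
    refine ⟨fun _ => c, MeromorphicAt.const c 0, ?_⟩
    filter_upwards [punctured_mem (hR₁0.trans hR₁)] with z hz
    have h3 := hall z hz
    rw [meromorphicOrderAt_eq_top_iff] at h3
    filter_upwards [h3] with w hw
    exact sub_eq_zero.mp hw
  push Not at hconst
  have hord : ∀ z ∈ Ω, meromorphicOrderAt u z ≠ ⊤ := by
    intro z hz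
    have := hconst 0 z hz
    simpa using this
  have hsub : ∀ s : ℂ, 0 < ‖s‖ → ‖s‖ < R₁ → s ∈ Ω := fun s h1 h2 => ⟨h1, h2.trans hR₁⟩
  -- integrability
  have hsph : ∀ r, 0 < r → r < R₁ → MeromorphicOn u (sphere 0 |r|) := by
    intro r h1 h2 z hz
    rw [mem_sphere_zero_iff_norm, abs_of_pos h1] at hz
    exact hm z (hsub z (by rw [hz]; exact h1) (by rw [hz]; exact h2))
  have hposnn : ∀ r, 0 < r → r < R₁ → 0 ≤ Real.circleAverage (fun z => Real.posLog ‖u z‖) 0 r := by
    intro r h1 h2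
    exact Real.circleAverage_nonneg_of_nonneg fun z _ => Real.posLog_nonneg
  -- finitely many poles
  have hpoles : {s : ℂ | (0 < ‖s‖ ∧ ‖s‖ < R₁) ∧ ordZ u s < 0}.Finite := by
    refine CharMero_finite_of_count (C := C) (D := D) (fun s hs => hs.1.1) ?_
    intro r₁ hr₁
    obtain ⟨r, h1, h1', h2, hTr⟩ := hT r₁ hr₁
    refine ⟨r, h1, h1', fun S hS => ?_⟩
    have h3 := hTr S (fun s hs => (hS s hs).1)
    have h4 := hposnn r h1 h2
    refine le_trans ?_ (le_trans (by linarith) h3) (b := ∑ s ∈ S, max (-(ordZ u s : ℝ)) 0 *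
      Real.posLog (‖s‖ / r))
    refine Finset.sum_le_sum fun s hs => ?_
    have h5 : ordZ u s ≤ -1 := by
      have := (hS s hs).2
      omega
    have h6 : (ordZ u s : ℝ) ≤ -1 := by exact_mod_cast h5
    have h7 : (1 : ℝ) ≤ max (-(ordZ u s : ℝ)) 0 := le_max_of_le_left (by linarith)
    have h8 : 0 ≤ Real.posLog (‖s‖ / r) := Real.posLog_nonneg
    nlinarith
  -- finitely many zeros of `u - c`
  have hzeros : ∀ c : ℂ, {s : ℂ | (0 < ‖s‖ ∧ ‖s‖ < R₁) ∧ 0 < ordZ (fun z => u z - c) s}.Finite := by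
    intro c
    have hmc : ∀ z, 0 < ‖z‖ → ‖z‖ < R₀ → MeromorphicAt (fun z => u z - c) z := fun z h1 h2 =>
      (hu z h1 h2).sub (MeromorphicAt.const c z)
    obtain ⟨A, B, hJ⟩ := jensen_punctured hR₁ hmc (fun z h1 h2 => hconst c z ⟨h1, h2⟩)
    refine CharMero_finite_of_count (C := C + Real.posLog ‖c‖ + Real.log 2 - A) (D := D + B)
      (fun s hs => hs.1.1) ?_
    intro r₁ hr₁
    obtain ⟨r, h1, h1', h2, hTr⟩ := hT r₁ hr₁
    refine ⟨r, h1, h1', fun S hS => ?_⟩
    have hfin := finite_ordZ (a := r) (b := R₁) h1 hR₁ hmc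
    set S' : Finset ℂ := S ∪ hfin.toFinset.filter (fun s => ‖s‖ < R₁) with hS'
    have hS'1 : ∀ s ∈ S', 0 < ‖s‖ ∧ ‖s‖ < R₁ := by
      intro s hs
      rw [hS', Finset.mem_union, Finset.mem_filter, hfin.mem_toFinset] at hs
      rcases hs with hs | hs
      · exact (hS s hs).1
      · exact ⟨h1.trans_le hs.1.1, hs.2⟩
    have hS'2 : ∀ s, r < ‖s‖ → ‖s‖ < R₁ → ordZ (fun z => u z - c) s ≠ 0 → s ∈ S' := by
      intro s h3 h4 h5
      rw [hS', Finset.mem_union, Finset.mem_filter, hfin.mem_toFinset]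
      exact Or.inr ⟨⟨h3.le, h4.le, h5⟩, h4⟩
    have h3 := hJ r h1 h2 S' (fun s hs => (hS'1 s hs).2) hS'2
    have h4 := hTr S' hS'1
    -- comparison of the means
    have hsphc : MeromorphicOn (fun z => u z - c) (sphere 0 |r|) := fun z hz =>
      (hsph r h1 h2 z hz).sub (MeromorphicAt.const c z)
    have h5 : Real.circleAverage (fun z => Real.log ‖u z - c‖) 0 r ≤
        Real.circleAverage (fun z => Real.posLog ‖u z‖) 0 r + (Real.posLog ‖c‖ + Real.log 2) := by
      have h6 : Real.circleAverage (fun z => Real.posLog ‖u z‖ + (Real.posLog ‖c‖ + Real.log 2)) 0 r =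
          Real.circleAverage (fun z => Real.posLog ‖u z‖) 0 r +
            (Real.posLog ‖c‖ + Real.log 2) := by
        rw [Real.circleAverage_fun_add (MeromorphicOn.circleIntegrable_posLog_norm (hsph r h1 h2))
          (circleIntegrable_const _ _ _), Real.circleAverage_const]
      rw [← h6]
      refine Real.circleAverage_mono (MeromorphicOn.circleIntegrable_log_norm hsphc) ?_ ?_
      · exact (MeromorphicOn.circleIntegrable_posLog_norm (hsph r h1 h2)).fun_add
          (circleIntegrable_const _ _ _)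
      · intro z _
        have h7 : Real.log ‖u z - c‖ ≤ Real.posLog ‖u z - c‖ := le_max_right _ _
        have h8 := Real.posLog_norm_add_le (u z) (-c)
        rw [norm_neg, ← sub_eq_add_neg] at h8
        linarith
    -- comparison of the sums
    have h6 : ∑ s ∈ S, Real.posLog (‖s‖ / r) ≤
        ∑ s ∈ S', (ordZ (fun z => u z - c) s : ℝ) * Real.posLog (‖s‖ / r) +
        ∑ s ∈ S', max (-(ordZ u s : ℝ)) 0 * Real.posLog (‖s‖ / r) := by
      rw [← Finset.sum_add_distrib]
      have h7 : ∑ s ∈ S, Real.posLog (‖s‖ / r) ≤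
          ∑ s ∈ S', max (ordZ (fun z => u z - c) s : ℝ) 0 * Real.posLog (‖s‖ / r) := by
        refine le_trans (b := ∑ s ∈ S, max (ordZ (fun z => u z - c) s : ℝ) 0 *
          Real.posLog (‖s‖ / r)) ?_ ?_
        · refine Finset.sum_le_sum fun s hs => ?_
          have h8 : 1 ≤ ordZ (fun z => u z - c) s := by
            have := (hS s hs).2
            omega
          have h9 : (1 : ℝ) ≤ ordZ (fun z => u z - c) s := by exact_mod_cast h8
          have h10 : (1 : ℝ) ≤ max (ordZ (fun z => u z - c) s : ℝ) 0 := le_max_of_le_left h9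
          have h11 : 0 ≤ Real.posLog (‖s‖ / r) := Real.posLog_nonneg
          nlinarith
        · refine Finset.sum_le_sum_of_subset_of_nonneg Finset.subset_union_left ?_
          intro s _ _
          exact mul_nonneg (le_max_right _ _) Real.posLog_nonneg
      refine h7.trans (Finset.sum_le_sum fun s hs => ?_)
      have hs' := hS'1 s hs
      have h8 := neg_ordZ_sub_const_le (hu s hs'.1 (hs'.2.trans hR₁)) (hord s (hsub s hs'.1 hs'.2))
        (hconst c s (hsub s hs'.1 hs'.2))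
      rw [← add_mul]
      refine mul_le_mul_of_nonneg_right ?_ Real.posLog_nonneg
      have h9 : max (ordZ (fun z => u z - c) s : ℝ) 0 = ordZ (fun z => u z - c) s +
          max (-(ordZ (fun z => u z - c) s : ℝ)) 0 := by
        rcases le_total (ordZ (fun z => u z - c) s : ℝ) 0 with h | h
        · rw [max_eq_right h, max_eq_left (by linarith)]
          ring
        · rw [max_eq_left h, max_eq_right (by linarith)]
          ring
      rw [h9]
      linarith
    linarith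
  -- the normal form
  set v : ℂ → ℂ := toMeromorphicNFOn u Ω with hv
  have hvNF : MeromorphicNFOn v Ω := meromorphicNFOn_toMeromorphicNFOn u Ω
  have huv : ∀ z ∈ Ω, u =ᶠ[𝓝[≠] z] v := fun z hz =>
    (hm.toMeromorphicNFOn_eq_self_on_nhdsNE hz).symm
  obtain ⟨ε₁, hε₁, hε₁P⟩ := exists_radius hpoles (fun s hs => hs.1.1)
  have hnonneg : ∀ z, 0 < ‖z‖ → ‖z‖ < min ε₁ R₁ → 0 ≤ meromorphicOrderAt u z := by
    intro z h1 h2
    have h3 : ‖z‖ < ε₁ := h2.trans_le (min_le_left _ _)
    have h4 : ‖z‖ < R₁ := h2.trans_le (min_le_right _ _)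
    by_contra h
    push Not at h
    have h5 : ordZ u z < 0 := by
      rw [← ordZ_cast (hord z (hsub z h1 h4))] at h
      exact_mod_cast h
    exact absurd (hε₁P z ⟨⟨h1, h4⟩, h5⟩) (not_le.mpr h3)
  have hvan : ∀ z, 0 < ‖z‖ → ‖z‖ < min ε₁ R₁ → AnalyticAt ℂ v z := by
    intro z h1 h2
    have hz : z ∈ Ω := hsub z h1 (h2.trans_le (min_le_right _ _))
    rw [← (hvNF hz).meromorphicOrderAt_nonneg_iff_analyticAt, ← meromorphicOrderAt_congr (huv z hz)]
    exact hnonneg z h1 h2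
  have hmin : 0 < min ε₁ R₁ := lt_min hε₁ hR₁0
  have hmero : MeromorphicAt v 0 := by
    refine meromorphicAt_of_omits hmin hvan fun c => ?_
    obtain ⟨δ, hδ, hδP⟩ := exists_radius (hzeros c) (fun s hs => hs.1.1)
    refine ⟨min δ (min ε₁ R₁), lt_min hδ hmin, fun z h1 h2 hzc => ?_⟩
    have h3 : ‖z‖ < δ := h2.trans_le (min_le_left _ _)
    have h4 : ‖z‖ < min ε₁ R₁ := h2.trans_le (min_le_right _ _)
    have h5 : ‖z‖ < R₁ := h4.trans_le (min_le_right _ _)
    have hz : z ∈ Ω := hsub z h1 h5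
    have h6 : AnalyticAt ℂ (fun w => v w - c) z := (hvan z h1 h4).sub analyticAt_const
    have h7 : (fun w => u w - c) =ᶠ[𝓝[≠] z] fun w => v w - c := by
      filter_upwards [huv z hz] with w hw
      rw [hw]
    have h8 : 0 < ordZ (fun w => u w - c) z := by
      have h9 : 0 < meromorphicOrderAt (fun w => u w - c) z := by
        rw [meromorphicOrderAt_congr h7, ← tendsto_zero_iff_meromorphicOrderAt_pos h6.meromorphicAt]
        have h10 := h6.continuousAt.tendsto
        simp only [hzc, sub_self] at h10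
        exact h10.mono_left nhdsWithin_le_nhds
      rw [← ordZ_cast (hconst c z hz)] at h9
      exact_mod_cast h9
    exact absurd (hδP z ⟨⟨h1, h5⟩, h8⟩) (not_le.mpr h3)
  refine ⟨v, hmero, ?_⟩
  filter_upwards [punctured_mem (hR₁0.trans hR₁)] with z hz
  exact huv z hz

theorem punctMero_of_nevT {R₀ R₁ : ℝ} (h1 : 0 < R₁) (h : R₁ < R₀) {u : ℂ → ℂ}
    (hu : MeroPunct R₀ u) {C : ℝ} {E : Set ℝ} (hE : volume E ≠ ⊤)
    (hT : ∀ x, Real.exp (-x) < R₁ → x ∉ E → nevT u R₁ x ≤ C * (1 + |x|)) : PunctMero u := by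
  classical
  refine CharMero_core h1 h hu.mero (C := C) (D := C) ?_
  intro r₁ hr₁
  -- a good radius
  set a : ℝ := max 0 (max (-Real.log r₁) (-Real.log R₁)) with ha
  obtain ⟨x, hxa, hxE⟩ : ∃ x, a < x ∧ x ∉ E := by
    by_contra hcon
    push Not at hcon
    have h2 : Set.Ioi a ⊆ E := fun x hx => hcon x hx
    have h3 := measure_mono (μ := volume) h2
    rw [Real.volume_Ioi] at h3
    exact hE (top_le_iff.mp h3)
  have hx0 : 0 < x := lt_of_le_of_lt (le_max_left _ _) hxa
  have hxr : -Real.log r₁ < x :=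
    lt_of_le_of_lt ((le_max_left _ _).trans (le_max_right _ _)) hxa
  have hxR : -Real.log R₁ < x :=
    lt_of_le_of_lt ((le_max_right _ _).trans (le_max_right _ _)) hxa
  have hr1 : Real.exp (-x) < r₁ := by
    rw [← Real.exp_log hr₁]
    exact Real.exp_lt_exp.mpr (by linarith)
  have hr2 : Real.exp (-x) < R₁ := by
    rw [← Real.exp_log h1]
    exact Real.exp_lt_exp.mpr (by linarith)
  refine ⟨Real.exp (-x), Real.exp_pos _, hr1, hr2, fun S hS => ?_⟩
  have h2 := hT x hr2 hxE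
  rw [abs_of_pos hx0] at h2
  rw [Real.log_exp]
  set r : ℝ := Real.exp (-x) with hr
  have hr0 : 0 < r := Real.exp_pos _
  -- the counting function as a finite sum
  have hfin := finite_ordZ (a := r) (b := R₁) hr0 h hu.mero
  set T : Finset ℂ := hfin.toFinset.filter (fun s => r < ‖s‖ ∧ ‖s‖ < R₁) with hTd
  have hcnt : cnt (fun s => max (-(ordZ u s : ℝ)) 0) R₁ r =
      ∑ s ∈ T, max (-(ordZ u s : ℝ)) 0 * Real.log (‖s‖ / r) := by
    unfold cnt
    refine finsum_mem_eq_sum_of_inter_support_eq _ ?_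
    ext s
    simp only [Set.mem_inter_iff, Function.mem_support, Finset.mem_coe, hTd, Finset.mem_filter,
      Set.Finite.mem_toFinset]
    constructor
    · rintro ⟨⟨h3, h4⟩, h5⟩
      refine ⟨⟨⟨h3.le, h4.le, ?_⟩, h3, h4⟩, h5⟩
      intro h6
      apply h5
      rw [h6]
      simp
    · rintro ⟨⟨_, h3, h4⟩, h5⟩
      exact ⟨⟨h3, h4⟩, h5⟩
  have hle : ∑ s ∈ S, max (-(ordZ u s : ℝ)) 0 * Real.posLog (‖s‖ / r) ≤
      ∑ s ∈ T, max (-(ordZ u s : ℝ)) 0 * Real.log (‖s‖ / r) := by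
    have h3 : ∑ s ∈ T, max (-(ordZ u s : ℝ)) 0 * Real.log (‖s‖ / r) =
        ∑ s ∈ T, max (-(ordZ u s : ℝ)) 0 * Real.posLog (‖s‖ / r) := by
      refine Finset.sum_congr rfl fun s hs => ?_
      have hs' : r < ‖s‖ := (Finset.mem_filter.mp hs).2.1
      have h4 : Real.posLog (‖s‖ / r) = Real.log (‖s‖ / r) := by
        refine max_eq_right (Real.log_nonneg ?_)
        rw [one_le_div hr0]
        exact hs'.le
      rw [h4]
    rw [h3]
    have h4 : ∑ s ∈ T, max (-(ordZ u s : ℝ)) 0 * Real.posLog (‖s‖ / r) =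
        ∑ s ∈ S ∪ T, max (-(ordZ u s : ℝ)) 0 * Real.posLog (‖s‖ / r) := by
      refine Finset.sum_subset Finset.subset_union_right ?_
      intro s hs hsT
      have hsS : s ∈ S := by
        rcases Finset.mem_union.mp hs with h5 | h5
        · exact h5
        · exact absurd h5 hsT
      have hsn := hS s hsS
      by_cases h5 : r < ‖s‖
      · have h6 : ordZ u s = 0 := by
          by_contra h6
          apply hsT
          rw [hTd, Finset.mem_filter, hfin.mem_toFinset]
          exact ⟨⟨h5.le, hsn.2.le, h6⟩, h5, hsn.2⟩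
        rw [h6]
        simp
      · have h6 : Real.posLog (‖s‖ / r) = 0 := by
          rw [Real.posLog_eq_zero_iff, abs_of_nonneg (by positivity), div_le_one hr0]
          exact not_lt.mp h5
        rw [h6, mul_zero]
    rw [h4]
    exact Finset.sum_le_sum_of_subset_of_nonneg Finset.subset_union_left
      fun s _ _ => mul_nonneg (le_max_right _ _) Real.posLog_nonneg
  have h3 : nevT u R₁ x = Real.circleAverage (fun z => Real.posLog ‖u z‖) 0 r +
      cnt (fun s => max (-(ordZ u s : ℝ)) 0) R₁ r := rfl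
  rw [h3, hcnt] at h2
  linarith

end Pool.Agent.H62.FC

end
end

section

set_option autoImplicit false

/-!
# Basic facts on the total space, and a criterion for non-hyperbolicity
-/

open MvPolynomial Topology Filter

namespace Pool.Agent.H99.Cover

variable {N : ℕ} {ι : Type}

/-- The exponential of the inverse takes every non-zero value near zero. -/
lemma exists_seq_exp_inv (σ : ℂ) (hσ : σ ≠ 0) :
    ∃ zs : ℕ → ℂ, Tendsto zs atTop (𝓝 0) ∧ ∀ᶠ n in atTop, zs n ≠ 0 ∧ Complex.exp (zs n)⁻¹ = σ := by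
  have h : Tendsto (fun n : ℕ => Complex.log σ + n * (2 * Real.pi * Complex.I)) atTop
      (Bornology.cobounded ℂ) := by
    rw [← tendsto_norm_atTop_iff_cobounded]
    have h1 : Tendsto (fun n : ℕ => (n : ℝ) * (2 * Real.pi) - ‖Complex.log σ‖) atTop atTop := by
      refine tendsto_atTop_add_const_right _ _ ?_
      exact (tendsto_natCast_atTop_atTop).atTop_mul_const (by positivity)
    refine tendsto_atTop_mono ?_ h1
    intro n
    have h2 : ‖(n : ℂ) * (2 * Real.pi * Complex.I)‖ = n * (2 * Real.pi) := by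
      rw [norm_mul, norm_mul, norm_mul]
      simp [Real.pi_pos.le, abs_of_nonneg]
    have h3 : ‖(n : ℂ) * (2 * Real.pi * Complex.I)‖ ≤
        ‖Complex.log σ + n * (2 * Real.pi * Complex.I)‖ + ‖Complex.log σ‖ := by
      have := norm_sub_le (Complex.log σ + n * (2 * Real.pi * Complex.I)) (Complex.log σ)
      simpa using this
    linarith
  refine ⟨fun n => (Complex.log σ + n * (2 * Real.pi * Complex.I))⁻¹,
    Filter.tendsto_inv₀_cobounded.comp h, ?_⟩
  have hne : ∀ᶠ n : ℕ in atTop, Complex.log σ + n * (2 * Real.pi * Complex.I) ≠ 0 := by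
    have h5 := h.eventually (Bornology.eventually_ne_cobounded (0 : ℂ))
    exact h5
  filter_upwards [hne] with n hn
  refine ⟨inv_ne_zero hn, ?_⟩
  rw [inv_inv, Complex.exp_add, Complex.exp_log hσ, Complex.exp_nat_mul_two_pi_mul_I, mul_one]

end Pool.Agent.H99.Cover

end

section

/-!
# The Brody property from the Picard property

PROOF: see the proof of `brody` in `Pool.Agent.H62.FC.PicardBrody` (`z ↦ f (exp (1 / z))`); a point
outside `Ξ` near `0` exists since `Ξ` is Zariski closed in `Y`.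
-/

open MvPolynomial Topology Filter MeasureTheory
open Pool.Agent.H17 (PN VanishesAt ZariskiClosedIn HolomorphicInto puncturedDisc vanishesAt_mk_iff)

noncomputable section

namespace Pool.Agent.H17R

variable {N : ℕ}

private theorem vanish_local {f : ℂ → PN N} {s : ℂ} {φ : ℂ → Fin (N + 1) → ℂ}
    (hφ : AnalyticAt ℂ φ s)
    (he : ∀ᶠ z in 𝓝 s, ∃ h : φ z ≠ 0, f z = Projectivization.mk ℂ (φ z) h)
    {Q : MvPolynomial (Fin (N + 1)) ℂ} {m : ℕ} (hQ : Q.IsHomogeneous m) :
    (∀ᶠ z in 𝓝 s, VanishesAt Q (f z)) ∨ (∀ᶠ z in 𝓝[≠] s, ¬ VanishesAt Q (f z)) := by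
  have h1 : AnalyticAt ℂ (fun z => aeval (φ z) Q) s :=
    AnalyticAt.aeval_mvPolynomial (fun i => analyticAt_pi_iff.mp hφ i) Q
  rcases h1.eventually_eq_zero_or_eventually_ne_zero with h | h
  · left
    filter_upwards [h, he] with z hz hfz
    obtain ⟨h2, h3⟩ := hfz
    rw [h3, Pool.Agent.H17.vanishesAt_mk_iff hQ]
    exact hz
  · right
    filter_upwards [h, he.filter_mono nhdsWithin_le_nhds] with z hz hfz
    obtain ⟨h2, h3⟩ := hfz
    rw [h3, Pool.Agent.H17.vanishesAt_mk_iff hQ]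
    exact hz

private theorem eq_of_sep {p q : PN N} (h : Pool.Agent.H17.sep p q = 0) : p = q := by
  have h1 := Pool.Agent.H17.eq_of_sepv_eq_zero p.rep_nonzero q.rep_nonzero h
  rwa [p.mk_rep, q.mk_rep] at h1

theorem brody_of_picard {Y Ξ : Set (PN N)} (hΞ : ZariskiClosedIn Y Ξ)
    (hpic : ∀ f : ℂ → PN N, HolomorphicInto f puncturedDisc → (∀ z ∈ puncturedDisc, f z ∈ Y) →
      (∃ z ∈ puncturedDisc, f z ∉ Ξ) →
      ∃ g : ℂ → PN N, HolomorphicInto g (Metric.ball 0 1) ∧ ∀ z ∈ puncturedDisc, g z = f z)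
    {f : ℂ → PN N} (hf : HolomorphicInto f Set.univ) (hfX : ∀ z, f z ∈ Y)
    (hne : ∃ z w, f z ≠ f w) (z : ℂ) : f z ∈ Ξ := by
  by_contra hz1
  -- a point different from `0` outside the exceptional set
  obtain ⟨w₀, hw₀, hw₀'⟩ : ∃ w, w ≠ 0 ∧ f w ∉ Ξ := by
    by_cases hz0 : z = 0
    · subst hz0
      obtain ⟨S, hS, hS'⟩ := hΞ
      have h1 : ∃ Q ∈ S, ¬ VanishesAt Q (f 0) := by
        by_contra hcon
        push Not at hcon
        apply hz1
        rw [hS']
        exact ⟨hfX 0, hcon⟩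
      obtain ⟨Q, hQS, hQ0⟩ := h1
      obtain ⟨m, hQ⟩ := hS Q hQS
      obtain ⟨φ, hφ, he⟩ := hf 0 (Set.mem_univ 0)
      rcases vanish_local hφ he hQ with h | h
      · exact absurd h.self_of_nhds hQ0
      · obtain ⟨w, hw1, hw2⟩ := (h.and self_mem_nhdsWithin).exists
        refine ⟨w, hw2, fun hw3 => hw1 ?_⟩
        rw [hS'] at hw3
        exact hw3.2 Q hQS
    · exact ⟨z, hz0, hz1⟩
  have hseq : ∀ w : ℂ, w ≠ 0 → ∃ zs : ℕ → ℂ, Tendsto zs atTop (𝓝 0) ∧
      ∀ᶠ n in atTop, zs n ∈ puncturedDisc ∧ Complex.exp (zs n)⁻¹ = w := by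
    intro w hw
    obtain ⟨zs, h1, h2⟩ := Pool.Agent.H99.Cover.exists_seq_exp_inv w hw
    refine ⟨zs, h1, ?_⟩
    filter_upwards [h2, h1.eventually (Metric.ball_mem_nhds (0 : ℂ) one_pos)] with n h3 h4
    exact ⟨⟨h4, h3.1⟩, h3.2⟩
  have hgh : HolomorphicInto (fun z => f (Complex.exp z⁻¹)) puncturedDisc := by
    refine Pool.Agent.H17.HolomorphicInto.comp hf (u := fun z => Complex.exp z⁻¹) ?_
      (fun _ _ => Set.mem_univ _)
    intro z hz
    have h1 : z ≠ 0 := hz.2
    exact (analyticAt_inv h1).cexp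
  obtain ⟨g, hg, hge⟩ := hpic _ hgh (fun z _ => hfX _) (by
    obtain ⟨zs, -, h2⟩ := hseq w₀ hw₀
    obtain ⟨n, h3, h4⟩ := h2.exists
    refine ⟨zs n, h3, ?_⟩
    rw [h4]
    exact hw₀')
  -- the map is constant off `0`
  have hconst : ∀ w : ℂ, w ≠ 0 → f w = g 0 := by
    intro w hw
    apply eq_of_sep
    obtain ⟨zs, h1, h2⟩ := hseq w hw
    have h3 := Pool.Agent.H17.tendsto_sep hg (Metric.mem_ball_self one_pos)
    have h4 : Tendsto (fun n => (zs n, (0 : ℂ))) atTop (𝓝 ((0 : ℂ), (0 : ℂ))) :=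
      h1.prodMk_nhds tendsto_const_nhds
    have h5 := h3.comp h4
    refine tendsto_nhds_unique (tendsto_const_nhds.congr' ?_) h5
    filter_upwards [h2] with n hn
    change Pool.Agent.H17.sep (f w) (g 0) = Pool.Agent.H17.sep (g (zs n)) (g 0)
    rw [hge (zs n) hn.1, hn.2]
  have hconst0 : f 0 = g 0 := by
    symm
    apply eq_of_sep
    have h3 := Pool.Agent.H17.tendsto_sep hf (Set.mem_univ (0 : ℂ))
    have h4 : Tendsto (fun w : ℂ => (w, (0 : ℂ))) (𝓝[≠] 0) (𝓝 ((0 : ℂ), (0 : ℂ))) :=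
      (tendsto_id.mono_left nhdsWithin_le_nhds).prodMk_nhds tendsto_const_nhds
    have h5 := h3.comp h4
    refine tendsto_nhds_unique (tendsto_const_nhds.congr' ?_) h5
    filter_upwards [self_mem_nhdsWithin] with w hw
    change Pool.Agent.H17.sep (g 0) (f 0) = Pool.Agent.H17.sep (f w) (f 0)
    rw [hconst w hw]
  have hall : ∀ w, f w = g 0 := by
    intro w
    by_cases hw : w = 0
    · rw [hw]
      exact hconst0
    · exact hconst w hw
  obtain ⟨a, b, hab⟩ := hne
  exact hab ((hall a).trans (hall b).symm)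

end Pool.Agent.H17R

end
end

section

/-!
# BPL Main: the equivalence of the hyperbolicity properties for surfaces of log general type
-/

set_option autoImplicit false

open Topology Filter MvPolynomial

noncomputable section

namespace Pool.Agent.H36.BPL

open Pool.Agent.H17 (PN VanishesAt ZariskiClosedIn HolomorphicInto puncturedDisc PseudoBrodyHyperbolic PseudoPicardHyperbolic)

variable {N : ℕ} {P : Ideal (MvPolynomial (Fin (N + 1)) ℂ)}

theorem brody_of_picard {X : Set (PN N)} (h : PseudoPicardHyperbolic X) : PseudoBrodyHyperbolic X := by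
  obtain ⟨Ξ, h1, h2, h3⟩ := h
  exact ⟨Ξ, h1, h2, fun f hf hfX hne z => Pool.Agent.H17R.brody_of_picard h1 h3 hf hfX hne z⟩

end Pool.Agent.H36.BPL

end
end

section

/-!
# MQK OkE: open parts of the cone
-/

set_option autoImplicit false

open Topology Filter Metric MvPolynomial

noncomputable section

namespace Pool.Agent.MQK

open Pool.Agent.H36.BP (EN)
open Pool.Agent.H36.BPL (OpenPart)
open Pool.Agent.H17EF (coneE)
open Pool.Agent.H17BP (Surface)

variable {M : ℕ} {P : Ideal (MvPolynomial (Fin (M + 1)) ℂ)} {RD Ra : MvPolynomial (Fin (M + 1)) ℂ} {Ko : Set (EN M)}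

/-- an open part is invariant under scaling -/
theorem smul_mem_iff (h : OpenPart (coneE P) Ko) {c : ℂ} (hc : c ≠ 0) {x : EN M} : c • x ∈ Ko ↔ x ∈ Ko := by
  constructor
  · intro h1
    have h2 := h.smul _ h1 c⁻¹ (inv_ne_zero hc)
    rwa [smul_smul, inv_mul_cancel₀ hc, one_smul] at h2
  · intro h1
    exact h.smul _ h1 c hc

end Pool.Agent.MQK

end
end

section

/-!
# MQL PBb: the bihomogeneous components of a polynomial

`comp_zero`: if a polynomial `G` vanishes at all points `(c x, d z)`, `c ≠ 0 ≠ d`, then so do its bihomogeneous components.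
-/

set_option autoImplicit false

open MvPolynomial

noncomputable section

namespace Pool.Agent.MQL.PB

variable {ι : Type}

/-- the monomials of `G` of weight `n` -/
def comp (w : ι → ℕ × ℕ) (n : ℕ × ℕ) (G : MvPolynomial ι ℂ) : MvPolynomial ι ℂ :=
  ∑ s ∈ G.support with (s.sum fun i k => k • w i) = n, monomial s (coeff s G)

/-- the value of a monomial -/
private def mv (y : ι → ℂ) (s : ι →₀ ℕ) : ℂ := s.prod fun i k => y i ^ k

private theorem mv_scale (w : ι → ℕ × ℕ) (y : ι → ℂ) (c d : ℂ) (s : ι →₀ ℕ) :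
    mv (fun i => c ^ (w i).1 * d ^ (w i).2 * y i) s = c ^ (s.sum fun i k => k • w i).1 * d ^ (s.sum fun i k => k • w i).2 * mv y s := by
  simp only [mv, Finsupp.prod, Finsupp.sum, Prod.fst_sum, Prod.snd_sum, ← Finset.prod_pow_eq_pow_sum]
  rw [← Finset.prod_mul_distrib, ← Finset.prod_mul_distrib]
  refine Finset.prod_congr rfl fun i _ => ?_
  rw [mul_pow, mul_pow, ← pow_mul, ← pow_mul]
  simp only [Prod.smul_fst, Prod.smul_snd, smul_eq_mul]
  rw [mul_comm (w i).1, mul_comm (w i).2]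

private theorem eval_mono (y : ι → ℂ) (s : ι →₀ ℕ) (a : ℂ) : eval y (monomial s a) = a * mv y s := by
  rw [eval_monomial, mv]

private theorem eval_eq' (y : ι → ℂ) (G : MvPolynomial ι ℂ) : eval y G = ∑ s ∈ G.support, coeff s G * mv y s := by
  conv_lhs => rw [G.as_sum]
  rw [map_sum]
  exact Finset.sum_congr rfl fun s _ => eval_mono y s _

private theorem eval_comp (w : ι → ℕ × ℕ) (n : ℕ × ℕ) (G : MvPolynomial ι ℂ) (y : ι → ℂ) :
    eval y (comp w n G) = ∑ s ∈ G.support with (s.sum fun i k => k • w i) = n, coeff s G * mv y s := by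
  rw [comp, map_sum]
  exact Finset.sum_congr rfl fun s _ => eval_mono y s _

/-- the components are homogeneous -/
theorem eval_comp_scale (w : ι → ℕ × ℕ) (n : ℕ × ℕ) (G : MvPolynomial ι ℂ) (y : ι → ℂ) (c d : ℂ) :
    eval (fun i => c ^ (w i).1 * d ^ (w i).2 * y i) (comp w n G) = c ^ n.1 * d ^ n.2 * eval y (comp w n G) := by
  rw [eval_comp, eval_comp, Finset.mul_sum]
  refine Finset.sum_congr rfl fun s hs => ?_
  rw [mv_scale, (Finset.mem_filter.1 hs).2]
  ring

/-- a polynomial whose components vanish at a point vanishes there -/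
theorem exists_comp {w : ι → ℕ × ℕ} {G : MvPolynomial ι ℂ} {y : ι → ℂ} (h : eval y G ≠ 0) : ∃ n, eval y (comp w n G) ≠ 0 := by
  classical
  by_contra hcon
  push Not at hcon
  apply h
  rw [eval_eq', ← Finset.sum_fiberwise_of_maps_to (s := G.support) (t := G.support.image fun s => s.sum fun i k => k • w i)
    (g := fun s => s.sum fun i k => k • w i) fun s hs => Finset.mem_image_of_mem _ hs]
  refine Finset.sum_eq_zero fun n _ => ?_
  rw [← eval_comp]
  exact hcon n

/-- **The components.** -/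
theorem comp_zero {w : ι → ℕ × ℕ} {G : MvPolynomial ι ℂ} {y : ι → ℂ}
    (h : ∀ c d : ℂ, c ≠ 0 → d ≠ 0 → eval (fun i => c ^ (w i).1 * d ^ (w i).2 * y i) G = 0) (n : ℕ × ℕ) : eval y (comp w n G) = 0 := by
  classical
  obtain ⟨W, hW⟩ : ∃ W : (ι →₀ ℕ) → ℕ × ℕ, W = fun s => s.sum fun i k => k • w i := ⟨_, rfl⟩
  obtain ⟨K, hK⟩ : ∃ K : ℕ, ∀ s ∈ G.support, (W s).1 < K := by
    refine ⟨(G.support.sup fun s => (W s).1) + 1, fun s hs => Nat.lt_succ_of_le ?_⟩
    exact Finset.le_sup (f := fun s => (W s).1) hs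
  have hco : ∀ s, (s.sum fun i k => k • w i) = W s := fun s => by rw [hW]
  by_cases hn : n.1 < K
  · obtain ⟨p, hp⟩ : ∃ p : Polynomial ℂ, p = ∑ s ∈ G.support, Polynomial.monomial ((W s).1 + K * (W s).2) (coeff s G * mv y s) := ⟨_, rfl⟩
    have hp0 : p = 0 := by
      refine Polynomial.eq_zero_of_infinite_isRoot p (Set.Infinite.mono (s := {c : ℂ | c ≠ 0}) (fun c hc => ?_) ?_)
      · have hc' : c ≠ 0 := hc
        have h1 := h c (c ^ K) hc' (pow_ne_zero _ hc')
        rw [eval_eq'] at h1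
        show p.eval c = 0
        rw [hp, Polynomial.eval_finsetSum, ← h1]
        refine Finset.sum_congr rfl fun s _ => ?_
        rw [Polynomial.eval_monomial, mv_scale, hco, pow_add, pow_mul]
        ring
      · exact (Set.finite_singleton (0 : ℂ)).infinite_compl
    have h2 : p.coeff (n.1 + K * n.2) = 0 := by rw [hp0, Polynomial.coeff_zero]
    rw [eval_comp, ← h2, hp, Polynomial.finsetSum_coeff, Finset.sum_filter]
    refine Finset.sum_congr rfl fun s hs => ?_
    rw [Polynomial.coeff_monomial, hco]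
    have h3 : (W s).1 + K * (W s).2 = n.1 + K * n.2 ↔ W s = n := by
      constructor
      · intro h4
        have h5 : (W s).1 = n.1 := by
          have h6 := congrArg (fun t => t % K) h4
          simp only [Nat.add_mul_mod_self_left] at h6
          rwa [Nat.mod_eq_of_lt (hK s hs), Nat.mod_eq_of_lt hn] at h6
        have h7 : (W s).2 = n.2 := by
          rw [h5] at h4
          have h8 : K * (W s).2 = K * n.2 := Nat.add_left_cancel h4
          exact Nat.eq_of_mul_eq_mul_left (lt_of_le_of_lt (Nat.zero_le _) hn) h8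
        exact Prod.ext h5 h7
      · intro h4
        rw [h4]
    by_cases h4 : W s = n
    · rw [if_pos h4, if_pos (h3.2 h4)]
    · rw [if_neg h4, if_neg fun h5 => h4 (h3.1 h5)]
  · rw [eval_comp]
    refine Finset.sum_eq_zero fun s hs => ?_
    exfalso
    have h1 := Finset.mem_filter.1 hs
    have h2 := hK s h1.1
    rw [hco] at h1
    rw [h1.2] at h2
    exact hn h2

end Pool.Agent.MQL.PB

end
end

section

/-!
# SR2 T Defs: compact definitions for the texts on logarithmic symmetric differentials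

`P` is the ideal of a closed surface `X ⊆ ℙ^N`, `H` a form (or finitely many forms), `U` the complement of `{H = 0}` in `X`.  Points of the affine cones
are vectors of `ℂ^(N+1)` with the Euclidean norm.
-/

set_option autoImplicit false

open Topology Filter Metric MvPolynomial

noncomputable section

namespace Pool.Agent.SR2.T

variable {N M k s : ℕ}

/-- `ℂ^(N+1)` with the Euclidean norm -/
abbrev V (N : ℕ) : Type := EuclideanSpace ℂ (Fin (N + 1))

/-- `v` is a tangent vector of `X` at `x` -/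
def Tan (X : Set (V N)) (x v : V N) : Prop :=
  ∃ F : ℂ → V N, (AnalyticAt ℂ F 0 ∧ ∀ᶠ z in 𝓝 (0 : ℂ), F z ∈ X) ∧ F 0 = x ∧ deriv F 0 = v

end Pool.Agent.SR2.T

end
end

section

/-!
# MQK SDefs: the open surface, weights with poles, curves which avoid the boundary, exponents

The definitions of `MQL/SDefs` for an arbitrary open part `Ko` of the cone: the complement of a curve `D` which is locally given by one equation
(`H36/BPL: OpenPart`).  The boundary is contained in the divisor `{RD = 0}` of the model.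

* `LW`: `Wf` is a section of `mK (K + D) - jH H` with poles of order at most `mK - 1` along `D`.
* `LCrv`: the curves of the theorem, they avoid `D`.
* `exX Ko mK φ q`, `exY Ko mK φ q`: the exponents of the two lines through `q` in the parametrization `φ`: `1 / mK - 1` if the line lies in `D`, otherwise `0`.
-/

set_option autoImplicit false

open Topology Filter Metric MvPolynomial MeasureTheory Laplacian

noncomputable section

namespace Pool.Agent.MQK

open Pool.Agent.H36.BP (EN)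
open Pool.Agent.H17BP (Surface IsForm)
open Pool.Agent.H36.BPL (OpenPart PoleLE)
open Pool.Agent.H17EF (coneE)
open Pool.Agent.MQ3

variable {M : ℕ}

/-- the boundary is contained in `{RD = 0}` -/
structure DivB (P : Ideal (MvPolynomial (Fin (M + 1)) ℂ)) (RD : MvPolynomial (Fin (M + 1)) ℂ) (Ko : Set (EN M)) : Prop where
  op : OpenPart (coneE P) Ko
  le : ∀ x ∈ coneE P, x ∉ Ko → eval x.ofLp RD = 0

/-- a section of `mK (K + D) - jH H` with poles of order at most `mK - 1` -/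
structure LW (P : Ideal (MvPolynomial (Fin (M + 1)) ℂ)) (Ko : Set (EN M)) (mK jH : ℕ) (Wf : EN M → EN M → EN M → ℂ) : Prop where
  one_m : 1 ≤ mK
  op : OpenPart (coneE P) Ko
  form : IsForm Ko mK jH Wf
  pole : PoleLE (coneE P) Ko (mK - 1) Wf

variable {P : Ideal (MvPolynomial (Fin (M + 1)) ℂ)} {m : ℕ}

/-- the curves of the theorem avoid the boundary -/
structure LCrv (θ : WDiff (coneE P) m) (RD : MvPolynomial (Fin (M + 1)) ℂ) (Ko : Set (EN M)) (Ra : MvPolynomial (Fin (M + 1)) ℂ) (F : ℂ → EN M) : Prop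
    extends RCrv θ RD Ra F where
  avoid : ∀ z, F z ∈ Ko

open Classical in
/-- the exponent of the line `x = q.1` -/
def exX (Ko : Set (EN M)) (mK : ℕ) (φ : ℂ × ℂ → EN M) (q : ℂ × ℂ) : ℝ :=
  if ∀ᶠ t in 𝓝 (0 : ℂ), φ (q.1, q.2 + t) ∉ Ko then (mK : ℝ)⁻¹ - 1 else 0

open Classical in
/-- the exponent of the line `y = q.2` -/
def exY (Ko : Set (EN M)) (mK : ℕ) (φ : ℂ × ℂ → EN M) (q : ℂ × ℂ) : ℝ :=
  if ∀ᶠ t in 𝓝 (0 : ℂ), φ (q.1 + t, q.2) ∉ Ko then (mK : ℝ)⁻¹ - 1 else 0

end Pool.Agent.MQK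

end
end
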