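import Pool.Agent.H43.TL2.M104
import Pool.Agent.H43.TL2.M106
import Pool.Agent.H43.TL2.M108
import Pool.Agent.H43.TL2.M47
import Pool.Agent.H43.TL2.M84

/-! The parts of this file: H17R.Curve, H62.LGC.CurveEv, H62.LGC.Main, H62.LGC.Final, SR2.T.CvG. -/

section

/-!
# Forms along a holomorphic map from the punctured disc

Almost everything is in the private lemmas of `Pool.Agent.H62.FC.PicardBrody`
(`preconnected_puncturedDisc`, `vanish_local`, `vanish_dich`, `exists_lift`, `ord_eq_zero_of_ne`,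
`quot_mero`, `quot_meroPunct`, `ord_quot`, `eval_quot`), for coordinates; copy and adapt them.

`locFin_vord`: if `vord f Q s ≠ 0` then `Q` vanishes at `f s` (`vord_eq_zero`), and by `NonVan` every
`s` in the punctured disc has a punctured neighbourhood without such points; the annulus
`r ≤ ‖s‖ ≤ b` is compact.
-/

open MvPolynomial Topology Filter
open Pool.Agent.H92.GGL (ordZ)
open Pool.Agent.H17 (PN VanishesAt HolomorphicInto puncturedDisc vanishesAt_mk_iff)
open Pool.Agent.H62.FC (MeroPunct LocFin)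

noncomputable section

namespace Pool.Agent.H17R

variable {N : ℕ}

/-- The form `Q` does not vanish identically along `f`. -/
def NonVan (f : ℂ → PN N) (Q : MvPolynomial (Fin (N + 1)) ℂ) : Prop :=
  ∀ s ∈ puncturedDisc, ∀ᶠ z in 𝓝[≠] s, ¬ VanishesAt Q (f z)

open Classical in
/-- A local lift of `f` near `s`. -/
def lift (f : ℂ → PN N) (s : ℂ) : ℂ → Fin (N + 1) → ℂ :=
  if h : ∃ φ : ℂ → Fin (N + 1) → ℂ, AnalyticAt ℂ φ s ∧
    ∀ᶠ z in 𝓝 s, ∃ h : φ z ≠ 0, f z = Projectivization.mk ℂ (φ z) h then h.choose else 0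

/-- The form `Q` in the affine coordinates `x l / x i`, along `f`. -/
def val (f : ℂ → PN N) (i : Fin (N + 1)) (Q : MvPolynomial (Fin (N + 1)) ℂ) (z : ℂ) : ℂ :=
  eval (fun l => (f z).rep l / (f z).rep i) Q

private theorem preconnected_puncturedDisc : IsPreconnected puncturedDisc := by
  have h : puncturedDisc = Complex.exp '' {z : ℂ | z.re < 0} := by
    ext z
    constructor
    · rintro ⟨h1, h2⟩
      have h3 : z ≠ 0 := h2
      refine ⟨Complex.log z, ?_, Complex.exp_log h3⟩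
      rw [mem_ball_zero_iff] at h1
      change (Complex.log z).re < 0
      rw [Complex.log_re]
      exact Real.log_neg (norm_pos_iff.mpr h3) h1
    · rintro ⟨w, hw, rfl⟩
      refine ⟨?_, Complex.exp_ne_zero w⟩
      rw [mem_ball_zero_iff, Complex.norm_exp]
      have h1 := Real.exp_lt_exp.mpr hw
      rwa [Real.exp_zero] at h1
  rw [h]
  exact (convex_halfSpace_re_lt 0).isPreconnected.image _ Complex.continuous_exp.continuousOn

private theorem mem_puncturedDisc {z : ℂ} : z ∈ puncturedDisc ↔ 0 < ‖z‖ ∧ ‖z‖ < 1 := by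
  unfold puncturedDisc
  rw [Set.mem_sdiff, mem_ball_zero_iff, Set.mem_singleton_iff, norm_pos_iff]
  exact and_comm

private theorem vanish_local {f : ℂ → PN N} {s : ℂ} {φ : ℂ → Fin (N + 1) → ℂ}
    (hφ : AnalyticAt ℂ φ s)
    (he : ∀ᶠ z in 𝓝 s, ∃ h : φ z ≠ 0, f z = Projectivization.mk ℂ (φ z) h)
    {Q : MvPolynomial (Fin (N + 1)) ℂ} {m : ℕ} (hQ : Q.IsHomogeneous m) :
    (∀ᶠ z in 𝓝 s, VanishesAt Q (f z)) ∨ (∀ᶠ z in 𝓝[≠] s, ¬ VanishesAt Q (f z)) := by
  have h1 : AnalyticAt ℂ (fun z => aeval (φ z) Q) s :=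
    AnalyticAt.aeval_mvPolynomial (fun i => analyticAt_pi_iff.mp hφ i) Q
  rcases h1.eventually_eq_zero_or_eventually_ne_zero with h | h
  · left
    filter_upwards [h, he] with z hz hfz
    obtain ⟨h2, h3⟩ := hfz
    rw [h3, Pool.Agent.H17.vanishesAt_mk_iff hQ]
    exact hz
  · right
    filter_upwards [h, he.filter_mono nhdsWithin_le_nhds] with z hz hfz
    obtain ⟨h2, h3⟩ := hfz
    rw [h3, Pool.Agent.H17.vanishesAt_mk_iff hQ]
    exact hz

/-- the identity principle -/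
private theorem vanish_dich {f : ℂ → PN N} (hf : HolomorphicInto f puncturedDisc)
    {Q : MvPolynomial (Fin (N + 1)) ℂ} {m : ℕ} (hQ : Q.IsHomogeneous m) :
    (∀ s ∈ puncturedDisc, ∀ᶠ z in 𝓝 s, VanishesAt Q (f z)) ∨
      (∀ s ∈ puncturedDisc, ∀ᶠ z in 𝓝[≠] s, ¬ VanishesAt Q (f z)) := by
  have hou : IsOpen {s | ∀ᶠ z in 𝓝 s, VanishesAt Q (f z)} := isOpen_setOfPred_eventually_nhds
  have hov : IsOpen {s | ∀ᶠ z in 𝓝[≠] s, ¬ VanishesAt Q (f z)} :=
    isOpen_setOfPred_eventually_nhdsWithin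
  have hd : Disjoint {s | ∀ᶠ z in 𝓝 s, VanishesAt Q (f z)}
      {s | ∀ᶠ z in 𝓝[≠] s, ¬ VanishesAt Q (f z)} := by
    rw [Set.disjoint_left]
    intro s hs hs'
    have h1 : ∀ᶠ z in 𝓝 s, VanishesAt Q (f z) := hs
    have h2 : ∀ᶠ z in 𝓝[≠] s, ¬ VanishesAt Q (f z) := hs'
    obtain ⟨z, h3, h4⟩ := ((h1.filter_mono nhdsWithin_le_nhds).and h2).exists
    exact h4 h3
  have hsub : puncturedDisc ⊆ {s | ∀ᶠ z in 𝓝 s, VanishesAt Q (f z)} ∪
      {s | ∀ᶠ z in 𝓝[≠] s, ¬ VanishesAt Q (f z)} := by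
    intro s hs
    obtain ⟨φ, hφ, he⟩ := hf s hs
    exact vanish_local hφ he hQ
  by_cases hne : (puncturedDisc ∩ {s | ∀ᶠ z in 𝓝 s, VanishesAt Q (f z)}).Nonempty
  · left
    intro s hs
    exact (preconnected_puncturedDisc.subset_left_of_subset_union hou hov hd hsub hne) hs
  · right
    intro s hs
    rcases hsub hs with h | h
    · exact absurd ⟨s, hs, h⟩ hne
    · exact h

/-! ### The local lift -/

private theorem lift_spec {f : ℂ → PN N} (hf : HolomorphicInto f puncturedDisc) {s : ℂ}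
    (hs : s ∈ puncturedDisc) : AnalyticAt ℂ (lift f s) s ∧
      ∀ᶠ z in 𝓝 s, ∃ h : lift f s z ≠ 0, f z = Projectivization.mk ℂ (lift f s z) h := by
  have h := hf s hs
  have e : lift f s = h.choose := by
    unfold lift
    exact dif_pos h
  rw [e]
  exact h.choose_spec

private theorem lift_analytic (f : ℂ → PN N) (s : ℂ) : AnalyticAt ℂ (lift f s) s := by
  by_cases h : ∃ φ : ℂ → Fin (N + 1) → ℂ, AnalyticAt ℂ φ s ∧
      ∀ᶠ z in 𝓝 s, ∃ h : φ z ≠ 0, f z = Projectivization.mk ℂ (φ z) h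
  · have e : lift f s = h.choose := by
      unfold lift
      exact dif_pos h
    rw [e]
    exact h.choose_spec.1
  · have e : lift f s = 0 := by
      unfold lift
      exact dif_neg h
    rw [e]
    exact analyticAt_const

private theorem eval_analytic (f : ℂ → PN N) (Q : MvPolynomial (Fin (N + 1)) ℂ) (s : ℂ) :
    AnalyticAt ℂ (fun z => eval (lift f s z) Q) s := by
  have h := AnalyticAt.aeval_mvPolynomial
    (fun i => analyticAt_pi_iff.mp (lift_analytic f s) i) Q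
  simpa only [MvPolynomial.aeval_def, MvPolynomial.eval₂_eq_eval_map, Algebra.algebraMap_self,
    MvPolynomial.map_id] using h

private theorem lift_ne {f : ℂ → PN N} (hf : HolomorphicInto f puncturedDisc)
    {Q : MvPolynomial (Fin (N + 1)) ℂ} {n : ℕ} (hQ : Q.IsHomogeneous n) (h : NonVan f Q) {s : ℂ}
    (hs : s ∈ puncturedDisc) : ∀ᶠ z in 𝓝[≠] s, eval (lift f s z) Q ≠ 0 := by
  filter_upwards [h s hs, (lift_spec hf hs).2.filter_mono nhdsWithin_le_nhds] with z h1 h2
  obtain ⟨h3, h4⟩ := h2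
  rw [h4, vanishesAt_mk_iff hQ] at h1
  exact h1

/-- `val` in terms of the lift. -/
private theorem val_lift {f : ℂ → PN N} (hf : HolomorphicInto f puncturedDisc)
    {Q : MvPolynomial (Fin (N + 1)) ℂ} {n : ℕ} (hQ : Q.IsHomogeneous n) {i : Fin (N + 1)}
    (hi : NonVan f (X i)) {s : ℂ} (hs : s ∈ puncturedDisc) :
    (fun z => eval (lift f s z) Q) =ᶠ[𝓝[≠] s]
      fun z => val f i Q z * eval (lift f s z) (X i) ^ n := by
  filter_upwards [lift_ne hf (isHomogeneous_X ℂ i) hi hs,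
    (lift_spec hf hs).2.filter_mono nhdsWithin_le_nhds] with z h1 h2
  obtain ⟨h3, h4⟩ := h2
  obtain ⟨a, ha, h5⟩ := Pool.Agent.H17.exists_smul_rep (lift f s z) h3
  rw [eval_X] at h1 ⊢
  have e1 : (fun l => (f z).rep l / (f z).rep i) =
      fun l => (lift f s z i)⁻¹ * lift f s z l := by
    funext l
    rw [h4, h5, Pi.smul_apply, Pi.smul_apply, smul_eq_mul, smul_eq_mul,
      mul_div_mul_left _ _ ha]
    field_simp
  unfold val
  rw [e1, Pool.Agent.H17.eval_smul_of_isHomogeneous hQ, mul_right_comm, ← mul_pow,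
    inv_mul_cancel₀ h1, one_pow, one_mul]

private theorem val_mero {f : ℂ → PN N} (hf : HolomorphicInto f puncturedDisc)
    {Q : MvPolynomial (Fin (N + 1)) ℂ} {n : ℕ} (hQ : Q.IsHomogeneous n) {i : Fin (N + 1)}
    (hi : NonVan f (X i)) {s : ℂ} (hs : s ∈ puncturedDisc) : MeromorphicAt (val f i Q) s := by
  have h1 : MeromorphicAt (fun z => eval (lift f s z) Q / eval (lift f s z) (X i) ^ n) s :=
    (eval_analytic f Q s).meromorphicAt.fun_div ((eval_analytic f (X i) s).meromorphicAt.fun_pow n)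
  refine h1.congr ?_
  filter_upwards [val_lift hf hQ hi hs, lift_ne hf (isHomogeneous_X ℂ i) hi hs] with z h2 h3
  rw [h2, mul_div_cancel_right₀ _ (pow_ne_zero _ h3)]

variable {f : ℂ → PN N} {Q Q' : MvPolynomial (Fin (N + 1)) ℂ} {n n' : ℕ} {i : Fin (N + 1)} {s : ℂ}

/-- The identity principle. -/
theorem nonVan_or (hf : HolomorphicInto f puncturedDisc) (hQ : Q.IsHomogeneous n) :
    (∀ s ∈ puncturedDisc, VanishesAt Q (f s)) ∨ NonVan f Q := by
  rcases vanish_dich hf hQ with h | h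
  · left
    intro s hs
    exact (h s hs).self_of_nhds
  · exact Or.inr h

/-- `val` in terms of the value at the representative. -/
theorem val_eq (hQ : Q.IsHomogeneous n) {z : ℂ} (h : (f z).rep i ≠ 0) :
    val f i Q z = eval (f z).rep Q / (f z).rep i ^ n := by
  have e1 : (fun l => (f z).rep l / (f z).rep i) = fun l => ((f z).rep i)⁻¹ * (f z).rep l := by
    funext l
    rw [div_eq_inv_mul]
  unfold val
  rw [e1, Pool.Agent.H17.eval_smul_of_isHomogeneous hQ, inv_pow, div_eq_inv_mul]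

theorem val_meroPunct (hf : HolomorphicInto f puncturedDisc) (hQ : Q.IsHomogeneous n)
    (h : NonVan f Q) (hi : NonVan f (X i)) : MeroPunct 1 (val f i Q) := by
  constructor
  · intro z h1 h2
    exact val_mero hf hQ hi (mem_puncturedDisc.mpr ⟨h1, h2⟩)
  · intro z h1 h2
    have hs := mem_puncturedDisc.mpr ⟨h1, h2⟩
    rw [meromorphicOrderAt_ne_top_iff_eventually_ne_zero (val_mero hf hQ hi hs)]
    filter_upwards [val_lift hf hQ hi hs, lift_ne hf hQ h hs] with w h3 h4 h5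
    rw [h3, h5, zero_mul] at h4
    exact h4 rfl

end Pool.Agent.H17R

end
end

section

/-!
# LGC CurveEv: evaluation of the rational functions of a projective variety along a map

PROOF of `exists_ev`.  `x l := ratio I l i₀ : FunField I`, `v l z := (f z).rep l / (f z).rep i₀ = val f i₀ (X l) z` (`Pool/Agent/H17R/Curve.lean`).
(1) For every polynomial `A : MvPolynomial (Fin (N + 1)) ℂ` there are `n` and a form `A' ` of degree `n` (the homogenisation
`∑ k, X i₀ ^ (n - k) * homogeneousComponent k A`, `n = A.totalDegree`, see `TrdegLt_hom` in `Pool/Agent/H17BP/TrdegLt.lean`) with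
`aeval x A' = aeval x A` and `eval (v z) A' = eval (v z) A` when `(f z).rep i₀ ≠ 0` (because `x i₀ = 1`, `v i₀ z = 1`).  For a form `A'`:
`aeval x A' = 0 ↔ A' ∈ I` (search `aeval` and `ratio` in `Pool/Agent/H17LG`, `H62/FC/GradedField.lean`, `H17BP/TrdegLt.lean`),
`A' ∈ I = mapIdeal f D* ↔ ∀ z, VanishesAt A' (f z)` (`mem_mapIdeal_form`), and if not then `NonVan f A'` (`nonVan_or`).  So
`aeval x A = 0 → ∀ s, ∀ᶠ z in 𝓝[≠] s, eval (v z) A = 0` and `aeval x A ≠ 0 → ∀ s, ∀ᶠ z in 𝓝[≠] s, eval (v z) A ≠ 0`.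
(2) Every `g : FunField I` is `aeval x A / aeval x B` with `aeval x B ≠ 0` (`FunField I = functionField I` is generated by the ratios
`coordFun i / coordFun j = x i / x j`: `IntermediateField.adjoin_induction`, or the lemma of `Pool/Agent/H17GT` about it).
(3) `ψ g z := eval (v z) A / eval (v z) B` with chosen `A`, `B`.  If also `g = aeval x A' / aeval x B'` then `A B' - A' B` is killed by `aeval x`, so the
two quotients agree near every `s` (punctured).  `Ev` follows.  Meromorphy: `v l` is meromorphic (`val_meroPunct`, or zero), polynomials in them.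
PROOF of `not_onBd`.  Let `E` be under `s`, `OnBd I G E`: `j` with `X j ∉ I`, `0 ≤ E.ord (ratio I l j)` for all `l`,
`0 < E.ord (aeval (fun i => ratio I i j) (G m))` for all `m`.  Let `φ` be a lift of `f` near `s`, `φ s ≠ 0`.  `ψ (ratio I l j)` is eventually
`φ l / φ j` (`ratio I l j = ratio I l i₀ / ratio I j i₀`, `Ev.div`).  If `φ s j = 0`, choose `l` with `φ s l ≠ 0`: the order of `φ l / φ j` is negative:
contradiction.  So `φ s j ≠ 0` and the order of `G m (φ) / φ j ^ e` is positive for all `m`, so `G m (φ s) = 0` for all `m`: contradiction to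
`f s ∈ locVar I G`.
-/

set_option autoImplicit false

open Topology Filter MvPolynomial
open Pool.Agent.H17 (PN VanishesAt HolomorphicInto puncturedDisc)
open Pool.Agent.H23.Fano (PrimeDivisorOver)
open Pool.Agent.H17LG.Variety (FunField ratio)
open Pool.Agent.H17GT (coordFun functionField)
open Pool.Agent.H17BP (mapIdeal)
open Pool.Agent.H62.FC (Homog)
open Pool.Agent.H62.SA (locVar OnBd)

noncomputable section

namespace Pool.Agent.H62.LGC

variable {N : ℕ} {I : Ideal (MvPolynomial (Fin (N + 1)) ℂ)} {f : ℂ → PN N}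

/-! ### Auxiliary lemmas for `exists_ev` -/

private theorem CurveEv_scale {K : Type} [Field K] [Algebra ℂ K] {G : MvPolynomial (Fin (N + 1)) ℂ} {n : ℕ}
    (hG : G.IsHomogeneous n) (c : K) (x : Fin (N + 1) → K) :
    aeval (fun i => c * x i) G = c ^ n * aeval x G := by
  rw [aeval_def, aeval_def, eval₂_eq, eval₂_eq, Finset.mul_sum]
  refine Finset.sum_congr rfl fun m hm => ?_
  have h5 : ∑ i ∈ m.support, m i = n := by
    have := hG (mem_support_iff.1 hm)
    rw [Finsupp.weight_apply, Finsupp.sum] at this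
    simpa using this
  simp only [mul_pow, Finset.prod_mul_distrib]
  rw [Finset.prod_pow_eq_pow_sum, h5]
  ring

private theorem CurveEv_coordFun (P : Ideal (MvPolynomial (Fin (N + 1)) ℂ)) [P.IsPrime]
    (G : MvPolynomial (Fin (N + 1)) ℂ) : aeval (coordFun P) G = 0 ↔ G ∈ P := by
  have h7 : aeval (coordFun P) G =
      algebraMap (MvPolynomial (Fin (N + 1)) ℂ ⧸ P)
        (FractionRing (MvPolynomial (Fin (N + 1)) ℂ ⧸ P)) (Ideal.Quotient.mk P G) := by
    have h8 : (aeval (coordFun P) : MvPolynomial (Fin (N + 1)) ℂ →ₐ[ℂ] _) =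
        (IsScalarTower.toAlgHom ℂ (MvPolynomial (Fin (N + 1)) ℂ ⧸ P)
          (FractionRing (MvPolynomial (Fin (N + 1)) ℂ ⧸ P))).comp (Ideal.Quotient.mkₐ ℂ P) := by
      apply MvPolynomial.algHom_ext
      intro i
      rw [aeval_X]
      rfl
    rw [h8]
    rfl
  rw [h7, ← Ideal.Quotient.eq_zero_iff_mem]
  exact map_eq_zero_iff _ (IsFractionRing.injective (MvPolynomial (Fin (N + 1)) ℂ ⧸ P)
    (FractionRing (MvPolynomial (Fin (N + 1)) ℂ ⧸ P)))

/-- The generic point, normalised at a coordinate. -/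
private theorem CurveEv_point (P : Ideal (MvPolynomial (Fin (N + 1)) ℂ)) [P.IsPrime] {j₀ : Fin (N + 1)}
    (hj : (X j₀ : MvPolynomial (Fin (N + 1)) ℂ) ∉ P) :
    ratio P j₀ j₀ = 1 ∧ IntermediateField.adjoin ℂ (Set.range fun l => ratio P l j₀) = ⊤ ∧
      ∀ (n : ℕ) (G : MvPolynomial (Fin (N + 1)) ℂ), G.IsHomogeneous n →
        (aeval (fun l => ratio P l j₀) G = 0 ↔ G ∈ P) := by
  classical
  have hj₀ : coordFun P j₀ ≠ 0 := by
    intro h0
    apply hj
    rw [← CurveEv_coordFun, aeval_X]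
    exact h0
  have hmem : ∀ i, coordFun P i / coordFun P j₀ ∈ functionField P := fun i =>
    IntermediateField.subset_adjoin _ _ ⟨i, j₀, rfl⟩
  obtain ⟨x, hx⟩ : ∃ x : Fin (N + 1) → functionField P, x = fun i => ⟨coordFun P i / coordFun P j₀, hmem i⟩ :=
    ⟨_, rfl⟩
  have hxr : (fun l => ratio P l j₀) = x := hx.symm
  rw [hxr]
  have hx1 : x j₀ = 1 := by
    apply Subtype.ext
    rw [hx]
    exact div_self hj₀
  have hratio : ∀ i j, ((x i / x j : functionField P) :
      FractionRing (MvPolynomial (Fin (N + 1)) ℂ ⧸ P)) = coordFun P i / coordFun P j := by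
    intro i j
    have h1 : ((x i / x j : functionField P) :
      FractionRing (MvPolynomial (Fin (N + 1)) ℂ ⧸ P)) =
        (coordFun P i / coordFun P j₀) / (coordFun P j / coordFun P j₀) := by
      rw [hx]
      rfl
    rw [h1, div_div_div_cancel_right₀ hj₀]
  have hgen : IntermediateField.adjoin ℂ {y | ∃ i j, y = x i / x j} = ⊤ := by
    rw [← IntermediateField.lift_inj, IntermediateField.lift_adjoin, IntermediateField.lift_top]
    conv_rhs => rw [functionField]
    congr 1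
    ext y
    constructor
    · rintro ⟨y', ⟨i, j, rfl⟩, rfl⟩
      exact ⟨i, j, hratio i j⟩
    · rintro ⟨i, j, rfl⟩
      exact ⟨x i / x j, ⟨i, j, rfl⟩, hratio i j⟩
  refine ⟨?_, ?_, ?_⟩
  · have := congrFun hxr j₀
    exact this.trans hx1
  · change IntermediateField.adjoin ℂ (Set.range x) = ⊤
    rw [eq_top_iff, ← hgen, IntermediateField.adjoin_le_iff]
    rintro y ⟨i, j, rfl⟩
    exact div_mem (IntermediateField.subset_adjoin _ _ ⟨i, rfl⟩)
      (IntermediateField.subset_adjoin _ _ ⟨j, rfl⟩)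
  · intro n G hG
    change aeval x G = 0 ↔ G ∈ P
    have h1 : ((aeval x G : functionField P) : FractionRing (MvPolynomial (Fin (N + 1)) ℂ ⧸ P)) =
        aeval (fun i => (coordFun P j₀)⁻¹ * coordFun P i) G := by
      have h3 : ((functionField P).val (aeval x G)) =
          aeval (fun i => (functionField P).val (x i)) G := by
        rw [← MvPolynomial.comp_aeval]
        rfl
      change (functionField P).val (aeval x G) = _
      rw [h3]
      congr 2
      funext i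
      rw [hx]
      change coordFun P i / coordFun P j₀ = _
      rw [div_eq_inv_mul]
    rw [CurveEv_scale hG] at h1
    rw [← CurveEv_coordFun]
    constructor
    · intro h0
      rw [h0] at h1
      exact (mul_eq_zero.1 h1.symm).resolve_left (pow_ne_zero _ (inv_ne_zero hj₀))
    · intro h0
      apply Subtype.ext
      rw [h1, h0, mul_zero]
      rfl

/-- Homogenisation. -/
private def CurveEv_hom (j : Fin (N + 1)) (H : MvPolynomial (Fin (N + 1)) ℂ) : MvPolynomial (Fin (N + 1)) ℂ :=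
  ∑ k ∈ Finset.range (H.totalDegree + 1), X j ^ (H.totalDegree - k) * homogeneousComponent k H

private theorem CurveEv_hom_form (j : Fin (N + 1)) (H : MvPolynomial (Fin (N + 1)) ℂ) :
    (CurveEv_hom j H).IsHomogeneous H.totalDegree := by
  unfold CurveEv_hom
  apply MvPolynomial.IsHomogeneous.sum
  intro d hd
  have h1 : d ≤ H.totalDegree := Nat.lt_succ_iff.1 (Finset.mem_range.1 hd)
  have h2 := (MvPolynomial.isHomogeneous_X_pow (R := ℂ) j (H.totalDegree - d)).mul
    (MvPolynomial.homogeneousComponent_isHomogeneous d H)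
  rwa [Nat.sub_add_cancel h1] at h2

private theorem CurveEv_hom_aeval {K : Type} [Field K] [Algebra ℂ K] {x : Fin (N + 1) → K} {j : Fin (N + 1)}
    (hx : x j = 1) (H : MvPolynomial (Fin (N + 1)) ℂ) : aeval x (CurveEv_hom j H) = aeval x H := by
  unfold CurveEv_hom
  conv_rhs => rw [← MvPolynomial.sum_homogeneousComponent H]
  rw [map_sum, map_sum]
  refine Finset.sum_congr rfl fun k _ => ?_
  rw [map_mul, map_pow, aeval_X, hx, one_pow, one_mul]

private theorem CurveEv_hom_eval {x : Fin (N + 1) → ℂ} {j : Fin (N + 1)}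
    (hx : x j = 1) (H : MvPolynomial (Fin (N + 1)) ℂ) : eval x (CurveEv_hom j H) = eval x H := by
  unfold CurveEv_hom
  conv_rhs => rw [← MvPolynomial.sum_homogeneousComponent H]
  rw [map_sum, map_sum]
  refine Finset.sum_congr rfl fun k _ => ?_
  rw [map_mul, map_pow, eval_X, hx, one_pow, one_mul]

/-- The evaluation, in terms of a point of the field and a point with meromorphic coordinates. -/
private theorem CurveEv_core {K : Type} [Field K] [Algebra ℂ K] {x : Fin (N + 1) → K}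
    (hgen : IntermediateField.adjoin ℂ (Set.range x) = ⊤) {v : ℂ → Fin (N + 1) → ℂ}
    (hv : ∀ l, ∀ s ∈ puncturedDisc, MeromorphicAt (fun z => v z l) s)
    (h0 : ∀ A : MvPolynomial (Fin (N + 1)) ℂ, aeval x A = 0 → ∀ s ∈ puncturedDisc,
      ∀ᶠ z in 𝓝[≠] s, eval (v z) A = 0)
    (h1 : ∀ A : MvPolynomial (Fin (N + 1)) ℂ, aeval x A ≠ 0 → ∀ s ∈ puncturedDisc,
      ∀ᶠ z in 𝓝[≠] s, eval (v z) A ≠ 0) :
    ∃ ψ : K → ℂ → ℂ, Ev ψ ∧ ∀ l, ∀ s ∈ puncturedDisc, ψ (x l) =ᶠ[𝓝[≠] s] fun z => v z l := by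
  classical
  have hex : ∀ g : K, ∃ A B : MvPolynomial (Fin (N + 1)) ℂ, aeval x B ≠ 0 ∧
      g * aeval x B = aeval x A := by
    intro g
    have hg : g ∈ IntermediateField.adjoin ℂ (Set.range x) := by
      rw [hgen]
      exact IntermediateField.mem_top
    obtain ⟨A, B, hAB⟩ := (IntermediateField.mem_adjoin_range_iff ℂ x g).1 hg
    by_cases hB : aeval x B = 0
    · refine ⟨0, 1, ?_, ?_⟩
      · rw [map_one]
        exact one_ne_zero
      · rw [hAB, hB, div_zero, zero_mul, map_zero]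
    · refine ⟨A, B, hB, ?_⟩
      rw [hAB, div_mul_cancel₀ _ hB]
  choose A B hB hAB using hex
  have hmero : ∀ (Q : MvPolynomial (Fin (N + 1)) ℂ), ∀ s ∈ puncturedDisc,
      MeromorphicAt (fun z => eval (v z) Q) s := by
    intro Q s hs
    induction Q using MvPolynomial.induction_on with
    | C a =>
      simp only [eval_C]
      exact MeromorphicAt.const a s
    | add p q hp hq =>
      simp only [map_add]
      exact hp.fun_add hq
    | mul_X p i hp =>
      simp only [map_mul, eval_X]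
      exact hp.fun_mul (hv i s hs)
  have key : ∀ (g : K) (A' B' : MvPolynomial (Fin (N + 1)) ℂ), aeval x B' ≠ 0 →
      g * aeval x B' = aeval x A' → ∀ s ∈ puncturedDisc,
      (fun z => eval (v z) (A g) / eval (v z) (B g)) =ᶠ[𝓝[≠] s]
        fun z => eval (v z) A' / eval (v z) B' := by
    intro g A' B' hB' hAB' s hs
    have h2 : aeval x (A g * B' - A' * B g) = 0 := by
      rw [map_sub, map_mul, map_mul, ← hAB g, ← hAB']
      ring
    filter_upwards [h0 _ h2 s hs, h1 _ (hB g) s hs, h1 _ hB' s hs] with z h3 h4 h5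
    rw [map_sub, map_mul, map_mul] at h3
    rw [div_eq_div_iff h4 h5]
    exact sub_eq_zero.1 h3
  refine ⟨fun g z => eval (v z) (A g) / eval (v z) (B g), ⟨?_, ?_, ?_, ?_⟩, ?_⟩
  · intro g s hs
    exact (hmero (A g) s hs).fun_div (hmero (B g) s hs)
  · intro c s hs
    refine (key (algebraMap ℂ K c) (C c) 1 ?_ ?_ s hs).trans ?_
    · rw [map_one]
      exact one_ne_zero
    · rw [map_one, mul_one, aeval_C]
    · filter_upwards with z
      rw [eval_C, map_one, div_one]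
  · intro g h s hs
    refine (key (g + h) (A g * B h + A h * B g) (B g * B h) ?_ ?_ s hs).trans ?_
    · rw [map_mul]
      exact mul_ne_zero (hB g) (hB h)
    · rw [map_mul, map_add, map_mul, map_mul, ← hAB g, ← hAB h]
      ring
    · filter_upwards [h1 _ (hB g) s hs, h1 _ (hB h) s hs] with z h3 h4
      rw [map_add, map_mul, map_mul, map_mul]
      field_simp
  · intro g h s hs
    refine (key (g * h) (A g * A h) (B g * B h) ?_ ?_ s hs).trans ?_
    · rw [map_mul]
      exact mul_ne_zero (hB g) (hB h)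
    · rw [map_mul, map_mul, ← hAB g, ← hAB h]
      ring
    · filter_upwards with z
      rw [map_mul, map_mul, mul_div_mul_comm]
  · intro l s hs
    refine (key (x l) (X l) 1 ?_ ?_ s hs).trans ?_
    · rw [map_one]
      exact one_ne_zero
    · rw [map_one, mul_one, aeval_X]
    · filter_upwards with z
      rw [eval_X, map_one, div_one]

theorem exists_ev [I.IsPrime] (hI : Homog I) (hf : HolomorphicInto f puncturedDisc) (hfI : mapIdeal f puncturedDisc = I)
    {i₀ : Fin (N + 1)} (hi₀ : (X i₀ : MvPolynomial (Fin (N + 1)) ℂ) ∉ I) :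
    ∃ ψ : FunField I → ℂ → ℂ, Ev ψ ∧ ∀ l, ∀ s ∈ puncturedDisc,
      ψ (ratio I l i₀) =ᶠ[𝓝[≠] s] fun z => (f z).rep l / (f z).rep i₀ := by
  classical
  obtain ⟨hx1, hgen, hker⟩ := CurveEv_point I hi₀
  have hform : ∀ {d : ℕ} {Q : MvPolynomial (Fin (N + 1)) ℂ}, Q.IsHomogeneous d →
      (Q ∈ I ↔ ∀ z ∈ puncturedDisc, VanishesAt Q (f z)) := by
    intro d Q hQ
    rw [← hfI]
    exact Pool.Agent.H17BP.mem_mapIdeal_form hQ
  have hnv : ∀ {d : ℕ} {Q : MvPolynomial (Fin (N + 1)) ℂ}, Q.IsHomogeneous d → Q ∉ I →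
      Pool.Agent.H17R.NonVan f Q := by
    intro d Q hQ hQI
    rcases Pool.Agent.H17R.nonVan_or hf hQ with h | h
    · exact absurd ((hform hQ).2 h) hQI
    · exact h
  have hni := hnv (isHomogeneous_X ℂ i₀) hi₀
  have hev : ∀ s ∈ puncturedDisc, ∀ᶠ z in 𝓝[≠] s, (f z).rep i₀ ≠ 0 := by
    intro s hs
    filter_upwards [hni s hs] with z hz h0
    apply hz
    change eval (f z).rep (X i₀) = 0
    rw [eval_X]
    exact h0
  have hopen : IsOpen puncturedDisc := Metric.isOpen_ball.sdiff isClosed_singleton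
  have hD : ∀ s ∈ puncturedDisc, ∀ᶠ z in 𝓝[≠] s, z ∈ puncturedDisc := by
    intro s hs
    have h : ∀ᶠ z in 𝓝 s, z ∈ puncturedDisc := hopen.mem_nhds hs
    exact h.filter_mono nhdsWithin_le_nhds
  have hDn : ∀ s ∈ puncturedDisc, 0 < ‖s‖ ∧ ‖s‖ < 1 := by
    rintro s ⟨h1, h2⟩
    exact ⟨norm_pos_iff.2 h2, mem_ball_zero_iff.1 h1⟩
  obtain ⟨v, hvdef⟩ : ∃ v : ℂ → Fin (N + 1) → ℂ, v = fun z l => (f z).rep l / (f z).rep i₀ := ⟨_, rfl⟩
  have hval : ∀ (A : MvPolynomial (Fin (N + 1)) ℂ) (z : ℂ), (f z).rep i₀ ≠ 0 →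
      (eval (v z) A = 0 ↔ VanishesAt (CurveEv_hom i₀ A) (f z)) := by
    intro A z hz
    have h1 : v z i₀ = 1 := by
      rw [hvdef]
      exact div_self hz
    rw [← CurveEv_hom_eval h1]
    have h2 := Pool.Agent.H17R.val_eq (f := f) (CurveEv_hom_form i₀ A) hz
    have h3 : eval (v z) (CurveEv_hom i₀ A) = Pool.Agent.H17R.val f i₀ (CurveEv_hom i₀ A) z := by
      rw [hvdef]
      rfl
    rw [h3, h2, div_eq_zero_iff]
    constructor
    · rintro (h | h)
      · exact h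
      · exact absurd h (pow_ne_zero _ hz)
    · intro h
      exact Or.inl h
  have hcore := CurveEv_core (x := fun l => ratio I l i₀) hgen (v := v) ?_ ?_ ?_
  · obtain ⟨ψ, hψ, hψl⟩ := hcore
    refine ⟨ψ, hψ, fun l s hs => (hψl l s hs).trans ?_⟩
    rw [hvdef]
  · intro l s hs
    by_cases hl : (X l : MvPolynomial (Fin (N + 1)) ℂ) ∈ I
    · have h1 := (hform (isHomogeneous_X ℂ l)).1 hl
      refine (MeromorphicAt.const (0 : ℂ) s).congr ?_
      filter_upwards [hD s hs] with z hz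
      have h2 : eval (f z).rep (X l) = 0 := h1 z hz
      rw [eval_X] at h2
      rw [hvdef]
      change 0 = (f z).rep l / (f z).rep i₀
      rw [h2, zero_div]
    · have h1 := Pool.Agent.H17R.val_meroPunct hf (isHomogeneous_X ℂ l) (hnv (isHomogeneous_X ℂ l) hl) hni
      have h2 := h1.mero s (hDn s hs).1 (hDn s hs).2
      have h3 : (fun z => v z l) = Pool.Agent.H17R.val f i₀ (X l) := by
        funext z
        rw [hvdef]
        unfold Pool.Agent.H17R.val
        rw [eval_X]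
      rw [h3]
      exact h2
  · intro A hA s hs
    rw [← CurveEv_hom_aeval (x := fun l => ratio I l i₀) hx1 A, hker _ _ (CurveEv_hom_form i₀ A), hform (CurveEv_hom_form i₀ A)] at hA
    filter_upwards [hev s hs, hD s hs] with z h1 h2
    rw [hval A z h1]
    exact hA z h2
  · intro A hA s hs
    have h2 : CurveEv_hom i₀ A ∉ I := by
      intro h3
      apply hA
      rw [← CurveEv_hom_aeval (x := fun l => ratio I l i₀) hx1 A]
      exact (hker _ _ (CurveEv_hom_form i₀ A)).2 h3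
    filter_upwards [hev s hs, hnv (CurveEv_hom_form i₀ A) h2 s hs] with z h3 h4 h5
    exact h4 ((hval A z h3).1 h5)

private theorem CE2_nonneg {K : Type} [Field K] [Algebra ℂ K] {ψ : K → ℂ → ℂ} (h : Ev ψ) {s : ℂ}
    (hs : s ∈ puncturedDisc) {E : PrimeDivisorOver K 1} (hE : Under ψ s E) {g : K} (hg : 0 ≤ E.ord g) :
    0 ≤ meromorphicOrderAt (ψ g) s := by
  by_cases h0 : g = 0
  · subst h0
    rw [meromorphicOrderAt_eq_top_iff.2 (h.zero hs)]
    exact le_top
  · obtain ⟨e, he, hU⟩ := hE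
    obtain ⟨n, hn, ho⟩ := hU g h0
    rw [hn] at hg
    have hn0 : (0 : ℤ) ≤ n := by exact_mod_cast hg
    rw [ho]
    exact_mod_cast mul_nonneg (by positivity : (0 : ℤ) ≤ e) hn0

private theorem CE2_pos {K : Type} [Field K] [Algebra ℂ K] {ψ : K → ℂ → ℂ} (h : Ev ψ) {s : ℂ}
    (hs : s ∈ puncturedDisc) {E : PrimeDivisorOver K 1} (hE : Under ψ s E) {g : K} (hg : 0 < E.ord g) :
    0 < meromorphicOrderAt (ψ g) s := by
  by_cases h0 : g = 0
  · subst h0
    rw [meromorphicOrderAt_eq_top_iff.2 (h.zero hs)]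
    exact WithTop.coe_lt_top 0
  · obtain ⟨e, he, hU⟩ := hE
    obtain ⟨n, hn, ho⟩ := hU g h0
    rw [hn] at hg
    have hn0 : (0 : ℤ) < n := by exact_mod_cast hg
    rw [ho]
    have he' : (0 : ℤ) < e := by exact_mod_cast he
    exact_mod_cast mul_pos he' hn0

theorem not_onBd [I.IsPrime] (hI : Homog I) (hf : HolomorphicInto f puncturedDisc) {i₀ : Fin (N + 1)}
    (hi₀ : (X i₀ : MvPolynomial (Fin (N + 1)) ℂ) ∉ I) {ψ : FunField I → ℂ → ℂ} (h : Ev ψ)
    (hψ : ∀ l, ∀ s ∈ puncturedDisc, ψ (ratio I l i₀) =ᶠ[𝓝[≠] s] fun z => (f z).rep l / (f z).rep i₀)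
    {r : ℕ} {G : Fin r → MvPolynomial (Fin (N + 1)) ℂ} {e : Fin r → ℕ} (hG : ∀ m, (G m).IsHomogeneous (e m)) {s : ℂ}
    (hs : s ∈ puncturedDisc) (hfs : f s ∈ locVar I G) {E : PrimeDivisorOver (FunField I) 1} (hE : Under ψ s E) :
    ¬ OnBd I G E := by
  rintro ⟨j, hj, hreg, hpos⟩
  have hc₀ : Pool.Agent.H17GT.coordFun I i₀ ≠ 0 := by
    intro h0
    apply hi₀
    unfold Pool.Agent.H17GT.coordFun at h0
    rw [← Ideal.Quotient.eq_zero_iff_mem]
    exact (IsFractionRing.injective (MvPolynomial (Fin (N + 1)) ℂ ⧸ I)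
      (FractionRing (MvPolynomial (Fin (N + 1)) ℂ ⧸ I))) (h0.trans (map_zero _).symm)
  -- the local lift
  obtain ⟨φ, hφ, hfφ⟩ := hf s hs
  obtain ⟨hφs, hfs'⟩ := hfφ.self_of_nhds
  have hφc : ∀ l, AnalyticAt ℂ (fun z => φ z l) s := fun l => (analyticAt_pi_iff.1 hφ) l
  have hrep : ∀ l, ψ (ratio I l i₀) =ᶠ[𝓝[≠] s] fun z => φ z l / φ z i₀ := by
    intro l
    filter_upwards [hψ l s hs, hfφ.filter_mono nhdsWithin_le_nhds] with z hz hz'
    obtain ⟨hne, hfz⟩ := hz'
    obtain ⟨a, ha, hrepz⟩ := Pool.Agent.H17.exists_smul_rep (φ z) hne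
    rw [hz, hfz, hrepz]
    show a * φ z l / (a * φ z i₀) = φ z l / φ z i₀
    exact mul_div_mul_left _ _ ha
  have hφne : ∀ l, Pool.Agent.H17GT.coordFun I l ≠ 0 → ∀ᶠ z in 𝓝[≠] s, φ z l ≠ 0 := by
    intro l hl
    have hr : ratio I l i₀ ≠ 0 := by
      intro h0
      have h1 : Pool.Agent.H17GT.coordFun I l / Pool.Agent.H17GT.coordFun I i₀ = 0 := congrArg Subtype.val h0
      exact (div_ne_zero hl hc₀) h1
    filter_upwards [h.ne_zero hr hs, hrep l] with z h1 h2 h3
    rw [h2, h3, zero_div] at h1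
    exact h1 rfl
  have hrepj : ∀ l, ψ (ratio I l j) =ᶠ[𝓝[≠] s] fun z => φ z l / φ z j := by
    intro l
    have hr : ratio I j i₀ ≠ 0 := by
      intro h0
      have h1 : Pool.Agent.H17GT.coordFun I j / Pool.Agent.H17GT.coordFun I i₀ = 0 := congrArg Subtype.val h0
      exact (div_ne_zero hj hc₀) h1
    have heq : ratio I l j = ratio I l i₀ / ratio I j i₀ := by
      apply Subtype.ext
      show Pool.Agent.H17GT.coordFun I l / Pool.Agent.H17GT.coordFun I j =
        (Pool.Agent.H17GT.coordFun I l / Pool.Agent.H17GT.coordFun I i₀) /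
          (Pool.Agent.H17GT.coordFun I j / Pool.Agent.H17GT.coordFun I i₀)
      field_simp
    rw [heq]
    filter_upwards [h.div (ratio I l i₀) hr hs, hrep l, hrep j, hφne i₀ hc₀] with z h1 h2 h3 h4
    rw [h1, h2, h3]
    field_simp
  have hne : (𝓝[≠] s).NeBot := inferInstance
  have hcont : ∀ l, Tendsto (fun z => φ z l) (𝓝[≠] s) (𝓝 (φ s l)) := fun l =>
    (hφc l).continuousAt.tendsto.mono_left nhdsWithin_le_nhds
  by_cases hφj : φ s j = 0
  · obtain ⟨l, hl⟩ : ∃ l, φ s l ≠ 0 := by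
      by_contra hcon
      push Not at hcon
      exact hφs (funext hcon)
    obtain ⟨c, hc⟩ := tendsto_nhds_of_meromorphicOrderAt_nonneg (h.mero (ratio I l j) s hs)
      (CE2_nonneg h hs hE (hreg l))
    have h1 : Tendsto (fun z => ψ (ratio I l j) z * φ z j) (𝓝[≠] s) (𝓝 (c * φ s j)) := hc.mul (hcont j)
    have h2 : (fun z => ψ (ratio I l j) z * φ z j) =ᶠ[𝓝[≠] s] fun z => φ z l := by
      filter_upwards [hrepj l, hφne j hj] with z h3 h4
      rw [h3, div_mul_cancel₀ _ h4]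
    have h3 := tendsto_nhds_unique (h1.congr' h2) (hcont l)
    rw [hφj, mul_zero] at h3
    exact hl h3.symm
  · obtain ⟨m, hm⟩ := hfs.2
    apply hm
    have han : AnalyticAt ℂ (fun z => MvPolynomial.eval (fun l => φ z l / φ z j) (G m)) s := by
      have h1 := AnalyticAt.aeval_mvPolynomial (𝕜 := ℂ) (A := ℂ) (B := ℂ) (f := fun z l => φ z l / φ z j)
        (fun l => (hφc l).div (hφc j) hφj) (G m)
      simpa [MvPolynomial.aeval_eq_eval] using h1
    have h1 : Tendsto (ψ (aeval (fun i => ratio I i j) (G m))) (𝓝[≠] s) (𝓝 0) :=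
      tendsto_zero_of_meromorphicOrderAt_pos (CE2_pos h hs hE (hpos m))
    have h2 : ψ (aeval (fun i => ratio I i j) (G m)) =ᶠ[𝓝[≠] s]
        fun z => MvPolynomial.eval (fun l => φ z l / φ z j) (G m) := by
      have h3 : ∀ᶠ z in 𝓝[≠] s, ∀ l, ψ (ratio I l j) z = φ z l / φ z j :=
        Filter.eventually_all.2 fun l => hrepj l
      filter_upwards [h.aeval (fun i => ratio I i j) (G m) hs, h3] with z h4 h5
      rw [h4]
      congr 2
      funext l
      exact h5 l
    have h3 := tendsto_nhds_unique (h1.congr' h2)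
      (han.continuousAt.tendsto.mono_left nhdsWithin_le_nhds)
    have h4 : (fun l => φ s l / φ s j) = fun l => (φ s j)⁻¹ * φ s l := by
      funext l
      rw [div_eq_inv_mul]
    rw [h4, Pool.Agent.H17.eval_smul_of_isHomogeneous (hG m)] at h3
    have h5 := (mul_eq_zero.1 h3.symm).resolve_left (pow_ne_zero _ (inv_ne_zero hφj))
    rw [hfs', Pool.Agent.H17.vanishesAt_mk_iff (hG m)]
    exact h5

end Pool.Agent.H62.LGC

end
end

section

/-!
# LGC Main: the functions of a curve of log general type along a map from the punctured disc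

The functions of a curve of log general type are meromorphic at the puncture along a map from the punctured disc to the curve.
-/

set_option autoImplicit false

open Topology Filter MeasureTheory
open Pool.Agent.H17 (puncturedDisc)
open Pool.Agent.H23.Fano (Form PrimeDivisorOver)
open Pool.Agent.H17LG.Variety (PoleAtMost IsLogGeneralType)
open Pool.Agent.H62.FC

noncomputable section

namespace Pool.Agent.H62.LGC

variable {K : Type} [Field K] [Algebra ℂ K] {ψ : K → ℂ → ℂ}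

theorem Main_mem {s : ℂ} (h0 : 0 < ‖s‖) (h1 : ‖s‖ < 1) : s ∈ puncturedDisc :=
  ⟨mem_ball_zero_iff.2 h1, norm_pos_iff.1 h0⟩

theorem Main_eventually_mem {s : ℂ} (hs : s ∈ puncturedDisc) : ∀ᶠ z in 𝓝[≠] s, z ∈ puncturedDisc := by
  have h : ∀ᶠ z in 𝓝 s, z ∈ puncturedDisc := (Metric.isOpen_ball.sdiff isClosed_singleton).mem_nhds hs
  exact h.filter_mono nhdsWithin_le_nhds

/-- The derivative of a nonconstant function does not vanish. -/
theorem Ev.deriv_ne (h : Ev ψ) {a : K} (ha : Transcendental ℂ a) {s : ℂ} (hs : s ∈ puncturedDisc) :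
    ∀ᶠ z in 𝓝[≠] s, deriv (ψ a) z ≠ 0 := by
  have hm : MeromorphicAt (deriv (ψ a)) s := (h.mero a s hs).deriv
  rcases hm.eventually_eq_zero_or_eventually_ne_zero with h0 | h0
  swap
  · exact h0
  exfalso
  have h1 : ∀ᶠ z in 𝓝[≠] s, AnalyticAt ℂ (ψ a) z := (h.mero a s hs).eventually_analyticAt
  have h2 : ∀ᶠ z in 𝓝[≠] s, ∀ᶠ w in 𝓝 z, deriv (ψ a) w = 0 := by
    filter_upwards [eventually_eventually_nhdsWithin.2 h0, self_mem_nhdsWithin] with z hz hzs
    rwa [isOpen_compl_singleton.nhdsWithin_eq hzs] at hz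
  obtain ⟨t, ht1, ht2, ht3⟩ := (h1.and (h2.and (Main_eventually_mem hs))).exists
  obtain ⟨ε, hε, hball⟩ := Metric.eventually_nhds_iff_ball.1 (ht2.and ht1.eventually_analyticAt)
  have hc : ∀ w ∈ Metric.ball t ε, ψ a w = ψ a t := fun w hw =>
    Metric.isOpen_ball.is_const_of_deriv_eq_zero (convex_ball t ε).isPreconnected
      (fun w hw => (hball w hw).2.differentiableAt.differentiableWithinAt) (fun w hw => (hball w hw).1) hw
      (Metric.mem_ball_self hε)
  have hne : a - algebraMap ℂ K (ψ a t) ≠ 0 := by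
    intro h3
    rw [sub_eq_zero] at h3
    apply ha
    rw [h3]
    exact isAlgebraic_algebraMap _
  have h4 := h.ne_zero hne ht3
  have h5 := h.sub a (algebraMap ℂ K (ψ a t)) ht3
  have h6 := h.const (ψ a t) t ht3
  have h7 : ∀ᶠ w in 𝓝[≠] t, w ∈ Metric.ball t ε := by
    have h8 : ∀ᶠ w in 𝓝 t, w ∈ Metric.ball t ε := Metric.ball_mem_nhds t hε
    exact h8.filter_mono nhdsWithin_le_nhds
  obtain ⟨w, hw4, hw5, hw6, hw7⟩ := (h4.and (h5.and (h6.and h7))).exists
  apply hw4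
  rw [hw5]
  change ψ a w - ψ (algebraMap ℂ K (ψ a t)) w = 0
  rw [hw6, hc w hw7, sub_self]

theorem Ev.sum (h : Ev ψ) (F : ℕ → K) (n : ℕ) {s : ℂ} (hs : s ∈ puncturedDisc) :
    ψ (∑ j ∈ Finset.range n, F j) =ᶠ[𝓝[≠] s] fun z => ∑ j ∈ Finset.range n, ψ (F j) z := by
  induction n with
  | zero =>
    filter_upwards [h.zero hs] with z hz
    rw [Finset.sum_range_zero, Finset.sum_range_zero, hz]
  | succ n ih =>
    filter_upwards [h.add (∑ j ∈ Finset.range n, F j) (F n) s hs, ih] with z h1 h2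
    rw [Finset.sum_range_succ, Finset.sum_range_succ, h1, h2]

/-- The algebraic relation between two functions of a field of transcendence degree one. -/
theorem exists_relation (hz : ∃ z : Fin 1 → K, IsTranscendenceBasis ℂ z) {ρ : K} (hρ : Transcendental ℂ ρ) (g : K) :
    ∃ P : Polynomial (Polynomial ℂ), P ≠ 0 ∧
      ∑ j ∈ Finset.range (P.natDegree + 1), Polynomial.aeval ρ (P.coeff j) * g ^ j = 0 := by
  obtain ⟨z, hz⟩ := hz
  have hind : AlgebraicIndependent ℂ (fun _ : Fin 1 => ρ) := by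
    rw [algebraicIndependent_unique_type_iff]
    exact hρ
  have hb : IsTranscendenceBasis ℂ (fun _ : Fin 1 => ρ) :=
    hind.isTranscendenceBasis_of_trdeg_le_of_finite hz.cardinalMk_eq_trdeg.ge
  have halg := hb.isAlgebraic
  obtain ⟨p, hp0, hp⟩ := halg.isAlgebraic g
  have hmem : ∀ q : Polynomial ℂ, Polynomial.aeval ρ q ∈ Algebra.adjoin ℂ (Set.range fun _ : Fin 1 => ρ) := by
    intro q
    rw [Set.range_const, Algebra.adjoin_singleton_eq_range_aeval]
    exact ⟨q, rfl⟩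
  let φ : Polynomial ℂ →ₐ[ℂ] Algebra.adjoin ℂ (Set.range fun _ : Fin 1 => ρ) :=
    (Polynomial.aeval ρ).codRestrict _ hmem
  have hφ : Function.Surjective φ := by
    rintro ⟨y, hy⟩
    have hy' := hy
    rw [Set.range_const, Algebra.adjoin_singleton_eq_range_aeval] at hy'
    obtain ⟨q, hq⟩ := hy'
    exact ⟨q, Subtype.ext hq⟩
  obtain ⟨P, hP⟩ := Polynomial.map_surjective φ.toRingHom hφ p
  refine ⟨P, ?_, ?_⟩
  · rintro rfl
    rw [Polynomial.map_zero] at hP
    exact hp0 hP.symm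
  · rw [← hP, Polynomial.aeval_def, Polynomial.eval₂_map, Polynomial.eval₂_eq_sum_range] at hp
    exact hp

theorem nevT_ev_le (hz : ∃ z : Fin 1 → K, IsTranscendenceBasis ℂ z) (h : Ev ψ) {ρ : K} (hρ : Transcendental ℂ ρ) {g : K}
    (hg : g ≠ 0) {R₁ : ℝ} (h1 : 0 < R₁) (h2 : R₁ < 1) :
    ∃ C : ℝ, ∀ x, Real.exp (-x) < R₁ → nevT (ψ g) R₁ x ≤ C * nevT (ψ ρ) R₁ x + C * (1 + |x|) := by
  obtain ⟨P, hP0, hP⟩ := exists_relation hz hρ g
  have hρ0 : ρ ≠ 0 := by
    rintro rfl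
    exact hρ isAlgebraic_zero
  refine nevT_alg (h.meroPunct hg) (h.meroPunct hρ0) h1 h2 P ?_ hP0 ?_
  · intro s hs0 hs1 j hj
    have hs := Main_mem hs0 hs1
    have h3 : Polynomial.aeval ρ (P.coeff j) ≠ 0 := fun h4 => hj ((transcendental_iff.1 hρ) _ h4)
    filter_upwards [h.ne_zero h3 hs, h.polyAeval ρ (P.coeff j) hs] with z h4 h5
    rwa [← h5]
  · intro s hs0 hs1
    have hs := Main_mem hs0 hs1
    have h3 := h.sum (fun j => Polynomial.aeval ρ (P.coeff j) * g ^ j) (P.natDegree + 1) hs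
    rw [hP] at h3
    have h4 : ∀ j, ψ (Polynomial.aeval ρ (P.coeff j) * g ^ j) =ᶠ[𝓝[≠] s]
        fun z => (P.coeff j).eval (ψ ρ z) * ψ g z ^ j := by
      intro j
      filter_upwards [h.mul (Polynomial.aeval ρ (P.coeff j)) (g ^ j) s hs, h.polyAeval ρ (P.coeff j) hs, h.pow g j hs]
        with z h5 h6 h7
      rw [h5, h6, h7]
    have h5 : ∀ᶠ z in 𝓝[≠] s, ∀ j ∈ Finset.range (P.natDegree + 1),
        ψ (Polynomial.aeval ρ (P.coeff j) * g ^ j) z = (P.coeff j).eval (ψ ρ z) * ψ g z ^ j :=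
      (Finset.eventually_all _).2 fun j _ => h4 j
    filter_upwards [h3, h5, h.zero hs] with z h6 h7 h8
    rw [← Finset.sum_congr rfl h7, ← h6, h8]

/-- One of the ratios of the pluricanonical forms is not constant. -/
theorem exists_transcendental (hz : ∃ z : Fin 1 → K, IsTranscendenceBasis ℂ z) {r : ℕ} {y : Fin (r + 1) → K}
    (h : Algebra.IsAlgebraic (IntermediateField.adjoin ℂ (Set.range y)) K) : ∃ i, Transcendental ℂ (y i) := by
  by_contra hcon
  push Not at hcon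
  obtain ⟨z, hz⟩ := hz
  have h1 : Algebra.IsAlgebraic ℂ (IntermediateField.adjoin ℂ (Set.range y)) := by
    refine IntermediateField.isAlgebraic_adjoin ?_
    rintro _ ⟨i, rfl⟩
    have h2 := hcon i
    rw [Transcendental, not_not] at h2
    exact h2.isIntegral
  have h3 : Algebra.IsAlgebraic ℂ K := Algebra.IsAlgebraic.trans ℂ (IntermediateField.adjoin ℂ (Set.range y)) K
  exact hz.1.transcendental 0 (h3.isAlgebraic _)

theorem pull_meroPunct [Algebra.EssFiniteType ℂ K] (h : Ev ψ) {f c a : K} (hf : f ≠ 0) (hc : c ≠ 0)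
    (ha : Transcendental ℂ a) (m : ℕ) : MeroPunct 1 (pull ψ f c a m) where
  mero z h1 h2 := pull_mero h f c a m (Main_mem h1 h2)
  ord z h1 h2 := by
    have hs := Main_mem h1 h2
    rw [meromorphicOrderAt_ne_top_iff_eventually_ne_zero (pull_mero h f c a m hs)]
    filter_upwards [h.ne_zero hf hs, h.ne_zero hc hs, h.deriv_ne ha hs] with w h3 h4 h5
    exact mul_ne_zero h3 (pow_ne_zero _ (mul_ne_zero h4 h5))

theorem PoleAtMost_mono {k : ℕ} {E : PrimeDivisorOver K k} {m p q : ℕ} (hpq : p ≤ q) {f : K} {ω : Form K k}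
    (h : PoleAtMost p E m f ω) : PoleAtMost q E m f ω := by
  obtain ⟨g, η, h1, h2, h3⟩ := h
  refine ⟨g, η, h1, h2, h3.trans ?_⟩
  have h4 : ((p : ℕ) : WithTop ℤ) ≤ ((q : ℕ) : WithTop ℤ) := by exact_mod_cast hpq
  exact add_le_add le_rfl h4

theorem negl_of_le {R₁ : ℝ} {T T' S : ℝ → ℝ} (hT : ∀ x, 0 ≤ T x) (h : Negl R₁ T' S)
    (hC : ∃ C : ℝ, ∀ x, Real.exp (-x) < R₁ → T' x ≤ C * T x + C * (1 + |x|)) : Negl R₁ T S := by
  obtain ⟨C, hC⟩ := hC
  intro ε hε
  set C' : ℝ := max C 0 with hC'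
  have hC'0 : 0 ≤ C' := le_max_right _ _
  have h1 : 0 < C' + 1 := by linarith
  obtain ⟨D, E, hE, hD⟩ := h (ε / (C' + 1)) (div_pos hε h1)
  refine ⟨ε + D, E, hE, fun x hx hxE => ?_⟩
  have h2 := hD x hx hxE
  have h3 := hC x hx
  have h4 : (0 : ℝ) ≤ 1 + |x| := by positivity
  have h5 : C * T x ≤ C' * T x := mul_le_mul_of_nonneg_right (le_max_left _ _) (hT x)
  have h6 : C * (1 + |x|) ≤ C' * (1 + |x|) := mul_le_mul_of_nonneg_right (le_max_left _ _) h4
  have h7 : ε / (C' + 1) * C' ≤ ε := by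
    rw [div_mul_eq_mul_div, div_le_iff₀ h1]
    nlinarith
  have h8 : ε / (C' + 1) * T' x ≤ ε / (C' + 1) * (C' * T x + C' * (1 + |x|)) :=
    mul_le_mul_of_nonneg_left (by linarith) (div_pos hε h1).le
  have h9 : ε / (C' + 1) * (C' * T x + C' * (1 + |x|)) = ε / (C' + 1) * C' * T x + ε / (C' + 1) * C' * (1 + |x|) := by
    ring
  have h10 : ε / (C' + 1) * C' * T x ≤ ε * T x := mul_le_mul_of_nonneg_right h7 (hT x)
  have h11 : ε / (C' + 1) * C' * (1 + |x|) ≤ ε * (1 + |x|) := mul_le_mul_of_nonneg_right h7 h4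
  have h12 : (ε + D) * (1 + |x|) = ε * (1 + |x|) + D * (1 + |x|) := by ring
  linarith

theorem negl_sum {ι : Type} {R₁ : ℝ} {T : ℝ → ℝ} (hT : ∀ x, 0 ≤ T x) (S : Finset ι) {F : ι → ℝ → ℝ}
    (h : ∀ b ∈ S, Negl R₁ T (F b)) : Negl R₁ T fun x => ∑ b ∈ S, F b x := by
  classical
  induction S using Finset.induction_on with
  | empty =>
    intro ε hε
    refine ⟨0, ∅, by simp, fun x _ _ => ?_⟩
    change ∑ b ∈ (∅ : Finset ι), F b x ≤ _
    rw [Finset.sum_empty, zero_mul, add_zero]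
    exact mul_nonneg hε.le (hT x)
  | insert b S hb ih =>
    intro ε hε
    obtain ⟨C₁, E₁, hE₁, h1⟩ := h b (Finset.mem_insert_self _ _) (ε / 2) (half_pos hε)
    obtain ⟨C₂, E₂, hE₂, h2⟩ := ih (fun c hc => h c (Finset.mem_insert_of_mem hc)) (ε / 2) (half_pos hε)
    refine ⟨C₁ + C₂, E₁ ∪ E₂, ?_, fun x hx hxE => ?_⟩
    · exact ((measure_union_le _ _).trans_lt (ENNReal.add_lt_top.2 ⟨lt_top_iff_ne_top.2 hE₁, lt_top_iff_ne_top.2 hE₂⟩)).ne
    · change ∑ b ∈ insert b S, F b x ≤ _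
      rw [Finset.sum_insert hb]
      have h3 := h1 x hx fun h => hxE (Or.inl h)
      have h4 := h2 x hx fun h => hxE (Or.inr h)
      simp only at h4
      linarith

theorem negl_const_mul {R₁ : ℝ} {T S S' : ℝ → ℝ} {C m : ℝ} (hm : 0 ≤ m) (h : Negl R₁ T S)
    (hT : ∀ x, 0 ≤ T x) (hS : ∀ x, Real.exp (-x) < R₁ → S' x ≤ C + m * S x) : Negl R₁ T S' := by
  intro ε hε
  have h1 : 0 < m + 1 := by linarith
  obtain ⟨D, E, hE, hD⟩ := h (ε / (m + 1)) (div_pos hε h1)
  refine ⟨|C| + m * D, E, hE, fun x hx hxE => ?_⟩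
  have h2 := hD x hx hxE
  have h3 := hS x hx
  have h4 : (1 : ℝ) ≤ 1 + |x| := by linarith [abs_nonneg x]
  have h5 : m * S x ≤ m * (ε / (m + 1) * T x + D * (1 + |x|)) := mul_le_mul_of_nonneg_left h2 hm
  have h6 : m * (ε / (m + 1)) ≤ ε := by
    rw [mul_div_assoc', div_le_iff₀ h1]
    nlinarith
  have h7 : m * (ε / (m + 1)) * T x ≤ ε * T x := mul_le_mul_of_nonneg_right h6 (hT x)
  have h8 : m * (ε / (m + 1) * T x + D * (1 + |x|)) = m * (ε / (m + 1)) * T x + m * D * (1 + |x|) := by ring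
  have h9 : C ≤ |C| * (1 + |x|) := by
    have := abs_nonneg C
    have := le_abs_self C
    nlinarith
  have h10 : (|C| + m * D) * (1 + |x|) = |C| * (1 + |x|) + m * D * (1 + |x|) := by ring
  linarith

/-- The characteristic function of the pull back of a pluricanonical form is small. -/
theorem nevT_pull [Algebra.EssFiniteType ℂ K] (hz : ∃ z : Fin 1 → K, IsTranscendenceBasis ℂ z) (h : Ev ψ) {m : ℕ}
    {f : K} (hf : f ≠ 0) {ω : Form K 1} (hω : ω ≠ 0) {a c : K} (ha : Transcendental ℂ a)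
    (hc : ω = Form.mk c fun _ => a) {B : PrimeDivisorOver K 1 → Prop}
    (hp : ∀ E, (¬ B E → PoleAtMost 0 E m f ω) ∧ (B E → PoleAtMost m E m f ω))
    (hB : ∀ s ∈ puncturedDisc, ∀ E, Under ψ s E → ¬ B E) {ρ : K} (hρ : Transcendental ℂ ρ) {R₁ : ℝ} (h1 : 0 < R₁)
    (h2 : R₁ < 1) : Negl R₁ (nevT (ψ ρ) R₁) (nevT (pull ψ f c a m) R₁) := by
  obtain ⟨S, C, hS, hb⟩ := exists_bound hz h hf hω (fun E => by
    by_cases hE : B E
    · exact (hp E).2 hE
    · exact PoleAtMost_mono (Nat.zero_le _) ((hp E).1 hE)) hc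
  have hm : MeroPunct 1 (pull ψ f c a m) := pull_meroPunct h hf (coef_ne_zero hω hc) ha m
  have h0 : ∀ s ∈ puncturedDisc, 0 ≤ meromorphicOrderAt (pull ψ f c a m) s := by
    intro s hs
    obtain ⟨E, hE⟩ := exists_under h hz hs
    exact order_pull hz h hs hE hω ((hp E).1 (hB s hs E hE)) hc
  have hSne : ∀ b ∈ S, b ≠ 0 := fun b hb h0 => hS (h0 ▸ hb)
  have hle : ∀ x, Real.exp (-x) < R₁ → nevT (pull ψ f c a m) R₁ x ≤
      C + m * ∑ b ∈ S, mean (fun z => Real.posLog ‖deriv (ψ b) z / ψ b z‖) x := fun x hx =>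
    nevT_le_logDeriv S hm h0 (fun b hb => h.meroPunct (hSne b hb)) hb h2 hx
  have hT : ∀ x, 0 ≤ nevT (ψ ρ) R₁ x := fun x => nevT_nonneg _ _ _
  have h3 : ∀ b ∈ S, Negl R₁ (nevT (ψ ρ) R₁) (mean fun z => Real.posLog ‖deriv (ψ b) z / ψ b z‖) := fun b hb =>
    negl_of_le hT ((h.meroPunct (hSne b hb)).logDeriv_negl h1 h2) (nevT_ev_le hz h hρ (hSne b hb) h1 h2)
  exact negl_const_mul (Nat.cast_nonneg m) (negl_sum hT S h3) hT hle

theorem punctMero_all [Algebra.EssFiniteType ℂ K] (hz : ∃ z : Fin 1 → K, IsTranscendenceBasis ℂ z) (h : Ev ψ)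
    {B : PrimeDivisorOver K 1 → Prop} (hgt : IsLogGeneralType B)
    (hB : ∀ s ∈ puncturedDisc, ∀ E, Under ψ s E → ¬ B E) (g : K) : PunctMero (ψ g) := by
  obtain ⟨m, hm, ω, hω, r, f, hf0, hp, halg⟩ := hgt
  obtain ⟨i, hi⟩ := exists_transcendental hz halg
  set ρ : K := f i / f 0 with hρ
  have hρ0 : ρ ≠ 0 := by
    intro h0
    rw [h0] at hi
    exact hi isAlgebraic_zero
  have hfi : f i ≠ 0 := by
    intro h0
    rw [hρ, h0, zero_div] at hρ0
    exact hρ0 rfl
  obtain ⟨c, hc⟩ := exists_coef hz ω hi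
  have hc0 : c ≠ 0 := coef_ne_zero hω hc
  set R₁ : ℝ := 1 / 2 with hR₁
  have h1 : 0 < R₁ := by norm_num [hR₁]
  have h2 : R₁ < 1 := by norm_num [hR₁]
  have hT : ∀ x, 0 ≤ nevT (ψ ρ) R₁ x := fun x => nevT_nonneg _ _ _
  have hmi : MeroPunct 1 (pull ψ (f i) c ρ m) := pull_meroPunct h hfi hc0 hi m
  have hm0 : MeroPunct 1 (pull ψ (f 0) c ρ m) := pull_meroPunct h hf0 hc0 hi m
  have hni : Negl R₁ (nevT (ψ ρ) R₁) (nevT (pull ψ (f i) c ρ m) R₁) :=
    nevT_pull hz h hfi hω hi hc (hp i) hB hi h1 h2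
  have hn0 : Negl R₁ (nevT (ψ ρ) R₁) (nevT (pull ψ (f 0) c ρ m) R₁) :=
    nevT_pull hz h hf0 hω hi hc (hp 0) hB hi h1 h2
  obtain ⟨D, hD⟩ := hm0.nevT_inv h1 h2
  have hprod : ∀ s : ℂ, 0 < ‖s‖ → ‖s‖ < 1 →
      ψ ρ =ᶠ[𝓝[≠] s] fun z => pull ψ (f i) c ρ m z * (pull ψ (f 0) c ρ m z)⁻¹ := by
    intro s hs0 hs1
    have hs := Main_mem hs0 hs1
    filter_upwards [h.div (f i) hf0 hs, h.ne_zero hc0 hs, h.deriv_ne hi hs] with z h3 h4 h5
    rw [hρ, h3, pull, pull, ← hρ, mul_inv, mul_mul_mul_comm, mul_inv_cancel₀ (pow_ne_zero _ (mul_ne_zero h4 h5)), mul_one,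
      div_eq_mul_inv]
  have hTle : ∀ x, Real.exp (-x) < R₁ → nevT (ψ ρ) R₁ x ≤
      nevT (pull ψ (f i) c ρ m) R₁ x + (nevT (pull ψ (f 0) c ρ m) R₁ x + D * (1 + |x|)) := by
    intro x hx
    rw [nevT_congr (h.meroPunct hρ0) (hmi.mul hm0.inv) h2 hprod hx]
    refine (nevT_mul_le hmi hm0.inv h2 hx).trans ?_
    have h3 := (abs_le.1 (hD x hx)).2
    linarith
  obtain ⟨C₁, E₁, hE₁, h3⟩ := hni (1 / 4) (by norm_num)
  obtain ⟨C₂, E₂, hE₂, h4⟩ := hn0 (1 / 4) (by norm_num)
  have hE : volume (E₁ ∪ E₂) ≠ ⊤ :=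
    ((measure_union_le _ _).trans_lt (ENNReal.add_lt_top.2 ⟨lt_top_iff_ne_top.2 hE₁, lt_top_iff_ne_top.2 hE₂⟩)).ne
  have hTb : ∀ x, Real.exp (-x) < R₁ → x ∉ E₁ ∪ E₂ → nevT (ψ ρ) R₁ x ≤ 2 * (C₁ + C₂ + D) * (1 + |x|) := by
    intro x hx hxE
    have h5 := h3 x hx fun h => hxE (Or.inl h)
    have h6 := h4 x hx fun h => hxE (Or.inr h)
    have h7 := hTle x hx
    have h8 : 2 * (C₁ + C₂ + D) * (1 + |x|) = 2 * (C₁ * (1 + |x|)) + 2 * (C₂ * (1 + |x|)) + 2 * (D * (1 + |x|)) := by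
      ring
    linarith
  by_cases hg : g = 0
  · subst hg
    refine ⟨fun _ => 0, MeromorphicAt.const 0 0, ?_⟩
    have h5 : ∀ᶠ z in 𝓝[≠] (0 : ℂ), z ∈ puncturedDisc := by
      have h6 : ∀ᶠ z in 𝓝 (0 : ℂ), z ∈ Metric.ball (0 : ℂ) 1 := Metric.ball_mem_nhds (0 : ℂ) one_pos
      filter_upwards [h6.filter_mono nhdsWithin_le_nhds, self_mem_nhdsWithin] with z h7 h8
      exact ⟨h7, h8⟩
    filter_upwards [h5] with z hz
    exact h.zero hz
  · obtain ⟨C, hC⟩ := nevT_ev_le hz h hi hg h1 h2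
    have hC' : ∀ x, C * nevT (ψ ρ) R₁ x ≤ |C| * nevT (ψ ρ) R₁ x := fun x =>
      mul_le_mul_of_nonneg_right (le_abs_self C) (hT x)
    refine punctMero_of_nevT h1 h2 (h.meroPunct hg) hE (C := |C| * (2 * (C₁ + C₂ + D)) + C) fun x hx hxE => ?_
    have h5 := hC x hx
    have h6 := mul_le_mul_of_nonneg_left (hTb x hx hxE) (abs_nonneg C)
    have h7 := hC' x
    have h8 : (|C| * (2 * (C₁ + C₂ + D)) + C) * (1 + |x|) =
      |C| * (2 * (C₁ + C₂ + D) * (1 + |x|)) + C * (1 + |x|) := by ring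
    linarith

end Pool.Agent.H62.LGC

end
end

section

/-!
# LGC Final: curves of log general type

Holomorphic maps from the punctured disc to a curve of log general type extend, and the entire curves in it are constant.
-/

set_option autoImplicit false

open Topology Filter MvPolynomial
open Pool.Agent.H17 (PN VanishesAt ZariskiClosedIn HolomorphicInto puncturedDisc)
open Pool.Agent.H17LG.Variety (FunField ratio IsLogGeneralType)
open Pool.Agent.H17BP (mapIdeal mapIdeal_isPrime exists_X_notMem mem_mapIdeal_form le_mapIdeal mapIdeal_homog trdeg_lt eq_of_trdeg_zero mem_variety_mapIdeal isPreconnected_puncturedDisc variety)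
open Pool.Agent.H62.FC (Homog exists_fin_basis)
open Pool.Agent.H62.SA (locVar OnBd)

noncomputable section

namespace Pool.Agent.H62.LGC

variable {N : ℕ} {I : Ideal (MvPolynomial (Fin (N + 1)) ℂ)} {f : ℂ → PN N}

theorem isOpen_puncturedDisc : IsOpen puncturedDisc := Metric.isOpen_ball.sdiff isClosed_singleton

theorem eventually_mem_zero : ∀ᶠ z in 𝓝[≠] (0 : ℂ), z ∈ puncturedDisc := by
  have h1 : ∀ᶠ z in 𝓝 (0 : ℂ), z ∈ Metric.ball (0 : ℂ) 1 := Metric.ball_mem_nhds (0 : ℂ) one_pos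
  filter_upwards [h1.filter_mono nhdsWithin_le_nhds, self_mem_nhdsWithin] with z h2 h3
  exact ⟨h2, h3⟩

/-- **Holomorphic maps from the punctured disc to a curve of log general type extend.** -/
theorem picard_of_logGeneralType [I.IsPrime] (hI : Homog I) (hz : ∃ z : Fin 1 → FunField I, IsTranscendenceBasis ℂ z)
    {s : ℕ} {G : Fin s → MvPolynomial (Fin (N + 1)) ℂ} (hG : ∀ m, ∃ n, (G m).IsHomogeneous n)
    (hgt : IsLogGeneralType (K := FunField I) (k := 1) (OnBd I G)) (hf : HolomorphicInto f puncturedDisc)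
    (hfI : ∀ z ∈ puncturedDisc, f z ∈ locVar I G) :
    ∃ g : ℂ → PN N, HolomorphicInto g (Metric.ball 0 1) ∧ ∀ z ∈ puncturedDisc, g z = f z := by
  classical
  have hess : Algebra.EssFiniteType ℂ (FunField I) := Pool.Agent.H17GT.essFiniteType_functionField I
  obtain ⟨z₁, hz₁⟩ : puncturedDisc.Nonempty := ⟨1 / 2, by
    constructor
    · simp; norm_num
    · simp⟩
  by_cases hconst : ∀ z ∈ puncturedDisc, f z = f z₁
  · refine ⟨fun _ => f z₁, ?_, fun z hz => (hconst z hz).symm⟩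
    intro z _
    refine ⟨fun _ => (f z₁).rep, analyticAt_const, Eventually.of_forall fun w => ⟨(f z₁).rep_nonzero, ?_⟩⟩
    rw [Projectivization.mk_rep]
  push Not at hconst
  obtain ⟨z₂, hz₂, hne⟩ := hconst
  set J := mapIdeal f puncturedDisc with hJ
  have hJp : J.IsPrime := mapIdeal_isPrime isOpen_puncturedDisc isPreconnected_puncturedDisc ⟨z₁, hz₁⟩ hf
  have hJX : ∃ i, (X i : MvPolynomial (Fin (N + 1)) ℂ) ∉ J := exists_X_notMem ⟨z₁, hz₁⟩
  have hIJ : I ≤ J := le_mapIdeal hI fun z hz => ⟨(hfI z hz).1, fun m => m.elim0⟩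
  have hJI : J ≤ I := by
    by_contra hcon
    obtain ⟨w, hw⟩ := exists_fin_basis (P := J) hJX
    have hlt : w < 1 := trdeg_lt hI mapIdeal_homog hIJ hcon hJX hz hw
    have hw0 : w = 0 := by omega
    subst hw0
    exact hne (eq_of_trdeg_zero mapIdeal_homog hJX hw _ (mem_variety_mapIdeal hz₂) _ (mem_variety_mapIdeal hz₁))
  have hfI' : mapIdeal f puncturedDisc = I := le_antisymm hJI hIJ
  obtain ⟨i₀, hi₀⟩ := hJX
  have hi₀I : (X i₀ : MvPolynomial (Fin (N + 1)) ℂ) ∉ I := fun h => hi₀ (hIJ h)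
  obtain ⟨ψ, hψ, hψr⟩ := exists_ev hI hf hfI' hi₀I
  choose e he using hG
  have hB : ∀ s ∈ puncturedDisc, ∀ E, Under ψ s E → ¬ OnBd I G E := fun s hs E hE =>
    not_onBd hI hf hi₀I hψ hψr he hs (hfI s hs) hE
  have hrep : ∀ l, Pool.Agent.H62.FC.PunctMero fun z => (f z).rep l / (f z).rep i₀ := by
    intro l
    obtain ⟨v, hv, hve⟩ := punctMero_all hz hψ hgt hB (ratio I l i₀)
    refine ⟨v, hv, ?_⟩
    filter_upwards [hve, eventually_mem_zero] with z h1 h2
    exact (hψr l z h2).symm.trans h1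
  refine Pool.Agent.H62.FC.exists_extension hf (i₀ := i₀) ?_ hrep
  filter_upwards [eventually_mem_zero] with z hz
  have h1 : ∀ᶠ ζ in 𝓝[≠] z, ψ (ratio I i₀ i₀) ζ ≠ 0 := by
    refine hψ.ne_zero ?_ hz
    rw [Pool.Agent.H17R.ratio_self (Pool.Agent.H17R.coordFun_ne_zero_iff.2 hi₀I)]
    exact one_ne_zero
  filter_upwards [h1, hψr i₀ z hz] with ζ h2 h3 h4
  rw [h3, h4, div_zero] at h2
  exact h2 rfl

/-- **The entire curves in a curve of log general type are constant.** -/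
theorem const_of_logGeneralType [I.IsPrime] (hI : Homog I) (hz : ∃ z : Fin 1 → FunField I, IsTranscendenceBasis ℂ z)
    {s : ℕ} {G : Fin s → MvPolynomial (Fin (N + 1)) ℂ} (hG : ∀ m, ∃ n, (G m).IsHomogeneous n)
    (hgt : IsLogGeneralType (K := FunField I) (k := 1) (OnBd I G)) (hf : HolomorphicInto f Set.univ)
    (hfI : ∀ z, f z ∈ locVar I G) (z w : ℂ) : f z = f w := by
  by_contra hne
  have hΞ : ZariskiClosedIn (locVar I G) (∅ : Set (PN N)) := by
    refine ⟨{1}, ?_, ?_⟩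
    · rintro P' hP'
      rw [Set.mem_singleton_iff.1 hP']
      exact ⟨0, isHomogeneous_one _ _⟩
    · ext x
      simp only [Set.mem_empty_iff_false, false_iff, Set.mem_ofPred_eq, not_and]
      intro _ h
      have h1 := h 1 rfl
      unfold VanishesAt at h1
      rw [map_one] at h1
      exact one_ne_zero h1
  exact Pool.Agent.H17R.brody_of_picard hΞ (fun f hf hfX _ => picard_of_logGeneralType hI hz hG hgt hf hfX) hf hfI
    ⟨z, w, hne⟩ z

end Pool.Agent.H62.LGC

end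
end

section

/-!
# SR2 T CvG: the compact definitions and the definitions of the proofs (geometry)
-/

set_option autoImplicit false

open Topology Filter Metric MvPolynomial

noncomputable section

namespace Pool.Agent.SR2.T

open Pool.Agent.H17 (PN VanishesAt ZariskiClosedIn HolomorphicInto puncturedDisc)
open Pool.Agent.H17LG.Variety (FunField IsLogGeneralType)
open Pool.Agent.H13.SM (conTan)
open Pool.Agent.H7.Bir (vals rmap)
open Pool.Agent.H62.SA (locVar)

variable {N M s : ℕ}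

/-! ## smoothness -/

theorem isSmooth_of {P : Ideal (MvPolynomial (Fin (N + 1)) ℂ)} {n : ℕ} (h : Smooth P n) : Pool.Agent.AD.NC.IsSmooth P n := by
  intro x hx hP
  by_contra hcon
  push Not at hcon
  have h1 : n + 2 ≤ Module.finrank ℂ (conTan P x) := hcon
  obtain ⟨v, hv⟩ := exists_linearIndependent_of_le_finrank h1
  have h2 : LinearIndependent ℂ fun i => ((v i : conTan P x) : Fin (N + 1) → ℂ) :=
    hv.map' (conTan P x).subtype (Submodule.ker_subtype _)
  obtain ⟨i, Q, hQ, hne⟩ := h x hx hP _ h2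
  exact hne ((v i).2 Q hQ)

/-! ## log general type -/

/-! ## the conclusion -/

theorem ggl_of {P : Ideal (MvPolynomial (Fin (N + 1)) ℂ)} [P.IsPrime] {G : Fin s → MvPolynomial (Fin (N + 1)) ℂ} {Ξ : Set (PN N)}
    (h : Pool.Agent.H7.Bir.GGLOpen P G Ξ) : GGL P G Ξ where
  closed := h.closed
  proper := h.proper
  logGeneralType := fun n hn hd => h.logGeneralType n hn hd
  picard := h.picard
  brody := h.brody
  strongly := fun Q _ hQ hPQ hne n hn hd => h.strongly Q hQ hPQ hne n hn hd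

theorem vals_ne {γ : Fin (N + 1) → MvPolynomial (Fin (M + 1)) ℂ} {y : PN M} :
    vals γ y.rep ≠ 0 ↔ ∃ i, ¬ VanishesAt (γ i) y := by
  constructor
  · intro h
    by_contra hcon
    push Not at hcon
    exact h (funext hcon)
  · rintro ⟨i, hi⟩ h
    exact hi (congrFun h i)

theorem regular_of {S : Set (PN M)} {p : PN M → PN N} (h : RegularOn S p) : ∀ y ∈ S, ∃ (D : ℕ) (γ : Fin (N + 1) → MvPolynomial (Fin (M + 1)) ℂ),
    (∀ i, (γ i).IsHomogeneous D) ∧ vals γ y.rep ≠ 0 ∧ ∀ y' ∈ S, vals γ y'.rep ≠ 0 → p y' = rmap γ y' := by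
  intro y hy
  obtain ⟨D, γ, h1, h2, h3⟩ := h y hy
  refine ⟨D, γ, h1, vals_ne.2 h2, fun y' hy' hne => ?_⟩
  obtain ⟨h4, h5⟩ := h3 y' hy' (vals_ne.1 hne)
  rw [h5, Pool.Agent.H7.Bir.rmap, dif_pos hne]
  rfl

theorem isDominantMap_of {s' : ℕ} {P : Ideal (MvPolynomial (Fin (N + 1)) ℂ)} {P' : Ideal (MvPolynomial (Fin (M + 1)) ℂ)}
    {G : Fin s → MvPolynomial (Fin (N + 1)) ℂ} {G' : Fin s' → MvPolynomial (Fin (M + 1)) ℂ} {p : PN M → PN N} (h : IsDominantMap P P' G G' p) :
    Pool.Agent.H7.Qup.IsDominantMap P P' G G' p where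
  maps := h.maps
  regular := regular_of h.regular
  dense := h.dense

theorem isEtaleOver_of {s' : ℕ} {P : Ideal (MvPolynomial (Fin (N + 1)) ℂ)} {P' : Ideal (MvPolynomial (Fin (M + 1)) ℂ)}
    {G : Fin s → MvPolynomial (Fin (N + 1)) ℂ} {G' : Fin s' → MvPolynomial (Fin (M + 1)) ℂ} {p : PN M → PN N} (h : IsEtale P P' G G' p) :
    Pool.Agent.H62.Qe.IsEtaleOver P P' G G' p where
  reg := ⟨h.maps, h.surj, regular_of h.regular⟩
  inv := h.inv
  locInj := by
    intro y hy hm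
    filter_upwards [h.locInj y _ ⟨hy, rfl⟩ hm] with q hq h1 h2 h3 h4 h5
    exact hq _ h3 _ h4 ⟨h1, rfl⟩ ⟨h2, rfl⟩ h5
  locSec := by
    intro y hy hm
    obtain ⟨x, τ, ⟨hx, h1⟩, h2, h3, h4⟩ := h.locSec y _ ⟨hy, rfl⟩ hm
    refine ⟨x, hx, τ, h1, h2, h3, ?_⟩
    filter_upwards [h4] with x' h5 h6 h7
    obtain ⟨c, hc, ⟨h8, h9⟩, h10⟩ := h5 _ h7 ⟨h6, rfl⟩
    rw [h9] at hc h10
    exact ⟨h8, hc, h10⟩

theorem hyperbolic_of {P : Ideal (MvPolynomial (Fin (N + 1)) ℂ)} [P.IsPrime] {G : Fin s → MvPolynomial (Fin (N + 1)) ℂ}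
    (h : Pool.Agent.SDA.IsHyperbolicOpen P G) : Hyperbolic P G where
  four := by
    obtain ⟨Ξ, hΞ⟩ := h.four
    exact ⟨Ξ, ggl_of hΞ⟩
  dominating := by
    intro L t R _ F p hR hp
    obtain ⟨Ξ, hΞ⟩ := h.dominating L t R F p hR.homog hR.forms hR.dim (isDominantMap_of hp)
    exact ⟨Ξ, ggl_of hΞ⟩
  virtual := by
    intro L L' t t' R _ R' _ F F' q p hR hR' hp hq hgt
    obtain ⟨Ξ, hΞ⟩ := h.virtual L' L t t' R' R F F' q p hR'.homog hR.homog hR.forms hR'.forms hR'.dim hR.dim (isDominantMap_of hp)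
      (isEtaleOver_of hq) hgt
    exact ⟨Ξ, ggl_of hΞ⟩
  kobayashi := by
    obtain ⟨Q, D, h1, h2, m, C, h3⟩ := h.kobayashi
    exact ⟨Q, D, h1, h2, m, C, h3⟩

end Pool.Agent.SR2.T

end
end
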