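import Pool.Agent.H43.TL2.M111
import Pool.Agent.H43.TL2.M54
import Pool.Agent.H43.TL2.M57
import Pool.Agent.H43.TL2.M62
import Pool.Agent.H43.TL2.M82
import Pool.Agent.H43.TL2.M95

/-! The parts of this file: H68.KR.EXT, H68.KR.ExtG, H62.SA.ExtF, H68.KR.Main, H68.KR.MainG. -/

section

/-!
# KR EXT: the canonical form extends to all charts

Proof of `exists_ext`.  Let `A' u = eval (σ u) A * D3 t₀ (σ u) (d1 σ u) (d2 σ u) ^ M`, `B' u = eval (σ u) (B * X (t₀ 0) ^ (3 M + 1))`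
(analytic at `0`; `B'` is not `0` near `0`, `nd`).  Assume that there is no extension.  Let `U` be the set of the `p` such that
`σ` is analytic at `p`, near `p` the conditions `mem, c0, c1, c2` hold, and `nd_near` at `p`.  `exists_curve` gives
`m, x₁, c, j < k`; let `θ = shear m x₁ c`, `ψ = σ ∘ θ`.  `θ` is analytic at `0`, and has the continuous inverse
`η v = (v.1 - m v.2 - x₁, v.2 - c (v.1 - m v.2 - x₁))` near `θ 0` (`θ (η v) = v`, `η (θ 0) = 0`); so
`eval (ψ u) Q = 0` near `0` implies `eval (σ v) Q = 0` near `θ 0`: `ψ` satisfies the hypotheses of `exists_embedding`.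
Let `E` be the embedding, `y i = emb (t2 (ψ · i))`, `l = t 0`, `x = σ 0`.  `y l = cst (x l)`,
`y (t 1) = cst (x (t 1)) + cst (x l) * emb (t2 θ₁)`, `y (t 2) = …`; with
`s = ratio (t 1) l - m * ratio (t 2) l`: `E s = cst b + xx` because `θ₁ - m θ₂ = x₁ + u.1`.
`X l ∉ P` because `x l ≠ 0` and `x` is in the zero set.
`pole_free` with `H * ratio P l o`: `0 ≤ vT (E (H * ratio P l o) * (E W * J) ^ M)`, where
`J = emb (t2 (D3 t₀ ψ (d1 ψ) (d2 ψ))) / y (t₀ 0) ^ 3`.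
Put `F = H * ratio P (t₀ 0) o * W ^ M`: `E F * emb (t2 (eval ψ B)) = emb (t2 (eval ψ A))`.  In `LL` (a field; `y o`,
`y (t₀ 0)`, `y l`, `emb (t2 (eval ψ B))` are not `0`, the forms `X o`, … are not in `P`):
`E (H * ratio P l o) * (E W) ^ M = E F * (y l / y (t₀ 0))`, so
`E (H * ratio P l o) * (E W * J) ^ M * emb (t2 (eval ψ B)) * y (t₀ 0) ^ (3 M + 1) = y l * emb (t2 (eval ψ A)) * emb (t2 (D3 …)) ^ M`.
`D3 t₀ (ψ …) = jac θ * D3 t₀ (σ …) ∘ θ` (`D3_comp` with `c = 1`) and `jac θ = 1` near `0`.  So the right side is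
`y l * emb (t2 (A' ∘ θ))` and `emb (t2 (eval ψ B)) * y (t₀ 0) ^ (3 M + 1) = emb (t2 (B' ∘ θ))`.
Orders: `vT (y l) = 0`, `vT (emb (t2 (A' ∘ θ))) = j`, `vT (emb (t2 (B' ∘ θ))) = k`: `k ≤ 0 + j`, against `j < k`.

Proof of `exists_jacobian`.  `ratio (t₀ 1) (t₀ 0), ratio (t₀ 2) (t₀ 0)`: by `exists_form_mk` for the transcendence basis
`ratio (t 1) (t 0), ratio (t 2) (t 0)`: `Form.mk 1 ![ratio (t₀ 1) (t₀ 0), ratio (t₀ 2) (t₀ 0)] = Form.mk f ![ratio (t 1) (t 0), …]`.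
Let `A, B` be the representation of `f` (`exists_hom_rep`).  For a chart `σ` at `x` with the triple `t`: the embedding `E` of
`φ = σ` and the Jacobian functional (`exists_jac` with `DX`, `DT`) give
`emb (t2 D3 t₀) / y (t₀ 0) ^ 3 = E f * emb (t2 D3 t) / y (t 0) ^ 3`, and `D3 t = x (t 0) ^ 3`, `y (t 0) = cst (x (t 0))`.  So
`emb (t2 (D3 t₀ …)) * emb (t2 (eval σ B)) = y (t₀ 0) ^ 3 * emb (t2 (eval σ A))`; `emb`, `t2` are injective: the functions
`D3 t₀ (…) * eval (σ u) B` and `(σ u (t₀ 0)) ^ 3 * eval (σ u) A` agree near `0`; take `u = 0`.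
`f ≠ 0`: `Form.mk 1 ![…] ≠ 0` because the family `ratio (t₀ 1) (t₀ 0), …` is a transcendence basis (its image under the
Jacobian functional is `emb (t2 D3 t₀) / … ≠ 0` for a chart with the triple `t₀`; or: if `Form.mk 1 ![…] = 0` then
`exists_form_mk` gives that all forms are `0`, but `Form.mk 1` of the basis `t` is not `0` as `D3 t = x (t 0) ^ 3 ≠ 0`).
So `A ∉ P` (last but one clause of `exists_hom_rep`; this uses the existence of a chart, therefore `A ∉ P` is inside).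

Proof of `CChart.isTranscendenceBasis`.  `X (t 0) ∉ P` because `x` is a zero of `P` with `x (t 0) ≠ 0`.  Let
`p : MvPolynomial (Fin 2) ℂ` with `aeval ![ratio (t 1) (t 0), ratio (t 2) (t 0)] p = 0` and
`G = aeval ![X (t 1), X (t 2)] p`, so `aeval (ratio · (t 0)) G = 0`.  By `eval_eq_zero_of_relation` at the points `σ u`
(`σ u (t 0) = x (t 0) ≠ 0`) and `c0, c1, c2`: `eval ![x (t 1) / x (t 0) + u.1, x (t 2) / x (t 0) + u.2] p = 0` for `u` near `0`,
so `p = 0` (`MvPolynomial.funext_set` on a product of two small discs).  So the family is algebraically independent, and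
it has as many elements as the transcendence basis `z` (`AlgebraicIndependent.isTranscendenceBasis_of_…`, `Algebra.trdeg`
finite, `IsTranscendenceBasis.lift_cardinalMk_eq_trdeg`).
-/

set_option autoImplicit false

open MvPolynomial Topology Filter
open Pool.Agent.H23.Fano (Form regularForms PrimeDivisorOver)
open Pool.Agent.H17LG.Variety (FunField ratio PoleAtMost)

noncomputable section

namespace Pool.Agent.H68.KR

variable {N : ℕ} (P : Ideal (MvPolynomial (Fin (N + 1)) ℂ)) [P.IsPrime]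

private theorem EXT_an_snd {c : ℂ → ℂ} (hc : AnalyticAt ℂ c 0) :
    AnalyticAt ℂ (fun u : ℂ × ℂ => c u.1 + u.2) 0 := by
  have h1 : AnalyticAt ℂ (fun u : ℂ × ℂ => u.1) 0 := analyticAt_fst
  have h2 : AnalyticAt ℂ (fun u : ℂ × ℂ => c u.1) 0 :=
    AnalyticAt.fun_comp (g := c) (f := fun u : ℂ × ℂ => u.1) hc h1
  exact h2.add analyticAt_snd

private theorem EXT_an_shear {m x₁ : ℂ} {c : ℂ → ℂ} (hc : AnalyticAt ℂ c 0) :
    AnalyticAt ℂ (shear m x₁ c) 0 := by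
  have h2 := EXT_an_snd hc
  have h1 : AnalyticAt ℂ (fun u : ℂ × ℂ => x₁ + u.1 + m * (c u.1 + u.2)) 0 :=
    (analyticAt_const.add analyticAt_fst).add (analyticAt_const.mul h2)
  exact h1.prod h2

private theorem EXT_jac_shear {m x₁ : ℂ} {c : ℂ → ℂ} {u : ℂ × ℂ}
    (hc : DifferentiableAt ℂ c u.1) : jac (shear m x₁ c) u = 1 := by
  have h2 : HasFDerivAt (fun v : ℂ × ℂ => c v.1 + v.2)
      (deriv c u.1 • ContinuousLinearMap.fst ℂ ℂ ℂ + ContinuousLinearMap.snd ℂ ℂ ℂ) u := by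
    exact (hc.hasDerivAt.comp_hasFDerivAt u hasFDerivAt_fst).add hasFDerivAt_snd
  have h1 : HasFDerivAt (fun v : ℂ × ℂ => x₁ + v.1 + m * (c v.1 + v.2))
      (ContinuousLinearMap.fst ℂ ℂ ℂ + m • (deriv c u.1 • ContinuousLinearMap.fst ℂ ℂ ℂ +
        ContinuousLinearMap.snd ℂ ℂ ℂ)) u := by
    exact (hasFDerivAt_fst.const_add x₁).add (h2.const_mul m)
  simp only [jac, shear, dx, dy]
  rw [h1.fderiv, h2.fderiv]
  simp

/-- Non-degeneracy is preserved by the shear. -/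
private theorem EXT_nd {m x₁ : ℂ} {c : ℂ → ℂ} (hc : AnalyticAt ℂ c 0) {g : ℂ × ℂ → ℂ}
    (hg : ∀ᶠ u in 𝓝 (0 : ℂ × ℂ), g (shear m x₁ c u) = 0) :
    ∀ᶠ v in 𝓝 (shear m x₁ c 0), g v = 0 := by
  have h0 : (shear m x₁ c 0).1 - m * (shear m x₁ c 0).2 - x₁ = 0 := by
    simp only [shear, Prod.fst_zero, Prod.snd_zero]
    ring
  have hcont : ContinuousAt (fun v : ℂ × ℂ => ((v.1 - m * v.2 - x₁, v.2 - c (v.1 - m * v.2 - x₁)) : ℂ × ℂ))
      (shear m x₁ c 0) := by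
    have ha : ContinuousAt (fun v : ℂ × ℂ => v.1 - m * v.2 - x₁) (shear m x₁ c 0) := by
      fun_prop
    have hb : ContinuousAt (fun v : ℂ × ℂ => c (v.1 - m * v.2 - x₁)) (shear m x₁ c 0) :=
      ContinuousAt.comp' (f := fun v : ℂ × ℂ => v.1 - m * v.2 - x₁) (g := c)
        (by rw [h0]; exact hc.continuousAt) ha
    exact ha.prodMk (continuousAt_snd.sub hb)
  have heta : ((fun v : ℂ × ℂ => ((v.1 - m * v.2 - x₁, v.2 - c (v.1 - m * v.2 - x₁)) : ℂ × ℂ))
      (shear m x₁ c 0)) = 0 := by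
    simp only [h0]
    simp [shear]
  have h1 : ∀ᶠ v in 𝓝 (shear m x₁ c 0), g (shear m x₁ c
      ((fun v : ℂ × ℂ => ((v.1 - m * v.2 - x₁, v.2 - c (v.1 - m * v.2 - x₁)) : ℂ × ℂ)) v)) = 0 := by
    have h3 := hcont.tendsto
    have h4 : (((shear m x₁ c 0).1 - m * (shear m x₁ c 0).2 - x₁,
        (shear m x₁ c 0).2 - c ((shear m x₁ c 0).1 - m * (shear m x₁ c 0).2 - x₁)) : ℂ × ℂ) = 0 := heta
    rw [h4] at h3
    exact h3.eventually hg
  refine h1.mono fun v hv => ?_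
  have h2 : shear m x₁ c (v.1 - m * v.2 - x₁, v.2 - c (v.1 - m * v.2 - x₁)) = v := by
    simp only [shear]
    ext
    · simp only
      ring
    · simp only
      ring
  simpa only [h2] using hv

private theorem EXT_alg {F : Type} [Field F] (EH EW e1 e2 y0 yo yl : F) (h0 : y0 ≠ 0)
    (ho : yo ≠ 0) (M : ℕ) :
    EH * (yl / yo) * (EW * (e1 / y0 ^ 3)) ^ M * (e2 * y0 ^ (3 * M + 1)) =
      yl * (EH * (y0 / yo) * EW ^ M * e2 * e1 ^ M) := by
  have h1 : (y0 ^ 3) ^ M ≠ 0 := pow_ne_zero _ (pow_ne_zero _ h0)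
  have h2 : y0 ^ (3 * M + 1) = (y0 ^ 3) ^ M * y0 := by rw [pow_succ, pow_mul]
  rw [mul_pow, div_pow, h2]
  field_simp

theorem exists_ext {k : ℕ} (z : Fin (k + 1) → FunField P) (hz : IsTranscendenceBasis ℂ z)
    {t₀ : Fin 3 → Fin (N + 1)} (ht₀ : X (t₀ 0) ∉ P) {o : Fin (N + 1)} (ho : X o ∉ P) {M : ℕ}
    {H W : FunField P}
    (hpole : ∀ l, X l ∉ P → ∀ D : PrimeDivisorOver (FunField P) 2, PoleAtMost 0 D M (H * ratio P l o)
      (Form.mk W ![ratio P (t₀ 1) (t₀ 0), ratio P (t₀ 2) (t₀ 0)]))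
    {d : ℕ} {A B : MvPolynomial (Fin (N + 1)) ℂ} (hA : A.IsHomogeneous d) (hB : B.IsHomogeneous d)
    (hBP : B ∉ P)
    (hrep : ∀ l, X l ∉ P → (H * ratio P (t₀ 0) o * W ^ M) * aeval (fun i => ratio P i l) B =
      aeval (fun i => ratio P i l) A)
    {x : Fin (N + 1) → ℂ} {t : Fin 3 → Fin (N + 1)} {σ : ℂ × ℂ → Fin (N + 1) → ℂ}
    (h : CChart P x t σ) : ∃ Φ, Ext M t₀ A (B * X (t₀ 0) ^ (3 * M + 1)) σ Φ 0 := by
  classical
  by_contra hne
  have hBX : (B * X (t₀ 0) ^ (3 * M + 1)).IsHomogeneous (d + (3 * M + 1)) :=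
    hB.mul (isHomogeneous_X_pow _ _)
  have hBXP : B * X (t₀ 0) ^ (3 * M + 1) ∉ P := by
    intro hmem
    rcases (inferInstance : P.IsPrime).mem_or_mem hmem with h1 | h1
    · exact hBP h1
    · exact ht₀ ((inferInstance : P.IsPrime).mem_of_pow_mem _ h1)
  have hA'an : AnalyticAt ℂ
      (fun u => eval (σ u) A * D3 t₀ (σ u) (d1 σ u) (d2 σ u) ^ M) 0 :=
    (analyticAt_eval h.an A).mul ((analyticAt_D3 t₀ h.an).pow M)
  have hB'an : AnalyticAt ℂ (fun u => eval (σ u) (B * X (t₀ 0) ^ (3 * M + 1))) 0 :=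
    analyticAt_eval h.an _
  have hB'0 : ¬ ∀ᶠ u in 𝓝 (0 : ℂ × ℂ), eval (σ u) (B * X (t₀ 0) ^ (3 * M + 1)) = 0 :=
    h.nd _ _ hBX hBXP
  have hne' : ¬ ∃ Φ : ℂ × ℂ → ℂ, AnalyticAt ℂ Φ 0 ∧ ∀ᶠ u in 𝓝 (0 : ℂ × ℂ),
      (fun u => eval (σ u) A * D3 t₀ (σ u) (d1 σ u) (d2 σ u) ^ M) u =
        (fun u => eval (σ u) (B * X (t₀ 0) ^ (3 * M + 1))) u * Φ u := by
    rintro ⟨Φ, hΦ, hΦ'⟩
    exact hne ⟨Φ, hΦ, hΦ'.mono fun u hu => hu.symm⟩
  have hU : {p : ℂ × ℂ | AnalyticAt ℂ σ p ∧ (∀ᶠ u in 𝓝 p, ∀ Q ∈ P, eval (σ u) Q = 0) ∧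
      (∀ᶠ u in 𝓝 p, σ u (t 0) = x (t 0)) ∧ (∀ᶠ u in 𝓝 p, σ u (t 1) = x (t 1) + x (t 0) * u.1) ∧
      (∀ᶠ u in 𝓝 p, σ u (t 2) = x (t 2) + x (t 0) * u.2) ∧
      ∀ (d : ℕ) (Q : MvPolynomial (Fin (N + 1)) ℂ), Q.IsHomogeneous d → Q ∉ P →
        ¬ ∀ᶠ u in 𝓝 p, eval (σ u) Q = 0} ∈ 𝓝 (0 : ℂ × ℂ) :=
    h.an.eventually_analyticAt.and (h.mem.eventually_nhds.and (h.c0.eventually_nhds.and
      (h.c1.eventually_nhds.and (h.c2.eventually_nhds.and h.nd_near))))
  obtain ⟨m, x₁, c, j, k', hc, ⟨hσ, hmem, hc0, hc1, hc2, hnd⟩, hordA, hordB, hjk⟩ :=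
    exists_curve hA'an hB'an hB'0 hne' hU
  have hθ : AnalyticAt ℂ (shear m x₁ c) 0 := EXT_an_shear hc
  have hψ : AnalyticAt ℂ (fun u => σ (shear m x₁ c u)) 0 :=
    AnalyticAt.fun_comp (g := σ) (f := shear m x₁ c) hσ hθ
  have hmemψ : ∀ᶠ u in 𝓝 (0 : ℂ × ℂ), ∀ Q ∈ P, eval (σ (shear m x₁ c u)) Q = 0 :=
    hθ.continuousAt.eventually hmem
  have hndψ : ∀ (d : ℕ) (Q : MvPolynomial (Fin (N + 1)) ℂ), Q.IsHomogeneous d → Q ∉ P →
      ¬ ∀ᶠ u in 𝓝 (0 : ℂ × ℂ), eval (σ (shear m x₁ c u)) Q = 0 := fun d Q hQ hQP hQ0 =>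
    hnd d Q hQ hQP (EXT_nd hc hQ0)
  have hψi : ∀ i, AnalyticAt ℂ (fun u => σ (shear m x₁ c u) i) 0 := fun i => by
    have h1 := analyticAt_eval hψ (X i)
    simpa only [eval_X] using h1
  have hψ0 : ∀ᶠ u in 𝓝 (0 : ℂ × ℂ), σ (shear m x₁ c u) (t 0) = x (t 0) :=
    hθ.continuousAt.eventually hc0
  have hψ1 : ∀ᶠ u in 𝓝 (0 : ℂ × ℂ), σ (shear m x₁ c u) (t 1) =
      x (t 1) + x (t 0) * (shear m x₁ c u).1 := hθ.continuousAt.eventually hc1
  have hψ2 : ∀ᶠ u in 𝓝 (0 : ℂ × ℂ), σ (shear m x₁ c u) (t 2) =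
      x (t 2) + x (t 0) * (shear m x₁ c u).2 := hθ.continuousAt.eventually hc2
  obtain ⟨E, hE1, hE2, hE3, hE4⟩ := exists_embedding P z hz hψ hmemψ hndψ
  have hy : ∀ i, X i ∉ P → emb (t2 fun u => σ (shear m x₁ c u) i) ≠ 0 := by
    intro i hi h0
    have h1 : t2 (fun u => σ (shear m x₁ c u) i) = 0 := by
      apply emb_injective
      rw [h0, map_zero]
    rw [t2_eq_zero_iff (hψi i)] at h1
    refine hndψ 1 (X i) (isHomogeneous_X _ _) hi (h1.mono fun u hu => ?_)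
    rw [eval_X]
    exact hu
  have hl : X (t 0) ∉ P := by
    intro hmem0
    have h1 := h.mem.self_of_nhds (X (t 0)) hmem0
    rw [eval_X, h.zero] at h1
    exact h.ne h1
  have hcst : ∀ a : ℂ, emb (t2 fun _ => a) = cst a := fun a => by
    rw [t2_const, emb_C_C]
  have hyl : emb (t2 fun u => σ (shear m x₁ c u) (t 0)) = cst (x (t 0)) := by
    rw [t2_congr hψ0, hcst]
  have hxl : cst (x (t 0)) ≠ 0 := by
    rw [← hyl]
    exact hy _ hl
  -- the coordinate function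
  have hs : E (ratio P (t 1) (t 0) - algebraMap ℂ (FunField P) m * ratio P (t 2) (t 0)) =
      cst ((x (t 1) - m * x (t 2)) / x (t 0) + x₁) + xx := by
    have h1 : t2 (fun u => σ (shear m x₁ c u) (t 1)) =
        t2 (fun u => m * σ (shear m x₁ c u) (t 2) +
          ((x (t 1) - m * x (t 2) + x (t 0) * x₁) + x (t 0) * u.1)) := by
      apply t2_congr
      filter_upwards [hψ1, hψ2] with u h1 h2
      rw [h1, h2]
      simp only [shear]
      ring
    have hfst : AnalyticAt ℂ (fun u : ℂ × ℂ => u.1) 0 := analyticAt_fst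
    have h2 : t2 (fun u : ℂ × ℂ => u.1) = PowerSeries.C PowerSeries.X := by
      have := t2_of_fst (f := fun a : ℂ => a) analyticAt_id
      rw [this, t1_id]
    have h3 : emb (t2 fun u => σ (shear m x₁ c u) (t 1)) =
        cst m * emb (t2 fun u => σ (shear m x₁ c u) (t 2)) +
          (cst (x (t 1) - m * x (t 2) + x (t 0) * x₁) + cst (x (t 0)) * xx) := by
      have h4 : AnalyticAt ℂ (fun u => m * σ (shear m x₁ c u) (t 2)) 0 :=
        analyticAt_const.fun_mul (hψi (t 2))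
      have h5 : AnalyticAt ℂ (fun u : ℂ × ℂ => x (t 0) * u.1) 0 := analyticAt_const.fun_mul hfst
      have h6 : AnalyticAt ℂ (fun u : ℂ × ℂ =>
          (x (t 1) - m * x (t 2) + x (t 0) * x₁) + x (t 0) * u.1) 0 := analyticAt_const.fun_add h5
      rw [h1, t2_add h4 h6, t2_mul analyticAt_const (hψi (t 2)),
        t2_add analyticAt_const h5, t2_mul analyticAt_const hfst, h2]
      simp only [map_add, map_mul, hcst, emb_C_X]
    have h7 : cst ((x (t 1) - m * x (t 2)) / x (t 0) + x₁) * cst (x (t 0)) =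
        cst (x (t 1) - m * x (t 2) + x (t 0) * x₁) := by
      rw [← map_mul]
      congr 1
      have := h.ne
      field_simp
    rw [map_sub, map_mul, hE1, hE2, hE2, h3, hyl, ← h7]
    field_simp
    ring
  have hpf := pole_free E hE1 _ _ hs M (H * ratio P (t 0) o) W
    ![ratio P (t₀ 1) (t₀ 0), ratio P (t₀ 2) (t₀ 0)] (hpole (t 0) hl)
  have hJ := hE4 t₀ ht₀
  simp only [Matrix.cons_val_zero, Matrix.cons_val_one] at hpf
  rw [hJ] at hpf
  have hrepE := hE3 d A B _ hA hB hrep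
  -- the Jacobian
  have hD3 : t2 (fun u => D3 t₀ (σ (shear m x₁ c u)) (d1 (fun u => σ (shear m x₁ c u)) u)
      (d2 (fun u => σ (shear m x₁ c u)) u)) =
      t2 (fun u => D3 t₀ (σ (shear m x₁ c u)) (d1 σ (shear m x₁ c u)) (d2 σ (shear m x₁ c u))) := by
    apply t2_congr
    have h1 := D3_comp t₀ (φ := fun u => σ (shear m x₁ c u)) (c := fun _ => (1 : ℂ))
      (analyticAt_const (x := (0 : ℂ × ℂ))) hθ hσ (Filter.Eventually.of_forall fun u => (one_smul ℂ _).symm)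
    have h2 : ∀ᶠ u in 𝓝 (0 : ℂ × ℂ), DifferentiableAt ℂ c u.1 := by
      have h3 : ∀ᶠ a in 𝓝 ((0 : ℂ × ℂ).1), DifferentiableAt ℂ c a :=
        hc.eventually_analyticAt.mono fun a ha => ha.differentiableAt
      exact continuousAt_fst.eventually h3
    filter_upwards [h1, h2] with u h1 h2
    rw [h1, EXT_jac_shear h2]
    ring
  have hD3an : AnalyticAt ℂ (fun u => D3 t₀ (σ (shear m x₁ c u)) (d1 σ (shear m x₁ c u))
      (d2 σ (shear m x₁ c u))) 0 :=
    AnalyticAt.fun_comp (g := fun v => D3 t₀ (σ v) (d1 σ v) (d2 σ v)) (f := shear m x₁ c)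
      (analyticAt_D3 t₀ hσ) hθ
  have hAan : AnalyticAt ℂ (fun u => eval (σ (shear m x₁ c u)) A) 0 := analyticAt_eval hψ A
  have hBan : AnalyticAt ℂ (fun u => eval (σ (shear m x₁ c u)) B) 0 := analyticAt_eval hψ B
  have hA2 : t2 (fun u => (fun u => eval (σ u) A * D3 t₀ (σ u) (d1 σ u) (d2 σ u) ^ M)
      (shear m x₁ c u)) = t2 (fun u => eval (σ (shear m x₁ c u)) A) *
        t2 (fun u => D3 t₀ (σ (shear m x₁ c u)) (d1 σ (shear m x₁ c u))
          (d2 σ (shear m x₁ c u))) ^ M := by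
    rw [← t2_pow hD3an, ← t2_mul hAan (hD3an.fun_pow M)]
  have hB2 : t2 (fun u => (fun u => eval (σ u) (B * X (t₀ 0) ^ (3 * M + 1))) (shear m x₁ c u)) =
      t2 (fun u => eval (σ (shear m x₁ c u)) B) *
        t2 (fun u => σ (shear m x₁ c u) (t₀ 0)) ^ (3 * M + 1) := by
    rw [← t2_pow (hψi (t₀ 0)), ← t2_mul hBan ((hψi (t₀ 0)).fun_pow _)]
    simp only [map_mul, map_pow, eval_X]
  have hvA : vT (emb (t2 fun u => eval (σ (shear m x₁ c u)) A) *
      emb (t2 (fun u => D3 t₀ (σ (shear m x₁ c u)) (d1 σ (shear m x₁ c u))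
          (d2 σ (shear m x₁ c u)))) ^ M) = (j : ℤ) := by
    rw [← map_pow, ← map_mul, ← hA2]
    exact vT_emb hordA
  have hvB : vT (emb (t2 fun u => eval (σ (shear m x₁ c u)) B) *
      emb (t2 fun u => σ (shear m x₁ c u) (t₀ 0)) ^ (3 * M + 1)) = (k' : ℤ) := by
    rw [← map_pow, ← map_mul, ← hB2]
    exact vT_emb hordB
  have hvl : vT (cst (x (t 0))) = 0 := by
    change vT (HahnSeries.C (HahnSeries.C (x (t 0)))) = 0
    apply vT_C
    intro h0
    apply hxl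
    change HahnSeries.C (HahnSeries.C (x (t 0))) = 0
    rw [h0, map_zero]
  have hyo := hy o ho
  have hyt := hy (t₀ 0) ht₀
  -- the identity
  have hid : (E (H * ratio P (t 0) o) * (E W * (emb (t2 fun u =>
      D3 t₀ (σ (shear m x₁ c u)) (d1 (fun u => σ (shear m x₁ c u)) u)
        (d2 (fun u => σ (shear m x₁ c u)) u)) / emb (t2 fun u => σ (shear m x₁ c u) (t₀ 0)) ^ 3)) ^ M) *
      (emb (t2 fun u => eval (σ (shear m x₁ c u)) B) *
        emb (t2 fun u => σ (shear m x₁ c u) (t₀ 0)) ^ (3 * M + 1)) =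
      cst (x (t 0)) * (emb (t2 fun u => eval (σ (shear m x₁ c u)) A) *
        emb (t2 (fun u => D3 t₀ (σ (shear m x₁ c u)) (d1 σ (shear m x₁ c u))
          (d2 σ (shear m x₁ c u)))) ^ M) := by
    rw [← hrepE, hD3]
    simp only [map_mul, map_pow, hE2, hyl]
    exact EXT_alg (F := LL) (E H) (E W) _ _ _ _ _ hyt hyo M
  have hv := congrArg vT hid
  rw [AddValuation.map_mul vT (E (H * ratio P (t 0) o) * _) _,
    AddValuation.map_mul vT (cst (x (t 0))) _, hvA, hvB, hvl, zero_add] at hv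
  have h1 : ((k' : ℤ) : WithTop ℤ) ≤ ((j : ℤ) : WithTop ℤ) := by
    rw [← hv]
    exact le_add_of_nonneg_left hpf
  have h2 : (k' : ℤ) ≤ (j : ℤ) := WithTop.coe_le_coe.1 h1
  have h3 : k' ≤ j := by exact_mod_cast h2
  omega

private theorem EXTb_sub {f g : ℂ × ℂ → ℂ} (hf : AnalyticAt ℂ f 0) (hg : AnalyticAt ℂ g 0)
    (h : t2 f = t2 g) : f 0 = g 0 := by
  have hg' : AnalyticAt ℂ (fun u => (-1 : ℂ) * g u) 0 := analyticAt_const.mul hg
  have hfg : AnalyticAt ℂ (fun u => f u + (-1 : ℂ) * g u) 0 := hf.add hg'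
  have hc : AnalyticAt ℂ (fun _ : ℂ × ℂ => (-1 : ℂ)) 0 := analyticAt_const
  have h1 : t2 (fun u => f u + (-1 : ℂ) * g u) = 0 := by
    rw [t2_add hf hg', t2_mul hc hg, t2_const, h, map_neg, map_neg, map_one, map_one, neg_one_mul,
      add_neg_cancel]
  have h2 := (t2_eq_zero_iff hfg).1 h1
  have h3 : f 0 + (-1) * g 0 = 0 := h2.self_of_nhds
  linear_combination h3

private theorem EXTb_apply {φ : ℂ × ℂ → Fin (N + 1) → ℂ} (h : AnalyticAt ℂ φ 0) (i : Fin (N + 1)) :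
    AnalyticAt ℂ (fun u => φ u i) 0 := by
  have h1 := analyticAt_eval h (X i : MvPolynomial (Fin (N + 1)) ℂ)
  simpa using h1

private theorem EXTb_ne {x : Fin (N + 1) → ℂ} {t : Fin 3 → Fin (N + 1)} {σ : ℂ × ℂ → Fin (N + 1) → ℂ}
    (h : CChart P x t σ) {i : Fin (N + 1)} (hi : X i ∉ P) : emb (t2 fun u => σ u i) ≠ 0 := by
  intro h0
  have h1 : t2 (fun u => σ u i) = 0 := emb_injective (by rw [h0, map_zero])
  have h2 := (t2_eq_zero_iff (EXTb_apply h.an i)).1 h1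
  refine h.nd 1 (X i) (isHomogeneous_X _ _) hi ?_
  filter_upwards [h2] with u hu
  rw [eval_X]
  exact hu

private theorem EXTb_mk_smul {K : Type} [Field K] [Algebra ℂ K] (c : K) (a : Fin 2 → K) :
    Form.mk c a = c • Form.mk (1 : K) a := by
  have h1 : ∀ v : Form K 2, c • v = c • (1 : K) • v := fun v => by rw [one_smul]
  exact h1 _

private theorem EXTb_one {F : Type} [Field F] {y : F} (h : y ≠ 0) : y ^ 3 / y ^ 3 = 1 :=
  div_self (pow_ne_zero 3 h)

private theorem EXTb_mo {F : Type} [Field F] (a : F) : a * 1 = a := mul_one a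

private theorem EXTb_mz {F : Type} [Field F] (a : F) : a * 0 = 0 := mul_zero a

private theorem EXTb_ne1 {F : Type} [Field F] {a : F} (h1 : a = 1) (h0 : a = 0) : False :=
  one_ne_zero (h1.symm.trans h0)

private theorem EXTb_fld {F : Type} [Field F] {D y e a b : F} (h : y ≠ 0) (h1 : e = D / y ^ 3)
    (h2 : e * b = a) : D * b = y ^ 3 * a := by
  rw [← h2, h1]
  field_simp

/-- The embedding and the Jacobian functional of a chart. -/
private theorem EXTb_chart {k : ℕ} (z : Fin (k + 1) → FunField P) (hz : IsTranscendenceBasis ℂ z)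
    {t : Fin 3 → Fin (N + 1)} (ht : X (t 0) ∉ P) {x : Fin (N + 1) → ℂ} {σ : ℂ × ℂ → Fin (N + 1) → ℂ}
    (h : CChart P x t σ) :
    ∃ (E : FunField P →+* LL) (J : Form (FunField P) 2 →+ LL),
      (∀ (g : FunField P) (η : Form (FunField P) 2), J (g • η) = E g * J η) ∧
      (∀ (d : ℕ) (A B : MvPolynomial (Fin (N + 1)) ℂ) (f : FunField P), A.IsHomogeneous d →
        B.IsHomogeneous d →
        (∀ l, X l ∉ P → f * aeval (fun i => ratio P i l) B = aeval (fun i => ratio P i l) A) →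
        E f * emb (t2 fun u => eval (σ u) B) = emb (t2 fun u => eval (σ u) A)) ∧
      (∀ s : Fin 3 → Fin (N + 1), X (s 0) ∉ P →
        J (Form.mk 1 ![ratio P (s 1) (s 0), ratio P (s 2) (s 0)]) =
          emb (t2 fun u => D3 s (σ u) (d1 σ u) (d2 σ u)) / emb (t2 fun u => σ u (s 0)) ^ 3) ∧
      J (Form.mk 1 ![ratio P (t 1) (t 0), ratio P (t 2) (t 0)]) = 1 := by
  obtain ⟨E, hE, -, hrep, hjac⟩ := exists_embedding P z hz h.an h.mem h.nd
  have hX : ∀ c : ℂ, DX (E (algebraMap ℂ (FunField P) c)) = 0 := fun c => by rw [hE]; exact DX_cst c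
  have hT : ∀ c : ℂ, DT (E (algebraMap ℂ (FunField P) c)) = 0 := fun c => by rw [hE]; exact DT_cst c
  obtain ⟨J, hJs, hJm⟩ := exists_jac (F := LL) E DX DT (fun a b => DX_mul a b)
    (fun a b => DT_mul a b) hX hT
  have hJ : ∀ s : Fin 3 → Fin (N + 1), X (s 0) ∉ P →
      J (Form.mk 1 ![ratio P (s 1) (s 0), ratio P (s 2) (s 0)]) =
        emb (t2 fun u => D3 s (σ u) (d1 σ u) (d2 σ u)) / emb (t2 fun u => σ u (s 0)) ^ 3 := by
    intro s hs
    refine (hJm 1 _).trans ?_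
    rw [map_one]
    exact (one_mul _).trans (hjac s hs)
  refine ⟨E, J, hJs, hrep, hJ, ?_⟩
  have h1 : t2 (fun u => D3 t (σ u) (d1 σ u) (d2 σ u)) = t2 (fun _ => x (t 0) ^ 3) :=
    t2_congr h.D3_eq
  have h2 : t2 (fun u => σ u (t 0)) = t2 (fun _ => x (t 0)) := t2_congr h.c0
  have h3 : (cst (x (t 0)) : LL) ≠ 0 := by
    have h4 := EXTb_ne P h ht
    rw [h2, t2_const, emb_C_C] at h4
    exact h4
  rw [hJ t ht, h1, h2, t2_const, t2_const, emb_C_C, emb_C_C, map_pow]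
  exact EXTb_one (F := LL) h3

theorem exists_jacobian {k : ℕ} (z : Fin (k + 1) → FunField P) (hz : IsTranscendenceBasis ℂ z)
    {t₀ t : Fin 3 → Fin (N + 1)} (ht₀ : X (t₀ 0) ∉ P) (ht : X (t 0) ∉ P)
    (hb₀ : IsTranscendenceBasis ℂ ![ratio P (t₀ 1) (t₀ 0), ratio P (t₀ 2) (t₀ 0)])
    (hb : IsTranscendenceBasis ℂ ![ratio P (t 1) (t 0), ratio P (t 2) (t 0)]) :
    ∃ (e : ℕ) (A B : MvPolynomial (Fin (N + 1)) ℂ), A.IsHomogeneous e ∧ B.IsHomogeneous e ∧
      B ∉ P ∧ ∀ (x : Fin (N + 1) → ℂ) (σ : ℂ × ℂ → Fin (N + 1) → ℂ), CChart P x t σ →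
        A ∉ P ∧ D3 t₀ x (d1 σ 0) (d2 σ 0) * eval x B = x (t₀ 0) ^ 3 * eval x A := by
  obtain ⟨f, hf⟩ := exists_form_mk hb
    (Form.mk 1 ![ratio P (t₀ 1) (t₀ 0), ratio P (t₀ 2) (t₀ 0)])
  obtain ⟨e, A, B, hA, hB, hBP, hfA, hrep⟩ := exists_hom_rep P z hz f
  refine ⟨e, A, B, hA, hB, hBP, fun x σ h => ?_⟩
  obtain ⟨E, J, hJs, hE, hJ, hJt⟩ := EXTb_chart P z hz ht h
  have hf1 : J (Form.mk 1 ![ratio P (t₀ 1) (t₀ 0), ratio P (t₀ 2) (t₀ 0)]) = E f := by
    rw [hf, EXTb_mk_smul, hJs, hJt]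
    exact EXTb_mo (F := LL) (E f)
  have hf0 : f ≠ 0 := by
    intro h0
    obtain ⟨W, hW⟩ := exists_form_mk hb₀ (Form.mk 1 ![ratio P (t 1) (t 0), ratio P (t 2) (t 0)])
    have h1 : J (Form.mk 1 ![ratio P (t 1) (t 0), ratio P (t 2) (t 0)]) = 0 := by
      rw [hW, EXTb_mk_smul, hJs, hf1, h0, map_zero]
      exact EXTb_mz (F := LL) (E W)
    exact EXTb_ne1 (F := LL) hJt h1
  refine ⟨hfA hf0, ?_⟩
  have hy := EXTb_ne P h ht₀
  have h1 := hE e A B f hA hB hrep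
  have h2 := hJ t₀ ht₀
  rw [hf1] at h2
  have h1' := EXTb_fld (F := LL) hy h2 h1
  have hD := analyticAt_D3 t₀ h.an
  have hsa := EXTb_apply h.an (t₀ 0)
  have hs3 : AnalyticAt ℂ (fun u => σ u (t₀ 0) ^ 3) 0 := hsa.pow 3
  have hAa := analyticAt_eval h.an A
  have hBa := analyticAt_eval h.an B
  have h3 : t2 (fun u => D3 t₀ (σ u) (d1 σ u) (d2 σ u) * eval (σ u) B) =
      t2 (fun u => σ u (t₀ 0) ^ 3 * eval (σ u) A) := by
    apply emb_injective
    rw [t2_mul hD hBa, t2_mul hs3 hAa, t2_pow hsa, map_mul, map_mul, map_pow]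
    exact h1'
  have h4 := EXTb_sub (hD.mul hBa) (hs3.mul hAa) h3
  simp only [Pi.mul_apply, h.zero] at h4
  exact h4

/-- The coordinate ratios of a chart are a transcendence basis. -/
theorem CChart.isTranscendenceBasis {z : Fin 2 → FunField P} (hz : IsTranscendenceBasis ℂ z)
    {x : Fin (N + 1) → ℂ} {t : Fin 3 → Fin (N + 1)} {σ : ℂ × ℂ → Fin (N + 1) → ℂ}
    (h : CChart P x t σ) : X (t 0) ∉ P ∧
      IsTranscendenceBasis ℂ ![ratio P (t 1) (t 0), ratio P (t 2) (t 0)] := by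
  have hxP : ∀ Q ∈ P, eval x Q = 0 := by
    have h1 := h.mem.self_of_nhds
    rw [h.zero] at h1
    exact h1
  have ht : X (t 0) ∉ P := by
    intro h1
    have h2 := hxP _ h1
    rw [eval_X] at h2
    exact h.ne h2
  refine ⟨ht, ?_⟩
  have hind : AlgebraicIndependent ℂ ![ratio P (t 1) (t 0), ratio P (t 2) (t 0)] := by
    rw [algebraicIndependent_iff]
    intro p hp
    let G : MvPolynomial (Fin (N + 1)) ℂ := aeval ![X (t 1), X (t 2)] p
    have hG : aeval (fun i => ratio P i (t 0)) G = 0 := by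
      have h1 := comp_aeval_apply (f := ![X (t 1), X (t 2)])
        (aeval (fun i => ratio P i (t 0)) : MvPolynomial (Fin (N + 1)) ℂ →ₐ[ℂ] FunField P) p
      refine h1.trans ?_
      rw [← hp]
      congr 2
      funext i
      fin_cases i
      · simp
      · simp
    have hev : ∀ y : Fin (N + 1) → ℂ, eval y G = eval ![y (t 1), y (t 2)] p := by
      intro y
      have h1 := comp_aeval_apply (f := ![X (t 1), X (t 2)])
        (aeval y : MvPolynomial (Fin (N + 1)) ℂ →ₐ[ℂ] ℂ) p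
      have h2 : eval y G = aeval y G := rfl
      have h3 : eval ![y (t 1), y (t 2)] p = aeval ![y (t 1), y (t 2)] p := rfl
      rw [h2, h3]
      refine h1.trans ?_
      congr 2
      funext i
      fin_cases i
      · simp
      · simp
    have hnear : ∀ᶠ u in 𝓝 (0 : ℂ × ℂ),
        eval ![x (t 1) / x (t 0) + u.1, x (t 2) / x (t 0) + u.2] p = 0 := by
      filter_upwards [h.mem, h.c0, h.c1, h.c2] with u hm h0 h1 h2
      have h3 : σ u (t 0) ≠ 0 := by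
        rw [h0]
        exact h.ne
      have h4 := eval_eq_zero_of_relation P (k := 1) z hz ht hG hm h3
      rw [hev, h0, h1, h2, add_div, add_div, mul_div_cancel_left₀ _ h.ne,
        mul_div_cancel_left₀ _ h.ne] at h4
      exact h4
    obtain ⟨r, hr, hball⟩ := Metric.eventually_nhds_iff_ball.1 hnear
    refine funext_set (fun i : Fin 2 => Metric.ball (![x (t 1) / x (t 0), x (t 2) / x (t 0)] i) r)
      (fun i => ?_) (fun v hv => ?_)
    · exact infinite_of_mem_nhds _ (Metric.ball_mem_nhds _ hr)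
    · have hv0 := hv 0 (Set.mem_univ _)
      have hv1 := hv 1 (Set.mem_univ _)
      have h1 := hball (v 0 - x (t 1) / x (t 0), v 1 - x (t 2) / x (t 0)) (by
        rw [mem_ball_zero_iff, Prod.norm_def, max_lt_iff]
        exact ⟨by simpa [dist_eq_norm] using hv0, by simpa [dist_eq_norm] using hv1⟩)
      rw [map_zero]
      refine Eq.trans ?_ h1
      congr 2
      funext i
      fin_cases i
      · simp
      · simp
  refine hind.isTranscendenceBasis_of_trdeg_le_of_finite ?_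
  rw [← hz.cardinalMk_eq_trdeg]

end Pool.Agent.H68.KR

end
end

section

/-!
# KR ExtG: poles of the canonical form pulled back by an arbitrary map

`H₀` is a form, `{H₀ = 0}` the boundary.  The section of `M (K + D) - H` pulled back by an arbitrary holomorphic map `φ` from `ℂ²` to the cone becomes
holomorphic when it is multiplied by `M` functions which vanish on the preimage of the boundary.
-/

set_option autoImplicit false

open MvPolynomial Topology Filter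
open Pool.Agent.H23.Fano (Form regularForms PrimeDivisorOver)
open Pool.Agent.H17LG.Variety (FunField ratio PoleAtMost OnBoundary)

noncomputable section

namespace Pool.Agent.H68.KR

section open_map

/-- A holomorphic map of the plane is open where its Jacobian does not vanish. -/
theorem map_nhds_of_jac {κ : ℂ × ℂ → ℂ × ℂ} {p : ℂ × ℂ} (hκ : AnalyticAt ℂ κ p) (hJ : jac κ p ≠ 0) :
    Filter.map κ (𝓝 p) = 𝓝 (κ p) := by
  have h1 := hκ.hasStrictFDerivAt
  refine h1.map_nhds_eq_of_surj ?_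
  have e1 : dx (fun v => (κ v).1) p = (fderiv ℂ κ p (1, 0)).1 := by
    have h2 : HasFDerivAt (fun v => (κ v).1) ((ContinuousLinearMap.fst ℂ ℂ ℂ).comp (fderiv ℂ κ p)) p :=
      hκ.differentiableAt.hasFDerivAt.fst
    simp only [dx]
    rw [h2.fderiv]
    rfl
  have e2 : dy (fun v => (κ v).1) p = (fderiv ℂ κ p (0, 1)).1 := by
    have h2 : HasFDerivAt (fun v => (κ v).1) ((ContinuousLinearMap.fst ℂ ℂ ℂ).comp (fderiv ℂ κ p)) p :=
      hκ.differentiableAt.hasFDerivAt.fst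
    simp only [dy]
    rw [h2.fderiv]
    rfl
  have e3 : dx (fun v => (κ v).2) p = (fderiv ℂ κ p (1, 0)).2 := by
    have h2 : HasFDerivAt (fun v => (κ v).2) ((ContinuousLinearMap.snd ℂ ℂ ℂ).comp (fderiv ℂ κ p)) p :=
      hκ.differentiableAt.hasFDerivAt.snd
    simp only [dx]
    rw [h2.fderiv]
    rfl
  have e4 : dy (fun v => (κ v).2) p = (fderiv ℂ κ p (0, 1)).2 := by
    have h2 : HasFDerivAt (fun v => (κ v).2) ((ContinuousLinearMap.snd ℂ ℂ ℂ).comp (fderiv ℂ κ p)) p :=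
      hκ.differentiableAt.hasFDerivAt.snd
    simp only [dy]
    rw [h2.fderiv]
    rfl
  unfold jac at hJ
  rw [e1, e2, e3, e4] at hJ
  rw [LinearMap.range_eq_top]
  rintro ⟨v, w⟩
  set a := (fderiv ℂ κ p (1, 0)).1 with ha
  set b := (fderiv ℂ κ p (0, 1)).1 with hb
  set c := (fderiv ℂ κ p (1, 0)).2 with hc
  set d := (fderiv ℂ κ p (0, 1)).2 with hd
  refine ⟨((d * v - b * w) / (a * d - b * c), (a * w - c * v) / (a * d - b * c)), ?_⟩
  have h3 : (((d * v - b * w) / (a * d - b * c), (a * w - c * v) / (a * d - b * c)) : ℂ × ℂ) =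
      ((d * v - b * w) / (a * d - b * c)) • ((1 : ℂ), (0 : ℂ)) +
        ((a * w - c * v) / (a * d - b * c)) • ((0 : ℂ), (1 : ℂ)) := by
    ext <;> simp
  rw [h3]
  simp only [ContinuousLinearMap.coe_coe, map_add, map_smul]
  ext
  · simp only [Prod.fst_add, Prod.smul_fst, smul_eq_mul, ← ha, ← hb]
    rw [div_mul_eq_mul_div, div_mul_eq_mul_div, ← add_div, div_eq_iff hJ]
    ring
  · simp only [Prod.snd_add, Prod.smul_snd, smul_eq_mul, ← hc, ← hd]
    rw [div_mul_eq_mul_div, div_mul_eq_mul_div, ← add_div, div_eq_iff hJ]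
    ring

end open_map

variable {N : ℕ} (P : Ideal (MvPolynomial (Fin (N + 1)) ℂ)) [P.IsPrime]

omit [P.IsPrime] in
/-- A map of rank three into the cone is not contained in a hypersurface. -/
theorem nd_of_D3 (hsm : ∀ x ∈ cone P, ∃ t σ, CChart P x t σ) {s : Fin 3 → Fin (N + 1)}
    {φ : ℂ × ℂ → Fin (N + 1) → ℂ} {p : ℂ × ℂ} (hφ : AnalyticAt ℂ φ p) (hφX : ∀ᶠ u in 𝓝 p, φ u ∈ cone P)
    (hD : ¬ ∀ᶠ u in 𝓝 p, D3 s (φ u) (d1 φ u) (d2 φ u) = 0) (d : ℕ) (Q : MvPolynomial (Fin (N + 1)) ℂ)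
    (hQ : Q.IsHomogeneous d) (hQP : Q ∉ P) : ¬ ∀ᶠ u in 𝓝 p, eval (φ u) Q = 0 := by
  intro hQ0
  obtain ⟨t, σ, hch⟩ := hsm _ hφX.self_of_nhds
  obtain ⟨κ, c, hκ, hc, hκ0, hc1, he⟩ := hch.param hφ rfl (hφX.mono fun u hu => hu.2)
  have hσ : AnalyticAt ℂ σ (κ p) := by
    rw [hκ0]
    exact hch.an
  have h1 := D3_comp s hc hκ hσ he
  have hκt : Tendsto κ (𝓝 p) (𝓝 0) := by
    have := hκ.continuousAt.tendsto
    rwa [hκ0] at this
  have hc0 : ∀ᶠ u in 𝓝 p, c u ≠ 0 := hc.continuousAt.eventually_ne (by rw [hc1]; exact one_ne_zero)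
  apply hD
  filter_upwards [h1, hκ.eventually_analyticAt, he.eventually_nhds, hc0.eventually_nhds, hQ0.eventually_nhds,
    hκt.eventually hch.nd_near] with u a1 a2 a3 a4 a5 a6
  rw [a1]
  have hj : jac κ u = 0 := by
    by_contra hj
    apply a6 d Q hQ hQP
    rw [← map_nhds_of_jac a2 hj]
    change ∀ᶠ u' in 𝓝 u, eval (σ (κ u')) Q = 0
    filter_upwards [a3, a4, a5] with u' b1 b2 b3
    rw [b1] at b3
    have h : eval (c u' • σ (κ u')) Q = c u' ^ d * eval (σ (κ u')) Q :=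
      eval₂_of_isHomogeneous (RingHom.id ℂ) hQ (c u') (σ (κ u'))
    rw [h] at b3
    exact (mul_eq_zero.1 b3).resolve_left (pow_ne_zero _ b2)
  rw [hj, mul_zero, zero_mul]

private theorem ExtG_an_snd {c : ℂ → ℂ} (hc : AnalyticAt ℂ c 0) :
    AnalyticAt ℂ (fun u : ℂ × ℂ => c u.1 + u.2) 0 := by
  have h1 : AnalyticAt ℂ (fun u : ℂ × ℂ => u.1) 0 := analyticAt_fst
  have h2 : AnalyticAt ℂ (fun u : ℂ × ℂ => c u.1) 0 :=
    AnalyticAt.fun_comp (g := c) (f := fun u : ℂ × ℂ => u.1) hc h1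
  exact h2.add analyticAt_snd

private theorem ExtG_an_shear {m x₁ : ℂ} {c : ℂ → ℂ} (hc : AnalyticAt ℂ c 0) :
    AnalyticAt ℂ (shear m x₁ c) 0 := by
  have h2 := ExtG_an_snd hc
  have h1 : AnalyticAt ℂ (fun u : ℂ × ℂ => x₁ + u.1 + m * (c u.1 + u.2)) 0 :=
    (analyticAt_const.add analyticAt_fst).add (analyticAt_const.mul h2)
  exact h1.prod h2

private theorem ExtG_jac_shear {m x₁ : ℂ} {c : ℂ → ℂ} {u : ℂ × ℂ}
    (hc : DifferentiableAt ℂ c u.1) : jac (shear m x₁ c) u = 1 := by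
  have h2 : HasFDerivAt (fun v : ℂ × ℂ => c v.1 + v.2)
      (deriv c u.1 • ContinuousLinearMap.fst ℂ ℂ ℂ + ContinuousLinearMap.snd ℂ ℂ ℂ) u := by
    exact (hc.hasDerivAt.comp_hasFDerivAt u hasFDerivAt_fst).add hasFDerivAt_snd
  have h1 : HasFDerivAt (fun v : ℂ × ℂ => x₁ + v.1 + m * (c v.1 + v.2))
      (ContinuousLinearMap.fst ℂ ℂ ℂ + m • (deriv c u.1 • ContinuousLinearMap.fst ℂ ℂ ℂ +
        ContinuousLinearMap.snd ℂ ℂ ℂ)) u := by
    exact (hasFDerivAt_fst.const_add x₁).add (h2.const_mul m)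
  simp only [jac, shear, dx, dy]
  rw [h1.fderiv, h2.fderiv]
  simp

/-- Non-degeneracy is preserved by the shear. -/
private theorem ExtG_nd {m x₁ : ℂ} {c : ℂ → ℂ} (hc : AnalyticAt ℂ c 0) {g : ℂ × ℂ → ℂ}
    (hg : ∀ᶠ u in 𝓝 (0 : ℂ × ℂ), g (shear m x₁ c u) = 0) :
    ∀ᶠ v in 𝓝 (shear m x₁ c 0), g v = 0 := by
  have h0 : (shear m x₁ c 0).1 - m * (shear m x₁ c 0).2 - x₁ = 0 := by
    simp only [shear, Prod.fst_zero, Prod.snd_zero]
    ring
  have hcont : ContinuousAt (fun v : ℂ × ℂ => ((v.1 - m * v.2 - x₁, v.2 - c (v.1 - m * v.2 - x₁)) : ℂ × ℂ))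
      (shear m x₁ c 0) := by
    have ha : ContinuousAt (fun v : ℂ × ℂ => v.1 - m * v.2 - x₁) (shear m x₁ c 0) := by
      fun_prop
    have hb : ContinuousAt (fun v : ℂ × ℂ => c (v.1 - m * v.2 - x₁)) (shear m x₁ c 0) :=
      ContinuousAt.comp' (f := fun v : ℂ × ℂ => v.1 - m * v.2 - x₁) (g := c)
        (by rw [h0]; exact hc.continuousAt) ha
    exact ha.prodMk (continuousAt_snd.sub hb)
  have heta : ((fun v : ℂ × ℂ => ((v.1 - m * v.2 - x₁, v.2 - c (v.1 - m * v.2 - x₁)) : ℂ × ℂ))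
      (shear m x₁ c 0)) = 0 := by
    simp only [h0]
    simp [shear]
  have h1 : ∀ᶠ v in 𝓝 (shear m x₁ c 0), g (shear m x₁ c
      ((fun v : ℂ × ℂ => ((v.1 - m * v.2 - x₁, v.2 - c (v.1 - m * v.2 - x₁)) : ℂ × ℂ)) v)) = 0 := by
    have h3 := hcont.tendsto
    have h4 : (((shear m x₁ c 0).1 - m * (shear m x₁ c 0).2 - x₁,
        (shear m x₁ c 0).2 - c ((shear m x₁ c 0).1 - m * (shear m x₁ c 0).2 - x₁)) : ℂ × ℂ) = 0 := heta
    rw [h4] at h3
    exact h3.eventually hg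
  refine h1.mono fun v hv => ?_
  have h2 : shear m x₁ c (v.1 - m * v.2 - x₁, v.2 - c (v.1 - m * v.2 - x₁)) = v := by
    simp only [shear]
    ext
    · simp only
      ring
    · simp only
      ring
  simpa only [h2] using hv

private theorem ExtG_alg {F : Type} [Field F] (EH EW e1 e2 y0 yo yl : F) (h0 : y0 ≠ 0)
    (ho : yo ≠ 0) (M : ℕ) :
    EH * (yl / yo) * (EW * (e1 / y0 ^ 3)) ^ M * (e2 * y0 ^ (3 * M + 1)) =
      yl * (EH * (y0 / yo) * EW ^ M * e2 * e1 ^ M) := by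
  have h1 : (y0 ^ 3) ^ M ≠ 0 := pow_ne_zero _ (pow_ne_zero _ h0)
  have h2 : y0 ^ (3 * M + 1) = (y0 ^ 3) ^ M * y0 := by rw [pow_succ, pow_mul]
  rw [mul_pow, div_pow, h2]
  field_simp

private theorem ExtG_prod_an (θ : ℂ × ℂ → ℂ × ℂ) (G : List (ℂ × ℂ → ℂ)) (hG : ∀ g ∈ G, AnalyticAt ℂ (fun u => g (θ u)) 0) :
    AnalyticAt ℂ (fun u => (G.map fun g => g (θ u)).prod) 0 := by
  induction G with
  | nil =>
    simp only [List.map_nil, List.prod_nil]
    exact analyticAt_const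
  | cons g G ih =>
    simp only [List.map_cons, List.prod_cons]
    exact (hG g List.mem_cons_self).mul (ih fun g' hg' => hG g' (List.mem_cons_of_mem _ hg'))

/-- An element of `ℂ⟦X⟧⟦T⟧` without constant coefficient has order at least one. -/
private theorem ExtG_one_le {F : PowerSeries (PowerSeries ℂ)} (hF : PowerSeries.coeff 0 F = 0) :
    (((1 : ℕ) : ℤ) : WithTop ℤ) ≤ vT (emb F) := by
  rw [PowerSeries.coeff_zero_eq_constantCoeff_apply] at hF
  obtain ⟨F', rfl⟩ := PowerSeries.X_dvd_iff.2 hF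
  have h1 : vT (emb (PowerSeries.X : PowerSeries (PowerSeries ℂ))) = ((1 : ℕ) : ℤ) :=
    vT_emb (by rw [PowerSeries.order_X]; rfl)
  rw [map_mul, AddValuation.map_mul, h1]
  exact le_add_of_nonneg_right (vT_emb_nonneg F')

/-- The order of the product of the functions in `G`. -/
private theorem ExtG_vprod (θ : ℂ × ℂ → ℂ × ℂ) (G : List (ℂ × ℂ → ℂ))
    (hG : ∀ g ∈ G, AnalyticAt ℂ (fun u => g (θ u)) 0)
    (hG0 : ∀ g ∈ G, PowerSeries.coeff 0 (t2 fun u => g (θ u)) = 0) :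
    (((G.length : ℕ) : ℤ) : WithTop ℤ) ≤ vT (emb (t2 fun u => (G.map fun g => g (θ u)).prod)) := by
  induction G with
  | nil =>
    exact vT_emb_nonneg _
  | cons g G ih =>
    have h1 := ih (fun g' hg' => hG g' (List.mem_cons_of_mem _ hg')) (fun g' hg' => hG0 g' (List.mem_cons_of_mem _ hg'))
    have h2 := ExtG_one_le (hG0 g List.mem_cons_self)
    have h3 : t2 (fun u => ((g :: G).map fun g => g (θ u)).prod) =
        t2 (fun u => g (θ u)) * t2 (fun u => (G.map fun g => g (θ u)).prod) := by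
      rw [← t2_mul (hG g List.mem_cons_self) (ExtG_prod_an θ G fun g' hg' => hG g' (List.mem_cons_of_mem _ hg'))]
      simp only [List.map_cons, List.prod_cons]
    rw [h3, map_mul, AddValuation.map_mul, List.length_cons]
    have h4 : (((G.length + 1 : ℕ) : ℤ) : WithTop ℤ) = (((1 : ℕ) : ℤ) : WithTop ℤ) + (((G.length : ℕ) : ℤ) : WithTop ℤ) := by
      rw [← WithTop.coe_add]
      congr 1
      push_cast
      ring
    rw [h4]
    exact add_le_add h2 h1

/-- Change of the affine chart for a homogeneous polynomial. -/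
private theorem ExtG_hom {k : ℕ} (z : Fin (k + 1) → FunField P) (hz : IsTranscendenceBasis ℂ z)
    {l l' : Fin (N + 1)} (hl : Pool.Agent.H17GT.coordFun P l ≠ 0)
    (hl' : Pool.Agent.H17GT.coordFun P l' ≠ 0) {e : ℕ}
    {Q : MvPolynomial (Fin (N + 1)) ℂ} (hQ : Q.IsHomogeneous e) :
    aeval (fun i => ratio P i l') Q = ratio P l l' ^ e * aeval (fun i => ratio P i l) Q ∧
      ratio P l l' * ratio P l' l = 1 := by
  obtain ⟨x, hx0, hgen, -, hxP, hxc, hxr⟩ := exists_point P z hz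
  have hxl : x l ≠ 0 := fun h0 => hl ((hxc l).1 h0)
  have hxl' : x l' ≠ 0 := fun h0 => hl' ((hxc l').1 h0)
  have key : ∀ j, x j ≠ 0 → aeval (fun i => ratio P i j) Q = (x j)⁻¹ ^ e * aeval x Q := by
    intro j hj
    have h1 : (fun i => ratio P i j) = fun i => (x j)⁻¹ * x i := by
      funext i
      rw [← hxr, div_eq_inv_mul]
    rw [h1, aeval_def, aeval_def, eval₂_of_isHomogeneous _ hQ]
  refine ⟨?_, ?_⟩
  · rw [key l' hxl', key l hxl, ← hxr l l', div_pow]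
    have h1 := pow_ne_zero e hxl
    have h2 := pow_ne_zero e hxl'
    rw [inv_pow, inv_pow]
    field_simp
  · rw [← hxr, ← hxr]
    field_simp

private theorem ExtG_div_ne {F : Type} [Field F] {a b : F} (ha : a ≠ 0) (hb : b ≠ 0) : a / b ^ 3 ≠ 0 :=
  div_ne_zero ha (pow_ne_zero _ hb)

private theorem ExtG_divmul {F : Type} [Field F] (a : F) {b : F} (hb : b ≠ 0) : a / b * b = a :=
  div_mul_cancel₀ a hb

/-- The zero set of an analytic function which does not vanish near `0` contains no open set near `0`. -/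
private theorem ExtG_ident {f : ℂ × ℂ → ℂ} (hf : AnalyticAt ℂ f 0) (h0 : ¬ ∀ᶠ u in 𝓝 (0 : ℂ × ℂ), f u = 0) :
    ∀ᶠ p in 𝓝 (0 : ℂ × ℂ), ¬ ∀ᶠ u in 𝓝 p, f u = 0 := by
  obtain ⟨r, hr, hB⟩ := Metric.eventually_nhds_iff_ball.1 hf.eventually_analyticAt
  filter_upwards [Metric.ball_mem_nhds (0 : ℂ × ℂ) hr] with p hp hcon
  have h1 : AnalyticOnNhd ℂ f (Metric.ball (0 : ℂ × ℂ) r) := fun u hu => hB u hu
  have h2 := h1.eqOn_zero_of_preconnected_of_eventuallyEq_zero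
    (convex_ball (0 : ℂ × ℂ) r).isPreconnected hp hcon
  refine h0 ?_
  filter_upwards [Metric.ball_mem_nhds (0 : ℂ × ℂ) hr] with u hu
  exact h2 hu

theorem exists_extG (z : Fin 2 → FunField P) (hz : IsTranscendenceBasis ℂ z)
    (hsm : ∀ x ∈ cone P, ∃ t σ, CChart P x t σ)
    {t₀ : Fin 3 → Fin (N + 1)} (ht₀ : X (t₀ 0) ∉ P) {o : Fin (N + 1)} (ho : X o ∉ P) {M : ℕ} (hM : 1 ≤ M)
    {e : ℕ} {H₀ : MvPolynomial (Fin (N + 1)) ℂ} (hH₀ : H₀.IsHomogeneous e)
    {H W : FunField P}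
    (hpole : ∀ l, X l ∉ P → ∀ D : PrimeDivisorOver (FunField P) 2,
      (¬ OnBoundary P (fun _ : Fin 1 => H₀) D → PoleAtMost 0 D M (H * ratio P l o)
        (Form.mk W ![ratio P (t₀ 1) (t₀ 0), ratio P (t₀ 2) (t₀ 0)])) ∧
      (OnBoundary P (fun _ : Fin 1 => H₀) D → PoleAtMost M D M (H * ratio P l o)
        (Form.mk W ![ratio P (t₀ 1) (t₀ 0), ratio P (t₀ 2) (t₀ 0)])))
    {d : ℕ} {A B : MvPolynomial (Fin (N + 1)) ℂ} (hA : A.IsHomogeneous d) (hB : B.IsHomogeneous d)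
    (hBP : B ∉ P)
    (hrep : ∀ l, X l ∉ P → (H * ratio P (t₀ 0) o * W ^ M) * aeval (fun i => ratio P i l) B =
      aeval (fun i => ratio P i l) A)
    {φ : ℂ × ℂ → Fin (N + 1) → ℂ} (hφ : AnalyticAt ℂ φ 0) (hφX : ∀ᶠ u in 𝓝 (0 : ℂ × ℂ), φ u ∈ cone P)
    (G : List (ℂ × ℂ → ℂ)) (hG : G.length = M)
    (hGan : ∀ g ∈ G, AnalyticAt ℂ g 0) (hG0 : ∀ g ∈ G, ∀ᶠ u in 𝓝 (0 : ℂ × ℂ), eval (φ u) H₀ = 0 → g u = 0) :
    ∃ Φ : ℂ × ℂ → ℂ, AnalyticAt ℂ Φ 0 ∧ ∀ᶠ u in 𝓝 (0 : ℂ × ℂ),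
      eval (φ u) (B * X (t₀ 0) ^ (3 * M + 1)) * Φ u =
        (G.map fun g => g u).prod * (eval (φ u) A * D3 t₀ (φ u) (d1 φ u) (d2 φ u) ^ M) := by
  classical
  by_cases hD0 : ∀ᶠ u in 𝓝 (0 : ℂ × ℂ), D3 t₀ (φ u) (d1 φ u) (d2 φ u) = 0
  · refine ⟨fun _ => 0, analyticAt_const, ?_⟩
    filter_upwards [hD0] with u hu
    rw [hu, zero_pow (by omega), mul_zero, mul_zero, mul_zero]
  by_contra hne
  have hBX : (B * X (t₀ 0) ^ (3 * M + 1)).IsHomogeneous (d + (3 * M + 1)) :=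
    hB.mul (isHomogeneous_X_pow _ _)
  have hBXP : B * X (t₀ 0) ^ (3 * M + 1) ∉ P := by
    intro hmem
    rcases (inferInstance : P.IsPrime).mem_or_mem hmem with h1 | h1
    · exact hBP h1
    · exact ht₀ ((inferInstance : P.IsPrime).mem_of_pow_mem _ h1)
  have hA'an : AnalyticAt ℂ
      (fun u => eval (φ u) A * D3 t₀ (φ u) (d1 φ u) (d2 φ u) ^ M) 0 :=
    (analyticAt_eval hφ A).mul ((analyticAt_D3 t₀ hφ).pow M)
  have hPan : AnalyticAt ℂ (fun u => (G.map fun g => g u).prod) 0 := ExtG_prod_an (fun u => u) G hGan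
  have hA''an : AnalyticAt ℂ
      (fun u => (G.map fun g => g u).prod * (eval (φ u) A * D3 t₀ (φ u) (d1 φ u) (d2 φ u) ^ M)) 0 :=
    hPan.mul hA'an
  have hB'an : AnalyticAt ℂ (fun u => eval (φ u) (B * X (t₀ 0) ^ (3 * M + 1))) 0 :=
    analyticAt_eval hφ _
  have hB'0 : ¬ ∀ᶠ u in 𝓝 (0 : ℂ × ℂ), eval (φ u) (B * X (t₀ 0) ^ (3 * M + 1)) = 0 :=
    nd_of_D3 P hsm hφ hφX hD0 _ _ hBX hBXP
  have hne' : ¬ ∃ Φ : ℂ × ℂ → ℂ, AnalyticAt ℂ Φ 0 ∧ ∀ᶠ u in 𝓝 (0 : ℂ × ℂ),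
      (fun u => (G.map fun g => g u).prod * (eval (φ u) A * D3 t₀ (φ u) (d1 φ u) (d2 φ u) ^ M)) u =
        (fun u => eval (φ u) (B * X (t₀ 0) ^ (3 * M + 1))) u * Φ u := by
    rintro ⟨Φ, hΦ, hΦ'⟩
    exact hne ⟨Φ, hΦ, hΦ'.mono fun u hu => hu.symm⟩
  have hGa : ∀ᶠ p in 𝓝 (0 : ℂ × ℂ), ∀ g ∈ G, AnalyticAt ℂ g p :=
    (Filter.eventually_all_finite (List.finite_toSet G)).2 fun g hg => (hGan g hg).eventually_analyticAt
  have hGb : ∀ᶠ p in 𝓝 (0 : ℂ × ℂ), ∀ g ∈ G, ∀ᶠ u in 𝓝 p, eval (φ u) H₀ = 0 → g u = 0 :=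
    (Filter.eventually_all_finite (List.finite_toSet G)).2 fun g hg => (hG0 g hg).eventually_nhds
  -- a coordinate which does not vanish
  obtain ⟨l, hl0⟩ : ∃ l, φ 0 l ≠ 0 := by
    by_contra h
    push Not at h
    exact hφX.self_of_nhds.1 (funext h)
  have hl : X l ∉ P := by
    intro hmem0
    have h1 := hφX.self_of_nhds.2 (X l) hmem0
    rw [eval_X] at h1
    exact hl0 h1
  have hφl : AnalyticAt ℂ (fun u => φ u l) 0 := by
    have h1 := analyticAt_eval hφ (X l)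
    simpa only [eval_X] using h1
  have hU : {p : ℂ × ℂ | AnalyticAt ℂ φ p ∧ (∀ᶠ u in 𝓝 p, φ u ∈ cone P) ∧
      (¬ ∀ᶠ u in 𝓝 p, D3 t₀ (φ u) (d1 φ u) (d2 φ u) = 0) ∧ φ p l ≠ 0 ∧ (∀ g ∈ G, AnalyticAt ℂ g p) ∧
      (∀ g ∈ G, ∀ᶠ u in 𝓝 p, eval (φ u) H₀ = 0 → g u = 0)} ∈ 𝓝 (0 : ℂ × ℂ) :=
    hφ.eventually_analyticAt.and (hφX.eventually_nhds.and
      ((ExtG_ident (analyticAt_D3 t₀ hφ) hD0).and ((hφl.continuousAt.eventually_ne hl0).and (hGa.and hGb))))
  obtain ⟨m, x₁, c, j, k', hc, ⟨hσ, hmem, hDp, hlp, hGan', hG0'⟩, hordA, hordB, hjk⟩ :=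
    exists_curve hA''an hB'an hB'0 hne' hU
  have hθ : AnalyticAt ℂ (shear m x₁ c) 0 := ExtG_an_shear hc
  have hψ : AnalyticAt ℂ (fun u => φ (shear m x₁ c u)) 0 :=
    AnalyticAt.fun_comp (g := φ) (f := shear m x₁ c) hσ hθ
  have hmemψ : ∀ᶠ u in 𝓝 (0 : ℂ × ℂ), ∀ Q ∈ P, eval (φ (shear m x₁ c u)) Q = 0 :=
    hθ.continuousAt.eventually (hmem.mono fun u hu => hu.2)
  have hndψ : ∀ (d : ℕ) (Q : MvPolynomial (Fin (N + 1)) ℂ), Q.IsHomogeneous d → Q ∉ P →
      ¬ ∀ᶠ u in 𝓝 (0 : ℂ × ℂ), eval (φ (shear m x₁ c u)) Q = 0 := fun d Q hQ hQP hQ0 =>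
    nd_of_D3 P hsm hσ hmem hDp d Q hQ hQP (ExtG_nd hc hQ0)
  have hψi : ∀ i, AnalyticAt ℂ (fun u => φ (shear m x₁ c u) i) 0 := fun i => by
    have h1 := analyticAt_eval hψ (X i)
    simpa only [eval_X] using h1
  obtain ⟨E, hE1, hE2, hE3, hE4⟩ := exists_embedding P z hz hψ hmemψ hndψ
  have hy : ∀ i, X i ∉ P → emb (t2 fun u => φ (shear m x₁ c u) i) ≠ 0 := by
    intro i hi h0
    have h1 : t2 (fun u => φ (shear m x₁ c u) i) = 0 := by
      apply emb_injective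
      rw [h0, map_zero]
    rw [t2_eq_zero_iff (hψi i)] at h1
    refine hndψ 1 (X i) (isHomogeneous_X _ _) hi (h1.mono fun u hu => ?_)
    rw [eval_X]
    exact hu
  have hGθ : ∀ g ∈ G, AnalyticAt ℂ (fun u => g (shear m x₁ c u)) 0 := fun g hg =>
    AnalyticAt.fun_comp (g := g) (f := shear m x₁ c) (hGan' g hg) hθ
  -- a function which does not vanish at `0` has order `0`
  have hv0 : ∀ f : ℂ × ℂ → ℂ, AnalyticAt ℂ f 0 → f 0 ≠ 0 → vT (emb (t2 f)) = 0 := by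
    intro f hf hf0
    refine vT_emb_of_constantCoeff_ne fun h0 => hf0 ?_
    rw [← PowerSeries.coeff_zero_eq_constantCoeff_apply, coeff_t2_iff hf 0] at h0
    exact h0.self_of_nhds
  set yl : LL := emb (t2 fun u => φ (shear m x₁ c u) l) with hyldef
  have hyl0 : yl ≠ 0 := hy l hl
  have hvl : vT yl = 0 := hv0 _ (hψi l) hlp
  -- the Jacobian
  have hD3e : ∀ᶠ u in 𝓝 (0 : ℂ × ℂ), D3 t₀ (φ (shear m x₁ c u)) (d1 (fun u => φ (shear m x₁ c u)) u)
      (d2 (fun u => φ (shear m x₁ c u)) u) =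
      D3 t₀ (φ (shear m x₁ c u)) (d1 φ (shear m x₁ c u)) (d2 φ (shear m x₁ c u)) := by
    have h1 := D3_comp t₀ (φ := fun u => φ (shear m x₁ c u)) (c := fun _ => (1 : ℂ))
      (analyticAt_const (x := (0 : ℂ × ℂ))) hθ hσ (Filter.Eventually.of_forall fun u => (one_smul ℂ _).symm)
    have h2 : ∀ᶠ u in 𝓝 (0 : ℂ × ℂ), DifferentiableAt ℂ c u.1 := by
      have h3 : ∀ᶠ a in 𝓝 ((0 : ℂ × ℂ).1), DifferentiableAt ℂ c a :=
        hc.eventually_analyticAt.mono fun a ha => ha.differentiableAt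
      exact continuousAt_fst.eventually h3
    filter_upwards [h1, h2] with u h1 h2
    rw [h1, ExtG_jac_shear h2]
    ring
  have hD3 := t2_congr hD3e
  have hD3an : AnalyticAt ℂ (fun u => D3 t₀ (φ (shear m x₁ c u)) (d1 φ (shear m x₁ c u))
      (d2 φ (shear m x₁ c u))) 0 :=
    AnalyticAt.fun_comp (g := fun v => D3 t₀ (φ v) (d1 φ v) (d2 φ v)) (f := shear m x₁ c)
      (analyticAt_D3 t₀ hσ) hθ
  have hJ := hE4 t₀ ht₀
  have hyt := hy (t₀ 0) ht₀
  have hJne : DX (E (ratio P (t₀ 1) (t₀ 0))) * DT (E (ratio P (t₀ 2) (t₀ 0))) -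
      DX (E (ratio P (t₀ 2) (t₀ 0))) * DT (E (ratio P (t₀ 1) (t₀ 0))) ≠ 0 := by
    rw [hJ, hD3]
    refine ExtG_div_ne (F := LL) (fun h0 => ?_) hyt
    have h1 : t2 (fun u => D3 t₀ (φ (shear m x₁ c u)) (d1 φ (shear m x₁ c u))
        (d2 φ (shear m x₁ c u))) = 0 := by
      apply emb_injective
      rw [h0, map_zero]
    rw [t2_eq_zero_iff hD3an] at h1
    exact hDp (ExtG_nd (g := fun v => D3 t₀ (φ v) (d1 φ v) (d2 φ v)) hc h1)
  have hpf : 0 ≤ vT (emb (t2 fun u => (G.map fun g => g (shear m x₁ c u)).prod)) +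
      vT (E (H * ratio P l o) * (E W *
        (DX (E (ratio P (t₀ 1) (t₀ 0))) * DT (E (ratio P (t₀ 2) (t₀ 0))) -
          DX (E (ratio P (t₀ 2) (t₀ 0))) * DT (E (ratio P (t₀ 1) (t₀ 0))))) ^ M) := by
    have hmain := Pool.Agent.H36.BPL.pole_free_logG E hE1 hz ⟨_, _, hJne⟩ M (H * ratio P l o) W
      ![ratio P (t₀ 1) (t₀ 0), ratio P (t₀ 2) (t₀ 0)] (OnBoundary P (fun _ : Fin 1 => H₀)) (hpole l hl)
    simp only [Matrix.cons_val_zero, Matrix.cons_val_one] at hmain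
    rcases hmain with h1 | ⟨D, ⟨j', hj', hnn, m', hpos⟩, ⟨e', he', hord⟩, hV⟩
    · exact add_nonneg (vT_emb_nonneg _) h1
    · -- the curve lies in the boundary
      have hj'P : X j' ∉ P := fun h0 => hj' ((coordFun_eq_zero_iff P j').2 h0)
      have hnnE : ∀ f : FunField P, 0 ≤ D.ord f → 0 ≤ vT (E f) := by
        intro f hf
        by_cases h0 : f = 0
        · rw [h0, map_zero, AddValuation.map_zero]
          exact le_top
        · obtain ⟨n, hn1, hn2⟩ := hord f h0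
          rw [hn1] at hf
          rw [hn2]
          have h2 : (0 : ℤ) ≤ n := WithTop.coe_le_coe.1 hf
          have h3 : (0 : ℤ) ≤ (e' : ℤ) * n := by positivity
          exact WithTop.coe_le_coe.2 h3
      have hyj : vT (emb (t2 fun u => φ (shear m x₁ c u) j')) = 0 := by
        have h1 := hnnE _ (hnn l)
        rw [hE2] at h1
        have h2 : yl / emb (t2 fun u => φ (shear m x₁ c u) j') * emb (t2 fun u => φ (shear m x₁ c u) j') =
            yl := ExtG_divmul (F := LL) yl (hy j' hj'P)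
        have h3 := congrArg vT h2
        rw [AddValuation.map_mul, hvl] at h3
        refine le_antisymm ?_ (vT_emb_nonneg _)
        rw [← h3]
        exact le_add_of_nonneg_left h1
      have hpos' : 0 < vT (E (aeval (fun i => ratio P i j') H₀)) := by
        by_cases h0 : aeval (fun i => ratio P i j') H₀ = 0
        · rw [h0, map_zero, AddValuation.map_zero]
          exact WithTop.coe_lt_top _
        · obtain ⟨n, hn1, hn2⟩ := hord _ h0
          rw [hn1] at hpos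
          rw [hn2]
          have h2 : (0 : ℤ) < n := WithTop.coe_lt_coe.1 hpos
          have h3 : (0 : ℤ) < (e' : ℤ) * n := by positivity
          exact WithTop.coe_lt_coe.2 h3
      have hcj' : Pool.Agent.H17GT.coordFun P j' ≠ 0 := hj'
      have h6 := hE3 e H₀ (X j' ^ e) (aeval (fun i => ratio P i j') H₀) hH₀
        (isHomogeneous_X_pow _ _) (fun l' hl' => by
          rw [map_pow, aeval_X, (ExtG_hom P z hz hcj'
            (fun h0 => hl' ((coordFun_eq_zero_iff P l').1 h0)) hH₀).1, mul_comm])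
      have h7 : t2 (fun u => eval (φ (shear m x₁ c u)) (X j' ^ e)) =
          t2 (fun u => φ (shear m x₁ c u) j') ^ e := by
        rw [← t2_pow (hψi j')]
        simp only [map_pow, eval_X]
      have h8 := congrArg vT h6
      rw [h7, map_pow, AddValuation.map_mul, AddValuation.map_pow, hyj, smul_zero, add_zero] at h8
      have hH : PowerSeries.coeff 0 (t2 fun u => eval (φ (shear m x₁ c u)) H₀) = 0 := by
        by_contra hH
        rw [PowerSeries.coeff_zero_eq_constantCoeff_apply] at hH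
        rw [vT_emb_of_constantCoeff_ne hH] at h8
        rw [h8] at hpos'
        exact lt_irrefl _ hpos'
      have h1 : ∀ᶠ a in 𝓝 (0 : ℂ), eval (φ (shear m x₁ c (a, 0))) H₀ = 0 :=
        (coeff_t2_iff (analyticAt_eval hψ H₀) 0).1 hH
      have h2 : ∀ g ∈ G, PowerSeries.coeff 0 (t2 fun u => g (shear m x₁ c u)) = 0 := by
        intro g hg
        rw [coeff_t2_iff (hGθ g hg) 0]
        have h3 : Tendsto (fun a : ℂ => shear m x₁ c (a, 0)) (𝓝 0) (𝓝 (shear m x₁ c 0)) := by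
          have h4 : ContinuousAt (fun a : ℂ => ((a, 0) : ℂ × ℂ)) 0 := by fun_prop
          exact ContinuousAt.comp (g := shear m x₁ c) (f := fun a : ℂ => ((a, 0) : ℂ × ℂ))
            hθ.continuousAt h4
        filter_upwards [h1, h3.eventually (hG0' g hg)] with a ha hb
        exact hb ha
      have h3 := ExtG_vprod (shear m x₁ c) G hGθ h2
      rw [hG] at h3
      rw [add_comm] at hV
      refine hV.trans ?_
      exact add_le_add_left h3 _
  rw [hJ] at hpf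
  have hrepE := hE3 d A B _ hA hB hrep
  have hAan : AnalyticAt ℂ (fun u => eval (φ (shear m x₁ c u)) A) 0 := analyticAt_eval hψ A
  have hBan : AnalyticAt ℂ (fun u => eval (φ (shear m x₁ c u)) B) 0 := analyticAt_eval hψ B
  have hA2 : t2 (fun u => (fun u => (G.map fun g => g u).prod *
      (eval (φ u) A * D3 t₀ (φ u) (d1 φ u) (d2 φ u) ^ M)) (shear m x₁ c u)) =
        t2 (fun u => (G.map fun g => g (shear m x₁ c u)).prod) *
        (t2 (fun u => eval (φ (shear m x₁ c u)) A) *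
          t2 (fun u => D3 t₀ (φ (shear m x₁ c u)) (d1 φ (shear m x₁ c u))
            (d2 φ (shear m x₁ c u))) ^ M) := by
    rw [← t2_pow hD3an, ← t2_mul hAan (hD3an.fun_pow M),
      ← t2_mul (ExtG_prod_an (shear m x₁ c) G hGθ) (hAan.fun_mul (hD3an.fun_pow M))]
  have hB2 : t2 (fun u => (fun u => eval (φ u) (B * X (t₀ 0) ^ (3 * M + 1))) (shear m x₁ c u)) =
      t2 (fun u => eval (φ (shear m x₁ c u)) B) *
        t2 (fun u => φ (shear m x₁ c u) (t₀ 0)) ^ (3 * M + 1) := by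
    rw [← t2_pow (hψi (t₀ 0)), ← t2_mul hBan ((hψi (t₀ 0)).fun_pow _)]
    simp only [map_mul, map_pow, eval_X]
  have hvA : vT (emb (t2 fun u => (G.map fun g => g (shear m x₁ c u)).prod)) +
      vT (emb (t2 fun u => eval (φ (shear m x₁ c u)) A) *
      emb (t2 (fun u => D3 t₀ (φ (shear m x₁ c u)) (d1 φ (shear m x₁ c u))
          (d2 φ (shear m x₁ c u)))) ^ M) = (j : ℤ) := by
    rw [← AddValuation.map_mul, ← map_pow, ← map_mul, ← map_mul, ← hA2]
    exact vT_emb hordA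
  have hvB : vT (emb (t2 fun u => eval (φ (shear m x₁ c u)) B) *
      emb (t2 fun u => φ (shear m x₁ c u) (t₀ 0)) ^ (3 * M + 1)) = (k' : ℤ) := by
    rw [← map_pow, ← map_mul, ← hB2]
    exact vT_emb hordB
  have hyo := hy o ho
  -- the identity
  have hid : (E (H * ratio P l o) * (E W * (emb (t2 fun u =>
      D3 t₀ (φ (shear m x₁ c u)) (d1 (fun u => φ (shear m x₁ c u)) u)
        (d2 (fun u => φ (shear m x₁ c u)) u)) / emb (t2 fun u => φ (shear m x₁ c u) (t₀ 0)) ^ 3)) ^ M) *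
      (emb (t2 fun u => eval (φ (shear m x₁ c u)) B) *
        emb (t2 fun u => φ (shear m x₁ c u) (t₀ 0)) ^ (3 * M + 1)) =
      yl * (emb (t2 fun u => eval (φ (shear m x₁ c u)) A) *
        emb (t2 (fun u => D3 t₀ (φ (shear m x₁ c u)) (d1 φ (shear m x₁ c u))
          (d2 φ (shear m x₁ c u)))) ^ M) := by
    rw [← hrepE, hD3]
    simp only [map_mul, map_pow, hE2, ← hyldef]
    exact ExtG_alg (F := LL) (E H) (E W) _ _ _ _ _ hyt hyo M
  have hv := congrArg vT hid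
  rw [AddValuation.map_mul vT (E (H * ratio P l o) * _) _,
    AddValuation.map_mul vT yl _, hvB, hvl, zero_add] at hv
  have h1 : ((k' : ℤ) : WithTop ℤ) ≤ ((j : ℤ) : WithTop ℤ) := by
    rw [← hvA, ← hv, ← add_assoc]
    exact le_add_of_nonneg_left hpf
  have h2 : (k' : ℤ) ≤ (j : ℤ) := WithTop.coe_le_coe.1 h1
  have h3 : k' ≤ j := by exact_mod_cast h2
  omega

end Pool.Agent.H68.KR

end
end

section

/-!
# SA ExtF: poles of the canonical form pulled back by an arbitrary map, boundary given by several forms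

As `Pool.Agent.H68.KR.ExtG` (written by helper68), the boundary is the common zero set of the forms `Hf i`.
-/

set_option autoImplicit false

open MvPolynomial Topology Filter
open Pool.Agent.H23.Fano (Form regularForms PrimeDivisorOver)
open Pool.Agent.H17LG.Variety (FunField ratio PoleAtMost)
open Pool.Agent.H68.KR

noncomputable section

namespace Pool.Agent.H62.SA

variable {N : ℕ} (P : Ideal (MvPolynomial (Fin (N + 1)) ℂ)) [P.IsPrime]

private theorem ExtF_an_snd {c : ℂ → ℂ} (hc : AnalyticAt ℂ c 0) :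
    AnalyticAt ℂ (fun u : ℂ × ℂ => c u.1 + u.2) 0 := by
  have h1 : AnalyticAt ℂ (fun u : ℂ × ℂ => u.1) 0 := analyticAt_fst
  have h2 : AnalyticAt ℂ (fun u : ℂ × ℂ => c u.1) 0 :=
    AnalyticAt.fun_comp (g := c) (f := fun u : ℂ × ℂ => u.1) hc h1
  exact h2.add analyticAt_snd

private theorem ExtF_an_shear {m x₁ : ℂ} {c : ℂ → ℂ} (hc : AnalyticAt ℂ c 0) :
    AnalyticAt ℂ (shear m x₁ c) 0 := by
  have h2 := ExtF_an_snd hc
  have h1 : AnalyticAt ℂ (fun u : ℂ × ℂ => x₁ + u.1 + m * (c u.1 + u.2)) 0 :=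
    (analyticAt_const.add analyticAt_fst).add (analyticAt_const.mul h2)
  exact h1.prod h2

private theorem ExtF_jac_shear {m x₁ : ℂ} {c : ℂ → ℂ} {u : ℂ × ℂ}
    (hc : DifferentiableAt ℂ c u.1) : jac (shear m x₁ c) u = 1 := by
  have h2 : HasFDerivAt (fun v : ℂ × ℂ => c v.1 + v.2)
      (deriv c u.1 • ContinuousLinearMap.fst ℂ ℂ ℂ + ContinuousLinearMap.snd ℂ ℂ ℂ) u := by
    exact (hc.hasDerivAt.comp_hasFDerivAt u hasFDerivAt_fst).add hasFDerivAt_snd
  have h1 : HasFDerivAt (fun v : ℂ × ℂ => x₁ + v.1 + m * (c v.1 + v.2))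
      (ContinuousLinearMap.fst ℂ ℂ ℂ + m • (deriv c u.1 • ContinuousLinearMap.fst ℂ ℂ ℂ +
        ContinuousLinearMap.snd ℂ ℂ ℂ)) u := by
    exact (hasFDerivAt_fst.const_add x₁).add (h2.const_mul m)
  simp only [jac, shear, dx, dy]
  rw [h1.fderiv, h2.fderiv]
  simp

/-- Non-degeneracy is preserved by the shear. -/
private theorem ExtF_nd {m x₁ : ℂ} {c : ℂ → ℂ} (hc : AnalyticAt ℂ c 0) {g : ℂ × ℂ → ℂ}
    (hg : ∀ᶠ u in 𝓝 (0 : ℂ × ℂ), g (shear m x₁ c u) = 0) :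
    ∀ᶠ v in 𝓝 (shear m x₁ c 0), g v = 0 := by
  have h0 : (shear m x₁ c 0).1 - m * (shear m x₁ c 0).2 - x₁ = 0 := by
    simp only [shear, Prod.fst_zero, Prod.snd_zero]
    ring
  have hcont : ContinuousAt (fun v : ℂ × ℂ => ((v.1 - m * v.2 - x₁, v.2 - c (v.1 - m * v.2 - x₁)) : ℂ × ℂ))
      (shear m x₁ c 0) := by
    have ha : ContinuousAt (fun v : ℂ × ℂ => v.1 - m * v.2 - x₁) (shear m x₁ c 0) := by
      fun_prop
    have hb : ContinuousAt (fun v : ℂ × ℂ => c (v.1 - m * v.2 - x₁)) (shear m x₁ c 0) :=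
      ContinuousAt.comp' (f := fun v : ℂ × ℂ => v.1 - m * v.2 - x₁) (g := c)
        (by rw [h0]; exact hc.continuousAt) ha
    exact ha.prodMk (continuousAt_snd.sub hb)
  have heta : ((fun v : ℂ × ℂ => ((v.1 - m * v.2 - x₁, v.2 - c (v.1 - m * v.2 - x₁)) : ℂ × ℂ))
      (shear m x₁ c 0)) = 0 := by
    simp only [h0]
    simp [shear]
  have h1 : ∀ᶠ v in 𝓝 (shear m x₁ c 0), g (shear m x₁ c
      ((fun v : ℂ × ℂ => ((v.1 - m * v.2 - x₁, v.2 - c (v.1 - m * v.2 - x₁)) : ℂ × ℂ)) v)) = 0 := by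
    have h3 := hcont.tendsto
    have h4 : (((shear m x₁ c 0).1 - m * (shear m x₁ c 0).2 - x₁,
        (shear m x₁ c 0).2 - c ((shear m x₁ c 0).1 - m * (shear m x₁ c 0).2 - x₁)) : ℂ × ℂ) = 0 := heta
    rw [h4] at h3
    exact h3.eventually hg
  refine h1.mono fun v hv => ?_
  have h2 : shear m x₁ c (v.1 - m * v.2 - x₁, v.2 - c (v.1 - m * v.2 - x₁)) = v := by
    simp only [shear]
    ext
    · simp only
      ring
    · simp only
      ring
  simpa only [h2] using hv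

private theorem ExtF_alg {F : Type} [Field F] (EH EW e1 e2 y0 yo yl : F) (h0 : y0 ≠ 0)
    (ho : yo ≠ 0) (M : ℕ) :
    EH * (yl / yo) * (EW * (e1 / y0 ^ 3)) ^ M * (e2 * y0 ^ (3 * M + 1)) =
      yl * (EH * (y0 / yo) * EW ^ M * e2 * e1 ^ M) := by
  have h1 : (y0 ^ 3) ^ M ≠ 0 := pow_ne_zero _ (pow_ne_zero _ h0)
  have h2 : y0 ^ (3 * M + 1) = (y0 ^ 3) ^ M * y0 := by rw [pow_succ, pow_mul]
  rw [mul_pow, div_pow, h2]
  field_simp

private theorem ExtF_prod_an (θ : ℂ × ℂ → ℂ × ℂ) (G : List (ℂ × ℂ → ℂ)) (hG : ∀ g ∈ G, AnalyticAt ℂ (fun u => g (θ u)) 0) :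
    AnalyticAt ℂ (fun u => (G.map fun g => g (θ u)).prod) 0 := by
  induction G with
  | nil =>
    simp only [List.map_nil, List.prod_nil]
    exact analyticAt_const
  | cons g G ih =>
    simp only [List.map_cons, List.prod_cons]
    exact (hG g List.mem_cons_self).mul (ih fun g' hg' => hG g' (List.mem_cons_of_mem _ hg'))

/-- An element of `ℂ⟦X⟧⟦T⟧` without constant coefficient has order at least one. -/
private theorem ExtF_one_le {F : PowerSeries (PowerSeries ℂ)} (hF : PowerSeries.coeff 0 F = 0) :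
    (((1 : ℕ) : ℤ) : WithTop ℤ) ≤ vT (emb F) := by
  rw [PowerSeries.coeff_zero_eq_constantCoeff_apply] at hF
  obtain ⟨F', rfl⟩ := PowerSeries.X_dvd_iff.2 hF
  have h1 : vT (emb (PowerSeries.X : PowerSeries (PowerSeries ℂ))) = ((1 : ℕ) : ℤ) :=
    vT_emb (by rw [PowerSeries.order_X]; rfl)
  rw [map_mul, AddValuation.map_mul, h1]
  exact le_add_of_nonneg_right (vT_emb_nonneg F')

/-- The order of the product of the functions in `G`. -/
private theorem ExtF_vprod (θ : ℂ × ℂ → ℂ × ℂ) (G : List (ℂ × ℂ → ℂ))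
    (hG : ∀ g ∈ G, AnalyticAt ℂ (fun u => g (θ u)) 0)
    (hG0 : ∀ g ∈ G, PowerSeries.coeff 0 (t2 fun u => g (θ u)) = 0) :
    (((G.length : ℕ) : ℤ) : WithTop ℤ) ≤ vT (emb (t2 fun u => (G.map fun g => g (θ u)).prod)) := by
  induction G with
  | nil =>
    exact vT_emb_nonneg _
  | cons g G ih =>
    have h1 := ih (fun g' hg' => hG g' (List.mem_cons_of_mem _ hg')) (fun g' hg' => hG0 g' (List.mem_cons_of_mem _ hg'))
    have h2 := ExtF_one_le (hG0 g List.mem_cons_self)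
    have h3 : t2 (fun u => ((g :: G).map fun g => g (θ u)).prod) =
        t2 (fun u => g (θ u)) * t2 (fun u => (G.map fun g => g (θ u)).prod) := by
      rw [← t2_mul (hG g List.mem_cons_self) (ExtF_prod_an θ G fun g' hg' => hG g' (List.mem_cons_of_mem _ hg'))]
      simp only [List.map_cons, List.prod_cons]
    rw [h3, map_mul, AddValuation.map_mul, List.length_cons]
    have h4 : (((G.length + 1 : ℕ) : ℤ) : WithTop ℤ) = (((1 : ℕ) : ℤ) : WithTop ℤ) + (((G.length : ℕ) : ℤ) : WithTop ℤ) := by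
      rw [← WithTop.coe_add]
      congr 1
      push_cast
      ring
    rw [h4]
    exact add_le_add h2 h1

/-- Change of the affine chart for a homogeneous polynomial. -/
private theorem ExtF_hom {k : ℕ} (z : Fin (k + 1) → FunField P) (hz : IsTranscendenceBasis ℂ z)
    {l l' : Fin (N + 1)} (hl : Pool.Agent.H17GT.coordFun P l ≠ 0)
    (hl' : Pool.Agent.H17GT.coordFun P l' ≠ 0) {e : ℕ}
    {Q : MvPolynomial (Fin (N + 1)) ℂ} (hQ : Q.IsHomogeneous e) :
    aeval (fun i => ratio P i l') Q = ratio P l l' ^ e * aeval (fun i => ratio P i l) Q ∧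
      ratio P l l' * ratio P l' l = 1 := by
  obtain ⟨x, hx0, hgen, -, hxP, hxc, hxr⟩ := exists_point P z hz
  have hxl : x l ≠ 0 := fun h0 => hl ((hxc l).1 h0)
  have hxl' : x l' ≠ 0 := fun h0 => hl' ((hxc l').1 h0)
  have key : ∀ j, x j ≠ 0 → aeval (fun i => ratio P i j) Q = (x j)⁻¹ ^ e * aeval x Q := by
    intro j hj
    have h1 : (fun i => ratio P i j) = fun i => (x j)⁻¹ * x i := by
      funext i
      rw [← hxr, div_eq_inv_mul]
    rw [h1, aeval_def, aeval_def, eval₂_of_isHomogeneous _ hQ]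
  refine ⟨?_, ?_⟩
  · rw [key l' hxl', key l hxl, ← hxr l l', div_pow]
    have h1 := pow_ne_zero e hxl
    have h2 := pow_ne_zero e hxl'
    rw [inv_pow, inv_pow]
    field_simp
  · rw [← hxr, ← hxr]
    field_simp

private theorem ExtF_div_ne {F : Type} [Field F] {a b : F} (ha : a ≠ 0) (hb : b ≠ 0) : a / b ^ 3 ≠ 0 :=
  div_ne_zero ha (pow_ne_zero _ hb)

private theorem ExtF_divmul {F : Type} [Field F] (a : F) {b : F} (hb : b ≠ 0) : a / b * b = a :=
  div_mul_cancel₀ a hb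

/-- The zero set of an analytic function which does not vanish near `0` contains no open set near `0`. -/
private theorem ExtF_ident {f : ℂ × ℂ → ℂ} (hf : AnalyticAt ℂ f 0) (h0 : ¬ ∀ᶠ u in 𝓝 (0 : ℂ × ℂ), f u = 0) :
    ∀ᶠ p in 𝓝 (0 : ℂ × ℂ), ¬ ∀ᶠ u in 𝓝 p, f u = 0 := by
  obtain ⟨r, hr, hB⟩ := Metric.eventually_nhds_iff_ball.1 hf.eventually_analyticAt
  filter_upwards [Metric.ball_mem_nhds (0 : ℂ × ℂ) hr] with p hp hcon
  have h1 : AnalyticOnNhd ℂ f (Metric.ball (0 : ℂ × ℂ) r) := fun u hu => hB u hu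
  have h2 := h1.eqOn_zero_of_preconnected_of_eventuallyEq_zero
    (convex_ball (0 : ℂ × ℂ) r).isPreconnected hp hcon
  refine h0 ?_
  filter_upwards [Metric.ball_mem_nhds (0 : ℂ × ℂ) hr] with u hu
  exact h2 hu

theorem exists_extF (z : Fin 2 → FunField P) (hz : IsTranscendenceBasis ℂ z)
    (hsm : ∀ x ∈ cone P, ∃ t σ, CChart P x t σ)
    {t₀ : Fin 3 → Fin (N + 1)} (ht₀ : X (t₀ 0) ∉ P) {o : Fin (N + 1)} (ho : X o ∉ P) {M : ℕ} (hM : 1 ≤ M)
    {s : ℕ} {e : Fin s → ℕ} {Hf : Fin s → MvPolynomial (Fin (N + 1)) ℂ} (hHf : ∀ i, (Hf i).IsHomogeneous (e i))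
    {H W : FunField P}
    (hpole : ∀ l, X l ∉ P → ∀ D : PrimeDivisorOver (FunField P) 2,
      (¬ OnBd P Hf D → PoleAtMost 0 D M (H * ratio P l o)
        (Form.mk W ![ratio P (t₀ 1) (t₀ 0), ratio P (t₀ 2) (t₀ 0)])) ∧
      (OnBd P Hf D → PoleAtMost M D M (H * ratio P l o)
        (Form.mk W ![ratio P (t₀ 1) (t₀ 0), ratio P (t₀ 2) (t₀ 0)])))
    {d : ℕ} {A B : MvPolynomial (Fin (N + 1)) ℂ} (hA : A.IsHomogeneous d) (hB : B.IsHomogeneous d)
    (hBP : B ∉ P)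
    (hrep : ∀ l, X l ∉ P → (H * ratio P (t₀ 0) o * W ^ M) * aeval (fun i => ratio P i l) B =
      aeval (fun i => ratio P i l) A)
    {φ : ℂ × ℂ → Fin (N + 1) → ℂ} (hφ : AnalyticAt ℂ φ 0) (hφX : ∀ᶠ u in 𝓝 (0 : ℂ × ℂ), φ u ∈ cone P)
    (G : List (ℂ × ℂ → ℂ)) (hG : G.length = M)
    (hGan : ∀ g ∈ G, AnalyticAt ℂ g 0) (hG0 : ∀ g ∈ G, ∀ᶠ u in 𝓝 (0 : ℂ × ℂ), (∀ i, eval (φ u) (Hf i) = 0) → g u = 0) :
    ∃ Φ : ℂ × ℂ → ℂ, AnalyticAt ℂ Φ 0 ∧ ∀ᶠ u in 𝓝 (0 : ℂ × ℂ),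
      eval (φ u) (B * X (t₀ 0) ^ (3 * M + 1)) * Φ u =
        (G.map fun g => g u).prod * (eval (φ u) A * D3 t₀ (φ u) (d1 φ u) (d2 φ u) ^ M) := by
  classical
  by_cases hD0 : ∀ᶠ u in 𝓝 (0 : ℂ × ℂ), D3 t₀ (φ u) (d1 φ u) (d2 φ u) = 0
  · refine ⟨fun _ => 0, analyticAt_const, ?_⟩
    filter_upwards [hD0] with u hu
    rw [hu, zero_pow (by omega), mul_zero, mul_zero, mul_zero]
  by_contra hne
  have hBX : (B * X (t₀ 0) ^ (3 * M + 1)).IsHomogeneous (d + (3 * M + 1)) :=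
    hB.mul (isHomogeneous_X_pow _ _)
  have hBXP : B * X (t₀ 0) ^ (3 * M + 1) ∉ P := by
    intro hmem
    rcases (inferInstance : P.IsPrime).mem_or_mem hmem with h1 | h1
    · exact hBP h1
    · exact ht₀ ((inferInstance : P.IsPrime).mem_of_pow_mem _ h1)
  have hA'an : AnalyticAt ℂ
      (fun u => eval (φ u) A * D3 t₀ (φ u) (d1 φ u) (d2 φ u) ^ M) 0 :=
    (analyticAt_eval hφ A).mul ((analyticAt_D3 t₀ hφ).pow M)
  have hPan : AnalyticAt ℂ (fun u => (G.map fun g => g u).prod) 0 := ExtF_prod_an (fun u => u) G hGan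
  have hA''an : AnalyticAt ℂ
      (fun u => (G.map fun g => g u).prod * (eval (φ u) A * D3 t₀ (φ u) (d1 φ u) (d2 φ u) ^ M)) 0 :=
    hPan.mul hA'an
  have hB'an : AnalyticAt ℂ (fun u => eval (φ u) (B * X (t₀ 0) ^ (3 * M + 1))) 0 :=
    analyticAt_eval hφ _
  have hB'0 : ¬ ∀ᶠ u in 𝓝 (0 : ℂ × ℂ), eval (φ u) (B * X (t₀ 0) ^ (3 * M + 1)) = 0 :=
    nd_of_D3 P hsm hφ hφX hD0 _ _ hBX hBXP
  have hne' : ¬ ∃ Φ : ℂ × ℂ → ℂ, AnalyticAt ℂ Φ 0 ∧ ∀ᶠ u in 𝓝 (0 : ℂ × ℂ),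
      (fun u => (G.map fun g => g u).prod * (eval (φ u) A * D3 t₀ (φ u) (d1 φ u) (d2 φ u) ^ M)) u =
        (fun u => eval (φ u) (B * X (t₀ 0) ^ (3 * M + 1))) u * Φ u := by
    rintro ⟨Φ, hΦ, hΦ'⟩
    exact hne ⟨Φ, hΦ, hΦ'.mono fun u hu => hu.symm⟩
  have hGa : ∀ᶠ p in 𝓝 (0 : ℂ × ℂ), ∀ g ∈ G, AnalyticAt ℂ g p :=
    (Filter.eventually_all_finite (List.finite_toSet G)).2 fun g hg => (hGan g hg).eventually_analyticAt
  have hGb : ∀ᶠ p in 𝓝 (0 : ℂ × ℂ), ∀ g ∈ G, ∀ᶠ u in 𝓝 p, (∀ i, eval (φ u) (Hf i) = 0) → g u = 0 :=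
    (Filter.eventually_all_finite (List.finite_toSet G)).2 fun g hg => (hG0 g hg).eventually_nhds
  -- a coordinate which does not vanish
  obtain ⟨l, hl0⟩ : ∃ l, φ 0 l ≠ 0 := by
    by_contra h
    push Not at h
    exact hφX.self_of_nhds.1 (funext h)
  have hl : X l ∉ P := by
    intro hmem0
    have h1 := hφX.self_of_nhds.2 (X l) hmem0
    rw [eval_X] at h1
    exact hl0 h1
  have hφl : AnalyticAt ℂ (fun u => φ u l) 0 := by
    have h1 := analyticAt_eval hφ (X l)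
    simpa only [eval_X] using h1
  have hU : {p : ℂ × ℂ | AnalyticAt ℂ φ p ∧ (∀ᶠ u in 𝓝 p, φ u ∈ cone P) ∧
      (¬ ∀ᶠ u in 𝓝 p, D3 t₀ (φ u) (d1 φ u) (d2 φ u) = 0) ∧ φ p l ≠ 0 ∧ (∀ g ∈ G, AnalyticAt ℂ g p) ∧
      (∀ g ∈ G, ∀ᶠ u in 𝓝 p, (∀ i, eval (φ u) (Hf i) = 0) → g u = 0)} ∈ 𝓝 (0 : ℂ × ℂ) :=
    hφ.eventually_analyticAt.and (hφX.eventually_nhds.and
      ((ExtF_ident (analyticAt_D3 t₀ hφ) hD0).and ((hφl.continuousAt.eventually_ne hl0).and (hGa.and hGb))))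
  obtain ⟨m, x₁, c, j, k', hc, ⟨hσ, hmem, hDp, hlp, hGan', hG0'⟩, hordA, hordB, hjk⟩ :=
    exists_curve hA''an hB'an hB'0 hne' hU
  have hθ : AnalyticAt ℂ (shear m x₁ c) 0 := ExtF_an_shear hc
  have hψ : AnalyticAt ℂ (fun u => φ (shear m x₁ c u)) 0 :=
    AnalyticAt.fun_comp (g := φ) (f := shear m x₁ c) hσ hθ
  have hmemψ : ∀ᶠ u in 𝓝 (0 : ℂ × ℂ), ∀ Q ∈ P, eval (φ (shear m x₁ c u)) Q = 0 :=
    hθ.continuousAt.eventually (hmem.mono fun u hu => hu.2)
  have hndψ : ∀ (d : ℕ) (Q : MvPolynomial (Fin (N + 1)) ℂ), Q.IsHomogeneous d → Q ∉ P →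
      ¬ ∀ᶠ u in 𝓝 (0 : ℂ × ℂ), eval (φ (shear m x₁ c u)) Q = 0 := fun d Q hQ hQP hQ0 =>
    nd_of_D3 P hsm hσ hmem hDp d Q hQ hQP (ExtF_nd hc hQ0)
  have hψi : ∀ i, AnalyticAt ℂ (fun u => φ (shear m x₁ c u) i) 0 := fun i => by
    have h1 := analyticAt_eval hψ (X i)
    simpa only [eval_X] using h1
  obtain ⟨E, hE1, hE2, hE3, hE4⟩ := exists_embedding P z hz hψ hmemψ hndψ
  have hy : ∀ i, X i ∉ P → emb (t2 fun u => φ (shear m x₁ c u) i) ≠ 0 := by
    intro i hi h0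
    have h1 : t2 (fun u => φ (shear m x₁ c u) i) = 0 := by
      apply emb_injective
      rw [h0, map_zero]
    rw [t2_eq_zero_iff (hψi i)] at h1
    refine hndψ 1 (X i) (isHomogeneous_X _ _) hi (h1.mono fun u hu => ?_)
    rw [eval_X]
    exact hu
  have hGθ : ∀ g ∈ G, AnalyticAt ℂ (fun u => g (shear m x₁ c u)) 0 := fun g hg =>
    AnalyticAt.fun_comp (g := g) (f := shear m x₁ c) (hGan' g hg) hθ
  -- a function which does not vanish at `0` has order `0`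
  have hv0 : ∀ f : ℂ × ℂ → ℂ, AnalyticAt ℂ f 0 → f 0 ≠ 0 → vT (emb (t2 f)) = 0 := by
    intro f hf hf0
    refine vT_emb_of_constantCoeff_ne fun h0 => hf0 ?_
    rw [← PowerSeries.coeff_zero_eq_constantCoeff_apply, coeff_t2_iff hf 0] at h0
    exact h0.self_of_nhds
  set yl : LL := emb (t2 fun u => φ (shear m x₁ c u) l) with hyldef
  have hyl0 : yl ≠ 0 := hy l hl
  have hvl : vT yl = 0 := hv0 _ (hψi l) hlp
  -- the Jacobian
  have hD3e : ∀ᶠ u in 𝓝 (0 : ℂ × ℂ), D3 t₀ (φ (shear m x₁ c u)) (d1 (fun u => φ (shear m x₁ c u)) u)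
      (d2 (fun u => φ (shear m x₁ c u)) u) =
      D3 t₀ (φ (shear m x₁ c u)) (d1 φ (shear m x₁ c u)) (d2 φ (shear m x₁ c u)) := by
    have h1 := D3_comp t₀ (φ := fun u => φ (shear m x₁ c u)) (c := fun _ => (1 : ℂ))
      (analyticAt_const (x := (0 : ℂ × ℂ))) hθ hσ (Filter.Eventually.of_forall fun u => (one_smul ℂ _).symm)
    have h2 : ∀ᶠ u in 𝓝 (0 : ℂ × ℂ), DifferentiableAt ℂ c u.1 := by
      have h3 : ∀ᶠ a in 𝓝 ((0 : ℂ × ℂ).1), DifferentiableAt ℂ c a :=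
        hc.eventually_analyticAt.mono fun a ha => ha.differentiableAt
      exact continuousAt_fst.eventually h3
    filter_upwards [h1, h2] with u h1 h2
    rw [h1, ExtF_jac_shear h2]
    ring
  have hD3 := t2_congr hD3e
  have hD3an : AnalyticAt ℂ (fun u => D3 t₀ (φ (shear m x₁ c u)) (d1 φ (shear m x₁ c u))
      (d2 φ (shear m x₁ c u))) 0 :=
    AnalyticAt.fun_comp (g := fun v => D3 t₀ (φ v) (d1 φ v) (d2 φ v)) (f := shear m x₁ c)
      (analyticAt_D3 t₀ hσ) hθ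
  have hJ := hE4 t₀ ht₀
  have hyt := hy (t₀ 0) ht₀
  have hJne : DX (E (ratio P (t₀ 1) (t₀ 0))) * DT (E (ratio P (t₀ 2) (t₀ 0))) -
      DX (E (ratio P (t₀ 2) (t₀ 0))) * DT (E (ratio P (t₀ 1) (t₀ 0))) ≠ 0 := by
    rw [hJ, hD3]
    refine ExtF_div_ne (F := LL) (fun h0 => ?_) hyt
    have h1 : t2 (fun u => D3 t₀ (φ (shear m x₁ c u)) (d1 φ (shear m x₁ c u))
        (d2 φ (shear m x₁ c u))) = 0 := by
      apply emb_injective
      rw [h0, map_zero]
    rw [t2_eq_zero_iff hD3an] at h1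
    exact hDp (ExtF_nd (g := fun v => D3 t₀ (φ v) (d1 φ v) (d2 φ v)) hc h1)
  have hpf : 0 ≤ vT (emb (t2 fun u => (G.map fun g => g (shear m x₁ c u)).prod)) +
      vT (E (H * ratio P l o) * (E W *
        (DX (E (ratio P (t₀ 1) (t₀ 0))) * DT (E (ratio P (t₀ 2) (t₀ 0))) -
          DX (E (ratio P (t₀ 2) (t₀ 0))) * DT (E (ratio P (t₀ 1) (t₀ 0))))) ^ M) := by
    have hmain := Pool.Agent.H36.BPL.pole_free_logG E hE1 hz ⟨_, _, hJne⟩ M (H * ratio P l o) W
      ![ratio P (t₀ 1) (t₀ 0), ratio P (t₀ 2) (t₀ 0)] (OnBd P Hf) (hpole l hl)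
    simp only [Matrix.cons_val_zero, Matrix.cons_val_one] at hmain
    rcases hmain with h1 | ⟨D, ⟨j', hj', hnn, hposa⟩, ⟨e', he', hord⟩, hV⟩
    · exact add_nonneg (vT_emb_nonneg _) h1
    · -- the curve lies in the boundary
      have hj'P : X j' ∉ P := fun h0 => hj' ((coordFun_eq_zero_iff P j').2 h0)
      have hnnE : ∀ f : FunField P, 0 ≤ D.ord f → 0 ≤ vT (E f) := by
        intro f hf
        by_cases h0 : f = 0
        · rw [h0, map_zero, AddValuation.map_zero]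
          exact le_top
        · obtain ⟨n, hn1, hn2⟩ := hord f h0
          rw [hn1] at hf
          rw [hn2]
          have h2 : (0 : ℤ) ≤ n := WithTop.coe_le_coe.1 hf
          have h3 : (0 : ℤ) ≤ (e' : ℤ) * n := by positivity
          exact WithTop.coe_le_coe.2 h3
      have hyj : vT (emb (t2 fun u => φ (shear m x₁ c u) j')) = 0 := by
        have h1 := hnnE _ (hnn l)
        rw [hE2] at h1
        have h2 : yl / emb (t2 fun u => φ (shear m x₁ c u) j') * emb (t2 fun u => φ (shear m x₁ c u) j') =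
            yl := ExtF_divmul (F := LL) yl (hy j' hj'P)
        have h3 := congrArg vT h2
        rw [AddValuation.map_mul, hvl] at h3
        refine le_antisymm ?_ (vT_emb_nonneg _)
        rw [← h3]
        exact le_add_of_nonneg_left h1
      have h1 : ∀ᶠ a in 𝓝 (0 : ℂ), ∀ i, eval (φ (shear m x₁ c (a, 0))) (Hf i) = 0 := by
        rw [Filter.eventually_all]
        intro i
        have hpos := hposa i
        have hpos' : 0 < vT (E (aeval (fun i => ratio P i j') (Hf i))) := by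
          by_cases h0 : aeval (fun i => ratio P i j') (Hf i) = 0
          · rw [h0, map_zero, AddValuation.map_zero]
            exact WithTop.coe_lt_top _
          · obtain ⟨n, hn1, hn2⟩ := hord _ h0
            rw [hn1] at hpos
            rw [hn2]
            have h2 : (0 : ℤ) < n := WithTop.coe_lt_coe.1 hpos
            have h3 : (0 : ℤ) < (e' : ℤ) * n := by positivity
            exact WithTop.coe_lt_coe.2 h3
        have hcj' : Pool.Agent.H17GT.coordFun P j' ≠ 0 := hj'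
        have h6 := hE3 (e i) (Hf i) (X j' ^ e i) (aeval (fun i => ratio P i j') (Hf i)) (hHf i)
          (isHomogeneous_X_pow _ _) (fun l' hl' => by
            rw [map_pow, aeval_X, (ExtF_hom P z hz hcj'
              (fun h0 => hl' ((coordFun_eq_zero_iff P l').1 h0)) (hHf i)).1, mul_comm])
        have h7 : t2 (fun u => eval (φ (shear m x₁ c u)) (X j' ^ e i)) =
            t2 (fun u => φ (shear m x₁ c u) j') ^ e i := by
          rw [← t2_pow (hψi j')]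
          simp only [map_pow, eval_X]
        have h8 := congrArg vT h6
        rw [h7, map_pow, AddValuation.map_mul, AddValuation.map_pow, hyj, smul_zero, add_zero] at h8
        have hH : PowerSeries.coeff 0 (t2 fun u => eval (φ (shear m x₁ c u)) (Hf i)) = 0 := by
          by_contra hH
          rw [PowerSeries.coeff_zero_eq_constantCoeff_apply] at hH
          rw [vT_emb_of_constantCoeff_ne hH] at h8
          rw [h8] at hpos'
          exact lt_irrefl _ hpos'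
        exact (coeff_t2_iff (analyticAt_eval hψ (Hf i)) 0).1 hH
      have h2 : ∀ g ∈ G, PowerSeries.coeff 0 (t2 fun u => g (shear m x₁ c u)) = 0 := by
        intro g hg
        rw [coeff_t2_iff (hGθ g hg) 0]
        have h3 : Tendsto (fun a : ℂ => shear m x₁ c (a, 0)) (𝓝 0) (𝓝 (shear m x₁ c 0)) := by
          have h4 : ContinuousAt (fun a : ℂ => ((a, 0) : ℂ × ℂ)) 0 := by fun_prop
          exact ContinuousAt.comp (g := shear m x₁ c) (f := fun a : ℂ => ((a, 0) : ℂ × ℂ))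
            hθ.continuousAt h4
        filter_upwards [h1, h3.eventually (hG0' g hg)] with a ha hb
        exact hb ha
      have h3 := ExtF_vprod (shear m x₁ c) G hGθ h2
      rw [hG] at h3
      rw [add_comm] at hV
      refine hV.trans ?_
      exact add_le_add_left h3 _
  rw [hJ] at hpf
  have hrepE := hE3 d A B _ hA hB hrep
  have hAan : AnalyticAt ℂ (fun u => eval (φ (shear m x₁ c u)) A) 0 := analyticAt_eval hψ A
  have hBan : AnalyticAt ℂ (fun u => eval (φ (shear m x₁ c u)) B) 0 := analyticAt_eval hψ B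
  have hA2 : t2 (fun u => (fun u => (G.map fun g => g u).prod *
      (eval (φ u) A * D3 t₀ (φ u) (d1 φ u) (d2 φ u) ^ M)) (shear m x₁ c u)) =
        t2 (fun u => (G.map fun g => g (shear m x₁ c u)).prod) *
        (t2 (fun u => eval (φ (shear m x₁ c u)) A) *
          t2 (fun u => D3 t₀ (φ (shear m x₁ c u)) (d1 φ (shear m x₁ c u))
            (d2 φ (shear m x₁ c u))) ^ M) := by
    rw [← t2_pow hD3an, ← t2_mul hAan (hD3an.fun_pow M),
      ← t2_mul (ExtF_prod_an (shear m x₁ c) G hGθ) (hAan.fun_mul (hD3an.fun_pow M))]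
  have hB2 : t2 (fun u => (fun u => eval (φ u) (B * X (t₀ 0) ^ (3 * M + 1))) (shear m x₁ c u)) =
      t2 (fun u => eval (φ (shear m x₁ c u)) B) *
        t2 (fun u => φ (shear m x₁ c u) (t₀ 0)) ^ (3 * M + 1) := by
    rw [← t2_pow (hψi (t₀ 0)), ← t2_mul hBan ((hψi (t₀ 0)).fun_pow _)]
    simp only [map_mul, map_pow, eval_X]
  have hvA : vT (emb (t2 fun u => (G.map fun g => g (shear m x₁ c u)).prod)) +
      vT (emb (t2 fun u => eval (φ (shear m x₁ c u)) A) *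
      emb (t2 (fun u => D3 t₀ (φ (shear m x₁ c u)) (d1 φ (shear m x₁ c u))
          (d2 φ (shear m x₁ c u)))) ^ M) = (j : ℤ) := by
    rw [← AddValuation.map_mul, ← map_pow, ← map_mul, ← map_mul, ← hA2]
    exact vT_emb hordA
  have hvB : vT (emb (t2 fun u => eval (φ (shear m x₁ c u)) B) *
      emb (t2 fun u => φ (shear m x₁ c u) (t₀ 0)) ^ (3 * M + 1)) = (k' : ℤ) := by
    rw [← map_pow, ← map_mul, ← hB2]
    exact vT_emb hordB
  have hyo := hy o ho
  -- the identity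
  have hid : (E (H * ratio P l o) * (E W * (emb (t2 fun u =>
      D3 t₀ (φ (shear m x₁ c u)) (d1 (fun u => φ (shear m x₁ c u)) u)
        (d2 (fun u => φ (shear m x₁ c u)) u)) / emb (t2 fun u => φ (shear m x₁ c u) (t₀ 0)) ^ 3)) ^ M) *
      (emb (t2 fun u => eval (φ (shear m x₁ c u)) B) *
        emb (t2 fun u => φ (shear m x₁ c u) (t₀ 0)) ^ (3 * M + 1)) =
      yl * (emb (t2 fun u => eval (φ (shear m x₁ c u)) A) *
        emb (t2 (fun u => D3 t₀ (φ (shear m x₁ c u)) (d1 φ (shear m x₁ c u))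
          (d2 φ (shear m x₁ c u)))) ^ M) := by
    rw [← hrepE, hD3]
    simp only [map_mul, map_pow, hE2, ← hyldef]
    exact ExtF_alg (F := LL) (E H) (E W) _ _ _ _ _ hyt hyo M
  have hv := congrArg vT hid
  rw [AddValuation.map_mul vT (E (H * ratio P l o) * _) _,
    AddValuation.map_mul vT yl _, hvB, hvl, zero_add] at hv
  have h1 : ((k' : ℤ) : WithTop ℤ) ≤ ((j : ℤ) : WithTop ℤ) := by
    rw [← hvA, ← hv, ← add_assoc]
    exact le_add_of_nonneg_left hpf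
  have h2 : (k' : ℤ) ≤ (j : ℤ) := WithTop.coe_le_coe.1 h1
  have h3 : k' ≤ j := by exact_mod_cast h2
  omega

end Pool.Agent.H62.SA

end
end

section

/-!
# KR Main: surfaces of general type carry a holomorphic section of `M K - H`
-/

set_option autoImplicit false

open MvPolynomial Topology Filter
open Pool.Agent.H23.Fano (Form regularForms PrimeDivisorOver)
open Pool.Agent.H17LG.Variety (FunField ratio PoleAtMost IsLogGeneralType)
open Pool.Agent.H17BP (Tan IsForm NoZeros)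
open Pool.Agent.H17GT (coordFun)

noncomputable section

namespace Pool.Agent.H68.KR

variable {N : ℕ} (P : Ideal (MvPolynomial (Fin (N + 1)) ℂ)) [P.IsPrime]

theorem ratio_ne_zero {i j : Fin (N + 1)} (hi : X i ∉ P) (hj : X j ∉ P) : ratio P i j ≠ 0 := by
  intro h
  have h1 : coordFun P i / coordFun P j = 0 := congrArg Subtype.val h
  rcases div_eq_zero_iff.1 h1 with h2 | h2
  · exact hi ((coordFun_eq_zero_iff P i).1 h2)
  · exact hj ((coordFun_eq_zero_iff P j).1 h2)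

/-- The Jacobian of a chart with respect to the fixed pair of coordinate ratios is the quotient of two forms. -/
theorem exists_jacobian_form {z : Fin 2 → FunField P} (hz : IsTranscendenceBasis ℂ z)
    {t₀ : Fin 3 → Fin (N + 1)} (ht₀ : X (t₀ 0) ∉ P)
    (hb₀ : IsTranscendenceBasis ℂ ![ratio P (t₀ 1) (t₀ 0), ratio P (t₀ 2) (t₀ 0)])
    (t : Fin 3 → Fin (N + 1)) :
    ∃ (e : ℕ) (R : MvPolynomial (Fin (N + 1)) ℂ), R.IsHomogeneous e ∧ R ∉ P ∧
      ∀ (x : Fin (N + 1) → ℂ) (σ : ℂ × ℂ → Fin (N + 1) → ℂ), CChart P x t σ → x (t₀ 0) ≠ 0 →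
        eval x R ≠ 0 → D3 t₀ x (d1 σ 0) (d2 σ 0) ≠ 0 := by
  by_cases hex : ∃ x σ, CChart P x t σ
  · obtain ⟨x, σ, hσ⟩ := hex
    obtain ⟨ht, hb⟩ := hσ.isTranscendenceBasis P hz
    obtain ⟨e, A, B, hA, hB, hBP, hmain⟩ := exists_jacobian P z hz ht₀ ht hb₀ hb
    have hAP : A ∉ P := (hmain x σ hσ).1
    refine ⟨e + e, A * B, hA.mul hB, fun h => ?_, fun y τ hτ hy hR hD => ?_⟩
    · rcases Ideal.IsPrime.mem_or_mem inferInstance h with h1 | h1
      · exact hAP h1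
      · exact hBP h1
    · have h1 := (hmain y τ hτ).2
      rw [hD, zero_mul] at h1
      rw [map_mul] at hR
      have h2 : eval y A ≠ 0 := left_ne_zero_of_mul hR
      exact (mul_ne_zero (pow_ne_zero 3 hy) h2) h1.symm
  · exact ⟨0, 1, isHomogeneous_one _ _, fun h => (Ideal.ne_top_iff_one P).1 Ideal.IsPrime.ne_top' h,
      fun x σ hσ => absurd ⟨x, σ, hσ⟩ hex⟩

theorem exists_form (hP : ∀ p ∈ P, ∀ n, homogeneousComponent n p ∈ P) {z : Fin 2 → FunField P}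
    (hz : IsTranscendenceBasis ℂ z)
    (hgt : IsLogGeneralType (K := FunField P) (k := 2) fun _ => False)
    (hsm : ∀ x ∈ cone P, ∃ t σ, CChart P x t σ) :
    ∃ (M : ℕ) (Om : (Fin (N + 1) → ℂ) → (Fin (N + 1) → ℂ) → (Fin (N + 1) → ℂ) → ℂ) (D₀ : ℕ)
      (Q₀ : MvPolynomial (Fin (N + 1)) ℂ), 1 ≤ M ∧ Q₀.IsHomogeneous D₀ ∧ Q₀ ∉ P ∧
      IsForm (cone P) M 1 Om ∧ NoZeros (cone P) {x | x ∈ cone P ∧ eval x Q₀ = 0} Om := by
  by_cases hne : (cone P).Nonempty
  swap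
  · have hemp : ∀ x, x ∉ cone P := fun x hx => hne ⟨x, hx⟩
    refine ⟨1, fun _ _ _ => 0, 0, 1, le_rfl, isHomogeneous_one _ _,
      fun h => (Ideal.ne_top_iff_one P).1 Ideal.IsPrime.ne_top' h, ⟨?_, ?_, ?_, ?_⟩, ?_⟩
    · exact fun x hx => absurd hx (hemp x)
    · exact fun x hx => absurd hx (hemp x)
    · exact fun x hx => absurd hx (hemp x)
    · exact fun φ p _ h => absurd h.self_of_nhds (hemp _)
    · exact fun x hx => absurd hx (hemp x)
  obtain ⟨x₀, hx₀⟩ := hne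
  obtain ⟨t₀, σ₀, hσ₀⟩ := hsm x₀ hx₀
  obtain ⟨ht₀, hb₀⟩ := hσ₀.isTranscendenceBasis P hz
  obtain ⟨ω, hω, M, H, o, hM, hH, ho, hpole⟩ := kodaira P z hz hgt
  obtain ⟨W, rfl⟩ := exists_form_mk hb₀ ω
  have hW : W ≠ 0 := by
    rintro rfl
    apply hω
    unfold Form.mk
    exact zero_smul _ _
  obtain ⟨d, A, B, hA, hB, hBP, hAP, hrep⟩ :=
    exists_hom_rep P z hz (H * ratio P (t₀ 0) o * W ^ M)
  have hAP' : A ∉ P := hAP (mul_ne_zero (mul_ne_zero hH (ratio_ne_zero P ht₀ ho)) (pow_ne_zero _ hW))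
  have hext : ∀ x t σ, CChart P x t σ → ∃ Φ, Ext M t₀ A (B * X (t₀ 0) ^ (3 * M + 1)) σ Φ 0 :=
    fun x t σ h => exists_ext P z hz ht₀ ho hpole hA hB hBP hrep h
  have hB' : (B * X (t₀ 0) ^ (3 * M + 1)).IsHomogeneous (d + 3 * M + 1) := by
    have := hB.mul (isHomogeneous_X_pow (R := ℂ) (t₀ 0) (3 * M + 1))
    rwa [← add_assoc] at this
  have hBP' : B * X (t₀ 0) ^ (3 * M + 1) ∉ P := by
    intro h
    rcases Ideal.IsPrime.mem_or_mem inferInstance h with h1 | h1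
    · exact hBP h1
    · exact ht₀ (Ideal.IsPrime.mem_of_pow_mem inferInstance _ h1)
  obtain ⟨Om, h1, h2⟩ := exists_om (P := P) hA hB' hsm hext
  have hform : IsForm (cone P) M 1 Om := isForm_om hP hA hB' hBP' hsm hext h1 h2
  choose e R hR hRP hRne using exists_jacobian_form P hz ht₀ hb₀
  set B' := B * X (t₀ 0) ^ (3 * M + 1) with hB'def
  have hprod : (∏ t, R t).IsHomogeneous (∑ t, e t) := IsHomogeneous.prod _ _ _ fun t _ => hR t
  have hprodP : (∏ t, R t) ∉ P := by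
    intro h
    obtain ⟨t, -, ht⟩ := (Ideal.IsPrime.prod_mem_iff (p := P)).1 h
    exact hRP t ht
  refine ⟨M, Om, (d + (d + 3 * M + 1)) + 1 + ∑ t, e t, A * B' * X (t₀ 0) * ∏ t, R t, hM,
    ((hA.mul hB').mul (isHomogeneous_X _ _)).mul hprod, fun h => ?_, hform, ?_⟩
  · rcases Ideal.IsPrime.mem_or_mem inferInstance h with h3 | h3
    · rcases Ideal.IsPrime.mem_or_mem inferInstance h3 with h4 | h4
      · rcases Ideal.IsPrime.mem_or_mem inferInstance h4 with h5 | h5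
        · exact hAP' h5
        · exact hBP' h5
      · exact ht₀ h4
    · exact hprodP h3
  · intro x hx hxB v hv w hw hind
    have hQ : eval x (A * B' * X (t₀ 0) * ∏ t, R t) ≠ 0 := fun h => hxB ⟨hx, h⟩
    rw [map_mul, map_mul, map_mul, eval_X, map_prod] at hQ
    have hQR := right_ne_zero_of_mul hQ
    have hQ1 := left_ne_zero_of_mul hQ
    have hx0 := right_ne_zero_of_mul hQ1
    have hQ2 := left_ne_zero_of_mul hQ1
    have hxA := left_ne_zero_of_mul hQ2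
    have hxB' := right_ne_zero_of_mul hQ2
    rw [Finset.prod_ne_zero_iff] at hQR
    obtain ⟨t, σ, hσ⟩ := hsm x hx
    obtain ⟨Φ, hΦ⟩ := hext x t σ hσ
    have hD := hRne t x σ hσ hx0 (hQR t (Finset.mem_univ t))
    have hnd : ¬ ∀ᶠ u in 𝓝 (0 : ℂ × ℂ), eval (σ u) B' = 0 := hσ.nd _ _ hB' hBP'
    have h3 : Om x (d1 σ 0) (d2 σ 0) = Φ 0 := h1 x hx σ 0 Φ hσ.an hσ.mem hσ.zero hΦ hnd
    have h4 := hΦ.2.self_of_nhds
    rw [hσ.zero] at h4
    have hΦ0 : Φ 0 ≠ 0 := by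
      intro h0
      rw [h0, mul_zero] at h4
      exact (mul_ne_zero hxA (pow_ne_zero M hD)) h4.symm
    obtain ⟨a, b, c, hvv⟩ := hσ.tan hv
    obtain ⟨a', b', c', hww⟩ := hσ.tan hw
    obtain ⟨s, C, hC⟩ := h2 x hx
    have h5 : Om x v w = (a * b' - b * a') ^ M * Om x (d1 σ 0) (d2 σ 0) := by
      rw [hC, hC, hvv, hww, D3_add_smul, D3_det, mul_pow]
      ring
    rw [h5, h3]
    refine mul_ne_zero (pow_ne_zero M fun hdet => ?_) hΦ0
    -- a linear relation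
    rw [Fintype.linearIndependent_iff] at hind
    by_cases hab : a = 0 ∧ b = 0
    · have h6 := hind ![-c, 1, 0] (by
        simp [Fin.sum_univ_three, hvv, hab.1, hab.2]) 1
      simp at h6
    · have h6 := hind ![-(c * b' - c' * b), b', -b] (by
        simp only [Fin.sum_univ_three, Matrix.cons_val_zero, Matrix.cons_val_one,
          Matrix.cons_val_two, Matrix.head_cons, Matrix.tail_cons]
        rw [hvv, hww]
        ext i
        simp only [Pi.add_apply, Pi.smul_apply, smul_eq_mul, Pi.zero_apply]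
        linear_combination (d1 σ 0 i) * hdet)
      have h7 := hind ![-(c' * a - c * a'), -a', a] (by
        simp only [Fin.sum_univ_three, Matrix.cons_val_zero, Matrix.cons_val_one,
          Matrix.cons_val_two, Matrix.head_cons, Matrix.tail_cons]
        rw [hvv, hww]
        ext i
        simp only [Pi.add_apply, Pi.smul_apply, smul_eq_mul, Pi.zero_apply]
        linear_combination (d2 σ 0 i) * hdet)
      apply hab
      have h8 := h6 2
      have h9 := h7 2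
      simp at h8 h9
      exact ⟨h9, h8⟩

end Pool.Agent.H68.KR

end
end

section

/-!
# KR MainG: open surfaces of log general type carry a section of `M (K + D) - H` with poles of order at most `M`

The boundary `D = X ∩ {H₀ = 0}` of the smooth surface `X` is an arbitrary curve.
-/

set_option autoImplicit false

open MvPolynomial Topology Filter
open Pool.Agent.H23.Fano (Form regularForms PrimeDivisorOver)
open Pool.Agent.H17LG.Variety (FunField ratio PoleAtMost IsLogGeneralType OnBoundary)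
open Pool.Agent.H17BP (Tan IsForm NoZeros)
open Pool.Agent.H17GT (coordFun)
open Pool.Agent.H36.BPL (PoleLE VanOff OpenPart)

noncomputable section

namespace Pool.Agent.H68.KR

variable {N : ℕ} (P : Ideal (MvPolynomial (Fin (N + 1)) ℂ))

/-- The part `H₀ ≠ 0` of the cone of `P`. -/
def openCone (H₀ : MvPolynomial (Fin (N + 1)) ℂ) : Set (Fin (N + 1) → ℂ) :=
  {x | x ∈ cone P ∧ eval x H₀ ≠ 0}

variable {P}

theorem openCone_subset (H₀ : MvPolynomial (Fin (N + 1)) ℂ) : openCone P H₀ ⊆ cone P :=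
  fun _ hx => hx.1

theorem openCone_smul (hP : ∀ p ∈ P, ∀ n, homogeneousComponent n p ∈ P) {e : ℕ}
    {H₀ : MvPolynomial (Fin (N + 1)) ℂ} (hH₀ : H₀.IsHomogeneous e) :
    ∀ x ∈ openCone P H₀, ∀ c : ℂ, c ≠ 0 → c • x ∈ openCone P H₀ := by
  intro x hx c hc
  refine ⟨cone_smul hP hx.1 hc, ?_⟩
  have h : eval (c • x) H₀ = c ^ e * eval x H₀ := eval₂_of_isHomogeneous (RingHom.id ℂ) hH₀ c x
  rw [h]
  exact mul_ne_zero (pow_ne_zero _ hc) hx.2

theorem openCone_open (H₀ : MvPolynomial (Fin (N + 1)) ℂ) :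
    ∀ x ∈ openCone P H₀, ∀ᶠ y in 𝓝 x, (∀ Q ∈ P, eval y Q = 0) → y ∈ openCone P H₀ := by
  intro x hx
  have h1 : ∀ᶠ y in 𝓝 x, eval y H₀ ≠ 0 :=
    (MvPolynomial.continuous_eval H₀).continuousAt.eventually_ne hx.2
  have h2 : ∀ᶠ y in 𝓝 x, y ≠ 0 := continuousAt_id.eventually_ne hx.1.1
  filter_upwards [h1, h2] with y h3 h4 h5
  exact ⟨⟨h4, h5⟩, h3⟩

variable {M a : ℕ} {t₀ : Fin 3 → Fin (N + 1)} {A B : MvPolynomial (Fin (N + 1)) ℂ}

/-- Local extensions exist along all analytic maps into the open part. -/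
theorem exists_ext_map {K : Set (Fin (N + 1) → ℂ)} (hA : A.IsHomogeneous a)
    (hB : B.IsHomogeneous (a + 3 * M + 1)) (hsm : ∀ x ∈ K, ∃ t σ, CChart P x t σ)
    (hext : ∀ x ∈ K, ∀ t σ, CChart P x t σ → ∃ Φ, Ext M t₀ A B σ Φ 0)
    {φ : ℂ × ℂ → Fin (N + 1) → ℂ} {p : ℂ × ℂ} (hφ : AnalyticAt ℂ φ p)
    (hφP : ∀ᶠ u in 𝓝 p, ∀ Q ∈ P, eval (φ u) Q = 0) (hφK : φ p ∈ K) :
    ∃ Ψ, Ext M t₀ A B φ Ψ p := by
  obtain ⟨t, σ, hch⟩ := hsm _ hφK
  obtain ⟨Φ, hΦ⟩ := hext _ hφK t σ hch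
  obtain ⟨κ, c, hκ, hc, hκ0, hc1, he⟩ := hch.param hφ rfl hφP
  refine ⟨_, Ext.comp hA hB hc (by rw [hc1]; exact one_ne_zero) hκ ?_ (Φ := Φ) ?_ he⟩
  · rw [hκ0]
    exact hch.an
  · rw [hκ0]
    exact hΦ

/-- The zero set of an analytic function which does not vanish near `p` contains no open set near `p`. -/
private theorem MainG_ident {f : ℂ × ℂ → ℂ} {p : ℂ × ℂ} (hf : AnalyticAt ℂ f p) (h0 : ¬ ∀ᶠ u in 𝓝 p, f u = 0) :
    ∀ᶠ q in 𝓝 p, ¬ ∀ᶠ u in 𝓝 q, f u = 0 := by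
  obtain ⟨r, hr, hB⟩ := Metric.eventually_nhds_iff_ball.1 hf.eventually_analyticAt
  filter_upwards [Metric.ball_mem_nhds p hr] with q hq hcon
  have h1 : AnalyticOnNhd ℂ f (Metric.ball p r) := fun u hu => hB u hu
  have h2 := h1.eqOn_zero_of_preconnected_of_eventuallyEq_zero
    (convex_ball p r).isPreconnected hq hcon
  refine h0 ?_
  filter_upwards [Metric.ball_mem_nhds p hr] with u hu
  exact h2 hu

/-- The pole estimate for maps, from the extension statement at the point `0`. -/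
private theorem MainG_pole {H₀ : MvPolynomial (Fin (N + 1)) ℂ} (hM : 1 ≤ M)
    (hA : A.IsHomogeneous a) (hB : B.IsHomogeneous (a + 3 * M + 1)) (hBP : B ∉ P)
    (hsm : ∀ x ∈ cone P, ∃ t σ, CChart P x t σ)
    (hext0 : ∀ (φ : ℂ × ℂ → Fin (N + 1) → ℂ), AnalyticAt ℂ φ 0 → (∀ᶠ u in 𝓝 (0 : ℂ × ℂ), φ u ∈ cone P) →
      ∀ G : List (ℂ × ℂ → ℂ), G.length = M → (∀ g ∈ G, AnalyticAt ℂ g 0) →
      (∀ g ∈ G, ∀ᶠ u in 𝓝 (0 : ℂ × ℂ), eval (φ u) H₀ = 0 → g u = 0) →
      ∃ Φ : ℂ × ℂ → ℂ, AnalyticAt ℂ Φ 0 ∧ ∀ᶠ u in 𝓝 (0 : ℂ × ℂ),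
        eval (φ u) B * Φ u = (G.map fun g => g u).prod * (eval (φ u) A * D3 t₀ (φ u) (d1 φ u) (d2 φ u) ^ M))
    (hext : ∀ x ∈ openCone P H₀, ∀ t σ, CChart P x t σ → ∃ Φ, Ext M t₀ A B σ Φ 0)
    {Om : (Fin (N + 1) → ℂ) → (Fin (N + 1) → ℂ) → (Fin (N + 1) → ℂ) → ℂ}
    (h1 : ∀ x ∈ openCone P H₀, ∀ (φ : ℂ × ℂ → Fin (N + 1) → ℂ) (p : ℂ × ℂ) (Φ : ℂ × ℂ → ℂ), AnalyticAt ℂ φ p →
        (∀ᶠ u in 𝓝 p, ∀ Q ∈ P, eval (φ u) Q = 0) → φ p = x → Ext M t₀ A B φ Φ p →
        (¬ ∀ᶠ u in 𝓝 p, eval (φ u) B = 0) → Om x (d1 φ p) (d2 φ p) = Φ p)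
    (h2 : ∀ x ∈ openCone P H₀, ∃ (t : Fin 3 → Fin (N + 1)) (C : ℂ), ∀ v w, Om x v w = C * D3 t x v w ^ M) :
    PoleLE (cone P) (openCone P H₀) M Om := by
  intro φ p hφ hφX G hG hGv
  by_cases hB0 : ∀ᶠ u in 𝓝 p, eval (φ u) B = 0
  · -- the map is degenerate
    have hdeg : ∀ s : Fin 3 → Fin (N + 1), ∀ᶠ u in 𝓝 p, D3 s (φ u) (d1 φ u) (d2 φ u) = 0 := by
      intro s
      by_contra hs
      exact nd_of_D3 P hsm hφ hφX hs _ B hB hBP hB0
    refine ⟨fun _ => 0, analyticAt_const, ?_⟩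
    filter_upwards [Filter.eventually_all.2 hdeg] with y hy hyK
    obtain ⟨t, C, hC⟩ := h2 (φ y) hyK
    have h3 : Om (φ y) (fderiv ℂ φ y (1, 0)) (fderiv ℂ φ y (0, 1)) = 0 := by
      rw [hC]
      have h4 := hy t
      unfold d1 d2 at h4
      rw [h4, zero_pow (by omega), mul_zero]
    rw [h3, mul_zero]
  -- the translated map
  have hpt : Tendsto (fun u : ℂ × ℂ => p + u) (𝓝 0) (𝓝 p) := by
    have h : Continuous fun u : ℂ × ℂ => p + u := by fun_prop
    have := h.tendsto 0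
    simpa using this
  have hmt : Tendsto (fun u : ℂ × ℂ => u - p) (𝓝 p) (𝓝 0) := by
    have h : Continuous fun u : ℂ × ℂ => u - p := by fun_prop
    have := h.tendsto p
    simpa using this
  have htan : AnalyticAt ℂ (fun u : ℂ × ℂ => p + u) 0 := analyticAt_const.add analyticAt_id
  have hman : AnalyticAt ℂ (fun u : ℂ × ℂ => u - p) p := analyticAt_id.sub analyticAt_const
  have hφ' : AnalyticAt ℂ (fun u => φ (p + u)) 0 :=
    AnalyticAt.fun_comp (g := φ) (f := fun u : ℂ × ℂ => p + u) (by simpa using hφ) htan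
  have hd1 : ∀ u, d1 (fun u => φ (p + u)) u = d1 φ (p + u) := by
    intro u
    unfold d1
    rw [fderiv_comp_add_left]
  have hd2 : ∀ u, d2 (fun u => φ (p + u)) u = d2 φ (p + u) := by
    intro u
    unfold d2
    rw [fderiv_comp_add_left]
  obtain ⟨Φ, hΦ1, hΦ2⟩ := hext0 (fun u => φ (p + u)) hφ' (hpt.eventually hφX)
    (G.map fun g => fun u => g (p + u)) (by rw [List.length_map, hG]) (by
      intro g' hg'
      obtain ⟨g, hg, rfl⟩ := List.mem_map.1 hg'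
      exact AnalyticAt.fun_comp (g := g) (f := fun u : ℂ × ℂ => p + u) (by simpa using (hGv g hg).1) htan) (by
      intro g' hg'
      obtain ⟨g, hg, rfl⟩ := List.mem_map.1 hg'
      filter_upwards [hpt.eventually (hGv g hg).2] with u hu h0
      exact hu fun hK => hK.2 h0)
  refine ⟨fun y => Φ (y - p), ?_, ?_⟩
  · exact AnalyticAt.fun_comp (g := Φ) (f := fun u : ℂ × ℂ => u - p) (by simpa using hΦ1) hman
  have hb : ∀ᶠ y in 𝓝 p, eval (φ y) B * Φ (y - p) =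
      (G.map fun g => g y).prod * (eval (φ y) A * D3 t₀ (φ y) (d1 φ y) (d2 φ y) ^ M) := by
    filter_upwards [hmt.eventually hΦ2] with y hy
    simp only [hd1, hd2, List.map_map, Function.comp_def, add_sub_cancel] at hy
    exact hy
  have hban : AnalyticAt ℂ (fun y => Φ (y - p)) p :=
    AnalyticAt.fun_comp (g := Φ) (f := fun u : ℂ × ℂ => u - p) (by simpa using hΦ1) hman
  have hGprod : AnalyticAt ℂ (fun u => (G.map fun g => g u).prod) p :=
    Pool.Agent.H36.BPL.analyticAt_listProd fun g hg => (hGv g hg).1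
  filter_upwards [hφ.eventually_analyticAt, hφX.eventually_nhds, hban.eventually_analyticAt,
    hb.eventually_nhds, MainG_ident (analyticAt_eval hφ B) hB0, hGprod.eventually_analyticAt] with u a1 a2 a3 a4 a5 a6 hu
  obtain ⟨Ψ, hΨ⟩ := exists_ext_map hA hB (fun x hx => hsm x hx.1) hext a1 (a2.mono fun y hy => hy.2) hu
  have h3 : Om (φ u) (d1 φ u) (d2 φ u) = Ψ u :=
    h1 (φ u) hu φ u Ψ a1 (a2.mono fun y hy => hy.2) rfl hΨ a5
  change Φ (u - p) = (G.map fun g => g u).prod * Om (φ u) (d1 φ u) (d2 φ u)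
  rw [h3]
  by_contra hne
  apply a5
  have hg : ContinuousAt (fun u => Φ (u - p) - (G.map fun g => g u).prod * Ψ u) u :=
    a3.continuousAt.sub (a6.continuousAt.mul hΨ.1.continuousAt)
  have hg0 : ∀ᶠ u' in 𝓝 u, Φ (u' - p) - (G.map fun g => g u').prod * Ψ u' ≠ 0 :=
    hg.eventually_ne (sub_ne_zero.2 hne)
  filter_upwards [hg0, a4, hΨ.2] with u' k1 k2 k3
  have h4 : eval (φ u') B * (Φ (u' - p) - (G.map fun g => g u').prod * Ψ u') = 0 := by
    linear_combination k2 - (G.map fun g => g u').prod * k3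
  exact (mul_eq_zero.1 h4).resolve_right k1

variable (P)

theorem exists_formG [P.IsPrime] (hP : ∀ p ∈ P, ∀ n, homogeneousComponent n p ∈ P)
    {z : Fin 2 → FunField P} (hz : IsTranscendenceBasis ℂ z)
    {e : ℕ} {H₀ : MvPolynomial (Fin (N + 1)) ℂ} (hH₀ : H₀.IsHomogeneous e)
    (hgt : IsLogGeneralType (K := FunField P) (k := 2) (OnBoundary P fun _ : Fin 1 => H₀))
    (hsm : ∀ x ∈ cone P, ∃ t σ, CChart P x t σ) :
    ∃ (M : ℕ) (Om : (Fin (N + 1) → ℂ) → (Fin (N + 1) → ℂ) → (Fin (N + 1) → ℂ) → ℂ) (D₀ : ℕ)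
      (Q₀ : MvPolynomial (Fin (N + 1)) ℂ), 1 ≤ M ∧ Q₀.IsHomogeneous D₀ ∧ Q₀ ∉ P ∧
      IsForm (openCone P H₀) M 1 Om ∧
      NoZeros (openCone P H₀) {x | x ∈ openCone P H₀ ∧ eval x Q₀ = 0} Om ∧
      PoleLE (cone P) (openCone P H₀) M Om := by
  have hKP : openCone P H₀ ⊆ cone P := openCone_subset H₀
  by_cases hne : (cone P).Nonempty
  swap
  · have hemp : ∀ x, x ∉ cone P := fun x hx => hne ⟨x, hx⟩
    have hemp' : ∀ x, x ∉ openCone P H₀ := fun x hx => hemp x hx.1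
    refine ⟨1, fun _ _ _ => 0, 0, 1, le_rfl, isHomogeneous_one _ _,
      fun h => (Ideal.ne_top_iff_one P).1 Ideal.IsPrime.ne_top' h, ⟨?_, ?_, ?_, ?_⟩, ?_, ?_⟩
    · exact fun x hx => absurd hx (hemp' x)
    · exact fun x hx => absurd hx (hemp' x)
    · exact fun x hx => absurd hx (hemp' x)
    · exact fun φ p _ h => absurd h.self_of_nhds (hemp' _)
    · exact fun x hx => absurd hx (hemp' x)
    · exact fun φ p _ h => absurd h.self_of_nhds (hemp _)
  obtain ⟨x₀, hx₀⟩ := hne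
  obtain ⟨t₀, σ₀, hσ₀⟩ := hsm x₀ hx₀
  obtain ⟨ht₀, hb₀⟩ := hσ₀.isTranscendenceBasis P hz
  obtain ⟨ω, hω, M, H, o, hM, hH, ho, hpole⟩ := kodaira_log P z hz hgt
  obtain ⟨W, rfl⟩ := exists_form_mk hb₀ ω
  have hW : W ≠ 0 := by
    rintro rfl
    apply hω
    unfold Form.mk
    exact zero_smul _ _
  obtain ⟨d, A, B, hA, hB, hBP, hAP, hrep⟩ :=
    exists_hom_rep P z hz (H * ratio P (t₀ 0) o * W ^ M)
  have hAP' : A ∉ P := hAP (mul_ne_zero (mul_ne_zero hH (ratio_ne_zero P ht₀ ho)) (pow_ne_zero _ hW))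
  have hextG := fun (φ : ℂ × ℂ → Fin (N + 1) → ℂ) (hφ : AnalyticAt ℂ φ 0)
      (hφX : ∀ᶠ u in 𝓝 (0 : ℂ × ℂ), φ u ∈ cone P) G hG hGan hG0 =>
    exists_extG P z hz hsm ht₀ ho hM hH₀ hpole hA hB hBP hrep hφ hφX G hG hGan hG0
  set B' := B * X (t₀ 0) ^ (3 * M + 1) with hB'def
  have hext : ∀ x ∈ openCone P H₀, ∀ t σ, CChart P x t σ → ∃ Φ, Ext M t₀ A B' σ Φ 0 := by
    intro x hx t σ h
    have hne0 : ∀ᶠ u in 𝓝 (0 : ℂ × ℂ), eval (σ u) H₀ ≠ 0 := by
      refine (analyticAt_eval h.an H₀).continuousAt.eventually_ne ?_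
      rw [h.zero]
      exact hx.2
    obtain ⟨Φ, h1, h2⟩ := hextG σ h.an h.mem_cone (List.replicate M fun _ => 1) List.length_replicate
      (fun g hg => by
        rw [List.eq_of_mem_replicate hg]
        exact analyticAt_const)
      (fun g hg => by
        filter_upwards [hne0] with u hu h0
        exact absurd h0 hu)
    refine ⟨Φ, h1, ?_⟩
    filter_upwards [h2] with u hu
    rw [hu, List.map_replicate, List.prod_replicate, one_pow, one_mul]
  have hB' : B'.IsHomogeneous (d + 3 * M + 1) := by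
    have := hB.mul (isHomogeneous_X_pow (R := ℂ) (t₀ 0) (3 * M + 1))
    rwa [← add_assoc] at this
  have hBP' : B' ∉ P := by
    intro h
    rcases Ideal.IsPrime.mem_or_mem inferInstance h with h1 | h1
    · exact hBP h1
    · exact ht₀ (Ideal.IsPrime.mem_of_pow_mem inferInstance _ h1)
  have hsmK : ∀ x ∈ openCone P H₀, ∃ t σ, CChart P x t σ := fun x hx => hsm x hx.1
  obtain ⟨Om, h1, h2⟩ := exists_omK (P := P) hKP hA hB' hsmK hext
  have hform : IsForm (openCone P H₀) M 1 Om :=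
    isForm_omK hKP (openCone_smul hP hH₀) (openCone_open H₀) hP hA hB' hBP' hsmK hext h1 h2
  choose e' R hR hRP hRne using exists_jacobian_form P hz ht₀ hb₀
  have hprod : (∏ t, R t).IsHomogeneous (∑ t, e' t) := IsHomogeneous.prod _ _ _ fun t _ => hR t
  have hprodP : (∏ t, R t) ∉ P := by
    intro h
    obtain ⟨t, -, ht⟩ := (Ideal.IsPrime.prod_mem_iff (p := P)).1 h
    exact hRP t ht
  refine ⟨M, Om, (d + (d + 3 * M + 1)) + 1 + ∑ t, e' t, A * B' * X (t₀ 0) * ∏ t, R t, hM,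
    ((hA.mul hB').mul (isHomogeneous_X _ _)).mul hprod, fun h => ?_, hform, ?_, ?_⟩
  · rcases Ideal.IsPrime.mem_or_mem inferInstance h with h3 | h3
    · rcases Ideal.IsPrime.mem_or_mem inferInstance h3 with h4 | h4
      · rcases Ideal.IsPrime.mem_or_mem inferInstance h4 with h5 | h5
        · exact hAP' h5
        · exact hBP' h5
      · exact ht₀ h4
    · exact hprodP h3
  · intro x hx hxB v hv w hw hind
    have hQ : eval x (A * B' * X (t₀ 0) * ∏ t, R t) ≠ 0 := fun h => hxB ⟨hx, h⟩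
    rw [map_mul, map_mul, map_mul, eval_X, map_prod] at hQ
    have hQR := right_ne_zero_of_mul hQ
    have hQ1 := left_ne_zero_of_mul hQ
    have hx0 := right_ne_zero_of_mul hQ1
    have hQ2 := left_ne_zero_of_mul hQ1
    have hxA := left_ne_zero_of_mul hQ2
    rw [Finset.prod_ne_zero_iff] at hQR
    obtain ⟨t, σ, hσ⟩ := hsmK x hx
    obtain ⟨Φ, hΦ⟩ := hext x hx t σ hσ
    have hD := hRne t x σ hσ hx0 (hQR t (Finset.mem_univ t))
    have hnd : ¬ ∀ᶠ u in 𝓝 (0 : ℂ × ℂ), eval (σ u) B' = 0 := hσ.nd _ _ hB' hBP'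
    have h3 : Om x (d1 σ 0) (d2 σ 0) = Φ 0 := h1 x hx σ 0 Φ hσ.an hσ.mem hσ.zero hΦ hnd
    have h4 := hΦ.2.self_of_nhds
    rw [hσ.zero] at h4
    have hΦ0 : Φ 0 ≠ 0 := by
      intro h0
      rw [h0, mul_zero] at h4
      exact (mul_ne_zero hxA (pow_ne_zero M hD)) h4.symm
    have htan : ∀ v ∈ Tan (openCone P H₀) x, v ∈ Tan (cone P) x := by
      rintro v ⟨γ, g1, g2, g3, g4⟩
      exact ⟨γ, g1, g2.mono fun z hz => hKP hz, g3, g4⟩
    obtain ⟨a, b, c, hvv⟩ := hσ.tan (htan v hv)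
    obtain ⟨a', b', c', hww⟩ := hσ.tan (htan w hw)
    obtain ⟨s, C, hC⟩ := h2 x hx
    have h5 : Om x v w = (a * b' - b * a') ^ M * Om x (d1 σ 0) (d2 σ 0) := by
      rw [hC, hC, hvv, hww, D3_add_smul, D3_det, mul_pow]
      ring
    rw [h5, h3]
    refine mul_ne_zero (pow_ne_zero M fun hdet => ?_) hΦ0
    -- a linear relation
    rw [Fintype.linearIndependent_iff] at hind
    by_cases hab : a = 0 ∧ b = 0
    · have h6 := hind ![-c, 1, 0] (by
        simp [Fin.sum_univ_three, hvv, hab.1, hab.2]) 1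
      simp at h6
    · have h6 := hind ![-(c * b' - c' * b), b', -b] (by
        simp only [Fin.sum_univ_three, Matrix.cons_val_zero, Matrix.cons_val_one,
          Matrix.cons_val_two, Matrix.head_cons, Matrix.tail_cons]
        rw [hvv, hww]
        ext i
        simp only [Pi.add_apply, Pi.smul_apply, smul_eq_mul, Pi.zero_apply]
        linear_combination (d1 σ 0 i) * hdet)
      have h7 := hind ![-(c' * a - c * a'), -a', a] (by
        simp only [Fin.sum_univ_three, Matrix.cons_val_zero, Matrix.cons_val_one,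
          Matrix.cons_val_two, Matrix.head_cons, Matrix.tail_cons]
        rw [hvv, hww]
        ext i
        simp only [Pi.add_apply, Pi.smul_apply, smul_eq_mul, Pi.zero_apply]
        linear_combination (d2 σ 0 i) * hdet)
      apply hab
      have h8 := h6 2
      have h9 := h7 2
      simp at h8 h9
      exact ⟨h9, h8⟩
  · exact MainG_pole hM hA hB' hBP' hsm hextG hext h1 h2

/-- **Kodaira's lemma for open surfaces**: the complement of an arbitrary curve in a smooth projective surface, of log general type, has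
a holomorphic section of `M (K + D) - H` for some `M ≥ 1`, without zeros outside a hypersurface section. -/
theorem exists_formG_of_smooth [P.IsPrime] (hP : Pool.Agent.H62.FC.Homog P) {z : Fin 2 → FunField P}
    (hz : IsTranscendenceBasis ℂ z) {e : ℕ} {H₀ : MvPolynomial (Fin (N + 1)) ℂ} (hH₀ : H₀.IsHomogeneous e)
    (hsm : ∀ y : Fin (N + 1) → ℂ, y ≠ 0 → (∀ Q ∈ P, eval y Q = 0) →
      Module.finrank ℂ (Pool.Agent.H13.SM.conTan P y) ≤ 2 + 1)
    (hgt : IsLogGeneralType (K := FunField P) (k := 2) (OnBoundary P fun _ : Fin 1 => H₀)) :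
    ∃ (M : ℕ) (Om : (Fin (N + 1) → ℂ) → (Fin (N + 1) → ℂ) → (Fin (N + 1) → ℂ) → ℂ) (D₀ : ℕ)
      (Q₀ : MvPolynomial (Fin (N + 1)) ℂ), 1 ≤ M ∧ Q₀.IsHomogeneous D₀ ∧ Q₀ ∉ P ∧
      IsForm (openCone P H₀) M 1 Om ∧
      NoZeros (openCone P H₀) {x | x ∈ openCone P H₀ ∧ eval x Q₀ = 0} Om ∧
      PoleLE (cone P) (openCone P H₀) M Om :=
  exists_formG P hP hz hH₀ hgt (exists_cchart hP hz hsm)

end Pool.Agent.H68.KR

end
end
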