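import Pool.Agent.H43.TL2.M102
import Pool.Agent.H43.TL2.M112
import Pool.Agent.H43.TL2.M38
import Pool.Agent.H43.TL2.M84

/-! The parts of this file: H36.BPL.Final, MQ3.GlobT, MQ3.GlobC, MQ3.UpN. -/

section

/-!
# BPL Final: complements of hypersurface sections in smooth projective surfaces
-/

set_option autoImplicit false

open Topology Filter MvPolynomial

noncomputable section

namespace Pool.Agent.H36.BPL

open Pool.Agent.H17 (PN VanishesAt ZariskiClosedIn HolomorphicInto puncturedDisc PseudoBrodyHyperbolic PseudoPicardHyperbolic)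
open Pool.Agent.H62.FC (Homog)
open Pool.Agent.H17R (openVar)
open Pool.Agent.H17BP (Surface IsChart IsForm NoZeros cone)
open Pool.Agent.H17LG.Variety (FunField OnBoundary IsLogGeneralType)
open Pool.Agent.H13.SM (conTan)

variable {N : ℕ} {P : Ideal (MvPolynomial (Fin (N + 1)) ℂ)}

theorem openCone_eq (H₀ : MvPolynomial (Fin (N + 1)) ℂ) :
    Pool.Agent.H68.KR.openCone P H₀ = coneK P fun _ : Fin 1 => H₀ := by
  ext x
  exact ⟨fun h => ⟨h.1, fun _ => h.2⟩, fun h => ⟨h.1, h.2 0⟩⟩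

end Pool.Agent.H36.BPL

end
end

section

/-!
# MQ3 GlobT: the tower of blow-ups
-/

set_option autoImplicit false

open Topology Filter

noncomputable section

namespace Pool.Agent.MQ3

open Pool.Agent.H17BP (Pr Surface NodalAt Tan Eqs IsChart ResAt eqs_blow thin_blow resAt_blow exists_forms exists_finset_of_isolated exists_resAt phi_pr surface_iff)
open Pool.Agent.H62.BU (blow total Ker phi)
open Pool.Agent.SY (Ent IsLiftB exists_liftB)

/-! ## no blow-up -/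

/-- If the curve has normal crossings there is nothing to do. -/
def NCSurf.base {V : Type} [NormedAddCommGroup V] [NormedSpace ℂ V] [FiniteDimensional ℂ V] {X B : Set V} (hX : Surface X) (hB : B ⊆ X)
    (hn : ∀ x ∈ X, NodalAt X B x) : NCSurf X B where
  V' := V
  Y := X
  κ := Unit
  L := fun _ => ContinuousLinearMap.id ℂ V
  surf := hX
  ex := fun y hy => ⟨(), fun h => hX.zero (by rw [← h]; exact hy)⟩
  mem := fun y hy _ _ => hy
  pr := fun y _ _ _ _ _ => ⟨1, one_ne_zero, (one_smul _ _).symm⟩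
  nodal := fun y hy => by
    have h1 : {y | y ∈ X ∧ ∀ _ : Unit, (ContinuousLinearMap.id ℂ V) y ≠ 0 → (ContinuousLinearMap.id ℂ V) y ∈ B} = B := by
      ext y
      constructor
      · rintro ⟨h1, h2⟩
        exact h2 () fun h => hX.zero (by rw [← h]; exact h1)
      · intro h1
        exact ⟨hB h1, fun _ _ => h1⟩
    rw [h1]
    exact hn y hy
  imm := fun y _ _ _ _ v _ h => h
  d := 1
  K := 1
  lift := fun F hF hFX _ => ⟨F, fun _ => 1, hF, hFX, differentiable_const _, ⟨0, one_ne_zero⟩, fun z => by simp,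
    fun z _ => ⟨1, (one_smul _ _).symm⟩⟩

/-! ## one blow-up -/

section

variable {V : Type} [NormedAddCommGroup V] [NormedSpace ℂ V] {ι : Type} [Fintype ι] {l : ι → V →L[ℂ] ℂ} {X B : Set V} {q : V}

/-- off the exceptional curve the projection of the blow-up is immersive -/
theorem imm_blow (hl : Ker l q) (hq : q ∈ B) (hB : ∀ x ∈ B, ∀ c : ℂ, c ≠ 0 → c • x ∈ B) {y : ι → V} (hy : y ∈ blow l X) {b : ι} (hb : y b ≠ 0)
    (hyB : y b ∉ B) {u : ι → V} (hu : u ∈ Tan (blow l X) y) {c₀ : ℂ} (h : u b = c₀ • y b) : u = c₀ • y := by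
  obtain ⟨b', hb'⟩ : ∃ b', l b' (y b) ≠ 0 := by
    by_contra hcon
    push Not at hcon
    obtain ⟨c, hc⟩ := (hl (y b)).mp hcon
    have hc0 : c ≠ 0 := by
      rintro rfl
      exact hb (by rw [hc, zero_smul])
    exact hyB (hc ▸ hB q hq c hc0)
  have h0 : l b (y b) ≠ 0 := Pool.Agent.H62.BU.ne_of_ne y hy hb hb'
  obtain ⟨γ, hγ, hγX, hγ0, hγ1⟩ := hu
  have hd : HasDerivAt γ u 0 := by
    rw [← hγ1]
    exact hγ.differentiableAt.hasDerivAt
  have hd' := hasDerivAt_pi.1 hd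
  funext c
  have h1 : HasDerivAt (fun z => l b (γ z b) • γ z c) (l b (γ 0 b) • u c + l b (u b) • γ 0 c) 0 :=
    ((l b).hasFDerivAt.comp_hasDerivAt (0 : ℂ) (hd' b)).smul (hd' c)
  have h2 : HasDerivAt (fun z => l c (γ z b) • γ z b) (l c (γ 0 b) • u b + l c (u b) • γ 0 b) 0 :=
    ((l c).hasFDerivAt.comp_hasDerivAt (0 : ℂ) (hd' b)).smul (hd' b)
  have h3 : (fun z => l b (γ z b) • γ z c) =ᶠ[𝓝 0] fun z => l c (γ z b) • γ z b := by
    filter_upwards [hγX] with z hz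
    have h4 := Pool.Agent.H62.BU.prop (γ z) hz (l b) b c
    rw [Pool.Agent.H62.BU.symm (γ z) hz b c] at h4
    exact h4
  have h4 := h1.unique (h2.congr_of_eventuallyEq h3)
  have h5 := h3.self_of_nhds
  simp only [hγ0] at h4 h5
  rw [h] at h4
  simp only [map_smul, smul_eq_mul] at h4
  have h6 : l b (y b) • u c = l b (y b) • (c₀ • y c) := by
    have h7 : (c₀ * l b (y b)) • y c = c₀ • (l c (y b) • y b) := by rw [← h5, smul_smul]
    rw [h7, smul_smul, smul_smul] at h4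
    have h8 : l b (y b) • u c = (l c (y b) * c₀) • y b + (c₀ * l c (y b)) • y b - (c₀ * l c (y b)) • y b := by
      rw [← h4]
      abel
    rw [h8, add_sub_cancel_right, smul_comm, h5, smul_smul, mul_comm]
  have h7 := smul_right_injective V h0 h6
  simpa using h7

/-- the tangent vectors of `Y` are mapped to tangent vectors -/
theorem NCSurf.tan (S : NCSurf X B) {y : S.V'} {a : S.κ} (ha : S.L a y ≠ 0) {v : S.V'} (hv : v ∈ Tan S.Y y) : S.L a v ∈ Tan X (S.L a y) := by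
  obtain ⟨γ, hγ, hγX, hγ0, hγ1⟩ := hv
  have h1 : AnalyticAt ℂ (fun z => S.L a (γ z)) 0 := ((S.L a).analyticAt _).comp hγ
  refine ⟨fun z => S.L a (γ z), h1, ?_, congrArg (S.L a) hγ0, ?_⟩
  · have h2 : ∀ᶠ z in 𝓝 (0 : ℂ), S.L a (γ z) ≠ 0 := h1.continuousAt.eventually_ne (by rw [hγ0]; exact ha)
    filter_upwards [hγX, h2] with z h3 h4
    exact S.mem _ h3 a h4
  · rw [← hγ1]
    exact ((S.L a).hasFDerivAt.comp_hasDerivAt (0 : ℂ) hγ.differentiableAt.hasDerivAt).deriv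

private theorem phi_bound (l : ι → V →L[ℂ] ℂ) : ∃ C : ℝ, 0 ≤ C ∧ ∀ x : V, ‖phi l x‖ ≤ C * ‖x‖ ^ 2 := by
  refine ⟨∑ b, ‖l b‖, Finset.sum_nonneg fun b _ => norm_nonneg _, fun x => ?_⟩
  refine (pi_norm_le_iff_of_nonneg (mul_nonneg (Finset.sum_nonneg fun b _ => norm_nonneg _) (by positivity))).2 fun b => ?_
  show ‖l b x • x‖ ≤ _
  rw [norm_smul]
  calc ‖l b x‖ * ‖x‖ ≤ (‖l b‖ * ‖x‖) * ‖x‖ := mul_le_mul_of_nonneg_right ((l b).le_opNorm x) (norm_nonneg x)
    _ = ‖l b‖ * ‖x‖ ^ 2 := by ring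
    _ ≤ (∑ b, ‖l b‖) * ‖x‖ ^ 2 := mul_le_mul_of_nonneg_right
        (Finset.single_le_sum (f := fun b => ‖l b‖) (fun b _ => norm_nonneg _) (Finset.mem_univ b)) (by positivity)

/-- a product of entire functions which are not `0` -/
private theorem exists_mul_ne {f g : ℂ → ℂ} (hf : Differentiable ℂ f) (hf0 : ∃ z, f z ≠ 0) (hg : Differentiable ℂ g) (hg0 : ∃ z, g z ≠ 0) (n : ℕ) :
    ∃ z, f z ^ n * g z ≠ 0 := by
  obtain ⟨z₁, h1⟩ := hg0
  have h2 : ∀ᶠ z in 𝓝 z₁, g z ≠ 0 := hg.continuous.continuousAt.eventually_ne h1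
  have h3 : ∃ᶠ z in 𝓝 z₁, f z ≠ 0 := by
    intro h4
    simp only [not_not] at h4
    have h5 : f = 0 := by
      have h6 : AnalyticOnNhd ℂ f Set.univ := fun z _ => hf.analyticAt z
      exact h6.eq_of_eventuallyEq (fun z _ => analyticAt_const) h4
    obtain ⟨z₀, h0⟩ := hf0
    exact h0 (congrFun h5 z₀)
  obtain ⟨z, h4, h5⟩ := (h3.and_eventually h2).exists
  exact ⟨z, mul_ne_zero (pow_ne_zero _ h4) h5⟩

omit [Fintype ι] in
/-- the components of the lift are proportional to the curve -/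
private theorem lift_prop {F : ℂ → V} (hF : Differentiable ℂ F) (hF0 : ∀ z, F z ≠ 0) {Φ : ℂ → ι → V} (hΦ : Differentiable ℂ Φ) {h : ℂ → ℂ}
    (hh : Differentiable ℂ h) (hh0 : ∃ z, h z ≠ 0) (he : ∀ z, phi l (F z) = h z • Φ z) (z : ℂ) (b : ι) : ∃ c : ℂ, Φ z b = c • F z := by
  obtain ⟨Λ, hΛ⟩ := exists_dual_vector ℂ (F z) (norm_ne_zero_iff.mpr (hF0 z))
  have hΛ0 : Λ (F z) ≠ 0 := by
    rw [hΛ.2]
    simpa using hF0 z
  have h1 : ∀ᶠ w in 𝓝[≠] z, h w ≠ 0 := by
    rcases (hh.analyticAt z).eventually_eq_zero_or_eventually_ne_zero with h2 | h2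
    · exfalso
      have h6 : AnalyticOnNhd ℂ h Set.univ := fun z _ => hh.analyticAt z
      have h5 : h = 0 := h6.eq_of_eventuallyEq (fun z _ => analyticAt_const) h2
      obtain ⟨z₀, h0⟩ := hh0
      exact h0 (congrFun h5 z₀)
    · exact h2
  have hb : Continuous fun w => Φ w b := (continuous_apply b).comp hΦ.continuous
  have h2 : Λ (F z) • Φ z b = Λ (Φ z b) • F z := by
    have h3 : Tendsto (fun w => Λ (F w) • Φ w b) (𝓝[≠] z) (𝓝 (Λ (F z) • Φ z b)) :=
      (((Λ.continuous.comp hF.continuous).smul hb).tendsto z).mono_left nhdsWithin_le_nhds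
    have h4 : Tendsto (fun w => Λ (Φ w b) • F w) (𝓝[≠] z) (𝓝 (Λ (Φ z b) • F z)) :=
      (((Λ.continuous.comp hb).smul hF.continuous).tendsto z).mono_left nhdsWithin_le_nhds
    refine tendsto_nhds_unique_of_eventuallyEq h3 h4 ?_
    filter_upwards [h1] with w hw
    have h5 : h w • Φ w b = l b (F w) • F w := (congrFun (he w) b).symm
    have h6 : Φ w b = ((h w)⁻¹ * l b (F w)) • F w := by
      rw [mul_smul, ← h5, smul_smul, inv_mul_cancel₀ hw, one_smul]
    rw [h6, map_smul, smul_eq_mul, smul_smul, mul_comm]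
  refine ⟨(Λ (F z))⁻¹ * Λ (Φ z b), ?_⟩
  rw [mul_smul, ← h2, smul_smul, inv_mul_cancel₀ hΛ0, one_smul]

/-- A surface over the blow-up is a surface over `X`. -/
def NCSurf.down (hX : Surface X) (hBX : B ⊆ X) (hB : ∀ x ∈ B, ∀ c : ℂ, c ≠ 0 → c • x ∈ B) (hl : Ker l q) (hq : q ∈ B)
    (S : NCSurf (blow l X) (total l X B)) : NCSurf X B where
  V' := S.V'
  Y := S.Y
  κ := S.κ × ι
  L := fun a => (ContinuousLinearMap.proj (R := ℂ) (φ := fun _ : ι => V) a.2).comp (S.L a.1)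
  surf := S.surf
  ex := fun y hy => by
    obtain ⟨a, ha⟩ := S.ex y hy
    obtain ⟨b, hb⟩ : ∃ b, S.L a y b ≠ 0 := by
      by_contra hcon
      push Not at hcon
      exact ha (funext hcon)
    exact ⟨(a, b), hb⟩
  mem := fun y hy a ha => by
    have h1 : S.L a.1 y ≠ 0 := fun h => ha (congrFun h a.2)
    exact Pool.Agent.H62.BU.comp_mem (surface_iff.2 hX) _ (S.mem y hy a.1 h1) ha
  pr := fun y hy a b ha hb => by
    have h1 : S.L a.1 y ≠ 0 := fun h => ha (congrFun h a.2)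
    have h2 : S.L b.1 y ≠ 0 := fun h => hb (congrFun h b.2)
    obtain ⟨c, hc, h3⟩ := S.pr y hy a.1 b.1 h1 h2
    have h4 : S.L b.1 y a.2 ≠ 0 := by
      intro h5
      refine ha ?_
      show S.L a.1 y a.2 = 0
      rw [h3]
      show c • S.L b.1 y a.2 = 0
      rw [h5, smul_zero]
    obtain ⟨c', hc'⟩ := Pool.Agent.H62.BU.comp_smul _ (S.mem y hy b.1 h2) hb a.2
    have hc'0 : c' ≠ 0 := by
      rintro rfl
      exact h4 (by rw [hc']; exact zero_smul _ _)
    refine ⟨c * c', mul_ne_zero hc hc'0, ?_⟩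
    show S.L a.1 y a.2 = (c * c') • S.L b.1 y b.2
    rw [h3]
    show c • S.L b.1 y a.2 = _
    rw [hc', smul_smul]
  nodal := fun y hy => by
    have h1 : {y | y ∈ S.Y ∧ ∀ a : S.κ × ι, ((ContinuousLinearMap.proj (R := ℂ) (φ := fun _ : ι => V) a.2).comp (S.L a.1)) y ≠ 0 →
        ((ContinuousLinearMap.proj (R := ℂ) (φ := fun _ : ι => V) a.2).comp (S.L a.1)) y ∈ B} =
        {y | y ∈ S.Y ∧ ∀ a, S.L a y ≠ 0 → S.L a y ∈ total l X B} := by
      ext y
      constructor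
      · rintro ⟨h1, h2⟩
        exact ⟨h1, fun a ha => ⟨S.mem y h1 a ha, fun b hb => h2 (a, b) hb⟩⟩
      · rintro ⟨h1, h2⟩
        refine ⟨h1, fun a ha => ?_⟩
        have h3 : S.L a.1 y ≠ 0 := fun h => ha (congrFun h a.2)
        exact (h2 a.1 h3).2 a.2 ha
    rw [h1]
    exact S.nodal y hy
  imm := fun y hy a ha haB v hv h => by
    have h1 : S.L a.1 y ≠ 0 := fun h => ha (congrFun h a.2)
    obtain ⟨c, hc⟩ := h
    have h2 := imm_blow hl hq hB (S.mem y hy a.1 h1) ha haB (S.tan h1 hv) hc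
    refine S.imm y hy a.1 h1 (fun h3 => haB (h3.2 a.2 ha)) v hv ⟨c, h2⟩
  d := 2 * S.d
  K := |S.K| * (phi_bound l).choose ^ S.d
  lift := fun F hF hFX hFB => by
    have hF0 : ∀ z, F z ≠ 0 := fun z h => hX.zero (h ▸ hFX z)
    obtain ⟨Φ, ⟨hΦd, hΦm, z₁, hz₁⟩, h, hh, he⟩ := exists_liftB hX hl hBX hB hq (F := F) ⟨hF, hFX, hFB⟩
    have hh0 : ∃ z, h z ≠ 0 := by
      obtain ⟨z₀, hz₀⟩ := hFB
      refine ⟨z₀, fun h1 => ?_⟩
      have h2 : phi l (F z₀) = 0 := by rw [he, h1, zero_smul]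
      refine Pool.Agent.H62.BU.phi_ne (l := l) (x := F z₀) ?_ h2
      by_contra hcon
      push Not at hcon
      obtain ⟨c, hc⟩ := (hl (F z₀)).mp hcon
      have hc0 : c ≠ 0 := by
        rintro rfl
        exact hF0 z₀ (by rw [hc, zero_smul])
      exact hz₀ (hc ▸ hB q hq c hc0)
    obtain ⟨F', h', h1, h2, h3, h4, h5, h6⟩ := S.lift Φ hΦd hΦm ⟨z₁, hz₁⟩
    refine ⟨F', fun z => h z ^ S.d * h' z, h1, h2, (hh.pow S.d).mul h3, exists_mul_ne hh hh0 h3 h4 S.d, fun z => ?_, fun z a => ?_⟩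
    · obtain ⟨hC, hC'⟩ := (phi_bound l).choose_spec
      set C := (phi_bound l).choose
      set d := S.d
      set K := S.K
      have h7 : ‖h z‖ * ‖Φ z‖ ≤ C * ‖F z‖ ^ 2 := by
        rw [← norm_smul, ← he]
        exact hC' _
      calc ‖h z ^ d * h' z‖ * ‖F' z‖ = ‖h z‖ ^ d * (‖h' z‖ * ‖F' z‖) := by rw [norm_mul, norm_pow]; ring
        _ ≤ ‖h z‖ ^ d * (K * ‖Φ z‖ ^ d) := mul_le_mul_of_nonneg_left (h5 z) (by positivity)
        _ ≤ ‖h z‖ ^ d * (|K| * ‖Φ z‖ ^ d) := by gcongr; exact le_abs_self K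
        _ = |K| * (‖h z‖ * ‖Φ z‖) ^ d := by rw [mul_pow]; ring
        _ ≤ |K| * (C * ‖F z‖ ^ 2) ^ d := by gcongr
        _ = |K| * C ^ d * ‖F z‖ ^ (2 * d) := by rw [mul_pow, ← pow_mul]; ring
    · obtain ⟨c, hc⟩ := h6 z a.1
      obtain ⟨c', hc'⟩ := lift_prop (l := l) hF hF0 hΦd hh hh0 he z a.2
      refine ⟨c * c', ?_⟩
      show S.L a.1 (F' z) a.2 = _
      rw [hc]
      show c • Φ z a.2 = _
      rw [hc', smul_smul]

end

/-! ## the induction -/

/-- the statement for curves which are resolved by `n` blow-ups over every point -/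
private def GN (n : ℕ) : Prop :=
  ∀ (V : Type) [NormedAddCommGroup V] [NormedSpace ℂ V] [FiniteDimensional ℂ V] (X B : Set V) (κ : Type) [Fintype κ] (Q : κ → V → ℂ) (D : ℕ),
    Surface X → Eqs X B Q D → (∀ σ τ, IsChart X σ τ → ∃ᶠ p in 𝓝 (0 : ℂ × ℂ), σ p ∉ B) → (∀ x ∈ X, ResAt X B x n) → Nonempty (NCSurf X B)

private theorem gN_zero : GN 0 := by
  intro V _ _ _ X B κ _ Q D hX hE ht h0
  exact ⟨NCSurf.base hX hE.sub fun x hx => (h0 x hx).nodal⟩

private theorem gN_step {n : ℕ} (ih : GN n) : ∀ (k : ℕ) (V : Type) [NormedAddCommGroup V] [NormedSpace ℂ V] [FiniteDimensional ℂ V] (X B : Set V)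
    (κ : Type) [Fintype κ] (Q : κ → V → ℂ) (D : ℕ), Surface X → Eqs X B Q D → (∀ σ τ, IsChart X σ τ → ∃ᶠ p in 𝓝 (0 : ℂ × ℂ), σ p ∉ B) →
    (∀ x ∈ X, ResAt X B x (n + 1)) → (∃ F : Finset V, F.card ≤ k ∧ ∀ x ∈ X, ResAt X B x n ∨ ∃ q ∈ F, Pr x q) → Nonempty (NCSurf X B) := by
  intro k
  induction k with
  | zero =>
    intro V _ _ _ X B κ _ Q D hX hE ht h0 hF
    obtain ⟨F, hF1, hF2⟩ := hF
    have hF0 : F = ∅ := Finset.card_eq_zero.1 (by omega)
    refine ih V X B κ Q D hX hE ht fun x hx => ?_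
    rcases hF2 x hx with h1 | ⟨q, hq, -⟩
    · exact h1
    · rw [hF0] at hq
      simp at hq
  | succ k ihk =>
    intro V _ _ _ X B κ _ Q D hX hE ht h0 hF
    obtain ⟨F, hF1, hF2⟩ := hF
    have hXs := hX.smul
    have hB := hE.cone hX.smul
    by_cases hall : ∀ x ∈ X, ResAt X B x n
    · exact ih V X B κ Q D hX hE ht hall
    push Not at hall
    obtain ⟨x₀, hx₀, hx₀n⟩ := hall
    rcases hF2 x₀ hx₀ with h1 | ⟨q, hqF, hxq⟩
    · exact absurd h1 hx₀n
    have hqX : q ∈ X := (hxq.mem_iff hXs).1 hx₀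
    have hqn : ¬ ResAt X B q n := fun h1 => hx₀n (h1.pr hXs hB hxq)
    have hq0 : ¬ ResAt X B q 0 := fun h1 => hqn (h1.mono_le (Nat.zero_le n))
    have hqB : q ∈ B := by
      by_contra hqB
      exact hq0 (ResAt.of_notMem hX hE hqX hqB)
    have hqne : q ≠ 0 := fun e => hX.zero (e ▸ hqX)
    obtain ⟨r, l, hl⟩ := exists_forms hqne
    classical
    have key : Nonempty (NCSurf (blow l X) (total l X B)) := by
      refine ihk (Fin r → V) (blow l X) (total l X B) (κ × Fin r) _ D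
        (surface_iff.1 (Pool.Agent.H62.BU.surface_blow (surface_iff.2 hX) hl hqX)) (eqs_blow hX hE)
        (fun σ τ h' => thin_blow hX hE ht hl hqB h') ?_ ⟨(F.erase q).image (phi l), ?_, ?_⟩
      · intro y hy
        rcases resAt_blow hX hE hl hqB (h0 q hqX) hq0 hy with h1 | ⟨x, hx, -, -, h2⟩
        · exact h1.mono_le (Nat.le_succ n)
        · exact h2 _ (h0 x hx)
      · have h1 := Finset.card_image_le (s := F.erase q) (f := phi l)
        have h2 := Finset.card_erase_of_mem hqF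
        omega
      · intro y hy
        rcases resAt_blow hX hE hl hqB (h0 q hqX) hq0 hy with h1 | ⟨x, hx, hxq', hyx, h2⟩
        · exact Or.inl h1
        · rcases hF2 x hx with h3 | ⟨q', hq'F, hxq''⟩
          · exact Or.inl (h2 _ h3)
          · refine Or.inr ⟨phi l q', Finset.mem_image_of_mem _ (Finset.mem_erase.2 ⟨?_, hq'F⟩),
              hyx.trans (phi_pr hxq'')⟩
            rintro rfl
            exact hxq' hxq''
    obtain ⟨S⟩ := key
    exact ⟨S.down hX hE.sub hB hl hqB⟩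

private theorem exists_finset {V : Type} [NormedAddCommGroup V] [NormedSpace ℂ V] [FiniteDimensional ℂ V]
    {X B : Set V} {κ : Type} {Q : κ → V → ℂ} {D : ℕ} (hX : Surface X) (hE : Eqs X B Q D) (ht : ∀ σ τ, IsChart X σ τ → ∃ᶠ p in 𝓝 (0 : ℂ × ℂ), σ p ∉ B) :
    ∃ F : Finset V, (∀ q ∈ F, q ∈ X) ∧ ∀ x ∈ X, ResAt X B x 0 ∨ ∃ q ∈ F, Pr x q := by
  have hXs := hX.smul
  have hB := hE.cone hX.smul
  refine exists_finset_of_isolated hX (fun x y hxy hy => hy.pr hXs hB hxy) fun x hx => ?_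
  obtain ⟨n, hn⟩ := exists_resAt hX hE ht hx
  exact hn.near hXs hB

private theorem gN (n : ℕ) : GN n := by
  induction n with
  | zero => exact gN_zero
  | succ n ih =>
    intro V _ _ _ X B κ _ Q D hX hE ht h0
    obtain ⟨F, -, hF⟩ := exists_finset hX hE ht
    refine gN_step ih F.card V X B κ Q D hX hE ht h0 ⟨F, le_rfl, fun x hx => ?_⟩
    rcases hF x hx with h1 | h1
    · exact Or.inl (h1.mono_le (Nat.zero_le n))
    · exact Or.inr h1

/-- **Embedded resolution** of a curve in a closed surface. -/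
theorem exists_ncSurf {V : Type} [NormedAddCommGroup V] [NormedSpace ℂ V] [FiniteDimensional ℂ V] {X B : Set V} {κ : Type} [Fintype κ]
    {Q : κ → V → ℂ} {D : ℕ} (hX : Surface X) (hE : Eqs X B Q D) (ht : ∀ σ τ, IsChart X σ τ → ∃ᶠ p in 𝓝 (0 : ℂ × ℂ), σ p ∉ B) :
    Nonempty (NCSurf X B) := by
  classical
  have hXs := hX.smul
  have hB := hE.cone hX.smul
  obtain ⟨F, hFX, hF⟩ := exists_finset hX hE ht
  have h1 : ∀ q : V, ∃ n, q ∈ F → ResAt X B q n := by
    intro q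
    by_cases hq : q ∈ F
    · obtain ⟨n, hn⟩ := exists_resAt hX hE ht (hFX q hq)
      exact ⟨n, fun _ => hn⟩
    · exact ⟨0, fun h2 => absurd h2 hq⟩
  choose n hn using h1
  refine gN (F.sup n) V X B κ Q D hX hE ht fun x hx => ?_
  rcases hF x hx with h2 | ⟨q, hq, hxq⟩
  · exact h2.mono_le (Nat.zero_le _)
  · exact ((hn q hq).mono_le (Finset.le_sup (f := n) hq)).pr hXs hB hxq

end Pool.Agent.MQ3

end
end

section

/-!
# MQ3 GlobC: embedded resolution of a hypersurface section of a smooth projective surface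
-/

set_option autoImplicit false

open Topology Filter MvPolynomial

noncomputable section

namespace Pool.Agent.MQ3

open Pool.Agent.H36.BP (EN)
open Pool.Agent.H17BP (Surface NodalAt IsChart)
open Pool.Agent.H17EF (coneE)
open Pool.Agent.H62.FC (Homog)
open Pool.Agent.H17LG.Variety (FunField)
open Pool.Agent.H13.SM (conTan)

variable {M : ℕ} {P : Ideal (MvPolynomial (Fin (M + 1)) ℂ)}

/-- the part `{RD = 0}` of the cone -/
def zer (P : Ideal (MvPolynomial (Fin (M + 1)) ℂ)) (RD : MvPolynomial (Fin (M + 1)) ℂ) : Set (EN M) := {x | x ∈ coneE P ∧ eval x.ofLp RD = 0}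

theorem exists_ncSurf_cone [P.IsPrime] (hP : Homog P) {z : Fin 2 → FunField P} (hz : IsTranscendenceBasis ℂ z)
    (hsm : ∀ y : Fin (M + 1) → ℂ, y ≠ 0 → (∀ Q ∈ P, eval y Q = 0) → Module.finrank ℂ (conTan P y) ≤ 3)
    {RD : MvPolynomial (Fin (M + 1)) ℂ} {d : ℕ} (hd : RD.IsHomogeneous d) (hR : RD ∉ P) : Nonempty (NCSurf (coneE P) (zer P RD)) := by
  have hX : Surface (coneE P) := Pool.Agent.H90.SG.surface_coneE hP hz hsm
  rcases Nat.eq_zero_or_pos d with rfl | hd0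
  · have h1 : RD = C (coeff 0 RD) := by
      rcases eq_or_ne RD 0 with h0 | h0
      · rw [h0]
        simp
      · exact totalDegree_eq_zero_iff_eq_C.1 (hd.totalDegree h0)
    have h2 : coeff 0 RD ≠ 0 := by
      intro h3
      rw [h3, C_0] at h1
      exact hR (by rw [h1]; exact P.zero_mem)
    have h3 : zer P RD = ∅ := by
      ext x
      simp only [zer, Set.mem_setOf_eq, Set.mem_empty_iff_false, iff_false, not_and]
      intro _ h4
      rw [h1, eval_C] at h4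
      exact h2 h4
    rw [h3]
    refine ⟨NCSurf.base hX (Set.empty_subset _) fun x hx => ?_⟩
    obtain ⟨σ, τ, hσ, hσ0⟩ := hX.chart x hx
    exact ⟨σ, τ, hσ, hσ0, Or.inl (Eventually.of_forall fun p => Set.notMem_empty _)⟩
  · refine exists_ncSurf hX (Pool.Agent.H90.SG.eqs_coneE hd0 hd) fun σ τ h => ?_
    have h1 := Pool.Agent.H90.SG.thin_coneE hP hz hsm hd hR h
    exact h1.mono fun p hp h2 => hp h2.2

end Pool.Agent.MQ3

end
end

section

/-!
# MQ3 UpN: the upper bound of the potential of a box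
-/

set_option autoImplicit false

open Topology Filter Metric MvPolynomial MeasureTheory Laplacian

noncomputable section

namespace Pool.Agent.MQ3

open Pool.Agent.H36.BP (EN fs)
open Pool.Agent.H14.PP (Tan)
open Pool.Agent.H17BP (Surface IsForm)
open Pool.Agent.H17EF (projVar coneE)

open Pool.Agent.H30M (tau LogSing rhoR)
open Pool.Agent.MQ (lam En ztv dvg gr dv Pack)

variable {M : ℕ} {P : Ideal (MvPolynomial (Fin (M + 1)) ℂ)} {RD : MvPolynomial (Fin (M + 1)) ℂ} {m : ℕ} {X : NCModel P RD} {θ : WDiff (coneE P) m}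
  {l : LF M} {S : Web X θ l} {Ra : MvPolynomial (Fin (M + 1)) ℂ} {Wf : EN M → EN M → EN M → ℂ} {mK jH : ℕ}

theorem norm_vec3_le (a b c : ℂ) : ‖(WithLp.toLp 2 ![a, b, c] : EN 2)‖ ≤ ‖a‖ + ‖b‖ + ‖c‖ := by
  rw [EuclideanSpace.norm_eq, Real.sqrt_le_left (by positivity)]
  have h : (∑ i : Fin (2 + 1), ‖(WithLp.toLp 2 ![a, b, c] : EN 2) i‖ ^ 2) = ‖a‖ ^ 2 + ‖b‖ ^ 2 + ‖c‖ ^ 2 :=
    (Fin.sum_univ_three fun i => ‖(WithLp.toLp 2 ![a, b, c] : EN 2) i‖ ^ 2).trans rfl
  rw [h]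
  nlinarith [norm_nonneg a, norm_nonneg b, norm_nonneg c, mul_nonneg (norm_nonneg a) (norm_nonneg b), mul_nonneg (norm_nonneg a) (norm_nonneg c),
    mul_nonneg (norm_nonneg b) (norm_nonneg c)]

theorem ncpt_bound {K : Set (ℂ × ℂ)} (hK : IsCompact K) {V : Type} [NormedAddCommGroup V] {f : ℂ × ℂ → V} (hf : ContinuousOn f K) :
    ∃ C : ℝ, 0 ≤ C ∧ ∀ p ∈ K, ‖f p‖ ≤ C := by
  obtain ⟨C, hC⟩ := hK.exists_bound_of_continuousOn hf
  exact ⟨max C 0, le_max_right _ _, fun p hp => (hC p hp).trans (le_max_left _ _)⟩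

/-- the vector of a box is bounded by the velocity -/
theorem hN_le (C : Cov S Ra) (k : Fin C.nN) : ∃ C₁ : ℝ, 0 ≤ C₁ ∧ ∀ p ∈ closedBall (C.y k) (C.t k), ∀ w, ‖C.H k p w‖ ≤ C₁ * ‖w‖ := by
  have hsub : ∀ p ∈ closedBall (C.y k) (C.t k), p ∈ DD := fun p hp => X.sub _ (C.N_sub k hp)
  unfold Cov.H
  rcases hu : C.u k with _ | u
  · refine ⟨2, by norm_num, fun p hp w => ?_⟩
    show ‖hA p w‖ ≤ 2 * ‖w‖
    unfold hA
    refine (norm_vec3_le _ _ _).trans ?_
    have h1 := (hsub p hp).1.le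
    have h2 := (hsub p hp).2.le
    have e1 : ‖w.1‖ ≤ ‖w‖ := norm_fst_le w
    have e2 : ‖w.2‖ ≤ ‖w‖ := norm_snd_le w
    rw [norm_mul, norm_mul, norm_zero, add_zero]
    have e3 : ‖p.2‖ * ‖w.1‖ ≤ 1 * ‖w‖ := mul_le_mul h2 e1 (norm_nonneg _) zero_le_one
    have e4 : ‖p.1‖ * ‖w.2‖ ≤ 1 * ‖w‖ := mul_le_mul h1 e2 (norm_nonneg _) zero_le_one
    linarith
  · obtain ⟨-, hua, -⟩ := C.N_B k u hu
    obtain ⟨A, hA, hA'⟩ := ncpt_bound (isCompact_closedBall (C.y k) (C.t k)) (f := u) fun p hp => (hua p hp).continuousAt.continuousWithinAt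
    obtain ⟨A', hA1, hA1'⟩ := ncpt_bound (isCompact_closedBall (C.y k) (C.t k)) (f := fderiv ℂ u)
      fun p hp => (hua p hp).fderiv.continuousAt.continuousWithinAt
    refine ⟨A' + A + A, by positivity, fun p hp w => ?_⟩
    show ‖hB u p w‖ ≤ _
    unfold hB
    refine (norm_vec3_le _ _ _).trans ?_
    have e1 : ‖w.1‖ ≤ ‖w‖ := norm_fst_le w
    have e2 : ‖w.2‖ ≤ ‖w‖ := norm_snd_le w
    have e3 : ‖fderiv ℂ u p w‖ ≤ A' * ‖w‖ := (ContinuousLinearMap.le_opNorm _ _).trans (mul_le_mul_of_nonneg_right (hA1' p hp) (norm_nonneg _))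
    have e4 : ‖u p * w.1‖ ≤ A * ‖w‖ := by
      rw [norm_mul]
      exact mul_le_mul (hA' p hp) e1 (norm_nonneg _) hA
    have e5 : ‖u p * w.2‖ ≤ A * ‖w‖ := by
      rw [norm_mul]
      exact mul_le_mul (hA' p hp) e2 (norm_nonneg _) hA
    linarith

end Pool.Agent.MQ3

end
end
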