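import Pool.Agent.H43.TL2.M55
import Pool.Agent.H43.TL2.M57
import Pool.Agent.H43.TL2.M63
import Pool.Agent.H43.TL2.MQ2.SepC

/-! The parts of this file: H62.Qe.Dom, H7.Qup.An, MQ.Fin, MQ2.LeafN, MQ3.GInvNC, MQ3.GlobP. -/

section

/-!
# Qe Dom: the forms which define a regular map (adapted from `Pool.Agent.H62.Et.Dom`)
-/

set_option autoImplicit false

open Topology Filter MvPolynomial

noncomputable section

namespace Pool.Agent.H62.Qe

open Pool.Agent.H17 (PN VanishesAt HolomorphicInto)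
open Pool.Agent.H62.FC (Homog)
open Pool.Agent.H17EF (projVar)
open Pool.Agent.H62.EF (MN)
open Pool.Agent.H62.Et (pn pn_mk pn_injective pn_near pn_continuousAt pn_continuous isCompact_pn)
open Pool.Agent.H17LG.Variety (FunField)
open Pool.Agent.H17 (vanishesAt_mk_iff)
open Pool.Agent.H7.Bir (vals rmap)

variable {N M : ℕ} {P : Ideal (MvPolynomial (Fin (N + 1)) ℂ)} {P' : Ideal (MvPolynomial (Fin (M + 1)) ℂ)} {p : PN M → PN N}

private theorem Dom_aeval_homog {γ : Fin (N + 1) → MvPolynomial (Fin (M + 1)) ℂ} {D : ℕ} (hγ : ∀ i, (γ i).IsHomogeneous D) {n : ℕ}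
    {Q : MvPolynomial (Fin (N + 1)) ℂ} (hQ : Q.IsHomogeneous n) : (aeval γ Q).IsHomogeneous (D * n) :=
  hQ.aeval _ hγ

private theorem Dom_smul {n : ℕ} {Q : MvPolynomial (Fin (N + 1)) ℂ} (hQ : Q.IsHomogeneous n) (c : ℂ) (x : Fin (N + 1) → ℂ) :
    eval (c • x) Q = c ^ n * eval x Q :=
  Pool.Agent.H17BP.eval_smul_form hQ c x

/-- two systems of forms which represent `p` are proportional at every point -/
private theorem Dom_prop {γ γ' : Fin (N + 1) → MvPolynomial (Fin (M + 1)) ℂ}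
    (hrep : ∀ y ∈ projVar P', vals γ y.rep ≠ 0 → p y = rmap γ y) (hrep' : ∀ y ∈ projVar P', vals γ' y.rep ≠ 0 → p y = rmap γ' y)
    {y : PN M} (hy : y ∈ projVar P') (i j : Fin (N + 1)) :
    eval y.rep (γ i) * eval y.rep (γ' j) = eval y.rep (γ j) * eval y.rep (γ' i) := by
  by_cases h1 : vals γ y.rep = 0
  · have h2 : ∀ i, eval y.rep (γ i) = 0 := fun i => congrFun h1 i
    rw [h2 i, h2 j]
    ring
  by_cases h3 : vals γ' y.rep = 0
  · have h2 : ∀ i, eval y.rep (γ' i) = 0 := fun i => congrFun h3 i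
    rw [h2 i, h2 j]
    ring
  have h4 : rmap γ y = rmap γ' y := by
    rw [← hrep y hy h1, ← hrep' y hy h3]
  unfold Pool.Agent.H7.Bir.rmap at h4
  rw [dif_pos h1, dif_pos h3, Projectivization.mk_eq_mk_iff'] at h4
  obtain ⟨a, ha⟩ := h4
  have h5 : ∀ i, eval y.rep (γ i) = a * eval y.rep (γ' i) := fun i => (congrFun ha i).symm
  rw [h5 i, h5 j]
  ring

/-- forms which represent `p` near some point define a dominant rational map -/
theorem dominant [P.IsPrime] [P'.IsPrime] (hP : Homog P) (hP' : Homog P') (hX : ∃ i, (X i : MvPolynomial (Fin (N + 1)) ℂ) ∉ P)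
    (hp : IsReg P P' p) {D : ℕ} {γ : Fin (N + 1) → MvPolynomial (Fin (M + 1)) ℂ} (hγ : ∀ i, (γ i).IsHomogeneous D)
    (hrep : ∀ y ∈ projVar P', vals γ y.rep ≠ 0 → p y = rmap γ y) (hne : ∃ y ∈ projVar P', vals γ y.rep ≠ 0) (n : ℕ)
    (Q : MvPolynomial (Fin (N + 1)) ℂ) (hQ : Q.IsHomogeneous n) : aeval γ Q ∈ P' ↔ Q ∈ P := by
  obtain ⟨y₀, hy₀, hne⟩ := hne
  have hX' := Pool.Agent.H17EF.exists_coord hy₀
  constructor
  · intro h
    by_contra hQP
    obtain ⟨x, hx, hxQ⟩ := Pool.Agent.H17EF.exists_point hP hX hQP hQ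
    obtain ⟨y', hy', rfl⟩ := hp.surj x hx
    obtain ⟨D', γ', hγ', hne', hrep'⟩ := hp.regular y' hy'
    obtain ⟨j, hj⟩ : ∃ j, eval y₀.rep (γ j) ≠ 0 := by
      by_contra hcon
      push Not at hcon
      exact hne (funext hcon)
    have hjP : γ j ∉ P' := fun h1 => hj (hy₀ _ h1 D (hγ j))
    have hmem : γ j ^ n * aeval γ' Q ∈ P' := by
      by_contra h1
      have h2 : (γ j ^ n * aeval γ' Q).IsHomogeneous (D * n + D' * n) := ((hγ j).pow n).mul (Dom_aeval_homog hγ' hQ)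
      obtain ⟨y, hy, hyn⟩ := Pool.Agent.H17EF.exists_point hP' hX' h1 h2
      apply hyn
      have h3 : eval y.rep (aeval γ Q) = 0 := hy _ h _ (Dom_aeval_homog hγ hQ)
      unfold VanishesAt
      rw [map_mul, map_pow, Pool.Agent.H7.Bir.eval_comp, ← Dom_smul hQ]
      have h4 : eval y.rep (γ j) • vals γ' y.rep = eval y.rep (γ' j) • vals γ y.rep := by
        funext i
        have h5 := Dom_prop hrep hrep' hy j i
        change eval y.rep (γ j) * eval y.rep (γ' i) = eval y.rep (γ' j) * eval y.rep (γ i)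
        rw [h5, mul_comm]
      rw [h4, Dom_smul hQ, ← Pool.Agent.H7.Bir.eval_comp, h3, mul_zero]
    rcases Ideal.IsPrime.mem_or_mem inferInstance hmem with h1 | h1
    · exact hjP (Ideal.IsPrime.mem_of_pow_mem inferInstance n h1)
    · apply hxQ
      rw [hrep' y' hy' hne', Pool.Agent.H7.Bir.vanishesAt_rmap hne' hQ]
      exact hy' _ h1 _ (Dom_aeval_homog hγ' hQ)
  · intro h
    by_contra hcon
    obtain ⟨y, hy, hyn⟩ := Pool.Agent.H17EF.exists_point hP' hX' hcon (Dom_aeval_homog hγ hQ)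
    apply hyn
    by_cases h1 : vals γ y.rep = 0
    · unfold VanishesAt
      rw [Pool.Agent.H7.Bir.eval_comp, h1]
      have h2 : eval (p y).rep Q = 0 := hp.maps y hy Q h n hQ
      have h3 := Dom_smul hQ 0 (p y).rep
      rw [zero_smul, h2, mul_zero] at h3
      exact h3
    · rw [← Pool.Agent.H7.Bir.vanishesAt_rmap h1 hQ, ← hrep y hy h1]
      exact hp.maps y hy Q h n hQ

/-- finitely many systems of forms represent `p` -/
theorem exists_cover (hP' : Homog P') (hp : IsReg P P' p) : ∃ (n : ℕ) (D : Fin n → ℕ) (γ : Fin n → Fin (N + 1) → MvPolynomial (Fin (M + 1)) ℂ),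
    (∀ k i, (γ k i).IsHomogeneous (D k)) ∧ (∀ k, ∃ y ∈ projVar P', vals (γ k) y.rep ≠ 0) ∧
    (∀ k, ∀ y ∈ projVar P', vals (γ k) y.rep ≠ 0 → p y = rmap (γ k) y) ∧ ∀ y ∈ projVar P', ∃ k, vals (γ k) y.rep ≠ 0 := by
  have hloc : ∀ m ∈ pn '' projVar P', ∃ (D : ℕ) (γ : Fin (N + 1) → MvPolynomial (Fin (M + 1)) ℂ) (δ : ℝ), (∀ i, (γ i).IsHomogeneous D) ∧
      (∃ y ∈ projVar P', vals γ y.rep ≠ 0) ∧ (∀ y ∈ projVar P', vals γ y.rep ≠ 0 → p y = rmap γ y) ∧ 0 < δ ∧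
      ∀ y : PN M, dist (pn y) m < δ → vals γ y.rep ≠ 0 := by
    rintro _ ⟨y, hy, rfl⟩
    obtain ⟨D, γ, hγ, hne, hrep⟩ := hp.regular y hy
    have hU : {x : Fin (M + 1) → ℂ | vals γ x ≠ 0} ∈ 𝓝 y.rep := by
      have hc : Continuous (vals γ) := continuous_pi fun i => MvPolynomial.continuous_eval (γ i)
      exact (isOpen_ne.preimage hc).mem_nhds hne
    obtain ⟨δ, hδ, hnear⟩ := pn_near y.rep_nonzero hU
    refine ⟨D, γ, δ, hγ, ⟨y, hy, hne⟩, hrep, hδ, fun y' hy' => ?_⟩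
    have hmk : Projectivization.mk ℂ y.rep y.rep_nonzero = y := Projectivization.mk_rep y
    obtain ⟨x', hx', hx0, rfl⟩ := hnear y' (by rw [hmk]; exact hy')
    obtain ⟨a, ha⟩ := Projectivization.exists_smul_eq_mk_rep ℂ x' hx0
    have h1 : (Projectivization.mk ℂ x' hx0).rep = (a : ℂ) • x' := ha.symm
    rw [h1, Pool.Agent.H7.Bir.vals_smul hγ]
    exact smul_ne_zero (pow_ne_zero _ a.ne_zero) hx'
  choose! D γ δ h1 h2 h3 h4 h5 using hloc
  obtain ⟨t, ht, hcov⟩ := (isCompact_pn hP').elim_nhds_subcover (fun m => Metric.ball m (δ m)) fun m hm => Metric.ball_mem_nhds m (h4 m hm)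
  refine ⟨t.card, fun k => D (t.equivFin.symm k : MN M), fun k => γ (t.equivFin.symm k : MN M), fun k i => h1 _ (ht _ (t.equivFin.symm k).2) i,
    fun k => h2 _ (ht _ (t.equivFin.symm k).2), fun k => h3 _ (ht _ (t.equivFin.symm k).2), fun y hy => ?_⟩
  have h6 := hcov (Set.mem_image_of_mem pn hy)
  rw [Set.mem_iUnion₂] at h6
  obtain ⟨m, hm, hmy⟩ := h6
  refine ⟨t.equivFin ⟨m, hm⟩, ?_⟩
  change vals (γ (t.equivFin.symm (t.equivFin ⟨m, hm⟩) : MN M)) y.rep ≠ 0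
  rw [Equiv.symm_apply_apply]
  exact h5 m (ht m hm) y hmy

/-- The forms with `T (x) = 0` for all `x = p y` with `R' (y) = 0`. -/
theorem exists_image_form {P : Ideal (MvPolynomial (Fin (N + 1)) ℂ)} [P.IsPrime] {P' : Ideal (MvPolynomial (Fin (M + 1)) ℂ)} [P'.IsPrime]
    (hP : Homog P) (hP' : Homog P') (hX : ∃ i, (X i : MvPolynomial (Fin (N + 1)) ℂ) ∉ P) (hz : ∃ z : Fin 2 → FunField P, IsTranscendenceBasis ℂ z)
    (hz' : ∃ z' : Fin 2 → FunField P', IsTranscendenceBasis ℂ z') {p : PN M → PN N} (hp : IsReg P P' p) {n' : ℕ}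
    {R' : MvPolynomial (Fin (M + 1)) ℂ} (hR' : R'.IsHomogeneous n') (hRP' : R' ∉ P') :
    ∃ (T : MvPolynomial (Fin (N + 1)) ℂ) (n : ℕ), T.IsHomogeneous n ∧ T ∉ P ∧ ∀ y ∈ projVar P', VanishesAt R' y → VanishesAt T (p y) := by
  classical
  obtain ⟨n, D, γ, hγ, hγne, hrep, hcov⟩ := exists_cover hP' hp
  choose R m hR hRP hRev using fun k => Pool.Agent.H19OL.exists_norm_form hz hz' (hγ k)
    (dominant hP hP' hX hp (hγ k) (hrep k) (hγne k)) hR' hRP'
  refine ⟨∏ k, R k, ∑ k, m k, MvPolynomial.IsHomogeneous.prod _ _ _ fun k _ => hR k, ?_, ?_⟩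
  · intro h
    obtain ⟨k, -, hk⟩ := ((inferInstance : P.IsPrime).prod_mem_iff).1 h
    exact hRP k hk
  · intro y hy hyR
    obtain ⟨k, hk⟩ := hcov y hy
    have h1 : VanishesAt (R k) (p y) := by
      rw [hrep k y hy hk]
      unfold Pool.Agent.H7.Bir.rmap
      rw [dif_pos hk, vanishesAt_mk_iff (hR k)]
      refine hRev k y.rep y.rep_nonzero (fun Q hQ => ?_) hyR
      rw [← MvPolynomial.sum_homogeneousComponent Q, map_sum]
      exact Finset.sum_eq_zero fun i _ => hy _ (hP' Q hQ i) i (homogeneousComponent_isHomogeneous i Q)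
    unfold VanishesAt at h1 ⊢
    rw [map_prod]
    exact Finset.prod_eq_zero (Finset.mem_univ k) h1

end Pool.Agent.H62.Qe

end
end

section

/-!
# Qup An: holomorphic maps and dominant regular maps
-/

set_option autoImplicit false

open Topology Filter MvPolynomial

noncomputable section

namespace Pool.Agent.H7.Qup

open Pool.Agent.H17 (PN VanishesAt HolomorphicInto puncturedDisc vanishesAt_mk_iff)
open Pool.Agent.H62.FC (Homog)
open Pool.Agent.H62.SA (locVar)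
open Pool.Agent.H7.Bir (vals rmap mem_of_open vals_smul rmap_mk pn_identity)

variable {N M : ℕ} {P : Ideal (MvPolynomial (Fin (N + 1)) ℂ)} {P' : Ideal (MvPolynomial (Fin (M + 1)) ℂ)} {s s' : ℕ}
  {G : Fin s → MvPolynomial (Fin (N + 1)) ℂ} {G' : Fin s' → MvPolynomial (Fin (M + 1)) ℂ} {p : PN M → PN N}

theorem vals_rep_ne {D : ℕ} {γ : Fin (N + 1) → MvPolynomial (Fin (M + 1)) ℂ} (hγ : ∀ i, (γ i).IsHomogeneous D)
    {y : Fin (M + 1) → ℂ} (hy : y ≠ 0) : vals γ (Projectivization.mk ℂ y hy).rep ≠ 0 ↔ vals γ y ≠ 0 := by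
  obtain ⟨a, ha⟩ := Projectivization.exists_smul_eq_mk_rep ℂ y hy
  have h1 : (Projectivization.mk ℂ y hy).rep = (a : ℂ) • y := ha.symm
  rw [h1, vals_smul hγ, smul_ne_zero_iff]
  exact ⟨fun h => h.2, fun h => ⟨pow_ne_zero _ a.ne_zero, h⟩⟩

theorem Rep.map_mk {D : ℕ} {γ : Fin (N + 1) → MvPolynomial (Fin (M + 1)) ℂ} (h : Rep P' G' p D γ) {y : Fin (M + 1) → ℂ} (hy : y ≠ 0)
    (hU : Projectivization.mk ℂ y hy ∈ locVar P' G') (hv : vals γ y ≠ 0) :
    p (Projectivization.mk ℂ y hy) = Projectivization.mk ℂ (vals γ y) hv := by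
  rw [h.rep _ hU ((vals_rep_ne h.hom hy).2 hv), rmap_mk h.hom hy hv]

theorem analyticAt_vals {φ : ℂ → Fin (M + 1) → ℂ} {z : ℂ} (hφ : AnalyticAt ℂ φ z)
    (γ : Fin (N + 1) → MvPolynomial (Fin (M + 1)) ℂ) : AnalyticAt ℂ (fun w => vals γ (φ w)) z := by
  rw [analyticAt_pi_iff]
  intro i
  have h1 : AnalyticAt ℂ (fun w => MvPolynomial.aeval (φ w) (γ i)) z :=
    AnalyticAt.aeval_mvPolynomial (fun i => analyticAt_pi_iff.mp hφ i) (γ i)
  exact h1

/-- The composition of a holomorphic map into `U'` with the regular map. -/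
theorem holo_comp (hp : IsDominantMap P P' G G' p) {f : ℂ → PN M} {U : Set ℂ} (hUo : IsOpen U) (hf : HolomorphicInto f U)
    (hfU : ∀ z ∈ U, f z ∈ locVar P' G') : HolomorphicInto (fun z => p (f z)) U := by
  intro z hz
  obtain ⟨φ, hφ, he⟩ := hf z hz
  obtain ⟨D, γ, hγ, hv⟩ := hp.exists_rep (hfU z hz)
  obtain ⟨h1, h2⟩ := he.self_of_nhds
  rw [h2, vals_rep_ne hγ.hom h1] at hv
  have h3 := analyticAt_vals hφ γ
  refine ⟨fun w => vals γ (φ w), h3, ?_⟩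
  filter_upwards [he, hUo.mem_nhds hz, h3.continuousAt.eventually_ne hv] with w h4 h5 h6
  obtain ⟨h7, h8⟩ := h4
  refine ⟨h6, ?_⟩
  have h9 := hfU w h5
  rw [h8] at h9 ⊢
  exact hγ.map_mk h7 h9 h6

/-- A continuous function with values in the roots of a polynomial. -/
theorem const_of_root {m : ℕ} {b : Fin (m + 1) → ℂ} (hb : b (Fin.last m) ≠ 0) {ρ : ℂ → ℂ} {z₀ : ℂ} {r : ℝ}
    (hρ : ContinuousOn ρ (Metric.ball z₀ r)) (h : ∀ z ∈ Metric.ball z₀ r, ∑ l : Fin (m + 1), b l * ρ z ^ (l : ℕ) = 0) :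
    ∀ z ∈ Metric.ball z₀ r, ρ z = ρ z₀ := by
  intro z hz
  have hr : 0 < r := Metric.pos_of_mem_ball hz
  set q : Polynomial ℂ := ∑ l : Fin (m + 1), Polynomial.C (b l) * Polynomial.X ^ (l : ℕ) with hq
  have hq0 : q ≠ 0 := by
    intro h0
    have h1 : q.coeff m = b (Fin.last m) := by
      rw [hq, Polynomial.finsetSum_coeff, Finset.sum_eq_single (Fin.last m)]
      · rw [Polynomial.coeff_C_mul, Polynomial.coeff_X_pow, Fin.val_last, if_pos rfl, mul_one]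
      · intro l _ hl
        rw [Polynomial.coeff_C_mul, Polynomial.coeff_X_pow, if_neg, mul_zero]
        intro h2
        exact hl (Fin.ext (by rw [Fin.val_last]; exact h2.symm))
      · exact fun h2 => absurd (Finset.mem_univ _) h2
    rw [h0, Polynomial.coeff_zero] at h1
    exact hb h1.symm
  have hmaps : Set.MapsTo ρ (Metric.ball z₀ r) (q.roots.toFinset : Set ℂ) := by
    intro w hw
    rw [Finset.mem_coe, Multiset.mem_toFinset, Polynomial.mem_roots hq0, Polynomial.IsRoot.def, hq, Polynomial.eval_finsetSum]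
    rw [← h w hw]
    refine Finset.sum_congr rfl fun l _ => ?_
    rw [Polynomial.eval_mul, Polynomial.eval_C, Polynomial.eval_pow, Polynomial.eval_X]
  exact (convex_ball z₀ r).isPreconnected.constant_of_mapsTo (Finset.finite_toSet _).isDiscrete hρ hmaps hz (Metric.mem_ball_self hr)

/-- If `p ∘ f` is constant near a point then so is `f`. -/
theorem const_near {j : Fin (M + 1)} {m : Fin (M + 1) → ℕ} {α : ∀ i, Fin (m i + 1) → MvPolynomial (Fin (N + 1)) ℂ}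
    (hrel : ∀ i (y : Fin (M + 1) → ℂ) (hy : y ≠ 0) (x : Fin (N + 1) → ℂ) (hx : x ≠ 0), Projectivization.mk ℂ y hy ∈ locVar P' G' →
        p (Projectivization.mk ℂ y hy) = Projectivization.mk ℂ x hx →
        ∑ l : Fin (m i + 1), eval x (α i l) * y i ^ (l : ℕ) * y j ^ (m i - (l : ℕ)) = 0)
    {f : ℂ → PN M} {z₀ : ℂ} {φ : ℂ → Fin (M + 1) → ℂ} (hφ : AnalyticAt ℂ φ z₀)
    (he : ∀ᶠ z in 𝓝 z₀, ∃ h : φ z ≠ 0, f z = Projectivization.mk ℂ (φ z) h) (hfU : ∀ᶠ z in 𝓝 z₀, f z ∈ locVar P' G')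
    (hj : φ z₀ j ≠ 0) {x : Fin (N + 1) → ℂ} (hx : x ≠ 0) (hα : ∀ i, eval x (α i (Fin.last (m i))) ≠ 0)
    (hpf : ∀ᶠ z in 𝓝 z₀, p (f z) = Projectivization.mk ℂ x hx) : ∀ᶠ z in 𝓝 z₀, f z = f z₀ := by
  have hcj : ContinuousAt (fun z => φ z j) z₀ := (continuous_apply j).continuousAt.comp hφ.continuousAt
  obtain ⟨r, hr, hball⟩ := Metric.eventually_nhds_iff_ball.1
    ((((he.and hfU).and hpf).and (hcj.eventually_ne hj)).and hφ.eventually_analyticAt)
  have hz₀ : z₀ ∈ Metric.ball z₀ r := Metric.mem_ball_self hr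
  have hconst : ∀ i, ∀ z ∈ Metric.ball z₀ r, φ z i / φ z j = φ z₀ i / φ z₀ j := by
    intro i
    refine const_of_root (b := fun l => eval x (α i l)) (hα i) (ρ := fun z => φ z i / φ z j) (fun z hz => ?_) fun z hz => ?_
    · have h1 := (hball z hz).2.continuousAt
      exact (((continuous_apply i).continuousAt.comp h1).div ((continuous_apply j).continuousAt.comp h1) (hball z hz).1.2).continuousWithinAt
    · obtain ⟨⟨⟨⟨h1, h2⟩, h3⟩, h4⟩, -⟩ := hball z hz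
      obtain ⟨h5, h6⟩ := h1
      rw [h6] at h2 h3
      have h7 := hrel i (φ z) h5 x hx h2 h3
      have h8 : ∀ l : Fin (m i + 1), eval x (α i l) * φ z i ^ (l : ℕ) * φ z j ^ (m i - (l : ℕ)) =
          φ z j ^ m i * (eval x (α i l) * (φ z i / φ z j) ^ (l : ℕ)) := by
        intro l
        have h9 : (l : ℕ) ≤ m i := Nat.lt_succ_iff.1 l.2
        have h10 : φ z j ^ m i = φ z j ^ (l : ℕ) * φ z j ^ (m i - (l : ℕ)) := by
          rw [← pow_add, Nat.add_sub_cancel' h9]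
        rw [h10, div_pow]
        field_simp
      rw [Finset.sum_congr rfl fun l _ => h8 l, ← Finset.mul_sum, mul_eq_zero] at h7
      exact h7.resolve_left (pow_ne_zero _ h4)
  filter_upwards [Metric.ball_mem_nhds z₀ hr] with z hz
  obtain ⟨⟨⟨⟨⟨h5, h6⟩, h2⟩, h3⟩, h4⟩, -⟩ := hball z hz
  obtain ⟨⟨⟨⟨⟨h5', h6'⟩, h2'⟩, h3'⟩, h4'⟩, -⟩ := hball z₀ hz₀
  rw [h6, h6', Projectivization.mk_eq_mk_iff']
  refine ⟨φ z j / φ z₀ j, ?_⟩
  funext i
  have h7 := hconst i z hz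
  change φ z j / φ z₀ j * φ z₀ i = φ z i
  rw [div_eq_div_iff h4 h4'] at h7
  field_simp
  linear_combination -h7

/-- The bound of a root. -/
theorem root_bound {m : ℕ} {b : Fin (m + 1) → ℂ} {C : ℝ} (hb : ∀ l, ‖b l‖ ≤ C) {ρ : ℂ}
    (h : ∑ l : Fin (m + 1), b l * ρ ^ (l : ℕ) = 0) : ‖b (Fin.last m) * ρ‖ ≤ C * (m + 1) := by
  have hC : 0 ≤ C := (norm_nonneg _).trans (hb 0)
  have hm : (0 : ℝ) ≤ m := Nat.cast_nonneg m
  rcases le_or_gt ‖ρ‖ 1 with h1 | h1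
  · rw [norm_mul]
    calc ‖b (Fin.last m)‖ * ‖ρ‖ ≤ C * 1 := mul_le_mul (hb _) h1 (norm_nonneg _) hC
      _ ≤ C * (m + 1) := mul_le_mul_of_nonneg_left (by linarith) hC
  · have hρ : 0 < ‖ρ‖ := zero_lt_one.trans h1
    rcases Nat.eq_zero_or_pos m with rfl | hmp
    · rw [Fin.sum_univ_one, Fin.val_zero, pow_zero, mul_one] at h
      have h2 : b (Fin.last 0) = 0 := h
      rw [h2, zero_mul, norm_zero]
      exact mul_nonneg hC (by linarith)
    · rw [Fin.sum_univ_castSucc, Fin.val_last, add_comm] at h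
      have h2 : b (Fin.last m) * ρ ^ m = -∑ l : Fin m, b l.castSucc * ρ ^ ((l.castSucc : Fin (m + 1)) : ℕ) := eq_neg_of_add_eq_zero_left h
      have h3 : ‖b (Fin.last m) * ρ ^ m‖ ≤ (C * m) * ‖ρ‖ ^ (m - 1) := by
        rw [h2, norm_neg]
        refine (norm_sum_le _ _).trans ?_
        have h4 : ∀ l : Fin m, ‖b l.castSucc * ρ ^ ((l.castSucc : Fin (m + 1)) : ℕ)‖ ≤ C * ‖ρ‖ ^ (m - 1) := by
          intro l
          rw [norm_mul, norm_pow]
          refine mul_le_mul (hb _) (pow_le_pow_right₀ h1.le ?_) (pow_nonneg hρ.le _) hC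
          have := l.2
          rw [Fin.val_castSucc]
          omega
        refine (Finset.sum_le_sum fun l _ => h4 l).trans ?_
        rw [Finset.sum_const, Finset.card_univ, Fintype.card_fin, nsmul_eq_mul]
        nlinarith
      have h5 : ‖b (Fin.last m) * ρ ^ m‖ = ‖b (Fin.last m) * ρ‖ * ‖ρ‖ ^ (m - 1) := by
        rw [norm_mul, norm_mul, norm_pow, mul_assoc, ← pow_succ', Nat.sub_add_cancel hmp]
      rw [h5] at h3
      have h6 := le_of_mul_le_mul_right h3 (pow_pos hρ _)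
      refine h6.trans ?_
      nlinarith

/-- **Extension over the puncture.** -/
theorem extend_of_alg {j : Fin (M + 1)} {m : Fin (M + 1) → ℕ} {α : ∀ i, Fin (m i + 1) → MvPolynomial (Fin (N + 1)) ℂ}
    (hrel : ∀ i (y : Fin (M + 1) → ℂ) (hy : y ≠ 0) (x : Fin (N + 1) → ℂ) (hx : x ≠ 0), Projectivization.mk ℂ y hy ∈ locVar P' G' →
        p (Projectivization.mk ℂ y hy) = Projectivization.mk ℂ x hx →
        ∑ l : Fin (m i + 1), eval x (α i l) * y i ^ (l : ℕ) * y j ^ (m i - (l : ℕ)) = 0)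
    {f : ℂ → PN M} (hf : HolomorphicInto f puncturedDisc) (hfU : ∀ z ∈ puncturedDisc, f z ∈ locVar P' G')
    {ψ : ℂ → Fin (N + 1) → ℂ} (hψ : AnalyticAt ℂ ψ 0)
    (hpf : ∀ᶠ z in 𝓝 (0 : ℂ), z ≠ 0 → ∃ h : ψ z ≠ 0, p (f z) = Projectivization.mk ℂ (ψ z) h)
    (hα : ∀ i, ¬ ∀ᶠ z in 𝓝 (0 : ℂ), eval (ψ z) (α i (Fin.last (m i))) = 0) :
    ∃ g : ℂ → PN M, HolomorphicInto g (Metric.ball 0 1) ∧ ∀ z ∈ puncturedDisc, g z = f z := by
  classical
  have han : ∀ Q : MvPolynomial (Fin (N + 1)) ℂ, AnalyticAt ℂ (fun z => eval (ψ z) Q) 0 := by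
    intro Q
    have h1 : AnalyticAt ℂ (fun w => MvPolynomial.aeval (ψ w) Q) 0 :=
      AnalyticAt.aeval_mvPolynomial (fun i => analyticAt_pi_iff.mp hψ i) Q
    exact h1
  set a : Fin (M + 1) → ℂ → ℂ := fun i z => eval (ψ z) (α i (Fin.last (m i))) with ha
  have hane : ∀ i, ∀ᶠ z in 𝓝[≠] (0 : ℂ), a i z ≠ 0 := by
    intro i
    exact (han _).eventually_eq_zero_or_eventually_ne_zero.resolve_left (hα i)
  -- bounds of the coefficients
  have hbd : ∀ i, ∃ C : ℝ, ∀ᶠ z in 𝓝 (0 : ℂ), ∀ l, ‖eval (ψ z) (α i l)‖ ≤ C := by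
    intro i
    have h1 : ∀ l, ∃ C : ℝ, ∀ᶠ z in 𝓝 (0 : ℂ), ‖eval (ψ z) (α i l)‖ ≤ C := fun l =>
      ⟨‖eval (ψ 0) (α i l)‖ + 1, ((han (α i l)).continuousAt.norm.eventually_lt continuousAt_const (lt_add_one _)).mono fun z hz => hz.le⟩
    choose C hC using h1
    refine ⟨∑ l, |C l|, ?_⟩
    filter_upwards [eventually_all.2 hC] with z hz l
    exact ((hz l).trans (le_abs_self _)).trans (Finset.single_le_sum (f := fun l => |C l|) (fun l _ => abs_nonneg _) (Finset.mem_univ l))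
  choose C hC using hbd
  have hev : ∀ᶠ z in 𝓝[≠] (0 : ℂ), z ∈ puncturedDisc ∧ (∃ h : ψ z ≠ 0, p (f z) = Projectivization.mk ℂ (ψ z) h) ∧
      (∀ i l, ‖eval (ψ z) (α i l)‖ ≤ C i) ∧ ∀ i, a i z ≠ 0 := by
    have h1 : ∀ᶠ z in 𝓝[≠] (0 : ℂ), z ∈ puncturedDisc := by
      have h4 : Metric.ball (0 : ℂ) 1 \ {0} ∈ 𝓝[≠] (0 : ℂ) := sdiff_mem_nhdsWithin_compl (Metric.ball_mem_nhds _ one_pos) _
      exact h4
    have h2 : ∀ᶠ z in 𝓝[≠] (0 : ℂ), ∃ h : ψ z ≠ 0, p (f z) = Projectivization.mk ℂ (ψ z) h :=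
      eventually_nhdsWithin_iff.2 (hpf.mono fun z hz h => hz h)
    filter_upwards [h1, h2, (eventually_all.2 hC).filter_mono nhdsWithin_le_nhds, eventually_all.2 hane] with z h3 h4 h5 h6
    exact ⟨h3, h4, h5, h6⟩
  obtain ⟨r, hr, hball⟩ : ∃ r > 0, ∀ z ∈ Metric.ball (0 : ℂ) r \ {0}, z ∈ puncturedDisc ∧
      (∃ h : ψ z ≠ 0, p (f z) = Projectivization.mk ℂ (ψ z) h) ∧ (∀ i l, ‖eval (ψ z) (α i l)‖ ≤ C i) ∧ ∀ i, a i z ≠ 0 := by
    obtain ⟨r, hr, h1⟩ := Metric.eventually_nhds_iff_ball.1 (eventually_nhdsWithin_iff.1 hev)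
    exact ⟨r, hr, fun z hz => h1 z hz.1 hz.2⟩
  -- the coordinate `j` does not vanish
  have hj : ∀ z ∈ Metric.ball (0 : ℂ) r \ {0}, (f z).rep j ≠ 0 := by
    intro z hz h0
    obtain ⟨h1, ⟨h2, h3⟩, -, h5⟩ := hball z hz
    apply (f z).rep_nonzero
    funext i
    have h6 := hrel i (f z).rep (f z).rep_nonzero (ψ z) h2 (by rw [(f z).mk_rep]; exact hfU z h1) (by rw [(f z).mk_rep]; exact h3)
    rw [Fin.sum_univ_castSucc] at h6
    have h7 : ∀ l : Fin (m i), eval (ψ z) (α i l.castSucc) * (f z).rep i ^ ((l.castSucc : Fin (m i + 1)) : ℕ) *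
        (f z).rep j ^ (m i - ((l.castSucc : Fin (m i + 1)) : ℕ)) = 0 := by
      intro l
      have h8 : m i - ((l.castSucc : Fin (m i + 1)) : ℕ) ≠ 0 := by
        have := l.2
        rw [Fin.val_castSucc]
        omega
      rw [h0, zero_pow h8, mul_zero]
    rw [Finset.sum_eq_zero fun l _ => h7 l, zero_add, Fin.val_last, Nat.sub_self, pow_zero, mul_one, mul_eq_zero] at h6
    exact eq_zero_of_pow_eq_zero (h6.resolve_left (h5 i))
  -- the normalized lift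
  set S : ℂ → Fin (M + 1) → ℂ := fun w => ((f w).rep j)⁻¹ • (f w).rep with hS
  have hSmk : ∀ (w : ℂ) (x : Fin (M + 1) → ℂ) (hx : x ≠ 0), f w = Projectivization.mk ℂ x hx → S w = (x j)⁻¹ • x := by
    intro w x hx h
    obtain ⟨a, ha⟩ := Projectivization.exists_smul_eq_mk_rep ℂ x hx
    have h1 : (f w).rep = (a : ℂ) • x := by rw [h]; exact ha.symm
    rw [hS]
    simp only [h1, Pi.smul_apply, smul_eq_mul]
    rw [smul_smul, mul_inv, mul_comm (a : ℂ)⁻¹, mul_assoc, inv_mul_cancel₀ a.ne_zero, mul_one]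
  set A : ℂ → ℂ := fun z => ∏ i, a i z with hA
  have hAan : AnalyticAt ℂ A 0 := by
    have h1 : AnalyticAt ℂ (fun z => ∏ i, a i z) 0 := Finset.analyticAt_fun_prod _ fun i _ => han _
    exact h1
  -- the function is bounded and holomorphic
  obtain ⟨r', hr', hr'r, haball⟩ : ∃ r' > 0, r' ≤ r ∧ ∀ z ∈ Metric.ball (0 : ℂ) r', AnalyticAt ℂ A z := by
    obtain ⟨ρ, hρ, h1⟩ := Metric.eventually_nhds_iff_ball.1 hAan.eventually_analyticAt
    exact ⟨min ρ r, lt_min hρ hr, min_le_right _ _, fun z hz => h1 z (Metric.ball_subset_ball (min_le_left _ _) hz)⟩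
  have hsub : ∀ z ∈ Metric.ball (0 : ℂ) r' \ {0}, z ∈ Metric.ball (0 : ℂ) r \ {0} := fun z hz =>
    ⟨Metric.ball_subset_ball hr'r hz.1, hz.2⟩
  have hd : DifferentiableOn ℂ (fun z => A z • S z) (Metric.ball (0 : ℂ) r' \ {0}) := by
    intro w hw
    obtain ⟨φ, h4, h5⟩ := hf w (hball w (hsub w hw)).1
    have h6 : φ w j ≠ 0 := by
      obtain ⟨h7, h8⟩ := h5.self_of_nhds
      obtain ⟨a, ha⟩ := Projectivization.exists_smul_eq_mk_rep ℂ (φ w) h7
      have h9 : (f w).rep = (a : ℂ) • φ w := by rw [h8]; exact ha.symm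
      have h10 := hj w (hsub w hw)
      rw [h9] at h10
      exact right_ne_zero_of_mul h10
    have h7 : AnalyticAt ℂ (fun z => (φ z j)⁻¹ • φ z) w := by
      have h8 : AnalyticAt ℂ (fun z => φ z j) w := analyticAt_pi_iff.1 h4 j
      exact (h8.inv h6).smul h4
    have h8 : AnalyticAt ℂ (fun z => A z • ((φ z j)⁻¹ • φ z)) w := (haball w hw.1).smul h7
    refine DifferentiableAt.differentiableWithinAt (h8.differentiableAt.congr_of_eventuallyEq ?_)
    filter_upwards [h5] with z hz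
    obtain ⟨h8, h9⟩ := hz
    rw [hSmk z _ h8 h9]
  have hratio : ∀ z ∈ Metric.ball (0 : ℂ) r \ {0}, ∀ i, ‖a i z * S z i‖ ≤ C i * (m i + 1) := by
    intro z hz i
    obtain ⟨h1, ⟨h2, h3⟩, h4, h5⟩ := hball z hz
    have h6 := hrel i (f z).rep (f z).rep_nonzero (ψ z) h2 (by rw [(f z).mk_rep]; exact hfU z h1) (by rw [(f z).mk_rep]; exact h3)
    have hjz := hj z hz
    have h8 : ∀ l : Fin (m i + 1), eval (ψ z) (α i l) * (f z).rep i ^ (l : ℕ) * (f z).rep j ^ (m i - (l : ℕ)) =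
        (f z).rep j ^ m i * (eval (ψ z) (α i l) * (S z i) ^ (l : ℕ)) := by
      intro l
      have h9 : (l : ℕ) ≤ m i := Nat.lt_succ_iff.1 l.2
      have h10 : (f z).rep j ^ m i = (f z).rep j ^ (l : ℕ) * (f z).rep j ^ (m i - (l : ℕ)) := by
        rw [← pow_add, Nat.add_sub_cancel' h9]
      have h11 : S z i = (f z).rep i / (f z).rep j := by
        change ((f z).rep j)⁻¹ * (f z).rep i = _
        rw [div_eq_inv_mul]
      rw [h10, h11, div_pow]
      field_simp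
    rw [Finset.sum_congr rfl fun l _ => h8 l, ← Finset.mul_sum, mul_eq_zero] at h6
    exact root_bound (h4 i) (h6.resolve_left (pow_ne_zero _ hjz))
  have hb : BddAbove (norm ∘ (fun z => A z • S z) '' (Metric.ball (0 : ℂ) r' \ {0})) := by
    refine ⟨∑ i, (C i * (m i + 1)) * ∏ i' ∈ Finset.univ.erase i, C i', ?_⟩
    rintro _ ⟨w, hw, rfl⟩
    have hw' := hsub w hw
    obtain ⟨-, -, h4, -⟩ := hball w hw'
    have hC0 : ∀ i, 0 ≤ C i := fun i => (norm_nonneg _).trans (h4 i 0)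
    have hterm : ∀ i, 0 ≤ (C i * (m i + 1)) * ∏ i' ∈ Finset.univ.erase i, C i' := fun i =>
      mul_nonneg (mul_nonneg (hC0 i) (by positivity)) (Finset.prod_nonneg fun i' _ => hC0 i')
    change ‖A w • S w‖ ≤ _
    rw [pi_norm_le_iff_of_nonneg (Finset.sum_nonneg fun i _ => hterm i)]
    intro i
    refine le_trans ?_ (Finset.single_le_sum (f := fun i => (C i * (m i + 1)) * ∏ i' ∈ Finset.univ.erase i, C i')
      (fun i _ => hterm i) (Finset.mem_univ i))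
    change ‖A w * S w i‖ ≤ _
    have h5 : A w * S w i = (a i w * S w i) * ∏ i' ∈ Finset.univ.erase i, a i' w := by
      rw [hA]
      simp only
      rw [← Finset.mul_prod_erase Finset.univ (fun i => a i w) (Finset.mem_univ i)]
      ring
    rw [h5, norm_mul, norm_prod]
    refine mul_le_mul (hratio w hw' i) (Finset.prod_le_prod (fun i' _ => norm_nonneg _) fun i' _ => h4 i' _)
      (Finset.prod_nonneg fun i' _ => norm_nonneg _) (mul_nonneg (hC0 i) (by positivity))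
  have hu := Complex.differentiableOn_update_limUnder_of_bddAbove (Metric.ball_mem_nhds (0 : ℂ) hr') hd hb
  set S' : ℂ → Fin (M + 1) → ℂ := Function.update (fun z => A z • S z) 0 (limUnder (𝓝[≠] 0) fun z => A z • S z) with hS'
  have hS'a : AnalyticAt ℂ S' 0 := hu.analyticAt (Metric.ball_mem_nhds (0 : ℂ) hr')
  have hS'eq : ∀ w, w ≠ 0 → S' w = A w • S w := fun w hw => Function.update_of_ne hw _ _
  have hAne : ∀ z ∈ Metric.ball (0 : ℂ) r \ {0}, A z ≠ 0 := fun z hz => Finset.prod_ne_zero_iff.2 fun i _ => (hball z hz).2.2.2 i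
  have hSj : ∀ z ∈ Metric.ball (0 : ℂ) r \ {0}, S z j = 1 := fun z hz => inv_mul_cancel₀ (hj z hz)
  have hS'ne : ∀ z ∈ Metric.ball (0 : ℂ) r \ {0}, S' z ≠ 0 := by
    intro z hz h0
    have h1 := congrFun h0 j
    rw [hS'eq z hz.2] at h1
    change A z * S z j = 0 at h1
    rw [hSj z hz, mul_one] at h1
    exact hAne z hz h1
  have hnz : ¬ ∀ᶠ z in 𝓝 (0 : ℂ), S' z = 0 := by
    intro h0
    have h1 : ∀ᶠ z in 𝓝[≠] (0 : ℂ), z ∈ Metric.ball (0 : ℂ) r \ {0} :=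
      sdiff_mem_nhdsWithin_compl (Metric.ball_mem_nhds _ hr) _
    obtain ⟨z, h2, h3⟩ := ((h0.filter_mono nhdsWithin_le_nhds).and h1).exists
    exact hS'ne z h3 h2
  obtain ⟨n, Φ, hΦ, hΦ0, hΦe⟩ := (hS'a.exists_eventuallyEq_pow_smul_nonzero_iff).2 hnz
  refine Pool.Agent.H62.Qe.extend_of_pow hf le_rfl hΦ.continuousAt hΦ0 ?_
  filter_upwards [hΦe, Metric.ball_mem_nhds (0 : ℂ) hr] with z h1 h2 h3
  have h4 : z ∈ Metric.ball (0 : ℂ) r \ {0} := ⟨h2, h3⟩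
  have h5 := hS'ne z h4
  have h6 : Φ z ≠ 0 := by
    intro h7
    rw [h7, smul_zero] at h1
    exact h5 h1
  refine ⟨h6, ?_⟩
  rw [pow_one, ← (f z).mk_rep, Projectivization.mk_eq_mk_iff']
  rw [hS'eq z h3, sub_zero] at h1
  have h7 : A z ≠ 0 := hAne z h4
  have h8 : (f z).rep j ≠ 0 := hj z h4
  refine ⟨(f z).rep j * (A z)⁻¹ * z ^ n, ?_⟩
  rw [mul_smul, ← h1, smul_smul, mul_assoc, inv_mul_cancel₀ h7, mul_one]
  change (f z).rep j • (((f z).rep j)⁻¹ • (f z).rep) = _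
  rw [smul_smul, mul_inv_cancel₀ h8, one_smul]

end Pool.Agent.H7.Qup

end
end

section

/-!
# MQ Fin: the entire curves of order two tangent to a reduced foliation of a surface of general type lie in one algebraic curve
-/

set_option autoImplicit false

open Topology Filter Metric MvPolynomial Asymptotics MeasureTheory Laplacian

noncomputable section

namespace Pool.Agent.MQ

open Pool.Agent.H36.BP (EN fs OrdTwo circle_approx)
open Pool.Agent.H17BP (IsChart IsForm Surface)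
open Pool.Agent.H17 (PN VanishesAt HolomorphicInto)
open Pool.Agent.H17EF (projVar coneE)
open Pool.Agent.H13.OT (OrderTwo)
open Pool.Agent.H62.FC (Homog)
open Pool.Agent.H17LG.Variety (FunField)
open Pool.Agent.H30M (tau avg rhoR tau_nonneg)
open Pool.Agent.H14.V (IsLift)

variable {M : ℕ} {P : Ideal (MvPolynomial (Fin (M + 1)) ℂ)} {FF : Set (EN M × EN M)}

/-! ## the lift -/

/-- from the averages to the characteristic function -/
private theorem fin_ordTwo {N : ℕ} {H : ℂ → EN N} (hH : Differentiable ℂ H) (h0 : ∀ z, H z ≠ 0) {A : ℝ}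
    (hA : ∀ r : ℝ, 0 < r → Real.circleAverage (fun z => Real.log ‖H z‖) 0 r ≤ A * (1 + r ^ 2)) : OrdTwo H := by
  have hn : ∀ z, 0 < ‖H z‖ := fun z => norm_pos_iff.2 (h0 z)
  have hlc : Continuous fun z => Real.log ‖H z‖ := hH.continuous.norm.log fun z => (hn z).ne'
  refine ⟨A + 2 + |Real.log ‖H 0‖|, fun r hr => ?_⟩
  obtain ⟨u, hu, huR⟩ := circle_approx hr (fun z => Real.log ‖H z‖) hlc.continuousOn one_pos
  have hexp : ∀ z, ‖Complex.exp (-u z - 1) • H z‖ = Real.exp (-(u z).re - 1 + Real.log ‖H z‖) := by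
    intro z
    rw [norm_smul, Complex.norm_exp, Real.exp_add, Real.exp_log (hn z)]
    simp
  have hup : ∀ z ∈ ball (0 : ℂ) r, ‖Complex.exp (-u z - 1) • H z‖ ≤ 1 := by
    intro z hz
    have hd : DiffContOnCl ℂ (fun z => Complex.exp (-u z - 1) • H z) (ball (0 : ℂ) r) :=
      ((hu.neg.sub_const _).cexp.smul hH).diffContOnCl
    refine Complex.norm_le_of_forall_mem_frontier_norm_le isBounded_ball hd (fun y hy => ?_)
      (subset_closure hz)
    rw [frontier_ball _ hr.ne'] at hy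
    rw [hexp y, Real.exp_le_one_iff]
    have h1 := (abs_le.1 (huR y hy)).1
    linarith
  have hmean : (u 0).re ≤ A * (1 + r ^ 2) + 1 := by
    have h1 : Real.circleAverage (fun z => (u z).re) 0 r = (u 0).re := by
      have h2 : CircleIntegrable u 0 r := hu.continuous.continuousOn.circleIntegrable'
      have h3 := Complex.reCLM.circleAverage_comp_comm h2
      have h4 : Real.circleAverage u 0 r = u 0 := hu.diffContOnCl.circleAverage
      rw [h4] at h3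
      exact h3
    have h5 : Real.circleAverage (fun z => (u z).re) 0 r ≤ Real.circleAverage (fun z => Real.log ‖H z‖ + 1) 0 r := by
      refine Real.circleAverage_mono (Complex.continuous_re.comp hu.continuous).continuousOn.circleIntegrable'
        (hlc.add continuous_const).continuousOn.circleIntegrable' fun z hz => ?_
      rw [abs_of_pos hr] at hz
      have h6 := (abs_le.1 (huR z hz)).2
      show (u z).re ≤ Real.log ‖H z‖ + 1
      linarith
    have h7 : Real.circleAverage (fun z => Real.log ‖H z‖ + 1) 0 r = Real.circleAverage (fun z => Real.log ‖H z‖) 0 r + 1 := by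
      have h8 := Real.circleAverage_add (c := 0) (R := r) hlc.continuousOn.circleIntegrable'
        (continuous_const (y := (1 : ℝ))).continuousOn.circleIntegrable'
      have h9 : Real.circleAverage (fun _ : ℂ => (1 : ℝ)) 0 r = 1 := Real.circleAverage_const _ _ _
      rw [h9] at h8
      exact h8
    linarith [hA r hr]
  refine ⟨fun z => Complex.exp (-u z - 1) • H z, ?_, hup, ?_, fun z _ => Or.inr ?_⟩
  · exact ((hu.neg.sub_const _).cexp.smul hH).differentiableOn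
  · show _ ≤ ‖Complex.exp (-u 0 - 1) • H 0‖
    rw [hexp 0, Real.exp_le_exp]
    have h1 := neg_abs_le (Real.log ‖H 0‖)
    have h2 : 0 ≤ |Real.log ‖H 0‖| := abs_nonneg _
    have h3 : 0 ≤ r ^ 2 := sq_nonneg r
    nlinarith [mul_nonneg h2 h3]
  · refine ⟨(Complex.exp (-u z - 1))⁻¹, inv_ne_zero (Complex.exp_ne_zero _), ?_⟩
    rw [smul_smul, inv_mul_cancel₀ (Complex.exp_ne_zero _), one_smul]

/-- the growth of an arbitrary lift of a curve of order two -/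
theorem growth_of_orderTwo {g : ℂ → PN M} (hg : OrderTwo g) {G : ℂ → EN M} (hG : IsLift G g) :
    ∃ A : ℝ, ∀ r : ℝ, 0 < r → Real.circleAverage (fun z => Real.log ‖G z‖) 0 r ≤ A * (1 + r ^ 2) := by
  obtain ⟨F₀, A, hF, hFg, hA⟩ := hg
  have hF0 : ∀ z, F₀ z ≠ 0 := fun z => (hFg z).1
  obtain ⟨h1, h2, A', hA'⟩ := circleAverage_toLp_le hF hF0 hA
  have h3 : OrdTwo fun z => (WithLp.toLp 2 (F₀ z) : EN M) := fin_ordTwo h1 h2 hA'
  refine circleAverage_le_of_ordTwo hG.1 (fun z => hG.ne_zero z) (h3.congr fun z => ?_)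
  obtain ⟨h4, h5⟩ := hFg z
  obtain ⟨h6, h7⟩ := hG.2 z
  obtain ⟨c, hc, h8⟩ := Pool.Agent.H13.OT.pr_of_mk_eq h6 h4 (h7.symm.trans h5)
  refine ⟨c, hc, ?_⟩
  apply WithLp.ofLp_injective 2
  rw [h8]
  rfl

/-! ## monotonicity in `δ` -/

end Pool.Agent.MQ

end
end

section

/-!
# MQ2 LeafN: all points of a leaf are points of leaves; equations of leaves are invariant
-/

set_option autoImplicit false

open Topology Filter Metric

noncomputable section

namespace Pool.Agent.MQ2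

open Pool.Agent.MQ

/-- the points of a leaf -/
theorem leafIn_shift {v : ℂ × ℂ → ℂ × ℂ} {q : ℂ × ℂ → ℂ} {γ : ℂ → ℂ × ℂ} (hγ : AnalyticAt ℂ γ 0)
    (he : ∀ᶠ t in 𝓝 (0 : ℂ), (v (γ t)).1 * (deriv γ t).2 = (v (γ t)).2 * (deriv γ t).1 ∧ q (γ t) = 0) (hf : ∃ᶠ t in 𝓝 (0 : ℂ), γ t ≠ γ 0) :
    ∀ᶠ t in 𝓝 (0 : ℂ), LeafIn v q (γ t) := by
  obtain ⟨ρ, hρ, hall⟩ := Metric.eventually_nhds_iff_ball.1 (he.and hγ.eventually_analyticAt)
  refine Metric.eventually_nhds_iff_ball.2 ⟨ρ, hρ, fun s hs => ?_⟩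
  have hst : Tendsto (fun t : ℂ => s + t) (𝓝 0) (𝓝 s) := (by fun_prop : Continuous fun t : ℂ => s + t).tendsto' _ _ (add_zero s)
  refine ⟨fun t => γ (s + t), ?_, by simp, ?_, ?_⟩
  · refine AnalyticAt.fun_comp (g := γ) (f := fun t => s + t) ?_ (by fun_prop)
    rw [add_zero]
    exact (hall s hs).2
  · filter_upwards [hst.eventually (isOpen_ball.mem_nhds hs)] with t ht
    rw [deriv_comp_const_add]
    exact (hall _ ht).1
  · intro hcon
    have h1 : ∀ᶠ t in 𝓝 s, γ t = γ s := by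
      have h2 : Tendsto (fun t : ℂ => t - s) (𝓝 s) (𝓝 0) := (by fun_prop : Continuous fun t : ℂ => t - s).tendsto' _ _ (sub_self s)
      filter_upwards [h2.eventually hcon] with t ht
      simpa using ht
    have han : AnalyticOnNhd ℂ γ (ball 0 ρ) := fun t ht => (hall t ht).2
    have h3 := han.eqOn_of_preconnected_of_eventuallyEq (analyticOnNhd_const (v := γ s)) (convex_ball (0 : ℂ) ρ).isPreconnected hs h1
    apply hf
    filter_upwards [isOpen_ball.mem_nhds (mem_ball_self hρ)] with t ht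
    rw [not_not, h3 ht, h3 (mem_ball_self hρ)]

end Pool.Agent.MQ2

end
end

section

/-!
# MQ3 GInvNC: a formal curve in an algebraic curve is a leaf in it
-/

set_option autoImplicit false

open Topology Filter Metric Asymptotics

noncomputable section

namespace Pool.Agent.MQ3

open Pool.Agent.MQ Pool.Agent.MQ2 Pool.Agent.MQ2.SepAux

/-- the derivative of a germ of order `n + 1` -/
private theorem deriv_isBigO {u : ℂ → ℂ} (hu : AnalyticAt ℂ u 0) {n : ℕ} (h : u =O[𝓝 0] fun t : ℂ => t ^ (n + 1)) :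
    (deriv u) =O[𝓝 0] fun t : ℂ => t ^ n := by
  rw [isBigO_pow_iff hu] at h
  obtain ⟨q, hq, huq⟩ := (natCast_le_analyticOrderAt hu).1 h
  have h1 : ∀ᶠ t in 𝓝 (0 : ℂ), deriv u t = t ^ n * (((n + 1 : ℕ) : ℂ) * q t + t * deriv q t) := by
    filter_upwards [huq.eventually_nhds, hq.eventually_analyticAt] with t ht hqt
    have h2 : u =ᶠ[𝓝 t] fun z => z ^ (n + 1) * q z := by
      filter_upwards [ht] with z hz
      rw [hz, sub_zero, smul_eq_mul]
    rw [h2.deriv_eq]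
    have h3 : HasDerivAt (fun z : ℂ => z ^ (n + 1) * q z) (((n + 1 : ℕ) : ℂ) * t ^ n * q t + t ^ (n + 1) * deriv q t) t :=
      (hasDerivAt_pow (n + 1) t).mul hqt.differentiableAt.hasDerivAt
    rw [h3.deriv]
    ring
  have h2' : ContinuousAt (fun t : ℂ => ((n + 1 : ℕ) : ℂ) * q t + t * deriv q t) 0 :=
    (continuousAt_const.mul hq.continuousAt).add (continuousAt_id.mul hq.deriv.continuousAt)
  have h2 : (fun t : ℂ => ((n + 1 : ℕ) : ℂ) * q t + t * deriv q t) =O[𝓝 0] fun _ : ℂ => (1 : ℂ) := h2'.isBigO_one ℂ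
  have h3 := (isBigO_refl (fun t : ℂ => t ^ n) (𝓝 0)).mul h2
  refine IsBigO.congr' h3 (h1.mono fun t ht => ht.symm) (Eventually.of_forall fun t => mul_one _)

/-- a germ of infinite order -/
private theorem zero_of_all {u : ℂ → ℂ} (hu : AnalyticAt ℂ u 0) (h : ∀ n : ℕ, u =O[𝓝 0] fun t : ℂ => t ^ n) : ∀ᶠ t in 𝓝 (0 : ℂ), u t = 0 := by
  rw [← analyticOrderAt_eq_top]
  by_contra hcon
  obtain ⟨n, hn⟩ := ENat.ne_top_iff_exists.1 hcon
  have h1 := (isBigO_pow_iff hu (n + 1)).1 (h (n + 1))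
  rw [← hn, Nat.cast_le] at h1
  omega

/-- a formal curve in `{f = 0}` lies in every curve which contains the leaves in `{f = 0}` -/
theorem fzero_leaf {v : ℂ × ℂ → ℂ × ℂ} (hv : AnalyticAt ℂ v 0) {c : ℕ → ℂ → ℂ × ℂ} (hc : Sep v c) {f : ℂ × ℂ → ℂ} (hf : AnalyticAt ℂ f 0)
    (hf0 : ∃ᶠ p in 𝓝 (0 : ℂ × ℂ), f p ≠ 0) (hz : FZero c f) {g : ℂ × ℂ → ℂ} (hg : AnalyticAt ℂ g 0)
    (hgz : ∀ᶠ p in 𝓝 (0 : ℂ × ℂ), p ≠ 0 → LeafIn v f p → g p = 0) : FZero c g := by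
  obtain ⟨γ, hγ, hγc⟩ := hc.alg f hf hf0 hz
  have hγ0 : γ 0 = 0 := by
    obtain ⟨B, hB⟩ := (hγc 0).bound
    have h1 := hB.self_of_nhds
    rw [hc.zero, sub_zero, zero_add, pow_one, norm_zero, mul_zero] at h1
    exact norm_le_zero_iff.1 h1
  -- functions along the two curves
  have hcomp : ∀ {q : ℂ × ℂ → ℂ}, AnalyticAt ℂ q 0 → ∀ N, (fun t => q (γ t) - q (c N t)) =O[𝓝 0] fun t : ℂ => t ^ (N + 1) := by
    intro q hq N
    refine comp_sub hγ.continuousAt (hc.an N).continuousAt ?_ ?_ (hγc N)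
    · rw [hγ0, hc.zero]
    · rw [hc.zero]; exact hq
  have han : ∀ {q : ℂ × ℂ → ℂ}, AnalyticAt ℂ q 0 → AnalyticAt ℂ (fun t => q (γ t)) 0 := fun {q} hq => AnalyticAt.comp_of_eq (f := γ) hq hγ hγ0
  have hzero : ∀ {q : ℂ × ℂ → ℂ}, AnalyticAt ℂ q 0 → FZero c q → ∀ᶠ t in 𝓝 (0 : ℂ), q (γ t) = 0 := by
    intro q hq hq0
    refine zero_of_all (han hq) fun n => ?_
    have h1 := (hcomp hq n).add (hq0 n)
    refine pow_mono (h1.congr_left fun t => ?_) (Nat.le_succ n)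
    ring
  have hf1 := hzero hf hz
  -- the curve is tangent to `v`
  have hγ1 : AnalyticAt ℂ (fun t => (γ t).1) 0 := analyticAt_fst.comp hγ
  have hγ2 : AnalyticAt ℂ (fun t => (γ t).2) 0 := analyticAt_snd.comp hγ
  have hc1 : ∀ N, AnalyticAt ℂ (fun t => (c N t).1) 0 := fun N => analyticAt_fst.comp (hc.an N)
  have hc2 : ∀ N, AnalyticAt ℂ (fun t => (c N t).2) 0 := fun N => analyticAt_snd.comp (hc.an N)
  have hv1 : AnalyticAt ℂ (fun p => (v p).1) 0 := analyticAt_fst.comp hv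
  have hv2 : AnalyticAt ℂ (fun p => (v p).2) 0 := analyticAt_snd.comp hv
  have hd1 : ∀ {a : ℂ → ℂ × ℂ}, AnalyticAt ℂ a 0 → ∀ᶠ t in 𝓝 (0 : ℂ), (deriv a t).1 = deriv (fun t => (a t).1) t ∧ (deriv a t).2 = deriv (fun t => (a t).2) t := by
    intro a ha
    filter_upwards [ha.eventually_analyticAt] with t ht
    have h1 := ht.differentiableAt.hasDerivAt
    exact ⟨(HasDerivAt.deriv h1.fst).symm, (HasDerivAt.deriv h1.snd).symm⟩
  have hdd : ∀ N, (fun t => deriv (fun t => (γ t).1) t - deriv (fun t => (c N t).1) t) =O[𝓝 0] fun t : ℂ => t ^ N := by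
    intro N
    have h1 : (fun t => (γ t).1 - (c N t).1) =O[𝓝 0] fun t : ℂ => t ^ (N + 1) := by
      refine IsBigO.trans ?_ (hγc N)
      exact IsBigO.of_bound 1 (Eventually.of_forall fun t => by
        rw [one_mul]; exact norm_fst_le (γ t - c N t))
    have h2 := deriv_isBigO (hγ1.sub (hc1 N)) h1
    refine IsBigO.congr' h2 ?_ EventuallyEq.rfl
    filter_upwards [hγ1.eventually_analyticAt, (hc1 N).eventually_analyticAt] with t ht ht'
    exact deriv_fun_sub ht.differentiableAt ht'.differentiableAt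
  have hdd2 : ∀ N, (fun t => deriv (fun t => (γ t).2) t - deriv (fun t => (c N t).2) t) =O[𝓝 0] fun t : ℂ => t ^ N := by
    intro N
    have h1 : (fun t => (γ t).2 - (c N t).2) =O[𝓝 0] fun t : ℂ => t ^ (N + 1) := by
      refine IsBigO.trans ?_ (hγc N)
      exact IsBigO.of_bound 1 (Eventually.of_forall fun t => by
        rw [one_mul]; exact norm_snd_le (γ t - c N t))
    have h2 := deriv_isBigO (hγ2.sub (hc2 N)) h1
    refine IsBigO.congr' h2 ?_ EventuallyEq.rfl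
    filter_upwards [hγ2.eventually_analyticAt, (hc2 N).eventually_analyticAt] with t ht ht'
    exact deriv_fun_sub ht.differentiableAt ht'.differentiableAt
  have hW : ∀ᶠ t in 𝓝 (0 : ℂ), (v (γ t)).1 * deriv (fun t => (γ t).2) t - (v (γ t)).2 * deriv (fun t => (γ t).1) t = 0 := by
    refine zero_of_all (((han hv1).mul hγ2.deriv).sub ((han hv2).mul hγ1.deriv)) fun N => ?_
    have b1 : (fun t => deriv (fun t => (γ t).2) t) =O[𝓝 0] fun _ : ℂ => (1 : ℂ) := hγ2.deriv.continuousAt.isBigO_one ℂ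
    have b2 : (fun t => deriv (fun t => (γ t).1) t) =O[𝓝 0] fun _ : ℂ => (1 : ℂ) := hγ1.deriv.continuousAt.isBigO_one ℂ
    have b3 : (fun t => (v (c N t)).1) =O[𝓝 0] fun _ : ℂ => (1 : ℂ) := (q_an hc hv1 N).continuousAt.isBigO_one ℂ
    have b4 : (fun t => (v (c N t)).2) =O[𝓝 0] fun _ : ℂ => (1 : ℂ) := (q_an hc hv2 N).continuousAt.isBigO_one ℂ
    have e1 := (pow_mono (hcomp hv1 N) (Nat.le_succ N)).mul b1
    have e2 := (pow_mono (hcomp hv2 N) (Nat.le_succ N)).mul b2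
    have e3 := b3.mul (hdd2 N)
    have e4 := b4.mul (hdd N)
    simp only [mul_one, one_mul] at e1 e2 e3 e4
    have e5 : (fun t => (v (c N t)).1 * deriv (fun t => (c N t).2) t - (v (c N t)).2 * deriv (fun t => (c N t).1) t) =O[𝓝 0] fun t : ℂ => t ^ N := by
      refine IsBigO.congr' (hc.tan N) ?_ EventuallyEq.rfl
      filter_upwards [hd1 (hc.an N)] with t ht
      rw [ht.1, ht.2]
    have e6 := ((e1.add e3).sub (e2.add e4)).add e5
    refine e6.congr_left fun t => ?_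
    ring
  have he : ∀ᶠ t in 𝓝 (0 : ℂ), (v (γ t)).1 * (deriv γ t).2 = (v (γ t)).2 * (deriv γ t).1 ∧ f (γ t) = 0 := by
    filter_upwards [hW, hd1 hγ, hf1] with t h1 h2 h3
    refine ⟨?_, h3⟩
    rw [h2.1, h2.2]
    exact sub_eq_zero.1 h1
  -- it is not constant
  have hnc : ∃ᶠ t in 𝓝 (0 : ℂ), γ t ≠ γ 0 := by
    intro hcon
    obtain ⟨N, hN⟩ := hc.nc
    apply hN
    have h1 := (hγc N).neg_left
    refine IsBigO.congr' h1 ?_ EventuallyEq.rfl
    filter_upwards [hcon] with t ht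
    rw [not_not] at ht
    rw [ht, hγ0, zero_sub, neg_neg]
  have hL := leafIn_shift hγ he hnc
  have hg1 : ∀ᶠ t in 𝓝 (0 : ℂ), g (γ t) = 0 := by
    rw [← (han hg).frequently_zero_iff_eventually_zero]
    have h0 : ∀ᶠ t in 𝓝[≠] (0 : ℂ), γ t ≠ 0 := by
      rcases hγ.eventually_eq_or_eventually_ne (analyticAt_const (v := (0 : ℂ × ℂ))) with h | h
      · exfalso
        apply hnc
        filter_upwards [h] with t ht
        rw [not_not, ht, hγ0]
      · exact h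
    have h2 : Tendsto γ (𝓝[≠] (0 : ℂ)) (𝓝 0) := by
      have := hγ.continuousAt.tendsto
      rw [hγ0] at this
      exact this.mono_left nhdsWithin_le_nhds
    refine Eventually.frequently ?_
    filter_upwards [h0, h2.eventually hgz, nhdsWithin_le_nhds hL] with t h3 h4 h5
    exact h4 h3 h5
  intro N
  refine ((hcomp hg N).neg_left.congr' ?_ EventuallyEq.rfl)
  filter_upwards [hg1] with t ht
  rw [ht]
  ring

end Pool.Agent.MQ3

end
end

section

/-!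
# MQ3 GlobP: boxes of the surface `Y`
-/

set_option autoImplicit false

open Topology Filter Metric MvPolynomial MeasureTheory

noncomputable section

namespace Pool.Agent.MQ3

open Pool.Agent.H36.BP (EN fs)
open Pool.Agent.H17BP (Surface IsChart NodalAt Pr Bihol)
open Pool.Agent.H17EF (projVar coneE)
open Pool.Agent.MQ (lam En)

/-! ## charts in a normed space -/

section general

variable {V : Type} [NormedAddCommGroup V] [NormedSpace ℂ V] {Y : Set V} {σ : ℂ × ℂ → V} {τ : V → ℂ × ℂ}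

theorem gp_dual {x : V} (hx : x ≠ 0) : ∃ Λ : V →L[ℂ] ℂ, Λ x ≠ 0 := by
  obtain ⟨Λ, hΛ⟩ := exists_dual_vector ℂ x (norm_ne_zero_iff.mpr hx)
  refine ⟨Λ, ?_⟩
  rw [hΛ.2]
  simpa using hx

/-- being proportional is a closed condition -/
theorem not_pr_eventually {v w : V} (hv : v ≠ 0) (hw : w ≠ 0) (h : ¬ Pr v w) : ∀ᶠ p in 𝓝 (v, w), ¬ Pr p.1 p.2 := by
  obtain ⟨Λ, hΛ⟩ := gp_dual hw
  have h1 : Λ w • v - Λ v • w ≠ 0 := by
    intro h0
    have h2 : v = ((Λ w)⁻¹ * Λ v) • w := by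
      rw [mul_smul, ← sub_eq_zero.1 h0, smul_smul, inv_mul_cancel₀ hΛ, one_smul]
    refine h ⟨_, ?_, h2⟩
    intro h3
    rw [h3, zero_smul] at h2
    exact hv h2
  have hc : Continuous fun p : V × V => Λ p.2 • p.1 - Λ p.1 • p.2 := by fun_prop
  have h2 : ∀ᶠ p in 𝓝 (v, w), Λ p.2 • p.1 - Λ p.1 • p.2 ≠ 0 := hc.continuousAt.eventually_ne h1
  filter_upwards [h2] with p hp
  rintro ⟨c, -, hc⟩
  apply hp
  rw [hc, map_smul, smul_eq_mul, smul_smul, mul_comm, sub_self]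

theorem chart_inj_pr (h : IsChart Y σ τ) : ∀ᶠ p in 𝓝 ((0 : ℂ × ℂ), (0 : ℂ × ℂ)), Pr (σ p.1) (σ p.2) → p.1 = p.2 := by
  obtain ⟨Λ, hΛ⟩ := gp_dual h.ne
  have hσ : Tendsto σ (𝓝 0) (𝓝 (σ 0)) := h.σ_an.continuousAt.tendsto
  have t1 : Tendsto (fun p : (ℂ × ℂ) × (ℂ × ℂ) => p.1) (𝓝 ((0 : ℂ × ℂ), (0 : ℂ × ℂ))) (𝓝 0) := continuous_fst.tendsto _
  have t2 : Tendsto (fun p : (ℂ × ℂ) × (ℂ × ℂ) => p.2) (𝓝 ((0 : ℂ × ℂ), (0 : ℂ × ℂ))) (𝓝 0) := continuous_snd.tendsto _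
  have hL : Tendsto (fun p => Λ (σ p)) (𝓝 0) (𝓝 (Λ (σ 0))) := (Λ.continuous.tendsto _).comp hσ
  have h1 : Tendsto (fun p : (ℂ × ℂ) × (ℂ × ℂ) => (σ p.2, Λ (σ p.1) / Λ (σ p.2))) (𝓝 ((0 : ℂ × ℂ), (0 : ℂ × ℂ))) (𝓝 (σ 0, (1 : ℂ))) := by
    refine (hσ.comp t2).prodMk_nhds ?_
    have := (hL.comp t1).div (hL.comp t2) hΛ
    rwa [div_self hΛ] at this
  filter_upwards [h1.eventually h.inv, t1.eventually h.left, t2.eventually h.left, (hL.comp t2).eventually_ne hΛ] with p g1 g2 g3 g4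
  rintro ⟨c, hc, g5⟩
  have g4' : Λ (σ p.2) ≠ 0 := g4
  have g6 : Λ (σ p.1) / Λ (σ p.2) = c := by
    rw [div_eq_iff g4', g5, map_smul, smul_eq_mul]
  simp only [g6] at g1
  rw [← g2, g5, g1, g3]

/-- a chart is immersive modulo the radial direction -/
theorem chart_imm_zero [FiniteDimensional ℂ V] (h : IsChart Y σ τ) {w : ℂ × ℂ} {a : ℂ} (hw : fderiv ℂ σ 0 w = a • σ 0) : w = 0 := by
  have d1 : HasFDerivAt σ (fderiv ℂ σ 0) 0 := h.σ_an.differentiableAt.hasFDerivAt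
  have d2 : HasFDerivAt τ (fderiv ℂ τ (σ 0)) (σ 0) := h.τ_an.differentiableAt.hasFDerivAt
  have d3 : HasFDerivAt (τ ∘ σ) ((fderiv ℂ τ (σ 0)).comp (fderiv ℂ σ 0)) 0 := d2.comp 0 d1
  have d4 : HasFDerivAt (τ ∘ σ) (ContinuousLinearMap.id ℂ (ℂ × ℂ)) 0 := by
    refine (hasFDerivAt_id (0 : ℂ × ℂ)).congr_of_eventuallyEq ?_
    filter_upwards [h.left] with x hx
    exact hx
  have d5 := d3.unique d4
  have d6 : fderiv ℂ τ (σ 0) (fderiv ℂ σ 0 w) = w := by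
    have : ((fderiv ℂ τ (σ 0)).comp (fderiv ℂ σ 0)) w = w := by rw [d5]; rfl
    exact this
  have d7 : fderiv ℂ τ (σ 0) (σ 0) = 0 := by
    have e1 : HasDerivAt (fun c : ℂ => c • σ 0) (σ 0) 1 := by
      simpa using (hasDerivAt_id (1 : ℂ)).smul_const (σ 0)
    have d2' : HasFDerivAt τ (fderiv ℂ τ (σ 0)) ((1 : ℂ) • σ 0) := by rwa [one_smul]
    have e2 : HasDerivAt (fun c : ℂ => τ (c • σ 0)) (fderiv ℂ τ (σ 0) (σ 0)) 1 := d2'.comp_hasDerivAt (1 : ℂ) e1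
    have t : Tendsto (fun c : ℂ => (σ 0, c)) (𝓝 1) (𝓝 (σ 0, (1 : ℂ))) := tendsto_const_nhds.prodMk_nhds tendsto_id
    have e3 : HasDerivAt (fun c : ℂ => τ (c • σ 0)) 0 1 := by
      refine (hasDerivAt_const (1 : ℂ) (τ (σ 0))).congr_of_eventuallyEq ?_
      filter_upwards [t.eventually h.inv] with c hc
      exact hc
    exact e2.unique e3
  rw [← d6, hw, map_smul, d7, smul_zero]

theorem gp_closedBall {E : Type*} [NormedAddCommGroup E] {p : E → Prop} (h : ∀ᶠ x in 𝓝 (0 : E), p x) :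
    ∀ᶠ r in 𝓝[>] (0 : ℝ), ∀ x ∈ closedBall (0 : E) r, p x := by
  obtain ⟨ε, hε, h1⟩ := Metric.eventually_nhds_iff_ball.1 h
  filter_upwards [mem_nhdsWithin_of_mem_nhds (Iio_mem_nhds hε)] with r hr x hx
  exact h1 x (mem_ball.2 (lt_of_le_of_lt (mem_closedBall.1 hx) (Set.mem_Iio.1 hr)))

/-- scaling of the coordinates -/
theorem bihol_scale {s : ℂ} (hs : s ≠ 0) : Bihol (fun x => s • x) := by
  refine ⟨analyticAt_id.const_smul (c := s), smul_zero s, fun x => s⁻¹ • x, analyticAt_id.const_smul (c := s⁻¹), smul_zero _,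
    Eventually.of_forall fun x => ?_, Eventually.of_forall fun x => ?_⟩
  · show s⁻¹ • s • x = x
    rw [smul_smul, inv_mul_cancel₀ hs, one_smul]
  · show s • s⁻¹ • x = x
    rw [smul_smul, mul_inv_cancel₀ hs, one_smul]

theorem chart_smul (h : IsChart Y σ τ) {s : ℂ} (hs : s ≠ 0) : IsChart Y (fun x => σ (s • x)) (fun y => s⁻¹ • τ y) :=
  h.comp (bihol_scale hs) (bihol_scale (inv_ne_zero hs))
    (Eventually.of_forall fun x => by rw [smul_smul, inv_mul_cancel₀ hs, one_smul])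
    (Eventually.of_forall fun x => by rw [smul_smul, mul_inv_cancel₀ hs, one_smul])

theorem bihol_swap : Bihol (fun x => (x.2, x.1)) :=
  ⟨analyticAt_snd.prod analyticAt_fst, rfl, fun x => (x.2, x.1), analyticAt_snd.prod analyticAt_fst, rfl,
    Eventually.of_forall fun _ => rfl, Eventually.of_forall fun _ => rfl⟩

theorem chart_swap (h : IsChart Y σ τ) : IsChart Y (fun x => σ (x.2, x.1)) (fun y => ((τ y).2, (τ y).1)) :=
  h.comp bihol_swap bihol_swap (Eventually.of_forall fun _ => rfl) (Eventually.of_forall fun _ => rfl)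

end general

/-! ## the boxes -/

variable {M : ℕ} {P : Ideal (MvPolynomial (Fin (M + 1)) ℂ)} {RD : MvPolynomial (Fin (M + 1)) ℂ}

/-- `y` is a crossing point of the divisor -/
def Cr (S : NCOver P RD) (y : S.V) : Prop :=
  ¬ ∃ (σ : ℂ × ℂ → S.V) (τ : S.V → ℂ × ℂ), IsChart S.Y σ τ ∧ Pr (σ 0) y ∧
    ((∀ᶠ p in 𝓝 (0 : ℂ × ℂ), σ p ∉ S.D) ∨ ∀ᶠ p in 𝓝 (0 : ℂ × ℂ), (σ p ∈ S.D ↔ p.1 = 0))

theorem Cr.pr {S : NCOver P RD} {y y' : S.V} (h : Cr S y) (hy : Pr y y') : Cr S y' := by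
  rintro ⟨σ, τ, h1, h2, h3⟩
  exact h ⟨σ, τ, h1, h2.trans hy.symm, h3⟩

/-- a box of `Y` -/
structure PBox (S : NCOver P RD) where
  σ : ℂ × ℂ → S.V
  ρ : ℂ × ℂ → EN M
  c : ℂ × ℂ
  b : ℝ
  ty : (c = 0 ∧ b = 1) ∨ (c = (0, 1 / 2) ∧ b = 1 / 4) ∨ (c = (1 / 2, 1 / 2) ∧ b = 1 / 4)
  chart : ∀ p ∈ closedBall (0 : ℂ × ℂ) 1, ∃ τ, IsChart S.Y (fun x => σ (p + x)) τ
  inj : ∀ p ∈ closedBall (0 : ℂ × ℂ) 1, ∀ q ∈ closedBall (0 : ℂ × ℂ) 1, Pr (σ p) (σ q) → p = q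
  ρ_an : ∀ p ∈ closedBall (0 : ℂ × ℂ) 1, AnalyticAt ℂ ρ p
  ov : ∀ p ∈ closedBall (0 : ℂ × ℂ) 1, ∀ᶠ q in 𝓝 p, S.Ov (σ q) (ρ q)
  off : ∀ p ∈ DS, σ p ∉ S.D
  div : ∀ p ∈ ball c b, (σ p ∈ S.D ↔ p.1 * p.2 = 0)
  cr : c = 0 → Cr S (σ 0)

theorem DD_eq : DD = ball (0 : ℂ × ℂ) 1 := by
  ext p
  rw [mem_ball_zero_iff, Prod.norm_def, max_lt_iff]
  rfl

variable {S : NCOver P RD}

theorem PBox.b_pos (B : PBox S) : 0 < B.b := by
  rcases B.ty with ⟨-, h⟩ | ⟨-, h⟩ | ⟨-, h⟩ <;> rw [h] <;> norm_num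

theorem PBox.sub (B : PBox S) : ball B.c B.b ⊆ ball (0 : ℂ × ℂ) 1 := by
  have key : ‖B.c‖ + B.b ≤ 1 := by
    rcases B.ty with ⟨h1, h2⟩ | ⟨h1, h2⟩ | ⟨h1, h2⟩ <;> rw [h1, h2]
    · simp
    · rw [Prod.norm_def]
      norm_num
    · rw [Prod.norm_def]
      norm_num
  intro p hp
  rw [mem_ball_zero_iff]
  rw [mem_ball, dist_eq_norm] at hp
  calc ‖p‖ = ‖(p - B.c) + B.c‖ := by rw [sub_add_cancel]
    _ ≤ ‖p - B.c‖ + ‖B.c‖ := norm_add_le _ _
    _ < 1 := by linarith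

theorem PBox.sub' (B : PBox S) : ball B.c B.b ⊆ closedBall (0 : ℂ × ℂ) 1 := B.sub.trans ball_subset_closedBall

theorem DS_sub : DS ⊆ closedBall (0 : ℂ × ℂ) 1 := by
  intro p hp
  rw [mem_closedBall_zero_iff, Prod.norm_def]
  exact max_le hp.1.2.le hp.2.2.le

/-- only the center of a corner box is a crossing point -/
theorem PBox.ncr (B : PBox S) {p : ℂ × ℂ} (hp : p ∈ ball B.c B.b) (h0 : p ≠ 0) : ¬ Cr S (B.σ p) := by
  obtain ⟨τ, hτ⟩ := B.chart p (B.sub' hp)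
  intro hcr
  have hadd : Tendsto (fun x : ℂ × ℂ => p + x) (𝓝 0) (𝓝 p) := by
    have h1 : Continuous fun x : ℂ × ℂ => p + x := by fun_prop
    simpa using h1.tendsto 0
  have hD : ∀ᶠ x in 𝓝 (0 : ℂ × ℂ), (B.σ (p + x) ∈ S.D ↔ (p.1 + x.1) * (p.2 + x.2) = 0) := by
    filter_upwards [hadd.eventually (isOpen_ball.mem_nhds hp)] with x hx
    exact B.div _ hx
  have e0 : B.σ (p + 0) = B.σ p := by rw [add_zero]
  have n1 : p.1 ≠ 0 → ∀ᶠ x in 𝓝 (0 : ℂ × ℂ), p.1 + x.1 ≠ 0 := fun h => by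
    have h1 : ContinuousAt (fun x : ℂ × ℂ => p.1 + x.1) 0 := by fun_prop
    exact h1.eventually_ne (by simpa using h)
  have n2 : p.2 ≠ 0 → ∀ᶠ x in 𝓝 (0 : ℂ × ℂ), p.2 + x.2 ≠ 0 := fun h => by
    have h1 : ContinuousAt (fun x : ℂ × ℂ => p.2 + x.2) 0 := by fun_prop
    exact h1.eventually_ne (by simpa using h)
  by_cases h1 : p.1 = 0
  · have h2 : p.2 ≠ 0 := fun h => h0 (Prod.ext h1 h)
    refine hcr ⟨_, _, hτ, by rw [e0]; exact Pool.Agent.H17BP.Pr.refl _, Or.inr ?_⟩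
    filter_upwards [hD, n2 h2] with x h3 h4
    rw [h3, h1, zero_add, mul_eq_zero]
    exact ⟨fun h => h.resolve_right h4, Or.inl⟩
  · by_cases h2 : p.2 = 0
    · have ht : Tendsto (fun x : ℂ × ℂ => ((x.2, x.1) : ℂ × ℂ)) (𝓝 0) (𝓝 0) := by
        have : Continuous fun x : ℂ × ℂ => ((x.2, x.1) : ℂ × ℂ) := by fun_prop
        exact this.tendsto' _ _ rfl
      refine hcr ⟨_, _, chart_swap hτ, ?_, Or.inr ?_⟩
      · show Pr (B.σ (p + (0, 0))) _
        rw [show ((0 : ℂ), (0 : ℂ)) = 0 from rfl, e0]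
        exact Pool.Agent.H17BP.Pr.refl _
      · filter_upwards [ht.eventually hD, ht.eventually (n1 h1)] with x h3 h4
        rw [h3, h2, zero_add, mul_eq_zero]
        exact ⟨fun h => h.resolve_left h4, Or.inr⟩
    · refine hcr ⟨_, _, hτ, by rw [e0]; exact Pool.Agent.H17BP.Pr.refl _, Or.inl ?_⟩
      filter_upwards [hD, n1 h1, n2 h2] with x h3 h4 h5
      rw [h3]
      exact mul_ne_zero h4 h5

/-! ## existence of boxes -/

theorem mk_pbox (S : NCOver P RD) {σ : ℂ × ℂ → S.V} {τ : S.V → ℂ × ℂ} (h : IsChart S.Y σ τ) {Z : ℂ × ℂ → Prop}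
    (hZ : ∀ᶠ x in 𝓝 (0 : ℂ × ℂ), (σ x ∈ S.D ↔ Z x)) {c : ℂ × ℂ} {b : ℝ}
    (ty : (c = 0 ∧ b = 1) ∨ (c = (0, 1 / 2) ∧ b = 1 / 4) ∨ (c = (1 / 2, 1 / 2) ∧ b = 1 / 4))
    (hoff : ∀ s : ℂ, s ≠ 0 → ∀ p ∈ DS, ¬ Z (s • (p - c))) (hdiv : ∀ s : ℂ, s ≠ 0 → ∀ p ∈ ball c b, (Z (s • (p - c)) ↔ p.1 * p.2 = 0))
    (hcr : c = 0 → Cr S (σ 0)) : ∃ B : PBox S, B.σ B.c = σ 0 := by
  obtain ⟨π, hπ, hov⟩ := S.germ (σ 0) h.σ_mem.self_of_nhds
  have hσ : Tendsto σ (𝓝 0) (𝓝 (σ 0)) := h.σ_an.continuousAt.tendsto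
  have hρ : AnalyticAt ℂ (fun x => π (σ x)) 0 := AnalyticAt.comp (g := π) (f := σ) hπ h.σ_an
  have hov' : ∀ᶠ x in 𝓝 (0 : ℂ × ℂ), S.Ov (σ x) (π (σ x)) := by
    filter_upwards [hσ.eventually hov, h.σ_mem] with x h1 h2
    exact h1 h2
  obtain ⟨r, h1, h2, h3, h4, h5, h6⟩ := ((gp_closedBall h.near).and ((gp_closedBall (E := (ℂ × ℂ) × (ℂ × ℂ)) (chart_inj_pr h)).and
    ((gp_closedBall hρ.eventually_analyticAt).and ((gp_closedBall hov'.eventually_nhds).and ((gp_closedBall hZ).and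
      (self_mem_nhdsWithin : ∀ᶠ r in 𝓝[>] (0 : ℝ), r ∈ Set.Ioi (0 : ℝ))))))).exists
  have h6' : 0 < r := h6
  set s : ℂ := ((r / 2 : ℝ) : ℂ) with hs
  have hs0 : s ≠ 0 := by
    rw [hs]
    exact_mod_cast (by positivity : (r / 2 : ℝ) ≠ 0)
  have hsn : ‖s‖ = r / 2 := by
    rw [hs, Complex.norm_real, Real.norm_of_nonneg (by positivity)]
  have hcn : ‖c‖ ≤ 1 / 2 := by
    rcases ty with ⟨h7, -⟩ | ⟨h7, -⟩ | ⟨h7, -⟩ <;> rw [h7]
    · simp
    · rw [Prod.norm_def]; norm_num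
    · rw [Prod.norm_def]; norm_num
  obtain ⟨m, hm⟩ : ∃ m : ℂ × ℂ → ℂ × ℂ, ∀ p, m p = s • (p - c) := ⟨fun p => s • (p - c), fun _ => rfl⟩
  have hmb : ∀ p ∈ closedBall (0 : ℂ × ℂ) 1, m p ∈ closedBall (0 : ℂ × ℂ) r := by
    intro p hp
    rw [mem_closedBall_zero_iff] at hp ⊢
    rw [hm, norm_smul, hsn]
    have h7 : ‖p - c‖ ≤ ‖p‖ + ‖c‖ := norm_sub_le _ _
    nlinarith
  have hmc : Continuous m := by
    have : m = fun p => s • (p - c) := funext hm
    rw [this]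
    fun_prop
  have hman : ∀ p, AnalyticAt ℂ m p := fun p => by
    have : m = fun p => s • (p - c) := funext hm
    rw [this]
    exact (analyticAt_id.sub analyticAt_const).const_smul (c := s)
  have hminj : ∀ p q, m p = m q → p = q := by
    intro p q h7
    rw [hm, hm] at h7
    have h8 := (smul_right_injective (ℂ × ℂ) hs0) h7
    exact sub_left_injective h8
  refine ⟨{
    σ := fun p => σ (m p)
    ρ := fun p => π (σ (m p))
    c := c
    b := b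
    ty := ty
    chart := ?_
    inj := ?_
    ρ_an := ?_
    ov := ?_
    off := ?_
    div := ?_
    cr := ?_ }, ?_⟩
  · intro p hp
    have h7 := chart_smul (h1 _ (hmb p hp)) hs0
    refine ⟨fun y => s⁻¹ • (τ y - m p), ?_⟩
    have h8 : (fun x => σ (m (p + x))) = fun x => σ (m p + s • x) := by
      funext x
      rw [hm, hm, ← smul_add]
      congr 2
      abel
    rw [h8]
    exact h7
  · intro p hp q hq h7
    refine hminj p q (h2 (m p, m q) ?_ h7)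
    rw [mem_closedBall_zero_iff, Prod.norm_def]
    exact max_le (mem_closedBall_zero_iff.1 (hmb p hp)) (mem_closedBall_zero_iff.1 (hmb q hq))
  · intro p hp
    exact AnalyticAt.comp (g := fun x => π (σ x)) (f := m) (h3 _ (hmb p hp)) (hman p)
  · intro p hp
    exact (hmc.tendsto p).eventually (h4 _ (hmb p hp))
  · intro p hp h7
    have h8 := (h5 _ (hmb p (DS_sub hp))).1 h7
    rw [hm] at h8
    exact hoff s hs0 p hp h8
  · intro p hp
    have hp' : p ∈ closedBall (0 : ℂ × ℂ) 1 := by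
      have key : ‖c‖ + b ≤ 1 := by
        rcases ty with ⟨h1, h2⟩ | ⟨h1, h2⟩ | ⟨h1, h2⟩ <;> rw [h1, h2]
        · simp
        · rw [Prod.norm_def]; norm_num
        · rw [Prod.norm_def]; norm_num
      rw [mem_closedBall_zero_iff]
      rw [mem_ball, dist_eq_norm] at hp
      calc ‖p‖ = ‖(p - c) + c‖ := by rw [sub_add_cancel]
        _ ≤ ‖p - c‖ + ‖c‖ := norm_add_le _ _
        _ ≤ 1 := by linarith
    have h7 := h5 _ (hmb p hp')
    rw [hm] at h7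
    show σ (m p) ∈ S.D ↔ _
    rw [hm, h7]
    exact hdiv s hs0 p hp
  · intro h7
    show Cr S (σ (m 0))
    have h8 : m 0 = 0 := by rw [hm, h7, sub_zero, smul_zero]
    rw [h8]
    exact hcr h7
  · show σ (m c) = σ 0
    rw [hm, sub_self, smul_zero]

theorem exists_pbox (S : NCOver P RD) {y : S.V} (hy : y ∈ S.Y) : ∃ B : PBox S, Pr (B.σ B.c) y := by
  have hhalf : ∀ z : ℂ, ‖z - 1 / 2‖ < 1 / 4 → z ≠ 0 := by
    rintro z hz rfl
    rw [zero_sub, norm_neg] at hz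
    norm_num at hz
  by_cases hcr : Cr S y
  · obtain ⟨σ, τ, h, h0, h1⟩ := S.nodal y hy
    have hp : Pr (σ 0) y := by rw [h0]; exact Pool.Agent.H17BP.Pr.refl _
    rcases h1 with h1 | h1 | h1
    · exact absurd ⟨σ, τ, h, hp, Or.inl h1⟩ hcr
    · exact absurd ⟨σ, τ, h, hp, Or.inr h1⟩ hcr
    · have e1 : ∀ s : ℂ, s ≠ 0 → ∀ p ∈ DS, ¬ (fun x : ℂ × ℂ => x.1 * x.2 = 0) (s • (p - 0)) := by
        intro s hs p hp
        rw [sub_zero]
        exact mul_ne_zero (mul_ne_zero hs hp.1.1) (mul_ne_zero hs hp.2.1)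
      have e2 : ∀ s : ℂ, s ≠ 0 → ∀ p ∈ ball (0 : ℂ × ℂ) 1, ((fun x : ℂ × ℂ => x.1 * x.2 = 0) (s • (p - 0)) ↔ p.1 * p.2 = 0) := by
        intro s hs p hp
        simp only [sub_zero, Prod.smul_fst, Prod.smul_snd, smul_eq_mul, mul_eq_zero, hs, false_or]
      obtain ⟨B, hB⟩ := mk_pbox S h h1 (c := 0) (b := 1) (Or.inl ⟨rfl, rfl⟩) e1 e2 (fun _ => by rw [h0]; exact hcr)
      exact ⟨B, by rw [hB]; exact hp⟩
  · have h1 : ∃ (σ : ℂ × ℂ → S.V) (τ : S.V → ℂ × ℂ), IsChart S.Y σ τ ∧ Pr (σ 0) y ∧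
        ((∀ᶠ p in 𝓝 (0 : ℂ × ℂ), σ p ∉ S.D) ∨ ∀ᶠ p in 𝓝 (0 : ℂ × ℂ), (σ p ∈ S.D ↔ p.1 = 0)) := not_not.1 hcr
    obtain ⟨σ, τ, h, h0, h1 | h1⟩ := h1
    · have e2 : ∀ s : ℂ, s ≠ 0 → ∀ p ∈ ball ((1 / 2, 1 / 2) : ℂ × ℂ) (1 / 4), ((fun _ : ℂ × ℂ => False) (s • (p - (1 / 2, 1 / 2))) ↔ p.1 * p.2 = 0) := by
        intro s hs p hp
        rw [mem_ball, dist_eq_norm, Prod.norm_def, max_lt_iff] at hp
        exact iff_of_false (fun h => h) (mul_ne_zero (hhalf _ hp.1) (hhalf _ hp.2))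
      obtain ⟨B, hB⟩ := mk_pbox S h (Z := fun _ => False) (h1.mono fun x hx => iff_false_intro hx) (c := (1 / 2, 1 / 2)) (b := 1 / 4)
        (Or.inr (Or.inr ⟨rfl, rfl⟩)) (fun s hs p hp h => h) e2 (fun h2 => absurd (congrArg Prod.fst h2) (by norm_num))
      exact ⟨B, by rw [hB]; exact h0⟩
    · have e1 : ∀ s : ℂ, s ≠ 0 → ∀ p ∈ DS, ¬ (fun x : ℂ × ℂ => x.1 = 0) (s • (p - (0, 1 / 2))) := by
        intro s hs p hp
        show s * (p.1 - 0) ≠ 0
        rw [sub_zero]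
        exact mul_ne_zero hs hp.1.1
      have e2 : ∀ s : ℂ, s ≠ 0 → ∀ p ∈ ball ((0, 1 / 2) : ℂ × ℂ) (1 / 4), ((fun x : ℂ × ℂ => x.1 = 0) (s • (p - (0, 1 / 2))) ↔ p.1 * p.2 = 0) := by
        intro s hs p hp
        rw [mem_ball, dist_eq_norm, Prod.norm_def, max_lt_iff] at hp
        show s * (p.1 - 0) = 0 ↔ _
        rw [sub_zero, mul_eq_zero, mul_eq_zero]
        exact ⟨fun h => Or.inl (h.resolve_left hs), fun h => Or.inr (h.resolve_right (hhalf _ hp.2))⟩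
      obtain ⟨B, hB⟩ := mk_pbox S h h1 (c := (0, 1 / 2)) (b := 1 / 4) (Or.inr (Or.inl ⟨rfl, rfl⟩)) e1 e2
        (fun h2 => absurd (congrArg Prod.snd h2) (by norm_num))
      exact ⟨B, by rw [hB]; exact h0⟩

/-- the coordinates near a point of the box -/
theorem PBox.loc (B : PBox S) {p : ℂ × ℂ} (hp : p ∈ closedBall (0 : ℂ × ℂ) 1) {y : S.V} (hy : Pr y (B.σ p)) :
    ∃ T : S.V → ℂ × ℂ, AnalyticAt ℂ T y ∧ T y = p ∧ ∀ᶠ y' in 𝓝 y, y' ∈ S.Y → Pr y' (B.σ (T y')) := by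
  obtain ⟨a, ha, rfl⟩ := hy
  obtain ⟨τ, hτ⟩ := B.chart p hp
  have hs := hτ.scale S.surf.smul ha
  have e0 : a • B.σ (p + 0) = a • B.σ p := by rw [add_zero]
  have h1 := hs.τ_an
  have h2 := hs.left.self_of_nhds
  have h3 := hs.right
  simp only [e0] at h1 h2 h3
  refine ⟨fun y => p + τ (a⁻¹ • y), analyticAt_const.add h1, ?_, ?_⟩
  · show p + τ (a⁻¹ • a • B.σ p) = p
    rw [h2, add_zero]
  · filter_upwards [h3] with y' h4 h5
    obtain ⟨c, hc, h6⟩ := h4 h5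
    exact ⟨c * a, mul_ne_zero hc ha, by rw [mul_smul]; exact h6⟩

theorem PBox.nhds (B : PBox S) {p : ℂ × ℂ} (hp : p ∈ closedBall (0 : ℂ × ℂ) 1) {W : Set (ℂ × ℂ)} (hW : W ∈ 𝓝 p) {y : S.V}
    (hy : Pr y (B.σ p)) : ∀ᶠ y' in 𝓝 y, y' ∈ S.Y → ∃ q ∈ W, Pr y' (B.σ q) := by
  obtain ⟨T, h1, h2, h3⟩ := B.loc hp hy
  have h4 : Tendsto T (𝓝 y) (𝓝 p) := by
    have := h1.continuousAt.tendsto
    rwa [h2] at this
  filter_upwards [h3, h4.eventually hW] with y' h5 h6 h7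
  exact ⟨_, h6, h5 h7⟩

theorem PBox.mem_Y (B : PBox S) {p : ℂ × ℂ} (hp : p ∈ closedBall (0 : ℂ × ℂ) 1) : B.σ p ∈ S.Y := (S.mem _ _ (B.ov p hp).self_of_nhds).1

theorem PBox.ne_zero (B : PBox S) {p : ℂ × ℂ} (hp : p ∈ closedBall (0 : ℂ × ℂ) 1) : B.σ p ≠ 0 := fun h => S.surf.zero (h ▸ B.mem_Y hp)

/-- finitely many boxes -/
theorem exists_family (S : NCOver P RD) : ∃ (ι : Type) (_ : Fintype ι) (B : ι → PBox S),
    (∀ y ∈ S.Y, ∃ i, ∃ q ∈ closedBall (B i).c ((B i).b / 2), Pr y ((B i).σ q)) ∧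
      ∀ i j, Pr ((B i).σ (B i).c) ((B j).σ (B j).c) → i = j := by
  classical
  have : ProperSpace S.V := FiniteDimensional.proper ℂ S.V
  let st : Setoid S.V := ⟨fun x y => Pr x y, ⟨fun x => Pool.Agent.H17BP.Pr.refl x, fun h => h.symm, fun h h' => h.trans h'⟩⟩
  obtain ⟨rep, hrep1, hrep2⟩ : ∃ rep : S.V → S.V, (∀ y, Pr (rep y) y) ∧ ∀ y y', Pr y y' → rep y = rep y' := by
    refine ⟨fun y => (Quotient.mk st y).out, fun y => ?_, fun y y' h => ?_⟩
    · exact Quotient.exact (Quotient.out_eq (Quotient.mk st y))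
    · have : Quotient.mk st y = Quotient.mk st y' := Quotient.sound h
      show (Quotient.mk st y).out = (Quotient.mk st y').out
      rw [this]
  have hprY : ∀ x y, Pr x y → y ∈ S.Y → x ∈ S.Y := by
    rintro x y ⟨c, hc, rfl⟩ hy
    exact S.surf.smul y hy c hc
  choose bx hbx using fun (y : S.V) (hy : y ∈ S.Y) => exists_pbox S hy
  have hcl : IsClosed (S.Y ∩ Metric.sphere (0 : S.V) 1) := by
    refine isClosed_of_closure_subset fun y hy => ?_
    have h1 : y ∈ Metric.sphere (0 : S.V) 1 := by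
      have := closure_mono Set.inter_subset_right hy
      rwa [Metric.isClosed_sphere.closure_eq] at this
    have h2 : y ∈ closure S.Y := closure_mono Set.inter_subset_left hy
    refine ⟨S.surf.closed y h2 ?_, h1⟩
    rintro rfl
    simp at h1
  have hK : IsCompact (S.Y ∩ Metric.sphere (0 : S.V) 1) :=
    (isCompact_sphere (0 : S.V) 1).of_isClosed_subset hcl Set.inter_subset_right
  obtain ⟨U, hU⟩ : ∃ U : S.V → Set S.V, ∀ x, ∀ v, v ∈ U x ↔ ∀ hx : rep x ∈ S.Y, v ∈ S.Y →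
      ∃ q ∈ closedBall (bx _ hx).c ((bx _ hx).b / 2), Pr v ((bx _ hx).σ q) := ⟨fun x => {v | ∀ hx : rep x ∈ S.Y, v ∈ S.Y →
      ∃ q ∈ closedBall (bx _ hx).c ((bx _ hx).b / 2), Pr v ((bx _ hx).σ q)}, fun x v => Iff.rfl⟩
  obtain ⟨F, hF, hcov⟩ := hK.elim_nhds_subcover U fun x hx => by
    have hx' : rep x ∈ S.Y := hprY _ _ (hrep1 x) hx.1
    have h1 : Pr x ((bx _ hx').σ (bx _ hx').c) := (hrep1 x).symm.trans (hbx _ hx').symm
    have h2 : closedBall (bx _ hx').c ((bx _ hx').b / 2) ∈ 𝓝 (bx _ hx').c := closedBall_mem_nhds _ (half_pos (bx _ hx').b_pos)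
    have h3 : (bx _ hx').c ∈ closedBall (0 : ℂ × ℂ) 1 := (bx _ hx').sub' (mem_ball_self (bx _ hx').b_pos)
    have h4 := (bx _ hx').nhds h3 h2 h1
    filter_upwards [h4] with v hv
    rw [hU]
    intro _ hv'
    exact hv hv'
  have hmem : ∀ y ∈ F.image rep, y ∈ S.Y := by
    intro y hy
    obtain ⟨x, hx, rfl⟩ := Finset.mem_image.1 hy
    exact hprY _ _ (hrep1 x) (hF x hx).1
  refine ⟨{y : S.V // y ∈ F.image rep}, inferInstance, fun i => bx i.1 (hmem i.1 i.2), fun y hy => ?_, fun i j h => ?_⟩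
  · have hy0 : y ≠ 0 := fun h0 => S.surf.zero (h0 ▸ hy)
    have hn : ((‖y‖⁻¹ : ℝ) : ℂ) ≠ 0 := by
      exact_mod_cast inv_ne_zero (norm_ne_zero_iff.2 hy0)
    have hy1 : ((‖y‖⁻¹ : ℝ) : ℂ) • y ∈ S.Y := S.surf.smul y hy _ hn
    have hy2 : ((‖y‖⁻¹ : ℝ) : ℂ) • y ∈ Metric.sphere (0 : S.V) 1 := by
      rw [mem_sphere_zero_iff_norm, norm_smul, Complex.norm_real, norm_inv, norm_norm,
        inv_mul_cancel₀ (norm_ne_zero_iff.2 hy0)]
    have hyy : Pr y (((‖y‖⁻¹ : ℝ) : ℂ) • y) := Pr.symm ⟨_, hn, rfl⟩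
    obtain ⟨x, hx, hxy⟩ := Set.mem_iUnion₂.1 (hcov ⟨hy1, hy2⟩)
    rw [hU] at hxy
    have hx' : rep x ∈ S.Y := hprY _ _ (hrep1 x) (hF x hx).1
    obtain ⟨q, hq, hyq⟩ := hxy hx' hy1
    exact ⟨⟨rep x, Finset.mem_image_of_mem _ hx⟩, q, hq, hyy.trans hyq⟩
  · have h1 : Pr i.1 j.1 := ((hbx i.1 (hmem i.1 i.2)).symm.trans h).trans (hbx j.1 (hmem j.1 j.2))
    obtain ⟨x, hx, hxi⟩ := Finset.mem_image.1 i.2
    obtain ⟨x', hx', hxj⟩ := Finset.mem_image.1 j.2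
    apply Subtype.ext
    rw [← hxi, ← hxj] at h1 ⊢
    exact hrep2 _ _ (((hrep1 x).symm.trans h1).trans (hrep1 x'))

end Pool.Agent.MQ3

end
end
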