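import Pool.Agent.H43.TL2.M113
import Pool.Agent.H43.TL2.M114
import Pool.Agent.H43.TL2.M64
import Pool.Agent.H43.TL2.MQ2.Energy_1

/-! The parts of this file: H36.LB.ProperL, MQ3.GlobI, MQ3.GlobB. -/

section

/-!
# LB ProperL: limits of discs in a variety which is proper over an affine variety
-/

set_option autoImplicit false

open Topology Filter MvPolynomial Metric

noncomputable section

namespace Pool.Agent.H36.LB

open Pool.Agent.H17 (PN VanishesAt ZariskiClosedIn HolomorphicInto)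
open Pool.Agent.H62.FC (Homog)
open Pool.Agent.H62.SA (locVar IsProperMap)
open Pool.Agent.H17BP (vanishesAt_mk)
open Pool.Agent.H13.OT (OrderTwo)

variable {N : ℕ} {P : Ideal (MvPolynomial (Fin (N + 1)) ℂ)} {s M : ℕ} {G : Fin s → MvPolynomial (Fin (N + 1)) ℂ}
  {F : Fin s → Fin (M + 1) → MvPolynomial (Fin (N + 1)) ℂ} {e : Fin s → ℕ}

open Classical in
/-- the functions on the affine variety -/
def co (G : Fin s → MvPolynomial (Fin (N + 1)) ℂ) (F : Fin s → Fin (M + 1) → MvPolynomial (Fin (N + 1)) ℂ)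
    (j : Fin (M + 1)) (x : PN N) : ℂ :=
  if h : ∃ m, eval x.rep (G m) ≠ 0 then eval x.rep (F h.choose j) / eval x.rep (G h.choose) else 0

theorem mem_locVar_mk (hG : ∀ m, (G m).IsHomogeneous (e m)) (hP : Homog P) {x : Fin (N + 1) → ℂ} (hx : x ≠ 0) :
    Projectivization.mk ℂ x hx ∈ locVar P G ↔ (∀ Q ∈ P, eval x Q = 0) ∧ ∃ m, eval x (G m) ≠ 0 := by
  rw [Pool.Agent.H62.SA.mk_mem_locVar hP hG hx]
  constructor
  · rintro ⟨h1, m, h2⟩
    exact ⟨h1.2, m, h2⟩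
  · rintro ⟨h1, m, h2⟩
    exact ⟨⟨hx, h1⟩, m, h2⟩

theorem co_eq (h : IsProperMap P G F e) {x : Fin (N + 1) → ℂ} {hx : x ≠ 0}
    (hxU : ∀ Q ∈ P, eval x Q = 0) {m : Fin s} (hm : eval x (G m) ≠ 0) (j : Fin (M + 1)) :
    co G F j (Projectivization.mk ℂ x hx) = eval x (F m j) / eval x (G m) := by
  obtain ⟨c, hc⟩ : ∃ c : ℂ, c • x = (Projectivization.mk ℂ x hx).rep := by
    have h1 : Projectivization.mk ℂ (Projectivization.mk ℂ x hx).rep (Projectivization.mk ℂ x hx).rep_nonzero =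
      Projectivization.mk ℂ x hx := Projectivization.mk_rep _
    rw [Projectivization.mk_eq_mk_iff'] at h1
    exact h1
  have hc0 : c ≠ 0 := by
    rintro rfl
    rw [zero_smul] at hc
    exact (Projectivization.mk ℂ x hx).rep_nonzero hc.symm
  have hex : ∃ m, eval (Projectivization.mk ℂ x hx).rep (G m) ≠ 0 := by
    refine ⟨m, ?_⟩
    rw [← hc, Pool.Agent.H17BP.eval_smul_form (h.homG m)]
    simpa using ⟨fun h1 => absurd h1 hc0, hm⟩
  unfold co
  rw [dif_pos hex]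
  have h2 := hex.choose_spec
  set n := hex.choose with hn
  rw [← hc] at h2 ⊢
  rw [Pool.Agent.H17BP.eval_smul_form (h.homG n)] at h2 ⊢
  rw [Pool.Agent.H17BP.eval_smul_form (h.hom n j)]
  have hn0 : eval x (G n) ≠ 0 := by
    intro h3
    rw [h3] at h2
    simp at h2
  have hcn : c ^ e n ≠ 0 := pow_ne_zero _ hc0
  have hrel := hxU _ (h.rel m n j)
  rw [map_sub, map_mul, map_mul] at hrel
  rw [mul_div_mul_left _ _ hcn, div_eq_div_iff hn0 hm]
  linear_combination (-1 : ℂ) * hrel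

/-- the functions are bounded near a point where the discs converge -/
theorem co_bound (hP : Homog P) (h : IsProperMap P G F e) {l : Filter ℕ} {Fn : ℕ → ℂ → PN N} {f : ℂ → PN N}
    (hf : IsLimitPN (locVar P G) l Fn f) (j : Fin (M + 1)) {z : ℂ} (hz : ConvPN l Fn f z) :
    Tendsto (fun p : ℕ × ℂ => co G F j (Fn p.1 p.2)) (l ×ˢ 𝓝 z) (𝓝 (co G F j (f z))) := by
  have hU := hf.mem_of_conv z hz
  obtain ⟨s', Φ, Φ₀, hs, hΦ, hΦ₀, hfΦ, hlim⟩ := hz
  have hzs : z ∈ ball z s' := mem_ball_self hs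
  obtain ⟨hne, hfz⟩ := hfΦ z hzs
  rw [hfz] at hU ⊢
  obtain ⟨hUP, m, hm⟩ := (mem_locVar_mk h.homG hP hne).1 hU
  rw [co_eq h hUP hm j]
  -- convergence of the coordinates
  have hc : Tendsto (fun p : ℕ × ℂ => Φ p.1 p.2) (l ×ˢ 𝓝 z) (𝓝 (Φ₀ z)) := by
    have h1 := (tendstoLocallyUniformlyOn_iff_forall_tendsto.1 hlim) z hzs
    rw [isOpen_ball.nhdsWithin_eq hzs] at h1
    have h2 : Tendsto (fun y : ℕ × ℂ => Φ₀ y.2) (l ×ˢ 𝓝 z) (𝓝 (Φ₀ z)) :=
      ((hΦ₀.continuousOn.continuousAt (isOpen_ball.mem_nhds hzs)).tendsto).comp tendsto_snd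
    rw [Metric.tendsto_nhds] at h2 ⊢
    intro ε hε
    filter_upwards [h2 (ε / 2) (by positivity), h1 (Metric.dist_mem_uniformity (show (0 : ℝ) < ε / 2 by positivity))] with y hy1 hy2
    have hy2 : dist (Φ₀ y.2) (Φ y.1 y.2) < ε / 2 := hy2
    calc dist (Φ y.1 y.2) (Φ₀ z) ≤ dist (Φ y.1 y.2) (Φ₀ y.2) + dist (Φ₀ y.2) (Φ₀ z) := dist_triangle _ _ _
      _ < ε := by rw [dist_comm (Φ y.1 y.2)]; linarith
  have hq : ContinuousAt (fun x : Fin (N + 1) → ℂ => eval x (F m j) / eval x (G m)) (Φ₀ z) :=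
    ((MvPolynomial.continuous_eval (F m j)).continuousAt).div ((MvPolynomial.continuous_eval (G m)).continuousAt) hm
  refine (hq.tendsto.comp hc).congr' ?_
  have h3 : ∀ᶠ p : ℕ × ℂ in l ×ˢ 𝓝 z, eval (Φ p.1 p.2) (G m) ≠ 0 :=
    hc.eventually ((MvPolynomial.continuous_eval (G m)).continuousAt.eventually_ne hm)
  have h4 : ∀ᶠ p : ℕ × ℂ in l ×ˢ 𝓝 z, ∀ w ∈ ball z s', ∃ h : Φ p.1 w ≠ 0, Fn p.1 w = Projectivization.mk ℂ (Φ p.1 w) h :=
    (tendsto_fst.eventually hΦ).mono fun p hp => hp.2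
  have h5 : ∀ᶠ p : ℕ × ℂ in l ×ˢ 𝓝 z, p.2 ∈ ball z s' := tendsto_snd.eventually (isOpen_ball.mem_nhds hzs)
  obtain ⟨n₀, hn₀⟩ := exists_nat_ge (‖z‖ + s')
  have h6 : ∀ᶠ p : ℕ × ℂ in l ×ˢ 𝓝 z, n₀ ≤ p.1 := tendsto_fst.eventually (hf.le_atTop (eventually_ge_atTop n₀))
  filter_upwards [h3, h4, h5, h6] with p h3 h4 h5 h6
  obtain ⟨h7, h8⟩ := h4 p.2 h5
  have hpz : p.2 ∈ ball (0 : ℂ) (p.1 + 1) := by
    rw [mem_ball_zero_iff]
    have h9 : ‖p.2 - z‖ < s' := by simpa [dist_eq_norm] using h5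
    have h10 : ‖p.2‖ ≤ ‖p.2 - z‖ + ‖z‖ := by
      have := norm_add_le (p.2 - z) z
      rwa [sub_add_cancel] at this
    have h11 : (n₀ : ℝ) ≤ p.1 := by exact_mod_cast h6
    linarith
  have hmem := hf.memF p.1 p.2 hpz
  rw [h8] at hmem ⊢
  rw [co_eq h ((mem_locVar_mk h.homG hP h7).1 hmem).1 h3 j]
  rfl

/-- the functions are holomorphic along holomorphic curves -/
theorem co_diff (hP : Homog P) (h : IsProperMap P G F e) {g : ℂ → PN N} {z : ℂ} {V : Set ℂ} (hV : IsOpen V) (hz : z ∈ V)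
    (hg : HolomorphicInto g V) (hgU : ∀ w ∈ V, g w ∈ locVar P G) (j : Fin (M + 1)) :
    DifferentiableAt ℂ (fun w => co G F j (g w)) z := by
  obtain ⟨φ, hφ, he⟩ := hg z hz
  obtain ⟨h1, h2⟩ := he.self_of_nhds
  have h3 := hgU z hz
  rw [h2] at h3
  obtain ⟨hUP, m, hm⟩ := (mem_locVar_mk h.homG hP h1).1 h3
  have hpol : ∀ Q : MvPolynomial (Fin (N + 1)) ℂ, AnalyticAt ℂ (fun w => eval (φ w) Q) z := by
    intro Q
    have := AnalyticAt.aeval_mvPolynomial (𝕜 := ℂ) (fun i => (analyticAt_pi_iff.1 hφ) i) Q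
    simpa [MvPolynomial.aeval_eq_eval] using this
  have h4 : DifferentiableAt ℂ (fun w => eval (φ w) (F m j) / eval (φ w) (G m)) z :=
    (hpol _).differentiableAt.div (hpol _).differentiableAt hm
  refine h4.congr_of_eventuallyEq ?_
  filter_upwards [he, (hpol (G m)).continuousAt.eventually_ne hm, hV.mem_nhds hz] with w h5 h6 h7
  obtain ⟨h8, h9⟩ := h5
  have h10 := hgU w h7
  rw [h9] at h10 ⊢
  rw [co_eq h ((mem_locVar_mk h.homG hP h8).1 h10).1 h6 j]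

/-- **The limits of discs lie in `U`**, if `U` is proper over an affine variety. -/
theorem limit_mem_of_proper (hP : Homog P) (h : IsProperMap P G F e) {l : Filter ℕ} {Fn : ℕ → ℂ → PN N} {f : ℂ → PN N}
    (hf : IsLimitPN (locVar P G) l Fn f) (z₀ : ℂ) : f z₀ ∈ locVar P G := by
  have := hf.neBot
  obtain ⟨φ, hφ, he⟩ := hf.hol z₀ (Set.mem_univ _)
  obtain ⟨hx0, hfx⟩ := he.self_of_nhds
  have hpol : ∀ Q : MvPolynomial (Fin (N + 1)) ℂ, ContinuousAt (fun w => eval (φ w) Q) z₀ := fun Q =>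
    (MvPolynomial.continuous_eval Q).continuousAt.comp hφ.continuousAt
  -- the points near `z₀`
  have hnear : ∀ᶠ z in 𝓝[≠] z₀, ConvPN l Fn f z := hf.conv z₀
  have hcoord : ∀ᶠ z in 𝓝[≠] z₀, ∃ h : φ z ≠ 0, f z = Projectivization.mk ℂ (φ z) h := he.filter_mono nhdsWithin_le_nhds
  have hXP : ∀ Q ∈ P, eval (φ z₀) Q = 0 := by
    intro Q hQ
    have h1 : Tendsto (fun z => eval (φ z) Q) (𝓝[≠] z₀) (𝓝 (eval (φ z₀) Q)) := (hpol Q).tendsto.mono_left nhdsWithin_le_nhds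
    refine tendsto_nhds_unique (h1.congr' ?_) tendsto_const_nhds
    filter_upwards [hnear, hcoord] with z h2 h3
    obtain ⟨h4, h5⟩ := h3
    have h6 := hf.mem_of_conv z h2
    rw [h5] at h6
    exact ((mem_locVar_mk h.homG hP h4).1 h6).1 Q hQ
  rw [hfx, mem_locVar_mk h.homG hP hx0]
  refine ⟨hXP, ?_⟩
  by_contra hcon
  push Not at hcon
  obtain ⟨m, j, hmj⟩ := h.noZero (Projectivization.mk ℂ (φ z₀) hx0) (by
    intro Q hQ n hn
    rw [vanishesAt_mk hn]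
    exact hXP Q hQ)
  rw [vanishesAt_mk (h.hom m j)] at hmj
  -- a circle
  obtain ⟨r₀, hr₀, hr₀b⟩ := Metric.mem_nhdsWithin_iff.1 hnear
  obtain ⟨r, hr, hrr₀⟩ := exists_between hr₀
  have hconv : ∀ z ∈ closedBall z₀ r, z ≠ z₀ → ConvPN l Fn f z := fun z hz hne =>
    hr₀b ⟨(closedBall_subset_ball hrr₀) hz, hne⟩
  -- the bound on the circle
  obtain ⟨B, hB⟩ : ∃ B : ℝ, ∀ᶠ n in l, ∀ w ∈ sphere z₀ r, ‖co G F j (Fn n w)‖ ≤ B := by
    refine (isCompact_sphere z₀ r).induction_on (p := fun S => ∃ B : ℝ, ∀ᶠ n in l, ∀ w ∈ S, ‖co G F j (Fn n w)‖ ≤ B) ?_ ?_ ?_ ?_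
    · exact ⟨0, Eventually.of_forall fun n w hw => absurd hw (Set.notMem_empty w)⟩
    · rintro S T hST ⟨B, hB⟩
      exact ⟨B, hB.mono fun n hn w hw => hn w (hST hw)⟩
    · rintro S T ⟨B, hB⟩ ⟨B', hB'⟩
      refine ⟨max B B', ?_⟩
      filter_upwards [hB, hB'] with n h1 h2 w hw
      rcases hw with hw | hw
      · exact (h1 w hw).trans (le_max_left _ _)
      · exact (h2 w hw).trans (le_max_right _ _)
    · intro z hz
      have hzne : z ≠ z₀ := by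
        rintro rfl
        rw [mem_sphere, dist_self] at hz
        exact hr.ne hz
      have h1 := co_bound hP h hf j (hconv z (sphere_subset_closedBall hz) hzne)
      have h2 : ∀ᶠ p : ℕ × ℂ in l ×ˢ 𝓝 z, ‖co G F j (Fn p.1 p.2)‖ < ‖co G F j (f z)‖ + 1 :=
        h1.norm.eventually_lt_const (by linarith)
      obtain ⟨A, hA, T, hT, hAT⟩ := Filter.eventually_prod_iff.1 h2
      refine ⟨{w | T w}, mem_nhdsWithin_of_mem_nhds hT, ‖co G F j (f z)‖ + 1, ?_⟩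
      filter_upwards [hA] with n hn w hw
      exact (hAT hn hw).le
  -- the maximum principle
  have hB2 : ∀ᶠ n in l, ∀ w ∈ ball z₀ r, ‖co G F j (Fn n w)‖ ≤ B := by
    obtain ⟨n₀, hn₀⟩ := exists_nat_ge (‖z₀‖ + r)
    filter_upwards [hB, hf.le_atTop (eventually_ge_atTop n₀)] with n h1 h2 w hw
    have hsub : closedBall z₀ r ⊆ ball (0 : ℂ) (n + 1) := by
      intro y hy
      rw [mem_ball_zero_iff]
      have h9 : ‖y - z₀‖ ≤ r := by simpa [dist_eq_norm] using hy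
      have h10 : ‖y‖ ≤ ‖y - z₀‖ + ‖z₀‖ := by
        have := norm_add_le (y - z₀) z₀
        rwa [sub_add_cancel] at this
      have h11 : (n₀ : ℝ) ≤ n := by exact_mod_cast h2
      linarith
    have hd : DiffContOnCl ℂ (fun w => co G F j (Fn n w)) (ball z₀ r) := by
      have h3 : DifferentiableOn ℂ (fun w => co G F j (Fn n w)) (closedBall z₀ r) := fun y hy =>
        (co_diff hP h isOpen_ball (hsub hy) (hf.holF n) (hf.memF n) j).differentiableWithinAt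
      exact DifferentiableOn.diffContOnCl (by rwa [closure_ball z₀ hr.ne'])
    refine Complex.norm_le_of_forall_mem_frontier_norm_le isBounded_ball hd (fun y hy => h1 y ?_) (subset_closure hw)
    rwa [frontier_ball z₀ hr.ne'] at hy
  -- the bound for the limit
  have hB3 : ∀ z ∈ ball z₀ r, z ≠ z₀ → ‖co G F j (f z)‖ ≤ B := by
    intro z hz hne
    have h1 := co_bound hP h hf j (hconv z (ball_subset_closedBall hz) hne)
    have h0 : Tendsto (fun n : ℕ => (n, z)) l (l ×ˢ 𝓝 z) := tendsto_id.prodMk tendsto_const_nhds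
    have h2 : Tendsto (fun n : ℕ => ‖co G F j (Fn n z)‖) l (𝓝 ‖co G F j (f z)‖) := (h1.comp h0).norm
    exact le_of_tendsto h2 (hB2.mono fun n hn => hn z hz)
  have hfin : ∀ᶠ z in 𝓝[≠] z₀, ‖eval (φ z) (F m j)‖ ≤ B * ‖eval (φ z) (G m)‖ := by
    have h1 : ∀ᶠ z in 𝓝[≠] z₀, z ∈ ball z₀ r := mem_nhdsWithin_of_mem_nhds (ball_mem_nhds z₀ hr)
    have h2 : ∀ᶠ z in 𝓝[≠] z₀, z ≠ z₀ := eventually_mem_nhdsWithin
    filter_upwards [hnear, hcoord, h1, h2] with z h2 h3 h4 h5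
    obtain ⟨h6, h7⟩ := h3
    have h8 := hf.mem_of_conv z h2
    have h9 := hB3 z h4 h5
    rw [h7] at h8 h9
    obtain ⟨h10, n, hn⟩ := (mem_locVar_mk h.homG hP h6).1 h8
    by_cases hm : eval (φ z) (G m) = 0
    · have hrel := h10 _ (h.rel m n j)
      rw [map_sub, map_mul, map_mul, hm, mul_zero, sub_zero] at hrel
      rcases mul_eq_zero.1 hrel with h11 | h11
      · rw [h11, hm]
        simp
      · exact absurd h11 hn
    · rw [co_eq h h10 hm j, norm_div, div_le_iff₀ (norm_pos_iff.2 hm)] at h9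
      exact h9
  have h1 : Tendsto (fun z => ‖eval (φ z) (F m j)‖) (𝓝[≠] z₀) (𝓝 ‖eval (φ z₀) (F m j)‖) :=
    (hpol _).norm.tendsto.mono_left nhdsWithin_le_nhds
  have h2 : Tendsto (fun z => B * ‖eval (φ z) (G m)‖) (𝓝[≠] z₀) (𝓝 (B * ‖eval (φ z₀) (G m)‖)) :=
    ((hpol _).norm.tendsto.mono_left nhdsWithin_le_nhds).const_mul B
  have h3 := le_of_tendsto_of_tendsto h1 h2 hfin
  rw [hcon m, norm_zero, mul_zero] at h3
  exact hmj (norm_le_zero_iff.1 h3)

/-- In a variety which is proper over an affine variety the hypothesis on the limits is a hypothesis on entire curves. -/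
theorem limModPN_of_proper (hP : Homog P) (h : IsProperMap P G F e) {Ξ : Set (PN N)}
    (hbr : ∀ f : ℂ → PN N, HolomorphicInto f Set.univ → OrderTwo f → (∀ z, f z ∈ locVar P G) →
      (∃ z w, f z ≠ f w) → ∀ z, f z ∈ Ξ) : LimModPN (locVar P G) Ξ :=
  fun _ _ f hf hord hne z _ => hbr f hf.hol hord (fun w => limit_mem_of_proper hP h hf w) hne z

end Pool.Agent.H36.LB

end
end

section

/-!
# MQ3 GlobI: the surface with normal crossings in helper22's form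
-/

set_option autoImplicit false

open Topology Filter Metric MvPolynomial MeasureTheory

noncomputable section

namespace Pool.Agent.MQ3

open Pool.Agent.H36.BP (EN fs)
open Pool.Agent.H17BP (Surface IsChart NodalAt Pr Tan chart_iff)
open Pool.Agent.H17EF (projVar coneE)
open Pool.Agent.H62.FC (Homog)
open Pool.Agent.H17LG.Variety (FunField)
open Pool.Agent.H13.SM (conTan)
open Pool.Agent.MQ (lam En)

variable {M : ℕ} {P : Ideal (MvPolynomial (Fin (M + 1)) ℂ)} {RD : MvPolynomial (Fin (M + 1)) ℂ}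

/-- an injective map to a Hermitian space -/
theorem exists_inj_EN (V : Type) [NormedAddCommGroup V] [NormedSpace ℂ V] [FiniteDimensional ℂ V] : ∃ (N : ℕ) (e : V →L[ℂ] EN N), Function.Injective e := by
  classical
  let b := Module.finBasis ℂ V
  set n := Module.finrank ℂ V
  let f : V →ₗ[ℂ] (Fin (n + 1) → ℂ) := LinearMap.pi fun j : Fin (n + 1) => if h : (j : ℕ) < n then b.coord ⟨j, h⟩ else 0
  let g : V →ₗ[ℂ] EN n := (WithLp.linearEquiv 2 ℂ (Fin (n + 1) → ℂ)).symm.toLinearMap.comp f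
  have hf : Function.Injective f := by
    intro v w hvw
    refine b.ext_elem fun i => ?_
    have h1 := congrFun hvw i.castSucc
    simp only [f, LinearMap.pi_apply, Fin.val_castSucc] at h1
    rw [dif_pos i.2] at h1
    exact h1
  refine ⟨n, LinearMap.toContinuousLinearMap g, ?_⟩
  intro v w hvw
  exact hf ((WithLp.linearEquiv 2 ℂ (Fin (n + 1) → ℂ)).symm.injective hvw)

private theorem eval_smul' {d : ℕ} (hd : RD.IsHomogeneous d) {c : ℂ} (hc : c ≠ 0) (x : EN M) : eval (c • x).ofLp RD = 0 ↔ eval x.ofLp RD = 0 := by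
  have h1 : eval (c • x).ofLp RD = c ^ d * eval x.ofLp RD := Pool.Agent.H17EF.eval_smul_form hd c x.ofLp
  rw [h1, mul_eq_zero]
  constructor
  · rintro (h | h)
    · exact absurd h (pow_ne_zero _ hc)
    · exact h
  · exact Or.inr

theorem exists_ncOver (hX : Surface (coneE P)) {d : ℕ} (hd : RD.IsHomogeneous d) (T : NCSurf (coneE P) (zer P RD)) :
    ∃ S : NCOver P RD, ∀ F : ℂ → EN M, Differentiable ℂ F → (∀ z, F z ∈ coneE P) → (∃ z, eval (F z).ofLp RD ≠ 0) → ∃ G, S.Lift F G := by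
  obtain ⟨N, e, he⟩ := exists_inj_EN T.V'
  have hz : ∀ x y : EN M, Pr x y → (eval x.ofLp RD = 0 ↔ eval y.ofLp RD = 0) := by
    rintro x y ⟨c, hc, rfl⟩
    exact eval_smul' hd hc y
  have hcone : ∀ x y : EN M, Pr x y → x ∈ coneE P → y ∈ coneE P := by
    rintro x y ⟨c, hc, rfl⟩ h
    have h1 := hX.smul _ h c⁻¹ (inv_ne_zero hc)
    rwa [smul_smul, inv_mul_cancel₀ hc, one_smul] at h1
  have hne : ∀ x ∈ coneE P, x ≠ 0 := fun x hx h => hX.zero (h ▸ hx)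
  let S : NCOver P RD :=
    { V := T.V'
      Y := T.Y
      D := {y | y ∈ T.Y ∧ ∀ a, T.L a y ≠ 0 → T.L a y ∈ zer P RD}
      Ov := fun y x => y ∈ T.Y ∧ ∃ a, T.L a y ≠ 0 ∧ Pr (T.L a y) x
      N := N
      e := e
      e_inj := he
      A := T.d
      surf := T.surf
      D_smul := by
        rintro y ⟨hy, h⟩ c hc
        refine ⟨T.surf.smul y hy c hc, fun a ha => ?_⟩
        rw [map_smul] at ha ⊢
        have h1 : T.L a y ≠ 0 := fun h0 => ha (by rw [h0, smul_zero])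
        obtain ⟨h2, h3⟩ := h a h1
        exact ⟨hX.smul _ h2 c hc, (eval_smul' hd hc _).2 h3⟩
      nodal := T.nodal
      mem := by
        rintro y x ⟨hy, a, ha, h⟩
        exact ⟨hy, hcone _ _ h (T.mem y hy a ha)⟩
      germ := by
        intro y hy
        obtain ⟨a, ha⟩ := T.ex y hy
        refine ⟨T.L a, (T.L a).analyticAt y, ?_⟩
        filter_upwards [(T.L a).continuous.continuousAt.eventually_ne ha] with y' h hy'
        exact ⟨hy', a, h, Pr.refl _⟩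
      uniq := by
        rintro y y' x x' ⟨c, hc, rfl⟩ ⟨hy, a, ha, h⟩ ⟨hy', a', ha', h'⟩
        have h1 : T.L a y' ≠ 0 := fun h0 => ha (by rw [map_smul, h0, smul_zero])
        have h2 : Pr (T.L a (c • y')) (T.L a y') := ⟨c, hc, map_smul _ _ _⟩
        exact h.symm.trans (h2.trans ((T.pr y' hy' a a' h1 ha').trans h'))
      div := by
        rintro y x ⟨hy, a, ha, h⟩
        constructor
        · rintro ⟨-, h1⟩
          exact (hz _ _ h).1 (h1 a ha).2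
        · intro h1
          refine ⟨hy, fun b hb => ⟨T.mem y hy b hb, ?_⟩⟩
          exact (hz _ _ ((T.pr y hy b a hb ha).trans h)).2 h1
      imm := by
        intro σ τ hσ hD ρ hρ hov w a hw
        have hy : σ 0 ∈ T.Y := hσ.σ_mem.self_of_nhds
        obtain ⟨b, hb, hbz⟩ : ∃ b, T.L b (σ 0) ≠ 0 ∧ T.L b (σ 0) ∉ zer P RD := by
          by_contra hcon
          push Not at hcon
          exact hD ⟨hy, hcon⟩
        obtain ⟨Λ, hΛ⟩ := exists_dual_vector ℂ (T.L b (σ 0)) (norm_ne_zero_iff.mpr hb)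
        have hΛ0 : Λ (T.L b (σ 0)) ≠ 0 := by
          rw [hΛ.2]
          simpa using hb
        have hLσ : AnalyticAt ℂ (fun p => T.L b (σ p)) 0 := ((T.L b).analyticAt _).comp hσ.σ_an
        have h1 : ∀ᶠ p in 𝓝 (0 : ℂ × ℂ), Λ (T.L b (σ p)) • ρ p = Λ (ρ p) • T.L b (σ p) := by
          filter_upwards [hov, hLσ.continuousAt.eventually_ne hb] with p h2 h3
          obtain ⟨h4, a', h5, h6⟩ := h2
          obtain ⟨c, hc, h7⟩ := (T.pr _ h4 b a' h3 h5).trans h6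
          rw [h7, map_smul, smul_eq_mul, smul_smul, mul_comm]
        -- the derivative
        have h2 : HasFDerivAt (fun p => Λ (T.L b (σ p)) • ρ p)
            (Λ (T.L b (σ 0)) • fderiv ℂ ρ 0 + ((Λ.comp (T.L b)).comp (fderiv ℂ σ 0)).smulRight (ρ 0)) 0 := by
          have h3 : HasFDerivAt (fun p => Λ (T.L b (σ p))) ((Λ.comp (T.L b)).comp (fderiv ℂ σ 0)) 0 :=
            (Λ.comp (T.L b)).hasFDerivAt.comp 0 hσ.σ_an.differentiableAt.hasFDerivAt
          exact h3.smul hρ.differentiableAt.hasFDerivAt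
        have h3 : HasFDerivAt (fun p => Λ (ρ p) • T.L b (σ p))
            (Λ (ρ 0) • (T.L b).comp (fderiv ℂ σ 0) + (Λ.comp (fderiv ℂ ρ 0)).smulRight (T.L b (σ 0))) 0 := by
          have h4 : HasFDerivAt (fun p => Λ (ρ p)) (Λ.comp (fderiv ℂ ρ 0)) 0 := Λ.hasFDerivAt.comp 0 hρ.differentiableAt.hasFDerivAt
          have h5 : HasFDerivAt (fun p => T.L b (σ p)) ((T.L b).comp (fderiv ℂ σ 0)) 0 :=
            (T.L b).hasFDerivAt.comp 0 hσ.σ_an.differentiableAt.hasFDerivAt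
          exact h4.smul h5
        have h4 := h2.unique (h3.congr_of_eventuallyEq h1)
        have h5 := DFunLike.congr_fun h4 w
        simp only [add_apply, smul_apply, ContinuousLinearMap.smulRight_apply,
          ContinuousLinearMap.comp_apply, hw, map_smul] at h5
        have h6 := h1.self_of_nhds
        have hρ0 : Λ (ρ 0) ≠ 0 := by
          intro h7
          rw [h7, zero_smul] at h6
          have h8 : ρ 0 ≠ 0 := hne _ (by
            obtain ⟨h4, a', h5, h6⟩ := hov.self_of_nhds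
            exact hcone _ _ h6 (T.mem _ h4 a' h5))
          exact (smul_ne_zero hΛ0 h8) h6
        -- `L (D σ w)` is a multiple of `L σ`
        obtain ⟨u, hu⟩ : ∃ u : ℂ, ρ 0 = u • T.L b (σ 0) := ⟨(Λ (T.L b (σ 0)))⁻¹ * Λ (ρ 0), by
          rw [mul_smul, ← h6, smul_smul, inv_mul_cancel₀ hΛ0, one_smul]⟩
        have hv : ∃ c : ℂ, T.L b (fderiv ℂ σ 0 w) = c • T.L b (σ 0) := by
          refine ⟨(Λ (ρ 0))⁻¹ * (Λ (T.L b (σ 0)) * a * u + Λ (T.L b (fderiv ℂ σ 0 w)) * u - a * Λ (ρ 0)), ?_⟩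
          have h7 : Λ (ρ 0) • T.L b (fderiv ℂ σ 0 w) =
              (Λ (T.L b (σ 0)) * a * u + Λ (T.L b (fderiv ℂ σ 0 w)) * u - a * Λ (ρ 0)) • T.L b (σ 0) := by
            rw [sub_smul, add_smul, eq_sub_iff_add_eq]
            calc Λ (ρ 0) • T.L b (fderiv ℂ σ 0 w) + (a * Λ (ρ 0)) • T.L b (σ 0)
                = Λ (T.L b (σ 0)) • a • ρ 0 + Λ (T.L b (fderiv ℂ σ 0 w)) • ρ 0 := by
                  rw [h5, smul_eq_mul]
              _ = _ := by
                  rw [hu]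
                  simp only [smul_smul, mul_assoc]
          rw [mul_smul, ← h7, smul_smul, inv_mul_cancel₀ hρ0, one_smul]
        have htan : fderiv ℂ σ 0 w ∈ Tan T.Y (σ 0) := by
          have h7 : AnalyticAt ℂ (fun t : ℂ => t • w) 0 := analyticAt_id.smul analyticAt_const
          have h8 : AnalyticAt ℂ σ ((0 : ℂ) • w) := by rw [zero_smul]; exact hσ.σ_an
          refine ⟨fun t => σ (t • w), AnalyticAt.comp (g := σ) (f := fun t : ℂ => t • w) h8 h7, ?_, by simp, ?_⟩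
          · have h9 : Tendsto (fun t : ℂ => t • w) (𝓝 0) (𝓝 (0 : ℂ × ℂ)) := by
              have h10 := h7.continuousAt.tendsto
              simp only [zero_smul] at h10
              exact h10
            exact h9.eventually hσ.σ_mem
          · have h9 : HasDerivAt (fun t : ℂ => t • w) w 0 := by
              have h10 := (hasDerivAt_id (0 : ℂ)).smul_const w
              simpa using h10
            have h10 : HasFDerivAt σ (fderiv ℂ σ 0) ((0 : ℂ) • w) := by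
              rw [zero_smul]
              exact hσ.σ_an.differentiableAt.hasFDerivAt
            exact (h10.comp_hasDerivAt (0 : ℂ) h9).deriv
        obtain ⟨c, hc⟩ := T.imm _ hy b hb hbz _ htan hv
        exact Pool.Agent.H62.BU.IsChart.indep (chart_iff.2 hσ) hc }
  refine ⟨S, fun F hF hFX hFR => ?_⟩
  obtain ⟨z₀, hz₀⟩ := hFR
  obtain ⟨G, h, h1, h2, h3, h4, h5, h6⟩ := T.lift F hF hFX ⟨z₀, fun h => hz₀ h.2⟩
  have hG0 : ∀ z, G z ≠ 0 := fun z h => T.surf.zero (h ▸ h2 z)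
  refine ⟨G, ⟨fun z => h1.analyticAt z, fun z => ⟨h2 z, ?_⟩, ?_⟩⟩
  · obtain ⟨a, ha⟩ := T.ex _ (h2 z)
    obtain ⟨c, hc⟩ := h6 z a
    refine ⟨a, ha, c, ?_, hc⟩
    rintro rfl
    exact ha (by rw [hc, zero_smul])
  · refine en_le (G := fun z => e (G z)) (K := ‖e‖ * T.K) hF (fun z => hne _ (hFX z)) (e.differentiable.comp h1) (fun z h0 => hG0 z ?_) h3 h4 fun z => ?_
    · exact (map_eq_zero_iff e he).1 h0
    · have h7 : ‖e (G z)‖ ≤ ‖e‖ * ‖G z‖ := e.le_opNorm (G z)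
      calc ‖h z‖ * ‖e (G z)‖ ≤ ‖h z‖ * (‖e‖ * ‖G z‖) := mul_le_mul_of_nonneg_left h7 (norm_nonneg _)
        _ = ‖e‖ * (‖h z‖ * ‖G z‖) := by ring
        _ ≤ ‖e‖ * (T.K * ‖F z‖ ^ T.d) := mul_le_mul_of_nonneg_left (h5 z) (norm_nonneg _)
        _ = ‖e‖ * T.K * ‖F z‖ ^ T.d := by ring

end Pool.Agent.MQ3

end
end

section

/-!
# MQ3 GlobB: the normal crossings model and the lifts of curves
-/

set_option autoImplicit false

open Topology Filter Metric MvPolynomial MeasureTheory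

noncomputable section

namespace Pool.Agent.MQ3

open Pool.Agent.H36.BP (EN fs wd)
open Pool.Agent.H17BP (Surface IsChart NodalAt Pr Bihol)
open Pool.Agent.H17EF (projVar coneE)
open Pool.Agent.H62.FC (Homog)
open Pool.Agent.H17LG.Variety (FunField)
open Pool.Agent.H13.SM (conTan)
open Pool.Agent.H30M (tau)
open Pool.Agent.MQ (lam En)

variable {M : ℕ} {P : Ideal (MvPolynomial (Fin (M + 1)) ℂ)} {RD : MvPolynomial (Fin (M + 1)) ℂ} {S : NCOver P RD}

theorem det_bihol {θ : ℂ × ℂ → ℂ × ℂ} (h : Bihol θ) : (fderiv ℂ θ 0).det ≠ 0 := by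
  obtain ⟨θ', h1, h2, h3, -⟩ := h.inv
  have d1 : HasFDerivAt θ (fderiv ℂ θ 0) 0 := h.an.differentiableAt.hasFDerivAt
  have d2 : HasFDerivAt θ' (fderiv ℂ θ' 0) (θ 0) := by
    rw [h.zero]
    exact h1.differentiableAt.hasFDerivAt
  have d3 : HasFDerivAt (θ' ∘ θ) ((fderiv ℂ θ' 0).comp (fderiv ℂ θ 0)) 0 := d2.comp 0 d1
  have d4 : HasFDerivAt (θ' ∘ θ) (ContinuousLinearMap.id ℂ (ℂ × ℂ)) 0 := by
    refine (hasFDerivAt_id (0 : ℂ × ℂ)).congr_of_eventuallyEq ?_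
    filter_upwards [h3] with x hx
    exact hx
  have d5 := d3.unique d4
  intro h0
  have d6 : LinearMap.det ((fderiv ℂ θ' 0 : ℂ × ℂ →ₗ[ℂ] ℂ × ℂ) ∘ₗ (fderiv ℂ θ 0 : ℂ × ℂ →ₗ[ℂ] ℂ × ℂ)) = 1 := by
    have e1 : ((fderiv ℂ θ' 0 : ℂ × ℂ →ₗ[ℂ] ℂ × ℂ) ∘ₗ (fderiv ℂ θ 0 : ℂ × ℂ →ₗ[ℂ] ℂ × ℂ)) = LinearMap.id :=
      LinearMap.ext fun x => DFunLike.congr_fun d5 x
    rw [e1, LinearMap.det_id]
  rw [LinearMap.det_comp] at d6
  have d7 : LinearMap.det (fderiv ℂ θ 0 : ℂ × ℂ →ₗ[ℂ] ℂ × ℂ) = 0 := h0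
  rw [d7, mul_zero] at d6
  exact zero_ne_one d6

theorem PBox.an (B : PBox S) {p : ℂ × ℂ} (hp : p ∈ closedBall (0 : ℂ × ℂ) 1) : AnalyticAt ℂ B.σ p := by
  obtain ⟨τ, hτ⟩ := B.chart p hp
  have h1 : AnalyticAt ℂ (fun x => B.σ (p + x)) (p - p) := by rw [sub_self]; exact hτ.σ_an
  have h2 : AnalyticAt ℂ (fun x : ℂ × ℂ => x - p) p := analyticAt_id.sub analyticAt_const
  have h3 := AnalyticAt.comp (g := fun x => B.σ (p + x)) (f := fun x : ℂ × ℂ => x - p) h1 h2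
  have h4 : ((fun x => B.σ (p + x)) ∘ fun x : ℂ × ℂ => x - p) = B.σ := by
    funext x
    simp
  rwa [h4] at h3

theorem gb_add (p : ℂ × ℂ) : Tendsto (fun x : ℂ × ℂ => p + x) (𝓝 0) (𝓝 p) := by
  have h1 : Continuous fun x : ℂ × ℂ => p + x := by fun_prop
  simpa using h1.tendsto 0

theorem gb_fderiv {E : Type*} [NormedAddCommGroup E] [NormedSpace ℂ E] (f : ℂ × ℂ → E) (p : ℂ × ℂ) :
    fderiv ℂ (fun x => f (p + x)) 0 = fderiv ℂ f p := by
  rw [fderiv_comp_add_left, add_zero]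

/-- the box as a parametrization of the given surface -/
theorem PBox.box (B : PBox S) : NCBox (coneE P) B.ρ := by
  have hcl : ∀ p : ℂ × ℂ, ‖p.1‖ ≤ 1 → ‖p.2‖ ≤ 1 → p ∈ closedBall (0 : ℂ × ℂ) 1 := fun p h1 h2 => by
    rw [mem_closedBall_zero_iff, Prod.norm_def]
    exact max_le h1 h2
  refine ⟨fun p h1 h2 => B.ρ_an p (hcl p h1 h2), fun p h1 h2 => ?_, fun p hp w a hw => ?_⟩
  · filter_upwards [B.ov p (hcl p h1 h2)] with q hq
    exact (S.mem _ _ hq).2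
  · obtain ⟨τ, hτ⟩ := B.chart p (DS_sub hp)
    refine S.imm _ τ hτ ?_ (fun x => B.ρ (p + x)) ?_ ?_ w a ?_
    · show B.σ (p + 0) ∉ S.D
      rw [add_zero]
      exact B.off p hp
    · have h1 : AnalyticAt ℂ B.ρ (p + 0) := by rw [add_zero]; exact B.ρ_an p (DS_sub hp)
      exact AnalyticAt.comp (g := B.ρ) (f := fun x : ℂ × ℂ => p + x) h1 (analyticAt_const.add analyticAt_id)
    · exact (gb_add p).eventually (B.ov p (DS_sub hp))
    · rw [gb_fderiv, add_zero]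
      exact hw

theorem PBox.good (B : PBox S) {p : ℂ × ℂ} (hp : p ∈ DS) : eval (B.ρ p).ofLp RD ≠ 0 := fun h =>
  B.off p hp ((S.div _ _ (B.ov p (DS_sub hp)).self_of_nhds).2 h)

theorem PBox.div' (B : PBox S) {p : ℂ × ℂ} (hp : p ∈ ball B.c B.b) : eval (B.ρ p).ofLp RD = 0 ↔ p.1 * p.2 = 0 :=
  (S.div _ _ (B.ov p (B.sub' hp)).self_of_nhds).symm.trans (B.div p hp)

theorem PBox.zero_mem (B : PBox S) (h : (0 : ℂ × ℂ) ∈ ball B.c B.b) : B.c = 0 ∧ B.b = 1 := by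
  rcases B.ty with h1 | ⟨h1, h2⟩ | ⟨h1, h2⟩
  · exact h1
  · rw [h1, h2, mem_ball, dist_eq_norm, Prod.norm_def, max_lt_iff] at h
    exfalso
    have := h.2
    norm_num at this
  · rw [h1, h2, mem_ball, dist_eq_norm, Prod.norm_def, max_lt_iff] at h
    exfalso
    have := h.2
    norm_num at this

theorem PBox.side (B : PBox S) (h : (0 : ℂ × ℂ) ∉ ball B.c B.b) {p : ℂ × ℂ} (hp : p ∈ ball B.c B.b) : p.2 ≠ 0 := by
  have hhalf : ∀ z : ℂ, ‖z - 1 / 2‖ < 1 / 4 → z ≠ 0 := by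
    rintro z hz rfl
    rw [zero_sub, norm_neg] at hz
    norm_num at hz
  rcases B.ty with ⟨h1, h2⟩ | ⟨h1, h2⟩ | ⟨h1, h2⟩
  · exfalso
    apply h
    rw [h1, h2]
    exact mem_ball_self one_pos
  · rw [h1, h2, mem_ball, dist_eq_norm, Prod.norm_def, max_lt_iff] at hp
    exact hhalf _ hp.2
  · rw [h1, h2, mem_ball, dist_eq_norm, Prod.norm_def, max_lt_iff] at hp
    exact hhalf _ hp.2

/-- the change of the boxes -/
theorem PBox.iso (A B : PBox S) {p q : ℂ × ℂ} (hp : p ∈ closedBall (0 : ℂ × ℂ) 1) (hq : q ∈ closedBall (0 : ℂ × ℂ) 1) (h : Pr (A.σ p) (B.σ q)) :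
    ∃ Φ : ℂ × ℂ → ℂ × ℂ, AnalyticAt ℂ Φ p ∧ Φ p = q ∧ (fderiv ℂ Φ p).det ≠ 0 ∧
    (∀ᶠ x in 𝓝 p, Pr (A.σ x) (B.σ (Φ x))) ∧ ∀ᶠ x in 𝓝 p, ∃ c : ℂ, c ≠ 0 ∧ A.ρ x = c • B.ρ (Φ x) := by
  obtain ⟨τ, hτ⟩ := A.chart p hp
  obtain ⟨τ', hτ'⟩ := B.chart q hq
  obtain ⟨θ, hθ, hev⟩ := IsChart.trans S.surf.smul hτ' hτ (by simpa using h)
  have hsub : Tendsto (fun x : ℂ × ℂ => x - p) (𝓝 p) (𝓝 0) := by
    have h1 : Continuous fun x : ℂ × ℂ => x - p := by fun_prop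
    simpa using h1.tendsto p
  have hΦan : AnalyticAt ℂ (fun x => q + θ (x - p)) p := by
    have h1 : AnalyticAt ℂ θ (p - p) := by rw [sub_self]; exact hθ.an
    exact analyticAt_const.add (AnalyticAt.comp (g := θ) (f := fun x : ℂ × ℂ => x - p) h1 (analyticAt_id.sub analyticAt_const))
  have hΦ0 : q + θ (p - p) = q := by rw [sub_self, hθ.zero, add_zero]
  have hrel : ∀ᶠ x in 𝓝 p, Pr (A.σ x) (B.σ (q + θ (x - p))) := by
    filter_upwards [hsub.eventually hev] with x hx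
    rwa [add_sub_cancel] at hx
  have hΦt : Tendsto (fun x => q + θ (x - p)) (𝓝 p) (𝓝 q) := by
    have := hΦan.continuousAt.tendsto
    rwa [hΦ0] at this
  refine ⟨fun x => q + θ (x - p), hΦan, hΦ0, ?_, hrel, ?_⟩
  · have h1 : fderiv ℂ (fun x => q + θ (x - p)) p = fderiv ℂ θ 0 := by
      rw [fderiv_const_add, fderiv_comp_sub, sub_self]
    rw [h1]
    exact det_bihol hθ
  · filter_upwards [hrel, A.ov p hp, hΦt.eventually (B.ov q hq)] with x h1 h2 h3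
    exact S.uniq _ _ _ _ h1 h2 h3

/-- **the normal crossings model** -/
def ncModel {ι : Type} [Fintype ι] (B : ι → PBox S) (hB : ∀ i j, Pr ((B i).σ (B i).c) ((B j).σ (B j).c) → i = j) : NCModel P RD where
  ι := ι
  ρ := fun i => (B i).ρ
  B := fun i => ball (B i).c (B i).b
  C := fun i => closedBall (B i).c ((B i).b / 2)
  rel := fun i p j q => Pr ((B i).σ p) ((B j).σ q)
  box := fun i => (B i).box
  good := fun i p hp => (B i).good hp
  isOpen := fun i => isOpen_ball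
  sub := fun i => by rw [DD_eq]; exact (B i).sub
  compact := fun i => isCompact_closedBall _ _
  C_sub := fun i => closedBall_subset_ball (half_lt_self (B i).b_pos)
  div := fun i p hp => (B i).div' hp
  corner := by
    intro i h0
    obtain ⟨hc, hb⟩ := (B i).zero_mem h0
    refine ⟨by rw [DD_eq, hc, hb], fun j p hp hr => ?_⟩
    have h1 : Cr S ((B j).σ p) := ((B i).cr hc).pr hr
    have hp0 : p = 0 := by
      by_contra hp0
      exact (B j).ncr hp hp0 h1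
    rw [hp0] at hp hr
    obtain ⟨hc', -⟩ := (B j).zero_mem hp
    refine ⟨(hB i j ?_).symm, hp0⟩
    rw [hc, hc']
    exact hr
  side := fun i h p hp => (B i).side h hp
  refl := fun i p hp q hq => ⟨fun h => (B i).inj p ((B i).sub' hp) q ((B i).sub' hq) h, fun h => by rw [h]; exact Pool.Agent.H17BP.Pr.refl _⟩
  symm := fun i j p q _ _ h => h.symm
  trans := fun i j k p q r _ _ _ h h' => h.trans h'
  iso := fun i j p hp q hq h => (B i).iso (B j) ((B i).sub' hp) ((B j).sub' hq) h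
  sep := by
    intro i j p hp q hq h
    have h1 := not_pr_eventually ((B i).ne_zero ((B i).sub' hp)) ((B j).ne_zero ((B j).sub' hq)) h
    have h2 : Tendsto (fun x : (ℂ × ℂ) × (ℂ × ℂ) => ((B i).σ x.1, (B j).σ x.2)) (𝓝 (p, q)) (𝓝 ((B i).σ p, (B j).σ q)) :=
      (((B i).an ((B i).sub' hp)).continuousAt.tendsto.comp (continuous_fst.tendsto (p, q))).prodMk_nhds
        (((B j).an ((B j).sub' hq)).continuousAt.tendsto.comp (continuous_snd.tendsto (p, q)))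
    exact h2.eventually h1

/-! ## curves in the boxes -/

open Classical in
/-- the coordinates in the box -/
def PBox.crd (B : PBox S) (y : S.V) : ℂ × ℂ := if h : ∃ q ∈ ball B.c B.b, Pr y (B.σ q) then h.choose else 0

theorem PBox.crd_spec (B : PBox S) {y : S.V} (h : ∃ q ∈ ball B.c B.b, Pr y (B.σ q)) : B.crd y ∈ ball B.c B.b ∧ Pr y (B.σ (B.crd y)) := by
  unfold PBox.crd
  rw [dif_pos h]
  exact h.choose_spec

theorem PBox.crd_eq (B : PBox S) {y : S.V} {q : ℂ × ℂ} (hq : q ∈ ball B.c B.b) (h : Pr y (B.σ q)) : B.crd y = q := by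
  obtain ⟨h1, h2⟩ := B.crd_spec ⟨q, hq, h⟩
  exact B.inj _ (B.sub' h1) _ (B.sub' hq) (h2.symm.trans h)

theorem PBox.curve (B : PBox S) {G : ℂ → S.V} (hG : ∀ z, AnalyticAt ℂ G z) (hY : ∀ z, G z ∈ S.Y) {z : ℂ} (hz : ∃ q ∈ ball B.c B.b, Pr (G z) (B.σ q)) :
    (∀ᶠ w in 𝓝 z, ∃ q ∈ ball B.c B.b, Pr (G w) (B.σ q)) ∧ AnalyticAt ℂ (fun w => B.crd (G w)) z := by
  obtain ⟨q, hq, hr⟩ := hz
  obtain ⟨T, h1, h2, h3⟩ := B.loc (B.sub' hq) hr
  have hGt : Tendsto G (𝓝 z) (𝓝 (G z)) := (hG z).continuousAt.tendsto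
  have hφ : AnalyticAt ℂ (fun w => T (G w)) z := AnalyticAt.comp (g := T) (f := G) h1 (hG z)
  have hφt : Tendsto (fun w => T (G w)) (𝓝 z) (𝓝 q) := by
    have := hφ.continuousAt.tendsto
    rwa [h2] at this
  have h4 : ∀ᶠ w in 𝓝 z, T (G w) ∈ ball B.c B.b ∧ Pr (G w) (B.σ (T (G w))) := by
    filter_upwards [hφt.eventually (isOpen_ball.mem_nhds hq), hGt.eventually h3] with w h5 h6
    exact ⟨h5, h6 (hY w)⟩
  refine ⟨h4.mono fun w hw => ⟨_, hw.1, hw.2⟩, hφ.congr ?_⟩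
  filter_upwards [h4] with w hw
  exact (B.crd_eq hw.1 hw.2).symm

theorem speed_gen {N : ℕ} {f : ℂ × ℂ → EN N} {K : Set (ℂ × ℂ)} (hK : IsCompact K) (han : ∀ q ∈ K, AnalyticAt ℂ f q) (h0 : ∀ q ∈ K, f q ≠ 0)
    (hi : ∀ q ∈ K, ∀ (w : ℂ × ℂ) (a : ℂ), fderiv ℂ f q w = a • f q → w = 0) :
    ∃ C : ℝ, 0 ≤ C ∧ ∀ q ∈ K, ∀ w : ℂ × ℂ, ‖w‖ ≤ C * fs (f q) (fderiv ℂ f q w) := by
  rcases K.eq_empty_or_nonempty with he | ⟨q₁, hq₁⟩
  · exact ⟨0, le_rfl, fun q hq => by rw [he] at hq; exact absurd hq (Set.notMem_empty _)⟩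
  have h1 : ((1, 0) : ℂ × ℂ) ∈ sphere (0 : ℂ × ℂ) 1 := by
    rw [mem_sphere_zero_iff_norm, Prod.norm_def]
    simp
  have hne : (K ×ˢ sphere (0 : ℂ × ℂ) 1).Nonempty := ⟨(q₁, (1, 0)), hq₁, h1⟩
  have hcont : ContinuousOn (fun x : (ℂ × ℂ) × (ℂ × ℂ) => fs (f x.1) (fderiv ℂ f x.1 x.2)) (K ×ˢ sphere (0 : ℂ × ℂ) 1) := by
    rintro ⟨q, w⟩ ⟨hq, -⟩
    have hσ := han q hq
    have hσc : ContinuousAt (fun x : (ℂ × ℂ) × (ℂ × ℂ) => f x.1) (q, w) :=
      ContinuousAt.comp (g := f) (f := fun x : (ℂ × ℂ) × (ℂ × ℂ) => x.1) hσ.continuousAt continuousAt_fst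
    have h2 : ContinuousAt (fun x : (ℂ × ℂ) × (ℂ × ℂ) => fderiv ℂ f x.1) (q, w) :=
      ContinuousAt.comp (g := fderiv ℂ f) (f := fun x : (ℂ × ℂ) × (ℂ × ℂ) => x.1) hσ.fderiv.continuousAt continuousAt_fst
    have hdc : ContinuousAt (fun x : (ℂ × ℂ) × (ℂ × ℂ) => fderiv ℂ f x.1 x.2) (q, w) := h2.clm_apply continuousAt_snd
    have hw : ContinuousAt (fun x : (ℂ × ℂ) × (ℂ × ℂ) => wd (f x.1) (fderiv ℂ f x.1 x.2)) (q, w) :=
      ContinuousAt.comp (g := fun p : EN N × EN N => wd p.1 p.2) (f := fun x : (ℂ × ℂ) × (ℂ × ℂ) => (f x.1, fderiv ℂ f x.1 x.2))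
        Pool.Agent.H36.BP.wd_cont.continuousAt (hσc.prodMk hdc)
    have h3 : ContinuousAt (fun x : (ℂ × ℂ) × (ℂ × ℂ) => wd (f x.1) (fderiv ℂ f x.1 x.2) / ‖f x.1‖ ^ 2) (q, w) :=
      hw.div (hσc.norm.pow 2) (pow_ne_zero 2 (norm_ne_zero_iff.2 (h0 q hq)))
    exact h3.continuousWithinAt
  obtain ⟨⟨q₀, w₀⟩, ⟨hq₀, hw₀⟩, hmin⟩ := (hK.prod (isCompact_sphere (0 : ℂ × ℂ) 1)).exists_isMinOn hne hcont
  obtain ⟨μ, hμ⟩ : ∃ μ : ℝ, μ = fs (f q₀) (fderiv ℂ f q₀ w₀) := ⟨_, rfl⟩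
  have hμ0 : 0 < μ := by
    rw [hμ]
    refine lt_of_le_of_ne (Pool.Agent.H36.BP.fs_nonneg _ _) fun h0' => ?_
    have h4 : wd (f q₀) (fderiv ℂ f q₀ w₀) = 0 := by
      have h5 : wd (f q₀) (fderiv ℂ f q₀ w₀) / ‖f q₀‖ ^ 2 = 0 := h0'.symm
      exact (div_eq_zero_iff.1 h5).resolve_right (pow_ne_zero 2 (norm_ne_zero_iff.2 (h0 q₀ hq₀)))
    obtain ⟨a, ha⟩ := (Pool.Agent.H36.BP.wd_eq_zero (h0 q₀ hq₀)).1 h4
    have h6 : w₀ = 0 := hi q₀ hq₀ w₀ a ha
    have hw₀' := mem_sphere_zero_iff_norm.1 hw₀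
    rw [h6, norm_zero] at hw₀'
    exact zero_ne_one hw₀'
  refine ⟨μ⁻¹, by positivity, fun q hq w => ?_⟩
  rcases eq_or_ne w 0 with rfl | hw
  · rw [norm_zero]
    exact mul_nonneg (by positivity) (Pool.Agent.H36.BP.fs_nonneg _ _)
  have hwn : 0 < ‖w‖ := norm_pos_iff.2 hw
  obtain ⟨u, hu⟩ : ∃ u : ℂ × ℂ, u = ((‖w‖⁻¹ : ℝ) : ℂ) • w := ⟨_, rfl⟩
  have hu1 : u ∈ sphere (0 : ℂ × ℂ) 1 := by
    rw [mem_sphere_zero_iff_norm, hu, norm_smul, Complex.norm_real, norm_inv, norm_norm, inv_mul_cancel₀ hwn.ne']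
  have h2 : fs (f q₀) (fderiv ℂ f q₀ w₀) ≤ fs (f q) (fderiv ℂ f q u) := isMinOn_iff.1 hmin (q, u) ⟨hq, hu1⟩
  rw [← hμ, hu, map_smul, Pool.Agent.H36.BP.fs_smul_right, Complex.norm_real, norm_inv, norm_norm] at h2
  rw [inv_mul_eq_div, le_div_iff₀ hμ0]
  rw [inv_mul_eq_div, le_div_iff₀ hwn] at h2
  linarith

theorem PBox.ean (B : PBox S) {q : ℂ × ℂ} (hq : q ∈ closedBall (0 : ℂ × ℂ) 1) : AnalyticAt ℂ (fun q => S.e (B.σ q)) q :=
  AnalyticAt.comp (g := S.e) (f := B.σ) (S.e.analyticAt _) (B.an hq)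

theorem PBox.e_ne (B : PBox S) {q : ℂ × ℂ} (hq : q ∈ closedBall (0 : ℂ × ℂ) 1) : S.e (B.σ q) ≠ 0 := fun h =>
  B.ne_zero hq (S.e_inj (by rw [h, map_zero]))

theorem PBox.e_fderiv (B : PBox S) {q : ℂ × ℂ} (hq : q ∈ closedBall (0 : ℂ × ℂ) 1) (w : ℂ × ℂ) :
    fderiv ℂ (fun q => S.e (B.σ q)) q w = S.e (fderiv ℂ B.σ q w) := by
  have h1 : HasFDerivAt (fun q => S.e (B.σ q)) (S.e.comp (fderiv ℂ B.σ q)) q := S.e.hasFDerivAt.comp q (B.an hq).differentiableAt.hasFDerivAt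
  rw [h1.fderiv]
  rfl

/-- the parametrization is an immersion on compact sets -/
theorem PBox.speed (B : PBox S) {K : Set (ℂ × ℂ)} (hK : IsCompact K) (hKB : K ⊆ closedBall (0 : ℂ × ℂ) 1) :
    ∃ C : ℝ, 0 ≤ C ∧ ∀ q ∈ K, ∀ w : ℂ × ℂ, ‖w‖ ≤ C * fs (S.e (B.σ q)) (fderiv ℂ (fun q => S.e (B.σ q)) q w) := by
  refine speed_gen hK (fun q hq => B.ean (hKB hq)) (fun q hq => B.e_ne (hKB hq)) fun q hq w a h => ?_
  rw [B.e_fderiv (hKB hq), ← map_smul] at h
  have h5 : fderiv ℂ B.σ q w = a • B.σ q := S.e_inj h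
  obtain ⟨τ, hτ⟩ := B.chart q (hKB hq)
  exact chart_imm_zero hτ (w := w) (a := a) (by rw [gb_fderiv, add_zero]; exact h5)

/-- the derivative of the coordinates is bounded by the length of the derivative of the curve -/
theorem PBox.deriv_le (B : PBox S) {G : ℂ → S.V} (hG : ∀ z, AnalyticAt ℂ G z) (hY : ∀ z, G z ∈ S.Y) {z : ℂ} (hz : ∃ q ∈ ball B.c B.b, Pr (G z) (B.σ q)) :
    lam (fun w => S.e (G w)) z = fs (S.e (B.σ (B.crd (G z)))) (fderiv ℂ (fun q => S.e (B.σ q)) (B.crd (G z)) (deriv (fun w => B.crd (G w)) z)) := by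
  obtain ⟨h1, h2⟩ := B.curve hG hY hz
  obtain ⟨h3, h4⟩ := B.crd_spec hz
  have hσ := B.an (B.sub' h3)
  have hσc : AnalyticAt ℂ (fun w => B.σ (B.crd (G w))) z := AnalyticAt.comp (g := B.σ) (f := fun w => B.crd (G w)) hσ h2
  obtain ⟨Λ, hΛ⟩ := gp_dual (B.ne_zero (B.sub' h3))
  have hΛσ : AnalyticAt ℂ (fun w => Λ (B.σ (B.crd (G w)))) z := AnalyticAt.comp (g := Λ) (f := fun w => B.σ (B.crd (G w))) (Λ.analyticAt _) hσc
  have hΛG : AnalyticAt ℂ (fun w => Λ (G w)) z := AnalyticAt.comp (g := Λ) (f := G) (Λ.analyticAt _) (hG z)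
  have ha : AnalyticAt ℂ (fun w => Λ (G w) / Λ (B.σ (B.crd (G w)))) z := hΛG.div hΛσ hΛ
  have hne : ∀ᶠ w in 𝓝 z, Λ (B.σ (B.crd (G w))) ≠ 0 := hΛσ.continuousAt.eventually_ne hΛ
  have heq : ∀ᶠ w in 𝓝 z, S.e (G w) = (Λ (G w) / Λ (B.σ (B.crd (G w)))) • S.e (B.σ (B.crd (G w))) := by
    filter_upwards [h1, hne] with w h5 h6
    obtain ⟨-, a, ha, h7⟩ := B.crd_spec h5
    have h8 : Λ (G w) / Λ (B.σ (B.crd (G w))) = a := by
      rw [div_eq_iff h6]
      conv_lhs => rw [h7]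
      rw [map_smul, smul_eq_mul]
    rw [h8, ← map_smul, ← h7]
  have ha0 : Λ (G z) / Λ (B.σ (B.crd (G z))) ≠ 0 := by
    obtain ⟨a, ha, h7⟩ := h4
    have h8 : Λ (G z) = a * Λ (B.σ (B.crd (G z))) := by
      conv_lhs => rw [h7]
      rw [map_smul, smul_eq_mul]
    rw [h8]
    exact div_ne_zero (mul_ne_zero ha hΛ) hΛ
  have hd : HasDerivAt (fun w => S.e (B.σ (B.crd (G w)))) (fderiv ℂ (fun q => S.e (B.σ q)) (B.crd (G z)) (deriv (fun w => B.crd (G w)) z)) z := by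
    have e1 : HasDerivAt (fun w => B.crd (G w)) (deriv (fun w => B.crd (G w)) z) z := h2.differentiableAt.hasDerivAt
    exact HasFDerivAt.comp_hasDerivAt (f := fun w => B.crd (G w)) (l := fun q => S.e (B.σ q)) z (B.ean (B.sub' h3)).differentiableAt.hasFDerivAt e1
  rw [Pool.Agent.MQ2.lam_smul heq ha.differentiableAt ha0 hd.differentiableAt]
  show fs (S.e (B.σ (B.crd (G z)))) (deriv (fun w => S.e (B.σ (B.crd (G w)))) z) = _
  rw [hd.deriv]

/-- the curve in the boxes -/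
def ncLift {ι : Type} [Fintype ι] (B : ι → PBox S) (hB : ∀ i j, Pr ((B i).σ (B i).c) ((B j).σ (B j).c) → i = j)
    (hcov : ∀ y ∈ S.Y, ∃ i, ∃ q ∈ closedBall (B i).c ((B i).b / 2), Pr y ((B i).σ q)) {F : ℂ → EN M} {G : ℂ → S.V} (h : S.Lift F G) :
    NCLift (ncModel B hB) F where
  U := fun i => {z | ∃ q ∈ ball (B i).c (B i).b, Pr (G z) ((B i).σ q)}
  p := fun i z => (B i).crd (G z)
  isOpen := fun i => isOpen_iff_mem_nhds.2 fun z hz => ((B i).curve h.an (fun z => (S.mem _ _ (h.ov z)).1) hz).1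
  an := fun i z hz => ((B i).curve h.an (fun z => (S.mem _ _ (h.ov z)).1) hz).2
  mem := fun i z hz => ((B i).crd_spec hz).1
  eq := fun i z hz => S.uniq _ _ _ _ ((B i).crd_spec hz).2 (h.ov z) ((B i).ov _ ((B i).sub' ((B i).crd_spec hz).1)).self_of_nhds
  closed := by
    intro i K hKB hK
    have hKB' : K ⊆ ball (B i).c (B i).b := hKB
    have e1 : {z | z ∈ {z | ∃ q ∈ ball (B i).c (B i).b, Pr (G z) ((B i).σ q)} ∧ (B i).crd (G z) ∈ K} = {z | ∃ q ∈ K, Pr (G z) ((B i).σ q)} := by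
      ext z
      constructor
      · rintro ⟨h1, h2⟩
        exact ⟨_, h2, ((B i).crd_spec h1).2⟩
      · rintro ⟨q, hq, hr⟩
        refine ⟨⟨q, hKB' hq, hr⟩, ?_⟩
        rw [(B i).crd_eq (hKB' hq) hr]
        exact hq
    have e2 : IsClosed {z | ∃ q ∈ K, Pr (G z) ((B i).σ q)} := by
      rw [← isOpen_compl_iff, isOpen_iff_mem_nhds]
      intro z hz
      have hz' : ∀ q ∈ K, ¬ Pr (G z) ((B i).σ q) := fun q hq hr => hz ⟨q, hq, hr⟩
      have h1 : ∀ᶠ w in 𝓝 z, ∀ q ∈ K, ¬ Pr (G w) ((B i).σ q) := by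
        refine hK.eventually_forall_of_forall_eventually fun q hq => ?_
        have hG0 : G z ≠ 0 := fun h0 => S.surf.zero (h0 ▸ (S.mem _ _ (h.ov z)).1)
        have h2 := not_pr_eventually hG0 ((B i).ne_zero ((B i).sub' (hKB' hq))) (hz' q hq)
        have h3 : Tendsto (fun x : ℂ × (ℂ × ℂ) => (G x.1, (B i).σ x.2)) (𝓝 (z, q)) (𝓝 (G z, (B i).σ q)) :=
          ((h.an z).continuousAt.tendsto.comp (continuous_fst.tendsto (z, q))).prodMk_nhds
            (((B i).an ((B i).sub' (hKB' hq))).continuousAt.tendsto.comp (continuous_snd.tendsto (z, q)))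
        exact h3.eventually h2
      filter_upwards [h1] with w hw
      rintro ⟨q, hq, hr⟩
      exact hw q hq hr
    exact e1 ▸ e2
  cover := by
    intro z
    obtain ⟨i, q, hq, hr⟩ := hcov (G z) (S.mem _ _ (h.ov z)).1
    have hq' : q ∈ ball (B i).c (B i).b := closedBall_subset_ball (half_lt_self (B i).b_pos) hq
    refine ⟨i, ⟨q, hq', hr⟩, ?_⟩
    show (B i).crd (G z) ∈ closedBall (B i).c ((B i).b / 2)
    rw [(B i).crd_eq hq' hr]
    exact hq
  rel := fun i j z hi hj => ((B i).crd_spec hi).2.symm.trans ((B j).crd_spec hj).2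
  full := by
    intro i j z hi q hq hr
    have h1 : Pr (G z) ((B j).σ q) := ((B i).crd_spec hi).2.trans hr
    exact ⟨⟨q, hq, h1⟩, (B j).crd_eq hq h1⟩

open Classical in
/-- the constants of the boxes -/
def ncCK {ι : Type} [Fintype ι] (B : ι → PBox S) (i : ι) (K : Set (ℂ × ℂ)) : ℝ :=
  if h : IsCompact K ∧ K ⊆ closedBall (0 : ℂ × ℂ) 1 then ((B i).speed h.1 h.2).choose else 0

theorem ncDens {ι : Type} [Fintype ι] (B : ι → PBox S) (hB : ∀ i j, Pr ((B i).σ (B i).c) ((B j).σ (B j).c) → i = j)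
    (hcov : ∀ y ∈ S.Y, ∃ i, ∃ q ∈ closedBall (B i).c ((B i).b / 2), Pr y ((B i).σ q)) {F : ℂ → EN M} {G : ℂ → S.V} (h : S.Lift F G)
    (hF : Differentiable ℂ F) (hF0 : ∀ z, F z ≠ 0) :
    NCDens (ncLift B hB hcov h) (2 + 2 * S.A) (fun i K => ncCK B i K) (fun z => lam F z + lam (fun w => S.e (G w)) z) := by
  have hG0 : ∀ z, S.e (G z) ≠ 0 := fun z h0 => S.surf.zero (by
    have h1 : G z = 0 := S.e_inj (by rw [h0, map_zero])
    exact h1 ▸ (S.mem _ _ (h.ov z)).1)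
  have hGd : Differentiable ℂ fun z => S.e (G z) := fun z => (S.e.hasFDerivAt.comp_hasDerivAt z (h.an z).differentiableAt.hasDerivAt).differentiableAt
  have c1 : Continuous (lam F) := Pool.Agent.MQ.continuous_lam hF hF0
  have c2 : Continuous (lam fun w => S.e (G w)) := Pool.Agent.MQ.continuous_lam hGd hG0
  have n1 : ∀ z, 0 ≤ lam F z := Pool.Agent.MQ.lam_nonneg F
  have n2 : ∀ z, 0 ≤ lam (fun w => S.e (G w)) z := Pool.Agent.MQ.lam_nonneg _
  refine ⟨c1.add c2, fun z => le_add_of_nonneg_right (n2 z), ?_, ?_⟩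
  · obtain ⟨K, hK⟩ := h.en
    refine ⟨2 * K, fun R hR => ?_⟩
    have ct := (Pool.Agent.H30M.contDiff_tau R).continuous
    have hi : ∀ f : ℂ → ℝ, Continuous f → Integrable fun z => tau R z * f z := fun f hf =>
      (ct.mul hf).integrable_of_hasCompactSupport ((Pool.Agent.H30M.hcs_tau hR).mul_right)
    have i1 : Integrable fun z => tau R z * (2 * lam F z ^ 2) := hi (fun z => 2 * lam F z ^ 2) (continuous_const.mul (c1.pow 2))
    have i2 : Integrable fun z => tau R z * (2 * lam (fun w => S.e (G w)) z ^ 2) :=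
      hi (fun z => 2 * lam (fun w => S.e (G w)) z ^ 2) (continuous_const.mul (c2.pow 2))
    have i3 : Integrable fun z => tau R z * (lam F z + lam (fun w => S.e (G w)) z) ^ 2 :=
      hi (fun z => (lam F z + lam (fun w => S.e (G w)) z) ^ 2) ((c1.add c2).pow 2)
    have h1 : ∫ z, tau R z * (lam F z + lam (fun w => S.e (G w)) z) ^ 2 ≤
        ∫ z, (tau R z * (2 * lam F z ^ 2) + tau R z * (2 * lam (fun w => S.e (G w)) z ^ 2)) := by
      refine integral_mono i3 (i1.add i2) fun z => ?_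
      show tau R z * (lam F z + lam (fun w => S.e (G w)) z) ^ 2 ≤ tau R z * (2 * lam F z ^ 2) + tau R z * (2 * lam (fun w => S.e (G w)) z ^ 2)
      rw [← mul_add]
      refine mul_le_mul_of_nonneg_left ?_ (Pool.Agent.H30M.tau_nonneg hR z)
      nlinarith [sq_nonneg (lam F z - lam (fun w => S.e (G w)) z)]
    rw [integral_add i1 i2] at h1
    have e1 : ∫ z, tau R z * (2 * lam F z ^ 2) = 2 * En F R := by
      rw [En, ← integral_const_mul]
      congr 1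
      funext z
      ring
    have e2 : ∫ z, tau R z * (2 * lam (fun w => S.e (G w)) z ^ 2) = 2 * En (fun w => S.e (G w)) R := by
      rw [En, ← integral_const_mul]
      congr 1
      funext z
      ring
    rw [e1, e2] at h1
    have h2 := hK R hR
    show ∫ z, tau R z * (lam F z + lam (fun w => S.e (G w)) z) ^ 2 ≤ _
    linarith
  · intro i K hKB hK z hz hzK
    have hKB' : K ⊆ closedBall (0 : ℂ × ℂ) 1 := hKB.trans (B i).sub'
    have h1 : IsCompact K ∧ K ⊆ closedBall (0 : ℂ × ℂ) 1 := ⟨hK, hKB'⟩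
    have h2 : ncCK B i K = ((B i).speed h1.1 h1.2).choose := by
      unfold ncCK
      rw [dif_pos h1]
    obtain ⟨h3, h4⟩ := ((B i).speed h1.1 h1.2).choose_spec
    rw [← h2] at h3 h4
    show ‖deriv (fun z => (B i).crd (G z)) z‖ ≤ ncCK B i K * (lam F z + lam (fun w => S.e (G w)) z)
    have h5 := h4 ((B i).crd (G z)) hzK (deriv (fun z => (B i).crd (G z)) z)
    rw [← (B i).deriv_le h.an (fun z => (S.mem _ _ (h.ov z)).1) hz] at h5
    exact h5.trans (mul_le_mul_of_nonneg_left (le_add_of_nonneg_left (n1 z)) h3)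

/-- **The normal crossings model.**  The constants `A`, `CK` do not depend on the curve. -/
theorem exists_ncModel {P : Ideal (MvPolynomial (Fin (M + 1)) ℂ)} [P.IsPrime] (hP : Homog P) {z : Fin 2 → FunField P} (hz : IsTranscendenceBasis ℂ z)
    (hsm : ∀ y : Fin (M + 1) → ℂ, y ≠ 0 → (∀ Q ∈ P, eval y Q = 0) → Module.finrank ℂ (conTan P y) ≤ 3) {RD : MvPolynomial (Fin (M + 1)) ℂ}
    {d : ℕ} (hd : RD.IsHomogeneous d) (hR : RD ∉ P) :
    ∃ (X : NCModel P RD) (A : ℝ) (CK : X.ι → Set (ℂ × ℂ) → ℝ), ∀ F : ℂ → EN M, Differentiable ℂ F → (∀ z, F z ∈ coneE P) →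
      (∃ z w, ∀ c : ℂ, F z ≠ c • F w) → (∃ z, eval (F z).ofLp RD ≠ 0) → ∃ (Y : NCLift X F) (lm : ℂ → ℝ), NCDens Y A CK lm := by
  have hX : Surface (coneE P) := Pool.Agent.H90.SG.surface_coneE hP hz hsm
  obtain ⟨T⟩ := exists_ncSurf_cone hP hz hsm hd hR
  obtain ⟨S, hS⟩ := exists_ncOver hX hd T
  obtain ⟨ι, hι, B, hcov, hB⟩ := exists_family S
  refine ⟨ncModel B hB, 2 + 2 * S.A, fun i K => ncCK B i K, fun F hF hFX _ hne => ?_⟩
  obtain ⟨G, hG⟩ := hS F hF hFX hne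
  exact ⟨ncLift B hB hcov hG, _, ncDens B hB hcov hG hF fun z h0 => hX.zero (h0 ▸ hFX z)⟩

end Pool.Agent.MQ3

end
end
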