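import Pool.Agent.H43.TL2.M118
import Pool.Agent.H43.TL2.M42
import Pool.Agent.H43.TL2.M44
import Pool.Agent.H43.TL2.M68
import Pool.Agent.H43.TL2.M92

/-! The parts of this file: MQ3.ThN, MQL.ThNK. -/

section

/-!
# MQ3 ThN: the function `Θ` of all charts
-/

set_option autoImplicit false

open Topology Filter Metric MvPolynomial

noncomputable section

namespace Pool.Agent.MQ3

open Pool.Agent.H36.BP (EN fs)
open Pool.Agent.H17BP (Surface IsForm)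
open Pool.Agent.H17EF (projVar coneE)
open Pool.Agent.MQ (dvg ztv)

/-! ## calculus -/

/-- the invariance, with weights which are functions on the curve -/
theorem Th_core {v v' Ψ : ℂ × ℂ → ℂ × ℂ} {h : ℂ × ℂ → ℂ} {m : ℕ} (hm : m ≠ 0) {p p₁ : ℂ → ℂ × ℂ} {o o₁ : ℂ → ℂ} {z : ℂ} (hΨ : AnalyticAt ℂ Ψ (p z))
    (hv : AnalyticAt ℂ v (p z)) (hv' : AnalyticAt ℂ v' (Ψ (p z))) (hh : AnalyticAt ℂ h (p z))
    (hrel : ∀ᶠ Q in 𝓝 (p z), fderiv ℂ Ψ Q (v Q) = h Q • v' (Ψ Q)) (ho : ∀ᶠ w in 𝓝 z, o w = jc Ψ (p w) ^ m * o₁ w) (ho₁ : AnalyticAt ℂ o₁ z)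
    (hp : AnalyticAt ℂ p z) (hp₁ : ∀ᶠ w in 𝓝 z, p₁ w = Ψ (p w)) (hode : ∀ᶠ w in 𝓝 z, (v (p w)).1 * (deriv p w).2 - (v (p w)).2 * (deriv p w).1 = 0)
    (hv0 : v (p z) ≠ 0) (hd : deriv p z ≠ 0) (hJ : jc Ψ (p z) ≠ 0) (ho0 : o₁ z ≠ 0) (hh0 : h (p z) ≠ 0) (hv'0 : v' (Ψ (p z)) ≠ 0) :
    deriv (ztv v p) z / ztv v p z + dvg v (p z) * ztv v p z + 1 / m * (deriv o z / o z) =
      deriv (ztv v' p₁) z / ztv v' p₁ z + dvg v' (p₁ z) * ztv v' p₁ z + 1 / m * (deriv o₁ z / o₁ z) := by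
  have hvp : AnalyticAt ℂ (fun w => v (p w)) z := AnalyticAt.fun_comp (g := v) (f := p) hv hp
  have hvne : ∀ᶠ w in 𝓝 z, v (p w) ≠ 0 := hvp.continuousAt.eventually_ne hv0
  have hζ : AnalyticAt ℂ (ztv v p) z := ztv_an hp hv hode hv0
  have hder : ∀ᶠ w in 𝓝 z, deriv p w = ztv v p w • v (p w) := by
    filter_upwards [hode, hvne] with w e1 e2
    exact ztv_smul e1 e2
  have hζ0 : ztv v p z ≠ 0 := by
    intro h1
    have h2 := hder.self_of_nhds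
    rw [h1, zero_smul] at h2
    exact hd h2
  have hv'p : AnalyticAt ℂ (fun w => v' (Ψ (p w))) z :=
    AnalyticAt.fun_comp (g := v') (f := fun w => Ψ (p w)) hv' (AnalyticAt.fun_comp (g := Ψ) (f := p) hΨ hp)
  have hz₁ : ∀ᶠ w in 𝓝 z, ztv v' p₁ w = h (p w) * ztv v p w := by
    filter_upwards [hder, hp₁, hp₁.eventually_nhds, hp.continuousAt.eventually hrel, hp.continuousAt.eventually hΨ.eventually_analyticAt,
      hp.eventually_analyticAt, hv'p.continuousAt.eventually_ne hv'0] with w e1 e2 e3 e4 e5 e6 e7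
    refine ztv_of ?_ (by rw [e2]; exact e7)
    have h1 : deriv p₁ w = fderiv ℂ Ψ (p w) (deriv p w) := by
      have h2 : p₁ =ᶠ[𝓝 w] fun w => Ψ (p w) := e3
      rw [h2.deriv_eq]
      exact (e5.differentiableAt.hasFDerivAt.comp_hasDerivAt w e6.differentiableAt.hasDerivAt).deriv
    rw [h1, e1, map_smul, e4, smul_smul, e2, mul_comm]
  have hz₁' : ztv v' p₁ =ᶠ[𝓝 z] fun w => h (p w) * ztv v p w := hz₁
  have ho' : o =ᶠ[𝓝 z] fun w => jc Ψ (p w) ^ m * o₁ w := ho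
  have key := curve_rule hΨ hv hv' hh hrel hp hζ hder.self_of_nhds hζ0 hh0 hJ
  have h1 : DifferentiableAt ℂ (fun u => jc Ψ (p u)) z := ((jc_an hΨ).comp hp).differentiableAt
  have h4 : deriv (fun u => jc Ψ (p u) ^ m * o₁ u) z =
      (m * jc Ψ (p z) ^ (m - 1) * deriv (fun u => jc Ψ (p u)) z) * o₁ z + jc Ψ (p z) ^ m * deriv o₁ z :=
    ((h1.hasDerivAt.pow m).mul ho₁.differentiableAt.hasDerivAt).deriv
  have h5 : 1 / (m : ℂ) * (deriv o z / o z) = deriv (fun u => jc Ψ (p u)) z / jc Ψ (p z) + 1 / m * (deriv o₁ z / o₁ z) := by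
    rw [ho'.deriv_eq, ho.self_of_nhds, h4]
    obtain ⟨n, rfl⟩ : ∃ n, m = n + 1 := ⟨m - 1, by omega⟩
    have hm' : ((n + 1 : ℕ) : ℂ) ≠ 0 := by exact_mod_cast hm
    simp only [Nat.add_sub_cancel]
    field_simp
    ring
  rw [hz₁'.deriv_eq, hz₁.self_of_nhds, hp₁.self_of_nhds, h5]
  linear_combination -key

/-- the logarithmic derivative of `J ^ m o` -/
theorem logder_pow {J o : ℂ → ℂ} {z : ℂ} {m : ℕ} (hm : m ≠ 0) (hJ : DifferentiableAt ℂ J z) (ho : DifferentiableAt ℂ o z) (hJ0 : J z ≠ 0) (ho0 : o z ≠ 0) :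
    deriv J z / J z + 1 / m * (deriv o z / o z) = 1 / m * (deriv (fun w => J w ^ m * o w) z / (J z ^ m * o z)) := by
  have h4 : deriv (fun u => J u ^ m * o u) z = (m * J z ^ (m - 1) * deriv J z) * o z + J z ^ m * deriv o z :=
    ((hJ.hasDerivAt.pow m).mul ho.hasDerivAt).deriv
  rw [h4]
  obtain ⟨n, rfl⟩ : ∃ n, m = n + 1 := ⟨m - 1, by omega⟩
  have hm' : ((n + 1 : ℕ) : ℂ) ≠ 0 := by exact_mod_cast hm
  simp only [Nat.add_sub_cancel]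
  field_simp
  ring

theorem inj_of_jc {κ : ℂ × ℂ → ℂ × ℂ} {Q : ℂ × ℂ} (h : jc κ Q ≠ 0) {w : ℂ × ℂ} (hw : fderiv ℂ κ Q w = 0) : w = 0 := by
  rw [split_vec] at hw
  have e1 := congrArg Prod.fst hw
  have e2 := congrArg Prod.snd hw
  simp only [Prod.fst_add, Prod.snd_add, Prod.smul_fst, Prod.smul_snd, smul_eq_mul, Prod.fst_zero, Prod.snd_zero] at e1 e2
  rw [jc] at h
  refine Prod.ext ?_ ?_
  · refine (mul_eq_zero.1 (?_ : w.1 * _ = 0)).resolve_right h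
    linear_combination (fderiv ℂ κ Q (0, 1)).2 * e1 - (fderiv ℂ κ Q (0, 1)).1 * e2
  · refine (mul_eq_zero.1 (?_ : w.2 * _ = 0)).resolve_right h
    linear_combination (fderiv ℂ κ Q (1, 0)).1 * e2 - (fderiv ℂ κ Q (1, 0)).2 * e1

/-! ## tangent vectors and the form -/

variable {M : ℕ} {X₀ : Set (EN M)}

theorem tanS_smul (hX : Surface X₀) {x u : EN M} (h : u ∈ Pool.Agent.H17BP.Tan X₀ x) {c : ℂ} (hc : c ≠ 0) : c • u ∈ Pool.Agent.H17BP.Tan X₀ (c • x) := by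
  obtain ⟨γ, h1, h2, h3, h4⟩ := h
  refine ⟨fun z => c • γ z, (analyticAt_const (v := c)).fun_smul h1, h2.mono fun z hz => hX.smul _ hz c hc, by simp only [h3], ?_⟩
  have h5 : HasDerivAt (fun z => c • γ z) (c • deriv γ 0) 0 := h1.differentiableAt.hasDerivAt.const_smul c
  rw [h5.deriv, h4]

theorem tan_fderiv {ρ : ℂ × ℂ → EN M} {Q : ℂ × ℂ} (hρ : AnalyticAt ℂ ρ Q) (hm : ∀ᶠ q in 𝓝 Q, ρ q ∈ X₀) (e : ℂ × ℂ) :
    fderiv ℂ ρ Q e ∈ Pool.Agent.H17BP.Tan X₀ (ρ Q) := Pool.Agent.E2.tan_iff.1 (Pool.Agent.E1.ResL_tan hρ hm e)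

theorem form_comb {mK jH : ℕ} {Wf : EN M → EN M → EN M → ℂ} (hW : IsForm X₀ mK jH Wf) {x u w : EN M} (hx : x ∈ X₀)
    (hu : u ∈ Pool.Agent.H17BP.Tan X₀ x) (hw : w ∈ Pool.Agent.H17BP.Tan X₀ x) (hsum : ∀ a b : ℂ, a • u + b • w ∈ Pool.Agent.H17BP.Tan X₀ x)
    (a b c d a' c' : ℂ) : Wf x ((a • u + b • w) + a' • x) ((c • u + d • w) + c' • x) = (a * d - b * c) ^ mK * Wf x u w := by
  rw [hW.add_smul x hx _ (hsum a b) _ (hsum c d), hW.det x hx u hu w hw]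

/-! ## the charts -/

theorem split_E {E : Type*} [NormedAddCommGroup E] [NormedSpace ℂ E] (L : ℂ × ℂ →L[ℂ] E) (u : ℂ × ℂ) : L u = u.1 • L (1, 0) + u.2 • L (0, 1) := by
  rw [← map_smul, ← map_smul, ← map_add]
  congr 1
  refine Prod.ext ?_ ?_ <;> simp

section

variable {P : Ideal (MvPolynomial (Fin (M + 1)) ℂ)} {RD : MvPolynomial (Fin (M + 1)) ℂ} {m : ℕ} {X : NCModel P RD} {θ : WDiff (coneE P) m}
  {l : LF M} {S : Web X θ l}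

theorem kap_an (k : S.ι) (q : ℂ × ℂ) : AnalyticAt ℂ (S.κ k) q := analyticAt_mono q

theorem kap_jc (k : S.ι) {q : ℂ × ℂ} (h0 : q.1 * q.2 ≠ 0) : jc (S.κ k) q ≠ 0 := by
  have h := jac_mono_ne (S.c k).basis.det h0
  rw [mul_comm (fderiv ℂ (mono (S.c k).w (S.c k).w') q (1, 0)).2] at h
  exact h

theorem kap_DS (k : S.ι) {q : ℂ × ℂ} (hq : q ∈ S.D k) (h0 : q.1 * q.2 ≠ 0) : S.κ k q ∈ DS := mono_mem_DS hq.1 h0

theorem sig_an (k : S.ι) {q : ℂ × ℂ} (hq : q ∈ S.D k) : AnalyticAt ℂ (S.σ k) q :=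
  AnalyticAt.fun_comp (g := X.ρ k.1) (f := S.κ k) (wtn_rho_an hq.2) (kap_an k q)

theorem sig_mem (k : S.ι) {q : ℂ × ℂ} (hq : q ∈ S.D k) : ∀ᶠ x in 𝓝 q, S.σ k x ∈ coneE P :=
  (kap_an k q).continuousAt.eventually (wtn_rho_mem hq.2)

theorem sig_fderiv (k : S.ι) {q : ℂ × ℂ} (hq : q ∈ S.D k) (e : ℂ × ℂ) :
    fderiv ℂ (S.σ k) q e = fderiv ℂ (X.ρ k.1) (S.κ k q) (fderiv ℂ (S.κ k) q e) := by
  have h1 : HasFDerivAt (S.σ k) ((fderiv ℂ (X.ρ k.1) (S.κ k q)).comp (fderiv ℂ (S.κ k) q)) q :=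
    (wtn_rho_an (X := X) hq.2).differentiableAt.hasFDerivAt.comp q (kap_an k q).differentiableAt.hasFDerivAt
  rw [h1.fderiv]
  rfl

theorem sig_imm (k : S.ι) {q : ℂ × ℂ} (hq : q ∈ S.D k) (h0 : q.1 * q.2 ≠ 0) : Imm (coneE P) (S.σ k) q := by
  refine ⟨sig_an k hq, sig_mem k hq, fun w a h => ?_⟩
  rw [sig_fderiv k hq] at h
  exact inj_of_jc (kap_jc k h0) ((X.box k.1).indep _ (kap_DS k hq h0) _ a h)

/-! ## the factor and the weight -/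

variable {F : ℂ → EN M}

theorem cf_tan (hX : Surface (coneE P)) (Y : NCLift X F) {i : X.ι} {z : ℂ} (hz : z ∈ Y.U i) (e : ℂ × ℂ) :
    cf Y i z • fderiv ℂ (X.ρ i) (Y.p i z) e ∈ Pool.Agent.H17BP.Tan (coneE P) (F z) := by
  obtain ⟨h1, h2⟩ := cf_spec Y hz
  rw [h2]
  exact tanS_smul hX (tan_fderiv (wtn_rho_an (Y.mem i z hz)) (wtn_rho_mem (Y.mem i z hz)) e) h1

variable {Wf : EN M → EN M → EN M → ℂ} {mK jH : ℕ}

/-- the weight in the chart `k` -/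
def oc (S : Web X θ l) (Wf : EN M → EN M → EN M → ℂ) (Y : NCLift X F) (k : S.ι) (w : ℂ) : ℂ :=
  Wf (F w) (cf Y k.1 w • fderiv ℂ (S.σ k) (S.lf Y k w) (1, 0)) (cf Y k.1 w • fderiv ℂ (S.σ k) (S.lf Y k w) (0, 1))

/-- the weight in the chart and the weight in the box -/
theorem oc_eq (hX : Surface (coneE P)) (hW : IsForm (coneE P) mK jH Wf) (Y : NCLift X F) {k : S.ι} {w : ℂ} (hM : F w ∈ coneE P) (hU : w ∈ Y.U k.1)
    (hD : S.lf Y k w ∈ S.D k) (hκ : S.κ k (S.lf Y k w) = Y.p k.1 w) : oc S Wf Y k w = jc (S.κ k) (S.lf Y k w) ^ mK * wt Wf Y k.1 w := by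
  have hv : ∀ e, cf Y k.1 w • fderiv ℂ (S.σ k) (S.lf Y k w) e = (fderiv ℂ (S.κ k) (S.lf Y k w) e).1 • (cf Y k.1 w • fderiv ℂ (X.ρ k.1) (Y.p k.1 w) (1, 0)) +
      (fderiv ℂ (S.κ k) (S.lf Y k w) e).2 • (cf Y k.1 w • fderiv ℂ (X.ρ k.1) (Y.p k.1 w) (0, 1)) := by
    intro e
    rw [sig_fderiv k hD, hκ, split_E (fderiv ℂ (X.ρ k.1) (Y.p k.1 w))]
    rw [smul_add, smul_comm (cf Y k.1 w), smul_comm (cf Y k.1 w)]
  rw [oc, hv, hv, hW.det _ hM _ (cf_tan hX Y hU _) _ (cf_tan hX Y hU _), jc, wt,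
    mul_comm (fderiv ℂ (S.κ k) (S.lf Y k w) (1, 0)).2]

theorem cf_tan' (hX : Surface (coneE P)) (Y : NCLift X F) {k : S.ι} {w : ℂ} (hU : w ∈ Y.U k.1) (hD : S.lf Y k w ∈ S.D k)
    (hκ : S.κ k (S.lf Y k w) = Y.p k.1 w) (e : ℂ × ℂ) : cf Y k.1 w • fderiv ℂ (S.σ k) (S.lf Y k w) e ∈ Pool.Agent.H17BP.Tan (coneE P) (F w) := by
  rw [sig_fderiv k hD, hκ]
  exact cf_tan hX Y hU _

/-- the weights in two charts -/
theorem oc_chg (hX : Surface (coneE P)) (hW : IsForm (coneE P) mK jH Wf) (Y : NCLift X F) {k k' : S.ι} {w : ℂ} (hM : F w ∈ coneE P)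
    (hU : w ∈ Y.U k.1) (hκ : S.κ k (S.lf Y k w) = Y.p k.1 w)
    (hU' : w ∈ Y.U k'.1) (hD' : S.lf Y k' w ∈ S.D k') (hκ' : S.κ k' (S.lf Y k' w) = Y.p k'.1 w)
    {Ψ : ℂ × ℂ → ℂ × ℂ} {b : ℂ × ℂ → ℂ} (hΨ : AnalyticAt ℂ Ψ (S.lf Y k w)) (hb : AnalyticAt ℂ b (S.lf Y k w))
    (he : ∀ᶠ x in 𝓝 (S.lf Y k w), S.σ k x = b x • S.σ k' (Ψ x)) (h0 : Ψ (S.lf Y k w) = S.lf Y k' w) :
    oc S Wf Y k w = jc Ψ (S.lf Y k w) ^ mK * oc S Wf Y k' w := by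
  set q := S.lf Y k w with hq
  set q' := S.lf Y k' w with hq'
  obtain ⟨c1, c2⟩ := cf_spec Y hU
  obtain ⟨c1', c2'⟩ := cf_spec Y hU'
  have hσ' : AnalyticAt ℂ (S.σ k') (Ψ q) := by rw [h0]; exact sig_an k' hD'
  have hσΨ : AnalyticAt ℂ (fun x => S.σ k' (Ψ x)) q := AnalyticAt.fun_comp (g := S.σ k') (f := Ψ) hσ' hΨ
  have hFk : F w = cf Y k.1 w • S.σ k q := by rw [Web.σ, hκ]; exact c2
  have hFk' : F w = cf Y k'.1 w • S.σ k' q' := by rw [Web.σ, hκ']; exact c2'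
  have hne : S.σ k' q' ≠ 0 := by rw [Web.σ]; exact wtn_rho_ne hX hD'.2
  have hcc : cf Y k'.1 w = cf Y k.1 w * b q := by
    have h1 := he.self_of_nhds
    rw [h1, h0, smul_smul, hFk'] at hFk
    exact smul_left_injective ℂ hne hFk
  have hv : ∀ e, cf Y k.1 w • fderiv ℂ (S.σ k) q e = ((fderiv ℂ Ψ q e).1 • (cf Y k'.1 w • fderiv ℂ (S.σ k') q' (1, 0)) +
      (fderiv ℂ Ψ q e).2 • (cf Y k'.1 w • fderiv ℂ (S.σ k') q' (0, 1))) + (cf Y k.1 w * fderiv ℂ b q e / cf Y k'.1 w) • F w := by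
    intro e
    have h1 : HasFDerivAt (fun x => b x • S.σ k' (Ψ x)) _ q := hb.differentiableAt.hasFDerivAt.smul hσΨ.differentiableAt.hasFDerivAt
    have h2 : fderiv ℂ (S.σ k) q = fderiv ℂ (fun x => b x • S.σ k' (Ψ x)) q := Filter.EventuallyEq.fderiv_eq he
    have h3 : HasFDerivAt (fun x => S.σ k' (Ψ x)) ((fderiv ℂ (S.σ k') (Ψ q)).comp (fderiv ℂ Ψ q)) q :=
      hσ'.differentiableAt.hasFDerivAt.comp q hΨ.differentiableAt.hasFDerivAt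
    rw [h2, h1.fderiv]
    simp only [add_apply, smul_apply, ContinuousLinearMap.smulRight_apply, h3.fderiv, ContinuousLinearMap.comp_apply]
    rw [h0, split_E (fderiv ℂ (S.σ k') q') (fderiv ℂ Ψ q e), smul_add, smul_smul, ← hcc, smul_smul, smul_add, smul_smul, smul_smul, smul_smul, smul_smul, hFk',
      smul_smul, div_mul_cancel₀ _ c1', mul_comm _ (cf Y k'.1 w), mul_comm _ (cf Y k'.1 w)]
  have hs : ∀ a b : ℂ, a • (cf Y k'.1 w • fderiv ℂ (S.σ k') q' (1, 0)) + b • (cf Y k'.1 w • fderiv ℂ (S.σ k') q' (0, 1)) ∈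
      Pool.Agent.H17BP.Tan (coneE P) (F w) := by
    intro a b
    have h1 := cf_tan' hX Y hU' hD' hκ' (a, b)
    rw [← hq', split_E (fderiv ℂ (S.σ k') q') (a, b), smul_add, smul_comm _ a, smul_comm _ b] at h1
    exact h1
  rw [oc, oc, ← hq, ← hq', hv, hv, form_comb hW hM (cf_tan' hX Y hU' hD' hκ' _) (cf_tan' hX Y hU' hD' hκ' _) hs, jc,
    mul_comm (fderiv ℂ Ψ q (1, 0)).2]

/-! ## good points -/

/-- the conditions at a good point -/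
structure Gd (S : Web X θ l) (Wf : EN M → EN M → EN M → ℂ) (Y : NCLift X F) (k : S.ι) (w : ℂ) : Prop where
  mem : w ∈ S.Om Y k
  off : (S.lf Y k w).1 * (S.lf Y k w).2 ≠ 0
  der : deriv (S.lf Y k) w ≠ 0
  v_ne : S.v k (S.lf Y k w) ≠ 0
  wt_ne : wt Wf Y k.1 w ≠ 0

theorem thn_mem (Y : NCLift X F) {k : S.ι} (hc : BCrv θ l (X.ρ k.1) F (Y.U k.1) (Y.p k.1)) {w : ℂ} (hw : w ∈ S.Om Y k) :
    w ∈ Y.U k.1 ∧ S.lf Y k w ∈ S.D k ∧ S.κ k (S.lf Y k w) = Y.p k.1 w := by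
  have h1 : w ∈ Y.U k.1 := om_sub hc (S.c k) hw
  obtain ⟨h2, h3⟩ := lf_mem hc (S.c k) w hw
  refine ⟨h1, ⟨h2, ?_⟩, h3⟩
  show S.κ k (S.lf Y k w) ∈ X.B k.1
  rw [show S.κ k (S.lf Y k w) = Y.p k.1 w from h3]
  exact Y.mem _ _ h1

theorem pexp_log {q : ℂ × ℂ} (h0 : q.1 * q.2 ≠ 0) : pexp (Complex.log q.1, Complex.log q.2) = q :=
  Prod.ext (Complex.exp_log (left_ne_zero_of_mul h0)) (Complex.exp_log (right_ne_zero_of_mul h0))

/-- the function `Θ` does not depend on the chart -/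
theorem thc_eq (hX : Surface (coneE P)) (hm : 1 ≤ mK) (hW : IsForm (coneE P) mK jH Wf) (hF : Differentiable ℂ F) (hM : ∀ z, F z ∈ coneE P) (Y : NCLift X F)
    (hc : ∀ i, BCrv θ l (X.ρ i) F (Y.U i) (Y.p i)) {k k' : S.ι} {w : ℂ} (g : Gd S Wf Y k w) (g' : Gd S Wf Y k' w) :
    ThC S Wf mK Y k w = ThC S Wf mK Y k' w := by
  obtain ⟨hU, hD, hκ⟩ := thn_mem Y (hc k.1) g.mem
  obtain ⟨hU', hD', hκ'⟩ := thn_mem Y (hc k'.1) g'.mem
  have hO : IsOpen (S.Om Y k) := om_open (hc k.1) (S.c k)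
  have hO' : IsOpen (S.Om Y k') := om_open (hc k'.1) (S.c k')
  have hlf : AnalyticAt ℂ (S.lf Y k) w := lf_an (hc k.1) (S.c k) w g.mem
  have hlf' : AnalyticAt ℂ (S.lf Y k') w := lf_an (hc k'.1) (S.c k') w g'.mem
  have hσ : ∀ u ∈ S.Om Y k, u ∈ S.Om Y k' → ∃ a : ℂ, a ≠ 0 ∧ S.σ k (S.lf Y k u) = a • S.σ k' (S.lf Y k' u) := by
    intro u hu hu'
    obtain ⟨e1, -, e3⟩ := thn_mem Y (hc k.1) hu
    obtain ⟨e1', -, e3'⟩ := thn_mem Y (hc k'.1) hu'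
    obtain ⟨c1, c2⟩ := cf_spec Y e1
    obtain ⟨c1', c2'⟩ := cf_spec Y e1'
    refine ⟨(cf Y k.1 u)⁻¹ * cf Y k'.1 u, mul_ne_zero (inv_ne_zero c1) c1', ?_⟩
    rw [Web.σ, Web.σ, e3, e3', mul_smul, ← c2']
    conv_rhs => rw [c2]
    rw [inv_smul_smul₀ c1]
  obtain ⟨a, ha, hae⟩ := hσ w g.mem g'.mem
  obtain ⟨Ψ, b, hΨ, hΨ0, hb, hb0, he, hJ, hinj, huniq⟩ := exists_trans hX (sig_imm k hD g.off) (sig_imm k' hD' g'.off) ha hae
  have hs1 := lf_slope (hc k.1) (S.c k) w g.mem _ (pexp_log g.off)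
  have hs2 := lf_slope (hc k'.1) (S.c k') w g'.mem _ (pexp_log g'.off)
  obtain ⟨h, hh, hh0, hrel⟩ := fol_trans (S.c k) (S.c k') hD.1 hD'.1 g.off g'.off hΨ hΨ0 hinj hb hb0 he (pexp_log g.off) (pexp_log g'.off) (hs1.symm.trans hs2)
  have hp₁ : ∀ᶠ u in 𝓝 w, S.lf Y k' u = Ψ (S.lf Y k u) := by
    have h1 : Tendsto (fun u => (S.lf Y k u, S.lf Y k' u)) (𝓝 w) (𝓝 (S.lf Y k w, S.lf Y k' w)) :=
      hlf.continuousAt.prodMk hlf'.continuousAt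
    filter_upwards [h1.eventually huniq, hO.mem_nhds g.mem, hO'.mem_nhds g'.mem] with u e1 e2 e3
    exact e1 (hσ u e2 e3)
  have ho : ∀ᶠ u in 𝓝 w, oc S Wf Y k u = jc Ψ (S.lf Y k u) ^ mK * oc S Wf Y k' u := by
    filter_upwards [hp₁, hlf.continuousAt.eventually he.eventually_nhds, hlf.continuousAt.eventually hΨ.eventually_analyticAt,
      hlf.continuousAt.eventually hb.eventually_analyticAt, hO.mem_nhds g.mem, hO'.mem_nhds g'.mem] with u e1 e2 e3 e4 e5 e6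
    obtain ⟨f1, -, f3⟩ := thn_mem Y (hc k.1) e5
    obtain ⟨f1', f2', f3'⟩ := thn_mem Y (hc k'.1) e6
    exact oc_chg hX hW Y (hM u) f1 f3 f1' f2' f3' e3 e4 e2 e1.symm
  have hoc : ∀ {j : S.ι}, Gd S Wf Y j w → (oc S Wf Y j =ᶠ[𝓝 w] fun u => jc (S.κ j) (S.lf Y j u) ^ mK * wt Wf Y j.1 u) ∧
      AnalyticAt ℂ (fun u => jc (S.κ j) (S.lf Y j u)) w ∧ AnalyticAt ℂ (wt Wf Y j.1) w := by
    intro j gj
    obtain ⟨f1, -, -⟩ := thn_mem Y (hc j.1) gj.mem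
    refine ⟨?_, ?_, wt_an hX hm hW hF Y j.1 w f1⟩
    · filter_upwards [(om_open (hc j.1) (S.c j)).mem_nhds gj.mem] with u e1
      obtain ⟨f1, f2, f3⟩ := thn_mem Y (hc j.1) e1
      exact oc_eq hX hW Y (hM u) f1 f2 f3
    · exact AnalyticAt.fun_comp (g := jc (S.κ j)) (f := S.lf Y j) (jc_an (kap_an j _)) (lf_an (hc j.1) (S.c j) w gj.mem)
  have hfin : ∀ {j : S.ι}, Gd S Wf Y j w → ThC S Wf mK Y j w = deriv (ztv (S.v j) (S.lf Y j)) w / ztv (S.v j) (S.lf Y j) w +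
      dvg (S.v j) (S.lf Y j w) * ztv (S.v j) (S.lf Y j) w + 1 / mK * (deriv (oc S Wf Y j) w / oc S Wf Y j w) := by
    intro j gj
    obtain ⟨f1, f2, f3⟩ := hoc gj
    have h1 := logder_pow (m := mK) (by omega) f2.differentiableAt f3.differentiableAt (kap_jc j gj.off) gj.wt_ne
    rw [f1.deriv_eq, f1.self_of_nhds, ← h1, ThC]
    ring
  rw [hfin g, hfin g']
  have hoan : AnalyticAt ℂ (oc S Wf Y k') w := by
    obtain ⟨f1, f2, f3⟩ := hoc g'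
    exact ((f2.fun_pow mK).fun_mul f3).congr f1.symm
  have hone : oc S Wf Y k' w ≠ 0 := by
    rw [(hoc g').1.self_of_nhds]
    exact mul_ne_zero (pow_ne_zero _ (kap_jc k' g'.off)) g'.wt_ne
  refine Th_core (Ψ := Ψ) (h := h) (by omega) hΨ ((S.c k).v_an _ hD.1) ?_ hh hrel ho hoan hlf hp₁ ?_ g.v_ne g.der hJ hone hh0 ?_
  · rw [hΨ0]
    exact (S.c k').v_an _ hD'.1
  · filter_upwards [hO.mem_nhds g.mem] with u e1
    exact sub_eq_zero.2 (lf_tan (hc k.1) (S.c k) u e1)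
  · rw [hΨ0]
    exact g'.v_ne

theorem gd_ev (Y : NCLift X F) {k : S.ι} (hc : BCrv θ l (X.ρ k.1) F (Y.U k.1) (Y.p k.1)) (hne : WNe Wf Y) {z : ℂ} (hz : z ∈ S.Om Y k) :
    ∀ᶠ w in 𝓝[≠] z, Gd S Wf Y k w := by
  obtain ⟨hU, hD, -⟩ := thn_mem Y hc hz
  have hlf : AnalyticAt ℂ (S.lf Y k) z := lf_an hc (S.c k) z hz
  have hder : ∀ᶠ w in 𝓝[≠] z, (S.lf Y k w).1 * (S.lf Y k w).2 ≠ 0 ∧ deriv (S.lf Y k) w ≠ 0 := lf_ne hc (S.c k) z hz
  have hnc : ∀ᶠ w in 𝓝[≠] z, S.lf Y k w ≠ S.lf Y k z := by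
    rcases hlf.eventually_eq_or_eventually_ne analyticAt_const (g := fun _ => S.lf Y k z) with h | h
    · exfalso
      have h1 : ∀ᶠ w in 𝓝 z, deriv (S.lf Y k) w = 0 := by
        filter_upwards [h.eventually_nhds] with w hw
        have h2 : S.lf Y k =ᶠ[𝓝 w] fun _ => S.lf Y k z := hw
        rw [h2.deriv_eq, deriv_const]
      obtain ⟨w, h3, h4⟩ := (hder.and (eventually_nhdsWithin_of_eventually_nhds h1)).exists
      exact h3.2 h4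
    · exact h
  filter_upwards [hder, hnc, eventually_nhdsWithin_of_eventually_nhds ((om_open hc (S.c k)).mem_nhds hz), hne k.1 z hU,
    eventually_nhdsWithin_of_eventually_nhds (hlf.continuousAt.eventually ((S.c k).v_iso _ hD.1))] with w e1 e2 e3 e4 e5
  exact ⟨e3, e1.1, e1.2, e5 e2, e4⟩

/-- **The function `Θ`.** -/
theorem exists_theta (hX : Surface (coneE P)) (hm : 1 ≤ mK) (hW : IsForm (coneE P) mK jH Wf) (hF : WCrv θ RD F) (Y : NCLift X F) (hne : WNe Wf Y) :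
    ∃ Θ : ℂ → ℂ, IsTh S Wf mK Y Θ := by
  classical
  refine ⟨fun w => if h : ∃ k : S.ι, Gd S Wf Y k w then ThC S Wf mK Y h.choose w else 0, fun k z hz => ?_⟩
  filter_upwards [gd_ev Y (bcrv hF Y k.1) hne hz] with w hw
  have h : ∃ k : S.ι, Gd S Wf Y k w := ⟨k, hw⟩
  simp only [dif_pos h]
  exact thc_eq hX hm hW hF.diff hF.mem Y (fun i => bcrv hF Y i) h.choose_spec hw

end

end Pool.Agent.MQ3

end
end

section

/-!
# MQL ThNK: the function `Θ`, for a form on the open part `K` of the surface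
-/

set_option autoImplicit false

open Topology Filter Metric MvPolynomial

noncomputable section

namespace Pool.Agent.MQL

open Pool.Agent.H36.BP (EN)
open Pool.Agent.H17BP (Surface IsForm)
open Pool.Agent.H17EF (projVar coneE)
open Pool.Agent.H36.BPL (OpenPart)
open Pool.Agent.MQ (dvg ztv)
open Pool.Agent.MQ3

/-! ## tangent vectors of the open part -/

theorem tan_openPart {V : Type} [NormedAddCommGroup V] [NormedSpace ℂ V] {X K : Set V} (hK : OpenPart X K) {x u : V} (hx : x ∈ K)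
    (hu : u ∈ Pool.Agent.H17BP.Tan X x) : u ∈ Pool.Agent.H17BP.Tan K x := by
  obtain ⟨γ, h1, h2, h3, h4⟩ := hu
  refine ⟨γ, h1, ?_, h3, h4⟩
  have h5 : Tendsto γ (𝓝 0) (𝓝 x) := by
    have := h1.continuousAt.tendsto
    rwa [h3] at this
  filter_upwards [h2, h5.eventually (hK.rel x hx)] with z e1 e2
  exact e2 e1

section

variable {M : ℕ} {P : Ideal (MvPolynomial (Fin (M + 1)) ℂ)} {RD : MvPolynomial (Fin (M + 1)) ℂ} {m : ℕ} {X : NCModel P RD} {θ : WDiff (coneE P) m}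
  {l : LF M} {S : Web X θ l} {F : ℂ → EN M} {K : Set (EN M)} {Wf : EN M → EN M → EN M → ℂ} {mK jH : ℕ}

/-- the weight in the chart and the weight in the box -/
theorem oc_eqK (hX : Surface (coneE P)) (hK : OpenPart (coneE P) K) (hW : IsForm K mK jH Wf) (Y : NCLift X F) {k : S.ι} {w : ℂ} (hM : F w ∈ K)
    (hU : w ∈ Y.U k.1) (hD : S.lf Y k w ∈ S.D k) (hκ : S.κ k (S.lf Y k w) = Y.p k.1 w) :
    oc S Wf Y k w = jc (S.κ k) (S.lf Y k w) ^ mK * wt Wf Y k.1 w := by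
  have hv : ∀ e, cf Y k.1 w • fderiv ℂ (S.σ k) (S.lf Y k w) e = (fderiv ℂ (S.κ k) (S.lf Y k w) e).1 • (cf Y k.1 w • fderiv ℂ (X.ρ k.1) (Y.p k.1 w) (1, 0)) +
      (fderiv ℂ (S.κ k) (S.lf Y k w) e).2 • (cf Y k.1 w • fderiv ℂ (X.ρ k.1) (Y.p k.1 w) (0, 1)) := by
    intro e
    rw [sig_fderiv k hD, hκ, split_E (fderiv ℂ (X.ρ k.1) (Y.p k.1 w))]
    rw [smul_add, smul_comm (cf Y k.1 w), smul_comm (cf Y k.1 w)]
  rw [oc, hv, hv, hW.det _ hM _ (tan_openPart hK hM (cf_tan hX Y hU _)) _ (tan_openPart hK hM (cf_tan hX Y hU _)), jc, wt,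
    mul_comm (fderiv ℂ (S.κ k) (S.lf Y k w) (1, 0)).2]

/-- the weights in two charts -/
theorem oc_chgK (hX : Surface (coneE P)) (hK : OpenPart (coneE P) K) (hW : IsForm K mK jH Wf) (Y : NCLift X F) {k k' : S.ι} {w : ℂ} (hM : F w ∈ K)
    (hU : w ∈ Y.U k.1) (hκ : S.κ k (S.lf Y k w) = Y.p k.1 w)
    (hU' : w ∈ Y.U k'.1) (hD' : S.lf Y k' w ∈ S.D k') (hκ' : S.κ k' (S.lf Y k' w) = Y.p k'.1 w)
    {Ψ : ℂ × ℂ → ℂ × ℂ} {b : ℂ × ℂ → ℂ} (hΨ : AnalyticAt ℂ Ψ (S.lf Y k w)) (hb : AnalyticAt ℂ b (S.lf Y k w))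
    (he : ∀ᶠ x in 𝓝 (S.lf Y k w), S.σ k x = b x • S.σ k' (Ψ x)) (h0 : Ψ (S.lf Y k w) = S.lf Y k' w) :
    oc S Wf Y k w = jc Ψ (S.lf Y k w) ^ mK * oc S Wf Y k' w := by
  set q := S.lf Y k w with hq
  set q' := S.lf Y k' w with hq'
  obtain ⟨c1, c2⟩ := cf_spec Y hU
  obtain ⟨c1', c2'⟩ := cf_spec Y hU'
  have hσ' : AnalyticAt ℂ (S.σ k') (Ψ q) := by rw [h0]; exact sig_an k' hD'
  have hσΨ : AnalyticAt ℂ (fun x => S.σ k' (Ψ x)) q := AnalyticAt.fun_comp (g := S.σ k') (f := Ψ) hσ' hΨ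
  have hFk : F w = cf Y k.1 w • S.σ k q := by rw [Web.σ, hκ]; exact c2
  have hFk' : F w = cf Y k'.1 w • S.σ k' q' := by rw [Web.σ, hκ']; exact c2'
  have hne : S.σ k' q' ≠ 0 := by rw [Web.σ]; exact wtn_rho_ne hX hD'.2
  have hcc : cf Y k'.1 w = cf Y k.1 w * b q := by
    have h1 := he.self_of_nhds
    rw [h1, h0, smul_smul, hFk'] at hFk
    exact smul_left_injective ℂ hne hFk
  have hv : ∀ e, cf Y k.1 w • fderiv ℂ (S.σ k) q e = ((fderiv ℂ Ψ q e).1 • (cf Y k'.1 w • fderiv ℂ (S.σ k') q' (1, 0)) +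
      (fderiv ℂ Ψ q e).2 • (cf Y k'.1 w • fderiv ℂ (S.σ k') q' (0, 1))) + (cf Y k.1 w * fderiv ℂ b q e / cf Y k'.1 w) • F w := by
    intro e
    have h1 : HasFDerivAt (fun x => b x • S.σ k' (Ψ x)) _ q := hb.differentiableAt.hasFDerivAt.smul hσΨ.differentiableAt.hasFDerivAt
    have h2 : fderiv ℂ (S.σ k) q = fderiv ℂ (fun x => b x • S.σ k' (Ψ x)) q := Filter.EventuallyEq.fderiv_eq he
    have h3 : HasFDerivAt (fun x => S.σ k' (Ψ x)) ((fderiv ℂ (S.σ k') (Ψ q)).comp (fderiv ℂ Ψ q)) q :=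
      hσ'.differentiableAt.hasFDerivAt.comp q hΨ.differentiableAt.hasFDerivAt
    rw [h2, h1.fderiv]
    simp only [add_apply, smul_apply, ContinuousLinearMap.smulRight_apply, h3.fderiv, ContinuousLinearMap.comp_apply]
    rw [h0, split_E (fderiv ℂ (S.σ k') q') (fderiv ℂ Ψ q e), smul_add, smul_smul, ← hcc, smul_smul, smul_add, smul_smul, smul_smul, smul_smul, smul_smul, hFk',
      smul_smul, div_mul_cancel₀ _ c1', mul_comm _ (cf Y k'.1 w), mul_comm _ (cf Y k'.1 w)]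
  have hs : ∀ a b : ℂ, a • (cf Y k'.1 w • fderiv ℂ (S.σ k') q' (1, 0)) + b • (cf Y k'.1 w • fderiv ℂ (S.σ k') q' (0, 1)) ∈
      Pool.Agent.H17BP.Tan K (F w) := by
    intro a b
    have h1 := cf_tan' hX Y hU' hD' hκ' (a, b)
    rw [← hq', split_E (fderiv ℂ (S.σ k') q') (a, b), smul_add, smul_comm _ a, smul_comm _ b] at h1
    exact tan_openPart hK hM h1
  rw [oc, oc, ← hq, ← hq', hv, hv, form_comb hW hM (tan_openPart hK hM (cf_tan' hX Y hU' hD' hκ' _)) (tan_openPart hK hM (cf_tan' hX Y hU' hD' hκ' _)) hs, jc,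
    mul_comm (fderiv ℂ Ψ q (1, 0)).2]

/-- the function `Θ` does not depend on the chart -/
theorem thc_eqK (hX : Surface (coneE P)) (hm : 1 ≤ mK) (hK : OpenPart (coneE P) K) (hW : IsForm K mK jH Wf) (hF : Differentiable ℂ F)
    (hM : ∀ z, F z ∈ K) (Y : NCLift X F) (hc : ∀ i, BCrv θ l (X.ρ i) F (Y.U i) (Y.p i)) {k k' : S.ι} {w : ℂ} (g : Gd S Wf Y k w) (g' : Gd S Wf Y k' w) :
    ThC S Wf mK Y k w = ThC S Wf mK Y k' w := by
  obtain ⟨hU, hD, hκ⟩ := thn_mem Y (hc k.1) g.mem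
  obtain ⟨hU', hD', hκ'⟩ := thn_mem Y (hc k'.1) g'.mem
  have hO : IsOpen (S.Om Y k) := om_open (hc k.1) (S.c k)
  have hO' : IsOpen (S.Om Y k') := om_open (hc k'.1) (S.c k')
  have hlf : AnalyticAt ℂ (S.lf Y k) w := lf_an (hc k.1) (S.c k) w g.mem
  have hlf' : AnalyticAt ℂ (S.lf Y k') w := lf_an (hc k'.1) (S.c k') w g'.mem
  have hσ : ∀ u ∈ S.Om Y k, u ∈ S.Om Y k' → ∃ a : ℂ, a ≠ 0 ∧ S.σ k (S.lf Y k u) = a • S.σ k' (S.lf Y k' u) := by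
    intro u hu hu'
    obtain ⟨e1, -, e3⟩ := thn_mem Y (hc k.1) hu
    obtain ⟨e1', -, e3'⟩ := thn_mem Y (hc k'.1) hu'
    obtain ⟨c1, c2⟩ := cf_spec Y e1
    obtain ⟨c1', c2'⟩ := cf_spec Y e1'
    refine ⟨(cf Y k.1 u)⁻¹ * cf Y k'.1 u, mul_ne_zero (inv_ne_zero c1) c1', ?_⟩
    rw [Web.σ, Web.σ, e3, e3', mul_smul, ← c2']
    conv_rhs => rw [c2]
    rw [inv_smul_smul₀ c1]
  obtain ⟨a, ha, hae⟩ := hσ w g.mem g'.mem
  obtain ⟨Ψ, b, hΨ, hΨ0, hb, hb0, he, hJ, hinj, huniq⟩ := exists_trans hX (sig_imm k hD g.off) (sig_imm k' hD' g'.off) ha hae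
  have hs1 := lf_slope (hc k.1) (S.c k) w g.mem _ (pexp_log g.off)
  have hs2 := lf_slope (hc k'.1) (S.c k') w g'.mem _ (pexp_log g'.off)
  obtain ⟨h, hh, hh0, hrel⟩ := fol_trans (S.c k) (S.c k') hD.1 hD'.1 g.off g'.off hΨ hΨ0 hinj hb hb0 he (pexp_log g.off) (pexp_log g'.off) (hs1.symm.trans hs2)
  have hp₁ : ∀ᶠ u in 𝓝 w, S.lf Y k' u = Ψ (S.lf Y k u) := by
    have h1 : Tendsto (fun u => (S.lf Y k u, S.lf Y k' u)) (𝓝 w) (𝓝 (S.lf Y k w, S.lf Y k' w)) :=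
      hlf.continuousAt.prodMk hlf'.continuousAt
    filter_upwards [h1.eventually huniq, hO.mem_nhds g.mem, hO'.mem_nhds g'.mem] with u e1 e2 e3
    exact e1 (hσ u e2 e3)
  have ho : ∀ᶠ u in 𝓝 w, oc S Wf Y k u = jc Ψ (S.lf Y k u) ^ mK * oc S Wf Y k' u := by
    filter_upwards [hp₁, hlf.continuousAt.eventually he.eventually_nhds, hlf.continuousAt.eventually hΨ.eventually_analyticAt,
      hlf.continuousAt.eventually hb.eventually_analyticAt, hO.mem_nhds g.mem, hO'.mem_nhds g'.mem] with u e1 e2 e3 e4 e5 e6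
    obtain ⟨f1, -, f3⟩ := thn_mem Y (hc k.1) e5
    obtain ⟨f1', f2', f3'⟩ := thn_mem Y (hc k'.1) e6
    exact oc_chgK hX hK hW Y (hM u) f1 f3 f1' f2' f3' e3 e4 e2 e1.symm
  have hoc : ∀ {j : S.ι}, Gd S Wf Y j w → (oc S Wf Y j =ᶠ[𝓝 w] fun u => jc (S.κ j) (S.lf Y j u) ^ mK * wt Wf Y j.1 u) ∧
      AnalyticAt ℂ (fun u => jc (S.κ j) (S.lf Y j u)) w ∧ AnalyticAt ℂ (wt Wf Y j.1) w := by
    intro j gj
    obtain ⟨f1, -, -⟩ := thn_mem Y (hc j.1) gj.mem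
    refine ⟨?_, ?_, wt_anK hX hK hW hF hM Y j.1 w f1⟩
    · filter_upwards [(om_open (hc j.1) (S.c j)).mem_nhds gj.mem] with u e1
      obtain ⟨f1, f2, f3⟩ := thn_mem Y (hc j.1) e1
      exact oc_eqK hX hK hW Y (hM u) f1 f2 f3
    · exact AnalyticAt.fun_comp (g := jc (S.κ j)) (f := S.lf Y j) (jc_an (kap_an j _)) (lf_an (hc j.1) (S.c j) w gj.mem)
  have hfin : ∀ {j : S.ι}, Gd S Wf Y j w → ThC S Wf mK Y j w = deriv (ztv (S.v j) (S.lf Y j)) w / ztv (S.v j) (S.lf Y j) w +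
      dvg (S.v j) (S.lf Y j w) * ztv (S.v j) (S.lf Y j) w + 1 / mK * (deriv (oc S Wf Y j) w / oc S Wf Y j w) := by
    intro j gj
    obtain ⟨f1, f2, f3⟩ := hoc gj
    have h1 := logder_pow (m := mK) (by omega) f2.differentiableAt f3.differentiableAt (kap_jc j gj.off) gj.wt_ne
    rw [f1.deriv_eq, f1.self_of_nhds, ← h1, ThC]
    ring
  rw [hfin g, hfin g']
  have hoan : AnalyticAt ℂ (oc S Wf Y k') w := by
    obtain ⟨f1, f2, f3⟩ := hoc g'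
    exact ((f2.fun_pow mK).fun_mul f3).congr f1.symm
  have hone : oc S Wf Y k' w ≠ 0 := by
    rw [(hoc g').1.self_of_nhds]
    exact mul_ne_zero (pow_ne_zero _ (kap_jc k' g'.off)) g'.wt_ne
  refine Th_core (Ψ := Ψ) (h := h) (by omega) hΨ ((S.c k).v_an _ hD.1) ?_ hh hrel ho hoan hlf hp₁ ?_ g.v_ne g.der hJ hone hh0 ?_
  · rw [hΨ0]
    exact (S.c k').v_an _ hD'.1
  · filter_upwards [hO.mem_nhds g.mem] with u e1
    exact sub_eq_zero.2 (lf_tan (hc k.1) (S.c k) u e1)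
  · rw [hΨ0]
    exact g'.v_ne

/-- **The function `Θ`.** -/
theorem exists_thetaK (hX : Surface (coneE P)) (hm : 1 ≤ mK) (hK : OpenPart (coneE P) K) (hW : IsForm K mK jH Wf) (hF : WCrv θ RD F)
    (hFK : ∀ z, F z ∈ K) (Y : NCLift X F) (hne : WNe Wf Y) : ∃ Θ : ℂ → ℂ, IsTh S Wf mK Y Θ := by
  classical
  refine ⟨fun w => if h : ∃ k : S.ι, Gd S Wf Y k w then ThC S Wf mK Y h.choose w else 0, fun k z hz => ?_⟩
  filter_upwards [gd_ev Y (bcrv hF Y k.1) hne hz] with w hw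
  have h : ∃ k : S.ι, Gd S Wf Y k w := ⟨k, hw⟩
  simp only [dif_pos h]
  exact thc_eqK hX hm hK hW hF.diff hFK Y (fun i => bcrv hF Y i) h.choose_spec hw

end

end Pool.Agent.MQL

end
end
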