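import Pool.Agent.H43.TL2.M45
import Pool.Agent.H43.TL2.M46
import Pool.Agent.H43.TL2.M65
import Pool.Agent.H43.TL2.MQ3.EnU

/-! The parts of this file: MQ3.EnK, MQ3.EnT, MQ3.EnU_1, MQ3.EnV. -/

section

/-!
# MQ3 EnK: the energy estimates on compact sets
-/

set_option autoImplicit false

open MeasureTheory Topology Filter Metric Laplacian

noncomputable section

namespace Pool.Agent.MQ3

open Pool.Agent.MQ
open Pool.Agent.H30M (tau tau_nonneg contDiff_tau hcs_tau)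

variable {B : Set (ℂ × ℂ)} {U : Set ℂ} {p : ℂ → ℂ × ℂ} {e : ℝ → ℝ}

/-- the coordinates of a polydisc of radius `s` around `q` -/
def cx (p : ℂ → ℂ × ℂ) (q : ℂ × ℂ) (s : ℝ) (z : ℂ) : ℂ := ((p z).1 - q.1) / s

def cy (p : ℂ → ℂ × ℂ) (q : ℂ × ℂ) (s : ℝ) (z : ℂ) : ℂ := ((p z).2 - q.2) / s

theorem Kr_eq {q : ℂ × ℂ} {s : ℝ} (hs : 0 < s) (r : ℝ) : Kr U (cx p q s) (cy p q s) r = {z | z ∈ U ∧ p z ∈ closedBall q (r * s)} := by
  ext z
  have h1 : ‖cx p q s z‖ = ‖(p z).1 - q.1‖ / s := by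
    unfold cx
    rw [norm_div, Complex.norm_real, Real.norm_of_nonneg hs.le]
  have h2 : ‖cy p q s z‖ = ‖(p z).2 - q.2‖ / s := by
    unfold cy
    rw [norm_div, Complex.norm_real, Real.norm_of_nonneg hs.le]
  simp only [Kr, Set.mem_ofPred_eq, h1, h2, div_le_iff₀ hs]
  rw [mem_closedBall, dist_eq_norm, Prod.norm_def, Prod.fst_sub, Prod.snd_sub, sup_le_iff]

theorem norm_deriv_pair {z : ℂ} (hp : AnalyticAt ℂ p z) (q : ℂ × ℂ) {s : ℝ} (hs : 0 < s) :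
    ‖deriv (cx p q s) z‖ ^ 2 + ‖deriv (cy p q s) z‖ ^ 2 ≤ 2 / s ^ 2 * ‖deriv p z‖ ^ 2 := by
  have h1 : HasDerivAt p (deriv p z) z := hp.differentiableAt.hasDerivAt
  have hx : HasDerivAt (fun w => (p w).1) (deriv p z).1 z := h1.fst
  have hy : HasDerivAt (fun w => (p w).2) (deriv p z).2 z := h1.snd
  have hx' : deriv (cx p q s) z = (deriv p z).1 / s := ((hx.sub_const q.1).div_const (s : ℂ)).deriv
  have hy' : deriv (cy p q s) z = (deriv p z).2 / s := ((hy.sub_const q.2).div_const (s : ℂ)).deriv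
  rw [hx', hy', norm_div, norm_div, Complex.norm_real, Real.norm_of_nonneg hs.le, div_pow, div_pow]
  have h2 : ‖(deriv p z).1‖ ^ 2 ≤ ‖deriv p z‖ ^ 2 := pow_le_pow_left₀ (norm_nonneg _) (norm_fst_le _) 2
  have h3 : ‖(deriv p z).2‖ ^ 2 ≤ ‖deriv p z‖ ^ 2 := pow_le_pow_left₀ (norm_nonneg _) (norm_snd_le _) 2
  have hs2 : 0 < s ^ 2 := by positivity
  rw [← add_div, div_mul_eq_mul_div, div_le_div_iff_of_pos_right hs2]
  linarith

/-- the density of the second energy -/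
def td (x y : ℂ → ℂ) (a b : ℝ) (z : ℂ) : ℝ :=
  ‖x z‖ ^ (2 * a) * ‖y z‖ ^ (2 * b) / (‖x z‖ ^ (2 * a) + ‖y z‖ ^ (2 * b)) ^ 2 * ‖(a : ℂ) * (deriv x z / x z) - b * (deriv y z / y z)‖ ^ 2

theorem td_nonneg (x y : ℂ → ℂ) (a b : ℝ) (z : ℂ) : 0 ≤ td x y a b z := by
  unfold td
  positivity

theorem td_meas {x y : ℂ → ℂ} (hU : IsOpen U) (hx : DifferentiableOn ℂ x U) (hy : DifferentiableOn ℂ y U) {T : Set ℂ} (hT : MeasurableSet T) (hTU : T ⊆ U)
    (h0 : ∀ z ∈ T, x z ≠ 0 ∧ y z ≠ 0) (a b : ℝ) : AEStronglyMeasurable (T.indicator (td x y a b)) := by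
  refine meas_ind hT ?_
  have cx := hx.continuousOn.mono hTU
  have cy := hy.continuousOn.mono hTU
  have dx := (hx.deriv hU).continuousOn.mono hTU
  have dy := (hy.deriv hU).continuousOn.mono hTU
  have c1 := cx.norm.rpow_const (p := 2 * a) fun z hz => Or.inl (norm_ne_zero_iff.2 (h0 z hz).1)
  have c2 := cy.norm.rpow_const (p := 2 * b) fun z hz => Or.inl (norm_ne_zero_iff.2 (h0 z hz).2)
  refine ((c1.mul c2).div ((c1.add c2).pow 2) fun z hz => ?_).mul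
    (((continuousOn_const.mul (dx.div cx fun z hz => (h0 z hz).1)).sub (continuousOn_const.mul (dy.div cy fun z hz => (h0 z hz).2))).norm.pow 2)
  exact pow_ne_zero _ (add_pos (Real.rpow_pos_of_pos (norm_pos_iff.2 (h0 z hz).1) (2 * a)) (Real.rpow_pos_of_pos (norm_pos_iff.2 (h0 z hz).2) (2 * b))).ne'

/-- away from the origin the second density is bounded by the first ones -/
theorem td_le {x y : ℂ → ℂ} {a b c : ℝ} (ha : 0 < a) (ha1 : a ≤ 1) (hb : 0 < b) (hb1 : b ≤ 1) (hc : 0 < c) (hc1 : c ≤ 1) {z : ℂ} (hx : x z ≠ 0) (hy : y z ≠ 0)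
    (hx1 : ‖x z‖ ≤ 1) (hy1 : ‖y z‖ ≤ 1) (hxy : c ≤ ‖x z‖ ∨ c ≤ ‖y z‖) :
    td x y a b z ≤ 2 / c ^ 4 * (‖x z‖ ^ (2 * a - 2) * ‖deriv x z‖ ^ 2 + ‖y z‖ ^ (2 * b - 2) * ‖deriv y z‖ ^ 2) := by
  have hx0 := norm_pos_iff.2 hx
  have hy0 := norm_pos_iff.2 hy
  have hA0 : 0 < ‖x z‖ ^ (2 * a) := Real.rpow_pos_of_pos hx0 _
  have hB0 : 0 < ‖y z‖ ^ (2 * b) := Real.rpow_pos_of_pos hy0 _
  have hA1 : ‖x z‖ ^ (2 * a) ≤ 1 := Real.rpow_le_one hx0.le hx1 (by positivity)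
  have hB1 : ‖y z‖ ^ (2 * b) ≤ 1 := Real.rpow_le_one hy0.le hy1 (by positivity)
  have hAx : ‖x z‖ ^ (2 * a - 2) = ‖x z‖ ^ (2 * a) / ‖x z‖ ^ 2 := by
    rw [Real.rpow_sub hx0]
    norm_num
  have hBy : ‖y z‖ ^ (2 * b - 2) = ‖y z‖ ^ (2 * b) / ‖y z‖ ^ 2 := by
    rw [Real.rpow_sub hy0]
    norm_num
  have hS : c ^ 2 ≤ ‖x z‖ ^ (2 * a) + ‖y z‖ ^ (2 * b) := by
    have key : ∀ (t s : ℝ), 0 < s → s ≤ 1 → c ≤ t → t ≤ 1 → c ^ 2 ≤ t ^ (2 * s) := by
      intro t s hs hs1 hct ht1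
      calc c ^ 2 = c ^ (2 : ℝ) := (Real.rpow_natCast c 2).symm
        _ ≤ c ^ (2 * s) := Real.rpow_le_rpow_of_exponent_ge hc hc1 (by linarith)
        _ ≤ t ^ (2 * s) := Real.rpow_le_rpow hc.le hct (by positivity)
    rcases hxy with h | h
    · have := key _ a ha ha1 h hx1
      linarith
    · have := key _ b hb hb1 h hy1
      linarith
  have hn : ‖(a : ℂ) * (deriv x z / x z) - b * (deriv y z / y z)‖ ^ 2 ≤ 2 * (‖deriv x z‖ ^ 2 / ‖x z‖ ^ 2) + 2 * (‖deriv y z‖ ^ 2 / ‖y z‖ ^ 2) := by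
    have h1 : ‖(a : ℂ) * (deriv x z / x z) - b * (deriv y z / y z)‖ ≤ ‖deriv x z‖ / ‖x z‖ + ‖deriv y z‖ / ‖y z‖ := by
      refine (norm_sub_le _ _).trans (add_le_add ?_ ?_)
      · rw [norm_mul, norm_div, Complex.norm_real, Real.norm_of_nonneg ha.le]
        exact mul_le_of_le_one_left (by positivity) ha1
      · rw [norm_mul, norm_div, Complex.norm_real, Real.norm_of_nonneg hb.le]
        exact mul_le_of_le_one_left (by positivity) hb1
    have h2 := pow_le_pow_left₀ (norm_nonneg _) h1 2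
    rw [← div_pow, ← div_pow]
    nlinarith [sq_nonneg (‖deriv x z‖ / ‖x z‖ - ‖deriv y z‖ / ‖y z‖)]
  unfold td
  set A := ‖x z‖ ^ (2 * a) with hA
  set B' := ‖y z‖ ^ (2 * b) with hB
  have h3 : A * B' / (A + B') ^ 2 ≤ A * B' / c ^ 4 := by
    refine div_le_div_of_nonneg_left (by positivity) (by positivity) ?_
    have : (c ^ 2) ^ 2 ≤ (A + B') ^ 2 := pow_le_pow_left₀ (by positivity) hS 2
    calc c ^ 4 = (c ^ 2) ^ 2 := by ring
      _ ≤ _ := this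
  have hX : 0 ≤ ‖deriv x z‖ ^ 2 / ‖x z‖ ^ 2 := by positivity
  have hY : 0 ≤ ‖deriv y z‖ ^ 2 / ‖y z‖ ^ 2 := by positivity
  calc A * B' / (A + B') ^ 2 * ‖(a : ℂ) * (deriv x z / x z) - b * (deriv y z / y z)‖ ^ 2 ≤
      A * B' / c ^ 4 * (2 * (‖deriv x z‖ ^ 2 / ‖x z‖ ^ 2) + 2 * (‖deriv y z‖ ^ 2 / ‖y z‖ ^ 2)) := mul_le_mul h3 hn (sq_nonneg _) (by positivity)
    _ = 2 / c ^ 4 * (B' * (A * (‖deriv x z‖ ^ 2 / ‖x z‖ ^ 2)) + A * (B' * (‖deriv y z‖ ^ 2 / ‖y z‖ ^ 2))) := by ring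
    _ ≤ 2 / c ^ 4 * (1 * (A * (‖deriv x z‖ ^ 2 / ‖x z‖ ^ 2)) + 1 * (B' * (‖deriv y z‖ ^ 2 / ‖y z‖ ^ 2))) := by gcongr
    _ = _ := by
      rw [hAx, hBy]
      ring

/-- scaling -/
theorem td_scale {x y : ℂ → ℂ} {a b s : ℝ} (ha : 0 < a) (ha1 : a ≤ 1) (hb : 0 < b) (hb1 : b ≤ 1) (hs : 0 < s) (hs1 : s ≤ 1) {z : ℂ} (hx : x z ≠ 0) (hy : y z ≠ 0)
    {X Y : ℂ → ℂ} (hX : ∀ w, X w = x w / s) (hY : ∀ w, Y w = y w / s) : td x y a b z ≤ 1 / s ^ 4 * td X Y a b z := by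
  have hX' : X = fun w => x w / s := funext hX
  have hY' : Y = fun w => y w / s := funext hY
  have hsc : (s : ℂ) ≠ 0 := Complex.ofReal_ne_zero.2 hs.ne'
  have dX : deriv X z / X z = deriv x z / x z := by
    rw [hX', deriv_div_const]
    field_simp
  have dY : deriv Y z / Y z = deriv y z / y z := by
    rw [hY', deriv_div_const]
    field_simp
  have hx0 := norm_pos_iff.2 hx
  have hy0 := norm_pos_iff.2 hy
  have nX : ‖X z‖ = ‖x z‖ / s := by rw [hX, norm_div, Complex.norm_real, Real.norm_of_nonneg hs.le]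
  have nY : ‖Y z‖ = ‖y z‖ / s := by rw [hY, norm_div, Complex.norm_real, Real.norm_of_nonneg hs.le]
  unfold td
  rw [dX, dY, nX, nY, Real.div_rpow hx0.le hs.le, Real.div_rpow hy0.le hs.le]
  have hA0 : 0 < ‖x z‖ ^ (2 * a) := Real.rpow_pos_of_pos hx0 _
  have hB0 : 0 < ‖y z‖ ^ (2 * b) := Real.rpow_pos_of_pos hy0 _
  have key : ∀ t : ℝ, 0 < t → t ≤ 1 → 0 < s ^ (2 * t) ∧ s ^ 2 ≤ s ^ (2 * t) ∧ s ^ (2 * t) ≤ 1 := by
    intro t ht ht1
    refine ⟨Real.rpow_pos_of_pos hs _, ?_, Real.rpow_le_one hs.le hs1 (by positivity)⟩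
    calc s ^ 2 = s ^ (2 : ℝ) := (Real.rpow_natCast s 2).symm
      _ ≤ s ^ (2 * t) := Real.rpow_le_rpow_of_exponent_ge hs hs1 (by linarith)
  obtain ⟨p0, p1, p2⟩ := key a ha ha1
  obtain ⟨q0, q1, q2⟩ := key b hb hb1
  set A := ‖x z‖ ^ (2 * a) with hA
  set B' := ‖y z‖ ^ (2 * b) with hB
  set P := s ^ (2 * a) with hP
  set Q := s ^ (2 * b) with hQ
  rw [← mul_assoc]
  refine mul_le_mul_of_nonneg_right ?_ (sq_nonneg _)
  have h1 : A * B' / (A + B') ^ 2 ≤ A / P * (B' / Q) / (A + B') ^ 2 := by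
    refine div_le_div_of_nonneg_right ?_ (by positivity)
    exact mul_le_mul (le_div_self hA0.le p0 p2) (le_div_self hB0.le q0 q2) hB0.le (by positivity)
  have h2 : s ^ 2 * (A / P + B' / Q) ≤ A + B' := by
    have h3 : s ^ 2 * (A / P) ≤ A := by
      rw [mul_div_assoc', div_le_iff₀ p0]
      nlinarith
    have h4 : s ^ 2 * (B' / Q) ≤ B' := by
      rw [mul_div_assoc', div_le_iff₀ q0]
      nlinarith
    linarith
  have h5 : A / P * (B' / Q) / (A + B') ^ 2 ≤ A / P * (B' / Q) / (s ^ 2 * (A / P + B' / Q)) ^ 2 := by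
    refine div_le_div_of_nonneg_left (by positivity) (by positivity) ?_
    exact pow_le_pow_left₀ (by positivity) h2 2
  refine h1.trans (h5.trans (le_of_eq ?_))
  field_simp

end Pool.Agent.MQ3

end
end

section

/-!
# MQ3 EnT: the energy of the coordinate of an exceptional curve
-/

set_option autoImplicit false

open MeasureTheory Topology Filter Metric Laplacian

noncomputable section

namespace Pool.Agent.MQ3

open Pool.Agent.MQ
open Pool.Agent.H30M (tau rhoR avg rho gg lap_comp lap_mul lap_add lap_congr gg_congr gg_sq_le gg_self_nonneg gg_comm gg_comp green_tau tau_nonneg contDiff_tau hcs_tau rhoR_nonneg continuous_rhoR hcs_rhoR int_rhoR abs_gg_le LogSing rhoR_eq_zero)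

variable {U : Set ℂ} {x y : ℂ → ℂ} {l : ℂ → ℝ}

/-- the potential -/
def ps (x y : ℂ → ℂ) (ε p q : ℝ) (z : ℂ) : ℝ := Real.log (pw x ε p z + pw y ε q z)

/-- the logarithmic derivative -/
def wv (x y : ℂ → ℂ) (ε p q : ℝ) (z : ℂ) : ℂ :=
  p * (x z * (starRingEnd ℂ) (deriv x z)) / ((‖x z‖ ^ 2 + ε : ℝ) : ℂ) - q * (y z * (starRingEnd ℂ) (deriv y z)) / ((‖y z‖ ^ 2 + ε : ℝ) : ℂ)

/-- the energy density -/
def tn (x y : ℂ → ℂ) (ε p q : ℝ) (z : ℂ) : ℝ := pw x ε p z * pw y ε q z / (pw x ε p z + pw y ε q z) ^ 2 * ‖wv x y ε p q z‖ ^ 2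

theorem tn_nonneg {ε p q : ℝ} (hε : 0 < ε) (z : ℂ) : 0 ≤ tn x y ε p q z := by
  have h1 := pw_pos (x := x) (a := p) hε z
  have h2 := pw_pos (x := y) (a := q) hε z
  unfold tn
  positivity

theorem pw_gr {ε p : ℝ} (hε : 0 < ε) {z : ℂ} (hx : AnalyticAt ℂ x z) :
    gr (pw x ε p) z = (pw x ε p z : ℂ) * (2 * (p * (x z * (starRingEnd ℂ) (deriv x z)) / ((‖x z‖ ^ 2 + ε : ℝ) : ℂ))) := by
  have hp : 0 < ‖x z‖ ^ 2 + ε := by positivity
  have ce : DifferentiableAt ℝ (fun s : ℝ => (s + ε) ^ p) (‖x z‖ ^ 2) := (rp_cd hp).differentiableAt (by norm_num)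
  have cu : DifferentiableAt ℝ (fun w => ‖x w‖ ^ 2) z := (cd_sq hx).differentiableAt (by norm_num)
  have h1 : gr (pw x ε p) z = ((p * (‖x z‖ ^ 2 + ε) ^ (p - 1) : ℝ) : ℂ) * gr (fun w => ‖x w‖ ^ 2) z := by
    have e1 : ∀ v : ℂ, fderiv ℝ (pw x ε p) z v = p * (‖x z‖ ^ 2 + ε) ^ (p - 1) * fderiv ℝ (fun w => ‖x w‖ ^ 2) z v := by
      intro v
      have := Pool.Agent.H30M.fderiv_comp_real (φ := fun s : ℝ => (s + ε) ^ p) (u := fun w => ‖x w‖ ^ 2) (z := z) ce cu v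
      rw [rp_deriv hp] at this
      exact this
    unfold gr
    rw [e1, e1]
    apply Complex.ext
    · rw [Complex.re_ofReal_mul]
    · rw [Complex.im_ofReal_mul]
  rw [h1, gr_sqnorm hx.differentiableAt.hasDerivAt, RCLike.inner_apply, map_mul, Complex.conj_conj]
  have e2 : pw x ε p z = (‖x z‖ ^ 2 + ε) ^ (p - 1) * (‖x z‖ ^ 2 + ε) := by
    unfold pw
    rw [← Real.rpow_add_one hp.ne']
    congr 1
    ring
  rw [e2]
  have hne : ((‖x z‖ ^ 2 + ε : ℝ) : ℂ) ≠ 0 := Complex.ofReal_ne_zero.2 hp.ne'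
  rw [Complex.ofReal_mul, Complex.ofReal_mul]
  field_simp

theorem ip_sub_sq (A B : ℝ) (hA : 0 < A) (hB : 0 < B) (s t : ℂ) :
    A * B * ‖s - t‖ ^ 2 = B / A * ‖(A : ℂ) * s‖ ^ 2 + A / B * ‖(B : ℂ) * t‖ ^ 2 - 2 * ip ((A : ℂ) * s) ((B : ℂ) * t) := by
  have h1 : ∀ c : ℂ, ‖c‖ ^ 2 = c.re ^ 2 + c.im ^ 2 := by
    intro c
    rw [← Complex.normSq_eq_norm_sq, Complex.normSq_apply]
    ring
  rw [h1, h1, h1]
  unfold ip
  simp only [Complex.re_ofReal_mul, Complex.im_ofReal_mul, Complex.sub_re, Complex.sub_im]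
  field_simp
  ring

theorem pw_sub {ε p : ℝ} (hε : 0 < ε) (hp : 0 < p) {z : ℂ} (hx : AnalyticAt ℂ x z) : gg (pw x ε p) (pw x ε p) z ≤ pw x ε p z * Δ (pw x ε p) z := by
  rw [pw_gg hε hx, pw_lap hε hx]
  have h0 : 0 < ‖x z‖ ^ 2 + ε := by positivity
  have e2 : (‖x z‖ ^ 2 + ε) ^ (p - 1) = (‖x z‖ ^ 2 + ε) ^ (p - 1 - 1) * (‖x z‖ ^ 2 + ε) := by
    rw [← Real.rpow_add_one h0.ne']
    congr 1
    ring
  have e3 : pw x ε p z = (‖x z‖ ^ 2 + ε) ^ (p - 1 - 1) * (‖x z‖ ^ 2 + ε) * (‖x z‖ ^ 2 + ε) := by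
    unfold pw
    rw [← Real.rpow_add_one h0.ne', ← Real.rpow_add_one h0.ne']
    congr 1
    ring
  rw [e2, e3]
  have h1 : 0 ≤ (‖x z‖ ^ 2 + ε) ^ (p - 1 - 1) := Real.rpow_nonneg h0.le _
  have h2 : 0 ≤ 4 * p * ((‖x z‖ ^ 2 + ε) ^ (p - 1 - 1)) ^ 2 * (‖x z‖ ^ 2 + ε) ^ 2 * ‖deriv x z‖ ^ 2 := by positivity
  have h3 : p * ‖x z‖ ^ 2 ≤ p * ‖x z‖ ^ 2 + ε := by linarith
  have := mul_le_mul_of_nonneg_left h3 h2
  nlinarith

theorem ps_cd {ε p q : ℝ} (hε : 0 < ε) {z : ℂ} (hx : AnalyticAt ℂ x z) (hy : AnalyticAt ℂ y z) : ContDiffAt ℝ 2 (ps x y ε p q) z :=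
  ((pw_cd hε hx).add (pw_cd hε hy)).log (add_pos (pw_pos hε z) (pw_pos hε z)).ne'

/-- lower bound for the Laplacian -/
theorem ps_lap_ge {ε p q : ℝ} (hε : 0 < ε) (hp : 0 < p) (hq : 0 < q) {z : ℂ} (hx : AnalyticAt ℂ x z) (hy : AnalyticAt ℂ y z) :
    4 * tn x y ε p q z ≤ Δ (ps x y ε p q) z := by
  set A := pw x ε p with hA
  set B := pw y ε q with hB
  have hA0 : 0 < A z := pw_pos hε z
  have hB0 : 0 < B z := pw_pos hε z
  have cA : ContDiffAt ℝ 2 A z := pw_cd hε hx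
  have cB : ContDiffAt ℝ 2 B z := pw_cd hε hy
  have hS0 : 0 < A z + B z := add_pos hA0 hB0
  have cS : ContDiffAt ℝ 2 (fun w => A w + B w) z := cA.add cB
  have e1 : Δ (ps x y ε p q) z = (A z + B z)⁻¹ * Δ (fun w => A w + B w) z - ((A z + B z) ^ 2)⁻¹ * gg (fun w => A w + B w) (fun w => A w + B w) z := by
    have h1 : ps x y ε p q = fun w => Real.log ((fun w => A w + B w) w) := rfl
    have h2 : ContDiffAt ℝ 2 Real.log ((fun w => A w + B w) z) := Real.contDiffAt_log.2 hS0.ne'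
    rw [h1, lap_comp h2 cS]
    have h3 : deriv (deriv Real.log) (A z + B z) = -((A z + B z) ^ 2)⁻¹ := by
      rw [Real.deriv_log', deriv_inv]
    show deriv Real.log (A z + B z) * _ + deriv (deriv Real.log) (A z + B z) * _ = _
    rw [h3, Real.deriv_log]
    ring
  have e2 : Δ (fun w => A w + B w) z = Δ A z + Δ B z := lap_add cA cB
  have e3 : gg (fun w => A w + B w) (fun w => A w + B w) z = gg A A z + gg B B z + 2 * gg A B z := by
    unfold gg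
    rw [fderiv_fun_add (cA.differentiableAt (by norm_num)) (cB.differentiableAt (by norm_num))]
    simp only [add_apply]
    ring
  have i1 : gg A A z ≤ A z * Δ A z := pw_sub hε hp hx
  have i2 : gg B B z ≤ B z * Δ B z := pw_sub hε hq hy
  have i1' : gg A A z / A z ≤ Δ A z := by
    rw [div_le_iff₀ hA0]
    linarith
  have i2' : gg B B z / B z ≤ Δ B z := by
    rw [div_le_iff₀ hB0]
    linarith
  have key := ip_sub_sq (A z) (B z) hA0 hB0 (2 * (p * (x z * (starRingEnd ℂ) (deriv x z)) / ((‖x z‖ ^ 2 + ε : ℝ) : ℂ)))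
    (2 * (q * (y z * (starRingEnd ℂ) (deriv y z)) / ((‖y z‖ ^ 2 + ε : ℝ) : ℂ)))
  rw [← pw_gr hε hx, ← pw_gr hε hy, ← hA, ← hB, ← gg_self, ← gg_self, ← gg_eq_ip, ← mul_sub, norm_mul, mul_pow] at key
  have e4 : ‖(2 : ℂ)‖ ^ 2 = 4 := by
    rw [Complex.norm_ofNat]
    norm_num
  rw [e4] at key
  have e5 : 4 * tn x y ε p q z = (A z * B z * (4 * ‖wv x y ε p q z‖ ^ 2)) / (A z + B z) ^ 2 := by
    unfold tn
    rw [← hA, ← hB]
    ring
  rw [e5, wv, key, e1, e2, e3, div_le_iff₀ (by positivity)]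
  have e6 : ((A z + B z)⁻¹ * (Δ A z + Δ B z) - ((A z + B z) ^ 2)⁻¹ * (gg A A z + gg B B z + 2 * gg A B z)) * (A z + B z) ^ 2 =
      (A z + B z) * (Δ A z + Δ B z) - (gg A A z + gg B B z + 2 * gg A B z) := by
    field_simp
  rw [e6]
  have e7 : B z / A z * gg A A z + A z / B z * gg B B z - 2 * gg A B z =
      (A z + B z) * (gg A A z / A z + gg B B z / B z) - (gg A A z + gg B B z + 2 * gg A B z) := by
    field_simp
    ring
  rw [e7]
  have := mul_le_mul_of_nonneg_left (add_le_add i1' i2') hS0.le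
  linarith

/-- the gradient -/
theorem ps_gg_le {ε p q : ℝ} (hε : 0 < ε) (hε1 : ε ≤ 1) (hp : 0 < p) (hp1 : p ≤ 1) (hq : 0 < q) (hq1 : q ≤ 1) {z : ℂ} (hx : AnalyticAt ℂ x z) (hy : AnalyticAt ℂ y z)
    (hx1 : ‖x z‖ ^ 2 ≤ 1) (hy1 : ‖y z‖ ^ 2 ≤ 1) {c : ℝ} (hc : 0 < c) (hcS : c ≤ pw x ε p z + pw y ε q z) :
    gg (ps x y ε p q) (ps x y ε p q) z ≤ 16 / c ^ 2 * (dn x ε p z + dn y ε q z) := by
  set A := pw x ε p with hA
  set B := pw y ε q with hB
  have cA : ContDiffAt ℝ 2 A z := pw_cd hε hx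
  have cB : ContDiffAt ℝ 2 B z := pw_cd hε hy
  have hS0 : 0 < A z + B z := hc.trans_le hcS
  have dS : DifferentiableAt ℝ (fun w => A w + B w) z := (cA.add cB).differentiableAt (by norm_num)
  have dl : DifferentiableAt ℝ Real.log ((fun w => A w + B w) z) := Real.differentiableAt_log hS0.ne'
  have h1 : ps x y ε p q = fun w => Real.log ((fun w => A w + B w) w) := rfl
  rw [h1, gg_comp dl dS, gg_comm, gg_comp dl dS, Real.deriv_log]
  have h2 := gg_add_le (cA.differentiableAt (by norm_num)) (cB.differentiableAt (by norm_num)) (z := z)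
  have h3 : gg A A z ≤ 8 * dn x ε p z := by
    refine (pw_gg_le hε hx).trans ?_
    have h4 : pw x ε p z ≤ 2 := pw_le_two hε hε1 hp hp1 hx1
    have h5 : p ^ 2 ≤ 1 := pow_le_one₀ hp.le hp1
    have h6 := dn_nonneg (x := x) (a := p) hε z
    have h7 := (pw_pos (x := x) (a := p) hε z).le
    calc pw x ε p z * (4 * p ^ 2 * dn x ε p z) ≤ 2 * (4 * 1 * dn x ε p z) := by gcongr
      _ = _ := by ring
  have h3' : gg B B z ≤ 8 * dn y ε q z := by
    refine (pw_gg_le hε hy).trans ?_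
    have h4 : pw y ε q z ≤ 2 := pw_le_two hε hε1 hq hq1 hy1
    have h5 : q ^ 2 ≤ 1 := pow_le_one₀ hq.le hq1
    have h6 := dn_nonneg (x := y) (a := q) hε z
    have h7 := (pw_pos (x := y) (a := q) hε z).le
    calc pw y ε q z * (4 * q ^ 2 * dn y ε q z) ≤ 2 * (4 * 1 * dn y ε q z) := by gcongr
      _ = _ := by ring
  have h8 : gg (fun w => A w + B w) (fun w => A w + B w) z ≤ 16 * (dn x ε p z + dn y ε q z) := by linarith
  have h9 : ((A z + B z)⁻¹) ^ 2 ≤ (c⁻¹) ^ 2 := by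
    have : (A z + B z)⁻¹ ≤ c⁻¹ := inv_anti₀ hc hcS
    exact pow_le_pow_left₀ (by positivity) this 2
  show (A z + B z)⁻¹ * ((A z + B z)⁻¹ * _) ≤ _
  calc (A z + B z)⁻¹ * ((A z + B z)⁻¹ * gg (fun w => A w + B w) (fun w => A w + B w) z) =
      ((A z + B z)⁻¹) ^ 2 * gg (fun w => A w + B w) (fun w => A w + B w) z := by ring
    _ ≤ (c⁻¹) ^ 2 * (16 * (dn x ε p z + dn y ε q z)) := mul_le_mul h9 h8 (gg_self_nonneg _ _) (by positivity)
    _ = _ := by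
      field_simp

theorem le_pw {ε p : ℝ} (hε : 0 < ε) (hp : 0 < p) (hp1 : p ≤ 1) {z : ℂ} (hx : ‖x z‖ ^ 2 ≤ 1) : ‖x z‖ ^ 2 ≤ pw x ε p z := by
  unfold pw
  have h0 : 0 ≤ ‖x z‖ ^ 2 := by positivity
  calc ‖x z‖ ^ 2 = (‖x z‖ ^ 2) ^ (1 : ℝ) := (Real.rpow_one _).symm
    _ ≤ (‖x z‖ ^ 2) ^ p := by
        rcases h0.eq_or_lt with h1 | h1
        · rw [← h1, Real.zero_rpow one_ne_zero, Real.zero_rpow hp.ne']
        · exact Real.rpow_le_rpow_of_exponent_ge h1 hx hp1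
    _ ≤ _ := Real.rpow_le_rpow h0 (by linarith) hp.le

/-! ## local integrability of the logarithm -/

theorem logSing_int {w : ℂ → ℝ} {c : ℝ} {z : ℂ} (h : LogSing w c z) : ∃ r : ℝ, 0 < r ∧ ∀ ρ : ℝ, ρ ≤ r → IntegrableOn w (closedBall z ρ) := by
  obtain ⟨s, hs, h1⟩ := h
  have h2 : ∀ᶠ ζ in 𝓝 z, ContinuousAt s ζ := (hs.eventually (by simp)).mono fun ζ hζ => hζ.continuousAt
  rw [Filter.EventuallyEq, eventually_nhdsWithin_iff] at h1
  obtain ⟨r, hr, h3⟩ := Metric.eventually_nhds_iff_ball.1 (h1.and h2)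
  refine ⟨r / 2, by positivity, fun ρ hρ => ?_⟩
  have hsub : closedBall z ρ ⊆ ball z r := closedBall_subset_ball (by linarith)
  have i1 : IntegrableOn (fun ζ : ℂ => Real.log ‖ζ - z‖) (closedBall z ρ) :=
    (Pool.Agent.H30M.locInt_log z).integrableOn_isCompact (isCompact_closedBall _ _)
  have i2 : IntegrableOn s (closedBall z ρ) := by
    have : ContinuousOn s (closedBall z ρ) := fun ζ hζ => (h3 ζ (hsub hζ)).2.continuousWithinAt
    exact this.integrableOn_compact (isCompact_closedBall _ _)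
  refine Integrable.congr ((i1.const_mul c).add i2) ?_
  have hne : ∀ᵐ ζ : ℂ, ζ ≠ z := by
    rw [ae_iff]
    simp
  rw [Filter.EventuallyEq, ae_restrict_iff' measurableSet_closedBall]
  filter_upwards [hne] with ζ h4 h5
  exact ((h3 ζ (hsub h5)).1 h4).symm

theorem log_bd {s u v : ℝ} (hs : 0 < s) (hu : s ^ 2 = u) (hv : 0 ≤ v) (h2 : u + v ≤ 2) : |Real.log (u + v)| ≤ Real.log 2 + 2 * |Real.log s| := by
  have hu0 : 0 < u := by rw [← hu]; positivity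
  have h1 : Real.log u = 2 * Real.log s := by
    rw [← hu, Real.log_pow]
    norm_num
  have h3 : Real.log u ≤ Real.log (u + v) := Real.log_le_log hu0 (by linarith)
  have h4 : Real.log (u + v) ≤ Real.log 2 := Real.log_le_log (by linarith) h2
  have h5 : 0 ≤ Real.log 2 := Real.log_nonneg (by norm_num)
  rw [abs_le]
  constructor
  · have := neg_abs_le (Real.log s)
    rw [h1] at h3
    linarith
  · have := abs_nonneg (Real.log s)
    linarith

/-- the logarithm of the sum of squares near one point -/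
theorem log_at (h : Crd U x y) {K : Set ℂ} (hKm : MeasurableSet K) (hKU : K ⊆ U) (hx1 : ∀ z ∈ K, ‖x z‖ ^ 2 ≤ 1) (hy1 : ∀ z ∈ K, ‖y z‖ ^ 2 ≤ 1) {z : ℂ} (hz : z ∈ U)
    (h0 : analyticOrderAt x z ≠ ⊤) : IntegrableAtFilter (fun z => Real.log (‖x z‖ ^ 2 + ‖y z‖ ^ 2)) (𝓝[K] z) := by
  obtain ⟨r, hr, h1⟩ := logSing_int (LogSing.log_norm (h.ax hz) h0)
  have h2 : ∀ᶠ w in 𝓝 z, w ≠ z → x w ≠ 0 := by
    rcases (h.ax hz).eventually_eq_zero_or_eventually_ne_zero with h3 | h3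
    · exact absurd (analyticOrderAt_eq_top.2 h3) h0
    · exact eventually_nhdsWithin_iff.1 h3
  obtain ⟨r', hr', h3⟩ := Metric.eventually_nhds_iff_ball.1 h2
  set ρ := min r (r' / 2) with hρ
  have hρ0 : 0 < ρ := lt_min hr (by positivity)
  have hm : MeasurableSet (K ∩ closedBall z ρ) := hKm.inter measurableSet_closedBall
  refine ⟨K ∩ closedBall z ρ, inter_mem_nhdsWithin _ (closedBall_mem_nhds _ hρ0), ?_⟩
  have i1 : IntegrableOn (fun w => Real.log ‖x w‖) (K ∩ closedBall z ρ) := (h1 ρ (min_le_left _ _)).mono_set Set.inter_subset_right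
  have i0 : IntegrableOn (fun _ : ℂ => Real.log 2) (K ∩ closedBall z ρ) := by
    have : IntegrableOn (fun _ : ℂ => Real.log 2) (closedBall z ρ) := continuous_const.continuousOn.integrableOn_compact (isCompact_closedBall _ _)
    exact this.mono_set Set.inter_subset_right
  have i2 : IntegrableOn (fun w => Real.log 2 + 2 * |Real.log ‖x w‖|) (K ∩ closedBall z ρ) := i0.add (i1.norm.const_mul 2)
  refine Integrable.mono' i2 ?_ ?_
  · have c1 : ContinuousOn (fun w => ‖x w‖ ^ 2 + ‖y w‖ ^ 2) (K ∩ closedBall z ρ) :=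
      ((h.hx.continuousOn.norm.pow 2).add (h.hy.continuousOn.norm.pow 2)).mono fun w hw => hKU hw.1
    exact (Real.measurable_log.comp_aemeasurable (c1.aestronglyMeasurable hm).aemeasurable).aestronglyMeasurable
  · have hne : ∀ᵐ ζ : ℂ, ζ ≠ z := by
      rw [ae_iff]
      simp
    rw [ae_restrict_iff' hm]
    filter_upwards [hne] with w hw1 hw2
    have hb : w ∈ ball z r' := closedBall_subset_ball (lt_of_le_of_lt (min_le_right _ _) (by linarith)) hw2.2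
    have hxw : x w ≠ 0 := h3 w hb hw1
    rw [Real.norm_eq_abs]
    exact log_bd (norm_pos_iff.2 hxw) rfl (by positivity) (by linarith [hx1 w hw2.1, hy1 w hw2.1])

theorem log_int (h : Crd U x y) (hne : ∀ z ∈ U, ∀ᶠ w in 𝓝[≠] z, x w ≠ 0 ∨ y w ≠ 0) {K : Set ℂ} (hK : IsCompact K) (hKU : K ⊆ U) (hx1 : ∀ z ∈ K, ‖x z‖ ^ 2 ≤ 1)
    (hy1 : ∀ z ∈ K, ‖y z‖ ^ 2 ≤ 1) : IntegrableOn (fun z => Real.log (‖x z‖ ^ 2 + ‖y z‖ ^ 2)) K := by
  refine LocallyIntegrableOn.integrableOn_isCompact (fun z hz => ?_) hK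
  have hzU := hKU hz
  by_cases h0 : analyticOrderAt x z = ⊤
  · have h1 : analyticOrderAt y z ≠ ⊤ := by
      intro h2
      have h3 := analyticOrderAt_eq_top.1 h0
      have h4 := analyticOrderAt_eq_top.1 h2
      obtain ⟨w, hw1, hw2, hw3⟩ := ((hne z hzU).and ((h3.filter_mono nhdsWithin_le_nhds).and (h4.filter_mono nhdsWithin_le_nhds))).exists
      rcases hw1 with hw1 | hw1
      · exact hw1 hw2
      · exact hw1 hw3
    have := log_at h.symm hK.measurableSet hKU hy1 hx1 hzU h1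
    refine this.congr (Eventually.of_forall fun w => ?_) |>.mono_measure le_rfl
    simp only [add_comm]
  · exact log_at h hK.measurableSet hKU hx1 hy1 hzU h0

theorem ne_ae (h : Crd U x y) (hne : ∀ z ∈ U, ∀ᶠ w in 𝓝[≠] z, x w ≠ 0 ∨ y w ≠ 0) : ∀ᵐ z : ℂ, z ∈ U → x z ≠ 0 ∨ y z ≠ 0 := by
  rw [← ae_restrict_iff' h.isOpen.measurableSet]
  have h1 : {z | x z ≠ 0 ∨ y z ≠ 0} ∈ codiscreteWithin U := by
    rw [mem_codiscreteWithin_iff_forall_mem_nhdsNE]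
    intro z hz
    filter_upwards [hne z hz] with w hw
    exact Or.inl hw
  exact ae_restrict_le_codiscreteWithin h.isOpen.measurableSet h1

/-- the mean of the potential is bounded below, uniformly in `ε` -/
theorem avg_lb (h : Crd U x y) (hne : ∀ z ∈ U, ∀ᶠ w in 𝓝[≠] z, x w ≠ 0 ∨ y w ≠ 0) {a b : ℝ} (hb0 : 0 ≤ b) (hab : a < b) (hb : b < 1) {p q : ℝ}
    (hp : 0 < p) (hp1 : p ≤ 1) (hq : 0 < q) (hq1 : q ≤ 1) :
    ∃ C : ℝ, 0 ≤ C ∧ ∀ ε, 0 < ε → ε ≤ 1 → -C ≤ avg 1 (fun z => cut U x y a b z ^ 2 * ps x y ε p q z) := by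
  set K := Kb U x y b ∩ closedBall 0 (Real.exp 1 * 1) with hK
  have hKc : IsCompact K := (isCompact_closedBall _ _).inter_left (closed_Kb h hb0 hb)
  have hi := log_int h hne hKc (fun z hz => hz.1.1) (fun z hz => hz.1.2.1.trans hb.le) (fun z hz => hz.1.2.2.trans hb.le)
  have hi2 : IntegrableOn (fun z => rhoR 1 z * |Real.log (‖x z‖ ^ 2 + ‖y z‖ ^ 2)|) K :=
    IntegrableOn.continuousOn_mul (continuous_rhoR 1).continuousOn hi.norm hKc
  refine ⟨∫ z in K, rhoR 1 z * |Real.log (‖x z‖ ^ 2 + ‖y z‖ ^ 2)|, integral_nonneg fun z => mul_nonneg (rhoR_nonneg _ _) (abs_nonneg _), fun ε hε hε1 => ?_⟩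
  unfold avg
  rw [neg_le, ← integral_neg, ← integral_indicator hKc.measurableSet]
  have hc : Continuous fun z => cut U x y a b z ^ 2 * ps x y ε p q z :=
    cut_mul_cont h hb0 hab hb fun z hz => (ps_cd hε (h.ax hz) (h.ay hz)).continuousAt.continuousWithinAt
  refine integral_mono_ae ?_ ((integrable_indicator_iff hKc.measurableSet).2 hi2) ?_
  · exact (((continuous_rhoR 1).mul hc).integrable_of_hasCompactSupport (hcs_rhoR le_rfl).mul_right).neg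
  · filter_upwards [ne_ae h hne] with z hz
    by_cases hzK : z ∈ K
    · rw [Set.indicator_of_mem hzK]
      have hzU := hzK.1.1
      have hx1 : ‖x z‖ ^ 2 ≤ 1 := hzK.1.2.1.trans hb.le
      have hy1 : ‖y z‖ ^ 2 ≤ 1 := hzK.1.2.2.trans hb.le
      have hpos : 0 < ‖x z‖ ^ 2 + ‖y z‖ ^ 2 := by
        rcases hz hzU with h1 | h1
        · have := norm_pos_iff.2 h1
          positivity
        · have := norm_pos_iff.2 h1
          positivity
      have h2 : Real.log (‖x z‖ ^ 2 + ‖y z‖ ^ 2) ≤ ps x y ε p q z := Real.log_le_log hpos (add_le_add (le_pw hε hp hp1 hx1) (le_pw hε hq hq1 hy1))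
      have h3 := cut_nonneg (U := U) (x := x) (y := y) a b z
      have h4 : cut U x y a b z ^ 2 ≤ 1 := pow_le_one₀ h3 (cut_le_one _ _ _)
      have h5 := neg_abs_le (Real.log (‖x z‖ ^ 2 + ‖y z‖ ^ 2))
      have h6 := abs_nonneg (Real.log (‖x z‖ ^ 2 + ‖y z‖ ^ 2))
      have h7 : -(cut U x y a b z ^ 2 * ps x y ε p q z) ≤ |Real.log (‖x z‖ ^ 2 + ‖y z‖ ^ 2)| := by
        nlinarith [sq_nonneg (cut U x y a b z), mul_le_mul_of_nonneg_left h2 (sq_nonneg (cut U x y a b z)), mul_le_mul_of_nonneg_right h4 h6,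
          mul_le_mul_of_nonneg_left h5 (sq_nonneg (cut U x y a b z))]
      have := mul_le_mul_of_nonneg_left h7 (rhoR_nonneg 1 z)
      linarith
    · rw [Set.indicator_of_notMem hzK]
      by_cases h1 : z ∈ Kb U x y b
      · have h2 : z ∉ closedBall (0 : ℂ) (Real.exp 1 * 1) := fun h3 => hzK ⟨h1, h3⟩
        rw [mem_closedBall_zero_iff, not_le] at h2
        rw [rhoR_eq_zero le_rfl (Or.inr h2.le)]
        simp
      · rw [cut_eq_zero hab h1]
        simp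

theorem tn_cont (h : Crd U x y) {ε p q : ℝ} (hε : 0 < ε) : ContinuousOn (tn x y ε p q) U := by
  have cx := h.hx.continuousOn
  have cy := h.hy.continuousOn
  have dx := deriv_cont h
  have dy := deriv_cont h.symm
  have c1 : ContinuousOn (pw x ε p) U := fun z hz => (pw_cd hε (h.ax hz)).continuousAt.continuousWithinAt
  have c2 : ContinuousOn (pw y ε q) U := fun z hz => (pw_cd hε (h.ay hz)).continuousAt.continuousWithinAt
  have hw : ContinuousOn (wv x y ε p q) U := by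
    unfold wv
    refine ContinuousOn.sub (ContinuousOn.div (continuousOn_const.mul (cx.mul (Complex.continuous_conj.comp_continuousOn dx)))
      (Complex.continuous_ofReal.comp_continuousOn ((cx.norm.pow 2).add continuousOn_const)) fun z _ => ?_)
      (ContinuousOn.div (continuousOn_const.mul (cy.mul (Complex.continuous_conj.comp_continuousOn dy)))
      (Complex.continuous_ofReal.comp_continuousOn ((cy.norm.pow 2).add continuousOn_const)) fun z _ => ?_)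
    · exact Complex.ofReal_ne_zero.2 (by positivity)
    · exact Complex.ofReal_ne_zero.2 (by positivity)
  unfold tn
  refine ((c1.mul c2).div ((c1.add c2).pow 2) fun z _ => ?_).mul (hw.norm.pow 2)
  exact pow_ne_zero _ (add_pos (pw_pos hε z) (pw_pos hε z)).ne'

theorem meas_ne2 (h : Crd U x y) {r : ℝ} (hr : r < 1) : MeasurableSet (Kr U x y r ∩ {z | x z ≠ 0 ∧ y z ≠ 0}) := by
  have h1 := meas_ne h hr
  have h2 := meas_ne h.symm hr
  have h3 : Kr U x y r ∩ {z | x z ≠ 0 ∧ y z ≠ 0} = (Kr U x y r ∩ {z | x z ≠ 0}) ∩ (Kr U y x r ∩ {z | y z ≠ 0}) := by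
    ext z
    constructor
    · rintro ⟨h4, h5, h6⟩
      exact ⟨⟨h4, h5⟩, ⟨h4.1, h4.2.2, h4.2.1⟩, h6⟩
    · rintro ⟨⟨h4, h5⟩, _, h6⟩
      exact ⟨h4, h5, h6⟩
  rw [h3]
  exact h1.inter h2

theorem wv_lim {p q : ℝ} {z : ℂ} (hx : x z ≠ 0) (hy : y z ≠ 0) :
    Tendsto (fun n : ℕ => ‖wv x y (1 / ((n : ℝ) + 1)) p q z‖ ^ 2) atTop (𝓝 (‖(p : ℂ) * (deriv x z / x z) - q * (deriv y z / y z)‖ ^ 2)) := by
  have hA : ∀ (f : ℂ → ℂ) (s : ℝ), f z ≠ 0 → Tendsto (fun n : ℕ => (s : ℂ) * (f z * (starRingEnd ℂ) (deriv f z)) / ((‖f z‖ ^ 2 + 1 / ((n : ℝ) + 1) : ℝ) : ℂ)) atTop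
      (𝓝 ((starRingEnd ℂ) ((s : ℂ) * (deriv f z / f z)))) := by
    intro f s hf
    have h1 : Tendsto (fun n : ℕ => ‖f z‖ ^ 2 + 1 / ((n : ℝ) + 1)) atTop (𝓝 (‖f z‖ ^ 2 + 0)) := tendsto_one_div_add_atTop_nhds_zero_nat.const_add _
    rw [add_zero] at h1
    have h2 : Tendsto (fun n : ℕ => ((‖f z‖ ^ 2 + 1 / ((n : ℝ) + 1) : ℝ) : ℂ)) atTop (𝓝 ((‖f z‖ ^ 2 : ℝ) : ℂ)) := (Complex.continuous_ofReal.tendsto _).comp h1
    have hne : ((‖f z‖ ^ 2 : ℝ) : ℂ) ≠ 0 := Complex.ofReal_ne_zero.2 (by positivity)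
    have h3 := (tendsto_const_nhds (x := (s : ℂ) * (f z * (starRingEnd ℂ) (deriv f z)))).div h2 hne
    have h4 : (s : ℂ) * (f z * (starRingEnd ℂ) (deriv f z)) / ((‖f z‖ ^ 2 : ℝ) : ℂ) = (starRingEnd ℂ) ((s : ℂ) * (deriv f z / f z)) := by
      have h5 : ((‖f z‖ ^ 2 : ℝ) : ℂ) = f z * (starRingEnd ℂ) (f z) := by
        rw [Complex.mul_conj, Complex.normSq_eq_norm_sq]
      have h6 : (starRingEnd ℂ) (f z) ≠ 0 := (map_ne_zero _).2 hf
      rw [h5, map_mul, map_div₀, Complex.conj_ofReal]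
      field_simp
    rwa [h4] at h3
  have h1 := (hA x p hx).sub (hA y q hy)
  rw [← map_sub] at h1
  have h2 := h1.norm.pow 2
  rw [RCLike.norm_conj] at h2
  exact h2

theorem pw_lim {p : ℝ} {z : ℂ} (hx : x z ≠ 0) : Tendsto (fun n : ℕ => pw x (1 / ((n : ℝ) + 1)) p z) atTop (𝓝 (‖x z‖ ^ (2 * p))) := by
  have hx0 : 0 < ‖x z‖ := norm_pos_iff.2 hx
  have h1 : Tendsto (fun n : ℕ => ‖x z‖ ^ 2 + 1 / ((n : ℝ) + 1)) atTop (𝓝 (‖x z‖ ^ 2 + 0)) := tendsto_one_div_add_atTop_nhds_zero_nat.const_add _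
  rw [add_zero] at h1
  have h2 := h1.rpow_const (p := p) (Or.inl (by positivity))
  have h3 : (‖x z‖ ^ 2) ^ p = ‖x z‖ ^ (2 * p) := by
    rw [← Real.rpow_natCast, ← Real.rpow_mul hx0.le]
    norm_num
  rw [h3] at h2
  exact h2

end Pool.Agent.MQ3

end
end

section

/-!
# MQ3 EnU: the energy estimates with constants which do not depend on the curve
-/

set_option autoImplicit false

open MeasureTheory Topology Filter Metric Laplacian

noncomputable section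

namespace Pool.Agent.MQ3

open Pool.Agent.MQ
open Pool.Agent.H30M (tau rhoR avg rho gg lap_comp lap_mul lap_add lap_congr gg_congr gg_sq_le gg_self_nonneg gg_comm gg_comp green_tau tau_nonneg contDiff_tau hcs_tau rhoR_nonneg continuous_rhoR hcs_rhoR int_rhoR abs_gg_le)

/-- the energy of `f` on `S` is at most `A` times `e`, up to a constant -/
def EU (A : ℝ) (e : ℝ → ℝ) (S : Set ℂ) (f : ℂ → ℝ) : Prop :=
  ∃ K : ℝ, ∀ R, 1 ≤ R → Integrable (fun z => tau R z * S.indicator f z) ∧ ∫ z, tau R z * S.indicator f z ≤ A * e R + K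

/-- comparison with finitely many energies -/
theorem EU.of_cover {e : ℝ → ℝ} {ι : Type*} (s : Finset ι) {A : ι → ℝ} {S : ι → Set ℂ} {f : ι → ℂ → ℝ} {T : Set ℂ} {g : ℂ → ℝ} {D : ℝ}
    (hS : ∀ j ∈ s, EU (A j) e (S j) (f j)) (hf : ∀ j ∈ s, ∀ z ∈ S j, 0 ≤ f j z) (hD : 0 ≤ D) (hg : AEStronglyMeasurable (T.indicator g)) (hg0 : ∀ z ∈ T, 0 ≤ g z)
    (h : ∀ z ∈ T, ∃ j ∈ s, z ∈ S j ∧ g z ≤ D * f j z) : EU (D * ∑ j ∈ s, A j) e T g := by
  choose! C hC using hS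
  have key : ∀ R, 1 ≤ R → ∀ z, tau R z * T.indicator g z ≤ D * ∑ j ∈ s, tau R z * (S j).indicator (f j) z := by
    intro R hR z
    have hτ := tau_nonneg hR z
    have h0 : ∀ j ∈ s, 0 ≤ tau R z * (S j).indicator (f j) z := by
      intro j hj
      refine mul_nonneg hτ ?_
      by_cases hz : z ∈ S j
      · rw [Set.indicator_of_mem hz]
        exact hf j hj z hz
      · rw [Set.indicator_of_notMem hz]
    by_cases hz : z ∈ T
    · obtain ⟨j, hj, hzj, hle⟩ := h z hz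
      have h1 : tau R z * (S j).indicator (f j) z ≤ ∑ j ∈ s, tau R z * (S j).indicator (f j) z := Finset.single_le_sum h0 hj
      rw [Set.indicator_of_mem hzj] at h1
      rw [Set.indicator_of_mem hz]
      calc tau R z * g z ≤ tau R z * (D * f j z) := mul_le_mul_of_nonneg_left hle hτ
        _ = D * (tau R z * f j z) := by ring
        _ ≤ _ := mul_le_mul_of_nonneg_left h1 hD
    · rw [Set.indicator_of_notMem hz, mul_zero]
      exact mul_nonneg hD (Finset.sum_nonneg h0)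
  refine ⟨D * ∑ j ∈ s, C j, fun R hR => ?_⟩
  have hi : Integrable fun z => D * ∑ j ∈ s, tau R z * (S j).indicator (f j) z :=
    (integrable_finsetSum s fun j hj => (hC j hj R hR).1).const_mul D
  have h0 : ∀ z, 0 ≤ tau R z * T.indicator g z := by
    intro z
    refine mul_nonneg (tau_nonneg hR z) ?_
    by_cases hz : z ∈ T
    · rw [Set.indicator_of_mem hz]
      exact hg0 z hz
    · rw [Set.indicator_of_notMem hz]
  have hi2 : Integrable fun z => tau R z * T.indicator g z := by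
    refine hi.mono' ((contDiff_tau R).continuous.aestronglyMeasurable.mul hg) (Eventually.of_forall fun z => ?_)
    rw [Real.norm_of_nonneg (h0 z)]
    exact key R hR z
  refine ⟨hi2, (integral_mono hi2 hi (key R hR)).trans ?_⟩
  rw [integral_const_mul, integral_finsetSum s fun j hj => (hC j hj R hR).1]
  have h2 : D * ∑ j ∈ s, ∫ z, tau R z * (S j).indicator (f j) z ≤ D * ∑ j ∈ s, (A j * e R + C j) :=
    mul_le_mul_of_nonneg_left (Finset.sum_le_sum fun j hj => (hC j hj R hR).2) hD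
  refine h2.trans (le_of_eq ?_)
  rw [Finset.sum_add_distrib, ← Finset.sum_mul]
  ring

/-- comparison with one energy -/
theorem EU.of_le {e : ℝ → ℝ} {A : ℝ} {S T : Set ℂ} {f g : ℂ → ℝ} {D : ℝ} (hS : EU A e S f) (hf : ∀ z ∈ S, 0 ≤ f z) (hD : 0 ≤ D)
    (hg : AEStronglyMeasurable (T.indicator g)) (hg0 : ∀ z ∈ T, 0 ≤ g z) (hTS : T ⊆ S) (h : ∀ z ∈ T, g z ≤ D * f z) : EU (D * A) e T g := by
  have := EU.of_cover {()} (A := fun _ => A) (S := fun _ => S) (f := fun _ => f) (D := D) (fun _ _ => hS) (fun _ _ => hf) hD hg hg0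
    fun z hz => ⟨(), by simp, hTS hz, h z hz⟩
  simpa using this

theorem EU.empty {e : ℝ → ℝ} {f : ℂ → ℝ} : EU 0 e ∅ f := by
  refine ⟨0, fun R _ => ?_⟩
  simp

/-! ## polydiscs -/

/-- the length of the derivative of the pair -/
def le' (x y : ℂ → ℂ) (S : Set ℂ) (z : ℂ) : ℝ := √(ed x y S z)

theorem le'_sq (x y : ℂ → ℂ) (S : Set ℂ) (z : ℂ) : le' x y S z ^ 2 = ed x y S z := Real.sq_sqrt (ed_nonneg _ _)

theorem le'_bd {U : Set ℂ} {x y : ℂ → ℂ} {b : ℝ} (hb0 : 0 ≤ b) : ∀ z ∈ Kb U x y b,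
    ‖deriv x z‖ ≤ 1 * le' x y (Kr U x y (√b)) z ∧ ‖deriv y z‖ ≤ 1 * le' x y (Kr U x y (√b)) z := by
  intro z hz
  rw [Kb_eq hb0] at hz
  have h3 : ed x y (Kr U x y (√b)) z = ‖deriv x z‖ ^ 2 + ‖deriv y z‖ ^ 2 := Set.indicator_of_mem hz _
  unfold le'
  simp only [h3, one_mul]
  constructor
  · exact Real.le_sqrt_of_sq_le (by nlinarith [sq_nonneg ‖deriv y z‖])
  · exact Real.le_sqrt_of_sq_le (by nlinarith [sq_nonneg ‖deriv x z‖])

theorem sqrt_lt_one' {b : ℝ} (hb : b < 1) : √b < 1 := by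
  rw [Real.sqrt_lt' one_pos]
  simpa using hb

theorem le'_int {U : Set ℂ} {x y : ℂ → ℂ} (h : Crd U x y) {b : ℝ} (hb : b < 1) {R : ℝ} (hR : 1 ≤ R) :
    Integrable fun z => tau R z * le' x y (Kr U x y (√b)) z ^ 2 := by
  simp only [le'_sq]
  exact ed_int h hR (h.closed _ (sqrt_lt_one' hb)) fun z hz => hz.1

/-- the uniform energy estimate of one function -/
theorem enR_epsU {a b : ℝ} (hb0 : 0 ≤ b) (hab : a < b) (hb : b < 1) {p : ℝ} (hp : 0 < p) (hp1 : p ≤ 1) : ∃ A : ℝ, 0 ≤ A ∧ ∀ (U : Set ℂ) (x y : ℂ → ℂ),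
    Crd U x y → ∀ v : ℂ → ℂ, DifferentiableOn ℂ v U → (∀ z ∈ Kb U x y b, ‖v z‖ ^ 2 ≤ 1) → ∀ ε, 0 < ε → ε ≤ 1 → ∀ R, 1 ≤ R →
      ∫ z, tau R z * (cut U x y a b z ^ 2 * dn v ε p z) ≤ A * (∫ z, tau R z * ed x y (Kr U x y (√b)) z) + A := by
  obtain ⟨C1, hC10, hC1'⟩ := cut_bdU hb0 hab hb 1
  refine ⟨(2 * Real.pi * 2 + 24 * C1) / (2 * p ^ 2), by positivity, fun U x y h v hv hv1 ε hε hε1 R hR => ?_⟩
  have hC1 := hC1' U x y (le' x y (Kr U x y (√b))) h (fun z => Real.sqrt_nonneg _) (le'_bd hb0)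
  obtain ⟨l, hl⟩ : ∃ l, l = le' x y (Kr U x y (√b)) := ⟨_, rfl⟩
  have hli : ∀ R, 1 ≤ R → Integrable fun z => tau R z * l z ^ 2 := fun R hR => by
    rw [hl]
    exact le'_int h hb hR
  have hE : (∫ z, tau R z * ed x y (Kr U x y (√b)) z) = ∫ z, tau R z * l z ^ 2 := by
    rw [hl]
    simp only [le'_sq]
  rw [← hl] at hC1
  rw [hE]
  have hE0 : 0 ≤ ∫ z, tau R z * l z ^ 2 := integral_nonneg fun z => mul_nonneg (tau_nonneg hR z) (sq_nonneg _)
  have hva : ∀ z ∈ U, AnalyticAt ℂ v z := fun z hz => hv.analyticAt (h.isOpen.mem_nhds hz)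
  have key := core_int (R := R) hli (B := 1) (e := fun R => ∫ z, tau R z * l z ^ 2) (fun R hR => by rw [one_mul]) (G := fun z => cut U x y a b z ^ 2 * pw v ε p z)
    (P := fun z => 2 * p ^ 2 * (cut U x y a b z ^ 2 * dn v ε p z)) (Q := fun _ => 0)
    (cut_mul_cd h hb0 hab hb fun z hz => pw_cd hε (hva z hz)) (continuous_const.mul (cut_mul_cont h hb0 hab hb (dn_cont' h.isOpen hv hε))) continuous_const (C := 24 * C1) (C2 := 2) (C3 := 0)
    (by positivity) (fun z => ?_) (cut_mul_le hab (by norm_num) fun z hz => pw_le_two hε hε1 hp hp1 (hv1 z hz)) ?_ hR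
  · have e1 : ∫ z, tau R z * (2 * p ^ 2 * (cut U x y a b z ^ 2 * dn v ε p z)) = 2 * p ^ 2 * ∫ z, tau R z * (cut U x y a b z ^ 2 * dn v ε p z) := by
      rw [← integral_const_mul]
      refine integral_congr_ae (Eventually.of_forall fun z => ?_)
      ring
    rw [e1] at key
    simp only [mul_zero, integral_zero, add_zero, one_mul] at key
    rw [← mul_add_one, div_mul_eq_mul_div, le_div_iff₀ (by positivity)]
    have hpi := Real.pi_pos
    nlinarith [mul_nonneg (show 0 ≤ 2 * Real.pi * 2 by positivity) hE0]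
  · show 2 * p ^ 2 * (cut U x y a b z ^ 2 * dn v ε p z) ≤ Δ (fun z => cut U x y a b z ^ 2 * pw v ε p z) z + 24 * C1 * l z ^ 2 + 0
    by_cases hz : z ∈ U
    · have hD0 : 0 ≤ dn v ε p z := dn_nonneg hε z
      have h1 := core_pt h hb0 hab hb hC10 hC1 hz (pw_cd (a := p) hε (hva z hz)) (C0 := 2) (θ := 1 / 8) (H := 2 * (4 * p ^ 2 * dn v ε p z)) (by norm_num)
        (by norm_num) (by positivity) (fun hK _ => ?_)
      · have h2 := pw_lap_ge hε hp hp1 (hva z hz)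
        have h3 := mul_le_mul_of_nonneg_left h2 (sq_nonneg (cut U x y a b z))
        have e3 : (4 * 2 + 2 / (1 / 8)) * C1 * l z ^ 2 = 24 * C1 * l z ^ 2 := by ring
        rw [e3] at h1
        nlinarith
      · have hx1 : pw v ε p z ≤ 2 := pw_le_two hε hε1 hp hp1 (hv1 z hK)
        refine ⟨by rw [abs_of_pos (pw_pos hε z)]; exact hx1, (pw_gg_le hε (hva z hz)).trans ?_⟩
        exact mul_le_mul_of_nonneg_right hx1 (by positivity)
    · have hK : z ∉ Kb U x y b := fun hK => hz hK.1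
      have e1 := cut_mul_zero h hb0 hab hb (pw v ε p) hK
      have e2 : Δ (fun w => cut U x y a b w ^ 2 * pw v ε p w) z = 0 := by
        rw [lap_congr e1]
        simp [InnerProductSpace.laplacian_const]
      rw [e2, cut_eq_zero hab hK]
      have : 0 ≤ 24 * C1 * l z ^ 2 := by positivity
      nlinarith
  · rw [neg_zero]
    exact integral_nonneg fun z => mul_nonneg (rhoR_nonneg _ _) (mul_nonneg (sq_nonneg _) (pw_pos hε z).le)

/-- the energy estimate of one function; the constants do not depend on the curve -/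
theorem enRVU {p r : ℝ} (hp : 0 < p) (hp1 : p ≤ 1) (hr : r < 1) : ∃ A r' : ℝ, 0 ≤ A ∧ r' < 1 ∧ ∀ (U : Set ℂ) (x y : ℂ → ℂ), Crd U x y →
    ∀ v : ℂ → ℂ, DifferentiableOn ℂ v U → (∀ z ∈ U, ‖x z‖ < 1 → ‖y z‖ < 1 → ‖v z‖ ≤ 1) → ∀ R, 1 ≤ R →
      Integrable (fun z => tau R z * (Kr U x y r ∩ {z | v z ≠ 0}).indicator (fun z => ‖v z‖ ^ (2 * p - 2) * ‖deriv v z‖ ^ 2) z) ∧
      ∫ z, tau R z * (Kr U x y r ∩ {z | v z ≠ 0}).indicator (fun z => ‖v z‖ ^ (2 * p - 2) * ‖deriv v z‖ ^ 2) z ≤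
        A * (∫ z, tau R z * ed x y (Kr U x y r') z) + A := by
  obtain ⟨a, b, hb0, hab, hb, _, hra⟩ := exists_par hr
  obtain ⟨A, hA0, hA⟩ := enR_epsU hb0 hab hb hp hp1
  refine ⟨A, √b, hA0, sqrt_lt_one' hb, fun U x y h v hv hv1 R hR => ?_⟩
  have hT := meas_ne' (Kr_closed h hr) (hv.continuousOn.mono fun z hz => hz.1)
  have hε : ∀ n : ℕ, 0 < 1 / ((n : ℝ) + 1) := fun n => by positivity
  have hε1 : ∀ n : ℕ, 1 / ((n : ℝ) + 1) ≤ 1 := fun n => by
    rw [div_le_one (by positivity)]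
    linarith [(Nat.cast_nonneg n : (0 : ℝ) ≤ n)]
  have hE0 : 0 ≤ ∫ z, tau R z * ed x y (Kr U x y (√b)) z := integral_nonneg fun z => mul_nonneg (tau_nonneg hR z) (ed_nonneg _ _)
  have hvb : ∀ z ∈ Kb U x y b, ‖v z‖ ^ 2 ≤ 1 := fun z hz => by
    have h1 : ∀ w : ℂ, ‖w‖ ^ 2 ≤ b → ‖w‖ < 1 := fun w hw => by nlinarith [norm_nonneg w]
    exact pow_le_one₀ (norm_nonneg _) (hv1 z hz.1 (h1 _ hz.2.1) (h1 _ hz.2.2))
  refine fatou_real (S := Kr U x y r ∩ {z | v z ≠ 0}) (f := fun n z => tau R z * (cut U x y a b z ^ 2 * dn v (1 / ((n : ℝ) + 1)) p z)) (by positivity)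
    (fun n => tau_int hR (cut_mul_cont h hb0 hab hb (dn_cont' h.isOpen hv (hε n)))) (fun n z => mul_nonneg (tau_nonneg hR z) (mul_nonneg (sq_nonneg _) (dn_nonneg (hε n) z)))
    (fun n => hA U x y h v hv hvb _ (hε n) (hε1 n) R hR) ?_ (fun z => mul_nonneg (tau_nonneg hR z) (Set.indicator_nonneg (fun z _ => by positivity) z)) (fun z hz => ?_) fun z hz => ?_
  · refine (contDiff_tau R).continuous.aestronglyMeasurable.mul (meas_ind hT ?_)
    have c1 : ContinuousOn v (Kr U x y r ∩ {z | v z ≠ 0}) := hv.continuousOn.mono fun z hz => hz.1.1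
    have c2 : ContinuousOn (deriv v) (Kr U x y r ∩ {z | v z ≠ 0}) := (hv.deriv h.isOpen).continuousOn.mono fun z hz => hz.1.1
    exact (c1.norm.rpow_const fun z hz => Or.inl (norm_ne_zero_iff.2 hz.2)).mul (c2.norm.pow 2)
  · rw [Set.indicator_of_notMem hz, mul_zero]
  · rw [Set.indicator_of_mem hz]
    refine Tendsto.const_mul _ ?_
    simp only [cut_Kr h hab hra hz.1, one_pow, one_mul]
    unfold dn
    refine Tendsto.mul_const _ ?_
    have hx0 : 0 < ‖v z‖ := norm_pos_iff.2 hz.2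
    have h1 : Tendsto (fun n : ℕ => ‖v z‖ ^ 2 + 1 / ((n : ℝ) + 1)) atTop (𝓝 (‖v z‖ ^ 2 + 0)) := tendsto_one_div_add_atTop_nhds_zero_nat.const_add _
    rw [add_zero] at h1
    have h2 := h1.rpow_const (p := p - 1) (Or.inl (by positivity))
    have h3 : (‖v z‖ ^ 2) ^ (p - 1) = ‖v z‖ ^ (2 * p - 2) := by
      rw [← Real.rpow_natCast, ← Real.rpow_mul hx0.le]
      congr 1
      push_cast
      ring
    rwa [h3] at h2

/-- the uniform second energy estimate -/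
theorem enT_epsU {a b : ℝ} (ha0 : 0 < a) (hb0 : 0 ≤ b) (hab : a < b) (hb : b < 1) {p q : ℝ} (hp : 0 < p) (hp1 : p ≤ 1) (hq : 0 < q) (hq1 : q ≤ 1) :
    ∃ A : ℝ, 0 ≤ A ∧ ∀ (U : Set ℂ) (x y : ℂ → ℂ), Crd U x y → (∀ z ∈ U, ∀ᶠ w in 𝓝[≠] z, x w ≠ 0 ∨ y w ≠ 0) → ∃ K : ℝ, 0 ≤ K ∧ ∀ ε, 0 < ε → ε ≤ 1 → ∀ R, 1 ≤ R →
      ∫ z, tau R z * (cut U x y a b z ^ 2 * tn x y ε p q z) ≤ A * (∫ z, tau R z * ed x y (Kr U x y (√b)) z) + K := by
  obtain ⟨C1, hC10, hC1'⟩ := cut_bdU hb0 hab hb 1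
  obtain ⟨CX, hCX0, hCX'⟩ := enR_epsU hb0 hab hb hp hp1
  obtain ⟨CY, hCY0, hCY''⟩ := enR_epsU hb0 hab hb hq hq1
  set C0 := max (Real.log 4) (-Real.log a) with hC0
  have hC00 : 0 ≤ C0 := (Real.log_nonneg (by norm_num)).trans (le_max_left _ _)
  have hl4 : 0 ≤ Real.log 4 := Real.log_nonneg (by norm_num)
  refine ⟨((4 * C0 + 2) * C1 + 32 / a ^ 2 * (CX + CY)) / 4, by positivity, fun U x y h hne => ?_⟩
  obtain ⟨C3, hC30, hC3⟩ := avg_lb h hne hb0 hab hb hp hp1 hq hq1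
  refine ⟨(2 * Real.pi * Real.log 4 + C3 + 32 / a ^ 2 * (CX + CY)) / 4, by positivity, fun ε hε hε1 R hR => ?_⟩
  have hC1 := hC1' U x y (le' x y (Kr U x y (√b))) h (fun z => Real.sqrt_nonneg _) (le'_bd hb0)
  have hCX := hCX' U x y h x h.hx fun z hz => hz.2.1.trans hb.le
  have hCY' := hCY'' U x y h y h.hy fun z hz => hz.2.2.trans hb.le
  obtain ⟨l, hl⟩ : ∃ l, l = le' x y (Kr U x y (√b)) := ⟨_, rfl⟩
  have hli : ∀ R, 1 ≤ R → Integrable fun z => tau R z * l z ^ 2 := fun R hR => by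
    rw [hl]
    exact le'_int h hb hR
  have hE : ∀ R, (∫ z, tau R z * ed x y (Kr U x y (√b)) z) = ∫ z, tau R z * l z ^ 2 := fun R => by
    rw [hl]
    simp only [le'_sq]
  rw [← hl] at hC1
  simp only [hE] at hCX hCY' ⊢
  have hup : ∀ z ∈ Kb U x y b, ps x y ε p q z ≤ Real.log 4 := by
    intro z hz
    have h1 := pw_le_two hε hε1 hp hp1 (hz.2.1.trans hb.le)
    have h2 := pw_le_two hε hε1 hq hq1 (hz.2.2.trans hb.le)
    have h3 := pw_pos (x := x) (a := p) hε z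
    have h4 := pw_pos (x := y) (a := q) hε z
    exact Real.log_le_log (by linarith) (by linarith)
  have hlow : ∀ z ∈ Kb U x y b, ¬ Inn x y a z → a ≤ pw x ε p z + pw y ε q z := by
    intro z hz hi
    have h3 := pw_pos (x := x) (a := p) hε z
    have h4 := pw_pos (x := y) (a := q) hε z
    by_cases h5 : ‖x z‖ ^ 2 < a
    · have h6 : a ≤ ‖y z‖ ^ 2 := by
        by_contra h7
        exact hi ⟨h5, not_le.1 h7⟩
      have := le_pw hε hq hq1 (hz.2.2.trans hb.le)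
      linarith
    · have := le_pw hε hp hp1 (hz.2.1.trans hb.le)
      linarith [not_lt.1 h5]
  have c1 : Continuous fun z => cut U x y a b z ^ 2 * tn x y ε p q z := cut_mul_cont h hb0 hab hb (tn_cont h hε)
  have c2 : Continuous fun z => cut U x y a b z ^ 2 * dn x ε p z := cut_mul_cont h hb0 hab hb (dn_cont h hε)
  have c3 : Continuous fun z => cut U x y a b z ^ 2 * dn y ε q z := cut_mul_cont h hb0 hab hb (dn_cont h.symm hε)
  have key := core_int (R := R) hli (B := 1) (e := fun R => ∫ z, tau R z * l z ^ 2) (fun R hR => by rw [one_mul]) (G := fun z => cut U x y a b z ^ 2 * ps x y ε p q z)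
    (P := fun z => 4 * (cut U x y a b z ^ 2 * tn x y ε p q z))
    (Q := fun z => 32 / a ^ 2 * (cut U x y a b z ^ 2 * dn x ε p z + cut U x y a b z ^ 2 * dn y ε q z))
    (cut_mul_cd h hb0 hab hb fun z hz => ps_cd hε (h.ax hz) (h.ay hz)) (continuous_const.mul c1) (continuous_const.mul (c2.add c3)) (C := (4 * C0 + 2) * C1)
    (C2 := Real.log 4) (C3 := C3) (by positivity) (fun z => ?_) (cut_mul_le hab hl4 hup) (hC3 ε hε hε1) hR
  · have e1 : ∫ z, tau R z * (4 * (cut U x y a b z ^ 2 * tn x y ε p q z)) = 4 * ∫ z, tau R z * (cut U x y a b z ^ 2 * tn x y ε p q z) := by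
      rw [← integral_const_mul]
      refine integral_congr_ae (Eventually.of_forall fun z => ?_)
      ring
    have e2 : ∫ z, tau R z * (32 / a ^ 2 * (cut U x y a b z ^ 2 * dn x ε p z + cut U x y a b z ^ 2 * dn y ε q z)) =
        32 / a ^ 2 * ((∫ z, tau R z * (cut U x y a b z ^ 2 * dn x ε p z)) + ∫ z, tau R z * (cut U x y a b z ^ 2 * dn y ε q z)) := by
      rw [← integral_add (tau_int hR c2) (tau_int hR c3), ← integral_const_mul]
      refine integral_congr_ae (Eventually.of_forall fun z => ?_)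
      ring
    rw [e1, e2, one_mul] at key
    have k1 := hCX ε hε hε1 R hR
    have k2 := hCY' ε hε hε1 R hR
    have k3 := mul_le_mul_of_nonneg_left (add_le_add k1 k2) (show 0 ≤ 32 / a ^ 2 by positivity)
    generalize (∫ z, tau R z * (cut U x y a b z ^ 2 * tn x y ε p q z)) = I at key ⊢
    generalize (∫ z, tau R z * l z ^ 2) = J at key k3 ⊢
    have e3 : ((4 * C0 + 2) * C1 + 32 / a ^ 2 * (CX + CY)) / 4 * J + (2 * Real.pi * Real.log 4 + C3 + 32 / a ^ 2 * (CX + CY)) / 4 =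
        ((4 * C0 + 2) * C1 * J + 32 / a ^ 2 * (CX * J + CX + (CY * J + CY)) + (2 * Real.pi * Real.log 4 + C3)) / 4 := by ring
    rw [e3, le_div_iff₀ (by norm_num)]
    linarith
  · show 4 * (cut U x y a b z ^ 2 * tn x y ε p q z) ≤ Δ (fun z => cut U x y a b z ^ 2 * ps x y ε p q z) z + (4 * C0 + 2) * C1 * l z ^ 2 +
      32 / a ^ 2 * (cut U x y a b z ^ 2 * dn x ε p z + cut U x y a b z ^ 2 * dn y ε q z)
    have n1 := dn_nonneg (x := x) (a := p) hε z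
    have n2 := dn_nonneg (x := y) (a := q) hε z
    by_cases hz : z ∈ U
    · have h1 := core_pt h hb0 hab hb hC10 hC1 hz (ps_cd (p := p) (q := q) hε (h.ax hz) (h.ay hz)) (C0 := C0) (θ := 1) (H := 16 / a ^ 2 * (dn x ε p z + dn y ε q z))
        one_pos hC00 (by positivity) (fun hK hi => ?_)
      · have h2 := ps_lap_ge hε hp hq (h.ax hz) (h.ay hz)
        have h3 := mul_le_mul_of_nonneg_left h2 (sq_nonneg (cut U x y a b z))
        have e3 : (4 * C0 + 2 / 1) * C1 * l z ^ 2 = (4 * C0 + 2) * C1 * l z ^ 2 := by ring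
        have e4 : 2 * 1 * cut U x y a b z ^ 2 * (16 / a ^ 2 * (dn x ε p z + dn y ε q z)) =
          32 / a ^ 2 * (cut U x y a b z ^ 2 * dn x ε p z + cut U x y a b z ^ 2 * dn y ε q z) := by ring
        rw [e3, e4] at h1
        linarith
      · have h4 := hlow z hK hi
        have h5 := hup z hK
        have h6 : Real.log a ≤ ps x y ε p q z := Real.log_le_log ha0 h4
        refine ⟨?_, ps_gg_le hε hε1 hp hp1 hq hq1 (h.ax hz) (h.ay hz) (hK.2.1.trans hb.le) (hK.2.2.trans hb.le) ha0 h4⟩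
        rw [abs_le]
        constructor
        · have := le_max_right (Real.log 4) (-Real.log a)
          linarith
        · exact h5.trans (le_max_left _ _)
    · have hK : z ∉ Kb U x y b := fun hK => hz hK.1
      have e1 := cut_mul_zero h hb0 hab hb (ps x y ε p q) hK
      have e2 : Δ (fun w => cut U x y a b w ^ 2 * ps x y ε p q w) z = 0 := by
        rw [lap_congr e1]
        simp [InnerProductSpace.laplacian_const]
      rw [e2, cut_eq_zero hab hK]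
      have : 0 ≤ (4 * C0 + 2) * C1 * l z ^ 2 := by positivity
      have e5 : (4 : ℝ) * (0 ^ 2 * tn x y ε p q z) = 0 := by ring
      have e6 : 32 / a ^ 2 * ((0 : ℝ) ^ 2 * dn x ε p z + 0 ^ 2 * dn y ε q z) = 0 := by ring
      rw [e5, e6]
      linarith

/-- the second energy estimate; only the additive constant depends on the curve -/
theorem enTU {p q r : ℝ} (hp : 0 < p) (hp1 : p ≤ 1) (hq : 0 < q) (hq1 : q ≤ 1) (hr : r < 1) : ∃ A r' : ℝ, 0 ≤ A ∧ r' < 1 ∧ ∀ (U : Set ℂ) (x y : ℂ → ℂ), Crd U x y →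
    (∀ z ∈ U, ∀ᶠ w in 𝓝[≠] z, x w ≠ 0 ∨ y w ≠ 0) → ∃ K : ℝ, ∀ R, 1 ≤ R →
      Integrable (fun z => tau R z * (Kr U x y r ∩ {z | x z ≠ 0 ∧ y z ≠ 0}).indicator (td x y p q) z) ∧
      ∫ z, tau R z * (Kr U x y r ∩ {z | x z ≠ 0 ∧ y z ≠ 0}).indicator (td x y p q) z ≤ A * (∫ z, tau R z * ed x y (Kr U x y r') z) + K := by
  obtain ⟨a, b, hb0, hab, hb, ha0, hra⟩ := exists_par hr
  obtain ⟨A, hA0, hA⟩ := enT_epsU ha0 hb0 hab hb hp hp1 hq hq1
  refine ⟨A, √b, hA0, sqrt_lt_one' hb, fun U x y h hne => ?_⟩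
  obtain ⟨K, hK0, hK⟩ := hA U x y h hne
  refine ⟨K, fun R hR => ?_⟩
  have hT := meas_ne2 h hr
  have hε : ∀ n : ℕ, 0 < 1 / ((n : ℝ) + 1) := fun n => by positivity
  have hε1 : ∀ n : ℕ, 1 / ((n : ℝ) + 1) ≤ 1 := fun n => by
    rw [div_le_one (by positivity)]
    linarith [(Nat.cast_nonneg n : (0 : ℝ) ≤ n)]
  have hE0 : 0 ≤ ∫ z, tau R z * ed x y (Kr U x y (√b)) z := integral_nonneg fun z => mul_nonneg (tau_nonneg hR z) (ed_nonneg _ _)
  refine fatou_real (S := Kr U x y r ∩ {z | x z ≠ 0 ∧ y z ≠ 0}) (f := fun n z => tau R z * (cut U x y a b z ^ 2 * tn x y (1 / ((n : ℝ) + 1)) p q z)) (by positivity)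
    (fun n => tau_int hR (cut_mul_cont h hb0 hab hb (tn_cont h (hε n)))) (fun n z => mul_nonneg (tau_nonneg hR z) (mul_nonneg (sq_nonneg _) (tn_nonneg (hε n) z)))
    (fun n => hK _ (hε n) (hε1 n) R hR) ?_ (fun z => mul_nonneg (tau_nonneg hR z) (Set.indicator_nonneg (fun z _ => td_nonneg _ _ _ _ z) z)) (fun z hz => ?_) fun z hz => ?_
  · refine (contDiff_tau R).continuous.aestronglyMeasurable.mul ?_
    exact td_meas h.isOpen h.hx h.hy hT (fun z hz => hz.1.1) (fun z hz => hz.2) p q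
  · rw [Set.indicator_of_notMem hz, mul_zero]
  · rw [Set.indicator_of_mem hz]
    refine Tendsto.const_mul _ ?_
    simp only [cut_Kr h hab hra hz.1, one_pow, one_mul]
    unfold tn td
    have h1 := Real.rpow_pos_of_pos (norm_pos_iff.2 hz.2.1) (2 * p)
    have h2 := Real.rpow_pos_of_pos (norm_pos_iff.2 hz.2.2) (2 * q)
    exact (((pw_lim hz.2.1).mul (pw_lim hz.2.2)).div (((pw_lim hz.2.1).add (pw_lim hz.2.2)).pow 2) (by positivity)).mul (wv_lim hz.2.1 hz.2.2)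

end Pool.Agent.MQ3

end
end

section

/-!
# MQ3 EnV: the energy estimates on compact sets, for the lifts, with constants which do not depend on the curve
-/

set_option autoImplicit false

open MeasureTheory Topology Filter Metric Laplacian

noncomputable section

namespace Pool.Agent.MQ3

open Pool.Agent.MQ
open Pool.Agent.H30M (tau tau_nonneg contDiff_tau hcs_tau)

/-- the energy of a density -/
def eL (lm : ℂ → ℝ) (R : ℝ) : ℝ := ∫ z, tau R z * lm z ^ 2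

/-- a curve in the set `B`, and a density which bounds its speed on the compact subsets of `B` -/
structure CrvU (B : Set (ℂ × ℂ)) (CK : Set (ℂ × ℂ) → ℝ) (U : Set ℂ) (p : ℂ → ℂ × ℂ) (lm : ℂ → ℝ) : Prop where
  isOpen : IsOpen U
  an : ∀ z ∈ U, AnalyticAt ℂ p z
  mem : ∀ z ∈ U, p z ∈ B
  closed : ∀ K ⊆ B, IsCompact K → IsClosed {z | z ∈ U ∧ p z ∈ K}
  cont : Continuous lm
  nonneg : ∀ z, 0 ≤ lm z
  le : ∀ K ⊆ B, IsCompact K → ∀ z ∈ U, p z ∈ K → ‖deriv p z‖ ≤ CK K * lm z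

variable {B : Set (ℂ × ℂ)} {CK : Set (ℂ × ℂ) → ℝ} {U : Set ℂ} {p : ℂ → ℂ × ℂ} {lm : ℂ → ℝ}

theorem CrvU.fst (h : CrvU B CK U p lm) : DifferentiableOn ℂ (fun z => (p z).1) U := fun z hz =>
  (h.an z hz).differentiableAt.fst.differentiableWithinAt

theorem CrvU.snd (h : CrvU B CK U p lm) : DifferentiableOn ℂ (fun z => (p z).2) U := fun z hz =>
  (h.an z hz).differentiableAt.snd.differentiableWithinAt

theorem CrvU.crd (h : CrvU B CK U p lm) {q : ℂ × ℂ} {s : ℝ} (hs : 0 < s) (hB : closedBall q s ⊆ B) : Crd U (cx p q s) (cy p q s) := by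
  refine ⟨h.isOpen, (h.fst.sub_const _).div_const _, (h.snd.sub_const _).div_const _, fun r hr => ?_⟩
  have h1 : {z | z ∈ U ∧ ‖cx p q s z‖ ≤ r ∧ ‖cy p q s z‖ ≤ r} = Kr U (cx p q s) (cy p q s) r := rfl
  rw [h1, Kr_eq hs]
  refine h.closed _ (Set.Subset.trans (closedBall_subset_closedBall ?_) hB) (isCompact_closedBall _ _)
  nlinarith

theorem CrvU.energy_ed (h : CrvU B CK U p lm) {q : ℂ × ℂ} {s : ℝ} (hs : 0 < s) (hB : closedBall q s ⊆ B) {r : ℝ} (hr : r < 1) {R : ℝ} (hR : 1 ≤ R) :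
    ∫ z, tau R z * ed (cx p q s) (cy p q s) (Kr U (cx p q s) (cy p q s) r) z ≤ 2 / s ^ 2 * CK (closedBall q (r * s)) ^ 2 * eL lm R := by
  have hcr := h.crd hs hB
  have hsub : closedBall q (r * s) ⊆ B := Set.Subset.trans (closedBall_subset_closedBall (by nlinarith)) hB
  have i1 := ed_int hcr hR (Kr_closed hcr hr) fun z hz => hz.1
  have i2 := (tau_int hR (h.cont.pow 2)).const_mul (2 / s ^ 2 * CK (closedBall q (r * s)) ^ 2)
  unfold eL
  rw [← integral_const_mul]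
  refine integral_mono i1 i2 fun z => ?_
  have h2 : ed (cx p q s) (cy p q s) (Kr U (cx p q s) (cy p q s) r) z ≤ 2 / s ^ 2 * CK (closedBall q (r * s)) ^ 2 * lm z ^ 2 := by
    unfold ed
    rw [Kr_eq hs]
    by_cases hz : z ∈ {z | z ∈ U ∧ p z ∈ closedBall q (r * s)}
    · rw [Set.indicator_of_mem hz]
      have h3 := h.le _ hsub (isCompact_closedBall _ _) z hz.1 hz.2
      have h4 := pow_le_pow_left₀ (norm_nonneg _) h3 2
      have h5 := norm_deriv_pair (h.an z hz.1) q hs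
      have h6 := mul_le_mul_of_nonneg_left h4 (show 0 ≤ 2 / s ^ 2 by positivity)
      rw [mul_pow] at h6
      linarith
    · rw [Set.indicator_of_notMem hz]
      positivity
  have := mul_le_mul_of_nonneg_left h2 (tau_nonneg hR z)
  show tau R z * ed (cx p q s) (cy p q s) (Kr U (cx p q s) (cy p q s) r) z ≤ 2 / s ^ 2 * CK (closedBall q (r * s)) ^ 2 * (tau R z * lm z ^ 2)
  linarith

/-- the energy of a function on a compact set; the constant does not depend on the curve -/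
theorem enVB (hBo : IsOpen B) (CK : Set (ℂ × ℂ) → ℝ) {K : Set (ℂ × ℂ)} (hK : IsCompact K) (hKB : K ⊆ B) {a : ℝ} (ha : 0 < a) (ha1 : a ≤ 1) :
    ∃ A : ℝ, 0 ≤ A ∧ ∀ (U : Set ℂ) (p : ℂ → ℂ × ℂ) (lm : ℂ → ℝ), CrvU B CK U p lm → ∀ v : ℂ → ℂ, DifferentiableOn ℂ v U → (∀ z ∈ U, ‖v z‖ ≤ 1) →
      EU A (eL lm) ({z | z ∈ U ∧ p z ∈ K} ∩ {z | v z ≠ 0}) fun z => ‖v z‖ ^ (2 * a - 2) * ‖deriv v z‖ ^ 2 := by
  have hex : ∀ q ∈ K, ∃ s : ℝ, 0 < s ∧ closedBall q s ⊆ B := fun q hq => Metric.nhds_basis_closedBall.mem_iff.1 (hBo.mem_nhds (hKB hq))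
  choose! s hs hsB using hex
  obtain ⟨t, htK, ht⟩ := hK.elim_nhds_subcover (fun q => ball q (s q / 2)) fun q hq => ball_mem_nhds q (half_pos (hs q hq))
  obtain ⟨A₀, r', hA₀, hr', hE⟩ := enRVU ha ha1 (show (1 / 2 : ℝ) < 1 by norm_num)
  refine ⟨1 * ∑ q ∈ t, A₀ * (2 / s q ^ 2 * CK (closedBall q (r' * s q)) ^ 2), by positivity, fun U p lm h v hv hv1 => ?_⟩
  have hm : MeasurableSet ({z | z ∈ U ∧ p z ∈ K} ∩ {z | v z ≠ 0}) := meas_ne' (h.closed K hKB hK) (hv.continuousOn.mono fun z hz => hz.1)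
  refine EU.of_cover (D := 1) t (A := fun q => A₀ * (2 / s q ^ 2 * CK (closedBall q (r' * s q)) ^ 2))
    (S := fun q => Kr U (cx p q (s q)) (cy p q (s q)) (1 / 2) ∩ {z | v z ≠ 0})
    (f := fun _ z => ‖v z‖ ^ (2 * a - 2) * ‖deriv v z‖ ^ 2) (fun q hq => ?_) (fun _ _ z _ => by positivity) zero_le_one ?_ (fun z _ => by positivity) fun z hz => ?_
  · refine ⟨A₀, fun R hR => ?_⟩
    obtain ⟨h1, h2⟩ := hE U _ _ (h.crd (hs q (htK q hq)) (hsB q (htK q hq))) v hv (fun z hz _ _ => hv1 z hz) R hR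
    refine ⟨h1, h2.trans ?_⟩
    have h3 := mul_le_mul_of_nonneg_left (h.energy_ed (hs q (htK q hq)) (hsB q (htK q hq)) hr' hR) hA₀
    have e1 : A₀ * (2 / s q ^ 2 * CK (closedBall q (r' * s q)) ^ 2) * eL lm R = A₀ * (2 / s q ^ 2 * CK (closedBall q (r' * s q)) ^ 2 * eL lm R) := by ring
    rw [e1]
    linarith
  · refine meas_ind hm ?_
    have c1 : ContinuousOn v ({z | z ∈ U ∧ p z ∈ K} ∩ {z | v z ≠ 0}) := hv.continuousOn.mono fun z hz => hz.1.1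
    have c2 : ContinuousOn (deriv v) ({z | z ∈ U ∧ p z ∈ K} ∩ {z | v z ≠ 0}) := (hv.deriv h.isOpen).continuousOn.mono fun z hz => hz.1.1
    exact (c1.norm.rpow_const fun z hz => Or.inl (norm_ne_zero_iff.2 hz.2)).mul (c2.norm.pow 2)
  · obtain ⟨q, hq, hzq⟩ := Set.mem_iUnion₂.1 (ht hz.1.2)
    refine ⟨q, hq, ⟨?_, hz.2⟩, by rw [one_mul]⟩
    rw [Kr_eq (hs q (htK q hq))]
    refine ⟨hz.1.1, ball_subset_closedBall ?_⟩
    have : (1 : ℝ) / 2 * s q = s q / 2 := by ring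
    rw [this]
    exact hzq

theorem meas_xy (h : CrvU B CK U p lm) {K : Set (ℂ × ℂ)} (hK : IsCompact K) (hKB : K ⊆ B) :
    MeasurableSet ({z | z ∈ U ∧ p z ∈ K} ∩ {z | (p z).1 ≠ 0 ∧ (p z).2 ≠ 0}) := by
  have hcl := h.closed K hKB hK
  have h1 := meas_ne' hcl (v := fun z => (p z).1) (h.fst.continuousOn.mono fun z hz => hz.1)
  have h2 := meas_ne' hcl (v := fun z => (p z).2) (h.snd.continuousOn.mono fun z hz => hz.1)
  have h3 : {z | z ∈ U ∧ p z ∈ K} ∩ {z | (p z).1 ≠ 0 ∧ (p z).2 ≠ 0} =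
      ({z | z ∈ U ∧ p z ∈ K} ∩ {z | (p z).1 ≠ 0}) ∩ ({z | z ∈ U ∧ p z ∈ K} ∩ {z | (p z).2 ≠ 0}) := by
    ext z
    constructor
    · rintro ⟨h4, h5, h6⟩
      exact ⟨⟨h4, h5⟩, h4, h6⟩
    · rintro ⟨⟨h4, h5⟩, _, h6⟩
      exact ⟨h4, h5, h6⟩
  rw [h3]
  exact h1.inter h2

/-- the second energy on a compact set; the constant does not depend on the curve -/
theorem enTB (hBo : IsOpen B) (hB1 : ∀ q ∈ B, ‖q.1‖ ≤ 1 ∧ ‖q.2‖ ≤ 1) (CK : Set (ℂ × ℂ) → ℝ) {K : Set (ℂ × ℂ)} (hK : IsCompact K) (hKB : K ⊆ B)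
    {a b : ℝ} (ha : 0 < a) (ha1 : a ≤ 1) (hb : 0 < b) (hb1 : b ≤ 1) :
    ∃ A : ℝ, 0 ≤ A ∧ ∀ (U : Set ℂ) (p : ℂ → ℂ × ℂ) (lm : ℂ → ℝ), CrvU B CK U p lm → (∀ z ∈ U, ∀ᶠ w in 𝓝[≠] z, (p w).1 ≠ 0 ∨ (p w).2 ≠ 0) →
      EU A (eL lm) ({z | z ∈ U ∧ p z ∈ K} ∩ {z | (p z).1 ≠ 0 ∧ (p z).2 ≠ 0}) (td (fun z => (p z).1) (fun z => (p z).2) a b) := by
  obtain ⟨A₁, hA₁, hE₁⟩ := enVB hBo CK hK hKB ha ha1
  obtain ⟨A₂, hA₂, hE₂⟩ := enVB hBo CK hK hKB hb hb1
  obtain ⟨c, D₀, A₀, hc, hc1, hD0, hA₀, hcov'⟩ : ∃ (c D₀ A₀ : ℝ), 0 < c ∧ c ≤ 1 ∧ 0 ≤ D₀ ∧ 0 ≤ A₀ ∧ ∀ (U : Set ℂ) (p : ℂ → ℂ × ℂ) (lm : ℂ → ℝ), CrvU B CK U p lm →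
      (∀ z ∈ U, ∀ᶠ w in 𝓝[≠] z, (p w).1 ≠ 0 ∨ (p w).2 ≠ 0) → ∃ (S₀ : Set ℂ) (f₀ : ℂ → ℝ), EU A₀ (eL lm) S₀ f₀ ∧ (∀ z ∈ S₀, 0 ≤ f₀ z) ∧
      ∀ z ∈ U, p z ∈ K → (p z).1 ≠ 0 → (p z).2 ≠ 0 → (z ∈ S₀ ∧ td (fun z => (p z).1) (fun z => (p z).2) a b z ≤ D₀ * f₀ z) ∨ c ≤ ‖(p z).1‖ ∨ c ≤ ‖(p z).2‖ := by
    by_cases h0 : (0 : ℂ × ℂ) ∈ B
    · obtain ⟨s₁, hs₁, hB₁⟩ := Metric.nhds_basis_closedBall.mem_iff.1 (hBo.mem_nhds h0)
      set s := min s₁ 1 with hsd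
      have hs : 0 < s := lt_min hs₁ one_pos
      have hs1 : s ≤ 1 := min_le_right _ _
      have hB : closedBall (0 : ℂ × ℂ) s ⊆ B := (closedBall_subset_closedBall (min_le_left _ _)).trans hB₁
      obtain ⟨A₀, r', hA₀, hr', hE⟩ := enTU ha ha1 hb hb1 (show (1 / 2 : ℝ) < 1 by norm_num)
      refine ⟨s / 2, 1 / s ^ 4, A₀ * (2 / s ^ 2 * CK (closedBall 0 (r' * s)) ^ 2), by positivity, by linarith, by positivity, by positivity, fun U p lm h hne => ?_⟩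
      have hcr := h.crd hs hB
      have hcx : ∀ w, cx p 0 s w = (p w).1 / s := fun w => by
        unfold cx
        rw [Prod.fst_zero, sub_zero]
      have hcy : ∀ w, cy p 0 s w = (p w).2 / s := fun w => by
        unfold cy
        rw [Prod.snd_zero, sub_zero]
      have hsc : (s : ℂ) ≠ 0 := Complex.ofReal_ne_zero.2 hs.ne'
      have hne' : ∀ z ∈ U, ∀ᶠ w in 𝓝[≠] z, cx p 0 s w ≠ 0 ∨ cy p 0 s w ≠ 0 := by
        intro z hz
        filter_upwards [hne z hz] with w hw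
        rcases hw with hw | hw
        · left
          rw [hcx]
          exact div_ne_zero hw hsc
        · right
          rw [hcy]
          exact div_ne_zero hw hsc
      obtain ⟨K₀, hK₀⟩ := hE U _ _ hcr hne'
      refine ⟨_, td (cx p 0 s) (cy p 0 s) a b, ⟨K₀, fun R hR => ⟨(hK₀ R hR).1, (hK₀ R hR).2.trans ?_⟩⟩, fun z _ => td_nonneg _ _ _ _ z, ?_⟩
      · have h3 := mul_le_mul_of_nonneg_left (h.energy_ed hs hB hr' hR) hA₀
        have e1 : A₀ * (2 / s ^ 2 * CK (closedBall 0 (r' * s)) ^ 2) * eL lm R = A₀ * (2 / s ^ 2 * CK (closedBall 0 (r' * s)) ^ 2 * eL lm R) := by ring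
        rw [e1]
        linarith
      intro z hz hzK hxz hyz
      by_cases hin : p z ∈ closedBall (0 : ℂ × ℂ) (1 / 2 * s)
      · left
        refine ⟨⟨?_, ?_, ?_⟩, td_scale ha ha1 hb hb1 hs hs1 hxz hyz hcx hcy⟩
        · rw [Kr_eq hs]
          exact ⟨hz, hin⟩
        · rw [hcx]
          exact div_ne_zero hxz hsc
        · rw [hcy]
          exact div_ne_zero hyz hsc
      · right
        rw [mem_closedBall_zero_iff, not_le, Prod.norm_def, lt_sup_iff] at hin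
        rcases hin with hin | hin
        · left
          linarith
        · right
          linarith
    · have h1 : (0 : ℂ × ℂ) ∉ K := fun h2 => h0 (hKB h2)
      obtain ⟨r, hr, hr2⟩ := Metric.nhds_basis_ball.mem_iff.1 (hK.isClosed.isOpen_compl.mem_nhds h1)
      refine ⟨min r 1, 0, 0, lt_min hr one_pos, min_le_right _ _, le_rfl, le_rfl, fun U p lm h hne => ⟨∅, fun _ => 0, EU.empty, fun _ _ => le_rfl,
        fun z hz hzK hxz hyz => Or.inr ?_⟩⟩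
      have h2 : r ≤ ‖p z‖ := by
        by_contra h3
        exact hr2 (mem_ball_zero_iff.2 (not_le.1 h3)) hzK
      rw [Prod.norm_def, le_sup_iff] at h2
      rcases h2 with h2 | h2
      · exact Or.inl ((min_le_left _ _).trans h2)
      · exact Or.inr ((min_le_left _ _).trans h2)
  refine ⟨(D₀ + 4 / c ^ 4) * ∑ j : Fin 3, ![A₀, A₁, A₂] j, ?_, fun U p lm h hne => ?_⟩
  · have : 0 ≤ ∑ j : Fin 3, ![A₀, A₁, A₂] j := Finset.sum_nonneg fun j _ => by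
      fin_cases j
      · exact hA₀
      · exact hA₁
      · exact hA₂
    positivity
  obtain ⟨S₀, f₀, hS0, hf0, hcov⟩ := hcov' U p lm h hne
  set x : ℂ → ℂ := fun z => (p z).1 with hxd
  set y : ℂ → ℂ := fun z => (p z).2 with hyd
  have hx1 : ∀ z ∈ U, ‖x z‖ ≤ 1 := fun z hz => (hB1 _ (h.mem z hz)).1
  have hy1 : ∀ z ∈ U, ‖y z‖ ≤ 1 := fun z hz => (hB1 _ (h.mem z hz)).2
  have e1 := hE₁ U p lm h x h.fst hx1
  have e2 := hE₂ U p lm h y h.snd hy1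
  have hT := meas_xy h hK hKB
  set f₁ : ℂ → ℝ := fun z => ‖x z‖ ^ (2 * a - 2) * ‖deriv x z‖ ^ 2 with hf1
  set f₂ : ℂ → ℝ := fun z => ‖y z‖ ^ (2 * b - 2) * ‖deriv y z‖ ^ 2 with hf2
  have f1n : ∀ z, 0 ≤ f₁ z := fun z => by positivity
  have f2n : ∀ z, 0 ≤ f₂ z := fun z => by positivity
  refine EU.of_cover (D := D₀ + 4 / c ^ 4) (Finset.univ : Finset (Fin 3)) (A := ![A₀, A₁, A₂])
    (S := ![S₀, {z | z ∈ U ∧ p z ∈ K} ∩ {z | x z ≠ 0}, {z | z ∈ U ∧ p z ∈ K} ∩ {z | y z ≠ 0}])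
    (f := ![f₀, f₁, f₂]) (fun j _ => ?_) (fun j _ => ?_) (by positivity) (td_meas h.isOpen h.fst h.snd hT (fun z hz => hz.1.1) (fun z hz => hz.2) a b)
    (fun z _ => td_nonneg _ _ _ _ z) fun z hz => ?_
  · fin_cases j
    · exact hS0
    · exact e1
    · exact e2
  · fin_cases j
    · exact hf0
    · exact fun z _ => f1n z
    · exact fun z _ => f2n z
  · rcases hcov z hz.1.1 hz.1.2 hz.2.1 hz.2.2 with ⟨h1, h2⟩ | h1
    · refine ⟨0, Finset.mem_univ _, h1, h2.trans ?_⟩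
      show D₀ * f₀ z ≤ (D₀ + 4 / c ^ 4) * f₀ z
      have := hf0 z h1
      have : 0 ≤ 4 / c ^ 4 * f₀ z := by positivity
      linarith
    · have h2 := td_le ha ha1 hb hb1 hc hc1 hz.2.1 hz.2.2 (hx1 z hz.1.1) (hy1 z hz.1.1) h1
      have hcc : 0 ≤ 2 / c ^ 4 := by positivity
      rcases le_total (f₁ z) (f₂ z) with h3 | h3
      · refine ⟨2, Finset.mem_univ _, ⟨hz.1, hz.2.2⟩, h2.trans ?_⟩
        show 2 / c ^ 4 * (f₁ z + f₂ z) ≤ (D₀ + 4 / c ^ 4) * f₂ z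
        have h4 : 2 / c ^ 4 * (f₁ z + f₂ z) ≤ 2 / c ^ 4 * (f₂ z + f₂ z) := by gcongr
        have h5 : 0 ≤ D₀ * f₂ z := mul_nonneg hD0 (f2n z)
        calc _ ≤ _ := h4
          _ = 4 / c ^ 4 * f₂ z := by ring
          _ ≤ _ := by linarith
      · refine ⟨1, Finset.mem_univ _, ⟨hz.1, hz.2.1⟩, h2.trans ?_⟩
        show 2 / c ^ 4 * (f₁ z + f₂ z) ≤ (D₀ + 4 / c ^ 4) * f₁ z
        have h4 : 2 / c ^ 4 * (f₁ z + f₂ z) ≤ 2 / c ^ 4 * (f₁ z + f₁ z) := by gcongr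
        have h5 : 0 ≤ D₀ * f₁ z := mul_nonneg hD0 (f1n z)
        calc _ ≤ _ := h4
          _ = 4 / c ^ 4 * f₁ z := by ring
          _ ≤ _ := by linarith

/-! ## the lifts -/

section

variable {V : Set ℂ} {x y s t : ℂ → ℂ}

theorem coef_geM {u α β M : ℝ} (hu : 0 < u) (hM : 1 ≤ M) (hu1 : u ≤ M) (h1 : α - β ≤ 2) (h2 : β - α ≤ 2) :
    u ^ 2 / (4 * M ^ 4) ≤ u ^ α * u ^ β / (u ^ α + u ^ β) ^ 2 := by
  have hM4 : (1 : ℝ) ≤ M ^ 4 := one_le_pow₀ hM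
  rcases le_total u 1 with h | h
  · refine le_trans ?_ (coef_ge hu h h1 h2)
    exact div_le_div_of_nonneg_left (by positivity) (by norm_num) (by linarith)
  · have h3 := coef_ge (u := u⁻¹) (α := -α) (β := -β) (inv_pos.2 hu) (inv_le_one_of_one_le₀ h) (by linarith) (by linarith)
    rw [Real.inv_rpow hu.le, Real.inv_rpow hu.le, Real.rpow_neg hu.le, Real.rpow_neg hu.le, inv_inv, inv_inv] at h3
    refine le_trans ?_ h3
    rw [div_le_div_iff₀ (by positivity) (by norm_num)]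
    have h4 : u ^ 4 ≤ M ^ 4 := pow_le_pow_left₀ hu.le hu1 4
    have h5 : u⁻¹ ^ 2 * u ^ 4 = u ^ 2 := by field_simp
    nlinarith [sq_nonneg (u⁻¹), mul_le_mul_of_nonneg_left h4 (sq_nonneg (u⁻¹))]

/-- the pointwise estimate, interior case -/
theorem pt_TM {M : ℝ} (hM1 : 1 ≤ M) (hV : IsOpen V) (hs : DifferentiableOn ℂ s V) (ht : DifferentiableOn ℂ t V) {a b c d : ℕ} (hD : (a : ℤ) * d - b * c ≠ 0)
    (hb : 1 ≤ b) (hd : 1 ≤ d) (hx : ∀ z ∈ V, x z = s z ^ a * t z ^ b) (hy : ∀ z ∈ V, y z = s z ^ c * t z ^ d) {z : ℂ} (hz : z ∈ V)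
    (hs0 : s z ≠ 0) (ht0 : t z ≠ 0) (hs1 : ‖s z‖ ≤ M) :
    ‖deriv s z‖ ^ 2 ≤ 4 * M ^ 4 * ((b : ℝ) * d) ^ 2 * td x y (1 / (|(a : ℝ) * d - b * c| * b)) (1 / (|(a : ℝ) * d - b * c| * d)) z := by
  have hDR : (a : ℝ) * d - b * c ≠ 0 := by exact_mod_cast hD
  set D : ℝ := (a : ℝ) * d - b * c with hDd
  have hD1 : 1 ≤ |D| := by
    have h1 : (1 : ℤ) ≤ |(a : ℤ) * d - b * c| := Int.one_le_abs hD
    have h2 : ((|(a : ℤ) * d - b * c| : ℤ) : ℝ) = |D| := by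
      rw [Int.cast_abs]
      push_cast
      rfl
    rw [← h2]
    exact_mod_cast h1
  have hDpos : 0 < |D| := by linarith
  have hb' : (0 : ℝ) < b := by exact_mod_cast hb
  have hd' : (0 : ℝ) < d := by exact_mod_cast hd
  have hbd1 : (1 : ℝ) ≤ b * d := by
    have : 1 ≤ b * d := Nat.one_le_iff_ne_zero.2 (by positivity)
    exact_mod_cast this
  have hu : 0 < ‖s z‖ := norm_pos_iff.2 hs0
  have hv : 0 < ‖t z‖ := norm_pos_iff.2 ht0
  set p : ℝ := 1 / (|D| * b) with hp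
  set q : ℝ := 1 / (|D| * d) with hq
  have hpb : p * b = 1 / |D| := by rw [hp]; field_simp
  have hqd : q * d = 1 / |D| := by rw [hq]; field_simp
  set T : ℝ := ‖t z‖ ^ (2 * (1 / |D|)) with hT
  have hTpos : 0 < T := Real.rpow_pos_of_pos hv _
  have ex : ‖x z‖ ^ (2 * p) = ‖s z‖ ^ (2 * p * a) * T := by
    rw [hx z hz, norm_mul, norm_pow, norm_pow, Real.mul_rpow (by positivity) (by positivity), ← Real.rpow_natCast, ← Real.rpow_natCast,
      ← Real.rpow_mul hu.le, ← Real.rpow_mul hv.le, hT, ← hpb]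
    congr 2 <;> ring
  have ey : ‖y z‖ ^ (2 * q) = ‖s z‖ ^ (2 * q * c) * T := by
    rw [hy z hz, norm_mul, norm_pow, norm_pow, Real.mul_rpow (by positivity) (by positivity), ← Real.rpow_natCast, ← Real.rpow_natCast,
      ← Real.rpow_mul hu.le, ← Real.rpow_mul hv.le, hT, ← hqd]
    congr 2 <;> ring
  have hA := Real.rpow_pos_of_pos hu (2 * p * a)
  have hB := Real.rpow_pos_of_pos hu (2 * q * c)
  have hcoef : ‖x z‖ ^ (2 * p) * ‖y z‖ ^ (2 * q) / (‖x z‖ ^ (2 * p) + ‖y z‖ ^ (2 * q)) ^ 2 =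
      ‖s z‖ ^ (2 * p * a) * ‖s z‖ ^ (2 * q * c) / (‖s z‖ ^ (2 * p * a) + ‖s z‖ ^ (2 * q * c)) ^ 2 := by
    rw [ex, ey]
    field_simp
  have hdiff : p * a - q * c = D / (|D| * (b * d)) := by
    rw [hp, hq, hDd]
    field_simp
  have habs : |p * a - q * c| = 1 / (b * d) := by
    rw [hdiff, abs_div, abs_of_pos (show 0 < |D| * (b * d) by positivity)]
    field_simp
  have hle : |p * a - q * c| ≤ 1 := by
    rw [habs, div_le_one (by positivity)]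
    exact hbd1
  have hc1 := coef_geM hu hM1 hs1 (α := 2 * p * a) (β := 2 * q * c) (by linarith [le_abs_self (p * a - q * c)]) (by linarith [neg_abs_le (p * a - q * c)])
  have hlog : (p : ℂ) * (deriv x z / x z) - q * (deriv y z / y z) = ((p * a - q * c : ℝ) : ℂ) * (deriv s z / s z) := by
    rw [dlog_mono hV hs ht hx hz hs0 ht0, dlog_mono hV hs ht hy hz hs0 ht0]
    have h1 : ((p * b : ℝ) : ℂ) = ((q * d : ℝ) : ℂ) := by rw [hpb, hqd]
    push_cast at h1 ⊢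
    linear_combination (deriv t z / t z) * h1
  unfold td
  rw [hcoef, hlog, norm_mul, Complex.norm_real, Real.norm_eq_abs, habs, norm_div]
  have h3 : ‖s z‖ ^ 2 / (4 * M ^ 4) * (1 / (b * d) * (‖deriv s z‖ / ‖s z‖)) ^ 2 ≤
      ‖s z‖ ^ (2 * p * a) * ‖s z‖ ^ (2 * q * c) / (‖s z‖ ^ (2 * p * a) + ‖s z‖ ^ (2 * q * c)) ^ 2 * (1 / (b * d) * (‖deriv s z‖ / ‖s z‖)) ^ 2 :=
    mul_le_mul_of_nonneg_right hc1 (sq_nonneg _)
  have h4 : ‖s z‖ ^ 2 / (4 * M ^ 4) * (1 / ((b : ℝ) * d) * (‖deriv s z‖ / ‖s z‖)) ^ 2 = ‖deriv s z‖ ^ 2 / (4 * M ^ 4 * (b * d) ^ 2) := by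
    field_simp
  rw [h4] at h3
  calc ‖deriv s z‖ ^ 2 = 4 * M ^ 4 * (b * d) ^ 2 * (‖deriv s z‖ ^ 2 / (4 * M ^ 4 * (b * d) ^ 2)) := by field_simp
    _ ≤ _ := mul_le_mul_of_nonneg_left h3 (by positivity)

/-- the energy of one coordinate of a lift; the constant does not depend on the curve -/
theorem enLB_one (hBo : IsOpen B) (hB1 : ∀ q ∈ B, ‖q.1‖ ≤ 1 ∧ ‖q.2‖ ≤ 1) (CK : Set (ℂ × ℂ) → ℝ) {K : Set (ℂ × ℂ)} (hK : IsCompact K) (hKB : K ⊆ B)
    {a b c d : ℕ} (hD : (a : ℤ) * d - b * c ≠ 0) (M : ℝ) :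
    ∃ A : ℝ, 0 ≤ A ∧ ∀ (U : Set ℂ) (p : ℂ → ℂ × ℂ) (lm : ℂ → ℝ), CrvU B CK U p lm → (∀ z ∈ U, ∀ᶠ w in 𝓝[≠] z, (p w).1 ≠ 0 ∨ (p w).2 ≠ 0) →
      ∀ (V : Set ℂ) (s t : ℂ → ℂ), IsOpen V → V ⊆ U → DifferentiableOn ℂ s V → DifferentiableOn ℂ t V → (∀ z ∈ V, (p z).1 = s z ^ a * t z ^ b) →
        (∀ z ∈ V, (p z).2 = s z ^ c * t z ^ d) → ∀ T : Set ℂ, MeasurableSet T → T ⊆ V → (∀ z ∈ T, p z ∈ K ∧ ‖s z‖ ≤ M ∧ (p z).1 ≠ 0 ∧ (p z).2 ≠ 0) →
          EU A (eL lm) T fun z => ‖deriv s z‖ ^ 2 := by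
  -- `s`, `t` are not zero
  have hsne : ∀ (V : Set ℂ) (x y s t : ℂ → ℂ), (∀ z ∈ V, x z = s z ^ a * t z ^ b) → (∀ z ∈ V, y z = s z ^ c * t z ^ d) → ∀ z ∈ V, x z ≠ 0 → y z ≠ 0 → s z ≠ 0 := by
    intro V x y s t hx hy z hz hx0 hy0 h0
    rw [hx z hz, h0] at hx0
    rw [hy z hz, h0] at hy0
    have h1 : a = 0 := by
      by_contra ha
      exact hx0 (by rw [zero_pow ha, zero_mul])
    have h2 : c = 0 := by
      by_contra hc
      exact hy0 (by rw [zero_pow hc, zero_mul])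
    rw [h1, h2] at hD
    simp at hD
  have htne : ∀ (V : Set ℂ) (x y s t : ℂ → ℂ), (∀ z ∈ V, x z = s z ^ a * t z ^ b) → (∀ z ∈ V, y z = s z ^ c * t z ^ d) → ∀ z ∈ V, x z ≠ 0 → y z ≠ 0 → t z ≠ 0 := by
    intro V x y s t hx hy z hz hx0 hy0 h0
    rw [hx z hz, h0] at hx0
    rw [hy z hz, h0] at hy0
    have h1 : b = 0 := by
      by_contra ha
      exact hx0 (by rw [zero_pow ha, mul_zero])
    have h2 : d = 0 := by
      by_contra hc
      exact hy0 (by rw [zero_pow hc, mul_zero])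
    rw [h1, h2] at hD
    simp at hD
  have hmeas : ∀ (V T : Set ℂ) (s : ℂ → ℂ), IsOpen V → DifferentiableOn ℂ s V → MeasurableSet T → T ⊆ V → AEStronglyMeasurable (T.indicator fun z => ‖deriv s z‖ ^ 2) := by
    intro V T s hV hs hT hTV
    exact meas_ind hT (((hs.deriv hV).continuousOn.norm.pow 2).mono hTV)
  rcases Nat.eq_zero_or_pos b with hb | hb
  · -- `x = s ^ a`
    have ha : 1 ≤ a := by
      rcases Nat.eq_zero_or_pos a with h0 | h0
      · rw [h0, hb] at hD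
        simp at hD
      · exact h0
    have hp : (0 : ℝ) < 1 / a := by positivity
    have hp1 : 1 / (a : ℝ) ≤ 1 := by
      rw [div_le_one (by exact_mod_cast ha)]
      exact_mod_cast ha
    obtain ⟨A, hA, hE⟩ := enVB hBo CK hK hKB hp hp1
    refine ⟨1 * A, by linarith, fun U p lm h hne V s t hV hVU hs ht hx hy T hT hTV hTz => ?_⟩
    refine EU.of_le (hE U p lm h (fun z => (p z).1) h.fst fun z hz => (hB1 _ (h.mem z hz)).1) (fun z _ => by positivity) zero_le_one (hmeas V T s hV hs hT hTV)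
      (fun z _ => sq_nonneg _) (fun z hz => ?_) fun z hz => ?_
    · obtain ⟨h1, h2, h3, h4⟩ := hTz z hz
      exact ⟨⟨hVU (hTV hz), h1⟩, h3⟩
    · obtain ⟨h1, h2, h3, h4⟩ := hTz z hz
      rw [one_mul]
      exact pt_R (x := fun z => (p z).1) hV hs ha (fun z hz => by rw [hx z hz, hb, pow_zero, mul_one]) (hTV hz) (hsne V _ _ s t hx hy z (hTV hz) h3 h4)
  rcases Nat.eq_zero_or_pos d with hd | hd
  · -- `y = s ^ c`
    have hc : 1 ≤ c := by
      rcases Nat.eq_zero_or_pos c with h0 | h0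
      · rw [h0, hd] at hD
        simp at hD
      · exact h0
    have hp : (0 : ℝ) < 1 / c := by positivity
    have hp1 : 1 / (c : ℝ) ≤ 1 := by
      rw [div_le_one (by exact_mod_cast hc)]
      exact_mod_cast hc
    obtain ⟨A, hA, hE⟩ := enVB hBo CK hK hKB hp hp1
    refine ⟨1 * A, by linarith, fun U p lm h hne V s t hV hVU hs ht hx hy T hT hTV hTz => ?_⟩
    refine EU.of_le (hE U p lm h (fun z => (p z).2) h.snd fun z hz => (hB1 _ (h.mem z hz)).2) (fun z _ => by positivity) zero_le_one (hmeas V T s hV hs hT hTV)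
      (fun z _ => sq_nonneg _) (fun z hz => ?_) fun z hz => ?_
    · obtain ⟨h1, h2, h3, h4⟩ := hTz z hz
      exact ⟨⟨hVU (hTV hz), h1⟩, h4⟩
    · obtain ⟨h1, h2, h3, h4⟩ := hTz z hz
      rw [one_mul]
      exact pt_R (x := fun z => (p z).2) hV hs hc (fun z hz => by rw [hy z hz, hd, pow_zero, mul_one]) (hTV hz) (hsne V _ _ s t hx hy z (hTV hz) h3 h4)
  · -- the interior case
    have hDR : (a : ℝ) * d - b * c ≠ 0 := by exact_mod_cast hD
    have hD1 : 1 ≤ |(a : ℝ) * d - b * c| := by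
      have h1 : (1 : ℤ) ≤ |(a : ℤ) * d - b * c| := Int.one_le_abs hD
      have h2 : ((|(a : ℤ) * d - b * c| : ℤ) : ℝ) = |(a : ℝ) * d - b * c| := by
        rw [Int.cast_abs]
        push_cast
        rfl
      rw [← h2]
      exact_mod_cast h1
    have hb1 : (1 : ℝ) ≤ b := by exact_mod_cast hb
    have hd1 : (1 : ℝ) ≤ d := by exact_mod_cast hd
    have hp : 0 < 1 / (|(a : ℝ) * d - b * c| * b) := by positivity
    have hq : 0 < 1 / (|(a : ℝ) * d - b * c| * d) := by positivity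
    have hp1 : 1 / (|(a : ℝ) * d - b * c| * b) ≤ 1 := by
      rw [div_le_one (by positivity)]
      nlinarith
    have hq1 : 1 / (|(a : ℝ) * d - b * c| * d) ≤ 1 := by
      rw [div_le_one (by positivity)]
      nlinarith
    obtain ⟨A, hA, hE⟩ := enTB hBo hB1 CK hK hKB hp hp1 hq hq1
    refine ⟨4 * (max M 1) ^ 4 * ((b : ℝ) * d) ^ 2 * A, by positivity, fun U p lm h hne V s t hV hVU hs ht hx hy T hT hTV hTz => ?_⟩
    refine EU.of_le (hE U p lm h hne) (fun z _ => td_nonneg _ _ _ _ z) (by positivity) (hmeas V T s hV hs hT hTV)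
      (fun z _ => sq_nonneg _) (fun z hz => ?_) fun z hz => ?_
    · obtain ⟨h1, h2, h3, h4⟩ := hTz z hz
      exact ⟨⟨hVU (hTV hz), h1⟩, h3, h4⟩
    · obtain ⟨h1, h2, h3, h4⟩ := hTz z hz
      exact pt_TM (x := fun z => (p z).1) (y := fun z => (p z).2) (le_max_right _ _) hV hs ht hD hb hd hx hy (hTV hz) (hsne V _ _ s t hx hy z (hTV hz) h3 h4)
        (htne V _ _ s t hx hy z (hTV hz) h3 h4) (h2.trans (le_max_left _ _))

/-- the energy of a lift; the constant does not depend on the curve -/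
theorem enLB (hBo : IsOpen B) (hB1 : ∀ q ∈ B, ‖q.1‖ ≤ 1 ∧ ‖q.2‖ ≤ 1) (CK : Set (ℂ × ℂ) → ℝ) {K : Set (ℂ × ℂ)} (hK : IsCompact K) (hKB : K ⊆ B)
    {a b c d : ℕ} (hD : (a : ℤ) * d - b * c ≠ 0) (M : ℝ) :
    ∃ A : ℝ, 0 ≤ A ∧ ∀ (U : Set ℂ) (p : ℂ → ℂ × ℂ) (lm : ℂ → ℝ), CrvU B CK U p lm → (∀ z ∈ U, ∀ᶠ w in 𝓝[≠] z, (p w).1 ≠ 0 ∨ (p w).2 ≠ 0) →
      ∀ (V : Set ℂ) (s t : ℂ → ℂ), IsOpen V → V ⊆ U → DifferentiableOn ℂ s V → DifferentiableOn ℂ t V → (∀ z ∈ V, (p z).1 = s z ^ a * t z ^ b) →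
        (∀ z ∈ V, (p z).2 = s z ^ c * t z ^ d) → ∀ T : Set ℂ, MeasurableSet T → T ⊆ V → (∀ z ∈ T, p z ∈ K ∧ ‖s z‖ ≤ M ∧ ‖t z‖ ≤ M ∧ (p z).1 ≠ 0 ∧ (p z).2 ≠ 0) →
          EU A (eL lm) T fun z => max ‖deriv s z‖ ‖deriv t z‖ ^ 2 := by
  have hD' : (b : ℤ) * c - a * d ≠ 0 := by
    intro h0
    apply hD
    linarith
  obtain ⟨A₁, hA₁, hE₁⟩ := enLB_one hBo hB1 CK hK hKB hD M
  obtain ⟨A₂, hA₂, hE₂⟩ := enLB_one hBo hB1 CK hK hKB hD' M
  refine ⟨1 * ∑ j : Fin 2, ![A₁, A₂] j, ?_, fun U p lm h hne V s t hV hVU hs ht hx hy T hT hTV hTz => ?_⟩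
  · have : 0 ≤ ∑ j : Fin 2, ![A₁, A₂] j := Finset.sum_nonneg fun j _ => by
      fin_cases j
      · exact hA₁
      · exact hA₂
    linarith
  have e1 := hE₁ U p lm h hne V s t hV hVU hs ht hx hy T hT hTV fun z hz => ⟨(hTz z hz).1, (hTz z hz).2.1, (hTz z hz).2.2.2⟩
  have e2 := hE₂ U p lm h hne V t s hV hVU ht hs (fun z hz => by rw [hx z hz, mul_comm]) (fun z hz => by rw [hy z hz, mul_comm]) T hT hTV
    fun z hz => ⟨(hTz z hz).1, (hTz z hz).2.2.1, (hTz z hz).2.2.2⟩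
  have c1 := ((hs.deriv hV).continuousOn.norm).mono hTV
  have c2 := ((ht.deriv hV).continuousOn.norm).mono hTV
  refine EU.of_cover (D := 1) (Finset.univ : Finset (Fin 2)) (A := ![A₁, A₂]) (S := fun _ => T) (f := ![fun z => ‖deriv s z‖ ^ 2, fun z => ‖deriv t z‖ ^ 2])
    (fun j _ => ?_) (fun j _ => ?_) zero_le_one (meas_ind hT ((c1.sup c2).pow 2)) (fun z _ => sq_nonneg _) fun z hz => ?_
  · fin_cases j
    · exact e1
    · exact e2
  · fin_cases j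
    · exact fun z _ => sq_nonneg _
    · exact fun z _ => sq_nonneg _
  · rcases le_total ‖deriv s z‖ ‖deriv t z‖ with h1 | h1
    · refine ⟨1, Finset.mem_univ _, hz, ?_⟩
      rw [max_eq_right h1, one_mul]
      exact le_rfl
    · refine ⟨0, Finset.mem_univ _, hz, ?_⟩
      rw [max_eq_left h1, one_mul]
      exact le_rfl

end

end Pool.Agent.MQ3

end
end
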