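import Pool.Agent.H43.TL2.M38
import Pool.Agent.H43.TL2.M45
import Pool.Agent.H43.TL2.M73

/-! The parts of this file: MQ3.ChgN, MQ3.NLoc, MQ3.NLocB. -/

section

/-!
# MQ3 ChgN: change of boxes for the vectors `hA`, `hB u`

`Φ` is a change of boxes, `Ψ` its inverse.  `hA (Φ x) (DΦ w) = A hA x w`: the entries of `A` are quotients of functions which vanish on an axis by the
coordinate; `hB u' (Φ x) (DΦ w) = A (hB u x w)` with `u' ∘ Φ = U u`.  The same for `Ψ` gives `A'`.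
-/

set_option autoImplicit false

open Topology Filter Metric MvPolynomial

noncomputable section

namespace Pool.Agent.MQ3

open Pool.Agent.H36.BP (EN)

namespace ChgN

/-! ### linear maps of `EN 2` -/

/-- the linear map with the columns `a`, `b`, `c` -/
def mk3 (a b c : EN 2) : EN 2 →L[ℂ] EN 2 :=
  (EuclideanSpace.proj 0 : EN 2 →L[ℂ] ℂ).smulRight a + (EuclideanSpace.proj 1 : EN 2 →L[ℂ] ℂ).smulRight b +
    (EuclideanSpace.proj 2 : EN 2 →L[ℂ] ℂ).smulRight c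

theorem mk3_apply (a b c H : EN 2) : mk3 a b c H = H 0 • a + H 1 • b + H 2 • c := rfl

theorem analyticAt_mk3 {a b c : ℂ × ℂ → EN 2} {p : ℂ × ℂ} (ha : AnalyticAt ℂ a p) (hb : AnalyticAt ℂ b p) (hc : AnalyticAt ℂ c p) :
    AnalyticAt ℂ (fun x => mk3 (a x) (b x) (c x)) p := by
  have h : ∀ (i : Fin 3) {f : ℂ × ℂ → EN 2}, AnalyticAt ℂ f p → AnalyticAt ℂ (fun x => (EuclideanSpace.proj i : EN 2 →L[ℂ] ℂ).smulRight (f x)) p := by
    intro i f hf
    exact AnalyticAt.comp (g := fun y : EN 2 => (EuclideanSpace.proj i : EN 2 →L[ℂ] ℂ).smulRight y) (f := f)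
      ((ContinuousLinearMap.smulRightL ℂ (EN 2) (EN 2) (EuclideanSpace.proj i : EN 2 →L[ℂ] ℂ)).analyticAt _) hf
  exact ((h 0 ha).add (h 1 hb)).add (h 2 hc)

theorem analyticAt_vec3 {a b c : ℂ × ℂ → ℂ} {p : ℂ × ℂ} (ha : AnalyticAt ℂ a p) (hb : AnalyticAt ℂ b p) (hc : AnalyticAt ℂ c p) :
    AnalyticAt ℂ (fun x => (WithLp.toLp 2 ![a x, b x, c x] : EN 2)) p := by
  have h1 : AnalyticAt ℂ (fun w => (![a w, b w, c w] : Fin 3 → ℂ)) p := by
    refine AnalyticAt.pi fun i => ?_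
    fin_cases i
    · exact ha
    · exact hb
    · exact hc
  exact ((EuclideanSpace.equiv (Fin 3) ℂ).symm.toContinuousLinearMap.analyticAt _).comp h1

theorem hA_apply (p w : ℂ × ℂ) : hA p w 0 = p.2 * w.1 ∧ hA p w 1 = p.1 * w.2 ∧ hA p w 2 = 0 := ⟨rfl, rfl, rfl⟩

theorem hB_apply (u : ℂ × ℂ → ℂ) (p w : ℂ × ℂ) : hB u p w 0 = fderiv ℂ u p w ∧ hB u p w 1 = u p * w.1 ∧ hB u p w 2 = u p * w.2 := ⟨rfl, rfl, rfl⟩

theorem ext3 {H H' : EN 2} (h0 : H 0 = H' 0) (h1 : H 1 = H' 1) (h2 : H 2 = H' 2) : H = H' := by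
  ext i
  fin_cases i
  · exact h0
  · exact h1
  · exact h2

theorem hA_comb (p w w' : ℂ × ℂ) (a b : ℂ) : hA p (a • w + b • w') = a • hA p w + b • hA p w' := by
  refine ext3 ?_ ?_ ?_
  · show p.2 * (a • w + b • w').1 = a * (p.2 * w.1) + b * (p.2 * w'.1)
    simp only [Prod.fst_add, Prod.smul_fst, smul_eq_mul]
    ring
  · show p.1 * (a • w + b • w').2 = a * (p.1 * w.2) + b * (p.1 * w'.2)
    simp only [Prod.snd_add, Prod.smul_snd, smul_eq_mul]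
    ring
  · show (0 : ℂ) = a * 0 + b * 0
    ring

theorem hB_comb (u : ℂ × ℂ → ℂ) (p w w' : ℂ × ℂ) (a b : ℂ) : hB u p (a • w + b • w') = a • hB u p w + b • hB u p w' := by
  refine ext3 ?_ ?_ ?_
  · show fderiv ℂ u p (a • w + b • w') = a * fderiv ℂ u p w + b * fderiv ℂ u p w'
    rw [map_add, map_smul, map_smul, smul_eq_mul, smul_eq_mul]
  · show u p * (a • w + b • w').1 = a * (u p * w.1) + b * (u p * w'.1)
    simp only [Prod.fst_add, Prod.smul_fst, smul_eq_mul]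
    ring
  · show u p * (a • w + b • w').2 = a * (u p * w.2) + b * (u p * w'.2)
    simp only [Prod.snd_add, Prod.smul_snd, smul_eq_mul]
    ring

theorem analyticAt_hA {q w : ℂ × ℂ → ℂ × ℂ} {p : ℂ × ℂ} (hq : AnalyticAt ℂ q p) (hw : AnalyticAt ℂ w p) : AnalyticAt ℂ (fun x => hA (q x) (w x)) p :=
  analyticAt_vec3 ((analyticAt_snd.fun_comp hq).mul (analyticAt_fst.fun_comp hw)) ((analyticAt_fst.fun_comp hq).mul (analyticAt_snd.fun_comp hw))
    analyticAt_const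

theorem analyticAt_hB {u : ℂ × ℂ → ℂ} {q w : ℂ × ℂ → ℂ × ℂ} {p : ℂ × ℂ} (hu : AnalyticAt ℂ u (q p)) (hq : AnalyticAt ℂ q p) (hw : AnalyticAt ℂ w p) :
    AnalyticAt ℂ (fun x => hB u (q x) (w x)) p := by
  have h1 : AnalyticAt ℂ (fun x => u (q x)) p := hu.fun_comp hq
  have h2 : AnalyticAt ℂ (fun x => fderiv ℂ u (q x)) p := hu.fderiv.fun_comp hq
  have h3 : AnalyticAt ℂ (fun x => fderiv ℂ u (q x) (w x)) p :=
    AnalyticAt.comp (g := fun z : (ℂ × ℂ →L[ℂ] ℂ) × (ℂ × ℂ) => z.1 z.2) (f := fun x => (fderiv ℂ u (q x), w x))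
      (ContinuousLinearMap.analyticAt_bilinear (ContinuousLinearMap.id ℂ (ℂ × ℂ →L[ℂ] ℂ)) _) (h2.prod hw)
  exact analyticAt_vec3 h3 (h1.mul (analyticAt_fst.fun_comp hw)) (h1.mul (analyticAt_snd.fun_comp hw))

theorem analyticAt_fderiv_comp {f : ℂ × ℂ → ℂ × ℂ} {q w : ℂ × ℂ → ℂ × ℂ} {p : ℂ × ℂ} (hf : AnalyticAt ℂ f (q p)) (hq : AnalyticAt ℂ q p)
    (hw : AnalyticAt ℂ w p) : AnalyticAt ℂ (fun x => fderiv ℂ f (q x) (w x)) p := by
  have h2 : AnalyticAt ℂ (fun x => fderiv ℂ f (q x)) p := hf.fderiv.fun_comp hq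
  exact AnalyticAt.comp (g := fun z : (ℂ × ℂ →L[ℂ] ℂ × ℂ) × (ℂ × ℂ) => z.1 z.2) (f := fun x => (fderiv ℂ f (q x), w x))
    (ContinuousLinearMap.analyticAt_bilinear (ContinuousLinearMap.id ℂ (ℂ × ℂ →L[ℂ] ℂ × ℂ)) _) (h2.prod hw)

/-! ### the vectors and general linear maps: `L w` is a linear function of `hA x w` off the axes, of `hB u x w` where `u ≠ 0` -/

theorem lin_hA {x : ℂ × ℂ} (h1 : x.1 ≠ 0) (h2 : x.2 ≠ 0) (L : ℂ × ℂ → EN 2) (hL : ∀ w w' : ℂ × ℂ, ∀ a b : ℂ, L (a • w + b • w') = a • L w + b • L w')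
    (w : ℂ × ℂ) : L w = mk3 (L (x.2⁻¹, 0)) (L (0, x.1⁻¹)) 0 (hA x w) := by
  rw [mk3_apply, (hA_apply x w).1, (hA_apply x w).2.1, (hA_apply x w).2.2, zero_smul, add_zero, ← hL]
  congr 1
  refine Prod.ext ?_ ?_
  · simp only [Prod.fst_add, Prod.smul_fst, smul_eq_mul, mul_zero, add_zero]
    field_simp
  · simp only [Prod.snd_add, Prod.smul_snd, smul_eq_mul, mul_zero, zero_add]
    field_simp

theorem lin_hB {u : ℂ × ℂ → ℂ} {x : ℂ × ℂ} (h0 : u x ≠ 0) (L : ℂ × ℂ → EN 2)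
    (hL : ∀ w w' : ℂ × ℂ, ∀ a b : ℂ, L (a • w + b • w') = a • L w + b • L w') (w : ℂ × ℂ) :
    L w = mk3 0 (L ((u x)⁻¹, 0)) (L (0, (u x)⁻¹)) (hB u x w) := by
  rw [mk3_apply, (hB_apply u x w).2.1, (hB_apply u x w).2.2, smul_zero, zero_add, ← hL]
  congr 1
  refine Prod.ext ?_ ?_
  · simp only [Prod.fst_add, Prod.smul_fst, smul_eq_mul, mul_zero, add_zero]
    field_simp
  · simp only [Prod.snd_add, Prod.smul_snd, smul_eq_mul, mul_zero, zero_add]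
    field_simp

/-! ### division by the coordinates -/

theorem exists_divx {f : ℂ × ℂ → ℂ} {p : ℂ × ℂ} (hf : AnalyticAt ℂ f p) (h : ∀ᶠ x in 𝓝 p, x.1 = 0 → f x = 0) :
    ∃ g : ℂ × ℂ → ℂ, AnalyticAt ℂ g p ∧ ∀ᶠ x in 𝓝 p, f x = x.1 * g x := by
  by_cases hp : p.1 = 0
  · exact exists_div₁ hf hp h
  · refine ⟨fun x => f x / x.1, hf.fun_div analyticAt_fst hp, ?_⟩
    filter_upwards [(analyticAt_fst (𝕜 := ℂ) (p := p)).continuousAt.eventually_ne hp] with x hx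
    field_simp

theorem exists_divy {f : ℂ × ℂ → ℂ} {p : ℂ × ℂ} (hf : AnalyticAt ℂ f p) (h : ∀ᶠ x in 𝓝 p, x.2 = 0 → f x = 0) :
    ∃ g : ℂ × ℂ → ℂ, AnalyticAt ℂ g p ∧ ∀ᶠ x in 𝓝 p, f x = x.2 * g x := by
  by_cases hp : p.2 = 0
  · exact exists_div₂ hf hp h
  · refine ⟨fun x => f x / x.2, hf.fun_div analyticAt_snd hp, ?_⟩
    filter_upwards [(analyticAt_snd (𝕜 := ℂ) (p := p)).continuousAt.eventually_ne hp] with x hx
    field_simp

/-- the derivative along a line on which the function vanishes -/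
theorem fderiv_line {f : ℂ × ℂ → ℂ} {x e : ℂ × ℂ} (hf : DifferentiableAt ℂ f x) (h : ∀ᶠ t in 𝓝 (0 : ℂ), f (x + t • e) = 0) : fderiv ℂ f x e = 0 := by
  rw [← hf.lineDeriv_eq_fderiv, lineDeriv]
  have h1 : (fun t : ℂ => f (x + t • e)) =ᶠ[𝓝 0] fun _ => 0 := h
  rw [h1.deriv_eq, deriv_const]

theorem fderiv_fst {Φ : ℂ × ℂ → ℂ × ℂ} {x : ℂ × ℂ} (h : DifferentiableAt ℂ Φ x) (w : ℂ × ℂ) : fderiv ℂ (fun y => (Φ y).1) x w = (fderiv ℂ Φ x w).1 := by
  have h1 : HasFDerivAt (fun y => (Φ y).1) ((ContinuousLinearMap.fst ℂ ℂ ℂ).comp (fderiv ℂ Φ x)) x :=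
    (ContinuousLinearMap.fst ℂ ℂ ℂ).hasFDerivAt.comp x h.hasFDerivAt
  rw [h1.fderiv]
  rfl

theorem fderiv_snd {Φ : ℂ × ℂ → ℂ × ℂ} {x : ℂ × ℂ} (h : DifferentiableAt ℂ Φ x) (w : ℂ × ℂ) : fderiv ℂ (fun y => (Φ y).2) x w = (fderiv ℂ Φ x w).2 := by
  have h1 : HasFDerivAt (fun y => (Φ y).2) ((ContinuousLinearMap.snd ℂ ℂ ℂ).comp (fderiv ℂ Φ x)) x :=
    (ContinuousLinearMap.snd ℂ ℂ ℂ).hasFDerivAt.comp x h.hasFDerivAt
  rw [h1.fderiv]
  rfl

/-- `f g = 0` and `g ≠ 0` on a piece of the axis: the derivative of `f` along the axis vanishes -/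
theorem axis_deriv {f g : ℂ × ℂ → ℂ} {p e : ℂ × ℂ} {c : ℂ × ℂ → ℂ} (hf : AnalyticAt ℂ f p) (hg : AnalyticAt ℂ g p)
    (hc : ∀ (x : ℂ × ℂ) (t : ℂ), c (x + t • e) = c x) (h0 : f p ≠ 0 ∨ g p ≠ 0) (h : ∀ᶠ x in 𝓝 p, c x = 0 → f x * g x = 0) :
    ∀ᶠ x in 𝓝 p, c x = 0 → g x * fderiv ℂ f x e = 0 := by
  rcases h0 with h0 | h0
  · filter_upwards [h, hf.continuousAt.eventually_ne h0] with x h1 h2 h3
    rw [(mul_eq_zero.1 (h1 h3)).resolve_left h2, zero_mul]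
  · filter_upwards [h.eventually_nhds, (hg.continuousAt.eventually_ne h0).eventually_nhds, hf.eventually_analyticAt] with x h1 h2 h3 h4
    have h5 : Tendsto (fun t : ℂ => x + t • e) (𝓝 0) (𝓝 x) := by
      have h6 : Continuous fun t : ℂ => x + t • e := by fun_prop
      have h7 := h6.tendsto 0
      rwa [zero_smul, add_zero] at h7
    rw [fderiv_line h3.differentiableAt ?_, mul_zero]
    filter_upwards [h5.eventually h1, h5.eventually h2] with t h6 h7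
    exact (mul_eq_zero.1 (h6 (by rw [hc]; exact h4))).resolve_right h7

/-- `hA (Φ x) (DΦ w)` is a linear function of `hA x w` -/
theorem relA1 {Φ : ℂ × ℂ → ℂ × ℂ} {p : ℂ × ℂ} (hΦ : AnalyticAt ℂ Φ p) (hq : Φ p ≠ 0) (h : ∀ᶠ x in 𝓝 p, x.1 * x.2 = 0 → (Φ x).1 * (Φ x).2 = 0) :
    ∃ A : ℂ × ℂ → (EN 2 →L[ℂ] EN 2), AnalyticAt ℂ A p ∧ ∀ᶠ x in 𝓝 p, ∀ w, hA (Φ x) (fderiv ℂ Φ x w) = A x (hA x w) := by
  have hf : AnalyticAt ℂ (fun x => (Φ x).1) p := analyticAt_fst.fun_comp hΦ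
  have hg : AnalyticAt ℂ (fun x => (Φ x).2) p := analyticAt_snd.fun_comp hΦ
  have h0 : (Φ p).1 ≠ 0 ∨ (Φ p).2 ≠ 0 := by
    by_contra hcon
    push Not at hcon
    exact hq (Prod.ext hcon.1 hcon.2)
  have hx : ∀ (x : ℂ × ℂ) (t : ℂ), (x + t • ((0, 1) : ℂ × ℂ)).1 = x.1 := by
    intro x t
    simp
  have hy : ∀ (x : ℂ × ℂ) (t : ℂ), (x + t • ((1, 0) : ℂ × ℂ)).2 = x.2 := by
    intro x t
    simp
  have hd : ∀ {f : ℂ × ℂ → ℂ}, AnalyticAt ℂ f p → ∀ e : ℂ × ℂ, AnalyticAt ℂ (fun x => fderiv ℂ f x e) p := fun hf e =>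
    analyticAt_fderiv_app hf analyticAt_const
  obtain ⟨a, ha, ha'⟩ := exists_divy (hg.fun_mul (hd hf (1, 0))) (axis_deriv (c := Prod.snd) hf hg hy h0 (by
    filter_upwards [h] with x h1 h2
    exact h1 (by rw [h2, mul_zero])))
  obtain ⟨b, hb, hb'⟩ := exists_divx (hg.fun_mul (hd hf (0, 1))) (axis_deriv (c := Prod.fst) hf hg hx h0 (by
    filter_upwards [h] with x h1 h2
    exact h1 (by rw [h2, zero_mul])))
  obtain ⟨c, hc, hc'⟩ := exists_divy (hf.fun_mul (hd hg (1, 0))) (axis_deriv (c := Prod.snd) hg hf hy h0.symm (by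
    filter_upwards [h] with x h1 h2
    rw [mul_comm]
    exact h1 (by rw [h2, mul_zero])))
  obtain ⟨d, hd', hd''⟩ := exists_divx (hf.fun_mul (hd hg (0, 1))) (axis_deriv (c := Prod.fst) hg hf hx h0.symm (by
    filter_upwards [h] with x h1 h2
    rw [mul_comm]
    exact h1 (by rw [h2, zero_mul])))
  refine ⟨fun x => mk3 (WithLp.toLp 2 ![a x, c x, 0]) (WithLp.toLp 2 ![b x, d x, 0]) 0,
    analyticAt_mk3 (analyticAt_vec3 ha hc analyticAt_const) (analyticAt_vec3 hb hd' analyticAt_const) analyticAt_const, ?_⟩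
  filter_upwards [ha', hb', hc', hd'', hΦ.eventually_analyticAt] with x e1 e2 e3 e4 h5 w
  rw [fderiv_fst h5.differentiableAt] at e1 e2
  rw [fderiv_snd h5.differentiableAt] at e3 e4
  have hw := split_vec (fderiv ℂ Φ x) w
  rw [mk3_apply]
  refine ext3 ?_ ?_ ?_
  · show (Φ x).2 * (fderiv ℂ Φ x w).1 = x.2 * w.1 * a x + x.1 * w.2 * b x + 0 * 0
    rw [hw]
    simp only [Prod.fst_add, Prod.smul_fst, smul_eq_mul]
    linear_combination w.1 * e1 + w.2 * e2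
  · show (Φ x).1 * (fderiv ℂ Φ x w).2 = x.2 * w.1 * c x + x.1 * w.2 * d x + 0 * 0
    rw [hw]
    simp only [Prod.snd_add, Prod.smul_snd, smul_eq_mul]
    linear_combination w.1 * e3 + w.2 * e4
  · show (0 : ℂ) = x.2 * w.1 * 0 + x.1 * w.2 * 0 + 0 * 0
    ring

/-- `hB u' (Φ x) (DΦ w)` is a linear function of `hB u x w` -/
theorem relB1 {Φ : ℂ × ℂ → ℂ × ℂ} {p : ℂ × ℂ} (hΦ : AnalyticAt ℂ Φ p) {u u' U : ℂ × ℂ → ℂ} (hu : AnalyticAt ℂ u p) (hu' : AnalyticAt ℂ u' (Φ p))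
    (hU : AnalyticAt ℂ U p) (h : ∀ᶠ x in 𝓝 p, u' (Φ x) = u x * U x) :
    ∃ A : ℂ × ℂ → (EN 2 →L[ℂ] EN 2), AnalyticAt ℂ A p ∧ ∀ᶠ x in 𝓝 p, ∀ w, hB u' (Φ x) (fderiv ℂ Φ x w) = A x (hB u x w) := by
  have hd : ∀ e : ℂ × ℂ, AnalyticAt ℂ (fun x => fderiv ℂ U x e) p := fun e => analyticAt_fderiv_app hU analyticAt_const
  have hD : ∀ e : ℂ × ℂ, AnalyticAt ℂ (fun x => fderiv ℂ Φ x e) p := fun e => analyticAt_fderiv_app hΦ analyticAt_const
  refine ⟨fun x => mk3 (WithLp.toLp 2 ![U x, 0, 0])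
    (WithLp.toLp 2 ![fderiv ℂ U x (1, 0), U x * (fderiv ℂ Φ x (1, 0)).1, U x * (fderiv ℂ Φ x (1, 0)).2])
    (WithLp.toLp 2 ![fderiv ℂ U x (0, 1), U x * (fderiv ℂ Φ x (0, 1)).1, U x * (fderiv ℂ Φ x (0, 1)).2]),
    analyticAt_mk3 (analyticAt_vec3 hU analyticAt_const analyticAt_const)
      (analyticAt_vec3 (hd _) (hU.mul (analyticAt_fst.fun_comp (hD _))) (hU.mul (analyticAt_snd.fun_comp (hD _))))
      (analyticAt_vec3 (hd _) (hU.mul (analyticAt_fst.fun_comp (hD _))) (hU.mul (analyticAt_snd.fun_comp (hD _)))), ?_⟩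
  filter_upwards [h.eventually_nhds, hΦ.eventually_analyticAt, hu.eventually_analyticAt, hU.eventually_analyticAt,
    hΦ.continuousAt.eventually hu'.eventually_analyticAt] with x e1 h2 h3 h4 h5 w
  have h6 : HasFDerivAt (fun y => u' (Φ y)) ((fderiv ℂ u' (Φ x)).comp (fderiv ℂ Φ x)) x :=
    h5.differentiableAt.hasFDerivAt.comp x h2.differentiableAt.hasFDerivAt
  have h7 := h3.differentiableAt.hasFDerivAt.mul h4.differentiableAt.hasFDerivAt
  have h8 := congrArg (fun L : ℂ × ℂ →L[ℂ] ℂ => L w) (h6.unique (h7.congr_of_eventuallyEq e1))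
  have h9 : fderiv ℂ u' (Φ x) (fderiv ℂ Φ x w) = u x * fderiv ℂ U x w + U x * fderiv ℂ u x w := by
    simpa using h8
  have hw := split_vec (fderiv ℂ Φ x) w
  have hw' := split_sc (fderiv ℂ U x) w
  have e0 := e1.self_of_nhds
  rw [mk3_apply]
  refine ext3 ?_ ?_ ?_
  · show fderiv ℂ u' (Φ x) (fderiv ℂ Φ x w) = fderiv ℂ u x w * U x + u x * w.1 * fderiv ℂ U x (1, 0) + u x * w.2 * fderiv ℂ U x (0, 1)
    rw [h9, hw']
    ring
  · show u' (Φ x) * (fderiv ℂ Φ x w).1 = fderiv ℂ u x w * 0 + u x * w.1 * (U x * (fderiv ℂ Φ x (1, 0)).1) + u x * w.2 * (U x * (fderiv ℂ Φ x (0, 1)).1)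
    rw [e0, hw]
    simp only [Prod.fst_add, Prod.smul_fst, smul_eq_mul]
    ring
  · show u' (Φ x) * (fderiv ℂ Φ x w).2 = fderiv ℂ u x w * 0 + u x * w.1 * (U x * (fderiv ℂ Φ x (1, 0)).2) + u x * w.2 * (U x * (fderiv ℂ Φ x (0, 1)).2)
    rw [e0, hw]
    simp only [Prod.snd_add, Prod.smul_snd, smul_eq_mul]
    ring

/-- a function which vanishes on the smooth (or empty) curve `{u = 0}` is a multiple of `u` -/
theorem exists_quot' {u f : ℂ × ℂ → ℂ} {p : ℂ × ℂ} (hu : AnalyticAt ℂ u p) (hf : AnalyticAt ℂ f p) (hr : u p = 0 → fderiv ℂ u p ≠ 0)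
    (h : ∀ᶠ x in 𝓝 p, u x = 0 → f x = 0) : ∃ U : ℂ × ℂ → ℂ, AnalyticAt ℂ U p ∧ ∀ᶠ x in 𝓝 p, f x = u x * U x := by
  by_cases h0 : u p = 0
  · exact exists_quot_smooth hu h0 (hr h0) hf h
  · refine ⟨fun x => f x / u x, hf.fun_div hu h0, ?_⟩
    filter_upwards [hu.continuousAt.eventually_ne h0] with x hx
    field_simp

/-! ### the inverse change of boxes -/

variable {M : ℕ} {P : Ideal (MvPolynomial (Fin (M + 1)) ℂ)} {RD : MvPolynomial (Fin (M + 1)) ℂ} {X : NCModel P RD}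

theorem chg_mem {i j : X.ι} {Φ : ℂ × ℂ → ℂ × ℂ} {p : ℂ × ℂ} (h : Chg X i j Φ p) : ∀ᶠ x in 𝓝 p, x ∈ X.B i ∧ Φ x ∈ X.B j := by
  filter_upwards [(X.isOpen i).mem_nhds h.mem, h.an.continuousAt.eventually ((X.isOpen j).mem_nhds h.mem')] with x h1 h2
  exact ⟨h1, h2⟩

theorem chg_inv {i j : X.ι} {Φ : ℂ × ℂ → ℂ × ℂ} {p : ℂ × ℂ} (h : Chg X i j Φ p) :
    ∃ Ψ, Chg X j i Ψ (Φ p) ∧ Ψ (Φ p) = p ∧ (∀ᶠ x in 𝓝 p, Ψ (Φ x) = x ∧ ∀ w, fderiv ℂ Ψ (Φ x) (fderiv ℂ Φ x w) = w) ∧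
      ∀ᶠ y in 𝓝 (Φ p), Φ (Ψ y) = y := by
  have h1 : X.rel j (Φ p) i p := X.symm _ _ _ _ h.mem h.mem' h.rel.self_of_nhds
  obtain ⟨Ψ, ha, h2, h3, h4, h5⟩ := X.iso j i (Φ p) h.mem' p h.mem h1
  have hΨ : Chg X j i Ψ (Φ p) := ⟨h.mem', by rw [h2]; exact h.mem, ha, h3, h4, h5⟩
  have hid : ∀ᶠ x in 𝓝 p, Ψ (Φ x) = x := by
    filter_upwards [chg_mem h, h.rel, h.an.continuousAt.eventually (chg_mem hΨ), h.an.continuousAt.eventually h4] with x h6 h7 h8 h9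
    exact ((X.refl i x h6.1 _ h8.2).1 (X.trans _ _ _ _ _ _ h6.1 h6.2 h8.2 h7 h9)).symm
  have ht : Tendsto Ψ (𝓝 (Φ p)) (𝓝 p) := by
    have := ha.continuousAt.tendsto
    rwa [h2] at this
  refine ⟨Ψ, hΨ, h2, ?_, ?_⟩
  · filter_upwards [hid.eventually_nhds, h.an.eventually_analyticAt, h.an.continuousAt.eventually ha.eventually_analyticAt] with x h6 h7 h8
    refine ⟨h6.self_of_nhds, fun w => ?_⟩
    have h9 : HasFDerivAt (fun y => Ψ (Φ y)) ((fderiv ℂ Ψ (Φ x)).comp (fderiv ℂ Φ x)) x :=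
      h8.differentiableAt.hasFDerivAt.comp x h7.differentiableAt.hasFDerivAt
    have h10 : HasFDerivAt (fun y : ℂ × ℂ => y) (ContinuousLinearMap.id ℂ (ℂ × ℂ)) x := hasFDerivAt_id x
    exact congrArg (fun L : ℂ × ℂ →L[ℂ] ℂ × ℂ => L w) (h9.unique (h10.congr_of_eventuallyEq h6))
  · filter_upwards [chg_mem hΨ, h4, ht.eventually (chg_mem h), ht.eventually h.rel] with y h6 h7 h8 h9
    exact ((X.refl j y h6.1 _ h8.2).1 (X.trans _ _ _ _ _ _ h6.1 h6.2 h8.2 h7 h9)).symm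

/-- at a crossing point the change of boxes is the identity -/
theorem chg_corner {i j : X.ι} {Φ : ℂ × ℂ → ℂ × ℂ} {p : ℂ × ℂ} (h : Chg X i j Φ p) (h0 : p = 0 ∨ Φ p = 0) : ∀ᶠ x in 𝓝 p, Φ x = x := by
  have hij : i = j := by
    rcases h0 with h0 | h0
    · have h1 := h.mem
      rw [h0] at h1
      have h2 := h.rel.self_of_nhds
      rw [h0] at h2
      have h3 := h.mem'
      rw [h0] at h3
      exact (((X.corner i h1).2 j _ h3 h2).1).symm
    · have h1 := h.mem'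
      rw [h0] at h1
      have h2 := X.symm _ _ _ _ h.mem h.mem' h.rel.self_of_nhds
      rw [h0] at h2
      exact ((X.corner j h1).2 i _ h.mem h2).1
  subst hij
  filter_upwards [chg_mem h, h.rel] with x h1 h2
  exact ((X.refl i x h1.1 _ h1.2).1 h2).symm

/-- the divisor is preserved -/
theorem chg_div (hd : ∃ d, RD.IsHomogeneous d) {i j : X.ι} {Φ : ℂ × ℂ → ℂ × ℂ} {p : ℂ × ℂ} (h : Chg X i j Φ p) :
    ∀ᶠ x in 𝓝 p, x.1 * x.2 = 0 ↔ (Φ x).1 * (Φ x).2 = 0 := by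
  obtain ⟨d, hd⟩ := hd
  filter_upwards [chg_mem h, h.eq] with x h1 h2
  obtain ⟨c, hc, h3⟩ := h2
  rw [← X.div i x h1.1, ← X.div j _ h1.2, h3]
  have h4 : eval (c • X.ρ j (Φ x)).ofLp RD = c ^ d * eval (X.ρ j (Φ x)).ofLp RD := by
    have h5 : (c • X.ρ j (Φ x)).ofLp = c • (X.ρ j (Φ x)).ofLp := rfl
    rw [h5]
    exact Pool.Agent.H17EF.eval_smul_form hd c _
  rw [h4, mul_eq_zero, or_iff_right (pow_ne_zero d hc)]

end ChgN

open ChgN

variable {M : ℕ} {P : Ideal (MvPolynomial (Fin (M + 1)) ℂ)} {RD : MvPolynomial (Fin (M + 1)) ℂ} {X : NCModel P RD}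

/-! ### the four changes -/

theorem vrel_A (hd : ∃ d, RD.IsHomogeneous d) {i j : X.ι} {Φ : ℂ × ℂ → ℂ × ℂ} {p : ℂ × ℂ} (h : Chg X i j Φ p) : VRel hA hA Φ p := by
  by_cases h0 : p = 0 ∨ Φ p = 0
  · have h1 := chg_corner h h0
    refine ⟨fun _ => ContinuousLinearMap.id ℂ (EN 2), fun _ => ContinuousLinearMap.id ℂ (EN 2), analyticAt_const, analyticAt_const, ?_⟩
    filter_upwards [h1.eventually_nhds] with x h2 w
    have h3 : fderiv ℂ Φ x = ContinuousLinearMap.id ℂ (ℂ × ℂ) := by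
      have h4 : Φ =ᶠ[𝓝 x] fun y => y := h2
      rw [h4.fderiv_eq]
      exact fderiv_id
    rw [h3, h2.self_of_nhds]
    exact ⟨rfl, rfl⟩
  · push Not at h0
    obtain ⟨Ψ, hΨ, h2, h3, h4⟩ := chg_inv h
    have hdv := chg_div hd h
    have hdv' := chg_div hd hΨ
    obtain ⟨A, hA1, hA2⟩ := relA1 h.an h0.2 (hdv.mono fun x hx => hx.1)
    obtain ⟨A', hA1', hA2'⟩ := relA1 hΨ.an (by rw [h2]; exact h0.1) (hdv'.mono fun x hx => hx.1)
    refine ⟨A, fun x => A' (Φ x), hA1, hA1'.fun_comp h.an, ?_⟩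
    filter_upwards [hA2, h.an.continuousAt.eventually hA2', h3] with x h5 h6 h7 w
    refine ⟨h5 w, ?_⟩
    have h8 := h6 (fderiv ℂ Φ x w)
    rwa [h7.1, h7.2 w] at h8

/-- `u` is a unit at `p` -/
theorem vrel_AB {i j : X.ι} {Φ : ℂ × ℂ → ℂ × ℂ} {p : ℂ × ℂ} (h : Chg X i j Φ p) (hp : p ∈ DS) {u : ℂ × ℂ → ℂ} (hu : AnalyticAt ℂ u (Φ p)) (h0 : u (Φ p) ≠ 0) :
    VRel hA (hB u) Φ p := by
  obtain ⟨Ψ, hΨ, h2, h3, h4⟩ := chg_inv h
  have hp1 : p.1 ≠ 0 := hp.1.1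
  have hp2 : p.2 ≠ 0 := hp.2.1
  have hc : AnalyticAt ℂ (fun _ : ℂ × ℂ => (0 : ℂ)) p := analyticAt_const
  have hx : AnalyticAt ℂ (fun x : ℂ × ℂ => x.1⁻¹) p := analyticAt_fst.fun_inv hp1
  have hy : AnalyticAt ℂ (fun x : ℂ × ℂ => x.2⁻¹) p := analyticAt_snd.fun_inv hp2
  have hui : AnalyticAt ℂ (fun x : ℂ × ℂ => (u (Φ x))⁻¹) p := (hu.fun_comp h.an).fun_inv h0
  refine ⟨fun x => mk3 (hB u (Φ x) (fderiv ℂ Φ x (x.2⁻¹, 0))) (hB u (Φ x) (fderiv ℂ Φ x (0, x.1⁻¹))) 0,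
    fun x => mk3 0 (hA x (fderiv ℂ Ψ (Φ x) ((u (Φ x))⁻¹, 0))) (hA x (fderiv ℂ Ψ (Φ x) (0, (u (Φ x))⁻¹))), ?_, ?_, ?_⟩
  · exact analyticAt_mk3 (analyticAt_hB hu h.an (analyticAt_fderiv_app h.an (hy.prod hc))) (analyticAt_hB hu h.an (analyticAt_fderiv_app h.an (hc.prod hx)))
      analyticAt_const
  · exact analyticAt_mk3 analyticAt_const (analyticAt_hA analyticAt_id (analyticAt_fderiv_comp hΨ.an h.an (hui.prod hc)))
      (analyticAt_hA analyticAt_id (analyticAt_fderiv_comp hΨ.an h.an (hc.prod hui)))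
  · filter_upwards [(analyticAt_fst (𝕜 := ℂ) (p := p)).continuousAt.eventually_ne hp1, (analyticAt_snd (𝕜 := ℂ) (p := p)).continuousAt.eventually_ne hp2,
      (hu.fun_comp h.an).continuousAt.eventually_ne h0, h3] with x e1 e2 e3 e4 w
    refine ⟨?_, ?_⟩
    · exact lin_hA e1 e2 (fun w => hB u (Φ x) (fderiv ℂ Φ x w)) (fun w w' a b => by
        simp only [map_add, map_smul]
        exact hB_comb u _ _ _ a b) w
    · have h5 := lin_hB (u := u) (x := Φ x) e3 (fun v => hA x (fderiv ℂ Ψ (Φ x) v)) (fun w w' a b => by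
        simp only [map_add, map_smul]
        exact hA_comb _ _ _ a b) (fderiv ℂ Φ x w)
      simp only [e4.2 w] at h5
      exact h5

theorem vrel_BA (hd : ∃ d, RD.IsHomogeneous d) {i j : X.ι} {Φ : ℂ × ℂ → ℂ × ℂ} {p : ℂ × ℂ} (h : Chg X i j Φ p) (hp : p ∈ DS) {u : ℂ × ℂ → ℂ}
    (hu : AnalyticAt ℂ u p) (h0 : u p ≠ 0) : VRel (hB u) hA Φ p := by
  obtain ⟨Ψ, hΨ, h2, h3, h4⟩ := chg_inv h
  have hp1 : p.1 ≠ 0 := hp.1.1
  have hp2 : p.2 ≠ 0 := hp.2.1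
  have hq : (Φ p).1 * (Φ p).2 ≠ 0 := fun e => mul_ne_zero hp1 hp2 ((chg_div hd h).self_of_nhds.2 e)
  have hq1 : (Φ p).1 ≠ 0 := left_ne_zero_of_mul hq
  have hq2 : (Φ p).2 ≠ 0 := right_ne_zero_of_mul hq
  have hc : AnalyticAt ℂ (fun _ : ℂ × ℂ => (0 : ℂ)) p := analyticAt_const
  have hf : AnalyticAt ℂ (fun x => (Φ x).1) p := analyticAt_fst.fun_comp h.an
  have hg : AnalyticAt ℂ (fun x => (Φ x).2) p := analyticAt_snd.fun_comp h.an
  have hx : AnalyticAt ℂ (fun x : ℂ × ℂ => (Φ x).1⁻¹) p := hf.fun_inv hq1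
  have hy : AnalyticAt ℂ (fun x : ℂ × ℂ => (Φ x).2⁻¹) p := hg.fun_inv hq2
  have hui : AnalyticAt ℂ (fun x : ℂ × ℂ => (u x)⁻¹) p := hu.fun_inv h0
  refine ⟨fun x => mk3 0 (hA (Φ x) (fderiv ℂ Φ x ((u x)⁻¹, 0))) (hA (Φ x) (fderiv ℂ Φ x (0, (u x)⁻¹))),
    fun x => mk3 (hB u x (fderiv ℂ Ψ (Φ x) ((Φ x).2⁻¹, 0))) (hB u x (fderiv ℂ Ψ (Φ x) (0, (Φ x).1⁻¹))) 0, ?_, ?_, ?_⟩
  · exact analyticAt_mk3 analyticAt_const (analyticAt_hA h.an (analyticAt_fderiv_app h.an (hui.prod hc)))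
      (analyticAt_hA h.an (analyticAt_fderiv_app h.an (hc.prod hui)))
  · exact analyticAt_mk3 (analyticAt_hB hu analyticAt_id (analyticAt_fderiv_comp hΨ.an h.an (hy.prod hc)))
      (analyticAt_hB hu analyticAt_id (analyticAt_fderiv_comp hΨ.an h.an (hc.prod hx))) analyticAt_const
  · filter_upwards [hf.continuousAt.eventually_ne hq1, hg.continuousAt.eventually_ne hq2, hu.continuousAt.eventually_ne h0, h3] with x e1 e2 e3 e4 w
    refine ⟨?_, ?_⟩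
    · exact lin_hB e3 (fun w => hA (Φ x) (fderiv ℂ Φ x w)) (fun w w' a b => by
        simp only [map_add, map_smul]
        exact hA_comb _ _ _ a b) w
    · have h5 := lin_hA (x := Φ x) e1 e2 (fun v => hB u x (fderiv ℂ Ψ (Φ x) v)) (fun w w' a b => by
        simp only [map_add, map_smul]
        exact hB_comb u _ _ _ a b) (fderiv ℂ Φ x w)
      simp only [e4.2 w] at h5
      exact h5

/-- two reduced equations of the same curve -/
theorem vrel_B {i j : X.ι} {Φ : ℂ × ℂ → ℂ × ℂ} {p : ℂ × ℂ} (h : Chg X i j Φ p) {u u' : ℂ × ℂ → ℂ} (hu : AnalyticAt ℂ u p) (hu' : AnalyticAt ℂ u' (Φ p))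
    (hr : ∀ᶠ x in 𝓝 p, u x = 0 → fderiv ℂ u x ≠ 0) (hr' : ∀ᶠ x in 𝓝 (Φ p), u' x = 0 → fderiv ℂ u' x ≠ 0) (he : ∀ᶠ x in 𝓝 p, u x = 0 ↔ u' (Φ x) = 0) :
    VRel (hB u) (hB u') Φ p := by
  obtain ⟨Ψ, hΨ, h2, h3, h4⟩ := chg_inv h
  have huΨ : AnalyticAt ℂ u (Ψ (Φ p)) := by rwa [h2]
  have ht : Tendsto Ψ (𝓝 (Φ p)) (𝓝 p) := by
    have := hΨ.an.continuousAt.tendsto
    rwa [h2] at this
  obtain ⟨U, hU, hU'⟩ := exists_quot' hu (hu'.fun_comp h.an) hr.self_of_nhds (he.mono fun x hx => hx.1)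
  obtain ⟨V, hV, hV'⟩ := exists_quot' hu' (huΨ.fun_comp hΨ.an) hr'.self_of_nhds (by
    filter_upwards [ht.eventually he, h4] with y h5 h6 h7
    exact h5.2 (by rw [h6]; exact h7))
  obtain ⟨A, hA1, hA2⟩ := relB1 h.an hu hu' hU hU'
  obtain ⟨A', hA1', hA2'⟩ := relB1 hΨ.an hu' huΨ hV hV'
  refine ⟨A, fun x => A' (Φ x), hA1, hA1'.fun_comp h.an, ?_⟩
  filter_upwards [hA2, h.an.continuousAt.eventually hA2', h3] with x h5 h6 h7 w
  refine ⟨h5 w, ?_⟩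
  have h8 := h6 (fderiv ℂ Φ x w)
  rwa [h7.1, h7.2 w] at h8

end Pool.Agent.MQ3

end
end

section

/-!
# MQ3 NLoc: the local form of the potentials at a regular chart point
-/

set_option autoImplicit false

open Topology Filter Metric MvPolynomial

noncomputable section

namespace Pool.Agent.MQ3

open Pool.Agent.H36.BP (EN)
open Pool.Agent.H17EF (coneE)

variable {M : ℕ} {P : Ideal (MvPolynomial (Fin (M + 1)) ℂ)} {RD : MvPolynomial (Fin (M + 1)) ℂ} {m : ℕ} {X : NCModel P RD} {θ : WDiff (coneE P) m}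
  {l : LF M} {S : Web X θ l} {Ra : MvPolynomial (Fin (M + 1)) ℂ}

/-! ### charts -/

private theorem NLoc_dt (k : S.ι) : dt (S.c k).w (S.c k).w' ≠ 0 := (S.c k).pos.ne'

private theorem NLoc_an (k : S.ι) (q : ℂ × ℂ) : AnalyticAt ℂ (S.κ k) q := analyticAt_mono q

private theorem NLoc_open (k : S.ι) : IsOpen (S.D k) :=
  isOpen_Dm.inter ((X.isOpen k.1).preimage (continuous_iff_continuousAt.2 fun q => (NLoc_an k q).continuousAt))

private theorem NLoc_v {k : S.ι} {q : ℂ × ℂ} (hq : q ∈ S.D k) : AnalyticAt ℂ (S.v k) q := (S.c k).v_an q hq.1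

private theorem NLoc_mono {w w' : ℕ × ℕ} (hd : dt w w' ≠ 0) (x : ℂ × ℂ) : (mono w w' x).1 * (mono w w' x).2 = 0 ↔ x.1 * x.2 = 0 := by
  constructor
  · intro h
    by_contra h0
    have h1 := left_ne_zero_of_mul h0
    have h2 := right_ne_zero_of_mul h0
    exact mul_ne_zero (mul_ne_zero (pow_ne_zero _ h1) (pow_ne_zero _ h2)) (mul_ne_zero (pow_ne_zero _ h1) (pow_ne_zero _ h2)) h
  · intro h
    show (x.1 ^ w.1 * x.2 ^ w'.1) * (x.1 ^ w.2 * x.2 ^ w'.2) = 0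
    have h1 : (x.1 ^ w.1 * x.2 ^ w'.1) * (x.1 ^ w.2 * x.2 ^ w'.2) = x.1 ^ (w.1 + w.2) * x.2 ^ (w'.1 + w'.2) := by
      rw [pow_add, pow_add]
      ring
    rw [h1]
    rcases mul_eq_zero.1 h with h2 | h2
    · have h3 : w.1 + w.2 ≠ 0 := by
        intro h4
        apply hd
        have h5 : w.1 = 0 := by omega
        have h6 : w.2 = 0 := by omega
        simp [dt, h5, h6]
      rw [h2, zero_pow h3, zero_mul]
    · have h3 : w'.1 + w'.2 ≠ 0 := by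
        intro h4
        apply hd
        have h5 : w'.1 = 0 := by omega
        have h6 : w'.2 = 0 := by omega
        simp [dt, h5, h6]
      rw [h2, zero_pow h3, mul_zero]

/-- the zeros of `RD Ra` upstairs -/
private theorem NLoc_zero {k : S.ι} {x : ℂ × ℂ} (hx : x ∈ S.D k) :
    eval (S.σ k x).ofLp (RD * Ra) = 0 ↔ x.1 * x.2 = 0 ∨ eval (S.σ k x).ofLp Ra = 0 := by
  rw [map_mul, mul_eq_zero]
  have h1 : eval (S.σ k x).ofLp RD = 0 ↔ (S.κ k x).1 * (S.κ k x).2 = 0 := X.div k.1 _ hx.2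
  rw [h1]
  have h2 : (S.κ k x).1 * (S.κ k x).2 = 0 ↔ x.1 * x.2 = 0 := NLoc_mono (NLoc_dt k) x
  rw [h2]

private theorem NLoc_fst (x w : ℂ × ℂ) : fderiv ℂ (fun y : ℂ × ℂ => y.1) x w = w.1 := by
  rw [fderiv_fst]
  rfl

private theorem NLoc_snd (x w : ℂ × ℂ) : fderiv ℂ (fun y : ℂ × ℂ => y.2) x w = w.2 := by
  rw [fderiv_snd]
  rfl

private theorem NLoc_one (x w : ℂ × ℂ) : fderiv ℂ (fun _ : ℂ × ℂ => (1 : ℂ)) x w = 0 := by
  simp

/-! ### the equations -/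

/-- no invariant curve, a transversal curve `{h = 0}` -/
private theorem NLoc_trans {k : S.ι} {q : ℂ × ℂ} {h : ℂ × ℂ → ℂ} (hh : AnalyticAt ℂ h q)
    (hZ : ∀ᶠ x in 𝓝 q, eval (S.σ k x).ofLp (RD * Ra) = 0 ↔ h x = 0) (ht : ∀ᶠ x in 𝓝 q, h x = 0 → fderiv ℂ h x (S.v k x) ≠ 0) :
    InvAt S Ra k q fun _ => 1 := by
  refine ⟨analyticAt_const, Eventually.of_forall fun x hx => absurd hx one_ne_zero, ⟨fun _ => 0, analyticAt_const, Eventually.of_forall fun x => ?_⟩,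
    h, hh, ?_, ?_⟩
  · rw [NLoc_one, zero_mul]
  · filter_upwards [hZ] with x hx
    rw [hx, one_mul]
  · filter_upwards [ht] with x hx h0
    exact ⟨one_ne_zero, hx h0⟩

/-- an invariant curve `{g = 0}` -/
private theorem NLoc_inv {k : S.ι} {q : ℂ × ℂ} {g c : ℂ × ℂ → ℂ} (hg : AnalyticAt ℂ g q) (hd : ∀ᶠ x in 𝓝 q, fderiv ℂ g x ≠ 0) (hc : AnalyticAt ℂ c q)
    (hcg : ∀ᶠ x in 𝓝 q, fderiv ℂ g x (S.v k x) = c x * g x) (hZ : ∀ᶠ x in 𝓝 q, eval (S.σ k x).ofLp (RD * Ra) = 0 ↔ g x = 0) : InvAt S Ra k q g := by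
  refine ⟨hg, hd.mono fun x hx _ => hx, ⟨c, hc, hcg⟩, fun _ => 1, analyticAt_const, ?_, Eventually.of_forall fun x hx => absurd hx one_ne_zero⟩
  filter_upwards [hZ] with x hx
  rw [hx, mul_one]

/-- the canonical equation at a regular point off the curve, with the local form of the vector -/
theorem nloc_A0 {k : S.ι} {q : ℂ × ℂ} (hq : RegA S Ra k q) : ∃ (g : ℂ × ℂ → ℂ) (N : ℂ × ℂ → ℂ × ℂ), InvAt S Ra k q g ∧ AnalyticAt ℂ N q ∧ N q ≠ 0 ∧
    ∀ᶠ x in 𝓝 q, hv2 (S.κ k) (S.v k) x = (jc (S.κ k) x * g x) • N x := by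
  have hD : ∀ᶠ x in 𝓝 q, x ∈ S.D k := (NLoc_open k).mem_nhds hq.mem
  have hva := NLoc_v hq.mem
  have hd := NLoc_dt k
  have c1 : ContinuousAt (fun x : ℂ × ℂ => x.1) q := continuousAt_fst
  have c2 : ContinuousAt (fun x : ℂ × ℂ => x.2) q := continuousAt_snd
  have hv1 : ContinuousAt (fun x : ℂ × ℂ => (S.v k x).1) q := (analyticAt_fst.fun_comp hva).continuousAt
  have hv2' : ContinuousAt (fun x : ℂ × ℂ => (S.v k x).2) q := (analyticAt_snd.fun_comp hva).continuousAt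
  have hone : Lv (S.v k) q ≠ 0 → ∃ N : ℂ × ℂ → ℂ × ℂ, AnalyticAt ℂ N q ∧ N q ≠ 0 ∧
      ∀ᶠ x in 𝓝 q, hv2 (S.κ k) (S.v k) x = (jc (S.κ k) x * (1 : ℂ)) • N x := fun h =>
    nc_A (w := (S.c k).w) (w' := (S.c k).w') hd (g := fun _ => 1) (U := Lv (S.v k)) (analyticAt_Lv hva) h
      (Eventually.of_forall fun x => by rw [one_smul])
  by_cases h1 : q.1 = 0
  · -- the first axis
    have h2 : q.2 ≠ 0 := fun h2 => hq.ne (Prod.ext h1 h2)
    have e2 : ∀ᶠ x in 𝓝 q, x.2 ≠ 0 := c2.eventually_ne h2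
    have hZ : ∀ᶠ x in 𝓝 q, eval (S.σ k x).ofLp (RD * Ra) = 0 ↔ x.1 = 0 := by
      filter_upwards [hD, e2, hq.alg] with x hx hx2 hx3
      rw [NLoc_zero hx]
      constructor
      · intro h
        by_contra h0
        rcases h with h | h
        · exact mul_ne_zero h0 hx2 h
        · exact hx3 (mul_ne_zero h0 hx2) h
      · intro h
        left
        rw [h, zero_mul]
    rcases hq.ax₁ h1 with ht | hi
    · obtain ⟨N, hN, hN0, hNe⟩ := hone (Lv_trans₁ h2 ht)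
      refine ⟨fun _ => 1, N, NLoc_trans analyticAt_fst hZ ?_, hN, hN0, hNe⟩
      filter_upwards [hv1.eventually_ne ht] with x hx _
      rw [NLoc_fst]
      exact hx
    · obtain ⟨U, hU, hU0, hUe⟩ := Lv_inv₁ hva h1 hq.v_ne hi
      obtain ⟨N, hN, hN0, hNe⟩ := nc_A (w := (S.c k).w) (w' := (S.c k).w') hd (g := fun x => x.1) hU hU0 hUe
      obtain ⟨c, hc, hce⟩ := exists_div₁ (analyticAt_fst.fun_comp hva) h1 hi
      refine ⟨fun x => x.1, N, NLoc_inv analyticAt_fst (Eventually.of_forall fun x hx => ?_) hc ?_ hZ, hN, hN0, hNe⟩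
      · have h3 := NLoc_fst x (1, 0)
        rw [hx] at h3
        exact one_ne_zero h3.symm
      · filter_upwards [hce] with x hx
        rw [NLoc_fst, hx, smul_eq_mul, mul_comm]
  by_cases h2 : q.2 = 0
  · -- the second axis
    have e1 : ∀ᶠ x in 𝓝 q, x.1 ≠ 0 := c1.eventually_ne h1
    have hZ : ∀ᶠ x in 𝓝 q, eval (S.σ k x).ofLp (RD * Ra) = 0 ↔ x.2 = 0 := by
      filter_upwards [hD, e1, hq.alg] with x hx hx2 hx3
      rw [NLoc_zero hx]
      constructor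
      · intro h
        by_contra h0
        rcases h with h | h
        · exact mul_ne_zero hx2 h0 h
        · exact hx3 (mul_ne_zero hx2 h0) h
      · intro h
        left
        rw [h, mul_zero]
    rcases hq.ax₂ h2 with ht | hi
    · obtain ⟨N, hN, hN0, hNe⟩ := hone (Lv_trans₂ h1 ht)
      refine ⟨fun _ => 1, N, NLoc_trans analyticAt_snd hZ ?_, hN, hN0, hNe⟩
      filter_upwards [hv2'.eventually_ne ht] with x hx _
      rw [NLoc_snd]
      exact hx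
    · obtain ⟨U, hU, hU0, hUe⟩ := Lv_inv₂ hva h2 hq.v_ne hi
      obtain ⟨N, hN, hN0, hNe⟩ := nc_A (w := (S.c k).w) (w' := (S.c k).w') hd (g := fun x => x.2) hU hU0 hUe
      obtain ⟨c, hc, hce⟩ := exists_div₂ (analyticAt_snd.fun_comp hva) h2 hi
      refine ⟨fun x => x.2, N, NLoc_inv analyticAt_snd (Eventually.of_forall fun x hx => ?_) hc ?_ hZ, hN, hN0, hNe⟩
      · have h3 := NLoc_snd x (0, 1)
        rw [hx] at h3
        exact one_ne_zero h3.symm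
      · filter_upwards [hce] with x hx
        rw [NLoc_snd, hx, smul_eq_mul, mul_comm]
  · -- off the axes
    have h0 : q.1 * q.2 ≠ 0 := mul_ne_zero h1 h2
    obtain ⟨N, hN, hN0, hNe⟩ := hone (Lv_off h0 hq.v_ne)
    refine ⟨fun _ => 1, N, NLoc_trans (h := fun _ => 1) analyticAt_const ?_ (Eventually.of_forall fun x hx => absurd hx one_ne_zero), hN, hN0, hNe⟩
    filter_upwards [hD, hq.alg, (c1.mul c2).eventually_ne h0] with x hx hx2 hx3
    rw [NLoc_zero hx]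
    constructor
    · rintro (h | h)
      · exact absurd h hx3
      · exact absurd h (hx2 hx3)
    · intro h
      exact absurd h one_ne_zero

theorem exists_invAt {k : S.ι} {q : ℂ × ℂ} (hq : Reg S Ra k q) : ∃ g, InvAt S Ra k q g := by
  rcases hq with hq | hq
  · obtain ⟨g, -, h, -⟩ := nloc_A0 hq
    exact ⟨g, h⟩
  · have hD : ∀ᶠ x in 𝓝 q, x ∈ S.D k := (NLoc_open k).mem_nhds hq.mem
    have hva := NLoc_v hq.mem
    obtain ⟨G, hG, hG0, hdG, hGZ, hGi⟩ := hq.crv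
    have hdGe : ∀ᶠ x in 𝓝 q, fderiv ℂ G x ≠ 0 := hG.fderiv.continuousAt.eventually_ne hdG
    have h0 : ∀ᶠ x : ℂ × ℂ in 𝓝 q, x.1 * x.2 ≠ 0 := (continuousAt_fst.mul continuousAt_snd).eventually_ne hq.ne
    have hZ : ∀ᶠ x in 𝓝 q, eval (S.σ k x).ofLp (RD * Ra) = 0 ↔ G x = 0 := by
      filter_upwards [hD, h0, hGZ] with x hx hx2 hx3
      rw [NLoc_zero hx, or_iff_right hx2, hx3]
    rcases hGi with ht | hi
    · refine ⟨_, NLoc_trans hG hZ ?_⟩
      filter_upwards [(analyticAt_fderiv_app hG hva).continuousAt.eventually_ne ht] with x hx _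
      exact hx
    · obtain ⟨c, hc, hce⟩ := exists_cof hG hG0 hdG hva hi
      refine ⟨G, NLoc_inv hG hdGe hc ?_ hZ⟩
      filter_upwards [hce] with x hx
      rw [hx, mul_comm]

/-! ### uniqueness -/

/-- if `g` has no zero at `q`, then `g'` has none -/
private theorem NLoc_ne {k : S.ι} {q : ℂ × ℂ} (hq : q ∈ S.D k) {g g' : ℂ × ℂ → ℂ} (h : InvAt S Ra k q g) (h' : InvAt S Ra k q g') (h0 : g q ≠ 0) : g' q ≠ 0 := by
  intro h0'
  obtain ⟨hg, -, -, e, he, heZ, het⟩ := h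
  obtain ⟨hg', hr', ⟨c', -, hc'⟩, e', he', heZ', -⟩ := h'
  have hdg' := hr'.self_of_nhds h0'
  have h1 : ∀ᶠ x in 𝓝 q, g' x = 0 → e x = 0 := by
    filter_upwards [heZ, heZ', hg.continuousAt.eventually_ne h0] with x x1 x2 x3 x4
    have h2 : eval (S.σ k x).ofLp (RD * Ra) = 0 := x2.2 (by rw [x4, zero_mul])
    exact (mul_eq_zero.1 (x1.1 h2)).resolve_left x3
  obtain ⟨a, ha, hae⟩ := exists_quot_smooth hg' h0' hdg' he h1
  have he0 : e q = 0 := h1.self_of_nhds h0'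
  have h2 := (het.self_of_nhds he0).2
  apply h2
  have h3 : e =ᶠ[𝓝 q] fun x => g' x * a x := by
    filter_upwards [hae] with x hx
    rw [hx, smul_eq_mul]
  have h4 := (hg'.differentiableAt.hasFDerivAt.mul ha.differentiableAt.hasFDerivAt).congr_of_eventuallyEq h3
  rw [h4.fderiv]
  have h5 := hc'.self_of_nhds
  rw [h0', mul_zero] at h5
  simp [h0', h5]

/-- two local equations -/
theorem invAt_unit {k : S.ι} {q : ℂ × ℂ} (hv : S.v k q ≠ 0) (hq : q ∈ S.D k) {g g' : ℂ × ℂ → ℂ} (h : InvAt S Ra k q g) (h' : InvAt S Ra k q g') :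
    ∃ u : ℂ × ℂ → ℂ, AnalyticAt ℂ u q ∧ u q ≠ 0 ∧ ∀ᶠ x in 𝓝 q, g' x = u x * g x := by
  by_cases h0 : g q = 0
  · have h0' : g' q = 0 := by
      by_contra h1
      exact NLoc_ne hq h' h h1 h0
    obtain ⟨hg, hr, -, e, he, heZ, het⟩ := h
    obtain ⟨hg', hr', -, e', he', heZ', het'⟩ := h'
    have he0 : e q ≠ 0 := fun h1 => (het.self_of_nhds h1).1 h0
    have he0' : e' q ≠ 0 := fun h1 => (het'.self_of_nhds h1).1 h0'
    have h1 : ∀ᶠ x in 𝓝 q, g x = 0 → g' x = 0 := by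
      filter_upwards [heZ, heZ', he'.continuousAt.eventually_ne he0'] with x x1 x2 x3 x4
      have h2 : eval (S.σ k x).ofLp (RD * Ra) = 0 := x1.2 (by rw [x4, zero_mul])
      exact (mul_eq_zero.1 (x2.1 h2)).resolve_right x3
    obtain ⟨a, ha, hae⟩ := exists_quot_smooth hg h0 (hr.self_of_nhds h0) hg' h1
    refine ⟨a, ha, fun ha0 => ?_, ?_⟩
    · have h3 : g' =ᶠ[𝓝 q] fun x => g x * a x := by
        filter_upwards [hae] with x hx
        rw [hx, smul_eq_mul]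
      have h4 := (hg.differentiableAt.hasFDerivAt.mul ha.differentiableAt.hasFDerivAt).congr_of_eventuallyEq h3
      apply hr'.self_of_nhds h0'
      rw [h4.fderiv]
      refine ContinuousLinearMap.ext fun w => ?_
      simp [h0, ha0]
    · filter_upwards [hae] with x hx
      rw [hx, smul_eq_mul, mul_comm]
  · have h0' := NLoc_ne hq h h' h0
    refine ⟨fun x => g' x / g x, h'.1.fun_div h.1 h0, div_ne_zero h0' h0, ?_⟩
    filter_upwards [h.1.continuousAt.eventually_ne h0] with x hx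
    rw [div_mul_cancel₀ _ hx]

/-! ### the vector -/

/-- the vectors with the third coordinate `0` -/
private def NLoc_emb : ℂ × ℂ →L[ℂ] EN 2 :=
  LinearMap.toContinuousLinearMap
    { toFun := fun a => WithLp.toLp 2 ![a.1, a.2, 0]
      map_add' := fun a b => by
        ext i
        fin_cases i <;> simp
      map_smul' := fun c a => by
        ext i
        fin_cases i <;> simp }

private theorem NLoc_emb_apply (a : ℂ × ℂ) : NLoc_emb a = WithLp.toLp 2 ![a.1, a.2, 0] := rfl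

private theorem NLoc_emb_ne {a : ℂ × ℂ} (h : a ≠ 0) : NLoc_emb a ≠ 0 := by
  intro h0
  rw [NLoc_emb_apply] at h0
  apply h
  have h1 := congrArg (fun x : EN 2 => x.ofLp 0) h0
  have h2 := congrArg (fun x : EN 2 => x.ofLp 1) h0
  exact Prod.ext (by simpa using h1) (by simpa using h2)

theorem nloc_A {k : S.ι} {q : ℂ × ℂ} (hq : RegA S Ra k q) {g : ℂ × ℂ → ℂ} (hg : InvAt S Ra k q g) :
    ∃ L : ℂ × ℂ → EN 2, AnalyticAt ℂ L q ∧ L q ≠ 0 ∧ ∀ᶠ x in 𝓝 q, hA (S.κ k x) (fderiv ℂ (S.κ k) x (S.v k x)) = (jc (S.κ k) x * g x) • L x := by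
  obtain ⟨g₀, N, hg₀, hN, hN0, hNe⟩ := nloc_A0 hq
  obtain ⟨u, hu, hu0, hue⟩ := invAt_unit hq.v_ne hq.mem hg₀ hg
  refine ⟨fun x => (u x)⁻¹ • NLoc_emb (N x), (hu.fun_inv hu0).fun_smul ((NLoc_emb.analyticAt _).fun_comp hN),
    smul_ne_zero (inv_ne_zero hu0) (NLoc_emb_ne hN0), ?_⟩
  filter_upwards [hNe, hue, hu.continuousAt.eventually_ne hu0] with x h1 h2 h3
  have h4 : hA (S.κ k x) (fderiv ℂ (S.κ k) x (S.v k x)) = NLoc_emb (hv2 (S.κ k) (S.v k) x) := rfl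
  rw [h4, h1, map_smul, h2, smul_smul]
  congr 1
  field_simp

end Pool.Agent.MQ3

end
end

section

/-!
# MQ3 NLocB: the local form of the potential of a box of the second type, at a chart point off the axes
-/

set_option autoImplicit false

open Topology Filter Metric MvPolynomial MeasureTheory Laplacian

noncomputable section

namespace Pool.Agent.MQ3

open Pool.Agent.H36.BP (EN fs)
open Pool.Agent.H17EF (projVar coneE)

/-! ### vectors with three coordinates -/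

theorem an_vec3 {a b c : ℂ × ℂ → ℂ} {q : ℂ × ℂ} (ha : AnalyticAt ℂ a q) (hb : AnalyticAt ℂ b q) (hc : AnalyticAt ℂ c q) :
    AnalyticAt ℂ (fun x => (WithLp.toLp 2 ![a x, b x, c x] : EN 2)) q := by
  have h1 : AnalyticAt ℂ (fun x => (![a x, b x, c x] : Fin 3 → ℂ)) q := by
    rw [analyticAt_pi_iff]
    intro i
    fin_cases i
    · exact ha
    · exact hb
    · exact hc
  exact ((PiLp.continuousLinearEquiv 2 ℂ (fun _ : Fin 3 => ℂ)).symm.toContinuousLinearMap.analyticAt _).comp h1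

theorem vec3_eq_zero {a b c : ℂ} (h : (WithLp.toLp 2 ![a, b, c] : EN 2) = 0) : a = 0 ∧ b = 0 ∧ c = 0 := by
  have h1 : (![a, b, c] : Fin 3 → ℂ) = 0 := congrArg (fun v : EN 2 => v.ofLp) h
  exact ⟨congrFun h1 0, congrFun h1 1, congrFun h1 2⟩

theorem smul_vec3 (t a b c : ℂ) : t • (WithLp.toLp 2 ![a, b, c] : EN 2) = WithLp.toLp 2 ![t * a, t * b, t * c] := by
  rw [← WithLp.toLp_smul]
  congr 1
  ext i
  fin_cases i <;> rfl

/-! ### smooth curves -/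

/-- division with the derivative at the point -/
theorem quot_fderiv {P : ℂ × ℂ} {G f a : ℂ × ℂ → ℂ} (hG : AnalyticAt ℂ G P) (hG0 : G P = 0) (ha : AnalyticAt ℂ a P) (h : ∀ᶠ Q in 𝓝 P, f Q = G Q • a Q) :
    ∀ w, fderiv ℂ f P w = a P * fderiv ℂ G P w := by
  intro w
  have h1 : HasFDerivAt (fun Q => G Q * a Q) (G P • fderiv ℂ a P + a P • fderiv ℂ G P) P :=
    hG.differentiableAt.hasFDerivAt.mul ha.differentiableAt.hasFDerivAt
  have h2 : f =ᶠ[𝓝 P] fun Q => G Q * a Q := h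
  rw [h2.fderiv_eq, h1.fderiv, hG0]
  simp

theorem quot_ne {P : ℂ × ℂ} {G f a : ℂ × ℂ → ℂ} (hf : fderiv ℂ f P ≠ 0) (h : ∀ w, fderiv ℂ f P w = a P * fderiv ℂ G P w) : a P ≠ 0 := by
  intro h0
  apply hf
  ext1
  · ext1
    rw [ContinuousLinearMap.comp_apply, h, h0, zero_mul]
    rfl
  · ext1
    rw [ContinuousLinearMap.comp_apply, h, h0, zero_mul]
    rfl

variable {M : ℕ} {P : Ideal (MvPolynomial (Fin (M + 1)) ℂ)} {RD : MvPolynomial (Fin (M + 1)) ℂ} {m : ℕ} {X : NCModel P RD} {θ : WDiff (coneE P) m}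
  {l : LF M} {S : Web X θ l} {Ra : MvPolynomial (Fin (M + 1)) ℂ}

theorem nloc_B {k : S.ι} {q : ℂ × ℂ} (hq : Reg S Ra k q) (hq' : q.1 * q.2 ≠ 0) {u : ℂ × ℂ → ℂ} (hu : AnalyticAt ℂ u (S.κ k q))
    (hu0 : ∀ᶠ p in 𝓝 (S.κ k q), (eval (X.ρ k.1 p).ofLp Ra = 0 ↔ u p = 0) ∧ (u p = 0 → fderiv ℂ u p ≠ 0)) {g : ℂ × ℂ → ℂ} (hg : InvAt S Ra k q g) :
    ∃ L : ℂ × ℂ → EN 2, AnalyticAt ℂ L q ∧ L q ≠ 0 ∧ ∀ᶠ x in 𝓝 q, hB u (S.κ k x) (fderiv ℂ (S.κ k) x (S.v k x)) = (jc (S.κ k) x * g x) • L x := by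
  have hmem : q ∈ S.D k := by
    rcases hq with h | h
    · exact h.mem
    · exact h.mem
  have hv0 : S.v k q ≠ 0 := by
    rcases hq with h | h
    · exact h.v_ne
    · exact h.v_ne
  have hv : AnalyticAt ℂ (S.v k) q := (S.c k).v_an q hmem.1
  have hκ : ∀ x, AnalyticAt ℂ (S.κ k) x := fun x => analyticAt_mono x
  have hκt : Tendsto (S.κ k) (𝓝 q) (𝓝 (S.κ k q)) := (hκ q).continuousAt
  have hκ0 : (S.κ k q).1 * (S.κ k q).2 ≠ 0 := by
    have h1 : q.1 ≠ 0 := left_ne_zero_of_mul hq'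
    have h2 : q.2 ≠ 0 := right_ne_zero_of_mul hq'
    exact mul_ne_zero (mul_ne_zero (pow_ne_zero _ h1) (pow_ne_zero _ h2)) (mul_ne_zero (pow_ne_zero _ h1) (pow_ne_zero _ h2))
  have hJ : jc (S.κ k) q ≠ 0 := by
    intro h0
    have h1 := jc_mono (w := (S.c k).w) (w' := (S.c k).w') q
    have h2 : jc (mono (S.c k).w (S.c k).w') q = 0 := h0
    rw [h2, mul_zero] at h1
    have h3 : ((dt (S.c k).w (S.c k).w' : ℤ) : ℂ) ≠ 0 := by
      exact_mod_cast (S.c k).pos.ne'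
    exact mul_ne_zero h3 hκ0 h1.symm
  have hJa : AnalyticAt ℂ (jc (S.κ k)) q := jc_an (hκ q)
  -- the divisor is empty near `q`
  have hRD : ∀ᶠ x in 𝓝 q, eval (S.σ k x).ofLp RD ≠ 0 := by
    have h1 : ∀ᶠ x in 𝓝 q, S.κ k x ∈ X.B k.1 := hκt.eventually ((X.isOpen k.1).mem_nhds hmem.2)
    have h2 : ∀ᶠ x in 𝓝 q, (S.κ k x).1 * (S.κ k x).2 ≠ 0 := by
      have h3 : ContinuousAt (fun x => (S.κ k x).1 * (S.κ k x).2) q := (hκ q).continuousAt.fst.mul (hκ q).continuousAt.snd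
      exact h3.eventually_ne hκ0
    filter_upwards [h1, h2] with x h3 h4 h5
    exact h4 ((X.div k.1 _ h3).1 h5)
  have hU : AnalyticAt ℂ (fun x => u (S.κ k x)) q := hu.fun_comp (hκ q)
  have hRU : ∀ᶠ x in 𝓝 q, (eval (S.σ k x).ofLp Ra = 0 ↔ u (S.κ k x) = 0) := by
    filter_upwards [hκt.eventually hu0] with x hx
    exact hx.1
  have hdU : ∀ᶠ x in 𝓝 q, fderiv ℂ (fun y => u (S.κ k y)) x (S.v k x) = fderiv ℂ u (S.κ k x) (fderiv ℂ (S.κ k) x (S.v k x)) := by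
    filter_upwards [hκt.eventually hu.eventually_analyticAt] with x hx
    have h1 : HasFDerivAt (fun y => u (S.κ k y)) ((fderiv ℂ u (S.κ k x)).comp (fderiv ℂ (S.κ k) x)) x :=
      hx.differentiableAt.hasFDerivAt.comp x (hκ x).differentiableAt.hasFDerivAt
    rw [h1.fderiv]
    rfl
  obtain ⟨hga, hgr, ⟨c, hca, hc⟩, h, hha, hgh, hhr⟩ := hg
  have hgh' : ∀ᶠ x in 𝓝 q, (u (S.κ k x) = 0 ↔ g x * h x = 0) := by
    filter_upwards [hRD, hRU, hgh] with x h1 h2 h3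
    rw [← h3, ← h2, map_mul, mul_eq_zero, or_iff_right h1]
  -- the vector
  have hκv := analyticAt_fderiv_app (hκ q) hv
  have hE : AnalyticAt ℂ (fun x => hB u (S.κ k x) (fderiv ℂ (S.κ k) x (S.v k x))) q := by
    have h1 : AnalyticAt ℂ (fun x => (WithLp.toLp 2 ![fderiv ℂ (fun y => u (S.κ k y)) x (S.v k x), u (S.κ k x) * (fderiv ℂ (S.κ k) x (S.v k x)).1,
        u (S.κ k x) * (fderiv ℂ (S.κ k) x (S.v k x)).2] : EN 2)) q :=
      an_vec3 (analyticAt_fderiv_app hU hv) (hU.mul (analyticAt_fst.fun_comp hκv)) (hU.mul (analyticAt_snd.fun_comp hκv))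
    refine h1.congr ?_
    filter_upwards [hdU] with x hx
    rw [hx]
    rfl
  -- the case of a unit `g`
  have hunit : g q ≠ 0 → hB u (S.κ k q) (fderiv ℂ (S.κ k) q (S.v k q)) ≠ 0 →
      ∃ L : ℂ × ℂ → EN 2, AnalyticAt ℂ L q ∧ L q ≠ 0 ∧ ∀ᶠ x in 𝓝 q, hB u (S.κ k x) (fderiv ℂ (S.κ k) x (S.v k x)) = (jc (S.κ k) x * g x) • L x := by
    intro h1 h2
    have h3 : jc (S.κ k) q * g q ≠ 0 := mul_ne_zero hJ h1
    refine ⟨fun x => (jc (S.κ k) x * g x)⁻¹ • hB u (S.κ k x) (fderiv ℂ (S.κ k) x (S.v k x)), ((hJa.mul hga).inv h3).smul hE,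
      smul_ne_zero (inv_ne_zero h3) h2, ?_⟩
    filter_upwards [(hJa.mul hga).continuousAt.eventually_ne h3] with x hx
    have hx' : jc (S.κ k) x * g x ≠ 0 := hx
    rw [smul_smul, mul_inv_cancel₀ hx', one_smul]
  by_cases hU0 : u (S.κ k q) = 0
  · -- the curve goes through `q`
    have hdu : fderiv ℂ u (S.κ k q) ≠ 0 := hu0.self_of_nhds.2 hU0
    have hB' : RegB S Ra k q := by
      rcases hq with h1 | h1
      · exact absurd (hRU.self_of_nhds.2 hU0) (h1.alg.self_of_nhds hq')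
      · exact h1
    obtain ⟨G, hGa, hG0, hdG, hGR, hGv⟩ := hB'.crv
    have hUG : ∀ᶠ x in 𝓝 q, (u (S.κ k x) = 0 ↔ G x = 0) := by
      filter_upwards [hRU, hGR] with x h1 h2
      rw [← h1, h2]
    have hdU0 : fderiv ℂ (fun y => u (S.κ k y)) q ≠ 0 := by
      intro h1
      have h2 : fderiv ℂ (fun y => u (S.κ k y)) q = (fderiv ℂ u (S.κ k q)).comp (fderiv ℂ (S.κ k) q) :=
        (hu.differentiableAt.hasFDerivAt.comp q (hκ q).differentiableAt.hasFDerivAt).fderiv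
      apply hdu
      have hinj : Function.Injective (fderiv ℂ (S.κ k) q) := by
        rw [injective_iff_map_eq_zero]
        intro w hw
        exact eq_zero_of_jc hJ hw
      have hsurj : Function.Surjective (fderiv ℂ (S.κ k) q) := by
        have h3 : Function.Injective ((fderiv ℂ (S.κ k) q : ℂ × ℂ →L[ℂ] ℂ × ℂ) : ℂ × ℂ →ₗ[ℂ] ℂ × ℂ) := hinj
        exact LinearMap.injective_iff_surjective.1 h3
      have key : ∀ y : ℂ × ℂ, fderiv ℂ u (S.κ k q) y = 0 := by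
        intro y
        obtain ⟨w, hw⟩ := hsurj y
        have h4 := congrArg (fun L : ℂ × ℂ →L[ℂ] ℂ => L w) (h2.symm.trans h1)
        simpa [hw] using h4
      exact ContinuousLinearMap.ext key
    obtain ⟨b, hba, hb⟩ := exists_quot_smooth hGa hG0 hdG hU (by filter_upwards [hUG] with x hx using hx.2)
    have hdb := quot_fderiv hGa hG0 hba hb
    have hbq : b q ≠ 0 := quot_ne hdU0 hdb
    rcases hGv with ht | hi
    · -- transversal
      have htU : fderiv ℂ (fun y => u (S.κ k y)) q (S.v k q) ≠ 0 := by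
        rw [hdb]
        exact mul_ne_zero hbq ht
      apply hunit
      · intro hg0
        have h1 : fderiv ℂ g q (S.v k q) = 0 := by rw [hc.self_of_nhds, hg0, mul_zero]
        obtain ⟨a', ha', h2⟩ := exists_quot_smooth hga hg0 (hgr.self_of_nhds hg0) hU (by
          filter_upwards [hgh'] with x hx h3
          rw [hx, h3, zero_mul])
        have h3 := quot_fderiv hga hg0 ha' h2
        exact htU (by rw [h3, h1, mul_zero])
      · intro h1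
        exact htU (by rw [hdU.self_of_nhds]; exact (vec3_eq_zero h1).1)
    · -- invariant
      have hinvU : ∀ᶠ x in 𝓝 q, u (S.κ k x) = 0 → fderiv ℂ (fun y => u (S.κ k y)) x (S.v k x) = 0 := by
        have h1 : ∀ᶠ x in 𝓝 q, ∀ᶠ y in 𝓝 x, u (S.κ k y) = G y • b y := eventually_eventually_nhds.2 hb
        filter_upwards [h1, hUG, hi, hGa.eventually_analyticAt, hba.eventually_analyticAt] with x h2 h3 h4 h5 h6 h7
        have h8 : G x = 0 := h3.1 h7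
        rw [quot_fderiv h5 h8 h6 h2, h4 h8, mul_zero]
      obtain ⟨a, haa, ha⟩ := exists_cof hU hU0 hdU0 hv hinvU
      have hhq : h q ≠ 0 := by
        intro hh0
        obtain ⟨hg1, hd1⟩ := hhr.self_of_nhds hh0
        have hdh : fderiv ℂ h q ≠ 0 := fun h1 => hd1 (by rw [h1]; rfl)
        obtain ⟨a', ha', h2⟩ := exists_quot_smooth hha hh0 hdh hU (by
          filter_upwards [hgh'] with x hx h3
          rw [hx, h3, mul_zero])
        have h3 := quot_fderiv hha hh0 ha' h2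
        have h4 := h3 (S.v k q)
        rw [hinvU.self_of_nhds hU0] at h4
        exact quot_ne hdU0 h3 ((mul_eq_zero.1 h4.symm).resolve_right hd1)
      have hg0 : g q = 0 := (mul_eq_zero.1 (hgh'.self_of_nhds.1 hU0)).resolve_right hhq
      obtain ⟨a', ha', h2⟩ := exists_quot_smooth hga hg0 (hgr.self_of_nhds hg0) hU (by
        filter_upwards [hgh'] with x hx h3
        rw [hx, h3, zero_mul])
      have h3 := quot_fderiv hga hg0 ha' h2
      have ha'q : a' q ≠ 0 := quot_ne hdU0 h3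
      refine ⟨fun x => ((jc (S.κ k) x)⁻¹ * a' x) • (WithLp.toLp 2 ![a x, (fderiv ℂ (S.κ k) x (S.v k x)).1, (fderiv ℂ (S.κ k) x (S.v k x)).2] : EN 2),
        ((hJa.inv hJ).mul ha').smul (an_vec3 haa (analyticAt_fst.fun_comp hκv) (analyticAt_snd.fun_comp hκv)),
        smul_ne_zero (mul_ne_zero (inv_ne_zero hJ) ha'q) ?_, ?_⟩
      · intro h4
        obtain ⟨-, h5, h6⟩ := vec3_eq_zero h4
        exact hv0 (eq_zero_of_jc hJ (Prod.ext h5 h6))
      · filter_upwards [hdU, ha, h2, hJa.continuousAt.eventually_ne hJ] with x h4 h5 h6 h7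
        have h8 : hB u (S.κ k x) (fderiv ℂ (S.κ k) x (S.v k x)) =
            u (S.κ k x) • (WithLp.toLp 2 ![a x, (fderiv ℂ (S.κ k) x (S.v k x)).1, (fderiv ℂ (S.κ k) x (S.v k x)).2] : EN 2) := by
          rw [smul_vec3]
          unfold hB
          rw [← h4, h5]
        rw [h8, smul_smul]
        congr 1
        rw [h6, smul_eq_mul]
        field_simp
  · -- the curve does not go through `q`
    have hg0 : g q ≠ 0 := fun h1 => hU0 (hgh'.self_of_nhds.2 (by rw [h1, zero_mul]))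
    refine hunit hg0 fun h1 => ?_
    obtain ⟨-, h2, h3⟩ := vec3_eq_zero h1
    exact hv0 (eq_zero_of_jc hJ (Prod.ext ((mul_eq_zero.1 h2).resolve_left hU0) ((mul_eq_zero.1 h3).resolve_left hU0)))

end Pool.Agent.MQ3

end
end
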