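import Pool.Agent.H43.TL2.M116
import Pool.Agent.H43.TL2.M120
import Pool.Agent.H43.TL2.M121

/-! The parts of this file: MQ3.DensC, MQ3.DensN, MQ3.BdN, MQ3.BdPN. -/

section

/-!
# MQ3 DensC: a continuous density for the lifts to one chart, on a compact set
-/

set_option autoImplicit false

open Topology Filter Metric MvPolynomial MeasureTheory Laplacian

noncomputable section

namespace Pool.Agent.MQ3

open Pool.Agent.H36.BP (EN fs)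
open Pool.Agent.H17EF (projVar coneE)
open Pool.Agent.H30M (tau tau_nonneg contDiff_tau hcs_tau)
open Pool.Agent.MQ (lam En ztv dvg gr dv Pack)

/-- an open condition which fails at isolated points holds almost everywhere -/
theorem ae_of_ev {U : Set ℂ} (hU : IsOpen U) {Q : ℂ → Prop} (h : ∀ z ∈ U, ∀ᶠ w in 𝓝[≠] z, Q w) : ∀ᵐ z : ℂ, z ∈ U → Q z := by
  rw [← ae_restrict_iff' hU.measurableSet]
  have h1 : {z | Q z} ∈ codiscreteWithin U := by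
    rw [mem_codiscreteWithin_iff_forall_mem_nhdsNE]
    intro z hz
    filter_upwards [h z hz] with w hw
    exact Or.inl hw
  exact ae_restrict_le_codiscreteWithin hU.measurableSet h1

variable {M : ℕ} {P : Ideal (MvPolynomial (Fin (M + 1)) ℂ)} {RD : MvPolynomial (Fin (M + 1)) ℂ} {m : ℕ} {X : NCModel P RD} {θ : WDiff (coneE P) m}
  {l : LF M} {S : Web X θ l}

theorem kap_cont (k : S.ι) : Continuous (S.κ k) := by
  show Continuous fun q => mono (S.c k).w (S.c k).w' q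
  unfold mono
  fun_prop

theorem chD_open (k : S.ι) : IsOpen (S.D k) := isOpen_Dm.inter ((X.isOpen k.1).preimage (kap_cont k))

theorem chart_dens (k : S.ι) {K : Set (ℂ × ℂ)} (hK : IsCompact K) (hKD : K ⊆ S.D k) (CK : X.ι → Set (ℂ × ℂ) → ℝ) : ∃ A : ℝ, 0 ≤ A ∧ ∀ F : ℂ → EN M, WCrv θ RD F →
    ∀ (Y : NCLift X F) (lm : ℂ → ℝ), Continuous lm → (∀ z, 0 ≤ lm z) → (∀ i K, K ⊆ X.B i → IsCompact K → ∀ z ∈ Y.U i, Y.p i z ∈ K → ‖deriv (Y.p i) z‖ ≤ CK i K * lm z) →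
      ∃ g : ℂ → ℝ, Continuous g ∧ (∀ z, 0 ≤ g z) ∧ (∃ K' : ℝ, ∀ R, 1 ≤ R → ∫ z, tau R z * g z ^ 2 ≤ A * (∫ z, tau R z * lm z ^ 2) + K') ∧
        ∀ z ∈ S.Om Y k, S.lf Y k z ∈ K → ‖deriv (S.lf Y k) z‖ ≤ g z := by
  classical
  obtain ⟨L, hL, hKL, hLD⟩ := exists_compact_between hK (chD_open k) hKD
  obtain ⟨χ, hχ0, hχ1, hχ⟩ := exists_continuous_zero_one_of_isClosed (isOpen_interior (s := L)).isClosed_compl hK.isClosed
    (Set.disjoint_left.2 fun q h1 h2 => h1 (hKL h2))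
  have hK₁ : IsCompact (S.κ k '' L) := hL.image (kap_cont k)
  have hK₁B : S.κ k '' L ⊆ X.B k.1 := by
    rintro _ ⟨q, hq, rfl⟩
    exact (hLD hq).2
  obtain ⟨Mb, hMb⟩ := hL.isBounded.exists_norm_le
  have hD : ((S.c k).w.1 : ℤ) * (S.c k).w'.2 - (S.c k).w'.1 * (S.c k).w.2 ≠ 0 := by
    have h1 := (S.c k).pos
    unfold dt at h1
    intro h2
    have h3 : ((S.c k).w.1 : ℤ) * (S.c k).w'.2 - (S.c k).w.2 * (S.c k).w'.1 = 0 := by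
      rw [← h2]
      ring
    omega
  have hB1 : ∀ q ∈ X.B k.1, ‖q.1‖ ≤ 1 ∧ ‖q.2‖ ≤ 1 := fun q hq => ⟨(X.sub k.1 hq).1.le, (X.sub k.1 hq).2.le⟩
  obtain ⟨A, hA, hE⟩ := enLB (X.isOpen k.1) hB1 (CK k.1) hK₁ hK₁B hD Mb
  refine ⟨A, hA, fun F hF Y lm hc h0 hle => ?_⟩
  have hcr : CrvU (X.B k.1) (CK k.1) (Y.U k.1) (Y.p k.1) lm :=
    ⟨Y.isOpen k.1, Y.an k.1, Y.mem k.1, Y.closed k.1, hc, h0, fun K hK hKc => hle k.1 K hK hKc⟩
  have hbc := bcrv (l := l) hF Y k.1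
  have hOo := Om_open hF Y k
  have hOs := Om_sub hF Y k
  have han := lfN_an hF Y k
  have hmem := lfN_mem hF Y k
  obtain ⟨V, hV⟩ : ∃ V, V = S.Om Y k := ⟨_, rfl⟩
  obtain ⟨f, hf⟩ : ∃ f, f = S.lf Y k := ⟨_, rfl⟩
  rw [← hV] at hOo hOs han hmem
  rw [← hf] at han hmem
  have hs : DifferentiableOn ℂ (fun z => (f z).1) V := fun z hz => (han z hz).differentiableAt.fst.differentiableWithinAt
  have ht : DifferentiableOn ℂ (fun z => (f z).2) V := fun z hz => (han z hz).differentiableAt.snd.differentiableWithinAt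
  have hcl : IsClosed {z | z ∈ V ∧ f z ∈ L} := by
    rw [hV, hf]
    exact lfN_closed hF Y k hL hLD
  have hT : MeasurableSet ({z | z ∈ V ∧ f z ∈ L} ∩ {z | (Y.p k.1 z).1 ≠ 0 ∧ (Y.p k.1 z).2 ≠ 0}) := by
    have h1 := hcl.measurableSet.inter (meas_xy hcr hK₁ hK₁B)
    have h2 : {z | z ∈ V ∧ f z ∈ L} ∩ {z | (Y.p k.1 z).1 ≠ 0 ∧ (Y.p k.1 z).2 ≠ 0} =
        {z | z ∈ V ∧ f z ∈ L} ∩ ({z | z ∈ Y.U k.1 ∧ Y.p k.1 z ∈ S.κ k '' L} ∩ {z | (Y.p k.1 z).1 ≠ 0 ∧ (Y.p k.1 z).2 ≠ 0}) := by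
      ext z
      constructor
      · rintro ⟨⟨h3, h4⟩, h5⟩
        exact ⟨⟨h3, h4⟩, ⟨hOs h3, ⟨f z, h4, (hmem z h3).2⟩⟩, h5⟩
      · rintro ⟨h3, _, h5⟩
        exact ⟨h3, h5⟩
    rw [h2]
    exact h1
  have hx : ∀ z ∈ V, (Y.p k.1 z).1 = (f z).1 ^ (S.c k).w.1 * (f z).2 ^ (S.c k).w'.1 := fun z hz => by
    rw [← (hmem z hz).2]
    rfl
  have hy : ∀ z ∈ V, (Y.p k.1 z).2 = (f z).1 ^ (S.c k).w.2 * (f z).2 ^ (S.c k).w'.2 := fun z hz => by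
    rw [← (hmem z hz).2]
    rfl
  obtain ⟨K', hK'⟩ := hE (Y.U k.1) (Y.p k.1) lm hcr (fun z hz => (hbc.ne z hz).mono fun w hw => Or.inl hw.1) V (fun z => (f z).1) (fun z => (f z).2) hOo hOs hs ht hx hy
    _ hT (fun z hz => hz.1.1) fun z hz => ⟨⟨f z, hz.1.2, (hmem z hz.1.1).2⟩, (norm_fst_le _).trans (hMb _ hz.1.2), (norm_snd_le _).trans (hMb _ hz.1.2), hz.2⟩
  have hnd : ∀ z ∈ V, ‖deriv f z‖ = max ‖deriv (fun z => (f z).1) z‖ ‖deriv (fun z => (f z).2) z‖ := by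
    intro z hz
    have h1 : HasDerivAt f (deriv f z) z := (han z hz).differentiableAt.hasDerivAt
    have h2 : HasDerivAt (fun w => (f w).1) (deriv f z).1 z := h1.fst
    have h3 : HasDerivAt (fun w => (f w).2) (deriv f z).2 z := h1.snd
    rw [h2.deriv, h3.deriv, Prod.norm_def]
  obtain ⟨g, hg⟩ : ∃ g : ℂ → ℝ, g = fun z => if z ∈ V then χ (f z) * ‖deriv f z‖ else 0 := ⟨_, rfl⟩
  have hχn : ∀ q, 0 ≤ χ q := fun q => (hχ q).1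
  have hχle : ∀ q, χ q ≤ 1 := fun q => (hχ q).2
  have hχL : ∀ q, q ∉ L → χ q = 0 := fun q hq => hχ0 fun h1 => hq (interior_subset h1)
  have hg0 : ∀ z, z ∉ {z | z ∈ V ∧ f z ∈ L} → g z = 0 := by
    intro z hz
    rw [hg]
    by_cases hzV : z ∈ V
    · show (if z ∈ V then χ (f z) * ‖deriv f z‖ else 0) = 0
      rw [if_pos hzV, hχL _ fun h1 => hz ⟨hzV, h1⟩, zero_mul]
    · show (if z ∈ V then χ (f z) * ‖deriv f z‖ else 0) = 0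
      rw [if_neg hzV]
  have hgn : ∀ z, 0 ≤ g z := by
    intro z
    rw [hg]
    show 0 ≤ (if z ∈ V then χ (f z) * ‖deriv f z‖ else 0)
    split_ifs
    · exact mul_nonneg (hχn _) (norm_nonneg _)
    · exact le_rfl
  have hgle : ∀ z ∈ V, g z ≤ ‖deriv f z‖ := by
    intro z hz
    rw [hg]
    show (if z ∈ V then χ (f z) * ‖deriv f z‖ else 0) ≤ _
    rw [if_pos hz]
    exact mul_le_of_le_one_left (norm_nonneg _) (hχle _)
  have hgc : Continuous g := by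
    rw [continuous_iff_continuousAt]
    intro z
    by_cases hz : z ∈ V
    · have h1 : ContinuousAt (fun w => χ (f w) * ‖deriv f w‖) z :=
        (χ.continuous.continuousAt.comp (han z hz).continuousAt).mul (han z hz).deriv.continuousAt.norm
      refine h1.congr ?_
      filter_upwards [hOo.mem_nhds hz] with w hw
      rw [hg]
      show _ = (if w ∈ V then χ (f w) * ‖deriv f w‖ else 0)
      rw [if_pos hw]
    · have h1 : z ∉ {z | z ∈ V ∧ f z ∈ L} := fun h2 => hz h2.1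
      refine (continuousAt_const (y := (0 : ℝ))).congr ?_
      filter_upwards [hcl.isOpen_compl.mem_nhds h1] with w hw
      exact (hg0 w hw).symm
  refine ⟨g, hgc, hgn, ⟨K', fun R hR => ?_⟩, ?_⟩
  · obtain ⟨i1, i2⟩ := hK' R hR
    refine le_trans ?_ i2
    refine integral_mono_ae (tau_int hR (hgc.pow 2)) i1 ?_
    filter_upwards [ae_of_ev (Y.isOpen k.1) hbc.ne] with z hz
    refine mul_le_mul_of_nonneg_left ?_ (tau_nonneg hR z)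
    by_cases hzT : z ∈ {z | z ∈ V ∧ f z ∈ L}
    · rw [Set.indicator_of_mem (show z ∈ {z | z ∈ V ∧ f z ∈ L} ∩ {z | (Y.p k.1 z).1 ≠ 0 ∧ (Y.p k.1 z).2 ≠ 0} from ⟨hzT, hz (hOs hzT.1)⟩), ← hnd z hzT.1]
      exact pow_le_pow_left₀ (hgn z) (hgle z hzT.1) 2
    · rw [hg0 z hzT]
      have : (0 : ℝ) ^ 2 = 0 := by norm_num
      rw [this]
      exact Set.indicator_nonneg (fun z _ => sq_nonneg _) z
  · rw [← hV, ← hf]
    intro z hz hzK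
    rw [hg]
    show _ ≤ (if z ∈ V then χ (f z) * ‖deriv f z‖ else 0)
    rw [if_pos hz, hχ1 hzK]
    simp

end Pool.Agent.MQ3

end
end

section

/-!
# MQ3 DensN: the density of the cover
-/

set_option autoImplicit false

open Topology Filter Metric MvPolynomial MeasureTheory Laplacian

noncomputable section

namespace Pool.Agent.MQ3

open Pool.Agent.H36.BP (EN fs)
open Pool.Agent.H17EF (projVar coneE)
open Pool.Agent.H30M (tau tau_nonneg contDiff_tau hcs_tau)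
open Pool.Agent.MQ (lam En ztv dvg gr dv Pack)

variable {M : ℕ} {P : Ideal (MvPolynomial (Fin (M + 1)) ℂ)} {RD : MvPolynomial (Fin (M + 1)) ℂ} {m : ℕ} {X : NCModel P RD} {θ : WDiff (coneE P) m}
  {l : LF M} {S : Web X θ l} {Ra : MvPolynomial (Fin (M + 1)) ℂ}

/-- `g` is a function whose energy is at most `A` times the energy of `lm`, up to a constant -/
def EG (A : ℝ) (lm g : ℂ → ℝ) : Prop :=
  Continuous g ∧ (∀ z, 0 ≤ g z) ∧ ∃ K : ℝ, ∀ R, 1 ≤ R → ∫ z, tau R z * g z ^ 2 ≤ A * (∫ z, tau R z * lm z ^ 2) + K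

theorem EG.add {A B : ℝ} {lm g h : ℂ → ℝ} (h1 : EG A lm g) (h2 : EG B lm h) : EG (2 * A + 2 * B) lm fun z => g z + h z := by
  obtain ⟨c1, n1, K1, e1⟩ := h1
  obtain ⟨c2, n2, K2, e2⟩ := h2
  refine ⟨c1.add c2, fun z => add_nonneg (n1 z) (n2 z), 2 * K1 + 2 * K2, fun R hR => ?_⟩
  have i1 : Integrable fun z => tau R z * g z ^ 2 := tau_int hR (c1.pow 2)
  have i2 : Integrable fun z => tau R z * h z ^ 2 := tau_int hR (c2.pow 2)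
  have i3 : Integrable fun z => tau R z * (g z + h z) ^ 2 := tau_int hR ((c1.add c2).pow 2)
  have h3 : ∫ z, tau R z * (g z + h z) ^ 2 ≤ ∫ z, (2 * (tau R z * g z ^ 2) + 2 * (tau R z * h z ^ 2)) := by
    refine integral_mono i3 ((i1.const_mul 2).add (i2.const_mul 2)) fun z => ?_
    have h4 : (g z + h z) ^ 2 ≤ 2 * g z ^ 2 + 2 * h z ^ 2 := by nlinarith [sq_nonneg (g z - h z)]
    have h5 := mul_le_mul_of_nonneg_left h4 (tau_nonneg hR z)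
    show tau R z * (g z + h z) ^ 2 ≤ 2 * (tau R z * g z ^ 2) + 2 * (tau R z * h z ^ 2)
    linarith
  rw [integral_add (i1.const_mul 2) (i2.const_mul 2), integral_const_mul, integral_const_mul] at h3
  have h6 := e1 R hR
  have h7 := e2 R hR
  nlinarith

theorem EG.zero {lm : ℂ → ℝ} : EG 0 lm fun _ => 0 := by
  refine ⟨continuous_const, fun _ => le_rfl, 0, fun R _ => ?_⟩
  simp

theorem EG.mul {lm : ℂ → ℝ} (hc : Continuous lm) (h0 : ∀ z, 0 ≤ lm z) {C : ℝ} (hC : 0 ≤ C) : EG (C ^ 2) lm fun z => C * lm z := by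
  refine ⟨continuous_const.mul hc, fun z => mul_nonneg hC (h0 z), 0, fun R hR => ?_⟩
  rw [← integral_const_mul, add_zero]
  refine le_of_eq (integral_congr_ae (Eventually.of_forall fun z => ?_))
  show tau R z * (C * lm z) ^ 2 = C ^ 2 * (tau R z * lm z ^ 2)
  ring

/-- finitely many densities have a common majorant -/
theorem exists_EG {ι : Type} [Fintype ι] {A : ι → ℝ} (hA : ∀ i, 0 ≤ A i) : ∃ B : ℝ, 0 ≤ B ∧ ∀ (lm : ℂ → ℝ) (g : ι → ℂ → ℝ), (∀ i, EG (A i) lm (g i)) →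
    ∃ G : ℂ → ℝ, EG B lm G ∧ ∀ i z, g i z ≤ G z := by
  classical
  have key : ∀ s : Finset ι, ∃ B : ℝ, 0 ≤ B ∧ ∀ (lm : ℂ → ℝ) (g : ι → ℂ → ℝ), (∀ i, EG (A i) lm (g i)) →
      ∃ G : ℂ → ℝ, EG B lm G ∧ ∀ i ∈ s, ∀ z, g i z ≤ G z := by
    intro s
    induction s using Finset.induction_on with
    | empty => exact ⟨0, le_rfl, fun lm g _ => ⟨fun _ => 0, EG.zero, fun i hi => absurd hi (Finset.notMem_empty i)⟩⟩
    | insert j s hj ih =>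
      obtain ⟨B, hB, h⟩ := ih
      refine ⟨2 * A j + 2 * B, by linarith [hA j], fun lm g hg => ?_⟩
      obtain ⟨G, hG, hle⟩ := h lm g hg
      refine ⟨fun z => g j z + G z, (hg j).add hG, fun i hi z => ?_⟩
      rcases Finset.mem_insert.1 hi with h1 | h1
      · rw [h1]
        linarith [hG.2.1 z]
      · linarith [hle i h1 z, (hg j).2.1 z]
  obtain ⟨B, hB, h⟩ := key Finset.univ
  exact ⟨B, hB, fun lm g hg => by
    obtain ⟨G, hG, hle⟩ := h lm g hg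
    exact ⟨G, hG, fun i z => hle i (Finset.mem_univ i) z⟩⟩

theorem exists_densN (C : Cov S Ra) (A₀ : ℝ) (CK : X.ι → Set (ℂ × ℂ) → ℝ) : ∃ A : ℝ, 0 ≤ A ∧ ∀ F : ℂ → EN M, WCrv θ RD F →
    ∀ (Y : NCLift X F) (lm₀ : ℂ → ℝ), NCDens Y A₀ CK lm₀ → ∃ lm : ℂ → ℝ, Dens C Y A lm := by
  have hKD : ∀ (k : Fin C.nN) (a : (S.V (C.b k)).ι), C.K k a ⊆ S.D ⟨C.b k, a⟩ := by
    intro k a q hq
    rcases hu : C.u k with _ | u'
    · exact (C.K_A k a hu q hq).1.mem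
    · rcases (C.K_B k a u' hu q hq).1 with h | h
      · exact h.mem
      · exact h.mem
  have h1 : ∀ k a, ∃ A : ℝ, 0 ≤ A ∧ ∀ F : ℂ → EN M, WCrv θ RD F → ∀ (Y : NCLift X F) (lm : ℂ → ℝ), Continuous lm → (∀ z, 0 ≤ lm z) →
      (∀ i K, K ⊆ X.B i → IsCompact K → ∀ z ∈ Y.U i, Y.p i z ∈ K → ‖deriv (Y.p i) z‖ ≤ CK i K * lm z) →
      ∃ g : ℂ → ℝ, Continuous g ∧ (∀ z, 0 ≤ g z) ∧ (∃ K' : ℝ, ∀ R, 1 ≤ R → ∫ z, tau R z * g z ^ 2 ≤ A * (∫ z, tau R z * lm z ^ 2) + K') ∧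
        ∀ z ∈ S.Om Y ⟨C.b k, a⟩, S.lf Y ⟨C.b k, a⟩ z ∈ C.K k a → ‖deriv (S.lf Y ⟨C.b k, a⟩) z‖ ≤ g z :=
    fun k a => chart_dens ⟨C.b k, a⟩ (C.K_compact k a) (hKD k a) CK
  have h2 : ∀ j, ∃ A : ℝ, 0 ≤ A ∧ ∀ F : ℂ → EN M, WCrv θ RD F → ∀ (Y : NCLift X F) (lm : ℂ → ℝ), Continuous lm → (∀ z, 0 ≤ lm z) →
      (∀ i K, K ⊆ X.B i → IsCompact K → ∀ z ∈ Y.U i, Y.p i z ∈ K → ‖deriv (Y.p i) z‖ ≤ CK i K * lm z) →
      ∃ g : ℂ → ℝ, Continuous g ∧ (∀ z, 0 ≤ g z) ∧ (∃ K' : ℝ, ∀ R, 1 ≤ R → ∫ z, tau R z * g z ^ 2 ≤ A * (∫ z, tau R z * lm z ^ 2) + K') ∧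
        ∀ z ∈ S.Om Y (C.ck j), S.lf Y (C.ck j) z ∈ closedBall (C.Q j) (C.r j) → ‖deriv (S.lf Y (C.ck j)) z‖ ≤ g z :=
    fun j => chart_dens (C.ck j) (isCompact_closedBall _ _) (C.P_sub j) CK
  choose A₁ hA₁ hE₁ using h1
  choose A₂ hA₂ hE₂ using h2
  obtain ⟨B₁, hB₁, hG₁⟩ := exists_EG (ι := Σ k : Fin C.nN, (S.V (C.b k)).ι) (A := fun i => A₁ i.1 i.2) fun i => hA₁ i.1 i.2
  obtain ⟨B₂, hB₂, hG₂⟩ := exists_EG (ι := Fin C.nP) (A := A₂) hA₂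
  obtain ⟨D, hD⟩ : ∃ D, D = 1 + ∑ k, |CK (C.b k) (closedBall (C.y k) (C.t k))| := ⟨_, rfl⟩
  have hD1 : 1 ≤ D := by
    rw [hD]
    have : 0 ≤ ∑ k, |CK (C.b k) (closedBall (C.y k) (C.t k))| := Finset.sum_nonneg fun k _ => abs_nonneg _
    linarith
  have hDk : ∀ k, CK (C.b k) (closedBall (C.y k) (C.t k)) ≤ D := by
    intro k
    rw [hD]
    have h3 := Finset.single_le_sum (f := fun k => |CK (C.b k) (closedBall (C.y k) (C.t k))|) (fun k _ => abs_nonneg _) (Finset.mem_univ k)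
    have h4 := le_abs_self (CK (C.b k) (closedBall (C.y k) (C.t k)))
    linarith
  obtain ⟨E, hE⟩ : ∃ E, E = 2 * D ^ 2 + 2 * (2 * B₁ + 2 * B₂) := ⟨_, rfl⟩
  have hE0 : 0 ≤ E := by
    rw [hE]
    positivity
  refine ⟨E * |A₀|, by positivity, fun F hF Y lm₀ h => ?_⟩
  have hc := h.cont
  have h0 : ∀ z, 0 ≤ lm₀ z := fun z => (Pool.Agent.H36.BP.fs_nonneg (F z) (deriv F z)).trans (h.le z)
  have hle := h.deriv_le
  obtain ⟨K₀, hK₀⟩ := h.energy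
  choose g₁ hg₁ using fun (i : Σ k : Fin C.nN, (S.V (C.b k)).ι) => hE₁ i.1 i.2 F hF Y lm₀ hc h0 hle
  choose g₂ hg₂ using fun j => hE₂ j F hF Y lm₀ hc h0 hle
  obtain ⟨G₁, hG₁', hle₁⟩ := hG₁ lm₀ g₁ fun i => ⟨(hg₁ i).1, (hg₁ i).2.1, (hg₁ i).2.2.1⟩
  obtain ⟨G₂, hG₂', hle₂⟩ := hG₂ lm₀ g₂ fun j => ⟨(hg₂ j).1, (hg₂ j).2.1, (hg₂ j).2.2.1⟩
  have hfin := (EG.mul hc h0 (show 0 ≤ D by linarith)).add (hG₁'.add hG₂')
  rw [← hE] at hfin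
  obtain ⟨cf, nf, K, eK⟩ := hfin
  have n1 := hG₁'.2.1
  have n2 := hG₂'.2.1
  have hDl : ∀ z, lm₀ z ≤ D * lm₀ z := fun z => le_mul_of_one_le_left (h0 z) hD1
  refine ⟨fun z => D * lm₀ z + (G₁ z + G₂ z), cf, fun z => ?_, ⟨E * K₀ + K, fun R hR => ?_⟩, fun k z hz hzK => ?_, fun k a z hz hzK => ?_, fun j z hz hzK => ?_⟩
  · have := h.le z
    linarith [hDl z, n1 z, n2 z]
  · refine (eK R hR).trans ?_
    have h3 := mul_le_mul_of_nonneg_left (hK₀ R hR) hE0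
    have h4 : 0 ≤ En F R := integral_nonneg fun z => mul_nonneg (tau_nonneg hR z) (sq_nonneg _)
    have h5 : A₀ * En F R ≤ |A₀| * En F R := mul_le_mul_of_nonneg_right (le_abs_self _) h4
    have h6 := mul_le_mul_of_nonneg_left h5 hE0
    have e1 : E * |A₀| * En F R = E * (|A₀| * En F R) := by ring
    rw [e1]
    linarith
  · have h3 := hle (C.b k) _ (C.N_sub k) (isCompact_closedBall _ _) z hz hzK
    have h4 : CK (C.b k) (closedBall (C.y k) (C.t k)) * lm₀ z ≤ D * lm₀ z := mul_le_mul_of_nonneg_right (hDk k) (h0 z)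
    linarith [n1 z, n2 z]
  · have h3 := (hg₁ ⟨k, a⟩).2.2.2 z hz hzK
    have h4 := hle₁ ⟨k, a⟩ z
    have h5 := hDl z
    simp only at h3
    linarith [n2 z, h0 z]
  · have h3 := (hg₂ j).2.2.2 z hz hzK
    have h4 := hle₂ j z
    have h5 := hDl z
    linarith [n1 z, h0 z]

end Pool.Agent.MQ3

end
end

section

/-!
# MQ3 BdN: the potentials of two boxes differ by a bounded function
-/

set_option autoImplicit false

open Topology Filter Metric MvPolynomial MeasureTheory Laplacian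

noncomputable section

namespace Pool.Agent.MQ3

open Pool.Agent.H36.BP (EN fs)
open Pool.Agent.H14.PP (Tan)
open Pool.Agent.H17BP (Surface IsForm)
open Pool.Agent.H17EF (projVar coneE)
open Pool.Agent.H30M (tau LogSing)
open Pool.Agent.MQ (lam En ztv dvg gr dv)

namespace BdN

variable {M : ℕ} {P : Ideal (MvPolynomial (Fin (M + 1)) ℂ)} {RD : MvPolynomial (Fin (M + 1)) ℂ} {m : ℕ} {X : NCModel P RD} {θ : WDiff (coneE P) m}
  {l : LF M} {S : Web X θ l} {Ra : MvPolynomial (Fin (M + 1)) ℂ}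

/-- `RD ≠ 0` at a chart point: the point is off the axes -/
theorem ax_ne {k : S.ι} {q : ℂ × ℂ} (h : q ∈ S.D k) (h0 : eval (X.ρ k.1 (S.κ k q)).ofLp RD ≠ 0) : q.1 * q.2 ≠ 0 := by
  intro h2
  apply h0
  rw [X.div k.1 _ h.2]
  have hpos := (S.c k).pos
  unfold dt at hpos
  show (q.1 ^ (S.c k).w.1 * q.2 ^ (S.c k).w'.1) * (q.1 ^ (S.c k).w.2 * q.2 ^ (S.c k).w'.2) = 0
  have h3 : (q.1 ^ (S.c k).w.1 * q.2 ^ (S.c k).w'.1) * (q.1 ^ (S.c k).w.2 * q.2 ^ (S.c k).w'.2) =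
      q.1 ^ ((S.c k).w.1 + (S.c k).w.2) * q.2 ^ ((S.c k).w'.1 + (S.c k).w'.2) := by ring
  rw [h3]
  rcases mul_eq_zero.1 h2 with h4 | h4
  · have h5 : (S.c k).w.1 + (S.c k).w.2 ≠ 0 := by
      intro h5
      have h6 : (S.c k).w.1 = 0 := by omega
      have h7 : (S.c k).w.2 = 0 := by omega
      rw [h6, h7] at hpos
      simp at hpos
    rw [h4, zero_pow h5, zero_mul]
  · have h5 : (S.c k).w'.1 + (S.c k).w'.2 ≠ 0 := by
      intro h5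
      have h6 : (S.c k).w'.1 = 0 := by omega
      have h7 : (S.c k).w'.2 = 0 := by omega
      rw [h6, h7] at hpos
      simp at hpos
    rw [h4, zero_pow h5, mul_zero]

/-- `Ra ≠ 0` at the regular points of the first type, off the axes -/
theorem Ra_ne {k : S.ι} {q : ℂ × ℂ} (h : RegA S Ra k q) (h0 : eval (X.ρ k.1 (S.κ k q)).ofLp RD ≠ 0) : eval (X.ρ k.1 (S.κ k q)).ofLp Ra ≠ 0 := by
  exact h.alg.self_of_nhds (ax_ne h.mem h0)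

theorem vrel (hd : ∃ d, RD.IsHomogeneous d) (hdR : ∃ d, Ra.IsHomogeneous d) (C : Cov S Ra) (k k' : Fin C.nN) {a : (S.V (C.b k)).ι}
    {a' : (S.V (C.b k')).ι} {q q' : ℂ × ℂ} (hq : q ∈ C.K k a) (hq' : q' ∈ C.K k' a') {Φ : ℂ × ℂ → ℂ × ℂ}
    (h : Chg X (C.b k) (C.b k') Φ (S.κ ⟨C.b k, a⟩ q)) (h0 : Φ (S.κ ⟨C.b k, a⟩ q) = S.κ ⟨C.b k', a'⟩ q') :
    VRel (C.H k) (C.H k') Φ (S.κ ⟨C.b k, a⟩ q) := by
  obtain ⟨c, hc, hceq⟩ := h.eq.self_of_nhds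
  rw [h0] at hceq
  have eD : eval (X.ρ (C.b k) (S.κ ⟨C.b k, a⟩ q)).ofLp RD = 0 ↔ eval (X.ρ (C.b k') (S.κ ⟨C.b k', a'⟩ q')).ofLp RD = 0 := by
    obtain ⟨d, hd⟩ := hd
    rw [hceq]
    exact eval_smul_hom hd hc _
  have eR : eval (X.ρ (C.b k) (S.κ ⟨C.b k, a⟩ q)).ofLp Ra = 0 ↔ eval (X.ρ (C.b k') (S.κ ⟨C.b k', a'⟩ q')).ofLp Ra = 0 := by
    obtain ⟨d, hd⟩ := hdR
    rw [hceq]
    exact eval_smul_hom hd hc _
  unfold Cov.H
  rcases hu : C.u k with _ | u <;> rcases hu' : C.u k' with _ | u'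
  · exact vrel_A hd h
  · obtain ⟨b1, b2, b3⟩ := C.N_B k' u' hu'
    have hp' := (C.K_B k' a' u' hu' q' hq').2
    have hD' := X.good (C.b k') _ (b1 hp')
    have hD : eval (X.ρ (C.b k) (S.κ ⟨C.b k, a⟩ q)).ofLp RD ≠ 0 := fun h2 => hD' (eD.1 h2)
    have hA := C.K_A k a hu q hq
    have hR := Ra_ne hA.1 hD
    have hpDS : S.κ ⟨C.b k, a⟩ q ∈ DS := by
      have h1 := X.sub _ h.mem
      have h2 : (S.κ ⟨C.b k, a⟩ q).1 * (S.κ ⟨C.b k, a⟩ q).2 ≠ 0 := fun h3 => hD ((X.div _ _ h.mem).2 h3)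
      exact ⟨⟨left_ne_zero_of_mul h2, h1.1⟩, right_ne_zero_of_mul h2, h1.2⟩
    refine vrel_AB h hpDS (by rw [h0]; exact b2 _ hp') ?_
    rw [h0]
    intro h3
    exact hR (eR.2 ((b3 _ hp').self_of_nhds.1.2 h3))
  · obtain ⟨b1, b2, b3⟩ := C.N_B k u hu
    have hp := (C.K_B k a u hu q hq).2
    have hD := X.good (C.b k) _ (b1 hp)
    have hA := C.K_A k' a' hu' q' hq'
    have hR := Ra_ne hA.1 fun h2 => hD (eD.2 h2)
    refine vrel_BA hd h (b1 hp) (b2 _ hp) ?_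
    intro h3
    exact hR (eR.1 ((b3 _ hp).self_of_nhds.1.2 h3))
  · obtain ⟨b1, b2, b3⟩ := C.N_B k u hu
    obtain ⟨b1', b2', b3'⟩ := C.N_B k' u' hu'
    have hp := (C.K_B k a u hu q hq).2
    have hp' := (C.K_B k' a' u' hu' q' hq').2
    rw [← h0] at hp'
    refine vrel_B h (b2 _ hp) (b2' _ hp') ((b3 _ hp).mono fun x hx => hx.2) ((b3' _ hp').mono fun x hx => hx.2) ?_
    filter_upwards [b3 _ hp, h.an.continuousAt.eventually (b3' _ hp'), h.eq] with x h1 h2 h3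
    obtain ⟨c, hc, h4⟩ := h3
    obtain ⟨d, hd⟩ := hdR
    rw [← h1.1, ← h2.1, h4]
    exact eval_smul_hom hd hc _

end BdN

section

variable {M : ℕ} {P : Ideal (MvPolynomial (Fin (M + 1)) ℂ)} {RD : MvPolynomial (Fin (M + 1)) ℂ} {m : ℕ} {X : NCModel P RD} {θ : WDiff (coneE P) m}
  {l : LF M} {S : Web X θ l} {Ra : MvPolynomial (Fin (M + 1)) ℂ} {Wf : EN M → EN M → EN M → ℂ} {mK jH : ℕ}

theorem bd_NN (hX : Surface (coneE P)) (hm : 1 ≤ mK) (hW : IsForm (coneE P) mK jH Wf) (C : Cov S Ra) (k k' : Fin C.nN) :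
    ∃ B : ℝ, ∀ F : ℂ → EN M, RCrv θ RD Ra F → ∀ Y : NCLift X F, WNe Wf Y → ∀ z ∈ C.UN Y k, z ∈ C.UN Y k' →
      ContDiffAt ℝ 2 (eN (C.H k) Wf mK jH Y (C.b k)) z → ContDiffAt ℝ 2 (eN (C.H k') Wf mK jH Y (C.b k')) z →
        |eN (C.H k) Wf mK jH Y (C.b k) z - eN (C.H k') Wf mK jH Y (C.b k') z| ≤ B := by
  classical
  by_cases hex : ∃ F : ℂ → EN M, RCrv θ RD Ra F
  swap
  · exact ⟨0, fun F hF => absurd ⟨F, hF⟩ hex⟩
  obtain ⟨F₀, hF₀⟩ := hex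
  have hd := hF₀.hom
  have hdR := hF₀.homR
  have main : ∀ (a : (S.V (C.b k)).ι) (a' : (S.V (C.b k')).ι), ∃ B : ℝ, ∀ F : ℂ → EN M, RCrv θ RD Ra F → ∀ Y : NCLift X F, ∀ z, z ∈ Y.U (C.b k) →
      z ∈ Y.U (C.b k') → z ∈ S.Om Y ⟨C.b k, a⟩ → z ∈ S.Om Y ⟨C.b k', a'⟩ →
      (S.lf Y ⟨C.b k, a⟩ z, S.lf Y ⟨C.b k', a'⟩ z) ∈ C.K k a ×ˢ C.K k' a' →
        |eN (C.H k) Wf mK jH Y (C.b k) z - eN (C.H k') Wf mK jH Y (C.b k') z| ≤ B := by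
    intro a a'
    refine ((C.K_compact k a).prod (C.K_compact k' a')).induction_on (p := fun s => ∃ B : ℝ, ∀ F : ℂ → EN M, RCrv θ RD Ra F → ∀ Y : NCLift X F, ∀ z,
      z ∈ Y.U (C.b k) → z ∈ Y.U (C.b k') → z ∈ S.Om Y ⟨C.b k, a⟩ → z ∈ S.Om Y ⟨C.b k', a'⟩ →
      (S.lf Y ⟨C.b k, a⟩ z, S.lf Y ⟨C.b k', a'⟩ z) ∈ s → |eN (C.H k) Wf mK jH Y (C.b k) z - eN (C.H k') Wf mK jH Y (C.b k') z| ≤ B) ?_ ?_ ?_ ?_
    · exact ⟨0, fun F _ Y z _ _ _ _ h => absurd h (Set.notMem_empty _)⟩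
    · rintro s t hst ⟨B, hB⟩
      exact ⟨B, fun F hF Y z h1 h2 h3 h4 h5 => hB F hF Y z h1 h2 h3 h4 (hst h5)⟩
    · rintro s t ⟨B, hB⟩ ⟨B', hB'⟩
      refine ⟨max B B', fun F hF Y z h1 h2 h3 h4 h5 => ?_⟩
      rcases h5 with h5 | h5
      · exact (hB F hF Y z h1 h2 h3 h4 h5).trans (le_max_left _ _)
      · exact (hB' F hF Y z h1 h2 h3 h4 h5).trans (le_max_right _ _)
    · rintro ⟨q, q'⟩ ⟨hq, hq'⟩
      have hq : q ∈ C.K k a := hq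
      have hq' : q' ∈ C.K k' a' := hq'
      have hmem : ∀ (k : Fin C.nN) (a : (S.V (C.b k)).ι), ∀ q ∈ C.K k a, S.κ ⟨C.b k, a⟩ q ∈ X.B (C.b k) := by
        intro k a q hq
        rcases hu : C.u k with _ | u
        · exact C.N_sub k (C.K_A k a hu q hq).2
        · exact C.N_sub k (C.K_B k a u hu q hq).2
      have hp := hmem k a q hq
      have hp' := hmem k' a' q' hq'
      have hc1 : Tendsto (fun x : (ℂ × ℂ) × (ℂ × ℂ) => S.κ ⟨C.b k, a⟩ x.1) (𝓝 (q, q')) (𝓝 (S.κ ⟨C.b k, a⟩ q)) :=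
        ((BdN.κ_cont S ⟨C.b k, a⟩).comp continuous_fst).tendsto (q, q')
      have hc2 : Tendsto (fun x : (ℂ × ℂ) × (ℂ × ℂ) => S.κ ⟨C.b k', a'⟩ x.2) (𝓝 (q, q')) (𝓝 (S.κ ⟨C.b k', a'⟩ q')) :=
        ((BdN.κ_cont S ⟨C.b k', a'⟩).comp continuous_snd).tendsto (q, q')
      by_cases hrel : X.rel (C.b k) (S.κ ⟨C.b k, a⟩ q) (C.b k') (S.κ ⟨C.b k', a'⟩ q')
      · obtain ⟨Φ, h1, h2, h3, h4, h5⟩ := X.iso _ _ _ hp _ hp' hrel
        have hch : Chg X (C.b k) (C.b k') Φ (S.κ ⟨C.b k, a⟩ q) := ⟨hp, by rw [h2]; exact hp', h1, h3, h4, h5⟩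
        obtain ⟨N, hN, B, hB⟩ := BdN.loc (jH := jH) hX hm hW hch (BdN.vrel hd hdR C k k' hq hq' hch h2)
        refine ⟨_, mem_nhdsWithin_of_mem_nhds (hc1 hN), B, fun F hF Y z i1 i2 i3 i4 i5 => hB F hF.diff Y z i1 i2 ?_⟩
        have h6 := (lfN_mem hF.toWCrv Y ⟨C.b k, a⟩ z i3).2
        have h7 : S.κ ⟨C.b k, a⟩ (S.lf Y ⟨C.b k, a⟩ z) ∈ N := i5
        rwa [h6] at h7
      · have h1 : ∀ᶠ x in 𝓝 (q, q'), ¬ X.rel (C.b k) (S.κ ⟨C.b k, a⟩ x.1) (C.b k') (S.κ ⟨C.b k', a'⟩ x.2) :=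
          (hc1.prodMk_nhds hc2).eventually (X.sep _ _ _ hp _ hp' hrel)
        refine ⟨_, mem_nhdsWithin_of_mem_nhds h1, 0, fun F hF Y z i1 i2 i3 i4 i5 => ?_⟩
        exfalso
        have h6 := (lfN_mem hF.toWCrv Y ⟨C.b k, a⟩ z i3).2
        have h7 := (lfN_mem hF.toWCrv Y ⟨C.b k', a'⟩ z i4).2
        have h8 : ¬ X.rel (C.b k) (S.κ ⟨C.b k, a⟩ (S.lf Y ⟨C.b k, a⟩ z)) (C.b k') (S.κ ⟨C.b k', a'⟩ (S.lf Y ⟨C.b k', a'⟩ z)) := i5
        rw [h6, h7] at h8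
        exact h8 (Y.rel _ _ z i1 i2)
  choose B hB using main
  refine ⟨∑ a, ∑ a', |B a a'|, fun F hF Y _ z hz hz' _ _ => ?_⟩
  have hlift : ∀ k, z ∈ C.UN Y k → ∃ a, z ∈ S.Om Y ⟨C.b k, a⟩ ∧ S.lf Y ⟨C.b k, a⟩ z ∈ C.K k a := by
    rintro k ⟨h1, h2, h3⟩
    refine C.lift F hF.toWCrv Y k z h1 (ball_subset_closedBall h2) fun j hj hj' => h3 j ⟨hj, ball_subset_closedBall hj'⟩
  obtain ⟨a, ha, ha'⟩ := hlift k hz
  obtain ⟨a₁, hb, hb'⟩ := hlift k' hz'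
  refine (hB a a₁ F hF Y z hz.1 hz'.1 ha hb ⟨ha', hb'⟩).trans ((le_abs_self _).trans ?_)
  calc |B a a₁| ≤ ∑ a', |B a a'| := Finset.single_le_sum (f := fun a' => |B a a'|) (fun _ _ => abs_nonneg _) (Finset.mem_univ a₁)
    _ ≤ ∑ a, ∑ a', |B a a'| := Finset.single_le_sum (f := fun a => ∑ a', |B a a'|) (fun _ _ => Finset.sum_nonneg fun _ _ => abs_nonneg _) (Finset.mem_univ a)

end

end Pool.Agent.MQ3

end
end

section

/-!
# MQ3 BdPN: the potential of a special point and the potentials of the boxes differ by bounded functions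

The points of the annulus `s ≤ |x - Q| ≤ r'` are regular: near each of them `nloc_A`, `nloc_B` compare the potential of the chart with the potential of the box of
the chart, for the vector `hA` or `hB (u ∘ Φ)`, and `BdN.loc` the potentials of two boxes.  Compactness of the annulus times `K k a`.
-/

set_option autoImplicit false

open Topology Filter Metric MvPolynomial MeasureTheory Laplacian

noncomputable section

namespace Pool.Agent.MQ3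

open Pool.Agent.H36.BP (EN fs)
open Pool.Agent.H14.PP (Tan)
open Pool.Agent.H17BP (Surface IsForm)
open Pool.Agent.H17EF (projVar coneE)
open Pool.Agent.H30M (tau LogSing)
open Pool.Agent.MQ (lam En ztv dvg gr dv)

variable {M : ℕ} {P : Ideal (MvPolynomial (Fin (M + 1)) ℂ)} {RD : MvPolynomial (Fin (M + 1)) ℂ} {m : ℕ} {X : NCModel P RD} {θ : WDiff (coneE P) m}
  {l : LF M} {S : Web X θ l} {Ra : MvPolynomial (Fin (M + 1)) ℂ}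

namespace BdPN

theorem hA_smul (p w : ℂ × ℂ) (a : ℂ) : hA p (a • w) = a • hA p w := by
  unfold hA
  ext i
  fin_cases i <;> simp <;> ring

theorem hB_smul (u : ℂ × ℂ → ℂ) (p w : ℂ × ℂ) (a : ℂ) : hB u p (a • w) = a • hB u p w := by
  unfold hB
  ext i
  fin_cases i <;> simp <;> ring

theorem κ_an (S : Web X θ l) (k : S.ι) (q : ℂ × ℂ) : AnalyticAt ℂ (S.κ k) q := analyticAt_mono q

/-- the potential of the chart and the potential of its box -/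
theorem chart (Wf : EN M → EN M → EN M → ℂ) (mK jH : ℕ) {k : S.ι} {q : ℂ × ℂ} {g : ℂ × ℂ → ℂ} {H : ℂ × ℂ → ℂ × ℂ → EN 2}
    (hH : ∀ p w (a : ℂ), H p (a • w) = a • H p w) {L : ℂ × ℂ → EN 2} (hL : AnalyticAt ℂ L q) (hL0 : L q ≠ 0)
    (hHL : ∀ᶠ x in 𝓝 q, H (S.κ k x) (fderiv ℂ (S.κ k) x (S.v k x)) = (jc (S.κ k) x * g x) • L x) :
    ∃ N ∈ 𝓝 q, ∃ B : ℝ, ∀ F : ℂ → EN M, WCrv θ RD F → ∀ Y : NCLift X F, ∀ z ∈ S.Om Y k, S.lf Y k z ∈ N →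
      (∀ᶠ w in 𝓝[≠] z, g (S.lf Y k w) ≠ 0) → ∀ᶠ w in 𝓝[≠] z, |eP S g Wf mK jH Y k w - eN H Wf mK jH Y k.1 w| ≤ B := by
  have hLc : ContinuousAt (fun x => Real.log ‖L x‖) q := hL.continuousAt.norm.log (norm_ne_zero_iff.2 hL0)
  have hev := hHL.and ((hL.continuousAt.eventually_ne hL0).and (hLc.abs.eventually_lt_const (lt_add_one |Real.log ‖L q‖|)))
  refine ⟨_, hev.eventually_nhds, |Real.log ‖L q‖| + 1, ?_⟩
  intro F hF Y z hz hzN hg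
  have hcont : Tendsto (S.lf Y k) (𝓝 z) (𝓝 (S.lf Y k z)) := (lfN_an hF Y k z hz).continuousAt
  have hOm : ∀ᶠ w in 𝓝 z, w ∈ S.Om Y k := (Om_open hF Y k).mem_nhds hz
  filter_upwards [(hcont.eventually hzN).filter_mono nhdsWithin_le_nhds, hOm.eventually_nhds.filter_mono nhdsWithin_le_nhds, lfN_ne hF Y k z hz, hg]
    with w hw hOmw hne hgw
  obtain ⟨w1, w2, w3⟩ := hw
  obtain ⟨n1, n2, n3, n4, n5⟩ := hne
  have hwO := hOmw.self_of_nhds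
  have hd := ztv_smul (lfN_tan hF Y k w hwO) n3
  have hpw : Y.p k.1 w = S.κ k (S.lf Y k w) := (lfN_mem hF Y k w hwO).2.symm
  have hp : deriv (Y.p k.1) w = fderiv ℂ (S.κ k) (S.lf Y k w) (deriv (S.lf Y k) w) := by
    rw [EventuallyEq.deriv_eq (show Y.p k.1 =ᶠ[𝓝 w] fun u => S.κ k (S.lf Y k u) from hOmw.mono fun u hu => (lfN_mem hF Y k u hu).2.symm)]
    exact ((κ_an S k _).differentiableAt.hasFDerivAt.comp_hasDerivAt w (lfN_an hF Y k w hwO).differentiableAt.hasDerivAt).deriv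
  have hHw : H (Y.p k.1 w) (deriv (Y.p k.1) w) =
      (ztv (S.v k) (S.lf Y k) w * (jc (S.κ k) (S.lf Y k w) * g (S.lf Y k w))) • L (S.lf Y k w) := by
    rw [hp, hpw, hd, map_smul, hH, w1, smul_smul]
  have z1 : ‖ztv (S.v k) (S.lf Y k) w‖ ≠ 0 := norm_ne_zero_iff.2 n4
  have z2 : ‖jc (S.κ k) (S.lf Y k w)‖ ≠ 0 := norm_ne_zero_iff.2 n5
  have z3 : ‖g (S.lf Y k w)‖ ≠ 0 := norm_ne_zero_iff.2 hgw
  have z4 : ‖L (S.lf Y k w)‖ ≠ 0 := norm_ne_zero_iff.2 w2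
  unfold eP eN eH
  rw [hHw, norm_smul, norm_mul, norm_mul, Real.log_mul (mul_ne_zero z1 (mul_ne_zero z2 z3)) z4, Real.log_mul z1 (mul_ne_zero z2 z3), Real.log_mul z2 z3]
  rw [show Real.log ‖ztv (S.v k) (S.lf Y k) w‖ + Real.log ‖jc (S.κ k) (S.lf Y k w)‖ + Real.log ‖g (S.lf Y k w)‖ + 1 / (mK : ℝ) * Real.log ‖wt Wf Y k.1 w‖ +
      (jH : ℝ) / mK * Real.log ‖F w‖ - (Real.log ‖ztv (S.v k) (S.lf Y k) w‖ + (Real.log ‖jc (S.κ k) (S.lf Y k w)‖ + Real.log ‖g (S.lf Y k w)‖) +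
      Real.log ‖L (S.lf Y k w)‖ + 1 / (mK : ℝ) * Real.log ‖wt Wf Y k.1 w‖ + (jH : ℝ) / mK * Real.log ‖F w‖) = -Real.log ‖L (S.lf Y k w)‖ by ring, abs_neg]
  exact w3.le

theorem comp_ne {L : ℂ × ℂ →L[ℂ] ℂ} {A : ℂ × ℂ →L[ℂ] ℂ × ℂ} (hA : A.det ≠ 0) (hL : L ≠ 0) : L.comp A ≠ 0 := by
  intro h
  apply hL
  ext1
  all_goals
    refine ContinuousLinearMap.ext fun y => ?_
  · have h1 := (A.toContinuousLinearEquivOfDetNeZero hA).apply_symm_apply ((ContinuousLinearMap.inl ℂ ℂ ℂ) y)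
    have h2 := congrArg (fun T : ℂ × ℂ →L[ℂ] ℂ => T ((A.toContinuousLinearEquivOfDetNeZero hA).symm ((ContinuousLinearMap.inl ℂ ℂ ℂ) y))) h
    simp only [ContinuousLinearMap.comp_apply] at h2
    rw [ContinuousLinearMap.toContinuousLinearEquivOfDetNeZero_apply] at h1
    rw [h1] at h2
    exact h2
  · have h1 := (A.toContinuousLinearEquivOfDetNeZero hA).apply_symm_apply ((ContinuousLinearMap.inr ℂ ℂ ℂ) y)
    have h2 := congrArg (fun T : ℂ × ℂ →L[ℂ] ℂ => T ((A.toContinuousLinearEquivOfDetNeZero hA).symm ((ContinuousLinearMap.inr ℂ ℂ ℂ) y))) h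
    simp only [ContinuousLinearMap.comp_apply] at h2
    rw [ContinuousLinearMap.toContinuousLinearEquivOfDetNeZero_apply] at h1
    rw [h1] at h2
    exact h2

/-- the vector of the box `k`, seen in the chart of the special point `j` -/
theorem vec {dD dR : ℕ} (hd : RD.IsHomogeneous dD) (hdR : Ra.IsHomogeneous dR) (C : Cov S Ra) {g : Fin C.nP → ℂ × ℂ → ℂ} (hg : PG C g) (j : Fin C.nP)
    (k : Fin C.nN) (a : (S.V (C.b k)).ι) {q q' : ℂ × ℂ} (hq : q ∈ closedBall (C.Q j) (C.r j)) (hqQ : q ≠ C.Q j) (hq' : q' ∈ C.K k a)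
    {Φ : ℂ × ℂ → ℂ × ℂ} (hΦ : Chg X (C.ck j).1 (C.b k) Φ (S.κ (C.ck j) q)) (h0 : Φ (S.κ (C.ck j) q) = S.κ ⟨C.b k, a⟩ q') :
    ∃ H : ℂ × ℂ → ℂ × ℂ → EN 2, (∀ p w (a : ℂ), H p (a • w) = a • H p w) ∧ VRel H (C.H k) Φ (S.κ (C.ck j) q) ∧
      ∃ L : ℂ × ℂ → EN 2, AnalyticAt ℂ L q ∧ L q ≠ 0 ∧
        ∀ᶠ x in 𝓝 q, H (S.κ (C.ck j) x) (fderiv ℂ (S.κ (C.ck j)) x (S.v (C.ck j) x)) = (jc (S.κ (C.ck j)) x * g j x) • L x := by
  have hqD : q ∈ S.D (C.ck j) := C.P_sub j hq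
  have hReg := C.P_reg j q hq hqQ
  have hInv := hg.inv j q hq hqQ
  obtain ⟨c, hc0, hc⟩ := hΦ.eq.self_of_nhds
  rw [h0] at hc
  have hσ : S.σ (C.ck j) q = c • S.σ ⟨C.b k, a⟩ q' := hc
  have hRDiff : eval (S.σ (C.ck j) q).ofLp RD = 0 ↔ eval (S.σ ⟨C.b k, a⟩ q').ofLp RD = 0 := by
    rw [hσ]
    exact BdN.eval_smul_hom hd hc0 _
  have hRaiff : eval (S.σ (C.ck j) q).ofLp Ra = 0 ↔ eval (S.σ ⟨C.b k, a⟩ q').ofLp Ra = 0 := by
    rw [hσ]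
    exact BdN.eval_smul_hom hdR hc0 _
  rcases hu : C.u k with _ | u'
  · -- type A
    have hA' := (C.K_A k a hu q' hq').1
    have hA0 : RegA S Ra (C.ck j) q := by
      rcases hReg with hA0 | hB0
      · exact hA0
      · exfalso
        have e0 : eval (S.σ (C.ck j) q).ofLp RD ≠ 0 := fun h => hB0.ne ((zero_iff _ q hB0.mem).1 h)
        have e1 : q'.1 * q'.2 ≠ 0 := fun h => e0 (hRDiff.2 ((zero_iff _ q' hA'.mem).2 h))
        have e2 := hA'.alg.self_of_nhds e1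
        obtain ⟨G, -, hG0, -, hiff, -⟩ := hB0.crv
        exact e2 (hRaiff.1 (hiff.self_of_nhds.2 hG0))
    refine ⟨hA, hA_smul, ?_, nloc_A hA0 hInv⟩
    have hH : C.H k = hA := by
      unfold Cov.H
      rw [hu]
      rfl
    rw [hH]
    exact vrel_A ⟨dD, hd⟩ hΦ
  · -- type B
    obtain ⟨-, hcb⟩ := C.K_B k a u' hu q' hq'
    obtain ⟨hDS, hu'an, hN⟩ := C.N_B k u' hu
    have e0 : eval (S.σ ⟨C.b k, a⟩ q').ofLp RD ≠ 0 := X.good _ _ (hDS hcb)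
    have e1 : q.1 * q.2 ≠ 0 := fun h => e0 (hRDiff.1 ((zero_iff _ q hqD).2 h))
    have hu'a : AnalyticAt ℂ u' (Φ (S.κ (C.ck j) q)) := by
      rw [h0]
      exact hu'an _ hcb
    have hua : AnalyticAt ℂ (fun x => u' (Φ x)) (S.κ (C.ck j) q) := AnalyticAt.fun_comp (g := u') (f := Φ) hu'a hΦ.an
    have hNΦ := hN _ hcb
    rw [← h0] at hNΦ
    have hev : ∀ᶠ p in 𝓝 (S.κ (C.ck j) q), (eval (X.ρ (C.ck j).1 p).ofLp Ra = 0 ↔ u' (Φ p) = 0) ∧ (u' (Φ p) = 0 → fderiv ℂ (fun x => u' (Φ x)) p ≠ 0) := by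
      filter_upwards [hΦ.an.continuousAt.eventually hNΦ, BdN.Chg.ev hΦ, hΦ.an.continuousAt.eventually hu'a.eventually_analyticAt] with p hp1 hp2 hp3
      obtain ⟨c', hc0', hc'⟩ := hp2.eq.self_of_nhds
      refine ⟨?_, fun h => ?_⟩
      · rw [hc', BdN.eval_smul_hom hdR hc0']
        exact hp1.1
      · have e2 : fderiv ℂ (fun x => u' (Φ x)) p = (fderiv ℂ u' (Φ p)).comp (fderiv ℂ Φ p) :=
          (hp3.differentiableAt.hasFDerivAt.comp p hp2.an.differentiableAt.hasFDerivAt).fderiv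
        rw [e2]
        exact comp_ne hp2.det (hp1.2 h)
    refine ⟨hB fun x => u' (Φ x), hB_smul _, ?_, nloc_B hReg e1 hua hev hInv⟩
    have hH : C.H k = hB u' := by
      unfold Cov.H
      rw [hu]
      rfl
    rw [hH]
    exact vrel_B hΦ hua hu'a (hev.mono fun p hp => hp.2) (hNΦ.mono fun p hp => hp.2) (Eventually.of_forall fun p => Iff.rfl)

/-- the local bound for a pair of chart points -/
theorem pair {Wf : EN M → EN M → EN M → ℂ} {mK jH : ℕ} (hX : Surface (coneE P)) (hm : 1 ≤ mK) (hW : IsForm (coneE P) mK jH Wf)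
    {dD dR : ℕ} (hd : RD.IsHomogeneous dD) (hdR : Ra.IsHomogeneous dR) (C : Cov S Ra) {g : Fin C.nP → ℂ × ℂ → ℂ} (hg : PG C g) (j : Fin C.nP)
    (k : Fin C.nN) (a : (S.V (C.b k)).ι) {q q' : ℂ × ℂ} (hq : q ∈ closedBall (C.Q j) (C.r j)) (hqQ : q ≠ C.Q j) (hq' : q' ∈ C.K k a) :
    ∃ N ∈ 𝓝 (q, q'), ∃ B : ℝ, ∀ F : ℂ → EN M, RCrv θ RD Ra F → ∀ Y : NCLift X F, ∀ z, z ∈ S.Om Y (C.ck j) → z ∈ S.Om Y ⟨C.b k, a⟩ →
      (S.lf Y (C.ck j) z, S.lf Y ⟨C.b k, a⟩ z) ∈ N → (∀ᶠ w in 𝓝[≠] z, g j (S.lf Y (C.ck j) w) ≠ 0) →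
        ∀ᶠ w in 𝓝[≠] z, |eP S (g j) Wf mK jH Y (C.ck j) w - eN (C.H k) Wf mK jH Y (C.b k) w| ≤ B := by
  have hqD : q ∈ S.D (C.ck j) := C.P_sub j hq
  have hq'D : q' ∈ S.D ⟨C.b k, a⟩ := by
    rcases hu : C.u k with _ | u'
    · exact (C.K_A k a hu q' hq').1.mem
    · rcases (C.K_B k a u' hu q' hq').1 with h | h
      · exact h.mem
      · exact h.mem
  have hκ : Continuous fun x : (ℂ × ℂ) × (ℂ × ℂ) => (S.κ (C.ck j) x.1, S.κ ⟨C.b k, a⟩ x.2) :=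
    ((BdN.κ_cont S (C.ck j)).comp continuous_fst).prodMk ((BdN.κ_cont S ⟨C.b k, a⟩).comp continuous_snd)
  by_cases hr : X.rel (C.ck j).1 (S.κ (C.ck j) q) (C.b k) (S.κ ⟨C.b k, a⟩ q')
  · obtain ⟨Φ, h1, h2, h3, h4, h5⟩ := X.iso _ _ _ hqD.2 _ hq'D.2 hr
    have hΦ : Chg X (C.ck j).1 (C.b k) Φ (S.κ (C.ck j) q) := ⟨hqD.2, by rw [h2]; exact hq'D.2, h1, h3, h4, h5⟩
    obtain ⟨H, hH, hV, L, hL, hL0, hHL⟩ := vec hd hdR C hg j k a hq hqQ hq' hΦ h2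
    obtain ⟨N₁, hN₁, B₁, hB₁⟩ := BdN.loc (jH := jH) hX hm hW hΦ hV
    obtain ⟨N₂, hN₂, B₂, hB₂⟩ := chart Wf mK jH hH hL hL0 hHL
    have hN₁' : ∀ᶠ x in 𝓝 q, N₁ ∈ 𝓝 (S.κ (C.ck j) x) :=
      (BdN.κ_cont S (C.ck j)).continuousAt.eventually (eventually_mem_nhds_iff.2 hN₁)
    refine ⟨(N₂ ∩ {x | N₁ ∈ 𝓝 (S.κ (C.ck j) x)}) ×ˢ Set.univ, prod_mem_nhds (inter_mem hN₂ hN₁') univ_mem, B₂ + B₁, ?_⟩
    rintro F hF Y z hz hz' ⟨⟨hzN₂, hzN₁⟩, -⟩ hgn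
    have hzU : z ∈ Y.U (C.ck j).1 := Om_sub hF.toWCrv Y (C.ck j) hz
    have hzU' : z ∈ Y.U (C.b k) := Om_sub hF.toWCrv Y ⟨C.b k, a⟩ hz'
    have hpz : S.κ (C.ck j) (S.lf Y (C.ck j) z) = Y.p (C.ck j).1 z := (lfN_mem hF.toWCrv Y (C.ck j) z hz).2
    have hzN : N₁ ∈ 𝓝 (Y.p (C.ck j).1 z) := by
      rw [← hpz]
      exact hzN₁
    have hU₁ : ∀ᶠ w in 𝓝 z, w ∈ Y.U (C.ck j).1 := (Y.isOpen _).mem_nhds hzU
    have hU₂ : ∀ᶠ w in 𝓝 z, w ∈ Y.U (C.b k) := (Y.isOpen _).mem_nhds hzU'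
    filter_upwards [hB₂ F hF.toWCrv Y z hz hzN₂ hgn, ((Y.an _ z hzU).continuousAt.eventually hzN).filter_mono nhdsWithin_le_nhds,
      hU₁.filter_mono nhdsWithin_le_nhds, hU₂.filter_mono nhdsWithin_le_nhds] with w w1 w2 w3 w4
    have w5 := hB₁ F hF.diff Y w w3 w4 w2
    exact (abs_sub_le _ _ _).trans (add_le_add w1 w5)
  · refine ⟨_, hκ.continuousAt.eventually (X.sep _ _ _ hqD.2 _ hq'D.2 hr), 0, ?_⟩
    intro F hF Y z hz hz' hzN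
    exfalso
    have hzU : z ∈ Y.U (C.ck j).1 := Om_sub hF.toWCrv Y (C.ck j) hz
    have hzU' : z ∈ Y.U (C.b k) := Om_sub hF.toWCrv Y ⟨C.b k, a⟩ hz'
    have e1 : S.κ (C.ck j) (S.lf Y (C.ck j) z) = Y.p (C.ck j).1 z := (lfN_mem hF.toWCrv Y (C.ck j) z hz).2
    have e2 : S.κ ⟨C.b k, a⟩ (S.lf Y ⟨C.b k, a⟩ z) = Y.p (C.b k) z := (lfN_mem hF.toWCrv Y ⟨C.b k, a⟩ z hz').2
    have hzN' : ¬ X.rel (C.ck j).1 (S.κ (C.ck j) (S.lf Y (C.ck j) z)) (C.b k) (S.κ ⟨C.b k, a⟩ (S.lf Y ⟨C.b k, a⟩ z)) := hzN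
    rw [e1, e2] at hzN'
    exact hzN' (Y.rel _ _ z hzU hzU')

end BdPN

theorem bd_PN {Wf : EN M → EN M → EN M → ℂ} {mK jH : ℕ} (hX : Surface (coneE P)) (hm : 1 ≤ mK) (hW : IsForm (coneE P) mK jH Wf) (C : Cov S Ra)
    {g : Fin C.nP → ℂ × ℂ → ℂ} (hg : PG C g) (j : Fin C.nP) (k : Fin C.nN) {r' : ℝ} (hr' : r' < C.r j) :
    ∃ B : ℝ, ∀ F : ℂ → EN M, RCrv θ RD Ra F → ∀ Y : NCLift X F, WNe Wf Y → ∀ z ∈ C.UP Y j, z ∈ C.UN Y k →
      S.lf Y (C.ck j) z ∈ closedBall (C.Q j) r' →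
      ContDiffAt ℝ 2 (eP S (g j) Wf mK jH Y (C.ck j)) z → ContDiffAt ℝ 2 (eN (C.H k) Wf mK jH Y (C.b k)) z →
        |eP S (g j) Wf mK jH Y (C.ck j) z - eN (C.H k) Wf mK jH Y (C.b k) z| ≤ B := by
  classical
  by_cases hex : ∃ F : ℂ → EN M, RCrv θ RD Ra F
  · obtain ⟨F₀, hF₀⟩ := hex
    obtain ⟨dD, hd⟩ := hF₀.hom
    obtain ⟨dR, hdR⟩ := hF₀.homR
    -- compactness
    have hcomp : ∀ a : (S.V (C.b k)).ι, ∃ B : ℝ, ∀ F : ℂ → EN M, RCrv θ RD Ra F → ∀ Y : NCLift X F, ∀ z, z ∈ S.Om Y (C.ck j) → z ∈ S.Om Y ⟨C.b k, a⟩ →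
        (S.lf Y (C.ck j) z, S.lf Y ⟨C.b k, a⟩ z) ∈ (closedBall (C.Q j) r' \ ball (C.Q j) (C.s j)) ×ˢ C.K k a →
        (∀ᶠ w in 𝓝[≠] z, g j (S.lf Y (C.ck j) w) ≠ 0) →
          ∀ᶠ w in 𝓝[≠] z, |eP S (g j) Wf mK jH Y (C.ck j) w - eN (C.H k) Wf mK jH Y (C.b k) w| ≤ B := by
      intro a
      have hc : IsCompact ((closedBall (C.Q j) r' \ ball (C.Q j) (C.s j)) ×ˢ C.K k a) :=
        ((isCompact_closedBall _ _).diff isOpen_ball).prod (C.K_compact k a)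
      refine hc.induction_on (p := fun s => ∃ B : ℝ, ∀ F : ℂ → EN M, RCrv θ RD Ra F → ∀ Y : NCLift X F, ∀ z, z ∈ S.Om Y (C.ck j) → z ∈ S.Om Y ⟨C.b k, a⟩ →
        (S.lf Y (C.ck j) z, S.lf Y ⟨C.b k, a⟩ z) ∈ s → (∀ᶠ w in 𝓝[≠] z, g j (S.lf Y (C.ck j) w) ≠ 0) →
          ∀ᶠ w in 𝓝[≠] z, |eP S (g j) Wf mK jH Y (C.ck j) w - eN (C.H k) Wf mK jH Y (C.b k) w| ≤ B) ?_ ?_ ?_ ?_
      · exact ⟨0, fun F hF Y z hz hz' h => absurd h (Set.notMem_empty _)⟩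
      · rintro s t hst ⟨B, hB⟩
        exact ⟨B, fun F hF Y z hz hz' h => hB F hF Y z hz hz' (hst h)⟩
      · rintro s t ⟨B, hB⟩ ⟨B', hB'⟩
        refine ⟨max B B', fun F hF Y z hz hz' h hgn => ?_⟩
        rcases h with h | h
        · exact (hB F hF Y z hz hz' h hgn).mono fun w hw => hw.trans (le_max_left _ _)
        · exact (hB' F hF Y z hz hz' h hgn).mono fun w hw => hw.trans (le_max_right _ _)
      · rintro ⟨q, q'⟩ ⟨⟨h1, h2⟩, h3⟩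
        have h4 : q ∈ closedBall (C.Q j) (C.r j) := closedBall_subset_closedBall hr'.le h1
        have h5 : q ≠ C.Q j := by
          rintro rfl
          exact h2 (mem_ball_self (C.s_pos j))
        obtain ⟨N, hN, B, hB⟩ := BdPN.pair (jH := jH) hX hm hW hd hdR C hg j k a h4 h5 h3
        exact ⟨N, mem_nhdsWithin_of_mem_nhds hN, B, hB⟩
    choose B hB using hcomp
    refine ⟨∑ a, |B a|, fun F hF Y hne z hzP hzN hzr hcP hcN => ?_⟩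
    obtain ⟨hzO, hzb⟩ := hzP
    obtain ⟨hzU, hzt, hzc⟩ := hzN
    obtain ⟨a, ha, ha'⟩ := C.lift F hF.toWCrv Y k z hzU (ball_subset_closedBall hzt) (fun i hi hi' => hzc i ⟨hi, ball_subset_closedBall hi'⟩)
    have hnb : S.lf Y (C.ck j) z ∉ ball (C.Q j) (C.s j) := fun h => hzc j ⟨hzO, ball_subset_closedBall h⟩
    have hgn := g_ne C hg j hF Y z ⟨hzO, hzb⟩
    have h1 := hB a F hF Y z hzO ha ⟨⟨hzr, hnb⟩, ha'⟩ hgn
    have h2 : Tendsto (fun w => |eP S (g j) Wf mK jH Y (C.ck j) w - eN (C.H k) Wf mK jH Y (C.b k) w|) (𝓝[≠] z)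
        (𝓝 |eP S (g j) Wf mK jH Y (C.ck j) z - eN (C.H k) Wf mK jH Y (C.b k) z|) :=
      ((hcP.continuousAt.sub hcN.continuousAt).abs).tendsto.mono_left nhdsWithin_le_nhds
    have h3 := le_of_tendsto h2 h1
    exact h3.trans ((le_abs_self _).trans (Finset.single_le_sum (f := fun a => |B a|) (fun _ _ => abs_nonneg _) (Finset.mem_univ a)))
  · exact ⟨0, fun F hF => absurd ⟨F, hF⟩ hex⟩

end Pool.Agent.MQ3

end
end
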