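import Pool.Agent.H43.TL2.M42
import Pool.Agent.H43.TL2.M44
import Pool.Agent.H43.TL2.M50
import Pool.Agent.H43.TL2.M53
import Pool.Agent.H43.TL2.M76

/-! The parts of this file: H13.CV.DedeB, H13.CV.Loc, H13.CV.NoPole, H13.CV.BirkB, H13.CV.BirkC, H13.CV.Deg, H13.CV.CaseA, H13.CV.Dims, H13.CV.EllA, H13.CV.Idem, H13.CV.PoleF, H13.CV.Tame, H13.CV.RegF, H13.CV.Cases. -/

section

/-!
# CV DedeB: a basis over `ℂ[x]`

By `regAff_iff_isIntegral` the functions `f` with `RegAff x f` form the integral closure `C` of `A = ℂ[x]` in `K`.  `A` is a principal ideal domain with fraction field `L`, `K` is a finite separable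
extension of `L` (characteristic `0`), so `C` is a free `A`-module of rank `n = finrank L K` (`IsIntegralClosure.module_free A L K C`, `IsIntegralClosure.rank`), and a basis of `C` over `A` is a
basis of `K` over `L` (`Module.Basis.localizationLocalization`, `Module.Basis.localizationLocalization_span` or a direct argument: denominators).  The coordinates of `f ∈ K` with respect to this
basis are in `A` if and only if `f ∈ C`.
Instances: `Algebra (Algebra.adjoin ℂ {x}) K` (subalgebra), `IsFractionRing (Algebra.adjoin ℂ {x}) (IntermediateField.adjoin ℂ {x})` is an instance in Mathlib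
(`Mathlib/FieldTheory/IntermediateField/Adjoin/Algebra.lean`); start with `obtain rfl := hL.eq` (`subst`).
-/

set_option autoImplicit false

open Pool.Agent.H23.Fano (PrimeDivisorOver Form regularForms)

noncomputable section

namespace Pool.Agent.H13.CV

attribute [-instance] Subalgebra.isScalarTower_left

variable {K : Type} [Field K] [Algebra ℂ K] {L : IntermediateField ℂ K} {x : K}

private theorem dedeB_pir (x : K) : IsPrincipalIdealRing (Algebra.adjoin ℂ {x}) := by
  let f : Polynomial ℂ →ₐ[ℂ] Algebra.adjoin ℂ {x} :=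
    (Polynomial.aeval x).codRestrict (Algebra.adjoin ℂ {x}) (fun p => Polynomial.aeval_mem_adjoin_singleton ℂ x)
  have hf : Function.Surjective f := by
    rintro ⟨c, hc⟩
    rw [Algebra.adjoin_singleton_eq_range_aeval] at hc
    obtain ⟨p, hp⟩ := hc
    exact ⟨p, Subtype.ext hp⟩
  exact IsPrincipalIdealRing.of_surjective f.toRingHom hf

open scoped IntermediateField.algebraAdjoinAdjoin nonZeroDivisors in
private theorem dedeB_aux (hL : Gen (IntermediateField.adjoin ℂ {x}) x) [FiniteDimensional (IntermediateField.adjoin ℂ {x}) K] :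
    ∃ w : Module.Basis (Fin (Module.finrank (IntermediateField.adjoin ℂ {x}) K)) (IntermediateField.adjoin ℂ {x}) K, AffB x w := by
  haveI hpir : IsPrincipalIdealRing (Algebra.adjoin ℂ {x}) := dedeB_pir x
  haveI hfree : Module.Free (Algebra.adjoin ℂ {x}) (integralClosure (Algebra.adjoin ℂ {x}) K) :=
    IsIntegralClosure.module_free (Algebra.adjoin ℂ {x}) (IntermediateField.adjoin ℂ {x}) K (integralClosure (Algebra.adjoin ℂ {x}) K)
  haveI hnoe : IsNoetherian (Algebra.adjoin ℂ {x}) (integralClosure (Algebra.adjoin ℂ {x}) K) :=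
    IsIntegralClosure.isNoetherian (Algebra.adjoin ℂ {x}) (IntermediateField.adjoin ℂ {x}) K (integralClosure (Algebra.adjoin ℂ {x}) K)
  have hrank := IsIntegralClosure.rank (Algebra.adjoin ℂ {x}) (IntermediateField.adjoin ℂ {x}) K (integralClosure (Algebra.adjoin ℂ {x}) K)
  haveI hloc : IsLocalization (Algebra.algebraMapSubmonoid (integralClosure (Algebra.adjoin ℂ {x}) K) (Algebra.adjoin ℂ {x})⁰) K :=
    IsIntegralClosure.isLocalization (Algebra.adjoin ℂ {x}) (IntermediateField.adjoin ℂ {x}) K (integralClosure (Algebra.adjoin ℂ {x}) K)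
  let b : Module.Basis (Fin (Module.finrank (IntermediateField.adjoin ℂ {x}) K)) (Algebra.adjoin ℂ {x}) (integralClosure (Algebra.adjoin ℂ {x}) K) :=
    Module.finBasisOfFinrankEq _ _ hrank
  refine ⟨b.localizationLocalization (IntermediateField.adjoin ℂ {x}) (Algebra.adjoin ℂ {x})⁰ K, fun f => ?_⟩
  rw [regAff_iff_isIntegral hL]
  constructor
  · intro hf i
    have h1 := b.localizationLocalization_repr_algebraMap (IntermediateField.adjoin ℂ {x}) (Algebra.adjoin ℂ {x})⁰ K
      (⟨f, hf⟩ : integralClosure (Algebra.adjoin ℂ {x}) K) i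
    have h2 : algebraMap (integralClosure (Algebra.adjoin ℂ {x}) K) K ⟨f, hf⟩ = f := rfl
    rw [h2] at h1
    rw [h1]
    exact (b.repr ⟨f, hf⟩ i).2
  · intro hf
    rw [← (b.localizationLocalization (IntermediateField.adjoin ℂ {x}) (Algebra.adjoin ℂ {x})⁰ K).sum_repr f]
    refine IsIntegral.sum _ fun i _ => ?_
    rw [Module.Basis.localizationLocalization_apply]
    have h3 : ((b.localizationLocalization (IntermediateField.adjoin ℂ {x}) (Algebra.adjoin ℂ {x})⁰ K).repr f i) •
        algebraMap (integralClosure (Algebra.adjoin ℂ {x}) K) K (b i) =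
        algebraMap (Algebra.adjoin ℂ {x}) K ⟨_, hf i⟩ * algebraMap (integralClosure (Algebra.adjoin ℂ {x}) K) K (b i) := by
      rw [Algebra.smul_def]
      rfl
    rw [h3]
    exact isIntegral_algebraMap.mul (b i).2

theorem exists_affB (hL : Gen L x) [FiniteDimensional L K] : ∃ w : Module.Basis (Fin (Module.finrank L K)) L K, AffB x w := by
  obtain rfl := hL.eq
  exact dedeB_aux hL

end Pool.Agent.H13.CV

end
end

section

/-!
# CV Loc: bases over the local ring

`AffB.sub_const`: `0 ≤ ord (x - a) ↔ 0 ≤ ord x` and `Algebra.adjoin ℂ {x - a} = Algebra.adjoin ℂ {x}`.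
`AffB.locB`: (⇐) `w i` is `RegAff x` (its coordinates are `0` and `1`), so `RegLoc x`; `f = ∑ (w.repr f i) * w i`.  (⇒) Let `RegLoc x f`.  The places with `0 ≤ ord x`, `ord f < 0` are finitely many
(`finite_poles`), say `E₁, …, E_k`; the value `a_j` of `x` at `E_j` (`exists_value`) is not `0` (otherwise `0 < ord x` and `f` is regular).  Let `q = ∏ (X - a_j) ^ m` with `m ≥ - oz E_j f` for all
`j`; `q.eval 0 ≠ 0`, and `q (x) * f` is `RegAff x` (at `E_j` the factor `(x - a_j) ^ m` has order `≥ m`, the other factors are regular).  So its coordinates `q (x) * (w.repr f i)` are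
in `ℂ[x]`, and `w.repr f i = p_i (x) / q (x)` is `RegLoc x` (`regLoc_div`).
-/

set_option autoImplicit false

open Pool.Agent.H23.Fano (PrimeDivisorOver Form regularForms)

noncomputable section

namespace Pool.Agent.H13.CV

variable {K : Type} [Field K] [Algebra ℂ K] {L : IntermediateField ℂ K} {x : K} {n : ℕ}

theorem loc_repr (w : Module.Basis (Fin n) L K) (i j : Fin n) : (w.repr (w i) j : L) = 0 ∨ (w.repr (w i) j : L) = 1 := by
  classical
  rw [w.repr_self, Finsupp.single_apply]
  split_ifs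
  · exact Or.inr rfl
  · exact Or.inl rfl

theorem AffB.basis_regAff {w : Module.Basis (Fin n) L K} (hw : AffB x w) (i : Fin n) : RegAff x (w i) := by
  refine (hw (w i)).2 fun j => ?_
  rcases loc_repr w i j with h | h
  · rw [h]
    exact zero_mem _
  · rw [h]
    exact one_mem _

theorem AffB.sub_const (hL : Gen L x) {w : Module.Basis (Fin n) L K} (hw : AffB x w) (a : ℂ) : AffB (x - algebraMap ℂ K a) w := by
  have h1 : Algebra.adjoin ℂ {x - algebraMap ℂ K a} = Algebra.adjoin ℂ {x} := by
    apply le_antisymm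
    · rw [Algebra.adjoin_le_iff, Set.singleton_subset_iff]
      exact sub_mem (Algebra.self_mem_adjoin_singleton ℂ x) (Subalgebra.algebraMap_mem _ a)
    · rw [Algebra.adjoin_le_iff, Set.singleton_subset_iff]
      have h2 : x - algebraMap ℂ K a + algebraMap ℂ K a ∈ Algebra.adjoin ℂ {x - algebraMap ℂ K a} :=
        add_mem (Algebra.self_mem_adjoin_singleton ℂ _) (Subalgebra.algebraMap_mem _ a)
      rw [sub_add_cancel] at h2
      exact h2
  have h3 : ∀ E : Place K, 0 ≤ E.ord (x - algebraMap ℂ K a) ↔ 0 ≤ E.ord x := by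
    intro E
    constructor
    · intro h
      have h4 := nonneg_add h (const_nonneg E a)
      rw [sub_add_cancel] at h4
      exact h4
    · exact fun h => nonneg_sub h (const_nonneg E a)
  intro f
  rw [h1, ← hw f]
  unfold RegAff
  simp only [h3]

theorem AffB.locB (hK : CurveField K) (hL : Gen L x) {w : Module.Basis (Fin n) L K} (hw : AffB x w) : LocB x w := by
  classical
  intro f
  constructor
  · intro hf i
    have hfin := finite_poles hK f
    set T : Finset (Place K) := hfin.toFinset.filter (fun E => 0 ≤ E.ord x) with hT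
    have hTm : ∀ E : Place K, E ∈ T ↔ E.ord f < 0 ∧ 0 ≤ E.ord x := by
      intro E
      rw [hT, Finset.mem_filter, Set.Finite.mem_toFinset, Set.mem_ofPred_eq]
    have hne : ∀ E ∈ T, res E x ≠ 0 := by
      intro E hE h0
      obtain ⟨h1, h2⟩ := (hTm E).1 hE
      have h3 := res_spec hK h2
      rw [h0, map_zero, sub_zero] at h3
      exact absurd (hf E h3) (not_le.mpr h1)
    set m : ℕ := ∑ E ∈ T, (-oz E f).toNat with hm
    have hmE : ∀ E ∈ T, 0 ≤ (m : ℤ) + oz E f := by
      intro E hE
      have h1 : (-oz E f).toNat ≤ m := Finset.single_le_sum (f := fun E => (-oz E f).toNat) (fun _ _ => Nat.zero_le _) hE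
      have h2 : -oz E f ≤ ((-oz E f).toNat : ℤ) := Int.self_le_toNat _
      have h3 : ((-oz E f).toNat : ℤ) ≤ m := by exact_mod_cast h1
      linarith
    set q : Polynomial ℂ := ∏ E ∈ T, (Polynomial.X - Polynomial.C (res E x)) ^ m with hq
    have hq0 : q.eval 0 ≠ 0 := by
      rw [hq, Polynomial.eval_prod]
      refine Finset.prod_ne_zero_iff.2 fun E hE => ?_
      rw [Polynomial.eval_pow, Polynomial.eval_sub, Polynomial.eval_X, Polynomial.eval_C, zero_sub]
      exact pow_ne_zero _ (neg_ne_zero.2 (hne E hE))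
    have hqne : q ≠ 0 := by
      intro h
      rw [h, Polynomial.eval_zero] at hq0
      exact hq0 rfl
    have hqx : Polynomial.aeval x q ≠ 0 := by
      intro h
      exact hL.tr ⟨q, hqne, h⟩
    have hreg : RegAff x (Polynomial.aeval x q * f) := by
      intro E hE
      by_cases hfE : 0 ≤ E.ord f
      · exact nonneg_mul (nonneg_aeval hE q) hfE
      · rw [not_le] at hfE
        have hET : E ∈ T := (hTm E).2 ⟨hfE, hE⟩
        have h1 : q = (Polynomial.X - Polynomial.C (res E x)) ^ m *
            ∏ E' ∈ T.erase E, (Polynomial.X - Polynomial.C (res E' x)) ^ m := by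
          rw [hq]
          exact (Finset.mul_prod_erase T (fun E' => (Polynomial.X - Polynomial.C (res E' x)) ^ m) hET).symm
        have h2 : Polynomial.aeval x q * f =
            Polynomial.aeval x (∏ E' ∈ T.erase E, (Polynomial.X - Polynomial.C (res E' x)) ^ m) *
              ((x - algebraMap ℂ K (res E x)) ^ m * f) := by
          rw [h1, map_mul, map_pow, map_sub, Polynomial.aeval_X, Polynomial.aeval_C]
          ring
        rw [h2]
        refine nonneg_mul (nonneg_aeval hE _) ?_
        have hf0 : f ≠ 0 := by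
          rintro rfl
          rw [E.ord.map_zero] at hfE
          exact absurd hfE not_top_lt
        have hx0 : x - algebraMap ℂ K (res E x) ≠ 0 := by
          intro h
          refine hL.tr ⟨Polynomial.X - Polynomial.C (res E x), Polynomial.X_sub_C_ne_zero _, ?_⟩
          rw [map_sub, Polynomial.aeval_X, Polynomial.aeval_C]
          exact h
        have h3 : 1 ≤ oz E (x - algebraMap ℂ K (res E x)) := by
          rcases pos_iff.1 (res_spec hK hE) with h4 | h4
          · exact absurd h4 hx0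
          · omega
        refine nonneg_iff.2 (Or.inr ?_)
        rw [oz_mul E (pow_ne_zero _ hx0) hf0, oz_pow]
        have h5 := hmE E hET
        nlinarith
    have hmem := (hw _).1 hreg i
    have hqL : Polynomial.aeval x q ∈ L := poly_le_L hL (mem_poly_iff.2 ⟨q, rfl⟩)
    have h6 : Polynomial.aeval x q * f = (⟨Polynomial.aeval x q, hqL⟩ : L) • f := rfl
    rw [h6, map_smul, Finsupp.smul_apply, smul_eq_mul] at hmem
    obtain ⟨p, hp⟩ := mem_poly_iff.1 hmem
    have h7 : (((⟨Polynomial.aeval x q, hqL⟩ : L) * w.repr f i : L) : K) = Polynomial.aeval x q * ((w.repr f i : L) : K) := rfl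
    rw [h7] at hp
    have h8 : ((w.repr f i : L) : K) = Polynomial.aeval x p / Polynomial.aeval x q := by
      rw [eq_div_iff hqx, mul_comm]
      exact hp
    rw [h8]
    exact regLoc_div hq0
  · intro h E hE
    have h1 : f = ∑ i, ((w.repr f i : L) : K) * w i := by
      conv_lhs => rw [← w.sum_repr f]
      exact Finset.sum_congr rfl fun i _ => rfl
    rw [h1]
    exact nonneg_sum fun i _ => nonneg_mul (h i E hE) (hw.basis_regAff i E hE.le)

theorem exists_locB (hK : CurveField K) (hL : Gen L x) [FiniteDimensional L K] :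
    ∃ w : Module.Basis (Fin (Module.finrank L K)) L K, LocB x w := by
  obtain ⟨w, hw⟩ := exists_affB hL
  exact ⟨w, hw.locB hK hL⟩

theorem LocB.basis_regLoc {w : Module.Basis (Fin n) L K} (hw : LocB x w) (i : Fin n) : RegLoc x (w i) := by
  refine (hw (w i)).2 fun j E _ => ?_
  rcases loc_repr w i j with h | h
  · rw [h]
    have h1 := E.ord.map_zero
    show 0 ≤ E.ord ((0 : L) : K)
    rw [ZeroMemClass.coe_zero, h1]
    exact le_top
  · rw [h]
    show 0 ≤ E.ord ((1 : L) : K)
    rw [OneMemClass.coe_one, E.ord.map_one]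

end Pool.Agent.H13.CV

end
end

section

/-!
# CV NoPole: existence of places, functions without poles

`exists_place_over`: let `L = ℂ(x)` (`Gen L x`), finite-dimensional by `hK.fin`, and `w` a basis as in `exists_affB`.  Suppose that `0 < E.ord x` for no place.  Then `RegAff x (x⁻¹)`, as `0 ≤ ord x` implies
`ord x = 0`, and `ord x⁻¹ = 0`.  `K ≠ 0` so `n = finrank L K > 0`; take `i : Fin n`.  `w i` has coordinates `0, 1` in `ℂ[x]`, so `RegAff x (w i)`; so `RegAff x (x⁻¹ * w i)`.  Its `i`-th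
coordinate is `x⁻¹` (as an element of `L`), so `x⁻¹ = p (x)` with a polynomial `p`, `x * p (x) - 1 = 0`: contradiction to the transcendence of `x` (`X * p - 1 ≠ 0`: evaluate at `0`).
`const_of_no_pole`: if `f` is not a constant then it is transcendental, so `f⁻¹` is transcendental, and there is a place with `0 < ord f⁻¹`.
-/

set_option autoImplicit false

open Pool.Agent.H23.Fano (PrimeDivisorOver Form regularForms)

noncomputable section

namespace Pool.Agent.H13.CV

variable {K : Type} [Field K] [Algebra ℂ K]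

theorem exists_place_over (hK : CurveField K) {x : K} (hx : Transcendental ℂ x) : ∃ E : Place K, 0 < E.ord x := by
  by_contra hcon
  have hcon' : ∀ E : Place K, ¬ 0 < E.ord x := fun E hE => hcon ⟨E, hE⟩
  have hx0 : x ≠ 0 := by
    rintro rfl
    exact hx isAlgebraic_zero
  have hL : Gen (IntermediateField.adjoin ℂ {x}) x := ⟨hx, rfl⟩
  have := hK.fin x hx
  obtain ⟨w, hw⟩ := exists_affB hL
  have hn : 0 < Module.finrank (IntermediateField.adjoin ℂ {x}) K := Module.finrank_pos
  obtain ⟨i⟩ : Nonempty (Fin (Module.finrank (IntermediateField.adjoin ℂ {x}) K)) := ⟨⟨0, hn⟩⟩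
  have h1 : RegAff x x⁻¹ := by
    intro E hE
    have h0 : E.ord x = 0 := le_antisymm (not_lt.1 (hcon' E)) hE
    have h2 : oz E x = 0 := by
      rw [oz, h0]
      rfl
    rw [ord_inv E hx0, h2, neg_zero]
    exact le_refl _
  have h2 : RegAff x (w i) := by
    rw [hw]
    intro j
    rw [w.repr_self]
    by_cases hij : i = j
    · subst hij
      rw [Finsupp.single_eq_same]
      exact one_mem _
    · rw [Finsupp.single_eq_of_ne (Ne.symm hij)]
      exact zero_mem _
  have h3 : RegAff x (x⁻¹ * w i) := fun E hE => nonneg_mul (h1 E hE) (h2 E hE)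
  have hxm : x⁻¹ ∈ IntermediateField.adjoin ℂ {x} := inv_mem hL.mem
  have h4 := (hw _).1 h3 i
  have h5 : x⁻¹ * w i = (⟨x⁻¹, hxm⟩ : IntermediateField.adjoin ℂ {x}) • w i := rfl
  rw [h5, map_smul, w.repr_self, Finsupp.smul_single, smul_eq_mul, mul_one, Finsupp.single_eq_same] at h4
  rw [Algebra.adjoin_singleton_eq_range_aeval] at h4
  obtain ⟨p, hp⟩ := h4
  have h6 : Polynomial.aeval x (Polynomial.X * p - 1) = 0 := by
    have hp' : Polynomial.aeval x p = x⁻¹ := hp
    rw [map_sub, map_mul, Polynomial.aeval_X, hp', mul_inv_cancel₀ hx0, map_one, sub_self]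
  have h7 : Polynomial.X * p - 1 = 0 := by
    by_contra h
    exact hx ⟨_, h, h6⟩
  have h8 := congrArg (Polynomial.eval 0) h7
  simp at h8

theorem exists_place_inf (hK : CurveField K) {x : K} (hx : Transcendental ℂ x) : ∃ E : Place K, E.ord x < 0 := by
  have hx0 : x ≠ 0 := by
    rintro rfl
    exact hx isAlgebraic_zero
  have hi : Transcendental ℂ x⁻¹ := fun h => hx (by simpa using h.inv)
  obtain ⟨E, hE⟩ := exists_place_over hK hi
  exact ⟨E, (inv_pos_iff hx0).1 hE⟩

theorem const_of_no_pole (hK : CurveField K) {f : K} (h : ∀ E : Place K, 0 ≤ E.ord f) : ∃ c : ℂ, f = algebraMap ℂ K c := by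
  by_contra hcon
  obtain ⟨E, hE⟩ := exists_place_inf hK (transcendental_of_not_const fun c hc => hcon ⟨c, hc⟩)
  exact absurd (h E) (not_le.2 hE)

/-- a function without poles with a zero is zero -/
theorem zero_of_no_pole (hK : CurveField K) {f : K} (h : ∀ E : Place K, 0 ≤ E.ord f) (hz : ∃ E : Place K, 0 < E.ord f) : f = 0 := by
  obtain ⟨c, rfl⟩ := const_of_no_pole hK h
  obtain ⟨E, hE⟩ := hz
  by_cases hc : c = 0
  · rw [hc, map_zero]
  · rw [ord_const E hc] at hE
    exact absurd hE (lt_irrefl _)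

end Pool.Agent.H13.CV

end
end

section

/-!
# CV BirkB: a basis with minimal pole orders at infinity

`exists_bound`: the places with `ord x < 0` are finitely many (`finite_over` for `x⁻¹`, `Gen.inv`); `a ≥ - oz E f` for all of them.
`exists_min`: for every basis `w` with `AffB x w` (one exists: `exists_affB`) let `a i` be the least `a : ℕ` with `RegLoc x⁻¹ ((x⁻¹) ^ a * w i)` (`Nat.find`, `exists_bound`); choose `w` with `∑ a i`
minimal (`Nat.find` or well-foundedness).  Claim: if `∑ i, γ i • ((x⁻¹) ^ a i * w i) = x⁻¹ * g` with `RegLoc x⁻¹ g`, `γ i : ℂ`, then all `γ i = 0`.  Suppose not; let `i₀` with `γ i₀ ≠ 0` and `a i₀`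
maximal among the `a i` with `γ i ≠ 0`.  Let `c i = γ i • x ^ (a i₀ - a i)` if `γ i ≠ 0`, and `0` otherwise; `c i₀ = γ i₀`.  Multiplying by `x ^ a i₀`: `w₀' = ∑ c i * w i = x ^ (a i₀) * x⁻¹ * g`.
`AffB.replace` gives a basis `w'` with `w' i₀ = w₀'`.  If `1 ≤ a i₀` then `(x⁻¹) ^ (a i₀ - 1) * w₀' = g` is `RegLoc x⁻¹`, so the sum for `w'` is smaller: contradiction.  If `a i₀ = 0`, then
`w₀' = x⁻¹ * g` is regular over `x = ∞`, with positive order there, and it is `RegAff x` (`AffB.basis_regAff` for `w'`); so it has no poles, and it has a zero at a place over `x = ∞` (`exists_place_inf`), so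
`w₀' = 0` (`zero_of_no_pole`): contradiction, as it is an element of a basis.
-/

set_option autoImplicit false

open Pool.Agent.H23.Fano (PrimeDivisorOver Form regularForms)

noncomputable section

namespace Pool.Agent.H13.CV

variable {K : Type} [Field K] [Algebra ℂ K] {L : IntermediateField ℂ K} {x : K} {n : ℕ}

theorem exists_bound (hL : Gen L x) [FiniteDimensional L K] (f : K) : ∃ a : ℕ, RegLoc x⁻¹ ((x⁻¹) ^ a * f) := by
  classical
  have hx := hL.ne_zero
  have hfin := finite_over (Gen.inv hL)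
  rcases eq_or_ne f 0 with rfl | hf
  · refine ⟨0, fun E _ => ?_⟩
    rw [mul_zero, E.ord.map_zero]
    exact le_top
  refine ⟨∑ E ∈ hfin.toFinset, (-oz E f).toNat, fun E hE => ?_⟩
  rw [nonneg_iff]
  right
  rw [oz_mul E (pow_ne_zero _ (inv_ne_zero hx)) hf, oz_pow]
  have h1 : 0 < oz E x⁻¹ := by
    rcases pos_iff.mp hE with h | h
    · exact absurd h (inv_ne_zero hx)
    · exact h
  have h2 : (-oz E f).toNat ≤ ∑ E ∈ hfin.toFinset, (-oz E f).toNat :=
    Finset.single_le_sum (f := fun E => (-oz E f).toNat) (fun _ _ => Nat.zero_le _) (hfin.mem_toFinset.mpr hE)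
  have h3 : -oz E f ≤ ((∑ E ∈ hfin.toFinset, (-oz E f).toNat : ℕ) : ℤ) :=
    (Int.self_le_toNat _).trans (by exact_mod_cast h2)
  have h4 : (0 : ℤ) ≤ ((∑ E ∈ hfin.toFinset, (-oz E f).toNat : ℕ) : ℤ) := Int.natCast_nonneg _
  generalize ((∑ E ∈ hfin.toFinset, (-oz E f).toNat : ℕ) : ℤ) = s at h3 h4 ⊢
  nlinarith

theorem exists_min (hK : CurveField K) (hL : Gen L x) [FiniteDimensional L K] :
    ∃ (w : Module.Basis (Fin (Module.finrank L K)) L K) (a : Fin (Module.finrank L K) → ℕ), AffB x w ∧ (∀ i, RegLoc x⁻¹ ((x⁻¹) ^ a i * w i)) ∧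
      ∀ (γ : Fin (Module.finrank L K) → ℂ) (g : K), RegLoc x⁻¹ g → ∑ i, γ i • ((x⁻¹) ^ a i * w i) = x⁻¹ * g → ∀ i, γ i = 0 := by
  classical
  have hx := hL.ne_zero
  have hP : ∃ s : ℕ, ∃ (w : Module.Basis (Fin (Module.finrank L K)) L K) (a : Fin (Module.finrank L K) → ℕ),
      AffB x w ∧ (∀ i, RegLoc x⁻¹ ((x⁻¹) ^ a i * w i)) ∧ ∑ i, a i = s := by
    obtain ⟨w, hw⟩ := exists_affB hL
    choose a ha using fun i => exists_bound hL (w i)
    exact ⟨_, w, a, hw, ha, rfl⟩
  obtain ⟨w, a, hw, ha, hs⟩ := Nat.find_spec hP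
  have hmin : ∀ (w' : Module.Basis (Fin (Module.finrank L K)) L K) (a' : Fin (Module.finrank L K) → ℕ), AffB x w' →
      (∀ i, RegLoc x⁻¹ ((x⁻¹) ^ a' i * w' i)) → ∑ i, a i ≤ ∑ i, a' i := by
    intro w' a' h1 h2
    rw [hs]
    exact Nat.find_min' hP ⟨w', a', h1, h2, rfl⟩
  refine ⟨w, a, hw, ha, fun γ g hg hsum => ?_⟩
  by_contra hcon
  push Not at hcon
  obtain ⟨i₁, hi₁⟩ := hcon
  obtain ⟨i₀, hi₀, hmax⟩ := Finset.exists_max_image (Finset.univ.filter fun i => γ i ≠ 0) a
    ⟨i₁, Finset.mem_filter.mpr ⟨Finset.mem_univ _, hi₁⟩⟩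
  have hγ : γ i₀ ≠ 0 := (Finset.mem_filter.mp hi₀).2
  have hmax' : ∀ i, γ i ≠ 0 → a i ≤ a i₀ := fun i hi => hmax i (Finset.mem_filter.mpr ⟨Finset.mem_univ _, hi⟩)
  have hxm : x ∈ Algebra.adjoin ℂ {x} := Algebra.subset_adjoin rfl
  obtain ⟨w', hw', hw0, hwi⟩ := AffB.replace hL hw i₀ (fun i => γ i • x ^ (a i₀ - a i))
    (fun i => Subalgebra.smul_mem _ (Subalgebra.pow_mem _ hxm _) _) hγ
    (by simp [Algebra.smul_def])
  have hkey : w' i₀ = x ^ (a i₀) * (x⁻¹ * g) := by
    rw [hw0, ← hsum, Finset.mul_sum]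
    refine Finset.sum_congr rfl fun i _ => ?_
    rcases eq_or_ne (γ i) 0 with h | h
    · simp [h]
    · have h1 : x ^ (a i₀ - a i) = x ^ a i₀ * (x⁻¹) ^ a i := by
        rw [inv_pow, pow_sub₀ x hx (hmax' i h)]
      rw [h1]
      simp only [Algebra.smul_def]
      ring
  rcases Nat.eq_zero_or_pos (a i₀) with h0 | h0
  · -- no poles and a zero
    rw [h0, pow_zero, one_mul] at hkey
    have h1 : ∀ E : Place K, 0 ≤ E.ord (w' i₀) := by
      intro E
      rcases le_or_gt 0 (E.ord x) with h | h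
      · exact hw'.basis_regAff i₀ E h
      · rw [hkey]
        have h2 : 0 < E.ord x⁻¹ := (inv_pos_iff hx).mpr h
        exact (pos_mul h2 (hg E h2)).le
    obtain ⟨E, hE⟩ := exists_place_inf hK hL.tr
    have h2 : 0 < E.ord x⁻¹ := (inv_pos_iff hx).mpr hE
    have h3 : w' i₀ = 0 := zero_of_no_pole hK h1 ⟨E, by rw [hkey]; exact pos_mul h2 (hg E h2)⟩
    exact w'.ne_zero i₀ h3
  · have h1 := hmin w' (Function.update a i₀ (a i₀ - 1)) hw' (fun i => by
      rcases eq_or_ne i i₀ with rfl | hi
      · rw [Function.update_self, hkey]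
        have h2 : (x⁻¹) ^ (a i - 1) * (x ^ a i * (x⁻¹ * g)) = g := by
          obtain ⟨k, hk⟩ : ∃ k, a i = k + 1 := ⟨a i - 1, by omega⟩
          rw [hk, Nat.add_sub_cancel, pow_succ]
          have h3 : (x⁻¹) ^ k * x ^ k = 1 := by rw [inv_pow]; exact inv_mul_cancel₀ (pow_ne_zero _ hx)
          calc (x⁻¹) ^ k * (x ^ k * x * (x⁻¹ * g)) = ((x⁻¹) ^ k * x ^ k) * (x * x⁻¹) * g := by ring
            _ = g := by rw [h3, mul_inv_cancel₀ hx, one_mul, one_mul]
        rw [h2]
        exact hg
      · rw [Function.update_of_ne hi, hwi i hi]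
        exact ha i)
    have h2 : ∑ i, Function.update a i₀ (a i₀ - 1) i < ∑ i, a i := by
      refine Finset.sum_lt_sum (fun i _ => ?_) ⟨i₀, Finset.mem_univ _, ?_⟩
      · rcases eq_or_ne i i₀ with rfl | hi
        · rw [Function.update_self]
          omega
        · rw [Function.update_of_ne hi]
      · rw [Function.update_self]
        omega
    omega

end Pool.Agent.H13.CV

end
end

section

/-!
# CV BirkC: Birkhoff bases

`exists_birk`: `w, a` as in `exists_min`; claim: `Birk x w a`.  Let `y = x⁻¹` (`Gen L y`, there is a place over `y = 0`).  (⇐ of `inf`) `f = ∑ (x ^ a i * r i) * (y ^ a i * w i)`, `r i = w.repr f i`.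
(⇒ of `inf`) Let `RegLoc y f`, `s i = x ^ a i * r i ∈ L`, `f = ∑ s i * (y ^ a i * w i)`.  By `exists_zpow` (for `y`): for the `s i ≠ 0`: `oz E (s i) = k i * oz E y` for all `E` over `y = 0`.
Suppose that not all `s i` are `RegLoc y`; so some `k i < 0`; let `k₀ < 0` be the least of the `k i` (`s i ≠ 0`).  `s' i = y ^ (-k₀) * s i` is `RegLoc y` for all `i`, in `L`, and for an `i₁` with
`k i₁ = k₀` it has order `0` at the places over `y = 0`.  `∑ s' i * (y ^ a i * w i) = y ^ (-k₀) * f = y * (y ^ (-k₀ - 1) * f)`.  By `exists_residue`: `s' i = γ i + y * s'' i`, with `RegLoc y (s'' i)`; so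
`∑ γ i • (y ^ a i * w i) = y * g` with `g = y ^ (-k₀ - 1) * f - ∑ s'' i * (y ^ a i * w i)`, `RegLoc y g`.  So all `γ i = 0` by `exists_min`; but `s' i₁ = y * s'' i₁` has positive order at a place over `y = 0`:
contradiction.

`Birk.exists_zero`: `1 = ∑ r i * w i` is `RegAff x` and `RegLoc x⁻¹`, so `r i ∈ ℂ[x]` and `RegLoc x⁻¹ (x ^ a i * r i)`; by `poly_inf`, `r i = 0` if `1 ≤ a i`; as `1 ≠ 0` there is `i₀` with `a i₀ = 0`.
If `a i = 0` then `w i` is `RegAff x` and (its coordinates are `0` and `1`) `RegLoc x⁻¹`; so it has no poles and is a constant.  Two different elements of the basis are not both constants (linearly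
independent over `L ∋` constants).
`Birk.pole`: `(x⁻¹) ^ a i * w i` is `RegLoc x⁻¹`: its `i`-th coordinate times `x ^ a i` is `1`.
-/

set_option autoImplicit false

open Pool.Agent.H23.Fano (PrimeDivisorOver Form regularForms)

noncomputable section

namespace Pool.Agent.H13.CV

variable {K : Type} [Field K] [Algebra ℂ K] {L : IntermediateField ℂ K} {x : K} {n : ℕ}

private theorem BC_sum (w : Module.Basis (Fin n) L K) (f : K) : f = ∑ i, ((w.repr f i : L) : K) * w i := by
  conv_lhs => rw [← w.sum_repr f]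
  rfl

private theorem BC_zero (y : K) : RegLoc y (0 : K) := fun E _ => by
  rw [E.ord.map_zero]
  exact le_top

private theorem BC_one (y : K) : RegLoc y (1 : K) := fun E _ => by
  rw [E.ord.map_one]

private theorem BC_mul {y f g : K} (hf : RegLoc y f) (hg : RegLoc y g) : RegLoc y (f * g) :=
  fun E hE => nonneg_mul (hf E hE) (hg E hE)

private theorem BC_pow (y : K) (k : ℕ) : RegLoc y (y ^ k) := fun _ hE => nonneg_pow hE.le k

private theorem BC_step (hL : Gen L x) (hex : ∃ E : Place K, 0 < E.ord x⁻¹) {b : Fin n → K}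
    (hb : ∀ i, RegLoc x⁻¹ (b i))
    (hmin : ∀ (γ : Fin n → ℂ) (g : K), RegLoc x⁻¹ g → ∑ i, γ i • b i = x⁻¹ * g → ∀ i, γ i = 0) (m : ℕ) :
    ∀ s : Fin n → K, (∀ i, s i ∈ L) → (∀ i, RegLoc x⁻¹ ((x⁻¹) ^ m * s i)) → RegLoc x⁻¹ (∑ i, s i * b i) →
      ∀ i, RegLoc x⁻¹ (s i) := by
  have hx : x⁻¹ ≠ 0 := inv_ne_zero hL.ne_zero
  have hxL : x⁻¹ ∈ L := L.inv_mem hL.mem
  induction m with
  | zero =>
    intro s _ h _ i
    simpa using h i
  | succ m ih =>
    intro s hsL hs hF
    refine ih s hsL (fun i => ?_) hF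
    have hres := fun i => exists_residue hL.inv hex (L.mul_mem (pow_mem hxL (m + 1)) (hsL i)) (hs i)
    choose γ s' hs'L hs' heq using hres
    have h1 : ∑ i, γ i • b i = x⁻¹ * ((x⁻¹) ^ m * (∑ i, s i * b i) - ∑ i, s' i * b i) := by
      have h2 : ∑ i, γ i • b i = ∑ i, ((x⁻¹) ^ (m + 1) * s i - x⁻¹ * s' i) * b i := by
        refine Finset.sum_congr rfl fun i _ => ?_
        rw [heq i, Algebra.smul_def]
        ring
      rw [h2, mul_sub, Finset.mul_sum, Finset.mul_sum, Finset.mul_sum, ← Finset.sum_sub_distrib]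
      refine Finset.sum_congr rfl fun i _ => ?_
      ring
    have h3 := hmin γ _ (fun E hE => nonneg_sub (nonneg_mul (nonneg_pow hE.le m) (hF E hE))
      (nonneg_sum fun i _ => nonneg_mul (hs' i E hE) (hb i E hE))) h1 i
    have h4 : (x⁻¹) ^ m * s i = s' i := by
      have h5 := heq i
      rw [h3, map_zero, zero_add] at h5
      refine mul_left_cancel₀ hx ?_
      rw [← h5]
      ring
    rw [h4]
    exact hs' i

theorem exists_birk (hK : CurveField K) (hL : Gen L x) [FiniteDimensional L K] :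
    ∃ (w : Module.Basis (Fin (Module.finrank L K)) L K) (a : Fin (Module.finrank L K) → ℕ), Birk x w a := by
  obtain ⟨w, a, hA, hreg, hmin⟩ := exists_min hK hL
  refine ⟨w, a, hA, fun f => ?_⟩
  have hx0 : x ≠ 0 := hL.ne_zero
  have hsum : f = ∑ i, (x ^ a i * ((w.repr f i : L) : K)) * ((x⁻¹) ^ a i * w i) := by
    conv_lhs => rw [BC_sum w f]
    refine Finset.sum_congr rfl fun i _ => ?_
    have h1 : x ^ a i * (x⁻¹) ^ a i = 1 := by rw [← mul_pow, mul_inv_cancel₀ hx0, one_pow]
    calc ((w.repr f i : L) : K) * w i = (x ^ a i * (x⁻¹) ^ a i) * (((w.repr f i : L) : K) * w i) := by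
          rw [h1, one_mul]
      _ = _ := by ring
  constructor
  · intro hf
    have hL' : ∀ i, x ^ a i * ((w.repr f i : L) : K) ∈ L := fun i =>
      L.mul_mem (pow_mem hL.mem _) (w.repr f i).2
    have hb := fun i => exists_bound hL (x ^ a i * ((w.repr f i : L) : K))
    choose m hm using hb
    refine BC_step hL (exists_place_over hK hL.inv.tr) hreg hmin (Finset.univ.sup m) _ hL' (fun i => ?_) ?_
    · have h1 : m i ≤ Finset.univ.sup m := Finset.le_sup (Finset.mem_univ i)
      have h2 := BC_mul (BC_pow x⁻¹ (Finset.univ.sup m - m i)) (hm i)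
      rwa [← mul_assoc, ← pow_add, Nat.sub_add_cancel h1] at h2
    · rw [← hsum]
      exact hf
  · intro h E hE
    rw [hsum]
    exact nonneg_sum fun i _ => nonneg_mul (h i E hE) (hreg i E hE)

private theorem BC_pole (hL : Gen L x) {w : Module.Basis (Fin n) L K} {a : Fin n → ℕ} (hw : Birk x w a)
    (i : Fin n) : RegLoc x⁻¹ ((x⁻¹) ^ a i * w i) := by
  have hx0 : x ≠ 0 := hL.ne_zero
  have hxL : x⁻¹ ∈ L := L.inv_mem hL.mem
  refine (hw.inf _).2 fun j => ?_
  have h1 : (x⁻¹) ^ a i * w i = (⟨x⁻¹, hxL⟩ ^ a i : L) • w i := rfl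
  rw [h1, map_smul, w.repr_self, Finsupp.smul_apply, Finsupp.single_apply]
  by_cases hij : i = j
  · subst hij
    rw [if_pos rfl, smul_eq_mul, mul_one]
    have h2 : x ^ a i * (((⟨x⁻¹, hxL⟩ ^ a i : L)) : K) = 1 := by
      show x ^ a i * (x⁻¹) ^ a i = 1
      rw [← mul_pow, mul_inv_cancel₀ hx0, one_pow]
    rw [h2]
    exact BC_one _
  · rw [if_neg hij, smul_zero]
    have h2 : x ^ a j * ((0 : L) : K) = 0 := by
      rw [ZeroMemClass.coe_zero, mul_zero]
    rw [h2]
    exact BC_zero _

theorem Birk.exists_zero (hK : CurveField K) (hL : Gen L x) {w : Module.Basis (Fin n) L K} {a : Fin n → ℕ} (hw : Birk x w a) :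
    ∃ i₀, a i₀ = 0 ∧ ∀ i, i ≠ i₀ → 1 ≤ a i := by
  have hinf := exists_place_inf hK hL.tr
  have h1 : ∃ i₀, a i₀ = 0 := by
    by_contra hcon
    push Not at hcon
    have haff := (hw.aff 1).1 fun E _ => by rw [E.ord.map_one]
    have hloc := (hw.inf 1).1 (BC_one _)
    have h2 : (1 : K) = 0 := by
      rw [BC_sum w 1]
      refine Finset.sum_eq_zero fun i _ => ?_
      rw [(poly_inf hL hinf (haff i) (hloc i)).1 (Nat.one_le_iff_ne_zero.2 (hcon i)), zero_mul]
    exact one_ne_zero h2
  obtain ⟨i₀, hi₀⟩ := h1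
  have hconst : ∀ j, a j = 0 → ∃ c : ℂ, w j = algebraMap ℂ K c := by
    intro j hj
    refine const_of_no_pole hK fun E => ?_
    rcases lt_or_ge (E.ord x) 0 with h | h
    · have h2 := BC_pole hL hw j E ((inv_pos_iff hL.ne_zero).2 h)
      rwa [hj, pow_zero, one_mul] at h2
    · exact hw.aff.basis_regAff j E h
  refine ⟨i₀, hi₀, fun i hi => ?_⟩
  rw [Nat.one_le_iff_ne_zero]
  intro hai
  obtain ⟨c₀, hc₀⟩ := hconst i₀ hi₀
  obtain ⟨c, hc⟩ := hconst i hai
  have h3 : (algebraMap ℂ L c₀) • w i = (algebraMap ℂ L c) • w i₀ := by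
    rw [hc, hc₀]
    show algebraMap ℂ K c₀ * algebraMap ℂ K c = algebraMap ℂ K c * algebraMap ℂ K c₀
    ring
  have h4 := congrArg (fun v => w.repr v i) h3
  simp only [map_smul, w.repr_self, Finsupp.smul_apply, Finsupp.single_apply, if_neg hi.symm,
    if_true, smul_eq_mul, mul_one, mul_zero] at h4
  have h5 : c₀ = 0 := by
    by_contra hne
    exact hne ((algebraMap ℂ L).injective (by rw [h4, map_zero]))
  rw [h5, map_zero] at hc₀
  exact w.ne_zero i₀ hc₀

theorem Birk.pole (hL : Gen L x) {w : Module.Basis (Fin n) L K} {a : Fin n → ℕ} (hw : Birk x w a) (i : Fin n) : RegLoc x⁻¹ ((x⁻¹) ^ a i * w i) :=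
  BC_pole hL hw i

end Pool.Agent.H13.CV

end
end

section

/-!
# CV Deg: the degree of the divisor `x = 0`

`≤`: `sum_le`.  `≥`: let `w` be a basis as in `exists_locB`, `W` the span of the `w i` over `ℂ`: it has dimension `n = finrank L K` (the `w i` are linearly independent over `L`, so over `ℂ`:
`LinearIndependent.restrict_scalars`), and `W ≤ ordGe E 0` for the places over `x = 0`.  `finrank_le_steps` with `d = 0`, `e E = (oz E x).toNat`: it suffices that `W ⊓ ⨅ E ∈ T, ordGe E (oz E x)` is zero.  Let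
`f = ∑ γ i • w i` be in it.  Then `RegLoc x (f / x)`, and its coordinates are `γ i / x`; so `0 ≤ ord (γ i / x)` at the places over `x = 0`; there is one (`exists_place_over`), and if `γ i ≠ 0` then
`ord (γ i / x) = - ord x < 0`.  So all `γ i = 0`.
`degree_inf`: `degree_eq` for `x⁻¹` (`Gen.inv`).
`adjoin_eq_top_of_simple_pole`: `f` is transcendental (`tr_of_oz_ne`); `degree_inf` for `x = f`, `L = ℂ(f)`, `T = {E}`: `finrank L K = 1`, so `L = ⊤`.
`adjoin_eq_top_of_double_pole`: `finrank ℂ(u) K = 2` (`degree_inf`).  The elements `c ≠ 0` of `ℂ(u)` have even order at `E` (`exists_zpow` for `x = u⁻¹`: `oz E c = k * 2`), so `v ∉ ℂ(u)`.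
`ℂ(u) < ℂ(u, v) ≤ K` and `finrank ℂ(u) K = 2`, so `ℂ(u, v) = K` (`1, v` are linearly independent over `ℂ(u)`, so they are a basis of `K` over `ℂ(u)`; or multiplicativity of degrees).
-/

set_option autoImplicit false

open Pool.Agent.H23.Fano (PrimeDivisorOver Form regularForms)

noncomputable section

namespace Pool.Agent.H13.CV

variable {K : Type} [Field K] [Algebra ℂ K] {L : IntermediateField ℂ K} {x : K}

theorem degree_eq (hK : CurveField K) (hL : Gen L x) [FiniteDimensional L K] (T : Finset (Place K)) (hT : ∀ E, E ∈ T ↔ 0 < E.ord x) :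
    ∑ E ∈ T, oz E x = (Module.finrank L K : ℤ) := by
  classical
  have hx0 : x ≠ 0 := hL.ne_zero
  apply le_antisymm (sum_le hL T (fun E hE => (hT E).1 hE))
  obtain ⟨w, hw⟩ := exists_locB hK hL
  have hinj : Function.Injective (fun r : ℂ => r • (1 : L)) := by
    intro a b hab
    have h1 : algebraMap ℂ L a = algebraMap ℂ L b := by
      simpa [Algebra.algebraMap_eq_smul_one] using hab
    exact (algebraMap ℂ L).injective h1
  have hli : LinearIndependent ℂ (w : Fin (Module.finrank L K) → K) := w.linearIndependent.restrict_scalars hinj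
  have hWdim : Module.finrank ℂ (Submodule.span ℂ (Set.range w)) = Module.finrank L K := by
    rw [finrank_span_eq_card hli, Fintype.card_fin]
  have : FiniteDimensional ℂ (Submodule.span ℂ (Set.range w)) := FiniteDimensional.span_of_finite ℂ (Set.finite_range w)
  have hW0 : ∀ E ∈ T, Submodule.span ℂ (Set.range w) ≤ ordGe E 0 := by
    intro E hE
    rw [Submodule.span_le]
    rintro _ ⟨i, rfl⟩
    exact hw.basis_regLoc i E ((hT E).1 hE)
  have hpos : ∀ E ∈ T, 0 < oz E x := by
    intro E hE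
    rcases pos_iff.1 ((hT E).1 hE) with h | h
    · exact absurd h hx0
    · exact h
  have h1 := finrank_le_steps hK (Submodule.span ℂ (Set.range w)) T (fun _ => 0) (fun E => (oz E x).toNat) hW0
  have hbot : (Submodule.span ℂ (Set.range w) ⊓ ⨅ E ∈ T, ordGe E ((0 : ℤ) + ((oz E x).toNat : ℤ)) : Submodule ℂ K) = ⊥ := by
    rw [eq_bot_iff]
    intro f hf
    obtain ⟨hf1, hf2⟩ := Submodule.mem_inf.1 hf
    obtain ⟨γ, hγ⟩ := (Submodule.mem_span_range_iff_exists_fun ℂ).1 hf1
    have hf3 : ∀ E ∈ T, ((oz E x : ℤ) : WithTop ℤ) ≤ E.ord f := by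
      intro E hE
      have h2 := (Submodule.mem_iInf _).1 hf2 E
      have h3 := (Submodule.mem_iInf _).1 h2 hE
      rw [mem_ordGe, zero_add, Int.toNat_of_nonneg (hpos E hE).le] at h3
      exact h3
    have hreg : RegLoc x (f / x) := by
      intro E hE
      by_cases hf0 : f = 0
      · rw [hf0, zero_div, E.ord.map_zero]
        exact le_top
      · have h4 := hf3 E ((hT E).2 hE)
        rw [le_ord_iff] at h4
        rcases h4 with h4 | h4
        · exact absurd h4 hf0
        · rw [nonneg_iff]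
          right
          rw [oz_div E hf0 hx0]
          omega
    let xi : L := ⟨x, hL.mem⟩
    have hcoord : w.repr (f / x) = Finsupp.equivFunOnFinite.symm (fun i => xi⁻¹ * algebraMap ℂ L (γ i)) := by
      have h5 : f / x = ∑ i, (xi⁻¹ * algebraMap ℂ L (γ i)) • w i := by
        rw [← hγ, Finset.sum_div]
        refine Finset.sum_congr rfl fun i _ => ?_
        rw [Algebra.smul_def, Algebra.smul_def]
        have h6 : algebraMap L K (xi⁻¹ * algebraMap ℂ L (γ i)) = x⁻¹ * algebraMap ℂ K (γ i) := by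
          rw [map_mul, map_inv₀]
          rfl
        rw [h6]
        field_simp
      rw [h5]
      ext i
      rw [w.repr_sum_self]
      rfl
    have hall : ∀ i, γ i = 0 := by
      intro i
      by_contra hne
      obtain ⟨E, hE⟩ := exists_place_over hK hL.tr
      have h7 := (hw (f / x)).1 hreg i E hE
      rw [hcoord] at h7
      have h8 : ((Finsupp.equivFunOnFinite.symm (fun i => xi⁻¹ * algebraMap ℂ L (γ i)) i : L) : K) = algebraMap ℂ K (γ i) / x := by
        show (((xi⁻¹ * algebraMap ℂ L (γ i) : L)) : K) = _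
        have h9 : (((xi⁻¹ * algebraMap ℂ L (γ i) : L)) : K) = x⁻¹ * algebraMap ℂ K (γ i) := rfl
        rw [h9]
        field_simp
      rw [h8] at h7
      have hc0 : algebraMap ℂ K (γ i) ≠ 0 := by
        intro h
        exact hne ((map_eq_zero _).1 h)
      have hp := hpos E ((hT E).2 hE)
      rcases nonneg_iff.1 h7 with h10 | h10
      · rw [div_eq_zero_iff] at h10
        rcases h10 with h10 | h10
        · exact hc0 h10
        · exact hx0 h10
      · rw [oz_div E hc0 hx0, oz_const] at h10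
        omega
    rw [Submodule.mem_bot, ← hγ]
    refine Finset.sum_eq_zero fun i _ => ?_
    rw [hall i, zero_smul]
  have h11 : Module.finrank L K ≤ ∑ E ∈ T, (oz E x).toNat := by
    rw [hbot, finrank_bot, zero_add, hWdim] at h1
    exact h1
  have h13 : ∑ E ∈ T, oz E x = ((∑ E ∈ T, (oz E x).toNat : ℕ) : ℤ) := by
    rw [Nat.cast_sum]
    refine Finset.sum_congr rfl fun E hE => ?_
    rw [Int.toNat_of_nonneg (hpos E hE).le]
  rw [h13]
  exact_mod_cast h11

theorem degree_inf (hK : CurveField K) (hL : Gen L x) [FiniteDimensional L K] (T : Finset (Place K)) (hT : ∀ E, E ∈ T ↔ E.ord x < 0) :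
    ∑ E ∈ T, -oz E x = (Module.finrank L K : ℤ) := by
  have h := degree_eq hK hL.inv T (fun E => by rw [hT, inv_pos_iff hL.ne_zero])
  rw [← h]
  exact Finset.sum_congr rfl fun E _ => (oz_inv E x).symm

/-- a function whose only pole is a simple pole generates the field -/
theorem adjoin_eq_top_of_simple_pole (hK : CurveField K) {f : K} {E : Place K} (hE : oz E f = -1) (h : ∀ E' : Place K, E' ≠ E → 0 ≤ E'.ord f) :
    IntermediateField.adjoin ℂ {f} = ⊤ := by
  classical
  have htr : Transcendental ℂ f := tr_of_oz_ne (E := E) (by omega)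
  have := hK.fin f htr
  have hG : Gen (IntermediateField.adjoin ℂ {f}) f := ⟨htr, rfl⟩
  have h1 := degree_inf hK hG {E} (fun E' => by
    rw [Finset.mem_singleton]
    constructor
    · rintro rfl
      rw [neg_iff]
      omega
    · intro h2
      by_contra hne
      exact absurd (h E' hne) (not_le.2 h2))
  rw [Finset.sum_singleton, hE] at h1
  rw [← IntermediateField.finrank_eq_one_iff_eq_top]
  omega

/-- a function `u` with a double pole at `E` and no other poles, and a function `v` with odd order at `E`, generate the field -/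
theorem adjoin_eq_top_of_double_pole (hK : CurveField K) {u v : K} {E : Place K} (hE : oz E u = -2) (h : ∀ E' : Place K, E' ≠ E → 0 ≤ E'.ord u) (hv : Odd (oz E v)) :
    v ∉ IntermediateField.adjoin ℂ {u} ∧ IntermediateField.adjoin ℂ {u, v} = ⊤ := by
  classical
  have htr : Transcendental ℂ u := tr_of_oz_ne (E := E) (by omega)
  have := hK.fin u htr
  have hG : Gen (IntermediateField.adjoin ℂ {u}) u := ⟨htr, rfl⟩
  have hneg : E.ord u < 0 := by
    rw [neg_iff]
    omega
  have h1 := degree_inf hK hG {E} (fun E' => by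
    rw [Finset.mem_singleton]
    constructor
    · rintro rfl
      exact hneg
    · intro h2
      by_contra hne
      exact absurd (h E' hne) (not_le.2 h2))
  rw [Finset.sum_singleton, hE] at h1
  have hv0 : v ≠ 0 := by
    rintro rfl
    rw [oz_zero] at hv
    exact absurd hv (by decide)
  have hvL : v ∉ IntermediateField.adjoin ℂ {u} := by
    intro hmem
    obtain ⟨k, hk⟩ := exists_zpow hG.inv hmem hv0
    have h2 := hk E ((inv_pos_iff hG.ne_zero).2 hneg)
    rw [oz_inv, hE] at h2
    rw [h2] at hv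
    obtain ⟨m, hm⟩ := hv
    omega
  refine ⟨hvL, ?_⟩
  have hli : LinearIndependent (IntermediateField.adjoin ℂ {u}) ![(1 : K), v] := by
    rw [LinearIndependent.pair_iff]
    intro s t hst
    have ht : t = 0 := by
      by_contra ht
      apply hvL
      have h3 : v = ((-s / t : IntermediateField.adjoin ℂ {u}) : K) := by
        have ht' : (t : K) ≠ 0 := by
          intro h4
          exact ht (Subtype.ext h4)
        have h5 : (s : K) + (t : K) * v = 0 := by
          have h6 := hst
          rw [Algebra.smul_def, Algebra.smul_def, mul_one] at h6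
          exact h6
        have h7 : ((-s / t : IntermediateField.adjoin ℂ {u}) : K) = -(s : K) / (t : K) := rfl
        rw [h7, eq_div_iff ht']
        linear_combination h5
      rw [h3]
      exact Subtype.mem _
    refine ⟨?_, ht⟩
    rw [ht, zero_smul, add_zero, Algebra.smul_def, mul_one] at hst
    exact Subtype.ext hst
  have hspan := hli.span_eq_top_of_card_eq_finrank' (by
    rw [Fintype.card_fin]
    omega)
  rw [eq_top_iff]
  intro y _
  have hy : y ∈ Submodule.span (IntermediateField.adjoin ℂ {u}) (Set.range ![(1 : K), v]) := by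
    rw [hspan]
    exact Submodule.mem_top
  rw [Matrix.range_cons, Matrix.range_cons, Matrix.range_empty, Set.union_empty, ← Set.insert_eq, Submodule.mem_span_pair] at hy
  obtain ⟨a, b, hab⟩ := hy
  have hle : IntermediateField.adjoin ℂ {u} ≤ IntermediateField.adjoin ℂ {u, v} :=
    IntermediateField.adjoin.mono ℂ _ _ (by simp)
  have hvm : v ∈ IntermediateField.adjoin ℂ {u, v} := IntermediateField.subset_adjoin ℂ _ (by simp)
  rw [← hab, Algebra.smul_def, Algebra.smul_def, mul_one]
  exact add_mem (hle a.2) (mul_mem (hle b.2) hvm)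

end Pool.Agent.H13.CV

end
end

section

/-!
# CV CaseA: functions with a simple pole

`top_of_dv_one`: `f` has a pole (`const_of_no_pole`), so `oz E f = - 1` and there are no other poles: `adjoin_eq_top_of_simple_pole`.
`exists_not_const`: the constants form a subspace of dimension `1`, it does not contain `W`.
-/

set_option autoImplicit false

open Pool.Agent.H23.Fano (PrimeDivisorOver Form regularForms)

noncomputable section

namespace Pool.Agent.H13.CV

variable {K : Type} [Field K] [Algebra ℂ K]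

/-- a non-constant function with at most a simple pole at `E` generates the field -/
theorem top_of_dv_one (hK : CurveField K) {E : Place K} {f : K} (hf : f ∈ LD (dv E 1)) (hc : ∀ c : ℂ, f ≠ algebraMap ℂ K c) :
    IntermediateField.adjoin ℂ {f} = ⊤ := by
  have hf' : ∀ E' : Place K, ((-(dv E 1 E') : ℤ) : WithTop ℤ) ≤ E'.ord f := by
    intro E'
    have h1 := (Submodule.mem_iInf _).mp hf E'
    exact h1
  have hoth : ∀ E' : Place K, E' ≠ E → 0 ≤ E'.ord f := by
    intro E' hE'
    have h1 := hf' E'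
    unfold dv at h1
    rw [if_neg hE', neg_zero] at h1
    exact h1
  have hE1 : ((-1 : ℤ) : WithTop ℤ) ≤ E.ord f := by
    have h1 := hf' E
    unfold dv at h1
    rw [if_pos rfl] at h1
    exact h1
  have hneg : E.ord f < 0 := by
    by_contra h
    rw [not_lt] at h
    obtain ⟨c, hc'⟩ := const_of_no_pole hK (f := f) (fun E' => by
      by_cases hE' : E' = E
      · rw [hE']
        exact h
      · exact hoth E' hE')
    exact hc c hc'
  refine adjoin_eq_top_of_simple_pole hK (E := E) ?_ hoth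
  unfold oz
  have hne : E.ord f ≠ ⊤ := by
    intro h
    rw [h] at hneg
    exact absurd hneg (not_lt.mpr le_top)
  obtain ⟨a, ha⟩ := WithTop.ne_top_iff_exists.mp hne
  rw [← ha] at hneg hE1 ⊢
  have h1 : a < 0 := by exact_mod_cast hneg
  have h2 : -1 ≤ a := by exact_mod_cast hE1
  have h3 : a = -1 := by omega
  rw [h3]
  rfl

theorem exists_not_const {W : Submodule ℂ K} [FiniteDimensional ℂ W] (h : 2 ≤ Module.finrank ℂ W) : ∃ f ∈ W, ∀ c : ℂ, f ≠ algebraMap ℂ K c := by
  by_contra hcon
  push Not at hcon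
  have hle : W ≤ Submodule.span ℂ {(1 : K)} := by
    intro f hf
    obtain ⟨c, hc⟩ := hcon f hf
    rw [Submodule.mem_span_singleton]
    exact ⟨c, by rw [hc, Algebra.smul_def, mul_one]⟩
  have h1 := Submodule.finrank_mono hle
  have h2 : Module.finrank ℂ (Submodule.span ℂ {(1 : K)}) ≤ 1 := by
    have := finrank_span_le_card (R := ℂ) ({(1 : K)} : Set K)
    simpa using this
  omega

end Pool.Agent.H13.CV

end
end

section

/-!
# CV Dims: dimensions of spaces of functions with given poles

`exists_W`: the functions `x ^ j * w i`, `0 ≤ j ≤ m - a i` (`j < m + 1 - a i`), are linearly independent over `ℂ` (the `w i` are a basis over `L`, and the powers of `x` are linearly independent over `ℂ`), their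
number is `∑ i, (m + 1 - a i)` (truncated subtraction).  They are `RegAff x`, and at the places with `ord x < 0` their order is `≥ (j + a i) * oz E x ≥ m * oz E x` (`Birk.pole`); `polar x E = - oz E x` there and
`0` elsewhere.  `W` is their span.

`exists_dv`: let `E` be a place with `ord x < 0`, `k ≤ m * (- oz E x)`.  Let `W ≤ LD (m * polar x)` as in `exists_W`, `T` the finite set of the places with `ord x < 0`, `∑ E' ∈ T, - oz E' x = n`
(`degree_inf`, `n = finrank L K`).  Apply `finrank_le_steps` with `d E' = - m * polar x E' = m * oz E' x`, `e E' = m * (- oz E' x)` for `E' ≠ E` and `e E = m * (- oz E x) - k`: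
`W' = W ⊓ ⨅ E' ∈ T, ordGe E' (d E' + e E')` is contained in `LD (dv E k)` and `finrank W ≤ finrank W' + (m * n - k)`.
-/

set_option autoImplicit false

open Pool.Agent.H23.Fano (PrimeDivisorOver Form regularForms)

noncomputable section

namespace Pool.Agent.H13.CV

variable {K : Type} [Field K] [Algebra ℂ K] {L : IntermediateField ℂ K} {x : K} {n : ℕ}

/-- the powers of a transcendental element are linearly independent -/
private theorem Dims_pow (hL : Gen L x) : LinearIndependent ℂ (fun j : ℕ => (⟨x, hL.mem⟩ : L) ^ j) := by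
  have h1 : Transcendental ℂ (⟨x, hL.mem⟩ : L) := by
    intro h
    apply hL.tr
    have h2 := (isAlgebraic_algebraMap_iff (R := ℂ) (S := L) (A := K) (a := (⟨x, hL.mem⟩ : L))
      (algebraMap L K).injective).2 h
    exact h2
  have h2 := transcendental_iff_injective.1 h1
  have h3 : LinearIndependent ℂ (fun j : ℕ => (Polynomial.monomial j (1 : ℂ))) := by
    have := (Polynomial.basisMonomials ℂ).linearIndependent
    rwa [Polynomial.coe_basisMonomials] at this
  have h4 := h3.map' (Polynomial.aeval (⟨x, hL.mem⟩ : L)).toLinearMap (LinearMap.ker_eq_bot.2 h2)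
  have h5 : (⇑(Polynomial.aeval (⟨x, hL.mem⟩ : L)).toLinearMap ∘ fun j : ℕ => (Polynomial.monomial j (1 : ℂ))) =
      fun j : ℕ => (⟨x, hL.mem⟩ : L) ^ j := by
    funext j
    simp [Polynomial.aeval_monomial]
  rwa [h5] at h4

private theorem Dims_polar_of_neg {E : Place K} (hE : E.ord x < 0) : polar x E = -oz E x := by
  have h1 := neg_iff.1 hE
  unfold polar
  omega

private theorem Dims_polar_of_nonneg {E : Place K} (hx : x ≠ 0) (hE : 0 ≤ E.ord x) : polar x E = 0 := by
  have h1 := (nonneg_iff.1 hE).resolve_left hx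
  unfold polar
  omega

theorem Birk.exists_W (hK : CurveField K) (hL : Gen L x) {w : Module.Basis (Fin n) L K} {a : Fin n → ℕ} (hw : Birk x w a) (m : ℕ) :
    ∃ W : Submodule ℂ K, FiniteDimensional ℂ W ∧ W ≤ LD (fun E => m * polar x E) ∧ Module.finrank ℂ W = ∑ i, (m + 1 - a i) := by
  have hx : x ≠ 0 := hL.ne_zero
  have h1 : LinearIndependent ℂ (fun p : ℕ × Fin n => ((⟨x, hL.mem⟩ : L) ^ p.1) • w p.2) :=
    linearIndependent_smul (Dims_pow hL) w.linearIndependent
  have h2 : LinearIndependent ℂ (fun p : (i : Fin n) × Fin (m + 1 - a i) => x ^ (p.2 : ℕ) * w p.1) := by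
    have h3 := h1.comp (fun p : (i : Fin n) × Fin (m + 1 - a i) => ((p.2 : ℕ), p.1)) (by
      rintro ⟨i, j⟩ ⟨i', j'⟩ h
      simp only [Prod.mk.injEq] at h
      obtain ⟨h4, h5⟩ := h
      subst h5
      have h6 : j = j' := Fin.ext h4
      rw [h6])
    refine h3
  refine ⟨Submodule.span ℂ (Set.range fun p : (i : Fin n) × Fin (m + 1 - a i) => x ^ (p.2 : ℕ) * w p.1),
    FiniteDimensional.span_of_finite ℂ (Set.finite_range _), ?_, ?_⟩
  · rw [Submodule.span_le]
    rintro _ ⟨⟨i, j⟩, rfl⟩
    show x ^ (j : ℕ) * w i ∈ LD _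
    rw [mem_LD]
    intro E
    have hwi : w i ≠ 0 := w.ne_zero i
    have hxj : x ^ (j : ℕ) ≠ 0 := pow_ne_zero _ hx
    rw [le_ord_iff]
    right
    rw [oz_mul E hxj hwi, oz_pow]
    have hj : (j : ℕ) < m + 1 - a i := j.2
    rcases lt_or_ge (E.ord x) 0 with hE | hE
    · show -((m : ℤ) * polar x E) ≤ _
      rw [Dims_polar_of_neg hE]
      have hxE : oz E x < 0 := neg_iff.1 hE
      have h3 := Birk.pole hL hw i E ((inv_pos_iff hx).2 hE)
      have h4 := (nonneg_iff.1 h3).resolve_left (mul_ne_zero (pow_ne_zero _ (inv_ne_zero hx)) hwi)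
      rw [oz_mul E (pow_ne_zero _ (inv_ne_zero hx)) hwi, oz_pow, oz_inv] at h4
      have h5 : ((j : ℕ) : ℤ) + a i ≤ m := by omega
      nlinarith
    · show -((m : ℤ) * polar x E) ≤ _
      rw [Dims_polar_of_nonneg hx hE]
      have hxE : 0 ≤ oz E x := (nonneg_iff.1 hE).resolve_left hx
      have h3 := AffB.basis_regAff hw.aff i E hE
      have h4 := (nonneg_iff.1 h3).resolve_left hwi
      have h5 : (0 : ℤ) ≤ ((j : ℕ) : ℤ) * oz E x := mul_nonneg (Int.natCast_nonneg _) hxE
      linarith
  · rw [finrank_span_eq_card h2, Fintype.card_sigma]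
    simp only [Fintype.card_fin]

theorem Birk.exists_dv (hK : CurveField K) (hL : Gen L x) {w : Module.Basis (Fin n) L K} {a : Fin n → ℕ} (hw : Birk x w a) (m k : ℕ)
    {E : Place K} (hE : E.ord x < 0) (hk : (k : ℤ) ≤ m * (-oz E x)) :
    ∃ W : Submodule ℂ K, FiniteDimensional ℂ W ∧ W ≤ LD (dv E k) ∧ (∑ i, (m + 1 - a i)) + k ≤ Module.finrank ℂ W + m * n := by
  classical
  have hx : x ≠ 0 := hL.ne_zero
  obtain ⟨W, hW1, hW2, hW3⟩ := hw.exists_W hK hL m
  have := hW1
  have : FiniteDimensional L K := Module.Finite.of_basis w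
  have hn : Module.finrank L K = n := by
    rw [Module.finrank_eq_card_basis w, Fintype.card_fin]
  have hfin := finite_over hL.inv
  set T : Finset (Place K) := hfin.toFinset with hTdef
  have hT : ∀ E', E' ∈ T ↔ E'.ord x < 0 := by
    intro E'
    rw [hTdef, Set.Finite.mem_toFinset]
    exact inv_pos_iff hx
  have hdeg := degree_inf hK hL T hT
  rw [hn] at hdeg
  have hET : E ∈ T := (hT E).2 hE
  set d : Place K → ℤ := fun E' => -(m * polar x E') with hd
  set e : Place K → ℕ := fun E' => if E' = E then (m * (-oz E x) - k).toNat else (m * (-oz E' x)).toNat with he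
  have hstep := finrank_le_steps hK W T d e (fun E' _ => hW2.trans (iInf_le _ E'))
  have he1 : ((e E : ℕ) : ℤ) = m * (-oz E x) - k := by
    simp only [he, if_true]
    rw [Int.toNat_of_nonneg (by linarith)]
  have he2 : ∀ E' ∈ T, E' ≠ E → ((e E' : ℕ) : ℤ) = m * (-oz E' x) := by
    intro E' hE' hne
    simp only [he, if_neg hne]
    have h1 := neg_iff.1 ((hT E').1 hE')
    rw [Int.toNat_of_nonneg (mul_nonneg (Int.natCast_nonneg _) (by linarith))]
  have hsum : ((∑ E' ∈ T, e E' : ℕ) : ℤ) = m * n - k := by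
    push_cast
    rw [← Finset.add_sum_erase T _ hET, he1, Finset.sum_congr rfl (fun E' hE' =>
      he2 E' (Finset.mem_of_mem_erase hE') (Finset.ne_of_mem_erase hE')), ← hdeg,
      ← Finset.add_sum_erase T _ hET, mul_add, Finset.mul_sum]
    ring
  refine ⟨W ⊓ ⨅ E' ∈ T, ordGe E' (d E' + e E'), Submodule.finiteDimensional_of_le inf_le_left, ?_, ?_⟩
  · intro f hf
    obtain ⟨hf1, hf2⟩ := Submodule.mem_inf.1 hf
    rw [mem_LD]
    intro E'
    by_cases hE' : E' ∈ T
    · have h1 : f ∈ ordGe E' (d E' + e E') := by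
        have h2 := (Submodule.mem_iInf _).1 hf2 E'
        exact (Submodule.mem_iInf _).1 h2 hE'
      rw [mem_ordGe] at h1
      have h2 : d E' + e E' = -dv E k E' := by
        have h3 : d E' = -(m * (-oz E' x)) := by
          simp only [hd]
          rw [Dims_polar_of_neg ((hT E').1 hE')]
        by_cases hne : E' = E
        · subst hne
          rw [h3, he1]
          unfold dv
          rw [if_pos rfl]
          ring
        · rw [h3, he2 E' hE' hne]
          unfold dv
          rw [if_neg hne]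
          ring
      rw [h2] at h1
      exact h1
    · have hne : E' ≠ E := fun h => hE' (h ▸ hET)
      have h1 : 0 ≤ E'.ord x := by
        by_contra hcon
        exact hE' ((hT E').2 (not_le.1 hcon))
      have h2 := mem_LD.1 (hW2 hf1) E'
      have h3 : -((m : ℤ) * polar x E') = -dv E k E' := by
        rw [Dims_polar_of_nonneg hx h1]
        unfold dv
        rw [if_neg hne]
        ring
      have h4 : ((-((m : ℤ) * polar x E') : ℤ) : WithTop ℤ) ≤ E'.ord f := h2
      rw [h3] at h4
      exact h4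
  · have h1 : (Module.finrank ℂ W : ℤ) ≤ (Module.finrank ℂ (W ⊓ ⨅ E' ∈ T, ordGe E' (d E' + e E') : Submodule ℂ K) : ℤ) +
        ((∑ E' ∈ T, e E' : ℕ) : ℤ) := by exact_mod_cast hstep
    rw [hsum, hW3] at h1
    have h2 : (((∑ i, (m + 1 - a i)) + k : ℕ) : ℤ) ≤
        ((Module.finrank ℂ (W ⊓ ⨅ E' ∈ T, ordGe E' (d E' + e E') : Submodule ℂ K) + m * n : ℕ) : ℤ) := by
      push_cast at h1 ⊢
      linarith
    exact_mod_cast h2

end Pool.Agent.H13.CV

end
end

section

/-!
# CV EllA: generators with poles of order two and three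

`ell_gens`: if some `f ∈ LD (dv E 1)` is not a constant then `ℂ(f) = K` (`top_of_dv_one`).  So assume that all `f ∈ LD (dv E 1)` are constants.  `W` for `k = 2` contains a non-constant `u` (`exists_not_const`),
`oz E u ≥ -2`, and `oz E u ≠ -1, 0, …` (otherwise `u ∈ LD (dv E 1)`), so `oz E u = -2`.  `LD (dv E 2)` contains no `3`-dimensional subspace: for `W ≤ LD (dv E 2)` finite-dimensional,
`finrank W ≤ finrank (W ⊓ ordGe E (-1)) + 1` (`finrank_le_step`), and `W ⊓ ordGe E (-1) ≤ LD (dv E 1)` consists of constants, so it has dimension `≤ 1`.  So `W` for `k = 3` contains `v ∉ LD (dv E 2)`: `oz E v = -3`.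
-/

set_option autoImplicit false

open Pool.Agent.H23.Fano (PrimeDivisorOver Form regularForms)

noncomputable section

namespace Pool.Agent.H13.CV

variable {K : Type} [Field K] [Algebra ℂ K]

private theorem ella_mem_iff {E : Place K} {k : ℤ} {f : K} :
    f ∈ LD (dv E k) ↔ ((-k : ℤ) : WithTop ℤ) ≤ E.ord f ∧ ∀ E' : Place K, E' ≠ E → 0 ≤ E'.ord f := by
  rw [mem_LD]
  constructor
  · intro h
    refine ⟨?_, fun E' hE' => ?_⟩
    · have := h E
      simpa [dv] using this
    · have := h E'
      simpa [dv, hE'] using this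
  · rintro ⟨h1, h2⟩ E'
    by_cases hE' : E' = E
    · subst hE'
      simpa [dv] using h1
    · simpa [dv, hE'] using h2 E' hE'

private theorem ella_oz_eq {E : Place K} {k : ℤ} {f : K} (hf0 : f ≠ 0) (hf : f ∈ LD (dv E (k + 1)))
    (hf' : f ∉ LD (dv E k)) : oz E f = -(k + 1) := by
  rw [ella_mem_iff] at hf hf'
  have h1 : -(k + 1) ≤ oz E f := (le_ord_iff.1 hf.1).resolve_left hf0
  have h2 : ¬ (-k ≤ oz E f) := fun h => hf' ⟨le_ord_iff.2 (Or.inr h), hf.2⟩
  omega

theorem ell_gens (hK : CurveField K) {E : Place K}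
    (hW : ∀ k : ℕ, 1 ≤ k → ∃ W : Submodule ℂ K, FiniteDimensional ℂ W ∧ W ≤ LD (dv E k) ∧ k ≤ Module.finrank ℂ W) :
    (∃ t : K, IntermediateField.adjoin ℂ {t} = ⊤) ∨
    ((∀ f ∈ LD (dv E 1), ∃ c : ℂ, f = algebraMap ℂ K c) ∧ ∃ u v : K, oz E u = -2 ∧ oz E v = -3 ∧ (∀ E', E' ≠ E → 0 ≤ E'.ord u) ∧ (∀ E', E' ≠ E → 0 ≤ E'.ord v)) := by
  by_cases h1 : ∀ f ∈ LD (dv E 1), ∃ c : ℂ, f = algebraMap ℂ K c
  · right
    refine ⟨h1, ?_⟩
    obtain ⟨W2, hfin2, hle2, hdim2⟩ := hW 2 (by norm_num)
    obtain ⟨W3, hfin3, hle3, hdim3⟩ := hW 3 (by norm_num)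
    obtain ⟨u, huW, huc⟩ := exists_not_const (W := W2) hdim2
    have hu := hle2 huW
    have hu0 : u ≠ 0 := by
      have := huc 0
      simpa using this
    have hu' : u ∉ LD (dv E 1) := fun h => by
      obtain ⟨c, hc⟩ := h1 u h
      exact huc c hc
    have hnot : ¬ W3 ≤ LD (dv E 2) := by
      intro hle
      have hs := finrank_le_step hK W3 E (-2) (fun f hf => by
        have := (ella_mem_iff.1 (hle hf)).1
        exact this)
      have hI : Module.finrank ℂ (W3 ⊓ ordGe E (-2 + 1) : Submodule ℂ K) ≤ 1 := by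
        by_contra hcon
        push Not at hcon
        have : FiniteDimensional ℂ (W3 ⊓ ordGe E (-2 + 1) : Submodule ℂ K) :=
          Submodule.finiteDimensional_of_le inf_le_left
        obtain ⟨f, hf, hfc⟩ := exists_not_const (W := W3 ⊓ ordGe E (-2 + 1)) hcon
        rw [Submodule.mem_inf] at hf
        have hf1 : f ∈ LD (dv E 1) := by
          rw [ella_mem_iff]
          exact ⟨hf.2, (ella_mem_iff.1 (hle hf.1)).2⟩
        obtain ⟨c, hc⟩ := h1 f hf1
        exact hfc c hc
      omega
    obtain ⟨v, hvW, hv'⟩ : ∃ v ∈ W3, v ∉ LD (dv E 2) := by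
      by_contra hcon
      push Not at hcon
      exact hnot hcon
    have hv := hle3 hvW
    have hv0 : v ≠ 0 := by
      rintro rfl
      exact hv' (Submodule.zero_mem _)
    refine ⟨u, v, ?_, ?_, (ella_mem_iff.1 hu).2, (ella_mem_iff.1 hv).2⟩
    · exact ella_oz_eq (k := 1) hu0 (by exact_mod_cast hu) hu'
    · exact ella_oz_eq (k := 2) hv0 (by exact_mod_cast hv) hv'
  · left
    push Not at h1
    obtain ⟨f, hf, hfc⟩ := h1
    exact ⟨f, top_of_dv_one hK hf hfc⟩

end Pool.Agent.H13.CV

end
end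

section

/-!
# CV Idem: idempotents modulo `x` with trace zero

`matrix_idem`: for a complex matrix with `M * M = M` the trace is the rank (`LinearMap.IsIdempotentElem`, `LinearMap.IsProj.trace`, or diagonalise), so if it is `0` then `M = 0`.

`trace_idem`: `M i j = w.repr (u * w j) i`; these are in `L` and `RegLoc x` (`LocB`, `basis_regLoc`).  `Algebra.trace L K u = ∑ i, M i i` (`Algebra.trace_eq_matrix_trace w`, `Algebra.leftMulMatrix_eq_repr_mul`).
Let `E` be a place over `x = 0` (`exists_place_over`) and `M̄ i j = res E (M i j)`.  `M * M - M` is the matrix of the multiplication by `u² - u`: its entries are the coordinates of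
`(u² - u) * w j = x * (RegLoc)`, so they are `x` times a `RegLoc` element, and `res E` of them is `0`.  So `M̄ * M̄ = M̄` (`res_add`, `res_mul`, `res_sum`).  The trace of `M̄` is `res E` of
`Algebra.trace L K u`, which is `0`.  So `M̄ = 0`: all `M i j` have positive order at `E`, so `RegLoc x (M i j / x)` (`regLoc_div_of_pos`), so `RegLoc x (u * w j / x)` for all `j`.  With
`1 = ∑ r j * w j`, `RegLoc x (r j)` (`LocB`): `u / x = ∑ r j * (u * w j / x)`.
-/

set_option autoImplicit false

open Pool.Agent.H23.Fano (PrimeDivisorOver Form regularForms)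

noncomputable section

namespace Pool.Agent.H13.CV

theorem matrix_idem {n : ℕ} (M : Matrix (Fin n) (Fin n) ℂ) (hM : M * M = M) (ht : M.trace = 0) : M = 0 := by
  have he : IsIdempotentElem (Matrix.toLin' M) := by
    show Matrix.toLin' M * Matrix.toLin' M = Matrix.toLin' M
    have : Matrix.toLin' (M * M) = Matrix.toLin' M * Matrix.toLin' M := Matrix.toLin'_mul M M
    rw [← this, hM]
  have htr : LinearMap.trace ℂ (Fin n → ℂ) (Matrix.toLin' M) = 0 := by
    rw [Matrix.trace_toLin'_eq, ht]
  have h0 := (LinearMap.IsIdempotentElem.trace_eq_zero_iff he).mp htr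
  exact (LinearEquiv.map_eq_zero_iff Matrix.toLin').mp h0

variable {K : Type} [Field K] [Algebra ℂ K] {L : IntermediateField ℂ K} {x : K} {n : ℕ}

private theorem regLoc_mul {f g : K} (hf : RegLoc x f) (hg : RegLoc x g) : RegLoc x (f * g) :=
  fun E hE => nonneg_mul (hf E hE) (hg E hE)

private theorem regLoc_sum {ι : Type*} {s : Finset ι} {F : ι → K} (h : ∀ i ∈ s, RegLoc x (F i)) :
    RegLoc x (∑ i ∈ s, F i) :=
  fun E hE => nonneg_sum fun i hi => h i hi E hE

private theorem regLoc_one : RegLoc x (1 : K) := fun E _ => by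
  rw [E.ord.map_one]

private theorem repr_L_mul (w : Module.Basis (Fin n) L K) {c : K} (hc : c ∈ L) (f : K) (i : Fin n) :
    ((w.repr (c * f) i : L) : K) = c * ((w.repr f i : L) : K) := by
  have h1 : c * f = (⟨c, hc⟩ : L) • f := by
    rw [Algebra.smul_def]
    rfl
  rw [h1, map_smul]
  simp

private theorem sum_repr_coe (w : Module.Basis (Fin n) L K) (f : K) :
    f = ∑ i, ((w.repr f i : L) : K) * w i := by
  conv_lhs => rw [← w.sum_repr f]
  refine Finset.sum_congr rfl fun i _ => ?_
  rw [Algebra.smul_def]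
  rfl

theorem trace_idem (hK : CurveField K) (hL : Gen L x) [FiniteDimensional L K] {w : Module.Basis (Fin n) L K} (hw : LocB x w) {u : K} (hu : RegLoc x u)
    (hu2 : RegLoc x ((u ^ 2 - u) / x)) (htr : RegLoc x (((Algebra.trace L K u : L) : K) / x)) : RegLoc x (u / x) := by
  have hx0 : x ≠ 0 := hL.ne_zero
  have hxL : x ∈ L := hL.mem
  obtain ⟨E, hE⟩ := exists_place_over hK hL.tr
  -- the matrix
  set M : Fin n → Fin n → K := fun i j => ((w.repr (u * w j) i : L) : K) with hMdef
  have hMreg : ∀ i j, RegLoc x (M i j) := fun i j =>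
    (hw (u * w j)).mp (regLoc_mul hu (hw.basis_regLoc j)) i
  have hML : ∀ i j, M i j ∈ L := fun i j => (w.repr (u * w j) i).2
  -- the product
  have hMM : ∀ i j, ((w.repr (u ^ 2 * w j) i : L) : K) = ∑ k, M i k * M k j := by
    intro i j
    have h1 : u ^ 2 * w j = ∑ k, M k j * (u * w k) := by
      have h2 : u * w j = ∑ k, M k j * w k := sum_repr_coe w (u * w j)
      calc u ^ 2 * w j = u * (u * w j) := by ring
        _ = u * ∑ k, M k j * w k := by rw [← h2]
        _ = _ := by
          rw [Finset.mul_sum]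
          exact Finset.sum_congr rfl fun k _ => by ring
    rw [h1, map_sum, Finset.sum_apply', AddSubmonoidClass.coe_finsetSum]
    refine Finset.sum_congr rfl fun k _ => ?_
    rw [repr_L_mul w (hML k j), mul_comm]
  -- the difference
  have hdiff : ∀ i j, ∃ R : K, RegLoc x R ∧ (∑ k, M i k * M k j) = M i j + x * R := by
    intro i j
    refine ⟨((w.repr (((u ^ 2 - u) / x) * w j) i : L) : K),
      (hw _).mp (regLoc_mul hu2 (hw.basis_regLoc j)) i, ?_⟩
    rw [← repr_L_mul w hxL, ← hMM]
    have h3 : x * ((u ^ 2 - u) / x * w j) = u ^ 2 * w j - u * w j := by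
      field_simp
    rw [h3, map_sub]
    simp [hMdef]
  -- the residue matrix
  set N : Matrix (Fin n) (Fin n) ℂ := fun i j => res E (M i j) with hNdef
  have hnn : ∀ i j, 0 ≤ E.ord (M i j) := fun i j => hMreg i j E hE
  have hNN : N * N = N := by
    ext i j
    rw [Matrix.mul_apply]
    obtain ⟨R, hR, hR2⟩ := hdiff i j
    have hxR : 0 < E.ord (x * R) := pos_mul hE (hR E hE)
    have h4 : res E (∑ k, M i k * M k j) = ∑ k, N i k * N k j := by
      rw [res_sum hK (fun k _ => nonneg_mul (hnn i k) (hnn k j))]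
      exact Finset.sum_congr rfl fun k _ => res_mul hK (hnn i k) (hnn k j)
    have h5 : res E (M i j + x * R) = N i j := by
      rw [res_add hK (hnn i j) hxR.le, (res_eq_zero_iff hK hxR.le).mpr hxR, add_zero]
    rw [← h4, hR2, h5]
  have hNtr : N.trace = 0 := by
    have h6 : ((Algebra.trace L K u : L) : K) = ∑ i, M i i := by
      rw [Algebra.trace_eq_matrix_trace w, Matrix.trace, AddSubmonoidClass.coe_finsetSum]
      refine Finset.sum_congr rfl fun i _ => ?_
      rw [Matrix.diag_apply, Algebra.leftMulMatrix_eq_repr_mul]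
    have h7 : 0 < E.ord ((Algebra.trace L K u : L) : K) := by
      have h8 : ((Algebra.trace L K u : L) : K) = x * (((Algebra.trace L K u : L) : K) / x) := by
        field_simp
      rw [h8]
      exact pos_mul hE (htr E hE)
    have h9 : N.trace = res E (∑ i, M i i) := by
      rw [res_sum hK (fun i _ => hnn i i)]
      rfl
    rw [h9, ← h6]
    exact (res_eq_zero_iff hK h7.le).mpr h7
  have hN0 : N = 0 := matrix_idem N hNN hNtr
  have hMx : ∀ i j, RegLoc x (M i j / x) := by
    intro i j
    refine regLoc_div_of_pos hL (hML i j) hE ?_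
    refine (res_eq_zero_iff hK (hnn i j)).mp ?_
    have : N i j = 0 := by rw [hN0]; rfl
    exact this
  have huw : ∀ j, RegLoc x (u * w j / x) := by
    intro j
    refine (hw _).mpr fun i => ?_
    have h10 : u * w j / x = x⁻¹ * (u * w j) := by field_simp
    rw [h10, repr_L_mul w (inv_mem hxL)]
    have h11 : x⁻¹ * ((w.repr (u * w j) i : L) : K) = M i j / x := by
      rw [div_eq_mul_inv, mul_comm]
    rw [h11]
    exact hMx i j
  have h1 : u / x = ∑ j, ((w.repr (1 : K) j : L) : K) * (u * w j / x) := by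
    have h2 : (1 : K) = ∑ j, ((w.repr (1 : K) j : L) : K) * w j := sum_repr_coe w 1
    calc u / x = u / x * 1 := by ring
      _ = u / x * ∑ j, ((w.repr (1 : K) j : L) : K) * w j := by rw [← h2]
      _ = _ := by
        rw [Finset.mul_sum]
        exact Finset.sum_congr rfl fun j _ => by ring
  rw [h1]
  exact regLoc_sum fun j _ => regLoc_mul ((hw 1).mp regLoc_one j) (huw j)

end Pool.Agent.H13.CV

end
end

section

/-!
# CV PoleF: functions with a single pole

`exists_pole_only`: let `oz E t = 1`, `x = t⁻¹` (transcendental: `tr_of_oz_ne`), `L = ℂ(x)`, `n = finrank L K`, `w, a` a Birkhoff basis (`exists_birk`).  `Birk.exists_dv` with `k = m ≥ 2 + ∑ i, a i`, `oz E x = - 1`: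
`∑ i, (m + 1 - a i) ≥ n * (m + 1) - ∑ a i`, so `finrank W ≥ n + m - ∑ a i ≥ 2`; so `W` contains a non-constant function (`exists_not_const`), it is transcendental
(`transcendental_of_not_const`).
`lgt_of_boundary`: the functions `h ^ k`, `f * h ^ k` (`pole_mul_pow`), `lgt_of_forms` with `m = k`: at `E₀` (`B E₀`): `f` has order `≥ - k`; at the other places `0 ≤ ord f`.
-/

set_option autoImplicit false

open Pool.Agent.H23.Fano (PrimeDivisorOver Form regularForms)
open Pool.Agent.H17LG.Variety (PoleAtMost IsLogGeneralType)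

noncomputable section

namespace Pool.Agent.H13.CV

variable {K : Type} [Field K] [Algebra ℂ K]

theorem exists_pole_only (hK : CurveField K) (E : Place K) : ∃ (f : K) (k : ℕ), 1 ≤ k ∧ Transcendental ℂ f ∧ f ∈ LD (dv E k) := by
  obtain ⟨t, -, ht⟩ := exists_uni E
  have hoz : oz E t⁻¹ = -1 := by rw [oz_inv, ht]
  have htr : Transcendental ℂ t⁻¹ := tr_of_oz_ne (E := E) (by rw [hoz]; norm_num)
  have hL : Gen (IntermediateField.adjoin ℂ {t⁻¹}) t⁻¹ := ⟨htr, rfl⟩
  have := hK.fin _ htr
  obtain ⟨w, a, hw⟩ := exists_birk hK hL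
  have hE : E.ord t⁻¹ < 0 := by
    rw [neg_iff, hoz]
    norm_num
  obtain ⟨n, hn⟩ : ∃ n, n = Module.finrank (IntermediateField.adjoin ℂ {t⁻¹}) K := ⟨_, rfl⟩
  obtain ⟨A, hA⟩ : ∃ A, A = ∑ i, a i := ⟨_, rfl⟩
  obtain ⟨W, hWf, hW, hWd⟩ := hw.exists_dv hK hL (A + 2) (A + 2) hE (by rw [hoz]; simp)
  have h1 : n * (A + 2 + 1) ≤ (∑ i, (A + 2 + 1 - a i)) + A := by
    rw [hA, ← Finset.sum_add_distrib, ← hA]
    calc n * (A + 2 + 1) = ∑ _i : Fin (Module.finrank (IntermediateField.adjoin ℂ {t⁻¹}) K), (A + 2 + 1) := by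
          simp [hn]
      _ ≤ _ := Finset.sum_le_sum fun i _ => by omega
  have hn1 : 1 ≤ n := by
    rw [hn]
    exact Module.finrank_pos
  have h2 : 2 ≤ Module.finrank ℂ W := by
    obtain ⟨S, hS⟩ : ∃ S, S = ∑ i, (A + 2 + 1 - a i) := ⟨_, rfl⟩
    rw [← hS] at hWd h1
    rw [← hn] at hWd
    have h3 : n * (A + 2 + 1) = (A + 2) * n + n := by ring
    rw [h3] at h1
    generalize (A + 2) * n = z at h1 hWd
    omega
  have := hWf
  obtain ⟨f, hf, hc⟩ := exists_not_const h2
  exact ⟨f, A + 2, by omega, transcendental_of_not_const hc, hW hf⟩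

theorem lgt_of_boundary (hK : CurveField K) {B : Place K → Prop} {ω : Form K 1} (hω : ω ≠ 0) {h : K} (h0 : h ≠ 0) (hh : ∀ E, PoleAtMost 0 E 1 h ω)
    {E₀ : Place K} (hE₀ : B E₀) : IsLogGeneralType B := by
  obtain ⟨f, k, hk, htr, hf⟩ := exists_pole_only hK E₀
  rw [mem_LD] at hf
  have hone : ∀ (E : Place K) (p : ℕ), PoleAtMost p E k (h ^ k) ω := by
    intro E p
    have h1 := pole_mul_pow (f := (1 : K)) (m := k) (p := p) (hh E) (by
      rw [E.ord.map_one, zero_add]
      exact_mod_cast Nat.zero_le p)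
    rwa [one_mul] at h1
  have hle : ∀ E : Place K, 0 ≤ E.ord f + ((k : ℕ) : WithTop ℤ) := by
    intro E
    have h1 := hf E
    have h2 : dv E₀ k E ≤ (k : ℤ) := by
      unfold dv
      split_ifs
      · exact le_rfl
      · positivity
    have h3 : ((-(k : ℤ) : ℤ) : WithTop ℤ) ≤ E.ord f := le_trans (by exact_mod_cast neg_le_neg h2) h1
    have h4 : (0 : WithTop ℤ) = ((-(k : ℤ) : ℤ) : WithTop ℤ) + ((k : ℕ) : WithTop ℤ) := by
      have : ((k : ℕ) : WithTop ℤ) = ((k : ℤ) : WithTop ℤ) := by norm_cast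
      rw [this, ← WithTop.coe_add, neg_add_cancel]
      rfl
    rw [h4]
    exact add_le_add h3 le_rfl
  refine lgt_of_forms hK hω hk (pow_ne_zero k h0) (f₁ := f * h ^ k) ?_ (fun E => ⟨fun _ => hone E 0, fun _ => hone E k⟩)
    (fun E => ⟨fun hE => ?_, fun _ => pole_mul_pow (hh E) (hle E)⟩)
  · rwa [mul_div_assoc, div_self (pow_ne_zero k h0), mul_one]
  · refine pole_mul_pow (hh E) ?_
    have h1 := hf E
    have h2 : dv E₀ k E = 0 := by
      unfold dv
      rw [if_neg]
      rintro rfl
      exact hE hE₀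
    rw [h2, neg_zero] at h1
    simpa using h1

end Pool.Agent.H13.CV

end
end

section

/-!
# CV Tame: the trace lemma (tame ramification)

`tame`: let `e = oz E x`, and suppose that `oz E h ≤ - e`.  Let `T` be the finite set of the places over `x = 0` (`finite_over`).  By `approx` there is `c ∈ K` with: at `E`: `ord (c - (x * h)⁻¹) ≥ N`, at the
`E' ∈ T`, `E' ≠ E`: `ord c ≥ N`, with `N ≥ 0` so large that `N ≥ oz E' x - oz E' (x * h)` for all `E' ∈ T`, and `N ≥ e - oz E (x * h)`, `N ≥ e`.  Then `RegLoc x c` (at `E`: `(x h)⁻¹` has order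
`- (e + oz E h) ≥ 0`).  Let `u = x * h * c`: `ord_E (u - 1) = ord_E (x h (c - (x h)⁻¹)) ≥ e`, and `ord_{E'} u ≥ oz E' x` for `E' ≠ E`.  So `RegLoc x u`, `RegLoc x ((u² - u) / x)`
(`u² - u = u (u - 1)`), and `trace u = x * trace (h * c)` (`Algebra.trace` is `L`-linear, `x ∈ L`), so `RegLoc x (trace u / x)` by `hh` for `f = c`.  By `trace_idem`: `RegLoc x (u / x)`: so
`ord_E u ≥ e > 0`; but `ord_E (u - 1) ≥ e > 0`, so `ord_E 1 > 0`: contradiction.

`exists_dual`: `(Algebra.traceForm L K).dualBasis (traceForm_nondegenerate L K) w`; `Algebra.trace L K (v i * w j) = if i = j then 1 else 0`, so `trace (v i * f) = w.repr f i` for `f = ∑ (w.repr f j) • w j`.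
-/

set_option autoImplicit false

open Pool.Agent.H23.Fano (PrimeDivisorOver Form regularForms)

noncomputable section

namespace Pool.Agent.H13.CV

variable {K : Type} [Field K] [Algebra ℂ K] {L : IntermediateField ℂ K} {x : K} {n : ℕ}

private lemma tame_le_mul {E : Place K} {f g : K} {a b : ℤ} (hf : (a : WithTop ℤ) ≤ E.ord f) (hg : (b : WithTop ℤ) ≤ E.ord g) :
    ((a + b : ℤ) : WithTop ℤ) ≤ E.ord (f * g) := by
  rw [E.ord.map_mul, WithTop.coe_add]
  exact add_le_add hf hg

private lemma tame_div {E : Place K} {f : K} (hx : x ≠ 0) (hf : ((oz E x : ℤ) : WithTop ℤ) ≤ E.ord f) : 0 ≤ E.ord (f / x) := by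
  have h := tame_le_mul hf (ord_inv E hx).ge
  rw [add_neg_cancel] at h
  rw [div_eq_mul_inv]
  exact h

theorem tame (hK : CurveField K) (hL : Gen L x) [FiniteDimensional L K] {w : Module.Basis (Fin n) L K} (hw : LocB x w) {h : K} (h0 : h ≠ 0)
    (hh : ∀ f : K, RegLoc x f → RegLoc x ((Algebra.trace L K (h * f) : L) : K)) {E : Place K} (hE : 0 < E.ord x) : 1 - oz E x ≤ oz E h := by
  classical
  by_contra hcon
  have hx : x ≠ 0 := hL.ne_zero
  have he : 0 < oz E x := (pos_iff.1 hE).resolve_left hx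
  have hxh : x * h ≠ 0 := mul_ne_zero hx h0
  have hneg : oz E (x * h) ≤ 0 := by
    rw [oz_mul E hx h0]
    omega
  set T : Finset (Place K) := (finite_over (L := L) (x := x) hL).toFinset with hT
  have hmem : ∀ E' : Place K, 0 < E'.ord x → E' ∈ T := fun E' h' => by
    rw [hT, Set.Finite.mem_toFinset]
    exact h'
  obtain ⟨N, hN0, hN⟩ : ∃ N : ℤ, 0 ≤ N ∧ ∀ E' ∈ T, oz E' x - oz E' (x * h) ≤ N := by
    refine ⟨∑ E' ∈ T, |oz E' x - oz E' (x * h)|, Finset.sum_nonneg fun _ _ => abs_nonneg _, fun E' h' => ?_⟩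
    exact (le_abs_self _).trans (Finset.single_le_sum (f := fun E' => |oz E' x - oz E' (x * h)|) (fun _ _ => abs_nonneg _) h')
  obtain ⟨c, hc⟩ := approx T (fun E' => if E' = E then (x * h)⁻¹ else 0) N
  have hcE : ((N : ℤ) : WithTop ℤ) ≤ E.ord (c - (x * h)⁻¹) := by
    have h1 := hc E (hmem E hE)
    rwa [if_pos rfl] at h1
  have hcE' : ∀ E' : Place K, 0 < E'.ord x → E' ≠ E → ((N : ℤ) : WithTop ℤ) ≤ E'.ord c := by
    intro E' h' hne
    have h1 := hc E' (hmem E' h')
    rwa [if_neg hne, sub_zero] at h1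
  have hNtop : (0 : WithTop ℤ) ≤ ((N : ℤ) : WithTop ℤ) := by exact_mod_cast hN0
  set u : K := x * h * c with hu
  have hu1 : ((oz E x : ℤ) : WithTop ℤ) ≤ E.ord (u - 1) := by
    have e1 : u - 1 = x * h * (c - (x * h)⁻¹) := by
      rw [hu, mul_sub, mul_inv_cancel₀ hxh]
    have h1 := tame_le_mul (coe_oz E hxh).le hcE
    rw [← e1] at h1
    refine le_trans ?_ h1
    have h2 := hN E (hmem E hE)
    exact_mod_cast (by omega : oz E x ≤ oz E (x * h) + N)
  have hu2 : ∀ E' : Place K, 0 < E'.ord x → E' ≠ E → ((oz E' x : ℤ) : WithTop ℤ) ≤ E'.ord u := by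
    intro E' h' hne
    have h1 := tame_le_mul (coe_oz E' hxh).le (hcE' E' h' hne)
    refine le_trans ?_ h1
    have h2 := hN E' (hmem E' h')
    exact_mod_cast (by omega : oz E' x ≤ oz E' (x * h) + N)
  have hone : ∀ E' : Place K, E'.ord (1 : K) = 0 := fun E' => E'.ord.map_one
  have hx1 : ∀ E' : Place K, 0 < E'.ord x → (0 : WithTop ℤ) ≤ ((oz E' x : ℤ) : WithTop ℤ) := by
    intro E' h'
    rw [coe_oz E' hx]
    exact h'.le
  -- `c` is regular
  have hcreg : RegLoc x c := by
    intro E' h'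
    by_cases hEE : E' = E
    · subst hEE
      have h1 : 0 ≤ E'.ord ((x * h)⁻¹) := by
        rw [ord_inv E' hxh]
        exact_mod_cast (by omega : (0 : ℤ) ≤ -oz E' (x * h))
      have h2 := nonneg_add (hNtop.trans hcE) h1
      rwa [sub_add_cancel] at h2
    · exact hNtop.trans (hcE' E' h' hEE)
  have hu1' : 0 ≤ E.ord (u - 1) := (hx1 E hE).trans hu1
  have hureg : RegLoc x u := by
    intro E' h'
    by_cases hEE : E' = E
    · subst hEE
      have h2 := nonneg_add hu1' (hone E').ge
      rwa [sub_add_cancel] at h2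
    · exact (hx1 E' h').trans (hu2 E' h' hEE)
  have hreg2 : RegLoc x ((u ^ 2 - u) / x) := by
    intro E' h'
    have e1 : u ^ 2 - u = (u - 1) * u := by ring
    rw [e1]
    apply tame_div hx
    by_cases hEE : E' = E
    · subst hEE
      have h1 := tame_le_mul (a := oz E' x) (b := 0) hu1 (by exact_mod_cast hureg E' h')
      rwa [add_zero] at h1
    · have h1 := tame_le_mul (a := 0) (b := oz E' x) (f := u - 1) (g := u) (by exact_mod_cast nonneg_sub (hureg E' h') (hone E').ge) (hu2 E' h' hEE)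
      rwa [zero_add] at h1
  have htr : RegLoc x (((Algebra.trace L K u : L) : K) / x) := by
    have e1 : u = (⟨x, hL.mem⟩ : L) • (h * c) := by
      rw [hu, mul_assoc]
      rfl
    have e2 : ((Algebra.trace L K u : L) : K) = x * ((Algebra.trace L K (h * c) : L) : K) := by
      rw [e1, map_smul]
      rfl
    rw [e2, mul_div_cancel_left₀ _ hx]
    exact hh c hcreg
  have hfin := trace_idem hK hL hw hureg hreg2 htr E hE
  have hupos : 0 < E.ord u := by
    have e1 : u = u / x * x := by rw [div_mul_cancel₀ _ hx]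
    rw [e1, mul_comm]
    exact pos_mul hE hfin
  have hu1pos : 0 < E.ord (u - 1) := by
    refine lt_of_lt_of_le ?_ hu1
    exact_mod_cast he
  have h3 := pos_sub hupos hu1pos
  rw [sub_sub_cancel, hone E] at h3
  exact lt_irrefl _ h3

theorem exists_dual [FiniteDimensional L K] (w : Module.Basis (Fin n) L K) :
    ∃ v : Module.Basis (Fin n) L K, ∀ i f, Algebra.trace L K (v i * f) = w.repr f i := by
  classical
  have : CharZero L := charZero_of_injective_algebraMap (algebraMap ℂ L).injective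
  refine ⟨(Algebra.traceForm L K).dualBasis (traceForm_nondegenerate L K) w, fun i f => ?_⟩
  have h1 : ∀ j, Algebra.trace L K ((Algebra.traceForm L K).dualBasis (traceForm_nondegenerate L K) w i * w j) = if j = i then 1 else 0 := by
    intro j
    have h2 := LinearMap.BilinForm.apply_dualBasis_left (B := Algebra.traceForm L K) (traceForm_nondegenerate L K) w i j
    rwa [Algebra.traceForm_apply] at h2
  conv_lhs => rw [← w.sum_repr f]
  rw [Finset.mul_sum, map_sum]
  have h3 : ∀ j, Algebra.trace L K ((Algebra.traceForm L K).dualBasis (traceForm_nondegenerate L K) w i * (w.repr f j • w j)) = w.repr f j * if j = i then 1 else 0 := by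
    intro j
    rw [mul_smul_comm, map_smul, h1 j, smul_eq_mul]
  rw [Finset.sum_congr rfl fun j _ => h3 j]
  simp

end Pool.Agent.H13.CV

end
end

section

/-!
# CV RegF: regular forms

Let `w, a` be a Birkhoff basis and `v` its dual basis for the trace form (`trace (v i * f) = w.repr f i`), `j + 2 ≤ a i`, `h = x ^ j * v i ≠ 0`.  The form `h dx` is regular at every place `E`.
Case 1: `0 ≤ ord x`: let `c` be the value of `x` (`exists_value`), `y = x - c`, `Gen L y` (`Gen.sub_const`), `0 < ord y`.  `AffB y w` (`AffB.sub_const`), so `LocB y w` (`AffB.locB`).  For `f` with `RegLoc y f`: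
`trace (h * f) = x ^ j * w.repr f i` (`x ∈ L`) is `RegLoc y` (`x = y + c` is `RegLoc y`).  So `1 - oz E y ≤ oz E h` (`tame`), and `pole_mk` for `dx y = dx x` (`dx_sub_const`).
Case 2: `ord x < 0`: `y = x⁻¹`, `Gen L y`, `0 < ord y`.  There is a `LocB y` basis (`exists_locB`).  `h' = - x ^ 2 * h`.  For `f` with `RegLoc y f`: `trace (h' * f) = - x ^ (j + 2) * w.repr f i`, and
`x ^ a i * w.repr f i` is `RegLoc y` by `Birk.inf`, so `x ^ (j + 2) * w.repr f i = y ^ (a i - j - 2) * (x ^ a i * w.repr f i)` is.  So `1 - oz E y ≤ oz E h' = 2 * oz E x + oz E h`, i.e. with `oz E y = - oz E x`: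
`0 ≤ oz E h + oz E x - 1`: `pole_mk`.
-/

set_option autoImplicit false

open Pool.Agent.H23.Fano (PrimeDivisorOver Form regularForms)
open Pool.Agent.H17LG.Variety (PoleAtMost IsLogGeneralType)

noncomputable section

namespace Pool.Agent.H13.CV

variable {K : Type} [Field K] [Algebra ℂ K] {L : IntermediateField ℂ K} {x : K} {n : ℕ}

theorem trace_pow_mul (hL : Gen L x) [FiniteDimensional L K] {w v : Module.Basis (Fin n) L K}
    (hv : ∀ i f, Algebra.trace L K (v i * f) = w.repr f i) (i : Fin n) (k : ℕ) (f : K) :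
    ((Algebra.trace L K (x ^ k * v i * f) : L) : K) = x ^ k * ((w.repr f i : L) : K) := by
  have h1 : x ^ k * v i * f = ((⟨x, hL.mem⟩ : L) ^ k) • (v i * f) := by
    rw [Algebra.smul_def, mul_assoc]
    congr 1
  rw [h1, map_smul, hv, smul_eq_mul]
  push_cast
  rfl

theorem regular_form (hK : CurveField K) (hL : Gen L x) [FiniteDimensional L K] {w : Module.Basis (Fin n) L K} {a : Fin n → ℕ} (hw : Birk x w a)
    {v : Module.Basis (Fin n) L K} (hv : ∀ i f, Algebra.trace L K (v i * f) = w.repr f i) {i : Fin n} {j : ℕ} (hj : j + 2 ≤ a i) (E : Place K) :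
    PoleAtMost 0 E 1 (x ^ j * v i) (dx x) := by
  have hx0 : x ≠ 0 := hL.ne_zero
  have hvi : v i ≠ 0 := v.ne_zero i
  have hxj : x ^ j ≠ 0 := pow_ne_zero _ hx0
  have h0 : x ^ j * v i ≠ 0 := mul_ne_zero hxj hvi
  by_cases hx : 0 ≤ E.ord x
  · obtain ⟨c, hc⟩ := exists_value hK hx
    have hLy : Gen L (x - algebraMap ℂ K c) := hL.sub_const c
    have hloc : LocB (x - algebraMap ℂ K c) w := (hw.aff.sub_const hL c).locB hK hLy
    have hh : ∀ f : K, RegLoc (x - algebraMap ℂ K c) f →
        RegLoc (x - algebraMap ℂ K c) ((Algebra.trace L K (x ^ j * v i * f) : L) : K) := by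
      intro f hf E' hE'
      rw [trace_pow_mul hL hv]
      have h2 : 0 ≤ E'.ord x := by
        have h3 : x = (x - algebraMap ℂ K c) + algebraMap ℂ K c := by ring
        rw [h3]
        exact nonneg_add hE'.le (const_nonneg E' c)
      exact nonneg_mul (nonneg_pow h2 j) ((hloc f).1 hf i E' hE')
    have ht := tame hK hLy hloc h0 hh hc
    rw [← dx_sub_const x c]
    apply pole_mk E hLy.ne_zero
    right
    push_cast
    linarith
  · have hx' : E.ord x < 0 := not_le.1 hx
    have hLy : Gen L x⁻¹ := hL.inv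
    obtain ⟨w', hw'⟩ := exists_locB hK hLy
    have hEy : 0 < E.ord x⁻¹ := (inv_pos_iff hx0).2 hx'
    have h0' : -(x ^ 2 * (x ^ j * v i)) ≠ 0 := neg_ne_zero.2 (mul_ne_zero (pow_ne_zero _ hx0) h0)
    have hh : ∀ f : K, RegLoc x⁻¹ f →
        RegLoc x⁻¹ ((Algebra.trace L K (-(x ^ 2 * (x ^ j * v i)) * f) : L) : K) := by
      intro f hf E' hE'
      have h1 : -(x ^ 2 * (x ^ j * v i)) * f = -(x ^ (j + 2) * v i * f) := by ring
      have h2 : ((Algebra.trace L K (-(x ^ 2 * (x ^ j * v i)) * f) : L) : K) =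
          -((x⁻¹) ^ (a i - (j + 2)) * (x ^ a i * ((w.repr f i : L) : K))) := by
        rw [h1, map_neg]
        push_cast
        rw [trace_pow_mul hL hv]
        have h3 : x ^ (j + 2) = (x⁻¹) ^ (a i - (j + 2)) * x ^ a i := by
          conv_rhs => rw [← Nat.sub_add_cancel hj, pow_add]
          rw [Nat.sub_add_cancel hj, ← mul_assoc, ← mul_pow, inv_mul_cancel₀ hx0, one_pow, one_mul]
        rw [h3, mul_assoc]
      rw [h2]
      have h4 : 0 ≤ E'.ord ((x⁻¹) ^ (a i - (j + 2)) * (x ^ a i * ((w.repr f i : L) : K))) :=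
        nonneg_mul (nonneg_pow hE'.le _) ((hw.inf f).1 hf i E' hE')
      rcases nonneg_iff.1 h4 with h5 | h5
      · rw [h5, neg_zero]
        exact nonneg_iff.2 (Or.inl rfl)
      · refine nonneg_iff.2 (Or.inr ?_)
        rw [oz_neg]
        exact h5
    have ht := tame hK hLy hw' h0' hh hEy
    rw [oz_neg, oz_mul E (pow_ne_zero _ hx0) h0, oz_pow, oz_inv] at ht
    apply pole_mk E hx0
    right
    push_cast at ht ⊢
    linarith

end Pool.Agent.H13.CV

end
end

section

/-!
# CV Cases: the three cases (genus at least two, one, zero)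

Let `x` be transcendental (`hK.exists_tr`), `L = ℂ(x)`, `n = finrank L K`, `w, a` a Birkhoff basis (`exists_birk`), `v` the dual basis (`exists_dual`), `i₀` as in `Birk.exists_zero`: `a i₀ = 0`, `1 ≤ a i` for `i ≠ i₀`.
(1) If there are two different pairs `(i, j)`, `(i', j')` with `j + 2 ≤ a i`, `j' + 2 ≤ a i'`: `h₁ = x ^ j * v i`, `h₂ = x ^ j' * v i'` are linearly independent over `ℂ` (`v` is a basis over `L`, the powers of `x`
are linearly independent over `ℂ`), so `h₂ / h₁` is not a constant: first alternative, by `regular_form`, `ω = dx x ≠ 0` (`dx_ne_zero`).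
(2) If there is exactly one such pair `(i₁, j)`: then `a i₁ = 2` (`j = 0`; if `a i₁ ≥ 3` there are two pairs), and `a i = 1` for `i ≠ i₀, i₁`.  `h = v i₁`.  Let `E` be a place with `ord x < 0`
(`exists_place_inf`).  For `k ≥ 1` use `Birk.exists_dv` with `m = k`: `k ≤ k * (- oz E x)`; `∑ i, (k + 1 - a i) = (k + 1) + (k - 1) + (n - 2) * k = n * k`, so `n * k + k ≤ finrank W + k * n`.
(3) If there is none: `a i = 1` for `i ≠ i₀`.  `E` as before, `Birk.exists_dv` with `m = k = 1`: `∑ i, (2 - a i) = 2 + (n - 1) = n + 1`, so `finrank W ≥ 2`, `W ≤ LD (dv E 1)`.  So there is a non-constant `f ∈ LD (dv E 1)`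
(`exists_not_const`): `top_of_dv_one`.
-/

set_option autoImplicit false

open Pool.Agent.H23.Fano (PrimeDivisorOver Form regularForms)
open Pool.Agent.H17LG.Variety (PoleAtMost IsLogGeneralType)

noncomputable section

namespace Pool.Agent.H13.CV

variable {K : Type} [Field K] [Algebra ℂ K]

private theorem Cases_not_const {L : IntermediateField ℂ K} {x : K} {n : ℕ} (hL : Gen L x) (v : Module.Basis (Fin n) L K)
    {i i' : Fin n} {j j' : ℕ} (hne : i ≠ i' ∨ j ≠ j') (c : ℂ) : x ^ j' * v i' / (x ^ j * v i) ≠ algebraMap ℂ K c := by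
  intro hc
  have hx0 : x ≠ 0 := hL.ne_zero
  have h1 : x ^ j * v i ≠ 0 := mul_ne_zero (pow_ne_zero _ hx0) (v.ne_zero i)
  rw [div_eq_iff h1] at hc
  obtain ⟨xL, hxL⟩ : ∃ xL : L, (xL : K) = x := ⟨⟨x, hL.mem⟩, rfl⟩
  have hxL0 : xL ≠ 0 := by
    intro h
    apply hx0
    rw [← hxL, h]
    rfl
  by_cases hii : i = i'
  · subst hii
    have hjj : j ≠ j' := by
      rcases hne with h | h
      · exact absurd rfl h
      · exact h
    rw [← mul_assoc] at hc
    have h2 : x ^ j' = algebraMap ℂ K c * x ^ j := mul_right_cancel₀ (v.ne_zero i) hc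
    apply hL.tr
    refine ⟨Polynomial.X ^ j' - Polynomial.C c * Polynomial.X ^ j, ?_, ?_⟩
    · intro h0
      have h3 := congrArg (fun p : Polynomial ℂ => p.coeff j') h0
      simp only [Polynomial.coeff_sub, Polynomial.coeff_X_pow_self, Polynomial.coeff_C_mul, Polynomial.coeff_X_pow,
        Polynomial.coeff_zero, if_neg (Ne.symm hjj), mul_zero, sub_zero] at h3
      exact one_ne_zero h3
    · rw [map_sub, map_mul, map_pow, map_pow, Polynomial.aeval_X, Polynomial.aeval_C, h2, sub_self]
  · have h2 : x ^ j' * v i' = xL ^ j' • v i' := by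
      rw [Algebra.smul_def]
      show x ^ j' * v i' = ((xL ^ j' : L) : K) * v i'
      push_cast
      rw [hxL]
    have h3 : algebraMap ℂ K c * (x ^ j * v i) = (algebraMap ℂ L c * xL ^ j) • v i := by
      rw [Algebra.smul_def]
      show algebraMap ℂ K c * (x ^ j * v i) = ((algebraMap ℂ L c * xL ^ j : L) : K) * v i
      push_cast
      rw [hxL, ← mul_assoc]
    rw [h2, h3] at hc
    have h4 := congrArg (fun f : K => v.repr f i') hc
    simp only [map_smul, Finsupp.smul_apply, Module.Basis.repr_self, Finsupp.single_eq_same, Finsupp.single_eq_of_ne (Ne.symm hii),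
      smul_eq_mul, mul_one, mul_zero] at h4
    exact pow_ne_zero _ hxL0 h4

private theorem Cases_sum {n : ℕ} (a : Fin n → ℕ) (k : ℕ) (i₀ i₁ : Fin n) (h0 : a i₀ = 0) (h1 : a i₁ = 2) (hk : 1 ≤ k)
    (h : ∀ i, i ≠ i₀ → i ≠ i₁ → a i = 1) : ∑ i, (k + 1 - a i) = n * k := by
  have hne : i₀ ≠ i₁ := by
    intro h2
    rw [h2, h1] at h0
    omega
  have h2 : ∑ i, ((k + 1 - a i) + (if i = i₁ then 1 else 0)) = ∑ i : Fin n, (k + (if i = i₀ then 1 else 0)) := by
    refine Finset.sum_congr rfl fun i _ => ?_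
    by_cases hi0 : i = i₀
    · rw [if_neg (by rw [hi0]; exact hne), if_pos hi0, hi0, h0]
      omega
    · by_cases hi1 : i = i₁
      · rw [if_pos hi1, if_neg hi0, hi1, h1]
        omega
      · rw [if_neg hi1, if_neg hi0, h i hi0 hi1]
        omega
  rw [Finset.sum_add_distrib, Finset.sum_add_distrib, Finset.sum_ite_eq' Finset.univ i₁, Finset.sum_ite_eq' Finset.univ i₀,
    if_pos (Finset.mem_univ _), if_pos (Finset.mem_univ _), Finset.sum_const, Finset.card_univ, Fintype.card_fin, smul_eq_mul] at h2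
  omega

private theorem Cases_sum_one {n : ℕ} (a : Fin n → ℕ) (i₀ : Fin n) (h0 : a i₀ = 0)
    (h : ∀ i, i ≠ i₀ → a i = 1) : ∑ i, (1 + 1 - a i) = n + 1 := by
  have h2 : ∑ i, (1 + 1 - a i) = ∑ i : Fin n, (1 + (if i = i₀ then 1 else 0)) := by
    refine Finset.sum_congr rfl fun i _ => ?_
    by_cases hi0 : i = i₀
    · rw [if_pos hi0, hi0, h0]
    · rw [if_neg hi0, h i hi0]
  rw [h2, Finset.sum_add_distrib, Finset.sum_ite_eq' Finset.univ i₀,
    if_pos (Finset.mem_univ _), Finset.sum_const, Finset.card_univ, Fintype.card_fin, smul_eq_mul, mul_one]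

theorem genus_cases (hK : CurveField K) :
    (∃ (ω : Form K 1) (h₁ h₂ : K), ω ≠ 0 ∧ h₁ ≠ 0 ∧ Transcendental ℂ (h₂ / h₁) ∧ ∀ E, PoleAtMost 0 E 1 h₁ ω ∧ PoleAtMost 0 E 1 h₂ ω) ∨
    ((∃ (ω : Form K 1) (h : K), ω ≠ 0 ∧ h ≠ 0 ∧ ∀ E, PoleAtMost 0 E 1 h ω) ∧
      ∃ E : Place K, ∀ k : ℕ, 1 ≤ k → ∃ W : Submodule ℂ K, FiniteDimensional ℂ W ∧ W ≤ LD (dv E k) ∧ k ≤ Module.finrank ℂ W) ∨
    ∃ t : K, IntermediateField.adjoin ℂ {t} = ⊤ := by
  obtain ⟨x, hx⟩ := hK.exists_tr
  obtain ⟨L, hLdef⟩ : ∃ L : IntermediateField ℂ K, L = IntermediateField.adjoin ℂ {x} := ⟨_, rfl⟩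
  have hL : Gen L x := ⟨hx, hLdef⟩
  have : FiniteDimensional L K := by
    rw [hLdef]
    exact hK.fin x hx
  obtain ⟨n, w, a, hw⟩ : ∃ (n : ℕ) (w : Module.Basis (Fin n) L K) (a : Fin n → ℕ), Birk x w a := by
    obtain ⟨w, a, hw⟩ := exists_birk hK hL
    exact ⟨_, w, a, hw⟩
  obtain ⟨i₀, hi₀, hi₁⟩ := hw.exists_zero hK hL
  obtain ⟨v, hv⟩ := exists_dual w
  obtain ⟨E, hE⟩ := exists_place_inf hK hx
  have hoz : 1 ≤ -oz E x := by
    have := neg_iff.mp hE
    omega
  by_cases hP : ∃ (i : Fin n) (j : ℕ) (i' : Fin n) (j' : ℕ), j + 2 ≤ a i ∧ j' + 2 ≤ a i' ∧ (i ≠ i' ∨ j ≠ j')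
  · left
    obtain ⟨i, j, i', j', h1, h2, hne⟩ := hP
    refine ⟨dx x, x ^ j * v i, x ^ j' * v i', dx_ne_zero hx, mul_ne_zero (pow_ne_zero _ hL.ne_zero) (v.ne_zero i), ?_, ?_⟩
    · exact transcendental_of_not_const fun c => Cases_not_const hL v hne c
    · exact fun E' => ⟨regular_form hK hL hw hv h1 E', regular_form hK hL hw hv h2 E'⟩
  · right
    have hU : ∀ (i : Fin n) (j : ℕ) (i' : Fin n) (j' : ℕ), j + 2 ≤ a i → j' + 2 ≤ a i' → i = i' ∧ j = j' := by
      intro i j i' j' h1 h2
      by_contra hcon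
      apply hP
      refine ⟨i, j, i', j', h1, h2, ?_⟩
      by_cases hii : i = i'
      · right
        intro hjj
        exact hcon ⟨hii, hjj⟩
      · left
        exact hii
    by_cases hQ : ∃ i : Fin n, 2 ≤ a i
    · left
      obtain ⟨i₁, h1⟩ := hQ
      have ha1 : a i₁ = 2 := by
        by_contra h2
        have h3 := (hU i₁ 0 i₁ 1 (by omega) (by omega)).2
        omega
      have hoth : ∀ i, i ≠ i₀ → i ≠ i₁ → a i = 1 := by
        intro i h2 h3
        have h4 := hi₁ i h2
        by_contra h5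
        exact h3 (hU i 0 i₁ 0 (by omega) (by omega)).1
      refine ⟨⟨dx x, v i₁, dx_ne_zero hx, v.ne_zero i₁, fun E' => ?_⟩, E, fun k hk => ?_⟩
      · have h2 := regular_form hK hL hw hv (j := 0) (i := i₁) (by omega) E'
        rwa [pow_zero, one_mul] at h2
      · obtain ⟨W, hW1, hW2, hW3⟩ := hw.exists_dv hK hL k k hE (by
          have : (0 : ℤ) ≤ k := Int.natCast_nonneg k
          nlinarith)
        refine ⟨W, hW1, hW2, ?_⟩
        rw [Cases_sum a k i₀ i₁ hi₀ ha1 hk hoth, mul_comm n k] at hW3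
        omega
    · right
      push Not at hQ
      have hoth : ∀ i, i ≠ i₀ → a i = 1 := by
        intro i h2
        have h4 := hi₁ i h2
        have h5 := hQ i
        omega
      obtain ⟨W, hW1, hW2, hW3⟩ := hw.exists_dv hK hL 1 1 hE (by
        push_cast
        omega)
      rw [Cases_sum_one a i₀ hi₀ hoth] at hW3
      have := hW1
      obtain ⟨f, hf, hfc⟩ := exists_not_const (W := W) (by omega)
      have h2 : f ∈ LD (dv E 1) := by
        have h3 := hW2 hf
        rwa [Nat.cast_one] at h3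
      exact ⟨f, top_of_dv_one hK h2 hfc⟩

end Pool.Agent.H13.CV

end
end
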