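import Pool.Agent.H43.TL2.M55
import Pool.Agent.H43.TL2.M63
import Pool.Agent.H43.TL2.M81
import Pool.Agent.H43.TL2.M83
import Pool.Agent.H43.TL2.M84

/-! The parts of this file: H13.CV.Tri, H13.CV.ThmC, H13.CV.Strong, H7.Qup.Bd, H7.Qup.Rel, MQL.PBa. -/

section

/-!
# CV Tri: the trichotomy

`genus_cases`.  First case: `lgt_of_forms` with `m = 1`.  Second case: if `B E₀` for some `E₀`: `lgt_of_boundary`.  Otherwise `ell_gens`: `K = ℂ(t)` (`rat_cases`), or `u, v`; `ell_rel`,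
`adjoin_eq_top_of_double_pole` (`-3` is odd), `normal_form`; if `α³ = 27 β²`: `singular_rational` and `rat_cases`.  Third case: `rat_cases`.
-/

set_option autoImplicit false

open Pool.Agent.H23.Fano (PrimeDivisorOver Form regularForms)
open Pool.Agent.H17LG.Variety (PoleAtMost IsLogGeneralType)

noncomputable section

namespace Pool.Agent.H13.CV

variable {K : Type} [Field K] [Algebra ℂ K]

theorem trichotomy (hK : CurveField K) (B : Place K → Prop) :
    IsLogGeneralType B ∨ (∃ t : K, IntermediateField.adjoin ℂ {t} = ⊤ ∧ ∀ E, B E → oz E t ≠ 0) ∨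
    ((∀ E, ¬ B E) ∧ ∃ (u v : K) (α β : ℂ), v ^ 2 = 4 * u ^ 3 - algebraMap ℂ K α * u - algebraMap ℂ K β ∧ Transcendental ℂ u ∧
      IntermediateField.adjoin ℂ {u, v} = ⊤ ∧ v ∉ IntermediateField.adjoin ℂ {u} ∧ α ^ 3 ≠ 27 * β ^ 2) := by
  have hmono : ∀ (E : Place K) (h : K) (ω : Form K 1), PoleAtMost 0 E 1 h ω → PoleAtMost 1 E 1 h ω := by
    rintro E h ω ⟨g, η, hη, hω, hg⟩
    refine ⟨g, η, hη, hω, ?_⟩
    have h0 : (0 : WithTop ℤ) ≤ E.ord (h * g ^ 1) := by simpa using hg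
    refine add_nonneg h0 ?_
    simp
  have hrat : ∀ t : K, IntermediateField.adjoin ℂ {t} = ⊤ →
      IsLogGeneralType B ∨ (∃ t : K, IntermediateField.adjoin ℂ {t} = ⊤ ∧ ∀ E, B E → oz E t ≠ 0) ∨
      ((∀ E, ¬ B E) ∧ ∃ (u v : K) (α β : ℂ), v ^ 2 = 4 * u ^ 3 - algebraMap ℂ K α * u - algebraMap ℂ K β ∧ Transcendental ℂ u ∧
        IntermediateField.adjoin ℂ {u, v} = ⊤ ∧ v ∉ IntermediateField.adjoin ℂ {u} ∧ α ^ 3 ≠ 27 * β ^ 2) := by
    intro t ht
    rcases rat_cases hK ht B with h | h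
    · exact Or.inl h
    · exact Or.inr (Or.inl h)
  rcases genus_cases hK with ⟨ω, h₁, h₂, hω, h10, htr, hP⟩ | ⟨⟨ω, h, hω, h0, hP⟩, E, hE⟩ | ⟨t, ht⟩
  · exact Or.inl (lgt_of_forms hK hω le_rfl h10 htr (fun E => ⟨fun _ => (hP E).1, fun _ => hmono E _ _ (hP E).1⟩)
      (fun E => ⟨fun _ => (hP E).2, fun _ => hmono E _ _ (hP E).2⟩))
  · by_cases hB : ∃ E₀, B E₀
    · obtain ⟨E₀, hE₀⟩ := hB
      exact Or.inl (lgt_of_boundary hK hω h0 hP hE₀)
    · have hB' : ∀ E, ¬ B E := fun E hE' => hB ⟨E, hE'⟩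
      rcases ell_gens hK hE with ⟨t, ht⟩ | ⟨h1, u, v, hu, hv, hu', hv'⟩
      · exact hrat t ht
      · obtain ⟨c, a, d, b, e, f, hc, hrel⟩ := ell_rel hK h1 hu hv hu' hv'
        obtain ⟨hvu, huv⟩ := adjoin_eq_top_of_double_pole hK (v := v) hu hu' (by rw [hv]; decide)
        obtain ⟨u', v', α, β, h', htr', hadj', hv''⟩ :=
          normal_form hc hrel (tr_of_oz_ne (E := E) (by rw [hu]; norm_num)) huv hvu
        by_cases hαβ : α ^ 3 = 27 * β ^ 2
        · obtain ⟨t, ht⟩ := singular_rational h' htr' hadj' hαβ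
          exact hrat t ht
        · exact Or.inr (Or.inr ⟨hB', u', v', α, β, h', htr', hadj', hv'', hαβ⟩)
  · exact hrat t ht

end Pool.Agent.H13.CV

end
end

section

/-!
# CV ThmC: a curve which is not of log general type contains a non-constant entire curve

`exists_hom`: `trichotomy` for `B`.
Case `K = ℂ(t)`, `B E → oz E t ≠ 0`: `t` is transcendental (`K` has transcendental elements).  `T = toM (exp)` is transcendental (`tr_or_const`: it is not a constant).  `hom_rat`: `φ`; `ordM z₀ T = 0`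
(`exp z₀ ≠ 0`), so `e • E.ord t = 0` and `E.ord t = 0`, `oz E t = 0`, so `¬ B E`.
Case of the cubic: `exists_entire_cubic`: `F`; its coordinates are entire functions `a₀, a₁, a₂` (`EntFun`).  `a₂ ≠ 0` (if `a₂ = 0` then `a₀ = 0` by the equation and `F z = (0, a₁ z, 0)`, so the `F z` are
proportional).  `U = a₀ / a₂`, `V = a₁ / a₂`.  `V² = 4 U³ - α U - β`.  `U` is transcendental: otherwise it is a constant (`tr_or_const`), then `V` satisfies a polynomial equation and is a constant too, so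
the `F z` with `a₂ z ≠ 0` are proportional to a fixed vector, so all `F z` are (if `a₀ = γ a₂`, `a₁ = δ a₂` as entire functions then `a₂ z = 0` implies `F z = 0`): contradiction.
`hom_cubic`: `φ` (there are no places in `B`).
The two theorems: `exists_hom` for `curveField_funField Q hz`, `homMap`, `homMapL`.
-/

set_option autoImplicit false

open Topology Filter MvPolynomial
open Pool.Agent.H17 (PN VanishesAt ZariskiClosedIn HolomorphicInto puncturedDisc EntFun)
open Pool.Agent.H17LG.Variety (FunField IsLogGeneralType)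
open Pool.Agent.H62.SA (locVar OnBd)

noncomputable section

namespace Pool.Agent.H13.CV

attribute [-instance] OreLocalization.instAddGroupOreLocalization OreLocalization.instAddCommGroup

private lemma tr_of_top {K : Type} [Field K] [Algebra ℂ K] (hK : CurveField K) {t : K} (ht : IntermediateField.adjoin ℂ {t} = ⊤) :
    Transcendental ℂ t := by
  by_contra hal
  obtain ⟨c, hc⟩ : ∃ c : ℂ, t = algebraMap ℂ K c := by
    by_contra h
    push Not at h
    exact hal (transcendental_of_not_const h)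
  obtain ⟨x, hx⟩ := hK.exists_tr
  have h1 : IntermediateField.adjoin ℂ {t} = (⊥ : IntermediateField ℂ K) := by
    rw [IntermediateField.adjoin_simple_eq_bot_iff, IntermediateField.mem_bot]
    exact ⟨c, hc.symm⟩
  have h2 : x ∈ (⊥ : IntermediateField ℂ K) := by
    rw [← h1, ht]
    exact IntermediateField.mem_top
  rw [IntermediateField.mem_bot] at h2
  obtain ⟨d, hd⟩ := h2
  exact hx (hd ▸ isAlgebraic_algebraMap d)

private def expE : EntFun := ⟨Complex.exp, Complex.differentiable_exp⟩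

private lemma toM_inj {a b : EntFun} (h : toM a = toM b) : a = b := IsFractionRing.injective EntFun Mer h

private lemma expE_tr : Transcendental ℂ (toM expE) := by
  rcases tr_or_const (toM expE) with ⟨c, hc⟩ | h
  · exfalso
    rw [algebraMap_eq] at hc
    have h1 := toM_inj hc
    have h2 : Complex.exp 0 = c := congrArg (fun f : EntFun => (f : ℂ → ℂ) 0) h1
    have h3 : Complex.exp (Real.pi * Complex.I) = c := congrArg (fun f : EntFun => (f : ℂ → ℂ) (Real.pi * Complex.I)) h1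
    rw [← h2, Complex.exp_pi_mul_I, Complex.exp_zero] at h3
    norm_num at h3
  · exact h

private lemma ordM_expE (z₀ : ℂ) : ordM z₀ (toM expE) = 0 := by
  refine le_antisymm (not_lt.1 fun h => ?_) (ordM_toM_nonneg z₀ expE)
  rw [ordM_toM_pos] at h
  exact Complex.exp_ne_zero z₀ h

private lemma ThmC_rel_map {A B : Type} [CommRing A] [CommRing B] (f : A →+* B) {x y z p q : A}
    (h : y ^ 2 * z - 4 * x ^ 3 + p * x * z ^ 2 + q * z ^ 3 = 0) :
    f y ^ 2 * f z - 4 * f x ^ 3 + f p * f x * f z ^ 2 + f q * f z ^ 3 = 0 := by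
  have h1 := congrArg f h
  simpa only [map_add, map_sub, map_mul, map_pow, map_zero, map_ofNat] using h1

private lemma ThmC_rel_div {A : Type} [Field A] {x y z p q : A} (hz : z ≠ 0)
    (h : y ^ 2 * z - 4 * x ^ 3 + p * x * z ^ 2 + q * z ^ 3 = 0) :
    (y / z) ^ 2 = 4 * (x / z) ^ 3 - p * (x / z) - q := by
  field_simp
  linear_combination h

private lemma ThmC_cub {A B : Type} [CommRing A] [CommRing B] (f : A →+* B) (g p q : A) :
    4 * f g ^ 3 - f p * f g - f q = f (4 * g ^ 3 - p * g - q) := by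
  simp only [map_sub, map_mul, map_pow, map_ofNat]

private lemma exists_cubic_mer {α β : ℂ} (hd : α ^ 3 ≠ 27 * β ^ 2) :
    ∃ U V : Mer, V ^ 2 = 4 * U ^ 3 - algebraMap ℂ Mer α * U - algebraMap ℂ Mer β ∧ Transcendental ℂ U := by
  obtain ⟨F, hF, hcub, z, w, hzw⟩ := exists_entire_cubic hd
  have hFi : ∀ i : Fin 3, Differentiable ℂ fun z => F z i := fun i =>
    ((EuclideanSpace.proj i : EuclideanSpace ℂ (Fin 3) →L[ℂ] ℂ).differentiable).comp hF
  obtain ⟨a, ha⟩ : ∃ a : Fin 3 → EntFun, ∀ i x, (a i : ℂ → ℂ) x = F x i := ⟨fun i => ⟨_, hFi i⟩, fun i x => rfl⟩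
  have hne : ∀ x, F x ≠ 0 := fun x => (hcub x).1
  have heq : ∀ x, F x 1 ^ 2 * F x 2 - 4 * F x 0 ^ 3 + α * F x 0 * F x 2 ^ 2 + β * F x 2 ^ 3 = 0 := fun x => (hcub x).2
  have h2 : a 2 ≠ 0 := by
    intro h
    have h0 : ∀ x, F x 2 = 0 := fun x => by
      rw [← ha 2 x, h]
      rfl
    have h1 : ∀ x, F x 0 = 0 := fun x => by
      have h3 := heq x
      rw [h0 x] at h3
      have h4 : F x 0 ^ 3 = 0 := by linear_combination (-1 / 4) * h3
      exact pow_eq_zero_iff (by norm_num) |>.1 h4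
    have hw1 : F w 1 ≠ 0 := fun h3 => hne w (by
      ext i
      fin_cases i
      · exact h1 w
      · exact h3
      · exact h0 w)
    refine hzw (F z 1 / F w 1) ?_
    ext i
    fin_cases i
    · simp [h1]
    · simp [hw1]
    · simp [h0]
  have hA2 : toM (a 2) ≠ 0 := fun h => h2 (toM_inj (by rw [h, toM, map_zero]))
  have hent : a 1 ^ 2 * a 2 - 4 * a 0 ^ 3 + algebraMap ℂ EntFun α * a 0 * a 2 ^ 2 + algebraMap ℂ EntFun β * a 2 ^ 3 = 0 := by
    apply EntFun.ext'
    intro x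
    have := heq x
    rw [← ha 0 x, ← ha 1 x, ← ha 2 x] at this
    exact this
  have hmer : toM (a 1) ^ 2 * toM (a 2) - 4 * toM (a 0) ^ 3 + algebraMap ℂ Mer α * toM (a 0) * toM (a 2) ^ 2 +
      algebraMap ℂ Mer β * toM (a 2) ^ 3 = 0 := by
    have := ThmC_rel_map (algebraMap EntFun Mer) hent
    rw [algebraMap_eq, algebraMap_eq]
    exact this
  have hrel : (toM (a 1) / toM (a 2)) ^ 2 = 4 * (toM (a 0) / toM (a 2)) ^ 3 - algebraMap ℂ Mer α * (toM (a 0) / toM (a 2)) -
      algebraMap ℂ Mer β := ThmC_rel_div hA2 hmer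
  refine ⟨_, _, hrel, ?_⟩
  rcases tr_or_const (toM (a 0) / toM (a 2)) with ⟨γ, hγ⟩ | h
  · exfalso
    obtain ⟨ε, hε⟩ := IsAlgClosed.exists_pow_nat_eq (4 * γ ^ 3 - α * γ - β) (n := 2) (by norm_num)
    have h3 : (toM (a 1) / toM (a 2)) ^ 2 = (algebraMap ℂ Mer ε) ^ 2 := by
      rw [hrel, hγ, ← map_pow (algebraMap ℂ Mer) ε, hε]
      exact ThmC_cub (algebraMap ℂ Mer) γ α β
    obtain ⟨ε', hε'⟩ : ∃ ε' : ℂ, toM (a 1) / toM (a 2) = algebraMap ℂ Mer ε' := by
      rcases sq_eq_sq_iff_eq_or_eq_neg.1 h3 with h | h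
      · exact ⟨ε, h⟩
      · exact ⟨-ε, by rw [h, map_neg]⟩
    rw [div_eq_iff hA2, algebraMap_eq] at hγ hε'
    have h4 : a 0 = algebraMap ℂ EntFun γ * a 2 := toM_inj (hγ.trans (map_mul (algebraMap EntFun Mer) _ _).symm)
    have h5 : a 1 = algebraMap ℂ EntFun ε' * a 2 := toM_inj (hε'.trans (map_mul (algebraMap EntFun Mer) _ _).symm)
    have h6 : ∀ x, F x 0 = γ * F x 2 := fun x => by
      rw [← ha 0 x, ← ha 2 x, h4]
      rfl
    have h7 : ∀ x, F x 1 = ε' * F x 2 := fun x => by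
      rw [← ha 1 x, ← ha 2 x, h5]
      rfl
    have hw2 : F w 2 ≠ 0 := fun h8 => hne w (by
      ext i
      fin_cases i
      · simpa [h8] using h6 w
      · simpa [h8] using h7 w
      · exact h8)
    refine hzw (F z 2 / F w 2) ?_
    ext i
    fin_cases i
    · show F z 0 = F z 2 / F w 2 * F w 0
      rw [h6 z, h6 w]
      field_simp
    · show F z 1 = F z 2 / F w 2 * F w 1
      rw [h7 z, h7 w]
      field_simp
    · show F z 2 = F z 2 / F w 2 * F w 2
      field_simp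
  · exact h

theorem exists_hom {K : Type} [Field K] [Algebra ℂ K] (hK : CurveField K) {B : Place K → Prop} (hB : ¬ IsLogGeneralType B) :
    ∃ φ : K →ₐ[ℂ] Mer, ∀ (z₀ : ℂ) (E : Place K) (e : ℕ), 1 ≤ e → (∀ g, ordM z₀ (φ g) = e • E.ord g) → ¬ B E := by
  rcases trichotomy hK B with h | ⟨t, ht, hBt⟩ | ⟨hBe, u, v, α, β, huv, hu, htop, hv, hd⟩
  · exact absurd h hB
  · obtain ⟨φ, hφ⟩ := hom_rat ht (tr_of_top hK ht) expE_tr
    refine ⟨φ, fun z₀ E e he hE hBE => hBt E hBE ?_⟩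
    have h1 := hE t
    rw [hφ, ordM_expE] at h1
    have ht0 : t ≠ 0 := by
      rintro rfl
      rw [map_zero] at hφ
      have h2 := expE_tr
      rw [← hφ] at h2
      exact h2 (isAlgebraic_zero)
    rw [← coe_oz E ht0, ← WithTop.coe_nsmul] at h1
    have h2 : (0 : ℤ) = e • oz E t := by exact_mod_cast h1
    rw [nsmul_eq_mul] at h2
    have h3 : (e : ℤ) ≠ 0 := by
      have : e ≠ 0 := by omega
      exact_mod_cast this
    exact (mul_eq_zero.1 h2.symm).resolve_left h3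
  · obtain ⟨U, V, hUV, hU⟩ := exists_cubic_mer hd
    obtain ⟨φ, -⟩ := hom_cubic huv hu htop hv hU hUV
    exact ⟨φ, fun z₀ E e he hE => hBe E⟩

variable {N : ℕ}

/-- the version for the complement of the common zeros of forms -/
theorem exists_entire_of_not_lgtL (Q : Ideal (MvPolynomial (Fin (N + 1)) ℂ)) [Q.IsPrime] (hX : ∃ i, (X i : MvPolynomial (Fin (N + 1)) ℂ) ∉ Q)
    (hz : ∃ z : Fin 1 → FunField Q, IsTranscendenceBasis ℂ z) {s : ℕ} {G : Fin s → MvPolynomial (Fin (N + 1)) ℂ} (hG : ∀ m, ∃ d, (G m).IsHomogeneous d)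
    (hlgt : ¬ IsLogGeneralType (OnBd Q G (k := 1))) :
    ∃ f : ℂ → PN N, HolomorphicInto f Set.univ ∧ (∀ z, f z ∈ locVar Q G) ∧ ∃ z w, f z ≠ f w := by
  have hK := curveField_funField Q hz
  obtain ⟨φ, hφ⟩ := exists_hom hK hlgt
  exact homMapL Q hX hK hG φ hφ

end Pool.Agent.H13.CV

end
end

section

/-!
# CV Strong: the closed subvarieties which are not contained in the exceptional set

`strongly_of_brody`: `Ξ` is Zariski closed in `openVar P H`: `Ξ = {x ∈ openVar P H | all forms of S vanish at x}` (see the definition of `ZariskiClosedIn`).  Let `Q ⊇ P` be as in the field `strongly` of `GGLWith`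
(`Pool/Agent/H17R/Defs.lean`), of dimension `w`.  If `Q ≤ P` then `Q = P` and `hlgt` applies.  Otherwise `w < 2` by `trdeg_lt`, so `w = 1` (`1 ≤ w`).  If `Q` is not of log general type then there is a non-constant entire
curve in `openVar Q H` (`exists_entire_of_not_lgt`), it is in `openVar P H`, so in `Ξ` by `hbr`; so all forms of `S` vanish on it, so they are in `Q` by `form_of_curve`, so `openVar Q H ⊆ Ξ`: contradiction.
-/

set_option autoImplicit false

open Topology Filter MvPolynomial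
open Pool.Agent.H17 (PN VanishesAt ZariskiClosedIn HolomorphicInto puncturedDisc)
open Pool.Agent.H17LG.Variety (FunField OnBoundary IsLogGeneralType)
open Pool.Agent.H62.FC (Homog)
open Pool.Agent.H17R (openVar)
open Pool.Agent.H62.SA (locVar OnBd)

noncomputable section

namespace Pool.Agent.H13.CV

variable {N : ℕ}

/-- the version for the complement of the common zeros of forms -/
theorem strongly_of_brodyL (P : Ideal (MvPolynomial (Fin (N + 1)) ℂ)) [P.IsPrime] (hP : Homog P) (hz : ∃ z : Fin 2 → FunField P, IsTranscendenceBasis ℂ z)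
    {s : ℕ} {G : Fin s → MvPolynomial (Fin (N + 1)) ℂ} (hG : ∀ m, ∃ d, (G m).IsHomogeneous d) {Ξ : Set (PN N)} (hΞ : ZariskiClosedIn (locVar P G) Ξ)
    (hlgt : IsLogGeneralType (OnBd P G (k := 2)))
    (hbr : ∀ f : ℂ → PN N, HolomorphicInto f Set.univ → (∀ z, f z ∈ locVar P G) → (∃ z w, f z ≠ f w) → ∀ z, f z ∈ Ξ)
    (Q : Ideal (MvPolynomial (Fin (N + 1)) ℂ)) [Q.IsPrime] (hQ : Homog Q) (hPQ : P ≤ Q) (hQΞ : ¬ locVar Q G ⊆ Ξ) (w : ℕ) (hw : 1 ≤ w)
    (hz' : ∃ z : Fin w → FunField Q, IsTranscendenceBasis ℂ z) : IsLogGeneralType (OnBd Q G (k := w)) := by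
  have hsub : locVar Q G ⊆ locVar P G := fun x hx => ⟨fun R hR n hn => hx.1 R (hPQ hR) n hn, hx.2⟩
  have hX : ∃ i, (X i : MvPolynomial (Fin (N + 1)) ℂ) ∉ Q := by
    obtain ⟨x, hx, _⟩ := Set.not_subset.1 hQΞ
    by_contra hcon
    push Not at hcon
    apply x.rep_nonzero
    funext i
    have h1 : VanishesAt (X i : MvPolynomial (Fin (N + 1)) ℂ) x := hx.1 _ (hcon i) 1 (isHomogeneous_X ℂ i)
    have h2 : eval x.rep (X i : MvPolynomial (Fin (N + 1)) ℂ) = 0 := h1
    rw [eval_X] at h2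
    exact h2
  by_cases hle : Q ≤ P
  · have hEq : P = Q := le_antisymm hPQ hle
    subst hEq
    have h1 : w ≤ 2 := Pool.Agent.H62.FC.trdeg_mono hP hP le_rfl hz hz'
    have h2 : 2 ≤ w := Pool.Agent.H62.FC.trdeg_mono hP hP le_rfl hz' hz
    obtain rfl : w = 2 := le_antisymm h1 h2
    exact hlgt
  · have hlt : w < 2 := Pool.Agent.H17BP.trdeg_lt hP hQ hPQ hle hX hz hz'
    obtain rfl : w = 1 := by omega
    by_contra hl
    obtain ⟨f, hf, hfQ, hne⟩ := exists_entire_of_not_lgtL Q hX hz' hG hl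
    have hΞf : ∀ z, f z ∈ Ξ := hbr f hf (fun z => hsub (hfQ z)) hne
    obtain ⟨S, hS, hSΞ⟩ := hΞ
    apply hQΞ
    intro x hx
    rw [hSΞ]
    refine ⟨hsub hx, fun R hR => ?_⟩
    obtain ⟨n, hn⟩ := hS R hR
    have hRf : ∀ z, VanishesAt R (f z) := by
      intro z
      have h3 := hΞf z
      rw [hSΞ] at h3
      exact h3.2 R hR
    exact hx.1 R (form_of_curve0 Q hQ hz' hf (fun z => (hfQ z).1) hne hn hRf) n hn

end Pool.Agent.H13.CV

end
end

section

/-!
# Qup Bd: the boundary and dominant regular maps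

`exists_compat`: a dominant regular map `p : U' → U` gives an embedding `e` of the function field of `U` in the function field of `U'`.  `onBd_over`: if the
prime divisor `E` over `U'` lies over the prime divisor `D` over `U` and `D` is centred on the boundary of `U`, then `E` is centred on the boundary of `U'`.
`logGT_up`: if `U` is of log general type, and `U'` has the same dimension, then `U'` is of log general type.
-/

set_option autoImplicit false

open MvPolynomial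

noncomputable section

namespace Pool.Agent.H7.Qup

open Pool.Agent.H17 (PN VanishesAt vanishesAt_mk_iff)
open Pool.Agent.H17GT (coordFun)
open Pool.Agent.H17LG.Variety (FunField ratio IsLogGeneralType)
open Pool.Agent.H23.Fano (PrimeDivisorOver)
open Pool.Agent.H62.FC (Homog)
open Pool.Agent.H62.SA (locVar OnBd)
open Pool.Agent.H17R (gen gen_eq_zero_iff ratio_self coordFun_ne_zero_iff gen_change exists_center ord_gen_nonneg ratio_ne_zero_iff)
open Pool.Agent.H7.Bir (vals rmap mem_of_open)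

variable {N M : ℕ} {P : Ideal (MvPolynomial (Fin (N + 1)) ℂ)} {P' : Ideal (MvPolynomial (Fin (M + 1)) ℂ)} {s s' : ℕ}
  {G : Fin s → MvPolynomial (Fin (N + 1)) ℂ} {G' : Fin s' → MvPolynomial (Fin (M + 1)) ℂ} {p : PN M → PN N}

theorem ratio_change' [P.IsPrime] {i i₀ i₁ : Fin (N + 1)} (h₁ : coordFun P i₁ ≠ 0) :
    ratio P i i₀ = ratio P i₁ i₀ * ratio P i i₁ := by
  apply Subtype.ext
  change coordFun P i / coordFun P i₀ =
    coordFun P i₁ / coordFun P i₀ * (coordFun P i / coordFun P i₁)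
  rw [div_mul_div_comm, mul_comm (coordFun P i₁) (coordFun P i), mul_div_mul_right _ _ h₁]

theorem exists_coord {y : PN M} (hy : y ∈ locVar P' G') : ∃ j, (X j : MvPolynomial (Fin (M + 1)) ℂ) ∉ P' := by
  by_contra hcon
  push Not at hcon
  have h1 : ∀ i, y.rep i = 0 := by
    intro i
    have h2 := hy.1 _ (hcon i) 1 (isHomogeneous_X ℂ i)
    unfold VanishesAt at h2
    rwa [eval_X] at h2
  exact y.rep_nonzero (funext h1)

/-- The embedding of the function fields corresponds to the map `p`. -/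
def Compat (P : Ideal (MvPolynomial (Fin (N + 1)) ℂ)) [P.IsPrime] (P' : Ideal (MvPolynomial (Fin (M + 1)) ℂ)) [P'.IsPrime]
    (G' : Fin s' → MvPolynomial (Fin (M + 1)) ℂ) (p : PN M → PN N) (e : FunField P →ₐ[ℂ] FunField P') : Prop :=
  ∀ (D : ℕ) (γ : Fin (N + 1) → MvPolynomial (Fin (M + 1)) ℂ), Rep P' G' p D γ → (∃ y ∈ locVar P' G', vals γ y.rep ≠ 0) →
    ∀ j', X j' ∉ P' → ∀ i₀, X i₀ ∉ P → ∀ i, e (ratio P i i₀) * gen P' j' (γ i₀) = gen P' j' (γ i)

theorem exists_compat [P.IsPrime] [P'.IsPrime] (hp : IsDominantMap P P' G G' p) (hP' : Homog P')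
    (hG' : ∀ m, ∃ n, (G' m).IsHomogeneous n) (hne : (locVar P' G').Nonempty) :
    ∃ e : FunField P →ₐ[ℂ] FunField P', Compat P P' G' p e := by
  obtain ⟨y₀, hy₀⟩ := hne
  have hne : (locVar P' G').Nonempty := ⟨y₀, hy₀⟩
  obtain ⟨j₁, hj₁⟩ := exists_coord hy₀
  obtain ⟨i₁, hi₁⟩ := exists_coord (hp.maps y₀ hy₀)
  obtain ⟨D₁, γ₁, hγ₁, hv₁⟩ := hp.exists_rep hy₀
  have hcj : coordFun P' j₁ ≠ 0 := coordFun_ne_zero_iff.2 hj₁
  have hci : coordFun P i₁ ≠ 0 := coordFun_ne_zero_iff.2 hi₁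
  have hmaps := hp.maps_iff hP' hG' hγ₁ ⟨y₀, hy₀, hv₁⟩
  have hγi : ∀ i, X i ∉ P → γ₁ i ∉ P' := by
    intro i hi h
    apply hi
    rw [← hmaps 1 _ (isHomogeneous_X ℂ i), aeval_X]
    exact h
  have hc : gen P' j₁ (γ₁ i₁) ≠ 0 := fun h0 => hγi i₁ hi₁ ((gen_eq_zero_iff hcj (hγ₁.hom i₁)).1 h0)
  set x : Fin (N + 1) → FunField P' := fun i => gen P' j₁ (γ₁ i) / gen P' j₁ (γ₁ i₁) with hx
  have hx1 : x i₁ = 1 := div_self hc
  have hker : ∀ (n : ℕ) (R : MvPolynomial (Fin (N + 1)) ℂ), R.IsHomogeneous n → (aeval x R = 0 ↔ R ∈ P) := by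
    intro n R hR
    rw [← hmaps n R hR, ← gen_eq_zero_iff hcj (aeval_homog hγ₁.hom hR)]
    have h1 : gen P' j₁ (aeval γ₁ R) = gen P' j₁ (γ₁ i₁) ^ n * aeval x R := by
      unfold gen
      rw [Pool.Agent.H7.Bir.aeval_comp]
      exact Pool.Agent.H7.Bir.aeval_div hR hc _
    rw [h1, mul_eq_zero]
    exact ⟨Or.inr, fun h => h.resolve_left (pow_ne_zero _ hc)⟩
  obtain ⟨e, he⟩ := exists_hom_val hci hx1 hker
  refine ⟨e, ?_⟩
  intro D γ hγ hγne j' hj' i₀ hi₀ i
  have hcj' : coordFun P' j' ≠ 0 := coordFun_ne_zero_iff.2 hj'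
  have hci' : coordFun P i₀ ≠ 0 := coordFun_ne_zero_iff.2 hi₀
  -- change of the tuple
  have hrel : ∀ k l, gen P' j' (γ₁ k) * gen P' j' (γ l) = gen P' j' (γ₁ l) * gen P' j' (γ k) := by
    intro k l
    have h1 : γ₁ k * γ l - γ₁ l * γ k ∈ P' := by
      have hhom : (γ₁ k * γ l - γ₁ l * γ k).IsHomogeneous (D₁ + D) := ((hγ₁.hom k).mul (hγ.hom l)).sub ((hγ₁.hom l).mul (hγ.hom k))
      refine mem_of_open hP' hG' hne hhom fun y hy => ?_
      unfold VanishesAt
      rw [map_sub, map_mul, map_mul, hγ₁.prop hγ hy k l, sub_self]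
    have hhom : (γ₁ k * γ l - γ₁ l * γ k).IsHomogeneous (D₁ + D) := ((hγ₁.hom k).mul (hγ.hom l)).sub ((hγ₁.hom l).mul (hγ.hom k))
    have h2 := (gen_eq_zero_iff hcj' hhom).2 h1
    unfold gen at h2 ⊢
    rw [map_sub, map_mul, map_mul] at h2
    exact sub_eq_zero.1 h2
  -- change of the coordinate
  have hch : ∀ k, gen P' j₁ (γ₁ k) = ratio P' j' j₁ ^ D₁ * gen P' j' (γ₁ k) := fun k => gen_change hcj' (hγ₁.hom k)
  have hr0 : ratio P' j' j₁ ≠ 0 := (ratio_ne_zero_iff hcj).2 hcj'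
  have hg0 : gen P' j' (γ₁ i₀) ≠ 0 := fun h0 => hγi i₀ hi₀ ((gen_eq_zero_iff hcj' (hγ₁.hom i₀)).1 h0)
  have h3 : e (ratio P i i₁) = e (ratio P i₀ i₁) * e (ratio P i i₀) := by
    rw [← map_mul, ← ratio_change' hci']
  have h4 : gen P' j₁ (γ₁ i) = gen P' j₁ (γ₁ i₀) * e (ratio P i i₀) := by
    rw [he, he] at h3
    change gen P' j₁ (γ₁ i) / gen P' j₁ (γ₁ i₁) = gen P' j₁ (γ₁ i₀) / gen P' j₁ (γ₁ i₁) * e (ratio P i i₀) at h3
    rw [div_mul_eq_mul_div, div_left_inj' hc] at h3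
    exact h3
  have h5 : gen P' j' (γ₁ i) = gen P' j' (γ₁ i₀) * e (ratio P i i₀) := by
    rw [hch, hch, mul_assoc] at h4
    exact mul_left_cancel₀ (pow_ne_zero _ hr0) h4
  have h6 := hrel i i₀
  rw [h5, mul_assoc] at h6
  exact mul_left_cancel₀ hg0 h6

/-- The polynomials which vanish at the centre of `E`. -/
def ctr [P.IsPrime] {w : ℕ} (E : PrimeDivisorOver (FunField P) w) {j : Fin (N + 1)} (h : ∀ i, 0 ≤ E.ord (ratio P i j)) :
    Ideal (MvPolynomial (Fin (N + 1)) ℂ) where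
  carrier := {R | 0 < E.ord (gen P j R)}
  add_mem' := by
    intro a b ha hb
    change 0 < E.ord (aeval _ (a + b))
    rw [map_add]
    exact (lt_min ha hb).trans_le (E.ord.map_add _ _)
  zero_mem' := by
    change 0 < E.ord (aeval _ 0)
    rw [map_zero, E.ord.map_zero]
    exact WithTop.coe_lt_top 0
  smul_mem' := by
    intro c x hx
    change 0 < E.ord (aeval _ (c * x))
    rw [map_mul, E.ord.map_mul]
    exact lt_of_lt_of_le hx (le_add_of_nonneg_left (ord_gen_nonneg E h c))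

theorem mem_ctr [P.IsPrime] {w : ℕ} {E : PrimeDivisorOver (FunField P) w} {j : Fin (N + 1)} {h : ∀ i, 0 ≤ E.ord (ratio P i j)}
    {R : MvPolynomial (Fin (N + 1)) ℂ} : R ∈ ctr E h ↔ 0 < E.ord (gen P j R) := Iff.rfl

theorem notMem_ctr [P.IsPrime] {w : ℕ} {E : PrimeDivisorOver (FunField P) w} {j : Fin (N + 1)} {h : ∀ i, 0 ≤ E.ord (ratio P i j)}
    {R : MvPolynomial (Fin (N + 1)) ℂ} : R ∉ ctr E h ↔ E.ord (gen P j R) = 0 := by
  rw [mem_ctr, not_lt]
  exact ⟨fun h1 => le_antisymm h1 (ord_gen_nonneg E h R), fun h1 => h1.le⟩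

instance ctr_isPrime [P.IsPrime] {w : ℕ} (E : PrimeDivisorOver (FunField P) w) {j : Fin (N + 1)} (h : ∀ i, 0 ≤ E.ord (ratio P i j)) :
    (ctr E h).IsPrime where
  ne_top' := by
    rw [Ideal.ne_top_iff_one, notMem_ctr]
    unfold gen
    rw [map_one, E.ord.map_one]
  mem_or_mem' := by
    intro a b hab
    by_contra hcon
    rw [not_or, notMem_ctr, notMem_ctr] at hcon
    rw [mem_ctr] at hab
    unfold gen at hab hcon
    rw [map_mul, E.ord.map_mul, hcon.1, hcon.2, add_zero] at hab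
    exact lt_irrefl _ hab

/-- Points of the centre. -/
theorem exists_ctr_point [P.IsPrime] {w : ℕ} (E : PrimeDivisorOver (FunField P) w) {j : Fin (N + 1)} (hj : coordFun P j ≠ 0)
    (h : ∀ i, 0 ≤ E.ord (ratio P i j)) {R : MvPolynomial (Fin (N + 1)) ℂ} (hR : R ∉ ctr E h) :
    ∃ v : Fin (N + 1) → ℂ, v ≠ 0 ∧ (∀ Q ∈ ctr E h, eval v Q = 0) ∧ eval v R ≠ 0 := by
  rw [← MvPolynomial.IsPrime.vanishingIdeal_zeroLocus (K := ℂ) (ctr E h), MvPolynomial.mem_vanishingIdeal_iff] at hR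
  push Not at hR
  obtain ⟨v, hv, hvR⟩ := hR
  rw [MvPolynomial.aeval_eq_eval] at hvR
  have hv' : ∀ Q ∈ ctr E h, eval v Q = 0 := fun Q hQ => by
    have h1 := hv Q hQ
    rwa [MvPolynomial.aeval_eq_eval] at h1
  refine ⟨v, ?_, hv', hvR⟩
  rintro rfl
  have h1 : (X j - 1 : MvPolynomial (Fin (N + 1)) ℂ) ∈ ctr E h := by
    rw [mem_ctr]
    unfold gen
    rw [map_sub, aeval_X, ratio_self hj, map_one, sub_self, E.ord.map_zero]
    exact WithTop.coe_lt_top 0
  have h2 := hv' _ h1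
  rw [map_sub, eval_X, map_one] at h2
  norm_num at h2

theorem le_ctr [P.IsPrime] {w : ℕ} {E : PrimeDivisorOver (FunField P) w} {j : Fin (N + 1)} (hj : coordFun P j ≠ 0)
    {h : ∀ i, 0 ≤ E.ord (ratio P i j)} {n : ℕ} {R : MvPolynomial (Fin (N + 1)) ℂ} (hR : R.IsHomogeneous n) (hRP : R ∈ P) : R ∈ ctr E h := by
  rw [mem_ctr, (gen_eq_zero_iff hj hR).2 hRP, E.ord.map_zero]
  exact WithTop.coe_lt_top 0

/-- **The boundary is mapped to the boundary.** -/
theorem onBd_over [P.IsPrime] [P'.IsPrime] (hp : IsDominantMap P P' G G' p) (hP' : Homog P')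
    (hG : ∀ m, ∃ n, (G m).IsHomogeneous n) (hG' : ∀ m, ∃ n, (G' m).IsHomogeneous n)
    {e : FunField P →ₐ[ℂ] FunField P'} (he : Compat P P' G' p e) {k : ℕ} {D : PrimeDivisorOver (FunField P) k}
    {E : PrimeDivisorOver (FunField P') k} {r : ℕ} (hr : 0 < r)
    (hDE : ∀ f : FunField P, f ≠ 0 → ∃ n : ℤ, D.ord f = n ∧ E.ord (e f) = ((r * n : ℤ) : WithTop ℤ)) (hne : (locVar P' G').Nonempty)
    (hD : OnBd P G D) : OnBd P' G' E := by
  obtain ⟨y₀, hy₀⟩ := hne
  obtain ⟨j₁, hj₁⟩ := exists_coord hy₀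
  obtain ⟨j', hj', hE⟩ := exists_center E (coordFun_ne_zero_iff.2 hj₁)
  refine ⟨j', hj', hE, fun m => ?_⟩
  by_contra hcon
  have h1 : G' m ∉ ctr E hE := hcon
  obtain ⟨v, hv0, hv, hvG⟩ := exists_ctr_point E hj' hE h1
  set y : PN M := Projectivization.mk ℂ v hv0 with hy
  have hyU : y ∈ locVar P' G' := by
    refine ⟨fun Q hQ n hn => ?_, m, ?_⟩
    · rw [hy, vanishesAt_mk_iff hn]
      exact hv _ (le_ctr hj' hn hQ)
    · obtain ⟨d, hd⟩ := hG' m
      rw [hy, vanishesAt_mk_iff hd]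
      exact hvG
  obtain ⟨Dγ, γ, hγ, hvγ⟩ := hp.exists_rep hyU
  have hval : ∀ {n : ℕ} {R : MvPolynomial (Fin (M + 1)) ℂ}, R.IsHomogeneous n → eval y.rep R ≠ 0 → E.ord (gen P' j' R) = 0 := by
    intro n R hR hyR
    rw [← notMem_ctr (h := hE)]
    intro h2
    apply hyR
    have h3 := (vanishesAt_mk_iff hR v hv0).2 (hv R h2)
    exact h3
  obtain ⟨i₁, hi₁⟩ : ∃ i, eval y.rep (γ i) ≠ 0 := by
    by_contra hcon
    push Not at hcon
    exact hvγ (funext hcon)
  have hγi : E.ord (gen P' j' (γ i₁)) = 0 := hval (hγ.hom i₁) hi₁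
  have hmaps := hp.maps_iff hP' hG' hγ ⟨y, hyU, hvγ⟩
  have hXi : X i₁ ∉ P := by
    intro h2
    rw [← hmaps 1 _ (isHomogeneous_X ℂ i₁), aeval_X] at h2
    exact hi₁ (hyU.1 _ h2 _ (hγ.hom i₁))
  have hci : coordFun P i₁ ≠ 0 := coordFun_ne_zero_iff.2 hXi
  have hXj' : X j' ∉ P' := coordFun_ne_zero_iff.1 hj'
  have hcomp := he Dγ γ hγ ⟨y, hyU, hvγ⟩ j' hXj' i₁ hXi
  have hgne : gen P' j' (γ i₁) ≠ 0 := by
    intro h2
    rw [h2, E.ord.map_zero] at hγi
    exact WithTop.top_ne_zero hγi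
  -- from `E` to `D`
  have hnn : ∀ f : FunField P, 0 ≤ E.ord (e f) → 0 ≤ D.ord f := by
    intro f hf
    by_cases hf0 : f = 0
    · rw [hf0, D.ord.map_zero]
      exact le_top
    · obtain ⟨n, hn, hn'⟩ := hDE f hf0
      rw [hn'] at hf
      rw [hn]
      have h2 : (0 : ℤ) ≤ r * n := by exact_mod_cast hf
      have h3 : (0 : ℤ) ≤ n := nonneg_of_mul_nonneg_right h2 (by exact_mod_cast hr)
      exact_mod_cast h3
  have hzz : ∀ f : FunField P, E.ord (e f) = 0 → D.ord f = 0 := by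
    intro f hf
    by_cases hf0 : f = 0
    · rw [hf0, map_zero, E.ord.map_zero] at hf
      exact absurd hf WithTop.top_ne_zero
    · obtain ⟨n, hn, hn'⟩ := hDE f hf0
      rw [hn'] at hf
      rw [hn]
      have h2 : (r : ℤ) * n = 0 := by exact_mod_cast hf
      have h3 : n = 0 := by
        rcases mul_eq_zero.1 h2 with h4 | h4
        · omega
        · exact h4
      rw [h3]
      rfl
  have hD1 : ∀ i, 0 ≤ D.ord (ratio P i i₁) := by
    intro i
    apply hnn
    have h2 := congrArg E.ord (hcomp i)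
    rw [E.ord.map_mul, hγi, add_zero] at h2
    rw [h2]
    exact ord_gen_nonneg E hE _
  -- a form `G m` which does not vanish at the image
  obtain ⟨-, m₁, hm₁⟩ := hp.maps y hyU
  obtain ⟨d, hd⟩ := hG m₁
  have h5 : E.ord (gen P' j' (aeval γ (G m₁))) = 0 := by
    refine hval (aeval_homog hγ.hom hd) fun h6 => hm₁ ?_
    rw [hγ.vanishes_iff hyU hvγ hd]
    exact h6
  have h6 : e (gen P i₁ (G m₁)) * gen P' j' (γ i₁) ^ d = gen P' j' (aeval γ (G m₁)) := by
    have h7 : ∀ i, e (ratio P i i₁) = gen P' j' (γ i) / gen P' j' (γ i₁) := fun i => by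
      rw [eq_div_iff hgne]
      exact hcomp i
    have h8 : e (gen P i₁ (G m₁)) = aeval (fun i => gen P' j' (γ i) / gen P' j' (γ i₁)) (G m₁) := by
      unfold gen
      have h9 : e (aeval (fun i => ratio P i i₁) (G m₁)) = aeval (fun i => e (ratio P i i₁)) (G m₁) := by
        rw [← AlgHom.comp_apply, MvPolynomial.comp_aeval]
      rw [h9]
      congr 2
      funext i
      exact h7 i
    have h10 : gen P' j' (aeval γ (G m₁)) = gen P' j' (γ i₁) ^ d * aeval (fun i => gen P' j' (γ i) / gen P' j' (γ i₁)) (G m₁) := by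
      unfold gen
      rw [Pool.Agent.H7.Bir.aeval_comp]
      exact Pool.Agent.H7.Bir.aeval_div hd hgne _
    rw [h8, h10, mul_comm]
  have h7 : D.ord (gen P i₁ (G m₁)) = 0 := by
    apply hzz
    have h8 := congrArg E.ord h6
    rw [E.ord.map_mul, E.ord.map_pow, hγi, smul_zero, add_zero, h5] at h8
    exact h8
  -- compare with the coordinate `j`
  obtain ⟨j, hj, hDj, hDG⟩ := hD
  have h8 : D.ord (ratio P i₁ j) = 0 := by
    have h9 : ratio P j j = ratio P i₁ j * ratio P j i₁ := ratio_change' hci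
    have h10 := congrArg D.ord h9
    rw [ratio_self hj, D.ord.map_one, D.ord.map_mul] at h10
    refine le_antisymm ?_ (hDj i₁)
    rw [h10]
    exact le_add_of_nonneg_right (hD1 j)
  have h9 := hDG m₁
  have h10 : gen P j (G m₁) = ratio P i₁ j ^ d * gen P i₁ (G m₁) := gen_change hci hd
  change 0 < D.ord (gen P j (G m₁)) at h9
  rw [h10, D.ord.map_mul, D.ord.map_pow, h8, smul_zero, zero_add, h7] at h9
  exact lt_irrefl _ h9

/-- **Log general type goes up along dominant regular maps.** -/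
theorem logGT_up [P.IsPrime] [P'.IsPrime] (hp : IsDominantMap P P' G G' p) (hP' : Homog P')
    (hG : ∀ m, ∃ n, (G m).IsHomogeneous n) (hG' : ∀ m, ∃ n, (G' m).IsHomogeneous n) (hne : (locVar P' G').Nonempty) {k : ℕ}
    (hz : ∃ z : Fin k → FunField P, IsTranscendenceBasis ℂ z) (hz' : ∃ z : Fin k → FunField P', IsTranscendenceBasis ℂ z)
    (h : IsLogGeneralType (OnBd P G (k := k))) : IsLogGeneralType (OnBd P' G' (k := k)) := by
  obtain ⟨e, he⟩ := exists_compat hp hP' hG' hne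
  let _ : Algebra (FunField P) (FunField P') := e.toRingHom.toAlgebra
  have _ : IsScalarTower ℂ (FunField P) (FunField P') := IsScalarTower.of_algebraMap_eq fun c => (e.commutes c).symm
  have _ : Algebra.IsAlgebraic (FunField P) (FunField P') := by
    obtain ⟨z, hz⟩ := hz
    obtain ⟨z', hz'⟩ := hz'
    have h1 := trdeg_add_eq ℂ (FunField P) (A := FunField P')
    rw [← hz.cardinalMk_eq_trdeg, ← hz'.cardinalMk_eq_trdeg] at h1
    rw [← trdeg_eq_zero_iff]
    have h2 : Cardinal.mk (Fin k) < Cardinal.aleph0 := Cardinal.mk_lt_aleph0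
    have h3 : Cardinal.mk (Fin k) + Algebra.trdeg (FunField P) (FunField P') = Cardinal.mk (Fin k) + 0 := by rw [h1, add_zero]
    exact Cardinal.eq_of_add_eq_add_left h3 h2
  exact isLGT_of_algebraic hz (fun D E r hDE hD => onBd_over hp hP' hG hG' he hDE.1 hDE.2 hne hD) h

end Pool.Agent.H7.Qup

end
end

section

/-!
# Qup Rel: the equations of the coordinates of a point over its image
-/

set_option autoImplicit false

open MvPolynomial

noncomputable section

namespace Pool.Agent.H7.Qup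

open Pool.Agent.H17 (PN VanishesAt vanishesAt_mk_iff)
open Pool.Agent.H17GT (coordFun functionField)
open Pool.Agent.H17LG.Variety (FunField ratio)
open Pool.Agent.H62.FC (Homog)
open Pool.Agent.H62.SA (locVar OnBd)
open Pool.Agent.H17R (gen gen_eq_zero_iff ratio_self coordFun_ne_zero_iff)
open Pool.Agent.H7.Bir (aeval_comp aeval_div funIso exists_quot vals rmap mem_of_open)
open Pool.Agent.H19OL (alg_of_trdeg adjoin_self)

variable {N M : ℕ}

/-- The equation of the ratio `X i / X j` over the function field of the image. -/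
theorem exists_eq_aux {P : Ideal (MvPolynomial (Fin (N + 1)) ℂ)} [P.IsPrime] {P' : Ideal (MvPolynomial (Fin (M + 1)) ℂ)}
    [P'.IsPrime] {k : ℕ} {z : Fin k → FunField P} (hz : IsTranscendenceBasis ℂ z) {z' : Fin k → FunField P'}
    (hz' : IsTranscendenceBasis ℂ z') {D : ℕ} {γ : Fin (N + 1) → MvPolynomial (Fin (M + 1)) ℂ} (hγ : ∀ i, (γ i).IsHomogeneous D)
    (hmaps : ∀ n Q, Q.IsHomogeneous n → (aeval γ Q ∈ P' ↔ Q ∈ P)) {i₀ : Fin (N + 1)} (hi₀ : X i₀ ∉ P)
    {j : Fin (M + 1)} (hj : X j ∉ P') (i : Fin (M + 1)) :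
    ∃ (m D₁ : ℕ) (α : Fin (m + 1) → MvPolynomial (Fin (N + 1)) ℂ), (∀ l, (α l).IsHomogeneous D₁) ∧ α (Fin.last m) ∉ P ∧
      ∑ l : Fin (m + 1), aeval γ (α l) * X i ^ (l : ℕ) * X j ^ (m - (l : ℕ)) ∈ P' := by
  have hcj : coordFun P' j ≠ 0 := coordFun_ne_zero_iff.2 hj
  set η : Fin (M + 1) → FunField P' := fun i => ratio P' i j with hη
  have hη1 : η j = 1 := ratio_self hcj
  have hγ₀ : γ i₀ ∉ P' := by
    intro h
    apply hi₀
    rw [← hmaps 1 _ (isHomogeneous_X ℂ i₀), aeval_X]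
    exact h
  have hc : aeval η (γ i₀) ≠ 0 := fun h0 => hγ₀ ((gen_eq_zero_iff hcj (hγ i₀)).1 h0)
  set x : Fin (N + 1) → FunField P' := fun i => aeval η (γ i) / aeval η (γ i₀) with hx
  have hx1 : x i₀ = 1 := div_self hc
  have hcomp : ∀ (n : ℕ) (R : MvPolynomial (Fin (N + 1)) ℂ), R.IsHomogeneous n →
      aeval η (aeval γ R) = aeval η (γ i₀) ^ n * aeval x R := by
    intro n R hR
    rw [aeval_comp, aeval_div hR hc]
  have hker : ∀ (n : ℕ) (G : MvPolynomial (Fin (N + 1)) ℂ), G.IsHomogeneous n → (aeval x G = 0 ↔ G ∈ P) := by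
    intro n G hG
    rw [← hmaps n G hG, ← gen_eq_zero_iff hcj (hG.aeval γ hγ)]
    change _ ↔ aeval η (aeval γ G) = 0
    rw [hcomp n G hG, mul_eq_zero]
    exact ⟨Or.inr, fun h => h.resolve_left (pow_ne_zero _ hc)⟩
  -- the subfield generated by the coordinates of the image
  set F : IntermediateField ℂ (FunField P') := IntermediateField.adjoin ℂ (Set.range x) with hF
  set x' : Fin (N + 1) → F := fun i => ⟨x i, IntermediateField.subset_adjoin ℂ _ ⟨i, rfl⟩⟩ with hx'
  have hadj : IntermediateField.adjoin ℂ (Set.range x') = ⊤ := adjoin_self x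
  have hval : ∀ G : MvPolynomial (Fin (N + 1)) ℂ, ((aeval x' G : F) : FunField P') = aeval x G := by
    intro G
    have h1 := DFunLike.congr_fun (MvPolynomial.comp_aeval x' F.val) G
    exact h1
  have hx'1 : x' i₀ = 1 := Subtype.ext hx1
  obtain ⟨e⟩ := funIso (coordFun_ne_zero_iff.2 hi₀) hx'1 hadj fun n G hG => by
    rw [← hker n G hG, ← hval G]
    exact Subtype.ext_iff
  have halg : Algebra.IsAlgebraic F (FunField P') := alg_of_trdeg (e.isTranscendenceBasis hz) hz'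
  -- the equation
  set s : FunField P' := η i with hs
  have hint : IsIntegral F s := (halg.isAlgebraic s).isIntegral
  set p := minpoly F s with hp
  set m := p.natDegree with hm
  obtain ⟨D₁, α, hα, hα0, hα1⟩ := exists_quot hx'1 hadj (fun i : Fin (m + 1) => p.coeff (i : ℕ)) (j' := Fin.last m) (by
    have h1 := minpoly.monic hint
    exact h1)
  have hα0' : aeval x (α (Fin.last m)) ≠ 0 := by
    rw [← hval]
    exact fun h => hα0 (Subtype.ext h)
  have hrel : ∑ i : Fin (m + 1), aeval x (α i) * s ^ (i : ℕ) = 0 := by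
    have h1 := minpoly.aeval F s
    rw [Polynomial.aeval_eq_sum_range, ← Fin.sum_univ_eq_sum_range (fun i => p.coeff i • s ^ i)] at h1
    have h2 : ∀ i : Fin (m + 1), aeval x (α i) * s ^ (i : ℕ) = aeval x (α (Fin.last m)) * (p.coeff (i : ℕ) • s ^ (i : ℕ)) := by
      intro i
      have h3 := congrArg (fun t : F => (t : FunField P')) (hα1 i)
      simp only [MulMemClass.coe_mul, hval] at h3
      rw [← h3, Algebra.smul_def]
      change _ = _ * (((p.coeff (i : ℕ) : F) : FunField P') * _)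
      ring
    have h4 : ∑ i : Fin (m + 1), aeval x (α (Fin.last m)) * (p.coeff (i : ℕ) • s ^ (i : ℕ)) =
        aeval x (α (Fin.last m)) * ∑ i : Fin (m + 1), p.coeff (i : ℕ) • s ^ (i : ℕ) := (Finset.mul_sum _ _ _).symm
    rw [Finset.sum_congr rfl fun i _ => h2 i, h4, h1, mul_zero]
  refine ⟨m, D₁, α, hα, fun h => hα0' ((hker D₁ _ (hα _)).2 h), ?_⟩
  -- the form
  set G : MvPolynomial (Fin (M + 1)) ℂ := ∑ l : Fin (m + 1), aeval γ (α l) * X i ^ (l : ℕ) * X j ^ (m - (l : ℕ)) with hG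
  have hGhom : G.IsHomogeneous (D * D₁ + m) := by
    refine IsHomogeneous.sum _ _ _ fun l _ => ?_
    have h1 := ((((hα l).aeval γ hγ).mul ((isHomogeneous_X ℂ i).pow (l : ℕ))).mul ((isHomogeneous_X ℂ j).pow (m - l)))
    have h2 : D * D₁ + 1 * (l : ℕ) + 1 * (m - l) = D * D₁ + m := by
      have h3 : (l : ℕ) ≤ m := Nat.lt_succ_iff.1 l.2
      omega
    rw [h2] at h1
    exact h1
  rw [← gen_eq_zero_iff hcj hGhom]
  change aeval η G = 0
  rw [hG, map_sum]
  have h1 : ∀ l : Fin (m + 1), aeval η (aeval γ (α l) * X i ^ (l : ℕ) * X j ^ (m - (l : ℕ))) =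
      aeval η (γ i₀) ^ D₁ * (aeval x (α l) * s ^ (l : ℕ)) := by
    intro l
    rw [map_mul, map_mul, map_pow, map_pow, aeval_X, aeval_X, hη1, one_pow, mul_one, hcomp D₁ _ (hα l)]
    ring
  have h2 : ∑ l : Fin (m + 1), aeval η (γ i₀) ^ D₁ * (aeval x (α l) * s ^ (l : ℕ)) =
      aeval η (γ i₀) ^ D₁ * ∑ l : Fin (m + 1), aeval x (α l) * s ^ (l : ℕ) := (Finset.mul_sum _ _ _).symm
  rw [Finset.sum_congr rfl fun l _ => h1 l, h2, hrel, mul_zero]

variable {P : Ideal (MvPolynomial (Fin (N + 1)) ℂ)} {P' : Ideal (MvPolynomial (Fin (M + 1)) ℂ)} {s s' : ℕ}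
  {G : Fin s → MvPolynomial (Fin (N + 1)) ℂ} {G' : Fin s' → MvPolynomial (Fin (M + 1)) ℂ} {p : PN M → PN N}

/-- **The equation of the coordinate `i`**: it holds at all points of `U'`. -/
theorem exists_eq [P.IsPrime] [P'.IsPrime] (hp : IsDominantMap P P' G G' p) (hP' : Homog P')
    (hG' : ∀ m, ∃ n, (G' m).IsHomogeneous n) (hne : (locVar P' G').Nonempty) {k : ℕ} {z : Fin k → FunField P}
    (hz : IsTranscendenceBasis ℂ z) {z' : Fin k → FunField P'} (hz' : IsTranscendenceBasis ℂ z') {j : Fin (M + 1)} (hj : X j ∉ P')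
    (i : Fin (M + 1)) :
    ∃ (m D₁ : ℕ) (α : Fin (m + 1) → MvPolynomial (Fin (N + 1)) ℂ), (∀ l, (α l).IsHomogeneous D₁) ∧ α (Fin.last m) ∉ P ∧
      ∀ (y : Fin (M + 1) → ℂ) (hy : y ≠ 0) (x : Fin (N + 1) → ℂ) (hx : x ≠ 0), Projectivization.mk ℂ y hy ∈ locVar P' G' →
        p (Projectivization.mk ℂ y hy) = Projectivization.mk ℂ x hx →
        ∑ l : Fin (m + 1), eval x (α l) * y i ^ (l : ℕ) * y j ^ (m - (l : ℕ)) = 0 := by
  obtain ⟨y₀, hy₀⟩ := hne
  have hne : (locVar P' G').Nonempty := ⟨y₀, hy₀⟩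
  obtain ⟨i₁, hi₁⟩ := exists_coord (hp.maps y₀ hy₀)
  obtain ⟨D, γ, hγ, hv⟩ := hp.exists_rep hy₀
  have hmaps := hp.maps_iff hP' hG' hγ ⟨y₀, hy₀, hv⟩
  obtain ⟨m, D₁, α, hα, hαP, hrel⟩ := exists_eq_aux hz hz' hγ.hom hmaps hi₁ hj i
  refine ⟨m, D₁, α, hα, hαP, fun y hy x hx hyU hyx => ?_⟩
  obtain ⟨D', γ', hγ', hv'⟩ := hp.exists_rep hyU
  obtain ⟨k₀, hk₀⟩ : ∃ k, eval y₀.rep (γ k) ≠ 0 := by
    by_contra hcon
    push Not at hcon
    exact hv (funext hcon)
  have hkP : γ k₀ ∉ P' := fun h1 => hk₀ (hy₀.1 _ h1 D (hγ.hom k₀))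
  -- the same equation with the forms `γ'`
  have hGhom : (∑ l : Fin (m + 1), aeval γ' (α l) * X i ^ (l : ℕ) * X j ^ (m - (l : ℕ)) : MvPolynomial (Fin (M + 1)) ℂ).IsHomogeneous
      (D' * D₁ + m) := by
    refine IsHomogeneous.sum _ _ _ fun l _ => ?_
    have h1 := ((((hα l).aeval γ' hγ'.hom).mul ((isHomogeneous_X ℂ i).pow (l : ℕ))).mul ((isHomogeneous_X ℂ j).pow (m - l)))
    have h2 : D' * D₁ + 1 * (l : ℕ) + 1 * (m - l) = D' * D₁ + m := by
      have h3 : (l : ℕ) ≤ m := Nat.lt_succ_iff.1 l.2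
      omega
    rw [h2] at h1
    exact h1
  have hmem : γ k₀ ^ D₁ * (∑ l : Fin (m + 1), aeval γ' (α l) * X i ^ (l : ℕ) * X j ^ (m - (l : ℕ))) ∈ P' := by
    refine mem_of_open hP' hG' hne (((hγ.hom k₀).pow D₁).mul hGhom) fun w hw => ?_
    unfold VanishesAt
    rw [map_mul, map_pow, map_sum, Finset.mul_sum]
    have h4 : eval w.rep (γ k₀) • vals γ' w.rep = eval w.rep (γ' k₀) • vals γ w.rep := by
      funext i
      have h5 := hγ.prop hγ' hw k₀ i
      change eval w.rep (γ k₀) * eval w.rep (γ' i) = eval w.rep (γ' k₀) * eval w.rep (γ i)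
      rw [h5, mul_comm]
    have h5 : ∀ l : Fin (m + 1), eval w.rep (γ k₀) ^ D₁ * eval w.rep (aeval γ' (α l) * X i ^ (l : ℕ) * X j ^ (m - (l : ℕ))) =
        eval w.rep (γ' k₀) ^ D₁ * eval w.rep (aeval γ (α l) * X i ^ (l : ℕ) * X j ^ (m - (l : ℕ))) := by
      intro l
      have h6 : eval w.rep (γ k₀) ^ D₁ * eval w.rep (aeval γ' (α l)) = eval w.rep (γ' k₀) ^ D₁ * eval w.rep (aeval γ (α l)) := by
        rw [Pool.Agent.H7.Bir.eval_comp, Pool.Agent.H7.Bir.eval_comp, ← eval_smul (hα l), ← eval_smul (hα l), h4]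
      rw [map_mul, map_mul, map_mul, map_mul]
      linear_combination (eval w.rep (X i ^ (l : ℕ)) * eval w.rep (X j ^ (m - (l : ℕ)))) * h6
    rw [Finset.sum_congr rfl fun l _ => h5 l, ← Finset.mul_sum, ← map_sum]
    have h6 : eval w.rep (∑ l : Fin (m + 1), aeval γ (α l) * X i ^ (l : ℕ) * X j ^ (m - (l : ℕ))) = 0 := by
      have hGhom' : (∑ l : Fin (m + 1), aeval γ (α l) * X i ^ (l : ℕ) * X j ^ (m - (l : ℕ)) : MvPolynomial (Fin (M + 1)) ℂ).IsHomogeneous
          (D * D₁ + m) := by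
        refine IsHomogeneous.sum _ _ _ fun l _ => ?_
        have h1 := ((((hα l).aeval γ hγ.hom).mul ((isHomogeneous_X ℂ i).pow (l : ℕ))).mul ((isHomogeneous_X ℂ j).pow (m - l)))
        have h2 : D * D₁ + 1 * (l : ℕ) + 1 * (m - l) = D * D₁ + m := by
          have h3 : (l : ℕ) ≤ m := Nat.lt_succ_iff.1 l.2
          omega
        rw [h2] at h1
        exact h1
      exact hw.1 _ hrel _ hGhom'
    rw [h6, mul_zero]
  have hmem' := (Ideal.IsPrime.mem_or_mem inferInstance hmem).resolve_left fun h1 => hkP (Ideal.IsPrime.mem_of_pow_mem inferInstance D₁ h1)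
  have h1 : VanishesAt _ (Projectivization.mk ℂ y hy) := hyU.1 _ hmem' _ hGhom
  rw [vanishesAt_mk_iff hGhom, map_sum] at h1
  -- the coordinates of the image
  obtain ⟨a, ha⟩ := Projectivization.exists_smul_eq_mk_rep ℂ y hy
  have h2 : (Projectivization.mk ℂ y hy).rep = (a : ℂ) • y := ha.symm
  have hvy : vals γ' y ≠ 0 := by
    intro h0
    apply hv'
    rw [h2, Pool.Agent.H7.Bir.vals_smul hγ'.hom, h0, smul_zero]
  have h3 := hγ'.rep _ hyU hv'
  rw [hyx, Pool.Agent.H7.Bir.rmap_mk hγ'.hom hy hvy, Projectivization.mk_eq_mk_iff'] at h3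
  obtain ⟨b, hb⟩ := h3
  have h4 : ∀ l : Fin (m + 1), eval x (α l) * y i ^ (l : ℕ) * y j ^ (m - (l : ℕ)) =
      b ^ D₁ * eval y (aeval γ' (α l) * X i ^ (l : ℕ) * X j ^ (m - (l : ℕ))) := by
    intro l
    rw [map_mul, map_mul, map_pow, map_pow, eval_X, eval_X, Pool.Agent.H7.Bir.eval_comp, ← hb, eval_smul (hα l)]
    ring
  rw [Finset.sum_congr rfl fun l _ => h4 l, ← Finset.mul_sum, h1, mul_zero]

end Pool.Agent.H7.Qup

end
end

section

/-!
# MQL PBa: the identity theorem for a form `G (x, x ∧ v)` on an irreducible smooth cone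

`dense_form`: if `G (x₀, x₀ ∧ v₀) ≠ 0` for one tangent vector `v₀`, then the points `x` of the cone with `G (x, x ∧ v) ≠ 0` for a tangent vector `v` are dense.

Polynomials `V` with `V (x)` tangent for every `x` in the cone and `V (x₀) = v₀`: let `B (x)` be the matrix of the gradients of `r = N - 2` elements of the ideal,
of rank `r` at `x₀`, and `B (x₀) A = 1`; then `V = det (B A) v₀ - A adj (B A) B v₀`.
-/

set_option autoImplicit false

open Topology Filter Metric MvPolynomial Matrix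

noncomputable section

namespace Pool.Agent.MQL

open Pool.Agent.H36.BP (EN)
open Pool.Agent.H17BP (Surface IsChart)
open Pool.Agent.H14.PP (Tan CurveAt)
open Pool.Agent.H62.FC (Homog)
open Pool.Agent.H17LG.Variety (FunField)
open Pool.Agent.H17EF (coneE LE)
open Pool.Agent.H13.SM (conTan cone exists_indep)
open Pool.Agent.MQ3 (webVal plk IsBihom)

/-! ## linear algebra -/

/-- a vector in the kernel of `B` -/
private def kv {R : Type*} [CommRing R] {r n : ℕ} (B : Matrix (Fin r) (Fin n) R) (A : Matrix (Fin n) (Fin r) R) (v : Fin n → R) : Fin n → R :=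
  (B * A).det • v - A *ᵥ ((B * A).adjugate *ᵥ (B *ᵥ v))

private theorem kv_ker {R : Type*} [CommRing R] {r n : ℕ} (B : Matrix (Fin r) (Fin n) R) (A : Matrix (Fin n) (Fin r) R) (v : Fin n → R) :
    B *ᵥ kv B A v = 0 := by
  unfold kv
  rw [mulVec_sub, mulVec_smul, mulVec_mulVec, mulVec_mulVec, mul_adjugate, smul_mulVec, one_mulVec, sub_self]

private theorem kv_one {R : Type*} [CommRing R] {r n : ℕ} {B : Matrix (Fin r) (Fin n) R} {A : Matrix (Fin n) (Fin r) R} {v : Fin n → R} (hBA : B * A = 1)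
    (hv : B *ᵥ v = 0) : kv B A v = v := by
  unfold kv
  rw [hBA, det_one, one_smul, hv, mulVec_zero, mulVec_zero, sub_zero]

private theorem kv_map {R S : Type*} [CommRing R] [CommRing S] (φ : R →+* S) {r n : ℕ} (B : Matrix (Fin r) (Fin n) R) (A : Matrix (Fin n) (Fin r) R)
    (v : Fin n → R) : (fun i => φ (kv B A v i)) = kv (B.map φ) (A.map φ) (fun i => φ (v i)) := by
  have h1 : (B * A).map φ = B.map φ * A.map φ := Matrix.map_mul
  have h2 : φ (B * A).det = (B.map φ * A.map φ).det := by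
    rw [RingHom.map_det, ← h1]
    rfl
  have h3 : (B * A).adjugate.map φ = (B.map φ * A.map φ).adjugate := by
    rw [← h1]
    exact RingHom.map_adjugate φ (B * A)
  funext i
  unfold kv
  simp only [Pi.sub_apply, Pi.smul_apply, smul_eq_mul, map_sub, map_mul, h2]
  congr 1
  rw [RingHom.map_mulVec]
  congr 1
  congr 1
  funext j
  simp only [Function.comp_apply]
  rw [RingHom.map_mulVec, h3]
  congr 2
  funext k
  simp only [Function.comp_apply]
  rw [RingHom.map_mulVec]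
  rfl

private theorem det_zero {r n : ℕ} {B : Matrix (Fin r) (Fin n) ℂ} (h : ¬ LinearIndependent ℂ B.row) (A : Matrix (Fin n) (Fin r) ℂ) : (B * A).det = 0 := by
  rw [Fintype.not_linearIndependent_iff] at h
  obtain ⟨c, hc, i, hi⟩ := h
  rw [← exists_vecMul_eq_zero_iff]
  have h1 : c ᵥ* B = 0 := by
    rw [vecMul_eq_sum]
    exact hc
  exact ⟨c, fun h => hi (congrFun h i), by rw [← vecMul_vecMul, h1, zero_vecMul]⟩

private theorem kv_zero {r n : ℕ} {B : Matrix (Fin r) (Fin n) ℂ} (h : ¬ LinearIndependent ℂ B.row) (A : Matrix (Fin n) (Fin r) ℂ) (v : Fin n → ℂ) :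
    kv B A v = 0 := by
  unfold kv
  have h1 : (B * A).adjugate *ᵥ (B *ᵥ v) = 0 := by
    rw [← cramer_eq_adjugate_mulVec]
    funext i
    rw [cramer_apply, Pi.zero_apply]
    have h2 : (B * A).updateCol i (B *ᵥ v) = B * A.updateCol i v := by
      ext j k
      by_cases hk : k = i
      · subst hk
        rw [updateCol_self, mul_apply]
        simp only [updateCol_self]
        rfl
      · rw [updateCol_ne hk, mul_apply, mul_apply]
        simp only [updateCol_ne hk]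
    rw [h2]
    exact det_zero h _
  rw [det_zero h, h1, zero_smul, mulVec_zero, sub_zero]

private theorem exists_right {r n : ℕ} {B : Matrix (Fin r) (Fin n) ℂ} (h : LinearIndependent ℂ B.row) : ∃ A : Matrix (Fin n) (Fin r) ℂ, B * A = 1 := by
  rw [← mulVec_surjective_iff_exists_right_inverse]
  have h1 : B.rank = r := by rw [h.rank_matrix, Fintype.card_fin]
  have h2 : LinearMap.range B.mulVecLin = ⊤ := by
    apply Submodule.eq_top_of_finrank_eq
    rw [Module.finrank_fintype_fun_eq_card, Fintype.card_fin]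
    exact h1
  exact LinearMap.range_eq_top.1 h2

private theorem ker_finrank {r n : ℕ} {B : Matrix (Fin r) (Fin n) ℂ} (h : LinearIndependent ℂ B.row) :
    r + Module.finrank ℂ (LinearMap.ker B.mulVecLin) = n := by
  have h1 : B.rank = r := by rw [h.rank_matrix, Fintype.card_fin]
  have h2 := LinearMap.finrank_range_add_finrank_ker B.mulVecLin
  rw [Module.finrank_fintype_fun_eq_card, Fintype.card_fin] at h2
  have h3 : Module.finrank ℂ (LinearMap.range B.mulVecLin) = r := h1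
  rw [h3] at h2
  exact h2

/-! ## tangent vectors of the cone -/

/-- the Zariski tangent space of the cone of a smooth surface has dimension three and consists of tangent vectors -/
theorem conTan_three {N : ℕ} {P : Ideal (MvPolynomial (Fin (N + 1)) ℂ)} [P.IsPrime] {z : Fin 2 → FunField P} (hP : Homog P)
    (hz : IsTranscendenceBasis ℂ z) (hsm : ∀ y : Fin (N + 1) → ℂ, y ≠ 0 → (∀ Q ∈ P, eval y Q = 0) → Module.finrank ℂ (conTan P y) ≤ 3) {x : EN N}
    (hx : x ∈ coneE P) : Module.finrank ℂ (conTan P ((LE N).symm x)) = 3 ∧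
      ∀ v : EN N, (LE N).symm v ∈ conTan P ((LE N).symm x) → Tan (coneE P) x v := by
  have hX : Surface (coneE P) := Pool.Agent.H90.SG.surface_coneE hP hz hsm
  obtain ⟨σ, τ, hσ, hσ0⟩ := hX.chart x hx
  have hli := (Pool.Agent.H90.SG.linInd_chart hσ).self_of_nhds
  -- curves
  have hcurve : ∀ (a : ℂ) (w : ℂ × ℂ), Tan (coneE P) x (fderiv ℂ σ 0 w + a • x) := by
    intro a w
    have hg : HasDerivAt (fun z : ℂ => z • w) w 0 := by
      simpa using (hasDerivAt_id (0 : ℂ)).smul_const w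
    have hσd : HasFDerivAt σ (fderiv ℂ σ 0) ((0 : ℂ) • w) := by
      rw [zero_smul]; exact hσ.σ_an.differentiableAt.hasFDerivAt
    have h1 : HasDerivAt (fun z : ℂ => σ (z • w)) (fderiv ℂ σ 0 w) 0 := hσd.comp_hasDerivAt (0 : ℂ) hg
    have h2 : HasDerivAt (fun z : ℂ => 1 + a * z) a 0 := by
      simpa using ((hasDerivAt_id (0 : ℂ)).const_mul a).const_add 1
    have h3 := h2.smul h1
    refine ⟨fun z => (1 + a * z) • σ (z • w), ⟨?_, ?_⟩, ?_, ?_⟩
    · have e1 : AnalyticAt ℂ (fun z : ℂ => z • w) 0 := (analyticAt_id).smul analyticAt_const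
      have e2 : AnalyticAt ℂ σ ((fun z : ℂ => z • w) 0) := by simpa using hσ.σ_an
      exact (analyticAt_const.add (analyticAt_const.mul analyticAt_id)).smul
        (AnalyticAt.comp (g := σ) (f := fun z : ℂ => z • w) e2 e1)
    · have c1 : Tendsto (fun z : ℂ => z • w) (𝓝 0) (𝓝 0) := by
        have : Continuous fun z : ℂ => z • w := by fun_prop
        simpa using this.tendsto 0
      have c2 : ∀ᶠ z : ℂ in 𝓝 0, (1 + a * z) ≠ 0 := by
        have : ContinuousAt (fun z : ℂ => 1 + a * z) 0 := by fun_prop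
        exact this.eventually_ne (by simp)
      filter_upwards [c1.eventually hσ.σ_mem, c2] with z hz1 hz2
      exact hX.smul _ hz1 _ hz2
    · simp [hσ0]
    · have h4 : deriv (fun z => (1 + a * z) • σ (z • w)) 0 = (1 + a * 0) • (fderiv ℂ σ 0) w + a • σ ((0 : ℂ) • w) := h3.deriv
      rw [h4]
      simp [hσ0]
  -- the span
  have hmem : ∀ u : EN N, Tan (coneE P) x u → (LE N).symm u ∈ conTan P ((LE N).symm x) := fun u hu => Pool.Agent.AD.P.conTan_of_tan hu
  have hdim : Module.finrank ℂ (conTan P ((LE N).symm x)) ≤ 3 := hsm _ hx.1 hx.2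
  set L : EN N →ₗ[ℂ] (Fin (N + 1) → ℂ) := ((LE N).symm : EN N →L[ℂ] (Fin (N + 1) → ℂ)).toLinearMap with hL
  have hLi : Function.Injective L := (LE N).symm.injective
  set b : Fin 3 → (Fin (N + 1) → ℂ) := L ∘ ![σ 0, fderiv ℂ σ 0 (1, 0), fderiv ℂ σ 0 (0, 1)] with hb
  have hbli : LinearIndependent ℂ b := hli.map' L (LinearMap.ker_eq_bot.2 hLi)
  have hb0 : b 0 = (LE N).symm x := by
    change (LE N).symm (σ 0) = _
    rw [hσ0]
  have hb1 : b 1 = (LE N).symm (fderiv ℂ σ 0 (1, 0)) := rfl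
  have hb2 : b 2 = (LE N).symm (fderiv ℂ σ 0 (0, 1)) := rfl
  have hbmem : ∀ i, b i ∈ conTan P ((LE N).symm x) := by
    rw [Fin.forall_fin_succ, Fin.forall_fin_succ, Fin.forall_fin_succ]
    refine ⟨?_, ?_, ?_, fun i => i.elim0⟩
    · have := hmem _ (hcurve 1 0)
      simp only [map_zero, zero_add, one_smul] at this
      rw [hb0]; exact this
    · have := hmem _ (hcurve 0 (1, 0))
      simp only [zero_smul, add_zero] at this
      exact this
    · have := hmem _ (hcurve 0 (0, 1))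
      simp only [zero_smul, add_zero] at this
      exact this
  have hspan : Submodule.span ℂ (Set.range b) = conTan P ((LE N).symm x) := by
    apply Submodule.eq_of_le_of_finrank_le
    · rw [Submodule.span_le]
      rintro _ ⟨i, rfl⟩
      exact hbmem i
    · rw [finrank_span_eq_card hbli]
      simpa using hdim
  refine ⟨?_, fun v hv => ?_⟩
  · rw [← hspan, finrank_span_eq_card hbli, Fintype.card_fin]
  · rw [← hspan, Submodule.mem_span_range_iff_exists_fun] at hv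
    obtain ⟨c, hc⟩ := hv
    have h1 : v = fderiv ℂ σ 0 (c 1, c 2) + c 0 • x := by
      apply (LE N).symm.injective
      rw [← hc, Fin.sum_univ_three]
      have e1 : ((c 1, c 2) : ℂ × ℂ) = c 1 • (1, 0) + c 2 • (0, 1) := by simp
      rw [e1, hb0, hb1, hb2]
      simp only [map_add, map_smul]
      abel
    rw [h1]
    exact hcurve _ _

/-- the polynomial tangent field -/
private theorem exists_field {N : ℕ} {P : Ideal (MvPolynomial (Fin (N + 1)) ℂ)} [P.IsPrime] (hP : Homog P) {z : Fin 2 → FunField P}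
    (hz : IsTranscendenceBasis ℂ z) (hsm : ∀ y : Fin (N + 1) → ℂ, y ≠ 0 → (∀ Q ∈ P, eval y Q = 0) → Module.finrank ℂ (conTan P y) ≤ 3)
    {x₀ v₀ : Fin (N + 1) → ℂ} (h0 : x₀ ≠ 0) (hx₀ : ∀ Q ∈ P, eval x₀ Q = 0) (hv₀ : v₀ ∈ conTan P x₀) :
    ∃ V : Fin (N + 1) → MvPolynomial (Fin (N + 1)) ℂ, (fun i => eval x₀ (V i)) = v₀ ∧
      ∀ x : Fin (N + 1) → ℂ, x ≠ 0 → (∀ Q ∈ P, eval x Q = 0) → (fun i => eval x (V i)) ∈ conTan P x := by
  obtain ⟨f, hfP, hfli⟩ := exists_indep (P := P) (n := 2) (hsm x₀ h0 hx₀)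
  set Bp : Matrix (Fin (N - 2)) (Fin (N + 1)) (MvPolynomial (Fin (N + 1)) ℂ) := fun j i => pderiv i (f j) with hBp
  have hfli' : LinearIndependent ℂ (Bp.map (eval x₀)).row := hfli
  obtain ⟨A, hA⟩ := exists_right hfli'
  have hAC : ∀ x : Fin (N + 1) → ℂ, (A.map (C : ℂ →+* MvPolynomial (Fin (N + 1)) ℂ)).map (eval x) = A := by
    intro x
    ext i j
    simp
  have hV : ∀ x : Fin (N + 1) → ℂ, (fun i => eval x (kv Bp (A.map C) (fun i => C (v₀ i)) i)) = kv (Bp.map (eval x)) A v₀ := by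
    intro x
    rw [kv_map (eval x), hAC]
    congr 1
    funext i
    simp
  have hmul : ∀ (x v : Fin (N + 1) → ℂ) (j : Fin (N - 2)), (Bp.map (eval x) *ᵥ v) j = ∑ i, v i * eval x (pderiv i (f j)) := by
    intro x v j
    simp only [mulVec, dotProduct, Matrix.map_apply, hBp]
    exact Finset.sum_congr rfl fun i _ => mul_comm _ _
  have hsub : ∀ x v : Fin (N + 1) → ℂ, v ∈ conTan P x → Bp.map (eval x) *ᵥ v = 0 := by
    intro x v hv
    funext j
    rw [hmul]
    exact hv _ (hfP j)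
  refine ⟨kv Bp (A.map C) fun i => C (v₀ i), ?_, fun x hx hxP => ?_⟩
  · rw [hV]
    exact kv_one hA (hsub _ _ hv₀)
  · rw [hV]
    by_cases hli : LinearIndependent ℂ (Bp.map (eval x)).row
    · have hxc : (LE N) x ∈ coneE P := by
        show (LE N).symm ((LE N) x) ∈ cone P
        rw [ContinuousLinearEquiv.symm_apply_apply]
        exact ⟨hx, hxP⟩
      have h3 := (conTan_three hP hz hsm hxc).1
      rw [ContinuousLinearEquiv.symm_apply_apply] at h3
      have hle : conTan P x ≤ LinearMap.ker (Bp.map (eval x)).mulVecLin := by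
        intro v hv
        rw [LinearMap.mem_ker, mulVecLin_apply]
        exact hsub x v hv
      have hdimk := ker_finrank hli
      have hN : 2 ≤ N := by
        have h4 := Submodule.finrank_le (conTan P x)
        rw [h3, Module.finrank_fintype_fun_eq_card, Fintype.card_fin] at h4
        omega
      have heq : conTan P x = LinearMap.ker (Bp.map (eval x)).mulVecLin := by
        apply Submodule.eq_of_le_of_finrank_le hle
        rw [h3]
        omega
      rw [heq, LinearMap.mem_ker, mulVecLin_apply]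
      exact kv_ker _ _ _
    · rw [kv_zero hli]
      exact (conTan P x).zero_mem

/-- all homogeneous components of a polynomial which vanishes on the multiples of `x` near `x` vanish at `x` -/
private theorem comp_zero {N : ℕ} {S : MvPolynomial (Fin (N + 1)) ℂ} {x : Fin (N + 1) → ℂ} (h : ∀ᶠ c : ℂ in 𝓝 1, eval (c • x) S = 0) (n : ℕ) :
    eval x (homogeneousComponent n S) = 0 := by
  have h1 : ∀ c : ℂ, eval (c • x) S = (∑ i ∈ Finset.range (S.totalDegree + 1), Polynomial.monomial i (eval x (homogeneousComponent i S))).eval c := by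
    intro c
    conv_lhs => rw [← MvPolynomial.sum_homogeneousComponent S]
    rw [map_sum, Polynomial.eval_finset_sum]
    refine Finset.sum_congr rfl fun i _ => ?_
    rw [Pool.Agent.AD.P.eval_smul_of_homog (homogeneousComponent_isHomogeneous i S), Polynomial.eval_monomial, mul_comm]
  have h2 : (∑ i ∈ Finset.range (S.totalDegree + 1), Polynomial.monomial i (eval x (homogeneousComponent i S))) = 0 := by
    apply Polynomial.eq_zero_of_infinite_isRoot
    have h3 : {c : ℂ | eval (c • x) S = 0} ∈ 𝓝 (1 : ℂ) := h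
    refine (infinite_of_mem_nhds (1 : ℂ) h3).mono ?_
    intro c hc
    show Polynomial.eval c _ = 0
    rw [← h1]
    exact hc
  by_cases hn : n ∈ Finset.range (S.totalDegree + 1)
  · have h4 := congrArg (fun q : Polynomial ℂ => q.coeff n) h2
    simp only [Polynomial.finset_sum_coeff, Polynomial.coeff_monomial, Polynomial.coeff_zero] at h4
    rw [Finset.sum_eq_single n] at h4
    · simpa using h4
    · intro i _ hi
      rw [if_neg hi]
    · intro h5
      exact absurd hn h5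
  · rw [homogeneousComponent_eq_zero _ _ (by rw [Finset.mem_range, not_lt] at hn; omega), map_zero]

/-- a polynomial vector field tangent to the cone, with a given value at one point -/
theorem exists_vfield {N : ℕ} {P : Ideal (MvPolynomial (Fin (N + 1)) ℂ)} [P.IsPrime] (hP : Homog P) {z : Fin 2 → FunField P}
    (hz : IsTranscendenceBasis ℂ z) (hsm : ∀ y : Fin (N + 1) → ℂ, y ≠ 0 → (∀ Q ∈ P, eval y Q = 0) → Module.finrank ℂ (conTan P y) ≤ 3)
    {x₀ v₀ : Fin (N + 1) → ℂ} (h0 : x₀ ≠ 0) (hx₀ : ∀ Q ∈ P, eval x₀ Q = 0) (hv₀ : v₀ ∈ conTan P x₀) :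
    ∃ (V : Fin (N + 1) → MvPolynomial (Fin (N + 1)) ℂ) (Δ : ℂ), Δ ≠ 0 ∧
      (∀ x : Fin (N + 1) → ℂ, x ≠ 0 → (∀ Q ∈ P, eval x Q = 0) → (fun l => eval x (V l)) ∈ conTan P x) ∧ ∀ l, eval x₀ (V l) = Δ * v₀ l := by
  obtain ⟨V, hV0, hV⟩ := exists_field hP hz hsm h0 hx₀ hv₀
  exact ⟨V, 1, one_ne_zero, hV, fun l => by rw [one_mul]; exact congrFun hV0 l⟩

/-- a polynomial which vanishes on the cone near one point of the cone lies in the ideal -/
theorem mem_of_eventually {N : ℕ} {P : Ideal (MvPolynomial (Fin (N + 1)) ℂ)} [P.IsPrime] (hP : Homog P) {z : Fin 2 → FunField P}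
    (hz : IsTranscendenceBasis ℂ z) (hsm : ∀ y : Fin (N + 1) → ℂ, y ≠ 0 → (∀ Q ∈ P, eval y Q = 0) → Module.finrank ℂ (conTan P y) ≤ 3)
    {S : MvPolynomial (Fin (N + 1)) ℂ} {x₁ : EN N} (hx₁ : x₁ ∈ coneE P) (hS : ∀ᶠ y in 𝓝 x₁, y ∈ coneE P → eval y.ofLp S = 0) : S ∈ P := by
  have hSW : ∀ᶠ x in 𝓝 x₁, x ∈ coneE P → ∀ n, eval x.ofLp (homogeneousComponent n S) = 0 := by
    filter_upwards [hS.eventually_nhds] with x hx hxc n
    apply comp_zero
    have h4 : Tendsto (fun c : ℂ => c • x) (𝓝 1) (𝓝 x) := by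
      have h5 : Continuous fun c : ℂ => c • x := by fun_prop
      simpa using h5.tendsto 1
    have h6 : ∀ᶠ c : ℂ in 𝓝 1, c ≠ 0 := isOpen_ne.eventually_mem (one_ne_zero)
    filter_upwards [h4.eventually hx, h6] with c hc hc0
    exact hc ((Pool.Agent.H90.SG.surface_coneE hP hz hsm).smul x hxc c hc0)
  obtain ⟨σ, τ, hσ, hσ0⟩ := (Pool.Agent.H90.SG.surface_coneE hP hz hsm).chart x₁ hx₁
  have hSP : ∀ n, homogeneousComponent n S ∈ P := by
    intro n
    by_contra hn
    have h1 := Pool.Agent.H90.SG.thin_coneE hP hz hsm (homogeneousComponent_isHomogeneous n S) hn hσ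
    have h2 : Tendsto σ (𝓝 0) (𝓝 x₁) := by
      rw [← hσ0]
      exact hσ.σ_an.continuousAt
    obtain ⟨p, hp1, hp2, hp3⟩ := (h1.and_eventually ((h2.eventually hSW).and hσ.σ_mem)).exists
    exact hp1 (hp2 hp3 n)
  rw [← MvPolynomial.sum_homogeneousComponent S]
  exact P.sum_mem fun i _ => hSP i

theorem exists_zero {N : ℕ} {P : Ideal (MvPolynomial (Fin (N + 1)) ℂ)} [P.IsPrime] (hP : Homog P) {z : Fin 2 → FunField P}
    (hz : IsTranscendenceBasis ℂ z) (hsm : ∀ y : Fin (N + 1) → ℂ, y ≠ 0 → (∀ Q ∈ P, eval y Q = 0) → Module.finrank ℂ (conTan P y) ≤ 3)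
    {S : MvPolynomial (Fin (N + 1)) ℂ} {x₁ : EN N} (hx₁ : x₁ ∈ coneE P) (hS : ∀ᶠ y in 𝓝 x₁, y ∈ coneE P → eval y.ofLp S = 0) :
    ∀ x ∈ coneE P, eval x.ofLp S = 0 := fun _ hx => hx.2 S (mem_of_eventually hP hz hsm hx₁ hS)

/-- **The identity theorem for a form `G (x, x ∧ v)`.** -/
theorem dense_form {N a m : ℕ} {P : Ideal (MvPolynomial (Fin (N + 1)) ℂ)} [P.IsPrime] (hP : Homog P) {z : Fin 2 → FunField P} (hz : IsTranscendenceBasis ℂ z)
    (hsm : ∀ y : Fin (N + 1) → ℂ, y ≠ 0 → (∀ Q ∈ P, eval y Q = 0) → Module.finrank ℂ (conTan P y) ≤ 3)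
    {G : MvPolynomial (Fin (N + 1) ⊕ Fin (N + 1) × Fin (N + 1)) ℂ} (hG : IsBihom a m G) {x₀ v₀ : Fin (N + 1) → ℂ} (h0 : x₀ ≠ 0)
    (hx₀ : ∀ Q ∈ P, eval x₀ Q = 0) (hv₀ : v₀ ∈ conTan P x₀) (hne : webVal G x₀ v₀ ≠ 0) :
    coneE P ⊆ closure {x | x ∈ coneE P ∧ ∃ v : EN N, Tan (coneE P) x v ∧ webVal G x.ofLp v.ofLp ≠ 0} := by
  intro x₁ hx₁
  by_contra hcl
  have hW : ∀ᶠ x in 𝓝 x₁, x ∈ coneE P → ∀ v : EN N, Tan (coneE P) x v → webVal G x.ofLp v.ofLp = 0 := by
    have h1 : (closure {x | x ∈ coneE P ∧ ∃ v : EN N, Tan (coneE P) x v ∧ webVal G x.ofLp v.ofLp ≠ 0})ᶜ ∈ 𝓝 x₁ := isClosed_closure.isOpen_compl.mem_nhds hcl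
    filter_upwards [h1] with x hx hxc v hv
    by_contra h2
    exact hx (subset_closure ⟨hxc, v, hv, h2⟩)
  obtain ⟨V, hV0, hV⟩ := exists_field hP hz hsm h0 hx₀ hv₀
  -- the polynomial
  obtain ⟨S, hS⟩ : ∃ S : MvPolynomial (Fin (N + 1)) ℂ, ∀ x : Fin (N + 1) → ℂ, eval x S = webVal G x fun i => eval x (V i) := by
    refine ⟨bind₁ (Sum.elim X fun s => X s.1 * V s.2 - X s.2 * V s.1) G, fun x => ?_⟩
    unfold webVal
    rw [← coe_aeval_eq_eval, ← coe_aeval_eq_eval]
    show aeval x (bind₁ _ G) = aeval _ G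
    rw [aeval_bind₁]
    congr 1
    apply congrArg
    funext s
    rcases s with i | s
    · simp
    · simp [plk, coe_aeval_eq_eval, aeval_eq_eval]
  have hS0 : S ∈ P := by
    refine mem_of_eventually hP hz hsm hx₁ ?_
    filter_upwards [hW] with x hx hxc
    have h2 := hV x.ofLp hxc.1 hxc.2
    rw [hS]
    obtain ⟨w, hw⟩ : ∃ w : Fin (N + 1) → ℂ, w = fun i => eval x.ofLp (V i) := ⟨_, rfl⟩
    rw [← hw] at h2 ⊢
    have h3 := (conTan_three hP hz hsm hxc).2 ((LE N) w) (by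
      rw [ContinuousLinearEquiv.symm_apply_apply]
      exact h2)
    have h4 := hx hxc _ h3
    have h5 : ((LE N) w).ofLp = w := rfl
    rw [h5] at h4
    exact h4
  apply hne
  rw [← hV0, ← hS]
  exact hx₀ S hS0

end Pool.Agent.MQL

end
end
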