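import Pool.Agent.H43.TL2.M104
import Pool.Agent.H43.TL2.M108
import Pool.Agent.H43.TL2.M119
import Pool.Agent.H43.TL2.M122
import Pool.Agent.H43.TL2.M64
import Pool.Agent.H43.TL2.M85

/-! The parts of this file: MQL.PBc, MQK.AxLa, MQK.AxLb, MQK.BdNL, MQK.ThL. -/

section

/-!
# MQL PBc: curves which satisfy an algebraic differential equation of order at most one

`exists_R_ode`: on a surface `U = X` or `U = X - {H₀ = 0}` of logarithmic general type the nonconstant entire curves `f` of order two such that all `f (c z)`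
satisfy one equation `G (F, F ∧ F') = 0` lie in one algebraic curve.
-/

set_option autoImplicit false

open Topology Filter Metric MvPolynomial

noncomputable section

namespace Pool.Agent.MQL.PB

open Pool.Agent.H36.BP (EN)
open Pool.Agent.H14.PP (Tan)
open Pool.Agent.H14.V (IsLift)
open Pool.Agent.H17 (PN VanishesAt HolomorphicInto)
open Pool.Agent.H17EF (projVar coneE)
open Pool.Agent.H13.OT (OrderTwo)
open Pool.Agent.H13.SM (conTan)
open Pool.Agent.H62.FC (Homog)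
open Pool.Agent.H62.SA (locVar OnBd)
open Pool.Agent.H17LG.Variety (FunField OnBoundary IsLogGeneralType)
open Pool.Agent.MQ3 (WDiff plk webVal IsBihom)
open Pool.Agent.SR2.T (Pt)

variable {N : ℕ}

/-- a polynomial which scales like a form is a form -/
theorem hom_of_scale {R : MvPolynomial (Fin (N + 1)) ℂ} {a : ℕ} (h : ∀ (c : ℂ) (x : Fin (N + 1) → ℂ), eval (fun i => c * x i) R = c ^ a * eval x R) :
    R.IsHomogeneous a := by
  have key : homogeneousComponent a R = R := by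
    refine MvPolynomial.funext fun x => ?_
    obtain ⟨p, hp⟩ : ∃ p : Polynomial ℂ, p = ∑ i ∈ Finset.range (R.totalDegree + 1), Polynomial.monomial i (eval x (homogeneousComponent i R)) := ⟨_, rfl⟩
    have h1 : p = Polynomial.monomial a (eval x R) := by
      refine Polynomial.funext fun c => ?_
      rw [hp, Polynomial.eval_finsetSum, Polynomial.eval_monomial]
      have h2 : eval (fun i => c * x i) R = ∑ i ∈ Finset.range (R.totalDegree + 1), c ^ i * eval x (homogeneousComponent i R) := by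
        conv_lhs => rw [← sum_homogeneousComponent R]
        rw [map_sum]
        refine Finset.sum_congr rfl fun i _ => ?_
        exact Pool.Agent.H17BP.eval_smul_form (homogeneousComponent_isHomogeneous i R) c x
      rw [h] at h2
      rw [mul_comm, h2]
      refine Finset.sum_congr rfl fun i _ => ?_
      rw [Polynomial.eval_monomial, mul_comm]
    have h3 : p.coeff a = eval x R := by rw [h1, Polynomial.coeff_monomial, if_pos rfl]
    rw [← h3, hp, Polynomial.finsetSum_coeff]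
    simp only [Polynomial.coeff_monomial]
    rw [Finset.sum_ite_eq' (Finset.range (R.totalDegree + 1)) a]
    split_ifs with h4
    · rfl
    · rw [homogeneousComponent_eq_zero a R (by
        rw [Finset.mem_range] at h4
        omega), map_zero]
  rw [← key]
  exact homogeneousComponent_isHomogeneous a R

/-- all lifts of the curve `f` satisfy the equation `G (F, F ∧ F') = 0` -/
def Sat (G : MvPolynomial (Fin (N + 1) ⊕ Fin (N + 1) × Fin (N + 1)) ℂ) (f : ℂ → PN N) : Prop :=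
  ∀ F : ℂ → Fin (N + 1) → ℂ, Differentiable ℂ F → (∀ z, Pt (F z) (f z)) → ∀ z, webVal G (F z) (deriv F z) = 0

/-- the weights of the variables -/
def wt (N : ℕ) : Fin (N + 1) ⊕ Fin (N + 1) × Fin (N + 1) → ℕ × ℕ := Sum.elim (fun _ => (1, 0)) fun _ => (0, 1)

theorem wt_scale (c d : ℂ) (x : Fin (N + 1) → ℂ) (p : Fin (N + 1) × Fin (N + 1) → ℂ) :
    (fun i => c ^ (wt N i).1 * d ^ (wt N i).2 * Sum.elim x p i) = Sum.elim (fun i => c * x i) fun s => d * p s := by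
  funext i
  rcases i with i | s
  · simp [wt]
  · simp [wt]

theorem isBihom_comp (n : ℕ × ℕ) (G : MvPolynomial (Fin (N + 1) ⊕ Fin (N + 1) × Fin (N + 1)) ℂ) : IsBihom n.1 n.2 (comp (wt N) n G) := by
  intro c d x p
  rw [← wt_scale]
  exact eval_comp_scale (wt N) n G (Sum.elim x p) c d

/-- the components of the equation are satisfied, too -/
theorem sat_comp {G : MvPolynomial (Fin (N + 1) ⊕ Fin (N + 1) × Fin (N + 1)) ℂ} {f : ℂ → PN N} (h : ∀ c : ℂ, c ≠ 0 → Sat G fun z => f (c * z))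
    (n : ℕ × ℕ) {F : ℂ → Fin (N + 1) → ℂ} (hF : Differentiable ℂ F) (hFf : ∀ z, Pt (F z) (f z)) (z : ℂ) :
    webVal (comp (wt N) n G) (F z) (deriv F z) = 0 := by
  refine comp_zero (fun c d hc hd => ?_) n
  rw [wt_scale]
  obtain ⟨b, hb⟩ : ∃ b : ℂ, b = d / c ^ 2 := ⟨_, rfl⟩
  have hb0 : b ≠ 0 := by
    rw [hb]
    exact div_ne_zero hd (pow_ne_zero 2 hc)
  obtain ⟨F', hF'⟩ : ∃ F' : ℂ → Fin (N + 1) → ℂ, F' = fun w => c • F (b * w) := ⟨_, rfl⟩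
  have hd' : ∀ w, HasDerivAt F' (c • b • deriv F (b * w)) w := by
    intro w
    have h1 : HasDerivAt (fun w : ℂ => b * w) b w := by
      simpa using (hasDerivAt_id w).const_mul b
    have h2 := ((hF (b * w)).hasDerivAt.scomp w h1).const_smul c
    rw [hF']
    exact h2
  have h1 := h b hb0 F' (fun w => (hd' w).differentiableAt) (fun w => by
    obtain ⟨h2, h3⟩ := hFf (b * w)
    rw [hF']
    refine ⟨smul_ne_zero hc h2, ?_⟩
    show f (b * w) = _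
    rw [h3, Projectivization.mk_eq_mk_iff']
    exact ⟨c⁻¹, by rw [smul_smul, inv_mul_cancel₀ hc, one_smul]⟩) (z / b)
  rw [(hd' _).deriv, hF'] at h1
  have h3 : b * (z / b) = z := mul_div_cancel₀ z hb0
  simp only [h3] at h1
  unfold webVal at h1
  have h4 : (plk (c • F z) (c • b • deriv F z)) = fun s => d * plk (F z) (deriv F z) s := by
    funext s
    simp only [plk, Pi.smul_apply, smul_eq_mul]
    rw [hb]
    field_simp
  rw [h4] at h1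
  exact h1

/-- circle averages and dilations -/
theorem circleAverage_dil (g : ℂ → ℝ) (c : ℂ) (r : ℝ) :
    Real.circleAverage (fun z => g (c * z)) 0 r = Real.circleAverage g 0 (‖c‖ * r) := by
  have hc : ∀ t : ℝ, c * circleMap 0 r t = circleMap 0 (‖c‖ * r) (t + c.arg) := by
    intro t
    have h1 := Complex.norm_mul_exp_arg_mul_I c
    simp only [circleMap, zero_add]
    push_cast
    rw [add_mul, Complex.exp_add]
    conv_lhs => rw [← h1]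
    ring
  rw [Real.circleAverage_def, Real.circleAverage_def]
  congr 1
  simp only [hc]
  rw [intervalIntegral.integral_comp_add_right (f := fun t => g (circleMap 0 (‖c‖ * r) t)) c.arg]
  have hper : Function.Periodic (fun t => g (circleMap 0 (‖c‖ * r) t)) (2 * Real.pi) := (periodic_circleMap 0 (‖c‖ * r)).comp g
  have h2 := hper.intervalIntegral_add_eq (0 + c.arg) 0
  rw [show (0 : ℝ) + c.arg + 2 * Real.pi = 2 * Real.pi + c.arg by ring, zero_add (2 * Real.pi)] at h2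
  exact h2

/-- the composition of a curve of order two with a dilation -/
theorem orderTwo_mul {f : ℂ → PN N} (hf : OrderTwo f) {c : ℂ} (hc : c ≠ 0) : OrderTwo fun z => f (c * z) := by
  obtain ⟨F, A, hF, hFf, hA⟩ := hf
  refine ⟨fun z => F (c * z), |A| * (1 + ‖c‖ ^ 2), hF.comp ((differentiable_const c).mul differentiable_id), fun z => hFf (c * z), fun r hr => ?_⟩
  have hcn : 0 < ‖c‖ := norm_pos_iff.2 hc
  have h1 : Real.circleAverage (fun z => Real.log ‖F (c * z)‖) 0 r = Real.circleAverage (fun z => Real.log ‖F z‖) 0 (‖c‖ * r) :=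
    circleAverage_dil (fun z => Real.log ‖F z‖) c r
  rw [h1]
  refine (hA _ (mul_pos hcn hr)).trans ?_
  have h2 : (0 : ℝ) ≤ 1 + (‖c‖ * r) ^ 2 := by positivity
  have h3 : 1 + (‖c‖ * r) ^ 2 ≤ (1 + ‖c‖ ^ 2) * (1 + r ^ 2) := by nlinarith [sq_nonneg ‖c‖, sq_nonneg r]
  calc A * (1 + (‖c‖ * r) ^ 2) ≤ |A| * (1 + (‖c‖ * r) ^ 2) := mul_le_mul_of_nonneg_right (le_abs_self A) h2
    _ ≤ |A| * ((1 + ‖c‖ ^ 2) * (1 + r ^ 2)) := mul_le_mul_of_nonneg_left h3 (abs_nonneg A)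
    _ = _ := by ring

/-- an equation of degree zero in the derivatives is given by a form -/
theorem exists_form_zero {a : ℕ} {G : MvPolynomial (Fin (N + 1) ⊕ Fin (N + 1) × Fin (N + 1)) ℂ} (hG : IsBihom a 0 G) :
    ∃ R : MvPolynomial (Fin (N + 1)) ℂ, R.IsHomogeneous a ∧ ∀ x v, eval x R = webVal G x v := by
  obtain ⟨R, hR⟩ : ∃ R : MvPolynomial (Fin (N + 1)) ℂ, R = aeval (Sum.elim X fun _ => 0) G := ⟨_, rfl⟩
  have h1 : ∀ x : Fin (N + 1) → ℂ, eval x R = eval (Sum.elim x fun _ => 0) G := by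
    intro x
    rw [hR, ← aeval_eq_eval x, ← AlgHom.comp_apply, comp_aeval, aeval_eq_eval]
    congr 2
    funext i
    rcases i with i | i
    · simp
    · simp
  have h2 : ∀ (x : Fin (N + 1) → ℂ) (p : Fin (N + 1) × Fin (N + 1) → ℂ), eval x R = eval (Sum.elim x p) G := by
    intro x p
    have h3 := hG 1 0 x p
    simp only [one_mul, zero_mul, one_pow, pow_zero] at h3
    rw [h1, h3]
  refine ⟨R, hom_of_scale fun c x => ?_, fun x v => h2 x (plk x v)⟩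
  have h3 := hG c 1 x fun _ => 0
  simp only [mul_zero, one_pow, mul_one] at h3
  rw [h1, h1, h3]

/-- McQuillan's theorem for `U = locVar P G`: the nonconstant entire curves of order two in `U` which are tangent to a symmetric differential (of any
weight) on the surface, which is not `0` on a dense set, lie in one algebraic curve -/
def HasR (P : Ideal (MvPolynomial (Fin (N + 1)) ℂ)) {s : ℕ} (Gs : Fin s → MvPolynomial (Fin (N + 1)) ℂ) : Prop :=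
  ∀ (m : ℕ), 1 ≤ m → ∀ θ : WDiff (coneE P) m, coneE P ⊆ closure {x | x ∈ coneE P ∧ ∃ v, Tan (coneE P) x v ∧ θ.toFun x v ≠ 0} →
    ∃ (R : MvPolynomial (Fin (N + 1)) ℂ) (d : ℕ), R.IsHomogeneous d ∧ R ∉ P ∧ ∀ F : ℂ → EN N, Differentiable ℂ F → (∀ z, F z ∈ coneE P) →
      (∀ z, ∃ i, eval (F z).ofLp (Gs i) ≠ 0) → (∃ A : ℝ, ∀ r : ℝ, 0 < r → Real.circleAverage (fun z => Real.log ‖F z‖) 0 r ≤ A * (1 + r ^ 2)) →
      (∃ z w, ∀ c : ℂ, F z ≠ c • F w) → (∀ z, θ.toFun (F z) (deriv F z) = 0) → ∀ z, eval (F z).ofLp R = 0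

/-- **Curves which satisfy an algebraic differential equation of order at most one.** -/
theorem exists_R_ode {P : Ideal (MvPolynomial (Fin (N + 1)) ℂ)} [P.IsPrime] (hP : Homog P) (hdim : ∃ z : Fin 2 → FunField P, IsTranscendenceBasis ℂ z)
    (hsmooth : Pool.Agent.AD.NC.IsSmooth P 2) {s : ℕ} {Gs : Fin s → MvPolynomial (Fin (N + 1)) ℂ} (hGs : ∀ i, ∃ n, (Gs i).IsHomogeneous n)
    (hcur : HasR P Gs)
    {G : MvPolynomial (Fin (N + 1) ⊕ Fin (N + 1) × Fin (N + 1)) ℂ} {x₀ v₀ : Fin (N + 1) → ℂ} (h0 : x₀ ≠ 0) (hx₀ : ∀ Q ∈ P, eval x₀ Q = 0)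
    (hv₀ : v₀ ∈ conTan P x₀) (hne : webVal G x₀ v₀ ≠ 0) :
    ∃ (R : MvPolynomial (Fin (N + 1)) ℂ) (d : ℕ), R.IsHomogeneous d ∧ R ∉ P ∧ ∀ f : ℂ → PN N, OrderTwo f →
      (∀ z, f z ∈ locVar P Gs) → (∃ z w, f z ≠ f w) → (∀ c : ℂ, c ≠ 0 → Sat G fun z => f (c * z)) → ∀ z, VanishesAt R (f z) := by
  obtain ⟨z, hz⟩ := id hdim
  have hsm : ∀ y : Fin (N + 1) → ℂ, y ≠ 0 → (∀ Q ∈ P, eval y Q = 0) → Module.finrank ℂ (conTan P y) ≤ 3 :=
    fun y h0 h1 => hsmooth y h0 h1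
  obtain ⟨n, hn⟩ := exists_comp (w := wt N) hne
  have hb := isBihom_comp n G
  have lift : ∀ f : ℂ → PN N, OrderTwo f → ∃ F : ℂ → Fin (N + 1) → ℂ, Differentiable ℂ F ∧ ∀ z, Pt (F z) (f z) := by
    rintro f ⟨F, A, hF, hFf, hA⟩
    exact ⟨F, hF, hFf⟩
  rcases Nat.eq_zero_or_pos n.2 with h2 | h2
  · rw [h2] at hb
    obtain ⟨R, hR, hR'⟩ := exists_form_zero hb
    refine ⟨R, n.1, hR, fun hRP => ?_, fun f hf hfU hfn hs w => ?_⟩
    · have h3 : eval x₀ R = 0 := hx₀ R hRP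
      rw [hR' x₀ v₀] at h3
      exact hn h3
    · obtain ⟨F, hF, hFf⟩ := lift f hf
      obtain ⟨h4, h5⟩ := hFf w
      rw [h5, Pool.Agent.H17BP.vanishesAt_mk hR h4, hR' (F w) (deriv F w)]
      exact sat_comp hs n hF hFf w
  · have hden := Pool.Agent.MQL.dense_form hP hz hsm hb h0 hx₀ hv₀ hn
    obtain ⟨R, d, hR, hRP, h⟩ := hcur n.2 h2 (WDiff.ofForm (coneE P) hb) hden
    refine ⟨R, d, hR, hRP, fun f hf hfU hfn hs w => ?_⟩
    obtain ⟨F, hF, hFf⟩ := lift f hf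
    obtain ⟨F', hF'⟩ : ∃ F' : ℂ → EN N, F' = fun z => WithLp.toLp 2 (F z) := ⟨_, rfl⟩
    have hl : IsLift F' f := by
      rw [hF']
      exact ⟨(Pool.Agent.H17EF.LE N).differentiable.comp hF, fun z => hFf z⟩
    have hd : ∀ z, (deriv F' z).ofLp = deriv F z := by
      intro z
      have h3 : HasDerivAt F' ((Pool.Agent.H17EF.LE N) (deriv F z)) z := by
        rw [hF']
        exact (Pool.Agent.H17EF.LE N).hasFDerivAt.comp_hasDerivAt z (hF z).hasDerivAt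
      rw [h3.deriv]
      rfl
    rw [Pool.Agent.H22.WL.vanishesAt_lift hl hR w]
    refine h F' hl.1 (fun z => (hl.mem_iff hP z).1 (hfU z).1) (fun z => ?_) (Pool.Agent.MQ.growth_of_orderTwo hf hl) ?_ (fun z => ?_) w
    · obtain ⟨m, hm⟩ := (hfU z).2
      obtain ⟨k, hk⟩ := hGs m
      exact ⟨m, fun h0 => hm ((Pool.Agent.H22.WL.vanishesAt_lift hl hk z).2 h0)⟩
    · obtain ⟨a, b, hab⟩ := hfn
      refine ⟨a, b, fun c hc => hab ?_⟩
      obtain ⟨h1, h2⟩ := hl.2 a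
      obtain ⟨h3, h4⟩ := hl.2 b
      rw [h2, h4, Projectivization.mk_eq_mk_iff']
      exact ⟨c, by rw [hc]; rfl⟩
    · show webVal (comp (wt N) n G) (F' z).ofLp (deriv F' z).ofLp = 0
      rw [hd z, show (F' z).ofLp = F z by rw [hF']]
      exact sat_comp hs n hF hFf z

end Pool.Agent.MQL.PB

end
end

section

/-!
# MQK AxLa: the curves avoid the axes with a negative exponent
-/

set_option autoImplicit false

open Topology Filter Metric MvPolynomial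

noncomputable section

namespace Pool.Agent.MQK

open Pool.Agent.MQL

open Pool.Agent.H36.BP (EN)
open Pool.Agent.H17BP (Surface)
open Pool.Agent.H17EF (coneE)
open Pool.Agent.MQ3

variable {M : ℕ} {P : Ideal (MvPolynomial (Fin (M + 1)) ℂ)} {RD Ra : MvPolynomial (Fin (M + 1)) ℂ} {Ko : Set (EN M)} {m : ℕ} {X : NCModel P RD} {θ : WDiff (coneE P) m}
  {l : LF M} {S : Web X θ l} {mK : ℕ}

/-- the curves avoid the boundary upstairs -/
private theorem AxLa_ne (ho : Pool.Agent.H36.BPL.OpenPart (coneE P) Ko) (k : S.ι) {F : ℂ → EN M} (hF : LCrv θ RD Ko Ra F) (Y : NCLift X F) {z : ℂ}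
    (hz : z ∈ S.Om Y k) : S.σ k (S.lf Y k z) ∈ Ko := by
  obtain ⟨c, hc, h1⟩ := Y.eq k.1 z (Om_sub hF.toWCrv Y k hz)
  have h2 : S.σ k (S.lf Y k z) = X.ρ k.1 (Y.p k.1 z) := by
    unfold Web.σ
    rw [(lfN_mem hF.toWCrv Y k z hz).2]
  have h3 := hF.avoid z
  rw [h1] at h3
  rw [h2]
  exact (smul_mem_iff ho hc).1 h3

theorem avoidL (_hX : Surface (coneE P)) (hD : DivB P RD Ko) (k : S.ι) {q : ℂ × ℂ} (_hq : q ∈ S.D k) : ∀ᶠ r in 𝓝[>] (0 : ℝ), ∀ F : ℂ → EN M, LCrv θ RD Ko Ra F →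
    ∀ Y : NCLift X F, Avoid (exX Ko mK (S.σ k) q) (exY Ko mK (S.σ k) q) {z | z ∈ S.Om Y k ∧ S.lf Y k z ∈ ball q r} fun z => S.lf Y k z - q := by
  classical
  have h1 : ∀ᶠ r in 𝓝[>] (0 : ℝ), exX Ko mK (S.σ k) q < 0 → ∀ t : ℂ, ‖t‖ < r → S.σ k (q.1, q.2 + t) ∉ Ko := by
    by_cases hc : ∀ᶠ t in 𝓝 (0 : ℂ), S.σ k (q.1, q.2 + t) ∉ Ko
    · obtain ⟨δ, hδ, h⟩ := Metric.eventually_nhds_iff.1 hc
      filter_upwards [Ioo_mem_nhdsGT hδ] with r hr _ t ht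
      exact h (by rw [dist_zero_right]; exact ht.trans hr.2)
    · filter_upwards with r hr
      rw [exX, if_neg hc] at hr
      exact absurd hr (lt_irrefl _)
  have h2 : ∀ᶠ r in 𝓝[>] (0 : ℝ), exY Ko mK (S.σ k) q < 0 → ∀ t : ℂ, ‖t‖ < r → S.σ k (q.1 + t, q.2) ∉ Ko := by
    by_cases hc : ∀ᶠ t in 𝓝 (0 : ℂ), S.σ k (q.1 + t, q.2) ∉ Ko
    · obtain ⟨δ, hδ, h⟩ := Metric.eventually_nhds_iff.1 hc
      filter_upwards [Ioo_mem_nhdsGT hδ] with r hr _ t ht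
      exact h (by rw [dist_zero_right]; exact ht.trans hr.2)
    · filter_upwards with r hr
      rw [exY, if_neg hc] at hr
      exact absurd hr (lt_irrefl _)
  filter_upwards [h1, h2] with r g1 g2 F hF Y
  refine ⟨fun hx z hz h0 => ?_, fun hy z hz h0 => ?_⟩
  · have h3 : ‖(S.lf Y k z).2 - q.2‖ < r := by
      have h4 := hz.2
      rw [mem_ball, dist_eq_norm] at h4
      exact (norm_snd_le (S.lf Y k z - q)).trans_lt h4
    have h5 : (q.1, q.2 + ((S.lf Y k z).2 - q.2)) = S.lf Y k z := by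
      refine Prod.ext ?_ (add_sub_cancel _ _)
      exact (sub_eq_zero.1 h0).symm
    have h6 := g1 hx _ h3
    rw [h5] at h6
    exact h6 (AxLa_ne hD.op k hF Y hz.1)
  · have h3 : ‖(S.lf Y k z).1 - q.1‖ < r := by
      have h4 := hz.2
      rw [mem_ball, dist_eq_norm] at h4
      exact (norm_fst_le (S.lf Y k z - q)).trans_lt h4
    have h5 : (q.1 + ((S.lf Y k z).1 - q.1), q.2) = S.lf Y k z := by
      refine Prod.ext (add_sub_cancel _ _) ?_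
      exact (sub_eq_zero.1 h0).symm
    have h6 := g2 hy _ h3
    rw [h5] at h6
    exact h6 (AxLa_ne hD.op k hF Y hz.1)

end Pool.Agent.MQK

end
end

section

/-!
# MQK AxLb: the weight contains the invariant axes in `D`
-/

set_option autoImplicit false

open Topology Filter Metric MvPolynomial

noncomputable section

namespace Pool.Agent.MQK

open Pool.Agent.MQL

open Pool.Agent.H36.BP (EN)
open Pool.Agent.H17BP (Surface)
open Pool.Agent.H17EF (coneE)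
open Pool.Agent.MQ3

variable {M : ℕ} {P : Ideal (MvPolynomial (Fin (M + 1)) ℂ)} {RD Ra : MvPolynomial (Fin (M + 1)) ℂ} {Ko : Set (EN M)} {m : ℕ} {X : NCModel P RD} {θ : WDiff (coneE P) m}
  {l : LF M} {S : Web X θ l} {mK : ℕ}

private theorem D_open (k : S.ι) : IsOpen (S.D k) := by
  have h1 : IsOpen ((S.c k).D) := isOpen_Dm
  have h2 : Continuous (S.κ k) := continuous_iff_continuousAt.2 fun q => (analyticAt_mono (w := (S.c k).w) (w' := (S.c k).w') q).continuousAt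
  exact h1.inter ((X.isOpen k.1).preimage h2)

private theorem mem_cone {k : S.ι} {q : ℂ × ℂ} (hq : q ∈ S.D k) : S.σ k q ∈ coneE P := by
  have h1 : S.κ k q ∈ DD := X.sub k.1 hq.2
  exact ((X.box k.1).mem _ h1.1.le h1.2.le).self_of_nhds

/-- the equation vanishes on an invariant line in `D` -/
private theorem line_zero (hD : DivB P RD Ko) {k : S.ι} {q : ℂ × ℂ} (hq : q ∈ S.D k) {g : ℂ × ℂ → ℂ} (hg : AnalyticAt ℂ g q)
    (hinv : ∀ᶠ x in 𝓝[≠] q, InvAt S Ra k x g) {L : ℂ → ℂ × ℂ} {w : ℂ × ℂ} (hL0 : L 0 = q) (hL : ∀ t, HasDerivAt L w t) (hne : ∀ t, t ≠ 0 → L t ≠ q)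
    (h0 : ∀ᶠ t in 𝓝 (0 : ℂ), S.σ k (L t) ∉ Ko) (hv : ∀ᶠ t in 𝓝 (0 : ℂ), ∃ c : ℂ, S.v k (L t) = c • w) :
    ∀ᶠ t in 𝓝 (0 : ℂ), g (L t) = 0 := by
  have hLc : ∀ t, ContinuousAt L t := fun t => (hL t).continuousAt
  have hLt : Tendsto L (𝓝 0) (𝓝 q) := by
    have := (hLc 0).tendsto
    rwa [hL0] at this
  have hLt' : Tendsto L (𝓝[≠] 0) (𝓝[≠] q) := by
    refine tendsto_nhdsWithin_iff.2 ⟨hLt.mono_left nhdsWithin_le_nhds, ?_⟩
    filter_upwards [self_mem_nhdsWithin] with t ht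
    exact hne t ht
  have hR : ∀ᶠ t in 𝓝 (0 : ℂ), eval (S.σ k (L t)).ofLp (RD * Ra) = 0 := by
    filter_upwards [h0, hLt.eventually ((D_open k).mem_nhds hq)] with t h1 h2
    rw [map_mul, hD.le _ (mem_cone h2) h1, zero_mul]
  have key : ∀ᶠ t in 𝓝[≠] (0 : ℂ), g (L t) = 0 := by
    filter_upwards [hLt'.eventually hinv, nhdsWithin_le_nhds hR.eventually_nhds, nhdsWithin_le_nhds hv] with t h1 h2 h3
    obtain ⟨hga, -, -, h, hha, hz, hh⟩ := h1
    by_contra hgt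
    have h4 : ∀ᶠ t' in 𝓝 t, h (L t') = 0 := by
      filter_upwards [h2, (hLc t).tendsto.eventually hz, (hga.continuousAt.comp (hLc t)).eventually_ne hgt] with t' h5 h6 h7
      exact (mul_eq_zero.1 (h6.1 h5)).resolve_left h7
    have h5 : HasDerivAt (fun t' => h (L t')) (fderiv ℂ h (L t) w) t := hha.differentiableAt.hasFDerivAt.comp_hasDerivAt t (hL t)
    have h6 : fderiv ℂ h (L t) w = 0 := by
      rw [← h5.deriv]
      have h7 : (fun t' => h (L t')) =ᶠ[𝓝 t] fun _ => 0 := h4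
      rw [h7.deriv_eq, deriv_const]
    obtain ⟨c, hc⟩ := h3
    refine (hh.self_of_nhds h4.self_of_nhds).2 ?_
    rw [hc, map_smul, h6, smul_zero]
  have hgc : ContinuousAt (fun t => g (L t)) 0 := by
    refine ContinuousAt.comp (g := g) (f := L) ?_ (hLc 0)
    rw [hL0]
    exact hg.continuousAt
  have h00 : g (L 0) = 0 := by
    have h1 : Tendsto (fun t => g (L t)) (𝓝[≠] 0) (𝓝 (g (L 0))) := hgc.tendsto.mono_left nhdsWithin_le_nhds
    have h2 : Tendsto (fun t => g (L t)) (𝓝[≠] (0 : ℂ)) (𝓝 0) := tendsto_const_nhds.congr' (key.mono fun t ht => ht.symm)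
    exact tendsto_nhds_unique h1 h2
  rw [eventually_nhdsWithin_iff] at key
  filter_upwards [key] with t ht
  by_cases h : t = 0
  · rw [h, h00]
  · exact ht h

/-- **The weight contains the invariant axes in `D`.** -/
theorem axW_of (hX : Surface (coneE P)) (hD : DivB P RD Ko) {k : S.ι} {q : ℂ × ℂ} (hq : q ∈ S.D k) {g : ℂ × ℂ → ℂ} (hg : AnalyticAt ℂ g q)
    (hinv : ∀ᶠ x in 𝓝[≠] q, InvAt S Ra k x g) :
    AxW (exX Ko mK (S.σ k) q) (exY Ko mK (S.σ k) q) (fun x => S.v k (q + x)) fun x => g (q + x) := by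
  have _ := hX
  have hga : AnalyticAt ℂ (fun x => g (q + x)) 0 := by
    refine AnalyticAt.fun_comp (g := g) (f := fun x : ℂ × ℂ => q + x) ?_ (by fun_prop)
    rwa [add_zero]
  have e1 : ∀ t : ℂ, q + ((0 : ℂ), t) = (q.1, q.2 + t) := fun t => Prod.ext (add_zero _) rfl
  have e2 : ∀ t : ℂ, q + (t, (0 : ℂ)) = (q.1 + t, q.2) := fun t => Prod.ext rfl (add_zero _)
  refine ⟨fun hal hv => ?_, fun hbe hv => ?_⟩
  · have h0 : ∀ᶠ t in 𝓝 (0 : ℂ), S.σ k (q.1, q.2 + t) ∉ Ko := by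
      by_contra hcon
      rw [exX, if_neg hcon] at hal
      exact lt_irrefl _ hal
    have h1 : ∀ᶠ t in 𝓝 (0 : ℂ), g (q.1, q.2 + t) = 0 := by
      refine line_zero (L := fun t => (q.1, q.2 + t)) (w := (0, 1)) hD hq hg hinv (by simp) (fun t => ?_) (fun t ht h => ?_) h0 ?_
      · exact (hasDerivAt_const t q.1).prodMk ((hasDerivAt_id t).const_add q.2)
      · exact ht (add_eq_left.1 (congrArg Prod.snd h))
      · filter_upwards [hv] with t ht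
        rw [e1] at ht
        exact ⟨(S.v k (q.1, q.2 + t)).2, Prod.ext (by simp [ht]) (by simp)⟩
    obtain ⟨g₀, hg₀, h2⟩ := Pool.Agent.H17BP.exists_div_x hga (by
      filter_upwards [h1] with t ht
      rw [e1]
      exact ht)
    exact ⟨g₀, hg₀, h2⟩
  · have h0 : ∀ᶠ t in 𝓝 (0 : ℂ), S.σ k (q.1 + t, q.2) ∉ Ko := by
      by_contra hcon
      rw [exY, if_neg hcon] at hbe
      exact lt_irrefl _ hbe
    have h1 : ∀ᶠ t in 𝓝 (0 : ℂ), g (q.1 + t, q.2) = 0 := by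
      refine line_zero (L := fun t => (q.1 + t, q.2)) (w := (1, 0)) hD hq hg hinv (by simp) (fun t => ?_) (fun t ht h => ?_) h0 ?_
      · exact ((hasDerivAt_id t).const_add q.1).prodMk (hasDerivAt_const t q.2)
      · exact ht (add_eq_left.1 (congrArg Prod.fst h))
      · filter_upwards [hv] with t ht
        rw [e2] at ht
        exact ⟨(S.v k (q.1 + t, q.2)).1, Prod.ext (by simp) (by simp [ht])⟩
    have hs : AnalyticAt ℂ (fun x : ℂ × ℂ => (x.2, x.1)) 0 := analyticAt_snd.prod analyticAt_fst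
    have hst : Tendsto (fun x : ℂ × ℂ => (x.2, x.1)) (𝓝 0) (𝓝 0) := (by fun_prop : Continuous fun x : ℂ × ℂ => (x.2, x.1)).tendsto' _ _ rfl
    obtain ⟨g₀, hg₀, h2⟩ := Pool.Agent.H17BP.exists_div_x (f := fun x : ℂ × ℂ => g (q + (x.2, x.1)))
      (AnalyticAt.fun_comp (g := fun x : ℂ × ℂ => g (q + x)) (f := fun x : ℂ × ℂ => (x.2, x.1)) hga hs) (by
      filter_upwards [h1] with t ht
      show g (q + (t, 0)) = 0
      rw [e2]
      exact ht)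
    refine ⟨fun x => g₀ (x.2, x.1), AnalyticAt.fun_comp (g := g₀) (f := fun x : ℂ × ℂ => (x.2, x.1)) hg₀ hs, ?_⟩
    filter_upwards [hst.eventually h2] with x hx
    exact hx

end Pool.Agent.MQK

end
end

section

/-!
# MQK BdNL: the potentials differ by bounded functions (logarithmic version, port of MQ3/BdN and MQ3/BdPN)
-/

set_option autoImplicit false

open Topology Filter Metric MvPolynomial MeasureTheory Laplacian

noncomputable section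

namespace Pool.Agent.MQK

open Pool.Agent.MQL

open Pool.Agent.H36.BP (EN fs)
open Pool.Agent.H14.PP (Tan)
open Pool.Agent.H17BP (Surface IsForm)
open Pool.Agent.H17EF (projVar coneE)
open Pool.Agent.H30M (tau LogSing)
open Pool.Agent.MQ (lam En ztv dvg gr dv)
open Pool.Agent.MQ3

variable {M : ℕ} {P : Ideal (MvPolynomial (Fin (M + 1)) ℂ)} {RD Ra : MvPolynomial (Fin (M + 1)) ℂ} {Ko : Set (EN M)} {m : ℕ} {X : NCModel P RD} {θ : WDiff (coneE P) m}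
  {l : LF M} {S : Web X θ l} {Wf : EN M → EN M → EN M → ℂ} {mK jH : ℕ}

namespace BdNL

/-- the local bound -/
theorem loc (hX : Surface (coneE P)) (hW : LW P Ko mK jH Wf) {i j : X.ι} {H H' : ℂ × ℂ → ℂ × ℂ → EN 2} {Φ : ℂ × ℂ → ℂ × ℂ}
    {p : ℂ × ℂ} (h : Chg X i j Φ p) (hV : VRel H H' Φ p) :
    ∃ N ∈ 𝓝 p, ∃ B : ℝ, ∀ F : ℂ → EN M, (∀ z, F z ∈ Ko) → ∀ Y : NCLift X F, ∀ z, z ∈ Y.U i → z ∈ Y.U j → Y.p i z ∈ N →
      |eN H Wf mK jH Y i z - eN H' Wf mK jH Y j z| ≤ B := by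
  have hm := hW.one_m
  obtain ⟨A, A', hA, hA', hrel⟩ := hV
  have hJ := Pool.Agent.MQ3.jc_an h.an
  have hJ0 := BdN.jc_ne h.det
  have hJc : ContinuousAt (fun x => Real.log ‖jc Φ x‖) p := hJ.continuousAt.norm.log (norm_ne_zero_iff.2 hJ0)
  refine ⟨_, (BdN.Chg.ev h).and (hrel.and ((hA.continuousAt.norm.eventually_lt_const (lt_add_one ‖A p‖)).and
    ((hA'.continuousAt.norm.eventually_lt_const (lt_add_one ‖A' p‖)).and ((hJ.continuousAt.eventually_ne hJ0).and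
      (hJc.abs.eventually_lt_const (lt_add_one |Real.log ‖jc Φ p‖|)))))),
    Real.log (‖A p‖ + 1) + Real.log (‖A' p‖ + 1) + (|Real.log ‖jc Φ p‖| + 1), ?_⟩
  rintro F hF Y z hi hj ⟨h1, h2, h3, h4, h5, h6⟩
  have h0 := BdN.p_eq Y hi hj h1
  have hw := wt_chgK hX hW.op hW.form hF Y hi h1
  have hwz := hw.self_of_nhds.2
  have hd : deriv (Y.p j) z = fderiv ℂ Φ (Y.p i z) (deriv (Y.p i) z) := by
    rw [EventuallyEq.deriv_eq (show Y.p j =ᶠ[𝓝 z] fun w => Φ (Y.p i w) from hw.mono fun w hw => hw.1)]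
    exact (h1.an.differentiableAt.hasFDerivAt.comp_hasDerivAt z (Y.an i z hi).differentiableAt.hasDerivAt).deriv
  have e1 := (h2 (deriv (Y.p i) z)).1
  have e2 := (h2 (deriv (Y.p i) z)).2
  rw [h0, ← hd] at e1 e2
  unfold eN eH
  set a := H (Y.p i z) (deriv (Y.p i) z)
  set b := H' (Y.p j z) (deriv (Y.p j) z)
  have k1 : |Real.log ‖a‖ - Real.log ‖b‖| ≤ Real.log (‖A p‖ + 1) + Real.log (‖A' p‖ + 1) := by
    refine BdN.log_bd (norm_nonneg _) (norm_nonneg _) (by linarith [norm_nonneg (A p)]) (by linarith [norm_nonneg (A' p)]) ?_ ?_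
    · rw [e1]
      exact ((A _).le_opNorm _).trans (mul_le_mul_of_nonneg_right h3.le (norm_nonneg _))
    · rw [e2]
      exact ((A' _).le_opNorm _).trans (mul_le_mul_of_nonneg_right h4.le (norm_nonneg _))
  have k2 : |1 / mK * Real.log ‖wt Wf Y i z‖ - 1 / mK * Real.log ‖wt Wf Y j z‖| ≤ |Real.log ‖jc Φ p‖| + 1 := by
    rw [hwz]
    by_cases h7 : wt Wf Y j z = 0
    · rw [h7, mul_zero, sub_self, abs_zero]
      positivity
    · have hmK : (mK : ℝ) ≠ 0 := by positivity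
      rw [norm_mul, norm_pow, Real.log_mul (pow_ne_zero _ (norm_ne_zero_iff.2 h5)) (norm_ne_zero_iff.2 h7), Real.log_pow]
      have h8 : 1 / (mK : ℝ) * (mK * Real.log ‖jc Φ (Y.p i z)‖ + Real.log ‖wt Wf Y j z‖) - 1 / mK * Real.log ‖wt Wf Y j z‖ =
          Real.log ‖jc Φ (Y.p i z)‖ := by
        field_simp
        ring
      rw [h8]
      exact h6.le
  have k3 : Real.log ‖a‖ + 1 / mK * Real.log ‖wt Wf Y i z‖ + jH / mK * Real.log ‖F z‖ -
      (Real.log ‖b‖ + 1 / mK * Real.log ‖wt Wf Y j z‖ + jH / mK * Real.log ‖F z‖) =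
      (Real.log ‖a‖ - Real.log ‖b‖) + (1 / mK * Real.log ‖wt Wf Y i z‖ - 1 / mK * Real.log ‖wt Wf Y j z‖) := by ring
  rw [k3]
  exact (abs_add_le _ _).trans (add_le_add k1 k2)

/-- the local bound for a pair of chart points -/
theorem pair (hX : Surface (coneE P)) (hW : LW P Ko mK jH Wf)
    {dD dR : ℕ} (hd : RD.IsHomogeneous dD) (hdR : Ra.IsHomogeneous dR) (C : Cov S Ra) {g : Fin C.nP → ℂ × ℂ → ℂ} (hg : PG C g) (j : Fin C.nP)
    (k : Fin C.nN) (a : (S.V (C.b k)).ι) {q q' : ℂ × ℂ} (hq : q ∈ closedBall (C.Q j) (C.r j)) (hqQ : q ≠ C.Q j) (hq' : q' ∈ C.K k a) :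
    ∃ N ∈ 𝓝 (q, q'), ∃ B : ℝ, ∀ F : ℂ → EN M, LCrv θ RD Ko Ra F → ∀ Y : NCLift X F, ∀ z, z ∈ S.Om Y (C.ck j) → z ∈ S.Om Y ⟨C.b k, a⟩ →
      (S.lf Y (C.ck j) z, S.lf Y ⟨C.b k, a⟩ z) ∈ N → (∀ᶠ w in 𝓝[≠] z, g j (S.lf Y (C.ck j) w) ≠ 0) →
        ∀ᶠ w in 𝓝[≠] z, |eP S (g j) Wf mK jH Y (C.ck j) w - eN (C.H k) Wf mK jH Y (C.b k) w| ≤ B := by
  have hqD : q ∈ S.D (C.ck j) := C.P_sub j hq
  have hq'D : q' ∈ S.D ⟨C.b k, a⟩ := by
    rcases hu : C.u k with _ | u'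
    · exact (C.K_A k a hu q' hq').1.mem
    · rcases (C.K_B k a u' hu q' hq').1 with h | h
      · exact h.mem
      · exact h.mem
  have hκ : Continuous fun x : (ℂ × ℂ) × (ℂ × ℂ) => (S.κ (C.ck j) x.1, S.κ ⟨C.b k, a⟩ x.2) :=
    ((BdN.κ_cont S (C.ck j)).comp continuous_fst).prodMk ((BdN.κ_cont S ⟨C.b k, a⟩).comp continuous_snd)
  by_cases hr : X.rel (C.ck j).1 (S.κ (C.ck j) q) (C.b k) (S.κ ⟨C.b k, a⟩ q')
  · obtain ⟨Φ, h1, h2, h3, h4, h5⟩ := X.iso _ _ _ hqD.2 _ hq'D.2 hr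
    have hΦ : Chg X (C.ck j).1 (C.b k) Φ (S.κ (C.ck j) q) := ⟨hqD.2, by rw [h2]; exact hq'D.2, h1, h3, h4, h5⟩
    obtain ⟨H, hH, hV, L, hL, hL0, hHL⟩ := BdPN.vec hd hdR C hg j k a hq hqQ hq' hΦ h2
    obtain ⟨N₁, hN₁, B₁, hB₁⟩ := loc hX hW hΦ hV
    obtain ⟨N₂, hN₂, B₂, hB₂⟩ := BdPN.chart Wf mK jH hH hL hL0 hHL
    have hN₁' : ∀ᶠ x in 𝓝 q, N₁ ∈ 𝓝 (S.κ (C.ck j) x) :=
      (BdN.κ_cont S (C.ck j)).continuousAt.eventually (eventually_mem_nhds_iff.2 hN₁)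
    refine ⟨(N₂ ∩ {x | N₁ ∈ 𝓝 (S.κ (C.ck j) x)}) ×ˢ Set.univ, prod_mem_nhds (inter_mem hN₂ hN₁') univ_mem, B₂ + B₁, ?_⟩
    rintro F hF Y z hz hz' ⟨⟨hzN₂, hzN₁⟩, -⟩ hgn
    have hzU : z ∈ Y.U (C.ck j).1 := Om_sub hF.toWCrv Y (C.ck j) hz
    have hzU' : z ∈ Y.U (C.b k) := Om_sub hF.toWCrv Y ⟨C.b k, a⟩ hz'
    have hpz : S.κ (C.ck j) (S.lf Y (C.ck j) z) = Y.p (C.ck j).1 z := (lfN_mem hF.toWCrv Y (C.ck j) z hz).2
    have hzN : N₁ ∈ 𝓝 (Y.p (C.ck j).1 z) := by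
      rw [← hpz]
      exact hzN₁
    have hU₁ : ∀ᶠ w in 𝓝 z, w ∈ Y.U (C.ck j).1 := (Y.isOpen _).mem_nhds hzU
    have hU₂ : ∀ᶠ w in 𝓝 z, w ∈ Y.U (C.b k) := (Y.isOpen _).mem_nhds hzU'
    filter_upwards [hB₂ F hF.toWCrv Y z hz hzN₂ hgn, ((Y.an _ z hzU).continuousAt.eventually hzN).filter_mono nhdsWithin_le_nhds,
      hU₁.filter_mono nhdsWithin_le_nhds, hU₂.filter_mono nhdsWithin_le_nhds] with w w1 w2 w3 w4
    have w5 := hB₁ F (hF.avoid) Y w w3 w4 w2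
    exact (abs_sub_le _ _ _).trans (add_le_add w1 w5)
  · refine ⟨_, hκ.continuousAt.eventually (X.sep _ _ _ hqD.2 _ hq'D.2 hr), 0, ?_⟩
    intro F hF Y z hz hz' hzN
    exfalso
    have hzU : z ∈ Y.U (C.ck j).1 := Om_sub hF.toWCrv Y (C.ck j) hz
    have hzU' : z ∈ Y.U (C.b k) := Om_sub hF.toWCrv Y ⟨C.b k, a⟩ hz'
    have e1 : S.κ (C.ck j) (S.lf Y (C.ck j) z) = Y.p (C.ck j).1 z := (lfN_mem hF.toWCrv Y (C.ck j) z hz).2
    have e2 : S.κ ⟨C.b k, a⟩ (S.lf Y ⟨C.b k, a⟩ z) = Y.p (C.b k) z := (lfN_mem hF.toWCrv Y ⟨C.b k, a⟩ z hz').2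
    have hzN' : ¬ X.rel (C.ck j).1 (S.κ (C.ck j) (S.lf Y (C.ck j) z)) (C.b k) (S.κ ⟨C.b k, a⟩ (S.lf Y ⟨C.b k, a⟩ z)) := hzN
    rw [e1, e2] at hzN'
    exact hzN' (Y.rel _ _ z hzU hzU')

end BdNL

theorem bd_NN (hX : Surface (coneE P)) (hW : LW P Ko mK jH Wf) (C : Cov S Ra) (k k' : Fin C.nN) :
    ∃ B : ℝ, ∀ F : ℂ → EN M, LCrv θ RD Ko Ra F → ∀ Y : NCLift X F, WNe Wf Y → ∀ z ∈ C.UN Y k, z ∈ C.UN Y k' →
      ContDiffAt ℝ 2 (eN (C.H k) Wf mK jH Y (C.b k)) z → ContDiffAt ℝ 2 (eN (C.H k') Wf mK jH Y (C.b k')) z →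
        |eN (C.H k) Wf mK jH Y (C.b k) z - eN (C.H k') Wf mK jH Y (C.b k') z| ≤ B := by
  classical
  by_cases hex : ∃ F : ℂ → EN M, LCrv θ RD Ko Ra F
  swap
  · exact ⟨0, fun F hF => absurd ⟨F, hF⟩ hex⟩
  obtain ⟨F₀, hF₀⟩ := hex
  have hd := hF₀.hom
  have hdR := hF₀.homR
  have main : ∀ (a : (S.V (C.b k)).ι) (a' : (S.V (C.b k')).ι), ∃ B : ℝ, ∀ F : ℂ → EN M, LCrv θ RD Ko Ra F → ∀ Y : NCLift X F, ∀ z, z ∈ Y.U (C.b k) →
      z ∈ Y.U (C.b k') → z ∈ S.Om Y ⟨C.b k, a⟩ → z ∈ S.Om Y ⟨C.b k', a'⟩ →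
      (S.lf Y ⟨C.b k, a⟩ z, S.lf Y ⟨C.b k', a'⟩ z) ∈ C.K k a ×ˢ C.K k' a' →
        |eN (C.H k) Wf mK jH Y (C.b k) z - eN (C.H k') Wf mK jH Y (C.b k') z| ≤ B := by
    intro a a'
    refine ((C.K_compact k a).prod (C.K_compact k' a')).induction_on (p := fun s => ∃ B : ℝ, ∀ F : ℂ → EN M, LCrv θ RD Ko Ra F → ∀ Y : NCLift X F, ∀ z,
      z ∈ Y.U (C.b k) → z ∈ Y.U (C.b k') → z ∈ S.Om Y ⟨C.b k, a⟩ → z ∈ S.Om Y ⟨C.b k', a'⟩ →
      (S.lf Y ⟨C.b k, a⟩ z, S.lf Y ⟨C.b k', a'⟩ z) ∈ s → |eN (C.H k) Wf mK jH Y (C.b k) z - eN (C.H k') Wf mK jH Y (C.b k') z| ≤ B) ?_ ?_ ?_ ?_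
    · exact ⟨0, fun F _ Y z _ _ _ _ h => absurd h (Set.notMem_empty _)⟩
    · rintro s t hst ⟨B, hB⟩
      exact ⟨B, fun F hF Y z h1 h2 h3 h4 h5 => hB F hF Y z h1 h2 h3 h4 (hst h5)⟩
    · rintro s t ⟨B, hB⟩ ⟨B', hB'⟩
      refine ⟨max B B', fun F hF Y z h1 h2 h3 h4 h5 => ?_⟩
      rcases h5 with h5 | h5
      · exact (hB F hF Y z h1 h2 h3 h4 h5).trans (le_max_left _ _)
      · exact (hB' F hF Y z h1 h2 h3 h4 h5).trans (le_max_right _ _)
    · rintro ⟨q, q'⟩ ⟨hq, hq'⟩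
      have hq : q ∈ C.K k a := hq
      have hq' : q' ∈ C.K k' a' := hq'
      have hmem : ∀ (k : Fin C.nN) (a : (S.V (C.b k)).ι), ∀ q ∈ C.K k a, S.κ ⟨C.b k, a⟩ q ∈ X.B (C.b k) := by
        intro k a q hq
        rcases hu : C.u k with _ | u
        · exact C.N_sub k (C.K_A k a hu q hq).2
        · exact C.N_sub k (C.K_B k a u hu q hq).2
      have hp := hmem k a q hq
      have hp' := hmem k' a' q' hq'
      have hc1 : Tendsto (fun x : (ℂ × ℂ) × (ℂ × ℂ) => S.κ ⟨C.b k, a⟩ x.1) (𝓝 (q, q')) (𝓝 (S.κ ⟨C.b k, a⟩ q)) :=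
        ((BdN.κ_cont S ⟨C.b k, a⟩).comp continuous_fst).tendsto (q, q')
      have hc2 : Tendsto (fun x : (ℂ × ℂ) × (ℂ × ℂ) => S.κ ⟨C.b k', a'⟩ x.2) (𝓝 (q, q')) (𝓝 (S.κ ⟨C.b k', a'⟩ q')) :=
        ((BdN.κ_cont S ⟨C.b k', a'⟩).comp continuous_snd).tendsto (q, q')
      by_cases hrel : X.rel (C.b k) (S.κ ⟨C.b k, a⟩ q) (C.b k') (S.κ ⟨C.b k', a'⟩ q')
      · obtain ⟨Φ, h1, h2, h3, h4, h5⟩ := X.iso _ _ _ hp _ hp' hrel
        have hch : Chg X (C.b k) (C.b k') Φ (S.κ ⟨C.b k, a⟩ q) := ⟨hp, by rw [h2]; exact hp', h1, h3, h4, h5⟩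
        obtain ⟨N, hN, B, hB⟩ := BdNL.loc hX hW hch (BdN.vrel hd hdR C k k' hq hq' hch h2)
        refine ⟨_, mem_nhdsWithin_of_mem_nhds (hc1 hN), B, fun F hF Y z i1 i2 i3 i4 i5 => hB F (hF.avoid) Y z i1 i2 ?_⟩
        have h6 := (lfN_mem hF.toWCrv Y ⟨C.b k, a⟩ z i3).2
        have h7 : S.κ ⟨C.b k, a⟩ (S.lf Y ⟨C.b k, a⟩ z) ∈ N := i5
        rwa [h6] at h7
      · have h1 : ∀ᶠ x in 𝓝 (q, q'), ¬ X.rel (C.b k) (S.κ ⟨C.b k, a⟩ x.1) (C.b k') (S.κ ⟨C.b k', a'⟩ x.2) :=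
          (hc1.prodMk_nhds hc2).eventually (X.sep _ _ _ hp _ hp' hrel)
        refine ⟨_, mem_nhdsWithin_of_mem_nhds h1, 0, fun F hF Y z i1 i2 i3 i4 i5 => ?_⟩
        exfalso
        have h6 := (lfN_mem hF.toWCrv Y ⟨C.b k, a⟩ z i3).2
        have h7 := (lfN_mem hF.toWCrv Y ⟨C.b k', a'⟩ z i4).2
        have h8 : ¬ X.rel (C.b k) (S.κ ⟨C.b k, a⟩ (S.lf Y ⟨C.b k, a⟩ z)) (C.b k') (S.κ ⟨C.b k', a'⟩ (S.lf Y ⟨C.b k', a'⟩ z)) := i5
        rw [h6, h7] at h8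
        exact h8 (Y.rel _ _ z i1 i2)
  choose B hB using main
  refine ⟨∑ a, ∑ a', |B a a'|, fun F hF Y _ z hz hz' _ _ => ?_⟩
  have hlift : ∀ k, z ∈ C.UN Y k → ∃ a, z ∈ S.Om Y ⟨C.b k, a⟩ ∧ S.lf Y ⟨C.b k, a⟩ z ∈ C.K k a := by
    rintro k ⟨h1, h2, h3⟩
    refine C.lift F hF.toWCrv Y k z h1 (ball_subset_closedBall h2) fun j hj hj' => h3 j ⟨hj, ball_subset_closedBall hj'⟩
  obtain ⟨a, ha, ha'⟩ := hlift k hz
  obtain ⟨a₁, hb, hb'⟩ := hlift k' hz'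
  refine (hB a a₁ F hF Y z hz.1 hz'.1 ha hb ⟨ha', hb'⟩).trans ((le_abs_self _).trans ?_)
  calc |B a a₁| ≤ ∑ a', |B a a'| := Finset.single_le_sum (f := fun a' => |B a a'|) (fun _ _ => abs_nonneg _) (Finset.mem_univ a₁)
    _ ≤ ∑ a, ∑ a', |B a a'| := Finset.single_le_sum (f := fun a => ∑ a', |B a a'|) (fun _ _ => Finset.sum_nonneg fun _ _ => abs_nonneg _) (Finset.mem_univ a)

theorem bd_PN (hX : Surface (coneE P)) (hW : LW P Ko mK jH Wf) (C : Cov S Ra)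
    {g : Fin C.nP → ℂ × ℂ → ℂ} (hg : PG C g) (j : Fin C.nP) (k : Fin C.nN) {r' : ℝ} (hr' : r' < C.r j) :
    ∃ B : ℝ, ∀ F : ℂ → EN M, LCrv θ RD Ko Ra F → ∀ Y : NCLift X F, WNe Wf Y → ∀ z ∈ C.UP Y j, z ∈ C.UN Y k →
      S.lf Y (C.ck j) z ∈ closedBall (C.Q j) r' →
      ContDiffAt ℝ 2 (eP S (g j) Wf mK jH Y (C.ck j)) z → ContDiffAt ℝ 2 (eN (C.H k) Wf mK jH Y (C.b k)) z →
        |eP S (g j) Wf mK jH Y (C.ck j) z - eN (C.H k) Wf mK jH Y (C.b k) z| ≤ B := by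
  classical
  by_cases hex : ∃ F : ℂ → EN M, LCrv θ RD Ko Ra F
  · obtain ⟨F₀, hF₀⟩ := hex
    obtain ⟨dD, hd⟩ := hF₀.hom
    obtain ⟨dR, hdR⟩ := hF₀.homR
    -- compactness
    have hcomp : ∀ a : (S.V (C.b k)).ι, ∃ B : ℝ, ∀ F : ℂ → EN M, LCrv θ RD Ko Ra F → ∀ Y : NCLift X F, ∀ z, z ∈ S.Om Y (C.ck j) → z ∈ S.Om Y ⟨C.b k, a⟩ →
        (S.lf Y (C.ck j) z, S.lf Y ⟨C.b k, a⟩ z) ∈ (closedBall (C.Q j) r' \ ball (C.Q j) (C.s j)) ×ˢ C.K k a →
        (∀ᶠ w in 𝓝[≠] z, g j (S.lf Y (C.ck j) w) ≠ 0) →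
          ∀ᶠ w in 𝓝[≠] z, |eP S (g j) Wf mK jH Y (C.ck j) w - eN (C.H k) Wf mK jH Y (C.b k) w| ≤ B := by
      intro a
      have hc : IsCompact ((closedBall (C.Q j) r' \ ball (C.Q j) (C.s j)) ×ˢ C.K k a) :=
        ((isCompact_closedBall _ _).diff isOpen_ball).prod (C.K_compact k a)
      refine hc.induction_on (p := fun s => ∃ B : ℝ, ∀ F : ℂ → EN M, LCrv θ RD Ko Ra F → ∀ Y : NCLift X F, ∀ z, z ∈ S.Om Y (C.ck j) → z ∈ S.Om Y ⟨C.b k, a⟩ →
        (S.lf Y (C.ck j) z, S.lf Y ⟨C.b k, a⟩ z) ∈ s → (∀ᶠ w in 𝓝[≠] z, g j (S.lf Y (C.ck j) w) ≠ 0) →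
          ∀ᶠ w in 𝓝[≠] z, |eP S (g j) Wf mK jH Y (C.ck j) w - eN (C.H k) Wf mK jH Y (C.b k) w| ≤ B) ?_ ?_ ?_ ?_
      · exact ⟨0, fun F hF Y z hz hz' h => absurd h (Set.notMem_empty _)⟩
      · rintro s t hst ⟨B, hB⟩
        exact ⟨B, fun F hF Y z hz hz' h => hB F hF Y z hz hz' (hst h)⟩
      · rintro s t ⟨B, hB⟩ ⟨B', hB'⟩
        refine ⟨max B B', fun F hF Y z hz hz' h hgn => ?_⟩
        rcases h with h | h
        · exact (hB F hF Y z hz hz' h hgn).mono fun w hw => hw.trans (le_max_left _ _)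
        · exact (hB' F hF Y z hz hz' h hgn).mono fun w hw => hw.trans (le_max_right _ _)
      · rintro ⟨q, q'⟩ ⟨⟨h1, h2⟩, h3⟩
        have h4 : q ∈ closedBall (C.Q j) (C.r j) := closedBall_subset_closedBall hr'.le h1
        have h5 : q ≠ C.Q j := by
          rintro rfl
          exact h2 (mem_ball_self (C.s_pos j))
        obtain ⟨N, hN, B, hB⟩ := BdNL.pair hX hW hd hdR C hg j k a h4 h5 h3
        exact ⟨N, mem_nhdsWithin_of_mem_nhds hN, B, hB⟩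
    choose B hB using hcomp
    refine ⟨∑ a, |B a|, fun F hF Y hne z hzP hzN hzr hcP hcN => ?_⟩
    obtain ⟨hzO, hzb⟩ := hzP
    obtain ⟨hzU, hzt, hzc⟩ := hzN
    obtain ⟨a, ha, ha'⟩ := C.lift F hF.toWCrv Y k z hzU (ball_subset_closedBall hzt) (fun i hi hi' => hzc i ⟨hi, ball_subset_closedBall hi'⟩)
    have hnb : S.lf Y (C.ck j) z ∉ ball (C.Q j) (C.s j) := fun h => hzc j ⟨hzO, ball_subset_closedBall h⟩
    have hgn := g_ne C hg j hF.toRCrv Y z ⟨hzO, hzb⟩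
    have h1 := hB a F hF Y z hzO ha ⟨⟨hzr, hnb⟩, ha'⟩ hgn
    have h2 : Tendsto (fun w => |eP S (g j) Wf mK jH Y (C.ck j) w - eN (C.H k) Wf mK jH Y (C.b k) w|) (𝓝[≠] z)
        (𝓝 |eP S (g j) Wf mK jH Y (C.ck j) z - eN (C.H k) Wf mK jH Y (C.b k) z|) :=
      ((hcP.continuousAt.sub hcN.continuousAt).abs).tendsto.mono_left nhdsWithin_le_nhds
    have h3 := le_of_tendsto h2 h1
    exact h3.trans ((le_abs_self _).trans (Finset.single_le_sum (f := fun a => |B a|) (fun _ _ => abs_nonneg _) (Finset.mem_univ a)))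
  · exact ⟨0, fun F hF => absurd ⟨F, hF⟩ hex⟩

end Pool.Agent.MQK

end
end

section

/-!
# MQK ThL: the function `Θ` for a weight with poles
-/

set_option autoImplicit false

open Topology Filter Metric MvPolynomial

noncomputable section

namespace Pool.Agent.MQK

open Pool.Agent.MQL

open Pool.Agent.H36.BP (EN)
open Pool.Agent.H17BP (Surface IsForm)
open Pool.Agent.H17EF (projVar coneE)
open Pool.Agent.H36.BPL (OpenPart)
open Pool.Agent.MQ3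

variable {M : ℕ} {P : Ideal (MvPolynomial (Fin (M + 1)) ℂ)} {RD Ra : MvPolynomial (Fin (M + 1)) ℂ} {Ko : Set (EN M)} {m : ℕ} {X : NCModel P RD} {θ : WDiff (coneE P) m}
  {l : LF M} {S : Web X θ l} {Wf : EN M → EN M → EN M → ℂ} {mK jH : ℕ}

theorem exists_theta {F : ℂ → EN M} (hX : Surface (coneE P)) (hW : LW P Ko mK jH Wf) (hF : LCrv θ RD Ko Ra F) (Y : NCLift X F) (hne : WNe Wf Y) :
    ∃ Θ : ℂ → ℂ, IsTh S Wf mK Y Θ :=
  exists_thetaK hX hW.one_m hW.op hW.form hF.toWCrv (hF.avoid) Y hne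

end Pool.Agent.MQK

end
end
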