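import Pool.Agent.H43.TL2.M38
import Pool.Agent.H43.TL2.M45
import Pool.Agent.H43.TL2.M50
import Pool.Agent.H43.TL2.M60
import Pool.Agent.H43.TL2.M73
import Pool.Agent.H43.TL2.M94
import Pool.Agent.H43.TL2.M95

/-! The parts of this file: MQ.LFormT, MQ.LFormD, MQ2.TForm, MQ3.WtNB. -/

section

/-!
# MQ/LFormT: saddle-nodes with a formal weak separatrix, the normal bundle half of the local package, in one variable
-/

set_option autoImplicit false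

open Topology Filter Asymptotics Complex Set ComplexConjugate Metric MeasureTheory

noncomputable section

namespace Pool.Agent.MQ

open Pool.Agent.H36.BP (EN fs)
open Pool.Agent.H30M (tau tau_nonneg)

theorem sn_bound {r : ℝ} {E : Type} [NormedAddCommGroup E] {f : ℂ × ℂ → E} (hf : ContinuousOn f (closedBall 0 r)) :
    ∃ C : ℝ, 0 < C ∧ ∀ p ∈ closedBall (0 : ℂ × ℂ) r, ‖f p‖ ≤ C := by
  obtain ⟨C, hC⟩ := (isCompact_closedBall (0 : ℂ × ℂ) r).bddAbove_image hf.norm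
  exact ⟨max C 1, lt_of_lt_of_le one_pos (le_max_right _ _), fun p hp => (hC ⟨p, hp, rfl⟩).trans (le_max_left _ _)⟩

theorem dlt_analytic {k : ℕ} {a b : ℂ × ℂ → ℂ} {p : ℂ × ℂ} (ha : AnalyticAt ℂ a p) (hb : AnalyticAt ℂ b p) (ε : ℂ) : AnalyticAt ℂ (dlt k a b ε) p := by
  unfold dlt
  exact (((analyticAt_const).mul ((analyticAt_fst.pow k).mul ha)).add ((analyticAt_fst.pow (k + 1)).mul (an_fderiv_apply ha _))).add
    (an_fderiv_apply hb _)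

theorem v_analytic {k : ℕ} {a b : ℂ × ℂ → ℂ} {v : ℂ × ℂ → ℂ × ℂ} (hv : ∀ p, v p = (p.1 ^ (k + 1) * a p, b p)) {p : ℂ × ℂ} (ha : AnalyticAt ℂ a p)
    (hb : AnalyticAt ℂ b p) : AnalyticAt ℂ v p := by
  have : v = fun p => (p.1 ^ (k + 1) * a p, b p) := funext hv
  rw [this]
  exact ((analyticAt_fst.pow (k + 1)).mul ha).prod hb

/-- a lower bound of `v` away from `0` -/
theorem v_lower {r t : ℝ} {v : ℂ × ℂ → ℂ × ℂ} (hv : ContinuousOn v (closedBall 0 r)) (hv0 : ∀ p ∈ closedBall (0 : ℂ × ℂ) r, v p = 0 → p = 0)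
    (ht : 0 < t) : ∃ m : ℝ, 0 < m ∧ ∀ p ∈ closedBall (0 : ℂ × ℂ) r, p ∉ ball (0 : ℂ × ℂ) t → m ≤ ‖v p‖ := by
  have hK : IsCompact (closedBall (0 : ℂ × ℂ) r \ ball (0 : ℂ × ℂ) t) := (isCompact_closedBall _ _).diff isOpen_ball
  rcases (closedBall (0 : ℂ × ℂ) r \ ball (0 : ℂ × ℂ) t).eq_empty_or_nonempty with h | h
  · refine ⟨1, one_pos, fun p hp hpt => ?_⟩
    have : p ∈ closedBall (0 : ℂ × ℂ) r \ ball (0 : ℂ × ℂ) t := ⟨hp, hpt⟩
    rw [h] at this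
    exact absurd this (notMem_empty _)
  · obtain ⟨p₀, hp₀, hmin⟩ := hK.exists_isMinOn h (hv.norm.mono sdiff_subset)
    refine ⟨‖v p₀‖, norm_pos_iff.2 fun h0 => ?_, fun p hp hpt => hmin ⟨hp, hpt⟩⟩
    have h1 := hv0 p₀ hp₀.1 h0
    apply hp₀.2
    rw [h1]
    exact mem_ball_self ht

theorem localN1_aux {k : ℕ} (hk : 1 ≤ k) {a b : ℂ × ℂ → ℂ} (ha : AnalyticAt ℂ a 0) (hb : AnalyticAt ℂ b 0) (ha0 : a 0 ≠ 0)
    (hb0 : fderiv ℂ b 0 (0, 1) ≠ 0) {c : ℕ → ℂ} (hc : c 0 = 0)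
    (hJ : ∀ J, (fun t => b (t, jet c J t) - deriv (jet c J) t * (t ^ (k + 1) * a (t, jet c J t))) =O[𝓝 0] fun t : ℂ => t ^ (J + 1)) (ε : ℂ) :
    ∃ C₀ : ℝ, 0 ≤ C₀ ∧ ∀ {r : ℝ} (_ : 0 < r) (_ : AnalyticOnNhd ℂ a (closedBall 0 r)) (_ : AnalyticOnNhd ℂ b (closedBall 0 r))
      {v : ℂ × ℂ → ℂ × ℂ} (_ : ∀ p, v p = (p.1 ^ (k + 1) * a p, b p)) (_ : ∀ p ∈ closedBall (0 : ℂ × ℂ) r, v p = 0 → p = 0)
      {q : ℂ × ℂ → ℂ} (_ : AnalyticAt ℂ q 0) {N : ℕ} (_ : 1 ≤ N) (_ : ∀ J, N ≤ J → analyticOrderAt (fun t => q (t, jet c J t)) 0 = N)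
      {ψ : ℂ × ℂ → ℝ} (_ : ContDiffAt ℝ 1 ψ 0) (d : ℕ) {M : ℕ} {F : ℂ → EN M} (_ : Differentiable ℂ F) (_ : ∀ z, F z ≠ 0)
      {Qf : ℂ → ℂ} (_ : Differentiable ℂ Qf) (_ : ∀ z, ‖Qf z‖ ≤ ‖F z‖ ^ d) {c' : ℝ} (_ : 0 < c') {Om : Set ℂ} {g : ℂ → ℂ × ℂ}
      (_ : Crv1 v r Om g) (_ : ∀ z ∈ Om, ‖Qf z‖ * Real.exp (d * ψ (g z)) = c' * ‖q (g z)‖ * ‖F z‖ ^ d)
      {D : ℂ → ℂ} (_ : ∀ z ∈ Om, g z ≠ 0 → D z = dlt k a b ε (g z) * ztv v g z) {s : ℝ} (_ : 0 < s) (_ : s < r),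
      ∃ (C : ℝ) (η : ℂ → ℂ) (err : ℂ → ℝ), 0 ≤ C ∧ ContDiffOn ℝ 1 η Om ∧ ContinuousOn err Om ∧
        (∀ z ∈ Om, g z ∉ ball (0 : ℂ × ℂ) s → η z = conj (D z) ∧ err z = 0) ∧
        (∀ z ∈ Om, g z ∈ ball (0 : ℂ × ℂ) s → ‖η z‖ ≤ C * ‖deriv g z‖) ∧ (∀ z ∈ Om, 0 ≤ err z) ∧
        (∀ z ∈ Om, 0 ≤ dv η z + err z) ∧
        ∀ R, 1 ≤ R → ∫ z in Om, tau R z * err z ≤ (C₀ * d / N) * En F R + C * Len F R + C := by
  obtain ⟨C, α, hC, hα, htube⟩ := sn_tube hk ha hb ha0 hb0 hc hJ ε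
  obtain ⟨B, hB, hB1, hB2⟩ := HH_bdd
  set C₂ : ℝ := (C + B * C ^ 2) * (B * C ^ 2) with hC₂
  have hC₂0 : 0 < C₂ := by positivity
  refine ⟨192 * C₂, by positivity, ?_⟩
  intro r hr haa hbb v hv hv0 q hq N hN hord ψ hψ d M F hF hF0 Qf hQf hQF c' hc' Om g hg hrel D hD s hs hsr
  have hN0 : (0 : ℝ) < N := by exact_mod_cast hN
  set J := N + 3 * k + 3 with hJdef
  set n := N + 2 * k + 2 with hn
  have hball2 : ball (0 : ℂ × ℂ) (s / 2) ∈ 𝓝 (0 : ℂ × ℂ) := ball_mem_nhds _ (by positivity)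
  obtain ⟨ρ, hρt, hρs, hρsh, hρb, hρ0⟩ := ((htube N).and ((scl_pos hk hα r).and ((sn_shell hk ha hb ha0 hc hJ hq hN hord hψ d).and
    ((tube_small hc J (show 1 ≤ n by omega) hball2).and self_mem_nhdsWithin)))).exists
  have hρ : 0 < ρ := hρ0
  obtain ⟨b₀, hb₀⟩ := hρsh c' hc'
  set η : ℂ → ℂ := snF α k c J n ρ D g with hη
  -- basic facts
  have hmemc : ∀ z ∈ Om, g z ∈ closedBall (0 : ℂ × ℂ) r := fun z hz => ball_subset_closedBall (hg.mem z hz)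
  have hx_le : ∀ z ∈ Om, ‖(g z).1‖ ≤ r := fun z hz => (norm_fst_le (g z)).trans (mem_closedBall_zero_iff.1 (hmemc z hz))
  have hvz : ∀ z ∈ Om, g z ≠ 0 → v (g z) ≠ 0 := fun z hz h0 h1 => h0 (hv0 _ (hmemc z hz) h1)
  have hDev : ∀ z ∈ Om, g z ≠ 0 → D =ᶠ[𝓝 z] fun w => dlt k a b ε (g w) * ztv v g w := by
    intro z hz h0
    filter_upwards [hg.isOpen.mem_nhds hz, (hg.an z hz).continuousAt.eventually_ne h0] with w hw hw0 using hD w hw hw0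
  have hDan : ∀ z ∈ Om, g z ≠ 0 → AnalyticAt ℂ D z := by
    intro z hz h0
    have h1 : AnalyticAt ℂ (fun w => dlt k a b ε (g w)) z :=
      AnalyticAt.fun_comp (g := dlt k a b ε) (dlt_analytic (haa _ (hmemc z hz)) (hbb _ (hmemc z hz)) ε) (hg.an z hz)
    have h2 : AnalyticAt ℂ (ztv v g) z := hg.an_ztv hz (v_analytic hv (haa _ (hmemc z hz)) (hbb _ (hmemc z hz))) (hvz z hz h0)
    exact (h1.mul h2).congr (hDev z hz h0).symm
  have hηC1 : ∀ z ∈ Om, ContDiffAt ℝ 1 η z := by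
    intro z hz
    by_cases h0 : g z = 0
    · have h1 : η =ᶠ[𝓝 z] fun _ => 0 := snF_zero hk hα hρ hc (hg.an z hz) h0 D
      exact contDiffAt_const.congr_of_eventuallyEq h1
    · exact snF_contDiffAt hk hα hρ (hg.an z hz) (hDan z hz h0)
  have hdvc : ∀ z ∈ Om, ContinuousAt (dv η) z := by
    intro z hz
    have h1 : ContinuousAt (fderiv ℝ η) z := (hηC1 z hz).continuousAt_fderiv one_ne_zero
    have h2 : ContinuousAt (fun w => (fderiv ℝ η w 1).re + (fderiv ℝ η w I).im) z :=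
      (Complex.continuous_re.continuousAt.comp (h1.clm_apply continuousAt_const)).add
        (Complex.continuous_im.continuousAt.comp (h1.clm_apply continuousAt_const))
    exact h2
  -- the derivatives along the curve
  have hd1 : ∀ z ∈ Om, g z ≠ 0 → (deriv g z).1 = (g z).1 ^ (k + 1) * a (g z) * ztv v g z := by
    intro z hz h0
    rw [hg.deriv_fst hz (hvz z hz h0), hv]
    ring
  have hd2 : ∀ z ∈ Om, g z ≠ 0 → deriv (fun w => (g w).2 - jet c J (g w).1) z = yv k a b c J (g z) * ztv v g z := by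
    intro z hz h0
    have hgd : DifferentiableAt ℂ g z := (hg.an z hz).differentiableAt
    have h1 : HasDerivAt (fun w => (g w).1) (deriv g z).1 z := by
      have := (an_fst (hg.an z hz)).differentiableAt.hasDerivAt
      rwa [deriv_fst' hgd] at this
    have h2 : HasDerivAt (fun w => (g w).2) (deriv g z).2 z := by
      have := (an_snd (hg.an z hz)).differentiableAt.hasDerivAt
      rwa [deriv_snd' hgd] at this
    have h3 : HasDerivAt (fun w => jet c J (g w).1) (deriv (jet c J) (g z).1 * (deriv g z).1) z :=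
      HasDerivAt.comp z (h₂ := jet c J) ((jet_differentiable c J) _).hasDerivAt h1
    have h4 : HasDerivAt (fun w => (g w).2 - jet c J (g w).1) ((deriv g z).2 - deriv (jet c J) (g z).1 * (deriv g z).1) z := h2.sub h3
    rw [h4.deriv, hg.deriv_fst hz (hvz z hz h0), hg.deriv_snd hz (hvz z hz h0), hv, yv]
    ring
  -- the pointwise inequality
  have hpt : ∀ z ∈ Om, -dv η z ≤ 0 ∨ ρ / 2 ≤ ‖(g z).1‖ ∧ ‖(g z).1‖ ≤ 2 * ρ ∧ ‖(g z).2 - jet c J (g z).1‖ ≤ ρ ^ n ∧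
      -dv η z ≤ C₂ * ‖(deriv g z).1 / (g z).1‖ ^ 2 := by
    intro z hz
    by_cases h0 : g z = 0
    · left
      have h1 : η =ᶠ[𝓝 z] fun _ => 0 := snF_zero hk hα hρ hc (hg.an z hz) h0 D
      rw [dv_congr h1, dv_const, neg_zero]
    · rcases snF_le hk hα hρ hC hB hB1 hB2 hρs (hg.an z hz) (hx_le z hz) (hDan z hz h0) (hD z hz h0) (hd1 z hz h0) (hd2 z hz h0)
        (fun h1 h2 => hρt (g z) h1 h2) with h1 | ⟨h1, h2, h3, h4⟩
      · exact Or.inl h1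
      · refine Or.inr ⟨h1, h2, h3, h4.trans (le_of_eq ?_)⟩
        rw [hC₂]
        ring
  -- far from the center
  have hfar0 : ∀ w ∈ Om, g w ∉ ball (0 : ℂ × ℂ) (s / 2) → η w = conj (D w) := by
    intro w hw hws
    have h1 : f₁ α k ρ g w = 0 ∨ ρ ^ n < ‖(g w).2 - jet c J (g w).1‖ := by
      by_contra hcon
      push Not at hcon
      obtain ⟨e1, e2⟩ := hcon
      apply hws
      apply hρb (g w) _ e2
      by_cases hx0 : (g w).1 = 0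
      · rw [hx0, norm_zero]; positivity
      · have h2 : f₁ α k ρ g w = hp (scl α k ρ * ‖pot α k (g w).1‖ ^ 2) := by
          rw [f₁, XX, if_neg hx0]
        by_cases h3 : scl α k ρ * ‖pot α k (g w).1‖ ^ 2 ≤ 1
        · rw [h2, hp_zero h3] at e1
          exact absurd rfl e1
        · exact (hρs _ (hx_le w hw) (not_le.1 h3).le).1
    rcases h1 with h1 | h1
    · rw [hη, snF, h1]
      simp
    · have hcont : ContinuousAt (fun w => ‖(g w).2 - jet c J (g w).1‖) w := by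
        have hga := (hg.an w hw).continuousAt
        have hc2 : Continuous fun p : ℂ × ℂ => ‖p.2 - jet c J p.1‖ := (cd_jet c J).continuous.norm
        exact hc2.continuousAt.comp hga
      have h2 : ∀ᶠ y in 𝓝 w, f₂ c J n ρ g y = 0 := by
        filter_upwards [hcont.eventually (lt_mem_nhds h1)] with y hy
        exact CC_zero hρ hy.le
      have h3 : f₃ α k c J n ρ g =ᶠ[𝓝 w] fun _ => 0 := by
        filter_upwards [h2] with y hy
        rw [f₃, hy, zero_mul]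
      rw [hη, snF, gr_congr h3, gr_const, h2.self_of_nhds]
      simp
  have hfar : ∀ z ∈ Om, g z ∉ ball (0 : ℂ × ℂ) s → η =ᶠ[𝓝 z] fun w => conj (D w) := by
    intro z hz hzs
    have h1 : ∀ᶠ w in 𝓝 z, g w ∈ (closedBall (0 : ℂ × ℂ) (s / 2))ᶜ := by
      refine (hg.an z hz).continuousAt (isClosed_closedBall.isOpen_compl.mem_nhds ?_)
      intro h2
      apply hzs
      rw [mem_ball_zero_iff]
      have := mem_closedBall_zero_iff.1 h2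
      linarith
    filter_upwards [hg.isOpen.mem_nhds hz, h1] with w hw hw2
    exact hfar0 w hw fun h3 => hw2 (ball_subset_closedBall h3)
  -- the bound
  obtain ⟨t, ht0, ht⟩ : ∃ t : ℝ, 0 < t ∧ ∀ p ∈ ball (0 : ℂ × ℂ) t, XX α k ρ p.1 * CC n ρ (p.2 - jet c J p.1) = 1 := by
    have h1 : ∀ᶠ p in 𝓝 (0 : ℂ × ℂ), XX α k ρ p.1 = 1 :=
      (continuous_fst.tendsto (0 : ℂ × ℂ)).eventually (XX_ev_one hk hα hρ)
    have h2 : ∀ᶠ p in 𝓝 (0 : ℂ × ℂ), CC n ρ (p.2 - jet c J p.1) = 1 := by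
      have h3 : Tendsto (fun p : ℂ × ℂ => p.2 - jet c J p.1) (𝓝 0) (𝓝 0) := by
        have := (cd_jet c J).continuous.tendsto (0 : ℂ × ℂ)
        simpa [jet_zero hc] using this
      exact h3.eventually CC_ev_one
    obtain ⟨t, ht0, ht⟩ := Metric.eventually_nhds_iff_ball.1 (h1.and h2)
    exact ⟨t, ht0, fun p hp => by rw [(ht p hp).1, (ht p hp).2, one_mul]⟩
  have hvan : AnalyticOnNhd ℂ v (closedBall 0 r) := fun p hp => v_analytic hv (haa p hp) (hbb p hp)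
  obtain ⟨m, hm0, hm⟩ := v_lower hvan.continuousOn hv0 ht0
  obtain ⟨C₃, hC₃0, hC₃⟩ := sn_bound (f := dlt k a b ε) (r := r) fun p hp => (dlt_analytic (haa p hp) (hbb p hp) ε).continuousAt.continuousWithinAt
  obtain ⟨C₄, hC₄0, hC₄⟩ := sn_bound (f := fderiv ℝ fun p : ℂ × ℂ => CC n ρ (p.2 - jet c J p.1) * EEE α k ρ p.1) (r := r)
    ((cd_EE α k c J n ρ).continuous_fderiv (by norm_num)).continuousOn
  have hbd : ∀ z ∈ Om, ‖η z‖ ≤ (C₃ / m + C₄) * ‖deriv g z‖ := by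
    intro z hz
    by_cases h0 : g z = 0
    · have h1 : η z = 0 := (snF_zero hk hα hρ hc (hg.an z hz) h0 D).self_of_nhds
      rw [h1, norm_zero]
      positivity
    have h1 : ‖((1 - f₁ α k ρ g z * f₂ c J n ρ g z : ℝ) : ℂ) * conj (D z)‖ ≤ C₃ / m * ‖deriv g z‖ := by
      by_cases h2 : g z ∈ ball (0 : ℂ × ℂ) t
      · have h3 : f₁ α k ρ g z * f₂ c J n ρ g z = 1 := ht _ h2
        rw [h3, sub_self, Complex.ofReal_zero, zero_mul, norm_zero]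
        positivity
      · have h3 := hm _ (hmemc z hz) h2
        have h4 : ‖deriv g z‖ = ‖ztv v g z‖ * ‖v (g z)‖ := by
          have h5 : deriv g z = ztv v g z • v (g z) :=
            Prod.ext (hg.deriv_fst hz (hvz z hz h0)) (hg.deriv_snd hz (hvz z hz h0))
          rw [← norm_smul, ← h5]
        have h5 : |1 - f₁ α k ρ g z * f₂ c J n ρ g z| ≤ 1 := by
          have e1 : 0 ≤ f₁ α k ρ g z := XX_nonneg _
          have e2 : f₁ α k ρ g z ≤ 1 := XX_le _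
          have e3 : 0 ≤ f₂ c J n ρ g z := CC_nonneg _
          have e4 : f₂ c J n ρ g z ≤ 1 := CC_le _
          rw [abs_le]
          constructor <;> nlinarith [mul_nonneg e1 e3, mul_le_one₀ e2 e3 e4]
        rw [norm_mul, Complex.norm_real, Real.norm_eq_abs, RCLike.norm_conj, hD z hz h0, norm_mul]
        have h6 := hC₃ _ (hmemc z hz)
        calc |1 - f₁ α k ρ g z * f₂ c J n ρ g z| * (‖dlt k a b ε (g z)‖ * ‖ztv v g z‖) ≤ 1 * (C₃ * ‖ztv v g z‖) :=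
              mul_le_mul h5 (mul_le_mul_of_nonneg_right h6 (norm_nonneg _)) (by positivity) zero_le_one
          _ = C₃ / m * (‖ztv v g z‖ * m) := by field_simp
          _ ≤ C₃ / m * ‖deriv g z‖ := by
            rw [h4]
            exact mul_le_mul_of_nonneg_left (mul_le_mul_of_nonneg_left h3 (norm_nonneg _)) (by positivity)
    have h2 : ‖(f₁ α k ρ g z : ℂ) * (-I * gr (f₃ α k c J n ρ g) z)‖ ≤ C₄ * ‖deriv g z‖ := by
      have e1 : 0 ≤ f₁ α k ρ g z := XX_nonneg _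
      have e2 : f₁ α k ρ g z ≤ 1 := XX_le _
      have e3 : ‖gr (f₃ α k c J n ρ g) z‖ ≤ C₄ * ‖deriv g z‖ := by
        have hdd : DifferentiableAt ℝ (fun p : ℂ × ℂ => CC n ρ (p.2 - jet c J p.1) * EEE α k ρ p.1) ((g z).1, (g z).2) :=
          (cd_EE α k c J n ρ).differentiable (by norm_num) _
        have h3 := AxisA.norm_gr_comp_le (x := fun w => (g w).1) (y := fun w => (g w).2) (z := z) hdd (an_fst (hg.an z hz)) (an_snd (hg.an z hz))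
          (hC₄ _ (hmemc z hz))
        rw [deriv_fst' (hg.an z hz).differentiableAt, deriv_snd' (hg.an z hz).differentiableAt] at h3
        exact h3
      rw [norm_mul, norm_mul, norm_neg, Complex.norm_I, one_mul, Complex.norm_real, Real.norm_of_nonneg e1]
      calc _ ≤ 1 * ‖gr (f₃ α k c J n ρ g) z‖ := mul_le_mul_of_nonneg_right e2 (norm_nonneg _)
        _ ≤ _ := by rw [one_mul]; exact e3
    calc ‖η z‖ ≤ _ := norm_add_le _ _
      _ ≤ C₃ / m * ‖deriv g z‖ + C₄ * ‖deriv g z‖ := add_le_add h1 h2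
      _ = _ := by ring
  -- the integral
  obtain ⟨C₅, hC₅⟩ := charge hF hF0 hQf hQF hN b₀
  set W : ℂ → ℝ := fun z => {z | Qf z ≠ 0 ∧ b₀ ≤ lu F Qf d z ∧ lu F Qf d z ≤ b₀ + 2 * N}.indicator (fun z => ‖gr (lu F Qf d) z‖ ^ 2) z with hW
  have hW0 : ∀ z, 0 ≤ W z := fun z => Set.indicator_nonneg (fun _ _ => by positivity) z
  have hle : ∀ z ∈ Om, max 0 (-dv η z) ≤ 16 * C₂ / N ^ 2 * W z := by
    intro z hz
    refine max_le (mul_nonneg (by positivity) (hW0 z)) ?_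
    rcases hpt z hz with h1 | ⟨h1, h2, h3, h4⟩
    · exact h1.trans (mul_nonneg (by positivity) (hW0 z))
    · obtain ⟨g1, g2, g3, g4⟩ := hb₀ hF hF0 hv hg hrel z hz h1 h2 h3
      have g5 : W z = ‖gr (lu F Qf d) z‖ ^ 2 := Set.indicator_of_mem (show z ∈ {z | Qf z ≠ 0 ∧ b₀ ≤ lu F Qf d z ∧ lu F Qf d z ≤ b₀ + 2 * N} from
        ⟨g1, g2, g3⟩) _
      rw [g5]
      refine h4.trans ?_
      have g6 : ((N : ℝ) / 4 * ‖(deriv g z).1 / (g z).1‖) ^ 2 ≤ ‖gr (lu F Qf d) z‖ ^ 2 := pow_le_pow_left₀ (by positivity) g4 2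
      have g7 : 16 * C₂ / (N : ℝ) ^ 2 * ((N : ℝ) / 4 * ‖(deriv g z).1 / (g z).1‖) ^ 2 = C₂ * ‖(deriv g z).1 / (g z).1‖ ^ 2 := by
        field_simp
        ring
      rw [← g7]
      exact mul_le_mul_of_nonneg_left g6 (by positivity)
  have hCpos : 0 ≤ |16 * C₂ / (N : ℝ) ^ 2 * C₅| := abs_nonneg _
  have hce : ∀ z ∈ Om, ContinuousAt (fun z => max 0 (-dv η z)) z := fun z hz => continuousAt_const.max (hdvc z hz).neg
  have hCm : 0 ≤ C₃ / m + C₄ := by positivity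
  refine ⟨(C₃ / m + C₄) + |16 * C₂ / (N : ℝ) ^ 2 * C₅|, η, fun z => max 0 (-dv η z), by positivity, fun z hz => (hηC1 z hz).contDiffWithinAt,
    fun z hz => (hce z hz).continuousWithinAt, ?_, ?_, fun z _ => le_max_left _ _, ?_, ?_⟩
  · intro z hz hzs
    have h1 := hfar z hz hzs
    have h0 : g z ≠ 0 := by
      intro h0
      apply hzs
      rw [h0]
      exact mem_ball_self hs
    refine ⟨h1.self_of_nhds, ?_⟩
    change max 0 (-dv η z) = 0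
    rw [dv_congr h1, dv_conj (hDan z hz h0).differentiableAt, neg_zero, max_self]
  · intro z hz _
    refine (hbd z hz).trans (mul_le_mul_of_nonneg_right ?_ (norm_nonneg _))
    linarith
  · intro z _
    have := le_max_right 0 (-dv η z)
    change 0 ≤ dv η z + max 0 (-dv η z)
    linarith
  · intro R hR
    have hint := (AxisA.integrable_charge hF hF0 hQf d N b₀ hR).const_mul (16 * C₂ / (N : ℝ) ^ 2)
    have h1 : ∫ z in Om, tau R z * max 0 (-dv η z) ≤ ∫ z, 16 * C₂ / (N : ℝ) ^ 2 * (tau R z * W z) := by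
      rw [← integral_indicator hg.isOpen.measurableSet]
      refine integral_mono_of_nonneg (Eventually.of_forall fun z => ?_) hint (Eventually.of_forall fun z => ?_)
      · exact Set.indicator_nonneg (fun z _ => mul_nonneg (tau_nonneg hR z) (le_max_left _ _)) z
      · by_cases hz : z ∈ Om
        · simp only [Set.indicator_of_mem hz]
          calc tau R z * max 0 (-dv η z) ≤ tau R z * (16 * C₂ / N ^ 2 * W z) := mul_le_mul_of_nonneg_left (hle z hz) (tau_nonneg hR z)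
            _ = _ := by ring
        · simp only [Set.indicator_of_notMem hz]
          exact mul_nonneg (by positivity) (mul_nonneg (tau_nonneg hR z) (hW0 z))
    refine h1.trans ?_
    rw [integral_const_mul]
    have h2 := mul_le_mul_of_nonneg_left (hC₅ R hR) (show 0 ≤ 16 * C₂ / (N : ℝ) ^ 2 by positivity)
    refine h2.trans ?_
    have h3 : 16 * C₂ / (N : ℝ) ^ 2 * (12 * N * (d * En F R) + C₅) = 192 * C₂ * d / N * En F R + 16 * C₂ / (N : ℝ) ^ 2 * C₅ := by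
      field_simp
      ring
    rw [h3]
    have h4 := le_abs_self (16 * C₂ / (N : ℝ) ^ 2 * C₅)
    have h5 : 0 ≤ ((C₃ / m + C₄) + |16 * C₂ / (N : ℝ) ^ 2 * C₅|) * Len F R := by
      refine mul_nonneg (by positivity) (integral_nonneg fun z => mul_nonneg (norm_nonneg _) ?_)
      exact div_nonneg (Real.sqrt_nonneg _) (by positivity)
    linarith

/-- `LocalN1` is monotone in the last constant -/
theorem LocalN1.mono {v : ℂ × ℂ → ℂ × ℂ} {l : ℂ × ℂ → ℂ} {Om : Set ℂ} {g : ℂ → ℂ × ℂ} {I Λ : ℝ → ℝ} {s δ δ' : ℝ} (h : LocalN1 v l Om g I Λ s δ)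
    (hI : ∀ R, 1 ≤ R → 0 ≤ I R) (hδ : δ ≤ δ') : LocalN1 v l Om g I Λ s δ' := by
  obtain ⟨C, η, err, h1, h2, h3, h4, h5, h6, h7, h8⟩ := h
  refine ⟨C, η, err, h1, h2, h3, h4, h5, h6, h7, fun R hR => (h8 R hR).trans ?_⟩
  have := mul_le_mul_of_nonneg_right hδ (hI R hR)
  linarith

/-- `div v ζ' - l' / l = δ ζ'` -/
theorem DDv_eq {k : ℕ} {a b : ℂ × ℂ → ℂ} {v : ℂ × ℂ → ℂ × ℂ} (hv : ∀ p, v p = (p.1 ^ (k + 1) * a p, b p)) {l : ℂ × ℂ → ℂ} {ε : ℂ}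
    (hl : ε = 1 ∧ (∀ p, l p = p.1) ∨ ε = 0 ∧ ∀ p, l p = 1) {r : ℝ} {Om : Set ℂ} {g : ℂ → ℂ × ℂ} (hg : Crv1 v r Om g) {z : ℂ} (hz : z ∈ Om)
    (ha : AnalyticAt ℂ a (g z)) (hb : AnalyticAt ℂ b (g z)) (hvz : v (g z) ≠ 0) (hlz : l (g z) ≠ 0) :
    DDv v l g z = dlt k a b ε (g z) * ztv v g z := by
  have h1 : dvg v (g z) = fderiv ℂ (fun p : ℂ × ℂ => p.1 ^ (k + 1) * a p) (g z) (1, 0) + fderiv ℂ b (g z) (0, 1) := by
    have hA : AnalyticAt ℂ (fun p : ℂ × ℂ => p.1 ^ (k + 1) * a p) (g z) := (analyticAt_fst.pow (k + 1)).mul ha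
    have h2 : v = fun p => (p.1 ^ (k + 1) * a p, b p) := funext hv
    have h3 : HasFDerivAt v ((fderiv ℂ (fun p : ℂ × ℂ => p.1 ^ (k + 1) * a p) (g z)).prod (fderiv ℂ b (g z))) (g z) := by
      rw [h2]
      exact hA.differentiableAt.hasFDerivAt.prodMk hb.differentiableAt.hasFDerivAt
    rw [dvg, h3.fderiv]
    rfl
  have h2 : deriv (fun w => l (g w)) z / l (g z) = ε * ((g z).1 ^ k * a (g z)) * ztv v g z := by
    rcases hl with ⟨h3, h4⟩ | ⟨h3, h4⟩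
    · have h5 : (fun w => l (g w)) = fun w => (g w).1 := funext fun w => h4 _
      have hx : (g z).1 ≠ 0 := by rw [← h4]; exact hlz
      rw [h5, deriv_fst' (hg.an z hz).differentiableAt, hg.deriv_fst hz hvz, hv, h4, h3]
      simp only
      field_simp
      ring
    · have h5 : (fun w => l (g w)) = fun _ => 1 := funext fun w => h4 _
      rw [h5, deriv_const, zero_div, h3]
      ring
  rw [DDv, h1, h2, ← div_eq_dlt (b := b) ha.differentiableAt ε]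
  ring

/-- **The normal bundle half of the local package at a saddle-node with a formal weak separatrix.** -/
theorem localN1_formal {k : ℕ} (hk : 1 ≤ k) {a b : ℂ × ℂ → ℂ} (ha : AnalyticAt ℂ a 0) (hb : AnalyticAt ℂ b 0) (ha0 : a 0 ≠ 0)
    (hb0 : fderiv ℂ b 0 (0, 1) ≠ 0) {c : ℕ → ℂ} (hc : c 0 = 0)
    (hJ : ∀ J, (fun t => b (t, jet c J t) - deriv (jet c J) t * (t ^ (k + 1) * a (t, jet c J t))) =O[𝓝 0] fun t : ℂ => t ^ (J + 1)) :
    ∃ C₀ : ℝ, 0 ≤ C₀ ∧ ∀ {r : ℝ} (_ : 0 < r) (_ : AnalyticOnNhd ℂ a (closedBall 0 r)) (_ : AnalyticOnNhd ℂ b (closedBall 0 r))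
      {v : ℂ × ℂ → ℂ × ℂ} (_ : ∀ p, v p = (p.1 ^ (k + 1) * a p, b p)) (_ : ∀ p ∈ closedBall (0 : ℂ × ℂ) r, v p = 0 → p = 0)
      {l : ℂ × ℂ → ℂ} (_ : (∀ p, l p = p.1) ∨ ∀ p, l p = 1)
      {q : ℂ × ℂ → ℂ} (_ : AnalyticAt ℂ q 0) {N : ℕ} (_ : 1 ≤ N) (_ : ∀ J, N ≤ J → analyticOrderAt (fun t => q (t, jet c J t)) 0 = N)
      {ψ : ℂ × ℂ → ℝ} (_ : ContDiffAt ℝ 1 ψ 0) (d : ℕ) {M : ℕ} {F : ℂ → EN M} (_ : Differentiable ℂ F) (_ : ∀ z, F z ≠ 0)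
      {Qf : ℂ → ℂ} (_ : Differentiable ℂ Qf) (_ : ∀ z, ‖Qf z‖ ≤ ‖F z‖ ^ d) {c' : ℝ} (_ : 0 < c') {Om : Set ℂ} {g : ℂ → ℂ × ℂ}
      (_ : Crv1 v r Om g) (_ : ∀ z ∈ Om, ‖Qf z‖ * Real.exp (d * ψ (g z)) = c' * ‖q (g z)‖ * ‖F z‖ ^ d)
      (_ : ∀ z ∈ Om, g z ≠ 0 → l (g z) ≠ 0) {s : ℝ} (_ : 0 < s) (_ : s < r), LocalN1 v l Om g (En F) (Len F) s (C₀ * d / N) := by
  obtain ⟨C₁, hC₁, H₁⟩ := localN1_aux hk ha hb ha0 hb0 hc hJ 1
  obtain ⟨C₂, hC₂, H₂⟩ := localN1_aux hk ha hb ha0 hb0 hc hJ 0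
  refine ⟨C₁ + C₂, by positivity, ?_⟩
  intro r hr haa hbb v hv hv0 l hl q hq N hN hord ψ hψ d M F hF hF0 Qf hQf hQF c' hc' Om g hg hrel hl0 s hs hsr
  have hI : ∀ R, 1 ≤ R → 0 ≤ En F R := fun R hR => integral_nonneg fun z => mul_nonneg (tau_nonneg hR z) (sq_nonneg _)
  have hmemc : ∀ z ∈ Om, g z ∈ closedBall (0 : ℂ × ℂ) r := fun z hz => ball_subset_closedBall (hg.mem z hz)
  have hN0 : (0 : ℝ) < N := by exact_mod_cast hN
  have hd0 : (0 : ℝ) ≤ d := Nat.cast_nonneg d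
  rcases hl with hl | hl
  · have hD : ∀ z ∈ Om, g z ≠ 0 → DDv v l g z = dlt k a b 1 (g z) * ztv v g z := fun z hz h0 =>
      DDv_eq hv (Or.inl ⟨rfl, hl⟩) hg hz (haa _ (hmemc z hz)) (hbb _ (hmemc z hz)) (fun h1 => h0 (hv0 _ (hmemc z hz) h1)) (hl0 z hz h0)
    have h1 : LocalN1 v l Om g (En F) (Len F) s (C₁ * d / N) := H₁ hr haa hbb hv hv0 hq hN hord hψ d hF hF0 hQf hQF hc' hg hrel hD hs hsr
    refine h1.mono hI ?_
    gcongr
    linarith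
  · have hD : ∀ z ∈ Om, g z ≠ 0 → DDv v l g z = dlt k a b 0 (g z) * ztv v g z := fun z hz h0 =>
      DDv_eq hv (Or.inr ⟨rfl, hl⟩) hg hz (haa _ (hmemc z hz)) (hbb _ (hmemc z hz)) (fun h1 => h0 (hv0 _ (hmemc z hz) h1)) (hl0 z hz h0)
    have h1 : LocalN1 v l Om g (En F) (Len F) s (C₂ * d / N) := H₂ hr haa hbb hv hv0 hq hN hord hψ d hF hF0 hQf hQF hc' hg hrel hD hs hsr
    refine h1.mono hI ?_
    gcongr
    linarith

end Pool.Agent.MQ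

end
end

section

/-!
# MQ/LFormD: `localN1_formal` with any density
-/

set_option autoImplicit false

open Topology Filter Asymptotics Complex Set ComplexConjugate Metric MeasureTheory

noncomputable section

namespace Pool.Agent.MQ

open Pool.Agent.H36.BP (EN fs)
open Pool.Agent.H30M (tau tau_nonneg)

/-- `LocalN1` is monotone in the energy and in the length -/
theorem LocalN1.mono_dens {v : ℂ × ℂ → ℂ × ℂ} {l : ℂ × ℂ → ℂ} {Om : Set ℂ} {g : ℂ → ℂ × ℂ} {I I' Λ Λ' : ℝ → ℝ} {s δ : ℝ} (h : LocalN1 v l Om g I Λ s δ)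
    (hδ : 0 ≤ δ) (hI : ∀ R, 1 ≤ R → I R ≤ I' R) (hΛ : ∀ R, 1 ≤ R → Λ R ≤ Λ' R) : LocalN1 v l Om g I' Λ' s δ := by
  obtain ⟨C, η, err, h1, h2, h3, h4, h5, h6, h7, h8⟩ := h
  refine ⟨C, η, err, h1, h2, h3, h4, h5, h6, h7, fun R hR => (h8 R hR).trans ?_⟩
  have e1 := mul_le_mul_of_nonneg_left (hI R hR) hδ
  have e2 := mul_le_mul_of_nonneg_left (hΛ R hR) h1
  linarith

variable {M : ℕ} {F : ℂ → EN M} {lm : ℂ → ℝ}

theorem sn_lam_nonneg (z : ℂ) : 0 ≤ lam F z := div_nonneg (Real.sqrt_nonneg _) (by positivity)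

theorem En_le_dens (hlm : Continuous lm) (hle : ∀ z, lam F z ≤ lm z) {R : ℝ} (hR : 1 ≤ R) : En F R ≤ ∫ z, tau R z * lm z ^ 2 := by
  refine integral_mono_of_nonneg (Eventually.of_forall fun z => mul_nonneg (tau_nonneg hR z) (sq_nonneg _))
    (Pool.Agent.H30M.integrable_tau_mul hR (hlm.pow 2)) (Eventually.of_forall fun z => ?_)
  exact mul_le_mul_of_nonneg_left (pow_le_pow_left₀ (sn_lam_nonneg z) (hle z) 2) (tau_nonneg hR z)

theorem Len_le_dens (hlm : Continuous lm) (hle : ∀ z, lam F z ≤ lm z) {R : ℝ} (hR : 1 ≤ R) : Len F R ≤ ∫ z, ‖gr (tau R) z‖ * lm z := by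
  have h1 : ContDiff ℝ 1 (tau R) := (Pool.Agent.H30M.contDiff_tau R).of_le (by norm_num)
  have hc : Continuous fun z => ‖gr (tau R) z‖ := by
    have h2 : Continuous (fderiv ℝ (tau R)) := h1.continuous_fderiv one_ne_zero
    exact (grL.continuous.comp h2).norm
  have hs : HasCompactSupport fun z => ‖gr (tau R) z‖ := by
    have h2 : HasCompactSupport (fderiv ℝ (tau R)) := (Pool.Agent.H30M.hcs_tau hR).fderiv ℝ
    exact (h2.comp_left (g := grL) (map_zero _)).norm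
  refine integral_mono_of_nonneg (Eventually.of_forall fun z => mul_nonneg (norm_nonneg _) (sn_lam_nonneg z))
    ((hc.mul hlm).integrable_of_hasCompactSupport hs.mul_right) (Eventually.of_forall fun z => ?_)
  exact mul_le_mul_of_nonneg_left (hle z) (norm_nonneg _)

/-- **`localN1_formal` with any density `lm`.** -/
theorem localN1_formal_dens {k : ℕ} (hk : 1 ≤ k) {a b : ℂ × ℂ → ℂ} (ha : AnalyticAt ℂ a 0) (hb : AnalyticAt ℂ b 0) (ha0 : a 0 ≠ 0)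
    (hb0 : fderiv ℂ b 0 (0, 1) ≠ 0) {c : ℕ → ℂ} (hc : c 0 = 0)
    (hJ : ∀ J, (fun t => b (t, jet c J t) - deriv (jet c J) t * (t ^ (k + 1) * a (t, jet c J t))) =O[𝓝 0] fun t : ℂ => t ^ (J + 1)) :
    ∃ C₀ : ℝ, 0 ≤ C₀ ∧ ∀ {r : ℝ} (_ : 0 < r) (_ : AnalyticOnNhd ℂ a (closedBall 0 r)) (_ : AnalyticOnNhd ℂ b (closedBall 0 r))
      {v : ℂ × ℂ → ℂ × ℂ} (_ : ∀ p, v p = (p.1 ^ (k + 1) * a p, b p)) (_ : ∀ p ∈ closedBall (0 : ℂ × ℂ) r, v p = 0 → p = 0)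
      {l : ℂ × ℂ → ℂ} (_ : (∀ p, l p = p.1) ∨ ∀ p, l p = 1)
      {q : ℂ × ℂ → ℂ} (_ : AnalyticAt ℂ q 0) {N : ℕ} (_ : 1 ≤ N) (_ : ∀ J, N ≤ J → analyticOrderAt (fun t => q (t, jet c J t)) 0 = N)
      {ψ : ℂ × ℂ → ℝ} (_ : ContDiffAt ℝ 1 ψ 0) (d : ℕ) {M : ℕ} {F : ℂ → EN M} (_ : Differentiable ℂ F) (_ : ∀ z, F z ≠ 0)
      {Qf : ℂ → ℂ} (_ : Differentiable ℂ Qf) (_ : ∀ z, ‖Qf z‖ ≤ ‖F z‖ ^ d) {c' : ℝ} (_ : 0 < c') {Om : Set ℂ} {g : ℂ → ℂ × ℂ}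
      (_ : Crv1 v r Om g) (_ : ∀ z ∈ Om, ‖Qf z‖ * Real.exp (d * ψ (g z)) = c' * ‖q (g z)‖ * ‖F z‖ ^ d)
      (_ : ∀ z ∈ Om, g z ≠ 0 → l (g z) ≠ 0) {lm : ℂ → ℝ} (_ : Continuous lm) (_ : ∀ z, lam F z ≤ lm z) {s : ℝ} (_ : 0 < s) (_ : s < r),
      LocalN1 v l Om g (fun R => ∫ z, tau R z * lm z ^ 2) (fun R => ∫ z, ‖gr (tau R) z‖ * lm z) s (C₀ * d / N) := by
  obtain ⟨C₀, hC₀, H⟩ := localN1_formal hk ha hb ha0 hb0 hc hJ
  refine ⟨C₀, hC₀, ?_⟩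
  intro r hr haa hbb v hv hv0 l hl q hq N hN hord ψ hψ d M F hF hF0 Qf hQf hQF c' hc' Om g hg hrel hl0 lm hlm hle s hs hsr
  refine (H hr haa hbb hv hv0 hl hq hN hord hψ d hF hF0 hQf hQF hc' hg hrel hl0 hs hsr).mono_dens (by positivity)
    (fun R hR => En_le_dens hlm hle hR) (fun R hR => Len_le_dens hlm hle hR)

end Pool.Agent.MQ

end
end

section

/-!
# MQ2 TForm: a saddle-node with the strong separatrix in the weight and a formal weak separatrix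
-/

set_option autoImplicit false

open Topology Filter Metric MeasureTheory Asymptotics Laplacian

noncomputable section

namespace Pool.Agent.MQ2

open Pool.Agent.H36.BP (EN)
open Pool.Agent.H30M (tau LogSing)
open Pool.Agent.MQ

/-- the singular point of a saddle-node is isolated -/
theorem iso_formal {k : ℕ} {a b : ℂ × ℂ → ℂ} (ha : AnalyticAt ℂ a 0) (hb : AnalyticAt ℂ b 0) (ha0 : a 0 ≠ 0) (hb0 : b 0 = 0)
    (hb1 : fderiv ℂ b 0 (0, 1) ≠ 0) : ∀ᶠ q in 𝓝 (0 : ℂ × ℂ), q ≠ 0 → ((q.1 ^ (k + 1) * a q, b q) : ℂ × ℂ) ≠ 0 := by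
  have hline : HasDerivAt (fun t : ℂ => ((0, t) : ℂ × ℂ)) (0, 1) 0 := (hasDerivAt_const 0 (0 : ℂ)).prodMk (hasDerivAt_id 0)
  have h1 : HasDerivAt (fun t : ℂ => b (0, t)) (fderiv ℂ b 0 (0, 1)) 0 := by
    have h2 : HasFDerivAt b (fderiv ℂ b 0) ((0, 0) : ℂ × ℂ) := hb.differentiableAt.hasFDerivAt
    exact h2.comp_hasDerivAt 0 hline
  have h2 : ∀ᶠ t : ℂ in 𝓝[≠] 0, b (0, t) ≠ b (0, 0) := h1.eventually_ne hb1
  have h3 : ∀ᶠ t : ℂ in 𝓝 0, t ≠ 0 → b (0, t) ≠ 0 := by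
    filter_upwards [eventually_nhdsWithin_iff.1 h2] with t ht h0
    intro h4
    exact ht h0 (h4.trans (show b ((0 : ℂ), (0 : ℂ)) = 0 from hb0).symm)
  have h4 : ∀ᶠ q : ℂ × ℂ in 𝓝 0, q.2 ≠ 0 → b (0, q.2) ≠ 0 := (continuous_snd.tendsto (0 : ℂ × ℂ)).eventually h3
  filter_upwards [ha.continuousAt.eventually_ne ha0, h4] with q e1 e2 e3 e4
  have h5 : q.1 ^ (k + 1) * a q = 0 := congrArg Prod.fst e4
  have h6 : b q = 0 := congrArg Prod.snd e4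
  have h7 : q.1 = 0 := pow_eq_zero_iff (by omega) |>.1 ((mul_eq_zero.1 h5).resolve_right e1)
  have h8 : q.2 = 0 := by
    by_contra h9
    apply e2 h9
    have h10 : ((0 : ℂ), q.2) = q := Prod.ext h7.symm rfl
    rw [h10]
    exact h6
  exact e3 (Prod.ext h7 h8)

theorem fzero_formal_false {c : ℕ → ℂ} {g : ℂ × ℂ → ℂ} (hc : c 0 = 0) (hg : ∀ᶠ p in 𝓝 (0 : ℂ × ℂ), g p = p.1) : ¬ FZero (fun N t => (t, MQ.jet c N t)) g := by
  intro h
  have h1 := h 1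
  have h2 : Tendsto (fun t : ℂ => ((t, MQ.jet c 1 t) : ℂ × ℂ)) (𝓝 0) (𝓝 0) := by
    have h3 := (continuous_id.prodMk (jet_differentiable c 1).continuous).tendsto (0 : ℂ)
    have h4 : ((id (0 : ℂ), MQ.jet c 1 0) : ℂ × ℂ) = 0 := by rw [MQ.jet_zero hc]; rfl
    rwa [h4] at h3
  have h5 : (fun t : ℂ => t) =O[𝓝 0] fun t : ℂ => t ^ (1 + 1) := by
    refine h1.congr' ?_ (Eventually.of_forall fun _ => rfl)
    filter_upwards [h2.eventually hg] with t ht using ht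
  obtain ⟨C, hC0, hC⟩ := h5.exists_pos
  rw [isBigOWith_iff] at hC
  have h6 : ∀ᶠ t : ℂ in 𝓝[≠] 0, ‖t‖ < 1 / C := by
    refine nhdsWithin_le_nhds ?_
    filter_upwards [ball_mem_nhds (0 : ℂ) (show 0 < 1 / C by positivity)] with t ht using by simpa using ht
  have h10 : ∀ᶠ t : ℂ in 𝓝[≠] 0, ‖t‖ ≤ C * ‖t ^ (1 + 1)‖ := nhdsWithin_le_nhds hC
  have h11 : ∀ᶠ t : ℂ in 𝓝[≠] 0, t ≠ 0 := self_mem_nhdsWithin
  obtain ⟨t, h7, h8, h9⟩ := (h6.and (h10.and h11)).exists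
  have ht0 : 0 < ‖t‖ := norm_pos_iff.2 h9
  rw [norm_pow] at h8
  rw [lt_div_iff₀ hC0] at h7
  have h12 : C * ‖t‖ ^ (1 + 1) = (‖t‖ * C) * ‖t‖ := by ring
  have h13 : (‖t‖ * C) * ‖t‖ < 1 * ‖t‖ := mul_lt_mul_of_pos_right h7 ht0
  linarith

theorem good_formal {k : ℕ} (hk : 1 ≤ k) {a b : ℂ × ℂ → ℂ} (ha : AnalyticAt ℂ a 0) (hb : AnalyticAt ℂ b 0) (ha0 : a 0 ≠ 0) (hb0 : b 0 = 0)
    (hb1 : fderiv ℂ b 0 (0, 1) ≠ 0) {c : ℕ → ℂ} (hc : c 0 = 0)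
    (hJ : ∀ J, (fun t => b (t, jet c J t) - deriv (jet c J) t * (t ^ (k + 1) * a (t, jet c J t))) =O[𝓝 0] fun t : ℂ => t ^ (J + 1)) :
    Good (fun g J => (∀ᶠ p in 𝓝 (0 : ℂ × ℂ), g p = p.1) ∧ ∀ᶠ p in 𝓝 (0 : ℂ × ℂ), J p = p.1 ^ (k + 1)) fun p => (p.1 ^ (k + 1) * a p, b p) := by
  refine ⟨1, fun _ N t => (t, jet c N t), fun _ => sep_formal hk ha hb hb0 hb1 hc hJ, fun g J hP hW _ => ?_⟩
  obtain ⟨hg, hJJ⟩ := hP
  obtain ⟨C₀, hC₀, H⟩ := localN1_formal_dens hk ha hb ha0 hb1 hc hJ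
  set v : ℂ × ℂ → ℂ × ℂ := fun p => (p.1 ^ (k + 1) * a p, b p) with hv
  have hvan : AnalyticAt ℂ v 0 := ((analyticAt_fst.pow _).mul ha).prod hb
  have hiso : ∀ᶠ q in 𝓝 (0 : ℂ × ℂ), q ≠ 0 → v q ≠ 0 := iso_formal ha hb ha0 hb0 hb1
  filter_upwards [ev_closedBall ha.eventually_analyticAt, ev_closedBall hb.eventually_analyticAt, ev_closedBall (ha.continuousAt.eventually_ne ha0),
    ev_closedBall hg, ev_closedBall hJJ, ev_closedBall hiso, DD_cof hvan hiso hW, self_mem_nhdsWithin]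
    with r a1 a2 a3 a5 a6 a7 a8 a9
  intro s hs hsr B hB
  have hr : 0 < r := a9
  refine ⟨1, C₀, zero_le_one, hC₀, fun d n q ψ hd hn hq hψ hord M F Q lm Om p hD => ?_⟩
  obtain ⟨_, -, h1⟩ := a8
  have hc1 : Crv1 v r Om p := hD.crv
  have hmem : ∀ z ∈ Om, p z ∈ closedBall (0 : ℂ × ℂ) r := fun z hz => ball_subset_closedBall (hc1.mem z hz)
  have hgz : ∀ z ∈ Om, p z ≠ 0 → g (p z) ≠ 0 := fun z hz h0 => (h1 Om p hc1 hD.g_ne z hz (a7 _ (hmem z hz) h0)).1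
  have hgz' : ∀ z ∈ Om, p z ≠ 0 → (fun q : ℂ × ℂ => q.1) (p z) ≠ 0 := by
    intro z hz h0
    have := hgz z hz h0
    rwa [a5 _ (hmem z hz)] at this
  obtain ⟨n', hnn', hn'⟩ : HasOrd (fun N t => (t, jet c N t)) q n := by
    rcases hord 0 with h2 | h2
    · exact absurd h2 (fzero_formal_false hc hg)
    · exact h2
  obtain ⟨c', hc', hrel⟩ := hD.Q_eq
  have hv0 : ∀ p ∈ closedBall (0 : ℂ × ℂ) r, v p = 0 → p = 0 := fun p hp h0 => by
    by_contra h2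
    exact a7 p hp h2 h0
  have hN := H hr a1 a2 (v := v) (fun _ => rfl) hv0 (l := fun q => q.1) (Or.inl fun _ => rfl) hq (hn.trans hnn') hn' hψ d hD.F_diff hD.F_ne hD.Q_diff
    hD.Q_le hc' hc1 hrel hgz' hD.lm_cont hD.lam_le hs hsr
  have hd0 : (0 : ℝ) ≤ d := Nat.cast_nonneg d
  have hn0 : (0 : ℝ) < n := by exact_mod_cast hn
  have hnr : (n : ℝ) ≤ n' := by exact_mod_cast hnn'
  have hI : ∀ R, 1 ≤ R → 0 ≤ ∫ z, tau R z * lm z ^ 2 := fun R hR =>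
    integral_nonneg fun z => mul_nonneg (Pool.Agent.H30M.tau_nonneg hR z) (sq_nonneg _)
  have hN' : LocalN1 v g Om p (fun R => ∫ z, tau R z * lm z ^ 2) (fun R => ∫ z, ‖gr (tau R) z‖ * lm z) s (C₀ * d / n) :=
    (LocalN1.congr_weight hc1 (fun q hq => a5 q (ball_subset_closedBall hq)) hN).mono hI
      (div_le_div_of_nonneg_left (by positivity) hn0 hnr)
  -- the pointwise bound
  obtain ⟨Cb, hCb⟩ := (isCompact_closedBall (0 : ℂ × ℂ) r).bddAbove_image (f := fun q => ‖a q‖⁻¹)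
    (ContinuousOn.inv₀ (fun q hq => (a1 q hq).continuousAt.norm.continuousWithinAt) fun q hq => norm_ne_zero_iff.2 (a3 q hq))
  have hCb0 : 0 ≤ Cb := by
    have h0 : (0 : ℂ × ℂ) ∈ closedBall (0 : ℂ × ℂ) r := mem_closedBall_self hr.le
    exact (inv_nonneg.2 (norm_nonneg (a 0))).trans (hCb ⟨0, h0, rfl⟩)
  refine locX_of_localN1 (C₁ := Cb * r * B) hB (by positivity) hD.lm_cont hD.lm_nonneg hD.lm_ge hN' fun z hz _ => ?_
  have hz' := hmem z hz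
  rw [a5 _ hz', a6 _ hz']
  by_cases hx : (p z).1 = 0
  · rw [hx, norm_zero, mul_zero, zero_mul]
    exact mul_nonneg (by positivity) (hD.lm_nonneg z)
  · have hx0 : 0 < ‖(p z).1‖ := norm_pos_iff.2 hx
    have ha' : 0 < ‖a (p z)‖ := norm_pos_iff.2 (a3 _ hz')
    have hv1 : (v (p z)).1 ≠ 0 := mul_ne_zero (pow_ne_zero _ hx) (a3 _ hz')
    rw [hc1.ztv_fst hz hv1]
    have hv1' : (v (p z)).1 = (p z).1 ^ (k + 1) * a (p z) := rfl
    rw [hv1', norm_div, norm_mul, norm_pow]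
    have h2 : ‖(p z).1‖ ≤ r := by
      have := norm_fst_le (p z)
      rw [mem_closedBall_zero_iff] at hz'
      linarith
    have h3 : ‖(deriv p z).1‖ ≤ B * lm z := (norm_fst_le _).trans (hD.lm_ge z hz)
    have h4 : ‖a (p z)‖⁻¹ ≤ Cb := hCb ⟨p z, hz', rfl⟩
    have e : ‖(deriv p z).1‖ / (‖(p z).1‖ ^ (k + 1) * ‖a (p z)‖) * ‖(p z).1‖ * ‖(p z).1‖ ^ (k + 1) =
        ‖a (p z)‖⁻¹ * ‖(p z).1‖ * ‖(deriv p z).1‖ := by
      field_simp
    have e' : ‖(p z).1 ^ (k + 1)‖ = ‖(p z).1‖ ^ (k + 1) := norm_pow _ _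
    have hBl : 0 ≤ B * lm z := mul_nonneg hB (hD.lm_nonneg z)
    rw [e]
    calc ‖a (p z)‖⁻¹ * ‖(p z).1‖ * ‖(deriv p z).1‖ ≤ Cb * r * (B * lm z) :=
          mul_le_mul (mul_le_mul h4 h2 (by positivity) hCb0) h3 (norm_nonneg _) (by positivity)
      _ = Cb * r * B * lm z := by ring

end Pool.Agent.MQ2

end
end

section

/-!
# MQ3 WtNB: the upper bound for the weight, and where it is not identically zero

`wt_le`: `|wt|^(1/m) |F|^(j/m) = |w0 (p)|^(1/m) |ρ (p)|^(j/m)`, `w0 y = Wf (ρ y; ∂₁ρ, ∂₂ρ)`.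
`wne`: the set of the points near which the weight is zero in a box is open and closed (`wt_chg`); if `Wf (F z; F' z, w) ≠ 0` then the form is not zero in a
chart of the surface at `F z`, so it is not zero in the boxes at the points near `z` off the axes.
-/

set_option autoImplicit false

open Topology Filter Metric MvPolynomial

noncomputable section

namespace Pool.Agent.MQ3

open Pool.Agent.H36.BP (EN)
open Pool.Agent.H17BP (Surface IsForm)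
open Pool.Agent.H17EF (projVar coneE)

variable {M : ℕ} {P : Ideal (MvPolynomial (Fin (M + 1)) ℂ)} {RD : MvPolynomial (Fin (M + 1)) ℂ} {m : ℕ} {X : NCModel P RD} {θ : WDiff (coneE P) m}
  {F : ℂ → EN M} {Wf : EN M → EN M → EN M → ℂ} {mK jH : ℕ}

/-- the linear combinations of two tangent vectors, modulo the radial direction -/
private theorem form_comb {Z : Set (EN M)} (hW : IsForm Z mK jH Wf) {ρ : ℂ × ℂ → EN M} {p : ℂ × ℂ} (hρ : AnalyticAt ℂ ρ p) (hm : ∀ᶠ q in 𝓝 p, ρ q ∈ Z)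
    (w₁ w₂ : ℂ × ℂ) (a₁ a₂ : ℂ) : Wf (ρ p) (fderiv ℂ ρ p w₁ + a₁ • ρ p) (fderiv ℂ ρ p w₂ + a₂ • ρ p) =
      (w₁.1 * w₂.2 - w₁.2 * w₂.1) ^ mK * Wf (ρ p) (fderiv ℂ ρ p (1, 0)) (fderiv ℂ ρ p (0, 1)) := by
  have hT : ∀ v, fderiv ℂ ρ p v ∈ Pool.Agent.H17BP.Tan Z (ρ p) := fun v => by
    obtain ⟨γ, ⟨h1, h2⟩, h3, h4⟩ := Pool.Agent.E1.ResL_tan hρ hm v
    exact ⟨γ, h1, h2, h3, h4⟩
  have hs : ∀ v : ℂ × ℂ, fderiv ℂ ρ p v = v.1 • fderiv ℂ ρ p (1, 0) + v.2 • fderiv ℂ ρ p (0, 1) := fun v => by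
    have h6 : v = v.1 • ((1 : ℂ), (0 : ℂ)) + v.2 • ((0 : ℂ), (1 : ℂ)) := by
      ext <;> simp
    conv_lhs => rw [h6, map_add, map_smul, map_smul]
  rw [hW.add_smul _ hm.self_of_nhds _ (hT _) _ (hT _), hs w₁, hs w₂, hW.det _ hm.self_of_nhds _ (hT _) _ (hT _)]

/-- not zero in a box at a point off the axes, if not zero in a parametrization of the same point -/
private theorem form_box (hX : Surface (coneE P)) (hW : IsForm (coneE P) mK jH Wf) {i : X.ι} {p : ℂ × ℂ} (hp : p ∈ DS) (hpB : p ∈ X.B i)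
    {σ : ℂ × ℂ → EN M} {y : ℂ × ℂ} (hσ : AnalyticAt ℂ σ y) (hσm : ∀ᶠ q in 𝓝 y, σ q ∈ coneE P) {κ : ℂ} (hκ : κ ≠ 0) (h : σ y = κ • X.ρ i p)
    (h0 : Wf (σ y) (fderiv ℂ σ y (1, 0)) (fderiv ℂ σ y (0, 1)) ≠ 0) :
    Wf (X.ρ i p) (fderiv ℂ (X.ρ i) p (1, 0)) (fderiv ℂ (X.ρ i) p (0, 1)) ≠ 0 := by
  have hρ := wtn_rho_an hpB
  have hρm := wtn_rho_mem hpB
  -- the vectors in the box
  have hv : ∀ v, ∃ (w : ℂ × ℂ) (a : ℂ), fderiv ℂ (X.ρ i) p w + a • X.ρ i p ∈ Pool.Agent.H17BP.Tan (coneE P) (X.ρ i p) ∧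
      fderiv ℂ σ y v = κ • (fderiv ℂ (X.ρ i) p w + a • X.ρ i p) := by
    intro v
    obtain ⟨γ, ⟨h1, h2⟩, h3, h4⟩ := Pool.Agent.E1.ResL_tan hσ hσm v
    have h5 : Pool.Agent.H14.PP.Tan (coneE P) (X.ρ i p) (κ⁻¹ • fderiv ℂ σ y v) := by
      refine ⟨fun t => κ⁻¹ • γ t, ⟨(analyticAt_const (v := κ⁻¹)).fun_smul h1, ?_⟩, ?_, ?_⟩
      · filter_upwards [h2] with t ht
        exact hX.smul _ ht _ (inv_ne_zero hκ)
      · show κ⁻¹ • γ 0 = _
        rw [h3, h, smul_smul, inv_mul_cancel₀ hκ, one_smul]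
      · rw [deriv_fun_const_smul _ h1.differentiableAt, h4]
    obtain ⟨w, a, h6⟩ := (X.box i).span hX hp _ h5
    refine ⟨w, a, ?_, ?_⟩
    · rw [← h6]
      obtain ⟨γ', ⟨g1, g2⟩, g3, g4⟩ := h5
      exact ⟨γ', g1, g2, g3, g4⟩
    · rw [← h6, smul_smul, mul_inv_cancel₀ hκ, one_smul]
  obtain ⟨w₁, a₁, t₁, e₁⟩ := hv (1, 0)
  obtain ⟨w₂, a₂, t₂, e₂⟩ := hv (0, 1)
  intro hcon
  apply h0
  have h7 := hW.scale _ hρm.self_of_nhds _ t₁ _ t₂ κ hκ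
  rw [form_comb hW hρ hρm, hcon, mul_zero, ← e₁, ← e₂, ← h] at h7
  exact (mul_eq_zero.1 h7).resolve_left (pow_ne_zero _ hκ)

private theorem jc_ne' {Φ : ℂ × ℂ → ℂ × ℂ} {p : ℂ × ℂ} (h : (fderiv ℂ Φ p).det ≠ 0) : jc Φ p ≠ 0 := by
  have h1 : (fderiv ℂ Φ p).det = jc Φ p := by
    have h2 : (fderiv ℂ Φ p).det = LinearMap.det (fderiv ℂ Φ p : ℂ × ℂ →ₗ[ℂ] ℂ × ℂ) := rfl
    rw [h2, ← LinearMap.det_toMatrix (Module.Basis.finTwoProd ℂ), Matrix.det_fin_two]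
    simp [LinearMap.toMatrix_apply, jc]
  rwa [h1] at h

/-- the curve is off the axes, with isolated exceptions -/
theorem wtn_off (hF : WCrv θ RD F) (Y : NCLift X F) {i : X.ι} {z : ℂ} (hz : z ∈ Y.U i) : ∀ᶠ w in 𝓝[≠] z, Y.p i w ∈ DS := by
  obtain ⟨d, hd⟩ := hF.hom
  have han : ∀ z, AnalyticAt ℂ (fun w => eval (F w).ofLp RD) z := fun z =>
    AnalyticAt.comp (g := fun x : EN M => eval x.ofLp RD) (f := F) (Pool.Agent.H14.PP.analyticAt_evalEN RD (F z)) (hF.diff.analyticAt z)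
  have h1 : ∀ᶠ w in 𝓝[≠] z, eval (F w).ofLp RD ≠ 0 := by
    rcases (han z).eventually_eq_zero_or_eventually_ne_zero with h | h
    · exfalso
      obtain ⟨w, hw⟩ := hF.ne
      have h2 : AnalyticOnNhd ℂ (fun w => eval (F w).ofLp RD) Set.univ := fun z _ => han z
      have h3 := h2.eq_of_eventuallyEq (g := fun _ => (0 : ℂ)) (fun z _ => analyticAt_const) (z₀ := z) h
      exact hw (congrFun h3 w)
    · exact h
  filter_upwards [h1, nhdsWithin_le_nhds ((Y.isOpen i).mem_nhds hz)] with w hw hwU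
  have hB := Y.mem i w hwU
  obtain ⟨c, hc, he⟩ := Y.eq i w hwU
  have h2 : eval (X.ρ i (Y.p i w)).ofLp RD ≠ 0 := by
    intro h3
    apply hw
    have h4 : (F w).ofLp = c • (X.ρ i (Y.p i w)).ofLp := by rw [he]; rfl
    rw [h4, Pool.Agent.H17EF.eval_smul_form hd, h3, mul_zero]
  have h3 : (Y.p i w).1 * (Y.p i w).2 ≠ 0 := fun h4 => h2 ((X.div i _ hB).2 h4)
  obtain ⟨l1, l2⟩ := wtn_lt hB
  exact ⟨⟨left_ne_zero_of_mul h3, l1⟩, ⟨right_ne_zero_of_mul h3, l2⟩⟩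

/-- not identically zero at one point: not identically zero anywhere -/
theorem wne (hX : Surface (coneE P)) (hm : 1 ≤ mK) (hW : IsForm (coneE P) mK jH Wf) (hF : WCrv θ RD F) (Y : NCLift X F)
    (h : ∃ z w, Pool.Agent.H17BP.Tan (coneE P) (F z) w ∧ Wf (F z) (deriv F z) w ≠ 0) : WNe Wf Y := by
  have an := wt_an hX hm hW hF.diff Y
  have dich : ∀ i, ∀ z ∈ Y.U i, (∀ᶠ w in 𝓝 z, wt Wf Y i w = 0) ∨ ∀ᶠ w in 𝓝[≠] z, wt Wf Y i w ≠ 0 := fun i z hz =>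
    (an i z hz).eventually_eq_zero_or_eventually_ne_zero
  have tr : ∀ i j z, z ∈ Y.U i → z ∈ Y.U j → (wt Wf Y i z = 0 ↔ wt Wf Y j z = 0) := by
    intro i j z hi hj
    obtain ⟨Φ, hΦ, h0⟩ := exists_chg Y hi hj
    have h1 := (wt_chg hX hm hW hF.diff Y hi hj hΦ h0).self_of_nhds.2
    rw [h1, mul_eq_zero, or_iff_right (pow_ne_zero _ (jc_ne' hΦ.det))]
  obtain ⟨B, hB⟩ : ∃ B : Set ℂ, B = {z | ∃ i, z ∈ Y.U i ∧ ∀ᶠ w in 𝓝 z, wt Wf Y i w = 0} := ⟨_, rfl⟩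
  have hopen : IsOpen B := by
    rw [isOpen_iff_mem_nhds]
    intro z hz
    rw [hB] at hz ⊢
    obtain ⟨i, hi, h1⟩ := hz
    filter_upwards [(Y.isOpen i).mem_nhds hi, h1.eventually_nhds] with w h2 h3
    exact ⟨i, h2, h3⟩
  have hclosed : IsClosed B := by
    rw [← isOpen_compl_iff, isOpen_iff_mem_nhds]
    intro z hz
    obtain ⟨i, hi, _⟩ := Y.cover z
    have h1 : ∀ᶠ w in 𝓝[≠] z, wt Wf Y i w ≠ 0 := by
      rcases dich i z hi with h1 | h1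
      · exfalso
        apply hz
        rw [hB]
        exact ⟨i, hi, h1⟩
      · exact h1
    rw [eventually_nhdsWithin_iff] at h1
    filter_upwards [h1, (Y.isOpen i).mem_nhds hi] with w h2 h3 h4
    by_cases hwz : w = z
    · rw [hwz] at h4
      exact hz h4
    · rw [hB] at h4
      obtain ⟨j, hj, h5⟩ := h4
      exact h2 hwz ((tr i j w h3 hj).2 h5.self_of_nhds)
  rcases isClopen_iff.1 ⟨hclosed, hopen⟩ with h1 | h1
  · intro i z hz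
    rcases dich i z hz with h2 | h2
    · exfalso
      have h3 : z ∈ B := by
        rw [hB]
        exact ⟨i, hz, h2⟩
      rw [h1] at h3
      exact h3
    · exact h2
  · exfalso
    obtain ⟨z, w₀, hw₀, hne⟩ := h
    obtain ⟨i, hi, hzero⟩ : z ∈ {z | ∃ i, z ∈ Y.U i ∧ ∀ᶠ w in 𝓝 z, wt Wf Y i w = 0} := by
      rw [← hB, h1]
      exact Set.mem_univ z
    obtain ⟨σ, τ, hσ, h0⟩ := hX.chart (F z) (hF.mem z)
    have hcoef := (Pool.Agent.H36.TB.exists_coef hσ).self_of_nhds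
    have hτ0 : τ (σ 0) = 0 := hσ.left.self_of_nhds
    obtain ⟨c₁, a₁, _, _, g₁⟩ := hcoef F z (hF.diff.analyticAt z) (Eventually.of_forall hF.mem) h0.symm
    obtain ⟨γ, k1, k2, k3, k4⟩ := hw₀
    obtain ⟨c₂, a₂, _, _, g₂⟩ := hcoef γ 0 k1 k2 (k3.trans h0.symm)
    rw [hτ0, ← map_smul] at g₁ g₂
    rw [k4] at g₂
    have hσ0 : Wf (σ 0) (fderiv ℂ σ 0 (1, 0)) (fderiv ℂ σ 0 (0, 1)) ≠ 0 := by
      intro h2
      apply hne
      rw [g₁, g₂, ← h0, form_comb hW hσ.σ_an hσ.σ_mem, h2, mul_zero]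
    have hWσ := hW.analytic σ 0 hσ.σ_an hσ.σ_mem
    have e1 : ∀ᶠ y in 𝓝 (0 : ℂ × ℂ), Wf (σ y) (fderiv ℂ σ y (1, 0)) (fderiv ℂ σ y (0, 1)) ≠ 0 := hWσ.continuousAt.eventually_ne hσ0
    have hFt : Tendsto F (𝓝 z) (𝓝 (σ 0)) := by
      rw [h0]
      exact (hF.diff z).continuousAt.tendsto
    have hτt : Tendsto (fun w => τ (F w)) (𝓝 z) (𝓝 0) := by
      have h2 := hσ.τ_an.continuousAt.tendsto.comp hFt
      rw [hτ0] at h2
      exact h2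
    have e2 := hFt.eventually hσ.right
    have e3 := hτt.eventually e1
    have e4 := hτt.eventually hσ.σ_an.eventually_analyticAt
    have e5 := hτt.eventually hσ.σ_mem.eventually_nhds
    have e6 : ∀ᶠ w in 𝓝 z, w ∈ Y.U i := (Y.isOpen i).mem_nhds hi
    have e7 := (((e2.and e3).and (e4.and e5)).and (hzero.and e6)).filter_mono (nhdsWithin_le_nhds (s := {z}ᶜ))
    obtain ⟨w, ⟨⟨⟨f2, f3⟩, f4, f5⟩, f7, f8⟩, f6⟩ := (e7.and (wtn_off hF Y hi)).exists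
    obtain ⟨c, hc, f9⟩ := f2 (hF.mem w)
    obtain ⟨hcf, f10⟩ := cf_spec Y f8
    have f11 : σ (τ (F w)) = (c⁻¹ * cf Y i w) • X.ρ i (Y.p i w) := by
      rw [mul_smul, ← f10]
      conv_rhs => rw [f9]
      rw [smul_smul, inv_mul_cancel₀ hc, one_smul]
    have f12 := form_box hX hW f6 (Y.mem i w f8) f4 f5 (mul_ne_zero (inv_ne_zero hc) hcf) f11 f3
    rw [wt_eq hX hW Y f8] at f7
    exact (mul_ne_zero (inv_ne_zero (pow_ne_zero _ hcf)) f12) f7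

end Pool.Agent.MQ3

end
end
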