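import Pool.Agent.H43.TL2.M108
import Pool.Agent.H43.TL2.M116
import Pool.Agent.H43.TL2.M119
import Pool.Agent.H43.TL2.M96

/-! The parts of this file: MQK.LogNL, MQK.WtL, MQK.EtaLL, MQK.PoleLoc. -/

section

/-!
# MQK LogNL: the potentials have logarithmic singularities, for a weight with poles

Port of `MQ3/LogN`: the weight enters only through its analyticity along the curve (`wt_anK`) and `WNe`.
-/

set_option autoImplicit false

open Topology Filter Metric MvPolynomial MeasureTheory Laplacian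

noncomputable section

namespace Pool.Agent.MQK

open Pool.Agent.MQL

open Pool.Agent.H36.BP (EN fs)
open Pool.Agent.H14.PP (Tan)
open Pool.Agent.H17BP (Surface IsForm)
open Pool.Agent.H17EF (projVar coneE)
open Pool.Agent.H30M (tau LogSing)
open Pool.Agent.MQ (lam En ztv dvg gr dv)
open Pool.Agent.MQ3

variable {M : ℕ} {P : Ideal (MvPolynomial (Fin (M + 1)) ℂ)} {RD Ra : MvPolynomial (Fin (M + 1)) ℂ} {Ko : Set (EN M)} {m : ℕ} {X : NCModel P RD} {θ : WDiff (coneE P) m}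
  {l : LF M} {S : Web X θ l} {Wf : EN M → EN M → EN M → ℂ} {mK jH : ℕ}

/-! ## general facts -/

/-- a form along an entire curve -/
private theorem ln_ev {F : ℂ → EN M} (hF : Differentiable ℂ F) {R : MvPolynomial (Fin (M + 1)) ℂ} (hR : ∃ z, eval (F z).ofLp R ≠ 0) (z : ℂ) :
    ∀ᶠ w in 𝓝[≠] z, eval (F w).ofLp R ≠ 0 := by
  have han : AnalyticOnNhd ℂ (fun w => eval (F w).ofLp R) Set.univ := by
    intro w _
    have h1 : AnalyticAt ℂ (fun w => (F w).ofLp) w := by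
      have h2 : Differentiable ℂ fun w => (F w).ofLp := (EuclideanSpace.equiv (Fin (M + 1)) ℂ).differentiable.comp hF
      exact h2.analyticAt w
    have h2 : AnalyticAt ℂ (fun w => aeval (fun s => (F w).ofLp s) R) w :=
      AnalyticAt.aeval_mvPolynomial (fun s => (analyticAt_pi_iff.1 h1) s) R
    simpa only [MvPolynomial.aeval_eq_eval] using h2
  rcases (han z (Set.mem_univ z)).eventually_eq_zero_or_eventually_ne_zero with h | h
  · exfalso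
    obtain ⟨w, hw⟩ := hR
    exact hw (han.eqOn_zero_of_preconnected_of_eventuallyEq_zero isPreconnected_univ (Set.mem_univ z) h (Set.mem_univ w))
  · exact h

/-- a vector with three analytic components -/
private theorem ln_vec {a b c : ℂ → ℂ} {z : ℂ} (ha : AnalyticAt ℂ a z) (hb : AnalyticAt ℂ b z) (hc : AnalyticAt ℂ c z) :
    AnalyticAt ℂ (fun w => (WithLp.toLp 2 ![a w, b w, c w] : EN 2)) z := by
  have h1 : AnalyticAt ℂ (fun w => (![a w, b w, c w] : Fin 3 → ℂ)) z := by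
    refine AnalyticAt.pi fun i => ?_
    fin_cases i
    · exact ha
    · exact hb
    · exact hc
  exact ((EuclideanSpace.equiv (Fin 3) ℂ).symm.toContinuousLinearMap.analyticAt _).comp h1

private theorem ln_vec_ne {a b c : ℂ} (h : a ≠ 0 ∨ b ≠ 0 ∨ c ≠ 0) : (WithLp.toLp 2 ![a, b, c] : EN 2) ≠ 0 := by
  intro h0
  have h1 : (![a, b, c] : Fin 3 → ℂ) = 0 := congrArg WithLp.ofLp h0
  rcases h with h | h | h
  · exact h (congrFun h1 0)
  · exact h (congrFun h1 1)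
  · exact h (congrFun h1 2)

/-- `ζ'` is meromorphic -/
private theorem ln_mero {v : ℂ × ℂ → ℂ × ℂ} {p : ℂ → ℂ × ℂ} {z : ℂ} (hp : AnalyticAt ℂ p z) (hv : AnalyticAt ℂ v (p z)) :
    MeromorphicAt (ztv v p) z := by
  classical
  have hvp : AnalyticAt ℂ (fun w => v (p w)) z := hv.comp hp
  have h1 := Pool.Agent.MQ.an_fst hvp
  have h2 := Pool.Agent.MQ.an_snd hvp
  rcases h2.eventually_eq_zero_or_eventually_ne_zero with h3 | h3
  · have h5 : MeromorphicAt (fun w => (deriv p w).1 / (v (p w)).1) z := (Pool.Agent.MQ.an_fst hp.deriv).meromorphicAt.fun_div h1.meromorphicAt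
    refine h5.congr ?_
    filter_upwards [h3.filter_mono nhdsWithin_le_nhds] with w e1
    unfold ztv
    rw [if_pos e1]
  · have h5 : MeromorphicAt (fun w => (deriv p w).2 / (v (p w)).2) z := (Pool.Agent.MQ.an_snd hp.deriv).meromorphicAt.fun_div h2.meromorphicAt
    refine h5.congr ?_
    filter_upwards [h3] with w e1
    exact (Pool.Agent.MQ.ztv_snd e1).symm

private theorem ln_log_mero {f : ℂ → ℂ} {z : ℂ} (hf : MeromorphicAt f z) (hne : ∀ᶠ w in 𝓝[≠] z, f w ≠ 0) : ∃ c, LogSing (fun w => Real.log ‖f w‖) c z := by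
  refine ⟨_, LogSing.log_norm_mero hf ?_⟩
  intro htop
  obtain ⟨w, h1, h2⟩ := ((meromorphicOrderAt_eq_top_iff.1 htop).and hne).exists
  exact h2 h1

private theorem ln_ne0 {x : EN M} (hx : x ∈ coneE P) : x ≠ 0 := by
  intro h
  have h1 : (Pool.Agent.H17EF.LE M).symm x ∈ Pool.Agent.H13.SM.cone P := hx
  apply h1.1
  rw [h, map_zero]

private theorem ln_freq {Q : ℂ → Prop} {z : ℂ} (h : ∀ᶠ w in 𝓝[≠] z, Q w) : ∃ᶠ w in 𝓝 z, Q w :=
  h.frequently.filter_mono nhdsWithin_le_nhds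

/-- the weight along the curve is analytic -/
private theorem ln_wt_an {F : ℂ → EN M} (hX : Surface (coneE P)) (hW : LW P Ko mK jH Wf) (hF : LCrv θ RD Ko Ra F) (Y : NCLift X F) (i : X.ι) :
    ∀ z ∈ Y.U i, AnalyticAt ℂ (wt Wf Y i) z :=
  fun z hz => wt_anK hX hW.op hW.form hF.diff (hF.avoid) Y i z hz

theorem logSing_N (hX : Surface (coneE P)) (hW : LW P Ko mK jH Wf) (C : Cov S Ra) (k : Fin C.nN) {F : ℂ → EN M}
    (hF : LCrv θ RD Ko Ra F) (Y : NCLift X F) (hne : WNe Wf Y) :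
    ∀ z ∈ Y.U (C.b k), Y.p (C.b k) z ∈ ball (C.y k) (C.t k) → ∃ c, 0 ≤ c ∧ LogSing (eN (C.H k) Wf mK jH Y (C.b k)) c z := by
  intro z hz hzb
  have hBC : BCrv θ l (X.ρ (C.b k)) F (Y.U (C.b k)) (Y.p (C.b k)) := bcrv hF.toWCrv Y (C.b k)
  have hp := hBC.p_an z hz
  obtain ⟨p, hpe⟩ : ∃ p, p = Y.p (C.b k) := ⟨_, rfl⟩
  rw [← hpe] at hp hzb
  have hpd : ∀ᶠ w in 𝓝[≠] z, deriv p w ≠ 0 := hpe ▸ hBC.nc z hz
  have hp0 : ∀ᶠ w in 𝓝[≠] z, (p w).1 ≠ 0 ∧ (p w).2 ≠ 0 := hpe ▸ hBC.ne z hz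
  -- the vector
  have hvec : AnalyticAt ℂ (fun w => C.H k (p w) (deriv p w)) z ∧ ∀ᶠ w in 𝓝[≠] z, C.H k (p w) (deriv p w) ≠ 0 := by
    have hp1 := Pool.Agent.MQ.an_fst hp
    have hp2 := Pool.Agent.MQ.an_snd hp
    have hd1 := Pool.Agent.MQ.an_fst hp.deriv
    have hd2 := Pool.Agent.MQ.an_snd hp.deriv
    cases hu : C.u k with
    | none =>
      have hH : C.H k = hA := by
        unfold Cov.H
        rw [hu]
        rfl
      rw [hH]
      refine ⟨ln_vec (hp2.mul hd1) (hp1.mul hd2) analyticAt_const, ?_⟩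
      filter_upwards [hpd, hp0] with w h1 h2
      refine ln_vec_ne ?_
      by_cases h3 : (deriv p w).1 = 0
      · right; left
        refine mul_ne_zero h2.1 fun h4 => h1 (Prod.ext h3 h4)
      · left
        exact mul_ne_zero h2.2 h3
    | some u' =>
      have hH : C.H k = hB u' := by
        unfold Cov.H
        rw [hu]
        rfl
      obtain ⟨-, hu', hu''⟩ := C.N_B k u' hu
      have hua : AnalyticAt ℂ u' (p z) := hu' _ (ball_subset_closedBall hzb)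
      have hup : AnalyticAt ℂ (fun w => u' (p w)) z := hua.comp hp
      rw [hH]
      have hfd : AnalyticAt ℂ (fun w => fderiv ℂ u' (p w) (deriv p w)) z := by
        refine hup.deriv.congr ?_
        filter_upwards [hp.continuousAt.eventually hua.eventually_analyticAt, hp.eventually_analyticAt] with w h1 h2
        exact (h1.differentiableAt.hasFDerivAt.comp_hasDerivAt w h2.differentiableAt.hasDerivAt).deriv
      refine ⟨ln_vec hfd (hup.mul hd1) (hup.mul hd2), ?_⟩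
      have hU : ∀ᶠ w in 𝓝 z, w ∈ Y.U (C.b k) ∧ p w ∈ ball (C.y k) (C.t k) := by
        filter_upwards [(Y.isOpen _).mem_nhds hz, hp.continuousAt.eventually (isOpen_ball.mem_nhds hzb)] with w h1 h2 using ⟨h1, h2⟩
      have hup0 : ∀ᶠ w in 𝓝[≠] z, u' (p w) ≠ 0 := by
        obtain ⟨d, hd⟩ := hF.homR
        filter_upwards [ln_ev hF.diff hF.neR z, hU.filter_mono nhdsWithin_le_nhds] with w h1 h2 h3
        obtain ⟨c, hc, h4⟩ := Y.eq (C.b k) w h2.1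
        apply h1
        rw [h4, Pool.Agent.H14.PP.eval_smulEN hd, ← hpe, ((hu'' _ (ball_subset_closedBall h2.2)).self_of_nhds.1).2 h3, mul_zero]
      filter_upwards [hpd, hup0] with w h1 h2
      refine ln_vec_ne ?_
      by_cases h3 : (deriv p w).1 = 0
      · right; right
        exact mul_ne_zero h2 fun h4 => h1 (Prod.ext h3 h4)
      · right; left
        exact mul_ne_zero h2 h3
  obtain ⟨k₁, h1⟩ := logSing_norm hvec.1 (ln_freq hvec.2)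
  obtain ⟨k₂, h2⟩ := logSing_log (ln_wt_an hX hW hF Y (C.b k) z hz) (ln_freq (hne (C.b k) z hz))
  obtain ⟨k₃, h3⟩ := logSing_norm (hF.diff.analyticAt z) (Eventually.of_forall fun w => ln_ne0 (hF.mem w)).frequently
  refine ⟨k₁ + 1 / mK * k₂ + jH / mK * k₃, by positivity, ?_⟩
  have h4 := (h1.add (h2.const_mul (1 / mK))).add (h3.const_mul (jH / mK))
  refine h4.congr (Eventually.of_forall fun w => ?_)
  rw [hpe]
  rfl

theorem logSing_P (hX : Surface (coneE P)) (hW : LW P Ko mK jH Wf) (C : Cov S Ra) {g : Fin C.nP → ℂ × ℂ → ℂ}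
    (hg : PG C g) (j : Fin C.nP) {F : ℂ → EN M} (hF : LCrv θ RD Ko Ra F) (Y : NCLift X F) (hne : WNe Wf Y) :
    ∀ z ∈ C.UP Y j, ∃ c, LogSing (eP S (g j) Wf mK jH Y (C.ck j)) c z := by
  intro z hzU
  have hgne := g_ne C hg j hF.toRCrv Y z hzU
  obtain ⟨hz, hzb⟩ := hzU
  obtain ⟨k, hk⟩ : ∃ k, k = C.ck j := ⟨_, rfl⟩
  rw [← hk] at hz hzb hgne ⊢
  have hlf := lfN_an hF.toWCrv Y k z hz
  have hmem := lfN_mem hF.toWCrv Y k z hz
  have hlne := lfN_ne hF.toWCrv Y k z hz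
  -- the five terms
  obtain ⟨c₁, h1⟩ := ln_log_mero (ln_mero hlf ((S.c k).v_an _ hmem.1.1)) (hlne.mono fun w hw => hw.2.2.2.1)
  have hκ : AnalyticAt ℂ (S.κ k) (S.lf Y k z) := by
    show AnalyticAt ℂ (fun q : ℂ × ℂ => (q.1 ^ (S.c k).w.1 * q.2 ^ (S.c k).w'.1, q.1 ^ (S.c k).w.2 * q.2 ^ (S.c k).w'.2)) _
    exact ((analyticAt_fst.pow _).mul (analyticAt_snd.pow _)).prod ((analyticAt_fst.pow _).mul (analyticAt_snd.pow _))
  obtain ⟨c₂, h2⟩ := logSing_log (AnalyticAt.fun_comp (jc_an hκ) hlf) (ln_freq (hlne.mono fun w hw => hw.2.2.2.2))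
  have hga : AnalyticAt ℂ (g j) (S.lf Y k z) := by
    by_cases h0 : S.lf Y k z = C.Q j
    · rw [h0]
      exact hg.an j
    · exact (hg.inv j _ (ball_subset_closedBall hzb) h0).1
  obtain ⟨c₃, h3⟩ := logSing_log (AnalyticAt.fun_comp hga hlf) (ln_freq hgne)
  obtain ⟨c₄, h4⟩ := logSing_log (ln_wt_an hX hW hF Y k.1 z (Om_sub hF.toWCrv Y k hz)) (ln_freq (hne k.1 z (Om_sub hF.toWCrv Y k hz)))
  obtain ⟨c₅, h5⟩ := logSing_norm (hF.diff.analyticAt z) (Eventually.of_forall fun w => ln_ne0 (hF.mem w)).frequently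
  exact ⟨_, (((h1.add h2).add h3).add (h4.const_mul (1 / mK))).add (h5.const_mul (jH / mK))⟩

end Pool.Agent.MQK

end
end

section

/-!
# MQK WtL: the weight along a curve which avoids the boundary
-/

set_option autoImplicit false

open Topology Filter Metric MvPolynomial

noncomputable section

namespace Pool.Agent.MQK

open Pool.Agent.MQL

open Pool.Agent.H36.BP (EN)
open Pool.Agent.H36.BPL (OpenPart)
open Pool.Agent.H17BP (Surface IsForm)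
open Pool.Agent.H17EF (projVar coneE)
open Pool.Agent.MQ3

variable {M : ℕ} {P : Ideal (MvPolynomial (Fin (M + 1)) ℂ)} {RD Ra : MvPolynomial (Fin (M + 1)) ℂ} {Ko : Set (EN M)} {m : ℕ} {X : NCModel P RD} {θ : WDiff (coneE P) m}
  {l : LF M} {S : Web X θ l} {Wf : EN M → EN M → EN M → ℂ} {mK jH : ℕ} {F : ℂ → EN M}

/-- the lift of a curve which avoids the boundary -/
theorem mem_okE (_hX : Surface (coneE P)) (ha : ∀ z, F z ∈ Ko) (_Y : NCLift X F) (z : ℂ) : F z ∈ Ko := ha z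

theorem wt_an (hX : Surface (coneE P)) (hW : LW P Ko mK jH Wf) (hF : Differentiable ℂ F) (ha : ∀ z, F z ∈ Ko) (Y : NCLift X F) (i : X.ι) :
    ∀ z ∈ Y.U i, AnalyticAt ℂ (wt Wf Y i) z :=
  wt_anK hX hW.op hW.form hF (mem_okE hX ha Y) Y i

theorem wt_chg (hX : Surface (coneE P)) (hW : LW P Ko mK jH Wf) (hF : Differentiable ℂ F) (ha : ∀ z, F z ∈ Ko) (Y : NCLift X F) {i j : X.ι} {z : ℂ}
    (hi : z ∈ Y.U i) (hj : z ∈ Y.U j) {Φ : ℂ × ℂ → ℂ × ℂ} (hΦ : Chg X i j Φ (Y.p i z)) (h0 : Φ (Y.p i z) = Y.p j z) :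
    ∀ᶠ w in 𝓝 z, Y.p j w = Φ (Y.p i w) ∧ wt Wf Y i w = jc Φ (Y.p i w) ^ mK * wt Wf Y j w :=
  wt_chgK hX hW.op hW.form (mem_okE hX ha Y) Y hi hΦ

/-- the linear combinations of two tangent vectors, modulo the radial direction -/
private theorem form_comb {Z : Set (EN M)} (hW : IsForm Z mK jH Wf) {ρ : ℂ × ℂ → EN M} {p : ℂ × ℂ} (hρ : AnalyticAt ℂ ρ p) (hm : ∀ᶠ q in 𝓝 p, ρ q ∈ Z)
    (w₁ w₂ : ℂ × ℂ) (a₁ a₂ : ℂ) : Wf (ρ p) (fderiv ℂ ρ p w₁ + a₁ • ρ p) (fderiv ℂ ρ p w₂ + a₂ • ρ p) =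
      (w₁.1 * w₂.2 - w₁.2 * w₂.1) ^ mK * Wf (ρ p) (fderiv ℂ ρ p (1, 0)) (fderiv ℂ ρ p (0, 1)) := by
  have hT : ∀ v, fderiv ℂ ρ p v ∈ Pool.Agent.H17BP.Tan Z (ρ p) := fun v => by
    obtain ⟨γ, ⟨h1, h2⟩, h3, h4⟩ := Pool.Agent.E1.ResL_tan hρ hm v
    exact ⟨γ, h1, h2, h3, h4⟩
  have hs : ∀ v : ℂ × ℂ, fderiv ℂ ρ p v = v.1 • fderiv ℂ ρ p (1, 0) + v.2 • fderiv ℂ ρ p (0, 1) := fun v => by
    have h6 : v = v.1 • ((1 : ℂ), (0 : ℂ)) + v.2 • ((0 : ℂ), (1 : ℂ)) := by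
      ext <;> simp
    conv_lhs => rw [h6, map_add, map_smul, map_smul]
  rw [hW.add_smul _ hm.self_of_nhds _ (hT _) _ (hT _), hs w₁, hs w₂, hW.det _ hm.self_of_nhds _ (hT _) _ (hT _)]

/-- not zero in a box at a point off the axes, if not zero in a parametrization of the same point -/
private theorem form_box (hX : Surface (coneE P)) {K : Set (EN M)} (hK : OpenPart (coneE P) K) (hW : IsForm K mK jH Wf) {i : X.ι} {p : ℂ × ℂ}
    (hp : p ∈ DS) (hpB : p ∈ X.B i) (hpK : X.ρ i p ∈ K)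
    {σ : ℂ × ℂ → EN M} {y : ℂ × ℂ} (hσ : AnalyticAt ℂ σ y) (hσm : ∀ᶠ q in 𝓝 y, σ q ∈ coneE P) {κ : ℂ} (hκ : κ ≠ 0) (h : σ y = κ • X.ρ i p)
    (h0 : Wf (σ y) (fderiv ℂ σ y (1, 0)) (fderiv ℂ σ y (0, 1)) ≠ 0) :
    Wf (X.ρ i p) (fderiv ℂ (X.ρ i) p (1, 0)) (fderiv ℂ (X.ρ i) p (0, 1)) ≠ 0 := by
  have hρ := wtn_rho_an hpB
  have hρm := rho_memK hK hpB hpK
  -- the vectors in the box
  have hv : ∀ v, ∃ (w : ℂ × ℂ) (a : ℂ), fderiv ℂ (X.ρ i) p w + a • X.ρ i p ∈ Pool.Agent.H17BP.Tan K (X.ρ i p) ∧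
      fderiv ℂ σ y v = κ • (fderiv ℂ (X.ρ i) p w + a • X.ρ i p) := by
    intro v
    obtain ⟨γ, ⟨h1, h2⟩, h3, h4⟩ := Pool.Agent.E1.ResL_tan hσ hσm v
    have h5 : Pool.Agent.H14.PP.Tan (coneE P) (X.ρ i p) (κ⁻¹ • fderiv ℂ σ y v) := by
      refine ⟨fun t => κ⁻¹ • γ t, ⟨(analyticAt_const (v := κ⁻¹)).fun_smul h1, ?_⟩, ?_, ?_⟩
      · filter_upwards [h2] with t ht
        exact hX.smul _ ht _ (inv_ne_zero hκ)
      · show κ⁻¹ • γ 0 = _
        rw [h3, h, smul_smul, inv_mul_cancel₀ hκ, one_smul]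
      · rw [deriv_fun_const_smul _ h1.differentiableAt, h4]
    obtain ⟨w, a, h6⟩ := (X.box i).span hX hp _ h5
    refine ⟨w, a, ?_, ?_⟩
    · rw [← h6]
      obtain ⟨γ', ⟨g1, g2⟩, g3, g4⟩ := h5
      exact tan_openPart hK hpK ⟨γ', g1, g2, g3, g4⟩
    · rw [← h6, smul_smul, mul_inv_cancel₀ hκ, one_smul]
  obtain ⟨w₁, a₁, t₁, e₁⟩ := hv (1, 0)
  obtain ⟨w₂, a₂, t₂, e₂⟩ := hv (0, 1)
  intro hcon
  apply h0
  have h7 := hW.scale _ hρm.self_of_nhds _ t₁ _ t₂ κ hκ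
  rw [form_comb hW hρ hρm, hcon, mul_zero, ← e₁, ← e₂, ← h] at h7
  exact (mul_eq_zero.1 h7).resolve_left (pow_ne_zero _ hκ)

private theorem jc_ne' {Φ : ℂ × ℂ → ℂ × ℂ} {p : ℂ × ℂ} (h : (fderiv ℂ Φ p).det ≠ 0) : jc Φ p ≠ 0 := by
  have h1 : (fderiv ℂ Φ p).det = jc Φ p := by
    have h2 : (fderiv ℂ Φ p).det = LinearMap.det (fderiv ℂ Φ p : ℂ × ℂ →ₗ[ℂ] ℂ × ℂ) := rfl
    rw [h2, ← LinearMap.det_toMatrix (Module.Basis.finTwoProd ℂ), Matrix.det_fin_two]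
    simp [LinearMap.toMatrix_apply, jc]
  rwa [h1] at h

theorem wne (hX : Surface (coneE P)) (hW : LW P Ko mK jH Wf) (hF : WCrv θ RD F) (ha : ∀ z, F z ∈ Ko) (Y : NCLift X F)
    (h : ∃ z w, Pool.Agent.H17BP.Tan (coneE P) (F z) w ∧ Wf (F z) (deriv F z) w ≠ 0) : WNe Wf Y := by
  have hK := hW.op
  have hFK := mem_okE hX ha Y
  have hWK := hW.form
  have an := wt_an hX hW hF.diff ha Y
  have dich : ∀ i, ∀ z ∈ Y.U i, (∀ᶠ w in 𝓝 z, wt Wf Y i w = 0) ∨ ∀ᶠ w in 𝓝[≠] z, wt Wf Y i w ≠ 0 := fun i z hz =>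
    (an i z hz).eventually_eq_zero_or_eventually_ne_zero
  have tr : ∀ i j z, z ∈ Y.U i → z ∈ Y.U j → (wt Wf Y i z = 0 ↔ wt Wf Y j z = 0) := by
    intro i j z hi hj
    obtain ⟨Φ, hΦ, h0⟩ := exists_chg Y hi hj
    have h1 := (wt_chg hX hW hF.diff ha Y hi hj hΦ h0).self_of_nhds.2
    rw [h1, mul_eq_zero, or_iff_right (pow_ne_zero _ (jc_ne' hΦ.det))]
  obtain ⟨B, hB⟩ : ∃ B : Set ℂ, B = {z | ∃ i, z ∈ Y.U i ∧ ∀ᶠ w in 𝓝 z, wt Wf Y i w = 0} := ⟨_, rfl⟩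
  have hopen : IsOpen B := by
    rw [isOpen_iff_mem_nhds]
    intro z hz
    rw [hB] at hz ⊢
    obtain ⟨i, hi, h1⟩ := hz
    filter_upwards [(Y.isOpen i).mem_nhds hi, h1.eventually_nhds] with w h2 h3
    exact ⟨i, h2, h3⟩
  have hclosed : IsClosed B := by
    rw [← isOpen_compl_iff, isOpen_iff_mem_nhds]
    intro z hz
    obtain ⟨i, hi, _⟩ := Y.cover z
    have h1 : ∀ᶠ w in 𝓝[≠] z, wt Wf Y i w ≠ 0 := by
      rcases dich i z hi with h1 | h1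
      · exfalso
        apply hz
        rw [hB]
        exact ⟨i, hi, h1⟩
      · exact h1
    rw [eventually_nhdsWithin_iff] at h1
    filter_upwards [h1, (Y.isOpen i).mem_nhds hi] with w h2 h3 h4
    by_cases hwz : w = z
    · rw [hwz] at h4
      exact hz h4
    · rw [hB] at h4
      obtain ⟨j, hj, h5⟩ := h4
      exact h2 hwz ((tr i j w h3 hj).2 h5.self_of_nhds)
  rcases isClopen_iff.1 ⟨hclosed, hopen⟩ with h1 | h1
  · intro i z hz
    rcases dich i z hz with h2 | h2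
    · exfalso
      have h3 : z ∈ B := by
        rw [hB]
        exact ⟨i, hz, h2⟩
      rw [h1] at h3
      exact h3
    · exact h2
  · exfalso
    obtain ⟨z, w₀, hw₀, hne⟩ := h
    obtain ⟨i, hi, hzero⟩ : z ∈ {z | ∃ i, z ∈ Y.U i ∧ ∀ᶠ w in 𝓝 z, wt Wf Y i w = 0} := by
      rw [← hB, h1]
      exact Set.mem_univ z
    obtain ⟨σ, τ, hσ, h0⟩ := hX.chart (F z) (hF.mem z)
    have hcoef := (Pool.Agent.H36.TB.exists_coef hσ).self_of_nhds
    have hτ0 : τ (σ 0) = 0 := hσ.left.self_of_nhds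
    have hσ0K : σ 0 ∈ Ko := by rw [h0]; exact hFK z
    have hσK : ∀ᶠ y in 𝓝 (0 : ℂ × ℂ), σ y ∈ Ko := by
      filter_upwards [hσ.σ_mem, hσ.σ_an.continuousAt.eventually (hK.rel _ hσ0K)] with y h2 h3
      exact h3 h2
    obtain ⟨c₁, a₁, _, _, g₁⟩ := hcoef F z (hF.diff.analyticAt z) (Eventually.of_forall hF.mem) h0.symm
    obtain ⟨γ, k1, k2, k3, k4⟩ := hw₀
    obtain ⟨c₂, a₂, _, _, g₂⟩ := hcoef γ 0 k1 k2 (k3.trans h0.symm)
    rw [hτ0, ← map_smul] at g₁ g₂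
    rw [k4] at g₂
    have hσ0 : Wf (σ 0) (fderiv ℂ σ 0 (1, 0)) (fderiv ℂ σ 0 (0, 1)) ≠ 0 := by
      intro h2
      apply hne
      rw [g₁, g₂, ← h0, form_comb hWK hσ.σ_an hσK, h2, mul_zero]
    have hWσ := hWK.analytic σ 0 hσ.σ_an hσK
    have e1 : ∀ᶠ y in 𝓝 (0 : ℂ × ℂ), Wf (σ y) (fderiv ℂ σ y (1, 0)) (fderiv ℂ σ y (0, 1)) ≠ 0 := hWσ.continuousAt.eventually_ne hσ0
    have hFt : Tendsto F (𝓝 z) (𝓝 (σ 0)) := by
      rw [h0]
      exact (hF.diff z).continuousAt.tendsto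
    have hτt : Tendsto (fun w => τ (F w)) (𝓝 z) (𝓝 0) := by
      have h2 := hσ.τ_an.continuousAt.tendsto.comp hFt
      rw [hτ0] at h2
      exact h2
    have e2 := hFt.eventually hσ.right
    have e3 := hτt.eventually e1
    have e4 := hτt.eventually hσ.σ_an.eventually_analyticAt
    have e5 := hτt.eventually hσ.σ_mem.eventually_nhds
    have e6 : ∀ᶠ w in 𝓝 z, w ∈ Y.U i := (Y.isOpen i).mem_nhds hi
    have e7 := (((e2.and e3).and (e4.and e5)).and (hzero.and e6)).filter_mono (nhdsWithin_le_nhds (s := {z}ᶜ))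
    obtain ⟨w, ⟨⟨⟨f2, f3⟩, f4, f5⟩, f7, f8⟩, f6⟩ := (e7.and (wtn_off hF Y hi)).exists
    obtain ⟨c, hc, f9⟩ := f2 (hF.mem w)
    obtain ⟨hcf, f10⟩ := cf_spec Y f8
    have f11 : σ (τ (F w)) = (c⁻¹ * cf Y i w) • X.ρ i (Y.p i w) := by
      rw [mul_smul, ← f10]
      conv_rhs => rw [f9]
      rw [smul_smul, inv_mul_cancel₀ hc, one_smul]
    have f12 := form_box hX hK hWK f6 (Y.mem i w f8) (rho_K hK Y f8 (hFK w)) f4 f5 (mul_ne_zero (inv_ne_zero hc) hcf) f11 f3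
    rw [wt_eqK hK hWK Y f8 (hFK w)] at f7
    exact (mul_ne_zero (inv_ne_zero (pow_ne_zero _ hcf)) f12) f7

end Pool.Agent.MQK

end
end

section

/-!
# MQK EtaLL: the gradients of the potentials, for weights with poles

Port of `MQ3/EtaL` and `MQ3/EtaLoc`: the weight enters only through `wt_an` and `WNe`.
-/

set_option autoImplicit false

open Topology Filter Metric MvPolynomial MeasureTheory Laplacian

noncomputable section

namespace Pool.Agent.MQK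

open Pool.Agent.MQL

open Pool.Agent.H36.BP (EN fs)
open Pool.Agent.H17BP (Surface)
open Pool.Agent.H17EF (coneE)
open Pool.Agent.MQ (lam ztv dvg DDv gr dv)
open Pool.Agent.MQ3

variable {M : ℕ} {P : Ideal (MvPolynomial (Fin (M + 1)) ℂ)} {RD Ra : MvPolynomial (Fin (M + 1)) ℂ} {Ko : Set (EN M)} {m : ℕ} {X : NCModel P RD} {θ : WDiff (coneE P) m}
  {l : LF M} {S : Web X θ l} {Wf : EN M → EN M → EN M → ℂ} {mK jH : ℕ}

/-- regularity, Laplacian and gradient of a function -/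
private def Tri (u : ℂ → ℝ) (z : ℂ) (a : ℝ) (b : ℂ) : Prop := ContDiffAt ℝ 2 u z ∧ Δ u z = a ∧ gr u z = b

private theorem tri_add {u v : ℂ → ℝ} {z : ℂ} {a a' : ℝ} {b b' : ℂ} (h : Tri u z a b) (h' : Tri v z a' b') :
    Tri (fun w => u w + v w) z (a + a') (b + b') := by
  obtain ⟨h1, h2, h3⟩ := h
  obtain ⟨k1, k2, k3⟩ := h'
  refine ⟨h1.add k1, ?_, ?_⟩
  · rw [Pool.Agent.H30M.lap_add h1 k1, h2, k2]
  · rw [MQ.gr_add (h1.differentiableAt (by norm_num)) (k1.differentiableAt (by norm_num)), h3, k3]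

private theorem tri_mul (c : ℝ) {u : ℂ → ℝ} {z : ℂ} {a : ℝ} {b : ℂ} (h : Tri u z a b) : Tri (fun w => c * u w) z (c * a) (c * b) := by
  obtain ⟨h1, h2, h3⟩ := h
  refine ⟨contDiffAt_const.mul h1, ?_, ?_⟩
  · rw [Pool.Agent.H30M.lap_const_mul h1, h2]
  · rw [MQ.gr_const_mul c (h1.differentiableAt (by norm_num)), h3]

private theorem tri_log {f : ℂ → ℂ} {z : ℂ} (hf : AnalyticAt ℂ f z) (h0 : f z ≠ 0) :
    Tri (fun w => Real.log ‖f w‖) z 0 ((starRingEnd ℂ) (deriv f z / f z)) :=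
  ⟨(hf.harmonicAt_log_norm h0).1, Pool.Agent.H30M.lap_log_norm hf h0, MQ.gr_log_norm hf.differentiableAt h0⟩

private theorem etaL_jc {κ : ℂ × ℂ → ℂ × ℂ} {x : ℂ × ℂ} (hv : AnalyticAt ℂ κ x) : AnalyticAt ℂ (jc κ) x := by
  have h1 : ∀ e : ℂ × ℂ, AnalyticAt ℂ (fun Q => fderiv ℂ κ Q e) x := fun e =>
    ((ContinuousLinearMap.apply ℂ (ℂ × ℂ) e).analyticAt _).comp hv.fderiv
  exact ((analyticAt_fst.comp (h1 (1, 0))).mul (analyticAt_snd.comp (h1 (0, 1)))).sub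
    ((analyticAt_fst.comp (h1 (0, 1))).mul (analyticAt_snd.comp (h1 (1, 0))))

/-- the gradient of the potential of a chart point -/
theorem gr_eP {F : ℂ → EN M} (hX : Surface (coneE P)) (hW : LW P Ko mK jH Wf) (hF : LCrv θ RD Ko Ra F) (Y : NCLift X F) (hne : WNe Wf Y) {Θ : ℂ → ℂ}
    (hΘ : IsTh S Wf mK Y Θ) {k : S.ι} {z : ℂ} (hz : z ∈ S.Om Y k) {g : ℂ × ℂ → ℂ} (hg : AnalyticAt ℂ g (S.lf Y k z))
    (hgn : ∃ᶠ w in 𝓝 z, g (S.lf Y k w) ≠ 0) :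
    ∀ᶠ w in 𝓝[≠] z, ContDiffAt ℝ 2 (eP S g Wf mK jH Y k) w ∧ Δ (eP S g Wf mK jH Y k) w = 2 * jH / mK * lam F w ^ 2 ∧
      gr (eP S g Wf mK jH Y k) w + (starRingEnd ℂ) (DDv (S.v k) g (S.lf Y k) w) =
        (starRingEnd ℂ) (Θ w) + gr (fun w => jH / mK * Real.log ‖F w‖) w := by
  have hwan := wt_an hX hW hF.diff hF.avoid Y k.1
  replace hF := hF.toRCrv.toWCrv
  set p : ℂ → ℂ × ℂ := S.lf Y k with hpdef
  have hp : AnalyticAt ℂ p z := lfN_an hF Y k z hz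
  have hOm : ∀ᶠ w in 𝓝 z, w ∈ S.Om Y k := (Om_open hF Y k).mem_nhds hz
  have hFne : ∀ w, F w ≠ 0 := by
    intro w h0
    have h1 := hF.mem w
    rw [h0] at h1
    exact hX.zero h1
  have hgp : AnalyticAt ℂ (fun w => g (p w)) z := AnalyticAt.fun_comp (g := g) (f := p) hg hp
  have hgne : ∀ᶠ w in 𝓝[≠] z, g (p w) ≠ 0 := by
    rcases hgp.eventually_eq_zero_or_eventually_ne_zero with h | h
    · exact absurd (h.mono fun w hw => not_not.2 hw) hgn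
    · exact h
  have hga : ∀ᶠ w in 𝓝 z, AnalyticAt ℂ g (p w) := hp.continuousAt.eventually hg.eventually_analyticAt
  filter_upwards [hgne, hOm.filter_mono nhdsWithin_le_nhds, hOm.eventually_nhds.filter_mono nhdsWithin_le_nhds, lfN_ne hF Y k z hz,
    hne k.1 z (Om_sub hF Y k hz), hΘ k z hz, hga.filter_mono nhdsWithin_le_nhds] with w h1 h2 h3 h4 h5 h6 h7
  obtain ⟨-, -, hv0, hζ0, hJ0⟩ := h4
  have hpw : AnalyticAt ℂ p w := lfN_an hF Y k w h2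
  have hvw : AnalyticAt ℂ (S.v k) (p w) := v_an k (p w) (lfN_mem hF Y k w h2).1
  have hode : ∀ᶠ x in 𝓝 w, (S.v k (p x)).1 * (deriv p x).2 - (S.v k (p x)).2 * (deriv p x).1 = 0 := h3.mono fun x hx => lfN_tan hF Y k x hx
  have hζ : AnalyticAt ℂ (ztv (S.v k) p) w := ztv_an hpw hvw hode hv0
  have hκ : AnalyticAt ℂ (S.κ k) (p w) := analyticAt_mchart (S.c k).w.1 (S.c k).w'.1 (S.c k).w.2 (S.c k).w'.2 (p w)
  have hJ : AnalyticAt ℂ (fun x => jc (S.κ k) (p x)) w := AnalyticAt.fun_comp (g := jc (S.κ k)) (f := p) (etaL_jc hκ) hpw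
  have hgw : AnalyticAt ℂ (fun x => g (p x)) w := AnalyticAt.fun_comp (g := g) (f := p) h7 hpw
  have hwt : AnalyticAt ℂ (wt Wf Y k.1) w := hwan w (Om_sub hF Y k h2)
  have t5 : Tri (fun w => Real.log ‖F w‖) w (2 * lam F w ^ 2) (gr (fun w => Real.log ‖F w‖) w) :=
    ⟨(MQ.lap_log_norm (hF.diff.analyticAt w) (hFne w)).1, (MQ.lap_log_norm (hF.diff.analyticAt w) (hFne w)).2, rfl⟩
  have t6 : Tri (fun w => (jH : ℝ) / mK * Real.log ‖F w‖) w ((jH : ℝ) / mK * (2 * lam F w ^ 2)) (((jH / mK : ℝ) : ℂ) * gr (fun w => Real.log ‖F w‖) w) :=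
    tri_mul _ t5
  have key := tri_add (tri_add (tri_add (tri_add (tri_log hζ hζ0) (tri_log hJ hJ0)) (tri_log hgw h1)) (tri_mul (1 / mK : ℝ) (tri_log hwt h5))) t6
  obtain ⟨k1, k2, k3⟩ := key
  refine ⟨k1, ?_, ?_⟩
  · have h8 : Δ (eP S g Wf mK jH Y k) w = _ := k2
    rw [h8]
    ring
  · have h8 : gr (eP S g Wf mK jH Y k) w = _ := k3
    rw [h8, t6.2.2, h6, ThC, DDv]
    simp only [map_add, map_sub, map_mul, map_div₀, map_one, Complex.ofReal_div, Complex.ofReal_one, Complex.ofReal_natCast, map_natCast]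
    ring

/-- **EtaLL.** The local form of the field `η` of a box; the constants do not depend on the curve. -/
theorem eta_loc (hX : Surface (coneE P)) (hW : LW P Ko mK jH Wf) {k : S.ι} {q : ℂ × ℂ} (hq : q ∈ S.D k) (hv : S.v k q ≠ 0) {g : ℂ × ℂ → ℂ}
    (hg : InvAt S Ra k q g) {H : ℂ × ℂ → ℂ × ℂ → EN 2} (hH : ∀ p w (a : ℂ), H p (a • w) = a • H p w) {L : ℂ × ℂ → EN 2} (hL : AnalyticAt ℂ L q) (hL0 : L q ≠ 0)
    (hHL : ∀ᶠ x in 𝓝 q, H (S.κ k x) (fderiv ℂ (S.κ k) x (S.v k x)) = (jc (S.κ k) x * g x) • L x) :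
    ∃ N ∈ 𝓝 q, ∃ C : ℝ, ∀ F : ℂ → EN M, LCrv θ RD Ko Ra F → ∀ Y : NCLift X F, WNe Wf Y → ∀ Θ : ℂ → ℂ, IsTh S Wf mK Y Θ →
      ∀ z ∈ S.Om Y k, S.lf Y k z ∈ N → ∃ (η : ℂ → ℂ) (ψ : ℂ → ℝ), ContDiffAt ℝ 1 η z ∧ ‖η z‖ ≤ C * ‖deriv (S.lf Y k) z‖ ∧ ContDiffAt ℝ 2 ψ z ∧ |ψ z| ≤ C ∧
        ∀ᶠ w in 𝓝[≠] z, ContDiffAt ℝ 2 (eN H Wf mK jH Y k.1) w ∧ η w = (starRingEnd ℂ) (Θ w) - gr (eH H Wf mK Y k.1) w ∧
          Δ (eN H Wf mK jH Y k.1) w + dv η w = 2 * jH / mK * lam F w ^ 2 ∧ eN H Wf mK jH Y k.1 w - eP S g Wf mK jH Y k w = ψ w := by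
  obtain ⟨hga, -, ⟨c, hc, hcv⟩, h, hh, hRh, -⟩ := hg
  have hva : AnalyticAt ℂ (S.v k) q := v_an k q hq
  -- the constants
  obtain ⟨a, ha, ha'⟩ : ∃ a : ℝ, 0 < a ∧ a < ‖S.v k q‖ := exists_between (norm_pos_iff.2 hv)
  obtain ⟨b, hb, hb'⟩ : ∃ b : ℝ, 0 < b ∧ b < ‖L q‖ := exists_between (norm_pos_iff.2 hL0)
  set B : ℝ := ‖L q‖ + 1 with hB
  set D : ℝ := ‖fderiv ℂ L q‖ + 1 with hD
  set C₁ : ℝ := ‖dvg (S.v k) q - c q‖ + 1 with hC₁
  have e1 : ∀ᶠ x in 𝓝 q, a < ‖S.v k x‖ := hva.continuousAt.norm.eventually (lt_mem_nhds ha')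
  have e2 : ∀ᶠ x in 𝓝 q, b < ‖L x‖ := hL.continuousAt.norm.eventually (lt_mem_nhds hb')
  have e3 : ∀ᶠ x in 𝓝 q, ‖L x‖ < B := hL.continuousAt.norm.eventually (gt_mem_nhds (by rw [hB]; linarith))
  have e4 : ∀ᶠ x in 𝓝 q, ‖fderiv ℂ L x‖ < D := hL.fderiv.continuousAt.norm.eventually (gt_mem_nhds (by rw [hD]; linarith))
  have e5 : ∀ᶠ x in 𝓝 q, ‖dvg (S.v k) x - c x‖ < C₁ :=
    ((EtaLoc_dvg hva).continuousAt.sub hc.continuousAt).norm.eventually (gt_mem_nhds (by show ‖dvg (S.v k) q - c q‖ < C₁; rw [hC₁]; linarith))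
  have e6 : ∀ᶠ x in 𝓝 q, x ∈ S.D k := (D_open k).mem_nhds hq
  obtain ⟨N, hN, hNo, hqN⟩ := _root_.mem_nhds_iff.1 (((((((((((e1.and e2).and e3).and e4).and e5).and e6).and hga.eventually_analyticAt).and
    hc.eventually_analyticAt).and hL.eventually_analyticAt).and hcv).and hHL).and hRh)
  have hC₁0 : 0 < C₁ := by rw [hC₁]; positivity
  have hD0 : 0 < D := by rw [hD]; positivity
  have hB0 : 0 < B := by rw [hB]; positivity
  set C : ℝ := C₁ / a + D / b + (|Real.log b| + |Real.log B|) with hC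
  refine ⟨N, hNo.mem_nhds hqN, C, ?_⟩
  intro F hF Y hne Θ hΘ z hz hzN
  have hFW := hF.toRCrv.toWCrv
  set p : ℂ → ℂ × ℂ := S.lf Y k with hpdef
  have hp : AnalyticAt ℂ p z := lfN_an hFW Y k z hz
  have hOm : ∀ᶠ w in 𝓝 z, w ∈ S.Om Y k := (Om_open hFW Y k).mem_nhds hz
  have hpN : ∀ᶠ w in 𝓝 z, p w ∈ N := hp.continuousAt.eventually (hNo.mem_nhds hzN)
  have hode : ∀ᶠ w in 𝓝 z, (S.v k (p w)).1 * (deriv p w).2 - (S.v k (p w)).2 * (deriv p w).1 = 0 := hOm.mono fun w hw => lfN_tan hFW Y k w hw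
  have hvN : ∀ x ∈ N, AnalyticAt ℂ (S.v k) x ∧ S.v k x ≠ 0 := by
    intro x hx
    have hx' := hN hx
    simp only [Set.mem_ofPred_eq] at hx'
    obtain ⟨⟨⟨⟨⟨⟨⟨⟨⟨⟨⟨h1, h2⟩, h3⟩, h4⟩, h5⟩, h6⟩, h7⟩, h8⟩, h9⟩, h10⟩, h11⟩, h12⟩ := hx'
    exact ⟨v_an k x h6, norm_pos_iff.1 (ha.trans h1)⟩
  have hNN : ∀ x ∈ N, a < ‖S.v k x‖ ∧ b < ‖L x‖ ∧ ‖L x‖ < B ∧ ‖fderiv ℂ L x‖ < D ∧ ‖dvg (S.v k) x - c x‖ < C₁ ∧ AnalyticAt ℂ g x ∧ AnalyticAt ℂ c x ∧
      AnalyticAt ℂ L x ∧ fderiv ℂ g x (S.v k x) = c x * g x ∧ H (S.κ k x) (fderiv ℂ (S.κ k) x (S.v k x)) = (jc (S.κ k) x * g x) • L x ∧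
      (eval (S.σ k x).ofLp (RD * Ra) = 0 ↔ g x * h x = 0) := by
    intro x hx
    have hx' := hN hx
    simp only [Set.mem_ofPred_eq] at hx'
    obtain ⟨⟨⟨⟨⟨⟨⟨⟨⟨⟨⟨h1, h2⟩, h3⟩, h4⟩, h5⟩, h6⟩, h7⟩, h8⟩, h9⟩, h10⟩, h11⟩, h12⟩ := hx'
    exact ⟨h1, h2, h3, h4, h5, h7, h8, h9, h10, h11, h12⟩
  obtain ⟨hv0, hb0, hB1, hDz, hCz, hgz, hcz, hLz, -, -, -⟩ := hNN _ hzN
  set ζ : ℂ → ℂ := ztv (S.v k) p with hζdef
  have hζ : AnalyticAt ℂ ζ z := ztv_an hp (hvN _ hzN).1 hode (hvN _ hzN).2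
  have hder : ∀ᶠ w in 𝓝 z, deriv p w = ζ w • S.v k (p w) := by
    filter_upwards [hode, hpN] with w h1 h2
    exact ztv_smul h1 (hvN _ h2).2
  have hGp : AnalyticAt ℂ (fun w => dvg (S.v k) (p w) - c (p w)) z :=
    AnalyticAt.fun_comp (g := fun x => dvg (S.v k) x - c x) (f := p) ((EtaLoc_dvg (hvN _ hzN).1).sub hcz) hp
  set G : ℂ → ℂ := fun w => ζ w * (dvg (S.v k) (p w) - c (p w)) with hG
  have hGa : AnalyticAt ℂ G z := hζ.mul hGp
  have hLp : AnalyticAt ℂ (fun w => L (p w)) z := AnalyticAt.fun_comp (g := L) (f := p) hLz hp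
  have hLp0 : L (p z) ≠ 0 := norm_pos_iff.1 (hb.trans hb0)
  set ψ : ℂ → ℝ := fun w => Real.log ‖L (p w)‖ with hψ
  have hψc : ContDiffAt ℝ 2 ψ z := MQ.contDiffAt_log_norm (F := fun w => L (p w)) hLp hLp0
  refine ⟨fun w => (starRingEnd ℂ) (G w) - gr ψ w, ψ, ?_, ?_, hψc, ?_, ?_⟩
  · -- regularity
    have h1 : ContDiffAt ℝ 1 G z := (hGa.contDiffAt (n := 1)).restrict_scalars ℝ
    have h2 : ContDiffAt ℝ 1 (fun w => (starRingEnd ℂ) (G w)) z := (Complex.conjCLE.contDiff (n := 1)).contDiffAt.comp z h1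
    exact h2.sub (MQ.contDiffAt_gr (m := 1) hψc (by norm_num))
  · -- the bound
    have h1 : ‖G z‖ ≤ C₁ / a * ‖deriv p z‖ := by
      have h2 : ‖ζ z‖ * a ≤ ‖deriv p z‖ := by
        rw [hder.self_of_nhds, norm_smul]
        exact mul_le_mul_of_nonneg_left hv0.le (norm_nonneg _)
      have h3 : ‖ζ z‖ ≤ ‖deriv p z‖ / a := by rwa [le_div_iff₀ ha]
      calc ‖G z‖ = ‖ζ z‖ * ‖dvg (S.v k) (p z) - c (p z)‖ := norm_mul _ _
        _ ≤ ‖deriv p z‖ / a * C₁ := mul_le_mul h3 hCz.le (norm_nonneg _) (by positivity)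
        _ = C₁ / a * ‖deriv p z‖ := by ring
    have h4 := EtaLoc_gr hLz hp hb hb0.le hDz.le
    calc ‖(starRingEnd ℂ) (G z) - gr ψ z‖ ≤ ‖(starRingEnd ℂ) (G z)‖ + ‖gr ψ z‖ := norm_sub_le _ _
      _ ≤ C₁ / a * ‖deriv p z‖ + D / b * ‖deriv p z‖ := by
          rw [RCLike.norm_conj]
          exact add_le_add h1 h4
      _ = (C₁ / a + D / b) * ‖deriv p z‖ := by ring
      _ ≤ C * ‖deriv p z‖ := by
          refine mul_le_mul_of_nonneg_right ?_ (norm_nonneg _)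
          rw [hC]
          linarith [abs_nonneg (Real.log b), abs_nonneg (Real.log B)]
  · -- the difference
    have h1 : Real.log b ≤ ψ z := Real.log_le_log hb hb0.le
    have h2 : ψ z ≤ Real.log B := Real.log_le_log (hb.trans hb0) hB1.le
    have h3 : 0 ≤ C₁ / a := by positivity
    have h4 : 0 ≤ D / b := by positivity
    rw [abs_le]
    constructor
    · have := neg_abs_le (Real.log b)
      rw [hC]
      linarith [abs_nonneg (Real.log B)]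
    · have := le_abs_self (Real.log B)
      rw [hC]
      linarith [abs_nonneg (Real.log b)]
  -- the identities off `z`
  have hFne : ∀ w, F w ≠ 0 := by
    intro w h0
    have h1 := hFW.mem w
    rw [h0] at h1
    exact hX.zero h1
  have hgne : ∀ᶠ w in 𝓝[≠] z, g (p w) ≠ 0 := by
    have h1 := EtaLoc_ne hFW.diff hFW.ne z
    have h2 := EtaLoc_ne hFW.diff hF.neR z
    filter_upwards [h1, h2, hOm.filter_mono nhdsWithin_le_nhds, hpN.filter_mono nhdsWithin_le_nhds] with w h3 h4 h5 h6 h7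
    obtain ⟨-, -, -, -, -, -, -, -, -, -, h8⟩ := hNN _ h6
    obtain ⟨d, hd⟩ := hFW.hom
    obtain ⟨d', hd'⟩ := hF.homR
    obtain ⟨r, hr, hr'⟩ := Y.eq k.1 w (Om_sub hFW Y k h5)
    have h9 : X.ρ k.1 (Y.p k.1 w) = S.σ k (p w) := by
      show _ = X.ρ k.1 (S.κ k (p w))
      rw [(lfN_mem hFW Y k w h5).2]
    rw [h9] at hr'
    have h10 := h8.2 (by rw [h7, zero_mul])
    rw [map_mul] at h10
    rcases mul_eq_zero.1 h10 with h11 | h11
    · exact h3 (by rw [hr', Pool.Agent.H14.PP.eval_smulEN hd, h11, mul_zero])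
    · exact h4 (by rw [hr', Pool.Agent.H14.PP.eval_smulEN hd', h11, mul_zero])
  have hgf : ∃ᶠ w in 𝓝 z, g (p w) ≠ 0 := hgne.frequently.filter_mono nhdsWithin_le_nhds
  have hkey := gr_eP hX hW hF Y hne hΘ hz hgz hgf
  -- the difference of the potentials
  have hdiff : ∀ᶠ w in 𝓝[≠] z, eN H Wf mK jH Y k.1 w = eP S g Wf mK jH Y k w + ψ w := by
    filter_upwards [hgne, hOm.filter_mono nhdsWithin_le_nhds, hOm.eventually_nhds.filter_mono nhdsWithin_le_nhds, hpN.filter_mono nhdsWithin_le_nhds,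
      hder.filter_mono nhdsWithin_le_nhds, lfN_ne hFW Y k z hz, hp.eventually_analyticAt.filter_mono nhdsWithin_le_nhds] with w h1 h2 h3 h4 h5 h6 h7
    obtain ⟨-, h8, -, -, -, -, -, -, -, h9, -⟩ := hNN _ h4
    have h10 : Y.p k.1 w = S.κ k (p w) := (lfN_mem hFW Y k w h2).2.symm
    have h11 : deriv (Y.p k.1) w = ζ w • fderiv ℂ (S.κ k) (p w) (S.v k (p w)) := by
      have h12 : Y.p k.1 =ᶠ[𝓝 w] fun x => S.κ k (p x) := h3.mono fun x hx => (lfN_mem hFW Y k x hx).2.symm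
      have h13 : deriv (fun x => S.κ k (p x)) w = fderiv ℂ (S.κ k) (p w) (deriv p w) :=
        ((EtaLoc_κ k (p w)).differentiableAt.hasFDerivAt.comp_hasDerivAt w h7.differentiableAt.hasDerivAt).deriv
      rw [h12.deriv_eq, h13, h5, map_smul]
    have h13 : H (Y.p k.1 w) (deriv (Y.p k.1) w) = (ζ w * (jc (S.κ k) (p w) * g (p w))) • L (p w) := by
      rw [h11, h10, hH, h9, smul_smul]
    have h14 : L (p w) ≠ 0 := norm_pos_iff.1 (hb.trans h8)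
    have n1 : ‖ζ w‖ ≠ 0 := norm_ne_zero_iff.2 h6.2.2.2.1
    have n2 : ‖jc (S.κ k) (p w)‖ ≠ 0 := norm_ne_zero_iff.2 h6.2.2.2.2
    have n3 : ‖g (p w)‖ ≠ 0 := norm_ne_zero_iff.2 h1
    have n4 : ‖L (p w)‖ ≠ 0 := norm_ne_zero_iff.2 h14
    show Real.log ‖H (Y.p k.1 w) (deriv (Y.p k.1) w)‖ + 1 / mK * Real.log ‖wt Wf Y k.1 w‖ + jH / mK * Real.log ‖F w‖ =
      Real.log ‖ζ w‖ + Real.log ‖jc (S.κ k) (p w)‖ + Real.log ‖g (p w)‖ + 1 / mK * Real.log ‖wt Wf Y k.1 w‖ + jH / mK * Real.log ‖F w‖ +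
        Real.log ‖L (p w)‖
    rw [h13, norm_smul, norm_mul, norm_mul, Real.log_mul (mul_ne_zero n1 (mul_ne_zero n2 n3)) n4, Real.log_mul n1 (mul_ne_zero n2 n3), Real.log_mul n2 n3]
    ring
  have hdiff' := EtaLoc_punct hdiff
  filter_upwards [hkey, hdiff, hdiff', hgne, hpN.filter_mono nhdsWithin_le_nhds, hder.filter_mono nhdsWithin_le_nhds,
    hGa.eventually_analyticAt.filter_mono nhdsWithin_le_nhds, hLp.eventually_analyticAt.filter_mono nhdsWithin_le_nhds,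
    hp.eventually_analyticAt.filter_mono nhdsWithin_le_nhds] with w h1 h2 h3 h4 h5 h6 h7 h8 h9
  obtain ⟨k1, k2, k3⟩ := h1
  obtain ⟨-, h10, -, -, -, hgw, -, -, hcw, -, -⟩ := hNN _ h5
  have hψw : ContDiffAt ℝ 2 ψ w := MQ.contDiffAt_log_norm (F := fun w => L (p w)) h8 (norm_pos_iff.1 (hb.trans h10))
  have hlF : ContDiffAt ℝ 2 (fun w => (jH : ℝ) / mK * Real.log ‖F w‖) w :=
    contDiffAt_const.mul (MQ.lap_log_norm (hFW.diff.analyticAt w) (hFne w)).1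
  have hDD : DDv (S.v k) g p w = G w := by
    have h11 : deriv (fun x => g (p x)) w = ζ w * (c (p w) * g (p w)) := by
      have h12 : deriv (fun x => g (p x)) w = fderiv ℂ g (p w) (deriv p w) :=
        (hgw.differentiableAt.hasFDerivAt.comp_hasDerivAt w h9.differentiableAt.hasDerivAt).deriv
      rw [h12, h6, map_smul, hcw, smul_eq_mul]
    rw [DDv, h11, ← mul_assoc, mul_div_cancel_right₀ _ h4]
    show dvg (S.v k) (p w) * ζ w - ζ w * c (p w) = ζ w * (dvg (S.v k) (p w) - c (p w))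
    ring
  rw [hDD] at k3
  obtain ⟨r1, r2, r3⟩ := EtaLoc_alg (eN := eN H Wf mK jH Y k.1) (eH := eH H Wf mK Y k.1) (lF := fun w => (jH : ℝ) / mK * Real.log ‖F w‖) h3
    (fun x => rfl) k1 hψw hlF h7.differentiableAt k3
  refine ⟨r1, r2, ?_, ?_⟩
  · rw [r3, k2]
  · rw [h2, add_sub_cancel_left]

end Pool.Agent.MQK

end
end

section

/-!
# MQK PoleLoc: the poles of the weight near a point, in a parametrization
-/

set_option autoImplicit false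

open Topology Filter Metric MvPolynomial

noncomputable section

namespace Pool.Agent.MQK

open Pool.Agent.MQL

open Pool.Agent.H36.BP (EN)
open Pool.Agent.H17EF (coneE)

variable {M : ℕ} {P : Ideal (MvPolynomial (Fin (M + 1)) ℂ)} {Ko : Set (EN M)} {Wf : EN M → EN M → EN M → ℂ} {mK jH : ℕ}

/-- a function of one variable which is not identically zero -/
private theorem one_ax {f : ℂ → ℂ} (hf : AnalyticAt ℂ f 0) (h : ¬ ∀ᶠ t in 𝓝 (0 : ℂ), f t = 0) : ∀ᶠ t in 𝓝 (0 : ℂ), f t = 0 → t = 0 := by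
  have h1 := (hf.eventually_eq_zero_or_eventually_ne_zero).resolve_left h
  rw [eventually_nhdsWithin_iff] at h1
  filter_upwards [h1] with t h2 h3
  by_contra h4
  exact h2 h4 h3

private theorem pow_log {al : ℝ} {x : ℂ} (h : al ≠ 0 → x ≠ 0) : ‖x‖ ^ al ≠ 0 ∧ Real.log (‖x‖ ^ al) = al * Real.log ‖x‖ := by
  by_cases h0 : al = 0
  · rw [h0, Real.rpow_zero, zero_mul, Real.log_one]
    exact ⟨one_ne_zero, rfl⟩
  · have h1 : 0 < ‖x‖ := norm_pos_iff.2 (h h0)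
    exact ⟨(Real.rpow_pos_of_pos h1 _).ne', Real.log_rpow h1 _⟩

theorem pole_loc (hW : LW P Ko mK jH Wf) {φ : ℂ × ℂ → EN M} {q : ℂ × ℂ} (hφ : AnalyticAt ℂ φ q) (hX : ∀ᶠ x in 𝓝 q, φ x ∈ coneE P)
    (hax : ∀ᶠ x in 𝓝 q, φ x ∉ Ko → (x.1 - q.1) * (x.2 - q.2) = 0) :
    ∃ C : ℝ, ∀ᶠ x in 𝓝 q, φ x ∈ Ko → Wf (φ x) (fderiv ℂ φ x (1, 0)) (fderiv ℂ φ x (0, 1)) ≠ 0 →
      1 / mK * Real.log ‖Wf (φ x) (fderiv ℂ φ x (1, 0)) (fderiv ℂ φ x (0, 1))‖ ≤ C + Real.log ‖JD (exX Ko mK φ q) (exY Ko mK φ q) (x - q)‖ := by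
  classical
  -- the local equation
  obtain ⟨h, hh, heq⟩ := hW.op.eqn (φ q) hX.self_of_nhds
  set f : ℂ × ℂ → ℂ := fun x => h (φ x) with hfd
  have hf : AnalyticAt ℂ f q := AnalyticAt.comp (g := h) (f := φ) hh hφ
  have hfK : ∀ᶠ x in 𝓝 q, (φ x ∉ Ko ↔ f x = 0) := by
    filter_upwards [hφ.continuousAt.eventually heq, hX] with x h1 h2
    exact h1 h2
  set a : Prop := ∀ᶠ t in 𝓝 (0 : ℂ), f (q.1, q.2 + t) = 0 with had
  set b : Prop := ∀ᶠ t in 𝓝 (0 : ℂ), f (q.1 + t, q.2) = 0 with hbd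
  have l1 : Tendsto (fun t : ℂ => (q.1, q.2 + t)) (𝓝 0) (𝓝 q) := by
    have h1 : ContinuousAt (fun t : ℂ => (q.1, q.2 + t)) 0 := by fun_prop
    have h2 := h1.tendsto
    rwa [add_zero] at h2
  have l2 : Tendsto (fun t : ℂ => (q.1 + t, q.2)) (𝓝 0) (𝓝 q) := by
    have h1 : ContinuousAt (fun t : ℂ => (q.1 + t, q.2)) 0 := by fun_prop
    have h2 := h1.tendsto
    rwa [add_zero] at h2
  have ea : (∀ᶠ t in 𝓝 (0 : ℂ), φ (q.1, q.2 + t) ∉ Ko) ↔ a := eventually_congr (l1.eventually hfK)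
  have eb : (∀ᶠ t in 𝓝 (0 : ℂ), φ (q.1 + t, q.2) ∉ Ko) ↔ b := eventually_congr (l2.eventually hfK)
  have e1 : exX Ko mK φ q = al mK a := by
    unfold exX al
    rw [one_div]
    exact if_congr ea rfl rfl
  have e2 : exY Ko mK φ q = al mK b := by
    unfold exY al
    rw [one_div]
    exact if_congr eb rfl rfl
  have hax' : ∀ᶠ x in 𝓝 q, f x = 0 → (x.1 - q.1) * (x.2 - q.2) = 0 := by
    filter_upwards [hax, hfK] with x h1 h2 h3
    exact h1 (h2.2 h3)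
  have hsub : Tendsto (fun x : ℂ × ℂ => x - q) (𝓝 q) (𝓝 0) := by
    have h1 : ContinuousAt (fun x : ℂ × ℂ => x - q) q := by fun_prop
    have h2 := h1.tendsto
    rwa [sub_self] at h2
  have hs1 : Tendsto (fun x : ℂ × ℂ => x.1 - q.1) (𝓝 q) (𝓝 0) := (continuous_fst.tendsto (0 : ℂ × ℂ)).comp hsub
  have hs2 : Tendsto (fun x : ℂ × ℂ => x.2 - q.2) (𝓝 q) (𝓝 0) := (continuous_snd.tendsto (0 : ℂ × ℂ)).comp hsub
  have f1 : AnalyticAt ℂ (fun t : ℂ => f (q.1, q.2 + t)) 0 :=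
    AnalyticAt.comp (g := f) (f := fun t : ℂ => (q.1, q.2 + t)) (by rw [add_zero]; exact hf) (by fun_prop)
  have f2 : AnalyticAt ℂ (fun t : ℂ => f (q.1 + t, q.2)) 0 :=
    AnalyticAt.comp (g := f) (f := fun t : ℂ => (q.1 + t, q.2)) (by rw [add_zero]; exact hf) (by fun_prop)
  -- the zeros on the axes
  have k1 : ∀ᶠ x in 𝓝 q, x.1 - q.1 = 0 → f x = 0 → a ∨ x = q := by
    by_cases ha : a
    · exact Eventually.of_forall fun _ _ _ => Or.inl ha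
    · filter_upwards [hs2.eventually (one_ax f1 ha)] with x h1 h2 h3
      have h4 : x.1 = q.1 := sub_eq_zero.1 h2
      refine Or.inr (Prod.ext h4 (sub_eq_zero.1 (h1 ?_)))
      rw [add_sub_cancel, ← h4]
      exact h3
  have k2 : ∀ᶠ x in 𝓝 q, x.2 - q.2 = 0 → f x = 0 → b ∨ x = q := by
    by_cases hb : b
    · exact Eventually.of_forall fun _ _ _ => Or.inl hb
    · filter_upwards [hs1.eventually (one_ax f2 hb)] with x h1 h2 h3
      have h4 : x.2 = q.2 := sub_eq_zero.1 h2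
      refine Or.inr (Prod.ext (sub_eq_zero.1 (h1 ?_)) h4)
      rw [add_sub_cancel, ← h4]
      exact h3
  have k0 : f q = 0 → a ∨ b := fun h0 => by
    have hadd : Tendsto (fun x : ℂ × ℂ => q + x) (𝓝 0) (𝓝 q) := by
      have h1 : ContinuousAt (fun x : ℂ × ℂ => q + x) 0 := by fun_prop
      have h2 := h1.tendsto
      rwa [add_zero] at h2
    have h1 : AnalyticAt ℂ (fun x : ℂ × ℂ => f (q + x)) 0 :=
      AnalyticAt.comp (g := f) (f := fun x : ℂ × ℂ => q + x) (by rw [add_zero]; exact hf) (by fun_prop)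
    rcases ax_local h1 (by rw [add_zero]; exact h0) (by
      filter_upwards [hadd.eventually hax'] with x h2 h3
      have h4 := h2 h3
      rwa [Prod.fst_add, Prod.snd_add, add_sub_cancel_left, add_sub_cancel_left] at h4) with ⟨-, h2⟩ | ⟨-, h2⟩
    · refine Or.inl ?_
      filter_upwards [h2] with t h3
      have h4 : (q.1, q.2 + t) = q + (0, t) := Prod.ext (by simp) rfl
      rw [h4]
      exact h3
    · refine Or.inr ?_
      filter_upwards [h2] with t h3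
      have h4 : (q.1 + t, q.2) = q + (t, 0) := Prod.ext rfl (by simp)
      rw [h4]
      exact h3
  -- the function
  have hg : AnalyticAt ℂ (fun x : ℂ × ℂ => eqD a b (x - q)) q :=
    AnalyticAt.comp (g := eqD a b) (f := fun x : ℂ × ℂ => x - q) (eqD_an a b _) (by fun_prop)
  have hg0 : ∀ᶠ x in 𝓝 q, φ x ∉ Ko → eqD a b (x - q) = 0 := by
    filter_upwards [hX, hax', k1, k2, hfK] with x h1 h2 h3 h4 hk h5
    have h6 : f x = 0 := hk.1 h5
    have h8 : x = q → eqD a b (x - q) = 0 := fun h9 => by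
      rw [h9, sub_self]
      rw [h9] at h6
      rcases k0 h6 with h10 | h10
      · exact eqD_zero (Or.inl ⟨rfl, h10⟩)
      · exact eqD_zero (Or.inr ⟨rfl, h10⟩)
    rcases mul_eq_zero.1 (h2 h6) with h7 | h7
    · rcases h3 h7 h6 with h9 | h9
      · exact eqD_zero (Or.inl ⟨h7, h9⟩)
      · exact h8 h9
    · rcases h4 h7 h6 with h9 | h9
      · exact eqD_zero (Or.inr ⟨h7, h9⟩)
      · exact h8 h9
  obtain ⟨C, hC⟩ := pole_local hW.pole hφ hX hg hg0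
  have hne1 : ∀ᶠ x in 𝓝 q, f x ≠ 0 → a → (x - q).1 ≠ 0 := by
    by_cases ha : a
    · filter_upwards [hs2.eventually ha] with x h1 h2 _ h3
      have h4 : x.1 = q.1 := sub_eq_zero.1 h3
      apply h2
      rw [add_sub_cancel, ← h4] at h1
      exact h1
    · exact Eventually.of_forall fun _ _ h => absurd h ha
  have hne2 : ∀ᶠ x in 𝓝 q, f x ≠ 0 → b → (x - q).2 ≠ 0 := by
    by_cases hb : b
    · filter_upwards [hs1.eventually hb] with x h1 h2 _ h3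
      have h4 : x.2 = q.2 := sub_eq_zero.1 h3
      apply h2
      rw [add_sub_cancel, ← h4] at h1
      exact h1
    · exact Eventually.of_forall fun _ _ h => absurd h hb
  refine ⟨1 / mK * Real.log (max C 1), ?_⟩
  filter_upwards [hC, hX, hne1, hne2, hfK] with x h1 h2 h3 h4 hk h50 h6
  have h5 : f x ≠ 0 := fun h0 => hk.2 h0 h50
  have h7 := log_pole (a := a) (b := b) hW.one_m (h3 h5) (h4 h5) (norm_pos_iff.2 h6) (lt_max_of_lt_right one_pos) ((h1 h50).trans (le_max_left _ 1))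
  have g1 := pow_log (al := al mK a) (x := (x - q).1) fun h8 => h3 h5 (by
    by_contra h9
    apply h8
    unfold al
    rw [if_neg h9])
  have g2 := pow_log (al := al mK b) (x := (x - q).2) fun h8 => h4 h5 (by
    by_contra h9
    apply h8
    unfold al
    rw [if_neg h9])
  have g3 : ‖JD (al mK a) (al mK b) (x - q)‖ = ‖(x - q).1‖ ^ al mK a * ‖(x - q).2‖ ^ al mK b := by
    unfold JD
    rw [Complex.norm_real, Real.norm_eq_abs, abs_of_nonneg (by positivity)]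
  rw [e1, e2, g3, Real.log_mul g1.1 g2.1, g1.2, g2.2]
  linarith

end Pool.Agent.MQK

end
end
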