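import Pool.Agent.H43.TL2.M103
import Pool.Agent.H43.TL2.M116
import Pool.Agent.H43.TL2.M121
import Pool.Agent.H43.TL2.M63
import Pool.Agent.H43.TL2.M93

/-! The parts of this file: MQ3.AsmNA, MQ3.AsmN, MQ3.EtaN. -/

section

/-!
# MQ3 AsmNA: the patches of type `N`, the sum of the densities
-/

set_option autoImplicit false

open Topology Filter Metric MvPolynomial MeasureTheory Laplacian

noncomputable section

namespace Pool.Agent.MQ3

open Pool.Agent.H36.BP (EN fs)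
open Pool.Agent.H14.PP (Tan)
open Pool.Agent.H17BP (Surface IsForm)
open Pool.Agent.H17EF (projVar coneE)
open Pool.Agent.H30M (tau LogSing)
open Pool.Agent.MQ (lam En ztv dvg DDv gr dv)

variable {M : ℕ} {P : Ideal (MvPolynomial (Fin (M + 1)) ℂ)} {RD : MvPolynomial (Fin (M + 1)) ℂ} {m : ℕ} {X : NCModel P RD} {θ : WDiff (coneE P) m}
  {l : LF M} {S : Web X θ l} {Ra : MvPolynomial (Fin (M + 1)) ℂ}

/-! ## the open sets and the cores -/

theorem core_closed (C : Cov S Ra) {F : ℂ → EN M} (hF : WCrv θ RD F) (Y : NCLift X F) (j : Fin C.nP) : IsClosed (C.core Y j) :=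
  lfN_closed hF Y (C.ck j) (isCompact_closedBall (C.Q j) (C.s j)) ((closedBall_subset_closedBall (C.s_lt j).le).trans (C.P_sub j))

theorem UN_open (C : Cov S Ra) {F : ℂ → EN M} (hF : WCrv θ RD F) (Y : NCLift X F) (k : Fin C.nN) : IsOpen (C.UN Y k) := by
  rw [isOpen_iff_mem_nhds]
  rintro z ⟨h1, h2, h3⟩
  have h4 : ∀ᶠ w in 𝓝 z, ∀ j, w ∉ C.core Y j := eventually_all.2 fun j => (core_closed C hF Y j).isOpen_compl.mem_nhds (h3 j)
  filter_upwards [(Y.isOpen (C.b k)).mem_nhds h1, (Y.an (C.b k) z h1).continuousAt.eventually_mem (isOpen_ball.mem_nhds h2), h4] with w h5 h6 h7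
  exact ⟨h5, h6, h7⟩

theorem core_sub_UP (C : Cov S Ra) {F : ℂ → EN M} (Y : NCLift X F) (j : Fin C.nP) : C.core Y j ⊆ C.UP Y j :=
  fun _ hz => ⟨hz.1, closedBall_subset_ball (C.s_lt j) hz.2⟩

/-! ## continuity -/

/-- an inequality at the generic points holds at all points where the potential is of class `C²` -/
theorem lap_of_near {e : ℂ → ℝ} {η : ℂ → ℂ} {err f : ℂ → ℝ} {z : ℂ} (he : ContDiffAt ℝ 2 e z) (hη : ContDiffAt ℝ 1 η z) (herr : ContinuousAt err z)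
    (hf : ContinuousAt f z) (h : ∀ᶠ w in 𝓝[≠] z, f w ≤ Δ e w + dv η w + err w) : f z ≤ Δ e z + dv η z + err z := by
  have h1 : ∀ᶠ w in 𝓝[≠] z, f w ≤ Pool.Agent.MQ.lp e w + dv η w + err w := by
    filter_upwards [h, (he.eventually (by simp)).filter_mono nhdsWithin_le_nhds] with w h2 h3
    rwa [Pool.Agent.MQ.lp_eq_lap h3]
  have c2 : Tendsto (fun w => Pool.Agent.MQ.lp e w + dv η w + err w) (𝓝[≠] z) (𝓝 (Pool.Agent.MQ.lp e z + dv η z + err z)) :=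
    (((Pool.Agent.MQ.continuousAt_lp he).add (Pool.Agent.MQ.continuousAt_dv hη)).add herr).tendsto.mono_left nhdsWithin_le_nhds
  have := le_of_tendsto_of_tendsto (hf.tendsto.mono_left nhdsWithin_le_nhds) c2 h1
  rwa [Pool.Agent.MQ.lp_eq_lap he] at this

theorem WCrv.F_ne {F : ℂ → EN M} (hF : WCrv θ RD F) (z : ℂ) : F z ≠ 0 := by
  intro h
  exact (hF.mem z).1 (by rw [h]; rfl)

theorem WCrv.lam_cont {F : ℂ → EN M} (hF : WCrv θ RD F) : Continuous (lam F) :=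
  Pool.Agent.MQ.continuous_lam hF.diff hF.F_ne

/-! ## the patches of type `N` -/

/-! ## monotonicity -/

theorem IsPatch.mono {F : ℂ → EN M} {Ψ : ℂ → ℂ} {ε₀ : ℝ} {l l' : ℂ → ℝ} {U : Set ℂ} {e : ℂ → ℝ} {η : ℂ → ℂ} {err : ℂ → ℝ} {K : Set ℂ} {C C' δ : ℝ}
    (h : IsPatch F Ψ ε₀ l U e η err K C δ) (hl : Continuous l) (hl' : Continuous l') (h0 : ∀ z, 0 ≤ l z) (hle : ∀ z, l z ≤ l' z) (hC : 0 ≤ C)
    (hCC : C ≤ C') : IsPatch F Ψ ε₀ l' U e η err K C' δ := by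
  refine ⟨h.isOpen, h.pos, h.field, fun z hz => (h.field_le z hz).trans (mul_le_mul hCC (hle z) (h0 z) (hC.trans hCC)), h.comp, h.closed, h.sub,
    h.err_cont, h.err_off, h.lap, fun R hR => (h.int R hR).trans ?_, fun z hz he => (h.up z hz he).trans ?_⟩
  · have h1 : ∫ z, ‖gr (tau R) z‖ * l z ≤ ∫ z, ‖gr (tau R) z‖ * l' z :=
      integral_mono (Pool.Agent.MQ2.integrable_gr_mul hR hl) (Pool.Agent.MQ2.integrable_gr_mul hR hl') fun z =>
        mul_le_mul_of_nonneg_left (hle z) (norm_nonneg _)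
    have h2 : 0 ≤ ∫ z, ‖gr (tau R) z‖ * l z := integral_nonneg fun z => mul_nonneg (norm_nonneg _) (h0 z)
    have h3 : C * (∫ z, ‖gr (tau R) z‖ * l z) ≤ C' * ∫ z, ‖gr (tau R) z‖ * l' z := mul_le_mul hCC h1 h2 (hC.trans hCC)
    linarith
  · have h1 : Real.log (1 + l z) ≤ Real.log (1 + l' z) := Real.log_le_log (by linarith [h0 z]) (by linarith [hle z])
    linarith

/-! ## the sum of the densities -/

end Pool.Agent.MQ3

end
end

section

/-!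
# MQ3 AsmN: the pack of a curve from the local packages
-/

set_option autoImplicit false

open Topology Filter Metric MvPolynomial MeasureTheory Laplacian

noncomputable section

namespace Pool.Agent.MQ3

open Pool.Agent.H36.BP (EN fs)
open Pool.Agent.H17BP (Surface IsForm)
open Pool.Agent.H17EF (projVar coneE)
open Pool.Agent.H30M (tau LogSing)
open Pool.Agent.MQ (lam En gr dv Pack Patches)
open Pool.Agent.MQ2 (LocX)

/-! ## abstract patches -/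

section

variable {M : ℕ} {F : ℂ → EN M} {Ψ : ℂ → ℂ} {ε₀ : ℝ}

theorem IsPatch.abs' {l : ℂ → ℝ} {U : Set ℂ} {e : ℂ → ℝ} {η : ℂ → ℂ} {err : ℂ → ℝ} {K : Set ℂ} {C δ : ℝ} (h0 : ∀ z, 0 ≤ l z)
    (h : IsPatch F Ψ ε₀ l U e η err K C δ) : IsPatch F Ψ ε₀ l U e η err K |C| δ := by
  refine ⟨h.isOpen, h.pos, h.field, fun z hz => (h.field_le z hz).trans (mul_le_mul_of_nonneg_right (le_abs_self C) (h0 z)), h.comp, h.closed, h.sub,
    h.err_cont, h.err_off, h.lap, fun R hR => (h.int R hR).trans ?_, fun z hz he => (h.up z hz he).trans ?_⟩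
  · have h2 : 0 ≤ ∫ z, ‖gr (tau R) z‖ * l z := integral_nonneg fun z => mul_nonneg (norm_nonneg _) (h0 z)
    have h3 := mul_le_mul_of_nonneg_right (le_abs_self C) h2
    have h4 := le_abs_self C
    linarith
  · have h4 := le_abs_self C
    linarith

theorem energy_add {a b : ℂ → ℝ} (ha : Continuous a) (hb : Continuous b) (h1 : ∃ B : ℝ, ∀ R, 1 ≤ R → ∫ z, tau R z * a z ^ 2 ≤ B * (En F R + 1))
    (h2 : ∃ B : ℝ, ∀ R, 1 ≤ R → ∫ z, tau R z * b z ^ 2 ≤ B * (En F R + 1)) :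
    ∃ B : ℝ, ∀ R, 1 ≤ R → ∫ z, tau R z * (a z + b z) ^ 2 ≤ B * (En F R + 1) := by
  obtain ⟨B₁, h1⟩ := h1
  obtain ⟨B₂, h2⟩ := h2
  refine ⟨2 * B₁ + 2 * B₂, fun R hR => ?_⟩
  have i1 : ∀ {f : ℂ → ℝ}, Continuous f → Integrable fun z => tau R z * f z := fun hf =>
    ((Pool.Agent.H30M.contDiff_tau R).continuous.mul hf).integrable_of_hasCompactSupport (Pool.Agent.H30M.hcs_tau hR).mul_right
  have h3 : ∫ z, tau R z * (a z + b z) ^ 2 ≤ ∫ z, (2 * (tau R z * a z ^ 2) + 2 * (tau R z * b z ^ 2)) := by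
    refine integral_mono (i1 ((ha.add hb).pow 2)) (((i1 (ha.pow 2)).const_mul 2).add ((i1 (hb.pow 2)).const_mul 2)) fun z => ?_
    have h4 := Pool.Agent.H30M.tau_nonneg hR z
    have h5 : (a z + b z) ^ 2 ≤ 2 * a z ^ 2 + 2 * b z ^ 2 := by nlinarith [sq_nonneg (a z - b z)]
    have h6 := mul_le_mul_of_nonneg_left h5 h4
    dsimp only
    linarith
  have ia : Integrable fun z => 2 * (tau R z * a z ^ 2) := (i1 (ha.pow 2)).const_mul 2
  have ib : Integrable fun z => 2 * (tau R z * b z ^ 2) := (i1 (hb.pow 2)).const_mul 2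
  rw [integral_add ia ib, integral_const_mul, integral_const_mul] at h3
  have h7 := h1 R hR
  have h8 := h2 R hR
  linarith

theorem energy_sum' {n : Type} (s : Finset n) {l : n → ℂ → ℝ} (hl : ∀ j, Continuous (l j))
    (h : ∀ j, ∃ B : ℝ, ∀ R, 1 ≤ R → ∫ z, tau R z * l j z ^ 2 ≤ B * (En F R + 1)) {a : ℂ → ℝ} (ha : Continuous a)
    (h1 : ∃ B : ℝ, ∀ R, 1 ≤ R → ∫ z, tau R z * a z ^ 2 ≤ B * (En F R + 1)) :
    ∃ B : ℝ, ∀ R, 1 ≤ R → ∫ z, tau R z * (a z + ∑ j ∈ s, l j z) ^ 2 ≤ B * (En F R + 1) := by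
  classical
  induction s using Finset.induction_on with
  | empty => simpa using h1
  | insert j s hj ih =>
    have e : ∀ z, a z + ∑ i ∈ insert j s, l i z = (a z + ∑ i ∈ s, l i z) + l j z := fun z => by
      rw [Finset.sum_insert hj]
      ring
    simp only [e]
    exact energy_add (ha.add (continuous_finsetSum _ fun i _ => hl i)) (hl j) ih (h j)

/-- **The pack from finitely many patches.** -/
theorem pack_of_isPatch {ι : Type} [Fintype ι] {lm : ℂ → ℝ} {U K : ι → Set ℂ} {l : ι → ℂ → ℝ} {c D : ι → ℝ} {e : ι → ℂ → ℝ}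
    {η : ι → ℂ → ℂ} {err : ι → ℂ → ℝ} (hF : Differentiable ℂ F) (hF0 : ∀ z, F z ≠ 0)
    (hord : ∃ A : ℝ, ∀ r : ℝ, 0 < r → Real.circleAverage (fun z => Real.log ‖F z‖) 0 r ≤ A * (1 + r ^ 2)) (hlm : Continuous lm) (hle : ∀ z, lam F z ≤ lm z)
    (hen : ∃ B : ℝ, ∀ R, 1 ≤ R → ∫ z, tau R z * lm z ^ 2 ≤ B * (En F R + 1)) (hlc : ∀ i, Continuous (l i)) (hll : ∀ i z, lm z ≤ l i z)
    (hel : ∀ i, ∃ B : ℝ, ∀ R, 1 ≤ R → ∫ z, tau R z * l i z ^ 2 ≤ B * (En F R + 1)) (hD : ∀ i, 0 ≤ D i)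
    (h : ∀ i, IsPatch F Ψ ε₀ (l i) (U i) (e i) (η i) (err i) (K i) (c i) (D i)) (hdis : ∀ i j, i ≠ j → ∀ z ∈ K i, z ∉ U j)
    {χ : ι → ℂ → ℝ} {B : ℝ} (h1 : ∀ i, ContDiff ℝ 2 (χ i)) (h2 : ∀ i z, 0 ≤ χ i z ∧ χ i z ≤ 1) (h3 : ∀ i, tsupport (χ i) ⊆ U i)
    (h4 : ∀ i z, ‖gr (χ i) z‖ ≤ B * lm z) (h5 : ∀ z, ∃ i, χ i z = 1)
    (h6 : ∀ i j, ∃ B' : ℝ, ∀ z, χ i z = 1 → z ∈ tsupport (χ j) → ContDiffAt ℝ 2 (e i) z → ContDiffAt ℝ 2 (e j) z → |e i z - e j z| ≤ B') :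
    ∃ L : ℂ → ℝ, Continuous L ∧ (∀ z, lam F z ≤ L z) ∧ (∃ B : ℝ, ∀ R, 1 ≤ R → ∫ z, tau R z * L z ^ 2 ≤ B * (En F R + 1)) ∧ Pack F L ε₀ (∑ i, D i) := by
  classical
  choose Bb hBb using h6
  have hlm0 : ∀ z, 0 ≤ lm z := fun z => (Pool.Agent.MQ.lam_nonneg F z).trans (hle z)
  have hl0 : ∀ i z, 0 ≤ l i z := fun i z => (hlm0 z).trans (hll i z)
  set L : ℂ → ℝ := fun z => lm z + ∑ i, l i z with hL
  have hLc : Continuous L := hlm.add (continuous_finsetSum _ fun i _ => hlc i)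
  have hlL : ∀ i z, l i z ≤ L z := fun i z => by
    have h7 := Finset.single_le_sum (f := fun i => l i z) (fun k _ => hl0 k z) (Finset.mem_univ i)
    have h8 := hlm0 z
    show _ ≤ lm z + ∑ i, l i z
    linarith
  have hmL : ∀ z, lm z ≤ L z := fun z => by
    have h7 : 0 ≤ ∑ i, l i z := Finset.sum_nonneg fun i _ => hl0 i z
    show _ ≤ lm z + ∑ i, l i z
    linarith
  have hL0 : ∀ z, 0 ≤ L z := fun z => (hlm0 z).trans (hmL z)
  have hLe := energy_sum' (F := F) Finset.univ hlc hel hlm hen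
  set CC : ℝ := |B| + ∑ i, |c i| + ∑ i, ∑ j, |Bb i j| with hCC
  have n1 : 0 ≤ ∑ i, |c i| := Finset.sum_nonneg fun i _ => abs_nonneg _
  have n2 : 0 ≤ ∑ i, ∑ j, |Bb i j| := Finset.sum_nonneg fun i _ => Finset.sum_nonneg fun j _ => abs_nonneg _
  have hCC0 : 0 ≤ CC := by positivity
  have hcC : ∀ i, |c i| ≤ CC := fun i => by
    have h7 := Finset.single_le_sum (f := fun i => |c i|) (fun k _ => abs_nonneg _) (Finset.mem_univ i)
    have h8 := abs_nonneg B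
    linarith
  have hbC : ∀ i j, |Bb i j| ≤ CC := fun i j => by
    have h7 := Finset.single_le_sum (f := fun j => |Bb i j|) (fun k _ => abs_nonneg _) (Finset.mem_univ j)
    have h9 := Finset.single_le_sum (f := fun i => ∑ j, |Bb i j|) (fun k _ => Finset.sum_nonneg fun j _ => abs_nonneg _) (Finset.mem_univ i)
    have h8 := abs_nonneg B
    linarith
  have hBC : |B| ≤ CC := by linarith
  have hP : ∀ i, IsPatch F Ψ ε₀ L (U i) (e i) (η i) (err i) (K i) CC (D i) := fun i =>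
    ((h i).abs' (hl0 i)).mono (hlc i) hLc (hl0 i) (hlL i) (abs_nonneg _) (hcC i)
  have hPt : Patches L U χ e η CC :=
    { isOpen := fun i => (h i).isOpen
      smooth := h1
      nonneg := fun i z => (h2 i z).1
      le_one := fun i z => (h2 i z).2
      supp := h3
      gr_le := fun i z => (h4 i z).trans (mul_le_mul ((le_abs_self B).trans hBC) (hmL z) (hlm0 z) hCC0)
      cover := h5
      log := fun i z hz => let ⟨c', _, h7⟩ := (h i).pos z hz; ⟨c', h7⟩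
      field := fun i => (h i).field
      field_le := fun i => (hP i).field_le
      comp := fun i j z hi hj => by
        by_cases hij : i = j
        · subst hij
          exact Eventually.of_forall fun _ => rfl
        · filter_upwards [(h i).comp z hi fun hK => hdis i j hij z hK hj, (h j).comp z hj fun hK => hdis j i (Ne.symm hij) z hK hi] with w h7 h8
          rw [h7, h8]
      bound := fun i j z a1 a2 a3 a4 => (hBb i j z a1 a2 a3 a4).trans ((le_abs_self _).trans (hbC i j)) }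
  have hv : ∀ z : ℂ, ∃ c, LogSing (fun _ : ℂ => (0 : ℝ)) c z := fun z => ⟨0, LogSing.of_contDiffAt contDiffAt_const⟩
  have hΔ : ∀ z : ℂ, Δ (fun _ : ℂ => (0 : ℝ)) z = 0 := fun z => by simp
  obtain ⟨B₁, hB₁⟩ := hLe
  obtain ⟨A, hA⟩ := hord
  obtain ⟨A₁, hA₁⟩ := Pool.Agent.MQ.ord hF hF0 hA
  have hEn : ∀ R, 1 ≤ R → 0 ≤ En F R := fun R hR => integral_nonneg fun z => mul_nonneg (Pool.Agent.H30M.tau_nonneg hR z) (sq_nonneg _)
  have hA₂ : ∀ R, 1 ≤ R → ∫ z, tau R z * L z ^ 2 ≤ (|B₁| * (|A₁| + 1)) * R ^ 2 := fun R hR => by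
    have h7 := hB₁ R hR
    have h8 := hA₁ R hR
    have h9 : 1 ≤ R ^ 2 := one_le_pow₀ hR
    have h10 : En F R + 1 ≤ (|A₁| + 1) * R ^ 2 := by
      have h11 : A₁ * R ^ 2 ≤ |A₁| * R ^ 2 := mul_le_mul_of_nonneg_right (le_abs_self _) (sq_nonneg R)
      nlinarith
    have h12 : B₁ * (En F R + 1) ≤ |B₁| * (En F R + 1) := mul_le_mul_of_nonneg_right (le_abs_self _) (by linarith [hEn R hR])
    have h13 := mul_le_mul_of_nonneg_left h10 (abs_nonneg B₁)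
    linarith
  have hp : ∀ i, ∀ z ∈ U i, ∃ c, 0 ≤ c ∧ LogSing (fun w => e i w + (fun _ : ℂ => (0 : ℝ)) w) c z := fun i z hz => by
    obtain ⟨c', h7, h8⟩ := (h i).pos z hz
    exact ⟨c', h7, h8.congr (Eventually.of_forall fun w => add_zero _)⟩
  refine ⟨L, hLc, fun z => (hle z).trans (hmL z), ⟨B₁, hB₁⟩, ?_⟩
  refine pack_of_patches_dis (v := fun _ => 0) (Pool.Agent.MQ.continuous_lam hF hF0) hLc hL0 hCC0 hPt (fun i => (h i).closed) (fun i => (h i).sub)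
    (fun i => (h i).err_cont) hdis (fun i => (h i).err_off) (fun i => ⟨CC, (hP i).int⟩) hv (fun i z hz he _ => ?_) hp (fun i => ?_)
  · have h7 := (h i).lap z hz he
    rw [hΔ z]
    linarith
  · refine Pool.Agent.MQ.Core.mean_of_le F hPt hLc hL0 hA₂ i hv (hp i) (C₀ := CC) (fun z h7 h8 _ => ?_) (hD i)
    have h9 : z ∈ U i := h3 i (subset_tsupport _ (by rw [Function.mem_support, h7]; exact one_ne_zero))
    have h10 := (hP i).up z h9 h8
    linarith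

end

end Pool.Agent.MQ3

end
end

section

/-!
# MQ3 EtaN: the fields `η` of the boxes

At a point `z` of the open set of the box the local field of `EtaLoc` is `conj Θ - gr eH` outside `z`; so the limits of this function are one field `η`, and
the constants of the finitely many neighbourhoods which cover the compact sets `K k a` of regular chart points bound it.
-/

set_option autoImplicit false

open Topology Filter Metric MvPolynomial MeasureTheory Laplacian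

noncomputable section

namespace Pool.Agent.MQ3

open Pool.Agent.H36.BP (EN fs)
open Pool.Agent.H17BP (Surface IsForm)
open Pool.Agent.H17EF (coneE)
open Pool.Agent.MQ (lam ztv dvg DDv gr dv)

variable {M : ℕ} {P : Ideal (MvPolynomial (Fin (M + 1)) ℂ)} {RD : MvPolynomial (Fin (M + 1)) ℂ} {m : ℕ} {X : NCModel P RD} {θ : WDiff (coneE P) m}
  {l : LF M} {S : Web X θ l} {Ra : MvPolynomial (Fin (M + 1)) ℂ} {Wf : EN M → EN M → EN M → ℂ} {mK jH : ℕ}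

/-- a local field at the point `z`, with the bound `B` -/
def EtaNPt (Wf : EN M → EN M → EN M → ℂ) (mK jH : ℕ) (H : ℂ × ℂ → ℂ × ℂ → EN 2) {F : ℂ → EN M} (Y : NCLift X F) (i : X.ι) (Θ : ℂ → ℂ) (B : ℝ) (z : ℂ) :
    Prop :=
  ∃ η : ℂ → ℂ, ContDiffAt ℝ 1 η z ∧ ‖η z‖ ≤ B ∧ ∀ᶠ w in 𝓝[≠] z, ContDiffAt ℝ 2 (eN H Wf mK jH Y i) w ∧
    η w = (starRingEnd ℂ) (Θ w) - gr (eH H Wf mK Y i) w ∧ Δ (eN H Wf mK jH Y i) w + dv η w = 2 * jH / mK * lam F w ^ 2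

theorem EtaN_hA (p w : ℂ × ℂ) (a : ℂ) : hA p (a • w) = a • hA p w := by
  unfold hA
  rw [← WithLp.toLp_smul]
  congr 1
  ext i
  fin_cases i <;> simp <;> ring

theorem EtaN_hB (u : ℂ × ℂ → ℂ) (p w : ℂ × ℂ) (a : ℂ) : hB u p (a • w) = a • hB u p w := by
  unfold hB
  rw [← WithLp.toLp_smul]
  congr 1
  ext i
  fin_cases i <;> simp <;> ring

theorem EtaN_ne (k : S.ι) {q : ℂ × ℂ} (h : S.κ k q ∈ DS) : q.1 * q.2 ≠ 0 := by
  have hd := (S.c k).pos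
  unfold dt at hd
  intro h0
  have h1 : (S.κ k q).1 = q.1 ^ (S.c k).w.1 * q.2 ^ (S.c k).w'.1 := rfl
  have h2 : (S.κ k q).2 = q.1 ^ (S.c k).w.2 * q.2 ^ (S.c k).w'.2 := rfl
  have h3 := h.1.1
  have h4 := h.2.1
  rw [h1] at h3
  rw [h2] at h4
  rcases mul_eq_zero.1 h0 with h5 | h5 <;> rw [h5] at h3 h4
  · have h6 : (S.c k).w.1 = 0 := by
      by_contra h6
      exact h3 (by rw [zero_pow h6, zero_mul])
    have h7 : (S.c k).w.2 = 0 := by
      by_contra h7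
      exact h4 (by rw [zero_pow h7, zero_mul])
    rw [h6, h7] at hd
    simp at hd
  · have h6 : (S.c k).w'.1 = 0 := by
      by_contra h6
      exact h3 (by rw [zero_pow h6, mul_zero])
    have h7 : (S.c k).w'.2 = 0 := by
      by_contra h7
      exact h4 (by rw [zero_pow h7, mul_zero])
    rw [h6, h7] at hd
    simp at hd

/-- the local fields near one regular chart point -/
theorem EtaN_loc (hX : Surface (coneE P)) (hm : 1 ≤ mK) (hW : IsForm (coneE P) mK jH Wf) (C : Cov S Ra) (k : Fin C.nN) (a : (S.V (C.b k)).ι) {q : ℂ × ℂ}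
    (hq : q ∈ C.K k a) : ∃ N ∈ 𝓝 q, ∃ B : ℝ, ∀ F : ℂ → EN M, RCrv θ RD Ra F → ∀ Y : NCLift X F, WNe Wf Y → ∀ Θ : ℂ → ℂ, IsTh S Wf mK Y Θ →
      ∀ z ∈ S.Om Y ⟨C.b k, a⟩, S.lf Y ⟨C.b k, a⟩ z ∈ N → EtaNPt Wf mK jH (C.H k) Y (C.b k) Θ (B * ‖deriv (S.lf Y ⟨C.b k, a⟩) z‖) z := by
  -- the equation of the invariant curve and the vector
  obtain ⟨hD, hv, hH, g, hg, L, hL, hL0, hHL⟩ : q ∈ S.D ⟨C.b k, a⟩ ∧ S.v ⟨C.b k, a⟩ q ≠ 0 ∧ (∀ p w (c : ℂ), C.H k p (c • w) = c • C.H k p w) ∧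
      ∃ g, InvAt S Ra ⟨C.b k, a⟩ q g ∧ ∃ L : ℂ × ℂ → EN 2, AnalyticAt ℂ L q ∧ L q ≠ 0 ∧
        ∀ᶠ x in 𝓝 q, C.H k (S.κ ⟨C.b k, a⟩ x) (fderiv ℂ (S.κ ⟨C.b k, a⟩) x (S.v ⟨C.b k, a⟩ x)) = (jc (S.κ ⟨C.b k, a⟩) x * g x) • L x := by
    rcases hu : C.u k with _ | u'
    · have hR := (C.K_A k a hu q hq).1
      obtain ⟨g, hg⟩ := exists_invAt (Or.inl hR)
      have hH : C.H k = hA := by unfold Cov.H; rw [hu]; rfl
      rw [hH]
      exact ⟨hR.mem, hR.v_ne, EtaN_hA, g, hg, nloc_A hR hg⟩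
    · obtain ⟨hR, hκ⟩ := C.K_B k a u' hu q hq
      obtain ⟨h1, h2, h3⟩ := C.N_B k u' hu
      obtain ⟨g, hg⟩ := exists_invAt hR
      have hH : C.H k = hB u' := by unfold Cov.H; rw [hu]; rfl
      rw [hH]
      have hD : q ∈ S.D ⟨C.b k, a⟩ := hR.elim (fun h => h.mem) fun h => h.mem
      have hv : S.v ⟨C.b k, a⟩ q ≠ 0 := hR.elim (fun h => h.v_ne) fun h => h.v_ne
      exact ⟨hD, hv, EtaN_hB u', g, hg, nloc_B hR (EtaN_ne _ (h1 hκ)) (h2 _ hκ) (h3 _ hκ) hg⟩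
  obtain ⟨N, hN, B, h⟩ := eta_loc (mK := mK) (jH := jH) hX hm hW hD hv hg hH hL hL0 hHL
  refine ⟨N, hN, B, fun F hF Y hne Θ hΘ z hz hzN => ?_⟩
  obtain ⟨η, ψ, h1, h2, -, -, h3⟩ := h F hF Y hne Θ hΘ z hz hzN
  exact ⟨η, h1, h2, h3.mono fun w hw => ⟨hw.1, hw.2.1, hw.2.2.1⟩⟩

/-- the local fields over a compact set of regular chart points -/
theorem EtaN_cpt (hX : Surface (coneE P)) (hm : 1 ≤ mK) (hW : IsForm (coneE P) mK jH Wf) (C : Cov S Ra) (k : Fin C.nN) (a : (S.V (C.b k)).ι) :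
    ∃ B : ℝ, ∀ F : ℂ → EN M, RCrv θ RD Ra F → ∀ Y : NCLift X F, WNe Wf Y → ∀ Θ : ℂ → ℂ, IsTh S Wf mK Y Θ →
      ∀ z ∈ S.Om Y ⟨C.b k, a⟩, S.lf Y ⟨C.b k, a⟩ z ∈ C.K k a → EtaNPt Wf mK jH (C.H k) Y (C.b k) Θ (B * ‖deriv (S.lf Y ⟨C.b k, a⟩) z‖) z := by
  refine (C.K_compact k a).induction_on (p := fun s => ∃ B : ℝ, ∀ F : ℂ → EN M, RCrv θ RD Ra F → ∀ Y : NCLift X F, WNe Wf Y → ∀ Θ : ℂ → ℂ, IsTh S Wf mK Y Θ →
      ∀ z ∈ S.Om Y ⟨C.b k, a⟩, S.lf Y ⟨C.b k, a⟩ z ∈ s → EtaNPt Wf mK jH (C.H k) Y (C.b k) Θ (B * ‖deriv (S.lf Y ⟨C.b k, a⟩) z‖) z) ?_ ?_ ?_ ?_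
  · exact ⟨0, fun F _ Y _ Θ _ z _ h => h.elim⟩
  · rintro s t hst ⟨B, hB⟩
    exact ⟨B, fun F hF Y hne Θ hΘ z hz h => hB F hF Y hne Θ hΘ z hz (hst h)⟩
  · rintro s t ⟨B, hB⟩ ⟨B', hB'⟩
    refine ⟨max B B', fun F hF Y hne Θ hΘ z hz h => ?_⟩
    rcases h with h | h
    · obtain ⟨η, h1, h2, h3⟩ := hB F hF Y hne Θ hΘ z hz h
      exact ⟨η, h1, h2.trans (mul_le_mul_of_nonneg_right (le_max_left _ _) (norm_nonneg _)), h3⟩
    · obtain ⟨η, h1, h2, h3⟩ := hB' F hF Y hne Θ hΘ z hz h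
      exact ⟨η, h1, h2.trans (mul_le_mul_of_nonneg_right (le_max_right _ _) (norm_nonneg _)), h3⟩
  · intro q hq
    obtain ⟨N, hN, h⟩ := EtaN_loc (mK := mK) (jH := jH) hX hm hW C k a hq
    exact ⟨N, mem_nhdsWithin_of_mem_nhds hN, h⟩

/-- the limits of a function which has locally a continuous extension -/
theorem EtaN_lim {E η : ℂ → ℂ} {z : ℂ} (hη : ContDiffAt ℝ 1 η z) (h : ∀ᶠ w in 𝓝[≠] z, η w = E w) : (fun w => limUnder (𝓝[≠] w) E) =ᶠ[𝓝 z] η := by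
  have h1 : ∀ᶠ w in 𝓝 z, ContinuousAt η w := (hη.eventually (by simp)).mono fun w hw => hw.continuousAt
  have h2 : ∀ᶠ w in 𝓝 z, w ≠ z → ∀ᶠ w' in 𝓝 w, η w' = E w' := eventually_nhdsWithin_iff.1 (EtaLoc_punct h)
  filter_upwards [h1, h2] with w h3 h4
  have h5 : ∀ᶠ w' in 𝓝[≠] w, η w' = E w' := by
    by_cases hw : w = z
    · rw [hw]; exact h
    · exact (h4 hw).filter_mono nhdsWithin_le_nhds
  exact ((h3.tendsto.mono_left nhdsWithin_le_nhds).congr' h5).limUnder_eq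

theorem exists_etaN (hX : Surface (coneE P)) (hm : 1 ≤ mK) (hW : IsForm (coneE P) mK jH Wf) (C : Cov S Ra) (k : Fin C.nN) :
    ∃ B : ℝ, ∀ F : ℂ → EN M, RCrv θ RD Ra F → ∀ Y : NCLift X F, WNe Wf Y → ∀ Θ : ℂ → ℂ, IsTh S Wf mK Y Θ →
      ∀ (A : ℝ) (lm : ℂ → ℝ), Dens C Y A lm → ∃ η : ℂ → ℂ, ContDiffOn ℝ 1 η (C.UN Y k) ∧ (∀ z ∈ C.UN Y k, ‖η z‖ ≤ B * lm z) ∧
        ∀ z ∈ C.UN Y k, ∀ᶠ w in 𝓝[≠] z, η w + gr (eN (C.H k) Wf mK jH Y (C.b k)) w = (starRingEnd ℂ) (Θ w) + gr (fun w => jH / mK * Real.log ‖F w‖) w ∧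
          ContDiffAt ℝ 2 (eN (C.H k) Wf mK jH Y (C.b k)) w ∧ Δ (eN (C.H k) Wf mK jH Y (C.b k)) w + dv η w = 2 * jH / mK * lam F w ^ 2 := by
  choose B hB using fun a => EtaN_cpt (mK := mK) (jH := jH) hX hm hW C k a
  refine ⟨∑ a, |B a|, fun F hF Y hne Θ hΘ A lm hl => ?_⟩
  -- the local field at a point of the open set
  have hloc : ∀ z ∈ C.UN Y k, ∃ η : ℂ → ℂ, ContDiffAt ℝ 1 η z ∧ ‖η z‖ ≤ (∑ a, |B a|) * lm z ∧ ∀ᶠ w in 𝓝[≠] z,
      ContDiffAt ℝ 2 (eN (C.H k) Wf mK jH Y (C.b k)) w ∧ η w = (starRingEnd ℂ) (Θ w) - gr (eH (C.H k) Wf mK Y (C.b k)) w ∧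
        Δ (eN (C.H k) Wf mK jH Y (C.b k)) w + dv η w = 2 * jH / mK * lam F w ^ 2 := by
    intro z hz
    obtain ⟨hz1, hz2, hz3⟩ := hz
    obtain ⟨a, ha1, ha2⟩ := C.lift F hF.toWCrv Y k z hz1 (ball_subset_closedBall hz2) fun j hj hjb => hz3 j ⟨hj, ball_subset_closedBall hjb⟩
    obtain ⟨η, h1, h2, h3⟩ := hB a F hF Y hne Θ hΘ z ha1 ha2
    refine ⟨η, h1, h2.trans ?_, h3⟩
    have h4 : ‖deriv (S.lf Y ⟨C.b k, a⟩) z‖ ≤ lm z := hl.chart k a z ha1 ha2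
    have h5 : |B a| ≤ ∑ a, |B a| := Finset.single_le_sum (f := fun a => |B a|) (fun _ _ => abs_nonneg _) (Finset.mem_univ a)
    calc B a * ‖deriv (S.lf Y ⟨C.b k, a⟩) z‖ ≤ |B a| * ‖deriv (S.lf Y ⟨C.b k, a⟩) z‖ := mul_le_mul_of_nonneg_right (le_abs_self _) (norm_nonneg _)
      _ ≤ (∑ a, |B a|) * lm z := mul_le_mul h5 h4 (norm_nonneg _) ((abs_nonneg _).trans h5)
  refine ⟨fun w => limUnder (𝓝[≠] w) fun w => (starRingEnd ℂ) (Θ w) - gr (eH (C.H k) Wf mK Y (C.b k)) w, fun z hz => ?_, fun z hz => ?_, fun z hz => ?_⟩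
  · obtain ⟨η, h1, -, h3⟩ := hloc z hz
    exact (h1.congr_of_eventuallyEq (EtaN_lim h1 (h3.mono fun w hw => hw.2.1))).contDiffWithinAt
  · obtain ⟨η, h1, h2, h3⟩ := hloc z hz
    have h4 := (EtaN_lim h1 (h3.mono fun w hw => hw.2.1)).self_of_nhds
    simp only at h4 ⊢
    rw [h4]
    exact h2
  · obtain ⟨η, h1, -, h3⟩ := hloc z hz
    have h4 := EtaN_lim h1 (h3.mono fun w hw => hw.2.1)
    have hF0 : ∀ w, F w ≠ 0 := fun w h0 => hX.zero (by have := hF.mem w; rwa [h0] at this)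
    filter_upwards [h3, h4.eventuallyEq_nhds.filter_mono nhdsWithin_le_nhds] with w h5 h6
    obtain ⟨h7, h8, h9⟩ := h5
    have h10 := h6.self_of_nhds
    have h11 : ContDiffAt ℝ 2 (fun w => (jH / mK : ℝ) * Real.log ‖F w‖) w :=
      contDiffAt_const.mul (Pool.Agent.MQ.contDiffAt_log_norm (hF.diff.analyticAt w) (hF0 w))
    have h12 : DifferentiableAt ℝ (eH (C.H k) Wf mK Y (C.b k)) w := by
      have h13 : eH (C.H k) Wf mK Y (C.b k) = fun w => eN (C.H k) Wf mK jH Y (C.b k) w - (jH / mK : ℝ) * Real.log ‖F w‖ := by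
        funext w
        unfold eN
        ring
      rw [h13]
      exact (h7.differentiableAt (by norm_num)).sub (h11.differentiableAt (by norm_num))
    have h14 : gr (eN (C.H k) Wf mK jH Y (C.b k)) w = gr (eH (C.H k) Wf mK Y (C.b k)) w + gr (fun w => (jH / mK : ℝ) * Real.log ‖F w‖) w :=
      Pool.Agent.MQ.gr_add h12 (h11.differentiableAt (by norm_num))
    refine ⟨?_, h7, ?_⟩
    · simp only at h10 ⊢
      rw [h10, h8, h14]
      ring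
    · rw [Pool.Agent.MQ.dv_congr h6]
      exact h9

end Pool.Agent.MQ3

end
end
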