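import Pool.Agent.H43.TL2.M64
import Pool.Agent.H43.TL2.M68
import Pool.Agent.H43.TL2.M74
import Pool.Agent.H43.TL2.M80
import Pool.Agent.H43.TL2.M85
import Pool.Agent.H43.TL2.M86

/-! The parts of this file: H62.Qe.Main, H7.Qup.Main, SDA.E5, MQ3.AlgR3, MQ3.GInvNG, MQL.AlgT, MQL.AlgRL, MQL.RegC, MQ2.LeafS, MQ2.GInv, MQ3.GInvNL, MQ3.GInvN. -/

section

/-!
# Qe Main: the properties of the Green–Griffiths–Lang conjecture descend along finite etale coverings of quasi-projective surfaces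
-/

set_option autoImplicit false

open Topology Filter MvPolynomial

noncomputable section

namespace Pool.Agent.H62.Qe

open Pool.Agent.H17 (PN VanishesAt ZariskiClosedIn HolomorphicInto puncturedDisc vanishesAt_mk_iff)
open Pool.Agent.H62.FC (Homog)
open Pool.Agent.H17LG.Variety (FunField IsLogGeneralType)
open Pool.Agent.H17EF (projVar)
open Pool.Agent.H62.SA (locVar OnBd)
open Pool.Agent.H7.Bir (GGLOpen mem_of_open)

variable {N M : ℕ}

/-- **Etale coverings of quasi-projective surfaces**: the analytic form. -/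
theorem etaleOver_open {P : Ideal (MvPolynomial (Fin (N + 1)) ℂ)} [P.IsPrime] {P' : Ideal (MvPolynomial (Fin (M + 1)) ℂ)} [P'.IsPrime]
    (hP : Homog P) (hP' : Homog P') (hz : ∃ z : Fin 2 → FunField P, IsTranscendenceBasis ℂ z)
    (hz' : ∃ z' : Fin 2 → FunField P', IsTranscendenceBasis ℂ z') {s s' : ℕ}
    {G : Fin s → MvPolynomial (Fin (N + 1)) ℂ} {G' : Fin s' → MvPolynomial (Fin (M + 1)) ℂ} (hG : ∀ m, ∃ n, (G m).IsHomogeneous n)
    {p : PN M → PN N} (hp : IsEtaleOver P P' G G' p) (hgt : IsLogGeneralType (K := FunField P) (k := 2) (OnBd P G)) {Ξ' : Set (PN M)}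
    (h : GGLOpen P' G' Ξ') : ∃ Ξ : Set (PN N), GGLOpen P G Ξ := by
  -- a form which vanishes on the exceptional set
  obtain ⟨S, hS, hΞS⟩ := h.closed
  obtain ⟨y₀, hy₀, R', hR'S, hR'y₀⟩ : ∃ y ∈ locVar P' G', ∃ R ∈ S, ¬ VanishesAt R y := by
    by_contra hcon
    push Not at hcon
    apply h.proper
    rw [hΞS]
    ext y
    exact ⟨fun hy => hy.1, fun hy => ⟨hy, fun R hR => hcon y hy R hR⟩⟩
  obtain ⟨n', hn'⟩ := hS R' hR'S
  have hR'P : R' ∉ P' := fun h1 => hR'y₀ (hy₀.1 R' h1 n' hn')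
  have hR'v : ∀ y ∈ Ξ', VanishesAt R' y := by
    intro y hy
    rw [hΞS] at hy
    exact hy.2 R' hR'S
  obtain ⟨T, n, hT, hTP, hTv⟩ := exists_image_form hP hP' (Pool.Agent.H17EF.exists_coord (hp.reg.maps y₀ hy₀.1)) hz hz' hp.reg hn' hR'P
  have hne : (locVar P G).Nonempty := ⟨p y₀, (hp.inv y₀ hy₀.1).2 hy₀⟩
  -- the exceptional set
  refine ⟨{x | x ∈ locVar P G ∧ VanishesAt T x}, ?_⟩
  have hclosed : ZariskiClosedIn (locVar P G) {x | x ∈ locVar P G ∧ VanishesAt T x} := by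
    refine ⟨{T}, fun R hR => ?_, ?_⟩
    · rw [Set.mem_singleton_iff.1 hR]
      exact ⟨n, hT⟩
    · ext x
      constructor
      · rintro ⟨h1, h2⟩
        refine ⟨h1, fun R hR => ?_⟩
        rw [Set.mem_singleton_iff.1 hR]
        exact h2
      · rintro ⟨h1, h2⟩
        exact ⟨h1, h2 T rfl⟩
  have hbrody : ∀ f : ℂ → PN N, HolomorphicInto f Set.univ → (∀ z, f z ∈ locVar P G) → (∃ z w, f z ≠ f w) →
      ∀ z, f z ∈ {x | x ∈ locVar P G ∧ VanishesAt T x} := by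
    intro f hf hfU hfn z
    obtain ⟨g, hg, hgU, hgf⟩ := lift_entire hP' hp hf hfU
    have hgn : ∃ z w, g z ≠ g w := by
      obtain ⟨a, b, hab⟩ := hfn
      refine ⟨a, b, fun h1 => hab ?_⟩
      rw [← hgf a, ← hgf b, h1]
    refine ⟨hfU z, ?_⟩
    rw [← hgf z]
    exact hTv _ (hgU z).1 (hR'v _ (h.brody g hg hgU hgn z))
  refine ⟨hclosed, ?_, ?_, ?_, hbrody, ?_⟩
  · intro heq
    apply hTP
    refine mem_of_open hP hG hne hT fun x hx => ?_
    rw [← heq] at hx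
    exact hx.2
  · intro w _ hw
    obtain rfl := Pool.Agent.H17EF.two_of_basis hz hw
    exact hgt
  · intro f hf hfU hfΞ
    obtain ⟨k, g, hk, hg, hgU, hgf⟩ := lift_punctured hP' hp hf hfU
    have hgΞ : ∃ z ∈ puncturedDisc, g z ∉ Ξ' := by
      by_contra hcon
      push Not at hcon
      obtain ⟨w, hw, hwΞ⟩ := hfΞ
      apply hwΞ
      refine ⟨hfU w hw, ?_⟩
      obtain ⟨z, hz⟩ := IsAlgClosed.exists_pow_nat_eq w (by omega : 0 < k)
      have hzD : z ∈ puncturedDisc := by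
        refine ⟨?_, ?_⟩
        · rw [mem_ball_zero_iff]
          by_contra h1
          push Not at h1
          have h2 : 1 ≤ ‖z‖ ^ k := one_le_pow₀ h1
          rw [← norm_pow, hz] at h2
          have h3 : ‖w‖ < 1 := by
            rw [← mem_ball_zero_iff]
            exact hw.1
          linarith
        · rintro rfl
          apply hw.2
          rw [Set.mem_singleton_iff, ← hz, zero_pow (by omega)]
      rw [← hz, ← hgf z hzD]
      exact hTv _ (hgU z hzD).1 (hR'v _ (hcon z hzD))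
    obtain ⟨ĝ, hĝ, hgg⟩ := h.picard g hg hgU hgΞ
    exact extend_of_lift hp.reg hf hk (fun z hz => (hgU z hz).1) hgf hĝ hgg
  · intro Q _ hQ hPQ hsub w hw hzw
    exact Pool.Agent.H13.CV.strongly_of_brodyL P hP hz hG hclosed hgt hbrody Q hQ hPQ hsub w hw hzw

end Pool.Agent.H62.Qe

end
end

section

/-!
# Qup Main: the properties of the conjecture go up along dominant regular maps of quasi-projective surfaces

`open_dominant`: let `p : U' → U` be a dominant regular map of quasi-projective surfaces.  If `U` has the four properties then so has `U'`.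
-/

set_option autoImplicit false

open Topology Filter MvPolynomial

noncomputable section

namespace Pool.Agent.H7.Qup

open Pool.Agent.H17 (PN VanishesAt HolomorphicInto puncturedDisc vanishesAt_mk_iff ZariskiClosedIn)
open Pool.Agent.H17LG.Variety (FunField IsLogGeneralType)
open Pool.Agent.H62.FC (Homog)
open Pool.Agent.H62.SA (locVar OnBd)
open Pool.Agent.H17EF (projVar)
open Pool.Agent.H7.Bir (GGLOpen mem_of_open vals rmap pn_identity punctured_open)

variable {N M : ℕ} {P : Ideal (MvPolynomial (Fin (N + 1)) ℂ)} {P' : Ideal (MvPolynomial (Fin (M + 1)) ℂ)} {s s' : ℕ}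
  {G : Fin s → MvPolynomial (Fin (N + 1)) ℂ} {G' : Fin s' → MvPolynomial (Fin (M + 1)) ℂ} {p : PN M → PN N}

theorem IsDominantMap.nonempty [P.IsPrime] (hp : IsDominantMap P P' G G' p) : (locVar P' G').Nonempty := by
  by_contra hcon
  rw [Set.not_nonempty_iff_eq_empty] at hcon
  refine (Ideal.ne_top_iff_one P).1 (Ideal.IsPrime.ne_top inferInstance) (hp.dense 1 0 (isHomogeneous_one _ _) fun y hy => ?_)
  rw [hcon] at hy
  exact absurd hy (Set.notMem_empty y)

/-- **Dominant regular maps of quasi-projective surfaces.** -/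
theorem open_dominant {P : Ideal (MvPolynomial (Fin (N + 1)) ℂ)} [P.IsPrime] {P' : Ideal (MvPolynomial (Fin (M + 1)) ℂ)} [P'.IsPrime]
    (hP' : Homog P') (hz : ∃ z : Fin 2 → FunField P, IsTranscendenceBasis ℂ z)
    (hz' : ∃ z' : Fin 2 → FunField P', IsTranscendenceBasis ℂ z') {s s' : ℕ}
    {G : Fin s → MvPolynomial (Fin (N + 1)) ℂ} {G' : Fin s' → MvPolynomial (Fin (M + 1)) ℂ} (hG : ∀ m, ∃ n, (G m).IsHomogeneous n)
    (hG' : ∀ m, ∃ n, (G' m).IsHomogeneous n) {p : PN M → PN N} (hp : IsDominantMap P P' G G' p) {Ξ : Set (PN N)}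
    (h : GGLOpen P G Ξ) : ∃ Ξ' : Set (PN M), GGLOpen P' G' Ξ' := by
  have hne := hp.nonempty
  obtain ⟨y₀, hy₀⟩ := hne
  have hne : (locVar P' G').Nonempty := ⟨y₀, hy₀⟩
  obtain ⟨z, hz1⟩ := hz
  obtain ⟨z', hz1'⟩ := hz'
  -- a form which vanishes on the exceptional set
  obtain ⟨S, hS, hΞS⟩ := h.closed
  obtain ⟨x₁, hx₁, R, hRS, hRx₁⟩ : ∃ x ∈ locVar P G, ∃ R ∈ S, ¬ VanishesAt R x := by
    by_contra hcon
    push Not at hcon
    apply h.proper
    rw [hΞS]
    ext y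
    exact ⟨fun hy => hy.1, fun hy => ⟨hy, fun R hR => hcon y hy R hR⟩⟩
  obtain ⟨nR, hnR⟩ := hS R hRS
  have hRP : R ∉ P := fun h1 => hRx₁ (hx₁.1 R h1 nR hnR)
  have hRv : ∀ x ∈ Ξ, VanishesAt R x := by
    intro x hx
    rw [hΞS] at hx
    exact hx.2 R hRS
  -- the equations of the coordinates
  obtain ⟨j, hj⟩ := exists_coord hy₀
  choose m D₁ α hα hαP hrel using exists_eq hp hP' hG' hne hz1 hz1' hj
  obtain ⟨D, γ, hγ, hv⟩ := hp.exists_rep hy₀
  have hmaps := hp.maps_iff hP' hG' hγ ⟨y₀, hy₀, hv⟩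
  obtain ⟨k₀, hk₀⟩ : ∃ k, eval y₀.rep (γ k) ≠ 0 := by
    by_contra hcon
    push Not at hcon
    exact hv (funext hcon)
  have hkP : γ k₀ ∉ P' := fun h1 => hk₀ (hy₀.1 _ h1 D (hγ.hom k₀))
  set B : MvPolynomial (Fin (N + 1)) ℂ := R * ∏ i, α i (Fin.last (m i)) with hB
  have hBhom : B.IsHomogeneous (nR + ∑ i, D₁ i) := hnR.mul (IsHomogeneous.prod _ _ _ fun i _ => hα i _)
  have hBP : B ∉ P := by
    intro h1
    rcases Ideal.IsPrime.mem_or_mem inferInstance h1 with h2 | h2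
    · exact hRP h2
    · obtain ⟨i, -, h3⟩ := (Ideal.IsPrime.prod_mem_iff (p := P)).1 h2
      exact hαP i h3
  set T : MvPolynomial (Fin (M + 1)) ℂ := aeval γ B * γ k₀ * X j with hT
  have hThom : T.IsHomogeneous (D * (nR + ∑ i, D₁ i) + D + 1) := ((aeval_homog hγ.hom hBhom).mul (hγ.hom k₀)).mul (isHomogeneous_X ℂ j)
  have hTP : T ∉ P' := by
    intro h1
    rcases Ideal.IsPrime.mem_or_mem inferInstance h1 with h2 | h2
    · rcases Ideal.IsPrime.mem_or_mem inferInstance h2 with h3 | h3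
      · exact hBP ((hmaps _ B hBhom).1 h3)
      · exact hkP h3
    · exact hj h2
  -- points outside of the exceptional set
  have key : ∀ y ∈ locVar P' G', ¬ VanishesAt T y → y.rep j ≠ 0 ∧ ¬ VanishesAt R (p y) ∧ ∀ i, ¬ VanishesAt (α i (Fin.last (m i))) (p y) := by
    intro y hy hTy
    unfold VanishesAt at hTy
    rw [hT, map_mul, map_mul, mul_eq_zero, mul_eq_zero, not_or, not_or, eval_X] at hTy
    obtain ⟨⟨h1, h2⟩, h3⟩ := hTy
    have h4 : vals γ y.rep ≠ 0 := fun h0 => h2 (congrFun h0 k₀)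
    have h5 : ¬ VanishesAt B (p y) := by
      rw [hγ.vanishes_iff hy h4 hBhom]
      exact h1
    unfold VanishesAt at h5
    rw [hB, map_mul, mul_eq_zero, not_or, map_prod, Finset.prod_eq_zero_iff] at h5
    push Not at h5
    exact ⟨h3, h5.1, fun i => h5.2 i (Finset.mem_univ i)⟩
  -- the exceptional set
  refine ⟨{x | x ∈ locVar P' G' ∧ VanishesAt T x}, ?_⟩
  have hclosed : ZariskiClosedIn (locVar P' G') {x | x ∈ locVar P' G' ∧ VanishesAt T x} := by
    refine ⟨{T}, fun R hR => ?_, ?_⟩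
    · rw [Set.mem_singleton_iff.1 hR]
      exact ⟨_, hThom⟩
    · ext x
      constructor
      · rintro ⟨h1, h2⟩
        refine ⟨h1, fun R hR => ?_⟩
        rw [Set.mem_singleton_iff.1 hR]
        exact h2
      · rintro ⟨h1, h2⟩
        exact ⟨h1, h2 T rfl⟩
  have hgt : IsLogGeneralType (K := FunField P') (k := 2) (OnBd P' G') :=
    logGT_up hp hP' hG hG' hne ⟨z, hz1⟩ ⟨z', hz1'⟩ (h.logGeneralType 2 (by norm_num) ⟨z, hz1⟩)
  have hbrody : ∀ f : ℂ → PN M, HolomorphicInto f Set.univ → (∀ z, f z ∈ locVar P' G') → (∃ z w, f z ≠ f w) →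
      ∀ z, f z ∈ {x | x ∈ locVar P' G' ∧ VanishesAt T x} := by
    intro f hf hfU hfn z₀
    refine ⟨hfU z₀, ?_⟩
    by_contra hTz
    obtain ⟨h1, h2, h3⟩ := key _ (hfU z₀) hTz
    have hg : HolomorphicInto (fun z => p (f z)) Set.univ := holo_comp hp isOpen_univ hf fun z _ => hfU z
    have hconst : ∀ z w, p (f z) = p (f w) := by
      by_contra hcon
      push Not at hcon
      exact h2 (hRv _ (h.brody _ hg (fun z => hp.maps _ (hfU z)) hcon z₀))
    obtain ⟨φ, hφ, he⟩ := hf z₀ (Set.mem_univ z₀)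
    have hφj : φ z₀ j ≠ 0 := by
      obtain ⟨h7, h8⟩ := he.self_of_nhds
      obtain ⟨a, ha⟩ := Projectivization.exists_smul_eq_mk_rep ℂ (φ z₀) h7
      have h9 : (f z₀).rep = (a : ℂ) • φ z₀ := by rw [h8]; exact ha.symm
      rw [h9] at h1
      exact right_ne_zero_of_mul h1
    have hnear : ∀ᶠ z in 𝓝 z₀, f z = (fun _ => f z₀) z := by
      refine const_near hrel hφ he (Eventually.of_forall hfU) hφj (p (f z₀)).rep_nonzero h3 (Eventually.of_forall fun z => ?_)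
      rw [(p (f z₀)).mk_rep]
      exact hconst z z₀
    have hc : HolomorphicInto (fun _ : ℂ => f z₀) Set.univ := by
      intro z _
      exact ⟨fun _ => (f z₀).rep, analyticAt_const, Eventually.of_forall fun _ => ⟨(f z₀).rep_nonzero, (f z₀).mk_rep.symm⟩⟩
    have h4 := pn_identity isPreconnected_univ hf hc (Set.mem_univ z₀) hnear
    obtain ⟨z, w, hzw⟩ := hfn
    exact hzw ((h4 z (Set.mem_univ z)).trans (h4 w (Set.mem_univ w)).symm)
  refine ⟨hclosed, ?_, ?_, ?_, hbrody, ?_⟩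
  · intro heq
    apply hTP
    refine mem_of_open hP' hG' hne hThom fun x hx => ?_
    rw [← heq] at hx
    exact hx.2
  · intro w _ hw
    obtain rfl := Pool.Agent.H17EF.two_of_basis ⟨z', hz1'⟩ hw
    exact hgt
  · rintro f hf hfU ⟨z₀, hz₀, hfz₀⟩
    have hTz : ¬ VanishesAt T (f z₀) := fun h1 => hfz₀ ⟨hfU z₀ hz₀, h1⟩
    obtain ⟨h1, h2, h3⟩ := key _ (hfU z₀ hz₀) hTz
    have hg : HolomorphicInto (fun z => p (f z)) puncturedDisc := holo_comp hp punctured_open hf hfU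
    obtain ⟨ĝ, hĝ, hgg⟩ := h.picard _ hg (fun z hz => hp.maps _ (hfU z hz)) ⟨z₀, hz₀, fun h4 => h2 (hRv _ h4)⟩
    obtain ⟨ψ, hψ, hψg⟩ := hĝ 0 (Metric.mem_ball_self one_pos)
    refine extend_of_alg hrel hf hfU hψ ?_ fun i hi => ?_
    · filter_upwards [hψg, Metric.ball_mem_nhds (0 : ℂ) one_pos] with z h4 h5 h6
      obtain ⟨h7, h8⟩ := h4
      exact ⟨h7, by rw [← h8, hgg z ⟨h5, h6⟩]⟩
    · apply h3 i
      have h4 := Pool.Agent.H36.BP.vanish_identity (convex_ball (0 : ℂ) 1).isPreconnected hĝ (S := {α i (Fin.last (m i))}) (by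
        intro Q hQ
        rw [Set.mem_singleton_iff] at hQ
        subst hQ
        exact ⟨_, hα i _⟩) (Metric.mem_ball_self one_pos) (by
        filter_upwards [hi, hψg] with z h5 h6 Q hQ
        rw [Set.mem_singleton_iff] at hQ
        subst hQ
        obtain ⟨h7, h8⟩ := h6
        rw [h8, vanishesAt_mk_iff (hα i _)]
        exact h5) z₀ hz₀.1 _ rfl
      rw [hgg z₀ hz₀] at h4
      exact h4
  · intro Q _ hQ hPQ hsub w hw hzw
    exact Pool.Agent.H13.CV.strongly_of_brodyL P' hP' ⟨z', hz1'⟩ hG' hclosed hgt hbrody Q hQ hPQ hsub w hw hzw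

end Pool.Agent.H7.Qup

end
end

section

/-!
# SDA E5: surfaces which dominate or virtually dominate `U`

`hyperbolicOpen_of`: if the quasi-projective surface `U = locVar P G` has the properties of the Green–Griffiths–Lang conjecture, then so has every
quasi-projective surface with a dominant regular map to `U`, and every quasi-projective surface of log general type with a finite étale covering which
has a dominant regular map to `U`.
-/

set_option autoImplicit false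

open Topology Filter Metric MvPolynomial

noncomputable section

namespace Pool.Agent.SDA

open Pool.Agent.H17 (PN VanishesAt)
open Pool.Agent.H62.FC (Homog)
open Pool.Agent.H62.SA (locVar OnBd)
open Pool.Agent.H62.Qe (IsEtaleOver etaleOver_open)
open Pool.Agent.H7.Bir (GGLOpen)
open Pool.Agent.H7.Qup (IsDominantMap open_dominant)
open Pool.Agent.H17LG.Variety (FunField IsLogGeneralType)
open Pool.Agent.H14.KB (KobayashiHyperbolicModulo)

variable {N : ℕ} {P : Ideal (MvPolynomial (Fin (N + 1)) ℂ)}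

/-- **Surfaces which dominate or virtually dominate `U`.** -/
theorem hyperbolicOpen_of [P.IsPrime] (hP : Homog P) (hdim : ∃ z : Fin 2 → FunField P, IsTranscendenceBasis ℂ z) {s : ℕ}
    {G : Fin s → MvPolynomial (Fin (N + 1)) ℂ} (hG : ∀ i, ∃ n, (G i).IsHomogeneous n) (h : ∃ Ξ : Set (PN N), GGLOpen P G Ξ)
    (hkob : ∃ (Q : MvPolynomial (Fin (N + 1)) ℂ) (D : ℕ), Q.IsHomogeneous D ∧ (∃ x ∈ locVar P G, ¬ VanishesAt Q x) ∧
      KobayashiHyperbolicModulo (locVar P G) Q D) : IsHyperbolicOpen P G where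
  four := by
    have _ := hP
    exact h
  dominating M t R _ F p hR hF hw hp := by
    obtain ⟨Ξ, h⟩ := h
    exact open_dominant hR hdim hw hG hF hp h
  virtual M L t t' R' _ R _ F F' q p hR' hR hF hF' hw' hw hp hq hgt := by
    obtain ⟨Ξ, h⟩ := h
    obtain ⟨Ξ', h'⟩ := open_dominant hR' hdim hw' hG hF' hp h
    exact etaleOver_open hR hR' hw hw' hF hq hgt h'
  kobayashi := hkob

end Pool.Agent.SDA

end
end

section

/-!
# MQ3 AlgR3: the form `Ra` which vanishes on all algebraic separatrices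
-/

set_option autoImplicit false

open Topology Filter Metric MvPolynomial MeasureTheory Asymptotics

noncomputable section

namespace Pool.Agent.MQ3

open Pool.Agent.H36.BP (EN fs)
open Pool.Agent.H17EF (projVar coneE)
open Pool.Agent.H17LG.Variety (FunField)

variable {M : ℕ} {P : Ideal (MvPolynomial (Fin (M + 1)) ℂ)} {RD : MvPolynomial (Fin (M + 1)) ℂ} {m : ℕ} {X : NCModel P RD} {θ : WDiff (coneE P) m}
  {l : LF M}

/-- isolated points of a compact set are finitely many -/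
theorem finite_of_iso {K : Set (ℂ × ℂ)} (hK : IsCompact K) {Z : Set (ℂ × ℂ)} (h : ∀ q ∈ K, ∀ᶠ x in 𝓝 q, x ≠ q → x ∉ Z) : (K ∩ Z).Finite := by
  by_contra hinf
  obtain ⟨q, hq, hacc⟩ := Set.Infinite.exists_accPt_of_subset_isCompact (s := K ∩ Z) hinf hK Set.inter_subset_left
  rw [accPt_iff_frequently] at hacc
  exact hacc ((h q hq).mono fun x hx h1 => hx h1.1 h1.2.2)

theorem continuous_mono' (w w' : ℕ × ℕ) : Continuous (mono w w') := by
  unfold mono
  fun_prop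

theorem Web.cp_sub_D (S : Web X θ l) (k : S.ι) : S.cp k ⊆ (S.c k).D := by
  rintro q ⟨-, -, h⟩
  have h1 := X.sub _ (X.C_sub _ h)
  exact ⟨h1.1, h1.2⟩

theorem Web.isCompact_cp (S : Web X θ l) (k : S.ι) : IsCompact (S.cp k) := by
  have h1 : IsClosed (S.cp k) := by
    have e1 : IsClosed {q : ℂ × ℂ | ‖q.1‖ ≤ 1} := isClosed_le (continuous_fst.norm) continuous_const
    have e2 : IsClosed {q : ℂ × ℂ | ‖q.2‖ ≤ 1} := isClosed_le (continuous_snd.norm) continuous_const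
    have e3 : IsClosed {q : ℂ × ℂ | S.κ k q ∈ X.C k.1} := (X.compact k.1).isClosed.preimage (continuous_mono' _ _)
    exact e1.inter (e2.inter e3)
  refine (isCompact_closedBall (0 : ℂ × ℂ) 1).of_isClosed_subset h1 ?_
  rintro q ⟨h2, h3, -⟩
  rw [mem_closedBall_zero_iff, Prod.norm_def]
  exact max_le h2 h3

end Pool.Agent.MQ3

end
end

section

/-!
# MQ3 GInvNG: the forms `RD` and `Ra` in a chart

The zeros of `RD` are the axes; off the axes the map of the chart is a local isomorphism, so `RD Ra` is not identically zero near any point.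
-/

set_option autoImplicit false

open Topology Filter Metric MvPolynomial

noncomputable section

namespace Pool.Agent.MQ3

open Pool.Agent.H36.BP (EN)
open Pool.Agent.H17EF (coneE)

variable {M : ℕ} {P : Ideal (MvPolynomial (Fin (M + 1)) ℂ)} {RD : MvPolynomial (Fin (M + 1)) ℂ} {m : ℕ} {X : NCModel P RD} {θ : WDiff (coneE P) m}
  {l : LF M} {S : Web X θ l} {Ra : MvPolynomial (Fin (M + 1)) ℂ}

/-- off the axes the monomial map is open -/
theorem mono_map_nhds {w w' : ℕ × ℕ} (h : 0 < dt w w') {x : ℂ × ℂ} (hx : x.1 * x.2 ≠ 0) : map (mono w w') (𝓝 x) = 𝓝 (mono w w' x) := by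
  have h1 : HasStrictFDerivAt (mono w w') (fderiv ℂ (mono w w') x) x := (analyticAt_mono x).hasStrictFDerivAt
  have hJ : jc (mono w w') x ≠ 0 := by
    have e1 : mono w w' = mchart w.1 w'.1 w.2 w'.2 := rfl
    have e2 : w'.1 * w.2 < w.1 * w'.2 := by
      unfold dt at h
      have h3 : (w.2 : ℤ) * w'.1 < w.1 * w'.2 := by linarith
      have h4 : w.2 * w'.1 < w.1 * w'.2 := by exact_mod_cast h3
      rwa [mul_comm w.2] at h4
    unfold jc
    rw [e1, jac_mchart e2]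
    refine mul_ne_zero (mul_ne_zero ?_ (pow_ne_zero _ (left_ne_zero_of_mul hx))) (pow_ne_zero _ (right_ne_zero_of_mul hx))
    exact Nat.cast_ne_zero.2 (Nat.sub_ne_zero_of_lt e2)
  refine h1.map_nhds_eq_of_surj ?_
  rw [LinearMap.range_eq_top]
  intro y
  refine ⟨((y.1 * (fderiv ℂ (mono w w') x (0, 1)).2 - y.2 * (fderiv ℂ (mono w w') x (0, 1)).1) / jc (mono w w') x,
    (y.2 * (fderiv ℂ (mono w w') x (1, 0)).1 - y.1 * (fderiv ℂ (mono w w') x (1, 0)).2) / jc (mono w w') x), ?_⟩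
  show fderiv ℂ (mono w w') x _ = y
  rw [split_vec]
  ext
  · simp only [Prod.fst_add, Prod.smul_fst, smul_eq_mul]
    rw [div_mul_eq_mul_div, div_mul_eq_mul_div, ← add_div, div_eq_iff hJ]
    unfold jc
    ring
  · simp only [Prod.snd_add, Prod.smul_snd, smul_eq_mul]
    rw [div_mul_eq_mul_div, div_mul_eq_mul_div, ← add_div, div_eq_iff hJ]
    unfold jc
    ring

/-- a chart point -/
theorem gn_v_an {k : S.ι} {q : ℂ × ℂ} (hq : q ∈ S.D k) : AnalyticAt ℂ (S.v k) q := (S.c k).v_an q hq.1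

theorem gn_v_iso {k : S.ι} {q : ℂ × ℂ} (hq : q ∈ S.D k) : ∀ᶠ x in 𝓝 q, x ≠ q → S.v k x ≠ 0 := (S.c k).v_iso q hq.1

theorem gn_κ_an (k : S.ι) (q : ℂ × ℂ) : AnalyticAt ℂ (S.κ k) q := analyticAt_mono q

theorem gn_D_open (k : S.ι) : IsOpen (S.D k) :=
  isOpen_Dm.inter ((X.isOpen k.1).preimage (continuous_iff_continuousAt.2 fun q => (gn_κ_an k q).continuousAt))

theorem gn_σ_an {k : S.ι} {q : ℂ × ℂ} (hq : q ∈ S.D k) (Q : MvPolynomial (Fin (M + 1)) ℂ) : AnalyticAt ℂ (fun x => eval (S.σ k x).ofLp Q) q := by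
  have h1 : S.κ k q ∈ DD := X.sub k.1 hq.2
  have h2 : AnalyticAt ℂ (X.ρ k.1) (S.κ k q) := (X.box k.1).an _ h1.1.le h1.2.le
  exact analyticAt_evalE (AnalyticAt.comp (g := X.ρ k.1) (f := S.κ k) h2 (gn_κ_an k q)) Q

theorem gn_freq (hRa : RNe X Ra) {k : S.ι} {q : ℂ × ℂ} (hq : q ∈ S.D k) : ∃ᶠ x in 𝓝 q, eval (S.σ k x).ofLp Ra ≠ 0 ∧ eval (S.σ k x).ofLp (RD * Ra) ≠ 0 := by
  intro hcon
  have hm : ∀ᶠ x in 𝓝 q, x ∈ S.D k := (gn_D_open k).mem_nhds hq
  obtain ⟨x, hx0, hxD, hx⟩ := ((freq_off q).and_eventually (hm.and (eventually_eventually_nhds.2 hcon))).exists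
  have hx1 : S.κ k x ∈ DD := X.sub k.1 hxD.2
  apply hRa k.1 (S.κ k x) hx1
  have h1 : ∀ᶠ y in 𝓝 x, ¬ eval (X.ρ k.1 (S.κ k y)).ofLp Ra ≠ 0 := by
    have h2 : ∀ᶠ y : ℂ × ℂ in 𝓝 x, y.1 * y.2 ≠ 0 := (continuous_fst.mul continuous_snd).continuousAt.eventually_ne hx0
    filter_upwards [h2, hx, (gn_D_open k).mem_nhds hxD] with y y1 y2 y3 y4
    apply y2
    refine ⟨y4, ?_⟩
    rw [map_mul]
    exact mul_ne_zero (X.good k.1 _ (mono_mem_DS y3.1 y1)) y4
  have h3 := mono_map_nhds (S.c k).pos hx0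
  have h4 : ∀ᶠ p in map (mono (S.c k).w (S.c k).w') (𝓝 x), ¬ eval (X.ρ k.1 p).ofLp Ra ≠ 0 := eventually_map.2 h1
  rw [h3] at h4
  exact h4

end Pool.Agent.MQ3

end
end

section

/-!
# MQL AlgT: the form `Ra` for the formal separatrices at finitely many chart points

As `MQ3.exists_Ra`, for a finite set `T k` of points of every chart `k` (singular points or not), with a family of formal separatrices for every pair `(k, q)`;
a given form `R₀` divides `Ra`.
-/

set_option autoImplicit false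

open Topology Filter Metric MvPolynomial MeasureTheory Asymptotics

noncomputable section

namespace Pool.Agent.MQL

open Pool.Agent.H36.BP (EN fs)
open Pool.Agent.H17EF (projVar coneE)
open Pool.Agent.MQ2 (Iso Sep FZero)
open Pool.Agent.MQ3

variable {M : ℕ} {P : Ideal (MvPolynomial (Fin (M + 1)) ℂ)} {RD : MvPolynomial (Fin (M + 1)) ℂ} {m : ℕ} {X : NCModel P RD} {θ : WDiff (coneE P) m}
  {l : LF M}

/-- a product with a function which is continuous at the origin -/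
theorem fzero_mul {c : ℕ → ℂ → ℂ × ℂ} {g h : ℂ × ℂ → ℂ} (hg : FZero c g) (hc : ∀ N, ContinuousAt (c N) 0 ∧ c N 0 = 0) (hh : ContinuousAt h 0) :
    FZero c fun x => g x * h x := by
  intro N
  have h1 : ContinuousAt (fun t => h (c N t)) 0 := by
    have h2 : ContinuousAt h (c N 0) := by rw [(hc N).2]; exact hh
    exact h2.comp (hc N).1
  have h2 : (fun t => h (c N t)) =O[𝓝 0] fun _ : ℂ => (1 : ℂ) := h1.isBigO_one ℂ
  have h3 := (hg N).mul h2
  simpa using h3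

theorem exists_RaT [P.IsPrime] (S : Web X θ l) {R₀ : MvPolynomial (Fin (M + 1)) ℂ} {d₀ : ℕ} (hR₀ : R₀.IsHomogeneous d₀) (hR₀P : R₀ ∉ P)
    (T : S.ι → Set (ℂ × ℂ)) (hT : ∀ k, (T k).Finite) (hTD : ∀ k, T k ⊆ S.D k) (n : S.ι → ℂ × ℂ → ℕ)
    (fam : ∀ (k : S.ι) (q : ℂ × ℂ), Fin (n k q) → ℕ → ℂ → ℂ × ℂ) (hfam : ∀ k, ∀ q ∈ T k, ∀ i, Sep (fun x => S.v k (q + x)) (fam k q i)) :
    ∃ (Ra : MvPolynomial (Fin (M + 1)) ℂ) (d : ℕ), Ra.IsHomogeneous d ∧ Ra ∉ P ∧ R₀ ∣ Ra ∧ ∀ k : S.ι, ∀ q ∈ T k, ∀ i,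
      FZero (fam k q i) (fun x => eval (S.σ k (q + x)).ofLp Ra) ∨
        ∀ (R' : MvPolynomial (Fin (M + 1)) ℂ) (d' : ℕ), R'.IsHomogeneous d' → R' ∉ P →
          ¬ FZero (fam k q i) fun x => eval (S.σ k (q + x)).ofLp R' := by
  classical
  have hfin : ∀ k : S.ι, Finite {q : ℂ × ℂ // q ∈ T k} := fun k => (hT k).to_subtype
  have hF := fun k => Fintype.ofFinite {q : ℂ × ℂ // q ∈ T k}
  obtain ⟨R, d, hR, hRP, h⟩ := Pool.Agent.MQ2.exists_alg2 (P := P)
    (ι := Σ k : S.ι, Σ q : {q : ℂ × ℂ // q ∈ T k}, Fin (n k q.1))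
    (fun i x => S.σ i.1 (i.2.1.1 + x)) fun i => fam i.1 i.2.1.1 i.2.2
  have hP : P.IsPrime := inferInstance
  refine ⟨R₀ * R, d₀ + d, hR₀.mul hR, fun h1 => (hP.mem_or_mem h1).elim hR₀P hRP, Dvd.intro R rfl, fun k q hq i => ?_⟩
  rcases h ⟨k, ⟨q, hq⟩, i⟩ with h1 | ⟨R', d', -, -, ⟨Q, hQ⟩, h2⟩
  · exact Or.inr h1
  · left
    have hs := hfam k q hq i
    have hc : ∀ N, ContinuousAt (fam k q i N) 0 ∧ fam k q i N 0 = 0 := fun N => ⟨(hs.an N).continuousAt, hs.zero N⟩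
    have hσ : ContinuousAt (S.σ k) (q + 0) := by
      rw [add_zero]
      have h3 : S.κ k q ∈ DD := X.sub _ (hTD k hq).2
      have h4 : ContinuousAt (X.ρ k.1) (S.κ k q) := ((X.box k.1).an _ h3.1.le h3.2.le).continuousAt
      exact ContinuousAt.comp (f := S.κ k) (g := X.ρ k.1) h4 (continuous_mono' _ _).continuousAt
    have h3 : ContinuousAt (fun x => eval (S.σ k (q + x)).ofLp (R₀ * Q)) 0 := by
      have h4 : ContinuousAt (fun x : ℂ × ℂ => S.σ k (q + x)) 0 :=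
        ContinuousAt.comp (f := fun x : ℂ × ℂ => q + x) (g := S.σ k) hσ (by fun_prop)
      exact ((MvPolynomial.continuous_eval (R₀ * Q)).comp (PiLp.continuous_ofLp 2 _)).continuousAt.comp h4
    have h4 := fzero_mul h2 hc h3
    refine fun N => ((h4 N).congr_left fun t => ?_)
    simp only [hQ, map_mul]
    ring

end Pool.Agent.MQL

end
end

section

/-!
# MQL AlgRL: the form `Ra` for the families of formal curves at the chart points outside `Reg0`

The points of the compact part of a chart outside `Reg0` are isolated: the zeros of the vector field, the crossing, and the tangencies with a noninvariant axis.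
-/

set_option autoImplicit false

open Topology Filter Metric MvPolynomial MeasureTheory

noncomputable section

namespace Pool.Agent.MQL

open Pool.Agent.H36.BP (EN)
open Pool.Agent.H17BP (Surface)
open Pool.Agent.H17EF (coneE)
open Pool.Agent.H17LG.Variety (FunField)
open Pool.Agent.MQ2 (Sep FZero)
open Pool.Agent.MQ3

variable {M : ℕ} {P : Ideal (MvPolynomial (Fin (M + 1)) ℂ)} {RD : MvPolynomial (Fin (M + 1)) ℂ} {m : ℕ} {X : NCModel P RD} {θ : WDiff (coneE P) m}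
  {l : LF M}

/-- the zeros of a function on a line `{s = 0}` are isolated, or the function is zero near them -/
theorem line_iso {E : Type} [TopologicalSpace E] {a b : E → ℂ} {f : E → ℂ} {q : E} {h : ℂ → ℂ} (ha : ContinuousAt a q) (hb : ContinuousAt b q)
    (hinj : ∀ x, a x = 0 → a q = 0 → b x = b q → x = q) (hf : ∀ x, a x = 0 → f x = h (b x)) (hh : AnalyticAt ℂ h (b q)) :
    ∀ᶠ x in 𝓝 q, x ≠ q → a x = 0 → f x ≠ 0 ∨ ∀ᶠ y in 𝓝 x, a y = 0 → f y = 0 := by
  by_cases hq : a q = 0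
  · rcases hh.eventually_eq_zero_or_eventually_ne_zero with h1 | h1
    · have h2 : ∀ᶠ x in 𝓝 q, a x = 0 → f x = 0 := by
        filter_upwards [hb.eventually h1] with x hx hax
        rw [hf x hax]
        exact hx
      filter_upwards [eventually_eventually_nhds.2 h2] with x hx _ _
      exact Or.inr hx
    · rw [eventually_nhdsWithin_iff] at h1
      filter_upwards [hb.eventually h1] with x hx hxq hax
      left
      rw [hf x hax]
      exact hx fun h3 => hxq (hinj x hax hq h3)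
  · filter_upwards [ha.eventually_ne hq] with x hx _ hax
    exact absurd hax hx

theorem reg0_iso (S : Web X θ l) (k : S.ι) {q : ℂ × ℂ} (hq : q ∈ S.D k) : ∀ᶠ x in 𝓝 q, x ≠ q → Reg0 S k x := by
  have hv : AnalyticAt ℂ (S.v k) q := (S.c k).v_an q hq.1
  have hv1 := (S.c k).v_iso q hq.1
  have h0 : ∀ᶠ x in 𝓝 q, x ≠ q → x ≠ 0 := by
    by_cases h : q = 0
    · exact Eventually.of_forall fun x hx => h ▸ hx
    · filter_upwards [continuousAt_id.eventually_ne h] with x hx _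
      exact hx
  have e1 : ∀ᶠ x in 𝓝 q, x ≠ q → x.1 = 0 → (S.v k x).1 ≠ 0 ∨ ∀ᶠ y in 𝓝 x, y.1 = 0 → (S.v k y).1 = 0 := by
    by_cases h : q.1 = 0
    · refine line_iso (a := fun x : ℂ × ℂ => x.1) (b := fun x => x.2) (f := fun x => (S.v k x).1) (h := fun t => (S.v k (0, t)).1)
        continuousAt_fst continuousAt_snd ?_ ?_ ?_
      · intro x h1 h2 h3
        exact Prod.ext (h1.trans h2.symm) h3
      · intro x h1
        have : x = (0, x.2) := Prod.ext h1 rfl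
        rw [← this]
      · have h1 : AnalyticAt ℂ (fun t : ℂ => ((0 : ℂ), t)) q.2 := analyticAt_const.prod analyticAt_id
        have h2 : AnalyticAt ℂ (S.v k) ((0 : ℂ), q.2) := by
          have : ((0 : ℂ), q.2) = q := Prod.ext h.symm rfl
          rw [this]
          exact hv
        have h3 : AnalyticAt ℂ (fun t : ℂ => S.v k ((0 : ℂ), t)) q.2 := h2.comp (f := fun t : ℂ => ((0 : ℂ), t)) h1
        exact analyticAt_fst.comp h3
    · filter_upwards [continuousAt_fst.eventually_ne h] with x hx _ hax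
      exact absurd hax hx
  have e2 : ∀ᶠ x in 𝓝 q, x ≠ q → x.2 = 0 → (S.v k x).2 ≠ 0 ∨ ∀ᶠ y in 𝓝 x, y.2 = 0 → (S.v k y).2 = 0 := by
    by_cases h : q.2 = 0
    · refine line_iso (a := fun x : ℂ × ℂ => x.2) (b := fun x => x.1) (f := fun x => (S.v k x).2) (h := fun t => (S.v k (t, 0)).2)
        continuousAt_snd continuousAt_fst ?_ ?_ ?_
      · intro x h1 h2 h3
        exact Prod.ext h3 (h1.trans h2.symm)
      · intro x h1
        have : x = (x.1, 0) := Prod.ext rfl h1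
        rw [← this]
      · have h1 : AnalyticAt ℂ (fun t : ℂ => (t, (0 : ℂ))) q.1 := analyticAt_id.prod analyticAt_const
        have h2 : AnalyticAt ℂ (S.v k) (q.1, (0 : ℂ)) := by
          have : (q.1, (0 : ℂ)) = q := Prod.ext rfl h.symm
          rw [this]
          exact hv
        have h3 : AnalyticAt ℂ (fun t : ℂ => S.v k (t, (0 : ℂ))) q.1 := h2.comp (f := fun t : ℂ => (t, (0 : ℂ))) h1
        exact analyticAt_snd.comp h3
    · filter_upwards [continuousAt_snd.eventually_ne h] with x hx _ hax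
      exact absurd hax hx
  filter_upwards [hv1, h0, e1, e2] with x x1 x2 x3 x4 hx
  exact ⟨x1 hx, x2 hx, x3 hx, x4 hx⟩

theorem reg0_finite (hX : Surface (coneE P)) (S : Web X θ l) (k : S.ι) : {q | q ∈ S.cp k ∧ ¬ Reg0 S k q}.Finite := by
  have _ := hX
  refine finite_of_iso (S.isCompact_cp k) (Z := {q | ¬ Reg0 S k q}) fun q hq => ?_
  filter_upwards [reg0_iso S k ⟨S.cp_sub_D k hq, X.C_sub _ hq.2.2⟩] with x hx h1 h2
  exact h2 (hx h1)

theorem exists_RaL [P.IsPrime] {z : Fin 2 → FunField P} (hz : IsTranscendenceBasis ℂ z) (hX : Surface (coneE P)) (S : Web X θ l) (n : S.ι → ℂ × ℂ → ℕ)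
    (fam : ∀ (k : S.ι) (q : ℂ × ℂ), Fin (n k q) → ℕ → ℂ → ℂ × ℂ) (hfam : ∀ k, ∀ q ∈ S.cp k, ∀ i, Sep (fun x => S.v k (q + x)) (fam k q i))
    (h0 : ∀ k, ∀ q ∈ S.cp k, Reg0 S k q → n k q = 0) :
    ∃ (Ra : MvPolynomial (Fin (M + 1)) ℂ) (d : ℕ), Ra.IsHomogeneous d ∧ Ra ∉ P ∧ ∀ k : S.ι, ∀ q ∈ S.cp k, ∀ i,
      FZero (fam k q i) (fun x => eval (S.σ k (q + x)).ofLp Ra) ∨
        ∀ (R' : MvPolynomial (Fin (M + 1)) ℂ) (d' : ℕ), R'.IsHomogeneous d' → R' ∉ P →
          ¬ FZero (fam k q i) fun x => eval (S.σ k (q + x)).ofLp R' := by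
  have _ := hz
  have h1P : (1 : MvPolynomial (Fin (M + 1)) ℂ) ∉ P := fun h1 => (Ideal.IsPrime.ne_top ‹_›) ((Ideal.eq_top_iff_one _).2 h1)
  obtain ⟨Ra, d, hd, hRa, -, h⟩ := exists_RaT S (isHomogeneous_one _ _) h1P (fun k => {q | q ∈ S.cp k ∧ ¬ Reg0 S k q}) (fun k => reg0_finite hX S k)
    (fun k q hq => ⟨S.cp_sub_D k hq.1, X.C_sub _ hq.1.2.2⟩) n fam fun k q hq i => hfam k q hq.1 i
  refine ⟨Ra, d, hd, hRa, fun k q hq i => ?_⟩
  by_cases hr : Reg0 S k q
  · have h2 := h0 k q hq hr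
    exact absurd i.2 (by omega)
  · exact h k q ⟨hq, hr⟩ i

end Pool.Agent.MQL

end
end

section

/-!
# MQL RegC: the package without formal curves, at the points of `Reg0` (from `goodD_reg0`)
-/

set_option autoImplicit false

open Topology Filter Metric

noncomputable section

namespace Pool.Agent.MQL

theorem goodC_reg0 {al be : ℝ} (hal : -1 < al) (hbe : -1 < be) (hn : 0 ≤ al ∨ 0 ≤ be) {v : ℂ × ℂ → ℂ × ℂ} (hv : AnalyticAt ℂ v 0) (h0 : v 0 ≠ 0)
    (h1 : al < 0 → (v 0).1 ≠ 0 ∨ ∀ᶠ t in 𝓝 (0 : ℂ), (v (0, t)).1 = 0) (h2 : be < 0 → (v 0).2 ≠ 0 ∨ ∀ᶠ t in 𝓝 (0 : ℂ), (v (t, 0)).2 = 0)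
    (c : Fin 0 → ℕ → ℂ → ℂ × ℂ) : GoodC c al be v := by
  intro g hg hA
  have h := goodD_reg0 hal hbe hv h0 h1 h2 (fun ha hb => absurd hn (by rw [not_or, not_le, not_le]; exact ⟨ha, hb⟩)) g trivial hg hA
  filter_upwards [h] with r hr
  intro s s' hs hss hsr B hB
  obtain ⟨A, C₀, hA, hC, hmain⟩ := hr s s' hs hss hsr B hB
  exact ⟨A, C₀, hA, hC, fun d n q ψ hd hn hq hψ _ => hmain d n q ψ hd hn hq hψ⟩

end Pool.Agent.MQL

end
end

section

/-!
# MQ2 LeafS: the leaves of a vector field in the zero set of a function, near a regular point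

`rect` and `LeafS.leaf_set_of`.
-/

set_option autoImplicit false

open Topology Filter Metric

noncomputable section

namespace Pool.Agent.MQ2

open Pool.Agent.MQ

theorem leaf_set {v : ℂ × ℂ → ℂ × ℂ} {q : ℂ × ℂ → ℂ} {p₀ : ℂ × ℂ} (hv : AnalyticAt ℂ v p₀) (hv0 : v p₀ ≠ 0) (hq : AnalyticAt ℂ q p₀)
    (hq0 : ∃ᶠ p in 𝓝 p₀, q p ≠ 0) : (∀ᶠ p in 𝓝 p₀, ¬ LeafIn v q p) ∨ ∃ l : ℂ × ℂ → ℂ, AnalyticAt ℂ l p₀ ∧ l p₀ = 0 ∧ fderiv ℂ l p₀ ≠ 0 ∧
      ∀ᶠ p in 𝓝 p₀, (LeafIn v q p ↔ l p = 0) ∧ (l p = 0 → q p = 0 ∧ fderiv ℂ l p (v p) = 0) := by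
  have hv' : AnalyticAt ℂ (fun p => v (p₀ + p)) 0 := by
    refine AnalyticAt.fun_comp (g := v) (f := fun p => p₀ + p) ?_ (by fun_prop)
    simpa using hv
  obtain ⟨Φ, hΦ, h0, hli, hrel⟩ := rect hv' (by simpa using hv0)
  have hd : ∀ p, fderiv ℂ (fun p => p₀ + Φ p) p = fderiv ℂ Φ p := fun p => fderiv_const_add p₀
  refine LeafS.leaf_set_of hv hv0 hq hq0 (Ψ := fun p => p₀ + Φ p) (analyticAt_const.add hΦ) (by rw [h0, add_zero]) ?_ ?_
  · simp only [hd]
    exact hli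
  · filter_upwards [hrel] with p hp
    simp only [hd]
    exact hp

end Pool.Agent.MQ2

end
end

section

/-!
# MQ2 GInv: the reduced equation of the leaves in the zero set of a function, near a singular point

PROOF.  `Z` = the points with a piece of a leaf in `{f = 0}`.  Off the center it is empty or a smooth curve (`leaf_set`), so it has a reduced equation `g`
(`exists_equ`), which is invariant (`wt_of_equ`).
-/

set_option autoImplicit false

open Topology Filter Metric MvPolynomial Asymptotics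

noncomputable section

namespace Pool.Agent.MQ2

open Pool.Agent.MQ

/-- a germ which is not zero is not zero near any point -/
theorem frequently_ne_near {q : ℂ × ℂ → ℂ} (hq : AnalyticAt ℂ q 0) (hq0 : ∃ᶠ p in 𝓝 (0 : ℂ × ℂ), q p ≠ 0) :
    ∀ᶠ p in 𝓝 (0 : ℂ × ℂ), ∃ᶠ w in 𝓝 p, q w ≠ 0 := by
  obtain ⟨r, hr, h1⟩ := Metric.eventually_nhds_iff_ball.1 hq.eventually_analyticAt
  filter_upwards [ball_mem_nhds (0 : ℂ × ℂ) hr] with p hp
  intro h2
  have h3 : q =ᶠ[𝓝 p] 0 := by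
    filter_upwards [h2] with w hw
    simpa using hw
  have h4 : AnalyticOnNhd ℂ q (ball 0 r) := fun w hw => h1 w hw
  have h5 := h4.eqOn_zero_of_preconnected_of_eventuallyEq_zero (convex_ball _ _).isPreconnected hp h3
  exact hq0 (by
    filter_upwards [ball_mem_nhds (0 : ℂ × ℂ) hr] with w hw h6
    exact h6 (h5 hw))

/-- the leaves in the zero set of `f` have a reduced invariant equation -/
theorem exists_ginv {v : ℂ × ℂ → ℂ × ℂ} (hv : Iso v) {f : ℂ × ℂ → ℂ} (hf : AnalyticAt ℂ f 0) (hf0 : ∃ᶠ p in 𝓝 (0 : ℂ × ℂ), f p ≠ 0) :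
    ∃ g : ℂ × ℂ → ℂ, Wt v g ∧ ∀ᶠ p in 𝓝 (0 : ℂ × ℂ), p ≠ 0 → (g p = 0 ↔ LeafIn v f p) ∧
      (g p = 0 → fderiv ℂ g p ≠ 0 ∧ f p = 0 ∧ fderiv ℂ g p (v p) = 0) := by
  obtain ⟨hva, hv0, hvne⟩ := hv
  set Z : Set (ℂ × ℂ) := {p | LeafIn v f p} with hZ
  -- the invariant points off the center
  have hls : ∀ᶠ p in 𝓝 (0 : ℂ × ℂ), p ≠ 0 → (∀ᶠ w in 𝓝 p, w ∉ Z) ∨ ∃ l : ℂ × ℂ → ℂ, AnalyticAt ℂ l p ∧ l p = 0 ∧ fderiv ℂ l p ≠ 0 ∧
      ∀ᶠ w in 𝓝 p, (w ∈ Z ↔ l w = 0) ∧ (l w = 0 → f w = 0 ∧ fderiv ℂ l w (v w) = 0) := by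
    filter_upwards [hva.eventually_analyticAt, hvne, hf.eventually_analyticAt, frequently_ne_near hf hf0] with p h1 h2 h3 h4 hp
    exact leaf_set h1 (h2 hp) h3 h4
  obtain ⟨g, hg, hgne, hgZ⟩ := exists_equ (Z := Z) hf hf0 (by
    filter_upwards [hls] with p h1 hp
    rcases h1 hp with h2 | ⟨l, h2, h3, h4, h5⟩
    · exact Or.inl h2
    · exact Or.inr ⟨l, h2, h3, h4, h5.mono fun w hw => ⟨hw.1, fun h => (hw.2 h).1⟩⟩)
  have hred : ∀ᶠ p in 𝓝 (0 : ℂ × ℂ), p ≠ 0 → g p = 0 → fderiv ℂ g p ≠ 0 := by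
    filter_upwards [hgZ] with p h1 hp
    exact (h1 hp).2
  have hinv : ∀ᶠ p in 𝓝 (0 : ℂ × ℂ), p ≠ 0 → g p = 0 → f p = 0 ∧ fderiv ℂ g p (v p) = 0 := by
    filter_upwards [hls, hgZ, eventually_eventually_nhds.2 hgZ, hg.eventually_analyticAt] with p h1 h2 h3 h4 hp h0
    have hpZ : p ∈ Z := (h2 hp).1.1 h0
    rcases h1 hp with h5 | ⟨l, h5, h6, h7, h8⟩
    · exact absurd hpZ h5.self_of_nhds
    · have hne' : ∀ᶠ w in 𝓝 p, w ≠ 0 := isOpen_ne.mem_nhds hp
      obtain ⟨u, hu, hu0, huu⟩ := unit (l := l) (l' := g) h5 h4 (fun _ => h7) (fun _ => (h2 hp).2 h0) (by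
        filter_upwards [h8, h3, hne'] with w h9 h10 h11
        rw [← h9.1, (h10 h11).1])
      have h9 : HasFDerivAt (fun x => u x * l x) (u p • fderiv ℂ l p + l p • fderiv ℂ u p) p :=
        hu.differentiableAt.hasFDerivAt.mul h5.differentiableAt.hasFDerivAt
      have h10 : fderiv ℂ g p = u p • fderiv ℂ l p + l p • fderiv ℂ u p := by
        have h11 : g =ᶠ[𝓝 p] fun x => u x * l x := huu
        rw [h11.fderiv_eq, h9.fderiv]
      have h11 := (h8.self_of_nhds.2 h6).2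
      refine ⟨(h8.self_of_nhds.2 h6).1, ?_⟩
      rw [h10]
      simp [h6, h11]
  refine ⟨g, wt_of_equ ⟨hva, hv0, hvne⟩ hg hgne hred ?_, ?_⟩
  · filter_upwards [hinv] with p h1 hp h0
    exact (h1 hp h0).2
  · filter_upwards [hgZ, hinv] with p h1 h2 hp
    exact ⟨(h1 hp).1, fun h0 => ⟨(h1 hp).2 h0, h2 hp h0⟩⟩

end Pool.Agent.MQ2

end
end

section

/-!
# MQ3 GInvNL: the equation of the leaves in the zero set of a function, near an arbitrary point

`v` has at most an isolated zero at `0`.  `g` = the reduced equation of the leaves in `{f = 0}` (`leaf_set`, `exists_ginv`); near every other point `f` has the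
zeros of `g h`, where `{h = 0}` is transversal to `v` and does not meet `{g = 0}` (`regPt_off`).
-/

set_option autoImplicit false

open Topology Filter

noncomputable section

namespace Pool.Agent.MQ3

open Pool.Agent.H17BP (Bihol bihol_iff)
open Pool.Agent.MQ (LeafIn ld_lin ld_chain ld_clm)
open Pool.Agent.MQ2 (Wt Iso exists_ginv leaf_set div_smooth)

/-- near `x` the function `g` is a reduced equation of the invariant part of `{f = 0}` -/
def LInv (v : ℂ × ℂ → ℂ × ℂ) (f g : ℂ × ℂ → ℂ) (x : ℂ × ℂ) : Prop :=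
  AnalyticAt ℂ g x ∧ (∀ᶠ y in 𝓝 x, g y = 0 → fderiv ℂ g y ≠ 0) ∧
    (∃ c : ℂ × ℂ → ℂ, AnalyticAt ℂ c x ∧ ∀ᶠ y in 𝓝 x, fderiv ℂ g y (v y) = c y * g y) ∧
    ∃ h : ℂ × ℂ → ℂ, AnalyticAt ℂ h x ∧ (∀ᶠ y in 𝓝 x, f y = 0 ↔ g y * h y = 0) ∧
      ∀ᶠ y in 𝓝 x, h y = 0 → g y ≠ 0 ∧ fderiv ℂ h y (v y) ≠ 0

/-- the equation of the leaves in the zero set of `f` -/
theorem exists_gloc {v : ℂ × ℂ → ℂ × ℂ} {f : ℂ × ℂ → ℂ} (hv : AnalyticAt ℂ v 0) (hv0 : ∀ᶠ p in 𝓝 (0 : ℂ × ℂ), p ≠ 0 → v p ≠ 0)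
    (hf : AnalyticAt ℂ f 0) (hf0 : ∃ᶠ p in 𝓝 (0 : ℂ × ℂ), f p ≠ 0) :
    ∃ g : ℂ × ℂ → ℂ, Wt v g ∧ ∀ᶠ p in 𝓝 (0 : ℂ × ℂ), p ≠ 0 → (g p = 0 ↔ LeafIn v f p) ∧
      (g p = 0 → fderiv ℂ g p ≠ 0 ∧ f p = 0 ∧ fderiv ℂ g p (v p) = 0) := by
  by_cases h0 : v 0 = 0
  · exact exists_ginv ⟨hv, h0, hv0⟩ hf hf0
  · rcases leaf_set hv h0 hf hf0 with h1 | ⟨l, h1, h2, h3, h4⟩
    · refine ⟨fun _ => 1, ⟨analyticAt_const, Eventually.frequently (Eventually.of_forall fun _ => one_ne_zero), ⟨fun _ => 0, analyticAt_const, ?_⟩, ?_⟩, ?_⟩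
      · exact Eventually.of_forall fun p => by simp
      · exact Eventually.of_forall fun p _ h => absurd h one_ne_zero
      · filter_upwards [h1] with p hp _
        exact ⟨⟨fun h => absurd h one_ne_zero, fun h => absurd h hp⟩, fun h => absurd h one_ne_zero⟩
    · have h5 : ∀ᶠ p in 𝓝 (0 : ℂ × ℂ), fderiv ℂ l p ≠ 0 := h1.fderiv.continuousAt.eventually_ne h3
      refine ⟨l, ⟨h1, ?_, ?_, ?_⟩, ?_⟩
      · intro hcon
        apply h3
        have e : l =ᶠ[𝓝 0] fun _ => 0 := by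
          filter_upwards [hcon] with p hp using not_not.1 hp
        rw [e.fderiv_eq]
        simp
      · exact div_smooth (l' := fun p => fderiv ℂ l p (v p)) h1 (ld_clm h1.fderiv hv) (fun _ => h3) (by
          filter_upwards [h4] with p hp h using (hp.2 h).2)
      · filter_upwards [h5] with p hp _ _ using hp
      · filter_upwards [h4, h5] with p hp hp5 _
        exact ⟨hp.1.symm, fun h => ⟨hp5, hp.2 h⟩⟩

/-- a linear form with prescribed independence -/
private theorem GInvNL_form {L : ℂ × ℂ →L[ℂ] ℂ} (h : L ≠ 0) : ∃ l : ℂ × ℂ →L[ℂ] ℂ, L (1, 0) * l (0, 1) - L (0, 1) * l (1, 0) ≠ 0 := by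
  by_cases h1 : L (1, 0) = 0
  · refine ⟨ContinuousLinearMap.fst ℂ ℂ ℂ, ?_⟩
    intro h2
    apply h
    have h3 : L (0, 1) = 0 := by
      rw [h1] at h2
      simpa using h2
    ext
    · simpa using h1
    · simpa using h3
  · refine ⟨ContinuousLinearMap.snd ℂ ℂ ℂ, ?_⟩
    simpa using h1

/-- a smooth invariant curve is a leaf -/
theorem leafIn_of_smooth {v : ℂ × ℂ → ℂ × ℂ} {f G : ℂ × ℂ → ℂ} {w : ℂ × ℂ} (hG : AnalyticAt ℂ G w) (h0 : G w = 0) (h1 : fderiv ℂ G w ≠ 0)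
    (hinv : ∀ᶠ y in 𝓝 w, G y = 0 → fderiv ℂ G y (v y) = 0) (hfG : ∀ᶠ y in 𝓝 w, G y = 0 → f y = 0) : LeafIn v f w := by
  obtain ⟨m, hm⟩ := GInvNL_form h1
  obtain ⟨θ, hθ⟩ : ∃ θ : ℂ × ℂ → ℂ × ℂ, θ = fun x => (G (w + x), m x) := ⟨_, rfl⟩
  have hqa : AnalyticAt ℂ (fun x : ℂ × ℂ => w + x) 0 := analyticAt_const.add analyticAt_id
  have hl' : AnalyticAt ℂ (fun x : ℂ × ℂ => G (w + x)) 0 := AnalyticAt.fun_comp (g := G) (f := fun x : ℂ × ℂ => w + x) (by rwa [add_zero]) hqa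
  have hθa : AnalyticAt ℂ θ 0 := by
    rw [hθ]
    exact hl'.prod (m.analyticAt 0)
  have hθ0 : θ 0 = 0 := by
    rw [hθ]
    simp [h0]
  have hd : HasFDerivAt θ ((fderiv ℂ G w).prod m) 0 := by
    have h1 : HasFDerivAt G (fderiv ℂ G w) (w + 0) := by
      rw [add_zero]
      exact hG.differentiableAt.hasFDerivAt
    have h2 : HasFDerivAt (fun x : ℂ × ℂ => w + x) (ContinuousLinearMap.id ℂ (ℂ × ℂ)) 0 := (hasFDerivAt_id (0 : ℂ × ℂ)).const_add w
    have h3 : HasFDerivAt (fun x : ℂ × ℂ => G (w + x)) ((fderiv ℂ G w).comp (ContinuousLinearMap.id ℂ (ℂ × ℂ))) 0 :=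
      HasFDerivAt.comp (0 : ℂ × ℂ) (g := G) (f := fun x : ℂ × ℂ => w + x) h1 h2
    rw [ContinuousLinearMap.comp_id] at h3
    rw [hθ]
    exact h3.prodMk m.hasFDerivAt
  have hB : Bihol θ := by
    rw [bihol_iff hθa hθ0, hd.fderiv]
    simpa using hm
  obtain ⟨θ', a1, -, a3⟩ := hB.exists_inv
  have hline : AnalyticAt ℂ (fun t : ℂ => ((0, t) : ℂ × ℂ)) 0 := analyticAt_const.prod analyticAt_id
  have hlt : Tendsto (fun t : ℂ => ((0, t) : ℂ × ℂ)) (𝓝 0) (𝓝 0) := by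
    have := hline.continuousAt.tendsto
    exact this
  have hγ' : AnalyticAt ℂ (fun t : ℂ => θ' (0, t)) 0 := AnalyticAt.fun_comp (g := θ') (f := fun t : ℂ => ((0, t) : ℂ × ℂ)) a1.an hline
  have hγ : AnalyticAt ℂ (fun t : ℂ => w + θ' (0, t)) 0 := analyticAt_const.add hγ'
  have hγ0 : w + θ' (0, 0) = w := by
    have : θ' (0, 0) = 0 := a1.zero
    rw [this, add_zero]
  have hγt : Tendsto (fun t : ℂ => w + θ' (0, t)) (𝓝 0) (𝓝 w) := by
    have h2 := hγ.continuousAt.tendsto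
    rwa [hγ0] at h2
  have hrel : ∀ᶠ t in 𝓝 (0 : ℂ), G (w + θ' (0, t)) = 0 ∧ m (θ' (0, t)) = t := by
    filter_upwards [hlt.eventually a3] with t ht
    rw [hθ] at ht
    exact ⟨congrArg Prod.fst ht, congrArg Prod.snd ht⟩
  have hGne : ∀ᶠ y in 𝓝 w, fderiv ℂ G y ≠ 0 := hG.fderiv.continuousAt.eventually_ne h1
  refine ⟨fun t => w + θ' (0, t), hγ, hγ0, ?_, ?_⟩
  · filter_upwards [eventually_eventually_nhds.2 hrel, hγ.eventually_analyticAt, hγt.eventually hG.eventually_analyticAt, hγt.eventually hinv,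
      hγt.eventually hfG, hγt.eventually hGne] with t t1 t2 t3 t4 t5 t6
    refine ⟨?_, t5 t1.self_of_nhds.1⟩
    have e1 : fderiv ℂ G (w + θ' (0, t)) (deriv (fun t => w + θ' (0, t)) t) = 0 :=
      ld_chain (c := fun t => w + θ' (0, t)) t3 t2 (t1.mono fun s hs => hs.1)
    have e2 := t4 t1.self_of_nhds.1
    by_contra hne
    exact t6 (ld_lin e2 e1 (sub_ne_zero.2 hne))
  · intro hcon
    have h2 : ∀ᶠ t in 𝓝 (0 : ℂ), t = 0 := by
      filter_upwards [hcon, hrel] with t t1 t2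
      have t3 : θ' (0, t) = 0 := by
        have := not_not.1 t1
        simpa using this
      rw [← t2.2, t3, map_zero]
    have h3 : ∀ᶠ t in 𝓝[≠] (0 : ℂ), False := by
      filter_upwards [h2.filter_mono nhdsWithin_le_nhds, self_mem_nhdsWithin] with t t1 t2
      exact t2 t1
    exact h3.exists.elim fun _ h => h

/-- **The invariant part off the center.** -/
theorem linv_off {v : ℂ × ℂ → ℂ × ℂ} {f g : ℂ × ℂ → ℂ} (hv : AnalyticAt ℂ v 0) (hv0 : ∀ᶠ p in 𝓝 (0 : ℂ × ℂ), p ≠ 0 → v p ≠ 0)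
    (hf : AnalyticAt ℂ f 0) (hf0 : ∃ᶠ p in 𝓝 (0 : ℂ × ℂ), f p ≠ 0) (hg : Wt v g)
    (h : ∀ᶠ p in 𝓝 (0 : ℂ × ℂ), p ≠ 0 → (g p = 0 ↔ LeafIn v f p) ∧ (g p = 0 → fderiv ℂ g p ≠ 0 ∧ f p = 0 ∧ fderiv ℂ g p (v p) = 0)) :
    ∀ᶠ p in 𝓝 (0 : ℂ × ℂ), p ≠ 0 → LInv v f g p := by
  obtain ⟨c, hc, hcg⟩ := hg.cof
  filter_upwards [regPt_off hv hv0 hf hf0, eventually_eventually_nhds.2 h, hg.an.eventually_analyticAt, hc.eventually_analyticAt,
    eventually_eventually_nhds.2 hcg, hv.eventually_analyticAt, hf.eventually_analyticAt] with x x1 x2 x3 x4 x5 x6 x7 hx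
  have hx0 : ∀ᶠ y in 𝓝 x, y ≠ 0 := isOpen_ne.mem_nhds hx
  have hloc : ∀ᶠ y in 𝓝 x, (g y = 0 ↔ LeafIn v f y) ∧ (g y = 0 → fderiv ℂ g y ≠ 0 ∧ f y = 0 ∧ fderiv ℂ g y (v y) = 0) := by
    filter_upwards [x2, hx0] with y y1 y2 using y1 y2
  refine ⟨x3, by filter_upwards [hloc] with y hy h0 using (hy.2 h0).1, ⟨c, x4, x5⟩, ?_⟩
  obtain ⟨hvx, hr⟩ := x1 hx
  rcases hr with hr | ⟨G, g1, g2, g3, g4, g5⟩
  · refine ⟨fun _ => 1, analyticAt_const, ?_, Eventually.of_forall fun y h => absurd h one_ne_zero⟩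
    filter_upwards [hloc, x7.continuousAt.eventually_ne hr] with y y1 y2
    rw [mul_one]
    exact ⟨fun h => absurd h y2, fun h => absurd (y1.2 h).2.1 y2⟩
  · rcases g5 with g5 | g5
    · -- transversal
      have hgx : g x ≠ 0 := by
        intro h0
        obtain ⟨u, hu, hue⟩ := div_smooth (l := g) (l' := G) x3 g1 (fun h => (hloc.self_of_nhds.2 h).1) (by
          filter_upwards [hloc, g4] with y y1 y2 y3
          exact y2.1 (y1.2 y3).2.1)
        apply g5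
        have e1 : HasFDerivAt (fun y => u y * g y) (u x • fderiv ℂ g x + g x • fderiv ℂ u x) x :=
          hu.differentiableAt.hasFDerivAt.mul x3.differentiableAt.hasFDerivAt
        have e2 : G =ᶠ[𝓝 x] fun y => u y * g y := hue
        rw [e2.fderiv_eq, e1.fderiv]
        simp [h0, (hloc.self_of_nhds.2 h0).2.2]
      have hD : AnalyticAt ℂ (fun y => fderiv ℂ G y (v y)) x := ld_clm g1.fderiv x6
      refine ⟨G, g1, ?_, ?_⟩
      · filter_upwards [g4, x3.continuousAt.eventually_ne hgx] with y y1 y2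
        rw [y1]
        exact ⟨fun h => by rw [h, mul_zero], fun h => (mul_eq_zero.1 h).resolve_left y2⟩
      · filter_upwards [x3.continuousAt.eventually_ne hgx, hD.continuousAt.eventually_ne g5] with y y1 y2 _
        exact ⟨y1, y2⟩
    · -- invariant
      refine ⟨fun _ => 1, analyticAt_const, ?_, Eventually.of_forall fun y h => absurd h one_ne_zero⟩
      filter_upwards [hloc, g4, eventually_eventually_nhds.2 g4, eventually_eventually_nhds.2 g5, g1.eventually_analyticAt,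
        g1.fderiv.continuousAt.eventually_ne g3] with y y1 y2 y3 y4 y5 y6
      rw [mul_one]
      refine ⟨fun h => y1.1.2 ?_, fun h => (y1.2 h).2.1⟩
      exact leafIn_of_smooth y5 (y2.1 h) y6 y4 (y3.mono fun w hw => hw.2)

end Pool.Agent.MQ3

end
end

section

/-!
# MQ3 GInvN: the equation of the invariant curve at a chart point

`exists_gloc`, `linv_off` at the point `q` for `f = RD Ra`; `fzero_leaf` for the separatrices.
-/

set_option autoImplicit false

open Topology Filter Metric MvPolynomial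

noncomputable section

namespace Pool.Agent.MQ3

open Pool.Agent.H36.BP (EN)
open Pool.Agent.H17EF (coneE)
open Pool.Agent.MQ (LeafIn)
open Pool.Agent.MQ2 (Wt Sep FZero)

variable {M : ℕ} {P : Ideal (MvPolynomial (Fin (M + 1)) ℂ)} {RD : MvPolynomial (Fin (M + 1)) ℂ} {m : ℕ} {X : NCModel P RD} {θ : WDiff (coneE P) m}
  {l : LF M} {S : Web X θ l} {Ra : MvPolynomial (Fin (M + 1)) ℂ}

private theorem GInvN_shift (q : ℂ × ℂ) : Tendsto (fun x : ℂ × ℂ => q + x) (𝓝 0) (𝓝 q) := by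
  have : Continuous fun x : ℂ × ℂ => q + x := by fun_prop
  simpa using this.tendsto 0

private theorem GInvN_back (q x : ℂ × ℂ) : Tendsto (fun y : ℂ × ℂ => y - q) (𝓝 x) (𝓝 (x - q)) := by
  have : Continuous fun w : ℂ × ℂ => w - q := by fun_prop
  exact this.tendsto x

private theorem GInvN_an {E : Type*} [NormedAddCommGroup E] [NormedSpace ℂ E] {f : ℂ × ℂ → E} {q : ℂ × ℂ} (hf : AnalyticAt ℂ f q) :
    AnalyticAt ℂ (fun x => f (q + x)) 0 :=
  AnalyticAt.fun_comp (g := f) (f := fun x : ℂ × ℂ => q + x) (by rwa [add_zero]) (analyticAt_const.add analyticAt_id)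

private theorem GInvN_ban {f : ℂ × ℂ → ℂ} {q x : ℂ × ℂ} (hf : AnalyticAt ℂ f (x - q)) : AnalyticAt ℂ (fun y => f (y - q)) x :=
  AnalyticAt.fun_comp (g := f) (f := fun y : ℂ × ℂ => y - q) hf (analyticAt_id.sub analyticAt_const)

private theorem GInvN_fd (f : ℂ × ℂ → ℂ) (q y : ℂ × ℂ) : fderiv ℂ (fun y : ℂ × ℂ => f (y - q)) y = fderiv ℂ f (y - q) := by
  have := fderiv_comp_add_right (𝕜 := ℂ) (f := f) (x := y) (-q)
  simpa [sub_eq_add_neg] using this

/-- translation -/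
private theorem GInvN_tr {v : ℂ × ℂ → ℂ × ℂ} {f g : ℂ × ℂ → ℂ} {q x : ℂ × ℂ} (h : LInv (fun x => v (q + x)) (fun x => f (q + x)) g (x - q)) :
    LInv v f (fun y => g (y - q)) x := by
  obtain ⟨h1, h2, ⟨c, h3, h4⟩, k, h5, h6, h7⟩ := h
  refine ⟨GInvN_ban h1, ?_, ⟨fun y => c (y - q), GInvN_ban h3, ?_⟩, fun y => k (y - q), GInvN_ban h5, ?_, ?_⟩
  · filter_upwards [(GInvN_back q x).eventually h2] with y hy
    rw [GInvN_fd]
    exact hy
  · filter_upwards [(GInvN_back q x).eventually h4] with y hy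
    rw [GInvN_fd]
    simpa using hy
  · filter_upwards [(GInvN_back q x).eventually h6] with y hy
    simpa using hy
  · filter_upwards [(GInvN_back q x).eventually h7] with y hy
    rw [GInvN_fd]
    simpa using hy

theorem exists_gq {d dR : ℕ} (hd : RD.IsHomogeneous d) (hdR : Ra.IsHomogeneous dR) (hRa : RNe X Ra) {k : S.ι} {q : ℂ × ℂ} (hq : q ∈ S.D k) :
    ∃ g : ℂ × ℂ → ℂ, Wt (fun x => S.v k (q + x)) (fun x => g (q + x)) ∧ (∀ᶠ x in 𝓝[≠] q, InvAt S Ra k x g) ∧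
      ∀ c : ℕ → ℂ → ℂ × ℂ, Sep (fun x => S.v k (q + x)) c → FZero c (fun x => eval (S.σ k (q + x)).ofLp Ra) → FZero c fun x => g (q + x) := by
  have hv := GInvN_an (gn_v_an hq)
  have hv0 : ∀ᶠ p in 𝓝 (0 : ℂ × ℂ), p ≠ 0 → S.v k (q + p) ≠ 0 := by
    filter_upwards [(GInvN_shift q).eventually (gn_v_iso hq)] with x hx hx0
    exact hx (by simpa using hx0)
  have hf := GInvN_an (gn_σ_an hq (RD * Ra))
  have hfa := GInvN_an (gn_σ_an hq Ra)
  have hfr : ∃ᶠ x in 𝓝 (0 : ℂ × ℂ), eval (S.σ k (q + x)).ofLp Ra ≠ 0 ∧ eval (S.σ k (q + x)).ofLp (RD * Ra) ≠ 0 := by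
    intro hcon
    apply gn_freq hRa hq
    have h1 := GInvN_back q q
    rw [sub_self] at h1
    filter_upwards [h1.eventually hcon] with x hx
    simpa using hx
  obtain ⟨g, hg, h⟩ := exists_gloc hv hv0 hf (hfr.mono fun x hx => hx.2)
  have hoff := linv_off hv hv0 hf (hfr.mono fun x hx => hx.2) hg h
  have hsh : (fun x => (fun y => g (y - q)) (q + x)) = g := by
    funext x
    simp
  refine ⟨fun y => g (y - q), by rw [hsh]; exact hg, ?_, fun c hc hcz => ?_⟩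
  · rw [eventually_nhdsWithin_iff]
    have h1 := GInvN_back q q
    rw [sub_self] at h1
    filter_upwards [h1.eventually hoff] with x hx hxq
    exact GInvN_tr (v := S.v k) (f := fun x => eval (S.σ k x).ofLp (RD * Ra)) (hx (sub_ne_zero.2 hxq))
  · rw [hsh]
    refine fzero_leaf hv hc hfa (hfr.mono fun x hx => hx.1) hcz hg.an ?_
    filter_upwards [h] with p hp hp0 hl
    refine (hp hp0).1.2 ?_
    obtain ⟨γ, g1, g2, g3, g4⟩ := hl
    refine ⟨γ, g1, g2, ?_, g4⟩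
    filter_upwards [g3] with t ht
    refine ⟨ht.1, ?_⟩
    rw [map_mul, ht.2, mul_zero]

end Pool.Agent.MQ3

end
end
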