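import Pool.Agent.H43.TL2.H36.LB.SameL
import Pool.Agent.H43.TL2.M109
import Pool.Agent.H43.TL2.M115
import Pool.Agent.H43.TL2.M123
import Pool.Agent.H43.TL2.M127
import Pool.Agent.H43.TL2.M128
import Pool.Agent.H43.TL2.M87

/-! The parts of this file: MQL.PBd, MQK.AsmPL, MQK.EtaNL, MQK.AsmNL. -/

section

/-!
# MQL PBd: pseudo Brody hyperbolic surfaces

The equivalences for `U = X` or `U = X - {H = 0}`, and the case of the complement of an arbitrary curve.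
-/

set_option autoImplicit false

open Topology Filter Metric MvPolynomial

noncomputable section

namespace Pool.Agent.MQL.PB

open Pool.Agent.H17 (PN VanishesAt HolomorphicInto ZariskiClosedIn puncturedDisc PseudoBrodyHyperbolic PseudoPicardHyperbolic)
open Pool.Agent.H62.SA (locVar OnBd)
open Pool.Agent.H17LG.Variety (FunField IsLogGeneralType)
open Pool.Agent.H13.SM (conTan)
open Pool.Agent.H7.Bir (GGLOpen)
open Pool.Agent.H14.KB (KobayashiHyperbolicModulo)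
open Pool.Agent.SR2.T (Pt Homog HasDim Var Loc Smooth LogGT OrderTwo KobayashiModulo GGL Hyperbolic)
open Pool.Agent.MQL.PB.T

variable {N s : ℕ} {P : Ideal (MvPolynomial (Fin (N + 1)) ℂ)}

/-- `U = Loc P G` is proper over an affine variety: the quotients `F m j / G m` are regular functions on `U` (they do not depend on `m`), and they define a
proper map from `U` to an affine space, since at every point of the boundary, where all `G m` are `0`, one of the `F m j` is not `0`. -/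
def ProperOverAffine (P : Ideal (MvPolynomial (Fin (N + 1)) ℂ)) (G : Fin s → MvPolynomial (Fin (N + 1)) ℂ) : Prop :=
  ∃ (M : ℕ) (F : Fin s → Fin (M + 1) → MvPolynomial (Fin (N + 1)) ℂ) (e : Fin s → ℕ), (∀ m j, (F m j).IsHomogeneous (e m)) ∧ (∀ m, F m 0 = G m) ∧
    (∀ m n j, F m j * G n - F n j * G m ∈ P) ∧ ∀ x ∈ Var P, ∃ m j, ¬ VanishesAt (F m j) x

/-- The complement of `Loc P G` in the variety of `P` is locally the zero set of one form `R`. -/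
def CurveComplement (P : Ideal (MvPolynomial (Fin (N + 1)) ℂ)) (G : Fin s → MvPolynomial (Fin (N + 1)) ℂ) : Prop :=
  ∀ x ∈ Var P, ∃ (A R : MvPolynomial (Fin (N + 1)) ℂ) (a r : ℕ), A.IsHomogeneous a ∧ R.IsHomogeneous r ∧ ¬ VanishesAt A x ∧
    ∀ y ∈ Var P, ¬ VanishesAt A y → (y ∈ Loc P G ↔ ¬ VanishesAt R y)

/-- a curve of order two is holomorphic -/
theorem hol_of_orderTwo {f : ℂ → PN N} (hf : OrderTwo f) : HolomorphicInto f Set.univ := by
  obtain ⟨F, A, hF, hFf, hA⟩ := hf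
  exact fun z _ => ⟨F, hF.analyticAt z, Eventually.of_forall hFf⟩

/-- the dilations of a curve in `U` -/
theorem isCurve_mul {U : Set (PN N)} {f : ℂ → PN N} (hf : IsCurve U f) {c : ℂ} (hc : c ≠ 0) : IsCurve U fun z => f (c * z) where
  orderTwo := orderTwo_mul hf.orderTwo hc
  mem z := hf.mem (c * z)
  nonconstant := by
    obtain ⟨a, b, hab⟩ := hf.nonconstant
    refine ⟨a / c, b / c, ?_⟩
    rw [mul_div_cancel₀ _ hc, mul_div_cancel₀ _ hc]
    exact hab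

theorem finrank_le (hs : Smooth P 2) (y : Fin (N + 1) → ℂ) (h0 : y ≠ 0) (h1 : ∀ Q ∈ P, eval y Q = 0) : Module.finrank ℂ (conTan P y) ≤ 3 :=
  Pool.Agent.SR2.T.isSmooth_of hs y h0 h1

/-- from the limits of discs to the properties of the conjecture -/
theorem ggl_of_lim [P.IsPrime] (hP : Homog P) (hdim : HasDim P 2) (hs : Smooth P 2) {G : Fin s → MvPolynomial (Fin (N + 1)) ℂ}
    (hG : ∀ i, ∃ n, (G i).IsHomogeneous n) (hc : CurveComplement P G) (hgt : LogGT P G 2) {Ξ : Set (PN N)} (hΞ : IsProperClosed (Loc P G) Ξ)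
    (hlim : Pool.Agent.H36.LB.LimModPN (Loc P G) Ξ) : GGLOpen P G Ξ ∧
      ∃ (Q : MvPolynomial (Fin (N + 1)) ℂ) (D : ℕ), Q.IsHomogeneous D ∧ (∃ x ∈ Loc P G, ¬ VanishesAt Q x) ∧ KobayashiHyperbolicModulo (Loc P G) Q D := by
  obtain ⟨z, hz⟩ := id hdim
  choose e he using hG
  have hO := Pool.Agent.H36.LB.openPart_of_curveComplement (P := P) hP he hc
  obtain ⟨hB, hPic, Q', D', hQ', hx', -, hK⟩ := Pool.Agent.H36.LB.lim_main hP hz (finrank_le hs) he hO hgt hΞ.1 hΞ.2 hlim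
  refine ⟨⟨hΞ.1, hΞ.2, ?_, hPic, hB, ?_⟩, Q', D', hQ', hx', hK⟩
  · intro w _ hw
    obtain rfl := Pool.Agent.H17EF.two_of_basis ⟨z, hz⟩ hw
    exact hgt
  · intro R _ hR hPR hRΞ w hw hz'
    exact Pool.Agent.H13.CV.strongly_of_brodyL P hP ⟨z, hz⟩ (fun m => ⟨_, he m⟩) hΞ.1 hgt hB R hR hPR hRΞ w hw hz'

/-- a surface which is proper over an affine variety: from the curves of order two to the properties of the conjecture -/
theorem ggl_of_curves [P.IsPrime] (hP : Homog P) (hdim : HasDim P 2) (hs : Smooth P 2) {G : Fin s → MvPolynomial (Fin (N + 1)) ℂ}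
    (hpr : ProperOverAffine P G) (hgt : LogGT P G 2) {Ξ : Set (PN N)} (hΞ : IsProperClosed (Loc P G) Ξ)
    (h : ∀ f, IsCurve (Loc P G) f → ∀ z, f z ∈ Ξ) :
    GGLOpen P G Ξ ∧
      ∃ (Q : MvPolynomial (Fin (N + 1)) ℂ) (D : ℕ), Q.IsHomogeneous D ∧ (∃ x ∈ Loc P G, ¬ VanishesAt Q x) ∧ KobayashiHyperbolicModulo (Loc P G) Q D := by
  obtain ⟨M, F, e, h1, h2, h3, h4⟩ := hpr
  have hprop : Pool.Agent.H62.SA.IsProperMap P G F e := ⟨h1, h2, h3, h4⟩
  exact ggl_of_lim hP hdim hs (fun i => ⟨e i, by rw [← h2 i]; exact h1 i 0⟩) (Pool.Agent.H36.LB.curveComplement_of_proper hprop) hgt hΞ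
    (Pool.Agent.H36.LB.limModPN_of_proper hP hprop fun f _ hfo hfU hfn => h f ⟨hfo, hfU, hfn⟩)

theorem forms_of_proper {G : Fin s → MvPolynomial (Fin (N + 1)) ℂ} (hpr : ProperOverAffine P G) : ∀ i, ∃ n, (G i).IsHomogeneous n := by
  obtain ⟨M, F, e, h1, h2, h3, h4⟩ := hpr
  exact fun i => ⟨e i, by rw [← h2 i]; exact h1 i 0⟩

/-- an algebraically degenerate entire curve lies in `Ξ`, if the curves which are not contained in `Ξ` are of log general type -/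
theorem mem_of_degenerate [P.IsPrime] (hP : Homog P) (hdim : HasDim P 2) {G : Fin s → MvPolynomial (Fin (N + 1)) ℂ} (hG : ∀ m, ∃ n, (G m).IsHomogeneous n)
    {Ξ : Set (PN N)} (hst : StronglyModulo P G Ξ)
    {f : ℂ → PN N} (hf : HolomorphicInto f Set.univ) (hfU : ∀ z, f z ∈ Loc P G) (hne : ∃ z w, f z ≠ f w) {Q : MvPolynomial (Fin (N + 1)) ℂ} {D : ℕ}
    (hQ : Q.IsHomogeneous D) (hQP : Q ∉ P) (hfQ : ∀ z, VanishesAt Q (f z)) : ∀ z, f z ∈ Ξ := by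
  classical
  obtain ⟨I, hI⟩ : ∃ I, I = Pool.Agent.H17BP.mapIdeal f Set.univ := ⟨_, rfl⟩
  have hIp : I.IsPrime := by
    rw [hI]
    exact Pool.Agent.H17BP.mapIdeal_isPrime isOpen_univ isPreconnected_univ Set.univ_nonempty hf
  have hIh : Homog I := by
    rw [hI]
    exact Pool.Agent.H17BP.mapIdeal_homog
  have hPI : P ≤ I := by
    rw [hI]
    exact Pool.Agent.H17BP.le_mapIdeal hP fun z _ => ⟨(hfU z).1, fun m => m.elim0⟩
  have hIX : ∃ i, (X i : MvPolynomial (Fin (N + 1)) ℂ) ∉ I := by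
    rw [hI]
    exact Pool.Agent.H17BP.exists_X_notMem Set.univ_nonempty
  have hfI : ∀ z, f z ∈ Loc I G := by
    intro z
    refine ⟨fun R hR n hn => ?_, (hfU z).2⟩
    rw [hI] at hR
    exact (Pool.Agent.H17BP.mem_mapIdeal_form hn).1 hR z (Set.mem_univ z)
  have hQI : Q ∈ I := by
    rw [hI]
    exact (Pool.Agent.H17BP.mem_mapIdeal_form hQ).2 fun z _ => hfQ z
  obtain ⟨w, hw⟩ := Pool.Agent.H62.FC.exists_fin_basis (P := I) hIX
  have hw2 : w < 2 := Pool.Agent.H17BP.trdeg_lt hP hIh hPI (fun h => hQP (h hQI)) hIX hdim hw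
  have hw0 : w ≠ 0 := by
    rintro rfl
    obtain ⟨a, b, hab⟩ := hne
    exact hab (Pool.Agent.H17BP.eq_of_trdeg_zero hIh hIX hw _ ⟨(hfI a).1, fun m => m.elim0⟩ _
      ⟨(hfI b).1, fun m => m.elim0⟩)
  have hw1 : w = 1 := by omega
  subst hw1
  by_cases hsub : Loc I G ⊆ Ξ
  · exact fun z => hsub (hfI z)
  · exfalso
    obtain ⟨a, b, hab⟩ := hne
    exact hab (Pool.Agent.H62.LGC.const_of_logGeneralType hIh hw hG (hst I hIh hPI hsub 1 le_rfl hw) hf hfI a b)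

/-- a form as an equation of degree zero in the derivatives -/
theorem exists_eqn [P.IsPrime] (hP : Homog P) (hdim : HasDim P 2) {R : MvPolynomial (Fin (N + 1)) ℂ} {d : ℕ} (hR : R.IsHomogeneous d) (hRP : R ∉ P) :
    ∃ G : Eqn N, Nontrivial P G ∧ ∀ f : ℂ → PN N, (∀ z, VanishesAt R (f z)) → Satisfies G f := by
  obtain ⟨z, hz⟩ := id hdim
  have hXi : ∃ i, (X i : MvPolynomial (Fin (N + 1)) ℂ) ∉ P := Pool.Agent.H62.FC.exists_X_notMem (r := 2) (by norm_num) ⟨z, hz⟩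
  have hv : ∀ x v : Fin (N + 1) → ℂ, value (rename Sum.inl R) x v = eval x R := by
    intro x v
    rw [value, eval_rename]
    rfl
  refine ⟨rename Sum.inl R, ?_, fun f hf F _ hFf z => ?_⟩
  · obtain ⟨x, hx, hxR⟩ := Pool.Agent.H17EF.exists_point hP hXi hRP hR
    refine ⟨x.rep, 0, x.rep_nonzero, fun Q hQ => ⟨?_, by simp⟩, ?_⟩
    · have h1 := (Pool.Agent.H17BP.rep_mem_cone hP).2 ⟨hx, fun m => m.elim0⟩
      exact h1.2 Q hQ
    · rw [hv]
      exact hxR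
  · rw [hv]
    obtain ⟨h0, h1⟩ := hFf z
    have h2 := hf z
    rw [h1, Pool.Agent.H17BP.vanishesAt_mk hR h0] at h2
    exact h2

/-- a curve in a proper closed subset is degenerate -/
theorem degenerate_of_mem {G : Fin s → MvPolynomial (Fin (N + 1)) ℂ} {Ξ : Set (PN N)} (hΞ : IsProperClosed (Loc P G) Ξ) :
    ∃ (R : MvPolynomial (Fin (N + 1)) ℂ) (d : ℕ), R.IsHomogeneous d ∧ R ∉ P ∧ ∀ x ∈ Ξ, VanishesAt R x := by
  obtain ⟨⟨S, hS, rfl⟩, hne⟩ := hΞ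
  obtain ⟨x, hx, R, hR, hRx⟩ : ∃ x ∈ Loc P G, ∃ R ∈ S, ¬ VanishesAt R x := by
    by_contra hcon
    push Not at hcon
    exact hne (Set.Subset.antisymm (fun x hx => hx.1) fun x hx => ⟨hx, hcon x hx⟩)
  obtain ⟨n, hn⟩ := hS R hR
  exact ⟨R, n, hn, fun h => hRx (hx.1 R h n hn), fun y hy => hy.2 R hR⟩

/-- **Pseudo Brody hyperbolic surfaces which are proper over an affine variety.** -/
theorem hyperbolic_of_brody [P.IsPrime] (hP : Homog P) (hdim : HasDim P 2) (hs : Smooth P 2) {G : Fin s → MvPolynomial (Fin (N + 1)) ℂ}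
    (hpr : ProperOverAffine P G) (hgt : LogGT P G 2) (hb : PseudoBrodyHyperbolic (Loc P G)) : Hyperbolic P G := by
  obtain ⟨Ξ, h1, h2, h⟩ := hb
  obtain ⟨h3, h4⟩ := ggl_of_curves hP hdim hs hpr hgt ⟨h1, h2⟩ fun f hf => h f (hol_of_orderTwo hf.orderTwo) hf.mem hf.nonconstant
  exact Pool.Agent.SR2.T.hyperbolic_of (Pool.Agent.SDA.hyperbolicOpen_of hP hdim (forms_of_proper hpr) ⟨Ξ, h3⟩ h4)

/-- the zero set of a form which is not `0` on the surface -/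
theorem isProperClosed_form [hPp : P.IsPrime] (hP : Homog P) (hdim : HasDim P 2) {G : Fin s → MvPolynomial (Fin (N + 1)) ℂ}
    (hG : ∀ i, ∃ n, (G i).IsHomogeneous n) (hGP : ∃ i, G i ∉ P) {R : MvPolynomial (Fin (N + 1)) ℂ} {d : ℕ} (hR : R.IsHomogeneous d) (hRP : R ∉ P) :
    IsProperClosed (Loc P G) {x | x ∈ Loc P G ∧ ∀ A ∈ ({R} : Set (MvPolynomial (Fin (N + 1)) ℂ)), VanishesAt A x} := by
  obtain ⟨z, hz⟩ := id hdim
  obtain ⟨i, hi⟩ := hGP
  obtain ⟨e, he⟩ := hG i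
  have hXi : ∃ i, (X i : MvPolynomial (Fin (N + 1)) ℂ) ∉ P := Pool.Agent.H62.FC.exists_X_notMem (r := 2) (by norm_num) ⟨z, hz⟩
  refine ⟨⟨{R}, fun A hA => ⟨d, by rw [Set.mem_singleton_iff.1 hA]; exact hR⟩, rfl⟩, fun heq => ?_⟩
  obtain ⟨x, hx, hxQ⟩ := Pool.Agent.H17EF.exists_point hP hXi (Q := G i * R) (fun h => (hPp.mem_or_mem h).elim hi hRP) (he.mul hR)
  have hx1 : eval x.rep (G i * R) ≠ 0 := hxQ
  rw [map_mul] at hx1
  have hxU : x ∈ Loc P G := ⟨fun Q hQ n hn => hx Q hQ n hn, i, fun h => hx1 (by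
    have h2 : eval x.rep (G i) = 0 := h
    rw [h2, zero_mul])⟩
  rw [← heq] at hxU
  have h3 : eval x.rep R = 0 := hxU.2 R rfl
  exact hx1 (by rw [h3, mul_zero])

/-- **The equivalences.** -/
theorem tfae_gen [P.IsPrime] (hP : Homog P) (hdim : HasDim P 2) (hs : Smooth P 2) {G : Fin s → MvPolynomial (Fin (N + 1)) ℂ} (hGP : ∃ i, G i ∉ P)
    (hpr : ProperOverAffine P G) (hgt : LogGT P G 2) (hcur : HasR P G) :
    List.TFAE [
      ∃ E : Eqn N, Nontrivial P E ∧ ∀ f, IsCurve (Loc P G) f → Satisfies E f,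
      ∃ (R : MvPolynomial (Fin (N + 1)) ℂ) (d : ℕ), R.IsHomogeneous d ∧ R ∉ P ∧ ∀ f, IsCurve (Loc P G) f → ∀ z, VanishesAt R (f z),
      StronglyLogGT P G ∧ ∀ f, IsCurve (Loc P G) f → ∃ E : Eqn N, Nontrivial P E ∧ ∀ c : ℂ, c ≠ 0 → Satisfies E fun z => f (c * z),
      PseudoBrodyHyperbolic (Loc P G),
      PseudoPicardHyperbolic (Loc P G),
      PseudoKobayashi (Loc P G),
      GGL P G (Exc (Loc P G)),
      Hyperbolic P G] := by
  have hG := forms_of_proper hpr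
  have ode : ∀ E : Eqn N, Nontrivial P E → ∃ (R : MvPolynomial (Fin (N + 1)) ℂ) (d : ℕ), R.IsHomogeneous d ∧ R ∉ P ∧
      ∀ f, IsCurve (Loc P G) f → (∀ c : ℂ, c ≠ 0 → Satisfies E fun z => f (c * z)) → ∀ z, VanishesAt R (f z) := by
    rintro E ⟨x, v, h0, hx, hne⟩
    obtain ⟨R, d, hR, hRP, h⟩ := exists_R_ode hP hdim (Pool.Agent.SR2.T.isSmooth_of hs) hG hcur h0 (fun Q hQ => (hx Q hQ).1) (v₀ := v)
      (fun Q hQ => (hx Q hQ).2) hne
    exact ⟨R, d, hR, hRP, fun f hf hG => h f hf.orderTwo hf.mem hf.nonconstant hG⟩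
  tfae_have 8 → 4 := by
    intro h
    obtain ⟨Ξ, h⟩ := h.four
    exact ⟨Ξ, h.closed, h.proper, h.brody⟩
  tfae_have 4 → 7 := by
    rintro ⟨Ξ, h1, h2, h⟩
    refine Pool.Agent.SR2.T.ggl_of (ggl_of_curves hP hdim hs hpr hgt ⟨⟨_, fun R hR => hR.1, rfl⟩, fun heq => h2 ?_⟩ fun f hf z => ⟨hf.mem z, fun R hR => hR.2 f hf z⟩).1
    obtain ⟨S, hS, rfl⟩ := h1
    refine Set.Subset.antisymm (fun x hx => hx.1) fun x hx => ⟨hx, fun R hR => ?_⟩
    rw [← heq] at hx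
    exact hx.2 R ⟨hS R hR, fun f hf z => (h f (hol_of_orderTwo hf.orderTwo) hf.mem hf.nonconstant z).2 R hR⟩
  tfae_have 7 → 5 := fun h => ⟨_, h.closed, h.proper, h.picard⟩
  tfae_have 5 → 4 := Pool.Agent.H36.BPL.brody_of_picard
  tfae_have 6 → 4 := fun h => Pool.Agent.H14.KB.pseudoBrody_of_kobayashi h
  tfae_have 4 → 8 := hyperbolic_of_brody hP hdim hs hpr hgt
  tfae_have 8 → 6 := fun h => h.kobayashi
  tfae_have 1 → 2 := by
    rintro ⟨E, hE, h⟩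
    obtain ⟨R, d, hR, hRP, hRf⟩ := ode E hE
    exact ⟨R, d, hR, hRP, fun f hf => hRf f hf fun c hc => h _ (isCurve_mul hf hc)⟩
  tfae_have 2 → 4 := by
    rintro ⟨R, d, hR, hRP, hRf⟩
    have hΞ := isProperClosed_form hP hdim hG hGP hR hRP
    have h1 := (ggl_of_curves hP hdim hs hpr hgt hΞ fun f hf z => ⟨hf.mem z, fun A hA => by
      rw [Set.mem_singleton_iff.1 hA]
      exact hRf f hf z⟩).1
    exact ⟨_, h1.closed, h1.proper, h1.brody⟩
  tfae_have 7 → 2 := by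
    intro h
    obtain ⟨R, d, hR, hRP, hRΞ⟩ := degenerate_of_mem ⟨h.closed, h.proper⟩
    exact ⟨R, d, hR, hRP, fun f hf z => hRΞ _ (h.brody f (hol_of_orderTwo hf.orderTwo) hf.mem hf.nonconstant z)⟩
  tfae_have 2 → 1 := by
    rintro ⟨R, d, hR, hRP, hRf⟩
    obtain ⟨E, hE, hE'⟩ := exists_eqn hP hdim hR hRP
    exact ⟨E, hE, fun f hf => hE' f (hRf f hf)⟩
  tfae_have 7 → 3 := by
    intro h
    obtain ⟨R, d, hR, hRP, hRΞ⟩ := degenerate_of_mem ⟨h.closed, h.proper⟩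
    obtain ⟨E, hE, hE'⟩ := exists_eqn hP hdim hR hRP
    refine ⟨⟨_, ⟨h.closed, h.proper⟩, fun Q _ hQ hPQ hne n hn hd => h.strongly Q hQ hPQ hne n hn hd⟩, fun f hf => ⟨E, hE, fun c _ => hE' _ fun z => ?_⟩⟩
    exact hRΞ _ (h.brody f (hol_of_orderTwo hf.orderTwo) hf.mem hf.nonconstant (c * z))
  tfae_have 3 → 4 := by
    rintro ⟨⟨Ξ, hΞ, hst⟩, h⟩
    have h1 := (ggl_of_curves hP hdim hs hpr hgt hΞ fun f hf => by
      obtain ⟨E, hE, hE'⟩ := h f hf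
      obtain ⟨R, d, hR, hRP, hRf⟩ := ode E hE
      exact mem_of_degenerate hP hdim hG hst (hol_of_orderTwo hf.orderTwo) hf.mem hf.nonconstant hR hRP (hRf f hf hE')).1
    exact ⟨_, h1.closed, h1.proper, h1.brody⟩
  tfae_finish

end Pool.Agent.MQL.PB

end
end

section

/-!
# MQK AsmPL: the patch of a special point, on the part of the curve in the polydisc of radius `s' < r`

The potential is `eP + Φ`, the field is the `η` of the package; outside the core it is `conj DD`.  The weight has poles: `hup` is its upper bound by the Jacobian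
factor `JD al be` of the package.
-/

set_option autoImplicit false

open Topology Filter Metric MvPolynomial MeasureTheory Laplacian

noncomputable section

namespace Pool.Agent.MQK

open Pool.Agent.MQL

open Pool.Agent.H36.BP (EN fs)
open Pool.Agent.H14.PP (Tan)
open Pool.Agent.H17BP (Surface IsForm)
open Pool.Agent.H17EF (projVar coneE)
open Pool.Agent.H30M (tau LogSing)
open Pool.Agent.MQ (lam En ztv dvg DDv gr dv)
open Pool.Agent.MQ2 (LocX)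
open Pool.Agent.MQ3

variable {M : ℕ} {P : Ideal (MvPolynomial (Fin (M + 1)) ℂ)} {RD Ra : MvPolynomial (Fin (M + 1)) ℂ} {Ko : Set (EN M)} {m : ℕ} {X : NCModel P RD} {θ : WDiff (coneE P) m}
  {l : LF M} {S : Web X θ l} {Wf : EN M → EN M → EN M → ℂ} {mK jH : ℕ}

/-! ## translations -/

private theorem asmPL_ztv (v : ℂ × ℂ → ℂ × ℂ) (Q : ℂ × ℂ) (p : ℂ → ℂ × ℂ) (z : ℂ) :
    ztv (fun x => v (Q + x)) (fun w => p w - Q) z = ztv v p z := by
  classical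
  unfold ztv
  have h1 : deriv (fun w => p w - Q) z = deriv p z := deriv_sub_const _
  have h2 : Q + (p z - Q) = p z := add_sub_cancel _ _
  simp only [h1, h2]

private theorem asmPL_DDv (v : ℂ × ℂ → ℂ × ℂ) (g : ℂ × ℂ → ℂ) (Q : ℂ × ℂ) (p : ℂ → ℂ × ℂ) (z : ℂ) :
    DDv (fun x => v (Q + x)) (fun x => g (Q + x)) (fun w => p w - Q) z = DDv v g p z := by
  unfold DDv
  rw [asmPL_ztv]
  have h2 : ∀ w, Q + (p w - Q) = p w := fun w => add_sub_cancel _ _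
  have h3 : dvg (fun x => v (Q + x)) (p z - Q) = dvg v (p z) := by
    unfold dvg
    rw [fderiv_comp_add_left, h2]
  simp only [h2, h3]

/-! ## the bound of the field at regular points -/

private theorem asmPL_dvg {v : ℂ × ℂ → ℂ × ℂ} {x : ℂ × ℂ} (hv : AnalyticAt ℂ v x) : AnalyticAt ℂ (dvg v) x := by
  have h1 : ∀ e : ℂ × ℂ, AnalyticAt ℂ (fun Q => fderiv ℂ v Q e) x := fun e =>
    ((ContinuousLinearMap.apply ℂ (ℂ × ℂ) e).analyticAt _).comp hv.fderiv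
  exact (analyticAt_fst.comp (h1 (1, 0))).add (analyticAt_snd.comp (h1 (0, 1)))

/-- near a point where `v` is not zero -/
private theorem asmPL_loc {v : ℂ × ℂ → ℂ × ℂ} {g c : ℂ × ℂ → ℂ} {x : ℂ × ℂ} (hv : AnalyticAt ℂ v x) (h0 : v x ≠ 0) (hg : AnalyticAt ℂ g x)
    (hc : AnalyticAt ℂ c x) (hcof : ∀ᶠ y in 𝓝 x, fderiv ℂ g y (v y) = c y * g y) :
    ∃ N ∈ 𝓝 x, ∃ B : ℝ, 0 ≤ B ∧ ∀ (p : ℂ → ℂ × ℂ) (z : ℂ), AnalyticAt ℂ p z → p z ∈ N →
      (∀ᶠ w in 𝓝 z, (v (p w)).1 * (deriv p w).2 - (v (p w)).2 * (deriv p w).1 = 0) → (∃ᶠ w in 𝓝 z, g (p w) ≠ 0) →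
        ‖DDv v g p z‖ ≤ B * ‖deriv p z‖ := by
  have hb : 0 < ‖v x‖ := norm_pos_iff.2 h0
  set b : ℝ := ‖v x‖ / 2 with hbdef
  have hb2 : 0 < b := by positivity
  set K : ℝ := ‖dvg v x - c x‖ + 1 with hK
  have hK0 : 0 < K := by positivity
  have e1 : ∀ᶠ y in 𝓝 x, b < ‖v y‖ := hv.continuousAt.norm.eventually (lt_mem_nhds (by linarith))
  have e2 : ∀ᶠ y in 𝓝 x, ‖dvg v y - c y‖ < K := ((asmPL_dvg hv).sub hc).continuousAt.norm.eventually (gt_mem_nhds (by rw [hK]; simp))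
  refine ⟨_, (hv.eventually_analyticAt.and (hg.eventually_analyticAt.and (hc.eventually_analyticAt.and
    (hcof.eventually_nhds.and (e1.and e2))))), K / b, by positivity, ?_⟩
  intro p z hp hpz hode hgn
  obtain ⟨hv', hg', hc', hcof', hb', hK'⟩ := hpz
  have hv0 : v (p z) ≠ 0 := norm_pos_iff.1 (hb2.trans hb')
  have hvp : AnalyticAt ℂ (fun w => v (p w)) z := AnalyticAt.fun_comp (g := v) (f := p) hv' hp
  have hne : ∀ᶠ w in 𝓝 z, v (p w) ≠ 0 := hvp.continuousAt.eventually_ne hv0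
  have hga : AnalyticAt ℂ (fun w => g (p w)) z := AnalyticAt.fun_comp (g := g) (f := p) hg' hp
  have hca : AnalyticAt ℂ (fun w => c (p w)) z := AnalyticAt.fun_comp (g := c) (f := p) hc' hp
  have hzt : AnalyticAt ℂ (ztv v p) z := ztv_an hp hv' hode hv0
  have hd : ∀ᶠ w in 𝓝 z, deriv (fun w => g (p w)) w = (ztv v p w * c (p w)) * g (p w) := by
    filter_upwards [hode, hne, hp.eventually_analyticAt, hp.continuousAt.eventually hg'.eventually_analyticAt,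
      hp.continuousAt.eventually hcof'] with w a1 a2 a3 a4 a5
    have a6 : deriv (fun w => g (p w)) w = fderiv ℂ g (p w) (deriv p w) :=
      (a4.differentiableAt.hasFDerivAt.comp_hasDerivAt w a3.differentiableAt.hasDerivAt).deriv
    rw [a6, ztv_smul a1 a2, map_smul, a5, smul_eq_mul]
    ring
  have hg0 : g (p z) ≠ 0 := by
    intro h1
    obtain ⟨w, h2, h3⟩ := (hgn.and_eventually (Pool.Agent.MQ2.RegE.eventually_zero_of_ode hga (hzt.mul hca) hd h1)).exists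
    exact h2 h3
  have h1 : DDv v g p z = (dvg v (p z) - c (p z)) * ztv v p z := by
    unfold DDv
    rw [hd.self_of_nhds, mul_div_assoc, div_self hg0]
    ring
  have h2 : ‖ztv v p z‖ * b ≤ ‖deriv p z‖ := by
    rw [ztv_smul hode.self_of_nhds hv0, norm_smul]
    exact mul_le_mul_of_nonneg_left hb'.le (norm_nonneg _)
  rw [h1, norm_mul]
  calc ‖dvg v (p z) - c (p z)‖ * ‖ztv v p z‖ ≤ K * ‖ztv v p z‖ := mul_le_mul_of_nonneg_right hK'.le (norm_nonneg _)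
    _ ≤ K * (‖deriv p z‖ / b) := mul_le_mul_of_nonneg_left (by rw [le_div_iff₀ hb2]; exact h2) hK0.le
    _ = K / b * ‖deriv p z‖ := by ring

/-- outside the core, in the polydisc of radius `s'` -/
private theorem asmPL_dd (C : Cov S Ra) {g : Fin C.nP → ℂ × ℂ → ℂ} (hg : PG C g) (j : Fin C.nP) {s' : ℝ} (hs' : s' < C.r j) :
    ∃ B : ℝ, 0 ≤ B ∧ ∀ F : ℂ → EN M, RCrv θ RD Ra F → ∀ Y : NCLift X F, ∀ z ∈ C.UP Y j, C.pj Y j z ∉ ball (0 : ℂ × ℂ) (C.s j) →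
      C.pj Y j z ∈ closedBall (0 : ℂ × ℂ) s' → ‖DDv (S.v (C.ck j)) (g j) (S.lf Y (C.ck j)) z‖ ≤ B * ‖deriv (S.lf Y (C.ck j)) z‖ := by
  have hK : IsCompact (closedBall (C.Q j) s' \ ball (C.Q j) (C.s j)) := (isCompact_closedBall _ _).diff isOpen_ball
  have hloc : ∀ x ∈ closedBall (C.Q j) s' \ ball (C.Q j) (C.s j), ∃ N ∈ 𝓝 x, ∃ B : ℝ, 0 ≤ B ∧ ∀ (p : ℂ → ℂ × ℂ) (z : ℂ), AnalyticAt ℂ p z → p z ∈ N →
      (∀ᶠ w in 𝓝 z, (S.v (C.ck j) (p w)).1 * (deriv p w).2 - (S.v (C.ck j) (p w)).2 * (deriv p w).1 = 0) → (∃ᶠ w in 𝓝 z, g j (p w) ≠ 0) →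
        ‖DDv (S.v (C.ck j)) (g j) p z‖ ≤ B * ‖deriv p z‖ := by
    rintro x ⟨hx1, hx2⟩
    have hxQ : x ≠ C.Q j := by
      rintro rfl
      exact hx2 (mem_ball_self (C.s_pos j))
    have hxr : x ∈ closedBall (C.Q j) (C.r j) := closedBall_subset_closedBall hs'.le hx1
    obtain ⟨hga, -, ⟨c, hc, hcof⟩, -⟩ := hg.inv j x hxr hxQ
    have hv0 : S.v (C.ck j) x ≠ 0 := (C.P_reg j x hxr hxQ).elim (fun h => h.v_ne) fun h => h.v_ne
    exact asmPL_loc ((S.c (C.ck j)).v_an _ (C.P_sub j hxr).1) hv0 hga hc hcof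
  choose! N hN B hB0 hB using hloc
  obtain ⟨t, ht, htc⟩ := hK.elim_nhds_subcover N hN
  refine ⟨∑ x ∈ t, B x, Finset.sum_nonneg fun x hx => hB0 x (ht x hx), fun F hF Y z hz h1 h2 => ?_⟩
  have hmem : S.lf Y (C.ck j) z ∈ closedBall (C.Q j) s' \ ball (C.Q j) (C.s j) := by
    refine ⟨?_, fun h3 => h1 ?_⟩
    · rw [mem_closedBall, dist_eq_norm]
      rw [mem_closedBall_zero_iff] at h2
      exact h2
    · rw [mem_ball, dist_eq_norm] at h3
      rw [mem_ball_zero_iff]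
      exact h3
  obtain ⟨x, hx, hxN⟩ := Set.mem_iUnion₂.1 (htc hmem)
  have hode : ∀ᶠ w in 𝓝 z, (S.v (C.ck j) (S.lf Y (C.ck j) w)).1 * (deriv (S.lf Y (C.ck j)) w).2 -
      (S.v (C.ck j) (S.lf Y (C.ck j) w)).2 * (deriv (S.lf Y (C.ck j)) w).1 = 0 := by
    filter_upwards [(Om_open hF.toWCrv Y (C.ck j)).mem_nhds hz.1] with w hw
    exact lfN_tan hF.toWCrv Y (C.ck j) w hw
  refine (hB x (ht x hx) _ z (lfN_an hF.toWCrv Y (C.ck j) z hz.1) hxN hode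
    ((g_ne C hg j hF Y z hz).frequently.filter_mono nhdsWithin_le_nhds)).trans ?_
  exact mul_le_mul_of_nonneg_right (Finset.single_le_sum (f := B) (fun y hy => hB0 y (ht y hy)) hx) (norm_nonneg _)

/-- the open set of the special point `j` -/
def UPs (C : Cov S Ra) {F : ℂ → EN M} (Y : NCLift X F) (j : Fin C.nP) (s' : ℝ) : Set ℂ := {z | z ∈ C.UP Y j ∧ C.pj Y j z ∈ ball (0 : ℂ × ℂ) s'}

/-- **The patch of a special point.** -/
theorem patch_PL (hX : Surface (coneE P)) (hW : LW P Ko mK jH Wf) (C : Cov S Ra) (j : Fin C.nP) {s' : ℝ} (hs : C.s j < s') (hs' : s' < C.r j)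
    {g : Fin C.nP → ℂ × ℂ → ℂ} (hg : PG C g) {F : ℂ → EN M} (hF : LCrv θ RD Ko Ra F) (Y : NCLift X F) (hne : WNe Wf Y) {Θ : ℂ → ℂ}
    (hΘ : IsTh S Wf mK Y Θ) {A : ℝ} {lm : ℂ → ℝ} (hl : Dens C Y A lm) {A' δ : ℝ} (hδ : 0 ≤ δ) {al be C₁ : ℝ}
    (hup : ∀ z ∈ C.UP Y j, wt Wf Y (C.ck j).1 z ≠ 0 → C.Jj j (C.pj Y j z) ≠ 0 → JD al be (C.pj Y j z) ≠ 0 ∧
      Real.log ‖C.Jj j (C.pj Y j z)‖ + 1 / mK * Real.log ‖wt Wf Y (C.ck j).1 z‖ + jH / mK * Real.log ‖F z‖ ≤ C₁ + Real.log ‖JD al be (C.pj Y j z)‖)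
    (hL : LocX (C.vj j) (fun x => g j (C.Q j + x)) (JD al be) {z | z ∈ C.UP Y j ∧ C.pj Y j z ∈ ball (0 : ℂ × ℂ) s'} (C.pj Y j) lm (C.s j) A' δ) :
    ∃ (c : ℝ) (l : ℂ → ℝ) (e : ℂ → ℝ) (η : ℂ → ℂ) (err : ℂ → ℝ),
      IsPatch F (Psi mK jH F Θ) (2 * jH / mK) l (UPs C Y j s') e η err (C.core Y j) c (δ * A) ∧ Continuous l ∧ (∀ z, lm z ≤ l z) ∧
        (∃ B : ℝ, ∀ R, 1 ≤ R → ∫ z, tau R z * l z ^ 2 ≤ B * (En F R + 1)) ∧
        ∀ z ∈ UPs C Y j s', z ∉ C.core Y j → e =ᶠ[𝓝 z] eP S (g j) Wf mK jH Y (C.ck j) := by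
  obtain ⟨C₂, ll, η, Φ, err, hC₂, l_cont, l_ge, l_en, η_diff, err_cont, Φ_ls, out, inn, dvn, upp, intg⟩ := hL
  obtain ⟨B, hB0, hB⟩ := asmPL_dd C hg j hs'
  obtain ⟨K, hK⟩ := hl.energy
  have hcrv := crv_vj C j hF.toWCrv Y
  have hUP : UPs C Y j s' ⊆ C.UP Y j := fun z hz => hz.1
  have hUo : IsOpen (UPs C Y j s') := by
    rw [isOpen_iff_mem_nhds]
    intro z hz
    filter_upwards [hcrv.isOpen.mem_nhds hz.1, (hcrv.an z hz.1).continuousAt.eventually_mem (isOpen_ball.mem_nhds hz.2)] with w h1 h2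
    exact ⟨h1, h2⟩
  have hDD : ∀ w, DDv (C.vj j) (fun x => g j (C.Q j + x)) (C.pj Y j) w = DDv (S.v (C.ck j)) (g j) (S.lf Y (C.ck j)) w := fun w =>
    asmPL_DDv (S.v (C.ck j)) (g j) (C.Q j) (S.lf Y (C.ck j)) w
  have hzt : ∀ w, ztv (C.vj j) (C.pj Y j) w = ztv (S.v (C.ck j)) (S.lf Y (C.ck j)) w := fun w =>
    asmPL_ztv (S.v (C.ck j)) (C.Q j) (S.lf Y (C.ck j)) w
  have hadd : ∀ w, C.Q j + C.pj Y j w = S.lf Y (C.ck j) w := fun w => add_sub_cancel _ _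
  have hl0 : ∀ z, 0 ≤ lm z := fun z => (Pool.Agent.MQ.lam_nonneg F z).trans (hl.le z)
  have hll0 : ∀ z, 0 ≤ ll z := fun z => (hl0 z).trans (l_ge z)
  have hEn : ∀ R, 1 ≤ R → 0 ≤ En F R := fun R hR => integral_nonneg fun z => mul_nonneg (Pool.Agent.H30M.tau_nonneg hR z) (sq_nonneg _)
  -- outside the core
  have hcore : ∀ z ∈ UPs C Y j s', z ∉ C.core Y j → ∀ᶠ w in 𝓝 z, w ∈ UPs C Y j s' ∧ C.pj Y j w ∉ ball (0 : ℂ × ℂ) (C.s j) := by
    intro z hz hzc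
    have h1 : C.pj Y j z ∉ closedBall (0 : ℂ × ℂ) (C.s j) := by
      intro h2
      refine hzc ⟨hz.1.1, ?_⟩
      rw [mem_closedBall, dist_eq_norm]
      rw [mem_closedBall_zero_iff] at h2
      exact h2
    filter_upwards [hUo.mem_nhds hz, (hcrv.an z hz.1).continuousAt.eventually_mem (isClosed_closedBall.isOpen_compl.mem_nhds h1)] with w h2 h3
    exact ⟨h2, fun h4 => h3 (ball_subset_closedBall h4)⟩
  -- the analytic equation
  have hga : ∀ z ∈ C.UP Y j, AnalyticAt ℂ (g j) (S.lf Y (C.ck j) z) := by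
    intro z hz
    by_cases h0 : S.lf Y (C.ck j) z = C.Q j
    · rw [h0]
      exact hg.an j
    · exact (hg.inv j _ (ball_subset_closedBall hz.2) h0).1
  -- the generic points
  have hgen : ∀ z ∈ UPs C Y j s', ∀ᶠ w in 𝓝[≠] z, w ∈ UPs C Y j s' ∧ ContDiffAt ℝ 2 Φ w ∧ ContDiffAt ℝ 2 (eP S (g j) Wf mK jH Y (C.ck j)) w ∧
      Δ (eP S (g j) Wf mK jH Y (C.ck j)) w = 2 * jH / mK * lam F w ^ 2 ∧
      gr (eP S (g j) Wf mK jH Y (C.ck j)) w + (starRingEnd ℂ) (DDv (S.v (C.ck j)) (g j) (S.lf Y (C.ck j)) w) = Psi mK jH F Θ w ∧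
      eP S (g j) Wf mK jH Y (C.ck j) w + Φ w ≤ C₂ + C₁ + Real.log (1 + ll w) := by
    intro z hz
    obtain ⟨c, hc⟩ := Φ_ls z hz
    filter_upwards [(hUo.eventually_mem hz).filter_mono nhdsWithin_le_nhds, hc.eventually,
      gr_eP hX hW hF Y hne hΘ hz.1.1 (hga z hz.1) ((g_ne C hg j hF.toRCrv Y z hz.1).frequently.filter_mono nhdsWithin_le_nhds),
      lfN_ne hF.toWCrv Y (C.ck j) z hz.1.1, g_ne C hg j hF.toRCrv Y z hz.1,
      hne (C.ck j).1 z (Om_sub hF.toWCrv Y (C.ck j) hz.1.1)] with w h1 h2 h3 h4 h5 h6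
    refine ⟨h1, h2, h3.1, h3.2.1, h3.2.2, ?_⟩
    have hJ : C.Jj j (C.pj Y j w) = jc (S.κ (C.ck j)) (S.lf Y (C.ck j) w) := by
      unfold Cov.Jj
      rw [hadd]
    obtain ⟨h7, h8⟩ := hup w h1.1 h6 (by rw [hJ]; exact h4.2.2.2.2)
    have h9 := upp w h1 h2 (by rw [hzt]; exact h4.2.2.2.1) (by simp only [hadd]; exact h5) h7
    simp only [hadd] at h9
    rw [hzt] at h9
    rw [hJ] at h8
    unfold eP
    linarith
  have hLS : ∀ z ∈ UPs C Y j s', ∃ c, LogSing (fun w => eP S (g j) Wf mK jH Y (C.ck j) w + Φ w) c z := by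
    intro z hz
    obtain ⟨c, hc⟩ := Φ_ls z hz
    obtain ⟨c', hc'⟩ := logSing_P hX hW C hg j hF Y hne z hz.1
    exact ⟨_, hc'.add hc⟩
  set c : ℝ := C₂ + B + |C₁| + δ * |K| with hc
  have hδK : 0 ≤ δ * |K| := mul_nonneg hδ (abs_nonneg _)
  have hC1 := abs_nonneg C₁
  have hC1' := le_abs_self C₁
  have hc1 : C₂ ≤ c := by rw [hc]; linarith
  have hc2 : B ≤ c := by rw [hc]; linarith
  have hc3 : C₂ + C₁ ≤ c := by rw [hc]; linarith
  refine ⟨c, ll, fun w => eP S (g j) Wf mK jH Y (C.ck j) w + Φ w, η, err, ⟨hUo, fun z hz => ?_, η_diff, fun z hz => ?_, fun z hz hzc => ?_,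
    core_closed C hF.toWCrv Y j, fun z hz => ?_, err_cont, fun z hz hzc => (out z hz (hcore z hz hzc).self_of_nhds.2).2.1, fun z hz he => ?_, fun R hR => ?_,
    fun z hz he => ?_⟩, l_cont, l_ge, ?_, fun z hz hzc => ?_⟩
  · -- the coefficient
    obtain ⟨c', hc'⟩ := hLS z hz
    refine ⟨c', ?_, hc'⟩
    have h1 : ∀ᶠ w in 𝓝[≠] z, Real.log (1 + ll w) < Real.log (1 + ll z) + 1 := by
      have h2 : ContinuousAt (fun w => Real.log (1 + ll w)) z :=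
        (continuous_const.add l_cont).continuousAt.log (by have := hll0 z; exact (by linarith : (0 : ℝ) < 1 + ll z).ne')
      exact (h2.eventually (gt_mem_nhds (by linarith))).filter_mono nhdsWithin_le_nhds
    refine logSing_nonneg (B := C₂ + C₁ + (Real.log (1 + ll z) + 1)) hc' ?_
    refine Eventually.frequently ?_
    filter_upwards [hgen z hz, h1] with w h2 h3
    linarith [h2.2.2.2.2.2]
  · -- the bound of the field
    by_cases hin : C.pj Y j z ∈ ball (0 : ℂ × ℂ) (C.s j)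
    · exact (inn z hz hin).trans (mul_le_mul_of_nonneg_right hc1 (hll0 z))
    · rw [(out z hz hin).1, RCLike.norm_conj, hDD]
      have h1 := hB F hF.toRCrv Y z hz.1 hin (ball_subset_closedBall hz.2)
      have h2 := (hl.pt j z hz.1.1 (ball_subset_closedBall hz.1.2)).trans (l_ge z)
      exact h1.trans (mul_le_mul hc2 h2 (norm_nonneg _) (hB0.trans hc2))
  · -- the common value
    have h1 : ∀ᶠ w in 𝓝 z, ∀ᶠ w' in 𝓝 w, eP S (g j) Wf mK jH Y (C.ck j) w' + Φ w' = eP S (g j) Wf mK jH Y (C.ck j) w' := by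
      refine Eventually.eventually_nhds ?_
      filter_upwards [hcore z hz hzc] with w hw
      rw [(out w hw.1 hw.2).2.2, add_zero]
    filter_upwards [hgen z hz, h1.filter_mono nhdsWithin_le_nhds, (hcore z hz hzc).filter_mono nhdsWithin_le_nhds] with w h2 h3 h4
    rw [(out w h4.1 h4.2).1, hDD, Pool.Agent.MQ.gr_congr h3]
    exact h2.2.2.2.2.1
  · -- the core is in the open set
    refine ⟨core_sub_UP C Y j hz, ?_⟩
    have h1 := hz.2
    rw [mem_closedBall, dist_eq_norm] at h1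
    rw [mem_ball_zero_iff]
    exact h1.trans_lt hs
  · -- the Laplacian
    refine lap_of_near (f := fun z => 2 * jH / mK * lam F z ^ 2) he (η_diff.contDiffAt (hUo.mem_nhds hz)) (err_cont.continuousAt (hUo.mem_nhds hz))
      (continuous_const.mul (hF.toWCrv.lam_cont.pow 2)).continuousAt ?_
    filter_upwards [hgen z hz] with w h2
    have h3 := dvn w h2.1 h2.2.1
    rw [Pool.Agent.H30M.lap_add h2.2.2.1 h2.2.1, h2.2.2.2.1]
    linarith
  · -- the integral of the error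
    refine (intg R hR).trans ?_
    have h1 : 0 ≤ ∫ z, ‖gr (tau R) z‖ * ll z := integral_nonneg fun z => mul_nonneg (norm_nonneg _) (hll0 z)
    have h2 := mul_le_mul_of_nonneg_left (hK R hR) hδ
    have h3 := mul_le_mul_of_nonneg_right hc1 h1
    have h4 := mul_le_mul_of_nonneg_left (le_abs_self K) hδ
    have h5 : C₂ + δ * K ≤ c := by rw [hc]; linarith
    have h6 : δ * (A * En F R + K) = δ * A * En F R + δ * K := by ring
    rw [h6] at h2
    linarith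
  · -- the upper bound
    have h1 : ContinuousAt (fun w => c + Real.log (1 + ll w)) z :=
      continuousAt_const.add ((continuous_const.add l_cont).continuousAt.log (by have := hll0 z; exact (by linarith : (0 : ℝ) < 1 + ll z).ne'))
    refine le_of_tendsto_of_tendsto (he.continuousAt.tendsto.mono_left nhdsWithin_le_nhds) (h1.tendsto.mono_left nhdsWithin_le_nhds)
      (f := fun w => eP S (g j) Wf mK jH Y (C.ck j) w + Φ w) (b := 𝓝[≠] z) ?_
    filter_upwards [hgen z hz] with w h2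
    linarith [h2.2.2.2.2.2]
  · -- the energy of the density
    refine ⟨|A'| * (|A| + |K|) + C₂, fun R hR => (l_en R hR).trans ?_⟩
    have h1 := hK R hR
    have h2 := hEn R hR
    have h3 : 0 ≤ ∫ z, tau R z * lm z ^ 2 := integral_nonneg fun z => mul_nonneg (Pool.Agent.H30M.tau_nonneg hR z) (sq_nonneg _)
    have h4 : ∫ z, tau R z * lm z ^ 2 ≤ (|A| + |K|) * (En F R + 1) := by
      have h5 := mul_le_mul_of_nonneg_right (le_abs_self A) h2
      have h6 : 0 ≤ |K| * En F R := mul_nonneg (abs_nonneg _) h2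
      have h7 := le_abs_self K
      have h8 := abs_nonneg A
      have h9 : (|A| + |K|) * (En F R + 1) = |A| * En F R + |K| * En F R + |A| + |K| := by ring
      rw [h9]
      linarith
    have h5 := mul_le_mul_of_nonneg_right (le_abs_self A') h3
    have h6 := mul_le_mul_of_nonneg_left h4 (abs_nonneg A')
    have h7 : C₂ ≤ C₂ * (En F R + 1) := le_mul_of_one_le_right hC₂ (by linarith)
    have h8 : (|A'| * (|A| + |K|) + C₂) * (En F R + 1) = |A'| * ((|A| + |K|) * (En F R + 1)) + C₂ * (En F R + 1) := by ring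
    rw [h8]
    linarith
  · filter_upwards [hcore z hz hzc] with w hw
    rw [(out w hw.1 hw.2).2.2, add_zero]

end Pool.Agent.MQK

end
end

section

/-!
# MQK EtaNL: the fields `η` of the boxes, for weights with poles

Port of `MQ3/EtaN`; the vectors and the curves are the same, the weight does not enter.
-/

set_option autoImplicit false

open Topology Filter Metric MvPolynomial MeasureTheory Laplacian

noncomputable section

namespace Pool.Agent.MQK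

open Pool.Agent.MQL

open Pool.Agent.H36.BP (EN fs)
open Pool.Agent.H17BP (Surface)
open Pool.Agent.H17EF (coneE)
open Pool.Agent.MQ (lam ztv dvg DDv gr dv)
open Pool.Agent.MQ3

variable {M : ℕ} {P : Ideal (MvPolynomial (Fin (M + 1)) ℂ)} {RD Ra : MvPolynomial (Fin (M + 1)) ℂ} {Ko : Set (EN M)} {m : ℕ} {X : NCModel P RD} {θ : WDiff (coneE P) m}
  {l : LF M} {S : Web X θ l} {Wf : EN M → EN M → EN M → ℂ} {mK jH : ℕ}

/-- the local fields near one regular chart point -/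
theorem EtaNL_loc (hX : Surface (coneE P)) (hW : LW P Ko mK jH Wf) (C : Cov S Ra) (k : Fin C.nN) (a : (S.V (C.b k)).ι) {q : ℂ × ℂ}
    (hq : q ∈ C.K k a) : ∃ N ∈ 𝓝 q, ∃ B : ℝ, ∀ F : ℂ → EN M, LCrv θ RD Ko Ra F → ∀ Y : NCLift X F, WNe Wf Y → ∀ Θ : ℂ → ℂ, IsTh S Wf mK Y Θ →
      ∀ z ∈ S.Om Y ⟨C.b k, a⟩, S.lf Y ⟨C.b k, a⟩ z ∈ N → EtaNPt Wf mK jH (C.H k) Y (C.b k) Θ (B * ‖deriv (S.lf Y ⟨C.b k, a⟩) z‖) z := by
  -- the equation of the invariant curve and the vector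
  obtain ⟨hD, hv, hH, g, hg, L, hL, hL0, hHL⟩ : q ∈ S.D ⟨C.b k, a⟩ ∧ S.v ⟨C.b k, a⟩ q ≠ 0 ∧ (∀ p w (c : ℂ), C.H k p (c • w) = c • C.H k p w) ∧
      ∃ g, InvAt S Ra ⟨C.b k, a⟩ q g ∧ ∃ L : ℂ × ℂ → EN 2, AnalyticAt ℂ L q ∧ L q ≠ 0 ∧
        ∀ᶠ x in 𝓝 q, C.H k (S.κ ⟨C.b k, a⟩ x) (fderiv ℂ (S.κ ⟨C.b k, a⟩) x (S.v ⟨C.b k, a⟩ x)) = (jc (S.κ ⟨C.b k, a⟩) x * g x) • L x := by
    rcases hu : C.u k with _ | u'
    · have hR := (C.K_A k a hu q hq).1
      obtain ⟨g, hg⟩ := exists_invAt (Or.inl hR)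
      have hH : C.H k = hA := by unfold Cov.H; rw [hu]; rfl
      rw [hH]
      exact ⟨hR.mem, hR.v_ne, EtaN_hA, g, hg, nloc_A hR hg⟩
    · obtain ⟨hR, hκ⟩ := C.K_B k a u' hu q hq
      obtain ⟨h1, h2, h3⟩ := C.N_B k u' hu
      obtain ⟨g, hg⟩ := exists_invAt hR
      have hH : C.H k = hB u' := by unfold Cov.H; rw [hu]; rfl
      rw [hH]
      have hD : q ∈ S.D ⟨C.b k, a⟩ := hR.elim (fun h => h.mem) fun h => h.mem
      have hv : S.v ⟨C.b k, a⟩ q ≠ 0 := hR.elim (fun h => h.v_ne) fun h => h.v_ne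
      exact ⟨hD, hv, EtaN_hB u', g, hg, nloc_B hR (EtaN_ne _ (h1 hκ)) (h2 _ hκ) (h3 _ hκ) hg⟩
  obtain ⟨N, hN, B, h⟩ := eta_loc (mK := mK) (jH := jH) hX hW hD hv hg hH hL hL0 hHL
  refine ⟨N, hN, B, fun F hF Y hne Θ hΘ z hz hzN => ?_⟩
  obtain ⟨η, ψ, h1, h2, -, -, h3⟩ := h F hF Y hne Θ hΘ z hz hzN
  exact ⟨η, h1, h2, h3.mono fun w hw => ⟨hw.1, hw.2.1, hw.2.2.1⟩⟩

/-- the local fields over a compact set of regular chart points -/
theorem EtaNL_cpt (hX : Surface (coneE P)) (hW : LW P Ko mK jH Wf) (C : Cov S Ra) (k : Fin C.nN) (a : (S.V (C.b k)).ι) :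
    ∃ B : ℝ, ∀ F : ℂ → EN M, LCrv θ RD Ko Ra F → ∀ Y : NCLift X F, WNe Wf Y → ∀ Θ : ℂ → ℂ, IsTh S Wf mK Y Θ →
      ∀ z ∈ S.Om Y ⟨C.b k, a⟩, S.lf Y ⟨C.b k, a⟩ z ∈ C.K k a → EtaNPt Wf mK jH (C.H k) Y (C.b k) Θ (B * ‖deriv (S.lf Y ⟨C.b k, a⟩) z‖) z := by
  refine (C.K_compact k a).induction_on (p := fun s => ∃ B : ℝ, ∀ F : ℂ → EN M, LCrv θ RD Ko Ra F → ∀ Y : NCLift X F, WNe Wf Y → ∀ Θ : ℂ → ℂ, IsTh S Wf mK Y Θ →
      ∀ z ∈ S.Om Y ⟨C.b k, a⟩, S.lf Y ⟨C.b k, a⟩ z ∈ s → EtaNPt Wf mK jH (C.H k) Y (C.b k) Θ (B * ‖deriv (S.lf Y ⟨C.b k, a⟩) z‖) z) ?_ ?_ ?_ ?_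
  · exact ⟨0, fun F _ Y _ Θ _ z _ h => h.elim⟩
  · rintro s t hst ⟨B, hB⟩
    exact ⟨B, fun F hF Y hne Θ hΘ z hz h => hB F hF Y hne Θ hΘ z hz (hst h)⟩
  · rintro s t ⟨B, hB⟩ ⟨B', hB'⟩
    refine ⟨max B B', fun F hF Y hne Θ hΘ z hz h => ?_⟩
    rcases h with h | h
    · obtain ⟨η, h1, h2, h3⟩ := hB F hF Y hne Θ hΘ z hz h
      exact ⟨η, h1, h2.trans (mul_le_mul_of_nonneg_right (le_max_left _ _) (norm_nonneg _)), h3⟩
    · obtain ⟨η, h1, h2, h3⟩ := hB' F hF Y hne Θ hΘ z hz h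
      exact ⟨η, h1, h2.trans (mul_le_mul_of_nonneg_right (le_max_right _ _) (norm_nonneg _)), h3⟩
  · intro q hq
    obtain ⟨N, hN, h⟩ := EtaNL_loc (mK := mK) (jH := jH) hX hW C k a hq
    exact ⟨N, mem_nhdsWithin_of_mem_nhds hN, h⟩

theorem exists_etaN (hX : Surface (coneE P)) (hW : LW P Ko mK jH Wf) (C : Cov S Ra) (k : Fin C.nN) :
    ∃ B : ℝ, ∀ F : ℂ → EN M, LCrv θ RD Ko Ra F → ∀ Y : NCLift X F, WNe Wf Y → ∀ Θ : ℂ → ℂ, IsTh S Wf mK Y Θ →
      ∀ (A : ℝ) (lm : ℂ → ℝ), Dens C Y A lm → ∃ η : ℂ → ℂ, ContDiffOn ℝ 1 η (C.UN Y k) ∧ (∀ z ∈ C.UN Y k, ‖η z‖ ≤ B * lm z) ∧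
        ∀ z ∈ C.UN Y k, ∀ᶠ w in 𝓝[≠] z, η w + gr (eN (C.H k) Wf mK jH Y (C.b k)) w = (starRingEnd ℂ) (Θ w) + gr (fun w => jH / mK * Real.log ‖F w‖) w ∧
          ContDiffAt ℝ 2 (eN (C.H k) Wf mK jH Y (C.b k)) w ∧ Δ (eN (C.H k) Wf mK jH Y (C.b k)) w + dv η w = 2 * jH / mK * lam F w ^ 2 := by
  choose B hB using fun a => EtaNL_cpt (mK := mK) (jH := jH) hX hW C k a
  refine ⟨∑ a, |B a|, fun F hF Y hne Θ hΘ A lm hl => ?_⟩
  -- the local field at a point of the open set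
  have hloc : ∀ z ∈ C.UN Y k, ∃ η : ℂ → ℂ, ContDiffAt ℝ 1 η z ∧ ‖η z‖ ≤ (∑ a, |B a|) * lm z ∧ ∀ᶠ w in 𝓝[≠] z,
      ContDiffAt ℝ 2 (eN (C.H k) Wf mK jH Y (C.b k)) w ∧ η w = (starRingEnd ℂ) (Θ w) - gr (eH (C.H k) Wf mK Y (C.b k)) w ∧
        Δ (eN (C.H k) Wf mK jH Y (C.b k)) w + dv η w = 2 * jH / mK * lam F w ^ 2 := by
    intro z hz
    obtain ⟨hz1, hz2, hz3⟩ := hz
    obtain ⟨a, ha1, ha2⟩ := C.lift F hF.toRCrv.toWCrv Y k z hz1 (ball_subset_closedBall hz2) fun j hj hjb => hz3 j ⟨hj, ball_subset_closedBall hjb⟩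
    obtain ⟨η, h1, h2, h3⟩ := hB a F hF Y hne Θ hΘ z ha1 ha2
    refine ⟨η, h1, h2.trans ?_, h3⟩
    have h4 : ‖deriv (S.lf Y ⟨C.b k, a⟩) z‖ ≤ lm z := hl.chart k a z ha1 ha2
    have h5 : |B a| ≤ ∑ a, |B a| := Finset.single_le_sum (f := fun a => |B a|) (fun _ _ => abs_nonneg _) (Finset.mem_univ a)
    calc B a * ‖deriv (S.lf Y ⟨C.b k, a⟩) z‖ ≤ |B a| * ‖deriv (S.lf Y ⟨C.b k, a⟩) z‖ := mul_le_mul_of_nonneg_right (le_abs_self _) (norm_nonneg _)
      _ ≤ (∑ a, |B a|) * lm z := mul_le_mul h5 h4 (norm_nonneg _) ((abs_nonneg _).trans h5)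
  refine ⟨fun w => limUnder (𝓝[≠] w) fun w => (starRingEnd ℂ) (Θ w) - gr (eH (C.H k) Wf mK Y (C.b k)) w, fun z hz => ?_, fun z hz => ?_, fun z hz => ?_⟩
  · obtain ⟨η, h1, -, h3⟩ := hloc z hz
    exact (h1.congr_of_eventuallyEq (EtaN_lim h1 (h3.mono fun w hw => hw.2.1))).contDiffWithinAt
  · obtain ⟨η, h1, h2, h3⟩ := hloc z hz
    have h4 := (EtaN_lim h1 (h3.mono fun w hw => hw.2.1)).self_of_nhds
    simp only at h4 ⊢
    rw [h4]
    exact h2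
  · obtain ⟨η, h1, -, h3⟩ := hloc z hz
    have h4 := EtaN_lim h1 (h3.mono fun w hw => hw.2.1)
    have hF0 : ∀ w, F w ≠ 0 := fun w h0 => hX.zero (by have := hF.mem w; rwa [h0] at this)
    filter_upwards [h3, h4.eventuallyEq_nhds.filter_mono nhdsWithin_le_nhds] with w h5 h6
    obtain ⟨h7, h8, h9⟩ := h5
    have h10 := h6.self_of_nhds
    have h11 : ContDiffAt ℝ 2 (fun w => (jH / mK : ℝ) * Real.log ‖F w‖) w :=
      contDiffAt_const.mul (Pool.Agent.MQ.contDiffAt_log_norm (hF.diff.analyticAt w) (hF0 w))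
    have h12 : DifferentiableAt ℝ (eH (C.H k) Wf mK Y (C.b k)) w := by
      have h13 : eH (C.H k) Wf mK Y (C.b k) = fun w => eN (C.H k) Wf mK jH Y (C.b k) w - (jH / mK : ℝ) * Real.log ‖F w‖ := by
        funext w
        unfold eN
        ring
      rw [h13]
      exact (h7.differentiableAt (by norm_num)).sub (h11.differentiableAt (by norm_num))
    have h14 : gr (eN (C.H k) Wf mK jH Y (C.b k)) w = gr (eH (C.H k) Wf mK Y (C.b k)) w + gr (fun w => (jH / mK : ℝ) * Real.log ‖F w‖) w :=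
      Pool.Agent.MQ.gr_add h12 (h11.differentiableAt (by norm_num))
    refine ⟨?_, h7, ?_⟩
    · simp only at h10 ⊢
      rw [h10, h8, h14]
      ring
    · rw [Pool.Agent.MQ.dv_congr h6]
      exact h9

end Pool.Agent.MQK

end
end

section

/-!
# MQK AsmNL: the pack of a curve which avoids `D` from the local packages
-/

set_option autoImplicit false

open Topology Filter Metric MvPolynomial MeasureTheory Laplacian

noncomputable section

namespace Pool.Agent.MQK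

open Pool.Agent.MQL

open Pool.Agent.H36.BP (EN fs)
open Pool.Agent.H17BP (Surface IsForm)
open Pool.Agent.H17EF (projVar coneE)
open Pool.Agent.H30M (tau LogSing)
open Pool.Agent.MQ (lam En gr dv Pack)
open Pool.Agent.MQ2 (LocX)
open Pool.Agent.MQ3

variable {M : ℕ} {P : Ideal (MvPolynomial (Fin (M + 1)) ℂ)} {RD Ra : MvPolynomial (Fin (M + 1)) ℂ} {Ko : Set (EN M)} {m : ℕ} {X : NCModel P RD} {θ : WDiff (coneE P) m}
  {l : LF M} {S : Web X θ l} {Wf : EN M → EN M → EN M → ℂ} {mK jH : ℕ}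

/-- the patch of a box -/
theorem isPatch_NL (hX : Surface (coneE P)) (hW : LW P Ko mK jH Wf) (C : Cov S Ra) {F : ℂ → EN M} (hF : LCrv θ RD Ko Ra F) (Y : NCLift X F)
    (hne : WNe Wf Y) {Θ : ℂ → ℂ} (hΘ : IsTh S Wf mK Y Θ) {A B : ℝ} {lm : ℂ → ℝ} (hl : DensL C Y Wf mK jH A B lm) (k : Fin C.nN) :
    ∃ (c : ℝ) (η : ℂ → ℂ), 0 ≤ c ∧
      IsPatch F (Psi mK jH F Θ) (2 * jH / mK) lm (C.UN Y k) (eN (C.H k) Wf mK jH Y (C.b k)) η (fun _ => 0) ∅ c 0 := by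
  obtain ⟨B₁, h₁⟩ := Pool.Agent.MQK.exists_etaN hX hW C k
  obtain ⟨η, h2, h3, h4⟩ := h₁ F hF Y hne Θ hΘ A lm hl.toDens
  have hO := UN_open C hF.toWCrv Y k
  have hlm0 : ∀ z, 0 ≤ lm z := fun z => (Pool.Agent.MQ.lam_nonneg F z).trans (hl.le z)
  refine ⟨|B₁| + |B|, η, by positivity, ⟨hO, fun z hz => Pool.Agent.MQK.logSing_N hX hW C k hF Y hne z hz.1 hz.2.1, h2, fun z hz => ?_, fun z hz _ => ?_,
    isClosed_empty, Set.empty_subset _, continuousOn_const, fun _ _ _ => rfl, fun z hz he => ?_, fun R hR => ?_, fun z hz he => ?_⟩⟩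
  · refine (h3 z hz).trans (mul_le_mul_of_nonneg_right ?_ (hlm0 z))
    linarith [le_abs_self B₁, abs_nonneg B]
  · filter_upwards [h4 z hz] with w hw
    rw [add_comm]
    exact hw.1
  · refine lap_of_near (e := eN (C.H k) Wf mK jH Y (C.b k)) (f := fun z => 2 * jH / mK * lam F z ^ 2) he (h2.contDiffAt (hO.mem_nhds hz))
      continuousAt_const (continuous_const.mul (hF.toWCrv.lam_cont.pow 2)).continuousAt ?_
    filter_upwards [h4 z hz] with w hw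
    rw [hw.2.2, add_zero]
  · simp only [mul_zero, integral_zero, zero_mul, zero_add]
    have h7 : 0 ≤ ∫ z, ‖gr (tau R) z‖ * lm z := integral_nonneg fun z => mul_nonneg (norm_nonneg _) (hlm0 z)
    positivity
  · have := hl.up k z hz.1 hz.2.1 he
    linarith [le_abs_self B, abs_nonneg B₁]

/-- **The pack of a curve which avoids `D` from the local packages.** -/
theorem pack_webL (hX : Surface (coneE P)) (hW : LW P Ko mK jH Wf) (C : Cov S Ra) : ∃ s' : Fin C.nP → ℝ, (∀ j, C.s j < s' j ∧ s' j < C.r j) ∧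
    ∀ g : Fin C.nP → ℂ × ℂ → ℂ, PG C g → ∀ F : ℂ → EN M, LCrv θ RD Ko Ra F → ∀ Y : NCLift X F, WNe Wf Y →
      ∀ A B : ℝ, 0 ≤ A → ∀ lm : ℂ → ℝ, DensL C Y Wf mK jH A B lm → ∀ A' δ : ℝ, 0 ≤ δ → ∀ (al be : Fin C.nP → ℝ) (C₁ : ℝ),
        (∀ j, ∀ z ∈ C.UP Y j, wt Wf Y (C.ck j).1 z ≠ 0 → C.Jj j (C.pj Y j z) ≠ 0 → JD (al j) (be j) (C.pj Y j z) ≠ 0 ∧
          Real.log ‖C.Jj j (C.pj Y j z)‖ + 1 / mK * Real.log ‖wt Wf Y (C.ck j).1 z‖ + jH / mK * Real.log ‖F z‖ ≤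
            C₁ + Real.log ‖JD (al j) (be j) (C.pj Y j z)‖) →
        (∀ j, LocX (C.vj j) (fun x => g j (C.Q j + x)) (JD (al j) (be j)) {z | z ∈ C.UP Y j ∧ C.pj Y j z ∈ ball (0 : ℂ × ℂ) (s' j)} (C.pj Y j) lm (C.s j) A' δ) →
        ∃ L : ℂ → ℝ, Continuous L ∧ (∀ z, lam F z ≤ L z) ∧ (∃ B : ℝ, ∀ R, 1 ≤ R → ∫ z, tau R z * L z ^ 2 ≤ B * (En F R + 1)) ∧
          Pack F L (2 * jH / mK) (C.nP * (δ * A)) := by
  classical
  obtain ⟨B₀, r', hr', hcut⟩ := exists_cut C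
  have hs' : ∀ j, C.s j < (r' j + C.r j) / 2 ∧ (r' j + C.r j) / 2 < C.r j := fun j => by
    have h1 := hr' j
    constructor <;> linarith [h1.1, h1.2]
  refine ⟨fun j => (r' j + C.r j) / 2, hs', fun g hg F hF Y hne A B hA lm hl A' δ hδ al be C₁ hJ hL => ?_⟩
  obtain ⟨Θ, hΘ⟩ := exists_theta hX hW hF Y hne
  choose c ll e η err hP hlc hll hel heP using fun j => patch_PL hX hW C j (hs' j).1 (hs' j).2 hg hF Y hne hΘ hl.toDens hδ (hJ j) (hL j)
  choose c' η' hc' hN using fun k => isPatch_NL hX hW C hF Y hne hΘ hl k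
  obtain ⟨χ, x1, x2, x3, x4, x5, x6, x7⟩ := hcut F hF.toWCrv Y A lm hl.toDens
  set US : Fin C.nP → Set ℂ := fun j => {z | z ∈ C.UP Y j ∧ C.pj Y j z ∈ ball (0 : ℂ × ℂ) ((r' j + C.r j) / 2)} with hUS
  have hsub : ∀ j, tsupport (χ (Sum.inl j)) ⊆ US j := fun j z hz => by
    refine ⟨x3 (Sum.inl j) hz, ?_⟩
    have h1 := x6 j z hz
    rw [mem_closedBall, dist_eq_norm] at h1
    rw [mem_ball_zero_iff]
    have h2 := (hr' j).2
    exact lt_of_le_of_lt h1 (by linarith)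
  have hcore : ∀ j, C.core Y j ⊆ US j := fun j z hz => by
    refine ⟨core_sub_UP C Y j hz, ?_⟩
    have h1 := hz.2
    rw [mem_closedBall, dist_eq_norm] at h1
    rw [mem_ball_zero_iff]
    exact lt_of_le_of_lt h1 (hs' j).1
  have hen : ∃ B : ℝ, ∀ R, 1 ≤ R → ∫ z, tau R z * lm z ^ 2 ≤ B * (En F R + 1) := by
    obtain ⟨K, hK⟩ := hl.energy
    refine ⟨A + |K|, fun R hR => (hK R hR).trans ?_⟩
    have h1 : 0 ≤ En F R := integral_nonneg fun z => mul_nonneg (Pool.Agent.H30M.tau_nonneg hR z) (sq_nonneg _)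
    have h2 : 0 ≤ |K| * En F R := mul_nonneg (abs_nonneg _) h1
    have h3 := le_abs_self K
    nlinarith
  have hPP : ∀ {a b : Fin C.nP}, a ≠ b → ∀ {z : ℂ}, z ∈ C.UP Y a → z ∉ C.UP Y b := fun {a b} hab {z} hz hz' =>
    C.disj F hF.toWCrv Y a b hab z hz.1 (ball_subset_closedBall hz.2) hz'.1 (ball_subset_closedBall hz'.2)
  have hPN : ∀ (a : Fin C.nP) (k : Fin C.nN), ∃ B' : ℝ, ∀ z ∈ US a, z ∈ C.UN Y k → S.lf Y (C.ck a) z ∈ closedBall (C.Q a) (r' a) →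
      ContDiffAt ℝ 2 (e a) z → ContDiffAt ℝ 2 (eN (C.H k) Wf mK jH Y (C.b k)) z → |e a z - eN (C.H k) Wf mK jH Y (C.b k) z| ≤ B' := fun a k => by
    obtain ⟨B', hB'⟩ := Pool.Agent.MQK.bd_PN hX hW C hg a k (hr' a).2
    refine ⟨B', fun z hz hz' hr he he' => ?_⟩
    have h1 := heP a z hz (hz'.2.2 a)
    rw [h1.self_of_nhds]
    exact hB' F hF Y hne z hz.1 hz' hr (he.congr_of_eventuallyEq h1.symm) he'
  have hsup : ∀ i z, χ i z = 1 → z ∈ tsupport (χ i) := fun i z h7 => subset_tsupport _ (by rw [Function.mem_support, h7]; exact one_ne_zero)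
  have hD : ∑ i : Fin C.nP ⊕ Fin C.nN, (Sum.elim (fun _ => δ * A) (fun _ => 0) : Fin C.nP ⊕ Fin C.nN → ℝ) i = C.nP * (δ * A) := by
    rw [Fintype.sum_sum_type]
    simp
  rw [← hD]
  refine pack_of_isPatch (Ψ := Psi mK jH F Θ) (lm := lm) (U := Sum.elim US (C.UN Y)) (K := Sum.elim (C.core Y) fun _ => ∅) (l := Sum.elim ll fun _ => lm)
    (c := Sum.elim c c') (e := Sum.elim e fun k => eN (C.H k) Wf mK jH Y (C.b k)) (η := Sum.elim η η') (err := Sum.elim err fun _ _ => 0)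
    hF.diff hF.toWCrv.F_ne hF.ord hl.cont hl.le hen ?_ ?_ ?_ ?_ ?_ ?_ x1 x2 ?_ x4 x5 ?_
  · rintro (j | k)
    · exact hlc j
    · exact hl.cont
  · rintro (j | k) z
    · exact hll j z
    · exact le_rfl
  · rintro (j | k)
    · exact hel j
    · exact hen
  · rintro (j | k)
    · exact mul_nonneg hδ hA
    · exact le_rfl
  · rintro (j | k)
    · exact hP j
    · exact hN k
  · rintro (a | k) (b | k') hij z hz
    · exact fun h => hPP (fun h => hij (by rw [h])) (core_sub_UP C Y a hz) h.1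
    · exact fun h => h.2.2 a hz
    · exact absurd hz (Set.notMem_empty z)
    · exact absurd hz (Set.notMem_empty z)
  · rintro (a | k)
    · exact hsub a
    · exact x3 (Sum.inr k)
  · rintro (a | k) (b | k')
    · by_cases hab : a = b
      · subst hab
        exact ⟨0, fun z _ _ _ _ => by simp⟩
      · exact ⟨0, fun z h1 h2 _ _ => absurd (x3 (Sum.inl b) h2) (hPP hab (x3 (Sum.inl a) (hsup _ z h1)))⟩
    · obtain ⟨B', hB'⟩ := hPN a k'
      exact ⟨B', fun z h1 h2 h3 h4 => hB' z (hsub a (hsup _ z h1)) (x3 (Sum.inr k') h2) (x6 a z (hsup _ z h1)) h3 h4⟩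
    · obtain ⟨B', hB'⟩ := hPN b k
      refine ⟨B', fun z h1 h2 h3 h4 => ?_⟩
      have h5 := hB' z (hsub b h2) (x3 (Sum.inr k) (hsup _ z h1)) (x6 b z h2) h4 h3
      rw [abs_sub_comm] at h5
      exact h5
    · obtain ⟨B', hB'⟩ := Pool.Agent.MQK.bd_NN hX hW C k k'
      exact ⟨B', fun z h1 h2 h3 h4 => hB' F hF Y hne z (x3 (Sum.inr k) (hsup _ z h1)) (x3 (Sum.inr k') h2) h3 h4⟩

end Pool.Agent.MQK

end
end
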