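import Pool.Agent.H43.TL2.M111
import Pool.Agent.H43.TL2.M124
import Pool.Agent.H43.TL2.M44
import Pool.Agent.H43.TL2.M76
import Pool.Agent.H43.TL2.M89

/-! The parts of this file: SDA.MetN, SDA.EN. -/

section

/-!
# SDA MetN (K1): the metric theorem of `H14/PP/Metric.lean` with the field `near`

Where `rho` is small the metric has no curvature error: the far piece is not attained there and the near pieces have none.
-/

open Topology Filter Metric

namespace Pool.Agent.SDA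

open Pool.Agent.H36.BP Pool.Agent.H14.PP

variable {N : ℕ} {W : Type*} [NormedAddCommGroup W] [InnerProductSpace ℂ W]
  {X K T : Set (EN N)} {m j : ℕ} {Q : EN N → W} {D : ℕ}

/-- the same for an arbitrary open part (`BPB.MD`: no condition at bubbling points) -/
theorem exists_metricB_near (hX : IsCone X) (hK : IsOpenPart X K) (hKT : ∀ x ∈ X, x ∉ K → x ∈ T)
    (hQ : IsEq X T Q D) (hT : IsNodal X K T) (hm : 1 ≤ m) (hj : 1 ≤ j) (Ω : Form K m j)
    (hΩ : Ω.NoZeroOff T) (hΩ' : Ω.PoleBound X)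
    (hur : ∀ (l : Filter ℕ), l.NeBot → ∀ (F : ℕ → ℂ → EN N) (H : ℂ → EN N) (z₀ : ℂ)
      (s : ℝ), 0 < s → (∀ᶠ n in l, Curve K (Metric.ball z₀ s) (F n)) →
      DifferentiableOn ℂ H (Metric.ball z₀ s) →
      TendstoLocallyUniformlyOn F H l (Metric.ball z₀ s) → H z₀ ≠ 0 →
      H z₀ ∉ K → ∀ᶠ z in 𝓝 z₀, H z ∉ K) :
    ∃ (M' : ℕ) (c₀ C : ℝ) (G : EN N → EN N → ℝ), Pool.Agent.H36.BPB.MD K (K ∩ T) G (rho Q D) M' c₀ C ∧
      ∃ δ₁ : ℝ, 0 < δ₁ ∧ ∀ (F : ℂ → EN N) (z₀ : ℂ), AnalyticAt ℂ F z₀ → (∀ᶠ z in 𝓝 z₀, F z ∈ K) → 0 < mt G F z₀ →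
        rho Q D (F z₀) < δ₁ → Sub (fun z => mt G F z * ‖F z‖ ^ (-c₀)) z₀ 0 := by
  classical
  obtain ⟨n, χ, nd, d, hty, hdt, hdn, δ₀, hδ₀, hcov⟩ := exists_atlas hX hQ hT
  have hTX : T ⊆ X := fun x hx => ((hQ.mem_iff x).mp hx).1
  have hcovT : ∀ x ∈ T, ∃ i, x ∈ (χ i).U ∧ ‖(χ i).q x‖ < 1 / 2 := by
    intro x hx
    refine hcov x (hTX hx) ?_
    rw [(rho_eq_zero_iff (hX.ne_zero (hTX hx))).mpr ((hQ.mem_iff x).mp hx).2]
    exact hδ₀.le
  obtain ⟨CT, rT, hCT, hrT, htr⟩ :=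
    exists_transition hX (fun x hx c hc => hQ.smul_mem hX hx hc) χ nd hty hcovT
  choose CEs hCEs1 hCEs2 hCEs3 using fun i => (χ i).exists_fs_bound hX
  obtain ⟨CE, hCE1, hCE⟩ := exists_ub CEs
  have hCE0 : 0 < CE := by linarith
  have hfs1 : ∀ i, ∀ x ∈ X, x ∈ (χ i).U → ‖(χ i).q x‖ ≤ 1 → ∀ v,
      ‖fderiv ℂ (χ i).q x v‖ ≤ CE * fs x v := fun i x hx hU hq v =>
    (hCEs2 i x hx hU hq v).trans (mul_le_mul_of_nonneg_right (hCE i) (fs_nonneg x v))
  have hfs2 : ∀ i, ∀ (F : ℂ → EN N) (z₀ : ℂ), CurveAt X F z₀ → F z₀ ∈ (χ i).U →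
      ‖(χ i).q (F z₀)‖ ≤ 1 →
        fs (F z₀) (deriv F z₀) ≤ CE * ‖deriv (fun z => (χ i).q (F z)) z₀‖ :=
    fun i F z₀ hF hU hq => (hCEs3 i F z₀ hF hU hq).trans
      (mul_le_mul_of_nonneg_right (hCE i) (norm_nonneg _))
  have hm0 : (0 : ℝ) < m := by exact_mod_cast hm
  have hj0 : (0 : ℝ) < j := by exact_mod_cast hj
  set c₀ : ℝ := (j : ℝ) / m / 2 with hc₀
  have hc₀pos : 0 < c₀ := by positivity
  obtain ⟨P, hPε, hPκ, hPD, hPC⟩ := exists_params (C := CT) (ε₁ := c₀ / (16 * CE ^ 2))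
    (κ₁ := 1 / (2 * m)) hCT (by positivity) (by positivity)
  have hκm : P.κ < 1 / (m : ℝ) := by
    refine hPκ.trans_lt ?_
    apply one_div_lt_one_div_of_lt hm0
    linarith
  have hM0 : 0 ≤ P.M := by
    have := hPC.M_ge
    linarith
  obtain ⟨r₁, hr₁, hdom⟩ := near_dom hX hK hm Ω χ nd hCT hrT htr hPD
  obtain ⟨r₂, hr₂, -, hconv⟩ := conv_num hPC
  choose δs hδs hδs2 using fun i => small_of_rho hX hQ (χ i) (hty i) (lt_min hr₁ hr₂)
  obtain ⟨δ₂, hδ₂, hδ₂1, hδ₂s⟩ := exists_lb δs hδs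
  set δ : ℝ := min δ₂ δ₀ with hδdef
  have hδ : 0 < δ := lt_min hδ₂ hδ₀
  have hδ1 : δ ≤ 1 := (min_le_left _ _).trans hδ₂1
  have hsm : ∀ i, ∀ p ∈ closedBall (0 : ℂ × ℂ) 1, rho Q D ((χ i).σ p) ≤ δ →
      small (nd i) p ≤ min r₁ r₂ := fun i p hp h =>
    hδs2 i p hp ((h.trans (min_le_left _ _)).trans (hδ₂s i))
  obtain ⟨CN, hCN, hup⟩ := near_fs_upper (P := P) hX hK hQ hm hΩ' hPC hty hdt hdn hfs1
  obtain ⟨M₀, c, hc, hlow⟩ := near_fs_lower hX hK hKT hQ hm hΩ hΩ' hPC hty hdt hdn hfs2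
  set M' : ℕ := M₀ + 1 with hM'
  have hM'1 : 1 ≤ M' := by omega
  set c₁ : ℝ := δ ^ (M' + 2) / (2 * CN) with hc₁
  have hc₁pos : 0 < c₁ := by positivity
  set δ₁ : ℝ := min δ (c₁ * c) with hδ₁
  have hδ₁pos : 0 < δ₁ := lt_min hδ (by positivity)
  set CC : ℝ := (M' * D + 2 + c₀) / (2 * δ₁ ^ (2 * M')) with hCC
  have hCC0 : 0 ≤ CC := by positivity
  have key : ∀ (F : ℂ → EN N) (z₀ : ℂ), AnalyticAt ℂ F z₀ → (∀ᶠ z in 𝓝 z₀, F z ∈ K) →
      0 < mt (GG Ω χ nd P Q D M' δ c₁) F z₀ →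
      (δ₁ ≤ rho Q D (F z₀) ∧ Sub (fun z => mt (GG Ω χ nd P Q D M' δ c₁) F z * ‖F z‖ ^ (-c₀)) z₀
        (-(CC * mt (GG Ω χ nd P Q D M' δ c₁) F z₀ ^ 2))) ∨
      Sub (fun z => mt (GG Ω χ nd P Q D M' δ c₁) F z * ‖F z‖ ^ (-c₀)) z₀ 0 := by
    intro F z₀ hF hev hpos
    have hCK : CurveAt K F z₀ := ⟨hF, hev⟩
    have hCX : CurveAt X F z₀ := hCK.mono hK.subset
    set G := GG Ω χ nd P Q D M' δ c₁ with hG
    obtain ⟨k, hk⟩ := exists_GG_eq (Ω := Ω) (χ := χ) (nd := nd) (P := P) (Q := Q) (D := D)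
      (M' := M') (δ := δ) (c₁ := c₁) (F z₀) (deriv F z₀)
    have hGz : mt G F z₀ = GG Ω χ nd P Q D M' δ c₁ (F z₀) (deriv F z₀) := rfl
    have hle : ∀ k z, pieceG Ω χ nd P Q D M' δ c₁ k (F z) (deriv F z) ≤ mt G F z :=
      fun k z => pieceG_le_GG k _ _
    have hrc : ContinuousAt (fun z => rho Q D (F z)) z₀ :=
      ContinuousAt.comp (g := rho Q D) (continuousAt_rho hQ.analytic (hX.ne_zero hCX.mem))
        hF.continuousAt
    match k, hk with
    | none, hk =>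
      have hk' : mt G F z₀ = rho Q D (F z₀) ^ M' * fs (F z₀) (deriv F z₀) := hGz.trans hk
      have hfs0 := fs_nonneg (F z₀) (deriv F z₀)
      have hρ0 := rho_nonneg Q D (F z₀)
      have hfspos : 0 < fs (F z₀) (deriv F z₀) := by
        rcases hfs0.lt_or_eq with h | h
        · exact h
        · rw [hk', ← h, mul_zero] at hpos
          exact absurd hpos (lt_irrefl 0)
      have hρpos : 0 < rho Q D (F z₀) := by
        rcases hρ0.lt_or_eq with h | h
        · exact h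
        · rw [hk', ← h, zero_pow (by omega), zero_mul] at hpos
          exact absurd hpos (lt_irrefl 0)
      have hρδ : δ₁ ≤ rho Q D (F z₀) := by
        by_contra hlt
        push Not at hlt
        have h1 : rho Q D (F z₀) ≤ δ := hlt.le.trans (min_le_left _ _)
        obtain ⟨i, hU, hq⟩ := hcov _ hCX.mem (h1.trans (min_le_right _ _))
        have h2 := hlow δ hδ1 i F z₀ hCK hU (by linarith) h1
        have h3 := hle (some i) z₀
        have h4 : pieceG Ω χ nd P Q D M' δ c₁ (some i) (F z₀) (deriv F z₀) =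
          c₁ * nearG Ω χ nd P Q D δ i (F z₀) (deriv F z₀) := rfl
        have h5 : rho Q D (F z₀) < c₁ * c := hlt.trans_le (min_le_right _ _)
        have h6 : rho Q D (F z₀) ^ M' * fs (F z₀) (deriv F z₀) <
            c₁ * (c * rho Q D (F z₀) ^ M₀ * fs (F z₀) (deriv F z₀)) := by
          have h7 : 0 < rho Q D (F z₀) ^ M₀ * fs (F z₀) (deriv F z₀) := by positivity
          calc rho Q D (F z₀) ^ M' * fs (F z₀) (deriv F z₀)
              = rho Q D (F z₀) * (rho Q D (F z₀) ^ M₀ * fs (F z₀) (deriv F z₀)) := by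
                rw [hM', pow_succ]
                ring
            _ < (c₁ * c) * (rho Q D (F z₀) ^ M₀ * fs (F z₀) (deriv F z₀)) :=
                mul_lt_mul_of_pos_right h5 h7
            _ = c₁ * (c * rho Q D (F z₀) ^ M₀ * fs (F z₀) (deriv F z₀)) := by ring
        have h8 : c₁ * (c * rho Q D (F z₀) ^ M₀ * fs (F z₀) (deriv F z₀)) ≤
            c₁ * nearG Ω χ nd P Q D δ i (F z₀) (deriv F z₀) :=
          mul_le_mul_of_nonneg_left h2 hc₁pos.le
        rw [h4, hk'] at h3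
        linarith
      have hs := sub_far (M' := M') hX hQ.analytic hCX hρpos hfspos hc₀pos.le
      left
      refine ⟨hρδ, (hs.mono ?_ ?_).anti ?_⟩
      · rw [hk']
      · filter_upwards with z
        exact mul_le_mul_of_nonneg_right (hle none z) (Real.rpow_nonneg (norm_nonneg _) _)
      · rw [neg_le_neg_iff, hk', hCC]
        have h9 : δ₁ ^ (2 * M') ≤ rho Q D (F z₀) ^ (2 * M') :=
          pow_le_pow_left₀ hδ₁pos.le hρδ _
        have h10 : 0 < δ₁ ^ (2 * M') := by positivity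
        have h11 : 0 ≤ (M' * D + 2 + c₀ : ℝ) := by positivity
        rw [div_mul_eq_mul_div, le_div_iff₀ (by positivity), mul_pow, ← pow_mul, mul_comm M' 2]
        have h12 : 0 ≤ (M' * D + 2 + c₀ : ℝ) * fs (F z₀) (deriv F z₀) ^ 2 := by positivity
        nlinarith [mul_le_mul_of_nonneg_left h9 h12]
    | some i, hk =>
      have hk' : mt G F z₀ = c₁ * nearG Ω χ nd P Q D δ i (F z₀) (deriv F z₀) := hGz.trans hk
      have hnpos : 0 < nearG Ω χ nd P Q D δ i (F z₀) (deriv F z₀) := by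
        rw [hk'] at hpos
        exact (mul_pos_iff_of_pos_left hc₁pos).mp hpos
      obtain ⟨h1, h2, h3, h4⟩ := mem_of_nearG_pos hnpos
      -- not at the boundary of the chart
      have h3' : ‖(χ i).q (F z₀)‖ < 1 := by
        refine lt_of_le_of_ne h3 fun h => ?_
        obtain ⟨k, hk2⟩ := near_boundary hX hK hQ hdom
          (fun i p hp h => (hsm i p hp h).trans (min_le_left _ _)) hCK hnpos h
        have h5 := hle (some k) z₀
        have h6 : pieceG Ω χ nd P Q D M' δ c₁ (some k) (F z₀) (deriv F z₀) =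
          c₁ * nearG Ω χ nd P Q D δ k (F z₀) (deriv F z₀) := rfl
        rw [h6, hk'] at h5
        have h7 := mul_lt_mul_of_pos_left hk2 hc₁pos
        linarith
      -- `rho < δ`
      have h5 := hup δ i (F z₀) hCK.mem (deriv F z₀)
      have h4' : rho Q D (F z₀) < δ := by
        refine lt_of_le_of_ne h4 fun h => ?_
        rw [h] at h5
        have h6 := hle none z₀
        have h7 : pieceG Ω χ nd P Q D M' δ c₁ none (F z₀) (deriv F z₀) =
          rho Q D (F z₀) ^ M' * fs (F z₀) (deriv F z₀) := rfl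
        rw [h7, hk', h] at h6
        have h8 : 0 < fs (F z₀) (deriv F z₀) := by
          by_contra hcon
          have h9 : fs (F z₀) (deriv F z₀) = 0 := le_antisymm (not_lt.mp hcon) (fs_nonneg _ _)
          rw [h9, mul_zero] at h5
          have : 0 < δ ^ 2 * nearG Ω χ nd P Q D δ i (F z₀) (deriv F z₀) := by positivity
          linarith
        have h9 : c₁ * nearG Ω χ nd P Q D δ i (F z₀) (deriv F z₀) =
            δ ^ M' / (2 * CN) * (δ ^ 2 * nearG Ω χ nd P Q D δ i (F z₀) (deriv F z₀)) := by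
          rw [hc₁, pow_add]
          ring
        have h10 : c₁ * nearG Ω χ nd P Q D δ i (F z₀) (deriv F z₀) ≤
            δ ^ M' / 2 * fs (F z₀) (deriv F z₀) := by
          rw [h9]
          refine (mul_le_mul_of_nonneg_left h5 (by positivity)).trans (le_of_eq ?_)
          field_simp
        have h11 : 0 < δ ^ M' * fs (F z₀) (deriv F z₀) := by positivity
        linarith
      -- the formula near `z₀`
      obtain ⟨hqan, hqd, -⟩ := (χ i).curve hX hCX h2
      have hform : ∀ᶠ z in 𝓝 z₀, nearG Ω χ nd P Q D δ i (F z) (deriv F z) =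
          ACoef Ω (χ i) ((χ i).q (F z)) * pM (nd i) P ((χ i).q (F z))
            (deriv (fun z => (χ i).q (F z)) z) := by
        have e1 : ∀ᶠ z in 𝓝 z₀, F z ∈ (χ i).U :=
          hF.continuousAt.eventually ((χ i).isOpen_U.mem_nhds h2)
        have e2 : ∀ᶠ z in 𝓝 z₀, ‖(χ i).q (F z)‖ < 1 :=
          hqan.continuousAt.norm.eventually (gt_mem_nhds h3')
        have e3 : ∀ᶠ z in 𝓝 z₀, rho Q D (F z) < δ := hrc.eventually (gt_mem_nhds h4')
        filter_upwards [e1, e2, e3, hF.eventually_analyticAt, hCX.2.eventually_nhds]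
          with z f1 f2 f3 f4 f5
        have f6 : CurveAt X F z := ⟨f4, f5⟩
        obtain ⟨-, f7, -⟩ := (χ i).curve hX f6 f1
        rw [nearG_of_mem f6.mem f1 f2.le f3.le, f7]
      have hpos' : 0 < ACoef Ω (χ i) ((χ i).q (F z₀)) * pM (nd i) P ((χ i).q (F z₀))
            (deriv (fun z => (χ i).q (F z)) z₀) := by
        rw [← hform.self_of_nhds]
        exact hnpos
      have hsm' : small (nd i) ((χ i).q (F z₀)) ≤ r₂ := by
        refine (hsm i _ (by simpa using h3) ?_).trans (min_le_right _ _)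
        rw [(χ i).rho_sigma hQ.smul h1 h2]
        exact h4
      have hE : 4 * P.ε * (‖(deriv (fun z => (χ i).q (F z)) z₀).1‖ ^ 2 +
          ‖(deriv (fun z => (χ i).q (F z)) z₀).2‖ ^ 2) ≤
          ((j : ℝ) / m - c₀) * (fs (F z₀) (deriv F z₀) ^ 2 / 2) := by
        have e1 : (j : ℝ) / m - c₀ = c₀ := by rw [hc₀]; ring
        rw [e1]
        have e2 : ‖deriv (fun z => (χ i).q (F z)) z₀‖ ≤ CE * fs (F z₀) (deriv F z₀) := by
          rw [hqd]
          exact hfs1 i _ h1 h2 h3 _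
        set w := deriv (fun z => (χ i).q (F z)) z₀
        have e3 : ‖w.1‖ ≤ ‖w‖ := norm_fst_le w
        have e4 : ‖w.2‖ ≤ ‖w‖ := norm_snd_le w
        have e5 : ‖w‖ ^ 2 ≤ CE ^ 2 * fs (F z₀) (deriv F z₀) ^ 2 := by
          rw [← mul_pow]
          exact pow_le_pow_left₀ (norm_nonneg _) e2 2
        have e6 : ‖w.1‖ ^ 2 ≤ ‖w‖ ^ 2 := pow_le_pow_left₀ (norm_nonneg _) e3 2
        have e7 : ‖w.2‖ ^ 2 ≤ ‖w‖ ^ 2 := pow_le_pow_left₀ (norm_nonneg _) e4 2
        have e8 : P.ε * (16 * CE ^ 2) ≤ c₀ := by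
          rwa [le_div_iff₀ (by positivity)] at hPε
        have e9 := hPC.ε_pos
        calc 4 * P.ε * (‖w.1‖ ^ 2 + ‖w.2‖ ^ 2)
            ≤ 4 * P.ε * (CE ^ 2 * fs (F z₀) (deriv F z₀) ^ 2 +
              CE ^ 2 * fs (F z₀) (deriv F z₀) ^ 2) := by gcongr <;> linarith
          _ = P.ε * (16 * CE ^ 2) * (fs (F z₀) (deriv F z₀) ^ 2 / 2) := by ring
          _ ≤ c₀ * (fs (F z₀) (deriv F z₀) ^ 2 / 2) := by gcongr
      obtain ⟨c', hc', hs⟩ := conv_chart hX hK hm Ω (χ i) (nd i) hPC hconv hCK h2 h3 hsm' hE hpos'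
      right
      refine ((hs.const_mul hc₁pos).mono ?_ ?_).anti ?_
      · rw [hk', hform.self_of_nhds]
        ring
      · filter_upwards [hform] with z hz
        have := hle (some i) z
        have h6 : pieceG Ω χ nd P Q D M' δ c₁ (some i) (F z) (deriv F z) =
          c₁ * nearG Ω χ nd P Q D δ i (F z) (deriv F z) := rfl
        rw [h6, hz] at this
        have h7 := mul_le_mul_of_nonneg_right this (Real.rpow_nonneg (norm_nonneg (F z)) (-c₀))
        refine le_trans (le_of_eq ?_) h7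
        ring
      · linarith
  refine ⟨M', c₀, CC, GG Ω χ nd P Q D M' δ c₁, ?_, δ₁, hδ₁pos, ?_⟩
  swap
  · intro F z₀ hF hev hpos hsmall
    rcases key F z₀ hF hev hpos with ⟨h1, -⟩ | h
    · exact absurd hsmall (not_lt.mpr h1)
    · exact h
  refine
    { ne := fun x hx => hX.ne_zero (hK.subset hx)
      smul := hK.smul_mem
      c₀_pos := hc₀pos
      C_nonneg := hCC0
      nonneg := fun x _ v => GG_nonneg x v
      usc := fun x hx v a ha => GG_usc hX hK hQ hPC hc₁pos.le hx v ha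
      inv := fun x hx v c a hc => GG_scale hX hQ (hK.subset hx) v a hc
      hom := fun x _ v c => GG_smul x v c
      zero := ?_
      sub := ?_
      ρ_nonneg := fun x _ => rho_nonneg Q D x
      lower := fun x _ v => pieceG_le_GG (Ω := Ω) (χ := χ) (nd := nd) (P := P) (Q := Q) (D := D)
        (M' := M') (δ := δ) (c₁ := c₁) none x v
      ρ_zero := ?_
      rel_open := ?_
      hur := hur
      lim := ?_ }
  · intro F z₀ hF hev
    exact GG_zero hX hQ hM'1 hPC.κ_le hty ⟨hF, hev.mono fun z hz => hz.2.2⟩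
  · intro F z₀ hF hev hpos
    rcases key F z₀ hF hev hpos with ⟨-, h⟩ | h
    · exact h
    · refine h.anti ?_
      have : 0 ≤ CC * mt (GG Ω χ nd P Q D M' δ c₁) F z₀ ^ 2 := by positivity
      linarith
  · intro F z₀ hF hev hfr
    have hCK : CurveAt K F z₀ := ⟨hF, hev⟩
    have hCX : CurveAt X F z₀ := hCK.mono hK.subset
    rcases hQ.curve_discrete hCX with h | h
    · filter_upwards [h, hev] with z h1 h2
      exact ⟨h2, h1⟩
    · exfalso
      have h1 : ∀ᶠ z in 𝓝[≠] z₀, F z ∈ X := hCX.2.filter_mono nhdsWithin_le_nhds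
      have h2 : ∃ᶠ z in 𝓝[≠] z₀, False := by
        refine (hfr.and_eventually (h.and h1)).mono ?_
        rintro z ⟨h3, h4, h5⟩
        exact h4 ((hQ.mem_iff _).mpr ⟨h5, (rho_eq_zero_iff (hX.ne_zero h5)).mp h3⟩)
      simp at h2
  · intro x hx
    have hx0 : x ≠ 0 := hX.ne_zero (hK.subset hx)
    filter_upwards [hK.rel_open x hx, isOpen_ne.mem_nhds hx0] with y hy hy0 hyc
    apply hy
    have h1 : y ∈ insert (0 : EN N) X :=
      closure_minimal (fun z hz => Or.inr (hK.subset hz)) hX.closed hyc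
    exact h1.resolve_left hy0
  · intro l hl F H z₀ s hs hF hlim h0 hH ε hε
    have hk : ∀ k, ∀ᶠ a in l, pieceG Ω χ nd P Q D M' δ c₁ k (F a z₀) (deriv (F a) z₀) < ε := by
      intro k
      match k with
      | none => exact lim_far hX hK hQ hKT hM'1 l hl hs hF hlim h0 hH hε
      | some i =>
        filter_upwards [lim_near (δ := δ) (Q := Q) (D := D) hX hK hm hΩ' hPC hκm (hdt i) (hdn i)
          l hl hs hF hlim h0 hH (div_pos hε hc₁pos)] with a ha
        rw [lt_div_iff₀ hc₁pos] at ha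
        show c₁ * nearG Ω χ nd P Q D δ i (F a z₀) (deriv (F a) z₀) < ε
        linarith
    filter_upwards [Filter.eventually_all.2 hk] with a ha
    obtain ⟨k, hk'⟩ := exists_GG_eq (Ω := Ω) (χ := χ) (nd := nd) (P := P) (Q := Q) (D := D)
      (M' := M') (δ := δ) (c₁ := c₁) (F a z₀) (deriv (F a) z₀)
    show GG Ω χ nd P Q D M' δ c₁ (F a z₀) (deriv (F a) z₀) < ε
    rw [hk']
    exact ha k

end Pool.Agent.SDA

end

section

/-!
# SDA EN (K3): the metric along entire curves in an open surface, the nodal case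

Port of `SY/EiN.lean` and of `nodalL_metric` (`H36/LB/NodalL.lean`) with the field `near`.
-/

set_option autoImplicit false

open Topology Filter Metric

noncomputable section

namespace Pool.Agent.SDA

open Pool.Agent Pool.Agent.H17BP
open Pool.Agent.H36.BP
open Pool.Agent.H36.BPL
open Pool.Agent.H36.BPB (MD)
open Pool.Agent.H14.KB (rhoS rhoS_nonneg)
open Pool.Agent.H14.PP (IsCone IsOpenPart IsNodal Chart HasType DType Form IsEq)
open Pool.Agent.H36.LB (hur_openPart tlu_comp)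

/-- The metric theorem for open surfaces in `ℙ(V)`. -/
theorem nodalK_metric_near {V : Type} [NormedAddCommGroup V] [NormedSpace ℂ V] {N : ℕ} (L : V ≃L[ℂ] EN N)
    {W : Type} [NormedAddCommGroup W] [InnerProductSpace ℂ W] {X K T : Set V} {m j : ℕ}
    {Ω : V → V → V → ℂ} {Q : V → W} {D : ℕ} (hX : Surface X) (hK : OpenPart X K)
    (hKT : ∀ x ∈ X, x ∉ K → x ∈ T) (hQ : ∀ x, AnalyticAt ℂ Q x)
    (hQs : ∀ (c : ℂ) (x : V), Q (c • x) = c ^ D • Q x) (hT : ∀ x, x ∈ T ↔ x ∈ X ∧ Q x = 0)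
    (hn : ∀ x ∈ T, PairNodalAt X K T x) (hm : 1 ≤ m) (hj : 1 ≤ j) (hΩ : IsForm K m j Ω)
    (hz : NoZeros K T Ω) (hpl : PoleLE X K (m - 1) Ω) :
    IsEq (L.symm ⁻¹' X : Set (EN N)) (L.symm ⁻¹' T) (fun y => Q (L.symm y)) D ∧
    ∃ (M' : ℕ) (c₀ C : ℝ) (G : EN N → EN N → ℝ), MD (L.symm ⁻¹' K : Set (EN N))
      ((L.symm ⁻¹' K : Set (EN N)) ∩ L.symm ⁻¹' T) G
      (Pool.Agent.H14.PP.rho (fun y => Q (L.symm y)) D) M' c₀ C ∧
      ∃ δ₁ : ℝ, 0 < δ₁ ∧ ∀ (F : ℂ → EN N) (z₀ : ℂ), AnalyticAt ℂ F z₀ → (∀ᶠ z in 𝓝 z₀, F z ∈ (L.symm ⁻¹' K : Set (EN N))) →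
        0 < mt G F z₀ → Pool.Agent.H14.PP.rho (fun y => Q (L.symm y)) D (F z₀) < δ₁ →
        Sub (fun z => mt G F z * ‖F z‖ ^ (-c₀)) z₀ 0 := by
  set X' : Set (EN N) := L.symm ⁻¹' X with hX'
  set K' : Set (EN N) := L.symm ⁻¹' K with hK'
  set T' : Set (EN N) := L.symm ⁻¹' T with hT'
  have hTs : ∀ x ∈ T, ∀ c : ℂ, c ≠ 0 → c • x ∈ T := by
    intro x hx c hc
    obtain ⟨h1, h2⟩ := (hT x).mp hx
    exact (hT _).mpr ⟨hX.smul x h1 c hc, by rw [hQs, h2, smul_zero]⟩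
  have hTX : T ⊆ X := fun x hx => ((hT x).mp hx).1
  have hcone : IsCone X' := isCone_transport L hX
  have hT's : ∀ x ∈ T', ∀ c : ℂ, c ≠ 0 → c • x ∈ T' := by
    intro x hx c hc
    show L.symm (c • x) ∈ T
    rw [map_smul]
    exact hTs _ hx c hc
  have hK's : ∀ x ∈ K', ∀ c : ℂ, c ≠ 0 → c • x ∈ K' := by
    intro x hx c hc
    show L.symm (c • x) ∈ K
    rw [map_smul]
    exact hK.smul _ hx c hc
  have hopen : IsOpenPart X' K' := ⟨fun x hx => hK.sub hx, hK's, fun x hx => (L.symm.continuous.tendsto x).eventually (hK.rel _ hx)⟩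
  have hnodal : IsNodal X' K' T' := by
    intro x hx
    have hxT : L.symm x ∈ T := hx
    obtain ⟨σ, τ, hc, h0, nd, d, hnd, hd, hdn⟩ := hn (L.symm x) hxT
    have hg := germ_transport L hc
    have hLσ0 : L (σ 0) = x := by rw [h0, L.apply_symm_apply]
    have hnd' : ∀ᶠ p in 𝓝 (0 : ℂ × ℂ), (L (σ p) ∈ T' ↔ p.1 = 0 ∨ (nd = true ∧ p.2 = 0)) := by
      filter_upwards [hnd] with p hp
      rw [← hp]
      show L.symm (L (σ p)) ∈ T ↔ _
      rw [L.symm_apply_apply]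
    have hd' : ∀ᶠ p in 𝓝 (0 : ℂ × ℂ), (L (σ p) ∉ K' ↔ (d.1 = true ∧ p.1 = 0) ∨ (d.2 = true ∧ p.2 = 0)) := by
      filter_upwards [hd] with p hp
      rw [← hp]
      show L.symm (L (σ p)) ∉ K ↔ _
      rw [L.symm_apply_apply]
    obtain ⟨χ, h2, h3, h4, h5⟩ := exists_chart hcone hK's hT's hg hnd' hd'
    refine ⟨χ, nd, d, ?_, ?_, h4, h5, hdn⟩
    · rwa [hLσ0] at h2
    · rwa [hLσ0] at h3
  have heq : IsEq X' T' (fun y => Q (L.symm y)) D := by
    refine ⟨fun x => (hQ _).comp ((L.symm : EN N →L[ℂ] V).analyticAt x), fun c x => ?_, fun x => ?_⟩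
    · show Q (L.symm (c • x)) = _
      rw [map_smul, hQs]
    · exact hT (L.symm x)
  have hnz : (formT L hΩ).NoZeroOff T' := by
    intro x hx hxT v w hv hw hli
    refine hz (L.symm x) hx hxT _ (tan_transport L hv) _ (tan_transport L hw) ?_
    have h1 := hli.map' ((L.symm : EN N →L[ℂ] V) : EN N →ₗ[ℂ] V) (LinearMap.ker_eq_bot.mpr L.symm.injective)
    have h2 : (((L.symm : EN N →L[ℂ] V) : EN N →ₗ[ℂ] V) ∘ ![x, v, w]) = ![L.symm x, L.symm v, L.symm w] := by
      funext i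
      fin_cases i <;> rfl
    rw [h2] at h1
    exact h1
  have hpole : (formT L hΩ).PoleBound X' := poleBound_transport L hΩ hpl
  have hclX : ∀ x ∈ closure X', x ≠ 0 → x ∈ X' := fun x hx hx0 =>
    (hcone.closed.closure_subset_iff.mpr (Set.subset_insert 0 X') hx).resolve_left hx0
  refine ⟨heq, exists_metricB_near hcone hopen (fun x hx hxn => hKT _ hx hxn) heq hnodal hm hj (formT L hΩ) hnz hpole ?_⟩
  intro l hl F H z₀ s hs hF hH hlim hH0 h0
  have hXc : ∀ x ∈ closure X, x ≠ 0 → x ∈ X := by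
    intro x hx hx0
    have h1 : L x ∈ closure X' := by
      have h2 : closure X' = L.symm ⁻¹' (closure X) := (L.symm.toHomeomorph.preimage_closure X).symm
      rw [h2]
      show L.symm (L x) ∈ closure X
      rwa [L.symm_apply_apply]
    have h2 := hclX _ h1 fun h => hx0 (L.map_eq_zero_iff.mp h)
    have h3 : L.symm (L x) ∈ X := h2
    rwa [L.symm_apply_apply] at h3
  have h1 := hur_openPart hXc hK hl hs (F := fun n z => L.symm (F n z)) (H := fun z => L.symm (H z)) (by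
    filter_upwards [hF] with n hn
    exact ⟨((L.symm : EN N →L[ℂ] V).differentiable).comp_differentiableOn hn.1, fun z hz => hn.2 z hz⟩)
    (((L.symm : EN N →L[ℂ] V).differentiable).comp_differentiableOn hH)
    (tlu_comp hlim hH.continuousOn fun x _ => L.symm.continuous.continuousAt)
    (fun h => hH0 (L.symm.map_eq_zero_iff.mp h)) h0
  exact h1

variable {V : Type} [NormedAddCommGroup V] [NormedSpace ℂ V]

/-- curves in the transported cone -/
theorem entU_transport {N : ℕ} (L : V ≃L[ℂ] EN N) {X K T : Set V} {F : ℂ → V} (hF : EntU X K T F) :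
    EntU (L.symm ⁻¹' X : Set (EN N)) (L.symm ⁻¹' K) (L.symm ⁻¹' T) (fun z => L (F z)) := by
  refine ⟨Pool.Agent.SY.ent_transport L hF.ent, fun z => ?_⟩
  show L.symm (L (F z)) ∈ K
  rw [L.symm_apply_apply]
  exact hF.memK z

/-- transport of the energy by a linear equivalence -/
theorem enU_transport {N : ℕ} (L : V ≃L[ℂ] EN N) {X K T : Set V} {rho' : EN N → ℝ} {rho : V → ℝ} {M : ℕ} {c₀ C δ : ℝ}
    {g' : (ℂ → EN N) → ℂ → ℝ} (E : EnU (L.symm ⁻¹' X : Set (EN N)) (L.symm ⁻¹' K) (L.symm ⁻¹' T) (fun x => ‖x‖) rho' M c₀ C δ g')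
    {A K₁ B : ℝ} (hA : 0 ≤ A) (hB : 0 < B) (hK₁ : 0 ≤ K₁) (hr2 : ∀ x ∈ X, rho' (L x) ≤ B * rho x) (h0 : ∀ x ∈ X, 0 ≤ rho x) (hr' : ∀ x ∈ X, 0 ≤ rho' (L x)) (hr : ∀ x ∈ X, rho x ≤ A * rho' (L x))
    (hb : ∀ x ∈ X, rho x ≤ K₁) :
    ∃ C' : ℝ, EnU X K T (fun x => ‖L x‖) rho (M + 1) c₀ C' (δ / B) (fun F => g' (fun z => L (F z))) := by
  set a₁ : ℝ := ‖(L : V →L[ℂ] EN N)‖ with ha₁
  set a₂ : ℝ := ‖(L.symm : EN N →L[ℂ] V)‖ with ha₂
  have ha₁0 : 0 ≤ a₁ := norm_nonneg _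
  have ha₂0 : 0 ≤ a₂ := norm_nonneg _
  set C' : ℝ := max C (K₁ * (A ^ M * (a₂ * (C * a₁)))) with hC'
  have hCC : C ≤ C' := le_max_left _ _
  refine ⟨C', E.c₀_pos, E.C_pos.trans_le hCC, div_pos E.δ_pos hB, fun F hF z => E.nonneg _ (entU_transport L hF) z,
    fun F hF z a ha => E.usc _ (entU_transport L hF) z a ha, fun F hF a b ha z => E.aff _ (entU_transport L hF) a b ha z, ?_, ?_, ?_, ?_, ?_⟩
  · intro F hF h hh h0' z
    have h1 := E.unit _ (entU_transport L hF) h hh h0' z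
    have h2 : (fun w => L (h w • F w)) = fun w => h w • L (F w) := by
      funext w
      rw [map_smul]
    show g' (fun w => L (h w • F w)) z = _
    rw [h2]
    exact h1
  · intro F hF z hz
    obtain ⟨h1, h2⟩ := E.sub _ (entU_transport L hF) z hz
    refine ⟨h1, fun t ht => h2 t (lt_of_lt_of_le ht ?_)⟩
    have h3 := mul_le_mul_of_nonneg_right hCC (sq_nonneg (g' (fun z => L (F z)) z))
    linarith
  · intro F hF z hz hρ
    refine E.near _ (entU_transport L hF) z hz ?_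
    rw [lt_div_iff₀ hB] at hρ
    have h1 := hr2 _ (hF.ent.mem z)
    linarith
  · intro F hF z
    obtain ⟨a, ha⟩ := E.lower _ (entU_transport L hF) z
    refine ⟨a, ?_⟩
    have hFX := hF.ent.mem z
    have hd : deriv (fun z => L (F z)) z = L (deriv F z) := by
      have h2 : HasDerivAt (fun z => L (F z)) (L (deriv F z)) z :=
        (L : V →L[ℂ] EN N).hasFDerivAt.comp_hasDerivAt z (hF.ent.diff z).hasDerivAt
      exact h2.deriv
    rw [hd] at ha
    have h2 : L (deriv F z) - a • L (F z) = L (deriv F z - a • F z) := by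
      rw [map_sub, map_smul]
    rw [h2] at ha
    have h3 : ‖deriv F z - a • F z‖ ≤ a₂ * ‖L (deriv F z - a • F z)‖ := by
      have := (L.symm : EN N →L[ℂ] V).le_opNorm (L (deriv F z - a • F z))
      have e : (L.symm : EN N →L[ℂ] V) (L (deriv F z - a • F z)) = deriv F z - a • F z :=
        L.symm_apply_apply _
      rwa [e] at this
    have h4 : ‖L (F z)‖ ≤ a₁ * ‖F z‖ := (L : V →L[ℂ] EN N).le_opNorm _
    have h5 := hr _ hFX
    have h6 := hb _ hFX
    have h7 := h0 _ hFX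
    have h8 := hr' _ hFX
    have hg : 0 ≤ g' (fun z => L (F z)) z := E.nonneg _ (entU_transport L hF) z
    have hC0 := E.C_pos.le
    calc rho (F z) ^ (M + 1) * ‖deriv F z - a • F z‖
        = rho (F z) * (rho (F z) ^ M * ‖deriv F z - a • F z‖) := by rw [pow_succ]; ring
      _ ≤ K₁ * ((A * rho' (L (F z))) ^ M * (a₂ * ‖L (deriv F z - a • F z)‖)) := by gcongr
      _ = K₁ * (A ^ M * (a₂ * (rho' (L (F z)) ^ M * ‖L (deriv F z - a • F z)‖))) := by
          rw [mul_pow]; ring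
      _ ≤ K₁ * (A ^ M * (a₂ * (C * ‖L (F z)‖ * g' (fun z => L (F z)) z))) := by gcongr
      _ ≤ K₁ * (A ^ M * (a₂ * (C * (a₁ * ‖F z‖) * g' (fun z => L (F z)) z))) := by gcongr
      _ = K₁ * (A ^ M * (a₂ * (C * a₁))) * ‖F z‖ * g' (fun z => L (F z)) z := by ring
      _ ≤ C' * ‖F z‖ * g' (fun z => L (F z)) z := by
          have h9 : K₁ * (A ^ M * (a₂ * (C * a₁))) ≤ C' := le_max_right _ _
          gcongr
  · intro l hl r A' ε hr0 hε F H hF hA' hB hc hH
    obtain ⟨h, hh, hlim⟩ := hc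
    have hlim' : TendstoLocallyUniformlyOn (fun n z => h n z • L (F n z)) (fun z => L (H z)) l (ball 0 r) := by
      have h1 : TendstoLocallyUniformlyOn (fun n z => L (h n z • F n z)) (fun z => L (H z)) l (ball 0 r) := by
        intro U hU x hx
        have h2 : UniformContinuous (fun y : V => L y) := (L : V →L[ℂ] EN N).uniformContinuous
        obtain ⟨t, ht, h3⟩ := hlim _ (h2 hU) x hx
        exact ⟨t, ht, h3⟩
      have h2 : (fun n z => L (h n z • F n z)) = fun n z => h n z • L (F n z) := by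
        funext n z
        rw [map_smul]
      rwa [h2] at h1
    obtain ⟨⟨z, hz, hzT⟩, ⟨x, hx, y, hy, hxy⟩⟩ := E.lim l hl r A' ε hr0 hε (fun n z => L (F n z)) (fun z => L (H z))
      (hF.mono fun n hn => entU_transport L hn) hA' hB ⟨h, hh, hlim'⟩ (fun z hz => by
        show L.symm (L (H z)) ∈ X
        rw [L.symm_apply_apply]
        exact hH z hz)
    refine ⟨⟨z, hz, fun h1 => hzT ?_⟩, ⟨x, hx, y, hy, fun h1 => hxy ?_⟩⟩
    · show L.symm (L (H z)) ∈ T
      rwa [L.symm_apply_apply]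
    · obtain ⟨c, hc, e⟩ := h1
      exact ⟨c, hc, by show L (H x) = c • L (H y); rw [e, map_smul]⟩

private def EiNK_Q {κ : Type} [Fintype κ] (Q : κ → V → ℂ) (x : V) : EuclideanSpace ℂ κ := WithLp.toLp 2 (fun i => Q i x)

/-- MODULE EiN: the nodal case. -/
theorem enU_nodal [FiniteDimensional ℂ V] {X K T : Set V} {m j : ℕ}
    {Ω : V → V → V → ℂ} {κ : Type} [Fintype κ] {Q : κ → V → ℂ} {D : ℕ} (h : ModelL X K T m j Ω Q D) (hn : ∀ x ∈ X, NodalAt X T x)
    {N : ℕ} (L : V ≃L[ℂ] EN N) :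
    ∃ (M : ℕ) (c₀ C δ : ℝ) (g : (ℂ → V) → ℂ → ℝ), 1 ≤ M ∧ EnU X K T (fun x => ‖L x‖) (rhoS Q D) M c₀ C δ g := by
  have hne : ∀ x ∈ X, x ≠ 0 := fun x hx e => h.surf.zero (e ▸ hx)
  obtain ⟨heq, M, c₀, C, G, hM, δ₁, hδ₁, hnear⟩ := nodalK_metric_near L (Q := EiNK_Q Q) (D := D) h.surf h.opn h.sub (fun x => by
    have h1 : AnalyticAt ℂ (fun x : V => fun i => Q i x) x := by
      rw [analyticAt_pi_iff]
      exact fun i => h.eqs.an i x
    exact AnalyticAt.comp (g := (WithLp.toLp 2 : (κ → ℂ) → EuclideanSpace ℂ κ))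
      (f := fun x : V => fun i => Q i x) ((EuclideanSpace.equiv κ ℂ).symm.analyticAt _) h1)
    (fun c x => by
      unfold EiNK_Q
      rw [← WithLp.toLp_smul]
      congr 1
      funext i
      simp [h.eqs.smul]) (T := T) (fun x => by
      rw [h.eqs.mem_iff]
      unfold EiNK_Q
      constructor
      · rintro ⟨h1, h2⟩
        refine ⟨h1, ?_⟩
        have h3 : (fun i => Q i x) = (0 : κ → ℂ) := funext h2
        rw [h3]
        rfl
      · rintro ⟨h1, h2⟩
        refine ⟨h1, fun i => ?_⟩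
        have h3 := congrFun (congrArg WithLp.ofLp h2) i
        exact h3) (fun x hx => pairNodal_of_nodal h.opn h.sub (h.eqs.sub hx) hx (hn x (h.eqs.sub hx)))
      h.one_m h.one_j h.form h.noZeros h.pole
  have hcone : IsCone (L.symm ⁻¹' X : Set (EN N)) := Pool.Agent.H36.BP.isCone_transport L h.surf
  obtain ⟨K₁, hK₁, hK₁b⟩ := Pool.Agent.H14.PP.exists_rho_bound hcone heq
  have hK's : ∀ x ∈ (L.symm ⁻¹' K : Set (EN N)), ∀ c : ℂ, c ≠ 0 → c • x ∈ (L.symm ⁻¹' K : Set (EN N)) := by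
    intro x hx c hc
    show L.symm (c • x) ∈ K
    rw [map_smul]
    exact h.opn.smul _ hx c hc
  have hopen : IsOpenPart (L.symm ⁻¹' X : Set (EN N)) (L.symm ⁻¹' K) :=
    ⟨fun x hx => h.opn.sub hx, hK's, fun x hx => (L.symm.continuous.tendsto x).eventually (h.opn.rel _ hx)⟩
  obtain ⟨C₁, E⟩ := enU_of_metric (T := (L.symm ⁻¹' T : Set (EN N))) hcone hopen hM hδ₁ hnear
  set A : ℝ := ‖(L : V →L[ℂ] EN N)‖ with hA
  have hA0 : 0 ≤ A := norm_nonneg _
  have hρ : ∀ x ∈ X, rhoS Q D x ≤ A ^ D * Pool.Agent.H14.PP.rho (fun y => EiNK_Q Q (L.symm y)) D (L x) := by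
    intro x hx
    have hx0 : 0 < ‖x‖ := norm_pos_iff.mpr (hne x hx)
    have hLx0 : 0 < ‖L x‖ := norm_pos_iff.mpr fun h0 => hne x hx (L.map_eq_zero_iff.mp h0)
    unfold rhoS Pool.Agent.H14.PP.rho
    simp only
    rw [L.symm_apply_apply, ← mul_div_assoc, div_le_div_iff₀ (by positivity) (by positivity)]
    have h1 : ‖fun i => Q i x‖ ≤ ‖EiNK_Q Q x‖ := by
      refine (pi_norm_le_iff_of_nonneg (norm_nonneg _)).mpr fun i => ?_
      exact PiLp.norm_apply_le (EiNK_Q Q x) i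
    have h2 : ‖L x‖ ≤ A * ‖x‖ := (L : V →L[ℂ] EN N).le_opNorm x
    calc ‖fun i => Q i x‖ * ‖L x‖ ^ D ≤ ‖EiNK_Q Q x‖ * (A * ‖x‖) ^ D := by gcongr
      _ = A ^ D * ‖EiNK_Q Q x‖ * ‖x‖ ^ D := by rw [mul_pow]; ring
  have hρ2 : ∀ x ∈ X, rhoS Q D x ≤ A ^ D * K₁ := by
    intro x hx
    refine (hρ x hx).trans (mul_le_mul_of_nonneg_left (hK₁b _ ?_) (by positivity))
    show L.symm (L x) ∈ X
    rwa [L.symm_apply_apply]
  set A' : ℝ := ‖(L.symm : EN N →L[ℂ] V)‖ with hA'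
  have hA'0 : 0 ≤ A' := norm_nonneg _
  have hρ3 : ∀ x ∈ X, Pool.Agent.H14.PP.rho (fun y => EiNK_Q Q (L.symm y)) D (L x) ≤
      (Real.sqrt (Fintype.card κ) * A' ^ D + 1) * rhoS Q D x := by
    intro x hx
    have hx0 : 0 < ‖x‖ := norm_pos_iff.mpr (hne x hx)
    have hLx0 : 0 < ‖L x‖ := norm_pos_iff.mpr fun h0 => hne x hx (L.map_eq_zero_iff.mp h0)
    have h1 : ‖EiNK_Q Q x‖ ≤ Real.sqrt (Fintype.card κ) * ‖fun i => Q i x‖ := by
      unfold EiNK_Q
      rw [EuclideanSpace.norm_eq]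
      have h2 : ∑ i, ‖(WithLp.toLp 2 (fun i => Q i x) : EuclideanSpace ℂ κ) i‖ ^ 2 ≤
          (Fintype.card κ : ℝ) * ‖fun i => Q i x‖ ^ 2 := by
        calc ∑ i, ‖(WithLp.toLp 2 (fun i => Q i x) : EuclideanSpace ℂ κ) i‖ ^ 2
            ≤ ∑ _i : κ, ‖fun i => Q i x‖ ^ 2 := by
              refine Finset.sum_le_sum fun i _ => ?_
              have : ‖Q i x‖ ≤ ‖fun i => Q i x‖ := norm_le_pi_norm (fun i => Q i x) i
              exact pow_le_pow_left₀ (norm_nonneg _) this 2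
          _ = (Fintype.card κ : ℝ) * ‖fun i => Q i x‖ ^ 2 := by
              rw [Finset.sum_const, Finset.card_univ, nsmul_eq_mul]
      refine (Real.sqrt_le_sqrt h2).trans (le_of_eq ?_)
      rw [Real.sqrt_mul (by positivity), Real.sqrt_sq (norm_nonneg _)]
    have h2 : ‖x‖ ≤ A' * ‖L x‖ := by
      have := (L.symm : EN N →L[ℂ] V).le_opNorm (L x)
      have e : (L.symm : EN N →L[ℂ] V) (L x) = x := L.symm_apply_apply _
      rwa [e] at this
    have h3 : 0 ≤ rhoS Q D x := rhoS_nonneg Q D x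
    have h4 : Pool.Agent.H14.PP.rho (fun y => EiNK_Q Q (L.symm y)) D (L x) ≤
        Real.sqrt (Fintype.card κ) * A' ^ D * rhoS Q D x := by
      unfold rhoS Pool.Agent.H14.PP.rho
      simp only
      rw [L.symm_apply_apply, ← mul_div_assoc, div_le_div_iff₀ (by positivity) (by positivity)]
      calc ‖EiNK_Q Q x‖ * ‖x‖ ^ D ≤ (Real.sqrt (Fintype.card κ) * ‖fun i => Q i x‖) * (A' * ‖L x‖) ^ D := by gcongr
        _ = Real.sqrt (Fintype.card κ) * A' ^ D * ‖fun i => Q i x‖ * ‖L x‖ ^ D := by rw [mul_pow]; ring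
    linarith
  obtain ⟨C', E'⟩ := enU_transport L (rho := rhoS Q D) E (A := A ^ D) (K₁ := A ^ D * K₁)
    (B := Real.sqrt (Fintype.card κ) * A' ^ D + 1) (by positivity) (by positivity) (by positivity) hρ3
    (fun x _ => rhoS_nonneg Q D x) (fun x _ => Pool.Agent.H14.PP.rho_nonneg _ _ _) hρ hρ2
  exact ⟨M + 1, c₀, C', _, _, by omega, E'⟩

end Pool.Agent.SDA

end
end
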