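import Pool.Agent.H43.TL2.M114
import Pool.Agent.H43.TL2.M122
import Pool.Agent.H43.TL2.M127
import Pool.Agent.H43.TL2.M131

/-! The parts of this file: MQK.StartL, MQK.PolL, MQK.DensNL. -/

section

/-!
# MQK StartL: a section of `m (K + D) - H` with poles of order at most `m - 1`, and the curves along which it vanishes
-/

set_option autoImplicit false

open Topology Filter Metric MvPolynomial

noncomputable section

namespace Pool.Agent.MQK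

open Pool.Agent.MQL

open Pool.Agent.H36.BP (EN)
open Pool.Agent.H14.PP (Tan)
open Pool.Agent.H17BP (Surface IsChart IsForm NoZeros)
open Pool.Agent.H36.BPL (PoleLE OpenPart isForm_pow_mul analyticAt_form)
open Pool.Agent.H62.FC (Homog)
open Pool.Agent.H62.SA (OnBd locCone exists_formF_of_smooth)
open Pool.Agent.H17LG.Variety (FunField IsLogGeneralType)
open Pool.Agent.H17EF (coneE LE)
open Pool.Agent.H13.SM (cone)
open Pool.Agent.E2 (frequently_ind exists_second isForm_transport)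

variable {N s : ℕ}

/-- the cone over the open surface -/
def okG (P : Ideal (MvPolynomial (Fin (N + 1)) ℂ)) (G : Fin s → MvPolynomial (Fin (N + 1)) ℂ) : Set (EN N) :=
  {x | x ∈ coneE P ∧ ∃ i, eval x.ofLp (G i) ≠ 0}

theorem okG_eq (P : Ideal (MvPolynomial (Fin (N + 1)) ℂ)) (G : Fin s → MvPolynomial (Fin (N + 1)) ℂ) : okG P G = (LE N).symm ⁻¹' locCone P G := rfl

/-- **A section of `m (K + D) - H` with poles of order at most `m - 1`.** -/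
theorem exists_form_open {P : Ideal (MvPolynomial (Fin (N + 1)) ℂ)} [P.IsPrime] (hP : Homog P) {z : Fin 2 → FunField P} (hz : IsTranscendenceBasis ℂ z)
    (hsm : ∀ y : Fin (N + 1) → ℂ, y ≠ 0 → (∀ Q ∈ P, eval y Q = 0) → Module.finrank ℂ (Pool.Agent.H13.SM.conTan P y) ≤ 3)
    {e : Fin s → ℕ} {G : Fin s → MvPolynomial (Fin (N + 1)) ℂ} (hG : ∀ i, (G i).IsHomogeneous (e i)) {i₀ : Fin s} (hi₀ : G i₀ ∉ P)
    (hO : OpenPart (coneE P) (okG P G)) (hgt : IsLogGeneralType (K := FunField P) (k := 2) (OnBd P G)) :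
    ∃ (m : ℕ) (W : EN N → EN N → EN N → ℂ) (D : ℕ) (Q : MvPolynomial (Fin (N + 1)) ℂ), Q.IsHomogeneous D ∧ Q ∉ P ∧ LW P (okG P G) m 1 W ∧
      ∀ F : ℂ → EN N, Differentiable ℂ F → (∀ z, F z ∈ okG P G) → (∃ z w, ∀ c : ℂ, F z ≠ c • F w) →
        (∀ z w, Tan (coneE P) (F z) w → W (F z) (deriv F z) w = 0) → ∀ z, eval (F z).ofLp Q = 0 := by
  obtain ⟨M, Om, D₀, Q₀, hM, hQ₀, hQ₀P, hΩ, hnz, hpole⟩ := exists_formF_of_smooth P hP hz hG hsm hgt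
  have hX : Surface (coneE P) := Pool.Agent.H90.SG.surface_coneE hP hz hsm
  have hs : ∀ x ∈ locCone P G, ∀ c : ℂ, c ≠ 0 → c • x ∈ locCone P G := fun x hx c hc => hO.smul ((LE N) x) hx c hc
  have hform := isForm_pow_mul (k := e i₀ + 1) (d := e i₀) (by omega) hΩ (H := fun x => eval x (G i₀)) (analyticAt_form _)
    (fun c x => Pool.Agent.H17BP.eval_smul_form (hG i₀) c x) hs
  have h1 : 1 * (e i₀ + 1) - e i₀ = 1 := by omega
  rw [h1] at hform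
  have hpole' := PoleLE.pow_mul hM (Nat.succ_pos (e i₀)) hpole (H := fun x => eval x (G i₀)) (analyticAt_form _) fun x hx hxK => by
    by_contra h2
    exact hxK ⟨hx, i₀, h2⟩
  refine ⟨M * (e i₀ + 1), fun x v w => eval ((LE N).symm x) (G i₀) * Om ((LE N).symm x) ((LE N).symm v) ((LE N).symm w) ^ (e i₀ + 1), e i₀ + D₀, G i₀ * Q₀,
    (hG i₀).mul hQ₀, fun h => (Ideal.IsPrime.mem_or_mem ‹P.IsPrime› h).elim hi₀ hQ₀P, ⟨Nat.mul_pos hM (Nat.succ_pos _), hO, ?_, ?_⟩, ?_⟩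
  · rw [okG_eq]
    exact isForm_transport hform
  · rw [okG_eq]
    exact pole_transport hpole'
  intro F hF hFK hne h z₁
  by_contra hQ0
  have hFX : ∀ z, F z ∈ coneE P := fun z => (hFK z).1
  have hcont : Continuous fun z => eval (F z).ofLp (G i₀ * Q₀) := (MvPolynomial.continuous_eval _).comp ((LE N).symm.continuous.comp hF.continuous)
  have h0 : ∀ z, F z ≠ 0 := fun z e => hX.zero (e ▸ hFX z)
  obtain ⟨z₂, hz2, hz2'⟩ := ((frequently_ind hF h0 hne z₁).and_eventually (hcont.continuousAt.eventually_ne hQ0)).exists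
  rw [map_mul] at hz2'
  have hG2 : eval (F z₂).ofLp (G i₀) ≠ 0 := left_ne_zero_of_mul hz2'
  have hQ2 : eval (F z₂).ofLp Q₀ ≠ 0 := right_ne_zero_of_mul hz2'
  have hT : Tan (coneE P) (F z₂) (deriv F z₂) := by
    refine ⟨fun y => F (z₂ + y), ⟨?_, Eventually.of_forall fun y => hFX _⟩, by simp, ?_⟩
    · exact (hF.comp (differentiable_id.const_add z₂)).analyticAt 0
    · have := deriv_comp_const_add F z₂ 0
      rw [add_zero] at this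
      exact this
  obtain ⟨w, hw, hind⟩ := exists_second hX (hFX z₂) hT hz2
  -- tangent vectors of the open part
  have hTK : ∀ v, Tan (coneE P) (F z₂) v → (LE N).symm v ∈ Pool.Agent.H17BP.Tan (locCone P G) ((LE N).symm (F z₂)) := by
    rintro v ⟨γ, ⟨hγ, hγX⟩, hγ0, hγ1⟩
    refine Pool.Agent.H36.BP.tan_transport (LE N) ⟨γ, ⟨hγ, ?_⟩, hγ0, hγ1⟩
    have hc : ContinuousAt (fun y => eval (γ y).ofLp (G i₀)) 0 :=
      ((MvPolynomial.continuous_eval (G i₀)).comp (LE N).symm.continuous).continuousAt.comp hγ.continuousAt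
    have hn : eval (γ 0).ofLp (G i₀) ≠ 0 := by rw [hγ0]; exact hG2
    filter_upwards [hγX, hc.eventually_ne hn] with y hy hy'
    exact ⟨hy, i₀, hy'⟩
  refine mul_ne_zero hG2 (pow_ne_zero _ (hnz ((LE N).symm (F z₂)) (hFK z₂) (fun hh => hQ2 hh.2) _ (hTK _ hT) _ (hTK _ hw) ?_)) (h z₂ w hw)
  have h3 := hind.map' ((LE N).symm : EN N →ₗ[ℂ] (Fin (N + 1) → ℂ)) (LinearMap.ker_eq_bot.2 (LE N).symm.injective)
  have h2 : (((LE N).symm : EN N →ₗ[ℂ] (Fin (N + 1) → ℂ)) ∘ ![F z₂, deriv F z₂, w]) =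
      ![(LE N).symm (F z₂), (LE N).symm (deriv F z₂), (LE N).symm w] := by
    funext i
    fin_cases i <;> rfl
  rwa [h2] at h3

end Pool.Agent.MQK

end
end

section

/-!
# MQK PolL: the poles of the weight, in boxes and in charts
-/

set_option autoImplicit false

open Topology Filter Metric MvPolynomial

noncomputable section

namespace Pool.Agent.MQK

open Pool.Agent.MQL

open Pool.Agent.H36.BP (EN)
open Pool.Agent.H36.BPL (OpenPart)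
open Pool.Agent.H17BP (Surface IsForm)
open Pool.Agent.H17EF (projVar coneE)
open Pool.Agent.MQ3

variable {M : ℕ} {P : Ideal (MvPolynomial (Fin (M + 1)) ℂ)} {RD Ra : MvPolynomial (Fin (M + 1)) ℂ} {Ko : Set (EN M)} {m : ℕ} {X : NCModel P RD} {θ : WDiff (coneE P) m}
  {l : LF M} {S : Web X θ l} {Wf : EN M → EN M → EN M → ℂ} {mK jH : ℕ}

/-- the axes near a point -/
private theorem ax_near {p : ℂ × ℂ} : ∀ᶠ x in 𝓝 p, x.1 * x.2 = 0 → (x.1 - p.1) * (x.2 - p.2) = 0 := by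
  have h1 : ∀ᶠ x in 𝓝 p, x.1 = 0 → x.1 - p.1 = 0 := by
    by_cases h : p.1 = 0
    · exact Eventually.of_forall fun x hx => by rw [hx, h, sub_zero]
    · filter_upwards [(continuous_fst.continuousAt (x := p)).eventually_ne h] with x hx h0
      exact absurd h0 hx
  have h2 : ∀ᶠ x in 𝓝 p, x.2 = 0 → x.2 - p.2 = 0 := by
    by_cases h : p.2 = 0
    · exact Eventually.of_forall fun x hx => by rw [hx, h, sub_zero]
    · filter_upwards [(continuous_snd.continuousAt (x := p)).eventually_ne h] with x hx h0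
      exact absurd h0 hx
  filter_upwards [h1, h2] with x h3 h4 h5
  rcases mul_eq_zero.1 h5 with h6 | h6
  · rw [h3 h6, zero_mul]
  · rw [h4 h6, mul_zero]

theorem wt_leB (hX : Surface (coneE P)) (hD : DivB P RD Ko) (hW : LW P Ko mK jH Wf) (i : X.ι) {p : ℂ × ℂ} (hp : p ∈ X.B i) :
    ∃ N ∈ 𝓝 p, ∃ C : ℝ, ∀ F : ℂ → EN M, Differentiable ℂ F → (∀ z, F z ∈ Ko) → ∀ Y : NCLift X F, ∀ z ∈ Y.U i, Y.p i z ∈ N →
      wt Wf Y i z ≠ 0 → 1 / mK * Real.log ‖wt Wf Y i z‖ + jH / mK * Real.log ‖F z‖ ≤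
        C + Real.log ‖JD (exX Ko mK (X.ρ i) p) (exY Ko mK (X.ρ i) p) (Y.p i z - p)‖ := by
  have hK := hW.op
  have hm := hW.one_m
  have hmK : 0 < (mK : ℝ) := by exact_mod_cast hm
  obtain ⟨C, hC⟩ := pole_loc hW (wtn_rho_an hp) (wtn_rho_mem hp) (by
    filter_upwards [(X.isOpen i).mem_nhds hp, ax_near (p := p)] with x hx h1 h0
    exact h1 ((X.div i x hx).1 (hD.le _ (wtn_rho_mem hx).self_of_nhds h0)))
  have hb := (wtn_rho_an hp).continuousAt.norm.eventually_lt continuousAt_const (lt_add_one _)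
  refine ⟨_, hC.and hb, C + jH / mK * Real.log (‖X.ρ i p‖ + 1), fun F hF ha Y z hz hN h0 => ?_⟩
  obtain ⟨h1, h2⟩ := hN
  have hFK := mem_okE hX ha Y
  obtain ⟨hw, h3⟩ := wt_logK hX hK hm hW.form Y hz (hFK z) h0
  have h4 := h1 (rho_K hK Y hz (hFK z)) hw
  have h5 : Real.log ‖X.ρ i (Y.p i z)‖ ≤ Real.log (‖X.ρ i p‖ + 1) :=
    Real.log_le_log (norm_pos_iff.2 (wtn_rho_ne hX (Y.mem i z hz))) h2.le
  have h6 : (jH : ℝ) / mK * Real.log ‖X.ρ i (Y.p i z)‖ ≤ jH / mK * Real.log (‖X.ρ i p‖ + 1) := mul_le_mul_of_nonneg_left h5 (by positivity)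
  rw [h3]
  linarith

theorem wt_leC (hX : Surface (coneE P)) (hD : DivB P RD Ko) (hW : LW P Ko mK jH Wf) (k : S.ι) {q : ℂ × ℂ} (hq : q ∈ S.D k) :
    ∃ N ∈ 𝓝 q, ∃ C : ℝ, ∀ F : ℂ → EN M, LCrv θ RD Ko Ra F → ∀ Y : NCLift X F, ∀ z ∈ S.Om Y k, S.lf Y k z ∈ N →
      wt Wf Y k.1 z ≠ 0 → jc (S.κ k) (S.lf Y k z) ≠ 0 →
        Real.log ‖jc (S.κ k) (S.lf Y k z)‖ + 1 / mK * Real.log ‖wt Wf Y k.1 z‖ + jH / mK * Real.log ‖F z‖ ≤
          C + Real.log ‖JD (exX Ko mK (S.σ k) q) (exY Ko mK (S.σ k) q) (S.lf Y k z - q)‖ := by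
  have hK := hW.op
  have hm := hW.one_m
  have hmK : 0 < (mK : ℝ) := by exact_mod_cast hm
  obtain ⟨C, hC⟩ := pole_loc hW (φ := S.σ k) (σ_an k q hq).1 (by
    filter_upwards [(D_open k).mem_nhds hq] with x hx
    exact (σ_an k x hx).2) (by
    filter_upwards [(D_open k).mem_nhds hq, ax_near (p := q)] with x hx h1 h0
    exact h1 ((zero_iff k x hx).1 (hD.le _ (σ_an k x hx).2 h0)))
  have hb := (σ_an k q hq).1.continuousAt.norm.eventually_lt continuousAt_const (lt_add_one _)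
  refine ⟨_, hC.and hb, C + jH / mK * Real.log (‖S.σ k q‖ + 1), fun F hF Y z hz hN h0 hj => ?_⟩
  obtain ⟨h1, h2⟩ := hN
  have hFK := mem_okE hX hF.avoid Y
  have hzU := Om_sub hF.toWCrv Y k hz
  obtain ⟨hxD, hκ⟩ := lfN_mem hF.toWCrv Y k z hz
  obtain ⟨hw, h3⟩ := wt_logK hX hK hm hW.form Y hzU (hFK z) h0
  have hρK := rho_K hK Y hzU (hFK z)
  have hσK : S.σ k (S.lf Y k z) ∈ Ko := by
    show X.ρ k.1 (S.κ k (S.lf Y k z)) ∈ Ko
    rw [hκ]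
    exact hρK
  have h5 := form_chartK hK hW.form hxD hσK
  rw [hκ] at h5
  have hne : Wf (S.σ k (S.lf Y k z)) (fderiv ℂ (S.σ k) (S.lf Y k z) (1, 0)) (fderiv ℂ (S.σ k) (S.lf Y k z) (0, 1)) ≠ 0 := by
    rw [h5]
    exact mul_ne_zero (pow_ne_zero _ hj) hw
  have h4 := h1 hσK hne
  rw [h5, norm_mul, norm_pow, Real.log_mul (pow_ne_zero _ (norm_ne_zero_iff.2 hj)) (norm_ne_zero_iff.2 hw), Real.log_pow] at h4
  have h7 : X.ρ k.1 (Y.p k.1 z) = S.σ k (S.lf Y k z) := by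
    rw [← hκ]
    rfl
  have h8 : Real.log ‖X.ρ k.1 (Y.p k.1 z)‖ ≤ Real.log (‖S.σ k q‖ + 1) := by
    refine Real.log_le_log (norm_pos_iff.2 (wtn_rho_ne hX (Y.mem k.1 z hzU))) ?_
    rw [h7]
    exact h2.le
  have h6 : (jH : ℝ) / mK * Real.log ‖X.ρ k.1 (Y.p k.1 z)‖ ≤ jH / mK * Real.log (‖S.σ k q‖ + 1) := mul_le_mul_of_nonneg_left h8 (by positivity)
  have h9 : 1 / (mK : ℝ) * (mK * Real.log ‖jc (S.κ k) (S.lf Y k z)‖) = Real.log ‖jc (S.κ k) (S.lf Y k z)‖ := by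
    field_simp
  rw [mul_add, h9] at h4
  rw [add_assoc, h3]
  linarith

end Pool.Agent.MQK

end
end

section

/-!
# MQK DensNL: the density with the root energies of the boxes

Near a point `p₀` of `closedBall (y k) (t k)`: `eN ≤ C + log (‖H (p, p')‖ |x - x₀| ^ α |y - y₀| ^ β)`; a negative exponent occurs only if the point is on the axis,
so `|y| |y - y₀| ^ β ≤ 1` and the right hand side is bounded by the root densities `|x'| |x - x₀| ^ α`, `|y'| |y - y₀| ^ β`.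
-/

set_option autoImplicit false

open Topology Filter Metric MvPolynomial MeasureTheory Laplacian

noncomputable section

namespace Pool.Agent.MQK

open Pool.Agent.MQL

open Pool.Agent.H36.BP (EN fs)
open Pool.Agent.H17BP (Surface IsForm)
open Pool.Agent.H17EF (projVar coneE)
open Pool.Agent.H30M (tau LogSing tau_nonneg)
open Pool.Agent.MQ (lam En ztv dvg DDv gr dv Pack)
open Pool.Agent.MQ3

variable {M : ℕ} {P : Ideal (MvPolynomial (Fin (M + 1)) ℂ)} {RD Ra : MvPolynomial (Fin (M + 1)) ℂ} {Ko : Set (EN M)} {m : ℕ} {X : NCModel P RD} {θ : WDiff (coneE P) m}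
  {l : LF M} {S : Web X θ l} {Wf : EN M → EN M → EN M → ℂ} {mK jH : ℕ}

private theorem dn_ev {F : ℂ → EN M} (hF : Differentiable ℂ F) {R : MvPolynomial (Fin (M + 1)) ℂ} (hR : ∃ z, eval (F z).ofLp R ≠ 0) (z : ℂ) :
    ∀ᶠ w in 𝓝[≠] z, eval (F w).ofLp R ≠ 0 := by
  have han : AnalyticOnNhd ℂ (fun w => eval (F w).ofLp R) Set.univ := by
    intro w _
    have h1 : ∀ i, AnalyticAt ℂ (fun w => (F w).ofLp i) w := fun i =>
      ((EuclideanSpace.proj i : EN M →L[ℂ] ℂ).analyticAt _).comp (hF.analyticAt w)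
    refine (AnalyticAt.aeval_mvPolynomial h1 R).congr (Eventually.of_forall fun y => ?_)
    exact congrArg (fun f : MvPolynomial (Fin (M + 1)) ℂ →+* ℂ => f R) (MvPolynomial.coe_aeval_eq_eval (F y).ofLp)
  rcases (han z (Set.mem_univ _)).eventually_eq_zero_or_eventually_ne_zero with h1 | h1
  · exfalso
    obtain ⟨w, hw⟩ := hR
    have h3 := han.eqOn_zero_of_preconnected_of_eventuallyEq_zero isPreconnected_univ (Set.mem_univ z) h1
    exact hw (h3 (Set.mem_univ w))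
  · exact h1

private theorem dn_vec_ne {a b c : ℂ} (h : a ≠ 0 ∨ b ≠ 0 ∨ c ≠ 0) : (WithLp.toLp 2 ![a, b, c] : EN 2) ≠ 0 := by
  intro h0
  have h1 : (![a, b, c] : Fin 3 → ℂ) = 0 := congrArg WithLp.ofLp h0
  rcases h with h | h | h
  · exact h (congrFun h1 0)
  · exact h (congrFun h1 1)
  · exact h (congrFun h1 2)

/-- the vector of a box does not vanish along the curve -/
theorem dn_H_ne (C : Cov S Ra) (k : Fin C.nN) {F : ℂ → EN M} (hF : RCrv θ RD Ra F) (Y : NCLift X F) {z : ℂ} (hz : z ∈ Y.U (C.b k))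
    (hzb : Y.p (C.b k) z ∈ ball (C.y k) (C.t k)) : ∀ᶠ w in 𝓝[≠] z, C.H k (Y.p (C.b k) w) (deriv (Y.p (C.b k)) w) ≠ 0 := by
  have hBC : BCrv θ l (X.ρ (C.b k)) F (Y.U (C.b k)) (Y.p (C.b k)) := bcrv hF.toWCrv Y (C.b k)
  have hp := hBC.p_an z hz
  have hpd : ∀ᶠ w in 𝓝[≠] z, deriv (Y.p (C.b k)) w ≠ 0 := hBC.nc z hz
  have hp0 : ∀ᶠ w in 𝓝[≠] z, (Y.p (C.b k) w).1 ≠ 0 ∧ (Y.p (C.b k) w).2 ≠ 0 := hBC.ne z hz
  cases hu : C.u k with
  | none =>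
    have hH : C.H k = hA := by
      unfold Cov.H
      rw [hu]
      rfl
    rw [hH]
    filter_upwards [hpd, hp0] with w h1 h2
    refine dn_vec_ne ?_
    by_cases h3 : (deriv (Y.p (C.b k)) w).1 = 0
    · right; left
      refine mul_ne_zero h2.1 fun h4 => h1 (Prod.ext h3 h4)
    · left
      exact mul_ne_zero h2.2 h3
  | some u' =>
    have hH : C.H k = hB u' := by
      unfold Cov.H
      rw [hu]
      rfl
    obtain ⟨-, hu', hu''⟩ := C.N_B k u' hu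
    rw [hH]
    have hU : ∀ᶠ w in 𝓝 z, w ∈ Y.U (C.b k) ∧ Y.p (C.b k) w ∈ ball (C.y k) (C.t k) := by
      filter_upwards [(Y.isOpen _).mem_nhds hz, hp.continuousAt.eventually (isOpen_ball.mem_nhds hzb)] with w h1 h2 using ⟨h1, h2⟩
    have hup0 : ∀ᶠ w in 𝓝[≠] z, u' (Y.p (C.b k) w) ≠ 0 := by
      obtain ⟨d, hd⟩ := hF.homR
      filter_upwards [dn_ev hF.diff hF.neR z, hU.filter_mono nhdsWithin_le_nhds] with w h1 h2 h3
      obtain ⟨c, hc, h4⟩ := Y.eq (C.b k) w h2.1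
      apply h1
      rw [h4, Pool.Agent.H14.PP.eval_smulEN hd, ((hu'' _ (ball_subset_closedBall h2.2)).self_of_nhds.1).2 h3, mul_zero]
    filter_upwards [hpd, hup0] with w h1 h2
    refine dn_vec_ne ?_
    by_cases h3 : (deriv (Y.p (C.b k)) w).1 = 0
    · right; right
      exact mul_ne_zero h2 fun h4 => h1 (Prod.ext h3 h4)
    · right; left
      exact mul_ne_zero h2 h3

/-- the exponent is greater than `-1` and not positive -/
private theorem exX_bd (hm : 1 ≤ mK) (φ : ℂ × ℂ → EN M) (q : ℂ × ℂ) : -1 < exX Ko mK φ q ∧ exX Ko mK φ q ≤ 0 := by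
  have h1 : (0 : ℝ) < (mK : ℝ)⁻¹ := by positivity
  have h2 : (mK : ℝ)⁻¹ ≤ 1 := inv_le_one_of_one_le₀ (by exact_mod_cast hm)
  unfold exX
  split_ifs
  · constructor <;> linarith
  · constructor <;> norm_num

private theorem exY_bd (hm : 1 ≤ mK) (φ : ℂ × ℂ → EN M) (q : ℂ × ℂ) : -1 < exY Ko mK φ q ∧ exY Ko mK φ q ≤ 0 := by
  have h1 : (0 : ℝ) < (mK : ℝ)⁻¹ := by positivity
  have h2 : (mK : ℝ)⁻¹ ≤ 1 := inv_le_one_of_one_le₀ (by exact_mod_cast hm)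
  unfold exY
  split_ifs
  · constructor <;> linarith
  · constructor <;> norm_num

private theorem exX_ev {φ : ℂ × ℂ → EN M} {q : ℂ × ℂ} (h : exX Ko mK φ q < 0) : ∀ᶠ t in 𝓝 (0 : ℂ), φ (q.1, q.2 + t) ∉ Ko := by
  by_contra hc
  rw [exX, if_neg hc] at h
  exact lt_irrefl _ h

private theorem exY_ev {φ : ℂ × ℂ → EN M} {q : ℂ × ℂ} (h : exY Ko mK φ q < 0) : ∀ᶠ t in 𝓝 (0 : ℂ), φ (q.1 + t, q.2) ∉ Ko := by
  by_contra hc
  rw [exY, if_neg hc] at h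
  exact lt_irrefl _ h

/-- a line of the boundary is an axis -/
private theorem exX_zero (hD : DivB P RD Ko) {i : X.ι} {p : ℂ × ℂ} (hp : p ∈ X.B i) (h : exX Ko mK (X.ρ i) p < 0) : p.1 = 0 := by
  have h1 : Tendsto (fun t : ℂ => ((p.1, p.2 + t) : ℂ × ℂ)) (𝓝 0) (𝓝 p) := by
    have h2 : Continuous fun t : ℂ => ((p.1, p.2 + t) : ℂ × ℂ) := by fun_prop
    simpa using h2.tendsto 0
  have h2 : ∀ᶠ t in 𝓝 (0 : ℂ), p.1 * (p.2 + t) = 0 := by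
    filter_upwards [exX_ev h, h1.eventually ((X.isOpen i).mem_nhds hp)] with t h3 h4
    have h5 := X.sub i h4
    exact (X.div i _ h4).1 (hD.le _ ((X.box i).mem _ h5.1.le h5.2.le).self_of_nhds h3)
  by_contra hc
  have h3 : ∀ᶠ t in 𝓝[≠] (0 : ℂ), p.2 + t = 0 := (h2.mono fun t ht => (mul_eq_zero.1 ht).resolve_left hc).filter_mono nhdsWithin_le_nhds
  have h4 : p.2 + 0 = 0 := (mul_eq_zero.1 h2.self_of_nhds).resolve_left hc
  obtain ⟨t, h5, h6⟩ := (h3.and self_mem_nhdsWithin).exists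
  apply h6
  have h7 : t = 0 := by linear_combination h5 - h4
  exact h7

private theorem exY_zero (hD : DivB P RD Ko) {i : X.ι} {p : ℂ × ℂ} (hp : p ∈ X.B i) (h : exY Ko mK (X.ρ i) p < 0) : p.2 = 0 := by
  have h1 : Tendsto (fun t : ℂ => ((p.1 + t, p.2) : ℂ × ℂ)) (𝓝 0) (𝓝 p) := by
    have h2 : Continuous fun t : ℂ => ((p.1 + t, p.2) : ℂ × ℂ) := by fun_prop
    simpa using h2.tendsto 0
  have h2 : ∀ᶠ t in 𝓝 (0 : ℂ), (p.1 + t) * p.2 = 0 := by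
    filter_upwards [exY_ev h, h1.eventually ((X.isOpen i).mem_nhds hp)] with t h3 h4
    have h5 := X.sub i h4
    exact (X.div i _ h4).1 (hD.le _ ((X.box i).mem _ h5.1.le h5.2.le).self_of_nhds h3)
  by_contra hc
  have h3 : ∀ᶠ t in 𝓝[≠] (0 : ℂ), p.1 + t = 0 := (h2.mono fun t ht => (mul_eq_zero.1 ht).resolve_right hc).filter_mono nhdsWithin_le_nhds
  have h4 : p.1 + 0 = 0 := (mul_eq_zero.1 h2.self_of_nhds).resolve_right hc
  obtain ⟨t, h5, h6⟩ := (h3.and self_mem_nhdsWithin).exists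
  apply h6
  have h7 : t = 0 := by linear_combination h5 - h4
  exact h7

/-- `|y| |y - y₀| ^ β ≤ 1` -/
private theorem root_le_one {a a₀ : ℂ} {be : ℝ} (ha : ‖a‖ ≤ 1) (h1 : -1 < be) (h2 : be ≤ 0) (h3 : be < 0 → a₀ = 0) : ‖a‖ * ‖a - a₀‖ ^ be ≤ 1 := by
  rcases h2.lt_or_eq with h4 | h4
  · rw [h3 h4, sub_zero]
    rcases (norm_nonneg a).eq_or_lt with h5 | h5
    · rw [← h5, zero_mul]
      exact zero_le_one
    · have h6 : ‖a‖ * ‖a‖ ^ be = ‖a‖ ^ (1 + be) := by rw [Real.rpow_add h5, Real.rpow_one]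
      rw [h6]
      exact Real.rpow_le_one h5.le ha (by linarith)
  · rw [h4, Real.rpow_zero, mul_one]
    exact ha

/-- the vector of a box times the factor is bounded by the roots -/
private theorem H_root (C : Cov S Ra) (hD : DivB P RD Ko) (hm : 1 ≤ mK) (k : Fin C.nN) {p₀ : ℂ × ℂ} (hp₀ : p₀ ∈ closedBall (C.y k) (C.t k)) :
    ∃ C₂ : ℝ, 1 ≤ C₂ ∧ ∀ p ∈ closedBall (C.y k) (C.t k), ∀ w,
      ‖C.H k p w‖ * (‖(p - p₀).1‖ ^ exX Ko mK (X.ρ (C.b k)) p₀ * ‖(p - p₀).2‖ ^ exY Ko mK (X.ρ (C.b k)) p₀) ≤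
        C₂ * (‖w.1‖ * ‖(p - p₀).1‖ ^ exX Ko mK (X.ρ (C.b k)) p₀ + ‖w.2‖ * ‖(p - p₀).2‖ ^ exY Ko mK (X.ρ (C.b k)) p₀) := by
  obtain ⟨hx1, hx2⟩ := exX_bd (Ko := Ko) hm (X.ρ (C.b k)) p₀
  obtain ⟨hy1, hy2⟩ := exY_bd (Ko := Ko) hm (X.ρ (C.b k)) p₀
  have hx0 : exX Ko mK (X.ρ (C.b k)) p₀ < 0 → p₀.1 = 0 := exX_zero hD (C.N_sub k hp₀)
  have hy0 : exY Ko mK (X.ρ (C.b k)) p₀ < 0 → p₀.2 = 0 := exY_zero hD (C.N_sub k hp₀)
  obtain ⟨al, hal⟩ : ∃ al, al = exX Ko mK (X.ρ (C.b k)) p₀ := ⟨_, rfl⟩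
  obtain ⟨be, hbe⟩ : ∃ be, be = exY Ko mK (X.ρ (C.b k)) p₀ := ⟨_, rfl⟩
  rw [← hal] at hx1 hx2 hx0 ⊢
  rw [← hbe] at hy1 hy2 hy0 ⊢
  cases hu : C.u k with
  | none =>
    refine ⟨1, le_rfl, fun p hp w => ?_⟩
    have hH : C.H k = hA := by
      unfold Cov.H
      rw [hu]
      rfl
    have hpD : p ∈ DD := X.sub _ (C.N_sub k hp)
    rw [hH, one_mul]
    have h1 : ‖hA p w‖ ≤ ‖p.2‖ * ‖w.1‖ + ‖p.1‖ * ‖w.2‖ := by
      unfold hA
      refine (norm_vec3_le _ _ _).trans ?_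
      rw [norm_mul, norm_mul, norm_zero, add_zero]
    have h2 : ‖p.2‖ * ‖(p - p₀).2‖ ^ be ≤ 1 := root_le_one hpD.2.le hy1 hy2 hy0
    have h3 : ‖p.1‖ * ‖(p - p₀).1‖ ^ al ≤ 1 := root_le_one hpD.1.le hx1 hx2 hx0
    have h4 : 0 ≤ ‖(p - p₀).1‖ ^ al := by positivity
    have h5 : 0 ≤ ‖(p - p₀).2‖ ^ be := by positivity
    calc ‖hA p w‖ * (‖(p - p₀).1‖ ^ al * ‖(p - p₀).2‖ ^ be)
        ≤ (‖p.2‖ * ‖w.1‖ + ‖p.1‖ * ‖w.2‖) * (‖(p - p₀).1‖ ^ al * ‖(p - p₀).2‖ ^ be) := mul_le_mul_of_nonneg_right h1 (mul_nonneg h4 h5)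
      _ = (‖p.2‖ * ‖(p - p₀).2‖ ^ be) * (‖w.1‖ * ‖(p - p₀).1‖ ^ al) + (‖p.1‖ * ‖(p - p₀).1‖ ^ al) * (‖w.2‖ * ‖(p - p₀).2‖ ^ be) := by ring
      _ ≤ 1 * (‖w.1‖ * ‖(p - p₀).1‖ ^ al) + 1 * (‖w.2‖ * ‖(p - p₀).2‖ ^ be) :=
        add_le_add (mul_le_mul_of_nonneg_right h2 (mul_nonneg (norm_nonneg _) h4)) (mul_le_mul_of_nonneg_right h3 (mul_nonneg (norm_nonneg _) h5))
      _ = _ := by ring
  | some u' =>
    obtain ⟨hDS, -, -⟩ := C.N_B k u' hu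
    have h0 := hDS hp₀
    have hal0 : al = 0 := le_antisymm hx2 (not_lt.1 fun h => h0.1.1 (hx0 h))
    have hbe0 : be = 0 := le_antisymm hy2 (not_lt.1 fun h => h0.2.1 (hy0 h))
    obtain ⟨C₁, hC₁, hle⟩ := hN_le C k
    refine ⟨1 + C₁, by linarith, fun p hp w => ?_⟩
    rw [hal0, hbe0, Real.rpow_zero, Real.rpow_zero, mul_one, mul_one, mul_one, mul_one]
    have h1 := hle p hp w
    have h2 : ‖w‖ ≤ ‖w.1‖ + ‖w.2‖ := by
      rw [Prod.norm_def]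
      exact max_le (by linarith [norm_nonneg w.2]) (by linarith [norm_nonneg w.1])
    have h3 : C₁ * ‖w‖ ≤ C₁ * (‖w.1‖ + ‖w.2‖) := mul_le_mul_of_nonneg_left h2 hC₁
    nlinarith [norm_nonneg w.1, norm_nonneg w.2]

/-- the bound in a neighbourhood of a point of a box -/
private theorem loc_up (hX : Surface (coneE P)) (hD : DivB P RD Ko) (hW : LW P Ko mK jH Wf) (C : Cov S Ra) (CK : X.ι → Set (ℂ × ℂ) → ℝ) (k : Fin C.nN)
    {p₀ : ℂ × ℂ} (hp₀ : p₀ ∈ closedBall (C.y k) (C.t k)) :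
    ∃ N ∈ 𝓝 p₀, ∃ A B : ℝ, 0 ≤ A ∧ ∀ F : ℂ → EN M, LCrv θ RD Ko Ra F → ∀ (Y : NCLift X F) (lm : ℂ → ℝ), Continuous lm → (∀ z, 0 ≤ lm z) →
      (∀ i K, K ⊆ X.B i → IsCompact K → ∀ z ∈ Y.U i, Y.p i z ∈ K → ‖deriv (Y.p i) z‖ ≤ CK i K * lm z) →
      ∃ g : ℂ → ℝ, EG A lm g ∧ ∀ z ∈ Y.U (C.b k), Y.p (C.b k) z ∈ N → Y.p (C.b k) z ∈ closedBall (C.y k) (C.t k) → wt Wf Y (C.b k) z ≠ 0 →
        C.H k (Y.p (C.b k) z) (deriv (Y.p (C.b k)) z) ≠ 0 → eN (C.H k) Wf mK jH Y (C.b k) z ≤ B + Real.log (1 + g z) := by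
  have hpB : p₀ ∈ X.B (C.b k) := C.N_sub k hp₀
  obtain ⟨N, hN, C₀, hwt⟩ := wt_leB hX hD hW (C.b k) hpB
  obtain ⟨C₂, hC₂, hroot⟩ := H_root C hD hW.one_m k hp₀
  obtain ⟨hx1, hx2⟩ := exX_bd (Ko := Ko) hW.one_m (X.ρ (C.b k)) p₀
  obtain ⟨hy1, hy2⟩ := exY_bd (Ko := Ko) hW.one_m (X.ρ (C.b k)) p₀
  have hexX : exX Ko mK (X.ρ (C.b k)) p₀ < 0 → ∀ᶠ t in 𝓝 (0 : ℂ), X.ρ (C.b k) (p₀.1, p₀.2 + t) ∉ Ko := exX_ev
  have hexY : exY Ko mK (X.ρ (C.b k)) p₀ < 0 → ∀ᶠ t in 𝓝 (0 : ℂ), X.ρ (C.b k) (p₀.1 + t, p₀.2) ∉ Ko := exY_ev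
  obtain ⟨al, hal⟩ : ∃ al, al = exX Ko mK (X.ρ (C.b k)) p₀ := ⟨_, rfl⟩
  obtain ⟨be, hbe⟩ : ∃ be, be = exY Ko mK (X.ρ (C.b k)) p₀ := ⟨_, rfl⟩
  simp only [← hal, ← hbe] at hwt hroot hx1 hx2 hy1 hy2 hexX hexY
  -- the radius
  have hex : ∀ᶠ r in 𝓝[>] (0 : ℝ), closedBall p₀ r ⊆ X.B (C.b k) ∩ N ∧ (al < 0 → ∀ t : ℂ, ‖t‖ < r → X.ρ (C.b k) (p₀.1, p₀.2 + t) ∉ Ko) ∧
      (be < 0 → ∀ t : ℂ, ‖t‖ < r → X.ρ (C.b k) (p₀.1 + t, p₀.2) ∉ Ko) := by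
    have h1 : X.B (C.b k) ∩ N ∈ 𝓝 p₀ := inter_mem ((X.isOpen _).mem_nhds hpB) hN
    obtain ⟨ε, hε, hball⟩ := nhds_basis_closedBall.mem_iff.1 h1
    have h2 : ∃ ε' > 0, al < 0 → ∀ t : ℂ, ‖t‖ < ε' → X.ρ (C.b k) (p₀.1, p₀.2 + t) ∉ Ko := by
      by_cases h3 : al < 0
      · obtain ⟨ε', hε', h4⟩ := Metric.eventually_nhds_iff.1 (hexX h3)
        exact ⟨ε', hε', fun _ t ht => h4 (by rwa [dist_zero_right])⟩
      · exact ⟨1, one_pos, fun h4 => absurd h4 h3⟩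
    have h3 : ∃ ε' > 0, be < 0 → ∀ t : ℂ, ‖t‖ < ε' → X.ρ (C.b k) (p₀.1 + t, p₀.2) ∉ Ko := by
      by_cases h3 : be < 0
      · obtain ⟨ε', hε', h4⟩ := Metric.eventually_nhds_iff.1 (hexY h3)
        exact ⟨ε', hε', fun _ t ht => h4 (by rwa [dist_zero_right])⟩
      · exact ⟨1, one_pos, fun h4 => absurd h4 h3⟩
    obtain ⟨ε₁, hε₁, h4⟩ := h2
    obtain ⟨ε₂, hε₂, h5⟩ := h3
    filter_upwards [Ioo_mem_nhdsGT hε, Ioo_mem_nhdsGT hε₁, Ioo_mem_nhdsGT hε₂] with r hr hr₁ hr₂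
    exact ⟨(closedBall_subset_closedBall hr.2.le).trans hball, fun h t ht => h4 h t (ht.trans hr₁.2), fun h t ht => h5 h t (ht.trans hr₂.2)⟩
  obtain ⟨r, hr, hr0⟩ := (hex.and self_mem_nhdsWithin).exists
  obtain ⟨hrB, hrX, hrY⟩ := hr
  have hr0 : 0 < r := hr0
  have hCK : 0 ≤ |CK (C.b k) (closedBall p₀ r)| := abs_nonneg _
  obtain ⟨A₁, hA₁, h₁⟩ := root_fst (al := al) hx1 (half_pos hr0) (half_lt_self hr0) hCK
  obtain ⟨A₂, hA₂, h₂⟩ := root_snd (be := be) hy1 (half_pos hr0) (half_lt_self hr0) hCK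
  refine ⟨closedBall p₀ (r / 2), closedBall_mem_nhds _ (half_pos hr0), 2 * A₁ + 2 * A₂, C₀ + Real.log C₂, by linarith, fun F hF Y lm hlc hl0 hle => ?_⟩
  -- the curve
  obtain ⟨Om, hOm⟩ : ∃ Om, Om = {z | z ∈ Y.U (C.b k) ∧ Y.p (C.b k) z ∈ ball p₀ r} := ⟨_, rfl⟩
  have hOo : IsOpen Om := by
    rw [hOm]
    refine isOpen_iff_mem_nhds.2 fun z hz => ?_
    exact inter_mem ((Y.isOpen _).mem_nhds hz.1) ((Y.an _ z hz.1).continuousAt.preimage_mem_nhds (isOpen_ball.mem_nhds hz.2))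
  have hOU : ∀ z ∈ Om, z ∈ Y.U (C.b k) ∧ Y.p (C.b k) z ∈ ball p₀ r := fun z hz => by rwa [hOm] at hz
  have han : ∀ z ∈ Om, AnalyticAt ℂ (fun w => Y.p (C.b k) w - p₀) z := fun z hz => (Y.an _ z (hOU z hz).1).sub analyticAt_const
  have hb : ∀ z ∈ Om, Y.p (C.b k) z - p₀ ∈ ball (0 : ℂ × ℂ) r := fun z hz => by
    have h := (hOU z hz).2
    rw [mem_ball_iff_norm] at h
    rwa [mem_ball_zero_iff]
  have hcl : ∀ t < r, IsClosed {z | z ∈ Om ∧ Y.p (C.b k) z - p₀ ∈ closedBall (0 : ℂ × ℂ) t} := fun t ht => by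
    have h1 := Y.closed (C.b k) (closedBall p₀ t) ((closedBall_subset_closedBall ht.le).trans (hrB.trans Set.inter_subset_left)) (isCompact_closedBall _ _)
    convert h1 using 1
    ext z
    show z ∈ Om ∧ Y.p (C.b k) z - p₀ ∈ closedBall (0 : ℂ × ℂ) t ↔ z ∈ Y.U (C.b k) ∧ Y.p (C.b k) z ∈ closedBall p₀ t
    rw [mem_closedBall_zero_iff, mem_closedBall_iff_norm]
    constructor
    · rintro ⟨h2, h3⟩
      exact ⟨(hOU z h2).1, h3⟩
    · rintro ⟨h2, h3⟩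
      refine ⟨?_, h3⟩
      rw [hOm]
      refine ⟨h2, ?_⟩
      rw [mem_ball_iff_norm]
      exact h3.trans_lt ht
  have hne0 : ∀ z ∈ Om, X.ρ (C.b k) (Y.p (C.b k) z) ∈ Ko := fun z hz => by
    obtain ⟨c, hc, h4⟩ := Y.eq (C.b k) z (hOU z hz).1
    have h5 := hF.avoid z
    rw [h4] at h5
    exact (smul_mem_iff hD.op hc).1 h5
  have hav1 : al < 0 → ∀ z ∈ Om, (Y.p (C.b k) z - p₀).1 ≠ 0 := fun h z hz h3 => by
    refine (?_ : X.ρ (C.b k) (Y.p (C.b k) z) ∉ Ko) (hne0 z hz)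
    have h4 := hb z hz
    rw [mem_ball_zero_iff] at h4
    have h5 := hrX h (Y.p (C.b k) z - p₀).2 ((norm_snd_le _).trans_lt h4)
    have h6 : (p₀.1, p₀.2 + (Y.p (C.b k) z - p₀).2) = Y.p (C.b k) z := by
      refine Prod.ext ?_ ?_
      · have : (Y.p (C.b k) z).1 - p₀.1 = 0 := h3
        exact (sub_eq_zero.1 this).symm
      · show p₀.2 + ((Y.p (C.b k) z).2 - p₀.2) = _
        ring
    rwa [h6] at h5
  have hav2 : be < 0 → ∀ z ∈ Om, (Y.p (C.b k) z - p₀).2 ≠ 0 := fun h z hz h3 => by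
    refine (?_ : X.ρ (C.b k) (Y.p (C.b k) z) ∉ Ko) (hne0 z hz)
    have h4 := hb z hz
    rw [mem_ball_zero_iff] at h4
    have h5 := hrY h (Y.p (C.b k) z - p₀).1 ((norm_fst_le _).trans_lt h4)
    have h6 : (p₀.1 + (Y.p (C.b k) z - p₀).1, p₀.2) = Y.p (C.b k) z := by
      refine Prod.ext ?_ ?_
      · show p₀.1 + ((Y.p (C.b k) z).1 - p₀.1) = _
        ring
      · have : (Y.p (C.b k) z).2 - p₀.2 = 0 := h3
        exact (sub_eq_zero.1 this).symm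
    rwa [h6] at h5
  have hdd : ∀ z ∈ Om, deriv (fun w => Y.p (C.b k) w - p₀) z = deriv (Y.p (C.b k)) z := fun z _ => deriv_sub_const _
  have hder : ∀ z ∈ Om, ‖deriv (fun w => Y.p (C.b k) w - p₀) z‖ ≤ |CK (C.b k) (closedBall p₀ r)| * lm z := fun z hz => by
    rw [hdd z hz]
    refine (hle (C.b k) (closedBall p₀ r) (hrB.trans Set.inter_subset_left) (isCompact_closedBall _ _) z (hOU z hz).1 (ball_subset_closedBall (hOU z hz).2)).trans ?_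
    exact mul_le_mul_of_nonneg_right (le_abs_self _) (hl0 z)
  obtain ⟨l₁, K₁, c1, n1, e1, b1⟩ := h₁ Om _ lm hOo han hb hcl hav1 hlc hl0 hder
  obtain ⟨l₂, K₂, c2, n2, e2, b2⟩ := h₂ Om _ lm hOo han hb hcl hav2 hlc hl0 hder
  have g1 : EG A₁ lm l₁ := ⟨c1, fun z => (hl0 z).trans (n1 z), K₁, e1⟩
  have g2 : EG A₂ lm l₂ := ⟨c2, fun z => (hl0 z).trans (n2 z), K₂, e2⟩
  refine ⟨fun z => l₁ z + l₂ z, g1.add g2, fun z hz hzN hzt hw hH => ?_⟩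
  have hzO : z ∈ Om := by
    rw [hOm]
    exact ⟨hz, closedBall_subset_ball (half_lt_self hr0) hzN⟩
  have hzs : Y.p (C.b k) z - p₀ ∈ closedBall (0 : ℂ × ℂ) (r / 2) := by
    rw [mem_closedBall_zero_iff]
    rwa [mem_closedBall_iff_norm] at hzN
  have hzN' : Y.p (C.b k) z ∈ N := (hrB (closedBall_subset_closedBall (half_le_self hr0.le) hzN)).2
  have k1 := b1 z hzO hzs
  have k2 := b2 z hzO hzs
  rw [hdd z hzO] at k1 k2
  have k3 := hwt F hF.diff hF.avoid Y z hz hzN' hw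
  have k4 := hroot _ hzt (deriv (Y.p (C.b k)) z)
  have hJ : JD al be (Y.p (C.b k) z - p₀) = ((‖(Y.p (C.b k) z - p₀).1‖ ^ al * ‖(Y.p (C.b k) z - p₀).2‖ ^ be : ℝ) : ℂ) := rfl
  have hJ1 : 0 < ‖(Y.p (C.b k) z - p₀).1‖ ^ al := by
    rcases hx2.lt_or_eq with h | h
    · exact Real.rpow_pos_of_pos (norm_pos_iff.2 (hav1 h z hzO)) _
    · rw [h, Real.rpow_zero]
      exact one_pos
  have hJ2 : 0 < ‖(Y.p (C.b k) z - p₀).2‖ ^ be := by
    rcases hy2.lt_or_eq with h | h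
    · exact Real.rpow_pos_of_pos (norm_pos_iff.2 (hav2 h z hzO)) _
    · rw [h, Real.rpow_zero]
      exact one_pos
  have hJn : ‖JD al be (Y.p (C.b k) z - p₀)‖ = ‖(Y.p (C.b k) z - p₀).1‖ ^ al * ‖(Y.p (C.b k) z - p₀).2‖ ^ be := by
    rw [hJ, Complex.norm_real, Real.norm_of_nonneg (mul_pos hJ1 hJ2).le]
  have hH0 : 0 < ‖C.H k (Y.p (C.b k) z) (deriv (Y.p (C.b k)) z)‖ := norm_pos_iff.2 hH
  have hJ0 : 0 < ‖JD al be (Y.p (C.b k) z - p₀)‖ := by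
    rw [hJn]
    exact mul_pos hJ1 hJ2
  have k5 : ‖C.H k (Y.p (C.b k) z) (deriv (Y.p (C.b k)) z)‖ * ‖JD al be (Y.p (C.b k) z - p₀)‖ ≤ C₂ * (1 + (l₁ z + l₂ z)) := by
    rw [hJn]
    refine k4.trans ?_
    refine mul_le_mul_of_nonneg_left ?_ (by linarith)
    linarith
  have k6 := Real.log_le_log (mul_pos hH0 hJ0) k5
  have hg0 : 0 < 1 + (l₁ z + l₂ z) := by
    have h1 := (hl0 z).trans (n1 z)
    have h2 := (hl0 z).trans (n2 z)
    linarith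
  rw [Real.log_mul hH0.ne' hJ0.ne', Real.log_mul (by linarith) hg0.ne'] at k6
  unfold eN eH
  linarith

/-- the bound in a box -/
private theorem box_up (hX : Surface (coneE P)) (hD : DivB P RD Ko) (hW : LW P Ko mK jH Wf) (C : Cov S Ra) (CK : X.ι → Set (ℂ × ℂ) → ℝ) (k : Fin C.nN) :
    ∃ A B : ℝ, 0 ≤ A ∧ ∀ F : ℂ → EN M, LCrv θ RD Ko Ra F → ∀ (Y : NCLift X F) (lm : ℂ → ℝ), Continuous lm → (∀ z, 0 ≤ lm z) →
      (∀ i K, K ⊆ X.B i → IsCompact K → ∀ z ∈ Y.U i, Y.p i z ∈ K → ‖deriv (Y.p i) z‖ ≤ CK i K * lm z) →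
      ∃ g : ℂ → ℝ, EG A lm g ∧ ∀ z ∈ Y.U (C.b k), Y.p (C.b k) z ∈ closedBall (C.y k) (C.t k) → wt Wf Y (C.b k) z ≠ 0 →
        C.H k (Y.p (C.b k) z) (deriv (Y.p (C.b k)) z) ≠ 0 → eN (C.H k) Wf mK jH Y (C.b k) z ≤ B + Real.log (1 + g z) := by
  obtain ⟨Q, hQ⟩ : ∃ Q : Set (ℂ × ℂ) → Prop, Q = fun N => ∃ A B : ℝ, 0 ≤ A ∧ ∀ F : ℂ → EN M, LCrv θ RD Ko Ra F → ∀ (Y : NCLift X F) (lm : ℂ → ℝ),
      Continuous lm → (∀ z, 0 ≤ lm z) → (∀ i K, K ⊆ X.B i → IsCompact K → ∀ z ∈ Y.U i, Y.p i z ∈ K → ‖deriv (Y.p i) z‖ ≤ CK i K * lm z) →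
      ∃ g : ℂ → ℝ, EG A lm g ∧ ∀ z ∈ Y.U (C.b k), Y.p (C.b k) z ∈ N → Y.p (C.b k) z ∈ closedBall (C.y k) (C.t k) → wt Wf Y (C.b k) z ≠ 0 →
        C.H k (Y.p (C.b k) z) (deriv (Y.p (C.b k)) z) ≠ 0 → eN (C.H k) Wf mK jH Y (C.b k) z ≤ B + Real.log (1 + g z) := ⟨_, rfl⟩
  have key : Q (closedBall (C.y k) (C.t k)) := by
    refine IsCompact.induction_on (isCompact_closedBall (C.y k) (C.t k)) (p := Q) ?_ ?_ ?_ ?_
    · rw [hQ]
      exact ⟨0, 0, le_rfl, fun F _ Y lm _ _ _ => ⟨fun _ => 0, EG.zero, fun z _ h => absurd h (Set.notMem_empty _)⟩⟩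
    · intro s t hst
      rw [hQ]
      rintro ⟨A, B, hA, h⟩
      refine ⟨A, B, hA, fun F hF Y lm h1 h2 h3 => ?_⟩
      obtain ⟨g, hg, hle⟩ := h F hF Y lm h1 h2 h3
      exact ⟨g, hg, fun z hz hzs => hle z hz (hst hzs)⟩
    · intro s t
      rw [hQ]
      rintro ⟨A, B, hA, h⟩ ⟨A', B', hA', h'⟩
      refine ⟨2 * A + 2 * A', max B B', by linarith, fun F hF Y lm h1 h2 h3 => ?_⟩
      obtain ⟨g, hg, hle⟩ := h F hF Y lm h1 h2 h3
      obtain ⟨g', hg', hle'⟩ := h' F hF Y lm h1 h2 h3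
      refine ⟨fun z => g z + g' z, hg.add hg', fun z hz hzs hzt hw hH => ?_⟩
      have n1 := hg.2.1 z
      have n2 := hg'.2.1 z
      rcases hzs with hzs | hzs
      · have h4 := hle z hz hzs hzt hw hH
        have h5 : Real.log (1 + g z) ≤ Real.log (1 + (g z + g' z)) := Real.log_le_log (by linarith) (by linarith)
        linarith [le_max_left B B']
      · have h4 := hle' z hz hzs hzt hw hH
        have h5 : Real.log (1 + g' z) ≤ Real.log (1 + (g z + g' z)) := Real.log_le_log (by linarith) (by linarith)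
        linarith [le_max_right B B']
    · intro p₀ hp₀
      obtain ⟨N, hN, A, B, hA, h⟩ := loc_up (jH := jH) hX hD hW C CK k hp₀
      refine ⟨N, mem_nhdsWithin_of_mem_nhds hN, ?_⟩
      rw [hQ]
      exact ⟨A, B, hA, h⟩
  rw [hQ] at key
  obtain ⟨A, B, hA, h⟩ := key
  refine ⟨A, B, hA, fun F hF Y lm h1 h2 h3 => ?_⟩
  obtain ⟨g, hg, hle⟩ := h F hF Y lm h1 h2 h3
  exact ⟨g, hg, fun z hz hzt hw hH => hle z hz hzt hzt hw hH⟩

theorem exists_densL (hX : Surface (coneE P)) (hD : DivB P RD Ko) (hW : LW P Ko mK jH Wf) (C : Cov S Ra) (A₀ : ℝ) (CK : X.ι → Set (ℂ × ℂ) → ℝ) :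
    ∃ A B : ℝ, 0 ≤ A ∧ ∀ F : ℂ → EN M, LCrv θ RD Ko Ra F → ∀ (Y : NCLift X F) (lm₀ : ℂ → ℝ), WNe Wf Y → NCDens Y A₀ CK lm₀ →
      ∃ lm : ℂ → ℝ, DensL C Y Wf mK jH A B lm := by
  choose A₁ B₁ hA₁ h₁ using fun k => box_up (jH := jH) hX hD hW C CK k
  obtain ⟨A₂, hA₂, hG⟩ := exists_EG (ι := Fin C.nN) (A := A₁) hA₁
  obtain ⟨A₃, hA₃, hN⟩ := exists_densN C A₀ CK
  obtain ⟨B, hB⟩ : ∃ B : ℝ, ∀ k, B₁ k ≤ B := by
    refine ⟨∑ k, |B₁ k|, fun k => (le_abs_self _).trans ?_⟩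
    exact Finset.single_le_sum (f := fun k => |B₁ k|) (fun k _ => abs_nonneg _) (Finset.mem_univ k)
  refine ⟨2 * A₃ + 2 * (A₂ * |A₀|), B, by positivity, fun F hF Y lm₀ hne h => ?_⟩
  have hc := h.cont
  have h0 : ∀ z, 0 ≤ lm₀ z := fun z => (Pool.Agent.H36.BP.fs_nonneg (F z) (deriv F z)).trans (h.le z)
  obtain ⟨K₀, hK₀⟩ := h.energy
  choose g hg using fun k => h₁ k F hF Y lm₀ hc h0 h.deriv_le
  obtain ⟨G, ⟨hGc, hGn, KG, hGe⟩, hgG⟩ := hG lm₀ g fun k => (hg k).1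
  obtain ⟨l₁, hl₁⟩ := hN F hF.toWCrv Y lm₀ h
  have hl0 : ∀ z, 0 ≤ l₁ z := fun z => (Pool.Agent.H36.BP.fs_nonneg (F z) (deriv F z)).trans (hl₁.le z)
  obtain ⟨K₁, hK₁⟩ := hl₁.energy
  have hcont : Continuous fun z => l₁ z + G z := hl₁.cont.add hGc
  refine ⟨fun z => l₁ z + G z, ⟨⟨hcont, fun z => ?_, ⟨2 * K₁ + 2 * (A₂ * K₀ + KG), fun R hR => ?_⟩, fun k z hz hzK => ?_, fun k a z hz hzK => ?_,
    fun j z hz hzK => ?_⟩, fun k z hz hzt hcd => ?_⟩⟩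
  · linarith [hl₁.le z, hGn z]
  · have i1 : Integrable fun z => tau R z * l₁ z ^ 2 := tau_int hR (hl₁.cont.pow 2)
    have i2 : Integrable fun z => tau R z * G z ^ 2 := tau_int hR (hGc.pow 2)
    have i3 : Integrable fun z => tau R z * (l₁ z + G z) ^ 2 := tau_int hR (hcont.pow 2)
    have h3 : ∫ z, tau R z * (l₁ z + G z) ^ 2 ≤ ∫ z, (2 * (tau R z * l₁ z ^ 2) + 2 * (tau R z * G z ^ 2)) := by
      refine integral_mono i3 ((i1.const_mul 2).add (i2.const_mul 2)) fun z => ?_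
      have h4 : (l₁ z + G z) ^ 2 ≤ 2 * l₁ z ^ 2 + 2 * G z ^ 2 := by nlinarith [sq_nonneg (l₁ z - G z)]
      have h5 := mul_le_mul_of_nonneg_left h4 (tau_nonneg hR z)
      show tau R z * (l₁ z + G z) ^ 2 ≤ 2 * (tau R z * l₁ z ^ 2) + 2 * (tau R z * G z ^ 2)
      linarith
    rw [integral_add (i1.const_mul 2) (i2.const_mul 2), integral_const_mul, integral_const_mul] at h3
    have h6 := hK₁ R hR
    have h7 := hGe R hR
    have h8 := mul_le_mul_of_nonneg_left (hK₀ R hR) hA₂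
    have h9 : 0 ≤ En F R := integral_nonneg fun z => mul_nonneg (tau_nonneg hR z) (sq_nonneg _)
    have h10 : A₀ * En F R ≤ |A₀| * En F R := mul_le_mul_of_nonneg_right (le_abs_self _) h9
    have h11 := mul_le_mul_of_nonneg_left h10 hA₂
    have e1 : (2 * A₃ + 2 * (A₂ * |A₀|)) * En F R = 2 * (A₃ * En F R) + 2 * (A₂ * (|A₀| * En F R)) := by ring
    rw [e1]
    linarith
  · linarith [hl₁.box k z hz hzK, hGn z]
  · linarith [hl₁.chart k a z hz hzK, hGn z]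
  · linarith [hl₁.pt j z hz hzK, hGn z]
  · have hpt : ∀ w ∈ Y.U (C.b k), Y.p (C.b k) w ∈ closedBall (C.y k) (C.t k) → wt Wf Y (C.b k) w ≠ 0 →
        C.H k (Y.p (C.b k) w) (deriv (Y.p (C.b k)) w) ≠ 0 → eN (C.H k) Wf mK jH Y (C.b k) w ≤ B + Real.log (1 + (l₁ w + G w)) := fun w h1 h2 h3 h4 => by
      have h5 := (hg k).2 w h1 h2 h3 h4
      have h6 : Real.log (1 + g k w) ≤ Real.log (1 + (l₁ w + G w)) := by
        have h7 := (hg k).1.2.1 w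
        exact Real.log_le_log (by linarith) (by linarith [hgG k w, hl0 w])
      linarith [hB k]
    have hcont' : ContinuousAt (fun w => B + Real.log (1 + (l₁ w + G w))) z :=
      continuousAt_const.add (ContinuousAt.log (continuousAt_const.add hcont.continuousAt) (by linarith [hl0 z, hGn z]))
    refine le_of_tendsto_of_tendsto (b := 𝓝[≠] z) (hcd.continuousAt.tendsto.mono_left nhdsWithin_le_nhds) (hcont'.tendsto.mono_left nhdsWithin_le_nhds) ?_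
    filter_upwards [hne (C.b k) z hz, nhdsWithin_le_nhds ((Y.isOpen (C.b k)).mem_nhds hz),
      nhdsWithin_le_nhds ((Y.an (C.b k) z hz).continuousAt.eventually (isOpen_ball.mem_nhds hzt)), dn_H_ne C k hF.toRCrv Y hz hzt] with w e1 e2 e3 e4
    exact hpt w e2 (ball_subset_closedBall e3) e1 e4

end Pool.Agent.MQK

end
end
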