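import Pool.Agent.H43.TL2.M09
import Pool.Agent.H43.TL2.M14
import Pool.Agent.H43.TL2.M21
import Pool.Agent.H43.TL2.M26
import Pool.Agent.H43.TL2.M28
import Pool.Agent.H43.TL2.M29

/-! The parts of this file: H17EF.Bridge, MQ.GeoDefs, MQ.Frame_1. -/

section

/-!
# EF Bridge: from the projective space to the cone
-/

set_option autoImplicit false

open Topology Filter MvPolynomial Metric

noncomputable section

namespace Pool.Agent.H17EF

open Pool.Agent.H17 (PN VanishesAt HolomorphicInto ZariskiClosedIn)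
open Pool.Agent.H62.FC (Homog)
open Pool.Agent.H17BP (Surface IsChart IsForm NoZeros)
open Pool.Agent.H17LG.Variety (FunField IsLogGeneralType)
open Pool.Agent.H13.SM (cone)
open Pool.Agent.H36.BP (EN fs wd formT isCone_transport germ_transport tan_transport)
open Pool.Agent.H14.PP (IsCone Chart Form)

variable {N : ℕ}

/-- homogeneous coordinates as a Euclidean vector -/
def LE (N : ℕ) : (Fin (N + 1) → ℂ) ≃L[ℂ] EN N := (EuclideanSpace.equiv (Fin (N + 1)) ℂ).symm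

/-- the cone in the Euclidean space -/
def coneE (P : Ideal (MvPolynomial (Fin (N + 1)) ℂ)) : Set (EN N) := (LE N).symm ⁻¹' cone P

theorem mk_mem_projVar {P : Ideal (MvPolynomial (Fin (N + 1)) ℂ)} (hP : Homog P) {x : Fin (N + 1) → ℂ} (hx : x ≠ 0) :
    Projectivization.mk ℂ x hx ∈ projVar P ↔ x ∈ cone P := by
  obtain ⟨a, ha, hrep⟩ := Pool.Agent.H36.BP.rep_mk hx
  constructor
  · intro h
    refine ⟨hx, fun Q hQ => ?_⟩
    rw [← MvPolynomial.sum_homogeneousComponent Q, map_sum]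
    refine Finset.sum_eq_zero fun i _ => ?_
    have h1 := h _ (hP Q hQ i) i (homogeneousComponent_isHomogeneous i Q)
    unfold VanishesAt at h1
    rw [hrep, eval_smul_form' (homogeneousComponent_isHomogeneous i Q)] at h1
    exact (mul_eq_zero.1 h1).resolve_left (pow_ne_zero i ha)
  · intro h Q hQ n hn
    unfold VanishesAt
    rw [hrep, eval_smul_form' hn, h.2 Q hQ, mul_zero]
where
  eval_smul_form' {d : ℕ} {Q : MvPolynomial (Fin (N + 1)) ℂ} (hQ : Q.IsHomogeneous d) (c : ℂ)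
      (x : Fin (N + 1) → ℂ) : eval (c • x) Q = c ^ d * eval x Q := by
    rw [MvPolynomial.eval_eq', MvPolynomial.eval_eq', Finset.mul_sum]
    apply Finset.sum_congr rfl
    intro m hm
    have hdeg : ∑ i, m i = d := by
      have := hQ (MvPolynomial.mem_support_iff.1 hm)
      rw [Finsupp.weight_apply] at this
      simpa [Finsupp.sum_fintype] using this
    have h1 : ∏ i, (c • x) i ^ m i = c ^ d * ∏ i, x i ^ m i := by
      rw [← hdeg, ← Finset.prod_pow_eq_pow_sum, ← Finset.prod_mul_distrib]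
      exact Finset.prod_congr rfl fun i _ => by simp [mul_pow]
    rw [h1]
    ring

theorem mem_coneE {P : Ideal (MvPolynomial (Fin (N + 1)) ℂ)} (hP : Homog P) {y : EN N} :
    y ∈ coneE P ↔ ∃ h : (LE N).symm y ≠ 0, Projectivization.mk ℂ ((LE N).symm y) h ∈ projVar P := by
  constructor
  · intro h
    exact ⟨h.1, (mk_mem_projVar hP h.1).2 h⟩
  · rintro ⟨h, h'⟩
    exact (mk_mem_projVar hP h).1 h'

theorem sub_mem_iff {Λ : AddSubgroup ℂ} {a b : ℂ} : a - b ∈ Λ ↔ ((a : ℂ) : ℂ ⧸ Λ) = (b : ℂ ⧸ Λ) := by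
  rw [QuotientAddGroup.eq, ← neg_mem_iff]
  constructor
  · intro h
    convert h using 1
    ring
  · intro h
    convert h using 1
    ring

/-- a lift -/
theorem exists_lift {f : ℂ → PN N} (hf : HolomorphicInto f Set.univ) :
    ∃ F : ℂ → EN N, Differentiable ℂ F ∧ ∀ z, ∃ h : (LE N).symm (F z) ≠ 0, f z = Projectivization.mk ℂ ((LE N).symm (F z)) h := by
  obtain ⟨x, hx⟩ := Pool.Agent.H17.exists_global_lift hf
  refine ⟨fun z => (LE N) (fun j => (x j : ℂ → ℂ) z), ?_, fun z => ?_⟩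
  · have h1 : Differentiable ℂ fun z => fun j => (x j : ℂ → ℂ) z := differentiable_pi.2 fun j => (x j).2
    exact (LE N).differentiable.comp h1
  · obtain ⟨h, h'⟩ := hx z
    have h2 : (LE N).symm ((LE N) (fun j => (x j : ℂ → ℂ) z)) = fun j => (x j : ℂ → ℂ) z := ContinuousLinearEquiv.symm_apply_apply _ _
    refine ⟨by rw [h2]; exact h, ?_⟩
    rw [h']
    congr 1

end Pool.Agent.H17EF

end
end

section

/-!
# MQ GeoDefs: boxes, coordinates along curves, the chart changes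

`GBox`: a chart on a closed polydisc with the vector field of the foliation.  `U s`: the cone over the polydisc of radius `s` (the norm of `ℂ × ℂ` is the
sup norm, so `ball 0 s` is a polydisc).  `crd x`: the coordinates of `x`.  `om p w = v ∧ w`.
`Crv`: the lifts of the curves of the theorem.
-/

set_option autoImplicit false

open Topology Filter Metric MvPolynomial Asymptotics MeasureTheory Laplacian

noncomputable section

namespace Pool.Agent.MQ

open Pool.Agent.H36.BP (EN fs)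
open Pool.Agent.H17BP (IsChart IsForm)
open Pool.Agent.H17EF (projVar coneE)
open Pool.Agent.H30M (tau avg LogSing)

variable {M : ℕ} {P : Ideal (MvPolynomial (Fin (M + 1)) ℂ)} {FF : Set (EN M × EN M)}

/-! ## boxes -/

/-- a chart on a closed polydisc with the vector field `v` of the foliation -/
structure GBox (P : Ideal (MvPolynomial (Fin (M + 1)) ℂ)) (FF : Set (EN M × EN M)) where
  σ : ℂ × ℂ → EN M
  v : ℂ × ℂ → ℂ × ℂ
  r : ℝ
  pos : 0 < r
  σ_an : AnalyticOnNhd ℂ σ (closedBall 0 r)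
  v_an : AnalyticOnNhd ℂ v (closedBall 0 r)
  mem : ∀ p ∈ closedBall (0 : ℂ × ℂ) r, σ p ∈ coneE P
  inj : ∀ p ∈ closedBall (0 : ℂ × ℂ) r, ∀ q ∈ closedBall (0 : ℂ × ℂ) r, ∀ c : ℂ, σ p = c • σ q → p = q
  imm : ∀ p ∈ closedBall (0 : ℂ × ℂ) r, LinearIndependent ℂ ![σ p, fderiv ℂ σ p (1, 0), fderiv ℂ σ p (0, 1)]
  spans : ∀ p ∈ closedBall (0 : ℂ × ℂ) r, ∀ (w : ℂ × ℂ) (a c : ℂ), c ≠ 0 →
    ((c • σ p, c • fderiv ℂ σ p w + a • σ p) ∈ FF ↔ (v p).1 * w.2 = (v p).2 * w.1)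
  /-- the points of the surface near `σ p` are near the same polydisc, with an analytic coordinate map -/
  opn : ∀ p ∈ ball (0 : ℂ × ℂ) r, ∃ (T : EN M → ℂ × ℂ) (c : EN M → ℂ), AnalyticAt ℂ T (σ p) ∧ AnalyticAt ℂ c (σ p) ∧ T (σ p) = p ∧ c (σ p) = 1 ∧
    ∀ᶠ y in 𝓝 (σ p), y ∈ coneE P → y = c y • σ (T y)
  /-- the surface is a cone -/
  cone : ∀ x ∈ coneE P, ∀ c : ℂ, c ≠ 0 → c • x ∈ coneE P
  zero : ∀ p ∈ closedBall (0 : ℂ × ℂ) r, v p = 0 → p = 0

/-- the 1-form of the foliation -/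
def GBox.om (B : GBox P FF) (p w : ℂ × ℂ) : ℂ := (B.v p).1 * w.2 - (B.v p).2 * w.1

/-- the divergence of `v` -/
def dvg (v : ℂ × ℂ → ℂ × ℂ) (p : ℂ × ℂ) : ℂ := (fderiv ℂ v p (1, 0)).1 + (fderiv ℂ v p (0, 1)).2

/-- `Φ` is the change of coordinates from the box `A` to the box `B` near `p`, and `om_B = t om_A` -/
structure Chg (A B : GBox P FF) (p : ℂ × ℂ) (Φ : ℂ × ℂ → ℂ × ℂ) (t : ℂ × ℂ → ℂ) : Prop where
  an : AnalyticAt ℂ Φ p
  mem : Φ p ∈ ball (0 : ℂ × ℂ) B.r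
  eq : ∀ᶠ w in 𝓝 p, ∃ c : ℂ, c ≠ 0 ∧ A.σ w = c • B.σ (Φ w)
  t_an : AnalyticAt ℂ t p
  t_ne : t p ≠ 0
  om : ∀ᶠ w in 𝓝 p, ∀ u : ℂ × ℂ, B.om (Φ w) (fderiv ℂ Φ w u) = t w * A.om w u

/-! ## the atlas -/

/-! ## curves -/

/-- a lift of an entire curve of order two which is tangent to the foliation and not constant -/
structure Crv (P : Ideal (MvPolynomial (Fin (M + 1)) ℂ)) (FF : Set (EN M × EN M)) (F : ℂ → EN M) : Prop where
  diff : Differentiable ℂ F
  mem : ∀ z, F z ∈ coneE P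
  tan : ∀ z, (F z, deriv F z) ∈ FF
  ord : ∃ A : ℝ, ∀ r : ℝ, 0 < r → Real.circleAverage (fun z => Real.log ‖F z‖) 0 r ≤ A * (1 + r ^ 2)
  nc : ∃ z w, ∀ c : ℂ, F z ≠ c • F w

/-- **The interface of the analysis.**  `l` is a density; `l = lam F` in the first stage. -/
def Pack (F : ℂ → EN M) (l : ℂ → ℝ) (ε₀ δ : ℝ) : Prop :=
  ∃ (C : ℝ) (E : ℂ → ℝ) (η : ℂ → ℂ) (err : ℂ → ℝ), 0 ≤ C ∧ (∀ z, ∃ c, 0 ≤ c ∧ LogSing E c z) ∧ ContDiff ℝ 1 η ∧ (∀ z, ‖η z‖ ≤ C * l z) ∧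
    Continuous err ∧ (∀ z, ContDiffAt ℝ 2 E z → ε₀ * lam F z ^ 2 ≤ Δ E z + dv η z + err z) ∧
    (∀ R, 1 ≤ R → ∫ z, tau R z * err z ≤ δ * En F R + C * (∫ z, ‖gr (tau R) z‖ * l z) + C) ∧
    ∀ R, 1 ≤ R → avg R E ≤ δ * En F R + C * Real.log (1 + En F R) + C

end Pool.Agent.MQ

end
end

section

/-!
# MQ Frame: the curve in a box, in one variable

`Crv1 v r Om g`: holomorphic coordinates `g` of a curve on the open set `Om`, with values in the polydisc of radius `r`, tangent to the vector field `v`.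
`ztv` is `ζ'`, `DDv` is `DD`, `LocalN1` is `LocalN`.
-/

set_option autoImplicit false

open Topology Filter Metric MeasureTheory

noncomputable section

namespace Pool.Agent.MQ

open Pool.Agent.H36.BP (EN fs)
open Pool.Agent.H30M (tau)

/-- the logarithmic derivative of the flat section, divided by the equation `l` of the invariant curve -/
def DDv (v : ℂ × ℂ → ℂ × ℂ) (l : ℂ × ℂ → ℂ) (g : ℂ → ℂ × ℂ) (z : ℂ) : ℂ :=
  dvg v (g z) * ztv v g z - deriv (fun w => l (g w)) z / l (g z)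

/-- `LocalN` in one variable; `I` is the energy, `Λ` the length -/
def LocalN1 (v : ℂ × ℂ → ℂ × ℂ) (l : ℂ × ℂ → ℂ) (Om : Set ℂ) (g : ℂ → ℂ × ℂ) (I Λ : ℝ → ℝ) (s δ : ℝ) : Prop :=
  ∃ (C : ℝ) (η : ℂ → ℂ) (err : ℂ → ℝ), 0 ≤ C ∧ ContDiffOn ℝ 1 η Om ∧ ContinuousOn err Om ∧
    (∀ z ∈ Om, g z ∉ ball (0 : ℂ × ℂ) s → η z = (starRingEnd ℂ) (DDv v l g z) ∧ err z = 0) ∧
    (∀ z ∈ Om, g z ∈ ball (0 : ℂ × ℂ) s → ‖η z‖ ≤ C * ‖deriv g z‖) ∧ (∀ z ∈ Om, 0 ≤ err z) ∧
    (∀ z ∈ Om, 0 ≤ dv η z + err z) ∧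
    ∀ R, 1 ≤ R → ∫ z in Om, tau R z * err z ≤ δ * I R + C * Λ R + C

end Pool.Agent.MQ

end
end
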