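import Pool.Agent.H43.TL2.M38
import Pool.Agent.H43.TL2.M55
import Pool.Agent.H43.TL2.M73
import Pool.Agent.H43.TL2.M80
import Pool.Agent.H43.TL2.M84

/-! The parts of this file: MQ3.Avat, MQ3.CovA, MQ3.FibN, MQ3.LocU, MQ3.AvatB, MQ3.Avatar, MQ3.RNe, MQ3.RegOff, MQ3.RegO, MQ3.Cov. -/

section

/-!
# MQ3 Avat: the same point in two monomial charts over one box

`Nbr c c' P P'`: the points `P` and `P'` of two charts of the same sheet are limits of corresponding points off the axes. If not `Nbr`, then no curve has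
its lifts near `P` and near `P'` at the same time; if `Nbr` and the two cones belong to a fan, then the charts are glued near `P`, `P'`.
-/

set_option autoImplicit false

open Topology Filter Metric

noncomputable section

namespace Pool.Agent.MQ3

open Pool.Agent.H36.BP (EN)
open Pool.Agent.H17BP (Surface)

variable {M : ℕ} {X : Set (EN M)} {m : ℕ} {θ : WDiff X m} {l : LF M} {ρ : ℂ × ℂ → EN M} {W : BoxWeb θ l ρ} {F : ℂ → EN M} {U : Set ℂ}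
  {p : ℂ → ℂ × ℂ}

/-- the points are limits of corresponding points off the axes -/
def Nbr (c c' : MChart W) (P P' : ℂ × ℂ) : Prop :=
  c.k = c'.k ∧ ∃ᶠ Q in 𝓝 (P, P'), ∃ V V' : ℂ × ℂ, pexp V = Q.1 ∧ pexp V' = Q.2 ∧ ln c.w c.w' V ∈ HH ∧ ln c.w c.w' V = ln c'.w c'.w' V'

theorem Nbr.symm {c c' : MChart W} {P P' : ℂ × ℂ} (h : Nbr c c' P P') : Nbr c' c P' P := by
  refine ⟨h.1.symm, ?_⟩
  have h1 : Tendsto (Prod.swap : (ℂ × ℂ) × (ℂ × ℂ) → (ℂ × ℂ) × (ℂ × ℂ)) (𝓝 (P, P')) (𝓝 (P', P)) := continuous_swap.tendsto _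
  refine h1.frequently (h.2.mono ?_)
  rintro Q ⟨V, V', h1, h2, h3, h4⟩
  exact ⟨V', V, h2, h1, h4 ▸ h3, h4.symm⟩

/-- the value of the lift off the axes -/
theorem lf_val (h : BCrv θ l ρ F U p) (c : MChart W) {w : ℂ} (hw : w ∈ U) (hS : p w ∈ DS) {v : ℂ × ℂ} (h1 : Complex.exp v.1 = (p w).1)
    (h2 : Complex.exp v.2 = (p w).2) (h3 : slp l F w = W.T c.k v) :
    w ∈ c.Om F U p ∧ c.lf F U p w = pexp (sgf c.w c.w' v, taf c.w c.w' v) := by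
  have hU : w ∈ Uk W.T c.k U (fun z => (p z).1) (fun z => (p z).2) (slp l F) := ⟨hw, hS.1.1, hS.2.1, v, h1, h2, h3⟩
  obtain ⟨e1, e2⟩ := st_eq W.web c.basis (BCrv.crv h).1 hw hS.1.1 hS.2.1 h1 h2 h3
  refine ⟨((h.lft c).mem w hS.1.1 hS.2.1).2 hU, ?_⟩
  simp only [MChart.lf, MQ3.sl, MQ3.tl, if_pos hU]
  exact Prod.ext e1 e2

theorem ln_sgf {w w' : ℕ × ℕ} (hd : dt w w' ≠ 0) (v : ℂ × ℂ) : ln w w' (sgf w w' v, taf w w' v) = v :=
  Prod.ext (sgf_taf₁ hd v) (sgf_taf₂ hd v)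

theorem sgf_taf_ln {w w' : ℕ × ℕ} (hd : dt w w' ≠ 0) (V : ℂ × ℂ) : (sgf w w' (ln w w' V), taf w w' (ln w w' V)) = V := by
  have hd' : ((dt w w' : ℤ) : ℂ) ≠ 0 := Int.cast_ne_zero.2 hd
  refine Prod.ext ?_ ?_
  · simp only [sgf, ln]
    rw [div_eq_iff hd', dt_cast]
    ring
  · simp only [taf, ln]
    rw [div_eq_iff hd', dt_cast]
    ring

/-- the logarithms of a point of the curve off the axes -/
theorem lf_log (h : BCrv θ l ρ F U p) (c : MChart W) {w : ℂ} (hw : w ∈ c.Om F U p) (hS : p w ∈ DS) :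
    ∃ v ∈ HH, Complex.exp v.1 = (p w).1 ∧ Complex.exp v.2 = (p w).2 ∧ slp l F w = W.T c.k v ∧
      c.lf F U p w = pexp (sgf c.w c.w' v, taf c.w c.w' v) := by
  obtain ⟨hwU, -, -, v, h1, h2, h3⟩ := ((h.lft c).mem w hS.1.1 hS.2.1).1 hw
  exact ⟨v, HH_of_exp (x := fun z => (p z).1) (y := fun z => (p z).2) hS.1.2 hS.2.2 h1 h2, h1, h2, h3, (lf_val h c hwU hS h1 h2 h3).2⟩

theorem lf_pair (h : BCrv θ l ρ F U p) (c c' : MChart W) (hk : c.k = c'.k) {w : ℂ} (hw : w ∈ c.Om F U p) (hS : p w ∈ DS) :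
    w ∈ c'.Om F U p ∧ ∃ V V' : ℂ × ℂ, pexp V = c.lf F U p w ∧ pexp V' = c'.lf F U p w ∧ ln c.w c.w' V ∈ HH ∧ ln c.w c.w' V = ln c'.w c'.w' V' := by
  obtain ⟨v, hv, h1, h2, h3, h4⟩ := lf_log h c hw hS
  obtain ⟨h5, h6⟩ := lf_val h c' (om_sub h c hw) hS h1 h2 (hk ▸ h3)
  exact ⟨h5, _, _, h4.symm, h6.symm, by rw [ln_sgf c.basis.det]; exact hv, by rw [ln_sgf c.basis.det, ln_sgf c'.basis.det]⟩

/-- **(R1)** No curve is near both points. -/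
theorem nbr_sep {c c' : MChart W} {P P' : ℂ × ℂ} (hn : ¬ Nbr c c' P P')
    (ho : c.k = c'.k ∨ ∀ r s : ℤ, (W.a ^ r * W.b ^ s) c.k ≠ c'.k) :
    ∃ r > 0, ∀ (F : ℂ → EN M) (U : Set ℂ) (p : ℂ → ℂ × ℂ), BCrv θ l ρ F U p → ∀ z, z ∈ c.Om F U p → z ∈ c'.Om F U p →
      c.lf F U p z ∈ ball P r → c'.lf F U p z ∈ ball P' r → False := by
  rcases ho with hk | ho
  · have h1 : ∀ᶠ Q in 𝓝 (P, P'), ¬ ∃ V V' : ℂ × ℂ, pexp V = Q.1 ∧ pexp V' = Q.2 ∧ ln c.w c.w' V ∈ HH ∧ ln c.w c.w' V = ln c'.w c'.w' V' := by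
      by_contra hcon
      exact hn ⟨hk, hcon⟩
    obtain ⟨r, hr, h2⟩ := Metric.eventually_nhds_iff_ball.1 h1
    refine ⟨r, hr, fun F U p h z hz hz' hq hq' => ?_⟩
    have h3 := ((lf_an h c z hz).continuousAt.eventually_mem (isOpen_ball.mem_nhds hq)).filter_mono (nhdsWithin_le_nhds (s := {z}ᶜ))
    have h4 := ((lf_an h c' z hz').continuousAt.eventually_mem (isOpen_ball.mem_nhds hq')).filter_mono (nhdsWithin_le_nhds (s := {z}ᶜ))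
    obtain ⟨w, h5, h6, h7⟩ := (h3.and (h4.and (lf_ev h c z hz))).exists
    obtain ⟨-, V, V', g1, g2, g3, g4⟩ := lf_pair h c c' hk h7.1 h7.2.2.1
    refine h2 (c.lf F U p w, c'.lf F U p w) ?_ ⟨V, V', g1, g2, g3, g4⟩
    rw [← ball_prod_same]
    exact ⟨h5, h6⟩
  · exact ⟨1, one_pos, fun F U p h z hz hz' _ _ => om_disjoint h c c' ho hz hz'⟩

/-- the monomial transition with integer exponents -/
def tr (α β γ δ : ℤ) (q : ℂ × ℂ) : ℂ × ℂ := (q.1 ^ α * q.2 ^ γ, q.1 ^ β * q.2 ^ δ)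

/-- the transition is analytic at the point -/
def TrOk (α β γ δ : ℤ) (q : ℂ × ℂ) : Prop := (q.1 ≠ 0 ∨ (0 ≤ α ∧ 0 ≤ β)) ∧ (q.2 ≠ 0 ∨ (0 ≤ γ ∧ 0 ≤ δ))

theorem analyticAt_zpow {f : ℂ × ℂ → ℂ} {q : ℂ × ℂ} (hf : AnalyticAt ℂ f q) {n : ℤ} (h : f q ≠ 0 ∨ 0 ≤ n) : AnalyticAt ℂ (fun q => f q ^ n) q := by
  rcases h with h | h
  · exact hf.fun_zpow h
  · obtain ⟨k, rfl⟩ := Int.eq_ofNat_of_zero_le h
    simp only [Int.ofNat_eq_natCast, zpow_natCast]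
    exact hf.fun_pow k

theorem trOk_of {α β γ δ : ℤ} {q : ℂ × ℂ} (h1 : q.1 ≠ 0 ∨ (α = 0 ∧ β = 1)) (h2 : q.2 ≠ 0 ∨ (γ = 1 ∧ δ = 0)) : TrOk α β γ δ q := by
  constructor
  · rcases h1 with h1 | ⟨rfl, rfl⟩
    · exact Or.inl h1
    · exact Or.inr ⟨le_rfl, zero_le_one⟩
  · rcases h2 with h2 | ⟨rfl, rfl⟩
    · exact Or.inl h2
    · exact Or.inr ⟨zero_le_one, le_rfl⟩

theorem TrOk.an {α β γ δ : ℤ} {q : ℂ × ℂ} (h : TrOk α β γ δ q) : AnalyticAt ℂ (tr α β γ δ) q := by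
  have h1 : ∀ n : ℤ, (q.1 ≠ 0 ∨ 0 ≤ n) → AnalyticAt ℂ (fun q : ℂ × ℂ => q.1 ^ n) q := fun n hn => analyticAt_zpow analyticAt_fst hn
  have h2 : ∀ n : ℤ, (q.2 ≠ 0 ∨ 0 ≤ n) → AnalyticAt ℂ (fun q : ℂ × ℂ => q.2 ^ n) q := fun n hn => analyticAt_zpow analyticAt_snd hn
  exact ((h1 α (h.1.imp_right fun h => h.1)).fun_mul (h2 γ (h.2.imp_right fun h => h.1))).prod
    ((h1 β (h.1.imp_right fun h => h.2)).fun_mul (h2 δ (h.2.imp_right fun h => h.2)))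

theorem TrOk.ev {α β γ δ : ℤ} {q : ℂ × ℂ} (h : TrOk α β γ δ q) : ∀ᶠ q' in 𝓝 q, TrOk α β γ δ q' := by
  have h1 : ∀ᶠ q' : ℂ × ℂ in 𝓝 q, q'.1 ≠ 0 ∨ (0 ≤ α ∧ 0 ≤ β) := by
    rcases h.1 with h | h
    · exact (continuousAt_fst.eventually_ne h).mono fun _ h => Or.inl h
    · exact Eventually.of_forall fun _ => Or.inr h
  have h2 : ∀ᶠ q' : ℂ × ℂ in 𝓝 q, q'.2 ≠ 0 ∨ (0 ≤ γ ∧ 0 ≤ δ) := by
    rcases h.2 with h | h
    · exact (continuousAt_snd.eventually_ne h).mono fun _ h => Or.inl h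
    · exact Eventually.of_forall fun _ => Or.inr h
  filter_upwards [h1, h2] with q' h3 h4 using ⟨h3, h4⟩

theorem tr_pexp (α β γ δ : ℤ) (σ τ : ℂ) : tr α β γ δ (pexp (σ, τ)) = pexp (α * σ + γ * τ, β * σ + δ * τ) := by
  simp only [tr, pexp, Complex.exp_add, Complex.exp_int_mul]

/-- two bases of one lattice -/
theorem exists_tr (c c' : MChart W) (hk : c.k = c'.k) : ∃ α β γ δ : ℤ, ((c.w.1 : ℤ) = α * c'.w.1 + β * c'.w'.1 ∧ (c.w.2 : ℤ) = α * c'.w.2 + β * c'.w'.2) ∧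
    (c.w'.1 : ℤ) = γ * c'.w.1 + δ * c'.w'.1 ∧ (c.w'.2 : ℤ) = γ * c'.w.2 + δ * c'.w'.2 := by
  obtain ⟨α, β, h1, h2⟩ := c'.basis.gen _ _ (hk ▸ c.basis.mem)
  obtain ⟨γ, δ, h3, h4⟩ := c'.basis.gen _ _ (hk ▸ c.basis.mem')
  exact ⟨α, β, γ, δ, ⟨h1, h2⟩, h3, h4⟩

theorem tr_log {w w' u u' : ℕ × ℕ} {α β γ δ : ℤ} (h1 : (w.1 : ℤ) = α * u.1 + β * u'.1) (h2 : (w.2 : ℤ) = α * u.2 + β * u'.2)
    (h3 : (w'.1 : ℤ) = γ * u.1 + δ * u'.1) (h4 : (w'.2 : ℤ) = γ * u.2 + δ * u'.2) (hd : dt u u' ≠ 0) {σ τ σ' τ' : ℂ}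
    (h : ln w w' (σ, τ) = ln u u' (σ', τ')) : σ' = α * σ + γ * τ ∧ τ' = β * σ + δ * τ := by
  have c1 : (w.1 : ℂ) = α * u.1 + β * u'.1 := by exact_mod_cast congrArg (Int.cast : ℤ → ℂ) h1
  have c2 : (w.2 : ℂ) = α * u.2 + β * u'.2 := by exact_mod_cast congrArg (Int.cast : ℤ → ℂ) h2
  have c3 : (w'.1 : ℂ) = γ * u.1 + δ * u'.1 := by exact_mod_cast congrArg (Int.cast : ℤ → ℂ) h3
  have c4 : (w'.2 : ℂ) = γ * u.2 + δ * u'.2 := by exact_mod_cast congrArg (Int.cast : ℤ → ℂ) h4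
  have e1 : σ * w.1 + τ * w'.1 = σ' * u.1 + τ' * u'.1 := congrArg Prod.fst h
  have e2 : σ * w.2 + τ * w'.2 = σ' * u.2 + τ' * u'.2 := congrArg Prod.snd h
  rw [c1, c3] at e1
  rw [c2, c4] at e2
  have hd' : (u.1 : ℂ) * u'.2 - u.2 * u'.1 ≠ 0 := by
    have := (Int.cast_ne_zero (α := ℂ)).2 hd
    rwa [dt_cast] at this
  constructor
  · apply mul_left_cancel₀ hd'
    linear_combination (u'.1 : ℂ) * e2 - (u'.2 : ℂ) * e1
  · apply mul_left_cancel₀ hd'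
    linear_combination (u.2 : ℂ) * e1 - (u.1 : ℂ) * e2

/-- corresponding points are related by the transition -/
theorem tr_eq {c c' : MChart W} {α β γ δ : ℤ} (h1 : (c.w.1 : ℤ) = α * c'.w.1 + β * c'.w'.1 ∧ (c.w.2 : ℤ) = α * c'.w.2 + β * c'.w'.2)
    (h2 : (c.w'.1 : ℤ) = γ * c'.w.1 + δ * c'.w'.1 ∧ (c.w'.2 : ℤ) = γ * c'.w.2 + δ * c'.w'.2) {V V' : ℂ × ℂ}
    (h : ln c.w c.w' V = ln c'.w c'.w' V') : tr α β γ δ (pexp V) = pexp V' := by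
  obtain ⟨h3, h4⟩ := tr_log (σ := V.1) (τ := V.2) (σ' := V'.1) (τ' := V'.2) h1.1 h1.2 h2.1 h2.2 c'.basis.det h
  rw [show V = (V.1, V.2) from rfl, tr_pexp, ← h3, ← h4]

/-- **The lift to the other chart.** -/
theorem lf_tr (h : BCrv θ l ρ F U p) (c c' : MChart W) (hk : c.k = c'.k) {α β γ δ : ℤ}
    (h1 : (c.w.1 : ℤ) = α * c'.w.1 + β * c'.w'.1 ∧ (c.w.2 : ℤ) = α * c'.w.2 + β * c'.w'.2)
    (h2 : (c.w'.1 : ℤ) = γ * c'.w.1 + δ * c'.w'.1 ∧ (c.w'.2 : ℤ) = γ * c'.w.2 + δ * c'.w'.2) {z : ℂ} (hz : z ∈ c.Om F U p)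
    (hok : TrOk α β γ δ (c.lf F U p z)) : z ∈ c'.Om F U p ∧ c'.lf F U p z = tr α β γ δ (c.lf F U p z) := by
  have hzU := om_sub h c hz
  have hlf := lf_an h c z hz
  have htr : ContinuousAt (fun w => tr α β γ δ (c.lf F U p w)) z := (hok.an.continuousAt).comp' hlf.continuousAt
  have hev : ∀ᶠ w in 𝓝[≠] z, w ∈ c'.Om F U p ∧ c'.lf F U p w = tr α β γ δ (c.lf F U p w) := by
    filter_upwards [lf_ev h c z hz] with w hw
    obtain ⟨g1, V, V', g2, g3, -, g4⟩ := lf_pair h c c' hk hw.1 hw.2.2.1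
    exact ⟨g1, by rw [← g2, ← g3, tr_eq h1 h2 g4]⟩
  obtain ⟨r, hr, hrU⟩ := Metric.nhds_basis_closedBall.mem_iff.1 (h.isOpen.mem_nhds hzU)
  have hcl := lf_closed h c' (C := closedBall z r) isClosed_closedBall hrU
    (K := closedBall (0 : ℂ × ℂ) (‖tr α β γ δ (c.lf F U p z)‖ + 1)) (isCompact_closedBall _ _)
  have hzO : z ∈ c'.Om F U p := by
    have h3 : ∀ᶠ w in 𝓝[≠] z, w ∈ {z' | z' ∈ closedBall z r ∧ z' ∈ c'.Om F U p ∧
        c'.lf F U p z' ∈ closedBall (0 : ℂ × ℂ) (‖tr α β γ δ (c.lf F U p z)‖ + 1)} := by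
      have h4 : ∀ᶠ w in 𝓝[≠] z, ‖tr α β γ δ (c.lf F U p w)‖ < ‖tr α β γ δ (c.lf F U p z)‖ + 1 :=
        (htr.norm.eventually_lt_const (lt_add_one _)).filter_mono nhdsWithin_le_nhds
      filter_upwards [hev, h4, eventually_nhdsWithin_of_eventually_nhds (closedBall_mem_nhds z hr)] with w g1 g2 g3
      refine ⟨g3, g1.1, ?_⟩
      rw [mem_closedBall_zero_iff, g1.2]
      exact g2.le
    exact (hcl.mem_of_frequently_of_tendsto h3.frequently (tendsto_id.mono_left nhdsWithin_le_nhds)).2.1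
  refine ⟨hzO, ?_⟩
  have h3 := tendsto_nhds_unique_of_eventuallyEq ((lf_an h c' z hzO).continuousAt.tendsto.mono_left (nhdsWithin_le_nhds (s := {z}ᶜ)))
    (htr.tendsto.mono_left nhdsWithin_le_nhds) (hev.mono fun w hw => hw.2)
  exact h3

/-- a monomial relation holds in the limit -/
theorem Nbr.lim {c c' : MChart W} {P P' : ℂ × ℂ} (hn : Nbr c c' P P') {a b d e : ℕ}
    (h : ∀ V V' : ℂ × ℂ, ln c.w c.w' V = ln c'.w c'.w' V' → (a : ℂ) * V.1 + b * V.2 + d * V'.1 + e * V'.2 = 0) :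
    P.1 ^ a * P.2 ^ b * P'.1 ^ d * P'.2 ^ e = 1 := by
  have h1 : IsClosed {Q : (ℂ × ℂ) × (ℂ × ℂ) | Q.1.1 ^ a * Q.1.2 ^ b * Q.2.1 ^ d * Q.2.2 ^ e = 1} := isClosed_eq (by fun_prop) continuous_const
  refine h1.mem_of_frequently_of_tendsto (x := (P, P')) (f := id) (hn.2.mono ?_) tendsto_id
  rintro Q ⟨V, V', h2, h3, -, h4⟩
  show Q.1.1 ^ a * Q.1.2 ^ b * Q.2.1 ^ d * Q.2.2 ^ e = 1
  rw [← h2, ← h3]
  simp only [pexp]
  rw [← Complex.exp_nat_mul, ← Complex.exp_nat_mul, ← Complex.exp_nat_mul, ← Complex.exp_nat_mul, ← Complex.exp_add, ← Complex.exp_add,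
    ← Complex.exp_add, h V V' h4, Complex.exp_zero]

theorem cast_dt {w w' : ℕ × ℕ} {n : ℕ} (h : dt w w' = n) : (n : ℂ) = (w.1 : ℂ) * w'.2 - w.2 * w'.1 := by
  rw [← dt_cast, h, Int.cast_natCast]

theorem Basis.pos₁ {a b : Equiv.Perm (Fin W.e)} {k : Fin W.e} {w w' : ℕ × ℕ} (hB : Basis a b k w w') : 0 < w.1 + w.2 := by
  by_contra hcon
  have h1 : w.1 = 0 := by omega
  have h2 : w.2 = 0 := by omega
  apply hB.det
  rw [dt, h1, h2]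
  simp

theorem Basis.pos₂ {a b : Equiv.Perm (Fin W.e)} {k : Fin W.e} {w w' : ℕ × ℕ} (hB : Basis a b k w w') : 0 < w'.1 + w'.2 := by
  by_contra hcon
  have h1 : w'.1 = 0 := by omega
  have h2 : w'.2 = 0 := by omega
  apply hB.det
  rw [dt, h1, h2]
  simp

/-- two primitive vectors on the same ray -/
theorem basis_eq₃ {q : ℕ} {a b : Equiv.Perm (Fin q)} {k : Fin q} {w w' u u' : ℕ × ℕ} (hB : Basis a b k w w') (hB' : Basis a b k u u')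
    (h : dt w' u = 0) : w' = u := by
  have hs : Basis a b k w' w := by
    refine ⟨?_, hB.mem', hB.mem, fun m n hmn => ?_⟩
    · rw [dt_swap]
      exact neg_ne_zero.2 hB.det
    · obtain ⟨α, β, h1, h2⟩ := hB.gen m n hmn
      exact ⟨β, α, by rw [h1]; ring, by rw [h2]; ring⟩
  exact basis_eq₁ hs hB' h

/-- **(R2)** Neighbours: the transition is analytic and maps `P` to `P'`. -/
theorem nbr_tr' {c c' : MChart W} {P P' : ℂ × ℂ} (hn : Nbr c c' P P') (hf : 0 ≤ dt c.w' c'.w ∨ 0 ≤ dt c'.w' c.w) :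
    ∃ α β γ δ : ℤ, ((c.w.1 : ℤ) = α * c'.w.1 + β * c'.w'.1 ∧ (c.w.2 : ℤ) = α * c'.w.2 + β * c'.w'.2) ∧
      ((c.w'.1 : ℤ) = γ * c'.w.1 + δ * c'.w'.1 ∧ (c.w'.2 : ℤ) = γ * c'.w.2 + δ * c'.w'.2) ∧
      (P.1 ≠ 0 ∨ (α = 0 ∧ β = 1)) ∧ (P.2 ≠ 0 ∨ (γ = 1 ∧ δ = 0)) ∧ P ≠ 0 ∧ tr α β γ δ P = P' := by
  have hk := hn.1
  obtain ⟨α, β, γ, δ, h1, h2⟩ := exists_tr c c' hk
  have hB' : Basis W.a W.b c.k c'.w c'.w' := hk ▸ c'.basis
  have pw := Basis.pos₁ c.basis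
  have pw' := Basis.pos₂ c.basis
  have pu := Basis.pos₁ c'.basis
  have pu' := Basis.pos₂ c'.basis
  have hc := c.pos
  have hc' := c'.pos
  have key : ∀ a b d e : ℕ, ∀ V V' : ℂ × ℂ, ln c.w c.w' V = ln c'.w c'.w' V' →
      V.1 * c.w.1 + V.2 * c.w'.1 = V'.1 * c'.w.1 + V'.2 * c'.w'.1 ∧ V.1 * c.w.2 + V.2 * c.w'.2 = V'.1 * c'.w.2 + V'.2 * c'.w'.2 :=
    fun _ _ _ _ V V' h => ⟨congrArg Prod.fst h, congrArg Prod.snd h⟩
  have hok' : (P.1 ≠ 0 ∨ (α = 0 ∧ β = 1)) ∧ (P.2 ≠ 0 ∨ (γ = 1 ∧ δ = 0)) ∧ (P.1 ≠ 0 ∨ P.2 ≠ 0) := by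
    rcases hf with hf | hf
    · obtain ⟨n1, e1⟩ := Int.eq_ofNat_of_zero_le hc.le
      obtain ⟨n2, e2⟩ := Int.eq_ofNat_of_zero_le hf
      obtain ⟨n3, e3⟩ := Int.eq_ofNat_of_zero_le (dt_trans pu hf hc'.le)
      obtain ⟨n4, e4⟩ := Int.eq_ofNat_of_zero_le (dt_trans pw' hc.le hf)
      obtain ⟨n5, e5⟩ := Int.eq_ofNat_of_zero_le hc'.le
      have c1 := cast_dt e1
      have c2 := cast_dt e2
      have c3 := cast_dt e3
      have c4 := cast_dt e4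
      have c5 := cast_dt e5
      have g1 := hn.lim (a := n1) (b := 0) (d := n2) (e := n3) (fun V V' h => by
        obtain ⟨k1, k2⟩ := key 0 0 0 0 V V' h
        rw [c1, c2, c3]
        push_cast
        linear_combination (c.w'.2 : ℂ) * k1 - (c.w'.1 : ℂ) * k2)
      have g2 := hn.lim (a := n4) (b := n2) (d := 0) (e := n5) (fun V V' h => by
        obtain ⟨k1, k2⟩ := key 0 0 0 0 V V' h
        rw [c4, c2, c5]
        push_cast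
        linear_combination (c'.w.2 : ℂ) * k1 - (c'.w.1 : ℂ) * k2)
      have g0 : P.1 ≠ 0 := by
        intro h0
        have hn1 : n1 ≠ 0 := by
          intro h
          rw [h] at e1
          rw [e1] at hc
          simp at hc
        rw [h0, zero_pow hn1] at g1
        simp at g1
      refine ⟨Or.inl g0, ?_, Or.inl g0⟩
      · by_cases hn2 : n2 = 0
        · right
          rw [hn2] at e2
          have hwu : c.w' = c'.w := basis_eq₃ c.basis hB' (by rw [e2]; rfl)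
          obtain ⟨r1, r2⟩ := det_inj c'.basis.det (α := γ) (β := δ) (α' := 1) (β' := 0) (by rw [← h2.1, hwu]; ring) (by rw [← h2.2, hwu]; ring)
          exact ⟨r1, r2⟩
        · left
          intro h0
          rw [h0, zero_pow hn2] at g2
          simp at g2
    · obtain ⟨n1, e1⟩ := Int.eq_ofNat_of_zero_le hc.le
      obtain ⟨n2, e2⟩ := Int.eq_ofNat_of_zero_le hf
      obtain ⟨n3, e3⟩ := Int.eq_ofNat_of_zero_le (dt_trans pu' hc'.le hf)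
      obtain ⟨n4, e4⟩ := Int.eq_ofNat_of_zero_le (dt_trans pw hf hc.le)
      obtain ⟨n5, e5⟩ := Int.eq_ofNat_of_zero_le hc'.le
      have c1 := cast_dt e1
      have c2 := cast_dt e2
      have c3 := cast_dt e3
      have c4 := cast_dt e4
      have c5 := cast_dt e5
      have g1 := hn.lim (a := 0) (b := n1) (d := n3) (e := n2) (fun V V' h => by
        obtain ⟨k1, k2⟩ := key 0 0 0 0 V V' h
        rw [c1, c2, c3]
        push_cast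
        linear_combination (c.w.1 : ℂ) * k2 - (c.w.2 : ℂ) * k1)
      have g2 := hn.lim (a := n2) (b := n4) (d := n5) (e := 0) (fun V V' h => by
        obtain ⟨k1, k2⟩ := key 0 0 0 0 V V' h
        rw [c4, c2, c5]
        push_cast
        linear_combination (c'.w'.1 : ℂ) * k2 - (c'.w'.2 : ℂ) * k1)
      have g0 : P.2 ≠ 0 := by
        intro h0
        have hn1 : n1 ≠ 0 := by
          intro h
          rw [h] at e1
          rw [e1] at hc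
          simp at hc
        rw [h0, zero_pow hn1] at g1
        simp at g1
      refine ⟨?_, Or.inl g0, Or.inr g0⟩
      · by_cases hn2 : n2 = 0
        · right
          rw [hn2] at e2
          have hwu : c'.w' = c.w := basis_eq₃ hB' c.basis (by rw [e2]; rfl)
          obtain ⟨r1, r2⟩ := det_inj c'.basis.det (α := α) (β := β) (α' := 0) (β' := 1) (by rw [← h1.1, ← hwu]; ring) (by rw [← h1.2, ← hwu]; ring)
          exact ⟨r1, r2⟩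
        · left
          intro h0
          rw [h0, zero_pow hn2] at g2
          simp at g2
  have hok : TrOk α β γ δ P := trOk_of hok'.1 hok'.2.1
  have hP0 : P ≠ 0 := by
    rintro rfl
    rcases hok'.2.2 with h | h
    · exact h rfl
    · exact h rfl
  refine ⟨α, β, γ, δ, h1, h2, hok'.1, hok'.2.1, hP0, ?_⟩
  -- the values
  have h3 : ∃ᶠ Q in 𝓝 (P, P'), tr α β γ δ Q.1 = Q.2 := by
    refine hn.2.mono ?_
    rintro Q ⟨V, V', g1, g2, -, g4⟩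
    rw [← g1, ← g2]
    exact tr_eq h1 h2 g4
  have h4 : ContinuousAt (fun Q : (ℂ × ℂ) × (ℂ × ℂ) => tr α β γ δ Q.1 - Q.2) (P, P') :=
    ((hok.an.continuousAt).comp' (x := (P, P')) continuousAt_fst).sub continuousAt_snd
  have h5 : tr α β γ δ P - P' ∈ ({0} : Set (ℂ × ℂ)) :=
    isClosed_singleton.mem_of_frequently_of_tendsto (h3.mono fun Q hQ => by
      show tr α β γ δ Q.1 - Q.2 ∈ ({0} : Set (ℂ × ℂ))
      rw [hQ, sub_self]
      rfl) h4.tendsto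
  exact sub_eq_zero.1 h5

/-- corresponding logarithms -/
theorem ln_tr {c c' : MChart W} {α β γ δ : ℤ} (h1 : (c.w.1 : ℤ) = α * c'.w.1 + β * c'.w'.1 ∧ (c.w.2 : ℤ) = α * c'.w.2 + β * c'.w'.2)
    (h2 : (c.w'.1 : ℤ) = γ * c'.w.1 + δ * c'.w'.1 ∧ (c.w'.2 : ℤ) = γ * c'.w.2 + δ * c'.w'.2) (V : ℂ × ℂ) :
    ln c'.w c'.w' (α * V.1 + γ * V.2, β * V.1 + δ * V.2) = ln c.w c.w' V := by
  have c1 : (c.w.1 : ℂ) = α * c'.w.1 + β * c'.w'.1 := by exact_mod_cast congrArg (Int.cast : ℤ → ℂ) h1.1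
  have c2 : (c.w.2 : ℂ) = α * c'.w.2 + β * c'.w'.2 := by exact_mod_cast congrArg (Int.cast : ℤ → ℂ) h1.2
  have c3 : (c.w'.1 : ℂ) = γ * c'.w.1 + δ * c'.w'.1 := by exact_mod_cast congrArg (Int.cast : ℤ → ℂ) h2.1
  have c4 : (c.w'.2 : ℂ) = γ * c'.w.2 + δ * c'.w'.2 := by exact_mod_cast congrArg (Int.cast : ℤ → ℂ) h2.2
  refine Prod.ext ?_ ?_
  · show (α * V.1 + γ * V.2) * c'.w.1 + (β * V.1 + δ * V.2) * c'.w'.1 = V.1 * c.w.1 + V.2 * c.w'.1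
    rw [c1, c3]
    ring
  · show (α * V.1 + γ * V.2) * c'.w.2 + (β * V.1 + δ * V.2) * c'.w'.2 = V.1 * c.w.2 + V.2 * c.w'.2
    rw [c2, c4]
    ring

/-- the transition is compatible with the maps to the box -/
theorem tr_mono {c c' : MChart W} {α β γ δ : ℤ} (h1 : (c.w.1 : ℤ) = α * c'.w.1 + β * c'.w'.1 ∧ (c.w.2 : ℤ) = α * c'.w.2 + β * c'.w'.2)
    (h2 : (c.w'.1 : ℤ) = γ * c'.w.1 + δ * c'.w'.1 ∧ (c.w'.2 : ℤ) = γ * c'.w.2 + δ * c'.w'.2) {q : ℂ × ℂ} (h0 : q.1 * q.2 ≠ 0) :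
    c'.κ (tr α β γ δ q) = c.κ q := by
  have h3 : pexp (Complex.log q.1, Complex.log q.2) = q :=
    Prod.ext (Complex.exp_log (left_ne_zero_of_mul h0)) (Complex.exp_log (right_ne_zero_of_mul h0))
  set V : ℂ × ℂ := (Complex.log q.1, Complex.log q.2) with hV
  have c1 : (c.w.1 : ℂ) = α * c'.w.1 + β * c'.w'.1 := by exact_mod_cast congrArg (Int.cast : ℤ → ℂ) h1.1
  have c2 : (c.w.2 : ℂ) = α * c'.w.2 + β * c'.w'.2 := by exact_mod_cast congrArg (Int.cast : ℤ → ℂ) h1.2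
  have c3 : (c.w'.1 : ℂ) = γ * c'.w.1 + δ * c'.w'.1 := by exact_mod_cast congrArg (Int.cast : ℤ → ℂ) h2.1
  have c4 : (c.w'.2 : ℂ) = γ * c'.w.2 + δ * c'.w'.2 := by exact_mod_cast congrArg (Int.cast : ℤ → ℂ) h2.2
  rw [← h3, show V = (V.1, V.2) from rfl, tr_pexp]
  show mono c'.w c'.w' _ = mono c.w c.w' _
  rw [← pexp_ln, ← pexp_ln]
  congr 1
  refine Prod.ext ?_ ?_
  · show (α * V.1 + γ * V.2) * c'.w.1 + (β * V.1 + δ * V.2) * c'.w'.1 = V.1 * c.w.1 + V.2 * c.w'.1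
    rw [c1, c3]
    ring
  · show (α * V.1 + γ * V.2) * c'.w.2 + (β * V.1 + δ * V.2) * c'.w'.2 = V.1 * c.w.2 + V.2 * c.w'.2
    rw [c2, c4]
    ring

/-- in one chart only equal points are neighbours -/
theorem nbr_self {c : MChart W} {P P' : ℂ × ℂ} (hn : Nbr c c P P') : P = P' := by
  have h1 : ∃ᶠ Q in 𝓝 (P, P'), Q.1 = Q.2 := by
    refine hn.2.mono ?_
    rintro Q ⟨V, V', g1, g2, -, g4⟩
    have h2 : V = V' := by
      have e1 := sgf_taf_ln c.basis.det V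
      have e2 := sgf_taf_ln c.basis.det V'
      rw [g4] at e1
      exact e1.symm.trans e2
    rw [← g1, ← g2, h2]
  have h2 : IsClosed {Q : (ℂ × ℂ) × (ℂ × ℂ) | Q.1 = Q.2} := isClosed_eq continuous_fst continuous_snd
  exact h2.mem_of_frequently_of_tendsto (x := (P, P')) (f := id) h1 tendsto_id

end Pool.Agent.MQ3

end
end

section

/-!
# MQ3 CovA: the cover, from local statements

`exists_cov_aux`: the special points are the base points of the chart points which are not regular; over one representative of each of them finitely many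
polydiscs `P` are placed, one for each class of avatars.  A maximal subset of pairwise unrelated (separated) points replaces the classes.
-/

set_option autoImplicit false

open Topology Filter Metric MvPolynomial

noncomputable section

namespace Pool.Agent.MQ3

open Pool.Agent.H36.BP (EN fs)
open Pool.Agent.H17EF (projVar coneE)

/-! ### general lemmas -/

/-- a maximal subset of pairwise unrelated points -/
private theorem CovA_max {α : Type*} [DecidableEq α] (T : Finset α) (R : α → α → Prop) :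
    ∃ T₀ ⊆ T, (∀ x ∈ T₀, ∀ y ∈ T₀, x ≠ y → ¬ R x y) ∧ ∀ x ∈ T, ∃ y ∈ T₀, x = y ∨ R x y ∨ R y x := by
  classical
  induction T using Finset.induction_on with
  | empty => exact ⟨∅, subset_rfl, by simp, by simp⟩
  | insert a T ha ih =>
    obtain ⟨T₀, h1, h2, h3⟩ := ih
    by_cases h4 : ∃ y ∈ T₀, R a y ∨ R y a
    · obtain ⟨y, hy, h5⟩ := h4
      refine ⟨T₀, h1.trans (Finset.subset_insert _ _), h2, fun x hx => ?_⟩
      rcases Finset.mem_insert.1 hx with rfl | hx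
      · exact ⟨y, hy, Or.inr h5⟩
      · exact h3 x hx
    · refine ⟨insert a T₀, Finset.insert_subset_insert _ h1, fun x hx y hy hxy => ?_, fun x hx => ?_⟩
      · rcases Finset.mem_insert.1 hx with h5 | h5
        · rcases Finset.mem_insert.1 hy with h6 | h6
          · exact absurd (h5.trans h6.symm) hxy
          · rw [h5]
            exact fun h7 => h4 ⟨y, h6, Or.inl h7⟩
        · rcases Finset.mem_insert.1 hy with h6 | h6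
          · rw [h6]
            exact fun h7 => h4 ⟨x, h5, Or.inr h7⟩
          · exact h2 x h5 y h6 hxy
      · rcases Finset.mem_insert.1 hx with h5 | h5
        · exact ⟨a, Finset.mem_insert_self _ _, Or.inl h5⟩
        · obtain ⟨y, hy, h6⟩ := h3 x h5
          exact ⟨y, Finset.mem_insert_of_mem hy, h6⟩

/-- a property which holds near the fibre over `y` holds over a small ball -/
private theorem CovA_fib {K : Set (ℂ × ℂ)} (hK : IsCompact K) {f : ℂ × ℂ → ℂ × ℂ} (hf : Continuous f) {y : ℂ × ℂ} {Pr : ℂ × ℂ → Prop}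
    (h : ∀ q ∈ K, f q = y → ∀ᶠ x in 𝓝 q, Pr x) : ∀ᶠ t in 𝓝[>] (0 : ℝ), ∀ q ∈ K, f q ∈ closedBall y t → Pr q := by
  obtain ⟨O, hO⟩ : ∃ O : Set (ℂ × ℂ), O = interior {x | Pr x} := ⟨_, rfl⟩
  have h1 : IsCompact (K \ O) := hK.diff (by rw [hO]; exact isOpen_interior)
  have h2 : IsClosed (f '' (K \ O)) := (h1.image hf).isClosed
  have h3 : y ∉ f '' (K \ O) := by
    rintro ⟨q, ⟨hq, hqO⟩, hqy⟩
    exact hqO (by rw [hO]; exact mem_interior_iff_mem_nhds.2 (h q hq hqy))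
  have h4 : ∀ᶠ t in 𝓝 (0 : ℝ), closedBall y t ⊆ (f '' (K \ O))ᶜ := eventually_closedBall_subset (h2.isOpen_compl.mem_nhds h3)
  filter_upwards [h4.filter_mono nhdsWithin_le_nhds] with t ht q hq hqt
  by_contra h5
  have h6 : q ∉ O := fun h7 => h5 (by rw [hO] at h7; exact interior_subset h7)
  exact ht hqt ⟨q, ⟨hq, h6⟩, rfl⟩

/-- a set which is discrete in a compact set is finite -/
private theorem CovA_fin {K A : Set (ℂ × ℂ)} (hK : IsCompact K) (h : ∀ q ∈ K, ∀ᶠ x in 𝓝[≠] q, x ∉ A) : (K ∩ A).Finite := by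
  have h1 : ∀ q ∈ K, {x | x ≠ q → x ∉ A} ∈ 𝓝 q := fun q hq => by
    have := h q hq
    rw [eventually_nhdsWithin_iff] at this
    exact this
  obtain ⟨t, ht, hcov⟩ := hK.elim_nhds_subcover (fun q => {x | x ≠ q → x ∉ A}) h1
  refine t.finite_toSet.subset fun x hx => ?_
  obtain ⟨q, hq, hxq⟩ := Set.mem_iUnion₂.1 (hcov hx.1)
  by_contra h2
  have h3 : x ≠ q := by
    rintro rfl
    exact h2 hq
  exact hxq h3 hx.2

variable {M : ℕ} {P : Ideal (MvPolynomial (Fin (M + 1)) ℂ)} {RD : MvPolynomial (Fin (M + 1)) ℂ} {m : ℕ} {X : NCModel P RD} {θ : WDiff (coneE P) m}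
  {l : LF M} {S : Web X θ l} {Ra : MvPolynomial (Fin (M + 1)) ℂ}

private theorem CovA_cont (k : S.ι) : Continuous (S.κ k) := by
  have h1 : S.κ k = fun q : ℂ × ℂ => (q.1 ^ (S.c k).w.1 * q.2 ^ (S.c k).w'.1, q.1 ^ (S.c k).w.2 * q.2 ^ (S.c k).w'.2) := rfl
  rw [h1]
  fun_prop

private theorem CovA_D {k : S.ι} {q : ℂ × ℂ} : q ∈ S.D k ↔ S.κ k q ∈ X.B k.1 :=
  ⟨fun h => h.2, fun h => ⟨X.sub k.1 h, h⟩⟩

private theorem CovA_ub {q : ℂ × ℂ} : q ∈ closedBall (0 : ℂ × ℂ) 1 ↔ ‖q.1‖ ≤ 1 ∧ ‖q.2‖ ≤ 1 := by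
  rw [mem_closedBall_zero_iff, Prod.norm_def, max_le_iff]

private theorem CovA_cp {k : S.ι} {q : ℂ × ℂ} : q ∈ S.cp k ↔ q ∈ closedBall (0 : ℂ × ℂ) 1 ∧ S.κ k q ∈ X.C k.1 := by
  rw [CovA_ub]
  exact ⟨fun h => ⟨⟨h.1, h.2.1⟩, h.2.2⟩, fun h => ⟨h.1.1, h.1.2, h.2⟩⟩

private theorem CovA_cpc (k : S.ι) : IsCompact (S.cp k) := by
  have h1 : S.cp k = closedBall (0 : ℂ × ℂ) 1 ∩ (S.κ k) ⁻¹' (X.C k.1) := by
    ext q
    exact CovA_cp
  rw [h1]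
  exact (isCompact_closedBall _ _).inter_right ((X.compact k.1).isClosed.preimage (CovA_cont k))

private theorem CovA_cpD {k : S.ι} {q : ℂ × ℂ} (hq : q ∈ S.cp k) : q ∈ S.D k := CovA_D.2 (X.C_sub k.1 (CovA_cp.1 hq).2)

private theorem CovA_Do (k : S.ι) : IsOpen (S.D k) := by
  have h1 : S.D k = (S.κ k) ⁻¹' (X.B k.1) := by
    ext q
    exact CovA_D
  rw [h1]
  exact (X.isOpen k.1).preimage (CovA_cont k)

/-- the two chart points are never seen together -/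
def SepPt (S : Web X θ l) (k : S.ι) (q : ℂ × ℂ) (k' : S.ι) (q' : ℂ × ℂ) : Prop :=
  ∃ N ∈ 𝓝 q, ∃ N' ∈ 𝓝 q', ∀ F : ℂ → EN M, WCrv θ RD F → ∀ Y : NCLift X F, ∀ z, z ∈ S.Om Y k → S.lf Y k z ∈ N → z ∈ S.Om Y k' → S.lf Y k' z ∉ N'

private theorem SepPt.symm {k k' : S.ι} {q q' : ℂ × ℂ} (h : SepPt S k q k' q') : SepPt S k' q' k q := by
  obtain ⟨N, hN, N', hN', h1⟩ := h
  exact ⟨N', hN', N, hN, fun F hF Y z hz hzN hz' hzN' => h1 F hF Y z hz' hzN' hz hzN⟩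

/-- The statements about the lifts of curves which are used. -/
structure LfHyp (S : Web X θ l) : Prop where
  κ_lf : ∀ F : ℂ → EN M, WCrv θ RD F → ∀ Y : NCLift X F, ∀ k, ∀ z ∈ S.Om Y k, z ∈ Y.U k.1 ∧ S.κ k (S.lf Y k z) = Y.p k.1 z
  cover : ∀ F : ℂ → EN M, WCrv θ RD F → ∀ Y : NCLift X F, ∀ i, ∀ z ∈ Y.U i, ∃ a : (S.V i).ι, z ∈ S.Om Y ⟨i, a⟩ ∧ ‖(S.lf Y ⟨i, a⟩ z).1‖ ≤ 1 ∧
    ‖(S.lf Y ⟨i, a⟩ z).2‖ ≤ 1

/-- points over unrelated points of the model are separated -/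
private theorem CovA_sep (hL : LfHyp S) {k k' : S.ι} {q q' : ℂ × ℂ} (hq : q ∈ S.D k) (hq' : q' ∈ S.D k')
    (h : ¬ X.rel k.1 (S.κ k q) k'.1 (S.κ k' q')) : SepPt S k q k' q' := by
  have h1 := X.sep k.1 k'.1 _ (CovA_D.1 hq) _ (CovA_D.1 hq') h
  have h2 : Tendsto (fun x : (ℂ × ℂ) × (ℂ × ℂ) => (S.κ k x.1, S.κ k' x.2)) (𝓝 (q, q')) (𝓝 (S.κ k q, S.κ k' q')) :=
    (((CovA_cont k).comp continuous_fst).prodMk ((CovA_cont k').comp continuous_snd)).tendsto (q, q')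
  have h3 := h2.eventually h1
  rw [nhds_prod_eq] at h3
  obtain ⟨A, hA, B, hB, hAB⟩ := Filter.eventually_prod_iff.1 h3
  refine ⟨{x | A x}, hA, {x | B x}, hB, fun F hF Y z hz hzN hz' hzN' => ?_⟩
  have h4 := hAB hzN hzN'
  obtain ⟨h5, h6⟩ := hL.κ_lf F hF Y k z hz
  obtain ⟨h7, h8⟩ := hL.κ_lf F hF Y k' z hz'
  simp only [h6, h8] at h4
  exact h4 (Y.rel k.1 k'.1 z h5 h7)

private theorem CovA_axes (k : S.ι) (q : ℂ × ℂ) : (S.κ k q).1 * (S.κ k q).2 = 0 ↔ q.1 * q.2 = 0 := by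
  have h1 : (S.κ k q).1 * (S.κ k q).2 = q.1 ^ ((S.c k).w.1 + (S.c k).w.2) * q.2 ^ ((S.c k).w'.1 + (S.c k).w'.2) := by
    change (q.1 ^ (S.c k).w.1 * q.2 ^ (S.c k).w'.1) * (q.1 ^ (S.c k).w.2 * q.2 ^ (S.c k).w'.2) = _
    ring
  have h2 : 0 < dt (S.c k).w (S.c k).w' := (S.c k).pos
  have h3 : (S.c k).w.1 + (S.c k).w.2 ≠ 0 := by
    intro h
    have h4 : (S.c k).w.1 = 0 := by omega
    have h5 : (S.c k).w.2 = 0 := by omega
    simp [dt, h4, h5] at h2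
  have h4 : (S.c k).w'.1 + (S.c k).w'.2 ≠ 0 := by
    intro h
    have h4 : (S.c k).w'.1 = 0 := by omega
    have h5 : (S.c k).w'.2 = 0 := by omega
    simp [dt, h4, h5] at h2
  rw [h1, mul_eq_zero, mul_eq_zero, pow_eq_zero_iff h3, pow_eq_zero_iff h4]

/-! ### the polydiscs `P` -/

/-- The polydiscs `P`; `T` is the set of the special points of the boxes. -/
structure PPart (S : Web X θ l) (Ra : MvPolynomial (Fin (M + 1)) ℂ) (r₀ : S.ι → ℂ × ℂ → ℝ) where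
  nP : ℕ
  ck : Fin nP → S.ι
  Q : Fin nP → ℂ × ℂ
  r : Fin nP → ℝ
  s : Fin nP → ℝ
  s_pos : ∀ j, 0 < s j
  s_lt : ∀ j, s j < r j
  Q_mem : ∀ j, Q j ∈ S.cp (ck j)
  P_sub : ∀ j, closedBall (Q j) (r j) ⊆ S.D (ck j)
  P_reg : ∀ j, ∀ x ∈ closedBall (Q j) (r j), x ≠ Q j → Reg S Ra (ck j) x
  r_le : ∀ j, r j ≤ r₀ (ck j) (Q j)
  disj : ∀ F : ℂ → EN M, WCrv θ RD F → ∀ Y : NCLift X F, ∀ j j', j ≠ j' → ∀ z, z ∈ S.Om Y (ck j) → S.lf Y (ck j) z ∈ closedBall (Q j) (r j) →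
    z ∈ S.Om Y (ck j') → S.lf Y (ck j') z ∉ closedBall (Q j') (r j')
  T : Set (X.ι × (ℂ × ℂ))
  T_mem : ∀ b ∈ T, b.2 ∈ X.C b.1
  rep : ∀ i, ∀ x ∈ X.C i, (∃ a, ∃ q ∈ closedBall (0 : ℂ × ℂ) 1, S.κ ⟨i, a⟩ q = x ∧ ¬ Reg S Ra ⟨i, a⟩ q) → ∃ b ∈ T, X.rel i x b.1 b.2
  core : ∀ b ∈ T, ∀ a, ∀ q ∈ closedBall (0 : ℂ × ℂ) 1, S.κ ⟨b.1, a⟩ q = b.2 → ¬ RegA S Ra ⟨b.1, a⟩ q → ∃ j, ∃ N ∈ 𝓝 q, ∀ F : ℂ → EN M,
    WCrv θ RD F → ∀ Y : NCLift X F, ∀ z ∈ S.Om Y ⟨b.1, a⟩, S.lf Y ⟨b.1, a⟩ z ∈ N → z ∈ S.Om Y (ck j) ∧ S.lf Y (ck j) z ∈ ball (Q j) (s j)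

theorem exists_PPart (hL : LfHyp S) (hreg : ∀ k, ∀ q ∈ S.D k, ∀ᶠ x in 𝓝[≠] q, Reg S Ra k x)
    (hav : ∀ (i : X.ι) (a a' : (S.V i).ι) (q q' : ℂ × ℂ), q ∈ S.D ⟨i, a⟩ → q' ∈ S.D ⟨i, a'⟩ → SepPt S ⟨i, a⟩ q ⟨i, a'⟩ q' ∨
      ∃ Φ : ℂ × ℂ → ℂ × ℂ, AnalyticAt ℂ Φ q ∧ Φ q = q' ∧ ∃ N ∈ 𝓝 q, ∀ F : ℂ → EN M, WCrv θ RD F → ∀ Y : NCLift X F, ∀ z ∈ S.Om Y ⟨i, a⟩,
        S.lf Y ⟨i, a⟩ z ∈ N → z ∈ S.Om Y ⟨i, a'⟩ ∧ S.lf Y ⟨i, a'⟩ z = Φ (S.lf Y ⟨i, a⟩ z))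
    (hfib : ∀ k, ∀ q ∈ S.D k, q.1 * q.2 ≠ 0 → ∀ᶠ x in 𝓝 q, S.κ k x = S.κ k q → x = q)
    (r₀ : S.ι → ℂ × ℂ → ℝ) (h₀ : ∀ k, ∀ q ∈ S.D k, 0 < r₀ k q) : Nonempty (PPart S Ra r₀) := by
  classical
  -- the special points
  have hNR : ∀ k : S.ι, (S.cp k ∩ {x | ¬ Reg S Ra k x}).Finite := fun k => CovA_fin (CovA_cpc k) fun q hq => by
    filter_upwards [hreg k q (CovA_cpD hq)] with x hx hxA
    exact hxA hx
  obtain ⟨SP, hSP⟩ : ∃ SP : Set (X.ι × (ℂ × ℂ)), SP = {b | b.2 ∈ X.C b.1 ∧ ∃ a, ∃ q ∈ closedBall (0 : ℂ × ℂ) 1, S.κ ⟨b.1, a⟩ q = b.2 ∧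
    ¬ Reg S Ra ⟨b.1, a⟩ q} := ⟨_, rfl⟩
  have hSPf : SP.Finite := by
    have h1 : (⋃ k : S.ι, (fun q => (k.1, S.κ k q)) '' (S.cp k ∩ {x | ¬ Reg S Ra k x})).Finite := Set.finite_iUnion fun k => (hNR k).image _
    refine h1.subset ?_
    rintro ⟨i, x⟩ hb
    rw [hSP] at hb
    obtain ⟨hx, a, q, hq, hqx, hn⟩ := hb
    refine Set.mem_iUnion.2 ⟨⟨i, a⟩, q, ⟨CovA_cp.2 ⟨hq, ?_⟩, hn⟩, ?_⟩
    · rw [hqx]
      exact hx
    · exact Prod.ext rfl hqx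
  obtain ⟨T₀, hT₀, hT₀u, hT₀m⟩ := CovA_max hSPf.toFinset (fun b b' : X.ι × (ℂ × ℂ) => X.rel b.1 b.2 b'.1 b'.2)
  have hTC : ∀ b ∈ T₀, b.2 ∈ X.C b.1 := fun b hb => by
    have := (Set.Finite.mem_toFinset hSPf).1 (hT₀ hb)
    rw [hSP] at this
    exact this.1
  -- the chart points over them
  obtain ⟨PP, hPP⟩ : ∃ PP : Set (S.ι × (ℂ × ℂ)), PP = {p | (p.1.1, S.κ p.1 p.2) ∈ T₀ ∧ p.2 ∈ closedBall (0 : ℂ × ℂ) 1 ∧ ¬ RegA S Ra p.1 p.2} := ⟨_, rfl⟩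
  have hPPf : PP.Finite := by
    have h1 : ∀ (k : S.ι) (b : X.ι × (ℂ × ℂ)), (S.cp k ∩ {x | S.κ k x = b.2 ∧ ¬ RegA S Ra k x}).Finite := fun k b => CovA_fin (CovA_cpc k) fun q hq => by
      have hqD := CovA_cpD hq
      by_cases h2 : S.κ k q = b.2
      · by_cases h3 : q.1 * q.2 = 0
        · filter_upwards [hreg k q hqD] with x hx hxA
          rcases hx with hx | hx
          · exact hxA.2 hx
          · refine hx.ne ((CovA_axes k x).1 ?_)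
            rw [hxA.1, ← h2]
            exact (CovA_axes k q).2 h3
        · have h4 := hfib k q hqD h3
          rw [eventually_nhdsWithin_iff]
          filter_upwards [h4] with x hx hxq hxA
          exact hxq (hx (hxA.1.trans h2.symm))
      · have h3 : ∀ᶠ x in 𝓝 q, S.κ k x ≠ b.2 := (CovA_cont k).continuousAt.eventually_ne h2
        filter_upwards [h3.filter_mono nhdsWithin_le_nhds] with x hx hxA
        exact hx hxA.1
    have h2 : (⋃ k : S.ι, ⋃ b ∈ T₀, (fun q => (k, q)) '' (S.cp k ∩ {x | S.κ k x = b.2 ∧ ¬ RegA S Ra k x})).Finite :=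
      Set.finite_iUnion fun k => Set.Finite.biUnion T₀.finite_toSet fun b _ => (h1 k b).image _
    refine h2.subset ?_
    rintro ⟨k, q⟩ hp
    rw [hPP] at hp
    obtain ⟨h3, h4, h5⟩ := hp
    exact Set.mem_iUnion.2 ⟨k, Set.mem_iUnion₂.2 ⟨_, h3, q, ⟨CovA_cp.2 ⟨h4, hTC _ h3⟩, rfl, h5⟩, rfl⟩⟩
  obtain ⟨T₁, hT₁, hT₁u, hT₁m⟩ := CovA_max hPPf.toFinset (fun p p' : S.ι × (ℂ × ℂ) => ¬ SepPt S p.1 p.2 p'.1 p'.2)
  have hT₁P : ∀ p ∈ T₁, (p.1.1, S.κ p.1 p.2) ∈ T₀ ∧ p.2 ∈ closedBall (0 : ℂ × ℂ) 1 ∧ ¬ RegA S Ra p.1 p.2 := fun p hp => by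
    have := (Set.Finite.mem_toFinset hPPf).1 (hT₁ hp)
    rw [hPP] at this
    exact this
  have hcpT : ∀ p ∈ T₁, p.2 ∈ S.cp p.1 := fun p hp => CovA_cp.2 ⟨(hT₁P p hp).2.1, hTC _ (hT₁P p hp).1⟩
  -- enumeration
  obtain ⟨n, ⟨e⟩⟩ : ∃ n, Nonempty (T₁ ≃ Fin n) := ⟨_, ⟨T₁.equivFin⟩⟩
  obtain ⟨f, hf⟩ : ∃ f : Fin n → S.ι × (ℂ × ℂ), f = fun j => (e.symm j).1 := ⟨_, rfl⟩
  have hfT : ∀ j, f j ∈ T₁ := fun j => by rw [hf]; exact (e.symm j).2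
  have hfi : ∀ j j', j ≠ j' → f j ≠ f j' := fun j j' hjj h => by
    rw [hf] at h
    exact hjj (e.symm.injective (Subtype.ext h))
  have hfe : ∀ p, ∀ hp : p ∈ T₁, f (e ⟨p, hp⟩) = p := fun p hp => by
    rw [hf]
    simp only [Equiv.symm_apply_apply]
  have hsep : ∀ j j', j ≠ j' → SepPt S (f j).1 (f j).2 (f j').1 (f j').2 := fun j j' hjj =>
    not_not.1 (hT₁u _ (hfT j) _ (hfT j') (hfi j j' hjj))
  choose N hN N' hN' hNN using hsep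
  have hr : ∀ j, ∃ r : ℝ, 0 < r ∧ r ≤ r₀ (f j).1 (f j).2 ∧ closedBall (f j).2 r ⊆ S.D (f j).1 ∧ closedBall (f j).2 r ⊆ {x | x ≠ (f j).2 → Reg S Ra (f j).1 x} ∧
      (∀ j', ∀ h : j ≠ j', closedBall (f j).2 r ⊆ N j j' h) ∧ ∀ j', ∀ h : j' ≠ j, closedBall (f j).2 r ⊆ N' j' j h := fun j => by
    have hD := CovA_cpD (hcpT _ (hfT j))
    have h1 : ∀ᶠ r in 𝓝[>] (0 : ℝ), 0 < r := self_mem_nhdsWithin
    have h2 : ∀ᶠ r in 𝓝[>] (0 : ℝ), r ≤ r₀ (f j).1 (f j).2 := nhdsWithin_le_nhds (Iic_mem_nhds (h₀ _ _ hD))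
    have h3 : ∀ V ∈ 𝓝 (f j).2, ∀ᶠ r in 𝓝[>] (0 : ℝ), closedBall (f j).2 r ⊆ V := fun V hV => (eventually_closedBall_subset hV).filter_mono nhdsWithin_le_nhds
    have h4 : {x | x ≠ (f j).2 → Reg S Ra (f j).1 x} ∈ 𝓝 (f j).2 := by
      have := hreg _ _ hD
      rw [eventually_nhdsWithin_iff] at this
      exact this
    have h5 : ∀ᶠ r in 𝓝[>] (0 : ℝ), ∀ j', ∀ h : j ≠ j', closedBall (f j).2 r ⊆ N j j' h := by
      rw [eventually_all]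
      intro j'
      by_cases h : j ≠ j'
      · filter_upwards [h3 _ (hN j j' h)] with r hr _
        exact hr
      · exact Eventually.of_forall fun _ h' => absurd h' h
    have h6 : ∀ᶠ r in 𝓝[>] (0 : ℝ), ∀ j', ∀ h : j' ≠ j, closedBall (f j).2 r ⊆ N' j' j h := by
      rw [eventually_all]
      intro j'
      by_cases h : j' ≠ j
      · filter_upwards [h3 _ (hN' j' j h)] with r hr _
        exact hr
      · exact Eventually.of_forall fun _ h' => absurd h' h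
    exact (h1.and (h2.and ((h3 _ ((CovA_Do _).mem_nhds hD)).and ((h3 _ h4).and (h5.and h6))))).exists
  choose r hr0 hr1 hr2 hr3 hr4 hr5 using hr
  refine ⟨⟨n, fun j => (f j).1, fun j => (f j).2, r, fun j => r j / 2, fun j => half_pos (hr0 j), fun j => half_lt_self (hr0 j), fun j => hcpT _ (hfT j),
    hr2, fun j x hx hxn => hr3 j hx hxn, hr1, ?_, ↑T₀, fun b hb => hTC b hb, ?_, ?_⟩⟩
  · intro F hF Y j j' hjj z hz hz1 hz' hz1'
    exact hNN j j' hjj F hF Y z hz (hr4 j j' hjj hz1) hz' (hr5 j' j hjj hz1')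
  · rintro i x hx ⟨a, q, hq, hqx, hn⟩
    have h1 : (i, x) ∈ SP := by
      rw [hSP]
      exact ⟨hx, a, q, hq, hqx, hn⟩
    obtain ⟨b, hb, h2⟩ := hT₀m _ ((Set.Finite.mem_toFinset hSPf).2 h1)
    refine ⟨b, hb, ?_⟩
    rcases h2 with h2 | h2 | h2
    · rw [← h2]
      exact (X.refl i x (X.C_sub i hx) x (X.C_sub i hx)).2 rfl
    · exact h2
    · exact X.symm _ _ _ _ (X.C_sub _ (hTC b hb)) (X.C_sub i hx) h2
  · rintro ⟨i, y⟩ hb a q hq hqy hn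
    have h1 : ((⟨i, a⟩ : S.ι), q) ∈ PP := by
      rw [hPP]
      refine ⟨?_, hq, hn⟩
      change (i, S.κ ⟨i, a⟩ q) ∈ T₀
      rw [hqy]
      exact hb
    obtain ⟨p, hp, h2⟩ := hT₁m _ ((Set.Finite.mem_toFinset hPPf).2 h1)
    have hqD : q ∈ S.D ⟨i, a⟩ := CovA_D.2 (by
      change S.κ ⟨i, a⟩ q ∈ X.B i
      rw [hqy]
      exact X.C_sub i (hTC _ hb))
    refine ⟨e ⟨p, hp⟩, ?_⟩
    have hpe := hfe p hp
    have hr0' := hr0 (e ⟨p, hp⟩)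
    simp only [hpe]
    by_cases h3 : ((⟨i, a⟩ : S.ι), q) = p
    · obtain rfl : p = ((⟨i, a⟩ : S.ι), q) := h3.symm
      exact ⟨ball q (r (e ⟨_, hp⟩) / 2), ball_mem_nhds _ (half_pos hr0'), fun F hF Y z hz hz1 => ⟨hz, hz1⟩⟩
    have h4 : ¬ SepPt S ⟨i, a⟩ q p.1 p.2 := by
      rcases h2 with h2 | h2 | h2
      · exact absurd h2 h3
      · exact h2
      · exact fun h5 => h2 h5.symm
    obtain ⟨⟨i', a'⟩, q'⟩ := p
    have hpD : q' ∈ S.D ⟨i', a'⟩ := CovA_cpD (hcpT _ hp)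
    have h5 : (i, y) = (i', S.κ ⟨i', a'⟩ q') := by
      by_contra h5
      refine h4 (CovA_sep hL hqD hpD ?_)
      have h6 := hT₀u _ hb _ (hT₁P _ hp).1 h5
      change ¬ X.rel i (S.κ ⟨i, a⟩ q) i' (S.κ ⟨i', a'⟩ q')
      rw [hqy]
      exact h6
    obtain rfl : i = i' := (Prod.ext_iff.1 h5).1
    rcases hav i a a' q q' hqD hpD with h6 | ⟨Φ, hΦ, hΦq, V, hV, h6⟩
    · exact absurd h6 h4
    · have h7 : Φ ⁻¹' (ball q' (r (e ⟨(⟨i, a'⟩, q'), hp⟩) / 2)) ∈ 𝓝 q := by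
        refine hΦ.continuousAt.preimage_mem_nhds ?_
        rw [hΦq]
        exact ball_mem_nhds _ (half_pos hr0')
      refine ⟨V ∩ Φ ⁻¹' (ball q' (r (e ⟨(⟨i, a'⟩, q'), hp⟩) / 2)), inter_mem hV h7, fun F hF Y z hz hz1 => ?_⟩
      obtain ⟨h8, h9⟩ := h6 F hF Y z hz hz1.1
      refine ⟨h8, ?_⟩
      rw [h9]
      exact hz1.2

/-! ### the polydiscs `N` -/

/-- a polydisc in the box `i` with center `y` -/
structure NDat {r₀ : S.ι → ℂ × ℂ → ℝ} (D : PPart S Ra r₀) (i : X.ι) (y : ℂ × ℂ) where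
  t : ℝ
  u : Option (ℂ × ℂ → ℂ)
  K : (S.V i).ι → Set (ℂ × ℂ)
  t_pos : 0 < t
  sub : closedBall y t ⊆ X.B i
  eqn : ∀ u', u = some u' → closedBall y t ⊆ DS ∧ AnalyticOnNhd ℂ u' (closedBall y t) ∧
    ∀ p ∈ closedBall y t, ∀ᶠ x in 𝓝 p, (eval (X.ρ i x).ofLp Ra = 0 ↔ u' x = 0) ∧ (u' x = 0 → fderiv ℂ u' x ≠ 0)
  K_compact : ∀ a, IsCompact (K a)
  K_A : ∀ a, u = none → ∀ q ∈ K a, RegA S Ra ⟨i, a⟩ q ∧ S.κ ⟨i, a⟩ q ∈ closedBall y t
  K_B : ∀ a u', u = some u' → ∀ q ∈ K a, Reg S Ra ⟨i, a⟩ q ∧ S.κ ⟨i, a⟩ q ∈ closedBall y t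
  lift : ∀ F : ℂ → EN M, WCrv θ RD F → ∀ Y : NCLift X F, ∀ z ∈ Y.U i, Y.p i z ∈ closedBall y t →
    (∀ j, z ∈ S.Om Y (D.ck j) → S.lf Y (D.ck j) z ∉ ball (D.Q j) (D.s j)) → ∃ a, z ∈ S.Om Y ⟨i, a⟩ ∧ S.lf Y ⟨i, a⟩ z ∈ K a

private theorem CovA_NA {r₀ : S.ι → ℂ × ℂ → ℝ} (D : PPart S Ra r₀) (hL : LfHyp S) (hAo : ∀ k q, RegA S Ra k q → ∀ᶠ x in 𝓝 q, RegA S Ra k x)
    {i : X.ι} {x : ℂ × ℂ} (hx : x ∈ X.B i)
    (h : ∀ a, ∀ q ∈ closedBall (0 : ℂ × ℂ) 1, S.κ ⟨i, a⟩ q = x → RegA S Ra ⟨i, a⟩ q ∨ ∃ j, ∃ N ∈ 𝓝 q, ∀ F : ℂ → EN M, WCrv θ RD F →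
      ∀ Y : NCLift X F, ∀ z ∈ S.Om Y ⟨i, a⟩, S.lf Y ⟨i, a⟩ z ∈ N → z ∈ S.Om Y (D.ck j) ∧ S.lf Y (D.ck j) z ∈ ball (D.Q j) (D.s j)) :
    Nonempty (NDat D i x) := by
  classical
  obtain ⟨O, hO⟩ : ∃ O : (S.V i).ι → Set (ℂ × ℂ), O = fun a => interior {q | ∀ F : ℂ → EN M, WCrv θ RD F → ∀ Y : NCLift X F, ∀ z ∈ S.Om Y ⟨i, a⟩,
    S.lf Y ⟨i, a⟩ z = q → ∃ j, z ∈ S.Om Y (D.ck j) ∧ S.lf Y (D.ck j) z ∈ ball (D.Q j) (D.s j)} := ⟨_, rfl⟩
  have hOo : ∀ a, IsOpen (O a) := fun a => by rw [hO]; exact isOpen_interior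
  have h1 : ∀ a, ∀ᶠ t in 𝓝[>] (0 : ℝ), ∀ q ∈ closedBall (0 : ℂ × ℂ) 1, S.κ ⟨i, a⟩ q ∈ closedBall x t → RegA S Ra ⟨i, a⟩ q ∨ q ∈ O a := fun a =>
    CovA_fib (isCompact_closedBall _ _) (CovA_cont _) fun q hq hqx => by
      rcases h a q hq hqx with h2 | ⟨j, N, hN, h2⟩
      · exact (hAo _ _ h2).mono fun _ h => Or.inl h
      · have h3 : q ∈ O a := by
          rw [hO]
          refine mem_interior_iff_mem_nhds.2 ?_
          filter_upwards [hN] with q' hq' F hF Y z hz hzq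
          exact ⟨j, h2 F hF Y z hz (by rw [hzq]; exact hq')⟩
        filter_upwards [(hOo a).mem_nhds h3] with q' hq'
        exact Or.inr hq'
  have h2 : ∀ᶠ t in 𝓝[>] (0 : ℝ), closedBall x t ⊆ X.B i :=
    (eventually_closedBall_subset ((X.isOpen i).mem_nhds hx)).filter_mono nhdsWithin_le_nhds
  have h3 : ∀ᶠ t in 𝓝[>] (0 : ℝ), 0 < t := self_mem_nhdsWithin
  obtain ⟨t, ht, htB, htO⟩ := (h3.and (h2.and (eventually_all.2 h1))).exists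
  refine ⟨⟨t, none, fun a => (closedBall (0 : ℂ × ℂ) 1 ∩ (S.κ ⟨i, a⟩) ⁻¹' closedBall x t) \ O a, ht, htB, fun u' hu' => by simp at hu', ?_, ?_, ?_, ?_⟩⟩
  · intro a
    exact ((isCompact_closedBall _ _).inter_right (isClosed_closedBall.preimage (CovA_cont _))).diff (hOo a)
  · rintro a - q ⟨⟨hq, hqt⟩, hqO⟩
    exact ⟨(htO a q hq hqt).resolve_right hqO, hqt⟩
  · intro a u' hu'
    simp at hu'
  · intro F hF Y z hz hzt hcore
    obtain ⟨a, hza, h4, h5⟩ := hL.cover F hF Y i z hz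
    have h6 := (hL.κ_lf F hF Y ⟨i, a⟩ z hza).2
    refine ⟨a, hza, ⟨CovA_ub.2 ⟨h4, h5⟩, ?_⟩, fun h7 => ?_⟩
    · change S.κ ⟨i, a⟩ (S.lf Y ⟨i, a⟩ z) ∈ closedBall x t
      rw [h6]
      exact hzt
    · rw [hO] at h7
      obtain ⟨j, h8, h9⟩ := interior_subset h7 F hF Y z hza rfl
      exact hcore j h8 h9

private theorem CovA_NB {r₀ : S.ι → ℂ × ℂ → ℝ} (D : PPart S Ra r₀) (hL : LfHyp S) (hRo : ∀ k q, Reg S Ra k q → ∀ᶠ x in 𝓝 q, Reg S Ra k x)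
    {i : X.ι} {x : ℂ × ℂ} (hx : x ∈ X.B i) (hxS : x ∈ DS) {u : ℂ × ℂ → ℂ} (hu : AnalyticAt ℂ u x)
    (hu' : ∀ᶠ p in 𝓝 x, (eval (X.ρ i p).ofLp Ra = 0 ↔ u p = 0) ∧ (u p = 0 → fderiv ℂ u p ≠ 0))
    (h : ∀ a, ∀ q ∈ closedBall (0 : ℂ × ℂ) 1, S.κ ⟨i, a⟩ q = x → Reg S Ra ⟨i, a⟩ q) : Nonempty (NDat D i x) := by
  classical
  have h1 : ∀ a, ∀ᶠ t in 𝓝[>] (0 : ℝ), ∀ q ∈ closedBall (0 : ℂ × ℂ) 1, S.κ ⟨i, a⟩ q ∈ closedBall x t → Reg S Ra ⟨i, a⟩ q := fun a =>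
    CovA_fib (isCompact_closedBall _ _) (CovA_cont _) fun q hq hqx => hRo _ _ (h a q hq hqx)
  have h0 : ∀ V ∈ 𝓝 x, ∀ᶠ t in 𝓝[>] (0 : ℝ), closedBall x t ⊆ V := fun V hV => (eventually_closedBall_subset hV).filter_mono nhdsWithin_le_nhds
  have h3 : ∀ᶠ t in 𝓝[>] (0 : ℝ), 0 < t := self_mem_nhdsWithin
  obtain ⟨t, ht, htB, htS, htu, hte, htR⟩ := (h3.and ((h0 _ ((X.isOpen i).mem_nhds hx)).and ((h0 _ (isOpen_DS.mem_nhds hxS)).and
    ((h0 _ hu.eventually_analyticAt).and ((h0 _ (eventually_eventually_nhds.2 hu')).and (eventually_all.2 h1)))))).exists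
  refine ⟨⟨t, some u, fun a => closedBall (0 : ℂ × ℂ) 1 ∩ (S.κ ⟨i, a⟩) ⁻¹' closedBall x t, ht, htB, fun v hv => ?_, ?_, ?_, ?_, ?_⟩⟩
  · obtain rfl : u = v := Option.some.inj hv
    exact ⟨htS, fun p hp => htu hp, fun p hp => hte hp⟩
  · intro a
    exact (isCompact_closedBall _ _).inter_right (isClosed_closedBall.preimage (CovA_cont _))
  · intro a hv
    simp at hv
  · rintro a v - q ⟨hq, hqt⟩
    exact ⟨htR a q hq hqt, hqt⟩
  · intro F hF Y z hz hzt _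
    obtain ⟨a, hza, h4, h5⟩ := hL.cover F hF Y i z hz
    have h6 := (hL.κ_lf F hF Y ⟨i, a⟩ z hza).2
    refine ⟨a, hza, CovA_ub.2 ⟨h4, h5⟩, ?_⟩
    change S.κ ⟨i, a⟩ (S.lf Y ⟨i, a⟩ z) ∈ closedBall x t
    rw [h6]
    exact hzt

/-- **The cover, from local statements.** -/
theorem exists_cov_aux (hL : LfHyp S) (hreg : ∀ k, ∀ q ∈ S.D k, ∀ᶠ x in 𝓝[≠] q, Reg S Ra k x)
    (hav : ∀ (i : X.ι) (a a' : (S.V i).ι) (q q' : ℂ × ℂ), q ∈ S.D ⟨i, a⟩ → q' ∈ S.D ⟨i, a'⟩ → SepPt S ⟨i, a⟩ q ⟨i, a'⟩ q' ∨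
      ∃ Φ : ℂ × ℂ → ℂ × ℂ, AnalyticAt ℂ Φ q ∧ Φ q = q' ∧ ∃ N ∈ 𝓝 q, ∀ F : ℂ → EN M, WCrv θ RD F → ∀ Y : NCLift X F, ∀ z ∈ S.Om Y ⟨i, a⟩,
        S.lf Y ⟨i, a⟩ z ∈ N → z ∈ S.Om Y ⟨i, a'⟩ ∧ S.lf Y ⟨i, a'⟩ z = Φ (S.lf Y ⟨i, a⟩ z))
    (hfib : ∀ k, ∀ q ∈ S.D k, q.1 * q.2 ≠ 0 → ∀ᶠ x in 𝓝 q, S.κ k x = S.κ k q → x = q)
    (hAo : ∀ k q, RegA S Ra k q → ∀ᶠ x in 𝓝 q, RegA S Ra k x) (hRo : ∀ k q, Reg S Ra k q → ∀ᶠ x in 𝓝 q, Reg S Ra k x)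
    (hU : ∀ k q, RegB S Ra k q → ∃ u : ℂ × ℂ → ℂ, AnalyticAt ℂ u (S.κ k q) ∧
      ∀ᶠ p in 𝓝 (S.κ k q), (eval (X.ρ k.1 p).ofLp Ra = 0 ↔ u p = 0) ∧ (u p = 0 → fderiv ℂ u p ≠ 0))
    (r₀ : S.ι → ℂ × ℂ → ℝ) (h₀ : ∀ k, ∀ q ∈ S.D k, 0 < r₀ k q) : ∃ C : Cov S Ra, ∀ j, C.r j ≤ r₀ (C.ck j) (C.Q j) := by
  classical
  obtain ⟨D⟩ := exists_PPart hL hreg hav hfib r₀ h₀
  have hex : ∀ i, ∀ x ∈ X.C i, ∃ n : (Σ i' : X.ι, Σ y' : ℂ × ℂ, NDat D i' y'), {x' : ℂ × ℂ | ∀ F : ℂ → EN M, WCrv θ RD F → ∀ Y : NCLift X F,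
      ∀ z ∈ Y.U i, Y.p i z = x' → z ∈ Y.U n.1 ∧ Y.p n.1 z ∈ ball n.2.1 (n.2.2.t / 4)} ∈ 𝓝 x := by
    intro i x hx
    have hxB := X.C_sub i hx
    have hown : ∀ n : NDat D i x, {x' : ℂ × ℂ | ∀ F : ℂ → EN M, WCrv θ RD F → ∀ Y : NCLift X F,
        ∀ z ∈ Y.U i, Y.p i z = x' → z ∈ Y.U i ∧ Y.p i z ∈ ball x (n.t / 4)} ∈ 𝓝 x := fun n => by
      filter_upwards [ball_mem_nhds x (div_pos n.t_pos four_pos)] with x' hx' F hF Y z hz hzx
      exact ⟨hz, by rw [hzx]; exact hx'⟩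
    by_cases h1 : ∃ a, ∃ q ∈ closedBall (0 : ℂ × ℂ) 1, S.κ ⟨i, a⟩ q = x ∧ ¬ Reg S Ra ⟨i, a⟩ q
    · obtain ⟨b, hb, hrel⟩ := D.rep i x hx h1
      have hbB := X.C_sub _ (D.T_mem b hb)
      obtain ⟨n⟩ := CovA_NA D hL hAo hbB fun a q hq hqx => by
        by_cases h2 : RegA S Ra ⟨b.1, a⟩ q
        · exact Or.inl h2
        · exact Or.inr (D.core b hb a q hq hqx h2)
      obtain ⟨Φ, hΦ, hΦx, -, hΦr, -⟩ := X.iso i b.1 x hxB b.2 hbB hrel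
      refine ⟨⟨b.1, b.2, n⟩, ?_⟩
      have h3 : Φ ⁻¹' (ball b.2 (n.t / 4)) ∈ 𝓝 x := by
        refine hΦ.continuousAt.preimage_mem_nhds ?_
        rw [hΦx]
        exact ball_mem_nhds _ (div_pos n.t_pos four_pos)
      filter_upwards [hΦr, h3] with x' h4 h5 F hF Y z hz hzx
      have h6 : Φ x' ∈ X.B b.1 := by
        refine n.sub (closedBall_subset_closedBall ?_ (ball_subset_closedBall h5))
        linarith [n.t_pos]
      obtain ⟨h7, h8⟩ := Y.full i b.1 z hz (Φ x') h6 (by rw [hzx]; exact h4)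
      exact ⟨h7, by
        rw [h8]
        exact h5⟩
    · push Not at h1
      by_cases h2 : ∀ a, ∀ q ∈ closedBall (0 : ℂ × ℂ) 1, S.κ ⟨i, a⟩ q = x → RegA S Ra ⟨i, a⟩ q
      · obtain ⟨n⟩ := CovA_NA D hL hAo hxB fun a q hq hqx => Or.inl (h2 a q hq hqx)
        exact ⟨⟨i, x, n⟩, hown n⟩
      · push Not at h2
        obtain ⟨a, q, hq, hqx, hn⟩ := h2
        have h3 : RegB S Ra ⟨i, a⟩ q := (h1 a q hq hqx).resolve_left hn
        obtain ⟨u, hu, hu'⟩ := hU _ _ h3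
        have h4 : S.κ ⟨i, a⟩ q ∈ DS := by
          refine mem_DS.2 ⟨X.sub i (by rw [hqx]; exact hxB), fun h5 => ?_⟩
          exact h3.ne ((CovA_axes _ q).1 h5)
        rw [hqx] at hu hu' h4
        obtain ⟨n⟩ := CovA_NB D hL hRo hxB h4 hu hu' fun a q hq hqx => h1 a q hq hqx
        exact ⟨⟨i, x, n⟩, hown n⟩
  choose n hn using hex
  have hfin : ∀ i, ∃ t : Finset (X.C i), X.C i ⊆ ⋃ x ∈ t, {x' : ℂ × ℂ | ∀ F : ℂ → EN M, WCrv θ RD F → ∀ Y : NCLift X F,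
      ∀ z ∈ Y.U i, Y.p i z = x' → z ∈ Y.U (n i x.1 x.2).1 ∧ Y.p (n i x.1 x.2).1 z ∈ ball (n i x.1 x.2).2.1 ((n i x.1 x.2).2.2.t / 4)} := fun i =>
    (X.compact i).elim_nhds_subcover' (fun x hx => {x' : ℂ × ℂ | ∀ F : ℂ → EN M, WCrv θ RD F → ∀ Y : NCLift X F,
      ∀ z ∈ Y.U i, Y.p i z = x' → z ∈ Y.U (n i x hx).1 ∧ Y.p (n i x hx).1 z ∈ ball (n i x hx).2.1 ((n i x hx).2.2.t / 4)}) fun x hx => hn i x hx
  choose t ht using hfin
  obtain ⟨k, ⟨e⟩⟩ : ∃ k, Nonempty ((Σ i : X.ι, {x : X.C i // x ∈ t i}) ≃ Fin k) := ⟨_, ⟨Fintype.equivFin _⟩⟩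
  obtain ⟨G, hG⟩ : ∃ G : (Σ i : X.ι, {x : X.C i // x ∈ t i}) → (Σ i' : X.ι, Σ y' : ℂ × ℂ, NDat D i' y'), ∀ v, G v = n v.1 v.2.1.1 v.2.1.2 :=
    ⟨_, fun _ => rfl⟩
  obtain ⟨g, hg⟩ : ∃ g : Fin k → (Σ i' : X.ι, Σ y' : ℂ × ℂ, NDat D i' y'), ∀ j, g j = G (e.symm j) := ⟨_, fun _ => rfl⟩
  refine ⟨{ nP := D.nP
            ck := D.ck
            Q := D.Q
            r := D.r
            s := D.s
            nN := k
            b := fun j => (g j).1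
            y := fun j => (g j).2.1
            t := fun j => (g j).2.2.t
            u := fun j => (g j).2.2.u
            s_pos := D.s_pos
            s_lt := D.s_lt
            Q_mem := D.Q_mem
            P_sub := D.P_sub
            P_reg := D.P_reg
            t_pos := fun j => (g j).2.2.t_pos
            N_sub := fun j => (g j).2.2.sub
            N_B := fun j => (g j).2.2.eqn
            K := fun j => (g j).2.2.K
            K_compact := fun j => (g j).2.2.K_compact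
            K_A := fun j => (g j).2.2.K_A
            K_B := fun j => (g j).2.2.K_B
            cover := ?_
            disj := D.disj
            lift := fun F hF Y j => (g j).2.2.lift F hF Y }, D.r_le⟩
  intro F hF Y z
  obtain ⟨i, hz, hzC⟩ := Y.cover z
  obtain ⟨x, hx, hxz⟩ := Set.mem_iUnion₂.1 (ht i hzC)
  refine ⟨e ⟨i, ⟨x, hx⟩⟩, ?_⟩
  have h1 : g (e ⟨i, ⟨x, hx⟩⟩) = n i x.1 x.2 := by
    rw [hg, Equiv.symm_apply_apply, hG]
  have h2 : ∀ w : (Σ i' : X.ι, Σ y' : ℂ × ℂ, NDat D i' y'), w = n i x.1 x.2 → z ∈ Y.U w.1 ∧ Y.p w.1 z ∈ ball w.2.1 (w.2.2.t / 4) := by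
    rintro w rfl
    exact hxz F hF Y z hz rfl
  exact h2 _ h1

end Pool.Agent.MQ3

end
end

section

/-!
# MQ3 FibN: the chart map is locally invertible off the axes
-/

set_option autoImplicit false

open Topology Filter Metric MvPolynomial

noncomputable section

namespace Pool.Agent.MQ3

open Pool.Agent.H36.BP (EN)
open Pool.Agent.H17EF (coneE)

/-- a map with nonzero Jacobian has a local inverse -/
theorem loc_inv {κ : ℂ × ℂ → ℂ × ℂ} {q : ℂ × ℂ} (hκ : AnalyticAt ℂ κ q)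
    (h : (fderiv ℂ κ q (1, 0)).1 * (fderiv ℂ κ q (0, 1)).2 - (fderiv ℂ κ q (1, 0)).2 * (fderiv ℂ κ q (0, 1)).1 ≠ 0) :
    ∃ ψ : ℂ × ℂ → ℂ × ℂ, AnalyticAt ℂ ψ (κ q) ∧ ψ (κ q) = q ∧ (∀ᶠ p in 𝓝 (κ q), κ (ψ p) = p) ∧ ∀ᶠ x in 𝓝 q, ψ (κ x) = x := by
  have hinj : Function.Injective (fderiv ℂ κ q : (ℂ × ℂ) →ₗ[ℂ] (ℂ × ℂ)) := by
    rw [← LinearMap.ker_eq_bot, LinearMap.ker_eq_bot']
    intro v hv
    have e : v = v.1 • ((1 : ℂ), (0 : ℂ)) + v.2 • ((0 : ℂ), (1 : ℂ)) := by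
      refine Prod.ext ?_ ?_ <;> simp
    have h1 : v.1 • fderiv ℂ κ q (1, 0) + v.2 • fderiv ℂ κ q (0, 1) = 0 := by
      rw [← map_smul, ← map_smul, ← map_add, ← e]
      exact hv
    have h2 : v.1 * (fderiv ℂ κ q (1, 0)).1 + v.2 * (fderiv ℂ κ q (0, 1)).1 = 0 := congrArg Prod.fst h1
    have h3 : v.1 * (fderiv ℂ κ q (1, 0)).2 + v.2 * (fderiv ℂ κ q (0, 1)).2 = 0 := congrArg Prod.snd h1
    refine Prod.ext ?_ ?_
    · exact (mul_eq_zero.1 (show v.1 * ((fderiv ℂ κ q (1, 0)).1 * (fderiv ℂ κ q (0, 1)).2 -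
        (fderiv ℂ κ q (1, 0)).2 * (fderiv ℂ κ q (0, 1)).1) = 0 by
          linear_combination (fderiv ℂ κ q (0, 1)).2 * h2 - (fderiv ℂ κ q (0, 1)).1 * h3)).resolve_right h
    · exact (mul_eq_zero.1 (show v.2 * ((fderiv ℂ κ q (1, 0)).1 * (fderiv ℂ κ q (0, 1)).2 -
        (fderiv ℂ κ q (1, 0)).2 * (fderiv ℂ κ q (0, 1)).1) = 0 by
          linear_combination (fderiv ℂ κ q (1, 0)).1 * h3 - (fderiv ℂ κ q (1, 0)).2 * h2)).resolve_right h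
  obtain ⟨i, hi⟩ : ∃ i : (ℂ × ℂ) ≃L[ℂ] (ℂ × ℂ), (i : (ℂ × ℂ) →L[ℂ] (ℂ × ℂ)) = fderiv ℂ κ q :=
    ⟨(LinearEquiv.ofInjectiveEndo (fderiv ℂ κ q : (ℂ × ℂ) →ₗ[ℂ] (ℂ × ℂ)) hinj).toContinuousLinearEquiv, by
      apply ContinuousLinearMap.ext
      intro x
      rfl⟩
  have hd : HasFDerivAt κ (i : (ℂ × ℂ) →L[ℂ] (ℂ × ℂ)) q := by
    rw [hi]
    exact hκ.differentiableAt.hasFDerivAt
  have hs : HasStrictFDerivAt κ (i : (ℂ × ℂ) →L[ℂ] (ℂ × ℂ)) q := hκ.hasStrictFDerivAt.congr_fderiv hd.fderiv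
  have hsrc := hs.mem_toOpenPartialHomeomorph_source
  have hco := hs.toOpenPartialHomeomorph_coe
  refine ⟨(hs.toOpenPartialHomeomorph κ).symm, ?_, ?_, ?_, ?_⟩
  · have h1 : AnalyticAt ℂ (hs.toOpenPartialHomeomorph κ).symm (hs.toOpenPartialHomeomorph κ q) := by
      refine OpenPartialHomeomorph.analyticAt_symm' (i := i) _ hsrc ?_ ?_
      · rw [hco]
        exact hκ
      · rw [hco]
        exact hd.fderiv
    rwa [hco] at h1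
  · have h1 := (hs.toOpenPartialHomeomorph κ).left_inv hsrc
    rwa [hco] at h1
  · have h1 := (hs.toOpenPartialHomeomorph κ).eventually_right_inverse ((hs.toOpenPartialHomeomorph κ).map_source hsrc)
    rwa [hco] at h1
  · have h1 := (hs.toOpenPartialHomeomorph κ).eventually_left_inverse hsrc
    rwa [hco] at h1

variable {M : ℕ} {P : Ideal (MvPolynomial (Fin (M + 1)) ℂ)} {RD : MvPolynomial (Fin (M + 1)) ℂ} {m : ℕ} {X : NCModel P RD} {θ : WDiff (coneE P) m}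
  {l : LF M} {S : Web X θ l}

/-- off the axes the chart map is locally invertible -/
theorem fib_iso {k : S.ι} {q : ℂ × ℂ} (_hq : q ∈ S.D k) (h0 : q.1 * q.2 ≠ 0) : ∃ ψ : ℂ × ℂ → ℂ × ℂ, AnalyticAt ℂ ψ (S.κ k q) ∧ ψ (S.κ k q) = q ∧
    (∀ᶠ p in 𝓝 (S.κ k q), S.κ k (ψ p) = p) ∧ ∀ᶠ x in 𝓝 q, ψ (S.κ k x) = x :=
  loc_inv (κ := S.κ k) (analyticAt_mono q) (jac_mono_ne (S.c k).pos.ne' h0)

end Pool.Agent.MQ3

end
end

section

/-!
# MQ3 LocU: a reduced equation of the curve `{Ra = 0}` in a box, from a regular chart point of the second type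

`u = G ∘ ψ`, `ψ` a local inverse of the map of the chart to its box.
-/

set_option autoImplicit false

open Topology Filter Metric MvPolynomial

noncomputable section

namespace Pool.Agent.MQ3

open Pool.Agent.H36.BP (EN fs)
open Pool.Agent.H17EF (projVar coneE)

variable {M : ℕ} {P : Ideal (MvPolynomial (Fin (M + 1)) ℂ)} {RD : MvPolynomial (Fin (M + 1)) ℂ} {m : ℕ} {X : NCModel P RD} {θ : WDiff (coneE P) m}
  {l : LF M} {S : Web X θ l} {Ra : MvPolynomial (Fin (M + 1)) ℂ}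

theorem locU_of {κ ψ : ℂ × ℂ → ℂ × ℂ} {G e : ℂ × ℂ → ℂ} {q : ℂ × ℂ} (hψ : AnalyticAt ℂ ψ (κ q)) (hψq : ψ (κ q) = q) (h1 : ∀ᶠ p in 𝓝 (κ q), κ (ψ p) = p)
    (h2 : ∀ᶠ x in 𝓝 q, ψ (κ x) = x) (hκ : AnalyticAt ℂ κ q) (hG : AnalyticAt ℂ G q) (hG' : fderiv ℂ G q ≠ 0) (he : ∀ᶠ x in 𝓝 q, e (κ x) = 0 ↔ G x = 0) :
    ∃ u : ℂ × ℂ → ℂ, AnalyticAt ℂ u (κ q) ∧ ∀ᶠ p in 𝓝 (κ q), (e p = 0 ↔ u p = 0) ∧ (u p = 0 → fderiv ℂ u p ≠ 0) := by
  have hψt : Tendsto ψ (𝓝 (κ q)) (𝓝 q) := by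
    have h3 := hψ.continuousAt.tendsto
    rwa [hψq] at h3
  have hGa : AnalyticAt ℂ G (ψ (κ q)) := by rwa [hψq]
  refine ⟨fun p => G (ψ p), AnalyticAt.comp (g := G) (f := ψ) hGa hψ, ?_⟩
  have hGn : ∀ᶠ x in 𝓝 q, fderiv ℂ G x ≠ 0 := hG.fderiv.continuousAt.eventually_ne hG'
  filter_upwards [h1, hψt.eventually he, hψt.eventually hGn, hψt.eventually h2.eventually_nhds, hψ.eventually_analyticAt, hψt.eventually hκ.eventually_analyticAt,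
    hψt.eventually hG.eventually_analyticAt] with p hp hp1 hp2 hp3 hp4 hp5 hp6
  rw [hp] at hp1
  refine ⟨hp1, fun _ h0 => hp2 ?_⟩
  have h3 : fderiv ℂ (fun p => G (ψ p)) p = (fderiv ℂ G (ψ p)).comp (fderiv ℂ ψ p) := fderiv_comp p hp6.differentiableAt hp4.differentiableAt
  have h4 : (fderiv ℂ ψ p).comp (fderiv ℂ κ (ψ p)) = ContinuousLinearMap.id ℂ (ℂ × ℂ) := by
    have h5 : HasFDerivAt (fun x => ψ (κ x)) ((fderiv ℂ ψ p).comp (fderiv ℂ κ (ψ p))) (ψ p) := by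
      have h6 : HasFDerivAt ψ (fderiv ℂ ψ p) (κ (ψ p)) := by
        rw [hp]
        exact hp4.differentiableAt.hasFDerivAt
      exact HasFDerivAt.comp (g := ψ) (f := κ) (ψ p) h6 hp5.differentiableAt.hasFDerivAt
    exact h5.unique ((hasFDerivAt_id (ψ p)).congr_of_eventuallyEq hp3)
  have h5 : ((fderiv ℂ G (ψ p)).comp (fderiv ℂ ψ p)).comp (fderiv ℂ κ (ψ p)) = fderiv ℂ G (ψ p) := by
    rw [ContinuousLinearMap.comp_assoc, h4, ContinuousLinearMap.comp_id]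
  rw [← h3, h0, ContinuousLinearMap.zero_comp] at h5
  exact h5.symm

/-- the map of a chart to its box is analytic -/
theorem κ_analyticAt (k : S.ι) (q : ℂ × ℂ) : AnalyticAt ℂ (S.κ k) q := by
  show AnalyticAt ℂ (mono (S.c k).w (S.c k).w') q
  exact ((analyticAt_fst.pow _).mul (analyticAt_snd.pow _)).prod ((analyticAt_fst.pow _).mul (analyticAt_snd.pow _))

/-- **LocU**, from the local inverse of `fib_iso`: `locU_of_fib h (fib_iso h.mem h.ne)`. -/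
theorem locU_of_fib {k : S.ι} {q : ℂ × ℂ} (h : RegB S Ra k q)
    (hfib : ∃ ψ : ℂ × ℂ → ℂ × ℂ, AnalyticAt ℂ ψ (S.κ k q) ∧ ψ (S.κ k q) = q ∧ (∀ᶠ p in 𝓝 (S.κ k q), S.κ k (ψ p) = p) ∧ ∀ᶠ x in 𝓝 q, ψ (S.κ k x) = x) :
    ∃ u : ℂ × ℂ → ℂ, AnalyticAt ℂ u (S.κ k q) ∧ ∀ᶠ p in 𝓝 (S.κ k q), (eval (X.ρ k.1 p).ofLp Ra = 0 ↔ u p = 0) ∧ (u p = 0 → fderiv ℂ u p ≠ 0) := by
  obtain ⟨ψ, h1, h2, h3, h4⟩ := hfib
  obtain ⟨G, h5, -, h6, h7, -⟩ := h.crv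
  exact locU_of (e := fun p => eval (X.ρ k.1 p).ofLp Ra) h1 h2 h3 h4 (κ_analyticAt k q) h5 h6 h7

end Pool.Agent.MQ3

end
end

section

/-!
# MQ3 AvatB: gluing of two charts at neighbouring points: the transition respects the foliation and the axes
-/

set_option autoImplicit false

open Topology Filter Metric

noncomputable section

namespace Pool.Agent.MQ3

open Pool.Agent.H36.BP (EN)
open Pool.Agent.H17BP (Surface)

variable {M : ℕ} {X : Set (EN M)} {m : ℕ} {θ : WDiff X m} {l : LF M} {ρ : ℂ × ℂ → EN M} {W : BoxWeb θ l ρ}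

/-- `Φ` and `Ψ` glue the charts `c` and `c'` near `q` -/
structure Gl (c c' : MChart W) (Φ Ψ : ℂ × ℂ → ℂ × ℂ) (q : ℂ × ℂ) : Prop where
  an : AnalyticAt ℂ Φ q
  an' : AnalyticAt ℂ Ψ (Φ q)
  inv : ∀ᶠ y in 𝓝 q, Ψ (Φ y) = y
  inv' : ∀ᶠ y in 𝓝 (Φ q), Φ (Ψ y) = y
  kap : ∀ᶠ y in 𝓝 q, c'.κ (Φ y) = c.κ y
  fld : ∃ h : ℂ × ℂ → ℂ, AnalyticAt ℂ h q ∧ h q ≠ 0 ∧ ∀ᶠ y in 𝓝 q, fderiv ℂ Φ y (c.v y) = h y • c'.v (Φ y)
  ax : ∃ ε : ℂ × ℂ → ℂ, AnalyticAt ℂ ε q ∧ ε q ≠ 0 ∧ ∀ᶠ y in 𝓝 q, (Φ y).1 * (Φ y).2 = ε y * (y.1 * y.2)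
  ne : ∀ᶠ y in 𝓝 q, y ≠ 0 ↔ Φ y ≠ 0

theorem Gl.ev {c c' : MChart W} {Φ Ψ : ℂ × ℂ → ℂ × ℂ} {q : ℂ × ℂ} (h : Gl c c' Φ Ψ q) : ∀ᶠ y in 𝓝 q, Gl c c' Φ Ψ y := by
  obtain ⟨g, hg, hg0, hg'⟩ := h.fld
  obtain ⟨ε, he, he0, he'⟩ := h.ax
  filter_upwards [h.an.eventually_analyticAt, h.an.continuousAt.eventually h.an'.eventually_analyticAt, eventually_eventually_nhds.2 h.inv,
    h.an.continuousAt.eventually (eventually_eventually_nhds.2 h.inv'), eventually_eventually_nhds.2 h.kap, hg.eventually_analyticAt,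
    hg.continuousAt.eventually_ne hg0, eventually_eventually_nhds.2 hg', he.eventually_analyticAt, he.continuousAt.eventually_ne he0,
    eventually_eventually_nhds.2 he', eventually_eventually_nhds.2 h.ne] with y h1 h2 h3 h4 h5 h6 h7 h8 h9 h10 h11 h12
  exact ⟨h1, h2, h3, h4, h5, ⟨g, h6, h7, h8⟩, ⟨ε, h9, h10, h11⟩, h12⟩

theorem Gl.symm {c c' : MChart W} {Φ Ψ : ℂ × ℂ → ℂ × ℂ} {q : ℂ × ℂ} (h : Gl c c' Φ Ψ q) : Gl c' c Ψ Φ (Φ q) := by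
  have hq : Ψ (Φ q) = q := h.inv.self_of_nhds
  have hΨ : ContinuousAt Ψ (Φ q) := h.an'.continuousAt
  have ht : Tendsto Ψ (𝓝 (Φ q)) (𝓝 q) := by
    have := hΨ.tendsto
    rwa [hq] at this
  obtain ⟨g, hg, hg0, hg'⟩ := h.fld
  obtain ⟨ε, he, he0, he'⟩ := h.ax
  refine ⟨h.an', by rw [hq]; exact h.an, h.inv', by rw [hq]; exact h.inv, ?_, ?_, ?_, ?_⟩
  · filter_upwards [ht.eventually h.kap, h.inv'] with y h1 h2
    rw [h2] at h1
    exact h1.symm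
  · have hgΨ : AnalyticAt ℂ (fun y => g (Ψ y)) (Φ q) := AnalyticAt.comp (g := g) (f := Ψ) (x := Φ q) (by rw [hq]; exact hg) h.an'
    refine ⟨fun y => (g (Ψ y))⁻¹, hgΨ.fun_inv (by rw [hq]; exact hg0), inv_ne_zero (by rw [hq]; exact hg0), ?_⟩
    filter_upwards [ht.eventually hg', h.inv', ht.eventually (eventually_eventually_nhds.2 h.inv), ht.eventually h.an.eventually_analyticAt,
      ht.eventually (hg.continuousAt.eventually_ne hg0), h.an'.eventually_analyticAt] with y h1 h2 h3 h4 h5 h6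
    rw [h2] at h1
    have h7 : c'.v y = (g (Ψ y))⁻¹ • fderiv ℂ Φ (Ψ y) (c.v (Ψ y)) := by
      rw [h1, smul_smul, inv_mul_cancel₀ h5, one_smul]
    have h8 : fderiv ℂ (fun x => Ψ (Φ x)) (Ψ y) = (fderiv ℂ Ψ y).comp (fderiv ℂ Φ (Ψ y)) := by
      have := fderiv_comp (𝕜 := ℂ) (g := Ψ) (f := Φ) (Ψ y) (by rw [h2]; exact h6.differentiableAt) h4.differentiableAt
      rw [h2] at this
      exact this
    have h9 : fderiv ℂ (fun x => Ψ (Φ x)) (Ψ y) = ContinuousLinearMap.id ℂ (ℂ × ℂ) := by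
      rw [Filter.EventuallyEq.fderiv_eq (f := id) h3, fderiv_id]
    have h10 : fderiv ℂ Ψ y (fderiv ℂ Φ (Ψ y) (c.v (Ψ y))) = c.v (Ψ y) := by
      have := congrArg (fun L : ℂ × ℂ →L[ℂ] ℂ × ℂ => L (c.v (Ψ y))) (h8.symm.trans h9)
      exact this
    rw [h7, map_smul, h10]
  · have heΨ : AnalyticAt ℂ (fun y => ε (Ψ y)) (Φ q) := AnalyticAt.comp (g := ε) (f := Ψ) (x := Φ q) (by rw [hq]; exact he) h.an'
    refine ⟨fun y => (ε (Ψ y))⁻¹, heΨ.fun_inv (by rw [hq]; exact he0), inv_ne_zero (by rw [hq]; exact he0), ?_⟩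
    filter_upwards [ht.eventually he', h.inv', ht.eventually (he.continuousAt.eventually_ne he0)] with y h1 h2 h3
    rw [h2] at h1
    rw [h1, inv_mul_cancel_left₀ h3]
  · filter_upwards [ht.eventually h.ne, h.inv'] with y h1 h2
    rw [h2] at h1
    exact h1.symm

/-- the identity -/
theorem Gl.id (c : MChart W) (q : ℂ × ℂ) : Gl c c id id q := by
  refine ⟨analyticAt_id, analyticAt_id, Eventually.of_forall fun _ => rfl, Eventually.of_forall fun _ => rfl, Eventually.of_forall fun _ => rfl,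
    ⟨fun _ => 1, analyticAt_const, one_ne_zero, Eventually.of_forall fun y => ?_⟩, ⟨fun _ => 1, analyticAt_const, one_ne_zero,
      Eventually.of_forall fun y => by simp⟩, Eventually.of_forall fun _ => Iff.rfl⟩
  rw [fderiv_id]
  simp

/-- **Neighbouring points: the charts are glued.** -/
theorem nbr_gl {c c' : MChart W} {q q' : ℂ × ℂ} (hn : Nbr c c' q q') (hf : c = c' ∨ 0 ≤ dt c.w' c'.w ∨ 0 ≤ dt c'.w' c.w) (hq : q ∈ c.D) (hq' : q' ∈ c'.D) :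
    ∃ Φ Ψ : ℂ × ℂ → ℂ × ℂ, Gl c c' Φ Ψ q ∧ Φ q = q' ∧
      ∃ N ∈ 𝓝 q, ∀ (F : ℂ → EN M) (U : Set ℂ) (p : ℂ → ℂ × ℂ), BCrv θ l ρ F U p → ∀ z ∈ c.Om F U p, c.lf F U p z ∈ N →
        z ∈ c'.Om F U p ∧ c'.lf F U p z = Φ (c.lf F U p z) := by
  rcases hf with rfl | hf
  · have h1 := nbr_self hn
    subst h1
    exact ⟨id, id, Gl.id c q, rfl, Set.univ, univ_mem, fun F U p _ z hz _ => ⟨hz, rfl⟩⟩
  obtain ⟨α, β, γ, δ, h1, h2, h3, h4, h5, h6⟩ := nbr_tr' hn hf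
  obtain ⟨α', β', γ', δ', h1', h2', h3', h4', h5', h6'⟩ := nbr_tr' hn.symm hf.symm
  have hok := trOk_of h3 h4
  have hok' := trOk_of h3' h4'
  have hΦ := hok.an
  have hΨ : AnalyticAt ℂ (tr α' β' γ' δ') (tr α β γ δ q) := by
    rw [h6]
    exact hok'.an
  have hlog : ∀ y : ℂ × ℂ, y.1 * y.2 ≠ 0 → pexp (Complex.log y.1, Complex.log y.2) = y := fun y h0 =>
    Prod.ext (Complex.exp_log (left_ne_zero_of_mul h0)) (Complex.exp_log (right_ne_zero_of_mul h0))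
  -- the inverse
  have hinv0 : ∀ y : ℂ × ℂ, y.1 * y.2 ≠ 0 → tr α' β' γ' δ' (tr α β γ δ y) = y := by
    intro y h0
    set V : ℂ × ℂ := (Complex.log y.1, Complex.log y.2) with hV
    have e1 : tr α β γ δ y = pexp (α * V.1 + γ * V.2, β * V.1 + δ * V.2) := by rw [← tr_pexp, hlog y h0]
    rw [e1, tr_eq h1' h2' (ln_tr h1 h2 V), hlog y h0]
  have hinv0' : ∀ y : ℂ × ℂ, y.1 * y.2 ≠ 0 → tr α β γ δ (tr α' β' γ' δ' y) = y := by
    intro y h0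
    set V : ℂ × ℂ := (Complex.log y.1, Complex.log y.2) with hV
    have e1 : tr α' β' γ' δ' y = pexp (α' * V.1 + γ' * V.2, β' * V.1 + δ' * V.2) := by rw [← tr_pexp, hlog y h0]
    rw [e1, tr_eq h1 h2 (ln_tr h1' h2' V), hlog y h0]
  have hinv : ∀ᶠ y in 𝓝 q, tr α' β' γ' δ' (tr α β γ δ y) = y :=
    eventuallyEq_of_off (f := fun y => tr α' β' γ' δ' (tr α β γ δ y)) (g := fun y => y) (hΨ.comp hΦ) analyticAt_id
      (Eventually.of_forall fun y h0 => hinv0 y h0)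
  have hinv' : ∀ᶠ y in 𝓝 (tr α β γ δ q), tr α β γ δ (tr α' β' γ' δ' y) = y := by
    rw [h6]
    refine eventuallyEq_of_off (f := fun y => tr α β γ δ (tr α' β' γ' δ' y)) (g := fun y => y) ?_ analyticAt_id
      (Eventually.of_forall fun y h0 => hinv0' y h0)
    refine AnalyticAt.comp (g := tr α β γ δ) (f := tr α' β' γ' δ') (x := q') ?_ hok'.an
    rw [h6']
    exact hΦ
  have hkap : ∀ᶠ y in 𝓝 q, c'.κ (tr α β γ δ y) = c.κ y :=
    eventuallyEq_of_off (f := fun y => c'.κ (tr α β γ δ y)) (g := fun y => c.κ y)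
      (AnalyticAt.comp (g := c'.κ) (f := tr α β γ δ) (x := q) (analyticAt_mono _) hΦ) (analyticAt_mono _)
      (Eventually.of_forall fun y h0 => tr_mono h1 h2 h0)
  -- the fields
  have hD : ∀ᶠ y in 𝓝 q, y ∈ c.D := isOpen_Dm.mem_nhds hq
  have hv : AnalyticAt ℂ c.v q := c.v_an q hq
  have hv' : AnalyticAt ℂ c'.v (tr α β γ δ q) := by
    rw [h6]
    exact c'.v_an q' hq'
  have hV : AnalyticAt ℂ (fun y => fderiv ℂ (tr α β γ δ) y (c.v y)) q := analyticAt_fderiv_app hΦ hv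
  have hV' : AnalyticAt ℂ (fun y => c'.v (tr α β γ δ y)) q := AnalyticAt.comp (g := c'.v) (f := tr α β γ δ) (x := q) hv' hΦ
  have hinj : ∀ᶠ y in 𝓝 q, ∀ w, fderiv ℂ (tr α' β' γ' δ') (tr α β γ δ y) (fderiv ℂ (tr α β γ δ) y w) = w := by
    filter_upwards [eventually_eventually_nhds.2 hinv, hΦ.eventually_analyticAt, hΦ.continuousAt.eventually hΨ.eventually_analyticAt] with y g1 g2 g3 w
    have g4 : fderiv ℂ (fun x => tr α' β' γ' δ' (tr α β γ δ x)) y = (fderiv ℂ (tr α' β' γ' δ') (tr α β γ δ y)).comp (fderiv ℂ (tr α β γ δ) y) :=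
      fderiv_comp (𝕜 := ℂ) (g := tr α' β' γ' δ') (f := tr α β γ δ) y g3.differentiableAt g2.differentiableAt
    have g5 : fderiv ℂ (fun x => tr α' β' γ' δ' (tr α β γ δ x)) y = ContinuousLinearMap.id ℂ (ℂ × ℂ) := by
      rw [Filter.EventuallyEq.fderiv_eq (f := id) g1, fderiv_id]
    exact congrArg (fun L : ℂ × ℂ →L[ℂ] ℂ × ℂ => L w) (g4.symm.trans g5)
  have hVne : ∀ᶠ y in 𝓝[≠] q, fderiv ℂ (tr α β γ δ) y (c.v y) ≠ 0 := by
    rw [eventually_nhdsWithin_iff]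
    filter_upwards [hinj, c.v_iso q hq] with y g1 g2 hy g3
    have g4 := g1 (c.v y)
    rw [g3, map_zero] at g4
    exact g2 hy g4.symm
  have hVne' : ∀ᶠ y in 𝓝[≠] q, c'.v (tr α β γ δ y) ≠ 0 := by
    have ht : Tendsto (tr α β γ δ) (𝓝 q) (𝓝 q') := by
      have := hΦ.continuousAt.tendsto
      rwa [h6] at this
    rw [eventually_nhdsWithin_iff]
    filter_upwards [ht.eventually (c'.v_iso q' hq'), hinv] with y g1 g2 hy
    refine g1 fun g3 => hy ?_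
    rw [g3, h6'] at g2
    exact g2.symm
  have hpar : ∀ᶠ y in 𝓝 q, y.1 * y.2 ≠ 0 → (fderiv ℂ (tr α β γ δ) y (c.v y)).1 * (c'.v (tr α β γ δ y)).2 =
      (fderiv ℂ (tr α β γ δ) y (c.v y)).2 * (c'.v (tr α β γ δ y)).1 := by
    filter_upwards [hD, eventually_eventually_nhds.2 hkap, hΦ.eventually_analyticAt] with y g1 g2 g3 h0
    set V : ℂ × ℂ := (Complex.log y.1, Complex.log y.2) with hVd
    have e0 : pexp V = y := hlog y h0
    have e1 : tr α β γ δ y = pexp (α * V.1 + γ * V.2, β * V.1 + δ * V.2) := by rw [← tr_pexp, hlog y h0]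
    have e2 : ln c.w c.w' V ∈ HH := by
      rw [ln_mem_iff, e0]
      exact g1
    have e3 := ln_tr h1 h2 V
    have e4 := c.v_eq V e2 (c.v y)
    have e5 := c'.v_eq (α * V.1 + γ * V.2, β * V.1 + δ * V.2) (by rw [e3]; exact e2) (fderiv ℂ (tr α β γ δ) y (c.v y))
    have e6 : fderiv ℂ (mono c'.w c'.w') (tr α β γ δ y) (fderiv ℂ (tr α β γ δ) y (c.v y)) = fderiv ℂ (mono c.w c.w') y (c.v y) := by
      have k1 : fderiv ℂ (fun x => mono c'.w c'.w' (tr α β γ δ x)) y = (fderiv ℂ (mono c'.w c'.w') (tr α β γ δ y)).comp (fderiv ℂ (tr α β γ δ) y) :=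
        fderiv_comp (𝕜 := ℂ) (g := mono c'.w c'.w') (f := tr α β γ δ) y (analyticAt_mono _).differentiableAt g3.differentiableAt
      have k2 : fderiv ℂ (fun x => mono c'.w c'.w' (tr α β γ δ x)) y = fderiv ℂ (mono c.w c.w') y :=
        Filter.EventuallyEq.fderiv_eq g2
      exact congrArg (fun L : ℂ × ℂ →L[ℂ] ℂ × ℂ => L (c.v y)) (k1.symm.trans k2)
    rw [← e1, e3, e6, ← hn.1] at e5
    rw [e0] at e4
    have e7 : (c.v y).1 * (c.v y).2 - (c.v y).2 * (c.v y).1 = 0 := by ring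
    rw [e7, mul_zero] at e4
    rw [e4] at e5
    have e8 : (tr α β γ δ y).1 ^ c'.i * (tr α β γ δ y).2 ^ c'.j ≠ 0 := by
      rw [e1]
      exact mul_ne_zero (pow_ne_zero _ (Complex.exp_ne_zero _)) (pow_ne_zero _ (Complex.exp_ne_zero _))
    have e9 := (mul_eq_zero.1 e5.symm).resolve_left e8
    linear_combination -e9
  refine ⟨tr α β γ δ, tr α' β' γ' δ', ⟨hΦ, hΨ, hinv, hinv', hkap, par_unit hV hV' hVne hVne' hpar, ?_, ?_⟩, h6, ?_⟩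
  · -- the axes
    have k1 : q.1 ≠ 0 ∨ α + β - 1 = 0 := h3.imp_right fun h => by rw [h.1, h.2]; ring
    have k2 : q.2 ≠ 0 ∨ γ + δ - 1 = 0 := h4.imp_right fun h => by rw [h.1, h.2]; ring
    have a1 : AnalyticAt ℂ (fun y : ℂ × ℂ => y.1 ^ (α + β - 1)) q := analyticAt_zpow analyticAt_fst (k1.imp_right fun h => h.ge)
    have a2 : AnalyticAt ℂ (fun y : ℂ × ℂ => y.2 ^ (γ + δ - 1)) q := analyticAt_zpow analyticAt_snd (k2.imp_right fun h => h.ge)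
    refine ⟨fun y => y.1 ^ (α + β - 1) * y.2 ^ (γ + δ - 1), a1.fun_mul a2, ?_, ?_⟩
    · refine mul_ne_zero ?_ ?_
      · rcases k1 with k | k
        · exact zpow_ne_zero _ k
        · rw [k, zpow_zero]
          exact one_ne_zero
      · rcases k2 with k | k
        · exact zpow_ne_zero _ k
        · rw [k, zpow_zero]
          exact one_ne_zero
    · refine eventuallyEq_of_off (f := fun y => (tr α β γ δ y).1 * (tr α β γ δ y).2) (g := fun y : ℂ × ℂ => y.1 ^ (α + β - 1) * y.2 ^ (γ + δ - 1) * (y.1 * y.2))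
        ((analyticAt_fst.fun_comp hΦ).fun_mul (analyticAt_snd.fun_comp hΦ)) ((a1.fun_mul a2).fun_mul (analyticAt_fst.fun_mul analyticAt_snd))
        (Eventually.of_forall fun y h0 => ?_)
      have y1 := left_ne_zero_of_mul h0
      have y2 := right_ne_zero_of_mul h0
      show y.1 ^ α * y.2 ^ γ * (y.1 ^ β * y.2 ^ δ) = y.1 ^ (α + β - 1) * y.2 ^ (γ + δ - 1) * (y.1 * y.2)
      rw [zpow_sub_one₀ y1, zpow_sub_one₀ y2, zpow_add₀ y1, zpow_add₀ y2]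
      field_simp
  · have k1 : tr α β γ δ q ≠ 0 := by
      rw [h6]
      exact h5'
    filter_upwards [hΦ.continuousAt.eventually_ne k1, eventually_ne_nhds h5] with y g1 g2
    exact ⟨fun _ => g1, fun _ => g2⟩
  · exact ⟨{y | TrOk α β γ δ y}, hok.ev, fun F U p h z hz hzN => lf_tr h c c' hn.1 h1 h2 hz hzN⟩

end Pool.Agent.MQ3

end
end

section

/-!
# MQ3 Avatar: two chart points over the same box: separated, or glued; regular points are respected by the gluing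
-/

set_option autoImplicit false

open Topology Filter Metric MvPolynomial

noncomputable section

namespace Pool.Agent.MQ3

open Pool.Agent.H36.BP (EN fs)
open Pool.Agent.H17BP (Surface)
open Pool.Agent.H17EF (projVar coneE)

variable {M : ℕ} {P : Ideal (MvPolynomial (Fin (M + 1)) ℂ)} {RD : MvPolynomial (Fin (M + 1)) ℂ} {m : ℕ} {X : NCModel P RD} {θ : WDiff (coneE P) m}
  {l : LF M} {S : Web X θ l} {Ra : MvPolynomial (Fin (M + 1)) ℂ}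

/-- properties near `q` and near `Φ q` -/
theorem Gl.push {i : X.ι} {a a' : (S.V i).ι} {Φ Ψ : ℂ × ℂ → ℂ × ℂ} {q : ℂ × ℂ} (h : Gl (S.c ⟨i, a⟩) (S.c ⟨i, a'⟩) Φ Ψ q) {R : ℂ × ℂ → Prop}
    (hR : ∀ᶠ x in 𝓝 q, R x) : ∀ᶠ y in 𝓝 (Φ q), R (Ψ y) := by
  have hq : Ψ (Φ q) = q := h.inv.self_of_nhds
  have ht : Tendsto Ψ (𝓝 (Φ q)) (𝓝 q) := by
    have := h.an'.continuousAt.tendsto
    rwa [hq] at this
  exact ht.eventually hR

/-- the product of the coordinates -/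
theorem fderiv_mul_coord (x w : ℂ × ℂ) : fderiv ℂ (fun y : ℂ × ℂ => y.1 * y.2) x w = x.2 * w.1 + x.1 * w.2 := by
  have h1 : HasFDerivAt (fun y : ℂ × ℂ => y.1 * y.2) (x.1 • ContinuousLinearMap.snd ℂ ℂ ℂ + x.2 • ContinuousLinearMap.fst ℂ ℂ ℂ) x :=
    (hasFDerivAt_fst (p := x)).mul (hasFDerivAt_snd (p := x))
  rw [h1.fderiv]
  simp
  ring

/-- regularity off the curve, with the product of the coordinates -/
theorem regA_iff {k : S.ι} {q : ℂ × ℂ} : RegA S Ra k q ↔ q ∈ S.D k ∧ S.v k q ≠ 0 ∧ q ≠ 0 ∧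
    (q.1 * q.2 = 0 → fderiv ℂ (fun y : ℂ × ℂ => y.1 * y.2) q (S.v k q) ≠ 0 ∨
      ∀ᶠ x in 𝓝 q, x.1 * x.2 = 0 → fderiv ℂ (fun y : ℂ × ℂ => y.1 * y.2) x (S.v k x) = 0) ∧
    ∀ᶠ x in 𝓝 q, x.1 * x.2 ≠ 0 → eval (S.σ k x).ofLp Ra ≠ 0 := by
  constructor
  · intro h
    refine ⟨h.mem, h.v_ne, h.ne, fun h0 => ?_, h.alg⟩
    rcases mul_eq_zero.1 h0 with h1 | h1
    · have h2 : q.2 ≠ 0 := fun h2 => h.ne (Prod.ext h1 h2)
      rcases h.ax₁ h1 with h3 | h3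
      · left
        rw [fderiv_mul_coord, h1, zero_mul, add_zero]
        exact mul_ne_zero h2 h3
      · right
        filter_upwards [h3, continuousAt_snd.eventually_ne h2] with x h4 h5 h6
        have h7 := (mul_eq_zero.1 h6).resolve_right h5
        rw [fderiv_mul_coord, h7, h4 h7]
        ring
    · have h2 : q.1 ≠ 0 := fun h2 => h.ne (Prod.ext h2 h1)
      rcases h.ax₂ h1 with h3 | h3
      · left
        rw [fderiv_mul_coord, h1, zero_mul, zero_add]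
        exact mul_ne_zero h2 h3
      · right
        filter_upwards [h3, continuousAt_fst.eventually_ne h2] with x h4 h5 h6
        have h7 := (mul_eq_zero.1 h6).resolve_left h5
        rw [fderiv_mul_coord, h7, h4 h7]
        ring
  · rintro ⟨h1, h2, h3, h4, h5⟩
    refine ⟨h1, h2, h3, fun h6 => ?_, fun h6 => ?_, h5⟩
    · have h7 : q.2 ≠ 0 := fun h7 => h3 (Prod.ext h6 h7)
      rcases h4 (by rw [h6, zero_mul]) with h8 | h8
      · left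
        rw [fderiv_mul_coord, h6, zero_mul, add_zero] at h8
        exact right_ne_zero_of_mul h8
      · right
        filter_upwards [h8, continuousAt_snd.eventually_ne h7] with x h9 h10 h11
        have h12 := h9 (by rw [h11, zero_mul])
        rw [fderiv_mul_coord, h11, zero_mul, add_zero] at h12
        exact (mul_eq_zero.1 h12).resolve_left h10
    · have h7 : q.1 ≠ 0 := fun h7 => h3 (Prod.ext h7 h6)
      rcases h4 (by rw [h6, mul_zero]) with h8 | h8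
      · left
        rw [fderiv_mul_coord, h6, zero_mul, zero_add] at h8
        exact right_ne_zero_of_mul h8
      · right
        filter_upwards [h8, continuousAt_fst.eventually_ne h7] with x h9 h10 h11
        have h12 := h9 (by rw [h11, mul_zero])
        rw [fderiv_mul_coord, h11, zero_mul, zero_add] at h12
        exact (mul_eq_zero.1 h12).resolve_left h10

section

variable {i : X.ι} {a a' : (S.V i).ι} {Φ Ψ : ℂ × ℂ → ℂ × ℂ} {q : ℂ × ℂ}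

theorem Gl.mem_iff (h : Gl (S.c ⟨i, a⟩) (S.c ⟨i, a'⟩) Φ Ψ q) (hq : q ∈ S.D ⟨i, a⟩) : Φ q ∈ S.D ⟨i, a'⟩ := by
  have h1 : S.κ ⟨i, a'⟩ (Φ q) = S.κ ⟨i, a⟩ q := h.kap.self_of_nhds
  refine ⟨?_, ?_⟩
  · have h2 : S.κ ⟨i, a'⟩ (Φ q) ∈ DD := by
      rw [h1]
      exact hq.1
    exact h2
  · show S.κ ⟨i, a'⟩ (Φ q) ∈ X.B i
    rw [h1]
    exact hq.2

theorem Gl.v_ne (h : Gl (S.c ⟨i, a⟩) (S.c ⟨i, a'⟩) Φ Ψ q) (hq : S.v ⟨i, a⟩ q ≠ 0) : S.v ⟨i, a'⟩ (Φ q) ≠ 0 := by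
  obtain ⟨g, -, hg0, hg'⟩ := h.symm.fld
  have h1 := hg'.self_of_nhds
  rw [h.inv.self_of_nhds] at h1
  intro h2
  have h3 : (S.c ⟨i, a'⟩).v (Φ q) = 0 := h2
  rw [h3, map_zero] at h1
  exact hq ((smul_eq_zero.1 h1.symm).resolve_left hg0)

/-- the derivative of a function along the field, in the other chart: a function `A'` with `A' ∘ Φ = ε A` -/
theorem Gl.dir (h : Gl (S.c ⟨i, a⟩) (S.c ⟨i, a'⟩) Φ Ψ q) {A A' : ℂ × ℂ → ℂ} (hA : AnalyticAt ℂ A q) (hA' : AnalyticAt ℂ A' (Φ q))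
    (hAA : ∃ ε : ℂ × ℂ → ℂ, AnalyticAt ℂ ε q ∧ ε q ≠ 0 ∧ ∀ᶠ y in 𝓝 q, A' (Φ y) = ε y * A y) :
    ∀ᶠ y in 𝓝 q, A y = 0 → (fderiv ℂ A y (S.v ⟨i, a⟩ y) = 0 ↔ fderiv ℂ A' (Φ y) (S.v ⟨i, a'⟩ (Φ y)) = 0) := by
  obtain ⟨ε, he, he0, he'⟩ := hAA
  obtain ⟨g, hg, hg0, hg'⟩ := h.fld
  filter_upwards [hA.eventually_analyticAt, h.an.continuousAt.eventually hA'.eventually_analyticAt, he.eventually_analyticAt,
    he.continuousAt.eventually_ne he0, eventually_eventually_nhds.2 he', hg.continuousAt.eventually_ne hg0, hg', h.an.eventually_analyticAt] with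
      y h1 h2 h3 h4 h5 h6 h7 h8 h9
  have e1 : HasFDerivAt (fun x => A' (Φ x)) ((fderiv ℂ A' (Φ y)).comp (fderiv ℂ Φ y)) y :=
    h2.differentiableAt.hasFDerivAt.comp y h8.differentiableAt.hasFDerivAt
  have e2 : HasFDerivAt (fun x => ε x * A x) (ε y • fderiv ℂ A y + A y • fderiv ℂ ε y) y :=
    h3.differentiableAt.hasFDerivAt.mul h1.differentiableAt.hasFDerivAt
  have e3 : (fderiv ℂ A' (Φ y)).comp (fderiv ℂ Φ y) = ε y • fderiv ℂ A y + A y • fderiv ℂ ε y := by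
    rw [← e1.fderiv, ← e2.fderiv]
    exact Filter.EventuallyEq.fderiv_eq h5
  have e4 : ε y • fderiv ℂ A y + A y • fderiv ℂ ε y = ε y • fderiv ℂ A y := by
    have : A y • fderiv ℂ ε y = 0 := by
      rw [h9]
      exact zero_smul ℂ (fderiv ℂ ε y)
    rw [this, add_zero]
  have e5 : fderiv ℂ A' (Φ y) (fderiv ℂ Φ y (S.v ⟨i, a⟩ y)) = ε y * fderiv ℂ A y (S.v ⟨i, a⟩ y) :=
    congrArg (fun L : ℂ × ℂ →L[ℂ] ℂ => L (S.v ⟨i, a⟩ y)) (e3.trans e4)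
  have e6 : fderiv ℂ Φ y (S.v ⟨i, a⟩ y) = g y • S.v ⟨i, a'⟩ (Φ y) := h7
  rw [e6, map_smul, smul_eq_mul] at e5
  constructor
  · intro h10
    rw [h10, mul_zero] at e5
    exact (mul_eq_zero.1 e5).resolve_left h6
  · intro h10
    rw [h10, mul_zero] at e5
    exact (mul_eq_zero.1 e5.symm).resolve_left h4

theorem Gl.σ_eq (h : Gl (S.c ⟨i, a⟩) (S.c ⟨i, a'⟩) Φ Ψ q) : ∀ᶠ y in 𝓝 q, S.σ ⟨i, a'⟩ (Φ y) = S.σ ⟨i, a⟩ y := by
  filter_upwards [h.kap] with y hy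
  exact congrArg (X.ρ i) hy

theorem Gl.regA (h : Gl (S.c ⟨i, a⟩) (S.c ⟨i, a'⟩) Φ Ψ q) (hq : RegA S Ra ⟨i, a⟩ q) : RegA S Ra ⟨i, a'⟩ (Φ q) := by
  rw [regA_iff] at hq ⊢
  obtain ⟨h1, h2, h3, h4, h5⟩ := hq
  obtain ⟨ε, he, he0, he'⟩ := h.ax
  have hm : ∀ x : ℂ × ℂ, AnalyticAt ℂ (fun y : ℂ × ℂ => y.1 * y.2) x := fun x => analyticAt_fst.fun_mul analyticAt_snd
  have hdir := h.dir (A := fun y => y.1 * y.2) (A' := fun y => y.1 * y.2) (hm _) (hm _) h.ax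
  have hax : ∀ᶠ y in 𝓝 q, (Φ y).1 * (Φ y).2 = 0 ↔ y.1 * y.2 = 0 := by
    filter_upwards [he', he.continuousAt.eventually_ne he0] with y g1 g2
    rw [g1, mul_eq_zero, or_iff_right g2]
  refine ⟨h.mem_iff h1, h.v_ne h2, h.ne.self_of_nhds.1 h3, fun h6 => ?_, ?_⟩
  · have h7 := hax.self_of_nhds.1 h6
    rcases h4 h7 with h8 | h8
    · left
      exact fun h9 => h8 ((hdir.self_of_nhds h7).2 h9)
    · right
      have h9 : ∀ᶠ y in 𝓝 q, (Φ y).1 * (Φ y).2 = 0 → fderiv ℂ (fun y : ℂ × ℂ => y.1 * y.2) (Φ y) (S.v ⟨i, a'⟩ (Φ y)) = 0 := by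
        filter_upwards [h8, hdir, hax] with y g1 g2 g3 g4
        exact (g2 (g3.1 g4)).1 (g1 (g3.1 g4))
      filter_upwards [h.push h9, h.inv'] with y g1 g2
      rwa [g2] at g1
  · have h9 : ∀ᶠ y in 𝓝 q, (Φ y).1 * (Φ y).2 ≠ 0 → eval (S.σ ⟨i, a'⟩ (Φ y)).ofLp Ra ≠ 0 := by
      filter_upwards [h5, hax, h.σ_eq] with y g1 g2 g3 g4
      rw [g3]
      exact g1 fun g5 => g4 (g2.2 g5)
    filter_upwards [h.push h9, h.inv'] with y g1 g2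
    rwa [g2] at g1

theorem Gl.regB (h : Gl (S.c ⟨i, a⟩) (S.c ⟨i, a'⟩) Φ Ψ q) (hq : RegB S Ra ⟨i, a⟩ q) : RegB S Ra ⟨i, a'⟩ (Φ q) := by
  obtain ⟨h1, h2, h3, G, h4, h5, h6, h7, h8⟩ := hq
  have hΨq : Ψ (Φ q) = q := h.inv.self_of_nhds
  have hG' : AnalyticAt ℂ (fun y => G (Ψ y)) (Φ q) := AnalyticAt.comp (g := G) (f := Ψ) (x := Φ q) (by rw [hΨq]; exact h4) h.an'
  obtain ⟨ε, he, he0, he'⟩ := h.ax
  refine ⟨h.mem_iff h1, h.v_ne h2, ?_, fun y => G (Ψ y), hG', ?_, ?_, ?_, ?_⟩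
  · rw [he'.self_of_nhds]
    exact mul_ne_zero he0 h3
  · show G (Ψ (Φ q)) = 0
    rw [hΨq, h5]
  · intro h9
    apply h6
    have h10 : fderiv ℂ (fun y => G (Ψ (Φ y))) q = (fderiv ℂ (fun y => G (Ψ y)) (Φ q)).comp (fderiv ℂ Φ q) :=
      fderiv_comp (𝕜 := ℂ) (g := fun y => G (Ψ y)) (f := Φ) q hG'.differentiableAt h.an.differentiableAt
    rw [h9, ContinuousLinearMap.zero_comp] at h10
    rw [← h10]
    refine (Filter.EventuallyEq.fderiv_eq ?_).symm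
    filter_upwards [h.inv] with y hy
    rw [hy]
  · have h9 : ∀ᶠ y in 𝓝 q, eval (S.σ ⟨i, a'⟩ (Φ y)).ofLp Ra = 0 ↔ G (Ψ (Φ y)) = 0 := by
      filter_upwards [h7, h.σ_eq, h.inv] with y g1 g2 g3
      rw [g2, g3]
      exact g1
    filter_upwards [h.push h9, h.inv'] with y g1 g2
    rwa [g2] at g1
  · have hdir := h.dir (A := G) (A' := fun y => G (Ψ y)) h4 hG' ⟨fun _ => 1, analyticAt_const, one_ne_zero, by
      filter_upwards [h.inv] with y hy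
      show G (Ψ (Φ y)) = 1 * G y
      rw [hy, one_mul]⟩
    rcases h8 with h8 | h8
    · left
      exact fun h9 => h8 ((hdir.self_of_nhds h5).2 h9)
    · right
      have h9 : ∀ᶠ y in 𝓝 q, G (Ψ (Φ y)) = 0 → fderiv ℂ (fun y => G (Ψ y)) (Φ y) (S.v ⟨i, a'⟩ (Φ y)) = 0 := by
        filter_upwards [h8, hdir, h.inv] with y g1 g2 g3 g4
        rw [g3] at g4
        exact (g2 g4).1 (g1 g4)
      filter_upwards [h.push h9, h.inv'] with y g1 g2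
      rwa [g2] at g1

theorem Gl.reg (h : Gl (S.c ⟨i, a⟩) (S.c ⟨i, a'⟩) Φ Ψ q) (hq : Reg S Ra ⟨i, a⟩ q) : Reg S Ra ⟨i, a'⟩ (Φ q) := hq.imp h.regA h.regB

/-- near `q` the regular points correspond -/
theorem Gl.reg_iff (h : Gl (S.c ⟨i, a⟩) (S.c ⟨i, a'⟩) Φ Ψ q) : ∀ᶠ x in 𝓝 q, (Reg S Ra ⟨i, a⟩ x ↔ Reg S Ra ⟨i, a'⟩ (Φ x)) ∧
    (RegA S Ra ⟨i, a⟩ x ↔ RegA S Ra ⟨i, a'⟩ (Φ x)) := by
  filter_upwards [h.ev, h.inv] with x hx hi
  refine ⟨⟨hx.reg, fun h1 => ?_⟩, hx.regA, fun h1 => ?_⟩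
  · have := hx.symm.reg h1
    rwa [hi] at this
  · have := hx.symm.regA h1
    rwa [hi] at this

end

/-- **Avatars**: two chart points over the same box are separated or glued. -/
theorem avatar (i : X.ι) (a a' : (S.V i).ι) {q q' : ℂ × ℂ} (hq : q ∈ S.D ⟨i, a⟩) (hq' : q' ∈ S.D ⟨i, a'⟩) :
    (∃ N ∈ 𝓝 q, ∃ N' ∈ 𝓝 q', ∀ F : ℂ → EN M, WCrv θ RD F → ∀ Y : NCLift X F, ∀ z, z ∈ S.Om Y ⟨i, a⟩ → S.lf Y ⟨i, a⟩ z ∈ N → z ∈ S.Om Y ⟨i, a'⟩ →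
      S.lf Y ⟨i, a'⟩ z ∉ N') ∨
    ∃ Φ : ℂ × ℂ → ℂ × ℂ, AnalyticAt ℂ Φ q ∧ Φ q = q' ∧ (∀ᶠ x in 𝓝 q, S.κ ⟨i, a'⟩ (Φ x) = S.κ ⟨i, a⟩ x ∧ (Reg S Ra ⟨i, a⟩ x ↔ Reg S Ra ⟨i, a'⟩ (Φ x))) ∧
      ∃ N ∈ 𝓝 q, ∀ F : ℂ → EN M, WCrv θ RD F → ∀ Y : NCLift X F, ∀ z ∈ S.Om Y ⟨i, a⟩, S.lf Y ⟨i, a⟩ z ∈ N → z ∈ S.Om Y ⟨i, a'⟩ ∧
        S.lf Y ⟨i, a'⟩ z = Φ (S.lf Y ⟨i, a⟩ z) := by
  by_cases hn : Nbr (S.c ⟨i, a⟩) (S.c ⟨i, a'⟩) q q'
  · right
    have hf : S.c ⟨i, a⟩ = S.c ⟨i, a'⟩ ∨ 0 ≤ dt (S.c ⟨i, a⟩).w' (S.c ⟨i, a'⟩).w ∨ 0 ≤ dt (S.c ⟨i, a'⟩).w' (S.c ⟨i, a⟩).w := by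
      by_cases haa : a = a'
      · left
        rw [haa]
      · right
        exact (S.V i).fan a a' haa hn.1
    obtain ⟨Φ, Ψ, h1, h2, N, hN, h3⟩ := nbr_gl hn hf hq.1 hq'.1
    refine ⟨Φ, h1.an, h2, ?_, N, hN, fun F hF Y z hz hzN => ?_⟩
    · filter_upwards [h1.kap, h1.reg_iff (Ra := Ra)] with x g1 g2
      exact ⟨g1, g2.1⟩
    · exact h3 F (Y.U i) (Y.p i) (bcrv hF Y i) z hz hzN
  · left
    obtain ⟨r, hr, h1⟩ := nbr_sep hn ((S.V i).orb a a')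
    exact ⟨ball q r, ball_mem_nhds q hr, ball q' r, ball_mem_nhds q' hr, fun F hF Y z hz hzN hz' hzN' =>
      h1 F (Y.U i) (Y.p i) (bcrv hF Y i) z hz hz' hzN hzN'⟩

end Pool.Agent.MQ3

end
end

section

/-!
# MQ3 RNe: a form which is not in the ideal does not vanish on a box
-/

set_option autoImplicit false

open Topology Filter Metric MvPolynomial

noncomputable section

namespace Pool.Agent.MQ3

open Pool.Agent.H36.BP (EN)
open Pool.Agent.H14.PP (Tan)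
open Pool.Agent.H17BP (Surface IsChart)
open Pool.Agent.H17EF (projVar coneE)
open Pool.Agent.H62.FC (Homog)
open Pool.Agent.H17LG.Variety (FunField)
open Pool.Agent.H13.SM (conTan)

variable {M : ℕ} {P : Ideal (MvPolynomial (Fin (M + 1)) ℂ)} {RD : MvPolynomial (Fin (M + 1)) ℂ} {m : ℕ}

/-- an analytic map with nonzero Jacobian is open -/
theorem map_nhds_jac {φ : ℂ × ℂ → ℂ × ℂ} {q : ℂ × ℂ} (h : AnalyticAt ℂ φ q)
    (hJ : (fderiv ℂ φ q (1, 0)).1 * (fderiv ℂ φ q (0, 1)).2 - (fderiv ℂ φ q (1, 0)).2 * (fderiv ℂ φ q (0, 1)).1 ≠ 0) : map φ (𝓝 q) = 𝓝 (φ q) := by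
  refine h.hasStrictFDerivAt.map_nhds_eq_of_surj ?_
  rw [LinearMap.range_eq_top]
  intro u
  set A := fderiv ℂ φ q (1, 0) with hA
  set B := fderiv ℂ φ q (0, 1) with hB
  refine ⟨((u.1 * B.2 - u.2 * B.1) / (A.1 * B.2 - A.2 * B.1), (A.1 * u.2 - A.2 * u.1) / (A.1 * B.2 - A.2 * B.1)), ?_⟩
  have h1 : ∀ a b : ℂ, fderiv ℂ φ q (a, b) = a • A + b • B := by
    intro a b
    have h2 : ((a, b) : ℂ × ℂ) = a • ((1 : ℂ), (0 : ℂ)) + b • ((0 : ℂ), (1 : ℂ)) := by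
      ext <;> simp
    rw [h2, map_add, map_smul, map_smul]
  show fderiv ℂ φ q _ = u
  rw [h1]
  ext
  · simp only [Prod.fst_add, Prod.smul_fst, smul_eq_mul]
    rw [div_mul_eq_mul_div, div_mul_eq_mul_div, ← add_div, div_eq_iff hJ]
    ring
  · simp only [Prod.snd_add, Prod.smul_snd, smul_eq_mul]
    rw [div_mul_eq_mul_div, div_mul_eq_mul_div, ← add_div, div_eq_iff hJ]
    ring

/-- the complement of the axes is dense -/
theorem frequently_off (q : ℂ × ℂ) : ∃ᶠ x in 𝓝 q, x.1 * x.2 ≠ 0 := by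
  intro hcon
  have ht : Tendsto (fun t : ℂ => (q.1 + t, q.2 + t)) (𝓝 0) (𝓝 q) := by
    have h4 : Continuous (fun t : ℂ => (q.1 + t, q.2 + t)) := by fun_prop
    have := h4.tendsto 0
    simpa using this
  have h1 : ∀ᶠ t : ℂ in 𝓝 0, (q.1 + t) * (q.2 + t) = 0 := by
    filter_upwards [ht.eventually hcon] with t ht
    exact not_not.1 ht
  have h2 : (fun t : ℂ => (q.1 + t) * (q.2 + t)) = 0 := by
    refine AnalyticOnNhd.eq_of_eventuallyEq (𝕜 := ℂ) (z₀ := (0 : ℂ)) (fun s _ => by fun_prop) (fun s _ => analyticAt_const) h1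
  have h3 := congrFun h2 (1 + ‖q.1‖ + ‖q.2‖ : ℝ)
  simp only [Pi.zero_apply] at h3
  have hne : ∀ a : ℂ, ‖a‖ < 1 + ‖q.1‖ + ‖q.2‖ → a + ((1 + ‖q.1‖ + ‖q.2‖ : ℝ) : ℂ) ≠ 0 := by
    intro a ha h0
    have h5 : a = -((1 + ‖q.1‖ + ‖q.2‖ : ℝ) : ℂ) := eq_neg_of_add_eq_zero_left h0
    rw [h5, norm_neg, Complex.norm_real, Real.norm_of_nonneg (by positivity)] at ha
    exact lt_irrefl _ ha
  rcases mul_eq_zero.1 h3 with h4 | h4
  · exact hne q.1 (by linarith [norm_nonneg q.2]) h4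
  · exact hne q.2 (by linarith [norm_nonneg q.1]) h4

/-- **A form which is not in the ideal does not vanish on a box.** -/
theorem rne_of [P.IsPrime] (hP : Homog P) {z : Fin 2 → FunField P} (hz : IsTranscendenceBasis ℂ z)
    (hsm : ∀ y : Fin (M + 1) → ℂ, y ≠ 0 → (∀ Q ∈ P, eval y Q = 0) → Module.finrank ℂ (conTan P y) ≤ 3) (X : NCModel P RD)
    {Ra : MvPolynomial (Fin (M + 1)) ℂ} {d : ℕ} (hd : Ra.IsHomogeneous d) (hRa : Ra ∉ P) : RNe X Ra := by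
  intro i p hp hcon
  have hX : Surface (coneE P) := Pool.Agent.H90.SG.surface_coneE hP hz hsm
  -- a point off the axes
  obtain ⟨p', h1, h2, h3⟩ := ((frequently_off p).and_eventually ((isOpen_DD.eventually_mem hp).and (eventually_eventually_nhds.2 hcon))).exists
  have hp' : p' ∈ DS := mem_DS.2 ⟨h2, h1⟩
  have hρ := (X.box i).an' hp'
  have hmem := (X.box i).mem' hp'
  obtain ⟨σ, τ, hσ, hσ0⟩ := hX.chart (X.ρ i p') hmem.self_of_nhds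
  have hτ0 : τ (X.ρ i p') = 0 := by
    rw [← hσ0]
    exact hσ.left.self_of_nhds
  have hτa : AnalyticAt ℂ τ (X.ρ i p') := by
    rw [← hσ0]
    exact hσ.τ_an
  have hφa : AnalyticAt ℂ (fun x => τ (X.ρ i x)) p' := AnalyticAt.fun_comp (g := τ) hτa hρ
  have hφd : ∀ w, fderiv ℂ (fun x => τ (X.ρ i x)) p' w = fderiv ℂ τ (X.ρ i p') (fderiv ℂ (X.ρ i) p' w) := by
    intro w
    have h4 : HasFDerivAt (fun x => τ (X.ρ i x)) ((fderiv ℂ τ (X.ρ i p')).comp (fderiv ℂ (X.ρ i) p')) p' :=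
      HasFDerivAt.comp p' (g := τ) (f := X.ρ i) hτa.differentiableAt.hasFDerivAt hρ.differentiableAt.hasFDerivAt
    rw [h4.fderiv]
    rfl
  -- the differential of `τ`
  have hτσ : ∀ u, fderiv ℂ τ (σ 0) (fderiv ℂ σ 0 u) = u := by
    intro u
    have h4 : HasFDerivAt (fun x => τ (σ x)) ((fderiv ℂ τ (σ 0)).comp (fderiv ℂ σ 0)) 0 :=
      HasFDerivAt.comp (0 : ℂ × ℂ) (g := τ) (f := σ) hσ.τ_an.differentiableAt.hasFDerivAt hσ.σ_an.differentiableAt.hasFDerivAt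
    have h5 : HasFDerivAt (fun x => τ (σ x)) (ContinuousLinearMap.id ℂ (ℂ × ℂ)) 0 := (hasFDerivAt_id (0 : ℂ × ℂ)).congr_of_eventuallyEq hσ.left
    have h6 := congrArg (fun L : ℂ × ℂ →L[ℂ] ℂ × ℂ => L u) (h4.unique h5)
    simpa using h6
  have hτr : fderiv ℂ τ (σ 0) (σ 0) = 0 := by
    have h4 : HasDerivAt (fun c : ℂ => c • σ 0) (σ 0) 1 := by
      have := (hasDerivAt_id (1 : ℂ)).smul_const (σ 0)
      simpa using this
    have h5 : HasFDerivAt τ (fderiv ℂ τ (σ 0)) ((1 : ℂ) • σ 0) := by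
      rw [one_smul]
      exact hσ.τ_an.differentiableAt.hasFDerivAt
    have h6 : HasDerivAt (fun c : ℂ => τ (c • σ 0)) (fderiv ℂ τ (σ 0) (σ 0)) 1 := HasFDerivAt.comp_hasDerivAt (1 : ℂ) h5 h4
    have ht : Tendsto (fun c : ℂ => ((σ 0, c) : EN M × ℂ)) (𝓝 1) (𝓝 (σ 0, 1)) := by
      have h : Continuous fun c : ℂ => ((σ 0, c) : EN M × ℂ) := by fun_prop
      exact h.tendsto 1
    have h7 : (fun c : ℂ => τ (c • σ 0)) =ᶠ[𝓝 1] fun _ => τ (σ 0) := ht.eventually hσ.inv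
    have h8 := h6.deriv
    rw [h7.deriv_eq, deriv_const] at h8
    exact h8.symm
  have hnh : map (fun x => τ (X.ρ i x)) (𝓝 p') = 𝓝 (τ (X.ρ i p')) := by
    refine hφa.hasStrictFDerivAt.map_nhds_eq_of_surj ?_
    rw [LinearMap.range_eq_top]
    intro u
    have h4 : Tan (coneE P) (X.ρ i p') (fderiv ℂ σ 0 u) := by
      rw [← hσ0]
      exact Pool.Agent.E1.ResL_tan hσ.σ_an hσ.σ_mem u
    obtain ⟨w, a, hw⟩ := (X.box i).span hX hp' _ h4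
    refine ⟨w, ?_⟩
    show fderiv ℂ (fun x => τ (X.ρ i x)) p' w = u
    rw [hφd, ← hσ0]
    have h5 : fderiv ℂ (X.ρ i) p' w = fderiv ℂ σ 0 u - a • σ 0 := by
      rw [hw, hσ0, add_sub_cancel_right]
    rw [h5, map_sub, map_smul, hτσ, hτr, smul_zero, sub_zero]
  rw [hτ0] at hnh
  -- contradiction
  have hthin := Pool.Agent.H90.SG.thin_coneE hP hz hsm hd hRa hσ
  rw [← hnh, frequently_map] at hthin
  have hright : ∀ᶠ x in 𝓝 p', ∃ c : ℂ, c ≠ 0 ∧ X.ρ i x = c • σ (τ (X.ρ i x)) := by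
    have h4 : Tendsto (X.ρ i) (𝓝 p') (𝓝 (σ 0)) := by
      rw [hσ0]
      exact hρ.continuousAt.tendsto
    filter_upwards [h4.eventually hσ.right, hmem] with x x1 x2
    exact x1 x2
  obtain ⟨x, x1, x2, c, hc, x3⟩ := (hthin.and_eventually (h3.and hright)).exists
  apply x1
  have h9 : eval (X.ρ i x).ofLp Ra = 0 := not_not.1 x2
  rw [x3] at h9
  have h10 : (c • σ (τ (X.ρ i x))).ofLp = c • (σ (τ (X.ρ i x))).ofLp := rfl
  rw [h10, Pool.Agent.H17EF.eval_smul_form hd] at h9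
  exact (mul_eq_zero.1 h9).resolve_left (pow_ne_zero _ hc)

end Pool.Agent.MQ3

end
end

section

/-!
# MQ3 RegOff: the chart points which are not regular are isolated
-/

set_option autoImplicit false

open Topology Filter Metric MvPolynomial

noncomputable section

namespace Pool.Agent.MQ3

open Pool.Agent.H36.BP (EN)
open Pool.Agent.H17BP (Surface)
open Pool.Agent.H17EF (projVar coneE)

variable {M : ℕ} {P : Ideal (MvPolynomial (Fin (M + 1)) ℂ)} {RD : MvPolynomial (Fin (M + 1)) ℂ} {m : ℕ} {X : NCModel P RD} {θ : WDiff (coneE P) m}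
  {l : LF M} {S : Web X θ l} {Ra : MvPolynomial (Fin (M + 1)) ℂ}

theorem web_D_open (k : S.ι) : IsOpen (S.D k) := by
  have h1 : IsOpen ((S.c k).D) := isOpen_Dm
  have h2 : Continuous (S.κ k) := continuous_iff_continuousAt.2 fun q => (analyticAt_mono (w := (S.c k).w) (w' := (S.c k).w') q).continuousAt
  exact h1.inter ((X.isOpen k.1).preimage h2)

/-- `Ra` is not identically zero near any point of a chart -/
theorem web_rne (hRa : RNe X Ra) (k : S.ι) {q : ℂ × ℂ} (hq : q ∈ S.D k) : ∃ᶠ x in 𝓝 q, eval (S.σ k x).ofLp Ra ≠ 0 := by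
  intro hcon
  obtain ⟨q', h1, h2, h3⟩ := ((frequently_off q).and_eventually (((web_D_open k).eventually_mem hq).and (eventually_eventually_nhds.2 hcon))).exists
  have hκ : AnalyticAt ℂ (S.κ k) q' := analyticAt_mono (w := (S.c k).w) (w' := (S.c k).w') q'
  have hJ := map_nhds_jac hκ (jac_mono_ne (ne_of_gt (S.c k).pos) h1)
  refine hRa k.1 (S.κ k q') (X.sub k.1 h2.2) ?_
  rw [← hJ, eventually_map]
  filter_upwards [h3] with x hx using hx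

theorem reg_off {d dR : ℕ} (hd : RD.IsHomogeneous d) (hdR : Ra.IsHomogeneous dR) (hRa : RNe X Ra) (k : S.ι) : ∀ q ∈ S.D k, ∀ᶠ x in 𝓝[≠] q, Reg S Ra k x := by
  intro q hq
  have _ := hd
  have _ := hdR
  have hqD : q ∈ (S.c k).D := hq.1
  have hκ : AnalyticAt ℂ (S.κ k) q := analyticAt_mono (w := (S.c k).w) (w' := (S.c k).w') q
  have hp : S.κ k q ∈ DD := X.sub k.1 hq.2
  have hσ : AnalyticAt ℂ (S.σ k) q := AnalyticAt.fun_comp (g := X.ρ k.1) (f := S.κ k) ((X.box k.1).an _ (le_of_lt hp.1) (le_of_lt hp.2)) hκ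
  have hf : AnalyticAt ℂ (fun x => eval (S.σ k x).ofLp Ra) q := analyticAt_evalE hσ Ra
  have hmem : ∀ᶠ x in 𝓝[≠] q, x ∈ S.D k := ((web_D_open k).eventually_mem hq).filter_mono nhdsWithin_le_nhds
  filter_upwards [lreg_off ((S.c k).v_an q hqD) ((S.c k).v_iso q hqD) hf (web_rne hRa k hq), hmem] with x hx hxD
  rcases hx with ⟨a1, a2, a3, a4, a5⟩ | ⟨b1, b2, b3⟩
  · exact Or.inl ⟨hxD, a1, a2, a3, a4, a5⟩
  · exact Or.inr ⟨hxD, b1, b2, b3⟩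

end Pool.Agent.MQ3

end
end

section

/-!
# MQ3 RegO: the regular chart points form an open set
-/

set_option autoImplicit false

open Topology Filter Metric MvPolynomial

noncomputable section

namespace Pool.Agent.MQ3

open Pool.Agent.H36.BP (EN)
open Pool.Agent.H17BP (Surface)
open Pool.Agent.H17EF (projVar coneE)

variable {M : ℕ} {P : Ideal (MvPolynomial (Fin (M + 1)) ℂ)} {RD : MvPolynomial (Fin (M + 1)) ℂ} {m : ℕ} {X : NCModel P RD} {θ : WDiff (coneE P) m}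
  {l : LF M} {S : Web X θ l} {Ra : MvPolynomial (Fin (M + 1)) ℂ}

theorem web_v_cont {k : S.ι} {q : ℂ × ℂ} (hq : q ∈ S.D k) : ContinuousAt (S.v k) q := ((S.c k).v_an q hq.1).continuousAt

theorem regA_open {k : S.ι} {q : ℂ × ℂ} (h : RegA S Ra k q) : ∀ᶠ x in 𝓝 q, RegA S Ra k x := by
  have hv : ContinuousAt (S.v k) q := web_v_cont h.mem
  have h1 : ∀ᶠ x in 𝓝 q, x ∈ S.D k := (web_D_open k).eventually_mem h.mem
  have h2 : ∀ᶠ x in 𝓝 q, S.v k x ≠ 0 := hv.eventually_ne h.v_ne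
  have h3 : ∀ᶠ x in 𝓝 q, x ≠ 0 := continuousAt_id.eventually_ne h.ne
  have h4 : ∀ᶠ x in 𝓝 q, x.1 = 0 → (S.v k x).1 ≠ 0 ∨ ∀ᶠ y in 𝓝 x, y.1 = 0 → (S.v k y).1 = 0 := by
    by_cases hq : q.1 = 0
    · rcases h.ax₁ hq with g | g
      · filter_upwards [hv.fst.eventually_ne g] with x hx _ using Or.inl hx
      · filter_upwards [eventually_eventually_nhds.2 g] with x hx _ using Or.inr hx
    · filter_upwards [continuousAt_fst.eventually_ne hq] with x hx hx' using absurd hx' hx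
  have h5 : ∀ᶠ x in 𝓝 q, x.2 = 0 → (S.v k x).2 ≠ 0 ∨ ∀ᶠ y in 𝓝 x, y.2 = 0 → (S.v k y).2 = 0 := by
    by_cases hq : q.2 = 0
    · rcases h.ax₂ hq with g | g
      · filter_upwards [hv.snd.eventually_ne g] with x hx _ using Or.inl hx
      · filter_upwards [eventually_eventually_nhds.2 g] with x hx _ using Or.inr hx
    · filter_upwards [continuousAt_snd.eventually_ne hq] with x hx hx' using absurd hx' hx
  filter_upwards [h1, h2, h3, h4, h5, eventually_eventually_nhds.2 h.alg] with x a1 a2 a3 a4 a5 a6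
  exact ⟨a1, a2, a3, a4, a5, a6⟩

theorem reg_open {k : S.ι} {q : ℂ × ℂ} (h : Reg S Ra k q) : ∀ᶠ x in 𝓝 q, Reg S Ra k x := by
  rcases h with h | h
  · filter_upwards [regA_open h] with x hx using Or.inl hx
  obtain ⟨G, hG, hG0, hG1, hG2, hG3⟩ := h.crv
  have hv : ContinuousAt (S.v k) q := web_v_cont h.mem
  have hdG : ContinuousAt (fderiv ℂ G) q := hG.fderiv.continuousAt
  have h1 : ∀ᶠ x in 𝓝 q, x ∈ S.D k := (web_D_open k).eventually_mem h.mem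
  have h2 : ∀ᶠ x in 𝓝 q, S.v k x ≠ 0 := hv.eventually_ne h.v_ne
  have hmul : ContinuousAt (fun x : ℂ × ℂ => x.1 * x.2) q := by fun_prop
  have h3 : ∀ᶠ x in 𝓝 q, x.1 * x.2 ≠ 0 := hmul.eventually_ne h.ne
  have h4 : ∀ᶠ x in 𝓝 q, fderiv ℂ G x ≠ 0 := hdG.eventually_ne hG1
  have h5 : ∀ᶠ x in 𝓝 q, (fderiv ℂ G x (S.v k x) ≠ 0 ∨ ∀ᶠ y in 𝓝 x, G y = 0 → fderiv ℂ G y (S.v k y) = 0) := by
    rcases hG3 with g | g
    · filter_upwards [(hdG.clm_apply hv).eventually_ne g] with x hx using Or.inl hx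
    · filter_upwards [eventually_eventually_nhds.2 g] with x hx using Or.inr hx
  filter_upwards [h1, h2, h3, h4, h5, hG.eventually_analyticAt, eventually_eventually_nhds.2 hG2] with x a1 a2 a3 a4 a5 a6 a7
  have b1 : x.1 ≠ 0 := left_ne_zero_of_mul a3
  have b2 : x.2 ≠ 0 := right_ne_zero_of_mul a3
  by_cases hx : G x = 0
  · exact Or.inr ⟨a1, a2, a3, G, a6, hx, a4, a7, a5⟩
  · refine Or.inl ⟨a1, a2, fun e => b1 (by rw [e]; rfl), fun e => absurd e b1, fun e => absurd e b2, ?_⟩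
    filter_upwards [a7, a6.continuousAt.eventually_ne hx] with y c1 c2 _ c3 using c2 (c1.1 c3)

end Pool.Agent.MQ3

end
end

section

/-!
# MQ3 Cov: the cover
-/

set_option autoImplicit false

open Topology Filter Metric MvPolynomial MeasureTheory Laplacian

noncomputable section

namespace Pool.Agent.MQ3

open Pool.Agent.H36.BP (EN fs)
open Pool.Agent.H17EF (projVar coneE)

variable {M : ℕ} {P : Ideal (MvPolynomial (Fin (M + 1)) ℂ)} {RD : MvPolynomial (Fin (M + 1)) ℂ} {m : ℕ} {X : NCModel P RD} {θ : WDiff (coneE P) m}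
  {l : LF M} {Ra : MvPolynomial (Fin (M + 1)) ℂ}

theorem exists_cov {d dR : ℕ} (hd : RD.IsHomogeneous d) (hdR : Ra.IsHomogeneous dR) (hRa : RNe X Ra) (S : Web X θ l) (r₀ : S.ι → ℂ × ℂ → ℝ)
    (h₀ : ∀ k, ∀ q ∈ S.D k, 0 < r₀ k q) : ∃ C : Cov S Ra, ∀ j, C.r j ≤ r₀ (C.ck j) (C.Q j) := by
  refine exists_cov_aux ⟨fun F hF Y k z hz => ⟨Om_sub hF Y k hz, (lfN_mem hF Y k z hz).2⟩, fun F hF Y i z hz => lfN_cover hF Y i z hz⟩
    (reg_off hd hdR hRa) (fun i a a' q q' hq hq' => ?_) (fun k q hq h0 => ?_) (fun k q h => regA_open h) (fun k q h => reg_open h)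
    (fun k q h => locU_of_fib h (fib_iso h.mem h.ne)) r₀ h₀
  · rcases avatar (Ra := Ra) i a a' hq hq' with h | ⟨Φ, h1, h2, -, h3⟩
    · exact Or.inl h
    · exact Or.inr ⟨Φ, h1, h2, h3⟩
  · obtain ⟨ψ, -, h1, -, h2⟩ := fib_iso hq h0
    filter_upwards [h2] with x hx hxq
    rw [← hx, hxq, h1]

end Pool.Agent.MQ3

end
end
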