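import Pool.Agent.H43.TL2.M101
import Pool.Agent.H43.TL2.M129
import Pool.Agent.H43.TL2.M132
import Pool.Agent.H43.TL2.M88

/-! The parts of this file: MQK.FamL, MQK.FinL, MQL.PBe. -/

section

/-!
# MQK FamL: the packages of all chart points

Zeros of the vector field: `goodD_of_iso`; regular points outside `Reg0`: `goodD_reg`; the points of `Reg0`: `goodC_reg0`, without formal curves.
-/

set_option autoImplicit false

open Topology Filter Metric MvPolynomial MeasureTheory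

noncomputable section

namespace Pool.Agent.MQK

open Pool.Agent.MQL

open Pool.Agent.H36.BP (EN)
open Pool.Agent.H17BP (Surface)
open Pool.Agent.H17EF (coneE)
open Pool.Agent.MQ2 (Iso Sep FZero)
open Pool.Agent.MQ3

variable {M : ℕ}

private theorem inv_gt {mK : ℕ} (hm : 1 ≤ mK) : (-1 : ℝ) < (mK : ℝ)⁻¹ - 1 := by
  have h1 : (0 : ℝ) < (mK : ℝ)⁻¹ := inv_pos.2 (by exact_mod_cast hm)
  linarith

theorem exX_gt {Ko : Set (EN M)} {mK : ℕ} (hm : 1 ≤ mK) (φ : ℂ × ℂ → EN M) (q : ℂ × ℂ) : -1 < exX Ko mK φ q := by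
  unfold exX
  split_ifs
  · exact inv_gt hm
  · norm_num

theorem exY_gt {Ko : Set (EN M)} {mK : ℕ} (hm : 1 ≤ mK) (φ : ℂ × ℂ → EN M) (q : ℂ × ℂ) : -1 < exY Ko mK φ q := by
  unfold exY
  split_ifs
  · exact inv_gt hm
  · norm_num

theorem exX_neg {Ko : Set (EN M)} {mK : ℕ} {φ : ℂ × ℂ → EN M} {q : ℂ × ℂ} (h : exX Ko mK φ q < 0) :
    ∀ᶠ t in 𝓝 (0 : ℂ), φ (q.1, q.2 + t) ∉ Ko := by
  by_contra h1
  rw [exX, if_neg h1] at h
  exact lt_irrefl _ h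

theorem exY_neg {Ko : Set (EN M)} {mK : ℕ} {φ : ℂ × ℂ → EN M} {q : ℂ × ℂ} (h : exY Ko mK φ q < 0) :
    ∀ᶠ t in 𝓝 (0 : ℂ), φ (q.1 + t, q.2) ∉ Ko := by
  by_contra h1
  rw [exY, if_neg h1] at h
  exact lt_irrefl _ h

variable {P : Ideal (MvPolynomial (Fin (M + 1)) ℂ)} {RD : MvPolynomial (Fin (M + 1)) ℂ} {Ko : Set (EN M)} {m : ℕ} {X : NCModel P RD} {θ : WDiff (coneE P) m} {l : LF M}
  {mK : ℕ}

/-- a line through `q` which lies in the boundary is an axis -/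
theorem axX_of (hD : DivB P RD Ko) {S : Web X θ l} {k : S.ι} {q : ℂ × ℂ} (hq : q ∈ S.D k) (h : exX Ko mK (S.σ k) q < 0) : q.1 = 0 := by
  have h1 := exX_neg h
  have hc : Tendsto (fun t : ℂ => (q.1, q.2 + t)) (𝓝 0) (𝓝 q) := by
    have : Continuous fun t : ℂ => (q.1, q.2 + t) := by fun_prop
    simpa using this.tendsto 0
  have h2 : ∀ᶠ t in 𝓝 (0 : ℂ), (q.1, q.2 + t) ∈ S.D k := hc.eventually ((D_open k).mem_nhds hq)
  have h3 : ∀ᶠ t in 𝓝[≠] (0 : ℂ), q.2 + t ≠ 0 := by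
    by_cases h4 : q.2 = 0
    · filter_upwards [self_mem_nhdsWithin] with t ht
      rw [h4, zero_add]
      exact ht
    · have h5 : Tendsto (fun t : ℂ => q.2 + t) (𝓝 0) (𝓝 q.2) := by
        have : Continuous fun t : ℂ => q.2 + t := by fun_prop
        simpa using this.tendsto 0
      exact (h5.eventually_ne h4).filter_mono nhdsWithin_le_nhds
  obtain ⟨t, h4, h5, h6⟩ := ((h1.filter_mono nhdsWithin_le_nhds).and ((h2.filter_mono nhdsWithin_le_nhds).and h3)).exists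
  have h7 := (zero_iff k _ h5).1 (hD.le _ (σ_an k _ h5).2 h4)
  exact (mul_eq_zero.1 h7).resolve_right h6

/-- a line through `q` which lies in the boundary is an axis -/
theorem axY_of (hD : DivB P RD Ko) {S : Web X θ l} {k : S.ι} {q : ℂ × ℂ} (hq : q ∈ S.D k) (h : exY Ko mK (S.σ k) q < 0) : q.2 = 0 := by
  have h1 := exY_neg h
  have hc : Tendsto (fun t : ℂ => (q.1 + t, q.2)) (𝓝 0) (𝓝 q) := by
    have : Continuous fun t : ℂ => (q.1 + t, q.2) := by fun_prop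
    simpa using this.tendsto 0
  have h2 : ∀ᶠ t in 𝓝 (0 : ℂ), (q.1 + t, q.2) ∈ S.D k := hc.eventually ((D_open k).mem_nhds hq)
  have h3 : ∀ᶠ t in 𝓝[≠] (0 : ℂ), q.1 + t ≠ 0 := by
    by_cases h4 : q.1 = 0
    · filter_upwards [self_mem_nhdsWithin] with t ht
      rw [h4, zero_add]
      exact ht
    · have h5 : Tendsto (fun t : ℂ => q.1 + t) (𝓝 0) (𝓝 q.1) := by
        have : Continuous fun t : ℂ => q.1 + t := by fun_prop
        simpa using this.tendsto 0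
      exact (h5.eventually_ne h4).filter_mono nhdsWithin_le_nhds
  obtain ⟨t, h4, h5, h6⟩ := ((h1.filter_mono nhdsWithin_le_nhds).and ((h2.filter_mono nhdsWithin_le_nhds).and h3)).exists
  have h7 := (zero_iff k _ h5).1 (hD.le _ (σ_an k _ h5).2 h4)
  exact (mul_eq_zero.1 h7).resolve_left h6

theorem goodC_of_goodD {al be : ℝ} {v : ℂ × ℂ → ℂ × ℂ} (h : GoodD GT al be v) :
    ∃ (n : ℕ) (c : Fin n → ℕ → ℂ → ℂ × ℂ), (∀ i, Sep v (c i)) ∧ GoodC c al be v := by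
  obtain ⟨n, c, hc, h1⟩ := h
  exact ⟨n, c, hc, fun g hw ha => h1 g trivial hw ha⟩

/-- the package of one chart point -/
theorem exists_fam_pt (hD : DivB P RD Ko) (S : Web X θ l) (hm : 1 ≤ mK) (k : S.ι) (q : ℂ × ℂ) (hq : q ∈ S.D k) :
    ∃ (n : ℕ) (c : Fin n → ℕ → ℂ → ℂ × ℂ), (∀ i, Sep (fun x => S.v k (q + x)) (c i)) ∧ (Reg0 S k q → n = 0) ∧
      GoodC c (exX Ko mK (S.σ k) q) (exY Ko mK (S.σ k) q) fun x => S.v k (q + x) := by
  have hv : AnalyticAt ℂ (fun x => S.v k (q + x)) 0 := by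
    have h1 : AnalyticAt ℂ (fun x : ℂ × ℂ => q + x) 0 := analyticAt_const.add analyticAt_id
    have h2 : AnalyticAt ℂ (S.v k) (q + 0) := by
      rw [add_zero]
      exact v_an k q hq
    exact AnalyticAt.fun_comp (g := S.v k) (f := fun x : ℂ × ℂ => q + x) h2 h1
  have hv0 : S.v k (q + 0) = S.v k q := by rw [add_zero]
  by_cases hR : Reg0 S k q
  · refine ⟨0, fun i => i.elim0, fun i => i.elim0, fun _ => rfl, ?_⟩
    refine goodC_reg0 (exX_gt hm _ _) (exY_gt hm _ _) ?_ hv (by rw [hv0]; exact hR.v_ne) ?_ ?_ _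
    · by_contra h
      push Not at h
      exact hR.ne (Prod.ext (axX_of hD hq h.1) (axY_of hD hq h.2))
    · intro h
      have h0 := axX_of hD hq h
      rw [hv0]
      rcases hR.ax₁ h0 with h1 | h1
      · exact Or.inl h1
      · right
        have hc : Tendsto (fun t : ℂ => q + ((0 : ℂ), t)) (𝓝 0) (𝓝 q) := by
          have h2 : Continuous fun t : ℂ => q + ((0 : ℂ), t) := by fun_prop
          have h3 := h2.tendsto 0
          rwa [show q + ((0 : ℂ), (0 : ℂ)) = q from add_zero q] at h3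
        filter_upwards [hc.eventually h1] with t ht
        exact ht (by simp [h0])
    · intro h
      have h0 := axY_of hD hq h
      rw [hv0]
      rcases hR.ax₂ h0 with h1 | h1
      · exact Or.inl h1
      · right
        have hc : Tendsto (fun t : ℂ => q + (t, (0 : ℂ))) (𝓝 0) (𝓝 q) := by
          have h2 : Continuous fun t : ℂ => q + (t, (0 : ℂ)) := by fun_prop
          have h3 := h2.tendsto 0
          rwa [show q + ((0 : ℂ), (0 : ℂ)) = q from add_zero q] at h3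
        filter_upwards [hc.eventually h1] with t ht
        exact ht (by simp [h0])
  · have key : GoodD GT (exX Ko mK (S.σ k) q) (exY Ko mK (S.σ k) q) fun x => S.v k (q + x) := by
      by_cases h0 : S.v k q = 0
      · refine goodD_of_iso (exX_gt hm _ _) (exY_gt hm _ _) ⟨hv, hv0.trans h0, ?_⟩
        have h1 := v_iso k q hq
        rw [eventually_nhdsWithin_iff] at h1
        have hc : Tendsto (fun x : ℂ × ℂ => q + x) (𝓝 0) (𝓝 q) := by
          have : Continuous fun x : ℂ × ℂ => q + x := by fun_prop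
          simpa using this.tendsto 0
        filter_upwards [hc.eventually h1] with x hx hx0
        exact hx (by simpa using hx0)
      · exact goodD_reg (exX_gt hm _ _) (exY_gt hm _ _) hv (by rw [hv0]; exact h0)
    obtain ⟨n, c, h1, h2⟩ := goodC_of_goodD key
    exact ⟨n, c, h1, fun h => absurd h hR, h2⟩

/-- the packages of all chart points -/
theorem exists_fam (hX : Surface (coneE P)) (hD : DivB P RD Ko) (S : Web X θ l) (hm : 1 ≤ mK) :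
    ∃ (n : S.ι → ℂ × ℂ → ℕ) (fam : ∀ (k : S.ι) (q : ℂ × ℂ), Fin (n k q) → ℕ → ℂ → ℂ × ℂ),
      (∀ k, ∀ q ∈ S.D k, ∀ i, Sep (fun x => S.v k (q + x)) (fam k q i)) ∧ (∀ k, ∀ q ∈ S.D k, Reg0 S k q → n k q = 0) ∧
      ∀ k, ∀ q ∈ S.D k, GoodC (fam k q) (exX Ko mK (S.σ k) q) (exY Ko mK (S.σ k) q) fun x => S.v k (q + x) := by
  classical
  have key : ∀ (k : S.ι) (q : ℂ × ℂ), ∃ (n : ℕ) (c : Fin n → ℕ → ℂ → ℂ × ℂ), q ∈ S.D k → (∀ i, Sep (fun x => S.v k (q + x)) (c i)) ∧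
      (Reg0 S k q → n = 0) ∧ GoodC c (exX Ko mK (S.σ k) q) (exY Ko mK (S.σ k) q) fun x => S.v k (q + x) := by
    intro k q
    by_cases hq : q ∈ S.D k
    · obtain ⟨n, c, h⟩ := exists_fam_pt (mK := mK) hD S hm k q hq
      exact ⟨n, c, fun _ => h⟩
    · exact ⟨0, fun i => i.elim0, fun h => absurd h hq⟩
  choose n fam h using key
  exact ⟨n, fam, fun k q hq => (h k q hq).1, fun k q hq => (h k q hq).2.1, fun k q hq => (h k q hq).2.2⟩

end Pool.Agent.MQK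

end
end

section

/-!
# MQK FinL: the entire curves of order two which avoid `D` and are null for a logarithmic symmetric differential lie in one algebraic curve
-/

set_option autoImplicit false

open Topology Filter Metric MvPolynomial Asymptotics MeasureTheory Laplacian

noncomputable section

namespace Pool.Agent.MQK

open Pool.Agent.MQL

open Pool.Agent.H36.BP (EN fs)
open Pool.Agent.H14.PP (Tan)
open Pool.Agent.H17BP (Surface IsForm)
open Pool.Agent.H17EF (projVar coneE)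
open Pool.Agent.H30M (tau avg LogSing tau_nonneg)
open Pool.Agent.H62.FC (Homog)
open Pool.Agent.H17LG.Variety (FunField IsLogGeneralType)
open Pool.Agent.MQ (lam En ztv dvg DDv gr dv Pack false_of_pack sieg)
open Pool.Agent.MQ2 (Iso Wt Sep FZero HasOrd LocX Dat hasOrd_of)
open Pool.Agent.MQ3

/-! ## the packages -/

/-- the package is monotone in the constants -/
private theorem locX_monoL {v : ℂ × ℂ → ℂ × ℂ} {g J : ℂ × ℂ → ℂ} {Om : Set ℂ} {p : ℂ → ℂ × ℂ} {lm : ℂ → ℝ} {s A A' δ δ' : ℝ} (h : LocX v g J Om p lm s A δ)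
    (hA : A ≤ A') (hδ : δ ≤ δ') : LocX v g J Om p lm s A' δ' := by
  obtain ⟨C, l, η, Φ, err, h0, h1, h2, h3, h4, h5, h6, h7, h8, h9, h10, h11⟩ := h
  have hI : ∀ R, 1 ≤ R → 0 ≤ ∫ z, tau R z * lm z ^ 2 := fun R hR => integral_nonneg fun z => mul_nonneg (tau_nonneg hR z) (sq_nonneg _)
  refine ⟨C, l, η, Φ, err, h0, h1, h2, fun R hR => (h3 R hR).trans ?_, h4, h5, h6, h7, h8, h9, h10, fun R hR => (h11 R hR).trans ?_⟩
  · have := mul_le_mul_of_nonneg_right hA (hI R hR)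
    linarith
  · have := mul_le_mul_of_nonneg_right hδ (hI R hR)
    linarith

/-- the package for one radius `r` -/
def GrL {n₀ : ℕ} (c : Fin n₀ → ℕ → ℂ → ℂ × ℂ) (al be : ℝ) (v : ℂ × ℂ → ℂ × ℂ) (g : ℂ × ℂ → ℂ) (r : ℝ) : Prop :=
  ∀ s s', 0 < s → s < s' → s' < r → ∀ B, 0 ≤ B → ∃ A C₀ : ℝ, 0 ≤ A ∧ 0 ≤ C₀ ∧
    ∀ (d n : ℕ) (q : ℂ × ℂ → ℂ) (ψ : ℂ × ℂ → ℝ), 1 ≤ d → 1 ≤ n → AnalyticAt ℂ q 0 → ContDiffAt ℝ 1 ψ 0 →
      (∀ i, FZero (c i) g ∨ HasOrd (c i) q n) →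
      ∀ (M : ℕ) (F : ℂ → EN M) (Q : ℂ → ℂ) (lm : ℂ → ℝ) (Om : Set ℂ) (p : ℂ → ℂ × ℂ), Dat v g r B d q ψ F Q lm Om p → Avoid al be Om p →
        LocX v g (JD al be) {z | z ∈ Om ∧ p z ∈ ball (0 : ℂ × ℂ) s'} p lm s A (C₀ * d / n)

variable {M : ℕ} {P : Ideal (MvPolynomial (Fin (M + 1)) ℂ)} {m : ℕ} {mK : ℕ} {Wf : EN M → EN M → EN M → ℂ}

theorem exX_le (Ko : Set (EN M)) (hm : 1 ≤ mK) (φ : ℂ × ℂ → EN M) (q : ℂ × ℂ) : exX Ko mK φ q ≤ 0 := by
  unfold exX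
  split_ifs
  · have h1 : (1 : ℝ) ≤ mK := by exact_mod_cast hm
    have := inv_le_one_of_one_le₀ h1
    linarith
  · exact le_rfl

theorem exY_le (Ko : Set (EN M)) (hm : 1 ≤ mK) (φ : ℂ × ℂ → EN M) (q : ℂ × ℂ) : exY Ko mK φ q ≤ 0 := by
  unfold exY
  split_ifs
  · have h1 : (1 : ℝ) ≤ mK := by exact_mod_cast hm
    have := inv_le_one_of_one_le₀ h1
    linarith
  · exact le_rfl

/-- the Jacobian factor does not vanish along a curve which avoids the axes with a negative exponent -/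
theorem JD_ne {al be : ℝ} (hal : al ≤ 0) (hbe : be ≤ 0) {Om : Set ℂ} {p : ℂ → ℂ × ℂ} (h : Avoid al be Om p) {z : ℂ} (hz : z ∈ Om) : JD al be (p z) ≠ 0 := by
  unfold JD
  rw [Complex.ofReal_ne_zero]
  have key : ∀ {a : ℝ} {x : ℂ}, a ≤ 0 → (a < 0 → x ≠ 0) → ‖x‖ ^ a ≠ 0 := by
    intro a x ha hx
    rcases ha.eq_or_lt with h0 | h0
    · rw [h0, Real.rpow_zero]
      exact one_ne_zero
    · exact (Real.rpow_pos_of_pos (norm_pos_iff.2 (hx h0)) a).ne'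
  exact mul_ne_zero (key hal fun h0 => h.fst h0 z hz) (key hbe fun h0 => h.snd h0 z hz)

/-- the data of a chart point -/
private theorem exists_ptL {RD Ra : MvPolynomial (Fin (M + 1)) ℂ} {Ko : Set (EN M)} {X : NCModel P RD} {θ : WDiff (coneE P) m} {l : LF M} {S : Web X θ l} {d dR : ℕ}
    (hX : Surface (coneE P)) (hD : DivB P RD Ko) {jH : ℕ} (hW : LW P Ko mK jH Wf)
    (hd : RD.IsHomogeneous d) (hdR : Ra.IsHomogeneous dR) (hRa : RNe X Ra) {k : S.ι} {q : ℂ × ℂ} (hq : q ∈ S.D k) {n₀ : ℕ} (c₀ : Fin n₀ → ℕ → ℂ → ℂ × ℂ)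
    (hpk : GoodC c₀ (exX Ko mK (S.σ k) q) (exY Ko mK (S.σ k) q) fun x => S.v k (q + x)) :
    ∃ (r₀ : ℝ) (g : ℂ × ℂ → ℂ) (Cb : ℝ), 0 < r₀ ∧ AnalyticAt ℂ g q ∧ (∀ x ∈ closedBall q r₀, x ≠ q → InvAt S Ra k x g) ∧
      (∀ c : ℕ → ℂ → ℂ × ℂ, Sep (fun x => S.v k (q + x)) c → FZero c (fun x => eval (S.σ k (q + x)).ofLp Ra) → FZero c fun x => g (q + x)) ∧
      (∀ r, 0 < r → r ≤ r₀ → GrL c₀ (exX Ko mK (S.σ k) q) (exY Ko mK (S.σ k) q) (fun x => S.v k (q + x)) (fun x => g (q + x)) r) ∧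
      (∀ r, 0 < r → r ≤ r₀ → ∀ F : ℂ → EN M, LCrv θ RD Ko Ra F → ∀ Y : NCLift X F,
        Avoid (exX Ko mK (S.σ k) q) (exY Ko mK (S.σ k) q) {z | z ∈ S.Om Y k ∧ S.lf Y k z ∈ ball q r} fun z => S.lf Y k z - q) ∧
      ∀ F : ℂ → EN M, LCrv θ RD Ko Ra F → ∀ Y : NCLift X F, ∀ z ∈ S.Om Y k, S.lf Y k z ∈ closedBall q r₀ →
      wt Wf Y k.1 z ≠ 0 → jc (S.κ k) (S.lf Y k z) ≠ 0 →
        Real.log ‖jc (S.κ k) (S.lf Y k z)‖ + 1 / mK * Real.log ‖wt Wf Y k.1 z‖ + jH / mK * Real.log ‖F z‖ ≤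
          Cb + Real.log ‖JD (exX Ko mK (S.σ k) q) (exY Ko mK (S.σ k) q) (S.lf Y k z - q)‖ := by
  obtain ⟨g, hg1, hg2, hg3⟩ := exists_gq hd hdR hRa hq
  have hgq : AnalyticAt ℂ g q := by
    have h1 : AnalyticAt ℂ (fun x => g (q + x)) 0 := hg1.an
    have h2 : AnalyticAt ℂ (fun x : ℂ × ℂ => x - q) q := analyticAt_id.sub analyticAt_const
    have h4 : AnalyticAt ℂ ((fun x => g (q + x)) ∘ fun x : ℂ × ℂ => x - q) q := h1.comp_of_eq h2 (sub_self _)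
    refine h4.congr (Eventually.of_forall fun x => ?_)
    simp
  have hax := axW_of (mK := mK) hX hD hq hgq hg2
  have h1 := hpk _ hg1 hax
  have h2 := avoidL (Ra := Ra) (θ := θ) (mK := mK) (S := S) hX hD k hq
  obtain ⟨N, hN, Cb, h3⟩ := wt_leC (Ra := Ra) hX hD hW k hq
  rw [eventually_nhdsWithin_iff] at hg2
  obtain ⟨ε, hε, h4⟩ := Metric.eventually_nhds_iff_ball.1 hg2
  obtain ⟨ε', hε', h5⟩ := mem_nhdsGT_iff_exists_Ioo_subset.1 (h1.and h2)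
  obtain ⟨ε'', hε'', h6⟩ := Metric.mem_nhds_iff.1 hN
  have hε'0 : (0 : ℝ) < ε' := hε'
  have hm0 : 0 < min ε (min ε' ε'') := lt_min hε (lt_min hε'0 hε'')
  have hm1 := min_le_left ε (min ε' ε'')
  have hm2 := (min_le_right ε (min ε' ε'')).trans (min_le_left ε' ε'')
  have hm3 := (min_le_right ε (min ε' ε'')).trans (min_le_right ε' ε'')
  refine ⟨min ε (min ε' ε'') / 2, g, Cb, by linarith, hgq, fun x hx hxq => ?_, hg3, fun r hr hr' => ?_, fun r hr hr' => ?_, fun F hF Y z hz hzq => ?_⟩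
  · refine h4 x ?_ hxq
    refine lt_of_le_of_lt (mem_closedBall.1 hx) ?_
    linarith
  · exact (h5 (show r ∈ Set.Ioo 0 ε' from ⟨hr, by linarith⟩)).1
  · exact (h5 (show r ∈ Set.Ioo 0 ε' from ⟨hr, by linarith⟩)).2
  · refine h3 F hF Y z hz (h6 ?_)
    refine lt_of_le_of_lt (mem_closedBall.1 hzq) ?_
    linarith

/-- **McQuillan's theorem for logarithmic symmetric differentials, on the complement of any curve.**  `U = X ∖ D`, where `D` is a curve, the set of the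
common zeros of the forms `G i`; `U` is of log general type.  The entire curves of order two in `U` which are null for a symmetric differential lie in one
algebraic curve. -/
theorem exists_R_open [P.IsPrime] (hP : Homog P) (hdim : ∃ z : Fin 2 → FunField P, IsTranscendenceBasis ℂ z)
    (hsmooth : Pool.Agent.AD.NC.IsSmooth P 2) {s : ℕ} {e : Fin s → ℕ} {G : Fin s → MvPolynomial (Fin (M + 1)) ℂ} (hG : ∀ i, (G i).IsHomogeneous (e i))
    (hO : Pool.Agent.H36.BPL.OpenPart (coneE P) (okG P G)) (hgt : IsLogGeneralType (K := FunField P) (k := 2) (Pool.Agent.H62.SA.OnBd P G))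
    (hm : 1 ≤ m) (θ : WDiff (coneE P) m) (hθ : coneE P ⊆ closure {x | x ∈ coneE P ∧ ∃ v, Tan (coneE P) x v ∧ θ.toFun x v ≠ 0}) :
    ∃ (R : MvPolynomial (Fin (M + 1)) ℂ) (d : ℕ), R.IsHomogeneous d ∧ R ∉ P ∧ ∀ F : ℂ → EN M, Differentiable ℂ F →
      (∀ z, F z ∈ okG P G) → (∃ A : ℝ, ∀ r : ℝ, 0 < r → Real.circleAverage (fun z => Real.log ‖F z‖) 0 r ≤ A * (1 + r ^ 2)) →
      (∃ z w, ∀ c : ℂ, F z ≠ c • F w) → (∀ z, θ.toFun (F z) (deriv F z) = 0) → ∀ z, eval (F z).ofLp R = 0 := by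
  classical
  obtain ⟨z, hz⟩ := id hdim
  have hsm : ∀ y : Fin (M + 1) → ℂ, y ≠ 0 → (∀ Q ∈ P, eval y Q = 0) → Module.finrank ℂ (Pool.Agent.H13.SM.conTan P y) ≤ 3 :=
    fun y h0 h1 => hsmooth y h0 h1
  have hX : Surface (coneE P) := Pool.Agent.H90.SG.surface_coneE hP hz hsm
  have hPp : P.IsPrime := inferInstance
  -- a form which vanishes on `D`
  by_cases hex : ∃ i₀, G i₀ ∉ P
  swap
  · push Not at hex
    exact ⟨1, 0, isHomogeneous_one _ _, fun h => hPp.ne_top ((Ideal.eq_top_iff_one P).2 h), fun F _ hFK _ _ _ z => by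
      obtain ⟨hx, i, hi⟩ := hFK z
      exact absurd (hx.2 _ (hex i)) hi⟩
  obtain ⟨i₀, hi₀⟩ := hex
  obtain ⟨Ko, hKo⟩ : ∃ Ko : Set (EN M), Ko = okG P G := ⟨_, rfl⟩
  -- the frame and the model
  obtain ⟨l, RD₀, d₀, hRD₀, hRD₀P, hgood₀⟩ := exists_R_good hz hX hm θ hθ
  obtain ⟨RD, hRDdef⟩ : ∃ RD : MvPolynomial (Fin (M + 1)) ℂ, RD = RD₀ * G i₀ := ⟨_, rfl⟩
  obtain ⟨d, hddef⟩ : ∃ d : ℕ, d = d₀ + e i₀ := ⟨_, rfl⟩
  have hRD : RD.IsHomogeneous d := by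
    rw [hRDdef, hddef]
    exact hRD₀.mul (hG i₀)
  have hRDP : RD ∉ P := by
    rw [hRDdef]
    intro h1
    rcases hPp.mem_or_mem h1 with h2 | h2
    · exact hRD₀P h2
    · exact hi₀ h2
  have hgood : ∀ x ∈ coneE P, (eval x.ofLp) RD ≠ 0 → GoodPt θ l x := by
    intro x hx h0
    refine hgood₀ x hx fun h1 => h0 ?_
    rw [hRDdef, map_mul, h1, zero_mul]
  have hD : DivB P RD Ko := by
    refine ⟨by rw [hKo]; exact hO, fun x hx h1 => ?_⟩
    have h2 : eval x.ofLp (G i₀) = 0 := by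
      by_contra h3
      exact h1 (by rw [hKo]; exact ⟨hx, i₀, h3⟩)
    rw [hRDdef, map_mul, h2, mul_zero]
  obtain ⟨X, A₀, CK, hmodel⟩ := exists_ncModel hP hz hsm hRD hRDP
  -- the web
  have hbw : ∀ i, Nonempty (BoxWeb θ l (X.ρ i)) := fun i => exists_boxWeb hX hm (X.box i) fun p hp =>
    hgood _ ((X.box i).mem' hp).self_of_nhds (X.good i p hp)
  let W₀ : ∀ i, BoxWeb θ l (X.ρ i) := fun i => (hbw i).some
  let S : Web X θ l := ⟨W₀, fun i => (exists_webOver (W₀ i)).some⟩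
  -- the form of logarithmic general type
  obtain ⟨mK, Wf, dW, QW, hQW, hQWP, hW, hWz⟩ := exists_form_open hP hz hsm hG hi₀ hO hgt
  rw [← hKo] at hW
  have hm1 : 1 ≤ mK := hW.one_m
  -- the packages
  obtain ⟨mv, fam, hfam, hfam0, hpk⟩ := exists_fam hX hD S hm1
  have hcpD : ∀ k : S.ι, ∀ q ∈ S.cp k, q ∈ S.D k := fun k q hq => (cp_compact k).2 hq
  obtain ⟨Ra, dR, hRa, hRaP, hRaZ⟩ := exists_RaL hz hX S mv fam (fun k q hq => hfam k q (hcpD k q hq)) fun k q hq => hfam0 k q (hcpD k q hq)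
  have hRne : RNe X Ra := rne_of hP hz hsm X hRa hRaP
  have hpt : ∀ (k : S.ι) (q : ℂ × ℂ), ∃ (r₀ : ℝ) (g : ℂ × ℂ → ℂ) (Cb : ℝ), 0 < r₀ ∧ (q ∈ S.D k → AnalyticAt ℂ g q ∧
      (∀ x ∈ closedBall q r₀, x ≠ q → InvAt S Ra k x g) ∧
      (∀ c : ℕ → ℂ → ℂ × ℂ, Sep (fun x => S.v k (q + x)) c → FZero c (fun x => eval (S.σ k (q + x)).ofLp Ra) → FZero c fun x => g (q + x)) ∧
      (∀ r, 0 < r → r ≤ r₀ → GrL (fam k q) (exX Ko mK (S.σ k) q) (exY Ko mK (S.σ k) q) (fun x => S.v k (q + x)) (fun x => g (q + x)) r) ∧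
      (∀ r, 0 < r → r ≤ r₀ → ∀ F : ℂ → EN M, LCrv θ RD Ko Ra F → ∀ Y : NCLift X F,
        Avoid (exX Ko mK (S.σ k) q) (exY Ko mK (S.σ k) q) {z | z ∈ S.Om Y k ∧ S.lf Y k z ∈ ball q r} fun z => S.lf Y k z - q) ∧
      ∀ F : ℂ → EN M, LCrv θ RD Ko Ra F → ∀ Y : NCLift X F, ∀ z ∈ S.Om Y k, S.lf Y k z ∈ closedBall q r₀ →
      wt Wf Y k.1 z ≠ 0 → jc (S.κ k) (S.lf Y k z) ≠ 0 →
        Real.log ‖jc (S.κ k) (S.lf Y k z)‖ + 1 / mK * Real.log ‖wt Wf Y k.1 z‖ + (1 : ℕ) / mK * Real.log ‖F z‖ ≤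
          Cb + Real.log ‖JD (exX Ko mK (S.σ k) q) (exY Ko mK (S.σ k) q) (S.lf Y k z - q)‖) := by
    intro k q
    by_cases hq : q ∈ S.D k
    · obtain ⟨r₀, g, Cb, h1, h2⟩ := exists_ptL hX hD hW hRD hRa hRne hq (fam k q) (hpk k q hq)
      exact ⟨r₀, g, Cb, h1, fun _ => h2⟩
    · exact ⟨1, fun _ => 0, 0, one_pos, fun h => absurd h hq⟩
  choose r₀ gq Cb hr₀ hgq using hpt
  obtain ⟨C, hCr⟩ := exists_cov hRD hRa hRne S r₀ fun k q _ => hr₀ k q
  have hQD : ∀ j, C.Q j ∈ S.D (C.ck j) := fun j => (cp_compact (C.ck j)).2 (C.Q_mem j)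
  set g : Fin C.nP → ℂ × ℂ → ℂ := fun j => gq (C.ck j) (C.Q j) with hgdef
  set al : Fin C.nP → ℝ := fun j => exX Ko mK (S.σ (C.ck j)) (C.Q j) with haldef
  set be : Fin C.nP → ℝ := fun j => exY Ko mK (S.σ (C.ck j)) (C.Q j) with hbedef
  have hgj := fun j => hgq (C.ck j) (C.Q j) (hQD j)
  have hrpos : ∀ j, 0 < C.r j := fun j => (C.s_pos j).trans (C.s_lt j)
  have hPG : PG C g := ⟨fun j => (hgj j).1, fun j x hx hxQ => (hgj j).2.1 x (closedBall_subset_closedBall (hCr j) hx) hxQ⟩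
  obtain ⟨A, B, hA0, hdens⟩ := exists_densL hX hD hW C A₀ CK
  obtain ⟨s', hs', hpack⟩ := pack_webL hX hW C
  have hGr : ∀ j, ∃ A' C₀ : ℝ, 0 ≤ A' ∧ 0 ≤ C₀ ∧
      ∀ (d n : ℕ) (q : ℂ × ℂ → ℂ) (ψ : ℂ × ℂ → ℝ), 1 ≤ d → 1 ≤ n → AnalyticAt ℂ q 0 → ContDiffAt ℝ 1 ψ 0 →
        (∀ i, FZero (fam (C.ck j) (C.Q j) i) (fun x => g j (C.Q j + x)) ∨ HasOrd (fam (C.ck j) (C.Q j) i) q n) →
          ∀ (M : ℕ) (F : ℂ → EN M) (Q : ℂ → ℂ) (lm : ℂ → ℝ) (Om : Set ℂ) (p : ℂ → ℂ × ℂ),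
            Dat (fun x => S.v (C.ck j) (C.Q j + x)) (fun x => g j (C.Q j + x)) (C.r j) 1 d q ψ F Q lm Om p → Avoid (al j) (be j) Om p →
              LocX (fun x => S.v (C.ck j) (C.Q j + x)) (fun x => g j (C.Q j + x)) (JD (al j) (be j)) {z | z ∈ Om ∧ p z ∈ ball (0 : ℂ × ℂ) (s' j)} p lm (C.s j) A'
                (C₀ * d / n) :=
    fun j => (hgj j).2.2.2.1 (C.r j) (hrpos j) (hCr j) (C.s j) (s' j) (C.s_pos j) (hs' j).1 (hs' j).2 1 zero_le_one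
  choose A' C₀ hA' hC₀ hLoc using hGr
  obtain ⟨A₁, hA₁, hA₁'⟩ : ∃ A₁ : ℝ, 0 ≤ A₁ ∧ ∀ j, A' j ≤ A₁ :=
    ⟨∑ j, A' j, Finset.sum_nonneg fun j _ => hA' j, fun j => Finset.single_le_sum (fun j _ => hA' j) (Finset.mem_univ j)⟩
  obtain ⟨C₁, hC₁, hC₁'⟩ : ∃ C₁ : ℝ, 0 ≤ C₁ ∧ ∀ j, C₀ j ≤ C₁ :=
    ⟨∑ j, C₀ j, Finset.sum_nonneg fun j _ => hC₀ j, fun j => Finset.single_le_sum (fun j _ => hC₀ j) (Finset.mem_univ j)⟩
  obtain ⟨C₂, hC₂'⟩ : ∃ C₂ : ℝ, ∀ j, Cb (C.ck j) (C.Q j) ≤ C₂ :=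
    ⟨∑ j, |Cb (C.ck j) (C.Q j)|, fun j => (le_abs_self _).trans (Finset.single_le_sum (f := fun j => |Cb (C.ck j) (C.Q j)|) (fun j _ => abs_nonneg _) (Finset.mem_univ j))⟩
  -- the number `k`
  obtain ⟨k, hk⟩ := exists_nat_gt ((mK : ℝ) * (C.nP * (C₁ + 1) * A))
  have hk0 : 0 < k := by
    have h1 : (0 : ℝ) < k := lt_of_le_of_lt (by positivity) hk
    exact_mod_cast h1
  have hkr : (0 : ℝ) < k := by exact_mod_cast hk0
  -- the form with high contact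
  obtain ⟨e₁⟩ : Nonempty (Fin (Fintype.card (Σ j : Fin C.nP, Fin (mv (C.ck j) (C.Q j)))) ≃ (Σ j : Fin C.nP, Fin (mv (C.ck j) (C.Q j)))) :=
    ⟨(Fintype.equivFin _).symm⟩
  have htr : ∀ {E : Type} [NormedAddCommGroup E] [NormedSpace ℂ E] {f : ℂ × ℂ → E} {q : ℂ × ℂ}, AnalyticAt ℂ f q → AnalyticAt ℂ (fun x => f (q + x)) 0 := by
    intro E _ _ f q hf
    have h1 : AnalyticAt ℂ (fun x : ℂ × ℂ => q + x) 0 := analyticAt_const.add analyticAt_id
    have h2 : AnalyticAt ℂ f ((fun x : ℂ × ℂ => q + x) 0) := by simpa using hf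
    exact h2.comp h1
  have hsep : ∀ j, ∀ i, Sep (fun x => S.v (C.ck j) (C.Q j + x)) (fam (C.ck j) (C.Q j) i) := fun j i => hfam _ _ (hQD j) i
  have hσan : ∀ j, AnalyticAt ℂ (fun x => S.σ (C.ck j) (C.Q j + x)) 0 := fun j => htr (σ_an _ _ (hQD j)).1
  have hcan : ∀ n (t : Fin (Fintype.card (Σ j : Fin C.nP, Fin (mv (C.ck j) (C.Q j))))),
      AnalyticAt ℂ (fun s => S.σ (C.ck (e₁ t).1) (C.Q (e₁ t).1 + fam (C.ck (e₁ t).1) (C.Q (e₁ t).1) (e₁ t).2 n s)) 0 := by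
    intro n t
    have h1 := hsep (e₁ t).1 (e₁ t).2
    have h2 : AnalyticAt ℂ (fun x => S.σ (C.ck (e₁ t).1) (C.Q (e₁ t).1 + x)) (fam (C.ck (e₁ t).1) (C.Q (e₁ t).1) (e₁ t).2 n 0) := by
      rw [h1.zero n]
      exact hσan _
    exact h2.comp (h1.an n)
  obtain ⟨dQ, Qf, hdQ, hQf, hQfP, hQc⟩ := sieg hz (Pool.Agent.H62.FC.exists_X_notMem (r := 2) (by norm_num) ⟨z, hz⟩) _ hcan k
  have hQc' : ∀ j i, (fun s => eval (S.σ (C.ck j) (C.Q j + fam (C.ck j) (C.Q j) i (k * dQ) s)).ofLp Qf) =O[𝓝 0] fun t : ℂ => t ^ (k * dQ) := by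
    have h1 : ∀ x : (Σ j : Fin C.nP, Fin (mv (C.ck j) (C.Q j))),
        (fun s => eval (S.σ (C.ck x.1) (C.Q x.1 + fam (C.ck x.1) (C.Q x.1) x.2 (k * dQ) s)).ofLp Qf) =O[𝓝 0] fun t : ℂ => t ^ (k * dQ) := by
      intro x
      obtain ⟨t, rfl⟩ := e₁.surjective x
      exact hQc t
    exact fun j i => h1 ⟨j, i⟩
  have hn1 : 1 ≤ k * dQ := Nat.mul_pos hk0 hdQ
  have hdr : (0 : ℝ) < dQ := by exact_mod_cast hdQ
  refine ⟨RD * Ra * QW * Qf, d + dR + dW + dQ, ((hRD.mul hRa).mul hQW).mul hQf, fun h1 => ?_, fun F hF hFK hord hnc htan => ?_⟩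
  · rcases hPp.mem_or_mem h1 with h2 | h2
    · rcases hPp.mem_or_mem h2 with h3 | h3
      · rcases hPp.mem_or_mem h3 with h4 | h4
        · exact hRDP h4
        · exact hRaP h4
      · exact hQWP h3
    · exact hQfP h2
  have hFX : ∀ z, F z ∈ coneE P := fun z => (hFK z).1
  have hav : ∀ z, F z ∈ Ko := fun z => by rw [hKo]; exact hFK z
  by_contra hcon
  push Not at hcon
  obtain ⟨z₀, hz₀⟩ := hcon
  rw [map_mul, map_mul, map_mul] at hz₀
  have hDz : eval (F z₀).ofLp RD ≠ 0 := fun h1 => hz₀ (by rw [h1]; ring)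
  have hRz : eval (F z₀).ofLp Ra ≠ 0 := fun h1 => hz₀ (by rw [h1]; ring)
  have hWz₀ : eval (F z₀).ofLp QW ≠ 0 := fun h1 => hz₀ (by rw [h1]; ring)
  have hQz : eval (F z₀).ofLp Qf ≠ 0 := fun h1 => hz₀ (by rw [h1]; ring)
  have hFW : WCrv θ RD F := ⟨⟨d, hRD⟩, hF, hFX, htan, hord, hnc, ⟨z₀, hDz⟩⟩
  have hFR : RCrv θ RD Ra F := ⟨hFW, ⟨dR, hRa⟩, ⟨z₀, hRz⟩⟩
  have hFL : LCrv θ RD Ko Ra F := ⟨hFR, hav⟩
  obtain ⟨Y, lm₀, hY⟩ := hmodel F hF hFX hnc ⟨z₀, hDz⟩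
  have hWF : ∃ z w, Pool.Agent.H17BP.Tan (coneE P) (F z) w ∧ Wf (F z) (deriv F z) w ≠ 0 := by
    by_contra hno
    push Not at hno
    refine hWz₀ (hWz F hF hFK hnc (fun z w hw => ?_) z₀)
    obtain ⟨γ, ⟨h1, h2⟩, h3, h4⟩ := hw
    exact hno z w ⟨γ, h1, h2, h3, h4⟩
  have hWne : WNe Wf Y := wne hX hW hFW hav Y hWF
  obtain ⟨lm, hlm⟩ := hdens F hFL Y lm₀ hWne hY
  have hAv : ∀ j, Avoid (al j) (be j) (C.UP Y j) (C.pj Y j) := fun j => (hgj j).2.2.2.2.1 (C.r j) (hrpos j) (hCr j) F hFL Y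
  -- the local packages
  have hL : ∀ j, LocX (C.vj j) (fun x => g j (C.Q j + x)) (JD (al j) (be j)) {z | z ∈ C.UP Y j ∧ C.pj Y j z ∈ ball (0 : ℂ × ℂ) (s' j)} (C.pj Y j) lm (C.s j) A₁
      ((C₁ + 1) / k) := by
    intro j
    obtain ⟨Q, hDat⟩ := dat_web C hPG j hFR Y hlm.toDens hQf ⟨z₀, hQz⟩
    have hqan : AnalyticAt ℂ (fun x => eval (S.σ (C.ck j) (C.Q j + x)).ofLp Qf) 0 := by
      exact (Pool.Agent.H14.PP.analyticAt_evalEN Qf _).comp (hσan j)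
    have hψ : ContDiffAt ℝ 1 (fun x => Real.log ‖S.σ (C.ck j) (C.Q j + x)‖) 0 := by
      have h1 : ContDiffAt ℝ 1 (fun x => S.σ (C.ck j) (C.Q j + x)) 0 := ((hσan j).contDiffAt (n := 1)).restrict_scalars ℝ
      have h2 : S.σ (C.ck j) (C.Q j + 0) ≠ 0 := by
        intro h0
        have h3 := (σ_an _ _ (hQD j)).2
        rw [add_zero] at h0
        rw [h0] at h3
        exact hX.zero h3
      exact (h1.norm ℂ h2).log (norm_ne_zero_iff.2 h2)
    have h1 := hLoc j dQ (k * dQ) _ _ hdQ hn1 hqan hψ (fun i => ?_) M F Q lm (C.UP Y j) (C.pj Y j) hDat (hAv j)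
    · refine locX_monoL h1 (hA₁' j) ?_
      push_cast
      rw [mul_div_mul_right _ _ hdr.ne']
      exact div_le_div_of_nonneg_right ((hC₁' j).trans (by linarith)) hkr.le
    · rcases hRaZ (C.ck j) (C.Q j) (C.Q_mem j) i with h2 | h2
      · exact Or.inl ((hgj j).2.2.1 _ (hsep j i) h2)
      · exact Or.inr (hasOrd_of (hsep j i) hqan (h2 Qf dQ hQf hQfP) (hQc' j i))
  have hJb : ∀ j, ∀ z ∈ C.UP Y j, wt Wf Y (C.ck j).1 z ≠ 0 → C.Jj j (C.pj Y j z) ≠ 0 → JD (al j) (be j) (C.pj Y j z) ≠ 0 ∧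
      Real.log ‖C.Jj j (C.pj Y j z)‖ + 1 / mK * Real.log ‖wt Wf Y (C.ck j).1 z‖ + (1 : ℕ) / mK * Real.log ‖F z‖ ≤
        C₂ + Real.log ‖JD (al j) (be j) (C.pj Y j z)‖ := by
    intro j z hz h1 h2
    refine ⟨JD_ne (exX_le Ko hm1 _ _) (exY_le Ko hm1 _ _) (hAv j) hz, ?_⟩
    have h3 : C.Q j + C.pj Y j z = S.lf Y (C.ck j) z := by
      unfold Cov.pj
      abel
    unfold Cov.Jj at h2 ⊢
    rw [h3] at h2 ⊢
    refine ((hgj j).2.2.2.2.2 F hFL Y z hz.1 (closedBall_subset_closedBall (hCr j) (ball_subset_closedBall hz.2)) h1 h2).trans ?_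
    exact add_le_add_left (hC₂' j) _
  obtain ⟨L, hLc, hLle, hLen, hPack⟩ := hpack g hPG F hFL Y hWne A B hA0 lm hlm A₁ ((C₁ + 1) / k) (by positivity) al be C₂ hJb hL
  have hmr : (0 : ℝ) < mK := by exact_mod_cast hm1
  have hcrv : Pool.Agent.MQ.Crv P Set.univ F := ⟨hF, hFX, fun _ => Set.mem_univ _, hord, hnc⟩
  refine false_of_pack hcrv hLc (fun z => (Pool.Agent.MQ.lam_nonneg F z).trans (hLle z)) hLle hLen hPack ?_
  push_cast
  have h3 : (C.nP * (C₁ + 1) * A) / (k : ℝ) < 1 / mK := by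
    rw [div_lt_div_iff₀ hkr hmr]
    linarith
  have h4 : 2 * (1 : ℝ) / mK = 2 * (1 / mK) := by ring
  have h5 : 2 * ((C.nP : ℝ) * ((C₁ + 1) / k * A)) = 2 * ((C.nP * (C₁ + 1) * A) / k) := by ring
  rw [h4, h5]
  linarith

end Pool.Agent.MQK

end
end

section

/-!
# MQL PBe: pseudo Brody hyperbolic surfaces which are proper over an affine variety

McQuillan's theorem for curves of order two in the complement of an arbitrary curve (`MQK.FinL`) gives the equivalences of `PBd.tfae_gen` for all surfaces which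
are proper over an affine variety.
-/

set_option autoImplicit false

open Topology Filter Metric MvPolynomial

noncomputable section

namespace Pool.Agent.MQL.PB

open Pool.Agent.H17 (PN VanishesAt HolomorphicInto ZariskiClosedIn puncturedDisc PseudoBrodyHyperbolic PseudoPicardHyperbolic)
open Pool.Agent.H17EF (coneE LE)
open Pool.Agent.H62.SA (locVar OnBd locCone)
open Pool.Agent.H17LG.Variety (FunField IsLogGeneralType)
open Pool.Agent.H36.BPL (OpenPart)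
open Pool.Agent.SR2.T (Homog HasDim Var Loc Smooth LogGT GGL Hyperbolic)
open Pool.Agent.MQL.PB.T

variable {N s : ℕ} {P : Ideal (MvPolynomial (Fin (N + 1)) ℂ)}

/-- the cone over the complement of a curve -/
theorem openPart_okG (hP : Homog P) {G : Fin s → MvPolynomial (Fin (N + 1)) ℂ} {e : Fin s → ℕ} (hG : ∀ i, (G i).IsHomogeneous (e i))
    (hc : CurveComplement P G) : OpenPart (coneE P) (Pool.Agent.MQK.okG P G) := by
  have h := Pool.Agent.H36.LB.openPart_of_curveComplement (P := P) hP hG hc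
  refine ⟨fun x hx => hx.1, fun x hx c hc0 => h.smul ((LE N).symm x) hx c hc0, fun x hx => ?_⟩
  obtain ⟨g, hg, he⟩ := h.eqn ((LE N).symm x) hx
  have ht : Tendsto (fun y => (LE N).symm y) (𝓝 x) (𝓝 ((LE N).symm x)) := (LE N).symm.continuous.continuousAt
  exact ⟨fun y => g ((LE N).symm y), AnalyticAt.comp (g := g) (f := fun y => (LE N).symm y) hg ((LE N).symm.toContinuousLinearMap.analyticAt x), ht.eventually he⟩

/-- **McQuillan's theorem** for curves of order two in the complement of a curve -/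
theorem hasR_open [P.IsPrime] (hP : Homog P) (hdim : HasDim P 2) (hs : Smooth P 2) {G : Fin s → MvPolynomial (Fin (N + 1)) ℂ}
    (hG : ∀ i, ∃ n, (G i).IsHomogeneous n) (hc : CurveComplement P G) (hgt : LogGT P G 2) : HasR P G := by
  choose e he using hG
  intro m hm θ hθ
  obtain ⟨R, d, hR, hRP, h⟩ := Pool.Agent.MQK.exists_R_open hP hdim (Pool.Agent.SR2.T.isSmooth_of hs) he (openPart_okG hP he hc) hgt hm θ hθ
  exact ⟨R, d, hR, hRP, fun F hF hFX hav => h F hF fun z => ⟨hFX z, hav z⟩⟩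

/-- **The equivalences**, for a surface which is proper over an affine variety. -/
theorem tfae_proper [P.IsPrime] (hP : Homog P) (hdim : HasDim P 2) (hs : Smooth P 2) {G : Fin s → MvPolynomial (Fin (N + 1)) ℂ} (hGP : ∃ i, G i ∉ P)
    (hpr : ProperOverAffine P G) (hgt : LogGT P G 2) :
    List.TFAE [
      ∃ E : Eqn N, Nontrivial P E ∧ ∀ f, IsCurve (Loc P G) f → Satisfies E f,
      ∃ (R : MvPolynomial (Fin (N + 1)) ℂ) (d : ℕ), R.IsHomogeneous d ∧ R ∉ P ∧ ∀ f, IsCurve (Loc P G) f → ∀ z, VanishesAt R (f z),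
      StronglyLogGT P G ∧ ∀ f, IsCurve (Loc P G) f → ∃ E : Eqn N, Nontrivial P E ∧ ∀ c : ℂ, c ≠ 0 → Satisfies E fun z => f (c * z),
      PseudoBrodyHyperbolic (Loc P G),
      PseudoPicardHyperbolic (Loc P G),
      PseudoKobayashi (Loc P G),
      GGL P G (Exc (Loc P G)),
      Hyperbolic P G] := by
  have hc : CurveComplement P G := by
    obtain ⟨M, F, e, h1, h2, h3, h4⟩ := hpr
    have hprop : Pool.Agent.H62.SA.IsProperMap P G F e := ⟨h1, h2, h3, h4⟩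
    exact Pool.Agent.H36.LB.curveComplement_of_proper hprop
  exact tfae_gen hP hdim hs hGP hpr hgt (hasR_open hP hdim hs (forms_of_proper hpr) hc hgt)

end Pool.Agent.MQL.PB

end
end
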