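import Pool.Agent.H43.TL2.M02
import Pool.Agent.H43.TL2.M09
import Pool.Agent.H43.TL2.M10
import Pool.Agent.H43.TL2.M13

/-! The parts of this file: H17EF.Zeros, E2.AhlB, H14.V.Fam, H14.V.Up, H36.BP.ExtA, MQL.LogW, SDR.Good, SR3.EIter, SR3.F.Defs, SR3.F.Hat, SR3.G.Defs, SR3.G.Asy, SR3.G.Chain, SR3.LRad, SR3.LnDefs, SR3.RsM, SDA.X1. -/

section

/-!
# EF Zeros: a bounded holomorphic function with many zeros is small at the centre
-/

set_option autoImplicit false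

namespace Pool.Agent.H17EF

open Metric Filter Topology

/-- division by one linear factor -/
theorem div_one {g : ℂ → ℂ} {r B : ℝ} (hg : DifferentiableOn ℂ g (ball 0 r))
    (hB : ∀ z ∈ ball (0 : ℂ) r, ‖g z‖ ≤ B) {w : ℂ} (hw : ‖w‖ ≤ r / 4) (hr : 0 < r) (h0 : g w = 0) :
    DifferentiableOn ℂ (dslope g w) (ball 0 r) ∧ (∀ z, g z = (z - w) * dslope g w z) ∧
      ∀ z ∈ ball (0 : ℂ) r, ‖dslope g w z‖ ≤ B * (4 / (3 * r)) := by
  have hwb : w ∈ ball (0 : ℂ) r := by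
    rw [mem_ball_zero_iff]
    linarith
  have hd : DifferentiableOn ℂ (dslope g w) (ball 0 r) :=
    (Complex.differentiableOn_dslope (isOpen_ball.mem_nhds hwb)).2 hg
  have hfac : ∀ z, g z = (z - w) * dslope g w z := by
    intro z
    have h1 : (z - w) • dslope g w z = g z - g w := sub_smul_dslope g w z
    rw [h0, sub_zero, smul_eq_mul] at h1
    exact h1.symm
  refine ⟨hd, hfac, fun z hz => ?_⟩
  rw [mem_ball_zero_iff] at hz
  have hB0 : 0 ≤ B := (norm_nonneg _).trans (hB 0 (mem_ball_self hr))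
  -- the estimate with a smaller radius
  have key : ∀ s : ℝ, ‖z‖ < s → r / 2 < s → s < r → ‖dslope g w z‖ ≤ B / (s - r / 4) := by
    intro s hzs hs hsr
    have hs0 : 0 < s := by linarith
    have hsub : closedBall (0 : ℂ) s ⊆ ball 0 r := closedBall_subset_ball hsr
    have hdc : DiffContOnCl ℂ (dslope g w) (ball 0 s) := by
      apply DifferentiableOn.diffContOnCl
      rw [closure_ball _ hs0.ne']
      exact hd.mono hsub
    refine Complex.norm_le_of_forall_mem_frontier_norm_le isBounded_ball hdc ?_ (z := z) ?_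
    · intro ζ hζ
      rw [frontier_ball _ hs0.ne', mem_sphere_zero_iff_norm] at hζ
      have hζr : ζ ∈ ball (0 : ℂ) r := by rw [mem_ball_zero_iff, hζ]; exact hsr
      have h1 := hB ζ hζr
      rw [hfac ζ, norm_mul] at h1
      have h2 : s - r / 4 ≤ ‖ζ - w‖ := by
        have := norm_sub_norm_le ζ w
        rw [hζ] at this
        linarith
      have h3 : 0 < s - r / 4 := by linarith
      rw [le_div_iff₀ h3]
      calc ‖dslope g w ζ‖ * (s - r / 4) ≤ ‖dslope g w ζ‖ * ‖ζ - w‖ := mul_le_mul_of_nonneg_left h2 (norm_nonneg _)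
        _ = ‖ζ - w‖ * ‖dslope g w ζ‖ := mul_comm _ _
        _ ≤ B := h1
    · apply subset_closure
      rw [mem_ball_zero_iff]
      exact hzs
  -- the limit `s → r`
  have hlim : Tendsto (fun s : ℝ => B / (s - r / 4)) (𝓝[<] r) (𝓝 (B / (r - r / 4))) := by
    have h1 : ContinuousAt (fun s : ℝ => B / (s - r / 4)) r := by
      apply ContinuousAt.div continuousAt_const (by fun_prop)
      linarith
    exact h1.tendsto.mono_left nhdsWithin_le_nhds
  have hev : ∀ᶠ s in 𝓝[<] r, ‖dslope g w z‖ ≤ B / (s - r / 4) := by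
    have h1 : ∀ᶠ s : ℝ in 𝓝[<] r, ‖z‖ < s := (eventually_gt_nhds hz).filter_mono nhdsWithin_le_nhds
    have h2 : ∀ᶠ s : ℝ in 𝓝[<] r, r / 2 < s := (eventually_gt_nhds (by linarith)).filter_mono nhdsWithin_le_nhds
    have h3 : ∀ᶠ s : ℝ in 𝓝[<] r, s < r := eventually_mem_nhdsWithin
    filter_upwards [h1, h2, h3] with s hs1 hs2 hs3
    exact key s hs1 hs2 hs3
  have h4 := ge_of_tendsto hlim hev
  have h5 : B / (r - r / 4) = B * (4 / (3 * r)) := by
    field_simp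
    ring
  rwa [h5] at h4

/-- division by finitely many linear factors -/
theorem div_list {r B : ℝ} (hr : 0 < r) : ∀ (l : List ℂ) {g : ℂ → ℂ}, DifferentiableOn ℂ g (ball 0 r) →
    (∀ z ∈ ball (0 : ℂ) r, ‖g z‖ ≤ B) → (∀ w ∈ l, ‖w‖ ≤ r / 4) → (∀ w, ((l.count w : ℕ) : ℕ∞) ≤ analyticOrderAt g w) →
    ∃ g' : ℂ → ℂ, DifferentiableOn ℂ g' (ball 0 r) ∧ (∀ z, g z = (l.map fun w => z - w).prod * g' z) ∧
      ∀ z ∈ ball (0 : ℂ) r, ‖g' z‖ ≤ B * (4 / (3 * r)) ^ l.length := by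
  intro l
  induction l generalizing B with
  | nil =>
    intro g hg hB _ _
    exact ⟨g, hg, by simp, by simpa using hB⟩
  | cons w l ih =>
    intro g hg hB hl hord
    have hw : ‖w‖ ≤ r / 4 := hl w (List.mem_cons_self)
    have hwb : w ∈ ball (0 : ℂ) r := by
      rw [mem_ball_zero_iff]
      linarith
    have hgan : ∀ z ∈ ball (0 : ℂ) r, AnalyticAt ℂ g z := fun z hz => hg.analyticAt (isOpen_ball.mem_nhds hz)
    have h0 : g w = 0 := by
      have h1 := hord w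
      rw [List.count_cons_self] at h1
      have h2 : analyticOrderAt g w ≠ 0 := by
        intro h3
        rw [h3] at h1
        simp at h1
      by_contra h3
      exact h2 ((hgan w hwb).analyticOrderAt_eq_zero.2 h3)
    obtain ⟨h1, h2, h3⟩ := div_one hg hB hw hr h0
    have h1an : ∀ z ∈ ball (0 : ℂ) r, AnalyticAt ℂ (dslope g w) z := fun z hz => h1.analyticAt (isOpen_ball.mem_nhds hz)
    obtain ⟨g', h4, h5, h6⟩ := ih (B := B * (4 / (3 * r))) h1 h3 (fun v hv => hl v (List.mem_cons_of_mem _ hv)) (by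
      intro v
      by_cases hv : v ∈ l
      · have hvb : v ∈ ball (0 : ℂ) r := by
          have := hl v (List.mem_cons_of_mem _ hv)
          rw [mem_ball_zero_iff]
          linarith
        have hfun : g = (fun z => z - w) * dslope g w := by
          funext z
          rw [Pi.mul_apply]
          exact h2 z
        have hlin : AnalyticAt ℂ (fun z : ℂ => z - w) v := by fun_prop
        have h7 : analyticOrderAt g v = analyticOrderAt (fun z : ℂ => z - w) v + analyticOrderAt (dslope g w) v := by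
          conv_lhs => rw [hfun]
          exact analyticOrderAt_mul hlin (h1an v hvb)
        have h8 := hord v
        rw [h7] at h8
        by_cases hvw : v = w
        · subst hvw
          rw [List.count_cons_self] at h8
          have h9 : analyticOrderAt (fun z : ℂ => z - v) v = 1 := by
            apply AnalyticAt.analyticOrderAt_eq_one_of_zero_deriv_ne_zero hlin (sub_self v)
            simp
          rw [h9] at h8
          push_cast at h8
          rw [add_comm] at h8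
          exact (ENat.add_le_add_iff_left (by simp)).1 h8
        · rw [List.count_cons_of_ne (Ne.symm hvw)] at h8
          have h9 : analyticOrderAt (fun z : ℂ => z - w) v = 0 := by
            apply hlin.analyticOrderAt_eq_zero.2
            exact sub_ne_zero.2 hvw
          rwa [h9, zero_add] at h8
      · rw [List.count_eq_zero_of_not_mem hv]
        simp)
    refine ⟨g', h4, fun z => ?_, fun z hz => ?_⟩
    · rw [h2 z, h5 z, List.map_cons, List.prod_cons, mul_assoc]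
    · have := h6 z hz
      rw [List.length_cons, pow_succ']
      calc _ ≤ _ := this
        _ = _ := by ring

end Pool.Agent.H17EF

end

section

/-!
# E2 AhlB: a section of `M K - H` vanishes along an entire curve in a fibre, if the direction of `du` is constant along the curve

`indep`: in a chart at `x = σ 0`, `f = a₁ σ₁ + a₂ σ₂ + a x` with `du x f i = a₁ E₁ + a₂ E₂ = 0`, thus
`(a₁ w₂ - a₂ w₁) (w'₁ E₁ + w'₂ E₂) = (a₁ w'₂ - a₂ w'₁) (w₁ E₁ + w₂ E₂)`: `Ω x f w (du x w' i)^M = Ω x f w' (du x w i)^M`.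

So there is `l z ≥ 0` with `‖Ω (F z) (F' z) w‖ ‖F z‖ = (l z ‖du (F z) w i‖)^M` for all tangent vectors `w`.

`local_form`: near `z₀`, `F z = c z • σ (τ (F z))` with `c` holomorphic, `c z₀ = 1`; `φ (z, s) = c z • σ (τ (F z) + s w₀)`, `w z = ∂φ/∂s (z, 0)`,
`A z = Ω (F z) (F' z) (w z)`, `B z = du (F z) (w z) i` are holomorphic: `l = (‖A‖ ‖F‖)^(1/M) / ‖B‖`.
-/

set_option autoImplicit false

open Topology Filter Metric

noncomputable section

namespace Pool.Agent.E2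

open Pool.Agent.H36.BP (EN fs wd Sub)
open Pool.Agent.H17BP (Surface IsChart IsForm)

variable {N g : ℕ} {X : Set (EN N)} {Λ : AddSubgroup (Fin g → ℂ)} {u : EN N → (Fin g → ℂ)}

/-- a curve in a chart -/
theorem curve_chart {σ : ℂ × ℂ → EN N} {τ : EN N → ℂ × ℂ} (hσ : IsChart X σ τ) {γ : ℂ → EN N} {z₀ : ℂ} (hγ : AnalyticAt ℂ γ z₀)
    (hγX : ∀ᶠ z in 𝓝 z₀, γ z ∈ X) (h0 : γ z₀ = σ 0) :
    ∃ c : ℂ → ℂ, AnalyticAt ℂ c z₀ ∧ c z₀ = 1 ∧ AnalyticAt ℂ (fun z => τ (γ z)) z₀ ∧ τ (γ z₀) = 0 ∧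
      ∀ᶠ z in 𝓝 z₀, γ z = c z • σ (τ (γ z)) := by
  have hτ0 : τ (γ z₀) = 0 := by
    rw [h0]
    exact hσ.left.self_of_nhds
  have hθ : AnalyticAt ℂ (fun z => τ (γ z)) z₀ := AnalyticAt.comp (g := τ) (f := γ) (by rw [h0]; exact hσ.τ_an) hγ
  obtain ⟨k, hk⟩ : ∃ k, (σ 0) k ≠ 0 := by
    by_contra hcon
    push Not at hcon
    exact hσ.ne (by ext k; exact hcon k)
  have hG : AnalyticAt ℂ (fun z => σ (τ (γ z))) z₀ :=
    AnalyticAt.comp (g := σ) (f := fun z => τ (γ z)) (by show AnalyticAt ℂ σ (τ (γ z₀)); rw [hτ0]; exact hσ.σ_an) hθ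
  have hcoord : ∀ {f : ℂ → EN N}, AnalyticAt ℂ f z₀ → AnalyticAt ℂ (fun z => f z k) z₀ := fun {f} hf =>
    AnalyticAt.comp (g := fun v : EN N => (EuclideanSpace.proj k : EN N →L[ℂ] ℂ) v) (f := f)
      ((EuclideanSpace.proj k : EN N →L[ℂ] ℂ).analyticAt _) hf
  have hne0 : σ (τ (γ z₀)) k ≠ 0 := by
    rw [hτ0]
    exact hk
  refine ⟨fun z => γ z k / σ (τ (γ z)) k, (hcoord hγ).div (hcoord hG) hne0, ?_, hθ, hτ0, ?_⟩
  · show γ z₀ k / σ (τ (γ z₀)) k = 1
    rw [hτ0, h0]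
    exact div_self hk
  · have hc : Tendsto γ (𝓝 z₀) (𝓝 (σ 0)) := by
      rw [← h0]
      exact hγ.continuousAt.tendsto
    have hne : ∀ᶠ z in 𝓝 z₀, σ (τ (γ z)) k ≠ 0 := (hcoord hG).continuousAt.eventually_ne hne0
    filter_upwards [hc.eventually hσ.right, hγX, hne] with z h1 h2 h3
    obtain ⟨c, hc0, hc⟩ := h1 h2
    have h4 : γ z k = c * σ (τ (γ z)) k := by
      conv_lhs => rw [hc]
      rfl
    have h5 : γ z k / σ (τ (γ z)) k = c := by
      rw [h4]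
      field_simp
    rw [h5]
    exact hc

end Pool.Agent.E2

end
end

section

/-!
# V Fam: curves of order two on surfaces with symmetric differentials
-/

set_option autoImplicit false

open Topology Filter Metric

namespace Pool.Agent.H14.V

open Pool.Agent.H36.BP (EN fs wd)
open Pool.Agent.H14.PP (IsCone Tan)

variable {N : ℕ} {X : Set (EN N)}

theorem tan_of_curve {F : ℂ → EN N} (hF : Differentiable ℂ F) (hFX : ∀ z, F z ∈ X) (z : ℂ) : Tan X (F z) (deriv F z) := by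
  refine ⟨fun w => F (z + w), ⟨(hF.comp (differentiable_id.const_add z)).analyticAt 0, Eventually.of_forall fun w => hFX _⟩, by simp, ?_⟩
  have := deriv_comp_const_add (f := F) z 0
  simpa using this

theorem fs_smul_right (x v : EN N) (a : ℂ) : fs x (a • v) = ‖a‖ * fs x v := by
  unfold fs wd
  rw [norm_smul, inner_smul_right, norm_mul]
  have : ‖x‖ ^ 2 * (‖a‖ * ‖v‖) ^ 2 - (‖a‖ * ‖inner ℂ x v‖) ^ 2 = ‖a‖ ^ 2 * (‖x‖ ^ 2 * ‖v‖ ^ 2 - ‖inner ℂ x v‖ ^ 2) := by ring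
  rw [this, Real.sqrt_mul (by positivity), Real.sqrt_sq (norm_nonneg _)]
  ring

end Pool.Agent.H14.V

end

section

/-!
# V Up: an entire curve with bounded derivative has order at most two
-/

set_option autoImplicit false

open Topology Filter Metric

namespace Pool.Agent.H14.V

open Pool.Agent.H36.BP (EN fs wd Sub)

variable {N : ℕ}

theorem norm_ofLp_le (x : EN N) : ‖x.ofLp‖ ≤ ‖x‖ := by
  rw [pi_norm_le_iff_of_nonneg (norm_nonneg _)]
  exact fun i => PiLp.norm_apply_le x i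

theorem norm_le_ofLp (x : EN N) : ‖x‖ ≤ Real.sqrt (N + 1) * ‖x.ofLp‖ := by
  rw [EuclideanSpace.norm_eq]
  have h1 : ∑ i, ‖x i‖ ^ 2 ≤ (N + 1) * ‖x.ofLp‖ ^ 2 := by
    calc ∑ i, ‖x i‖ ^ 2 ≤ ∑ _i : Fin (N + 1), ‖x.ofLp‖ ^ 2 :=
          Finset.sum_le_sum fun i _ => pow_le_pow_left₀ (norm_nonneg _) (norm_le_pi_norm x.ofLp i) 2
      _ = (N + 1) * ‖x.ofLp‖ ^ 2 := by simp
  calc Real.sqrt (∑ i, ‖x i‖ ^ 2) ≤ Real.sqrt ((N + 1) * ‖x.ofLp‖ ^ 2) := Real.sqrt_le_sqrt h1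
    _ = Real.sqrt (N + 1) * ‖x.ofLp‖ := by rw [Real.sqrt_mul (by positivity), Real.sqrt_sq (norm_nonneg _)]

/-- from the maximum norm to the Euclidean norm -/
theorem average_toLp {F : ℂ → Fin (N + 1) → ℂ} (hF : Differentiable ℂ F) (h0 : ∀ z, F z ≠ 0) {A : ℝ}
    (hA : ∀ r : ℝ, 0 < r → Real.circleAverage (fun z => Real.log ‖F z‖) 0 r ≤ A * (1 + r ^ 2)) :
    ∃ A' : ℝ, ∀ r : ℝ, 0 < r → Real.circleAverage (fun z => Real.log ‖(WithLp.toLp 2 (F z) : EN N)‖) 0 r ≤ A' * (1 + r ^ 2) := by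
  obtain ⟨K, hK⟩ : ∃ K : ℝ, K = |Real.log (Real.sqrt (N + 1))| := ⟨_, rfl⟩
  refine ⟨A + K, fun r hr => ?_⟩
  have h0' : ∀ z, (WithLp.toLp 2 (F z) : EN N) ≠ 0 := fun z h => h0 z (WithLp.toLp_injective 2 h)
  have hc : Continuous fun z => (WithLp.toLp 2 (F z) : EN N) := (PiLp.continuous_toLp 2 _).comp hF.continuous
  have h1 : Real.circleAverage (fun z => Real.log ‖(WithLp.toLp 2 (F z) : EN N)‖) 0 r ≤
      Real.circleAverage (fun z => Real.log ‖F z‖ + K) 0 r := by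
    refine Real.circleAverage_mono (hc.norm.log fun z => norm_ne_zero_iff.2 (h0' z)).continuousOn.circleIntegrable'
      ((hF.continuous.norm.log fun z => norm_ne_zero_iff.2 (h0 z)).add continuous_const).continuousOn.circleIntegrable' fun z _ => ?_
    have h2 := norm_le_ofLp (WithLp.toLp 2 (F z) : EN N)
    have h3 : 0 < ‖F z‖ := norm_pos_iff.2 (h0 z)
    have h4 : (0 : ℝ) < Real.sqrt (N + 1) := by positivity
    have h5 := Real.log_le_log (norm_pos_iff.2 (h0' z)) h2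
    rw [Real.log_mul h4.ne' (by simpa using h3.ne')] at h5
    have h6 := le_abs_self (Real.log (Real.sqrt (N + 1)))
    rw [← hK] at h6
    show Real.log ‖(WithLp.toLp 2 (F z) : EN N)‖ ≤ Real.log ‖F z‖ + K
    linarith
  have h2 : Real.circleAverage (fun z => Real.log ‖F z‖ + K) 0 r = Real.circleAverage (fun z => Real.log ‖F z‖) 0 r + K := by
    rw [Real.circleAverage_fun_add (hF.continuous.norm.log fun z => norm_ne_zero_iff.2 (h0 z)).continuousOn.circleIntegrable'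
      (circleIntegrable_const _ _ _), Real.circleAverage_const]
  have h3 := hA r hr
  have h4 : 0 ≤ K * r ^ 2 := by rw [hK]; positivity
  nlinarith

end Pool.Agent.H14.V

end

section

/-!
# BP ExtA: growth at the puncture

`z ≠ 0`, `|z| < 1`, `z = exp w₀`, `R = log(1/|z|) = -Re w₀`.  The curve `ζ ↦ F(exp(w₀ + R ζ))` is defined for `|ζ| < 1` (`Re(w₀ + Rζ) < 0`); `mt_comp` with `φ ζ = exp(w₀ + Rζ)`, `|φ'(0)| = R|z|`.
-/

set_option autoImplicit false

namespace Pool.Agent.H36.BP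

open Filter Topology Metric

variable {N : ℕ}

variable {K B : Set (EN N)} {G : EN N → EN N → ℝ} {ρ : EN N → ℝ} {M : ℕ} {c₀ C : ℝ}

theorem growth (hM : MetricData K B G ρ M c₀ C) {L : ℝ} (hL : ∀ F, Curve K (ball 0 1) F → mt G F 0 ≤ L) {F : ℂ → EN N}
    (hF : Curve K (ball 0 1 \ {0}) F) {z : ℂ} (hz : z ≠ 0) (hz1 : ‖z‖ < 1) :
    mt G F z * (‖z‖ * Real.log (1 / ‖z‖)) ≤ L := by
  have hzp : 0 < ‖z‖ := norm_pos_iff.2 hz
  obtain ⟨R, hR⟩ : ∃ R : ℝ, R = Real.log (1 / ‖z‖) := ⟨_, rfl⟩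
  have hR0 : 0 < R := by
    rw [hR]
    exact Real.log_pos (by rw [lt_div_iff₀ hzp]; linarith)
  have hRl : R = -Real.log ‖z‖ := by rw [hR, one_div, Real.log_inv]
  rw [← hR]
  obtain ⟨φ, hφ⟩ : ∃ φ : ℂ → ℂ, φ = fun ζ => Complex.exp (Complex.log z + R * ζ) := ⟨_, rfl⟩
  have hφd : ∀ ζ, HasDerivAt φ (Complex.exp (Complex.log z + R * ζ) * R) ζ := by
    intro ζ
    rw [hφ]
    have h1 : HasDerivAt (fun ζ : ℂ => Complex.log z + R * ζ) ((R : ℂ) * 1) ζ :=
      ((hasDerivAt_id' ζ).const_mul (R : ℂ)).const_add _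
    rw [mul_one] at h1
    exact h1.cexp
  have hφ0 : φ 0 = z := by
    rw [hφ]
    simp only [mul_zero, add_zero]
    exact Complex.exp_log hz
  have hφm : ∀ ζ ∈ ball (0 : ℂ) 1, φ ζ ∈ ball (0 : ℂ) 1 \ {0} := by
    intro ζ hζ
    rw [mem_ball_zero_iff] at hζ
    have h1 : ζ.re < 1 := lt_of_le_of_lt (Complex.re_le_norm ζ) hζ
    refine ⟨?_, ?_⟩
    · rw [mem_ball_zero_iff, hφ]
      simp only
      rw [Complex.norm_exp, Real.exp_lt_one_iff, Complex.add_re, Complex.log_re, Complex.re_ofReal_mul]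
      have h2 : R * ζ.re < R * 1 := mul_lt_mul_of_pos_left h1 hR0
      linarith
    · rw [Set.mem_singleton_iff, hφ]
      exact Complex.exp_ne_zero _
  have hopen : IsOpen (ball (0 : ℂ) 1 \ {0}) := isOpen_ball.sdiff isClosed_singleton
  have hFd : ∀ w ∈ ball (0 : ℂ) 1 \ {0}, DifferentiableAt ℂ F w := fun w hw =>
    hF.1.differentiableAt (hopen.mem_nhds hw)
  have hcurve : Curve K (ball 0 1) (fun ζ => F (φ ζ)) := by
    refine ⟨fun ζ hζ => ?_, fun ζ hζ => hF.2 _ (hφm ζ hζ)⟩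
    exact ((hFd _ (hφm ζ hζ)).comp ζ (hφd ζ).differentiableAt).differentiableWithinAt
  have hzm : z ∈ ball (0 : ℂ) 1 \ {0} := by
    have := hφm 0 (mem_ball_self one_pos)
    rwa [hφ0] at this
  have h1 := hL _ hcurve
  rw [mt_comp hM (by rw [hφ0]; exact hFd z hzm) (hφd 0).differentiableAt
    (by rw [hφ0]; exact hF.2 z hzm), hφ0, (hφd 0).deriv, mul_zero, add_zero, Complex.exp_log hz,
    norm_mul, Complex.norm_real, Real.norm_of_nonneg hR0.le] at h1
  rw [mul_comm]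
  exact h1

end Pool.Agent.H36.BP

end

section

/-!
# MQL LogW: a logarithmic symmetric differential gives a twisted symmetric differential on the projective surface

`θ' (x; v) = (∏ H i (x)) ^ (m + 1) θ (x; v)` is holomorphic on the cone.
-/

set_option autoImplicit false

open Topology Filter Metric MvPolynomial

noncomputable section

namespace Pool.Agent.MQL

open Pool.Agent.H36.BP (EN fs wd)
open Pool.Agent.H14.PP (IsCone Tan)

variable {N k : ℕ} {P : Ideal (MvPolynomial (Fin (N + 1)) ℂ)} {H : Fin k → MvPolynomial (Fin (N + 1)) ℂ} {e : Fin k → ℕ}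

/-- the tangent vectors of a parametrization -/
theorem lw_tan {X : Set (EN N)} {E : Type} [NormedAddCommGroup E] [NormedSpace ℂ E] {σ : E → EN N} {p : E} (hσ : AnalyticAt ℂ σ p)
    (hX : ∀ᶠ q in 𝓝 p, σ q ∈ X) (v : E) : Tan X (σ p) (fderiv ℂ σ p v) := by
  have hl : AnalyticAt ℂ (fun z : ℂ => p + z • v) 0 := by fun_prop
  have h0 : p + (0 : ℂ) • v = p := by simp
  have hσ' : AnalyticAt ℂ σ (p + (0 : ℂ) • v) := by rwa [h0]
  refine ⟨fun z => σ (p + z • v), ⟨AnalyticAt.comp (g := σ) (f := fun z : ℂ => p + z • v) hσ' hl, ?_⟩, by simp, ?_⟩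
  · have h1 : Tendsto (fun z : ℂ => p + z • v) (𝓝 0) (𝓝 p) := by
      have := hl.continuousAt.tendsto
      rwa [h0] at this
    exact h1.eventually hX
  · have h1 : HasFDerivAt σ (fderiv ℂ σ p) (p + (0 : ℂ) • v) := by
      rw [h0]
      exact hσ.differentiableAt.hasFDerivAt
    have h2 : HasDerivAt (fun z : ℂ => p + z • v) v 0 := by
      have h3 : HasDerivAt (fun z : ℂ => z • v) ((1 : ℂ) • v) 0 := (hasDerivAt_id (0 : ℂ)).smul_const v
      rw [one_smul] at h3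
      exact h3.const_add p
    exact (h1.comp_hasDerivAt (0 : ℂ) h2).deriv

end Pool.Agent.MQL

end
end

section

/-!
# SDR Good: good indices of a sequence which does not decay like `exp (- c k / log k)`

`ep = 2 et / log N` for a large `N` with `m N > exp (- et N / log N)`; `n₁` maximises `m i exp (ep i)` over `i ≤ N`, `n` maximises `m i exp (- ep i)` over
`i ≥ n₁`.  Then `m i ≤ m n exp (ep |i - n|)` for all `i`, `N / 4 ≤ n ≤ 2 N`.
-/

set_option autoImplicit false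

open Topology Filter

noncomputable section

namespace Pool.Agent.SDR

/-- the two maximisations -/
theorem exists_two_max {m : ℕ → ℝ} (hm : ∀ k, 0 < m k) {M : ℝ} (hM : ∀ k, m k ≤ M) {ε : ℝ} (hε : 0 < ε) (N : ℕ) :
    ∃ n₁ n : ℕ, n₁ ≤ N ∧ n₁ ≤ n ∧ (∀ i ≤ N, m i * Real.exp (ε * i) ≤ m n₁ * Real.exp (ε * n₁)) ∧
      ∀ i, n₁ ≤ i → m i * Real.exp (-(ε * i)) ≤ m n * Real.exp (-(ε * n)) := by
  obtain ⟨n₁, h1, h2⟩ := Finset.exists_max_image (Finset.range (N + 1)) (fun i => m i * Real.exp (ε * i)) ⟨0, by simp⟩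
  have hn1 : n₁ ≤ N := Nat.lt_succ_iff.1 (Finset.mem_range.1 h1)
  -- the second maximum
  have ht : Tendsto (fun i : ℕ => M * Real.exp (-(ε * i))) atTop (𝓝 0) := by
    have h3 : Tendsto (fun i : ℕ => Real.exp (-(ε * i))) atTop (𝓝 0) := by
      refine Real.tendsto_exp_neg_atTop_nhds_zero.comp ?_
      exact Tendsto.const_mul_atTop hε tendsto_natCast_atTop_atTop
    have h4 := h3.const_mul M
    rwa [mul_zero] at h4
  have hB : 0 < m n₁ * Real.exp (-(ε * n₁)) := mul_pos (hm _) (Real.exp_pos _)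
  obtain ⟨K, hK⟩ := (ht.eventually (gt_mem_nhds hB)).exists_forall_of_atTop
  obtain ⟨n, h3, h4⟩ := Finset.exists_max_image (Finset.Icc n₁ (max n₁ K)) (fun i => m i * Real.exp (-(ε * i)))
    ⟨n₁, Finset.mem_Icc.2 ⟨le_rfl, le_max_left _ _⟩⟩
  refine ⟨n₁, n, hn1, (Finset.mem_Icc.1 h3).1, fun i hi => h2 i (Finset.mem_range.2 (Nat.lt_succ_of_le hi)), fun i hi => ?_⟩
  by_cases hiK : i ≤ max n₁ K
  · exact h4 i (Finset.mem_Icc.2 ⟨hi, hiK⟩)
  · have h5 : K ≤ i := (le_max_right n₁ K).trans (not_le.1 hiK).le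
    have h6 := hK i h5
    have h7 : m i * Real.exp (-(ε * i)) ≤ M * Real.exp (-(ε * i)) := mul_le_mul_of_nonneg_right (hM i) (Real.exp_pos _).le
    have h8 := h4 n₁ (Finset.mem_Icc.2 ⟨le_rfl, le_max_left _ _⟩)
    exact (h7.trans h6.le).trans h8

/-- the two one-sided estimates give a two-sided one -/
theorem le_of_two_max {m : ℕ → ℝ} (hm : ∀ k, 0 < m k) {ε : ℝ} (hε : 0 < ε) {N n₁ n : ℕ} (hn1 : n₁ ≤ N) (hn : n₁ ≤ n)
    (hA : ∀ i ≤ N, m i * Real.exp (ε * i) ≤ m n₁ * Real.exp (ε * n₁))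
    (hB : ∀ i, n₁ ≤ i → m i * Real.exp (-(ε * i)) ≤ m n * Real.exp (-(ε * n))) (i : ℕ) : m i ≤ m n * Real.exp (ε * |(i : ℝ) - n|) := by
  have hB' : ∀ i, n₁ ≤ i → m i ≤ m n * Real.exp (ε * ((i : ℝ) - n)) := by
    intro i hi
    have h1 := mul_le_mul_of_nonneg_right (hB i hi) (Real.exp_pos (ε * i)).le
    rw [mul_assoc, ← Real.exp_add, neg_add_cancel, Real.exp_zero, mul_one, mul_assoc, ← Real.exp_add] at h1
    have h2 : -(ε * (n : ℝ)) + ε * i = ε * ((i : ℝ) - n) := by ring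
    rwa [h2] at h1
  have hnn : (n₁ : ℝ) ≤ n := by exact_mod_cast hn
  by_cases hi : n₁ ≤ i
  · refine (hB' i hi).trans (mul_le_mul_of_nonneg_left (Real.exp_le_exp.2 (mul_le_mul_of_nonneg_left (le_abs_self _) hε.le)) (hm n).le)
  · have hi' : i ≤ n₁ := (not_le.1 hi).le
    have hir : (i : ℝ) ≤ n₁ := by exact_mod_cast hi'
    have h1 := mul_le_mul_of_nonneg_right (hA i (hi'.trans hn1)) (Real.exp_pos (-(ε * i))).le
    rw [mul_assoc, ← Real.exp_add, add_neg_cancel, Real.exp_zero, mul_one, mul_assoc, ← Real.exp_add] at h1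
    have h2 := mul_le_mul_of_nonneg_right (hB' n₁ le_rfl) (Real.exp_pos (ε * n₁ + -(ε * i))).le
    refine (h1.trans h2).trans ?_
    rw [mul_assoc, ← Real.exp_add]
    refine mul_le_mul_of_nonneg_left (Real.exp_le_exp.2 ?_) (hm n).le
    have h3 : |(i : ℝ) - n| = n - i := by
      rw [abs_sub_comm, abs_of_nonneg]
      linarith
    rw [h3]
    nlinarith

/-- **Good indices.** -/
theorem good_index {m : ℕ → ℝ} (hm : ∀ k, 0 < m k) {M : ℝ} (hM : ∀ k, m k ≤ M)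
    (hs : ∀ η : ℝ, 0 < η → ∃ᶠ N : ℕ in atTop, Real.exp (-(η * N / Real.log N)) < m N) (η : ℝ) (hη : 0 < η) (n₀ : ℕ) :
    ∃ n : ℕ, n₀ ≤ n ∧ ∃ ε : ℝ, 0 < ε ∧ ε ≤ η ∧ ε * Real.log n ≤ η ∧ Real.exp (-(ε * n)) ≤ m n ∧
      ∀ i : ℕ, m i ≤ m n * Real.exp (ε * |(i : ℝ) - n|) := by
  -- `θ = η / 4` plays the role of `et`
  obtain ⟨θ, hθ⟩ : ∃ θ, θ = η / 4 := ⟨_, rfl⟩
  have hθ0 : 0 < θ := by rw [hθ]; linarith
  obtain ⟨L, hL⟩ : ∃ L, L = |Real.log M| := ⟨_, rfl⟩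
  have hM0 : 0 < M := (hm 0).trans_le (hM 0)
  -- large `N`
  have hlogN : Tendsto (fun N : ℕ => Real.log N) atTop atTop := Real.tendsto_log_atTop.comp tendsto_natCast_atTop_atTop
  have hlo : Tendsto (fun N : ℕ => Real.log N / N) atTop (𝓝 0) := by
    have h1 : Tendsto (fun x : ℝ => Real.log x / x) atTop (𝓝 0) := by
      have := Real.isLittleO_log_id_atTop.tendsto_div_nhds_zero
      exact this
    exact h1.comp tendsto_natCast_atTop_atTop
  have hlo2 : ∀ᶠ N : ℕ in atTop, L * (Real.log N / N) ≤ θ / 2 := by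
    have h1 := hlo.const_mul L
    rw [mul_zero] at h1
    filter_upwards [h1.eventually (gt_mem_nhds (show (0 : ℝ) < θ / 2 by linarith))] with N hN
    exact hN.le
  obtain ⟨N, hN, ⟨⟨hN1, hN2⟩, hN3⟩, hN4⟩ := ((hs θ hθ0).and_eventually ((((hlogN.eventually_ge_atTop 4).and
    (tendsto_natCast_atTop_atTop.eventually_ge_atTop (4 * (n₀ : ℝ) + 4))).and hlo2).and
      (hlogN.eventually_ge_atTop 1))).exists
  have hNpos : (0 : ℝ) < N := by
    have : (0 : ℝ) ≤ n₀ := Nat.cast_nonneg _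
    linarith
  have hlog : 0 < Real.log N := by linarith
  obtain ⟨ε, hε⟩ : ∃ ε, ε = 2 * θ / Real.log N := ⟨_, rfl⟩
  have hε0 : 0 < ε := by rw [hε]; positivity
  have hεlog : ε * Real.log N = 2 * θ := by rw [hε, div_mul_cancel₀ _ hlog.ne']
  obtain ⟨n₁, n, hn1, hn, hA, hB⟩ := exists_two_max hm hM hε0 N
  have hall := le_of_two_max hm hε0 hn1 hn hA hB
  -- `L ≤ ε N / 4`
  have hLN : L ≤ ε * N / 4 := by
    have h1 : L * Real.log N ≤ θ / 2 * N := by
      rw [mul_div_assoc'] at hN3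
      rwa [div_le_iff₀ hNpos] at hN3
    have h2 : L * Real.log N ≤ (ε * N / 4) * Real.log N := by
      have h3 : (ε * N / 4) * Real.log N = (ε * Real.log N) * N / 4 := by ring
      rw [h3, hεlog]
      linarith
    exact le_of_mul_le_mul_right h2 hlog
  -- the value at `N`
  have hmN : Real.exp (-(ε * N / 2)) ≤ m N := by
    have h1 : ε * N / 2 = θ * N / Real.log N := by
      rw [hε]
      field_simp
    rw [h1]
    exact hN.le
  have hexpM : ∀ k, m k ≤ Real.exp L := by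
    intro k
    refine (hM k).trans ?_
    rw [← Real.exp_log hM0, hL, Real.exp_log hM0]
    exact Real.exp_le_exp.2 (le_abs_self _) |>.trans_eq' (Real.exp_log hM0)
  -- `n₁ ≥ N / 4`
  have hA1 : Real.exp (ε * N / 2) ≤ m n₁ * Real.exp (ε * n₁) := by
    refine le_trans ?_ (hA N le_rfl)
    refine le_trans ?_ (mul_le_mul_of_nonneg_right hmN (Real.exp_pos _).le)
    rw [← Real.exp_add]
    exact Real.exp_le_exp.2 (by linarith)
  have hn1N : (N : ℝ) / 4 ≤ n₁ := by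
    have h1 : Real.exp (ε * N / 2) ≤ Real.exp (L + ε * n₁) := by
      rw [Real.exp_add]
      exact hA1.trans (mul_le_mul_of_nonneg_right (hexpM _) (Real.exp_pos _).le)
    have h2 := Real.exp_le_exp.1 h1
    have h3 : ε * (N / 4) ≤ ε * n₁ := by linarith
    exact le_of_mul_le_mul_left h3 hε0
  -- `n ≤ 2 N`
  have hn2N : (n : ℝ) ≤ 2 * N := by
    have h1 : Real.exp (-(ε * N / 2) + -(ε * N)) ≤ Real.exp (L + -(ε * n)) := by
      rw [Real.exp_add, Real.exp_add]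
      refine (mul_le_mul_of_nonneg_right hmN (Real.exp_pos _).le).trans ((hB N hn1).trans ?_)
      exact mul_le_mul_of_nonneg_right (hexpM _) (Real.exp_pos _).le
    have h2 := Real.exp_le_exp.1 h1
    have h3 : ε * n ≤ ε * (2 * N) := by
      have h4 : 0 ≤ ε * N := by positivity
      linarith
    exact le_of_mul_le_mul_left h3 hε0
  have hnn1 : (n₁ : ℝ) ≤ n := by exact_mod_cast hn
  refine ⟨n, ?_, ε, hε0, ?_, ?_, ?_, hall⟩
  · have h1 : (n₀ : ℝ) ≤ n := by linarith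
    exact_mod_cast h1
  · have h1 : ε * 4 ≤ ε * Real.log N := mul_le_mul_of_nonneg_left hN1 hε0.le
    rw [hεlog] at h1
    linarith
  · have h1 : Real.log n ≤ Real.log N + Real.log 2 := by
      rw [← Real.log_mul hNpos.ne' two_ne_zero]
      have h2 : (0 : ℝ) < n := by linarith
      exact Real.log_le_log h2 (by linarith)
    have h2 : Real.log 2 ≤ Real.log N := by
      have h3 : Real.log 2 ≤ 1 := by
        have := Real.log_two_lt_d9
        linarith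
      linarith
    have h3 : ε * Real.log n ≤ ε * (2 * Real.log N) := mul_le_mul_of_nonneg_left (by linarith) hε0.le
    have h4 : ε * (2 * Real.log N) = 4 * θ := by
      have : ε * (2 * Real.log N) = 2 * (ε * Real.log N) := by ring
      rw [this, hεlog]
      ring
    rw [h4] at h3
    linarith
  · -- `m n ≥ exp (- ε n)`
    have h1 : 1 ≤ m n₁ * Real.exp (ε * n₁) := by
      refine le_trans ?_ hA1
      exact Real.one_le_exp (by positivity)
    have h2 := hB n₁ le_rfl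
    have h3 : m n₁ ≤ m n * Real.exp (-(ε * n) + ε * n₁) := by
      have h4 := mul_le_mul_of_nonneg_right h2 (Real.exp_pos (ε * n₁)).le
      rwa [mul_assoc, ← Real.exp_add, neg_add_cancel, Real.exp_zero, mul_one, mul_assoc, ← Real.exp_add] at h4
    have h5 : 1 ≤ m n * Real.exp (ε * n) := by
      have h6 := mul_le_mul_of_nonneg_right h3 (Real.exp_pos (ε * n₁)).le
      rw [mul_assoc, ← Real.exp_add] at h6
      refine h1.trans (h6.trans (mul_le_mul_of_nonneg_left (Real.exp_le_exp.2 ?_) (hm n).le))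
      nlinarith
    have h6 := mul_le_mul_of_nonneg_right h5 (Real.exp_pos (-(ε * n))).le
    rwa [one_mul, mul_assoc, ← Real.exp_add, add_neg_cancel, Real.exp_zero, mul_one] at h6

/-- **Good indices**, as a sequence. -/
theorem good_seq {m : ℕ → ℝ} (hm : ∀ k, 0 < m k) {M : ℝ} (hM : ∀ k, m k ≤ M)
    (hs : ∀ η : ℝ, 0 < η → ∃ᶠ N : ℕ in atTop, Real.exp (-(η * N / Real.log N)) < m N) :
    ∃ (n : ℕ → ℕ) (ε : ℕ → ℝ), StrictMono n ∧ (∀ j, 0 < ε j) ∧ Tendsto ε atTop (𝓝 0) ∧ Tendsto (fun j => ε j * Real.log (n j)) atTop (𝓝 0) ∧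
      ∀ j, Real.exp (-(ε j * n j)) ≤ m (n j) ∧ ∀ i : ℕ, m i ≤ m (n j) * Real.exp (ε j * |(i : ℝ) - n j|) := by
  have hg := good_index hm hM hs
  have hpos : ∀ j : ℕ, (0 : ℝ) < 1 / (j + 1) := fun j => by positivity
  have h1 : ∀ (j n₀ : ℕ), ∃ n : ℕ, n₀ ≤ n ∧ ∃ ε : ℝ, 0 < ε ∧ ε ≤ 1 / (j + 1) ∧ ε * Real.log n ≤ 1 / (j + 1) ∧ Real.exp (-(ε * n)) ≤ m n ∧
      ∀ i : ℕ, m i ≤ m n * Real.exp (ε * |(i : ℝ) - n|) := fun j n₀ => hg (1 / (j + 1)) (hpos j) n₀
  choose f hf1 g hg1 hg2 hg3 hg4 hg5 using h1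
  obtain ⟨n, hn0, hn⟩ : ∃ n : ℕ → ℕ, n 0 = f 0 1 ∧ ∀ j, n (j + 1) = f (j + 1) (n j + 1) :=
    ⟨fun j => Nat.rec (f 0 1) (fun j a => f (j + 1) (a + 1)) j, rfl, fun j => rfl⟩
  obtain ⟨b, hb0, hb⟩ : ∃ b : ℕ → ℕ, b 0 = 1 ∧ ∀ j, b (j + 1) = n j + 1 :=
    ⟨fun j => Nat.casesOn j 1 fun j => n j + 1, rfl, fun j => rfl⟩
  have hnb : ∀ j, n j = f j (b j) := by
    intro j
    cases j with
    | zero => rw [hn0, hb0]
    | succ j => rw [hn, hb]
  have hn1 : ∀ j, 1 ≤ n j := by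
    intro j
    rw [hnb]
    refine le_trans ?_ (hf1 j (b j))
    cases j with
    | zero => rw [hb0]
    | succ j => rw [hb]; omega
  have hz : Tendsto (fun j : ℕ => (1 : ℝ) / (j + 1)) atTop (𝓝 0) := tendsto_one_div_add_atTop_nhds_zero_nat
  refine ⟨n, fun j => g j (b j), strictMono_nat_of_lt_succ fun j => ?_, fun j => hg1 _ _, ?_, ?_, fun j => ?_⟩
  · rw [hn]
    exact Nat.lt_of_succ_le (hf1 (j + 1) (n j + 1))
  · exact squeeze_zero (fun j => (hg1 _ _).le) (fun j => hg2 j (b j)) hz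
  · refine squeeze_zero (fun j => mul_nonneg (hg1 _ _).le (Real.log_nonneg (by exact_mod_cast hn1 j))) (fun j => ?_) hz
    rw [hnb]
    exact hg3 j (b j)
  · rw [hnb]
    exact ⟨hg4 _ _, hg5 _ _⟩

/-- the dichotomy: fast decay or good indices -/
theorem decay_or_good {m : ℕ → ℝ} (hm : ∀ k, 0 < m k) {M : ℝ} (hM : ∀ k, m k ≤ M) :
    (∃ c : ℝ, 0 < c ∧ ∀ᶠ k : ℕ in atTop, m k ≤ Real.exp (-(c * k / Real.log k))) ∨
      ∃ (n : ℕ → ℕ) (ε : ℕ → ℝ), StrictMono n ∧ (∀ j, 0 < ε j) ∧ Tendsto ε atTop (𝓝 0) ∧ Tendsto (fun j => ε j * Real.log (n j)) atTop (𝓝 0) ∧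
        ∀ j, Real.exp (-(ε j * n j)) ≤ m (n j) ∧ ∀ i : ℕ, m i ≤ m (n j) * Real.exp (ε j * |(i : ℝ) - n j|) := by
  by_cases h : ∀ η : ℝ, 0 < η → ∃ᶠ N : ℕ in atTop, Real.exp (-(η * N / Real.log N)) < m N
  · exact Or.inr (good_seq hm hM h)
  · push Not at h
    obtain ⟨c, hc, h1⟩ := h
    exact Or.inl ⟨c, hc, h1⟩

end Pool.Agent.SDR

end
end

section

/-!
# SR3 EIter: a halving property with an error `r ^ (-γ)` gives a power decay
-/

set_option autoImplicit false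

open Topology Filter Metric

noncomputable section

namespace Pool.Agent.SR3.BE

theorem iter {Q : ℝ → ℝ → Prop} (mono : ∀ r a b, a ≤ b → Q r a → Q r b) {c₁ C₁ R₁ B₀ γ : ℝ} (hc : 0 < c₁) (hc1 : c₁ < 1) (hC : 0 ≤ C₁)
    (hR : 0 < R₁) (hB : 0 < B₀) (hγ : 0 < γ) (h0 : ∀ r, R₁ ≤ r → Q r B₀)
    (hs : ∀ a r₁, 0 ≤ a → a ≤ B₀ → R₁ ≤ r₁ → (∀ r, r₁ ≤ r → Q r a) → ∀ r, r₁ / c₁ ≤ r → Q r (a / 2 + C₁ * r ^ (-γ))) :
    ∃ α C' R' : ℝ, 0 < α ∧ α ≤ 1 / 2 ∧ 0 < C' ∧ R₁ ≤ R' ∧ ∀ r, R' ≤ r → Q r (C' * r ^ (-α)) := by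
  have hlog : Real.log c₁ < 0 := Real.log_neg hc hc1
  have hlog2 : Real.log (3 / 4) < 0 := Real.log_neg (by norm_num) (by norm_num)
  set α : ℝ := min (1 / 2) (min γ (Real.log (3 / 4) / Real.log c₁)) with hα
  have hα0 : 0 < α := lt_min (by norm_num) (lt_min hγ (div_pos_of_neg_of_neg hlog2 hlog))
  have hα1 : α ≤ 1 / 2 := min_le_left _ _
  have hα2 : α ≤ γ := (min_le_right _ _).trans (min_le_left _ _)
  have hα3 : α ≤ Real.log (3 / 4) / Real.log c₁ := (min_le_right _ _).trans (min_le_right _ _)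
  set s : ℝ := c₁ ^ α with hsdef
  have hs0 : 0 < s := Real.rpow_pos_of_pos hc α
  have hs34 : 3 / 4 ≤ s := by
    have h1 : Real.log (3 / 4) ≤ α * Real.log c₁ := by
      rw [le_div_iff_of_neg hlog] at hα3
      exact hα3
    have h2 : Real.log (3 / 4) ≤ Real.log s := by
      rw [hsdef, Real.log_rpow hc]
      exact h1
    exact (Real.log_le_log_iff (by norm_num) hs0).1 h2
  have hs1 : s ≤ 1 := Real.rpow_le_one hc.le hc1.le hα0.le
  -- the radius
  obtain ⟨R', hR'1, hR'2⟩ : ∃ R' : ℝ, R₁ ≤ R' ∧ C₁ * R' ^ (-γ) ≤ B₀ / 2 := by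
    have h1 : Tendsto (fun r : ℝ => C₁ * r ^ (-γ)) atTop (𝓝 (C₁ * 0)) := (tendsto_rpow_neg_atTop hγ).const_mul C₁
    rw [mul_zero] at h1
    have h2 := h1.eventually (gt_mem_nhds (show (0 : ℝ) < B₀ / 2 by positivity))
    obtain ⟨R', h3, h4⟩ := (h2.and (eventually_ge_atTop R₁)).exists
    exact ⟨R', h4, h3.le⟩
  have hR'0 : 0 < R' := lt_of_lt_of_le hR hR'1
  have key : ∀ n : ℕ, ∀ r, R' / c₁ ^ n ≤ r → Q r (min B₀ (2 * B₀ * s ^ n)) := by
    intro n
    induction n with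
    | zero =>
      intro r hr
      rw [pow_zero, div_one] at hr
      rw [pow_zero, mul_one, min_eq_left (by linarith)]
      exact h0 r (hR'1.trans hr)
    | succ n ih =>
      intro r hr
      have hcn : 0 < c₁ ^ n := pow_pos hc n
      have hcn1 : c₁ ^ n ≤ 1 := pow_le_one₀ hc.le hc1.le
      have hrn : R₁ ≤ R' / c₁ ^ n := by
        rw [le_div_iff₀ hcn]
        nlinarith
      have hr' : R' / c₁ ^ n / c₁ ≤ r := by
        rw [div_div, ← pow_succ]
        exact hr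
      have hr0 : 0 < r := lt_of_lt_of_le (by positivity) hr
      have ha0 : 0 ≤ min B₀ (2 * B₀ * s ^ n) := le_min hB.le (by positivity)
      have h1 := hs _ _ ha0 (min_le_left _ _) hrn ih r hr'
      refine mono _ _ _ ?_ h1
      -- the error
      have h2 : C₁ * r ^ (-γ) ≤ B₀ / 2 * s ^ (n + 1) := by
        have h3 : r ^ (-γ) ≤ (R' / c₁ ^ (n + 1)) ^ (-γ) :=
          Real.rpow_le_rpow_of_nonpos (by positivity) hr (by linarith)
        have h4 : (R' / c₁ ^ (n + 1)) ^ (-γ) = R' ^ (-γ) * (c₁ ^ γ) ^ (n + 1) := by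
          rw [Real.div_rpow hR'0.le (by positivity), Real.rpow_neg (by positivity : (0 : ℝ) ≤ c₁ ^ (n + 1)), div_inv_eq_mul]
          congr 1
          rw [← Real.rpow_natCast, ← Real.rpow_mul hc.le, ← Real.rpow_natCast, ← Real.rpow_mul hc.le, mul_comm]
        have h5 : c₁ ^ γ ≤ s := Real.rpow_le_rpow_of_exponent_ge hc hc1.le hα2
        have h6 : (c₁ ^ γ) ^ (n + 1) ≤ s ^ (n + 1) := pow_le_pow_left₀ (Real.rpow_nonneg hc.le γ) h5 _
        calc C₁ * r ^ (-γ) ≤ C₁ * (R' ^ (-γ) * (c₁ ^ γ) ^ (n + 1)) := by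
              rw [← h4]
              exact mul_le_mul_of_nonneg_left h3 hC
          _ = (C₁ * R' ^ (-γ)) * (c₁ ^ γ) ^ (n + 1) := by ring
          _ ≤ B₀ / 2 * s ^ (n + 1) := mul_le_mul hR'2 h6 (by positivity) (by positivity)
      have hsn1 : s ^ (n + 1) ≤ 1 := pow_le_one₀ hs0.le hs1
      have hsn : s ^ n ≤ 4 / 3 * s ^ (n + 1) := by
        rw [pow_succ]
        have : 0 ≤ s ^ n := by positivity
        nlinarith
      have hsn0 : 0 ≤ s ^ (n + 1) := by positivity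
      apply le_min
      · have h7 : min B₀ (2 * B₀ * s ^ n) ≤ B₀ := min_le_left _ _
        have h8 : B₀ / 2 * s ^ (n + 1) ≤ B₀ / 2 * 1 := mul_le_mul_of_nonneg_left hsn1 (by positivity)
        linarith
      · have h7 : min B₀ (2 * B₀ * s ^ n) ≤ 2 * B₀ * s ^ n := min_le_right _ _
        have h8 : B₀ * s ^ n ≤ B₀ * (4 / 3 * s ^ (n + 1)) := mul_le_mul_of_nonneg_left hsn hB.le
        have h9 : 0 ≤ B₀ * s ^ (n + 1) := by positivity
        linarith
  refine ⟨α, 2 * B₀ * (R' / c₁) ^ α, R', hα0, hα1, by positivity, hR'1, ?_⟩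
  intro r hr
  have hr0 : 0 < r := lt_of_lt_of_le hR'0 hr
  have hx : 1 ≤ r / R' := by rw [le_div_iff₀ hR'0, one_mul]; exact hr
  have hy : 1 < 1 / c₁ := by rw [lt_div_iff₀ hc, one_mul]; exact hc1
  obtain ⟨n, hn1, hn2⟩ := exists_nat_pow_near hx hy
  have hcn : 0 < c₁ ^ n := pow_pos hc n
  have hr1 : R' / c₁ ^ n ≤ r := by
    rw [one_div, inv_pow, le_div_iff₀ hR'0] at hn1
    rw [div_le_iff₀ hcn]
    calc R' = (c₁ ^ n)⁻¹ * R' * c₁ ^ n := by field_simp
      _ ≤ r * c₁ ^ n := mul_le_mul_of_nonneg_right hn1 hcn.le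
  refine mono _ _ _ ?_ (key n r hr1)
  refine (min_le_right _ _).trans ?_
  rw [mul_assoc (2 * B₀) _ _]
  apply mul_le_mul_of_nonneg_left _ (by positivity : (0 : ℝ) ≤ 2 * B₀)
  have h1 : s ^ n = (c₁ ^ n) ^ α := by
    rw [hsdef, ← Real.rpow_natCast, ← Real.rpow_mul hc.le, ← Real.rpow_natCast, ← Real.rpow_mul hc.le, mul_comm]
  have h2 : c₁ ^ n ≤ R' / c₁ / r := by
    rw [one_div, inv_pow, div_lt_iff₀ hR'0, pow_succ] at hn2
    rw [div_div, le_div_iff₀ (by positivity)]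
    have h3 : r * (c₁ ^ n * c₁) < R' := by
      calc r * (c₁ ^ n * c₁) < (c₁ ^ n * c₁)⁻¹ * R' * (c₁ ^ n * c₁) := mul_lt_mul_of_pos_right hn2 (by positivity)
        _ = R' := by field_simp
    nlinarith
  have h3 : (R' / c₁) ^ α * r ^ (-α) = (R' / c₁ / r) ^ α := by
    rw [Real.div_rpow (by positivity) hr0.le, Real.rpow_neg hr0.le]
    exact (div_eq_mul_inv _ _).symm
  rw [h1, h3]
  exact Real.rpow_le_rpow hcn.le h2 hα0.le

end Pool.Agent.SR3.BE

end
end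

section

/-!
# SR3 F Defs: comparison functions

Block F.  `r` is the potential of a curve (`log ‖F‖ + const`), `d` the distance to the good points; everything about `r` is used only where `κ ≤ d`.
`gg u u` is the square of the length of the gradient.
-/

set_option autoImplicit false

open Topology Filter Metric Laplacian InnerProductSpace

noncomputable section

namespace Pool.Agent.SR3.F

open Pool.Agent.H30M (gg)

/-- The potential `r` of a curve; `d` is the distance to the good points. -/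
structure Pot (r d : ℂ → ℝ) (κ c B : ℝ) : Prop where
  smooth : ContDiff ℝ 2 r
  one_le : ∀ z, 1 ≤ r z
  d0 : ∀ z, 0 ≤ d z
  lip : ∀ z w, |d z - d w| ≤ ‖z - w‖
  le : ∀ z, r z ≤ B * (1 + d z)
  lower : ∀ z, κ ≤ d z → c * d z ≤ r z
  lap : ∀ z, κ ≤ d z → Δ r z ≤ B / d z ^ 2
  grad : ∀ z, κ ≤ d z → c ≤ gg r r z

/-- A superharmonic potential. -/
structure Hat (r d : ℂ → ℝ) (κ c B : ℝ) : Prop where
  smooth : ContDiff ℝ 2 r
  one_le : ∀ z, 1 ≤ r z
  d0 : ∀ z, 0 ≤ d z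
  lip : ∀ z w, |d z - d w| ≤ ‖z - w‖
  le : ∀ z, r z ≤ B * (1 + d z)
  lap : ∀ z, κ ≤ d z → Δ r z ≤ 0
  grad : ∀ z, κ ≤ d z → c ≤ gg r r z

/-- `r + A log r` -/
def rh (A : ℝ) (r : ℂ → ℝ) (z : ℂ) : ℝ := r z + A * Real.log (r z)

/-- `(1 + |z|²)^(γ/2) + A / (1 - γ) r^γ` -/
def Sg (A γ : ℝ) (r : ℂ → ℝ) (z : ℂ) : ℝ := (1 + ‖z‖ ^ 2) ^ (γ / 2) + A / (1 - γ) * r z ^ γ

end Pool.Agent.SR3.F

end
end

section

/-!
# SR3 F Hat: the superharmonic potential

`Δ (r + A log r) = (1 + A / r) Δ r - A gg r r / r²`, `gg (rh) (rh) = (1 + A / r)² gg r r`; `A = 8 B³ / c`, `κ' = max κ (A / c)`.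
-/

set_option autoImplicit false

open Topology Filter Metric Laplacian InnerProductSpace

noncomputable section

namespace Pool.Agent.SR3.F

open Pool.Agent.H30M (gg gg_comp gg_comm lap_comp)

theorem hasDerivAt_phi (A : ℝ) {t : ℝ} (ht : 0 < t) : HasDerivAt (fun t : ℝ => t + A * Real.log t) (1 + A / t) t := by
  have h1 := (hasDerivAt_id t).add ((Real.hasDerivAt_log ht.ne').const_mul A)
  rwa [← div_eq_mul_inv] at h1

theorem deriv_phi (A : ℝ) {t : ℝ} (ht : 0 < t) : deriv (fun t : ℝ => t + A * Real.log t) t = 1 + A / t := (hasDerivAt_phi A ht).deriv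

theorem deriv2_phi (A : ℝ) {t : ℝ} (ht : 0 < t) : deriv (deriv fun t : ℝ => t + A * Real.log t) t = -(A / t ^ 2) := by
  have h1 : deriv (fun t : ℝ => t + A * Real.log t) =ᶠ[𝓝 t] fun t => 1 + A * t⁻¹ := by
    filter_upwards [eventually_gt_nhds ht] with s hs
    rw [deriv_phi A hs, div_eq_mul_inv]
  rw [h1.deriv_eq]
  have h2 : HasDerivAt (fun t : ℝ => 1 + A * t⁻¹) (A * -(t ^ 2)⁻¹) t := ((hasDerivAt_inv ht.ne').const_mul A).const_add 1
  rw [h2.deriv]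
  ring

theorem contDiffAt_phi (A : ℝ) {t : ℝ} (ht : 0 < t) : ContDiffAt ℝ 2 (fun t : ℝ => t + A * Real.log t) t :=
  contDiffAt_id.add (contDiffAt_const.mul (Real.contDiffAt_log.2 ht.ne'))

/-- the Laplacian of `rh` -/
theorem lap_rh (A : ℝ) {r : ℂ → ℝ} {z : ℂ} (hr : ContDiffAt ℝ 2 r z) (h0 : 0 < r z) :
    Δ (rh A r) z = (1 + A / r z) * Δ r z - A / r z ^ 2 * gg r r z := by
  have h1 := lap_comp (contDiffAt_phi A h0) hr
  rw [deriv_phi A h0, deriv2_phi A h0] at h1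
  have h2 : Δ (rh A r) z = _ := h1
  rw [h2]
  ring

/-- the gradient of `rh` -/
theorem gg_rh (A : ℝ) {r : ℂ → ℝ} {z : ℂ} (hr : ContDiffAt ℝ 2 r z) (h0 : 0 < r z) :
    gg (rh A r) (rh A r) z = (1 + A / r z) ^ 2 * gg r r z := by
  have hd : DifferentiableAt ℝ r z := hr.differentiableAt (by norm_num)
  have hφ : DifferentiableAt ℝ (fun t : ℝ => t + A * Real.log t) (r z) := (hasDerivAt_phi A h0).differentiableAt
  have h1 : gg (rh A r) (rh A r) z = deriv (fun t : ℝ => t + A * Real.log t) (r z) * gg r (rh A r) z := gg_comp hφ hd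
  have h2 : gg (rh A r) r z = deriv (fun t : ℝ => t + A * Real.log t) (r z) * gg r r z := gg_comp hφ hd
  rw [h1, gg_comm r (rh A r) z, h2, deriv_phi A h0]
  ring

theorem contDiff_rh (A : ℝ) {r : ℂ → ℝ} (hr : ContDiff ℝ 2 r) (h0 : ∀ z, 1 ≤ r z) : ContDiff ℝ 2 (rh A r) :=
  hr.add (contDiff_const.mul (hr.log fun z => (zero_lt_one.trans_le (h0 z)).ne'))

theorem le_rh {A : ℝ} (hA : 0 ≤ A) {r : ℂ → ℝ} {z : ℂ} (h0 : 1 ≤ r z) : r z ≤ rh A r z := by
  have := mul_nonneg hA (Real.log_nonneg h0)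
  unfold rh
  linarith

theorem rh_le {A : ℝ} (hA : 0 ≤ A) {r : ℂ → ℝ} {z : ℂ} (h0 : 1 ≤ r z) : rh A r z ≤ (1 + A) * r z := by
  have h1 := Real.log_le_sub_one_of_pos (zero_lt_one.trans_le h0)
  have h2 : A * Real.log (r z) ≤ A * r z := mul_le_mul_of_nonneg_left (by linarith) hA
  unfold rh
  linarith

/-- MODULE Hat.  `Δ (r + A log r) = (1 + A / r) Δ r - A gg r r / r²`, `gg (rh) (rh) = (1 + A / r)² gg r r`; `A = 8 B³ / c`, `κ'` with `A ≤ c κ'`. -/
theorem exists_hat {κ c B : ℝ} (hκ : 1 ≤ κ) (hc : 0 < c) (hB : 1 ≤ B) :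
    ∃ A κ' B' : ℝ, 0 ≤ A ∧ κ ≤ κ' ∧ 1 ≤ B' ∧ ∀ r d : ℂ → ℝ, Pot r d κ c B → Hat (rh A r) d κ' c B' := by
  have hB0 : 0 < B := by linarith
  have hA : 0 ≤ 8 * B ^ 3 / c := by positivity
  refine ⟨8 * B ^ 3 / c, max κ (8 * B ^ 3 / c / c), (1 + 8 * B ^ 3 / c) * B, hA, le_max_left _ _, ?_, fun r d hP => ?_⟩
  · calc (1 : ℝ) = 1 * 1 := (mul_one 1).symm
      _ ≤ (1 + 8 * B ^ 3 / c) * B := mul_le_mul (by linarith) hB zero_le_one (by linarith)
  set A := 8 * B ^ 3 / c with hA_def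
  have hr0 : ∀ z, 0 < r z := fun z => zero_lt_one.trans_le (hP.one_le z)
  refine ⟨contDiff_rh A hP.smooth hP.one_le, fun z => (hP.one_le z).trans (le_rh hA (hP.one_le z)), hP.d0, hP.lip, fun z => ?_, fun z hz => ?_, fun z hz => ?_⟩
  · calc rh A r z ≤ (1 + A) * r z := rh_le hA (hP.one_le z)
      _ ≤ (1 + A) * (B * (1 + d z)) := mul_le_mul_of_nonneg_left (hP.le z) (by linarith)
      _ = (1 + A) * B * (1 + d z) := by ring
  · have hz1 : κ ≤ d z := (le_max_left _ _).trans hz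
    have hz2 : A / c ≤ d z := (le_max_right _ _).trans hz
    have hd1 : 1 ≤ d z := hκ.trans hz1
    have hd0 : 0 < d z := by linarith
    rw [lap_rh A hP.smooth.contDiffAt (hr0 z)]
    have h1 : A / r z ≤ 1 := by
      rw [div_le_one (hr0 z)]
      have h2 := hP.lower z hz1
      have h3 : A ≤ c * d z := by
        rw [div_le_iff₀ hc] at hz2
        linarith
      linarith
    have h2 : (1 + A / r z) * Δ r z ≤ 2 * (B / d z ^ 2) := by
      have h3 : (1 + A / r z) * Δ r z ≤ (1 + A / r z) * (B / d z ^ 2) :=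
        mul_le_mul_of_nonneg_left (hP.lap z hz1) (by
          have : 0 ≤ A / r z := div_nonneg hA (hr0 z).le
          linarith)
      have h4 : (1 + A / r z) * (B / d z ^ 2) ≤ 2 * (B / d z ^ 2) := mul_le_mul_of_nonneg_right (by linarith) (by positivity)
      linarith
    have h5 : 2 * (B / d z ^ 2) ≤ A / r z ^ 2 * gg r r z := by
      have h6 : r z ≤ 2 * B * d z := (hP.le z).trans (by nlinarith)
      have h7 : r z ^ 2 ≤ (2 * B * d z) ^ 2 := pow_le_pow_left₀ (hr0 z).le h6 2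
      have h8 : A / (2 * B * d z) ^ 2 ≤ A / r z ^ 2 := div_le_div_of_nonneg_left hA (pow_pos (hr0 z) 2) h7
      have h9 : A / (2 * B * d z) ^ 2 * c ≤ A / r z ^ 2 * gg r r z :=
        mul_le_mul h8 (hP.grad z hz1) hc.le (by positivity)
      refine le_trans (le_of_eq ?_) h9
      rw [hA_def]
      field_simp
      ring
    linarith
  · have hz1 : κ ≤ d z := (le_max_left _ _).trans hz
    rw [gg_rh A hP.smooth.contDiffAt (hr0 z)]
    have h1 : 0 ≤ A / r z := div_nonneg hA (hr0 z).le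
    have h2 : (1 : ℝ) ≤ (1 + A / r z) ^ 2 := by nlinarith
    have h3 := hP.grad z hz1
    calc c ≤ 1 * gg r r z := by linarith
      _ ≤ (1 + A / r z) ^ 2 * gg r r z := mul_le_mul_of_nonneg_right h2 (by linarith)

end Pool.Agent.SR3.F

end
end

section

/-!
# SR3 G Defs: compact families of entire curves, chains of good points, followed pairs

Everything is abstract: `KK` is a set of entire functions with values in the normed space `V`.
-/

set_option autoImplicit false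

open Topology Filter Metric

noncomputable section

namespace Pool.Agent.SR3.G

variable {V : Type} [NormedAddCommGroup V] [NormedSpace ℂ V]

/-- the translate `F (· + a)` -/
def sh (a : ℂ) (F : ℂ → V) : ℂ → V := fun z => F (z + a)

/-- the mirror image `F (- ·)` -/
def ng (F : ℂ → V) : ℂ → V := fun z => F (-z)

/-- the distance of two curves on the disc of radius `r` -/
def dQ (r : ℝ) (F H : ℂ → V) : ℝ := sSup ((fun w => ‖H w - F w‖) '' closedBall 0 r)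

/-- the distance of `F (a + ·)` and `H (a + b + ·)` on the disc of radius `r` -/
def dev (r : ℝ) (F H : ℂ → V) (a b : ℂ) : ℝ := dQ r (sh a F) (sh (a + b) H)

/-- `(2 + r) ^ γ` -/
def pw (γ r : ℝ) : ℝ := (2 + r) ^ γ

/-- A compact family of entire curves whose bounded parts are near the real axis. -/
structure Sys (KK : Set (ℂ → V)) (M γ : ℝ) : Prop where
  γ_pos : 0 < γ
  γ_lt : γ < 1
  nonempty : ∃ F ∈ KK, ‖F 0‖ ≤ M
  diff : ∀ F ∈ KK, Differentiable ℂ F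
  imm : ∀ F ∈ KK, ∀ z, deriv F z ≠ 0
  shift : ∀ F ∈ KK, ∀ a : ℂ, sh a F ∈ KK
  cpt : ∀ 𝒰 : Ultrafilter ℕ, (𝒰 : Filter ℕ) ≤ atTop → ∀ (B : ℝ) (F : ℕ → ℂ → V), (∀ k, F k ∈ KK) → (∀ k, ‖F k 0‖ ≤ B) →
    ∃ H ∈ KK, TendstoLocallyUniformlyOn F H 𝒰 Set.univ
  grow : ∀ B : ℝ, ∃ C : ℝ, ∀ F ∈ KK, ‖F 0‖ ≤ B → ∀ z : ℂ, ‖F z‖ ≤ Real.exp (C * (|z.im| + pw γ ‖z‖))
  thin : ∀ B : ℝ, ∃ C : ℝ, ∀ F ∈ KK, ‖F 0‖ ≤ B → ∀ z : ℂ, ‖F z‖ ≤ B → |z.im| ≤ C * pw γ ‖z‖
  dense : ∃ l : ℝ, ∀ F ∈ KK, ‖F 0‖ ≤ M → ∀ x : ℝ, ∃ z : ℂ, |z.re - x| ≤ l ∧ ‖F z‖ ≤ M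

/-- a chain of points where `‖F‖ ≤ M` -/
structure IsChain (M L : ℝ) (F : ℂ → V) (z : ℤ → ℂ) : Prop where
  zero : z 0 = 0
  good : ∀ k, ‖F (z k)‖ ≤ M
  re : ∀ k, 1 ≤ (z (k + 1)).re - (z k).re
  norm : ∀ k, ‖z (k + 1) - z k‖ ≤ L

/-- **Rigidity** (block F): if `(H n - F n) / s n` is small on the tube of radius `r` around the chain, then the limit is a multiple of `F'`. -/
def Rigid (KK : Set (ℂ → V)) (M L r γ : ℝ) : Prop :=
  ∀ 𝒰 : Ultrafilter ℕ, (𝒰 : Filter ℕ) ≤ atTop → ∀ (F H : ℕ → ℂ → V) (z : ℕ → ℤ → ℂ) (s ε N : ℕ → ℝ) (A : ℝ),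
    (∀ n, F n ∈ KK) → (∀ n, H n ∈ KK) → (∀ n, IsChain M L (F n) (z n)) → (∀ n, 0 < s n) → Tendsto s 𝒰 (𝓝 0) → (∀ n, 0 ≤ ε n) → (∀ n, 0 ≤ N n) →
    Tendsto (fun n => ε n * Real.log (2 + N n)) 𝒰 (𝓝 0) →
    (∀ (n : ℕ) (k : ℤ) (w : ℂ), ‖w‖ ≤ r →
      ‖H n (z n k + w) - F n (z n k + w)‖ ≤ s n * Real.exp (A * pw γ |(k : ℝ)| + ε n * min |(k : ℝ)| (N n))) →
    ∃ F₀ ∈ KK, ∃ c : ℂ, TendstoLocallyUniformlyOn F F₀ 𝒰 Set.univ ∧
      TendstoLocallyUniformlyOn (fun n z => ((s n : ℂ)⁻¹) • (H n z - F n z)) (fun z => c • deriv F₀ z) 𝒰 Set.univ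

/-- **Log integral** (block F): two curves which are very close along one half of a chain are equal. -/
def LogI (KK : Set (ℂ → V)) (M L r : ℝ) : Prop :=
  ∀ F ∈ KK, ∀ H ∈ KK, ∀ z : ℤ → ℂ, IsChain M L F z → ∀ c C : ℝ, 0 < c →
    (∀ (k : ℕ) (w : ℂ), ‖w‖ ≤ r → ‖H (z k + w) - F (z k + w)‖ ≤ Real.exp (C - c * (k / Real.log (2 + k)))) → H = F

/-- the constants -/
structure Cst (KK : Set (ℂ → V)) (M L r b₀ c₁ C₂ : ℝ) : Prop where
  L1 : 1 ≤ L
  rL : L + 1 ≤ r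
  b₀_pos : 0 < b₀
  b₀_le : b₀ ≤ 1 / 8
  c₁_pos : 0 < c₁
  c₁_le : c₁ ≤ 1
  C₂_ge : 1 ≤ C₂
  chain : ∀ F ∈ KK, ‖F 0‖ ≤ M → ∃ z, IsChain M L F z
  lip : ∀ F ∈ KK, ‖F 0‖ ≤ M + 1 → ∀ w b : ℂ, ‖w‖ ≤ r → ‖b‖ ≤ 2 → ‖F (w + b) - F w‖ ≤ C₂ * ‖b‖
  inj : ∀ F ∈ KK, ‖F 0‖ ≤ M + 1 → ∀ b : ℂ, ‖b‖ ≤ 4 * b₀ → ∃ w : ℂ, ‖w‖ ≤ 1 ∧ c₁ * ‖b‖ ≤ ‖F (w + b) - F w‖

/-- `H` follows `F` with the shifts `b k`, at the indices `k` in `I`. -/
structure Track (r b₀ ε : ℝ) (F H : ℂ → V) (z b : ℤ → ℂ) (I : Set ℤ) : Prop where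
  le : ∀ k ∈ I, dev r F H (z k) (b k) ≤ ε
  min : ∀ k ∈ I, ∀ b' : ℂ, ‖b' - b k‖ ≤ b₀ → dev r F H (z k) (b k) ≤ dev r F H (z k) b'
  near : ∀ k, k ∈ I → k + 1 ∈ I → ‖b (k + 1) - b k‖ ≤ b₀

/-- the threshold `ε₀` of the expansivity -/
structure Expa (KK : Set (ℂ → V)) (M L r b₀ c₁ ε₀ : ℝ) : Prop where
  pos : 0 < ε₀
  le : ε₀ ≤ c₁ * b₀ / 4
  exp : ∀ F ∈ KK, ∀ H ∈ KK, ∀ z b : ℤ → ℂ, IsChain M L F z → Track r b₀ ε₀ F H z b Set.univ → ∀ k, dev r F H (z k) (b k) = 0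

/-- no member of the family is periodic -/
def NoPer (KK : Set (ℂ → V)) : Prop := ∀ F ∈ KK, ∀ ω : ℂ, (∀ z, F (z + ω) = F z) → ω = 0

/-- a pair which is close along one half of a chain, and not equal -/
structure Asym (KK : Set (ℂ → V)) (M L r b₀ ε₀ : ℝ) (F H : ℂ → V) (z b : ℤ → ℂ) : Prop where
  memF : F ∈ KK
  memH : H ∈ KK
  chain : IsChain M L F z
  track : Track r b₀ ε₀ F H z b (Set.Ici 0)
  pos : ∀ k : ℤ, 0 ≤ k → 0 < dev r F H (z k) (b k)

end Pool.Agent.SR3.G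

end
end

section

/-!
# SR3 G Asy: `x / log (2 + x)` against powers
-/

set_option autoImplicit false

open Topology Filter Metric Asymptotics

noncomputable section

namespace Pool.Agent.SR3.G

theorem tendsto_div_log : Tendsto (fun x : ℝ => x / Real.log (2 + x)) atTop atTop := by
  have h0 : Tendsto (fun x : ℝ => 2 + x) atTop atTop := tendsto_atTop_add_const_left _ _ tendsto_id
  have h1 : Tendsto (fun y : ℝ => Real.log y / y) atTop (𝓝 0) := by
    simpa using Real.isLittleO_log_id_atTop.tendsto_div_nhds_zero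
  have h2 : Tendsto (fun x : ℝ => Real.log (2 + x) / (2 + x)) atTop (𝓝[>] 0) := by
    refine tendsto_nhdsWithin_iff.2 ⟨h1.comp h0, ?_⟩
    filter_upwards [eventually_ge_atTop 0] with x hx
    exact div_pos (Real.log_pos (by linarith)) (by linarith)
  have h3 : Tendsto (fun x : ℝ => (2 + x) / Real.log (2 + x)) atTop atTop := by
    have h4 := h2.inv_tendsto_nhdsGT_zero
    refine h4.congr fun x => ?_
    simp [inv_div]
  have h5 : Tendsto (fun x : ℝ => (2 + x) / Real.log (2 + x) + -(2 / Real.log 2)) atTop atTop := tendsto_atTop_add_const_right _ _ h3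
  refine tendsto_atTop_mono' _ ?_ h5
  filter_upwards [eventually_ge_atTop 0] with x hx
  have h6 : 0 < Real.log 2 := Real.log_pos (by norm_num)
  have h7 : Real.log 2 ≤ Real.log (2 + x) := Real.log_le_log (by norm_num) (by linarith)
  have h8 : (2 + x) / Real.log (2 + x) = 2 / Real.log (2 + x) + x / Real.log (2 + x) := add_div _ _ _
  have h9 : 2 / Real.log (2 + x) ≤ 2 / Real.log 2 := div_le_div_of_nonneg_left (by norm_num) h6 h7
  rw [h8]
  linarith

theorem eventually_pw_le {γ ε : ℝ} (hγ : γ < 1) (hε : 0 < ε) : ∀ᶠ x : ℝ in atTop, pw γ x ≤ ε * (x / Real.log (2 + x)) := by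
  have h0 : Tendsto (fun x : ℝ => 2 + x) atTop atTop := tendsto_atTop_add_const_left _ _ tendsto_id
  have h1 : (fun y : ℝ => Real.log y) =o[atTop] fun y : ℝ => y ^ (1 - γ) := isLittleO_log_rpow_atTop (by linarith)
  have h2 := h0.eventually (h1.bound (half_pos hε))
  filter_upwards [h2, eventually_ge_atTop 2] with x hx hx2
  have h3 : 0 < Real.log (2 + x) := Real.log_pos (by linarith)
  have h4 : 0 < 2 + x := by linarith
  rw [Real.norm_of_nonneg h3.le, Real.norm_of_nonneg (Real.rpow_nonneg h4.le _)] at hx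
  rw [mul_div_assoc', le_div_iff₀ h3]
  have h5 : pw γ x * (2 + x) ^ (1 - γ) = 2 + x := by
    unfold pw
    rw [← Real.rpow_add h4]
    simp
  have h6 : 0 ≤ pw γ x := Real.rpow_nonneg h4.le _
  calc pw γ x * Real.log (2 + x) ≤ pw γ x * (ε / 2 * (2 + x) ^ (1 - γ)) := mul_le_mul_of_nonneg_left hx h6
    _ = ε / 2 * (pw γ x * (2 + x) ^ (1 - γ)) := by ring
    _ = ε / 2 * (2 + x) := by rw [h5]
    _ ≤ ε * x := by nlinarith

end Pool.Agent.SR3.G

end
end

section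

/-!
# SR3 G Chain: chains of good points (helper92)
-/

set_option autoImplicit false
set_option linter.unusedSectionVars false

open Topology Filter Metric

noncomputable section

namespace Pool.Agent.SR3.G

variable {V : Type} [NormedAddCommGroup V] [NormedSpace ℂ V] {KK : Set (ℂ → V)} {M γ L : ℝ}

private theorem one_le_pw (hγ : 0 < γ) {t : ℝ} (ht : 0 ≤ t) : 1 ≤ pw γ t := Real.one_le_rpow (by linarith) hγ.le

private theorem pw_mono (hγ : 0 < γ) {t t' : ℝ} (ht : 0 ≤ t) (h : t ≤ t') : pw γ t ≤ pw γ t' :=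
  Real.rpow_le_rpow (by linarith) (by linarith) hγ.le

/-- `t ≤ a + C (2 + t) ^ γ` bounds `t` -/
private theorem exists_T (hγ : 0 < γ) (hγ1 : γ < 1) (a C : ℝ) : ∃ T : ℝ, 1 ≤ T ∧ ∀ t : ℝ, 0 ≤ t → t ≤ a + C * pw γ t → t ≤ T := by
  have h1 : Tendsto (fun s : ℝ => C * s ^ (-(1 - γ))) atTop (𝓝 (C * 0)) := (tendsto_rpow_neg_atTop (by linarith : 0 < 1 - γ)).const_mul C
  rw [mul_zero] at h1
  obtain ⟨S, hS⟩ := (eventually_atTop.1 (h1.eventually_lt_const (by norm_num : (0 : ℝ) < 1 / 4)))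
  refine ⟨max 1 (max S (2 * a + 2)), le_max_left _ _, fun t ht h2 => ?_⟩
  by_contra hlt
  push Not at hlt
  have h3 : 1 < t := (le_max_left _ _).trans_lt hlt
  have h4 : S < t := ((le_max_left _ _).trans (le_max_right _ _)).trans_lt hlt
  have h5 : 2 * a + 2 < t := ((le_max_right _ _).trans (le_max_right _ _)).trans_lt hlt
  have h6 := hS (2 + t) (by linarith)
  have h7 : C * pw γ t = (2 + t) * (C * (2 + t) ^ (-(1 - γ))) := by
    unfold pw
    have h8 : (2 + t) ^ γ = (2 + t) * (2 + t) ^ (-(1 - γ)) := by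
      conv_rhs => rw [← Real.rpow_one (2 + t)]
      rw [Real.rpow_one, ← Real.rpow_one_add' (by linarith) (by linarith)]
      congr 1
      ring
    rw [h8]
    ring
  have h9 : (2 + t) * (C * (2 + t) ^ (-(1 - γ))) ≤ (2 + t) * (1 / 4) := mul_le_mul_of_nonneg_left h6.le (by linarith)
  rw [h7] at h2
  linarith

/-- the next good points to the right and to the left -/
private theorem exists_next (h : Sys KK M γ) : ∃ L : ℝ, 1 ≤ L ∧ ∀ F ∈ KK, ‖F 0‖ ≤ M →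
    (∃ z : ℂ, ‖F z‖ ≤ M ∧ 1 ≤ z.re ∧ ‖z‖ ≤ L) ∧ ∃ z : ℂ, ‖F z‖ ≤ M ∧ z.re ≤ -1 ∧ ‖z‖ ≤ L := by
  obtain ⟨l, hl⟩ := h.dense
  obtain ⟨C, hC⟩ := h.thin M
  obtain ⟨T, hT1, hT⟩ := exists_T h.γ_pos h.γ_lt (2 * l + 1) C
  refine ⟨T, hT1, fun F hF hF0 => ⟨?_, ?_⟩⟩
  · obtain ⟨z, hz, hzM⟩ := hl F hF hF0 (l + 1)
    have h1 := abs_le.1 hz
    have h2 := hC F hF hF0 z hzM
    refine ⟨z, hzM, by linarith, hT _ (norm_nonneg z) ?_⟩
    have h3 : |z.re| ≤ 2 * l + 1 := abs_le.2 ⟨by linarith, by linarith⟩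
    exact (Complex.norm_le_abs_re_add_abs_im z).trans (add_le_add h3 h2)
  · obtain ⟨z, hz, hzM⟩ := hl F hF hF0 (-(l + 1))
    have h1 := abs_le.1 hz
    have h2 := hC F hF hF0 z hzM
    refine ⟨z, hzM, by linarith, hT _ (norm_nonneg z) ?_⟩
    have h3 : |z.re| ≤ 2 * l + 1 := abs_le.2 ⟨by linarith, by linarith⟩
    exact (Complex.norm_le_abs_re_add_abs_im z).trans (add_le_add h3 h2)

theorem exists_chain (h : Sys KK M γ) : ∃ L : ℝ, 1 ≤ L ∧ ∀ F ∈ KK, ‖F 0‖ ≤ M → ∃ z, IsChain M L F z := by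
  obtain ⟨L, hL1, hL⟩ := exists_next h
  refine ⟨L, hL1, fun F hF hF0 => ?_⟩
  have hright : ∀ a : {a : ℂ // ‖F a‖ ≤ M}, ∃ b : {a : ℂ // ‖F a‖ ≤ M}, 1 ≤ (b : ℂ).re - (a : ℂ).re ∧ ‖(b : ℂ) - a‖ ≤ L := by
    rintro ⟨a, ha⟩
    obtain ⟨⟨z, h1, h2, h3⟩, -⟩ := hL (sh a F) (h.shift F hF a) (by show ‖F (0 + a)‖ ≤ M; rwa [zero_add])
    refine ⟨⟨z + a, h1⟩, ?_, ?_⟩
    · show 1 ≤ (z + a).re - a.re
      rw [Complex.add_re]
      linarith
    · show ‖z + a - a‖ ≤ L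
      rwa [add_sub_cancel_right]
  have hleft : ∀ a : {a : ℂ // ‖F a‖ ≤ M}, ∃ b : {a : ℂ // ‖F a‖ ≤ M}, 1 ≤ (a : ℂ).re - (b : ℂ).re ∧ ‖(a : ℂ) - b‖ ≤ L := by
    rintro ⟨a, ha⟩
    obtain ⟨-, z, h1, h2, h3⟩ := hL (sh a F) (h.shift F hF a) (by show ‖F (0 + a)‖ ≤ M; rwa [zero_add])
    refine ⟨⟨z + a, h1⟩, ?_, ?_⟩
    · show 1 ≤ a.re - (z + a).re
      rw [Complex.add_re]
      linarith
    · show ‖a - (z + a)‖ ≤ L
      rw [← norm_neg, neg_sub, add_sub_cancel_right]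
      exact h3
  choose R hR using hright
  choose S hS using hleft
  obtain ⟨p, hp0, hp⟩ : ∃ p : ℕ → {a : ℂ // ‖F a‖ ≤ M}, p 0 = ⟨0, hF0⟩ ∧ ∀ n, p (n + 1) = R (p n) :=
    ⟨fun n => Nat.rec ⟨0, hF0⟩ (fun _ a => R a) n, rfl, fun _ => rfl⟩
  obtain ⟨q, hq0, hq⟩ : ∃ q : ℕ → {a : ℂ // ‖F a‖ ≤ M}, q 0 = ⟨0, hF0⟩ ∧ ∀ n, q (n + 1) = S (q n) :=
    ⟨fun n => Nat.rec ⟨0, hF0⟩ (fun _ a => S a) n, rfl, fun _ => rfl⟩
  obtain ⟨z, hz⟩ : ∃ z : ℤ → {a : ℂ // ‖F a‖ ≤ M}, z = fun k => if 0 ≤ k then p k.toNat else q (-k).toNat := ⟨_, rfl⟩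
  have hzp : ∀ n : ℕ, z n = p n := by
    intro n
    rw [hz]
    simp
  have hzq : ∀ n : ℕ, z (-n) = q n := by
    intro n
    rw [hz]
    rcases Nat.eq_zero_or_pos n with hn | hn
    · subst hn
      simp [hp0, hq0]
    · have h1 : ¬ (0 : ℤ) ≤ -(n : ℤ) := by omega
      simp only [h1, if_false, neg_neg, Int.toNat_natCast]
  have hstep : ∀ k : ℤ, 1 ≤ (z (k + 1) : ℂ).re - (z k : ℂ).re ∧ ‖(z (k + 1) : ℂ) - z k‖ ≤ L := by
    intro k
    rcases le_or_gt 0 k with hk | hk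
    · obtain ⟨n, rfl⟩ := Int.eq_ofNat_of_zero_le hk
      have h1 : ((n : ℤ) + 1) = ((n + 1 : ℕ) : ℤ) := by push_cast; ring
      rw [h1, hzp, hzp, hp]
      exact hR (p n)
    · obtain ⟨n, hn⟩ : ∃ n : ℕ, k = -((n + 1 : ℕ) : ℤ) := ⟨(-k - 1).toNat, by omega⟩
      have h1 : k + 1 = -(n : ℤ) := by omega
      rw [h1, hn, hzq, hzq, hq]
      exact hS (q n)
  refine ⟨fun k => z k, ?_, fun k => (z k).2, fun k => (hstep k).1, fun k => (hstep k).2⟩
  have h1 := hzp 0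
  rw [Nat.cast_zero] at h1
  show ((z 0 : {a : ℂ // ‖F a‖ ≤ M}) : ℂ) = 0
  rw [h1, hp0]

theorem IsChain.shift {F : ℂ → V} {z : ℤ → ℂ} (h : IsChain M L F z) (n : ℤ) : IsChain M L (sh (z n) F) fun k => z (k + n) - z n where
  zero := by rw [zero_add, sub_self]
  good k := by
    show ‖F (z (k + n) - z n + z n)‖ ≤ M
    rw [sub_add_cancel]
    exact h.good _
  re k := by
    have h1 := h.re (k + n)
    rw [show k + 1 + n = k + n + 1 by ring, Complex.sub_re, Complex.sub_re]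
    linarith
  norm k := by
    have h1 := h.norm (k + n)
    rw [show k + 1 + n = k + n + 1 by ring, sub_sub_sub_cancel_right]
    exact h1

private theorem IsChain.re_nat {F : ℂ → V} {z : ℤ → ℂ} (h : IsChain M L F z) (n : ℕ) : (n : ℝ) ≤ (z n).re ∧ (z (-n)).re ≤ -n := by
  induction n with
  | zero => simp [h.zero]
  | succ n ih =>
    obtain ⟨h1, h2⟩ := ih
    have h3 := h.re n
    have h4 := h.re (-((n + 1 : ℕ) : ℤ))
    have h5 : (-((n + 1 : ℕ) : ℤ) + 1) = -(n : ℤ) := by push_cast; ring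
    rw [h5] at h4
    push_cast at h3 h4 ⊢
    constructor <;> linarith

theorem IsChain.le_norm {F : ℂ → V} {z : ℤ → ℂ} (h : IsChain M L F z) (k : ℤ) : |(k : ℝ)| ≤ ‖z k‖ := by
  refine le_trans ?_ (Complex.abs_re_le_norm (z k))
  rcases le_total 0 k with hk | hk
  · obtain ⟨n, rfl⟩ := Int.eq_ofNat_of_zero_le hk
    have h1 := (h.re_nat n).1
    rw [Int.cast_natCast, abs_of_nonneg (Nat.cast_nonneg n)]
    exact h1.trans (le_abs_self _)
  · obtain ⟨n, hn⟩ : ∃ n : ℕ, k = -(n : ℤ) := ⟨(-k).toNat, by omega⟩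
    have h1 := (h.re_nat n).2
    rw [hn, Int.cast_neg, Int.cast_natCast, abs_neg, abs_of_nonneg (Nat.cast_nonneg n)]
    have h2 := neg_abs_le (z (-n)).re
    linarith

private theorem IsChain.norm_nat {F : ℂ → V} {z : ℤ → ℂ} (h : IsChain M L F z) (n : ℕ) : ‖z n‖ ≤ L * n ∧ ‖z (-n)‖ ≤ L * n := by
  induction n with
  | zero => simp [h.zero]
  | succ n ih =>
    obtain ⟨h1, h2⟩ := ih
    have h3 := h.norm n
    have h4 := h.norm (-((n + 1 : ℕ) : ℤ))
    have h5 : (-((n + 1 : ℕ) : ℤ) + 1) = -(n : ℤ) := by push_cast; ring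
    rw [h5] at h4
    have h6 : ‖z ((n + 1 : ℕ) : ℤ)‖ ≤ ‖z n‖ + ‖z (n + 1) - z n‖ := by
      have h7 : z ((n + 1 : ℕ) : ℤ) = z n + (z (n + 1) - z n) := by
        push_cast
        ring
      rw [h7]
      exact norm_add_le _ _
    have h8 : ‖z (-((n + 1 : ℕ) : ℤ))‖ ≤ ‖z (-(n : ℤ))‖ + ‖z (-(n : ℤ)) - z (-((n + 1 : ℕ) : ℤ))‖ := by
      have h9 : z (-((n + 1 : ℕ) : ℤ)) = z (-(n : ℤ)) - (z (-(n : ℤ)) - z (-((n + 1 : ℕ) : ℤ))) := by ring
      conv_lhs => rw [h9]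
      exact norm_sub_le _ _
    have h10 : L * ((n + 1 : ℕ) : ℝ) = L * n + L := by push_cast; ring
    rw [h10]
    constructor <;> linarith

theorem IsChain.norm_le {F : ℂ → V} {z : ℤ → ℂ} (h : IsChain M L F z) (k : ℤ) : ‖z k‖ ≤ L * |(k : ℝ)| := by
  rcases le_total 0 k with hk | hk
  · obtain ⟨n, rfl⟩ := Int.eq_ofNat_of_zero_le hk
    rw [Int.cast_natCast, abs_of_nonneg (Nat.cast_nonneg n)]
    exact (h.norm_nat n).1
  · obtain ⟨n, hn⟩ : ∃ n : ℕ, k = -(n : ℤ) := ⟨(-k).toNat, by omega⟩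
    rw [hn, Int.cast_neg, Int.cast_natCast, abs_neg, abs_of_nonneg (Nat.cast_nonneg n)]
    exact (h.norm_nat n).2

/-- the growth of another member of the family along the chain -/
theorem chain_grow (h : Sys KK M γ) (L r B : ℝ) :
    ∃ A : ℝ, 0 ≤ A ∧ ∀ F ∈ KK, ∀ H ∈ KK, ∀ z, IsChain M L F z → ‖H 0‖ ≤ B → ∀ (k : ℤ) (w : ℂ), ‖w‖ ≤ r → ‖H (z k + w)‖ ≤ Real.exp (A * pw γ |(k : ℝ)|) := by
  obtain ⟨C₁, hC₁⟩ := h.thin M
  obtain ⟨C₂, hC₂⟩ := h.grow B
  obtain ⟨D, hD⟩ : ∃ D : ℝ, D = (1 + |L| + |r|) ^ γ := ⟨_, rfl⟩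
  have hD0 : 0 ≤ D := by rw [hD]; positivity
  refine ⟨|C₂| * (|C₁| * D + |r| + D), by positivity, fun F hF H hH z hz hH0 k w hw => ?_⟩
  refine (hC₂ H hH hH0 (z k + w)).trans (Real.exp_le_exp.2 ?_)
  have hk0 : (0 : ℝ) ≤ |(k : ℝ)| := abs_nonneg _
  have h1 : ‖z k‖ ≤ |L| * |(k : ℝ)| := (hz.norm_le k).trans (mul_le_mul_of_nonneg_right (le_abs_self L) hk0)
  have h2 : ∀ t : ℝ, 0 ≤ t → t ≤ |L| * |(k : ℝ)| + |r| → pw γ t ≤ D * pw γ |(k : ℝ)| := by
    intro t ht h3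
    have h4 : pw γ t ≤ ((1 + |L| + |r|) * (2 + |(k : ℝ)|)) ^ γ := by
      refine Real.rpow_le_rpow (by linarith) ?_ h.γ_pos.le
      have h5 : 0 ≤ |L| := abs_nonneg L
      have h6 : 0 ≤ |r| := abs_nonneg r
      nlinarith [mul_nonneg h6 hk0]
    rw [Real.mul_rpow (by positivity) (by positivity), ← hD] at h4
    exact h4
  have hF0 : ‖F 0‖ ≤ M := by
    have := hz.good 0
    rwa [hz.zero] at this
  have h3 : |(z k).im| ≤ |C₁| * (D * pw γ |(k : ℝ)|) := by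
    refine (hC₁ F hF hF0 (z k) (hz.good k)).trans ?_
    have h4 : 0 ≤ pw γ ‖z k‖ := by
      unfold pw
      positivity
    calc C₁ * pw γ ‖z k‖ ≤ |C₁| * pw γ ‖z k‖ := mul_le_mul_of_nonneg_right (le_abs_self C₁) h4
      _ ≤ |C₁| * (D * pw γ |(k : ℝ)|) := mul_le_mul_of_nonneg_left (h2 _ (norm_nonneg _) (by linarith [abs_nonneg r])) (abs_nonneg _)
  have hwr : ‖w‖ ≤ |r| := hw.trans (le_abs_self r)
  have h5 : |(z k + w).im| ≤ |C₁| * (D * pw γ |(k : ℝ)|) + |r| * pw γ |(k : ℝ)| := by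
    rw [Complex.add_im]
    refine (abs_add_le _ _).trans (add_le_add h3 ?_)
    have h6 : |w.im| ≤ |r| := (Complex.abs_im_le_norm w).trans hwr
    have h7 := one_le_pw h.γ_pos hk0
    nlinarith [abs_nonneg r]
  have h8 : pw γ ‖z k + w‖ ≤ D * pw γ |(k : ℝ)| := h2 _ (norm_nonneg _) ((norm_add_le _ _).trans (add_le_add h1 hwr))
  have h9 : 0 ≤ |(z k + w).im| + pw γ ‖z k + w‖ := by
    have : 0 ≤ pw γ ‖z k + w‖ := by
      unfold pw
      positivity
    positivity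
  calc C₂ * (|(z k + w).im| + pw γ ‖z k + w‖) ≤ |C₂| * (|(z k + w).im| + pw γ ‖z k + w‖) := mul_le_mul_of_nonneg_right (le_abs_self C₂) h9
    _ ≤ |C₂| * ((|C₁| * (D * pw γ |(k : ℝ)|) + |r| * pw γ |(k : ℝ)|) + D * pw γ |(k : ℝ)|) :=
        mul_le_mul_of_nonneg_left (add_le_add h5 h8) (abs_nonneg _)
    _ = |C₂| * (|C₁| * D + |r| + D) * pw γ |(k : ℝ)| := by ring

end Pool.Agent.SR3.G

end
end

section

/-!
# SR3 LRad: a radius for the disc

The sum of the radii is at most `B d exp (- η d)`: the intervals of the bad radii do not cover `((1 - 2 τ) d, (1 - τ) d)`.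
-/

set_option autoImplicit false

open Topology Filter Metric

noncomputable section

namespace Pool.Agent.SR3

private theorem rad_aux (t : Finset ℂ) (σ : ℂ → ℝ) (w : ℂ) {a b : ℝ} (h0 : ∀ k ∈ t, 0 ≤ σ k) (hs : 2 * ∑ k ∈ t, σ k < b - a) :
    ∃ ρ, a < ρ ∧ ρ < b ∧ ∀ k ∈ t, ‖k - w‖ + σ k ≤ ρ ∨ ρ + σ k ≤ ‖k - w‖ := by
  by_contra hcon
  push Not at hcon
  have h1 : Set.Ioo a b ⊆ ⋃ k ∈ t, Set.Ioo (‖k - w‖ - σ k) (‖k - w‖ + σ k) := by
    intro ρ hρ
    obtain ⟨k, hk, h2, h3⟩ := hcon ρ hρ.1 hρ.2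
    exact Set.mem_iUnion₂.2 ⟨k, hk, by linarith, h2⟩
  have h2 := (MeasureTheory.measure_mono (μ := MeasureTheory.volume) h1).trans (MeasureTheory.measure_biUnion_finset_le _ _)
  rw [Real.volume_Ioo] at h2
  have h3 : ∀ k, MeasureTheory.volume (Set.Ioo (‖k - w‖ - σ k) (‖k - w‖ + σ k)) = ENNReal.ofReal (2 * σ k) := fun k => by
    rw [Real.volume_Ioo]
    congr 1
    ring
  rw [Finset.sum_congr rfl fun k _ => h3 k, ← ENNReal.ofReal_sum_of_nonneg fun k hk => mul_nonneg zero_le_two (h0 k hk), ← Finset.mul_sum] at h2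
  have h4 : 0 ≤ 2 * ∑ k ∈ t, σ k := mul_nonneg zero_le_two (Finset.sum_nonneg h0)
  exact absurd ((ENNReal.ofReal_le_ofReal_iff h4).1 h2) (not_le.2 hs)

theorem hl_rad {B η τ : ℝ} (hη : 0 < η) (hτ : 0 < τ) : ∃ R : ℝ, ∀ (t : Finset ℂ) (s : ℂ → ℝ) (a : ℂ) (d : ℝ), R ≤ d → (t.card : ℝ) ≤ B * d →
    (∀ b ∈ t, 0 < s b ∧ s b ≤ Real.exp (-(η * d))) → ∃ ρ : ℝ, (1 - 2 * τ) * d < ρ ∧ ρ < (1 - τ) * d ∧
      ∀ b ∈ t, ‖b - a‖ + 4 * s b < ρ ∨ ρ + 4 * s b < ‖b - a‖ := by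
  have hB1 : 0 < 20 * (|B| + 1) := by positivity
  refine ⟨max 1 (Real.log (20 * (|B| + 1) / τ) / η), fun t s a d hR hcard hs => ?_⟩
  have hd : 1 ≤ d := (le_max_left _ _).trans hR
  have hd0 : 0 < d := by linarith
  have h1 : Real.log (20 * (|B| + 1) / τ) ≤ η * d := by
    have h2 := (le_max_right _ _).trans hR
    rw [div_le_iff₀ hη] at h2
    linarith
  have h2 : Real.exp (-(η * d)) ≤ τ / (20 * (|B| + 1)) := by
    rw [Real.exp_neg, ← inv_div, inv_le_inv₀ (Real.exp_pos _) (by positivity)]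
    rw [← Real.log_le_iff_le_exp (by positivity)]
    exact h1
  have h3 : 2 * ∑ b ∈ t, 5 * s b < (1 - τ) * d - (1 - 2 * τ) * d := by
    have h4 : ∑ b ∈ t, 5 * s b ≤ ∑ _b ∈ t, 5 * (τ / (20 * (|B| + 1))) := Finset.sum_le_sum fun b hb =>
      mul_le_mul_of_nonneg_left ((hs b hb).2.trans h2) (by norm_num)
    rw [Finset.sum_const, nsmul_eq_mul] at h4
    have h5 : (t.card : ℝ) ≤ |B| * d := hcard.trans (mul_le_mul_of_nonneg_right (le_abs_self _) hd0.le)
    have h6 : (t.card : ℝ) * (5 * (τ / (20 * (|B| + 1)))) ≤ |B| * d * (5 * (τ / (20 * (|B| + 1)))) :=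
      mul_le_mul_of_nonneg_right h5 (by positivity)
    have h7 : |B| * d * (5 * (τ / (20 * (|B| + 1)))) = τ * d * (|B| / (|B| + 1)) / 4 := by
      field_simp
      ring
    have h8 : |B| / (|B| + 1) ≤ 1 := (div_le_one (by positivity)).2 (by linarith)
    have h9 : τ * d * (|B| / (|B| + 1)) ≤ τ * d := mul_le_of_le_one_right (by positivity) h8
    have h10 : 0 < τ * d := by positivity
    nlinarith
  obtain ⟨ρ, h4, h5, h6⟩ := rad_aux t (fun b => 5 * s b) a (fun b hb => by have := (hs b hb).1; positivity) h3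
  refine ⟨ρ, h4, h5, fun b hb => ?_⟩
  have h8 := (hs b hb).1
  rcases h6 b hb with h7 | h7
  · left
    linarith
  · right
    linarith

end Pool.Agent.SR3

end
end

section

/-!
# SR3 LnDefs: affine lines, in terms of polynomials
-/

set_option autoImplicit false

open Topology Filter Metric MvPolynomial

noncomputable section

namespace Pool.Agent.SR3

variable {N : ℕ}

/-- the point with the parameter `z` of a polynomial curve -/
def pev {ι : Type} (F : ι → Polynomial ℂ) (z : ℂ) : ι → ℂ := fun l => (F l).eval z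

/-- `F` is an affine line in `{H = 1}` -/
structure PLine (P : Ideal (MvPolynomial (Fin (N + 1)) ℂ)) (H : MvPolynomial (Fin (N + 1)) ℂ) (F : Fin (N + 1) → Polynomial ℂ) : Prop where
  mem : ∀ z, ∀ Q ∈ P, eval (pev F z) Q = 0
  one : ∀ z, eval (pev F z) H = 1
  ne : ∃ l, 1 ≤ (F l).natDegree

end Pool.Agent.SR3

end
end

section

/-!
# SR3 RsM: a function which is locally analytic on a compact curve is locally constant

Let `B` be the compact set of the unit vectors in `D` near which `r` is not constant, and `x` a point of `B` where `|r|` is maximal.  The values of `r`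
near `x` fill a neighbourhood of `r x` (open mapping theorem); those of modulus `> |r x|` are values at points near which `r` is constant: there are only
countably many of them.
-/

set_option autoImplicit false

open Topology Filter Metric

noncomputable section

namespace Pool.Agent.SR3

open Pool.Agent.H36.BP (EN)

variable {N : ℕ}

theorem loc_const {D : Set (EN N)} {r : EN N → ℂ} (hD : IsClosed (insert 0 D)) (h0 : (0 : EN N) ∉ D) (hsm : ∀ x ∈ D, ∀ a : ℂ, a ≠ 0 → a • x ∈ D)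
    (hr : ∀ x ∈ D, ∀ a : ℂ, a ≠ 0 → r (a • x) = r x)
    (hloc : ∀ x ∈ D, ∃ (γ : ℂ → EN N) (g : ℂ → ℂ) (q : EN N → ℂ), ContinuousAt γ 0 ∧ γ 0 = x ∧ AnalyticAt ℂ g 0 ∧
      (∀ᶠ t in 𝓝 (0 : ℂ), γ t ∈ D ∧ r (γ t) = g t) ∧ ContinuousAt q x ∧ q x = 0 ∧ ∀ᶠ y in 𝓝 x, y ∈ D → ∃ a : ℂ, a ≠ 0 ∧ y = a • γ (q y)) :
    ∀ x ∈ D, ∀ᶠ y in 𝓝 x, y ∈ D → r y = r x := by
  classical
  intro x hx
  obtain ⟨O, hO⟩ : ∃ O : Set (EN N), O = {x : EN N | ∃ v, ∀ᶠ y in 𝓝 x, y ∈ D → r y = v} := ⟨_, rfl⟩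
  have hOo : IsOpen O := by
    rw [isOpen_iff_mem_nhds]
    intro x hx
    rw [hO] at hx ⊢
    obtain ⟨v, hv⟩ := hx
    filter_upwards [eventually_eventually_nhds.2 hv] with y hy
    exact ⟨v, hy⟩
  have hkey : ∀ x ∈ D, x ∈ O → ∀ᶠ y in 𝓝 x, y ∈ D → r y = r x := by
    intro x hx hxO
    rw [hO] at hxO
    obtain ⟨v, hv⟩ := hxO
    have h1 := hv.self_of_nhds hx
    filter_upwards [hv] with y hy hyD
    rw [hy hyD, h1]
  by_contra hcon
  have hxO : x ∉ O := fun h => hcon (hkey x hx h)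
  have hOs : ∀ y, ∀ a : ℂ, a ≠ 0 → a • y ∈ O → y ∈ O := by
    intro y a ha hy
    rw [hO] at hy ⊢
    obtain ⟨v, hv⟩ := hy
    refine ⟨v, ?_⟩
    have h1 : Tendsto (fun z : EN N => a • z) (𝓝 y) (𝓝 (a • y)) := (continuous_const_smul a).continuousAt
    filter_upwards [h1.eventually hv] with z hz hzD
    rw [← hr z hzD a ha]
    exact hz (hsm z hzD a ha)
  have hnorm : ∀ y ∈ D, y ∉ O → ∃ a : ℂ, a ≠ 0 ∧ a • y ∈ (insert 0 D ∩ sphere (0 : EN N) 1) \ O := by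
    intro y hy hyO
    have hy0 : y ≠ 0 := by
      rintro rfl
      exact h0 hy
    have h1 : ‖y‖ ≠ 0 := norm_ne_zero_iff.2 hy0
    have h2 : ((‖y‖⁻¹ : ℝ) : ℂ) ≠ 0 := by exact_mod_cast inv_ne_zero h1
    refine ⟨_, h2, ⟨Or.inr (hsm y hy _ h2), ?_⟩, fun h3 => hyO (hOs y _ h2 h3)⟩
    rw [mem_sphere_zero_iff_norm, norm_smul, Complex.norm_real, norm_inv, norm_norm, inv_mul_cancel₀ h1]
  obtain ⟨B, hB⟩ : ∃ B : Set (EN N), B = (insert 0 D ∩ sphere (0 : EN N) 1) \ O := ⟨_, rfl⟩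
  rw [← hB] at hnorm
  have hBc : IsCompact B := by
    rw [hB, Set.inter_comm]
    exact ((isCompact_sphere _ _).inter_right hD).diff hOo
  have hBD : ∀ y ∈ B, y ∈ D ∧ y ∉ O := by
    intro y hy
    rw [hB] at hy
    refine ⟨?_, hy.2⟩
    rcases hy.1.1 with h1 | h1
    · have h2 := hy.1.2
      rw [mem_sphere_zero_iff_norm, h1, norm_zero] at h2
      exact absurd h2 zero_ne_one
    · exact h1
  -- continuity
  have hcont : ContinuousOn (fun y => ‖r y‖) B := by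
    intro y hy
    have hyD := (hBD y hy).1
    obtain ⟨γ, g, q, hγ, hγ0, hg, hγg, hq, hq0, hyq⟩ := hloc y hyD
    have h1 : Tendsto q (𝓝 y) (𝓝 0) := by
      have := hq.tendsto
      rwa [hq0] at this
    have h2 : ∀ᶠ z in 𝓝[B] y, r z = g (q z) := by
      refine eventually_nhdsWithin_iff.2 ?_
      filter_upwards [hyq, h1.eventually hγg] with z hz1 hz2 hzB
      obtain ⟨a, ha, hz3⟩ := hz1 (hBD z hzB).1
      rw [hz3, hr _ hz2.1 a ha, hz2.2, ← hz3]
    have h3 : r y = g (q y) := by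
      rw [hq0, ← (hγg.self_of_nhds).2, hγ0]
    have h4 : ContinuousWithinAt (fun z => g (q z)) B y := by
      refine ContinuousAt.continuousWithinAt (ContinuousAt.comp ?_ hq)
      rw [hq0]
      exact hg.continuousAt
    exact (h4.congr_of_eventuallyEq h2 h3).norm
  obtain ⟨a₁, ha₁, hx₁⟩ := hnorm x hx hxO
  obtain ⟨xm, hxm, hmax⟩ := hBc.exists_isMaxOn ⟨_, hx₁⟩ hcont
  obtain ⟨hmD, hmO⟩ := hBD xm hxm
  obtain ⟨γ, g, q, hγ, hγ0, hg, hγg, hq, hq0, hyq⟩ := hloc xm hmD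
  have hg0 : g 0 = r xm := by
    rw [← (hγg.self_of_nhds).2, hγ0]
  have h1 : Tendsto q (𝓝 xm) (𝓝 0) := by
    have := hq.tendsto
    rwa [hq0] at this
  rcases hg.eventually_constant_or_nhds_le_map_nhds with h2 | h2
  · apply hmO
    rw [hO]
    refine ⟨g 0, ?_⟩
    filter_upwards [hyq, h1.eventually hγg, h1.eventually h2] with z hz1 hz2 hz4 hzD
    obtain ⟨a, ha, hz3⟩ := hz1 hzD
    rw [hz3, hr _ hz2.1 a ha, hz2.2, ← hz4]
  · -- the values
    have h3 : {v : ℂ | ∃ y ∈ D, r y = v} ∈ 𝓝 (r xm) := by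
      rw [← hg0]
      refine h2 ?_
      rw [mem_map]
      filter_upwards [hγg] with t ht
      exact ⟨γ t, ht.1, ht.2⟩
    obtain ⟨U, hU, hUo, hUm⟩ := _root_.mem_nhds_iff.1 h3
    have hcount : (r '' (D ∩ O)).Countable := by
      have h4 : ∀ y ∈ D ∩ O, {z | z ∈ D → r z = r y} ∈ 𝓝[D ∩ O] y := by
        rintro y ⟨hyD, hyO⟩
        exact mem_nhdsWithin_of_mem_nhds (hkey y hyD hyO)
      obtain ⟨t, hts, htc, htcov⟩ := TopologicalSpace.countable_cover_nhdsWithin h4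
      refine (htc.image r).mono ?_
      rintro _ ⟨z, hz, rfl⟩
      obtain ⟨y, hy, hzy⟩ := Set.mem_iUnion₂.1 (htcov hz)
      exact ⟨y, hy, (hzy hz.1).symm⟩
    have h5 : Dense (r '' (D ∩ O))ᶜ := hcount.dense_compl ℂ
    have h6 : IsOpen (U ∩ {v : ℂ | ‖r xm‖ < ‖v‖}) := hUo.inter (isOpen_lt continuous_const continuous_norm)
    have h7 : (U ∩ {v : ℂ | ‖r xm‖ < ‖v‖}).Nonempty := by
      -- points of larger modulus near `r xm`
      obtain ⟨w, hw, hw1⟩ : ∃ w : ℂ, ‖w‖ = 1 ∧ ‖r xm‖ • w = r xm := by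
        by_cases h8 : r xm = 0
        · exact ⟨1, norm_one, by rw [h8, norm_zero, zero_smul]⟩
        · have h9 : ‖r xm‖ ≠ 0 := norm_ne_zero_iff.2 h8
          refine ⟨(‖r xm‖⁻¹ : ℝ) • r xm, ?_, ?_⟩
          · rw [norm_smul, norm_inv, norm_norm, inv_mul_cancel₀ h9]
          · rw [smul_smul, mul_inv_cancel₀ h9, one_smul]
      have h8 : Tendsto (fun e : ℝ => (‖r xm‖ + e) • w) (𝓝[>] 0) (𝓝 (r xm)) := by
        have h9 : ContinuousAt (fun e : ℝ => (‖r xm‖ + e) • w) 0 := by fun_prop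
        have h10 := h9.tendsto
        rw [add_zero, hw1] at h10
        exact h10.mono_left nhdsWithin_le_nhds
      have h9 : ∀ᶠ e : ℝ in 𝓝[>] 0, (‖r xm‖ + e) • w ∈ U := h8.eventually (hUo.mem_nhds hUm)
      obtain ⟨e, he1, he2⟩ := (h9.and self_mem_nhdsWithin).exists
      refine ⟨_, he1, ?_⟩
      have he3 : (0 : ℝ) < e := he2
      change ‖r xm‖ < ‖(‖r xm‖ + e) • w‖
      rw [norm_smul, hw, mul_one, Real.norm_of_nonneg (by positivity)]
      linarith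
    obtain ⟨v, ⟨hvU, hvn⟩, hvc⟩ := h5.inter_open_nonempty _ h6 h7
    obtain ⟨y, hyD, hyv⟩ := hU hvU
    have hyO : y ∉ O := fun h => hvc ⟨y, ⟨hyD, h⟩, hyv⟩
    obtain ⟨a, ha, hay⟩ := hnorm y hyD hyO
    have h8 := hmax hay
    change ‖r (a • y)‖ ≤ ‖r xm‖ at h8
    rw [hr y hyD a ha, hyv] at h8
    exact absurd hvn (not_lt.2 h8)

end Pool.Agent.SR3

end
end

section

/-!
# SDA X1: Riemann's extension theorem for functions which are `O (h)`

`u` is bounded near `x` and holomorphic on every line: at a zero of `h` on a line either `h` vanishes on the line near this point, and so does `u`, or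
the zero is isolated on the line and `u` is continuous there.  Osgood's lemma `osgood_pi` gives the rest.
-/

set_option autoImplicit false

open Topology Filter Metric

namespace Pool.Agent.SDA

/-- the one-dimensional case -/
private theorem line_of_bound {g v : ℂ → ℂ} (hg : AnalyticAt ℂ g 0) (hv : ∀ᶠ t in 𝓝 (0 : ℂ), g t ≠ 0 → DifferentiableAt ℂ v t)
    {C : ℝ} (hb : ∀ᶠ t in 𝓝 (0 : ℂ), ‖v t‖ ≤ C * ‖g t‖) : DifferentiableAt ℂ v 0 := by
  by_cases h0 : g 0 = 0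
  · have hv0 : v 0 = 0 := by
      have := hb.self_of_nhds
      rw [h0, norm_zero, mul_zero] at this
      exact norm_le_zero_iff.1 this
    rcases hg.eventually_eq_zero_or_eventually_ne_zero with h | h
    · have : v =ᶠ[𝓝 0] fun _ => 0 := by
        filter_upwards [h, hb] with t ht hbt
        rw [ht, norm_zero, mul_zero] at hbt
        exact norm_le_zero_iff.1 hbt
      exact this.differentiableAt_iff.2 (differentiableAt_const _)
    · refine (Complex.analyticAt_of_differentiable_on_punctured_nhds_of_continuousAt ?_ ?_).differentiableAt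
      · filter_upwards [h, hv.filter_mono nhdsWithin_le_nhds] with t ht hvt
        exact hvt ht
      · have hc : Tendsto (fun t => C * ‖g t‖) (𝓝 0) (𝓝 0) := by
          have := (hg.continuousAt.norm.const_mul C)
          have h2 : Tendsto (fun t => C * ‖g t‖) (𝓝 0) (𝓝 (C * ‖g 0‖)) := this
          rwa [h0, norm_zero, mul_zero] at h2
        have := squeeze_zero_norm' hb hc
        show Tendsto v (𝓝 0) (𝓝 (v 0))
        rwa [hv0]
  · exact hv.self_of_nhds h0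

/-- Riemann's extension theorem, for functions which are `O (h)` -/
theorem analyticAt_of_bound {E : Type} [NormedAddCommGroup E] [NormedSpace ℂ E] [FiniteDimensional ℂ E] {h u : E → ℂ} {x : E}
    (hh : AnalyticAt ℂ h x) (hu : ∀ᶠ y in 𝓝 x, h y ≠ 0 → AnalyticAt ℂ u y) {C : ℝ} (hb : ∀ᶠ y in 𝓝 x, ‖u y‖ ≤ C * ‖h y‖) :
    AnalyticAt ℂ u x := by
  classical
  set φ : E ≃L[ℂ] (Fin (Module.finrank ℂ E) → ℂ) := (Module.finBasis ℂ E).equivFunL with hφ
  -- a bound for `h`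
  have hbd : ∀ᶠ y in 𝓝 x, ‖h y‖ ≤ ‖h x‖ + 1 :=
    (hh.continuousAt.norm.eventually_le_const (by linarith))
  have hall : ∀ᶠ y in 𝓝 x, AnalyticAt ℂ h y ∧ (h y ≠ 0 → AnalyticAt ℂ u y) ∧ ‖u y‖ ≤ C * ‖h y‖ ∧ ‖h y‖ ≤ ‖h x‖ + 1 := by
    filter_upwards [hh.eventually_analyticAt, hu, hb, hbd] with y h1 h2 h3 h4
    exact ⟨h1, h2, h3, h4⟩
  have hall' : ∀ᶠ w in 𝓝 (φ x), ∀ᶠ w' in 𝓝 w, AnalyticAt ℂ h (φ.symm w') ∧ (h (φ.symm w') ≠ 0 → AnalyticAt ℂ u (φ.symm w')) ∧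
      ‖u (φ.symm w')‖ ≤ C * ‖h (φ.symm w')‖ ∧ ‖h (φ.symm w')‖ ≤ ‖h x‖ + 1 := by
    rw [eventually_eventually_nhds]
    have ht : Tendsto φ.symm (𝓝 (φ x)) (𝓝 x) := by
      have := φ.symm.continuous.tendsto (φ x)
      rwa [φ.symm_apply_apply] at this
    exact ht.eventually hall
  obtain ⟨r, hr, hball⟩ := Metric.eventually_nhds_iff_ball.1 hall'
  have hC : ∀ w ∈ ball (φ x) r, ‖u (φ.symm w)‖ ≤ |C| * (‖h x‖ + 1) := by
    intro w hw
    obtain ⟨_, _, h3, h4⟩ := (hball w hw).self_of_nhds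
    calc ‖u (φ.symm w)‖ ≤ C * ‖h (φ.symm w)‖ := h3
      _ ≤ |C| * ‖h (φ.symm w)‖ := by gcongr; exact le_abs_self C
      _ ≤ |C| * (‖h x‖ + 1) := by gcongr
  have key : AnalyticAt ℂ (fun w => u (φ.symm w)) (φ x) := by
    refine Pool.Agent.TN.osgood_pi hr hC ?_
    intro w hw l
    have hcont : Tendsto (fun t : ℂ => w + t • (Pi.single l (1 : ℂ) : Fin (Module.finrank ℂ E) → ℂ)) (𝓝 0) (𝓝 w) := by
      have : Continuous (fun t : ℂ => w + t • (Pi.single l (1 : ℂ) : Fin (Module.finrank ℂ E) → ℂ)) := by fun_prop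
      have h1 := this.tendsto 0
      simpa using h1
    have hev := hcont.eventually (hball w hw)
    have hlin : ∀ t : ℂ, AnalyticAt ℂ (fun t : ℂ => φ.symm (w + t • (Pi.single l (1 : ℂ) : Fin (Module.finrank ℂ E) → ℂ))) t := by
      intro t
      have h1 : AnalyticAt ℂ (fun t : ℂ => w + t • (Pi.single l (1 : ℂ) : Fin (Module.finrank ℂ E) → ℂ)) t := by fun_prop
      exact (φ.symm.toContinuousLinearMap.analyticAt _).comp h1
    refine line_of_bound (g := fun t => h (φ.symm (w + t • (Pi.single l (1 : ℂ) : Fin (Module.finrank ℂ E) → ℂ)))) (C := C) ?_ ?_ ?_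
    · have h1 := hev.self_of_nhds.1
      exact AnalyticAt.comp (g := h) (by simpa using h1) (hlin 0)
    · filter_upwards [hev] with t ht hne
      have h1 := ht.2.1 hne
      exact (AnalyticAt.comp (g := u) (f := fun t => φ.symm (w + t • (Pi.single l (1 : ℂ) : Fin (Module.finrank ℂ E) → ℂ))) h1
        (hlin t)).differentiableAt
    · filter_upwards [hev] with t ht
      exact ht.2.2.1
  have h2 : AnalyticAt ℂ ((fun w => u (φ.symm w)) ∘ φ) x :=
    AnalyticAt.comp key (φ.toContinuousLinearMap.analyticAt x)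
  have e : ((fun w => u (φ.symm w)) ∘ φ) = u := by
    funext y
    simp
  rwa [e] at h2

end Pool.Agent.SDA

end
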