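import Mathlib

/-! The parts of this file: H13.LU.Logs, SR2.AHar, SR3.CDefs, SR3.CBdd, SR3.CNum. -/

section

/-!
# LU Logs: convergence of logarithms

If `E n` has no zeros on the disc of radius `n + 1` and converges locally uniformly to `exp φ`, then there are holomorphic logarithms `Φ n` of `E n` which converge
locally uniformly to `φ`.
-/

set_option autoImplicit false

open Topology Filter Metric

namespace Pool.Agent.H13.LU

/-- A holomorphic logarithm on a convex open set. -/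
theorem exists_log {U : Set ℂ} (hUo : IsOpen U) (hUc : Convex ℝ U) (hUn : U.Nonempty) {k : ℂ → ℂ}
    (hk : DifferentiableOn ℂ k U) (hk0 : ∀ w ∈ U, k w ≠ 0) :
    ∃ G : ℂ → ℂ, DifferentiableOn ℂ G U ∧ ∀ w ∈ U, Complex.exp (G w) = k w := by
  have hsc : IsSimplyConnected U := by
    have := hUc.contractibleSpace hUn
    exact SimplyConnectedSpace.ofContractible U
  obtain ⟨G, hGc, hGe⟩ := Complex.exists_continuousOn_eqOn_exp_comp hsc hUo hk.continuousOn
    (by rintro ⟨w, hw, h0⟩; exact hk0 w hw h0)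
  refine ⟨G, ?_, fun w hw => hGe hw⟩
  intro w0 hw0
  apply DifferentiableAt.differentiableWithinAt
  have hkd : DifferentiableAt ℂ k w0 := (hk w0 hw0).differentiableAt (hUo.mem_nhds hw0)
  have hGca : ContinuousAt G w0 := hGc.continuousAt (hUo.mem_nhds hw0)
  have hev : G =ᶠ[𝓝 w0] fun w => G w0 + Complex.log (k w / k w0) := by
    have h1 : ∀ᶠ w in 𝓝 w0, w ∈ U := hUo.mem_nhds hw0
    have h2 : ∀ᶠ w in 𝓝 w0, ‖G w - G w0‖ < Real.pi := by
      have : Tendsto (fun w => ‖G w - G w0‖) (𝓝 w0) (𝓝 ‖G w0 - G w0‖) :=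
        (hGca.sub continuousAt_const).norm
      rw [sub_self, norm_zero] at this
      exact this.eventually (gt_mem_nhds Real.pi_pos)
    filter_upwards [h1, h2] with w hw hw2
    have e1 : k w / k w0 = Complex.exp (G w - G w0) := by
      rw [Complex.exp_sub]
      have e2 : Complex.exp (G w) = k w := hGe hw
      have e3 : Complex.exp (G w0) = k w0 := hGe hw0
      rw [e2, e3]
    have h3 : |(G w - G w0).im| < Real.pi := (Complex.abs_im_le_norm _).trans_lt hw2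
    rw [e1, Complex.log_exp (by linarith [(abs_lt.mp h3).1]) (abs_lt.mp h3).2.le]
    ring
  refine DifferentiableAt.congr_of_eventuallyEq ?_ hev
  apply DifferentiableAt.const_add
  apply DifferentiableAt.clog (hkd.div_const _)
  rw [div_self (hk0 w0 hw0)]
  exact Complex.one_mem_slitPlane

end Pool.Agent.H13.LU

end

section

/-!
# SR2 AHar: Harnack for the real part of a holomorphic function

Cayley transform and the Schwarz lemma: if `Re f ≥ 0`, `g = f - i Im f (z) + ε`, `A = g (z) > 0`, then `φ = (g - A) / (g + A)` maps the disc into the closed unit disc and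
`φ (z) = 0`, so `|φ (w)| ≤ |w - z| / r`, `|φ' (z)| ≤ 1 / r`; `ε → 0`.
-/

set_option autoImplicit false

open Topology Filter Metric

noncomputable section

namespace Pool.Agent.SR2

private theorem cayley {f : ℂ → ℂ} {z : ℂ} {r : ℝ} (hr : 0 < r) (hf : DifferentiableOn ℂ f (ball z r)) (h0 : ∀ w ∈ ball z r, 0 ≤ (f w).re) {A : ℝ}
    (hA : 0 < A) (hz : f z = A) :
    (∀ w ∈ ball z r, ‖f w - A‖ ≤ ‖w - z‖ / r * ‖f w + A‖) ∧ ‖deriv f z‖ ≤ 2 * A / r := by
  have hne : ∀ w ∈ ball z r, f w + A ≠ 0 := by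
    intro w hw h
    have h1 := congrArg Complex.re h
    rw [Complex.add_re, Complex.ofReal_re, Complex.zero_re] at h1
    linarith [h0 w hw]
  obtain ⟨φ, hφ⟩ : ∃ φ : ℂ → ℂ, φ = fun w => (f w - A) / (f w + A) := ⟨_, rfl⟩
  have hφw : ∀ w, φ w = (f w - A) / (f w + A) := fun w => by rw [hφ]
  have hφd : DifferentiableOn ℂ φ (ball z r) := by
    rw [hφ]
    exact (hf.sub_const _).div (hf.add_const _) hne
  have hφz : φ z = 0 := by rw [hφw, hz, sub_self, zero_div]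
  have hmaps : Set.MapsTo φ (ball z r) (closedBall (φ z) 1) := by
    intro w hw
    rw [hφz, mem_closedBall_zero_iff, hφw, norm_div, div_le_one (norm_pos_iff.2 (hne w hw))]
    rw [← abs_of_nonneg (norm_nonneg (f w - A)), ← abs_of_nonneg (norm_nonneg (f w + A)), ← sq_le_sq, Complex.sq_norm, Complex.sq_norm,
      Complex.normSq_apply, Complex.normSq_apply]
    simp only [Complex.sub_re, Complex.add_re, Complex.sub_im, Complex.add_im, Complex.ofReal_re, Complex.ofReal_im]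
    nlinarith [mul_nonneg hA.le (h0 w hw)]
  constructor
  · intro w hw
    have h1 := Complex.dist_le_div_mul_dist_of_mapsTo_ball hφd hmaps hw
    rw [hφz, dist_zero_right, dist_eq_norm] at h1
    have h2 : ‖f w - A‖ = ‖φ w‖ * ‖f w + A‖ := by
      rw [hφw, norm_div, div_mul_cancel₀ _ (norm_ne_zero_iff.2 (hne w hw))]
    rw [h2]
    refine mul_le_mul_of_nonneg_right ?_ (norm_nonneg _)
    calc ‖φ w‖ ≤ 1 / r * ‖w - z‖ := h1
      _ = ‖w - z‖ / r := by ring
  · have h1 := Complex.norm_deriv_le_div_of_mapsTo_ball hφd hmaps hr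
    have hzr : z ∈ ball z r := mem_ball_self hr
    have hfd : HasDerivAt f (deriv f z) z := (hf.differentiableAt (isOpen_ball.mem_nhds hzr)).hasDerivAt
    have h2 : HasDerivAt φ ((deriv f z * (f z + A) - (f z - A) * deriv f z) / (f z + A) ^ 2) z := by
      rw [hφ]
      exact (hfd.sub_const _).div (hfd.add_const _) (hne z hzr)
    have hA' : (A : ℂ) ≠ 0 := by exact_mod_cast hA.ne'
    have h3 : deriv φ z = deriv f z / (2 * A) := by
      rw [h2.deriv, hz, sub_self, zero_mul, sub_zero]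
      field_simp
      ring
    rw [h3, norm_div] at h1
    have h4 : ‖(2 * A : ℂ)‖ = 2 * A := by
      rw [norm_mul, Complex.norm_real, Real.norm_of_nonneg hA.le]
      simp
    rw [h4, div_le_iff₀ (by positivity)] at h1
    calc ‖deriv f z‖ ≤ 1 / r * (2 * A) := h1
      _ = 2 * A / r := by ring

private theorem shift {f : ℂ → ℂ} {z : ℂ} {r : ℝ} (hr : 0 < r) (hf : DifferentiableOn ℂ f (ball z r)) (h0 : ∀ w ∈ ball z r, 0 ≤ (f w).re) {ε : ℝ} (hε : 0 < ε) :
    (∀ w : ℂ, ‖w - z‖ ≤ r / 2 → (f w).re + ε ≤ 3 * ((f z).re + ε)) ∧ ‖deriv f z‖ ≤ 2 * ((f z).re + ε) / r := by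
  have hz0 := h0 z (mem_ball_self hr)
  have hA : 0 < (f z).re + ε := by linarith
  obtain ⟨g, hg⟩ : ∃ g : ℂ → ℂ, g = fun w => f w + ((ε : ℂ) - (f z).im * Complex.I) := ⟨_, rfl⟩
  have hgw : ∀ w, g w = f w + ((ε : ℂ) - (f z).im * Complex.I) := fun w => by rw [hg]
  have hgre : ∀ w, (g w).re = (f w).re + ε := fun w => by
    rw [hgw, Complex.add_re, Complex.sub_re, Complex.ofReal_re]
    simp
  have hgd : DifferentiableOn ℂ g (ball z r) := by
    rw [hg]
    exact hf.add_const _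
  have hgz : g z = (((f z).re + ε : ℝ) : ℂ) := by
    rw [hgw]
    conv_lhs => rw [← Complex.re_add_im (f z)]
    simp only [Complex.add_im, Complex.mul_im, Complex.ofReal_im, Complex.ofReal_re, Complex.I_re, Complex.I_im]
    push_cast
    ring
  obtain ⟨h1, h2⟩ := cayley hr hgd (fun w hw => by rw [hgre]; linarith [h0 w hw]) hA hgz
  constructor
  · intro w hw
    have hwr : w ∈ ball z r := by
      rw [mem_ball_iff_norm]
      linarith
    have h3 := h1 w hwr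
    have h4 : ‖w - z‖ / r ≤ 1 / 2 := by
      rw [div_le_iff₀ hr]
      linarith
    have h5 : ‖g w - (((f z).re + ε : ℝ) : ℂ)‖ ≤ 1 / 2 * (‖g w‖ + ((f z).re + ε)) := by
      refine h3.trans (mul_le_mul h4 ?_ (norm_nonneg _) (by norm_num))
      refine (norm_add_le _ _).trans (le_of_eq ?_)
      rw [Complex.norm_real, Real.norm_of_nonneg hA.le]
    have h6 : ‖g w‖ ≤ ‖g w - (((f z).re + ε : ℝ) : ℂ)‖ + ((f z).re + ε) := by
      have h7 := norm_add_le (g w - (((f z).re + ε : ℝ) : ℂ)) (((f z).re + ε : ℝ) : ℂ)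
      rwa [sub_add_cancel, Complex.norm_real, Real.norm_of_nonneg hA.le] at h7
    have h7 : (g w).re ≤ ‖g w‖ := Complex.re_le_norm _
    rw [hgre] at h7
    linarith
  · have h3 : deriv g z = deriv f z := by
      rw [hg]
      exact deriv_add_const _
    rwa [h3] at h2

theorem harnack_re {f : ℂ → ℂ} {z : ℂ} {r : ℝ} (hr : 0 < r) (hf : DifferentiableOn ℂ f (ball z r)) (h0 : ∀ w ∈ ball z r, 0 ≤ (f w).re) {w : ℂ}
    (hw : ‖w - z‖ ≤ r / 2) : (f w).re ≤ 3 * (f z).re := by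
  refine le_of_forall_pos_le_add fun ε hε => ?_
  have h1 := (shift hr hf h0 (half_pos hε)).1 w hw
  linarith

theorem deriv_le_re {f : ℂ → ℂ} {z : ℂ} {r : ℝ} (hr : 0 < r) (hf : DifferentiableOn ℂ f (ball z r)) (h0 : ∀ w ∈ ball z r, 0 ≤ (f w).re) :
    ‖deriv f z‖ ≤ 2 * (f z).re / r := by
  refine le_of_forall_pos_le_add fun ε hε => ?_
  have h1 := (shift hr hf h0 (ε := ε * r / 2) (by positivity)).2
  have h2 : 2 * ((f z).re + ε * r / 2) / r = 2 * (f z).re / r + ε := by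
    field_simp
  linarith

end Pool.Agent.SR2

end
end

section

/-!
# SR3 CDefs: wells at a crossing, function theory

In a disc the curve is near a crossing of two boundary components outside finitely many tiny discs, the holes `‖z - ζ k‖ < s k`.
`sg i` is `log` of the inverse distance to the component `i`, up to a bounded error: `Re (h i) + ∑ M k i log ‖z - ζ k‖`; `sl i = 2 ∂ (sg i)`.
-/

set_option autoImplicit false

open Metric

noncomputable section

namespace Pool.Agent.SR3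

variable {κ : Type} [Fintype κ]

/-- the potential of the component `i` -/
def sg (ζ : κ → ℂ) (M : κ → Fin 2 → ℕ) (h : Fin 2 → ℂ → ℂ) (i : Fin 2) (z : ℂ) : ℝ :=
  (h i z).re + ∑ k, (M k i : ℝ) * Real.log ‖z - ζ k‖

/-- its derivative `2 ∂` -/
def sl (ζ : κ → ℂ) (M : κ → Fin 2 → ℕ) (h : Fin 2 → ℂ → ℂ) (i : Fin 2) (z : ℂ) : ℂ :=
  deriv (h i) z + ∑ k, (M k i : ℂ) / (z - ζ k)

/-- `sg i` with the wells removed: harmonic, and at least `sg i` -/
def Hh (M : κ → Fin 2 → ℕ) (h : Fin 2 → ℂ → ℂ) (ρ : ℝ) (i : Fin 2) (z : ℂ) : ℝ :=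
  (h i z).re + (∑ k, (M k i : ℝ)) * Real.log (2 * ρ)

/-- Wells in the disc `ball z₀ ρ`, with constants `C`, `η`; `K` separates the non parallel ones. -/
structure Wd (ζ : κ → ℂ) (s : κ → ℝ) (M : κ → Fin 2 → ℕ) (h : Fin 2 → ℂ → ℂ) (z₀ : ℂ) (ρ C η K : ℝ) : Prop where
  hol : ∀ i, DifferentiableOn ℂ (h i) (ball z₀ ρ)
  mem : ∀ k, ζ k ∈ ball z₀ ρ
  one : ∀ k i, 1 ≤ M k i
  M_le : ∀ k i, (M k i : ℝ) ≤ C
  s_pos : ∀ k, 0 < s k
  s_le : ∀ k, s k ≤ Real.exp (-(η * ρ))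
  sep : ∀ j k, j ≠ k → 2 * s j ≤ ‖ζ j - ζ k‖
  sepN : ∀ j k, M j 0 * M k 1 ≠ M j 1 * M k 0 → K * s j ≤ ‖ζ j - ζ k‖
  card : (Fintype.card κ : ℝ) ≤ C * ρ
  low : ∀ i, ∀ z ∈ ball z₀ ρ, (∀ k, s k ≤ ‖z - ζ k‖) → -C ≤ sg ζ M h i z
  upp : ∀ i, ∀ z ∈ ball z₀ ρ, (∀ k, s k ≤ ‖z - ζ k‖) → sg ζ M h i z ≤ C * ρ
  rim : ∀ k i, ∀ z ∈ ball z₀ ρ, ‖z - ζ k‖ = s k → sg ζ M h i z ≤ C

/-- the linear form which vanishes at `M k` -/
def Lf (a : Fin 2 → ℕ) : MvPolynomial (Fin 2) ℂ :=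
  MvPolynomial.C (a 1 : ℂ) * MvPolynomial.X 0 - MvPolynomial.C (a 0 : ℂ) * MvPolynomial.X 1

end Pool.Agent.SR3

end
end

section

/-!
# SR3 CBdd: bounds for the potentials with the wells removed

`Hh ≥ sg ≥ - C` off the holes, and in the holes by the minimum principle.  A circle about `z₀` of radius between `ρ / 16` and `ρ / 8` meets no hole; Jensen on it
bounds `Hh z₀`; Harnack.
-/

set_option autoImplicit false

open Metric Real

noncomputable section

namespace Pool.Agent.SR3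

private theorem exists_r (κ : Type) [Fintype κ] (d s : κ → ℝ) {ρ e : ℝ} (hs0 : ∀ k, 0 < s k) (hse : ∀ k, s k ≤ e)
    (hsum : 2 * (Fintype.card κ : ℝ) * e < ρ / 16) : ∃ r ∈ Set.Icc (ρ / 16) (ρ / 8), ∀ k, s k ≤ |r - d k| := by
  by_contra hcon
  push Not at hcon
  have hsub : Set.Icc (ρ / 16) (ρ / 8) ⊆ ⋃ k, Set.Ioo (d k - s k) (d k + s k) := by
    intro r hr
    obtain ⟨k, hk⟩ := hcon r hr
    rw [abs_lt] at hk
    exact Set.mem_iUnion.2 ⟨k, ⟨by linarith only [hk], by linarith only [hk]⟩⟩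
  have h1 : MeasureTheory.volume (Set.Icc (ρ / 16) (ρ / 8)) ≤ ENNReal.ofReal (2 * (Fintype.card κ : ℝ) * e) := by
    calc MeasureTheory.volume (Set.Icc (ρ / 16) (ρ / 8)) ≤ MeasureTheory.volume (⋃ k, Set.Ioo (d k - s k) (d k + s k)) :=
          MeasureTheory.measure_mono hsub
      _ ≤ ∑ k, MeasureTheory.volume (Set.Ioo (d k - s k) (d k + s k)) := MeasureTheory.measure_iUnion_fintype_le _ _
      _ ≤ ∑ _k : κ, ENNReal.ofReal (2 * e) := by
          refine Finset.sum_le_sum fun k _ => ?_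
          rw [Real.volume_Ioo]
          exact ENNReal.ofReal_le_ofReal (by linarith only [hse k])
      _ = ENNReal.ofReal (2 * (Fintype.card κ : ℝ) * e) := by
          rw [Finset.sum_const, Finset.card_univ, nsmul_eq_mul, ← ENNReal.ofReal_natCast, ← ENNReal.ofReal_mul (by positivity)]
          congr 1
          ring
  rw [Real.volume_Icc] at h1
  by_cases hk : Nonempty κ
  · obtain ⟨k⟩ := hk
    have he : 0 < e := (hs0 k).trans_le (hse k)
    have h2 := (ENNReal.ofReal_le_ofReal_iff (by positivity)).1 h1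
    linarith only [hsum, h2]
  · rw [not_nonempty_iff] at hk
    have h0 : (Fintype.card κ : ℝ) = 0 := by exact_mod_cast Fintype.card_eq_zero
    rw [h0] at hsum
    obtain ⟨k, -⟩ := hcon (ρ / 16) ⟨le_rfl, by linarith only [hsum]⟩
    exact hk.elim k

private theorem sum_le {κ : Type} [Fintype κ] {M : κ → Fin 2 → ℕ} {C ρ : ℝ} (hC : 1 ≤ C) (hM : ∀ k i, (M k i : ℝ) ≤ C) (hcard : (Fintype.card κ : ℝ) ≤ C * ρ)
    (i : Fin 2) : (∑ k, (M k i : ℝ)) ≤ C ^ 2 * ρ := by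
  calc (∑ k, (M k i : ℝ)) ≤ ∑ _k : κ, C := Finset.sum_le_sum fun k _ => hM k i
    _ = (Fintype.card κ : ℝ) * C := by rw [Finset.sum_const, Finset.card_univ, nsmul_eq_mul]
    _ ≤ C * ρ * C := mul_le_mul_of_nonneg_right hcard (by linarith only [hC])
    _ = C ^ 2 * ρ := by ring

variable {κ : Type} [Fintype κ] {ζ : κ → ℂ} {s : κ → ℝ} {M : κ → Fin 2 → ℕ} {h : Fin 2 → ℂ → ℂ} {z₀ : ℂ} {ρ C η K : ℝ}

private theorem sg_le (hW : Wd ζ s M h z₀ ρ C η K) (i : Fin 2) {z : ℂ} (hz : z ∈ ball z₀ ρ) (hoff : ∀ k, s k ≤ ‖z - ζ k‖) :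
    sg ζ M h i z ≤ Hh M h ρ i z := by
  have h1 : ∑ k, (M k i : ℝ) * Real.log ‖z - ζ k‖ ≤ (∑ k, (M k i : ℝ)) * Real.log (2 * ρ) := by
    rw [Finset.sum_mul]
    refine Finset.sum_le_sum fun k _ => mul_le_mul_of_nonneg_left ?_ (Nat.cast_nonneg _)
    have h2 := hW.mem k
    rw [mem_ball, dist_eq_norm] at hz h2
    refine Real.log_le_log ((hW.s_pos k).trans_le (hoff k)) ?_
    calc ‖z - ζ k‖ = ‖(z - z₀) - (ζ k - z₀)‖ := by congr 1; ring
      _ ≤ ‖z - z₀‖ + ‖ζ k - z₀‖ := norm_sub_le _ _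
      _ ≤ 2 * ρ := by linarith only [hz, h2]
  unfold sg Hh
  linarith only [h1]

private theorem low_all (hW : Wd ζ s M h z₀ ρ C η K) (hK : 2 ≤ K) (hs : ∀ k, s k ≤ ρ / 32) (i : Fin 2) {z : ℂ}
    (hz : z ∈ ball z₀ (7 * ρ / 8)) : -C ≤ Hh M h ρ i z := by
  have hρ : 0 < ρ := by
    have h1 := pos_of_mem_ball hz
    linarith only [h1]
  have hsub : ball z₀ (7 * ρ / 8) ⊆ ball z₀ ρ := ball_subset_ball (by linarith only [hρ])
  by_cases hoff : ∀ k, s k ≤ ‖z - ζ k‖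
  · exact (hW.low i z (hsub hz) hoff).trans (sg_le hW i (hsub hz) hoff)
  · push Not at hoff
    obtain ⟨k, hk⟩ := hoff
    have hcl : closedBall (ζ k) (s k) ⊆ ball z₀ ρ := by
      intro w hw
      rw [mem_closedBall, dist_eq_norm] at hw
      rw [mem_ball, dist_eq_norm] at hz ⊢
      have h1 := hs k
      calc ‖w - z₀‖ = ‖(w - ζ k) - (z - ζ k) + (z - z₀)‖ := by congr 1; ring
        _ ≤ ‖w - ζ k‖ + ‖z - ζ k‖ + ‖z - z₀‖ := (norm_add_le _ _).trans (add_le_add (norm_sub_le _ _) le_rfl)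
        _ < ρ := by linarith only [hz, hρ, hk, hw, h1]
    have hsph : ∀ w, ‖w - ζ k‖ = s k → -C ≤ Hh M h ρ i w := by
      intro w hw
      have hwb : w ∈ ball z₀ ρ := hcl (by rw [mem_closedBall, dist_eq_norm, hw])
      have hwoff : ∀ j, s j ≤ ‖w - ζ j‖ := by
        intro j
        by_cases hjk : j = k
        · rw [hjk, hw]
        · have h1 := hW.sep j k hjk
          have h2 := hW.sep k j (Ne.symm hjk)
          have h3 := hW.s_pos j
          have h4 := hW.s_pos k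
          rw [norm_sub_rev] at h2
          have h5 : 2 * s j ≤ ‖ζ j - ζ k‖ := h1
          have h6 : 2 * s k ≤ ‖ζ j - ζ k‖ := h2
          have h7 : ‖ζ j - ζ k‖ ≤ ‖w - ζ j‖ + ‖w - ζ k‖ := by
            calc ‖ζ j - ζ k‖ = ‖(w - ζ k) - (w - ζ j)‖ := by congr 1; ring
              _ ≤ ‖w - ζ k‖ + ‖w - ζ j‖ := norm_sub_le _ _
              _ = ‖w - ζ j‖ + ‖w - ζ k‖ := add_comm _ _
          linarith only [hw, h1, h2, h7]
      exact (hW.low i w hwb hwoff).trans (sg_le hW i hwb hwoff)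
    have hd : DiffContOnCl ℂ (fun w => Complex.exp (-h i w)) (ball (ζ k) (s k)) := by
      refine DifferentiableOn.diffContOnCl ?_
      rw [closure_ball _ (hW.s_pos k).ne']
      exact ((hW.hol i).mono hcl).neg.cexp
    have hB := Complex.norm_le_of_forall_mem_frontier_norm_le isBounded_ball hd (C := Real.exp (C + (∑ k, (M k i : ℝ)) * Real.log (2 * ρ))) (fun w hw => by
      rw [frontier_ball _ (hW.s_pos k).ne', mem_sphere, dist_eq_norm] at hw
      have h1 := hsph w hw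
      unfold Hh at h1
      rw [Complex.norm_exp, Complex.neg_re]
      exact Real.exp_le_exp.2 (by linarith only [h1])) (z := z) (by
        rw [closure_ball _ (hW.s_pos k).ne', mem_closedBall, dist_eq_norm]
        exact hk.le)
    rw [Complex.norm_exp, Complex.neg_re, Real.exp_le_exp] at hB
    unfold Hh
    linarith only [hB]

private theorem upp_zero (hW : Wd ζ s M h z₀ ρ C η K) (hC : 1 ≤ C) (hρ : 1 ≤ ρ) (hsum : 2 * (Fintype.card κ : ℝ) * Real.exp (-(η * ρ)) < ρ / 16) (i : Fin 2) :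
    Hh M h ρ i z₀ ≤ 5 * C ^ 2 * ρ := by
  obtain ⟨r, ⟨hr1, hr2⟩, hr⟩ := exists_r κ (fun k => ‖ζ k - z₀‖) s hW.s_pos hW.s_le hsum
  have hr0 : 0 < r := by linarith only [hρ, hr1]
  have hsph : ∀ z ∈ sphere z₀ |r|, z ∈ ball z₀ ρ ∧ ∀ k, s k ≤ ‖z - ζ k‖ := by
    intro z hz
    rw [mem_sphere, dist_eq_norm, abs_of_pos hr0] at hz
    refine ⟨by rw [mem_ball, dist_eq_norm, hz]; linarith only [hr2, hr0], fun k => (hr k).trans ?_⟩
    calc |r - ‖ζ k - z₀‖| = |‖z - z₀‖ - ‖ζ k - z₀‖| := by rw [hz]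
      _ ≤ ‖(z - z₀) - (ζ k - z₀)‖ := abs_norm_sub_norm_le _ _
      _ = ‖z - ζ k‖ := by congr 1; ring
  have hcl : closedBall z₀ |r| ⊆ ball z₀ ρ := by
    rw [abs_of_pos hr0]
    exact closedBall_subset_ball (by linarith only [hr2, hr0])
  have hdc : DiffContOnCl ℂ (h i) (ball z₀ |r|) := by
    refine DifferentiableOn.diffContOnCl ?_
    rw [closure_ball _ (abs_pos.2 hr0.ne').ne']
    exact (hW.hol i).mono hcl
  have hint : CircleIntegrable (h i) z₀ r := by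
    refine ContinuousOn.circleIntegrable hr0.le ?_
    refine (hW.hol i).continuousOn.mono ?_
    rw [← abs_of_pos hr0]
    exact sphere_subset_closedBall.trans hcl
  have havg : circleAverage (fun z => (h i z).re) z₀ r = (h i z₀).re := by
    have h1 := Complex.reCLM.circleAverage_comp_comm (f := h i) (c := z₀) (R := r) hint
    rw [hdc.circleAverage] at h1
    exact h1
  have hintr : CircleIntegrable (fun z => (h i z).re) z₀ r := by
    refine ContinuousOn.circleIntegrable hr0.le ?_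
    refine Complex.continuous_re.comp_continuousOn ((hW.hol i).continuousOn.mono ?_)
    rw [← abs_of_pos hr0]
    exact sphere_subset_closedBall.trans hcl
  have hintl : ∀ k, CircleIntegrable (fun z => Real.log ‖z - ζ k‖) z₀ r := fun k =>
    MeromorphicOn.circleIntegrable_log_norm (fun _ _ => by fun_prop)
  have hintk : ∀ k, CircleIntegrable (fun z => (M k i : ℝ) * Real.log ‖z - ζ k‖) z₀ r := fun k => (hintl k).const_smul (a := (M k i : ℝ))
  have hints : CircleIntegrable (fun z => ∑ k, (M k i : ℝ) * Real.log ‖z - ζ k‖) z₀ r := by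
    have h1 := CircleIntegrable.sum Finset.univ (fun k _ => hintk k)
    convert h1 using 1
    ext z
    simp
  have hlog : ∀ k, Real.log r ≤ circleAverage (fun z => Real.log ‖z - ζ k‖) z₀ r := by
    intro k
    rw [circleAverage_log_norm_sub_const_eq_log_radius_add_posLog hr0.ne']
    have := Real.posLog_nonneg (x := r⁻¹ * ‖z₀ - ζ k‖)
    linarith only [this]
  have htot : circleAverage (fun z => sg ζ M h i z) z₀ r = (h i z₀).re + ∑ k, (M k i : ℝ) * circleAverage (fun z => Real.log ‖z - ζ k‖) z₀ r := by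
    unfold sg
    rw [circleAverage_fun_add hintr hints, havg, circleAverage_fun_sum (fun k _ => hintk k)]
    congr 1
    refine Finset.sum_congr rfl fun k _ => ?_
    have h1 := circleAverage_fun_smul (a := (M k i : ℝ)) (f := fun z => Real.log ‖z - ζ k‖) (c := z₀) (R := r)
    simpa only [smul_eq_mul] using h1
  have hle : circleAverage (fun z => sg ζ M h i z) z₀ r ≤ C * ρ := by
    refine circleAverage_mono_on_of_le_circle ?_ (fun z hz => hW.upp i z (hsph z hz).1 (hsph z hz).2)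
    exact hintr.add hints
  have hsr : (∑ k, (M k i : ℝ)) * Real.log r ≤ ∑ k, (M k i : ℝ) * circleAverage (fun z => Real.log ‖z - ζ k‖) z₀ r := by
    rw [Finset.sum_mul]
    exact Finset.sum_le_sum fun k _ => mul_le_mul_of_nonneg_left (hlog k) (Nat.cast_nonneg _)
  have hl32 : Real.log (2 * ρ) - Real.log r ≤ 4 := by
    rw [← Real.log_div (by positivity) hr0.ne']
    have h1 : 2 * ρ / r ≤ 32 := by
      rw [div_le_iff₀ hr0]
      linarith only [hr1]
    have h2 : Real.log (2 * ρ / r) ≤ Real.log 32 := Real.log_le_log (by positivity) h1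
    have h3 : Real.log 32 = 5 * Real.log 2 := by
      rw [show (32 : ℝ) = 2 ^ 5 by norm_num, Real.log_pow]
      norm_num
    have h4 := Real.log_two_lt_d9
    linarith only [h2, h3, h4]
  have hS := sum_le hC hW.M_le hW.card i
  have hS0 : 0 ≤ ∑ k, (M k i : ℝ) := Finset.sum_nonneg fun k _ => Nat.cast_nonneg _
  have h5 : (∑ k, (M k i : ℝ)) * (Real.log (2 * ρ) - Real.log r) ≤ C ^ 2 * ρ * 4 :=
    (mul_le_mul_of_nonneg_left hl32 hS0).trans (mul_le_mul_of_nonneg_right hS (by norm_num))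
  have h6 : C * ρ ≤ C ^ 2 * ρ := by nlinarith only [hC, hS, hS0]
  unfold Hh
  rw [htot] at hle
  linarith only [hle, hsr, h5, h6]

theorem wd_bdd {C η : ℝ} (hC : 1 ≤ C) (hη : 0 < η) : ∃ C₁ ρ₁ : ℝ, 1 ≤ C₁ ∧ 1 ≤ ρ₁ ∧ ∀ (κ : Type) [Fintype κ] (ζ : κ → ℂ) (s : κ → ℝ) (M : κ → Fin 2 → ℕ)
    (h : Fin 2 → ℂ → ℂ) (z₀ : ℂ) (ρ K : ℝ), Wd ζ s M h z₀ ρ C η K → 2 ≤ K → ρ₁ ≤ ρ → ∀ i, ∀ z ∈ ball z₀ (3 * ρ / 4),
      -C ≤ Hh M h ρ i z ∧ Hh M h ρ i z ≤ C₁ * ρ ∧ ‖deriv (h i) z‖ ≤ C₁ := by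
  refine ⟨2592 * C ^ 2, 32 * C / η + 1, by nlinarith only [hC], ?_, ?_⟩
  · have : 0 ≤ 32 * C / η := by positivity
    linarith only [this]
  intro κ _ ζ s M h z₀ ρ K hW hK hρ₁ i z hz
  have hq : 0 ≤ 32 * C / η := by positivity
  have hρ : 1 ≤ ρ := by linarith only [hρ₁, hq]
  have hρ0 : 0 < ρ := by linarith only [hρ₁, hq]
  have hexp : Real.exp (-(η * ρ)) < 1 / (32 * C) := by
    rw [Real.exp_neg, inv_eq_one_div]
    refine one_div_lt_one_div_of_lt (by positivity) ?_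
    have h1 : 32 * C < η * ρ + 1 := by
      have h2 : 32 * C = η * (32 * C / η) := by field_simp
      have h3 : η * (32 * C / η) ≤ η * (ρ - 1) := mul_le_mul_of_nonneg_left (by linarith only [hρ₁]) hη.le
      linarith only [hη, h2, h3]
    exact h1.trans_le (Real.add_one_le_exp _)
  have hs : ∀ k, s k ≤ ρ / 32 := by
    intro k
    have h1 : (1 : ℝ) / (32 * C) ≤ 1 / 32 := by
      rw [div_le_div_iff₀ (by positivity) (by norm_num)]
      linarith only [hC]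
    have h2 := hW.s_le k
    linarith only [hρ₁, hq, hexp, h1, h2]
  have hsum : 2 * (Fintype.card κ : ℝ) * Real.exp (-(η * ρ)) < ρ / 16 := by
    have h1 : 2 * (Fintype.card κ : ℝ) * Real.exp (-(η * ρ)) ≤ 2 * (C * ρ) * Real.exp (-(η * ρ)) :=
      mul_le_mul_of_nonneg_right (by linarith only [hW.card]) (Real.exp_pos _).le
    have h2 : 2 * (C * ρ) * Real.exp (-(η * ρ)) < 2 * (C * ρ) * (1 / (32 * C)) := mul_lt_mul_of_pos_left hexp (by positivity)
    have h3 : 2 * (C * ρ) * (1 / (32 * C)) = ρ / 16 := by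
      field_simp
      norm_num
    linarith only [h1, h2, h3]
  have hlow : ∀ w ∈ ball z₀ (7 * ρ / 8), -C ≤ Hh M h ρ i w := fun w hw => low_all hW hK hs i hw
  have hzero := upp_zero hW hC hρ hsum i
  -- the holomorphic function with the real part `Hh + C`
  obtain ⟨B, hB⟩ : ∃ B : ℝ, B = (∑ k, (M k i : ℝ)) * Real.log (2 * ρ) + C := ⟨_, rfl⟩
  obtain ⟨F, hF⟩ : ∃ F : ℂ → ℂ, F = fun w => h i w + (B : ℂ) := ⟨_, rfl⟩
  have hFre : ∀ w, (F w).re = Hh M h ρ i w + C := by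
    intro w
    rw [hF, hB]
    unfold Hh
    rw [Complex.add_re, Complex.ofReal_re]
    ring
  have hFd : DifferentiableOn ℂ F (ball z₀ ρ) := by
    rw [hF]
    exact (hW.hol i).add_const _
  have hF0 : ∀ w ∈ ball z₀ (7 * ρ / 8), 0 ≤ (F w).re := by
    intro w hw
    rw [hFre]
    linarith only [hlow w hw]
  have hsub : ∀ (w : ℂ) (r : ℝ), ‖w - z₀‖ + r ≤ 7 * ρ / 8 → ball w r ⊆ ball z₀ (7 * ρ / 8) := by
    intro w r hwr x hx
    rw [mem_ball, dist_eq_norm] at hx ⊢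
    calc ‖x - z₀‖ = ‖(x - w) + (w - z₀)‖ := by congr 1; ring
      _ ≤ ‖x - w‖ + ‖w - z₀‖ := norm_add_le _ _
      _ < 7 * ρ / 8 := by linarith only [hwr, hx]
  have hb : ball z₀ (7 * ρ / 8) ⊆ ball z₀ ρ := ball_subset_ball (by linarith only [hρ₁, hq])
  have hstep : ∀ (w x : ℂ) (r : ℝ), 0 < r → ‖w - z₀‖ + r ≤ 7 * ρ / 8 → ‖x - w‖ ≤ r / 2 → (F x).re ≤ 3 * (F w).re := by
    intro w x r hr hwr hx
    exact SR2.harnack_re hr (hFd.mono ((hsub w r hwr).trans hb)) (fun y hy => hF0 y (hsub w r hwr hy)) hx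
  rw [mem_ball, dist_eq_norm] at hz
  obtain ⟨v, hv⟩ : ∃ v : ℂ, v = z - z₀ := ⟨_, rfl⟩
  rw [← hv] at hz
  have hn : ∀ t : ℝ, 0 ≤ t → ‖(t : ℂ) * v‖ = t * ‖v‖ := fun t ht => by rw [norm_mul, Complex.norm_real, Real.norm_of_nonneg ht]
  have h1 : (F (z₀ + ((1 / 2 : ℝ) : ℂ) * v)).re ≤ 3 * (F z₀).re := by
    refine hstep z₀ _ (7 * ρ / 8) (by linarith only [hρ₁, hq]) (by rw [sub_self, norm_zero]; linarith only []) ?_
    rw [add_sub_cancel_left, hn _ (by norm_num)]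
    linarith only [hρ₁, hq, hz]
  have h2 : (F (z₀ + ((5 / 6 : ℝ) : ℂ) * v)).re ≤ 3 * (F (z₀ + ((1 / 2 : ℝ) : ℂ) * v)).re := by
    refine hstep _ _ (ρ / 2) (by linarith only [hρ₁, hq]) ?_ ?_
    · rw [add_sub_cancel_left, hn _ (by norm_num)]
      linarith only [hz]
    · have h3 : z₀ + ((5 / 6 : ℝ) : ℂ) * v - (z₀ + ((1 / 2 : ℝ) : ℂ) * v) = ((1 / 3 : ℝ) : ℂ) * v := by
        push_cast
        ring
      rw [h3, hn _ (by norm_num)]
      linarith only [hz]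
  have h3 : (F z).re ≤ 3 * (F (z₀ + ((5 / 6 : ℝ) : ℂ) * v)).re := by
    refine hstep _ _ (ρ / 4) (by linarith only [hρ₁, hq]) ?_ ?_
    · rw [add_sub_cancel_left, hn _ (by norm_num)]
      linarith only [hz]
    · have h4 : z - (z₀ + ((5 / 6 : ℝ) : ℂ) * v) = ((1 / 6 : ℝ) : ℂ) * v := by
        rw [hv]
        push_cast
        ring
      rw [h4, hn _ (by norm_num)]
      linarith only [hz]
  have h4 : (F z₀).re ≤ 6 * C ^ 2 * ρ := by
    rw [hFre]
    have h5 : C ≤ C ^ 2 * ρ := by nlinarith only [hC, hρ₁, hq]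
    linarith only [hzero, h5]
  have h5 : (F z).re ≤ 162 * C ^ 2 * ρ := by linarith only [h1, h2, h3, h4]
  have hzb : z ∈ ball z₀ (7 * ρ / 8) := by
    rw [mem_ball, dist_eq_norm, ← hv]
    linarith only [hρ₁, hq, hz]
  have hpos : 0 < C ^ 2 * ρ := by positivity
  refine ⟨hlow z hzb, ?_, ?_⟩
  · rw [hFre] at h5
    linarith only [hC, h5, hpos]
  · have h6 := SR2.deriv_le_re (f := F) (z := z) (r := ρ / 8) (by linarith only [hρ₁, hq])
      (hFd.mono ((hsub z (ρ / 8) (by rw [← hv]; linarith only [hz])).trans hb)) (fun y hy => hF0 y (hsub z (ρ / 8) (by rw [← hv]; linarith only [hz]) hy))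
    have h7 : deriv F z = deriv (h i) z := by
      rw [hF]
      exact deriv_add_const _
    rw [h7] at h6
    refine h6.trans ?_
    rw [div_le_iff₀ (by linarith only [hρ₁, hq])]
    linarith only [h1, h2, h3, h4]

end Pool.Agent.SR3

end
end

section

/-!
# SR3 CNum: the number of wells near a well

At a point `z` of the rim of the hole `k`: `∑ M j i log (2 ρ / ‖z - ζ j‖) = Hh i z - sg i z ≤ C₁ ρ + C`, and all terms are `≥ 0`.
-/

set_option autoImplicit false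

open Metric

noncomputable section

namespace Pool.Agent.SR3

theorem wd_num {C η : ℝ} (hC : 1 ≤ C) (hη : 0 < η) : ∃ C₁ ρ₁ : ℝ, 1 ≤ C₁ ∧ 1 ≤ ρ₁ ∧ ∀ (κ : Type) [Fintype κ] (ζ : κ → ℂ) (s : κ → ℝ) (M : κ → Fin 2 → ℕ)
    (h : Fin 2 → ℂ → ℂ) (z₀ : ℂ) (ρ K : ℝ), Wd ζ s M h z₀ ρ C η K → 2 ≤ K → ρ₁ ≤ ρ → ∀ k, ζ k ∈ ball z₀ (5 * ρ / 8) → ∀ t : ℝ, s k ≤ t → t ≤ ρ / 8 →
      ((Finset.univ.filter fun j => ‖ζ j - ζ k‖ ≤ t).card : ℝ) * Real.log (ρ / t) ≤ C₁ * ρ := by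
  obtain ⟨C₁, ρ₁, hC₁, hρ₁, H⟩ := wd_bdd hC hη
  refine ⟨C₁ + C, ρ₁, by linarith, hρ₁, ?_⟩
  intro κ _ ζ s M h z₀ ρ K W hK hρ k hk t hst ht
  have hρ1 : 1 ≤ ρ := hρ₁.trans hρ
  have hρ0 : 0 < ρ := by linarith
  have hsk := W.s_pos k
  have ht0 : 0 < t := hsk.trans_le hst
  -- the point of the rim
  obtain ⟨z, hz⟩ : ∃ z : ℂ, ‖z - ζ k‖ = s k := by
    refine ⟨ζ k + (s k : ℂ), ?_⟩
    rw [add_sub_cancel_left, Complex.norm_real, Real.norm_of_nonneg hsk.le]
  have hk' : ‖ζ k - z₀‖ < 5 * ρ / 8 := by rw [← mem_ball_iff_norm]; exact hk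
  have hzz : ‖z - z₀‖ < 3 * ρ / 4 := by
    have h1 : ‖z - z₀‖ ≤ ‖z - ζ k‖ + ‖ζ k - z₀‖ := norm_sub_le_norm_sub_add_norm_sub z (ζ k) z₀
    linarith
  have hzb : z ∈ ball z₀ (3 * ρ / 4) := by rw [mem_ball_iff_norm]; exact hzz
  have hzB : z ∈ ball z₀ ρ := by rw [mem_ball_iff_norm]; linarith
  have hoff : ∀ j, s j ≤ ‖z - ζ j‖ := by
    intro j
    by_cases hjk : j = k
    · rw [hjk, hz]
    · have h1 := W.sep j k hjk
      have h2 := W.sep k j (fun h => hjk h.symm)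
      have h3 : ‖ζ k - ζ j‖ ≤ ‖ζ k - z‖ + ‖z - ζ j‖ := norm_sub_le_norm_sub_add_norm_sub (ζ k) z (ζ j)
      rw [norm_sub_rev (ζ k) z, hz] at h3
      rw [norm_sub_rev (ζ j) (ζ k)] at h1
      linarith
  have hlow := W.low 0 z hzB hoff
  have hup := (H κ ζ s M h z₀ ρ K W hK hρ 0 z hzb).2.1
  have heq : Hh M h ρ 0 z - sg ζ M h 0 z = ∑ j, (M j 0 : ℝ) * (Real.log (2 * ρ) - Real.log ‖z - ζ j‖) := by
    simp only [Hh, sg, mul_sub, Finset.sum_sub_distrib, Finset.sum_mul]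
    ring
  have hterm : ∀ j, 0 ≤ (M j 0 : ℝ) * (Real.log (2 * ρ) - Real.log ‖z - ζ j‖) := by
    intro j
    have hj : ‖ζ j - z₀‖ < ρ := by rw [← mem_ball_iff_norm]; exact W.mem j
    have h1 : ‖z - ζ j‖ ≤ ‖z - z₀‖ + ‖z₀ - ζ j‖ := norm_sub_le_norm_sub_add_norm_sub z z₀ (ζ j)
    rw [norm_sub_rev z₀ (ζ j)] at h1
    have h2 : Real.log ‖z - ζ j‖ ≤ Real.log (2 * ρ) := Real.log_le_log ((W.s_pos j).trans_le (hoff j)) (by linarith)
    exact mul_nonneg (Nat.cast_nonneg _) (by linarith)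
  have hlog0 : 0 ≤ Real.log (ρ / t) := Real.log_nonneg (by rw [le_div_iff₀ ht0]; linarith)
  have hfil : ∀ j ∈ Finset.univ.filter (fun j => ‖ζ j - ζ k‖ ≤ t), Real.log (ρ / t) ≤ (M j 0 : ℝ) * (Real.log (2 * ρ) - Real.log ‖z - ζ j‖) := by
    intro j hj
    have hj' : ‖ζ j - ζ k‖ ≤ t := (Finset.mem_filter.1 hj).2
    have h1 : ‖z - ζ j‖ ≤ ‖z - ζ k‖ + ‖ζ k - ζ j‖ := norm_sub_le_norm_sub_add_norm_sub z (ζ k) (ζ j)
    rw [norm_sub_rev (ζ k) (ζ j), hz] at h1
    have h2 : Real.log ‖z - ζ j‖ ≤ Real.log (2 * t) := Real.log_le_log ((W.s_pos j).trans_le (hoff j)) (by linarith)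
    have h3 : Real.log (ρ / t) = Real.log (2 * ρ) - Real.log (2 * t) := by
      rw [← Real.log_div (by positivity) (by positivity), mul_div_mul_left _ _ (by norm_num : (2 : ℝ) ≠ 0)]
    have h4 : (1 : ℝ) ≤ (M j 0 : ℝ) := by exact_mod_cast W.one j 0
    have h5 : Real.log (ρ / t) ≤ Real.log (2 * ρ) - Real.log ‖z - ζ j‖ := by linarith
    calc Real.log (ρ / t) ≤ Real.log (2 * ρ) - Real.log ‖z - ζ j‖ := h5
      _ = 1 * (Real.log (2 * ρ) - Real.log ‖z - ζ j‖) := (one_mul _).symm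
      _ ≤ _ := mul_le_mul_of_nonneg_right h4 (hlog0.trans h5)
  have hC' : C ≤ C * ρ := le_mul_of_one_le_right (by linarith) hρ1
  calc ((Finset.univ.filter fun j => ‖ζ j - ζ k‖ ≤ t).card : ℝ) * Real.log (ρ / t)
      = ∑ _j ∈ Finset.univ.filter (fun j => ‖ζ j - ζ k‖ ≤ t), Real.log (ρ / t) := by rw [Finset.sum_const, nsmul_eq_mul]
    _ ≤ ∑ j ∈ Finset.univ.filter (fun j => ‖ζ j - ζ k‖ ≤ t), (M j 0 : ℝ) * (Real.log (2 * ρ) - Real.log ‖z - ζ j‖) := Finset.sum_le_sum hfil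
    _ ≤ ∑ j, (M j 0 : ℝ) * (Real.log (2 * ρ) - Real.log ‖z - ζ j‖) :=
        Finset.sum_le_sum_of_subset_of_nonneg (Finset.filter_subset _ _) (fun j _ _ => hterm j)
    _ = Hh M h ρ 0 z - sg ζ M h 0 z := heq.symm
    _ ≤ (C₁ + C) * ρ := by rw [add_mul]; linarith

end Pool.Agent.SR3

end
end
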