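import Pool.Agent.H43.TL2.M135
import Pool.Agent.H43.TL2.M18
import Pool.Agent.H43.TL2.M32

/-! The parts of this file: G3.LLift, H62.EF.Defs_1, SDA.Nn, SDA.Oo, SR3.Defs, SR3.ABas. -/

section

/-!
# G3 LLift: local lifts of maps to the projective space
-/

set_option autoImplicit false

open Topology Filter Metric

namespace Pool.Agent.G3

open Pool.Agent.H36.BP (EN fs wd Sub)
open Pool.Agent.H62.EF (MN pr)

/-- `f` has a holomorphic lift near `z` -/
def LLift {N : ℕ} (f : ℂ → MN N) (z : ℂ) : Prop := ∃ Φ : ℂ → EN N, AnalyticAt ℂ Φ z ∧ ∀ᶠ w in 𝓝 z, Φ w ≠ 0 ∧ f w = pr (Φ w)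

end Pool.Agent.G3

end

section

/-!
# EF Defs: surfaces with a holomorphic map to an elliptic curve

`X` is the cone (without `0`) of a smooth projective surface, in `EN N = ℂ^(N+1)` with the Euclidean norm.  The map to `ℂ / Λ` is
given by a function `u : EN N → ℂ` which is holomorphic modulo `Λ`.  `pr x` is the orthogonal projection to the line of `x`, a
matrix: in this way the projective space is a compact subset of a Euclidean space.
-/

set_option autoImplicit false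

open Topology Filter Metric

namespace Pool.Agent.H62.EF

open Pool.Agent.H36.BP (EN fs wd)
open Pool.Agent.H14.PP (IsCone Chart Form Tan aCoef)

variable {N : ℕ}

/-- `Λ` is a lattice in `ℂ` -/
structure Lat (Λ : AddSubgroup ℂ) : Prop where
  discrete : ∃ δ : ℝ, 0 < δ ∧ ∀ l ∈ Λ, ‖l‖ < δ → l = 0
  cocompact : ∃ R : ℝ, 0 < R ∧ ∀ z : ℂ, ∃ l ∈ Λ, ‖z - l‖ ≤ R

/-- `X` is smooth: there are charts -/
def Charts (X : Set (EN N)) : Prop := ∀ x ∈ X, ∃ χ : Chart X, x ∈ χ.U ∧ χ.q x = 0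

/-- the determinant -/
def det2 (a b : ℂ × ℂ) : ℂ := a.1 * b.2 - a.2 * b.1

/-- a vector in the kernel of the derivative of `υ` at `p` -/
noncomputable def grd (υ : ℂ × ℂ → ℂ) (p : ℂ × ℂ) : ℂ × ℂ := (-(fderiv ℂ υ p (0, 1)), fderiv ℂ υ p (1, 0))

/-- the function which is compared with holomorphic functions -/
noncomputable def rho {Y : Type} [MetricSpace Y] (M : ℕ) (T : Y → ℝ) (f g : ℂ → Y) (z : ℂ) : ℝ := dist (f z) (g z) ^ M * T (f z)

end Pool.Agent.H62.EF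

end

section

/-!
# SDA Nn: the normalised lift, the length along curves
-/

set_option autoImplicit false

open Topology Filter Metric

noncomputable section

namespace Pool.Agent.SDA

open Pool.Agent.H36.BP (EN fs wd Sub)
open Pool.Agent.H14.PP (IsCone Tan CurveAt)

variable {N : ℕ} {ι : Type} [Fintype ι] {X K T : Set (EN N)} {P : ι → EN N → ℂ} {d : ι → ℕ}
  {n : EN N → EN N → ℝ}

/-- the derivative of an entire curve is a tangent vector -/
private theorem Nn_tan {F : ℂ → EN N} (hF : Differentiable ℂ F) (hX : ∀ z, F z ∈ X) (z : ℂ) : Tan X (F z) (deriv F z) := by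
  refine ⟨fun w => F (w + z), ⟨?_, Filter.Eventually.of_forall fun w => hX _⟩, by simp, ?_⟩
  · exact (hF.comp (differentiable_id.add_const z)).analyticAt 0
  · rw [deriv_comp_add_const]
    simp

/-- MODULE Nn (1): the normalised lift.  `∏ P i (F z)` is entire without zeros and homogeneous of degree `∑ d i ≥ 1` in `F`. -/
theorem exists_norm (h : AffOpen X K P d) {F : ℂ → EN N} (hF : Differentiable ℂ F) (hK : ∀ z, F z ∈ K) :
    ∃ u : ℂ → ℂ, Differentiable ℂ u ∧ (∀ z, u z ≠ 0) ∧ Nm P (fun z => u z • F z) := by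
  have hG : Differentiable ℂ fun z => ∏ i, P i (F z) := by
    have h1 : ∀ i ∈ (Finset.univ : Finset ι), Differentiable ℂ fun z => P i (F z) := fun i _ z =>
      ((h.an i (F z)).differentiableAt).comp z (hF z)
    exact Differentiable.fun_finsetProd h1
  have hG0 : ∀ z, ∏ i, P i (F z) ≠ 0 := fun z => Finset.prod_ne_zero_iff.2 fun i _ => ((h.mem (F z)).1 (hK z)).2 i
  obtain ⟨L, hL, hLe⟩ := Pool.Agent.H13.LU.exists_log isOpen_univ convex_univ Set.univ_nonempty hG.differentiableOn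
    fun w _ => hG0 w
  have hLd : Differentiable ℂ L := differentiableOn_univ.1 hL
  have hne : Nonempty ι := h.ne
  have hD : 0 < ∑ i, d i := Finset.sum_pos (fun i _ => h.pos i) Finset.univ_nonempty
  have hD0 : ((∑ i, d i : ℕ) : ℂ) ≠ 0 := Nat.cast_ne_zero.2 hD.ne'
  refine ⟨fun z => Complex.exp (-(L z) / ((∑ i, d i : ℕ) : ℂ)), (hLd.neg.div_const _).cexp, fun z => Complex.exp_ne_zero _, fun z => ?_⟩
  have h1 : ∀ i, P i (Complex.exp (-(L z) / ((∑ i, d i : ℕ) : ℂ)) • F z) =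
      Complex.exp (-(L z) / ((∑ i, d i : ℕ) : ℂ)) ^ d i * P i (F z) := fun i => h.smul i _ _
  change ∏ i, P i (Complex.exp (-(L z) / ((∑ i, d i : ℕ) : ℂ)) • F z) = 1
  rw [Finset.prod_congr rfl fun i _ => h1 i, Finset.prod_mul_distrib, Finset.prod_pow_eq_pow_sum, ← Complex.exp_nat_mul,
    ← hLe z (Set.mem_univ z), ← Complex.exp_add]
  have h2 : ((∑ i, d i : ℕ) : ℂ) * (-(L z) / ((∑ i, d i : ℕ) : ℂ)) + L z = 0 := by
    rw [mul_div_cancel₀ _ hD0]
    ring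
  rw [h2, Complex.exp_zero]

/-- MODULE Nn (2): the length does not depend on the lift -/
theorem n_unit (hX : IsCone X) (h : AffOpen X K P d) (hn : Gauge X K P d n) {F : ℂ → EN N} (hF : Differentiable ℂ F) (hK : ∀ z, F z ∈ K) {u : ℂ → ℂ}
    (hu : Differentiable ℂ u) (h0 : ∀ z, u z ≠ 0) (z : ℂ) :
    n (u z • F z) (deriv (fun w => u w • F w) z) = n (F z) (deriv F z) := by
  have hd : deriv (fun w => u w • F w) z = u z • deriv F z + deriv u z • F z :=
    ((hu z).hasDerivAt.smul (hF z).hasDerivAt).deriv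
  rw [hd]
  exact hn.inv (F z) (hK z) (deriv F z) (Nn_tan hF (fun w => ((h.mem _).1 (hK w)).1) z) (u z) (deriv u z) (h0 z)

/-- MODULE Nn (3): affine changes of the parameter -/
theorem n_aff (hn : Gauge X K P d n) (hKX : K ⊆ X) {F : ℂ → EN N} (hF : Differentiable ℂ F) (hK : ∀ z, F z ∈ K) (a b z : ℂ) :
    n (F (a * z + b)) (deriv (fun w => F (a * w + b)) z) = ‖a‖ * n (F (a * z + b)) (deriv F (a * z + b)) := by
  have h1 : HasDerivAt (fun w : ℂ => a * w + b) a z := by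
    have h2 := ((hasDerivAt_id z).const_mul a).add_const b
    rw [mul_one] at h2
    exact h2
  have hd : deriv (fun w => F (a * w + b)) z = a • deriv F (a * z + b) :=
    (HasDerivAt.scomp z (hF (a * z + b)).hasDerivAt h1).deriv
  rw [hd]
  exact hn.hom _ (hK _) _ (Nn_tan hF (fun w => hKX (hK w)) _) a

/-- MODULE Nn (4): normalised vectors are bounded below (`|P i x| ≤ C |x| ^ d i` by compactness of the sphere) -/
theorem norm_lower (h : AffOpen X K P d) : ∃ c : ℝ, 0 < c ∧ c ≤ 1 ∧ ∀ x : EN N, ∏ i, P i x = 1 → c ≤ ‖x‖ := by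
  have hc : Continuous fun x : EN N => ∏ i, P i x :=
    continuous_finsetProd _ fun i _ => continuous_iff_continuousAt.2 fun x => (h.an i x).continuousAt
  have h0 : ∏ i, P i (0 : EN N) = 0 := by
    obtain ⟨i⟩ := h.ne
    refine Finset.prod_eq_zero (Finset.mem_univ i) ?_
    have h1 := h.smul i 0 (0 : EN N)
    rw [smul_zero, zero_pow (Nat.one_le_iff_ne_zero.1 (h.pos i)), zero_mul] at h1
    exact h1
  have h1 : ∀ᶠ x in 𝓝 (0 : EN N), ∏ i, P i x ≠ 1 := by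
    have h2 : Tendsto (fun x : EN N => ∏ i, P i x) (𝓝 0) (𝓝 (∏ i, P i (0 : EN N))) := hc.continuousAt
    rw [h0] at h2
    exact h2.eventually_ne zero_ne_one
  obtain ⟨r, hr, hb⟩ := Metric.eventually_nhds_iff.1 h1
  refine ⟨min r 1, lt_min hr one_pos, min_le_right _ _, fun x hx => ?_⟩
  by_contra hcon
  have h3 : ‖x‖ < r := (not_le.1 hcon).trans_le (min_le_left _ _)
  exact hb (by rwa [dist_zero_right]) hx

/-- MODULE Nn (5): continuity of the length along converging curves in `K` -/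
theorem n_tendsto (hn : Gauge X K P d n) (hKX : K ⊆ X) {l : Filter ℕ} {F : ℕ → ℂ → EN N} {H : ℂ → EN N}
    (hF : ∀ᶠ k in l, Differentiable ℂ (F k) ∧ ∀ z, F k z ∈ K) (hH : Differentiable ℂ H) (hHK : ∀ z, H z ∈ K)
    (hc : TendstoLocallyUniformlyOn F H l Set.univ) (z : ℂ) :
    Tendsto (fun k => n (F k z) (deriv (F k) z)) l (𝓝 (n (H z) (deriv H z))) := by
  have h1 : Tendsto (fun k => F k z) l (𝓝 (H z)) := hc.tendsto_at (Set.mem_univ z)
  have h2 : TendstoLocallyUniformlyOn (deriv ∘ F) (deriv H) l Set.univ :=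
    hc.deriv (hF.mono fun k hk => hk.1.differentiableOn) isOpen_univ
  have h3 : Tendsto (fun k => deriv (F k) z) l (𝓝 (deriv H z)) := h2.tendsto_at (Set.mem_univ z)
  have h4 := hn.cont (H z, deriv H z) ⟨hHK z, Nn_tan hH (fun w => hKX (hHK w)) z⟩
  have h5 : Tendsto (fun k => (F k z, deriv (F k) z)) l
      (𝓝[{p : EN N × EN N | p.1 ∈ K ∧ Tan X p.1 p.2}] (H z, deriv H z)) := by
    refine tendsto_nhdsWithin_iff.2 ⟨h1.prodMk_nhds h3, ?_⟩
    filter_upwards [hF] with k hk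
    exact ⟨hk.2 z, Nn_tan hk.1 (fun w => hKX (hk.2 w)) z⟩
  exact h4.tendsto.comp h5

end Pool.Agent.SDA

end
end

section

/-!
# SDA Oo: order two and the growth of the normalised lift
-/

set_option autoImplicit false

open Topology Filter Metric

noncomputable section

namespace Pool.Agent.SDA

open Pool.Agent.H36.BP (EN fs wd Sub OrdTwo)

variable {N : ℕ} {ι : Type} [Fintype ι] {X K T : Set (EN N)} {P : ι → EN N → ℂ} {d : ι → ℕ}

/-- growth of a lift without zeros gives order two -/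
theorem ordTwo_of_growth {F : ℂ → EN N} (hF : Differentiable ℂ F) {c A : ℝ} (hc : 0 < c) (hl : ∀ z, c ≤ ‖F z‖)
    (hg : ∀ z, Real.log ‖F z‖ ≤ A * (1 + ‖z‖ ^ 2)) : OrdTwo F := by
  have hFp : ∀ z, 0 < ‖F z‖ := fun z => lt_of_lt_of_le hc (hl z)
  refine ⟨|A| + |Real.log c|, fun r hr => ?_⟩
  set E : ℝ := Real.exp (-(|A| * (1 + r ^ 2))) with hE
  have hE0 : 0 < E := Real.exp_pos _
  refine ⟨fun z => (E : ℂ) • F z, (hF.fun_const_smul _).differentiableOn, fun z hz => ?_, ?_, fun z _ => Or.inr ⟨(E : ℂ)⁻¹, ?_, ?_⟩⟩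
  · rw [norm_smul, Complex.norm_real, Real.norm_of_nonneg hE0.le]
    have h1 : ‖z‖ ^ 2 ≤ r ^ 2 := pow_le_pow_left₀ (norm_nonneg _) (by
      have := mem_ball_zero_iff.mp hz
      exact this.le) 2
    have h2 : Real.log ‖F z‖ ≤ |A| * (1 + r ^ 2) := by
      refine (hg z).trans ?_
      calc A * (1 + ‖z‖ ^ 2) ≤ |A| * (1 + ‖z‖ ^ 2) := mul_le_mul_of_nonneg_right (le_abs_self _) (by positivity)
        _ ≤ _ := mul_le_mul_of_nonneg_left (by linarith) (abs_nonneg _)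
    calc E * ‖F z‖ = Real.exp (-(|A| * (1 + r ^ 2)) + Real.log ‖F z‖) := by rw [Real.exp_add, Real.exp_log (hFp z)]
      _ ≤ 1 := by
        rw [Real.exp_le_one_iff]
        linarith
  · rw [norm_smul, Complex.norm_real, Real.norm_of_nonneg hE0.le]
    have h1 : Real.exp (-(|Real.log c| * (1 + r ^ 2))) ≤ ‖F 0‖ := by
      refine le_trans ?_ (hl 0)
      rw [← Real.le_log_iff_exp_le hc]
      have h2 := neg_abs_le (Real.log c)
      have h3 : |Real.log c| ≤ |Real.log c| * (1 + r ^ 2) := le_mul_of_one_le_right (abs_nonneg _) (by nlinarith [sq_nonneg r])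
      linarith
    calc Real.exp (-((|A| + |Real.log c|) * (1 + r ^ 2))) = E * Real.exp (-(|Real.log c| * (1 + r ^ 2))) := by
          rw [hE, ← Real.exp_add]; congr 1; ring
      _ ≤ _ := mul_le_mul_of_nonneg_left h1 hE0.le
  · exact inv_ne_zero (by exact_mod_cast hE0.ne')
  · simp only
    rw [smul_smul, inv_mul_cancel₀ (by exact_mod_cast hE0.ne'), one_smul]

end Pool.Agent.SDA

end
end

section

/-!
# SR3 Defs: logarithmic symmetric differentials with arbitrary residues; affine lines allowed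

`X` is the cone of a smooth closed surface, `K = {p ≠ 0}` the cone of an affine open part of it, `X ∖ K` a curve with normal crossings; its component
`i` is the set of the common zeros of the components of the vector valued form `E i`.  Curves in `K` are normalised by `p (F z) = 1`.
-/

set_option autoImplicit false

open Topology Filter Metric

noncomputable section

namespace Pool.Agent.SR3

open Pool.Agent.H36.BP (EN fs wd Sub OrdTwo)
open Pool.Agent.H17BP (Surface IsForm)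
open Pool.Agent.H14.PP (IsCone Tan)
open Pool.Agent.SY (Ent)
open Pool.Agent.SDA (EnergyK Near AffOpen Nm nForms)

/-- the distance of two points of the projective space -/
def pd {N : ℕ} (x y : EN N) : ℝ := wd x y / (‖x‖ * ‖y‖)

/-- The data. -/
structure Geo (N : ℕ) where
  /-- the closed surface -/
  X : Set (EN N)
  /-- the open part -/
  K : Set (EN N)
  /-- the form whose zeros are the boundary, of degree `h` -/
  p : EN N → ℂ
  h : ℕ
  /-- the components of the boundary -/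
  ι : Type
  fι : Fintype ι
  M : ℕ
  /-- the form `E i`, of degree `c i`, cuts out the component `i`; `p` has a zero of order `b i` along it -/
  E : ι → EN N → EN M
  c : ι → ℕ
  b : ι → ℕ
  /-- the logarithmic symmetric differentials, of degree `m j` -/
  J : Type
  fJ : Fintype J
  m : J → ℕ
  w : J → EN N → EN N → ℂ
  /-- the types of the points near the boundary, with the residue polynomials -/
  Ty : Type
  fTy : Fintype Ty
  supp : Ty → Finset ι
  Pol : Ty → J → MvPolynomial ι ℂ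
  ty : EN N → Ty
  /-- sections of `mΩ (K_X + D) - jΩ H` -/
  A : Type
  fA : Fintype A
  mΩ : ℕ
  jΩ : ℕ
  Ω : A → EN N → EN N → EN N → ℂ

attribute [instance] Geo.fι Geo.fJ Geo.fTy Geo.fA

namespace Geo

variable {N : ℕ} (G : Geo N)

/-- the normalising function in the form of `SDA` -/
def P : Unit → EN N → ℂ := fun _ => G.p

/-- its degree -/
def d : Unit → ℕ := fun _ => G.h

/-- `log` of the inverse distance to the component `i` of the boundary -/
def lam (i : G.ι) (x : EN N) : ℝ := G.c i * Real.log ‖x‖ - Real.log ‖G.E i x‖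

/-- the derivative of `lam i` along a curve: `2 ∂/∂z (lam i (F z)) = - ell i (F z) (F' z)` -/
def ell (i : G.ι) (x v : EN N) : ℂ :=
  inner ℂ (G.E i x) (fderiv ℂ (G.E i) x v) / (‖G.E i x‖ : ℂ) ^ 2 - (G.c i : ℂ) * (inner ℂ x v / (‖x‖ : ℂ) ^ 2)

/-- the logarithmic length -/
def L (x v : EN N) : ℝ := fs x v + ∑ i, ‖G.ell i x v‖

/-- the length of a vector of values of the forms -/
def nq (q : G.J → ℂ) : ℝ := ∑ j, ‖q j‖ ^ ((G.m j : ℝ)⁻¹)

/-- the pseudo-length `∑ |w j| ^ (1 / m j)` -/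
def n (x v : EN N) : ℝ := nForms G.m G.w x v

/-- an affine line in the affine surface: a curve of polynomial growth which is not constant -/
structure Line (F : ℂ → EN N) : Prop where
  diff : Differentiable ℂ F
  mem : ∀ z, F z ∈ G.K
  nm : ∀ z, G.p (F z) = 1
  pol : ∃ (C : ℝ) (k : ℕ), ∀ z, ‖F z‖ ≤ C * (1 + ‖z‖) ^ k
  ne : ∃ z z', F z ≠ F z'

/-- The hypotheses on the surface, the boundary and the forms. -/
structure Ok : Prop where
  cone : IsCone G.X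
  surf : Surface G.X
  aff : AffOpen G.X G.K G.P G.d
  -- the components of the boundary
  anE : ∀ i x, AnalyticAt ℂ (G.E i) x
  smulE : ∀ i (t : ℂ) (x : EN N), G.E i (t • x) = t ^ G.c i • G.E i x
  neE : ∀ i, ∀ x ∈ G.K, G.E i x ≠ 0
  c_ge : ∀ i, G.h + 1 ≤ G.c i
  b_pos : ∀ i, 1 ≤ G.b i
  cmp : ∃ C : ℝ, ∀ x ∈ G.K, |G.h * Real.log ‖x‖ - Real.log ‖G.p x‖ - ∑ i, G.b i * G.lam i x| ≤ C
  cmp' : ∃ C : ℝ, ∀ x ∈ G.K, ∀ v, Tan G.X x v →
    ‖(G.h : ℂ) * (inner ℂ x v / (‖x‖ : ℂ) ^ 2) - fderiv ℂ G.p x v / G.p x + ∑ i, (G.b i : ℂ) * G.ell i x v‖ ≤ C * fs x v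
  fsE : ∃ C : ℝ, 0 ≤ C ∧ ∀ i, ∀ x ∈ G.K, ∀ v, Tan G.X x v → fs (G.E i x) (fderiv ℂ (G.E i) x v) ≤ C * fs x v
  -- the symmetric differentials
  neJ : Nonempty G.J
  one_m : ∀ j, 1 ≤ G.m j
  w_inv : ∀ j, ∀ x ∈ G.K, ∀ v, Tan G.X x v → ∀ c a : ℂ, c ≠ 0 → G.w j (c • x) (c • v + a • x) = G.w j x v
  w_hom : ∀ j, ∀ x ∈ G.K, ∀ v, Tan G.X x v → ∀ c : ℂ, G.w j x (c • v) = c ^ G.m j * G.w j x v
  w_cont : ∀ j, ContinuousOn (fun y : EN N × EN N => G.w j y.1 y.2) {y | y.1 ∈ G.K ∧ Tan G.X y.1 y.2}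
  w_an : ∀ j (k : ℕ) (φ : (Fin k → ℂ) → EN N) (y v : Fin k → ℂ), AnalyticAt ℂ φ y → (∀ᶠ y' in 𝓝 y, φ y' ∈ G.K) →
    AnalyticAt ℂ (fun z : (Fin k → ℂ) × (Fin k → ℂ) => G.w j (φ z.1) (fderiv ℂ φ z.1 z.2)) (y, v)
  w_log : ∃ C : ℝ, 0 ≤ C ∧ ∀ j, ∀ x ∈ G.K, ∀ v, Tan G.X x v → ‖G.w j x v‖ ≤ C * G.L x v ^ G.m j
  -- the residues
  supp_card : ∀ t, (G.supp t).card ≤ 2
  Pol_hom : ∀ t j, (G.Pol t j).IsHomogeneous (G.m j)
  Pol_supp : ∀ t j (y y' : G.ι → ℂ), (∀ i ∈ G.supp t, y i = y' i) → MvPolynomial.eval y (G.Pol t j) = MvPolynomial.eval y' (G.Pol t j)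
  res : ∃ C : ℝ, 0 ≤ C ∧ ∀ x ∈ G.K, (∀ i, i ∉ G.supp (G.ty x) → G.lam i x ≤ C) ∧ ∀ j v, Tan G.X x v →
    ‖G.w j x v - MvPolynomial.eval (fun i => G.ell i x v) (G.Pol (G.ty x) j)‖ ≤ C * fs x v * G.L x v ^ (G.m j - 1)
  /-- the residues near a point of the boundary -/
  resL : ∀ y ∈ G.X, y ∉ G.K → ∃ (Q : G.J → MvPolynomial G.ι ℂ) (r C : ℝ), 0 < r ∧ 0 ≤ C ∧ (∀ j, (Q j).IsHomogeneous (G.m j)) ∧
    (∀ j (u u' : G.ι → ℂ), (∀ i, G.E i y = 0 → u i = u' i) → MvPolynomial.eval u (Q j) = MvPolynomial.eval u' (Q j)) ∧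
    ∀ x ∈ G.K, pd x y < r → ∀ j v, Tan G.X x v →
      ‖G.w j x v - MvPolynomial.eval (fun i => G.ell i x v) (Q j)‖ ≤ C * fs x v * G.L x v ^ (G.m j - 1)
  -- the sections
  one_mΩ : 1 ≤ G.mΩ
  one_jΩ : 1 ≤ G.jΩ
  form : ∀ a, IsForm G.K G.mΩ G.jΩ (G.Ω a)
  Ω_le : ∃ C : ℝ, 0 ≤ C ∧ ∀ a, ∀ x ∈ G.K, G.p x = 1 → ∀ v w, Tan G.X x v → Tan G.X x w →
    ‖G.Ω a x v w‖ ≤ C * G.L x v ^ G.mΩ * G.L x w ^ G.mΩ / ‖x‖ ^ G.jΩ
  /-- an entire curve in the boundary which is, near the points over the crossings of the boundary and up to units, a limit of entire curves in `K` is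
  constant -/
  h1 : ∀ (𝒰 : Ultrafilter ℕ), (𝒰 : Filter ℕ) ≤ atTop → ∀ (F : ℕ → ℂ → EN N) (H : ℂ → EN N), (∀ k, Differentiable ℂ (F k)) → (∀ k z, F k z ∈ G.K) →
    Differentiable ℂ H → (∀ z, H z ∈ G.X ∧ H z ∉ G.K) →
    (∀ z, (∃ i i', i ≠ i' ∧ G.E i (H z) = 0 ∧ G.E i' (H z) = 0) →
      ∃ r : ℝ, 0 < r ∧ ∃ u : ℕ → ℂ → ℂ, (∀ᶠ k in (𝒰 : Filter ℕ), DifferentiableOn ℂ (u k) (ball z r) ∧ ∀ w ∈ ball z r, u k w ≠ 0) ∧
        TendstoLocallyUniformlyOn (fun k w => u k w • F k w) H 𝒰 (ball z r)) → ∀ z z', ∃ c : ℂ, H z = c • H z'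
  /-- the boundary is the union of its components -/
  oneE : ∀ y ∈ G.X, y ∉ G.K → ∃ i, G.E i y = 0
  /-- there are no triple points -/
  twoE : ∀ y ∈ G.X, ∀ i i' i'', i ≠ i' → i' ≠ i'' → i ≠ i'' → G.E i y = 0 → G.E i' y = 0 → G.E i'' y ≠ 0
  /-- there are finitely many crossings -/
  cross : ∃ S : Finset (EN N), ∀ y ∈ G.X, ∀ i i', i ≠ i' → G.E i y = 0 → G.E i' y = 0 → ∃ s ∈ S, ∃ c : ℂ, y = c • s
  /-- at a crossing the two local equations control the distance -/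
  crE : ∀ y ∈ G.X, ∀ i i', i ≠ i' → G.E i y = 0 → G.E i' y = 0 → ∃ r C α : ℝ, 0 < r ∧ 0 < α ∧ ∀ x ∈ G.K, pd x y < r → ∀ u : ℝ, u ≤ G.lam i x →
    u ≤ G.lam i' x → pd x y ≤ C * Real.exp (-(α * u))
  /-- a local equation of a component of the boundary -/
  locE : ∀ y ∈ G.X, ∀ i, G.E i y = 0 → ∃ (l : Fin (G.M + 1)) (r c : ℝ), 0 < r ∧ 0 < c ∧ ∀ x ∈ G.X, pd x y < r → c * ‖G.E i x‖ ≤ ‖G.E i x l‖
  /-- up to the parameter there are only finitely many affine lines -/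
  lines : ∃ (n : ℕ) (Φ : Fin n → ℂ → EN N), (∀ k, G.Line (Φ k)) ∧ ∀ F, G.Line F → ∃ k, ∀ z, ∃ w, F z = Φ k w

/-- A metric along the entire curves in `K` which do not lie in `T`; without error where `rho < δ`. -/
structure Met (T : Set (EN N)) (rho : EN N → ℝ) (M : ℕ) (c₀ C δ : ℝ) (g : (ℂ → EN N) → ℂ → ℝ) : Prop where
  en : EnergyK G.X G.K T (fun x => ‖x‖) rho M c₀ C g
  pos : 0 < δ
  near : Near G.K T (fun x => ‖x‖) rho c₀ g δ
  TX : T ⊆ G.X
  Ts : ∀ x ∈ T, ∀ c : ℂ, c ≠ 0 → c • x ∈ T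
  KT : ∀ x ∈ G.X, x ∉ G.K → x ∈ T
  rho0 : ∀ x ∈ G.X, 0 ≤ rho x
  rhoT : ∀ x ∈ G.X, (rho x = 0 ↔ x ∈ T)
  rhoc : ContinuousOn rho G.X
  rhos : ∀ x ∈ G.X, ∀ c : ℂ, c ≠ 0 → rho (c • x) = rho x
  Ti : ∀ F : ℂ → EN N, Differentiable ℂ F → (∀ z, F z ∈ G.X) → (∃ z, F z ∉ T) → ∀ z₀, ∀ᶠ z in 𝓝[≠] z₀, F z ∉ T
  null : ∀ F : ℂ → EN N, Differentiable ℂ F → (∀ z, F z ∈ G.K) → OrdTwo F → (∀ z, G.n (F z) (deriv F z) = 0) →
    (∀ z, F z ∈ T) ∨ ∀ z w, ∃ c : ℂ, F z = c • F w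
  /-- the sections have no common zeros outside `T` -/
  Ωne : ∀ x ∈ G.K, x ∉ T → ∃ a, ∀ v w, Tan G.X x v → Tan G.X x w → LinearIndependent ℂ ![x, v, w] → G.Ω a x v w ≠ 0

/-- `T` is null in a quantitative sense: a disc in the bounded part of `K` which is close to `T` has a small constant length. -/
def QN (rho : EN N → ℝ) : Prop :=
  ∀ B : ℝ, ∃ C α : ℝ, 0 ≤ C ∧ 0 < α ∧ ∀ (φ : ℂ → EN N) (q : G.J → ℂ) (ε : ℝ), 0 < ε → ε ≤ 1 → DifferentiableOn ℂ φ (ball 0 1) →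
    (∀ z ∈ ball (0 : ℂ) 1, φ z ∈ G.K ∧ G.p (φ z) = 1 ∧ ‖φ z‖ ≤ B ∧ rho (φ z) ≤ ε) →
    (∀ j, ∀ z ∈ ball (0 : ℂ) 1, G.w j (φ z) (deriv φ z) = q j) → G.nq q ≤ C * ε ^ α

/-- The class: normalised entire curves in `K`, not contained in `T`, on which the forms have constant values `q`, of length one. -/
structure Cl (T : Set (EN N)) (q : G.J → ℂ) (F : ℂ → EN N) : Prop where
  ent : Ent G.K T F
  nm : ∀ z, G.p (F z) = 1
  val : ∀ j z, G.w j (F z) (deriv F z) = q j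
  one : G.nq q = 1

/-- the good points of the curve `F` -/
def Gd (rho : EN N → ℝ) (δ : ℝ) (F : ℂ → EN N) : Set ℂ := {z | δ ≤ rho (F z)}

end Geo

/-- the distance of `z` to the line through `a` with the normal `u`, with sign -/
def yy (u a z : ℂ) : ℝ := (star u * (z - a)).re

/-- the function which is `β y` on the side `y ≥ 0` of the line and `β' |y|` on the other side -/
def lin (u a : ℂ) (β β' : ℝ) (z : ℂ) : ℝ := β * max (yy u a z) 0 + β' * max (-yy u a z) 0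

/-- `(2 + r) ^ γ` -/
def pw (γ r : ℝ) : ℝ := (2 + r) ^ γ

/-- Along `F` the boundary functions `lam i` are at distance at most `ε` from the functions `lin u a (β i) (β' i)` at the points of `s`. -/
def Geo.Fits {N : ℕ} (G : Geo N) (F : ℂ → EN N) (a u : ℂ) (β β' : G.ι → ℝ) (ε : ℂ → ℝ) (s : Set ℂ) : Prop :=
  ‖u‖ = 1 ∧ (∀ i, 0 ≤ β i ∧ 0 ≤ β' i) ∧ ∀ z ∈ s, ∀ i, |G.lam i (F z) - lin u a (β i) (β' i) z| ≤ ε z

/-- the hypotheses of the function theory, for the first curve `T` -/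
structure Base {N : ℕ} (G : Geo N) (T : Set (EN N)) (rho : EN N → ℝ) (M : ℕ) (c₀ C δ : ℝ) (g : (ℂ → EN N) → ℂ → ℝ) : Prop where
  ok : G.Ok
  met : G.Met T rho M c₀ C δ g
  qn : G.QN rho

end Pool.Agent.SR3

end
end

section

/-!
# SR3 ABas: elementary facts
-/

set_option autoImplicit false

open Topology Filter Metric

noncomputable section

namespace Pool.Agent.SR3

open Pool.Agent.H36.BP (EN fs wd Sub OrdTwo)
open Pool.Agent.H14.PP (IsCone Tan)
open Pool.Agent.SY (Ent)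
open Pool.Agent.SDA (EnergyK Near AffOpen Nm nForms)
open Geo (Gd)

variable {N : ℕ} {G : Geo N} {T : Set (EN N)} {rho : EN N → ℝ} {M : ℕ} {c₀ C δ : ℝ} {g : (ℂ → EN N) → ℂ → ℝ}

theorem KX (hG : G.Ok) {x : EN N} (hx : x ∈ G.K) : x ∈ G.X := ((hG.aff.mem x).1 hx).1

theorem ne0 (hG : G.Ok) {x : EN N} (hx : x ∈ G.K) : x ≠ 0 := fun h => hG.cone.zero_notMem (h ▸ KX hG hx)

theorem mem_K_iff (hG : G.Ok) {x : EN N} : x ∈ G.K ↔ x ∈ G.X ∧ G.p x ≠ 0 := by
  rw [hG.aff.mem x]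
  exact ⟨fun h => ⟨h.1, h.2 ()⟩, fun h => ⟨h.1, fun _ => h.2⟩⟩

theorem p_smul (hG : G.Ok) (c : ℂ) (x : EN N) : G.p (c • x) = c ^ G.h * G.p x := hG.aff.smul () c x

theorem tan_at (hG : G.Ok) {F : ℂ → EN N} {z : ℂ} (hF : AnalyticAt ℂ F z) (hK : ∀ᶠ w in 𝓝 z, F w ∈ G.K) : Tan G.X (F z) (deriv F z) := by
  have hz : Tendsto (fun w : ℂ => w + z) (𝓝 0) (𝓝 z) := by
    have h1 : Tendsto (fun w : ℂ => w + z) (𝓝 0) (𝓝 (0 + z)) := (continuous_id.add continuous_const).tendsto 0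
    rwa [zero_add] at h1
  refine ⟨fun w => F (w + z), ⟨?_, ?_⟩, by simp, ?_⟩
  · have h1 : AnalyticAt ℂ (fun w : ℂ => w + z) 0 := analyticAt_id.add analyticAt_const
    refine AnalyticAt.comp (g := F) (f := fun w : ℂ => w + z) ?_ h1
    rwa [zero_add]
  · filter_upwards [hz.eventually hK] with w hw
    exact KX hG hw
  · rw [deriv_comp_add_const]
    simp

/-- the bounded part of the surface is compact -/
theorem cpt (hG : G.Ok) (B : ℝ) : IsCompact {x : EN N | x ∈ G.K ∧ G.p x = 1 ∧ ‖x‖ ≤ B} := by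
  have hc : Continuous G.p := continuous_iff_continuousAt.2 fun x => (hG.aff.an () x).continuousAt
  have h0 : G.p 0 ≠ 1 := by
    have h6 := p_smul hG 0 (0 : EN N)
    have h7 : 1 ≤ G.h := hG.aff.pos ()
    rw [zero_pow (by omega), zero_mul, smul_zero] at h6
    rw [h6]
    exact zero_ne_one
  have h1 : {x : EN N | x ∈ G.K ∧ G.p x = 1 ∧ ‖x‖ ≤ B} = (insert 0 G.X ∩ G.p ⁻¹' {1}) ∩ closedBall 0 B := by
    ext x
    simp only [Set.mem_ofPred_eq, Set.mem_inter_iff, Set.mem_insert_iff, Set.mem_preimage, Set.mem_singleton_iff, mem_closedBall_zero_iff]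
    constructor
    · rintro ⟨h1, h2, h3⟩
      exact ⟨⟨Or.inr (KX hG h1), h2⟩, h3⟩
    · rintro ⟨⟨h1, h2⟩, h3⟩
      refine ⟨(mem_K_iff hG).2 ⟨h1.resolve_left ?_, ?_⟩, h2, h3⟩
      · rintro rfl
        exact h0 h2
      · rw [h2]
        exact one_ne_zero
  rw [h1]
  exact (isCompact_closedBall (0 : EN N) B).inter_left (hG.cone.closed.inter (isClosed_singleton.preimage hc))

end Pool.Agent.SR3

end
end
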