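import Mathlib

/-! The parts of this file: H5.DG.CoverDefs, H5.DG2.TrLt, SDR.HarmD, SR3.ADefs, SR3.EDefs, SR3.GDefs, SR3.HolA, SR3.HolB, SR3.HolC, SY.NBa. -/

section

/-!
# Project DG, module CoverDefs: finite covers of projective space, definitions

`X ⊆ ℙ^Nn` is given by a homogeneous prime ideal `I`; forms `F 0, …, F (n + 1)` of degree `e`
without common zero on `X` define a finite morphism `X → ℙ^(n + 1)`.
-/

open MvPolynomial

noncomputable section

namespace Pool.Agent.H5.DG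

variable {Nn : ℕ}

/-- The ideal `I` is homogeneous. -/
def Homog (I : Ideal (MvPolynomial (Fin (Nn + 1)) ℂ)) : Prop :=
  ∀ p ∈ I, ∀ k, homogeneousComponent k p ∈ I

end Pool.Agent.H5.DG

end
end

section

/-!
# Project DG2, module TrLt: transcendence degrees of quotients by prime ideals

`TD.lt`: let `f : Fin (s + 1) → R` be independent modulo `Q₂`; then it is independent modulo `Q₁`.  Take `b ∈ Q₂`, `b ∉ Q₁`.  If
`Fin.snoc f b` were dependent modulo `Q₁`, `b` would be algebraic over `ℂ(f)` modulo `Q₁`: a relation `∑ i, c_i (f) b ^ i ∈ Q₁` with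
`c_0 (f) ∉ Q₁` (divide by a power of `b ∉ Q₁`); modulo `Q₂` it gives `c_0 (f) ∈ Q₂`, so `c_0 = 0`, a contradiction.
`TD.not_zero`: take `b ∈ Q₂ \ Q₁`; modulo `Q₁` it is algebraic over `ℂ`, so `b ≡ c`, `c ∈ ℂ` (`Q₁` prime, `ℂ` algebraically closed); `c ∈ Q₂`,
so `c = 0`, `b ∈ Q₁`.
`exists_TD`: `D = ` the largest number of elements independent modulo `Q` (at most the number of variables, since the images of the
variables generate the quotient: transcendence degree).
-/

open MvPolynomial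

noncomputable section

namespace Pool.Agent.H5.DG

variable {σ : Type} [Finite σ]

/-- The transcendence degree of the quotient by `Q` is at most `s`. -/
def TD (Q : Ideal (MvPolynomial σ ℂ)) (s : ℕ) : Prop :=
  ∀ f : Fin (s + 1) → MvPolynomial σ ℂ,
    ¬ AlgebraicIndependent ℂ fun i => Ideal.Quotient.mkₐ ℂ Q (f i)

/-- The transcendence degree. -/
theorem exists_TD {Q : Ideal (MvPolynomial σ ℂ)} (hQ : Q.IsPrime) : ∃ D : ℕ,
    TD Q D ∧ ∃ f : Fin D → MvPolynomial σ ℂ,
      AlgebraicIndependent ℂ fun i => Ideal.Quotient.mkₐ ℂ Q (f i) := by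
  have hfin : Algebra.trdeg ℂ (MvPolynomial σ ℂ ⧸ Q) < Cardinal.aleph0 :=
    trdeg_lt_aleph0_of_finiteType
  obtain ⟨D, hD⟩ := Cardinal.lt_aleph0.1 hfin
  have hinj : Function.Injective (algebraMap ℂ (MvPolynomial σ ℂ ⧸ Q)) := RingHom.injective _
  have : FaithfulSMul ℂ (MvPolynomial σ ℂ ⧸ Q) := (faithfulSMul_iff_algebraMap_injective _ _).2 hinj
  obtain ⟨s, hs⟩ := exists_isTranscendenceBasis ℂ (MvPolynomial σ ℂ ⧸ Q)
  have hcard : Cardinal.mk s = D := by rw [hs.cardinalMk_eq_trdeg, hD]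
  have : Finite s := Cardinal.lt_aleph0_iff_finite.1 (by rw [hcard]; exact Cardinal.natCast_lt_aleph0)
  have hN : Nat.card s = D := by
    rw [Nat.card, hcard, Cardinal.toNat_natCast]
  let e : Fin D ≃ s := (finCongr hN.symm).trans (Finite.equivFin s).symm
  choose g hg using Ideal.Quotient.mkₐ_surjective ℂ Q
  refine ⟨D, ?_, fun i => g (e i), ?_⟩
  · intro f hf
    have h1 := hf.cardinalMk_le_trdeg
    rw [hD, Cardinal.mk_fin] at h1
    have h2 : D + 1 ≤ D := by exact_mod_cast h1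
    omega
  · have h1 := (algebraicIndependent_equiv (R := ℂ) e).2 hs.1
    convert h1 using 1
    funext i
    rw [hg]
    rfl

end Pool.Agent.H5.DG

end
end

section

/-!
# SDR HarmD: the complex gradient `2 ∂u` of a harmonic function
-/

set_option autoImplicit false

open Topology Filter Metric Complex InnerProductSpace

noncomputable section

namespace Pool.Agent.SDR

/-- `2 ∂u` -/
def gc (u : ℂ → ℝ) (z : ℂ) : ℂ := fderiv ℝ u z 1 - I * fderiv ℝ u z I

theorem gc_congr {u v : ℂ → ℝ} {z : ℂ} (h : u =ᶠ[𝓝 z] v) : gc u z = gc v z := by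
  unfold gc
  rw [h.fderiv_eq]

theorem fderiv_eq_gc {u : ℂ → ℝ} {z : ℂ} (v : ℂ) : fderiv ℝ u z v = (gc u z * v).re := by
  have hv : v = v.re • (1 : ℂ) + v.im • (I : ℂ) := by
    apply Complex.ext <;> simp
  conv_lhs => rw [hv]
  rw [map_add, map_smul, map_smul]
  unfold gc
  simp [Complex.mul_re]
  ring

theorem analyticAt_gc {u : ℂ → ℝ} {z : ℂ} (h : HarmonicAt u z) : AnalyticAt ℂ (gc u) z :=
  HarmonicAt.analyticAt_complex_partial h

theorem gc_re {F : ℂ → ℂ} {z : ℂ} (hF : AnalyticAt ℂ F z) : gc (fun w => (F w).re) z = deriv F z := by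
  have h1 : HasDerivAt F (deriv F z) z := hF.differentiableAt.hasDerivAt
  have h2 : HasFDerivAt (fun w => (F w).re) (reCLM.comp ((ContinuousLinearMap.toSpanSingleton ℂ (deriv F z)).restrictScalars ℝ)) z :=
    reCLM.hasFDerivAt.comp z (h1.hasFDerivAt.restrictScalars ℝ)
  unfold gc
  rw [h2.fderiv]
  apply Complex.ext <;> simp

theorem gc_sub {u v : ℂ → ℝ} {z : ℂ} (hu : DifferentiableAt ℝ u z) (hv : DifferentiableAt ℝ v z) :
    gc (fun w => u w - v w) z = gc u z - gc v z := by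
  have h : fderiv ℝ (fun w => u w - v w) z = fderiv ℝ u z - fderiv ℝ v z := fderiv_fun_sub hu hv
  unfold gc
  rw [h]
  simp
  ring

theorem HarmonicAt.differentiableAt' {u : ℂ → ℝ} {z : ℂ} (h : HarmonicAt u z) : DifferentiableAt ℝ u z :=
  h.1.differentiableAt two_ne_zero

/-- gradient estimate -/
theorem norm_gc_le {u : ℂ → ℝ} {z : ℂ} {r ε : ℝ} (hr : 0 < r) (hε : 0 < ε) (hu : HarmonicOnNhd u (ball z r))
    (hb : ∀ w ∈ ball z r, |u w| ≤ ε) : ‖gc u z‖ ≤ 16 * ε / r := by
  obtain ⟨F, hF, hre⟩ := InnerProductSpace.HarmonicOnNhd.exists_analyticOnNhd_ball_re_eq hu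
  have hz : z ∈ ball z r := mem_ball_self hr
  have e1 : gc u z = deriv F z := by
    rw [← gc_re (hF z hz)]
    apply gc_congr
    filter_upwards [ball_mem_nhds z hr] with w hw
    exact (hre hw).symm
  rw [e1]
  -- Cauchy for `exp (F / ε)`
  set G : ℂ → ℂ := fun w => exp (F w / ε) with hG
  have hGd : DifferentiableOn ℂ G (ball z r) := fun w hw =>
    ((hF w hw).differentiableAt.div_const _).cexp.differentiableWithinAt
  have hnorm : ∀ w ∈ ball z r, ‖G w‖ = Real.exp (u w / ε) := by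
    intro w hw
    rw [hG]
    simp only [norm_exp]
    congr 1
    have h2 : (F w).re = u w := hre hw
    rw [← h2]
    simp
  have hGb : ∀ w ∈ sphere z (r / 2), ‖G w‖ ≤ Real.exp 1 := by
    intro w hw
    have hw' : w ∈ ball z r := by
      rw [mem_ball, mem_sphere.1 hw]
      linarith
    rw [hnorm w hw']
    apply Real.exp_le_exp.2
    rw [div_le_one hε]
    exact (le_abs_self _).trans (hb w hw')
  have hcl : DiffContOnCl ℂ G (ball z (r / 2)) := by
    apply DifferentiableOn.diffContOnCl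
    apply hGd.mono
    refine (closure_ball_subset_closedBall).trans (closedBall_subset_ball (by linarith))
  have h3 : ‖deriv G z‖ ≤ Real.exp 1 / (r / 2) := norm_deriv_le_of_forall_mem_sphere_norm_le (by linarith) hcl hGb
  have h4 : deriv G z = G z * (deriv F z / ε) := by
    have := ((hF z hz).differentiableAt.hasDerivAt.div_const (ε : ℂ)).cexp
    exact this.deriv
  rw [h4, norm_mul, hnorm z hz, norm_div] at h3
  have h5 : Real.exp (-1) ≤ Real.exp (u z / ε) := by
    apply Real.exp_le_exp.2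
    rw [le_div_iff₀ hε]
    have := neg_le_of_abs_le (hb z hz)
    linarith
  have h6 : Real.exp 1 < 2.7182818286 := Real.exp_one_lt_d9
  have h7 : ‖(ε : ℂ)‖ = ε := by rw [norm_real, Real.norm_of_nonneg hε.le]
  rw [h7] at h3
  have h8 : Real.exp (-1) * (‖deriv F z‖ / ε) ≤ Real.exp 1 / (r / 2) :=
    (mul_le_mul_of_nonneg_right h5 (by positivity)).trans h3
  have h9 : ‖deriv F z‖ / ε ≤ Real.exp 1 * (Real.exp 1 / (r / 2)) := by
    have h10 : Real.exp 1 * Real.exp (-1) = 1 := by rw [← Real.exp_add]; simp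
    calc ‖deriv F z‖ / ε = Real.exp 1 * (Real.exp (-1) * (‖deriv F z‖ / ε)) := by rw [← mul_assoc, h10, one_mul]
      _ ≤ _ := mul_le_mul_of_nonneg_left h8 (Real.exp_pos _).le
  rw [div_le_iff₀ hε] at h9
  have h11 : Real.exp 1 * (Real.exp 1 / (r / 2)) * ε = (2 * Real.exp 1 * Real.exp 1) * ε / r := by
    field_simp
  rw [h11] at h9
  refine h9.trans ?_
  apply div_le_div_of_nonneg_right _ hr.le
  apply mul_le_mul_of_nonneg_right _ hε.le
  nlinarith [Real.exp_pos 1]

/-- a nonnegative harmonic function on a ball with a zero vanishes -/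
theorem eq_zero_of_nonneg {u : ℂ → ℝ} {z : ℂ} {r : ℝ} (hu : HarmonicOnNhd u (ball z r)) (h0 : ∀ w ∈ ball z r, 0 ≤ u w) {w₀ : ℂ}
    (hw₀ : w₀ ∈ ball z r) (hz : u w₀ = 0) : ∀ w ∈ ball z r, u w = 0 := by
  obtain ⟨F, hF, hre⟩ := InnerProductSpace.HarmonicOnNhd.exists_analyticOnNhd_ball_re_eq hu
  have h1 := (hF w₀ hw₀).eventually_constant_or_nhds_le_map_nhds
  have hFe : ∀ᶠ w in 𝓝 w₀, F w = F w₀ := by
    rcases h1 with h1 | h1
    · exact h1
    · exfalso
      have h2 : ∀ᶠ y in 𝓝 (F w₀), 0 ≤ y.re := by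
        apply h1
        rw [mem_map]
        filter_upwards [isOpen_ball.mem_nhds hw₀] with w hw
        show 0 ≤ (F w).re
        have : (F w).re = u w := hre hw
        rw [this]
        exact h0 w hw
      have h3 : (F w₀).re = 0 := by
        have : (F w₀).re = u w₀ := hre hw₀
        rw [this, hz]
      have h4 : Tendsto (fun t : ℝ => F w₀ - t) (𝓝[>] 0) (𝓝 (F w₀)) := by
        have h5 : Continuous fun t : ℝ => F w₀ - t := by fun_prop
        have h6 := h5.tendsto 0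
        simp only [ofReal_zero, sub_zero] at h6
        exact h6.mono_left nhdsWithin_le_nhds
      obtain ⟨t, ht1, ht2⟩ := ((h4.eventually h2).and self_mem_nhdsWithin).exists
      have ht3 : 0 < t := ht2
      rw [sub_re, h3, ofReal_re] at ht1
      linarith
  have h2 : Set.EqOn F (fun _ => F w₀) (ball z r) :=
    hF.eqOn_of_preconnected_of_eventuallyEq analyticOnNhd_const (convex_ball z r).isPreconnected hw₀ hFe
  intro w hw
  have e1 : (F w).re = u w := hre hw
  have e2 : (F w₀).re = u w₀ := hre hw₀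
  rw [← e1, h2 hw, e2, hz]

/-- a harmonic function whose gradient is constant is affine -/
theorem affine_of_gc {u : ℂ → ℝ} {s : Set ℂ} (hs : IsOpen s) (hc : IsPreconnected s) (hu : HarmonicOnNhd u s) {κ : ℂ}
    (hk : ∀ z ∈ s, gc u z = κ) {z₀ : ℂ} (hz₀ : z₀ ∈ s) : ∀ z ∈ s, u z = u z₀ + (κ * (z - z₀)).re := by
  have hd : DifferentiableOn ℝ (fun z => u z - (κ * (z - z₀)).re) s := by
    intro z hz
    have h1 : DifferentiableAt ℝ u z := HarmonicAt.differentiableAt' (hu z hz)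
    have h2 : DifferentiableAt ℝ (fun z => (κ * (z - z₀)).re) z := by fun_prop
    exact (h1.sub h2).differentiableWithinAt
  have h0 : ∀ z ∈ s, fderiv ℝ (fun z => u z - (κ * (z - z₀)).re) z = 0 := by
    intro z hz
    have h1 : DifferentiableAt ℝ u z := HarmonicAt.differentiableAt' (hu z hz)
    have h2 : HasFDerivAt (fun z => (κ * (z - z₀)).re) (reCLM.comp ((ContinuousLinearMap.toSpanSingleton ℂ κ).restrictScalars ℝ)) z := by
      have h3 : HasDerivAt (fun z => κ * (z - z₀)) κ z := by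
        simpa using ((hasDerivAt_id z).sub_const z₀).const_mul κ
      exact reCLM.hasFDerivAt.comp z (h3.hasFDerivAt.restrictScalars ℝ)
    rw [fderiv_fun_sub h1 h2.differentiableAt, h2.fderiv]
    ext v
    simp only [sub_apply, zero_apply]
    rw [fderiv_eq_gc, hk z hz]
    simp [mul_comm]
  intro z hz
  have h1 := hs.is_const_of_fderiv_eq_zero hc hd (fun w hw => h0 w hw) hz hz₀
  have h2 : u z - (κ * (z - z₀)).re = u z₀ - (κ * (z₀ - z₀)).re := h1
  rw [sub_self, mul_zero, zero_re, sub_zero] at h2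
  linarith

end Pool.Agent.SDR

end
end

section

/-!
# SR3 ADefs
-/

set_option autoImplicit false

open Topology Filter Metric

noncomputable section

namespace Pool.Agent.SR3

/-- the real linear map `w ↦ Re (l * w)` -/
def reL (l : ℂ) : ℂ →L[ℝ] ℝ := Complex.reCLM.comp (ContinuousLinearMap.mul ℝ ℂ l)

@[simp] theorem reL_apply (l w : ℂ) : reL l w = (l * w).re := rfl

end Pool.Agent.SR3

end
end

section

/-!
# SR3 EDefs: block E, definitions (pure function theory, no geometry)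

A family of tuples `lam x i : ℂ → ℝ` with the sets `G x` of good points; `d x z` = distance to `G x`, `S x = ∑ lam x i`.
-/

set_option autoImplicit false

open Topology Filter Metric Complex InnerProductSpace Laplacian

noncomputable section

namespace Pool.Agent.SR3.BE

open Pool.Agent.SDR (gc)

/-- the distance of `z` to the line through `a` with the normal `u`, with sign -/
def ht (u a z : ℂ) : ℝ := (star u * (z - a)).re

/-- the function which is `β y` on the side `y ≥ 0` of the line and `β' |y|` on the other side -/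
def vee (u a : ℂ) (β β' : ℝ) (z : ℂ) : ℝ := β * max (ht u a z) 0 + β' * max (-ht u a z) 0

/-- the data -/
structure Fam (X ι : Type) where
  lam : X → ι → ℂ → ℝ
  G : X → Set ℂ

/-- the distance to the good points -/
def Fam.d {X ι : Type} (Φ : Fam X ι) (x : X) (z : ℂ) : ℝ := infDist z (Φ.G x)

variable {X ι : Type} [Fintype ι]

/-- the sum of the functions -/
def Fam.S (Φ : Fam X ι) (x : X) (z : ℂ) : ℝ := ∑ i, Φ.lam x i z

/-- the hypotheses -/
structure Hyp (Φ : Fam X ι) (C c R₀ : ℝ) : Prop where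
  C_ge : 1 ≤ C
  c_pos : 0 < c
  R_ge : 1 ≤ R₀
  ne : ∀ x, (Φ.G x).Nonempty
  nn : ∀ x i z, 0 ≤ Φ.lam x i z
  up : ∀ x i z, Φ.lam x i z ≤ C * (1 + Φ.d x z)
  low : ∀ x z, R₀ ≤ Φ.d x z → c * Φ.d x z ≤ Φ.S x z
  c2 : ∀ x i z, R₀ ≤ Φ.d x z → ContDiffAt ℝ 2 (Φ.lam x i) z
  lap : ∀ x i z, R₀ ≤ Φ.d x z → |Δ (Φ.lam x i) z| ≤ C / Φ.d x z ^ 2

/-- on the disc with center `a` and radius `R` the functions `lam x i` are at distance at most `e` from the functions `vee u a (β i) (β' i)` -/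
structure Fit (Φ : Fam X ι) (x : X) (a : ℂ) (R e A : ℝ) (u : ℂ) (β β' : ι → ℝ) : Prop where
  nu : ‖u‖ = 1
  nβ : ∀ i, 0 ≤ β i
  nβ' : ∀ i, 0 ≤ β' i
  Aβ : A ≤ ∑ i, β i
  Aβ' : A ≤ ∑ i, β' i
  fit : ∀ z ∈ closedBall a R, ∀ i, |Φ.lam x i z - vee u a (β i) (β' i) z| ≤ e

/-- comparison of depth and height -/
structure Dep (Φ : Fam X ι) (A c₂ C₂ R₂ : ℝ) : Prop where
  c_pos : 0 < c₂
  c_le : c₂ ≤ 1
  C_ge : 1 ≤ C₂
  R_ge : 1 ≤ R₂
  dep : ∀ (x : X) (a : ℂ) (R e : ℝ) (u : ℂ) (β β' : ι → ℝ), a ∈ Φ.G x → 1 ≤ R → Fit Φ x a R e A u β β' → ∀ z ∈ closedBall a R,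
    R₂ ≤ |ht u a z| → e ≤ c₂ * |ht u a z| → c₂ * |ht u a z| ≤ Φ.d x z ∧ Φ.d x z ≤ C₂ * |ht u a z|
  het : ∀ (x : X) (a : ℂ) (R e : ℝ) (u : ℂ) (β β' : ι → ℝ), a ∈ Φ.G x → 1 ≤ R → Fit Φ x a R e A u β β' → ∀ z ∈ closedBall a R,
    R₂ ≤ Φ.d x z → e ≤ c₂ * Φ.d x z → c₂ * Φ.d x z ≤ |ht u a z|

/-- the oscillation of the quotients `lam x i / S x` at the scale `r` and depth at least `κ r` is at most `B` -/
def OscLe (Φ : Fam X ι) (κ r B : ℝ) : Prop :=
  ∀ (x : X) (a : ℂ), a ∈ Φ.G x → ∀ z ∈ closedBall a r, ∀ z' ∈ closedBall a r, (∀ w ∈ segment ℝ z z', κ * r ≤ Φ.d x w) →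
    ∀ i, |Φ.lam x i z / Φ.S x z - Φ.lam x i z' / Φ.S x z'| ≤ B

/-- flatness at all large scales -/
def AllFlat (Φ : Fam X ι) (A : ℝ) : Prop :=
  ∀ η : ℝ, 0 < η → ∃ R₁ : ℝ, ∀ (x : X) (a : ℂ), a ∈ Φ.G x → ∀ R : ℝ, R₁ ≤ R → ∃ u β β', Fit Φ x a R (η * R) A u β β'

/-- the relation between the gradients: one of finitely many homogeneous polynomials has a fixed value -/
structure Rel (Φ : Fam X ι) (C R₀ cq : ℝ) {J Ty : Type} (m : J → ℕ) (Pol : Ty → J → MvPolynomial ι ℂ) (q : X → J → ℂ) : Prop where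
  one : ∀ j, 1 ≤ m j
  hom : ∀ t j, (Pol t j).IsHomogeneous (m j)
  pos : 0 < cq
  exj : ∀ x, ∃ j, cq ≤ ‖q x j‖
  rel : ∀ x j z, R₀ ≤ Φ.d x z → ∃ t, ‖MvPolynomial.eval (fun i => gc (Φ.lam x i) z) (Pol t j) - q x j‖ ≤ C / Φ.d x z

/-- On the disc of radius `R` at `a`, at height at least `δ R`, the functions are affine up to `e`, with proportional linear parts. -/
def TopAff (Φ : Fam X ι) (x : X) (a : ℂ) (R δ e : ℝ) (u : ℂ) (t : ι → ℝ) (k : ℂ) (b : ι → ℝ) : Prop :=
  (∀ i, 0 ≤ t i) ∧ ∑ i, t i = 1 ∧ ∀ z ∈ closedBall a R, δ * R ≤ ht u a z → ∀ i, |Φ.lam x i z - (t i * (k * (z - a)).re + b i)| ≤ e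

theorem Fit.mono {Φ : Fam X ι} {x : X} {a : ℂ} {R R' e e' A A' : ℝ} {u : ℂ} {β β' : ι → ℝ} (h : Fit Φ x a R e A u β β') (hR : R' ≤ R) (he : e ≤ e')
    (hA : A' ≤ A) : Fit Φ x a R' e' A' u β β' :=
  ⟨h.nu, h.nβ, h.nβ', hA.trans h.Aβ, hA.trans h.Aβ', fun z hz i => (h.fit z (closedBall_subset_closedBall hR hz) i).trans he⟩

theorem OscLe.mono {Φ : Fam X ι} {κ r B B' : ℝ} (h : OscLe Φ κ r B) (hB : B ≤ B') : OscLe Φ κ r B' :=
  fun x a ha z hz z' hz' hw i => (h x a ha z hz z' hz' hw i).trans hB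

theorem AllFlat.mono {Φ : Fam X ι} {A A' : ℝ} (h : AllFlat Φ A) (hA : A' ≤ A) : AllFlat Φ A' := by
  intro η hη
  obtain ⟨R₁, h1⟩ := h η hη
  refine ⟨R₁, fun x a ha R hR => ?_⟩
  obtain ⟨u, β, β', h2⟩ := h1 x a ha R hR
  exact ⟨u, β, β', h2.mono le_rfl le_rfl hA⟩

theorem TopAff.mono {Φ : Fam X ι} {x : X} {a : ℂ} {R δ δ' e e' : ℝ} {u : ℂ} {t : ι → ℝ} {k : ℂ} {b : ι → ℝ} (h : TopAff Φ x a R δ e u t k b)
    (hδ : δ * R ≤ δ' * R) (he : e ≤ e') : TopAff Φ x a R δ' e' u t k b :=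
  ⟨h.1, h.2.1, fun z hz hz' i => (h.2.2 z hz (hδ.trans hz') i).trans he⟩

theorem ht_neg (u a z : ℂ) : ht (-u) a z = - ht u a z := by
  unfold ht
  rw [star_neg, neg_mul, Complex.neg_re]

theorem vee_neg (u a : ℂ) (β β' : ℝ) (z : ℂ) : vee (-u) a β' β z = vee u a β β' z := by
  unfold vee
  rw [ht_neg, neg_neg]
  ring

theorem abs_ht_le {u : ℂ} (hu : ‖u‖ = 1) (a z : ℂ) : |ht u a z| ≤ ‖z - a‖ := by
  unfold ht
  refine (Complex.abs_re_le_norm _).trans ?_
  rw [norm_mul, norm_star, hu, one_mul]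

theorem ht_add {u : ℂ} (hu : ‖u‖ = 1) (a : ℂ) (z : ℂ) (r : ℝ) : ht u a (z + r * u) = ht u a z + r := by
  unfold ht
  have h1 : star u * u = 1 := by
    show (starRingEnd ℂ) u * u = 1
    rw [← Complex.normSq_eq_conj_mul_self, Complex.normSq_eq_norm_sq, hu]
    norm_num
  have h2 : star u * (z + r * u - a) = star u * (z - a) + r * (star u * u) := by ring
  rw [h2, h1]
  simp

end Pool.Agent.SR3.BE

end
end

section

/-!
# SR3 GDefs: definitions for part (G) of the gap without a hypothesis on affine lines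

Lines, their ends, holes (the small discs which contain the points where the lift is bounded).  -/

set_option autoImplicit false

open Topology Filter Metric

noncomputable section

namespace Pool.Agent.SR3

/-- outside the open discs with centres in `t` and radii `s` -/
def Off (t : Finset ℂ) (s : ℂ → ℝ) (z : ℂ) : Prop := ∀ a ∈ t, s a ≤ ‖z - a‖

/-- outside the discs with radii `√(s a)` -/
def Far (t : Finset ℂ) (s : ℂ → ℝ) (z : ℂ) : Prop := ∀ a ∈ t, ‖z - a‖ < 1 → √(s a) ≤ ‖z - a‖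

end Pool.Agent.SR3

namespace Pool.Agent.SR3.Geo

open Pool.Agent.SR3 (Off Far)

end Pool.Agent.SR3.Geo

end
end

section

/-!
# SR3 HolA: a good radius (helper21)
-/

set_option autoImplicit false

open Topology Filter Metric MeasureTheory

noncomputable section

namespace Pool.Agent.SR3

theorem exists_rad (t : Finset ℂ) (τ : ℂ → ℝ) (w : ℂ) {a b : ℝ} (h0 : ∀ k ∈ t, 0 ≤ τ k) (hs : 2 * ∑ k ∈ t, τ k < b - a) :
    ∃ ρ, a < ρ ∧ ρ < b ∧ ∀ k ∈ t, ∀ ζ, ‖ζ - w‖ = ρ → τ k ≤ ‖ζ - k‖ := by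
  by_contra hcon
  push Not at hcon
  have hsub : Set.Ioo a b ⊆ ⋃ k ∈ t, Set.Ioo (‖k - w‖ - τ k) (‖k - w‖ + τ k) := by
    intro ρ hρ
    obtain ⟨k, hk, ζ, hζ, hlt⟩ := hcon ρ hρ.1 hρ.2
    rw [Set.mem_iUnion₂]
    refine ⟨k, hk, ?_, ?_⟩
    · have h1 : ‖k - w‖ ≤ ‖ζ - w‖ + ‖ζ - k‖ := by
        have : k - w = (ζ - w) - (ζ - k) := by ring
        rw [this]; exact norm_sub_le _ _
      linarith
    · have h1 : ‖ζ - w‖ ≤ ‖k - w‖ + ‖ζ - k‖ := by
        have : ζ - w = (k - w) + (ζ - k) := by ring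
        rw [this]; exact norm_add_le _ _
      linarith
  have h1 := measure_mono (μ := volume) hsub
  have h2 : volume (⋃ k ∈ t, Set.Ioo (‖k - w‖ - τ k) (‖k - w‖ + τ k)) ≤ ∑ k ∈ t, ENNReal.ofReal (2 * τ k) := by
    refine (measure_biUnion_finset_le t _).trans (Finset.sum_le_sum fun k _ => ?_)
    rw [Real.volume_Ioo]
    refine le_of_eq (congrArg _ ?_)
    ring
  rw [← ENNReal.ofReal_sum_of_nonneg (fun k hk => by have := h0 k hk; positivity)] at h2
  rw [Real.volume_Ioo] at h1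
  have h3 := h1.trans h2
  rw [ENNReal.ofReal_le_ofReal_iff (Finset.sum_nonneg fun k hk => by have := h0 k hk; positivity), ← Finset.mul_sum] at h3
  linarith

end Pool.Agent.SR3

end
end

section

/-!
# SR3 HolB: extension over the holes (Laurent splitting) and the residue form

`lau f a s ζ = -(2 π i)⁻¹ ∮ (ξ - ζ)⁻¹ f ξ` over `C(a, s)` is holomorphic off the circle; `f - lau` extends over the disc.
-/

set_option autoImplicit false

open Topology Filter Metric MeasureTheory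

noncomputable section

namespace Pool.Agent.SR3

variable {E : Type} [NormedAddCommGroup E] [NormedSpace ℂ E] [CompleteSpace E]

omit [CompleteSpace E] in
/-- the Cauchy integral is holomorphic off the circle -/
private theorem cint_diff {f : ℂ → E} {a : ℂ} {s : ℝ} (hs : 0 < s) (hf : ContinuousOn f (sphere a s)) {x : ℂ} (hx : ‖x - a‖ ≠ s) :
    DifferentiableAt ℂ (fun x => ∮ ξ in C(a, s), (ξ - x)⁻¹ • f ξ) x := by
  set δ : ℝ := |‖x - a‖ - s| with hδd
  have hδ : 0 < δ := abs_pos.2 (sub_ne_zero.2 hx)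
  have hcm : ∀ θ : ℝ, circleMap a s θ ∈ sphere a s := fun θ => circleMap_mem_sphere a hs.le θ
  have hfar : ∀ y ∈ ball x (δ / 2), ∀ θ : ℝ, δ / 2 ≤ ‖circleMap a s θ - y‖ := by
    intro y hy θ
    have h1 : ‖y - x‖ < δ / 2 := by simpa [dist_eq_norm] using hy
    have h2 : ‖circleMap a s θ - a‖ = s := by simpa [dist_eq_norm] using hcm θ
    have h3 : δ ≤ ‖circleMap a s θ - x‖ := by
      have := abs_norm_sub_norm_le (x - a) (circleMap a s θ - a)
      rw [h2, sub_sub_sub_cancel_right, norm_sub_rev x (circleMap a s θ)] at this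
      exact this
    have h4 : ‖circleMap a s θ - x‖ ≤ ‖circleMap a s θ - y‖ + ‖y - x‖ := by
      have := norm_add_le (circleMap a s θ - y) (y - x)
      rwa [sub_add_sub_cancel] at this
    linarith
  have hne : ∀ y ∈ ball x (δ / 2), ∀ θ : ℝ, circleMap a s θ - y ≠ 0 := by
    intro y hy θ h0
    have := hfar y hy θ
    rw [h0, norm_zero] at this
    linarith
  have hfc : Continuous fun θ : ℝ => f (circleMap a s θ) := hf.comp_continuous (continuous_circleMap a s) hcm
  obtain ⟨C, hC⟩ := (isCompact_sphere a s).exists_bound_of_continuousOn hf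
  have hC0 : 0 ≤ C := (norm_nonneg _).trans (hC _ (hcm 0))
  have hdc : Continuous fun θ : ℝ => deriv (circleMap a s) θ := by
    have : (fun θ : ℝ => deriv (circleMap a s) θ) = fun θ => circleMap 0 s θ * Complex.I := by
      funext θ
      exact deriv_circleMap a s θ
    rw [this]
    exact (continuous_circleMap 0 s).mul continuous_const
  have hdn : ∀ θ : ℝ, ‖deriv (circleMap a s) θ‖ = s := by
    intro θ
    rw [deriv_circleMap, norm_mul, Complex.norm_I, mul_one, circleMap_zero, norm_mul, Complex.norm_exp_ofReal_mul_I, mul_one, Complex.norm_real,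
      Real.norm_eq_abs, abs_of_pos hs]
  have hFc : ∀ y ∈ ball x (δ / 2), Continuous fun θ : ℝ => deriv (circleMap a s) θ • ((circleMap a s θ - y)⁻¹ • f (circleMap a s θ)) := by
    intro y hy
    exact hdc.smul ((((continuous_circleMap a s).sub continuous_const).inv₀ (hne y hy)).smul hfc)
  have hFc' : Continuous fun θ : ℝ => deriv (circleMap a s) θ • (((circleMap a s θ - x) ^ 2)⁻¹ • f (circleMap a s θ)) := by
    refine hdc.smul (((((continuous_circleMap a s).sub continuous_const).pow 2).inv₀ fun θ => ?_).smul hfc)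
    exact pow_ne_zero 2 (hne x (mem_ball_self (by positivity)) θ)
  have hx0 : x ∈ ball x (δ / 2) := mem_ball_self (by positivity)
  have key := intervalIntegral.hasDerivAt_integral_of_dominated_loc_of_deriv_le (μ := volume) (a := 0) (b := 2 * Real.pi) (x₀ := x)
    (F := fun y θ => deriv (circleMap a s) θ • ((circleMap a s θ - y)⁻¹ • f (circleMap a s θ)))
    (F' := fun y θ => deriv (circleMap a s) θ • (((circleMap a s θ - y) ^ 2)⁻¹ • f (circleMap a s θ))) (s := ball x (δ / 2))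
    (bound := fun _ => s * (((δ / 2) ^ 2)⁻¹ * C)) (ball_mem_nhds x (by positivity))
    (by filter_upwards [ball_mem_nhds x (show 0 < δ / 2 by positivity)] with y hy using (hFc y hy).aestronglyMeasurable)
    ((hFc x hx0).intervalIntegrable _ _) hFc'.aestronglyMeasurable
    (by
      refine Eventually.of_forall fun θ _ y hy => ?_
      rw [norm_smul, norm_smul, norm_inv, norm_pow, hdn]
      refine mul_le_mul_of_nonneg_left (mul_le_mul ?_ (hC _ (hcm θ)) (norm_nonneg _) (by positivity)) hs.le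
      exact inv_anti₀ (by positivity) (pow_le_pow_left₀ (by positivity) (hfar y hy θ) 2))
    intervalIntegrable_const
    (by
      refine Eventually.of_forall fun θ _ y hy => ?_
      have h1 : HasDerivAt (fun y : ℂ => circleMap a s θ - y) (-1) y := by simpa using (hasDerivAt_id y).const_sub (circleMap a s θ)
      have h2 : HasDerivAt (fun y : ℂ => (circleMap a s θ - y)⁻¹) (((circleMap a s θ - y) ^ 2)⁻¹) y := by
        have h3 := h1.inv (hne y hy θ)
        have e1 : -(-1 : ℂ) / (circleMap a s θ - y) ^ 2 = ((circleMap a s θ - y) ^ 2)⁻¹ := by rw [neg_neg, one_div]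
        rw [e1] at h3
        exact h3
      exact (h2.smul_const (f (circleMap a s θ))).const_smul (deriv (circleMap a s) θ))
  exact key.2.differentiableAt

/-- Cauchy's formula on an annulus -/
private theorem ann_cauchy {f : ℂ → E} {a : ℂ} {r d : ℝ} (hr : 0 < r) (hf : ∀ z, r ≤ ‖z - a‖ → ‖z - a‖ ≤ d → DifferentiableAt ℂ f z) {x : ℂ}
    (h1 : r < ‖x - a‖) (h2 : ‖x - a‖ < d) :
    (∮ z in C(a, d), (z - x)⁻¹ • f z) - (∮ z in C(a, r), (z - x)⁻¹ • f z) = (2 * Real.pi * Complex.I : ℂ) • f x := by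
  have hrd : r < d := h1.trans h2
  have hsplit : ∀ R : ℝ, r ≤ R → R ≤ d → ‖x - a‖ ≠ R →
      (∮ z in C(a, R), dslope f x z) = (∮ z in C(a, R), (z - x)⁻¹ • f z) - (∮ z in C(a, R), (z - x)⁻¹) • f x := by
    intro R hR0 hRd hxR
    have hR : 0 ≤ R := hr.le.trans hR0
    have hz : ∀ z ∈ sphere a R, DifferentiableAt ℂ f z ∧ z - x ≠ 0 := by
      intro z hz
      have hzn : ‖z - a‖ = R := by simpa [dist_eq_norm] using hz
      refine ⟨hf z (by rw [hzn]; exact hR0) (by rw [hzn]; exact hRd), fun h0 => ?_⟩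
      rw [sub_eq_zero] at h0
      rw [h0] at hzn
      exact hxR hzn
    have hinv : ContinuousOn (fun z : ℂ => (z - x)⁻¹) (sphere a R) := ContinuousOn.inv₀ (by fun_prop) fun z hz' => (hz z hz').2
    have e1 : (∮ z in C(a, R), dslope f x z) = ∮ z in C(a, R), ((z - x)⁻¹ • f z - (z - x)⁻¹ • f x) := by
      refine circleIntegral.integral_congr hR fun z hz' => ?_
      have h3 : z ≠ x := sub_ne_zero.1 (hz z hz').2
      rw [dslope_of_ne _ h3, slope_def_module, smul_sub]
    rw [e1, circleIntegral.integral_sub, circleIntegral.integral_smul_const]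
    · refine ContinuousOn.circleIntegrable hR (hinv.smul fun z hz' => (hz z hz').1.continuousAt.continuousWithinAt)
    · exact ContinuousOn.circleIntegrable hR (hinv.smul continuousOn_const)
  have hin : (∮ z in C(a, d), (z - x)⁻¹) = 2 * Real.pi * Complex.I :=
    circleIntegral.integral_sub_inv_of_mem_ball (by simpa [dist_eq_norm] using h2)
  have hout : (∮ z in C(a, r), (z - x)⁻¹) = 0 := by
    have hne : ∀ z ∈ closedBall a r, z - x ≠ 0 := by
      intro z hz h0
      have hzn : ‖z - a‖ ≤ r := by simpa [dist_eq_norm] using hz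
      rw [sub_eq_zero] at h0
      rw [h0] at hzn
      linarith
    refine Complex.circleIntegral_eq_zero_of_differentiable_on_off_countable hr.le Set.countable_empty
      (ContinuousOn.inv₀ (by fun_prop) hne) fun z hz => ?_
    exact DifferentiableAt.inv (by fun_prop) (hne z (ball_subset_closedBall hz.1))
  have key : (∮ z in C(a, d), dslope f x z) = ∮ z in C(a, r), dslope f x z := by
    refine Complex.circleIntegral_eq_of_differentiable_on_annulus_off_countable hr hrd.le (Set.countable_singleton x) ?_ ?_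
    · intro z hz
      have hz1 : ‖z - a‖ ≤ d := by simpa [dist_eq_norm] using hz.1
      have hz2 : r ≤ ‖z - a‖ := by simpa [dist_eq_norm] using hz.2
      refine ContinuousAt.continuousWithinAt ?_
      by_cases hzx : z = x
      · rw [hzx]
        exact continuousAt_dslope_same.2 (hf x h1.le h2.le)
      · exact (continuousAt_dslope_of_ne hzx).2 (hf z hz2 hz1).continuousAt
    · intro z hz
      have hz1 : ‖z - a‖ < d := by simpa [dist_eq_norm] using hz.1.1
      have hz2 : r < ‖z - a‖ := by simpa [dist_eq_norm] using hz.1.2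
      exact (differentiableAt_dslope_of_ne hz.2).2 (hf z hz2.le hz1.le)
  rw [hsplit d hrd.le le_rfl (ne_of_lt h2), hsplit r le_rfl hrd.le (ne_of_gt h1), hin, hout, zero_smul, sub_zero] at key
  rw [← key]
  abel

/-- the outer part of the Laurent splitting -/
private def lau (f : ℂ → E) (a : ℂ) (s : ℝ) (ζ : ℂ) : E := -((2 * Real.pi * Complex.I : ℂ)⁻¹ • ∮ ξ in C(a, s), (ξ - ζ)⁻¹ • f ξ)

omit [CompleteSpace E] in
private theorem lau_diff {f : ℂ → E} {a : ℂ} {s : ℝ} (hs : 0 < s) (hf : ∀ ζ, ‖ζ - a‖ = s → DifferentiableAt ℂ f ζ) {x : ℂ} (hx : s < ‖x - a‖) :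
    DifferentiableAt ℂ (lau f a s) x := by
  have hc : ContinuousOn f (sphere a s) := fun z hz =>
    (hf z (by simpa [dist_eq_norm] using hz)).continuousAt.continuousWithinAt
  exact ((cint_diff hs hc hx.ne').const_smul _).neg

omit [CompleteSpace E] in
private theorem lau_bound {f : ℂ → E} {a : ℂ} {s μ : ℝ} (hs : 0 < s) (hf : ∀ ζ, ‖ζ - a‖ = s → ‖f ζ‖ ≤ μ) {x : ℂ} (hx : 2 * s ≤ ‖x - a‖) :
    ‖lau f a s x‖ ≤ 2 * μ * (s / ‖x - a‖) := by
  have hμ : 0 ≤ μ := (norm_nonneg _).trans (hf (a + s) (by simp [abs_of_pos hs]))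
  have hx0 : 0 < ‖x - a‖ := by linarith
  unfold lau
  rw [norm_neg]
  have h1 := circleIntegral.norm_two_pi_i_inv_smul_integral_le_of_norm_le_const (c := a) (R := s) (C := (‖x - a‖ - s)⁻¹ * μ)
    (f := fun ξ => (ξ - x)⁻¹ • f ξ) hs.le (by
      intro z hz
      have hzn : ‖z - a‖ = s := by simpa [dist_eq_norm] using hz
      rw [norm_smul, norm_inv]
      refine mul_le_mul (inv_anti₀ (by linarith) ?_) (hf z hzn) (norm_nonneg _) (inv_nonneg.2 (by linarith))
      have h3 := norm_sub_norm_le (x - a) (z - a)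
      rw [hzn, sub_sub_sub_cancel_right, norm_sub_rev x z] at h3
      exact h3)
  refine h1.trans ?_
  have h4 : (‖x - a‖ - s)⁻¹ ≤ 2 / ‖x - a‖ := by
    rw [inv_eq_one_div, div_le_div_iff₀ (by linarith) hx0]
    linarith
  calc s * ((‖x - a‖ - s)⁻¹ * μ) ≤ s * (2 / ‖x - a‖ * μ) := by
        refine mul_le_mul_of_nonneg_left (mul_le_mul_of_nonneg_right h4 hμ) hs.le
    _ = 2 * μ * (s / ‖x - a‖) := by ring

/-- the splitting over all holes -/
private theorem split {f : ℂ → E} {V : Set ℂ} (t : Finset ℂ) (s : ℂ → ℝ)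
    (hs : ∀ a ∈ t, 0 < s a) (hsep : ∀ a ∈ t, ∀ b ∈ t, a ≠ b → 4 * max (s a) (s b) < ‖a - b‖) (hf : ∀ ζ ∈ V, Off t s ζ → DifferentiableAt ℂ f ζ)
    (hμ : ∀ a ∈ t, ∀ ζ, s a ≤ ‖ζ - a‖ → ‖ζ - a‖ ≤ 2 * s a → DifferentiableAt ℂ f ζ) :
    ∃ g : ℂ → E, (∀ ζ ∈ V, DifferentiableAt ℂ g ζ) ∧ ∀ ζ, Off t (fun a => 2 * s a) ζ → g ζ = f ζ - ∑ a ∈ t, lau f a (s a) ζ := by
  classical
  -- the inner part
  set k : ℂ → ℂ → E := fun a ζ => (2 * Real.pi * Complex.I : ℂ)⁻¹ • ∮ ξ in C(a, 2 * s a), (ξ - ζ)⁻¹ • f ξ with hkd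
  have hpi : (2 * Real.pi * Complex.I : ℂ) ≠ 0 := Complex.two_pi_I_ne_zero
  have hkh : ∀ a ∈ t, ∀ ζ, s a < ‖ζ - a‖ → ‖ζ - a‖ < 2 * s a → f ζ = k a ζ + lau f a (s a) ζ := by
    intro a ha ζ h1 h2
    have h3 := ann_cauchy (hs a ha) (hμ a ha) h1 h2
    have h4 : k a ζ + lau f a (s a) ζ = (2 * Real.pi * Complex.I : ℂ)⁻¹ •
        ((∮ z in C(a, 2 * s a), (z - ζ)⁻¹ • f z) - (∮ z in C(a, s a), (z - ζ)⁻¹ • f z)) := by
      rw [smul_sub]
      simp only [hkd, lau]
      abel
    rw [h4, h3, smul_smul, inv_mul_cancel₀ hpi, one_smul]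
  have hother : ∀ a ∈ t, ∀ b ∈ t, a ≠ b → ∀ ζ, ‖ζ - a‖ < 2 * s a → 2 * s b < ‖ζ - b‖ := by
    intro a ha b hb hab ζ hζ
    have h1 := hsep a ha b hb hab
    have h2 : ‖a - b‖ ≤ ‖ζ - a‖ + ‖ζ - b‖ := by
      have := norm_add_le (a - ζ) (ζ - b)
      rwa [sub_add_sub_cancel, norm_sub_rev a ζ] at this
    have h3 := le_max_left (s a) (s b)
    have h4 := le_max_right (s a) (s b)
    linarith
  set g : ℂ → E := fun ζ => if h : ∃ a ∈ t, ‖ζ - a‖ < 2 * s a then k h.choose ζ - ∑ b ∈ t.erase h.choose, lau f b (s b) ζ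
    else f ζ - ∑ b ∈ t, lau f b (s b) ζ with hgd
  have hg1 : ∀ a ∈ t, ∀ ζ, ‖ζ - a‖ < 2 * s a → g ζ = k a ζ - ∑ b ∈ t.erase a, lau f b (s b) ζ := by
    intro a ha ζ hζ
    have hex : ∃ a ∈ t, ‖ζ - a‖ < 2 * s a := ⟨a, ha, hζ⟩
    have hch := hex.choose_spec
    have heq : hex.choose = a := by
      by_contra hne
      exact absurd (hother a ha _ hch.1 (Ne.symm hne) ζ hζ) (not_lt.2 hch.2.le)
    simp only [hgd]
    rw [dif_pos hex, heq]
  have hg2 : ∀ ζ, (∀ a ∈ t, s a < ‖ζ - a‖) → g ζ = f ζ - ∑ b ∈ t, lau f b (s b) ζ := by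
    intro ζ hζ
    by_cases hex : ∃ a ∈ t, ‖ζ - a‖ < 2 * s a
    · obtain ⟨a, ha, h2⟩ := hex
      rw [hg1 a ha ζ h2, hkh a ha ζ (hζ a ha) h2, ← Finset.add_sum_erase t _ ha]
      abel
    · simp only [hgd]
      rw [dif_neg hex]
  have hsph : ∀ a ∈ t, ∀ ζ, ‖ζ - a‖ = s a → DifferentiableAt ℂ f ζ := fun a ha ζ h => hμ a ha ζ h.ge (by rw [h]; linarith [hs a ha])
  refine ⟨g, fun ζ hζ => ?_, fun ζ hζ => ?_⟩
  · by_cases hex : ∃ a ∈ t, ‖ζ - a‖ < 2 * s a
    · obtain ⟨a, ha, h2⟩ := hex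
      have hev : (fun z => k a z - ∑ b ∈ t.erase a, lau f b (s b) z) =ᶠ[𝓝 ζ] g := by
        have : ball a (2 * s a) ∈ 𝓝 ζ := isOpen_ball.mem_nhds (by simpa [dist_eq_norm] using h2)
        filter_upwards [this] with z hz
        exact (hg1 a ha z (by simpa [dist_eq_norm] using hz)).symm
      refine DifferentiableAt.congr_of_eventuallyEq ?_ hev.symm
      have hkdiff : DifferentiableAt ℂ (k a) ζ := by
        have hc : ContinuousOn f (sphere a (2 * s a)) := fun z hz => by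
          have hzn : ‖z - a‖ = 2 * s a := by simpa [dist_eq_norm] using hz
          exact (hμ a ha z (by rw [hzn]; linarith [hs a ha]) hzn.le).continuousAt.continuousWithinAt
        exact (cint_diff (by linarith [hs a ha]) hc h2.ne).const_smul _
      refine hkdiff.sub (DifferentiableAt.fun_sum fun b hb => ?_)
      have hb' := Finset.mem_erase.1 hb
      have h5 := hother a ha b hb'.2 (Ne.symm hb'.1) ζ h2
      exact lau_diff (hs b hb'.2) (hsph b hb'.2) (by linarith [hs b hb'.2])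
    · push Not at hex
      have hstr : ∀ a ∈ t, s a < ‖ζ - a‖ := fun a ha => by linarith [hex a ha, hs a ha]
      have hopen : {z : ℂ | ∀ a ∈ t, s a < ‖z - a‖} ∈ 𝓝 ζ := by
        have : IsOpen {z : ℂ | ∀ a ∈ t, s a < ‖z - a‖} := by
          have e1 : {z : ℂ | ∀ a ∈ t, s a < ‖z - a‖} = ⋂ a ∈ t, {z : ℂ | s a < ‖z - a‖} := by
            ext z
            simp
          rw [e1]
          exact isOpen_biInter_finset fun a _ => isOpen_lt continuous_const (by fun_prop)
        exact this.mem_nhds hstr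
      have hev : (fun z => f z - ∑ b ∈ t, lau f b (s b) z) =ᶠ[𝓝 ζ] g := by
        filter_upwards [hopen] with z hz
        exact (hg2 z hz).symm
      refine DifferentiableAt.congr_of_eventuallyEq ?_ hev.symm
      exact (hf ζ hζ fun a ha => (hstr a ha).le).sub (DifferentiableAt.fun_sum fun b hb => lau_diff (hs b hb) (hsph b hb) (hstr b hb))
  · exact hg2 ζ fun a ha => by
      have h1 : 2 * s a ≤ ‖ζ - a‖ := hζ a ha
      linarith [hs a ha]

theorem ext_holes {E : Type} [NormedAddCommGroup E] [NormedSpace ℂ E] [CompleteSpace E] {f : ℂ → E} {U : Set ℂ} (hU : IsOpen U) (t : Finset ℂ) (s : ℂ → ℝ)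
    (hs : ∀ a ∈ t, 0 < s a) (hsep : ∀ a ∈ t, ∀ b ∈ t, a ≠ b → 4 * max (s a) (s b) < ‖a - b‖) (hf : ∀ ζ ∈ U, Off t s ζ → DifferentiableAt ℂ f ζ) {μ : ℝ}
    (hμ : ∀ a ∈ t, ∀ ζ, s a ≤ ‖ζ - a‖ → ‖ζ - a‖ ≤ 2 * s a → DifferentiableAt ℂ f ζ ∧ ‖f ζ‖ ≤ μ) :
    ∃ g : ℂ → E, DifferentiableOn ℂ g U ∧ ∀ ζ ∈ U, Off t (fun a => 2 * s a) ζ → ‖g ζ - f ζ‖ ≤ 2 * μ * ∑ a ∈ t, s a / ‖ζ - a‖ := by
  obtain ⟨g, hg, hg'⟩ := split t s hs hsep hf fun a ha ζ h1 h2 => (hμ a ha ζ h1 h2).1
  refine ⟨g, fun ζ hζ => (hg ζ hζ).differentiableWithinAt, fun ζ _ hoff => ?_⟩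
  rw [hg' ζ hoff, sub_sub_cancel_left, norm_neg, Finset.mul_sum]
  refine (norm_sum_le _ _).trans (Finset.sum_le_sum fun a ha => ?_)
  exact lau_bound (hs a ha) (fun z hz => (hμ a ha z hz.ge (by rw [hz]; linarith [hs a ha])).2) (hoff a ha)

/-- Fubini for the Cauchy kernel -/
private theorem circle_fub {f : ℂ → E} {a w : ℂ} {s ρ : ℝ} (hs : 0 < s) (hρ : 0 < ρ) (hin : ‖a - w‖ + s < ρ) (hf : ContinuousOn f (sphere a s)) :
    (∮ ζ in C(w, ρ), ∮ ξ in C(a, s), (ξ - ζ)⁻¹ • f ξ) = -((2 * Real.pi * Complex.I : ℂ) • ∮ ξ in C(a, s), f ξ) := by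
  have hcm : ∀ θ : ℝ, circleMap a s θ ∈ sphere a s := fun θ => circleMap_mem_sphere a hs.le θ
  have hcw : ∀ θ : ℝ, circleMap w ρ θ ∈ sphere w ρ := fun θ => circleMap_mem_sphere w hρ.le θ
  have hmem : ∀ φ : ℝ, circleMap a s φ ∈ ball w ρ := by
    intro φ
    have h1 : ‖circleMap a s φ - a‖ = s := by simpa [dist_eq_norm] using hcm φ
    rw [mem_ball, dist_eq_norm]
    have h2 := norm_add_le (circleMap a s φ - a) (a - w)
    rw [sub_add_sub_cancel, h1] at h2
    linarith
  have hne : ∀ φ θ : ℝ, circleMap a s φ - circleMap w ρ θ ≠ 0 := by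
    intro φ θ h0
    have h1 : dist (circleMap w ρ θ) w = ρ := hcw θ
    have h2 : dist (circleMap a s φ) w < ρ := hmem φ
    rw [sub_eq_zero.1 h0] at h2
    linarith
  have hfc : Continuous fun θ : ℝ => f (circleMap a s θ) := hf.comp_continuous (continuous_circleMap a s) hcm
  have hdc : ∀ (c : ℂ) (R : ℝ), Continuous fun θ : ℝ => deriv (circleMap c R) θ := by
    intro c R
    have : (fun θ : ℝ => deriv (circleMap c R) θ) = fun θ => circleMap 0 R θ * Complex.I := by
      funext θ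
      exact deriv_circleMap c R θ
    rw [this]
    exact (continuous_circleMap 0 R).mul continuous_const
  have hcont : Continuous (Function.uncurry fun θ φ : ℝ => deriv (circleMap w ρ) θ • (deriv (circleMap a s) φ •
      ((circleMap a s φ - circleMap w ρ θ)⁻¹ • f (circleMap a s φ)))) := by
    refine ((hdc w ρ).comp continuous_fst).smul (((hdc a s).comp continuous_snd).smul (Continuous.smul ?_ (hfc.comp continuous_snd)))
    exact Continuous.inv₀ (((continuous_circleMap a s).comp continuous_snd).sub ((continuous_circleMap w ρ).comp continuous_fst)) fun p => hne p.2 p.1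
  have h1 : (∮ ζ in C(w, ρ), ∮ ξ in C(a, s), (ξ - ζ)⁻¹ • f ξ) = ∫ θ in (0 : ℝ)..2 * Real.pi, ∫ φ in (0 : ℝ)..2 * Real.pi,
      deriv (circleMap w ρ) θ • (deriv (circleMap a s) φ • ((circleMap a s φ - circleMap w ρ θ)⁻¹ • f (circleMap a s φ))) := by
    unfold circleIntegral
    refine intervalIntegral.integral_congr fun θ _ => ?_
    simp only
    rw [← intervalIntegral.integral_smul]
  have h2 : ((2 * Real.pi * Complex.I : ℂ) • ∮ ξ in C(a, s), f ξ) = ∫ φ in (0 : ℝ)..2 * Real.pi, (2 * Real.pi * Complex.I : ℂ) •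
      (deriv (circleMap a s) φ • f (circleMap a s φ)) := by
    unfold circleIntegral
    rw [← intervalIntegral.integral_smul]
  rw [h1, intervalIntegral_intervalIntegral_swap, h2, ← intervalIntegral.integral_neg]
  · refine intervalIntegral.integral_congr fun φ _ => ?_
    have h3 : (∮ ζ in C(w, ρ), (ζ - circleMap a s φ)⁻¹) = 2 * Real.pi * Complex.I := circleIntegral.integral_sub_inv_of_mem_ball (hmem φ)
    have h4 : (∫ θ in (0 : ℝ)..2 * Real.pi, deriv (circleMap w ρ) θ • (deriv (circleMap a s) φ •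
        ((circleMap a s φ - circleMap w ρ θ)⁻¹ • f (circleMap a s φ)))) =
        (∫ θ in (0 : ℝ)..2 * Real.pi, deriv (circleMap w ρ) θ • (circleMap w ρ θ - circleMap a s φ)⁻¹) •
          (-(deriv (circleMap a s) φ • f (circleMap a s φ))) := by
      rw [← intervalIntegral.integral_smul_const]
      refine intervalIntegral.integral_congr fun θ _ => ?_
      rw [← neg_sub (circleMap w ρ θ) (circleMap a s φ), inv_neg, neg_smul, smul_neg, smul_neg, smul_neg, smul_assoc, smul_comm (deriv (circleMap a s) φ)]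
    rw [h4]
    unfold circleIntegral at h3
    rw [h3, smul_neg]
  · exact (hcont.continuousOn.integrableOn_compact (isCompact_uIcc.prod isCompact_uIcc)).mono_set (Set.prod_mono Set.uIoc_subset_uIcc Set.uIoc_subset_uIcc)

/-- the residue form -/
theorem circle_sum {E : Type} [NormedAddCommGroup E] [NormedSpace ℂ E] [CompleteSpace E] {f : ℂ → E} {w : ℂ} {ρ : ℝ} (hρ : 0 < ρ) (t : Finset ℂ) (s : ℂ → ℝ)
    (hs : ∀ a ∈ t, 0 < s a) (hsep : ∀ a ∈ t, ∀ b ∈ t, a ≠ b → 4 * max (s a) (s b) < ‖a - b‖) (hin : ∀ a ∈ t, ‖a - w‖ + 2 * s a < ρ)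
    (hf : ∀ ζ ∈ closedBall w ρ, Off t s ζ → DifferentiableAt ℂ f ζ) :
    (∮ ζ in C(w, ρ), f ζ) = ∑ a ∈ t, ∮ ζ in C(a, s a), f ζ := by
  have hann : ∀ a ∈ t, ∀ ζ, s a ≤ ‖ζ - a‖ → ‖ζ - a‖ ≤ 2 * s a → DifferentiableAt ℂ f ζ := by
    intro a ha ζ h1 h2
    refine hf ζ ?_ fun b hb => ?_
    · rw [mem_closedBall, dist_eq_norm]
      have h3 := norm_add_le (ζ - a) (a - w)
      rw [sub_add_sub_cancel] at h3
      linarith [hin a ha]
    · by_cases hab : a = b
      · rw [← hab]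
        exact h1
      · have h3 := hsep a ha b hb hab
        have h4 : ‖a - b‖ ≤ ‖ζ - a‖ + ‖ζ - b‖ := by
          have := norm_add_le (a - ζ) (ζ - b)
          rwa [sub_add_sub_cancel, norm_sub_rev a ζ] at this
        have h5 := le_max_left (s a) (s b)
        have h6 := le_max_right (s a) (s b)
        have h7 := hs b hb
        linarith
  obtain ⟨g, hg, hg'⟩ := split t s hs hsep hf hann
  have hfar : ∀ z ∈ sphere w ρ, ∀ a ∈ t, 2 * s a < ‖z - a‖ := by
    intro z hz a ha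
    have hzn : ‖z - w‖ = ρ := by simpa [dist_eq_norm] using hz
    have h3 := norm_add_le (z - a) (a - w)
    rw [sub_add_sub_cancel, hzn] at h3
    linarith [hin a ha]
  have hc : ∀ a ∈ t, ContinuousOn f (sphere a (s a)) := by
    intro a ha z hz
    have hzn : ‖z - a‖ = s a := by simpa [dist_eq_norm] using hz
    exact (hann a ha z hzn.ge (by rw [hzn]; linarith [hs a ha])).continuousAt.continuousWithinAt
  have hlau : ∀ a ∈ t, ContinuousOn (lau f a (s a)) (sphere w ρ) := by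
    intro a ha z hz
    refine (lau_diff (hs a ha) (fun ζ h => hann a ha ζ h.ge (by rw [h]; linarith [hs a ha])) ?_).continuousAt.continuousWithinAt
    linarith [hfar z hz a ha, hs a ha]
  have hgc : ContinuousOn g (sphere w ρ) := fun z hz => (hg z (sphere_subset_closedBall hz)).continuousAt.continuousWithinAt
  have h0 : (∮ z in C(w, ρ), g z) = 0 :=
    Complex.circleIntegral_eq_zero_of_differentiable_on_off_countable hρ.le Set.countable_empty
      (fun z hz => (hg z hz).continuousAt.continuousWithinAt) fun z hz => hg z (ball_subset_closedBall hz.1)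
  have h1 : (∮ z in C(w, ρ), f z) = ∮ z in C(w, ρ), (g z + ∑ a ∈ t, lau f a (s a) z) := by
    refine circleIntegral.integral_congr hρ.le fun z hz => ?_
    show f z = g z + ∑ a ∈ t, lau f a (s a) z
    rw [hg' z fun a ha => (hfar z hz a ha).le]
    abel
  rw [h1, circleIntegral.integral_add (hgc.circleIntegrable hρ.le)
    ((continuousOn_finsetSum t fun a ha => hlau a ha).circleIntegrable hρ.le), h0, zero_add,
    circleIntegral.integral_fun_sum fun a ha => (hlau a ha).circleIntegrable hρ.le]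
  refine Finset.sum_congr rfl fun a ha => ?_
  have h2 : (∮ ζ in C(w, ρ), lau f a (s a) ζ) = -((2 * Real.pi * Complex.I : ℂ)⁻¹ • ∮ ζ in C(w, ρ), ∮ ξ in C(a, s a), (ξ - ζ)⁻¹ • f ξ) := by
    have e1 : (fun ζ => lau f a (s a) ζ) = fun ζ => (-(2 * Real.pi * Complex.I : ℂ)⁻¹) • ∮ ξ in C(a, s a), (ξ - ζ)⁻¹ • f ξ := by
      funext ζ
      simp only [lau]
      rw [neg_smul]
    rw [e1, circleIntegral.integral_smul, neg_smul]
  rw [h2, circle_fub (hs a ha) hρ (by linarith [hin a ha, hs a ha]) (hc a ha), smul_neg, neg_neg, smul_smul, inv_mul_cancel₀ Complex.two_pi_I_ne_zero, one_smul]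

end Pool.Agent.SR3

end
end

section

/-!
# SR3 HolC: extension of a bounded function over small holes, the bounded form

From `ext_holes` (on `ball w (3 r / 8)`, with the holes `‖a - w‖ < r / 2`, `μ = B`), `exists_rad` on `(r / 4, 3 r / 8)` with `τ = √ s`, and the maximum principle.
-/

set_option autoImplicit false

open Topology Filter Metric

noncomputable section

namespace Pool.Agent.SR3

theorem ext_bdd {E : Type} [NormedAddCommGroup E] [NormedSpace ℂ E] [CompleteSpace E] {f : ℂ → E} {w : ℂ} {r B : ℝ} (hr : 0 < r) (hr1 : r ≤ 1 / 2)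
    (t : Finset ℂ) (s : ℂ → ℝ) (hs : ∀ a ∈ t, 0 < s a) (hsep : ∀ a ∈ t, ∀ b ∈ t, a ≠ b → 4 * max (s a) (s b) < ‖a - b‖)
    (hout : ∀ a ∈ t, r ≤ ‖a - w‖ → s a ≤ ‖a - w‖ / 2) (hsm : 32 * ∑ a ∈ t.filter (fun a => ‖a - w‖ < r), √(s a) ≤ r)
    (hf : ∀ ζ ∈ ball w r, Off t s ζ → DifferentiableAt ℂ f ζ ∧ ‖f ζ‖ ≤ B) :
    ∃ g : ℂ → E, DifferentiableOn ℂ g (ball w (r / 4)) ∧ (∀ ζ ∈ ball w (r / 4), ‖g ζ‖ ≤ 2 * B) ∧
      ∀ ζ ∈ ball w (r / 4), Far t s ζ → ‖g ζ - f ζ‖ ≤ 2 * B * ∑ a ∈ t.filter (fun a => ‖a - w‖ < r), √(s a) := by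
  classical
  -- the holes near `w` are small
  have hsq : ∀ a ∈ t, ‖a - w‖ < r → √(s a) ≤ r / 32 := by
    intro a ha h
    have h1 : √(s a) ≤ ∑ a ∈ t.filter (fun a => ‖a - w‖ < r), √(s a) :=
      Finset.single_le_sum (f := fun a => √(s a)) (fun _ _ => Real.sqrt_nonneg _) (Finset.mem_filter.2 ⟨ha, h⟩)
    linarith
  have hss : ∀ a ∈ t, s a = √(s a) * √(s a) := fun a ha => (Real.mul_self_sqrt (hs a ha).le).symm
  have hsa : ∀ a ∈ t, ‖a - w‖ < r → s a ≤ r / 64 ∧ 2 * s a ≤ √(s a) := by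
    intro a ha h
    have h1 := hsq a ha h
    have h2 := Real.sqrt_nonneg (s a)
    have h3 := hss a ha
    constructor <;> nlinarith
  -- the other holes do not meet the ball of radius `3 r / 8`
  have hfar : ∀ a ∈ t, ¬ ‖a - w‖ < r / 2 → ∀ ζ, ‖ζ - w‖ < 3 * r / 8 → s a ≤ ‖ζ - a‖ := by
    intro a ha h ζ hζ
    have h1 : ‖a - w‖ ≤ ‖ζ - a‖ + ‖ζ - w‖ := by
      have h2 : a - w = (ζ - w) - (ζ - a) := by ring
      rw [h2]
      exact (norm_sub_le _ _).trans (by linarith)
    rcases lt_or_ge ‖a - w‖ r with h2 | h2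
    · have := (hsa a ha h2).1
      linarith
    · have := hout a ha h2
      linarith
  set t₂ : Finset ℂ := t.filter (fun a => ‖a - w‖ < r / 2) with ht₂
  have hmem : ∀ a ∈ t₂, a ∈ t ∧ ‖a - w‖ < r / 2 := fun a ha => Finset.mem_filter.1 ha
  have hsub : t₂ ⊆ t.filter (fun a => ‖a - w‖ < r) := fun a ha =>
    Finset.mem_filter.2 ⟨(hmem a ha).1, by have := (hmem a ha).2; linarith⟩
  have hsum : ∑ a ∈ t₂, √(s a) ≤ ∑ a ∈ t.filter (fun a => ‖a - w‖ < r), √(s a) :=
    Finset.sum_le_sum_of_subset_of_nonneg hsub fun _ _ _ => Real.sqrt_nonneg _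
  -- points which avoid the discs of the radii `√ s`
  have hoff : ∀ ζ, ‖ζ - w‖ < 3 * r / 8 → (∀ a ∈ t₂, √(s a) ≤ ‖ζ - a‖) → Off t s ζ := by
    intro ζ hζ h a ha
    by_cases h1 : ‖a - w‖ < r / 2
    · have h2 := h a (Finset.mem_filter.2 ⟨ha, h1⟩)
      have h3 := (hsa a ha (by linarith)).2
      have h4 := hs a ha
      linarith
    · exact hfar a ha h1 ζ hζ
  obtain ⟨ρ, hρ1, hρ2, hρ⟩ := exists_rad t₂ (fun a => √(s a)) w (a := r / 4) (b := 3 * r / 8) (fun _ _ => Real.sqrt_nonneg _) (by linarith)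
  have hB : 0 ≤ B := by
    have h1 : ‖(w + (ρ : ℂ)) - w‖ = ρ := by
      rw [add_sub_cancel_left, Complex.norm_real, Real.norm_eq_abs, abs_of_pos (by linarith)]
    have h2 := hf (w + ρ) (by rw [mem_ball, dist_eq_norm, h1]; linarith) (hoff _ (by rw [h1]; linarith) fun a ha => hρ a ha _ h1)
    exact (norm_nonneg _).trans h2.2
  obtain ⟨g, hg1, hg2⟩ := ext_holes (f := f) (U := ball w (3 * r / 8)) isOpen_ball t₂ s (fun a ha => hs a (hmem a ha).1)
    (fun a ha b hb hab => hsep a (hmem a ha).1 b (hmem b hb).1 hab)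
    (fun ζ hζ h => by
      rw [mem_ball, dist_eq_norm] at hζ
      refine (hf ζ (by rw [mem_ball, dist_eq_norm]; linarith) fun a ha => ?_).1
      by_cases h1 : ‖a - w‖ < r / 2
      · exact h a (Finset.mem_filter.2 ⟨ha, h1⟩)
      · exact hfar a ha h1 ζ hζ)
    (μ := B) (fun a ha ζ h1 h2 => by
      obtain ⟨ha1, ha2⟩ := hmem a ha
      have h3 := (hsa a ha1 (by linarith)).1
      refine hf ζ ?_ fun b hb => ?_
      · rw [mem_ball, dist_eq_norm]
        have h4 : ζ - w = (ζ - a) + (a - w) := by ring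
        rw [h4]
        have := norm_add_le (ζ - a) (a - w)
        linarith
      · by_cases hab : a = b
        · rw [← hab]
          exact h1
        · have h4 := hsep a ha1 b hb hab
          have h5 : ‖a - b‖ ≤ ‖ζ - b‖ + ‖ζ - a‖ := by
            have h6 : a - b = (ζ - b) - (ζ - a) := by ring
            rw [h6]
            exact norm_sub_le _ _
          have h6 := le_max_left (s a) (s b)
          have h7 := le_max_right (s a) (s b)
          have h8 := hs b hb
          linarith)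
  -- the comparison with `f`
  have hcmp : ∀ ζ, ‖ζ - w‖ < 3 * r / 8 → (∀ a ∈ t₂, √(s a) ≤ ‖ζ - a‖) →
      ‖g ζ - f ζ‖ ≤ 2 * B * ∑ a ∈ t.filter (fun a => ‖a - w‖ < r), √(s a) := by
    intro ζ hζ h
    refine (hg2 ζ (by rwa [mem_ball, dist_eq_norm]) fun a ha => ?_).trans ?_
    · have h1 := h a ha
      have h2 := (hsa a (hmem a ha).1 (by have := (hmem a ha).2; linarith)).2
      linarith
    · refine mul_le_mul_of_nonneg_left (le_trans (Finset.sum_le_sum fun a ha => ?_) hsum) (by linarith)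
      have h1 := h a ha
      have h2 := hss a (hmem a ha).1
      have h3 : 0 < √(s a) := Real.sqrt_pos.2 (hs a (hmem a ha).1)
      rw [div_le_iff₀ (by linarith)]
      calc s a = √(s a) * √(s a) := h2
        _ ≤ √(s a) * ‖ζ - a‖ := mul_le_mul_of_nonneg_left h1 h3.le
  refine ⟨g, hg1.mono (ball_subset_ball (by linarith)), fun ζ hζ => ?_, fun ζ hζ h => ?_⟩
  · have hd : DiffContOnCl ℂ g (ball w ρ) := by
      refine DifferentiableOn.diffContOnCl (hg1.mono ?_)
      rw [closure_ball w (by linarith : ρ ≠ 0)]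
      exact closedBall_subset_ball hρ2
    refine Complex.norm_le_of_forall_mem_frontier_norm_le isBounded_ball hd (fun ξ hξ => ?_) (subset_closure (ball_subset_ball hρ1.le hζ))
    rw [frontier_ball w (by linarith : ρ ≠ 0), mem_sphere, dist_eq_norm] at hξ
    have h1 : ∀ a ∈ t₂, √(s a) ≤ ‖ξ - a‖ := fun a ha => hρ a ha ξ hξ
    have h2 := hcmp ξ (by rw [hξ]; exact hρ2) h1
    have h3 := (hf ξ (by rw [mem_ball, dist_eq_norm, hξ]; linarith) (hoff ξ (by rw [hξ]; exact hρ2) h1)).2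
    have h4 : g ξ = (g ξ - f ξ) + f ξ := by abel
    have h5 : 2 * B * ∑ a ∈ t.filter (fun a => ‖a - w‖ < r), √(s a) ≤ 2 * B * (1 / 64) :=
      mul_le_mul_of_nonneg_left (by linarith) (by linarith)
    rw [h4]
    have := norm_add_le (g ξ - f ξ) (f ξ)
    linarith
  · rw [mem_ball, dist_eq_norm] at hζ
    refine hcmp ζ (by linarith) fun a ha => h a (hmem a ha).1 ?_
    have h1 : ζ - a = (ζ - w) - (a - w) := by ring
    rw [h1]
    have := norm_sub_le (ζ - w) (a - w)
    have := (hmem a ha).2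
    linarith

end Pool.Agent.SR3

end
end

section

/-!
# SD / step (b): growth lemmas

* `exists_poly_of_growth`: an entire function of polynomial growth is a polynomial.
* `three_circles`: Hadamard's theorem with outer bound `1`.
* `growth`: if `|F| ≤ 1` on the disc of radius `R₁ > R₀` about `w`, `|F z₁| ≥ c` for one `z₁` with `|z₁ - w| ≤ R₀/2` and `|F| ≤ A` on
  `|z - w| ≤ ρ`, then `|F z| ≤ A (|z - w|/ρ)^m` for `ρ ≤ |z - w| ≤ R₀`, `m ≥ - log c / log 2`.
-/

set_option autoImplicit false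

namespace Pool.Agent.SY

open Filter Topology Metric

theorem exists_poly_of_growth (k : ℕ) : ∀ (f : ℂ → ℂ) (C : ℝ), Differentiable ℂ f →
    (∀ z, ‖f z‖ ≤ C * (1 + ‖z‖) ^ k) → ∃ p : Polynomial ℂ, ∀ z, f z = p.eval z := by
  induction k with
  | zero =>
    intro f C hf hb
    refine ⟨Polynomial.C (f 0), fun z => ?_⟩
    rw [Polynomial.eval_C]
    refine hf.apply_eq_apply_of_bounded ?_ z 0
    rw [Metric.isBounded_iff_subset_closedBall (0 : ℂ)]
    refine ⟨C, ?_⟩
    rintro _ ⟨w, rfl⟩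
    have := hb w
    rw [pow_zero, mul_one] at this
    rwa [mem_closedBall_zero_iff]
  | succ k ih =>
    intro f C hf hb
    have hgd : Differentiable ℂ (dslope f 0) := by
      have := (Complex.differentiableOn_dslope (f := f) (c := 0) (s := Set.univ) univ_mem).mpr hf.differentiableOn
      exact differentiableOn_univ.mp this
    obtain ⟨M, hM⟩ := (isCompact_closedBall (0 : ℂ) 1).exists_bound_of_continuousOn hgd.continuous.continuousOn
    have hM0 : 0 ≤ M := (norm_nonneg _).trans (hM 0 (mem_closedBall_self zero_le_one))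
    have hC0 : 0 ≤ C := by
      have := (norm_nonneg _).trans (hb 0)
      simpa using this
    obtain ⟨p, hp⟩ := ih (dslope f 0) (M + 4 * C) hgd (by
      intro z
      have h1 : (1 : ℝ) ≤ 1 + ‖z‖ := by linarith [norm_nonneg z]
      have hpow : (1 : ℝ) ≤ (1 + ‖z‖) ^ k := one_le_pow₀ h1
      by_cases hz : ‖z‖ ≤ 1
      · have h2 := hM z (mem_closedBall_zero_iff.mpr hz)
        calc ‖dslope f 0 z‖ ≤ M * 1 := by rw [mul_one]; exact h2
          _ ≤ M * (1 + ‖z‖) ^ k := mul_le_mul_of_nonneg_left hpow hM0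
          _ ≤ (M + 4 * C) * (1 + ‖z‖) ^ k := mul_le_mul_of_nonneg_right (by linarith) (by positivity)
      · push Not at hz
        have hz0 : z ≠ 0 := by
          rintro rfl
          rw [norm_zero] at hz
          linarith
        rw [dslope_of_ne _ hz0, slope_def_field, sub_zero, norm_div]
        have hzn : 0 < ‖z‖ := by linarith
        rw [div_le_iff₀ hzn]
        have h2 : ‖f z - f 0‖ ≤ C * (1 + ‖z‖) ^ (k + 1) + C := by
          refine (norm_sub_le _ _).trans (add_le_add (hb z) ?_)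
          have := hb 0
          simpa using this
        have h3 : (1 + ‖z‖) ^ (k + 1) ≤ 2 * ‖z‖ * (1 + ‖z‖) ^ k := by
          rw [pow_succ]
          nlinarith
        have h4 : C ≤ 2 * C * ‖z‖ * (1 + ‖z‖) ^ k := by
          have h5 : 1 ≤ ‖z‖ * (1 + ‖z‖) ^ k := one_le_mul_of_one_le_of_one_le hz.le hpow
          nlinarith
        have h5 := mul_le_mul_of_nonneg_left h3 hC0
        have h6 : 0 ≤ M * (1 + ‖z‖) ^ k * ‖z‖ := by positivity
        nlinarith)
    refine ⟨Polynomial.C (f 0) + Polynomial.X * p, fun z => ?_⟩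
    rw [Polynomial.eval_add, Polynomial.eval_C, Polynomial.eval_mul, Polynomial.eval_X, ← hp]
    have := sub_smul_dslope f 0 z
    rw [sub_zero, smul_eq_mul] at this
    rw [this]
    ring

theorem three_circles {E : Type*} [NormedAddCommGroup E] [NormedSpace ℂ E] {F : ℂ → E} {w : ℂ} {R₁ R₀ ρ A : ℝ}
    (hF : DifferentiableOn ℂ F (ball w R₁)) (h1 : ∀ z ∈ ball w R₁, ‖F z‖ ≤ 1) (hρ : 0 < ρ) (hρR : ρ < R₀) (hR : R₀ < R₁)
    (hA : ∀ z ∈ closedBall w ρ, ‖F z‖ ≤ A) {z : ℂ} (hz1 : ρ ≤ ‖z - w‖) (hz2 : ‖z - w‖ ≤ R₀) :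
    ‖F z‖ ≤ A ^ (Real.log (R₀ / ‖z - w‖) / Real.log (R₀ / ρ)) := by
  have hR0 : 0 < R₀ := hρ.trans hρR
  have hR1 : 0 < R₁ := hR0.trans hR
  have hzn : 0 < ‖z - w‖ := hρ.trans_le hz1
  have hlt : Real.log ρ < Real.log R₀ := Real.log_lt_log hρ hρR
  set f : ℂ → E := fun s => F (w + Complex.exp s) with hf
  have hmem : ∀ s : ℂ, s.re ≤ Real.log R₀ → w + Complex.exp s ∈ ball w R₁ := by
    intro s hs
    rw [mem_ball, dist_eq_norm, add_sub_cancel_left, Complex.norm_exp]
    calc Real.exp s.re ≤ Real.exp (Real.log R₀) := Real.exp_le_exp.mpr hs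
      _ = R₀ := Real.exp_log hR0
      _ < R₁ := hR
  have hcl : closure (Complex.HadamardThreeLines.verticalStrip (Real.log ρ) (Real.log R₀)) ⊆
      Complex.HadamardThreeLines.verticalClosedStrip (Real.log ρ) (Real.log R₀) := by
    refine closure_minimal ?_ ?_
    · exact Set.preimage_mono Set.Ioo_subset_Icc_self
    · exact isClosed_Icc.preimage Complex.continuous_re
  have hd : DiffContOnCl ℂ f (Complex.HadamardThreeLines.verticalStrip (Real.log ρ) (Real.log R₀)) := by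
    refine DifferentiableOn.diffContOnCl ?_
    intro s hs
    have hs2 : s.re ≤ Real.log R₀ := (hcl hs).2
    have h2 : DifferentiableAt ℂ F (w + Complex.exp s) :=
      hF.differentiableAt (isOpen_ball.mem_nhds (hmem s hs2))
    exact (h2.comp s ((Complex.differentiable_exp s).const_add w)).differentiableWithinAt
  have hB : BddAbove ((norm ∘ f) '' Complex.HadamardThreeLines.verticalClosedStrip (Real.log ρ) (Real.log R₀)) := by
    refine ⟨1, ?_⟩
    rintro _ ⟨s, hs, rfl⟩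
    exact h1 _ (hmem s hs.2)
  have ha : ∀ s ∈ Complex.re ⁻¹' {Real.log ρ}, ‖f s‖ ≤ A := by
    intro s hs
    refine hA _ ?_
    rw [mem_closedBall, dist_eq_norm, add_sub_cancel_left, Complex.norm_exp]
    have : s.re = Real.log ρ := hs
    rw [this, Real.exp_log hρ]
  have hb : ∀ s ∈ Complex.re ⁻¹' {Real.log R₀}, ‖f s‖ ≤ 1 := by
    intro s hs
    have : s.re = Real.log R₀ := hs
    exact h1 _ (hmem s this.le)
  have hne : z - w ≠ 0 := norm_pos_iff.mp hzn
  have hre : (Complex.log (z - w)).re = Real.log ‖z - w‖ := Complex.log_re _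
  have hmain := Complex.HadamardThreeLines.norm_le_interp_of_mem_verticalClosedStrip' (f := f) (z := Complex.log (z - w)) (a := A)
    (b := 1) hlt (by
      refine ⟨?_, ?_⟩
      · rw [hre]
        exact Real.log_le_log hρ hz1
      · rw [hre]
        exact Real.log_le_log hzn hz2) hd hB ha hb
  rw [Real.one_rpow, mul_one, hre] at hmain
  have hfz : f (Complex.log (z - w)) = F z := by
    rw [hf]
    simp only
    rw [Complex.exp_log hne]
    congr 1
    ring
  rw [hfz] at hmain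
  convert hmain using 2
  have h3 : Real.log R₀ - Real.log ρ ≠ 0 := by linarith
  rw [Real.log_div hR0.ne' hzn.ne', Real.log_div hR0.ne' hρ.ne']
  field_simp
  ring

theorem growth {E : Type*} [NormedAddCommGroup E] [NormedSpace ℂ E] {F : ℂ → E} {w z₁ : ℂ} {R₁ R₀ ρ A c : ℝ} {m : ℕ}
    (hF : DifferentiableOn ℂ F (ball w R₁)) (h1 : ∀ z ∈ ball w R₁, ‖F z‖ ≤ 1) (hρ : 0 < ρ) (hρR : 2 * ρ ≤ R₀) (hR : R₀ < R₁)
    (hA : ∀ z ∈ closedBall w ρ, ‖F z‖ ≤ A) (hA1 : A ≤ 1) (hc : 0 < c) (hz₁ : ‖z₁ - w‖ ≤ R₀ / 2) (hcz : c ≤ ‖F z₁‖)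
    (hm : -Real.log c / Real.log 2 ≤ m) {z : ℂ} (hz1 : ρ ≤ ‖z - w‖) (hz2 : ‖z - w‖ ≤ R₀) :
    0 < A ∧ ‖F z‖ ≤ A * (‖z - w‖ / ρ) ^ m := by
  have hR0 : 0 < R₀ := by linarith
  have hρ2 : ρ < R₀ := by linarith
  have hl2 : 0 < Real.log 2 := Real.log_pos one_lt_two
  set τ : ℝ := Real.log (R₀ / ρ) with hτ
  have hτ2 : Real.log 2 ≤ τ := by
    rw [hτ]
    refine Real.log_le_log two_pos ?_
    rw [le_div_iff₀ hρ]
    exact hρR
  have hτ0 : 0 < τ := hl2.trans_le hτ2
  have hz₁b : z₁ ∈ ball w R₁ := by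
    rw [mem_ball, dist_eq_norm]
    linarith
  have hc1 : c ≤ 1 := hcz.trans (h1 _ hz₁b)
  have hlc : Real.log c ≤ 0 := Real.log_nonpos hc.le hc1
  -- the lower bound for `A`
  have hlow : 0 < A ∧ τ * Real.log c / Real.log 2 ≤ Real.log A := by
    by_cases h2 : ‖z₁ - w‖ ≤ ρ
    · have h3 : c ≤ A := hcz.trans (hA _ (by rw [mem_closedBall, dist_eq_norm]; exact h2))
      have hA0 : 0 < A := hc.trans_le h3
      refine ⟨hA0, le_trans ?_ (Real.log_le_log hc h3)⟩
      rw [div_le_iff₀ hl2]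
      nlinarith
    · push Not at h2
      have h3 := three_circles hF h1 hρ hρ2 hR hA h2.le (by linarith)
      rw [← hτ] at h3
      have hz₁n : 0 < ‖z₁ - w‖ := hρ.trans h2
      have h4 : Real.log 2 ≤ Real.log (R₀ / ‖z₁ - w‖) := by
        refine Real.log_le_log two_pos ?_
        rw [le_div_iff₀ hz₁n]
        linarith
      have h5 : 0 < Real.log (R₀ / ‖z₁ - w‖) / τ := div_pos (hl2.trans_le h4) hτ0
      have hAnn : 0 ≤ A := (norm_nonneg _).trans (hA w (mem_closedBall_self hρ.le))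
      have hA0 : 0 < A := by
        rcases hAnn.lt_or_eq with h | h
        · exact h
        · rw [← h, Real.zero_rpow h5.ne'] at h3
          linarith
      refine ⟨hA0, ?_⟩
      have h6 : Real.log c ≤ Real.log (R₀ / ‖z₁ - w‖) / τ * Real.log A := by
        have := Real.log_le_log hc (hcz.trans h3)
        rwa [Real.log_rpow hA0] at this
      have hlA : Real.log A ≤ 0 := Real.log_nonpos hA0.le hA1
      have h7 : Real.log (R₀ / ‖z₁ - w‖) / τ * Real.log A ≤ Real.log 2 / τ * Real.log A := by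
        refine mul_le_mul_of_nonpos_right ?_ hlA
        exact div_le_div_of_nonneg_right h4 hτ0.le
      have h8 : Real.log c ≤ Real.log 2 / τ * Real.log A := h6.trans h7
      rw [div_le_iff₀ hl2]
      rw [div_mul_eq_mul_div, le_div_iff₀ hτ0] at h8
      linarith
  obtain ⟨hA0, hlow⟩ := hlow
  refine ⟨hA0, ?_⟩
  have hzn : 0 < ‖z - w‖ := hρ.trans_le hz1
  have h3 := three_circles hF h1 hρ hρ2 hR hA hz1 hz2
  rw [← hτ] at h3
  refine h3.trans ?_
  set t : ℝ := Real.log (‖z - w‖ / ρ) with ht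
  have ht0 : 0 ≤ t := by
    rw [ht]
    refine Real.log_nonneg ?_
    rw [le_div_iff₀ hρ]
    linarith
  have h4 : Real.log (R₀ / ‖z - w‖) = τ - t := by
    rw [hτ, ht, Real.log_div hR0.ne' hzn.ne', Real.log_div hR0.ne' hρ.ne', Real.log_div hzn.ne' hρ.ne']
    ring
  have h5 : A * (‖z - w‖ / ρ) ^ m = Real.exp (Real.log A + m * t) := by
    rw [Real.exp_add, Real.exp_log hA0, ht, ← Real.log_pow, Real.exp_log (by positivity)]
  rw [h4, h5, Real.rpow_def_of_pos hA0, Real.exp_le_exp]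
  have h6 : Real.log A * ((τ - t) / τ) = Real.log A - t / τ * Real.log A := by
    field_simp
  rw [h6]
  have h7 : t / τ * (τ * Real.log c / Real.log 2) ≤ t / τ * Real.log A := mul_le_mul_of_nonneg_left hlow (by positivity)
  have h8 : t / τ * (τ * Real.log c / Real.log 2) = -(t * (-Real.log c / Real.log 2)) := by
    field_simp
  rw [h8] at h7
  have h9 := mul_le_mul_of_nonneg_left hm ht0
  linarith

end Pool.Agent.SY

end
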