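import Pool.Agent.H43.TL2.M136

/-! The parts of this file: AD.Defs, AD.Germ, TG.Defs. -/

section

/-!
# AD Defs: charts of projective manifolds of dimension `d`, bivector forms

`X` is the cone (without `0`) over a smooth projective variety of dimension `d`, in `EN N = ℂ^(N+1)` with the Euclidean norm (`H14.PP.IsCone`).  The model space is `Vd d = Fin d → ℂ` with the
supremum norm.
-/

set_option autoImplicit false

open Topology Filter Metric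

namespace Pool.Agent.AD

open Pool.Agent.H36.BP (EN fs wd)
open Pool.Agent.H14.PP (IsCone CurveAt Tan)

variable {N : ℕ}

/-- the model space -/
abbrev Vd (d : ℕ) : Type := Fin d → ℂ

/-- A chart of the manifold whose cone is `X`: `σ` is a lift of the inverse of the chart, defined on the polydisc of radius `2`, `U` is an open cone, and `q` the chart, `d` holomorphic
functions on `U` which are invariant under scaling. -/
structure Chart (d : ℕ) (X : Set (EN N)) where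
  /-- the parametrization -/
  σ : Vd d → EN N
  /-- the domain -/
  U : Set (EN N)
  /-- the coordinates -/
  q : EN N → Vd d
  isOpen_U : IsOpen U
  smul_U : ∀ x ∈ U, ∀ c : ℂ, c ≠ 0 → c • x ∈ U
  σ_an : ∀ p ∈ ball (0 : Vd d) 2, AnalyticAt ℂ σ p
  q_an : ∀ x ∈ U, AnalyticAt ℂ q x
  q_smul : ∀ x ∈ U, ∀ c : ℂ, c ≠ 0 → q (c • x) = q x
  σ_mem : ∀ p ∈ ball (0 : Vd d) 2, σ p ∈ X ∧ σ p ∈ U ∧ q (σ p) = p
  surj : ∀ x ∈ X, x ∈ U → q x ∈ ball (0 : Vd d) 2 ∧ ∃ c : ℂ, c ≠ 0 ∧ x = c • σ (q x)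

/-- `X` is smooth: there are charts -/
def Charts (d : ℕ) (X : Set (EN N)) : Prop := ∀ x ∈ X, ∃ χ : Chart d X, x ∈ χ.U ∧ χ.q x = 0

end Pool.Agent.AD

end

section

/-!
# AD Germ: charts from germ-level charts

The proof of `Pool.Agent.H62.EF.exists_chart_of_germ` with `ℂ × ℂ` replaced by `Vd d`.
-/

set_option autoImplicit false

open Topology Filter Metric

namespace Pool.Agent.AD

open Pool.Agent.H36.BP (EN)
open Pool.Agent.H14.PP (IsCone)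

variable {N d : ℕ}

/-- germ-level charts -/
structure IsGerm (X : Set (EN N)) (σ : Vd d → EN N) (τ : EN N → Vd d) : Prop where
  σ_an : AnalyticAt ℂ σ 0
  σ_mem : ∀ᶠ p in 𝓝 (0 : Vd d), σ p ∈ X
  τ_an : AnalyticAt ℂ τ (σ 0)
  left : ∀ᶠ p in 𝓝 (0 : Vd d), τ (σ p) = p
  right : ∀ᶠ y in 𝓝 (σ 0), y ∈ X → ∃ c : ℂ, c ≠ 0 ∧ y = c • σ (τ y)
  inv : ∀ᶠ z in 𝓝 (σ 0, (1 : ℂ)), τ (z.2 • z.1) = τ z.1

theorem exists_chart_of_germ {X : Set (EN N)} (hX : IsCone X) {σ : Vd d → EN N} {τ : EN N → Vd d} (h : IsGerm X σ τ) :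
    ∃ χ : Chart d X, σ 0 ∈ χ.U ∧ χ.q (σ 0) = 0 := by
  have hσ0 : σ 0 ≠ 0 := by
    intro h0
    have h1 := h.σ_mem.self_of_nhds
    rw [h0] at h1
    exact hX.zero_notMem h1
  -- the linear form
  obtain ⟨ℓ, hℓ⟩ : ∃ ℓ : EN N →L[ℂ] ℂ, ℓ (σ 0) = 1 := by
    have hne : inner ℂ (σ 0) (σ 0) ≠ (0 : ℂ) := inner_self_ne_zero.mpr hσ0
    refine ⟨(inner ℂ (σ 0) (σ 0) : ℂ)⁻¹ • innerSL ℂ (σ 0), ?_⟩
    simp only [_root_.smul_apply, innerSL_apply_apply, smul_eq_mul]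
    exact inv_mul_cancel₀ hne
  -- the normalised parametrisation
  have hℓσ : ContinuousAt (fun p => ℓ (σ p)) 0 := ℓ.continuous.continuousAt.comp h.σ_an.continuousAt
  have hℓne : ∀ᶠ p in 𝓝 (0 : Vd d), ℓ (σ p) ≠ 0 := hℓσ.eventually_ne (by rw [hℓ]; exact one_ne_zero)
  have hinvσ : ∀ᶠ p in 𝓝 (0 : Vd d), τ ((ℓ (σ p))⁻¹ • σ p) = τ (σ p) := by
    have hc : Tendsto (fun p => (σ p, (ℓ (σ p))⁻¹)) (𝓝 (0 : Vd d)) (𝓝 (σ 0, (1 : ℂ))) := by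
      have h1 : Tendsto (fun p => (ℓ (σ p))⁻¹) (𝓝 (0 : Vd d)) (𝓝 (ℓ (σ 0))⁻¹) := hℓσ.inv₀ (by rw [hℓ]; exact one_ne_zero)
      rw [hℓ, inv_one] at h1
      exact h.σ_an.continuousAt.prodMk_nhds h1
    exact hc.eventually h.inv
  -- the neighbourhood W₀
  have hW : ∀ᶠ y in 𝓝 (σ 0), AnalyticAt ℂ τ y ∧ (y ∈ X → ∃ c : ℂ, c ≠ 0 ∧ y = c • σ (τ y)) := h.τ_an.eventually_analyticAt.and h.right
  obtain ⟨W₀, hW₀s, hW₀o, hW₀m⟩ := _root_.eventually_nhds_iff.mp hW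
  have hσ₁ : Tendsto (fun p => (ℓ (σ p))⁻¹ • σ p) (𝓝 (0 : Vd d)) (𝓝 (σ 0)) := by
    have h1 : Tendsto (fun p => (ℓ (σ p))⁻¹) (𝓝 (0 : Vd d)) (𝓝 (ℓ (σ 0))⁻¹) := hℓσ.inv₀ (by rw [hℓ]; exact one_ne_zero)
    have h2 := h1.smul h.σ_an.continuousAt
    rwa [hℓ, inv_one, one_smul] at h2
  have hσ₁W : ∀ᶠ p in 𝓝 (0 : Vd d), (ℓ (σ p))⁻¹ • σ p ∈ W₀ := hσ₁.eventually (hW₀o.mem_nhds hW₀m)
  obtain ⟨R, hR, hall⟩ := Metric.eventually_nhds_iff_ball.mp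
    (((((h.σ_an.eventually_analyticAt.and h.σ_mem).and h.left).and hℓne).and hinvσ).and hσ₁W)
  set r : ℝ := R / 2 with hr
  have hr0 : 0 < r := by rw [hr]; positivity
  have hrC : (r : ℂ) ≠ 0 := by exact_mod_cast hr0.ne'
  have hball : ∀ p ∈ ball (0 : Vd d) 2, (r : ℂ) • p ∈ ball (0 : Vd d) R := by
    intro p hp
    rw [mem_ball_zero_iff] at hp ⊢
    rw [norm_smul, Complex.norm_real, Real.norm_of_nonneg hr0.le, hr]
    nlinarith
  have hτσ : ∀ p ∈ ball (0 : Vd d) R, τ ((ℓ (σ p))⁻¹ • σ p) = p := by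
    intro p hp
    rw [(hall p hp).1.2, (hall p hp).1.1.1.2]
  set U : Set (EN N) := {x | ℓ x ≠ 0 ∧ (ℓ x)⁻¹ • x ∈ W₀ ∧ ‖τ ((ℓ x)⁻¹ • x)‖ < R} with hU
  have hmaps : ∀ x : EN N, ℓ x ≠ 0 → ∀ c : ℂ, c ≠ 0 → (ℓ (c • x))⁻¹ • (c • x) = (ℓ x)⁻¹ • x := by
    intro x hx c hc
    rw [map_smul, smul_eq_mul, smul_smul, mul_inv, mul_comm c⁻¹, mul_assoc, inv_mul_cancel₀ hc, mul_one]
  have han1 : ∀ x : EN N, ℓ x ≠ 0 → AnalyticAt ℂ (fun y : EN N => (ℓ y)⁻¹ • y) x := by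
    intro x hx
    exact ((ℓ.analyticAt x).inv hx).smul analyticAt_id
  have hanq : ∀ x ∈ U, AnalyticAt ℂ (fun y : EN N => τ ((ℓ y)⁻¹ • y)) x := by
    intro x hx
    exact AnalyticAt.fun_comp (hW₀s _ hx.2.1).1 (han1 x hx.1)
  have hUopen : IsOpen U := by
    rw [isOpen_iff_mem_nhds]
    intro x hx
    have h1 : ∀ᶠ y in 𝓝 x, ℓ y ≠ 0 := ℓ.continuous.continuousAt.eventually_ne hx.1
    have h2 : ∀ᶠ y in 𝓝 x, (ℓ y)⁻¹ • y ∈ W₀ := (han1 x hx.1).continuousAt.eventually (hW₀o.mem_nhds hx.2.1)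
    have h3 : ∀ᶠ y in 𝓝 x, ‖τ ((ℓ y)⁻¹ • y)‖ < R := (hanq x hx).continuousAt.norm.eventually_lt_const hx.2.2
    filter_upwards [h1, h2, h3] with y h4 h5 h6
    exact ⟨h4, h5, h6⟩
  let χ : Chart d X :=
    { σ := fun p => (ℓ (σ ((r : ℂ) • p)))⁻¹ • σ ((r : ℂ) • p)
      U := U
      q := fun x => (r : ℂ)⁻¹ • τ ((ℓ x)⁻¹ • x)
      isOpen_U := hUopen
      smul_U := by
        rintro x ⟨h1, h2, h3⟩ c hc
        refine ⟨?_, ?_, ?_⟩
        · rw [map_smul, smul_eq_mul]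
          exact mul_ne_zero hc h1
        · rw [hmaps x h1 c hc]; exact h2
        · rw [hmaps x h1 c hc]; exact h3
      σ_an := by
        intro p hp
        have h1 := (hall _ (hball p hp)).1.1.1.1.1
        have h2 : AnalyticAt ℂ (fun p : Vd d => σ ((r : ℂ) • p)) p :=
          AnalyticAt.fun_comp h1 (analyticAt_const.fun_smul analyticAt_id)
        have h3 : AnalyticAt ℂ (fun p : Vd d => ℓ (σ ((r : ℂ) • p))) p := (ℓ.analyticAt _).fun_comp h2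
        exact (h3.inv (hall _ (hball p hp)).1.1.2).smul h2
      q_an := by
        intro x hx
        exact analyticAt_const.fun_smul (hanq x hx)
      q_smul := by
        rintro x ⟨h1, h2, h3⟩ c hc
        show (r : ℂ)⁻¹ • τ ((ℓ (c • x))⁻¹ • (c • x)) = _
        rw [hmaps x h1 c hc]
      σ_mem := by
        intro p hp
        have hb := hball p hp
        have hh := hall _ hb
        have hne := hh.1.1.2
        have h1 : ℓ ((ℓ (σ ((r : ℂ) • p)))⁻¹ • σ ((r : ℂ) • p)) = 1 := by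
          rw [map_smul, smul_eq_mul, inv_mul_cancel₀ hne]
        have h2 : τ ((ℓ (σ ((r : ℂ) • p)))⁻¹ • σ ((r : ℂ) • p)) = (r : ℂ) • p := hτσ _ hb
        refine ⟨hX.smul_mem _ hh.1.1.1.1.2 _ (inv_ne_zero hne), ⟨?_, ?_, ?_⟩, ?_⟩
        · rw [h1]; exact one_ne_zero
        · rw [h1, inv_one, one_smul]; exact hh.2
        · rw [h1, inv_one, one_smul, h2]
          exact mem_ball_zero_iff.mp hb
        · show (r : ℂ)⁻¹ • τ ((ℓ ((ℓ (σ ((r : ℂ) • p)))⁻¹ • σ ((r : ℂ) • p)))⁻¹ • ((ℓ (σ ((r : ℂ) • p)))⁻¹ • σ ((r : ℂ) • p))) = p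
          rw [h1, inv_one, one_smul, h2, smul_smul, inv_mul_cancel₀ hrC, one_smul]
      surj := by
        rintro x hxX ⟨h1, h2, h3⟩
        have hyX : (ℓ x)⁻¹ • x ∈ X := hX.smul_mem _ hxX _ (inv_ne_zero h1)
        obtain ⟨c, hc0, hc⟩ := (hW₀s _ h2).2 hyX
        have hτb : τ ((ℓ x)⁻¹ • x) ∈ ball (0 : Vd d) R := mem_ball_zero_iff.mpr h3
        have hrq : (r : ℂ) • ((r : ℂ)⁻¹ • τ ((ℓ x)⁻¹ • x)) = τ ((ℓ x)⁻¹ • x) := by
          rw [smul_smul, mul_inv_cancel₀ hrC, one_smul]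
        refine ⟨?_, ?_⟩
        · show (r : ℂ)⁻¹ • τ ((ℓ x)⁻¹ • x) ∈ ball (0 : Vd d) 2
          rw [mem_ball_zero_iff, norm_smul, norm_inv, Complex.norm_real, Real.norm_of_nonneg hr0.le, inv_mul_lt_iff₀ hr0, hr]
          linarith
        · refine ⟨ℓ x * c * ℓ (σ (τ ((ℓ x)⁻¹ • x))), ?_, ?_⟩
          · exact mul_ne_zero (mul_ne_zero h1 hc0) (hall _ hτb).1.1.2
          · show x = (ℓ x * c * ℓ (σ (τ ((ℓ x)⁻¹ • x)))) •
              ((ℓ (σ ((r : ℂ) • ((r : ℂ)⁻¹ • τ ((ℓ x)⁻¹ • x)))))⁻¹ • σ ((r : ℂ) • ((r : ℂ)⁻¹ • τ ((ℓ x)⁻¹ • x))))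
            rw [hrq, smul_smul, mul_assoc, mul_inv_cancel₀ (hall _ hτb).1.1.2, mul_one, mul_smul, ← hc, smul_smul, mul_inv_cancel₀ h1, one_smul] }
  have h0b : (0 : Vd d) ∈ ball (0 : Vd d) R := mem_ball_self hR
  have hτ0 : τ (σ 0) = 0 := (hall 0 h0b).1.1.1.2
  refine ⟨χ, ⟨?_, ?_, ?_⟩, ?_⟩
  · rw [hℓ]; exact one_ne_zero
  · rw [hℓ, inv_one, one_smul]; exact hW₀m
  · rw [hℓ, inv_one, one_smul, hτ0, norm_zero]; exact hR
  · show (r : ℂ)⁻¹ • τ ((ℓ (σ 0))⁻¹ • σ 0) = 0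
    rw [hℓ, inv_one, one_smul, hτ0, smul_zero]

end Pool.Agent.AD

end

section

/-!
# TG Defs: projective manifolds of dimension `k + 2` over complex tori of dimension `k + 1`, arbitrary singular fibres

`X` is the cone (without `0`) over a projective manifold of dimension `k + 2`, `u` a holomorphic map to `ℂ^(k+1) / Λ` (a function `u : EN N → Vd (k+1)`
which is holomorphic modulo `Λ`).  `D ⊆ ℂ^(k+1)` is the set of the bad values (closed, `Λ`-invariant, contained in hypersurfaces), `B ⊆ D` the set of the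
very bad values, which almost every line avoids.  Over `D \ B` the map `u` is `(x^a y^b, s)` in suitable coordinates.  Charts are `AD.Chart (k + 2) X`
(polydisc of radius `2` for the sup norm); the coordinate `0` is the coordinate along the fibres, the others (`tl p`) those of the base.
All norms and balls in `Vd (k+1)` are for the sup norm.
-/

set_option autoImplicit false

open Topology Filter Metric

namespace Pool.Agent.TG

open Pool.Agent.H36.BP (EN fs wd)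
open Pool.Agent.H14.PP (IsCone CurveAt Tan)
open Pool.Agent.AD (Vd Chart Charts IsGerm)

variable {N k : ℕ}

/-- `u` is a holomorphic map from the variety with the cone `X` to `ℂ^(k+1) / Λ` -/
structure TMap (X : Set (EN N)) (Λ : AddSubgroup (Vd (k + 1))) (u : EN N → Vd (k + 1)) : Prop where
  smul : ∀ x ∈ X, ∀ c : ℂ, c ≠ 0 → u (c • x) - u x ∈ Λ
  loc : ∀ x ∈ X, ∃ v : EN N → Vd (k + 1), AnalyticAt ℂ v x ∧ ∀ᶠ y in 𝓝 x, y ∈ X → u y - v y ∈ Λ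

/-- `Λ` is a lattice -/
structure Lat (Λ : AddSubgroup (Vd (k + 1))) : Prop where
  disc : ∃ δ : ℝ, 0 < δ ∧ ∀ l ∈ Λ, ‖l‖ < δ → l = 0
  cpt : ∃ R : ℝ, 0 < R ∧ ∀ y : Vd (k + 1), ∃ l ∈ Λ, ‖y - l‖ ≤ R

/-- the coordinates `1, …, k + 1` -/
def tl (p : Vd (k + 2)) : Vd (k + 1) := fun i => p i.succ

/-- the model of the bad fibres: `(x, y, s) ↦ (x ^ a * y ^ b, s)` -/
def nm (a b : ℕ) (p : Vd (k + 2)) : Vd (k + 1) := Fin.cons (α := fun _ => ℂ) (p 0 ^ a * p 1 ^ b) fun i : Fin k => p i.succ.succ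

/-- `u` is a submersion at `x`, with value `y`: in suitable coordinates `u` is `y + tl p` -/
def IsStr (X : Set (EN N)) (Λ : AddSubgroup (Vd (k + 1))) (u : EN N → Vd (k + 1)) (x : EN N) (y : Vd (k + 1)) : Prop :=
  ∃ (σ : Vd (k + 2) → EN N) (τ : EN N → Vd (k + 2)), IsGerm X σ τ ∧ σ 0 = x ∧ ∀ᶠ p in 𝓝 (0 : Vd (k + 2)), u (σ p) - (y + tl p) ∈ Λ

/-- in suitable coordinates at `x` the map `u` is `κ (x ^ a * y ^ b, s)` -/
def IsNC (X : Set (EN N)) (Λ : AddSubgroup (Vd (k + 1))) (u : EN N → Vd (k + 1)) (κ : Vd (k + 1) → Vd (k + 1)) (x : EN N) : Prop :=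
  ∃ (σ : Vd (k + 2) → EN N) (τ : EN N → Vd (k + 2)) (a b : ℕ), IsGerm X σ τ ∧ σ 0 = x ∧ 0 < a + b ∧
    ∀ᶠ p in 𝓝 (0 : Vd (k + 2)), u (σ p) - κ (nm a b p) ∈ Λ

/-- `κ` is a system of local coordinates at `y` in which `D` is `{q 0 = 0}` -/
structure IsCoord (D : Set (Vd (k + 1))) (κ : Vd (k + 1) → Vd (k + 1)) (y : Vd (k + 1)) : Prop where
  an : AnalyticAt ℂ κ 0
  zero : κ 0 = y
  inj : Function.Injective (fderiv ℂ κ 0)
  mem_iff : ∀ᶠ q in 𝓝 (0 : Vd (k + 1)), (κ q ∈ D ↔ q 0 = 0)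

/-- the geometric data -/
structure Geo (X : Set (EN N)) (Λ : AddSubgroup (Vd (k + 1))) (u : EN N → Vd (k + 1)) (D B : Set (Vd (k + 1))) : Prop where
  cone : IsCone X
  charts : Charts (k + 2) X
  tor : TMap X Λ u
  lat : Lat Λ
  D_closed : IsClosed D
  D_inv : ∀ y ∈ D, ∀ l ∈ Λ, y + l ∈ D
  D_thin : ∀ y : Vd (k + 1), ∃ h : Vd (k + 1) → ℂ, AnalyticAt ℂ h y ∧ (∀ᶠ z in 𝓝 y, z ∈ D → h z = 0) ∧ ¬ ∀ᶠ z in 𝓝 y, h z = 0
  B_lines : ∀ e : Vd (k + 1), e ≠ 0 → ∀ᵐ y : Vd (k + 1), ∀ z : ℂ, y + z • e ∉ B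
  sub : ∀ y ∉ D, ∀ x ∈ X, u x - y ∈ Λ → IsStr X Λ u x y
  fib : ∀ y ∉ D, ∀ F : ℂ → EN N, Differentiable ℂ F → (∀ z, F z ∈ X) → (∀ z, u (F z) - y ∈ Λ) → (∃ L : ℝ, ∀ z, fs (F z) (deriv F z) ≤ L) →
    ∀ z w, ∃ c : ℂ, F z = c • F w
  nc : ∀ y ∈ D, y ∉ B → ∃ κ : Vd (k + 1) → Vd (k + 1), IsCoord D κ y ∧ ∀ x ∈ X, u x - y ∈ Λ → IsNC X Λ u κ x

variable {X : Set (EN N)} {Λ : AddSubgroup (Vd (k + 1))} {u : EN N → Vd (k + 1)}

/-- the function `c + ρ (tl p)` -/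
noncomputable def ms (c : Vd (k + 1)) (ρ : ℝ) (p : Vd (k + 2)) : Vd (k + 1) := c + (ρ : ℂ) • tl p

/-- the chart is straight: `u` is `c + ρ (tl p)` -/
structure Str (Λ : AddSubgroup (Vd (k + 1))) (u : EN N → Vd (k + 1)) (χ : Chart (k + 2) X) (c : Vd (k + 1)) (ρ : ℝ) : Prop where
  pos : 0 < ρ
  lift : ∀ p ∈ ball (0 : Vd (k + 2)) 2, u (χ.σ p) - ms c ρ p ∈ Λ

/-- the points of distance at least `δ` from `D` -/
def Gd (D : Set (Vd (k + 1))) (δ : ℝ) : Set (Vd (k + 1)) := {y | ∀ b ∈ D, δ ≤ ‖y - b‖}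

end Pool.Agent.TG

end
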