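import Pool.Agent.H43.TL2.H62.EF.PrA_1
import Pool.Agent.H43.TL2.M138
import Pool.Agent.H43.TL2.SR3.GDefs_1

/-! The parts of this file: SR3.LDefs, SR3.LNear. -/

section

/-!
# SR3 LDefs: definitions for the crossings of the boundary

The local data at a crossing `y`, the holes of a curve near `y`, and the comparison of the curve with the function theory of `CDefs`.
-/

set_option autoImplicit false

open Topology Filter Metric

noncomputable section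

namespace Pool.Agent.SR3.Geo

open Pool.Agent.H36.BP (EN fs wd Sub OrdTwo)
open Pool.Agent.H14.PP (IsCone Tan)
open Pool.Agent.H62.EF (MN pr)

variable {N : ℕ} (G : Geo N)

/-- the components `i 0`, `i 1` cross at `y`; `E (i a) = 0` has the local equation with the index `l a`; `P j` is the residue of `w j`; data valid at
the points `x` with `dist (pr x) (pr y) < r` -/
structure Crs (y : EN N) (i : Fin 2 → G.ι) (l : Fin 2 → Fin (G.M + 1)) (P : G.J → MvPolynomial (Fin 2) ℂ) (r C α : ℝ) : Prop where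
  ne : y ≠ 0
  r_pos : 0 < r
  r_le : r ≤ 1 / 2
  C_ge : 1 ≤ C
  α_pos : 0 < α
  hom : ∀ j, (P j).IsHomogeneous (G.m j)
  loc : ∀ a, G.LocEq r y (i a) (l a)
  oth : ∀ x ∈ G.K, dist (pr x) (pr y) < r → ∀ v, Tan G.X x v → G.L x v ≤ C * (fs x v + ‖G.ell (i 0) x v‖ + ‖G.ell (i 1) x v‖)
  rate : ∀ x ∈ G.K, dist (pr x) (pr y) < r → ∀ u : ℝ, (∀ a, u ≤ G.lam (i a) x) → dist (pr x) (pr y) ≤ C * Real.exp (-(α * u))
  res : ∀ x ∈ G.K, dist (pr x) (pr y) < r → ∀ j v, Tan G.X x v →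
    ‖G.w j x v - MvPolynomial.eval (fun a => G.ell (i a) x v) (P j)‖ ≤ C * fs x v * G.L x v ^ (G.m j - 1)

/-- Holes of the curve `F` in the disc `ball z₀ ρ`, with the centres `ζ k` and the radii `s k`; outside the discs of radius `s k / 2` the curve is near the
crossing `y`; `M k a` is the number of poles minus the number of zeros of the local equation of the component `i a` in the hole `k`. -/
structure Hl (y : EN N) (i : Fin 2 → G.ι) (l : Fin 2 → Fin (G.M + 1)) (r : ℝ) (F : ℂ → EN N) {κ : Type} [Fintype κ] (ζ : κ → ℂ) (s : κ → ℝ)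
    (M : κ → Fin 2 → ℕ) (z₀ : ℂ) (ρ B η K : ℝ) : Prop where
  diff : Differentiable ℂ F
  mem : ∀ z, F z ∈ G.K
  nm : ∀ z, G.p (F z) = 1
  s_pos : ∀ k, 0 < s k
  s_le : ∀ k, s k ≤ Real.exp (-(η * ρ))
  inb : ∀ k, ‖ζ k - z₀‖ + 4 * s k < ρ
  sep : ∀ j k, j ≠ k → 20 * s j ≤ ‖ζ j - ζ k‖
  sepN : ∀ j k, M j 0 * M k 1 ≠ M j 1 * M k 0 → K * s j ≤ ‖ζ j - ζ k‖
  card : (Fintype.card κ : ℝ) ≤ B * ρ
  cnt : ∀ k t, 0 < t → t < ρ → ((Finset.univ.filter fun j => 0 < ‖ζ j - ζ k‖ ∧ ‖ζ j - ζ k‖ ≤ t).card : ℝ) * Real.log (ρ / t) ≤ B * ρ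
  near : ∀ z, ‖z - z₀‖ ≤ ρ → (∀ k, s k / 2 ≤ ‖z - ζ k‖) → dist (pr (F z)) (pr y) < r
  bdd : ∀ k z, ‖z - ζ k‖ ≤ 4 * s k → Real.log ‖F z‖ ≤ B
  upp : ∀ z, ‖z - z₀‖ ≤ ρ → Real.log ‖F z‖ ≤ B * ρ
  one : ∀ k a, 1 ≤ M k a
  M_le : ∀ k a, (M k a : ℝ) ≤ B
  wind : ∀ k a, G.wnd (fun w => F (ζ k + s k * w)) y (i a) (l a) 1 = -(2 * Real.pi * Complex.I * M k a)

/-- Comparison of the curve with the function theory: `sg a` is `lam (i a)` along the curve, `sl a` is `- ell (i a)`. -/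
structure Cmp (i : Fin 2 → G.ι) (F : ℂ → EN N) {κ : Type} [Fintype κ] (ζ : κ → ℂ) (s : κ → ℝ) (M : κ → Fin 2 → ℕ) (h : Fin 2 → ℂ → ℂ) (z₀ : ℂ)
    (ρ C η K : ℝ) : Prop where
  wd : Wd ζ s M h z₀ ρ C η K
  lam : ∀ a, ∀ z ∈ ball z₀ ρ, (∀ k, s k ≤ ‖z - ζ k‖) → |G.lam (i a) (F z) - sg ζ M h a z| ≤ C
  ell : ∀ a, ∀ z ∈ ball z₀ ρ, (∀ k, s k ≤ ‖z - ζ k‖) →
    ‖G.ell (i a) (F z) (deriv F z) + sl ζ M h a z‖ ≤ C * (fs (F z) (deriv F z) + ∑ k, s k / ‖z - ζ k‖ ^ 2)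

/-- the hypothesis on the residues at the smooth points of the boundary -/
def Smooth (Y : Finset (EN N)) : Prop := ∀ y ∈ Y, (∀ i i' : G.ι, i ≠ i' → G.E i y = 0 → G.E i' y ≠ 0) → ∃ (r B : ℝ), 0 < r ∧ ∀ x ∈ G.K,
  dist (pr x) (pr y) < r → ∀ v, Tan G.X x v → ∀ j, ‖G.w j x v‖ ≤ B * fs x v * G.L x v ^ (G.m j - 1)

end Pool.Agent.SR3.Geo

end
end

section

/-!
# SR3 LNear: the points near a crossing

`LNear.proj`: for a linear form `ℓ` with `κ ‖u‖ ≤ |ℓ u|`: `|⟪u, u'⟫ / ‖u‖ ^ 2 - ℓ u' / ℓ u| ≤ (A / κ) fs u u'`.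
-/

set_option autoImplicit false

open Topology Filter Metric

noncomputable section

namespace Pool.Agent.SR3

open Pool.Agent.H36.BP (EN fs wd Sub OrdTwo)
open Pool.Agent.H14.PP (IsCone Tan)
open Pool.Agent.SY (Ent)
open Pool.Agent.H62.EF (MN pr)
open Geo (Gd)

variable {N : ℕ} {G : Geo N} {y : EN N} {i : Fin 2 → G.ι} {l : Fin 2 → Fin (G.M + 1)} {P : G.J → MvPolynomial (Fin 2) ℂ} {r C α : ℝ}

namespace LNear

end LNear

theorem crs_inner {x y : EN N} (hx : x ≠ 0) (hy : y ≠ 0) (h : dist (pr x) (pr y) ≤ 1 / 2) : ‖x‖ * ‖y‖ ≤ 2 * ‖(inner ℂ y x : ℂ)‖ := by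
  have h1 := Pool.Agent.H62.EF.norm_inner_sq hy hx
  rw [dist_comm] at h1
  have h2 : dist (pr x) (pr y) ^ 2 ≤ (1 / 2) ^ 2 := pow_le_pow_left₀ dist_nonneg h 2
  have h0 : 0 ≤ ‖y‖ ^ 2 * ‖x‖ ^ 2 := by positivity
  have h3 : (‖x‖ * ‖y‖) ^ 2 ≤ (2 * ‖(inner ℂ y x : ℂ)‖) ^ 2 := by
    rw [mul_pow, mul_pow, h1]
    nlinarith
  exact (abs_le_of_sq_le_sq' h3 (by positivity)).2

end Pool.Agent.SR3

end
end
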