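import Pool.Agent.H43.TL2.H36.BP.WdA
import Pool.Agent.H43.TL2.M01
import Pool.Agent.H43.TL2.M10
import Pool.Agent.H43.TL2.M137
import Pool.Agent.H43.TL2.M24

/-! The parts of this file: SDR.Liou, SR3.AZal, SR3.DDefs, SR3.Comp, SR3.ECov, SR3.Glo, SR3.Grd, SR3.HalfPl, SR3.HpPol, SR3.Lim, SR3.OpenMap, SR3.ResA. -/

section

/-!
# SDR Liou: the Liouville theorem for blow-downs

`𝓤` is a compact family, invariant under translations and scalings, of tuples `U` of nonnegative functions on `ℂ` which are harmonic outside the common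
zeros and satisfy an equation `‖P (2 ∂U_1, 2 ∂U_2)‖ = 1` there.  Then the common zeros form a line and the functions are linear on both sides.
-/

set_option autoImplicit false

open Topology Filter Metric Complex InnerProductSpace

noncomputable section

namespace Pool.Agent.SDR

variable {ι : Type} [Fintype ι] {Cr : Type}

/-- the sum of the functions -/
def tot (U : ι → ℂ → ℝ) (z : ℂ) : ℝ := ∑ i, U i z

/-- the homogeneous polynomial with the coefficients `c` -/
def hp (c : ℕ → ℂ) (m : ℕ) (x y : ℂ) : ℂ := ∑ l ∈ Finset.range (m + 1), c l * x ^ (m - l) * y ^ l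

theorem hp_smul (c : ℕ → ℂ) (m : ℕ) (a x y : ℂ) : hp c m (a * x) (a * y) = a ^ m * hp c m x y := by
  unfold hp
  rw [Finset.mul_sum]
  apply Finset.sum_congr rfl
  intro l hl
  have hl' : l ≤ m := Nat.lt_succ_iff.1 (Finset.mem_range.1 hl)
  have e : a ^ m = a ^ (m - l) * a ^ l := by rw [← pow_add, Nat.sub_add_cancel hl']
  rw [e, mul_pow, mul_pow]
  ring

theorem continuous_hp (c : ℕ → ℂ) (m : ℕ) : Continuous fun p : ℂ × ℂ => hp c m p.1 p.2 := by
  unfold hp
  fun_prop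

theorem hp_zero (c : ℕ → ℂ) {m : ℕ} (hm : 1 ≤ m) : hp c m 0 0 = 0 := by
  have := hp_smul c m 0 0 0
  rw [zero_mul, zero_pow (by omega), zero_mul] at this
  exact this

theorem analyticAt_hp {c : ℕ → ℂ} {m : ℕ} {f g : ℂ → ℂ} {z : ℂ} (hf : AnalyticAt ℂ f z) (hg : AnalyticAt ℂ g z) :
    AnalyticAt ℂ (fun w => hp c m (f w) (g w)) z := by
  unfold hp
  fun_prop

/-- The hypotheses on a blow-down. -/
structure Blow (P : Cr → ℕ → ℂ) (m : ℕ) (e₁ e₂ : Cr → ι) (c C : ℝ) (U : ι → ℂ → ℝ) : Prop where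
  cont : ∀ i, Continuous (U i)
  nonneg : ∀ i z, 0 ≤ U i z
  zero : ∃ z, tot U z = 0
  thin : interior {z | tot U z = 0} = ∅
  low : ∀ z r, 0 < r → (∀ w ∈ ball z r, 0 < tot U w) → c * r ≤ tot U z
  harm : ∀ z, 0 < tot U z → ∀ i, HarmonicAt (U i) z
  bd : ∀ z, 0 < tot U z → ∀ i, ‖gc (U i) z‖ ≤ C
  type : ∀ z, 0 < tot U z → ∃ ν, (∀ i, i ≠ e₁ ν → i ≠ e₂ ν → U i z = 0) ∧
    ∀ᶠ w in 𝓝 z, ‖hp (P ν) m (gc (U (e₁ ν)) w) (gc (U (e₂ ν)) w)‖ = 1

/-- The family: compact, invariant under translations and scalings. -/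
structure BlowFam (P : Cr → ℕ → ℂ) (m : ℕ) (e₁ e₂ : Cr → ι) (c C : ℝ) (𝓤 : Set (ι → ℂ → ℝ)) : Prop where
  blow : ∀ U ∈ 𝓤, Blow P m e₁ e₂ c C U
  trans : ∀ U ∈ 𝓤, ∀ (a : ℂ) (r : ℝ), 0 < r → (fun i w => U i (a + r * w) / r) ∈ 𝓤
  cpt : ∀ U : ℕ → ι → ℂ → ℝ, (∀ n, U n ∈ 𝓤) → (∀ n, ∃ z, ‖z‖ ≤ 1 ∧ tot (U n) z = 0) →
    ∃ (φ : ℕ → ℕ) (V : ι → ℂ → ℝ), StrictMono φ ∧ V ∈ 𝓤 ∧ ∀ i, TendstoLocallyUniformly (fun n => U (φ n) i) (V i) atTop

variable {P : Cr → ℕ → ℂ} {m : ℕ} {e₁ e₂ : Cr → ι} {c C : ℝ} {U : ι → ℂ → ℝ} {𝓤 : Set (ι → ℂ → ℝ)}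

/-! ## generalities -/

theorem eventually_const_of_norm {f : ℂ → ℂ} {z : ℂ} (hf : AnalyticAt ℂ f z) {a : ℝ} (ha : ∀ᶠ w in 𝓝 z, ‖f w‖ = a) :
    ∀ᶠ w in 𝓝 z, f w = f z := by
  rcases hf.eventually_constant_or_nhds_le_map_nhds with h | h
  · exact h
  · exfalso
    have h2 : ∀ᶠ y in 𝓝 (f z), ‖y‖ = a := h (by rw [mem_map]; exact ha)
    have h3 : Tendsto (fun t : ℝ => (1 + (t : ℂ)) * f z + t) (𝓝[>] 0) (𝓝 (f z)) := by
      have h5 : Continuous fun t : ℝ => (1 + (t : ℂ)) * f z + t := by fun_prop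
      have h6 := h5.tendsto 0
      simp only [ofReal_zero, add_zero, one_mul] at h6
      exact h6.mono_left nhdsWithin_le_nhds
    have h4 : Tendsto (fun t : ℝ => (1 + (t : ℂ)) * f z) (𝓝[>] 0) (𝓝 (f z)) := by
      have h5 : Continuous fun t : ℝ => (1 + (t : ℂ)) * f z := by fun_prop
      have h6 := h5.tendsto 0
      simp only [ofReal_zero, add_zero, one_mul] at h6
      exact h6.mono_left nhdsWithin_le_nhds
    have haz : ‖f z‖ = a := ha.self_of_nhds
    obtain ⟨t, ⟨ht1, ht2⟩, ht3⟩ := (((h3.eventually h2).and (h4.eventually h2)).and self_mem_nhdsWithin).exists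
    have ht : 0 < t := ht3
    rw [norm_mul, haz] at ht2
    have h7 : ‖(1 : ℂ) + t‖ = 1 + t := by
      have : (1 : ℂ) + t = ((1 + t : ℝ) : ℂ) := by push_cast; ring
      rw [this, norm_real, Real.norm_of_nonneg (by linarith)]
    rw [h7] at ht2
    have h8 : a = 0 := by nlinarith
    have h9 : f z = 0 := by rw [← norm_eq_zero, haz, h8]
    rw [h9, mul_zero, zero_add, norm_real, Real.norm_of_nonneg ht.le, h8] at ht1
    linarith

namespace Blow

theorem cont_tot (h : Blow P m e₁ e₂ c C U) : Continuous (tot U) := by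
  unfold tot
  exact continuous_finsetSum _ fun i _ => h.cont i

theorem tot_nonneg (h : Blow P m e₁ e₂ c C U) (z : ℂ) : 0 ≤ tot U z := Finset.sum_nonneg fun i _ => h.nonneg i z

theorem le_tot (h : Blow P m e₁ e₂ c C U) (i : ι) (z : ℂ) : U i z ≤ tot U z :=
  Finset.single_le_sum (f := fun i => U i z) (fun i _ => h.nonneg i z) (Finset.mem_univ i)

theorem eq_zero (h : Blow P m e₁ e₂ c C U) {z : ℂ} (hz : tot U z = 0) (i : ι) : U i z = 0 :=
  le_antisymm ((h.le_tot i z).trans hz.le) (h.nonneg i z)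

theorem isOpen_pos (h : Blow P m e₁ e₂ c C U) : IsOpen {z | 0 < tot U z} := isOpen_lt continuous_const h.cont_tot

end Blow

/-- the component of `z₀` in the set where `U` is positive -/
def comp (U : ι → ℂ → ℝ) (z₀ : ℂ) : Set ℂ := connectedComponentIn {z | 0 < tot U z} z₀

namespace Blow

theorem isOpen_comp (h : Blow P m e₁ e₂ c C U) (z₀ : ℂ) : IsOpen (comp U z₀) := h.isOpen_pos.connectedComponentIn

theorem pos_of_comp (_h : Blow P m e₁ e₂ c C U) {z₀ z : ℂ} (hz : z ∈ comp U z₀) : 0 < tot U z :=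
  connectedComponentIn_subset {z | 0 < tot U z} z₀ hz

theorem mem_comp (_h : Blow P m e₁ e₂ c C U) {z₀ : ℂ} (hz : 0 < tot U z₀) : z₀ ∈ comp U z₀ := mem_connectedComponentIn hz

theorem pre_comp (U : ι → ℂ → ℝ) (z₀ : ℂ) : IsPreconnected (comp U z₀) := isPreconnected_connectedComponentIn

theorem closure_comp (h : Blow P m e₁ e₂ c C U) {z₀ z : ℂ} (hz : z ∈ closure (comp U z₀)) (hz' : 0 < tot U z) : z ∈ comp U z₀ := by
  have h1 : IsOpen (comp U z) := h.isOpen_comp z
  have h2 : z ∈ comp U z := h.mem_comp hz'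
  obtain ⟨y, hy1, hy2⟩ := mem_closure_iff.1 hz _ h1 h2
  have e1 : comp U z = comp U y := connectedComponentIn_eq hy1
  have e2 : comp U z₀ = comp U y := connectedComponentIn_eq hy2
  rw [e2, ← e1]
  exact h2

theorem zero_of_boundary (h : Blow P m e₁ e₂ c C U) {z₀ z : ℂ} (hz : z ∈ closure (comp U z₀)) (hz' : z ∉ comp U z₀) : tot U z = 0 := by
  by_contra hne
  exact hz' (h.closure_comp hz (lt_of_le_of_ne (h.tot_nonneg z) (Ne.symm hne)))

theorem exists_boundary (h : Blow P m e₁ e₂ c C U) {z₀ : ℂ} (hz₀ : 0 < tot U z₀) : ∃ z, z ∈ closure (comp U z₀) ∧ z ∉ comp U z₀ := by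
  by_contra hcon
  push Not at hcon
  obtain ⟨z₁, hz₁⟩ := h.zero
  have hcl : IsClosed (comp U z₀) := isClosed_of_closure_subset fun z hz => hcon z hz
  have huniv : comp U z₀ = Set.univ := by
    have : IsClopen (comp U z₀) := ⟨hcl, h.isOpen_comp z₀⟩
    exact this.eq_univ ⟨z₀, h.mem_comp hz₀⟩
  have : z₁ ∈ comp U z₀ := by rw [huniv]; trivial
  have := h.pos_of_comp this
  linarith

/-- on a component each function vanishes or is positive -/
theorem zero_or_pos (h : Blow P m e₁ e₂ c C U) (z₀ : ℂ) (i : ι) : (∀ z ∈ comp U z₀, U i z = 0) ∨ ∀ z ∈ comp U z₀, 0 < U i z := by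
  by_cases hex : ∃ z ∈ comp U z₀, U i z = 0
  · left
    obtain ⟨z₁, hz₁, h0⟩ := hex
    have hloc : ∀ z ∈ comp U z₀, U i z = 0 → ∀ᶠ w in 𝓝 z, U i w = 0 := by
      intro z hz hzz
      obtain ⟨r, hr, hb⟩ := Metric.isOpen_iff.1 (h.isOpen_comp z₀) z hz
      have hH : HarmonicOnNhd (U i) (ball z r) := fun w hw => h.harm w (h.pos_of_comp (hb hw)) i
      have := eq_zero_of_nonneg hH (fun w _ => h.nonneg i w) (mem_ball_self hr) hzz
      filter_upwards [ball_mem_nhds z hr] with w hw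
      exact this w hw
    have hopen : IsOpen ({z | U i z = 0} ∩ comp U z₀) := by
      rw [isOpen_iff_mem_nhds]
      rintro z ⟨hz1, hz2⟩
      filter_upwards [hloc z hz2 hz1, (h.isOpen_comp z₀).mem_nhds hz2] with w hw1 hw2
      exact ⟨hw1, hw2⟩
    have hcl : closure ({z | U i z = 0} ∩ comp U z₀) ∩ comp U z₀ ⊆ {z | U i z = 0} ∩ comp U z₀ := by
      rintro z ⟨hz1, hz2⟩
      refine ⟨?_, hz2⟩
      have h1 : IsClosed {z | U i z = 0} := isClosed_eq (h.cont i) continuous_const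
      exact h1.closure_subset_iff.2 Set.inter_subset_left hz1
    have := (pre_comp U z₀).subset_of_closure_inter_subset hopen ⟨z₁, hz₁, h0, hz₁⟩ hcl
    exact fun z hz => (this hz).1
  · right
    push Not at hex
    exact fun z hz => lt_of_le_of_ne (h.nonneg i z) (Ne.symm (hex z hz))

/-- if one of the functions is affine on a component, then the component is a half plane -/
theorem half_plane (h : Blow P m e₁ e₂ c C U) {z₀ : ℂ} (hz₀ : 0 < tot U z₀) {i : ι} {κ : ℂ} {b : ℝ}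
    (hU : ∀ z ∈ comp U z₀, U i z = (κ * z).re + b) (hpos : ∀ z ∈ comp U z₀, 0 < U i z) : comp U z₀ = {z | 0 < (κ * z).re + b} := by
  apply Set.Subset.antisymm
  · intro z hz
    show 0 < (κ * z).re + b
    rw [← hU z hz]
    exact hpos z hz
  · have hpre : IsPreconnected {z : ℂ | 0 < (κ * z).re + b} := by
      apply Convex.isPreconnected
      intro x hx y hy s t hs ht hst
      have hx' : 0 < (κ * x).re + b := hx
      have hy' : 0 < (κ * y).re + b := hy
      show 0 < (κ * (s • x + t • y)).re + b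
      have e : (κ * (s • x + t • y)).re + b = s * ((κ * x).re + b) + t * ((κ * y).re + b) := by
        have : b = (s + t) * b := by rw [hst, one_mul]
        conv_lhs => rw [this]
        simp only [real_smul, mul_re, add_re, add_im, ofReal_re, ofReal_im, mul_im]
        ring
      rw [e]
      rcases hs.lt_or_eq with hs' | hs'
      · have : 0 ≤ t * ((κ * y).re + b) := by positivity
        have : 0 < s * ((κ * x).re + b) := by positivity
        linarith
      · rw [← hs'] at hst ⊢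
        rw [zero_add] at hst
        rw [hst]
        simpa using hy'
    apply hpre.subset_of_closure_inter_subset (h.isOpen_comp z₀)
    · refine ⟨z₀, ?_, h.mem_comp hz₀⟩
      show 0 < (κ * z₀).re + b
      rw [← hU z₀ (h.mem_comp hz₀)]
      exact hpos z₀ (h.mem_comp hz₀)
    · rintro z ⟨hz1, hz2⟩
      by_contra hz3
      have h1 := h.eq_zero (h.zero_of_boundary hz1 hz3) i
      have h2 : U i z = (κ * z).re + b := by
        have hcl : IsClosed {z | U i z = (κ * z).re + b} := isClosed_eq (h.cont i) (by fun_prop)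
        exact hcl.closure_subset_iff.2 (fun w hw => hU w hw) hz1
      have hz2' : 0 < (κ * z).re + b := hz2
      rw [← h2, h1] at hz2'
      exact lt_irrefl _ hz2'

theorem analytic_gc (h : Blow P m e₁ e₂ c C U) {z₀ z : ℂ} (hz : z ∈ comp U z₀) (i : ι) : AnalyticAt ℂ (gc (U i)) z :=
  analyticAt_gc (h.harm z (h.pos_of_comp hz) i)

/-- a constant gradient near a point is constant on the component -/
theorem gc_const (h : Blow P m e₁ e₂ c C U) {z₀ z₁ : ℂ} (hz₁ : z₁ ∈ comp U z₀) {i : ι} {κ : ℂ} (hk : ∀ᶠ w in 𝓝 z₁, gc (U i) w = κ) :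
    ∀ z ∈ comp U z₀, gc (U i) z = κ := by
  have h1 : AnalyticOnNhd ℂ (gc (U i)) (comp U z₀) := fun z hz => h.analytic_gc hz i
  exact h1.eqOn_of_preconnected_of_eventuallyEq analyticOnNhd_const (pre_comp U z₀) hz₁ hk

/-- the equation holds on the whole component -/
theorem norm_hp (h : Blow P m e₁ e₂ c C U) {z₀ z₁ : ℂ} (hz₁ : z₁ ∈ comp U z₀) {ν : Cr}
    (hk : ∀ᶠ w in 𝓝 z₁, ‖hp (P ν) m (gc (U (e₁ ν)) w) (gc (U (e₂ ν)) w)‖ = 1) :
    ∀ z ∈ comp U z₀, ‖hp (P ν) m (gc (U (e₁ ν)) z) (gc (U (e₂ ν)) z)‖ = 1 := by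
  have h1 : AnalyticOnNhd ℂ (fun z => hp (P ν) m (gc (U (e₁ ν)) z) (gc (U (e₂ ν)) z)) (comp U z₀) := fun z hz =>
    analyticAt_hp (h.analytic_gc hz _) (h.analytic_gc hz _)
  have h2 := eventually_const_of_norm (h1 z₁ hz₁) hk
  have h3 := h1.eqOn_of_preconnected_of_eventuallyEq analyticOnNhd_const (pre_comp U z₀) hz₁ h2
  intro z hz
  have h4 : hp (P ν) m (gc (U (e₁ ν)) z) (gc (U (e₂ ν)) z) = hp (P ν) m (gc (U (e₁ ν)) z₁) (gc (U (e₂ ν)) z₁) := h3 hz
  rw [h4]
  exact hk.self_of_nhds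

/-- if the two gradients are proportional near a point, the component is a half plane and the ratio is nonnegative -/
theorem half_of_ratio (h : Blow P m e₁ e₂ c C U) (hm : 1 ≤ m) {z₀ : ℂ} (hz₀ : 0 < tot U z₀) {ν : Cr}
    (hk : ∀ᶠ w in 𝓝 z₀, ‖hp (P ν) m (gc (U (e₁ ν)) w) (gc (U (e₂ ν)) w)‖ = 1) (h1 : 0 < U (e₁ ν) z₀) {t : ℂ}
    (ht : ∀ᶠ w in 𝓝 z₀, gc (U (e₂ ν)) w = t * gc (U (e₁ ν)) w) :
    ∃ (κ : ℂ) (b s : ℝ), κ ≠ 0 ∧ t = (s : ℂ) ∧ 0 ≤ s ∧ comp U z₀ = {z | 0 < (κ * z).re + b} ∧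
      (∀ z ∈ comp U z₀, U (e₁ ν) z = (κ * z).re + b) ∧ ∀ z ∈ comp U z₀, U (e₂ ν) z = s * ((κ * z).re + b) := by
  have hz : z₀ ∈ comp U z₀ := h.mem_comp hz₀
  have hn : ∀ᶠ w in 𝓝 z₀, ‖gc (U (e₁ ν)) w ^ m‖ * ‖hp (P ν) m 1 t‖ = 1 := by
    filter_upwards [hk, ht] with w hw1 hw2
    rw [hw2] at hw1
    have e : hp (P ν) m (gc (U (e₁ ν)) w) (t * gc (U (e₁ ν)) w) = gc (U (e₁ ν)) w ^ m * hp (P ν) m 1 t := by
      rw [← hp_smul, mul_one, mul_comm t]
    rw [e, norm_mul] at hw1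
    exact hw1
  have hp0 : ‖hp (P ν) m 1 t‖ ≠ 0 := by
    intro h0
    have := hn.self_of_nhds
    rw [h0, mul_zero] at this
    exact zero_ne_one this
  have hn2 : ∀ᶠ w in 𝓝 z₀, ‖gc (U (e₁ ν)) w‖ = ‖gc (U (e₁ ν)) z₀‖ := by
    filter_upwards [hn] with w hw
    have h2 := hn.self_of_nhds
    rw [← hw] at h2
    have h3 := mul_right_cancel₀ hp0 h2
    rw [norm_pow, norm_pow] at h3
    exact ((pow_left_inj₀ (norm_nonneg _) (norm_nonneg _) (by omega)).1 h3).symm
  have hc1 := h.gc_const hz (eventually_const_of_norm (h.analytic_gc hz _) hn2)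
  set κ := gc (U (e₁ ν)) z₀ with hκ
  have hκ0 : κ ≠ 0 := by
    intro h0
    have := hn.self_of_nhds
    rw [← hκ, h0, zero_pow (by omega), norm_zero, zero_mul] at this
    exact zero_ne_one this
  have hc2 : ∀ z ∈ comp U z₀, gc (U (e₂ ν)) z = t * κ := by
    apply h.gc_const hz
    filter_upwards [ht, (h.isOpen_comp z₀).mem_nhds hz] with w hw hw2
    rw [hw, hc1 w hw2]
  have hH : ∀ i, HarmonicOnNhd (U i) (comp U z₀) := fun i z hz => h.harm z (h.pos_of_comp hz) i
  have ha1 := affine_of_gc (h.isOpen_comp z₀) (pre_comp U z₀) (hH _) hc1 hz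
  have ha2 := affine_of_gc (h.isOpen_comp z₀) (pre_comp U z₀) (hH _) hc2 hz
  have hpos : ∀ z ∈ comp U z₀, 0 < U (e₁ ν) z := by
    rcases h.zero_or_pos z₀ (e₁ ν) with h2 | h2
    · rw [h2 z₀ hz] at h1
      exact absurd h1 (lt_irrefl _)
    · exact h2
  set b : ℝ := U (e₁ ν) z₀ - (κ * z₀).re with hb
  have hU1 : ∀ z ∈ comp U z₀, U (e₁ ν) z = (κ * z).re + b := by
    intro z hz'
    rw [ha1 z hz', hb, mul_sub, sub_re]
    ring
  have hhp := h.half_plane hz₀ hU1 hpos
  -- `U (e₂ ν)` on the boundary line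
  set b' : ℝ := U (e₂ ν) z₀ - (t * κ * z₀).re with hb'
  have hU2 : ∀ z ∈ closure (comp U z₀), U (e₂ ν) z = (t * κ * z).re + b' := by
    have hcl : IsClosed {z | U (e₂ ν) z = (t * κ * z).re + b'} := isClosed_eq (h.cont _) (by fun_prop)
    apply hcl.closure_subset_iff.2
    intro z hz'
    show U (e₂ ν) z = (t * κ * z).re + b'
    rw [ha2 z hz', hb', mul_sub, sub_re]
    ring
  have hline : ∀ z : ℂ, (κ * z).re + b = 0 → (t * κ * z).re + b' = 0 := by
    intro z hz'
    have hmem : z ∈ closure (comp U z₀) := by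
      rw [hhp, mem_closure_iff_seq_limit]
      refine ⟨fun n => z + (1 / ((n : ℝ) + 1) : ℝ) * κ⁻¹, fun n => ?_, ?_⟩
      · show 0 < (κ * (z + (1 / ((n : ℝ) + 1) : ℝ) * κ⁻¹)).re + b
        have e : κ * (z + (1 / ((n : ℝ) + 1) : ℝ) * κ⁻¹) = κ * z + (1 / ((n : ℝ) + 1) : ℝ) := by
          field_simp
        rw [e, add_re, ofReal_re]
        have : (0 : ℝ) < 1 / ((n : ℝ) + 1) := by positivity
        linarith
      · have h3 : Tendsto (fun n : ℕ => ((1 / ((n : ℝ) + 1) : ℝ) : ℂ)) atTop (𝓝 0) := by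
          have := (continuous_ofReal.tendsto 0).comp tendsto_one_div_add_atTop_nhds_zero_nat
          rw [ofReal_zero] at this
          exact this
        have h4 := (h3.mul_const κ⁻¹).const_add z
        simpa using h4
    have hnot : z ∉ comp U z₀ := by
      rw [hhp]
      show ¬ 0 < (κ * z).re + b
      rw [hz']
      exact lt_irrefl _
    rw [← hU2 z hmem]
    exact h.eq_zero (h.zero_of_boundary hmem hnot) _
  -- a point of the line and its direction
  set p : ℂ := -(b : ℂ) / κ with hp'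
  have hp1 : (κ * p).re + b = 0 := by
    have : κ * p = -(b : ℂ) := by rw [hp']; field_simp
    rw [this]
    simp
  have hp2 : (κ * (p + I / κ)).re + b = 0 := by
    have : κ * (p + I / κ) = κ * p + I := by field_simp
    rw [this, add_re, I_re, add_zero]
    exact hp1
  have l1 := hline _ hp1
  have l2 := hline _ hp2
  have e3 : t * κ * (p + I / κ) = t * κ * p + t * I := by field_simp
  rw [e3, add_re] at l2
  have him : t.im = 0 := by
    have : (t * I).re = 0 := by linarith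
    simpa using this
  have hreal : t = ((t.re : ℝ) : ℂ) := by
    apply Complex.ext
    · simp
    · simp [him]
  have e4 : ∀ z, (t * κ * z).re + b' = t.re * ((κ * z).re + b) := by
    intro z
    have e5 : ∀ y : ℂ, (t * κ * y).re = t.re * (κ * y).re := by
      intro y
      rw [hreal, mul_assoc, re_ofReal_mul, ofReal_re]
    rw [e5] at l1
    have e6 : (κ * p).re = -b := by linarith
    rw [e6] at l1
    rw [e5]
    linarith
  refine ⟨κ, b, t.re, hκ0, hreal, ?_, hhp, hU1, fun z hz' => ?_⟩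
  · have h5 : 0 ≤ U (e₂ ν) z₀ := h.nonneg _ _
    rw [hU2 z₀ (subset_closure hz), e4, ← hU1 z₀ hz] at h5
    by_contra hneg
    push Not at hneg
    nlinarith
  · rw [hU2 z (subset_closure hz'), e4]

end Blow

end Pool.Agent.SDR

end
end

section

/-!
# SR3 AZal: Zalcman's rescaling for the Fubini-Study length

PROOF.  `s w = fs (F w) (F' w)` is continuous; `b` = a maximum of `s w (R / 2 - ‖w - z‖)` on the closed disc of radius `R / 2`, `ρ = R / 2 - ‖b - z‖`,
`s b ρ ≥ s z R / 2 > 4 k`, `a = 1 / s b`.  For `‖w‖ < k` the point `y = b + a w` has `‖y - b‖ ≤ a k < ρ / 4`, so `s y (3 ρ / 4) ≤ s b ρ`.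
-/

set_option autoImplicit false

open Topology Filter Metric

noncomputable section

namespace Pool.Agent.SR3

open Pool.Agent.H36.BP (EN fs wd fs_nonneg)

private theorem AZal_cont {K : ℕ} {F : ℂ → EN K} (hF : Differentiable ℂ F) (h0 : ∀ z, F z ≠ 0) : Continuous fun w => fs (F w) (deriv F w) := by
  have h1 : Continuous F := hF.continuous
  have h2 : Continuous (deriv F) := (hF.contDiff (n := 1)).continuous_deriv le_rfl
  have h3 : ∀ w, ‖F w‖ ^ 2 ≠ 0 := fun w => pow_ne_zero 2 (norm_ne_zero_iff.2 (h0 w))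
  unfold fs wd
  exact ((((h1.norm.pow 2).mul (h2.norm.pow 2)).sub ((h1.inner h2).norm.pow 2)).sqrt).div (h1.norm.pow 2) h3

theorem zalcman {K : ℕ} {F : ℂ → EN K} (hF : Differentiable ℂ F) (h0 : ∀ z, F z ≠ 0) {R k : ℝ} (hR : 0 < R) (hk : 1 ≤ k) {z : ℂ}
    (h : 8 * k < R * fs (F z) (deriv F z)) :
    ∃ (a : ℝ) (b : ℂ), 0 < a ∧ ‖b - z‖ ≤ R / 2 ∧ a * k ≤ R / 4 ∧ a * fs (F b) (deriv F b) = 1 ∧
      ∀ w ∈ ball (0 : ℂ) k, a * fs (F (b + a * w)) (deriv F (b + a * w)) ≤ 2 := by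
  obtain ⟨s, hs⟩ : ∃ s : ℂ → ℝ, s = fun w => fs (F w) (deriv F w) := ⟨_, rfl⟩
  have hsc : Continuous s := by rw [hs]; exact AZal_cont hF h0
  have hs0 : ∀ w, 0 ≤ s w := fun w => by rw [hs]; exact fs_nonneg _ _
  have hsz : 8 * k < R * s z := by rw [hs]; exact h
  have huc : ContinuousOn (fun w => s w * (R / 2 - ‖w - z‖)) (closedBall z (R / 2)) :=
    (hsc.mul (continuous_const.sub (continuous_id.sub continuous_const).norm)).continuousOn
  obtain ⟨b, hb, hmax⟩ := (isCompact_closedBall z (R / 2)).exists_isMaxOn ⟨z, mem_closedBall_self (by positivity)⟩ huc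
  have hbn : ‖b - z‖ ≤ R / 2 := mem_closedBall_iff_norm.1 hb
  have h1 : s z * (R / 2) ≤ s b * (R / 2 - ‖b - z‖) := by
    have := hmax (mem_closedBall_self (by positivity : (0 : ℝ) ≤ R / 2))
    simpa using this
  obtain ⟨ρ, hρ⟩ : ∃ ρ : ℝ, ρ = R / 2 - ‖b - z‖ := ⟨_, rfl⟩
  rw [← hρ] at h1
  have hρ0 : 0 ≤ ρ := by rw [hρ]; linarith
  have h2 : 4 * k < s b * ρ := by nlinarith
  have hpos : 0 < s b * ρ := by linarith
  have hsb : 0 < s b := by
    rcases (hs0 b).lt_or_eq with h3 | h3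
    · exact h3
    · rw [← h3, zero_mul] at hpos
      exact absurd hpos (lt_irrefl _)
  have hρp : 0 < ρ := by
    rcases hρ0.lt_or_eq with h3 | h3
    · exact h3
    · rw [← h3, mul_zero] at hpos
      exact absurd hpos (lt_irrefl _)
  have hak : (s b)⁻¹ * k < ρ / 4 := by
    rw [inv_mul_lt_iff₀ hsb]
    linarith
  refine ⟨(s b)⁻¹, b, inv_pos.2 hsb, hbn, ?_, ?_, ?_⟩
  · have h3 : ρ ≤ R / 2 := by rw [hρ]; linarith [norm_nonneg (b - z)]
    linarith
  · have h3 : s b = fs (F b) (deriv F b) := by rw [hs]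
    rw [← h3]
    exact inv_mul_cancel₀ hsb.ne'
  · intro w hw
    rw [mem_ball_zero_iff] at hw
    obtain ⟨y, hy⟩ : ∃ y : ℂ, y = b + (((s b)⁻¹ : ℝ) : ℂ) * w := ⟨_, rfl⟩
    rw [← hy]
    have h3 : fs (F y) (deriv F y) = s y := by rw [hs]
    rw [h3]
    have hyb : ‖y - b‖ ≤ ρ / 4 := by
      rw [hy, add_sub_cancel_left, norm_mul, Complex.norm_real, Real.norm_of_nonneg (inv_pos.2 hsb).le]
      have h4 : (s b)⁻¹ * ‖w‖ ≤ (s b)⁻¹ * k := mul_le_mul_of_nonneg_left hw.le (inv_pos.2 hsb).le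
      linarith
    have hyz : ‖y - z‖ ≤ ‖b - z‖ + ρ / 4 := by
      calc ‖y - z‖ = ‖(y - b) + (b - z)‖ := by rw [sub_add_sub_cancel]
        _ ≤ ‖y - b‖ + ‖b - z‖ := norm_add_le _ _
        _ ≤ ‖b - z‖ + ρ / 4 := by linarith
    have hyball : y ∈ closedBall z (R / 2) := by
      rw [mem_closedBall_iff_norm]
      linarith [hρ]
    have h5 : s y * (R / 2 - ‖y - z‖) ≤ s b * (R / 2 - ‖b - z‖) := hmax hyball
    rw [← hρ] at h5
    have h6 : s y * (3 * ρ / 4) ≤ s y * (R / 2 - ‖y - z‖) := mul_le_mul_of_nonneg_left (by linarith) (hs0 y)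
    have h7 : s y * (3 / 4) ≤ s b := by
      have h8 : s y * (3 / 4) * ρ ≤ s b * ρ := by linarith
      exact le_of_mul_le_mul_right h8 hρp
    rw [inv_mul_le_iff₀ hsb]
    linarith

end Pool.Agent.SR3

end
end

section

/-!
# SR3 DDefs: blow-downs

`Bl` is the abstract class of the blow-downs of the functions `lam i` along an entire curve, `Pre` describes the sequences which converge to them.
-/

set_option autoImplicit false

open Metric Topology Filter MvPolynomial InnerProductSpace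

noncomputable section

namespace Pool.Agent.SR3

open Pool.Agent.SDR (gc)

variable {ι J Ty : Type} [Fintype ι]

/-- The class of the blow-downs. -/
structure Bl (supp : Ty → Finset ι) (P : Ty → J → MvPolynomial ι ℂ) (C A : ℝ) (q : J → ℂ) (U : ι → ℂ → ℝ) : Prop where
  nonneg : ∀ i z, 0 ≤ U i z
  lip : ∀ i z w, |U i z - U i w| ≤ C * ‖z - w‖
  big : ∀ (w : ℂ) (r : ℝ), 0 < r → ∃ z ∈ closedBall w r, A * r ≤ ∑ i, U i z
  harm : ∀ w, 0 < ∑ i, U i w → ∀ i, HarmonicAt (U i) w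
  typ : ∀ w, 0 < ∑ i, U i w → ∃ t, (∀ i, i ∉ supp t → U i w = 0) ∧ ∀ j, eval (fun i => gc (U i) w) (P t j) = q j

/-- Sequences of functions whose limits are blow-downs. -/
structure Pre (supp : Ty → Finset ι) (P : Ty → J → MvPolynomial ι ℂ) (C A : ℝ) (l : Filter ℕ) (q : ℕ → J → ℂ) (U : ℕ → ι → ℂ → ℝ) : Prop where
  nonneg : ∀ i z, ∀ ε : ℝ, 0 < ε → ∀ᶠ n in l, -ε ≤ U n i z
  lip : ∀ᶠ n in l, ∀ i z w, |U n i z - U n i w| ≤ C * ‖z - w‖
  bound : ∃ B : ℝ, ∀ᶠ n in l, ∀ i, |U n i 0| ≤ B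
  big : ∀ (w : ℂ) (r : ℝ), 0 < r → ∀ᶠ n in l, ∃ z ∈ closedBall w r, A * r ≤ ∑ i, U n i z
  hol : ∀ (w : ℂ) (δ : ℝ), 0 < δ → (∀ᶠ n in l, δ ≤ ∑ i, U n i w) → ∃ r : ℝ, 0 < r ∧ ∃ h : ℕ → ι → ℂ → ℂ,
    (∀ᶠ n in l, ∀ i, DifferentiableOn ℂ (h n i) (ball w r)) ∧
    ∀ ε : ℝ, 0 < ε → ∀ᶠ n in l, (∀ i, ∀ z ∈ ball w r, |U n i z - (h n i z).re| ≤ ε) ∧
      ∃ t, (∀ i, i ∉ supp t → U n i w ≤ ε) ∧ ∀ j, ‖eval (fun i => deriv (h n i) w) (P t j) - q n j‖ ≤ ε

/-- `U` is linear on the two sides of the line `Re (star u * z) = c`. -/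
structure Lin (u : ℂ) (c : ℝ) (β γ : ι → ℝ) (U : ι → ℂ → ℝ) : Prop where
  norm : ‖u‖ = 1
  pos : ∀ i, 0 ≤ β i
  pos' : ∀ i, 0 ≤ γ i
  up : ∀ i z, c ≤ (star u * z).re → U i z = β i * ((star u * z).re - c)
  down : ∀ i z, (star u * z).re ≤ c → U i z = γ i * (c - (star u * z).re)

end Pool.Agent.SR3

end
end

section

/-!
# SR3 Comp: translations, scaling, local constancy of the type
-/

set_option autoImplicit false

open Metric Topology Filter MvPolynomial InnerProductSpace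

noncomputable section

namespace Pool.Agent.SR3

open Pool.Agent.SDR (gc gc_congr gc_re analyticAt_gc eq_zero_of_nonneg)

variable {ι J Ty : Type} [Fintype ι]

/-- a function which is harmonic at a point is the real part of an analytic function there -/
theorem Comp_exists_re {u : ℂ → ℝ} {a : ℂ} (hu : HarmonicAt u a) : ∃ F : ℂ → ℂ, AnalyticAt ℂ F a ∧ ∀ᶠ z in 𝓝 a, (F z).re = u z := by
  obtain ⟨r, hr, hb⟩ := Metric.eventually_nhds_iff_ball.1 hu.eventually
  obtain ⟨F, hF, hre⟩ := InnerProductSpace.HarmonicOnNhd.exists_analyticOnNhd_ball_re_eq (z := a) (R := r) (fun z hz => hb z hz)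
  refine ⟨F, hF a (mem_ball_self hr), ?_⟩
  filter_upwards [ball_mem_nhds a hr] with z hz
  exact hre hz

theorem Comp_tendsto (p : ℂ) (R : ℝ) (w : ℂ) : Tendsto (fun z : ℂ => p + R * z) (𝓝 w) (𝓝 (p + R * w)) := by
  have : Continuous fun z : ℂ => p + R * z := by fun_prop
  exact this.tendsto w

theorem Comp_affine {u : ℂ → ℝ} {p w : ℂ} {R : ℝ} (hR : 0 < R) (hu : HarmonicAt u (p + R * w)) :
    HarmonicAt (fun z => u (p + R * z) / R) w ∧ gc (fun z => u (p + R * z) / R) w = gc u (p + R * w) := by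
  obtain ⟨F, hF, hre⟩ := Comp_exists_re hu
  have hRc : (R : ℂ) ≠ 0 := by exact_mod_cast hR.ne'
  have hG : AnalyticAt ℂ (fun z : ℂ => F (p + R * z) / R) w := by
    have h1 : AnalyticAt ℂ (fun z : ℂ => p + R * z) w := by fun_prop
    exact (AnalyticAt.fun_comp (g := F) (f := fun z : ℂ => p + R * z) hF h1).div analyticAt_const hRc
  have he : (fun z : ℂ => (F (p + R * z) / R).re) =ᶠ[𝓝 w] fun z => u (p + R * z) / R := by
    filter_upwards [(Comp_tendsto p R w).eventually hre] with z hz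
    rw [Complex.div_ofReal_re, hz]
  constructor
  · exact (InnerProductSpace.harmonicAt_congr_nhds he).1 hG.harmonicAt_re
  · rw [← gc_congr he, gc_re hG]
    have h2 : gc u (p + R * w) = deriv F (p + R * w) := by
      rw [← gc_re hF]
      exact gc_congr (hre.mono fun z hz => hz.symm)
    rw [h2]
    have h3 : HasDerivAt (fun z : ℂ => p + R * z) (R : ℂ) w := by
      simpa using ((hasDerivAt_id w).const_mul (R : ℂ)).const_add p
    have h4 := (hF.differentiableAt.hasDerivAt.comp w h3).div_const (R : ℂ)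
    have h5 := h4.deriv
    rw [mul_div_assoc, div_self hRc, mul_one] at h5
    exact h5

/-- translation and scaling -/
theorem Bl.affine {supp : Ty → Finset ι} {P : Ty → J → MvPolynomial ι ℂ} {C A : ℝ} {q : J → ℂ} {U : ι → ℂ → ℝ}
    (h : Bl supp P C A q U) (p : ℂ) {R : ℝ} (hR : 0 < R) : Bl supp P C A q (fun i z => U i (p + R * z) / R) := by
  have hRc : (R : ℂ) ≠ 0 := by exact_mod_cast hR.ne'
  have hs : ∀ w : ℂ, 0 < ∑ i, U i (p + R * w) / R → 0 < ∑ i, U i (p + R * w) := by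
    intro w hw
    rw [← Finset.sum_div] at hw
    have := mul_pos hw hR
    rwa [div_mul_cancel₀ _ hR.ne'] at this
  refine ⟨fun i z => div_nonneg (h.nonneg i _) hR.le, fun i z w => ?_, fun w r hr => ?_, fun w hw i => ?_, fun w hw => ?_⟩
  · rw [← sub_div, abs_div, abs_of_pos hR, div_le_iff₀ hR]
    have h1 := h.lip i (p + R * z) (p + R * w)
    have h2 : (p + R * z) - (p + R * w) = (R : ℂ) * (z - w) := by ring
    rw [h2, norm_mul, Complex.norm_real, Real.norm_of_nonneg hR.le] at h1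
    linarith
  · obtain ⟨z, hz, hA⟩ := h.big (p + R * w) (R * r) (mul_pos hR hr)
    refine ⟨(z - p) / R, ?_, ?_⟩
    · rw [mem_closedBall, dist_eq_norm] at hz ⊢
      have h2 : (z - p) / R - w = (z - (p + R * w)) / R := by field_simp; ring
      rw [h2, norm_div, Complex.norm_real, Real.norm_of_nonneg hR.le, div_le_iff₀ hR]
      linarith
    · have h3 : p + (R : ℂ) * ((z - p) / R) = z := by field_simp; ring
      simp only [h3]
      rw [← Finset.sum_div, le_div_iff₀ hR]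
      linarith
  · exact (Comp_affine hR (h.harm _ (hs w hw) i)).1
  · obtain ⟨t, h1, h2⟩ := h.typ _ (hs w hw)
    refine ⟨t, fun i hi => ?_, fun j => ?_⟩
    · show U i (p + R * w) / R = 0
      rw [h1 i hi, zero_div]
    · have h3 : (fun i => gc (fun z => U i (p + R * z) / R) w) = fun i => gc (U i) (p + R * w) :=
        funext fun i => (Comp_affine hR (h.harm _ (hs w hw) i)).2
      rw [h3]
      exact h2 j

/-- members of the class form a `Pre` sequence -/
theorem Bl.pre {supp : Ty → Finset ι} {P : Ty → J → MvPolynomial ι ℂ} {C A : ℝ} {l : Filter ℕ} {q : ℕ → J → ℂ}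
    {U : ℕ → ι → ℂ → ℝ} (hC : 0 ≤ C) (h : ∀ n, Bl supp P C A (q n) (U n)) {B : ℝ} (hB : ∀ n i, U n i 0 ≤ B) :
    Pre supp P C A l q U := by
  refine ⟨fun i z ε hε => Eventually.of_forall fun n => by linarith [(h n).nonneg i z], Eventually.of_forall fun n => (h n).lip,
    ⟨B, Eventually.of_forall fun n i => by rw [abs_of_nonneg ((h n).nonneg i 0)]; exact hB n i⟩,
    fun w r hr => Eventually.of_forall fun n => (h n).big w r hr, fun w δ hδ hw => ?_⟩
  set K : ℝ := C * Fintype.card ι + 1 with hK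
  have hK0 : 0 < K := by positivity
  have hpos : ∀ n, δ ≤ ∑ i, U n i w → ∀ z ∈ ball w (δ / K), 0 < ∑ i, U n i z := by
    intro n hn z hz
    rw [mem_ball, dist_eq_norm, lt_div_iff₀ hK0] at hz
    have h1 : ∑ i, U n i w - ∑ i, U n i z ≤ Fintype.card ι * (C * ‖z - w‖) := by
      rw [← Finset.sum_sub_distrib, ← Finset.card_univ, ← nsmul_eq_mul]
      refine Finset.sum_le_card_nsmul _ _ _ fun i _ => ?_
      have := (h n).lip i w z
      rw [norm_sub_rev] at this
      exact (le_abs_self _).trans this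
    have h2 : 0 ≤ ‖z - w‖ := norm_nonneg _
    rw [hK] at hz
    nlinarith
  have hex : ∀ n i, δ ≤ ∑ i, U n i w → ∃ F : ℂ → ℂ, AnalyticOnNhd ℂ F (ball w (δ / K)) ∧ ∀ z ∈ ball w (δ / K), (F z).re = U n i z := by
    intro n i hn
    obtain ⟨F, hF, hre⟩ := InnerProductSpace.HarmonicOnNhd.exists_analyticOnNhd_ball_re_eq (z := w) (R := δ / K)
      (fun z hz => (h n).harm z (hpos n hn z hz) i)
    exact ⟨F, hF, fun z hz => hre hz⟩
  have hr : 0 < δ / K := div_pos hδ hK0
  refine ⟨δ / K, hr, ?_⟩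
  have hex' : ∀ n i, ∃ F : ℂ → ℂ, δ ≤ ∑ i, U n i w → AnalyticOnNhd ℂ F (ball w (δ / K)) ∧ ∀ z ∈ ball w (δ / K), (F z).re = U n i z := by
    intro n i
    by_cases hn : δ ≤ ∑ i, U n i w
    · obtain ⟨F, hF⟩ := hex n i hn
      exact ⟨F, fun _ => hF⟩
    · exact ⟨0, fun hn' => absurd hn' hn⟩
  choose F hF using hex'
  refine ⟨F, hw.mono fun n hn i => (hF n i hn).1.differentiableOn, fun ε hε => hw.mono fun n hn => ⟨fun i z hz => ?_, ?_⟩⟩
  · rw [(hF n i hn).2 z hz, sub_self, abs_zero]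
    exact hε.le
  · obtain ⟨t, h1, h2⟩ := (h n).typ w (lt_of_lt_of_le hδ hn)
    refine ⟨t, fun i hi => by rw [h1 i hi]; exact hε.le, fun j => ?_⟩
    have h3 : ∀ i, deriv (F n i) w = gc (U n i) w := by
      intro i
      rw [← gc_re ((hF n i hn).1 w (mem_ball_self hr))]
      apply gc_congr
      filter_upwards [ball_mem_nhds w hr] with z hz
      exact (hF n i hn).2 z hz
    simp only [h3]
    rw [h2 j, sub_self, norm_zero]
    exact hε.le

/-- the type is valid near the point (finitely many types; identity theorem) -/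
theorem Bl.typ_near [Finite Ty] {supp : Ty → Finset ι} {P : Ty → J → MvPolynomial ι ℂ} {C A : ℝ} {q : J → ℂ} {U : ι → ℂ → ℝ}
    (h : Bl supp P C A q U) {w : ℂ} (hw : 0 < ∑ i, U i w) :
    ∃ t, ∀ᶠ z in 𝓝 w, (∀ i, i ∉ supp t → U i z = 0) ∧ ∀ j, eval (fun i => gc (U i) z) (P t j) = q j := by
  classical
  -- a ball with harmonic functions
  obtain ⟨r, hr, hb⟩ : ∃ r : ℝ, 0 < r ∧ ∀ z ∈ ball w r, 0 < ∑ i, U i z := by
    have hc : ∀ i, Continuous (U i) := fun i => by
      refine (LipschitzWith.of_dist_le_mul (K := (|C|).toNNReal) fun z z' => ?_).continuous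
      rw [Real.dist_eq, dist_eq_norm, Real.coe_toNNReal _ (abs_nonneg C)]
      exact (h.lip i z z').trans (mul_le_mul_of_nonneg_right (le_abs_self C) (norm_nonneg _))
    have h1 : ∀ᶠ z in 𝓝 w, 0 < ∑ i, U i z :=
      (continuous_finsetSum _ fun i _ => hc i).continuousAt.eventually_const_lt hw
    exact Metric.eventually_nhds_iff_ball.1 h1
  have hwb : w ∈ ball w r := mem_ball_self hr
  -- a type which is valid at points arbitrarily near `w`
  obtain ⟨t, ht⟩ : ∃ t, ∃ᶠ z in 𝓝[≠] w, (∀ i, i ∉ supp t → U i z = 0) ∧ ∀ j, eval (fun i => gc (U i) z) (P t j) = q j := by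
    by_contra hcon
    push Not at hcon
    have h1 := eventually_all.2 hcon
    have h2 : ∀ᶠ z in 𝓝[≠] w, z ∈ ball w r := mem_nhdsWithin_of_mem_nhds (ball_mem_nhds w hr)
    obtain ⟨z, hz1, hz2⟩ := (h1.and h2).exists
    obtain ⟨t, ht1, ht2⟩ := h.typ z (hb z hz2)
    obtain ⟨j, hj⟩ := hz1 t ht1
    exact hj (ht2 j)
  refine ⟨t, ?_⟩
  have e1 : ∀ i, i ∉ supp t → ∀ z ∈ ball w r, U i z = 0 := by
    intro i hi
    have h2 : ∀ᶠ z in 𝓝[≠] w, z ∈ ball w r := mem_nhdsWithin_of_mem_nhds (ball_mem_nhds w hr)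
    obtain ⟨z, hz1, hz2⟩ := (ht.and_eventually h2).exists
    exact eq_zero_of_nonneg (fun z hz => h.harm z (hb z hz) i) (fun z _ => h.nonneg i z) hz2 (hz1.1 i hi)
  have e2 : ∀ j, ∀ z ∈ ball w r, eval (fun i => gc (U i) z) (P t j) = q j := by
    intro j
    have hA : AnalyticOnNhd ℂ (fun z => eval (fun i => gc (U i) z) (P t j)) (ball w r) := by
      intro z hz
      simp only [eval_eq']
      refine Finset.analyticAt_fun_sum _ fun d _ => analyticAt_const.mul ?_
      exact Finset.analyticAt_fun_prod _ fun i _ => (analyticAt_gc (h.harm z (hb z hz) i)).pow _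
    exact hA.eqOn_of_preconnected_of_frequently_eq analyticOnNhd_const (convex_ball w r).isPreconnected hwb (ht.mono fun z hz => hz.2 j)
  filter_upwards [ball_mem_nhds w hr] with z hz
  exact ⟨fun i hi => e1 i hi z hz, fun j => e2 j z hz⟩

end Pool.Agent.SR3

end
end

section

/-!
# SR3 ECov: the diameter of a connected set with a small cover; points near the roots of `s ^ m = p`
-/

set_option autoImplicit false

open Topology Filter Metric Complex InnerProductSpace Laplacian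

noncomputable section

namespace Pool.Agent.SR3.BE

/-- A connected set which is covered by `n` closed discs of radius `e` has diameter at most `2 n e`. -/
theorem cover_diam {s : Set ℂ} (hs : IsPreconnected s) (t : Finset ℂ) {e : ℝ} (he : 0 ≤ e) (h : ∀ z ∈ s, ∃ c ∈ t, ‖z - c‖ ≤ e) :
    ∀ z ∈ s, ∀ z' ∈ s, ‖z - z'‖ ≤ 2 * t.card * e := by
  intro z hz z' hz'
  have hf : Continuous fun w : ℂ => ‖w - z‖ := by fun_prop
  have h1 : IsPreconnected ((fun w : ℂ => ‖w - z‖) '' s) := hs.image _ hf.continuousOn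
  have h2 : Set.Icc (0 : ℝ) ‖z' - z‖ ⊆ (fun w : ℂ => ‖w - z‖) '' s :=
    h1.Icc_subset ⟨z, hz, by simp⟩ ⟨z', hz', rfl⟩
  have h3 : Set.Icc (0 : ℝ) ‖z' - z‖ ⊆ ⋃ c ∈ t, Set.Icc (‖c - z‖ - e) (‖c - z‖ + e) := by
    intro x hx
    obtain ⟨w, hw, rfl⟩ := h2 hx
    obtain ⟨c, hc, hwc⟩ := h w hw
    simp only [Set.mem_iUnion]
    refine ⟨c, hc, ?_, ?_⟩
    · have h4 : ‖c - z‖ ≤ ‖w - z‖ + ‖w - c‖ := by
        have h5 : c - z = (w - z) - (w - c) := by ring
        rw [h5]
        exact norm_sub_le _ _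
      show ‖c - z‖ - e ≤ ‖w - z‖
      linarith
    · have h4 : ‖w - z‖ ≤ ‖c - z‖ + ‖w - c‖ := by
        have h5 : w - z = (c - z) + (w - c) := by ring
        rw [h5]
        exact norm_add_le _ _
      show ‖w - z‖ ≤ ‖c - z‖ + e
      linarith
  have h4 := MeasureTheory.measure_mono (μ := MeasureTheory.volume) h3
  have h5 := h4.trans (MeasureTheory.measure_biUnion_finset_le t _)
  have h6 : ∀ c ∈ t, MeasureTheory.volume (Set.Icc (‖c - z‖ - e) (‖c - z‖ + e)) = ENNReal.ofReal (2 * e) := by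
    intro c _
    rw [Real.volume_Icc]
    congr 1
    ring
  rw [Finset.sum_congr rfl h6, Real.volume_Icc, sub_zero, Finset.sum_const, nsmul_eq_mul, ← ENNReal.ofReal_natCast,
    ← ENNReal.ofReal_mul (by positivity), ENNReal.ofReal_le_ofReal_iff (by positivity)] at h5
  rw [norm_sub_rev]
  linarith

/-- `∏ (s - r) = s ^ m - p` over the `m`-th roots `r` of `p`. -/
theorem near_root {m : ℕ} (hm : 1 ≤ m) (p : ℂ) : ∃ t : Finset ℂ, t.card ≤ m ∧ ∀ (s : ℂ) (e : ℝ), 0 ≤ e → ‖s ^ m - p‖ ≤ e ^ m → ∃ r ∈ t, ‖s - r‖ ≤ e := by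
  obtain ⟨r₀, hr₀⟩ := IsAlgClosed.exists_pow_nat_eq p (show 0 < m by omega)
  have hprim := Complex.isPrimitiveRoot_exp m (by omega)
  refine ⟨(Polynomial.nthRootsFinset m (1 : ℂ)).image fun ζ => ζ * r₀, ?_, ?_⟩
  · exact Finset.card_image_le.trans (le_of_eq hprim.card_nthRootsFinset)
  · intro s e he hs
    rw [← hr₀, hprim.pow_sub_pow_eq_prod_sub_mul s r₀ (by omega), norm_prod] at hs
    by_contra hcon
    push Not at hcon
    have h1 : ∀ ζ ∈ Polynomial.nthRootsFinset m (1 : ℂ), e < ‖s - ζ * r₀‖ := fun ζ hζ => hcon _ (Finset.mem_image_of_mem _ hζ)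
    have h2 : e ^ m = ∏ _ζ ∈ Polynomial.nthRootsFinset m (1 : ℂ), e := by
      rw [Finset.prod_const, hprim.card_nthRootsFinset]
    rcases he.eq_or_lt with h0 | h0
    · rw [← h0, zero_pow (by omega)] at hs
      exact absurd (Finset.prod_pos fun ζ hζ => he.trans_lt (h1 ζ hζ)) (not_lt.2 hs)
    · rw [h2] at hs
      have hne : (Polynomial.nthRootsFinset m (1 : ℂ)).Nonempty := by
        rw [← Finset.card_pos, hprim.card_nthRootsFinset]
        omega
      exact absurd (Finset.prod_lt_prod_of_nonempty (fun _ _ => h0) h1 hne) (not_lt.2 hs)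

end Pool.Agent.SR3.BE

end
end

section

/-!
# SR3 Glo (module H1): from charts to the whole surface (helper92)
-/

set_option autoImplicit false

open Topology Filter Metric

noncomputable section

namespace Pool.Agent.SR3

open Pool.Agent.H36.BP (EN)
open Pool.Agent.H17BP (Surface IsChart)
open Pool.Agent.H14.PP (IsCone Tan CurveAt)

variable {N : ℕ}

/-- the points and tangent vectors of the surface near the centre of a chart -/
private theorem glo_chart {X : Set (EN N)} {σ : ℂ × ℂ → EN N} {τ : EN N → ℂ × ℂ} (h : IsChart X σ τ) :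
    ∀ᶠ y in 𝓝 (σ 0), y ∈ X → ∃ (p : ℂ × ℂ) (c : ℂ), p = τ y ∧ c ≠ 0 ∧ y = c • σ p ∧
      ∀ v, Tan X y v → ∃ (a : ℂ) (v' : ℂ × ℂ), v = c • fderiv ℂ σ p v' + a • σ p := by
  have h0 : τ (σ 0) = 0 := h.left.self_of_nhds
  have h1 : Tendsto τ (𝓝 (σ 0)) (𝓝 0) := by
    have := h.τ_an.continuousAt
    rwa [ContinuousAt, h0] at this
  have h2 : ∀ᶠ y in 𝓝 (σ 0), σ (τ y) ≠ 0 := (h.σ_an.continuousAt.tendsto.comp h1).eventually_ne h.ne
  filter_upwards [h.right.eventually_nhds, h.τ_an.eventually_analyticAt, h1.eventually h.σ_an.eventually_analyticAt, h2] with y h3 h4 h5 h6 hyX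
  obtain ⟨c, hc, h7⟩ := h3.self_of_nhds hyX
  refine ⟨τ y, c, rfl, hc, h7, fun v hv => ?_⟩
  obtain ⟨F, ⟨hF, hFX⟩, hF0, hF1⟩ := hv
  have h8 : AnalyticAt ℂ (fun z => τ (F z)) 0 := AnalyticAt.comp_of_eq h4 hF hF0
  have h9 : AnalyticAt ℂ (fun z => σ (τ (F z))) 0 := AnalyticAt.comp_of_eq h5 h8 (by rw [hF0])
  obtain ⟨b, hb⟩ : ∃ b, σ (τ y) b ≠ 0 := by
    by_contra hne
    push Not at hne
    exact h6 (by ext b; exact hne b)
  have hco : ∀ {G : ℂ → EN N}, AnalyticAt ℂ G 0 → AnalyticAt ℂ (fun z => G z b) 0 := fun {G} hG =>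
    ((EuclideanSpace.proj b : EN N →L[ℂ] ℂ).analyticAt _).fun_comp hG
  have hGb : σ (τ (F 0)) b ≠ 0 := by rwa [hF0]
  have hk : AnalyticAt ℂ (fun z => F z b / σ (τ (F z)) b) 0 := (hco hF).div (hco h9) hGb
  have he : F =ᶠ[𝓝 0] fun z => (F z b / σ (τ (F z)) b) • σ (τ (F z)) := by
    have hFc : Tendsto F (𝓝 0) (𝓝 y) := by
      have := hF.continuousAt
      rwa [ContinuousAt, hF0] at this
    filter_upwards [hFX, hFc.eventually h3, (hco h9).continuousAt.eventually_ne hGb] with z h10 h11 h12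
    obtain ⟨c', -, h13⟩ := h11 h10
    have h14 : F z b = c' * σ (τ (F z)) b := by
      have := congrArg (fun x : EN N => x b) h13
      simpa using this
    rw [h14, mul_div_cancel_right₀ _ h12]
    exact h13
  have h15 : HasDerivAt (fun z => σ (τ (F z))) (fderiv ℂ σ (τ y) (fderiv ℂ τ y v)) 0 := by
    have h16 : HasDerivAt F v 0 := by
      rw [← hF1]
      exact hF.differentiableAt.hasDerivAt
    have h17 : HasDerivAt (fun z => τ (F z)) (fderiv ℂ τ y v) 0 := by
      have h4' : HasFDerivAt τ (fderiv ℂ τ y) (F 0) := by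
        rw [hF0]
        exact h4.differentiableAt.hasFDerivAt
      exact h4'.comp_hasDerivAt 0 h16
    have h5' : HasFDerivAt σ (fderiv ℂ σ (τ y)) (τ (F 0)) := by
      rw [hF0]
      exact h5.differentiableAt.hasFDerivAt
    exact h5'.comp_hasDerivAt 0 h17
  have hk0 : F 0 b / σ (τ (F 0)) b = c := by
    rw [hF0]
    have h18 : y b = c * σ (τ y) b := by
      have := congrArg (fun x : EN N => x b) h7
      simpa using this
    rw [h18, mul_div_cancel_right₀ _ hb]
  have h19 := hk.differentiableAt.hasDerivAt.smul h15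
  have h20 := h19.congr_of_eventuallyEq he
  refine ⟨deriv (fun z => F z b / σ (τ (F z)) b) 0, fderiv ℂ τ y v, ?_⟩
  have h21 := h20.deriv
  rw [hF1, hk0, hF0] at h21
  exact h21

/-- a tangent vector in a chart (`StubR`, RsC4) -/
theorem tan_chart {X : Set (EN N)} {σ : ℂ × ℂ → EN N} {τ : EN N → ℂ × ℂ} (h : IsChart X σ τ) :
    ∀ᶠ y in 𝓝 (σ 0), y ∈ X → ∃ a : ℂ, a ≠ 0 ∧ y = a • σ (τ y) ∧ ∀ v, Tan X y v → ∃ (t : ℂ × ℂ) (a' : ℂ), v = a • fderiv ℂ σ (τ y) t + a' • y := by
  filter_upwards [glo_chart h] with y hy hyX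
  obtain ⟨p, c, hp, hc, h1, h2⟩ := hy hyX
  subst hp
  refine ⟨c, hc, h1, fun v hv => ?_⟩
  obtain ⟨a, v', h3⟩ := h2 v hv
  refine ⟨v', a / c, ?_⟩
  have h4 : (a / c) • y = a • σ (τ y) := by
    conv_lhs => rw [h1, smul_smul, div_mul_cancel₀ _ hc]
  rw [h3, h4]

/-- from charts to the whole surface, for estimates which do not depend on the lift (compactness) -/
theorem global_bound {X K : Set (EN N)} (hX : Surface X) (hc : IsCone X) (hKX : K ⊆ X) (hKs : ∀ x ∈ K, ∀ c : ℂ, c ≠ 0 → c • x ∈ K)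
    {Q : ℝ → EN N → EN N → Prop} (hmono : ∀ C C' x v, C ≤ C' → Q C x v → Q C' x v)
    (hinv : ∀ C, ∀ x ∈ K, ∀ v, Tan X x v → ∀ c a : ℂ, c ≠ 0 → Q C x v → Q C (c • x) (c • v + a • x))
    (hloc : ∀ x ∈ X, ∃ σ τ, IsChart X σ τ ∧ σ 0 = x ∧ ∃ C : ℝ, ∀ᶠ y in 𝓝 (0 : ℂ × ℂ), σ y ∈ K → ∀ v', Q C (σ y) (fderiv ℂ σ y v')) :
    ∃ C : ℝ, ∀ x ∈ K, ∀ v, Tan X x v → Q C x v := by
  have hl : ∀ x ∈ X, ∃ C : ℝ, ∀ᶠ y in 𝓝 x, y ∈ K → ∀ v, Tan X y v → Q C y v := by
    intro x hx
    obtain ⟨σ, τ, hch, h0, C, hC⟩ := hloc x hx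
    refine ⟨C, ?_⟩
    subst h0
    have h1 : Tendsto τ (𝓝 (σ 0)) (𝓝 0) := by
      have := hch.τ_an.continuousAt
      have h2 : τ (σ 0) = 0 := hch.left.self_of_nhds
      rwa [ContinuousAt, h2] at this
    filter_upwards [glo_chart hch, h1.eventually hC, h1.eventually hch.σ_mem.eventually_nhds, h1.eventually hch.σ_an.eventually_analyticAt]
      with y h2 h3 h4 h5 hyK v hv
    obtain ⟨p, c, hp, hc0, h7, h8⟩ := h2 (hKX hyK)
    obtain ⟨a, v', h9⟩ := h8 v hv
    rw [← hp] at h3 h4 h5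
    have h10 : σ p ∈ K := by
      have h11 : c⁻¹ • y = σ p := by rw [h7, smul_smul, inv_mul_cancel₀ hc0, one_smul]
      rw [← h11]
      exact hKs y hyK c⁻¹ (inv_ne_zero hc0)
    have h12 : Tan X (σ p) (fderiv ℂ σ p v') := by
      have h13 : HasDerivAt (fun z : ℂ => p + z • v') v' 0 := by
        have := ((hasDerivAt_id (0 : ℂ)).smul_const v').const_add p
        simpa using this
      have h14 : p + (0 : ℂ) • v' = p := by rw [zero_smul, add_zero]
      have h15 : AnalyticAt ℂ (fun z : ℂ => p + z • v') 0 := analyticAt_const.add (analyticAt_id.smul analyticAt_const)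
      refine ⟨fun z => σ (p + z • v'), ⟨AnalyticAt.comp_of_eq h5 h15 h14, ?_⟩, congrArg σ h14, ?_⟩
      · have h16 : Tendsto (fun z : ℂ => p + z • v') (𝓝 0) (𝓝 p) := by
          have := h15.continuousAt
          rwa [ContinuousAt, h14] at this
        exact h16.eventually h4
      · have h17 : HasFDerivAt σ (fderiv ℂ σ p) (p + (0 : ℂ) • v') := by
          rw [h14]
          exact h5.differentiableAt.hasFDerivAt
        exact (h17.comp_hasDerivAt 0 h13).deriv
    rw [h7, h9]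
    exact hinv C (σ p) h10 _ h12 c a hc0 (h3 h10 v')
  have hS : IsCompact (insert (0 : EN N) X ∩ sphere (0 : EN N) 1) := (isCompact_sphere (0 : EN N) 1).inter_left hc.closed
  have hall : ∃ C : ℝ, ∀ y ∈ insert (0 : EN N) X ∩ sphere (0 : EN N) 1, y ∈ K → ∀ v, Tan X y v → Q C y v := by
    refine hS.induction_on (p := fun s => ∃ C : ℝ, ∀ y ∈ s, y ∈ K → ∀ v, Tan X y v → Q C y v) ?_ ?_ ?_ ?_
    · exact ⟨0, fun y hy => absurd hy (Set.notMem_empty y)⟩
    · rintro s t hst ⟨C, hC⟩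
      exact ⟨C, fun y hy => hC y (hst hy)⟩
    · rintro s t ⟨C, hC⟩ ⟨C', hC'⟩
      refine ⟨max C C', fun y hy hyK v hv => ?_⟩
      rcases hy with hy | hy
      · exact hmono C _ y v (le_max_left _ _) (hC y hy hyK v hv)
      · exact hmono C' _ y v (le_max_right _ _) (hC' y hy hyK v hv)
    · rintro x ⟨hx1, hx2⟩
      have hxX : x ∈ X := by
        rcases hx1 with h | h
        · rw [mem_sphere_zero_iff_norm, h, norm_zero] at hx2
          exact absurd hx2 (by norm_num)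
        · exact h
      obtain ⟨C, hC⟩ := hl x hxX
      exact ⟨_, mem_nhdsWithin_of_mem_nhds hC, C, fun y hy => hy⟩
  obtain ⟨C, hC⟩ := hall
  refine ⟨C, fun x hx v hv => ?_⟩
  have hx0 : x ≠ 0 := fun h => hX.zero (h ▸ hKX hx)
  have hxn : (‖x‖ : ℂ) ≠ 0 := by
    simpa using norm_ne_zero_iff.2 hx0
  have h1 : (‖x‖ : ℂ)⁻¹ • x ∈ K := hKs x hx _ (inv_ne_zero hxn)
  have h2 : Tan X ((‖x‖ : ℂ)⁻¹ • x) ((‖x‖ : ℂ)⁻¹ • v) := by
    obtain ⟨F, ⟨hF, hFX⟩, hF0, hF1⟩ := hv
    refine ⟨fun z => (‖x‖ : ℂ)⁻¹ • F z, ⟨analyticAt_const.fun_smul hF, ?_⟩, congrArg (fun y => (‖x‖ : ℂ)⁻¹ • y) hF0, ?_⟩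
    · filter_upwards [hFX] with z hz
      exact hX.smul _ hz _ (inv_ne_zero hxn)
    · rw [← hF1]
      exact (hF.differentiableAt.hasDerivAt.const_smul ((‖x‖ : ℂ)⁻¹)).deriv
  have h3 : ‖(‖x‖ : ℂ)⁻¹ • x‖ = 1 := by
    rw [norm_smul, norm_inv, Complex.norm_real, norm_norm, inv_mul_cancel₀ (norm_ne_zero_iff.2 hx0)]
  have h4 := hC _ ⟨Or.inr (hKX h1), mem_sphere_zero_iff_norm.2 h3⟩ h1 _ h2
  have h5 := hinv C _ h1 _ h2 (‖x‖ : ℂ) 0 hxn h4
  rwa [smul_smul, mul_inv_cancel₀ hxn, one_smul, smul_smul, mul_inv_cancel₀ hxn, one_smul, zero_smul, add_zero] at h5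

end Pool.Agent.SR3

end
end

section

/-!
# SR3 Grd: choice of the holes

`greedy`: a minimal finite subcover; `hofer`: Hofer's lemma for a finite set.
-/

set_option autoImplicit false

open Topology Filter Metric

noncomputable section

namespace Pool.Agent.SR3

theorem greedy {W : Set ℂ} (hW : IsCompact W) {s : ℂ → ℝ} {K : ℝ} (hK : 2 ≤ K) (hs : ∀ z ∈ W, 0 < s z)
    (ha : ∀ z ∈ W, ∀ z' ∈ W, ‖z' - z‖ < s z / 2 ∨ K * s z < ‖z' - z‖) :
    ∃ t : Finset ℂ, (∀ z ∈ t, z ∈ W) ∧ (∀ z ∈ t, ∀ z' ∈ t, z ≠ z' → K * max (s z) (s z') < ‖z - z'‖) ∧ ∀ z ∈ W, ∃ z' ∈ t, ‖z - z'‖ < s z' / 2 := by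
  classical
  obtain ⟨P, hP⟩ : ∃ P : Finset ℂ → Prop, P = fun t => (∀ z ∈ t, z ∈ W) ∧ ∀ z ∈ W, ∃ z' ∈ t, ‖z - z'‖ < s z' / 2 := ⟨_, rfl⟩
  have hex : ∃ t, P t := by
    obtain ⟨t, ht, hcov⟩ := hW.elim_nhds_subcover (fun z => ball z (s z / 2)) fun z hz => ball_mem_nhds z (half_pos (hs z hz))
    refine ⟨t, ?_⟩
    rw [hP]
    refine ⟨ht, fun z hz => ?_⟩
    obtain ⟨z', hz', hzz⟩ := Set.mem_iUnion₂.1 (hcov hz)
    exact ⟨z', hz', by rwa [mem_ball, dist_eq_norm] at hzz⟩
  obtain ⟨t, ht⟩ := exists_minimal_of_wellFoundedLT P hex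
  have htP : P t := ht.prop
  rw [hP] at htP
  obtain ⟨h1, h2⟩ := htP
  -- two points of `t`, the first one with the larger radius
  have key : ∀ z ∈ t, ∀ z' ∈ t, z ≠ z' → s z' ≤ s z → K * s z < ‖z' - z‖ := by
    intro z hz z' hz' hne hle
    rcases ha z (h1 z hz) z' (h1 z' hz') with h | h
    · exfalso
      have hPe : P (t.erase z') := by
        rw [hP]
        refine ⟨fun w hw => h1 w (Finset.mem_of_mem_erase hw), fun w hw => ?_⟩
        obtain ⟨v, hv, hwv⟩ := h2 w hw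
        by_cases hvz : v = z'
        · subst hvz
          refine ⟨z, Finset.mem_erase.2 ⟨hne, hz⟩, ?_⟩
          rcases ha z (h1 z hz) w hw with h' | h'
          · exact h'
          · exfalso
            have h3 : ‖w - z‖ ≤ ‖w - v‖ + ‖v - z‖ := by
              have := norm_add_le (w - v) (v - z)
              rwa [sub_add_sub_cancel] at this
            have h4 := hs z (h1 z hz)
            nlinarith
        · exact ⟨v, Finset.mem_erase.2 ⟨hvz, hv⟩, hwv⟩
      have h3 := ht.le_of_le hPe (Finset.erase_subset _ _)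
      exact Finset.notMem_erase z' t (h3 hz')
    · exact h
  refine ⟨t, h1, fun z hz z' hz' hne => ?_, h2⟩
  rcases le_total (s z') (s z) with h | h
  · rw [max_eq_left h, norm_sub_rev]
    exact key z hz z' hz' hne h
  · rw [max_eq_right h]
    exact key z' hz' z hz (Ne.symm hne) h

/-- Hofer's lemma for a finite set -/
theorem hofer {t : Finset ℂ} {ρ : ℂ → ℝ} (hρ : ∀ a ∈ t, 0 < ρ a) {A : ℝ} (hA : 0 < A) {a : ℂ} (ha : a ∈ t) :
    ∃ b ∈ t, ‖b - a‖ ≤ 2 * A * ρ a ∧ ρ b ≤ ρ a ∧ ∀ c ∈ t, ‖c - b‖ ≤ A * ρ b → ρ b / 2 ≤ ρ c := by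
  classical
  obtain ⟨n, hn⟩ : ∃ n : ℕ, n = (t.filter fun x => ρ x < ρ a).card := ⟨_, rfl⟩
  induction n using Nat.strong_induction_on generalizing a with
  | _ n ih =>
    by_cases h : ∀ c ∈ t, ‖c - a‖ ≤ A * ρ a → ρ a / 2 ≤ ρ c
    · refine ⟨a, ha, ?_, le_rfl, h⟩
      rw [sub_self, norm_zero]
      have := hρ a ha
      positivity
    · push Not at h
      obtain ⟨c, hc, hca, hρc⟩ := h
      have hac : ρ c < ρ a := by
        have := hρ a ha
        linarith
      have hlt : (t.filter fun x => ρ x < ρ c).card < n := by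
        rw [hn]
        refine Finset.card_lt_card ?_
        rw [Finset.ssubset_iff_of_subset]
        · refine ⟨c, Finset.mem_filter.2 ⟨hc, hac⟩, fun h1 => ?_⟩
          exact lt_irrefl _ (Finset.mem_filter.1 h1).2
        · intro x hx
          rw [Finset.mem_filter] at hx ⊢
          exact ⟨hx.1, hx.2.trans hac⟩
      obtain ⟨b, hb, h1, h2, h3⟩ := ih _ hlt hc rfl
      refine ⟨b, hb, ?_, h2.trans hac.le, h3⟩
      have h4 : ‖b - a‖ ≤ ‖b - c‖ + ‖c - a‖ := by
        have := norm_add_le (b - c) (c - a)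
        rwa [sub_add_sub_cancel] at this
      nlinarith

end Pool.Agent.SR3

end
end

section

/-!
# SDR2, block D: half planes

`S ≥ 0` continuous on `ℂ`.  A component of `{S > 0}` on whose boundary an affine function vanishes is a half plane; if all components are half planes
and `{S = 0}` is nonempty without interior, then `{S = 0}` is a line.
-/

set_option autoImplicit false

open Topology Filter Complex

noncomputable section

namespace Pool.Agent.SR3

/-- the open half plane `{w | 0 < re (a w) + b}` -/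
def HP (a : ℂ) (b : ℝ) : Set ℂ := {w | 0 < (a * w).re + b}

lemma HP_convex (a : ℂ) (b : ℝ) : Convex ℝ (HP a b) := by
  intro x hx y hy s t hs ht hst
  simp only [HP, Set.mem_ofPred_eq] at hx hy ⊢
  have h1 : (a * (s • x + t • y)).re + b = s * ((a * x).re + b) + t * ((a * y).re + b) := by
    simp only [Complex.real_smul, mul_add, Complex.add_re]
    have e1 : (a * (↑s * x)).re = s * (a * x).re := by
      rw [show a * (↑s * x) = ↑s * (a * x) by ring, Complex.re_ofReal_mul]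
    have e2 : (a * (↑t * y)).re = t * (a * y).re := by
      rw [show a * (↑t * y) = ↑t * (a * y) by ring, Complex.re_ofReal_mul]
    rw [e1, e2]
    linear_combination -(b * hst) 
  rw [h1]
  rcases hs.eq_or_lt with h | h
  · have : t = 1 := by linarith
    subst this; subst h; simpa using hy
  · have := mul_pos h hx
    have := mul_nonneg ht hy.le
    linarith

lemma HP_open (a : ℂ) (b : ℝ) : IsOpen (HP a b) := by
  apply isOpen_lt continuous_const
  fun_prop

variable {S : ℂ → ℝ}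

/-- the component of `{S > 0}` -/
def Comp (S : ℂ → ℝ) (z : ℂ) : Set ℂ := connectedComponentIn {w | 0 < S w} z

lemma Comp_open (hS : Continuous S) (z : ℂ) : IsOpen (Comp S z) := (isOpen_lt continuous_const hS).connectedComponentIn

lemma mem_Comp {z : ℂ} (h : 0 < S z) : z ∈ Comp S z := mem_connectedComponentIn h

lemma Comp_pos {z w : ℂ} (h : w ∈ Comp S z) : 0 < S w := connectedComponentIn_subset {w | 0 < S w} z h

/-- A half plane `{re (c w) + d > 0}` inside the complement of `{re (a w) + b > 0}` is parallel to it. -/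
lemma parallel {a c : ℂ} {b d : ℝ} (ha : a ≠ 0) (hc : c ≠ 0) (hdis : ∀ w, w ∈ HP c d → w ∉ HP a b) : ∃ t : ℝ, 0 < t ∧ c = -(t • a) ∧ d ≤ -(t * b) := by
  -- directions `v` with `re (c v) > 0` have `re (a v) ≤ 0`
  have key : ∀ v : ℂ, 0 < (c * v).re → (a * v).re ≤ 0 := by
    intro v hv
    by_contra hcon
    push Not at hcon
    -- large multiple
    obtain ⟨n, hn⟩ := exists_nat_gt (max (-d / (c * v).re) (-b / (a * v).re))
    have h1 : -d / (c * v).re < n := lt_of_le_of_lt (le_max_left _ _) hn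
    have h2 : -b / (a * v).re < n := lt_of_le_of_lt (le_max_right _ _) hn
    rw [div_lt_iff₀ hv] at h1
    rw [div_lt_iff₀ hcon] at h2
    refine hdis ((n : ℝ) • v) ?_ ?_
    · simp only [HP, Set.mem_ofPred_eq, Complex.real_smul]
      rw [show c * (((n : ℝ) : ℂ) * v) = ((n : ℝ) : ℂ) * (c * v) by ring, Complex.re_ofReal_mul]
      linarith
    · simp only [HP, Set.mem_ofPred_eq, Complex.real_smul]
      rw [show a * (((n : ℝ) : ℂ) * v) = ((n : ℝ) : ℂ) * (a * v) by ring, Complex.re_ofReal_mul]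
      linarith
  -- `a / c` is a real number
  have hq : ∀ v : ℂ, 0 < v.re → (a / c * v).re ≤ 0 := by
    intro v hv
    have := key (v / c) (by rwa [mul_div_cancel₀ _ hc])
    rwa [show a * (v / c) = a / c * v by ring] at this
  set q := a / c with hqdef
  have hq0 : q ≠ 0 := div_ne_zero ha hc
  have him : q.im = 0 := by
    by_contra him
    -- `v = 1 + i s` with `re (q v) = q.re - q.im s`
    have := hq ⟨1, (q.re - 1) / q.im⟩ (by simp)
    simp only [Complex.mul_re, mul_one] at this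
    rw [mul_div_cancel₀ _ him] at this
    linarith
  have hre : q.re ≤ 0 := by
    have := hq 1 (by simp)
    simpa using this
  have hre' : q.re < 0 := by
    refine lt_of_le_of_ne hre fun h => hq0 ?_
    exact Complex.ext h him
  have hqr : q = (q.re : ℂ) := Complex.ext (by simp) (by simp [him])
  refine ⟨-(q.re)⁻¹, by rw [neg_pos]; exact inv_lt_zero.2 hre', ?_, ?_⟩
  · have h1 : a = q * c := by rw [hqdef]; field_simp
    rw [h1, Complex.real_smul, hqr]
    push_cast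
    have h2 : ((q.re : ℝ) : ℂ) ≠ 0 := by
      intro h; rw [Complex.ofReal_eq_zero] at h; linarith
    simp only [Complex.ofReal_re]
    field_simp
  · -- the boundary line of the second is not inside the first
    have h1 : a = (q.re : ℂ) * c := by rw [← hqr, hqdef]; field_simp
    by_contra hcon
    push Not at hcon
    -- a point with `re (c w) = -d + ε`
    have hpos : 0 < d + -(q.re)⁻¹ * b := by linarith
    set s : ℝ := -(d + -(q.re)⁻¹ * b) / 2 + -(q.re)⁻¹ * b with hs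
    -- want `re (c w) = s`, `s + d > 0`, `q.re * s + b > 0`
    have hw : (c * ((s : ℂ) / c)).re = s := by rw [mul_div_cancel₀ _ hc]; simp
    refine hdis ((s : ℂ) / c) ?_ ?_
    · simp only [HP, Set.mem_ofPred_eq]
      rw [hw]
      linarith
    · simp only [HP, Set.mem_ofPred_eq]
      rw [h1, mul_assoc, Complex.re_ofReal_mul, hw]
      have h3 : q.re * s + b = -q.re * ((d + -(q.re)⁻¹ * b) / 2) := by
        have hr0 : q.re ≠ 0 := hre'.ne
        rw [hs]; field_simp; ring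
      rw [h3]
      have := mul_pos (neg_pos.2 hre') (half_pos hpos)
      linarith

/-- **If all components of `{S > 0}` are half planes and `{S = 0}` is nonempty without interior, then `{S = 0}` is a line.** -/
theorem line_of_half_planes (hS : Continuous S) (h0 : ∀ z, 0 ≤ S z) (hne : ∃ z, S z = 0) (hint : ∀ z r, 0 < r → ∃ w, dist w z < r ∧ 0 < S w)
    (hcomp : ∀ z, 0 < S z → ∃ (a : ℂ) (b : ℝ), a ≠ 0 ∧ Comp S z = HP a b) :
    ∃ (u : ℂ) (b : ℝ), ‖u‖ = 1 ∧ ∀ z, S z = 0 ↔ (u * z).re + b = 0 := by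
  obtain ⟨z0, hz0⟩ := hne
  obtain ⟨z1, -, hz1⟩ := hint 0 1 one_pos
  obtain ⟨a, b, ha, hab⟩ := hcomp z1 hz1
  -- a point of the open complement of the closed half plane
  have hz2 : ∃ z2, (a * z2).re + b < 0 ∧ 0 < S z2 := by
    set p : ℂ := ((-b - 1 : ℝ) : ℂ) / a with hp
    have h1 : (a * p).re + b = -1 := by
      rw [hp, mul_div_cancel₀ _ ha, Complex.ofReal_re]; ring
    have hop : IsOpen {w : ℂ | (a * w).re + b < 0} := isOpen_lt (by fun_prop) continuous_const
    obtain ⟨r, hr, hball⟩ := Metric.isOpen_iff.1 hop p (by show (a * p).re + b < 0; rw [h1]; norm_num)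
    obtain ⟨w, hw1, hw2⟩ := hint p r hr
    exact ⟨w, hball hw1, hw2⟩
  obtain ⟨z2, hz2, hz2p⟩ := hz2
  obtain ⟨c, d, hc, hcd⟩ := hcomp z2 hz2p
  have hnot : z2 ∉ HP a b := by simp only [HP, Set.mem_ofPred_eq]; linarith
  have hdis : ∀ w, w ∈ HP c d → w ∉ HP a b := by
    intro w hw hw'
    rw [← hcd] at hw
    rw [← hab] at hw' hnot
    have e1 : Comp S z2 = Comp S w := connectedComponentIn_eq hw
    have e2 : Comp S z1 = Comp S w := connectedComponentIn_eq hw'
    exact hnot (by rw [e2, ← e1]; exact mem_Comp hz2p)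
  obtain ⟨t, ht, hct, hdt⟩ := parallel ha hc hdis
  -- no strip between them
  have hcre : ∀ w : ℂ, (c * w).re = -(t * (a * w).re) := by
    intro w
    rw [hct, Complex.real_smul, neg_mul, Complex.neg_re, mul_assoc, Complex.re_ofReal_mul]
  have hdt' : d = -(t * b) := by
    refine le_antisymm hdt ?_
    by_contra hcon
    push Not at hcon
    -- a point strictly between, with `S > 0`
    set m : ℝ := (d / t - b) / 2 with hm
    have h1 : d / t < -b := by rw [div_lt_iff₀ ht]; linarith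
    set p : ℂ := ((m : ℝ) : ℂ) / a with hp
    have hpm : (a * p).re = m := by rw [hp, mul_div_cancel₀ _ ha, Complex.ofReal_re]
    have hop : IsOpen ({w : ℂ | (a * w).re + b < 0} ∩ {w : ℂ | (c * w).re + d < 0}) :=
      (isOpen_lt (by fun_prop) continuous_const).inter (isOpen_lt (by fun_prop) continuous_const)
    have hmem : p ∈ {w : ℂ | (a * w).re + b < 0} ∩ {w : ℂ | (c * w).re + d < 0} := by
      constructor
      · show (a * p).re + b < 0
        rw [hpm, hm]; linarith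
      · show (c * p).re + d < 0
        rw [hcre, hpm]
        have : d / t < m := by rw [hm]; linarith
        rw [div_lt_iff₀ ht] at this
        linarith
    obtain ⟨r, hr, hball⟩ := Metric.isOpen_iff.1 hop p hmem
    obtain ⟨w, hw1, hw2⟩ := hint p r hr
    obtain ⟨hwa, hwc⟩ := hball hw1
    simp only [Set.mem_ofPred_eq] at hwa hwc
    obtain ⟨e, f, he, hef⟩ := hcomp w hw2
    -- the third component is parallel to both and opposite to both
    have hd1 : ∀ v, v ∈ HP e f → v ∉ HP a b := by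
      intro v hv hv'
      rw [← hef] at hv
      rw [← hab] at hv'
      have e1 : Comp S w = Comp S v := connectedComponentIn_eq hv
      have e2 : Comp S z1 = Comp S v := connectedComponentIn_eq hv'
      have h5 : w ∈ HP a b := by rw [← hab, e2, ← e1]; exact mem_Comp hw2
      simp only [HP, Set.mem_ofPred_eq] at h5
      linarith
    have hd2 : ∀ v, v ∈ HP e f → v ∉ HP c d := by
      intro v hv hv'
      rw [← hef] at hv
      rw [← hcd] at hv'
      have e1 : Comp S w = Comp S v := connectedComponentIn_eq hv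
      have e2 : Comp S z2 = Comp S v := connectedComponentIn_eq hv'
      have h5 : w ∈ HP c d := by rw [← hcd, e2, ← e1]; exact mem_Comp hw2
      simp only [HP, Set.mem_ofPred_eq] at h5
      linarith
    obtain ⟨t1, ht1, he1, -⟩ := parallel ha he hd1
    obtain ⟨t2, ht2, he2, -⟩ := parallel hc he hd2
    rw [hct] at he2
    rw [he1] at he2
    simp only [Complex.real_smul] at he2
    have h6 : (t1 : ℂ) * a = -((t2 * t : ℝ) : ℂ) * a := by push_cast; linear_combination -he2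
    have h7 := mul_right_cancel₀ ha h6
    have h8 : t1 = -(t2 * t) := by exact_mod_cast h7
    have := mul_pos ht2 ht
    linarith
  -- conclusion
  refine ⟨((‖a‖⁻¹ : ℝ) : ℂ) * a, ‖a‖⁻¹ * b, ?_, ?_⟩
  · rw [norm_mul, Complex.norm_real, norm_inv, norm_norm, inv_mul_cancel₀ (norm_ne_zero_iff.2 ha)]
  · intro z
    have hn : 0 < ‖a‖⁻¹ := inv_pos.2 (norm_pos_iff.2 ha)
    rw [mul_assoc, Complex.re_ofReal_mul, ← mul_add, mul_eq_zero, or_iff_right hn.ne']
    constructor
    · intro hz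
      rcases lt_trichotomy ((a * z).re + b) 0 with h | h | h
      · exfalso
        have : z ∈ Comp S z2 := by
          rw [hcd]; simp only [HP, Set.mem_ofPred_eq]
          rw [hcre, hdt']
          have := mul_pos ht (neg_pos.2 h)
          linarith
        have := Comp_pos this
        linarith
      · exact h
      · exfalso
        have : z ∈ Comp S z1 := by rw [hab]; exact h
        have := Comp_pos this
        linarith
    · intro hz
      by_contra hne
      have hzp : 0 < S z := lt_of_le_of_ne (h0 z) (Ne.symm hne)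
      -- `S > 0` near `z`: then `z1` and `z` are in the same component
      have hop := Comp_open hS z
      obtain ⟨r, hr, hball⟩ := Metric.isOpen_iff.1 hop z (mem_Comp hzp)
      -- a point of the ball in `HP a b`
      have hna : 0 < ‖a‖ := norm_pos_iff.2 ha
      have hv : ∃ v, dist v z < r ∧ v ∈ HP a b := by
        refine ⟨z + ((r / 2 / ‖a‖ : ℝ) : ℂ) * (starRingEnd ℂ a), ?_, ?_⟩
        · rw [dist_eq_norm, add_sub_cancel_left, norm_mul, Complex.norm_real, RCLike.norm_conj, Real.norm_of_nonneg (by positivity),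
            div_mul_cancel₀ _ hna.ne']
          linarith
        · simp only [HP, Set.mem_ofPred_eq]
          rw [mul_add, Complex.add_re, show a * (((r / 2 / ‖a‖ : ℝ) : ℂ) * (starRingEnd ℂ a)) = ((r / 2 / ‖a‖ : ℝ) : ℂ) * (a * starRingEnd ℂ a) by ring,
            Complex.mul_conj, ← Complex.ofReal_mul, Complex.ofReal_re]
          have h9 : 0 < Complex.normSq a := Complex.normSq_pos.2 ha
          have : 0 < r / 2 / ‖a‖ * Complex.normSq a := by positivity
          linarith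
      obtain ⟨v, hv1, hv2⟩ := hv
      have h3 : v ∈ Comp S z := hball hv1
      have h4 : v ∈ Comp S z1 := by rw [hab]; exact hv2
      have e1 : Comp S z = Comp S v := connectedComponentIn_eq h3
      have e2 : Comp S z1 = Comp S v := connectedComponentIn_eq h4
      have h5 : z ∈ HP a b := by rw [← hab, e2, ← e1]; exact mem_Comp hzp
      simp only [HP, Set.mem_ofPred_eq] at h5
      linarith

end Pool.Agent.SR3

end
end

section

/-!
# SR3 HpPol: homogeneous polynomials in at most two variables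
-/

set_option autoImplicit false

open MvPolynomial

noncomputable section

namespace Pool.Agent.SR3

open Pool.Agent.SDR (hp)

variable {ι : Type} [Fintype ι]

/-- a homogeneous polynomial on a plane is a binary form -/
theorem exists_hp_two [DecidableEq ι] {e₁ e₂ : ι} (he : e₁ ≠ e₂) {m : ℕ} {P : MvPolynomial ι ℂ} (hP : P.IsHomogeneous m) :
    ∃ c : ℕ → ℂ, ∀ y : ι → ℂ, (∀ i, i ≠ e₁ → i ≠ e₂ → y i = 0) → eval y P = hp c m (y e₁) (y e₂) := by
  refine ⟨fun l => ∑ s ∈ P.support with s e₂ = l ∧ (∀ i, i ≠ e₁ → i ≠ e₂ → s i = 0), coeff s P, fun y hy => ?_⟩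
  rw [eval_eq']
  have h1 : ∀ s ∈ P.support, coeff s P * ∏ i, y i ^ s i =
      if (∀ i, i ≠ e₁ → i ≠ e₂ → s i = 0) then coeff s P * (y e₁ ^ (m - s e₂) * y e₂ ^ s e₂) else 0 := by
    intro s hs
    split_ifs with h
    · have hdeg : s e₁ + s e₂ = m := by
        have h2 := hP (mem_support_iff.1 hs)
        rw [Finsupp.weight_apply, Finsupp.sum_fintype _ _ (fun _ => by simp)] at h2
        rw [← h2, ← Finset.sum_subset (Finset.subset_univ {e₁, e₂}), Finset.sum_pair he]
        · simp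
        · intro i _ hi
          rw [Finset.mem_insert, Finset.mem_singleton, not_or] at hi
          simp [h i hi.1 hi.2]
      have h3 : ∏ i, y i ^ s i = y e₁ ^ s e₁ * y e₂ ^ s e₂ := by
        rw [← Finset.prod_subset (Finset.subset_univ {e₁, e₂}), Finset.prod_pair he]
        intro i _ hi
        rw [Finset.mem_insert, Finset.mem_singleton, not_or] at hi
        rw [h i hi.1 hi.2, pow_zero]
      rw [h3, ← hdeg, Nat.add_sub_cancel]
    · push Not at h
      obtain ⟨i, hi1, hi2, hi3⟩ := h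
      rw [Finset.prod_eq_zero (Finset.mem_univ i), mul_zero]
      rw [hy i hi1 hi2, zero_pow hi3]
  rw [Finset.sum_congr rfl h1]
  unfold hp
  rw [← Finset.sum_filter]
  have h2 : ∀ s ∈ P.support.filter (fun s => ∀ i, i ≠ e₁ → i ≠ e₂ → s i = 0), s e₂ ∈ Finset.range (m + 1) := by
    intro s hs
    rw [Finset.mem_filter] at hs
    rw [Finset.mem_range]
    have h2 := hP (mem_support_iff.1 hs.1)
    rw [Finsupp.weight_apply, Finsupp.sum_fintype _ _ (fun _ => by simp)] at h2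
    have h3 : s e₂ ≤ m := by
      rw [← h2]
      have := Finset.single_le_sum (f := fun i => s i • (1 : ι → ℕ) i) (fun i _ => Nat.zero_le _) (Finset.mem_univ e₂)
      simpa using this
    omega
  rw [← Finset.sum_fiberwise_of_maps_to h2]
  refine Finset.sum_congr rfl fun l _ => ?_
  rw [Finset.sum_mul, Finset.sum_mul, Finset.filter_filter]
  refine Finset.sum_congr ?_ fun s hs => ?_
  · ext s
    simp only [Finset.mem_filter]
    tauto
  · rw [Finset.mem_filter] at hs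
    rw [hs.2.1]
    ring

theorem eval_smul_of_hom {m : ℕ} {P : MvPolynomial ι ℂ} (hP : P.IsHomogeneous m) (t : ℂ) (y : ι → ℂ) :
    eval (fun i => t * y i) P = t ^ m * eval y P := by
  rw [eval_eq', eval_eq', Finset.mul_sum]
  refine Finset.sum_congr rfl fun s hs => ?_
  have h2 := hP (mem_support_iff.1 hs)
  rw [Finsupp.weight_apply, Finsupp.sum_fintype _ _ (fun _ => by simp)] at h2
  have h3 : ∑ i, s i = m := by
    rw [← h2]
    simp
  have h4 : ∏ i, (t * y i) ^ s i = t ^ m * ∏ i, y i ^ s i := by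
    rw [← h3, ← Finset.prod_pow_eq_pow_sum, ← Finset.prod_mul_distrib]
    exact Finset.prod_congr rfl fun i _ => mul_pow _ _ _
  rw [h4]
  ring

theorem exists_hp [Nonempty ι] {s : Finset ι} (hs : s.card ≤ 2) {m : ℕ} {P : MvPolynomial ι ℂ} (hP : P.IsHomogeneous m)
    (_hPs : ∀ y y' : ι → ℂ, (∀ i ∈ s, y i = y' i) → eval y P = eval y' P) :
    ∃ (e₁ e₂ : ι) (c : ℕ → ℂ), (∀ i ∈ s, i = e₁ ∨ i = e₂) ∧ ∀ y : ι → ℂ, (∀ i, i ∉ s → y i = 0) → eval y P = hp c m (y e₁) (y e₂) := by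
  classical
  rcases subsingleton_or_nontrivial ι with hι | hι
  · obtain ⟨e⟩ := ‹Nonempty ι›
    refine ⟨e, e, fun l => if l = 0 then eval (fun _ => 1) P else 0, fun i _ => Or.inl (Subsingleton.elim _ _), fun y _ => ?_⟩
    have h1 : y = fun i => y e * (fun _ => (1 : ℂ)) i := by
      funext i
      rw [Subsingleton.elim i e, mul_one]
    rw [h1, eval_smul_of_hom hP]
    unfold hp
    rw [Finset.sum_eq_single 0]
    · simp
      ring
    · intro l _ hl
      simp [hl]
    · intro h0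
      simp at h0
  · have hex : ∃ e₁ e₂ : ι, e₁ ≠ e₂ ∧ ∀ i ∈ s, i = e₁ ∨ i = e₂ := by
      have hcase : s.card = 0 ∨ s.card = 1 ∨ s.card = 2 := by omega
      rcases hcase with h0 | h1 | h2
      · obtain ⟨a, b, hab⟩ := exists_pair_ne ι
        refine ⟨a, b, hab, fun i hi => ?_⟩
        rw [Finset.card_eq_zero.1 h0] at hi
        simp at hi
      · obtain ⟨a, ha⟩ := Finset.card_eq_one.1 h1
        obtain ⟨b, hb⟩ := exists_ne a
        refine ⟨a, b, hb.symm, fun i hi => ?_⟩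
        rw [ha, Finset.mem_singleton] at hi
        exact Or.inl hi
      · obtain ⟨a, b, hab, hs'⟩ := Finset.card_eq_two.1 h2
        refine ⟨a, b, hab, fun i hi => ?_⟩
        rw [hs', Finset.mem_insert, Finset.mem_singleton] at hi
        exact hi
    obtain ⟨e₁, e₂, hne, hs'⟩ := hex
    obtain ⟨c, hc⟩ := exists_hp_two hne hP
    refine ⟨e₁, e₂, c, hs', fun y hy => hc y fun i h1 h2 => hy i fun hi => ?_⟩
    rcases hs' i hi with h3 | h3
    · exact h1 h3
    · exact h2 h3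

end Pool.Agent.SR3

end
end

section

/-!
# SR3 Lim: limits of approximate blow-downs along ultrafilters
-/

set_option autoImplicit false

open Metric Topology Filter MvPolynomial InnerProductSpace

noncomputable section

namespace Pool.Agent.SR3

open Pool.Agent.SDR (gc gc_congr gc_re)

variable {ι J Ty : Type} [Fintype ι]

/-- the limit of functions which are almost real parts of holomorphic functions -/
theorem lim_one {𝒰 : Ultrafilter ℕ} {u : ℕ → ℂ → ℝ} {v : ℂ → ℝ} {h : ℕ → ℂ → ℂ} {w : ℂ} {r C : ℝ} (hr : 0 < r)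
    (hd : ∀ᶠ n in (𝒰 : Filter ℕ), DifferentiableOn ℂ (h n) (ball w r))
    (hε : ∀ ε : ℝ, 0 < ε → ∀ᶠ n in (𝒰 : Filter ℕ), ∀ z ∈ ball w r, |u n z - (h n z).re| ≤ ε)
    (hlip : ∀ᶠ n in (𝒰 : Filter ℕ), ∀ z z', |u n z - u n z'| ≤ C * ‖z - z'‖)
    (hv : ∀ z ∈ ball w r, Tendsto (fun n => u n z) 𝒰 (𝓝 (v z))) :
    HarmonicAt v w ∧ Tendsto (fun n => deriv (h n) w) 𝒰 (𝓝 (gc v w)) := by
  have hw : w ∈ ball w r := mem_ball_self hr
  set M : ℝ := |C| * r + 2 with hM
  have hM0 : 0 < M := by positivity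
  set K : ℕ → ℂ → ℂ := fun n z => h n z - h n w with hK
  have h1 : ∀ᶠ n in (𝒰 : Filter ℕ), DifferentiableOn ℂ (K n) (ball w (r / 2)) := by
    filter_upwards [hd] with n hn
    exact (hn.mono (ball_subset_ball (by linarith))).sub_const _
  have h2 : ∀ᶠ n in (𝒰 : Filter ℕ), ∀ z ∈ ball w (r / 2), ‖K n z‖ ≤ 2 * M := by
    filter_upwards [hd, hε 1 one_pos, hlip] with n hn1 hn2 hn3 z hz
    have hmem : ∀ y ∈ ball (0 : ℂ) r, w + y ∈ ball w r := fun y hy => by
      rw [mem_ball, dist_eq_norm] at hy ⊢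
      simpa using hy
    have hdiff : DifferentiableOn ℂ (fun y => h n (w + y) - h n w) (ball 0 r) := by
      apply DifferentiableOn.sub_const
      apply hn1.comp (by fun_prop) hmem
    have hre : Set.MapsTo (fun y => h n (w + y) - h n w) (ball 0 r) {z | z.re ≤ M} := by
      intro y hy
      show (h n (w + y) - h n w).re ≤ M
      have a1 := hn2 _ (hmem y hy)
      have a2 := hn2 _ hw
      have a3 := hn3 (w + y) w
      have a4 : C * ‖w + y - w‖ ≤ |C| * r := by
        rw [add_sub_cancel_left]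
        have : ‖y‖ ≤ r := by
          rw [mem_ball_zero_iff] at hy
          exact hy.le
        calc C * ‖y‖ ≤ |C| * ‖y‖ := by gcongr; exact le_abs_self C
          _ ≤ |C| * r := by gcongr
      rw [Complex.sub_re]
      have b1 := abs_le.1 a1
      have b2 := abs_le.1 a2
      have b3 := abs_le.1 a3
      rw [hM]
      linarith [b1.1, b1.2, b2.1, b2.2, b3.1, b3.2]
    have hzr : z - w ∈ ball (0 : ℂ) r := by
      rw [mem_ball_zero_iff]
      rw [mem_ball, dist_eq_norm] at hz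
      linarith
    have hbc := Complex.borelCaratheodory_zero hM0 hdiff hre hr hzr (by simp)
    have hz' : ‖z - w‖ < r / 2 := by
      rw [mem_ball, dist_eq_norm] at hz
      exact hz
    have e1 : K n z = h n (w + (z - w)) - h n w := by rw [hK]; simp
    rw [e1]
    refine hbc.trans ?_
    rw [div_le_iff₀ (by linarith)]
    nlinarith [norm_nonneg (z - w)]
  obtain ⟨g, hg1, hg2⟩ := Pool.Agent.H17.montel_ultrafilter 𝒰 h1 h2
  have hw2 : w ∈ ball w (r / 2) := mem_ball_self (by linarith)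
  have hg3 : ∀ z ∈ ball w (r / 2), Tendsto (fun n => K n z) 𝒰 (𝓝 (g z)) := fun z hz => hg2.tendsto_at hz
  have hsub : ball w (r / 2) ⊆ ball w r := ball_subset_ball (by linarith)
  have hre : ∀ z ∈ ball w r, Tendsto (fun n => (h n z).re) 𝒰 (𝓝 (v z)) := by
    intro z hz
    have e1 : Tendsto (fun n => u n z - (h n z).re) 𝒰 (𝓝 0) := by
      rw [Metric.tendsto_nhds]
      intro ε hε'
      filter_upwards [hε (ε / 2) (by linarith)] with n hn
      rw [Real.dist_eq, sub_zero]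
      have := hn z hz
      linarith
    have e2 := (hv z hz).sub e1
    simpa using e2
  have hveq : ∀ z ∈ ball w (r / 2), v z = ((v w : ℂ) + g z).re := by
    intro z hz
    have e1 := (hre z (hsub hz)).sub (hre w hw)
    have e2 : Tendsto (fun n => (K n z).re) 𝒰 (𝓝 (g z).re) := (Complex.continuous_re.tendsto _).comp (hg3 z hz)
    have e3 : (fun n => (h n z).re - (h n w).re) = fun n => (K n z).re := by
      funext n
      simp [hK]
    rw [e3] at e1
    have := tendsto_nhds_unique e1 e2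
    rw [Complex.add_re, Complex.ofReal_re, ← this]
    ring
  have hga : AnalyticAt ℂ (fun z => (v w : ℂ) + g z) w :=
    analyticAt_const.add (hg1.analyticAt (isOpen_ball.mem_nhds hw2))
  have hev : v =ᶠ[𝓝 w] fun z => ((v w : ℂ) + g z).re := by
    filter_upwards [isOpen_ball.mem_nhds hw2] with z hz
    exact hveq z hz
  constructor
  · rw [harmonicAt_congr_nhds hev]
    exact hga.harmonicAt_re
  · rw [gc_congr hev, gc_re hga]
    have e1 : deriv (fun z => (v w : ℂ) + g z) w = deriv g w := by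
      rw [deriv_const_add]
    rw [e1]
    have e2 := (hg2.deriv h1 isOpen_ball).tendsto_at hw2
    refine e2.congr' ?_
    filter_upwards with n
    show deriv (K n) w = deriv (h n) w
    rw [hK]
    simp only [deriv_sub_const]

/-- The limit of a sequence of approximate blow-downs is a blow-down. -/
theorem Pre.limit [Finite Ty] {supp : Ty → Finset ι} {P : Ty → J → MvPolynomial ι ℂ} {C A : ℝ} {𝒰 : Ultrafilter ℕ} {q : ℕ → J → ℂ}
    {U : ℕ → ι → ℂ → ℝ} (hC : 0 ≤ C) (h : Pre supp P C A (𝒰 : Filter ℕ) q U) (hq : ∀ n j, ‖q n j‖ ≤ 1) :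
    ∃ (q' : J → ℂ) (V : ι → ℂ → ℝ), Bl supp P C A q' V ∧ (∀ j, Tendsto (fun n => q n j) 𝒰 (𝓝 (q' j))) ∧
      (∀ i z, Tendsto (fun n => U n i z) 𝒰 (𝓝 (V i z))) ∧
      ∀ R ε : ℝ, 0 < ε → ∀ᶠ n in (𝒰 : Filter ℕ), ∀ i, ∀ z ∈ closedBall (0 : ℂ) R, |U n i z - V i z| ≤ ε := by
  classical
  -- the limits
  have hq' : ∀ j, ∃ l : ℂ, Tendsto (fun n => q n j) 𝒰 (𝓝 l) := by
    intro j
    obtain ⟨l, -, hl⟩ := (isCompact_closedBall (0 : ℂ) 1).ultrafilter_le_nhds (𝒰.map fun n => q n j) (by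
      rw [le_principal_iff]
      refine Filter.Eventually.of_forall (f := (𝒰 : Filter ℕ)) fun n => ?_
      show q n j ∈ closedBall (0 : ℂ) 1
      rw [mem_closedBall_zero_iff]
      exact hq n j)
    exact ⟨l, hl⟩
  choose q' hq' using hq'
  obtain ⟨B, hB⟩ := h.bound
  have hV : ∀ i z, ∃ l : ℝ, Tendsto (fun n => U n i z) 𝒰 (𝓝 l) := by
    intro i z
    have hb : ∀ᶠ n in (𝒰 : Filter ℕ), U n i z ∈ closedBall (0 : ℝ) (B + C * ‖z‖) := by
      filter_upwards [hB, h.lip] with n h1 h2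
      rw [mem_closedBall_zero_iff, Real.norm_eq_abs]
      have e1 := h2 i z 0
      have e2 := h1 i
      rw [sub_zero] at e1
      have := abs_sub_abs_le_abs_sub (U n i z) (U n i 0)
      linarith
    obtain ⟨l, -, hl⟩ := (isCompact_closedBall (0 : ℝ) (B + C * ‖z‖)).ultrafilter_le_nhds (𝒰.map fun n => U n i z) (by
      rw [le_principal_iff]
      exact hb)
    exact ⟨l, hl⟩
  choose V hV using hV
  have hlip : ∀ i z w, |V i z - V i w| ≤ C * ‖z - w‖ := by
    intro i z w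
    refine le_of_tendsto ((hV i z).sub (hV i w)).abs ?_
    filter_upwards [h.lip] with n hn
    exact hn i z w
  -- uniform convergence
  have hunif : ∀ R ε : ℝ, 0 < ε → ∀ᶠ n in (𝒰 : Filter ℕ), ∀ i, ∀ z ∈ closedBall (0 : ℂ) R, |U n i z - V i z| ≤ ε := by
    intro R ε hε
    set η : ℝ := ε / (4 * (C + 1)) with hη
    have hη0 : 0 < η := by positivity
    obtain ⟨s, -, hs1, hs2⟩ := (isCompact_closedBall (0 : ℂ) R).finite_cover_balls hη0
    have h1 : ∀ᶠ n in (𝒰 : Filter ℕ), ∀ i, ∀ x ∈ s, |U n i x - V i x| ≤ ε / 4 := by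
      rw [eventually_all]
      intro i
      rw [hs1.eventually_all]
      intro x _
      have := (hV i x).eventually (Metric.closedBall_mem_nhds (V i x) (show (0 : ℝ) < ε / 4 by positivity))
      filter_upwards [this] with n hn
      exact hn
    filter_upwards [h1, h.lip] with n hn1 hn2 i z hz
    obtain ⟨x, hx, hzx⟩ := Set.mem_iUnion₂.1 (hs2 hz)
    rw [mem_ball, dist_eq_norm] at hzx
    have a1 := abs_le.1 (hn1 i x hx)
    have a2 := abs_le.1 (hn2 i z x)
    have a3 := abs_le.1 (hlip i z x)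
    have a4 : C * ‖z - x‖ ≤ ε / 4 := by
      calc C * ‖z - x‖ ≤ (C + 1) * η := by
            apply mul_le_mul (by linarith) hzx.le (norm_nonneg _) (by linarith)
        _ = ε / 4 := by rw [hη]; field_simp
    rw [abs_le]
    constructor <;> linarith [a1.1, a1.2, a2.1, a2.2, a3.1, a3.2]
  have hnn : ∀ i z, 0 ≤ V i z := by
    intro i z
    by_contra hneg
    push Not at hneg
    have h1 : ∀ᶠ n in (𝒰 : Filter ℕ), -(-V i z / 2) ≤ U n i z := h.nonneg i z (-V i z / 2) (by linarith)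
    have h2 := ge_of_tendsto (hV i z) h1
    linarith
  -- the local statement
  have hloc : ∀ w, 0 < ∑ i, V i w → (∀ i, HarmonicAt (V i) w) ∧
      ∃ t, (∀ i, i ∉ supp t → V i w = 0) ∧ ∀ j, eval (fun i => gc (V i) w) (P t j) = q' j := by
    intro w hw
    have hsum : Tendsto (fun n => ∑ i, U n i w) 𝒰 (𝓝 (∑ i, V i w)) := tendsto_finsetSum _ fun i _ => hV i w
    have hδ : ∀ᶠ n in (𝒰 : Filter ℕ), (∑ i, V i w) / 2 ≤ ∑ i, U n i w := by
      have := hsum.eventually (Ioi_mem_nhds (show (∑ i, V i w) / 2 < ∑ i, V i w by linarith))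
      filter_upwards [this] with n hn
      exact le_of_lt hn
    obtain ⟨r, hr, k, hk1, hk2⟩ := h.hol w _ (by linarith) hδ
    have hone : ∀ i, HarmonicAt (V i) w ∧ Tendsto (fun n => deriv (k n i) w) 𝒰 (𝓝 (gc (V i) w)) := by
      intro i
      refine lim_one (C := C) hr ?_ ?_ ?_ fun z _ => hV i z
      · filter_upwards [hk1] with n hn
        exact hn i
      · intro ε hε
        filter_upwards [hk2 ε hε] with n hn z hz
        exact hn.1 i z hz
      · filter_upwards [h.lip] with n hn z z'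
        exact hn i z z'
    refine ⟨fun i => (hone i).1, ?_⟩
    -- one type for all `ε`
    have htyp : ∃ t, ∀ ε : ℝ, 0 < ε → ∀ᶠ n in (𝒰 : Filter ℕ), (∀ i, i ∉ supp t → U n i w ≤ ε) ∧
        ∀ j, ‖eval (fun i => deriv (k n i) w) (P t j) - q n j‖ ≤ ε := by
      by_contra hcon
      push Not at hcon
      choose ε hε1 hε2 using hcon
      rcases isEmpty_or_nonempty Ty with hE | hN
      · obtain ⟨n, hn⟩ := (hk2 1 one_pos).exists
        obtain ⟨t, -⟩ := hn.2
        exact hE.elim t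
      · obtain ⟨t₀, ht₀⟩ := Finite.exists_min ε
        have h1 : ∀ᶠ n in (𝒰 : Filter ℕ), ∀ t, ¬((∀ i, i ∉ supp t → U n i w ≤ ε t) ∧
            ∀ j, ‖eval (fun i => deriv (k n i) w) (P t j) - q n j‖ ≤ ε t) := by
          rw [eventually_all]
          intro t
          filter_upwards [hε2 t] with n hn hh
          obtain ⟨j, hj⟩ := hn hh.1
          exact absurd (hh.2 j) (not_le.2 hj)
        obtain ⟨n, hn1, hn2⟩ := (h1.and (hk2 (ε t₀) (hε1 t₀))).exists
        obtain ⟨t, ht1, ht2⟩ := hn2.2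
        exact hn1 t ⟨fun i hi => (ht1 i hi).trans (ht₀ t), fun j => (ht2 j).trans (ht₀ t)⟩
    obtain ⟨t, ht⟩ := htyp
    refine ⟨t, fun i hi => ?_, fun j => ?_⟩
    · apply le_antisymm _ (hnn i w)
      apply le_of_forall_pos_le_add
      intro ε hε
      rw [zero_add]
      refine le_of_tendsto (hV i w) ?_
      filter_upwards [ht ε hε] with n hn
      exact hn.1 i hi
    · have e1 : Tendsto (fun n => eval (fun i => deriv (k n i) w) (P t j)) 𝒰 (𝓝 (eval (fun i => gc (V i) w) (P t j))) := by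
        have e2 : Tendsto (fun n => fun i => deriv (k n i) w) 𝒰 (𝓝 fun i => gc (V i) w) := tendsto_pi_nhds.2 fun i => (hone i).2
        exact ((MvPolynomial.continuous_eval (P t j)).tendsto _).comp e2
      have e3 : Tendsto (fun n => eval (fun i => deriv (k n i) w) (P t j) - q n j) 𝒰 (𝓝 0) := by
        rw [Metric.tendsto_nhds]
        intro ε hε
        filter_upwards [ht (ε / 2) (by linarith)] with n hn
        rw [dist_zero_right]
        have := hn.2 j
        linarith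
      have e4 := e1.sub e3
      have e5 : (fun n => eval (fun i => deriv (k n i) w) (P t j) - (eval (fun i => deriv (k n i) w) (P t j) - q n j)) = fun n => q n j := by
        funext n
        ring
      rw [e5, sub_zero] at e4
      exact tendsto_nhds_unique e4 (hq' j)
  refine ⟨q', V, ⟨hnn, hlip, ?_, fun w hw => (hloc w hw).1, fun w hw => (hloc w hw).2⟩, hq', hV, hunif⟩
  -- growth
  intro w r hr
  have hc : ∀ᶠ n in (𝒰 : Filter ℕ), ∃ z ∈ closedBall w r, A * r ≤ ∑ i, U n i z := h.big w r hr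
  have hex : ∃ y : ℕ → ℂ, ∀ᶠ n in (𝒰 : Filter ℕ), y n ∈ closedBall w r ∧ A * r ≤ ∑ i, U n i (y n) := by
    refine ⟨fun n => if hn : ∃ z ∈ closedBall w r, A * r ≤ ∑ i, U n i z then hn.choose else 0, ?_⟩
    filter_upwards [hc] with n hn
    simp only [hn, dif_pos]
    exact hn.choose_spec
  obtain ⟨y, hy⟩ := hex
  obtain ⟨z, hz, hyz⟩ := (isCompact_closedBall w r).ultrafilter_le_nhds (𝒰.map y) (by
    rw [le_principal_iff]
    exact hy.mono fun n hn => hn.1)
  have hyz' : Tendsto y 𝒰 (𝓝 z) := hyz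
  refine ⟨z, hz, ?_⟩
  have h1 : Tendsto (fun n => ∑ i, U n i z + ∑ _i : ι, C * ‖y n - z‖) 𝒰 (𝓝 (∑ i, V i z + ∑ _i : ι, C * ‖z - z‖)) := by
    refine (tendsto_finsetSum _ fun i _ => hV i z).add (tendsto_finsetSum _ fun i _ => ?_)
    exact ((hyz'.sub_const z).norm).const_mul C
  have h2 : A * r ≤ ∑ i, V i z + ∑ _i : ι, C * ‖z - z‖ := by
    refine ge_of_tendsto h1 ?_
    filter_upwards [hy, h.lip] with n hn1 hn2
    refine hn1.2.trans ?_
    rw [← Finset.sum_add_distrib]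
    apply Finset.sum_le_sum
    intro i _
    have := (abs_le.1 (hn2 i (y n) z)).2
    linarith
  simpa using h2

end Pool.Agent.SR3

end
end

section

/-!
# SDR2, block D: the open-closed argument

`RR` = set of values of a ratio, outside `[0, ∞]`.  If `RR` is open, relatively closed in `ℂ ∖ [0, ∞)` and stays away from the roots (at infinity as well) of a
form `p` of degree `m`, then it is empty.  A ratio of holomorphic functions with values in `[0, ∞]` is constant.
-/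

set_option autoImplicit false

open Topology Filter Complex

noncomputable section

namespace Pool.Agent.SR3

/-- `ℂ ∖ [0, ∞)` -/
def Cut : Set ℂ := {x | -x ∈ slitPlane}

lemma mem_Cut {x : ℂ} : x ∈ Cut ↔ x.re < 0 ∨ x.im ≠ 0 := by
  simp [Cut, Complex.mem_slitPlane_iff]

lemma notMem_Cut {x : ℂ} (h : x ∉ Cut) : ∃ t : ℝ, 0 ≤ t ∧ x = t := by
  rw [mem_Cut, not_or, not_lt, not_not] at h
  exact ⟨x.re, h.1, Complex.ext (by simp) (by simp [h.2])⟩

lemma Cut_open : IsOpen Cut := isOpen_slitPlane.preimage continuous_neg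

lemma Cut_preconnected : IsPreconnected Cut := by
  have h1 : IsPreconnected slitPlane := (starConvex_one_slitPlane.isPathConnected one_mem_slitPlane).isConnected.isPreconnected
  have h2 : Cut = (fun x : ℂ => -x) '' slitPlane := by
    ext x
    simp only [Cut, Set.mem_ofPred_eq, Set.mem_image]
    exact ⟨fun h => ⟨-x, h, by simp⟩, fun ⟨y, hy, e⟩ => by rw [← e, neg_neg]; exact hy⟩
  rw [h2]
  exact h1.image _ continuous_neg.continuousOn

/-- every point is a limit of points of `Cut` -/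
lemma exists_seq_Cut (x : ℂ) : ∃ y : ℕ → ℂ, (∀ n, y n ∈ Cut) ∧ Tendsto y atTop (𝓝 x) := by
  -- `x + ε i` for two values of the sign
  have h0 : Tendsto (fun n : ℕ => (1 / ((n : ℝ) + 1))) atTop (𝓝 0) := tendsto_one_div_add_atTop_nhds_zero_nat
  by_cases him : x.im = 0
  · refine ⟨fun n => x + ((1 / ((n : ℝ) + 1) : ℝ) : ℂ) * I, fun n => ?_, ?_⟩
    · rw [mem_Cut]
      right
      have : 0 < 1 / ((n : ℝ) + 1) := by positivity
      simp only [Complex.add_im, Complex.mul_im, Complex.ofReal_re, Complex.I_im, mul_one, Complex.ofReal_im, Complex.I_re, mul_zero, add_zero, him, zero_add]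
      exact this.ne'
    · have h1 : Tendsto (fun n : ℕ => x + ((1 / ((n : ℝ) + 1) : ℝ) : ℂ) * I) atTop (𝓝 (x + ((0 : ℝ) : ℂ) * I)) := by
        refine tendsto_const_nhds.add (Tendsto.mul ?_ tendsto_const_nhds)
        exact (Complex.continuous_ofReal.tendsto 0).comp h0
      simpa using h1
  · exact ⟨fun _ => x, fun _ => mem_Cut.2 (Or.inr him), tendsto_const_nhds⟩

/-- **The open-closed argument.** -/
theorem eq_empty_of_open_closed {RR : Set ℂ} (hsub : RR ⊆ Cut) (hop : IsOpen RR) (hcl : ∀ x ∈ closure RR, x ∈ Cut → x ∈ RR) {f : Polynomial ℂ} {m : ℕ} (hm : 1 ≤ m)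
    {C C' : ℝ} (hs : ∀ x ∈ RR, ∃ s : ℝ, 0 ≤ s ∧ s ≤ C ∧ s * ‖x‖ ≤ C' ∧ ‖f.eval x‖ * s ^ m = 1) : RR = ∅ := by
  by_contra hne
  have hne' : RR.Nonempty := Set.nonempty_iff_ne_empty.2 hne
  -- `RR` is everything
  have hall : Cut ⊆ RR := by
    refine IsPreconnected.subset_left_of_subset_union (v := (closure RR)ᶜ) hop isClosed_closure.isOpen_compl ?_ ?_ ?_ Cut_preconnected
    · exact Set.disjoint_left.2 fun w hw hw' => hw' (subset_closure hw)
    · intro w hw
      by_cases h1 : w ∈ RR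
      · exact Or.inl h1
      · exact Or.inr fun h2 => h1 (hcl w h2 hw)
    · obtain ⟨x, hx⟩ := hne'
      exact ⟨x, hsub hx, hx⟩
  have hC : 0 ≤ C := by
    obtain ⟨x, hx⟩ := hne'
    obtain ⟨s, h0, h1, -⟩ := hs x hx
    exact h0.trans h1
  -- no roots: `‖f x‖ C^m ≥ 1`
  have hlow : ∀ x ∈ Cut, 1 ≤ ‖f.eval x‖ * C ^ m := by
    intro x hx
    obtain ⟨s, h0, h1, -, h3⟩ := hs x (hall hx)
    rw [← h3]
    exact mul_le_mul_of_nonneg_left (pow_le_pow_left₀ h0 h1 m) (norm_nonneg _)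
  have hlow' : ∀ x : ℂ, 1 ≤ ‖f.eval x‖ * C ^ m := by
    intro x
    obtain ⟨y, hy, hyt⟩ := exists_seq_Cut x
    have h1 : Tendsto (fun n => ‖f.eval (y n)‖ * C ^ m) atTop (𝓝 (‖f.eval x‖ * C ^ m)) :=
      (((f.continuous.tendsto x).comp hyt).norm).mul_const _
    exact ge_of_tendsto' h1 fun n => hlow _ (hy n)
  -- so `f` is constant
  have hdeg : f.degree ≤ 0 := by
    by_contra hcon
    push Not at hcon
    obtain ⟨x, hx⟩ := Complex.exists_root hcon
    have := hlow' x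
    rw [Polynomial.IsRoot.def] at hx
    rw [hx] at this
    simp at this
    linarith
  rw [Polynomial.eq_C_of_degree_le_zero hdeg] at hs
  simp only [Polynomial.eval_C] at hs
  set c := ‖f.coeff 0‖ with hc
  have hC' : 0 ≤ C' := by
    obtain ⟨x, hx⟩ := hne'
    obtain ⟨s, h0, h1, h2, -⟩ := hs x hx
    exact le_trans (by positivity) h2
  -- at infinity
  obtain ⟨n, hn⟩ := exists_nat_gt (max 1 (c * C' ^ m + 1))
  have hn1 : (1 : ℝ) < n := lt_of_le_of_lt (le_max_left _ _) hn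
  have hn2 : c * C' ^ m + 1 < n := lt_of_le_of_lt (le_max_right _ _) hn
  have hx : (-(n : ℂ)) ∈ Cut := by
    rw [mem_Cut]; left
    simp
    by_contra h
    push Not at h
    have : n = 0 := by omega
    rw [this] at hn1
    norm_num at hn1
  obtain ⟨s, h0, h1, h2, h3⟩ := hs _ (hall hx)
  rw [norm_neg, Complex.norm_natCast] at h2
  -- `(s n)^m ≤ C'^m`, `n ≤ n^m`
  have h4 : (s * n) ^ m ≤ C' ^ m := pow_le_pow_left₀ (by positivity) h2 m
  have h5 : (n : ℝ) ≤ (n : ℝ) ^ m := le_self_pow₀ hn1.le (by omega)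
  have h6 : (n : ℝ) ^ m ≤ c * C' ^ m := by
    calc (n : ℝ) ^ m = (c * s ^ m) * (n : ℝ) ^ m := by rw [h3, one_mul]
      _ = c * (s * n) ^ m := by rw [mul_pow]; ring
      _ ≤ c * C' ^ m := mul_le_mul_of_nonneg_left h4 (norm_nonneg _)
  linarith

/-- **A ratio of holomorphic functions with values in `[0, ∞]` is constant.** -/
theorem exists_ratio {Ω : Set ℂ} (hΩ : IsOpen Ω) (hΩc : IsPreconnected Ω) {g₁ g₂ : ℂ → ℂ} (h₁ : DifferentiableOn ℂ g₁ Ω) (h₂ : DifferentiableOn ℂ g₂ Ω)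
    {z₀ : ℂ} (hz₀ : z₀ ∈ Ω) (hne : g₁ z₀ ≠ 0) (h : ∀ z ∈ Ω, g₁ z ≠ 0 → g₂ z / g₁ z ∉ Cut) : ∃ t : ℝ, 0 ≤ t ∧ ∀ z ∈ Ω, g₂ z = t * g₁ z := by
  have a₁ : AnalyticOnNhd ℂ g₁ Ω := h₁.analyticOnNhd hΩ
  have a₂ : AnalyticOnNhd ℂ g₂ Ω := h₂.analyticOnNhd hΩ
  obtain ⟨t, ht, he⟩ := notMem_Cut (h z₀ hz₀ hne)
  have a₃ : AnalyticAt ℂ (fun z => g₂ z / g₁ z) z₀ := (a₂ z₀ hz₀).div (a₁ z₀ hz₀) hne
  have hloc : ∀ᶠ z in 𝓝 z₀, z ∈ Ω ∧ g₁ z ≠ 0 := (hΩ.eventually_mem hz₀).and ((a₁ z₀ hz₀).continuousAt.eventually_ne hne)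
  rcases a₃.eventually_constant_or_nhds_le_map_nhds with hc | hc
  · refine ⟨t, ht, ?_⟩
    have h3 : g₂ =ᶠ[𝓝 z₀] fun z => (t : ℂ) * g₁ z := by
      filter_upwards [hc, hloc] with z hz hz'
      have h4 : g₂ z / g₁ z = t := by rw [hz, he]
      rw [← h4, div_mul_cancel₀ _ hz'.2]
    have a₄ : AnalyticOnNhd ℂ (fun z => (t : ℂ) * g₁ z) Ω := fun z hz => analyticAt_const.mul (a₁ z hz)
    exact fun z hz => a₂.eqOn_of_preconnected_of_eventuallyEq a₄ hΩc hz₀ h3 hz
  · exfalso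
    -- the image contains a neighbourhood of `t`, hence a point of `Cut`
    have h5 : ∀ᶠ y in 𝓝 (g₂ z₀ / g₁ z₀), y ∉ Cut := by
      apply hc
      rw [mem_map]
      filter_upwards [hloc] with z hz
      exact h z hz.1 hz.2
    obtain ⟨y, hy, hyt⟩ := exists_seq_Cut (g₂ z₀ / g₁ z₀)
    obtain ⟨n, hn⟩ := (hyt.eventually h5).exists
    exact hn (hy n)

end Pool.Agent.SR3

end
end

section

/-!
# SR3 ResA: local expansion of a logarithmic symmetric differential at a point of the boundary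

`W (s, τ)` is the value at the point with the coordinates `s` on the tangent vector `τ`; the axis `s₁ = 0` is in the boundary if `b₁ = true`.
-/

set_option autoImplicit false

open Topology Filter Metric

noncomputable section

namespace Pool.Agent.SR3

/-- the local equation of a coordinate axis, or `1` -/
def gg (b : Bool) (z : ℂ) : ℂ := if b = true then z else 1

theorem gg_true (z : ℂ) : gg true z = z := rfl

theorem gg_false (z : ℂ) : gg false z = 1 := rfl

theorem gg_an (b : Bool) (z : ℂ) : AnalyticAt ℂ (gg b) z := by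
  cases b
  · exact analyticAt_const
  · exact analyticAt_id

theorem iteratedDeriv_eval (p : Polynomial ℂ) (n : ℕ) : iteratedDeriv n (fun z => p.eval z) = fun z => (Polynomial.derivative^[n] p).eval z := by
  induction n with
  | zero => simp
  | succ n ih =>
    rw [iteratedDeriv_succ, ih]
    funext z
    rw [Polynomial.deriv, Function.iterate_succ_apply']

/-- an entire function of growth `(1 + |t|) ^ m` is its interpolation polynomial of degree `m` -/
theorem interp {f : ℂ → ℂ} {m : ℕ} {C : ℝ} (hf : Differentiable ℂ f) (hb : ∀ t, ‖f t‖ ≤ C * (1 + ‖t‖) ^ m) (t : ℂ) :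
    f t = ∑ k ∈ Finset.range (m + 1), (∑ j ∈ Finset.range (m + 1), f j *
      (Lagrange.basis (Finset.range (m + 1)) (fun i : ℕ => (i : ℂ)) j).coeff k) * t ^ k := by
  obtain ⟨p, hp⟩ := Pool.Agent.SY.exists_poly_of_growth m f C hf hb
  have hC : 0 ≤ C := by
    have := (norm_nonneg _).trans (hb 0)
    simpa using this
  -- the degree
  have hcoeff : ∀ n, m < n → p.coeff n = 0 := by
    intro n hn
    have h1 : iteratedDeriv n f 0 = n.factorial * p.coeff n := by
      have : f = fun z => p.eval z := funext hp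
      rw [this, iteratedDeriv_eval]
      show (Polynomial.derivative^[n] p).eval 0 = _
      have h2 := Polynomial.coeff_iterate_derivative (k := n) (p := p) 0
      rw [← Polynomial.coeff_zero_eq_eval_zero, h2]
      simp [Nat.descFactorial_self]
    have h3 : ∀ R : ℝ, 1 ≤ R → ‖p.coeff n‖ ≤ C * 2 ^ m / R := by
      intro R hR
      have hR0 : 0 < R := by linarith
      have h4 := Complex.norm_iteratedDeriv_le_of_forall_mem_sphere_norm_le n hR0 (c := (0 : ℂ)) (f := f) (C := C * (1 + R) ^ m) hf.diffContOnCl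
        (by
          intro z hz
          have : ‖z‖ = R := by simpa using hz
          rw [← this]
          exact hb z)
      rw [h1, norm_mul, Complex.norm_natCast] at h4
      have hfac : (0 : ℝ) < n.factorial := by positivity
      have h5 : ‖p.coeff n‖ ≤ C * (1 + R) ^ m / R ^ n := by
        have : (n.factorial : ℝ) * ‖p.coeff n‖ ≤ n.factorial * (C * (1 + R) ^ m / R ^ n) := by
          refine h4.trans (le_of_eq ?_)
          ring
        exact le_of_mul_le_mul_left this hfac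
      refine h5.trans ?_
      have h6 : (1 + R) ^ m ≤ 2 ^ m * R ^ m := by
        rw [← mul_pow]
        exact pow_le_pow_left₀ (by positivity) (by linarith) m
      have h7 : R ^ (m + 1) ≤ R ^ n := pow_le_pow_right₀ hR hn
      rw [div_le_div_iff₀ (by positivity) hR0]
      calc C * (1 + R) ^ m * R ≤ C * (2 ^ m * R ^ m) * R := by gcongr
        _ = C * 2 ^ m * R ^ (m + 1) := by ring
        _ ≤ C * 2 ^ m * R ^ n := by gcongr
    have h8 : ‖p.coeff n‖ ≤ 0 := by
      have h9 : Tendsto (fun R : ℝ => C * 2 ^ m / R) atTop (𝓝 0) := tendsto_const_nhds.div_atTop tendsto_id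
      exact ge_of_tendsto h9 ((eventually_ge_atTop 1).mono h3)
    exact norm_le_zero_iff.mp h8
  have hdeg : p.degree < (Finset.range (m + 1)).card := by
    rw [Finset.card_range, Polynomial.degree_lt_iff_coeff_zero]
    intro n hn
    exact hcoeff n (by omega)
  have hinj : Set.InjOn (fun i : ℕ => (i : ℂ)) (Finset.range (m + 1)) := fun a _ b _ h => by simpa using h
  have hL := Lagrange.eq_interpolate hinj hdeg
  have hc : ∀ k, p.coeff k = ∑ j ∈ Finset.range (m + 1), f j * (Lagrange.basis (Finset.range (m + 1)) (fun i : ℕ => (i : ℂ)) j).coeff k := by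
    intro k
    conv_lhs => rw [hL]
    rw [Lagrange.interpolate_apply, Polynomial.finsetSum_coeff]
    refine Finset.sum_congr rfl fun j _ => ?_
    rw [Polynomial.coeff_C_mul, hp]
  rw [hp, Polynomial.eval_eq_sum_range' (n := m + 1)]
  · exact Finset.sum_congr rfl fun k _ => by rw [hc]
  · rw [Nat.lt_succ_iff, Polynomial.natDegree_le_iff_coeff_eq_zero]
    intro n hn
    exact hcoeff n hn

theorem gg_ne (b₁ b₂ : Bool) : ¬ ∀ᶠ s in 𝓝 (0 : ℂ × ℂ), gg b₁ s.1 * gg b₂ s.2 = 0 := by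
  intro h
  have h1 : Tendsto (fun t : ℂ => ((t, t) : ℂ × ℂ)) (𝓝[≠] 0) (𝓝 (0 : ℂ × ℂ)) := by
    have : ContinuousAt (fun t : ℂ => ((t, t) : ℂ × ℂ)) 0 := by fun_prop
    exact (this.tendsto.mono_left nhdsWithin_le_nhds)
  obtain ⟨t, ht, ht0⟩ := ((h1.eventually h).and self_mem_nhdsWithin).exists
  have ht0 : t ≠ 0 := ht0
  cases b₁ <;> cases b₂ <;> simp [gg, ht0] at ht

/-- **Local expansion.** -/
theorem res_local {W : ℂ × ℂ → ℂ × ℂ → ℂ} {m : ℕ} {b₁ b₂ : Bool} {C : ℝ}
    (han : ∀ᶠ s in 𝓝 (0 : ℂ × ℂ), gg b₁ s.1 * gg b₂ s.2 ≠ 0 → ∀ τ, AnalyticAt ℂ (fun q : (ℂ × ℂ) × (ℂ × ℂ) => W q.1 q.2) (s, τ))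
    (hhom : ∀ᶠ s in 𝓝 (0 : ℂ × ℂ), gg b₁ s.1 * gg b₂ s.2 ≠ 0 → ∀ (τ : ℂ × ℂ) (c : ℂ), W s (c • τ) = c ^ m * W s τ)
    (hb : ∀ᶠ s in 𝓝 (0 : ℂ × ℂ), gg b₁ s.1 * gg b₂ s.2 ≠ 0 → ∀ τ : ℂ × ℂ,
      ‖W s τ‖ ≤ C * (‖τ.1 / gg b₁ s.1‖ + ‖τ.2 / gg b₂ s.2‖) ^ m) :
    ∃ a : ℕ → ℂ × ℂ → ℂ, (∀ k, AnalyticAt ℂ (a k) 0) ∧ ∀ᶠ s in 𝓝 (0 : ℂ × ℂ), gg b₁ s.1 * gg b₂ s.2 ≠ 0 → ∀ τ : ℂ × ℂ,
      W s τ = ∑ k ∈ Finset.range (m + 1), a k s * (τ.1 / gg b₁ s.1) ^ k * (τ.2 / gg b₂ s.2) ^ (m - k) := by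
  classical
  set L : ℕ → ℕ → ℂ := fun j k => (Lagrange.basis (Finset.range (m + 1)) (fun i : ℕ => (i : ℂ)) j).coeff k with hL
  set A : ℕ → ℂ × ℂ → ℂ := fun k s => ∑ j ∈ Finset.range (m + 1), W s (gg b₁ s.1 * j, gg b₂ s.2) * L j k with hA
  have h1an : ∀ s : ℂ × ℂ, AnalyticAt ℂ (fun s : ℂ × ℂ => gg b₁ s.1) s := fun s => (gg_an b₁ s.1).fun_comp analyticAt_fst
  have h2an : ∀ s : ℂ × ℂ, AnalyticAt ℂ (fun s : ℂ × ℂ => gg b₂ s.2) s := fun s => (gg_an b₂ s.2).fun_comp analyticAt_snd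
  have hhan : AnalyticAt ℂ (fun s : ℂ × ℂ => gg b₁ s.1 * gg b₂ s.2) 0 := (h1an 0).mul (h2an 0)
  have hAan : ∀ k, ∀ᶠ s in 𝓝 (0 : ℂ × ℂ), gg b₁ s.1 * gg b₂ s.2 ≠ 0 → AnalyticAt ℂ (A k) s := by
    intro k
    filter_upwards [han] with s hs h0
    refine Finset.analyticAt_fun_sum _ fun j _ => AnalyticAt.mul ?_ analyticAt_const
    have h3 : AnalyticAt ℂ (fun s : ℂ × ℂ => ((s, (gg b₁ s.1 * j, gg b₂ s.2)) : (ℂ × ℂ) × (ℂ × ℂ))) s :=
      analyticAt_id.prod (((h1an s).mul analyticAt_const).prod (h2an s))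
    exact AnalyticAt.fun_comp (f := fun s : ℂ × ℂ => ((s, (gg b₁ s.1 * j, gg b₂ s.2)) : (ℂ × ℂ) × (ℂ × ℂ))) (hs h0 _) h3
  have hAb : ∀ k, ∀ᶠ s in 𝓝 (0 : ℂ × ℂ), gg b₁ s.1 * gg b₂ s.2 ≠ 0 → ‖A k s‖ ≤ ∑ j ∈ Finset.range (m + 1), C * ((j : ℝ) + 1) ^ m * ‖L j k‖ := by
    intro k
    filter_upwards [hb] with s hs h0
    refine (norm_sum_le _ _).trans (Finset.sum_le_sum fun j _ => ?_)
    rw [norm_mul]
    refine mul_le_mul_of_nonneg_right ?_ (norm_nonneg _)
    refine (hs h0 _).trans (le_of_eq ?_)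
    obtain ⟨g1, g2⟩ := mul_ne_zero_iff.mp h0
    simp only
    rw [mul_div_cancel_left₀ _ g1, div_self g2, norm_one, Complex.norm_natCast]
  have hφ : ∀ k, ∃ φ : ℂ × ℂ → ℂ, AnalyticAt ℂ φ 0 ∧ ∀ᶠ s in 𝓝 (0 : ℂ × ℂ), gg b₁ s.1 * gg b₂ s.2 ≠ 0 → φ s = A k s := fun k =>
    Pool.Agent.TG.riemann_one hhan (gg_ne b₁ b₂) (hAan k) (hAb k)
  choose a ha1 ha2 using hφ
  refine ⟨a, ha1, ?_⟩
  have hall : ∀ᶠ s in 𝓝 (0 : ℂ × ℂ), ∀ k ∈ Finset.range (m + 1), gg b₁ s.1 * gg b₂ s.2 ≠ 0 → a k s = A k s := by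
    rw [Filter.eventually_all_finset]
    exact fun k _ => ha2 k
  filter_upwards [han, hhom, hb, hall] with s h3 h4 h5 h6 h0
  obtain ⟨g1, g2⟩ := mul_ne_zero_iff.mp h0
  have h7 : ∀ k ∈ Finset.range (m + 1), a k s = A k s := fun k hk => h6 k hk h0
  -- the one variable identity
  have hent : Differentiable ℂ fun t : ℂ => W s (gg b₁ s.1 * t, gg b₂ s.2) := by
    intro t
    have h8 : AnalyticAt ℂ (fun t : ℂ => ((s, (gg b₁ s.1 * t, gg b₂ s.2)) : (ℂ × ℂ) × (ℂ × ℂ))) t :=
      analyticAt_const.prod ((analyticAt_const.mul analyticAt_id).prod analyticAt_const)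
    exact (AnalyticAt.fun_comp (f := fun t : ℂ => ((s, (gg b₁ s.1 * t, gg b₂ s.2)) : (ℂ × ℂ) × (ℂ × ℂ))) (h3 h0 _) h8).differentiableAt
  have hgr : ∀ t : ℂ, ‖W s (gg b₁ s.1 * t, gg b₂ s.2)‖ ≤ C * (1 + ‖t‖) ^ m := by
    intro t
    refine (h5 h0 _).trans (le_of_eq ?_)
    simp only
    rw [mul_div_cancel_left₀ _ g1, div_self g2, norm_one, add_comm]
  have hint : ∀ t : ℂ, W s (gg b₁ s.1 * t, gg b₂ s.2) = ∑ k ∈ Finset.range (m + 1), a k s * t ^ k := by
    intro t
    rw [interp hent hgr t]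
    refine Finset.sum_congr rfl fun k hk => ?_
    rw [h7 k hk]
  have key : ∀ τ : ℂ × ℂ, τ.2 ≠ 0 → W s τ = ∑ k ∈ Finset.range (m + 1), a k s * (τ.1 / gg b₁ s.1) ^ k * (τ.2 / gg b₂ s.2) ^ (m - k) := by
    intro τ hτ
    set u₁ := τ.1 / gg b₁ s.1 with hu1
    set u₂ := τ.2 / gg b₂ s.2 with hu2
    have hu2' : u₂ ≠ 0 := div_ne_zero hτ g2
    clear_value u₁ u₂
    have h9 : τ = u₂ • ((gg b₁ s.1 * (u₁ / u₂), gg b₂ s.2) : ℂ × ℂ) := by
      refine Prod.ext ?_ ?_
      · show τ.1 = u₂ * (gg b₁ s.1 * (u₁ / u₂))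
        rw [hu1]
        field_simp
      · show τ.2 = u₂ * gg b₂ s.2
        rw [hu2]
        field_simp
    have h9' : W s τ = u₂ ^ m * ∑ k ∈ Finset.range (m + 1), a k s * (u₁ / u₂) ^ k := by
      conv_lhs => rw [h9]
      rw [h4 h0, hint]
    rw [h9', Finset.mul_sum]
    refine Finset.sum_congr rfl fun k hk => ?_
    have hk' : k ≤ m := by simpa [Nat.lt_succ_iff] using hk
    have h10 : u₂ ^ m = u₂ ^ k * u₂ ^ (m - k) := by rw [← pow_add]; congr 1; omega
    rw [div_pow, h10]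
    field_simp
  intro τ
  by_cases hτ : τ.2 = 0
  · have h11 : Tendsto (fun e : ℂ => ((τ.1, e) : ℂ × ℂ)) (𝓝[≠] 0) (𝓝 τ) := by
      have h12 : ContinuousAt (fun e : ℂ => ((τ.1, e) : ℂ × ℂ)) 0 := by fun_prop
      have h13 : ((τ.1, (0 : ℂ)) : ℂ × ℂ) = τ := Prod.ext rfl hτ.symm
      have h14 := h12.tendsto.mono_left (nhdsWithin_le_nhds (s := {(0 : ℂ)}ᶜ))
      rwa [h13] at h14
    have hWc : ContinuousAt (W s) τ := by
      have h15 : ContinuousAt (fun τ : ℂ × ℂ => ((s, τ) : (ℂ × ℂ) × (ℂ × ℂ))) τ := by fun_prop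
      exact ContinuousAt.comp (f := fun τ : ℂ × ℂ => ((s, τ) : (ℂ × ℂ) × (ℂ × ℂ))) (h3 h0 τ).continuousAt h15
    have h16 := hWc.tendsto.comp h11
    have hRc : ContinuousAt (fun τ : ℂ × ℂ => ∑ k ∈ Finset.range (m + 1), a k s * (τ.1 / gg b₁ s.1) ^ k * (τ.2 / gg b₂ s.2) ^ (m - k)) τ := by
      fun_prop
    have h17 := hRc.tendsto.comp h11
    refine tendsto_nhds_unique h16 (h17.congr' ?_)
    filter_upwards [self_mem_nhdsWithin] with e he
    exact (key (τ.1, e) he).symm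
  · exact key τ hτ

end Pool.Agent.SR3

end
end
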