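import Pool.Agent.H43.TL2.M140

/-! The parts of this file: EG.LE.Har, H36.BPB.Hur, SR3.ETopC, SR3.G.HPU, SR3.Har. -/

section

/-!
# EG LE Har: the Harnack inequality

Proof (helper41):
Let a = H c, Re a > 0.  phi z := (H z - a) / (H z + conj a) is holomorphic on the ball (Re (H z + conj a) > 0), maps it to the unit disc (‖w - a‖ < ‖w + conj a‖ for Re w, Re a > 0), phi c = 0.
Schwarz lemma (Complex.norm_le_norm_of_mapsTo_ball_self / dist_le_mul_div_dist, applied on ball c r): ‖phi z‖ ≤ s := ‖z - c‖ / r < 1.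
So ‖H z - a‖ ≤ s ‖H z + conj a‖.  Write H z = x + i y', a = x0 + i y0: (x - x0)^2 + (y' - y0)^2 ≤ s^2 ((x + x0)^2 + (y' - y0)^2), hence (x - x0)^2 ≤ s^2 (x + x0)^2 (s < 1), so
x0 - x ≤ s (x + x0), x ≥ x0 (1 - s) / (1 + s).
-/

set_option autoImplicit false

open Topology Filter Metric Set

namespace Pool.Agent.EG.LE

theorem harnack {H : ℂ → ℂ} {c : ℂ} {r : ℝ} (hr : 0 < r) (hH : DifferentiableOn ℂ H (ball c r)) (hpos : ∀ z ∈ ball c r, 0 < (H z).re) {z : ℂ}
    (hz : z ∈ ball c r) : (H c).re * ((r - ‖z - c‖) / (r + ‖z - c‖)) ≤ (H z).re := by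
  have hcb : c ∈ ball c r := mem_ball_self hr
  have hx0 := hpos c hcb
  have hden : ∀ w ∈ ball c r, H w + (starRingEnd ℂ) (H c) ≠ 0 := by
    intro w hw h0
    have h1 := congrArg Complex.re h0
    simp only [Complex.add_re, Complex.conj_re, Complex.zero_re] at h1
    have := hpos w hw
    linarith
  have hd : DifferentiableOn ℂ (fun w => (H w - H c) / (H w + (starRingEnd ℂ) (H c))) (ball c r) :=
    (hH.sub_const _).div (hH.add_const _) hden
  have hsq : ∀ w, Complex.normSq (H w + (starRingEnd ℂ) (H c)) - Complex.normSq (H w - H c) =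
      4 * (H w).re * (H c).re := by
    intro w
    rw [Complex.normSq_apply, Complex.normSq_apply]
    simp only [Complex.add_re, Complex.conj_re, Complex.sub_re, Complex.sub_im, Complex.add_im,
      Complex.conj_im]
    ring
  have hm : MapsTo (fun w => (H w - H c) / (H w + (starRingEnd ℂ) (H c))) (ball c r)
      (closedBall ((H c - H c) / (H c + (starRingEnd ℂ) (H c))) 1) := by
    intro w hw
    rw [sub_self, zero_div, mem_closedBall, dist_zero_right, norm_div]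
    have h1 : ‖H w - H c‖ ≤ ‖H w + (starRingEnd ℂ) (H c)‖ := by
      rw [← abs_norm (H w - H c), ← abs_norm (H w + (starRingEnd ℂ) (H c)), ← sq_le_sq,
        ← Complex.normSq_eq_norm_sq, ← Complex.normSq_eq_norm_sq]
      have h2 := hsq w
      have h3 := mul_pos (hpos w hw) hx0
      nlinarith
    exact div_le_one_of_le₀ h1 (norm_nonneg _)
  have hS := Complex.dist_le_div_mul_dist_of_mapsTo_ball hd hm hz
  simp only [sub_self, zero_div, dist_zero_right, norm_div] at hS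
  rw [dist_eq_norm] at hS
  set t := ‖z - c‖ with ht
  have ht0 : 0 ≤ t := norm_nonneg _
  have htr : t < r := by
    rw [mem_ball, dist_eq_norm] at hz
    exact hz
  have hzp := hpos z hz
  have hnp : 0 < ‖H z + (starRingEnd ℂ) (H c)‖ := norm_pos_iff.2 (hden z hz)
  rw [div_le_iff₀ hnp] at hS
  have hS2 : r * ‖H z - H c‖ ≤ t * ‖H z + (starRingEnd ℂ) (H c)‖ := by
    have h1 := mul_le_mul_of_nonneg_left hS hr.le
    have h2 : r * (1 / r * t * ‖H z + (starRingEnd ℂ) (H c)‖) =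
        t * ‖H z + (starRingEnd ℂ) (H c)‖ := by
      field_simp
    linarith
  have hS3 : r ^ 2 * Complex.normSq (H z - H c) ≤
      t ^ 2 * Complex.normSq (H z + (starRingEnd ℂ) (H c)) := by
    rw [Complex.normSq_eq_norm_sq, Complex.normSq_eq_norm_sq, ← mul_pow, ← mul_pow]
    exact pow_le_pow_left₀ (by positivity) hS2 2
  rw [Complex.normSq_apply, Complex.normSq_apply] at hS3
  simp only [Complex.add_re, Complex.conj_re, Complex.sub_re, Complex.sub_im, Complex.add_im,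
    Complex.conj_im] at hS3
  set x := (H z).re
  set x0 := (H c).re
  set y := (H z).im
  set y0 := (H c).im
  have hS4 : (r * (x0 - x)) ^ 2 ≤ (t * (x + x0)) ^ 2 := by
    have h1 : 0 ≤ (r ^ 2 - t ^ 2) * (y - y0) ^ 2 := by
      apply mul_nonneg _ (sq_nonneg _)
      nlinarith
    nlinarith
  have hS5 : r * (x0 - x) ≤ t * (x + x0) :=
    (abs_le_of_sq_le_sq' hS4 (by positivity)).2
  rw [← mul_div_assoc, div_le_iff₀ (by linarith)]
  nlinarith

end Pool.Agent.EG.LE

end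

section

/-!
# BPB Hur: Hurwitz' theorem for a boundary which is locally given by one equation
-/

set_option autoImplicit false

open Filter Topology Metric

namespace Pool.Agent.H36.BPB

variable {V : Type} [NormedAddCommGroup V] [NormedSpace ℂ V] [CompleteSpace V]

/-- If the curves `F n` in `K` tend to the curve `H` near `z₀` and `H z₀` is a boundary point of `K`, then `H` lies in the boundary near `z₀`. -/
theorem hur_of_eqn {X K : Set V} (hcl : ∀ x ∈ closure K, x ≠ 0 → x ∈ X) (hKX : K ⊆ X)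
    (heqn : ∀ x ∈ X, ∃ h : V → ℂ, AnalyticAt ℂ h x ∧ ∀ᶠ y in 𝓝 x, y ∈ X → (y ∉ K ↔ h y = 0)) :
    ∀ (l : Filter ℕ), l.NeBot → ∀ (F : ℕ → ℂ → V) (H : ℂ → V) (z₀ : ℂ) (s : ℝ), 0 < s →
    (∀ᶠ n in l, DifferentiableOn ℂ (F n) (Metric.ball z₀ s) ∧ ∀ z ∈ Metric.ball z₀ s, F n z ∈ K) → DifferentiableOn ℂ H (Metric.ball z₀ s) →
    TendstoLocallyUniformlyOn F H l (Metric.ball z₀ s) → H z₀ ≠ 0 → H z₀ ∉ K → ∀ᶠ z in 𝓝 z₀, H z ∉ K := by
  intro l hl F H z₀ s hs hF hH hlim h0 hK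
  have hz₀ : z₀ ∈ ball z₀ s := mem_ball_self hs
  have hHa : ∀ z ∈ ball z₀ s, AnalyticAt ℂ H z := fun z hz => hH.analyticAt (isOpen_ball.mem_nhds hz)
  have hHcl : ∀ z ∈ ball z₀ s, H z ∈ closure K := by
    intro z hz
    refine mem_closure_of_tendsto (hlim.tendsto_at hz) ?_
    filter_upwards [hF] with n hn
    exact hn.2 z hz
  have hHX : H z₀ ∈ X := hcl _ (hHcl z₀ hz₀) h0
  obtain ⟨h, hh, hhe⟩ := heqn _ hHX
  have ha : AnalyticAt ℂ (fun z => h (H z)) z₀ := hh.comp (hHa z₀ hz₀)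
  -- a neighbourhood of `H z₀`
  obtain ⟨δ, hδ, hδb⟩ := Metric.eventually_nhds_iff_ball.1 (hhe.and hh.eventually_analyticAt)
  have hHX' : ∀ᶠ z in 𝓝 z₀, H z ∈ X := by
    filter_upwards [isOpen_ball.mem_nhds hz₀, (hHa z₀ hz₀).continuousAt.eventually_ne h0] with z h1 h2
    exact hcl _ (hHcl z h1) h2
  rcases ha.eventually_eq_zero_or_eventually_ne_zero with hzero | hne
  · filter_upwards [hzero, hHX', (hHa z₀ hz₀).continuousAt.eventually (ball_mem_nhds _ hδ)] with z h1 h2 h3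
    exact ((hδb _ h3).1 h2).mpr h1
  exfalso
  -- a small circle
  have hcont : ∀ᶠ z in 𝓝 z₀, H z ∈ ball (H z₀) (δ / 2) :=
    (hHa z₀ hz₀).continuousAt.eventually (ball_mem_nhds _ (by positivity))
  obtain ⟨r₀, hr₀, hr₀b⟩ := Metric.eventually_nhds_iff_ball.1
    ((eventually_nhdsWithin_iff.1 hne).and (hcont.and (isOpen_ball.mem_nhds hz₀)))
  set r : ℝ := r₀ / 2 with hr
  have hr0 : 0 < r := by positivity
  have hcb : closedBall z₀ r ⊆ ball z₀ r₀ := closedBall_subset_ball (by rw [hr]; linarith)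
  have hcs : closedBall z₀ r ⊆ ball z₀ s := fun z hz => (hr₀b z (hcb hz)).2.2
  -- the values of `F n` on the closed disc are near `H z₀`
  have huni : ∀ ε : ℝ, 0 < ε → ∀ᶠ n in l, ∀ z ∈ closedBall z₀ r, dist (H z) (F n z) < ε := by
    intro ε hε
    have h1 := (tendstoLocallyUniformlyOn_iff_forall_isCompact isOpen_ball).1 hlim (closedBall z₀ r) hcs (isCompact_closedBall _ _)
    exact (Metric.tendstoUniformlyOn_iff.1 h1) ε hε
  have hnear : ∀ᶠ n in l, ∀ z ∈ closedBall z₀ r, F n z ∈ ball (H z₀) δ := by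
    filter_upwards [huni (δ / 2) (by positivity)] with n hn z hz
    have h1 := hn z hz
    have h2 : dist (H z) (H z₀) < δ / 2 := (hr₀b z (hcb hz)).2.1
    rw [mem_ball]
    calc dist (F n z) (H z₀) ≤ dist (F n z) (H z) + dist (H z) (H z₀) := dist_triangle _ _ _
      _ < δ := by rw [dist_comm (F n z)]; linarith
  have hHball : ∀ z ∈ closedBall z₀ r, H z ∈ ball (H z₀) δ := fun z hz => by
    have h2 : dist (H z) (H z₀) < δ / 2 := (hr₀b z (hcb hz)).2.1
    rw [mem_ball]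
    linarith
  -- the minimum on the circle
  have hac : ContinuousOn (fun z => ‖h (H z)‖) (sphere z₀ r) := by
    intro z hz
    have hzc := sphere_subset_closedBall hz
    exact (((hδb _ (hHball z hzc)).2.continuousAt.comp (hHa z (hcs hzc)).continuousAt).norm).continuousWithinAt
  obtain ⟨z₁, hz₁, hmin⟩ := (isCompact_sphere z₀ r).exists_isMinOn (NormedSpace.sphere_nonempty.2 hr0.le) hac
  set m : ℝ := ‖h (H z₁)‖ with hm
  have hm0 : 0 < m := by
    rw [hm, norm_pos_iff]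
    have h1 := sphere_subset_closedBall hz₁
    refine (hr₀b z₁ (hcb h1)).1 ?_
    intro h2
    rw [Set.mem_singleton_iff.1 h2, mem_sphere, dist_self] at hz₁
    linarith
  -- pointwise convergence, uniform on the circle
  have hcomp : ∀ᶠ n in l, ∀ z ∈ sphere z₀ r, m / 2 ≤ ‖h (F n z)‖ := by
    -- `h` is uniformly continuous on the compact set `H (circle)`
    have hKc : IsCompact (H '' sphere z₀ r) := (isCompact_sphere z₀ r).image_of_continuousOn
      fun z hz => (hHa z (hcs (sphere_subset_closedBall hz))).continuousAt.continuousWithinAt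
    have hpt : ∀ x ∈ H '' sphere z₀ r, ∃ t ∈ 𝓝[H '' sphere z₀ r] x, ∃ ε : ℝ, 0 < ε ∧ ∀ y ∈ t, ∀ w, dist y w < ε → ‖h w - h y‖ < m / 2 := by
      rintro x ⟨z, hz, rfl⟩
      have h1 : ContinuousAt h (H z) := (hδb _ (hHball z (sphere_subset_closedBall hz))).2.continuousAt
      obtain ⟨ε, hε, h2⟩ := Metric.continuousAt_iff.1 h1 (m / 4) (by positivity)
      refine ⟨ball (H z) (ε / 2), nhdsWithin_le_nhds (ball_mem_nhds _ (by positivity)), ε / 2, by positivity, fun y hy w hw => ?_⟩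
      have h3 : dist y (H z) < ε := by rw [mem_ball] at hy; linarith
      have h4 : dist w (H z) < ε := by
        rw [mem_ball] at hy
        calc dist w (H z) ≤ dist w y + dist y (H z) := dist_triangle _ _ _
          _ < ε := by rw [dist_comm w y]; linarith
      have h5 := h2 h3
      have h6 := h2 h4
      rw [← dist_eq_norm]
      calc dist (h w) (h y) ≤ dist (h w) (h (H z)) + dist (h (H z)) (h y) := dist_triangle _ _ _
        _ < m / 2 := by rw [dist_comm (h (H z))]; linarith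
    obtain ⟨ε, hε, hεt⟩ : ∃ ε : ℝ, 0 < ε ∧ ∀ y ∈ H '' sphere z₀ r, ∀ w, dist y w < ε → ‖h w - h y‖ < m / 2 := by
      refine hKc.induction_on (p := fun S => ∃ ε : ℝ, 0 < ε ∧ ∀ y ∈ S, ∀ w, dist y w < ε → ‖h w - h y‖ < m / 2) ?_ ?_ ?_ ?_
      · exact ⟨1, one_pos, fun y hy => absurd hy (Set.notMem_empty y)⟩
      · rintro S T hST ⟨ε, hε, h1⟩
        exact ⟨ε, hε, fun y hy => h1 y (hST hy)⟩
      · rintro S T ⟨ε, hε, h1⟩ ⟨ε', hε', h2⟩
        refine ⟨min ε ε', lt_min hε hε', ?_⟩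
        rintro y (hy | hy) w hw
        · exact h1 y hy w (hw.trans_le (min_le_left _ _))
        · exact h2 y hy w (hw.trans_le (min_le_right _ _))
      · intro x hx
        obtain ⟨t, ht, ε, hε, h1⟩ := hpt x hx
        exact ⟨t, ht, ε, hε, h1⟩
    filter_upwards [huni ε hε] with n hn z hz
    have h1 := hεt (H z) (Set.mem_image_of_mem _ hz) (F n z) (hn z (sphere_subset_closedBall hz))
    have h2 : m ≤ ‖h (H z)‖ := hmin hz
    have h3 := norm_sub_norm_le (h (H z)) (h (F n z))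
    rw [norm_sub_rev] at h3
    linarith
  -- the maximum principle for `1 / h (F n z)`
  have hbd : ∀ᶠ n in l, m / 2 ≤ ‖h (F n z₀)‖ := by
    filter_upwards [hcomp, hnear, hF] with n h1 h2 h3
    have hne' : ∀ z ∈ closedBall z₀ r, h (F n z) ≠ 0 := by
      intro z hz h4
      exact ((hδb _ (h2 z hz)).1 (hKX (h3.2 z (hcs hz)))).mpr h4 (h3.2 z (hcs hz))
    have hd : DiffContOnCl ℂ (fun z => (h (F n z))⁻¹) (ball z₀ r) := by
      refine DifferentiableOn.diffContOnCl ?_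
      rw [closure_ball z₀ hr0.ne']
      intro z hz
      have h5 : DifferentiableAt ℂ (F n) z := h3.1.differentiableAt (isOpen_ball.mem_nhds (hcs hz))
      have h6 : DifferentiableAt ℂ h (F n z) := (hδb _ (h2 z hz)).2.differentiableAt
      exact ((h6.comp z h5).inv (hne' z hz)).differentiableWithinAt
    have h4 := Complex.norm_le_of_forall_mem_frontier_norm_le (C := (m / 2)⁻¹) isBounded_ball hd (fun w hw => by
      rw [frontier_ball z₀ hr0.ne'] at hw
      rw [norm_inv]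
      exact inv_anti₀ (by positivity) (h1 w hw)) (subset_closure (mem_ball_self hr0))
    rw [norm_inv] at h4
    have h5 : 0 < ‖h (F n z₀)‖ := norm_pos_iff.2 (hne' z₀ (mem_closedBall_self hr0.le))
    exact (inv_le_inv₀ h5 (by positivity)).1 h4
  have hzero : h (H z₀) = 0 := (hhe.self_of_nhds hHX).mp hK
  have ht : Tendsto (fun n => ‖h (F n z₀)‖) l (𝓝 ‖h (H z₀)‖) := (hh.continuousAt.tendsto.comp (hlim.tendsto_at hz₀)).norm
  rw [hzero, norm_zero] at ht
  have := ge_of_tendsto ht hbd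
  linarith

end Pool.Agent.H36.BPB

end

section

/-!
# SR3 ETopC: the gradients are constant far from the line

The relation and `top_grad` show that `gc (S x)` is close to one of finitely many numbers (the `m j`-th roots of `q x j / Pol t j (t i)`); the region is
convex, so `gc (S x)` is almost constant.
-/

set_option autoImplicit false

open Topology Filter Metric Complex InnerProductSpace Laplacian

noncomputable section

namespace Pool.Agent.SR3.BE

open Pool.Agent.SDR (gc)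

private theorem tc_hom {ι : Type} [Fintype ι] {m : ℕ} {P : MvPolynomial ι ℂ} (hP : P.IsHomogeneous m) (t : ℂ) (y : ι → ℂ) :
    MvPolynomial.eval (fun i => t * y i) P = t ^ m * MvPolynomial.eval y P := by
  rw [MvPolynomial.eval_eq', MvPolynomial.eval_eq', Finset.mul_sum]
  refine Finset.sum_congr rfl fun s hs => ?_
  have h2 := hP (MvPolynomial.mem_support_iff.1 hs)
  rw [Finsupp.weight_apply, Finsupp.sum_fintype _ _ (fun _ => by simp)] at h2
  have h3 : ∑ i, s i = m := by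
    rw [← h2]
    simp
  have h4 : ∏ i, (t * y i) ^ s i = t ^ m * ∏ i, y i ^ s i := by
    rw [← h3, ← Finset.prod_pow_eq_pow_sum, ← Finset.prod_mul_distrib]
    exact Finset.prod_congr rfl fun i _ => mul_pow _ _ _
  rw [h4]
  ring

/-- polynomials are Lipschitz and bounded on bounded sets -/
private theorem tc_lip {ι : Type} (P : MvPolynomial ι ℂ) {B : ℝ} (hB : 0 ≤ B) : ∃ L M : ℝ, 0 ≤ L ∧ 0 ≤ M ∧ ∀ (y y' : ι → ℂ) (e : ℝ), (∀ i, ‖y i‖ ≤ B) → (∀ i, ‖y' i‖ ≤ B) →
    (∀ i, ‖y i - y' i‖ ≤ e) → 0 ≤ e → ‖MvPolynomial.eval y P‖ ≤ M ∧ ‖MvPolynomial.eval y P - MvPolynomial.eval y' P‖ ≤ L * e := by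
  induction P using MvPolynomial.induction_on with
  | C c =>
    refine ⟨0, ‖c‖, le_rfl, norm_nonneg _, fun y y' e _ _ _ _ => ?_⟩
    simp
  | add p q hp hq =>
    obtain ⟨L, M, hL, hM, hp⟩ := hp
    obtain ⟨L', M', hL', hM', hq⟩ := hq
    refine ⟨L + L', M + M', by positivity, by positivity, fun y y' e h1 h2 h3 he => ?_⟩
    obtain ⟨a1, a2⟩ := hp y y' e h1 h2 h3 he
    obtain ⟨b1, b2⟩ := hq y y' e h1 h2 h3 he
    rw [map_add, map_add]
    refine ⟨(norm_add_le _ _).trans (add_le_add a1 b1), ?_⟩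
    have h4 : MvPolynomial.eval y p + MvPolynomial.eval y q - (MvPolynomial.eval y' p + MvPolynomial.eval y' q) =
        (MvPolynomial.eval y p - MvPolynomial.eval y' p) + (MvPolynomial.eval y q - MvPolynomial.eval y' q) := by ring
    rw [h4, add_mul]
    exact (norm_add_le _ _).trans (add_le_add a2 b2)
  | mul_X p i hp =>
    obtain ⟨L, M, hL, hM, hp⟩ := hp
    refine ⟨L * B + M, M * B, by positivity, by positivity, fun y y' e h1 h2 h3 he => ?_⟩
    obtain ⟨a1, a2⟩ := hp y y' e h1 h2 h3 he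
    obtain ⟨b1, -⟩ := hp y' y e h2 h1 (fun i => by rw [norm_sub_rev]; exact h3 i) he
    rw [map_mul, map_mul, MvPolynomial.eval_X, MvPolynomial.eval_X]
    constructor
    · rw [norm_mul]
      exact mul_le_mul a1 (h1 i) (norm_nonneg _) hM
    · have h4 : MvPolynomial.eval y p * y i - MvPolynomial.eval y' p * y' i =
          (MvPolynomial.eval y p - MvPolynomial.eval y' p) * y i + MvPolynomial.eval y' p * (y i - y' i) := by ring
      rw [h4]
      refine (norm_add_le _ _).trans ?_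
      rw [norm_mul, norm_mul]
      have h5 : ‖MvPolynomial.eval y p - MvPolynomial.eval y' p‖ * ‖y i‖ ≤ L * e * B := mul_le_mul a2 (h1 i) (norm_nonneg _) (by positivity)
      have h6 : ‖MvPolynomial.eval y' p‖ * ‖y i - y' i‖ ≤ M * e := mul_le_mul b1 (h3 i) (norm_nonneg _) hM
      linarith

variable {X ι : Type} [Fintype ι] {Φ : Fam X ι} {C c R₀ A c₂ C₂ R₂ : ℝ}

/-- `gc (S x)` is continuous far from the good points -/
private theorem tc_cont (hΦ : Hyp Φ C c R₀) {x : X} {z : ℂ} (hz : R₀ ≤ Φ.d x z) : ContinuousAt (gc (Φ.S x)) z := by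
  have h1 : ContDiffAt ℝ 2 (Φ.S x) z := by
    have h2 : ContDiffAt ℝ 2 (fun w => ∑ i, Φ.lam x i w) z := ContDiffAt.sum fun i _ => hΦ.c2 x i z hz
    exact h2
  have h2 : ContinuousAt (fderiv ℝ (Φ.S x)) z := (h1.fderiv_right (m := 1) (by norm_num)).continuousAt
  have h3 : ContinuousAt (fun w => ((fderiv ℝ (Φ.S x) w 1 : ℝ) : ℂ) - I * ((fderiv ℝ (Φ.S x) w I : ℝ) : ℂ)) z := by
    have h4 : ContinuousAt (fun w => fderiv ℝ (Φ.S x) w 1) z := h2.clm_apply continuousAt_const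
    have h5 : ContinuousAt (fun w => fderiv ℝ (Φ.S x) w I) z := h2.clm_apply continuousAt_const
    exact (Complex.continuous_ofReal.continuousAt.comp h4).sub (continuousAt_const.mul (Complex.continuous_ofReal.continuousAt.comp h5))
  exact h3

/-- the region is convex -/
private theorem tc_convex (u a : ℂ) (R h : ℝ) : Convex ℝ {z : ℂ | z ∈ closedBall a R ∧ h ≤ ht u a z} := by
  have h1 : Convex ℝ {z : ℂ | h ≤ ht u a z} := by
    intro z hz w hw s t hs ht' hst
    have hz' : h ≤ (star u * (z - a)).re := hz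
    have hw' : h ≤ (star u * (w - a)).re := hw
    show h ≤ (star u * (s • z + t • w - a)).re
    have h2 : star u * (s • z + t • w - a) = s • (star u * (z - a)) + t • (star u * (w - a)) := by
      simp only [Complex.real_smul]
      have h4 : ((s : ℂ) + t) = 1 := by exact_mod_cast hst
      linear_combination (star u * a) * h4
    rw [h2, Complex.add_re, Complex.real_smul, Complex.real_smul, Complex.re_ofReal_mul, Complex.re_ofReal_mul]
    have h5 := mul_le_mul_of_nonneg_left hz' hs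
    have h6 := mul_le_mul_of_nonneg_left hw' ht'
    have h7 : s * h + t * h = h := by rw [← add_mul, hst, one_mul]
    linarith
  exact (convex_closedBall a R).inter h1

theorem top_const (hΦ : Hyp Φ C c R₀) (hD : Dep Φ A c₂ C₂ R₂) (hR₂ : R₀ ≤ R₂) {cq : ℝ} {J Ty : Type} [Fintype J] [Fintype Ty] {m : J → ℕ}
    {Pol : Ty → J → MvPolynomial ι ℂ} {q : X → J → ℂ} (hrel : Rel Φ C R₀ cq m Pol q) {α : ℝ} (hα : 0 < α) (hα' : α ≤ 1 / 2) {δ : ℝ} (hδ : 0 < δ)
    (hδ' : δ ≤ 1 / 8) {C₃ R₃ : ℝ} (hC₃ : 0 < C₃) (hR₃ : 1 ≤ R₃) :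
    ∃ α₁ C₄ R₄ : ℝ, 0 < α₁ ∧ α₁ ≤ 1 / 2 ∧ 0 < C₄ ∧ R₃ ≤ R₄ ∧ ∀ (x : X) (a : ℂ), a ∈ Φ.G x → ∀ (R e : ℝ) (u : ℂ) (β β' : ι → ℝ), R₄ ≤ R →
      Fit Φ x a (8 * R) e A u β β' → e ≤ c₂ * δ * R / 4 → ∀ t : ι → ℝ, (∀ i, 0 ≤ t i) → ∑ i, t i = 1 →
      (∀ z ∈ closedBall a R, δ * R ≤ ht u a z → ‖gc (Φ.S x) z‖ ≤ C₃ ∧ ∀ i, ‖gc (Φ.lam x i) z - (t i : ℂ) * gc (Φ.S x) z‖ ≤ C₃ * R ^ (-α)) →
      ∃ k : ℂ, ∀ z ∈ closedBall a R, δ * R ≤ ht u a z → ∀ i, ‖gc (Φ.lam x i) z - (t i : ℂ) * k‖ ≤ C₄ * R ^ (-α₁) := by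
  classical
  have hC1 := hΦ.C_ge
  have hc₂ := hD.c_pos
  have hcq := hrel.pos
  -- the constants
  choose L hL using fun p : Ty × J => tc_lip (Pol p.1 p.2) (B := 2 * C₃) (by positivity)
  choose M' hLM using hL
  obtain ⟨L₁, hL₁⟩ : ∃ L₁, L₁ = ∑ p, L p := ⟨_, rfl⟩
  have hL₁0 : 0 ≤ L₁ := hL₁ ▸ Finset.sum_nonneg fun p _ => (hLM p).1
  have hLle : ∀ p, L p ≤ L₁ := fun p => hL₁ ▸ Finset.single_le_sum (f := L) (fun p _ => (hLM p).1) (Finset.mem_univ p)
  obtain ⟨n, hn⟩ : ∃ n : ℕ, n = 1 + ∑ j, m j := ⟨_, rfl⟩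
  have hmn : ∀ j, m j ≤ n := fun j => by
    have := Finset.single_le_sum (f := m) (fun j _ => Nat.zero_le _) (Finset.mem_univ j)
    omega
  have hn1 : (1 : ℝ) ≤ n := by
    have : 1 ≤ n := by omega
    exact_mod_cast this
  obtain ⟨C', hC'⟩ : ∃ C', C' = L₁ * C₃ + C / (c₂ * δ) := ⟨_, rfl⟩
  have hC'0 : 0 < C' := by
    rw [hC']
    have : 0 < C / (c₂ * δ) := by positivity
    have : 0 ≤ L₁ * C₃ := by positivity
    linarith
  obtain ⟨c₃, hc₃⟩ : ∃ c₃, c₃ = cq / (2 * (1 + C₃) ^ n) := ⟨_, rfl⟩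
  have hc₃0 : 0 < c₃ := by
    rw [hc₃]
    positivity
  obtain ⟨C'', hC''⟩ : ∃ C'', C'' = max 1 (C' / c₃) := ⟨_, rfl⟩
  have hC''1 : 1 ≤ C'' := hC'' ▸ le_max_left _ _
  obtain ⟨K, hK⟩ : ∃ K : ℝ, K = 2 * ((Fintype.card Ty * n : ℕ) : ℝ) * C'' := ⟨_, rfl⟩
  have hK0 : 0 ≤ K := by
    rw [hK]
    positivity
  -- the scale
  have hlim : ∀ᶠ R : ℝ in atTop, C' * R ^ (-α) ≤ cq / 2 := by
    have h1 : Tendsto (fun R : ℝ => C' * R ^ (-α)) atTop (𝓝 (C' * 0)) := (tendsto_rpow_neg_atTop hα).const_mul C'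
    rw [mul_zero] at h1
    exact h1.eventually (eventually_le_nhds (by positivity))
  obtain ⟨R₅, hR₅⟩ := eventually_atTop.1 hlim
  refine ⟨α / n, C₃ + K, max R₃ (max R₅ (R₂ / (c₂ * δ))), by positivity, ?_, by positivity, le_max_left _ _, ?_⟩
  · rw [div_le_iff₀ (by positivity)]
    linarith
  intro x a ha R e u β β' hR hfit he t ht0 ht1 hgr
  have hRR₃ : R₃ ≤ R := (le_max_left _ _).trans hR
  have hRR₅ : R₅ ≤ R := (le_max_left _ _).trans ((le_max_right _ _).trans hR)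
  have hRR₂ : R₂ / (c₂ * δ) ≤ R := (le_max_right _ _).trans ((le_max_right _ _).trans hR)
  have hR1 : 1 ≤ R := hR₃.trans hRR₃
  have hR0 : 0 < R := by linarith
  have hRa : R ^ (-α) ≤ 1 := Real.rpow_le_one_of_one_le_of_nonpos hR1 (by linarith)
  have hRa0 : 0 < R ^ (-α) := Real.rpow_pos_of_pos hR0 _
  have hti : ∀ i, t i ≤ 1 := fun i => ht1 ▸ Finset.single_le_sum (fun i _ => ht0 i) (Finset.mem_univ i)
  obtain ⟨j, hj⟩ := hrel.exj x
  have hmj := hrel.one j
  -- the depth in the region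
  have hdep : ∀ z ∈ closedBall a R, δ * R ≤ ht u a z → c₂ * δ * R ≤ Φ.d x z ∧ R₀ ≤ Φ.d x z := by
    intro z hz hz'
    have h1 : R₂ ≤ c₂ * δ * R := by
      rw [div_le_iff₀ (by positivity)] at hRR₂
      linarith
    have h2 : (0 : ℝ) ≤ δ * R := by positivity
    have h3 : |ht u a z| = ht u a z := abs_of_nonneg (h2.trans hz')
    have hc₂1 := hD.c_le
    have h4 : c₂ * (δ * R) ≤ c₂ * ht u a z := mul_le_mul_of_nonneg_left hz' hc₂.le
    have h5 := hD.dep x a (8 * R) e u β β' ha (by linarith) hfit z (closedBall_subset_closedBall (by linarith) hz) (by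
      rw [h3]
      have h6 := mul_le_of_le_one_left (h2.trans hz') hc₂1
      linarith) (by
      rw [h3]
      have h6 : 0 ≤ c₂ * (δ * R) := mul_nonneg hc₂.le h2
      linarith)
    rw [h3] at h5
    constructor
    · linarith [h5.1]
    · linarith [h5.1]
  -- the values of the gradient
  obtain ⟨s, hs⟩ : ∃ s, s = gc (Φ.S x) := ⟨_, rfl⟩
  have hval : ∀ z ∈ closedBall a R, δ * R ≤ ht u a z → ∃ ty, c₃ ≤ ‖MvPolynomial.eval (fun i => (t i : ℂ)) (Pol ty j)‖ ∧
      ‖s z ^ m j - q x j / MvPolynomial.eval (fun i => (t i : ℂ)) (Pol ty j)‖ ≤ C'' * R ^ (-α) := by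
    intro z hz hz'
    obtain ⟨h1, h2⟩ := hgr z hz hz'
    rw [← hs] at h1 h2
    obtain ⟨h3, h4⟩ := hdep z hz hz'
    obtain ⟨ty, hty⟩ := hrel.rel x j z h4
    refine ⟨ty, ?_⟩
    obtain ⟨p, hp⟩ : ∃ p, p = MvPolynomial.eval (fun i => (t i : ℂ)) (Pol ty j) := ⟨_, rfl⟩
    rw [← hp]
    have hs2 : ∀ i, ‖s z * (t i : ℂ)‖ ≤ 2 * C₃ := by
      intro i
      rw [norm_mul, Complex.norm_real, Real.norm_of_nonneg (ht0 i)]
      have := hti i
      have := ht0 i
      have := norm_nonneg (s z)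
      exact (mul_le_of_le_one_right (norm_nonneg _) (hti i)).trans (by linarith)
    have hs3 : ∀ i, ‖gc (Φ.lam x i) z - s z * (t i : ℂ)‖ ≤ C₃ * R ^ (-α) := by
      intro i
      rw [mul_comm]
      exact h2 i
    have hs4 : ∀ i, ‖gc (Φ.lam x i) z‖ ≤ 2 * C₃ := by
      intro i
      have h5 : gc (Φ.lam x i) z = (gc (Φ.lam x i) z - s z * (t i : ℂ)) + s z * (t i : ℂ) := by ring
      rw [h5]
      refine (norm_add_le _ _).trans ?_
      have h6 : ‖s z * (t i : ℂ)‖ ≤ C₃ := by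
        rw [norm_mul, Complex.norm_real, Real.norm_of_nonneg (ht0 i)]
        have := hti i
        have := ht0 i
        have := norm_nonneg (s z)
        exact (mul_le_of_le_one_right (norm_nonneg _) (hti i)).trans h1
      have h7 := hs3 i
      have h8 : C₃ * R ^ (-α) ≤ C₃ := mul_le_of_le_one_right hC₃.le hRa
      linarith
    have h5 := ((hLM (ty, j)).2.2 (fun i => gc (Φ.lam x i) z) (fun i => s z * (t i : ℂ)) (C₃ * R ^ (-α)) hs4 hs2 hs3 (by positivity)).2
    rw [tc_hom (hrel.hom ty j), ← hp] at h5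
    have h6 : ‖s z ^ m j * p - q x j‖ ≤ C' * R ^ (-α) := by
      have h7 : s z ^ m j * p - q x j = (MvPolynomial.eval (fun i => gc (Φ.lam x i) z) (Pol ty j) - q x j) -
          (MvPolynomial.eval (fun i => gc (Φ.lam x i) z) (Pol ty j) - s z ^ m j * p) := by ring
      rw [h7]
      refine (norm_sub_le _ _).trans ?_
      have h8 : C / Φ.d x z ≤ C / (c₂ * δ) * R ^ (-α) := by
        have h9 : C / Φ.d x z ≤ C / (c₂ * δ * R) := div_le_div_of_nonneg_left (by linarith) (by positivity) h3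
        have h10 : C / (c₂ * δ * R) = C / (c₂ * δ) * R ^ (-(1 : ℝ)) := by
          rw [Real.rpow_neg_one]
          field_simp
        have h11 : R ^ (-(1 : ℝ)) ≤ R ^ (-α) := Real.rpow_le_rpow_of_exponent_le hR1 (by linarith)
        rw [h10] at h9
        exact h9.trans (mul_le_mul_of_nonneg_left h11 (by positivity))
      have h9 : L (ty, j) * (C₃ * R ^ (-α)) ≤ L₁ * (C₃ * R ^ (-α)) := mul_le_mul_of_nonneg_right (hLle _) (by positivity)
      rw [hC']
      linarith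
    have h7 : C' * R ^ (-α) ≤ cq / 2 := hR₅ R hRR₅
    have h8 : cq / 2 ≤ ‖s z ^ m j * p‖ := by
      have h9 : ‖q x j‖ ≤ ‖s z ^ m j * p‖ + ‖s z ^ m j * p - q x j‖ := by
        have h10 : q x j = s z ^ m j * p - (s z ^ m j * p - q x j) := by ring
        calc ‖q x j‖ = ‖s z ^ m j * p - (s z ^ m j * p - q x j)‖ := by rw [← h10]
          _ ≤ _ := norm_sub_le _ _
      linarith
    have h9 : ‖s z ^ m j‖ ≤ (1 + C₃) ^ n := by
      rw [norm_pow]
      calc ‖s z‖ ^ m j ≤ (1 + C₃) ^ m j := pow_le_pow_left₀ (norm_nonneg _) (by linarith) _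
        _ ≤ (1 + C₃) ^ n := pow_le_pow_right₀ (by linarith) (hmn j)
    have h10 : c₃ ≤ ‖p‖ := by
      rw [hc₃, div_le_iff₀ (by positivity)]
      rw [norm_mul] at h8
      have h11 : ‖s z ^ m j‖ * ‖p‖ ≤ (1 + C₃) ^ n * ‖p‖ := mul_le_mul_of_nonneg_right h9 (norm_nonneg _)
      linarith
    refine ⟨h10, ?_⟩
    have hp0 : p ≠ 0 := by
      intro h
      rw [h, norm_zero] at h10
      linarith
    have h11 : s z ^ m j - q x j / p = (s z ^ m j * p - q x j) / p := by field_simp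
    rw [h11, norm_div, div_le_iff₀ (by linarith)]
    refine h6.trans ?_
    have h12 : C' / c₃ ≤ C'' := hC'' ▸ le_max_right _ _
    rw [div_le_iff₀ hc₃0] at h12
    have h13 : C'' * c₃ ≤ C'' * ‖p‖ := mul_le_mul_of_nonneg_left h10 (by linarith)
    have h14 := mul_le_mul_of_nonneg_right (h12.trans h13) hRa0.le
    linarith
  -- the finitely many values
  obtain ⟨E, hE⟩ : ∃ E : ℝ, E = (C'' * R ^ (-α)) ^ (((m j : ℕ) : ℝ)⁻¹) := ⟨_, rfl⟩
  have hE0 : 0 ≤ E := hE ▸ Real.rpow_nonneg (by positivity) _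
  have hEm : E ^ m j = C'' * R ^ (-α) := by
    rw [hE]
    exact Real.rpow_inv_natCast_pow (by positivity) (by omega)
  have hEle : E ≤ C'' * R ^ (-(α / n)) := by
    have hmj' : (1 : ℝ) ≤ m j := by exact_mod_cast hmj
    have hmn' : (m j : ℝ) ≤ n := by exact_mod_cast hmn j
    rw [hE, Real.mul_rpow (by linarith) hRa0.le]
    refine mul_le_mul ?_ ?_ (by positivity) (by linarith)
    · calc C'' ^ (((m j : ℕ) : ℝ)⁻¹) ≤ C'' ^ (1 : ℝ) := Real.rpow_le_rpow_of_exponent_le hC''1 (inv_le_one_of_one_le₀ hmj')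
        _ = C'' := Real.rpow_one _
    · rw [← Real.rpow_mul hR0.le]
      refine Real.rpow_le_rpow_of_exponent_le hR1 ?_
      have h1 : α / n ≤ α * ((m j : ℕ) : ℝ)⁻¹ := by
        rw [div_eq_mul_inv]
        exact mul_le_mul_of_nonneg_left (inv_anti₀ (by linarith) hmn') hα.le
      linarith
  choose Tf hTf hTf' using fun ty => near_root hmj (q x j / MvPolynomial.eval (fun i => (t i : ℂ)) (Pol ty j))
  have hcov : ∀ w ∈ s '' {z : ℂ | z ∈ closedBall a R ∧ δ * R ≤ ht u a z}, ∃ r ∈ Finset.univ.biUnion Tf, ‖w - r‖ ≤ E := by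
    rintro _ ⟨z, ⟨hz, hz'⟩, rfl⟩
    obtain ⟨ty, -, h1⟩ := hval z hz hz'
    obtain ⟨r, hr, h2⟩ := hTf' ty (s z) E hE0 (by rw [hEm]; exact h1)
    exact ⟨r, Finset.mem_biUnion.2 ⟨ty, Finset.mem_univ _, hr⟩, h2⟩
  have hcard : (Finset.univ.biUnion Tf).card ≤ Fintype.card Ty * n := by
    refine Finset.card_biUnion_le.trans ?_
    calc ∑ ty, (Tf ty).card ≤ ∑ _ty : Ty, n := Finset.sum_le_sum fun ty _ => (hTf ty).trans (hmn j)
      _ = Fintype.card Ty * n := by simp
  have hpre : IsPreconnected (s '' {z : ℂ | z ∈ closedBall a R ∧ δ * R ≤ ht u a z}) := by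
    refine (tc_convex u a R (δ * R)).isPreconnected.image _ ?_
    intro z hz
    rw [hs]
    exact (tc_cont hΦ (hdep z hz.1 hz.2).2).continuousWithinAt
  have hdiam := cover_diam hpre _ hE0 hcov
  by_cases hne : ∃ z₀ ∈ closedBall a R, δ * R ≤ ht u a z₀
  · obtain ⟨z₀, hz₀, hz₀'⟩ := hne
    refine ⟨s z₀, fun z hz hz' i => ?_⟩
    have h1 := (hgr z hz hz').2 i
    rw [← hs] at h1
    have h2 := hdiam (s z) ⟨z, ⟨hz, hz'⟩, rfl⟩ (s z₀) ⟨z₀, ⟨hz₀, hz₀'⟩, rfl⟩
    have h3 : 2 * ((Finset.univ.biUnion Tf).card : ℝ) * E ≤ K * R ^ (-(α / n)) := by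
      have h4 : ((Finset.univ.biUnion Tf).card : ℝ) ≤ ((Fintype.card Ty * n : ℕ) : ℝ) := by exact_mod_cast hcard
      have h5 : 2 * ((Finset.univ.biUnion Tf).card : ℝ) * E ≤ 2 * ((Fintype.card Ty * n : ℕ) : ℝ) * (C'' * R ^ (-(α / n))) :=
        mul_le_mul (by linarith) hEle hE0 (by positivity)
      rw [hK]
      linarith
    have h4 : gc (Φ.lam x i) z - (t i : ℂ) * s z₀ = (gc (Φ.lam x i) z - (t i : ℂ) * s z) + (t i : ℂ) * (s z - s z₀) := by ring
    rw [h4]
    refine (norm_add_le _ _).trans ?_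
    have h5 : ‖(t i : ℂ) * (s z - s z₀)‖ ≤ ‖s z - s z₀‖ := by
      rw [norm_mul, Complex.norm_real, Real.norm_of_nonneg (ht0 i)]
      exact mul_le_of_le_one_left (norm_nonneg _) (hti i)
    have h6 : R ^ (-α) ≤ R ^ (-(α / n)) := by
      refine Real.rpow_le_rpow_of_exponent_le hR1 ?_
      have h7 : α / n ≤ α := div_le_self hα.le hn1
      linarith
    have h7 : C₃ * R ^ (-α) ≤ C₃ * R ^ (-(α / n)) := mul_le_mul_of_nonneg_left h6 hC₃.le
    linarith
  · push Not at hne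
    refine ⟨0, fun z hz hz' => absurd hz' (not_le.2 (hne z hz))⟩

end Pool.Agent.SR3.BE

end
end

section

/-!
# SDR2, block G: the classical half-plane uniqueness theorem

`eq_zero_of_halfplane`: an entire function `D` with `|D(x)| <= exp(C - c x / log(2 + x))` on the
positive real axis and `|D(z)| <= exp(b Im z + C (2 + |z|)^ga)`, `0 < ga < 1`, in the upper half
plane is zero.  (helper59)
-/

open Complex Filter Topology Set Asymptotics Bornology

namespace Pool.Agent.SR3.G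
namespace HPU

/-- The shifted variable. -/
noncomputable def sh (ζ : ℂ) : ℂ := ζ + 16

/-- `Log (ζ + 16) - i π / 2`. -/
noncomputable def Lp (ζ : ℂ) : ℂ := Complex.log (sh ζ) - ((Real.pi / 2 : ℝ) : ℂ) * I

/-- The multiplier's exponent. -/
noncomputable def W (ζ : ℂ) : ℂ := -(sh ζ * Complex.log (Lp ζ))

lemma sh_re {ζ : ℂ} (h : 0 ≤ ζ.re) : 16 ≤ (sh ζ).re := by
  simp [sh]; exact h

lemma sh_im (ζ : ℂ) : (sh ζ).im = ζ.im := by simp [sh]

lemma norm_sh {ζ : ℂ} (h : 0 ≤ ζ.re) : 16 ≤ ‖sh ζ‖ :=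
  le_trans (sh_re h) (Complex.re_le_norm _)

lemma norm_sh_le (ζ : ℂ) : ‖sh ζ‖ ≤ ‖ζ‖ + 16 := by
  unfold sh
  refine (norm_add_le _ _).trans ?_
  have : ‖(16 : ℂ)‖ = 16 := by norm_num
  rw [this]

lemma log_sh {ζ : ℂ} (h : 0 ≤ ζ.re) : 1 < Real.log ‖sh ζ‖ := by
  rw [Real.lt_log_iff_exp_lt (by linarith [norm_sh h])]
  have := Real.exp_one_lt_d9
  linarith [norm_sh h]

lemma Lp_re (ζ : ℂ) : (Lp ζ).re = Real.log ‖sh ζ‖ := by
  simp [Lp, Complex.log_re]

lemma Lp_im (ζ : ℂ) : (Lp ζ).im = arg (sh ζ) - Real.pi / 2 := by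
  simp [Lp, Complex.log_im]

lemma arg_sh {ζ : ℂ} (h : 0 ≤ ζ.re) : |arg (sh ζ)| < Real.pi / 2 := by
  rw [Complex.abs_arg_lt_pi_div_two_iff]
  left; linarith [sh_re h]

lemma Lp_im_neg {ζ : ℂ} (h : 0 ≤ ζ.re) : (Lp ζ).im < 0 := by
  rw [Lp_im]; have := (abs_lt.1 (arg_sh h)).2; linarith

lemma Lp_im_gt {ζ : ℂ} (h : 0 ≤ ζ.re) : -Real.pi < (Lp ζ).im := by
  rw [Lp_im]; have := (abs_lt.1 (arg_sh h)).1; linarith

lemma norm_Lp {ζ : ℂ} (h : 0 ≤ ζ.re) : Real.log ‖sh ζ‖ ≤ ‖Lp ζ‖ := by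
  rw [← Lp_re]; exact Complex.re_le_norm _

lemma one_lt_norm_Lp {ζ : ℂ} (h : 0 ≤ ζ.re) : 1 < ‖Lp ζ‖ := lt_of_lt_of_le (log_sh h) (norm_Lp h)

lemma arg_Lp_nonpos {ζ : ℂ} (h : 0 ≤ ζ.re) : arg (Lp ζ) ≤ 0 := by
  have := Complex.arg_neg_iff.2 (Lp_im_neg h)
  exact this.le

lemma arg_Lp_gt {ζ : ℂ} (h : 0 ≤ ζ.re) : |arg (Lp ζ)| < Real.pi / 2 := by
  rw [Complex.abs_arg_lt_pi_div_two_iff]
  left; rw [Lp_re]; linarith [log_sh h]

lemma neg_arg_Lp_le {ζ : ℂ} (h : 0 ≤ ζ.re) : -arg (Lp ζ) ≤ Real.pi / Real.log ‖sh ζ‖ := by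
  have h1 : 0 ≤ -arg (Lp ζ) := by linarith [arg_Lp_nonpos h]
  have h2 : -arg (Lp ζ) < Real.pi / 2 := by
    have := (abs_lt.1 (arg_Lp_gt h)).1; linarith
  have h3 := Real.le_tan h1 h2
  rw [Real.tan_neg, Complex.tan_arg, Lp_re] at h3
  refine h3.trans ?_
  rw [← neg_div]
  have := log_sh h
  gcongr
  linarith [Lp_im_gt h]

lemma W_re (ζ : ℂ) : (W ζ).re = -((sh ζ).re * Real.log ‖Lp ζ‖) + (sh ζ).im * arg (Lp ζ) := by
  simp [W, Complex.log_re, Complex.log_im]
  ring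

lemma W_re_real {t : ℝ} (ht : 0 ≤ t) : (W (t : ℂ)).re ≤ -(t * Real.log (Real.log (t + 16))) := by
  have h0 : 0 ≤ ((t : ℂ)).re := by simpa using ht
  rw [W_re, sh_im]
  have e1 : (sh (t : ℂ)).re = t + 16 := by simp [sh]
  have e2 : ‖sh (t : ℂ)‖ = t + 16 := by
    have : sh (t : ℂ) = ((t + 16 : ℝ) : ℂ) := by simp [sh]
    rw [this, Complex.norm_real, Real.norm_eq_abs, abs_of_nonneg (by linarith)]
  have h1 := norm_Lp h0
  have h2 := log_sh h0
  rw [e2] at h1 h2
  have h3 : Real.log (Real.log (t + 16)) ≤ Real.log ‖Lp (t : ℂ)‖ := Real.log_le_log (by linarith) h1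
  have h4 : 0 ≤ Real.log (Real.log (t + 16)) := Real.log_nonneg h2.le
  rw [e1]
  simp only [Complex.ofReal_im, zero_mul, add_zero]
  nlinarith

lemma W_re_up {x : ℝ} (hx : 0 ≤ x) : (W ((x : ℂ) * I)).re ≤ 0 := by
  have h0 : 0 ≤ ((x : ℂ) * I).re := by simp
  rw [W_re, sh_im]
  have h1 := arg_Lp_nonpos h0
  have h2 := Real.log_nonneg (one_lt_norm_Lp h0).le
  have h3 := sh_re h0
  have e : ((x : ℂ) * I).im = x := by simp
  rw [e]
  nlinarith [mul_nonneg (show (0:ℝ) ≤ (sh ((x : ℂ) * I)).re by linarith) h2,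
    mul_nonneg hx (show 0 ≤ -arg (Lp ((x : ℂ) * I)) by linarith)]

lemma log_two_add_le {x : ℝ} (hx : 0 ≤ x) :
    Real.log (2 + x) ≤ 2 * Real.log ‖sh (-(x : ℂ) * I)‖ := by
  have e : ‖sh (-(x : ℂ) * I)‖ ^ 2 = 256 + x ^ 2 := by
    rw [Complex.sq_norm, Complex.normSq_apply]
    simp [sh]; ring
  have h0 : 0 ≤ (-(x : ℂ) * I).re := by simp
  have h1 := norm_sh h0
  have : 2 * Real.log ‖sh (-(x : ℂ) * I)‖ = Real.log (‖sh (-(x : ℂ) * I)‖ ^ 2) := by
    rw [Real.log_pow]; norm_num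
  rw [this, e]
  apply Real.log_le_log (by linarith)
  nlinarith [sq_nonneg (x - 1)]

lemma W_re_down {x : ℝ} (hx : 0 ≤ x) :
    (W (-(x : ℂ) * I)).re ≤ 2 * Real.pi * (x / Real.log (2 + x)) := by
  have h0 : 0 ≤ (-(x : ℂ) * I).re := by simp
  rw [W_re, sh_im]
  have h1 := neg_arg_Lp_le h0
  have h2 := Real.log_nonneg (one_lt_norm_Lp h0).le
  have h3 := sh_re h0
  have h4 := log_two_add_le hx
  have h5 := log_sh h0
  have e : (-(x : ℂ) * I).im = -x := by simp
  rw [e]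
  have h6 : 0 < Real.log (2 + x) := Real.log_pos (by linarith)
  have h7 : Real.pi / Real.log ‖sh (-(x : ℂ) * I)‖ ≤ 2 * Real.pi / Real.log (2 + x) := by
    rw [div_le_div_iff₀ (by linarith) h6]
    nlinarith [Real.pi_pos]
  have h8 : x * (-arg (Lp (-(x : ℂ) * I))) ≤ x * (2 * Real.pi / Real.log (2 + x)) :=
    mul_le_mul_of_nonneg_left (h1.trans h7) hx
  have h9 : x * (2 * Real.pi / Real.log (2 + x)) = 2 * Real.pi * (x / Real.log (2 + x)) := by
    ring
  nlinarith [mul_nonneg (show (0:ℝ) ≤ (sh (-(x : ℂ) * I)).re by linarith) h2]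

lemma norm_W_le {ζ : ℂ} (h : 0 ≤ ζ.re) (h1 : 1 ≤ ‖ζ‖) : ‖W ζ‖ ≤ 4000 * ‖ζ‖ ^ (3 / 2 : ℝ) := by
  set s := ‖sh ζ‖ with hs
  have hs16 : 16 ≤ s := norm_sh h
  have hs17 : s ≤ 17 * ‖ζ‖ := by linarith [norm_sh_le ζ]
  have hl := log_sh h
  have a1 : ‖Lp ζ‖ ≤ Real.log s + 4 := by
    refine (Complex.norm_le_abs_re_add_abs_im _).trans ?_
    rw [Lp_re, abs_of_pos (by linarith)]
    have : |(Lp ζ).im| ≤ 4 := by
      rw [abs_le]; constructor
      · linarith [Lp_im_gt h, Real.pi_lt_four]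
      · linarith [Lp_im_neg h]
    linarith
  have a2 : Real.log ‖Lp ζ‖ ≤ Real.log s + 4 :=
    (Real.log_le_self (norm_nonneg _)).trans a1
  have a3 : ‖Complex.log (Lp ζ)‖ ≤ Real.log s + 8 := by
    refine (Complex.norm_le_abs_re_add_abs_im _).trans ?_
    rw [Complex.log_re, Complex.log_im, abs_of_nonneg (Real.log_nonneg (one_lt_norm_Lp h).le)]
    have : |arg (Lp ζ)| ≤ 4 := by
      have := arg_Lp_gt h
      linarith [Real.pi_lt_four, Real.pi_pos]
    linarith
  have a4 : Real.log s ≤ 2 * s ^ (1 / 2 : ℝ) := by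
    have := Real.log_le_rpow_div (x := s) (by linarith) (ε := 1 / 2) (by norm_num)
    calc Real.log s ≤ s ^ (1 / 2 : ℝ) / (1 / 2) := this
      _ = 2 * s ^ (1 / 2 : ℝ) := by ring
  have a5 : 1 ≤ s ^ (1 / 2 : ℝ) := Real.one_le_rpow (by linarith) (by norm_num)
  have a6 : ‖W ζ‖ ≤ s * (10 * s ^ (1 / 2 : ℝ)) := by
    rw [W, norm_neg, norm_mul]
    exact mul_le_mul_of_nonneg_left (by linarith) (norm_nonneg _)
  have a7 : s * (10 * s ^ (1 / 2 : ℝ)) = 10 * s ^ (3 / 2 : ℝ) := by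
    have : s ^ (3 / 2 : ℝ) = s * s ^ (1 / 2 : ℝ) := by
      rw [show (3 / 2 : ℝ) = 1 + 1 / 2 by norm_num, Real.rpow_add (by linarith), Real.rpow_one]
    rw [this]; ring
  have a8 : s ^ (3 / 2 : ℝ) ≤ 17 ^ (3 / 2 : ℝ) * ‖ζ‖ ^ (3 / 2 : ℝ) := by
    rw [← Real.mul_rpow (by norm_num) (norm_nonneg _)]
    exact Real.rpow_le_rpow (by linarith) hs17 (by norm_num)
  have a9 : (17 : ℝ) ^ (3 / 2 : ℝ) ≤ 289 := by
    calc (17 : ℝ) ^ (3 / 2 : ℝ) ≤ 17 ^ (2 : ℝ) :=
          Real.rpow_le_rpow_of_exponent_le (by norm_num) (by norm_num)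
      _ = 289 := by norm_num
  have a10 : 0 ≤ ‖ζ‖ ^ (3 / 2 : ℝ) := Real.rpow_nonneg (norm_nonneg _) _
  calc ‖W ζ‖ ≤ 10 * s ^ (3 / 2 : ℝ) := a6.trans a7.le
    _ ≤ 10 * (289 * ‖ζ‖ ^ (3 / 2 : ℝ)) := by
        have := mul_le_mul_of_nonneg_right a9 a10
        linarith
    _ ≤ 4000 * ‖ζ‖ ^ (3 / 2 : ℝ) := by nlinarith

/-- The power `(ζ + 16) ^ ga`. -/
noncomputable def Pw (ga : ℝ) (ζ : ℂ) : ℂ := (sh ζ) ^ (ga : ℂ)

lemma sh_ne {ζ : ℂ} (h : 0 ≤ ζ.re) : sh ζ ≠ 0 := by
  intro h0; have := norm_sh h; rw [h0, norm_zero] at this; linarith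

lemma Pw_re {ga : ℝ} {ζ : ℂ} (h : 0 ≤ ζ.re) :
    (Pw ga ζ).re = ‖sh ζ‖ ^ ga * Real.cos (ga * arg (sh ζ)) := by
  unfold Pw
  rw [Complex.cpow_def_of_ne_zero (sh_ne h), Complex.exp_re]
  have e1 : (Complex.log (sh ζ) * (ga : ℂ)).re = Real.log ‖sh ζ‖ * ga := by
    simp [Complex.log_re]
  have e2 : (Complex.log (sh ζ) * (ga : ℂ)).im = ga * arg (sh ζ) := by
    simp [Complex.log_im]; ring
  rw [e1, e2, Real.rpow_def_of_pos (by linarith [norm_sh h])]

lemma Pw_re_ge {ga : ℝ} (h0 : 0 < ga) (h1 : ga < 1) {ζ : ℂ} (h : 0 ≤ ζ.re) :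
    ‖sh ζ‖ ^ ga * Real.cos (ga * (Real.pi / 2)) ≤ (Pw ga ζ).re := by
  rw [Pw_re h]
  apply mul_le_mul_of_nonneg_left _ (Real.rpow_nonneg (norm_nonneg _) _)
  rw [← Real.cos_abs (ga * arg (sh ζ))]
  apply Real.cos_le_cos_of_nonneg_of_le_pi (abs_nonneg _)
  · nlinarith [Real.pi_pos]
  · rw [abs_mul, abs_of_pos h0]
    exact mul_le_mul_of_nonneg_left (arg_sh h).le h0.le

lemma cos_pos {ga : ℝ} (h0 : 0 < ga) (h1 : ga < 1) : 0 < Real.cos (ga * (Real.pi / 2)) := by
  apply Real.cos_pos_of_mem_Ioo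
  constructor <;> nlinarith [Real.pi_pos]

lemma Pw_re_nonneg {ga : ℝ} (h0 : 0 < ga) (h1 : ga < 1) {ζ : ℂ} (h : 0 ≤ ζ.re) :
    0 ≤ (Pw ga ζ).re :=
  le_trans (mul_nonneg (Real.rpow_nonneg (norm_nonneg _) _) (cos_pos h0 h1).le) (Pw_re_ge h0 h1 h)

lemma differentiableAt_sh (ζ : ℂ) : DifferentiableAt ℂ sh ζ := by
  unfold sh; fun_prop

lemma differentiableAt_Lp {ζ : ℂ} (h : 0 ≤ ζ.re) : DifferentiableAt ℂ Lp ζ := by
  unfold Lp
  apply DifferentiableAt.sub_const
  apply DifferentiableAt.clog (differentiableAt_sh ζ)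
  left; linarith [sh_re h]

lemma differentiableAt_W {ζ : ℂ} (h : 0 ≤ ζ.re) : DifferentiableAt ℂ W ζ := by
  unfold W
  apply DifferentiableAt.neg
  apply (differentiableAt_sh ζ).mul
  apply DifferentiableAt.clog (differentiableAt_Lp h)
  left; rw [Lp_re]; linarith [log_sh h]

lemma differentiableAt_Pw {ga : ℝ} {ζ : ℂ} (h : 0 ≤ ζ.re) : DifferentiableAt ℂ (Pw ga) ζ := by
  unfold Pw
  apply DifferentiableAt.cpow (differentiableAt_sh ζ) (differentiableAt_const _)
  left; linarith [sh_re h]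

/-- The main statement. -/
theorem main {D : ℂ → ℂ} (hD : Differentiable ℂ D) {b c C ga : ℝ} (hc : 0 < c) (h0 : 0 < ga)
    (h1 : ga < 1) (hC : 0 ≤ C) (hb : 0 ≤ b)
    (hx : ∀ x : ℝ, 0 ≤ x → ‖D x‖ ≤ Real.exp (C - c * (x / Real.log (2 + x))))
    (hy : ∀ z : ℂ, 0 ≤ z.im → ‖D z‖ ≤ Real.exp (b * z.im + C * (2 + ‖z‖) ^ ga)) : D = 0 := by
  set κ : ℝ := c / (2 * Real.pi) with hκ
  have hκ0 : 0 < κ := div_pos hc (by linarith [Real.pi_pos])
  set K : ℝ := 2 * C / Real.cos (ga * (Real.pi / 2)) with hK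
  have hK0 : 0 ≤ K := div_nonneg (by linarith) (cos_pos h0 h1).le
  set f : ℂ → ℂ := fun ζ => D (I * ζ) * Complex.exp ((κ : ℂ) * W ζ - (K : ℂ) * Pw ga ζ) with hf
  have hnorm : ∀ ζ : ℂ, ‖f ζ‖ = ‖D (I * ζ)‖ * Real.exp (κ * (W ζ).re - K * (Pw ga ζ).re) := by
    intro ζ
    simp only [hf, norm_mul, Complex.norm_exp]
    congr 2
    simp
  have him : ∀ ζ : ℂ, (I * ζ).im = ζ.re := by intro ζ; simp
  have hnI : ∀ ζ : ℂ, ‖I * ζ‖ = ‖ζ‖ := by intro ζ; simp
  have key : EqOn f 0 {z : ℂ | 0 ≤ z.re} := by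
    apply PhragmenLindelof.eq_zero_on_right_half_plane_of_superexponential_decay
    · apply DifferentiableOn.diffContOnCl
      rw [closure_setOfPred_lt_re]
      intro ζ hζ
      apply DifferentiableAt.differentiableWithinAt
      have hζ' : 0 ≤ ζ.re := hζ
      simp only [hf]
      apply DifferentiableAt.mul
      · exact (hD _).comp ζ (by fun_prop)
      · apply DifferentiableAt.cexp
        apply DifferentiableAt.sub
        · exact (differentiableAt_W hζ').const_mul _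
        · exact (differentiableAt_Pw hζ').const_mul _
    · refine ⟨3 / 2, by norm_num, b + 3 * C + κ * 4000, ?_⟩
      apply Asymptotics.IsBigO.of_bound 1
      have e1 : ∀ᶠ ζ in cobounded ℂ ⊓ 𝓟 {z : ℂ | 0 < z.re}, 1 ≤ ‖ζ‖ ∧ 0 < ζ.re := by
        rw [eventually_inf_principal]
        filter_upwards [Bornology.eventually_ne_cobounded (0 : ℂ),
          (tendsto_norm_cobounded_atTop (E := ℂ)).eventually_ge_atTop 1] with ζ _ h2 h3
        exact ⟨h2, h3⟩
      filter_upwards [e1] with ζ hζ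
      obtain ⟨hz1, hz2⟩ := hζ
      rw [hnorm, one_mul, Real.norm_eq_abs, abs_of_pos (Real.exp_pos _)]
      have g1 := hy (I * ζ) (by rw [him]; exact hz2.le)
      rw [him, hnI] at g1
      have g2 : κ * (W ζ).re - K * (Pw ga ζ).re ≤ κ * (4000 * ‖ζ‖ ^ (3 / 2 : ℝ)) := by
        have := Pw_re_nonneg h0 h1 hz2.le
        have t := (Complex.re_le_norm (W ζ)).trans (norm_W_le hz2.le hz1)
        have := mul_le_mul_of_nonneg_left t hκ0.le
        nlinarith
      have g3 : ‖ζ‖ ≤ ‖ζ‖ ^ (3 / 2 : ℝ) := by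
        calc ‖ζ‖ = ‖ζ‖ ^ (1 : ℝ) := (Real.rpow_one _).symm
          _ ≤ ‖ζ‖ ^ (3 / 2 : ℝ) := Real.rpow_le_rpow_of_exponent_le hz1 (by norm_num)
      have g4 : (2 + ‖ζ‖) ^ ga ≤ 3 * ‖ζ‖ ^ (3 / 2 : ℝ) := by
        calc (2 + ‖ζ‖) ^ ga ≤ (2 + ‖ζ‖) ^ (1 : ℝ) :=
              Real.rpow_le_rpow_of_exponent_le (by linarith) h1.le
          _ = 2 + ‖ζ‖ := Real.rpow_one _
          _ ≤ 3 * ‖ζ‖ := by linarith
          _ ≤ _ := by linarith
      have g5 : ζ.re ≤ ‖ζ‖ ^ (3 / 2 : ℝ) := (Complex.re_le_norm ζ).trans g3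
      refine (mul_le_mul_of_nonneg_right g1 (Real.exp_pos _).le).trans ?_
      rw [← Real.exp_add]
      apply Real.exp_le_exp.2
      have g6 := mul_le_mul_of_nonneg_left g4 hC
      have g7 := mul_le_mul_of_nonneg_left g5 hb
      nlinarith
    · intro n
      have hlim : Tendsto (fun x : ℝ => Real.exp (-x + 2 * C)) atTop (𝓝 0) := by
        apply Real.tendsto_exp_atBot.comp
        apply Filter.tendsto_atBot_add_const_right
        exact tendsto_neg_atTop_atBot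
      have hll : Tendsto (fun x : ℝ => Real.log (Real.log (x + 16))) atTop atTop :=
        Real.tendsto_log_atTop.comp (Real.tendsto_log_atTop.comp
          (tendsto_atTop_add_const_right _ _ tendsto_id))
      apply squeeze_zero' (g := fun x : ℝ => Real.exp (-x + 2 * C)) _ _ hlim
      · filter_upwards with x
        positivity
      · filter_upwards [eventually_ge_atTop 0,
          hll.eventually_ge_atTop ((n + b + C + 1) / κ)] with x hx0 hxl
        have g0 : (0 : ℝ) ≤ ((x : ℂ)).re := by simpa using hx0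
        rw [hnorm]
        have g1 := hy (I * (x : ℂ)) (by rw [him]; exact g0)
        rw [him, hnI] at g1
        have gx : ‖(x : ℂ)‖ = x := by rw [Complex.norm_real, Real.norm_eq_abs, abs_of_nonneg hx0]
        rw [gx, Complex.ofReal_re] at g1
        have g4 : (2 + x) ^ ga ≤ 2 + x := by
          calc (2 + x) ^ ga ≤ (2 + x) ^ (1 : ℝ) :=
                Real.rpow_le_rpow_of_exponent_le (by linarith) h1.le
            _ = 2 + x := Real.rpow_one _
        have g2 := W_re_real hx0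
        have g3 := Pw_re_nonneg h0 h1 g0
        have g5 : n + b + C + 1 ≤ κ * Real.log (Real.log (x + 16)) := by
          rw [div_le_iff₀ hκ0] at hxl
          linarith
        have g6 := mul_le_mul_of_nonneg_left g2 hκ0.le
        have g7 := mul_le_mul_of_nonneg_left g5 hx0
        have g8 := mul_le_mul_of_nonneg_left g4 hC
        have g9 := mul_nonneg hK0 g3
        calc Real.exp x ^ n * (‖D (I * (x : ℂ))‖ * Real.exp (κ * (W x).re - K * (Pw ga x).re))
            ≤ Real.exp x ^ n * (Real.exp (b * x + C * (2 + x) ^ ga) *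
                Real.exp (κ * (W x).re - K * (Pw ga x).re)) := by
              gcongr
          _ = Real.exp (n * x + ((b * x + C * (2 + x) ^ ga) +
                (κ * (W x).re - K * (Pw ga x).re))) := by
              rw [← Real.exp_nat_mul, ← Real.exp_add, ← Real.exp_add]
          _ ≤ Real.exp (-x + 2 * C) := by
              apply Real.exp_le_exp.2
              nlinarith
    · refine ⟨Real.exp C, ?_⟩
      intro x
      have g0 : (0 : ℝ) ≤ ((x : ℂ) * I).re := by simp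
      rw [hnorm]
      have eI : I * ((x : ℂ) * I) = ((-x : ℝ) : ℂ) := by
        push_cast
        linear_combination (x : ℂ) * Complex.I_mul_I
      rw [eI]
      rcases le_total 0 x with hx0 | hx0
      · have g1 := hy ((-x : ℝ) : ℂ) (by simp)
        have g2 : ‖((-x : ℝ) : ℂ)‖ = x := by
          rw [Complex.norm_real, Real.norm_eq_abs, abs_neg, abs_of_nonneg hx0]
        rw [g2, Complex.ofReal_im, mul_zero, zero_add] at g1
        have g3 := W_re_up hx0
        have g4 := Pw_re_ge h0 h1 g0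
        have g5 : K * (‖sh ((x : ℂ) * I)‖ ^ ga * Real.cos (ga * (Real.pi / 2)))
            = 2 * C * ‖sh ((x : ℂ) * I)‖ ^ ga := by
          have h5 := (cos_pos h0 h1).ne'
          have h6 : K * Real.cos (ga * (Real.pi / 2)) = 2 * C := by
            rw [hK, div_mul_cancel₀ _ h5]
          calc K * (‖sh ((x : ℂ) * I)‖ ^ ga * Real.cos (ga * (Real.pi / 2)))
              = (K * Real.cos (ga * (Real.pi / 2))) * ‖sh ((x : ℂ) * I)‖ ^ ga := by ring
            _ = _ := by rw [h6]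
        have g6 : (2 + x) ^ ga ≤ 2 * ‖sh ((x : ℂ) * I)‖ ^ ga := by
          have n1 := norm_sh g0
          have n2 : x ≤ ‖sh ((x : ℂ) * I)‖ := by
            have := Complex.abs_im_le_norm (sh ((x : ℂ) * I))
            rw [sh_im] at this
            simp at this
            rw [abs_of_nonneg hx0] at this
            exact this
          calc (2 + x) ^ ga ≤ (2 * ‖sh ((x : ℂ) * I)‖) ^ ga :=
                Real.rpow_le_rpow (by linarith) (by linarith) h0.le
            _ = 2 ^ ga * ‖sh ((x : ℂ) * I)‖ ^ ga :=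
                Real.mul_rpow (by norm_num) (norm_nonneg _)
            _ ≤ 2 * ‖sh ((x : ℂ) * I)‖ ^ ga := by
                apply mul_le_mul_of_nonneg_right _ (Real.rpow_nonneg (norm_nonneg _) _)
                calc (2 : ℝ) ^ ga ≤ 2 ^ (1 : ℝ) :=
                      Real.rpow_le_rpow_of_exponent_le (by norm_num) h1.le
                  _ = 2 := Real.rpow_one _
        have g7 := mul_le_mul_of_nonneg_left g4 hK0
        rw [g5] at g7
        have g8 := mul_le_mul_of_nonneg_left g6 hC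
        refine (mul_le_mul_of_nonneg_right g1 (Real.exp_pos _).le).trans ?_
        rw [← Real.exp_add]
        apply Real.exp_le_exp.2
        nlinarith
      · obtain ⟨y, rfl⟩ : ∃ y : ℝ, x = -y := ⟨-x, by ring⟩
        have hy0 : 0 ≤ y := by linarith
        rw [neg_neg]
        have e2 : (((-y : ℝ) : ℂ) * I) = -(y : ℂ) * I := by push_cast; ring
        have g1 := hx y hy0
        have g3 := W_re_down hy0
        have g4 := Pw_re_nonneg h0 h1 g0
        rw [e2] at g4 ⊢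
        refine (mul_le_mul_of_nonneg_right g1 (Real.exp_pos _).le).trans ?_
        rw [← Real.exp_add]
        apply Real.exp_le_exp.2
        have g6 := mul_le_mul_of_nonneg_left g3 hκ0.le
        have g7 : κ * (2 * Real.pi * (y / Real.log (2 + y))) = c * (y / Real.log (2 + y)) := by
          rw [hκ]
          have := Real.pi_pos.ne'
          field_simp
        nlinarith [mul_nonneg hK0 g4]
  -- D is zero on the upper half plane, so zero
  have hz : ∀ z : ℂ, 0 ≤ z.im → D z = 0 := by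
    intro z hz
    have e : z = I * (-I * z) := by
      linear_combination z * Complex.I_mul_I
    have h2 : 0 ≤ (-I * z).re := by simpa using hz
    have := key h2
    simp only [hf, Pi.zero_apply, mul_eq_zero, Complex.exp_ne_zero, or_false] at this
    rw [e]; exact this
  have han : AnalyticOnNhd ℂ D univ := fun z _ => hD.analyticAt z
  have : D = fun _ => 0 := by
    apply han.eq_of_eventuallyEq (z₀ := I) (fun z _ => analyticAt_const)
    have : {z : ℂ | 0 < z.im} ∈ 𝓝 I :=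
      (isOpen_lt continuous_const Complex.continuous_im).mem_nhds (by simp)
    filter_upwards [this] with z hz'
    exact hz z (le_of_lt hz')
  rw [this]; rfl

end HPU

/-- Half-plane uniqueness. -/
theorem eq_zero_of_halfplane {D : ℂ → ℂ} (hD : Differentiable ℂ D) {b c C ga : ℝ} (hc : 0 < c)
    (h0 : 0 < ga) (h1 : ga < 1)
    (hx : ∀ x : ℝ, 0 ≤ x → ‖D x‖ ≤ Real.exp (C - c * (x / Real.log (2 + x))))
    (hy : ∀ z : ℂ, 0 ≤ z.im → ‖D z‖ ≤ Real.exp (b * z.im + C * (2 + ‖z‖) ^ ga)) : D = 0 := by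
  apply HPU.main hD hc h0 h1 (abs_nonneg C) (abs_nonneg b)
  · intro x hx0
    refine (hx x hx0).trans (Real.exp_le_exp.2 ?_)
    linarith [le_abs_self C]
  · intro z hz
    refine (hy z hz).trans (Real.exp_le_exp.2 ?_)
    have : 0 ≤ (2 + ‖z‖) ^ ga := Real.rpow_nonneg (by linarith [norm_nonneg z]) _
    nlinarith [mul_le_mul_of_nonneg_right (le_abs_self b) hz,
      mul_le_mul_of_nonneg_right (le_abs_self C) this]

end Pool.Agent.SR3.G

end

section

/-!
# SR3 Har: harmonic functions in the plane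
-/

set_option autoImplicit false

open Metric Topology Filter InnerProductSpace

noncomputable section

namespace Pool.Agent.SR3

open Pool.Agent.SDR (gc)

theorem norm_gc_le_lip {u : ℂ → ℝ} {w : ℂ} {C : ℝ} (hC : 0 ≤ C) (h : ∀ᶠ z in 𝓝 w, |u z - u w| ≤ C * ‖z - w‖) : ‖gc u w‖ ≤ 2 * C := by
  have h1 : ‖fderiv ℝ u w‖ ≤ C := norm_fderiv_le_of_lip' ℝ hC h
  have h2 : ‖fderiv ℝ u w 1‖ ≤ C := by
    refine (ContinuousLinearMap.le_opNorm _ _).trans ?_
    rw [norm_one, mul_one]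
    exact h1
  have h3 : ‖fderiv ℝ u w Complex.I‖ ≤ C := by
    refine (ContinuousLinearMap.le_opNorm _ _).trans ?_
    rw [Complex.norm_I, mul_one]
    exact h1
  unfold gc
  refine (norm_sub_le _ _).trans ?_
  rw [norm_mul, Complex.norm_I, one_mul, Complex.norm_real, Complex.norm_real]
  linarith

theorem harnack {u : ℂ → ℝ} {w : ℂ} {r : ℝ} (hr : 0 < r) (hu : ∀ z ∈ ball w r, HarmonicAt u z) (h0 : ∀ z ∈ ball w r, 0 ≤ u z) :
    ∀ z ∈ closedBall w (r / 2), u z ≤ 3 * u w := by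
  obtain ⟨g, hg, hre⟩ := InnerProductSpace.HarmonicOnNhd.exists_analyticOnNhd_ball_re_eq (f := u) (z := w) (R := r) hu
  have hw : w ∈ ball w r := mem_ball_self hr
  intro z hz
  have hz' : z ∈ ball w r := closedBall_subset_ball (by linarith) hz
  rw [mem_closedBall, dist_eq_norm] at hz
  apply le_of_forall_pos_le_add
  intro ε hε
  set H : ℂ → ℂ := fun y => g y + ((ε / 2 : ℝ) : ℂ) - Complex.I * ((g w).im : ℂ) with hH
  have hHd : DifferentiableOn ℂ H (ball w r) := by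
    intro y hy
    exact (((hg y hy).differentiableAt.add_const _).sub_const _).differentiableWithinAt
  have hHre : ∀ y ∈ ball w r, (H y).re = u y + ε / 2 := by
    intro y hy
    have e1 : (g y).re = u y := hre hy
    simp [hH, e1]
  have hHpos : ∀ y ∈ ball w r, 0 < (H y).re := by
    intro y hy
    rw [hHre y hy]
    have := h0 y hy
    linarith
  have hHw : (H w).im = 0 := by simp [hH]
  have hne : ∀ y ∈ ball w r, H y ≠ 0 := fun y hy h1 => by
    have := hHpos y hy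
    rw [h1] at this
    simp at this
  have hinv : ∀ y ∈ ball w r, 0 < ((H y)⁻¹).re := by
    intro y hy
    rw [Complex.inv_re]
    exact div_pos (hHpos y hy) (Complex.normSq_pos.2 (hne y hy))
  have h1 := Pool.Agent.EG.LE.harnack hr (H := fun y => (H y)⁻¹) (hHd.inv hne) hinv hz'
  have e1 : ((H w)⁻¹).re = (H w).re⁻¹ := by
    rw [Complex.inv_re, Complex.normSq_apply, hHw]
    have := (hHpos w hw).ne'
    field_simp
    ring
  have e2 : ((H z)⁻¹).re ≤ (H z).re⁻¹ := by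
    rw [Complex.inv_re, Complex.normSq_apply, inv_eq_one_div]
    have h2 := hHpos z hz'
    rw [div_le_div_iff₀ (by nlinarith [mul_self_nonneg (H z).im]) h2]
    nlinarith [mul_self_nonneg (H z).im]
  have e3 : (1 : ℝ) / 3 ≤ (r - ‖z - w‖) / (r + ‖z - w‖) := by
    rw [div_le_div_iff₀ (by norm_num) (by positivity)]
    linarith
  have h2 : (H w).re⁻¹ * (1 / 3) ≤ (H z).re⁻¹ := by
    refine le_trans ?_ (h1.trans e2)
    rw [e1]
    exact mul_le_mul_of_nonneg_left e3 (inv_nonneg.2 (hHpos w hw).le)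
  rw [hHre w hw, hHre z hz'] at h2
  have p1 : 0 < u w + ε / 2 := by have := h0 w hw; linarith
  have p2 : 0 < u z + ε / 2 := by have := h0 z hz'; linarith
  rw [inv_eq_one_div, inv_eq_one_div, div_mul_div_comm, one_mul, div_le_div_iff₀ (by positivity) p2] at h2
  linarith

/-- a nonnegative harmonic function on the plane is constant -/
theorem const_of_nonneg {u : ℂ → ℝ} (hu : ∀ z, HarmonicAt u z) (h0 : ∀ z, 0 ≤ u z) : ∀ z, u z = u 0 := by
  have h1 : HarmonicOnNhd u Set.univ := fun z _ => hu z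
  obtain ⟨g, hg, hre⟩ := InnerProductSpace.HarmonicOnNhd.exists_analyticOnNhd_univ_re_eq h1
  have hre' : ∀ z, (g z).re = u z := fun z => congrFun hre z
  have hgd : Differentiable ℂ g := fun z => (hg z (Set.mem_univ z)).differentiableAt
  have hd : Differentiable ℂ (fun z => Complex.exp (-g z)) := hgd.neg.cexp
  have hb : Bornology.IsBounded (Set.range fun z => Complex.exp (-g z)) := by
    rw [isBounded_iff_forall_norm_le]
    refine ⟨1, ?_⟩
    rintro _ ⟨z, rfl⟩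
    rw [Complex.norm_exp, Complex.neg_re, hre' z]
    exact Real.exp_le_one_iff.2 (by linarith [h0 z])
  intro z
  have h2 := hd.apply_eq_apply_of_bounded hb z 0
  have h3 := congrArg norm h2
  rw [Complex.norm_exp, Complex.norm_exp, Complex.neg_re, Complex.neg_re, hre', hre'] at h3
  have := Real.exp_injective h3
  linarith

end Pool.Agent.SR3

end
end
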