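import Pool.Agent.H43.TL2.M01
import Pool.Agent.H43.TL2.M07
import Pool.Agent.H43.TL2.M135

/-! The parts of this file: SR3.AGap, SR3.AHar, SR3.AThr, SR3.CLin, SR3.CRes, SR3.CAff, SR3.LSl. -/

section

/-!
# SR3 AGap: the wells

If `log ‖F z‖ ≤ B` and the distance `d` of `z` to the good points is large, let `r` be the distance of `z` to the set where `log ‖F‖ ≥ B + 1`: `r ≤ exp (-η d)` (`jump`);
three circles with the radii `r`, `d / 2` and `growth`: `F (z + r w)` has polynomial growth, uniformly.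
-/

set_option autoImplicit false

open Topology Filter Metric

noncomputable section

namespace Pool.Agent.SR3

open Pool.Agent.H36.BP (EN fs wd Sub)

variable {N : ℕ}

/-- Montel on the plane, along an ultrafilter -/
theorem gap_montel (𝒰 : Ultrafilter ℕ) {Φ : ℕ → ℂ → EN N} (hd : ∀ k, Differentiable ℂ (Φ k)) {b : ℝ → ℝ}
    (hb : ∀ R : ℝ, ∀ᶠ k in (𝒰 : Filter ℕ), ∀ z ∈ ball (0 : ℂ) R, ‖Φ k z‖ ≤ b R) :
    ∃ H : ℂ → EN N, Differentiable ℂ H ∧ TendstoLocallyUniformlyOn Φ H (𝒰 : Filter ℕ) Set.univ := by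
  have hmont : ∀ R : ℕ, ∃ h : ℂ → EN N, DifferentiableOn ℂ h (ball 0 (R + 1)) ∧
      TendstoLocallyUniformlyOn Φ h (𝒰 : Filter ℕ) (ball 0 (R + 1)) := fun R =>
    Pool.Agent.H17.montel_ultrafilter 𝒰 (Eventually.of_forall fun k => (hd k).differentiableOn) (hb _)
  choose h hdf hcv using hmont
  have hmem : ∀ z : ℂ, z ∈ ball (0 : ℂ) ((⌈‖z‖⌉₊ : ℕ) + 1) := by
    intro z
    rw [mem_ball_zero_iff]
    have := Nat.le_ceil ‖z‖
    linarith
  obtain ⟨H, hH⟩ : ∃ H : ℂ → EN N, H = fun z => h ⌈‖z‖⌉₊ z := ⟨_, rfl⟩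
  have hHt : ∀ z, Tendsto (fun k => Φ k z) (𝒰 : Filter ℕ) (𝓝 (H z)) := by
    intro z
    rw [hH]
    exact (hcv _).tendsto_at (hmem z)
  have hHR : ∀ R : ℕ, ∀ z ∈ ball (0 : ℂ) (R + 1), H z = h R z := fun R z hz =>
    tendsto_nhds_unique (hHt z) ((hcv R).tendsto_at hz)
  refine ⟨H, fun z => ?_, fun u hu z _ => ?_⟩
  · have hz := hmem z
    have h1 := (hdf _).differentiableAt (isOpen_ball.mem_nhds hz)
    refine h1.congr_of_eventuallyEq ?_
    filter_upwards [isOpen_ball.mem_nhds hz] with y hy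
    exact hHR _ y hy
  · have hz := hmem z
    obtain ⟨t, ht, hev⟩ := hcv _ u hu z hz
    have ht' : t ∈ 𝓝 z := by
      rwa [isOpen_ball.nhdsWithin_eq hz] at ht
    refine ⟨t ∩ ball 0 ((⌈‖z‖⌉₊ : ℕ) + 1), ?_, ?_⟩
    · rw [nhdsWithin_univ]
      exact inter_mem ht' (isOpen_ball.mem_nhds hz)
    · filter_upwards [hev] with k hk y hy
      rw [hHR _ y hy.2]
      exact hk y hy.1

end Pool.Agent.SR3

end
end

section

/-!
# SR3 AHar: Harnack for the real part of a holomorphic function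

Cayley transform and the Schwarz lemma: if `Re f ≥ 0`, `g = f - i Im f (z) + ε`, `A = g (z) > 0`, then `φ = (g - A) / (g + A)` maps the disc into the closed unit disc and
`φ (z) = 0`, so `|φ (w)| ≤ |w - z| / r`, `|φ' (z)| ≤ 1 / r`; `ε → 0`.
-/

set_option autoImplicit false

open Topology Filter Metric

noncomputable section

namespace Pool.Agent.SR3

private theorem cayley {f : ℂ → ℂ} {z : ℂ} {r : ℝ} (hr : 0 < r) (hf : DifferentiableOn ℂ f (ball z r)) (h0 : ∀ w ∈ ball z r, 0 ≤ (f w).re) {A : ℝ}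
    (hA : 0 < A) (hz : f z = A) :
    (∀ w ∈ ball z r, ‖f w - A‖ ≤ ‖w - z‖ / r * ‖f w + A‖) ∧ ‖deriv f z‖ ≤ 2 * A / r := by
  have hne : ∀ w ∈ ball z r, f w + A ≠ 0 := by
    intro w hw h
    have h1 := congrArg Complex.re h
    rw [Complex.add_re, Complex.ofReal_re, Complex.zero_re] at h1
    linarith [h0 w hw]
  obtain ⟨φ, hφ⟩ : ∃ φ : ℂ → ℂ, φ = fun w => (f w - A) / (f w + A) := ⟨_, rfl⟩
  have hφw : ∀ w, φ w = (f w - A) / (f w + A) := fun w => by rw [hφ]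
  have hφd : DifferentiableOn ℂ φ (ball z r) := by
    rw [hφ]
    exact (hf.sub_const _).div (hf.add_const _) hne
  have hφz : φ z = 0 := by rw [hφw, hz, sub_self, zero_div]
  have hmaps : Set.MapsTo φ (ball z r) (closedBall (φ z) 1) := by
    intro w hw
    rw [hφz, mem_closedBall_zero_iff, hφw, norm_div, div_le_one (norm_pos_iff.2 (hne w hw))]
    rw [← abs_of_nonneg (norm_nonneg (f w - A)), ← abs_of_nonneg (norm_nonneg (f w + A)), ← sq_le_sq, Complex.sq_norm, Complex.sq_norm,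
      Complex.normSq_apply, Complex.normSq_apply]
    simp only [Complex.sub_re, Complex.add_re, Complex.sub_im, Complex.add_im, Complex.ofReal_re, Complex.ofReal_im]
    nlinarith [mul_nonneg hA.le (h0 w hw)]
  constructor
  · intro w hw
    have h1 := Complex.dist_le_div_mul_dist_of_mapsTo_ball hφd hmaps hw
    rw [hφz, dist_zero_right, dist_eq_norm] at h1
    have h2 : ‖f w - A‖ = ‖φ w‖ * ‖f w + A‖ := by
      rw [hφw, norm_div, div_mul_cancel₀ _ (norm_ne_zero_iff.2 (hne w hw))]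
    rw [h2]
    refine mul_le_mul_of_nonneg_right ?_ (norm_nonneg _)
    calc ‖φ w‖ ≤ 1 / r * ‖w - z‖ := h1
      _ = ‖w - z‖ / r := by ring
  · have h1 := Complex.norm_deriv_le_div_of_mapsTo_ball hφd hmaps hr
    have hzr : z ∈ ball z r := mem_ball_self hr
    have hfd : HasDerivAt f (deriv f z) z := (hf.differentiableAt (isOpen_ball.mem_nhds hzr)).hasDerivAt
    have h2 : HasDerivAt φ ((deriv f z * (f z + A) - (f z - A) * deriv f z) / (f z + A) ^ 2) z := by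
      rw [hφ]
      exact (hfd.sub_const _).div (hfd.add_const _) (hne z hzr)
    have hA' : (A : ℂ) ≠ 0 := by exact_mod_cast hA.ne'
    have h3 : deriv φ z = deriv f z / (2 * A) := by
      rw [h2.deriv, hz, sub_self, zero_mul, sub_zero]
      field_simp
      ring
    rw [h3, norm_div] at h1
    have h4 : ‖(2 * A : ℂ)‖ = 2 * A := by
      rw [norm_mul, Complex.norm_real, Real.norm_of_nonneg hA.le]
      simp
    rw [h4, div_le_iff₀ (by positivity)] at h1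
    calc ‖deriv f z‖ ≤ 1 / r * (2 * A) := h1
      _ = 2 * A / r := by ring

private theorem shift {f : ℂ → ℂ} {z : ℂ} {r : ℝ} (hr : 0 < r) (hf : DifferentiableOn ℂ f (ball z r)) (h0 : ∀ w ∈ ball z r, 0 ≤ (f w).re) {ε : ℝ} (hε : 0 < ε) :
    (∀ w : ℂ, ‖w - z‖ ≤ r / 2 → (f w).re + ε ≤ 3 * ((f z).re + ε)) ∧ ‖deriv f z‖ ≤ 2 * ((f z).re + ε) / r := by
  have hz0 := h0 z (mem_ball_self hr)
  have hA : 0 < (f z).re + ε := by linarith
  obtain ⟨g, hg⟩ : ∃ g : ℂ → ℂ, g = fun w => f w + ((ε : ℂ) - (f z).im * Complex.I) := ⟨_, rfl⟩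
  have hgw : ∀ w, g w = f w + ((ε : ℂ) - (f z).im * Complex.I) := fun w => by rw [hg]
  have hgre : ∀ w, (g w).re = (f w).re + ε := fun w => by
    rw [hgw, Complex.add_re, Complex.sub_re, Complex.ofReal_re]
    simp
  have hgd : DifferentiableOn ℂ g (ball z r) := by
    rw [hg]
    exact hf.add_const _
  have hgz : g z = (((f z).re + ε : ℝ) : ℂ) := by
    rw [hgw]
    conv_lhs => rw [← Complex.re_add_im (f z)]
    simp only [Complex.add_im, Complex.mul_im, Complex.ofReal_im, Complex.ofReal_re, Complex.I_re, Complex.I_im]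
    push_cast
    ring
  obtain ⟨h1, h2⟩ := cayley hr hgd (fun w hw => by rw [hgre]; linarith [h0 w hw]) hA hgz
  constructor
  · intro w hw
    have hwr : w ∈ ball z r := by
      rw [mem_ball_iff_norm]
      linarith
    have h3 := h1 w hwr
    have h4 : ‖w - z‖ / r ≤ 1 / 2 := by
      rw [div_le_iff₀ hr]
      linarith
    have h5 : ‖g w - (((f z).re + ε : ℝ) : ℂ)‖ ≤ 1 / 2 * (‖g w‖ + ((f z).re + ε)) := by
      refine h3.trans (mul_le_mul h4 ?_ (norm_nonneg _) (by norm_num))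
      refine (norm_add_le _ _).trans (le_of_eq ?_)
      rw [Complex.norm_real, Real.norm_of_nonneg hA.le]
    have h6 : ‖g w‖ ≤ ‖g w - (((f z).re + ε : ℝ) : ℂ)‖ + ((f z).re + ε) := by
      have h7 := norm_add_le (g w - (((f z).re + ε : ℝ) : ℂ)) (((f z).re + ε : ℝ) : ℂ)
      rwa [sub_add_cancel, Complex.norm_real, Real.norm_of_nonneg hA.le] at h7
    have h7 : (g w).re ≤ ‖g w‖ := Complex.re_le_norm _
    rw [hgre] at h7
    linarith
  · have h3 : deriv g z = deriv f z := by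
      rw [hg]
      exact deriv_add_const _
    rwa [h3] at h2

theorem harnack_re {f : ℂ → ℂ} {z : ℂ} {r : ℝ} (hr : 0 < r) (hf : DifferentiableOn ℂ f (ball z r)) (h0 : ∀ w ∈ ball z r, 0 ≤ (f w).re) {w : ℂ}
    (hw : ‖w - z‖ ≤ r / 2) : (f w).re ≤ 3 * (f z).re := by
  refine le_of_forall_pos_le_add fun ε hε => ?_
  have h1 := (shift hr hf h0 (half_pos hε)).1 w hw
  linarith

theorem deriv_le_re {f : ℂ → ℂ} {z : ℂ} {r : ℝ} (hr : 0 < r) (hf : DifferentiableOn ℂ f (ball z r)) (h0 : ∀ w ∈ ball z r, 0 ≤ (f w).re) :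
    ‖deriv f z‖ ≤ 2 * (f z).re / r := by
  refine le_of_forall_pos_le_add fun ε hε => ?_
  have h1 := (shift hr hf h0 (ε := ε * r / 2) (by positivity)).2
  have h2 : 2 * ((f z).re + ε * r / 2) / r = 2 * (f z).re / r + ε := by
    field_simp
  linarith

end Pool.Agent.SR3

end
end

section

/-!
# SR3 AThr: three circles

`Complex.HadamardThreeLines` for `F (z + exp s)`.
-/

set_option autoImplicit false

open Topology Filter Metric

noncomputable section

namespace Pool.Agent.SR3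

open Pool.Agent.H36.BP (EN)

variable {N : ℕ}

theorem three_circles {F : ℂ → EN N} (hF : Differentiable ℂ F) {z : ℂ} {r₁ r₂ m₁ m₂ : ℝ} (h1 : 0 < r₁) (h2 : r₁ < r₂)
    (hm1 : ∀ w, ‖w - z‖ = r₁ → ‖F w‖ ≤ Real.exp m₁) (hm2 : ∀ w, ‖w - z‖ = r₂ → ‖F w‖ ≤ Real.exp m₂) :
    ∀ w, r₁ ≤ ‖w - z‖ → ‖w - z‖ ≤ r₂ →
      ‖F w‖ ≤ Real.exp (((Real.log r₂ - Real.log ‖w - z‖) * m₁ + (Real.log ‖w - z‖ - Real.log r₁) * m₂) / (Real.log r₂ - Real.log r₁)) := by
  intro w hw1 hw2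
  have hlt : Real.log r₁ < Real.log r₂ := Real.log_lt_log h1 h2
  have hpos : 0 < ‖w - z‖ := lt_of_lt_of_le h1 hw1
  have hne : w - z ≠ 0 := norm_pos_iff.1 hpos
  -- the function on the strip
  have hd : Differentiable ℂ fun s : ℂ => F (z + Complex.exp s) :=
    hF.comp ((differentiable_const z).add Complex.differentiable_exp)
  have hexp : ∀ s : ℂ, ‖z + Complex.exp s - z‖ = Real.exp s.re := fun s => by
    rw [add_sub_cancel_left, Complex.norm_exp]
  have hB : BddAbove ((norm ∘ fun s : ℂ => F (z + Complex.exp s)) '' Complex.HadamardThreeLines.verticalClosedStrip (Real.log r₁) (Real.log r₂)) := by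
    have h3 : BddAbove ((fun w => ‖F w‖) '' closedBall z r₂) :=
      (isCompact_closedBall z r₂).bddAbove_image hF.continuous.norm.continuousOn
    refine h3.mono ?_
    rintro _ ⟨s, hs, rfl⟩
    refine ⟨z + Complex.exp s, ?_, rfl⟩
    rw [mem_closedBall, dist_eq_norm, hexp]
    have h4 : s.re ≤ Real.log r₂ := hs.2
    calc Real.exp s.re ≤ Real.exp (Real.log r₂) := Real.exp_le_exp.2 h4
      _ = r₂ := Real.exp_log (h1.trans h2)
  have hre : (Complex.log (w - z)).re = Real.log ‖w - z‖ := Complex.log_re _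
  have hz : Complex.log (w - z) ∈ Complex.HadamardThreeLines.verticalClosedStrip (Real.log r₁) (Real.log r₂) := by
    change (Complex.log (w - z)).re ∈ Set.Icc (Real.log r₁) (Real.log r₂)
    rw [hre]
    exact ⟨Real.log_le_log h1 hw1, Real.log_le_log hpos hw2⟩
  have h5 := Complex.HadamardThreeLines.norm_le_interp_of_mem_verticalClosedStrip' (f := fun s : ℂ => F (z + Complex.exp s))
    (z := Complex.log (w - z)) (a := Real.exp m₁) (b := Real.exp m₂) hlt hz hd.diffContOnCl hB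
    (fun s hs => hm1 _ (by
      rw [hexp]
      have h6 : s.re = Real.log r₁ := hs
      rw [h6, Real.exp_log h1]))
    (fun s hs => hm2 _ (by
      rw [hexp]
      have h6 : s.re = Real.log r₂ := hs
      rw [h6, Real.exp_log (h1.trans h2)]))
  have h6 : z + Complex.exp (Complex.log (w - z)) = w := by
    rw [Complex.exp_log hne, add_sub_cancel]
  rw [hre] at h5
  change ‖F (z + Complex.exp (Complex.log (w - z)))‖ ≤ _ at h5
  rw [h6, ← Real.exp_mul, ← Real.exp_mul, ← Real.exp_add] at h5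
  refine h5.trans (le_of_eq ?_)
  congr 1
  have h7 : Real.log r₂ - Real.log r₁ ≠ 0 := (sub_pos.2 hlt).ne'
  field_simp
  ring

end Pool.Agent.SR3

end
end

section

/-!
# SR3 CLin: a binary form is a power of the linear form `Lf a` times a form which does not vanish at `a`

Induction on `m`: a homogeneous `P` with `P (a) = 0` is divisible by `Lf a`, because `a 1 ^ m * P = P (a 0 X 1 , a 1 X 1) = 0` modulo `Lf a`.
-/

set_option autoImplicit false

open MvPolynomial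

noncomputable section

namespace Pool.Agent.SR3

/-- modulo `Lf a` the variables are proportional -/
private theorem CLin_cong (a : Fin 2 → ℕ) (P : MvPolynomial (Fin 2) ℂ) :
    Lf a ∣ aeval (fun i => C (a 1 : ℂ) * X i : Fin 2 → MvPolynomial (Fin 2) ℂ) P - aeval (fun i => C (a i : ℂ) * X 1 : Fin 2 → MvPolynomial (Fin 2) ℂ) P := by
  induction P using MvPolynomial.induction_on with
  | C c => rw [aeval_C, aeval_C, sub_self]; exact dvd_zero _
  | add p q hp hq =>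
    rw [map_add, map_add, add_sub_add_comm]
    exact dvd_add hp hq
  | mul_X p i hp =>
    rw [map_mul, map_mul, aeval_X, aeval_X]
    have h1 : Lf a ∣ C (a 1 : ℂ) * X i - C (a i : ℂ) * X 1 := by
      fin_cases i
      · exact dvd_refl _
      · show Lf a ∣ C (a 1 : ℂ) * X 1 - C (a 1 : ℂ) * X 1
        rw [sub_self]
        exact dvd_zero _
    have h2 : ∀ u v s t : MvPolynomial (Fin 2) ℂ, u * s - v * t = (u - v) * s + v * (s - t) := fun u v s t => by ring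
    rw [h2]
    exact dvd_add (hp.mul_right _) (h1.mul_left _)

/-- scaling of a homogeneous polynomial by a constant -/
private theorem CLin_scale {m : ℕ} {P : MvPolynomial (Fin 2) ℂ} (hP : P.IsHomogeneous m) (u : MvPolynomial (Fin 2) ℂ) (y : Fin 2 → MvPolynomial (Fin 2) ℂ) :
    aeval (fun i => u * y i) P = u ^ m * aeval y P := by
  rw [aeval_def, eval₂_eq', aeval_def, eval₂_eq', Finset.mul_sum]
  refine Finset.sum_congr rfl fun d hd => ?_
  have h1 : ∑ i, d i = m := by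
    have h2 := hP (mem_support_iff.1 hd)
    rw [Finsupp.weight_apply, Finsupp.sum_fintype _ _ (fun i => by simp)] at h2
    simpa using h2
  simp only [mul_pow, Finset.prod_mul_distrib, Finset.prod_pow_eq_pow_sum, h1]
  ring

private theorem CLin_const (a : Fin 2 → ℕ) (P : MvPolynomial (Fin 2) ℂ) :
    aeval (fun i => C (a i : ℂ) : Fin 2 → MvPolynomial (Fin 2) ℂ) P = C (eval (fun i => (a i : ℂ)) P) := by
  induction P using MvPolynomial.induction_on with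
  | C c => rw [aeval_C, eval_C]; rfl
  | add p q hp hq => rw [map_add, map_add, map_add, hp, hq]
  | mul_X p i hp => rw [map_mul, map_mul, map_mul, hp, aeval_X, eval_X]

/-- the value at `a` -/
private theorem CLin_val {m : ℕ} {P : MvPolynomial (Fin 2) ℂ} (hP : P.IsHomogeneous m) (a : Fin 2 → ℕ) :
    aeval (fun i => C (a i : ℂ) * X 1 : Fin 2 → MvPolynomial (Fin 2) ℂ) P = X 1 ^ m * C (eval (fun i => (a i : ℂ)) P) := by
  have h1 : (fun i => C (a i : ℂ) * X 1 : Fin 2 → MvPolynomial (Fin 2) ℂ) = fun i => X 1 * C (a i : ℂ) := by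
    funext i
    exact mul_comm _ _
  rw [h1, CLin_scale hP, CLin_const]

private theorem CLin_dvd {m : ℕ} {P : MvPolynomial (Fin 2) ℂ} (hP : P.IsHomogeneous m) (a : Fin 2 → ℕ) (ha : a 1 ≠ 0) (h0 : eval (fun i => (a i : ℂ)) P = 0) :
    Lf a ∣ P := by
  have h1 := CLin_cong a P
  have h2 : aeval (fun i => X i : Fin 2 → MvPolynomial (Fin 2) ℂ) P = P := aeval_X_left_apply P
  rw [CLin_val hP, h0, C_0, mul_zero, sub_zero, CLin_scale hP, h2, ← C_pow] at h1
  have h3 : ((a 1 : ℂ) ^ m) ≠ 0 := pow_ne_zero _ (by exact_mod_cast ha)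
  have h4 : P = C (((a 1 : ℂ) ^ m)⁻¹) * (C ((a 1 : ℂ) ^ m) * P) := by
    rw [← mul_assoc, ← C_mul, inv_mul_cancel₀ h3, C_1, one_mul]
  rw [h4]
  exact h1.mul_left _

private theorem CLin_hom (a : Fin 2 → ℕ) : (Lf a).IsHomogeneous 1 := by
  have h1 : ∀ (c : ℂ) (i : Fin 2), (C c * X i : MvPolynomial (Fin 2) ℂ).IsHomogeneous 1 := fun c i => by
    simpa using (isHomogeneous_C (Fin 2) c).mul (isHomogeneous_X ℂ i)
  exact (h1 _ _).sub (h1 _ _)

private theorem CLin_ne (a : Fin 2 → ℕ) (ha : a 1 ≠ 0) : Lf a ≠ 0 := by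
  intro h
  have h1 := congrArg (eval (fun i : Fin 2 => if i = 0 then (1 : ℂ) else 0)) h
  simp [Lf] at h1
  exact ha h1

/-- the quotient of a form by `Lf a` is a form -/
private theorem CLin_quot {m : ℕ} {P Q : MvPolynomial (Fin 2) ℂ} (hP : P.IsHomogeneous (m + 1)) (a : Fin 2 → ℕ) (ha : a 1 ≠ 0) (h : P = Lf a * Q) :
    Q.IsHomogeneous m := by
  have h1 : Q = homogeneousComponent m Q := by
    have h2 : Lf a * (Q - homogeneousComponent m Q) = 0 := by
      have h3 : ∀ i, homogeneousComponent (m + 1) (Lf a * homogeneousComponent i Q) = if i = m then Lf a * homogeneousComponent i Q else 0 := fun i => by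
        rw [homogeneousComponent_of_mem ((CLin_hom a).mul (homogeneousComponent_isHomogeneous i Q))]
        by_cases h4 : i = m
        · rw [if_pos (by omega), if_pos h4]
        · rw [if_neg (by omega), if_neg h4]
      have h5 : homogeneousComponent (m + 1) (Lf a * Q) = Lf a * homogeneousComponent m Q := by
        conv_lhs => rw [← sum_homogeneousComponent Q, Finset.mul_sum, map_sum]
        rw [Finset.sum_congr rfl (fun i _ => h3 i), Finset.sum_ite_eq']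
        split_ifs with h6
        · rfl
        · rw [homogeneousComponent_eq_zero m Q (by rw [Finset.mem_range] at h6; omega), mul_zero]
      rw [mul_sub, ← h5, ← h, homogeneousComponent_eq_self hP, sub_self]
    rcases mul_eq_zero.1 h2 with h3 | h3
    · exact absurd h3 (CLin_ne a ha)
    · exact sub_eq_zero.1 h3
  rw [h1]
  exact homogeneousComponent_isHomogeneous m Q

theorem lin_factor {m : ℕ} {P : MvPolynomial (Fin 2) ℂ} (hP : P.IsHomogeneous m) (h0 : P ≠ 0) (a : Fin 2 → ℕ) (ha : a 1 ≠ 0) :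
    ∃ (e : ℕ) (P' : MvPolynomial (Fin 2) ℂ), e ≤ m ∧ P'.IsHomogeneous (m - e) ∧ P = Lf a ^ e * P' ∧ MvPolynomial.eval (fun i => (a i : ℂ)) P' ≠ 0 := by
  induction m generalizing P with
  | zero =>
    refine ⟨0, P, le_refl _, hP, by rw [pow_zero, one_mul], ?_⟩
    have h1 : P = C (coeff 0 P) := (totalDegree_eq_zero_iff_eq_C.1 (Nat.le_zero.1 hP.totalDegree_le))
    rw [h1, eval_C]
    intro h2
    rw [h2, C_0] at h1
    exact h0 h1
  | succ m ih =>
    by_cases h1 : eval (fun i => (a i : ℂ)) P = 0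
    · obtain ⟨Q, hQ⟩ := CLin_dvd hP a ha h1
      have hQ0 : Q ≠ 0 := by
        rintro rfl
        rw [mul_zero] at hQ
        exact h0 hQ
      obtain ⟨e, P', h2, h3, h4, h5⟩ := ih (CLin_quot hP a ha hQ) hQ0
      refine ⟨e + 1, P', by omega, ?_, ?_, h5⟩
      · have h6 : m + 1 - (e + 1) = m - e := by omega
        rw [h6]
        exact h3
      · rw [hQ, h4, pow_succ]
        ring
    · exact ⟨0, P, Nat.zero_le _, hP, by rw [pow_zero, one_mul], h1⟩

end Pool.Agent.SR3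

end
end

section

/-!
# SR3 CRes: restriction to a smaller disc whose boundary meets no hole

`h' i = h i + ∑ M k i log (z - ζ k)` over the wells outside (a branch of the logarithm on the ball).
-/

set_option autoImplicit false

open Metric

noncomputable section

namespace Pool.Agent.SR3

variable {κ : Type} [Fintype κ]

/-- a branch of `log (z - c)` on a ball which does not contain `c` -/
private def lgc (z₁ c z : ℂ) : ℂ := Complex.log ((z - c) / (z₁ - c)) + Complex.log (z₁ - c)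

private theorem lgc_mem {z₁ c z : ℂ} {ρ₁ : ℝ} (hc : ρ₁ < ‖c - z₁‖) (hz : z ∈ ball z₁ ρ₁) : z₁ - c ≠ 0 ∧ z - c ≠ 0 ∧ (z - c) / (z₁ - c) ∈ Complex.slitPlane := by
  rw [mem_ball, dist_eq_norm] at hz
  have h1 : ‖z - z₁‖ < ‖z₁ - c‖ := by
    rw [norm_sub_rev z₁ c]
    exact hz.trans hc
  have h0 : 0 < ‖z₁ - c‖ := lt_of_le_of_lt (norm_nonneg _) h1
  have hne : z₁ - c ≠ 0 := norm_pos_iff.1 h0
  have h2 : (z - c) / (z₁ - c) = 1 + (z - z₁) / (z₁ - c) := by
    field_simp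
    ring
  have h3 : ‖(z - z₁) / (z₁ - c)‖ < 1 := by
    rw [norm_div, div_lt_one h0]
    exact h1
  have h4 : 0 < ((z - c) / (z₁ - c)).re := by
    rw [h2, Complex.add_re, Complex.one_re]
    have h5 := Complex.abs_re_le_norm ((z - z₁) / (z₁ - c))
    have h6 := abs_lt.1 (lt_of_le_of_lt h5 h3)
    linarith [h6.1]
  refine ⟨hne, ?_, Or.inl h4⟩
  intro h5
  rw [h5, zero_div] at h4
  simp at h4

private theorem lgc_re {z₁ c z : ℂ} {ρ₁ : ℝ} (hc : ρ₁ < ‖c - z₁‖) (hz : z ∈ ball z₁ ρ₁) : (lgc z₁ c z).re = Real.log ‖z - c‖ := by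
  obtain ⟨h1, h2, -⟩ := lgc_mem hc hz
  rw [lgc, Complex.add_re, Complex.log_re, Complex.log_re, norm_div, Real.log_div (norm_ne_zero_iff.2 h2) (norm_ne_zero_iff.2 h1)]
  ring

private theorem lgc_deriv {z₁ c z : ℂ} {ρ₁ : ℝ} (hc : ρ₁ < ‖c - z₁‖) (hz : z ∈ ball z₁ ρ₁) : HasDerivAt (lgc z₁ c) (1 / (z - c)) z := by
  obtain ⟨h1, h2, h3⟩ := lgc_mem hc hz
  have h4 : HasDerivAt (fun z : ℂ => (z - c) / (z₁ - c)) (1 / (z₁ - c)) z := ((hasDerivAt_id z).sub_const c).div_const _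
  have h5 := (h4.clog h3).add_const (Complex.log (z₁ - c))
  have h6 : 1 / (z₁ - c) / ((z - c) / (z₁ - c)) = 1 / (z - c) := by
    field_simp
  rw [h6] at h5
  exact h5

theorem wd_restrict {ζ : κ → ℂ} {s : κ → ℝ} {M : κ → Fin 2 → ℕ} {h : Fin 2 → ℂ → ℂ} {z₀ : ℂ} {ρ C η K : ℝ} (W : Wd ζ s M h z₀ ρ C η K) (hC : 1 ≤ C) (hη : 0 < η)
    (hK : 2 ≤ K) {z₁ : ℂ} {ρ₁ A : ℝ} (hρ₁ : 0 < ρ₁) (hb : ball z₁ ρ₁ ⊆ ball z₀ ρ) (hA : 1 ≤ A) (hρA : ρ ≤ A * ρ₁) (hl : ρ₁ ≤ ρ)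
    (hm : ∀ k, ρ₁ + s k < ‖ζ k - z₁‖ ∨ ‖ζ k - z₁‖ + s k < ρ₁) :
    ∃ (κ' : Type) (_ : Fintype κ') (e : κ' → κ) (h' : Fin 2 → ℂ → ℂ), Function.Injective e ∧ (∀ k, ζ k ∈ ball z₁ ρ₁ ↔ ∃ k', e k' = k) ∧
      Wd (ζ ∘ e) (s ∘ e) (M ∘ e) h' z₁ ρ₁ (A * C) η K ∧ ∀ i, ∀ z ∈ ball z₁ ρ₁, (∀ k, s k ≤ ‖z - ζ k‖) →
        sg (ζ ∘ e) (M ∘ e) h' i z = sg ζ M h i z ∧ sl (ζ ∘ e) (M ∘ e) h' i z = sl ζ M h i z := by
  classical
  -- the wells outside
  have hout : ∀ k, ζ k ∉ ball z₁ ρ₁ → ρ₁ + s k < ‖ζ k - z₁‖ := by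
    intro k hk
    rcases hm k with h1 | h1
    · exact h1
    · refine absurd ?_ hk
      rw [mem_ball, dist_eq_norm]
      linarith [W.s_pos k]
  have hout' : ∀ k, ζ k ∉ ball z₁ ρ₁ → ρ₁ < ‖ζ k - z₁‖ := fun k hk => by linarith [hout k hk, W.s_pos k]
  have hfar : ∀ k, ζ k ∉ ball z₁ ρ₁ → ∀ z ∈ ball z₁ ρ₁, s k ≤ ‖z - ζ k‖ := by
    intro k hk z hz
    rw [mem_ball, dist_eq_norm] at hz
    have h1 : ‖ζ k - z₁‖ ≤ ‖z - ζ k‖ + ‖z - z₁‖ := by
      have : ζ k - z₁ = -(z - ζ k) + (z - z₁) := by ring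
      rw [this]
      refine (norm_add_le _ _).trans ?_
      rw [norm_neg]
    linarith [hout k hk]
  set e : {k // ζ k ∈ ball z₁ ρ₁} → κ := Subtype.val with he
  set h' : Fin 2 → ℂ → ℂ := fun i z => h i z + ∑ k ∈ Finset.univ.filter (fun k => ζ k ∉ ball z₁ ρ₁), (M k i : ℂ) * lgc z₁ (ζ k) z with hh'
  have hsplitR : ∀ f : κ → ℝ, ∑ k, f k = ∑ k' : {k // ζ k ∈ ball z₁ ρ₁}, f (e k') + ∑ k ∈ Finset.univ.filter (fun k => ζ k ∉ ball z₁ ρ₁), f k := by
    intro f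
    rw [← Finset.sum_filter_add_sum_filter_not Finset.univ (fun k => ζ k ∈ ball z₁ ρ₁) f]
    congr 1
    exact (Finset.sum_subtype (Finset.univ.filter fun k => ζ k ∈ ball z₁ ρ₁) (fun x => by simp) f)
  have hsplitC : ∀ f : κ → ℂ, ∑ k, f k = ∑ k' : {k // ζ k ∈ ball z₁ ρ₁}, f (e k') + ∑ k ∈ Finset.univ.filter (fun k => ζ k ∉ ball z₁ ρ₁), f k := by
    intro f
    rw [← Finset.sum_filter_add_sum_filter_not Finset.univ (fun k => ζ k ∈ ball z₁ ρ₁) f]
    congr 1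
    exact (Finset.sum_subtype (Finset.univ.filter fun k => ζ k ∈ ball z₁ ρ₁) (fun x => by simp) f)
  have hsg : ∀ i, ∀ z ∈ ball z₁ ρ₁, sg (ζ ∘ e) (M ∘ e) h' i z = sg ζ M h i z := by
    intro i z hz
    have h1 : (h' i z).re = (h i z).re + ∑ k ∈ Finset.univ.filter (fun k => ζ k ∉ ball z₁ ρ₁), (M k i : ℝ) * Real.log ‖z - ζ k‖ := by
      rw [hh', Complex.add_re, Complex.re_sum]
      congr 1
      refine Finset.sum_congr rfl fun k hk => ?_
      rw [Finset.mem_filter] at hk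
      have h2 : ((M k i : ℂ) * lgc z₁ (ζ k) z).re = (M k i : ℝ) * (lgc z₁ (ζ k) z).re := by
        rw [← Complex.ofReal_natCast, Complex.re_ofReal_mul]
      rw [h2, lgc_re (hout' k hk.2) hz]
    rw [sg, sg, h1, hsplitR fun k => (M k i : ℝ) * Real.log ‖z - ζ k‖]
    simp only [Function.comp_apply]
    ring
  have hhd : ∀ i, ∀ z ∈ ball z₁ ρ₁, HasDerivAt (h' i) (deriv (h i) z + ∑ k ∈ Finset.univ.filter (fun k => ζ k ∉ ball z₁ ρ₁), (M k i : ℂ) / (z - ζ k)) z := by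
    intro i z hz
    have h1 : HasDerivAt (h i) (deriv (h i) z) z := ((W.hol i).differentiableAt (isOpen_ball.mem_nhds (hb hz))).hasDerivAt
    refine h1.add ?_
    have h2 : ∀ k ∈ Finset.univ.filter (fun k => ζ k ∉ ball z₁ ρ₁), HasDerivAt (fun z => (M k i : ℂ) * lgc z₁ (ζ k) z) ((M k i : ℂ) / (z - ζ k)) z := by
      intro k hk
      rw [Finset.mem_filter] at hk
      have h3 := (lgc_deriv (hout' k hk.2) hz).const_mul (M k i : ℂ)
      rwa [mul_one_div] at h3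
    have h3 := HasDerivAt.fun_sum h2
    exact h3
  have hsl : ∀ i, ∀ z ∈ ball z₁ ρ₁, sl (ζ ∘ e) (M ∘ e) h' i z = sl ζ M h i z := by
    intro i z hz
    rw [sl, sl, (hhd i z hz).deriv, hsplitC fun k => (M k i : ℂ) / (z - ζ k)]
    simp only [Function.comp_apply]
    ring
  have hall : ∀ z ∈ ball z₁ ρ₁, (∀ k' : {k // ζ k ∈ ball z₁ ρ₁}, s (e k') ≤ ‖z - ζ (e k')‖) → ∀ k, s k ≤ ‖z - ζ k‖ := by
    intro z hz h1 k
    by_cases hk : ζ k ∈ ball z₁ ρ₁
    · exact h1 ⟨k, hk⟩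
    · exact hfar k hk z hz
  have hC0 : 0 ≤ C := by linarith
  have hAC : C ≤ A * C := by nlinarith
  refine ⟨{k // ζ k ∈ ball z₁ ρ₁}, inferInstance, e, h', Subtype.val_injective, fun k => ⟨fun hk => ⟨⟨k, hk⟩, rfl⟩, ?_⟩, ?_, fun i z hz _ => ⟨hsg i z hz, hsl i z hz⟩⟩
  · rintro ⟨k', rfl⟩
    exact k'.2
  · refine ⟨fun i z hz => (hhd i z hz).differentiableAt.differentiableWithinAt, fun k => k.2, fun k i => W.one _ _, fun k i => (W.M_le _ _).trans hAC,
      fun k => W.s_pos _, fun k => (W.s_le _).trans (Real.exp_le_exp.2 ?_), fun j k hjk => W.sep _ _ fun h1 => hjk (Subtype.val_injective h1),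
      fun j k hjk => W.sepN _ _ hjk, ?_, ?_, ?_, ?_⟩
    · nlinarith
    · have h1 : (Fintype.card {k // ζ k ∈ ball z₁ ρ₁} : ℝ) ≤ Fintype.card κ := by exact_mod_cast Fintype.card_subtype_le _
      refine h1.trans (W.card.trans ?_)
      nlinarith
    · intro i z hz h1
      rw [hsg i z hz]
      have h2 := W.low i z (hb hz) (hall z hz h1)
      linarith
    · intro i z hz h1
      rw [hsg i z hz]
      refine (W.upp i z (hb hz) (hall z hz h1)).trans ?_
      nlinarith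
    · intro k i z hz h1
      rw [hsg i z hz]
      exact (W.rim _ i z (hb hz) h1).trans hAC

/-- a circle which meets no hole -/
theorem good_circle {ζ : κ → ℂ} {s : κ → ℝ} (hs : ∀ k, 0 ≤ s k) {z₁ : ℂ} {r₁ r₂ : ℝ} (h : 2 * ∑ k, s k < r₂ - r₁) :
    ∃ r : ℝ, r₁ ≤ r ∧ r ≤ r₂ ∧ ∀ k, r + s k < ‖ζ k - z₁‖ ∨ ‖ζ k - z₁‖ + s k < r := by
  classical
  by_contra hcon
  push Not at hcon
  have hsub : Set.Icc r₁ r₂ ⊆ ⋃ k, Set.Icc (‖ζ k - z₁‖ - s k) (‖ζ k - z₁‖ + s k) := by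
    intro r hr
    obtain ⟨k, h1, h2⟩ := hcon r hr.1 hr.2
    exact Set.mem_iUnion.2 ⟨k, by constructor <;> linarith⟩
  have h1 : MeasureTheory.volume (Set.Icc r₁ r₂) ≤ ∑ k, MeasureTheory.volume (Set.Icc (‖ζ k - z₁‖ - s k) (‖ζ k - z₁‖ + s k)) :=
    (MeasureTheory.measure_mono hsub).trans (MeasureTheory.measure_iUnion_fintype_le _ _)
  simp only [Real.volume_Icc] at h1
  have h2 : ∀ k, ‖ζ k - z₁‖ + s k - (‖ζ k - z₁‖ - s k) = 2 * s k := fun k => by ring
  simp only [h2] at h1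
  rw [← ENNReal.ofReal_sum_of_nonneg fun k _ => by linarith [hs k], ← Finset.mul_sum] at h1
  have h3 : 0 ≤ 2 * ∑ k, s k := by
    have := Finset.sum_nonneg fun k (_ : k ∈ Finset.univ) => hs k
    linarith
  have h4 := (ENNReal.ofReal_le_ofReal_iff h3).1 h1
  linarith

end Pool.Agent.SR3

end
end

section

/-!
# SR3 CAff: the pure case

`ℓ = a 1 sl 0 - a 0 sl 1 = a 1 deriv (h 0) - a 0 deriv (h 1)` is holomorphic; `|b ℓ ^ m - q| ≤ θ'` on a circle which meets no tiny disc, so inside it (maximum principle).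
Cauchy's estimate for `b ℓ ^ m - q` and `|b ℓ ^ m| ≥ c / 2` bound `ℓ'`, so `ℓ` is almost constant: `l := ℓ (z₀)`.
-/

set_option autoImplicit false

open Metric

noncomputable section

namespace Pool.Agent.SR3

private theorem le_one_add_pow {x : ℝ} (hx : 0 ≤ x) {m : ℕ} (hm : 1 ≤ m) : x ≤ 1 + x ^ m := by
  rcases le_total x 1 with h | h
  · have := pow_nonneg hx m
    linarith
  · have := le_self_pow₀ h (by omega : m ≠ 0)
    linarith

private theorem val_bound {w b q : ℂ} {m : ℕ} (hm : 1 ≤ m) {C θ' : ℝ} (hqC : ‖q‖ ≤ C) (hb : b ≠ 0) (hθ1 : θ' ≤ 1)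
    (hw : ‖b * w ^ m - q‖ ≤ θ') : ‖w‖ ≤ 1 + (C + 1) / ‖b‖ := by
  have hb0 : 0 < ‖b‖ := norm_pos_iff.2 hb
  have h1 : ‖b‖ * ‖w‖ ^ m ≤ C + 1 := by
    calc ‖b‖ * ‖w‖ ^ m = ‖(b * w ^ m - q) + q‖ := by rw [sub_add_cancel, norm_mul, norm_pow]
      _ ≤ ‖b * w ^ m - q‖ + ‖q‖ := norm_add_le _ _
      _ ≤ C + 1 := by linarith
  have h2 : ‖w‖ ^ m ≤ (C + 1) / ‖b‖ := by
    rw [le_div_iff₀ hb0]
    linarith
  linarith [le_one_add_pow (norm_nonneg w) hm]

private theorem val_lower {w b q : ℂ} {m : ℕ} {c θ' : ℝ} (hq : c ≤ ‖q‖) (hθc : θ' ≤ c / 2)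
    (hw : ‖b * w ^ m - q‖ ≤ θ') : c / 2 ≤ ‖b‖ * ‖w‖ ^ m := by
  have : ‖q‖ ≤ ‖b * w ^ m - q‖ + ‖b * w ^ m‖ := by
    calc ‖q‖ = ‖b * w ^ m - (b * w ^ m - q)‖ := by rw [sub_sub_cancel]
      _ ≤ ‖b * w ^ m‖ + ‖b * w ^ m - q‖ := norm_sub_le _ _
      _ = _ := add_comm _ _
  rw [norm_mul, norm_pow] at this
  linarith

private theorem der_small {ℓ : ℂ → ℂ} {b q : ℂ} {m : ℕ} (hm : 1 ≤ m) {c C θ' d : ℝ} (hc : 0 < c) (hq : c ≤ ‖q‖) (hqC : ‖q‖ ≤ C) (hb : b ≠ 0)
    (hθ1 : θ' ≤ 1) (hθc : θ' ≤ c / 2) (hd : 0 < d) {V : Set ℂ} (hV : IsOpen V) (hℓ : DifferentiableOn ℂ ℓ V) {z : ℂ}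
    (hzV : closedBall z d ⊆ V) (hbd : ∀ w ∈ closedBall z d, ‖b * ℓ w ^ m - q‖ ≤ θ') :
    ‖deriv ℓ z‖ ≤ 2 * θ' * (1 + (C + 1) / ‖b‖) / (c * d) := by
  have hzz : z ∈ closedBall z d := mem_closedBall_self hd.le
  have hθ0 : 0 ≤ θ' := (norm_nonneg _).trans (hbd z hzz)
  have hℓz : DifferentiableAt ℂ ℓ z := hℓ.differentiableAt (hV.mem_nhds (hzV hzz))
  set g : ℂ → ℂ := fun w => b * ℓ w ^ m - q with hg
  have hgV : DifferentiableOn ℂ g V := ((hℓ.pow m).const_mul b).sub_const q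
  have hcl : DiffContOnCl ℂ g (ball z d) := by
    refine DifferentiableOn.diffContOnCl ?_
    rw [closure_ball z hd.ne']
    exact hgV.mono hzV
  have h1 : ‖deriv g z‖ ≤ θ' / d :=
    Complex.norm_deriv_le_of_forall_mem_sphere_norm_le hd hcl fun w hw => hbd w (sphere_subset_closedBall hw)
  have h2 : deriv g z = b * (m * ℓ z ^ (m - 1) * deriv ℓ z) := by
    have : HasDerivAt g (b * (m * ℓ z ^ (m - 1) * deriv ℓ z)) z := by
      have := ((hℓz.hasDerivAt.pow m).const_mul b).sub_const q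
      simpa [hg] using this
    exact this.deriv
  have h3 : ‖b‖ * ((m : ℝ) * ‖ℓ z‖ ^ (m - 1) * ‖deriv ℓ z‖) ≤ θ' / d := by
    have : ‖deriv g z‖ = ‖b‖ * ((m : ℝ) * ‖ℓ z‖ ^ (m - 1) * ‖deriv ℓ z‖) := by
      rw [h2, norm_mul, norm_mul, norm_mul, norm_pow, Complex.norm_natCast]
    rw [← this]; exact h1
  have hU := val_bound hm hqC hb hθ1 (hbd z hzz)
  have hL := val_lower hq hθc (hbd z hzz)
  have hm1 : (1 : ℝ) ≤ m := by exact_mod_cast hm
  have h4 : ‖ℓ z‖ ^ m = ‖ℓ z‖ ^ (m - 1) * ‖ℓ z‖ := by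
    rw [← pow_succ]; congr 1; omega
  have h5 : c / 2 * ‖deriv ℓ z‖ ≤ θ' / d * (1 + (C + 1) / ‖b‖) := by
    calc c / 2 * ‖deriv ℓ z‖ ≤ ‖b‖ * ‖ℓ z‖ ^ m * ‖deriv ℓ z‖ := mul_le_mul_of_nonneg_right hL (norm_nonneg _)
      _ ≤ (m : ℝ) * (‖b‖ * ‖ℓ z‖ ^ m * ‖deriv ℓ z‖) := le_mul_of_one_le_left (by positivity) hm1
      _ = ‖b‖ * ((m : ℝ) * ‖ℓ z‖ ^ (m - 1) * ‖deriv ℓ z‖) * ‖ℓ z‖ := by rw [h4]; ring
      _ ≤ θ' / d * ‖ℓ z‖ := mul_le_mul_of_nonneg_right h3 (norm_nonneg _)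
      _ ≤ θ' / d * (1 + (C + 1) / ‖b‖) := mul_le_mul_of_nonneg_left hU (by positivity)
  rw [le_div_iff₀ (by positivity)]
  calc ‖deriv ℓ z‖ * (c * d) = 2 * d * (c / 2 * ‖deriv ℓ z‖) := by ring
    _ ≤ 2 * d * (θ' / d * (1 + (C + 1) / ‖b‖)) := mul_le_mul_of_nonneg_left h5 (by positivity)
    _ = 2 * θ' * (1 + (C + 1) / ‖b‖) := by field_simp

/-- the linear approximation of a primitive -/
private theorem prim_lin {G : ℂ → ℂ} {z₀ : ℂ} {R ρ ε : ℝ} (hRρ : R ≤ ρ) (hG : DifferentiableOn ℂ G (ball z₀ ρ)) {l : ℂ}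
    (hl : ∀ z ∈ ball z₀ R, ‖deriv G z - l‖ ≤ ε) {z w : ℂ} (hz : z ∈ ball z₀ R) (hw : w ∈ ball z₀ R) :
    ‖(G z - l * z) - (G w - l * w)‖ ≤ ε * ‖z - w‖ := by
  have hd : ∀ x ∈ ball z₀ R, HasDerivAt (fun y => G y - l * y) (deriv G x - l) x := by
    intro x hx
    have hGx : DifferentiableAt ℂ G x := hG.differentiableAt (isOpen_ball.mem_nhds (ball_subset_ball hRρ hx))
    have := hGx.hasDerivAt.fun_sub ((hasDerivAt_id' x).const_mul l)
    rwa [mul_one] at this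
  exact Convex.norm_image_sub_le_of_norm_deriv_le (f := fun y => G y - l * y) (fun x hx => (hd x hx).differentiableAt)
    (fun x hx => by rw [(hd x hx).deriv]; exact hl x hx) (convex_ball z₀ R) hw hz

theorem wd_aff {C η : ℝ} (hC : 1 ≤ C) (hη : 0 < η) {m : ℕ} (hm : 1 ≤ m) (a : Fin 2 → ℕ) {b : ℂ} (hb : b ≠ 0) {c : ℝ} (hc : 0 < c) {θ : ℝ} (hθ : 0 < θ) :
    ∃ θ₀ : ℝ, 0 < θ₀ ∧ ∀ θ' : ℝ, 0 < θ' → θ' ≤ θ₀ → ∃ ρ₁ : ℝ, ∀ (κ : Type) [Fintype κ] (ζ : κ → ℂ) (s : κ → ℝ) (M : κ → Fin 2 → ℕ) (h : Fin 2 → ℂ → ℂ)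
      (z₀ : ℂ) (ρ K : ℝ), Wd ζ s M h z₀ ρ C η K → 2 ≤ K → ρ₁ ≤ ρ → (∀ k, M k 0 * a 1 = M k 1 * a 0) → ∀ q : ℂ, c ≤ ‖q‖ → ‖q‖ ≤ C →
        (∀ z ∈ ball z₀ ρ, (∀ k, Real.exp (-(θ' * ρ)) / 2 ≤ ‖z - ζ k‖) → ‖b * ((a 1 : ℂ) * sl ζ M h 0 z - (a 0 : ℂ) * sl ζ M h 1 z) ^ m - q‖ ≤ θ') →
          (∃ k, ζ k = z₀) → ∃ l : ℂ, c ≤ 2 * ‖b‖ * ‖l‖ ^ m ∧ ∀ z ∈ ball z₀ ((1 - θ) * ρ), (∀ k, s k ≤ ‖z - ζ k‖) →
            |(a 1 : ℝ) * sg ζ M h 0 z - (a 0 : ℝ) * sg ζ M h 1 z - (l * (z - z₀)).re| ≤ θ * ρ := by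
  classical
  have hb0 : 0 < ‖b‖ := norm_pos_iff.2 hb
  rcases le_or_gt 1 θ with hθ1 | hθ1
  · -- the ball is empty
    refine ⟨1, one_pos, fun θ' _ _ => ⟨1, fun κ _ ζ s M h z₀ ρ K W hK hρ hpar q hq hqC hbd hex => ?_⟩⟩
    refine ⟨((1 + c / (2 * ‖b‖) : ℝ) : ℂ), ?_, fun z hz => ?_⟩
    · have hx : (1 : ℝ) ≤ 1 + c / (2 * ‖b‖) := by
        have : 0 < c / (2 * ‖b‖) := by positivity
        linarith
      have hn : ‖((1 + c / (2 * ‖b‖) : ℝ) : ℂ)‖ = 1 + c / (2 * ‖b‖) := by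
        rw [Complex.norm_real, Real.norm_of_nonneg (by linarith)]
      rw [hn]
      have h1 : 1 + c / (2 * ‖b‖) ≤ (1 + c / (2 * ‖b‖)) ^ m := le_self_pow₀ hx (by omega)
      have h2 : c = 2 * ‖b‖ * (c / (2 * ‖b‖)) := by field_simp
      calc c = 2 * ‖b‖ * (c / (2 * ‖b‖)) := h2
        _ ≤ 2 * ‖b‖ * (1 + c / (2 * ‖b‖)) ^ m := mul_le_mul_of_nonneg_left (by linarith) (by positivity)
    · exfalso
      have : (1 - θ) * ρ ≤ 0 := mul_nonpos_of_nonpos_of_nonneg (by linarith) (by linarith)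
      rw [mem_ball] at hz
      linarith [dist_nonneg (x := z) (y := z₀)]
  set U : ℝ := 1 + (C + 1) / ‖b‖ with hU
  have hU1 : 1 ≤ U := by
    have : 0 < (C + 1) / ‖b‖ := by positivity
    rw [hU]; linarith
  refine ⟨min (min 1 (c / 2)) (c * θ ^ 2 / (32 * U)), by positivity, fun θ' hθ' hle => ?_⟩
  have hle1 : θ' ≤ 1 := hle.trans ((min_le_left _ _).trans (min_le_left _ _))
  have hlec : θ' ≤ c / 2 := hle.trans ((min_le_left _ _).trans (min_le_right _ _))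
  have hle3 : θ' ≤ c * θ ^ 2 / (32 * U) := hle.trans (min_le_right _ _)
  set A : ℝ := ((a 0 : ℝ) + a 1) * C + U with hA
  have hA0 : 0 ≤ A := by positivity
  refine ⟨max (max 1 (8 * C / (θ * θ'))) (max (2 * A / θ) (2 / (1 - θ))), fun κ _ ζ s M h z₀ ρ K W hK hρ hpar q hq hqC hbd hex => ?_⟩
  have hρ1 : 1 ≤ ρ := (le_max_left _ _).trans ((le_max_left _ _).trans hρ)
  have hρ2 : 8 * C / (θ * θ') ≤ ρ := (le_max_right _ _).trans ((le_max_left _ _).trans hρ)
  have hρ3 : 2 * A / θ ≤ ρ := (le_max_left _ _).trans ((le_max_right _ _).trans hρ)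
  have hρ4 : 2 / (1 - θ) ≤ ρ := (le_max_right _ _).trans ((le_max_right _ _).trans hρ)
  have hρ0 : 0 < ρ := by linarith
  have h1θ : 0 < 1 - θ := by linarith
  -- the function
  set G : ℂ → ℂ := fun z => (a 1 : ℂ) * h 0 z - (a 0 : ℂ) * h 1 z with hG
  have hGd : DifferentiableOn ℂ G (ball z₀ ρ) := ((W.hol 0).const_mul _).sub ((W.hol 1).const_mul _)
  have hℓd : DifferentiableOn ℂ (deriv G) (ball z₀ ρ) := hGd.deriv isOpen_ball
  have hparC : ∀ k, (a 1 : ℂ) * (M k 0 : ℂ) = (a 0 : ℂ) * (M k 1 : ℂ) := by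
    intro k
    have : ((M k 0 * a 1 : ℕ) : ℂ) = ((M k 1 * a 0 : ℕ) : ℂ) := by rw [hpar k]
    push_cast at this
    linear_combination this
  have hparR : ∀ k, (a 1 : ℝ) * (M k 0 : ℝ) = (a 0 : ℝ) * (M k 1 : ℝ) := by
    intro k
    have : ((M k 0 * a 1 : ℕ) : ℝ) = ((M k 1 * a 0 : ℕ) : ℝ) := by rw [hpar k]
    push_cast at this
    linear_combination this
  have hsl : ∀ z ∈ ball z₀ ρ, (a 1 : ℂ) * sl ζ M h 0 z - (a 0 : ℂ) * sl ζ M h 1 z = deriv G z := by
    intro z hz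
    have h0 : DifferentiableAt ℂ (h 0) z := (W.hol 0).differentiableAt (isOpen_ball.mem_nhds hz)
    have h1 : DifferentiableAt ℂ (h 1) z := (W.hol 1).differentiableAt (isOpen_ball.mem_nhds hz)
    have hdG : deriv G z = (a 1 : ℂ) * deriv (h 0) z - (a 0 : ℂ) * deriv (h 1) z :=
      ((h0.hasDerivAt.const_mul _).sub (h1.hasDerivAt.const_mul _)).deriv
    have hsum : (a 1 : ℂ) * ∑ k, (M k 0 : ℂ) / (z - ζ k) = (a 0 : ℂ) * ∑ k, (M k 1 : ℂ) / (z - ζ k) := by
      rw [Finset.mul_sum, Finset.mul_sum]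
      refine Finset.sum_congr rfl fun k _ => ?_
      rw [← mul_div_assoc, ← mul_div_assoc, hparC k]
    rw [hdG]
    simp only [sl]
    linear_combination hsum
  have hsg : ∀ z, (a 1 : ℝ) * sg ζ M h 0 z - (a 0 : ℝ) * sg ζ M h 1 z = (G z).re := by
    intro z
    have hsum : (a 1 : ℝ) * ∑ k, (M k 0 : ℝ) * Real.log ‖z - ζ k‖ = (a 0 : ℝ) * ∑ k, (M k 1 : ℝ) * Real.log ‖z - ζ k‖ := by
      rw [Finset.mul_sum, Finset.mul_sum]
      refine Finset.sum_congr rfl fun k _ => ?_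
      rw [← mul_assoc, ← mul_assoc, hparR k]
    have hre : (G z).re = (a 1 : ℝ) * (h 0 z).re - (a 0 : ℝ) * (h 1 z).re := by
      simp [hG]
    rw [hre]
    simp only [sg]
    linear_combination hsum
  -- a circle which meets no tiny disc
  set e : ℝ := Real.exp (-(θ' * ρ)) / 2 with he
  have he0 : 0 < e := by positivity
  have hcirc : 2 * ∑ _k : κ, e < (1 - θ / 4) * ρ - (1 - θ / 2) * ρ := by
    rw [Finset.sum_const, Finset.card_univ, nsmul_eq_mul]
    have hexp : Real.exp (-(θ' * ρ)) < 1 / (θ' * ρ) := by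
      rw [Real.exp_neg, ← one_div]
      refine one_div_lt_one_div_of_lt (by positivity) ?_
      have := Real.add_one_le_exp (θ' * ρ)
      linarith
    have hcard := W.card
    have h1 : 2 * ((Fintype.card κ : ℝ) * e) ≤ C * ρ * Real.exp (-(θ' * ρ)) := by
      rw [he]
      have : (Fintype.card κ : ℝ) * Real.exp (-(θ' * ρ)) ≤ C * ρ * Real.exp (-(θ' * ρ)) :=
        mul_le_mul_of_nonneg_right hcard (Real.exp_pos _).le
      linarith
    have h2 : C * ρ * Real.exp (-(θ' * ρ)) ≤ C * ρ * (1 / (θ' * ρ)) := mul_le_mul_of_nonneg_left hexp.le (by positivity)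
    have h3 : C * ρ * (1 / (θ' * ρ)) = C / θ' := by field_simp
    have h4 : 8 * C / (θ * θ') = 8 * (C / θ') / θ := by field_simp
    have h5 : 8 * (C / θ') ≤ ρ * θ := by
      rw [h4, div_le_iff₀ hθ] at hρ2
      exact hρ2
    have h6 : 0 < C / θ' := by positivity
    have h7 : (1 - θ / 4) * ρ - (1 - θ / 2) * ρ = ρ * θ / 4 := by ring
    have h8 := h1.trans (h2.trans_eq h3)
    rw [h7]
    linarith
  obtain ⟨r, hr1, hr2, hrk⟩ := good_circle (ζ := ζ) (s := fun _ => e) (fun _ => he0.le) (z₁ := z₀) hcirc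
  have hθρ : 0 < θ * ρ := mul_pos hθ hρ0
  have hr0 : 0 < r := lt_of_lt_of_le (mul_pos (by linarith) hρ0) hr1
  have hrρ : r < ρ := lt_of_le_of_lt hr2 (by linarith)
  have hballs : closedBall z₀ r ⊆ ball z₀ ρ := closedBall_subset_ball hrρ
  have hin : ∀ w ∈ closedBall z₀ r, ‖b * deriv G w ^ m - q‖ ≤ θ' := by
    intro w hw
    have hd : DiffContOnCl ℂ (fun w => b * deriv G w ^ m - q) (ball z₀ r) := by
      refine DifferentiableOn.diffContOnCl ?_
      rw [closure_ball z₀ hr0.ne']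
      exact (((hℓd.pow m).const_mul b).sub_const q).mono hballs
    refine Complex.norm_le_of_forall_mem_frontier_norm_le isBounded_ball hd (fun z hz => ?_) (by rw [closure_ball z₀ hr0.ne']; exact hw)
    rw [frontier_ball z₀ hr0.ne'] at hz
    have hzb : z ∈ ball z₀ ρ := hballs (sphere_subset_closedBall hz)
    have hzr : ‖z - z₀‖ = r := by rw [← dist_eq_norm]; exact hz
    rw [← hsl z hzb]
    refine hbd z hzb fun k => ?_
    rcases hrk k with hk | hk
    · have := norm_sub_norm_le (ζ k - z₀) (z - z₀)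
      have h2 : ‖ζ k - z₀ - (z - z₀)‖ = ‖z - ζ k‖ := by rw [← norm_neg]; congr 1; ring
      rw [h2, hzr] at this
      linarith
    · have := norm_sub_norm_le (z - z₀) (ζ k - z₀)
      have h2 : ‖z - z₀ - (ζ k - z₀)‖ = ‖z - ζ k‖ := by congr 1; ring
      rw [h2, hzr] at this
      linarith
  -- the derivative of `ℓ`
  set d : ℝ := θ * ρ / 4 with hd
  have hd0 : 0 < d := by positivity
  set R : ℝ := (1 - θ) * ρ with hR
  have hRρ : R ≤ ρ := by rw [hR]; linarith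
  have hR2 : 2 ≤ R := by
    rw [div_le_iff₀ h1θ] at hρ4
    rw [hR]; linarith
  have hsubd : ∀ z ∈ ball z₀ R, closedBall z d ⊆ closedBall z₀ r := by
    intro z hz w hw
    rw [mem_ball] at hz
    rw [mem_closedBall] at hw ⊢
    have := dist_triangle w z z₀
    have h2 : R + d ≤ r := by
      refine le_trans ?_ hr1
      rw [hR, hd]; linarith
    linarith
  have hderℓ : ∀ z ∈ ball z₀ R, ‖deriv (deriv G) z‖ ≤ θ / (4 * ρ) := by
    intro z hz
    have h1 := der_small hm hc hq hqC hb hle1 hlec hd0 isOpen_ball hℓd ((hsubd z hz).trans hballs) fun w hw => hin w (hsubd z hz hw)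
    refine h1.trans ?_
    rw [← hU, hd, div_le_div_iff₀ (by positivity) (by positivity)]
    have h2 : θ' * (32 * U) ≤ c * θ ^ 2 := by
      rw [le_div_iff₀ (by positivity)] at hle3
      exact hle3
    have h3 : 0 ≤ ρ := hρ0.le
    linarith [mul_le_mul_of_nonneg_right h2 h3]
  have hz₀R : z₀ ∈ ball z₀ R := mem_ball_self (by linarith)
  set l : ℂ := deriv G z₀ with hl
  have hz₀r : z₀ ∈ closedBall z₀ r := mem_closedBall_self hr0.le
  have hlU : ‖l‖ ≤ U := val_bound hm hqC hb hle1 (hin z₀ hz₀r)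
  have hlow := val_lower hq hlec (hin z₀ hz₀r)
  have hlin : ∀ z ∈ ball z₀ R, ‖deriv G z - l‖ ≤ θ / 4 := by
    intro z hz
    have h1 := Convex.norm_image_sub_le_of_norm_deriv_le (f := deriv G)
      (fun x hx => hℓd.differentiableAt (isOpen_ball.mem_nhds (ball_subset_ball hRρ hx))) hderℓ (convex_ball z₀ R) hz₀R hz
    refine h1.trans ?_
    have h2 : ‖z - z₀‖ ≤ ρ := by
      rw [← dist_eq_norm]; rw [mem_ball] at hz; linarith
    calc θ / (4 * ρ) * ‖z - z₀‖ ≤ θ / (4 * ρ) * ρ := mul_le_mul_of_nonneg_left h2 (by positivity)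
      _ = θ / 4 := by field_simp
  refine ⟨l, by linarith, fun z hz _ => ?_⟩
  -- a point of the rim of the hole at `z₀`
  obtain ⟨k, hk⟩ := hex
  have hsk0 := W.s_pos k
  have hsk1 : s k ≤ 1 := (W.s_le k).trans (Real.exp_le_one_iff.2 (neg_nonpos.2 (mul_pos hη hρ0).le))
  set w : ℂ := z₀ + (s k : ℂ) with hw
  have hwk : ‖w - z₀‖ = s k := by
    rw [hw, add_sub_cancel_left, Complex.norm_real, Real.norm_of_nonneg hsk0.le]
  have hwR : w ∈ ball z₀ R := by
    rw [mem_ball, dist_eq_norm, hwk]; linarith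
  have hwρ : w ∈ ball z₀ ρ := ball_subset_ball hRρ hwR
  have hwall : ∀ j, s j ≤ ‖w - ζ j‖ := by
    intro j
    by_cases hj : j = k
    · subst hj
      rw [hk, hwk]
    · have h1 := W.sep j k hj
      have h2 := W.sep k j (Ne.symm hj)
      have h3 : ‖ζ k - ζ j‖ = ‖ζ j - ζ k‖ := norm_sub_rev _ _
      rw [h3] at h2
      have h4 := norm_sub_norm_le (ζ j - ζ k) (w - ζ k)
      have h5 : ‖ζ j - ζ k - (w - ζ k)‖ = ‖w - ζ j‖ := by rw [← norm_neg]; congr 1; ring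
      have h6 : ‖w - ζ k‖ = s k := by rw [hk, hwk]
      rw [h5, h6] at h4
      linarith
  have hsgw : ∀ i, |sg ζ M h i w| ≤ C := fun i =>
    abs_le.2 ⟨W.low i w hwρ hwall, W.rim k i w hwρ (by rw [hk, hwk])⟩
  have hGw : |(G w).re| ≤ ((a 0 : ℝ) + a 1) * C := by
    rw [← hsg w]
    calc |(a 1 : ℝ) * sg ζ M h 0 w - (a 0 : ℝ) * sg ζ M h 1 w| ≤ |(a 1 : ℝ) * sg ζ M h 0 w| + |(a 0 : ℝ) * sg ζ M h 1 w| := abs_sub _ _
      _ = (a 1 : ℝ) * |sg ζ M h 0 w| + (a 0 : ℝ) * |sg ζ M h 1 w| := by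
          rw [abs_mul, abs_mul, Nat.abs_cast, Nat.abs_cast]
      _ ≤ (a 1 : ℝ) * C + (a 0 : ℝ) * C := add_le_add (mul_le_mul_of_nonneg_left (hsgw 0) (Nat.cast_nonneg _))
          (mul_le_mul_of_nonneg_left (hsgw 1) (Nat.cast_nonneg _))
      _ = ((a 0 : ℝ) + a 1) * C := by ring
  have hprim := prim_lin hRρ hGd hlin hz hwR
  rw [hsg z]
  have hid : (G z).re - (l * (z - z₀)).re = ((G z - l * z) - (G w - l * w)).re + (G w).re - (l * (w - z₀)).re := by
    simp only [Complex.sub_re, Complex.mul_re, Complex.sub_im]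
    ring
  rw [hid]
  have hzw : ‖z - w‖ ≤ 2 * ρ := by
    have h1 : dist z z₀ < R := hz
    have h2 : dist w z₀ < R := hwR
    rw [← dist_eq_norm]
    linarith [dist_triangle_right z w z₀]
  have h1 : |((G z - l * z) - (G w - l * w)).re| ≤ θ / 4 * (2 * ρ) :=
    (Complex.abs_re_le_norm _).trans (hprim.trans (mul_le_mul_of_nonneg_left hzw (by positivity)))
  have h2 : |(l * (w - z₀)).re| ≤ U := by
    refine (Complex.abs_re_le_norm _).trans ?_
    rw [norm_mul, hwk]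
    calc ‖l‖ * s k ≤ U * 1 := mul_le_mul hlU hsk1 hsk0.le (by linarith)
      _ = U := mul_one _
  have h3 : A ≤ θ * ρ / 2 := by
    rw [div_le_iff₀ hθ] at hρ3
    linarith
  have h4 := abs_le.1 h1
  have h5 := abs_le.1 h2
  have h6 := abs_le.1 hGw
  rw [abs_le]
  constructor <;> linarith [h4.1, h4.2, h5.1, h5.2, h6.1, h6.2]

end Pool.Agent.SR3

end
end

section

/-!
# SR3 LSl: a bound for `sl`

On `ball z t` the function `f = h a + ∑ M k a log (1 + (w - z) / (z - ζ k))` is holomorphic, `Re f + const = sg a ≥ - C`, `f' = sl a`: `deriv_le_re`.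
-/

set_option autoImplicit false

open Topology Filter Metric

noncomputable section

namespace Pool.Agent.SR3

theorem sl_le {κ : Type} [Fintype κ] {ζ : κ → ℂ} {s : κ → ℝ} {M : κ → Fin 2 → ℕ} {h : Fin 2 → ℂ → ℂ} {z₀ : ℂ} {ρ C η K : ℝ} (W : Wd ζ s M h z₀ ρ C η K)
    (hC : 1 ≤ C) (hρ : 1 ≤ ρ) {z : ℂ} {t : ℝ} (ht : 0 < t) (hb : ball z t ⊆ ball z₀ ρ) (hz : ∀ k, s k + t ≤ ‖z - ζ k‖) (a : Fin 2) :
    ‖sl ζ M h a z‖ ≤ 4 * C * ρ / t := by
  have hzb : z ∈ ball z₀ ρ := hb (mem_ball_self ht)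
  have hpos : ∀ k, 0 < ‖z - ζ k‖ := fun k => by
    have h1 := W.s_pos k
    have h2 := hz k
    linarith
  have hne : ∀ k, z - ζ k ≠ 0 := fun k => norm_pos_iff.1 (hpos k)
  have hdist : ∀ w ∈ ball z t, ∀ k, s k ≤ ‖w - ζ k‖ := by
    intro w hw k
    rw [mem_ball_iff_norm] at hw
    have h1 : ‖z - ζ k‖ ≤ ‖w - ζ k‖ + ‖w - z‖ := by
      have h2 : z - ζ k = (w - ζ k) - (w - z) := by ring
      rw [h2]
      exact norm_sub_le _ _
    have h3 := hz k
    linarith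
  have hslit : ∀ w ∈ ball z t, ∀ k, (w - ζ k) / (z - ζ k) ∈ Complex.slitPlane := by
    intro w hw k
    have h1 : (w - ζ k) / (z - ζ k) = 1 + (w - z) / (z - ζ k) := by
      field_simp [hne k]
      ring
    rw [h1]
    refine Complex.mem_slitPlane_of_norm_lt_one ?_
    rw [norm_div, div_lt_one (hpos k)]
    rw [mem_ball_iff_norm] at hw
    have h2 := hz k
    have h3 := W.s_pos k
    linarith
  obtain ⟨f, hf⟩ : ∃ f : ℂ → ℂ, f = fun w => h a w + ∑ k, (M k a : ℂ) * Complex.log ((w - ζ k) / (z - ζ k)) +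
      ((∑ k, (M k a : ℝ) * Real.log ‖z - ζ k‖ + C : ℝ) : ℂ) := ⟨_, rfl⟩
  have hd : ∀ w ∈ ball z t, HasDerivAt f (deriv (h a) w + ∑ k, (M k a : ℂ) / (w - ζ k)) w := by
    intro w hw
    rw [hf]
    have h1 : HasDerivAt (h a) (deriv (h a) w) w :=
      ((W.hol a).differentiableAt (isOpen_ball.mem_nhds (hb hw))).hasDerivAt
    refine HasDerivAt.add_const _ (h1.add ?_)
    refine HasDerivAt.fun_sum fun k _ => ?_
    have h2 : HasDerivAt (fun w => (w - ζ k) / (z - ζ k)) (1 / (z - ζ k)) w :=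
      ((hasDerivAt_id w).sub_const (ζ k)).div_const _
    have h3 := (h2.clog (hslit w hw k)).const_mul (M k a : ℂ)
    have hwk : w - ζ k ≠ 0 := by
      intro h4
      have h5 := hdist w hw k
      have h6 := W.s_pos k
      rw [h4, norm_zero] at h5
      linarith
    have h4 : (M k a : ℂ) * (1 / (z - ζ k) / ((w - ζ k) / (z - ζ k))) = (M k a : ℂ) / (w - ζ k) := by
      field_simp [hne k, hwk]
    rwa [h4] at h3
  have hre : ∀ w, (f w).re = sg ζ M h a w + C + ∑ k, (M k a : ℝ) *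
      ((Complex.log ((w - ζ k) / (z - ζ k))).re + Real.log ‖z - ζ k‖ - Real.log ‖w - ζ k‖) := by
    intro w
    rw [hf]
    simp only [Complex.add_re, Complex.re_sum, Complex.ofReal_re, sg]
    have h1 : ∀ k, ((M k a : ℂ) * Complex.log ((w - ζ k) / (z - ζ k))).re = (M k a : ℝ) * (Complex.log ((w - ζ k) / (z - ζ k))).re := by
      intro k
      rw [Complex.mul_re]
      simp
    simp only [h1]
    simp only [mul_sub, mul_add, Finset.sum_sub_distrib, Finset.sum_add_distrib]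
    ring
  have hre' : ∀ w ∈ ball z t, (f w).re = sg ζ M h a w + C := by
    intro w hw
    rw [hre w]
    have h1 : ∀ k, (M k a : ℝ) * ((Complex.log ((w - ζ k) / (z - ζ k))).re + Real.log ‖z - ζ k‖ - Real.log ‖w - ζ k‖) = 0 := by
      intro k
      have hwk : 0 < ‖w - ζ k‖ := lt_of_lt_of_le (W.s_pos k) (hdist w hw k)
      rw [Complex.log_re, norm_div, Real.log_div hwk.ne' (hpos k).ne']
      ring
    simp only [h1, Finset.sum_const_zero, add_zero]
  have hsl : deriv f z = sl ζ M h a z := (hd z (mem_ball_self ht)).deriv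
  have hdo : DifferentiableOn ℂ f (ball z t) := fun w hw => (hd w hw).differentiableAt.differentiableWithinAt
  have h0 : ∀ w ∈ ball z t, 0 ≤ (f w).re := by
    intro w hw
    rw [hre' w hw]
    have h1 := W.low a w (hb hw) (hdist w hw)
    linarith
  have h1 := deriv_le_re ht hdo h0
  rw [hsl, hre' z (mem_ball_self ht)] at h1
  refine h1.trans ?_
  have h2 := W.upp a z hzb (hdist z (mem_ball_self ht))
  refine div_le_div_of_nonneg_right ?_ ht.le
  nlinarith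

end Pool.Agent.SR3

end
end
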