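import Pool.Agent.H43.TL2.H36.BP.WdA
import Pool.Agent.H43.TL2.M136

/-! The parts of this file: SR3.ABas_1, SR3.ALam. -/

section

/-!
# SR3 ABas: elementary facts
-/

set_option autoImplicit false

open Topology Filter Metric

noncomputable section

namespace Pool.Agent.SR3

open Pool.Agent.H36.BP (EN fs wd Sub OrdTwo)
open Pool.Agent.H14.PP (IsCone Tan)
open Pool.Agent.SY (Ent)
open Pool.Agent.SDA (EnergyK Near AffOpen Nm nForms)
open Geo (Gd)

variable {N : ℕ} {G : Geo N} {T : Set (EN N)} {rho : EN N → ℝ} {M : ℕ} {c₀ C δ : ℝ} {g : (ℂ → EN N) → ℂ → ℝ}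

theorem p_ne (hG : G.Ok) {x : EN N} (hx : x ∈ G.K) : G.p x ≠ 0 := ((hG.aff.mem x).1 hx).2 ()

theorem smul_mem (hG : G.Ok) {x : EN N} (hx : x ∈ G.K) {c : ℂ} (hc : c ≠ 0) : c • x ∈ G.K := by
  rw [mem_K_iff hG, p_smul hG]
  exact ⟨hG.cone.smul_mem _ (KX hG hx) _ hc, mul_ne_zero (pow_ne_zero _ hc) (p_ne hG hx)⟩

/-- the condition of `SDA` -/
theorem nm_iff {F : ℂ → EN N} : Nm G.P F ↔ ∀ z, G.p (F z) = 1 := by
  unfold Nm
  simp [Geo.P]

theorem tan (hG : G.Ok) {F : ℂ → EN N} (hF : Differentiable ℂ F) (hK : ∀ z, F z ∈ G.K) (z : ℂ) : Tan G.X (F z) (deriv F z) :=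
  tan_at hG (hF.analyticAt z) (Eventually.of_forall hK)

theorem n_nonneg (x v : EN N) : 0 ≤ G.n x v :=
  Finset.sum_nonneg fun _ _ => Real.rpow_nonneg (norm_nonneg _) _

theorem L_nonneg (x v : EN N) : 0 ≤ G.L x v :=
  add_nonneg (Pool.Agent.H36.BP.fs_nonneg _ _) (Finset.sum_nonneg fun _ _ => norm_nonneg _)

/-- `w_log` for the length -/
theorem n_le_L (hG : G.Ok) : ∃ B : ℝ, 0 < B ∧ ∀ x ∈ G.K, ∀ v, Tan G.X x v → G.n x v ≤ B * G.L x v := by
  obtain ⟨A, hA, h⟩ := hG.w_log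
  refine ⟨∑ j : G.J, (A + 1) ^ ((G.m j : ℝ)⁻¹), ?_, fun x hx v hv => ?_⟩
  · obtain ⟨j⟩ := hG.neJ
    exact Finset.sum_pos (fun j _ => Real.rpow_pos_of_pos (by linarith) _) ⟨j, Finset.mem_univ j⟩
  · have hL := L_nonneg (G := G) x v
    show ∑ j, ‖G.w j x v‖ ^ ((G.m j : ℝ)⁻¹) ≤ _
    rw [Finset.sum_mul]
    refine Finset.sum_le_sum fun j _ => ?_
    have hm : (G.m j : ℝ) ≠ 0 := by
      have := hG.one_m j
      exact_mod_cast (by omega : G.m j ≠ 0)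
    have h1 : ‖G.w j x v‖ ≤ (A + 1) * G.L x v ^ G.m j :=
      (h j x hx v hv).trans (mul_le_mul_of_nonneg_right (by linarith) (pow_nonneg hL _))
    have h2 : ‖G.w j x v‖ ^ ((G.m j : ℝ)⁻¹) ≤ ((A + 1) * G.L x v ^ G.m j) ^ ((G.m j : ℝ)⁻¹) :=
      Real.rpow_le_rpow (norm_nonneg _) h1 (inv_nonneg.2 (Nat.cast_nonneg _))
    refine h2.trans (le_of_eq ?_)
    rw [Real.mul_rpow (by linarith) (pow_nonneg hL _), Real.pow_rpow_inv_natCast hL (by exact_mod_cast hm)]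

/-- affine changes of the parameter -/
theorem deriv_aff {F : ℂ → EN N} (hF : Differentiable ℂ F) (a b z : ℂ) : deriv (fun w => F (a * w + b)) z = a • deriv F (a * z + b) := by
  have h1 : HasDerivAt (fun w : ℂ => a * w + b) a z := by
    have h2 := ((hasDerivAt_id z).const_mul a).add_const b
    rw [mul_one] at h2
    exact h2
  exact (HasDerivAt.scomp z (hF (a * z + b)).hasDerivAt h1).deriv

theorem n_smul (hG : G.Ok) {x v : EN N} (hx : x ∈ G.K) (hv : Tan G.X x v) (c : ℂ) : G.n x (c • v) = ‖c‖ * G.n x v := by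
  show ∑ j, ‖G.w j x (c • v)‖ ^ ((G.m j : ℝ)⁻¹) = ‖c‖ * ∑ j, ‖G.w j x v‖ ^ ((G.m j : ℝ)⁻¹)
  rw [Finset.mul_sum]
  refine Finset.sum_congr rfl fun j _ => ?_
  have hm : G.m j ≠ 0 := by
    have := hG.one_m j
    omega
  rw [hG.w_hom j x hx v hv c, norm_mul, norm_pow, Real.mul_rpow (pow_nonneg (norm_nonneg _) _) (norm_nonneg _),
    Real.pow_rpow_inv_natCast (norm_nonneg _) hm]

theorem n_aff (hG : G.Ok) {F : ℂ → EN N} (hF : Differentiable ℂ F) (hK : ∀ z, F z ∈ G.K) (a b z : ℂ) :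
    G.n (F (a * z + b)) (deriv (fun w => F (a * w + b)) z) = ‖a‖ * G.n (F (a * z + b)) (deriv F (a * z + b)) := by
  rw [deriv_aff hF, n_smul hG (hK _) (tan hG hF hK _)]

/-- other lifts -/
theorem w_unit (hG : G.Ok) (j : G.J) {F : ℂ → EN N} (hF : Differentiable ℂ F) (hK : ∀ z, F z ∈ G.K) {u : ℂ → ℂ} (hu : Differentiable ℂ u)
    (h0 : ∀ z, u z ≠ 0) (z : ℂ) : G.w j (u z • F z) (deriv (fun w => u w • F w) z) = G.w j (F z) (deriv F z) := by
  have hd : deriv (fun w => u w • F w) z = u z • deriv F z + deriv u z • F z :=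
    ((hu z).hasDerivAt.smul (hF z).hasDerivAt).deriv
  rw [hd]
  exact hG.w_inv j (F z) (hK z) (deriv F z) (tan hG hF hK z) (u z) (deriv u z) (h0 z)

theorem w_tendsto (hG : G.Ok) (j : G.J) {l : Filter ℕ} {F : ℕ → ℂ → EN N} {H : ℂ → EN N} (hF : ∀ᶠ k in l, Differentiable ℂ (F k) ∧ ∀ z, F k z ∈ G.K)
    (hH : Differentiable ℂ H) (hHK : ∀ z, H z ∈ G.K) (hc : TendstoLocallyUniformlyOn F H l Set.univ) (z : ℂ) :
    Tendsto (fun k => G.w j (F k z) (deriv (F k) z)) l (𝓝 (G.w j (H z) (deriv H z))) := by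
  have h1 : Tendsto (fun k => F k z) l (𝓝 (H z)) := hc.tendsto_at (Set.mem_univ z)
  have h2 : TendstoLocallyUniformlyOn (deriv ∘ F) (deriv H) l Set.univ :=
    hc.deriv (hF.mono fun k hk => hk.1.differentiableOn) isOpen_univ
  have h3 : Tendsto (fun k => deriv (F k) z) l (𝓝 (deriv H z)) := h2.tendsto_at (Set.mem_univ z)
  have h4 := hG.w_cont j (H z, deriv H z) ⟨hHK z, tan hG hH hHK z⟩
  have h5 : Tendsto (fun k => (F k z, deriv (F k) z)) l (𝓝[{y : EN N × EN N | y.1 ∈ G.K ∧ Tan G.X y.1 y.2}] (H z, deriv H z)) := by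
    refine tendsto_nhdsWithin_iff.2 ⟨h1.prodMk_nhds h3, ?_⟩
    filter_upwards [hF] with k hk
    exact ⟨hk.2 z, tan hG hk.1 hk.2 z⟩
  exact h4.tendsto.comp h5

theorem n_tendsto (hG : G.Ok) {l : Filter ℕ} {F : ℕ → ℂ → EN N} {H : ℂ → EN N} (hF : ∀ᶠ k in l, Differentiable ℂ (F k) ∧ ∀ z, F k z ∈ G.K)
    (hH : Differentiable ℂ H) (hHK : ∀ z, H z ∈ G.K) (hc : TendstoLocallyUniformlyOn F H l Set.univ) (z : ℂ) :
    Tendsto (fun k => G.n (F k z) (deriv (F k) z)) l (𝓝 (G.n (H z) (deriv H z))) := by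
  show Tendsto (fun k => ∑ j, ‖G.w j (F k z) (deriv (F k) z)‖ ^ ((G.m j : ℝ)⁻¹)) l (𝓝 (∑ j, ‖G.w j (H z) (deriv H z)‖ ^ ((G.m j : ℝ)⁻¹)))
  refine tendsto_finset_sum _ fun j _ => ?_
  have h1 := (w_tendsto hG j hF hH hHK hc z).norm
  exact h1.rpow_const (Or.inr (inv_nonneg.2 (Nat.cast_nonneg _)))

theorem nq_eq (q : G.J → ℂ) {x v : EN N} (h : ∀ j, G.w j x v = q j) : G.n x v = G.nq q := by
  show ∑ j, ‖G.w j x v‖ ^ ((G.m j : ℝ)⁻¹) = ∑ j, ‖q j‖ ^ ((G.m j : ℝ)⁻¹)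
  exact Finset.sum_congr rfl fun j _ => by rw [h j]

theorem cl_n {q : G.J → ℂ} {F : ℂ → EN N} (hF : G.Cl T q F) (z : ℂ) : G.n (F z) (deriv F z) = 1 := by
  rw [nq_eq q fun j => hF.val j z, hF.one]

theorem ent_comp {F : ℂ → EN N} (hF : Ent G.K T F) {a : ℂ} (ha : a ≠ 0) (b : ℂ) : Ent G.K T (fun z => F (a * z + b)) := by
  refine ⟨hF.diff.comp ((differentiable_id.const_mul a).add_const b), fun z => hF.mem _, ?_⟩
  obtain ⟨w, hw⟩ := hF.out
  refine ⟨a⁻¹ * (w - b), ?_⟩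
  rwa [← mul_assoc, mul_inv_cancel₀ ha, one_mul, sub_add_cancel]

/-- translations and rotations -/
theorem cl_comp (hG : G.Ok) {q : G.J → ℂ} {F : ℂ → EN N} (hF : G.Cl T q F) {a : ℂ} (ha : ‖a‖ = 1) (b : ℂ) :
    G.Cl T (fun j => a ^ G.m j * q j) (fun z => F (a * z + b)) := by
  have ha0 : a ≠ 0 := by
    intro h
    rw [h, norm_zero] at ha
    exact zero_ne_one ha
  refine ⟨ent_comp hF.ent ha0 b, fun z => hF.nm _, fun j z => ?_, ?_⟩
  · show G.w j (F (a * z + b)) (deriv (fun z => F (a * z + b)) z) = _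
    rw [deriv_aff hF.ent.diff, hG.w_hom j _ (hF.ent.mem _) _ (tan hG hF.ent.diff hF.ent.mem _), hF.val j]
  · show ∑ j, ‖a ^ G.m j * q j‖ ^ ((G.m j : ℝ)⁻¹) = 1
    rw [← hF.one]
    refine Finset.sum_congr rfl fun j _ => ?_
    rw [norm_mul, norm_pow, ha, one_pow, one_mul]

theorem cl_trans (hG : G.Ok) {q : G.J → ℂ} {F : ℂ → EN N} (hF : G.Cl T q F) (b : ℂ) : G.Cl T q (fun z => F (z + b)) := by
  have h := cl_comp hG hF (norm_one (α := ℂ)) b
  simpa only [one_pow, one_mul] using h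

/-- the good points are a closed set -/
theorem gd_closed (hG : G.Ok) (hM : G.Met T rho M c₀ C δ g) {q : G.J → ℂ} {F : ℂ → EN N} (hF : G.Cl T q F) : IsClosed (Gd rho δ F) := by
  have h1 : Continuous fun z => rho (F z) := by
    have h2 := hM.rhoc.comp (s := Set.univ) hF.ent.diff.continuous.continuousOn fun z _ => KX hG (hF.ent.mem z)
    exact continuousOn_univ.1 h2
  exact isClosed_le continuous_const h1

/-- inside the disc of radius `infDist` there are no good points -/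
theorem lt_of_ball {F : ℂ → EN N} {z w : ℂ} (h : ‖w - z‖ < infDist z (Gd rho δ F)) : rho (F w) < δ := by
  by_contra hcon
  have h1 : w ∈ Gd rho δ F := not_lt.1 hcon
  have h2 := infDist_le_dist_of_mem (x := z) h1
  rw [dist_comm, dist_eq_norm] at h2
  linarith

/-- the limit of normalised vectors of `K` -/
theorem mem_lim (hG : G.Ok) {l : Filter ℕ} [l.NeBot] {x : ℕ → EN N} {y : EN N} (hx : ∀ᶠ k in l, x k ∈ G.K ∧ G.p (x k) = 1) (hy : Tendsto x l (𝓝 y)) :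
    y ∈ G.K ∧ G.p y = 1 := by
  have hc : Continuous G.p := continuous_iff_continuousAt.2 fun x => (hG.aff.an () x).continuousAt
  have h2 : G.p y = 1 := by
    have h3 := (hc.tendsto y).comp hy
    refine tendsto_nhds_unique h3 (tendsto_const_nhds.congr' ?_)
    filter_upwards [hx] with k hk
    exact hk.2.symm
  have h5 : y ≠ 0 := by
    rintro rfl
    have h6 := p_smul hG 0 (0 : EN N)
    have h7 : 1 ≤ G.h := hG.aff.pos ()
    rw [zero_pow (by omega), zero_mul, smul_zero, h2] at h6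
    exact one_ne_zero h6
  have h1 : closure G.X ⊆ insert 0 G.X := closure_minimal (Set.subset_insert 0 G.X) hG.cone.closed
  have h3 : y ∈ closure G.X := mem_closure_of_tendsto hy (by filter_upwards [hx] with k hk using KX hG hk.1)
  refine ⟨(mem_K_iff hG).2 ⟨(Set.mem_insert_iff.1 (h1 h3)).resolve_left h5, ?_⟩, h2⟩
  rw [h2]
  exact one_ne_zero

end Pool.Agent.SR3

end
end

section

/-!
# SR3 ALam: the functions `lam i`
-/

set_option autoImplicit false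

open Topology Filter Metric

noncomputable section

namespace Pool.Agent.SR3

open Pool.Agent.H36.BP (EN fs wd Sub OrdTwo)
open Pool.Agent.H14.PP (IsCone Tan)
open Pool.Agent.SY (Ent)
open Pool.Agent.SDA (EnergyK Near AffOpen Nm nForms)
open Geo (Gd)

variable {N : ℕ} {G : Geo N}

/-- a homogeneous continuous function is bounded by a power of the norm -/
theorem ALam_hom {V : Type*} [NormedAddCommGroup V] [NormedSpace ℂ V] {f : EN N → V} {c : ℕ} (hf : Continuous f)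
    (hs : ∀ (t : ℂ) (x : EN N), f (t • x) = t ^ c • f x) : ∃ B : ℝ, 1 ≤ B ∧ ∀ x : EN N, ‖x‖ ≠ 0 → ‖f x‖ ≤ B * ‖x‖ ^ c := by
  obtain ⟨B, hB⟩ := ((isCompact_closedBall (0 : EN N) 1).image hf.norm).isBounded.bddAbove
  refine ⟨max B 1, le_max_right _ _, fun x hx => ?_⟩
  have hx' : (‖x‖ : ℂ) ≠ 0 := by exact_mod_cast hx
  have h1 : x = (‖x‖ : ℂ) • ((‖x‖ : ℂ)⁻¹ • x) := by rw [smul_smul, mul_inv_cancel₀ hx', one_smul]
  have h2 : ‖f ((‖x‖ : ℂ)⁻¹ • x)‖ ≤ B := by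
    refine hB ⟨_, ?_, rfl⟩
    rw [mem_closedBall_zero_iff, norm_smul, norm_inv, Complex.norm_real, norm_norm, inv_mul_cancel₀ hx]
  have h3 : f x = (‖x‖ : ℂ) ^ c • f ((‖x‖ : ℂ)⁻¹ • x) := by
    conv_lhs => rw [h1]
    rw [hs]
  rw [h3, norm_smul, norm_pow, Complex.norm_real, norm_norm, mul_comm]
  exact mul_le_mul_of_nonneg_right (h2.trans (le_max_left _ _)) (by positivity)

theorem log_lower (hG : G.Ok) : ∃ B : ℝ, 0 ≤ B ∧ ∀ x : EN N, G.p x = 1 → -B ≤ Real.log ‖x‖ := by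
  have hc : Continuous G.p := continuous_iff_continuousAt.2 fun x => (hG.aff.an () x).continuousAt
  obtain ⟨B, hB1, hB⟩ := ALam_hom hc fun t x => by rw [p_smul hG, smul_eq_mul]
  have hh : 1 ≤ G.h := hG.aff.pos ()
  refine ⟨Real.log B, Real.log_nonneg hB1, fun x hx => ?_⟩
  have h0 : ‖x‖ ≠ 0 := by
    intro h0
    rw [norm_eq_zero] at h0
    rw [h0] at hx
    have h6 := p_smul hG 0 (0 : EN N)
    rw [zero_pow (by omega), zero_mul, smul_zero, hx] at h6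
    exact one_ne_zero h6
  have hxp : 0 < ‖x‖ := lt_of_le_of_ne (norm_nonneg _) (Ne.symm h0)
  have h1 := hB x h0
  rw [hx, norm_one] at h1
  have h2 : Real.log 1 ≤ Real.log (B * ‖x‖ ^ G.h) := Real.log_le_log one_pos h1
  rw [Real.log_one, Real.log_mul (by positivity) (by positivity), Real.log_pow] at h2
  by_cases h3 : 0 ≤ Real.log ‖x‖
  · linarith [Real.log_nonneg hB1]
  · have h4 : (1 : ℝ) ≤ G.h := by exact_mod_cast hh
    nlinarith [Real.log_nonneg hB1]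

theorem lam_lowerA (hG : G.Ok) : ∃ B : ℝ, 0 ≤ B ∧ ∀ i, ∀ x ∈ G.K, -B ≤ G.lam i x := by
  have h1 : ∀ i : G.ι, ∃ B : ℝ, 1 ≤ B ∧ ∀ x : EN N, ‖x‖ ≠ 0 → ‖G.E i x‖ ≤ B * ‖x‖ ^ G.c i := fun i =>
    ALam_hom (continuous_iff_continuousAt.2 fun x => (hG.anE i x).continuousAt) fun t x => hG.smulE i t x
  choose B hB1 hB using h1
  refine ⟨∑ i, Real.log (B i), Finset.sum_nonneg fun i _ => Real.log_nonneg (hB1 i), fun i x hx => ?_⟩
  have hx0 : ‖x‖ ≠ 0 := norm_ne_zero_iff.2 (ne0 hG hx)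
  have hxp : 0 < ‖x‖ := norm_pos_iff.2 (ne0 hG hx)
  have hE : 0 < ‖G.E i x‖ := norm_pos_iff.2 (hG.neE i x hx)
  have h2 : Real.log ‖G.E i x‖ ≤ Real.log (B i * ‖x‖ ^ G.c i) := Real.log_le_log hE (hB i x hx0)
  have hBp : 0 < B i := lt_of_lt_of_le one_pos (hB1 i)
  rw [Real.log_mul hBp.ne' (by positivity), Real.log_pow] at h2
  have h3 : Real.log (B i) ≤ ∑ i, Real.log (B i) :=
    Finset.single_le_sum (f := fun i => Real.log (B i)) (fun i _ => Real.log_nonneg (hB1 i)) (Finset.mem_univ i)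
  unfold Geo.lam
  linarith

theorem lam_upperA (hG : G.Ok) : ∃ B : ℝ, 0 ≤ B ∧ ∀ x ∈ G.K, G.p x = 1 → (∀ i, G.lam i x ≤ G.h * Real.log ‖x‖ + B) ∧
    G.h * Real.log ‖x‖ ≤ ∑ i, G.b i * G.lam i x + B ∧ ∑ i, G.b i * G.lam i x ≤ G.h * Real.log ‖x‖ + B := by
  obtain ⟨B, hB0, hB⟩ := lam_lowerA hG
  obtain ⟨C, hC⟩ := hG.cmp
  have hS : (0 : ℝ) ≤ ∑ i, (G.b i : ℝ) := Finset.sum_nonneg fun _ _ => Nat.cast_nonneg _
  refine ⟨|C| + B * ∑ i, (G.b i : ℝ), by positivity, fun x hx hp => ?_⟩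
  have h1 := hC x hx
  rw [hp, norm_one, Real.log_one, sub_zero, abs_le] at h1
  have hCa := le_abs_self C
  have hBS : 0 ≤ B * ∑ i, (G.b i : ℝ) := by positivity
  refine ⟨fun i => ?_, by linarith, by linarith⟩
  have h2 : ∑ j, ((G.b j : ℝ) * (G.lam j x + B)) = ∑ j, G.b j * G.lam j x + B * ∑ j, (G.b j : ℝ) := by
    rw [Finset.mul_sum, ← Finset.sum_add_distrib]
    exact Finset.sum_congr rfl fun j _ => by ring
  have h3 : (G.b i : ℝ) * (G.lam i x + B) ≤ ∑ j, ((G.b j : ℝ) * (G.lam j x + B)) :=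
    Finset.single_le_sum (f := fun j => (G.b j : ℝ) * (G.lam j x + B))
      (fun j _ => mul_nonneg (Nat.cast_nonneg _) (by linarith [hB j x hx])) (Finset.mem_univ i)
  have h4 : (1 : ℝ) ≤ G.b i := by exact_mod_cast hG.b_pos i
  have h5 : G.lam i x + B ≤ G.b i * (G.lam i x + B) := by nlinarith [hB i x hx]
  linarith

end Pool.Agent.SR3

end
end
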