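import Pool.Agent.H43.TL2.M32

/-! The parts of this file: SDA.Ab, SY.A. -/

section

/-!
# SDA Ab: the local bound of the metric
-/

set_option autoImplicit false

open Topology Filter Metric

noncomputable section

namespace Pool.Agent.SDA

open Pool.Agent.H36.BP (EN fs wd Sub)
open Pool.Agent.H14.PP (IsCone Tan CurveAt)
open Pool.Agent.SY (Ent Energy)

variable {N : ℕ} {ι : Type} [Fintype ι] {X K T : Set (EN N)} {P : ι → EN N → ℂ} {d : ι → ℕ} {rho : EN N → ℝ} {M : ℕ} {c₀ C : ℝ}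
  {g : (ℂ → EN N) → ℂ → ℝ} {n : EN N → EN N → ℝ}

/-- product of a nonnegative upper semicontinuous function and a nonnegative continuous function -/
theorem Ab_usc_mul {α : Type*} [TopologicalSpace α] {S : Set α} {u k : α → ℝ} (hu : UpperSemicontinuousOn u S)
    (hk : ContinuousOn k S) (hu0 : ∀ x ∈ S, 0 ≤ u x) (hk0 : ∀ x ∈ S, 0 ≤ k x) :
    UpperSemicontinuousOn (fun x => u x * k x) S := by
  intro x hx y hy
  have ht : Tendsto (fun ε : ℝ => (u x + ε) * (k x + ε)) (𝓝[>] 0) (𝓝 ((u x + 0) * (k x + 0))) := by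
    apply tendsto_nhdsWithin_of_tendsto_nhds
    have hc : Continuous (fun ε : ℝ => (u x + ε) * (k x + ε)) := by fun_prop
    exact hc.tendsto 0
  have hy' : (u x + 0) * (k x + 0) < y := by simpa using hy
  obtain ⟨ε, hε1, hε2⟩ := ((ht.eventually_lt_const hy').and self_mem_nhdsWithin).exists
  have hε : (0 : ℝ) < ε := hε2
  have h1 : ∀ᶠ x' in 𝓝[S] x, u x' < u x + ε := hu x hx _ (by linarith)
  have h2 : ∀ᶠ x' in 𝓝[S] x, k x' < k x + ε := (hk x hx).eventually_lt_const (by linarith)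
  filter_upwards [h1, h2, self_mem_nhdsWithin] with x' h1' h2' hx'
  refine lt_of_le_of_lt ?_ hε1
  exact mul_le_mul h1'.le h2'.le (hk0 x' hx') (by linarith [hu0 x hx])

/-- Zalcman's rescaling near `0` -/
theorem Ab_rescale {nu : EN N → ℝ} (E : Energy K T nu rho M c₀ C g) {F : ℂ → EN N} (hF : Ent K T F) (k : ℕ)
    (hz : 4 * ((k : ℝ) + 1) < g F 0) :
    ∃ (a : ℝ) (b : ℂ), 4 * ((k : ℝ) + 1) < a ∧ ‖b‖ ≤ 1 / 2 ∧ g (fun w => F (((a⁻¹ : ℝ) : ℂ) * w + b)) 0 = 1 ∧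
      ∀ z ∈ ball (0 : ℂ) (k + 1), g (fun w => F (((a⁻¹ : ℝ) : ℂ) * w + b)) z ≤ 2 := by
  have hn : (0 : ℝ) ≤ k := Nat.cast_nonneg k
  obtain ⟨u, hu⟩ : ∃ u : ℂ → ℝ, u = fun z => g F z * (1 / 2 - ‖z‖) := ⟨_, rfl⟩
  have husc : UpperSemicontinuousOn u (closedBall (0 : ℂ) (1 / 2)) := by
    rw [hu]
    refine Ab_usc_mul ?_ (by fun_prop) (fun x _ => E.nonneg F hF _) ?_
    · intro x _ y hy
      exact mem_nhdsWithin_of_mem_nhds (E.usc F hF x y hy)
    · intro x hx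
      have : ‖x‖ ≤ 1 / 2 := by simpa using hx
      linarith
  obtain ⟨z₀, hz₀, hmax⟩ := husc.exists_isMaxOn ⟨0, by simp⟩ (isCompact_closedBall _ _)
  have hz₀n : ‖z₀‖ ≤ 1 / 2 := by simpa using hz₀
  have h0 : u 0 ≤ u z₀ := hmax (by simp : (0 : ℂ) ∈ closedBall (0 : ℂ) (1 / 2))
  have hu0 : u 0 = g F 0 / 2 := by simp only [hu, norm_zero]; ring
  have hm : 2 * ((k : ℝ) + 1) < u z₀ := by rw [hu0] at h0; linarith
  obtain ⟨e, hd⟩ : ∃ e : ℝ, e = 1 / 2 - ‖z₀‖ := ⟨_, rfl⟩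
  have hd0 : 0 ≤ e := by rw [hd]; linarith
  have hd1 : e ≤ 1 / 2 := by rw [hd]; linarith [norm_nonneg z₀]
  obtain ⟨a, ha⟩ : ∃ a : ℝ, a = g F z₀ := ⟨_, rfl⟩
  have ha0 : 0 ≤ a := by rw [ha]; exact E.nonneg F hF _
  have huz : u z₀ = a * e := by rw [hu, ha, hd]
  have hmd : 2 * ((k : ℝ) + 1) < a * e := by rw [← huz]; exact hm
  have hpos : 0 < a * e := by linarith
  have hapos : 0 < a := by
    rcases ha0.lt_or_eq with h | h
    · exact h
    · rw [← h] at hpos; simp at hpos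
  have hdpos : 0 < e := by
    rcases hd0.lt_or_eq with h | h
    · exact h
    · rw [← h] at hpos; simp at hpos
  have hbig : 4 * ((k : ℝ) + 1) < a := by
    have h1 : a * e ≤ a * (1 / 2) := mul_le_mul_of_nonneg_left hd1 hapos.le
    linarith
  have hac : (((a⁻¹ : ℝ)) : ℂ) ≠ 0 := by exact_mod_cast inv_ne_zero hapos.ne'
  have haff : ∀ z, g (fun w => F (((a⁻¹ : ℝ) : ℂ) * w + z₀)) z = a⁻¹ * g F (((a⁻¹ : ℝ) : ℂ) * z + z₀) := by
    intro z
    rw [E.aff F hF _ _ hac z, Complex.norm_real, Real.norm_of_nonneg (by positivity)]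
  refine ⟨a, z₀, hbig, hz₀n, ?_, ?_⟩
  · rw [haff, mul_zero, zero_add, ← ha]
    exact inv_mul_cancel₀ hapos.ne'
  · intro ζ hζ
    have hζn : ‖ζ‖ < k + 1 := by simpa using hζ
    obtain ⟨y, hy⟩ : ∃ y : ℂ, y = z₀ + ((a⁻¹ : ℝ) : ℂ) * ζ := ⟨_, rfl⟩
    have h1 : ‖y‖ ≤ ‖z₀‖ + a⁻¹ * ‖ζ‖ := by
      rw [hy]
      calc ‖z₀ + ((a⁻¹ : ℝ) : ℂ) * ζ‖ ≤ ‖z₀‖ + ‖((a⁻¹ : ℝ) : ℂ) * ζ‖ := norm_add_le _ _
        _ = ‖z₀‖ + a⁻¹ * ‖ζ‖ := by
          rw [norm_mul, Complex.norm_real, Real.norm_of_nonneg (by positivity)]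
    have h2 : a⁻¹ * ‖ζ‖ ≤ e / 2 := by
      rw [inv_mul_le_iff₀ hapos]
      linarith
    have h3 : ‖z₀‖ = 1 / 2 - e := by rw [hd]; ring
    have h4 : ‖y‖ ≤ 1 / 2 - e / 2 := by linarith
    have hyb : y ∈ closedBall (0 : ℂ) (1 / 2) := by
      rw [mem_closedBall_zero_iff]
      linarith
    have h5 : u y ≤ u z₀ := hmax hyb
    have h6 : u y = g F y * (1 / 2 - ‖y‖) := by rw [hu]
    rw [h6, huz] at h5
    have h7 : 0 ≤ g F y := E.nonneg F hF _
    have h8 : g F y * (e / 2) ≤ a * e := le_trans (mul_le_mul_of_nonneg_left (by linarith) h7) h5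
    have h9 : g F y ≤ 2 * a := by
      by_contra hc
      push Not at hc
      have : 2 * a * (e / 2) < g F y * (e / 2) := mul_lt_mul_of_pos_right hc (by linarith)
      linarith
    rw [haff, inv_mul_le_iff₀ hapos]
    have h10 : ((a⁻¹ : ℝ) : ℂ) * ζ + z₀ = y := by rw [hy]; ring
    rw [h10]
    linarith

theorem Ab_smul_mem (h : AffOpen X K P d) (hX : IsCone X) {x : EN N} (hx : x ∈ K) {c : ℂ} (hc : c ≠ 0) : c • x ∈ K := by
  rw [h.mem] at hx ⊢
  refine ⟨hX.smul_mem _ hx.1 c hc, fun i => ?_⟩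
  rw [h.smul]
  exact mul_ne_zero (pow_ne_zero _ hc) (hx.2 i)

end Pool.Agent.SDA

end
end

section

/-!
# SY A: a bound of the metric along the entire curves of constant length one
-/

set_option autoImplicit false

open Topology Filter Metric

noncomputable section

namespace Pool.Agent.SY

open Pool.Agent.H36.BP (EN fs wd Sub)
open Pool.Agent.H14.PP (IsCone CurveAt)

variable {N : ℕ} {X T : Set (EN N)} {rho : EN N → ℝ} {M : ℕ} {c₀ C : ℝ} {g : (ℂ → EN N) → ℂ → ℝ}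

theorem Ent.comp_affine {V : Type} [NormedAddCommGroup V] [NormedSpace ℂ V] {X T : Set V} {F : ℂ → V} (hF : Ent X T F) {a : ℂ}
    (ha : a ≠ 0) (b : ℂ) : Ent X T (fun w => F (a * w + b)) := by
  refine ⟨?_, fun z => hF.mem _, ?_⟩
  · exact hF.diff.comp ((differentiable_id.const_mul a).add_const b)
  · obtain ⟨z, hz⟩ := hF.out
    refine ⟨(z - b) / a, ?_⟩
    have h1 : a * ((z - b) / a) + b = z := by
      field_simp
      ring
    show F (a * ((z - b) / a) + b) ∉ T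
    rw [h1]
    exact hz

end Pool.Agent.SY

end
end
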