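import Pool.Agent.H43.TL2.M137
import Pool.Agent.H43.TL2.M25
import Pool.Agent.H43.TL2.M32

/-! The parts of this file: SDA.La, SR3.ARad, SR3.ASq, SDA.Th, SY.PotM. -/

section

/-!
# SDA La: the functions `lam`

`sub_phi`: with `α w = ⟨x₀, F w⟩ / |x₀|²`, `|F w| ≥ |α w| |x₀|`, so `κ + lam (F w) ≥ Re t w`, `t` holomorphic, with equality at `z`, `t' = - ell`.
-/

set_option autoImplicit false

open Topology Filter Metric

noncomputable section

namespace Pool.Agent.SDA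

open Pool.Agent.H36.BP (EN fs wd Sub)

variable {N : ℕ} {ι : Type} [Fintype ι] {X K T : Set (EN N)} {P : ι → EN N → ℂ} {d : ι → ℕ}

/-- the exponential of the square of the real part of a holomorphic function -/
theorem La.sub_exp_re {m : ℂ → ℂ} {z₀ : ℂ} (hm : AnalyticAt ℂ m z₀) :
    Sub (fun z => Real.exp ((m z).re ^ 2)) z₀ (1 / 2 * ‖deriv m z₀‖ ^ 2) := by
  have h1 := Pool.Agent.H36.BP.Sub.exp_sq hm (1 / 2)
  have h2 : AnalyticAt ℂ (fun z => Complex.exp (((1 / 2 : ℝ) : ℂ) * (m z) ^ 2)) z₀ := (analyticAt_const.mul (hm.pow 2)).cexp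
  have h3 := Pool.Agent.H36.BP.Sub.of_holo h2 (Complex.exp_ne_zero _)
  have h4 := h1.mul h3
  rw [add_zero] at h4
  refine h4.congr (Eventually.of_forall fun z => ?_)
  show Real.exp (1 / 2 * ‖m z‖ ^ 2) * ‖Complex.exp (((1 / 2 : ℝ) : ℂ) * (m z) ^ 2)‖ = Real.exp ((m z).re ^ 2)
  rw [Complex.norm_exp, ← Real.exp_add, Complex.sq_norm, Complex.normSq_apply]
  congr 1
  rw [Complex.re_ofReal_mul, sq, sq, Complex.mul_re]
  ring

/-- finite products -/
theorem La.sub_sum {κ : Type} (s : Finset κ) {u : κ → ℂ → ℝ} {c : κ → ℝ} {z₀ : ℂ} (h : ∀ i ∈ s, Sub (fun z => Real.exp (u i z)) z₀ (c i)) :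
    Sub (fun z => Real.exp (∑ i ∈ s, u i z)) z₀ (∑ i ∈ s, c i) := by
  classical
  induction s using Finset.induction_on with
  | empty =>
    have h1 := Pool.Agent.H36.BP.Sub.const one_pos z₀
    simpa using h1
  | insert a s ha ih =>
    have h1 := h a (Finset.mem_insert_self a s)
    have h2 := ih fun i hi => h i (Finset.mem_insert_of_mem hi)
    have h3 := h1.mul h2
    rw [Finset.sum_insert ha]
    refine h3.congr (Eventually.of_forall fun z => ?_)
    show Real.exp (u a z) * Real.exp (∑ i ∈ s, u i z) = Real.exp (∑ i ∈ insert a s, u i z)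
    rw [Finset.sum_insert ha, Real.exp_add]

end Pool.Agent.SDA

end
end

section

/-!
# SR3 ARad: the radial weight

`‖z - c‖ ≥ Re (e⁻¹ (z - c))`, `|e| = 1`, with equality at `w`, so `exp (k (‖z - c‖ - r₀)²) ≥ exp (k (Re m)²)`, `m = e⁻¹ (z - c) - r₀`, `SDA.La.sub_exp_re`.
-/

set_option autoImplicit false

open Topology Filter Metric

noncomputable section

namespace Pool.Agent.SR3

open Pool.Agent.H36.BP (EN fs wd Sub)

theorem sub_rad' {k r₀ : ℝ} (hk : 0 ≤ k) {c w : ℂ} (h : r₀ < ‖w - c‖) : Sub (fun z => Real.exp (k * max (‖z - c‖ - r₀) 0 ^ 2)) w (k / 2) := by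
  -- the direction
  obtain ⟨e, he, hew⟩ : ∃ e : ℂ, ‖e‖ = 1 ∧ e * (w - c) = (‖w - c‖ : ℂ) := by
    by_cases h0 : w - c = 0
    · exact ⟨1, norm_one, by rw [h0]; simp⟩
    · have h1 : (‖w - c‖ : ℂ) ≠ 0 := by exact_mod_cast norm_ne_zero_iff.2 h0
      refine ⟨(‖w - c‖ : ℂ) / (w - c), ?_, div_mul_cancel₀ _ h0⟩
      rw [norm_div, Complex.norm_real, norm_norm, div_self (norm_ne_zero_iff.2 h0)]
  obtain ⟨m, hm⟩ : ∃ m : ℂ → ℂ, m = fun z => (√k : ℂ) * (e * (z - c) - (r₀ : ℂ)) := ⟨_, rfl⟩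
  have hma : AnalyticAt ℂ m w := by
    rw [hm]
    exact analyticAt_const.mul ((analyticAt_const.mul (analyticAt_id.sub analyticAt_const)).sub analyticAt_const)
  have hmd : deriv m w = (√k : ℂ) * e := by
    have h1 : HasDerivAt (fun z : ℂ => (√k : ℂ) * (e * (z - c) - (r₀ : ℂ))) ((√k : ℂ) * (e * 1)) w :=
      ((((hasDerivAt_id w).sub_const c).const_mul e).sub_const _).const_mul _
    rw [hm, h1.deriv, mul_one]
  have hmre : ∀ z, (m z).re = √k * ((e * (z - c)).re - r₀) := fun z => by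
    rw [hm]
    show (((√k : ℝ) : ℂ) * (e * (z - c) - (r₀ : ℂ))).re = _
    rw [Complex.re_ofReal_mul, Complex.sub_re, Complex.ofReal_re]
  have hsq : ∀ z, (m z).re ^ 2 = k * ((e * (z - c)).re - r₀) ^ 2 := fun z => by
    rw [hmre, mul_pow, Real.sq_sqrt hk]
  have hs := Pool.Agent.SDA.La.sub_exp_re hma
  have hc : 1 / 2 * ‖deriv m w‖ ^ 2 = k / 2 := by
    rw [hmd, norm_mul, he, mul_one, Complex.norm_real, Real.norm_of_nonneg (Real.sqrt_nonneg _), Real.sq_sqrt hk]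
    ring
  rw [hc] at hs
  have hwre : (e * (w - c)).re = ‖w - c‖ := by rw [hew, Complex.ofReal_re]
  refine hs.mono ?_ ?_
  · show Real.exp ((m w).re ^ 2) = Real.exp (k * max (‖w - c‖ - r₀) 0 ^ 2)
    rw [hsq, hwre, max_eq_left (by linarith)]
  · have h1 : ∀ᶠ z in 𝓝 w, r₀ < (e * (z - c)).re := by
      have h2 : Continuous fun z : ℂ => (e * (z - c)).re := by fun_prop
      have h3 : r₀ < (e * (w - c)).re := by rw [hwre]; exact h
      exact continuousAt_const.eventually_lt h2.continuousAt h3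
    filter_upwards [h1] with z hz
    show Real.exp ((m z).re ^ 2) ≤ Real.exp (k * max (‖z - c‖ - r₀) 0 ^ 2)
    rw [hsq]
    refine Real.exp_le_exp.2 (mul_le_mul_of_nonneg_left ?_ hk)
    have h2 : (e * (z - c)).re ≤ ‖z - c‖ := by
      refine (Complex.re_le_norm _).trans (le_of_eq ?_)
      rw [norm_mul, he, one_mul]
    refine pow_le_pow_left₀ (by linarith) ?_ 2
    exact le_trans (by linarith) (le_max_left _ _)

theorem sub_rad (k r₀ : ℝ) (hk : 0 ≤ k) (c w : ℂ) : Sub (fun z => Real.exp (k * max (‖z - c‖ - r₀) 0 ^ 2)) w 0 := by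
  by_cases h : r₀ < ‖w - c‖
  · exact (sub_rad' hk h).anti (by linarith)
  · refine (Pool.Agent.H36.BP.Sub.const one_pos w).mono ?_ (Eventually.of_forall fun z => ?_)
    · show (1 : ℝ) = Real.exp (k * max (‖w - c‖ - r₀) 0 ^ 2)
      rw [max_eq_right (by linarith [not_lt.1 h])]
      simp
    · exact Real.one_le_exp (by positivity)

end Pool.Agent.SR3

end
end

section

/-!
# SR3 ASq: the square of a function with a lower support

`Lap (u ^ 2) = 2 |grad u| ^ 2 + 2 u Lap u`: from a lower support `Re t + c' |w - z| ^ 2` of `u` at `z` (`t` holomorphic, `t z = u z`) the first order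
condition gives `deriv t z = l`, and near `z`, `u ^ 2 ≥ (Re t) ^ 2 + (2 c' u z - ε) |w - z| ^ 2`.
-/

set_option autoImplicit false

open Topology Filter Metric

noncomputable section

namespace Pool.Agent.SR3

open Pool.Agent.H36.BP (Sub)

/-- the derivative of the real part of a holomorphic function -/
theorem ASq.hasFDerivAt_re {t : ℂ → ℂ} {z t' : ℂ} (h : HasDerivAt t t' z) : HasFDerivAt (fun w => (t w).re) (reL t') z := by
  have h1 := (Complex.reCLM.hasFDerivAt (x := t z)).comp z (h.hasFDerivAt.restrictScalars ℝ)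
  refine h1.congr_fderiv ?_
  ext w
  simp
  ring

theorem ASq.reL_injective {l l' : ℂ} (h : reL l = reL l') : l = l' := by
  have h1 := congrArg (fun f : ℂ →L[ℝ] ℝ => f 1) h
  have h2 := congrArg (fun f : ℂ →L[ℝ] ℝ => f Complex.I) h
  simp only [reL_apply, mul_one, Complex.mul_re, Complex.I_re, Complex.I_im, mul_zero, zero_sub] at h1 h2
  exact Complex.ext h1 (neg_injective h2)

/-- `Lap (u ^ 2) = 2 |grad u| ^ 2 + 2 u Lap u` -/
theorem sub_sq {u : ℂ → ℝ} {z l : ℂ} {c : ℝ} (hs : Sub (fun w => Real.exp (u w)) z c) (hu : HasFDerivAt u (reL l) z) (h0 : 0 < u z) :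
    Sub (fun w => Real.exp (u w ^ 2)) z (1 / 2 * ‖l‖ ^ 2 + 2 * c * u z) := by
  refine Pool.Agent.H36.BP.Sub.of_forall fun d hd => ?_
  obtain ⟨η, hη⟩ : ∃ η : ℝ, η = 1 / 2 * ‖l‖ ^ 2 + 2 * c * u z - d := ⟨_, rfl⟩
  have hη0 : 0 < η := by rw [hη]; linarith
  obtain ⟨c', hc'⟩ : ∃ c' : ℝ, c' = c - η / (4 * u z) := ⟨_, rfl⟩
  have hcc : c' < c := by
    have h1 : 0 < η / (4 * u z) := by positivity
    rw [hc']
    linarith
  have hcu : 2 * c' * u z = 2 * c * u z - η / 2 := by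
    rw [hc']
    field_simp
    ring
  obtain ⟨h, hh, hhz, hhe⟩ := hs.2 c' hcc
  have hz0 : h z ≠ 0 := norm_pos_iff.1 (by rw [hhz]; exact Real.exp_pos _)
  obtain ⟨t, ht⟩ : ∃ t : ℂ → ℂ, t = fun w => (u z : ℂ) + Complex.log (h w / h z) := ⟨_, rfl⟩
  have htz : t z = u z := by
    rw [ht]
    show (u z : ℂ) + Complex.log (h z / h z) = u z
    rw [div_self hz0, Complex.log_one, add_zero]
  have hta : AnalyticAt ℂ t z := by
    rw [ht]
    refine analyticAt_const.add (AnalyticAt.clog (hh.div analyticAt_const hz0) ?_)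
    rw [div_self hz0]
    exact Complex.one_mem_slitPlane
  have hne : ∀ᶠ w in 𝓝 z, h w ≠ 0 := hh.continuousAt.eventually_ne hz0
  have hv : ∀ᶠ w in 𝓝 z, (t w).re + c' * ‖w - z‖ ^ 2 ≤ u w := by
    filter_upwards [hhe, hne] with w h2 h3
    have h1 : (t w).re = Real.log ‖h w‖ := by
      rw [ht]
      show ((u z : ℂ) + Complex.log (h w / h z)).re = _
      rw [Complex.add_re, Complex.ofReal_re, Complex.log_re, norm_div, Real.log_div (norm_ne_zero_iff.2 h3) (norm_ne_zero_iff.2 hz0), hhz,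
        Real.log_exp]
      ring
    rw [h1]
    have h4 := Real.log_le_log (mul_pos (norm_pos_iff.2 h3) (Real.exp_pos _)) h2
    rwa [Real.log_exp, Real.log_mul (norm_ne_zero_iff.2 h3) (Real.exp_ne_zero _), Real.log_exp] at h4
  -- the first order condition
  have hl : deriv t z = l := by
    have h1 : IsLocalMin (fun w => u w - (t w).re - c' * ‖w - z‖ ^ 2) z := by
      filter_upwards [hv] with w hw
      show u z - (t z).re - c' * ‖z - z‖ ^ 2 ≤ u w - (t w).re - c' * ‖w - z‖ ^ 2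
      rw [htz, sub_self, norm_zero, Complex.ofReal_re]
      linarith [sq_nonneg (0 : ℝ)]
    have h2 : HasFDerivAt (fun w : ℂ => c' * ‖w - z‖ ^ 2) (0 : ℂ →L[ℝ] ℝ) z := by
      have h3 := (((hasFDerivAt_id (𝕜 := ℝ) z).sub_const z).norm_sq).const_mul c'
      refine h3.congr_fderiv ?_
      ext w
      simp
    have h3 := (hu.sub (ASq.hasFDerivAt_re hta.differentiableAt.hasDerivAt)).sub h2
    have h4 := h1.hasFDerivAt_eq_zero h3
    rw [sub_zero, sub_eq_zero] at h4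
    exact (ASq.reL_injective h4).symm
  -- the comparison
  have h1 := Pool.Agent.SDA.La.sub_exp_re hta
  rw [hl] at h1
  have h2 := Pool.Agent.H36.BP.Sub.exp_sq (t := fun w : ℂ => w - z) (z₀ := z) (analyticAt_id.sub analyticAt_const) (2 * c' * u z - η / 2)
  have h2d : deriv (fun w : ℂ => w - z) z = 1 := by
    rw [deriv_sub_const, deriv_id'']
  rw [h2d, norm_one, one_pow, mul_one] at h2
  have h3 := h1.mul h2
  have hdd : 1 / 2 * ‖l‖ ^ 2 + (2 * c' * u z - η / 2) = d := by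
    rw [hcu, hη]
    ring
  rw [hdd] at h3
  refine h3.mono ?_ ?_
  · show Real.exp ((t z).re ^ 2) * Real.exp ((2 * c' * u z - η / 2) * ‖z - z‖ ^ 2) = Real.exp (u z ^ 2)
    rw [htz, Complex.ofReal_re, sub_self, norm_zero]
    norm_num
  · have hre : Tendsto (fun w => (t w).re) (𝓝 z) (𝓝 (u z)) := by
      have h4 := (Complex.continuous_re.continuousAt.comp hta.continuousAt).tendsto
      rw [Function.comp_apply, htz, Complex.ofReal_re] at h4
      exact h4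
    have hn : Tendsto (fun w : ℂ => c' * ‖w - z‖ ^ 2) (𝓝 z) (𝓝 0) := by
      have h4 : Continuous fun w : ℂ => c' * ‖w - z‖ ^ 2 := by fun_prop
      have h5 := h4.tendsto z
      simpa using h5
    have hpos : ∀ᶠ w in 𝓝 z, 0 < (t w).re + c' * ‖w - z‖ ^ 2 := by
      have h4 := hre.add hn
      rw [add_zero] at h4
      exact h4.eventually (lt_mem_nhds h0)
    have hcr : ∀ᶠ w in 𝓝 z, 2 * c' * u z - η / 2 < 2 * c' * (t w).re := by
      have h4 := hre.const_mul (2 * c')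
      exact h4.eventually (lt_mem_nhds (by linarith))
    filter_upwards [hv, hpos, hcr] with w h4 h5 h6
    rw [← Real.exp_add]
    refine Real.exp_le_exp.2 ?_
    have h7 : ((t w).re + c' * ‖w - z‖ ^ 2) ^ 2 ≤ u w ^ 2 := pow_le_pow_left₀ h5.le h4 2
    have h8 : (2 * c' * u z - η / 2) * ‖w - z‖ ^ 2 ≤ 2 * c' * (t w).re * ‖w - z‖ ^ 2 := mul_le_mul_of_nonneg_right h6.le (sq_nonneg _)
    nlinarith [sq_nonneg (c' * ‖w - z‖ ^ 2)]

end Pool.Agent.SR3

end
end

section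

/-!
# SDA Th: the part of the surface away from the curve

Where `rho ≥ δ`, the surface is compact and contained in `K`, the logarithmic length is at most a constant times the Fubini-Study length.
-/

set_option autoImplicit false

open Topology Filter Metric

noncomputable section

namespace Pool.Agent.SDA

open Pool.Agent.H36.BP (EN fs wd Sub OrdTwo)
open Pool.Agent.H14.PP (IsCone Tan)
open Pool.Agent.SY (Ent Energy)

variable {N : ℕ} {ι : Type} [Fintype ι] {X K T : Set (EN N)} {P : ι → EN N → ℂ} {d : ι → ℕ} {rho : EN N → ℝ} {M : ℕ} {c₀ C : ℝ}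
  {g : (ℂ → EN N) → ℂ → ℝ} {n : EN N → EN N → ℝ}

/-- the component of `v` orthogonal to `x` -/
def Th.pr (x v : EN N) : EN N := v - (inner ℂ x v / (‖x‖ : ℂ) ^ 2) • x

theorem Th.inner_pr {x : EN N} (hx : x ≠ 0) (v : EN N) : inner ℂ x (Th.pr x v) = 0 := by
  have h : ((‖x‖ : ℂ)) ^ 2 ≠ 0 := pow_ne_zero 2 (by simpa using hx)
  rw [Th.pr, inner_sub_right, inner_smul_right, inner_self_eq_norm_sq_to_K]
  exact sub_eq_zero.2 (div_mul_cancel₀ _ h).symm

theorem Th.decomp (x v : EN N) (a : ℂ) : v - a • x = (inner ℂ x v / (‖x‖ : ℂ) ^ 2 - a) • x + Th.pr x v := by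
  rw [Th.pr, sub_smul]
  abel

theorem Th.pyth {x : EN N} (hx : x ≠ 0) (v : EN N) (a : ℂ) :
    ‖v - a • x‖ ^ 2 = ‖inner ℂ x v / (‖x‖ : ℂ) ^ 2 - a‖ ^ 2 * ‖x‖ ^ 2 + ‖Th.pr x v‖ ^ 2 := by
  rw [Th.decomp x v a]
  have h := norm_add_sq_eq_norm_sq_add_norm_sq_of_inner_eq_zero ((inner ℂ x v / (‖x‖ : ℂ) ^ 2 - a) • x) (Th.pr x v)
    (by rw [inner_smul_left, Th.inner_pr hx, mul_zero])
  rw [← sq, ← sq, ← sq, norm_smul, mul_pow] at h
  exact h

theorem Th.pr_le {x : EN N} (hx : x ≠ 0) (v : EN N) (a : ℂ) : ‖Th.pr x v‖ ≤ ‖v - a • x‖ := by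
  refine le_of_sq_le_sq ?_ (norm_nonneg _)
  rw [Th.pyth hx v a]
  nlinarith [mul_nonneg (sq_nonneg ‖inner ℂ x v / (‖x‖ : ℂ) ^ 2 - a‖) (sq_nonneg ‖x‖)]

theorem Th.fs_eq {x : EN N} (hx : x ≠ 0) (v : EN N) : fs x v = ‖Th.pr x v‖ / ‖x‖ := by
  have hx0 : 0 < ‖x‖ := norm_pos_iff.2 hx
  have h := Th.pyth hx v 0
  rw [zero_smul, sub_zero, sub_zero, norm_div, norm_pow, Complex.norm_real, norm_norm] at h
  have h2 : ‖x‖ ^ 2 * ‖v‖ ^ 2 - ‖inner ℂ x v‖ ^ 2 = (‖x‖ * ‖Th.pr x v‖) ^ 2 := by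
    rw [h]
    field_simp
    ring
  rw [fs, wd, h2, Real.sqrt_sq (by positivity)]
  field_simp

/-- the part of the unit sphere where `rho ≥ δ` -/
theorem Th.compact (S : Setup X K T P d rho M c₀ C g n) (δ : ℝ) : IsCompact {x : EN N | x ∈ X ∧ ‖x‖ = 1 ∧ δ ≤ rho x} := by
  have h1 : IsClosed (X ∩ sphere (0 : EN N) 1) := by
    have h : X ∩ sphere (0 : EN N) 1 = insert 0 X ∩ sphere (0 : EN N) 1 := by
      ext x
      constructor
      · rintro ⟨h1, h2⟩
        exact ⟨Set.mem_insert_of_mem _ h1, h2⟩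
      · rintro ⟨h1, h2⟩
        rcases h1 with h1 | h1
        · rw [h1, mem_sphere_iff_norm, sub_zero, norm_zero] at h2
          norm_num at h2
        · exact ⟨h1, h2⟩
    rw [h]
    exact S.cone.closed.inter isClosed_sphere
  have h2 : IsCompact (X ∩ sphere (0 : EN N) 1) := (isCompact_sphere (0 : EN N) 1).of_isClosed_subset h1 Set.inter_subset_right
  have h3 : IsClosed ((X ∩ sphere (0 : EN N) 1) ∩ rho ⁻¹' Set.Ici δ) :=
    (S.rhoc.mono Set.inter_subset_left).preimage_isClosed_of_isClosed h1 isClosed_Ici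
  have h4 := h2.of_isClosed_subset h3 Set.inter_subset_left
  convert h4 using 1
  ext x
  constructor
  · rintro ⟨a, b, c⟩
    exact ⟨⟨a, by rw [mem_sphere_iff_norm, sub_zero]; exact b⟩, c⟩
  · rintro ⟨⟨a, b⟩, c⟩
    exact ⟨a, by rw [mem_sphere_iff_norm, sub_zero] at b; exact b, c⟩

theorem Th.mem_K (S : Setup X K T P d rho M c₀ C g n) {δ : ℝ} (hδ : 0 < δ) {x : EN N} (hx : x ∈ X) (h : δ ≤ rho x) : x ∈ K := by
  by_contra hK
  have h1 := S.KT x hx hK
  have h2 := (S.rhoT x hx).2 h1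
  linarith

/-- the unit vector of `x` -/
theorem Th.unit (S : Setup X K T P d rho M c₀ C g n) {δ : ℝ} {x : EN N} (hx : x ∈ X) (h : δ ≤ rho x) :
    x ≠ 0 ∧ ((‖x‖ : ℂ))⁻¹ • x ∈ {x : EN N | x ∈ X ∧ ‖x‖ = 1 ∧ δ ≤ rho x} := by
  have h0 : x ≠ 0 := fun h0 => S.cone.zero_notMem (h0 ▸ hx)
  have h1 : ((‖x‖ : ℂ))⁻¹ ≠ 0 := inv_ne_zero (by simpa using h0)
  refine ⟨h0, S.cone.smul_mem x hx _ h1, ?_, ?_⟩
  · rw [norm_smul, norm_inv, Complex.norm_real, norm_norm, inv_mul_cancel₀ (norm_ne_zero_iff.2 h0)]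
  · rw [S.rhos x hx _ h1]
    exact h

omit [Fintype ι] in
/-- the derivative of a homogeneous function -/
theorem Th.euler (h : AffOpen X K P d) (i : ι) (x : EN N) : fderiv ℂ (P i) x x = (d i : ℂ) * P i x := by
  have h1 : HasDerivAt (fun t : ℂ => P i (t • x)) (fderiv ℂ (P i) ((1 : ℂ) • x) ((1 : ℂ) • x)) 1 := by
    have h2 : HasFDerivAt (P i) (fderiv ℂ (P i) ((1 : ℂ) • x)) ((1 : ℂ) • x) := (h.an i _).differentiableAt.hasFDerivAt
    have h3 : HasDerivAt (fun t : ℂ => t • x) ((1 : ℂ) • x) 1 := (hasDerivAt_id (1 : ℂ)).smul_const x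
    exact h2.comp_hasDerivAt (1 : ℂ) h3
  have h4 : HasDerivAt (fun t : ℂ => P i (t • x)) ((d i : ℂ) * P i x) 1 := by
    have h5 : HasDerivAt (fun t : ℂ => t ^ d i * P i x) (((d i : ℂ) * (1 : ℂ) ^ (d i - 1)) * P i x) 1 := (hasDerivAt_pow (d i) (1 : ℂ)).mul_const (P i x)
    rw [one_pow, mul_one] at h5
    exact h5.congr_of_eventuallyEq (Eventually.of_forall fun t => h.smul i t x)
  have h6 := h1.unique h4
  rwa [one_smul] at h6

omit [Fintype ι] in
theorem Th.fderiv_smul (h : AffOpen X K P d) (i : ι) {c : ℂ} (x v : EN N) :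
    fderiv ℂ (P i) (c • x) (c • v) = c ^ d i * fderiv ℂ (P i) x v := by
  have h1 : HasFDerivAt (fun y : EN N => P i (c • y)) ((fderiv ℂ (P i) (c • x)).comp (c • ContinuousLinearMap.id ℂ (EN N))) x := by
    have h2 : HasFDerivAt (P i) (fderiv ℂ (P i) (c • x)) (c • x) := (h.an i _).differentiableAt.hasFDerivAt
    exact h2.comp x ((hasFDerivAt_id x).const_smul c)
  have h3 : HasFDerivAt (fun y : EN N => P i (c • y)) (c ^ d i • fderiv ℂ (P i) x) x := by
    have h4 : HasFDerivAt (P i) (fderiv ℂ (P i) x) x := (h.an i x).differentiableAt.hasFDerivAt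
    exact (h4.const_smul (c ^ d i)).congr_of_eventuallyEq (Eventually.of_forall fun y => h.smul i c y)
  have h5 := h1.unique h3
  have h6 := congrArg (fun L : EN N →L[ℂ] ℂ => L v) h5
  simpa using h6

/-- the logarithmic length where `rho ≥ δ` -/
theorem Th.lg_le (S : Setup X K T P d rho M c₀ C g n) {δ : ℝ} (hδ : 0 < δ) :
    ∃ B : ℝ, 0 ≤ B ∧ ∀ x ∈ X, δ ≤ rho x → ∀ v, Lg P d x v ≤ B * fs x v := by
  have hc := Th.compact S δ
  have hb : ∀ i, ∃ b : ℝ, ∀ x ∈ {x : EN N | x ∈ X ∧ ‖x‖ = 1 ∧ δ ≤ rho x}, ‖‖fderiv ℂ (P i) x‖ / ‖P i x‖‖ ≤ b := fun i => by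
    refine hc.exists_bound_of_continuousOn ?_
    have h1 : Continuous (P i) := continuous_iff_continuousAt.2 fun x => (S.aff.an i x).continuousAt
    have h2 : Continuous (fderiv ℂ (P i)) := continuous_iff_continuousAt.2 fun x => (S.aff.an i x).fderiv.continuousAt
    refine (h2.norm.continuousOn).div h1.norm.continuousOn fun x hx => ?_
    have h3 := (S.aff.mem x).1 (Th.mem_K S hδ hx.1 hx.2.2)
    exact norm_ne_zero_iff.2 (h3.2 i)
  choose b hb using hb
  refine ⟨1 + ∑ i, max (b i) 0, add_nonneg one_pos.le (Finset.sum_nonneg fun i _ => le_max_right _ _), fun x hx h v => ?_⟩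
  obtain ⟨h0, h1⟩ := Th.unit S hx h
  have hx0 : 0 < ‖x‖ := norm_pos_iff.2 h0
  have hc0 : (‖x‖ : ℂ) ≠ 0 := by simpa using h0
  rw [Lg, add_mul, one_mul, Finset.sum_mul]
  refine add_le_add le_rfl (Finset.sum_le_sum fun i _ => ?_)
  have hP : P i x ≠ 0 := ((S.aff.mem x).1 (Th.mem_K S hδ hx h)).2 i
  -- the term is the derivative along the orthogonal component
  have e1 : fderiv ℂ (P i) x v / P i x - (d i : ℂ) * (inner ℂ x v / (‖x‖ : ℂ) ^ 2) = fderiv ℂ (P i) x (Th.pr x v) / P i x := by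
    rw [Th.pr, map_sub, map_smul, Th.euler S.aff, smul_eq_mul]
    field_simp
  have e2 : fderiv ℂ (P i) x (Th.pr x v) = (‖x‖ : ℂ) ^ d i * fderiv ℂ (P i) (((‖x‖ : ℂ))⁻¹ • x) (((‖x‖ : ℂ))⁻¹ • Th.pr x v) := by
    rw [← Th.fderiv_smul S.aff i, smul_smul, smul_smul, mul_inv_cancel₀ hc0, one_smul, one_smul]
  have e3 : P i x = (‖x‖ : ℂ) ^ d i * P i (((‖x‖ : ℂ))⁻¹ • x) := by
    rw [← S.aff.smul i, smul_smul, mul_inv_cancel₀ hc0, one_smul]
  have e4 : P i (((‖x‖ : ℂ))⁻¹ • x) ≠ 0 := fun h => hP (by rw [e3, h, mul_zero])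
  rw [e1, e2, e3, mul_div_mul_left _ _ (pow_ne_zero _ hc0), norm_div, Th.fs_eq h0]
  have h2 := hb i _ h1
  rw [norm_div, norm_norm, norm_norm] at h2
  have h3 := (fderiv ℂ (P i) (((‖x‖ : ℂ))⁻¹ • x)).le_opNorm (((‖x‖ : ℂ))⁻¹ • Th.pr x v)
  have h4 : ‖((‖x‖ : ℂ))⁻¹ • Th.pr x v‖ = ‖Th.pr x v‖ / ‖x‖ := by
    rw [norm_smul, norm_inv, Complex.norm_real, norm_norm, div_eq_inv_mul]
  rw [h4] at h3
  have h5 : 0 ≤ ‖Th.pr x v‖ / ‖x‖ := by positivity
  have h6 : 0 < ‖P i (((‖x‖ : ℂ))⁻¹ • x)‖ := norm_pos_iff.2 e4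
  calc ‖fderiv ℂ (P i) (((‖x‖ : ℂ))⁻¹ • x) (((‖x‖ : ℂ))⁻¹ • Th.pr x v)‖ / ‖P i (((‖x‖ : ℂ))⁻¹ • x)‖
      ≤ (‖fderiv ℂ (P i) (((‖x‖ : ℂ))⁻¹ • x)‖ * (‖Th.pr x v‖ / ‖x‖)) / ‖P i (((‖x‖ : ℂ))⁻¹ • x)‖ := by gcongr
    _ = ‖fderiv ℂ (P i) (((‖x‖ : ℂ))⁻¹ • x)‖ / ‖P i (((‖x‖ : ℂ))⁻¹ • x)‖ * (‖Th.pr x v‖ / ‖x‖) := by ring
    _ ≤ max (b i) 0 * (‖Th.pr x v‖ / ‖x‖) := mul_le_mul_of_nonneg_right (h2.trans (le_max_left _ _)) h5

/-- the normalised vectors where `rho ≥ δ` -/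
theorem Th.log_le (S : Setup X K T P d rho M c₀ C g n) {δ : ℝ} (hδ : 0 < δ) :
    ∃ C₂ : ℝ, ∀ x ∈ K, ∏ i, P i x = 1 → δ ≤ rho x → Real.log ‖x‖ ≤ C₂ := by
  have hc := Th.compact S δ
  have h1 : ∀ i, Continuous (P i) := fun i => continuous_iff_continuousAt.2 fun x => (S.aff.an i x).continuousAt
  have h2 : Continuous fun x => ‖∏ i, P i x‖ := (continuous_finsetProd _ fun i _ => h1 i).norm
  obtain ⟨c, hc0, hcb⟩ := hc.exists_forall_le' (a := 0) h2.continuousOn (fun x hx => by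
    have h3 := (S.aff.mem x).1 (Th.mem_K S hδ hx.1 hx.2.2)
    exact norm_pos_iff.2 (Finset.prod_ne_zero_iff.2 fun i _ => h3.2 i))
  refine ⟨|Real.log c|, fun x hx hP h => ?_⟩
  have hX : x ∈ X := ((S.aff.mem x).1 hx).1
  obtain ⟨h0, h3⟩ := Th.unit S hX h
  have hx0 : 0 < ‖x‖ := norm_pos_iff.2 h0
  have h4 := hcb _ h3
  simp only [S.aff.smul] at h4
  rw [Finset.prod_mul_distrib, hP, mul_one, Finset.prod_pow_eq_pow_sum, norm_pow, norm_inv, Complex.norm_real, norm_norm] at h4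
  by_cases hl : Real.log ‖x‖ ≤ 0
  · exact hl.trans (abs_nonneg _)
  · rw [not_le] at hl
    have h5 := Real.log_le_log hc0 h4
    rw [Real.log_pow, Real.log_inv] at h5
    have h6 : (1 : ℝ) ≤ ((∑ i, d i : ℕ) : ℝ) := by
      obtain ⟨i⟩ := S.aff.ne
      have h7 := Finset.single_le_sum (f := d) (fun j _ => Nat.zero_le _) (Finset.mem_univ i)
      exact_mod_cast (S.aff.pos i).trans h7
    have h7 := neg_abs_le (Real.log c)
    nlinarith

/-- MODULE Th: where `rho ≥ δ`: `F z` is in a compact part of the surface, `Lg ≤ C fs` there, so `fs ≥ c` by `growth`, and `lower` -/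
theorem thick (S : Setup X K T P d rho M c₀ C g n) {δ : ℝ} (hδ : 0 < δ) :
    ∃ d₁ C₂ : ℝ, 0 < d₁ ∧ (∀ F, Ent K T F → ∀ z, δ ≤ rho (F z) → 1 ≤ n (F z) (deriv F z) → d₁ ≤ g F z) ∧
      ∀ x ∈ K, ∏ i, P i x = 1 → δ ≤ rho x → Real.log ‖x‖ ≤ C₂ := by
  obtain ⟨B, hB, hL⟩ := Th.lg_le S hδ
  obtain ⟨C₂, hC₂⟩ := Th.log_le S hδ
  obtain ⟨C₁, hC₁, hG⟩ := S.gauge.growth 1 one_pos
  have hC := S.en.C_pos
  have hE : 0 < B + C₁ + 1 := by linarith
  refine ⟨δ ^ M / (C * (B + C₁ + 1)), C₂, div_pos (pow_pos hδ M) (mul_pos hC hE), fun F hF z hz hn => ?_, hC₂⟩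
  have hK := hF.mem z
  have hX : F z ∈ X := ((S.aff.mem _).1 hK).1
  obtain ⟨h0, -⟩ := Th.unit S hX hz
  have hx0 : 0 < ‖F z‖ := norm_pos_iff.2 h0
  -- the derivative is a tangent vector
  have hT : Tan X (F z) (deriv F z) := by
    refine ⟨fun w => F (z + w), ⟨?_, Eventually.of_forall fun w => ((S.aff.mem _).1 (hF.mem _)).1⟩, by simp, ?_⟩
    · have h1 : Differentiable ℂ fun w => F (z + w) := hF.diff.comp ((differentiable_const z).add differentiable_id)
      exact h1.analyticAt 0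
    · rw [deriv_comp_const_add, add_zero]
  have h1 := hG _ hK _ hT
  have h2 := hL _ hX hz (deriv F z)
  have h3 : 1 ≤ (B + C₁ + 1) * fs (F z) (deriv F z) := by
    have h4 : 0 ≤ fs (F z) (deriv F z) := by
      rw [Th.fs_eq h0]
      positivity
    nlinarith
  obtain ⟨a, ha⟩ := S.en.lower F hF z
  have h4 := Th.pr_le h0 (deriv F z) a
  have h5 : δ ^ M ≤ rho (F z) ^ M := pow_le_pow_left₀ hδ.le hz M
  have h6 : δ ^ M * ‖Th.pr (F z) (deriv F z)‖ ≤ C * ‖F z‖ * g F z :=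
    (mul_le_mul h5 h4 (norm_nonneg _) (pow_nonneg (hδ.le.trans hz) M)).trans ha
  have h7 : δ ^ M * fs (F z) (deriv F z) ≤ C * g F z := by
    rw [Th.fs_eq h0, ← mul_div_assoc, div_le_iff₀ hx0]
    calc δ ^ M * ‖Th.pr (F z) (deriv F z)‖ ≤ C * ‖F z‖ * g F z := h6
      _ = C * g F z * ‖F z‖ := by ring
  rw [div_le_iff₀ (mul_pos hC hE)]
  have h8 : 0 < δ ^ M := pow_pos hδ M
  calc δ ^ M = δ ^ M * 1 := (mul_one _).symm
    _ ≤ δ ^ M * ((B + C₁ + 1) * fs (F z) (deriv F z)) := mul_le_mul_of_nonneg_left h3 h8.le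
    _ = (B + C₁ + 1) * (δ ^ M * fs (F z) (deriv F z)) := by ring
    _ ≤ (B + C₁ + 1) * (C * g F z) := mul_le_mul_of_nonneg_left h7 hE.le
    _ = g F z * (C * (B + C₁ + 1)) := by ring

end Pool.Agent.SDA

end
end

section

/-!
# SY PotM: a maximum principle on discs without good points

`m` is upper semicontinuous, `m ≤ A`, and `log m` has Laplacian at least `4 κ` at the points where `0 < m < d`.
* `bound_of_no_good`: if `m < d` on a disc of centre `z₀` and radius `R` then `m p ≤ A exp (-(κ/2) (R² - |p - z₀|²))` there;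
* `exists_ge`: if `m` is positive somewhere, then `d ≤ m` somewhere.
-/

set_option autoImplicit false

namespace Pool.Agent.SY

open Filter Topology Metric
open Pool.Agent.H36.BP (EN Sub Sub.mul Sub.congr Sub.exp_sq max_principle)

/-- decay inside a disc, at the points of which `m` has large Laplacian -/
theorem decay {m : ℂ → ℝ} {z₀ : ℂ} {R A κ : ℝ} (hR : 0 < R) (hκ : 0 < κ) (hA0 : 0 ≤ A) (hm : UpperSemicontinuousOn m (closedBall z₀ R))
    (hA : ∀ z ∈ closedBall z₀ R, m z ≤ A) (hs : ∀ z ∈ ball z₀ R, 0 < m z → Sub m z κ) :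
    ∀ z ∈ closedBall z₀ R, m z ≤ A * Real.exp (-(κ / 2) * (R ^ 2 - ‖z - z₀‖ ^ 2)) := by
  have _ := hR
  have husc : UpperSemicontinuousOn (fun z => m z * Real.exp (-(κ / 2) * ‖z - z₀‖ ^ 2))
      (closedBall z₀ R) := by
    intro x hx y hy
    set h : ℂ → ℝ := fun z => Real.exp (-(κ / 2) * ‖z - z₀‖ ^ 2) with hh
    have hx0 : 0 < h x := Real.exp_pos _
    have h1 : m x < y / h x := (lt_div_iff₀ hx0).2 hy
    obtain ⟨a, ha1, ha2⟩ := exists_between h1
    have h2 : a * h x < y := (lt_div_iff₀ hx0).1 ha2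
    have hc : Continuous h := by
      rw [hh]
      fun_prop
    have h3 : ∀ᶠ z in 𝓝[closedBall z₀ R] x, a * h z < y :=
      (continuousWithinAt_const.mul hc.continuousWithinAt).tendsto.eventually (gt_mem_nhds h2)
    filter_upwards [hm x hx a ha1, h3] with z hz1 hz2
    exact (mul_lt_mul_of_pos_right hz1 (Real.exp_pos _)).trans hz2
  have key := max_principle (isCompact_closedBall z₀ R) isOpen_ball ball_subset_closedBall husc
    (A := A * Real.exp (-(κ / 2) * R ^ 2)) (fun z hz hz0 => ?_) (by positivity) (fun z hz => ?_)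
  · intro p hp
    have h1 := key p hp
    have h2 : Real.exp (-(κ / 2) * (R ^ 2 - ‖p - z₀‖ ^ 2)) =
        Real.exp (-(κ / 2) * R ^ 2) / Real.exp (-(κ / 2) * ‖p - z₀‖ ^ 2) := by
      rw [← Real.exp_sub]
      congr 1
      ring
    rw [h2, ← mul_div_assoc, le_div_iff₀ (Real.exp_pos _)]
    exact h1
  · have hm0 : 0 < m z := by
      by_contra h3
      exact absurd hz0 (not_lt.2 (mul_nonpos_of_nonpos_of_nonneg (not_lt.1 h3) (Real.exp_pos _).le))
    have hs1 := hs z hz hm0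
    have hs2 : Sub (fun w => Real.exp (-(κ / 2) * ‖w - z₀‖ ^ 2)) z
        (-(κ / 2) * ‖deriv (fun w : ℂ => w - z₀) z‖ ^ 2) :=
      Sub.exp_sq (analyticAt_id.sub analyticAt_const) _
    have h3 : deriv (fun w : ℂ => w - z₀) z = 1 := by
      rw [deriv_sub_const]
      exact deriv_id z
    rw [h3, norm_one, one_pow, mul_one] at hs2
    exact ⟨κ + -(κ / 2), by linarith, hs1.mul hs2⟩
  · have hz1 : z ∈ sphere z₀ R := by
      rw [← closedBall_sdiff_ball]
      exact hz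
    have hzn : ‖z - z₀‖ = R := mem_sphere_iff_norm.1 hz1
    show m z * Real.exp (-(κ / 2) * ‖z - z₀‖ ^ 2) ≤ _
    rw [hzn]
    exact mul_le_mul_of_nonneg_right (hA z (sphere_subset_closedBall hz1)) (Real.exp_pos _).le

theorem bound_of_no_good {m : ℂ → ℝ} {A d κ R : ℝ} {z₀ : ℂ} (hκ : 0 < κ) (hA0 : 0 ≤ A)
    (hR : 0 < R) (hm : UpperSemicontinuousOn m (closedBall z₀ R)) (hA : ∀ z ∈ closedBall z₀ R, m z ≤ A)
    (hsub : ∀ z ∈ ball z₀ R, 0 < m z → m z < d → Sub m z κ) (hd : ∀ z ∈ ball z₀ R, m z < d) :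
    ∀ p ∈ closedBall z₀ R, m p ≤ A * Real.exp (-(κ / 2) * (R ^ 2 - ‖p - z₀‖ ^ 2)) := by
  exact decay hR hκ hA0 hm hA fun z hz h0 => hsub z hz h0 (hd z hz)

theorem exists_ge {m : ℂ → ℝ} {A d κ : ℝ} (hκ : 0 < κ) (hA0 : 0 ≤ A)
    (hm : UpperSemicontinuous m) (hA : ∀ z, m z ≤ A)
    (hsub : ∀ z, 0 < m z → m z < d → Sub m z κ) {p : ℂ} (hp : 0 < m p) : ∃ y, d ≤ m y := by
  by_contra hno
  push Not at hno
  have h1 : ∀ n : ℕ, m p ≤ A * Real.exp (-(κ / 2) * (((n : ℝ) + 1) ^ 2)) := by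
    intro n
    have h2 := bound_of_no_good (z₀ := p) (R := n + 1) hκ hA0 (by positivity) (hm.upperSemicontinuousOn _)
      (fun z _ => hA z) (fun z _ => hsub z) (fun z _ => hno z) p
      (mem_closedBall_self (by positivity))
    rw [sub_self, norm_zero, zero_pow two_ne_zero, sub_zero] at h2
    exact h2
  have h3 : Tendsto (fun n : ℕ => A * Real.exp (-(κ / 2) * (((n : ℝ) + 1) ^ 2))) atTop (𝓝 (A * 0)) := by
    refine Tendsto.const_mul A (Real.tendsto_exp_atBot.comp ?_)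
    have h4 : Tendsto (fun n : ℕ => ((n : ℝ) + 1) ^ 2) atTop atTop :=
      (tendsto_pow_atTop two_ne_zero).comp
        (tendsto_atTop_add_const_right _ _ tendsto_natCast_atTop_atTop)
    exact h4.const_mul_atTop_of_neg (by linarith)
  have h4 : m p ≤ A * 0 := ge_of_tendsto' h3 h1
  rw [mul_zero] at h4
  linarith

end Pool.Agent.SY

end
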