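import Pool.Agent.H43.TL2.H17BP.ResS
import Pool.Agent.H43.TL2.H62.EF.PrA_1
import Pool.Agent.H43.TL2.M137
import Pool.Agent.H43.TL2.M138
import Pool.Agent.H43.TL2.M142

/-! The parts of this file: SR3.LCau, SR3.LinL. -/

section

/-!
# SR3 LCau: the Cauchy estimate

`g = F / ⟪y, F⟫ - y / ‖y‖ ^ 2` is orthogonal to `y`, `‖g‖ = wd y F / (|⟪y, F⟫| ‖y‖) ≤ τ / ‖y‖`; `fs F F' = fs (F / ⟪y, F⟫) g' ≤ ‖g'‖ ‖y‖`.
-/

set_option autoImplicit false

open Topology Filter Metric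

noncomputable section

namespace Pool.Agent.SR3

open Pool.Agent.H36.BP (EN fs wd fs_inv wd_le)
open Pool.Agent.H62.EF (MN pr norm_inner_sq)

variable {N : ℕ}

/-- the size of `x / ⟪y, x⟫ - y / ‖y‖ ^ 2` -/
private theorem norm_sub_le_of_dist {x y : EN N} (hx : x ≠ 0) (hy : y ≠ 0) {τ : ℝ} (hτ : τ ≤ 1 / 2) (h : dist (pr x) (pr y) ≤ τ) :
    (inner ℂ y x : ℂ) ≠ 0 ∧ ‖(inner ℂ y x : ℂ)⁻¹ • x - ((‖y‖ ^ 2 : ℝ) : ℂ)⁻¹ • y‖ ≤ τ / ‖y‖ := by
  have hx' : 0 < ‖x‖ := norm_pos_iff.2 hx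
  have hy' : 0 < ‖y‖ := norm_pos_iff.2 hy
  set d : ℝ := dist (pr x) (pr y) with hd
  have hd0 : 0 ≤ d := dist_nonneg
  have hd2 : d ^ 2 ≤ 1 / 4 := by nlinarith
  have h1 : ‖(inner ℂ y x : ℂ)‖ ^ 2 = ‖y‖ ^ 2 * ‖x‖ ^ 2 * (1 - d ^ 2 / 2) := by
    have := norm_inner_sq hy hx
    rwa [dist_comm, ← hd] at this
  have h2 : 0 < ‖(inner ℂ y x : ℂ)‖ ^ 2 := by
    rw [h1]
    have : 0 < 1 - d ^ 2 / 2 := by linarith
    positivity
  have hq : (inner ℂ y x : ℂ) ≠ 0 := by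
    intro h3
    rw [h3, norm_zero] at h2
    norm_num at h2
  refine ⟨hq, ?_⟩
  set q : ℂ := inner ℂ y x with hqd
  set u : EN N := q⁻¹ • x with hu
  set c : EN N := ((‖y‖ ^ 2 : ℝ) : ℂ)⁻¹ • y with hc
  have hyy : (inner ℂ y y : ℂ) = ((‖y‖ ^ 2 : ℝ) : ℂ) := by
    rw [inner_self_eq_norm_sq_to_K]
    push_cast
    rfl
  have hn0 : ((‖y‖ ^ 2 : ℝ) : ℂ) ≠ 0 := by
    exact_mod_cast (pow_pos hy' 2).ne'
  have h3 : (inner ℂ y (u - c) : ℂ) = 0 := by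
    rw [inner_sub_right, hu, hc, inner_smul_right, inner_smul_right, ← hqd, hyy, inv_mul_cancel₀ hq, inv_mul_cancel₀ hn0, sub_self]
  have h4 : (inner ℂ c (u - c) : ℂ) = 0 := by
    rw [hc, inner_smul_left, h3, mul_zero]
  have h5 : ‖u‖ ^ 2 = ‖c‖ ^ 2 + ‖u - c‖ ^ 2 := by
    have h6 := norm_add_sq_eq_norm_sq_add_norm_sq_of_inner_eq_zero c (u - c) h4
    rw [add_sub_cancel] at h6
    rw [pow_two, pow_two, pow_two]
    exact h6
  have h6 : ‖u‖ ^ 2 = ‖x‖ ^ 2 / ‖q‖ ^ 2 := by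
    rw [hu, norm_smul, norm_inv, mul_pow, inv_pow]
    field_simp
  have h7 : ‖c‖ ^ 2 = 1 / ‖y‖ ^ 2 := by
    rw [hc, norm_smul, norm_inv, Complex.norm_real, Real.norm_eq_abs, abs_of_pos (pow_pos hy' 2), mul_pow]
    field_simp
  have h8 : ‖u - c‖ ^ 2 ≤ (τ / ‖y‖) ^ 2 := by
    have h9 : ‖u - c‖ ^ 2 = ‖x‖ ^ 2 / ‖q‖ ^ 2 - 1 / ‖y‖ ^ 2 := by
      rw [← h6, ← h7, h5]
      ring
    have h10 : 0 < 1 - d ^ 2 / 2 := by linarith
    have h11 : ‖x‖ ^ 2 / ‖q‖ ^ 2 - 1 / ‖y‖ ^ 2 = (d ^ 2 / 2 / (1 - d ^ 2 / 2)) / ‖y‖ ^ 2 := by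
      obtain ⟨e, he⟩ : ∃ e, e = 1 - d ^ 2 / 2 := ⟨_, rfl⟩
      have he0 : e ≠ 0 := by rw [he]; exact h10.ne'
      have he1 : d ^ 2 / 2 = 1 - e := by rw [he]; ring
      rw [h1, ← he, he1]
      field_simp
    rw [h9, h11, div_pow]
    refine div_le_div_of_nonneg_right ?_ (by positivity)
    rw [div_le_iff₀ h10]
    nlinarith [mul_nonneg hd0 hd0]
  exact (pow_le_pow_iff_left₀ (norm_nonneg _) (div_nonneg (hd0.trans h) hy'.le) two_ne_zero).1 h8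

theorem crs_cauchy {y : EN N} (hy : y ≠ 0) {F : ℂ → EN N} (hF : Differentiable ℂ F) (h0 : ∀ z, F z ≠ 0) {z : ℂ} {t τ : ℝ} (ht : 0 < t) (hτ : τ ≤ 1 / 2)
    (h : ∀ w, ‖w - z‖ ≤ t → dist (pr (F w)) (pr y) ≤ τ) : fs (F z) (deriv F z) ≤ 4 * τ / t := by
  have hy' : 0 < ‖y‖ := norm_pos_iff.2 hy
  have hτ0 : 0 ≤ τ := dist_nonneg.trans (h z (by rw [sub_self, norm_zero]; exact ht.le))
  have hq : ∀ w, ‖w - z‖ ≤ t → (inner ℂ y (F w) : ℂ) ≠ 0 := fun w hw => (norm_sub_le_of_dist (h0 w) hy hτ (h w hw)).1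
  have hqd : Differentiable ℂ fun w => (inner ℂ y (F w) : ℂ) := (innerSL ℂ y).differentiable.comp hF
  set g : ℂ → EN N := fun w => (inner ℂ y (F w) : ℂ)⁻¹ • F w - ((‖y‖ ^ 2 : ℝ) : ℂ)⁻¹ • y with hg
  have hgd : ∀ w, ‖w - z‖ ≤ t → HasDerivAt g ((inner ℂ y (F w) : ℂ)⁻¹ • deriv F w + deriv (fun w => (inner ℂ y (F w) : ℂ)⁻¹) w • F w) w := by
    intro w hw
    have h1 : DifferentiableAt ℂ (fun w => (inner ℂ y (F w) : ℂ)⁻¹) w := (hqd w).inv (hq w hw)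
    exact (h1.hasDerivAt.smul (hF w).hasDerivAt).sub_const _
  have h1 : DiffContOnCl ℂ g (ball z t) := by
    refine DifferentiableOn.diffContOnCl ?_
    rw [closure_ball z ht.ne']
    intro w hw
    exact (hgd w (by rwa [mem_closedBall, dist_eq_norm] at hw)).differentiableAt.differentiableWithinAt
  have h2 : ‖deriv g z‖ ≤ τ / ‖y‖ / t := by
    refine Complex.norm_deriv_le_of_forall_mem_sphere_norm_le ht h1 fun w hw => ?_
    have hw' : ‖w - z‖ ≤ t := by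
      rw [mem_sphere_iff_norm] at hw
      exact hw.le
    exact (norm_sub_le_of_dist (h0 w) hy hτ (h w hw')).2
  have hz : ‖z - z‖ ≤ t := by rw [sub_self, norm_zero]; exact ht.le
  have h3 := (hgd z hz).deriv
  have h4 := fs_inv (h0 z) (deriv F z) (inv_ne_zero (hq z hz)) (deriv (fun w => (inner ℂ y (F w) : ℂ)⁻¹) z)
  rw [← h3] at h4
  rw [← h4]
  set u : EN N := (inner ℂ y (F z) : ℂ)⁻¹ • F z with hu
  have h5 : 1 ≤ ‖y‖ * ‖u‖ := by
    have h6 : (inner ℂ y u : ℂ) = 1 := by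
      rw [hu, inner_smul_right, inv_mul_cancel₀ (hq z hz)]
    have h7 := norm_inner_le_norm (𝕜 := ℂ) y u
    rwa [h6, norm_one] at h7
  have hu0 : 0 < ‖u‖ := by
    by_contra h6
    have h7 : ‖u‖ = 0 := le_antisymm (not_lt.1 h6) (norm_nonneg _)
    rw [h7, mul_zero] at h5
    linarith
  have h6 : fs u (deriv g z) ≤ ‖deriv g z‖ / ‖u‖ := by
    rw [Pool.Agent.H36.BP.fs, div_le_div_iff₀ (by positivity) hu0]
    have := wd_le u (deriv g z)
    nlinarith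
  have h7 : ‖deriv g z‖ / ‖u‖ ≤ ‖deriv g z‖ * ‖y‖ := by
    rw [div_le_iff₀ hu0]
    have := mul_le_mul_of_nonneg_left h5 (norm_nonneg (deriv g z))
    nlinarith
  have h8 : ‖deriv g z‖ * ‖y‖ ≤ τ / t := by
    have := mul_le_mul_of_nonneg_right h2 hy'.le
    calc ‖deriv g z‖ * ‖y‖ ≤ τ / ‖y‖ / t * ‖y‖ := this
      _ = τ / t := by field_simp
  have h9 : τ / t ≤ 4 * τ / t := div_le_div_of_nonneg_right (by linarith) ht.le
  exact h6.trans (h7.trans (h8.trans h9))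

end Pool.Agent.SR3

end
end

section

/-!
# SR3 LinL: limits at exponentially small scales, and affine lines

`line_limit`: three circles between the radius `r` and half the distance to the good points, with `growth`, as in `gap_one`; `gap_montel`.
`line_low`: a line is not contained in a small neighbourhood of the ends (Liouville).  `line_end`: lines are polynomial curves with an end in `Y`.
-/

set_option autoImplicit false

open Topology Filter Metric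

noncomputable section

namespace Pool.Agent.SR3

open Pool.Agent.H36.BP (EN fs wd Sub OrdTwo)
open Pool.Agent.H14.PP (IsCone Tan)
open Pool.Agent.SY (Ent)
open Pool.Agent.SDA (EnergyK Near AffOpen Nm nForms)
open Geo (Gd)

variable {N : ℕ} {G : Geo N} {T : Set (EN N)} {rho : EN N → ℝ} {M : ℕ} {c₀ C δ : ℝ} {g : (ℂ → EN N) → ℂ → ℝ}

/-- three circles for one curve -/
theorem one_curve {F : ℂ → EN N} (hFd : Differentiable ℂ F) (hF0 : ∀ w, F w ≠ 0) {z : ℂ} {d r η B A : ℝ} (hη : 0 < η) (hA : 0 ≤ A)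
    (hd3 : 3 ≤ d) (hr0 : 0 < r) (hrs : r ≤ Real.exp (-(η * d))) (hb : ∀ w : ℂ, ‖w‖ ≤ 1 → Real.log ‖F (z + r * w)‖ ≤ B)
    (hg : ∀ y, ‖y - z‖ = d / 2 → Real.log ‖F y‖ ≤ A * (1 + (d + d / 2))) :
    ∀ w : ℂ, 1 ≤ ‖w‖ → ‖w‖ ≤ d / 2 → ‖F (z + r * w)‖ ≤ Real.exp (|B| + 2 * A / η * Real.log ‖w‖) := by
  intro w hw1 hw2
  have hs1 : r ≤ 1 := by
    refine hrs.trans ?_
    rw [Real.exp_le_one_iff]
    have : 0 ≤ η * d := by positivity
    linarith
  have hrn : ‖(r : ℂ)‖ = r := by rw [Complex.norm_real, Real.norm_of_nonneg hr0.le]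
  have hrc : (r : ℂ) ≠ 0 := Complex.ofReal_ne_zero.2 hr0.ne'
  have hw0 : 0 < ‖w‖ := by linarith
  have hrd : r < d / 2 := by linarith
  set m₂ : ℝ := A * (1 + (d + d / 2)) with hm₂
  have hm₂0 : 0 ≤ m₂ := by positivity
  have h1 : ∀ y, ‖y - z‖ = r → ‖F y‖ ≤ Real.exp B := fun y hy => by
    rw [← Real.log_le_iff_le_exp (norm_pos_iff.2 (hF0 y))]
    have h3 := hb ((y - z) / r) (by rw [norm_div, hrn, hy, div_self hr0.ne'])
    have e : z + (r : ℂ) * ((y - z) / r) = y := by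
      field_simp
      ring
    rwa [e] at h3
  have h2 : ∀ y, ‖y - z‖ = d / 2 → ‖F y‖ ≤ Real.exp m₂ := fun y hy => by
    rw [← Real.log_le_iff_le_exp (norm_pos_iff.2 (hF0 y))]
    exact hg y hy
  have hy : ‖z + (r : ℂ) * w - z‖ = r * ‖w‖ := by rw [add_sub_cancel_left, norm_mul, hrn]
  have hyr : r ≤ ‖z + (r : ℂ) * w - z‖ := by
    rw [hy]
    exact le_mul_of_one_le_right hr0.le hw1
  have hyd : ‖z + (r : ℂ) * w - z‖ ≤ d / 2 := by
    rw [hy]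
    exact (mul_le_of_le_one_left hw0.le hs1).trans hw2
  refine (three_circles hFd hr0 hrd h1 h2 _ hyr hyd).trans (Real.exp_le_exp.2 ?_)
  rw [hy, Real.log_mul hr0.ne' hw0.ne']
  set Λ : ℝ := Real.log (d / 2) - Real.log r with hΛ
  have hΛd : η * d ≤ Λ := by
    have h3 : Real.log r ≤ -(η * d) := by
      rw [← Real.log_exp (-(η * d))]
      exact Real.log_le_log hr0 hrs
    have h4 : 0 ≤ Real.log (d / 2) := Real.log_nonneg (by linarith)
    linarith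
  have hηd : 0 < η * d := by positivity
  have hΛ0 : 0 < Λ := lt_of_lt_of_le hηd hΛd
  set t : ℝ := Real.log ‖w‖ with ht
  have ht0 : 0 ≤ t := Real.log_nonneg hw1
  have htΛ : t ≤ Λ := by
    have h3 := Real.log_le_log (by positivity) (hy ▸ hyd)
    rw [Real.log_mul hr0.ne' hw0.ne'] at h3
    linarith
  have e1 : (Real.log (d / 2) - (Real.log r + t)) * B + (Real.log r + t - Real.log r) * m₂ = (Λ - t) * B + t * m₂ := by
    rw [hΛ]
    ring
  rw [e1, div_le_iff₀ hΛ0]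
  have h5 : (Λ - t) * B ≤ Λ * |B| := by
    calc (Λ - t) * B ≤ (Λ - t) * |B| := mul_le_mul_of_nonneg_left (le_abs_self _) (by linarith)
      _ ≤ Λ * |B| := mul_le_mul_of_nonneg_right (by linarith) (abs_nonneg _)
  have h6 : m₂ ≤ 2 * A / η * Λ := by
    have h7 : m₂ ≤ 2 * A / η * (η * d) := by
      have e2 : 2 * A / η * (η * d) = A * (2 * d) := by
        field_simp
      rw [e2, hm₂]
      exact mul_le_mul_of_nonneg_left (by linarith) hA
    exact h7.trans (mul_le_mul_of_nonneg_left hΛd (by positivity))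
  have h8 := mul_le_mul_of_nonneg_left h6 ht0
  calc (Λ - t) * B + t * m₂ ≤ Λ * |B| + t * (2 * A / η * Λ) := add_le_add h5 h8
    _ = (|B| + 2 * A / η * t) * Λ := by ring

end Pool.Agent.SR3

end
end
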