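import Pool.Agent.H43.TL2.M148
import Pool.Agent.H43.TL2.SR3.AGd
import Pool.Agent.H43.TL2.SR3.AGrw
import Pool.Agent.H43.TL2.SR3.ATh

/-! The parts of this file: SR3.AGrw_1, SR3.LinL_3. -/

section

/-!
# SR3 AGrw: the growth of the lifts

Harnack's inequality on the disc with centre `z` and radius `d + 1`, `d` the distance to the good points, at the nearest good point.
-/

set_option autoImplicit false

open Topology Filter Metric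

noncomputable section

namespace Pool.Agent.SR3

open Pool.Agent.H36.BP (EN fs wd Sub OrdTwo)
open Pool.Agent.H14.PP (IsCone Tan)
open Pool.Agent.SY (Ent)
open Pool.Agent.SDA (EnergyK Near AffOpen Nm nForms)
open Geo (Gd)

variable {N : ℕ} {G : Geo N} {T : Set (EN N)} {rho : EN N → ℝ} {M : ℕ} {c₀ C δ : ℝ} {g : (ℂ → EN N) → ℂ → ℝ}

theorem growth (hG : G.Ok) (hM : G.Met T rho M c₀ C δ g) :
    ∃ B : ℝ, 0 ≤ B ∧ ∀ (q : G.J → ℂ) (F : ℂ → EN N), G.Cl T q F → ∀ z, Real.log ‖F z‖ ≤ B * (1 + infDist z (Gd rho δ F)) :=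
  AGrw_aux hG hM (bound hG hM) (thick hG hM hM.pos) fun _ _ hF => exists_good hG hM hF

end Pool.Agent.SR3

end
end

section

/-!
# SR3 LinL: limits at exponentially small scales, and affine lines

`line_limit`: three circles between the radius `r` and half the distance to the good points, with `growth`, as in `gap_one`; `gap_montel`.
`line_low`: a line is not contained in a small neighbourhood of the ends (Liouville).  `line_end`: lines are polynomial curves with an end in `Y`.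
-/

set_option autoImplicit false

open Topology Filter Metric

noncomputable section

namespace Pool.Agent.SR3

open Pool.Agent.H36.BP (EN fs wd Sub OrdTwo)
open Pool.Agent.H14.PP (IsCone Tan)
open Pool.Agent.SY (Ent)
open Pool.Agent.SDA (EnergyK Near AffOpen Nm nForms)
open Pool.Agent.H62.EF (MN pr)
open Geo (Gd)

variable {N : ℕ} {G : Geo N} {T : Set (EN N)} {rho : EN N → ℝ} {M : ℕ} {c₀ C δ : ℝ} {g : (ℂ → EN N) → ℂ → ℝ}

/-- polynomial growth from the exponential form -/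
private theorem pow_growth {H : ℂ → EN N} {b C' : ℝ} (hH : ∀ w, ‖H w‖ ≤ Real.exp (b + C' * Real.log (1 + ‖w‖))) :
    ∃ (A : ℝ) (k : ℕ), ∀ w, ‖H w‖ ≤ A * (1 + ‖w‖) ^ k := by
  refine ⟨Real.exp b, ⌈C'⌉₊, fun w => (hH w).trans ?_⟩
  have hp : (1 : ℝ) ≤ 1 + ‖w‖ := by linarith [norm_nonneg w]
  have hp0 : (0 : ℝ) < 1 + ‖w‖ := by linarith
  rw [Real.exp_add]
  refine mul_le_mul_of_nonneg_left ?_ (Real.exp_pos _).le
  have e : (1 + ‖w‖) ^ ⌈C'⌉₊ = Real.exp (⌈C'⌉₊ * Real.log (1 + ‖w‖)) := by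
    rw [mul_comm, Real.exp_mul, Real.exp_log hp0, Real.rpow_natCast]
  rw [e]
  exact Real.exp_le_exp.2 (mul_le_mul_of_nonneg_right (Nat.le_ceil C') (Real.log_nonneg hp))

private theorem line_core (hG : G.Ok)
    (hgr0 : ∃ A : ℝ, 0 ≤ A ∧ ∀ (q : G.J → ℂ) (F : ℂ → EN N), G.Cl T q F → ∀ z, Real.log ‖F z‖ ≤ A * (1 + infDist z (Gd rho δ F)))
    {B B' η : ℝ} (hη : 0 < η) (𝒰 : Ultrafilter ℕ) (_ : (𝒰 : Filter ℕ) ≤ atTop) (q : ℕ → G.J → ℂ)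
    (F : ℕ → ℂ → EN N) (z : ℕ → ℂ) (r : ℕ → ℝ) (hF : ∀ n, G.Cl T (q n) (F n))
    (hd : Tendsto (fun n => infDist (z n) (Gd rho δ (F n))) (𝒰 : Filter ℕ) atTop)
    (hr : ∀ᶠ n in (𝒰 : Filter ℕ), 0 < r n ∧ r n ≤ Real.exp (-(η * infDist (z n) (Gd rho δ (F n)))))
    (hb : ∀ᶠ n in (𝒰 : Filter ℕ), ∀ w : ℂ, ‖w‖ ≤ 1 → Real.log ‖F n (z n + r n * w)‖ ≤ B)
    (hlo : ∀ᶠ n in (𝒰 : Filter ℕ), ∃ w : ℂ, ‖w‖ ≤ 1 ∧ Real.log ‖F n (z n + r n * w)‖ ≤ B')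
    (hup : ∀ᶠ n in (𝒰 : Filter ℕ), ∃ w : ℂ, ‖w‖ ≤ 1 ∧ B' + 1 ≤ Real.log ‖F n (z n + r n * w)‖) :
    ∃ φ : ℂ → EN N, G.Line φ ∧ TendstoLocallyUniformlyOn (fun n w => F n (z n + r n * w)) φ (𝒰 : Filter ℕ) Set.univ := by
  obtain ⟨A, hA, hgr⟩ := hgr0
  obtain ⟨C', hC'e⟩ : ∃ C' : ℝ, C' = 2 * A / η := ⟨_, rfl⟩
  have hC' : 0 ≤ C' := by
    rw [hC'e]
    positivity
  set Φ : ℕ → ℂ → EN N := fun n w => F n (z n + r n * w) with hΦ
  have hFd : ∀ n, Differentiable ℂ (F n) := fun n => (hF n).ent.diff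
  have hF0 : ∀ n w, F n w ≠ 0 := fun n w => ne0 hG ((hF n).ent.mem w)
  have hΦd : ∀ n, Differentiable ℂ (Φ n) := fun n => (hFd n).comp ((differentiable_const _).add ((differentiable_const _).mul differentiable_id))
  have hbd : ∀ᶠ n in (𝒰 : Filter ℕ), ∀ w : ℂ, ‖w‖ ≤ infDist (z n) (Gd rho δ (F n)) / 2 → ‖Φ n w‖ ≤ Real.exp (|B| + C' * Real.log (1 + ‖w‖)) := by
    filter_upwards [hd.eventually_ge_atTop 3, hr, hb] with n hn3 hrn hbn w hw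
    rcases le_total ‖w‖ 1 with h | h
    · have h3 : ‖Φ n w‖ ≤ Real.exp B := by
        rw [← Real.log_le_iff_le_exp (norm_pos_iff.2 (hF0 n _))]
        exact hbn w h
      refine h3.trans (Real.exp_le_exp.2 ?_)
      have h4 : 0 ≤ Real.log (1 + ‖w‖) := Real.log_nonneg (by linarith [norm_nonneg w])
      have h5 := le_abs_self B
      have h6 := mul_nonneg hC' h4
      linarith
    · refine (one_curve (hFd n) (hF0 n) hη hA hn3 hrn.1 hrn.2 hbn (fun y hy => ?_) w h hw).trans (Real.exp_le_exp.2 ?_)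
      · refine (hgr (q n) (F n) (hF n) y).trans (mul_le_mul_of_nonneg_left ?_ hA)
        have h3 : infDist y (Gd rho δ (F n)) ≤ infDist (z n) (Gd rho δ (F n)) + dist y (z n) := infDist_le_infDist_add_dist
        rw [dist_eq_norm, hy] at h3
        linarith
      · have h3 : Real.log ‖w‖ ≤ Real.log (1 + ‖w‖) := Real.log_le_log (by linarith) (by linarith)
        have h4 := mul_le_mul_of_nonneg_left h3 hC'
        rw [← hC'e]
        linarith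
  obtain ⟨H, hHd, hHc⟩ := gap_montel 𝒰 hΦd (b := fun R => Real.exp (|B| + C' * Real.log (1 + R))) (by
    intro R
    filter_upwards [hbd, hd.eventually_ge_atTop (2 * R)] with k hk hkR w hw
    rw [mem_ball_zero_iff] at hw
    refine (hk w (by linarith)).trans (Real.exp_le_exp.2 ?_)
    have h3 : Real.log (1 + ‖w‖) ≤ Real.log (1 + R) := Real.log_le_log (by linarith [norm_nonneg w]) (by linarith)
    have := mul_le_mul_of_nonneg_left h3 hC'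
    linarith)
  have hHt : ∀ w, Tendsto (fun k => Φ k w) (𝒰 : Filter ℕ) (𝓝 (H w)) := fun w => hHc.tendsto_at (Set.mem_univ w)
  have hHK : ∀ w, H w ∈ G.K ∧ G.p (H w) = 1 := fun w =>
    mem_lim hG (Eventually.of_forall fun k => ⟨(hF k).ent.mem _, (hF k).nm _⟩) (hHt w)
  have hHb : ∀ w, ‖H w‖ ≤ Real.exp (|B| + C' * Real.log (1 + ‖w‖)) := by
    intro w
    refine le_of_tendsto (hHt w).norm ?_
    filter_upwards [hbd, hd.eventually_ge_atTop (2 * ‖w‖)] with k hk hkR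
    exact hk w (by linarith)
  -- limits of points in the unit disc
  have hlim : ∀ w₁ : ℕ → ℂ, (∀ᶠ n in (𝒰 : Filter ℕ), ‖w₁ n‖ ≤ 1) → ∃ y, Tendsto (fun k => Φ k (w₁ k)) (𝒰 : Filter ℕ) (𝓝 (H y)) := by
    intro w₁ hw₁
    obtain ⟨y, -, hy⟩ := (isCompact_closedBall (0 : ℂ) 1).ultrafilter_le_nhds (𝒰.map w₁) (by
      rw [le_principal_iff]
      show ∀ᶠ n in (𝒰 : Filter ℕ), w₁ n ∈ closedBall (0 : ℂ) 1
      filter_upwards [hw₁] with n hn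
      rwa [mem_closedBall_zero_iff])
    have hyt : Tendsto w₁ (𝒰 : Filter ℕ) (𝓝 y) := hy
    exact ⟨y, hHc.tendsto_comp hHd.continuous.continuousWithinAt (Set.mem_univ y) (by rw [nhdsWithin_univ]; exact hyt)⟩
  have hlo' : ∀ n, ∃ w : ℂ, (∃ w : ℂ, ‖w‖ ≤ 1 ∧ Real.log ‖F n (z n + r n * w)‖ ≤ B') → ‖w‖ ≤ 1 ∧ Real.log ‖F n (z n + r n * w)‖ ≤ B' := by
    intro n
    by_cases h : ∃ w : ℂ, ‖w‖ ≤ 1 ∧ Real.log ‖F n (z n + r n * w)‖ ≤ B'
    · obtain ⟨w, hw⟩ := h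
      exact ⟨w, fun _ => hw⟩
    · exact ⟨0, fun h' => absurd h' h⟩
  have hup' : ∀ n, ∃ w : ℂ, (∃ w : ℂ, ‖w‖ ≤ 1 ∧ B' + 1 ≤ Real.log ‖F n (z n + r n * w)‖) → ‖w‖ ≤ 1 ∧ B' + 1 ≤ Real.log ‖F n (z n + r n * w)‖ := by
    intro n
    by_cases h : ∃ w : ℂ, ‖w‖ ≤ 1 ∧ B' + 1 ≤ Real.log ‖F n (z n + r n * w)‖
    · obtain ⟨w, hw⟩ := h
      exact ⟨w, fun _ => hw⟩
    · exact ⟨0, fun h' => absurd h' h⟩
  choose wl hwl using hlo'
  choose wu hwu using hup'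
  have hwl' : ∀ᶠ n in (𝒰 : Filter ℕ), ‖wl n‖ ≤ 1 ∧ Real.log ‖F n (z n + r n * wl n)‖ ≤ B' := hlo.mono fun n hn => hwl n hn
  have hwu' : ∀ᶠ n in (𝒰 : Filter ℕ), ‖wu n‖ ≤ 1 ∧ B' + 1 ≤ Real.log ‖F n (z n + r n * wu n)‖ := hup.mono fun n hn => hwu n hn
  obtain ⟨yl, hyl⟩ := hlim wl (hwl'.mono fun n hn => hn.1)
  obtain ⟨yu, hyu⟩ := hlim wu (hwu'.mono fun n hn => hn.1)
  have hl : ‖H yl‖ ≤ Real.exp B' := by
    refine le_of_tendsto hyl.norm ?_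
    filter_upwards [hwl'] with k hk
    rw [← Real.log_le_iff_le_exp (norm_pos_iff.2 (hF0 k _))]
    exact hk.2
  have hu : Real.exp (B' + 1) ≤ ‖H yu‖ := by
    refine ge_of_tendsto hyu.norm ?_
    filter_upwards [hwu'] with k hk
    rw [← Real.le_log_iff_exp_le (norm_pos_iff.2 (hF0 k _))]
    exact hk.2
  refine ⟨H, ⟨hHd, fun w => (hHK w).1, fun w => (hHK w).2, pow_growth hHb, yl, yu, fun he => ?_⟩, hHc⟩
  rw [he] at hl
  have h9 : Real.exp (B' + 1) ≤ Real.exp B' := hu.trans hl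
  rw [Real.exp_le_exp] at h9
  linarith

theorem line_limit (hG : G.Ok) (hM : G.Met T rho M c₀ C δ g) (hQ : G.QN rho) {B B' η : ℝ} (hη : 0 < η) (𝒰 : Ultrafilter ℕ) (h𝒰 : (𝒰 : Filter ℕ) ≤ atTop) (q : ℕ → G.J → ℂ)
    (F : ℕ → ℂ → EN N) (z : ℕ → ℂ) (r : ℕ → ℝ) (hF : ∀ n, G.Cl T (q n) (F n))
    (hd : Tendsto (fun n => infDist (z n) (Gd rho δ (F n))) (𝒰 : Filter ℕ) atTop)
    (hr : ∀ᶠ n in (𝒰 : Filter ℕ), 0 < r n ∧ r n ≤ Real.exp (-(η * infDist (z n) (Gd rho δ (F n)))))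
    (hb : ∀ᶠ n in (𝒰 : Filter ℕ), ∀ w : ℂ, ‖w‖ ≤ 1 → Real.log ‖F n (z n + r n * w)‖ ≤ B)
    (hlo : ∀ᶠ n in (𝒰 : Filter ℕ), ∃ w : ℂ, ‖w‖ ≤ 1 ∧ Real.log ‖F n (z n + r n * w)‖ ≤ B')
    (hup : ∀ᶠ n in (𝒰 : Filter ℕ), ∃ w : ℂ, ‖w‖ ≤ 1 ∧ B' + 1 ≤ Real.log ‖F n (z n + r n * w)‖) :
    ∃ φ : ℂ → EN N, G.Line φ ∧ TendstoLocallyUniformlyOn (fun n w => F n (z n + r n * w)) φ (𝒰 : Filter ℕ) Set.univ :=
  line_core hG (growth hG hM) hη 𝒰 h𝒰 q F z r hF hd hr hb hlo hup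

end Pool.Agent.SR3

end
end
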