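import Pool.Agent.H43.TL2.M02
import Pool.Agent.H43.TL2.M03
import Pool.Agent.H43.TL2.M08
import Pool.Agent.H43.TL2.M11
import Pool.Agent.H43.TL2.M14
import Pool.Agent.H43.TL2.MQ3.Lift

/-! The parts of this file: H62.BU.Exc, H62.BU.Cov, H17EF.Count, E1.ChowF, MQ3.Latt. -/

section

/-!
# BU Exc: the chart of the blow-up at a point of the exceptional curve

Hadamard (`hadamard`, `V` is complete): `σ p = q + S p p` near `0`, `S` analytic at `0`, `S 0 = fderiv ℂ σ 0`.  Put `g (u, v) = S (u, u v) (1, v)` (analytic at `0`), `L_b (u, v) = l_b (g (u, v))`; as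
`l_b q = 0`: `l_b (σ (u, u v)) = u L_b (u, v)` near `0`.  `σ1 (u, v) = (L_b (u, v) • σ (u, u v))_b`.  So `phi l (σ (u, u v)) = u • σ1 (u, v)`.

The vectors `α = (l_b (Dσ(0)(1,0)))_b = (L_b 0)_b` and `β = (l_b (Dσ(0)(0,1)))_b` are linearly independent (`Ker`, `indep`).  Choose `b₀` with `α_(b₀) ≠ 0` and `b₁` with
`δ = β_(b₁) α_(b₀) - β_(b₀) α_(b₁) ≠ 0`.  `a = α_(b₀)`.  Choose `Λ : V →L ℂ` with `Λ q = 1` (`q ≠ 0`).

`Φ (u, v) = (u, L_(b₁)(u, v) / L_(b₀)(u, v))` is analytic at `0`, its derivative at `0` is invertible: `∂_v` of the second component at `0` is `δ / a²` (`L_b (0, v) = l_b (Dσ(0)(1, v))`).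
Let `Ψ` be the local inverse at `Φ 0 = (0, α_(b₁)/a)` (`AnalyticAt` inverse function theorem: `HasStrictFDerivAt.toOpenPartialHomeomorph`, or `AnalyticAt.analyticAt_localInverse`),
`τ1 y = Ψ ((τ (a⁻¹ • y b₀)).1, Λ (y b₁) / Λ (y b₀))`.

* `σ1 0 = (α_b • q)_b ≠ 0`; `σ1 p ∈ blow`: for `u ≠ 0` small it is `u⁻¹ • phi l (σ (u, u v))` with `σ (u, u v) ∉ ℂ q` (otherwise `τ` gives `(u, u v) = 0`: from `S`: the value `l (σ (u, u v)) = u L(u, v) ≠ 0` as
  `L_(b₀) ≠ 0` near `0`): in `dense`; for `u = 0` a limit of such points (`blow_closed`, `σ1 p ≠ 0` near `0`).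
* `left`: `σ1 (u,v) b₀ = L_(b₀) • σ (u, u v)`, so `(τ (a⁻¹ • ..)).1 = u` by `inv`, `left` (`a⁻¹ L_(b₀) (u, v)` is near `1`), and `Λ (y b₁)/Λ (y b₀) = L_(b₁)/L_(b₀)`.
* `inv`: clear.
* `right` on `dense` (`isChart_of_dense`): `y = c • phi l x` near `σ1 0`; `x' = a⁻¹ • y b₀` is near `q` and in `X` (it is a multiple of `x`, the factor is not `0` because `y b₀ ≠ 0`), so
  `x' = c' • σ (s, t)`, `(s, t) = τ x'` near `0`.  Put `(u, v) = τ1 y`, so `u = s` (as `Φ (Ψ w) = w` near `Φ 0`) and `[L_(b₁)/L_(b₀)] (u, v) = κ`, `κ = Λ (y b₁)/Λ (y b₀) = l_(b₁) x / l_(b₀) x = l_(b₁)(σ (s,t)) / l_(b₀)(σ (s,t))`.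
  The function `M (t) = l_(b₁) (σ (s, t)) - κ l_(b₀) (σ (s, t))` vanishes at `t` and at `s (c_0 + v)` with `c_0 = 0`, i.e. at `s v`: `M` is injective near `0`, uniformly in `s`, `κ` near `0`, `α_(b₁)/a`, because
  its derivative is near `β_(b₁) - κ β_(b₀)`, near `δ/a ≠ 0` (e.g. apply the inverse function theorem (local injectivity, `HasStrictFDerivAt.. injOn`) to
  `(s, κ, t) ↦ (s, κ, l_(b₁)(σ (s,t)) - κ l_(b₀)(σ (s,t)))` at `(0, α_(b₁)/a, 0)`).  So `t = s v`; `s ≠ 0` because otherwise `t = 0`, `x` is a multiple of `q`, all `l_b x = 0`.  Hence `x` is a multiple of `σ (u, u v)` and `y` of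
  `phi l (σ (u, u v)) = u • σ1 (u, v)`.
-/

set_option autoImplicit false

namespace Pool.Agent.H62.BU

open Filter Topology

variable {V : Type*} [NormedAddCommGroup V] [NormedSpace ℂ V] {ι : Type*} [Fintype ι]
variable {l : ι → V →L[ℂ] ℂ} {X : Set V} {σ : ℂ × ℂ → V} {τ : V → ℂ × ℂ}

/-- the common kernel of the forms is the line through `q` -/
def Ker (l : ι → V →L[ℂ] ℂ) (q : V) : Prop := ∀ v : V, (∀ b, l b v = 0) ↔ ∃ c : ℂ, v = c • q

private theorem exc_clm {E F : Type*} [NormedAddCommGroup E] [NormedSpace ℂ E] [NormedAddCommGroup F] [NormedSpace ℂ F] {G : Type*}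
    [NormedAddCommGroup G] [NormedSpace ℂ G] {S : G → E →L[ℂ] F} {f : G → E} {x : G} (hS : AnalyticAt ℂ S x) (hf : AnalyticAt ℂ f x) :
    AnalyticAt ℂ (fun p => S p (f p)) x :=
  AnalyticAt.comp ((ContinuousLinearMap.id ℂ (E →L[ℂ] F)).analyticAt_bilinear _) (hS.prod hf)

theorem chart_exc [FiniteDimensional ℂ V] (hX : Surface X) {q : V} (hl : Ker l q) (h : IsChart X σ τ) (h0 : σ 0 = q) :
    ∃ (σ1 : ℂ × ℂ → ι → V) (τ1 : (ι → V) → ℂ × ℂ), IsChart (blow l X) σ1 τ1 ∧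
      (∀ᶠ p in 𝓝 (0 : ℂ × ℂ), phi l (σ (p.1, p.1 * p.2)) = p.1 • σ1 p) ∧ σ1 0 = fun b => l b (fderiv ℂ σ 0 (1, 0)) • q := by
  have : CompleteSpace V := FiniteDimensional.complete ℂ V
  have hq0 : q ≠ 0 := h0 ▸ h.ne
  obtain ⟨S, hS, hS0, hσS⟩ := hadamard h.σ_an
  have hlq : ∀ b, l b q = 0 := (hl q).mpr ⟨1, (one_smul _ _).symm⟩
  obtain ⟨m, hm⟩ : ∃ m : ℂ × ℂ → ℂ × ℂ, ∀ p, m p = (p.1, p.1 * p.2) := ⟨fun p => (p.1, p.1 * p.2), fun p => rfl⟩
  have hm_an : ∀ p, AnalyticAt ℂ m p := fun p => by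
    have : m = fun p => (p.1, p.1 * p.2) := funext hm
    rw [this]
    exact analyticAt_fst.prod (analyticAt_fst.mul analyticAt_snd)
  have hm0 : m 0 = 0 := by rw [hm]; simp
  have hmt : Tendsto m (𝓝 0) (𝓝 0) := by
    have := (hm_an 0).continuousAt.tendsto
    rwa [hm0] at this
  obtain ⟨L, hL⟩ : ∃ L : ι → ℂ × ℂ → ℂ, ∀ b p, L b p = l b (S (m p) (1, p.2)) := ⟨fun b p => l b (S (m p) (1, p.2)), fun b p => rfl⟩
  have hL_an : ∀ b, AnalyticAt ℂ (L b) 0 := fun b => by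
    have e1 : L b = fun p => l b (S (m p) (1, p.2)) := funext (hL b)
    rw [e1]
    have e2 : AnalyticAt ℂ (fun p => S (m p)) 0 := AnalyticAt.comp (by rw [hm0]; exact hS) (hm_an 0)
    exact ((l b).analyticAt _).comp (exc_clm e2 (analyticAt_const.prod analyticAt_snd))
  have hlσ : ∀ᶠ p in 𝓝 (0 : ℂ × ℂ), ∀ b, l b (σ (m p)) = p.1 * L b p := by
    filter_upwards [hmt.eventually hσS] with p hp b
    rw [hp, map_add, h0, hlq, zero_add, sub_zero, hL]
    have e1 : m p = p.1 • ((1 : ℂ), p.2) := by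
      rw [hm]
      simp
    conv_lhs => rw [e1]
    rw [map_smul, map_smul, smul_eq_mul, ← e1]
  obtain ⟨σ1, hσ1⟩ : ∃ σ1 : ℂ × ℂ → ι → V, ∀ p b, σ1 p b = L b p • σ (m p) := ⟨fun p b => L b p • σ (m p), fun p b => rfl⟩
  have hσm : AnalyticAt ℂ (fun p => σ (m p)) 0 := AnalyticAt.comp (by rw [hm0]; exact h.σ_an) (hm_an 0)
  have hσ1_an : AnalyticAt ℂ σ1 0 := by
    have e1 : σ1 = fun p b => L b p • σ (m p) := by
      funext p b
      exact hσ1 p b
    rw [e1]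
    exact AnalyticAt.pi fun b => (hL_an b).smul hσm
  obtain ⟨α, hα⟩ : ∃ α : ι → ℂ, ∀ b, α b = l b (fderiv ℂ σ 0 (1, 0)) := ⟨_, fun b => rfl⟩
  obtain ⟨β, hβ⟩ : ∃ β : ι → ℂ, ∀ b, β b = l b (fderiv ℂ σ 0 (0, 1)) := ⟨_, fun b => rfl⟩
  have hLt : ∀ b (t : ℂ), L b (0, t) = α b + t * β b := fun b t => by
    rw [hL, hm]
    have e1 : ((0 : ℂ × ℂ).1, (0 : ℂ × ℂ).1 * t) = (0 : ℂ × ℂ) := by simp
    have e2 : (((0 : ℂ), t).1, ((0 : ℂ), t).1 * ((0 : ℂ), t).2) = (0 : ℂ × ℂ) := by simp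
    rw [e2, hS0, hα, hβ]
    have e3 : ((1 : ℂ), t) = (1, 0) + t • ((0 : ℂ), (1 : ℂ)) := by simp
    rw [e3, map_add, map_smul, map_add, map_smul, smul_eq_mul]
  have hL0 : ∀ b, L b 0 = α b := fun b => by
    have := hLt b 0
    rw [zero_mul, add_zero] at this
    exact this
  have hσ10 : σ1 0 = fun b => α b • q := by
    funext b
    rw [hσ1, hL0, hm0, h0]
  have hind : ∀ x y : ℂ, (∀ b, x * α b + y * β b = 0) → x = 0 ∧ y = 0 := fun x y hxy => by
    have e1 : ∀ b, l b (fderiv ℂ σ 0 (x, y)) = 0 := fun b => by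
      have e2 : ((x, y) : ℂ × ℂ) = x • ((1 : ℂ), (0 : ℂ)) + y • ((0 : ℂ), (1 : ℂ)) := by simp
      rw [e2, map_add, map_smul, map_smul, map_add, map_smul, map_smul, smul_eq_mul, smul_eq_mul, ← hα, ← hβ]
      exact hxy b
    obtain ⟨c, hc⟩ := (hl _).mp e1
    rw [← h0] at hc
    have e3 := h.indep hc
    exact ⟨congrArg Prod.fst e3, congrArg Prod.snd e3⟩
  obtain ⟨b₀, hb₀⟩ : ∃ b, α b ≠ 0 := by
    by_contra hcon
    push Not at hcon
    exact one_ne_zero (hind 1 0 fun b => by rw [hcon b]; ring).1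
  obtain ⟨b₁, hb₁⟩ : ∃ b, β b * α b₀ - β b₀ * α b ≠ 0 := by
    by_contra hcon
    push Not at hcon
    exact hb₀ (hind (-β b₀) (α b₀) fun b => by linear_combination hcon b).2
  obtain ⟨Λ, hΛ⟩ : ∃ Λ : V →L[ℂ] ℂ, Λ q ≠ 0 := by
    obtain ⟨Λ, hΛ⟩ := exists_dual_vector ℂ q (norm_ne_zero_iff.mpr hq0)
    refine ⟨Λ, ?_⟩
    rw [hΛ.2]
    simpa using hq0
  -- the map `Φ`
  obtain ⟨R, hR⟩ : ∃ R : ℂ × ℂ → ℂ, ∀ p, R p = L b₁ p / L b₀ p := ⟨_, fun p => rfl⟩
  have hL00 : L b₀ 0 ≠ 0 := by rw [hL0]; exact hb₀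
  have hR_an : AnalyticAt ℂ R 0 := by
    have e1 : R = fun p => L b₁ p / L b₀ p := funext hR
    rw [e1]
    exact (hL_an b₁).div (hL_an b₀) hL00
  obtain ⟨Φ, hΦ⟩ : ∃ Φ : ℂ × ℂ → ℂ × ℂ, ∀ p, Φ p = (p.1, R p) := ⟨_, fun p => rfl⟩
  have hΦ_an : AnalyticAt ℂ Φ 0 := by
    have e1 : Φ = fun p => (p.1, R p) := funext hΦ
    rw [e1]
    exact analyticAt_fst.prod hR_an
  have hΦ0 : Φ 0 = (0, α b₁ / α b₀) := by
    rw [hΦ, hR, hL0, hL0]
    rfl
  have hΦi : ∀ v, fderiv ℂ Φ 0 v = 0 → v = 0 := by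
    have e1 : HasFDerivAt Φ (fderiv ℂ Φ 0) 0 := hΦ_an.differentiableAt.hasFDerivAt
    have e2 : HasFDerivAt (fun p => (Φ p).1) ((ContinuousLinearMap.fst ℂ ℂ ℂ).comp (fderiv ℂ Φ 0)) 0 :=
      (ContinuousLinearMap.fst ℂ ℂ ℂ).hasFDerivAt.comp _ e1
    have e3 : HasFDerivAt (fun p : ℂ × ℂ => p.1) (ContinuousLinearMap.fst ℂ ℂ ℂ) (0 : ℂ × ℂ) := hasFDerivAt_fst
    have e4 : (fun p => (Φ p).1) = fun p : ℂ × ℂ => p.1 := by
      funext p
      rw [hΦ]
    rw [e4] at e2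
    have e5 := e2.unique e3
    have e6 : HasDerivAt (fun t : ℂ => Φ (0, t)) (fderiv ℂ Φ 0 (0, 1)) 0 := by
      have a1 : HasDerivAt (fun t : ℂ => ((0 : ℂ), t)) (0, 1) 0 := (hasDerivAt_const _ _).prodMk (hasDerivAt_id _)
      exact HasFDerivAt.comp_hasDerivAt (0 : ℂ) (l := Φ) (l' := fderiv ℂ Φ 0) e1 a1
    have e7 : HasDerivAt (fun t : ℂ => (Φ (0, t)).2) ((fderiv ℂ Φ 0 (0, 1)).2) 0 :=
      (ContinuousLinearMap.snd ℂ ℂ ℂ).hasFDerivAt.comp_hasDerivAt _ e6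
    have e8 : HasDerivAt (fun t : ℂ => (α b₁ + t * β b₁) / (α b₀ + t * β b₀))
        ((β b₁ * α b₀ - α b₁ * β b₀) / α b₀ ^ 2) 0 := by
      have a1 : HasDerivAt (fun t : ℂ => α b₁ + t * β b₁) (β b₁) 0 := by
        simpa using ((hasDerivAt_id (0 : ℂ)).mul_const (β b₁)).const_add (α b₁)
      have a2 : HasDerivAt (fun t : ℂ => α b₀ + t * β b₀) (β b₀) 0 := by
        simpa using ((hasDerivAt_id (0 : ℂ)).mul_const (β b₀)).const_add (α b₀)
      have a3 := a1.fun_div a2 (by simpa using hb₀)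
      simpa using a3
    have e9 : (fun t : ℂ => (Φ (0, t)).2) = fun t : ℂ => (α b₁ + t * β b₁) / (α b₀ + t * β b₀) := by
      funext t
      rw [hΦ, hR, hLt, hLt]
    rw [e9] at e7
    have e10 := e7.unique e8
    intro v hv
    have f1 : v.1 = 0 := by
      have := congrArg (fun A : (ℂ × ℂ) →L[ℂ] ℂ => A v) e5
      simp only [ContinuousLinearMap.comp_apply, hv] at this
      simpa using this.symm
    have f2 : v = v.2 • ((0 : ℂ), (1 : ℂ)) := by
      ext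
      · simp [f1]
      · simp
    rw [f2, map_smul] at hv
    have f3 : v.2 * (fderiv ℂ Φ 0 (0, 1)).2 = 0 := by
      have := congrArg Prod.snd hv
      simpa using this
    rw [e10] at f3
    have f4 : (β b₁ * α b₀ - α b₁ * β b₀) / α b₀ ^ 2 ≠ 0 := by
      refine div_ne_zero ?_ (pow_ne_zero _ hb₀)
      rw [mul_comm (α b₁)]
      exact hb₁
    rw [f2, (mul_eq_zero.mp f3).resolve_right f4, zero_smul]
  obtain ⟨Ψ, hΨ_an, hΨl, hΨr, hΨ0⟩ := local_inverse hΦ_an hΦi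
  -- the map `Θ`
  obtain ⟨Θ, hΘ⟩ : ∃ Θ : ℂ × ℂ × ℂ → ℂ × ℂ × ℂ, ∀ w, Θ w =
      (w.1, w.2.1, l b₁ (σ (w.1, w.2.2)) - w.2.1 * l b₀ (σ (w.1, w.2.2))) := ⟨_, fun p => rfl⟩
  obtain ⟨w₀, hw₀⟩ : ∃ w₀ : ℂ × ℂ × ℂ, w₀ = (0, α b₁ / α b₀, 0) := ⟨_, rfl⟩
  have hσw : AnalyticAt ℂ (fun w : ℂ × ℂ × ℂ => σ (w.1, w.2.2)) w₀ := by
    have a1 : AnalyticAt ℂ (fun w : ℂ × ℂ × ℂ => (w.1, w.2.2)) w₀ :=
      analyticAt_fst.prod (AnalyticAt.comp analyticAt_snd analyticAt_snd)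
    refine AnalyticAt.comp (f := fun w : ℂ × ℂ × ℂ => (w.1, w.2.2)) (g := σ) ?_ a1
    rw [hw₀]
    exact h.σ_an
  have hΘ_an : AnalyticAt ℂ Θ w₀ := by
    have e1 : Θ = fun w => (w.1, w.2.1, l b₁ (σ (w.1, w.2.2)) - w.2.1 * l b₀ (σ (w.1, w.2.2))) := funext hΘ
    rw [e1]
    have a2 : ∀ b, AnalyticAt ℂ (fun w : ℂ × ℂ × ℂ => l b (σ (w.1, w.2.2))) w₀ := fun b =>
      ((l b).analyticAt _).comp hσw
    have a3 : AnalyticAt ℂ (fun w : ℂ × ℂ × ℂ => w.2.1) w₀ := AnalyticAt.comp analyticAt_fst analyticAt_snd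
    exact analyticAt_fst.prod (a3.prod ((a2 b₁).sub (a3.mul (a2 b₀))))
  have hΘi : ∀ v, fderiv ℂ Θ w₀ v = 0 → v = 0 := by
    have e1 : HasFDerivAt Θ (fderiv ℂ Θ w₀) w₀ := hΘ_an.differentiableAt.hasFDerivAt
    have e2 : ∀ v, (fderiv ℂ Θ w₀ v).1 = v.1 := by
      have a1 : HasFDerivAt (fun p => (Θ p).1) ((ContinuousLinearMap.fst ℂ ℂ (ℂ × ℂ)).comp (fderiv ℂ Θ w₀)) w₀ :=
        (ContinuousLinearMap.fst ℂ ℂ (ℂ × ℂ)).hasFDerivAt.comp _ e1
      have a2 : (fun p => (Θ p).1) = fun p : ℂ × ℂ × ℂ => p.1 := by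
        funext p
        rw [hΘ]
      rw [a2] at a1
      have a3 := a1.unique (hasFDerivAt_fst (𝕜 := ℂ) (p := w₀))
      intro v
      have := congrArg (fun A : (ℂ × ℂ × ℂ) →L[ℂ] ℂ => A v) a3
      simpa using this
    have e3 : ∀ v, (fderiv ℂ Θ w₀ v).2.1 = v.2.1 := by
      have a1 : HasFDerivAt (fun p => (Θ p).2.1)
          (((ContinuousLinearMap.fst ℂ ℂ ℂ).comp (ContinuousLinearMap.snd ℂ ℂ (ℂ × ℂ))).comp (fderiv ℂ Θ w₀)) w₀ :=
        ((ContinuousLinearMap.fst ℂ ℂ ℂ).comp (ContinuousLinearMap.snd ℂ ℂ (ℂ × ℂ))).hasFDerivAt.comp _ e1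
      have a2 : (fun p => (Θ p).2.1) = fun p : ℂ × ℂ × ℂ => p.2.1 := by
        funext p
        rw [hΘ]
      rw [a2] at a1
      have a4 : HasFDerivAt (fun p : ℂ × ℂ × ℂ => p.2.1)
          ((ContinuousLinearMap.fst ℂ ℂ ℂ).comp (ContinuousLinearMap.snd ℂ ℂ (ℂ × ℂ))) w₀ :=
        ((ContinuousLinearMap.fst ℂ ℂ ℂ).comp (ContinuousLinearMap.snd ℂ ℂ (ℂ × ℂ))).hasFDerivAt
      have a3 := a1.unique a4
      intro v
      have := congrArg (fun A : (ℂ × ℂ × ℂ) →L[ℂ] ℂ => A v) a3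
      simpa using this
    have e6 : HasDerivAt (fun t : ℂ => Θ (0, α b₁ / α b₀, t)) (fderiv ℂ Θ w₀ (0, 0, 1)) 0 := by
      have a1 : HasDerivAt (fun t : ℂ => ((0 : ℂ), α b₁ / α b₀, t)) (0, 0, 1) 0 :=
        (hasDerivAt_const _ _).prodMk ((hasDerivAt_const _ _).prodMk (hasDerivAt_id _))
      have a2 : HasFDerivAt Θ (fderiv ℂ Θ w₀) ((0 : ℂ), α b₁ / α b₀, (0 : ℂ)) := by
        rw [← hw₀]
        exact e1
      exact HasFDerivAt.comp_hasDerivAt (0 : ℂ) (l := Θ) (l' := fderiv ℂ Θ w₀) a2 a1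
    have e7 : HasDerivAt (fun t : ℂ => (Θ (0, α b₁ / α b₀, t)).2.2) ((fderiv ℂ Θ w₀ (0, 0, 1)).2.2) 0 :=
      ((ContinuousLinearMap.snd ℂ ℂ ℂ).comp (ContinuousLinearMap.snd ℂ ℂ (ℂ × ℂ))).hasFDerivAt.comp_hasDerivAt _ e6
    have e8 : HasDerivAt (fun t : ℂ => σ (0, t)) (fderiv ℂ σ 0 (0, 1)) 0 := by
      have a1 : HasDerivAt (fun t : ℂ => ((0 : ℂ), t)) (0, 1) 0 := (hasDerivAt_const _ _).prodMk (hasDerivAt_id _)
      have a2 : HasFDerivAt σ (fderiv ℂ σ 0) ((0 : ℂ), (0 : ℂ)) := h.σ_an.differentiableAt.hasFDerivAt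
      exact HasFDerivAt.comp_hasDerivAt (0 : ℂ) (l := σ) (l' := fderiv ℂ σ 0) a2 a1
    have e9 : ∀ b, HasDerivAt (fun t : ℂ => l b (σ (0, t))) (β b) 0 := fun b => by
      rw [hβ]
      exact (l b).hasFDerivAt.comp_hasDerivAt _ e8
    have e10 : HasDerivAt (fun t : ℂ => l b₁ (σ (0, t)) - α b₁ / α b₀ * l b₀ (σ (0, t))) (β b₁ - α b₁ / α b₀ * β b₀) 0 :=
      (e9 b₁).sub ((e9 b₀).const_mul _)
    have e11 : (fun t : ℂ => (Θ (0, α b₁ / α b₀, t)).2.2) = fun t : ℂ => l b₁ (σ (0, t)) - α b₁ / α b₀ * l b₀ (σ (0, t)) := by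
      funext t
      rw [hΘ]
    rw [e11] at e7
    have e12 := e7.unique e10
    intro v hv
    have f1 : v.1 = 0 := by
      have := e2 v
      rw [hv] at this
      exact this.symm
    have f2 : v.2.1 = 0 := by
      have := e3 v
      rw [hv] at this
      exact this.symm
    have f3 : v = v.2.2 • ((0 : ℂ), (0 : ℂ), (1 : ℂ)) := by
      ext
      · simp [f1]
      · simp [f2]
      · simp
    rw [f3, map_smul] at hv
    have f4 : v.2.2 * (fderiv ℂ Θ w₀ (0, 0, 1)).2.2 = 0 := by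
      have := congrArg (fun w : ℂ × ℂ × ℂ => w.2.2) hv
      simpa using this
    rw [e12] at f4
    have f5 : β b₁ - α b₁ / α b₀ * β b₀ ≠ 0 := by
      intro hcon
      apply hb₁
      field_simp at hcon
      linear_combination hcon
    rw [f3, (mul_eq_zero.mp f4).resolve_right f5, zero_smul]
  obtain ⟨Ξ, -, hΞl, -, -⟩ := local_inverse hΘ_an hΘi
  -- the chart
  obtain ⟨τ1, hτ1⟩ : ∃ τ1 : (ι → V) → ℂ × ℂ, ∀ y, τ1 y = Ψ ((τ ((α b₀)⁻¹ • y b₀)).1, Λ (y b₁) / Λ (y b₀)) := ⟨_, fun y => rfl⟩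
  have hev : ∀ b, Tendsto (fun y : ι → V => y b) (𝓝 (σ1 0)) (𝓝 (α b • q)) := fun b => by
    have := (continuous_apply b).tendsto (σ1 0)
    rwa [hσ10] at this ⊢
  have hx' : Tendsto (fun y : ι → V => (α b₀)⁻¹ • y b₀) (𝓝 (σ1 0)) (𝓝 (σ 0)) := by
    have := (hev b₀).const_smul (α b₀)⁻¹
    rwa [smul_smul, inv_mul_cancel₀ hb₀, one_smul, ← h0] at this
  have hτσ0 : τ (σ 0) = 0 := h.left.self_of_nhds
  have hst : Tendsto (fun y : ι → V => τ ((α b₀)⁻¹ • y b₀)) (𝓝 (σ1 0)) (𝓝 0) := by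
    have := h.τ_an.continuousAt.tendsto.comp hx'
    rwa [hτσ0] at this
  have hκ : Tendsto (fun y : ι → V => Λ (y b₁) / Λ (y b₀)) (𝓝 (σ1 0)) (𝓝 (α b₁ / α b₀)) := by
    have a1 : ∀ b, Tendsto (fun y : ι → V => Λ (y b)) (𝓝 (σ1 0)) (𝓝 (α b * Λ q)) := fun b => by
      have := (Λ.continuous.tendsto _).comp (hev b)
      rwa [map_smul, smul_eq_mul] at this
    have a2 := (a1 b₁).div (a1 b₀) (mul_ne_zero hb₀ hΛ)
    rwa [mul_div_mul_right _ _ hΛ] at a2
  have hin : Tendsto (fun y : ι → V => ((τ ((α b₀)⁻¹ • y b₀)).1, Λ (y b₁) / Λ (y b₀))) (𝓝 (σ1 0)) (𝓝 (Φ 0)) := by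
    rw [hΦ0]
    exact ((continuous_fst.tendsto _).comp hst).prodMk_nhds hκ
  have hΛ0 : ∀ᶠ y in 𝓝 (σ1 0), Λ (y b₀) ≠ 0 := by
    have a1 : Tendsto (fun y : ι → V => Λ (y b₀)) (𝓝 (σ1 0)) (𝓝 (α b₀ * Λ q)) := by
      have := (Λ.continuous.tendsto _).comp (hev b₀)
      rwa [map_smul, smul_eq_mul] at this
    exact a1.eventually_ne (mul_ne_zero hb₀ hΛ)
  have hσ1ne : σ1 0 ≠ 0 := by
    rw [hσ10]
    intro hcon
    have := congrFun hcon b₀
    exact (smul_ne_zero hb₀ hq0) this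
  have hphi : ∀ᶠ p in 𝓝 (0 : ℂ × ℂ), phi l (σ (m p)) = p.1 • σ1 p := by
    filter_upwards [hlσ] with p hp
    funext b
    simp only [phi, Pi.smul_apply, hσ1, smul_smul]
    rw [hp b]
  have hL0ev : ∀ᶠ p in 𝓝 (0 : ℂ × ℂ), L b₀ p ≠ 0 := (hL_an b₀).continuousAt.eventually_ne hL00
  refine ⟨σ1, τ1, isChart_of_dense hσ1_an ?_ ?_ ?_ ?_ ?_, ?_, ?_⟩
  · -- `σ1 p ∈ blow`
    have a1 : ∀ᶠ p in 𝓝 (0 : ℂ × ℂ), p.1 ≠ 0 → σ1 p ∈ dense l X := by
      filter_upwards [hphi, hlσ, hL0ev, hmt.eventually h.σ_mem] with p h1 h2 h3 h4 h5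
      refine ⟨σ (m p), h4, ⟨b₀, ?_⟩, (p.1)⁻¹, inv_ne_zero h5, ?_⟩
      · rw [h2]
        exact mul_ne_zero h5 h3
      · rw [h1, smul_smul, inv_mul_cancel₀ h5, one_smul]
    have a2 : ∀ᶠ p in 𝓝 (0 : ℂ × ℂ), ∀ᶠ p' in 𝓝 p, p'.1 ≠ 0 → σ1 p' ∈ dense l X := a1.eventually_nhds
    filter_upwards [a2, hσ1_an.eventually_analyticAt, hσ1_an.continuousAt.eventually_ne hσ1ne] with p h1 h2 h3
    refine ⟨?_, h3⟩
    by_cases h4 : p.1 = 0
    · have a3 : Tendsto (fun u : ℂ => ((u, p.2) : ℂ × ℂ)) (𝓝[≠] 0) (𝓝 p) := by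
        have : Tendsto (fun u : ℂ => ((u, p.2) : ℂ × ℂ)) (𝓝 0) (𝓝 (0, p.2)) :=
          (continuous_id.prodMk continuous_const).tendsto 0
        have e : ((0 : ℂ), p.2) = p := by rw [← h4]
        rw [e] at this
        exact this.mono_left nhdsWithin_le_nhds
      refine mem_closure_of_tendsto (h2.continuousAt.tendsto.comp a3) ?_
      filter_upwards [a3.eventually h1, self_mem_nhdsWithin] with u hu hu0
      exact hu hu0
    · exact subset_closure (h1.self_of_nhds h4)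
  · -- `τ1` is analytic
    have e1 : τ1 = fun y => Ψ ((τ ((α b₀)⁻¹ • y b₀)).1, Λ (y b₁) / Λ (y b₀)) := funext hτ1
    rw [e1]
    have a0 : ∀ b, AnalyticAt ℂ (fun y : ι → V => y b) (σ1 0) := fun b =>
      (ContinuousLinearMap.proj (R := ℂ) (φ := fun _ : ι => V) b).analyticAt _
    have a1 : AnalyticAt ℂ (fun y : ι → V => τ ((α b₀)⁻¹ • y b₀)) (σ1 0) := by
      refine AnalyticAt.comp (f := fun y : ι → V => (α b₀)⁻¹ • y b₀) (g := τ) ?_ ((a0 b₀).const_smul (c := (α b₀)⁻¹))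
      have e2 : (α b₀)⁻¹ • σ1 0 b₀ = σ 0 := by
        rw [hσ10, smul_smul, inv_mul_cancel₀ hb₀, one_smul, h0]
      rw [e2]
      exact h.τ_an
    have a2 : ∀ b, AnalyticAt ℂ (fun y : ι → V => Λ (y b)) (σ1 0) := fun b => (Λ.analyticAt _).comp (a0 b)
    have a3 : AnalyticAt ℂ (fun y : ι → V => ((τ ((α b₀)⁻¹ • y b₀)).1, Λ (y b₁) / Λ (y b₀))) (σ1 0) :=
      (AnalyticAt.comp analyticAt_fst a1).prod ((a2 b₁).div (a2 b₀) hΛ0.self_of_nhds)
    refine AnalyticAt.comp (g := Ψ) ?_ a3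
    have e3 : ((τ ((α b₀)⁻¹ • σ1 0 b₀)).1, Λ (σ1 0 b₁) / Λ (σ1 0 b₀)) = Φ 0 :=
      tendsto_nhds_unique (a3.continuousAt.tendsto) hin
    rw [e3]
    exact hΨ_an
  · -- left inverse
    have a1 : Tendsto (fun p : ℂ × ℂ => (σ (m p), (α b₀)⁻¹ * L b₀ p)) (𝓝 0) (𝓝 (σ 0, (1 : ℂ))) := by
      have b1 : Tendsto (fun p => σ (m p)) (𝓝 0) (𝓝 (σ 0)) := by
        have := hσm.continuousAt.tendsto
        simpa only [hm0] using this
      have b2 : Tendsto (fun p => (α b₀)⁻¹ * L b₀ p) (𝓝 0) (𝓝 1) := by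
        have := (hL_an b₀).continuousAt.tendsto.const_mul (α b₀)⁻¹
        rwa [hL0, inv_mul_cancel₀ hb₀] at this
      exact b1.prodMk_nhds b2
    have a2 : ∀ᶠ p in 𝓝 (0 : ℂ × ℂ), Λ (σ (m p)) ≠ 0 := by
      have b1 : Tendsto (fun p => Λ (σ (m p))) (𝓝 0) (𝓝 (Λ (σ 0))) := by
        have := (Λ.continuous.tendsto _).comp hσm.continuousAt.tendsto
        simpa only [hm0, Function.comp_def] using this
      exact b1.eventually_ne (by rw [h0]; exact hΛ)
    filter_upwards [a1.eventually h.inv, hmt.eventually h.left, hΨl, a2, hL0ev] with p h1 h2 h3 h4 h5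
    rw [hτ1, hσ1, hσ1, smul_smul]
    rw [h1, h2, map_smul, map_smul, smul_eq_mul, smul_eq_mul, mul_div_mul_right _ _ h4, hm]
    have e1 : ((p.1, p.1 * p.2).1, L b₁ p / L b₀ p) = Φ p := by rw [hΦ, hR]
    rw [e1, h3]
  · -- right inverse
    have a1 : Tendsto (fun y : ι → V => (((τ ((α b₀)⁻¹ • y b₀)).1, Λ (y b₁) / Λ (y b₀), (τ ((α b₀)⁻¹ • y b₀)).2) : ℂ × ℂ × ℂ))
        (𝓝 (σ1 0)) (𝓝 w₀) := by
      rw [hw₀]
      exact ((continuous_fst.tendsto _).comp hst).prodMk_nhds (hκ.prodMk_nhds ((continuous_snd.tendsto _).comp hst))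
    have a2 : Tendsto τ1 (𝓝 (σ1 0)) (𝓝 0) := by
      have e1 : τ1 = fun y => Ψ ((τ ((α b₀)⁻¹ • y b₀)).1, Λ (y b₁) / Λ (y b₀)) := funext hτ1
      rw [e1]
      have := hΨ_an.continuousAt.tendsto.comp hin
      rwa [hΨ0] at this
    have a3 : Tendsto (fun y : ι → V => (((τ ((α b₀)⁻¹ • y b₀)).1, Λ (y b₁) / Λ (y b₀),
        (τ ((α b₀)⁻¹ • y b₀)).1 * (τ1 y).2) : ℂ × ℂ × ℂ)) (𝓝 (σ1 0)) (𝓝 w₀) := by
      rw [hw₀]
      refine ((continuous_fst.tendsto _).comp hst).prodMk_nhds (hκ.prodMk_nhds ?_)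
      have := ((continuous_fst.tendsto _).comp hst).mul ((continuous_snd.tendsto _).comp a2)
      simpa using this
    filter_upwards [hx'.eventually h.right, hΛ0, hin.eventually hΨr, a1.eventually hΞl, a3.eventually hΞl, a2.eventually hphi,
      a2.eventually hlσ, a2.eventually hL0ev] with y h1 h2 h3 h4 h5 h6 h7 h8 hy
    obtain ⟨x, hx, hbx, c, hc, rfl⟩ := hy
    have g1 : ∀ b, (c • phi l x) b = (c * l b x) • x := fun b => by
      simp only [phi, Pi.smul_apply, smul_smul]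
    rw [g1, map_smul, smul_eq_mul] at h2
    have g2 : c * l b₀ x ≠ 0 := left_ne_zero_of_mul h2
    have g3 : Λ x ≠ 0 := right_ne_zero_of_mul h2
    have g4 : l b₀ x ≠ 0 := right_ne_zero_of_mul g2
    have g5 : (α b₀)⁻¹ • (c • phi l x) b₀ = ((α b₀)⁻¹ * (c * l b₀ x)) • x := by rw [g1, smul_smul]
    have g6 : (α b₀)⁻¹ * (c * l b₀ x) ≠ 0 := mul_ne_zero (inv_ne_zero hb₀) g2
    obtain ⟨c', hc', hx2⟩ := h1 (by rw [g5]; exact hX.smul x hx _ g6)
    obtain ⟨st, hst'⟩ : ∃ st, st = τ ((α b₀)⁻¹ • (c • phi l x) b₀) := ⟨_, rfl⟩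
    obtain ⟨uv, huv⟩ : ∃ uv, uv = τ1 (c • phi l x) := ⟨_, rfl⟩
    obtain ⟨κ, hκ'⟩ : ∃ κ, κ = Λ ((c • phi l x) b₁) / Λ ((c • phi l x) b₀) := ⟨_, rfl⟩
    rw [hτ1, ← hst', ← hκ'] at huv
    rw [← hst', ← hκ'] at h3 h4 h5
    rw [hτ1, ← hst', ← hκ', ← huv] at h5 h6 h7 h8
    rw [hτ1, ← hst', ← hκ', ← huv]
    rw [← hst'] at hx2
    rw [← huv, hΦ] at h3
    have k1 : uv.1 = st.1 := (Prod.ext_iff.mp h3).1
    have k2 : R uv = κ := (Prod.ext_iff.mp h3).2
    have g7 : κ = l b₁ x / l b₀ x := by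
      rw [hκ', g1, g1, map_smul, map_smul, smul_eq_mul, smul_eq_mul, mul_div_mul_right _ _ g3, mul_div_mul_left _ _ hc]
    -- `x` is a multiple of `σ st`
    obtain ⟨c2, hc2, hx3⟩ : ∃ c2 : ℂ, c2 ≠ 0 ∧ x = c2 • σ st := by
      refine ⟨((α b₀)⁻¹ * (c * l b₀ x))⁻¹ * c', mul_ne_zero (inv_ne_zero g6) hc', ?_⟩
      rw [mul_smul, ← hx2, g5, smul_smul, inv_mul_cancel₀ g6, one_smul]
    have g8 : ∀ b, l b x = c2 * l b (σ st) := fun b => by
      conv_lhs => rw [hx3]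
      rw [map_smul, smul_eq_mul]
    have g9 : l b₁ (σ st) - κ * l b₀ (σ st) = 0 := by
      have e1 : l b₀ (σ st) ≠ 0 := by
        intro e
        rw [g8, e, mul_zero] at g4
        exact g4 rfl
      rw [g7, g8, g8, mul_div_mul_left _ _ hc2, div_mul_cancel₀ _ e1, sub_self]
    have g10 : l b₁ (σ (st.1, st.1 * uv.2)) - κ * l b₀ (σ (st.1, st.1 * uv.2)) = 0 := by
      have e1 : m uv = (st.1, st.1 * uv.2) := by rw [hm, k1]
      rw [← e1, h7 b₁, h7 b₀, ← k2, hR]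
      field_simp
      ring
    have k3 : st.2 = st.1 * uv.2 := by
      have e1 : Θ (st.1, κ, st.2) = Θ (st.1, κ, st.1 * uv.2) := by
        rw [hΘ, hΘ]
        simp only
        rw [g10]
        rw [show ((st.1, st.2) : ℂ × ℂ) = st from rfl, g9]
      rw [e1, h5] at h4
      exact (congrArg (fun w : ℂ × ℂ × ℂ => w.2.2) h4).symm
    have k4 : st = m uv := by
      rw [hm, k1, ← k3]
    refine ⟨c * c2 ^ 2 * uv.1, ?_⟩
    conv_lhs => rw [hx3]
    rw [phi_smul, k4, h6, smul_smul, smul_smul, mul_assoc]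
  · -- invariance
    have a1 : Tendsto (fun p : (ι → V) × ℂ => ((α b₀)⁻¹ • p.1 b₀, p.2)) (𝓝 (σ1 0, (1 : ℂ))) (𝓝 (σ 0, (1 : ℂ))) := by
      rw [nhds_prod_eq]
      exact ((hx'.comp tendsto_fst).prodMk tendsto_snd).mono_right (by rw [nhds_prod_eq])
    have a2 : ∀ᶠ p : (ι → V) × ℂ in 𝓝 (σ1 0, (1 : ℂ)), p.2 ≠ 0 :=
      (continuous_snd.tendsto (σ1 0, (1 : ℂ))).eventually_ne one_ne_zero
    filter_upwards [a1.eventually h.inv, a2] with p h1 h2
    rw [hτ1, hτ1]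
    have e1 : (α b₀)⁻¹ • (p.2 • p.1) b₀ = p.2 • (α b₀)⁻¹ • p.1 b₀ := by
      rw [Pi.smul_apply, smul_comm]
    rw [e1, h1, Pi.smul_apply, Pi.smul_apply, map_smul, map_smul, smul_eq_mul, smul_eq_mul, mul_div_mul_left _ _ h2]
  · filter_upwards [hphi] with p hp
    rw [← hp, hm]
  · rw [hσ10]
    funext b
    rw [hα]

end Pool.Agent.H62.BU

end

section

/-!
# BU Cov: every point of the blow-up off the dense part is on the exceptional curve

`blow_cover`: let `y ∈ blow`, `y b ≠ 0`.  If `y b` is not a multiple of `q` then `l b' (y b) ≠ 0` for some `b'` (`Ker`) and `y ∈ dense` (`mem_dense_of_ne`).  Otherwise `y b = λ_b • q`, `λ_b ≠ 0`, and all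
`y b' = λ_(b') • q` (`comp_smul`).  Let `U` be an ultrafilter on `dense` converging to `y` (`mem_closure_iff_ultrafilter`).  For `z ∈ dense` near `y`: `x = λ_b⁻¹ • z b` is in `X` (`comp_mem`) and near `q`, so
`x = c • σ p`, `p = τ x → 0` (`τ q = 0`), `c ≠ 0`.  `p ≠ 0`, because for `p = 0` all `l_b' x = 0`, hence `l_b' (z b) = 0`, and then `z b = 0` (write `z = c • phi l x₀`: `z b = (c l_b x₀) • x₀`, `l_(b') (z b) = c l_b x₀ l_(b') x₀`).
Let `w = p / ‖p‖`, `U`-limit `w₀`, `‖w₀‖ = 1` (compact sphere).  `l_(b') x / (c ‖p‖) = l_(b')(σ p)/‖p‖ → μ_(b') = l_(b')(Dσ(0) w₀)` (`HasFDerivAt`, `l_(b') (σ 0) = 0`).  On `dense`: `l_b x • z b' = l_(b') x • z b`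
(from `prop` with `Λ = l_b`, `symm`).  Divide by `c ‖p‖`, limit: `μ_b • y b' = μ_(b') • y b`.  If `μ_b = 0` then all `μ_(b') = 0` and `Dσ(0) w₀ ∈ ℂ q` (`Ker`), so `w₀ = 0` by `indep`: contradiction.
So `y b' = (λ_b / μ_b) • μ_(b') • q`.

`surface_blow`: `blow_zero`, `blow_smul`, `blow_closed`; a point of `dense` is `c • phi l x`: `chart_off` at `x`, then `scale`; a point `c • (l_b (Dσ(0) w) • q)_b`: choose a linear isomorphism `e` of `ℂ²` with
`e (1, 0) = w`, `comp_linear`, `chart_exc`, `scale`.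
-/

set_option autoImplicit false

namespace Pool.Agent.H62.BU

open Filter Topology

variable {V : Type*} [NormedAddCommGroup V] [NormedSpace ℂ V] {ι : Type*} [Fintype ι]
variable {l : ι → V →L[ℂ] ℂ} {X : Set V} {σ : ℂ × ℂ → V} {τ : V → ℂ × ℂ}

private theorem Cov_lim {F : Type*} {U : Filter F} {p : F → ℂ × ℂ} (hp : Tendsto p U (𝓝 0)) {w0 : ℂ × ℂ}
    (hw : Tendsto (fun z => ((‖p z‖ : ℝ) : ℂ)⁻¹ • p z) U (𝓝 w0)) {f : ℂ × ℂ → ℂ} {L : (ℂ × ℂ) →L[ℂ] ℂ}
    (hf : HasFDerivAt f L 0) (hf0 : f 0 = 0) :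
    Tendsto (fun z => ((‖p z‖ : ℝ) : ℂ)⁻¹ * f (p z)) U (𝓝 (L w0)) := by
  have h1 := hf.isLittleO
  have h2 := h1.comp_tendsto hp
  have h3 : (fun z => p z - 0) =O[U] fun z => ((‖p z‖ : ℝ) : ℂ) := by
    refine Asymptotics.IsBigO.of_bound 1 (Eventually.of_forall fun z => ?_)
    rw [sub_zero, Complex.norm_real, norm_norm, one_mul]
  have h4 := (h2.trans_isBigO h3).tendsto_div_nhds_zero
  have h5 : Tendsto (fun z => L (((‖p z‖ : ℝ) : ℂ)⁻¹ • p z)) U (𝓝 (L w0)) := (L.continuous.tendsto w0).comp hw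
  have h6 := h4.add h5
  rw [zero_add] at h6
  refine h6.congr fun z => ?_
  simp only [Function.comp_apply, hf0, sub_zero, map_smul, smul_eq_mul]
  rw [div_eq_inv_mul]
  ring

theorem blow_cover [FiniteDimensional ℂ V] (hX : Surface X) {q : V} (hl : Ker l q) (h : IsChart X σ τ) (h0 : σ 0 = q)
    (y : ι → V) (hy : y ∈ blow l X) :
    y ∈ dense l X ∨ ∃ w : ℂ × ℂ, w ≠ 0 ∧ ∃ c : ℂ, c ≠ 0 ∧ y = c • fun b => l b (fderiv ℂ σ 0 w) • q := by
  obtain ⟨b, hb⟩ := exists_ne y hy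
  by_cases hall : ∃ b', l b' (y b) ≠ 0
  · obtain ⟨b', hb'⟩ := hall
    exact Or.inl (mem_dense_of_ne hX y hy hb hb')
  right
  push Not at hall
  obtain ⟨lam, hlam⟩ := (hl (y b)).mp hall
  have hlam0 : lam ≠ 0 := by
    rintro rfl
    rw [zero_smul] at hlam
    exact hb hlam
  have hq : ∀ b', l b' q = 0 := (hl q).mpr ⟨1, (one_smul _ _).symm⟩
  obtain ⟨U, hUd, hUy⟩ := mem_closure_iff_ultrafilter.mp hy.1
  have hzb : Tendsto (fun z : ι → V => z b) U (𝓝 (y b)) := ((continuous_apply b).tendsto y).mono_left hUy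
  have hxt : Tendsto (fun z : ι → V => lam⁻¹ • z b) U (𝓝 q) := by
    have h1 := hzb.const_smul lam⁻¹
    rwa [hlam, smul_smul, inv_mul_cancel₀ hlam0, one_smul] at h1
  have hτ0 : τ q = 0 := by rw [← h0]; exact h.left.self_of_nhds
  have hpt : Tendsto (fun z : ι → V => τ (lam⁻¹ • z b)) U (𝓝 0) := by
    have h1 : Tendsto τ (𝓝 q) (𝓝 (τ q)) := by
      have := h.τ_an.continuousAt
      rw [h0] at this
      exact this
    rw [hτ0] at h1
    exact h1.comp hxt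
  have hright := h.right
  rw [h0] at hright
  have ev : ∀ᶠ z in (U : Filter (ι → V)), τ (lam⁻¹ • z b) ≠ 0 ∧
      ∀ b', l b (σ (τ (lam⁻¹ • z b))) • z b' = l b' (σ (τ (lam⁻¹ • z b))) • z b := by
    filter_upwards [hUd, hzb.eventually_ne hb, hxt.eventually hright] with z hz hzb0 hzr
    have hzX : z b ∈ X := comp_mem hX z (dense_sub hz) hzb0
    obtain ⟨c, hc, hc2⟩ := hzr (hX.smul _ hzX _ (inv_ne_zero hlam0))
    have hzs : z b = (lam * c) • σ (τ (lam⁻¹ • z b)) := by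
      rw [mul_smul, ← hc2, smul_smul, mul_inv_cancel₀ hlam0, one_smul]
    constructor
    · intro hp0
      rw [hp0, h0] at hzs
      have h1 : ∀ b', l b' (z b) = 0 := by
        intro b'
        rw [hzs, map_smul, hq, smul_zero]
      obtain ⟨x0, hx0, ⟨b1, hb1⟩, c1, hc1, rfl⟩ := hz
      have h2 : (c1 • phi l x0) b = (c1 * l b x0) • x0 := by
        simp only [phi, Pi.smul_apply, smul_smul]
      rw [h2] at hzb0 h1
      have h3 : c1 * l b x0 ≠ 0 := by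
        intro h4
        rw [h4, zero_smul] at hzb0
        exact hzb0 rfl
      have h4 := h1 b1
      rw [map_smul, smul_eq_mul] at h4
      rcases mul_eq_zero.mp h4 with h5 | h5
      · exact h3 h5
      · exact hb1 h5
    · intro b'
      have h1 := prop z (dense_sub hz) (l b) b b'
      rw [symm z (dense_sub hz) b b'] at h1
      have h2 : ∀ b', l b' (z b) = (lam * c) * l b' (σ (τ (lam⁻¹ • z b))) := by
        intro b'
        conv_lhs => rw [hzs]
        rw [map_smul, smul_eq_mul]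
      rw [h2 b, h2 b'] at h1
      have h3 : (lam * c) • (l b (σ (τ (lam⁻¹ • z b))) • z b') =
          (lam * c) • (l b' (σ (τ (lam⁻¹ • z b))) • z b) := by
        rw [smul_smul, smul_smul]
        exact h1
      exact smul_right_injective _ (mul_ne_zero hlam0 hc) h3
  -- the limit direction
  have hsph : ∃ w0 ∈ Metric.sphere (0 : ℂ × ℂ) 1, ((U.map fun z : ι → V =>
      ((‖τ (lam⁻¹ • z b)‖ : ℝ) : ℂ)⁻¹ • τ (lam⁻¹ • z b)) : Filter (ℂ × ℂ)) ≤ 𝓝 w0 := by
    refine (isCompact_sphere (0 : ℂ × ℂ) 1).ultrafilter_le_nhds _ ?_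
    rw [le_principal_iff]
    show ∀ᶠ z in (U : Filter (ι → V)), _ ∈ Metric.sphere (0 : ℂ × ℂ) 1
    filter_upwards [ev] with z hz
    rw [mem_sphere_zero_iff_norm, norm_smul, norm_inv, Complex.norm_real, norm_norm,
      inv_mul_cancel₀ (norm_ne_zero_iff.mpr hz.1)]
  obtain ⟨w0, hw0, hw0t⟩ := hsph
  rw [mem_sphere_zero_iff_norm] at hw0
  have hwt : Tendsto (fun z : ι → V => ((‖τ (lam⁻¹ • z b)‖ : ℝ) : ℂ)⁻¹ • τ (lam⁻¹ • z b)) U (𝓝 w0) := hw0t
  have hμ : ∀ b', Tendsto (fun z : ι → V => ((‖τ (lam⁻¹ • z b)‖ : ℝ) : ℂ)⁻¹ * l b' (σ (τ (lam⁻¹ • z b)))) U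
      (𝓝 (l b' (fderiv ℂ σ 0 w0))) := by
    intro b'
    have h1 : HasFDerivAt (fun p => l b' (σ p)) ((l b').comp (fderiv ℂ σ 0)) 0 :=
      (l b').hasFDerivAt.comp 0 h.σ_an.differentiableAt.hasFDerivAt
    exact Cov_lim hpt hwt h1 (by show l b' (σ 0) = 0; rw [h0, hq])
  have hrel : ∀ b', l b (fderiv ℂ σ 0 w0) • y b' = l b' (fderiv ℂ σ 0 w0) • y b := by
    intro b'
    have h1 : Tendsto (fun z : ι → V => (((‖τ (lam⁻¹ • z b)‖ : ℝ) : ℂ)⁻¹ * l b (σ (τ (lam⁻¹ • z b)))) • z b') U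
        (𝓝 (l b (fderiv ℂ σ 0 w0) • y b')) :=
      (hμ b).smul (((continuous_apply b').tendsto y).mono_left hUy)
    have h2 : Tendsto (fun z : ι → V => (((‖τ (lam⁻¹ • z b)‖ : ℝ) : ℂ)⁻¹ * l b' (σ (τ (lam⁻¹ • z b)))) • z b) U
        (𝓝 (l b' (fderiv ℂ σ 0 w0) • y b)) := (hμ b').smul hzb
    refine tendsto_nhds_unique_of_eventuallyEq h1 h2 ?_
    filter_upwards [ev] with z hz
    rw [mul_smul, mul_smul, hz.2 b']
  have hμb : l b (fderiv ℂ σ 0 w0) ≠ 0 := by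
    intro hz
    have h1 : ∀ b', l b' (fderiv ℂ σ 0 w0) = 0 := by
      intro b'
      have h2 := hrel b'
      rw [hz, zero_smul] at h2
      rcases smul_eq_zero.mp h2.symm with h3 | h3
      · exact h3
      · exact absurd h3 hb
    obtain ⟨c, hc⟩ := (hl _).mp h1
    rw [← h0] at hc
    have h2 := h.indep hc
    rw [h2, norm_zero] at hw0
    exact zero_ne_one hw0
  refine ⟨w0, ?_, lam / l b (fderiv ℂ σ 0 w0), div_ne_zero hlam0 hμb, ?_⟩
  · rintro rfl
    rw [norm_zero] at hw0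
    exact zero_ne_one hw0
  · funext b'
    have h1 := hrel b'
    rw [hlam] at h1
    show y b' = (lam / l b (fderiv ℂ σ 0 w0)) • (l b' (fderiv ℂ σ 0 w0) • q)
    have h2 : y b' = (l b (fderiv ℂ σ 0 w0))⁻¹ • (l b (fderiv ℂ σ 0 w0) • y b') := by
      rw [smul_smul, inv_mul_cancel₀ hμb, one_smul]
    rw [h2, h1]
    simp only [smul_smul]
    congr 1
    ring

private theorem Cov_equiv_left {w : ℂ × ℂ} (hw : w.1 ≠ 0) : ∃ e : (ℂ × ℂ) ≃L[ℂ] (ℂ × ℂ), e (1, 0) = w := by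
  -- `(s, t) ↦ (w.1 s, w.2 s + t)`
  let f : (ℂ × ℂ) →ₗ[ℂ] (ℂ × ℂ) :=
    { toFun := fun p => (w.1 * p.1, w.2 * p.1 + p.2)
      map_add' := fun p q => by ext <;> simp <;> ring
      map_smul' := fun c p => by ext <;> simp <;> ring }
  let g : (ℂ × ℂ) →ₗ[ℂ] (ℂ × ℂ) :=
    { toFun := fun p => (w.1⁻¹ * p.1, p.2 - w.2 * (w.1⁻¹ * p.1))
      map_add' := fun p q => by ext <;> simp <;> ring
      map_smul' := fun c p => by ext <;> simp <;> ring }
  let e : (ℂ × ℂ) ≃ₗ[ℂ] (ℂ × ℂ) :=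
    LinearEquiv.ofLinearMap f g
      (by
        ext <;> simp [f, g, hw])
      (by
        ext <;> simp [f, g, hw])
  refine ⟨e.toContinuousLinearEquiv, ?_⟩
  show f (1, 0) = w
  simp [f]

theorem exists_equiv {w : ℂ × ℂ} (hw : w ≠ 0) : ∃ e : (ℂ × ℂ) ≃L[ℂ] (ℂ × ℂ), e (1, 0) = w := by
  by_cases h1 : w.1 = 0
  · have h2 : w.2 ≠ 0 := by
      intro h2
      exact hw (Prod.ext h1 h2)
    obtain ⟨e, he⟩ := Cov_equiv_left (w := (w.2, w.1)) h2
    refine ⟨e.trans (ContinuousLinearEquiv.prodComm ℂ ℂ ℂ), ?_⟩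
    rw [ContinuousLinearEquiv.trans_apply, he]
    rfl
  · exact Cov_equiv_left h1

end Pool.Agent.H62.BU

end

section

/-!
# EF Count: forms of degree `d` in general position

On a surface the forms of degree `d` modulo the ideal of the surface have dimension at least `(d + 1)²/2`, so for every `K` there is a `d` such that `K d` linear
conditions can be satisfied by a form of degree `d` which does not vanish on the surface.
-/

set_option autoImplicit false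

open MvPolynomial

noncomputable section

namespace Pool.Agent.H17EF

open Pool.Agent.H17GT (coordFun)
open Pool.Agent.H17LG.Variety (FunField)

variable {N : ℕ} {P : Ideal (MvPolynomial (Fin (N + 1)) ℂ)}

/-- coordinates which are algebraically independent on the surface -/
theorem exists_coords [P.IsPrime] {z : Fin 2 → FunField P} (hz : IsTranscendenceBasis ℂ z)
    (hX : ∃ i, (X i : MvPolynomial (Fin (N + 1)) ℂ) ∉ P) :
    ∃ (j : Fin (N + 1)) (J : Fin 2 → Fin (N + 1)), ∀ (d : ℕ) (p : MvPolynomial (Fin 2) ℂ), p ≠ 0 → p.totalDegree ≤ d →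
      (∑ k ∈ Finset.range (d + 1), X j ^ (d - k) * rename J (homogeneousComponent k p)) ∉ P := by
  obtain ⟨j, hj0⟩ := hX
  have hj : coordFun P j ≠ 0 := by
    intro h0
    exact hj0 ((Pool.Agent.H92.GT.Proj.aeval_coordFun_eq_zero_iff P (X j)).1
      (by rw [aeval_X]; exact h0))
  obtain ⟨x, hx1, hxgen, hxker⟩ := Pool.Agent.H92.GT.Proj.proj_point P hj
  have halg : Algebra.IsAlgebraic (IntermediateField.adjoin ℂ (Set.range x))
      (H17GT.functionField P) := by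
    rw [hxgen]
    exact ⟨fun f => isAlgebraic_algebraMap (⟨f, IntermediateField.mem_top⟩ :
      (⊤ : IntermediateField ℂ (H17GT.functionField P)))⟩
  obtain ⟨J, hJ⟩ := Pool.Agent.H92.GT.exists_index halg (z := z) hz
  refine ⟨j, J, fun d p hp hd hmem => hp ?_⟩
  have hhom : (∑ k ∈ Finset.range (d + 1), X j ^ (d - k) * rename J (homogeneousComponent k p) :
      MvPolynomial (Fin (N + 1)) ℂ).IsHomogeneous d := by
    apply MvPolynomial.IsHomogeneous.sum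
    intro k hk
    have h1 : k ≤ d := Nat.lt_succ_iff.1 (Finset.mem_range.1 hk)
    have h2 := (MvPolynomial.isHomogeneous_X_pow (R := ℂ) j (d - k)).mul
      ((MvPolynomial.homogeneousComponent_isHomogeneous k p).rename_isHomogeneous (f := J))
    rwa [Nat.sub_add_cancel h1] at h2
  have h1 := (hxker d _ hhom).2 hmem
  have h2 : aeval (fun i => x (J i)) p = 0 := by
    have h3 : p = ∑ k ∈ Finset.range (d + 1), homogeneousComponent k p := by
      conv_lhs => rw [← MvPolynomial.sum_homogeneousComponent p]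
      refine Finset.sum_subset (Finset.range_mono (by omega)) fun k _ hk => ?_
      apply MvPolynomial.homogeneousComponent_eq_zero
      simp only [Finset.mem_range, not_lt] at hk
      omega
    rw [h3, map_sum]
    rw [map_sum] at h1
    rw [← h1]
    refine Finset.sum_congr rfl fun k _ => ?_
    rw [map_mul, map_pow, aeval_X, hx1, one_pow, one_mul, aeval_rename]
    rfl
  have h4 := hJ.1
  rw [algebraicIndependent_iff] at h4
  exact h4 p h2

/-- **Dimension count.** -/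
theorem exists_form_of_conditions [P.IsPrime] {z : Fin 2 → FunField P} (hz : IsTranscendenceBasis ℂ z)
    (hX : ∃ i, (X i : MvPolynomial (Fin (N + 1)) ℂ) ∉ P) (K : ℕ) :
    ∃ d : ℕ, 1 ≤ d ∧ ∀ L : MvPolynomial (Fin (N + 1)) ℂ →ₗ[ℂ] (Fin (K * d) → ℂ),
      ∃ Q : MvPolynomial (Fin (N + 1)) ℂ, Q.IsHomogeneous d ∧ Q ∉ P ∧ L Q = 0 := by
  obtain ⟨j, J, hJ⟩ := exists_coords hz hX
  -- the space of polynomials with exponents at most `e` in both variables
  obtain ⟨e, he⟩ : ∃ e : ℕ, e = 2 * K := ⟨_, rfl⟩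
  obtain ⟨d, hd⟩ : ∃ d : ℕ, d = 2 * e + 1 := ⟨_, rfl⟩
  refine ⟨d, by omega, fun L => ?_⟩
  -- the map from coefficients to forms
  let mon : Fin (e + 1) × Fin (e + 1) → MvPolynomial (Fin 2) ℂ := fun ab => X 0 ^ (ab.1 : ℕ) * X 1 ^ (ab.2 : ℕ)
  let Φ : (Fin (e + 1) × Fin (e + 1) → ℂ) →ₗ[ℂ] MvPolynomial (Fin 2) ℂ :=
    Fintype.linearCombination ℂ mon
  let Ψ : MvPolynomial (Fin 2) ℂ →ₗ[ℂ] MvPolynomial (Fin (N + 1)) ℂ :=
    ∑ k ∈ Finset.range (d + 1), (LinearMap.mulLeft ℂ (X j ^ (d - k))) ∘ₗ (rename J).toLinearMap ∘ₗ homogeneousComponent k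
  have hΨ : ∀ p, Ψ p = ∑ k ∈ Finset.range (d + 1), X j ^ (d - k) * rename J (homogeneousComponent k p) := by
    intro p
    simp only [Ψ, LinearMap.sum_apply, LinearMap.comp_apply, LinearMap.mulLeft_apply, AlgHom.toLinearMap_apply]
  have hcard : Module.finrank ℂ (Fin (K * d) → ℂ) < Module.finrank ℂ (Fin (e + 1) × Fin (e + 1) → ℂ) := by
    rw [Module.finrank_fintype_fun_eq_card, Module.finrank_fintype_fun_eq_card, Fintype.card_fin, Fintype.card_prod, Fintype.card_fin]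
    rw [hd, he]
    nlinarith
  obtain ⟨c, hc, hc0⟩ : ∃ c, (L ∘ₗ Ψ ∘ₗ Φ) c = 0 ∧ c ≠ 0 := by
    have h1 := LinearMap.ker_ne_bot_of_finrank_lt (f := L ∘ₗ Ψ ∘ₗ Φ) hcard
    obtain ⟨c, hc, hc0⟩ := Submodule.exists_mem_ne_zero_of_ne_bot h1
    exact ⟨c, hc, hc0⟩
  have hΦ : Φ c ≠ 0 := by
    intro h0
    apply hc0
    have hinj : LinearIndependent ℂ mon := by
      have h1 : mon = (fun s : Fin 2 →₀ ℕ => monomial s (1 : ℂ)) ∘ fun ab : Fin (e + 1) × Fin (e + 1) =>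
          (Finsupp.single 0 (ab.1 : ℕ) + Finsupp.single 1 (ab.2 : ℕ)) := by
        funext ab
        simp only [mon, Function.comp_apply]
        rw [X_pow_eq_monomial, X_pow_eq_monomial, monomial_mul, one_mul]
      rw [h1]
      have h2 : LinearIndependent ℂ (fun s : Fin 2 →₀ ℕ => monomial s (1 : ℂ)) := by
        have := (basisMonomials (Fin 2) ℂ).linearIndependent
        rwa [coe_basisMonomials] at this
      refine h2.comp _ ?_
      intro a b hab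
      have h3 := DFunLike.congr_fun hab 0
      have h4 := DFunLike.congr_fun hab 1
      simp at h3 h4
      ext
      · exact_mod_cast h3
      · exact_mod_cast h4
    have h5 := Fintype.linearIndependent_iff.1 hinj c (by simpa [Φ, Fintype.linearCombination_apply] using h0)
    exact _root_.funext h5
  have hdeg : (Φ c).totalDegree ≤ d := by
    simp only [Φ, Fintype.linearCombination_apply]
    refine (totalDegree_finsetSum _ _).trans (Finset.sup_le fun ab _ => ?_)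
    refine (totalDegree_smul_le _ _).trans ?_
    refine (totalDegree_mul _ _).trans ?_
    rw [totalDegree_X_pow, totalDegree_X_pow]
    have h1 := ab.1.2
    have h2 := ab.2.2
    omega
  refine ⟨Ψ (Φ c), ?_, ?_, hc⟩
  · rw [hΨ]
    apply MvPolynomial.IsHomogeneous.sum
    intro k hk
    have h1 : k ≤ d := Nat.lt_succ_iff.1 (Finset.mem_range.1 hk)
    have h2 := (MvPolynomial.isHomogeneous_X_pow (R := ℂ) j (d - k)).mul
      ((MvPolynomial.homogeneousComponent_isHomogeneous k (Φ c)).rename_isHomogeneous (f := J))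
    rwa [Nat.sub_add_cancel h1] at h2
  · rw [hΨ]
    exact hJ d _ hΦ hdeg

end Pool.Agent.H17EF

end
end

section

/-!
# E1 ChowF: a form which vanishes on a set which is covered by finitely many discs
-/

set_option autoImplicit false

open Topology Filter Metric MvPolynomial

noncomputable section

namespace Pool.Agent.E1

open Pool.Agent.H36.BP (EN)
open Pool.Agent.H14.PP (eval_smulEN analyticAt_evalEN continuous_evalEN)
open Pool.Agent.H17EF (exists_form_of_conditions)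
open Pool.Agent.H17LG.Variety (FunField)

variable {N : ℕ}

/-- **Forms on a surface which vanish on finitely many discs and their multiples.** -/
theorem exists_form_of_discs {P : Ideal (MvPolynomial (Fin (N + 1)) ℂ)} [P.IsPrime] {z : Fin 2 → FunField P} (hz : IsTranscendenceBasis ℂ z)
    (hX : ∃ i, (X i : MvPolynomial (Fin (N + 1)) ℂ) ∉ P) {Z : Set (EN N)} (hZ0 : (0 : EN N) ∉ Z) (hZs : ∀ x ∈ Z, ∀ c : ℂ, c ≠ 0 → c • x ∈ Z)
    {r : ℕ} (γ : Fin r → ℂ → EN N) (hγ : ∀ i, AnalyticOnNhd ℂ (γ i) (closedBall 0 1)) (hγZ : ∀ i, ∀ z ∈ closedBall (0 : ℂ) 1, γ i z ∈ Z)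
    (hcov : ∀ x ∈ Z, ∃ i, ∃ z ∈ closedBall (0 : ℂ) (1 / 2), ∃ c : ℂ, c ≠ 0 ∧ γ i z = c • x) :
    ∃ (R : MvPolynomial (Fin (N + 1)) ℂ) (d : ℕ), R.IsHomogeneous d ∧ R ∉ P ∧ ∀ x ∈ Z, eval x.ofLp R = 0 := by
  obtain ⟨K, hK⟩ := vanish_of_discs hZ0 hZs γ hγ hγZ hcov
  obtain ⟨d, hd, hL⟩ := exists_form_of_conditions hz hX (r * K)
  have han : ∀ (Q : MvPolynomial (Fin (N + 1)) ℂ) (i : Fin r), AnalyticAt ℂ (fun z => eval (γ i z).ofLp Q) 0 := fun Q i =>
    (analyticAt_evalEN Q (γ i 0)).fun_comp (hγ i 0 (mem_closedBall_self zero_le_one))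
  -- the linear conditions
  let e : Fin (r * K * d) ≃ Fin r × Fin (K * d) := (finCongr (mul_assoc r K d)).trans finProdFinEquiv.symm
  let L : MvPolynomial (Fin (N + 1)) ℂ →ₗ[ℂ] (Fin (r * K * d) → ℂ) :=
    { toFun := fun Q t => iteratedDeriv ((e t).2 : ℕ) (fun z => eval (γ (e t).1 z).ofLp Q) 0
      map_add' := by
        intro Q R
        funext t
        have e1 : (fun z => eval (γ (e t).1 z).ofLp (Q + R)) = (fun z => eval (γ (e t).1 z).ofLp Q) + fun z => eval (γ (e t).1 z).ofLp R := by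
          funext z; simp
        rw [e1, iteratedDeriv_add (han Q _).contDiffAt (han R _).contDiffAt]
        rfl
      map_smul' := by
        intro c Q
        funext t
        have e1 : (fun z => eval (γ (e t).1 z).ofLp (c • Q)) = c • fun z => eval (γ (e t).1 z).ofLp Q := by
          funext z; simp [MvPolynomial.smul_eval]
        rw [e1, iteratedDeriv_const_smul (han Q _).contDiffAt]
        rfl }
  obtain ⟨Q, hQ, hQP, hLQ⟩ := hL L
  refine ⟨Q, d, hQ, hQP, hK d hd Q hQ fun i k hk => ?_⟩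
  have h1 := congrFun hLQ (e.symm (i, ⟨k, hk⟩))
  simpa [L] using h1

end Pool.Agent.E1

end
end

section

/-!
Every lattice of finite index in `ℤ × ℤ` has a finite family of bases in the quadrant whose
cones cover the quadrant.
-/

namespace Pool.Agent.MQ3

/-- the vector in `ℤ × ℤ` -/
def cst (w : ℕ × ℕ) : ℤ × ℤ := (w.1, w.2)

/-- primitive in `L` -/
structure Prim (L : AddSubgroup (ℤ × ℤ)) (w : ℕ × ℕ) : Prop where
  mem : cst w ∈ L
  pos : 0 < w.1 + w.2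
  prim : ∀ v ∈ L, ∀ j k : ℤ, 0 < j → j < k → k * v.1 = j * w.1 → k * v.2 = j * w.2 → False

/-- a primitive vector on the ray of a given vector -/
lemma exists_prim {L : AddSubgroup (ℤ × ℤ)} {u : ℕ × ℕ} (hu : cst u ∈ L) (hpos : 0 < u.1 + u.2) :
    ∃ v : ℕ × ℕ, Prim L v ∧ ∃ j k : ℕ, 0 < j ∧ j ≤ k ∧ k * v.1 = j * u.1 ∧ k * v.2 = j * u.2 := by
  classical
  let Q : ℕ → Prop := fun n => ∃ v : ℕ × ℕ, cst v ∈ L ∧ 0 < v.1 + v.2 ∧ v.1 + v.2 = n ∧
    ∃ j k : ℕ, 0 < j ∧ 0 < k ∧ k * v.1 = j * u.1 ∧ k * v.2 = j * u.2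
  have hQ : ∃ n, Q n := ⟨u.1 + u.2, u, hu, hpos, rfl, 1, 1, one_pos, one_pos, rfl, rfl⟩
  obtain ⟨v, hv, hv0, hvn, j, k, hj, hk, h1, h2⟩ := Nat.find_spec hQ
  have hmin : ∀ v' : ℕ × ℕ, cst v' ∈ L → 0 < v'.1 + v'.2 →
      (∃ j k : ℕ, 0 < j ∧ 0 < k ∧ k * v'.1 = j * u.1 ∧ k * v'.2 = j * u.2) →
      v.1 + v.2 ≤ v'.1 + v'.2 := by
    intro v' a1 a2 a3
    rw [hvn]
    exact Nat.find_min' hQ ⟨v', a1, a2, rfl, a3⟩
  refine ⟨v, ⟨hv, hv0, ?_⟩, j, k, hj, ?_, h1, h2⟩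
  · intro w hw i l hi hil e1 e2
    have hl : 0 < l := hi.trans hil
    have w1 : 0 ≤ w.1 := by
      by_contra hneg
      rw [not_le] at hneg
      have : l * w.1 < 0 := mul_neg_of_pos_of_neg hl hneg
      have : 0 ≤ i * (v.1 : ℤ) := by positivity
      omega
    have w2 : 0 ≤ w.2 := by
      by_contra hneg
      rw [not_le] at hneg
      have : l * w.2 < 0 := mul_neg_of_pos_of_neg hl hneg
      have : 0 ≤ i * (v.2 : ℤ) := by positivity
      omega
    obtain ⟨a, ha⟩ := Int.eq_ofNat_of_zero_le w1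
    obtain ⟨b, hb⟩ := Int.eq_ofNat_of_zero_le w2
    obtain ⟨i', hi'⟩ := Int.eq_ofNat_of_zero_le hi.le
    obtain ⟨l', hl'⟩ := Int.eq_ofNat_of_zero_le hl.le
    subst hi' hl'
    rw [ha] at e1
    rw [hb] at e2
    have e1' : l' * a = i' * v.1 := by exact_mod_cast e1
    have e2' : l' * b = i' * v.2 := by exact_mod_cast e2
    have hi0 : 0 < i' := by exact_mod_cast hi
    have hl0 : 0 < l' := by exact_mod_cast hl
    have hil0 : i' < l' := by exact_mod_cast hil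
    have hsum : l' * (a + b) = i' * (v.1 + v.2) := by rw [mul_add, mul_add, e1', e2']
    have hab : 0 < a + b := by
      rcases Nat.eq_zero_or_pos (a + b) with h0 | h0
      · rw [h0, mul_zero] at hsum
        have : 0 < i' * (v.1 + v.2) := Nat.mul_pos hi0 hv0
        omega
      · exact h0
    have hle := hmin (a, b) (by
      have : cst (a, b) = w := by
        ext
        · simp [cst, ha]
        · simp [cst, hb]
      rw [this]; exact hw) hab
      ⟨i' * j, l' * k, Nat.mul_pos hi0 hj, Nat.mul_pos hl0 hk, by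
        calc l' * k * a = k * (l' * a) := by ring
          _ = i' * (k * v.1) := by rw [e1']; ring
          _ = i' * j * u.1 := by rw [h1]; ring, by
        calc l' * k * b = k * (l' * b) := by ring
          _ = i' * (k * v.2) := by rw [e2']; ring
          _ = i' * j * u.2 := by rw [h2]; ring⟩
    simp only at hle
    have : i' * (v.1 + v.2) < l' * (v.1 + v.2) := Nat.mul_lt_mul_of_pos_right hil0 hv0
    have h3 : l' * (v.1 + v.2) ≤ l' * (a + b) := Nat.mul_le_mul_left _ hle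
    omega
  · have hle := hmin u hu hpos ⟨1, 1, one_pos, one_pos, rfl, rfl⟩
    by_contra hcon
    rw [not_le] at hcon
    have hsum : k * (v.1 + v.2) = j * (u.1 + u.2) := by rw [mul_add, mul_add, h1, h2]
    have h3 : k * (v.1 + v.2) < j * (v.1 + v.2) := Nat.mul_lt_mul_of_pos_right hcon hv0
    have h4 : j * (v.1 + v.2) ≤ j * (u.1 + u.2) := Nat.mul_le_mul_left _ hle
    omega

/-- `u` lies in the closed cone of `w`, `w'` -/
def InC (w w' u : ℕ × ℕ) : Prop := 0 ≤ dt w u ∧ 0 ≤ dt u w' ∧ 0 < u.1 + u.2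

/-- `u` does not lie in the open cone of `w`, `w'` -/
def NoIn (w w' u : ℕ × ℕ) : Prop := ¬ (0 < dt w u ∧ 0 < dt u w')

/-- a fan: positively oriented pairs, no ray inside a cone -/
structure IsFan (F : Finset ((ℕ × ℕ) × (ℕ × ℕ))) : Prop where
  pos : ∀ c ∈ F, 0 < dt c.1 c.2
  fan₁ : ∀ c ∈ F, ∀ c' ∈ F, NoIn c.1 c.2 c'.1
  fan₂ : ∀ c ∈ F, ∀ c' ∈ F, NoIn c.1 c.2 c'.2

lemma dt_self (w : ℕ × ℕ) : dt w w = 0 := by unfold dt; ring

lemma dt_swap (w w' : ℕ × ℕ) : dt w' w = - dt w w' := by unfold dt; ring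

/-- the order of the directions in the quadrant -/
lemma dt_trans {a b c : ℕ × ℕ} (hb : 0 < b.1 + b.2) (h1 : 0 ≤ dt a b) (h2 : 0 ≤ dt b c) : 0 ≤ dt a c := by
  have e : ((b.1 : ℤ) + b.2) * dt a c = (c.1 + c.2) * dt a b + (a.1 + a.2) * dt b c := by
    unfold dt; ring
  by_contra hneg
  rw [not_le] at hneg
  have hb' : (0 : ℤ) < (b.1 : ℤ) + b.2 := by exact_mod_cast hb
  have h3 : ((b.1 : ℤ) + b.2) * dt a c < 0 := mul_neg_of_pos_of_neg hb' hneg
  have h4 : 0 ≤ ((c.1 : ℤ) + c.2) * dt a b := by positivity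
  have h5 : 0 ≤ ((a.1 : ℤ) + a.2) * dt b c := by positivity
  omega

/-- the cone of a pair is covered by cones of bases -/
lemma cover_cone {L : AddSubgroup (ℤ × ℤ)} (D : ℕ) : ∀ w w' : ℕ × ℕ, Prim L w → Prim L w' →
    0 < dt w w' → dt w w' ≤ D →
    ∃ F : Finset ((ℕ × ℕ) × (ℕ × ℕ)), (∀ c ∈ F, IsBas L c.1 c.2) ∧
      (IsFan F ∧ ∀ c ∈ F, InC w w' c.1 ∧ InC w w' c.2) ∧
      ∀ x y : ℝ, 0 ≤ x → 0 ≤ y → ∃ c ∈ F, ∃ l l' : ℝ, 0 ≤ l ∧ 0 ≤ l' ∧
        x * w.1 + y * w'.1 = l * c.1.1 + l' * c.2.1 ∧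
        x * w.2 + y * w'.2 = l * c.1.2 + l' * c.2.2 := by
  classical
  induction D with
  | zero =>
    intro w w' _ _ h1 h2
    exfalso
    have : dt w w' ≤ 0 := by exact_mod_cast h2
    omega
  | succ D ih =>
    intro w w' hw hw' hd hD
    by_cases hbas : IsBas L w w'
    · refine ⟨{(w, w')}, fun c hc => ?_, ⟨⟨?_, ?_, ?_⟩, ?_⟩,
        fun x y hx hy => ⟨(w, w'), by simp, x, y, hx, hy, rfl, rfl⟩⟩
      · rw [Finset.mem_singleton] at hc
        subst hc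
        exact hbas
      · intro c hc
        rw [Finset.mem_singleton] at hc
        subst hc
        exact hd
      · intro c hc c' hc'
        rw [Finset.mem_singleton] at hc hc'
        subst hc hc'
        rintro ⟨h1, -⟩
        simp only [dt_self, lt_irrefl] at h1
      · intro c hc c' hc'
        rw [Finset.mem_singleton] at hc hc'
        subst hc hc'
        rintro ⟨-, h1⟩
        simp only [dt_self, lt_irrefl] at h1
      · intro c hc
        rw [Finset.mem_singleton] at hc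
        subst hc
        exact ⟨⟨(dt_self w).ge, hd.le, hw.pos⟩, ⟨hd.le, (dt_self w').ge, hw'.pos⟩⟩
    -- a lattice vector which is not an integral combination
    have hex : ∃ n ∈ L, ¬ ∃ i j : ℤ, n.1 = i * w.1 + j * w'.1 ∧ n.2 = i * w.2 + j * w'.2 := by
      by_contra hcon
      push Not at hcon
      apply hbas
      refine ⟨by unfold dt at hd; omega, fun n => ⟨fun hn => ?_, ?_⟩⟩
      · exact hcon n hn
      · rintro ⟨i, j, h1, h2⟩
        have : n = i • cst w + j • cst w' := by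
          ext
          · simp [cst, h1]
          · simp [cst, h2]
        rw [this]
        exact L.add_mem (L.zsmul_mem hw.mem i) (L.zsmul_mem hw'.mem j)
    obtain ⟨n, hn, hno⟩ := hex
    set d : ℤ := dt w w' with hd_def
    set P : ℤ := n.1 * w'.2 - n.2 * w'.1 with hP
    set R : ℤ := w.1 * n.2 - w.2 * n.1 with hR
    have hc1 : d * n.1 = P * w.1 + R * w'.1 := by
      rw [hd_def, hP, hR]; unfold dt; ring
    have hc2 : d * n.2 = P * w.2 + R * w'.2 := by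
      rw [hd_def, hP, hR]; unfold dt; ring
    obtain ⟨i, p0, hp0, hp1, hPi⟩ : ∃ i p0 : ℤ, 0 ≤ p0 ∧ p0 < d ∧ P = d * i + p0 :=
      ⟨P / d, P % d, Int.emod_nonneg _ hd.ne', Int.emod_lt_of_pos _ hd, (Int.mul_ediv_add_emod P d).symm⟩
    obtain ⟨j, q0, hq0, hq1, hRj⟩ : ∃ j q0 : ℤ, 0 ≤ q0 ∧ q0 < d ∧ R = d * j + q0 :=
      ⟨R / d, R % d, Int.emod_nonneg _ hd.ne', Int.emod_lt_of_pos _ hd, (Int.mul_ediv_add_emod R d).symm⟩
    set u : ℤ × ℤ := n - i • cst w - j • cst w' with hu_def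
    have huL : u ∈ L := L.sub_mem (L.sub_mem hn (L.zsmul_mem hw.mem i)) (L.zsmul_mem hw'.mem j)
    have hu1' : u.1 = n.1 - i * w.1 - j * w'.1 := by simp [hu_def, cst]
    have hu2' : u.2 = n.2 - i * w.2 - j * w'.2 := by simp [hu_def, cst]
    have hu1 : d * u.1 = p0 * w.1 + q0 * w'.1 := by
      rw [hu1']
      linear_combination hc1 + (w.1 : ℤ) * hPi + (w'.1 : ℤ) * hRj
    have hu2 : d * u.2 = p0 * w.2 + q0 * w'.2 := by
      rw [hu2']
      linear_combination hc2 + (w.2 : ℤ) * hPi + (w'.2 : ℤ) * hRj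
    have hp0' : p0 ≠ 0 := by
      intro h0
      rw [h0, zero_mul, zero_add] at hu1 hu2
      rcases hq0.eq_or_lt with h | h
      · rw [← h, zero_mul] at hu1 hu2
        apply hno
        refine ⟨i, j, ?_, ?_⟩
        · have := (mul_eq_zero.1 hu1).resolve_left hd.ne'
          rw [hu1'] at this; linarith
        · have := (mul_eq_zero.1 hu2).resolve_left hd.ne'
          rw [hu2'] at this; linarith
      · exact hw'.prim u huL q0 d h hq1 hu1 hu2
    have hq0' : q0 ≠ 0 := by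
      intro h0
      rw [h0, zero_mul, add_zero] at hu1 hu2
      exact hw.prim u huL p0 d (lt_of_le_of_ne hp0 (Ne.symm hp0')) hp1 hu1 hu2
    have hp0p : 0 < p0 := lt_of_le_of_ne hp0 (Ne.symm hp0')
    have hq0p : 0 < q0 := lt_of_le_of_ne hq0 (Ne.symm hq0')
    have hun1 : 0 ≤ u.1 := by
      by_contra hneg
      rw [not_le] at hneg
      have h1 : d * u.1 < 0 := mul_neg_of_pos_of_neg hd hneg
      have h2 : 0 ≤ p0 * (w.1 : ℤ) + q0 * w'.1 := by positivity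
      omega
    have hun2 : 0 ≤ u.2 := by
      by_contra hneg
      rw [not_le] at hneg
      have h1 : d * u.2 < 0 := mul_neg_of_pos_of_neg hd hneg
      have h2 : 0 ≤ p0 * (w.2 : ℤ) + q0 * w'.2 := by positivity
      omega
    obtain ⟨u1, hu1n⟩ := Int.eq_ofNat_of_zero_le hun1
    obtain ⟨u2, hu2n⟩ := Int.eq_ofNat_of_zero_le hun2
    have hcu : cst (u1, u2) = u := by
      ext
      · simp [cst, hu1n]
      · simp [cst, hu2n]
    have hupos : 0 < u1 + u2 := by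
      rcases Nat.eq_zero_or_pos (u1 + u2) with h0 | h0
      · exfalso
        have a1 : u1 = 0 := by omega
        have a2 : u2 = 0 := by omega
        rw [hu1n, a1] at hu1
        rw [hu2n, a2] at hu2
        have b1 : 0 ≤ p0 * (w.1 : ℤ) := by positivity
        have b2 : 0 ≤ q0 * (w'.1 : ℤ) := by positivity
        have b3 : 0 ≤ p0 * (w.2 : ℤ) := by positivity
        have b4 : 0 ≤ q0 * (w'.2 : ℤ) := by positivity
        have c1 : p0 * (w.1 : ℤ) = 0 := by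
          have : d * ((0 : ℕ) : ℤ) = 0 := by simp
          omega
        have c2 : p0 * (w.2 : ℤ) = 0 := by
          have : d * ((0 : ℕ) : ℤ) = 0 := by simp
          omega
        have c3 : (w.1 : ℤ) = 0 := (mul_eq_zero.1 c1).resolve_left hp0'
        have c4 : (w.2 : ℤ) = 0 := (mul_eq_zero.1 c2).resolve_left hp0'
        have := hw.pos
        omega
      · exact h0
    obtain ⟨v, hv, jj, kk, hjj, hjk, hv1, hv2⟩ := exists_prim (L := L) (u := (u1, u2))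
      (by rw [hcu]; exact huL) hupos
    simp only at hv1 hv2
    have hkk : 0 < kk := lt_of_lt_of_le hjj hjk
    have hv1' : (kk : ℤ) * v.1 = jj * u.1 := by rw [hu1n]; exact_mod_cast hv1
    have hv2' : (kk : ℤ) * v.2 = jj * u.2 := by rw [hu2n]; exact_mod_cast hv2
    have hkkz : (0 : ℤ) < kk := by exact_mod_cast hkk
    have hjjz : (0 : ℤ) < jj := by exact_mod_cast hjj
    have hjkz : (jj : ℤ) ≤ kk := by exact_mod_cast hjk
    -- determinants
    have dwu : w.1 * u.2 - w.2 * u.1 = q0 := by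
      apply mul_left_cancel₀ hd.ne'
      calc d * (w.1 * u.2 - w.2 * u.1) = w.1 * (d * u.2) - w.2 * (d * u.1) := by ring
        _ = q0 * dt w w' := by rw [hu1, hu2]; unfold dt; ring
        _ = d * q0 := by rw [hd_def]; ring
    have duw : u.1 * w'.2 - u.2 * w'.1 = p0 := by
      apply mul_left_cancel₀ hd.ne'
      calc d * (u.1 * w'.2 - u.2 * w'.1) = w'.2 * (d * u.1) - w'.1 * (d * u.2) := by ring
        _ = p0 * dt w w' := by rw [hu1, hu2]; unfold dt; ring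
        _ = d * p0 := by rw [hd_def]; ring
    have kd1 : kk * dt w v = jj * q0 := by
      unfold dt
      calc (kk : ℤ) * (w.1 * v.2 - w.2 * v.1) = w.1 * (kk * v.2) - w.2 * (kk * v.1) := by ring
        _ = jj * (w.1 * u.2 - w.2 * u.1) := by rw [hv1', hv2']; ring
        _ = jj * q0 := by rw [dwu]
    have kd2 : kk * dt v w' = jj * p0 := by
      unfold dt
      calc (kk : ℤ) * (v.1 * w'.2 - v.2 * w'.1) = w'.2 * (kk * v.1) - w'.1 * (kk * v.2) := by ring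
        _ = jj * (u.1 * w'.2 - u.2 * w'.1) := by rw [hv1', hv2']; ring
        _ = jj * p0 := by rw [duw]
    have pd1 : 0 < dt w v := by
      by_contra hneg
      rw [not_lt] at hneg
      have h1 : (kk : ℤ) * dt w v ≤ 0 := mul_nonpos_of_nonneg_of_nonpos hkkz.le hneg
      have h2 : 0 < jj * q0 := mul_pos hjjz hq0p
      omega
    have pd2 : 0 < dt v w' := by
      by_contra hneg
      rw [not_lt] at hneg
      have h1 : (kk : ℤ) * dt v w' ≤ 0 := mul_nonpos_of_nonneg_of_nonpos hkkz.le hneg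
      have h2 : 0 < jj * p0 := mul_pos hjjz hp0p
      omega
    have ld1 : dt w v ≤ q0 := by
      by_contra hcon
      rw [not_le] at hcon
      have h1 : (kk : ℤ) * q0 < kk * dt w v := mul_lt_mul_of_pos_left hcon hkkz
      have h2 : (jj : ℤ) * q0 ≤ kk * q0 := mul_le_mul_of_nonneg_right hjkz hq0
      omega
    have ld2 : dt v w' ≤ p0 := by
      by_contra hcon
      rw [not_le] at hcon
      have h1 : (kk : ℤ) * p0 < kk * dt v w' := mul_lt_mul_of_pos_left hcon hkkz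
      have h2 : (jj : ℤ) * p0 ≤ kk * p0 := mul_le_mul_of_nonneg_right hjkz hp0
      omega
    have hDz : d ≤ (D : ℤ) + 1 := by exact_mod_cast hD
    obtain ⟨F1, hF1, ⟨hfan1, hin1⟩, hC1⟩ := ih w v hw hv pd1 (by omega)
    obtain ⟨F2, hF2, ⟨hfan2, hin2⟩, hC2⟩ := ih v w' hv hw' pd2 (by omega)
    -- rays of the two families
    have cross1 : ∀ c ∈ F1, ∀ u, InC v w' u → NoIn c.1 c.2 u := by
      rintro c hc u hu ⟨h1, h2⟩
      have h3 : 0 ≤ dt c.2 v := (hin1 c hc).2.2.1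
      have h4 := dt_trans hv.pos h3 hu.1
      rw [dt_swap] at h2
      omega
    have cross2 : ∀ c ∈ F2, ∀ u, InC w v u → NoIn c.1 c.2 u := by
      rintro c hc u hu ⟨h1, h2⟩
      have h3 : 0 ≤ dt v c.1 := (hin2 c hc).1.1
      have h4 := dt_trans hv.pos hu.2.1 h3
      rw [dt_swap] at h1
      omega
    refine ⟨F1 ∪ F2, fun c hc => ?_, ⟨⟨?_, ?_, ?_⟩, ?_⟩, fun x y hx hy => ?_⟩
    · rcases Finset.mem_union.1 hc with h | h
      · exact hF1 c h
      · exact hF2 c h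
    · intro c hc
      rcases Finset.mem_union.1 hc with h | h
      · exact hfan1.pos c h
      · exact hfan2.pos c h
    · intro c hc c' hc'
      rcases Finset.mem_union.1 hc with h | h <;> rcases Finset.mem_union.1 hc' with h' | h'
      · exact hfan1.fan₁ c h c' h'
      · exact cross1 c h _ (hin2 c' h').1
      · exact cross2 c h _ (hin1 c' h').1
      · exact hfan2.fan₁ c h c' h'
    · intro c hc c' hc'
      rcases Finset.mem_union.1 hc with h | h <;> rcases Finset.mem_union.1 hc' with h' | h'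
      · exact hfan1.fan₂ c h c' h'
      · exact cross1 c h _ (hin2 c' h').2
      · exact cross2 c h _ (hin1 c' h').2
      · exact hfan2.fan₂ c h c' h'
    · intro c hc
      rcases Finset.mem_union.1 hc with h | h
      · obtain ⟨⟨a1, a2, a3⟩, ⟨b1, b2, b3⟩⟩ := hin1 c h
        exact ⟨⟨a1, dt_trans hv.pos a2 pd2.le, a3⟩, ⟨b1, dt_trans hv.pos b2 pd2.le, b3⟩⟩
      · obtain ⟨⟨a1, a2, a3⟩, ⟨b1, b2, b3⟩⟩ := hin2 c h
        exact ⟨⟨dt_trans hv.pos pd1.le a1, a2, a3⟩, ⟨dt_trans hv.pos pd1.le b1, b2, b3⟩⟩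
    -- real coefficients
    have hdR : (0 : ℝ) < (d : ℝ) := by exact_mod_cast hd
    have hkR : (0 : ℝ) < (kk : ℝ) := by exact_mod_cast hkk
    have hjR : (0 : ℝ) < (jj : ℝ) := by exact_mod_cast hjj
    have hpR : (0 : ℝ) < (p0 : ℝ) := by exact_mod_cast hp0p
    have hqR : (0 : ℝ) < (q0 : ℝ) := by exact_mod_cast hq0p
    set α : ℝ := jj * p0 / (d * kk) with hα
    set β : ℝ := jj * q0 / (d * kk) with hβ
    have hα0 : 0 < α := by positivity
    have hβ0 : 0 < β := by positivity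
    have z1 : (d : ℝ) * kk * v.1 = jj * (p0 * w.1 + q0 * w'.1) := by
      have h1 : d * (kk * v.1) = jj * (p0 * w.1 + q0 * w'.1) := by
        rw [hv1', ← hu1]; ring
      have h2 : (d : ℝ) * (kk * v.1) = jj * (p0 * w.1 + q0 * w'.1) := by exact_mod_cast h1
      rw [← h2]; ring
    have z2 : (d : ℝ) * kk * v.2 = jj * (p0 * w.2 + q0 * w'.2) := by
      have h1 : d * (kk * v.2) = jj * (p0 * w.2 + q0 * w'.2) := by
        rw [hv2', ← hu2]; ring
      have h2 : (d : ℝ) * (kk * v.2) = jj * (p0 * w.2 + q0 * w'.2) := by exact_mod_cast h1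
      rw [← h2]; ring
    have r1 : (v.1 : ℝ) = α * w.1 + β * w'.1 := by
      rw [hα, hβ]
      field_simp
      linear_combination z1
    have r2 : (v.2 : ℝ) = α * w.2 + β * w'.2 := by
      rw [hα, hβ]
      field_simp
      linear_combination z2
    rcases le_total (y * α) (x * β) with hle | hle
    · obtain ⟨c, hc, l, l', hl, hl', e1, e2⟩ := hC1 (x - y * α / β) (y / β)
        (by rw [sub_nonneg, div_le_iff₀ hβ0]; exact hle) (by positivity)
      refine ⟨c, Finset.mem_union_left _ hc, l, l', hl, hl', ?_, ?_⟩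
      · rw [← e1, r1]; field_simp; ring
      · rw [← e2, r2]; field_simp; ring
    · obtain ⟨c, hc, l, l', hl, hl', e1, e2⟩ := hC2 (x / α) (y - x * β / α)
        (by positivity) (by rw [sub_nonneg, div_le_iff₀ hα0]; exact hle)
      refine ⟨c, Finset.mem_union_right _ hc, l, l', hl, hl', ?_, ?_⟩
      · rw [← e1, r1]; field_simp; ring
      · rw [← e2, r2]; field_simp; ring

/-- MODULE Latt, with the fan property. -/
theorem exists_fan (L : AddSubgroup (ℤ × ℤ)) (hL : L.FiniteIndex) :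
    ∃ F : Finset ((ℕ × ℕ) × (ℕ × ℕ)), (∀ c ∈ F, IsBas L c.1 c.2) ∧ IsFan F ∧ Covers F := by
  classical
  set N := L.index with hN
  have hN0 : 0 < N := Nat.pos_of_ne_zero hL.index_ne_zero
  have hmem : ∀ n : ℤ × ℤ, N • n ∈ L := fun n => L.nsmul_index_mem n
  have h1 : cst (N, 0) ∈ L := by
    have := hmem (1, 0)
    have e : cst (N, 0) = N • ((1 : ℤ), (0 : ℤ)) := by ext <;> simp [cst]
    rw [e]; exact this
  have h2 : cst (0, N) ∈ L := by
    have := hmem (0, 1)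
    have e : cst (0, N) = N • ((0 : ℤ), (1 : ℤ)) := by ext <;> simp [cst]
    rw [e]; exact this
  obtain ⟨v, hv, j, k, hj, hjk, e1, e2⟩ := exists_prim (L := L) (u := (N, 0)) h1 (by simpa using hN0)
  obtain ⟨v', hv', j', k', hj', hjk', e1', e2'⟩ := exists_prim (L := L) (u := (0, N)) h2
    (by simpa using hN0)
  simp only [mul_zero] at e1 e2 e1' e2'
  have v2 : v.2 = 0 := by
    rcases Nat.mul_eq_zero.1 e2 with h | h
    · omega
    · exact h
  have v1' : v'.1 = 0 := by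
    rcases Nat.mul_eq_zero.1 e1' with h | h
    · omega
    · exact h
  have v1 : 0 < v.1 := by have := hv.pos; omega
  have v2' : 0 < v'.2 := by have := hv'.pos; omega
  have hdt : 0 < dt v v' := by
    unfold dt
    rw [v2, v1']
    have a1 : (0 : ℤ) < v.1 := by exact_mod_cast v1
    have a2 : (0 : ℤ) < v'.2 := by exact_mod_cast v2'
    simpa using mul_pos a1 a2
  obtain ⟨F, hF, ⟨hfan, -⟩, hC⟩ := cover_cone (L := L) (dt v v').toNat v v' hv hv' hdt
    (by rw [Int.toNat_of_nonneg hdt.le])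
  refine ⟨F, hF, hfan, fun A B hA hB => ?_⟩
  have a1 : (0 : ℝ) < v.1 := by exact_mod_cast v1
  have a2 : (0 : ℝ) < v'.2 := by exact_mod_cast v2'
  obtain ⟨c, hc, l, l', hl, hl', q1, q2⟩ := hC (A / v.1) (B / v'.2) (by positivity) (by positivity)
  refine ⟨c, hc, l, l', hl, hl', ?_, ?_⟩
  · rw [← q1, v1']; field_simp; simp
  · rw [← q2, v2]; field_simp; simp

end Pool.Agent.MQ3

end
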