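import Pool.Agent.H43.TL2.M134
import Pool.Agent.H43.TL2.M136
import Pool.Agent.H43.TL2.M140
import Pool.Agent.H43.TL2.M44
import Pool.Agent.H43.TL2.M57

/-! The parts of this file: SR3.HDefs, SR3.HDefs3, SR3.HDefs2, SR3.RsDefs, SR3.RsC2. -/

section

/-!
# SR HDefs: the definitions of the final statement

`P` is the ideal of a smooth surface `X ⊆ ℙ^N`, `H` a form, `U = X ∖ {H = 0}`; the forms `E i l`, `l ≤ M`, cut out the component `i` of `{H = 0}`.
-/

set_option autoImplicit false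

open Topology Filter Metric MvPolynomial

noncomputable section

namespace Pool.Agent.SR3

open Pool.Agent.H36.BP (EN fs)
open Pool.Agent.H17BP (IsChart IsForm NoZeros)
open Pool.Agent.H36.BPL (PoleLE)
open Pool.Agent.H14.PP (Tan)
open Pool.Agent.H17 (PN VanishesAt HolomorphicInto)
open Pool.Agent.H13.OT (OrderTwo)
open Pool.Agent.H17EF (projVar coneE)
open Pool.Agent.AD (SymDiff TangentTo)
open Pool.Agent.SDA (openCone)

variable {N k M : ℕ}

/-- the vector of the values of forms -/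
def vec (E : Fin (M + 1) → MvPolynomial (Fin (N + 1)) ℂ) (x : EN N) : EN M := WithLp.toLp 2 fun l => eval x.ofLp (E l)

/-- the constant `1` and the two coordinates of `ℂ²` -/
def co : Option Bool → ℂ × ℂ → ℂ
  | none, _ => 1
  | some false, p => p.1
  | some true, p => p.2

/-- The curve `{H = 0}` in the surface of `P` has simple normal crossings, with the components `{E i l = 0 for all l}`, and `H` has a zero of order
`b i` along the component `i`: near every point there are coordinates such that `E i` is `1` or one of the two coordinates, times a vector valued function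
without zeros, and `H` is the product of the corresponding powers, times a function without zeros; different components have different coordinates. -/
structure Snc (P : Ideal (MvPolynomial (Fin (N + 1)) ℂ)) (H : MvPolynomial (Fin (N + 1)) ℂ)
    (E : Fin k → Fin (M + 1) → MvPolynomial (Fin (N + 1)) ℂ) (b : Fin k → ℕ) : Prop where
  pos : ∀ i, 1 ≤ b i
  chart : ∀ x ∈ coneE P, ∃ (σ : ℂ × ℂ → EN N) (τ : EN N → ℂ × ℂ) (s : Fin k → Option Bool) (e : Fin k → ℂ × ℂ → EN M) (u : ℂ × ℂ → ℂ),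
    IsChart (coneE P) σ τ ∧ σ 0 = x ∧ (∀ i i', s i ≠ none → s i = s i' → i = i') ∧
    (∀ i, AnalyticAt ℂ (e i) 0 ∧ e i 0 ≠ 0 ∧ ∀ᶠ y in 𝓝 (0 : ℂ × ℂ), vec (E i) (σ y) = co (s i) y • e i y) ∧
    AnalyticAt ℂ u 0 ∧ u 0 ≠ 0 ∧ ∀ᶠ y in 𝓝 (0 : ℂ × ℂ), eval (σ y).ofLp H = u y * ∏ i, co (s i) y ^ b i

/-- the cone over `U` -/
def oc (P : Ideal (MvPolynomial (Fin (N + 1)) ℂ)) (H : MvPolynomial (Fin (N + 1)) ℂ) : Set (EN N) := openCone P fun _ : Fin 1 => H

/-- `d (log |x| ^ c - log |E|)`, up to the sign -/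
def ellE (E : Fin (M + 1) → MvPolynomial (Fin (N + 1)) ℂ) (c : ℕ) (x v : EN N) : ℂ :=
  inner ℂ (vec E x) (fderiv ℂ (vec E) x v) / (‖vec E x‖ : ℂ) ^ 2 - (c : ℂ) * (inner ℂ x v / (‖x‖ : ℂ) ^ 2)

/-- the logarithmic length -/
def logLen (E : Fin k → Fin (M + 1) → MvPolynomial (Fin (N + 1)) ℂ) (c : Fin k → ℕ) (x v : EN N) : ℝ := fs x v + ∑ i, ‖ellE (E i) (c i) x v‖

/-- The symmetric differential on `U` has at most logarithmic poles. -/
def HasLogPoles {P : Ideal (MvPolynomial (Fin (N + 1)) ℂ)} {H : MvPolynomial (Fin (N + 1)) ℂ}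
    (E : Fin k → Fin (M + 1) → MvPolynomial (Fin (N + 1)) ℂ) (c : Fin k → ℕ) {m : ℕ} (θ : SymDiff (oc P H) m) : Prop :=
  ∃ C : ℝ, 0 ≤ C ∧ ∀ x ∈ oc P H, ∀ v, Tan (oc P H) x v → ‖θ.toFun x v‖ ≤ C * logLen E c x v ^ m

/-- The symmetric differential on `U` is given by a polynomial in the coordinates and their differentials, divided by a power of `H`. -/
def IsAlg {P : Ideal (MvPolynomial (Fin (N + 1)) ℂ)} {H : MvPolynomial (Fin (N + 1)) ℂ} {m : ℕ} (θ : SymDiff (oc P H) m) : Prop :=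
  ∃ (W : MvPolynomial (Fin (N + 1) ⊕ Fin (N + 1)) ℂ) (r : ℕ), ∀ x ∈ oc P H, ∀ v, Tan (oc P H) x v →
    θ.toFun x v * eval x.ofLp H ^ r = eval (Sum.elim x.ofLp v.ofLp) W

/-- Sections `Ω a` of `m K_X + (m - 1) D - j H`, `D = {H = 0}`, such that the zeros of `Ω a` in `U` lie in `{Q a = 0}` and the `Q a` have no common zeros
in `U`. -/
structure LogAmple (P : Ideal (MvPolynomial (Fin (N + 1)) ℂ)) (H : MvPolynomial (Fin (N + 1)) ℂ) (m j : ℕ) {r : ℕ}
    (Ω : Fin r → EN N → EN N → EN N → ℂ) (Q : Fin r → MvPolynomial (Fin (N + 1)) ℂ) : Prop where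
  one_m : 1 ≤ m
  one_j : 1 ≤ j
  form : ∀ a, IsForm (oc P H) m j (Ω a)
  pole : ∀ a, PoleLE (coneE P) (oc P H) (m - 1) (Ω a)
  hom : ∃ D, ∀ a, (Q a).IsHomogeneous D
  noZeros : ∀ a, NoZeros (oc P H) {x | eval x.ofLp (Q a) = 0} (Ω a)
  cover : ∀ x ∈ oc P H, ∃ a, eval x.ofLp (Q a) ≠ 0

/-- The curve `{R l = 0 for all l}` contains the nonconstant entire curves of order two in `U` which are tangent to the `θ j`, and the `θ j` vanish on its
tangent vectors, with finitely many exceptions. -/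
structure NullCurve {P : Ideal (MvPolynomial (Fin (N + 1)) ℂ)} {H : MvPolynomial (Fin (N + 1)) ℂ} {s : ℕ} {m : Fin s → ℕ}
    (θ : ∀ j, SymDiff (oc P H) (m j)) {t : ℕ} (R : Fin t → MvPolynomial (Fin (N + 1)) ℂ) : Prop where
  hom : ∃ D, ∀ l, (R l).IsHomogeneous D
  ne : ∃ l, R l ∉ P
  null : ∀ f : ℂ → PN N, HolomorphicInto f Set.univ → OrderTwo f → (∀ z, f z ∈ projVar P ∧ ¬ VanishesAt H (f z)) → (∃ z w, f z ≠ f w) →
    (∀ j, TangentTo (θ j) f) → ∀ l z, VanishesAt (R l) (f z)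
  tan : ∃ S : Finset (PN N), ∀ x ∈ oc P H, ∀ hx : x.ofLp ≠ 0, Projectivization.mk ℂ x.ofLp hx ∉ S → (∀ l, eval x.ofLp (R l) = 0) →
    ∀ v, Tan (oc P H) x v → (∀ l, fderiv ℂ (fun y : EN N => eval y.ofLp (R l)) x v = 0) → ∀ j, (θ j).toFun x v = 0

/-- Every entire curve in a component of the boundary which does not meet the others is constant. -/
def NoBdyCurve (P : Ideal (MvPolynomial (Fin (N + 1)) ℂ)) (E : Fin k → Fin (M + 1) → MvPolynomial (Fin (N + 1)) ℂ) : Prop :=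
  ∀ (i : Fin k) (f : ℂ → PN N), HolomorphicInto f Set.univ → (∀ z, f z ∈ projVar P ∧ ∀ l, VanishesAt (E i l) (f z)) →
    (∀ i', i' ≠ i → ∀ z, ∃ l, ¬ VanishesAt (E i' l) (f z)) → ∀ z w, f z = f w

end Pool.Agent.SR3

end
end

section

/-!
# SR3 HDefs3: the sections of `m K_X + (m - 1) D - j H`, with common zeros on affine lines
-/

set_option autoImplicit false

open Topology Filter Metric MvPolynomial

noncomputable section

namespace Pool.Agent.SR3

open Pool.Agent.H36.BP (EN)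
open Pool.Agent.H17BP (IsForm NoZeros)
open Pool.Agent.H36.BPL (PoleLE)
open Pool.Agent.H17EF (coneE)

variable {N : ℕ}

/-- Sections `Ω a` of `m K_X + (m - 1) D - j H`, `D = {H = 0}`, such that the zeros of `Ω a` in `U` lie in `{Q a = 0}`. -/
structure LogForms (P : Ideal (MvPolynomial (Fin (N + 1)) ℂ)) (H : MvPolynomial (Fin (N + 1)) ℂ) (m j : ℕ) {r : ℕ}
    (Ω : Fin r → EN N → EN N → EN N → ℂ) (Q : Fin r → MvPolynomial (Fin (N + 1)) ℂ) : Prop where
  one_m : 1 ≤ m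
  one_j : 1 ≤ j
  form : ∀ a, IsForm (oc P H) m j (Ω a)
  pole : ∀ a, PoleLE (coneE P) (oc P H) (m - 1) (Ω a)
  hom : ∃ D, ∀ a, (Q a).IsHomogeneous D
  noZeros : ∀ a, NoZeros (oc P H) {x | eval x.ofLp (Q a) = 0} (Ω a)

/-- The point `x` lies on an affine line. -/
def OnLine (P : Ideal (MvPolynomial (Fin (N + 1)) ℂ)) (H : MvPolynomial (Fin (N + 1)) ℂ) (x : EN N) : Prop :=
  ∃ F : Fin (N + 1) → Polynomial ℂ, PLine P H F ∧ ∃ z t : ℂ, x = t • WithLp.toLp 2 (pev F z)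

/-- The common zeros in `U` of the forms `Q a` lie on affine lines. -/
def LineCover (P : Ideal (MvPolynomial (Fin (N + 1)) ℂ)) (H : MvPolynomial (Fin (N + 1)) ℂ) {r : ℕ} (Q : Fin r → MvPolynomial (Fin (N + 1)) ℂ) : Prop :=
  ∀ x ∈ oc P H, (∀ a, eval x.ofLp (Q a) = 0) → OnLine P H x

/-- The common zeros in `U` of the forms `Q a` are zeros of the forms `R l`. -/
def ZeroCover (P : Ideal (MvPolynomial (Fin (N + 1)) ℂ)) (H : MvPolynomial (Fin (N + 1)) ℂ) {r t : ℕ} (Q : Fin r → MvPolynomial (Fin (N + 1)) ℂ)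
    (R : Fin t → MvPolynomial (Fin (N + 1)) ℂ) : Prop :=
  ∀ x ∈ oc P H, (∀ a, eval x.ofLp (Q a) = 0) → ∀ l, eval x.ofLp (R l) = 0

end Pool.Agent.SR3

end
end

section

/-!
# SR3 HDefs2: the data of the function theory for a surface with normal crossings (helper41's definitions)
-/

set_option autoImplicit false

open Topology Filter Metric MvPolynomial

noncomputable section

namespace Pool.Agent.SR3

open Pool.Agent.H36.BP (EN fs)
open Pool.Agent.H17EF (projVar coneE)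
open Pool.Agent.AD (SymDiff TangentTo)

variable {N k M : ℕ}

/-- The data of the function theory. -/
def geoOf (P : Ideal (MvPolynomial (Fin (N + 1)) ℂ)) (H : MvPolynomial (Fin (N + 1)) ℂ) (h : ℕ) (E : Fin k → Fin (M + 1) → MvPolynomial (Fin (N + 1)) ℂ)
    (c b : Fin k → ℕ) {s : ℕ} {m : Fin s → ℕ} (θ : ∀ j, SymDiff (oc P H) (m j)) {n : ℕ} (supp : Fin n → Finset (Fin k))
    (Pol : Fin n → Fin s → MvPolynomial (Fin k) ℂ) (ty : EN N → Fin n) (mΩ jΩ : ℕ) {r : ℕ} (Ω : Fin r → EN N → EN N → EN N → ℂ) : Geo N where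
  X := coneE P
  K := oc P H
  p := fun x => eval x.ofLp H
  h := h
  ι := Fin k
  fι := inferInstance
  M := M
  E := fun i => vec (E i)
  c := c
  b := b
  J := Fin s
  fJ := inferInstance
  m := m
  w := fun j => (θ j).toFun
  Ty := Fin n
  fTy := inferInstance
  supp := supp
  Pol := Pol
  ty := ty
  A := Fin r
  fA := inferInstance
  mΩ := mΩ
  jΩ := jΩ
  Ω := Ω

/-- `log` of the inverse distance to the component -/
def lamE (E : Fin (M + 1) → MvPolynomial (Fin (N + 1)) ℂ) (c : ℕ) (x : EN N) : ℝ := c * Real.log ‖x‖ - Real.log ‖vec E x‖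

/-- the equations of the first curve `T = Z ∪ D` -/
def eqT (H : MvPolynomial (Fin (N + 1)) ℂ) {t r : ℕ} (R : Fin t → MvPolynomial (Fin (N + 1)) ℂ) (Q : Fin r → MvPolynomial (Fin (N + 1)) ℂ)
    (a : Fin t × Fin r) (x : EN N) : ℂ := eval x.ofLp (R a.1 * Q a.2 * H)

end Pool.Agent.SR3

end
end

section

/-!
# SR3 RsDefs: charts for the residues

`gg b z` is `z` if `b = true` and `1` otherwise.
-/

set_option autoImplicit false

open Topology Filter Metric MvPolynomial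

noncomputable section

namespace Pool.Agent.SR3

open Pool.Agent.H36.BP (EN fs)
open Pool.Agent.H17BP (IsChart)
open Pool.Agent.H17EF (coneE)

variable {N k M : ℕ}

/-- `log` of the inverse distance to the component (the same as `lamE` in `StubH`) -/
def lamV (E : Fin (M + 1) → MvPolynomial (Fin (N + 1)) ℂ) (c : ℕ) (x : EN N) : ℝ := c * Real.log ‖x‖ - Real.log ‖vec E x‖

/-- A chart of the surface near a point: the component `o₁` of the boundary is `y.1 = 0`, the component `o₂` is `y.2 = 0`, the others do not pass through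
the point. -/
structure LC (P : Ideal (MvPolynomial (Fin (N + 1)) ℂ)) (H : MvPolynomial (Fin (N + 1)) ℂ) (E : Fin k → Fin (M + 1) → MvPolynomial (Fin (N + 1)) ℂ)
    (σ : ℂ × ℂ → EN N) (τ : EN N → ℂ × ℂ) (o₁ o₂ : Option (Fin k)) : Prop where
  chart : IsChart (coneE P) σ τ
  ne : ∀ i, o₁ = some i → o₂ ≠ some i
  one : o₁ = none → o₂ = none
  eqs : ∀ i, ∃ e : ℂ × ℂ → EN M, AnalyticAt ℂ e 0 ∧ e 0 ≠ 0 ∧
    ∀ᶠ y in 𝓝 (0 : ℂ × ℂ), vec (E i) (σ y) = (gg (decide (o₁ = some i)) y.1 * gg (decide (o₂ = some i)) y.2) • e y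
  dom : ∀ᶠ y in 𝓝 (0 : ℂ × ℂ), (σ y ∈ oc P H ↔ gg o₁.isSome y.1 * gg o₂.isSome y.2 ≠ 0)

/-- the value of the logarithmic differential of the equation of the component `i` on the tangent vector `t` -/
def uu (o₁ o₂ : Option (Fin k)) (i : Fin k) (y t : ℂ × ℂ) : ℂ :=
  (if o₁ = some i then t.1 / y.1 else 0) + (if o₂ = some i then t.2 / y.2 else 0)

/-- The number `r` is the residue of `θ` (a function of a point and a tangent vector, homogeneous of degree `m`) along the component `i` at the point `x`: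
for `y` near `x` and vectors `v` for which the logarithmic differential of `E i` is much bigger than the length and than the logarithmic differentials of
the other components, `θ (y, v)` is close to `r (ell i) ^ m`. -/
def IsR (P : Ideal (MvPolynomial (Fin (N + 1)) ℂ)) (H : MvPolynomial (Fin (N + 1)) ℂ) (E : Fin k → Fin (M + 1) → MvPolynomial (Fin (N + 1)) ℂ)
    (c : Fin k → ℕ) (w : EN N → EN N → ℂ) (m : ℕ) (i : Fin k) (x : EN N) (r : ℂ) : Prop :=
  ∀ ε : ℝ, 0 < ε → ∃ η : ℝ, 0 < η ∧ ∀ᶠ y in 𝓝 x, y ∈ oc P H → ∀ v, Pool.Agent.H14.PP.Tan (coneE P) y v →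
    (∀ i', i' ≠ i → ‖ellE (E i') (c i') y v‖ ≤ η * ‖ellE (E i) (c i) y v‖) → fs y v ≤ η * ‖ellE (E i) (c i) y v‖ →
    ‖w y v - r * ellE (E i) (c i) y v ^ m‖ ≤ ε * ‖ellE (E i) (c i) y v‖ ^ m

end Pool.Agent.SR3

end
end

section

/-!
# SR3 RsC2: the length and the logarithmic differentials in an adapted chart

If `vec (E i) (σ y) = κ y • e y`, then `ellE (E i) = dκ / κ + ⟨e, de⟩ / |e|² - c ⟨σ, dσ⟩ / |σ|²`.
-/

set_option autoImplicit false

open Topology Filter Metric MvPolynomial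

noncomputable section

namespace Pool.Agent.SR3

open Pool.Agent.H36.BP (EN fs wd wd_le wd_nonneg)
open Pool.Agent.H17BP (Surface IsChart)
open Pool.Agent.H17EF (coneE)

variable {N k M : ℕ}

/-- the logarithmic derivative of a function without zeros -/
private theorem log_bd {W : Type*} [NormedAddCommGroup W] [NormedSpace ℂ W] [CompleteSpace W] {f : ℂ × ℂ → W} (hf : AnalyticAt ℂ f 0) (h0 : f 0 ≠ 0) :
    ∃ C : ℝ, 0 ≤ C ∧ ∀ᶠ y in 𝓝 (0 : ℂ × ℂ), f y ≠ 0 ∧ ∀ t : ℂ × ℂ, ‖fderiv ℂ f y t‖ / ‖f y‖ ≤ C * ‖t‖ := by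
  have h1 : ContinuousAt (fun y => ‖fderiv ℂ f y‖ / ‖f y‖) (0 : ℂ × ℂ) := by
    have hd : ContinuousAt (fderiv ℂ f) 0 := hf.fderiv.continuousAt
    exact ContinuousAt.div hd.norm hf.continuousAt.norm (norm_ne_zero_iff.2 h0)
  refine ⟨‖fderiv ℂ f 0‖ / ‖f 0‖ + 1, by positivity, ?_⟩
  filter_upwards [h1.eventually_lt continuousAt_const (lt_add_one _), hf.continuousAt.eventually_ne h0] with y hy1 hy2
  refine ⟨hy2, fun t => ?_⟩
  have h3 : 0 < ‖f y‖ := norm_pos_iff.2 hy2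
  calc ‖fderiv ℂ f y t‖ / ‖f y‖ ≤ ‖fderiv ℂ f y‖ * ‖t‖ / ‖f y‖ := by
        gcongr
        exact ContinuousLinearMap.le_opNorm _ _
    _ = ‖fderiv ℂ f y‖ / ‖f y‖ * ‖t‖ := by ring
    _ ≤ _ := mul_le_mul_of_nonneg_right hy1.le (norm_nonneg _)

/-- the length in a chart -/
theorem fs_chart {X : Set (EN N)} {σ : ℂ × ℂ → EN N} {τ : EN N → ℂ × ℂ} (hσ : IsChart X σ τ) :
    ∃ C : ℝ, 0 ≤ C ∧ ∀ᶠ y in 𝓝 (0 : ℂ × ℂ), ∀ t : ℂ × ℂ, fs (σ y) (fderiv ℂ σ y t) ≤ C * ‖t‖ ∧ ‖t‖ ≤ C * fs (σ y) (fderiv ℂ σ y t) := by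
  obtain ⟨C₁, hC₁, h1⟩ := log_bd hσ.σ_an hσ.ne
  obtain ⟨K, hK, h2⟩ := Pool.Agent.E2.chart_lower hσ
  have h3 : ∀ᶠ y in 𝓝 (0 : ℂ × ℂ), ‖σ y‖ < ‖σ 0‖ + 1 := hσ.σ_an.continuousAt.norm.eventually_lt continuousAt_const (lt_add_one _)
  refine ⟨max C₁ (K * (‖σ 0‖ + 1)), le_max_of_le_left hC₁, ?_⟩
  filter_upwards [h1, h2, h3] with y hy1 hy2 hy3 t
  obtain ⟨hne, hy1⟩ := hy1
  have hpos : 0 < ‖σ y‖ := norm_pos_iff.2 hne
  constructor
  · calc fs (σ y) (fderiv ℂ σ y t) ≤ ‖σ y‖ * ‖fderiv ℂ σ y t‖ / ‖σ y‖ ^ 2 := by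
          unfold fs
          gcongr
          exact wd_le _ _
      _ = ‖fderiv ℂ σ y t‖ / ‖σ y‖ := by field_simp
      _ ≤ C₁ * ‖t‖ := hy1 t
      _ ≤ _ := mul_le_mul_of_nonneg_right (le_max_left _ _) (norm_nonneg _)
  · obtain ⟨a, ha⟩ := Pool.Agent.E2.exists_wd_eq hne (fderiv ℂ σ y t)
    calc ‖t‖ ≤ K * ‖fderiv ℂ σ y t + a • σ y‖ := hy2 t a
      _ = K * (‖σ y‖ * fs (σ y) (fderiv ℂ σ y t)) := by
          unfold fs
          rw [← ha]
          field_simp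
      _ ≤ K * ((‖σ 0‖ + 1) * fs (σ y) (fderiv ℂ σ y t)) := by
          have := Pool.Agent.H36.BP.fs_nonneg (σ y) (fderiv ℂ σ y t)
          gcongr
      _ = K * (‖σ 0‖ + 1) * fs (σ y) (fderiv ℂ σ y t) := by ring
      _ ≤ _ := mul_le_mul_of_nonneg_right (le_max_right _ _) (Pool.Agent.H36.BP.fs_nonneg _ _)

private theorem gg_fderiv (b : Bool) (l : ℂ × ℂ →L[ℂ] ℂ) (y : ℂ × ℂ) :
    HasFDerivAt (fun y : ℂ × ℂ => gg b (l y)) (if b = true then l else 0) y := by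
  cases b
  · simp only [gg_false]
    exact hasFDerivAt_const _ _
  · simp only [gg_true]
    exact l.hasFDerivAt

theorem differentiable_vec (E : Fin (M + 1) → MvPolynomial (Fin (N + 1)) ℂ) : Differentiable ℂ (vec E) := by
  have h1 : Differentiable ℂ fun x : EN N => fun l => eval x.ofLp (E l) := by
    rw [differentiable_pi]
    intro l
    have h2 : Differentiable ℂ fun x : Fin (N + 1) → ℂ => eval x (E l) := fun x =>
      ((AnalyticOnNhd.eval_mvPolynomial (𝕜 := ℂ) (E l)) x (Set.mem_univ _)).differentiableAt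
    exact h2.comp (PiLp.continuousLinearEquiv 2 ℂ (fun _ : Fin (N + 1) => ℂ)).differentiable
  exact (PiLp.continuousLinearEquiv 2 ℂ (fun _ : Fin (M + 1) => ℂ)).symm.differentiable.comp h1

variable {P : Ideal (MvPolynomial (Fin (N + 1)) ℂ)} {H : MvPolynomial (Fin (N + 1)) ℂ} {E : Fin k → Fin (M + 1) → MvPolynomial (Fin (N + 1)) ℂ}
  {c : Fin k → ℕ} {σ : ℂ × ℂ → EN N} {τ : EN N → ℂ × ℂ} {o₁ o₂ : Option (Fin k)}

/-- the logarithmic differential of the equation of a component -/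
private theorem ell_chart (hL : LC P H E σ τ o₁ o₂) (i : Fin k) :
    ∃ C : ℝ, 0 ≤ C ∧ ∀ᶠ y in 𝓝 (0 : ℂ × ℂ), ∀ t : ℂ × ℂ, σ y ∈ oc P H → ‖ellE (E i) (c i) (σ y) (fderiv ℂ σ y t) - uu o₁ o₂ i y t‖ ≤ C * ‖t‖ := by
  classical
  obtain ⟨e, he, he0, hev⟩ := hL.eqs i
  obtain ⟨C₁, hC₁, h1⟩ := log_bd hL.chart.σ_an hL.chart.ne
  obtain ⟨C₂, hC₂, h2⟩ := log_bd he he0
  refine ⟨C₂ + c i * C₁, by positivity, ?_⟩
  filter_upwards [h1, h2, eventually_eventually_nhds.2 hev, hL.dom, hL.chart.σ_an.eventually_analyticAt, he.eventually_analyticAt]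
    with y hy1 hy2 hy3 hy4 hy5 hy6 t hoc
  obtain ⟨hσ0, hy1⟩ := hy1
  obtain ⟨he0, hy2⟩ := hy2
  rw [hy4] at hoc
  set b₁ : Bool := decide (o₁ = some i) with hb₁
  set b₂ : Bool := decide (o₂ = some i) with hb₂
  set κ : ℂ := gg b₁ y.1 * gg b₂ y.2 with hκ
  have hg₁ : gg b₁ y.1 ≠ 0 := by
    rw [hb₁]
    by_cases h : o₁ = some i
    · have h3 := left_ne_zero_of_mul hoc
      rw [h] at h3
      rw [decide_eq_true h]
      exact h3
    · rw [decide_eq_false h, gg_false]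
      exact one_ne_zero
  have hg₂ : gg b₂ y.2 ≠ 0 := by
    rw [hb₂]
    by_cases h : o₂ = some i
    · have h3 := right_ne_zero_of_mul hoc
      rw [h] at h3
      rw [decide_eq_true h]
      exact h3
    · rw [decide_eq_false h, gg_false]
      exact one_ne_zero
  have hκ0 : κ ≠ 0 := mul_ne_zero hg₁ hg₂
  -- the derivative of the equation
  have hd1 : HasFDerivAt (fun y : ℂ × ℂ => gg b₁ y.1) (if b₁ = true then ContinuousLinearMap.fst ℂ ℂ ℂ else 0) y := gg_fderiv b₁ (ContinuousLinearMap.fst ℂ ℂ ℂ) y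
  have hd2 : HasFDerivAt (fun y : ℂ × ℂ => gg b₂ y.2) (if b₂ = true then ContinuousLinearMap.snd ℂ ℂ ℂ else 0) y := gg_fderiv b₂ (ContinuousLinearMap.snd ℂ ℂ ℂ) y
  have hdk := hd1.fun_mul hd2
  obtain ⟨κ', hκ'⟩ : ∃ κ' : ℂ, κ' = gg b₁ y.1 * (if b₂ = true then t.2 else 0) + gg b₂ y.2 * (if b₁ = true then t.1 else 0) := ⟨_, rfl⟩
  have hvec : fderiv ℂ (vec (E i)) (σ y) (fderiv ℂ σ y t) = κ • fderiv ℂ e y t + κ' • e y := by
    have h3 : HasFDerivAt (fun y => vec (E i) (σ y)) ((fderiv ℂ (vec (E i)) (σ y)).comp (fderiv ℂ σ y)) y :=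
      (differentiable_vec (E i) (σ y)).hasFDerivAt.comp y hy5.differentiableAt.hasFDerivAt
    have h4 := hdk.fun_smul hy6.differentiableAt.hasFDerivAt
    have h5 : HasFDerivAt (fun y => vec (E i) (σ y)) _ y := h4.congr_of_eventuallyEq hy3
    have h6 := congrArg (fun L => L t) (h3.unique h5)
    simp only [ContinuousLinearMap.coe_comp, Function.comp_apply, add_apply, smul_apply,
      ContinuousLinearMap.smulRight_apply] at h6
    rw [h6, hκ']
    congr 2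
    cases b₁ <;> cases b₂ <;> simp
  have hnorm : ∀ v : EN M, v ≠ 0 → (‖v‖ : ℂ) ≠ 0 := fun v hv => by
    rw [Complex.ofReal_ne_zero]
    exact norm_ne_zero_iff.2 hv
  have hell : ellE (E i) (c i) (σ y) (fderiv ℂ σ y t) - uu o₁ o₂ i y t =
      inner ℂ (e y) (fderiv ℂ e y t) / (‖e y‖ : ℂ) ^ 2 - (c i : ℂ) * (inner ℂ (σ y) (fderiv ℂ σ y t) / (‖σ y‖ : ℂ) ^ 2) := by
    have h3 : inner ℂ (vec (E i) (σ y)) (fderiv ℂ (vec (E i)) (σ y) (fderiv ℂ σ y t)) / (‖vec (E i) (σ y)‖ : ℂ) ^ 2 =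
        κ' / κ + inner ℂ (e y) (fderiv ℂ e y t) / (‖e y‖ : ℂ) ^ 2 := by
      rw [hvec, hy3.self_of_nhds, inner_add_right, inner_smul_left, inner_smul_left, inner_smul_right, inner_smul_right, norm_smul,
        inner_self_eq_norm_sq_to_K]
      have h4 : ((‖κ‖ * ‖e y‖ : ℝ) : ℂ) ^ 2 = (starRingEnd ℂ) κ * κ * (‖e y‖ : ℂ) ^ 2 := by
        rw [← Complex.normSq_eq_conj_mul_self, Complex.normSq_eq_norm_sq]
        push_cast
        ring
      rw [h4]
      have h5 : (starRingEnd ℂ) κ ≠ 0 := by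
        rw [Ne, map_eq_zero]
        exact hκ0
      have h6 := hnorm (e y) he0
      simp only [RCLike.ofReal_eq_complex_ofReal]
      field_simp
      ring
    have h4 : κ' / κ = uu o₁ o₂ i y t := by
      unfold uu
      rw [hκ', hκ, hb₁, hb₂]
      rw [hb₁] at hg₁
      rw [hb₂] at hg₂
      by_cases ho₁ : o₁ = some i
      · by_cases ho₂ : o₂ = some i
        · simp only [ho₁, ho₂, decide_true, gg_true, if_true] at hg₁ hg₂ ⊢
          field_simp
          ring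
        · simp only [ho₁, ho₂, decide_true, decide_false, gg_true, gg_false, if_true, if_false] at hg₁ ⊢
          simp
      · by_cases ho₂ : o₂ = some i
        · simp only [ho₁, ho₂, decide_true, decide_false, gg_true, gg_false, if_true, if_false] at hg₂ ⊢
          simp
        · simp [ho₁, ho₂, gg]
    unfold ellE
    rw [h3, h4]
    ring
  rw [hell]
  have hb : ∀ {n : ℕ} (x v : EN n), ‖(inner ℂ x v : ℂ) / (‖x‖ : ℂ) ^ 2‖ ≤ ‖v‖ / ‖x‖ := by
    intro n x v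
    rw [norm_div, norm_pow, Complex.norm_real, norm_norm]
    by_cases hx : ‖x‖ = 0
    · rw [hx]
      simp
    · calc ‖(inner ℂ x v : ℂ)‖ / ‖x‖ ^ 2 ≤ ‖x‖ * ‖v‖ / ‖x‖ ^ 2 := by
            gcongr
            exact norm_inner_le_norm _ _
        _ = ‖v‖ / ‖x‖ := by field_simp
  calc ‖(inner ℂ (e y) (fderiv ℂ e y t) : ℂ) / (‖e y‖ : ℂ) ^ 2 - (c i : ℂ) * (inner ℂ (σ y) (fderiv ℂ σ y t) / (‖σ y‖ : ℂ) ^ 2)‖ ≤
      ‖(inner ℂ (e y) (fderiv ℂ e y t) : ℂ) / (‖e y‖ : ℂ) ^ 2‖ + ‖(c i : ℂ) * (inner ℂ (σ y) (fderiv ℂ σ y t) / (‖σ y‖ : ℂ) ^ 2)‖ := norm_sub_le _ _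
    _ ≤ C₂ * ‖t‖ + c i * (C₁ * ‖t‖) := by
      rw [norm_mul, Complex.norm_natCast]
      exact add_le_add ((hb _ _).trans (hy2 t)) (mul_le_mul_of_nonneg_left ((hb _ _).trans (hy1 t)) (Nat.cast_nonneg _))
    _ = (C₂ + c i * C₁) * ‖t‖ := by ring

/-- the length and the logarithmic differentials in the chart -/
theorem lc_est (_hE : ∀ i l, (E i l).IsHomogeneous (c i)) (hL : LC P H E σ τ o₁ o₂) :
    ∃ C : ℝ, 0 ≤ C ∧ ∀ᶠ y in 𝓝 (0 : ℂ × ℂ), ∀ t : ℂ × ℂ, fs (σ y) (fderiv ℂ σ y t) ≤ C * ‖t‖ ∧ ‖t‖ ≤ C * fs (σ y) (fderiv ℂ σ y t) ∧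
      (σ y ∈ oc P H → ∀ i, ‖ellE (E i) (c i) (σ y) (fderiv ℂ σ y t) - uu o₁ o₂ i y t‖ ≤ C * ‖t‖) := by
  obtain ⟨C₀, hC₀, h0⟩ := fs_chart hL.chart
  choose C hC h1 using fun i => ell_chart (c := c) hL i
  have hle : ∀ i, C i ≤ ∑ i, C i := fun i => Finset.single_le_sum (f := C) (fun i _ => hC i) (Finset.mem_univ i)
  have hs : 0 ≤ ∑ i, C i := Finset.sum_nonneg fun i _ => hC i
  refine ⟨C₀ + ∑ i, C i, by linarith, ?_⟩
  filter_upwards [h0, eventually_all.2 h1] with y hy1 hy2 t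
  refine ⟨(hy1 t).1.trans ?_, (hy1 t).2.trans ?_, fun hoc i => (hy2 i t hoc).trans ?_⟩
  · exact mul_le_mul_of_nonneg_right (by linarith) (norm_nonneg _)
  · exact mul_le_mul_of_nonneg_right (by linarith) (Pool.Agent.H36.BP.fs_nonneg _ _)
  · exact mul_le_mul_of_nonneg_right (by linarith [hle i]) (norm_nonneg _)

end Pool.Agent.SR3

end
end
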