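import Pool.Agent.H43.TL2.M13
import Pool.Agent.H43.TL2.M137

/-! The parts of this file: SR3.EBas, SR3.EChain, SR3.EDep, SR3.EMax, SR3.EGrad, SR3.ETop. -/

section

/-!
# SR3 EBas: block E, elementary facts (helper21)
-/

set_option autoImplicit false
set_option linter.unusedSectionVars false

open Topology Filter Metric Complex InnerProductSpace Laplacian

noncomputable section

namespace Pool.Agent.SR3.BE

open Pool.Agent.SDR (gc)

variable {X ι : Type} [Fintype ι] {Φ : Fam X ι} {C c R₀ : ℝ}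

theorem S_nonneg (hΦ : Hyp Φ C c R₀) (x : X) (z : ℂ) : 0 ≤ Φ.S x z := Finset.sum_nonneg fun i _ => hΦ.nn x i z

theorem lam_le_S (hΦ : Hyp Φ C c R₀) (x : X) (i : ι) (z : ℂ) : Φ.lam x i z ≤ Φ.S x z :=
  Finset.single_le_sum (f := fun i => Φ.lam x i z) (fun i _ => hΦ.nn x i z) (Finset.mem_univ i)

theorem S_le (hΦ : Hyp Φ C c R₀) (x : X) (z : ℂ) : Φ.S x z ≤ Fintype.card ι * (C * (1 + Φ.d x z)) := by
  unfold Fam.S
  refine (Finset.sum_le_sum fun i _ => hΦ.up x i z).trans (le_of_eq ?_)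
  rw [Finset.sum_const, Finset.card_univ, nsmul_eq_mul]

theorem d_nonneg (x : X) (z : ℂ) : 0 ≤ Φ.d x z := infDist_nonneg

theorem S_pos (hΦ : Hyp Φ C c R₀) {x : X} {z : ℂ} (h : R₀ ≤ Φ.d x z) : 0 < Φ.S x z := by
  refine lt_of_lt_of_le ?_ (hΦ.low x z h)
  have := hΦ.R_ge
  exact mul_pos hΦ.c_pos (by linarith)

theorem S_c2 (hΦ : Hyp Φ C c R₀) {x : X} {z : ℂ} (h : R₀ ≤ Φ.d x z) : ContDiffAt ℝ 2 (Φ.S x) z := by
  have h1 : ContDiffAt ℝ 2 (fun w => ∑ i, Φ.lam x i w) z := ContDiffAt.sum fun i _ => hΦ.c2 x i z h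
  exact h1

theorem lap_sum {s : Finset ι} {f : ι → ℂ → ℝ} {z : ℂ} (h : ∀ i ∈ s, ContDiffAt ℝ 2 (f i) z) :
    Δ (fun w => ∑ i ∈ s, f i w) z = ∑ i ∈ s, Δ (f i) z := by
  classical
  induction s using Finset.induction_on with
  | empty => simp
  | insert i s hi ih =>
    have h1 : ContDiffAt ℝ 2 (f i) z := h i (Finset.mem_insert_self i s)
    have h2 : ContDiffAt ℝ 2 (fun w => ∑ i ∈ s, f i w) z := ContDiffAt.sum fun j hj => h j (Finset.mem_insert_of_mem hj)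
    have h3 : (fun w => ∑ i ∈ insert i s, f i w) = f i + fun w => ∑ i ∈ s, f i w := by
      funext w
      rw [Finset.sum_insert hi]
      rfl
    rw [h3, h1.laplacian_add h2, ih fun j hj => h j (Finset.mem_insert_of_mem hj), Finset.sum_insert hi]

theorem S_lap (hΦ : Hyp Φ C c R₀) {x : X} {z : ℂ} (h : R₀ ≤ Φ.d x z) : |Δ (Φ.S x) z| ≤ Fintype.card ι * C / Φ.d x z ^ 2 := by
  have h1 : Δ (Φ.S x) z = ∑ i, Δ (Φ.lam x i) z := lap_sum fun i _ => hΦ.c2 x i z h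
  rw [h1]
  refine (Finset.abs_sum_le_sum_abs _ _).trans ((Finset.sum_le_sum fun i _ => hΦ.lap x i z h).trans (le_of_eq ?_))
  rw [Finset.sum_const, Finset.card_univ, nsmul_eq_mul, mul_div_assoc]

theorem w_c2 (hΦ : Hyp Φ C c R₀) {x : X} {z : ℂ} (h : R₀ ≤ Φ.d x z) (i : ι) (t : ℝ) : ContDiffAt ℝ 2 (fun w => Φ.lam x i w - t * Φ.S x w) z :=
  (hΦ.c2 x i z h).sub (contDiffAt_const.mul (S_c2 hΦ h))

theorem w_lap (hΦ : Hyp Φ C c R₀) {x : X} {z : ℂ} (h : R₀ ≤ Φ.d x z) (i : ι) {t : ℝ} (ht : |t| ≤ 1) :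
    |Δ (fun w => Φ.lam x i w - t * Φ.S x w) z| ≤ (1 + Fintype.card ι) * C / Φ.d x z ^ 2 := by
  have h1 : (fun w => Φ.lam x i w - t * Φ.S x w) = Φ.lam x i - t • Φ.S x := by
    funext w
    simp
  have h2 : ContDiffAt ℝ 2 (t • Φ.S x) z := contDiffAt_const.smul (S_c2 hΦ h)
  rw [h1, (hΦ.c2 x i z h).laplacian_sub h2, laplacian_smul t (S_c2 hΦ h)]
  have h3 : |t • Δ (Φ.S x) z| ≤ Fintype.card ι * C / Φ.d x z ^ 2 := by
    rw [smul_eq_mul, abs_mul]
    exact (mul_le_of_le_one_left (abs_nonneg _) ht).trans (S_lap hΦ h)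
  refine (abs_sub _ _).trans ((add_le_add (hΦ.lap x i z h) h3).trans (le_of_eq ?_))
  ring

theorem quot_nonneg (hΦ : Hyp Φ C c R₀) (x : X) (i : ι) (z : ℂ) : 0 ≤ Φ.lam x i z / Φ.S x z := div_nonneg (hΦ.nn x i z) (S_nonneg hΦ x z)

theorem quot_le_one (hΦ : Hyp Φ C c R₀) (x : X) (i : ι) (z : ℂ) : Φ.lam x i z / Φ.S x z ≤ 1 := div_le_one_of_le₀ (lam_le_S hΦ x i z) (S_nonneg hΦ x z)

theorem abs_quot_le_one (hΦ : Hyp Φ C c R₀) (x : X) (i : ι) (z : ℂ) : |Φ.lam x i z / Φ.S x z| ≤ 1 := by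
  rw [abs_of_nonneg (quot_nonneg hΦ x i z)]
  exact quot_le_one hΦ x i z

theorem d_good {x : X} {a : ℂ} (ha : a ∈ Φ.G x) : Φ.d x a = 0 := infDist_zero_of_mem ha

theorem good_near (hΦ : Hyp Φ C c R₀) {x : X} {z : ℂ} {r : ℝ} (h : Φ.d x z < r) : ∃ a ∈ Φ.G x, ‖z - a‖ < r := by
  obtain ⟨a, ha, h1⟩ := (infDist_lt_iff (hΦ.ne x)).1 h
  exact ⟨a, ha, by rwa [← dist_eq_norm]⟩

theorem continuous_ht (u a : ℂ) : Continuous (ht u a) := by
  unfold ht
  fun_prop

theorem ht_sub (u a z w : ℂ) : ht u a z - ht u a w = (star u * (z - w)).re := by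
  unfold ht
  rw [← Complex.sub_re]
  congr 1
  ring

theorem abs_ht_sub_le {u : ℂ} (hu : ‖u‖ = 1) (a z w : ℂ) : |ht u a z - ht u a w| ≤ ‖z - w‖ := by
  rw [ht_sub]
  refine (Complex.abs_re_le_norm _).trans ?_
  rw [norm_mul, norm_star, hu, one_mul]

theorem ht_combo (u a z w : ℂ) {s t : ℝ} (h : s + t = 1) : ht u a (s • z + t • w) = s * ht u a z + t * ht u a w := by
  unfold ht
  have h1 : star u * (s • z + t • w - a) = (s : ℂ) * (star u * (z - a)) + (t : ℂ) * (star u * (w - a)) := by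
    have h2 : (s : ℂ) + t = 1 := by exact_mod_cast h
    simp only [Complex.real_smul]
    linear_combination (star u * a) * h2
  rw [h1, Complex.add_re, Complex.re_ofReal_mul, Complex.re_ofReal_mul]

theorem convex_top (u a : ℂ) (R h : ℝ) : Convex ℝ (closedBall a R ∩ {z | h ≤ ht u a z}) := by
  refine (convex_closedBall a R).inter ?_
  intro z hz w hw s t hs ht' hst
  show h ≤ ht u a (s • z + t • w)
  rw [ht_combo u a z w hst]
  have h1 : h ≤ ht u a z := hz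
  have h2 : h ≤ ht u a w := hw
  calc h = s * h + t * h := by rw [← add_mul, hst, one_mul]
    _ ≤ _ := add_le_add (mul_le_mul_of_nonneg_left h1 hs) (mul_le_mul_of_nonneg_left h2 ht')

theorem vee_top {u a : ℂ} {β β' : ℝ} {z : ℂ} (h : 0 ≤ ht u a z) : vee u a β β' z = β * ht u a z := by
  unfold vee
  rw [max_eq_left h, max_eq_right (by linarith), mul_zero, add_zero]

theorem vee_low {u a : ℂ} {β β' : ℝ} {z : ℂ} (h : ht u a z ≤ 0) : vee u a β β' z = β' * (-ht u a z) := by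
  unfold vee
  rw [max_eq_right h, max_eq_left (by linarith), mul_zero, zero_add]

theorem vee_sum (u a : ℂ) (β β' : ι → ℝ) (z : ℂ) : ∑ i, vee u a (β i) (β' i) z = vee u a (∑ i, β i) (∑ i, β' i) z := by
  unfold vee
  rw [Finset.sum_add_distrib, Finset.sum_mul, Finset.sum_mul]

variable {A : ℝ}

theorem Fit.S {x : X} {a : ℂ} {R e : ℝ} {u : ℂ} {β β' : ι → ℝ} (h : Fit Φ x a R e A u β β') {z : ℂ} (hz : z ∈ closedBall a R) :
    |Φ.S x z - vee u a (∑ i, β i) (∑ i, β' i) z| ≤ Fintype.card ι * e := by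
  rw [← vee_sum]
  unfold Fam.S
  rw [← Finset.sum_sub_distrib]
  refine (Finset.abs_sum_le_sum_abs _ _).trans ((Finset.sum_le_sum fun i _ => h.fit z hz i).trans (le_of_eq ?_))
  rw [Finset.sum_const, Finset.card_univ, nsmul_eq_mul]

end Pool.Agent.SR3.BE

end
end

section

/-!
# SR3 EChain: the quotients `lam x i / S x` at two points far from the line

The vertical chain of the heights `y, 2 y, 4 y, .., R`, then the horizontal step to `a + R u`.
-/

set_option autoImplicit false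

open Topology Filter Metric Complex InnerProductSpace Laplacian

noncomputable section

namespace Pool.Agent.SR3.BE

variable {X ι : Type} [Fintype ι] {Φ : Fam X ι} {C c R₀ A c₂ C₂ R₂ : ℝ}

private theorem ht_coord {u : ℂ} (hu : ‖u‖ = 1) (a w : ℂ) : ht u a (a + w * u) = w.re := by
  unfold ht
  have h1 : star u * u = 1 := by
    show (starRingEnd ℂ) u * u = 1
    rw [← Complex.normSq_eq_conj_mul_self, Complex.normSq_eq_norm_sq, hu]
    norm_num
  have h2 : star u * (a + w * u - a) = w * (star u * u) := by ring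
  rw [h2, h1, mul_one]

/-- one step -/
private theorem chain_step (hΦ : Hyp Φ C c R₀) (hD : Dep Φ A c₂ C₂ R₂) {x : X} {a : ℂ} (ha : a ∈ Φ.G x) {R e : ℝ} {u : ℂ} {β β' : ι → ℝ} (hR : 1 ≤ R)
    (hfit : Fit Φ x a (4 * R) e A u β β') {h B : ℝ} (hh : R₂ ≤ h) (he : e ≤ c₂ * h) (hO : ∀ r, h ≤ r → OscLe Φ (c₂ / (2 * C₂ + 1)) r B) (i : ι) {p q : ℂ}
    {y : ℝ} (hy : h ≤ y) (hp : p ∈ closedBall a (4 * R)) (hq : q ∈ closedBall a (4 * R)) (hpy : ht u a p = y) (hqy : y ≤ ht u a q) (hpq : ‖q - p‖ ≤ y) :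
    |Φ.lam x i p / Φ.S x p - Φ.lam x i q / Φ.S x q| ≤ B := by
  have hR2 := hD.R_ge
  have hc2 := hD.c_pos
  have hC2 := hD.C_ge
  have hy0 : 0 < y := by linarith
  have h4R : 1 ≤ 4 * R := by linarith
  have hdep : ∀ w ∈ closedBall a (4 * R), y ≤ ht u a w → c₂ * |ht u a w| ≤ Φ.d x w ∧ Φ.d x w ≤ C₂ * |ht u a w| := by
    intro w hw hyw
    have h1 : y ≤ |ht u a w| := hyw.trans (le_abs_self _)
    refine hD.dep x a (4 * R) e u β β' ha h4R hfit w hw (by linarith) ?_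
    have h2 : c₂ * h ≤ c₂ * |ht u a w| := mul_le_mul_of_nonneg_left (hy.trans h1) hc2.le
    linarith
  have h1 := (hdep p hp hpy.ge).2
  rw [hpy, abs_of_pos hy0] at h1
  obtain ⟨b, hb, hpb⟩ := good_near hΦ (x := x) (z := p) (r := 2 * C₂ * y) (by nlinarith)
  have hr : h ≤ (2 * C₂ + 1) * y := by nlinarith
  refine hO _ hr x b hb p ?_ q ?_ (fun w hw => ?_) i
  · rw [mem_closedBall, dist_eq_norm]
    nlinarith
  · rw [mem_closedBall, dist_eq_norm]
    have h2 : q - b = (q - p) + (p - b) := by ring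
    rw [h2]
    refine (norm_add_le _ _).trans ?_
    nlinarith
  · have h2 : w ∈ closedBall a (4 * R) ∩ {z | y ≤ ht u a z} :=
      (convex_top u a (4 * R) y).segment_subset ⟨hp, hpy.ge⟩ ⟨hq, hqy⟩ hw
    have h3 := (hdep w h2.1 h2.2).1
    have h4 : c₂ / (2 * C₂ + 1) * ((2 * C₂ + 1) * y) = c₂ * y := by
      field_simp
    rw [h4]
    refine le_trans ?_ h3
    exact mul_le_mul_of_nonneg_left (h2.2.trans (le_abs_self _)) hc2.le

/-- MODULE Chain.  The vertical chain `z`, `z + y u`, `z + 3 y u`, .. of heights `y, 2 y, 4 y, .., R`, then the horizontal step to `a + R u`; each step is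
admissible in `OscLe` at the scale `(2 C₂ + 1) y_j` about a good point at distance `≤ 2 d (z_j)`. -/
theorem chain (hΦ : Hyp Φ C c R₀) (hD : Dep Φ A c₂ C₂ R₂) (_hR₂ : R₀ ≤ R₂) {x : X} {a : ℂ} (ha : a ∈ Φ.G x) {R e : ℝ} {u : ℂ} {β β' : ι → ℝ} (hR : 1 ≤ R)
    (hfit : Fit Φ x a (4 * R) e A u β β') {h B : ℝ} (hh : R₂ ≤ h) (he : e ≤ c₂ * h) (hB : 0 ≤ B)
    (hO : ∀ r, h ≤ r → OscLe Φ (c₂ / (2 * C₂ + 1)) r B) {z : ℂ} (hz : z ∈ closedBall a R) (hz' : h ≤ ht u a z) (i : ι) :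
    |Φ.lam x i z / Φ.S x z - Φ.lam x i (a + R * u) / Φ.S x (a + R * u)| ≤ (3 + 2 * Real.log (R / ht u a z)) * B := by
  have hu := hfit.nu
  have hR2 := hD.R_ge
  have hmem : ∀ y t : ℝ, 0 ≤ y → y ≤ R → |t| ≤ R → a + ((y : ℂ) + t * I) * u ∈ closedBall a (4 * R) := by
    intro y t hy hyR ht
    rw [mem_closedBall, dist_eq_norm, add_sub_cancel_left, norm_mul, hu, mul_one]
    refine (norm_add_le _ _).trans ?_
    rw [norm_mul, Complex.norm_I, mul_one, Complex.norm_real, Complex.norm_real, Real.norm_of_nonneg hy, Real.norm_eq_abs]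
    linarith
  have hht : ∀ y t : ℝ, ht u a (a + ((y : ℂ) + t * I) * u) = y := fun y t => by
    rw [ht_coord hu]
    simp
  have key : ∀ n : ℕ, ∀ y t : ℝ, h ≤ y → y ≤ R → |t| ≤ R → R ≤ 2 ^ (n + 1) * y →
      |Φ.lam x i (a + ((y : ℂ) + t * I) * u) / Φ.S x (a + ((y : ℂ) + t * I) * u) - Φ.lam x i (a + R * u) / Φ.S x (a + R * u)| ≤ (n + 2) * B := by
    -- the last two steps
    have hlast : ∀ y t : ℝ, h ≤ y → y ≤ R → |t| ≤ R → R ≤ 2 * y →
        |Φ.lam x i (a + ((y : ℂ) + t * I) * u) / Φ.S x (a + ((y : ℂ) + t * I) * u) - Φ.lam x i (a + R * u) / Φ.S x (a + R * u)| ≤ 2 * B := by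
      intro y t hy hyR ht h2y
      have hy0 : 0 < y := by linarith
      have h1 := chain_step hΦ hD ha hR hfit hh he hO i (p := a + ((y : ℂ) + t * I) * u) (q := a + ((R : ℂ) + t * I) * u) hy
        (hmem y t hy0.le hyR ht) (hmem R t (by linarith) le_rfl ht) (hht y t) (by rw [hht]; exact hyR) (by
          have e1 : a + ((R : ℂ) + t * I) * u - (a + ((y : ℂ) + t * I) * u) = ((R - y : ℝ) : ℂ) * u := by push_cast; ring
          rw [e1, norm_mul, hu, mul_one, Complex.norm_real, Real.norm_of_nonneg (by linarith)]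
          linarith)
      have e0 : a + ((R : ℂ) + (0 : ℝ) * I) * u = a + R * u := by push_cast; ring
      have h2 := chain_step hΦ hD ha hR hfit hh he hO i (p := a + ((R : ℂ) + t * I) * u) (q := a + ((R : ℂ) + (0 : ℝ) * I) * u) (hy.trans hyR)
        (hmem R t (by linarith) le_rfl ht) (hmem R 0 (by linarith) le_rfl (by rw [abs_zero]; linarith)) (hht R t) (by rw [hht]) (by
          have e1 : a + ((R : ℂ) + (0 : ℝ) * I) * u - (a + ((R : ℂ) + t * I) * u) = ((-t : ℝ) : ℂ) * I * u := by push_cast; ring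
          rw [e1, norm_mul, norm_mul, hu, mul_one, Complex.norm_I, mul_one, Complex.norm_real, Real.norm_eq_abs, abs_neg]
          exact ht)
      rw [e0] at h2
      have h3 := abs_add_le (Φ.lam x i (a + ((y : ℂ) + t * I) * u) / Φ.S x (a + ((y : ℂ) + t * I) * u) -
        Φ.lam x i (a + ((R : ℂ) + t * I) * u) / Φ.S x (a + ((R : ℂ) + t * I) * u))
        (Φ.lam x i (a + ((R : ℂ) + t * I) * u) / Φ.S x (a + ((R : ℂ) + t * I) * u) - Φ.lam x i (a + R * u) / Φ.S x (a + R * u))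
      rw [sub_add_sub_cancel] at h3
      linarith
    intro n
    induction n with
    | zero =>
      intro y t hy hyR ht h2y
      have := hlast y t hy hyR ht (by simpa using h2y)
      simpa using this
    | succ n ih =>
      intro y t hy hyR ht h2y
      by_cases h2 : R ≤ 2 * y
      · refine (hlast y t hy hyR ht h2).trans ?_
        refine mul_le_mul_of_nonneg_right ?_ hB
        push_cast
        have : (0 : ℝ) ≤ n := Nat.cast_nonneg n
        linarith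
      · push Not at h2
        have hy0 : 0 < y := by linarith
        have h1 := chain_step hΦ hD ha hR hfit hh he hO i (p := a + ((y : ℂ) + t * I) * u) (q := a + (((2 * y : ℝ) : ℂ) + t * I) * u) hy
          (hmem y t hy0.le hyR ht) (hmem (2 * y) t (by linarith) h2.le ht) (hht y t) (by rw [hht]; linarith) (by
            have e1 : a + (((2 * y : ℝ) : ℂ) + t * I) * u - (a + ((y : ℂ) + t * I) * u) = (y : ℂ) * u := by push_cast; ring
            rw [e1, norm_mul, hu, mul_one, Complex.norm_real, Real.norm_of_nonneg hy0.le])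
        have h3 := ih (2 * y) t (by linarith) h2.le ht (by
          have e1 : (2 : ℝ) ^ (n + 1 + 1) * y = 2 ^ (n + 1) * (2 * y) := by ring
          rw [← e1]
          exact h2y)
        have h4 := abs_add_le (Φ.lam x i (a + ((y : ℂ) + t * I) * u) / Φ.S x (a + ((y : ℂ) + t * I) * u) -
          Φ.lam x i (a + (((2 * y : ℝ) : ℂ) + t * I) * u) / Φ.S x (a + (((2 * y : ℝ) : ℂ) + t * I) * u))
          (Φ.lam x i (a + (((2 * y : ℝ) : ℂ) + t * I) * u) / Φ.S x (a + (((2 * y : ℝ) : ℂ) + t * I) * u) - Φ.lam x i (a + R * u) / Φ.S x (a + R * u))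
        rw [sub_add_sub_cancel] at h4
        have e2 : ((n + 1 : ℕ) + 2 : ℝ) * B = B + (n + 2) * B := by push_cast; ring
        rw [e2]
        linarith
  -- the coordinates of `z`
  have h1u : star u * u = 1 := by
    show (starRingEnd ℂ) u * u = 1
    rw [← Complex.normSq_eq_conj_mul_self, Complex.normSq_eq_norm_sq, hu]
    norm_num
  have hz1 : ‖z - a‖ ≤ R := by
    rw [← dist_eq_norm]
    exact hz
  set w : ℂ := star u * (z - a) with hw
  have hzw : z = a + ((w.re : ℂ) + w.im * I) * u := by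
    rw [Complex.re_add_im, hw]
    have : star u * (z - a) * u = (z - a) * (star u * u) := by ring
    rw [this, h1u]
    ring
  have hwn : ‖w‖ ≤ R := by
    rw [hw, norm_mul, norm_star, hu, one_mul]
    exact hz1
  have hwre : ht u a z = w.re := rfl
  have hy : h ≤ w.re := by rw [← hwre]; exact hz'
  have hy0 : 0 < w.re := by linarith
  have hyR : w.re ≤ R := (Complex.re_le_norm w).trans hwn
  have him : |w.im| ≤ R := (Complex.abs_im_le_norm w).trans hwn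
  have hq1 : 1 ≤ R / w.re := by rwa [one_le_div hy0]
  have hlog0 : 0 ≤ Real.log (R / w.re) := Real.log_nonneg hq1
  have hlog2 : 1 / 2 < Real.log 2 := by
    have := Real.log_two_gt_d9
    linarith
  have hl2 : 0 < Real.log 2 := by linarith
  set n : ℕ := ⌊Real.log (R / w.re) / Real.log 2⌋₊ with hn
  have hn1 : (n : ℝ) ≤ Real.log (R / w.re) / Real.log 2 := Nat.floor_le (by positivity)
  have hn2 : Real.log (R / w.re) / Real.log 2 < n + 1 := Nat.lt_floor_add_one _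
  have hRn : R ≤ 2 ^ (n + 1) * w.re := by
    rw [div_lt_iff₀ hl2] at hn2
    have h1 : Real.log (R / w.re) < Real.log (2 ^ (n + 1)) := by
      rw [Real.log_pow]
      push_cast
      exact hn2
    have h2 := (Real.log_lt_log_iff (by positivity) (by positivity)).1 h1
    rw [div_lt_iff₀ hy0] at h2
    exact h2.le
  have hfin := key n w.re w.im hy hyR him hRn
  rw [← hzw] at hfin
  rw [hwre]
  refine hfin.trans (mul_le_mul_of_nonneg_right ?_ hB)
  have h3 : Real.log (R / w.re) / Real.log 2 ≤ 2 * Real.log (R / w.re) := by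
    rw [div_le_iff₀ hl2]
    nlinarith
  linarith

end Pool.Agent.SR3.BE

end
end

section

/-!
# SR3 EDep: comparison of depth and height in a flat disc (MODULE Dep of block E)

`A |y| - n e ≤ S ≤ n C (1 + d)`; `c d ≤ S ≤ 3 n C |y| + n e` where `R₀ ≤ d`.
-/

set_option autoImplicit false

open Topology Filter Metric Complex InnerProductSpace Laplacian

noncomputable section

namespace Pool.Agent.SR3.BE

variable {X ι : Type} [Fintype ι] {Φ : Fam X ι} {C c R₀ A c₂ C₂ R₂ : ℝ}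

/-- MODULE Dep.  The other side. -/
theorem Fit.flip {x : X} {a : ℂ} {R e : ℝ} {u : ℂ} {β β' : ι → ℝ} (h : Fit Φ x a R e A u β β') : Fit Φ x a R e A (-u) β' β := by
  refine ⟨by rw [norm_neg]; exact h.nu, h.nβ', h.nβ, h.Aβ', h.Aβ, fun z hz i => ?_⟩
  rw [vee_neg]
  exact h.fit z hz i

omit [Fintype ι] in
private theorem d_le {x : X} {a : ℂ} (ha : a ∈ Φ.G x) (z : ℂ) : Φ.d x z ≤ ‖z - a‖ := by
  rw [← dist_eq_norm]
  exact infDist_le_dist_of_mem ha

private theorem rate_aux (hΦ : Hyp Φ C c R₀) {x : X} {a : ℂ} {R e : ℝ} {u : ℂ} {β β' : ι → ℝ} (ha : a ∈ Φ.G x) (hR : 1 ≤ R) (he : e ≤ R)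
    (h : Fit Φ x a R e A u β β') (i : ι) : β i ≤ 3 * C := by
  have hR0 : 0 < R := by linarith
  have hn : ‖(a + R * u) - a‖ = R := by
    rw [add_sub_cancel_left, norm_mul, h.nu, mul_one, Complex.norm_real, Real.norm_eq_abs, abs_of_pos hR0]
  have hz : (a + R * u) ∈ closedBall a R := by
    rw [mem_closedBall, dist_eq_norm, hn]
  have h1 := h.fit _ hz i
  have hy : ht u a (a + R * u) = R := by
    rw [ht_add h.nu]
    have : ht u a a = 0 := by simp [ht]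
    rw [this, zero_add]
  have hv : vee u a (β i) (β' i) (a + R * u) = β i * R := by
    unfold vee
    rw [hy, max_eq_left hR0.le, max_eq_right (by linarith), mul_zero, add_zero]
  rw [hv] at h1
  have h2 := hΦ.up x i (a + R * u)
  have h3 := d_le ha (a + R * u)
  rw [hn] at h3
  have h4 := hΦ.C_ge
  have h5 : β i * R ≤ C * (1 + Φ.d x (a + R * u)) + e := by
    have := neg_le_of_abs_le h1
    linarith
  have h6 : C * (1 + Φ.d x (a + R * u)) ≤ C * (2 * R) := mul_le_mul_of_nonneg_left (by linarith) (by linarith)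
  have h7 : β i * R ≤ (3 * C) * R := by nlinarith
  exact le_of_mul_le_mul_right h7 hR0

/-- MODULE Dep.  Bounds for the rates. -/
theorem Fit.rate_le (hΦ : Hyp Φ C c R₀) {x : X} {a : ℂ} {R e : ℝ} {u : ℂ} {β β' : ι → ℝ} (ha : a ∈ Φ.G x) (hR : 1 ≤ R) (he : e ≤ R)
    (h : Fit Φ x a R e A u β β') (i : ι) : β i ≤ 3 * C ∧ β' i ≤ 3 * C :=
  ⟨rate_aux hΦ ha hR he h i, rate_aux hΦ ha hR he h.flip i⟩

private theorem vee_le {u a : ℂ} {β β' b : ℝ} (h1 : β ≤ b) (h2 : β' ≤ b) (z : ℂ) : vee u a β β' z ≤ b * |ht u a z| := by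
  unfold vee
  rcases le_total 0 (ht u a z) with h | h
  · rw [max_eq_left h, max_eq_right (by linarith), mul_zero, add_zero, abs_of_nonneg h]
    exact mul_le_mul_of_nonneg_right h1 h
  · rw [max_eq_right h, max_eq_left (by linarith), mul_zero, zero_add, abs_of_nonpos h]
    exact mul_le_mul_of_nonneg_right h2 (by linarith)

private theorem sum_vee_ge {x : X} {a : ℂ} {R e : ℝ} {u : ℂ} {β β' : ι → ℝ} (h : Fit Φ x a R e A u β β') (z : ℂ) :
    A * |ht u a z| ≤ ∑ i, vee u a (β i) (β' i) z := by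
  unfold vee
  rw [Finset.sum_add_distrib, ← Finset.sum_mul, ← Finset.sum_mul]
  rcases le_total 0 (ht u a z) with h0 | h0
  · rw [max_eq_left h0, max_eq_right (by linarith), mul_zero, add_zero, abs_of_nonneg h0]
    exact mul_le_mul_of_nonneg_right h.Aβ h0
  · rw [max_eq_right h0, max_eq_left (by linarith), mul_zero, zero_add, abs_of_nonpos h0]
    exact mul_le_mul_of_nonneg_right h.Aβ' (by linarith)

/-- MODULE Dep.  `A |y| - n e ≤ S ≤ n C (1 + d)`; `c d ≤ S ≤ 3 n C |y| + n e` where `R₀ ≤ d` (`β i ≤ 3 C` from the value at `a + R u`). -/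
theorem exists_dep (hΦ : Hyp Φ C c R₀) (hA : 0 < A) : ∃ c₂ C₂ R₂ : ℝ, R₀ ≤ R₂ ∧ Dep Φ A c₂ C₂ R₂ := by
  have hC1 := hΦ.C_ge
  have hc0 := hΦ.c_pos
  have hR1 := hΦ.R_ge
  obtain ⟨n, hn⟩ : ∃ n : ℝ, n = (Fintype.card ι : ℝ) := ⟨_, rfl⟩
  have hn0 : 0 ≤ n := by rw [hn]; exact Nat.cast_nonneg _
  obtain ⟨K, hK⟩ : ∃ K : ℝ, K = n + 1 := ⟨_, rfl⟩
  have hK1 : 1 ≤ K := by linarith
  have hnK : n ≤ K := by linarith
  have hKC : 0 < K * C := by positivity
  obtain ⟨c₂, hc₂⟩ : ∃ c₂ : ℝ, c₂ = min 1 (min (A / (4 * (K * C))) (c / (6 * (K * C)))) := ⟨_, rfl⟩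
  have e1 : c₂ ≤ 1 := by rw [hc₂]; exact min_le_left _ _
  have e2 : c₂ * (4 * (K * C)) ≤ A := by
    have : c₂ ≤ A / (4 * (K * C)) := by rw [hc₂]; exact (min_le_right _ _).trans (min_le_left _ _)
    rwa [le_div_iff₀ (by positivity)] at this
  have e3 : c₂ * (6 * (K * C)) ≤ c := by
    have : c₂ ≤ c / (6 * (K * C)) := by rw [hc₂]; exact (min_le_right _ _).trans (min_le_right _ _)
    rwa [le_div_iff₀ (by positivity)] at this
  have e0 : 0 < c₂ := by rw [hc₂]; positivity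
  have hK0 : 0 < K := by linarith
  have e4 : K * c₂ * 4 ≤ A := by
    have : c₂ * (4 * K) * 1 ≤ c₂ * (4 * K) * C := mul_le_mul_of_nonneg_left hC1 (by positivity)
    linarith
  have e5 : K * c₂ * 6 ≤ c := by
    have : c₂ * (6 * K) * 1 ≤ c₂ * (6 * K) * C := mul_le_mul_of_nonneg_left hC1 (by positivity)
    linarith
  have he0' : ∀ {x : X} {a : ℂ} {R e : ℝ} {u : ℂ} {β β' : ι → ℝ}, Fit Φ x a R e A u β β' → ∀ z ∈ closedBall a R, 0 ≤ e := by
    intro x a R e u β β' h z hz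
    rcases isEmpty_or_nonempty ι with hι | ⟨⟨i⟩⟩
    · have := h.Aβ
      simp at this
      linarith
    · exact (abs_nonneg _).trans (h.fit z hz i)
  -- sums
  have lower : ∀ {x : X} {a : ℂ} {R e : ℝ} {u : ℂ} {β β' : ι → ℝ}, Fit Φ x a R e A u β β' → ∀ z ∈ closedBall a R,
      A * |ht u a z| ≤ n * (C * (1 + Φ.d x z)) + n * e := by
    intro x a R e u β β' h z hz
    have h1 := sum_vee_ge h z
    have h2 : ∑ i, vee u a (β i) (β' i) z ≤ ∑ _i : ι, (C * (1 + Φ.d x z) + e) := by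
      refine Finset.sum_le_sum fun i _ => ?_
      have h3 := neg_le_of_abs_le (h.fit z hz i)
      have h4 := hΦ.up x i z
      linarith
    rw [Finset.sum_const, Finset.card_univ, nsmul_eq_mul, ← hn] at h2
    calc A * |ht u a z| ≤ _ := h1
      _ ≤ n * (C * (1 + Φ.d x z) + e) := h2
      _ = _ := by ring
  have upper : ∀ {x : X} {a : ℂ} {R e : ℝ} {u : ℂ} {β β' : ι → ℝ}, a ∈ Φ.G x → 1 ≤ R → e ≤ R → Fit Φ x a R e A u β β' → ∀ z ∈ closedBall a R,
      R₀ ≤ Φ.d x z → c * Φ.d x z ≤ n * (3 * C) * |ht u a z| + n * e := by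
    intro x a R e u β β' ha hR he h z hz hd
    have h1 := hΦ.low x z hd
    have h2 : Φ.S x z ≤ ∑ _i : ι, (3 * C * |ht u a z| + e) := by
      refine Finset.sum_le_sum fun i _ => ?_
      have h3 := le_of_abs_le (h.fit z hz i)
      have h4 := h.rate_le hΦ ha hR he i
      have h5 := vee_le (u := u) (a := a) h4.1 h4.2 z
      linarith
    rw [Finset.sum_const, Finset.card_univ, nsmul_eq_mul, ← hn] at h2
    calc c * Φ.d x z ≤ _ := h1
      _ ≤ n * (3 * C * |ht u a z| + e) := h2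
      _ = _ := by ring
  refine ⟨c₂, max 1 (4 * (K * C) / c), max R₀ (4 * (K * C) / A), le_max_left _ _, e0, e1, le_max_left _ _, hR1.trans (le_max_left _ _), ?_, ?_⟩
  · intro x a R e u β β' ha hR h z hz hy he
    have hy0 : 0 ≤ |ht u a z| := abs_nonneg _
    have hyR₀ : R₀ ≤ |ht u a z| := (le_max_left _ _).trans hy
    have hyA : 4 * (K * C) ≤ A * |ht u a z| := by
      have := (le_max_right _ _).trans hy
      rw [div_le_iff₀ hA] at this
      linarith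
    have hzR : ‖z - a‖ ≤ R := by rwa [mem_closedBall, dist_eq_norm] at hz
    have hyz : |ht u a z| ≤ ‖z - a‖ := abs_ht_le h.nu a z
    have heR : e ≤ R := he.trans ((mul_le_of_le_one_left hy0 e1).trans (hyz.trans hzR))
    have he0 : 0 ≤ e := he0' h z hz
    have hd0 : 0 ≤ Φ.d x z := infDist_nonneg
    have h3 : n * e ≤ K * (c₂ * |ht u a z|) := mul_le_mul hnK he he0 (by linarith)
    constructor
    · have h1 := lower h z hz
      have h2 : n * e ≤ A * |ht u a z| / 4 := by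
        have := mul_le_mul_of_nonneg_right e4 hy0
        linarith
      have h5 : n * (C * (1 + Φ.d x z)) ≤ K * (C * (1 + Φ.d x z)) := mul_le_mul_of_nonneg_right hnK (by positivity)
      have h7 : A * |ht u a z| / 2 ≤ K * C * Φ.d x z := by linarith
      have h8 := mul_le_mul_of_nonneg_right e2 hy0
      have h9 : c₂ * |ht u a z| * (4 * (K * C)) ≤ Φ.d x z * (4 * (K * C)) := by
        linarith [mul_nonneg hKC.le hd0]
      exact le_of_mul_le_mul_right h9 (by positivity)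
    · rcases le_or_gt R₀ (Φ.d x z) with hd | hd
      · have h1 := upper ha hR heR h z hz hd
        have h2 : n * e ≤ K * C * |ht u a z| := by
          have h4 : c₂ * |ht u a z| ≤ C * |ht u a z| := mul_le_mul_of_nonneg_right (by linarith) hy0
          have := mul_le_mul_of_nonneg_left h4 hK0.le
          linarith
        have h3 : n * (3 * C * |ht u a z|) ≤ K * (3 * C * |ht u a z|) := mul_le_mul_of_nonneg_right hnK (by positivity)
        have h4 : c * Φ.d x z ≤ 4 * (K * C) * |ht u a z| := by linarith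
        have h5 : Φ.d x z ≤ 4 * (K * C) / c * |ht u a z| := by
          rw [div_mul_eq_mul_div, le_div_iff₀ hc0]
          linarith
        exact h5.trans (mul_le_mul_of_nonneg_right (le_max_right _ _) hy0)
      · calc Φ.d x z ≤ 1 * |ht u a z| := by linarith
          _ ≤ _ := mul_le_mul_of_nonneg_right (le_max_left _ _) hy0
  · intro x a R e u β β' ha hR h z hz hd he
    have hy0 : 0 ≤ |ht u a z| := abs_nonneg _
    have hdR₀ : R₀ ≤ Φ.d x z := (le_max_left _ _).trans hd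
    have hzR : ‖z - a‖ ≤ R := by rwa [mem_closedBall, dist_eq_norm] at hz
    have hd0 : 0 ≤ Φ.d x z := infDist_nonneg
    have hdz := d_le ha z
    have heR : e ≤ R := he.trans ((mul_le_of_le_one_left hd0 e1).trans (hdz.trans hzR))
    have he0 : 0 ≤ e := he0' h z hz
    have h1 := upper ha hR heR h z hz hdR₀
    have h2 : n * e ≤ c * Φ.d x z / 6 := by
      have h3 : n * e ≤ K * (c₂ * Φ.d x z) := mul_le_mul hnK he he0 (by linarith)
      have := mul_le_mul_of_nonneg_right e5 hd0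
      linarith
    have h3 : n * (3 * C * |ht u a z|) ≤ K * (3 * C * |ht u a z|) := mul_le_mul_of_nonneg_right hnK (by positivity)
    have h4 : 5 / 6 * (c * Φ.d x z) ≤ 3 * (K * C) * |ht u a z| := by linarith
    have h5 := mul_le_mul_of_nonneg_right e3 hd0
    have h6 : c₂ * Φ.d x z * (6 * (K * C)) ≤ |ht u a z| * (6 * (K * C)) := by
      linarith [mul_nonneg hKC.le hy0]
    exact le_of_mul_le_mul_right h6 (by positivity)

end Pool.Agent.SR3.BE

end
end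

section

/-!
# SR3 EMax: a weak maximum principle

At an interior maximum the Laplacian is `≤ 0`.
-/

set_option autoImplicit false

open Topology Filter Metric Complex InnerProductSpace Laplacian

noncomputable section

namespace Pool.Agent.SR3.BE

/-- the second derivatives at a local maximum -/
theorem max_line {f : ℂ → ℝ} {z : ℂ} (hf : ContDiffAt ℝ 2 f z) (hm : IsLocalMax f z) (v : ℂ) : iteratedFDeriv ℝ 2 f z ![v, v] ≤ 0 := by
  by_contra hpos
  push Not at hpos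
  obtain ⟨g, hg⟩ : ∃ g : ℝ → ℝ, g = fun t => f (z + t • v) := ⟨_, rfl⟩
  have hline : ∀ t : ℝ, HasDerivAt (fun t : ℝ => z + t • v) v t := fun t => by
    simpa using ((hasDerivAt_id t).smul_const v).const_add z
  have hcont : Tendsto (fun t : ℝ => z + t • v) (𝓝 0) (𝓝 z) := by
    have h : ContinuousAt (fun t : ℝ => z + t • v) 0 := (hline 0).continuousAt
    simpa [ContinuousAt] using h
  have h1 : ∀ᶠ w in 𝓝 z, ContDiffAt ℝ 2 f w := hf.eventually (by simp)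
  have hd1 : ∀ᶠ t in 𝓝 (0 : ℝ), HasDerivAt g (fderiv ℝ f (z + t • v) v) t := by
    filter_upwards [hcont.eventually h1] with t ht
    rw [hg]
    exact (ht.differentiableAt (by norm_num)).hasFDerivAt.comp_hasDerivAt t (hline t)
  have hd : deriv g =ᶠ[𝓝 0] fun t => fderiv ℝ f (z + t • v) v := hd1.mono fun t ht => ht.deriv
  have h2 : DifferentiableAt ℝ (fderiv ℝ f) z := (hf.fderiv_right (m := 1) (by norm_num)).differentiableAt (by norm_num)
  have h3 : HasDerivAt (fun t : ℝ => fderiv ℝ f (z + t • v)) (fderiv ℝ (fderiv ℝ f) z v) 0 := by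
    have h4 : HasFDerivAt (fderiv ℝ f) (fderiv ℝ (fderiv ℝ f) z) (z + (0 : ℝ) • v) := by simpa using h2.hasFDerivAt
    exact h4.comp_hasDerivAt 0 (hline 0)
  have h5 : HasDerivAt (fun t : ℝ => fderiv ℝ f (z + t • v) v) (fderiv ℝ (fderiv ℝ f) z v v) 0 := by
    simpa using h3.clm_apply (hasDerivAt_const (0 : ℝ) v)
  have h6 : deriv (deriv g) 0 = fderiv ℝ (fderiv ℝ f) z v v := (h5.congr_of_eventuallyEq hd).deriv
  rw [iteratedFDeriv_two_apply] at hpos
  have hgm : IsLocalMax g 0 := by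
    have h7 := hcont.eventually hm
    filter_upwards [h7] with t ht
    rw [hg]
    simpa using ht
  have hg0 : deriv g 0 = 0 := hgm.deriv_eq_zero
  have hmin := isLocalMin_of_deriv_deriv_pos (f := g) (x₀ := 0) (by rw [h6]; simpa using hpos) hg0 (hd1.self_of_nhds.continuousAt)
  have hconst : g =ᶠ[𝓝 0] fun _ => g 0 := by
    filter_upwards [hgm, hmin] with t h7 h8 using le_antisymm h7 h8
  have h9 : deriv (deriv g) 0 = 0 := by
    rw [hconst.deriv.deriv_eq]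
    simp
  rw [h6] at h9
  simp only [Matrix.cons_val_zero, Matrix.cons_val_one] at hpos
  linarith

/-- At a local maximum the Laplacian is `≤ 0`. -/
theorem laplacian_le_zero {f : ℂ → ℝ} {z : ℂ} (hf : ContDiffAt ℝ 2 f z) (hm : IsLocalMax f z) : Δ f z ≤ 0 := by
  rw [laplacian_eq_iteratedFDeriv_complexPlane]
  have h1 := max_line hf hm 1
  have h2 := max_line hf hm Complex.I
  linarith

theorem weak_max {K : Set ℂ} (hK : IsCompact K) {f : ℂ → ℝ} (hf : ContinuousOn f K)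
    (hpos : ∀ z ∈ interior K, 0 < f z → ContDiffAt ℝ 2 f z ∧ 0 < Δ f z) (hb : ∀ z ∈ K, z ∉ interior K → f z ≤ 0) : ∀ z ∈ K, f z ≤ 0 := by
  intro z hz
  by_contra h
  push Not at h
  obtain ⟨w, hw, hmax⟩ := hK.exists_isMaxOn ⟨z, hz⟩ hf
  have h1 : 0 < f w := lt_of_lt_of_le h (hmax hz)
  have h2 : w ∈ interior K := by
    by_contra h3
    exact absurd (hb w hw h3) (not_le.2 h1)
  obtain ⟨h3, h4⟩ := hpos w h2 h1
  have h5 : IsLocalMax f w := hmax.isLocalMax (mem_interior_iff_mem_nhds.1 h2)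
  exact absurd (laplacian_le_zero h3 h5) (not_le.2 h4)

end Pool.Agent.SR3.BE

end
end

section

/-!
# SR3 EGrad: the gradient estimate

`grad_est`: the part of `f` which is odd with respect to a line vanishes on the line; maximum principle in a half disc with the barrier
`2 M |w|² / r² + (A + 4 M / r² + ε) (2 r x - x²)`.
-/

set_option autoImplicit false

open Topology Filter Metric Complex InnerProductSpace Laplacian

noncomputable section

namespace Pool.Agent.SR3.BE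

open Pool.Agent.SDR (gc)
open Pool.Agent.H30M (gg lap_mul lap_add lap_sub lap_const_mul)

/-- the Laplacian and isometries -/
theorem eg_lap_iso (L : ℂ ≃ₗᵢ[ℝ] ℂ) (c : ℂ) (f : ℂ → ℝ) (w : ℂ) : Δ (fun w => f (c + L w)) w = Δ f (c + L w) := by
  have h1 : ∀ v : ℂ, iteratedFDeriv ℝ 2 (fun w => f (c + L w)) w ![v, v] = iteratedFDeriv ℝ 2 f (c + L w) ![L v, L v] := by
    intro v
    have e1 : (fun w => f (c + L w)) = (fun v => f (c + v)) ∘ L.toContinuousLinearEquiv := rfl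
    have e2 := L.toContinuousLinearEquiv.iteratedFDerivWithin_comp_right (fun v => f (c + v)) uniqueDiffOn_univ (x := w) (Set.mem_univ _) 2
    rw [Set.preimage_univ, iteratedFDerivWithin_univ, iteratedFDerivWithin_univ] at e2
    rw [e1, e2, ContinuousMultilinearMap.compContinuousLinearMap_apply, iteratedFDeriv_comp_add_left']
    have e3 : (fun i => (L.toContinuousLinearEquiv : ℂ →L[ℝ] ℂ) (![v, v] i)) = ![L v, L v] := by
      funext i
      fin_cases i <;> rfl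
    rw [e3]
    rfl
  rw [congrFun (laplacian_eq_iteratedFDeriv_orthonormalBasis (fun w => f (c + L w)) Complex.orthonormalBasisOneI) w,
    congrFun (laplacian_eq_iteratedFDeriv_orthonormalBasis f (Complex.orthonormalBasisOneI.map L)) (c + L w)]
  refine Finset.sum_congr rfl fun i _ => ?_
  rw [h1, OrthonormalBasis.map_apply]

theorem eg_re (w : ℂ) : ContDiffAt ℝ 2 (fun w : ℂ => w.re) w ∧ Δ (fun w : ℂ => w.re) w = 0 ∧ gg (fun w : ℂ => w.re) (fun w : ℂ => w.re) w = 1 := by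
  have h0 : HarmonicAt (fun w : ℂ => w.re) w := (analyticAt_id (𝕜 := ℂ) (z := w)).harmonicAt_re
  have h1 : HasFDerivAt (fun w : ℂ => w.re) reCLM w := reCLM.hasFDerivAt
  refine ⟨reCLM.contDiff.contDiffAt, h0.2.self_of_nhds, ?_⟩
  unfold gg
  rw [h1.fderiv]
  simp

theorem eg_im (w : ℂ) : ContDiffAt ℝ 2 (fun w : ℂ => w.im) w ∧ Δ (fun w : ℂ => w.im) w = 0 ∧ gg (fun w : ℂ => w.im) (fun w : ℂ => w.im) w = 1 := by
  have h0 : HarmonicAt (fun w : ℂ => w.im) w := (analyticAt_id (𝕜 := ℂ) (z := w)).harmonicAt_im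
  have h1 : HasFDerivAt (fun w : ℂ => w.im) imCLM w := imCLM.hasFDerivAt
  refine ⟨imCLM.contDiff.contDiffAt, h0.2.self_of_nhds, ?_⟩
  unfold gg
  rw [h1.fderiv]
  simp

/-- the barrier -/
def egb (a l r : ℝ) (w : ℂ) : ℝ := a * (w.re * w.re + w.im * w.im) + l * (2 * r * w.re - w.re * w.re)

theorem egb_lap (a l r : ℝ) (w : ℂ) : ContDiffAt ℝ 2 (egb a l r) w ∧ Δ (egb a l r) w = 4 * a - 2 * l := by
  obtain ⟨h1, h2, h3⟩ := eg_re w
  obtain ⟨h4, h5, h6⟩ := eg_im w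
  have c1 : ContDiffAt ℝ 2 (fun w : ℂ => w.re * w.re) w := h1.mul h1
  have c2 : ContDiffAt ℝ 2 (fun w : ℂ => w.im * w.im) w := h4.mul h4
  have c3 : ContDiffAt ℝ 2 (fun w : ℂ => w.re * w.re + w.im * w.im) w := c1.add c2
  have c4 : ContDiffAt ℝ 2 (fun w : ℂ => 2 * r * w.re) w := contDiffAt_const.mul h1
  have c5 : ContDiffAt ℝ 2 (fun w : ℂ => 2 * r * w.re - w.re * w.re) w := c4.sub c1
  have c6 : ContDiffAt ℝ 2 (fun w : ℂ => a * (w.re * w.re + w.im * w.im)) w := contDiffAt_const.mul c3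
  have c7 : ContDiffAt ℝ 2 (fun w : ℂ => l * (2 * r * w.re - w.re * w.re)) w := contDiffAt_const.mul c5
  refine ⟨c6.add c7, ?_⟩
  have e : Δ (egb a l r) w = Δ (fun w : ℂ => a * (w.re * w.re + w.im * w.im)) w + Δ (fun w : ℂ => l * (2 * r * w.re - w.re * w.re)) w := lap_add c6 c7
  rw [e, lap_const_mul c3, lap_const_mul c5, lap_add c1 c2, lap_sub c4 c1, lap_const_mul h1, lap_mul h1 h1, lap_mul h4 h4, h2, h3, h5, h6]
  ring

/-- the reflection in the imaginary axis -/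
def egr : ℂ ≃ₗᵢ[ℝ] ℂ := Complex.conjLIE.trans (LinearIsometryEquiv.neg ℝ)

theorem egr_apply (w : ℂ) : egr w = -(starRingEnd ℂ) w := rfl

/-- the bound on the half disc -/
theorem eg_half {f : ℂ → ℝ} {r A M ε : ℝ} (hr : 0 < r) (hA : 0 ≤ A) (hM : 0 ≤ M) (hε : 0 < ε) (h2 : ∀ w ∈ closedBall (0 : ℂ) r, ContDiffAt ℝ 2 f w)
    (hl : ∀ w ∈ closedBall (0 : ℂ) r, |Δ f w| ≤ A) (hb : ∀ w ∈ closedBall (0 : ℂ) r, |f w| ≤ M) :
    ∀ w ∈ closedBall (0 : ℂ) r ∩ {w | 0 ≤ w.re}, f w - f (egr w) - egb (2 * M / r ^ 2) (A + 4 * M / r ^ 2 + ε) r w ≤ 0 := by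
  set a₁ : ℝ := 2 * M / r ^ 2 with ha₁
  set l : ℝ := A + 4 * M / r ^ 2 + ε with hldef
  have ha₁0 : 0 ≤ a₁ := by positivity
  have hl0 : 0 ≤ l := by positivity
  have hK : IsCompact (closedBall (0 : ℂ) r ∩ {w | 0 ≤ w.re}) := (isCompact_closedBall 0 r).inter_right (isClosed_le continuous_const continuous_re)
  have hρ : ∀ w ∈ closedBall (0 : ℂ) r, egr w ∈ closedBall (0 : ℂ) r := by
    intro w hw
    rw [mem_closedBall_zero_iff] at hw ⊢
    rwa [LinearIsometryEquiv.norm_map]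
  have hcρ : ∀ w ∈ closedBall (0 : ℂ) r, ContDiffAt ℝ 2 (fun w => f (egr w)) w := fun w hw =>
    (h2 _ (hρ w hw)).comp w egr.toContinuousLinearEquiv.contDiff.contDiffAt
  have hc : ∀ w ∈ closedBall (0 : ℂ) r, ContDiffAt ℝ 2 (fun w => f w - f (egr w) - egb a₁ l r w) w := fun w hw =>
    ((h2 w hw).sub (hcρ w hw)).sub (egb_lap a₁ l r w).1
  refine weak_max hK (fun w hw => (hc w hw.1).continuousAt.continuousWithinAt) (fun w hw _ => ?_) fun w hw hw' => ?_
  · have hwK := (interior_subset hw).1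
    refine ⟨hc w hwK, ?_⟩
    have e1 : Δ (fun w => f w - f (egr w) - egb a₁ l r w) w = Δ f w - Δ f (egr w) - (4 * a₁ - 2 * l) := by
      rw [lap_sub ((h2 w hwK).sub (hcρ w hwK)) (egb_lap a₁ l r w).1, lap_sub (h2 w hwK) (hcρ w hwK), (egb_lap a₁ l r w).2]
      have e2 := eg_lap_iso egr 0 f w
      simp only [zero_add] at e2
      rw [e2]
    rw [e1]
    have h3 := (abs_le.1 (hl w hwK)).1
    have h4 := (abs_le.1 (hl _ (hρ w hwK))).2
    have h5 : 4 * a₁ = 8 * M / r ^ 2 := by rw [ha₁]; ring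
    have h6 : 2 * l = 2 * A + 8 * M / r ^ 2 + 2 * ε := by rw [hldef]; ring
    linarith
  · obtain ⟨hw1, hw2⟩ := hw
    have hw2 : 0 ≤ w.re := hw2
    have hwn : ‖w‖ ≤ r := by simpa using hw1
    have hcase : ‖w‖ = r ∨ w.re = 0 := by
      by_contra hcon
      push Not at hcon
      refine hw' (mem_interior.2 ⟨ball 0 r ∩ {w | 0 < w.re}, ?_, isOpen_ball.inter (isOpen_lt continuous_const continuous_re), ?_, ?_⟩)
      · rintro v ⟨hv1, hv2⟩
        have hv2 : 0 < v.re := hv2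
        exact ⟨ball_subset_closedBall hv1, hv2.le⟩
      · rw [mem_ball_zero_iff]
        exact lt_of_le_of_ne hwn hcon.1
      · exact lt_of_le_of_ne hw2 (Ne.symm hcon.2)
    rcases hcase with h1 | h1
    · have h3 := (abs_le.1 (hb w hw1)).2
      have h4 := (abs_le.1 (hb _ (hρ w hw1))).1
      have h5 : w.re * w.re + w.im * w.im = r ^ 2 := by
        rw [← h1, Complex.sq_norm, Complex.normSq_apply]
      have h6 : w.re ≤ r := (Complex.re_le_norm w).trans hwn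
      have h7 : 0 ≤ l * (2 * r * w.re - w.re * w.re) := mul_nonneg hl0 (by nlinarith)
      have h8 : a₁ * r ^ 2 = 2 * M := by
        rw [ha₁]
        field_simp
      unfold egb
      rw [h5, h8]
      linarith
    · have h3 : egr w = w := by
        rw [egr_apply]
        apply Complex.ext
        · simp [h1]
        · simp
      have h4 : 0 ≤ a₁ * (w.im * w.im) := mul_nonneg ha₁0 (mul_self_nonneg _)
      rw [h3]
      unfold egb
      rw [h1]
      simp only [mul_zero, zero_add, sub_self, add_zero]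
      linarith

/-- the derivative in the direction `1` -/
theorem eg_dir {f : ℂ → ℝ} {r A M : ℝ} (hr : 0 < r) (hA : 0 ≤ A) (hM : 0 ≤ M) (h2 : ∀ w ∈ closedBall (0 : ℂ) r, ContDiffAt ℝ 2 f w)
    (hl : ∀ w ∈ closedBall (0 : ℂ) r, |Δ f w| ≤ A) (hb : ∀ w ∈ closedBall (0 : ℂ) r, |f w| ≤ M) : fderiv ℝ f 0 1 ≤ A * r + 4 * M / r := by
  refine le_of_forall_pos_le_add fun ε' hε' => ?_
  set ε : ℝ := ε' / r with hεdef
  have hε : 0 < ε := by positivity
  have key := eg_half hr hA hM hε h2 hl hb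
  set a₁ : ℝ := 2 * M / r ^ 2 with ha₁
  set l : ℝ := A + 4 * M / r ^ 2 + ε with hldef
  have ha₁0 : 0 ≤ a₁ := by positivity
  have hl0 : 0 ≤ l := by positivity
  have hd : HasFDerivAt f (fderiv ℝ f 0) 0 := ((h2 0 (mem_closedBall_self hr.le)).differentiableAt (by norm_num)).hasFDerivAt
  have h00 : HasDerivAt (fun t : ℝ => (t : ℂ)) 1 0 := by
    have := (hasDerivAt_id (0 : ℝ)).ofReal_comp
    simpa using this
  have h3 : HasDerivAt (fun t : ℝ => f ((t : ℂ) * 1)) (fderiv ℝ f 0 1) 0 := by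
    have h4 : HasDerivAt (fun t : ℝ => (t : ℂ) * 1) 1 0 := by
      simpa using h00
    have h5 : HasFDerivAt f (fderiv ℝ f 0) (((0 : ℝ) : ℂ) * 1) := by simpa using hd
    exact h5.comp_hasDerivAt 0 h4
  have h6 : HasDerivAt (fun t : ℝ => f ((t : ℂ) * (-1))) (fderiv ℝ f 0 (-1)) 0 := by
    have h4 : HasDerivAt (fun t : ℝ => (t : ℂ) * (-1)) (-1) 0 := by
      simpa using h00.fun_neg
    have h5 : HasFDerivAt f (fderiv ℝ f 0) (((0 : ℝ) : ℂ) * (-1)) := by simpa using hd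
    exact h5.comp_hasDerivAt 0 h4
  have h7 : HasDerivAt (fun t : ℝ => f ((t : ℂ) * 1) - f ((t : ℂ) * (-1))) (2 * fderiv ℝ f 0 1) 0 := by
    refine (h3.sub h6).congr_deriv ?_
    rw [map_neg]
    ring
  have h8 : Tendsto (fun t : ℝ => t⁻¹ * (f ((t : ℂ) * 1) - f ((t : ℂ) * (-1)))) (𝓝[>] 0) (𝓝 (2 * fderiv ℝ f 0 1)) := by
    have := h7.tendsto_slope_zero_right
    simpa using this
  have h9 : Tendsto (fun t : ℝ => a₁ * t + 2 * r * l) (𝓝[>] 0) (𝓝 (a₁ * 0 + 2 * r * l)) :=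
    ((continuous_const.mul continuous_id).add continuous_const).continuousAt.tendsto.mono_left nhdsWithin_le_nhds
  have h10 : ∀ᶠ t : ℝ in 𝓝[>] 0, t⁻¹ * (f ((t : ℂ) * 1) - f ((t : ℂ) * (-1))) ≤ a₁ * t + 2 * r * l := by
    filter_upwards [Ioo_mem_nhdsGT hr] with t ht
    obtain ⟨ht0, htr⟩ := ht
    have hk := key (t : ℂ) ⟨by rw [mem_closedBall_zero_iff, Complex.norm_real, Real.norm_of_nonneg ht0.le]; exact htr.le, by
      show 0 ≤ ((t : ℂ)).re
      rw [Complex.ofReal_re]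
      exact ht0.le⟩
    have e1 : egr (t : ℂ) = (t : ℂ) * (-1) := by
      rw [egr_apply, Complex.conj_ofReal]
      ring
    unfold egb at hk
    rw [e1, Complex.ofReal_re, Complex.ofReal_im] at hk
    rw [mul_one, inv_mul_le_iff₀ ht0]
    have h11 : 0 ≤ l * (t * t) := mul_nonneg hl0 (mul_self_nonneg _)
    linarith
  have h12 := le_of_tendsto_of_tendsto h8 h9 h10
  have h13 : r * l = A * r + 4 * M / r + ε' := by
    rw [hldef, hεdef]
    field_simp
  linarith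

theorem grad_est : ∃ C : ℝ, 0 < C ∧ ∀ (f : ℂ → ℝ) (z : ℂ) (r A M : ℝ), 0 < r → 0 ≤ A → 0 ≤ M → (∀ w ∈ closedBall z r, ContDiffAt ℝ 2 f w) →
    (∀ w ∈ closedBall z r, |Δ f w| ≤ A) → (∀ w ∈ closedBall z r, |f w| ≤ M) → ‖gc f z‖ ≤ C * (M / r + A * r) := by
  refine ⟨8, by norm_num, fun f z r A M hr hA hM h2 hl hb => ?_⟩
  -- a general direction
  have key : ∀ (g : ℂ → ℝ), (∀ w ∈ closedBall z r, ContDiffAt ℝ 2 g w) → (∀ w ∈ closedBall z r, |Δ g w| ≤ A) → (∀ w ∈ closedBall z r, |g w| ≤ M) →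
      ∀ L : ℂ ≃ₗᵢ[ℝ] ℂ, fderiv ℝ g z (L 1) ≤ A * r + 4 * M / r := by
    intro g g2 gl gb L
    have hm : ∀ w ∈ closedBall (0 : ℂ) r, z + L w ∈ closedBall z r := by
      intro w hw
      rw [mem_closedBall_zero_iff] at hw
      rw [mem_closedBall, dist_eq_norm, add_sub_cancel_left, LinearIsometryEquiv.norm_map]
      exact hw
    have hLc : ContDiff ℝ 2 (fun w : ℂ => z + L w) := contDiff_const.add L.toContinuousLinearEquiv.contDiff
    have h3 := eg_dir (f := fun w => g (z + L w)) hr hA hM (fun w hw => (g2 _ (hm w hw)).comp w hLc.contDiffAt)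
      (fun w hw => by rw [eg_lap_iso]; exact gl _ (hm w hw)) fun w hw => gb _ (hm w hw)
    have h4 : HasFDerivAt (fun w : ℂ => z + L w) (L.toContinuousLinearEquiv : ℂ →L[ℝ] ℂ) 0 :=
      (L.toContinuousLinearEquiv : ℂ →L[ℝ] ℂ).hasFDerivAt.const_add z
    have h5 : HasFDerivAt g (fderiv ℝ g z) (z + L 0) := by
      rw [map_zero, add_zero]
      exact ((g2 z (mem_closedBall_self hr.le)).differentiableAt (by norm_num)).hasFDerivAt
    have h6 := h5.comp (0 : ℂ) h4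
    have h7 : fderiv ℝ (fun w => g (z + L w)) 0 1 = fderiv ℝ g z (L 1) := by
      have h8 : HasFDerivAt (fun w => g (z + L w)) ((fderiv ℝ g z).comp (L.toContinuousLinearEquiv : ℂ →L[ℝ] ℂ)) 0 := h6
      rw [h8.fderiv]
      rfl
    rwa [h7] at h3
  have hneg : ∀ v : ℂ, fderiv ℝ (fun w => - f w) z v = - fderiv ℝ f z v := by
    intro v
    rw [fderiv_fun_neg]
    rfl
  have n2 : ∀ w ∈ closedBall z r, ContDiffAt ℝ 2 (fun w => - f w) w := fun w hw => (h2 w hw).neg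
  have nl : ∀ w ∈ closedBall z r, |Δ (fun w => - f w) w| ≤ A := by
    intro w hw
    have e1 : Δ (fun w => - f w) w = - Δ f w := by
      have := congrFun (laplacian_neg (f := f)) w
      exact this
    rw [e1, abs_neg]
    exact hl w hw
  have nb : ∀ w ∈ closedBall z r, |(fun w => - f w) w| ≤ M := fun w hw => by
    show |- f w| ≤ M
    rw [abs_neg]
    exact hb w hw
  -- the direction `1`
  have a1 := key f h2 hl hb (LinearIsometryEquiv.refl ℝ ℂ)
  have a2 := key (fun w => - f w) n2 nl nb (LinearIsometryEquiv.refl ℝ ℂ)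
  rw [hneg] at a2
  -- the direction `I`
  set J : ℂ ≃ₗᵢ[ℝ] ℂ := rotation ⟨I, by simp [Submonoid.unitSphere, mem_sphere_iff_norm]⟩ with hJ
  have hJ1 : J 1 = I := by
    rw [hJ, rotation_apply, mul_one]
  have a3 := key f h2 hl hb J
  have a4 := key (fun w => - f w) n2 nl nb J
  rw [hneg] at a4
  rw [hJ1] at a3 a4
  have b1 : |fderiv ℝ f z 1| ≤ A * r + 4 * M / r := abs_le.2 ⟨by
    have : fderiv ℝ f z ((LinearIsometryEquiv.refl ℝ ℂ) 1) = fderiv ℝ f z 1 := rfl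
    linarith, a1⟩
  have b2 : |fderiv ℝ f z I| ≤ A * r + 4 * M / r := abs_le.2 ⟨by linarith, a3⟩
  unfold gc
  have b3 : ‖((fderiv ℝ f z 1 : ℝ) : ℂ) - I * ((fderiv ℝ f z I : ℝ) : ℂ)‖ ≤ |fderiv ℝ f z 1| + |fderiv ℝ f z I| := by
    refine (norm_sub_le _ _).trans (le_of_eq ?_)
    rw [norm_mul, Complex.norm_I, one_mul, Complex.norm_real, Complex.norm_real, Real.norm_eq_abs, Real.norm_eq_abs]
  refine b3.trans ?_
  have b4 : 8 * (M / r + A * r) = 2 * (A * r + 4 * M / r) + 6 * (A * r) := by ring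
  rw [b4]
  have b5 : 0 ≤ A * r := by positivity
  linarith

end Pool.Agent.SR3.BE

end
end

section

/-!
# SR3 ETop: the gradients on the upper part of a flat disc

`top_grad`: the gradients of the functions `lam x i` are `t i` times the gradient of the sum, up to `C R ^ (-α)`.
-/

set_option autoImplicit false

open Topology Filter Metric Complex InnerProductSpace Laplacian

noncomputable section

namespace Pool.Agent.SR3.BE

open Pool.Agent.SDR (gc)

/-! ## linearity -/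

theorem et_lap_sum {κ : Type*} {f : κ → ℂ → ℝ} {z : ℂ} (s : Finset κ) (h : ∀ i ∈ s, ContDiffAt ℝ 2 (f i) z) :
    Δ (fun w => ∑ i ∈ s, f i w) z = ∑ i ∈ s, Δ (f i) z := by
  classical
  induction s using Finset.induction_on with
  | empty => simp
  | insert i s hi ih =>
    have h1 : ContDiffAt ℝ 2 (fun w => ∑ j ∈ s, f j w) z := ContDiffAt.sum fun j hj => h j (Finset.mem_insert_of_mem hj)
    have e : (fun w => ∑ j ∈ insert i s, f j w) = f i + fun w => ∑ j ∈ s, f j w := by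
      funext w
      rw [Finset.sum_insert hi]
      rfl
    rw [e, (h i (Finset.mem_insert_self _ _)).laplacian_add h1, ih fun j hj => h j (Finset.mem_insert_of_mem hj), Finset.sum_insert hi]

theorem et_lap_lin {f g : ℂ → ℝ} {z : ℂ} (hf : ContDiffAt ℝ 2 f z) (hg : ContDiffAt ℝ 2 g z) (t : ℝ) :
    Δ (fun w => f w - t * g w) z = Δ f z - t * Δ g z := by
  have e : (fun w => f w - t * g w) = f + (-t) • g := by
    funext w
    simp only [Pi.add_apply, Pi.smul_apply, smul_eq_mul]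
    ring
  have h1 : ContDiffAt ℝ 2 ((-t) • g) z := contDiffAt_const.smul hg
  rw [e, hf.laplacian_add h1, laplacian_smul (-t) hg, smul_eq_mul]
  ring

theorem et_gc_lin {f g : ℂ → ℝ} {z : ℂ} (hf : DifferentiableAt ℝ f z) (hg : DifferentiableAt ℝ g z) (t : ℝ) :
    gc (fun w => f w - t * g w) z = gc f z - (t : ℂ) * gc g z := by
  have h1 : HasFDerivAt (fun w => f w - t * g w) (fderiv ℝ f z - t • fderiv ℝ g z) z := hf.hasFDerivAt.sub (hg.hasFDerivAt.const_mul t)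
  unfold gc
  rw [h1.fderiv]
  simp only [sub_apply, smul_apply, smul_eq_mul, Complex.ofReal_sub, Complex.ofReal_mul]
  ring

theorem et_ht_self (u a : ℂ) : ht u a a = 0 := by
  unfold ht
  simp

theorem et_ht_sub (u a z w : ℂ) : ht u a w - ht u a z = ht u z w := by
  unfold ht
  rw [← Complex.sub_re]
  congr 1
  ring

variable {X ι : Type} [Fintype ι] {Φ : Fam X ι} {C c R₀ A c₂ C₂ R₂ : ℝ}

/-- the depth at the points of large height -/
private theorem top_dep (hD : Dep Φ A c₂ C₂ R₂) {δ : ℝ} {x : X} {a : ℂ} (ha : a ∈ Φ.G x) {R e : ℝ} {u : ℂ} {β β' : ι → ℝ} (hδR : 0 ≤ δ * R) (hR1 : 1 ≤ R)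
    (hfit : Fit Φ x a (8 * R) e A u β β') (hR₂h : R₂ ≤ δ * R / 2) (he : e ≤ c₂ * (δ * R) / 4) {w : ℂ} (hw : w ∈ closedBall a (2 * R))
    (hw' : 3 / 4 * (δ * R) ≤ ht u a w) : 3 / 4 * c₂ * δ * R ≤ Φ.d x w ∧ Φ.d x w ≤ 2 * C₂ * R := by
  have hc₂ := hD.c_pos
  have hC₂ := hD.C_ge
  have h0 : 0 ≤ ht u a w := by linarith
  have h1 : |ht u a w| = ht u a w := abs_of_nonneg h0
  have h2 : |ht u a w| ≤ 2 * R := (abs_ht_le hfit.nu a w).trans (by simpa [dist_eq_norm] using hw)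
  have h3 : R₂ ≤ |ht u a w| := by
    rw [h1]
    linarith
  have h5 : c₂ * (3 / 4 * (δ * R)) ≤ c₂ * ht u a w := mul_le_mul_of_nonneg_left hw' hc₂.le
  have h6 : 0 ≤ c₂ * (δ * R) := mul_nonneg hc₂.le hδR
  have h4 : e ≤ c₂ * |ht u a w| := by
    rw [h1]
    linarith
  obtain ⟨h7, h8⟩ := hD.dep x a (8 * R) e u β β' ha (by linarith) hfit w (closedBall_subset_closedBall (by linarith) hw) h3 h4
  have h9 := mul_le_mul_of_nonneg_left h2 (by linarith : (0 : ℝ) ≤ C₂)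
  refine ⟨?_, by linarith⟩
  rw [h1] at h7
  linarith

/-- the functions at a point of the upper part -/
private theorem top_pt (hΦ : Hyp Φ C c R₀) {D₁ R : ℝ} (hD₁ : 0 < D₁) (hRp : 0 < R) (hR1 : 1 ≤ R) (hR₀D : R₀ ≤ D₁ * R) {x : X} {w : ℂ}
    (h1 : D₁ * R ≤ Φ.d x w) (h2 : Φ.d x w ≤ 2 * C₂ * R) : (Φ.S x w ≤ (Fintype.card ι : ℝ) * (C * (1 + 2 * C₂)) * R ∧ 0 < Φ.S x w) ∧
      (∀ i, ContDiffAt ℝ 2 (Φ.lam x i) w) ∧ ContDiffAt ℝ 2 (Φ.S x) w ∧ (∀ i, |Δ (Φ.lam x i) w| ≤ C / D₁ ^ 2 / R ^ 2) ∧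
        |Δ (Φ.S x) w| ≤ (Fintype.card ι : ℝ) * (C / D₁ ^ 2) / R ^ 2 := by
  have hC1 := hΦ.C_ge
  have hR₀ : R₀ ≤ Φ.d x w := hR₀D.trans h1
  have hcd : ∀ i, ContDiffAt ℝ 2 (Φ.lam x i) w := fun i => hΦ.c2 x i w hR₀
  have hlap : ∀ i, |Δ (Φ.lam x i) w| ≤ C / D₁ ^ 2 / R ^ 2 := by
    intro i
    refine (hΦ.lap x i w hR₀).trans ?_
    rw [div_div, ← mul_pow]
    exact div_le_div_of_nonneg_left (by linarith) (pow_pos (mul_pos hD₁ hRp) 2) (pow_le_pow_left₀ (mul_pos hD₁ hRp).le h1 2)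
  refine ⟨⟨?_, ?_⟩, hcd, ContDiffAt.sum fun i _ => hcd i, hlap, ?_⟩
  · have hlam : ∀ i, Φ.lam x i w ≤ C * (1 + 2 * C₂) * R := by
      intro i
      refine (hΦ.up x i w).trans ?_
      rw [mul_assoc]
      exact mul_le_mul_of_nonneg_left (by linarith) (by linarith)
    have h3 : Φ.S x w ≤ ∑ _i : ι, C * (1 + 2 * C₂) * R := Finset.sum_le_sum fun i _ => hlam i
    rw [Finset.sum_const, Finset.card_univ, nsmul_eq_mul, ← mul_assoc] at h3
    exact h3
  · exact lt_of_lt_of_le (mul_pos hΦ.c_pos (lt_of_lt_of_le (mul_pos hD₁ hRp) h1)) (hΦ.low x w hR₀)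
  · have e1 : Δ (Φ.S x) w = ∑ i, Δ (Φ.lam x i) w := et_lap_sum Finset.univ fun i _ => hcd i
    rw [e1]
    refine (Finset.abs_sum_le_sum_abs _ _).trans ((Finset.sum_le_sum fun i _ => hlap i).trans ?_)
    rw [Finset.sum_const, Finset.card_univ, nsmul_eq_mul, ← mul_div_assoc]

private theorem top_ar {Cg M δ n A₁ R ρ : ℝ} (hCg : 0 < Cg) (hδ : 0 < δ) (hn0 : 0 ≤ n) (hA₁0 : 0 ≤ A₁) (hR1 : 1 ≤ R) (hρ : ρ = δ * R / 4) {θ : ℝ}
    (hθ : 1 / R ≤ θ) : Cg * (M * R / ρ + n * A₁ / R ^ 2 * ρ) ≤ Cg * (4 * M / δ + n * A₁ * δ / 4 * θ) := by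
  have hRp : 0 < R := by linarith
  have h2 : M * R / ρ = 4 * M / δ := by
    rw [hρ]
    field_simp
  have r1 : ρ / R ^ 2 = δ / 4 * (1 / R) := by
    rw [hρ]
    field_simp
  have h4 : n * A₁ / R ^ 2 * ρ = n * A₁ * (ρ / R ^ 2) := by ring
  have h5 : n * A₁ * δ / 4 * θ = n * A₁ * (δ / 4 * θ) := by ring
  rw [h2, h4, h5, r1]
  refine mul_le_mul_of_nonneg_left (add_le_add le_rfl (mul_le_mul_of_nonneg_left (mul_le_mul_of_nonneg_left hθ ?_) (mul_nonneg hn0 hA₁0))) hCg.le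
  positivity

/-- the gradient of one function -/
private theorem top_one {Cg : ℝ} (hCg : 0 < Cg) (hgrad : ∀ (f : ℂ → ℝ) (z : ℂ) (r A M : ℝ), 0 < r → 0 ≤ A → 0 ≤ M →
    (∀ w ∈ closedBall z r, ContDiffAt ℝ 2 f w) → (∀ w ∈ closedBall z r, |Δ f w| ≤ A) → (∀ w ∈ closedBall z r, |f w| ≤ M) → ‖gc f z‖ ≤ Cg * (M / r + A * r))
    {n A₁ δ R ρ M₁ L B b₀ α : ℝ} (hn0 : 0 ≤ n) (hA₁0 : 0 ≤ A₁) (hδ : 0 < δ) (hR1 : 1 ≤ R) (hρ : ρ = δ * R / 4) (hM₁0 : 0 ≤ M₁) (hLB : 0 ≤ L * B)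
    (hα' : α ≤ 1 / 2) (hBR : B = b₀ * R ^ (-α)) {f S : ℂ → ℝ} {z : ℂ} {t : ℝ} (ht0 : 0 ≤ t) (htle : t ≤ 1)
    (hcf : ∀ w ∈ closedBall z ρ, ContDiffAt ℝ 2 f w) (hcS : ∀ w ∈ closedBall z ρ, ContDiffAt ℝ 2 S w) (hlf : ∀ w ∈ closedBall z ρ, |Δ f w| ≤ A₁ / R ^ 2)
    (hlS : ∀ w ∈ closedBall z ρ, |Δ S w| ≤ n * A₁ / R ^ 2) (hS : ∀ w ∈ closedBall z ρ, 0 < S w ∧ S w ≤ M₁ * R)
    (hq : ∀ w ∈ closedBall z ρ, |f w / S w - t| ≤ L * B) :
    ‖gc f z - (t : ℂ) * gc S z‖ ≤ Cg * (4 * M₁ * L * b₀ / δ + (1 + n) * A₁ * δ / 4) * R ^ (-α) := by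
  have hRp : 0 < R := by linarith
  have hρp : 0 < ρ := by
    rw [hρ]
    positivity
  have hzρ : z ∈ closedBall z ρ := mem_closedBall_self hρp.le
  have hdl : DifferentiableAt ℝ f z := (hcf z hzρ).differentiableAt (by norm_num)
  have hdS : DifferentiableAt ℝ S z := (hcS z hzρ).differentiableAt (by norm_num)
  rw [← et_gc_lin hdl hdS t]
  have h1 := hgrad (fun w => f w - t * S w) z ρ ((1 + n) * A₁ / R ^ 2) (M₁ * R * (L * B)) hρp (by positivity) (mul_nonneg (mul_nonneg hM₁0 hRp.le) hLB)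
    (fun w hw' => (hcf w hw').sub (contDiffAt_const.mul (hcS w hw'))) (fun w hw' => by
      rw [et_lap_lin (hcf w hw') (hcS w hw')]
      have g3 : |t * Δ S w| ≤ n * A₁ / R ^ 2 := by
        rw [abs_mul, abs_of_nonneg ht0]
        exact (mul_le_of_le_one_left (abs_nonneg _) htle).trans (hlS w hw')
      have g5 : (1 + n) * A₁ / R ^ 2 = A₁ / R ^ 2 + n * A₁ / R ^ 2 := by ring
      rw [g5]
      exact (abs_sub _ _).trans (add_le_add (hlf w hw') g3)) (fun w hw' => by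
      obtain ⟨s0, s2⟩ := hS w hw'
      have s1 : f w - t * S w = S w * (f w / S w - t) := by
        rw [mul_sub, mul_div_cancel₀ _ s0.ne', mul_comm t]
      rw [s1, abs_mul, abs_of_pos s0]
      exact mul_le_mul s2 (hq w hw') (abs_nonneg _) (mul_nonneg hM₁0 hRp.le))
  refine h1.trans ?_
  have r3 : 1 / R ≤ R ^ (-α) := by
    have h1 := Real.rpow_le_rpow_of_exponent_le hR1 (by linarith : (-1 : ℝ) ≤ -α)
    rw [Real.rpow_neg_one] at h1
    rwa [one_div]
  have h2 : M₁ * R * (L * B) = M₁ * (L * B) * R := by ring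
  rw [h2]
  refine (top_ar (M := M₁ * (L * B)) (n := 1 + n) hCg hδ (by linarith) hA₁0 hR1 hρ r3).trans (le_of_eq ?_)
  rw [hBR]
  ring

theorem top_grad (hΦ : Hyp Φ C c R₀) (hA : 0 < A) (hD : Dep Φ A c₂ C₂ R₂) (hR₂ : R₀ ≤ R₂) {α C' R' : ℝ} (hα : 0 < α) (hα' : α ≤ 1 / 2) (hC' : 0 < C')
    (hO : ∀ r, R' ≤ r → OscLe Φ (c₂ / (2 * C₂ + 1)) r (C' * r ^ (-α))) {δ : ℝ} (hδ : 0 < δ) (hδ' : δ ≤ 1 / 8) :
    ∃ C₃ R₃ : ℝ, 0 < C₃ ∧ 1 ≤ R₃ ∧ ∀ (x : X) (a : ℂ), a ∈ Φ.G x → ∀ (R e : ℝ) (u : ℂ) (β β' : ι → ℝ), R₃ ≤ R → Fit Φ x a (8 * R) e A u β β' →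
      e ≤ c₂ * δ * R / 4 → ∃ t : ι → ℝ, (∀ i, 0 ≤ t i) ∧ ∑ i, t i = 1 ∧ ∀ z ∈ closedBall a R, δ * R ≤ ht u a z →
        ‖gc (Φ.S x) z‖ ≤ C₃ ∧ ∀ i, ‖gc (Φ.lam x i) z - (t i : ℂ) * gc (Φ.S x) z‖ ≤ C₃ * R ^ (-α) := by
  obtain ⟨Cg, hCg, hgrad⟩ := grad_est
  have hc₂ := hD.c_pos
  have hC₂ := hD.C_ge
  have hC1 := hΦ.C_ge
  have hR₀1 := hΦ.R_ge
  obtain ⟨n, hn⟩ : ∃ n : ℝ, n = (Fintype.card ι : ℝ) := ⟨_, rfl⟩
  have hn0 : 0 ≤ n := by
    rw [hn]
    exact Nat.cast_nonneg _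
  obtain ⟨D₁, hD₁⟩ : ∃ D₁ : ℝ, D₁ = 3 / 4 * c₂ * δ := ⟨_, rfl⟩
  have hD₁p : 0 < D₁ := by
    rw [hD₁]
    positivity
  obtain ⟨M₁, hM₁⟩ : ∃ M₁ : ℝ, M₁ = n * (C * (1 + 2 * C₂)) := ⟨_, rfl⟩
  have hM₁0 : 0 ≤ M₁ := by
    rw [hM₁]
    positivity
  obtain ⟨A₁, hA₁⟩ : ∃ A₁ : ℝ, A₁ = C / D₁ ^ 2 := ⟨_, rfl⟩
  have hA₁0 : 0 ≤ A₁ := by
    rw [hA₁]
    positivity
  have hlogδ : 0 ≤ Real.log (4 / δ) := Real.log_nonneg (by rw [le_div_iff₀ hδ]; linarith)
  obtain ⟨L, hL⟩ : ∃ L : ℝ, L = 3 + 2 * Real.log (4 / δ) := ⟨_, rfl⟩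
  have hL0 : 0 ≤ L := by rw [hL]; linarith
  obtain ⟨b₀, hb₀⟩ : ∃ b₀ : ℝ, b₀ = C' * (δ / 2) ^ (-α) := ⟨_, rfl⟩
  have hb₀0 : 0 ≤ b₀ := by
    rw [hb₀]
    positivity
  obtain ⟨K₁, hK₁⟩ : ∃ K₁ : ℝ, K₁ = Cg * (4 * M₁ / δ + n * A₁ * δ / 4) := ⟨_, rfl⟩
  have hK₁0 : 0 ≤ K₁ := by
    rw [hK₁]
    positivity
  obtain ⟨K₂, hK₂⟩ : ∃ K₂ : ℝ, K₂ = Cg * (4 * M₁ * L * b₀ / δ + (1 + n) * A₁ * δ / 4) := ⟨_, rfl⟩
  have hK₂0 : 0 ≤ K₂ := by
    rw [hK₂]
    positivity
  have hR₂1 := hD.R_ge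
  have q1 : 0 ≤ 2 * R₂ / δ := by positivity
  have q2 : 0 ≤ 2 * R₀ / (c₂ * δ) := by positivity
  have q3 := abs_nonneg (2 * R' / δ)
  refine ⟨K₁ + K₂ + 1, 1 + |2 * R' / δ| + 2 * R₂ / δ + 2 * R₀ / (c₂ * δ), by positivity, by linarith, ?_⟩
  intro x a ha R e u β β' hR hfit he
  have hR1 : 1 ≤ R := by linarith
  have hRp : 0 < R := by linarith
  have hu : ‖u‖ = 1 := hfit.nu
  have hδR : 0 < δ * R := mul_pos hδ hRp
  obtain ⟨h, hh⟩ : ∃ h : ℝ, h = δ * R / 2 := ⟨_, rfl⟩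
  have hhp : 0 < h := by
    rw [hh]
    positivity
  have hR'h : R' ≤ h := by
    have h1 : 2 * R' / δ ≤ R := (le_abs_self _).trans (by linarith)
    rw [div_le_iff₀ hδ] at h1
    rw [hh]
    linarith
  have hR₂h : R₂ ≤ h := by
    have h1 : 2 * R₂ / δ ≤ R := by linarith
    rw [div_le_iff₀ hδ] at h1
    rw [hh]
    linarith
  have hR₀D : R₀ ≤ D₁ * R := by
    have h1 : 2 * R₀ / (c₂ * δ) ≤ R := by linarith
    rw [div_le_iff₀ (by positivity)] at h1
    have h2 : 0 ≤ c₂ * δ * R := by positivity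
    rw [hD₁]
    linarith
  have he' : e ≤ c₂ * (δ * R) / 4 := by
    rw [← mul_assoc]
    exact he
  clear q1 q2 q3 hR he hC1 hR₀1
  have heh : e ≤ c₂ * h := by
    have h2 : 0 ≤ c₂ * (δ * R) := mul_nonneg hc₂.le hδR.le
    rw [hh]
    linarith
  obtain ⟨B, hB⟩ : ∃ B : ℝ, B = C' * h ^ (-α) := ⟨_, rfl⟩
  have hB0 : 0 ≤ B := by
    rw [hB]
    positivity
  have hBR : B = b₀ * R ^ (-α) := by
    have e1 : h = δ / 2 * R := by rw [hh]; ring
    rw [hB, e1, Real.mul_rpow (by positivity) hRp.le, hb₀]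
    ring
  have hOB : ∀ r, h ≤ r → OscLe Φ (c₂ / (2 * C₂ + 1)) r B := by
    intro r hr
    refine (hO r (hR'h.trans hr)).mono ?_
    rw [hB]
    exact mul_le_mul_of_nonneg_left (Real.rpow_le_rpow_of_nonpos hhp hr (by linarith)) hC'.le
  have hfit' : Fit Φ x a (4 * (2 * R)) e A u β β' := by
    have e1 : 4 * (2 * R) = 8 * R := by ring
    rw [e1]
    exact hfit
  have hch := fun {w : ℂ} (hw : w ∈ closedBall a (2 * R)) (hw' : h ≤ ht u a w) (i : ι) =>
    chain hΦ hD hR₂ ha (by linarith : 1 ≤ 2 * R) hfit' hR₂h heh hB0 hOB hw hw' i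
  obtain ⟨p, hp⟩ : ∃ p : ℂ, p = a + ((2 * R : ℝ) : ℂ) * u := ⟨_, rfl⟩
  -- the depth at a point of large height
  have hdep : ∀ w ∈ closedBall a (2 * R), 3 / 4 * (δ * R) ≤ ht u a w → D₁ * R ≤ Φ.d x w ∧ Φ.d x w ≤ 2 * C₂ * R := by
    intro w hw hw'
    rw [hD₁]
    exact top_dep hD ha hδR.le hR1 hfit (hh ▸ hR₂h) he' hw hw'
  have hpt' : ∀ w ∈ closedBall a (2 * R), 3 / 4 * (δ * R) ≤ ht u a w → (Φ.S x w ≤ M₁ * R ∧ 0 < Φ.S x w) ∧
      (∀ i, ContDiffAt ℝ 2 (Φ.lam x i) w) ∧ ContDiffAt ℝ 2 (Φ.S x) w ∧ (∀ i, |Δ (Φ.lam x i) w| ≤ A₁ / R ^ 2) ∧ |Δ (Φ.S x) w| ≤ n * A₁ / R ^ 2 := by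
    intro w hw hw'
    rw [hM₁, hA₁, hn]
    obtain ⟨g1, g2⟩ := hdep w hw hw'
    exact top_pt hΦ hD₁p hRp hR1 hR₀D g1 g2
  have hpb : p ∈ closedBall a (2 * R) := by
    rw [mem_closedBall, dist_eq_norm, hp, add_sub_cancel_left, norm_mul, hu, mul_one, Complex.norm_real, Real.norm_of_nonneg (by positivity)]
  have hpt : ht u a p = 2 * R := by
    rw [hp, ht_add hu, et_ht_self, zero_add]
  have hδR8 : δ * R ≤ 1 / 8 * R := mul_le_mul_of_nonneg_right hδ' hRp.le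
  have hpS : 0 < Φ.S x p := (hpt' p hpb (by rw [hpt]; linarith)).1.2
  obtain ⟨t, ht'⟩ : ∃ t : ι → ℝ, t = fun i => Φ.lam x i p / Φ.S x p := ⟨_, rfl⟩
  have ht0 : ∀ i, 0 ≤ t i := fun i => by
    rw [ht']
    exact div_nonneg (hΦ.nn x i p) hpS.le
  have ht1 : ∑ i, t i = 1 := by
    rw [ht']
    simp only
    rw [← Finset.sum_div]
    exact div_self hpS.ne'
  have htle : ∀ i, t i ≤ 1 := by
    intro i
    rw [← ht1]
    exact Finset.single_le_sum (fun j _ => ht0 j) (Finset.mem_univ i)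
  refine ⟨t, ht0, ht1, fun z hz hz' => ?_⟩
  obtain ⟨ρ, hρ⟩ : ∃ ρ : ℝ, ρ = δ * R / 4 := ⟨_, rfl⟩
  have hρp : 0 < ρ := by
    rw [hρ]
    positivity
  -- the points of the small disc
  have hw : ∀ w ∈ closedBall z ρ, w ∈ closedBall a (2 * R) ∧ 3 / 4 * (δ * R) ≤ ht u a w := by
    intro w hw
    have h1 : ‖w - z‖ ≤ ρ := by simpa [dist_eq_norm] using hw
    have h2 : ‖z - a‖ ≤ R := by simpa [dist_eq_norm] using hz
    rw [hρ] at h1
    refine ⟨?_, ?_⟩
    · rw [mem_closedBall, dist_eq_norm]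
      have h4 : ‖w - a‖ ≤ ‖w - z‖ + ‖z - a‖ := by
        have := norm_add_le (w - z) (z - a)
        rwa [sub_add_sub_cancel] at this
      linarith
    · have h4 := et_ht_sub u a z w
      have h5 := (abs_le.1 (abs_ht_le hu z w)).1
      linarith
  have hq : ∀ w ∈ closedBall z ρ, ∀ i, |Φ.lam x i w / Φ.S x w - t i| ≤ L * B := by
    intro w hw' i
    have hht := (hw w hw').2
    have hp1 : 0 < ht u a w := by linarith
    have s2 := hch (hw w hw').1 (by rw [hh]; linarith) i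
    rw [← hp] at s2
    have s3 : Real.log (2 * R / ht u a w) ≤ Real.log (4 / δ) := by
      refine Real.log_le_log (by positivity) ?_
      rw [div_le_div_iff₀ hp1 hδ]
      linarith
    rw [ht']
    refine s2.trans (mul_le_mul_of_nonneg_right ?_ hB0)
    rw [hL]
    linarith
  have hRα0 : 0 ≤ R ^ (-α) := Real.rpow_nonneg hRp.le _
  refine ⟨?_, fun i => ?_⟩
  · have h1 := hgrad (Φ.S x) z ρ (n * A₁ / R ^ 2) (M₁ * R) hρp (by positivity) (by positivity)
      (fun w hw' => (hpt' w (hw w hw').1 (hw w hw').2).2.2.1) (fun w hw' => (hpt' w (hw w hw').1 (hw w hw').2).2.2.2.2) fun w hw' => by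
        have h2 := (hpt' w (hw w hw').1 (hw w hw').2).1
        rw [abs_of_pos h2.2]
        exact h2.1
    have h2 := top_ar (M := M₁) (n := n) hCg hδ hn0 hA₁0 hR1 hρ (θ := 1) ((div_le_one hRp).2 hR1)
    rw [mul_one, ← hK₁] at h2
    linarith
  · have h1 := top_one hCg hgrad (n := n) (A₁ := A₁) (M₁ := M₁) (L := L) (B := B) (b₀ := b₀) (f := Φ.lam x i) (S := Φ.S x) (z := z) hn0 hA₁0 hδ hR1 hρ
      hM₁0 (mul_nonneg hL0 hB0) hα' hBR (ht0 i) (htle i) (fun w hw' => (hpt' w (hw w hw').1 (hw w hw').2).2.1 i)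
      (fun w hw' => (hpt' w (hw w hw').1 (hw w hw').2).2.2.1) (fun w hw' => (hpt' w (hw w hw').1 (hw w hw').2).2.2.2.1 i)
      (fun w hw' => (hpt' w (hw w hw').1 (hw w hw').2).2.2.2.2) (fun w hw' => ((hpt' w (hw w hw').1 (hw w hw').2).1).symm) (fun w hw' => hq w hw' i)
    rw [← hK₂] at h1
    exact h1.trans (mul_le_mul_of_nonneg_right (by linarith) hRα0)

end Pool.Agent.SR3.BE

end
end
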