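import Pool.Agent.H43.TL2.H62.EF.PrA_1
import Pool.Agent.H43.TL2.SR3.GDefs_1

/-! The parts of this file: SR3.Circ, SR3.LimCEnd, SR3.LimE. -/

section

/-!
# SR3 Circ: circles which avoid the holes, and the winding numbers on the rims

`exists_good_circle`: a circle about `w`, of radius between `r / 2` and `r`, whose points are `Far`; the holes inside lie well inside; the closed disc meets only these.
`wnd_circle`: the winding number of a rim in the original variable.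
-/

set_option autoImplicit false

open Topology Filter Metric

noncomputable section

namespace Pool.Agent.SR3

open Pool.Agent.H36.BP (EN fs wd Sub OrdTwo)
open Pool.Agent.H62.EF (MN pr)
open Pool.Agent.G3 (LLift)

variable {N : ℕ} {G : Geo N}

/-- the radial projection of `a` to a circle -/
theorem exists_radial (w a : ℂ) {ρ : ℝ} (hρ : 0 < ρ) : ∃ ζ, ‖ζ - w‖ = ρ ∧ ‖ζ - a‖ = |ρ - ‖a - w‖| := by
  by_cases h : a = w
  · refine ⟨w + ρ, ?_, ?_⟩
    · rw [add_sub_cancel_left, Complex.norm_real, Real.norm_of_nonneg hρ.le]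
    · rw [h, add_sub_cancel_left, sub_self, norm_zero, sub_zero, Complex.norm_real, Real.norm_eq_abs]
  · have hm : 0 < ‖a - w‖ := norm_pos_iff.2 (sub_ne_zero.2 h)
    refine ⟨w + ((ρ / ‖a - w‖ : ℝ) : ℂ) * (a - w), ?_, ?_⟩
    · rw [add_sub_cancel_left, norm_mul, Complex.norm_real, Real.norm_of_nonneg (by positivity), div_mul_cancel₀ _ hm.ne']
    · have h1 : w + ((ρ / ‖a - w‖ : ℝ) : ℂ) * (a - w) - a = ((ρ / ‖a - w‖ - 1 : ℝ) : ℂ) * (a - w) := by
        push_cast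
        ring
      rw [h1, norm_mul, Complex.norm_real, Real.norm_eq_abs]
      have h2 : |ρ / ‖a - w‖ - 1| * ‖a - w‖ = |(ρ / ‖a - w‖ - 1) * ‖a - w‖| := by
        rw [abs_mul, abs_of_pos hm]
      rw [h2, sub_mul, div_mul_cancel₀ _ hm.ne', one_mul]

/-- a circle which avoids the holes -/
theorem exists_good_circle {t : Finset ℂ} {s : ℂ → ℝ} {w : ℂ} {R r : ℝ} (hr : 0 < r) (hrR : 2 * r ≤ R) (hr1 : r ≤ 1 / 2) (hs : ∀ a ∈ t, 0 < s a)
    (hsm : 4 * ∑ a ∈ t.filter (fun a => ‖a - w‖ < R), √(s a) < r) (hfar : ∀ a ∈ t, R ≤ ‖a - w‖ → ‖a - w‖ < 2 → √(s a) ≤ R / 2)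
    (hout : ∀ a ∈ t, R ≤ ‖a - w‖ → s a ≤ ‖a - w‖ / 2) :
    ∃ ρ, r / 2 < ρ ∧ ρ < r ∧ (∀ ζ, ‖ζ - w‖ = ρ → Far t s ζ) ∧ (∀ a ∈ t, ‖a - w‖ < ρ → ‖a - w‖ + 2 * s a < ρ) ∧
      (∀ ζ ∈ closedBall w ρ, Off (t.filter (fun a => ‖a - w‖ < ρ)) s ζ → Off t s ζ) ∧ ∀ ζ, ‖ζ - w‖ = ρ → Off t s ζ := by
  obtain ⟨ρ, h1, h2, h3⟩ := exists_rad (t.filter (fun a => ‖a - w‖ < R)) (fun a => √(s a)) w (a := r / 2) (b := r) (fun k _ => Real.sqrt_nonneg _) (by linarith)
  have hρ : 0 < ρ := by linarith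
  have hle : ∀ a ∈ t, ‖a - w‖ < R → √(s a) ≤ r / 4 := by
    intro a ha haR
    have h4 : √(s a) ≤ ∑ a ∈ t.filter (fun a => ‖a - w‖ < R), √(s a) :=
      Finset.single_le_sum (f := fun a => √(s a)) (fun a _ => Real.sqrt_nonneg _) (Finset.mem_filter.2 ⟨ha, haR⟩)
    linarith
  -- the radial distance of the near holes
  have hrad : ∀ a ∈ t, ‖a - w‖ < R → √(s a) ≤ |ρ - ‖a - w‖| := by
    intro a ha haR
    obtain ⟨ζ, h4, h5⟩ := exists_radial w a hρ
    rw [← h5]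
    exact h3 a (Finset.mem_filter.2 ⟨ha, haR⟩) ζ h4
  have hsq : ∀ a ∈ t, ‖a - w‖ < R → 2 * s a < √(s a) := by
    intro a ha haR
    have h4 := hle a ha haR
    have h5 : 0 < √(s a) := Real.sqrt_pos.2 (hs a ha)
    have h6 : √(s a) * √(s a) = s a := Real.mul_self_sqrt (hs a ha).le
    nlinarith
  have hin : ∀ a ∈ t, ‖a - w‖ < ρ → ‖a - w‖ + 2 * s a < ρ := by
    intro a ha har
    have h4 := hrad a ha (by linarith)
    rw [abs_of_pos (by linarith)] at h4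
    have h5 := hsq a ha (by linarith)
    linarith
  have hoff : ∀ ζ ∈ closedBall w ρ, Off (t.filter (fun a => ‖a - w‖ < ρ)) s ζ → Off t s ζ := by
    intro ζ hζ ho a ha
    have hζ' : ‖ζ - w‖ ≤ ρ := mem_closedBall_iff_norm.1 hζ
    have htri : ‖a - w‖ ≤ ‖ζ - a‖ + ‖ζ - w‖ := by
      have h4 := norm_sub_le (ζ - w) (ζ - a)
      have h5 : (ζ - w) - (ζ - a) = a - w := by ring
      rw [h5] at h4
      linarith
    rcases lt_or_ge ‖a - w‖ ρ with har | har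
    · exact ho a (Finset.mem_filter.2 ⟨ha, har⟩)
    · rcases lt_or_ge ‖a - w‖ R with haR | haR
      · have h4 := hrad a ha haR
        rw [abs_of_nonpos (by linarith)] at h4
        have h5 := hsq a ha haR
        have h6 := hs a ha
        linarith
      · have h4 := hout a ha haR
        linarith
  refine ⟨ρ, h1, h2, ?_, hin, hoff, ?_⟩
  · intro ζ hζ a ha ha1
    have htri : ‖a - w‖ ≤ ‖ζ - a‖ + ‖ζ - w‖ := by
      have h4 := norm_sub_le (ζ - w) (ζ - a)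
      have h5 : (ζ - w) - (ζ - a) = a - w := by ring
      rw [h5] at h4
      linarith
    rcases lt_or_ge ‖a - w‖ R with haR | haR
    · exact h3 a (Finset.mem_filter.2 ⟨ha, haR⟩) ζ hζ
    · have h4 := hfar a ha haR (by linarith)
      linarith
  · intro ζ hζ
    refine hoff ζ (mem_closedBall_iff_norm.2 hζ.le) fun a ha => ?_
    rw [Finset.mem_filter] at ha
    have h4 := hin a ha.1 ha.2
    have h5 := norm_sub_norm_le (ζ - w) (a - w)
    have h6 : (ζ - w) - (a - w) = ζ - a := by ring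
    rw [h6] at h5
    have h7 := hs a ha.1
    linarith

/-- the circles about a point of `U`; `σ` bounds the sum of the radii `√s` of the holes near the point -/
theorem loc_circle {Y : Finset (EN N)} {B₃ B₄ ε K ε₂ : ℝ} {𝒰 : Ultrafilter ℕ} {U : Set ℂ} {Γ : ℕ → ℂ → EN N} {t : ℕ → Finset ℂ} {s : ℕ → ℂ → ℝ} {y : ℕ → ℂ → EN N}
    (hL : G.Loc Y B₃ B₄ ε K ε₂ 𝒰 U Γ t s y) {z₁ : ℂ} (hz : z₁ ∈ U) : ∃ R : ℝ, 0 < R ∧ ∀ r : ℝ, 0 < r → r ≤ R → ∀ᶠ n in (𝒰 : Filter ℕ),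
      ∃ ρ, r / 2 < ρ ∧ ρ < r ∧ (∀ ζ, ‖ζ - z₁‖ = ρ → Far (t n) (s n) ζ) ∧ (∀ a ∈ t n, ‖a - z₁‖ < ρ → ‖a - z₁‖ + 2 * s n a < ρ) ∧
        (∀ ζ ∈ closedBall z₁ ρ, Off ((t n).filter (fun a => ‖a - z₁‖ < ρ)) (s n) ζ → Off (t n) (s n) ζ) ∧ ∀ ζ, ‖ζ - z₁‖ = ρ → Off (t n) (s n) ζ := by
  obtain ⟨R, hR, hsm⟩ := hL.small z₁ hz
  refine ⟨min (R / 2) (1 / 2), by positivity, fun r hr hrR => ?_⟩
  have h1 : r ≤ R / 2 := hrR.trans (min_le_left _ _)
  have h2 : r ≤ 1 / 2 := hrR.trans (min_le_right _ _)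
  filter_upwards [hL.out_sqrt hz hR, hsm.eventually (gt_mem_nhds (show (0 : ℝ) < r / 4 by positivity))] with n h3 h4
  exact exists_good_circle hr (by linarith) h2 (hL.pos n) (by linarith) (fun a ha haR ha2 => ((h3 a ha haR).2 ha2.le).1) fun a ha haR => (h3 a ha haR).1

/-- the change of variables in a circle integral -/
theorem circle_resc (g : ℂ → ℂ) (a : ℂ) (s : ℝ) : (∮ ζ in C(a, s), g ζ) = ∮ w in C(0, 1), (s : ℂ) * g (a + s * w) := by
  unfold circleIntegral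
  refine intervalIntegral.integral_congr fun θ _ => ?_
  simp only [deriv_circleMap, smul_eq_mul]
  have h1 : a + s * circleMap 0 1 θ = circleMap a s θ := by
    unfold circleMap
    push_cast
    ring
  have h2 : circleMap 0 s θ = s * circleMap 0 1 θ := by
    unfold circleMap
    push_cast
    ring
  rw [h1, h2]
  ring

/-- the winding number of a rim, in the original variable -/
theorem wnd_circle (G : Geo N) (Γ : ℂ → EN N) (y : EN N) (i : G.ι) (l : Fin (G.M + 1)) (a : ℂ) (s : ℝ) :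
    (∮ ζ in C(a, s), (logDeriv (fun ζ => (G.E i (Γ ζ)).ofLp l) ζ - G.c i * logDeriv (fun ζ => (inner ℂ y (Γ ζ) : ℂ)) ζ)) =
      G.wnd (fun w => Γ (a + s * w)) y i l 1 := by
  have hd : ∀ (f : ℂ → ℂ) (w : ℂ), logDeriv (fun w => f (a + s * w)) w = s * logDeriv f (a + s * w) := by
    intro f w
    rw [logDeriv_apply, logDeriv_apply]
    have h1 : deriv (fun w => f (a + s * w)) w = (s : ℂ) • deriv f (a + s * w) := by
      have h2 := deriv_comp_mul_left (s : ℂ) (fun u => f (a + u)) w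
      rw [deriv_comp_const_add] at h2
      exact h2
    rw [h1, smul_eq_mul, mul_div_assoc]
  rw [circle_resc]
  unfold Geo.wnd
  congr 1
  funext w
  rw [hd (fun ζ => (G.E i (Γ ζ)).ofLp l) w, hd (fun ζ => (inner ℂ y (Γ ζ) : ℂ)) w]
  ring

end Pool.Agent.SR3

end
end

section

/-!
# SR3 LimCEnd: a limit which is in two components of the boundary near a point is constant

`E i` and `E i'` vanish on the limit near `z₁`: it has finitely many values there (`Bdry.two`), so it is constant near `z₁`; the identity theorem for the lifts.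
-/

set_option autoImplicit false

open Topology Filter Metric

noncomputable section

namespace Pool.Agent.SR3

open Pool.Agent.H36.BP (EN fs wd Sub OrdTwo)
open Pool.Agent.H62.EF (MN pr continuousAt_pr pr_eq_iff)
open Pool.Agent.G3 (LLift)

variable {N : ℕ}

theorem LLift.continuousAt {f : ℂ → MN N} {z : ℂ} (h : LLift f z) : ContinuousAt f z := by
  obtain ⟨Φ, hΦ, he⟩ := h
  have h1 : ContinuousAt (fun w => pr (Φ w)) z := ContinuousAt.comp (g := pr) (continuousAt_pr he.self_of_nhds.1) hΦ.continuousAt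
  refine h1.congr ?_
  filter_upwards [he] with w hw
  exact hw.2.symm

/-- the identity theorem for curves in the projective space and constants -/
theorem llift_const {U : Set ℂ} (hc : IsPreconnected U) {f : ℂ → MN N} (hl : ∀ z ∈ U, LLift f z) {z₁ : ℂ} (hz : z₁ ∈ U)
    (h : ∀ᶠ w in 𝓝 z₁, f w = f z₁) : ∀ z ∈ U, f z = f z₁ := by
  obtain ⟨Φ₁, -, he₁⟩ := hl z₁ hz
  obtain ⟨hx₁, hfx₁⟩ := he₁.self_of_nhds
  set x₁ : EN N := Φ₁ z₁ with hx₁'
  set A : Set ℂ := {z | ∀ᶠ w in 𝓝 z, f w = f z₁} with hA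
  have hAo : IsOpen A := by
    rw [isOpen_iff_mem_nhds]
    intro z hzA
    exact eventually_eventually_nhds.2 hzA
  have hAc : ∀ z ∈ U, z ∈ closure A → z ∈ A := by
    intro z hzU hzA
    obtain ⟨Φ, hΦ, he⟩ := hl z hzU
    -- the coordinates of the wedge product with `x₁`
    have h1 : ∀ l m : Fin (N + 1), AnalyticAt ℂ (fun w => Φ w l * x₁ m - Φ w m * x₁ l) z := by
      intro l m
      have h2 : ∀ l : Fin (N + 1), AnalyticAt ℂ (fun w => Φ w l) z := fun l =>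
        ((EuclideanSpace.proj l : EN N →L[ℂ] ℂ).analyticAt _).comp hΦ
      exact ((h2 l).mul analyticAt_const).sub ((h2 m).mul analyticAt_const)
    have h3 : ∃ᶠ w in 𝓝[≠] z, f w = f z₁ := by
      have h4 : ∃ᶠ w in 𝓝 z, w ∈ A := mem_closure_iff_frequently.1 hzA
      intro hcon
      rw [eventually_nhdsWithin_iff] at hcon
      have h5 : ∀ᶠ w in 𝓝 z, w ∉ A := by
        filter_upwards [eventually_eventually_nhds.2 hcon] with w hw hwA
        have h6 : ∀ᶠ v in 𝓝[≠] w, v ≠ z := by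
          by_cases hwz : w = z
          · subst hwz
            exact eventually_mem_nhdsWithin
          · exact (nhdsWithin_le_nhds) (isOpen_ne.mem_nhds hwz)
        have h7 : ∀ᶠ v in 𝓝[≠] w, False := by
          filter_upwards [h6, nhdsWithin_le_nhds hw, nhdsWithin_le_nhds hwA] with v hv1 hv2 hv3
          exact hv2 hv1 hv3
        exact h7.exists.elim fun _ h => h
      exact h4 h5
    have h8 : ∀ l m : Fin (N + 1), ∀ᶠ w in 𝓝 z, Φ w l * x₁ m - Φ w m * x₁ l = 0 := by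
      intro l m
      refine (h1 l m).frequently_zero_iff_eventually_zero.1 ?_
      refine (h3.and_eventually (nhdsWithin_le_nhds he)).mono fun w hw => ?_
      obtain ⟨hw1, hw2, hw3⟩ := hw
      obtain ⟨c, -, hc⟩ := (pr_eq_iff hw2 hx₁).1 (by rw [← hw3, hw1, hfx₁])
      rw [hc]
      simp only [PiLp.smul_apply, smul_eq_mul]
      ring
    have h9 : ∀ᶠ w in 𝓝 z, ∀ l m : Fin (N + 1), Φ w l * x₁ m - Φ w m * x₁ l = 0 :=
      eventually_all.2 fun l => eventually_all.2 fun m => h8 l m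
    obtain ⟨m, hm⟩ : ∃ m, x₁ m ≠ 0 := by
      by_contra hcon
      push Not at hcon
      exact hx₁ (PiLp.ext hcon)
    change ∀ᶠ w in 𝓝 z, f w = f z₁
    filter_upwards [he, h9] with w hw1 hw2
    rw [hw1.2, hfx₁, pr_eq_iff hw1.1 hx₁]
    have h10 : ∀ l, Φ w l = Φ w m / x₁ m * x₁ l := by
      intro l
      have := hw2 l m
      field_simp
      linear_combination this
    refine ⟨Φ w m / x₁ m, fun h0 => hw1.1 (PiLp.ext fun l => ?_), PiLp.ext fun l => ?_⟩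
    · rw [h10 l, h0, zero_mul]
      rfl
    · rw [h10 l]
      rfl
  have hsub : U ⊆ A := hc.subset_of_closure_inter_subset hAo ⟨z₁, hz, h⟩ fun z hz => hAc z hz.2 hz.1
  exact fun z hzU => (hsub hzU : ∀ᶠ w in 𝓝 z, f w = f z₁).self_of_nhds

/-- the limit is constant if it is in two components of the boundary near one point -/
theorem lim_two {G : Geo N} (hB : G.Bdry) {U : Set ℂ} (hU : IsOpen U) (hc : IsPreconnected U) {f : ℂ → MN N} (hl : ∀ z ∈ U, LLift f z)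
    (hb : ∀ z ∈ U, ∀ x : EN N, x ≠ 0 → f z = pr x → x ∈ G.X ∧ x ∉ G.K) {z₁ : ℂ} (hz : z₁ ∈ U) {i i' : G.ι} (hi : i ≠ i')
    (h : ∀ᶠ z in 𝓝 z₁, ∀ x : EN N, x ≠ 0 → f z = pr x → G.E i x = 0 ∧ G.E i' x = 0) : ∀ z ∈ U, f z = f z₁ := by
  refine llift_const hc hl hz ?_
  set S : Set (MN N) := {P : MN N | ∃ y ∈ G.X, y ∉ G.K ∧ G.E i y = 0 ∧ G.E i' y = 0 ∧ P = pr y} with hS
  have hfin : S.Finite := hB.two i i' hi
  have h1 : ∀ᶠ z in 𝓝 z₁, f z ∈ S := by
    obtain ⟨Φ, -, he⟩ := hl z₁ hz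
    filter_upwards [h, he, hU.mem_nhds hz] with z hz1 hz2 hz3
    obtain ⟨h4, h5⟩ := hz1 (Φ z) hz2.1 hz2.2
    obtain ⟨h6, h7⟩ := hb z hz3 (Φ z) hz2.1 hz2.2
    exact ⟨Φ z, h6, h7, h4, h5, hz2.2⟩
  have h2 : IsClosed (S \ {f z₁}) := (hfin.subset Set.sdiff_subset).isClosed
  have h3 : ∀ᶠ z in 𝓝 z₁, f z ∉ S \ {f z₁} :=
    (LLift.continuousAt (hl z₁ hz)).eventually (h2.isOpen_compl.mem_nhds fun h4 => h4.2 rfl)
  filter_upwards [h1, h3] with z hz1 hz2
  by_contra hne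
  exact hz2 ⟨hz1, hne⟩

end Pool.Agent.SR3

end
end

section

/-!
# SR3 LimE: the limit at an accumulation point of holes with an end at a crossing

`eqf v i l`: the local equation `(E i x) l / ⟪v, x⟫ ^ c i`, a function of the point of the projective space.  If holes with the end `v` accumulate at `z₁`, then all
holes near `z₁` have the end `v`, the curve is near `v` off the holes.  If `E i` is not zero at `f z₁`, then `eqf` is almost constant on a circle about `z₁` which avoids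
the holes: winding number `0`, against `circle_sum` and `Rim.wind`.
-/

set_option autoImplicit false

open Topology Filter Metric

noncomputable section

namespace Pool.Agent.SR3

open Pool.Agent.H36.BP (EN fs wd Sub OrdTwo)
open Pool.Agent.H62.EF (MN pr nm_close near_of_pr)
open Pool.Agent.G3 (LLift)

variable {N : ℕ} {G : Geo N}

/-- the local equation as a function of the point of the projective space -/
def eqf (v : EN N) (i : G.ι) (l : Fin (G.M + 1)) (x : EN N) : ℂ := (G.E i x).ofLp l / (inner ℂ v x) ^ G.c i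

theorem eqf_smul (hG : G.Ok) (v : EN N) (i : G.ι) (l : Fin (G.M + 1)) (x : EN N) {c : ℂ} (hc : c ≠ 0) : eqf v i l (c • x) = eqf v i l x := by
  unfold eqf
  rw [hG.smulE, inner_smul_right, mul_pow]
  show c ^ G.c i * (G.E i x).ofLp l / _ = _
  exact mul_div_mul_left _ _ (pow_ne_zero _ hc)

theorem analyticAt_numE (hG : G.Ok) (i : G.ι) (l : Fin (G.M + 1)) (x : EN N) : AnalyticAt ℂ (fun x => (G.E i x).ofLp l) x :=
  ((EuclideanSpace.proj (𝕜 := ℂ) l : EN G.M →L[ℂ] ℂ).analyticAt _).comp (hG.anE i x)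

theorem analyticAt_eqf (hG : G.Ok) {v : EN N} (i : G.ι) (l : Fin (G.M + 1)) {x : EN N} (hv : (inner ℂ v x : ℂ) ≠ 0) : AnalyticAt ℂ (fun x => eqf (G := G) v i l x) x :=
  (analyticAt_numE hG i l x).div (((innerSL ℂ v).analyticAt x).pow _) (pow_ne_zero _ hv)

/-- the logarithmic derivative of the local equation along a curve -/
theorem logDeriv_eqf (hG : G.Ok) {Γ : ℂ → EN N} (hΓ : Differentiable ℂ Γ) {v : EN N} (i : G.ι) (l : Fin (G.M + 1)) {ζ : ℂ} (h0 : (G.E i (Γ ζ)).ofLp l ≠ 0)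
    (hv : (inner ℂ v (Γ ζ) : ℂ) ≠ 0) : AnalyticAt ℂ (fun ζ => eqf (G := G) v i l (Γ ζ)) ζ ∧
      logDeriv (fun ζ => eqf (G := G) v i l (Γ ζ)) ζ = logDeriv (fun ζ => (G.E i (Γ ζ)).ofLp l) ζ - G.c i * logDeriv (fun ζ => (inner ℂ v (Γ ζ) : ℂ)) ζ := by
  have hΓa : AnalyticAt ℂ Γ ζ := hΓ.analyticAt ζ
  have hn : AnalyticAt ℂ (fun ζ => (G.E i (Γ ζ)).ofLp l) ζ := (analyticAt_numE hG i l (Γ ζ)).comp hΓa
  have hd : AnalyticAt ℂ (fun ζ => (inner ℂ v (Γ ζ) : ℂ)) ζ := ((innerSL ℂ v).analyticAt (Γ ζ)).comp hΓa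
  refine ⟨hn.div (hd.pow _) (pow_ne_zero _ hv), ?_⟩
  have h1 := logDeriv_div (f := fun ζ => (G.E i (Γ ζ)).ofLp l) (g := fun ζ => (inner ℂ v (Γ ζ) : ℂ) ^ G.c i) ζ h0 (pow_ne_zero _ hv) hn.differentiableAt
    (hd.pow _).differentiableAt
  have h2 : logDeriv (fun ζ => (inner ℂ v (Γ ζ) : ℂ) ^ G.c i) ζ = G.c i * logDeriv (fun ζ => (inner ℂ v (Γ ζ) : ℂ)) ζ := logDeriv_fun_pow hd.differentiableAt _
  rw [h2] at h1
  exact h1

/-- the logarithmic derivative of the local equation is holomorphic -/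
theorem diff_lf (hG : G.Ok) {Γ : ℂ → EN N} (hΓ : Differentiable ℂ Γ) {v : EN N} (i : G.ι) (l : Fin (G.M + 1)) {ζ : ℂ} (h0 : (G.E i (Γ ζ)).ofLp l ≠ 0)
    (hv : (inner ℂ v (Γ ζ) : ℂ) ≠ 0) :
    DifferentiableAt ℂ (fun ζ => logDeriv (fun ζ => (G.E i (Γ ζ)).ofLp l) ζ - G.c i * logDeriv (fun ζ => (inner ℂ v (Γ ζ) : ℂ)) ζ) ζ := by
  have hΓa : AnalyticAt ℂ Γ ζ := hΓ.analyticAt ζ
  have hn : AnalyticAt ℂ (fun ζ => (G.E i (Γ ζ)).ofLp l) ζ := (analyticAt_numE hG i l (Γ ζ)).comp hΓa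
  have hd : AnalyticAt ℂ (fun ζ => (inner ℂ v (Γ ζ) : ℂ)) ζ := ((innerSL ℂ v).analyticAt (Γ ζ)).comp hΓa
  have h1 : AnalyticAt ℂ (logDeriv (fun ζ => (G.E i (Γ ζ)).ofLp l)) ζ := hn.deriv.div hn h0
  have h2 : AnalyticAt ℂ (logDeriv (fun ζ => (inner ℂ v (Γ ζ) : ℂ))) ζ := hd.deriv.div hd hv
  exact (h1.sub (analyticAt_const.mul h2)).differentiableAt

/-- the radius `ε₁` -/
structure LimEps (G : Geo N) (Y : Finset (EN N)) (ε₁ : ℝ) : Prop where
  pos : 0 < ε₁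
  sep : ∀ y ∈ Y, ∀ y' ∈ Y, y ≠ y' → 2 * ε₁ ≤ dist (pr y) (pr y')
  loc : ∀ y ∈ Y, ∀ i, G.E i y = 0 → ∃ l, G.LocEq (2 * ε₁) y i l
  inn : ∀ y ∈ Y, ∀ x : EN N, x ≠ 0 → dist (pr x) (pr y) < 2 * ε₁ → (inner ℂ y x : ℂ) ≠ 0
  two : ∀ y ∈ Y, ∀ i i', i ≠ i' → ∀ x ∈ G.X, x ∉ G.K → G.E i x = 0 → G.E i' x = 0 → dist (pr x) (pr y) < 2 * ε₁ → pr x = pr y

theorem exists_limEps (hG : G.Ok) (hB : G.Bdry) {Y : Finset (EN N)} (hY : G.Ends Y) : ∃ ε₁, LimEps G Y ε₁ := by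
  have hev : ∀ d : ℝ, 0 < d → ∀ᶠ ε in 𝓝[>] (0 : ℝ), 2 * ε ≤ d := by
    intro d hd
    filter_upwards [Ioo_mem_nhdsGT (show (0 : ℝ) < d / 2 by positivity)] with ε hε
    have := hε.2
    linarith
  have hX0 : ∀ x ∈ G.X, x ≠ 0 := fun x hx h => hG.cone.zero_notMem (h ▸ hx)
  have h1 : ∀ᶠ ε in 𝓝[>] (0 : ℝ), ∀ y ∈ Y, ∀ y' ∈ Y, y ≠ y' → 2 * ε ≤ dist (pr y) (pr y') := by
    refine (Filter.eventually_all_finset Y).2 fun y hy => (Filter.eventually_all_finset Y).2 fun y' hy' => ?_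
    by_cases h : y = y'
    · exact Eventually.of_forall fun ε hn => absurd h hn
    · have h2 : 0 < dist (pr y) (pr y') := dist_pos.2 fun h3 => h (hY.inj y hy y' hy' h3)
      filter_upwards [hev _ h2] with ε hε _
      exact hε
  have h2 : ∀ᶠ ε in 𝓝[>] (0 : ℝ), ∀ y ∈ Y, ∀ i, G.E i y = 0 → ∃ l, G.LocEq (2 * ε) y i l := by
    refine (Filter.eventually_all_finset Y).2 fun y hy => Filter.eventually_all.2 fun i => ?_
    by_cases h : G.E i y = 0
    · obtain ⟨l, r, c, hr, hc, h3⟩ := hB.loc y (hY.mem y hy).1 (hY.mem y hy).2 i h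
      filter_upwards [hev _ hr] with ε hε _
      exact ⟨l, c, hc, fun x hx hd => h3 x hx (hd.trans_le hε)⟩
    · exact Eventually.of_forall fun ε hn => absurd hn h
  have h3 : ∀ᶠ ε in 𝓝[>] (0 : ℝ), ∀ y ∈ Y, ∀ x : EN N, x ≠ 0 → dist (pr x) (pr y) < 2 * ε → (inner ℂ y x : ℂ) ≠ 0 := by
    refine (Filter.eventually_all_finset Y).2 fun y hy => ?_
    obtain ⟨δ, hδ, h4⟩ := nm_close (hX0 y (hY.mem y hy).1) one_pos
    filter_upwards [hev _ hδ] with ε hε x hx hd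
    exact (h4 x hx (hd.trans_le hε)).1
  have h4 : ∀ᶠ ε in 𝓝[>] (0 : ℝ), ∀ y ∈ Y, ∀ i i', i ≠ i' → ∀ x ∈ G.X, x ∉ G.K → G.E i x = 0 → G.E i' x = 0 → dist (pr x) (pr y) < 2 * ε → pr x = pr y := by
    refine (Filter.eventually_all_finset Y).2 fun y hy => Filter.eventually_all.2 fun i => Filter.eventually_all.2 fun i' => ?_
    by_cases h : i = i'
    · exact Eventually.of_forall fun ε hn => absurd h hn
    · have h5 : ∀ᶠ ε in 𝓝[>] (0 : ℝ), ∀ P ∈ {P : MN N | ∃ y ∈ G.X, y ∉ G.K ∧ G.E i y = 0 ∧ G.E i' y = 0 ∧ P = pr y}, P ≠ pr y → 2 * ε ≤ dist P (pr y) := by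
        refine (Filter.eventually_all_finite (hB.two i i' h)).2 fun P _ => ?_
        by_cases h6 : P = pr y
        · exact Eventually.of_forall fun ε hn => absurd h6 hn
        · filter_upwards [hev _ (dist_pos.2 h6)] with ε hε _
          exact hε
      filter_upwards [h5] with ε hε _ x hx hxK hi hi' hd
      by_contra hne
      exact absurd hd (not_lt.2 (hε (pr x) ⟨x, hx, hxK, hi, hi', rfl⟩ hne))
  obtain ⟨ε, ⟨⟨⟨⟨h5, h6⟩, h7⟩, h8⟩, h9⟩⟩ := ((((h1.and h2).and h3).and h4).and self_mem_nhdsWithin).exists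
  exact ⟨ε, h9, h5, h6, h7, h8⟩

/-- a hole near `z₁` has the same end -/
theorem end_eq {Y : Finset (EN N)} {ε₁ : ℝ} (hE : LimEps G Y ε₁) {B₃ B₄ ε K ε₂ : ℝ} (hK : 20 ≤ K) (h2 : 2 * ε ≤ ε₂) (h1 : ε₂ ≤ ε₁) {Γ : ℂ → EN N} {t : Finset ℂ} {s : ℂ → ℝ}
    {y : ℂ → EN N} (hpos : ∀ a ∈ t, 0 < s a) (hsep : ∀ a ∈ t, ∀ b ∈ t, a ≠ b → K * max (s a) (s b) < ‖a - b‖)
    (hrim : ∀ a ∈ t, G.Rim Y B₃ B₄ ε K (fun w => Γ (a + s a * w)) (y a)) {z₁ : ℂ} {r : ℝ} {u : EN N} (hu : u ∈ Y)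
    (hst : ∀ w ∈ ball z₁ r, Off t s w → dist (pr (Γ w)) (pr u) < ε₂) {b : ℂ} (hb : b ∈ t) (hbr : ‖b - z₁‖ + s b < r) : y b = u := by
  by_contra hne
  have h3 := hE.sep (y b) (hrim b hb).mem u hu hne
  have hsb := hpos b hb
  have h4 : b + s b ∈ ball z₁ r := by
    rw [mem_ball_iff_norm]
    calc ‖b + s b - z₁‖ = ‖(b - z₁) + s b‖ := by ring_nf
      _ ≤ ‖b - z₁‖ + ‖(s b : ℂ)‖ := norm_add_le _ _
      _ = ‖b - z₁‖ + s b := by rw [Complex.norm_real, Real.norm_of_nonneg hsb.le]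
      _ < r := hbr
  have h5 : Off t s (b + s b) := by
    intro a ha
    by_cases hab : a = b
    · rw [hab, add_sub_cancel_left, Complex.norm_real, Real.norm_of_nonneg hsb.le]
    · have h6 := hsep a ha b hb hab
      have h7 := le_max_left (s a) (s b)
      have h8 := le_max_right (s a) (s b)
      have h9 : ‖a - b‖ ≤ ‖b + s b - a‖ + s b := by
        calc ‖a - b‖ = ‖(s b : ℂ) - (b + s b - a)‖ := by ring_nf
          _ ≤ ‖(s b : ℂ)‖ + ‖b + s b - a‖ := norm_sub_le _ _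
          _ = ‖b + s b - a‖ + s b := by rw [Complex.norm_real, Real.norm_of_nonneg hsb.le, add_comm]
      nlinarith
  have h6 := hst _ h4 h5
  have h7 := ((hrim b hb).ann 1 (by rw [norm_one]; norm_num) (by rw [norm_one]; linarith)).2
  simp only [mul_one] at h7
  have h8 : dist (pr (y b)) (pr u) ≤ dist (pr (Γ (b + s b))) (pr (y b)) + dist (pr (Γ (b + s b))) (pr u) := dist_triangle_left _ _ _
  have h9 : 0 < ε := dist_nonneg.trans_lt h7
  linarith

end Pool.Agent.SR3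

end
end
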