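import Mathlib

/-! The parts of this file: H15.V.LiouA, H22.W.Pow, H5.DG.SecDim, SR3.CCnt, SR3.CErr, SR3.CFac, SR3.Jen, SR3.LPol, SR3.LSum, SR3.Win. -/

section

/-!
# V LiouA: averages over finitely many rotations

For a continuous function `φ` the averages over the rotations by multiples of `2π/N` tend to the averages over circles, uniformly on discs.
-/

set_option autoImplicit false

open Topology Filter Metric

namespace Pool.Agent.H15.V

/-- rotation by `2π j / N` -/
noncomputable def rot (N j : ℕ) : ℂ := Complex.exp (((2 * Real.pi * j / N : ℝ) : ℂ) * Complex.I)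

theorem norm_rot (N j : ℕ) : ‖rot N j‖ = 1 := Complex.norm_exp_ofReal_mul_I _

theorem circleAverage_eq_rot (φ : ℂ → ℝ) (z : ℂ) :
    Real.circleAverage φ 0 ‖z‖ = (2 * Real.pi)⁻¹ * ∫ θ in (0 : ℝ)..2 * Real.pi, φ (z * Complex.exp ((θ : ℂ) * Complex.I)) := by
  rw [Real.circleAverage_eq_integral_add (Complex.arg z), smul_eq_mul]
  congr 1
  refine intervalIntegral.integral_congr fun θ _ => ?_
  show φ (circleMap 0 ‖z‖ (θ + Complex.arg z)) = φ (z * Complex.exp ((θ : ℂ) * Complex.I))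
  congr 1
  rw [circleMap_zero]
  push_cast
  rw [add_mul, Complex.exp_add]
  have h := Complex.norm_mul_exp_arg_mul_I z
  calc (‖z‖ : ℂ) * (Complex.exp (↑θ * Complex.I) * Complex.exp (↑(Complex.arg z) * Complex.I))
      = ((‖z‖ : ℂ) * Complex.exp (↑(Complex.arg z) * Complex.I)) * Complex.exp (↑θ * Complex.I) := by ring
    _ = z * Complex.exp (↑θ * Complex.I) := by rw [h]

theorem exp_sub_le (a b : ℝ) : ‖Complex.exp ((a : ℂ) * Complex.I) - Complex.exp ((b : ℂ) * Complex.I)‖ ≤ |a - b| := by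
  have h1 : Complex.exp ((a : ℂ) * Complex.I) - Complex.exp ((b : ℂ) * Complex.I) =
      Complex.exp ((b : ℂ) * Complex.I) * (Complex.exp (Complex.I * ((a - b : ℝ) : ℂ)) - 1) := by
    rw [mul_sub, ← Complex.exp_add, mul_one]
    congr 2
    push_cast
    ring
  rw [h1, norm_mul, Complex.norm_exp_ofReal_mul_I, one_mul]
  exact (Real.norm_exp_I_mul_ofReal_sub_one_le).trans (by rw [Real.norm_eq_abs])

theorem riemann {φ : ℂ → ℝ} (hφ : Continuous φ) {r δ : ℝ} (hr : 0 < r) (hδ : 0 < δ) :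
    ∃ N : ℕ, 1 ≤ N ∧ ∀ z : ℂ, ‖z‖ ≤ r →
      |(N : ℝ)⁻¹ * ∑ j ∈ Finset.range N, φ (rot N j * z) - Real.circleAverage φ 0 ‖z‖| ≤ δ := by
  have huc : UniformContinuousOn φ (closedBall 0 r) := (isCompact_closedBall 0 r).uniformContinuousOn_of_continuous hφ.continuousOn
  rw [Metric.uniformContinuousOn_iff_le] at huc
  obtain ⟨η, hη, hη2⟩ := huc δ hδ
  obtain ⟨N, hN⟩ := exists_nat_gt (r * (2 * Real.pi) / η)
  have hN0 : (0 : ℝ) < N := lt_trans (by positivity) hN
  have hN1 : 1 ≤ N := by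
    rcases Nat.eq_zero_or_pos N with h | h
    · rw [h] at hN0; simp at hN0
    · exact h
  refine ⟨N, hN1, fun z hz => ?_⟩
  rw [circleAverage_eq_rot]
  obtain ⟨a, ha⟩ : ∃ a : ℕ → ℝ, ∀ j, a j = 2 * Real.pi * j / N := ⟨_, fun _ => rfl⟩
  have ha0 : a 0 = 0 := by rw [ha]; simp
  have haN : a N = 2 * Real.pi := by rw [ha]; field_simp
  have hstep : ∀ j, a (j + 1) - a j = 2 * Real.pi / N := by
    intro j
    rw [ha, ha]
    push_cast
    ring
  have hc : Continuous fun θ : ℝ => φ (z * Complex.exp ((θ : ℂ) * Complex.I)) := by fun_prop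
  have hsum : ∫ θ in (0 : ℝ)..2 * Real.pi, φ (z * Complex.exp ((θ : ℂ) * Complex.I)) =
      ∑ j ∈ Finset.range N, ∫ θ in (a j)..(a (j + 1)), φ (z * Complex.exp ((θ : ℂ) * Complex.I)) := by
    rw [intervalIntegral.sum_integral_adjacent_intervals fun j _ => hc.intervalIntegrable _ _, ha0, haN]
  have hpiece : ∀ j ∈ Finset.range N, |(2 * Real.pi / N) * φ (rot N j * z) -
      ∫ θ in (a j)..(a (j + 1)), φ (z * Complex.exp ((θ : ℂ) * Complex.I))| ≤ δ * (2 * Real.pi / N) := by
    intro j hj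
    have h1 : (2 * Real.pi / N) * φ (rot N j * z) = ∫ _ in (a j)..(a (j + 1)), φ (rot N j * z) := by
      rw [intervalIntegral.integral_const, hstep, smul_eq_mul]
    rw [h1, ← intervalIntegral.integral_sub intervalIntegrable_const (hc.intervalIntegrable _ _)]
    have hle : a j ≤ a (j + 1) := by
      have := hstep j
      have h2 : 0 < 2 * Real.pi / N := by positivity
      linarith
    have h2 := intervalIntegral.norm_integral_le_of_norm_le_const (a := a j) (b := a (j + 1))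
      (f := fun θ : ℝ => φ (rot N j * z) - φ (z * Complex.exp ((θ : ℂ) * Complex.I))) (C := δ) ?_
    · rw [hstep, abs_of_pos (by positivity)] at h2
      rwa [Real.norm_eq_abs] at h2
    · intro θ hθ
      rw [Set.uIoc_of_le hle] at hθ
      rw [Real.norm_eq_abs, ← Real.dist_eq]
      have hn : ∀ t : ℝ, ‖z * Complex.exp ((t : ℂ) * Complex.I)‖ ≤ r := fun t => by
        rw [norm_mul, Complex.norm_exp_ofReal_mul_I, mul_one]
        exact hz
      refine hη2 _ ?_ _ ?_ ?_
      · rw [mem_closedBall_zero_iff, norm_mul, norm_rot, one_mul]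
        exact hz
      · rw [mem_closedBall_zero_iff]
        exact hn θ
      · have hrot : rot N j = Complex.exp ((a j : ℂ) * Complex.I) := by rw [ha, rot]
        rw [hrot, dist_eq_norm, mul_comm (Complex.exp _) z, ← mul_sub, norm_mul]
        have h3 := exp_sub_le (a j) θ
        have h4 : |a j - θ| ≤ 2 * Real.pi / N := by
          have := hstep j
          rw [abs_le]
          constructor <;> linarith [hθ.1, hθ.2]
        calc ‖z‖ * ‖Complex.exp ((a j : ℂ) * Complex.I) - Complex.exp ((θ : ℂ) * Complex.I)‖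
            ≤ r * (2 * Real.pi / N) := mul_le_mul hz (h3.trans h4) (norm_nonneg _) hr.le
          _ ≤ η := by
            rw [div_lt_iff₀ hη] at hN
            rw [← mul_div_assoc, div_le_iff₀ hN0]
            linarith
  have hpos : (0 : ℝ) < 2 * Real.pi := by positivity
  have htot : |(2 * Real.pi / N) * ∑ j ∈ Finset.range N, φ (rot N j * z) -
      ∫ θ in (0 : ℝ)..2 * Real.pi, φ (z * Complex.exp ((θ : ℂ) * Complex.I))| ≤ δ * (2 * Real.pi) := by
    rw [hsum, Finset.mul_sum, ← Finset.sum_sub_distrib]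
    refine (Finset.abs_sum_le_sum_abs _ _).trans ((Finset.sum_le_sum hpiece).trans ?_)
    rw [Finset.sum_const, Finset.card_range, nsmul_eq_mul]
    apply le_of_eq
    field_simp
  have hfin : (N : ℝ)⁻¹ * ∑ j ∈ Finset.range N, φ (rot N j * z) -
      (2 * Real.pi)⁻¹ * ∫ θ in (0 : ℝ)..2 * Real.pi, φ (z * Complex.exp ((θ : ℂ) * Complex.I)) =
      (2 * Real.pi)⁻¹ * ((2 * Real.pi / N) * ∑ j ∈ Finset.range N, φ (rot N j * z) -
        ∫ θ in (0 : ℝ)..2 * Real.pi, φ (z * Complex.exp ((θ : ℂ) * Complex.I))) := by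
    rw [mul_sub, ← mul_assoc]
    congr 2
    field_simp
  rw [hfin, abs_mul, abs_of_pos (inv_pos.2 hpos)]
  calc (2 * Real.pi)⁻¹ * _ ≤ (2 * Real.pi)⁻¹ * (δ * (2 * Real.pi)) := mul_le_mul_of_nonneg_left htot (inv_pos.2 hpos).le
    _ = δ := by field_simp

end Pool.Agent.H15.V

end

section

/-!
# W Pow: powers of the modulus of a holomorphic function have the sub-mean value property
-/

set_option autoImplicit false

open Topology Filter Metric

namespace Pool.Agent.H22.W

theorem log_le_avg {h : ℂ → ℂ} {c : ℂ} {r : ℝ} (hr : 0 < r) (hh : AnalyticOnNhd ℂ h (closedBall c r)) (h0 : h c ≠ 0) :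
    Real.log ‖h c‖ ≤ Real.circleAverage (fun z => Real.log ‖h z‖) c r := by
  have hr' : |r| = r := abs_of_pos hr
  rw [AnalyticOnNhd.circleAverage_log_norm hr.ne' (by rwa [hr']) h0]
  have h1 : 0 ≤ ∑ᶠ u, MeromorphicOn.divisor h (closedBall c |r|) u * Real.log (r * ‖c - u‖⁻¹) := by
    refine finsum_nonneg fun u => ?_
    rw [hr']
    by_cases hu : u ∈ closedBall c r
    · refine mul_nonneg ?_ ?_
      · have := MeromorphicOn.AnalyticOnNhd.divisor_nonneg hh u
        exact_mod_cast this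
      · rcases eq_or_ne u c with rfl | huc
        · rw [sub_self, norm_zero, inv_zero, mul_zero, Real.log_zero]
        · have h2 : 0 < ‖c - u‖ := norm_pos_iff.2 (sub_ne_zero.2 huc.symm)
          have h3 : ‖c - u‖ ≤ r := by
            rw [← dist_eq_norm, dist_comm]
            exact hu
          apply Real.log_nonneg
          rw [← div_eq_mul_inv, one_le_div h2]
          exact h3
    · have h4 : MeromorphicOn.divisor h (closedBall c r) u = 0 := Function.locallyFinsuppWithin.apply_eq_zero_of_notMem _ hu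
      rw [h4, Int.cast_zero, zero_mul]
  linarith

theorem rpow_le_avg {h : ℂ → ℂ} {c : ℂ} {r p : ℝ} (hr : 0 < r) (hp : 0 < p) (hh : AnalyticOnNhd ℂ h (closedBall c r)) :
    ‖h c‖ ^ p ≤ Real.circleAverage (fun z => ‖h z‖ ^ p) c r := by
  have hr' : |r| = r := abs_of_pos hr
  rcases eq_or_ne (h c) 0 with h0 | h0
  · rw [h0, norm_zero, Real.zero_rpow hp.ne']
    exact Real.circleAverage_nonneg_of_nonneg fun x _ => Real.rpow_nonneg (norm_nonneg _) _
  obtain ⟨a, ha⟩ : ∃ a : ℝ, a = ‖h c‖ := ⟨_, rfl⟩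
  have ha0 : 0 < a := by rw [ha]; exact norm_pos_iff.2 h0
  have hlog := log_le_avg hr hh h0
  obtain ⟨f₂, hf₂⟩ : ∃ f₂ : ℂ → ℝ, f₂ = fun z => (a ^ p * (1 - p * Real.log a)) + (a ^ p * p) * Real.log ‖h z‖ := ⟨_, rfl⟩
  obtain ⟨f₃, hf₃⟩ : ∃ f₃ : ℂ → ℝ, ∀ z, f₃ z = if h z = 0 then 0 else f₂ z := ⟨_, fun _ => rfl⟩
  have hsub : sphere c |r| ⊆ closedBall c r := by
    rw [hr']
    exact sphere_subset_closedBall
  have hci : CircleIntegrable (fun z => Real.log ‖h z‖) c r :=
    (hh.mono hsub).meromorphicOn.circleIntegrable_log_norm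
  have hci2 : CircleIntegrable (fun z => (a ^ p * p) * Real.log ‖h z‖) c r := hci.const_mul (a ^ p * p)
  have hf₂i : CircleIntegrable f₂ c r := by
    rw [hf₂]
    exact (circleIntegrable_const _ _ _).add hci2
  have hco : f₂ =ᶠ[codiscreteWithin (sphere c |r|)] f₃ := by
    have h1 := hh.preimage_zero_mem_codiscreteWithin h0 (mem_closedBall_self hr.le)
      ⟨⟨c, mem_closedBall_self hr.le⟩, (convex_closedBall c r).isPreconnected⟩
    filter_upwards [codiscreteWithin_mono hsub h1] with z hz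
    have hz' : h z ≠ 0 := hz
    rw [hf₃, if_neg hz']
  have hf₃i : CircleIntegrable f₃ c r := hf₂i.congr_codiscreteWithin hco
  have hcont : ContinuousOn (fun z => ‖h z‖ ^ p) (sphere c |r|) := by
    have h1 : ContinuousOn h (sphere c |r|) := hh.continuousOn.mono hsub
    exact h1.norm.rpow_const fun x _ => Or.inr hp.le
  have h1 : Real.circleAverage f₃ c r ≤ Real.circleAverage (fun z => ‖h z‖ ^ p) c r := by
    refine Real.circleAverage_mono hf₃i hcont.circleIntegrable' fun z _ => ?_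
    rw [hf₃]
    split_ifs with hz
    · exact Real.rpow_nonneg (norm_nonneg _) _
    · rw [hf₂]
      have hz0 : 0 < ‖h z‖ := norm_pos_iff.2 hz
      have h2 : ‖h z‖ ^ p = a ^ p * Real.exp (p * (Real.log ‖h z‖ - Real.log a)) := by
        rw [Real.rpow_def_of_pos hz0, Real.rpow_def_of_pos ha0, ← Real.exp_add]
        congr 1
        ring
      have h3 := Real.add_one_le_exp (p * (Real.log ‖h z‖ - Real.log a))
      have h4 : 0 < a ^ p := Real.rpow_pos_of_pos ha0 p
      have h5 := mul_le_mul_of_nonneg_left h3 h4.le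
      show (a ^ p * (1 - p * Real.log a)) + (a ^ p * p) * Real.log ‖h z‖ ≤ ‖h z‖ ^ p
      rw [h2]
      refine le_trans (le_of_eq ?_) h5
      ring
  refine le_trans ?_ h1
  rw [← Real.circleAverage_congr_codiscreteWithin hco hr.ne', hf₂]
  have h2 : Real.circleAverage (fun z => (a ^ p * (1 - p * Real.log a)) + (a ^ p * p) * Real.log ‖h z‖) c r =
      (a ^ p * (1 - p * Real.log a)) + (a ^ p * p) * Real.circleAverage (fun z => Real.log ‖h z‖) c r := by
    rw [Real.circleAverage_fun_add (circleIntegrable_const _ _ _) hci2, Real.circleAverage_const]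
    have h3 : (fun z => (a ^ p * p) * Real.log ‖h z‖) = fun z => (a ^ p * p) • (fun z => Real.log ‖h z‖) z := rfl
    rw [h3, Real.circleAverage_fun_smul, smul_eq_mul]
  rw [h2, ← ha]
  rw [← ha] at hlog
  have h4 : 0 < a ^ p := Real.rpow_pos_of_pos ha0 p
  have h5 := mul_le_mul_of_nonneg_left hlog (by positivity : 0 ≤ a ^ p * p)
  linarith

end Pool.Agent.H22.W

end

section

/-!
# Project DG2, module SecDim: finite covers of the same dimension are dominant

`X → Y` is a finite morphism, given by forms `F a`, and `X` and `Y` have the same dimension.  Then a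
form `g` which does not vanish identically on `Y` does not vanish identically on `X` either.  The
quotients `u a = F a / F a₀` are algebraic functions of some of them, `u (J i)`, which form a
transcendence basis of the function field of `X`.  The coordinate functions `η (J i)` of `Y` are
algebraically independent, so they form a transcendence basis, and `g (η)` satisfies an algebraic
equation over `ℂ(η (J i))` with non-zero constant term, which is also true for `g (u)`.
-/

open MvPolynomial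

noncomputable section

namespace Pool.Agent.H5.DG

/-- The values of a form at proportional points. -/
theorem aeval_eq_pow_mul {m n : ℕ} {K : Type} [Field K] [Algebra ℂ K]
    {G : MvPolynomial (Fin m) ℂ} (hG : G.IsHomogeneous n) {x y : Fin m → K} {c : K}
    (hxy : ∀ i, x i = c * y i) : aeval x G = c ^ n * aeval y G := by
  obtain rfl : x = fun i => c * y i := funext hxy
  rw [aeval_def, aeval_def, eval₂_eq, eval₂_eq, Finset.mul_sum]
  refine Finset.sum_congr rfl fun m hm => ?_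
  have h5 : ∑ i ∈ m.support, m i = n := by
    have := hG (mem_support_iff.1 hm)
    rw [Finsupp.weight_apply, Finsupp.sum] at this
    simpa using this
  simp only [mul_pow, Finset.prod_mul_distrib]
  rw [Finset.prod_pow_eq_pow_sum, h5]
  ring

end Pool.Agent.H5.DG

end
end

section

/-!
# SR3 CCnt: the number of zeros in a hole

`f / ∏ (z - a j)` is holomorphic near the closed disc of radius `8 s`; on the sphere `|w - ζ| = 8 s` the product is at least `(7 s) ^ n`, at the point `z` at most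
`(3 s) ^ n`.
-/

set_option autoImplicit false

open Metric

noncomputable section

namespace Pool.Agent.SR3

theorem fac_count {f : ℂ → ℂ} (hf : Differentiable ℂ f) {ζ : ℂ} {s : ℝ} (hs : 0 < s) {n : ℕ} {a : Fin n → ℂ} (ha : ∀ j, a j ∈ closedBall ζ s) {G : ℂ → ℂ}
    {U : Set ℂ} (hU : IsOpen U) (hsU : closedBall ζ (8 * s) ⊆ U) (hG : DifferentiableOn ℂ G U) (hfG : ∀ z ∈ U, f z = G z * ∏ j, (z - a j))
    {A B : ℝ} (hB : ∀ z, ‖z - ζ‖ = 8 * s → ‖f z‖ ≤ Real.exp B) {z : ℂ} (hz : ‖z - ζ‖ ≤ 2 * s) (hA : Real.exp A ≤ ‖f z‖) :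
    (n : ℝ) * Real.log (7 / 3) ≤ B - A := by
  have h8 : (0 : ℝ) < 8 * s := by linarith
  have h7 : (0 : ℝ) < 7 * s := by linarith
  have hprod : ∀ w : ℂ, ‖∏ j, (w - a j)‖ = ∏ j, ‖w - a j‖ := fun w => norm_prod _ _
  have hG1 : ∀ w ∈ frontier (ball ζ (8 * s)), ‖G w‖ ≤ Real.exp B / (7 * s) ^ n := by
    intro w hw
    rw [frontier_ball ζ h8.ne', mem_sphere, dist_eq_norm] at hw
    have hwU : w ∈ U := hsU (by rw [mem_closedBall, dist_eq_norm, hw])
    have h1 : (7 * s) ^ n ≤ ‖∏ j, (w - a j)‖ := by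
      rw [hprod]
      calc (7 * s) ^ n = ∏ _j : Fin n, (7 * s) := by simp
        _ ≤ ∏ j, ‖w - a j‖ := by
          refine Finset.prod_le_prod (fun _ _ => h7.le) fun j _ => ?_
          have h2 : ‖a j - ζ‖ ≤ s := by
            have := ha j
            rwa [mem_closedBall, dist_eq_norm] at this
          have h3 : ‖w - ζ‖ ≤ ‖w - a j‖ + ‖a j - ζ‖ := norm_sub_le_norm_sub_add_norm_sub _ _ _
          linarith
    have h4 : ‖G w‖ * ‖∏ j, (w - a j)‖ ≤ Real.exp B := by
      rw [← norm_mul, ← hfG w hwU]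
      exact hB w hw
    rw [le_div_iff₀ (pow_pos h7 n)]
    exact (mul_le_mul_of_nonneg_left h1 (norm_nonneg _)).trans h4
  have hzb : z ∈ ball ζ (8 * s) := by
    rw [mem_ball, dist_eq_norm]
    linarith
  have hG2 : ‖G z‖ ≤ Real.exp B / (7 * s) ^ n := by
    refine Complex.norm_le_of_forall_mem_frontier_norm_le isBounded_ball ?_ hG1 (subset_closure hzb)
    refine DifferentiableOn.diffContOnCl (hG.mono ?_)
    exact closure_ball_subset_closedBall.trans hsU
  have hzU : z ∈ U := hsU (ball_subset_closedBall hzb)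
  have h5 : ‖∏ j, (z - a j)‖ ≤ (3 * s) ^ n := by
    rw [hprod]
    calc ∏ j, ‖z - a j‖ ≤ ∏ _j : Fin n, (3 * s) := by
          refine Finset.prod_le_prod (fun _ _ => norm_nonneg _) fun j _ => ?_
          have h2 : ‖a j - ζ‖ ≤ s := by
            have := ha j
            rwa [mem_closedBall, dist_eq_norm] at this
          have h3 : ‖z - a j‖ ≤ ‖z - ζ‖ + ‖ζ - a j‖ := norm_sub_le_norm_sub_add_norm_sub _ _ _
          rw [norm_sub_rev ζ] at h3
          linarith
      _ = (3 * s) ^ n := by simp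
  have h6 : Real.exp A ≤ Real.exp B / (7 * s) ^ n * (3 * s) ^ n := by
    refine hA.trans ?_
    rw [hfG z hzU, norm_mul]
    exact mul_le_mul hG2 h5 (norm_nonneg _) (div_nonneg (Real.exp_pos _).le (pow_pos h7 n).le)
  have h9 : Real.exp A * (7 / 3 : ℝ) ^ n ≤ Real.exp B := by
    have h10 : Real.exp B / (7 * s) ^ n * (3 * s) ^ n = Real.exp B / (7 / 3 : ℝ) ^ n := by
      rw [mul_pow, mul_pow, div_pow]
      have h11 : s ^ n ≠ 0 := (pow_pos hs n).ne'
      field_simp
    rw [h10, le_div_iff₀ (by positivity)] at h6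
    exact h6
  have h12 := Real.log_le_log (by positivity) h9
  rw [Real.log_mul (Real.exp_pos _).ne' (by positivity), Real.log_exp, Real.log_exp, Real.log_pow] at h12
  linarith

end Pool.Agent.SR3

end
end

section

/-!
# SR3 CErr: the error terms of the factorization

`|log |(z - a) / (z - ζ)|| ≤ 2 s / |z - ζ|` and `|1 / (z - a) - 1 / (z - ζ)| ≤ 2 s / |z - ζ| ^ 2` if `|a - ζ| ≤ s`, `2 s ≤ |z - ζ|`.
-/

set_option autoImplicit false

open Metric

noncomputable section

namespace Pool.Agent.SR3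

variable {κ : Type} [Fintype κ]

private theorem sub_le {a ζ z : ℂ} {s : ℝ} (ha : a ∈ closedBall ζ s) : ‖z - ζ‖ - s ≤ ‖z - a‖ ∧ ‖z - a‖ ≤ ‖z - ζ‖ + s := by
  have h1 : ‖a - ζ‖ ≤ s := by rwa [← dist_eq_norm]
  have h2 : ‖z - ζ‖ ≤ ‖z - a‖ + ‖a - ζ‖ := by
    have := norm_add_le (z - a) (a - ζ)
    rwa [show z - a + (a - ζ) = z - ζ by ring] at this
  have h3 : ‖z - a‖ ≤ ‖z - ζ‖ + ‖ζ - a‖ := by
    have := norm_add_le (z - ζ) (ζ - a)
    rwa [show z - ζ + (ζ - a) = z - a by ring] at this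
  rw [norm_sub_rev ζ a] at h3
  exact ⟨by linarith, by linarith⟩

private theorem half_le {a ζ z : ℂ} {s : ℝ} (ha : a ∈ closedBall ζ s) (hz : 2 * s ≤ ‖z - ζ‖) : ‖z - ζ‖ / 2 ≤ ‖z - a‖ := by
  have := (sub_le (z := z) ha).1
  linarith

private theorem log_err {a ζ z : ℂ} {s : ℝ} (hs : 0 < s) (ha : a ∈ closedBall ζ s) (hz : 2 * s ≤ ‖z - ζ‖) :
    |Real.log ‖z - a‖ - Real.log ‖z - ζ‖| ≤ 2 * s / ‖z - ζ‖ := by
  have hd : 0 < ‖z - ζ‖ := by linarith
  have ha' : 0 < ‖z - a‖ := lt_of_lt_of_le (by linarith) (half_le ha hz)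
  obtain ⟨h1, h2⟩ := sub_le (z := z) ha
  rw [abs_le]
  constructor
  · have h3 : Real.log (‖z - ζ‖ / ‖z - a‖) ≤ ‖z - ζ‖ / ‖z - a‖ - 1 := Real.log_le_sub_one_of_pos (div_pos hd ha')
    rw [Real.log_div hd.ne' ha'.ne'] at h3
    have h4 : ‖z - ζ‖ / ‖z - a‖ - 1 ≤ 2 * s / ‖z - ζ‖ := by
      rw [div_sub_one ha'.ne', div_le_div_iff₀ ha' hd]
      nlinarith [half_le ha hz]
    linarith
  · have h3 : Real.log (‖z - a‖ / ‖z - ζ‖) ≤ ‖z - a‖ / ‖z - ζ‖ - 1 := Real.log_le_sub_one_of_pos (div_pos ha' hd)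
    rw [Real.log_div ha'.ne' hd.ne'] at h3
    have h4 : ‖z - a‖ / ‖z - ζ‖ - 1 ≤ 2 * s / ‖z - ζ‖ := by
      rw [div_sub_one hd.ne']
      exact div_le_div_of_nonneg_right (by linarith) hd.le
    linarith

private theorem inv_err {a ζ z : ℂ} {s : ℝ} (hs : 0 < s) (ha : a ∈ closedBall ζ s) (hz : 2 * s ≤ ‖z - ζ‖) :
    ‖(z - a)⁻¹ - 1 / (z - ζ)‖ ≤ 2 * s / ‖z - ζ‖ ^ 2 := by
  have hd : 0 < ‖z - ζ‖ := by linarith
  have hh := half_le ha hz
  have ha' : 0 < ‖z - a‖ := lt_of_lt_of_le (by linarith) hh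
  have h1 : ‖a - ζ‖ ≤ s := by rwa [← dist_eq_norm]
  have e1 : (z - a)⁻¹ - 1 / (z - ζ) = (a - ζ) / ((z - a) * (z - ζ)) := by
    have h2 : z - a ≠ 0 := norm_pos_iff.1 ha'
    have h3 : z - ζ ≠ 0 := norm_pos_iff.1 hd
    field_simp
    ring
  rw [e1, norm_div, norm_mul, div_le_div_iff₀ (mul_pos ha' hd) (pow_pos hd 2)]
  nlinarith [mul_le_mul_of_nonneg_right h1 (sq_nonneg ‖z - ζ‖), mul_le_mul_of_nonneg_left hh (mul_nonneg hs.le hd.le)]

theorem fac_log {ζ : κ → ℂ} {s : κ → ℝ} {f g : ℂ → ℂ} {n : κ → ℕ} {a : (k : κ) → Fin (n k) → ℂ} {z₀ : ℂ} {ρ : ℝ} (hs : ∀ k, 0 < s k)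
    (ha : ∀ k j, a k j ∈ closedBall (ζ k) (s k)) (hfg : ∀ z ∈ ball z₀ ρ, f z = Complex.exp (g z) * ∏ k, ∏ j, (z - a k j)) :
    ∀ z ∈ ball z₀ ρ, (∀ k, 2 * s k ≤ ‖z - ζ k‖) →
      |Real.log ‖f z‖ - (g z).re - ∑ k, (n k : ℝ) * Real.log ‖z - ζ k‖| ≤ ∑ k, (n k : ℝ) * (2 * s k / ‖z - ζ k‖) := by
  intro z hz hzs
  have ha' : ∀ k j, 0 < ‖z - a k j‖ := fun k j => by
    have h1 := half_le (ha k j) (hzs k)
    have h2 := hs k
    have h3 := hzs k
    linarith
  have e1 : Real.log ‖f z‖ = (g z).re + ∑ k, ∑ j, Real.log ‖z - a k j‖ := by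
    rw [hfg z hz, norm_mul, Complex.norm_exp, norm_prod, Real.log_mul (Real.exp_pos _).ne' (Finset.prod_ne_zero_iff.2 fun k _ => by
      rw [norm_prod]; exact Finset.prod_ne_zero_iff.2 fun j _ => (ha' k j).ne'), Real.log_exp, Real.log_prod fun k _ => by
      rw [norm_prod]; exact Finset.prod_ne_zero_iff.2 fun j _ => (ha' k j).ne']
    congr 1
    refine Finset.sum_congr rfl fun k _ => ?_
    rw [norm_prod, Real.log_prod fun j _ => (ha' k j).ne']
  have e2 : Real.log ‖f z‖ - (g z).re - ∑ k, (n k : ℝ) * Real.log ‖z - ζ k‖ = ∑ k, ∑ j : Fin (n k), (Real.log ‖z - a k j‖ - Real.log ‖z - ζ k‖) := by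
    rw [e1, add_sub_cancel_left, ← Finset.sum_sub_distrib]
    refine Finset.sum_congr rfl fun k _ => ?_
    rw [Finset.sum_sub_distrib, Finset.sum_const, Finset.card_univ, Fintype.card_fin, nsmul_eq_mul]
  rw [e2]
  refine (Finset.abs_sum_le_sum_abs _ _).trans (Finset.sum_le_sum fun k _ => ?_)
  refine (Finset.abs_sum_le_sum_abs _ _).trans ((Finset.sum_le_sum fun j _ => log_err (hs k) (ha k j) (hzs k)).trans_eq ?_)
  rw [Finset.sum_const, Finset.card_univ, Fintype.card_fin, nsmul_eq_mul]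

theorem fac_deriv {ζ : κ → ℂ} {s : κ → ℝ} {f g : ℂ → ℂ} {n : κ → ℕ} {a : (k : κ) → Fin (n k) → ℂ} {z₀ : ℂ} {ρ : ℝ} (hs : ∀ k, 0 < s k)
    (hg : DifferentiableOn ℂ g (ball z₀ ρ))
    (ha : ∀ k j, a k j ∈ closedBall (ζ k) (s k)) (hfg : ∀ z ∈ ball z₀ ρ, f z = Complex.exp (g z) * ∏ k, ∏ j, (z - a k j)) :
    ∀ z ∈ ball z₀ ρ, (∀ k, 2 * s k ≤ ‖z - ζ k‖) →
      ‖deriv f z / f z - deriv g z - ∑ k, (n k : ℂ) / (z - ζ k)‖ ≤ ∑ k, (n k : ℝ) * (2 * s k / ‖z - ζ k‖ ^ 2) := by
  intro z hz hzs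
  have ha' : ∀ k j, 0 < ‖z - a k j‖ := fun k j => by
    have h1 := half_le (ha k j) (hzs k)
    have h2 := hs k
    have h3 := hzs k
    linarith
  have hne : ∀ k j, z - a k j ≠ 0 := fun k j => norm_pos_iff.1 (ha' k j)
  have hgz : DifferentiableAt ℂ g z := hg.differentiableAt (isOpen_ball.mem_nhds hz)
  have hev : f =ᶠ[nhds z] fun w => Complex.exp (g w) * ∏ k, ∏ j, (w - a k j) :=
    Filter.eventually_of_mem (isOpen_ball.mem_nhds hz) hfg
  have hP : ∀ k ∈ Finset.univ, DifferentiableAt ℂ (fun w => ∏ j, (w - a k j)) z := fun k _ => by fun_prop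
  have e1 : deriv f z / f z = deriv g z + ∑ k, ∑ j, (z - a k j)⁻¹ := by
    have h1 : deriv f z / f z = logDeriv (fun w => Complex.exp (g w) * ∏ k, ∏ j, (w - a k j)) z := by
      rw [logDeriv_apply, hev.deriv_eq, hfg z hz]
    rw [h1, logDeriv_mul (f := fun w => Complex.exp (g w)) (g := fun w => ∏ k, ∏ j, (w - a k j)) z (Complex.exp_ne_zero _)
      (Finset.prod_ne_zero_iff.2 fun k _ => Finset.prod_ne_zero_iff.2 fun j _ => hne k j) hgz.cexp (by fun_prop)]
    congr 1
    · rw [logDeriv_apply, deriv_cexp hgz, mul_div_cancel_left₀ _ (Complex.exp_ne_zero _)]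
    · rw [logDeriv_prod (fun k _ => Finset.prod_ne_zero_iff.2 fun j _ => hne k j) hP]
      refine Finset.sum_congr rfl fun k _ => ?_
      rw [logDeriv_prod (fun j _ => hne k j) (fun j _ => by fun_prop)]
      refine Finset.sum_congr rfl fun j _ => ?_
      rw [logDeriv_apply, deriv_sub_const, deriv_id'', one_div]
  have e2 : deriv f z / f z - deriv g z - ∑ k, (n k : ℂ) / (z - ζ k) = ∑ k, ∑ j : Fin (n k), ((z - a k j)⁻¹ - 1 / (z - ζ k)) := by
    rw [e1, add_sub_cancel_left, ← Finset.sum_sub_distrib]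
    refine Finset.sum_congr rfl fun k _ => ?_
    rw [Finset.sum_sub_distrib, Finset.sum_const, Finset.card_univ, Fintype.card_fin, nsmul_eq_mul, mul_one_div]
  rw [e2]
  refine (norm_sum_le _ _).trans (Finset.sum_le_sum fun k _ => ?_)
  refine (norm_sum_le _ _).trans ((Finset.sum_le_sum fun j _ => inv_err (hs k) (ha k j) (hzs k)).trans_eq ?_)
  rw [Finset.sum_const, Finset.card_univ, Fintype.card_fin, nsmul_eq_mul]

end Pool.Agent.SR3

end
end

section

/-!
# SR3 CFac: the factorization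

Divide by the zeros in the closed disc, one by one.  This stops: if `f = G * ∏ (z - a j)` with `N` points `a j` in the disc of radius `ρ`, then
`|G z₁| ≤ M / (4 ρ) ^ N` (maximum principle on the disc of radius `5 ρ`), so `|f z₁| ≤ M / 2 ^ N`.
-/

set_option autoImplicit false

open Metric

noncomputable section

namespace Pool.Agent.SR3

variable {κ : Type} [Fintype κ]

private theorem exists_fac {f : ℂ → ℂ} (hf : Differentiable ℂ f) {z₀ : ℂ} {ρ : ℝ} (hρ : 0 < ρ) {z₁ : ℂ} (hz₁ : z₁ ∈ closedBall z₀ ρ) (h1 : f z₁ ≠ 0) :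
    ∃ (N : ℕ) (a : Fin N → ℂ) (G : ℂ → ℂ), Differentiable ℂ G ∧ (∀ j, a j ∈ closedBall z₀ ρ) ∧ (∀ z, f z = G z * ∏ j, (z - a j)) ∧
      ∀ z ∈ closedBall z₀ ρ, G z ≠ 0 := by
  by_contra hno
  have key : ∀ N : ℕ, ∃ (a : Fin N → ℂ) (G : ℂ → ℂ), Differentiable ℂ G ∧ (∀ j, a j ∈ closedBall z₀ ρ) ∧ (∀ z, f z = G z * ∏ j, (z - a j)) := by
    intro N
    induction N with
    | zero => exact ⟨Fin.elim0, f, hf, fun j => j.elim0, fun z => by simp⟩
    | succ N ih =>
      obtain ⟨a, G, hG, ha, hfG⟩ := ih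
      have h2 : ∃ w ∈ closedBall z₀ ρ, G w = 0 := by
        by_contra h3
        push Not at h3
        exact hno ⟨N, a, G, hG, ha, hfG, h3⟩
      obtain ⟨w, hw, hGw⟩ := h2
      refine ⟨Fin.snoc a w, dslope G w, ?_, ?_, fun z => ?_⟩
      · rw [← differentiableOn_univ, Complex.differentiableOn_dslope Filter.univ_mem, differentiableOn_univ]
        exact hG
      · refine Fin.lastCases ?_ fun j => ?_
        · rw [Fin.snoc_last]
          exact hw
        · rw [Fin.snoc_castSucc]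
          exact ha j
      · rw [hfG z, Fin.prod_univ_castSucc]
        simp only [Fin.snoc_castSucc, Fin.snoc_last]
        have h3 : (z - w) • dslope G w z = G z - G w := sub_smul_dslope G w z
        rw [hGw, sub_zero, smul_eq_mul] at h3
        rw [← h3]
        ring
  -- the maximum of `f` on the sphere of radius `5 ρ`
  have hc : IsCompact (sphere z₀ (5 * ρ)) := isCompact_sphere z₀ (5 * ρ)
  obtain ⟨M, hM⟩ := hc.exists_bound_of_continuousOn hf.continuous.continuousOn
  have hM0 : 0 ≤ M := by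
    have h2 : z₀ + ((5 * ρ : ℝ) : ℂ) ∈ sphere z₀ (5 * ρ) := by
      rw [mem_sphere_iff_norm, add_sub_cancel_left, Complex.norm_real, Real.norm_eq_abs, abs_of_pos (by positivity)]
    exact (norm_nonneg _).trans (hM _ h2)
  have hb : ∀ N : ℕ, ‖f z₁‖ ≤ M * (1 / 2) ^ N := by
    intro N
    obtain ⟨a, G, hG, ha, hfG⟩ := key N
    have h2 : ∀ z ∈ frontier (ball z₀ (5 * ρ)), ‖G z‖ ≤ M / (4 * ρ) ^ N := by
      intro z hz
      have hz' : z ∈ sphere z₀ (5 * ρ) := by
        rwa [frontier_ball _ (by positivity : (5 * ρ : ℝ) ≠ 0)] at hz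
      have h3 := hM z hz'
      rw [hfG z, norm_mul, norm_prod] at h3
      have h4 : (4 * ρ) ^ N ≤ ∏ j, ‖z - a j‖ := by
        have h5 : ∏ _j : Fin N, (4 * ρ) ≤ ∏ j, ‖z - a j‖ := by
          refine Finset.prod_le_prod (fun _ _ => by positivity) fun j _ => ?_
          have h6 := ha j
          rw [mem_closedBall, dist_eq_norm] at h6
          rw [mem_sphere_iff_norm] at hz'
          have h7 : ‖z - z₀‖ ≤ ‖z - a j‖ + ‖a j - z₀‖ := by
            have := norm_add_le (z - a j) (a j - z₀)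
            rwa [sub_add_sub_cancel] at this
          linarith
        rwa [Finset.prod_const, Finset.card_univ, Fintype.card_fin] at h5
      rw [le_div_iff₀ (by positivity)]
      exact (mul_le_mul_of_nonneg_left h4 (norm_nonneg _)).trans h3
    have h3 : ‖G z₁‖ ≤ M / (4 * ρ) ^ N := by
      refine Complex.norm_le_of_forall_mem_frontier_norm_le isBounded_ball hG.diffContOnCl h2 ?_
      refine subset_closure (mem_ball.2 ?_)
      have := mem_closedBall.1 hz₁
      linarith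
    have h4 : ∏ j, ‖z₁ - a j‖ ≤ (2 * ρ) ^ N := by
      have h5 : ∏ j, ‖z₁ - a j‖ ≤ ∏ _j : Fin N, (2 * ρ) := by
        refine Finset.prod_le_prod (fun _ _ => norm_nonneg _) fun j _ => ?_
        have h6 := ha j
        have h7 := hz₁
        rw [mem_closedBall, dist_eq_norm] at h6 h7
        have h8 : ‖z₁ - a j‖ ≤ ‖z₁ - z₀‖ + ‖a j - z₀‖ := by
          have := norm_sub_le (z₁ - z₀) (a j - z₀)
          rwa [sub_sub_sub_cancel_right] at this
        linarith
      rwa [Finset.prod_const, Finset.card_univ, Fintype.card_fin] at h5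
    calc ‖f z₁‖ = ‖G z₁‖ * ∏ j, ‖z₁ - a j‖ := by rw [hfG z₁, norm_mul, norm_prod]
      _ ≤ M / (4 * ρ) ^ N * (2 * ρ) ^ N := mul_le_mul h3 h4 (Finset.prod_nonneg fun _ _ => norm_nonneg _) (by positivity)
      _ = M * (1 / 2) ^ N := by
        rw [div_mul_eq_mul_div, mul_div_assoc, ← div_pow]
        congr 2
        field_simp
        norm_num
  have h3 : Filter.Tendsto (fun N : ℕ => M * (1 / 2 : ℝ) ^ N) Filter.atTop (nhds (M * 0)) :=
    (tendsto_pow_atTop_nhds_zero_of_lt_one (by norm_num) (by norm_num)).const_mul M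
  rw [mul_zero] at h3
  have h4 : ‖f z₁‖ ≤ 0 := ge_of_tendsto' h3 hb
  exact h1 (norm_le_zero_iff.1 h4)

/-- a function without zeros on a disc is an exponential -/
private theorem exists_log {G : ℂ → ℂ} (hG : Differentiable ℂ G) {z₀ : ℂ} {ρ : ℝ} (hρ : 0 < ρ) (h0 : ∀ z ∈ ball z₀ ρ, G z ≠ 0) :
    ∃ g : ℂ → ℂ, DifferentiableOn ℂ g (ball z₀ ρ) ∧ ∀ z ∈ ball z₀ ρ, G z = Complex.exp (g z) := by
  have h1 : DifferentiableOn ℂ (fun z => deriv G z / G z) (ball z₀ ρ) :=
    hG.deriv.differentiableOn.div hG.differentiableOn h0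
  obtain ⟨p, hp⟩ := h1.isExactOn_ball
  have hz₀ : z₀ ∈ ball z₀ ρ := mem_ball_self hρ
  obtain ⟨c, hc⟩ : ∃ c, Complex.exp c = G z₀ * Complex.exp (-p z₀) := ⟨Complex.log (G z₀ * Complex.exp (-p z₀)), Complex.exp_log (mul_ne_zero (h0 z₀ hz₀) (Complex.exp_ne_zero _))⟩
  refine ⟨fun z => p z + c, fun z hz => ((hp z hz).differentiableAt.add_const c).differentiableWithinAt, fun z hz => ?_⟩
  have h2 : ∀ w ∈ ball z₀ ρ, HasDerivAt (fun z => G z * Complex.exp (-p z)) 0 w := by
    intro w hw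
    have h3 := (hG w).hasDerivAt.mul ((hp w hw).neg.cexp)
    have h4 : G w * (deriv G w / G w) = deriv G w := mul_div_cancel₀ _ (h0 w hw)
    have h5 : deriv G w * Complex.exp (-p w) + G w * (Complex.exp (-p w) * -(deriv G w / G w)) = 0 := by
      linear_combination -Complex.exp (-p w) * h4
    rwa [show deriv G w * Complex.exp ((-p) w) + G w * (Complex.exp ((-p) w) * -(deriv G w / G w)) = 0 from h5] at h3
  have h3 : G z * Complex.exp (-p z) = G z₀ * Complex.exp (-p z₀) := by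
    refine isOpen_ball.is_const_of_deriv_eq_zero (convex_ball z₀ ρ).isPreconnected (fun w hw => (h2 w hw).differentiableAt.differentiableWithinAt)
      (fun w hw => (h2 w hw).deriv) hz hz₀
  rw [Complex.exp_add, hc, ← h3, mul_left_comm, ← Complex.exp_add, add_neg_cancel, Complex.exp_zero, mul_one]

theorem fac {ζ : κ → ℂ} {s : κ → ℝ} {f : ℂ → ℂ} (hf : Differentiable ℂ f) {z₀ : ℂ} {ρ : ℝ} (hρ : 0 < ρ)
    (hin : ∀ k, closedBall (ζ k) (s k) ⊆ ball z₀ ρ) (hdis : ∀ j k, j ≠ k → Disjoint (closedBall (ζ j) (s j)) (closedBall (ζ k) (s k)))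
    (h0 : ∀ z ∈ closedBall z₀ ρ, (∀ k, s k < ‖z - ζ k‖) → f z ≠ 0) :
    ∃ (n : κ → ℕ) (a : (k : κ) → Fin (n k) → ℂ) (g : ℂ → ℂ), DifferentiableOn ℂ g (ball z₀ ρ) ∧ (∀ k j, a k j ∈ closedBall (ζ k) (s k)) ∧
      ∀ z ∈ ball z₀ ρ, f z = Complex.exp (g z) * ∏ k, ∏ j, (z - a k j) := by
  classical
  have _ := hdis
  -- a point on the sphere
  have hz₁ : z₀ + (ρ : ℂ) ∈ sphere z₀ ρ := by
    rw [mem_sphere_iff_norm, add_sub_cancel_left, Complex.norm_real, Real.norm_eq_abs, abs_of_pos hρ]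
  have hf₁ : f (z₀ + (ρ : ℂ)) ≠ 0 := by
    refine h0 _ (sphere_subset_closedBall hz₁) fun k => ?_
    by_contra h1
    have h2 : z₀ + (ρ : ℂ) ∈ closedBall (ζ k) (s k) := by
      rw [mem_closedBall, dist_eq_norm]
      exact not_lt.1 h1
    exact absurd (mem_sphere.1 hz₁) (ne_of_lt (mem_ball.1 (hin k h2)))
  obtain ⟨N, a, G, hG, ha, hfG, hG0⟩ := exists_fac hf hρ (sphere_subset_closedBall hz₁) hf₁
  obtain ⟨g, hg, hgG⟩ := exists_log hG hρ fun z hz => hG0 z (ball_subset_closedBall hz)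
  have hk : ∀ j, ∃ k, a j ∈ closedBall (ζ k) (s k) := by
    intro j
    by_contra h1
    push Not at h1
    refine h0 (a j) (ha j) (fun k => ?_) ?_
    · have h2 := h1 k
      rw [mem_closedBall, dist_eq_norm] at h2
      exact not_le.1 h2
    · rw [hfG, Finset.prod_eq_zero (Finset.mem_univ j) (sub_self _), mul_zero]
  choose c hc using hk
  refine ⟨fun k => Fintype.card {j // c j = k}, fun k i => a ((Fintype.equivFin {j // c j = k}).symm i).1, g, hg, fun k i => ?_, fun z hz => ?_⟩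
  · have h1 := ((Fintype.equivFin {j // c j = k}).symm i).2
    have h2 := hc ((Fintype.equivFin {j // c j = k}).symm i).1
    rwa [h1] at h2
  · rw [hfG z, hgG z hz]
    congr 1
    have h1 : ∀ k, ∏ i, (z - a ((Fintype.equivFin {j // c j = k}).symm i).1) = ∏ j : {j // c j = k}, (z - a j.1) := fun k =>
      (Fintype.equivFin {j // c j = k}).symm.prod_comp fun j => z - a j.1
    rw [Finset.prod_congr rfl fun k _ => h1 k, ← Fintype.prod_sigma']
    exact ((Equiv.sigmaFiberEquiv c).prod_comp fun j => z - a j).symm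

end Pool.Agent.SR3

end
end

section

/-!
# SR3 Jen: Jensen's inequality for the number of zeros
-/

set_option autoImplicit false

open Topology Filter Metric

noncomputable section

namespace Pool.Agent.SR3

/-- one zero is divided out by a Blaschke factor at a time -/
private theorem jen_aux {z₀ : ℂ} {r R C : ℝ} (hr : 0 < r) (hR : r < R) (t : Finset ℂ) : ∀ f : ℂ → ℂ, Differentiable ℂ f →
    (∀ z ∈ sphere z₀ R, ‖f z‖ ≤ C) → (∀ a ∈ t, ‖a - z₀‖ ≤ r ∧ f a = 0) → ‖f z₀‖ * (R / r) ^ t.card ≤ C := by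
  have hR0 : 0 < R := hr.trans hR
  classical
  induction t using Finset.induction_on with
  | empty =>
    intro f hf hb _
    have h1 : ‖f z₀‖ ≤ C := by
      refine Complex.norm_le_of_forall_mem_frontier_norm_le (U := ball z₀ R) isBounded_ball hf.diffContOnCl ?_ ?_
      · intro z hz
        rw [frontier_ball z₀ hR0.ne'] at hz
        exact hb z hz
      · exact subset_closure (mem_ball_self hR0)
    simpa using h1
  | insert a t ha ih =>
    intro f hf hb ht
    have ha1 := ht a (Finset.mem_insert_self a t)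
    by_cases h0 : a = z₀
    · have h2 : f z₀ = 0 := by rw [← h0]; exact ha1.2
      have hC : 0 ≤ C := by
        have h3 := hb (z₀ + R) (by simp [hR0.le])
        exact (norm_nonneg _).trans h3
      rw [h2, norm_zero, zero_mul]
      exact hC
    let f₁ : ℂ → ℂ := fun z => dslope f a z * (((R : ℂ) ^ 2 - (starRingEnd ℂ) (a - z₀) * (z - z₀)) / R)
    have hd : Differentiable ℂ (dslope f a) := by
      intro z
      have h1 : DifferentiableOn ℂ (dslope f a) Set.univ := (Complex.differentiableOn_dslope Filter.univ_mem).2 hf.differentiableOn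
      exact (h1 z (Set.mem_univ z)).differentiableAt Filter.univ_mem
    have hf₁ : Differentiable ℂ f₁ := by
      refine hd.mul ?_
      fun_prop
    have hs : ∀ z, z ≠ a → dslope f a z = f z / (z - a) := by
      intro z hz
      rw [dslope_of_ne f hz, slope_def_field, ha1.2, sub_zero]
    have hb₁ : ∀ z ∈ sphere z₀ R, ‖f₁ z‖ ≤ C := by
      intro z hz
      have hzR : ‖z - z₀‖ = R := by simpa [dist_eq_norm] using hz
      have hza : z ≠ a := by
        rintro rfl
        linarith [ha1.1]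
      have h1 : ‖(R : ℂ) ^ 2 - (starRingEnd ℂ) (a - z₀) * (z - z₀)‖ = R * ‖z - a‖ := by
        have h2 : (R : ℂ) ^ 2 = (starRingEnd ℂ) (z - z₀) * (z - z₀) := by
          rw [mul_comm, Complex.mul_conj, Complex.normSq_eq_norm_sq, hzR]
          push_cast
          ring
        rw [h2, ← sub_mul, ← map_sub, norm_mul, hzR, RCLike.norm_conj, mul_comm]
        congr 2
        ring
      have h3 : 0 < ‖z - a‖ := norm_pos_iff.2 (sub_ne_zero.2 hza)
      have h4 : ‖f₁ z‖ = ‖f z‖ := by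
        change ‖dslope f a z * (((R : ℂ) ^ 2 - (starRingEnd ℂ) (a - z₀) * (z - z₀)) / R)‖ = ‖f z‖
        rw [hs z hza, norm_mul, norm_div, norm_div, h1, Complex.norm_real, Real.norm_of_nonneg hR0.le]
        field_simp
      rw [h4]
      exact hb z hz
    have ht₁ : ∀ b ∈ t, ‖b - z₀‖ ≤ r ∧ f₁ b = 0 := by
      intro b hbt
      have h1 := ht b (Finset.mem_insert_of_mem hbt)
      have h2 : b ≠ a := by
        rintro rfl
        exact ha hbt
      refine ⟨h1.1, ?_⟩
      change dslope f a b * _ = 0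
      rw [hs b h2, h1.2, zero_div, zero_mul]
    have h5 := ih f₁ hf₁ hb₁ ht₁
    have h6 : ‖f z₀‖ * (R / r) ≤ ‖f₁ z₀‖ := by
      have h7 : 0 < ‖z₀ - a‖ := norm_pos_iff.2 (sub_ne_zero.2 (Ne.symm h0))
      have h8 : ‖z₀ - a‖ ≤ r := by
        rw [norm_sub_rev]
        exact ha1.1
      have h9 : ‖f₁ z₀‖ = ‖f z₀‖ * (R / ‖z₀ - a‖) := by
        change ‖dslope f a z₀ * (((R : ℂ) ^ 2 - (starRingEnd ℂ) (a - z₀) * (z₀ - z₀)) / R)‖ = _
        rw [hs z₀ (Ne.symm h0), sub_self, mul_zero, sub_zero, norm_mul, norm_div, norm_div, norm_pow, Complex.norm_real,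
          Real.norm_of_nonneg hR0.le]
        field_simp
      rw [h9]
      exact mul_le_mul_of_nonneg_left (div_le_div_of_nonneg_left hR0.le h7 h8) (norm_nonneg _)
    rw [Finset.card_insert_of_notMem ha, pow_succ', ← mul_assoc]
    exact (mul_le_mul_of_nonneg_right h6 (pow_nonneg (div_nonneg hR0.le hr.le) _)).trans h5

/-- Jensen's inequality for the number of (distinct) zeros in a disc -/
theorem card_zeros_le {f : ℂ → ℂ} {z₀ : ℂ} {r R A : ℝ} (hr : 0 < r) (hR : r < R) (hf : Differentiable ℂ f) (h0 : f z₀ ≠ 0)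
    (hb : ∀ z ∈ closedBall z₀ R, ‖f z‖ ≤ Real.exp A) (t : Finset ℂ) (ht : ∀ a ∈ t, ‖a - z₀‖ ≤ r ∧ f a = 0) :
    (t.card : ℝ) * Real.log (R / r) ≤ A - Real.log ‖f z₀‖ := by
  have h1 := jen_aux hr hR t f hf (fun z hz => hb z (sphere_subset_closedBall hz)) ht
  have h2 : 0 < ‖f z₀‖ := norm_pos_iff.2 h0
  have h3 : 0 < (R / r) ^ t.card := pow_pos (div_pos (hr.trans hR) hr) _
  have h4 := Real.log_le_log (mul_pos h2 h3) h1
  rw [Real.log_exp, Real.log_mul h2.ne' h3.ne', Real.log_pow] at h4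
  linarith

end Pool.Agent.SR3

end
end

section

/-!
# SR3 LPol: homogeneous polynomials in two variables are Lipschitz on bounded sets
-/

set_option autoImplicit false

noncomputable section

namespace Pool.Agent.SR3

private theorem pow_sub_le {a b : ℂ} {R e : ℝ} (hR : 1 ≤ R) (ha : ‖a‖ ≤ R) (hb : ‖b‖ ≤ R) (he : ‖a - b‖ ≤ e) (n : ℕ) :
    ‖a ^ n - b ^ n‖ ≤ n * R ^ n * e := by
  have hR0 : 0 ≤ R := zero_le_one.trans hR
  have he0 : 0 ≤ e := (norm_nonneg _).trans he
  induction n with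
  | zero => simp
  | succ n ih =>
    have h1 : a ^ (n + 1) - b ^ (n + 1) = a ^ n * (a - b) + (a ^ n - b ^ n) * b := by ring
    have h2 : ‖a ^ n * (a - b)‖ ≤ R ^ (n + 1) * e := by
      rw [norm_mul, norm_pow]
      refine mul_le_mul ?_ he (norm_nonneg _) (by positivity)
      exact (pow_le_pow_left₀ (norm_nonneg _) ha n).trans (pow_le_pow_right₀ hR (Nat.le_succ n))
    have h3 : ‖(a ^ n - b ^ n) * b‖ ≤ n * R ^ (n + 1) * e := by
      rw [norm_mul]
      calc ‖a ^ n - b ^ n‖ * ‖b‖ ≤ (n * R ^ n * e) * R := mul_le_mul ih hb (norm_nonneg _) (by positivity)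
        _ = n * R ^ (n + 1) * e := by ring
    rw [h1]
    refine (norm_add_le _ _).trans ((add_le_add h2 h3).trans (le_of_eq ?_))
    push_cast
    ring

private theorem deg_eq {m : ℕ} {P : MvPolynomial (Fin 2) ℂ} (hP : P.IsHomogeneous m) {d : Fin 2 →₀ ℕ} (hd : d ∈ P.support) :
    d 0 + d 1 = m := by
  have h1 := hP (MvPolynomial.mem_support_iff.1 hd)
  rw [Finsupp.weight_apply, Finsupp.sum_fintype _ _ (by simp)] at h1
  simpa [Fin.sum_univ_two] using h1

theorem crs_lip {m : ℕ} {P : MvPolynomial (Fin 2) ℂ} (hP : P.IsHomogeneous m) : ∃ C : ℝ, 0 ≤ C ∧ ∀ (u v : Fin 2 → ℂ) (R e : ℝ), 1 ≤ R → (∀ a, ‖u a‖ ≤ R) →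
    (∀ a, ‖v a‖ ≤ R) → (∀ a, ‖u a - v a‖ ≤ e) → ‖MvPolynomial.eval u P - MvPolynomial.eval v P‖ ≤ C * R ^ m * e := by
  refine ⟨∑ d ∈ P.support, ‖P.coeff d‖ * m, Finset.sum_nonneg fun d _ => by positivity, fun u v R e hR hu hv he => ?_⟩
  have hR0 : 0 ≤ R := zero_le_one.trans hR
  have he0 : 0 ≤ e := (norm_nonneg _).trans (he 0)
  rw [MvPolynomial.eval_eq', MvPolynomial.eval_eq', ← Finset.sum_sub_distrib, Finset.sum_mul, Finset.sum_mul]
  refine (norm_sum_le _ _).trans (Finset.sum_le_sum fun d hd => ?_)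
  have hm := deg_eq hP hd
  rw [← mul_sub, norm_mul, Fin.prod_univ_two, Fin.prod_univ_two]
  have h0 := pow_sub_le hR (hu 0) (hv 0) (he 0) (d 0)
  have h1 := pow_sub_le hR (hu 1) (hv 1) (he 1) (d 1)
  have h2 : u 0 ^ d 0 * u 1 ^ d 1 - v 0 ^ d 0 * v 1 ^ d 1 = u 0 ^ d 0 * (u 1 ^ d 1 - v 1 ^ d 1) + (u 0 ^ d 0 - v 0 ^ d 0) * v 1 ^ d 1 := by ring
  have h3 : ‖u 0 ^ d 0 * (u 1 ^ d 1 - v 1 ^ d 1)‖ ≤ R ^ d 0 * (d 1 * R ^ d 1 * e) := by
    rw [norm_mul, norm_pow]
    exact mul_le_mul (pow_le_pow_left₀ (norm_nonneg _) (hu 0) _) h1 (norm_nonneg _) (by positivity)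
  have h4 : ‖(u 0 ^ d 0 - v 0 ^ d 0) * v 1 ^ d 1‖ ≤ (d 0 * R ^ d 0 * e) * R ^ d 1 := by
    rw [norm_mul, norm_pow]
    exact mul_le_mul h0 (pow_le_pow_left₀ (norm_nonneg _) (hv 1) _) (by positivity) (by positivity)
  have h5 : ‖u 0 ^ d 0 * u 1 ^ d 1 - v 0 ^ d 0 * v 1 ^ d 1‖ ≤ m * R ^ m * e := by
    rw [h2]
    refine (norm_add_le _ _).trans ((add_le_add h3 h4).trans (le_of_eq ?_))
    rw [← hm]
    push_cast
    ring
  calc ‖MvPolynomial.coeff d P‖ * ‖u 0 ^ d 0 * u 1 ^ d 1 - v 0 ^ d 0 * v 1 ^ d 1‖ ≤ ‖MvPolynomial.coeff d P‖ * (m * R ^ m * e) :=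
        mul_le_mul_of_nonneg_left h5 (norm_nonneg _)
    _ = ‖MvPolynomial.coeff d P‖ * m * R ^ m * e := by ring

theorem crs_neg {m : ℕ} {P : MvPolynomial (Fin 2) ℂ} (hP : P.IsHomogeneous m) (u : Fin 2 → ℂ) :
    MvPolynomial.eval (fun a => -u a) P = (-1) ^ m * MvPolynomial.eval u P := by
  rw [MvPolynomial.eval_eq', MvPolynomial.eval_eq', Finset.mul_sum]
  refine Finset.sum_congr rfl fun d hd => ?_
  have hm := deg_eq hP hd
  rw [Fin.prod_univ_two, Fin.prod_univ_two, neg_pow (u 0), neg_pow (u 1), ← hm, pow_add]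
  ring

end Pool.Agent.SR3

end
end

section

/-!
# SR3 LSum: the error terms at the holes
-/

set_option autoImplicit false

open Topology Filter Metric

noncomputable section

namespace Pool.Agent.SR3

theorem hl_sum {B η : ℝ} (hB : 1 ≤ B) (hη : 0 < η) : ∃ C' ρ₁ : ℝ, ∀ (κ : Type) [Fintype κ] (ζ : κ → ℂ) (s : κ → ℝ) (ρ : ℝ), ρ₁ ≤ ρ →
    (∀ k, 0 < s k ∧ s k ≤ Real.exp (-(η * ρ))) → Function.Injective ζ → (Fintype.card κ : ℝ) ≤ B * ρ →
    (∀ k t, 0 < t → t < ρ → ((Finset.univ.filter fun j => 0 < ‖ζ j - ζ k‖ ∧ ‖ζ j - ζ k‖ ≤ t).card : ℝ) * Real.log (ρ / t) ≤ B * ρ) →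
    ∀ z, (∀ k, s k ≤ ‖z - ζ k‖) → ∑ k, s k / ‖z - ζ k‖ ≤ C' := by
  classical
  refine ⟨(1 + 2 * B / η) + 2 * B / η, 3, fun κ _ ζ s ρ hρ hs hinj hcard hcnt z hz => ?_⟩
  have hρ0 : 0 < ρ := by linarith
  have hx0 : 0 < η * ρ / 2 := by positivity
  set δ : ℝ := Real.exp (-(η * ρ / 2)) with hδ
  have hδ0 : 0 < δ := Real.exp_pos _
  have hδ1 : δ ≤ 1 := Real.exp_le_one_iff.2 (by linarith)
  have hδ2 : Real.exp (-(η * ρ)) = δ * δ := by
    rw [hδ, ← Real.exp_add]
    congr 1
    ring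
  have hterm1 : ∀ k, s k / ‖z - ζ k‖ ≤ 1 := fun k => div_le_one_of_le₀ (hz k) (norm_nonneg _)
  have hx1 : η * ρ / 2 * δ ≤ 1 := by
    have h1 : η * ρ / 2 ≤ Real.exp (η * ρ / 2) := by linarith [Real.add_one_le_exp (η * ρ / 2)]
    calc η * ρ / 2 * δ ≤ Real.exp (η * ρ / 2) * δ := by gcongr
      _ = 1 := by rw [hδ, ← Real.exp_add, add_neg_cancel, Real.exp_zero]
  rw [← Finset.sum_filter_add_sum_filter_not Finset.univ (fun k => ‖z - ζ k‖ < δ)]
  refine add_le_add ?_ ?_
  · rcases (Finset.univ.filter fun k => ‖z - ζ k‖ < δ).eq_empty_or_nonempty with h0 | ⟨k₀, hk₀⟩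
    · rw [h0, Finset.sum_empty]
      positivity
    · have hk1 : ‖z - ζ k₀‖ < δ := (Finset.mem_filter.1 hk₀).2
      have hsub : (Finset.univ.filter fun k => ‖z - ζ k‖ < δ) ⊆
          insert k₀ (Finset.univ.filter fun j => 0 < ‖ζ j - ζ k₀‖ ∧ ‖ζ j - ζ k₀‖ ≤ 2 * δ) := by
        intro k hk
        rw [Finset.mem_insert]
        by_cases hkk : k = k₀
        · exact Or.inl hkk
        · refine Or.inr (Finset.mem_filter.2 ⟨Finset.mem_univ _, ?_, ?_⟩)
          · exact norm_pos_iff.2 (sub_ne_zero.2 fun h => hkk (hinj h))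
          · have h1 := (Finset.mem_filter.1 hk).2
            calc ‖ζ k - ζ k₀‖ = ‖(z - ζ k₀) - (z - ζ k)‖ := by congr 1; ring
              _ ≤ ‖z - ζ k₀‖ + ‖z - ζ k‖ := norm_sub_le _ _
              _ ≤ 2 * δ := by linarith
      have hlog : η * ρ / 2 ≤ Real.log (ρ / (2 * δ)) := by
        rw [Real.le_log_iff_exp_le (by positivity), le_div_iff₀ (by positivity)]
        have h1 : Real.exp (η * ρ / 2) * δ = 1 := by rw [hδ, ← Real.exp_add, add_neg_cancel, Real.exp_zero]
        nlinarith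
      have hn := hcnt k₀ (2 * δ) (by positivity) (by linarith)
      set n : ℝ := ((Finset.univ.filter fun j => 0 < ‖ζ j - ζ k₀‖ ∧ ‖ζ j - ζ k₀‖ ≤ 2 * δ).card : ℝ) with hndef
      have hn0 : 0 ≤ n := Nat.cast_nonneg _
      have hn1 : n ≤ 2 * B / η := by
        rw [le_div_iff₀ hη]
        have h1 : n * (η * ρ / 2) ≤ B * ρ := (mul_le_mul_of_nonneg_left hlog hn0).trans hn
        have h2 : (n * η) * ρ ≤ (2 * B) * ρ := by linarith
        exact le_of_mul_le_mul_right h2 hρ0
      calc ∑ k ∈ Finset.univ.filter (fun k => ‖z - ζ k‖ < δ), s k / ‖z - ζ k‖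
          ≤ ∑ k ∈ Finset.univ.filter (fun k => ‖z - ζ k‖ < δ), (1 : ℝ) := Finset.sum_le_sum fun k _ => hterm1 k
        _ = ((Finset.univ.filter (fun k => ‖z - ζ k‖ < δ)).card : ℝ) := by rw [Finset.sum_const, nsmul_eq_mul, mul_one]
        _ ≤ ((insert k₀ (Finset.univ.filter fun j => 0 < ‖ζ j - ζ k₀‖ ∧ ‖ζ j - ζ k₀‖ ≤ 2 * δ)).card : ℝ) := by
            exact_mod_cast Finset.card_le_card hsub
        _ ≤ n + 1 := by
            rw [hndef]
            exact_mod_cast Finset.card_insert_le _ _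
        _ ≤ 1 + 2 * B / η := by linarith
  · calc ∑ k ∈ Finset.univ.filter (fun k => ¬ ‖z - ζ k‖ < δ), s k / ‖z - ζ k‖
        ≤ ∑ k ∈ Finset.univ.filter (fun k => ¬ ‖z - ζ k‖ < δ), δ := by
          refine Finset.sum_le_sum fun k hk => ?_
          have h := not_lt.1 (Finset.mem_filter.1 hk).2
          rw [div_le_iff₀ (hδ0.trans_le h)]
          calc s k ≤ δ * δ := (hs k).2.trans_eq hδ2
            _ ≤ δ * ‖z - ζ k‖ := by gcongr
      _ = ((Finset.univ.filter (fun k => ¬ ‖z - ζ k‖ < δ)).card : ℝ) * δ := by rw [Finset.sum_const, nsmul_eq_mul]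
      _ ≤ (B * ρ) * δ := by
          refine mul_le_mul_of_nonneg_right (le_trans ?_ hcard) hδ0.le
          exact_mod_cast Finset.card_le_univ _
      _ ≤ 2 * B / η := by
          rw [le_div_iff₀ hη]
          have h1 : B * (η * ρ / 2 * δ) ≤ B * 1 := by gcongr
          linarith

end Pool.Agent.SR3

end
end

section

/-!
# SR3 Win: contour integrals of logarithmic derivatives

* `circle_close`: Rouché; `log (f / g)` is a primitive of the difference on the circle.
* `circle_zero`: `f = (z - w) ^ k * G`, `G` without zeros on the closed disc.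
* `circle_poly`: induction on the degree.
-/

set_option autoImplicit false

open Topology Filter Metric

noncomputable section

namespace Pool.Agent.SR3

private theorem win_int {f : ℂ → ℂ} {w : ℂ} {ρ : ℝ} (hρ : 0 < ρ) (hf : ∀ z ∈ sphere w ρ, AnalyticAt ℂ f z) (h0 : ∀ z ∈ sphere w ρ, f z ≠ 0) :
    CircleIntegrable (fun z => logDeriv f z) w ρ := by
  refine ContinuousOn.circleIntegrable hρ.le fun z hz => ?_
  have h1 : ContinuousAt (fun z => deriv f z / f z) z := (hf z hz).deriv.continuousAt.div (hf z hz).continuousAt (h0 z hz)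
  exact h1.continuousWithinAt

theorem circle_close {f g : ℂ → ℂ} {w : ℂ} {ρ : ℝ} (hρ : 0 < ρ) (hf : ∀ z ∈ sphere w ρ, AnalyticAt ℂ f z) (hg : ∀ z ∈ sphere w ρ, AnalyticAt ℂ g z)
    (h : ∀ z ∈ sphere w ρ, ‖f z - g z‖ < ‖g z‖) : (∮ z in C(w, ρ), logDeriv f z) = ∮ z in C(w, ρ), logDeriv g z := by
  have hg0 : ∀ z ∈ sphere w ρ, g z ≠ 0 := fun z hz h1 => by
    have h2 := h z hz
    rw [h1, norm_zero] at h2
    exact absurd h2 (not_lt.2 (norm_nonneg _))
  have hf0 : ∀ z ∈ sphere w ρ, f z ≠ 0 := fun z hz h1 => by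
    have h2 := h z hz
    rw [h1, zero_sub, norm_neg] at h2
    exact lt_irrefl _ h2
  have h1 : (∮ z in C(w, ρ), (logDeriv f z - logDeriv g z)) = 0 := by
    refine circleIntegral.integral_eq_zero_of_hasDerivWithinAt (f := fun z => Complex.log (f z / g z)) hρ.le fun z hz => ?_
    have hdf := (hf z hz).differentiableAt.hasDerivAt
    have hdg := (hg z hz).differentiableAt.hasDerivAt
    have hq := hdf.div hdg (hg0 z hz)
    have hslit : f z / g z ∈ Complex.slitPlane := by
      have h3 : ‖f z / g z - 1‖ < 1 := by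
        have h4 : f z / g z - 1 = (f z - g z) / g z := by
          rw [sub_div, div_self (hg0 z hz)]
        rw [h4, norm_div, div_lt_one (norm_pos_iff.2 (hg0 z hz))]
        exact h z hz
      have h5 := Complex.mem_slitPlane_of_norm_lt_one h3
      rwa [add_sub_cancel] at h5
    have h6 := HasDerivAt.clog hq hslit
    refine HasDerivAt.hasDerivWithinAt (HasDerivAt.congr_deriv h6 ?_)
    have e1 := hf0 z hz
    have e2 := hg0 z hz
    show _ = deriv f z / f z - deriv g z / g z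
    have e3 : (f / g) z = f z / g z := rfl
    try rw [e3]
    field_simp
  rw [circleIntegral.integral_sub (win_int hρ hf hf0) (win_int hρ hg hg0)] at h1
  exact sub_eq_zero.1 h1

/-- an isolated zero in the centre -/
theorem circle_zero {f : ℂ → ℂ} {w : ℂ} {ρ : ℝ} (hρ : 0 < ρ) (hf : ∀ z ∈ closedBall w ρ, AnalyticAt ℂ f z) (h0 : f w = 0)
    (h1 : ∀ z ∈ closedBall w ρ, z ≠ w → f z ≠ 0) : ∃ k : ℕ, 1 ≤ k ∧ (∮ z in C(w, ρ), logDeriv f z) = 2 * Real.pi * Complex.I * k := by
  classical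
  have hw : w ∈ closedBall w ρ := mem_closedBall_self hρ.le
  have hne : ¬ ∀ᶠ z in 𝓝 w, f z = 0 := by
    intro h2
    have h3 : ∀ᶠ z in 𝓝[≠] w, f z = 0 := h2.filter_mono nhdsWithin_le_nhds
    have h4 : ∀ᶠ z in 𝓝[≠] w, z ∈ closedBall w ρ := nhdsWithin_le_nhds (closedBall_mem_nhds w hρ)
    have h5 : ∀ᶠ z in 𝓝[≠] w, z ≠ w := self_mem_nhdsWithin
    obtain ⟨z, ⟨e1, e2⟩, e3⟩ := ((h3.and h4).and h5).exists
    exact h1 z e2 e3 e1
  obtain ⟨k, g₀, hg₀, hg0, hev⟩ := (hf w hw).exists_eventuallyEq_pow_smul_nonzero_iff.2 hne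
  have hk : 1 ≤ k := by
    rcases Nat.eq_zero_or_pos k with h2 | h2
    · exfalso
      have h3 := hev.self_of_nhds
      rw [h2, pow_zero, one_smul, h0] at h3
      exact hg0 h3.symm
    · exact h2
  refine ⟨k, hk, ?_⟩
  set G : ℂ → ℂ := fun z => if z = w then g₀ w else f z / (z - w) ^ k with hG
  have hGw : G =ᶠ[𝓝 w] g₀ := by
    filter_upwards [hev] with z hz
    by_cases hzw : z = w
    · rw [hG]; simp only [hzw, if_true]
    · have e1 : (z - w) ^ k ≠ 0 := pow_ne_zero _ (sub_ne_zero.2 hzw)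
      show (if z = w then g₀ w else f z / (z - w) ^ k) = g₀ z
      rw [if_neg hzw, hz, smul_eq_mul, mul_div_cancel_left₀ _ e1]
  have hGz : ∀ z, z ≠ w → G =ᶠ[𝓝 z] fun z => f z / (z - w) ^ k := by
    intro z hz
    filter_upwards [isOpen_ne.mem_nhds hz] with u hu
    exact if_neg hu
  have hGa : ∀ z ∈ closedBall w ρ, AnalyticAt ℂ G z := by
    intro z hz
    by_cases hzw : z = w
    · rw [hzw]; exact hg₀.congr hGw.symm
    · refine AnalyticAt.congr ?_ (hGz z hzw).symm
      exact (hf z hz).div ((analyticAt_id.sub analyticAt_const).pow k) (pow_ne_zero _ (sub_ne_zero.2 hzw))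
  have hG0 : ∀ z ∈ closedBall w ρ, G z ≠ 0 := by
    intro z hz
    by_cases hzw : z = w
    · have : G z = g₀ w := if_pos hzw
      rw [this]; exact hg0
    · have : G z = f z / (z - w) ^ k := if_neg hzw
      rw [this]
      exact div_ne_zero (h1 z hz hzw) (pow_ne_zero _ (sub_ne_zero.2 hzw))
  have hsph : ∀ z ∈ sphere w ρ, logDeriv f z = (k : ℂ) * (z - w)⁻¹ + logDeriv G z := by
    intro z hz
    have hzw : z ≠ w := ne_of_mem_sphere hz hρ.ne'
    have hzw' : z - w ≠ 0 := sub_ne_zero.2 hzw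
    have hzc : z ∈ closedBall w ρ := sphere_subset_closedBall hz
    have e1 : f =ᶠ[𝓝 z] fun u => (u - w) ^ k * G u := by
      filter_upwards [hGz z hzw, isOpen_ne.mem_nhds hzw] with u hu hu'
      rw [hu, mul_div_cancel₀]
      exact pow_ne_zero _ (sub_ne_zero.2 hu')
    rw [(logDeriv_congr_nhds e1).self_of_nhds]
    have e2 : DifferentiableAt ℂ (fun u : ℂ => (u - w) ^ k) z := by fun_prop
    rw [logDeriv_mul (f := fun u : ℂ => (u - w) ^ k) (g := G) z (pow_ne_zero k hzw') (hG0 z hzc) e2 (hGa z hzc).differentiableAt]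
    congr 1
    have e3 : DifferentiableAt ℂ (fun u : ℂ => u - w) z := by fun_prop
    rw [logDeriv_fun_pow e3 k]
    congr 1
    rw [logDeriv_apply]
    have e4 : deriv (fun u : ℂ => u - w) z = 1 := by simp
    rw [e4, one_div]
  have hint1 : CircleIntegrable (fun z : ℂ => (k : ℂ) * (z - w)⁻¹) w ρ := by
    refine ContinuousOn.circleIntegrable hρ.le fun z hz => ?_
    have hzw' : z - w ≠ 0 := sub_ne_zero.2 (ne_of_mem_sphere hz hρ.ne')
    have : ContinuousAt (fun z : ℂ => (k : ℂ) * (z - w)⁻¹) z := continuousAt_const.mul ((continuousAt_id.sub continuousAt_const).inv₀ hzw')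
    exact this.continuousWithinAt
  have hint2 : CircleIntegrable (fun z => logDeriv G z) w ρ :=
    win_int hρ (fun z hz => hGa z (sphere_subset_closedBall hz)) fun z hz => hG0 z (sphere_subset_closedBall hz)
  rw [circleIntegral.integral_congr hρ.le hsph, circleIntegral.integral_add hint1 hint2]
  have hz2 : (∮ z in C(w, ρ), logDeriv G z) = 0 := by
    have ha : ∀ z ∈ closedBall w ρ, AnalyticAt ℂ (fun z => logDeriv G z) z := fun z hz =>
      ((hGa z hz).deriv.div (hGa z hz) (hG0 z hz) : AnalyticAt ℂ (fun z => deriv G z / G z) z)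
    exact Complex.circleIntegral_eq_zero_of_differentiable_on_off_countable hρ.le Set.countable_empty
      (fun z hz => (ha z hz).continuousAt.continuousWithinAt) fun z hz => (ha z (ball_subset_closedBall hz.1)).differentiableAt
  rw [hz2, add_zero, circleIntegral.integral_const_mul, circleIntegral.integral_sub_inv_of_mem_ball (mem_ball_self hρ)]
  ring

/-- polynomials with all zeros in the disc -/
theorem circle_poly {p : Polynomial ℂ} (hp : p ≠ 0) {ρ : ℝ} (hρ : 0 < ρ) (h : ∀ z, p.eval z = 0 → ‖z‖ < ρ) :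
    (∮ z in C(0, ρ), logDeriv (fun z => p.eval z) z) = 2 * Real.pi * Complex.I * p.natDegree := by
  induction hn : p.natDegree generalizing p with
  | zero =>
    obtain ⟨a, ha⟩ : ∃ a, p = Polynomial.C a := ⟨_, Polynomial.eq_C_of_natDegree_eq_zero hn⟩
    have h1 : (fun z => p.eval z) = fun _ : ℂ => a := by
      funext z
      rw [ha, Polynomial.eval_C]
    have h2 : (fun z : ℂ => logDeriv (fun _ : ℂ => a) z) = fun _ => 0 := by
      funext z
      rw [logDeriv_const]
      rfl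
    rw [h1, h2, Nat.cast_zero, mul_zero]
    have h3 := circleIntegral.integral_const_mul (0 : ℂ) (fun _ => (0 : ℂ)) 0 ρ
    simpa using h3
  | succ n ih =>
    have hdeg : p.degree ≠ 0 := by
      intro h2
      have h3 : p.natDegree = 0 := Polynomial.natDegree_eq_of_degree_eq_some h2
      rw [hn] at h3
      exact Nat.succ_ne_zero n h3
    obtain ⟨r, hr⟩ := IsAlgClosed.exists_root p hdeg
    have hr' : p.eval r = 0 := hr
    obtain ⟨q, hq⟩ := Polynomial.dvd_iff_isRoot.2 hr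
    have hq0 : q ≠ 0 := by
      rintro rfl
      exact hp (by rw [hq, mul_zero])
    have hqn : q.natDegree = n := by
      have h2 : p.natDegree = (Polynomial.X - Polynomial.C r).natDegree + q.natDegree := by
        rw [hq]
        exact Polynomial.natDegree_mul (Polynomial.X_sub_C_ne_zero r) hq0
      rw [Polynomial.natDegree_X_sub_C, hn] at h2
      omega
    have hqz : ∀ z, q.eval z = 0 → ‖z‖ < ρ := fun z hz => h z (by rw [hq, Polynomial.eval_mul, hz, mul_zero])
    have ih' := ih hq0 hqz hqn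
    have hrb : r ∈ ball (0 : ℂ) ρ := mem_ball_zero_iff.2 (h r hr')
    have hqs : ∀ z ∈ sphere (0 : ℂ) ρ, q.eval z ≠ 0 := by
      intro z hz h2
      have h3 := hqz z h2
      rw [mem_sphere_zero_iff_norm] at hz
      exact h3.ne hz
    have hrs : ∀ z ∈ sphere (0 : ℂ) ρ, z - r ≠ 0 := by
      intro z hz h2
      rw [sub_eq_zero] at h2
      rw [h2, mem_sphere_zero_iff_norm] at hz
      exact (h r hr').ne hz
    have hqd : ∀ z, AnalyticAt ℂ (fun z => q.eval z) z := fun z => q.differentiable.analyticAt z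
    have hsph : ∀ z ∈ sphere (0 : ℂ) ρ, logDeriv (fun z => p.eval z) z = (z - r)⁻¹ + logDeriv (fun z => q.eval z) z := by
      intro z hz
      have e1 : (fun z => p.eval z) = fun z => (z - r) * q.eval z := by
        funext u
        rw [hq, Polynomial.eval_mul, Polynomial.eval_sub, Polynomial.eval_X, Polynomial.eval_C]
      have e2 : DifferentiableAt ℂ (fun u : ℂ => u - r) z := by fun_prop
      rw [e1, logDeriv_mul (f := fun u : ℂ => u - r) (g := fun u => q.eval u) z (hrs z hz) (hqs z hz) e2 (hqd z).differentiableAt]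
      congr 1
      rw [logDeriv_apply]
      have e4 : deriv (fun u : ℂ => u - r) z = 1 := by simp
      rw [e4, one_div]
    have hint1 : CircleIntegrable (fun z : ℂ => (z - r)⁻¹) 0 ρ := by
      refine ContinuousOn.circleIntegrable hρ.le fun z hz => ?_
      have : ContinuousAt (fun z : ℂ => (z - r)⁻¹) z := (continuousAt_id.sub continuousAt_const).inv₀ (hrs z hz)
      exact this.continuousWithinAt
    have hint2 : CircleIntegrable (fun z => logDeriv (fun z => q.eval z) z) 0 ρ := win_int hρ (fun z _ => hqd z) hqs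
    rw [circleIntegral.integral_congr hρ.le hsph, circleIntegral.integral_add hint1 hint2, circleIntegral.integral_sub_inv_of_mem_ball hrb, ih']
    push_cast
    ring

end Pool.Agent.SR3

end
end
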