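import Pool.Agent.H43.TL2.M134
import Pool.Agent.H43.TL2.M151
import Pool.Agent.H43.TL2.M152
import Pool.Agent.H43.TL2.M153
import Pool.Agent.H43.TL2.M40
import Pool.Agent.H43.TL2.M59

/-! The parts of this file: H22.W.Tan, H22.W.Def, SR3.F.Mx, SR3.F.Sg, SR3.F.Cmp, SR3.LimE_1. -/

section

/-!
# W Tan: tangent vectors of a cone
-/

set_option autoImplicit false

open Topology Filter Metric

namespace Pool.Agent.H22.W

open Pool.Agent.H36.BP (EN fs wd)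
open Pool.Agent.H14.PP (IsCone Chart Tan CurveAt IsOpenPart)

variable {N : ℕ} {X : Set (EN N)}

/-- scaling of tangent vectors -/
theorem tan_smul (hX : IsCone X) {x v : EN N} (h : Tan X x v) {c : ℂ} (hc : c ≠ 0) :
    Tan X (c • x) (c • v) := by
  obtain ⟨F, ⟨hF, hFX⟩, h0, h1⟩ := h
  have hFc : AnalyticAt ℂ (fun z => c • F z) 0 := analyticAt_const.fun_smul hF
  refine ⟨fun z => c • F z, ⟨hFc, ?_⟩, by simp [h0], ?_⟩
  · filter_upwards [hFX] with z hz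
    exact hX.smul_mem _ hz c hc
  · rw [deriv_fun_const_smul c hF.differentiableAt, h1]

theorem tan_mem {x v : EN N} (h : Tan X x v) : x ∈ X := by
  obtain ⟨F, hF, h0, -⟩ := h
  rw [← h0]
  exact hF.2.self_of_nhds

/-- the tangent vectors of a curve -/
theorem tan_curve {F : ℂ → EN N} {z₀ : ℂ} (hF : CurveAt X F z₀) : Tan X (F z₀) (deriv F z₀) := by
  obtain ⟨hF1, hF2⟩ := hF
  have hl : AnalyticAt ℂ (fun z : ℂ => z₀ + z) 0 := by fun_prop
  have h0 : z₀ + (0 : ℂ) = z₀ := add_zero _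
  refine ⟨fun z => F (z₀ + z), ⟨?_, ?_⟩, by simp, ?_⟩
  · have h1 : AnalyticAt ℂ F (z₀ + 0) := by rw [h0]; exact hF1
    exact h1.fun_comp hl
  · have h2 : Tendsto (fun z : ℂ => z₀ + z) (𝓝 0) (𝓝 z₀) := by
      have := hl.continuousAt.tendsto
      simpa using this
    exact h2.eventually hF2
  · have h3 : deriv (fun z => F (z₀ + z)) 0 = deriv F (z₀ + 0) := deriv_comp_const_add _ _ _
    rw [h3, h0]

/-- the tangent vectors in a chart -/
theorem tan_chart (hX : IsCone X) (χ : Chart X) {x v : EN N} (h : Tan X x v) (hU : x ∈ χ.U) :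
    χ.q x ∈ ball (0 : ℂ × ℂ) 2 ∧ ∃ c a : ℂ, c ≠ 0 ∧ x = c • χ.σ (χ.q x) ∧
      v = c • fderiv ℂ χ.σ (χ.q x) (fderiv ℂ χ.q x v) + a • x := by
  obtain ⟨F, hF, h0, h1⟩ := h
  subst h0
  obtain ⟨hq, hq', c, hc, hc0, hev⟩ := χ.curve hX hF hU
  obtain ⟨hball, heq⟩ := hev.self_of_nhds
  refine ⟨hball, c 0, deriv c 0 / c 0, hc0, heq, ?_⟩
  have hs : AnalyticAt ℂ χ.σ (χ.q (F 0)) := χ.σ_an _ hball
  have h2 : HasDerivAt (fun z => χ.σ (χ.q (F z))) (fderiv ℂ χ.σ (χ.q (F 0)) (deriv (fun z => χ.q (F z)) 0)) 0 :=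
    hs.differentiableAt.hasFDerivAt.comp_hasDerivAt (0 : ℂ) hq.differentiableAt.hasDerivAt
  have h3 : HasDerivAt (fun z => c z • χ.σ (χ.q (F z))) (c 0 • fderiv ℂ χ.σ (χ.q (F 0)) (deriv (fun z => χ.q (F z)) 0) +
      deriv c 0 • χ.σ (χ.q (F 0))) 0 := hc.differentiableAt.hasDerivAt.smul h2
  have h4 : deriv F 0 = c 0 • fderiv ℂ χ.σ (χ.q (F 0)) (deriv (fun z => χ.q (F z)) 0) +
      deriv c 0 • χ.σ (χ.q (F 0)) := by
    have h5 : F =ᶠ[𝓝 0] fun z => c z • χ.σ (χ.q (F z)) := hev.mono fun z hz => hz.2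
    rw [h5.deriv_eq]
    exact h3.deriv
  rw [h1] at h4 hq'
  rw [← hq']
  have h6 : (deriv c 0 / c 0) • F 0 = deriv c 0 • χ.σ (χ.q (F 0)) := by
    conv_lhs => rw [heq]
    rw [smul_smul, div_mul_cancel₀ _ hc0]
  rw [h6]
  exact h4

end Pool.Agent.H22.W

end

section

/-!
# W Def: nonpositively curved pseudo-lengths on a projective surface

`X` is the cone (without `0`) of a smooth projective surface.
-/

set_option autoImplicit false

open Topology Filter Metric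

namespace Pool.Agent.H22.W

open Pool.Agent.H36.BP (EN fs wd)
open Pool.Agent.H14.PP (IsCone Chart Tan CurveAt IsOpenPart)

variable {N : ℕ}

/-- A nonpositively curved pseudo-length (a Finsler metric with nonpositive holomorphic sectional curvature, which may vanish on
nonzero vectors) on the surface whose cone is `X`: a continuous function on the tangent bundle, absolutely homogeneous on the tangent
spaces, whose square has the sub-mean value property along every holomorphic disc. -/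
structure PseudoLength (X : Set (EN N)) where
  /-- the length of the tangent vector `v` at the point `x` -/
  toFun : EN N → EN N → ℝ
  nonneg : ∀ x v, Tan X x v → 0 ≤ toFun x v
  add_smul : ∀ x v, Tan X x v → ∀ a : ℂ, toFun x (v + a • x) = toFun x v
  smul : ∀ x v, Tan X x v → ∀ a : ℂ, toFun x (a • v) = ‖a‖ * toFun x v
  scale : ∀ x v, Tan X x v → ∀ c : ℂ, c ≠ 0 → toFun (c • x) (c • v) = toFun x v
  continuous : ContinuousOn (fun p : EN N × EN N => toFun p.1 p.2) {p | Tan X p.1 p.2}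
  curved : ∀ (U : Set ℂ) (F : ℂ → EN N), IsOpen U → DifferentiableOn ℂ F U → (∀ z ∈ U, F z ∈ X) →
    ∀ (c : ℂ) (r : ℝ), 0 < r → closedBall c r ⊆ U →
      toFun (F c) (deriv F c) ^ 2 ≤ Real.circleAverage (fun z => toFun (F z) (deriv F z) ^ 2) c r

variable {X : Set (EN N)}

theorem tan_entire {F : ℂ → EN N} (hF : Differentiable ℂ F) (hFX : ∀ z, F z ∈ X) (z : ℂ) : Tan X (F z) (deriv F z) :=
  tan_curve ⟨hF.analyticAt z, Eventually.of_forall hFX⟩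

end Pool.Agent.H22.W

end

section

/-!
# SR3 F Mx: maximum principle for `‖U‖ exp (-W)`, `U` entire with values in a Hilbert space

At a maximum of `‖U‖ exp (-W)` over the closed ball, greater than `1`, the function `log ‖U‖ - W` would have a positive Laplacian.
-/

set_option autoImplicit false

open Topology Filter Metric Laplacian InnerProductSpace

noncomputable section

namespace Pool.Agent.SR3.F

variable {V : Type} [NormedAddCommGroup V] [InnerProductSpace ℂ V] [CompleteSpace V]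

theorem bar_ball {U : ℂ → V} (hU : Differentiable ℂ U) {W : ℂ → ℝ} {a : ℂ} {R : ℝ} (hW : ∀ z ∈ closedBall a R, ContDiffAt ℝ 2 W z) {E : Set ℂ}
    (hlap : ∀ z ∈ ball a R, z ∈ E → Δ W z < 0) (hout : ∀ z ∈ closedBall a R, z ∉ E → ‖U z‖ ≤ Real.exp (W z))
    (hbd : ∀ z ∈ sphere a R, ‖U z‖ ≤ Real.exp (W z)) : ∀ z ∈ closedBall a R, ‖U z‖ ≤ Real.exp (W z) := by
  intro z hz
  by_contra h
  push Not at h
  have hg : ∀ w : ℂ, 1 < ‖U w‖ * Real.exp (-W w) ↔ Real.exp (W w) < ‖U w‖ := by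
    intro w
    rw [Real.exp_neg, ← div_eq_mul_inv, one_lt_div (Real.exp_pos _)]
  have hcont : ContinuousOn (fun w => ‖U w‖ * Real.exp (-W w)) (closedBall a R) := by
    refine (hU.continuous.norm.continuousOn).mul (Real.continuous_exp.comp_continuousOn ?_)
    exact ContinuousOn.neg fun w hw => (hW w hw).continuousAt.continuousWithinAt
  obtain ⟨w, hw, hmax⟩ := (isCompact_closedBall a R).exists_isMaxOn ⟨z, hz⟩ hcont
  have h1 : 1 < ‖U w‖ * Real.exp (-W w) := lt_of_lt_of_le ((hg z).2 h) (hmax hz)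
  have h2 : Real.exp (W w) < ‖U w‖ := (hg w).1 h1
  have hw0 : U w ≠ 0 := norm_pos_iff.1 ((Real.exp_pos _).trans h2)
  have hwb : w ∈ ball a R := by
    have h3 : dist w a ≤ R := hw
    rcases h3.lt_or_eq with h4 | h4
    · exact h4
    · exact absurd (hbd w h4) (not_le.2 h2)
  have hwE : w ∈ E := by
    by_contra h3
    exact absurd (hout w hw h3) (not_le.2 h2)
  have hA : AnalyticAt ℂ U w := hU.analyticAt w
  have hL : ContDiffAt ℝ 2 (fun v => Real.log ‖U v‖) w := MQ.contDiffAt_log_norm hA hw0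
  have hf : ContDiffAt ℝ 2 (fun v => Real.log ‖U v‖ - W v) w := hL.sub (hW w hw)
  have hloc : IsLocalMax (fun v => Real.log ‖U v‖ - W v) w := by
    have h3 : ∀ᶠ v in 𝓝 w, U v ≠ 0 := hA.continuousAt.eventually_ne hw0
    have h4 : ∀ᶠ v in 𝓝 w, v ∈ ball a R := isOpen_ball.mem_nhds hwb
    filter_upwards [h3, h4] with v h5 h6
    have h7 : ‖U v‖ * Real.exp (-W v) ≤ ‖U w‖ * Real.exp (-W w) := hmax (ball_subset_closedBall h6)
    have h8 := Real.log_le_log (mul_pos (norm_pos_iff.2 h5) (Real.exp_pos _)) h7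
    rw [Real.log_mul (norm_pos_iff.2 h5).ne' (Real.exp_pos _).ne', Real.log_mul (norm_pos_iff.2 hw0).ne' (Real.exp_pos _).ne', Real.log_exp,
      Real.log_exp] at h8
    show Real.log ‖U v‖ - W v ≤ Real.log ‖U w‖ - W w
    linarith
  have h3 := BE.laplacian_le_zero hf hloc
  have h4 : Δ (fun v => Real.log ‖U v‖ - W v) w = Δ (fun v => Real.log ‖U v‖) w - Δ W w := hL.laplacian_sub (hW w hw)
  have h5 := MQ.lap_log_normV_nonneg hA hw0
  have h6 := hlap w hwb hwE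
  linarith

theorem bar_all {U : ℂ → V} (hU : Differentiable ℂ U) {W : ℂ → ℝ} (hW : ContDiff ℝ 2 W) {E : Set ℂ} (hlap : ∀ z ∈ E, Δ W z < 0)
    (hout : ∀ z ∉ E, ‖U z‖ ≤ Real.exp (W z)) {R : ℝ} (hinf : ∀ z, R ≤ ‖z‖ → ‖U z‖ ≤ Real.exp (W z)) : ∀ z, ‖U z‖ ≤ Real.exp (W z) := by
  intro z
  rcases le_total R ‖z‖ with h | h
  · exact hinf z h
  · refine bar_ball (a := 0) (R := R) hU (fun w _ => hW.contDiffAt) (E := E) (fun w _ hw => hlap w hw) (fun w _ hw => hout w hw)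
      (fun w hw => hinf w ?_) z (by simpa using h)
    rw [mem_sphere_zero_iff_norm.1 hw]

end Pool.Agent.SR3.F

end
end

section

/-!
# SR3 F Sg: a superharmonic comparison function

`Δ (1 + |z|²)^(γ/2) ≤ 2 γ (1 + |z|²)^(γ/2 - 1)`, `Δ r^γ ≤ - γ (1 - γ) c r^(γ - 2)`, and `r ≤ 2 B (1 + D) (1 + |z|²)^(1/2)`.
-/

set_option autoImplicit false

open Topology Filter Metric Laplacian InnerProductSpace

noncomputable section

namespace Pool.Agent.SR3.F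

open Pool.Agent.H30M (gg lap_comp)

theorem rp_deriv {e a t : ℝ} (ht : 0 < e + t) : deriv (fun s : ℝ => (e + s) ^ a) t = a * (e + t) ^ (a - 1) := by
  have h1 : HasDerivAt (fun s : ℝ => e + s) 1 t := (hasDerivAt_id t).const_add e
  have h2 := h1.rpow_const (p := a) (Or.inl ht.ne')
  rw [h2.deriv]
  ring

theorem rp_deriv2 {e a t : ℝ} (ht : 0 < e + t) : deriv (deriv (fun s : ℝ => (e + s) ^ a)) t = a * ((a - 1) * (e + t) ^ (a - 1 - 1)) := by
  have h0 : deriv (fun s : ℝ => (e + s) ^ a) =ᶠ[𝓝 t] fun s => a * (e + s) ^ (a - 1) := by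
    have : ∀ᶠ s in 𝓝 t, 0 < e + s := (continuous_const.add continuous_id).continuousAt.eventually (lt_mem_nhds ht)
    filter_upwards [this] with s hs
    exact rp_deriv hs
  rw [h0.deriv_eq, deriv_const_mul_field, rp_deriv ht]

theorem rp_cd {e a t : ℝ} (ht : 0 < e + t) : ContDiffAt ℝ 2 (fun s : ℝ => (e + s) ^ a) t :=
  (contDiffAt_const.add contDiffAt_id).rpow_const_of_ne ht.ne'

/-- the Laplacian of `(1 + |z|²)^a` -/
theorem lap_one_add {a : ℝ} (ha : 0 ≤ a) (ha1 : a ≤ 1) (z : ℂ) :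
    Δ (fun w : ℂ => ((1 + ‖w‖ ^ 2) ^ a : ℝ)) z ≤ 4 * a * (1 + ‖z‖ ^ 2) ^ (a - 1) := by
  have hp : 0 < 1 + ‖z‖ ^ 2 := by positivity
  have hx : AnalyticAt ℂ (fun w : ℂ => w) z := analyticAt_id
  have cu : ContDiffAt ℝ 2 (fun w : ℂ => ‖w‖ ^ 2) z := MQ.contDiffAt_sqnorm hx
  have hl : Δ (fun w : ℂ => ‖w‖ ^ 2) z = 4 := by
    rw [← MQ.lp_eq_lap cu, MQ.lp_sqnorm hx]
    simp
  have hg : gg (fun w : ℂ => ‖w‖ ^ 2) (fun w : ℂ => ‖w‖ ^ 2) z = 4 * ‖z‖ ^ 2 := by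
    rw [MQ.gg_self, MQ.gr_sqnorm hx.differentiableAt.hasDerivAt, norm_mul, RCLike.norm_conj, Complex.norm_ofNat]
    have : ‖inner ℂ z (deriv (fun w : ℂ => w) z)‖ = ‖z‖ := by
      rw [RCLike.inner_apply, norm_mul, RCLike.norm_conj]
      simp
    rw [this]
    ring
  have e1 : (fun w : ℂ => (1 + ‖w‖ ^ 2) ^ a) = fun w => (fun s : ℝ => (1 + s) ^ a) ((fun w : ℂ => ‖w‖ ^ 2) w) := rfl
  rw [e1, lap_comp (rp_cd hp) cu, rp_deriv hp, rp_deriv2 hp, hl, hg]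
  have e2 : (1 + ‖z‖ ^ 2) ^ (a - 1) = (1 + ‖z‖ ^ 2) ^ (a - 1 - 1) * (1 + ‖z‖ ^ 2) := by
    rw [← Real.rpow_add_one hp.ne']
    congr 1
    ring
  rw [e2]
  have h1 : 0 ≤ (1 + ‖z‖ ^ 2) ^ (a - 1 - 1) := Real.rpow_nonneg hp.le _
  have h2 : 0 ≤ a * (1 - a) * (1 + ‖z‖ ^ 2) ^ (a - 1 - 1) * ‖z‖ ^ 2 :=
    mul_nonneg (mul_nonneg (mul_nonneg ha (by linarith)) h1) (sq_nonneg _)
  nlinarith

/-- the Laplacian of `r^γ` for a superharmonic `r` -/
theorem lap_pow {r : ℂ → ℝ} {z : ℂ} {c γ : ℝ} (hr : ContDiffAt ℝ 2 r z) (h1 : 1 ≤ r z) (hγ : 0 < γ) (hγ1 : γ < 1) (hl : Δ r z ≤ 0) (hg : c ≤ gg r r z) :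
    Δ (fun w => r w ^ γ) z ≤ -(γ * (1 - γ) * c * r z ^ (γ - 2)) := by
  have hp : 0 < 0 + r z := by linarith
  have hz : 0 < r z := by linarith
  have e1 : (fun w => r w ^ γ) = fun w => (fun s : ℝ => (0 + s) ^ γ) (r w) := by
    funext w
    simp
  rw [e1, lap_comp (rp_cd hp) hr, rp_deriv hp, rp_deriv2 hp]
  have e2 : γ - 1 - 1 = γ - 2 := by ring
  rw [zero_add, e2]
  have h2 : 0 ≤ r z ^ (γ - 1) := Real.rpow_nonneg hz.le _
  have h3 : 0 ≤ r z ^ (γ - 2) := Real.rpow_nonneg hz.le _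
  have h4 : γ * r z ^ (γ - 1) * Δ r z ≤ 0 := mul_nonpos_of_nonneg_of_nonpos (by positivity) hl
  have h5 : γ * (1 - γ) * r z ^ (γ - 2) * c ≤ γ * (1 - γ) * r z ^ (γ - 2) * gg r r z :=
    mul_le_mul_of_nonneg_left hg (mul_nonneg (mul_nonneg hγ.le (by linarith)) h3)
  nlinarith

theorem cd_one_add (a : ℝ) : ContDiff ℝ 2 (fun w : ℂ => (1 + ‖w‖ ^ 2) ^ a) :=
  (contDiff_const.add (contDiff_norm_sq ℝ)).rpow_const_of_ne fun w => by positivity

theorem cd_pow {r : ℂ → ℝ} (hr : ContDiff ℝ 2 r) (h1 : ∀ z, 1 ≤ r z) (γ : ℝ) : ContDiff ℝ 2 (fun w => r w ^ γ) :=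
  hr.rpow_const_of_ne fun w => by
    have := h1 w
    exact (by linarith : 0 < r w).ne'

theorem exists_Sg {κ c B D : ℝ} (hκ : 1 ≤ κ) (hc : 0 < c) (hB : 1 ≤ B) (hD : 0 ≤ D) :
    ∃ A c' : ℝ, 0 < A ∧ 0 < c' ∧ ∀ r d : ℂ → ℝ, Hat r d κ c B → d 0 ≤ D → ∀ γ, 0 < γ → γ < 1 →
      ContDiff ℝ 2 (Sg A γ r) ∧ ∀ z, κ ≤ d z → Δ (Sg A γ r) z ≤ -(γ * c' * (1 + d z) ^ (γ - 2)) := by
  obtain ⟨M, hM⟩ : ∃ M, M = 2 * B * (1 + D) := ⟨_, rfl⟩
  have hM1 : 1 ≤ M := by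
    rw [hM]
    nlinarith
  refine ⟨4 * M ^ 2 / c, 2 * M ^ 2 / B ^ 2, by positivity, by positivity, fun r d H h0 γ hγ hγ1 => ?_⟩
  have c1 : ContDiff ℝ 2 (fun w : ℂ => (1 + ‖w‖ ^ 2) ^ (γ / 2)) := cd_one_add _
  have c2 : ContDiff ℝ 2 (fun w => r w ^ γ) := cd_pow H.smooth H.one_le γ
  have hg1 : 0 < 1 - γ := by linarith
  refine ⟨c1.add (contDiff_const.mul c2), fun z hz => ?_⟩
  have hr1 := H.one_le z
  have hr0 : 0 < r z := by linarith
  have hd0 := H.d0 z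
  have e1 : Δ (Sg (4 * M ^ 2 / c) γ r) z =
      Δ (fun w : ℂ => ((1 + ‖w‖ ^ 2) ^ (γ / 2) : ℝ)) z + 4 * M ^ 2 / c / (1 - γ) * Δ (fun w => r w ^ γ) z := by
    rw [← H30M.lap_const_mul c2.contDiffAt]
    exact H30M.lap_add c1.contDiffAt (contDiff_const.mul c2).contDiffAt
  have h1 := lap_one_add (a := γ / 2) (by linarith) (by linarith) z
  have h2 := lap_pow (γ := γ) H.smooth.contDiffAt hr1 hγ hγ1 (H.lap z hz) (H.grad z hz)
  have h3 : 4 * M ^ 2 / c / (1 - γ) * Δ (fun w => r w ^ γ) z ≤ -(4 * M ^ 2 * γ * r z ^ (γ - 2)) := by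
    have h4 := mul_le_mul_of_nonneg_left h2 (by positivity : 0 ≤ 4 * M ^ 2 / c / (1 - γ))
    have h5 : 4 * M ^ 2 / c / (1 - γ) * -(γ * (1 - γ) * c * r z ^ (γ - 2)) = -(4 * M ^ 2 * γ * r z ^ (γ - 2)) := by
      field_simp
    linarith
  -- `r ≤ M s`
  obtain ⟨s, hs⟩ : ∃ s, s = √(1 + ‖z‖ ^ 2) := ⟨_, rfl⟩
  have hq : 0 < 1 + ‖z‖ ^ 2 := by positivity
  have hs0 : 0 < s := by
    rw [hs]
    exact Real.sqrt_pos.2 hq
  have hss : s ^ 2 = 1 + ‖z‖ ^ 2 := by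
    rw [hs]
    exact Real.sq_sqrt hq.le
  have hzs : 1 + ‖z‖ ≤ 2 * s := by
    have : (1 + ‖z‖) ^ 2 ≤ (2 * s) ^ 2 := by nlinarith [sq_nonneg (‖z‖ - 1), norm_nonneg z]
    exact (abs_le_of_sq_le_sq' this (by positivity)).2
  have hrM : r z ≤ M * s := by
    have h4 := H.le z
    have h5 : d z ≤ D + ‖z‖ := by
      have h6 := (abs_le.1 (H.lip z 0)).2
      rw [sub_zero] at h6
      linarith
    have h6 : 1 + d z ≤ (1 + D) * (1 + ‖z‖) := by nlinarith [norm_nonneg z, mul_nonneg hD (norm_nonneg z)]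
    calc r z ≤ B * (1 + d z) := h4
      _ ≤ B * ((1 + D) * (1 + ‖z‖)) := mul_le_mul_of_nonneg_left h6 (by linarith)
      _ ≤ B * ((1 + D) * (2 * s)) := by gcongr
      _ = M * s := by rw [hM]; ring
  have h4 : (1 + ‖z‖ ^ 2) ^ (γ / 2 - 1) ≤ M ^ 2 * r z ^ (γ - 2) := by
    have h5 : (M * s) ^ (γ - 2) ≤ r z ^ (γ - 2) := Real.rpow_le_rpow_of_nonpos hr0 hrM (by linarith)
    have h6 : (1 + ‖z‖ ^ 2) ^ (γ / 2 - 1) = s ^ (γ - 2) := by
      rw [← hss, ← Real.rpow_natCast, ← Real.rpow_mul hs0.le]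
      congr 1
      push_cast
      ring
    have h7 : (1 : ℝ) ≤ M ^ 2 * M ^ (γ - 2) := by
      rw [← Real.rpow_natCast, ← Real.rpow_add (by linarith)]
      push_cast
      exact Real.one_le_rpow hM1 (by linarith)
    rw [Real.mul_rpow (by linarith) hs0.le] at h5
    rw [h6]
    have h8 : 0 ≤ s ^ (γ - 2) := Real.rpow_nonneg hs0.le _
    calc s ^ (γ - 2) ≤ M ^ 2 * M ^ (γ - 2) * s ^ (γ - 2) := le_mul_of_one_le_left h8 h7
      _ = M ^ 2 * (M ^ (γ - 2) * s ^ (γ - 2)) := by ring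
      _ ≤ M ^ 2 * r z ^ (γ - 2) := mul_le_mul_of_nonneg_left h5 (by positivity)
  have h5 : (1 + d z) ^ (γ - 2) / B ^ 2 ≤ r z ^ (γ - 2) := by
    have h6 : (B * (1 + d z)) ^ (γ - 2) ≤ r z ^ (γ - 2) := Real.rpow_le_rpow_of_nonpos hr0 (H.le z) (by linarith)
    have h7 : (1 : ℝ) ≤ B ^ 2 * B ^ (γ - 2) := by
      rw [← Real.rpow_natCast, ← Real.rpow_add (by linarith)]
      push_cast
      exact Real.one_le_rpow hB (by linarith)
    rw [Real.mul_rpow (by linarith) (by linarith)] at h6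
    have h8 : 0 ≤ (1 + d z) ^ (γ - 2) := Real.rpow_nonneg (by linarith) _
    rw [div_le_iff₀ (by positivity)]
    calc (1 + d z) ^ (γ - 2) ≤ B ^ 2 * B ^ (γ - 2) * (1 + d z) ^ (γ - 2) := le_mul_of_one_le_left h8 h7
      _ = B ^ (γ - 2) * (1 + d z) ^ (γ - 2) * B ^ 2 := by ring
      _ ≤ r z ^ (γ - 2) * B ^ 2 := mul_le_mul_of_nonneg_right h6 (by positivity)
  rw [e1]
  have h6 : 4 * (γ / 2) * (1 + ‖z‖ ^ 2) ^ (γ / 2 - 1) ≤ 2 * γ * (M ^ 2 * r z ^ (γ - 2)) := by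
    have := mul_le_mul_of_nonneg_left h4 (by positivity : 0 ≤ 2 * γ)
    linarith
  have h7 : γ * (2 * M ^ 2 / B ^ 2) * (1 + d z) ^ (γ - 2) ≤ 2 * γ * (M ^ 2 * r z ^ (γ - 2)) := by
    have h8 := mul_le_mul_of_nonneg_left h5 (by positivity : 0 ≤ 2 * γ * M ^ 2)
    have e : γ * (2 * M ^ 2 / B ^ 2) * (1 + d z) ^ (γ - 2) = 2 * γ * M ^ 2 * ((1 + d z) ^ (γ - 2) / B ^ 2) := by ring
    rw [e]
    linarith
  linarith

end Pool.Agent.SR3.F

end
end

section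

/-!
# SR3 F Cmp: comparison in the plane

`W = rB + K₁ Sg A γ' (rh) + e ε Sg A γₙ (rh)`, `γₙ = 1 - 1 / (2 + log (2 + n))`, on `E = {κ' ≤ d}`, in `bar_all`; `min t n ≤ e (1 + t²)^(γₙ/2)`.
-/

set_option autoImplicit false

open Topology Filter Metric Laplacian InnerProductSpace

noncomputable section

namespace Pool.Agent.SR3.F

open Pool.Agent.H30M (gg lap_add lap_const_mul)

/-! ## elementary inequalities -/

/-- `(1 + t²)^(γ/2)` -/
def pq (γ t : ℝ) : ℝ := (1 + t ^ 2) ^ (γ / 2)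

theorem one_le_pq {γ : ℝ} (hγ : 0 ≤ γ) (t : ℝ) : 1 ≤ pq γ t :=
  Real.one_le_rpow (by linarith [sq_nonneg t]) (by linarith)

theorem pq_eq {γ t : ℝ} : pq γ t = (Real.sqrt (1 + t ^ 2)) ^ γ := by
  rw [pq, Real.sqrt_eq_rpow, ← Real.rpow_mul (by positivity)]
  congr 1
  ring

/-- `(2 + t)^γ ≤ 3 (1 + t²)^(γ/2)` -/
theorem pw_le_pq {γ t : ℝ} (hγ : 0 ≤ γ) (hγ1 : γ ≤ 1) (ht : 0 ≤ t) : pw γ t ≤ 3 * pq γ t := by
  have h1 : t ≤ Real.sqrt (1 + t ^ 2) := Real.le_sqrt_of_sq_le (by linarith)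
  have h2 : 1 ≤ Real.sqrt (1 + t ^ 2) := Real.le_sqrt_of_sq_le (by linarith [sq_nonneg t])
  have h3 : 2 + t ≤ 3 * Real.sqrt (1 + t ^ 2) := by linarith
  rw [pq_eq, pw]
  calc (2 + t) ^ γ ≤ (3 * Real.sqrt (1 + t ^ 2)) ^ γ := Real.rpow_le_rpow (by linarith) h3 hγ
    _ = 3 ^ γ * (Real.sqrt (1 + t ^ 2)) ^ γ := Real.mul_rpow (by norm_num) (by positivity)
    _ ≤ 3 * (Real.sqrt (1 + t ^ 2)) ^ γ := by
        refine mul_le_mul_of_nonneg_right ?_ (by positivity)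
        calc (3 : ℝ) ^ γ ≤ 3 ^ (1 : ℝ) := Real.rpow_le_rpow_of_exponent_le (by norm_num) hγ1
          _ = 3 := Real.rpow_one 3

private theorem lin_dist {D x t : ℝ} (hD : 0 ≤ D) (ht : 0 ≤ t) (h : x ≤ D + t) : 1 + x ≤ (1 + D) * (2 + t) := by
  have k1 : 0 ≤ D * t := mul_nonneg hD ht
  have k2 : (1 + D) * (2 + t) = 2 + t + 2 * D + D * t := by ring
  rw [k2]
  linarith

/-- `(1 + t²)^(γ/2) ≤ (2 + t)^γ` -/
theorem pq_le_pw {γ t : ℝ} (hγ : 0 ≤ γ) (ht : 0 ≤ t) : pq γ t ≤ pw γ t := by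
  rw [pq_eq, pw]
  refine Real.rpow_le_rpow (by positivity) ?_ hγ
  rw [Real.sqrt_le_left (by linarith)]
  have h1 : (2 + t) ^ 2 = 4 + 4 * t + t ^ 2 := by ring
  rw [h1]
  linarith

theorem pw_mono_exp {γ γ' t : ℝ} (h : γ ≤ γ') (ht : 0 ≤ t) : pw γ t ≤ pw γ' t :=
  Real.rpow_le_rpow_of_exponent_le (by linarith) h

/-- `min t n ≤ e (1 + t²)^(γₙ/2)` -/
theorem min_le_pq {t n : ℝ} (_ht : 0 ≤ t) (hn : 0 ≤ n) : min t n ≤ Real.exp 1 * pq (1 - 1 / (2 + Real.log (2 + n))) t := by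
  have hl : 0 < Real.log (2 + n) := Real.log_pos (by linarith)
  set γ := 1 - 1 / (2 + Real.log (2 + n)) with hγ_def
  have hγ0 : 0 ≤ γ := by
    have h1 : 1 / (2 + Real.log (2 + n)) ≤ 1 := by
      rw [div_le_one (by linarith)]
      linarith
    linarith
  rcases le_or_gt (min t n) 1 with h1 | h1
  · have h2 := one_le_pq hγ0 t
    have h3 : (1 : ℝ) ≤ Real.exp 1 := Real.one_le_exp (by norm_num)
    calc min t n ≤ 1 * 1 := by linarith
      _ ≤ Real.exp 1 * pq γ t := mul_le_mul h3 h2 zero_le_one (by positivity)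
  · set s := min t n with hs_def
    have hs0 : 0 < s := by linarith
    have hst : s ≤ t := min_le_left _ _
    have hsn : s ≤ n := min_le_right _ _
    have h2 : s ^ γ ≤ pq γ t := by
      rw [pq_eq]
      refine Real.rpow_le_rpow hs0.le (hst.trans (Real.le_sqrt_of_sq_le (by linarith))) hγ0
    have h3 : s = Real.exp (Real.log s / (2 + Real.log (2 + n))) * s ^ γ := by
      rw [Real.rpow_def_of_pos hs0, ← Real.exp_add]
      have h4 : Real.log s / (2 + Real.log (2 + n)) + Real.log s * γ = Real.log s := by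
        rw [hγ_def]
        field_simp
        ring
      rw [h4, Real.exp_log hs0]
    have h5 : Real.log s / (2 + Real.log (2 + n)) ≤ 1 := by
      rw [div_le_one (by linarith)]
      have h6 : Real.log s ≤ Real.log (2 + n) := Real.log_le_log hs0 (by linarith)
      linarith
    calc s = Real.exp (Real.log s / (2 + Real.log (2 + n))) * s ^ γ := h3
      _ ≤ Real.exp 1 * pq γ t := mul_le_mul (Real.exp_le_exp.2 h5) h2 (by positivity) (by positivity)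

/-- `Q' (2 + t)^γ ≤ (1 + t²)^(γ'/2)` for large `t` -/
theorem exists_large {γ γ' : ℝ} (hγ : 0 < γ) (hγγ' : γ < γ') (hγ' : γ' < 1) (Q' : ℝ) : ∃ R : ℝ, ∀ t, R ≤ t → 0 ≤ t → Q' * pw γ t ≤ pq γ' t := by
  have h1 : Tendsto (fun t : ℝ => (2 + t) ^ (-(γ' - γ))) atTop (𝓝 0) :=
    (tendsto_rpow_neg_atTop (sub_pos.2 hγγ')).comp (tendsto_atTop_add_const_left _ 2 tendsto_id)
  have hpos : 0 < 1 / (3 * (|Q'| + 1)) := by positivity
  obtain ⟨R, hR⟩ := eventually_atTop.1 (h1.eventually (gt_mem_nhds hpos))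
  refine ⟨R, fun t ht ht0 => ?_⟩
  have h2 := (hR t ht).le
  have h3 : pw γ t = pw γ' t * (2 + t) ^ (-(γ' - γ)) := by
    rw [pw, pw, ← Real.rpow_add (by linarith)]
    congr 1
    ring
  have hpw : 0 ≤ pw γ' t := by unfold pw; positivity
  have h4 : pw γ t ≤ pw γ' t * (1 / (3 * (|Q'| + 1))) := by
    rw [h3]
    exact mul_le_mul_of_nonneg_left h2 hpw
  have h5 : Q' * pw γ t ≤ (|Q'| + 1) * pw γ t :=
    mul_le_mul_of_nonneg_right (by linarith [le_abs_self Q']) (by unfold pw; positivity)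
  have h6 : (|Q'| + 1) * pw γ t ≤ (|Q'| + 1) * (pw γ' t * (1 / (3 * (|Q'| + 1)))) := mul_le_mul_of_nonneg_left h4 (by positivity)
  have h7 : (|Q'| + 1) * (pw γ' t * (1 / (3 * (|Q'| + 1)))) = pw γ' t / 3 := by
    field_simp
  have h8 := pw_le_pq (hγ.le.trans hγγ'.le) hγ'.le ht0
  linarith

theorem Sg_eq (A γ : ℝ) (r : ℂ → ℝ) (z : ℂ) : Sg A γ r z = pq γ ‖z‖ + A / (1 - γ) * r z ^ γ := rfl

theorem pq_le_Sg {A γ : ℝ} (hA : 0 ≤ A) (hγ : γ < 1) {r : ℂ → ℝ} {z : ℂ} (hr : 1 ≤ r z) : pq γ ‖z‖ ≤ Sg A γ r z := by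
  rw [Sg_eq]
  have h1 : 0 ≤ A / (1 - γ) * r z ^ γ := mul_nonneg (div_nonneg hA (by linarith)) (Real.rpow_nonneg (by linarith) _)
  linarith

/-- upper bound of `Sg` -/
theorem Sg_le {A γ B D : ℝ} (hA : 0 ≤ A) (hγ0 : 0 ≤ γ) (hγ : γ < 1) (hB : 1 ≤ B) (hD : 0 ≤ D) {r d : ℂ → ℝ} {κ c : ℝ} (hr : Hat r d κ c B) (hd : d 0 ≤ D)
    (z : ℂ) : Sg A γ r z ≤ (1 + A * (B * (1 + D)) / (1 - γ)) * pw γ ‖z‖ := by
  have h1 : r z ≤ B * (1 + D) * (2 + ‖z‖) := by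
    have h2 := hr.le z
    have h3 : d z ≤ D + ‖z‖ := by
      have h4 := (abs_le.1 (hr.lip z 0)).2
      rw [sub_zero] at h4
      linarith
    have h5 : 0 ≤ ‖z‖ := norm_nonneg z
    calc r z ≤ B * (1 + d z) := h2
      _ ≤ B * ((1 + D) * (2 + ‖z‖)) := mul_le_mul_of_nonneg_left (lin_dist hD h5 h3) (by linarith)
      _ = B * (1 + D) * (2 + ‖z‖) := by ring
  have hBD : 1 ≤ B * (1 + D) := one_le_mul_of_one_le_of_one_le hB (by linarith)
  have h2 : r z ^ γ ≤ B * (1 + D) * pw γ ‖z‖ := by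
    calc r z ^ γ ≤ (B * (1 + D) * (2 + ‖z‖)) ^ γ := Real.rpow_le_rpow (by linarith [hr.one_le z]) h1 hγ0
      _ = (B * (1 + D)) ^ γ * pw γ ‖z‖ := by
          rw [Real.mul_rpow (by linarith) (by positivity)]
          rfl
      _ ≤ B * (1 + D) * pw γ ‖z‖ := by
          refine mul_le_mul_of_nonneg_right ?_ (by unfold pw; positivity)
          calc (B * (1 + D)) ^ γ ≤ (B * (1 + D)) ^ (1 : ℝ) := Real.rpow_le_rpow_of_exponent_le hBD hγ.le
            _ = B * (1 + D) := Real.rpow_one _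
  rw [Sg_eq]
  have h3 : A / (1 - γ) * r z ^ γ ≤ A / (1 - γ) * (B * (1 + D) * pw γ ‖z‖) :=
    mul_le_mul_of_nonneg_left h2 (div_nonneg hA (by linarith))
  have h4 := pq_le_pw hγ0 (norm_nonneg z)
  calc pq γ ‖z‖ + A / (1 - γ) * r z ^ γ ≤ pw γ ‖z‖ + A / (1 - γ) * (B * (1 + D) * pw γ ‖z‖) := by linarith
    _ = (1 + A * (B * (1 + D)) / (1 - γ)) * pw γ ‖z‖ := by ring

variable {V : Type} [NormedAddCommGroup V] [InnerProductSpace ℂ V] [CompleteSpace V]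

/-- MODULE Cmp.  `W = rB + K₁ Sg A γ' (rh) + e ε Sg A γₙ (rh)`, `γₙ = 1 - 1 / (2 + log (2 + n))`, on `E = {κ' < d}`, in `bar_all`;
`min t n ≤ e (1 + t²)^(γₙ/2)`. -/
theorem compare {κ c B : ℝ} (hκ : 1 ≤ κ) (hc : 0 < c) (hB : 1 ≤ B) : ∃ κ' : ℝ, κ ≤ κ' ∧ ∀ D γ γ' Q : ℝ, 0 ≤ D → 0 < γ → γ < γ' → γ' < 1 → 0 ≤ Q →
    ∃ K : ℝ, 0 ≤ K ∧ ∀ r d : ℂ → ℝ, Pot r d κ c B → d 0 ≤ D → ∀ rB : ℂ → ℝ, ContDiff ℝ 2 rB → (∀ z, κ ≤ d z → Δ rB z ≤ B / d z ^ 2) →
      (∀ z, -Q ≤ rB z) → ∀ U : ℂ → V, Differentiable ℂ U → ∀ ε n Q' : ℝ, 0 ≤ ε → 0 ≤ n →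
        (∀ z, d z ≤ κ' → ‖U z‖ ≤ Real.exp (Q * pw γ ‖z‖ + ε * min ‖z‖ n)) → (∀ z, ‖U z‖ ≤ Real.exp (rB z + Q' * pw γ ‖z‖)) →
          ∀ z, ‖U z‖ ≤ Real.exp (rB z + K * pw γ' ‖z‖ + K * ε * Real.log (2 + n) * (1 + ‖z‖)) := by
  obtain ⟨A₀, κ', B', hA₀, hκκ', hB', hhat⟩ := exists_hat hκ hc hB
  refine ⟨κ', hκκ', fun D γ γ' Q hD hγ hγγ' hγ' hQ => ?_⟩
  obtain ⟨A, c', hA, hc', hSg⟩ := exists_Sg (hκ.trans hκκ') hc hB' hD
  have hγ'0 : 0 < γ' := hγ.trans hγγ'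
  have hB0 : 0 < B := by linarith
  -- the constants
  set K₁ : ℝ := 4 * Q + 4 * B / (γ' * c') + 1 with hK₁
  have hK₁0 : 1 ≤ K₁ := by
    have h1 : 0 ≤ 4 * B / (γ' * c') := by positivity
    linarith
  have hBD : 0 ≤ B' * (1 + D) := mul_nonneg (by linarith) (by linarith)
  refine ⟨K₁ * (1 + A * (B' * (1 + D)) / (1 - γ')) + Real.exp 1 * (2 + 10 * (A * (B' * (1 + D)))), by
    have h1 : 0 ≤ A * (B' * (1 + D)) / (1 - γ') := div_nonneg (mul_nonneg hA.le hBD) (by linarith)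
    positivity, ?_⟩
  intro r d hP hd0 rB hrB hΔB hQB U hU ε n Q' hε hn hin hout z
  set rr := rh A₀ r with hrr
  have hH : Hat rr d κ' c B' := hhat r d hP
  set γn : ℝ := 1 - 1 / (2 + Real.log (2 + n)) with hγn
  have hl : 0 < Real.log (2 + n) := Real.log_pos (by linarith)
  have hγn1 : γn < 1 := by
    have : 0 < 1 / (2 + Real.log (2 + n)) := by positivity
    linarith
  have hγn0 : 0 < γn := by
    have h1 : 1 / (2 + Real.log (2 + n)) < 1 := by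
      rw [div_lt_one (by linarith)]
      linarith
    linarith
  obtain ⟨hS1, hS1'⟩ := hSg rr d hH hd0 γ' hγ'0 hγ'
  obtain ⟨hS2, hS2'⟩ := hSg rr d hH hd0 γn hγn0 hγn1
  have hW : ContDiff ℝ 2 fun w => rB w + (K₁ * Sg A γ' rr w + Real.exp 1 * ε * Sg A γn rr w) :=
    hrB.add ((contDiff_const.mul hS1).add (contDiff_const.mul hS2))
  have hlap : ∀ w, Δ (fun w => rB w + (K₁ * Sg A γ' rr w + Real.exp 1 * ε * Sg A γn rr w)) w =
      Δ rB w + (K₁ * Δ (Sg A γ' rr) w + Real.exp 1 * ε * Δ (Sg A γn rr) w) := by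
    intro w
    rw [lap_add hrB.contDiffAt ((contDiff_const.mul hS1).add (contDiff_const.mul hS2)).contDiffAt,
      lap_add (contDiff_const.mul hS1).contDiffAt (contDiff_const.mul hS2).contDiffAt, lap_const_mul hS1.contDiffAt,
      lap_const_mul hS2.contDiffAt]
  have hrr1 : ∀ w, 1 ≤ rr w := hH.one_le
  -- `Q + Q (2 + |z|)^γ ≤ K₁ Sg`
  have hlow : ∀ w : ℂ, pq γ' ‖w‖ ≤ Sg A γ' rr w := fun w => pq_le_Sg hA.le hγ' (hrr1 w)
  have hlow2 : ∀ w : ℂ, ε * min ‖w‖ n ≤ Real.exp 1 * ε * Sg A γn rr w := fun w => by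
    calc ε * min ‖w‖ n ≤ ε * (Real.exp 1 * pq γn ‖w‖) := mul_le_mul_of_nonneg_left (min_le_pq (norm_nonneg w) hn) hε
      _ ≤ ε * (Real.exp 1 * Sg A γn rr w) :=
          mul_le_mul_of_nonneg_left (mul_le_mul_of_nonneg_left (pq_le_Sg hA.le hγn1 (hrr1 w)) (Real.exp_pos 1).le) hε
      _ = Real.exp 1 * ε * Sg A γn rr w := by ring
  obtain ⟨R, hR⟩ := exists_large hγ hγγ' hγ' Q'
  have hmain := bar_all (U := U) hU hW (E := {w | κ' ≤ d w}) (R := R) ?_ ?_ ?_ z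
  · refine hmain.trans (Real.exp_le_exp.2 ?_)
    have h1 := Sg_le hA.le hγ'0.le hγ' hB' hD hH hd0 z
    have h2 := Sg_le hA.le hγn0.le hγn1 hB' hD hH hd0 z
    have h3 : 1 / (1 - γn) = 2 + Real.log (2 + n) := by
      rw [hγn]
      field_simp
      ring
    have hlog2 : (1 : ℝ) / 2 ≤ Real.log (2 + n) := by
      have h4 : Real.log 2 ≤ Real.log (2 + n) := Real.log_le_log (by norm_num) (by linarith)
      have h5 := Real.log_two_gt_d9
      linarith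
    have ht : 0 ≤ ‖z‖ := norm_nonneg z
    have hLt : 0 ≤ Real.log (2 + n) * (1 + ‖z‖) := mul_nonneg hl.le (by linarith)
    have hpw : pw γn ‖z‖ ≤ 2 + ‖z‖ := by
      calc pw γn ‖z‖ ≤ (2 + ‖z‖) ^ (1 : ℝ) := Real.rpow_le_rpow_of_exponent_le (by linarith) hγn1.le
        _ = 2 + ‖z‖ := Real.rpow_one _
    have hABD : 0 ≤ A * (B' * (1 + D)) := mul_nonneg hA.le hBD
    -- a sharper use of the two parts of `Sg`
    have h6 : Sg A γn rr z ≤ (2 + 10 * (A * (B' * (1 + D)))) * (Real.log (2 + n) * (1 + ‖z‖)) := by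
      have h7 : pq γn ‖z‖ ≤ 1 + ‖z‖ := by
        rw [pq_eq]
        have h8 : Real.sqrt (1 + ‖z‖ ^ 2) ≤ 1 + ‖z‖ := by
          rw [Real.sqrt_le_left (by linarith)]
          have k1 : (1 + ‖z‖) ^ 2 = 1 + 2 * ‖z‖ + ‖z‖ ^ 2 := by ring
          rw [k1]
          linarith
        have h9 : 1 ≤ Real.sqrt (1 + ‖z‖ ^ 2) := Real.le_sqrt_of_sq_le (by linarith [sq_nonneg ‖z‖])
        calc Real.sqrt (1 + ‖z‖ ^ 2) ^ γn ≤ Real.sqrt (1 + ‖z‖ ^ 2) ^ (1 : ℝ) := Real.rpow_le_rpow_of_exponent_le h9 hγn1.le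
          _ = Real.sqrt (1 + ‖z‖ ^ 2) := Real.rpow_one _
          _ ≤ 1 + ‖z‖ := h8
      have h8 : A / (1 - γn) * rr z ^ γn ≤ A * (2 + Real.log (2 + n)) * (B' * (1 + D) * (2 + ‖z‖)) := by
        have h9 : A / (1 - γn) = A * (2 + Real.log (2 + n)) := by
          rw [← h3]
          ring
        rw [h9]
        refine mul_le_mul_of_nonneg_left ?_ (mul_nonneg hA.le (by linarith))
        have h10 : rr z ≤ B' * (1 + D) * (2 + ‖z‖) := by
          have h11 := hH.le z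
          have h12 : d z ≤ D + ‖z‖ := by
            have h13 := (abs_le.1 (hH.lip z 0)).2
            rw [sub_zero] at h13
            linarith
          calc rr z ≤ B' * (1 + d z) := h11
            _ ≤ B' * ((1 + D) * (2 + ‖z‖)) := mul_le_mul_of_nonneg_left (lin_dist hD ht h12) (by linarith)
            _ = B' * (1 + D) * (2 + ‖z‖) := by ring
        calc rr z ^ γn ≤ rr z ^ (1 : ℝ) := Real.rpow_le_rpow_of_exponent_le (hrr1 z) hγn1.le
          _ = rr z := Real.rpow_one _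
          _ ≤ _ := h10
      have h9 : A * (2 + Real.log (2 + n)) * (B' * (1 + D) * (2 + ‖z‖)) ≤ 10 * (A * (B' * (1 + D))) * (Real.log (2 + n) * (1 + ‖z‖)) := by
        have h10 : (2 + Real.log (2 + n)) * (2 + ‖z‖) ≤ 10 * (Real.log (2 + n) * (1 + ‖z‖)) := by
          have h11 : 2 + Real.log (2 + n) ≤ 5 * Real.log (2 + n) := by linarith
          calc (2 + Real.log (2 + n)) * (2 + ‖z‖) ≤ (5 * Real.log (2 + n)) * (2 * (1 + ‖z‖)) :=
                mul_le_mul h11 (by linarith) (by linarith) (by linarith)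
            _ = 10 * (Real.log (2 + n) * (1 + ‖z‖)) := by ring
        calc A * (2 + Real.log (2 + n)) * (B' * (1 + D) * (2 + ‖z‖)) = A * (B' * (1 + D)) * ((2 + Real.log (2 + n)) * (2 + ‖z‖)) := by ring
          _ ≤ A * (B' * (1 + D)) * (10 * (Real.log (2 + n) * (1 + ‖z‖))) := mul_le_mul_of_nonneg_left h10 hABD
          _ = _ := by ring
      rw [Sg_eq]
      have h10 : 1 + ‖z‖ ≤ 2 * (Real.log (2 + n) * (1 + ‖z‖)) := by
        have k1 : 1 / 2 * (1 + ‖z‖) ≤ Real.log (2 + n) * (1 + ‖z‖) := mul_le_mul_of_nonneg_right hlog2 (by linarith)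
        linarith
      have h11 : (2 + 10 * (A * (B' * (1 + D)))) * (Real.log (2 + n) * (1 + ‖z‖)) =
          2 * (Real.log (2 + n) * (1 + ‖z‖)) + 10 * (A * (B' * (1 + D))) * (Real.log (2 + n) * (1 + ‖z‖)) := by ring
      rw [h11]
      linarith
    have hpw0 : 0 ≤ pw γ' ‖z‖ := by unfold pw; positivity
    have hKa : 0 ≤ K₁ * (1 + A * (B' * (1 + D)) / (1 - γ')) := by
      have h7 : 0 ≤ A * (B' * (1 + D)) / (1 - γ') := div_nonneg hABD (by linarith)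
      positivity
    have hKb : 0 ≤ Real.exp 1 * (2 + 10 * (A * (B' * (1 + D)))) := by positivity
    have h7 : K₁ * Sg A γ' rr z ≤ (K₁ * (1 + A * (B' * (1 + D)) / (1 - γ')) + Real.exp 1 * (2 + 10 * (A * (B' * (1 + D))))) * pw γ' ‖z‖ := by
      calc K₁ * Sg A γ' rr z ≤ K₁ * ((1 + A * (B' * (1 + D)) / (1 - γ')) * pw γ' ‖z‖) := mul_le_mul_of_nonneg_left h1 (by linarith)
        _ = K₁ * (1 + A * (B' * (1 + D)) / (1 - γ')) * pw γ' ‖z‖ := by ring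
        _ ≤ _ := mul_le_mul_of_nonneg_right (by linarith) hpw0
    have h8 : Real.exp 1 * ε * Sg A γn rr z ≤
        (K₁ * (1 + A * (B' * (1 + D)) / (1 - γ')) + Real.exp 1 * (2 + 10 * (A * (B' * (1 + D))))) * ε * Real.log (2 + n) * (1 + ‖z‖) := by
      calc Real.exp 1 * ε * Sg A γn rr z ≤ Real.exp 1 * ε * ((2 + 10 * (A * (B' * (1 + D)))) * (Real.log (2 + n) * (1 + ‖z‖))) :=
            mul_le_mul_of_nonneg_left h6 (by positivity)
        _ = Real.exp 1 * (2 + 10 * (A * (B' * (1 + D)))) * (ε * (Real.log (2 + n) * (1 + ‖z‖))) := by ring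
        _ ≤ (K₁ * (1 + A * (B' * (1 + D)) / (1 - γ')) + Real.exp 1 * (2 + 10 * (A * (B' * (1 + D))))) *
              (ε * (Real.log (2 + n) * (1 + ‖z‖))) := mul_le_mul_of_nonneg_right (by linarith) (mul_nonneg hε hLt)
        _ = _ := by ring
    linarith
  · intro w hw
    have hw' : κ' ≤ d w := hw
    rw [hlap]
    have h1 := hΔB w (hκκ'.trans hw')
    have h2 := hS1' w hw'
    have h3 := hS2' w hw'
    have hd1 : 1 ≤ d w := hκ.trans (hκκ'.trans hw')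
    have hd2 : 0 < d w := by linarith
    have h4 : 1 / (4 * d w ^ 2) ≤ (1 + d w) ^ (γ' - 2) := by
      have h5 : (1 + d w) ^ (-2 : ℝ) ≤ (1 + d w) ^ (γ' - 2) := Real.rpow_le_rpow_of_exponent_le (by linarith) (by linarith)
      refine le_trans ?_ h5
      rw [Real.rpow_neg (by linarith), ← one_div]
      refine one_div_le_one_div_of_le (by positivity) ?_
      rw [Real.rpow_ofNat]
      have k1 : (1 + d w) ^ 2 ≤ (2 * d w) ^ 2 := pow_le_pow_left₀ (by linarith) (by linarith) 2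
      have k2 : (2 * d w) ^ 2 = 4 * d w ^ 2 := by ring
      exact k1.trans_eq k2
    have h5 : 0 ≤ (1 + d w) ^ (γn - 2) := by positivity
    have h6 : Real.exp 1 * ε * Δ (Sg A γn rr) w ≤ 0 := by
      have h7 : Δ (Sg A γn rr) w ≤ 0 := by
        have : 0 ≤ γn * c' * (1 + d w) ^ (γn - 2) := by positivity
        linarith
      exact mul_nonpos_of_nonneg_of_nonpos (by positivity) h7
    have h7 : K₁ * Δ (Sg A γ' rr) w ≤ -(K₁ * (γ' * c') * (1 / (4 * d w ^ 2))) := by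
      have h8 : γ' * c' * (1 / (4 * d w ^ 2)) ≤ γ' * c' * (1 + d w) ^ (γ' - 2) := mul_le_mul_of_nonneg_left h4 (by positivity)
      have h9 : Δ (Sg A γ' rr) w ≤ -(γ' * c' * (1 / (4 * d w ^ 2))) := by linarith
      calc K₁ * Δ (Sg A γ' rr) w ≤ K₁ * -(γ' * c' * (1 / (4 * d w ^ 2))) := mul_le_mul_of_nonneg_left h9 (by linarith)
        _ = _ := by ring
    have h8 : B / d w ^ 2 < K₁ * (γ' * c') * (1 / (4 * d w ^ 2)) := by
      have hgc : 0 < γ' * c' := by positivity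
      have h9 : 4 * B < K₁ * (γ' * c') := by
        have h10 : 4 * B / (γ' * c') * (γ' * c') = 4 * B := by field_simp
        have h11 : (4 * B / (γ' * c') + 1) * (γ' * c') ≤ K₁ * (γ' * c') := mul_le_mul_of_nonneg_right (by linarith) hgc.le
        rw [add_mul, h10] at h11
        linarith
      have h10 : B / d w ^ 2 = 4 * B * (1 / (4 * d w ^ 2)) := by field_simp
      rw [h10]
      exact mul_lt_mul_of_pos_right h9 (by positivity)
    linarith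
  · intro w hw
    have hw' : d w ≤ κ' := by
      by_contra hne
      exact hw (not_le.1 hne).le
    refine (hin w hw').trans (Real.exp_le_exp.2 ?_)
    have h1 := hlow2 w
    have h2 := hlow w
    have h3 := hQB w
    have h4 : Q * pw γ ‖w‖ ≤ 3 * Q * pq γ' ‖w‖ := by
      calc Q * pw γ ‖w‖ ≤ Q * (3 * pq γ' ‖w‖) :=
            mul_le_mul_of_nonneg_left ((pw_mono_exp hγγ'.le (norm_nonneg w)).trans (pw_le_pq hγ'0.le hγ'.le (norm_nonneg w))) hQ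
        _ = _ := by ring
    have h5 : Q ≤ Q * pq γ' ‖w‖ := le_mul_of_one_le_right hQ (one_le_pq hγ'0.le _)
    have h6 : (4 * Q) * pq γ' ‖w‖ ≤ K₁ * Sg A γ' rr w := by
      have h7 : 0 ≤ 4 * B / (γ' * c') := by positivity
      exact mul_le_mul (by linarith) h2 (by linarith [one_le_pq hγ'0.le ‖w‖]) (by linarith)
    linarith
  · intro w hw
    refine (hout w).trans (Real.exp_le_exp.2 ?_)
    have h1 := hR ‖w‖ hw (norm_nonneg w)
    have h2 := hlow w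
    have h3 : 0 ≤ pq γ' ‖w‖ := by linarith [one_le_pq hγ'0.le ‖w‖]
    have h4 : Sg A γ' rr w ≤ K₁ * Sg A γ' rr w := le_mul_of_one_le_left (by linarith) hK₁0
    have h5 : 0 ≤ Real.exp 1 * ε * Sg A γn rr w := le_trans (mul_nonneg hε (le_min (norm_nonneg w) hn)) (hlow2 w)
    linarith

end Pool.Agent.SR3.F

end
end

section

/-!
# SR3 LimE: the limit at an accumulation point of holes with an end at a crossing

`eqf v i l`: the local equation `(E i x) l / ⟪v, x⟫ ^ c i`, a function of the point of the projective space.  If holes with the end `v` accumulate at `z₁`, then all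
holes near `z₁` have the end `v`, the curve is near `v` off the holes.  If `E i` is not zero at `f z₁`, then `eqf` is almost constant on a circle about `z₁` which avoids
the holes: winding number `0`, against `circle_sum` and `Rim.wind`.
-/

set_option autoImplicit false

open Topology Filter Metric

noncomputable section

namespace Pool.Agent.SR3

open Pool.Agent.H36.BP (EN fs wd Sub OrdTwo)
open Pool.Agent.H62.EF (MN pr nm_close near_of_pr)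
open Pool.Agent.G3 (LLift)

variable {N : ℕ} {G : Geo N}

/-- near a point where the local equation is not zero it is almost constant -/
theorem eqf_near (hG : G.Ok) {v x₁ : EN N} (hx₁ : x₁ ≠ 0) {i : G.ι} {l : Fin (G.M + 1)} (h0 : eqf (G := G) v i l x₁ ≠ 0) (hv : (inner ℂ v x₁ : ℂ) ≠ 0) :
    ∃ δ : ℝ, 0 < δ ∧ ∀ x : EN N, x ≠ 0 → dist (pr x) (pr x₁) < δ → ‖eqf (G := G) v i l x - eqf (G := G) v i l x₁‖ < ‖eqf (G := G) v i l x₁‖ := by
  have hc : ContinuousAt (fun x => ‖eqf (G := G) v i l x - eqf (G := G) v i l x₁‖) x₁ := ((analyticAt_eqf hG i l hv).continuousAt.sub continuousAt_const).norm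
  have h1 : {x : EN N | ‖eqf (G := G) v i l x - eqf (G := G) v i l x₁‖ < ‖eqf (G := G) v i l x₁‖} ∈ 𝓝 x₁ := by
    refine hc.eventually_lt continuousAt_const ?_
    rw [sub_self, norm_zero]
    exact norm_pos_iff.2 h0
  obtain ⟨δ, hδ, h2⟩ := near_of_pr hx₁ h1
  refine ⟨δ, hδ, fun x hx hd => ?_⟩
  obtain ⟨c, hc0, h3⟩ := h2 x hx hd
  rw [Set.mem_ofPred_eq, eqf_smul hG v i l x hc0] at h3
  exact h3

theorem lim_end (hG : G.Ok) (hB : G.Bdry) {Y : Finset (EN N)} (hY : G.Ends Y) : ∃ ε₁ : ℝ, 0 < ε₁ ∧ ∀ B₃ B₄ ε K ε₂ : ℝ, 20 ≤ K → 0 < ε → 2 * ε ≤ ε₂ →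
    ε₂ ≤ ε₁ → ∀ 𝒰 U Γ t s y, G.Loc Y B₃ B₄ ε K ε₂ 𝒰 U Γ t s y → ∀ f, Geo.LimOf 𝒰 U Γ t s f →
    (∀ z ∈ U, ∀ x : EN N, x ≠ 0 → f z = pr x → x ∈ G.X ∧ x ∉ G.K) → ∀ z₁ ∈ U, ∀ (v : EN N) (i i' : G.ι), v ∈ Y → i ≠ i' → G.E i v = 0 → G.E i' v = 0 →
      (∀ r : ℝ, 0 < r → ∀ᶠ n in (𝒰 : Filter ℕ), ∃ a ∈ t n, ‖a - z₁‖ < r ∧ y n a = v) → f z₁ = pr v := by
  obtain ⟨ε₁, hE⟩ := exists_limEps hG hB hY
  refine ⟨ε₁, hE.pos, fun B₃ B₄ ε K ε₂ hK hε h2 h1 𝒰 U Γ t s y hL f hf hbd z₁ hz₁ v i i' hv hii hi hi' hacc => ?_⟩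
  have hX0 : ∀ x ∈ G.X, x ≠ 0 := fun x hx h => hG.cone.zero_notMem (h ▸ hx)
  have hKX : ∀ x ∈ G.K, x ∈ G.X := fun x hx => ((hG.aff.mem x).1 hx).1
  have hε₂ : 0 < ε₂ := by linarith
  -- the lift at `z₁`
  obtain ⟨Φ, hΦ, hΦe⟩ := hf.lift z₁ hz₁
  obtain ⟨hx₁, hfx⟩ := hΦe.self_of_nhds
  set x₁ := Φ z₁ with hx₁def
  obtain ⟨hx₁X, hx₁K⟩ := hbd z₁ hz₁ x₁ hx₁ hfx
  have hfc : ContinuousAt f z₁ := by
    have h3 : ContinuousAt (fun w => pr (Φ w)) z₁ := ContinuousAt.comp (f := Φ) (g := pr) (Pool.Agent.H62.EF.continuousAt_pr hx₁) hΦ.continuousAt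
    exact h3.congr (hΦe.mono fun w hw => hw.2.symm)
  -- the control near `z₁`
  obtain ⟨r₁, hr₁, hloc⟩ := hL.loc z₁ hz₁
  have hst : ∀ᶠ n in (𝒰 : Filter ℕ), (∀ w ∈ ball z₁ r₁, Off (t n) (s n) w → dist (pr (Γ n w)) (pr v) < ε₂) ∧ ∀ b ∈ t n, ‖b - z₁‖ < r₁ / 2 → y n b = v := by
    filter_upwards [hloc, hacc (r₁ / 2) (by positivity), hL.tiny_at z₁ r₁ (r₁ / 4) (by positivity)] with n h3 h4 h5
    obtain ⟨a', ha', har', hav⟩ := h4
    rcases h3 with ⟨a, ha, h6⟩ | ⟨h6, -⟩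
    · have h7 : ∀ b ∈ t n, ‖b - z₁‖ < r₁ / 2 → y n b = y n a := fun b hb hbr =>
        end_eq hE hK h2 h1 (hL.pos n) (hL.sep n) (hL.rim n) (hL.rim n a ha).mem h6 hb (by
          have := h5 b hb (by linarith)
          linarith)
      have h8 : y n a = v := by rw [← h7 a' ha' har', hav]
      rw [h8] at h6
      exact ⟨h6, fun b hb hbr => by rw [h7 b hb hbr, h8]⟩
    · have := h6 a' ha'
      linarith
  -- a compact neighbourhood
  obtain ⟨r₂, hr₂, hr₂U⟩ := Metric.isOpen_iff.1 hL.opn z₁ hz₁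
  obtain ⟨R₀, hR₀, hcirc⟩ := loc_circle hL hz₁
  have hlim : ∀ δ : ℝ, 0 < δ → ∃ r : ℝ, 0 < r ∧ r ≤ R₀ ∧ r < r₁ / 2 ∧ ∀ᶠ n in (𝒰 : Filter ℕ), ∀ z, ‖z - z₁‖ ≤ r → Far (t n) (s n) z → dist (pr (Γ n z)) (pr x₁) < δ := by
    intro δ hδ
    obtain ⟨r₃, hr₃, h3⟩ := Metric.continuousAt_iff.1 hfc (δ / 2) (by positivity)
    refine ⟨min (min (r₃ / 2) (r₂ / 2)) (min R₀ (r₁ / 4)), by positivity, (min_le_right _ _).trans (min_le_left _ _),
      ((min_le_right _ _).trans (min_le_right _ _)).trans_lt (by linarith), ?_⟩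
    have hsub : closedBall z₁ (min (min (r₃ / 2) (r₂ / 2)) (min R₀ (r₁ / 4))) ⊆ U := by
      intro z hz
      refine hr₂U ?_
      rw [mem_closedBall] at hz
      rw [mem_ball]
      have := ((min_le_left _ _).trans (min_le_right _ _) : min (min (r₃ / 2) (r₂ / 2)) (min R₀ (r₁ / 4)) ≤ r₂ / 2)
      linarith
    filter_upwards [hf.lim _ hsub (isCompact_closedBall _ _) (δ / 2) (by positivity)] with n h4 z hz hfar
    have h5 := h4 z (mem_closedBall_iff_norm.2 hz) hfar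
    have h6 : dist (f z) (f z₁) < δ / 2 := by
      refine h3 ?_
      rw [dist_eq_norm]
      have := ((min_le_left _ _).trans (min_le_left _ _) : min (min (r₃ / 2) (r₂ / 2)) (min R₀ (r₁ / 4)) ≤ r₃ / 2)
      linarith
    rw [hfx] at h6
    have h7 := dist_triangle (pr (Γ n z)) (f z) (pr x₁)
    linarith
  -- `f z₁` is near `v`
  have hnear : dist (pr x₁) (pr v) < 2 * ε₁ := by
    obtain ⟨r, hr, hrR, hr1, h3⟩ := hlim ε₂ hε₂
    obtain ⟨n, h4, ⟨h5, -⟩, ρ, hρ1, hρ2, h6, -, -, h7⟩ := (h3.and (hst.and (hcirc r hr hrR))).exists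
    have hρ : 0 < ρ := by linarith
    have h8 : ‖(z₁ + ρ) - z₁‖ = ρ := by rw [add_sub_cancel_left, Complex.norm_real, Real.norm_of_nonneg hρ.le]
    have h9 := h4 (z₁ + ρ) (by rw [h8]; exact hρ2.le) (h6 _ h8)
    have h10 := h5 (z₁ + ρ) (by rw [mem_ball_iff_norm, h8]; linarith) (h7 _ h8)
    have h11 : dist (pr x₁) (pr v) ≤ dist (pr (Γ n (z₁ + ρ))) (pr x₁) + dist (pr (Γ n (z₁ + ρ))) (pr v) := dist_triangle_left _ _ _
    linarith
  have hinn : (inner ℂ v x₁ : ℂ) ≠ 0 := hE.inn v hv x₁ hx₁ hnear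
  -- the main argument
  have core : ∀ j : G.ι, G.E j v = 0 → G.E j x₁ = 0 := by
    intro j hj
    by_contra hne
    obtain ⟨l, c, hc, hle⟩ := hE.loc v hv j hj
    have hnum : ∀ x ∈ G.X, G.E j x ≠ 0 → dist (pr x) (pr v) < 2 * ε₁ → (G.E j x).ofLp l ≠ 0 := by
      intro x hx h0 hd h3
      have h4 := hle x hx hd
      rw [h3, norm_zero] at h4
      have h5 : 0 < c * ‖G.E j x‖ := mul_pos hc (norm_pos_iff.2 h0)
      linarith
    have h0 : eqf (G := G) v j l x₁ ≠ 0 := div_ne_zero (hnum x₁ hx₁X hne hnear) (pow_ne_zero _ hinn)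
    obtain ⟨δ, hδ, hδe⟩ := eqf_near hG hx₁ h0 hinn
    obtain ⟨r, hr, hrR, hr1, h3⟩ := hlim δ hδ
    obtain ⟨n, h4, ⟨h5, h5'⟩, ⟨ρ, hρ1, hρ2, h6, h7, h8, h9⟩, a', ha', har', -⟩ :=
      (h3.and (hst.and ((hcirc r hr hrR).and (hacc (r / 2) (by positivity))))).exists
    have hρ : 0 < ρ := by linarith
    obtain ⟨hΓ, hΓK, -⟩ := hL.crv n
    have hΓ0 : ∀ z, Γ n z ≠ 0 := fun z => hX0 _ (hKX _ (hΓK z))
    -- off the holes
    have hoff : ∀ ζ ∈ closedBall z₁ ρ, Off (t n) (s n) ζ → (G.E j (Γ n ζ)).ofLp l ≠ 0 ∧ (inner ℂ v (Γ n ζ) : ℂ) ≠ 0 := by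
      intro ζ hζ ho
      have hb : ζ ∈ ball z₁ r₁ := by
        rw [mem_ball]
        rw [mem_closedBall] at hζ
        linarith
      have hd : dist (pr (Γ n ζ)) (pr v) < 2 * ε₁ := (h5 ζ hb ho).trans (by linarith [hE.pos])
      exact ⟨hnum _ (hKX _ (hΓK ζ)) (hG.neE j _ (hΓK ζ)) hd, hE.inn v hv _ (hΓ0 ζ) hd⟩
    have hsph : ∀ ζ ∈ sphere z₁ ρ, ‖ζ - z₁‖ = ρ := fun ζ hζ => mem_sphere_iff_norm.1 hζ
    have hcb : ∀ ζ ∈ sphere z₁ ρ, ζ ∈ closedBall z₁ ρ := fun ζ hζ => sphere_subset_closedBall hζ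
    -- the integral on the circle is zero
    have hI0 : (∮ ζ in C(z₁, ρ), (logDeriv (fun ζ => (G.E j (Γ n ζ)).ofLp l) ζ - G.c j * logDeriv (fun ζ => (inner ℂ v (Γ n ζ) : ℂ)) ζ)) = 0 := by
      have h10 : (∮ ζ in C(z₁, ρ), logDeriv (fun ζ => eqf (G := G) v j l (Γ n ζ)) ζ) = ∮ ζ in C(z₁, ρ), logDeriv (fun _ : ℂ => eqf (G := G) v j l x₁) ζ :=
        circle_close hρ (fun ζ hζ => (logDeriv_eqf hG hΓ j l (hoff ζ (hcb ζ hζ) (h9 ζ (hsph ζ hζ))).1 (hoff ζ (hcb ζ hζ) (h9 ζ (hsph ζ hζ))).2).1)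
          (fun ζ _ => analyticAt_const) fun ζ hζ => hδe _ (hΓ0 ζ) (h4 ζ (by rw [hsph ζ hζ]; exact hρ2.le) (h6 ζ (hsph ζ hζ)))
      have h11 : (∮ ζ in C(z₁, ρ), logDeriv (fun _ : ℂ => eqf (G := G) v j l x₁) ζ) = 0 := by
        rw [logDeriv_const]
        simp [circleIntegral]
      rw [← h11, ← h10]
      refine circleIntegral.integral_congr hρ.le fun ζ hζ => ?_
      exact (logDeriv_eqf hG hΓ j l (hoff ζ (hcb ζ hζ) (h9 ζ (hsph ζ hζ))).1 (hoff ζ (hcb ζ hζ) (h9 ζ (hsph ζ hζ))).2).2.symm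
    -- the sum over the holes
    have hsum := circle_sum (f := fun ζ => logDeriv (fun ζ => (G.E j (Γ n ζ)).ofLp l) ζ - G.c j * logDeriv (fun ζ => (inner ℂ v (Γ n ζ) : ℂ)) ζ) (w := z₁) hρ
      ((t n).filter (fun a => ‖a - z₁‖ < ρ)) (s n) (fun a ha => hL.pos n a (Finset.mem_filter.1 ha).1)
      (fun a ha b hb hab => by
        have h10 := hL.sep n a (Finset.mem_filter.1 ha).1 b (Finset.mem_filter.1 hb).1 hab
        have h11 : 0 < max (s n a) (s n b) := lt_max_of_lt_left (hL.pos n a (Finset.mem_filter.1 ha).1)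
        nlinarith)
      (fun a ha => h7 a (Finset.mem_filter.1 ha).1 (Finset.mem_filter.1 ha).2)
      (fun ζ hζ ho => diff_lf hG hΓ j l (hoff ζ hζ (h8 ζ hζ ho)).1 (hoff ζ hζ (h8 ζ hζ ho)).2)
    rw [hI0] at hsum
    have hloc2 : G.LocEq ε v j l := ⟨c, hc, fun x hx hd => hle x hx (hd.trans (by linarith [hE.pos]))⟩
    have hk : ∀ a ∈ (t n).filter (fun a => ‖a - z₁‖ < ρ), ∃ k : ℕ, 1 ≤ k ∧
        (∮ ζ in C(a, s n a), (logDeriv (fun ζ => (G.E j (Γ n ζ)).ofLp l) ζ - G.c j * logDeriv (fun ζ => (inner ℂ v (Γ n ζ) : ℂ)) ζ)) = -(2 * Real.pi * Complex.I * k) := by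
      intro a ha
      obtain ⟨ha1, ha2⟩ := Finset.mem_filter.1 ha
      have hya : y n a = v := h5' a ha1 (by linarith)
      obtain ⟨k, -, hk1, hk2⟩ := (hL.rim n a ha1).wind j l (by rw [hya]; exact hloc2)
      rw [hya] at hk1 hk2
      exact ⟨k, hk1 hj, by rw [wnd_circle]; exact hk2 1 le_rfl (by norm_num)⟩
    choose! k hk1 hk2 using hk
    rw [Finset.sum_congr rfl hk2, Finset.sum_neg_distrib, ← Finset.mul_sum] at hsum
    have ha'f : a' ∈ (t n).filter (fun a => ‖a - z₁‖ < ρ) := Finset.mem_filter.2 ⟨ha', by linarith⟩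
    have hK1 : 1 ≤ ∑ a ∈ (t n).filter (fun a => ‖a - z₁‖ < ρ), k a := (hk1 a' ha'f).trans (Finset.single_le_sum (f := k) (fun a _ => Nat.zero_le _) ha'f)
    have h12 : (2 * Real.pi * Complex.I * ((∑ a ∈ (t n).filter (fun a => ‖a - z₁‖ < ρ), k a : ℕ) : ℂ)) = 0 := by
      push_cast
      exact neg_eq_zero.1 hsum.symm
    have h13 : (2 * Real.pi * Complex.I : ℂ) ≠ 0 := by
      simp [Real.pi_ne_zero]
    rcases mul_eq_zero.1 h12 with h14 | h14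
    · exact h13 h14
    · have : (∑ a ∈ (t n).filter (fun a => ‖a - z₁‖ < ρ), k a) = 0 := by exact_mod_cast h14
      omega
  rw [hfx]
  exact hE.two v hv i i' hii x₁ hx₁X hx₁K (core i hi) (core i' hi') hnear

end Pool.Agent.SR3

end
end
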