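import Pool.Agent.H43.TL2.H62.EF.PrA
import Pool.Agent.H43.TL2.M01
import Pool.Agent.H43.TL2.M06
import Pool.Agent.H43.TL2.M138
import Pool.Agent.H43.TL2.M14
import Pool.Agent.H43.TL2.M147
import Pool.Agent.H43.TL2.M153
import Pool.Agent.H43.TL2.SR3.GDefs_1

/-! The parts of this file: H39.SY.Dim, SR3.DiscE, SR3.LWnd, SR3.LinL_1, SR3.PreA, SR3.PreB. -/

section

/-!
# Project SY, module Dim: the dimension of the cone

`t = coordFun P i₀`, `X i₀ ∉ P`; `K = FractionRing (ℂ[y] ⧸ P)`, `FunField P` is a subfield of `K`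
(`functionField P`), `coordFun P i = t * ratio P i i₀` in `K`.
First part: `K` is generated by `t` and `FunField P`, so it is algebraic over `ℂ(t, z)` and every
algebraically independent family in `K` has at most `r + 1` elements; `ℂ[y] ⧸ P` is contained in `K`
(`Algebra.trdeg`, or `IsTranscendenceBasis.lift_cardinalMk_eq`, see `trdeg_le`/`exists_TD`).
Second part: `Pool.Agent.H92.GT.exists_index` (`FunField P` is generated by the `ratio P i i₀`,
`Pool.Agent.H17R.adjoin_ratio`) gives `J : Fin r → _` such that the `ratio P (J i) i₀` are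
algebraically independent; then the `r + 1` elements `X i₀, X (J 0), …` are independent modulo `P`: a
relation `R ≠ 0` has a homogeneous component `R' ≠ 0` which is a relation too (`P` is homogeneous);
`R' (X i₀, X (J i)) ∈ P` gives `R' (1, ratio P (J i) i₀) = 0` (`eval_ratio_zero_iff`), so the
polynomial `R' (1, ·)` is zero, so `R' = 0`.
-/

open MvPolynomial
open Pool.Agent.H17LG.Variety (FunField)
open Pool.Agent.H17GT (coordFun functionField)
open Pool.Agent.H5.DG (Homog TD)

noncomputable section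

namespace Pool.Agent.H39.SY

/-- The coordinates `t, t y_i`: the fraction field of the coordinate ring is algebraic over
`F [t]`, `F` the function field of the projective variety. -/
private theorem Dim_alg {M : ℕ} (P : Ideal (MvPolynomial (Fin (M + 1)) ℂ)) [P.IsPrime]
    {i₀ : Fin (M + 1)} (ht : coordFun P i₀ ≠ 0) :
    Algebra.IsAlgebraic (Algebra.adjoin (functionField P) {coordFun P i₀})
      (FractionRing (MvPolynomial (Fin (M + 1)) ℂ ⧸ P)) := by
  set K := FractionRing (MvPolynomial (Fin (M + 1)) ℂ ⧸ P) with hK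
  set A := Algebra.adjoin (functionField P) {coordFun P i₀} with hA
  have hcoord : ∀ i, coordFun P i ∈ A := by
    intro i
    have h1 : coordFun P i = algebraMap (functionField P) K
        ⟨coordFun P i / coordFun P i₀, IntermediateField.subset_adjoin _ _ ⟨i, i₀, rfl⟩⟩ *
        coordFun P i₀ := by
      change coordFun P i = coordFun P i / coordFun P i₀ * coordFun P i₀
      rw [div_mul_cancel₀ _ ht]
    rw [h1]
    exact A.mul_mem (A.algebraMap_mem _) (Algebra.subset_adjoin rfl)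
  have hring : ∀ a : MvPolynomial (Fin (M + 1)) ℂ ⧸ P,
      algebraMap (MvPolynomial (Fin (M + 1)) ℂ ⧸ P) K a ∈ A := by
    intro a
    obtain ⟨G, rfl⟩ := Ideal.Quotient.mk_surjective a
    induction G using MvPolynomial.induction_on with
    | C c =>
      have h1 : algebraMap (MvPolynomial (Fin (M + 1)) ℂ ⧸ P) K (Ideal.Quotient.mk P (C c)) =
          algebraMap (functionField P) K (algebraMap ℂ (functionField P) c) := by
        rw [← IsScalarTower.algebraMap_apply]
        rfl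
      rw [h1]
      exact A.algebraMap_mem _
    | add p q hp hq =>
      rw [map_add, map_add]
      exact A.add_mem hp hq
    | mul_X p i hp =>
      rw [map_mul, map_mul]
      exact A.mul_mem hp (hcoord i)
  refine ⟨fun z => ?_⟩
  obtain ⟨a, b, -, rfl⟩ := IsFractionRing.div_surjective (A := MvPolynomial (Fin (M + 1)) ℂ ⧸ P) z
  have h1 : ∀ a : MvPolynomial (Fin (M + 1)) ℂ ⧸ P,
      IsAlgebraic A (algebraMap (MvPolynomial (Fin (M + 1)) ℂ ⧸ P) K a) := fun a =>
    isAlgebraic_algebraMap (⟨_, hring a⟩ : A)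
  rw [div_eq_mul_inv]
  exact (h1 a).mul (h1 b).inv

private theorem Dim_trdeg {K : Type} [Field K] [Algebra ℂ K] {L : IntermediateField ℂ K} {t : K}
    (h1 : Algebra.IsAlgebraic (Algebra.adjoin L {t}) K) {r : ℕ} {z : Fin r → L}
    (hz : IsTranscendenceBasis ℂ z) : Algebra.trdeg ℂ K ≤ (r + 1 : ℕ) := by
  have h2 : Algebra.trdeg L K ≤ Cardinal.mk ({t} : Set K) :=
    Algebra.IsAlgebraic.trdeg_le_cardinalMk _ _
  rw [Cardinal.mk_singleton] at h2
  have h3 : Algebra.trdeg ℂ L = r := by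
    rw [← hz.cardinalMk_eq_trdeg, Cardinal.mk_fin]
  have h4 : Algebra.trdeg ℂ L + Algebra.trdeg L K = Algebra.trdeg ℂ K := trdeg_add_eq ℂ L
  rw [← h4, h3, Nat.cast_add, Nat.cast_one]
  exact add_le_add_right h2 _

/-- A form which vanishes at all points with first coordinate `1` is zero. -/
private theorem Dim_form {r n : ℕ} {G : MvPolynomial (Fin (r + 1)) ℂ} (hG : G.IsHomogeneous n)
    (h : ∀ b : Fin r → ℂ, aeval (Fin.cons 1 b : Fin (r + 1) → ℂ) G = 0) : G = 0 := by
  have h1 : X 0 * G = 0 := by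
    refine MvPolynomial.funext fun a => ?_
    rw [map_mul, eval_X, map_zero]
    by_cases ha : a 0 = 0
    · rw [ha, zero_mul]
    · have h2 : aeval a G = a 0 ^ n * aeval (Fin.cons 1 fun i => a i.succ / a 0 :
          Fin (r + 1) → ℂ) G := by
        refine Pool.Agent.H5.DG.aeval_eq_pow_mul hG fun i => ?_
        refine Fin.cases ?_ (fun i => ?_) i
        · rw [Fin.cons_zero, mul_one]
        · rw [Fin.cons_succ, mul_div_cancel₀ _ ha]
      rw [h, mul_zero, MvPolynomial.aeval_eq_eval] at h2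
      change eval a G = 0 at h2
      rw [h2, mul_zero]
  exact (mul_eq_zero.1 h1).resolve_left (X_ne_zero 0)

theorem TD_cone {M r : ℕ} {P : Ideal (MvPolynomial (Fin (M + 1)) ℂ)} [P.IsPrime] (hP : Homog P)
    (hX : ∃ i, X i ∉ P) (hz : ∃ z : Fin r → FunField P, IsTranscendenceBasis ℂ z) :
    TD P (r + 1) ∧ ¬ TD P r := by
  obtain ⟨i₀, hi₀⟩ := hX
  obtain ⟨z, hz⟩ := hz
  have ht : coordFun P i₀ ≠ 0 := by
    intro hcon
    apply hi₀
    rw [← Pool.Agent.H92.GT.Proj.aeval_coordFun_eq_zero_iff, aeval_X]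
    exact hcon
  constructor
  · intro f hf
    have hle := Dim_trdeg (Dim_alg P ht) (z := z) hz
    have hinj : Function.Injective (IsScalarTower.toAlgHom ℂ (MvPolynomial (Fin (M + 1)) ℂ ⧸ P)
        (FractionRing (MvPolynomial (Fin (M + 1)) ℂ ⧸ P))) :=
      IsFractionRing.injective (MvPolynomial (Fin (M + 1)) ℂ ⧸ P)
        (FractionRing (MvPolynomial (Fin (M + 1)) ℂ ⧸ P))
    have h1 := (hf.map' hinj).cardinalMk_le_trdeg.trans hle
    rw [Cardinal.mk_fin, Nat.cast_le] at h1
    omega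
  · intro hTD
    obtain ⟨x, hx1, hxgen, hxker⟩ := Pool.Agent.H92.GT.Proj.proj_point P ht
    have halg : Algebra.IsAlgebraic (IntermediateField.adjoin ℂ (Set.range x))
        (functionField P) := by
      rw [hxgen]
      exact ⟨fun f => isAlgebraic_algebraMap (⟨f, IntermediateField.mem_top⟩ :
        (⊤ : IntermediateField ℂ (functionField P)))⟩
    obtain ⟨J, hJ⟩ := Pool.Agent.H92.GT.exists_index halg (z := z) hz
    obtain ⟨σ, hσ⟩ : ∃ σ : Fin (r + 1) → Fin (M + 1), σ = Fin.cons i₀ J := ⟨_, rfl⟩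
    refine hTD (fun i => X (σ i)) ?_
    rw [algebraicIndependent_iff]
    intro Q hQ
    have hmem : rename σ Q ∈ P := by
      rw [← Ideal.Quotient.eq_zero_iff_mem, ← hQ]
      change Ideal.Quotient.mkₐ ℂ P (rename σ Q) = _
      rw [rename_eq_aeval]
      exact comp_aeval_apply (f := fun i => X (σ i)) (Ideal.Quotient.mkₐ ℂ P) Q
    rw [← sum_homogeneousComponent Q]
    refine Finset.sum_eq_zero fun n _ => ?_
    have hn : rename σ (homogeneousComponent n Q) ∈ P := by
      rw [rename_homogeneousComponent]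
      exact hP _ hmem n
    have hhom := homogeneousComponent_isHomogeneous n Q
    generalize homogeneousComponent n Q = G at hn hhom
    have h1 : aeval x (rename σ G) = 0 := (hxker n _ (hhom.rename_isHomogeneous)).2 hn
    rw [aeval_rename] at h1
    have h2 : (x ∘ σ) = (Fin.cons 1 fun i => x (J i) : Fin (r + 1) → functionField P) := by
      funext i
      rw [hσ]
      refine Fin.cases ?_ (fun i => ?_) i
      · exact hx1
      · rfl
    rw [h2] at h1
    -- the dehomogenised polynomial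
    have h3 : aeval (fun i => x (J i)) (aeval (Fin.cons 1 fun i => X i :
        Fin (r + 1) → MvPolynomial (Fin r) ℂ) G) = 0 := by
      rw [← h1, ← AlgHom.comp_apply, comp_aeval]
      congr 2
      funext i
      refine Fin.cases ?_ (fun i => ?_) i
      · simp
      · simp
    have h4 := hJ.1.eq_zero_of_aeval_eq_zero _ h3
    refine Dim_form hhom fun b => ?_
    have h5 : aeval b (aeval (Fin.cons 1 fun i => X i :
        Fin (r + 1) → MvPolynomial (Fin r) ℂ) G) = 0 := by rw [h4, map_zero]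
    rw [← h5, ← AlgHom.comp_apply, comp_aeval]
    congr 2
    funext i
    refine Fin.cases ?_ (fun i => ?_) i
    · simp
    · simp

end Pool.Agent.H39.SY

end
end

section

/-!
# SR3 DiscE: a logarithmic gain from the scales between `s` and `r`

`v` is subharmonic for the logarithm on the disc with centre `r` and radius `r`, with a bounded error in a neighbourhood of width one of the circle,
`v ≤ exp A`, and `v z ≤ exp (A - c |Im z|)` where `|Im z| ≥ s`.  Then `v 1 ≤ exp (A' - c / 3 log (r / s))`.  Comparison with the real part of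
`(c / 3) (z log (z + s) - log (2 r) z + 6 s z / (z + s))`.
-/

set_option autoImplicit false

open Topology Filter Metric

noncomputable section

namespace Pool.Agent.SR3

open Pool.Agent.H36.BP (Sub Sub.anti Sub.mul Sub.congr Sub.of_holo Sub.exp_sq max_principle)

/-- on the circle `|z - r| = r` -/
private theorem de_circle {r : ℝ} {z : ℂ} (h : ‖z - r‖ = r) : ‖z‖ ^ 2 = 2 * r * z.re := by
  have h1 : ‖z - r‖ ^ 2 = r ^ 2 := by rw [h]
  rw [← Complex.normSq_eq_norm_sq, Complex.normSq_apply] at h1 ⊢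
  simp only [Complex.sub_re, Complex.ofReal_re, Complex.sub_im, Complex.ofReal_im, sub_zero] at h1
  nlinarith

private theorem de_re {r : ℝ} (hr : 0 < r) {z : ℂ} (h : ‖z - r‖ ≤ r) : 0 ≤ z.re := by
  have h1 : |(z - r).re| ≤ r := (Complex.abs_re_le_norm _).trans h
  rw [Complex.sub_re, Complex.ofReal_re] at h1
  have := (abs_le.1 h1).1
  linarith

/-- the first part -/
private theorem de_first (z : ℂ) (s : ℝ) : (z * Complex.log (z + s)).re = z.re * Real.log ‖z + s‖ - z.im * Complex.arg (z + s) := by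
  rw [Complex.mul_re, Complex.log_re, Complex.log_im]

/-- the second part -/
private theorem de_second {z : ℂ} {s : ℝ} (hs : 0 < s) (hz : 0 ≤ z.re) :
    ((s : ℂ) * z / (z + s)).re = s * (z.re * (z.re + s) + z.im ^ 2) / ((z.re + s) ^ 2 + z.im ^ 2) := by
  have h1 : 0 < (z.re + s) ^ 2 + z.im ^ 2 := by positivity
  have h2 : (s : ℂ) * z / (z + s) = ((s : ℂ) * z * (starRingEnd ℂ) (z + s)) * ((Complex.normSq (z + s))⁻¹ : ℝ) := by
    rw [div_eq_mul_inv, Complex.inv_def]
    ring
  have h3 : Complex.normSq (z + s) = (z.re + s) ^ 2 + z.im ^ 2 := by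
    rw [Complex.normSq_apply]
    simp
    ring
  rw [h2, h3, Complex.re_mul_ofReal, div_eq_mul_inv]
  congr 1
  rw [map_add, Complex.conj_ofReal, mul_assoc, Complex.re_ofReal_mul, mul_add, Complex.add_re, Complex.mul_conj, Complex.ofReal_re,
    Complex.re_mul_ofReal, Complex.normSq_apply]
  ring

private theorem de_arg {w : ℂ} (hw : 0 < w.re) : |Complex.arg w| ≤ |w.im| / w.re := by
  have h1 : |Complex.arg w| < Real.pi / 2 := Complex.abs_arg_lt_pi_div_two_iff.2 (Or.inl hw)
  have h2 : |Complex.arg w| ≤ Real.tan |Complex.arg w| := Real.le_tan (abs_nonneg _) h1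
  have h3 : Real.tan |Complex.arg w| = |w.im| / w.re := by
    rcases abs_cases (Complex.arg w) with ⟨h4, h5⟩ | ⟨h4, h5⟩
    · rw [h4, Complex.tan_arg]
      have h6 : 0 ≤ w.im := Complex.arg_nonneg_iff.1 h5
      rw [abs_of_nonneg h6]
    · rw [h4, Real.tan_neg, Complex.tan_arg]
      have h6 : w.im < 0 := Complex.arg_neg_iff.1 h5
      rw [abs_of_neg h6, neg_div]
  rw [← h3]
  exact h2

/-- the bound on the circle -/
private theorem de_bdy1 {r s : ℝ} (hr : 0 < r) (hs : 0 < s) {z : ℂ} (h : ‖z - r‖ = r) :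
    -(3 * |z.im|) ≤ (z * Complex.log (z + s)).re - Real.log (2 * r) * z.re := by
  have h1 := de_circle h
  have h2 : 0 ≤ z.re := de_re hr h.le
  have hzs : ‖z‖ ≤ ‖z + s‖ := by
    rw [Complex.norm_def, Complex.norm_def]
    refine Real.sqrt_le_sqrt ?_
    rw [Complex.normSq_apply, Complex.normSq_apply]
    simp only [Complex.add_re, Complex.ofReal_re, Complex.add_im, Complex.ofReal_im, add_zero]
    nlinarith
  rw [de_first]
  have h3 : |Complex.arg (z + s)| ≤ Real.pi / 2 := Complex.abs_arg_le_pi_div_two_iff.2 (by simp; linarith)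
  have h4 : z.im * Complex.arg (z + s) ≤ 2 * |z.im| := by
    refine (le_abs_self _).trans ?_
    rw [abs_mul, mul_comm]
    refine mul_le_mul_of_nonneg_right (h3.trans ?_) (abs_nonneg _)
    linarith [Real.pi_lt_four]
  rcases eq_or_ne z 0 with h0 | h0
  · rw [h0]; simp
  have hz : 0 < ‖z‖ := norm_pos_iff.2 h0
  have h5 : Real.log (2 * r) - Real.log ‖z‖ ≤ 2 * r / ‖z‖ - 1 := by
    rw [← Real.log_div (by positivity) hz.ne']
    exact Real.log_le_sub_one_of_pos (by positivity)
  have h6 : z.re * (Real.log (2 * r) - Real.log ‖z‖) ≤ z.re * (2 * r / ‖z‖ - 1) := mul_le_mul_of_nonneg_left h5 h2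
  have h7 : z.re * (2 * r / ‖z‖ - 1) = ‖z‖ - z.re := by
    have : z.re * (2 * r / ‖z‖) = ‖z‖ := by
      rw [mul_div_assoc', div_eq_iff hz.ne']
      linarith
    rw [mul_sub, mul_one, this]
  have h8 : ‖z‖ ≤ z.re + |z.im| := by
    have := Complex.norm_le_abs_re_add_abs_im z
    rwa [abs_of_nonneg h2] at this
  have h9 : z.re * Real.log ‖z‖ ≤ z.re * Real.log ‖z + s‖ := mul_le_mul_of_nonneg_left (Real.log_le_log hz hzs) h2
  linarith

/-- the bound on the circle near the real axis -/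
private theorem de_bdy2 {r s : ℝ} (hs : 0 < s) (hsr : 100 * s ≤ r) {z : ℂ} (h : ‖z - r‖ = r) (hz : |z.im| ≤ s) :
    0 ≤ (z * Complex.log (z + s)).re - Real.log (2 * r) * z.re + 6 * ((s : ℂ) * z / (z + s)).re := by
  have hr : 0 < r := by linarith
  have h1 := de_circle h
  have h2 : 0 ≤ z.re := de_re hr h.le
  have hy2 : z.im ^ 2 ≤ s ^ 2 := by
    rw [← sq_abs z.im]
    exact pow_le_pow_left₀ (abs_nonneg _) hz 2
  have h1' : z.re ^ 2 + z.im ^ 2 = 2 * r * z.re := by
    rw [← h1, ← Complex.normSq_eq_norm_sq, Complex.normSq_apply]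
    ring
  have hD : 0 < (z.re + s) ^ 2 + z.im ^ 2 := by positivity
  rw [de_second hs h2]
  rcases le_total z.re r with hx | hx
  · -- near
    have hx1 : z.re * r ≤ z.im ^ 2 := by nlinarith
    have hx2 : z.re ≤ s / 100 := by
      by_contra hc
      push Not at hc
      nlinarith
    have h3 : |Complex.arg (z + s)| ≤ |z.im| / s := by
      have h4 := de_arg (w := z + s) (by simp; linarith)
      refine h4.trans ?_
      simp only [Complex.add_im, Complex.ofReal_im, add_zero, Complex.add_re, Complex.ofReal_re]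
      exact div_le_div_of_nonneg_left (abs_nonneg _) hs (by linarith)
    have h4 : z.im * Complex.arg (z + s) ≤ z.im ^ 2 / s := by
      refine (le_abs_self _).trans ?_
      rw [abs_mul]
      calc |z.im| * |Complex.arg (z + s)| ≤ |z.im| * (|z.im| / s) := mul_le_mul_of_nonneg_left h3 (abs_nonneg _)
        _ = z.im ^ 2 / s := by rw [← sq_abs z.im]; ring
    have h5 : s ≤ ‖z + s‖ := by
      have h6 : |(z + s).re| ≤ ‖z + s‖ := Complex.abs_re_le_norm _
      simp only [Complex.add_re, Complex.ofReal_re] at h6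
      have := le_abs_self (z.re + s)
      linarith
    have h6 : Real.log (2 * r) - Real.log ‖z + s‖ ≤ r / s := by
      have h7 : Real.log s ≤ Real.log ‖z + s‖ := Real.log_le_log hs h5
      have h8 : Real.log (2 * r) - Real.log s = Real.log 2 + Real.log (r / s) := by
        rw [Real.log_mul (by norm_num) hr.ne', Real.log_div hr.ne' hs.ne']
        ring
      have h9 : Real.log (r / s) ≤ r / s - 1 := Real.log_le_sub_one_of_pos (by positivity)
      have h10 : Real.log 2 ≤ 1 := by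
        have := Real.log_two_lt_d9
        linarith
      linarith
    have h7 : z.re * (Real.log (2 * r) - Real.log ‖z + s‖) ≤ z.im ^ 2 / s := by
      calc z.re * (Real.log (2 * r) - Real.log ‖z + s‖) ≤ z.re * (r / s) := mul_le_mul_of_nonneg_left h6 h2
        _ = z.re * r / s := by ring
        _ ≤ z.im ^ 2 / s := div_le_div_of_nonneg_right hx1 hs.le
    have h8 : z.im ^ 2 / s * 2 ≤ 6 * (s * (z.re * (z.re + s) + z.im ^ 2) / ((z.re + s) ^ 2 + z.im ^ 2)) := by
      have h9 : (z.re + s) ^ 2 + z.im ^ 2 ≤ 3 * s ^ 2 := by nlinarith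
      have h10 : z.im ^ 2 / s * 2 = 6 * (s * z.im ^ 2 / (3 * s ^ 2)) := by
        field_simp
        ring
      rw [h10]
      refine mul_le_mul_of_nonneg_left ?_ (by norm_num)
      refine div_le_div₀ (by positivity) ?_ hD h9
      refine mul_le_mul_of_nonneg_left ?_ hs.le
      have : 0 ≤ z.re * (z.re + s) := by positivity
      linarith
    rw [de_first]
    linarith
  · -- far
    have h3 := de_bdy1 hr hs h
    have h4 : s / 2 ≤ s * (z.re * (z.re + s) + z.im ^ 2) / ((z.re + s) ^ 2 + z.im ^ 2) := by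
      rw [div_le_div_iff₀ (by norm_num) hD]
      have h5 : (z.re + s) ^ 2 + z.im ^ 2 ≤ (z.re * (z.re + s) + z.im ^ 2) * 2 := by nlinarith
      nlinarith [mul_le_mul_of_nonneg_left h5 hs.le]
    linarith

theorem disc_gain2 {c k A : ℝ} (hc : 0 < c) (hk : 0 ≤ k) :
    ∃ A' : ℝ, ∀ r s : ℝ, 1 ≤ s → 100 * s ≤ r → ∀ v : ℂ → ℝ, UpperSemicontinuousOn v (closedBall (r : ℂ) r) → (∀ z, 0 ≤ v z) →
      (∀ z ∈ ball (r : ℂ) r, 0 < v z → Sub v z (-k)) → (∀ z ∈ ball (r : ℂ) (r - 1), 0 < v z → Sub v z 0) →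
      (∀ z ∈ closedBall (r : ℂ) r, v z ≤ Real.exp A) → (∀ z ∈ closedBall (r : ℂ) r, s ≤ |z.im| → v z ≤ Real.exp (A - c * |z.im|)) →
      v 1 ≤ Real.exp (A' - c / 3 * Real.log (r / s)) := by
  refine ⟨A + 8 * k + 4 + 2 * c, fun r s hs1' hsr v husc hv0 hs1 hs2 hle hle2 => ?_⟩
  have hs : 0 < s := by linarith
  have hr0 : 0 < r := by linarith
  have hr : 2 < r := by linarith
  -- the comparison function
  obtain ⟨H, hH⟩ : ∃ H : ℂ → ℂ, H = fun z => ((c / 3 : ℝ) : ℂ) * (z * Complex.log (z + s) - (Real.log (2 * r) : ℂ) * z + ((6 : ℝ) : ℂ) * ((s : ℂ) * z / (z + s))) :=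
    ⟨_, rfl⟩
  have hHre : ∀ z, (H z).re = c / 3 * ((z * Complex.log (z + s)).re - Real.log (2 * r) * z.re + 6 * ((s : ℂ) * z / (z + s)).re) := by
    intro z
    rw [hH]
    simp only [Complex.add_re, Complex.re_ofReal_mul, Complex.sub_re]
  have hHan : ∀ z : ℂ, 0 ≤ z.re → AnalyticAt ℂ H z := by
    intro z hz
    have h1 : z + s ∈ Complex.slitPlane := Or.inl (by simp; linarith)
    have h2 : z + s ≠ 0 := Complex.slitPlane_ne_zero h1
    have h3 : AnalyticAt ℂ (fun z : ℂ => z + s) z := analyticAt_id.add analyticAt_const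
    rw [hH]
    exact analyticAt_const.mul (((analyticAt_id.mul (h3.clog h1)).sub (analyticAt_const.mul analyticAt_id)).add
      (analyticAt_const.mul ((analyticAt_const.mul analyticAt_id).div h3 h2)))
  have hHc : ContinuousOn H (closedBall (r : ℂ) r) := by
    intro z hz
    rw [mem_closedBall, dist_eq_norm] at hz
    exact (hHan z (de_re hr0 hz)).continuousAt.continuousWithinAt
  -- the function
  obtain ⟨ε, hε⟩ : ∃ ε : ℝ, ε = 1 / r ^ 2 := ⟨_, rfl⟩
  have hε0 : 0 < ε := by rw [hε]; positivity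
  obtain ⟨f, hf⟩ : ∃ f : ℂ → ℝ, f = fun z => ‖Complex.exp (-H z)‖ * (Real.exp (2 * k * max (‖z - r‖ - (r - 2)) 0 ^ 2) * Real.exp (ε * ‖z‖ ^ 2)) :=
    ⟨_, rfl⟩
  have hf0 : ∀ z, 0 < f z := fun z => by
    rw [hf]
    exact mul_pos (norm_pos_iff.2 (Complex.exp_ne_zero _)) (by positivity)
  have hfe : ∀ z, f z = Real.exp (-(H z).re + 2 * k * max (‖z - r‖ - (r - 2)) 0 ^ 2 + ε * ‖z‖ ^ 2) := fun z => by
    rw [hf]
    show ‖Complex.exp (-H z)‖ * (Real.exp (2 * k * max (‖z - r‖ - (r - 2)) 0 ^ 2) * Real.exp (ε * ‖z‖ ^ 2)) = _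
    rw [Complex.norm_exp, Complex.neg_re, ← Real.exp_add, ← Real.exp_add, add_assoc]
  have hfc : ContinuousOn f (closedBall (r : ℂ) r) := by
    rw [hf]
    refine (hHc.neg.cexp.norm).mul (Continuous.continuousOn ?_)
    fun_prop
  have huscf : UpperSemicontinuousOn (fun z => v z * f z) (closedBall (r : ℂ) r) := by
    intro z hz y hy
    have hy' : v z * f z < y := hy
    have h1 : v z < y / f z := (lt_div_iff₀ (hf0 z)).2 hy'
    obtain ⟨a, ha1, ha2⟩ := exists_between h1
    have h2 : a * f z < y := (lt_div_iff₀ (hf0 z)).1 ha2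
    have h3 : ∀ᶠ w in 𝓝[closedBall (r : ℂ) r] z, a * f w < y :=
      ((continuousWithinAt_const.mul (hfc z hz)).tendsto).eventually (gt_mem_nhds h2)
    filter_upwards [husc z hz a ha1, h3] with w hw1 hw2
    exact (mul_lt_mul_of_pos_right hw1 (hf0 w)).trans hw2
  have key := max_principle (isCompact_closedBall (r : ℂ) r) isOpen_ball ball_subset_closedBall (u := fun z => v z * f z) huscf
    (fun z hz hvz => ?_) (Real.exp_pos (A + 8 * k + 4)).le (fun z hz => ?_) 1 ?_
  · have h1 : f 1 = Real.exp (-(H 1).re + 2 * k * max (‖(1 : ℂ) - r‖ - (r - 2)) 0 ^ 2 + ε * ‖(1 : ℂ)‖ ^ 2) := hfe 1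
    have h2 : Real.exp (-(H 1).re) ≤ f 1 := by
      rw [h1, Real.exp_le_exp]
      have : 0 ≤ 2 * k * max (‖(1 : ℂ) - r‖ - (r - 2)) 0 ^ 2 + ε * ‖(1 : ℂ)‖ ^ 2 := by positivity
      linarith
    have h3 : v 1 * Real.exp (-(H 1).re) ≤ Real.exp (A + 8 * k + 4) := (mul_le_mul_of_nonneg_left h2 (hv0 1)).trans key
    have h4 : (H 1).re ≤ 2 * c - c / 3 * Real.log (r / s) := by
      rw [hHre, de_first, de_second hs (by simp)]
      simp only [Complex.one_re, Complex.one_im, zero_mul, sub_zero, one_mul, mul_one]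
      have h5 : ‖(1 : ℂ) + s‖ = 1 + s := by
        have : (1 : ℂ) + s = ((1 + s : ℝ) : ℂ) := by push_cast; ring
        rw [this, Complex.norm_real, Real.norm_eq_abs, abs_of_pos (by linarith)]
      rw [h5]
      have h6 : Real.log (1 + s) ≤ Real.log (2 * s) := Real.log_le_log (by linarith) (by linarith)
      have h7 : Real.log (2 * s) - Real.log (2 * r) = -Real.log (r / s) := by
        rw [Real.log_mul (by norm_num) hs.ne', Real.log_mul (by norm_num) hr0.ne', Real.log_div hr0.ne' hs.ne']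
        ring
      have h8 : s * (1 + s + 0 ^ 2) / ((1 + s) ^ 2 + 0 ^ 2) ≤ 1 := by
        rw [div_le_one (by positivity)]
        nlinarith
      have h9 : Real.log (1 + s) - Real.log (2 * r) + 6 * (s * (1 + s + 0 ^ 2) / ((1 + s) ^ 2 + 0 ^ 2)) ≤ 6 - Real.log (r / s) := by linarith
      have h10 := mul_le_mul_of_nonneg_left h9 (by positivity : (0 : ℝ) ≤ c / 3)
      linarith
    have h5 : v 1 ≤ Real.exp (A + 8 * k + 4) * Real.exp ((H 1).re) := by
      have h6 : v 1 = v 1 * Real.exp (-(H 1).re) * Real.exp ((H 1).re) := by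
        rw [mul_assoc, ← Real.exp_add, neg_add_cancel, Real.exp_zero, mul_one]
      rw [h6]
      exact mul_le_mul_of_nonneg_right h3 (Real.exp_pos _).le
    refine h5.trans ?_
    rw [← Real.exp_add, Real.exp_le_exp]
    linarith
  · -- the Laplacian
    have hv : 0 < v z := by
      by_contra hcon
      have : v z * f z ≤ 0 := mul_nonpos_of_nonpos_of_nonneg (not_lt.1 hcon) (hf0 z).le
      linarith
    have hzn : ‖z - r‖ < r := by
      rw [mem_ball, dist_eq_norm] at hz
      exact hz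
    have hre : 0 ≤ z.re := de_re hr0 hzn.le
    have h1 : Sub (fun w => ‖Complex.exp (-H w)‖) z 0 := Sub.of_holo ((hHan z hre).neg.cexp) (Complex.exp_ne_zero _)
    have h2 : Sub (fun w => Real.exp (ε * ‖w‖ ^ 2)) z (ε * ‖deriv (fun w : ℂ => w) z‖ ^ 2) := Sub.exp_sq analyticAt_id _
    have h3 : deriv (fun w : ℂ => w) z = 1 := deriv_id z
    rw [h3, norm_one, one_pow, mul_one] at h2
    by_cases hz1 : ‖z - r‖ < r - 1
    · have h4 := hs2 z (by rw [mem_ball, dist_eq_norm]; exact hz1) hv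
      have h5 := sub_rad (2 * k) (r - 2) (by positivity) (r : ℂ) z
      refine ⟨0 + (0 + (0 + ε)), by linarith, ?_⟩
      rw [hf]
      exact h4.mul (h1.mul (h5.mul h2))
    · have h4 := hs1 z hz hv
      have h5 : Sub (fun w => Real.exp (2 * k * max (‖w - r‖ - (r - 2)) 0 ^ 2)) z (2 * k / 2) :=
        sub_rad' (by positivity) (by linarith [not_lt.1 hz1])
      refine ⟨-k + (0 + (2 * k / 2 + ε)), by linarith, ?_⟩
      rw [hf]
      exact h4.mul (h1.mul (h5.mul h2))
  · -- the boundary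
    have hzn : ‖z - r‖ = r := by
      have h1 : z ∈ sphere (r : ℂ) r := by
        rw [← closedBall_sdiff_ball]
        exact hz
      rw [mem_sphere, dist_eq_norm] at h1
      exact h1
    show v z * f z ≤ _
    have h1 : v z ≤ Real.exp (A + (H z).re) := by
      have hre : 0 ≤ z.re := de_re hr0 hzn.le
      rcases le_total s |z.im| with h3 | h3
      · refine (hle2 z hz.1 h3).trans (Real.exp_le_exp.2 ?_)
        rw [hHre]
        have h4 := de_bdy1 hr0 hs hzn
        have h5 : 0 ≤ ((s : ℂ) * z / (z + s)).re := by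
          rw [de_second hs hre]
          positivity
        have h6 : -(3 * |z.im|) ≤ (z * Complex.log (z + s)).re - Real.log (2 * r) * z.re + 6 * ((s : ℂ) * z / (z + s)).re := by linarith
        have h7 := mul_le_mul_of_nonneg_left h6 (by positivity : (0 : ℝ) ≤ c / 3)
        linarith
      · refine (hle z hz.1).trans (Real.exp_le_exp.2 ?_)
        rw [hHre]
        have h4 := mul_nonneg (by positivity : (0 : ℝ) ≤ c / 3) (de_bdy2 hs hsr hzn h3)
        linarith
    refine (mul_le_mul_of_nonneg_right h1 (hf0 z).le).trans ?_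
    rw [hfe, ← Real.exp_add, Real.exp_le_exp, hzn]
    have h3 : max (r - (r - 2)) 0 = 2 := by
      rw [sub_sub_cancel, max_eq_left (by norm_num)]
    rw [h3]
    have h4 : ε * ‖z‖ ^ 2 ≤ 4 := by
      have h5 : ‖z‖ ≤ 2 * r := by
        have h6 : ‖z‖ ≤ ‖z - r‖ + ‖(r : ℂ)‖ := by
          have := norm_add_le (z - r) (r : ℂ)
          rwa [sub_add_cancel] at this
        rw [hzn, Complex.norm_real, Real.norm_eq_abs, abs_of_pos hr0] at h6
        linarith
      have h6 : ‖z‖ ^ 2 ≤ (2 * r) ^ 2 := pow_le_pow_left₀ (norm_nonneg _) h5 2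
      rw [hε, one_div, inv_mul_le_iff₀ (by positivity)]
      linarith
    linarith
  · rw [mem_closedBall, dist_eq_norm]
    have h1 : (1 : ℂ) - r = ((1 - r : ℝ) : ℂ) := by push_cast; ring
    rw [h1, Complex.norm_real, Real.norm_eq_abs, abs_of_neg (by linarith)]
    linarith

end Pool.Agent.SR3

end
end

section

/-!
# SR3 LWnd: winding numbers

`wnd_scale`: change of variables.  `circle_fac`: `logDeriv f = g' + ∑ 1 / (z - b)`, Cauchy.
-/

set_option autoImplicit false

open Topology Filter Metric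

noncomputable section

namespace Pool.Agent.SR3

open Pool.Agent.H36.BP (EN fs wd Sub OrdTwo)
open Pool.Agent.H14.PP (IsCone Tan)
open Pool.Agent.SY (Ent)
open Pool.Agent.H62.EF (MN pr)
open Geo (Gd)

variable {N : ℕ} {G : Geo N}

private theorem logDeriv_affine (f : ℂ → ℂ) (ζ s w : ℂ) : logDeriv (fun u => f (ζ + s * u)) w = s * logDeriv f (ζ + s * w) := by
  rw [logDeriv_apply, logDeriv_apply, deriv_comp_mul_left s (fun u => f (ζ + u)) w, deriv_comp_const_add, smul_eq_mul, mul_div_assoc]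

private theorem circle_scale (h : ℂ → ℂ) (ζ : ℂ) (s : ℝ) : (∮ w in C(0, 1), (s : ℂ) * h (ζ + s * w)) = ∮ z in C(ζ, s), h z := by
  unfold circleIntegral
  refine intervalIntegral.integral_congr fun θ _ => ?_
  have e : circleMap ζ s θ = ζ + s * circleMap 0 1 θ := by simp [circleMap]
  simp only [deriv_circleMap, smul_eq_mul]
  rw [e, show circleMap 0 s θ = s * circleMap 0 1 θ by simp [circleMap]]
  ring

theorem wnd_scale {F : ℂ → EN N} (hF : Differentiable ℂ F) (y : EN N) (i : G.ι) (l : Fin (G.M + 1)) (ζ : ℂ) {s : ℝ} (hs : 0 < s) :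
    G.wnd (fun w => F (ζ + s * w)) y i l 1 =
      ∮ z in C(ζ, s), (logDeriv (fun w => (G.E i (F w)).ofLp l) z - G.c i * logDeriv (fun w => (inner ℂ y (F w) : ℂ)) z) := by
  unfold Geo.wnd
  refine Eq.trans ?_ (circle_scale (fun z => logDeriv (fun w => (G.E i (F w)).ofLp l) z - G.c i * logDeriv (fun w => (inner ℂ y (F w) : ℂ)) z) ζ s)
  congr 1
  funext w
  rw [logDeriv_affine (fun w => (G.E i (F w)).ofLp l) ζ s w, logDeriv_affine (fun w => (inner ℂ y (F w) : ℂ)) ζ s w]
  ring

theorem circle_fac {κ : Type} [Fintype κ] {ζ : κ → ℂ} {s : κ → ℝ} {f g : ℂ → ℂ} {n : κ → ℕ} {b : (k : κ) → Fin (n k) → ℂ} {z₀ : ℂ} {ρ : ℝ} (hs : ∀ k, 0 < s k)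
    (hg : DifferentiableOn ℂ g (ball z₀ ρ)) (hb : ∀ k j, b k j ∈ closedBall (ζ k) (s k / 2)) (hfg : ∀ z ∈ ball z₀ ρ, f z = Complex.exp (g z) * ∏ k, ∏ j, (z - b k j))
    (k : κ) (hk : ‖ζ k - z₀‖ + s k < ρ) (hsep : ∀ j, j ≠ k → s k + s j < ‖ζ j - ζ k‖) :
    (∮ z in C(ζ k, s k), logDeriv f z) = 2 * Real.pi * Complex.I * n k := by
  classical
  have hsub : closedBall (ζ k) (s k) ⊆ ball z₀ ρ := by
    intro z hz
    rw [mem_closedBall] at hz
    rw [mem_ball]
    have h1 := dist_triangle z (ζ k) z₀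
    rw [dist_eq_norm (ζ k) z₀] at h1
    linarith
  -- the zeros in the other holes are outside of the closed disc
  have hout : ∀ j, j ≠ k → ∀ m, ∀ z ∈ closedBall (ζ k) (s k), z - b j m ≠ 0 := by
    intro j hj m z hz h0
    rw [mem_closedBall] at hz
    have h1 := hb j m
    rw [mem_closedBall] at h1
    have h2 := hsep j hj
    rw [← dist_eq_norm] at h2
    have h3 := dist_triangle (ζ j) (b j m) (ζ k)
    rw [dist_comm (ζ j) (b j m), ← sub_eq_zero.1 h0] at h3
    have h4 := hs j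
    rw [← sub_eq_zero.1 h0] at h1
    linarith
  have hin : ∀ m, b k m ∈ ball (ζ k) (s k) := fun m => by
    have h1 := hb k m
    rw [mem_closedBall] at h1
    have h2 := hs k
    rw [mem_ball]
    linarith
  have hsph : ∀ z ∈ sphere (ζ k) (s k), ∀ j m, z - b j m ≠ 0 := by
    intro z hz j m
    by_cases hj : j = k
    · subst hj
      intro h0
      have h1 := hin m
      rw [← sub_eq_zero.1 h0, mem_ball] at h1
      rw [mem_sphere] at hz
      linarith
    · exact hout j hj m z (sphere_subset_closedBall hz)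
  have e1 : ∀ z ∈ sphere (ζ k) (s k), logDeriv f z = deriv g z + ∑ j, ∑ m, (z - b j m)⁻¹ := by
    intro z hz
    have hzb : z ∈ ball z₀ ρ := hsub (sphere_subset_closedBall hz)
    have hgz : DifferentiableAt ℂ g z := hg.differentiableAt (isOpen_ball.mem_nhds hzb)
    have hne := hsph z hz
    have hev : f =ᶠ[𝓝 z] fun w => Complex.exp (g w) * ∏ j, ∏ m, (w - b j m) := Filter.eventually_of_mem (isOpen_ball.mem_nhds hzb) hfg
    have h1 : logDeriv f z = logDeriv (fun w => Complex.exp (g w) * ∏ j, ∏ m, (w - b j m)) z := by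
      rw [logDeriv_apply, logDeriv_apply, hev.deriv_eq, hfg z hzb]
    rw [h1, logDeriv_mul (f := fun w => Complex.exp (g w)) (g := fun w => ∏ j, ∏ m, (w - b j m)) z (Complex.exp_ne_zero _)
      (Finset.prod_ne_zero_iff.2 fun j _ => Finset.prod_ne_zero_iff.2 fun m _ => hne j m) hgz.cexp (by fun_prop)]
    congr 1
    · rw [logDeriv_apply, deriv_cexp hgz, mul_div_cancel_left₀ _ (Complex.exp_ne_zero _)]
    · rw [logDeriv_prod (fun j _ => Finset.prod_ne_zero_iff.2 fun m _ => hne j m) (fun j _ => by fun_prop)]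
      refine Finset.sum_congr rfl fun j _ => ?_
      rw [logDeriv_prod (fun m _ => hne j m) (fun m _ => by fun_prop)]
      refine Finset.sum_congr rfl fun m _ => ?_
      rw [logDeriv_apply, deriv_sub_const, deriv_id'', one_div]
  rw [circleIntegral.integral_congr (hs k).le e1]
  have hdg : ContinuousOn (deriv g) (sphere (ζ k) (s k)) :=
    ((hg.deriv isOpen_ball).continuousOn).mono (sphere_subset_closedBall.trans hsub)
  have hcont : ∀ j m, ContinuousOn (fun z => (z - b j m)⁻¹) (sphere (ζ k) (s k)) := fun j m =>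
    (continuousOn_id.sub continuousOn_const).inv₀ fun z hz => hsph z hz j m
  have hci : ∀ j m, CircleIntegrable (fun z => (z - b j m)⁻¹) (ζ k) (s k) := fun j m => (hcont j m).circleIntegrable (hs k).le
  rw [circleIntegral.integral_add (hdg.circleIntegrable (hs k).le)
    ((continuousOn_finsetSum _ fun j _ => continuousOn_finsetSum _ fun m _ => hcont j m).circleIntegrable (hs k).le)]
  have hz1 : (∮ z in C(ζ k, s k), deriv g z) = 0 := circleIntegral.integral_eq_zero_of_hasDerivWithinAt (hs k).le fun z hz =>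
    (hg.differentiableAt (isOpen_ball.mem_nhds (hsub (sphere_subset_closedBall hz)))).hasDerivAt.hasDerivWithinAt
  have hz2 : ∀ j, (∮ z in C(ζ k, s k), ∑ m, (z - b j m)⁻¹) = ∑ m, ∮ z in C(ζ k, s k), (z - b j m)⁻¹ := fun j =>
    circleIntegral.integral_fun_sum fun m _ => hci j m
  have hz3 : (∮ z in C(ζ k, s k), ∑ j, ∑ m, (z - b j m)⁻¹) = ∑ j, ∑ m, ∮ z in C(ζ k, s k), (z - b j m)⁻¹ := by
    rw [circleIntegral.integral_fun_sum fun j _ => (continuousOn_finsetSum _ fun m _ => hcont j m).circleIntegrable (hs k).le]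
    exact Finset.sum_congr rfl fun j _ => hz2 j
  rw [hz1, hz3, zero_add, Finset.sum_eq_single k]
  · rw [Finset.sum_congr rfl fun m _ => circleIntegral.integral_sub_inv_of_mem_ball (hin m), Finset.sum_const, Finset.card_univ, Fintype.card_fin, nsmul_eq_mul]
    ring
  · intro j _ hj
    refine Finset.sum_eq_zero fun m _ => ?_
    refine Complex.circleIntegral_eq_zero_of_differentiable_on_off_countable (hs k).le Set.countable_empty
      ((continuousOn_id.sub continuousOn_const).inv₀ fun z hz => hout j hj m z hz) fun z hz => ?_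
    exact (differentiableAt_id.sub_const _).inv (hout j hj m z (ball_subset_closedBall hz.1))
  · intro h
    exact absurd (Finset.mem_univ k) h

end Pool.Agent.SR3

end
end

section

/-!
# SR3 LinL: limits at exponentially small scales, and affine lines

`line_limit`: three circles between the radius `r` and half the distance to the good points, with `growth`, as in `gap_one`; `gap_montel`.
`line_low`: a line is not contained in a small neighbourhood of the ends (Liouville).  `line_end`: lines are polynomial curves with an end in `Y`.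
-/

set_option autoImplicit false

open Topology Filter Metric

noncomputable section

namespace Pool.Agent.SR3

open Pool.Agent.H36.BP (EN fs wd Sub OrdTwo)
open Pool.Agent.H14.PP (IsCone Tan)
open Pool.Agent.SY (Ent)
open Pool.Agent.SDA (EnergyK Near AffOpen Nm nForms)
open Pool.Agent.H62.EF (MN pr)
open Pool.Agent.G3 (LLift)
open Geo (Gd)

variable {N : ℕ} {G : Geo N} {T : Set (EN N)} {rho : EN N → ℝ} {M : ℕ} {c₀ C δ : ℝ} {g : (ℂ → EN N) → ℂ → ℝ}

/-- a line is polynomial -/
private theorem line_poly {φ : ℂ → EN N} (hφ : G.Line φ) : ∃ P : Fin (N + 1) → Polynomial ℂ, ∀ z l, (φ z).ofLp l = (P l).eval z := by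
  obtain ⟨A, k, hg⟩ := hφ.pol
  have key : ∀ l : Fin (N + 1), ∃ p : Polynomial ℂ, ∀ z, (φ z).ofLp l = p.eval z := fun l =>
    Pool.Agent.SY.exists_poly_of_growth k (fun z => (φ z).ofLp l) A ((EuclideanSpace.proj (𝕜 := ℂ) l).differentiable.comp hφ.diff)
      fun z => (PiLp.norm_apply_le (φ z) l).trans (hg z)
  choose p hp using key
  exact ⟨p, fun z l => hp l z⟩

theorem line_end (hG : G.Ok) {Y : Finset (EN N)} (hY : G.Ends Y) {φ : ℂ → EN N} (hφ : G.Line φ) :
    (∃ P : Fin (N + 1) → Polynomial ℂ, ∀ z l, (φ z).ofLp l = (P l).eval z) ∧ Tendsto (fun w => ‖φ w‖) (cocompact ℂ) atTop ∧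
      ∃ y ∈ Y, Tendsto (fun w => pr (φ w)) (cocompact ℂ) (𝓝 (pr y)) := by
  obtain ⟨P, hP⟩ := line_poly hφ
  have hφ0 : ∀ z, φ z ≠ 0 := fun z => ne0 hG (hφ.mem z)
  -- the coordinate of largest degree
  obtain ⟨l₀, -, hl₀⟩ := Finset.exists_max_image (Finset.univ : Finset (Fin (N + 1))) (fun l => (P l).natDegree) Finset.univ_nonempty
  obtain ⟨k, hk⟩ : ∃ k : ℕ, k = (P l₀).natDegree := ⟨_, rfl⟩
  have hkl : ∀ l, (P l).natDegree ≤ k := fun l => hk ▸ hl₀ l (Finset.mem_univ l)
  have hk1 : 1 ≤ k := by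
    by_contra hk0
    have hk0' : k = 0 := by omega
    obtain ⟨z, w, hzw⟩ := hφ.ne
    refine hzw ?_
    ext l
    have h1 : (P l).natDegree = 0 := Nat.le_zero.1 (hk0' ▸ hkl l)
    rw [hP z l, hP w l, Polynomial.eq_C_of_natDegree_eq_zero h1, Polynomial.eval_C, Polynomial.eval_C]
  have hnorm : Tendsto (fun w => ‖φ w‖) (cocompact ℂ) atTop := by
    have h1 : Tendsto (fun w : ℂ => ‖(P l₀).eval w‖) (cocompact ℂ) atTop :=
      Polynomial.tendsto_norm_atTop (P l₀) (Polynomial.natDegree_pos_iff_degree_pos.1 (by omega)) (tendsto_norm_cocompact_atTop)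
    refine tendsto_atTop_mono (fun w => ?_) h1
    rw [← hP w l₀]
    exact PiLp.norm_apply_le (φ w) l₀
  -- the leading vector
  set v : ℂ → EN N := fun ζ => WithLp.toLp 2 fun l => (Polynomial.reflect k (P l)).eval ζ with hv
  have hvc : Continuous v := (PiLp.continuous_toLp 2 _).comp (continuous_pi fun l => (Polynomial.reflect k (P l)).continuous)
  have hv0 : v 0 ≠ 0 := by
    intro h
    have h1 : (v 0).ofLp l₀ = 0 := by
      rw [h]
      rfl
    have h2 : (v 0).ofLp l₀ = (P l₀).leadingCoeff := by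
      show (Polynomial.reflect k (P l₀)).eval 0 = _
      rw [← Polynomial.coeff_zero_eq_eval_zero, Polynomial.coeff_reflect, Polynomial.revAt_le (Nat.zero_le _), Nat.sub_zero, hk]
      rfl
    rw [h1] at h2
    have h3 : P l₀ = 0 := Polynomial.leadingCoeff_eq_zero.1 h2.symm
    rw [h3, Polynomial.natDegree_zero] at hk
    omega
  have hvw : ∀ w : ℂ, w ≠ 0 → pr (φ w) = pr (v w⁻¹) := by
    intro w hw
    have h1 : φ w = (w ^ k) • v w⁻¹ := by
      ext l
      rw [hP w l, PiLp.smul_apply, smul_eq_mul]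
      show (P l).eval w = w ^ k * (Polynomial.reflect k (P l)).eval w⁻¹
      have : Invertible w := invertibleOfNonzero hw
      have h2 := Polynomial.eval₂_reflect_mul_pow (RingHom.id ℂ) w k (P l) (hkl l)
      rw [invOf_eq_inv] at h2
      rw [Polynomial.eval, Polynomial.eval, ← h2, mul_comm]
    rw [h1, Pool.Agent.H62.EF.pr_smul _ (pow_ne_zero k hw)]
  have hlim : Tendsto (fun w => pr (φ w)) (cocompact ℂ) (𝓝 (pr (v 0))) := by
    have h1 : Tendsto (fun w : ℂ => w⁻¹) (cocompact ℂ) (𝓝 0) := by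
      rw [← Metric.cobounded_eq_cocompact]
      exact tendsto_inv₀_cobounded
    have h2 : Tendsto (fun w : ℂ => pr (v w⁻¹)) (cocompact ℂ) (𝓝 (pr (v 0))) :=
      Tendsto.comp (g := pr) (Pool.Agent.H62.EF.continuousAt_pr hv0) ((hvc.tendsto 0).comp h1)
    refine h2.congr' ?_
    have h3 : ∀ᶠ w : ℂ in cocompact ℂ, w ≠ 0 := by
      filter_upwards [(tendsto_norm_cocompact_atTop).eventually_gt_atTop 0] with w hw
      exact norm_pos_iff.1 hw
    filter_upwards [h3] with w hw
    exact (hvw w hw).symm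
  have hmem : pr (v 0) ∈ closure (pr '' (Y : Set (EN N))) := by
    rw [Metric.mem_closure_iff]
    intro ε hε
    obtain ⟨B, hB⟩ := hY.near (ε / 2) (by positivity)
    have h1 : ∀ᶠ w in cocompact ℂ, Real.exp B ≤ ‖φ w‖ := hnorm.eventually_ge_atTop _
    have h2 : ∀ᶠ w in cocompact ℂ, dist (pr (φ w)) (pr (v 0)) < ε / 2 := Metric.tendsto_nhds.1 hlim _ (by positivity)
    obtain ⟨w, hw1, hw2⟩ := (h1.and h2).exists
    rw [← Real.le_log_iff_exp_le (norm_pos_iff.2 (hφ0 w))] at hw1
    obtain ⟨y, hy, hyd⟩ := hB φ hφ w hw1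
    refine ⟨pr y, ⟨y, hy, rfl⟩, ?_⟩
    have h3 := dist_triangle_left (pr (v 0)) (pr y) (pr (φ w))
    linarith
  rw [(Y.finite_toSet.image pr).isClosed.closure_eq] at hmem
  obtain ⟨y, hy, hyv⟩ := hmem
  exact ⟨⟨P, hP⟩, hnorm, y, hy, hyv ▸ hlim⟩

end Pool.Agent.SR3

end
end

section

/-!
# SR3 PreA: exit radii and Hofer's lemma
-/

set_option autoImplicit false

open Topology Filter Metric

noncomputable section

namespace Pool.Agent.SR3

open Pool.Agent.H36.BP (EN fs wd Sub OrdTwo)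
open Pool.Agent.H14.PP (IsCone Tan)
open Pool.Agent.SY (Ent)
open Pool.Agent.SDA (EnergyK Near AffOpen Nm nForms)
open Pool.Agent.H62.EF (MN pr)
open Pool.Agent.G3 (LLift)
open Geo (Gd)

namespace PreA

variable {𝕄 : Type} [MetricSpace 𝕄]

/-- the exit set of the hole `a` -/
def Ex (f : ℂ → 𝕄) (t : Finset ℂ) (s : ℂ → ℝ) (c : ℂ → 𝕄) (ε₂ D : ℝ) (a : ℂ) : Set ℂ :=
  {z | Off t s z ∧ ε₂ ≤ dist (f z) (c a)} ∪ {z | D ≤ ‖z - a‖}

/-- the exit radius -/
def rad (f : ℂ → 𝕄) (t : Finset ℂ) (s : ℂ → ℝ) (c : ℂ → 𝕄) (ε₂ D : ℝ) (a : ℂ) : ℝ := infDist a (Ex f t s c ε₂ D a)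

theorem off_closed (t : Finset ℂ) (s : ℂ → ℝ) : IsClosed {z | Off t s z} := by
  have h : {z | Off t s z} = ⋂ a ∈ t, {z | s a ≤ ‖z - a‖} := by
    ext z
    simp [Off]
  rw [h]
  exact isClosed_biInter fun a _ => isClosed_le continuous_const (by fun_prop)

variable {f : ℂ → 𝕄} {t : Finset ℂ} {s : ℂ → ℝ} {c : ℂ → 𝕄} {ε₂ D : ℝ}

theorem ex_closed (hf : Continuous f) (a : ℂ) : IsClosed (Ex f t s c ε₂ D a) := by
  refine IsClosed.union ?_ (isClosed_le continuous_const (by fun_prop))
  exact (off_closed t s).inter (isClosed_le continuous_const (hf.dist continuous_const))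

theorem ex_nonempty (hD : 0 < D) (a : ℂ) : (Ex f t s c ε₂ D a).Nonempty := by
  refine ⟨a + D, Or.inr ?_⟩
  show D ≤ ‖a + (D : ℂ) - a‖
  rw [add_sub_cancel_left, Complex.norm_real, Real.norm_of_nonneg hD.le]

theorem rad_pos (hD : 0 < D) {a : ℂ} (ha : a ∈ t) (hs : 0 < s a) : 0 < rad f t s c ε₂ D a := by
  refine lt_of_lt_of_le (lt_min hs hD) ((le_infDist (ex_nonempty hD a)).2 ?_)
  intro z hz
  rw [dist_comm, dist_eq_norm]
  rcases hz with hz | hz
  · exact le_trans (min_le_left _ _) (hz.1 a ha)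
  · exact le_trans (min_le_right _ _) hz

theorem rad_stay {a z : ℂ} (h : ‖z - a‖ < rad f t s c ε₂ D a) (hz : Off t s z) : dist (f z) (c a) < ε₂ := by
  by_contra hc
  have h1 : z ∈ Ex f t s c ε₂ D a := Or.inl ⟨hz, not_lt.1 hc⟩
  have h2 := infDist_le_dist_of_mem (x := a) h1
  rw [dist_comm, dist_eq_norm] at h2
  exact absurd h (not_lt.2 h2)

theorem rad_le {a z : ℂ} (hz : Off t s z) (h : ε₂ ≤ dist (f z) (c a)) : rad f t s c ε₂ D a ≤ ‖z - a‖ := by
  have h1 : z ∈ Ex f t s c ε₂ D a := Or.inl ⟨hz, h⟩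
  have h2 := infDist_le_dist_of_mem (x := a) h1
  rw [dist_comm, dist_eq_norm] at h2
  exact h2

theorem rad_exit (hf : Continuous f) (hD : 0 < D) {K ε ε₁ : ℝ} (hK : 20 ≤ K) (hεε : ε < ε₂) (hε₁ : ε + ε₂ ≤ 2 * ε₁)
    (hs : ∀ b ∈ t, 0 < s b) (hsep : ∀ b ∈ t, ∀ b' ∈ t, b ≠ b' → K * max (s b) (s b') < ‖b - b'‖)
    (hrim : ∀ b ∈ t, ∀ z, s b / 2 ≤ ‖z - b‖ → ‖z - b‖ ≤ K * s b → dist (f z) (c b) < ε)
    (hc : ∀ b ∈ t, ∀ b' ∈ t, dist (c b) (c b') < 2 * ε₁ → c b = c b') {a : ℂ} (ha : a ∈ t) (hr : rad f t s c ε₂ D a < D) :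
    ∃ z, ‖z - a‖ = rad f t s c ε₂ D a ∧ Off t s z ∧ dist (f z) (c a) = ε₂ := by
  obtain ⟨z, hz, hzd⟩ := (ex_closed (f := f) (t := t) (s := s) (c := c) (ε₂ := ε₂) (D := D) hf a).exists_infDist_eq_dist (ex_nonempty hD a) a
  have hza : ‖z - a‖ = rad f t s c ε₂ D a := by
    rw [← dist_eq_norm, dist_comm]
    exact hzd.symm
  rcases hz with hz | hz
  swap
  · exact absurd (le_trans hz hza.le) (not_le.2 hr)
  have hr0 : 0 < rad f t s c ε₂ D a := rad_pos hD ha (hs a ha)
  refine ⟨z, hza, hz.1, le_antisymm ?_ hz.2⟩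
  -- `z` is not on a rim
  have hst : ∀ b ∈ t, s b < ‖z - b‖ := by
    intro b hb
    refine lt_of_le_of_ne (hz.1 b hb) fun he => ?_
    have hsb := hs b hb
    have hzb : dist (f z) (c b) < ε := hrim b hb z (by rw [← he]; linarith) (by rw [← he]; exact le_mul_of_one_le_left hsb.le (by linarith))
    by_cases hba : b = a
    · rw [hba] at hzb
      linarith [hz.2]
    · have h1 := hsep b hb a ha hba
      have h2 : s b ≤ max (s b) (s a) := le_max_left _ _
      have hL : 20 * s b < ‖b - a‖ := lt_of_le_of_lt (mul_le_mul hK h2 hsb.le (by linarith)) h1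
      have hL0 : 0 < ‖b - a‖ := by linarith
      obtain ⟨p, hp⟩ : ∃ p : ℂ, p = b + ((2 * s b / ‖b - a‖ : ℝ) : ℂ) * (a - b) := ⟨_, rfl⟩
      have hpb : ‖p - b‖ = 2 * s b := by
        rw [hp, add_sub_cancel_left, norm_mul, Complex.norm_real, Real.norm_of_nonneg (by positivity), norm_sub_rev a b]
        field_simp
      have hpa : ‖p - a‖ = ‖b - a‖ - 2 * s b := by
        have h3 : p - a = ((1 - 2 * s b / ‖b - a‖ : ℝ) : ℂ) * (b - a) := by
          rw [hp]
          push_cast
          ring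
        have h4 : 0 ≤ 1 - 2 * s b / ‖b - a‖ := by
          rw [sub_nonneg, div_le_one hL0]
          linarith
        rw [h3, norm_mul, Complex.norm_real, Real.norm_of_nonneg h4]
        field_simp
      have hlt : ‖p - a‖ < rad f t s c ε₂ D a := by
        have h5 : ‖b - a‖ ≤ ‖z - b‖ + ‖z - a‖ := by
          have h6 := norm_sub_le_norm_sub_add_norm_sub b z a
          rw [norm_sub_rev b z] at h6
          exact h6
        rw [← hza, hpa]
        linarith
      have hpo : Off t s p := by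
        intro k hk
        by_cases hkb : k = b
        · rw [hkb, hpb]
          linarith
        · have h7 := hsep b hb k hk (Ne.symm hkb)
          have h8 : s b ≤ max (s b) (s k) := le_max_left _ _
          have h9 : s k ≤ max (s b) (s k) := le_max_right _ _
          have h10 : ‖b - k‖ ≤ ‖p - b‖ + ‖p - k‖ := by
            have h6 := norm_sub_le_norm_sub_add_norm_sub b p k
            rw [norm_sub_rev b p] at h6
            exact h6
          have h12 : 20 * max (s b) (s k) ≤ K * max (s b) (s k) := mul_le_mul_of_nonneg_right hK (hsb.le.trans h8)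
          linarith
      have h11 : dist (f p) (c a) < ε₂ := rad_stay hlt hpo
      have h12 : dist (f p) (c b) < ε := hrim b hb p (by rw [hpb]; linarith) (by rw [hpb]; exact mul_le_mul_of_nonneg_right (by linarith) hsb.le)
      have h13 : dist (c b) (c a) < 2 * ε₁ := by
        have h14 := dist_triangle_left (c b) (c a) (f p)
        linarith
      rw [hc b hb a ha h13] at hzb
      linarith [hz.2]
  -- `z` is a limit of points inside
  have hlim : Tendsto (fun τ : ℝ => z + (τ : ℂ) * (a - z)) (𝓝[>] 0) (𝓝 z) := by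
    have h1 : Tendsto (fun τ : ℝ => z + (τ : ℂ) * (a - z)) (𝓝 0) (𝓝 (z + ((0 : ℝ) : ℂ) * (a - z))) := by
      have h2 : Continuous fun τ : ℝ => z + (τ : ℂ) * (a - z) := by fun_prop
      exact h2.tendsto 0
    rw [Complex.ofReal_zero, zero_mul, add_zero] at h1
    exact h1.mono_left nhdsWithin_le_nhds
  have hev : ∀ᶠ τ : ℝ in 𝓝[>] (0 : ℝ), dist (f (z + (τ : ℂ) * (a - z))) (c a) ≤ ε₂ := by
    have h1 : ∀ᶠ τ : ℝ in 𝓝[>] (0 : ℝ), ∀ b ∈ t, s b < ‖z + (τ : ℂ) * (a - z) - b‖ := by
      refine (Filter.eventually_all_finset t).2 fun b hb => ?_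
      exact ((hlim.sub_const b).norm).eventually (lt_mem_nhds (hst b hb))
    have h2 : ∀ᶠ τ : ℝ in 𝓝[>] (0 : ℝ), τ ∈ Set.Ioo (0 : ℝ) 1 := Ioo_mem_nhdsGT zero_lt_one
    filter_upwards [h1, h2] with τ hτ hτ2
    refine (rad_stay (D := D) ?_ fun b hb => (hτ b hb).le).le
    have h3 : z + (τ : ℂ) * (a - z) - a = ((1 - τ : ℝ) : ℂ) * (z - a) := by
      push_cast
      ring
    rw [h3, norm_mul, Complex.norm_real, Real.norm_of_nonneg (by linarith [hτ2.2]), hza]
    exact mul_lt_of_lt_one_left hr0 (by linarith [hτ2.1])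
  exact le_of_tendsto (((hf.tendsto z).comp hlim).dist tendsto_const_nhds) hev

end PreA

variable {N : ℕ} {G : Geo N} {T : Set (EN N)} {rho : EN N → ℝ} {M : ℕ} {c₀ C δ : ℝ} {g : (ℂ → EN N) → ℂ → ℝ}

/-- the ends are separated -/
theorem PreA.sepY {Y : Finset (EN N)} (hY : G.Ends Y) : ∃ ε₁ : ℝ, 0 < ε₁ ∧ ∀ y ∈ Y, ∀ y' ∈ Y, dist (pr y) (pr y') < 2 * ε₁ → y = y' := by
  classical
  have h : ∀ P : Finset (EN N × EN N), (∀ p ∈ P, p.1 ∈ Y ∧ p.2 ∈ Y) → ∃ ε₁ : ℝ, 0 < ε₁ ∧ ∀ p ∈ P, dist (pr p.1) (pr p.2) < 2 * ε₁ → p.1 = p.2 := by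
    intro P
    induction P using Finset.induction_on with
    | empty => exact fun _ => ⟨1, one_pos, by simp⟩
    | insert p P hp ih =>
      intro hP
      obtain ⟨e, he, h1⟩ := ih fun p' hp' => hP p' (Finset.mem_insert_of_mem hp')
      by_cases h2 : p.1 = p.2
      · refine ⟨e, he, fun p' hp' h3 => ?_⟩
        rcases Finset.mem_insert.1 hp' with h4 | h4
        · rw [h4]
          exact h2
        · exact h1 p' h4 h3
      · have h3 : 0 < dist (pr p.1) (pr p.2) := by
          rw [dist_pos]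
          intro h4
          exact h2 (hY.inj _ (hP p (Finset.mem_insert_self _ _)).1 _ (hP p (Finset.mem_insert_self _ _)).2 h4)
        refine ⟨min e (dist (pr p.1) (pr p.2) / 2), lt_min he (by linarith), fun p' hp' h5 => ?_⟩
        rcases Finset.mem_insert.1 hp' with h4 | h4
        · rw [h4] at h5
          have h6 := min_le_right e (dist (pr p.1) (pr p.2) / 2)
          linarith
        · have h6 := min_le_left e (dist (pr p.1) (pr p.2) / 2)
          exact h1 p' h4 (by linarith)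
  obtain ⟨e, he, h1⟩ := h (Y ×ˢ Y) fun p hp => Finset.mem_product.1 hp
  exact ⟨e, he, fun y hy y' hy' h2 => h1 (y, y') (Finset.mem_product.2 ⟨hy, hy'⟩) h2⟩

end Pool.Agent.SR3

end
end

section

/-!
# SR3 PreB: the holes are relatively small
-/

set_option autoImplicit false

open Topology Filter Metric

noncomputable section

namespace Pool.Agent.SR3

open Pool.Agent.H36.BP (EN fs wd Sub OrdTwo)
open Pool.Agent.H14.PP (IsCone Tan)
open Pool.Agent.SY (Ent)
open Pool.Agent.SDA (EnergyK Near AffOpen Nm nForms)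
open Pool.Agent.H62.EF (MN pr)
open Geo (Gd)

variable {N : ℕ} {G : Geo N} {T : Set (EN N)} {rho : EN N → ℝ} {M : ℕ} {c₀ C δ : ℝ} {g : (ℂ → EN N) → ℂ → ℝ}

/-- the points of `Y` are separated -/
theorem PreB_sep {Y : Finset (EN N)} (hY : G.Ends Y) : ∃ ε₁ : ℝ, 0 < ε₁ ∧ ∀ y ∈ Y, ∀ y' ∈ Y, dist (pr y) (pr y') < 2 * ε₁ → y = y' := by
  have h1 : ∀ᶠ ε in 𝓝[>] (0 : ℝ), ∀ p ∈ Y ×ˢ Y, dist (pr p.1) (pr p.2) < 2 * ε → p.1 = p.2 := by
    refine (Finset.eventually_all _).2 fun p hp => ?_
    obtain ⟨hp1, hp2⟩ := Finset.mem_product.1 hp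
    by_cases h : p.1 = p.2
    · exact Eventually.of_forall fun _ _ => h
    · have h2 : 0 < dist (pr p.1) (pr p.2) := dist_pos.2 fun h3 => h (hY.inj _ hp1 _ hp2 h3)
      have h3 : ∀ᶠ ε in 𝓝[>] (0 : ℝ), ε < dist (pr p.1) (pr p.2) / 2 :=
        mem_nhdsWithin_of_mem_nhds (Iio_mem_nhds (by linarith))
      filter_upwards [h3] with ε hε h4
      linarith
  obtain ⟨ε, hε, hε0⟩ := (h1.and self_mem_nhdsWithin).exists
  exact ⟨ε, hε0, fun y hy y' hy' h => hε (y, y') (Finset.mk_mem_product hy hy') h⟩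

theorem PreB_B5 {Y : Finset (EN N)} {B₃ B₄ ε K ε₂ η B₅ : ℝ} {q F t s y a ρ d A}
    (h : G.Pre T rho δ Y B₃ B₄ ε K ε₂ η B₅ q F t s y a ρ d A) : 0 ≤ B₅ := by
  obtain ⟨h1, h2, h3, h4⟩ := h.dA 1
  have hd : 0 < d 1 := lt_of_lt_of_le (by norm_num) h2
  have h5 := h.cnt 1 (d 1 / 2) (by linarith) (by linarith)
  have h6 : d 1 / (d 1 / 2) = 2 := by field_simp
  rw [h6] at h5
  have h8 : 0 < Real.log 2 := Real.log_pos (by norm_num)
  exact nonneg_of_mul_nonneg_left (le_trans (by positivity) h5) hd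

/-- the number of holes in a disc around `a n`, and the size of the exponentials -/
theorem PreB_card {Y : Finset (EN N)} {B₃ B₄ ε K ε₂ η B₅ : ℝ} {q F t s y a ρ d A}
    (h : G.Pre T rho δ Y B₃ B₄ ε K ε₂ η B₅ q F t s y a ρ d A) (n : ℕ) {r L : ℝ} (hr : 0 < r) (hL : 0 < L)
    (hrL : r * Real.exp L ≤ d n) : ((((t n).erase (a n)).filter (fun b => ‖b - a n‖ ≤ r)).card : ℝ) ≤ B₅ * d n / L := by
  have h1 : r < d n := lt_of_lt_of_le (by nlinarith [Real.add_one_lt_exp hL.ne']) hrL
  have h2 := h.cnt n r hr h1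
  have hd : 0 < d n := hr.trans h1
  have h3 : L ≤ Real.log (d n / r) := by
    rw [Real.le_log_iff_exp_le (by positivity), le_div_iff₀ hr]
    linarith
  rw [le_div_iff₀ hL]
  exact (mul_le_mul_of_nonneg_left h3 (Nat.cast_nonneg _)).trans h2

theorem PreB_exp {c x : ℝ} (hc : 0 < c) (hx : 0 < x) : x * Real.exp (-(c * x)) ≤ 2 / (c ^ 2 * x) := by
  have h1 := Real.quadratic_le_exp_of_nonneg (x := c * x) (by positivity)
  have h2 : 0 < c * x := by positivity
  have h3 : (c * x) ^ 2 / 2 ≤ Real.exp (c * x) := by linarith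
  rw [Real.exp_neg, ← div_eq_mul_inv, div_le_div_iff₀ (Real.exp_pos _) (by positivity)]
  calc x * (c ^ 2 * x) = 2 * ((c * x) ^ 2 / 2) := by ring
    _ ≤ 2 * Real.exp (c * x) := by linarith

end Pool.Agent.SR3

end
end
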