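import Pool.Agent.H43.TL2.M143
import Pool.Agent.H43.TL2.M147
import Pool.Agent.H43.TL2.M40

/-! The parts of this file: SR3.AGrd, SR3.ALpr. -/

section

/-!
# SR3 AGrd: the derivatives of `lam i` along a curve
-/

set_option autoImplicit false

open Topology Filter Metric

noncomputable section

namespace Pool.Agent.SR3

open Pool.Agent.H36.BP (EN fs wd Sub OrdTwo)
open Pool.Agent.H14.PP (IsCone Tan)
open Pool.Agent.SY (Ent)
open Pool.Agent.SDA (EnergyK Near AffOpen Nm nForms)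
open Geo (Gd)

variable {N : ℕ} {G : Geo N} {T : Set (EN N)} {rho : EN N → ℝ} {M : ℕ} {c₀ C δ : ℝ} {g : (ℂ → EN N) → ℂ → ℝ}

private theorem inner_re {K : ℕ} (x y : EN K) : inner ℝ x y = (inner ℂ x y).re := by
  rw [PiLp.inner_apply, PiLp.inner_apply, Complex.re_sum]
  refine Finset.sum_congr rfl fun i _ => ?_
  rw [Complex.inner, RCLike.inner_apply, mul_comm]

/-- the derivative of `log ‖V‖` -/
theorem grad_log_norm {K : ℕ} {V : ℂ → EN K} {v : EN K} {z : ℂ} (hV : HasDerivAt V v z) (h0 : V z ≠ 0) :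
    HasFDerivAt (fun w => Real.log ‖V w‖) (reL (inner ℂ (V z) v / (‖V z‖ : ℂ) ^ 2)) z := by
  have hn : ‖V z‖ ≠ 0 := norm_ne_zero_iff.2 h0
  have h1 : HasFDerivAt V ((ContinuousLinearMap.toSpanSingleton ℂ v).restrictScalars ℝ) z := hV.hasFDerivAt.restrictScalars ℝ
  have h2 := h1.norm_sq
  have h3 := (h2.log (pow_ne_zero 2 hn)).const_mul (1 / 2 : ℝ)
  have h4 : HasFDerivAt (fun w => Real.log ‖V w‖) _ z := h3.congr_of_eventuallyEq (Eventually.of_forall fun w => by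
    show Real.log ‖V w‖ = 1 / 2 * Real.log (‖V w‖ ^ 2)
    rw [Real.log_pow]
    push_cast
    ring)
  refine h4.congr_fderiv ?_
  refine ContinuousLinearMap.ext fun w => ?_
  have h5 : (innerSL ℝ (V z)) (w • v) = (w * inner ℂ (V z) v).re := by
    rw [innerSL_apply_apply, inner_re, inner_smul_right]
  rw [reL_apply]
  show (1 / 2 : ℝ) * ((‖V z‖ ^ 2)⁻¹ * (2 • (innerSL ℝ (V z)) (w • v))) = _
  rw [h5]
  have h6 : inner ℂ (V z) v / (‖V z‖ : ℂ) ^ 2 * w = ((‖V z‖ ^ 2)⁻¹ : ℝ) * (w * inner ℂ (V z) v) := by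
    push_cast
    ring
  rw [h6, Complex.re_ofReal_mul, nsmul_eq_mul]
  push_cast
  ring

theorem lam_grad (hG : G.Ok) (i : G.ι) {F : ℂ → EN N} {z : ℂ} (hF : AnalyticAt ℂ F z) (hz : F z ∈ G.K) :
    HasFDerivAt (fun w => G.lam i (F w)) (reL (-G.ell i (F z) (deriv F z))) z := by
  have h1 := grad_log_norm hF.differentiableAt.hasDerivAt (ne0 hG hz)
  have h2 : HasDerivAt (fun w => G.E i (F w)) (fderiv ℂ (G.E i) (F z) (deriv F z)) z :=
    (hG.anE i (F z)).differentiableAt.hasFDerivAt.comp_hasDerivAt z hF.differentiableAt.hasDerivAt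
  have h3 := grad_log_norm h2 (hG.neE i _ hz)
  have h4 := (h1.const_mul (G.c i : ℝ)).sub h3
  refine h4.congr_fderiv ?_
  refine ContinuousLinearMap.ext fun w => ?_
  show (G.c i : ℝ) * (reL (inner ℂ (F z) (deriv F z) / (‖F z‖ : ℂ) ^ 2)) w -
    (reL (inner ℂ (G.E i (F z)) (fderiv ℂ (G.E i) (F z) (deriv F z)) / (‖G.E i (F z)‖ : ℂ) ^ 2)) w = _
  rw [reL_apply, reL_apply, reL_apply, ← Complex.re_ofReal_mul, ← Complex.sub_re]
  congr 1
  unfold Geo.ell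
  push_cast
  ring

/-- `|Lap lam| ≤ C fs ^ 2`; `s` may be negative -/
theorem lam_sub (hG : G.Ok) : ∃ B : ℝ, 0 ≤ B ∧ ∀ (i : G.ι) (s : ℝ) (F : ℂ → EN N) (z : ℂ), AnalyticAt ℂ F z → (∀ᶠ w in 𝓝 z, F w ∈ G.K) →
    Sub (fun w => Real.exp (s * G.lam i (F w))) z (-(|s| * B * fs (F z) (deriv F z) ^ 2)) := by
  obtain ⟨C, hC, hfs⟩ := hG.fsE
  refine ⟨∑ i, (G.c i : ℝ) + C ^ 2, by positivity, fun i s F z hF hK => ?_⟩
  have hz := hK.self_of_nhds
  have h0 := ne0 hG hz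
  have hE : AnalyticAt ℂ (fun w => G.E i (F w)) z := (hG.anE i (F z)).comp hF
  have hEd : deriv (fun w => G.E i (F w)) z = fderiv ℂ (G.E i) (F z) (deriv F z) :=
    ((hG.anE i (F z)).differentiableAt.hasFDerivAt.comp_hasDerivAt z hF.differentiableAt.hasDerivAt).deriv
  have h1 := Sub.norm_rpow hF h0 (s * G.c i)
  have h2 := Sub.norm_rpow hE (hG.neE i _ hz) (-s)
  have h3 := h1.mul h2
  have hT := tan_at hG hF hK
  have h4 := hfs i (F z) hz (deriv F z) hT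
  rw [hEd] at h3
  set f : ℝ := fs (F z) (deriv F z) with hf
  set e : ℝ := fs (G.E i (F z)) (fderiv ℂ (G.E i) (F z) (deriv F z)) with he
  have hf0 : 0 ≤ f := Pool.Agent.H36.BP.fs_nonneg _ _
  have he0 : 0 ≤ e := Pool.Agent.H36.BP.fs_nonneg _ _
  have hc : (G.c i : ℝ) ≤ ∑ i, (G.c i : ℝ) := Finset.single_le_sum (f := fun i => (G.c i : ℝ)) (fun _ _ => Nat.cast_nonneg _) (Finset.mem_univ i)
  have h5 : -(|s| * (∑ i, (G.c i : ℝ) + C ^ 2) * f ^ 2) ≤ s * G.c i * f ^ 2 / 2 + -s * e ^ 2 / 2 := by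
    have h6 : e ^ 2 ≤ C ^ 2 * f ^ 2 := by
      rw [← mul_pow]
      exact pow_le_pow_left₀ he0 h4 2
    have h7 : -(|s| * ((G.c i : ℝ) * f ^ 2)) ≤ s * ((G.c i : ℝ) * f ^ 2) := by
      have h8 : -(|s|) ≤ s := neg_abs_le s
      have h9 : 0 ≤ (G.c i : ℝ) * f ^ 2 := by positivity
      have k1 := mul_le_mul_of_nonneg_right h8 h9
      linarith only [k1]
    have h8 : -(|s| * e ^ 2) ≤ -s * e ^ 2 := by
      have h9 : -(|s|) ≤ -s := neg_le_neg (le_abs_self s)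
      have k1 := mul_le_mul_of_nonneg_right h9 (sq_nonneg e)
      linarith only [k1]
    have h9 : |s| * e ^ 2 ≤ |s| * (C ^ 2 * f ^ 2) := mul_le_mul_of_nonneg_left h6 (abs_nonneg s)
    have h10 : |s| * ((G.c i : ℝ) * f ^ 2) ≤ |s| * ((∑ i, (G.c i : ℝ)) * f ^ 2) :=
      mul_le_mul_of_nonneg_left (mul_le_mul_of_nonneg_right hc (sq_nonneg f)) (abs_nonneg s)
    have h11 : 0 ≤ |s| * ((G.c i : ℝ) * f ^ 2) := by positivity
    have h12 : 0 ≤ |s| * (C ^ 2 * f ^ 2) := by positivity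
    linarith only [h7, h8, h9, h10, h11, h12]
  refine (h3.anti h5).congr ?_
  filter_upwards [hK] with w hw
  have hn : 0 < ‖F w‖ := norm_pos_iff.2 (ne0 hG hw)
  have hEn : 0 < ‖G.E i (F w)‖ := norm_pos_iff.2 (hG.neE i _ hw)
  show ‖F w‖ ^ (s * (G.c i : ℝ)) * ‖G.E i (F w)‖ ^ (-s) = Real.exp (s * G.lam i (F w))
  rw [Real.rpow_def_of_pos hn, Real.rpow_def_of_pos hEn, ← Real.exp_add]
  congr 1
  unfold Geo.lam
  ring

end Pool.Agent.SR3

end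
end

section

/-!
# SR3 ALpr: (L')

A normalised entire curve of length at least one on a large disc of radius `r` has `log ‖F‖ ≥ A₀ r` somewhere on the disc: the function
`φ = ∑ (κ + lam i) ^ 2 + D r (log ‖F‖ + B)` has a Laplacian bounded below, if `log ‖F‖ ≤ A₀ r` on the disc, and `φ ≤ small * r ^ 2`.
-/

set_option autoImplicit false

open Topology Filter Metric

noncomputable section

namespace Pool.Agent.SR3

open Pool.Agent.H36.BP (EN fs wd Sub OrdTwo)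
open Pool.Agent.H14.PP (IsCone Tan)
open Pool.Agent.SDA (EnergyK Near AffOpen Nm nForms)

variable {N : ℕ} {G : Geo N}

private theorem add_sq_le_two (x y : ℝ) : (x + y) ^ 2 ≤ 2 * x ^ 2 + 2 * y ^ 2 := by
  have h := sq_nonneg (x - y)
  have h1 : (x + y) ^ 2 = 2 * x ^ 2 + 2 * y ^ 2 - (x - y) ^ 2 := by ring
  linarith

theorem ALpr.num {Cn k f S E : ℝ} (hC : 0 < Cn) (hk : 0 ≤ k) (hE : 0 ≤ E) (hSE : S ^ 2 ≤ k * E)
    (h1 : 1 ≤ Cn * (f + S)) : 1 / (4 * (k + 1) * Cn ^ 2) ≤ 1 / 2 * E + f ^ 2 := by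
  rw [div_le_iff₀ (by positivity)]
  have h2 : 1 ≤ (Cn * (f + S)) ^ 2 := one_le_pow₀ h1
  have h3 : (f + S) ^ 2 ≤ 2 * f ^ 2 + 2 * (k * E) := by
    have h31 : (f + S) ^ 2 = 2 * f ^ 2 + 2 * S ^ 2 - (f - S) ^ 2 := by ring
    have h32 := sq_nonneg (f - S)
    linarith
  have h4 : (Cn * (f + S)) ^ 2 = Cn ^ 2 * (f + S) ^ 2 := by ring
  have h5 : Cn ^ 2 * (f + S) ^ 2 ≤ Cn ^ 2 * (2 * f ^ 2 + 2 * (k * E)) := mul_le_mul_of_nonneg_left h3 (sq_nonneg _)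
  have h6 : 2 * f ^ 2 + 2 * (k * E) ≤ (1 / 2 * E + f ^ 2) * (4 * (k + 1)) := by
    have h7 : 0 ≤ k * f ^ 2 := by positivity
    have h71 : (1 / 2 * E + f ^ 2) * (4 * (k + 1)) = 2 * (k * E) + 2 * E + 4 * (k * f ^ 2) + 4 * f ^ 2 := by ring
    have h72 := sq_nonneg f
    rw [h71]
    linarith
  have h7 : Cn ^ 2 * (2 * f ^ 2 + 2 * (k * E)) ≤ Cn ^ 2 * ((1 / 2 * E + f ^ 2) * (4 * (k + 1))) := mul_le_mul_of_nonneg_left h6 (sq_nonneg _)
  linarith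

theorem lprime (hG : G.Ok) :
    ∃ A₀ r₀ : ℝ, 0 < A₀ ∧ 0 < r₀ ∧ ∀ F : ℂ → EN N, Differentiable ℂ F → (∀ z, F z ∈ G.K) → (∀ z, G.p (F z) = 1) → ∀ (z : ℂ) (r : ℝ), r₀ ≤ r →
      (∀ w ∈ closedBall z r, 1 ≤ G.n (F w) (deriv F w)) → ∃ w ∈ closedBall z r, A₀ * r ≤ Real.log ‖F w‖ := by
  obtain ⟨Bl, hBl0, hBl⟩ := lam_lowerA hG
  obtain ⟨Bu, hBu0, hBu⟩ := lam_upperA hG
  obtain ⟨Bn, hBn0, hBn⟩ := log_lower hG
  obtain ⟨Bs, hBs0, hBs⟩ := lam_sub hG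
  obtain ⟨Cn, hCn0, hCn⟩ := n_le_L hG
  obtain ⟨k, hk⟩ : ∃ k : ℝ, k = Fintype.card G.ι := ⟨_, rfl⟩
  have hk0 : 0 ≤ k := by rw [hk]; exact Nat.cast_nonneg _
  obtain ⟨h, hh⟩ : ∃ h : ℝ, h = G.h := ⟨_, rfl⟩
  have hh0 : 0 ≤ h := by rw [hh]; exact Nat.cast_nonneg _
  obtain ⟨κ, hκ⟩ : ∃ κ : ℝ, κ = Bl + 1 := ⟨_, rfl⟩
  have hκ1 : 1 ≤ κ := by rw [hκ]; linarith
  obtain ⟨a, ha⟩ : ∃ a : ℝ, a = κ + Bu := ⟨_, rfl⟩
  have ha1 : 1 ≤ a := by rw [ha]; linarith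
  obtain ⟨D, hD⟩ : ∃ D : ℝ, D = 4 * (Bs * (k * (a + h))) + 2 := ⟨_, rfl⟩
  have hD2 : 2 ≤ D := by
    have : 0 ≤ Bs * (k * (a + h)) := by positivity
    rw [hD]
    linarith
  obtain ⟨κ₁, hκ₁⟩ : ∃ κ₁ : ℝ, κ₁ = 1 / (4 * (k + 1) * Cn ^ 2) := ⟨_, rfl⟩
  have hκ₁0 : 0 < κ₁ := by rw [hκ₁]; positivity
  obtain ⟨W, hW⟩ : ∃ W : ℝ, W = 2 * k * h ^ 2 + D := ⟨_, rfl⟩
  have hW0 : 0 < W := by
    have : 0 ≤ 2 * k * h ^ 2 := by positivity
    rw [hW]
    linarith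
  obtain ⟨A₀, hA₀⟩ : ∃ A₀ : ℝ, A₀ = min 1 (κ₁ / (8 * W)) := ⟨_, rfl⟩
  have hA₀0 : 0 < A₀ := by rw [hA₀]; positivity
  have hA₀1 : A₀ ≤ 1 := by rw [hA₀]; exact min_le_left _ _
  have hA₀W : A₀ * W ≤ κ₁ / 8 := by
    have h1 : A₀ ≤ κ₁ / (8 * W) := by rw [hA₀]; exact min_le_right _ _
    calc A₀ * W ≤ κ₁ / (8 * W) * W := mul_le_mul_of_nonneg_right h1 hW0.le
      _ = κ₁ / 8 := by field_simp
  obtain ⟨V, hV⟩ : ∃ V : ℝ, V = 2 * k * a ^ 2 + D * Bn := ⟨_, rfl⟩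
  have hV0 : 0 ≤ V := by rw [hV]; positivity
  refine ⟨A₀, max 1 (8 * V / κ₁), hA₀0, by positivity, fun F hF hK hp z r hr hn => ?_⟩
  by_contra hcon
  push Not at hcon
  have hr1 : 1 ≤ r := (le_max_left _ _).trans hr
  have hrV : 8 * V ≤ κ₁ * r := by
    have h1 : 8 * V / κ₁ ≤ r := (le_max_right _ _).trans hr
    rw [div_le_iff₀ hκ₁0] at h1
    linarith
  have hlo : ∀ i w, 1 ≤ κ + G.lam i (F w) := by
    intro i w
    rw [hκ]
    linarith [hBl i (F w) (hK w)]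
  have hup : ∀ i, ∀ w ∈ closedBall z r, κ + G.lam i (F w) ≤ a + h * (A₀ * r) := by
    intro i w hw
    have h1 := (hBu (F w) (hK w) (hp w)).1 i
    rw [← hh] at h1
    have h2 := mul_le_mul_of_nonneg_left (hcon w hw).le hh0
    rw [ha]
    linarith
  obtain ⟨φ, hφ⟩ : ∃ φ : ℂ → ℝ, φ = fun w => (∑ i, (κ + G.lam i (F w)) ^ 2) + (D * r) * (Real.log ‖F w‖ + Bn) := ⟨_, rfl⟩
  have hφc : Continuous φ := by
    rw [hφ]
    refine (continuous_finsetSum _ fun i _ => ?_).add (continuous_const.mul (Continuous.add ?_ continuous_const))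
    · refine (continuous_const.add (continuous_iff_continuousAt.2 fun w => ?_)).pow 2
      exact (lam_grad hG i (hF.analyticAt w) (hK w)).continuousAt
    · exact hF.continuous.norm.log fun w => norm_ne_zero_iff.2 (ne0 hG (hK w))
  have hφ0 : 0 ≤ φ z := by
    rw [hφ]
    refine add_nonneg (Finset.sum_nonneg fun i _ => sq_nonneg _) (mul_nonneg (by positivity) ?_)
    linarith [hBn (F z) (hp z)]
  -- the upper bound
  have hφB : ∀ w ∈ closedBall z r, φ w ≤ κ₁ / 4 * r ^ 2 := by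
    intro w hw
    have h1 : ∑ i, (κ + G.lam i (F w)) ^ 2 ≤ k * (a + h * (A₀ * r)) ^ 2 := by
      have h2 : ∑ i, (κ + G.lam i (F w)) ^ 2 ≤ ∑ _i : G.ι, (a + h * (A₀ * r)) ^ 2 :=
        Finset.sum_le_sum fun i _ => pow_le_pow_left₀ (by linarith [hlo i w]) (hup i w hw) 2
      rwa [Finset.sum_const, Finset.card_univ, nsmul_eq_mul, ← hk] at h2
    have h2 : (D * r) * (Real.log ‖F w‖ + Bn) ≤ (D * r) * (A₀ * r + Bn) :=
      mul_le_mul_of_nonneg_left (by linarith [hcon w hw]) (by positivity)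
    have h3 : (a + h * (A₀ * r)) ^ 2 ≤ 2 * a ^ 2 + 2 * (h * (A₀ * r)) ^ 2 := add_sq_le_two _ _
    have h4 : k * (a + h * (A₀ * r)) ^ 2 ≤ k * (2 * a ^ 2 + 2 * (h * (A₀ * r)) ^ 2) := mul_le_mul_of_nonneg_left h3 hk0
    have h5 : k * (2 * a ^ 2) ≤ k * (2 * a ^ 2) * r := le_mul_of_one_le_right (by positivity) hr1
    have h6 : A₀ * (A₀ * (k * h ^ 2 * r ^ 2)) ≤ A₀ * (k * h ^ 2 * r ^ 2) :=
      mul_le_mul_of_nonneg_left (mul_le_of_le_one_left (by positivity) hA₀1) hA₀0.le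
    have h7 : A₀ * W * r ^ 2 ≤ κ₁ / 8 * r ^ 2 := mul_le_mul_of_nonneg_right hA₀W (sq_nonneg _)
    have h8 : 8 * V * r ≤ κ₁ * r * r := mul_le_mul_of_nonneg_right hrV (by linarith)
    have h9 : φ w = (∑ i, (κ + G.lam i (F w)) ^ 2) + (D * r) * (Real.log ‖F w‖ + Bn) := by rw [hφ]
    rw [h9]
    rw [hW] at h7
    rw [hV] at h8
    linarith
  -- the Laplacian
  have hsub : ∀ w ∈ ball z r, 0 < Real.exp (φ w) → Sub (fun w => Real.exp (φ w)) w κ₁ := by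
    intro w hw _
    have hFw := hF.analyticAt w
    have hev : ∀ᶠ w' in 𝓝 w, F w' ∈ G.K := Eventually.of_forall hK
    obtain ⟨f, hf⟩ : ∃ f : ℝ, f = fs (F w) (deriv F w) := ⟨_, rfl⟩
    have hf0 : 0 ≤ f := by rw [hf]; exact Pool.Agent.H36.BP.fs_nonneg _ _
    have h1 : ∀ i ∈ (Finset.univ : Finset G.ι), Sub (fun w' => Real.exp ((κ + G.lam i (F w')) ^ 2)) w
        (1 / 2 * ‖G.ell i (F w) (deriv F w)‖ ^ 2 + 2 * (-(Bs * f ^ 2)) * (κ + G.lam i (F w))) := by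
      intro i _
      have h2 : Sub (fun w' => Real.exp (κ + G.lam i (F w'))) w (-(Bs * f ^ 2)) := by
        have h3 := (hBs i 1 F w hFw hev).const_mul (Real.exp_pos κ)
        rw [abs_one, one_mul, ← hf] at h3
        refine h3.congr (Eventually.of_forall fun w' => ?_)
        show Real.exp κ * Real.exp (1 * G.lam i (F w')) = _
        rw [one_mul, ← Real.exp_add]
      have h3 := (lam_grad hG i hFw (hK w)).const_add κ
      have h4 := sub_sq h2 h3 (by linarith [hlo i w])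
      rwa [norm_neg] at h4
    have h5 := Pool.Agent.SDA.La.sub_sum Finset.univ h1
    have h6 := Pool.Agent.H36.BP.Sub.norm_rpow hFw (ne0 hG (hK w)) (D * r)
    rw [← hf] at h6
    have h7 := h5.mul (h6.const_mul (Real.exp_pos ((D * r) * Bn)))
    have h8 : Sub (fun w => Real.exp (φ w)) w (∑ i, (1 / 2 * ‖G.ell i (F w) (deriv F w)‖ ^ 2 + 2 * (-(Bs * f ^ 2)) * (κ + G.lam i (F w))) +
        D * r * f ^ 2 / 2) := by
      refine h7.congr (Eventually.of_forall fun w' => ?_)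
      show Real.exp (∑ i, (κ + G.lam i (F w')) ^ 2) * (Real.exp ((D * r) * Bn) * ‖F w'‖ ^ (D * r)) = Real.exp (φ w')
      rw [Real.rpow_def_of_pos (norm_pos_iff.2 (ne0 hG (hK w'))), ← Real.exp_add, ← Real.exp_add, hφ]
      congr 1
      ring
    refine h8.anti ?_
    have hwc : w ∈ closedBall z r := ball_subset_closedBall hw
    have h9 := hn w hwc
    have h10 := hCn (F w) (hK w) _ (tan hG hF hK w)
    obtain ⟨S, hS⟩ : ∃ S : ℝ, S = ∑ i, ‖G.ell i (F w) (deriv F w)‖ := ⟨_, rfl⟩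
    obtain ⟨E, hE⟩ : ∃ E : ℝ, E = ∑ i, ‖G.ell i (F w) (deriv F w)‖ ^ 2 := ⟨_, rfl⟩
    have hS0 : 0 ≤ S := by rw [hS]; exact Finset.sum_nonneg fun i _ => norm_nonneg _
    have hE0 : 0 ≤ E := by rw [hE]; exact Finset.sum_nonneg fun i _ => sq_nonneg _
    have hL : G.L (F w) (deriv F w) = f + S := by rw [hf, hS]; rfl
    have hSE : S ^ 2 ≤ k * E := by
      have h11 := sq_sum_le_card_mul_sum_sq (s := Finset.univ) (f := fun i => ‖G.ell i (F w) (deriv F w)‖)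
      rw [Finset.card_univ, ← hk, ← hS, ← hE] at h11
      exact h11
    rw [hL] at h10
    have h11 := ALpr.num hCn0 hk0 hE0 hSE (h9.trans h10)
    rw [← hκ₁] at h11
    have h12 : ∑ i, (1 / 2 * ‖G.ell i (F w) (deriv F w)‖ ^ 2 + 2 * (-(Bs * f ^ 2)) * (κ + G.lam i (F w))) =
        1 / 2 * E - 2 * (Bs * f ^ 2) * ∑ i, (κ + G.lam i (F w)) := by
      rw [Finset.sum_add_distrib, ← Finset.mul_sum, ← Finset.mul_sum, ← hE]
      ring
    have h13 : ∑ i, (κ + G.lam i (F w)) ≤ k * (a + h * (A₀ * r)) := by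
      have h14 : ∑ i, (κ + G.lam i (F w)) ≤ ∑ _i : G.ι, (a + h * (A₀ * r)) := Finset.sum_le_sum fun i _ => hup i w hwc
      rwa [Finset.sum_const, Finset.card_univ, nsmul_eq_mul, ← hk] at h14
    have h14 : k * (a + h * (A₀ * r)) ≤ k * ((a + h) * r) := by
      refine mul_le_mul_of_nonneg_left ?_ hk0
      have h15 : a ≤ a * r := le_mul_of_one_le_right (by linarith) hr1
      have h16 : A₀ * r ≤ r := mul_le_of_le_one_left (by linarith) hA₀1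
      have h17 := mul_le_mul_of_nonneg_left h16 hh0
      linarith
    have h15 : 2 * (Bs * f ^ 2) * ∑ i, (κ + G.lam i (F w)) ≤ 2 * (Bs * f ^ 2) * (k * ((a + h) * r)) :=
      mul_le_mul_of_nonneg_left (h13.trans h14) (by positivity)
    have h16 : f ^ 2 ≤ r * f ^ 2 := le_mul_of_one_le_left (sq_nonneg _) hr1
    rw [h12, hD]
    linarith
  have hdec := Pool.Agent.SY.decay (m := fun w => Real.exp (φ w)) (z₀ := z) (R := r) (A := Real.exp (κ₁ / 4 * r ^ 2))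
    (κ := κ₁) (by linarith) hκ₁0 (Real.exp_pos _).le (Real.continuous_exp.comp hφc).continuousOn.upperSemicontinuousOn
    (fun w hw => Real.exp_le_exp.2 (hφB w hw)) hsub z (mem_closedBall_self (by linarith))
  rw [sub_self, norm_zero, ← Real.exp_add] at hdec
  have h1 := Real.exp_le_exp.1 hdec
  have h2 : 0 < κ₁ * r ^ 2 := by positivity
  linarith

end Pool.Agent.SR3

end
end
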