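import Pool.Agent.H43.TL2.M138
import Pool.Agent.H43.TL2.M156
import Pool.Agent.H43.TL2.SR3.ABd
import Pool.Agent.H43.TL2.SR3.GDefs_1

/-! The parts of this file: SR3.ASml, SR3.LinL_2. -/

section

/-!
# SR3 ASml: (W), the metric is exponentially small far from the good points

Harnack's inequality on the disc of radius `d / 2` with centre `z`, at the point `w`, for `v = g F * ‖F‖ ^ (-c₀)`, against `lprime` on the disc of
radius `d / 4`.
-/

set_option autoImplicit false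

open Topology Filter Metric

noncomputable section

namespace Pool.Agent.SR3

open Pool.Agent.H36.BP (EN fs wd Sub OrdTwo)
open Pool.Agent.H14.PP (IsCone Tan)
open Pool.Agent.SY (Ent)
open Pool.Agent.SDA (EnergyK Near AffOpen Nm nForms)
open Geo (Gd)

variable {N : ℕ} {G : Geo N} {T : Set (EN N)} {rho : EN N → ℝ} {M : ℕ} {c₀ C δ : ℝ} {g : (ℂ → EN N) → ℂ → ℝ}

/-- `log ‖e ^ B x‖ = B + log ‖x‖` -/
private theorem ASml_norm (B : ℝ) (x : EN N) : ‖(Real.exp B : ℂ) • x‖ = Real.exp B * ‖x‖ := by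
  rw [norm_smul, Complex.norm_real, Real.norm_eq_abs, abs_of_pos (Real.exp_pos B)]

private theorem small_core (hG : G.Ok) (hM : G.Met T rho M c₀ C δ g)
    (hB1 : ∃ B : ℝ, 0 ≤ B ∧ ∀ x : EN N, G.p x = 1 → -B ≤ Real.log ‖x‖)
    (hb1 : ∃ C₁ : ℝ, 0 < C₁ ∧ ∀ (q : G.J → ℂ) (F : ℂ → EN N), G.Cl T q F → ∀ z, g F z ≤ C₁)
    (hl1 : ∃ A₀ r₀ : ℝ, 0 < A₀ ∧ 0 < r₀ ∧ ∀ F : ℂ → EN N, Differentiable ℂ F → (∀ z, F z ∈ G.K) → (∀ z, G.p (F z) = 1) → ∀ (z : ℂ) (r : ℝ), r₀ ≤ r →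
      (∀ w ∈ closedBall z r, 1 ≤ G.n (F w) (deriv F w)) → ∃ w ∈ closedBall z r, A₀ * r ≤ Real.log ‖F w‖)
    (hh1 : ∀ {c z₀ : ℂ} {R a b : ℝ}, z₀ ∈ ball c R → ∀ {F : ℂ → EN N}, Differentiable ℂ F → (∀ z, 1 ≤ ‖F z‖) → ∀ {v : ℂ → ℝ},
      UpperSemicontinuousOn v (closedBall c R) → (∀ z ∈ closedBall c R, 0 ≤ v z) → (∀ z ∈ ball c R, 0 < v z → Sub v z 0) →
      (∀ z ∈ closedBall c R, v z ≤ Real.exp a * ‖F z‖ ^ (-c₀)) → Real.exp (-b) ≤ v z₀ →
      ∀ z ∈ closedBall c (R / 2), c₀ * Real.log ‖F z‖ ≤ 3 * ((R + ‖z₀ - c‖) / (R - ‖z₀ - c‖)) * (a + b)) :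
    ∃ a c R : ℝ, 0 < c ∧ 0 < R ∧ ∀ (q : G.J → ℂ) (F : ℂ → EN N), G.Cl T q F → ∀ z, R ≤ infDist z (Gd rho δ F) → ∀ w,
      ‖w - z‖ ≤ infDist z (Gd rho δ F) / 8 → g F w ≤ Real.exp (a - c * infDist z (Gd rho δ F)) * ‖F w‖ ^ c₀ := by
  obtain ⟨B, hB0, hB⟩ := hB1
  obtain ⟨C₁, hC₁, hbd⟩ := hb1
  obtain ⟨A₀, r₀, hA₀, hr₀, hlp⟩ := hl1
  have hc₀ : 0 < c₀ := hM.en.c₀_pos
  refine ⟨Real.log C₁ + c₀ * B, c₀ * A₀ / 20, 4 * r₀, by positivity, by positivity, fun q F hF z hR w hw => ?_⟩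
  obtain ⟨d, hd⟩ : ∃ d, d = infDist z (Gd rho δ F) := ⟨_, rfl⟩
  rw [← hd] at hR hw ⊢
  have hd0 : 0 < d := by linarith
  have hFK : ∀ z, F z ∈ G.K := hF.ent.mem
  have hne : ∀ z, 0 < ‖F z‖ := fun z => norm_pos_iff.2 (ne0 hG (hFK z))
  have hlow : ∀ z, -B ≤ Real.log ‖F z‖ := fun z => hB _ (hF.nm z)
  have hcont : Continuous F := hF.ent.diff.continuous
  have hg0 : ∀ z, 0 ≤ g F z := hM.en.nonneg F hF.ent
  rcases (hg0 w).eq_or_lt with h0 | h0
  · rw [← h0]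
    have := Real.rpow_nonneg (norm_nonneg (F w)) c₀
    positivity
  -- the function `v`
  obtain ⟨v, hv⟩ : ∃ v : ℂ → ℝ, v = fun z => g F z * ‖F z‖ ^ (-c₀) := ⟨_, rfl⟩
  have hv0 : ∀ z, 0 ≤ v z := fun z => by
    rw [hv]
    exact mul_nonneg (hg0 z) (Real.rpow_nonneg (norm_nonneg _) _)
  have hvw : 0 < v w := by
    rw [hv]
    exact mul_pos h0 (Real.rpow_pos_of_pos (hne w) _)
  have husc : UpperSemicontinuousOn v (closedBall z (d / 2)) := by
    rw [hv]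
    exact Pool.Agent.SDA.F1_usc (fun z a ha => hM.en.usc F hF.ent z a ha)
      (hcont.norm.rpow_const fun z => Or.inl (hne z).ne') (fun z => Real.rpow_pos_of_pos (hne z) _) _
  have hs : ∀ x ∈ ball z (d / 2), 0 < v x → Sub v x 0 := by
    intro x hx hvx
    have h1 : rho (F x) < δ := by
      refine lt_of_ball (z := z) ?_
      rw [← hd, ← dist_eq_norm]
      have := mem_ball.1 hx
      linarith
    have h2 : 0 < g F x := by
      rcases (hg0 x).eq_or_lt with h3 | h3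
      · rw [hv] at hvx
        simp only [← h3, zero_mul, lt_self_iff_false] at hvx
      · exact h3
    rw [hv]
    exact hM.near F hF.ent x h1 h2
  -- the curve with norms at least one
  obtain ⟨F', hF'⟩ : ∃ F' : ℂ → EN N, F' = fun z => (Real.exp B : ℂ) • F z := ⟨_, rfl⟩
  have hF'n : ∀ z, ‖F' z‖ = Real.exp B * ‖F z‖ := fun z => by rw [hF']; exact ASml_norm B (F z)
  have hF'l : ∀ z, Real.log ‖F' z‖ = B + Real.log ‖F z‖ := fun z => by
    rw [hF'n, Real.log_mul (Real.exp_pos B).ne' (hne z).ne', Real.log_exp]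
  have hF'1 : ∀ z, 1 ≤ ‖F' z‖ := fun z => by
    have h1 : 0 ≤ Real.log ‖F' z‖ := by rw [hF'l]; linarith [hlow z]
    have h2 : 0 < ‖F' z‖ := by rw [hF'n]; exact mul_pos (Real.exp_pos B) (hne z)
    exact (Real.log_nonneg_iff h2).1 h1
  have hva : ∀ x ∈ closedBall z (d / 2), v x ≤ Real.exp (Real.log C₁ + c₀ * B) * ‖F' x‖ ^ (-c₀) := by
    intro x _
    have h1 : Real.exp (Real.log C₁ + c₀ * B) * ‖F' x‖ ^ (-c₀) = C₁ * ‖F x‖ ^ (-c₀) := by
      rw [hF'n, Real.mul_rpow (Real.exp_pos B).le (norm_nonneg _), ← Real.exp_mul, Real.exp_add, Real.exp_log hC₁]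
      have h2 : Real.exp (c₀ * B) * Real.exp (B * -c₀) = 1 := by
        rw [← Real.exp_add]
        have : c₀ * B + B * -c₀ = 0 := by ring
        rw [this, Real.exp_zero]
      calc C₁ * Real.exp (c₀ * B) * (Real.exp (B * -c₀) * ‖F x‖ ^ (-c₀))
          = C₁ * (Real.exp (c₀ * B) * Real.exp (B * -c₀)) * ‖F x‖ ^ (-c₀) := by ring
        _ = C₁ * ‖F x‖ ^ (-c₀) := by rw [h2, mul_one]
    rw [h1, hv]
    exact mul_le_mul_of_nonneg_right (hbd q F hF x) (Real.rpow_nonneg (norm_nonneg _) _)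
  have hwz : ‖w - z‖ ≤ d / 8 := hw
  have hwb : w ∈ ball z (d / 2) := by
    rw [mem_ball, dist_eq_norm]
    linarith
  have hdiff : Differentiable ℂ F' := by
    rw [hF']
    exact hF.ent.diff.const_smul (Real.exp B : ℂ)
  have key := hh1 (b := -Real.log (v w)) hwb hdiff hF'1 husc (fun x _ => hv0 x) hs hva
    (by rw [neg_neg, Real.exp_log hvw])
  obtain ⟨x, hx, hlx⟩ := hlp F hF.ent.diff hFK hF.nm z (d / 4) (by linarith) (fun y _ => (cl_n hF y).ge)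
  have hx' : x ∈ closedBall z (d / 2 / 2) := by
    have : d / 2 / 2 = d / 4 := by ring
    rw [this]
    exact hx
  have h1 := key x hx'
  rw [hF'l] at h1
  -- the constant of Harnack's inequality
  have h2 : (d / 2 + ‖w - z‖) / (d / 2 - ‖w - z‖) ≤ 5 / 3 := by
    rw [div_le_div_iff₀ (by linarith) (by norm_num)]
    linarith
  obtain ⟨s, hs'⟩ : ∃ s, s = Real.log C₁ + c₀ * B + -Real.log (v w) := ⟨_, rfl⟩
  rw [← hs'] at h1
  have h3 : c₀ * (A₀ * (d / 4)) ≤ c₀ * (B + Real.log ‖F x‖) := mul_le_mul_of_nonneg_left (by linarith) hc₀.le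
  have h4 : 0 < (d / 2 + ‖w - z‖) / (d / 2 - ‖w - z‖) := div_pos (by positivity) (by linarith)
  have h5 : 0 < c₀ * (A₀ * (d / 4)) := by positivity
  have h6 : 0 ≤ s := by
    by_contra hcon
    push Not at hcon
    have h7 : 3 * ((d / 2 + ‖w - z‖) / (d / 2 - ‖w - z‖)) * s < 0 := mul_neg_of_pos_of_neg (by positivity) hcon
    linarith
  have h7 : 3 * ((d / 2 + ‖w - z‖) / (d / 2 - ‖w - z‖)) * s ≤ 3 * (5 / 3) * s :=
    mul_le_mul_of_nonneg_right (mul_le_mul_of_nonneg_left h2 (by norm_num)) h6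
  have h8 : Real.log (v w) ≤ Real.log C₁ + c₀ * B - c₀ * A₀ / 20 * d := by
    have h9 : c₀ * (A₀ * (d / 4)) ≤ 5 * s := by linarith
    rw [hs'] at h9
    linarith
  have h9 : v w ≤ Real.exp (Real.log C₁ + c₀ * B - c₀ * A₀ / 20 * d) := by
    rw [← Real.exp_log hvw]
    exact Real.exp_le_exp.2 h8
  have h10 : g F w = v w * ‖F w‖ ^ c₀ := by
    rw [hv]
    simp only
    rw [mul_assoc, ← Real.rpow_add (hne w), neg_add_cancel, Real.rpow_zero, mul_one]
  rw [h10]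
  exact mul_le_mul_of_nonneg_right h9 (Real.rpow_nonneg (norm_nonneg _) _)

theorem small (hG : G.Ok) (hM : G.Met T rho M c₀ C δ g) :
    ∃ a c R : ℝ, 0 < c ∧ 0 < R ∧ ∀ (q : G.J → ℂ) (F : ℂ → EN N), G.Cl T q F → ∀ z, R ≤ infDist z (Gd rho δ F) → ∀ w,
      ‖w - z‖ ≤ infDist z (Gd rho δ F) / 8 → g F w ≤ Real.exp (a - c * infDist z (Gd rho δ F)) * ‖F w‖ ^ c₀ :=
  small_core hG hM (log_lower hG) (bound hG hM) (lprime hG) fun h1 => Pool.Agent.SDA.harnack hM.en.c₀_pos h1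

end Pool.Agent.SR3

end
end

section

/-!
# SR3 LinL: limits at exponentially small scales, and affine lines

`line_limit`: three circles between the radius `r` and half the distance to the good points, with `growth`, as in `gap_one`; `gap_montel`.
`line_low`: a line is not contained in a small neighbourhood of the ends (Liouville).  `line_end`: lines are polynomial curves with an end in `Y`.
-/

set_option autoImplicit false

open Topology Filter Metric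

noncomputable section

namespace Pool.Agent.SR3

open Pool.Agent.H36.BP (EN fs wd Sub OrdTwo)
open Pool.Agent.H14.PP (IsCone Tan)
open Pool.Agent.SY (Ent)
open Pool.Agent.SDA (EnergyK Near AffOpen Nm nForms)
open Pool.Agent.H62.EF (MN pr)
open Pool.Agent.G3 (LLift)
open Geo (Gd)

variable {N : ℕ} {G : Geo N} {T : Set (EN N)} {rho : EN N → ℝ} {M : ℕ} {c₀ C δ : ℝ} {g : (ℂ → EN N) → ℂ → ℝ}

/-- A line is not contained in a small neighbourhood of `Y`: `φ / ⟪y, φ⟫` would be bounded (Liouville). -/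
theorem line_low (hG : G.Ok) {Y : Finset (EN N)} (hY : G.Ends Y) : ∃ B₀ : ℝ, ∀ φ, G.Line φ → ∃ z, Real.log ‖φ z‖ < B₀ := by
  have hY0 : ∀ y ∈ Y, y ≠ 0 := fun y hy h => hG.cone.zero_notMem (h ▸ (hY.mem y hy).1)
  -- the ends are separated
  obtain ⟨ε₁, hε₁, hsep⟩ : ∃ ε₁ : ℝ, 0 < ε₁ ∧ ∀ y ∈ Y, ∀ y' ∈ Y, y ≠ y' → 2 * ε₁ ≤ dist (pr y) (pr y') := by
    rcases (Y ×ˢ Y).filter (fun p => p.1 ≠ p.2) |>.eq_empty_or_nonempty with h | h
    · refine ⟨1, one_pos, fun y hy y' hy' hne => ?_⟩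
      have h1 : (y, y') ∈ (Y ×ˢ Y).filter (fun p => p.1 ≠ p.2) := by
        rw [Finset.mem_filter, Finset.mem_product]
        exact ⟨⟨hy, hy'⟩, hne⟩
      rw [h] at h1
      exact absurd h1 (Finset.notMem_empty _)
    · obtain ⟨p, hp, hmin⟩ := Finset.exists_min_image _ (fun p : EN N × EN N => dist (pr p.1) (pr p.2)) h
      rw [Finset.mem_filter, Finset.mem_product] at hp
      refine ⟨dist (pr p.1) (pr p.2) / 2, ?_, fun y hy y' hy' hne => ?_⟩
      · have h1 : 0 < dist (pr p.1) (pr p.2) := dist_pos.2 fun he => hp.2 (hY.inj _ hp.1.1 _ hp.1.2 he)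
        linarith
      · have h1 := hmin (y, y') (by rw [Finset.mem_filter, Finset.mem_product]; exact ⟨⟨hy, hy'⟩, hne⟩)
        simp only at h1
        linarith
  obtain ⟨B₀, hB₀⟩ := hY.near (min ε₁ 1) (lt_min hε₁ one_pos)
  refine ⟨B₀, fun φ hφ => ?_⟩
  by_contra hcon
  push Not at hcon
  have hφ0 : ∀ z, φ z ≠ 0 := fun z => ne0 hG (hφ.mem z)
  have hprc : Continuous fun z => pr (φ z) := continuous_iff_continuousAt.2 fun z =>
    ContinuousAt.comp (g := pr) (Pool.Agent.H62.EF.continuousAt_pr (hφ0 z)) hφ.diff.continuous.continuousAt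
  have hcov : ∀ z, ∃ y ∈ Y, dist (pr (φ z)) (pr y) < min ε₁ 1 := fun z => hB₀ φ hφ z (hcon z)
  obtain ⟨y, hy, hy0⟩ := hcov 0
  -- one end for all points
  have hall : ∀ z, dist (pr (φ z)) (pr y) < min ε₁ 1 := by
    have hopen : ∀ y' : EN N, IsOpen {z | dist (pr (φ z)) (pr y') < min ε₁ 1} := fun y' =>
      isOpen_lt (hprc.dist continuous_const) continuous_const
    have hcl : IsClosed {z | dist (pr (φ z)) (pr y) < min ε₁ 1} := by
      rw [← isOpen_compl_iff]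
      have e : {z | dist (pr (φ z)) (pr y) < min ε₁ 1}ᶜ = ⋃ y' ∈ {y' | y' ∈ Y ∧ y' ≠ y}, {z | dist (pr (φ z)) (pr y') < min ε₁ 1} := by
        ext z
        simp only [Set.mem_compl_iff, Set.mem_ofPred_eq, Set.mem_iUnion, exists_prop]
        constructor
        · intro h
          obtain ⟨y', hy', hz⟩ := hcov z
          refine ⟨y', ⟨hy', ?_⟩, hz⟩
          rintro rfl
          exact h hz
        · rintro ⟨y', ⟨hy', hne⟩, hz⟩ h
          have h1 := hsep y' hy' y hy hne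
          have h2 : dist (pr y') (pr y) ≤ dist (pr (φ z)) (pr y') + dist (pr (φ z)) (pr y) := dist_triangle_left _ _ _
          have h3 : min ε₁ 1 ≤ ε₁ := min_le_left _ _
          linarith
      rw [e]
      exact isOpen_biUnion fun y' _ => hopen y'
    have huniv := IsClopen.eq_univ ⟨hcl, hopen y⟩ ⟨0, hy0⟩
    intro z
    have hz : z ∈ {z | dist (pr (φ z)) (pr y) < min ε₁ 1} := by
      rw [huniv]
      exact Set.mem_univ z
    exact hz
  have hyn : 0 < ‖y‖ := norm_pos_iff.2 (hY0 y hy)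
  have hin : ∀ z, ‖y‖ ^ 2 * ‖φ z‖ ^ 2 / 2 ≤ ‖(inner ℂ y (φ z) : ℂ)‖ ^ 2 := by
    intro z
    rw [Pool.Agent.H62.EF.norm_inner_sq (hY0 y hy) (hφ0 z)]
    have h1 : dist (pr y) (pr (φ z)) < 1 := by
      rw [dist_comm]
      exact (hall z).trans_le (min_le_right _ _)
    have h2 : dist (pr y) (pr (φ z)) ^ 2 ≤ 1 := pow_le_one₀ dist_nonneg h1.le
    have h3 : 0 ≤ ‖y‖ ^ 2 * ‖φ z‖ ^ 2 := by positivity
    have h4 : ‖y‖ ^ 2 * ‖φ z‖ ^ 2 * (1 / 2) ≤ ‖y‖ ^ 2 * ‖φ z‖ ^ 2 * (1 - dist (pr y) (pr (φ z)) ^ 2 / 2) :=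
      mul_le_mul_of_nonneg_left (by linarith) h3
    linarith
  have hne : ∀ z, (inner ℂ y (φ z) : ℂ) ≠ 0 := by
    intro z h0
    have h1 := hin z
    rw [h0, norm_zero] at h1
    have h2 : 0 < ‖φ z‖ := norm_pos_iff.2 (hφ0 z)
    have h3 : 0 < ‖y‖ ^ 2 * ‖φ z‖ ^ 2 / 2 := by positivity
    norm_num at h1
    linarith
  -- the inner product is a polynomial without zeros
  obtain ⟨A, k, hg⟩ := hφ.pol
  obtain ⟨P, hP⟩ := Pool.Agent.SY.exists_poly_of_growth k (fun z => (inner ℂ y (φ z) : ℂ)) (‖y‖ * A)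
    ((innerSL ℂ y).differentiable.comp hφ.diff) (fun z => by
      refine (norm_inner_le_norm _ _).trans ?_
      rw [mul_assoc]
      exact mul_le_mul_of_nonneg_left (hg z) hyn.le)
  have hdeg : ¬ 0 < P.degree := by
    intro h
    obtain ⟨z, hz⟩ := Complex.exists_root h
    exact hne z ((hP z).trans hz)
  have hPc : P = Polynomial.C (P.coeff 0) := Polynomial.eq_C_of_degree_le_zero (not_lt.1 hdeg)
  have hbd : ∀ z, ‖φ z‖ ≤ 2 * ‖P.coeff 0‖ / ‖y‖ := by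
    intro z
    have h1 := hin z
    have h2 : (inner ℂ y (φ z) : ℂ) = P.coeff 0 := by
      have h3 : (inner ℂ y (φ z) : ℂ) = P.eval z := hP z
      rw [h3, hPc, Polynomial.eval_C, Polynomial.coeff_C_zero]
    rw [h2] at h1
    rw [le_div_iff₀ hyn]
    refine abs_le_of_sq_le_sq' ?_ (by positivity) |>.2
    nlinarith [sq_nonneg ‖P.coeff 0‖]
  obtain ⟨z, w, hzw⟩ := hφ.ne
  refine hzw (hφ.diff.apply_eq_apply_of_bounded ?_ z w)
  rw [isBounded_iff_subset_closedBall (0 : EN N)]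
  refine ⟨2 * ‖P.coeff 0‖ / ‖y‖, ?_⟩
  rintro x ⟨z, rfl⟩
  rw [mem_closedBall_zero_iff]
  exact hbd z

end Pool.Agent.SR3

end
end
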