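import Pool.Agent.H43.TL2.M138
import Pool.Agent.H43.TL2.M140
import Pool.Agent.H43.TL2.M26
import Pool.Agent.H43.TL2.M40

/-! The parts of this file: AD.ChartBasic, AD.W.Def, H62.FC.Components, SR3.LiouA, SR3.LiouB, SR3.LiouF, SR3.Bas, SR3.MMax. -/

section

/-!
# BPm ChartBasic: charts, basic facts

* `Chart.fderiv_q_smul`: `q (c • y) = q y` for `y` near `x ∈ U` (`U` open); differentiate:
  `Dq(c x) (c v) = Dq(x) v`; and `Dq(x) x = 0` (differentiate `q ((1 + h) • x) = q x` at `h = 0`).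
* `Chart.fderiv_sigma`: derivative of `q ∘ σ = id` on the bidisc: `Dq(σ p) (Dσ(p) w) = w`.
* `Chart.tan`: the curve `z ↦ σ (p + z • w)`; if `σ p ∈ K` it stays in `K` (`rel_open`).
* `Chart.curve`: `q ∘ F` is analytic at `z₀` (composition), its derivative is given by the chain
  rule. For `z` near `z₀`, `F z ∈ X ∩ U`, so `q (F z) ∈ ball 0 2` and `F z = c z • σ (q (F z))` with
  `c z ≠ 0` (`surj`). With `y = σ (q (F z₀)) ≠ 0`: `c z = ⟪y, F z⟫ / ⟪y, σ (q (F z))⟫` near `z₀`: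
  analytic.
* `Chart.sigma_mem_iff`: for `x ∈ X ∩ U`, `x = c • σ (q x)`, so `x ∈ K ↔ σ (q x) ∈ K`.
-/

open Topology Filter Metric

namespace Pool.Agent.AD

open Pool.Agent.H36.BP
open Pool.Agent.H14.PP (IsCone CurveAt Tan IsOpenPart rho rho_smul)

variable {N d : ℕ} {X K T : Set (EN N)}

theorem Chart.sigma_ne_zero (hX : IsCone X) (χ : Chart d X) {p : Vd d}
    (hp : p ∈ ball (0 : Vd d) 2) : χ.σ p ≠ 0 :=
  hX.ne_zero (χ.σ_mem p hp).1

theorem Chart.tan (hK : IsOpenPart X K) (χ : Chart d X) {p : Vd d}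
    (hp : p ∈ ball (0 : Vd d) 2) (hpK : χ.σ p ∈ K) (w : Vd d) :
    Tan K (χ.σ p) (fderiv ℂ χ.σ p w) := by
  have hl : AnalyticAt ℂ (fun z : ℂ => p + z • w) 0 := by fun_prop
  have h0 : p + (0 : ℂ) • w = p := by simp
  have hσ : AnalyticAt ℂ χ.σ (p + (0 : ℂ) • w) := by rw [h0]; exact χ.σ_an p hp
  have hF : AnalyticAt ℂ (fun z : ℂ => χ.σ (p + z • w)) 0 :=
    AnalyticAt.comp (g := χ.σ) (f := fun z : ℂ => p + z • w) hσ hl
  refine ⟨fun z => χ.σ (p + z • w), ⟨hF, ?_⟩, by simp, ?_⟩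
  · have h1 : ∀ᶠ z : ℂ in 𝓝 0, χ.σ (p + z • w) ∈ X → χ.σ (p + z • w) ∈ K := by
      have h2 := hF.continuousAt
      have h3 := hK.rel_open _ hpK
      have h4 : χ.σ (p + (0 : ℂ) • w) = χ.σ p := by rw [h0]
      have h5 : Tendsto (fun z : ℂ => χ.σ (p + z • w)) (𝓝 0) (𝓝 (χ.σ p)) := by
        have := h2.tendsto
        rwa [h4] at this
      exact h5.eventually h3
    have h6 : ∀ᶠ z : ℂ in 𝓝 0, p + z • w ∈ ball (0 : Vd d) 2 := by
      have h7 := hl.continuousAt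
      apply h7.eventually_mem
      rw [h0]
      exact isOpen_ball.mem_nhds hp
    filter_upwards [h1, h6] with z hz hz'
    exact hz (χ.σ_mem _ hz').1
  · have h1 : HasFDerivAt χ.σ (fderiv ℂ χ.σ p) (p + (0 : ℂ) • w) := by
      rw [h0]
      exact (χ.σ_an p hp).differentiableAt.hasFDerivAt
    have h2 : HasDerivAt (fun z : ℂ => p + z • w) w 0 := by
      have h3 : HasDerivAt (fun z : ℂ => z • w) ((1 : ℂ) • w) 0 :=
        (hasDerivAt_id (0 : ℂ)).smul_const w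
      rw [one_smul] at h3
      exact h3.const_add p
    exact (h1.comp_hasDerivAt (0 : ℂ) h2).deriv

theorem Chart.curve (hX : IsCone X) (χ : Chart d X) {F : ℂ → EN N} {z₀ : ℂ} (hF : CurveAt X F z₀)
    (hU : F z₀ ∈ χ.U) :
    AnalyticAt ℂ (fun z => χ.q (F z)) z₀ ∧
    deriv (fun z => χ.q (F z)) z₀ = fderiv ℂ χ.q (F z₀) (deriv F z₀) ∧
    ∃ c : ℂ → ℂ, AnalyticAt ℂ c z₀ ∧ c z₀ ≠ 0 ∧
      ∀ᶠ z in 𝓝 z₀, χ.q (F z) ∈ ball (0 : Vd d) 2 ∧ F z = c z • χ.σ (χ.q (F z)) := by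
  have hq : AnalyticAt ℂ χ.q (F z₀) := χ.q_an _ hU
  have hqF : AnalyticAt ℂ (fun z => χ.q (F z)) z₀ := AnalyticAt.comp hq hF.1
  refine ⟨hqF, ?_, ?_⟩
  · have h1 : HasFDerivAt χ.q (fderiv ℂ χ.q (F z₀)) (F z₀) := hq.differentiableAt.hasFDerivAt
    have h2 : HasDerivAt F (deriv F z₀) z₀ := hF.1.differentiableAt.hasDerivAt
    exact (h1.comp_hasDerivAt z₀ h2).deriv
  · have hX0 : F z₀ ∈ X := hF.mem
    obtain ⟨hb, c0, hc0, hF0⟩ := χ.surj _ hX0 hU
    have hσ : AnalyticAt ℂ (fun z => χ.σ (χ.q (F z))) z₀ :=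
      AnalyticAt.comp (g := χ.σ) (f := fun z => χ.q (F z)) (χ.σ_an _ hb) hqF
    set y : EN N := χ.σ (χ.q (F z₀)) with hy
    have hy0 : y ≠ 0 := Chart.sigma_ne_zero hX χ hb
    have hn : AnalyticAt ℂ (fun z => inner ℂ y (F z)) z₀ :=
      AnalyticAt.comp (g := fun x : EN N => (innerSL ℂ y) x) (f := F)
        ((innerSL ℂ y).analyticAt _) hF.1
    have hd : AnalyticAt ℂ (fun z => inner ℂ y (χ.σ (χ.q (F z)))) z₀ :=
      AnalyticAt.comp (g := fun x : EN N => (innerSL ℂ y) x) (f := fun z => χ.σ (χ.q (F z)))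
        ((innerSL ℂ y).analyticAt _) hσ
    have hd0 : (fun z => inner ℂ y (χ.σ (χ.q (F z)))) z₀ ≠ (0 : ℂ) := by
      show inner ℂ y y ≠ (0 : ℂ)
      exact inner_self_ne_zero.2 hy0
    refine ⟨fun z => inner ℂ y (F z) / inner ℂ y (χ.σ (χ.q (F z))), hn.div hd hd0, ?_, ?_⟩
    · refine div_ne_zero ?_ hd0
      rw [hF0, inner_smul_right]
      exact mul_ne_zero hc0 (inner_self_ne_zero.2 hy0)
    · have hev : ∀ᶠ z in 𝓝 z₀, (fun z => inner ℂ y (χ.σ (χ.q (F z)))) z ≠ (0 : ℂ) :=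
        hd.continuousAt.eventually_ne hd0
      have hevU : ∀ᶠ z in 𝓝 z₀, F z ∈ χ.U :=
        hF.1.continuousAt.eventually_mem (χ.isOpen_U.mem_nhds hU)
      filter_upwards [hev, hevU, hF.2] with z h1 h2 h3
      obtain ⟨h4, c, hc, h5⟩ := χ.surj _ h3 h2
      refine ⟨h4, ?_⟩
      have h6 : inner ℂ y (F z) / inner ℂ y (χ.σ (χ.q (F z))) = c := by
        rw [div_eq_iff h1]
        conv_lhs => rw [h5]
        rw [inner_smul_right]
      rw [h6]
      exact h5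

end Pool.Agent.AD

end

section

/-!
# AD W Def: pseudo-lengths in charts of dimension `d`

The structure `H22.W.PseudoLength` does not depend on the dimension; here the facts which use charts are proved for `AD.Chart`.
-/

set_option autoImplicit false

open Topology Filter Metric

namespace Pool.Agent.AD

open Pool.Agent.H36.BP (EN fs wd)
open Pool.Agent.H14.PP (IsCone Tan CurveAt IsOpenPart)

variable {N d : ℕ} {X : Set (EN N)}

/-- the tangent vectors in a chart -/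
theorem tan_chart (hX : IsCone X) (χ : Chart d X) {x v : EN N} (h : Tan X x v) (hU : x ∈ χ.U) :
    χ.q x ∈ ball (0 : Vd d) 2 ∧ ∃ c a : ℂ, c ≠ 0 ∧ x = c • χ.σ (χ.q x) ∧
      v = c • fderiv ℂ χ.σ (χ.q x) (fderiv ℂ χ.q x v) + a • x := by
  obtain ⟨F, hF, h0, h1⟩ := h
  subst h0
  obtain ⟨hq, hq', c, hc, hc0, hev⟩ := χ.curve hX hF hU
  obtain ⟨hball, heq⟩ := hev.self_of_nhds
  refine ⟨hball, c 0, deriv c 0 / c 0, hc0, heq, ?_⟩
  have hs : AnalyticAt ℂ χ.σ (χ.q (F 0)) := χ.σ_an _ hball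
  have h2 : HasDerivAt (fun z => χ.σ (χ.q (F z))) (fderiv ℂ χ.σ (χ.q (F 0)) (deriv (fun z => χ.q (F z)) 0)) 0 :=
    hs.differentiableAt.hasFDerivAt.comp_hasDerivAt (0 : ℂ) hq.differentiableAt.hasDerivAt
  have h3 : HasDerivAt (fun z => c z • χ.σ (χ.q (F z))) (c 0 • fderiv ℂ χ.σ (χ.q (F 0)) (deriv (fun z => χ.q (F z)) 0) +
      deriv c 0 • χ.σ (χ.q (F 0))) 0 := hc.differentiableAt.hasDerivAt.smul h2
  have h4 : deriv F 0 = c 0 • fderiv ℂ χ.σ (χ.q (F 0)) (deriv (fun z => χ.q (F z)) 0) +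
      deriv c 0 • χ.σ (χ.q (F 0)) := by
    have h5 : F =ᶠ[𝓝 0] fun z => c z • χ.σ (χ.q (F z)) := hev.mono fun z hz => hz.2
    rw [h5.deriv_eq]
    exact h3.deriv
  rw [h1] at h4 hq'
  rw [← hq']
  have h6 : (deriv c 0 / c 0) • F 0 = deriv c 0 • χ.σ (χ.q (F 0)) := by
    conv_lhs => rw [heq]
    rw [smul_smul, div_mul_cancel₀ _ hc0]
  rw [h6]
  exact h4

end Pool.Agent.AD

end

section

/-! # Fermat covers: homogeneity and grading of minimal primes -/

noncomputable section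

namespace Pool.Agent.H62.FC

open MvPolynomial

private lemma Components_core {M : Type} [AddCommMonoid M] [LinearOrder M]
    [IsOrderedCancelAddMonoid M] {σ : Type} (w : σ → M) {P : Ideal (MvPolynomial σ ℂ)}
    {G : Set (MvPolynomial σ ℂ)} (hP : P ∈ (Ideal.span G).minimalPrimes)
    (hG : ∀ g ∈ G, ∀ m, weightedHomogeneousComponent w m g ∈ P) :
    ∀ p ∈ P, ∀ m, weightedHomogeneousComponent w m p ∈ P := by
  classical
  let _ : GradedAlgebra (weightedHomogeneousSubmodule ℂ w) := weightedGradedAlgebra ℂ w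
  have hprime : P.IsPrime := hP.1.1
  set Q : Ideal (MvPolynomial σ ℂ) :=
    (P.homogeneousCore (weightedHomogeneousSubmodule ℂ w)).toIdeal with hQ
  have hQprime : Q.IsPrime := hprime.homogeneousCore
  have hQP : Q ≤ P := Ideal.toIdeal_homogeneousCore_le _ P
  have hGQ : Ideal.span G ≤ Q := by
    rw [Ideal.span_le]
    intro g hg
    rw [← sum_weightedHomogeneousComponent w g,
      finsum_eq_sum _ (weightedHomogeneousComponent_finsupp g)]
    refine Q.sum_mem fun m _ => ?_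
    exact Ideal.mem_homogeneousCore_of_homogeneous_of_mem
      ⟨m, weightedHomogeneousComponent_mem w g m⟩ (hG g hg m)
  have hPQ : P ≤ Q := hP.2 ⟨hQprime, hGQ⟩ hQP
  have heq : Q = P := le_antisymm hQP hPQ
  have hhom : P.IsHomogeneous (weightedHomogeneousSubmodule ℂ w) := by
    rw [← heq]
    exact HomogeneousIdeal.isHomogeneous _
  intro p hp m
  exact weightedHomogeneousComponent_mem_of_mem ℂ w hhom hp m

variable {N : ℕ} {κ : Type} {A : κ → MvPolynomial (Fin (N + 1)) ℂ} {e : κ → ℕ}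
  {P : Ideal (MvPolynomial (Fin (N + 1)) ℂ)}

theorem homog_of_minimal (hA : ∀ l, (A l).IsHomogeneous (e l))
    (hP : P ∈ (Ideal.span (Set.range A)).minimalPrimes) : Homog P := by
  classical
  intro p hp n
  refine Components_core (w := (1 : Fin (N + 1) → ℕ)) hP ?_ p hp n
  rintro g ⟨l, rfl⟩ m
  have h1 : A l ∈ P := hP.1.2 (Ideal.subset_span ⟨l, rfl⟩)
  have h2 : weightedHomogeneousComponent (1 : Fin (N + 1) → ℕ) m (A l) =
      if m = e l then A l else 0 := by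
    have h3 := homogeneousComponent_of_mem (m := m)
      ((mem_homogeneousSubmodule _ _).2 (hA l))
    rw [homogeneousComponent] at h3
    exact h3
  rw [h2]
  split_ifs
  · exact h1
  · exact P.zero_mem

end Pool.Agent.H62.FC

end
end

section

/-!
# SR3 LiouA: the values of the ratio of the gradients

Where two functions of a blow-down are positive, the ratio of their gradients is in `[0, ∞)`: the set of the other values is open, relatively closed and stays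
away from the roots of the form.
-/

set_option autoImplicit false

open Metric Topology Filter Complex InnerProductSpace

noncomputable section

namespace Pool.Agent.SR3

open Pool.Agent.SDR (gc hp tot comp Blow BlowFam hp_smul hp_zero continuous_hp gc_sub gc_congr norm_gc_le analyticAt_gc)

theorem LiouA.gc_scale {u : ℂ → ℝ} {a w : ℂ} {r : ℝ} (hr : 0 < r) (hu : DifferentiableAt ℝ u (a + r * w)) :
    gc (fun w => u (a + r * w) / r) w = gc u (a + r * w) := by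
  have h1 : HasFDerivAt (fun w : ℂ => a + (r : ℂ) * w) ((r : ℝ) • ContinuousLinearMap.id ℝ ℂ) w := by
    have h2 : HasFDerivAt (fun w : ℂ => a + r • w) ((r : ℝ) • ContinuousLinearMap.id ℝ ℂ) w :=
      ((hasFDerivAt_id (𝕜 := ℝ) w).const_smul r).const_add a
    simpa only [Complex.real_smul] using h2
  have h3 : HasFDerivAt (fun w => u (a + r * w)) ((fderiv ℝ u (a + r * w)).comp ((r : ℝ) • ContinuousLinearMap.id ℝ ℂ)) w :=
    hu.hasFDerivAt.comp w h1
  have h4 : HasFDerivAt (fun w => u (a + r * w) / r) (r⁻¹ • ((fderiv ℝ u (a + r * w)).comp ((r : ℝ) • ContinuousLinearMap.id ℝ ℂ))) w := by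
    have := h3.const_smul r⁻¹
    refine this.congr_of_eventuallyEq (Eventually.of_forall fun x => ?_)
    show u (a + r * x) / r = r⁻¹ • u (a + r * x)
    rw [smul_eq_mul, div_eq_inv_mul]
  have h5 : ∀ v : ℂ, fderiv ℝ (fun w => u (a + r * w) / r) w v = fderiv ℝ u (a + r * w) v := by
    intro v
    rw [h4.fderiv]
    show r⁻¹ * fderiv ℝ u (a + r * w) (r • v) = _
    rw [map_smul, smul_eq_mul, ← mul_assoc, inv_mul_cancel₀ hr.ne', one_mul]
  unfold gc
  rw [h5, h5]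

/-- convergence of the gradients -/
theorem LiouA.gc_lim {u : ℕ → ℂ → ℝ} {v : ℂ → ℝ} {w : ℂ} {r : ℝ} (hr : 0 < r) (hu : ∀ᶠ n in atTop, HarmonicOnNhd (u n) (ball w r))
    (hv : HarmonicOnNhd v (ball w r)) (h : ∀ ε : ℝ, 0 < ε → ∀ᶠ n in atTop, ∀ z ∈ ball w r, |u n z - v z| ≤ ε) :
    Tendsto (fun n => gc (u n) w) atTop (𝓝 (gc v w)) := by
  rw [Metric.tendsto_nhds]
  intro ε hε
  have hε' : 0 < ε * r / 32 := by positivity
  filter_upwards [hu, h _ hε'] with n hn1 hn2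
  have hw : w ∈ ball w r := mem_ball_self hr
  have h1 : HarmonicOnNhd (fun z => u n z - v z) (ball w r) := fun z hz => (hn1 z hz).sub (hv z hz)
  have h2 := norm_gc_le hr hε' h1 hn2
  rw [gc_sub (SDR.HarmonicAt.differentiableAt' (hn1 w hw)) (SDR.HarmonicAt.differentiableAt' (hv w hw))] at h2
  rw [dist_eq_norm]
  refine lt_of_le_of_lt h2 ?_
  have : 16 * (ε * r / 32) / r = ε / 2 := by field_simp; norm_num
  rw [this]
  linarith

variable {ι : Type} [Fintype ι] {Cr : Type} {Q : Cr → ℕ → ℂ} {m : ℕ} {e₁ e₂ : Cr → ι} {c C : ℝ}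

/-- the data at a point -/
structure LiouA.At (Q : Cr → ℕ → ℂ) (m : ℕ) (e₁ e₂ : Cr → ι) (ν : Cr) (U : ι → ℂ → ℝ) (z : ℂ) : Prop where
  pos : 0 < tot U z
  zero : ∀ i, i ≠ e₁ ν → i ≠ e₂ ν → U i z = 0
  eq : ∀ᶠ w in 𝓝 z, ‖hp (Q ν) m (gc (U (e₁ ν)) w) (gc (U (e₂ ν)) w)‖ = 1
  pos₁ : 0 < U (e₁ ν) z
  pos₂ : 0 < U (e₂ ν) z
  ne : gc (U (e₁ ν)) z ≠ 0

theorem LiouA.At.nhds {U : ι → ℂ → ℝ} {z : ℂ} {ν : Cr} (hU : Blow Q m e₁ e₂ c C U) (h : At Q m e₁ e₂ ν U z) :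
    ∀ᶠ w in 𝓝 z, At Q m e₁ e₂ ν U w := by
  have hz : z ∈ comp U z := hU.mem_comp h.pos
  have ha : AnalyticAt ℂ (gc (U (e₁ ν))) z := hU.analytic_gc hz _
  filter_upwards [(hU.isOpen_comp z).mem_nhds hz, eventually_eventually_nhds.2 h.eq, ha.continuousAt.eventually_ne h.ne,
    (hU.cont (e₁ ν)).continuousAt.eventually (lt_mem_nhds h.pos₁), (hU.cont (e₂ ν)).continuousAt.eventually (lt_mem_nhds h.pos₂)] with w h1 h2 h3 h4 h5
  refine ⟨hU.pos_of_comp h1, ?_, h2, h4, h5, h3⟩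
  intro i hi1 hi2
  rcases hU.zero_or_pos z i with h6 | h6
  · exact h6 w h1
  · exact absurd (h.zero i hi1 hi2) (h6 z hz).ne'

/-- the set of the values -/
def LiouA.RR (Q : Cr → ℕ → ℂ) (m : ℕ) (e₁ e₂ : Cr → ι) (ν : Cr) (𝓤 : Set (ι → ℂ → ℝ)) : Set ℂ :=
  {x | x ∈ Cut ∧ ∃ U ∈ 𝓤, ∃ z, At Q m e₁ e₂ ν U z ∧ gc (U (e₂ ν)) z = x * gc (U (e₁ ν)) z}

theorem LiouA.isOpen_RR {𝓤 : Set (ι → ℂ → ℝ)} (h : BlowFam Q m e₁ e₂ c C 𝓤) (hm : 1 ≤ m) (ν : Cr) : IsOpen (RR Q m e₁ e₂ ν 𝓤) := by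
  rw [isOpen_iff_mem_nhds]
  rintro x ⟨hx, U, hU, z, hz, hxe⟩
  have hB := h.blow U hU
  have hzc : z ∈ comp U z := hB.mem_comp hz.pos
  have a1 : AnalyticAt ℂ (gc (U (e₁ ν))) z := hB.analytic_gc hzc _
  have a2 : AnalyticAt ℂ (gc (U (e₂ ν))) z := hB.analytic_gc hzc _
  have a3 : AnalyticAt ℂ (fun w => gc (U (e₂ ν)) w / gc (U (e₁ ν)) w) z := a2.div a1 hz.ne
  have hx' : gc (U (e₂ ν)) z / gc (U (e₁ ν)) z = x := by rw [hxe, mul_div_assoc, div_self hz.ne, mul_one]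
  rcases a3.eventually_constant_or_nhds_le_map_nhds with hc | hc
  · exfalso
    have ht : ∀ᶠ w in 𝓝 z, gc (U (e₂ ν)) w = x * gc (U (e₁ ν)) w := by
      filter_upwards [hc, a1.continuousAt.eventually_ne hz.ne] with w hw1 hw2
      rw [hx'] at hw1
      rw [← hw1, div_mul_cancel₀ _ hw2]
    obtain ⟨κ, b, s, -, hxs, hs, -⟩ := hB.half_of_ratio hm hz.pos hz.eq hz.pos₁ ht
    rw [mem_Cut, hxs, ofReal_re, ofReal_im] at hx
    rcases hx with hx | hx
    · linarith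
    · exact hx rfl
  · rw [hx'] at hc
    apply hc
    rw [mem_map]
    have h1 : Tendsto (fun w => gc (U (e₂ ν)) w / gc (U (e₁ ν)) w) (𝓝 z) (𝓝 x) := by
      rw [← hx']
      exact a3.continuousAt
    filter_upwards [hz.nhds hB, h1.eventually (Cut_open.mem_nhds hx)] with w hw1 hw2
    exact ⟨hw2, U, hU, w, hw1, (div_mul_cancel₀ _ hw1.ne).symm⟩

/-- normalisation: the value is attained at `0`, and the ball of radius `1` is free of zeros, with a zero on the boundary -/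
theorem LiouA.normalise {𝓤 : Set (ι → ℂ → ℝ)} (h : BlowFam Q m e₁ e₂ c C 𝓤) {ν : Cr} {x : ℂ} (hx : x ∈ RR Q m e₁ e₂ ν 𝓤) :
    ∃ V ∈ 𝓤, (∀ w ∈ ball (0 : ℂ) 1, 0 < tot V w) ∧ (∃ z, ‖z‖ ≤ 1 ∧ tot V z = 0) ∧ (∀ i, i ≠ e₁ ν → i ≠ e₂ ν → V i 0 = 0) ∧
      (∀ w ∈ ball (0 : ℂ) 1, ‖hp (Q ν) m (gc (V (e₁ ν)) w) (gc (V (e₂ ν)) w)‖ = 1) ∧ gc (V (e₂ ν)) 0 = x * gc (V (e₁ ν)) 0 := by
  obtain ⟨-, U, hU, z, hz, hxe⟩ := hx
  have hB := h.blow U hU
  set Z : Set ℂ := {z | tot U z = 0} with hZ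
  have hZc : IsClosed Z := isClosed_eq hB.cont_tot continuous_const
  have hZn : Z.Nonempty := hB.zero
  obtain ⟨ζ, hζ, hd⟩ := hZc.exists_infDist_eq_dist hZn z
  set r : ℝ := infDist z Z with hr
  have hr0 : 0 < r := by
    rw [← hZc.notMem_iff_infDist_pos hZn]
    intro h0
    have : tot U z = 0 := h0
    exact hz.pos.ne' this
  have hfree : ∀ w ∈ ball z r, 0 < tot U w := by
    intro w hw
    refine lt_of_le_of_ne (hB.tot_nonneg w) fun h0 => ?_
    have h1 : infDist z Z ≤ dist z w := infDist_le_dist_of_mem h0.symm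
    rw [mem_ball, dist_comm] at hw
    linarith
  set V : ι → ℂ → ℝ := fun i w => U i (z + r * w) / r with hV
  have hVU : V ∈ 𝓤 := h.trans U hU z r hr0
  have htot : ∀ w, tot V w = tot U (z + r * w) / r := by
    intro w
    unfold tot
    rw [Finset.sum_div]
  have hball : ∀ w ∈ ball (0 : ℂ) 1, z + r * w ∈ ball z r := by
    intro w hw
    rw [mem_ball, dist_eq_norm, add_sub_cancel_left, norm_mul, norm_real, Real.norm_of_nonneg hr0.le]
    rw [mem_ball, dist_zero_right] at hw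
    nlinarith
  have hcomp : ball z r ⊆ comp U z :=
    IsPreconnected.subset_connectedComponentIn (convex_ball z r).isPreconnected (mem_ball_self hr0) hfree
  have hgc : ∀ i, ∀ w ∈ ball (0 : ℂ) 1, gc (V i) w = gc (U i) (z + r * w) := by
    intro i w hw
    exact gc_scale hr0 (SDR.HarmonicAt.differentiableAt' (hB.harm _ (hfree _ (hball w hw)) i))
  have h0 : (0 : ℂ) ∈ ball (0 : ℂ) 1 := mem_ball_self one_pos
  refine ⟨V, hVU, ?_, ?_, ?_, ?_, ?_⟩
  · intro w hw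
    rw [htot]
    exact div_pos (hfree _ (hball w hw)) hr0
  · refine ⟨(ζ - z) / r, ?_, ?_⟩
    · rw [norm_div, norm_real, Real.norm_of_nonneg hr0.le, ← dist_eq_norm, dist_comm, ← hd, div_self hr0.ne']
    · rw [htot]
      have hr1 : (r : ℂ) ≠ 0 := by exact_mod_cast hr0.ne'
      have e : z + r * ((ζ - z) / r) = ζ := by field_simp; ring
      rw [e]
      have : tot U ζ = 0 := hζ
      rw [this, zero_div]
  · intro i h1 h2
    show U i (z + r * 0) / r = 0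
    rw [mul_zero, add_zero, hz.zero i h1 h2, zero_div]
  · intro w hw
    rw [hgc _ w hw, hgc _ w hw]
    exact hB.norm_hp (hB.mem_comp hz.pos) hz.eq _ (hcomp (hball w hw))
  · rw [hgc _ 0 h0, hgc _ 0 h0, mul_zero, add_zero]
    exact hxe

theorem LiouA.closed_RR {𝓤 : Set (ι → ℂ → ℝ)} (h : BlowFam Q m e₁ e₂ c C 𝓤) (hm : 1 ≤ m) (hc : 0 < c) (ν : Cr) :
    ∀ x ∈ closure (RR Q m e₁ e₂ ν 𝓤), x ∈ Cut → x ∈ RR Q m e₁ e₂ ν 𝓤 := by
  intro x hx hxC
  obtain ⟨y, hy, hyx⟩ := mem_closure_iff_seq_limit.1 hx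
  choose V hV hVpos hVzero hVtyp hVeq hVr using fun n => normalise h (hy n)
  obtain ⟨φ, W, hφ, hW, hlim⟩ := h.cpt V hV hVzero
  have hB := h.blow W hW
  have hBn : ∀ n, Blow Q m e₁ e₂ c C (V n) := fun n => h.blow _ (hV n)
  have hpt : ∀ i w, Tendsto (fun n => V (φ n) i w) atTop (𝓝 (W i w)) := fun i w =>
    ((tendstoLocallyUniformly_iff_forall_isCompact.1 (hlim i)) {w} isCompact_singleton).tendsto_at (Set.mem_singleton w)
  have hptt : ∀ w, Tendsto (fun n => tot (V (φ n)) w) atTop (𝓝 (tot W w)) := fun w => tendsto_finsetSum _ fun i _ => hpt i w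
  -- the limit is positive on the ball
  have hWpos : ∀ w ∈ ball (0 : ℂ) 1, 0 < tot W w := by
    intro w hw
    have hw' : 0 < 1 - ‖w‖ := by
      rw [mem_ball, dist_zero_right] at hw
      linarith
    have h1 : ∀ n, c * (1 - ‖w‖) ≤ tot (V (φ n)) w := by
      intro n
      apply (hBn _).low w _ hw'
      intro v hv
      apply hVpos
      rw [mem_ball, dist_zero_right]
      rw [mem_ball, dist_eq_norm] at hv
      have := norm_le_norm_add_norm_sub' v w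
      linarith
    have h2 := ge_of_tendsto' (hptt w) h1
    have : 0 < c * (1 - ‖w‖) := by positivity
    linarith
  have hWh : ∀ i, HarmonicOnNhd (W i) (ball 0 1) := fun i w hw => hB.harm w (hWpos w hw) i
  have hVh : ∀ n i, HarmonicOnNhd (V n i) (ball 0 1) := fun n i w hw => (hBn n).harm w (hVpos n w hw) i
  -- convergence of the gradients
  have hgc : ∀ i, ∀ w ∈ ball (0 : ℂ) 1, Tendsto (fun n => gc (V (φ n) i) w) atTop (𝓝 (gc (W i) w)) := by
    intro i w hw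
    rw [mem_ball, dist_zero_right] at hw
    set r : ℝ := (1 - ‖w‖) / 2 with hr
    have hr0 : 0 < r := by rw [hr]; linarith
    have hsub : ball w r ⊆ ball (0 : ℂ) 1 := by
      intro v hv
      rw [mem_ball, dist_zero_right]
      rw [mem_ball, dist_eq_norm] at hv
      have := norm_le_norm_add_norm_sub' v w
      rw [hr] at hv
      linarith
    apply gc_lim hr0 (Eventually.of_forall fun n v hv => hVh _ i v (hsub hv)) (fun v hv => hWh i v (hsub hv))
    intro ε hε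
    have h1 : TendstoUniformlyOn (fun n => V (φ n) i) (W i) atTop (closedBall w r) :=
      (tendstoLocallyUniformly_iff_forall_isCompact.1 (hlim i)) _ (isCompact_closedBall w r)
    filter_upwards [Metric.tendstoUniformlyOn_iff.1 h1 ε hε] with n hn z hz
    have := hn z (ball_subset_closedBall hz)
    rw [dist_comm, Real.dist_eq] at this
    exact this.le
  have h0 : (0 : ℂ) ∈ ball (0 : ℂ) 1 := mem_ball_self one_pos
  have heq : ∀ w ∈ ball (0 : ℂ) 1, ‖hp (Q ν) m (gc (W (e₁ ν)) w) (gc (W (e₂ ν)) w)‖ = 1 := by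
    intro w hw
    have h1 : Tendsto (fun n => ‖hp (Q ν) m (gc (V (φ n) (e₁ ν)) w) (gc (V (φ n) (e₂ ν)) w)‖) atTop
        (𝓝 ‖hp (Q ν) m (gc (W (e₁ ν)) w) (gc (W (e₂ ν)) w)‖) := by
      have h2 := ((continuous_hp (Q ν) m).tendsto (gc (W (e₁ ν)) w, gc (W (e₂ ν)) w)).comp ((hgc (e₁ ν) w hw).prodMk_nhds (hgc (e₂ ν) w hw))
      exact h2.norm
    refine tendsto_nhds_unique h1 ?_
    have h2 : (fun n => ‖hp (Q ν) m (gc (V (φ n) (e₁ ν)) w) (gc (V (φ n) (e₂ ν)) w)‖) = fun _ => 1 := funext fun n => hVeq (φ n) w hw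
    rw [h2]
    exact tendsto_const_nhds
  have hratio : gc (W (e₂ ν)) 0 = x * gc (W (e₁ ν)) 0 := by
    have h1 : Tendsto (fun n => gc (V (φ n) (e₂ ν)) 0) atTop (𝓝 (x * gc (W (e₁ ν)) 0)) := by
      have h2 : (fun n => gc (V (φ n) (e₂ ν)) 0) = fun n => y (φ n) * gc (V (φ n) (e₁ ν)) 0 := funext fun n => hVr (φ n)
      rw [h2]
      exact (hyx.comp hφ.tendsto_atTop).mul (hgc _ 0 h0)
    exact tendsto_nhds_unique (hgc _ 0 h0) h1
  have hne : gc (W (e₁ ν)) 0 ≠ 0 := by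
    intro h1
    have h2 := heq 0 h0
    rw [hratio, h1, mul_zero, hp_zero _ hm, norm_zero] at h2
    exact zero_ne_one h2
  have hW0 : 0 < tot W 0 := hWpos 0 h0
  have hzc : (0 : ℂ) ∈ comp W 0 := hB.mem_comp hW0
  -- a function which vanishes on the component has gradient zero
  have hgz : ∀ i, (∀ z ∈ comp W 0, W i z = 0) → gc (W i) 0 = 0 := by
    intro i hi
    have h1 : W i =ᶠ[𝓝 0] fun _ => (0 : ℝ) := by
      filter_upwards [(hB.isOpen_comp 0).mem_nhds hzc] with w hw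
      exact hi w hw
    rw [gc_congr h1]
    unfold gc
    simp
  have hp1 : 0 < W (e₁ ν) 0 := by
    rcases hB.zero_or_pos 0 (e₁ ν) with h1 | h1
    · exact absurd (hgz _ h1) hne
    · exact h1 0 hzc
  have hp2 : 0 < W (e₂ ν) 0 := by
    rcases hB.zero_or_pos 0 (e₂ ν) with h1 | h1
    · exfalso
      rw [hgz _ h1] at hratio
      have h2 : x = 0 := by
        rcases mul_eq_zero.1 hratio.symm with h3 | h3
        · exact h3
        · exact absurd h3 hne
      rw [mem_Cut, h2] at hxC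
      simp at hxC
    · exact h1 0 hzc
  refine ⟨hxC, W, hW, 0, ⟨hW0, ?_, ?_, hp1, hp2, hne⟩, hratio⟩
  · intro i hi1 hi2
    refine tendsto_nhds_unique (hpt i 0) ?_
    have h2 : (fun n => V (φ n) i 0) = fun _ => 0 := funext fun n => hVtyp (φ n) i hi1 hi2
    rw [h2]
    exact tendsto_const_nhds
  · filter_upwards [ball_mem_nhds (0 : ℂ) one_pos] with w hw
    exact heq w hw

theorem LiouA.RR_empty {𝓤 : Set (ι → ℂ → ℝ)} (h : BlowFam Q m e₁ e₂ c C 𝓤) (hm : 1 ≤ m) (hc : 0 < c) (ν : Cr) : RR Q m e₁ e₂ ν 𝓤 = ∅ := by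
  set f : Polynomial ℂ := ∑ l ∈ Finset.range (m + 1), Polynomial.C (Q ν l) * Polynomial.X ^ l with hf
  have hfe : ∀ x, f.eval x = hp (Q ν) m 1 x := by
    intro x
    rw [hf, Polynomial.eval_finsetSum]
    unfold hp
    apply Finset.sum_congr rfl
    intro l _
    simp
  refine eq_empty_of_open_closed (C := C) (C' := C) (f := f) (fun x hx => hx.1) (isOpen_RR h hm ν) (closed_RR h hm hc ν) hm ?_
  rintro x ⟨-, U, hU, z, hz, hxe⟩
  have hB := h.blow U hU
  refine ⟨‖gc (U (e₁ ν)) z‖, norm_nonneg _, hB.bd z hz.pos _, ?_, ?_⟩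
  · rw [mul_comm, ← norm_mul, ← hxe]
    exact hB.bd z hz.pos _
  · have h1 := hz.eq.self_of_nhds
    rw [hxe] at h1
    have e : hp (Q ν) m (gc (U (e₁ ν)) z) (x * gc (U (e₁ ν)) z) = gc (U (e₁ ν)) z ^ m * hp (Q ν) m 1 x := by
      rw [← hp_smul, mul_one, mul_comm x]
    rw [e, norm_mul, norm_pow, mul_comm] at h1
    rw [hfe]
    exact h1

/-- **The ratio of the gradients is in `[0, ∞)`.** -/
theorem ratio_notMem_Cut {𝓤 : Set (ι → ℂ → ℝ)} (h : BlowFam Q m e₁ e₂ c C 𝓤) (hm : 1 ≤ m) (hc : 0 < c) {U : ι → ℂ → ℝ} (hU : U ∈ 𝓤) {z : ℂ} {ν : Cr}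
    (hz : 0 < tot U z) (h0 : ∀ i, i ≠ e₁ ν → i ≠ e₂ ν → U i z = 0)
    (hk : ∀ᶠ w in 𝓝 z, ‖hp (Q ν) m (gc (U (e₁ ν)) w) (gc (U (e₂ ν)) w)‖ = 1) (h1 : 0 < U (e₁ ν) z) (h2 : 0 < U (e₂ ν) z)
    (hne : gc (U (e₁ ν)) z ≠ 0) : gc (U (e₂ ν)) z / gc (U (e₁ ν)) z ∉ Cut := by
  intro hcut
  have : gc (U (e₂ ν)) z / gc (U (e₁ ν)) z ∈ LiouA.RR Q m e₁ e₂ ν 𝓤 :=
    ⟨hcut, U, hU, z, ⟨hz, h0, hk, h1, h2, hne⟩, (div_mul_cancel₀ _ hne).symm⟩
  rw [LiouA.RR_empty h hm hc ν] at this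
  exact this

end Pool.Agent.SR3

end
end

section

/-!
# SR3 LiouB: from real ratios to lines
-/

set_option autoImplicit false

open Metric Topology Filter MvPolynomial InnerProductSpace

noncomputable section

namespace Pool.Agent.SR3

open Pool.Agent.SDR (gc hp tot Blow BlowFam comp analyticAt_gc)

variable {ι : Type} [Fintype ι] {Cr : Type} {Q : Cr → ℕ → ℂ} {m : ℕ} {e₁ e₂ : Cr → ι} {c C : ℝ} {U : ι → ℂ → ℝ}

/-- the polynomial with the variables exchanged -/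
def rev (Q : Cr → ℕ → ℂ) (m : ℕ) (ν : Cr) (l : ℕ) : ℂ := Q ν (m - l)

theorem hp_rev (Q : Cr → ℕ → ℂ) (m : ℕ) (ν : Cr) (x y : ℂ) : hp (rev Q m ν) m y x = hp (Q ν) m x y := by
  unfold hp rev
  rw [← Finset.sum_range_reflect]
  apply Finset.sum_congr rfl
  intro l hl
  have hl' : l ≤ m := Nat.lt_succ_iff.1 (Finset.mem_range.1 hl)
  have e1 : m + 1 - 1 - l = m - l := by omega
  have e2 : m - (m - l) = l := by omega
  rw [e1, e2]
  ring

theorem Blow.swap (h : Blow Q m e₁ e₂ c C U) : Blow (rev Q m) m e₂ e₁ c C U where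
  cont := h.cont
  nonneg := h.nonneg
  zero := h.zero
  thin := h.thin
  low := h.low
  harm := h.harm
  bd := h.bd
  type := fun z hz => by
    obtain ⟨ν, h1, h2⟩ := h.type z hz
    refine ⟨ν, fun i h3 h4 => h1 i h4 h3, ?_⟩
    filter_upwards [h2] with w hw
    rw [hp_rev]
    exact hw

/-- every component is a half plane, on which the functions are multiples of one affine function -/
theorem comp_half (h : Blow Q m e₁ e₂ c C U) (hm : 1 ≤ m)
    (hr : ∀ (z : ℂ) (ν : Cr), 0 < tot U z → (∀ i, i ≠ e₁ ν → i ≠ e₂ ν → U i z = 0) →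
      (∀ᶠ w in 𝓝 z, ‖hp (Q ν) m (gc (U (e₁ ν)) w) (gc (U (e₂ ν)) w)‖ = 1) → 0 < U (e₁ ν) z → 0 < U (e₂ ν) z →
      gc (U (e₁ ν)) z ≠ 0 → gc (U (e₂ ν)) z / gc (U (e₁ ν)) z ∉ Cut) {z₀ : ℂ} (hz₀ : 0 < tot U z₀) :
    ∃ (κ : ℂ) (b : ℝ) (β : ι → ℝ), κ ≠ 0 ∧ comp U z₀ = HP κ b ∧ (∀ i, 0 ≤ β i) ∧ ∀ i, ∀ z ∈ comp U z₀, U i z = β i * ((κ * z).re + b) := by
  classical
  obtain ⟨ν, h1, h2⟩ := h.type z₀ hz₀
  have hmem : z₀ ∈ comp U z₀ := h.mem_comp hz₀
  -- the others vanish on the component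
  have h3 : ∀ i, i ≠ e₁ ν → i ≠ e₂ ν → ∀ z ∈ comp U z₀, U i z = 0 := by
    intro i hi1 hi2
    rcases h.zero_or_pos z₀ i with h4 | h4
    · exact h4
    · have := h4 z₀ hmem
      rw [h1 i hi1 hi2] at this
      exact absurd this (lt_irrefl _)
  -- a function which vanishes on the component has gradient zero
  have hg0 : ∀ i, (∀ z ∈ comp U z₀, U i z = 0) → ∀ z ∈ comp U z₀, gc (U i) z = 0 := by
    intro i hi z hz
    have h5 : U i =ᶠ[𝓝 z] fun _ => (0 : ℝ) := by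
      filter_upwards [(h.isOpen_comp z₀).eventually_mem hz] with w hw
      exact hi w hw
    rw [Pool.Agent.SDR.gc_congr h5]
    unfold gc
    simp
  -- conclusion from `half_of_ratio`
  have fin : ∀ (i j : ι) (κ : ℂ) (b s : ℝ), κ ≠ 0 → 0 ≤ s → comp U z₀ = {z | 0 < (κ * z).re + b} → (∀ k, k ≠ i → k ≠ j → ∀ z ∈ comp U z₀, U k z = 0) →
      (∀ z ∈ comp U z₀, U i z = (κ * z).re + b) → (∀ z ∈ comp U z₀, U j z = s * ((κ * z).re + b)) →
      ∃ (κ : ℂ) (b : ℝ) (β : ι → ℝ), κ ≠ 0 ∧ comp U z₀ = HP κ b ∧ (∀ i, 0 ≤ β i) ∧ ∀ i, ∀ z ∈ comp U z₀, U i z = β i * ((κ * z).re + b) := by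
    intro i j κ b s hκ hs hcomp hk hi hj
    refine ⟨κ, b, fun k => if k = i then 1 else if k = j then s else 0, hκ, hcomp, fun k => ?_, fun k z hz => ?_⟩
    · show 0 ≤ (if k = i then (1 : ℝ) else if k = j then s else 0)
      split_ifs
      · exact zero_le_one
      · exact hs
      · exact le_rfl
    · by_cases hki : k = i
      · subst hki
        simp [hi z hz]
      · by_cases hkj : k = j
        · subst hkj
          simp [hki, hj z hz]
        · simp [hki, hkj, hk k hki hkj z hz]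
  rcases h.zero_or_pos z₀ (e₁ ν) with hz1 | hp1
  · -- `U (e₁ ν) = 0`
    have hp2 : 0 < U (e₂ ν) z₀ := by
      rcases h.zero_or_pos z₀ (e₂ ν) with hz2 | hp2
      · exfalso
        have : tot U z₀ = 0 := by
          unfold tot
          apply Finset.sum_eq_zero
          intro i _
          by_cases hi1 : i = e₁ ν
          · rw [hi1]; exact hz1 z₀ hmem
          · by_cases hi2 : i = e₂ ν
            · rw [hi2]; exact hz2 z₀ hmem
            · exact h1 i hi1 hi2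
        linarith
      · exact hp2 z₀ hmem
    have h6 : ∀ᶠ w in 𝓝 z₀, ‖hp (rev Q m ν) m (gc (U (e₂ ν)) w) (gc (U (e₁ ν)) w)‖ = 1 := by
      filter_upwards [h2] with w hw
      rw [hp_rev]
      exact hw
    have h7 : ∀ᶠ w in 𝓝 z₀, gc (U (e₁ ν)) w = 0 * gc (U (e₂ ν)) w := by
      filter_upwards [(h.isOpen_comp z₀).eventually_mem hmem] with w hw
      rw [zero_mul]
      exact hg0 _ hz1 w hw
    obtain ⟨κ, b, s, hκ, -, hs, hcomp, hU2, hU1⟩ := (Blow.swap h).half_of_ratio hm hz₀ h6 hp2 h7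
    exact fin (e₂ ν) (e₁ ν) κ b s hκ hs hcomp (fun k hk1 hk2 => h3 k hk2 hk1) hU2 hU1
  · have h1' : 0 < U (e₁ ν) z₀ := hp1 z₀ hmem
    have key : ∃ t : ℂ, ∀ᶠ w in 𝓝 z₀, gc (U (e₂ ν)) w = t * gc (U (e₁ ν)) w := by
      rcases h.zero_or_pos z₀ (e₂ ν) with hz2 | hp2
      · refine ⟨0, ?_⟩
        filter_upwards [(h.isOpen_comp z₀).eventually_mem hmem] with w hw
        rw [zero_mul]
        exact hg0 _ hz2 w hw
      · -- the gradient of `U (e₁ ν)` is not zero everywhere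
        have hex : ∃ z₁ ∈ comp U z₀, gc (U (e₁ ν)) z₁ ≠ 0 := by
          by_contra hcon
          push Not at hcon
          obtain ⟨z₂, hz₂, hz₂'⟩ := h.exists_boundary hz₀
          have hH : HarmonicOnNhd (U (e₁ ν)) (comp U z₀) := fun z hz => h.harm z (h.pos_of_comp hz) _
          have ha := Pool.Agent.SDR.affine_of_gc (h.isOpen_comp z₀) (Blow.pre_comp U z₀) hH hcon hmem
          have hcl : IsClosed {z | U (e₁ ν) z = U (e₁ ν) z₀} := isClosed_eq (h.cont _) continuous_const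
          have h8 : U (e₁ ν) z₂ = U (e₁ ν) z₀ := by
            refine hcl.closure_subset_iff.2 (fun w hw => ?_) hz₂
            show U (e₁ ν) w = U (e₁ ν) z₀
            rw [ha w hw, zero_mul, Complex.zero_re, add_zero]
          rw [h.eq_zero (h.zero_of_boundary hz₂ hz₂')] at h8
          linarith
        obtain ⟨z₁, hz₁, hne⟩ := hex
        have hn := h.norm_hp hmem h2
        obtain ⟨t, -, ht⟩ := exists_ratio (h.isOpen_comp z₀) (Blow.pre_comp U z₀) (g₁ := gc (U (e₁ ν))) (g₂ := gc (U (e₂ ν)))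
          (fun z hz => (h.analytic_gc hz _).differentiableAt.differentiableWithinAt)
          (fun z hz => (h.analytic_gc hz _).differentiableAt.differentiableWithinAt) hz₁ hne (by
            intro z hz hz'
            refine hr z ν (h.pos_of_comp hz) (fun i hi1 hi2 => h3 i hi1 hi2 z hz) ?_ (hp1 z hz) (hp2 z hz) hz'
            filter_upwards [(h.isOpen_comp z₀).eventually_mem hz] with w hw
            exact hn w hw)
        refine ⟨t, ?_⟩
        filter_upwards [(h.isOpen_comp z₀).eventually_mem hmem] with w hw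
        exact ht w hw
    obtain ⟨t, ht⟩ := key
    obtain ⟨κ, b, s, hκ, -, hs, hcomp, hU1, hU2⟩ := h.half_of_ratio hm hz₀ h2 h1' ht
    exact fin (e₁ ν) (e₂ ν) κ b s hκ hs hcomp h3 hU1 hU2

/-- Two half planes which are equal. -/
theorem HP_eq {κ u : ℂ} {b b' : ℝ} (hκ : κ ≠ 0) (hu : u ≠ 0) (h : HP κ b = HP u b') : ∃ t : ℝ, 0 < t ∧ ∀ z, (κ * z).re + b = t * ((u * z).re + b') := by
  have hneg : ∀ (a : ℂ) (d : ℝ) (w : ℂ), w ∈ HP (-a) (-d) → w ∉ HP a d := by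
    intro a d w hw hw'
    simp only [HP, Set.mem_ofPred_eq, neg_mul, Complex.neg_re] at hw hw'
    linarith
  obtain ⟨t, ht, h1, h2⟩ := parallel (a := -u) (b := -b') (c := κ) (d := b) (neg_ne_zero.2 hu) hκ (fun w hw hw' => by
    rw [h] at hw
    exact hneg u b' w hw' hw)
  obtain ⟨t', ht', h3, h4⟩ := parallel (a := -κ) (b := -b) (c := u) (d := b') (neg_ne_zero.2 hκ) hu (fun w hw hw' => by
    rw [← h] at hw
    exact hneg κ b w hw' hw)
  have e1 : κ = (t : ℂ) * u := by rw [h1, Complex.real_smul]; ring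
  have e2 : u = (t' : ℂ) * κ := by rw [h3, Complex.real_smul]; ring
  have e3 : t' * t = 1 := by
    have h5 : (t : ℂ) * (t' : ℂ) * κ = 1 * κ := by
      rw [mul_assoc, ← e2, ← e1, one_mul]
    have h6 := mul_right_cancel₀ hκ h5
    have h7 : ((t * t' : ℝ) : ℂ) = ((1 : ℝ) : ℂ) := by push_cast; exact h6
    have h8 : t * t' = 1 := by exact_mod_cast h7
    linarith
  refine ⟨t, ht, fun z => ?_⟩
  have e4 : b = t * b' := by
    have h5 : b ≤ t * b' := by linarith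
    have h6 : t * b' ≤ t * (t' * b) := mul_le_mul_of_nonneg_left (by linarith) ht.le
    have h7 : t * (t' * b) = b := by rw [← mul_assoc, mul_comm t, e3, one_mul]
    linarith
  rw [e4, e1, mul_assoc, Complex.re_ofReal_mul]
  ring

/-- **From real ratios to a line.** -/
theorem blow_lin_of_ratio (h : Blow Q m e₁ e₂ c C U) (hm : 1 ≤ m)
    (hr : ∀ (z : ℂ) (ν : Cr), 0 < tot U z → (∀ i, i ≠ e₁ ν → i ≠ e₂ ν → U i z = 0) →
      (∀ᶠ w in 𝓝 z, ‖hp (Q ν) m (gc (U (e₁ ν)) w) (gc (U (e₂ ν)) w)‖ = 1) → 0 < U (e₁ ν) z → 0 < U (e₂ ν) z →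
      gc (U (e₁ ν)) z ≠ 0 → gc (U (e₂ ν)) z / gc (U (e₁ ν)) z ∉ Cut) :
    ∃ (u : ℂ) (b : ℝ) (β γ : ι → ℝ), Lin u b β γ U := by
  have hcomp := fun z hz => comp_half h hm hr (z₀ := z) hz
  obtain ⟨u, b, hu1, hu⟩ := line_of_half_planes h.cont_tot h.tot_nonneg h.zero (by
      intro z r hr
      by_contra hcon
      push Not at hcon
      have h1 : z ∈ interior {z | tot U z = 0} := by
        rw [mem_interior]
        refine ⟨ball z r, fun w hw => ?_, isOpen_ball, mem_ball_self hr⟩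
        exact le_antisymm (hcon w hw) (h.tot_nonneg w)
      rw [h.thin] at h1
      exact h1) (by
      intro z hz
      obtain ⟨κ, b, β, hκ, hc, -⟩ := hcomp z hz
      exact ⟨κ, b, hκ, hc⟩)
  have hu0 : u ≠ 0 := by
    intro h0
    rw [h0, norm_zero] at hu1
    exact zero_ne_one hu1
  -- one side
  have side : ∀ (v : ℂ) (d : ℝ), v ≠ 0 → (∀ z, tot U z = 0 ↔ (v * z).re + d = 0) → ∃ β : ι → ℝ, (∀ i, 0 ≤ β i) ∧
      ∀ i z, 0 ≤ (v * z).re + d → U i z = β i * ((v * z).re + d) := by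
    intro v d hv hvd
    -- a point of the side
    set p : ℂ := ((-d + 1 : ℝ) : ℂ) / v with hp
    have hp1 : (v * p).re + d = 1 := by rw [hp, mul_div_cancel₀ _ hv, Complex.ofReal_re]; ring
    have hpm : p ∈ HP v d := by simp only [HP, Set.mem_ofPred_eq]; rw [hp1]; exact one_pos
    have hpos : ∀ z, (v * z).re + d ≠ 0 → 0 < tot U z := fun z hz => lt_of_le_of_ne (h.tot_nonneg z) fun h0 => hz ((hvd z).1 h0.symm)
    have hpp : 0 < tot U p := hpos p (by rw [hp1]; exact one_ne_zero)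
    obtain ⟨κ, b', β, hκ, hc, hβ, hUβ⟩ := hcomp p hpp
    have heq : HP κ b' = HP v d := by
      rw [← hc]
      apply Set.Subset.antisymm
      · refine IsPreconnected.subset_left_of_subset_union (v := HP (-v) (-d)) (HP_open v d) (HP_open _ _) ?_ ?_ ⟨p, h.mem_comp hpp, hpm⟩ (Blow.pre_comp U p)
        · rw [Set.disjoint_left]
          intro w hw hw'
          simp only [HP, Set.mem_ofPred_eq, neg_mul, Complex.neg_re] at hw hw'
          linarith
        · intro w hw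
          have h1 : (v * w).re + d ≠ 0 := fun h0 => by
            have := h.pos_of_comp hw
            rw [(hvd w).2 h0] at this
            exact lt_irrefl _ this
          rcases lt_or_gt_of_ne h1 with h2 | h2
          · right
            simp only [HP, Set.mem_ofPred_eq, neg_mul, Complex.neg_re]
            linarith
          · exact Or.inl h2
      · refine IsPreconnected.subset_connectedComponentIn (HP_convex v d).isPreconnected hpm fun w hw => ?_
        have hw' : 0 < (v * w).re + d := hw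
        exact hpos w hw'.ne'
    obtain ⟨t, ht, hk⟩ := HP_eq hκ hv heq
    refine ⟨fun i => β i * t, fun i => mul_nonneg (hβ i) ht.le, fun i z hz => ?_⟩
    rcases hz.lt_or_eq with h2 | h2
    · have h3 : z ∈ comp U p := by rw [hc, heq]; exact h2
      rw [hUβ i z h3, hk z]
      ring
    · rw [← h2, mul_zero]
      exact h.eq_zero ((hvd z).2 h2.symm) i
  obtain ⟨β, hβ, hUβ⟩ := side u b hu0 hu
  obtain ⟨γ, hγ, hUγ⟩ := side (-u) (-b) (neg_ne_zero.2 hu0) (by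
    intro z
    rw [hu z, neg_mul, Complex.neg_re]
    constructor
    · intro h0; linarith
    · intro h0; linarith)
  refine ⟨(starRingEnd ℂ) u, -b, β, γ, ?_, hβ, hγ, ?_, ?_⟩
  · rw [RCLike.norm_conj]; exact hu1
  · intro i z hz
    replace hz : -b ≤ ((starRingEnd ℂ) ((starRingEnd ℂ) u) * z).re := hz
    show U i z = β i * (((starRingEnd ℂ) ((starRingEnd ℂ) u) * z).re - -b)
    rw [Complex.conj_conj] at hz ⊢
    rw [hUβ i z (by linarith)]
    ring
  · intro i z hz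
    replace hz : ((starRingEnd ℂ) ((starRingEnd ℂ) u) * z).re ≤ -b := hz
    show U i z = γ i * (-b - ((starRingEnd ℂ) ((starRingEnd ℂ) u) * z).re)
    rw [Complex.conj_conj] at hz ⊢
    have h1 : 0 ≤ (-u * z).re + -b := by rw [neg_mul, Complex.neg_re]; linarith
    rw [hUγ i z h1, neg_mul, Complex.neg_re]
    ring

end Pool.Agent.SR3

end
end

section

/-!
# SR3 LiouF: Liouville's theorem for a family of blow-downs
-/

set_option autoImplicit false

open Metric Topology Filter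

noncomputable section

namespace Pool.Agent.SR3

open Pool.Agent.SDR (gc hp tot Blow BlowFam)

variable {ι : Type} [Fintype ι]

theorem blow_lin {Cr : Type} {Q : Cr → ℕ → ℂ} {m : ℕ} {e₁ e₂ : Cr → ι} {c C : ℝ} {𝓤 : Set (ι → ℂ → ℝ)} (h : BlowFam Q m e₁ e₂ c C 𝓤)
    (hm : 1 ≤ m) (hc : 0 < c) {U : ι → ℂ → ℝ} (hU : U ∈ 𝓤) : ∃ (u : ℂ) (b : ℝ) (β γ : ι → ℝ), Lin u b β γ U :=
  blow_lin_of_ratio (h.blow U hU) hm fun _ _ hz h0 hk h1 h2 hne => ratio_notMem_Cut h hm hc hU hz h0 hk h1 h2 hne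

end Pool.Agent.SR3

end
end

section

/-!
# SR3 Bas: elementary facts on `lam i` along curves
-/

set_option autoImplicit false

open Topology Filter Metric Set

noncomputable section

namespace Pool.Agent.SR3

open Pool.Agent.H36.BP (EN fs fs_nonneg)
open Pool.Agent.H14.PP (IsCone Tan)

variable {N : ℕ} {G : Geo N}

theorem Geo.Ok.ne_zero (hG : G.Ok) {x : EN N} (hx : x ∈ G.K) : x ≠ 0 := by
  intro h
  have h1 := ((hG.aff.mem x).1 hx).1
  exact hG.cone.zero_notMem (h ▸ h1)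

/-- a homogeneous continuous map is bounded by the power of the norm -/
theorem bas_hom {W : Type} [NormedAddCommGroup W] [NormedSpace ℂ W] {f : EN N → W} (hf : Continuous f) {c : ℕ}
    (hs : ∀ (t : ℂ) (x : EN N), f (t • x) = t ^ c • f x) : ∃ C : ℝ, 1 ≤ C ∧ ∀ x : EN N, x ≠ 0 → ‖f x‖ ≤ C * ‖x‖ ^ c := by
  obtain ⟨C, hC⟩ := (isCompact_sphere (0 : EN N) 1).exists_bound_of_continuousOn hf.continuousOn
  refine ⟨max C 1, le_max_right _ _, fun x hx => ?_⟩
  have hx' : ‖x‖ ≠ 0 := norm_ne_zero_iff.2 hx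
  have hx0 : ((‖x‖ : ℝ) : ℂ) ≠ 0 := by exact_mod_cast hx'
  have h1 : x = ((‖x‖ : ℝ) : ℂ) • (((‖x‖ : ℝ) : ℂ)⁻¹ • x) := by rw [smul_smul, mul_inv_cancel₀ hx0, one_smul]
  have h2 : ((‖x‖ : ℝ) : ℂ)⁻¹ • x ∈ sphere (0 : EN N) 1 := by
    rw [mem_sphere_zero_iff_norm, norm_smul, norm_inv, Complex.norm_real, norm_norm, inv_mul_cancel₀ hx']
  calc ‖f x‖ = ‖f (((‖x‖ : ℝ) : ℂ) • (((‖x‖ : ℝ) : ℂ)⁻¹ • x))‖ := by rw [← h1]
    _ = ‖x‖ ^ c * ‖f (((‖x‖ : ℝ) : ℂ)⁻¹ • x)‖ := by rw [hs, norm_smul, norm_pow, Complex.norm_real, norm_norm]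
    _ ≤ ‖x‖ ^ c * max C 1 := mul_le_mul_of_nonneg_left ((hC _ h2).trans (le_max_left _ _)) (by positivity)
    _ = max C 1 * ‖x‖ ^ c := mul_comm _ _

theorem Geo.Ok.contE (hG : G.Ok) (i : G.ι) : Continuous (G.E i) :=
  continuous_iff_continuousAt.2 fun x => (hG.anE i x).continuousAt

theorem lam_lower (hG : G.Ok) : ∃ B : ℝ, ∀ i, ∀ x ∈ G.K, -B ≤ G.lam i x := by
  choose C hC1 hC using fun i => bas_hom (hG.contE i) (hG.smulE i)
  refine ⟨∑ i, Real.log (C i), fun i x hx => ?_⟩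
  have hx0 := hG.ne_zero hx
  have hx' : 0 < ‖x‖ := norm_pos_iff.2 hx0
  have hE : 0 < ‖G.E i x‖ := norm_pos_iff.2 (hG.neE i x hx)
  have h1 := Real.log_le_log hE (hC i x hx0)
  rw [Real.log_mul (by linarith [hC1 i]) (pow_pos hx' _).ne', Real.log_pow] at h1
  have h2 : Real.log (C i) ≤ ∑ i, Real.log (C i) :=
    Finset.single_le_sum (f := fun i => Real.log (C i)) (fun i _ => Real.log_nonneg (hC1 i)) (Finset.mem_univ i)
  unfold Geo.lam
  linarith

/-- `∑ lam i` and `log ‖x‖` on the normalised points -/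
theorem lam_log (hG : G.Ok) : ∃ B : ℝ, 0 < B ∧ ∀ x ∈ G.K, G.p x = 1 →
    ∑ i, G.lam i x ≤ B * (Real.log ‖x‖ + B) ∧ (∀ i, G.lam i x ≤ B * (Real.log ‖x‖ + B)) ∧ Real.log ‖x‖ ≤ B * (∑ i, G.lam i x + B) := by
  obtain ⟨B₀', hB₀'⟩ := lam_lower hG
  obtain ⟨B₀, hB₀, hB0⟩ : ∃ B₀ : ℝ, (∀ i, ∀ x ∈ G.K, -B₀ ≤ G.lam i x) ∧ 0 ≤ B₀ :=
    ⟨max B₀' 0, fun i x hx => by linarith [hB₀' i x hx, le_max_left B₀' 0], le_max_right _ _⟩
  obtain ⟨C', hC'⟩ := hG.cmp
  obtain ⟨C, hC, hC0⟩ : ∃ C : ℝ, (∀ x ∈ G.K, |G.h * Real.log ‖x‖ - Real.log ‖G.p x‖ - ∑ i, G.b i * G.lam i x| ≤ C) ∧ 0 ≤ C :=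
    ⟨max C' 0, fun x hx => (hC' x hx).trans (le_max_left _ _), le_max_right _ _⟩
  have hpc : Continuous G.p := continuous_iff_continuousAt.2 fun x => (hG.aff.an () x).continuousAt
  obtain ⟨C₁, hC11, hC₁⟩ := bas_hom (f := G.p) (c := G.h) hpc fun t x => by
    rw [smul_eq_mul]
    exact hG.aff.smul () t x
  have hh : (1 : ℝ) ≤ G.h := by exact_mod_cast hG.aff.pos ()
  obtain ⟨L₁, hL1, hL₁⟩ : ∃ L₁ : ℝ, 0 ≤ L₁ ∧ ∀ x ∈ G.K, G.p x = 1 → -L₁ ≤ Real.log ‖x‖ := by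
    refine ⟨Real.log C₁, Real.log_nonneg hC11, fun x hx hp => ?_⟩
    have hx0 := hG.ne_zero hx
    have hx' : 0 < ‖x‖ := norm_pos_iff.2 hx0
    have h1 := hC₁ x hx0
    rw [hp, norm_one] at h1
    have h2 := Real.log_le_log one_pos h1
    rw [Real.log_one, Real.log_mul (by linarith) (pow_pos hx' _).ne', Real.log_pow] at h2
    have h3 : 0 ≤ Real.log C₁ := Real.log_nonneg hC11
    rcases le_or_gt 0 (Real.log ‖x‖) with h4 | h4
    · linarith only [h3, h4]
    · have hm1 := mul_le_mul_of_nonneg_right hh (neg_nonneg.2 h4.le)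
      linarith only [h2, hm1]
  -- the sum of the multiplicities
  obtain ⟨S, hS⟩ : ∃ S : ℝ, S = ∑ i, (G.b i : ℝ) := ⟨_, rfl⟩
  have hS0 : 0 ≤ S := by rw [hS]; positivity
  have hbS : ∀ i, (G.b i : ℝ) ≤ S := fun i => by
    rw [hS]
    exact Finset.single_le_sum (f := fun i => (G.b i : ℝ)) (fun i _ => by positivity) (Finset.mem_univ i)
  have hb1 : ∀ i, (1 : ℝ) ≤ G.b i := fun i => by exact_mod_cast hG.b_pos i
  obtain ⟨n, hn⟩ : ∃ n : ℝ, n = (Fintype.card G.ι : ℝ) := ⟨_, rfl⟩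
  have hn0 : 0 ≤ n := by rw [hn]; positivity
  -- the constant
  obtain ⟨K, hK⟩ : ∃ K : ℝ, K = C + B₀ * S + n * B₀ + L₁ + G.h + S + 1 := ⟨_, rfl⟩
  have p1 := mul_nonneg hB0 hS0
  have p2 := mul_nonneg hn0 hB0
  have hK1 : 1 ≤ K := by rw [hK]; linarith only [hC0, p1, p2, hL1, hh, hS0]
  have hK2 : 0 ≤ 2 * K := by linarith only [hK1]
  have hKK : K ≤ K * K := by
    have hm1 := mul_le_mul_of_nonneg_left hK1 (zero_le_one.trans hK1)
    linarith only [hm1]
  refine ⟨2 * K, by linarith, fun x hx hp => ?_⟩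
  have h0 := abs_le.1 (hC x hx)
  rw [hp, norm_one, Real.log_one, sub_zero] at h0
  have hl := hL₁ x hx hp
  have hsum : ∑ i, (G.b i : ℝ) * (G.lam i x + B₀) = ∑ i, (G.b i : ℝ) * G.lam i x + B₀ * S := by
    rw [hS, Finset.mul_sum, ← Finset.sum_add_distrib]
    exact Finset.sum_congr rfl fun i _ => by ring
  have hsum2 : ∑ i, (G.lam i x + B₀) = ∑ i, G.lam i x + n * B₀ := by
    rw [Finset.sum_add_distrib, Finset.sum_const, Finset.card_univ, nsmul_eq_mul, hn]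
  have hnn : ∀ i, 0 ≤ G.lam i x + B₀ := fun i => by linarith [hB₀ i x hx]
  have h1 : ∑ i, (G.lam i x + B₀) ≤ ∑ i, (G.b i : ℝ) * (G.lam i x + B₀) :=
    Finset.sum_le_sum fun i _ => le_mul_of_one_le_left (hnn i) (hb1 i)
  have h2 : ∑ i, (G.b i : ℝ) * (G.lam i x + B₀) ≤ S * ∑ i, (G.lam i x + B₀) := by
    rw [Finset.mul_sum]
    exact Finset.sum_le_sum fun i _ => mul_le_mul_of_nonneg_right (hbS i) (hnn i)
  have h3 : ∀ i, G.lam i x + B₀ ≤ ∑ i, (G.lam i x + B₀) := fun i =>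
    Finset.single_le_sum (f := fun i => G.lam i x + B₀) (fun i _ => hnn i) (Finset.mem_univ i)
  have hnn2 : 0 ≤ ∑ i, (G.lam i x + B₀) := Finset.sum_nonneg fun i _ => hnn i
  -- the upper bound `h log |x| + C + B₀ S`
  have h4 : ∑ i, (G.lam i x + B₀) ≤ G.h * Real.log ‖x‖ + C + B₀ * S := by linarith
  have h5 : G.h * Real.log ‖x‖ + C + B₀ * S ≤ 2 * K * (Real.log ‖x‖ + 2 * K) := by
    have e1 : 0 ≤ (2 * K - G.h) * (Real.log ‖x‖ + L₁) := mul_nonneg (by rw [hK]; linarith only [hC0, p1, p2, hL1, hh, hS0]) (by linarith only [hl])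
    have e2 : (2 * K - G.h) * L₁ ≤ 2 * K * K := by
      have : L₁ ≤ K := by rw [hK]; linarith only [hC0, p1, p2, hh, hS0]
      have e3 : (2 * K - G.h) * L₁ ≤ 2 * K * L₁ := mul_le_mul_of_nonneg_right (by linarith only [hh]) hL1
      have hm1 := mul_le_mul_of_nonneg_left this hK2
      linarith only [e3, hm1]
    have e4 : C + B₀ * S ≤ K := by rw [hK]; linarith only [p2, hL1, hh, hS0]
    linarith only [e1, e2, e4, hKK, hK1]
  refine ⟨?_, fun i => ?_, ?_⟩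
  · have : 0 ≤ n * B₀ := mul_nonneg hn0 hB0
    linarith
  · linarith [h3 i]
  · have e1 : G.h * Real.log ‖x‖ ≤ S * ∑ i, (G.lam i x + B₀) + C := by
      have := mul_nonneg hB0 hS0
      linarith
    have e2 : S ≤ K := by rw [hK]; linarith only [hC0, p1, p2, hL1, hh]
    have e3 : n * B₀ ≤ K := by rw [hK]; linarith only [hC0, p1, hL1, hh, hS0]
    have e4 : C ≤ K := by rw [hK]; linarith only [p1, p2, hL1, hh, hS0]
    have e5 : S * ∑ i, (G.lam i x + B₀) ≤ 2 * K * ∑ i, (G.lam i x + B₀) := mul_le_mul_of_nonneg_right (by linarith) hnn2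
    have e6 : 2 * K * ∑ i, (G.lam i x + B₀) + C ≤ 2 * K * (∑ i, G.lam i x + 2 * K) := by
      rw [hsum2]
      have hm1 := mul_le_mul_of_nonneg_left e3 hK2
      linarith only [hm1, hKK, e4, hK1]
    rcases le_or_gt 0 (Real.log ‖x‖) with h6 | h6
    · have : Real.log ‖x‖ ≤ G.h * Real.log ‖x‖ := le_mul_of_one_le_left h6 hh
      linarith
    · have : 0 ≤ 2 * K * ∑ i, (G.lam i x + B₀) + C := add_nonneg (mul_nonneg (by linarith) hnn2) hC0
      linarith

/-- the derivative of `log ‖g‖` -/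
theorem hasDerivAt_log_norm {n : ℕ} {g : ℝ → EN n} {g' : EN n} {t : ℝ} (hg : HasDerivAt g g' t) (h0 : g t ≠ 0) :
    HasDerivAt (fun s => Real.log ‖g s‖) ((inner ℂ (g t) g' / (‖g t‖ : ℂ) ^ 2).re) t := by
  have h1 := hg.norm_sq
  have h2 : ‖g t‖ ≠ 0 := norm_ne_zero_iff.2 h0
  have h3 := (h1.log (pow_ne_zero 2 h2)).const_mul (2⁻¹ : ℝ)
  have h4 : (fun s => Real.log ‖g s‖) = fun s => 2⁻¹ * Real.log (‖g s‖ ^ 2) := by
    funext s
    rw [Real.log_pow]
    push_cast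
    ring
  rw [h4]
  refine h3.congr_deriv ?_
  have h5 : (inner ℂ (g t) g' / (‖g t‖ : ℂ) ^ 2).re = (inner ℂ (g t) g').re / ‖g t‖ ^ 2 := by
    rw [← Complex.ofReal_pow, Complex.div_ofReal_re]
  have h6 : inner ℝ (g t) g' = (inner ℂ (g t) g').re := by
    rw [PiLp.inner_apply, PiLp.inner_apply, Complex.re_sum]
    exact Finset.sum_congr rfl fun i _ => real_inner_eq_re_inner ℂ _ _
  rw [h5, h6]
  field_simp

/-- `lam i` is Lipschitz along curves of bounded length `L` -/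
theorem lam_lip (hG : G.Ok) {F : ℂ → EN N} (hF : Differentiable ℂ F) (hK : ∀ z, F z ∈ G.K) {B : ℝ} (hL : ∀ z, G.L (F z) (deriv F z) ≤ B) (i : G.ι) (z w : ℂ) :
    |G.lam i (F z) - G.lam i (F w)| ≤ B * ‖z - w‖ := by
  have hpath : ∀ t : ℝ, HasDerivAt (fun t : ℝ => w + (t : ℂ) * (z - w)) (z - w) t := fun t => by
    have := (Complex.ofRealCLM.hasDerivAt (x := t)).mul_const (z - w)
    simpa using this.const_add w
  have h1 : ∀ t : ℝ, HasDerivAt (fun t : ℝ => F (w + (t : ℂ) * (z - w))) ((z - w) • deriv F (w + (t : ℂ) * (z - w))) t := fun t => by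
    exact (hF (w + (t : ℂ) * (z - w))).hasDerivAt.scomp t (hpath t)
  have h2 : ∀ t : ℝ, HasDerivAt (fun t : ℝ => G.E i (F (w + (t : ℂ) * (z - w))))
      ((z - w) • fderiv ℂ (G.E i) (F (w + (t : ℂ) * (z - w))) (deriv F (w + (t : ℂ) * (z - w)))) t := fun t => by
    have h3 := ((hG.anE i (F (w + (t : ℂ) * (z - w)))).differentiableAt.hasFDerivAt.restrictScalars ℝ).comp_hasDerivAt t (h1 t)
    refine h3.congr_deriv ?_
    exact map_smul (fderiv ℂ (G.E i) (F (w + (t : ℂ) * (z - w)))) (z - w) (deriv F (w + (t : ℂ) * (z - w)))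
  have h3 : ∀ t : ℝ, HasDerivAt (fun t : ℝ => G.lam i (F (w + (t : ℂ) * (z - w))))
      (-((z - w) * G.ell i (F (w + (t : ℂ) * (z - w))) (deriv F (w + (t : ℂ) * (z - w)))).re) t := fun t => by
    have e1 := (hasDerivAt_log_norm (h1 t) (hG.ne_zero (hK _))).const_mul (G.c i : ℝ)
    have e2 := hasDerivAt_log_norm (h2 t) (hG.neE i _ (hK _))
    refine (e1.sub e2).congr_deriv ?_
    unfold Geo.ell
    obtain ⟨a, ha⟩ : ∃ a : ℂ, a = inner ℂ (F (w + (t : ℂ) * (z - w))) (deriv F (w + (t : ℂ) * (z - w))) /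
      (‖F (w + (t : ℂ) * (z - w))‖ : ℂ) ^ 2 := ⟨_, rfl⟩
    obtain ⟨b, hb⟩ : ∃ b : ℂ, b = inner ℂ (G.E i (F (w + (t : ℂ) * (z - w))))
      (fderiv ℂ (G.E i) (F (w + (t : ℂ) * (z - w))) (deriv F (w + (t : ℂ) * (z - w)))) /
      (‖G.E i (F (w + (t : ℂ) * (z - w)))‖ : ℂ) ^ 2 := ⟨_, rfl⟩
    rw [inner_smul_right, inner_smul_right, mul_div_assoc, mul_div_assoc, ← ha, ← hb]
    have e3 : (z - w) * (b - (G.c i : ℂ) * a) = (z - w) * b - ((G.c i : ℝ) : ℂ) * ((z - w) * a) := by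
      push_cast
      ring
    rw [e3, Complex.sub_re, Complex.re_ofReal_mul]
    ring
  have h4 : ∀ t : ℝ, ‖-((z - w) * G.ell i (F (w + (t : ℂ) * (z - w))) (deriv F (w + (t : ℂ) * (z - w)))).re‖ ≤ B * ‖z - w‖ := fun t => by
    rw [norm_neg]
    refine (Complex.abs_re_le_norm _).trans ?_
    rw [norm_mul, mul_comm]
    refine mul_le_mul_of_nonneg_right (le_trans ?_ (hL (w + (t : ℂ) * (z - w)))) (norm_nonneg _)
    unfold Geo.L
    have e1 := fs_nonneg (F (w + (t : ℂ) * (z - w))) (deriv F (w + (t : ℂ) * (z - w)))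
    have e2 := Finset.single_le_sum (f := fun i => ‖G.ell i (F (w + (t : ℂ) * (z - w))) (deriv F (w + (t : ℂ) * (z - w)))‖)
      (fun i _ => norm_nonneg _) (Finset.mem_univ i)
    linarith
  have h5 := norm_image_sub_le_of_norm_deriv_le_segment_01' (f := fun t : ℝ => G.lam i (F (w + (t : ℂ) * (z - w))))
    (fun t _ => (h3 t).hasDerivWithinAt) (fun t _ => h4 t)
  have h6 : w + ((1 : ℝ) : ℂ) * (z - w) = z := by
    push_cast
    ring
  have h7 : w + ((0 : ℝ) : ℂ) * (z - w) = w := by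
    push_cast
    ring
  simp only [h6, h7] at h5
  exact h5

end Pool.Agent.SR3

end
end

section

/-!
# SR3 MMax: the maximum of finitely many metrics

If `g a` is a metric along the curves which do not lie in `T a`, for the indices `a` of a finite set, then the maximum of the `g a` (`0` where the curve
lies in `T a`) is a metric along the curves which do not lie in the intersection of the `T a`.
-/

set_option autoImplicit false

open Topology Filter Metric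

noncomputable section

namespace Pool.Agent.SR3

open Pool.Agent.H36.BP (EN fs wd Sub)
open Pool.Agent.H17BP (Pr)
open Pool.Agent.H14.PP (IsCone)
open Pool.Agent.SY (Ent)
open Pool.Agent.SDA (EnergyK Near)

variable {N : ℕ} {X K : Set (EN N)}

/-- A metric along the entire curves in `K` which do not lie in `T`; without error where `rho < δ`. -/
structure MetD (X K T : Set (EN N)) (rho : EN N → ℝ) (M : ℕ) (c₀ C δ : ℝ) (g : (ℂ → EN N) → ℂ → ℝ) : Prop where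
  en : EnergyK X K T (fun x => ‖x‖) rho M c₀ C g
  one_M : 1 ≤ M
  pos : 0 < δ
  near : Near K T (fun x => ‖x‖) rho c₀ g δ
  TX : T ⊆ X
  Ts : ∀ x ∈ T, ∀ c : ℂ, c ≠ 0 → c • x ∈ T
  KT : ∀ x ∈ X, x ∉ K → x ∈ T
  rho0 : ∀ x ∈ X, 0 ≤ rho x
  rhoT : ∀ x ∈ X, (rho x = 0 ↔ x ∈ T)
  rhoc : ContinuousOn rho X
  rhos : ∀ x ∈ X, ∀ c : ℂ, c ≠ 0 → rho (c • x) = rho x
  Ti : ∀ F : ℂ → EN N, Differentiable ℂ F → (∀ z, F z ∈ X) → (∃ z, F z ∉ T) → ∀ z₀, ∀ᶠ z in 𝓝[≠] z₀, F z ∉ T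

/-! ## the maximum of a finite family -/

variable {A : Type} [Fintype A] [Nonempty A]

/-- the maximum of a finite family -/
def mx (f : A → ℝ) : ℝ := Finset.univ.sup' Finset.univ_nonempty f

theorem le_mx (f : A → ℝ) (a : A) : f a ≤ mx f := Finset.le_sup' f (Finset.mem_univ a)

theorem exists_mx (f : A → ℝ) : ∃ a, mx f = f a := by
  obtain ⟨a, -, ha⟩ := Finset.exists_mem_eq_sup' (s := (Finset.univ : Finset A)) Finset.univ_nonempty f
  exact ⟨a, ha⟩

theorem mx_lt {f : A → ℝ} {c : ℝ} : mx f < c ↔ ∀ a, f a < c := by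
  unfold mx
  rw [Finset.sup'_lt_iff]
  exact ⟨fun h a => h a (Finset.mem_univ a), fun h a _ => h a⟩

theorem mx_le {f : A → ℝ} {c : ℝ} : mx f ≤ c ↔ ∀ a, f a ≤ c := by
  unfold mx
  rw [Finset.sup'_le_iff]
  exact ⟨fun h a => h a (Finset.mem_univ a), fun h a _ => h a⟩

theorem mx_mul {f : A → ℝ} {c : ℝ} (hc : 0 ≤ c) : mx (fun a => c * f a) = c * mx f := by
  apply le_antisymm
  · exact mx_le.2 fun a => mul_le_mul_of_nonneg_left (le_mx f a) hc
  · obtain ⟨a, ha⟩ := exists_mx f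
    rw [ha]
    exact le_mx (fun a => c * f a) a

/-! ## bounded functions on cones -/

theorem MMax_bound (hX : IsCone X) {rho : EN N → ℝ} (hc : ContinuousOn rho X) (hs : ∀ x ∈ X, ∀ c : ℂ, c ≠ 0 → rho (c • x) = rho x) :
    ∃ B : ℝ, ∀ x ∈ X, rho x ≤ B := by
  have h1 : IsClosed (X ∩ sphere (0 : EN N) 1) := by
    have h : X ∩ sphere (0 : EN N) 1 = insert 0 X ∩ sphere (0 : EN N) 1 := by
      ext x
      constructor
      · rintro ⟨h1, h2⟩
        exact ⟨Set.mem_insert_of_mem _ h1, h2⟩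
      · rintro ⟨h1, h2⟩
        rcases h1 with h1 | h1
        · rw [h1, mem_sphere_iff_norm, sub_zero, norm_zero] at h2
          norm_num at h2
        · exact ⟨h1, h2⟩
    rw [h]
    exact hX.closed.inter isClosed_sphere
  have h2 : IsCompact (X ∩ sphere (0 : EN N) 1) := (isCompact_sphere (0 : EN N) 1).of_isClosed_subset h1 Set.inter_subset_right
  obtain ⟨B, hB⟩ := h2.exists_bound_of_continuousOn (hc.mono Set.inter_subset_left)
  refine ⟨B, fun x hx => ?_⟩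
  have h0 : x ≠ 0 := fun h => hX.zero_notMem (h ▸ hx)
  have h1 : ((‖x‖ : ℂ))⁻¹ ≠ 0 := inv_ne_zero (by exact_mod_cast norm_ne_zero_iff.2 h0)
  have h2 := hB (((‖x‖ : ℂ))⁻¹ • x) ⟨hX.smul_mem x hx _ h1, by
    rw [mem_sphere_iff_norm, sub_zero, norm_smul, norm_inv, Complex.norm_real, norm_norm, inv_mul_cancel₀ (norm_ne_zero_iff.2 h0)]⟩
  rw [hs x hx _ h1] at h2
  exact (le_abs_self _).trans h2

/-! ## the metric -/

open Classical in
/-- the metric, `0` on the curves in `T` -/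
def ext0 (T : Set (EN N)) (g : (ℂ → EN N) → ℂ → ℝ) (F : ℂ → EN N) (z : ℂ) : ℝ := if ∃ w, F w ∉ T then g F z else 0

variable {T : A → Set (EN N)} {rho : A → EN N → ℝ} {M : A → ℕ} {c₀ C δ : A → ℝ} {g : A → (ℂ → EN N) → ℂ → ℝ}

theorem ext0_pos {T : Set (EN N)} {g : (ℂ → EN N) → ℂ → ℝ} {F : ℂ → EN N} (h : ∃ w, F w ∉ T) (z : ℂ) : ext0 T g F z = g F z := by
  unfold ext0
  rw [if_pos h]

theorem ext0_neg {T : Set (EN N)} {g : (ℂ → EN N) → ℂ → ℝ} {F : ℂ → EN N} (h : ¬ ∃ w, F w ∉ T) (z : ℂ) : ext0 T g F z = 0 := by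
  unfold ext0
  rw [if_neg h]

/-- the maximum of the metrics -/
def gmx (T : A → Set (EN N)) (g : A → (ℂ → EN N) → ℂ → ℝ) (F : ℂ → EN N) (z : ℂ) : ℝ := mx fun a => ext0 (T a) (g a) F z

omit [Fintype A] [Nonempty A] in
theorem gmx_nonneg (h : ∀ a, MetD X K (T a) (rho a) (M a) (c₀ a) (C a) (δ a) (g a)) {F : ℂ → EN N} (hF : Differentiable ℂ F)
    (hK : ∀ z, F z ∈ K) (a : A) (z : ℂ) : 0 ≤ ext0 (T a) (g a) F z := by
  by_cases ho : ∃ w, F w ∉ T a
  · rw [ext0_pos ho]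
    exact (h a).en.nonneg F ⟨hF, hK, ho⟩ z
  · rw [ext0_neg ho]

/-- the metric with a smaller constant `c₀` -/
theorem MMax_sub {u : ℂ → ℝ} {F : ℂ → EN N} {z : ℂ} {c c₁ d : ℝ} (hF : AnalyticAt ℂ F z) (h0 : F z ≠ 0) (hc : c ≤ c₁)
    (h : Sub (fun w => u w * ‖F w‖ ^ (-c₁)) z d) : Sub (fun w => u w * ‖F w‖ ^ (-c)) z d := by
  have h1 := (h.mul (Pool.Agent.H36.BP.Sub.norm_rpow hF h0 (c₁ - c))).anti (d := d) (by
    have : 0 ≤ (c₁ - c) * fs (F z) (deriv F z) ^ 2 / 2 := div_nonneg (mul_nonneg (sub_nonneg.2 hc) (sq_nonneg _)) (by norm_num)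
    linarith)
  have hne : ∀ᶠ w in 𝓝 z, F w ≠ 0 := hF.continuousAt.eventually_ne h0
  refine h1.congr (hne.mono fun w hw => ?_)
  have hn : 0 < ‖F w‖ := norm_pos_iff.2 hw
  rw [mul_assoc, ← Real.rpow_add hn]
  congr 2
  ring

omit [Nonempty A] in
/-- a choice of the index along an ultrafilter -/
theorem MMax_index {𝒰 : Ultrafilter ℕ} {P : A → ℕ → Prop} (h : ∀ n, ∃ a, P a n) : ∃ a, ∀ᶠ n in (𝒰 : Filter ℕ), P a n := by
  by_contra hne
  have h1 : ∀ a, ∀ᶠ n in (𝒰 : Filter ℕ), ¬ P a n := fun a => Ultrafilter.eventually_not.2 fun h2 => hne ⟨a, h2⟩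
  obtain ⟨n, hn⟩ := (eventually_all.2 h1).exists
  obtain ⟨a, ha⟩ := h n
  exact hn a ha

theorem MMax_mono {l l' : Filter ℕ} (hl : l' ≤ l) {F : ℕ → ℂ → EN N} {H : ℂ → EN N} {s : Set ℂ} (h : TendstoLocallyUniformlyOn F H l s) :
    TendstoLocallyUniformlyOn F H l' s := by
  intro u hu x hx
  obtain ⟨t, ht, h1⟩ := h u hu x hx
  exact ⟨t, ht, h1.filter_mono hl⟩

/-- **The maximum of finitely many metrics.** -/
theorem MetD.max (hX : IsCone X) (hKX : K ⊆ X) (h : ∀ a, MetD X K (T a) (rho a) (M a) (c₀ a) (C a) (δ a) (g a)) :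
    ∃ (M' : ℕ) (c' C' δ' : ℝ), MetD X K (⋂ a, T a) (fun x => mx fun a => rho a x) M' c' C' δ' (gmx T g) := by
  classical
  obtain ⟨a₀⟩ : Nonempty A := inferInstance
  -- the constants
  choose B hB using fun a => MMax_bound hX (h a).rhoc (h a).rhos
  set B' : ℝ := 1 + ∑ a, |B a| with hB'
  have hB1 : 1 ≤ B' := le_add_of_nonneg_right (Finset.sum_nonneg fun a _ => abs_nonneg _)
  have hBB : ∀ a, ∀ x ∈ X, rho a x ≤ B' := by
    intro a x hx
    have h1 : |B a| ≤ ∑ a, |B a| := Finset.single_le_sum (f := fun a => |B a|) (fun i _ => abs_nonneg _) (Finset.mem_univ a)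
    have h2 := hB a x hx
    have h3 := le_abs_self (B a)
    linarith
  set M' : ℕ := Finset.univ.sup M with hM'
  have hMM : ∀ a, M a ≤ M' := fun a => Finset.le_sup (Finset.mem_univ a)
  set c' : ℝ := Finset.univ.inf' Finset.univ_nonempty c₀ with hc'
  have hcc : ∀ a, c' ≤ c₀ a := fun a => Finset.inf'_le _ (Finset.mem_univ a)
  have hc0 : 0 < c' := by
    rw [hc', Finset.lt_inf'_iff]
    exact fun a _ => (h a).en.c₀_pos
  set δ' : ℝ := Finset.univ.inf' Finset.univ_nonempty δ with hδ'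
  have hdd : ∀ a, δ' ≤ δ a := fun a => Finset.inf'_le _ (Finset.mem_univ a)
  have hd0 : 0 < δ' := by
    rw [hδ', Finset.lt_inf'_iff]
    exact fun a _ => (h a).pos
  set C' : ℝ := B' ^ M' * ∑ a, C a with hC'
  have hBM : 1 ≤ B' ^ M' := one_le_pow₀ hB1
  have hCa : ∀ a, C a ≤ ∑ a, C a := fun a => Finset.single_le_sum (f := C) (fun i _ => (h i).en.C_pos.le) (Finset.mem_univ a)
  have hCs : 0 < ∑ a, C a := lt_of_lt_of_le (h a₀).en.C_pos (hCa a₀)
  have hCC : ∀ a, C a ≤ C' := fun a => (hCa a).trans (le_mul_of_one_le_left hCs.le hBM)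
  have hC0 : 0 < C' := lt_of_lt_of_le (h a₀).en.C_pos (hCC a₀)
  -- the functions
  have hout : ∀ {F : ℂ → EN N}, (∃ z, F z ∉ ⋂ a, T a) → ∃ a z, F z ∉ T a := by
    rintro F ⟨z, hz⟩
    rw [Set.mem_iInter] at hz
    push Not at hz
    obtain ⟨a, ha⟩ := hz
    exact ⟨a, z, ha⟩
  have hent : ∀ {F : ℂ → EN N}, Ent K (⋂ a, T a) F → ∀ {a}, (∃ w, F w ∉ T a) → Ent K (T a) F := fun hF _ ho => ⟨hF.diff, hF.mem, ho⟩
  have hpos : ∀ {F : ℂ → EN N} {z : ℂ} {a}, 0 < ext0 (T a) (g a) F z → ∃ w, F w ∉ T a := by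
    intro F z a hp
    by_contra hn
    rw [ext0_neg hn] at hp
    exact lt_irrefl _ hp
  have hSub : ∀ {F : ℂ → EN N}, Ent K (⋂ a, T a) F → ∀ {z : ℂ} {a} {d d' : ℝ}, gmx T g F z = ext0 (T a) (g a) F z → (∃ w, F w ∉ T a) →
      Sub (fun w => g a F w * ‖F w‖ ^ (-(c₀ a))) z d → d' ≤ d → Sub (fun w => gmx T g F w * ‖F w‖ ^ (-c')) z d' := by
    intro F hF z a d d' ha ho hS hd
    have h0 : F z ≠ 0 := fun h0 => hX.zero_notMem (h0 ▸ hKX (hF.mem z))
    have h1 := (MMax_sub (hF.diff.analyticAt z) h0 (hcc a) hS).anti hd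
    refine h1.mono ?_ (Eventually.of_forall fun w => ?_)
    · show g a F z * ‖F z‖ ^ (-c') = gmx T g F z * ‖F z‖ ^ (-c')
      rw [ha, ext0_pos ho]
    · show g a F w * ‖F w‖ ^ (-c') ≤ gmx T g F w * ‖F w‖ ^ (-c')
      refine mul_le_mul_of_nonneg_right ?_ (Real.rpow_nonneg (norm_nonneg _) _)
      rw [← ext0_pos ho w (g := g a)]
      exact le_mx (fun a => ext0 (T a) (g a) F w) a
  have hlim : ∀ (l : Filter ℕ), l.NeBot → ∀ (r A' ε : ℝ), 0 < r → 0 < ε → ∀ (F : ℕ → ℂ → EN N) (H : ℂ → EN N),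
      (∀ᶠ n in l, Ent K (⋂ a, T a) (F n)) → (∀ᶠ n in l, ∀ z ∈ ball (0 : ℂ) r, gmx T g (F n) z ≤ A') → (∀ᶠ n in l, ε ≤ gmx T g (F n) 0) →
      (∃ h : ℕ → ℂ → ℂ, (∀ᶠ n in l, DifferentiableOn ℂ (h n) (ball 0 r) ∧ ∀ z ∈ ball (0 : ℂ) r, h n z ≠ 0) ∧
        TendstoLocallyUniformlyOn (fun n z => h n z • F n z) H l (ball 0 r)) →
      ∃ (𝒰 : Ultrafilter ℕ) (a : A), (∀ᶠ n in (𝒰 : Filter ℕ), Ent K (T a) (F n)) ∧
        (∀ᶠ n in (𝒰 : Filter ℕ), ∀ z ∈ ball (0 : ℂ) r, g a (F n) z ≤ A') ∧ (∀ᶠ n in (𝒰 : Filter ℕ), ε ≤ g a (F n) 0) ∧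
        (∃ h : ℕ → ℂ → ℂ, (∀ᶠ n in (𝒰 : Filter ℕ), DifferentiableOn ℂ (h n) (ball 0 r) ∧ ∀ z ∈ ball (0 : ℂ) r, h n z ≠ 0) ∧
          TendstoLocallyUniformlyOn (fun n z => h n z • F n z) H (𝒰 : Filter ℕ) (ball 0 r)) := by
    intro l hl r A' ε hr hε F H hF hA hB ⟨u, hu, hc⟩
    have := hl
    have hle : ((Ultrafilter.of l : Ultrafilter ℕ) : Filter ℕ) ≤ l := Ultrafilter.of_le l
    obtain ⟨a, ha⟩ := MMax_index (𝒰 := Ultrafilter.of l) (P := fun a n => gmx T g (F n) 0 = ext0 (T a) (g a) (F n) 0)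
      fun n => exists_mx fun a => ext0 (T a) (g a) (F n) 0
    have h1 : ∀ᶠ n in ((Ultrafilter.of l : Ultrafilter ℕ) : Filter ℕ), ∃ w, F n w ∉ T a := by
      filter_upwards [ha, hB.filter_mono hle] with n h1 h2
      rw [h1] at h2
      exact hpos (lt_of_lt_of_le hε h2)
    refine ⟨Ultrafilter.of l, a, ?_, ?_, ?_, u, hu.filter_mono hle, MMax_mono hle hc⟩
    · filter_upwards [h1, hF.filter_mono hle] with n h2 h3 using hent h3 h2
    · filter_upwards [h1, hA.filter_mono hle] with n h2 h3 z hz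
      rw [← ext0_pos h2 z (g := g a)]
      exact (le_mx (fun a => ext0 (T a) (g a) (F n) z) a).trans (h3 z hz)
    · filter_upwards [h1, ha, hB.filter_mono hle] with n h2 h3 h4
      rw [h3, ext0_pos h2] at h4
      exact h4
  have hnear : Near K (⋂ a, T a) (fun x => ‖x‖) (fun x => mx fun a => rho a x) c' (gmx T g) δ' := by
    intro F hF z hz hg
    obtain ⟨a, ha⟩ := exists_mx fun a => ext0 (T a) (g a) F z
    have ha' : gmx T g F z = ext0 (T a) (g a) F z := ha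
    have hp : 0 < ext0 (T a) (g a) F z := ha' ▸ hg
    have ho := hpos hp
    rw [ext0_pos ho] at hp
    have h1 : rho a (F z) < δ a := lt_of_lt_of_le (lt_of_le_of_lt (le_mx (fun a => rho a (F z)) a) hz) (hdd a)
    exact hSub hF ha' ho ((h a).near F (hent hF ho) z h1 hp) le_rfl
  refine ⟨M', c', C', δ', ⟨⟨hc0, hC0, ?_, ?_, ?_, ?_, ?_, ?_, ?_⟩, ⟨δ', hd0, hnear⟩, ?_⟩, ?_, hd0, hnear, ?_, ?_, ?_, ?_, ?_, ?_, ?_, ?_⟩
  · intro F hF z
    exact (gmx_nonneg h hF.diff hF.mem a₀ z).trans (le_mx (fun a => ext0 (T a) (g a) F z) a₀)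
  · intro F hF z t ht
    have h1 := mx_lt.1 ht
    have h2 : ∀ a, ∀ᶠ w in 𝓝 z, ext0 (T a) (g a) F w < t := by
      intro a
      have h3 := h1 a
      by_cases ho : ∃ w, F w ∉ T a
      · rw [ext0_pos ho] at h3
        filter_upwards [(h a).en.usc F (hent hF ho) z t h3] with w hw
        rw [ext0_pos ho]
        exact hw
      · rw [ext0_neg ho] at h3
        exact Eventually.of_forall fun w => by rw [ext0_neg ho]; exact h3
    filter_upwards [eventually_all.2 h2] with w hw using mx_lt.2 hw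
  · intro F hF a b ha z
    show mx (fun c => ext0 (T c) (g c) (fun w => F (a * w + b)) z) = ‖a‖ * mx fun c => ext0 (T c) (g c) F (a * z + b)
    rw [← mx_mul (norm_nonneg a)]
    congr 1
    funext c
    by_cases ho : ∃ w, F w ∉ T c
    · have ho' : ∃ w, (fun w => F (a * w + b)) w ∉ T c := by
        obtain ⟨w, hw⟩ := ho
        refine ⟨(w - b) / a, ?_⟩
        show F (a * ((w - b) / a) + b) ∉ T c
        rw [mul_div_cancel₀ _ ha, sub_add_cancel]
        exact hw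
      rw [ext0_pos ho, ext0_pos ho']
      exact (h c).en.aff F (hent hF ho) a b ha z
    · have ho' : ¬ ∃ w, (fun w => F (a * w + b)) w ∉ T c := fun ⟨w, hw⟩ => ho ⟨_, hw⟩
      rw [ext0_neg ho, ext0_neg ho', mul_zero]
  · intro F hF u hu h0 z
    show mx (fun c => ext0 (T c) (g c) (fun w => u w • F w) z) = mx fun c => ext0 (T c) (g c) F z
    congr 1
    funext c
    by_cases ho : ∃ w, F w ∉ T c
    · have ho' : ∃ w, (fun w => u w • F w) w ∉ T c := by
        obtain ⟨w, hw⟩ := ho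
        refine ⟨w, fun h1 => hw ?_⟩
        have h2 := (h c).Ts _ h1 (u w)⁻¹ (inv_ne_zero (h0 w))
        rwa [smul_smul, inv_mul_cancel₀ (h0 w), one_smul] at h2
      rw [ext0_pos ho, ext0_pos ho']
      exact (h c).en.unit F (hent hF ho) u hu h0 z
    · have ho' : ¬ ∃ w, (fun w => u w • F w) w ∉ T c := by
        rintro ⟨w, hw⟩
        refine ho ⟨w, fun h1 => hw ((h c).Ts _ h1 _ (h0 w))⟩
      rw [ext0_neg ho, ext0_neg ho']
  · intro F hF z hg
    obtain ⟨a, ha⟩ := exists_mx fun a => ext0 (T a) (g a) F z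
    have ha' : gmx T g F z = ext0 (T a) (g a) F z := ha
    have hp : 0 < ext0 (T a) (g a) F z := ha' ▸ hg
    have ho := hpos hp
    rw [ext0_pos ho] at hp ha'
    refine hSub hF (by rw [ha', ext0_pos ho]) ho ((h a).en.sub F (hent hF ho) z hp) ?_
    rw [ha']
    exact neg_le_neg (mul_le_mul_of_nonneg_right (hCC a) (sq_nonneg _))
  · intro F hF z
    have hg0 : 0 ≤ gmx T g F z := (gmx_nonneg h hF.diff hF.mem a₀ z).trans (le_mx (fun a => ext0 (T a) (g a) F z) a₀)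
    obtain ⟨a, ha⟩ := exists_mx fun a => rho a (F z)
    show ∃ t : ℂ, (mx fun a => rho a (F z)) ^ M' * ‖deriv F z - t • F z‖ ≤ C' * ‖F z‖ * gmx T g F z
    rw [ha]
    have hr0 := (h a).rho0 (F z) (hKX (hF.mem z))
    by_cases ho : ∃ w, F w ∉ T a
    · obtain ⟨t, ht⟩ := (h a).en.lower F (hent hF ho) z
      refine ⟨t, ?_⟩
      have h1 : rho a (F z) ^ M' ≤ B' ^ M' * rho a (F z) ^ M a := by
        obtain ⟨k, hk⟩ := Nat.exists_eq_add_of_le (hMM a)
        rw [hk, pow_add, mul_comm (rho a (F z) ^ M a)]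
        refine mul_le_mul_of_nonneg_right ?_ (pow_nonneg hr0 _)
        calc rho a (F z) ^ k ≤ B' ^ k := pow_le_pow_left₀ hr0 (hBB a _ (hKX (hF.mem z))) k
          _ ≤ B' ^ (M a + k) := pow_le_pow_right₀ hB1 (Nat.le_add_left _ _)
      have h2 : g a F z ≤ gmx T g F z := by
        rw [← ext0_pos ho z (g := g a)]
        exact le_mx (fun a => ext0 (T a) (g a) F z) a
      have h3 : 0 ≤ g a F z := (h a).en.nonneg F (hent hF ho) z
      calc rho a (F z) ^ M' * ‖deriv F z - t • F z‖ ≤ B' ^ M' * rho a (F z) ^ M a * ‖deriv F z - t • F z‖ :=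
            mul_le_mul_of_nonneg_right h1 (norm_nonneg _)
        _ = B' ^ M' * (rho a (F z) ^ M a * ‖deriv F z - t • F z‖) := by ring
        _ ≤ B' ^ M' * (C a * ‖F z‖ * g a F z) := mul_le_mul_of_nonneg_left ht (by positivity)
        _ ≤ B' ^ M' * ((∑ a, C a) * ‖F z‖ * gmx T g F z) := by
            have := hCa a
            gcongr
        _ = C' * ‖F z‖ * gmx T g F z := by rw [hC']; ring
    · have h1 : rho a (F z) = 0 := ((h a).rhoT (F z) (hKX (hF.mem z))).2 (not_not.1 (not_exists.1 ho z))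
      refine ⟨0, ?_⟩
      rw [h1, zero_pow (by have := (h a).one_M; have := hMM a; omega), zero_mul]
      positivity
  · intro l hl r A' ε hr hε F H hF hA hB hc hH
    obtain ⟨𝒰, a, h1, h2, h3, h4⟩ := hlim l hl r A' ε hr hε F H hF hA hB hc
    obtain ⟨⟨z, hz, hzT⟩, h6⟩ := (h a).en.lim 𝒰 inferInstance r A' ε hr hε F H h1 h2 h3 h4 hH
    exact ⟨⟨z, hz, fun h7 => hzT (Set.mem_iInter.1 h7 a)⟩, h6⟩
  · intro l hl r A' ε hr hε F H hF hA hB hc hH
    obtain ⟨𝒰, a, h1, h2, h3, h4⟩ := hlim l hl r A' ε hr hε F H hF hA hB hc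
    exact (h a).en.bdy 𝒰 inferInstance r A' ε hr hε F H h1 h2 h3 h4 hH
  · exact (h a₀).one_M.trans (hMM a₀)
  · exact fun x hx => (h a₀).TX (Set.mem_iInter.1 hx a₀)
  · exact fun x hx c hc => Set.mem_iInter.2 fun a => (h a).Ts x (Set.mem_iInter.1 hx a) c hc
  · exact fun x hx hxK => Set.mem_iInter.2 fun a => (h a).KT x hx hxK
  · exact fun x hx => ((h a₀).rho0 x hx).trans (le_mx (fun a => rho a x) a₀)
  · intro x hx
    constructor
    · intro h1
      refine Set.mem_iInter.2 fun a => ((h a).rhoT x hx).1 (le_antisymm ?_ ((h a).rho0 x hx))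
      rw [← h1]
      exact le_mx (fun a => rho a x) a
    · intro h1
      show mx (fun a => rho a x) = 0
      obtain ⟨a, ha⟩ := exists_mx fun a => rho a x
      rw [ha]
      exact ((h a).rhoT x hx).2 (Set.mem_iInter.1 h1 a)
  · exact ContinuousOn.finset_sup'_apply _ fun a _ => (h a).rhoc
  · intro x hx c hc
    show mx (fun a => rho a (c • x)) = mx fun a => rho a x
    congr 1
    funext a
    exact (h a).rhos x hx c hc
  · intro F hF hFX ho z₀
    obtain ⟨a, z, hz⟩ := hout ho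
    filter_upwards [(h a).Ti F hF hFX ⟨z, hz⟩ z₀] with w hw h1 using hw (Set.mem_iInter.1 h1 a)

end Pool.Agent.SR3

end
end
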