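import Pool.Agent.H43.TL2.M149
import Pool.Agent.H43.TL2.M154
import Pool.Agent.H43.TL2.M158
import Pool.Agent.H43.TL2.M57
import Pool.Agent.H43.TL2.SR3.AJmp
import Pool.Agent.H43.TL2.SR3.RimA

/-! The parts of this file: AD.Cone, AD.T.Sym, E1.Defs, SDA.E2, SDA.E1, SR3.RimB, SR3.HolE. -/

section

/-!
# AD Cone: charts of the cone of a smooth projective variety of dimension `n`
-/

set_option autoImplicit false

open MvPolynomial Topology Filter Metric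

namespace Pool.Agent.AD

open Pool.Agent.H36.BP (EN)
open Pool.Agent.H14.PP (IsCone)
open Pool.Agent.H62.FC (Homog)
open Pool.Agent.H17LG.Variety (FunField)
open Pool.Agent.H13.SM (conTan cone cone_smul exists_coneChart)
open Pool.Agent.H17EF (LE coneE)

variable {N : ℕ} {P : Ideal (MvPolynomial (Fin (N + 1)) ℂ)}

theorem isCone_coneE (hP : Homog P) : IsCone (coneE P) := by
  refine ⟨?_, ?_, ?_⟩
  · intro h
    exact h.1 (map_zero _)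
  · intro x hx c hc
    show (LE N).symm (c • x) ∈ cone P
    rw [map_smul]
    exact ⟨smul_ne_zero hc hx.1, cone_smul hP hx.2 c⟩
  · have h1 : insert (0 : EN N) (coneE P) = insert (0 : EN N) (⋂ Q ∈ P, {y : EN N | eval ((LE N).symm y) Q = 0}) := by
      ext y
      by_cases h0 : y = 0
      · simp [h0]
      · have h2 : (LE N).symm y ≠ 0 := fun h => h0 ((LE N).symm.map_eq_zero_iff.1 h)
        constructor
        · rintro (h | h)
          · exact absurd h h0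
          · right
            simp only [Set.mem_iInter]
            intro Q hQ
            exact h.2 Q hQ
        · rintro (h | h)
          · exact absurd h h0
          · right
            simp only [Set.mem_iInter] at h
            exact ⟨h2, fun Q hQ => h Q hQ⟩
    rw [h1, Set.insert_eq]
    refine isClosed_singleton.union (isClosed_biInter fun Q _ => ?_)
    exact isClosed_eq ((MvPolynomial.continuous_eval Q).comp (LE N).symm.continuous) continuous_const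

/-- The chart with the coordinate ratios `x (I k) / x l` as parameters. -/
theorem exists_ratioGerm [P.IsPrime] (hP : Homog P) {n : ℕ} {z : Fin n → FunField P} (hz : IsTranscendenceBasis ℂ z)
    (hsm : ∀ y : Fin (N + 1) → ℂ, y ≠ 0 → (∀ Q ∈ P, eval y Q = 0) → Module.finrank ℂ (conTan P y) ≤ n + 1)
    {x : EN N} (hx : x ∈ coneE P) {l : Fin (N + 1)} (hl : (LE N).symm x l ≠ 0) :
    ∃ (I : Fin n → Fin (N + 1)) (σ : Vd n → EN N),
      IsGerm (coneE P) σ (fun y k => (LE N).symm y (I k) / (LE N).symm y l - (LE N).symm x (I k) / (LE N).symm x l) ∧ σ 0 = x := by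
  obtain ⟨I, σ, h1, h2, h3, h4, -⟩ := exists_coneChart hP hz hsm hx.2 hl
  have hL : ∀ y : Fin (N + 1) → ℂ, (LE N).symm ((LE N) y) = y := (LE N).symm_apply_apply
  have hσ0 : (LE N) (σ 0) = x := by rw [h2, ContinuousLinearEquiv.apply_symm_apply]
  refine ⟨I, fun u => (LE N) (σ u), ⟨?_, ?_, ?_, ?_, ?_, ?_⟩, hσ0⟩
  · exact (((LE N) : (Fin (N + 1) → ℂ) →L[ℂ] EN N).analyticAt _).comp h1
  · filter_upwards [h3] with u hu
    show (LE N).symm ((LE N) (σ u)) ∈ cone P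
    rw [hL]
    refine ⟨?_, hu.1⟩
    intro h0
    apply hl
    rw [← hu.2.1, h0]
    rfl
  · show AnalyticAt ℂ _ ((LE N) (σ 0))
    rw [hσ0]
    have hpr : ∀ i : Fin (N + 1), AnalyticAt ℂ (fun y : EN N => (LE N).symm y i) x := fun i =>
      ((ContinuousLinearMap.proj (R := ℂ) (φ := fun _ : Fin (N + 1) => ℂ) i).comp ((LE N).symm : EN N →L[ℂ] (Fin (N + 1) → ℂ))).analyticAt x
    exact AnalyticAt.pi fun k => ((hpr _).div (hpr l) hl).sub analyticAt_const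
  · filter_upwards [h3] with u hu
    funext k
    simp only [hL]
    rw [hu.2.1, hu.2.2 k]
    field_simp
    ring
  · rw [hσ0]
    have ht : Tendsto (fun y : EN N => (LE N).symm y) (𝓝 x) (𝓝 ((LE N).symm x)) := (LE N).symm.continuous.tendsto x
    have hne : ∀ᶠ y in 𝓝 ((LE N).symm x), (y : Fin (N + 1) → ℂ) l ≠ 0 := (continuous_apply l).continuousAt.eventually_ne hl
    filter_upwards [ht.eventually h4, ht.eventually hne] with y hy hyl hyX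
    refine ⟨(LE N).symm y l / (LE N).symm x l, div_ne_zero hyl hl, ?_⟩
    have h5 := hy hyX.2
    rw [← map_smul, ← h5, ContinuousLinearEquiv.apply_symm_apply]
  · rw [hσ0]
    have h7 : ∀ᶠ p in 𝓝 (x, (1 : ℂ)), p.2 ≠ 0 := by
      have : ContinuousAt (fun p : EN N × ℂ => p.2) (x, (1 : ℂ)) := continuousAt_snd
      exact this.eventually_ne one_ne_zero
    filter_upwards [h7] with p hp
    funext k
    simp only [map_smul, Pi.smul_apply, smul_eq_mul]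
    rw [mul_div_mul_left _ _ hp]

theorem charts_coneE [P.IsPrime] (hP : Homog P) {n : ℕ} {z : Fin n → FunField P} (hz : IsTranscendenceBasis ℂ z)
    (hsm : ∀ y : Fin (N + 1) → ℂ, y ≠ 0 → (∀ Q ∈ P, eval y Q = 0) → Module.finrank ℂ (conTan P y) ≤ n + 1) :
    Charts n (coneE P) := by
  intro x hx
  obtain ⟨l, hl⟩ : ∃ l, (LE N).symm x l ≠ 0 := by
    by_contra h
    push Not at h
    exact hx.1 (funext h)
  obtain ⟨I, σ, hg, h0⟩ := exists_ratioGerm hP hz hsm hx hl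
  obtain ⟨χ, h1, h2⟩ := exists_chart_of_germ (isCone_coneE hP) hg
  rw [h0] at h1 h2
  exact ⟨χ, h1, h2⟩

end Pool.Agent.AD

end

section

/-!
# AD T Sym: the pseudo-length of a family of symmetric differentials, in any dimension

`n (x, v) ^ 2 = ∑ j, ‖θ_j (x, v)‖ ^ (2 / m_j)`.  Port of `H22/W/Sym.lean`.
-/

set_option autoImplicit false

open Topology Filter Metric

namespace Pool.Agent.AD

open Pool.Agent.H36.BP (EN fs wd)
open Pool.Agent.H14.PP (IsCone Tan CurveAt IsOpenPart)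

variable {N : ℕ}

variable {X : Set (EN N)} {d m : ℕ}

/-- the value of a symmetric differential on the derivative of a curve is holomorphic -/
theorem SymDiff.curve_an (θ : SymDiff X m) {F : ℂ → EN N} {z₀ : ℂ} (hF : CurveAt X F z₀) :
    AnalyticAt ℂ (fun z => θ.toFun (F z) (deriv F z)) z₀ := by
  have hev : AnalyticAt ℂ (fun t : Fin 1 → ℂ => t 0) (fun _ => z₀) :=
    (ContinuousLinearMap.proj (R := ℂ) (φ := fun _ : Fin 1 => ℂ) 0).analyticAt _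
  have hφ : AnalyticAt ℂ (fun t : Fin 1 → ℂ => F (t 0)) (fun _ => z₀) :=
    AnalyticAt.comp (g := F) (f := fun t : Fin 1 → ℂ => t 0) hF.1 hev
  have h1 := θ.analytic 1 (fun t => F (t 0)) (fun _ => z₀) (fun _ => 1) hφ (by
    have h2 : Tendsto (fun t : Fin 1 → ℂ => t 0) (𝓝 (fun _ => z₀)) (𝓝 z₀) := hev.continuousAt.tendsto
    exact h2.eventually hF.2)
  have h3 : AnalyticAt ℂ (fun z : ℂ => ((fun _ => z : Fin 1 → ℂ), (fun _ => 1 : Fin 1 → ℂ))) z₀ := by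
    refine AnalyticAt.prod ?_ analyticAt_const
    exact AnalyticAt.pi fun _ => analyticAt_id
  have h4 := AnalyticAt.comp (g := fun y : (Fin 1 → ℂ) × (Fin 1 → ℂ) => θ.toFun (F (y.1 0)) (fderiv ℂ (fun t : Fin 1 → ℂ => F (t 0)) y.1 y.2))
    (f := fun z : ℂ => ((fun _ => z : Fin 1 → ℂ), (fun _ => 1 : Fin 1 → ℂ))) h1 h3
  refine h4.congr ?_
  filter_upwards [hF.1.eventually_analyticAt] with z hz
  show θ.toFun (F z) (fderiv ℂ (fun t : Fin 1 → ℂ => F (t 0)) (fun _ => z) (fun _ => 1)) = θ.toFun (F z) (deriv F z)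
  congr 1
  have h5 : HasFDerivAt (fun t : Fin 1 → ℂ => F (t 0)) ((fderiv ℂ F z).comp (ContinuousLinearMap.proj (R := ℂ) (φ := fun _ : Fin 1 => ℂ) 0))
      (fun _ => z) :=
    HasFDerivAt.comp (g := F) (f := fun t : Fin 1 → ℂ => t 0) (fun _ => z) hz.differentiableAt.hasFDerivAt
      (ContinuousLinearMap.proj (R := ℂ) (φ := fun _ : Fin 1 => ℂ) 0).hasFDerivAt
  rw [h5.fderiv]
  simp

end Pool.Agent.AD

end

section

/-!
# E1 Defs: the points where two symmetric differentials have a common null direction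
-/

set_option autoImplicit false

namespace Pool.Agent.E1

open Pool.Agent.H36.BP (EN)
open Pool.Agent.H14.PP (Tan)
open Pool.Agent.AD (SymDiff)

variable {N : ℕ}

/-- the points of the manifold with the cone `X` where `θ₁` and `θ₂` have a common null direction -/
def ComNull {X : Set (EN N)} {m₁ m₂ : ℕ} (θ₁ : SymDiff X m₁) (θ₂ : SymDiff X m₂) : Set (EN N) :=
  {x | x ∈ X ∧ ∃ v : EN N, Tan X x v ∧ (∀ a : ℂ, v ≠ a • x) ∧ θ₁.toFun x v = 0 ∧ θ₂.toFun x v = 0}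

end Pool.Agent.E1

end

section

/-!
# SDA E2: the symmetric differentials of the statement are logarithmic forms
-/

set_option autoImplicit false

open Topology Filter Metric MvPolynomial

noncomputable section

namespace Pool.Agent.SDA

open Pool.Agent.H36.BP (EN fs wd)
open Pool.Agent.H14.PP (IsCone Tan CurveAt IsOpenPart)
open Pool.Agent.H62.FC (Homog)
open Pool.Agent.H17LG.Variety (FunField)
open Pool.Agent.H17EF (coneE)
open Pool.Agent.H22.W (tan_mem tan_smul tan_curve)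
open Pool.Agent.AD (SymDiff Chart Charts Vd tan_chart)

variable {N k : ℕ}

/-- a tangent vector at a point of an open part is tangent to the open part -/
theorem E2_tan {X K : Set (EN N)} (hK : IsOpenPart X K) {x v : EN N} (hx : x ∈ K) (h : Tan X x v) : Tan K x v := by
  obtain ⟨F, ⟨hF, hFX⟩, h0, h1⟩ := h
  refine ⟨F, ⟨hF, ?_⟩, h0, h1⟩
  have h2 : Tendsto F (𝓝 0) (𝓝 x) := by
    rw [← h0]
    exact hF.continuousAt
  filter_upwards [h2.eventually (hK.rel_open x hx), hFX] with z hz hzX using hz hzX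

theorem E2_tan' {X K : Set (EN N)} (hK : IsOpenPart X K) {x v : EN N} (h : Tan K x v) : Tan X x v := by
  obtain ⟨F, ⟨hF, hFX⟩, h0, h1⟩ := h
  exact ⟨F, ⟨hF, hFX.mono fun z hz => hK.subset hz⟩, h0, h1⟩

/-- invariance -/
theorem E2_inv {X K : Set (EN N)} (hX : IsCone X) (hK : IsOpenPart X K) {m : ℕ} (θ : SymDiff K m) {x v : EN N} (hx : x ∈ K) (h : Tan X x v)
    {c : ℂ} (hc : c ≠ 0) (a : ℂ) : θ.toFun (c • x) (c • v + a • x) = θ.toFun x v := by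
  have h1 : Tan K (c • x) (c • v) := E2_tan hK (hK.smul_mem x hx c hc) (tan_smul hX h hc)
  have h2 : a • x = (a / c) • (c • x) := by rw [smul_smul, div_mul_cancel₀ _ hc]
  rw [h2, θ.add_smul _ _ h1, θ.scale _ _ (E2_tan hK hx h) c hc]

/-- the differential in a chart of `X` -/
theorem E2_eq {X K : Set (EN N)} {d : ℕ} (hX : IsCone X) (hK : IsOpenPart X K) {m : ℕ} (θ : SymDiff K m) (χ : Chart d X) {x v : EN N}
    (hx : x ∈ K) (h : Tan X x v) (hU : x ∈ χ.U) :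
    χ.q x ∈ ball (0 : Vd d) 2 ∧ χ.σ (χ.q x) ∈ K ∧ θ.toFun x v = θ.toFun (χ.σ (χ.q x)) (fderiv ℂ χ.σ (χ.q x) (fderiv ℂ χ.q x v)) := by
  obtain ⟨hb, c, a, hc, h1, h2⟩ := tan_chart hX χ h hU
  have h3 : χ.σ (χ.q x) ∈ K := by
    have := hK.smul_mem x hx c⁻¹ (inv_ne_zero hc)
    rwa [h1, smul_smul, inv_mul_cancel₀ hc, one_smul] at this
  refine ⟨hb, h3, ?_⟩
  have ht : Tan X (χ.σ (χ.q x)) (fderiv ℂ χ.σ (χ.q x) (fderiv ℂ χ.q x v)) := E2_tan' hK (χ.tan hK hb h3 _)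
  have h4 := E2_inv hX hK θ h3 ht hc (a * c)
  rw [← h4]
  congr 1
  conv_lhs => rw [h2]
  congr 1
  conv_lhs => rw [h1]
  rw [smul_smul]

theorem E2_cont {X K : Set (EN N)} {d : ℕ} (hX : IsCone X) (hch : Charts d X) (hK : IsOpenPart X K) {m : ℕ} (θ : SymDiff K m) :
    ContinuousOn (fun p : EN N × EN N => θ.toFun p.1 p.2) {p | p.1 ∈ K ∧ Tan X p.1 p.2} := by
  rintro ⟨x₀, v₀⟩ ⟨hx₀, h₀⟩
  have h₀' : Tan X x₀ v₀ := h₀
  obtain ⟨χ, hU, hq0⟩ := hch x₀ (tan_mem h₀')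
  have hq := χ.q_an x₀ hU
  obtain ⟨hp, hσ, h5⟩ := E2_eq hX hK θ χ hx₀ h₀' hU
  have h1 : Tendsto (fun y : EN N × EN N => χ.q y.1) (𝓝 (x₀, v₀)) (𝓝 (χ.q x₀)) :=
    hq.continuousAt.tendsto.comp continuousAt_fst.tendsto
  have h2 : Tendsto (fun y : EN N × EN N => fderiv ℂ χ.q y.1) (𝓝 (x₀, v₀)) (𝓝 (fderiv ℂ χ.q x₀)) :=
    hq.fderiv.continuousAt.tendsto.comp continuousAt_fst.tendsto
  have hcb : Continuous fun p : (EN N →L[ℂ] (Vd d)) × EN N => p.1 p.2 := isBoundedBilinearMap_apply.continuous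
  have h3 : Tendsto (fun y : EN N × EN N => fderiv ℂ χ.q y.1 y.2) (𝓝 (x₀, v₀)) (𝓝 (fderiv ℂ χ.q x₀ v₀)) :=
    (hcb.tendsto (fderiv ℂ χ.q x₀, v₀)).comp (h2.prodMk_nhds continuousAt_snd.tendsto)
  have han : AnalyticAt ℂ (fun y : Vd d × Vd d => θ.toFun (χ.σ y.1) (fderiv ℂ χ.σ y.1 y.2)) (χ.q x₀, fderiv ℂ χ.q x₀ v₀) := by
    refine θ.analytic d χ.σ _ _ (χ.σ_an _ hp) ?_
    have h6 : Tendsto χ.σ (𝓝 (χ.q x₀)) (𝓝 (χ.σ (χ.q x₀))) := (χ.σ_an _ hp).continuousAt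
    filter_upwards [isOpen_ball.mem_nhds hp, h6.eventually (hK.rel_open _ hσ)] with y hy hy' using hy' (χ.σ_mem y hy).1
  have h4 : Tendsto (fun y : EN N × EN N => (fun y : Vd d × Vd d => θ.toFun (χ.σ y.1) (fderiv ℂ χ.σ y.1 y.2)) (χ.q y.1, fderiv ℂ χ.q y.1 y.2))
      (𝓝 (x₀, v₀)) (𝓝 ((fun y : Vd d × Vd d => θ.toFun (χ.σ y.1) (fderiv ℂ χ.σ y.1 y.2)) (χ.q x₀, fderiv ℂ χ.q x₀ v₀))) :=
    han.continuousAt.tendsto.comp (h1.prodMk_nhds h3)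
  show Tendsto (fun p : EN N × EN N => θ.toFun p.1 p.2) (𝓝[{p | p.1 ∈ K ∧ Tan X p.1 p.2}] (x₀, v₀)) (𝓝 (θ.toFun x₀ v₀))
  rw [h5]
  refine (h4.mono_left nhdsWithin_le_nhds).congr' ?_
  have h6 : ∀ᶠ y : EN N × EN N in 𝓝 (x₀, v₀), y.1 ∈ χ.U := continuousAt_fst.eventually (χ.isOpen_U.mem_nhds hU)
  filter_upwards [nhdsWithin_le_nhds h6, self_mem_nhdsWithin] with y hy1 hy2
  exact (E2_eq hX hK θ χ hy2.1 hy2.2 hy1).2.2.symm

end Pool.Agent.SDA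

end
end

section

/-!
# SDA E1: the functions `H i` on the cone
-/

set_option autoImplicit false

open Topology Filter Metric MvPolynomial

noncomputable section

namespace Pool.Agent.SDA

open Pool.Agent.H36.BP (EN)
open Pool.Agent.H14.PP (IsOpenPart)
open Pool.Agent.H62.FC (Homog)
open Pool.Agent.H17EF (coneE)

variable {N k : ℕ} {P : Ideal (MvPolynomial (Fin (N + 1)) ℂ)} {H : Fin k → MvPolynomial (Fin (N + 1)) ℂ} {e : Fin k → ℕ}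

/-- polynomials are analytic on `EN N` -/
theorem E1_an (Q : MvPolynomial (Fin (N + 1)) ℂ) (x : EN N) : AnalyticAt ℂ (fun y : EN N => eval y.ofLp Q) x := by
  have h := AnalyticAt.aeval_mvPolynomial (𝕜 := ℂ) (f := fun y : EN N => y.ofLp) (z := x) (fun i =>
    (EuclideanSpace.proj (𝕜 := ℂ) i : EN N →L[ℂ] ℂ).analyticAt x) Q
  simpa [MvPolynomial.aeval_eq_eval] using h

/-- MODULE E1: the functions `H i` on the cone -/
theorem affOpen (_hP : Homog P) (hk : 1 ≤ k) (hH : ∀ i, (H i).IsHomogeneous (e i)) (he : ∀ i, 1 ≤ e i) :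
    AffOpen (coneE P) (openCone P H) (fun i (x : EN N) => eval x.ofLp (H i)) e where
  an i x := E1_an (H i) x
  smul i c x := Pool.Agent.H17.eval_smul_of_isHomogeneous (hH i) c x.ofLp
  pos := he
  ne := ⟨⟨0, hk⟩⟩
  mem _ := Iff.rfl

/-- a relatively open part of a cone -/
theorem AffOpen.isOpenPart {ι : Type} [Fintype ι] {X K : Set (EN N)} {Q : ι → EN N → ℂ} {d : ι → ℕ}
    (hX : Pool.Agent.H14.PP.IsCone X) (h : AffOpen X K Q d) : IsOpenPart X K where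
  subset x hx := ((h.mem x).1 hx).1
  smul_mem x hx c hc := by
    obtain ⟨h1, h2⟩ := (h.mem x).1 hx
    refine (h.mem _).2 ⟨hX.smul_mem x h1 c hc, fun i => ?_⟩
    rw [h.smul]
    exact mul_ne_zero (pow_ne_zero _ hc) (h2 i)
  rel_open x hx := by
    obtain ⟨h1, h2⟩ := (h.mem x).1 hx
    have h3 : ∀ᶠ y in 𝓝 x, ∀ i, Q i y ≠ 0 := by
      rw [eventually_all]
      exact fun i => (h.an i x).continuousAt.eventually_ne (h2 i)
    filter_upwards [h3] with y hy hyX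
    exact (h.mem y).2 ⟨hyX, hy⟩

end Pool.Agent.SDA

end
end

section

/-!
# SR3 RimB: every well is in a hole

If `log ‖F z‖ ≤ B₃` and the distance `d` of `z` to the good points is large, let `r` be the distance of `z` to the set where `log ‖F‖ ≥ B₃ + 1`: `r ≤ exp (-η₀ d)`
(`jump`).  If the statement is false for `η = η₀ / 2`, there is a sequence of counterexamples with `B₄ = n`, `d ≥ n`; along an ultrafilter the curves
`F (z + r w)` tend to a line (`line_limit`), and `rim_of_line` gives a hole with the radius `κ r`, `κ` independent of `n`.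
-/

set_option autoImplicit false

open Topology Filter Metric

noncomputable section

namespace Pool.Agent.SR3

open Pool.Agent.H36.BP (EN fs wd Sub OrdTwo)
open Pool.Agent.H14.PP (IsCone Tan)
open Pool.Agent.SY (Ent)
open Pool.Agent.SDA (EnergyK Near AffOpen Nm nForms)
open Pool.Agent.H62.EF (MN pr)
open Pool.Agent.G3 (LLift)
open Geo (Gd)

variable {N : ℕ} {G : Geo N} {T : Set (EN N)} {rho : EN N → ℝ} {M : ℕ} {c₀ C δ : ℝ} {g : (ℂ → EN N) → ℂ → ℝ}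

/-- `rimb_scale` from the statement of `jump` -/
private theorem rimb_scale_core (hG : G.Ok) {B : ℝ}
    (hj : ∃ η R : ℝ, 0 < η ∧ 0 < R ∧ ∀ (q : G.J → ℂ) (F : ℂ → EN N), G.Cl T q F → ∀ z, R ≤ infDist z (Gd rho δ F) → Real.log ‖F z‖ ≤ B →
      ∃ w, ‖w - z‖ ≤ Real.exp (-(η * infDist z (Gd rho δ F))) ∧ B + 1 < Real.log ‖F w‖) :
    ∃ η R : ℝ, 0 < η ∧ 0 < R ∧ ∀ (q : G.J → ℂ) (F : ℂ → EN N), G.Cl T q F → ∀ z, R ≤ infDist z (Gd rho δ F) → Real.log ‖F z‖ ≤ B →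
      ∃ r : ℝ, 0 < r ∧ r ≤ Real.exp (-(η * infDist z (Gd rho δ F))) ∧ (∀ w : ℂ, ‖w‖ ≤ 1 → Real.log ‖F (z + r * w)‖ ≤ B + 1) ∧
        ∃ w : ℂ, ‖w‖ ≤ 1 ∧ B + 1 ≤ Real.log ‖F (z + r * w)‖ := by
  obtain ⟨η, R, hη, hR, hjump⟩ := hj
  refine ⟨η, R, hη, hR, fun q F hF z hz hB => ?_⟩
  obtain ⟨w₀, hw₀, hw₀B⟩ := hjump q F hF z hz hB
  have hFd := hF.ent.diff
  have hF0 : ∀ w, F w ≠ 0 := fun w => ne0 hG (hF.ent.mem w)
  have hcont : Continuous fun w => Real.log ‖F w‖ := hFd.continuous.norm.log fun w => norm_ne_zero_iff.2 (hF0 w)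
  obtain ⟨s₀, hs₀⟩ : ∃ s₀ : ℝ, s₀ = Real.exp (-(η * infDist z (Gd rho δ F))) := ⟨_, rfl⟩
  rw [← hs₀] at hw₀ ⊢
  have hAc : IsCompact (closedBall z s₀ ∩ {w | B + 1 ≤ Real.log ‖F w‖}) :=
    (isCompact_closedBall z s₀).inter_right (isClosed_le continuous_const hcont)
  obtain ⟨w₁, ⟨hw₁s, hw₁B⟩, hmin⟩ := hAc.exists_isMinOn ⟨w₀, by rw [mem_closedBall, dist_eq_norm]; exact hw₀, hw₀B.le⟩
    ((continuous_id.sub continuous_const).norm.continuousOn (f := fun w : ℂ => ‖id w - z‖))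
  obtain ⟨r, hr⟩ : ∃ r : ℝ, r = ‖w₁ - z‖ := ⟨_, rfl⟩
  have hrs : r ≤ s₀ := by rwa [mem_closedBall, dist_eq_norm, ← hr] at hw₁s
  have hr0 : 0 < r := by
    rw [hr, norm_pos_iff, sub_ne_zero]
    rintro rfl
    have h1 : B + 1 ≤ Real.log ‖F w₁‖ := hw₁B
    linarith
  have hlt : ∀ w ∈ ball z r, Real.log ‖F w‖ ≤ B + 1 := by
    intro w hw
    by_contra hcon
    push Not at hcon
    rw [mem_ball, dist_eq_norm] at hw
    have h1 : ‖id w₁ - z‖ ≤ ‖id w - z‖ := hmin ⟨by rw [mem_closedBall, dist_eq_norm]; exact hw.le.trans hrs, hcon.le⟩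
    have h2 : r ≤ ‖w - z‖ := by
      rw [hr]
      exact h1
    exact absurd hw (not_lt.2 h2)
  have hle : ∀ w ∈ closedBall z r, Real.log ‖F w‖ ≤ B + 1 := by
    intro w hw
    rw [← closure_ball z hr0.ne'] at hw
    exact closure_minimal (fun y hy => hlt y hy) (isClosed_le hcont continuous_const) hw
  have hrn : ‖(r : ℂ)‖ = r := by rw [Complex.norm_real, Real.norm_of_nonneg hr0.le]
  refine ⟨r, hr0, hrs, fun w hw => hle _ ?_, ⟨(w₁ - z) / r, ?_, ?_⟩⟩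
  · rw [mem_closedBall, dist_eq_norm, add_sub_cancel_left, norm_mul, hrn]
    exact mul_le_of_le_one_right hr0.le hw
  · rw [norm_div, hrn, ← hr, div_self hr0.ne']
  · have e : z + (r : ℂ) * ((w₁ - z) / r) = w₁ := by
      have : (r : ℂ) ≠ 0 := Complex.ofReal_ne_zero.2 hr0.ne'
      field_simp
      ring
    rw [e]
    exact hw₁B

/-- the radius of a well -/
theorem rimb_scale (hG : G.Ok) (hM : G.Met T rho M c₀ C δ g) (hQ : G.QN rho) (B : ℝ) :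
    ∃ η R : ℝ, 0 < η ∧ 0 < R ∧ ∀ (q : G.J → ℂ) (F : ℂ → EN N), G.Cl T q F → ∀ z, R ≤ infDist z (Gd rho δ F) → Real.log ‖F z‖ ≤ B →
      ∃ r : ℝ, 0 < r ∧ r ≤ Real.exp (-(η * infDist z (Gd rho δ F))) ∧ (∀ w : ℂ, ‖w‖ ≤ 1 → Real.log ‖F (z + r * w)‖ ≤ B + 1) ∧
        ∃ w : ℂ, ‖w‖ ≤ 1 ∧ B + 1 ≤ Real.log ‖F (z + r * w)‖ :=
  rimb_scale_core hG (jump (⟨hG, hM, hQ⟩ : Base G T rho M c₀ C δ g) B)

/-- `exists_rim` from the statements of `rim_of_line`, `rimb_scale`, `line_limit` -/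
private theorem exists_rim_core (hG : G.Ok) {Y : Finset (EN N)}
    (hrl : ∃ ε₁ : ℝ, 0 < ε₁ ∧ ∀ ε : ℝ, 0 < ε → ε ≤ ε₁ → ∀ (B₃ K : ℝ) (𝒰 : Ultrafilter ℕ)
    (Γ : ℕ → ℂ → EN N) (φ : ℂ → EN N), (∀ n, Differentiable ℂ (Γ n) ∧ (∀ z, Γ n z ∈ G.K) ∧ (∀ z, G.p (Γ n z) = 1) ∧ Real.log ‖Γ n 0‖ ≤ B₃) → G.Line φ →
    TendstoLocallyUniformlyOn Γ φ (𝒰 : Filter ℕ) Set.univ →
    ∃ (κ B₆ : ℝ) (y : EN N), 1 ≤ κ ∧ ∀ᶠ n in (𝒰 : Filter ℕ), ∀ B₄ : ℝ, B₆ ≤ B₄ → (∀ w : ℂ, ‖w‖ ≤ K → Real.log ‖Γ n (κ * w)‖ ≤ B₄) →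
      G.Rim Y B₃ B₄ ε K (fun w => Γ n (κ * w)) y)
    (hscale : ∀ B : ℝ, ∃ η R : ℝ, 0 < η ∧ 0 < R ∧ ∀ (q : G.J → ℂ) (F : ℂ → EN N), G.Cl T q F → ∀ z, R ≤ infDist z (Gd rho δ F) → Real.log ‖F z‖ ≤ B →
      ∃ r : ℝ, 0 < r ∧ r ≤ Real.exp (-(η * infDist z (Gd rho δ F))) ∧ (∀ w : ℂ, ‖w‖ ≤ 1 → Real.log ‖F (z + r * w)‖ ≤ B + 1) ∧
        ∃ w : ℂ, ‖w‖ ≤ 1 ∧ B + 1 ≤ Real.log ‖F (z + r * w)‖)
    (hll : ∀ B B' η : ℝ, 0 < η → ∀ (𝒰 : Ultrafilter ℕ), (𝒰 : Filter ℕ) ≤ atTop → ∀ (q : ℕ → G.J → ℂ)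
    (F : ℕ → ℂ → EN N) (z : ℕ → ℂ) (r : ℕ → ℝ), (∀ n, G.Cl T (q n) (F n)) →
    Tendsto (fun n => infDist (z n) (Gd rho δ (F n))) (𝒰 : Filter ℕ) atTop →
    (∀ᶠ n in (𝒰 : Filter ℕ), 0 < r n ∧ r n ≤ Real.exp (-(η * infDist (z n) (Gd rho δ (F n))))) →
    (∀ᶠ n in (𝒰 : Filter ℕ), ∀ w : ℂ, ‖w‖ ≤ 1 → Real.log ‖F n (z n + r n * w)‖ ≤ B) →
    (∀ᶠ n in (𝒰 : Filter ℕ), ∃ w : ℂ, ‖w‖ ≤ 1 ∧ Real.log ‖F n (z n + r n * w)‖ ≤ B') →
    (∀ᶠ n in (𝒰 : Filter ℕ), ∃ w : ℂ, ‖w‖ ≤ 1 ∧ B' + 1 ≤ Real.log ‖F n (z n + r n * w)‖) →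
    ∃ φ : ℂ → EN N, G.Line φ ∧ TendstoLocallyUniformlyOn (fun n w => F n (z n + r n * w)) φ (𝒰 : Filter ℕ) Set.univ)
    : ∃ ε₁ : ℝ, 0 < ε₁ ∧ ∀ B₃ : ℝ, ∃ η : ℝ, 0 < η ∧
    ∀ ε : ℝ, 0 < ε → ε ≤ ε₁ → ∀ K : ℝ, ∃ B₄ R : ℝ, 0 < R ∧ ∀ (q : G.J → ℂ) (F : ℂ → EN N), G.Cl T q F → ∀ z, R ≤ infDist z (Gd rho δ F) →
      Real.log ‖F z‖ ≤ B₃ → ∃ (s : ℝ) (y : EN N), 0 < s ∧ s ≤ Real.exp (-(η * infDist z (Gd rho δ F))) ∧ G.Rim Y B₃ B₄ ε K (fun w => F (z + s * w)) y := by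
  obtain ⟨ε₁, hε₁, hrim⟩ := hrl
  refine ⟨ε₁, hε₁, fun B₃ => ?_⟩
  obtain ⟨η, R₀, hη, hR₀, hsc⟩ := hscale B₃
  refine ⟨η / 2, half_pos hη, fun ε hε hεε K => ?_⟩
  by_contra hcon
  push Not at hcon
  have hseq : ∀ n : ℕ, ∃ (q : G.J → ℂ) (F : ℂ → EN N) (z : ℂ) (r : ℝ), G.Cl T q F ∧ (n : ℝ) ≤ infDist z (Gd rho δ F) ∧ Real.log ‖F z‖ ≤ B₃ ∧
      (∀ (s : ℝ) (y : EN N), 0 < s → s ≤ Real.exp (-(η / 2 * infDist z (Gd rho δ F))) → ¬ G.Rim Y B₃ n ε K (fun w => F (z + s * w)) y) ∧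
      0 < r ∧ r ≤ Real.exp (-(η * infDist z (Gd rho δ F))) ∧ (∀ w : ℂ, ‖w‖ ≤ 1 → Real.log ‖F (z + r * w)‖ ≤ B₃ + 1) ∧
        ∃ w : ℂ, ‖w‖ ≤ 1 ∧ B₃ + 1 ≤ Real.log ‖F (z + r * w)‖ := by
    intro n
    obtain ⟨q, F, hF, z, hz, hB, hno⟩ := hcon n (max R₀ n) (lt_max_of_lt_left hR₀)
    obtain ⟨r, hr, hr1, h1, h2⟩ := hsc q F hF z ((le_max_left _ _).trans hz) hB
    exact ⟨q, F, z, r, hF, (le_max_right _ _).trans hz, hB, hno, hr, hr1, h1, h2⟩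
  choose q F z r hF hz hB hno hr hr1 h1 h2 using hseq
  obtain ⟨𝒰, h𝒰⟩ : ∃ 𝒰 : Ultrafilter ℕ, (𝒰 : Filter ℕ) ≤ atTop := Ultrafilter.exists_le atTop
  have hd : Tendsto (fun n => infDist (z n) (Gd rho δ (F n))) (𝒰 : Filter ℕ) atTop :=
    tendsto_atTop_mono hz ((tendsto_natCast_atTop_atTop (R := ℝ)).mono_left h𝒰)
  obtain ⟨φ, hφ, hlim⟩ := hll (B₃ + 1) B₃ η hη 𝒰 h𝒰 q F z r hF hd (Eventually.of_forall fun n => ⟨hr n, hr1 n⟩)
    (Eventually.of_forall h1) (Eventually.of_forall fun n => ⟨0, by simp, by simpa using hB n⟩) (Eventually.of_forall h2)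
  have hΓd : ∀ n, Differentiable ℂ fun w => F n (z n + r n * w) := fun n =>
    (hF n).ent.diff.comp ((differentiable_const _).add ((differentiable_const _).mul differentiable_id))
  obtain ⟨κ, B₆, y, hκ, hev⟩ := hrim ε hε hεε B₃ K 𝒰 (fun n w => F n (z n + r n * w)) φ
    (fun n => ⟨hΓd n, fun w => (hF n).ent.mem _, fun w => (hF n).nm _, by simpa using hB n⟩) hφ hlim
  -- the bound on the disc of radius `K`
  have hκ0 : 0 < κ := by linarith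
  have hφc : Continuous φ := hφ.diff.continuous
  obtain ⟨A, hA⟩ := (isCompact_closedBall (0 : ℂ) (κ * K)).exists_bound_of_continuousOn hφc.continuousOn
  have hunif := (tendstoLocallyUniformlyOn_iff_forall_isCompact isOpen_univ).1 hlim (closedBall (0 : ℂ) (κ * K)) (Set.subset_univ _)
    (isCompact_closedBall (0 : ℂ) (κ * K))
  rw [Metric.tendstoUniformlyOn_iff] at hunif
  have hn1 : ∀ᶠ n : ℕ in (𝒰 : Filter ℕ), B₆ ≤ n := h𝒰 ((tendsto_natCast_atTop_atTop (R := ℝ)).eventually_ge_atTop B₆)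
  have hn2 : ∀ᶠ n : ℕ in (𝒰 : Filter ℕ), Real.log (A + 1) ≤ n := h𝒰 ((tendsto_natCast_atTop_atTop (R := ℝ)).eventually_ge_atTop _)
  have hn3 : ∀ᶠ n : ℕ in (𝒰 : Filter ℕ), 2 / η * Real.log κ ≤ infDist (z n) (Gd rho δ (F n)) := hd.eventually_ge_atTop _
  obtain ⟨n, hn, hu, hn1, hn2, hn3⟩ := (hev.and ((hunif 1 one_pos).and (hn1.and (hn2.and hn3)))).exists
  have hbd : ∀ w : ℂ, ‖w‖ ≤ K → Real.log ‖F n (z n + r n * (κ * w))‖ ≤ n := by
    intro w hw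
    have hmem : (κ : ℂ) * w ∈ closedBall (0 : ℂ) (κ * K) := by
      rw [mem_closedBall_zero_iff, norm_mul, Complex.norm_real, Real.norm_of_nonneg hκ0.le]
      exact mul_le_mul_of_nonneg_left hw hκ0.le
    have h3 := hu _ hmem
    have h4 := hA _ hmem
    rw [dist_comm, dist_eq_norm] at h3
    have h5 : ‖F n (z n + r n * (κ * w))‖ ≤ A + 1 := by
      have h6 : ‖F n (z n + r n * (κ * w))‖ ≤ ‖F n (z n + r n * (κ * w)) - φ (κ * w)‖ + ‖φ (κ * w)‖ := by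
        have := norm_add_le (F n (z n + r n * (κ * w)) - φ (κ * w)) (φ (κ * w))
        rwa [sub_add_cancel] at this
      linarith
    exact (Real.log_le_log (norm_pos_iff.2 (ne0 hG ((hF n).ent.mem _))) h5).trans hn2
  have hR := hn n hn1 hbd
  refine hno n (κ * r n) y (mul_pos hκ0 (hr n)) ?_ ?_
  · -- the radius
    have h3 : κ ≤ Real.exp (η / 2 * infDist (z n) (Gd rho δ (F n))) := by
      rw [← Real.log_le_iff_le_exp hκ0]
      have h4 := mul_le_mul_of_nonneg_left hn3 (half_pos hη).le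
      have h5 : η / 2 * (2 / η * Real.log κ) = Real.log κ := by
        field_simp
      rwa [h5] at h4
    calc κ * r n ≤ Real.exp (η / 2 * infDist (z n) (Gd rho δ (F n))) * Real.exp (-(η * infDist (z n) (Gd rho δ (F n)))) :=
          mul_le_mul h3 (hr1 n) (hr n).le (Real.exp_pos _).le
      _ = Real.exp (-(η / 2 * infDist (z n) (Gd rho δ (F n)))) := by
          rw [← Real.exp_add]
          congr 1
          ring
  · have e : (fun w : ℂ => F n (z n + ((κ * r n : ℝ) : ℂ) * w)) = fun w => F n (z n + r n * (κ * w)) := by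
      funext w
      congr 1
      push_cast
      ring
    rw [e]
    exact hR

theorem exists_rim (hG : G.Ok) (hM : G.Met T rho M c₀ C δ g) (hQ : G.QN rho) {Y : Finset (EN N)} (hY : G.Ends Y) : ∃ ε₁ : ℝ, 0 < ε₁ ∧ ∀ B₃ : ℝ, ∃ η : ℝ, 0 < η ∧
    ∀ ε : ℝ, 0 < ε → ε ≤ ε₁ → ∀ K : ℝ, ∃ B₄ R : ℝ, 0 < R ∧ ∀ (q : G.J → ℂ) (F : ℂ → EN N), G.Cl T q F → ∀ z, R ≤ infDist z (Gd rho δ F) →
      Real.log ‖F z‖ ≤ B₃ → ∃ (s : ℝ) (y : EN N), 0 < s ∧ s ≤ Real.exp (-(η * infDist z (Gd rho δ F))) ∧ G.Rim Y B₃ B₄ ε K (fun w => F (z + s * w)) y :=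
  exists_rim_core hG (rim_of_line hG hY) (rimb_scale hG hM hQ)
    fun _ _ _ hη 𝒰 h𝒰 q F z r h1 h2 h3 h4 h5 h6 => line_limit hG hM hQ hη 𝒰 h𝒰 q F z r h1 h2 h3 h4 h5 h6

end Pool.Agent.SR3

end
end

section

/-!
# SR3 HolE: the holes in the disc of radius `θ d`, `θ < 1`

PROOF.  `W := {z ∈ closedBall z₀ (θ d) : log ‖F z‖ ≤ B₃}` is compact, `infDist z ≥ (1 - θ) d` on `W`.  `exists_rim` gives `s z`, `y z` for `z ∈ W`; if `z' ∈ W` and
`s z / 2 ≤ ‖z' - z‖ ≤ K s z` then `B₃ < log ‖F z'‖` (`Rim.ann`), a contradiction; `greedy`.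
-/

set_option autoImplicit false

open Topology Filter Metric

noncomputable section

namespace Pool.Agent.SR3

open Pool.Agent.H36.BP (EN fs wd Sub OrdTwo)
open Pool.Agent.H14.PP (IsCone Tan)
open Pool.Agent.SY (Ent)
open Pool.Agent.SDA (EnergyK Near AffOpen Nm nForms)
open Pool.Agent.H62.EF (MN pr)
open Pool.Agent.G3 (LLift)
open Geo (Gd)

variable {N : ℕ} {G : Geo N} {T : Set (EN N)} {rho : EN N → ℝ} {M : ℕ} {c₀ C δ : ℝ} {g : (ℂ → EN N) → ℂ → ℝ}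

/-- `exists_holes` from the statement of `exists_rim` -/
private theorem exists_holes_core (hG : G.Ok) {Y : Finset (EN N)}
    (hrim0 : ∃ ε₁ : ℝ, 0 < ε₁ ∧ ∀ B₃ : ℝ, ∃ η : ℝ, 0 < η ∧
    ∀ ε : ℝ, 0 < ε → ε ≤ ε₁ → ∀ K : ℝ, ∃ B₄ R : ℝ, 0 < R ∧ ∀ (q : G.J → ℂ) (F : ℂ → EN N), G.Cl T q F → ∀ z, R ≤ infDist z (Gd rho δ F) →
      Real.log ‖F z‖ ≤ B₃ → ∃ (s : ℝ) (y : EN N), 0 < s ∧ s ≤ Real.exp (-(η * infDist z (Gd rho δ F))) ∧ G.Rim Y B₃ B₄ ε K (fun w => F (z + s * w)) y)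
    : ∃ ε₁ : ℝ, 0 < ε₁ ∧ ∀ B₃ θ : ℝ, 0 < θ → θ < 1 → ∃ η : ℝ, 0 < η ∧
    ∀ ε : ℝ, 0 < ε → ε ≤ ε₁ → ∀ K : ℝ, 2 ≤ K → ∃ B₄ R : ℝ, 0 < R ∧ ∀ (q : G.J → ℂ) (F : ℂ → EN N), G.Cl T q F → ∀ z₀, R ≤ infDist z₀ (Gd rho δ F) →
      ∃ (t : Finset ℂ) (s : ℂ → ℝ) (y : ℂ → EN N),
        G.Holes Y B₃ B₄ ε K (Real.exp (-(η * infDist z₀ (Gd rho δ F)))) F z₀ (θ * infDist z₀ (Gd rho δ F)) t s y := by
  obtain ⟨ε₁, hε₁, h⟩ := hrim0
  refine ⟨ε₁, hε₁, fun B₃ θ hθ0 hθ1 => ?_⟩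
  obtain ⟨η, hη, h⟩ := h B₃
  have h1θ : 0 < 1 - θ := by linarith
  refine ⟨η * (1 - θ), mul_pos hη h1θ, fun ε hε hεε K hK => ?_⟩
  obtain ⟨B₄, R, hR, h⟩ := h ε hε hεε K
  refine ⟨B₄, R / (1 - θ), div_pos hR h1θ, fun q F hF z₀ hz₀ => ?_⟩
  set d : ℝ := infDist z₀ (Gd rho δ F) with hd
  set W : Set ℂ := {z | z ∈ closedBall z₀ (θ * d) ∧ Real.log ‖F z‖ ≤ B₃} with hW
  have hne : ∀ z, ‖F z‖ ≠ 0 := fun z => norm_ne_zero_iff.2 (ne0 hG (hF.ent.mem z))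
  have hcont : Continuous fun z => Real.log ‖F z‖ := (hF.ent.diff.continuous.norm).log hne
  have hWc : IsCompact W := (isCompact_closedBall z₀ (θ * d)).inter_right (isClosed_le hcont continuous_const)
  have hdist : ∀ z ∈ W, (1 - θ) * d ≤ infDist z (Gd rho δ F) := by
    intro z hz
    have h1 : d ≤ infDist z (Gd rho δ F) + dist z₀ z := infDist_le_infDist_add_dist
    have h2 : dist z z₀ ≤ θ * d := mem_closedBall.1 hz.1
    rw [dist_comm] at h2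
    linarith
  have hRd : R ≤ (1 - θ) * d := by
    have := (div_le_iff₀ h1θ).1 hz₀
    linarith
  have hex : ∀ z : ℂ, ∃ (s : ℝ) (y : EN N), z ∈ W → 0 < s ∧ s ≤ Real.exp (-(η * infDist z (Gd rho δ F))) ∧ G.Rim Y B₃ B₄ ε K (fun w => F (z + s * w)) y := by
    intro z
    by_cases hz : z ∈ W
    · obtain ⟨s, y, h1, h2, h3⟩ := h q F hF z (hRd.trans (hdist z hz)) hz.2
      exact ⟨s, y, fun _ => ⟨h1, h2, h3⟩⟩
    · exact ⟨0, 0, fun h => absurd h hz⟩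
  choose s y hsy using hex
  have hann : ∀ z ∈ W, ∀ z' ∈ W, ‖z' - z‖ < s z / 2 ∨ K * s z < ‖z' - z‖ := by
    intro z hz z' hz'
    by_contra hcon
    push Not at hcon
    obtain ⟨h1, h2⟩ := hcon
    obtain ⟨hs, -, hrim⟩ := hsy z hz
    have hsc : (s z : ℂ) ≠ 0 := by exact_mod_cast hs.ne'
    have hn : ‖(z' - z) / (s z : ℂ)‖ = ‖z' - z‖ / s z := by
      rw [norm_div, Complex.norm_real, Real.norm_of_nonneg hs.le]
    have h3 := (hrim.ann ((z' - z) / (s z : ℂ)) (by rw [hn, le_div_iff₀ hs]; linarith) (by rw [hn, div_le_iff₀ hs]; exact h2)).1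
    have h4 : z + (s z : ℂ) * ((z' - z) / (s z : ℂ)) = z' := by
      rw [mul_div_cancel₀ _ hsc]
      ring
    rw [h4] at h3
    exact absurd hz'.2 (not_le.2 h3)
  obtain ⟨t, ht, hsep, hcov⟩ := greedy hWc hK (fun z hz => (hsy z hz).1) hann
  refine ⟨t, s, y, ?_, ?_, hsep, ?_, ?_⟩
  · exact fun a ha => (ht a ha).1
  · intro a ha
    refine ⟨(hsy a (ht a ha)).1, (hsy a (ht a ha)).2.1.trans (Real.exp_le_exp.2 ?_)⟩
    have h1 := hdist a (ht a ha)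
    have h2 := mul_le_mul_of_nonneg_left h1 hη.le
    rw [← mul_assoc] at h2
    exact neg_le_neg h2
  · exact fun z hz hl => hcov z ⟨hz, hl⟩
  · exact fun a ha => (hsy a (ht a ha)).2.2

theorem exists_holes (hG : G.Ok) (hM : G.Met T rho M c₀ C δ g) (hQ : G.QN rho) {Y : Finset (EN N)} (hY : G.Ends Y) : ∃ ε₁ : ℝ, 0 < ε₁ ∧ ∀ B₃ θ : ℝ, 0 < θ → θ < 1 → ∃ η : ℝ, 0 < η ∧
    ∀ ε : ℝ, 0 < ε → ε ≤ ε₁ → ∀ K : ℝ, 2 ≤ K → ∃ B₄ R : ℝ, 0 < R ∧ ∀ (q : G.J → ℂ) (F : ℂ → EN N), G.Cl T q F → ∀ z₀, R ≤ infDist z₀ (Gd rho δ F) →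
      ∃ (t : Finset ℂ) (s : ℂ → ℝ) (y : ℂ → EN N),
        G.Holes Y B₃ B₄ ε K (Real.exp (-(η * infDist z₀ (Gd rho δ F)))) F z₀ (θ * infDist z₀ (Gd rho δ F)) t s y :=
  exists_holes_core hG (exists_rim hG hM hQ hY)

end Pool.Agent.SR3

end
end
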