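import Pool.Agent.H43.TL2.M118
import Pool.Agent.H43.TL2.M139
import Pool.Agent.H43.TL2.M141
import Pool.Agent.H43.TL2.M150
import Pool.Agent.H43.TL2.M159
import Pool.Agent.H43.TL2.M74
import Pool.Agent.H43.TL2.M84

/-! The parts of this file: SR3.Bdy, SR3.Wfl, SR3.Qnl, SR3.ALbd, MQL.PoleLoc. -/

section

/-!
# SR3 Bdy: entire curves in the boundary (H7)

The limit curve lies in a component `i` or does not meet it (`hur_of_eqn` with the local equation of the component in the chart of `Snc`); it lies in one of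
them, and if it lies in two of them then it is locally constant.
-/

set_option autoImplicit false

open Topology Filter Metric MvPolynomial

noncomputable section

namespace Pool.Agent.SR3

open Pool.Agent.H36.BP (EN fs)
open Pool.Agent.H17BP (Surface IsChart IsForm NoZeros)
open Pool.Agent.H14.PP (IsCone Tan analyticAt_evalEN eval_smulEN)
open Pool.Agent.H17 (PN VanishesAt HolomorphicInto vanishesAt_mk_iff)
open Pool.Agent.H62.FC (Homog)
open Pool.Agent.H17EF (projVar coneE mk_mem_projVar)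

variable {N k M : ℕ}
variable {P : Ideal (MvPolynomial (Fin (N + 1)) ℂ)} {H : MvPolynomial (Fin (N + 1)) ℂ} {h : ℕ} {E : Fin k → Fin (M + 1) → MvPolynomial (Fin (N + 1)) ℂ}
  {c b : Fin k → ℕ}

namespace BdyAux

theorem vec_smul {i : Fin k} (hE : ∀ l, (E i l).IsHomogeneous (c i)) (a : ℂ) (x : EN N) : vec (E i) (a • x) = a ^ c i • vec (E i) x := by
  unfold vec
  ext l
  simp only [PiLp.smul_apply, smul_eq_mul]
  exact eval_smulEN (hE l) a x

theorem vec_eq_zero {i : Fin k} {x : EN N} : vec (E i) x = 0 ↔ ∀ l, eval x.ofLp (E i l) = 0 := by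
  unfold vec
  constructor
  · intro h l
    have := congrArg (fun v : EN M => v l) h
    simpa using this
  · intro h
    ext l
    simpa using h l

theorem continuous_vec (i : Fin k) : Continuous (vec (E i) : EN N → EN M) := by
  unfold vec
  have h1 : Continuous fun x : EN N => fun l => eval x.ofLp (E i l) := by
    refine continuous_pi fun l => ?_
    exact continuous_iff_continuousAt.2 fun x => (analyticAt_evalEN (E i l) x).continuousAt
  exact (PiLp.continuous_toLp 2 _).comp h1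

theorem analyticAt_co (s : Option Bool) (p : ℂ × ℂ) : AnalyticAt ℂ (co s) p := by
  rcases s with _ | _ | _
  · exact analyticAt_const
  · exact analyticAt_fst
  · exact analyticAt_snd

/-- the local equations of all components -/
theorem local_eqn (hE : ∀ i l, (E i l).IsHomogeneous (c i)) (hs : Snc P H E b) {x : EN N} (hx : x ∈ coneE P) :
    ∃ (τ : EN N → ℂ × ℂ) (s : Fin k → Option Bool), AnalyticAt ℂ τ x ∧ τ x = 0 ∧ (∀ i i', s i ≠ none → s i = s i' → i = i') ∧
      (∀ i, ∀ᶠ y in 𝓝 x, y ∈ coneE P → (vec (E i) y = 0 ↔ co (s i) (τ y) = 0)) ∧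
      (∀ᶠ y in 𝓝 x, y ∈ coneE P → τ y = 0 → ∃ a : ℂ, y = a • x) ∧ (eval x.ofLp H = 0 → ∃ i, vec (E i) x = 0) := by
  obtain ⟨σ, τ, s, e, u, hch, hσ0, hinj, he, hu, hu0, hH⟩ := hs.chart x hx
  have hτx : τ x = 0 := by
    rw [← hσ0]
    exact hch.left.self_of_nhds
  have hτa : AnalyticAt ℂ τ x := by
    rw [← hσ0]
    exact hch.τ_an
  have hτt : Tendsto τ (𝓝 x) (𝓝 0) := by
    have := hτa.continuousAt.tendsto
    rwa [hτx] at this
  have hright := hch.right
  rw [hσ0] at hright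
  refine ⟨τ, s, hτa, hτx, hinj, fun i => ?_, ?_, ?_⟩
  · have h1 : ∀ᶠ y in 𝓝 (0 : ℂ × ℂ), e i y ≠ 0 := (he i).1.continuousAt.eventually_ne (he i).2.1
    filter_upwards [hright, hτt.eventually h1, hτt.eventually (he i).2.2] with y h2 h3 h4 hy
    obtain ⟨a, ha, hya⟩ := h2 hy
    have h5 : vec (E i) y = a ^ c i • (co (s i) (τ y) • e i (τ y)) := by
      conv_lhs => rw [hya]
      rw [vec_smul (hE i), h4]
    rw [h5, smul_eq_zero, smul_eq_zero]
    constructor
    · rintro (h6 | h6 | h6)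
      · exact absurd h6 (pow_ne_zero _ ha)
      · exact h6
      · exact absurd h6 h3
    · intro h6
      exact Or.inr (Or.inl h6)
  · filter_upwards [hright] with y h2 hy h3
    obtain ⟨a, ha, hya⟩ := h2 hy
    refine ⟨a, ?_⟩
    rw [h3, hσ0] at hya
    exact hya
  · intro hHx
    have h1 := hH.self_of_nhds
    rw [hσ0, hHx] at h1
    have h2 := (mul_eq_zero.1 h1.symm).resolve_left hu0
    obtain ⟨i, -, hi⟩ := Finset.prod_eq_zero_iff.1 h2
    have h3 : co (s i) (0 : ℂ × ℂ) = 0 := eq_zero_of_pow_eq_zero hi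
    refine ⟨i, ?_⟩
    have h4 := (he i).2.2.self_of_nhds
    rw [hσ0, h3, zero_smul] at h4
    exact h4

end BdyAux

open BdyAux

/-- MODULE H7: entire curves in the boundary -/
theorem h1_of (hX : Surface (coneE P)) (hc : IsCone (coneE P)) (hP : Homog P) (hE : ∀ i l, (E i l).IsHomogeneous (c i)) (hs : Snc P H E b)
    (hB : NoBdyCurve P E) (𝒰 : Ultrafilter ℕ) (h𝒰 : (𝒰 : Filter ℕ) ≤ atTop) (F : ℕ → ℂ → EN N) (H' : ℂ → EN N)
    (hF : ∀ k, Differentiable ℂ (F k)) (hFK : ∀ k z, F k z ∈ oc P H) (hH' : Differentiable ℂ H') (hH : ∀ z, H' z ∈ coneE P ∧ H' z ∉ oc P H)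
    (hlim : ∀ z, (∃ i i', i ≠ i' ∧ vec (E i) (H' z) = 0 ∧ vec (E i') (H' z) = 0) →
      ∃ r : ℝ, 0 < r ∧ ∃ u : ℕ → ℂ → ℂ, (∀ᶠ k in (𝒰 : Filter ℕ), DifferentiableOn ℂ (u k) (ball z r) ∧ ∀ w ∈ ball z r, u k w ≠ 0) ∧
        TendstoLocallyUniformlyOn (fun k w => u k w • F k w) H' 𝒰 (ball z r)) (z z' : ℂ) : ∃ c : ℂ, H' z = c • H' z' := by
  have hne0 : ∀ z, H' z ≠ 0 := fun z h0 => hX.zero (h0 ▸ (hH z).1)
  -- the open sets `K i`
  have hzero_ne : ∀ i, ∀ x ∈ oc P H, vec (E i) x ≠ 0 := by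
    intro i x hx h0
    have hx1 : x ∈ coneE P := hx.1
    obtain ⟨σ, τ, s, e, u, hch, hσ0, hinj, he, hu, hu0, hHe⟩ := hs.chart x hx1
    have h1 := (he i).2.2.self_of_nhds
    rw [hσ0, h0] at h1
    have h2 : co (s i) (0 : ℂ × ℂ) = 0 := (smul_eq_zero.1 h1.symm).resolve_right (he i).2.1
    have h3 := hHe.self_of_nhds
    rw [hσ0] at h3
    apply hx.2 0
    rw [h3]
    have h4 : ∏ i, co (s i) (0 : ℂ × ℂ) ^ b i = 0 := by
      refine Finset.prod_eq_zero (Finset.mem_univ i) ?_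
      rw [h2, zero_pow]
      have := hs.pos i
      omega
    rw [h4, mul_zero]
  have hopen : ∀ i z₀, vec (E i) (H' z₀) = 0 → ∀ᶠ z in 𝓝 z₀, vec (E i) (H' z) = 0 := by
    intro i z₀ h0
    by_cases hcr : ∃ i', i' ≠ i ∧ vec (E i') (H' z₀) = 0
    swap
    · push Not at hcr
      have h1 : ∀ᶠ z in 𝓝 z₀, ∀ i' ∈ (Finset.univ.filter fun i' => i' ≠ i), vec (E i') (H' z) ≠ 0 := by
        rw [Filter.eventually_all_finset]
        intro i' hi'
        exact (((continuous_vec i').comp hH'.continuous).continuousAt (x := z₀)).eventually_ne (hcr i' (Finset.mem_filter.1 hi').2)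
      filter_upwards [h1] with z hz
      obtain ⟨τ, s, -, -, -, -, -, h2⟩ := local_eqn hE hs (hH z).1
      obtain ⟨i'', hi''⟩ : ∃ i, vec (E i) (H' z) = 0 := by
        apply h2
        by_contra h3
        exact (hH z).2 ⟨(hH z).1, fun _ => h3⟩
      by_cases h4 : i'' = i
      · rwa [h4] at hi''
      · exact absurd hi'' (hz i'' (Finset.mem_filter.2 ⟨Finset.mem_univ _, h4⟩))
    obtain ⟨i₂, hi₂, hi₂'⟩ := hcr
    set K : Set (EN N) := {x | x ∈ coneE P ∧ vec (E i) x ≠ 0} with hK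
    obtain ⟨r, hr, u, hu, hconv⟩ := hlim z₀ ⟨i, i₂, hi₂.symm, h0, hi₂'⟩
    have hcl : ∀ x ∈ closure K, x ≠ 0 → x ∈ coneE P := fun x hx hx0 =>
      hX.closed x (closure_mono (fun y hy => hy.1) hx) hx0
    have heqn : ∀ x ∈ coneE P, ∃ g : EN N → ℂ, AnalyticAt ℂ g x ∧ ∀ᶠ y in 𝓝 x, y ∈ coneE P → (y ∉ K ↔ g y = 0) := by
      intro x hx
      obtain ⟨τ, s, hτ, hτx, -, hloc, -, -⟩ := local_eqn hE hs hx
      refine ⟨fun y => co (s i) (τ y), AnalyticAt.comp (g := co (s i)) (f := τ) (analyticAt_co _ _) hτ, ?_⟩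
      filter_upwards [hloc i] with y hy hyX
      rw [← hy hyX]
      constructor
      · intro h1
        by_contra h2
        exact h1 ⟨hyX, h2⟩
      · intro h1 h2
        exact h2.2 h1
    have h1 := Pool.Agent.H36.BPB.hur_of_eqn (X := coneE P) (K := K) hcl (fun y hy => hy.1) heqn (𝒰 : Filter ℕ) inferInstance
      (fun k w => u k w • F k w) H' z₀ r hr ?_ hH'.differentiableOn hconv (hne0 z₀) ?_
    · filter_upwards [h1] with z hz
      by_contra h2
      exact hz ⟨(hH z).1, h2⟩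
    · filter_upwards [hu] with n hn
      refine ⟨hn.1.smul (hF n).differentiableOn, fun w hw => ⟨hX.smul _ (hFK n w).1 _ (hn.2 w hw), ?_⟩⟩
      rw [vec_smul (hE i)]
      exact smul_ne_zero (pow_ne_zero _ (hn.2 w hw)) (hzero_ne i _ (hFK n w))
    · intro h2
      exact h2.2 h0
  -- all or nothing
  have hall : ∀ i z₀, vec (E i) (H' z₀) = 0 → ∀ z, vec (E i) (H' z) = 0 := by
    intro i z₀ h0
    have h1 : IsClopen {z | vec (E i) (H' z) = 0} := by
      refine ⟨isClosed_eq ((continuous_vec i).comp hH'.continuous) continuous_const, ?_⟩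
      rw [isOpen_iff_eventually]
      intro z hz
      exact hopen i z hz
    have h2 := h1.eq_univ ⟨z₀, h0⟩
    intro z
    have h3 : z ∈ {z | vec (E i) (H' z) = 0} := by
      rw [h2]
      exact Set.mem_univ z
    exact h3
  -- the curve in the projective space
  have hoL : ∀ z, (H' z).ofLp ≠ 0 := by
    intro z h0
    apply hne0 z
    ext l
    simpa using congrFun h0 l
  set f : ℂ → PN N := fun z => Projectivization.mk ℂ (H' z).ofLp (hoL z) with hf
  have hfin : ∀ z z', f z = f z' → ∃ c : ℂ, H' z = c • H' z' := by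
    intro z z' h1
    rw [hf] at h1
    obtain ⟨a, ha⟩ := (Projectivization.mk_eq_mk_iff' ℂ _ _ _ _).1 h1
    refine ⟨a, ?_⟩
    ext l
    have := congrFun ha l
    simpa using this.symm
  obtain ⟨i₀, hi₀⟩ : ∃ i, vec (E i) (H' 0) = 0 := by
    obtain ⟨τ, s, -, -, -, -, -, h1⟩ := local_eqn hE hs (hH 0).1
    apply h1
    by_contra h2
    exact (hH 0).2 ⟨(hH 0).1, fun _ => h2⟩
  by_cases huniq : ∃ i', i' ≠ i₀ ∧ ∃ z₁, vec (E i') (H' z₁) = 0
  · -- two components
    obtain ⟨i', hne, z₁, hz₁⟩ := huniq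
    have hA := hall i₀ 0 hi₀
    have hB' := hall i' z₁ hz₁
    have hloc : ∀ z₀, ∀ᶠ z in 𝓝 z₀, f z = f z₀ := by
      intro z₀
      obtain ⟨τ, s, hτ, hτx, hinj, hl, hcst, -⟩ := local_eqn hE hs (hH z₀).1
      have h1 := hH'.continuous.continuousAt (x := z₀)
      filter_upwards [h1.eventually (hl i₀), h1.eventually (hl i'), h1.eventually hcst] with z h2 h3 h4
      have h5 := (h2 (hH z).1).1 (hA z)
      have h6 := (h3 (hH z).1).1 (hB' z)
      have hs1 : s i₀ ≠ none := by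
        intro h7
        rw [h7] at h5
        exact one_ne_zero h5
      have hs2 : s i' ≠ none := by
        intro h7
        rw [h7] at h6
        exact one_ne_zero h6
      have hs3 : s i₀ ≠ s i' := fun h7 => hne (hinj i₀ i' hs1 h7).symm
      have h7 : τ (H' z) = 0 := by
        obtain ⟨b₁, hb₁⟩ := Option.ne_none_iff_exists'.1 hs1
        obtain ⟨b₂, hb₂⟩ := Option.ne_none_iff_exists'.1 hs2
        rw [hb₁] at h5 hs3
        rw [hb₂] at h6 hs3
        cases b₁ <;> cases b₂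
        · exact absurd rfl hs3
        · exact Prod.ext h5 h6
        · exact Prod.ext h6 h5
        · exact absurd rfl hs3
      obtain ⟨a, ha⟩ := h4 (hH z).1 h7
      rw [hf]
      simp only
      rw [Projectivization.mk_eq_mk_iff']
      refine ⟨a, ?_⟩
      funext l
      rw [ha]
      simp
    have hconst : IsLocallyConstant f := IsLocallyConstant.iff_eventually_eq f |>.2 fun z₀ => hloc z₀
    exact hfin z z' (hconst.apply_eq_of_preconnectedSpace z z')
  · push Not at huniq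
    apply hfin
    refine hB i₀ f ?_ ?_ ?_ z z'
    · intro z₀ _
      refine ⟨fun z => (H' z).ofLp, ?_, Eventually.of_forall fun z => ⟨hoL z, rfl⟩⟩
      have h1 : AnalyticAt ℂ H' z₀ := hH'.analyticAt z₀
      exact AnalyticAt.comp (g := fun v : EN N => v.ofLp) (f := H')
        ((EuclideanSpace.equiv (Fin (N + 1)) ℂ).toContinuousLinearMap.analyticAt _) h1
    · intro z
      refine ⟨(mk_mem_projVar hP (hoL z)).2 (hH z).1, fun l => ?_⟩
      exact (vanishesAt_mk_iff (hE i₀ l) _ (hoL z)).2 (vec_eq_zero.1 (hall i₀ 0 hi₀ z) l)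
    · intro i' hi' z
      have h1 := huniq i' hi' z
      rw [Ne, vec_eq_zero] at h1
      push Not at h1
      obtain ⟨l, hl⟩ := h1
      exact ⟨l, fun h2 => hl ((vanishesAt_mk_iff (hE i' l) _ (hoL z)).1 h2)⟩

end Pool.Agent.SR3

end
end

section

/-!
# SR3 Wfl: the elementary properties of a symmetric differential on the affine surface
-/

set_option autoImplicit false

open Topology Filter Metric MvPolynomial

noncomputable section

namespace Pool.Agent.SR3

open Pool.Agent.H36.BP (EN)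
open Pool.Agent.H14.PP (IsCone Tan IsOpenPart)
open Pool.Agent.H62.FC (Homog)
open Pool.Agent.H17LG.Variety (FunField)
open Pool.Agent.H17EF (coneE)
open Pool.Agent.AD (SymDiff Charts charts_coneE isCone_coneE)
open Pool.Agent.AD.NC (IsSmooth)
open Pool.Agent.SDA (affOpen E2_inv E2_tan E2_cont)

variable {N h : ℕ} {P : Ideal (MvPolynomial (Fin (N + 1)) ℂ)} {H : MvPolynomial (Fin (N + 1)) ℂ}

/-- `oc P H` is a relatively open part of the cone -/
theorem isOpenPart_oc (hP : Homog P) (hH : H.IsHomogeneous h) (h1 : 1 ≤ h) : IsOpenPart (coneE P) (oc P H) :=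
  (affOpen (k := 1) (H := fun _ => H) (e := fun _ => h) hP le_rfl (fun _ => hH) fun _ => h1).isOpenPart (isCone_coneE hP)

/-- MODULE H9 (Wfl.lean): the fields of `Geo.Ok` for a symmetric differential (compare `SDA/E2.lean`) -/
theorem sym_fields [P.IsPrime] {z : Fin 2 → FunField P} (hP : Homog P) (hz : IsTranscendenceBasis ℂ z) (hsm : IsSmooth P 2)
    (hH : H.IsHomogeneous h) (h1 : 1 ≤ h) {m : ℕ} (_hm : 1 ≤ m) (θ : SymDiff (oc P H) m) :
    (∀ x ∈ oc P H, ∀ v, Tan (coneE P) x v → ∀ c a : ℂ, c ≠ 0 → θ.toFun (c • x) (c • v + a • x) = θ.toFun x v) ∧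
    (∀ x ∈ oc P H, ∀ v, Tan (coneE P) x v → ∀ c : ℂ, θ.toFun x (c • v) = c ^ m * θ.toFun x v) ∧
    ContinuousOn (fun y : EN N × EN N => θ.toFun y.1 y.2) {y | y.1 ∈ oc P H ∧ Tan (coneE P) y.1 y.2} := by
  have hX : IsCone (coneE P) := isCone_coneE hP
  have hK : IsOpenPart (coneE P) (oc P H) := isOpenPart_oc hP hH h1
  have hch : Charts 2 (coneE P) := charts_coneE hP hz hsm
  exact ⟨fun x hx v h c a hc => E2_inv hX hK θ hx h hc a, fun x hx v h c => θ.smul x v (E2_tan hK hx h) c, E2_cont hX hch hK θ⟩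

end Pool.Agent.SR3

end
end

section

/-!
# SR3 Qnl: the curve `Z` is null in a quantitative sense (MODULE H5)

`SDR.disc_null` for the polynomial of `θ j` and the family of the generators of `P` and the `R l`.
-/

set_option autoImplicit false

open Topology Filter Metric MvPolynomial

noncomputable section

namespace Pool.Agent.SR3

open Pool.Agent.H36.BP (EN fs wd wd_sq wd_le fs_nonneg)
open Pool.Agent.H17BP (Surface IsChart IsForm NoZeros)
open Pool.Agent.H14.PP (IsCone Tan CurveAt)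
open Pool.Agent.H17 (PN VanishesAt HolomorphicInto)
open Pool.Agent.H62.FC (Homog)
open Pool.Agent.H17LG.Variety (FunField)
open Pool.Agent.H17EF (projVar coneE LE)
open Pool.Agent.H13.SM (conTan cone Inv_hasFDerivAt_eval)
open Pool.Agent.AD (SymDiff TangentTo)
open Pool.Agent.AD.NC (IsSmooth)
open Pool.Agent.SDA (openCone)

variable {N k M : ℕ} {P : Ideal (MvPolynomial (Fin (N + 1)) ℂ)}

/-- the Zariski tangent vectors of the cone of a smooth surface are tangent vectors -/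
theorem tan_of_conTan [P.IsPrime] {z : Fin 2 → FunField P} (hP : Homog P) (hz : IsTranscendenceBasis ℂ z) (hsm : IsSmooth P 2) {x v : EN N}
    (hx : x ∈ coneE P) (hv : (LE N).symm v ∈ conTan P ((LE N).symm x)) : Tan (coneE P) x v := by
  have hX : Surface (coneE P) := Pool.Agent.H90.SG.surface_coneE hP hz hsm
  obtain ⟨σ, τ, hσ, hσ0⟩ := hX.chart x hx
  have hli := (Pool.Agent.H90.SG.linInd_chart hσ).self_of_nhds
  -- curves
  have hcurve : ∀ (a : ℂ) (w : ℂ × ℂ), Tan (coneE P) x (fderiv ℂ σ 0 w + a • x) := by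
    intro a w
    have hg : HasDerivAt (fun z : ℂ => z • w) w 0 := by
      simpa using (hasDerivAt_id (0 : ℂ)).smul_const w
    have hσd : HasFDerivAt σ (fderiv ℂ σ 0) ((0 : ℂ) • w) := by
      rw [zero_smul]; exact hσ.σ_an.differentiableAt.hasFDerivAt
    have h1 : HasDerivAt (fun z : ℂ => σ (z • w)) (fderiv ℂ σ 0 w) 0 := hσd.comp_hasDerivAt (0 : ℂ) hg
    have h2 : HasDerivAt (fun z : ℂ => 1 + a * z) a 0 := by
      simpa using ((hasDerivAt_id (0 : ℂ)).const_mul a).const_add 1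
    have h3 := h2.smul h1
    refine ⟨fun z => (1 + a * z) • σ (z • w), ⟨?_, ?_⟩, ?_, ?_⟩
    · have e1 : AnalyticAt ℂ (fun z : ℂ => z • w) 0 := (analyticAt_id).smul analyticAt_const
      have e2 : AnalyticAt ℂ σ ((fun z : ℂ => z • w) 0) := by simpa using hσ.σ_an
      exact (analyticAt_const.add (analyticAt_const.mul analyticAt_id)).smul
        (AnalyticAt.comp (g := σ) (f := fun z : ℂ => z • w) e2 e1)
    · have c1 : Tendsto (fun z : ℂ => z • w) (𝓝 0) (𝓝 0) := by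
        have : Continuous fun z : ℂ => z • w := by fun_prop
        simpa using this.tendsto 0
      have c2 : ∀ᶠ z : ℂ in 𝓝 0, (1 + a * z) ≠ 0 := by
        have : ContinuousAt (fun z : ℂ => 1 + a * z) 0 := by fun_prop
        exact this.eventually_ne (by simp)
      filter_upwards [c1.eventually hσ.σ_mem, c2] with z hz1 hz2
      exact hX.smul _ hz1 _ hz2
    · simp [hσ0]
    · have h4 : deriv (fun z => (1 + a * z) • σ (z • w)) 0 = (1 + a * 0) • (fderiv ℂ σ 0) w + a • σ ((0 : ℂ) • w) := h3.deriv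
      rw [h4]
      simp [hσ0]
  -- the span
  have hmem : ∀ u : EN N, Tan (coneE P) x u → (LE N).symm u ∈ conTan P ((LE N).symm x) := fun u hu => Pool.Agent.AD.P.conTan_of_tan hu
  have hdim : Module.finrank ℂ (conTan P ((LE N).symm x)) ≤ 3 := hsm _ hx.1 hx.2
  set L : EN N →ₗ[ℂ] (Fin (N + 1) → ℂ) := ((LE N).symm : EN N →L[ℂ] (Fin (N + 1) → ℂ)).toLinearMap with hL
  have hLi : Function.Injective L := (LE N).symm.injective
  set b : Fin 3 → (Fin (N + 1) → ℂ) := L ∘ ![σ 0, fderiv ℂ σ 0 (1, 0), fderiv ℂ σ 0 (0, 1)] with hb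
  have hbli : LinearIndependent ℂ b := hli.map' L (LinearMap.ker_eq_bot.2 hLi)
  have hb0 : b 0 = (LE N).symm x := by
    change (LE N).symm (σ 0) = _
    rw [hσ0]
  have hb1 : b 1 = (LE N).symm (fderiv ℂ σ 0 (1, 0)) := rfl
  have hb2 : b 2 = (LE N).symm (fderiv ℂ σ 0 (0, 1)) := rfl
  have hbmem : ∀ i, b i ∈ conTan P ((LE N).symm x) := by
    rw [Fin.forall_fin_succ, Fin.forall_fin_succ, Fin.forall_fin_succ]
    refine ⟨?_, ?_, ?_, fun i => i.elim0⟩
    · have := hmem _ (hcurve 1 0)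
      simp only [map_zero, zero_add, one_smul] at this
      rw [hb0]; exact this
    · have := hmem _ (hcurve 0 (1, 0))
      simp only [zero_smul, add_zero] at this
      exact this
    · have := hmem _ (hcurve 0 (0, 1))
      simp only [zero_smul, add_zero] at this
      exact this
  have hspan : Submodule.span ℂ (Set.range b) = conTan P ((LE N).symm x) := by
    apply Submodule.eq_of_le_of_finrank_le
    · rw [Submodule.span_le]
      rintro _ ⟨i, rfl⟩
      exact hbmem i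
    · rw [finrank_span_eq_card hbli]
      simpa using hdim
  rw [← hspan, Submodule.mem_span_range_iff_exists_fun] at hv
  obtain ⟨c, hc⟩ := hv
  have h1 : v = fderiv ℂ σ 0 (c 1, c 2) + c 0 • x := by
    apply (LE N).symm.injective
    rw [← hc, Fin.sum_univ_three]
    have e1 : ((c 1, c 2) : ℂ × ℂ) = c 1 • (1, 0) + c 2 • (0, 1) := by simp
    rw [e1, hb0, hb1, hb2]
    simp only [map_add, map_smul]
    abel
  rw [h1]
  exact hcurve _ _

private theorem tan_comb {X : Set (EN N)} (hX : ∀ x ∈ X, ∀ c : ℂ, c ≠ 0 → c • x ∈ X) {x v : EN N} (h : Tan X x v) (t a : ℂ) :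
    Tan X x (t • v + a • x) := by
  obtain ⟨F, ⟨hF, hFX⟩, h0, h1⟩ := h
  have g1 : HasDerivAt (fun z : ℂ => t * z) t 0 := by simpa using (hasDerivAt_id (0 : ℂ)).const_mul t
  have g2 : HasDerivAt F v (t * 0) := by rw [mul_zero, ← h1]; exact hF.differentiableAt.hasDerivAt
  have g3 : HasDerivAt (fun z : ℂ => F (t * z)) (t • v) 0 := HasDerivAt.scomp (0 : ℂ) g2 g1
  have g4 : HasDerivAt (fun z : ℂ => 1 + a * z) a 0 := by
    simpa using ((hasDerivAt_id (0 : ℂ)).const_mul a).const_add 1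
  have g5 := g4.smul g3
  refine ⟨fun z => (1 + a * z) • F (t * z), ⟨?_, ?_⟩, ?_, ?_⟩
  · have e1 : AnalyticAt ℂ (fun z : ℂ => t * z) 0 := analyticAt_const.mul analyticAt_id
    have e2 : AnalyticAt ℂ F ((fun z : ℂ => t * z) 0) := by simpa using hF
    exact (analyticAt_const.add (analyticAt_const.mul analyticAt_id)).smul (AnalyticAt.comp (g := F) (f := fun z : ℂ => t * z) e2 e1)
  · have c1 : Tendsto (fun z : ℂ => t * z) (𝓝 0) (𝓝 0) := by
      have : Continuous fun z : ℂ => t * z := by fun_prop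
      simpa using this.tendsto 0
    have c2 : ∀ᶠ z : ℂ in 𝓝 0, (1 + a * z) ≠ 0 := by
      have : ContinuousAt (fun z : ℂ => 1 + a * z) 0 := by fun_prop
      exact this.eventually_ne (by simp)
    filter_upwards [c1.eventually hFX, c2] with z hz1 hz2
    exact hX _ hz1 _ hz2
  · simp [h0]
  · have h4 : deriv (fun z => (1 + a * z) • F (t * z)) 0 = (1 + a * 0) • (t • v) + a • F (t * 0) := g5.deriv
    rw [h4]
    simp [h0]

private theorem fderiv_eval (Q : MvPolynomial (Fin (N + 1)) ℂ) (x v : EN N) :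
    fderiv ℂ (fun y : EN N => eval y.ofLp Q) x v = ∑ i, v i * eval x.ofLp (pderiv i Q) := by
  have h1 : HasFDerivAt (fun y : EN N => y.ofLp) ((LE N).symm : EN N →L[ℂ] (Fin (N + 1) → ℂ)) x :=
    ((LE N).symm : EN N →L[ℂ] (Fin (N + 1) → ℂ)).hasFDerivAt
  have h2 := (Inv_hasFDerivAt_eval Q x.ofLp).comp x h1
  have h3 : HasFDerivAt (fun y : EN N => eval y.ofLp Q)
      ((∑ i, eval x.ofLp (pderiv i Q) • (ContinuousLinearMap.proj i : (Fin (N + 1) → ℂ) →L[ℂ] ℂ)).comp
        ((LE N).symm : EN N →L[ℂ] (Fin (N + 1) → ℂ))) x := h2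
  rw [h3.fderiv]
  have e : ((LE N).symm : EN N →L[ℂ] (Fin (N + 1) → ℂ)) v = v.ofLp := rfl
  rw [ContinuousLinearMap.comp_apply, e]
  simp only [sum_apply, FunLike.coe_smul, Pi.smul_apply, ContinuousLinearMap.proj_apply, smul_eq_mul]
  exact Finset.sum_congr rfl fun i _ => mul_comm _ _

private theorem cont_eval (Q : MvPolynomial (Fin (N + 1)) ℂ) : Continuous fun y : EN N => eval y.ofLp Q :=
  (MvPolynomial.continuous_eval Q).comp (LE N).symm.continuous

private theorem oc_smul {H : MvPolynomial (Fin (N + 1)) ℂ} {h : ℕ} (hH : H.IsHomogeneous h) (hX : Surface (coneE P)) :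
    ∀ x ∈ oc P H, ∀ c : ℂ, c ≠ 0 → c • x ∈ oc P H := by
  intro x hx c hc
  refine ⟨hX.smul x hx.1 c hc, fun i => ?_⟩
  have h1 := hx.2 i
  have h2 : eval (c • x).ofLp H = c ^ h * eval x.ofLp H := Pool.Agent.AD.P.eval_smul_of_homog hH c x.ofLp
  rw [h2]
  exact mul_ne_zero (pow_ne_zero _ hc) h1

/-- an algebraic symmetric differential on a compact part -/
private theorem sym_le {H : MvPolynomial (Fin (N + 1)) ℂ} {h : ℕ} (hH : H.IsHomogeneous h) (hX : Surface (coneE P)) {m : ℕ} (hm : 1 ≤ m)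
    (θ : SymDiff (oc P H) m) {W : MvPolynomial (Fin (N + 1) ⊕ Fin (N + 1)) ℂ} {r : ℕ}
    (hW : ∀ x ∈ oc P H, ∀ v, Tan (oc P H) x v → θ.toFun x v * eval x.ofLp H ^ r = eval (Sum.elim x.ofLp v.ofLp) W) (B : ℝ) :
    ∃ A : ℝ, 0 ≤ A ∧ ∀ x ∈ oc P H, eval x.ofLp H = 1 → ‖x‖ ≤ B → ∀ v, Tan (oc P H) x v → ‖v‖ ≤ B → ‖θ.toFun x v‖ ≤ A * fs x v := by
  have hK : IsCompact (closedBall (0 : EN N) B ×ˢ closedBall (0 : EN N) 1) := (isCompact_closedBall _ _).prod (isCompact_closedBall _ _)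
  have hc : Continuous fun p : EN N × EN N => eval (Sum.elim p.1.ofLp p.2.ofLp) W := by
    refine (MvPolynomial.continuous_eval W).comp (continuous_pi fun i => ?_)
    rcases i with i | i
    · exact (continuous_apply i).comp ((LE N).symm.continuous.comp continuous_fst)
    · exact (continuous_apply i).comp ((LE N).symm.continuous.comp continuous_snd)
  obtain ⟨A₁, hA₁⟩ := hK.exists_bound_of_continuousOn hc.continuousOn
  refine ⟨|A₁| * |B| ^ (m - 1) * |B|, by positivity, fun x hx hHx hxB v hv hvB => ?_⟩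
  have hoc := oc_smul hH hX
  have hx0 : x ≠ 0 := fun h0 => hx.1.1 (by rw [h0]; rfl)
  have hxn : 0 < ‖x‖ := norm_pos_iff.2 hx0
  have hB0 : 0 ≤ B := hxn.le.trans hxB
  set c : ℂ := inner ℂ x v / (‖x‖ : ℂ) ^ 2 with hcdef
  set v' : EN N := v + (-c) • x with hv'
  have horth : inner ℂ x v' = (0 : ℂ) := by
    have hxx : (inner ℂ x x : ℂ) = (‖x‖ : ℂ) ^ 2 := inner_self_eq_norm_sq_to_K x
    have : ((‖x‖ : ℂ)) ^ 2 ≠ 0 := pow_ne_zero _ (by exact_mod_cast hxn.ne')
    rw [hv', inner_add_right, inner_smul_right, hxx, hcdef, neg_mul, div_mul_cancel₀ _ this, add_neg_cancel]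
  have hwd : wd x v = ‖x‖ * ‖v'‖ := by
    have h1 : wd x v = wd x v' := by
      have h := Pool.Agent.H36.BP.wd_inv x v 1 (-c)
      rw [one_smul, one_smul, norm_one] at h
      rw [hv', h]; ring
    have h2 := wd_sq x v'
    rw [horth, norm_zero] at h2
    rw [h1]
    have h3 : wd x v' ^ 2 = (‖x‖ * ‖v'‖) ^ 2 := by rw [h2]; ring
    exact (pow_left_inj₀ (Pool.Agent.H36.BP.wd_nonneg _ _) (by positivity) two_ne_zero).mp h3
  have hv'n : ‖v'‖ = fs x v * ‖x‖ := by
    unfold fs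
    rw [hwd]
    field_simp
  have hv'le : ‖v'‖ ≤ |B| := by
    have h1 : ‖x‖ * ‖v'‖ ≤ ‖x‖ * ‖v‖ := by rw [← hwd]; exact wd_le _ _
    exact (le_of_mul_le_mul_left h1 hxn).trans (hvB.trans (le_abs_self _))
  have hT' : Tan (oc P H) x v' := by
    have := tan_comb hoc hv 1 (-c)
    rwa [one_smul] at this
  have hθ' : θ.toFun x v = θ.toFun x v' := (θ.add_smul x v hv (-c)).symm
  rcases eq_or_ne v' 0 with h0 | h0
  · have h1 : θ.toFun x v' = 0 := by
      have h2 := θ.smul x v' hT' 0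
      rw [zero_smul, zero_pow (by omega), zero_mul] at h2
      rw [h0]; exact h2
    rw [hθ', h1, norm_zero]
    exact mul_nonneg (by positivity) (fs_nonneg _ _)
  · have hv'pos : 0 < ‖v'‖ := norm_pos_iff.2 h0
    set u : EN N := ((‖v'‖ : ℂ)⁻¹) • v' with hu
    have hun : ‖u‖ = 1 := by
      rw [hu, norm_smul, norm_inv, Complex.norm_real, norm_norm, inv_mul_cancel₀ hv'pos.ne']
    have hTu : Tan (oc P H) x u := by
      have := tan_comb hoc hT' ((‖v'‖ : ℂ)⁻¹) 0
      rwa [zero_smul, add_zero] at this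
    have hvu : v' = (‖v'‖ : ℂ) • u := by
      rw [hu, smul_smul, mul_inv_cancel₀ (by exact_mod_cast hv'pos.ne'), one_smul]
    have h1 : θ.toFun x v' = (‖v'‖ : ℂ) ^ m * θ.toFun x u := by
      conv_lhs => rw [hvu]
      exact θ.smul x u hTu _
    have h2 : ‖θ.toFun x u‖ ≤ |A₁| := by
      have h3 := hW x hx u hTu
      rw [hHx, one_pow, mul_one] at h3
      rw [h3]
      exact (hA₁ (x, u) ⟨by simpa using hxB, by simp [hun]⟩).trans (le_abs_self _)
    rw [hθ', h1, norm_mul, norm_pow, Complex.norm_real, norm_norm]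
    calc ‖v'‖ ^ m * ‖θ.toFun x u‖ = ‖v'‖ ^ (m - 1) * ‖v'‖ * ‖θ.toFun x u‖ := by
          rw [← pow_succ, Nat.sub_add_cancel hm]
      _ ≤ |B| ^ (m - 1) * (fs x v * |B|) * |A₁| := by
          have h5 : ‖v'‖ ≤ fs x v * |B| := by
            rw [hv'n]
            exact mul_le_mul_of_nonneg_left (hxB.trans (le_abs_self _)) (fs_nonneg _ _)
          have h6 : ‖v'‖ ^ (m - 1) ≤ |B| ^ (m - 1) := pow_le_pow_left₀ (norm_nonneg _) hv'le _
          have h7 := fs_nonneg x v
          exact mul_le_mul (mul_le_mul h6 h5 (norm_nonneg _) (by positivity)) h2 (norm_nonneg _) (by positivity)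
      _ = |A₁| * |B| ^ (m - 1) * |B| * fs x v := by ring

/-- the ideal of the polynomials which vanish at `x` with their derivative in the direction of `v` -/
private theorem gen_all {G : Finset (MvPolynomial (Fin (N + 1)) ℂ)} (hG : Ideal.span (G : Set (MvPolynomial (Fin (N + 1)) ℂ)) = P)
    {x v : Fin (N + 1) → ℂ} (h1 : ∀ Q ∈ G, eval x Q = 0) (h2 : ∀ Q ∈ G, ∑ i, v i * eval x (pderiv i Q) = 0) :
    (∀ Q ∈ P, eval x Q = 0) ∧ ∀ Q ∈ P, ∑ i, v i * eval x (pderiv i Q) = 0 := by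
  have key : ∀ Q ∈ P, eval x Q = 0 ∧ ∑ i, v i * eval x (pderiv i Q) = 0 := by
    intro Q hQ
    rw [← hG] at hQ
    induction hQ using Submodule.span_induction with
    | mem Q hQ => exact ⟨h1 Q hQ, h2 Q hQ⟩
    | zero => simp
    | add p q _ _ hp hq =>
      refine ⟨by rw [map_add, hp.1, hq.1, add_zero], ?_⟩
      simp only [map_add, mul_add, Finset.sum_add_distrib, hp.2, hq.2, add_zero]
    | smul a p _ hp =>
      refine ⟨by rw [smul_eq_mul, map_mul, hp.1, mul_zero], ?_⟩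
      simp only [smul_eq_mul, Derivation.leibniz, map_add, map_mul, hp.1, zero_mul, add_zero]
      have : ∑ i, v i * (eval x a * eval x (pderiv i p)) = eval x a * ∑ i, v i * eval x (pderiv i p) := by
        rw [Finset.mul_sum]
        exact Finset.sum_congr rfl fun i _ => by ring
      rw [this, hp.2, mul_zero]
  exact ⟨fun Q hQ => (key Q hQ).1, fun Q hQ => (key Q hQ).2⟩

end Pool.Agent.SR3

end
end

section

/-!
# SR3 ALbd: the logarithmic speed of the curves of the class is bounded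

PROOF.  Let `d` be the distance to the good points.  If `d ≥ R`: the functions `lam i` are, up to `O(1)`, real parts of holomorphic functions on a disc of
radius `κ d` (`static`), bounded below, and `≤ C (1 + d)` at the center (`growth`): the derivatives are bounded by Harnack (`deriv_le_re`).
If `d ≤ R`: the curve is bounded on the disc of radius `1` (`growth`), Cauchy's estimate and `L_le_fs`.
The lemma `L_bdd_aux` has the three facts `static`, `growth`, `speed` as hypotheses.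
-/

set_option autoImplicit false

open Topology Filter Metric

noncomputable section

namespace Pool.Agent.SR3

open Pool.Agent.H36.BP (EN fs wd Sub OrdTwo)
open Pool.Agent.H14.PP (IsCone Tan)
open Pool.Agent.SY (Ent)
open Pool.Agent.SDA (EnergyK Near AffOpen Nm nForms)
open Geo (Gd)

variable {N : ℕ} {G : Geo N} {T : Set (EN N)} {rho : EN N → ℝ} {M : ℕ} {c₀ C δ : ℝ} {g : (ℂ → EN N) → ℂ → ℝ}

theorem fs_le_div {x v : EN N} : fs x v ≤ ‖v‖ / ‖x‖ := by
  by_cases hx : x = 0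
  · subst hx
    simp [fs]
  have hx' : 0 < ‖x‖ := norm_pos_iff.2 hx
  have h1 : Real.sqrt (‖x‖ ^ 2 * ‖v‖ ^ 2 - ‖(inner ℂ x v : ℂ)‖ ^ 2) ≤ ‖x‖ * ‖v‖ := by
    rw [← Real.sqrt_sq (mul_nonneg hx'.le (norm_nonneg v))]
    apply Real.sqrt_le_sqrt
    rw [mul_pow]
    exact sub_le_self _ (sq_nonneg _)
  unfold fs wd
  rw [div_le_div_iff₀ (pow_pos hx' 2) hx']
  calc Real.sqrt (‖x‖ ^ 2 * ‖v‖ ^ 2 - ‖(inner ℂ x v : ℂ)‖ ^ 2) * ‖x‖ ≤ ‖x‖ * ‖v‖ * ‖x‖ := mul_le_mul_of_nonneg_right h1 hx'.le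
    _ = ‖v‖ * ‖x‖ ^ 2 := by ring

/-- the estimate of the derivative of a holomorphic function with real part bounded below, by Harnack -/
theorem der_est {h : ℂ → ℂ} {z e : ℂ} {κ d a B₁ B₂ B₃ B₄ : ℝ} {l : ℂ → ℝ} (hκ : 0 < κ) (hd : 1 ≤ d) (ha : 0 ≤ a) (hB₁ : 0 ≤ B₁)
    (hB₂ : 0 ≤ B₂) (hB₃ : 0 ≤ B₃) (hB₄ : 0 ≤ B₄) (hdh : DifferentiableOn ℂ h (ball z (κ * d)))
    (hest : ∀ w ∈ ball z (κ * d), |l w - (h w).re| ≤ B₁) (hlo : ∀ w, -B₃ ≤ l w) (hup : l z ≤ a * (B₂ * (1 + d)) + B₄)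
    (he : ‖e + deriv h z‖ ≤ B₁ / d) : ‖e‖ ≤ 2 * (a * (B₂ * 2) + B₄ + 2 * B₁ + B₃) / κ + B₁ := by
  have hd0 : 0 < d := lt_of_lt_of_le one_pos hd
  have hκd : 0 < κ * d := mul_pos hκ hd0
  have hC : 0 ≤ B₄ + 2 * B₁ + B₃ := add_nonneg (add_nonneg hB₄ (mul_nonneg zero_le_two hB₁)) hB₃
  have h1 : DifferentiableOn ℂ (fun w => h w + ((B₁ + B₃ : ℝ) : ℂ)) (ball z (κ * d)) := hdh.add_const _
  have hre : ∀ w, (h w + ((B₁ + B₃ : ℝ) : ℂ)).re = (h w).re + (B₁ + B₃) := fun w => by rw [Complex.add_re, Complex.ofReal_re]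
  have h2 : ∀ w ∈ ball z (κ * d), 0 ≤ (h w + ((B₁ + B₃ : ℝ) : ℂ)).re := fun w hw => by
    have h3 := (abs_le.1 (hest w hw)).2
    have h4 := hlo w
    rw [hre]
    linarith
  have h3 := deriv_le_re hκd h1 h2
  rw [deriv_add_const, hre] at h3
  have h4 : (h z).re + (B₁ + B₃) ≤ (a * (B₂ * 2) + B₄ + 2 * B₁ + B₃) * d := by
    have h5 := (abs_le.1 (hest z (mem_ball_self hκd))).1
    have h6 : a * (B₂ * (1 + d)) ≤ a * (B₂ * 2) * d := by
      rw [mul_assoc, mul_assoc]
      exact mul_le_mul_of_nonneg_left (mul_le_mul_of_nonneg_left (by linarith) hB₂) ha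
    have h7 : (B₄ + 2 * B₁ + B₃) * 1 ≤ (B₄ + 2 * B₁ + B₃) * d := mul_le_mul_of_nonneg_left hd hC
    have h8 : (a * (B₂ * 2) + B₄ + 2 * B₁ + B₃) * d = a * (B₂ * 2) * d + (B₄ + 2 * B₁ + B₃) * d := by ring
    rw [h8]
    linarith
  have h5 : ‖deriv h z‖ ≤ 2 * (a * (B₂ * 2) + B₄ + 2 * B₁ + B₃) / κ := by
    refine h3.trans ?_
    rw [div_le_div_iff₀ hκd hκ]
    calc 2 * ((h z).re + (B₁ + B₃)) * κ ≤ 2 * ((a * (B₂ * 2) + B₄ + 2 * B₁ + B₃) * d) * κ :=
          mul_le_mul_of_nonneg_right (mul_le_mul_of_nonneg_left h4 zero_le_two) hκ.le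
      _ = 2 * (a * (B₂ * 2) + B₄ + 2 * B₁ + B₃) * (κ * d) := by ring
  calc ‖e‖ = ‖(e + deriv h z) - deriv h z‖ := by rw [add_sub_cancel_right]
    _ ≤ ‖e + deriv h z‖ + ‖deriv h z‖ := norm_sub_le _ _
    _ ≤ B₁ + 2 * (a * (B₂ * 2) + B₄ + 2 * B₁ + B₃) / κ := add_le_add (he.trans (div_le_self hB₁ hd)) h5
    _ = _ := add_comm _ _

/-- the bound of a curve on a disc from the growth -/
theorem bd_est {F : ℂ → EN N} {Z : Set ℂ} {z : ℂ} {R B : ℝ} (hB : 0 ≤ B) (hd : infDist z Z ≤ R) (h0 : ∀ w, 0 < ‖F w‖)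
    (hg : ∀ w, Real.log ‖F w‖ ≤ B * (1 + infDist w Z)) : ∀ w ∈ closedBall z 1, ‖F w‖ ≤ Real.exp (B * (1 + (R + 1))) := fun w hw => by
  have h1 : infDist w Z ≤ R + 1 := by
    have h2 : infDist w Z ≤ infDist z Z + dist w z := infDist_le_infDist_add_dist
    have h3 : dist w z ≤ 1 := hw
    linarith
  exact (Real.log_le_iff_le_exp (h0 w)).1 ((hg w).trans (mul_le_mul_of_nonneg_left (by linarith) hB))

theorem sum_est {ι : Type*} [Fintype ι] {f : ι → ℝ} {D a b A E : ℝ} (hf : ∀ i, f i ≤ D) (ha : a ≤ b) (h0 : 0 ≤ A * E) :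
    a + ∑ i, f i ≤ b + Fintype.card ι * D + A * E + 1 := by
  have h1 : ∑ i, f i ≤ Fintype.card ι * D := by
    calc ∑ i, f i ≤ ∑ _i : ι, D := Finset.sum_le_sum fun i _ => hf i
      _ = Fintype.card ι * D := by rw [Finset.sum_const, nsmul_eq_mul, Finset.card_univ]
  linarith

end Pool.Agent.SR3

end
end

section

/-!
# MQL PoleLoc: the poles of the weight near a point, in a parametrization
-/

set_option autoImplicit false

open Topology Filter Metric MvPolynomial

noncomputable section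

namespace Pool.Agent.MQL

open Pool.Agent.H36.BP (EN)
open Pool.Agent.H17EF (coneE)

variable {M : ℕ} {P : Ideal (MvPolynomial (Fin (M + 1)) ℂ)} {H₀ : MvPolynomial (Fin (M + 1)) ℂ} {Wf : EN M → EN M → EN M → ℂ} {mK jH : ℕ}

/-- a function of one variable which is not identically zero -/
private theorem one_ax {f : ℂ → ℂ} (hf : AnalyticAt ℂ f 0) (h : ¬ ∀ᶠ t in 𝓝 (0 : ℂ), f t = 0) : ∀ᶠ t in 𝓝 (0 : ℂ), f t = 0 → t = 0 := by
  have h1 := (hf.eventually_eq_zero_or_eventually_ne_zero).resolve_left h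
  rw [eventually_nhdsWithin_iff] at h1
  filter_upwards [h1] with t h2 h3
  by_contra h4
  exact h2 h4 h3

private theorem pow_log {al : ℝ} {x : ℂ} (h : al ≠ 0 → x ≠ 0) : ‖x‖ ^ al ≠ 0 ∧ Real.log (‖x‖ ^ al) = al * Real.log ‖x‖ := by
  by_cases h0 : al = 0
  · rw [h0, Real.rpow_zero, zero_mul, Real.log_one]
    exact ⟨one_ne_zero, rfl⟩
  · have h1 : 0 < ‖x‖ := norm_pos_iff.2 (h h0)
    exact ⟨(Real.rpow_pos_of_pos h1 _).ne', Real.log_rpow h1 _⟩

theorem pole_loc (hW : LW P H₀ mK jH Wf) {φ : ℂ × ℂ → EN M} {q : ℂ × ℂ} (hφ : AnalyticAt ℂ φ q) (hX : ∀ᶠ x in 𝓝 q, φ x ∈ coneE P)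
    (hax : ∀ᶠ x in 𝓝 q, eval (φ x).ofLp H₀ = 0 → (x.1 - q.1) * (x.2 - q.2) = 0) :
    ∃ C : ℝ, ∀ᶠ x in 𝓝 q, eval (φ x).ofLp H₀ ≠ 0 → Wf (φ x) (fderiv ℂ φ x (1, 0)) (fderiv ℂ φ x (0, 1)) ≠ 0 →
      1 / mK * Real.log ‖Wf (φ x) (fderiv ℂ φ x (1, 0)) (fderiv ℂ φ x (0, 1))‖ ≤ C + Real.log ‖JD (exX H₀ mK φ q) (exY H₀ mK φ q) (x - q)‖ := by
  classical
  set f : ℂ × ℂ → ℂ := fun x => eval (φ x).ofLp H₀ with hfd
  have hf : AnalyticAt ℂ f q := AnalyticAt.comp (g := fun x : EN M => eval x.ofLp H₀) (f := φ) (Pool.Agent.H14.PP.analyticAt_evalEN H₀ (φ q)) hφ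
  set a : Prop := ∀ᶠ t in 𝓝 (0 : ℂ), f (q.1, q.2 + t) = 0 with had
  set b : Prop := ∀ᶠ t in 𝓝 (0 : ℂ), f (q.1 + t, q.2) = 0 with hbd
  have e1 : exX H₀ mK φ q = al mK a := by
    unfold exX al
    rw [one_div]
  have e2 : exY H₀ mK φ q = al mK b := by
    unfold exY al
    rw [one_div]
  have hsub : Tendsto (fun x : ℂ × ℂ => x - q) (𝓝 q) (𝓝 0) := by
    have h1 : ContinuousAt (fun x : ℂ × ℂ => x - q) q := by fun_prop
    have h2 := h1.tendsto
    rwa [sub_self] at h2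
  have hs1 : Tendsto (fun x : ℂ × ℂ => x.1 - q.1) (𝓝 q) (𝓝 0) := (continuous_fst.tendsto (0 : ℂ × ℂ)).comp hsub
  have hs2 : Tendsto (fun x : ℂ × ℂ => x.2 - q.2) (𝓝 q) (𝓝 0) := (continuous_snd.tendsto (0 : ℂ × ℂ)).comp hsub
  have f1 : AnalyticAt ℂ (fun t : ℂ => f (q.1, q.2 + t)) 0 :=
    AnalyticAt.comp (g := f) (f := fun t : ℂ => (q.1, q.2 + t)) (by rw [add_zero]; exact hf) (by fun_prop)
  have f2 : AnalyticAt ℂ (fun t : ℂ => f (q.1 + t, q.2)) 0 :=
    AnalyticAt.comp (g := f) (f := fun t : ℂ => (q.1 + t, q.2)) (by rw [add_zero]; exact hf) (by fun_prop)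
  -- the zeros on the axes
  have k1 : ∀ᶠ x in 𝓝 q, x.1 - q.1 = 0 → f x = 0 → a ∨ x = q := by
    by_cases ha : a
    · exact Eventually.of_forall fun _ _ _ => Or.inl ha
    · filter_upwards [hs2.eventually (one_ax f1 ha)] with x h1 h2 h3
      have h4 : x.1 = q.1 := sub_eq_zero.1 h2
      refine Or.inr (Prod.ext h4 (sub_eq_zero.1 (h1 ?_)))
      rw [add_sub_cancel, ← h4]
      exact h3
  have k2 : ∀ᶠ x in 𝓝 q, x.2 - q.2 = 0 → f x = 0 → b ∨ x = q := by
    by_cases hb : b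
    · exact Eventually.of_forall fun _ _ _ => Or.inl hb
    · filter_upwards [hs1.eventually (one_ax f2 hb)] with x h1 h2 h3
      have h4 : x.2 = q.2 := sub_eq_zero.1 h2
      refine Or.inr (Prod.ext (sub_eq_zero.1 (h1 ?_)) h4)
      rw [add_sub_cancel, ← h4]
      exact h3
  have k0 : f q = 0 → a ∨ b := fun h0 => by
    have hadd : Tendsto (fun x : ℂ × ℂ => q + x) (𝓝 0) (𝓝 q) := by
      have h1 : ContinuousAt (fun x : ℂ × ℂ => q + x) 0 := by fun_prop
      have h2 := h1.tendsto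
      rwa [add_zero] at h2
    have h1 : AnalyticAt ℂ (fun x : ℂ × ℂ => f (q + x)) 0 :=
      AnalyticAt.comp (g := f) (f := fun x : ℂ × ℂ => q + x) (by rw [add_zero]; exact hf) (by fun_prop)
    rcases ax_local h1 (by rw [add_zero]; exact h0) (by
      filter_upwards [hadd.eventually hax] with x h2 h3
      have h4 := h2 h3
      rwa [Prod.fst_add, Prod.snd_add, add_sub_cancel_left, add_sub_cancel_left] at h4) with ⟨-, h2⟩ | ⟨-, h2⟩
    · refine Or.inl ?_
      filter_upwards [h2] with t h3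
      have h4 : (q.1, q.2 + t) = q + (0, t) := Prod.ext (by simp) rfl
      rw [h4]
      exact h3
    · refine Or.inr ?_
      filter_upwards [h2] with t h3
      have h4 : (q.1 + t, q.2) = q + (t, 0) := Prod.ext rfl (by simp)
      rw [h4]
      exact h3
  -- the function
  have hg : AnalyticAt ℂ (fun x : ℂ × ℂ => eqD a b (x - q)) q :=
    AnalyticAt.comp (g := eqD a b) (f := fun x : ℂ × ℂ => x - q) (eqD_an a b _) (by fun_prop)
  have hg0 : ∀ᶠ x in 𝓝 q, φ x ∉ okE P H₀ → eqD a b (x - q) = 0 := by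
    filter_upwards [hX, hax, k1, k2] with x h1 h2 h3 h4 h5
    have h6 : f x = 0 := by
      by_contra h7
      exact h5 ⟨h1, h7⟩
    have h8 : x = q → eqD a b (x - q) = 0 := fun h9 => by
      rw [h9, sub_self]
      rw [h9] at h6
      rcases k0 h6 with h10 | h10
      · exact eqD_zero (Or.inl ⟨rfl, h10⟩)
      · exact eqD_zero (Or.inr ⟨rfl, h10⟩)
    rcases mul_eq_zero.1 (h2 h6) with h7 | h7
    · rcases h3 h7 h6 with h9 | h9
      · exact eqD_zero (Or.inl ⟨h7, h9⟩)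
      · exact h8 h9
    · rcases h4 h7 h6 with h9 | h9
      · exact eqD_zero (Or.inr ⟨h7, h9⟩)
      · exact h8 h9
  obtain ⟨C, hC⟩ := pole_local hW.pole hφ hX hg hg0
  have hne1 : ∀ᶠ x in 𝓝 q, f x ≠ 0 → a → (x - q).1 ≠ 0 := by
    by_cases ha : a
    · filter_upwards [hs2.eventually ha] with x h1 h2 _ h3
      have h4 : x.1 = q.1 := sub_eq_zero.1 h3
      apply h2
      rw [add_sub_cancel, ← h4] at h1
      exact h1
    · exact Eventually.of_forall fun _ _ h => absurd h ha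
  have hne2 : ∀ᶠ x in 𝓝 q, f x ≠ 0 → b → (x - q).2 ≠ 0 := by
    by_cases hb : b
    · filter_upwards [hs1.eventually hb] with x h1 h2 _ h3
      have h4 : x.2 = q.2 := sub_eq_zero.1 h3
      apply h2
      rw [add_sub_cancel, ← h4] at h1
      exact h1
    · exact Eventually.of_forall fun _ _ h => absurd h hb
  refine ⟨1 / mK * Real.log (max C 1), ?_⟩
  filter_upwards [hC, hX, hne1, hne2] with x h1 h2 h3 h4 h5 h6
  have h7 := log_pole (a := a) (b := b) hW.one_m (h3 h5) (h4 h5) (norm_pos_iff.2 h6) (lt_max_of_lt_right one_pos) ((h1 ⟨h2, h5⟩).trans (le_max_left _ 1))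
  have g1 := pow_log (al := al mK a) (x := (x - q).1) fun h8 => h3 h5 (by
    by_contra h9
    apply h8
    unfold al
    rw [if_neg h9])
  have g2 := pow_log (al := al mK b) (x := (x - q).2) fun h8 => h4 h5 (by
    by_contra h9
    apply h8
    unfold al
    rw [if_neg h9])
  have g3 : ‖JD (al mK a) (al mK b) (x - q)‖ = ‖(x - q).1‖ ^ al mK a * ‖(x - q).2‖ ^ al mK b := by
    unfold JD
    rw [Complex.norm_real, Real.norm_eq_abs, abs_of_nonneg (by positivity)]
  rw [e1, e2, g3, Real.log_mul g1.1 g2.1, g1.2, g2.2]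
  linarith

end Pool.Agent.MQL

end
end
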