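import Pool.Agent.H43.TL2.M150

/-! The parts of this file: SR3.RsdA, SR3.Snc1, SR3.RsB, SR3.RsC3. -/

section

/-!
# SR3 RsdA: the types (`exists_res` from the local statement)

`RLoc C S Pol x`: at the point `x` the differentials are given by the residue polynomials `Pol`.  The types are the charts of a finite cover of the
surface.
-/

set_option autoImplicit false

open Topology Filter Metric MvPolynomial

noncomputable section

namespace Pool.Agent.SR3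

open Pool.Agent.H36.BP (EN fs wd fs_inv)
open Pool.Agent.H17BP (Surface IsChart)
open Pool.Agent.H14.PP (IsCone Tan)
open Pool.Agent.H17EF (projVar coneE)
open Pool.Agent.AD (SymDiff)
open Pool.Agent.SDA (openCone)

variable {N k M : ℕ}

/-! ### invariance -/

private theorem Rsd_cc (c : ℂ) : c * (starRingEnd ℂ) c = ((‖c‖ ^ 2 : ℝ) : ℂ) := by
  rw [Complex.mul_conj, Complex.normSq_eq_norm_sq]

private theorem Rsd_eval {Q : MvPolynomial (Fin (N + 1)) ℂ} {d : ℕ} (hQ : Q.IsHomogeneous d) (c : ℂ) (x : EN N) :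
    eval (c • x).ofLp Q = c ^ d * eval x.ofLp Q := by
  change eval (c • x.ofLp) Q = _
  rw [eval_eq', eval_eq', Finset.mul_sum]
  refine Finset.sum_congr rfl fun m hm => ?_
  have h1 : ∏ i, (c • x.ofLp) i ^ m i = c ^ d * ∏ i, x.ofLp i ^ m i := by
    simp only [Pi.smul_apply, smul_eq_mul, mul_pow, Finset.prod_mul_distrib]
    rw [Finset.prod_pow_eq_pow_sum]
    have h2 := hQ (mem_support_iff.1 hm)
    rw [Finsupp.weight_apply, Finsupp.sum_fintype _ _ (by simp)] at h2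
    simp only [Pi.one_apply, smul_eq_mul, mul_one] at h2
    rw [h2]
  rw [h1]
  ring

theorem vec_smul {F : Fin (M + 1) → MvPolynomial (Fin (N + 1)) ℂ} {d : ℕ} (hF : ∀ l, (F l).IsHomogeneous d) (c : ℂ) (x : EN N) :
    vec F (c • x) = c ^ d • vec F x := by
  unfold vec
  ext l
  simp only [PiLp.smul_apply, smul_eq_mul]
  exact Rsd_eval (hF l) c x

theorem vec_diff (F : Fin (M + 1) → MvPolynomial (Fin (N + 1)) ℂ) : Differentiable ℂ (vec F : EN N → EN M) := by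
  unfold vec
  refine (WithLp.linearEquiv 2 ℂ (Fin (M + 1) → ℂ)).symm.toContinuousLinearEquiv.differentiable.comp ?_
  refine differentiable_pi.2 fun l => ?_
  intro x
  have h1 : DifferentiableAt ℂ (fun y : Fin (N + 1) → ℂ => eval y (F l)) x.ofLp := by
    induction F l using MvPolynomial.induction_on with
    | C a =>
      have h0 : (fun y : Fin (N + 1) → ℂ => eval y (C a)) = fun _ => a := by
        funext y
        exact eval_C a
      rw [h0]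
      exact differentiableAt_const _
    | add p q hp hq =>
      have h0 : (fun y : Fin (N + 1) → ℂ => eval y (p + q)) = fun y => eval y p + eval y q := by
        funext y
        exact map_add _ _ _
      rw [h0]
      exact DifferentiableAt.add hp hq
    | mul_X p i hp =>
      have h0 : (fun y : Fin (N + 1) → ℂ => eval y (p * X i)) = fun y => eval y p * y i := by
        funext y
        rw [map_mul, eval_X]
      rw [h0]
      exact DifferentiableAt.mul hp (differentiableAt_apply i x.ofLp)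
  have h2 : DifferentiableAt ℂ (fun y : EN N => y.ofLp) x :=
    (WithLp.linearEquiv 2 ℂ (Fin (N + 1) → ℂ)).toContinuousLinearEquiv.differentiableAt
  exact h1.comp x h2

theorem dvec_smul {F : Fin (M + 1) → MvPolynomial (Fin (N + 1)) ℂ} {d : ℕ} (hF : ∀ l, (F l).IsHomogeneous d) (c : ℂ) (x v : EN N) :
    fderiv ℂ (vec F) (c • x) (c • v) = c ^ d • fderiv ℂ (vec F) x v := by
  have h1 : HasFDerivAt (fun y : EN N => vec F (c • y)) ((fderiv ℂ (vec F) (c • x)).comp (c • ContinuousLinearMap.id ℂ (EN N))) x := by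
    refine HasFDerivAt.comp x ((vec_diff F) (c • x)).hasFDerivAt ?_
    exact (hasFDerivAt_id x).const_smul c
  have h2 : HasFDerivAt (fun y : EN N => vec F (c • y)) (c ^ d • fderiv ℂ (vec F) x) x := by
    have h3 : (fun y : EN N => vec F (c • y)) = fun y => c ^ d • vec F y := by
      funext y
      exact vec_smul hF c y
    rw [h3]
    exact ((vec_diff F) x).hasFDerivAt.const_smul (c ^ d)
  have h4 := congrArg (fun L : EN N →L[ℂ] EN M => L v) (h1.unique h2)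
  simpa using h4

theorem ellE_smul {F : Fin (M + 1) → MvPolynomial (Fin (N + 1)) ℂ} {d : ℕ} (hF : ∀ l, (F l).IsHomogeneous d) {c : ℂ} (hc : c ≠ 0) (x v : EN N) :
    ellE F d (c • x) (c • v) = ellE F d x v := by
  have key : ∀ {L : ℕ} (a : ℂ) (_ : a ≠ 0) (y w : EN L), inner ℂ (a • y) (a • w) / (‖a • y‖ : ℂ) ^ 2 = inner ℂ y w / (‖y‖ : ℂ) ^ 2 := by
    intro L a ha y w
    rw [inner_smul_left, inner_smul_right, norm_smul]
    have h1 : (‖a‖ : ℂ) ^ 2 ≠ 0 := pow_ne_zero 2 (by exact_mod_cast norm_ne_zero_iff.2 ha)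
    have h2 : (starRingEnd ℂ) a * (a * inner ℂ y w) = (‖a‖ : ℂ) ^ 2 * inner ℂ y w := by
      rw [← mul_assoc, mul_comm ((starRingEnd ℂ) a) a, Rsd_cc]
      push_cast
      ring
    rw [h2, Complex.ofReal_mul, mul_pow, mul_div_mul_left _ _ h1]
  unfold ellE
  rw [vec_smul hF, dvec_smul hF, key (c ^ d) (pow_ne_zero d hc), key c hc]

theorem lamE_smul {F : Fin (M + 1) → MvPolynomial (Fin (N + 1)) ℂ} {d : ℕ} (hF : ∀ l, (F l).IsHomogeneous d) {c : ℂ} (hc : c ≠ 0) {x : EN N}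
    (hx : x ≠ 0) (hv : vec F x ≠ 0) : lamE F d (c • x) = lamE F d x := by
  unfold lamE
  rw [vec_smul hF, norm_smul, norm_smul, norm_pow, Real.log_mul (norm_ne_zero_iff.2 hc) (norm_ne_zero_iff.2 hx),
    Real.log_mul (pow_ne_zero d (norm_ne_zero_iff.2 hc)) (norm_ne_zero_iff.2 hv), Real.log_pow]
  ring

private theorem Rsd_fs {x : EN N} (hx : x ≠ 0) (v : EN N) {c : ℂ} (hc : c ≠ 0) : fs (c • x) (c • v) = fs x v := by
  have h1 := fs_inv hx v hc 0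
  rwa [zero_smul, add_zero] at h1

variable {P : Ideal (MvPolynomial (Fin (N + 1)) ℂ)} {H : MvPolynomial (Fin (N + 1)) ℂ} {h : ℕ} {E : Fin k → Fin (M + 1) → MvPolynomial (Fin (N + 1)) ℂ}
  {c b : Fin k → ℕ}

theorem logLen_smul (hE : ∀ i l, (E i l).IsHomogeneous (c i)) {a : ℂ} (ha : a ≠ 0) {x : EN N} (hx : x ≠ 0) (v : EN N) :
    logLen E c (a • x) (a • v) = logLen E c x v := by
  unfold logLen
  rw [Rsd_fs hx v ha]
  refine congrArg _ (Finset.sum_congr rfl fun i _ => ?_)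
  rw [ellE_smul (hE i) ha]

private theorem Rsd_tan {X : Set (EN N)} (hX : ∀ x ∈ X, ∀ c : ℂ, c ≠ 0 → c • x ∈ X) {x v : EN N} (hv : Tan X x v) {a : ℂ} (ha : a ≠ 0) :
    Tan X (a • x) (a • v) := by
  obtain ⟨F, ⟨h1, h2⟩, h3, h4⟩ := hv
  have h1' : AnalyticAt ℂ (a • F) 0 := h1.const_smul
  refine ⟨a • F, ⟨h1', ?_⟩, ?_, ?_⟩
  · filter_upwards [h2] with z hz
    exact hX _ hz a ha
  · change a • F 0 = _
    rw [h3]
  · rw [← h4]
    exact (h1.differentiableAt.hasDerivAt.const_smul a).deriv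

theorem mem_oc {x : EN N} : x ∈ oc P H ↔ x ∈ coneE P ∧ eval x.ofLp H ≠ 0 := by
  constructor
  · rintro ⟨h1, h2⟩
    exact ⟨h1, h2 0⟩
  · rintro ⟨h1, h2⟩
    exact ⟨h1, fun _ => h2⟩

private theorem Rsd_evc (Q : MvPolynomial (Fin (N + 1)) ℂ) : Continuous fun x : EN N => eval x.ofLp Q :=
  (MvPolynomial.continuous_eval Q).comp (PiLp.continuous_ofLp 2 _)

theorem tan_oc {x v : EN N} (hx : x ∈ oc P H) (hv : Tan (coneE P) x v) : Tan (oc P H) x v := by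
  obtain ⟨F, ⟨h1, h2⟩, h3, h4⟩ := hv
  refine ⟨F, ⟨h1, ?_⟩, h3, h4⟩
  have h5 : ContinuousAt (fun z => eval (F z).ofLp H) 0 := (Rsd_evc H).continuousAt.comp h1.continuousAt
  have h6 : eval (F 0).ofLp H ≠ 0 := by
    rw [h3]
    exact (mem_oc.1 hx).2
  filter_upwards [h2, h5.eventually_ne h6] with z hz hz'
  exact mem_oc.2 ⟨hz, hz'⟩

/-- At the point `x` the differentials are given by the residue polynomials `Pol` in the variables in `S`, up to the constant `C`. -/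
def RLoc (E : Fin k → Fin (M + 1) → MvPolynomial (Fin (N + 1)) ℂ) (c : Fin k → ℕ) {s : ℕ} {m : Fin s → ℕ} (θ : ∀ j, SymDiff (oc P H) (m j)) (C : ℝ)
    (S : Finset (Fin k)) (Pol : Fin s → MvPolynomial (Fin k) ℂ) (x : EN N) : Prop :=
  (∀ i, i ∉ S → lamE (E i) (c i) x ≤ C) ∧ ∀ j v, Tan (coneE P) x v →
    ‖(θ j).toFun x v - eval (fun i => ellE (E i) (c i) x v) (Pol j)‖ ≤ C * fs x v * logLen E c x v ^ (m j - 1)

private theorem Rsd_logLen_nonneg (x v : EN N) : 0 ≤ logLen E c x v :=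
  add_nonneg (Pool.Agent.H36.BP.fs_nonneg x v) (Finset.sum_nonneg fun _ _ => norm_nonneg _)

private theorem RLoc.mono {s : ℕ} {m : Fin s → ℕ} {θ : ∀ j, SymDiff (oc P H) (m j)} {C C' : ℝ} {S : Finset (Fin k)} {Pol : Fin s → MvPolynomial (Fin k) ℂ}
    {x : EN N} (hl : RLoc E c θ C S Pol x) (hC : C ≤ C') : RLoc E c θ C' S Pol x := by
  refine ⟨fun i hi => (hl.1 i hi).trans hC, fun j v hv => (hl.2 j v hv).trans ?_⟩
  exact mul_le_mul_of_nonneg_right (mul_le_mul_of_nonneg_right hC (Pool.Agent.H36.BP.fs_nonneg x v)) (pow_nonneg (Rsd_logLen_nonneg x v) _)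

private theorem RLoc.smul (hc : IsCone (coneE P)) (hE : ∀ i l, (E i l).IsHomogeneous (c i))
    (hne : ∀ i, ∀ x ∈ oc P H, vec (E i) x ≠ 0) {s : ℕ}
    {m : Fin s → ℕ} {θ : ∀ j, SymDiff (oc P H) (m j)} {C : ℝ} {S : Finset (Fin k)} {Pol : Fin s → MvPolynomial (Fin k) ℂ}
    {x : EN N} (hx : x ∈ oc P H) {a : ℂ} (ha : a ≠ 0) (hl : RLoc E c θ C S Pol (a • x)) : RLoc E c θ C S Pol x := by
  have hx0 : x ≠ 0 := by
    rintro rfl
    exact hc.zero_notMem (mem_oc.1 hx).1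
  refine ⟨fun i hi => ?_, fun j v hv => ?_⟩
  · rw [← lamE_smul (hE i) ha hx0 (hne i x hx)]
    exact hl.1 i hi
  · have h1 := hl.2 j (a • v) (Rsd_tan hc.smul_mem hv ha)
    rw [(θ j).scale x v (tan_oc hx hv) a ha, Rsd_fs hx0 v ha, logLen_smul hE ha hx0] at h1
    simp only [ellE_smul (hE _) ha] at h1
    exact h1

private theorem Rsd_oc_smul (hc : IsCone (coneE P)) (hH : H.IsHomogeneous h) {x : EN N} (hx : x ∈ oc P H) {a : ℂ} (ha : a ≠ 0) : a • x ∈ oc P H := by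
  refine mem_oc.2 ⟨hc.smul_mem x (mem_oc.1 hx).1 a ha, ?_⟩
  rw [Rsd_eval hH]
  exact mul_ne_zero (pow_ne_zero _ ha) (mem_oc.1 hx).2

private theorem Rsd_sphere (hc : IsCone (coneE P)) : IsCompact {x : EN N | x ∈ coneE P ∧ ‖x‖ = 1} := by
  have h1 : {x : EN N | x ∈ coneE P ∧ ‖x‖ = 1} = insert 0 (coneE P) ∩ sphere (0 : EN N) 1 := by
    ext x
    simp only [Set.mem_ofPred_eq, Set.mem_inter_iff, Set.mem_insert_iff, mem_sphere_zero_iff_norm]
    constructor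
    · rintro ⟨h1, h2⟩
      exact ⟨Or.inr h1, h2⟩
    · rintro ⟨h1 | h1, h2⟩
      · rw [h1, norm_zero] at h2
        exact absurd h2 zero_ne_one
      · exact ⟨h1, h2⟩
  rw [h1, Set.inter_comm]
  exact (isCompact_sphere _ _).inter_right hc.closed

/-- **The types.** -/
theorem exists_res_of_loc (hc : IsCone (coneE P)) (hH : H.IsHomogeneous h)
    (hE : ∀ i l, (E i l).IsHomogeneous (c i)) (hne : ∀ i, ∀ x ∈ oc P H, vec (E i) x ≠ 0)
    {s : ℕ} {m : Fin s → ℕ} (θ : ∀ j, SymDiff (oc P H) (m j))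
    (hloc : ∀ x₀ ∈ coneE P, ∃ (V : Set (EN N)) (C : ℝ) (S : Finset (Fin k)) (Pol : Fin s → MvPolynomial (Fin k) ℂ), IsOpen V ∧ x₀ ∈ V ∧ 0 ≤ C ∧
      S.card ≤ 2 ∧ (∀ j, (Pol j).IsHomogeneous (m j)) ∧
      (∀ j (y y' : Fin k → ℂ), (∀ i ∈ S, y i = y' i) → eval y (Pol j) = eval y' (Pol j)) ∧ ∀ x ∈ V, x ∈ oc P H → RLoc E c θ C S Pol x) :
    ∃ (n : ℕ) (supp : Fin n → Finset (Fin k)) (Pol : Fin n → Fin s → MvPolynomial (Fin k) ℂ) (ty : EN N → Fin n),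
      (∀ t, (supp t).card ≤ 2) ∧ (∀ t j, (Pol t j).IsHomogeneous (m j)) ∧
      (∀ t j (y y' : Fin k → ℂ), (∀ i ∈ supp t, y i = y' i) → eval y (Pol t j) = eval y' (Pol t j)) ∧
      (∃ C : ℝ, 0 ≤ C ∧ ∀ x ∈ oc P H, (∀ i, i ∉ supp (ty x) → lamE (E i) (c i) x ≤ C) ∧ ∀ j v, Tan (coneE P) x v →
        ‖(θ j).toFun x v - eval (fun i => ellE (E i) (c i) x v) (Pol (ty x) j)‖ ≤ C * fs x v * logLen E c x v ^ (m j - 1)) := by
  classical
  choose! V C S Pol hVo hxV hC0 hS hPh hPs hR using hloc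
  have hx0 : ∀ x ∈ coneE P, x ≠ 0 := by
    rintro x hx rfl
    exact hc.zero_notMem hx
  obtain ⟨S1, hS1⟩ : ∃ S1 : Set (EN N), S1 = {x : EN N | x ∈ coneE P ∧ ‖x‖ = 1} := ⟨_, rfl⟩
  have hS1c : IsCompact S1 := by
    rw [hS1]
    exact Rsd_sphere hc
  have hS1m : ∀ x ∈ S1, x ∈ coneE P := by
    rw [hS1]
    exact fun x hx => hx.1
  -- normalisation
  have hnorm : ∀ x ∈ coneE P, ((‖x‖⁻¹ : ℝ) : ℂ) ≠ 0 ∧ ((‖x‖⁻¹ : ℝ) : ℂ) • x ∈ S1 := by
    intro x hx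
    have h1 : ‖x‖ ≠ 0 := norm_ne_zero_iff.2 (hx0 x hx)
    have h2 : ((‖x‖⁻¹ : ℝ) : ℂ) ≠ 0 := by exact_mod_cast inv_ne_zero h1
    refine ⟨h2, ?_⟩
    rw [hS1]
    refine ⟨hc.smul_mem x hx _ h2, ?_⟩
    rw [norm_smul, Complex.norm_real, norm_inv, norm_norm, inv_mul_cancel₀ h1]
  obtain ⟨t, ht, hcov⟩ := hS1c.elim_nhds_subcover V fun x hx => (hVo x (hS1m x hx)).mem_nhds (hxV x (hS1m x hx))
  -- the finite type
  let T : Type := Option {z // z ∈ t}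
  let eT : T ≃ Fin (Fintype.card T) := Fintype.equivFin T
  let suppT : T → Finset (Fin k) := fun q => q.elim ∅ fun z => S z.1
  let PolT : T → Fin s → MvPolynomial (Fin k) ℂ := fun q => q.elim (fun _ => 0) fun z => Pol z.1
  let tyT : EN N → T := fun x => if hx : ∃ z ∈ t, ((‖x‖⁻¹ : ℝ) : ℂ) • x ∈ V z then some ⟨hx.choose, hx.choose_spec.1⟩ else none
  have hrF : ∀ z : {z // z ∈ t}, z.1 ∈ coneE P := fun z => hS1m _ (ht _ z.2)
  have htyx : ∀ x ∈ oc P H, ∃ z : {z // z ∈ t}, tyT x = some z ∧ RLoc E c θ (C z.1) (S z.1) (Pol z.1) x := by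
    intro x hx
    obtain ⟨h1, h2⟩ := hnorm x (mem_oc.1 hx).1
    obtain ⟨z, hz, hxz⟩ := Set.mem_iUnion₂.1 (hcov h2)
    have h3 : ∃ z ∈ t, ((‖x‖⁻¹ : ℝ) : ℂ) • x ∈ V z := ⟨z, hz, hxz⟩
    refine ⟨⟨h3.choose, h3.choose_spec.1⟩, dif_pos h3, ?_⟩
    exact RLoc.smul hc hE hne hx h1 (hR _ (hS1m _ (ht _ h3.choose_spec.1)) _ h3.choose_spec.2 (Rsd_oc_smul hc hH hx h1))
  refine ⟨Fintype.card T, fun q => suppT (eT.symm q), fun q => PolT (eT.symm q), fun x => eT (tyT x), ?_, ?_, ?_, ?_⟩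
  · intro q
    rcases ht' : eT.symm q with _ | z
    · simp only [ht', suppT, Option.elim_none, Finset.card_empty, zero_le]
    · simp only [ht', suppT, Option.elim_some]
      exact hS _ (hrF z)
  · intro q j
    rcases ht' : eT.symm q with _ | z
    · simp only [ht', PolT, Option.elim_none]
      exact isHomogeneous_zero _ _ _
    · simp only [ht', PolT, Option.elim_some]
      exact hPh _ (hrF z) j
  · intro q j y y' hy
    rcases ht' : eT.symm q with _ | z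
    · simp only [ht', PolT, Option.elim_none, map_zero]
    · simp only [ht', PolT, Option.elim_some]
      refine hPs _ (hrF z) j y y' ?_
      simpa only [ht', suppT, Option.elim_some] using hy
  · refine ⟨∑ z : {z // z ∈ t}, C z.1, Finset.sum_nonneg fun z _ => hC0 _ (hrF z), fun x hx => ?_⟩
    obtain ⟨z, h2, h3⟩ := htyx x hx
    have h4 : C z.1 ≤ ∑ z : {z // z ∈ t}, C z.1 :=
      Finset.single_le_sum (f := fun z : {z // z ∈ t} => C z.1) (fun z _ => hC0 _ (hrF z)) (Finset.mem_univ z)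
    have h5 := h3.mono h4
    simp only [Equiv.symm_apply_apply, h2, suppT, PolT, Option.elim_some]
    exact h5

end Pool.Agent.SR3

end
end

section

/-!
# SR3 Snc1 (module H2 (1), (2)): the logarithm of the equation of the boundary (helper92)
-/

set_option autoImplicit false

open Topology Filter Metric MvPolynomial

noncomputable section

namespace Pool.Agent.SR3

open Pool.Agent.H36.BP (EN fs)
open Pool.Agent.H17BP (Surface IsChart)
open Pool.Agent.H14.PP (IsCone Tan)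
open Pool.Agent.H17EF (coneE)

variable {N k M : ℕ} {P : Ideal (MvPolynomial (Fin (N + 1)) ℂ)} {H : MvPolynomial (Fin (N + 1)) ℂ} {h : ℕ}
  {E : Fin k → Fin (M + 1) → MvPolynomial (Fin (N + 1)) ℂ} {c b : Fin k → ℕ}

theorem snc_ne (hs : Snc P H E b) (i : Fin k) {x : EN N} (hx : x ∈ oc P H) : vec (E i) x ≠ 0 := by
  obtain ⟨σ, τ, s, e, u, hch, h0, hinj, he, hu, hu0, hH⟩ := hs.chart x hx.1
  obtain ⟨-, he0, hE⟩ := he i
  have h1 := hE.self_of_nhds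
  have h2 := hH.self_of_nhds
  rw [h0] at h1 h2
  have h3 : eval x.ofLp H ≠ 0 := hx.2 0
  have h4 : co (s i) 0 ≠ 0 := by
    intro h5
    apply h3
    rw [h2, Finset.prod_eq_zero (Finset.mem_univ i), mul_zero]
    rw [h5, zero_pow (Nat.one_le_iff_ne_zero.1 (hs.pos i))]
  rw [h1]
  exact smul_ne_zero h4 he0

private theorem Snc1_vec_smul {F : Fin (M + 1) → MvPolynomial (Fin (N + 1)) ℂ} {d : ℕ} (hF : ∀ l, (F l).IsHomogeneous d) (a : ℂ) (x : EN N) :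
    vec F (a • x) = a ^ d • vec F x := by
  ext l
  exact Pool.Agent.H17.eval_smul_of_isHomogeneous (hF l) a x.ofLp

theorem snc_cmp (hX : Surface (coneE P)) (hc : IsCone (coneE P)) (hH : H.IsHomogeneous h) (hE : ∀ i l, (E i l).IsHomogeneous (c i))
    (hs : Snc P H E b) :
    ∃ C : ℝ, ∀ x ∈ oc P H, |h * Real.log ‖x‖ - Real.log ‖eval x.ofLp H‖ - ∑ i, b i * lamE (E i) (c i) x| ≤ C := by
  have hKs : ∀ x ∈ oc P H, ∀ a : ℂ, a ≠ 0 → a • x ∈ oc P H := by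
    rintro x ⟨h1, h2⟩ a ha
    refine ⟨hX.smul x h1 a ha, fun i => ?_⟩
    have h3 : eval (a • x).ofLp H = a ^ h * eval x.ofLp H := Pool.Agent.H17.eval_smul_of_isHomogeneous hH a x.ofLp
    rw [h3]
    exact mul_ne_zero (pow_ne_zero _ ha) (h2 i)
  suffices hb : ∃ C : ℝ, ∀ x ∈ oc P H, ∀ v, Tan (coneE P) x v →
      |h * Real.log ‖x‖ - Real.log ‖eval x.ofLp H‖ - ∑ i, b i * lamE (E i) (c i) x| ≤ C by
    obtain ⟨C, hC⟩ := hb
    refine ⟨C, fun x hx => hC x hx 0 ?_⟩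
    exact ⟨fun _ => x, ⟨analyticAt_const, Eventually.of_forall fun _ => hx.1⟩, rfl, deriv_const 0 x⟩
  refine global_bound (X := coneE P) (K := oc P H) hX hc (fun x hx => hx.1) hKs
    (Q := fun C x _ => |h * Real.log ‖x‖ - Real.log ‖eval x.ofLp H‖ - ∑ i, b i * lamE (E i) (c i) x| ≤ C)
    (fun C C' x v h1 h2 => h2.trans h1) ?_ ?_
  · intro C x hx v _ a a' ha h1
    have hx0 : ‖x‖ ≠ 0 := norm_ne_zero_iff.2 fun h2 => hX.zero (h2 ▸ hx.1)
    have ha0 : ‖a‖ ≠ 0 := norm_ne_zero_iff.2 ha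
    have hH0 : ‖eval x.ofLp H‖ ≠ 0 := norm_ne_zero_iff.2 (hx.2 0)
    have h3 : eval (a • x).ofLp H = a ^ h * eval x.ofLp H := Pool.Agent.H17.eval_smul_of_isHomogeneous hH a x.ofLp
    have h4 : ∀ i, lamE (E i) (c i) (a • x) = lamE (E i) (c i) x := by
      intro i
      have h5 : ‖vec (E i) x‖ ≠ 0 := norm_ne_zero_iff.2 (snc_ne hs i hx)
      unfold lamE
      rw [Snc1_vec_smul (hE i), norm_smul, norm_smul, norm_pow, Real.log_mul ha0 hx0, Real.log_mul (pow_ne_zero _ ha0) h5, Real.log_pow]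
      ring
    have h6 : (h : ℝ) * Real.log ‖a • x‖ - Real.log ‖eval (a • x).ofLp H‖ - ∑ i, b i * lamE (E i) (c i) (a • x) =
        h * Real.log ‖x‖ - Real.log ‖eval x.ofLp H‖ - ∑ i, b i * lamE (E i) (c i) x := by
      rw [h3, norm_smul, norm_mul, norm_pow, Real.log_mul ha0 hx0, Real.log_mul (pow_ne_zero _ ha0) hH0, Real.log_pow,
        Finset.sum_congr rfl fun i _ => by rw [h4 i]]
      ring
    show |(h : ℝ) * Real.log ‖a • x‖ - Real.log ‖eval (a • x).ofLp H‖ - ∑ i, b i * lamE (E i) (c i) (a • x)| ≤ C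
    rw [h6]
    exact h1
  · intro x hx
    obtain ⟨σ, τ, s, e, u, hch, h0, hinj, he, hu, hu0, hH⟩ := hs.chart x hx
    refine ⟨σ, τ, hch, h0, ?_⟩
    obtain ⟨g, hg⟩ : ∃ g : ℂ × ℂ → ℝ, g = fun y => h * Real.log ‖σ y‖ - Real.log ‖u y‖ - ∑ i, b i * (c i * Real.log ‖σ y‖ - Real.log ‖e i y‖) := ⟨_, rfl⟩
    have hσc : ContinuousAt (fun y => Real.log ‖σ y‖) 0 := hch.σ_an.continuousAt.norm.log (norm_ne_zero_iff.2 hch.ne)
    have hgc : ContinuousAt g 0 := by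
      rw [hg]
      refine ((continuousAt_const.mul hσc).sub (hu.continuousAt.norm.log (norm_ne_zero_iff.2 hu0))).sub ?_
      refine tendsto_finsetSum _ fun i _ => ?_
      exact continuousAt_const.mul ((continuousAt_const.mul hσc).sub ((he i).1.continuousAt.norm.log (norm_ne_zero_iff.2 (he i).2.1)))
    refine ⟨|g 0| + 1, ?_⟩
    have h1 : ∀ᶠ y in 𝓝 (0 : ℂ × ℂ), |g y| < |g 0| + 1 := hgc.abs.eventually_lt_const (by linarith)
    have h2 : ∀ᶠ y in 𝓝 (0 : ℂ × ℂ), ∀ i, vec (E i) (σ y) = co (s i) y • e i y := by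
      rw [eventually_all]
      exact fun i => (he i).2.2
    have h3 : ∀ᶠ y in 𝓝 (0 : ℂ × ℂ), ∀ i, e i y ≠ 0 := by
      rw [eventually_all]
      exact fun i => (he i).1.continuousAt.eventually_ne (he i).2.1
    filter_upwards [h1, h2, h3, hH, hu.continuousAt.eventually_ne hu0] with y h4 h5 h6 h7 h8 hyK v'
    have h9 : ∀ i, co (s i) y ≠ 0 := by
      intro i h10
      apply snc_ne hs i hyK
      rw [h5 i, h10, zero_smul]
    have h11 : h * Real.log ‖σ y‖ - Real.log ‖eval (σ y).ofLp H‖ - ∑ i, b i * lamE (E i) (c i) (σ y) = g y := by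
      have h12 : Real.log ‖eval (σ y).ofLp H‖ = Real.log ‖u y‖ + ∑ i, b i * Real.log ‖co (s i) y‖ := by
        rw [h7, norm_mul, norm_prod, Real.log_mul (norm_ne_zero_iff.2 h8)
          (Finset.prod_ne_zero_iff.2 fun i _ => norm_ne_zero_iff.2 (pow_ne_zero _ (h9 i))),
          Real.log_prod fun i _ => norm_ne_zero_iff.2 (pow_ne_zero _ (h9 i))]
        congr 1
        exact Finset.sum_congr rfl fun i _ => by rw [norm_pow, Real.log_pow]
      have h13 : ∀ i, lamE (E i) (c i) (σ y) = c i * Real.log ‖σ y‖ - Real.log ‖e i y‖ - Real.log ‖co (s i) y‖ := by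
        intro i
        unfold lamE
        rw [h5 i, norm_smul, Real.log_mul (norm_ne_zero_iff.2 (h9 i)) (norm_ne_zero_iff.2 (h6 i))]
        ring
      have h14 : ∑ i, (b i : ℝ) * lamE (E i) (c i) (σ y) =
          ∑ i, (b i : ℝ) * (c i * Real.log ‖σ y‖ - Real.log ‖e i y‖) - ∑ i, (b i : ℝ) * Real.log ‖co (s i) y‖ := by
        rw [← Finset.sum_sub_distrib]
        refine Finset.sum_congr rfl fun i _ => ?_
        rw [h13 i]
        ring
      rw [hg, h12, h14]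
      ring
    rw [h11]
    exact h4.le

end Pool.Agent.SR3

end
end

section

/-!
# SR3 RsB: the local estimate of a logarithmic symmetric differential against its residue polynomial

With `g₁ = gg _ p.1`, `u₁ = t.1 / g₁`: `|g₁| |u₁| ≤ |t|` and `|a k p - a k 0| ≤ A (|g₁| + |g₂|)`, `≤ A |g₁|` for `k = m`, `≤ A |g₂|` for `k = 0`.
-/

set_option autoImplicit false

open Topology Filter Metric MvPolynomial

noncomputable section

namespace Pool.Agent.SR3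

variable {k : ℕ}

/-- differences of powers -/
private theorem pow_sub_pow_le {x y : ℂ} {R : ℝ} (hR : 0 ≤ R) (hx : ‖x‖ ≤ R) (hy : ‖y‖ ≤ R) (n : ℕ) : ‖x ^ n - y ^ n‖ ≤ n * R ^ (n - 1) * ‖x - y‖ := by
  induction n with
  | zero => simp
  | succ n ih =>
    have h1 : x ^ (n + 1) - y ^ (n + 1) = x ^ n * (x - y) + (x ^ n - y ^ n) * y := by ring
    have h2 : ‖x ^ n‖ ≤ R ^ n := by
      rw [norm_pow]
      exact pow_le_pow_left₀ (norm_nonneg _) hx _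
    have h3 : ‖(x ^ n - y ^ n) * y‖ ≤ n * R ^ n * ‖x - y‖ := by
      rw [norm_mul]
      rcases Nat.eq_zero_or_pos n with hn | hn
      · subst hn
        simp
      · have h4 : R ^ n = R ^ (n - 1) * R := by
          rw [← pow_succ, Nat.sub_add_cancel hn]
        calc ‖x ^ n - y ^ n‖ * ‖y‖ ≤ (n * R ^ (n - 1) * ‖x - y‖) * R := by gcongr
          _ = n * R ^ n * ‖x - y‖ := by rw [h4]; ring
    rw [h1]
    calc ‖x ^ n * (x - y) + (x ^ n - y ^ n) * y‖ ≤ R ^ n * ‖x - y‖ + n * R ^ n * ‖x - y‖ := by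
          refine (norm_add_le _ _).trans (add_le_add ?_ h3)
          rw [norm_mul]
          gcongr
      _ = ((n + 1 : ℕ) : ℝ) * R ^ (n + 1 - 1) * ‖x - y‖ := by
          rw [Nat.add_sub_cancel]
          push_cast
          ring

private theorem mon_sub_le {u₁ u₂ l₁ l₂ : ℂ} {R T : ℝ} (hR : 0 ≤ R) (hT : 0 ≤ T) (hu₁ : ‖u₁‖ ≤ R) (hu₂ : ‖u₂‖ ≤ R) (hl₁ : ‖l₁‖ ≤ R) (hl₂ : ‖l₂‖ ≤ R)
    (hd₁ : ‖u₁ - l₁‖ ≤ T) (hd₂ : ‖u₂ - l₂‖ ≤ T) (i j : ℕ) : ‖u₁ ^ i * u₂ ^ j - l₁ ^ i * l₂ ^ j‖ ≤ (i + j) * R ^ (i + j - 1) * T := by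
  have h1 : u₁ ^ i * u₂ ^ j - l₁ ^ i * l₂ ^ j = (u₁ ^ i - l₁ ^ i) * u₂ ^ j + l₁ ^ i * (u₂ ^ j - l₂ ^ j) := by ring
  have h2 : ‖(u₁ ^ i - l₁ ^ i) * u₂ ^ j‖ ≤ i * R ^ (i + j - 1) * T := by
    rcases Nat.eq_zero_or_pos i with hi | hi
    · subst hi
      simp
    · have h3 : R ^ (i + j - 1) = R ^ (i - 1) * R ^ j := by
        rw [← pow_add]
        congr 1
        omega
      rw [norm_mul, norm_pow, h3]
      calc ‖u₁ ^ i - l₁ ^ i‖ * ‖u₂‖ ^ j ≤ (i * R ^ (i - 1) * T) * R ^ j := by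
            refine mul_le_mul ((pow_sub_pow_le hR hu₁ hl₁ i).trans ?_) (pow_le_pow_left₀ (norm_nonneg _) hu₂ _) (by positivity) (by positivity)
            gcongr
        _ = _ := by ring
  have h4 : ‖l₁ ^ i * (u₂ ^ j - l₂ ^ j)‖ ≤ j * R ^ (i + j - 1) * T := by
    rcases Nat.eq_zero_or_pos j with hj | hj
    · subst hj
      simp
    · have h3 : R ^ (i + j - 1) = R ^ i * R ^ (j - 1) := by
        rw [← pow_add]
        congr 1
        omega
      rw [norm_mul, norm_pow, h3]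
      calc ‖l₁‖ ^ i * ‖u₂ ^ j - l₂ ^ j‖ ≤ R ^ i * (j * R ^ (j - 1) * T) := by
            refine mul_le_mul (pow_le_pow_left₀ (norm_nonneg _) hl₁ _) ((pow_sub_pow_le hR hu₂ hl₂ j).trans ?_) (norm_nonneg _) (by positivity)
            gcongr
        _ = _ := by ring
  rw [h1]
  calc ‖(u₁ ^ i - l₁ ^ i) * u₂ ^ j + l₁ ^ i * (u₂ ^ j - l₂ ^ j)‖ ≤ i * R ^ (i + j - 1) * T + j * R ^ (i + j - 1) * T := (norm_add_le _ _).trans (add_le_add h2 h4)
    _ = (i + j) * R ^ (i + j - 1) * T := by ring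

private theorem mon_le {u₁ u₂ : ℂ} {R T g₁ g₂ : ℝ} (hR : 0 ≤ R) (hT : 0 ≤ T) (hu₁ : ‖u₁‖ ≤ R) (hu₂ : ‖u₂‖ ≤ R)
    (h1 : g₁ * ‖u₁‖ ≤ T) (h2 : g₂ * ‖u₂‖ ≤ T) (i j : ℕ) : (1 ≤ i → g₁ * (‖u₁‖ ^ i * ‖u₂‖ ^ j) ≤ T * R ^ (i + j - 1)) ∧
      (1 ≤ j → g₂ * (‖u₁‖ ^ i * ‖u₂‖ ^ j) ≤ T * R ^ (i + j - 1)) := by
  constructor
  · intro hi
    have h3 : R ^ (i + j - 1) = R ^ (i - 1) * R ^ j := by
      rw [← pow_add]
      congr 1
      omega
    have h4 : ‖u₁‖ ^ i = ‖u₁‖ * ‖u₁‖ ^ (i - 1) := by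
      rw [← pow_succ', Nat.sub_add_cancel hi]
    rw [h3, h4]
    calc g₁ * (‖u₁‖ * ‖u₁‖ ^ (i - 1) * ‖u₂‖ ^ j) = (g₁ * ‖u₁‖) * (‖u₁‖ ^ (i - 1) * ‖u₂‖ ^ j) := by ring
      _ ≤ T * (R ^ (i - 1) * R ^ j) := by
        refine mul_le_mul h1 ?_ (by positivity) hT
        exact mul_le_mul (pow_le_pow_left₀ (norm_nonneg _) hu₁ _) (pow_le_pow_left₀ (norm_nonneg _) hu₂ _) (by positivity) (by positivity)
  · intro hj
    have h3 : R ^ (i + j - 1) = R ^ i * R ^ (j - 1) := by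
      rw [← pow_add]
      congr 1
      omega
    have h4 : ‖u₂‖ ^ j = ‖u₂‖ * ‖u₂‖ ^ (j - 1) := by
      rw [← pow_succ', Nat.sub_add_cancel hj]
    rw [h3, h4]
    calc g₂ * (‖u₁‖ ^ i * (‖u₂‖ * ‖u₂‖ ^ (j - 1))) = (g₂ * ‖u₂‖) * (‖u₁‖ ^ i * ‖u₂‖ ^ (j - 1)) := by ring
      _ ≤ T * (R ^ i * R ^ (j - 1)) := by
        refine mul_le_mul h2 ?_ (by positivity) hT
        exact mul_le_mul (pow_le_pow_left₀ (norm_nonneg _) hu₁ _) (pow_le_pow_left₀ (norm_nonneg _) hu₂ _) (by positivity) (by positivity)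

/-- the algebraic part -/
private theorem alg_est {m : ℕ} (hm : 1 ≤ m) {α β : ℕ → ℂ} {A R T : ℝ} {u₁ u₂ l₁ l₂ g₁ g₂ : ℂ} (hA : 0 ≤ A) (hR : 0 ≤ R) (hT : 0 ≤ T)
    (h1 : ∀ k ∈ Finset.range (m + 1), ‖α k - β k‖ ≤ A * (‖g₁‖ + ‖g₂‖)) (h2 : ‖α m - β m‖ ≤ A * ‖g₁‖) (h3 : ‖α 0 - β 0‖ ≤ A * ‖g₂‖)
    (h4 : ∀ k ∈ Finset.range (m + 1), ‖β k‖ ≤ A) (hu₁ : ‖u₁‖ ≤ R) (hu₂ : ‖u₂‖ ≤ R) (hl₁ : ‖l₁‖ ≤ R) (hl₂ : ‖l₂‖ ≤ R)
    (hg₁ : ‖g₁‖ * ‖u₁‖ ≤ T) (hg₂ : ‖g₂‖ * ‖u₂‖ ≤ T) (hd₁ : ‖u₁ - l₁‖ ≤ T) (hd₂ : ‖u₂ - l₂‖ ≤ T) :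
    ‖∑ k ∈ Finset.range (m + 1), α k * u₁ ^ k * u₂ ^ (m - k) - ∑ k ∈ Finset.range (m + 1), β k * l₁ ^ k * l₂ ^ (m - k)‖ ≤
      (m + 1) * ((m + 2) * A * T * R ^ (m - 1)) := by
  rw [← Finset.sum_sub_distrib]
  have hterm : ∀ k ∈ Finset.range (m + 1), ‖α k * u₁ ^ k * u₂ ^ (m - k) - β k * l₁ ^ k * l₂ ^ (m - k)‖ ≤ (m + 2) * A * T * R ^ (m - 1) := by
    intro k hk
    have hkm : k ≤ m := Nat.lt_succ_iff.1 (Finset.mem_range.1 hk)
    have hkk : k + (m - k) = m := by omega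
    have e1 : α k * u₁ ^ k * u₂ ^ (m - k) - β k * l₁ ^ k * l₂ ^ (m - k) =
        (α k - β k) * (u₁ ^ k * u₂ ^ (m - k)) + β k * (u₁ ^ k * u₂ ^ (m - k) - l₁ ^ k * l₂ ^ (m - k)) := by ring
    have e2 : ‖β k * (u₁ ^ k * u₂ ^ (m - k) - l₁ ^ k * l₂ ^ (m - k))‖ ≤ A * (m * R ^ (m - 1) * T) := by
      rw [norm_mul]
      have h5 := mon_sub_le hR hT hu₁ hu₂ hl₁ hl₂ hd₁ hd₂ k (m - k)
      have h6 : ((k : ℝ) + ((m - k : ℕ) : ℝ)) = m := by
        rw [← Nat.cast_add, hkk]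
      rw [h6, hkk] at h5
      exact mul_le_mul (h4 k hk) h5 (norm_nonneg _) hA
    have e3 : ‖(α k - β k) * (u₁ ^ k * u₂ ^ (m - k))‖ ≤ 2 * A * T * R ^ (m - 1) := by
      rw [norm_mul, norm_mul, norm_pow, norm_pow]
      obtain ⟨h5, h6⟩ := mon_le hR hT hu₁ hu₂ hg₁ hg₂ k (m - k)
      rw [hkk] at h5 h6
      have hp : 0 ≤ A * (T * R ^ (m - 1)) := by positivity
      have hq : 0 ≤ ‖u₁‖ ^ k * ‖u₂‖ ^ (m - k) := by positivity
      by_cases hk0 : k = 0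
      · subst hk0
        calc ‖α 0 - β 0‖ * (‖u₁‖ ^ 0 * ‖u₂‖ ^ (m - 0)) ≤ A * ‖g₂‖ * (‖u₁‖ ^ 0 * ‖u₂‖ ^ (m - 0)) := mul_le_mul_of_nonneg_right h3 hq
          _ = A * (‖g₂‖ * (‖u₁‖ ^ 0 * ‖u₂‖ ^ (m - 0))) := by ring
          _ ≤ A * (T * R ^ (m - 1)) := mul_le_mul_of_nonneg_left (h6 (by omega)) hA
          _ ≤ 2 * A * T * R ^ (m - 1) := by linarith
      · by_cases hkm' : k = m
        · subst hkm'
          calc ‖α k - β k‖ * (‖u₁‖ ^ k * ‖u₂‖ ^ (k - k)) ≤ A * ‖g₁‖ * (‖u₁‖ ^ k * ‖u₂‖ ^ (k - k)) := mul_le_mul_of_nonneg_right h2 hq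
            _ = A * (‖g₁‖ * (‖u₁‖ ^ k * ‖u₂‖ ^ (k - k))) := by ring
            _ ≤ A * (T * R ^ (k - 1)) := mul_le_mul_of_nonneg_left (h5 hm) hA
            _ ≤ 2 * A * T * R ^ (k - 1) := by linarith
        · calc ‖α k - β k‖ * (‖u₁‖ ^ k * ‖u₂‖ ^ (m - k)) ≤ A * (‖g₁‖ + ‖g₂‖) * (‖u₁‖ ^ k * ‖u₂‖ ^ (m - k)) := mul_le_mul_of_nonneg_right (h1 k hk) hq
            _ = A * (‖g₁‖ * (‖u₁‖ ^ k * ‖u₂‖ ^ (m - k)) + ‖g₂‖ * (‖u₁‖ ^ k * ‖u₂‖ ^ (m - k))) := by ring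
            _ ≤ A * (T * R ^ (m - 1) + T * R ^ (m - 1)) := mul_le_mul_of_nonneg_left (add_le_add (h5 (by omega)) (h6 (by omega))) hA
            _ = 2 * A * T * R ^ (m - 1) := by ring
    rw [e1]
    calc ‖(α k - β k) * (u₁ ^ k * u₂ ^ (m - k)) + β k * (u₁ ^ k * u₂ ^ (m - k) - l₁ ^ k * l₂ ^ (m - k))‖ ≤ 2 * A * T * R ^ (m - 1) + A * (m * R ^ (m - 1) * T) :=
          (norm_add_le _ _).trans (add_le_add e3 e2)
      _ = (m + 2) * A * T * R ^ (m - 1) := by ring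
  refine (norm_sum_le_of_le _ hterm).trans ?_
  rw [Finset.sum_const, Finset.card_range, nsmul_eq_mul]
  push_cast
  exact le_refl _

/-- the coefficients -/
private theorem coef_est {a : ℕ → ℂ × ℂ → ℂ} (ha : ∀ k, AnalyticAt ℂ (a k) 0) {m : ℕ} {b₁ b₂ : Bool}
    (h1 : b₁ = true → ∀ᶠ s in 𝓝 (0 : ℂ), a m (0, s) = a m 0) (h2 : b₂ = true → ∀ᶠ s in 𝓝 (0 : ℂ), a 0 (s, 0) = a 0 0) :
    ∃ A : ℝ, 0 ≤ A ∧ (∀ k ∈ Finset.range (m + 1), ‖a k 0‖ ≤ A) ∧ ∀ᶠ p in 𝓝 (0 : ℂ × ℂ),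
      (∀ k ∈ Finset.range (m + 1), ‖a k p - a k 0‖ ≤ A * (‖gg b₁ p.1‖ + ‖gg b₂ p.2‖)) ∧ ‖a m p - a m 0‖ ≤ A * ‖gg b₁ p.1‖ ∧
      ‖a 0 p - a 0 0‖ ≤ A * ‖gg b₂ p.2‖ := by
  have hLip : ∀ k, ∃ K : ℝ, 0 ≤ K ∧ ∃ s ∈ 𝓝 (0 : ℂ × ℂ), ∀ p ∈ s, ∀ q ∈ s, ‖a k p - a k q‖ ≤ K * ‖p - q‖ := by
    intro k
    obtain ⟨K, s, hs, h⟩ := (ha k).hasStrictFDerivAt.exists_lipschitzOnWith
    refine ⟨K, K.2, s, hs, fun p hp q hq => ?_⟩
    have := h.dist_le_mul p hp q hq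
    rwa [dist_eq_norm, dist_eq_norm] at this
  choose K hK s hs hKs using hLip
  have hsall : ∀ᶠ p in 𝓝 (0 : ℂ × ℂ), ∀ k ∈ Finset.range (m + 1), p ∈ s k := by
    rw [Filter.eventually_all_finset]
    exact fun k _ => hs k
  obtain ⟨A, hA⟩ : ∃ A, A = ∑ k ∈ Finset.range (m + 1), (K k + ‖a k 0‖) := ⟨_, rfl⟩
  have hA1 : ∀ k ∈ Finset.range (m + 1), K k + ‖a k 0‖ ≤ A := by
    intro k hk
    rw [hA]
    exact Finset.single_le_sum (f := fun k => K k + ‖a k 0‖) (fun i _ => add_nonneg (hK i) (norm_nonneg _)) hk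
  have hA0 : 0 ≤ A := by
    rw [hA]
    exact Finset.sum_nonneg fun k _ => add_nonneg (hK k) (norm_nonneg _)
  have hmem0 : ∀ k, (0 : ℂ × ℂ) ∈ s k := fun k => mem_of_mem_nhds (hs k)
  have hsmall : ∀ᶠ p in 𝓝 (0 : ℂ × ℂ), ‖p‖ < 1 := by
    have h3 : ContinuousAt (fun p : ℂ × ℂ => ‖p‖) 0 := continuous_norm.continuousAt
    exact h3.eventually (gt_mem_nhds (show ‖(0 : ℂ × ℂ)‖ < 1 by rw [norm_zero]; exact one_pos))
  have hgg : ∀ (b : Bool) (z : ℂ), ‖z‖ ≤ 1 → ‖z‖ ≤ ‖gg b z‖ := by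
    intro b z hz
    cases b
    · rw [gg_false, norm_one]
      exact hz
    · rw [gg_true]
  have hmm : m ∈ Finset.range (m + 1) := Finset.self_mem_range_succ m
  have h0m : 0 ∈ Finset.range (m + 1) := Finset.mem_range.2 (Nat.succ_pos m)
  have hpr1 : Tendsto (fun p : ℂ × ℂ => ((0 : ℂ), p.2)) (𝓝 0) (𝓝 0) := by
    have h3 : Continuous fun p : ℂ × ℂ => ((0 : ℂ), p.2) := continuous_const.prodMk continuous_snd
    exact h3.tendsto 0
  have hpr2 : Tendsto (fun p : ℂ × ℂ => (p.1, (0 : ℂ))) (𝓝 0) (𝓝 0) := by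
    have h3 : Continuous fun p : ℂ × ℂ => (p.1, (0 : ℂ)) := continuous_fst.prodMk continuous_const
    exact h3.tendsto 0
  have hsn : Tendsto (fun p : ℂ × ℂ => p.2) (𝓝 0) (𝓝 0) := continuous_snd.tendsto (0 : ℂ × ℂ)
  have hfs : Tendsto (fun p : ℂ × ℂ => p.1) (𝓝 0) (𝓝 0) := continuous_fst.tendsto (0 : ℂ × ℂ)
  have h1' : ∀ᶠ p in 𝓝 (0 : ℂ × ℂ), b₁ = true → a m (0, p.2) = a m 0 := by
    by_cases hb : b₁ = true
    · filter_upwards [hsn.eventually (h1 hb)] with p hp _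
      exact hp
    · exact Eventually.of_forall fun p h => absurd h hb
  have h2' : ∀ᶠ p in 𝓝 (0 : ℂ × ℂ), b₂ = true → a 0 (p.1, 0) = a 0 0 := by
    by_cases hb : b₂ = true
    · filter_upwards [hfs.eventually (h2 hb)] with p hp _
      exact hp
    · exact Eventually.of_forall fun p h => absurd h hb
  refine ⟨A, hA0, fun k hk => (le_add_of_nonneg_left (hK k)).trans (hA1 k hk), ?_⟩
  filter_upwards [hsall, hsmall, h1', h2', hpr1.eventually hsall, hpr2.eventually hsall] with p hp hp1 hq1 hq2 hp2 hp3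
  have hn1 : ‖p.1‖ ≤ 1 := (norm_fst_le p).trans hp1.le
  have hn2 : ‖p.2‖ ≤ 1 := (norm_snd_le p).trans hp1.le
  have hKA : ∀ k ∈ Finset.range (m + 1), K k ≤ A := fun k hk => (le_add_of_nonneg_right (norm_nonneg _)).trans (hA1 k hk)
  have hg1 := hgg b₁ p.1 hn1
  have hg2 := hgg b₂ p.2 hn2
  refine ⟨fun k hk => ?_, ?_, ?_⟩
  · have h3 := hKs k p (hp k hk) 0 (hmem0 k)
    rw [sub_zero] at h3
    have h4 : ‖p‖ ≤ ‖gg b₁ p.1‖ + ‖gg b₂ p.2‖ := by
      rw [Prod.norm_def]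
      exact max_le (hg1.trans (le_add_of_nonneg_right (norm_nonneg _))) (hg2.trans (le_add_of_nonneg_left (norm_nonneg _)))
    calc ‖a k p - a k 0‖ ≤ K k * ‖p‖ := h3
      _ ≤ A * (‖gg b₁ p.1‖ + ‖gg b₂ p.2‖) := mul_le_mul (hKA k hk) h4 (norm_nonneg _) hA0
  · by_cases hb : b₁ = true
    · have h3 := hKs m p (hp m hmm) (0, p.2) (hp2 m hmm)
      rw [hq1 hb] at h3
      have h4 : ‖p - (0, p.2)‖ = ‖p.1‖ := by
        rw [Prod.norm_def]
        simp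
      rw [h4] at h3
      exact h3.trans (mul_le_mul (hKA m hmm) hg1 (norm_nonneg _) hA0)
    · have h3 := hKs m p (hp m hmm) 0 (hmem0 m)
      rw [sub_zero] at h3
      have h4 : gg b₁ p.1 = 1 := by
        rw [Bool.not_eq_true] at hb
        rw [hb, gg_false]
      rw [h4, norm_one]
      exact h3.trans (mul_le_mul (hKA m hmm) hp1.le (norm_nonneg _) hA0)
  · by_cases hb : b₂ = true
    · have h3 := hKs 0 p (hp 0 h0m) (p.1, 0) (hp3 0 h0m)
      rw [hq2 hb] at h3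
      have h4 : ‖p - (p.1, 0)‖ = ‖p.2‖ := by
        rw [Prod.norm_def]
        simp
      rw [h4] at h3
      exact h3.trans (mul_le_mul (hKA 0 h0m) hg2 (norm_nonneg _) hA0)
    · have h3 := hKs 0 p (hp 0 h0m) 0 (hmem0 0)
      rw [sub_zero] at h3
      have h4 : gg b₂ p.2 = 1 := by
        rw [Bool.not_eq_true] at hb
        rw [hb, gg_false]
      rw [h4, norm_one]
      exact h3.trans (mul_le_mul (hKA 0 h0m) hp1.le (norm_nonneg _) hA0)

/-- the variable which belongs to a component, or `0` -/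
private def xx : Option (Fin k) → MvPolynomial (Fin k) ℂ
  | none => 0
  | some i => X i

private theorem xx_hom (o : Option (Fin k)) : (xx o).IsHomogeneous 1 := by
  cases o with
  | none => exact isHomogeneous_zero _ _ _
  | some i => exact isHomogeneous_X _ _

/-- the local estimate -/
theorem loc_bound {m : ℕ} (hm : 1 ≤ m) {o₁ o₂ : Option (Fin k)} (hne : ∀ i, o₁ = some i → o₂ ≠ some i) (_hone : o₁ = none → o₂ = none)
    {a : ℕ → ℂ × ℂ → ℂ} (ha : ∀ k, AnalyticAt ℂ (a k) 0) (h1 : o₁ ≠ none → ∀ᶠ s in 𝓝 (0 : ℂ), a m (0, s) = a m 0)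
    (h2 : o₂ ≠ none → ∀ᶠ s in 𝓝 (0 : ℂ), a 0 (s, 0) = a 0 0) {C : ℝ} (hC : 0 ≤ C) :
    ∃ (Pol : MvPolynomial (Fin k) ℂ) (C' : ℝ), Pol.IsHomogeneous m ∧
      (∀ y y' : Fin k → ℂ, (∀ i, (o₁ = some i ∨ o₂ = some i) → y i = y' i) → eval y Pol = eval y' Pol) ∧ 0 ≤ C' ∧
      ∀ᶠ p in 𝓝 (0 : ℂ × ℂ), gg o₁.isSome p.1 * gg o₂.isSome p.2 ≠ 0 → ∀ (t : ℂ × ℂ) (ell : Fin k → ℂ) (F L : ℝ), ‖t‖ ≤ C * F → 0 ≤ F →
        F + ∑ i, ‖ell i‖ ≤ L → (∀ i, ‖ell i - uu o₁ o₂ i p t‖ ≤ C * ‖t‖) →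
        ‖∑ k ∈ Finset.range (m + 1), a k p * (t.1 / gg o₁.isSome p.1) ^ k * (t.2 / gg o₂.isSome p.2) ^ (m - k) - eval ell Pol‖ ≤
          C' * F * L ^ (m - 1) := by
  obtain ⟨A, hA, hA0, hev⟩ := coef_est (m := m) ha (b₁ := o₁.isSome) (b₂ := o₂.isSome) (fun h => h1 (by rintro rfl; simp at h))
    (fun h => h2 (by rintro rfl; simp at h))
  have hxx : ∀ (y : Fin k → ℂ), eval y (∑ j ∈ Finset.range (m + 1), MvPolynomial.C (a j 0) * xx o₁ ^ j * xx o₂ ^ (m - j)) =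
      ∑ j ∈ Finset.range (m + 1), a j 0 * eval y (xx o₁) ^ j * eval y (xx o₂) ^ (m - j) := by
    intro y
    rw [map_sum]
    refine Finset.sum_congr rfl fun j _ => ?_
    rw [map_mul, map_mul, map_pow, map_pow, eval_C]
  obtain ⟨C₁, hC₁⟩ : ∃ C₁, C₁ = (1 + C) * C := ⟨_, rfl⟩
  have hC₁0 : 0 ≤ C₁ := by rw [hC₁]; positivity
  refine ⟨∑ j ∈ Finset.range (m + 1), MvPolynomial.C (a j 0) * xx o₁ ^ j * xx o₂ ^ (m - j), (m + 1) * ((m + 2) * A * C₁ * (1 + C₁) ^ (m - 1)), ?_, ?_, by positivity, ?_⟩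
  · refine IsHomogeneous.sum _ _ _ fun j hj => ?_
    have hjm : j ≤ m := Nat.lt_succ_iff.1 (Finset.mem_range.1 hj)
    have h3 := ((isHomogeneous_C (Fin k) (a j 0)).mul ((xx_hom o₁).pow j)).mul ((xx_hom o₂).pow (m - j))
    have h4 : 0 + 1 * j + 1 * (m - j) = m := by omega
    rwa [h4] at h3
  · intro y y' hy
    rw [hxx, hxx]
    have h3 : eval y (xx o₁) = eval y' (xx o₁) := by
      rcases o₁ with _ | i
      · simp [xx]
      · simp only [xx, eval_X]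
        exact hy i (Or.inl rfl)
    have h4 : eval y (xx o₂) = eval y' (xx o₂) := by
      rcases o₂ with _ | i
      · simp [xx]
      · simp only [xx, eval_X]
        exact hy i (Or.inr rfl)
    rw [h3, h4]
  · filter_upwards [hev] with p hp hg t ell F L ht hF hL hu
    obtain ⟨hp1, hp2, hp3⟩ := hp
    have hg₁ := left_ne_zero_of_mul hg
    have hg₂ := right_ne_zero_of_mul hg
    have hsum : 0 ≤ ∑ i, ‖ell i‖ := Finset.sum_nonneg fun i _ => norm_nonneg _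
    have hL0 : 0 ≤ L := by linarith
    have hFL : F ≤ L := by linarith
    have hellL : ∀ i, ‖ell i‖ ≤ L := fun i => by
      have := Finset.single_le_sum (f := fun i => ‖ell i‖) (fun i _ => norm_nonneg _) (Finset.mem_univ i)
      linarith
    have htT : ‖t‖ ≤ C₁ * F := by
      rw [hC₁]
      nlinarith [mul_nonneg hC (mul_nonneg hC hF)]
    have hCt : C * ‖t‖ ≤ C₁ * F := by
      rw [hC₁]
      have h3 : C * ‖t‖ ≤ C * (C * F) := mul_le_mul_of_nonneg_left ht hC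
      nlinarith [mul_nonneg hC hF]
    have hd₁ : ‖t.1 / gg o₁.isSome p.1 - eval ell (xx o₁)‖ ≤ C₁ * F := by
      rcases ho₁ : o₁ with _ | i
      · simp only [xx, map_zero, sub_zero, Option.isSome_none, gg_false, div_one]
        exact (norm_fst_le t).trans htT
      · simp only [xx, eval_X, Option.isSome_some, gg_true]
        have h3 := hu i
        have h4 : uu o₁ o₂ i p t = t.1 / p.1 := by
          have h5 := hne i ho₁
          simp [uu, ho₁, h5]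
        rw [h4, norm_sub_rev] at h3
        exact h3.trans hCt
    have hd₂ : ‖t.2 / gg o₂.isSome p.2 - eval ell (xx o₂)‖ ≤ C₁ * F := by
      rcases ho₂ : o₂ with _ | i
      · simp only [xx, map_zero, sub_zero, Option.isSome_none, gg_false, div_one]
        exact (norm_snd_le t).trans htT
      · simp only [xx, eval_X, Option.isSome_some, gg_true]
        have h3 := hu i
        have h4 : uu o₁ o₂ i p t = t.2 / p.2 := by
          have h5 : ¬ o₁ = some i := fun h => hne i h ho₂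
          simp [uu, ho₂, h5]
        rw [h4, norm_sub_rev] at h3
        exact h3.trans hCt
    have hLR : L ≤ (1 + C₁) * L := by nlinarith
    have hl : ∀ o : Option (Fin k), ‖eval ell (xx o)‖ ≤ L := by
      intro o
      cases o with
      | none => simpa [xx] using hL0
      | some i => simpa [xx] using hellL i
    have hu₁ : ‖t.1 / gg o₁.isSome p.1‖ ≤ (1 + C₁) * L := by
      have h3 := norm_add_le (t.1 / gg o₁.isSome p.1 - eval ell (xx o₁)) (eval ell (xx o₁))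
      rw [sub_add_cancel] at h3
      have h4 : C₁ * F ≤ C₁ * L := mul_le_mul_of_nonneg_left hFL hC₁0
      linarith [hl o₁]
    have hu₂ : ‖t.2 / gg o₂.isSome p.2‖ ≤ (1 + C₁) * L := by
      have h3 := norm_add_le (t.2 / gg o₂.isSome p.2 - eval ell (xx o₂)) (eval ell (xx o₂))
      rw [sub_add_cancel] at h3
      have h4 : C₁ * F ≤ C₁ * L := mul_le_mul_of_nonneg_left hFL hC₁0
      linarith [hl o₂]
    have hq₁ : ‖gg o₁.isSome p.1‖ * ‖t.1 / gg o₁.isSome p.1‖ ≤ C₁ * F := by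
      rw [← norm_mul, mul_div_cancel₀ _ hg₁]
      exact (norm_fst_le t).trans htT
    have hq₂ : ‖gg o₂.isSome p.2‖ * ‖t.2 / gg o₂.isSome p.2‖ ≤ C₁ * F := by
      rw [← norm_mul, mul_div_cancel₀ _ hg₂]
      exact (norm_snd_le t).trans htT
    rw [hxx]
    refine (alg_est hm hA (R := (1 + C₁) * L) (T := C₁ * F) (by positivity) (by positivity) hp1 hp2 hp3 hA0 hu₁ hu₂ ((hl o₁).trans hLR)
      ((hl o₂).trans hLR) hq₁ hq₂ hd₁ hd₂).trans (le_of_eq ?_)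
    rw [mul_pow]
    ring

end Pool.Agent.SR3

end
end

section

/-!
# SR3 RsC3: the distance to the components which do not pass through the centre of the chart
-/

set_option autoImplicit false

open Topology Filter Metric MvPolynomial

noncomputable section

namespace Pool.Agent.SR3

open Pool.Agent.H36.BP (EN fs)
open Pool.Agent.H17BP (Surface IsChart)
open Pool.Agent.H17EF (coneE)

variable {N k M : ℕ}

variable {P : Ideal (MvPolynomial (Fin (N + 1)) ℂ)} {H : MvPolynomial (Fin (N + 1)) ℂ} {E : Fin k → Fin (M + 1) → MvPolynomial (Fin (N + 1)) ℂ}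
  {c : Fin k → ℕ} {σ : ℂ × ℂ → EN N} {τ : EN N → ℂ × ℂ} {o₁ o₂ : Option (Fin k)}

theorem lc_lam (hL : LC P H E σ τ o₁ o₂) :
    ∃ C : ℝ, ∀ᶠ y in 𝓝 (0 : ℂ × ℂ), ∀ i, o₁ ≠ some i → o₂ ≠ some i → lamV (E i) (c i) (σ y) ≤ C := by
  have h1 : ∀ i, ∃ C : ℝ, ∀ᶠ y in 𝓝 (0 : ℂ × ℂ), o₁ ≠ some i → o₂ ≠ some i → lamV (E i) (c i) (σ y) ≤ C := by
    intro i
    obtain ⟨e, he, he0, hev⟩ := hL.eqs i
    have h2 : ContinuousAt (fun y => (c i : ℝ) * Real.log ‖σ y‖ - Real.log ‖e y‖) (0 : ℂ × ℂ) := by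
      refine ContinuousAt.sub (continuousAt_const.mul (hL.chart.σ_an.continuousAt.norm.log ?_)) (he.continuousAt.norm.log ?_)
      · exact norm_ne_zero_iff.2 hL.chart.ne
      · exact norm_ne_zero_iff.2 he0
    refine ⟨((c i : ℝ) * Real.log ‖σ 0‖ - Real.log ‖e 0‖) + 1, ?_⟩
    filter_upwards [hev, h2.eventually_lt continuousAt_const (lt_add_one _)] with y hy1 hy2 ho1 ho2
    unfold lamV
    rw [hy1, decide_eq_false ho1, decide_eq_false ho2, gg_false, gg_false, one_mul, one_smul]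
    exact hy2.le
  choose C hC using h1
  refine ⟨∑ i, |C i|, ?_⟩
  filter_upwards [eventually_all.2 hC] with y hy i ho1 ho2
  calc lamV (E i) (c i) (σ y) ≤ C i := hy i ho1 ho2
    _ ≤ |C i| := le_abs_self _
    _ ≤ ∑ i, |C i| := Finset.single_le_sum (f := fun i => |C i|) (fun i _ => abs_nonneg _) (Finset.mem_univ i)

end Pool.Agent.SR3

end
end
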