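import Pool.Agent.H43.TL2.M150
import Pool.Agent.H43.TL2.M45

/-! The parts of this file: SR3.Snc2, SR3.RsC1, SR3.RsE, SR3.RsF, SR3.RsR, SR3.RsU. -/

section

/-!
# SR3 Snc2 (module H2 (3), (4)): the components of the boundary and the length

In a chart `E i = co * e` and `H = u * ∏ co ^ b`: the poles `d co / co` cancel in the combination of `snc_cmp'`, the rest is bounded by the length of the
tangent vector in the chart, which is bounded by the Fubini–Study length.  Both sides do not depend on the lift (`global_bound`).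
-/

set_option autoImplicit false

open Topology Filter Metric MvPolynomial

noncomputable section

namespace Pool.Agent.SR3

open Pool.Agent.H36.BP (EN fs wd)
open Pool.Agent.H17BP (Surface IsChart)
open Pool.Agent.H14.PP (IsCone Tan)
open Pool.Agent.H17EF (coneE)

variable {N k M : ℕ}

/-! ## homogeneous maps -/

/-- the derivative of a homogeneous map -/
theorem snc2_hom {W : Type*} [NormedAddCommGroup W] [NormedSpace ℂ W] {G : EN N → W} (hG : ∀ x, DifferentiableAt ℂ G x) {d : ℕ}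
    (hh : ∀ (t : ℂ) (x : EN N), G (t • x) = t ^ d • G x) (x v : EN N) (c a : ℂ) :
    fderiv ℂ G (c • x) (c • v + a • x) = c ^ d • fderiv ℂ G x v + ((d : ℂ) * c ^ (d - 1) * a) • G x := by
  have h2 : HasDerivAt (fun z : ℂ => c + z * a) a 0 := by simpa using ((hasDerivAt_id (0 : ℂ)).mul_const a).const_add c
  have h3 : HasDerivAt (fun z : ℂ => x + z • v) v 0 := by simpa using ((hasDerivAt_id (0 : ℂ)).smul_const v).const_add x
  have h1 : HasDerivAt (fun z : ℂ => (c + z * a) • (x + z • v)) (c • v + a • x) 0 :=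
    HasDerivAt.congr_deriv (f := fun z : ℂ => (c + z * a) • (x + z • v)) (h2.smul h3) (by simp)
  have h4 : HasDerivAt (fun z : ℂ => G ((c + z * a) • (x + z • v))) (fderiv ℂ G (c • x) (c • v + a • x)) 0 :=
    (hG (c • x)).hasFDerivAt.comp_hasDerivAt_of_eq 0 h1 (by simp)
  have h5 : HasDerivAt (fun z : ℂ => G (x + z • v)) (fderiv ℂ G x v) 0 := (hG x).hasFDerivAt.comp_hasDerivAt_of_eq 0 h3 (by simp)
  have h6 := (h2.pow d).smul h5
  have h7 : HasDerivAt (fun z : ℂ => G ((c + z * a) • (x + z • v))) _ 0 := h6.congr_of_eventuallyEq (Eventually.of_forall fun z => hh _ _)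
  rw [h4.unique h7]
  simp

/-- the quotient `⟨g, w⟩ / |g|²` for a multiple -/
theorem snc2_quot {g : EN M} (hg : g ≠ 0) (w : EN M) {κ : ℂ} (hκ : κ ≠ 0) (β : ℂ) :
    inner ℂ (κ • g) (κ • w + β • g) / (‖κ • g‖ : ℂ) ^ 2 = inner ℂ g w / (‖g‖ : ℂ) ^ 2 + β / κ := by
  have hg' : (‖g‖ : ℂ) ≠ 0 := by exact_mod_cast norm_ne_zero_iff.2 hg
  have h1 : (‖κ • g‖ : ℂ) ^ 2 = (starRingEnd ℂ) κ * κ * (‖g‖ : ℂ) ^ 2 := by
    rw [norm_smul, Complex.ofReal_mul, mul_pow, ← Complex.conj_mul']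
  have h2 : inner ℂ g g = (‖g‖ : ℂ) ^ 2 := inner_self_eq_norm_sq_to_K g
  have hc : (starRingEnd ℂ) κ ≠ 0 := (map_ne_zero _).2 hκ
  rw [h1, inner_add_right, inner_smul_left, inner_smul_left, inner_smul_right, inner_smul_right, h2]
  field_simp

/-- `⟨g, w⟩ / |g|²` is bounded by `|w| / |g|` -/
theorem snc2_quot_le {g : EN M} (hg : g ≠ 0) {w : EN M} {B : ℝ} (h : ‖w‖ ≤ B * ‖g‖) : ‖inner ℂ g w / (‖g‖ : ℂ) ^ 2‖ ≤ B := by
  have hg' : 0 < ‖g‖ := norm_pos_iff.2 hg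
  rw [norm_div, norm_pow, Complex.norm_real, norm_norm, div_le_iff₀ (by positivity)]
  calc ‖inner ℂ g w‖ ≤ ‖g‖ * ‖w‖ := norm_inner_le_norm g w
    _ ≤ ‖g‖ * (B * ‖g‖) := mul_le_mul_of_nonneg_left h hg'.le
    _ = B * ‖g‖ ^ 2 := by ring

/-! ## the Fubini–Study length in a chart -/

/-- the part of `v` orthogonal to `x` -/
theorem snc2_wd {x : EN N} (hx : x ≠ 0) (v : EN N) : ‖x‖ * ‖v - (inner ℂ x v / (‖x‖ : ℂ) ^ 2) • x‖ = wd x v := by
  have hx' : (‖x‖ : ℂ) ≠ 0 := by exact_mod_cast norm_ne_zero_iff.2 hx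
  obtain ⟨s, hs⟩ : ∃ s : ℂ, s = inner ℂ x v / (‖x‖ : ℂ) ^ 2 := ⟨_, rfl⟩
  have h1 : wd x (v + (-s) • x) = wd x v := by
    have h := Pool.Agent.H36.BP.wd_inv x v 1 (-s)
    rw [one_smul, one_smul, norm_one, one_pow, one_mul] at h
    exact h
  have h2 : inner ℂ x (v + (-s) • x) = 0 := by
    have h3 : inner ℂ x x = (‖x‖ : ℂ) ^ 2 := inner_self_eq_norm_sq_to_K x
    rw [inner_add_right, inner_smul_right, h3, hs]
    field_simp
    ring
  have h4 : wd x (v + (-s) • x) = ‖x‖ * ‖v + (-s) • x‖ := by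
    unfold Pool.Agent.H36.BP.wd
    rw [h2, norm_zero, ← mul_pow]
    rw [show (‖x‖ * ‖v + (-s) • x‖) ^ 2 - (0 : ℝ) ^ 2 = (‖x‖ * ‖v + (-s) • x‖) ^ 2 by ring]
    exact Real.sqrt_sq (by positivity)
  rw [← hs, ← h1, h4, neg_smul, sub_eq_add_neg]

/-- the length in the chart is bounded by the Fubini–Study length -/
theorem snc2_fs_ge {X : Set (EN N)} {σ : ℂ × ℂ → EN N} {τ : EN N → ℂ × ℂ} (h : IsChart X σ τ) :
    ∃ C : ℝ, 0 ≤ C ∧ ∀ᶠ y in 𝓝 (0 : ℂ × ℂ), ∀ t : ℂ × ℂ, ‖t‖ ≤ C * fs (σ y) (fderiv ℂ σ y t) := by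
  have hσ : Tendsto σ (𝓝 (0 : ℂ × ℂ)) (𝓝 (σ 0)) := h.σ_an.continuousAt
  have hinv : ∀ᶠ x in 𝓝 (σ 0), ∀ᶠ c in 𝓝 (1 : ℂ), τ (c • x) = τ x := by
    have h1 := h.inv
    rw [nhds_prod_eq] at h1
    exact h1.curry
  refine ⟨(‖fderiv ℂ τ (σ 0)‖ + 1) * (‖σ 0‖ + 1), by positivity, ?_⟩
  filter_upwards [h.σ_an.eventually_analyticAt, hσ.eventually h.τ_an.eventually_analyticAt, h.left.eventually_nhds, hσ.eventually hinv,
    hσ.eventually ((h.τ_an.fderiv.continuousAt.norm).eventually (gt_mem_nhds (lt_add_one _))),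
    hσ.norm.eventually (gt_mem_nhds (lt_add_one _)), hσ.eventually_ne h.ne] with y h1 h2 h3 h4 h5 h6 h7 t
  have hy' : 0 < ‖σ y‖ := norm_pos_iff.2 h7
  -- the derivative of `τ ∘ σ`
  have h8 : fderiv ℂ τ (σ y) (fderiv ℂ σ y t) = t := by
    have h9 : HasFDerivAt (fun p => τ (σ p)) ((fderiv ℂ τ (σ y)).comp (fderiv ℂ σ y)) y :=
      h2.differentiableAt.hasFDerivAt.comp y h1.differentiableAt.hasFDerivAt
    have h10 : HasFDerivAt (fun p => τ (σ p)) (ContinuousLinearMap.id ℂ (ℂ × ℂ)) y := (hasFDerivAt_id y).congr_of_eventuallyEq h3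
    have h11 := congrArg (fun T : ℂ × ℂ →L[ℂ] ℂ × ℂ => T t) (h9.unique h10)
    simpa using h11
  -- the radial derivative of `τ`
  have h9 : fderiv ℂ τ (σ y) (σ y) = 0 := by
    have h10 : HasDerivAt (fun c : ℂ => c • σ y) (σ y) 1 := by simpa using (hasDerivAt_id (1 : ℂ)).smul_const (σ y)
    have h11 : HasDerivAt (fun c : ℂ => τ (c • σ y)) (fderiv ℂ τ (σ y) (σ y)) 1 :=
      h2.differentiableAt.hasFDerivAt.comp_hasDerivAt_of_eq 1 h10 (by simp)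
    have h12 : HasDerivAt (fun c : ℂ => τ (c • σ y)) 0 1 := (hasDerivAt_const (1 : ℂ) (τ (σ y))).congr_of_eventuallyEq h4
    exact h11.unique h12
  have h10 : t = fderiv ℂ τ (σ y) (fderiv ℂ σ y t - (inner ℂ (σ y) (fderiv ℂ σ y t) / (‖σ y‖ : ℂ) ^ 2) • σ y) := by
    rw [map_sub, map_smul, h8, h9, smul_zero, sub_zero]
  have h11 := snc2_wd h7 (fderiv ℂ σ y t)
  have h12 : ‖fderiv ℂ σ y t - (inner ℂ (σ y) (fderiv ℂ σ y t) / (‖σ y‖ : ℂ) ^ 2) • σ y‖ = ‖σ y‖ * fs (σ y) (fderiv ℂ σ y t) := by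
    unfold Pool.Agent.H36.BP.fs
    rw [← h11]
    field_simp
  have h13 : 0 ≤ fs (σ y) (fderiv ℂ σ y t) := Pool.Agent.H36.BP.fs_nonneg _ _
  calc ‖t‖ = ‖fderiv ℂ τ (σ y) (fderiv ℂ σ y t - (inner ℂ (σ y) (fderiv ℂ σ y t) / (‖σ y‖ : ℂ) ^ 2) • σ y)‖ := by rw [← h10]
    _ ≤ ‖fderiv ℂ τ (σ y)‖ * (‖σ y‖ * fs (σ y) (fderiv ℂ σ y t)) := by rw [← h12]; exact ContinuousLinearMap.le_opNorm _ _
    _ ≤ (‖fderiv ℂ τ (σ 0)‖ + 1) * ((‖σ 0‖ + 1) * fs (σ y) (fderiv ℂ σ y t)) :=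
      mul_le_mul h5.le (mul_le_mul_of_nonneg_right h6.le h13) (by positivity) (by positivity)
    _ = _ := by ring

/-- the logarithmic derivative of a function without zeros is bounded -/
theorem snc2_rel {W : Type*} [NormedAddCommGroup W] [NormedSpace ℂ W] [CompleteSpace W] {e : ℂ × ℂ → W} (he : AnalyticAt ℂ e 0) (h0 : e 0 ≠ 0) :
    ∃ K : ℝ, 0 ≤ K ∧ ∀ᶠ y in 𝓝 (0 : ℂ × ℂ), AnalyticAt ℂ e y ∧ e y ≠ 0 ∧ ∀ t, ‖fderiv ℂ e y t‖ ≤ K * ‖t‖ * ‖e y‖ := by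
  have h1 : ContinuousAt (fun y => ‖fderiv ℂ e y‖ / ‖e y‖) 0 := he.fderiv.continuousAt.norm.div he.continuousAt.norm (norm_ne_zero_iff.2 h0)
  refine ⟨‖fderiv ℂ e 0‖ / ‖e 0‖ + 1, by positivity, ?_⟩
  filter_upwards [he.eventually_analyticAt, he.continuousAt.eventually_ne h0, h1.eventually (gt_mem_nhds (lt_add_one _))] with y h2 h3 h4
  refine ⟨h2, h3, fun t => ?_⟩
  have h5 : 0 < ‖e y‖ := norm_pos_iff.2 h3
  rw [div_lt_iff₀ h5] at h4
  calc ‖fderiv ℂ e y t‖ ≤ ‖fderiv ℂ e y‖ * ‖t‖ := ContinuousLinearMap.le_opNorm _ _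
    _ ≤ ((‖fderiv ℂ e 0‖ / ‖e 0‖ + 1) * ‖e y‖) * ‖t‖ := mul_le_mul_of_nonneg_right h4.le (norm_nonneg _)
    _ = _ := by ring

/-! ## the forms -/

theorem snc2_diffH (H : MvPolynomial (Fin (N + 1)) ℂ) (x : EN N) : DifferentiableAt ℂ (fun y : EN N => eval y.ofLp H) x := by
  have h : ∀ i : Fin (N + 1), AnalyticAt ℂ (fun x : EN N => x.ofLp i) x := fun i =>
    (EuclideanSpace.proj (𝕜 := ℂ) (ι := Fin (N + 1)) i : EN N →L[ℂ] ℂ).analyticAt x
  have h1 := AnalyticAt.aeval_mvPolynomial (𝕜 := ℂ) h H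
  simp only [aeval_eq_eval] at h1
  exact h1.differentiableAt

theorem snc2_evalH {H : MvPolynomial (Fin (N + 1)) ℂ} {h : ℕ} (hH : H.IsHomogeneous h) (t : ℂ) (x : EN N) :
    eval (t • x).ofLp H = t ^ h * eval x.ofLp H := by
  rw [MvPolynomial.eval_eq', MvPolynomial.eval_eq', Finset.mul_sum]
  apply Finset.sum_congr rfl
  intro m hm
  have hdeg : ∑ i, m i = h := by
    have := hH (MvPolynomial.mem_support_iff.1 hm)
    rw [Finsupp.weight_apply] at this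
    simpa [Finsupp.sum_fintype] using this
  have h1 : ∏ i, (t • x).ofLp i ^ m i = t ^ h * ∏ i, x.ofLp i ^ m i := by
    rw [← hdeg, ← Finset.prod_pow_eq_pow_sum, ← Finset.prod_mul_distrib]
    exact Finset.prod_congr rfl fun i _ => by simp [mul_pow]
  rw [h1]
  ring

theorem snc2_diffE (E : Fin (M + 1) → MvPolynomial (Fin (N + 1)) ℂ) (x : EN N) : DifferentiableAt ℂ (vec E) x := by
  unfold vec
  have h : DifferentiableAt ℂ (fun y : EN N => fun l => eval y.ofLp (E l)) x := differentiableAt_pi.2 fun l => snc2_diffH (E l) x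
  exact (PiLp.continuousLinearEquiv 2 ℂ (fun _ : Fin (M + 1) => ℂ)).symm.differentiableAt.comp x h

theorem snc2_homE {E : Fin (M + 1) → MvPolynomial (Fin (N + 1)) ℂ} {c : ℕ} (hE : ∀ l, (E l).IsHomogeneous c) (t : ℂ) (x : EN N) :
    vec E (t • x) = t ^ c • vec E x := by
  ext l
  exact snc2_evalH (hE l) t x

theorem snc2_co_diff (s : Option Bool) (y : ℂ × ℂ) : DifferentiableAt ℂ (co s) y := by
  cases s with
  | none => exact differentiableAt_const _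
  | some b => cases b with
    | false => exact differentiableAt_fst
    | true => exact differentiableAt_snd

/-- `E` in a chart -/
theorem snc2_E {E : Fin (M + 1) → MvPolynomial (Fin (N + 1)) ℂ} {σ : ℂ × ℂ → EN N} {s : Option Bool} {e : ℂ × ℂ → EN M} {y : ℂ × ℂ}
    (hσ : DifferentiableAt ℂ σ y) (he : DifferentiableAt ℂ e y) (h : ∀ᶠ y' in 𝓝 y, vec E (σ y') = co s y' • e y') (t : ℂ × ℂ) :
    fderiv ℂ (vec E) (σ y) (fderiv ℂ σ y t) = co s y • fderiv ℂ e y t + fderiv ℂ (co s) y t • e y := by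
  have h1 : HasFDerivAt (fun y => vec E (σ y)) ((fderiv ℂ (vec E) (σ y)).comp (fderiv ℂ σ y)) y :=
    (snc2_diffE E (σ y)).hasFDerivAt.comp y hσ.hasFDerivAt
  have h2 := ((snc2_co_diff s y).hasFDerivAt.smul he.hasFDerivAt).congr_of_eventuallyEq h
  have h3 := congrArg (fun T : ℂ × ℂ →L[ℂ] EN M => T t) (h1.unique h2)
  simpa using h3

/-- `H` in a chart -/
theorem snc2_H {H : MvPolynomial (Fin (N + 1)) ℂ} {σ : ℂ × ℂ → EN N} {s : Fin k → Option Bool} {b : Fin k → ℕ} {u : ℂ × ℂ → ℂ} {y : ℂ × ℂ}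
    (hσ : DifferentiableAt ℂ σ y) (hu : DifferentiableAt ℂ u y) (hu0 : u y ≠ 0) (hs : ∀ i, co (s i) y ≠ 0)
    (h : ∀ᶠ y' in 𝓝 y, eval (σ y').ofLp H = u y' * ∏ i, co (s i) y' ^ b i) (t : ℂ × ℂ) :
    fderiv ℂ (fun y : EN N => eval y.ofLp H) (σ y) (fderiv ℂ σ y t) / eval (σ y).ofLp H =
      fderiv ℂ u y t / u y + ∑ i, (b i : ℂ) * (fderiv ℂ (co (s i)) y t / co (s i) y) := by
  have hl : HasDerivAt (fun z : ℂ => y + z • t) t 0 := by simpa using ((hasDerivAt_id (0 : ℂ)).smul_const t).const_add y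
  have hl0 : Tendsto (fun z : ℂ => y + z • t) (𝓝 0) (𝓝 y) := by
    have := hl.continuousAt.tendsto
    simpa using this
  have h1 : HasDerivAt (fun z : ℂ => σ (y + z • t)) (fderiv ℂ σ y t) 0 := hσ.hasFDerivAt.comp_hasDerivAt_of_eq 0 hl (by simp)
  have h2 : HasDerivAt (fun z : ℂ => eval (σ (y + z • t)).ofLp H) (fderiv ℂ (fun y : EN N => eval y.ofLp H) (σ y) (fderiv ℂ σ y t)) 0 :=
    (snc2_diffH H (σ y)).hasFDerivAt.comp_hasDerivAt_of_eq 0 h1 (by simp)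
  have h3 : HasDerivAt (fun z : ℂ => u (y + z • t)) (fderiv ℂ u y t) 0 := hu.hasFDerivAt.comp_hasDerivAt_of_eq 0 hl (by simp)
  have h4 : ∀ i, HasDerivAt (fun z : ℂ => co (s i) (y + z • t)) (fderiv ℂ (co (s i)) y t) 0 := fun i =>
    (snc2_co_diff (s i) y).hasFDerivAt.comp_hasDerivAt_of_eq 0 hl (by simp)
  have h5' : (fun z : ℂ => eval (σ (y + z • t)).ofLp H) =ᶠ[𝓝 0] fun z : ℂ => u (y + z • t) * ∏ i, co (s i) (y + z • t) ^ b i := hl0.eventually h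
  have h5 : logDeriv (fun z : ℂ => eval (σ (y + z • t)).ofLp H) 0 =
      logDeriv (fun z : ℂ => u (y + z • t) * ∏ i, co (s i) (y + z • t) ^ b i) 0 :=
    (logDeriv_congr_nhds h5').self_of_nhds
  have h6 : logDeriv (fun z : ℂ => u (y + z • t) * ∏ i, co (s i) (y + z • t) ^ b i) 0 =
      logDeriv (fun z : ℂ => u (y + z • t)) 0 + logDeriv (fun z : ℂ => ∏ i, co (s i) (y + z • t) ^ b i) 0 := by
    refine logDeriv_mul (f := fun z : ℂ => u (y + z • t)) (g := fun z : ℂ => ∏ i, co (s i) (y + z • t) ^ b i) 0 (by simpa using hu0) ?_ h3.differentiableAt ?_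
    · simp only [zero_smul, add_zero]
      exact Finset.prod_ne_zero_iff.2 fun i _ => pow_ne_zero _ (hs i)
    · exact DifferentiableAt.fun_finsetProd fun i _ => (h4 i).differentiableAt.pow _
  have h7 : logDeriv (fun z : ℂ => ∏ i, co (s i) (y + z • t) ^ b i) 0 = ∑ i, logDeriv (fun z : ℂ => co (s i) (y + z • t) ^ b i) 0 := by
    refine logDeriv_prod (s := Finset.univ) (f := fun i (z : ℂ) => co (s i) (y + z • t) ^ b i) (x := 0) (fun i _ => ?_) fun i _ => (h4 i).differentiableAt.pow _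
    simp only [zero_smul, add_zero]
    exact pow_ne_zero _ (hs i)
  have h8 : ∀ i, logDeriv (fun z : ℂ => co (s i) (y + z • t) ^ b i) 0 = (b i : ℂ) * (fderiv ℂ (co (s i)) y t / co (s i) y) := by
    intro i
    rw [logDeriv_fun_pow (h4 i).differentiableAt, logDeriv_apply, (h4 i).deriv, zero_smul, add_zero]
  rw [h6, h7, logDeriv_apply, logDeriv_apply, h2.deriv, h3.deriv, zero_smul, add_zero] at h5
  rw [h5]
  congr 1
  exact Finset.sum_congr rfl fun i _ => h8 i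

section main

variable {P : Ideal (MvPolynomial (Fin (N + 1)) ℂ)} {H : MvPolynomial (Fin (N + 1)) ℂ} {h : ℕ} {E : Fin k → Fin (M + 1) → MvPolynomial (Fin (N + 1)) ℂ}
  {c b : Fin k → ℕ}

theorem snc2_oc {x : EN N} : x ∈ oc P H ↔ x ∈ coneE P ∧ eval x.ofLp H ≠ 0 :=
  ⟨fun h => ⟨h.1, h.2 0⟩, fun h => ⟨h.1, fun _ => h.2⟩⟩

theorem snc2_co_ne {s : Fin k → Option Bool} {u : ℂ × ℂ → ℂ} {y : ℂ × ℂ} {w : ℂ} (hb : ∀ i, 1 ≤ b i) (h : w = u y * ∏ i, co (s i) y ^ b i)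
    (hw : w ≠ 0) (i : Fin k) : co (s i) y ≠ 0 := by
  intro h0
  apply hw
  rw [h, Finset.prod_eq_zero (Finset.mem_univ i) (by rw [h0, zero_pow (by have := hb i; omega)]), mul_zero]

theorem snc2_ne (hs : Snc P H E b) (i : Fin k) {x : EN N} (hx : x ∈ oc P H) : vec (E i) x ≠ 0 := by
  obtain ⟨hx1, hx2⟩ := snc2_oc.1 hx
  obtain ⟨σ, τ, s, e, u, -, h0, -, h1, -, -, h2⟩ := hs.chart x hx1
  have h3 := (h1 i).2.2.self_of_nhds
  have h4 := h2.self_of_nhds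
  rw [h0] at h3 h4
  rw [h3]
  exact smul_ne_zero (snc2_co_ne hs.pos h4 hx2 i) (h1 i).2.1

theorem snc2_oc_of (hs : Snc P H E b) {x : EN N} (hx : x ∈ coneE P) (h : ∀ i, vec (E i) x ≠ 0) : x ∈ oc P H := by
  obtain ⟨σ, τ, s, e, u, -, h0, -, h1, -, hu0, h2⟩ := hs.chart x hx
  refine snc2_oc.2 ⟨hx, ?_⟩
  have h4 := h2.self_of_nhds
  rw [h0] at h4
  rw [h4]
  refine mul_ne_zero hu0 (Finset.prod_ne_zero_iff.2 fun i _ => pow_ne_zero _ fun h5 => h i ?_)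
  have h3 := (h1 i).2.2.self_of_nhds
  rw [h0, h5, zero_smul] at h3
  exact h3

theorem snc2_oc_smul (hX : Surface (coneE P)) (hH : H.IsHomogeneous h) : ∀ x ∈ oc P H, ∀ c : ℂ, c ≠ 0 → c • x ∈ oc P H := by
  intro x hx c hc
  obtain ⟨hx1, hx2⟩ := snc2_oc.1 hx
  refine snc2_oc.2 ⟨hX.smul x hx1 c hc, ?_⟩
  rw [snc2_evalH hH]
  exact mul_ne_zero (pow_ne_zero _ hc) hx2

theorem snc2_ell_inv (hE : ∀ i l, (E i l).IsHomogeneous (c i)) (i : Fin k) {x : EN N} (hx : x ≠ 0) (hEx : vec (E i) x ≠ 0) (v : EN N) {κ : ℂ} (hκ : κ ≠ 0)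
    (a : ℂ) : ellE (E i) (c i) (κ • x) (κ • v + a • x) = ellE (E i) (c i) x v := by
  unfold ellE
  rw [snc2_hom (snc2_diffE (E i)) (snc2_homE (hE i)), snc2_homE (hE i), snc2_quot hEx _ (pow_ne_zero _ hκ), snc2_quot hx v hκ a]
  rcases Nat.eq_zero_or_pos (c i) with h0 | h0
  · rw [h0]
    simp
  · have h1 : κ ^ c i = κ ^ (c i - 1) * κ := by rw [← pow_succ, Nat.sub_add_cancel h0]
    rw [h1]
    have h2 : κ ^ (c i - 1) ≠ 0 := pow_ne_zero _ hκ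
    field_simp
    ring

/-- MODULE H2 (3) -/
theorem snc_cmp' (hX : Surface (coneE P)) (hc : IsCone (coneE P)) (hH : H.IsHomogeneous h) (hE : ∀ i l, (E i l).IsHomogeneous (c i))
    (hs : Snc P H E b) :
    ∃ C : ℝ, ∀ x ∈ oc P H, ∀ v, Tan (coneE P) x v →
      ‖(h : ℂ) * (inner ℂ x v / (‖x‖ : ℂ) ^ 2) - fderiv ℂ (fun y : EN N => eval y.ofLp H) x v / eval x.ofLp H +
        ∑ i, (b i : ℂ) * ellE (E i) (c i) x v‖ ≤ C * fs x v := by
  refine global_bound (X := coneE P) (K := oc P H) (Q := fun C x v => ‖(h : ℂ) * (inner ℂ x v / (‖x‖ : ℂ) ^ 2) -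
    fderiv ℂ (fun y : EN N => eval y.ofLp H) x v / eval x.ofLp H + ∑ i, (b i : ℂ) * ellE (E i) (c i) x v‖ ≤ C * fs x v) hX hc
    (fun x hx => hx.1) (snc2_oc_smul hX hH) ?_ ?_ ?_
  · intro C C' x v hCC hQ
    exact hQ.trans (mul_le_mul_of_nonneg_right hCC (Pool.Agent.H36.BP.fs_nonneg _ _))
  · intro C x hx v _ κ a hκ hQ
    obtain ⟨hx1, hx2⟩ := snc2_oc.1 hx
    have hx0 : x ≠ 0 := fun h0 => hX.zero (h0 ▸ hx1)
    have e1 : fderiv ℂ (fun y : EN N => eval y.ofLp H) (κ • x) (κ • v + a • x) / eval (κ • x).ofLp H =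
        fderiv ℂ (fun y : EN N => eval y.ofLp H) x v / eval x.ofLp H + (h : ℂ) * (a / κ) := by
      rw [snc2_hom (snc2_diffH H) (fun t x => by rw [smul_eq_mul]; exact snc2_evalH hH t x), snc2_evalH hH]
      rcases Nat.eq_zero_or_pos h with h0 | h0
      · rw [h0]
        simp
      · have h1 : κ ^ h = κ ^ (h - 1) * κ := by rw [← pow_succ, Nat.sub_add_cancel h0]
        rw [h1]
        have h2 : κ ^ (h - 1) ≠ 0 := pow_ne_zero _ hκ
        simp only [smul_eq_mul]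
        field_simp
    have e2 : ∀ i, ellE (E i) (c i) (κ • x) (κ • v + a • x) = ellE (E i) (c i) x v := fun i => snc2_ell_inv hE i hx0 (snc2_ne hs i hx) v hκ a
    rw [e1, snc2_quot hx0 v hκ a, Pool.Agent.H36.BP.fs_inv hx0 v hκ a]
    simp only [e2]
    refine le_trans (le_of_eq ?_) hQ
    congr 1
    ring
  · intro x hx
    obtain ⟨σ, τ, s, e, u, hch, h0, -, h1, hu, hu0, h2⟩ := hs.chart x hx
    refine ⟨σ, τ, hch, h0, ?_⟩
    obtain ⟨Cf, hCf, hfs⟩ := snc2_fs_ge hch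
    obtain ⟨Kσ, hKσ, hσ⟩ := snc2_rel hch.σ_an hch.ne
    obtain ⟨Ku, hKu, huu⟩ := snc2_rel hu hu0
    have h3 := fun i => snc2_rel (h1 i).1 (h1 i).2.1
    choose K hK hee using h3
    refine ⟨(h * Kσ + Ku + ∑ i, (b i : ℝ) * (K i + c i * Kσ)) * Cf, ?_⟩
    have h4 : ∀ᶠ y in 𝓝 (0 : ℂ × ℂ), ∀ i, ∀ᶠ y' in 𝓝 y, vec (E i) (σ y') = co (s i) y' • e i y' := by
      rw [eventually_all]
      exact fun i => (h1 i).2.2.eventually_nhds
    have h5 : ∀ᶠ y in 𝓝 (0 : ℂ × ℂ), ∀ i, AnalyticAt ℂ (e i) y ∧ e i y ≠ 0 ∧ ∀ t, ‖fderiv ℂ (e i) y t‖ ≤ K i * ‖t‖ * ‖e i y‖ := by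
      rw [eventually_all]
      exact hee
    filter_upwards [hfs, hσ, huu, h4, h5, h2.eventually_nhds] with y g1 g2 g3 g4 g5 g6 hyK t
    obtain ⟨hy1, hy2⟩ := snc2_oc.1 hyK
    have hco : ∀ i, co (s i) y ≠ 0 := fun i => snc2_co_ne hs.pos g6.self_of_nhds hy2 i
    have ex : ‖inner ℂ (σ y) (fderiv ℂ σ y t) / (‖σ y‖ : ℂ) ^ 2‖ ≤ Kσ * ‖t‖ := snc2_quot_le g2.2.1 (g2.2.2 t)
    have eu : ‖fderiv ℂ u y t / u y‖ ≤ Ku * ‖t‖ := by
      rw [norm_div, div_le_iff₀ (norm_pos_iff.2 g3.2.1)]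
      exact g3.2.2 t
    have ee : ∀ i, ellE (E i) (c i) (σ y) (fderiv ℂ σ y t) = fderiv ℂ (co (s i)) y t / co (s i) y +
        (inner ℂ (e i y) (fderiv ℂ (e i) y t) / (‖e i y‖ : ℂ) ^ 2 - (c i : ℂ) * (inner ℂ (σ y) (fderiv ℂ σ y t) / (‖σ y‖ : ℂ) ^ 2)) := by
      intro i
      unfold ellE
      rw [snc2_E g2.1.differentiableAt (g5 i).1.differentiableAt (g4 i) t, (g4 i).self_of_nhds, snc2_quot (g5 i).2.1 _ (hco i)]
      ring
    have eH := snc2_H g2.1.differentiableAt g3.1.differentiableAt g3.2.1 hco g6 t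
    have eb : ∀ i, ‖inner ℂ (e i y) (fderiv ℂ (e i) y t) / (‖e i y‖ : ℂ) ^ 2 - (c i : ℂ) * (inner ℂ (σ y) (fderiv ℂ σ y t) / (‖σ y‖ : ℂ) ^ 2)‖ ≤
        (K i + c i * Kσ) * ‖t‖ := by
      intro i
      refine (norm_sub_le _ _).trans ?_
      rw [norm_mul, Complex.norm_natCast]
      have q1 := snc2_quot_le (g5 i).2.1 ((g5 i).2.2 t)
      have q2 := mul_le_mul_of_nonneg_left ex (Nat.cast_nonneg (α := ℝ) (c i))
      linarith only [q1, q2]
    have hsum : (h : ℂ) * (inner ℂ (σ y) (fderiv ℂ σ y t) / (‖σ y‖ : ℂ) ^ 2) -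
        fderiv ℂ (fun y : EN N => eval y.ofLp H) (σ y) (fderiv ℂ σ y t) / eval (σ y).ofLp H + ∑ i, (b i : ℂ) * ellE (E i) (c i) (σ y) (fderiv ℂ σ y t) =
        (h : ℂ) * (inner ℂ (σ y) (fderiv ℂ σ y t) / (‖σ y‖ : ℂ) ^ 2) - fderiv ℂ u y t / u y + ∑ i, (b i : ℂ) *
          (inner ℂ (e i y) (fderiv ℂ (e i) y t) / (‖e i y‖ : ℂ) ^ 2 - (c i : ℂ) * (inner ℂ (σ y) (fderiv ℂ σ y t) / (‖σ y‖ : ℂ) ^ 2)) := by
      rw [eH]
      simp only [ee, mul_add, Finset.sum_add_distrib]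
      ring
    rw [hsum]
    have f1 : ‖(h : ℂ) * (inner ℂ (σ y) (fderiv ℂ σ y t) / (‖σ y‖ : ℂ) ^ 2)‖ ≤ h * (Kσ * ‖t‖) := by
      rw [norm_mul, Complex.norm_natCast]
      exact mul_le_mul_of_nonneg_left ex (Nat.cast_nonneg _)
    have f2 : ‖∑ i, (b i : ℂ) * (inner ℂ (e i y) (fderiv ℂ (e i) y t) / (‖e i y‖ : ℂ) ^ 2 -
        (c i : ℂ) * (inner ℂ (σ y) (fderiv ℂ σ y t) / (‖σ y‖ : ℂ) ^ 2))‖ ≤ (∑ i, (b i : ℝ) * (K i + c i * Kσ)) * ‖t‖ := by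
      rw [Finset.sum_mul]
      refine norm_sum_le_of_le _ fun i _ => ?_
      rw [norm_mul, Complex.norm_natCast, mul_assoc]
      exact mul_le_mul_of_nonneg_left (eb i) (Nat.cast_nonneg _)
    have f3 := norm_add_le ((h : ℂ) * (inner ℂ (σ y) (fderiv ℂ σ y t) / (‖σ y‖ : ℂ) ^ 2) - fderiv ℂ u y t / u y) (∑ i, (b i : ℂ) *
      (inner ℂ (e i y) (fderiv ℂ (e i) y t) / (‖e i y‖ : ℂ) ^ 2 - (c i : ℂ) * (inner ℂ (σ y) (fderiv ℂ σ y t) / (‖σ y‖ : ℂ) ^ 2)))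
    have f4 := norm_sub_le ((h : ℂ) * (inner ℂ (σ y) (fderiv ℂ σ y t) / (‖σ y‖ : ℂ) ^ 2)) (fderiv ℂ u y t / u y)
    have hA : 0 ≤ h * Kσ + Ku + ∑ i, (b i : ℝ) * (K i + c i * Kσ) := by
      have : 0 ≤ ∑ i, (b i : ℝ) * (K i + c i * Kσ) := Finset.sum_nonneg fun i _ => mul_nonneg (Nat.cast_nonneg _)
        (add_nonneg (hK i) (mul_nonneg (Nat.cast_nonneg _) hKσ))
      positivity
    have f5 := mul_le_mul_of_nonneg_left (g1 t) hA
    have f6 : (h * Kσ + Ku + ∑ i, (b i : ℝ) * (K i + c i * Kσ)) * ‖t‖ = h * (Kσ * ‖t‖) + Ku * ‖t‖ + (∑ i, (b i : ℝ) * (K i + c i * Kσ)) * ‖t‖ := by ring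
    have f7 : (h * Kσ + Ku + ∑ i, (b i : ℝ) * (K i + c i * Kσ)) * (Cf * fs (σ y) (fderiv ℂ σ y t)) =
      (h * Kσ + Ku + ∑ i, (b i : ℝ) * (K i + c i * Kσ)) * Cf * fs (σ y) (fderiv ℂ σ y t) := by ring
    linarith only [eu, f1, f2, f3, f4, f5]

/-- MODULE H2 (4) -/
theorem snc_fs (hX : Surface (coneE P)) (hc : IsCone (coneE P)) (hE : ∀ i l, (E i l).IsHomogeneous (c i)) (hs : Snc P H E b) :
    ∃ C : ℝ, 0 ≤ C ∧ ∀ i, ∀ x ∈ oc P H, ∀ v, Tan (coneE P) x v → fs (vec (E i) x) (fderiv ℂ (vec (E i)) x v) ≤ C * fs x v := by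
  obtain ⟨C, hC⟩ : ∃ C : ℝ, ∀ x ∈ oc P H, ∀ v, Tan (coneE P) x v → ∀ i, fs (vec (E i) x) (fderiv ℂ (vec (E i)) x v) ≤ C * fs x v := by
    refine global_bound (X := coneE P) (K := oc P H) (Q := fun C x v => ∀ i, fs (vec (E i) x) (fderiv ℂ (vec (E i)) x v) ≤ C * fs x v) hX hc
      (fun x hx => hx.1) ?_ ?_ ?_ ?_
    · intro x hx κ hκ
      refine snc2_oc_of hs (hX.smul x hx.1 κ hκ) fun i => ?_
      rw [snc2_homE (hE i)]
      exact smul_ne_zero (pow_ne_zero _ hκ) (snc2_ne hs i hx)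
    · intro C C' x v hCC hQ i
      exact (hQ i).trans (mul_le_mul_of_nonneg_right hCC (Pool.Agent.H36.BP.fs_nonneg _ _))
    · intro C x hx v _ κ a hκ hQ i
      have hx0 : x ≠ 0 := fun h0 => hX.zero (h0 ▸ hx.1)
      rw [snc2_hom (snc2_diffE (E i)) (snc2_homE (hE i)), snc2_homE (hE i), Pool.Agent.H36.BP.fs_inv (snc2_ne hs i hx) _ (pow_ne_zero _ hκ),
        Pool.Agent.H36.BP.fs_inv hx0 v hκ a]
      exact hQ i
    · intro x hx
      obtain ⟨σ, τ, s, e, u, hch, h0, -, h1, hu, hu0, h2⟩ := hs.chart x hx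
      refine ⟨σ, τ, hch, h0, ?_⟩
      obtain ⟨Cf, hCf, hfs⟩ := snc2_fs_ge hch
      obtain ⟨Kσ, hKσ, hσ⟩ := snc2_rel hch.σ_an hch.ne
      have h3 := fun i => snc2_rel (h1 i).1 (h1 i).2.1
      choose K hK hee using h3
      refine ⟨(∑ i, K i) * Cf, ?_⟩
      have h4 : ∀ᶠ y in 𝓝 (0 : ℂ × ℂ), ∀ i, ∀ᶠ y' in 𝓝 y, vec (E i) (σ y') = co (s i) y' • e i y' := by
        rw [eventually_all]
        exact fun i => (h1 i).2.2.eventually_nhds
      have h5 : ∀ᶠ y in 𝓝 (0 : ℂ × ℂ), ∀ i, AnalyticAt ℂ (e i) y ∧ e i y ≠ 0 ∧ ∀ t, ‖fderiv ℂ (e i) y t‖ ≤ K i * ‖t‖ * ‖e i y‖ := by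
        rw [eventually_all]
        exact hee
      filter_upwards [hfs, hσ, h4, h5, h2] with y g1 g2 g4 g5 g6 hyK t i
      obtain ⟨hy1, hy2⟩ := snc2_oc.1 hyK
      have hco : ∀ i, co (s i) y ≠ 0 := fun i => snc2_co_ne hs.pos g6 hy2 i
      rw [snc2_E g2.1.differentiableAt (g5 i).1.differentiableAt (g4 i) t, (g4 i).self_of_nhds, Pool.Agent.H36.BP.fs_inv (g5 i).2.1 _ (hco i)]
      have q1 : fs (e i y) (fderiv ℂ (e i) y t) ≤ K i * ‖t‖ := by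
        refine (Pool.Agent.H14.PP.fs_le (g5 i).2.1 _).trans ?_
        rw [div_le_iff₀ (norm_pos_iff.2 (g5 i).2.1)]
        exact (g5 i).2.2 t
      calc fs (e i y) (fderiv ℂ (e i) y t) ≤ K i * ‖t‖ := q1
        _ ≤ (∑ i, K i) * (Cf * fs (σ y) (fderiv ℂ σ y t)) :=
          mul_le_mul (Finset.single_le_sum (fun j _ => hK j) (Finset.mem_univ i)) (g1 t) (norm_nonneg _) (Finset.sum_nonneg fun j _ => hK j)
        _ = _ := by ring
  exact ⟨max C 0, le_max_right _ _, fun i x hx v hv => (hC x hx v hv i).trans (mul_le_mul_of_nonneg_right (le_max_left _ _)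
    (Pool.Agent.H36.BP.fs_nonneg _ _))⟩

end main

end Pool.Agent.SR3

end
end

section

/-!
# SR3 RsC1: adapted charts at the points of a surface with a boundary with normal crossings

If only the second coordinate is used, the two coordinates of the chart are exchanged.
-/

set_option autoImplicit false

open Topology Filter Metric MvPolynomial

noncomputable section

namespace Pool.Agent.SR3

open Pool.Agent.H36.BP (EN fs)
open Pool.Agent.H17BP (Surface IsChart)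
open Pool.Agent.H17EF (coneE)

variable {N k M : ℕ}

variable {P : Ideal (MvPolynomial (Fin (N + 1)) ℂ)} {H : MvPolynomial (Fin (N + 1)) ℂ} {E : Fin k → Fin (M + 1) → MvPolynomial (Fin (N + 1)) ℂ}
  {b : Fin k → ℕ}

/-- exchange of the coordinates -/
private theorem chart_swap {X : Set (EN N)} {σ : ℂ × ℂ → EN N} {τ : EN N → ℂ × ℂ} (h : IsChart X σ τ) :
    IsChart X (fun y => σ (y.2, y.1)) (fun x => ((τ x).2, (τ x).1)) := by
  have h0 : ((0 : ℂ × ℂ).2, (0 : ℂ × ℂ).1) = 0 := rfl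
  have hsw : Tendsto (fun y : ℂ × ℂ => (y.2, y.1)) (𝓝 0) (𝓝 0) := by
    have h1 : Continuous fun y : ℂ × ℂ => (y.2, y.1) := continuous_snd.prodMk continuous_fst
    have h2 := h1.tendsto 0
    rwa [h0] at h2
  have hsa : AnalyticAt ℂ (fun y : ℂ × ℂ => (y.2, y.1)) 0 := analyticAt_snd.prod analyticAt_fst
  refine ⟨?_, hsw.eventually h.σ_mem, ?_, ?_, ?_, ?_, ?_⟩
  · exact AnalyticAt.comp (g := σ) (f := fun y : ℂ × ℂ => (y.2, y.1)) (by rw [h0]; exact h.σ_an) hsa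
  · show σ ((0 : ℂ × ℂ).2, (0 : ℂ × ℂ).1) ≠ 0
    rw [h0]
    exact h.ne
  · show AnalyticAt ℂ (fun x => ((τ x).2, (τ x).1)) (σ ((0 : ℂ × ℂ).2, (0 : ℂ × ℂ).1))
    rw [h0]
    have h3 : AnalyticAt ℂ (fun x => (τ x).2) (σ 0) := AnalyticAt.comp (g := fun y : ℂ × ℂ => y.2) analyticAt_snd h.τ_an
    have h4 : AnalyticAt ℂ (fun x => (τ x).1) (σ 0) := AnalyticAt.comp (g := fun y : ℂ × ℂ => y.1) analyticAt_fst h.τ_an
    exact h3.prod h4
  · filter_upwards [hsw.eventually h.left] with y hy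
    rw [hy]
  · show ∀ᶠ y in 𝓝 (σ ((0 : ℂ × ℂ).2, (0 : ℂ × ℂ).1)), _
    rw [h0]
    exact h.right
  · show ∀ᶠ p in 𝓝 (σ ((0 : ℂ × ℂ).2, (0 : ℂ × ℂ).1), (1 : ℂ)), _
    rw [h0]
    filter_upwards [h.inv] with p hp
    rw [hp]

/-- the case where the names of the components are given -/
private theorem lc_of (hpos : ∀ i, 1 ≤ b i) {σ : ℂ × ℂ → EN N} {τ : EN N → ℂ × ℂ} {s : Fin k → Option Bool} {e : Fin k → ℂ × ℂ → EN M} {u : ℂ × ℂ → ℂ}
    (hσ : IsChart (coneE P) σ τ) (he : ∀ i, AnalyticAt ℂ (e i) 0 ∧ e i 0 ≠ 0 ∧ ∀ᶠ y in 𝓝 (0 : ℂ × ℂ), vec (E i) (σ y) = co (s i) y • e i y)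
    (hu : AnalyticAt ℂ u 0) (hu0 : u 0 ≠ 0) (hH : ∀ᶠ y in 𝓝 (0 : ℂ × ℂ), eval (σ y).ofLp H = u y * ∏ i, co (s i) y ^ b i)
    {o₁ o₂ : Option (Fin k)} (h1 : ∀ i, o₁ = some i ↔ s i = some false) (h2 : ∀ i, o₂ = some i ↔ s i = some true) (h3 : o₁ = none → o₂ = none) :
    LC P H E σ τ o₁ o₂ := by
  classical
  refine ⟨hσ, ?_, h3, ?_, ?_⟩
  · intro i hi hi'
    rw [h1] at hi
    rw [h2, hi] at hi'
    simp at hi'
  · intro i
    obtain ⟨ha, hb, hc⟩ := he i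
    refine ⟨e i, ha, hb, ?_⟩
    filter_upwards [hc] with y hy
    rw [hy]
    congr 1
    rcases hs : s i with _ | (_ | _)
    · have ho1 : ¬ o₁ = some i := by rw [h1, hs]; simp
      have ho2 : ¬ o₂ = some i := by rw [h2, hs]; simp
      simp [ho1, ho2, gg, co]
    · have ho1 : o₁ = some i := by rw [h1, hs]
      have ho2 : ¬ o₂ = some i := by rw [h2, hs]; simp
      simp [ho1, ho2, gg, co]
    · have ho1 : ¬ o₁ = some i := by rw [h1, hs]; simp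
      have ho2 : o₂ = some i := by rw [h2, hs]
      simp [ho1, ho2, gg, co]
  · filter_upwards [hσ.σ_mem, hH, hu.continuousAt.eventually_ne hu0] with y hy1 hy2 hy3
    have h4 : σ y ∈ oc P H ↔ ∀ i, co (s i) y ≠ 0 := by
      constructor
      · intro h5 i h6
        have h7 := h5.2 0
        rw [hy2] at h7
        apply h7
        rw [Finset.prod_eq_zero (Finset.mem_univ i), mul_zero]
        rw [h6, zero_pow]
        have := hpos i
        omega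
      · intro h5
        refine ⟨hy1, fun _ => ?_⟩
        rw [hy2]
        exact mul_ne_zero hy3 (Finset.prod_ne_zero_iff.2 fun i _ => pow_ne_zero _ (h5 i))
    rw [h4]
    constructor
    · intro h5
      refine mul_ne_zero ?_ ?_
      · rcases ho : o₁ with _ | i
        · simp [gg]
        · have h6 := h5 i
          rw [(h1 i).1 ho] at h6
          simpa [gg, co] using h6
      · rcases ho : o₂ with _ | i
        · simp [gg]
        · have h6 := h5 i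
          rw [(h2 i).1 ho] at h6
          simpa [gg, co] using h6
    · intro h5 i
      rcases hs : s i with _ | (_ | _)
      · simp [co]
      · have h6 := left_ne_zero_of_mul h5
        rw [(h1 i).2 hs] at h6
        simpa [gg, co] using h6
      · have h6 := right_ne_zero_of_mul h5
        rw [(h2 i).2 hs] at h6
        simpa [gg, co] using h6

/-- the name of the component which belongs to a coordinate -/
private theorem exists_name {s : Fin k → Option Bool} (hs : ∀ i i', s i ≠ none → s i = s i' → i = i') (c : Bool) :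
    ∃ o : Option (Fin k), ∀ i, o = some i ↔ s i = some c := by
  by_cases h : ∃ i, s i = some c
  · obtain ⟨i, hi⟩ := h
    refine ⟨some i, fun i' => ⟨fun h => ?_, fun h => ?_⟩⟩
    · rw [Option.some.injEq] at h
      rw [← h, hi]
    · rw [hs i i' (by rw [hi]; simp) (by rw [hi, h])]
  · push Not at h
    exact ⟨none, fun i => ⟨fun h' => by simp at h', fun h' => absurd h' (h i)⟩⟩

/-- adapted charts -/
theorem exists_lc (hs : Snc P H E b) {x : EN N} (hx : x ∈ coneE P) : ∃ σ τ o₁ o₂, LC P H E σ τ o₁ o₂ ∧ σ 0 = x := by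
  classical
  obtain ⟨σ, τ, s, e, u, hσ, h0, hinj, he, hu, hu0, hH⟩ := hs.chart x hx
  obtain ⟨o₁, ho₁⟩ := exists_name hinj false
  obtain ⟨o₂, ho₂⟩ := exists_name hinj true
  by_cases hcase : o₁ = none → o₂ = none
  · exact ⟨σ, τ, o₁, o₂, lc_of hs.pos hσ he hu hu0 hH ho₁ ho₂ hcase, h0⟩
  · push Not at hcase
    -- exchange the coordinates
    have hsw : Tendsto (fun y : ℂ × ℂ => (y.2, y.1)) (𝓝 0) (𝓝 0) := by
      have h1 : Continuous fun y : ℂ × ℂ => (y.2, y.1) := continuous_snd.prodMk continuous_fst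
      exact h1.tendsto 0
    have hsa : AnalyticAt ℂ (fun y : ℂ × ℂ => (y.2, y.1)) 0 := analyticAt_snd.prod analyticAt_fst
    have hco : ∀ (i : Fin k) (y : ℂ × ℂ), co (s i) (y.2, y.1) = co ((s i).map not) y := by
      intro i y
      rcases s i with _ | (_ | _) <;> rfl
    refine ⟨fun y => σ (y.2, y.1), fun x => ((τ x).2, (τ x).1), o₂, o₁, ?_, h0⟩
    refine lc_of (s := fun i => (s i).map not) (e := fun i y => e i (y.2, y.1)) (u := fun y => u (y.2, y.1)) hs.pos (chart_swap hσ) ?_ ?_ hu0 ?_ ?_ ?_ ?_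
    · intro i
      obtain ⟨ha, hb, hc⟩ := he i
      refine ⟨AnalyticAt.comp (g := e i) (f := fun y : ℂ × ℂ => (y.2, y.1)) ha hsa, hb, ?_⟩
      filter_upwards [hsw.eventually hc] with y hy
      rw [hy, hco]
    · exact AnalyticAt.comp (g := u) (f := fun y : ℂ × ℂ => (y.2, y.1)) hu hsa
    · filter_upwards [hsw.eventually hH] with y hy
      rw [hy]
      simp only [hco]
    · intro i
      rw [ho₂]
      rcases s i with _ | (_ | _) <;> simp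
    · intro i
      rw [ho₁]
      rcases s i with _ | (_ | _) <;> simp
    · intro h
      exact absurd h hcase.2

end Pool.Agent.SR3

end
end

section

/-!
# SR3 RsE: expansion of a symmetric differential with logarithmic poles in a chart
-/

set_option autoImplicit false

open Topology Filter Metric MvPolynomial

noncomputable section

namespace Pool.Agent.SR3

open Pool.Agent.H36.BP (EN fs)
open Pool.Agent.H17BP (Surface IsChart)
open Pool.Agent.H14.PP (IsCone Tan)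
open Pool.Agent.H17EF (coneE)
open Pool.Agent.AD (SymDiff)

variable {N k M : ℕ} {P : Ideal (MvPolynomial (Fin (N + 1)) ℂ)} {H : MvPolynomial (Fin (N + 1)) ℂ}
  {E : Fin k → Fin (M + 1) → MvPolynomial (Fin (N + 1)) ℂ} {c : Fin k → ℕ} {σ : ℂ × ℂ → EN N} {τ : EN N → ℂ × ℂ} {o₁ o₂ : Option (Fin k)}

theorem gg_prod_an (b₁ b₂ : Bool) (s : ℂ × ℂ) : AnalyticAt ℂ (fun s : ℂ × ℂ => gg b₁ s.1 * gg b₂ s.2) s :=
  ((gg_an b₁ s.1).fun_comp analyticAt_fst).mul ((gg_an b₂ s.2).fun_comp analyticAt_snd)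

/-- the points near `0` off the axes have a neighbourhood in the open part -/
theorem lc_open (hL : LC P H E σ τ o₁ o₂) : ∀ᶠ s in 𝓝 (0 : ℂ × ℂ), gg o₁.isSome s.1 * gg o₂.isSome s.2 ≠ 0 →
    ∀ᶠ y in 𝓝 s, AnalyticAt ℂ σ y ∧ σ y ∈ oc P H := by
  filter_upwards [eventually_eventually_nhds.mpr hL.dom, eventually_eventually_nhds.mpr hL.chart.σ_an.eventually_analyticAt] with s hs hs' h0
  filter_upwards [hs, hs', (gg_prod_an o₁.isSome o₂.isSome s).continuousAt.eventually_ne h0] with y h1 h2 h3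
  exact ⟨h2, h1.mpr h3⟩

theorem tan_of_near {K : Set (EN N)} {s : ℂ × ℂ} (h : ∀ᶠ y in 𝓝 s, AnalyticAt ℂ σ y ∧ σ y ∈ K) (t : ℂ × ℂ) : Tan K (σ s) (fderiv ℂ σ s t) := by
  have hc : Tendsto (fun z : ℂ => s + z • t) (𝓝 0) (𝓝 s) := by
    have : Continuous (fun z : ℂ => s + z • t) := by fun_prop
    have h1 := this.tendsto 0
    simpa using h1
  have h1 : AnalyticAt ℂ (fun z : ℂ => s + z • t) 0 := by fun_prop
  have h2 : AnalyticAt ℂ σ (s + (0 : ℂ) • t) := by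
    rw [zero_smul, add_zero]
    exact h.self_of_nhds.1
  refine ⟨fun z => σ (s + z • t), ⟨AnalyticAt.fun_comp (g := σ) h2 h1, ?_⟩, by simp, ?_⟩
  · filter_upwards [hc.eventually h] with z hz
    exact hz.2
  · have h3 : HasDerivAt (fun z : ℂ => s + z • t) t 0 := by
      have := ((hasDerivAt_id (0 : ℂ)).smul_const t).const_add s
      simpa using this
    have h4 : HasFDerivAt σ (fderiv ℂ σ s) (s + (0 : ℂ) • t) := by
      rw [zero_smul, add_zero]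
      exact h.self_of_nhds.1.differentiableAt.hasFDerivAt
    exact (h4.comp_hasDerivAt (0 : ℂ) h3).deriv

theorem rs_tan_mono {K X : Set (EN N)} (h : K ⊆ X) {x v : EN N} (hv : Tan K x v) : Tan X x v := by
  obtain ⟨F, ⟨h1, h2⟩, h3, h4⟩ := hv
  exact ⟨F, ⟨h1, h2.mono fun z hz => h hz⟩, h3, h4⟩

/-- the symmetric differential in the chart is analytic off the axes -/
theorem lc_an (hL : LC P H E σ τ o₁ o₂) {m : ℕ} (θ : SymDiff (oc P H) m) :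
    ∀ᶠ s in 𝓝 (0 : ℂ × ℂ), gg o₁.isSome s.1 * gg o₂.isSome s.2 ≠ 0 → ∀ t,
      AnalyticAt ℂ (fun q : (ℂ × ℂ) × (ℂ × ℂ) => θ.toFun (σ q.1) (fderiv ℂ σ q.1 q.2)) (s, t) := by
  filter_upwards [lc_open hL] with s hs h0 t
  have hs' := hs h0
  set e : (Fin 2 → ℂ) ≃L[ℂ] ℂ × ℂ := ContinuousLinearEquiv.finTwoArrow ℂ ℂ with he
  have h1 : AnalyticAt ℂ (fun y : Fin 2 → ℂ => σ (e y)) (e.symm s) := by
    have h2 : AnalyticAt ℂ σ (e (e.symm s)) := by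
      rw [e.apply_symm_apply]
      exact hs'.self_of_nhds.1
    exact AnalyticAt.fun_comp (g := σ) h2 (e.toContinuousLinearMap.analyticAt _)
  have hte : Tendsto e (𝓝 (e.symm s)) (𝓝 s) := by
    have := e.continuous.tendsto (e.symm s)
    rwa [e.apply_symm_apply] at this
  have h3 : ∀ᶠ y in 𝓝 (e.symm s), σ (e y) ∈ oc P H := (hte.eventually hs').mono fun y hy => hy.2
  have h4 := θ.analytic 2 (fun y => σ (e y)) (e.symm s) (e.symm t) h1 h3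
  have h5 : AnalyticAt ℂ (fun q : (ℂ × ℂ) × (ℂ × ℂ) => ((e.symm q.1, e.symm q.2) : (Fin 2 → ℂ) × (Fin 2 → ℂ))) (s, t) :=
    ((e.symm.toContinuousLinearMap.analyticAt _).fun_comp analyticAt_fst).prod ((e.symm.toContinuousLinearMap.analyticAt _).fun_comp analyticAt_snd)
  have h6 := AnalyticAt.fun_comp (g := fun y : (Fin 2 → ℂ) × (Fin 2 → ℂ) => θ.toFun (σ (e y.1)) (fderiv ℂ (fun y : Fin 2 → ℂ => σ (e y)) y.1 y.2))
    (f := fun q : (ℂ × ℂ) × (ℂ × ℂ) => ((e.symm q.1, e.symm q.2) : (Fin 2 → ℂ) × (Fin 2 → ℂ))) (x := (s, t)) h4 h5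
  refine h6.congr ?_
  have h7 : ∀ᶠ q : (ℂ × ℂ) × (ℂ × ℂ) in 𝓝 (s, t), AnalyticAt ℂ σ q.1 := by
    have h8 : Tendsto (fun q : (ℂ × ℂ) × (ℂ × ℂ) => q.1) (𝓝 (s, t)) (𝓝 s) := continuous_fst.tendsto (s, t)
    exact (h8.eventually hs').mono fun q hq => hq.1
  filter_upwards [h7] with q hq
  have h9 : fderiv ℂ (fun y : Fin 2 → ℂ => σ (e y)) (e.symm q.1) (e.symm q.2) = fderiv ℂ σ q.1 q.2 := by
    have h10 : HasFDerivAt σ (fderiv ℂ σ q.1) (e (e.symm q.1)) := by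
      rw [e.apply_symm_apply]
      exact hq.differentiableAt.hasFDerivAt
    have h11 := h10.comp (e.symm q.1) e.hasFDerivAt
    have h12 : fderiv ℂ (fun y : Fin 2 → ℂ => σ (e y)) (e.symm q.1) = (fderiv ℂ σ q.1).comp (e : (Fin 2 → ℂ) →L[ℂ] ℂ × ℂ) := h11.fderiv
    rw [h12]
    simp
  simp only [e.apply_symm_apply]
  rw [h9]

theorem norm_gg_le {b : Bool} {z t : ℂ} (hz : ‖z‖ ≤ 1) (h0 : gg b z ≠ 0) : ‖t‖ ≤ ‖t / gg b z‖ := by
  cases b
  · simp [gg]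
  · rw [gg_true] at h0 ⊢
    rw [norm_div, le_div_iff₀ (norm_pos_iff.mpr h0)]
    nlinarith [norm_nonneg t, norm_nonneg z]

theorem norm_uu_le (o₁ o₂ : Option (Fin k)) (i : Fin k) (y t : ℂ × ℂ) : ‖uu o₁ o₂ i y t‖ ≤ ‖t.1 / gg o₁.isSome y.1‖ + ‖t.2 / gg o₂.isSome y.2‖ := by
  unfold uu
  refine (norm_add_le _ _).trans (add_le_add ?_ ?_)
  · split_ifs with h
    · rw [h]
      simp [gg]
    · simp only [norm_zero]
      positivity
  · split_ifs with h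
    · rw [h]
      simp [gg]
    · simp only [norm_zero]
      positivity

/-- the logarithmic length in the chart -/
theorem lc_logLen (hest : ∃ C : ℝ, 0 ≤ C ∧ ∀ᶠ y in 𝓝 (0 : ℂ × ℂ), ∀ t : ℂ × ℂ, fs (σ y) (fderiv ℂ σ y t) ≤ C * ‖t‖ ∧
      ‖t‖ ≤ C * fs (σ y) (fderiv ℂ σ y t) ∧
      (σ y ∈ oc P H → ∀ i, ‖ellE (E i) (c i) (σ y) (fderiv ℂ σ y t) - uu o₁ o₂ i y t‖ ≤ C * ‖t‖)) (hL : LC P H E σ τ o₁ o₂) :
    ∃ C : ℝ, 0 ≤ C ∧ ∀ᶠ y in 𝓝 (0 : ℂ × ℂ), σ y ∈ oc P H → ∀ t : ℂ × ℂ,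
      logLen E c (σ y) (fderiv ℂ σ y t) ≤ C * (‖t.1 / gg o₁.isSome y.1‖ + ‖t.2 / gg o₂.isSome y.2‖) := by
  obtain ⟨C, hC, h⟩ := hest
  refine ⟨C + k * (1 + C), by positivity, ?_⟩
  have hball : ∀ᶠ y in 𝓝 (0 : ℂ × ℂ), ‖y‖ < 1 := by
    have : Tendsto (fun y : ℂ × ℂ => ‖y‖) (𝓝 0) (𝓝 0) := by
      have := continuous_norm.tendsto (0 : ℂ × ℂ)
      rwa [norm_zero] at this
    exact this.eventually_lt_const one_pos
  filter_upwards [h, hball, hL.dom] with y h1 h2 h3 hy t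
  obtain ⟨g1, g2⟩ := mul_ne_zero_iff.mp (h3.mp hy)
  set u : ℝ := ‖t.1 / gg o₁.isSome y.1‖ + ‖t.2 / gg o₂.isSome y.2‖ with hu
  have h4 : ‖t‖ ≤ u := by
    have h5 : ‖t.1‖ ≤ ‖t.1 / gg o₁.isSome y.1‖ := norm_gg_le ((norm_fst_le y).trans h2.le) g1
    have h6 : ‖t.2‖ ≤ ‖t.2 / gg o₂.isSome y.2‖ := norm_gg_le ((norm_snd_le y).trans h2.le) g2
    rw [Prod.norm_def]
    refine max_le ?_ ?_
    · linarith [norm_nonneg (t.2 / gg o₂.isSome y.2)]
    · linarith [norm_nonneg (t.1 / gg o₁.isSome y.1)]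
  have h7 : ∀ i, ‖ellE (E i) (c i) (σ y) (fderiv ℂ σ y t)‖ ≤ (1 + C) * u := by
    intro i
    have h8 := (h1 t).2.2 hy i
    have h9 := norm_uu_le o₁ o₂ i y t
    have h10 : ‖ellE (E i) (c i) (σ y) (fderiv ℂ σ y t)‖ ≤ ‖ellE (E i) (c i) (σ y) (fderiv ℂ σ y t) - uu o₁ o₂ i y t‖ + ‖uu o₁ o₂ i y t‖ := by
      have := norm_add_le (ellE (E i) (c i) (σ y) (fderiv ℂ σ y t) - uu o₁ o₂ i y t) (uu o₁ o₂ i y t)
      rwa [sub_add_cancel] at this
    have h11 : C * ‖t‖ ≤ C * u := mul_le_mul_of_nonneg_left h4 hC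
    linarith
  unfold logLen
  have h12 : ∑ i, ‖ellE (E i) (c i) (σ y) (fderiv ℂ σ y t)‖ ≤ k * ((1 + C) * u) := by
    refine (Finset.sum_le_sum fun i _ => h7 i).trans ?_
    simp
  have h13 : C * ‖t‖ ≤ C * u := mul_le_mul_of_nonneg_left h4 hC
  have h14 := (h1 t).1
  nlinarith

/-- the expansion -/
theorem lc_exp' (hest : ∃ C : ℝ, 0 ≤ C ∧ ∀ᶠ y in 𝓝 (0 : ℂ × ℂ), ∀ t : ℂ × ℂ, fs (σ y) (fderiv ℂ σ y t) ≤ C * ‖t‖ ∧
      ‖t‖ ≤ C * fs (σ y) (fderiv ℂ σ y t) ∧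
      (σ y ∈ oc P H → ∀ i, ‖ellE (E i) (c i) (σ y) (fderiv ℂ σ y t) - uu o₁ o₂ i y t‖ ≤ C * ‖t‖)) (hL : LC P H E σ τ o₁ o₂) {m : ℕ}
    (θ : SymDiff (oc P H) m) (hθ : HasLogPoles E c θ) :
    ∃ a : ℕ → ℂ × ℂ → ℂ, (∀ k, AnalyticAt ℂ (a k) 0) ∧ ∀ᶠ y in 𝓝 (0 : ℂ × ℂ), σ y ∈ oc P H → ∀ t : ℂ × ℂ,
      θ.toFun (σ y) (fderiv ℂ σ y t) =
        ∑ k ∈ Finset.range (m + 1), a k y * (t.1 / gg o₁.isSome y.1) ^ k * (t.2 / gg o₂.isSome y.2) ^ (m - k) := by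
  obtain ⟨C₁, hC₁, h1⟩ := lc_logLen hest hL
  obtain ⟨C₂, hC₂, h2⟩ := hθ
  have hb : ∀ᶠ s in 𝓝 (0 : ℂ × ℂ), gg o₁.isSome s.1 * gg o₂.isSome s.2 ≠ 0 → ∀ t : ℂ × ℂ,
      ‖θ.toFun (σ s) (fderiv ℂ σ s t)‖ ≤ (C₂ * C₁ ^ m) * (‖t.1 / gg o₁.isSome s.1‖ + ‖t.2 / gg o₂.isSome s.2‖) ^ m := by
    filter_upwards [lc_open hL, h1] with s h3 h4 h0 t
    have h5 := h3 h0
    have h6 := h2 (σ s) h5.self_of_nhds.2 (fderiv ℂ σ s t) (tan_of_near h5 t)
    have h7 := h4 h5.self_of_nhds.2 t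
    have h8 : 0 ≤ logLen E c (σ s) (fderiv ℂ σ s t) := by
      unfold logLen
      exact add_nonneg (Pool.Agent.H36.BP.fs_nonneg _ _) (Finset.sum_nonneg fun i _ => norm_nonneg _)
    refine h6.trans ?_
    rw [mul_assoc, ← mul_pow]
    exact mul_le_mul_of_nonneg_left (pow_le_pow_left₀ h8 h7 m) hC₂
  have hhom : ∀ᶠ s in 𝓝 (0 : ℂ × ℂ), gg o₁.isSome s.1 * gg o₂.isSome s.2 ≠ 0 → ∀ (t : ℂ × ℂ) (a : ℂ),
      θ.toFun (σ s) (fderiv ℂ σ s (a • t)) = a ^ m * θ.toFun (σ s) (fderiv ℂ σ s t) := by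
    filter_upwards [lc_open hL] with s h3 h0 t a
    rw [map_smul]
    exact θ.smul _ _ (tan_of_near (h3 h0) t) a
  obtain ⟨a, ha, h9⟩ := res_local (W := fun s t => θ.toFun (σ s) (fderiv ℂ σ s t)) (lc_an hL θ) hhom hb
  refine ⟨a, ha, ?_⟩
  filter_upwards [h9, hL.dom] with y h10 h11 hy t
  exact h10 (h11.mp hy) t

end Pool.Agent.SR3

end
end

section

/-!
# SR3 RsF: the frame given by a chart
-/

set_option autoImplicit false

open Topology Filter Metric MvPolynomial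

noncomputable section

namespace Pool.Agent.SR3

open Pool.Agent.H36.BP (EN fs)
open Pool.Agent.H17BP (Surface IsChart)
open Pool.Agent.H14.PP (IsCone Tan)
open Pool.Agent.H17EF (coneE)
open Pool.Agent.AD (SymDiff)

variable {N k M : ℕ} {P : Ideal (MvPolynomial (Fin (N + 1)) ℂ)} {H : MvPolynomial (Fin (N + 1)) ℂ} {h : ℕ}
  {E : Fin k → Fin (M + 1) → MvPolynomial (Fin (N + 1)) ℂ} {c : Fin k → ℕ} {σ : ℂ × ℂ → EN N} {τ : EN N → ℂ × ℂ} {o₁ o₂ : Option (Fin k)}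

theorem rs_oc_smul (hc : IsCone (coneE P)) (hH : H.IsHomogeneous h) {x : EN N} (hx : x ∈ oc P H) {a : ℂ} (ha : a ≠ 0) : a • x ∈ oc P H := by
  refine ⟨hc.smul_mem x hx.1 a ha, fun i => ?_⟩
  have h1 : eval (a • x).ofLp H = a ^ h * eval x.ofLp H := Pool.Agent.H17EF.eval_smul_form hH a x.ofLp
  rw [h1]
  exact mul_ne_zero (pow_ne_zero _ ha) (hx.2 i)

theorem rs_tan_smul {K : Set (EN N)} (hK : ∀ x ∈ K, ∀ a : ℂ, a ≠ 0 → a • x ∈ K) {x v : EN N} (hv : Tan K x v) {a : ℂ} (ha : a ≠ 0) : Tan K (a • x) (a • v) := by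
  obtain ⟨F, ⟨h1, h2⟩, h3, h4⟩ := hv
  refine ⟨fun z => a • F z, ⟨(analyticAt_const (v := a)).fun_smul h1, h2.mono fun z hz => hK _ hz a ha⟩, by simp only [h3], ?_⟩
  rw [deriv_fun_const_smul _ h1.differentiableAt, h4]

/-- invariance of a symmetric differential on the open part -/
theorem sym_inv (hc : IsCone (coneE P)) (hH : H.IsHomogeneous h) {m : ℕ} (θ : SymDiff (oc P H) m) {x w : EN N} (hw : Tan (oc P H) x w)
    {a : ℂ} (ha : a ≠ 0) (a' : ℂ) : θ.toFun (a • x) (a • w + a' • (a • x)) = θ.toFun x w := by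
  rw [θ.add_smul _ _ (rs_tan_smul (fun y hy b hb => rs_oc_smul hc hH hy hb) hw ha), θ.scale _ _ hw a ha]

/-- **The frame.** -/
theorem frame (hc : IsCone (coneE P)) (hH : H.IsHomogeneous h) (hE : ∀ i l, (E i l).IsHomogeneous (c i)) (hL : LC P H E σ τ o₁ o₂)
    (hne : ∀ i, ∀ x ∈ oc P H, vec (E i) x ≠ 0) :
    ∃ C : ℝ, 0 ≤ C ∧ ∀ᶠ y in 𝓝 (σ 0), y ∈ oc P H → σ (τ y) ∈ oc P H ∧ ∀ v, Tan (coneE P) y v → ∃ t : ℂ × ℂ,
      (∀ {m : ℕ} (θ : SymDiff (oc P H) m), θ.toFun y v = θ.toFun (σ (τ y)) (fderiv ℂ σ (τ y) t)) ∧ ‖t‖ ≤ C * fs y v ∧ fs y v ≤ C * ‖t‖ ∧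
      ∀ i, ‖ellE (E i) (c i) y v - uu o₁ o₂ i (τ y) t‖ ≤ C * ‖t‖ := by
  obtain ⟨C, hC, hest⟩ := lc_est hE hL
  refine ⟨C, hC, ?_⟩
  have hτ : Tendsto τ (𝓝 (σ 0)) (𝓝 0) := by
    have h1 := hL.chart.τ_an.continuousAt.tendsto
    have h2 : τ (σ 0) = 0 := hL.chart.left.self_of_nhds
    rwa [h2] at h1
  filter_upwards [tan_chart hL.chart, hτ.eventually hest, hτ.eventually hL.dom, hτ.eventually (lc_open hL)] with y h1 h2 h3 h4 hy
  obtain ⟨a, ha, hya, h5⟩ := h1 hy.1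
  have hσ : σ (τ y) ∈ oc P H := by
    have h6 := rs_oc_smul hc hH hy (inv_ne_zero ha)
    have h7 : a⁻¹ • y = σ (τ y) := by
      conv_lhs => rw [hya]
      rw [smul_smul, inv_mul_cancel₀ ha, one_smul]
    rwa [h7] at h6
  refine ⟨hσ, fun v hv => ?_⟩
  obtain ⟨t, a', hv'⟩ := h5 v hv
  have hx0 : σ (τ y) ≠ 0 := fun h0 => hc.zero_notMem (h0 ▸ hσ.1)
  have hT : Tan (oc P H) (σ (τ y)) (fderiv ℂ σ (τ y) t) := tan_of_near (h4 (h3.mp hσ)) t
  have hfs : fs y v = fs (σ (τ y)) (fderiv ℂ σ (τ y) t) := by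
    have h8 : fs (a • σ (τ y)) (a • fderiv ℂ σ (τ y) t + (a' * a) • σ (τ y)) = fs (σ (τ y)) (fderiv ℂ σ (τ y) t) :=
      Pool.Agent.H36.BP.fs_inv hx0 _ ha _
    rw [mul_smul, ← hya, ← hv'] at h8
    exact h8
  have hell : ∀ i, ellE (E i) (c i) y v = ellE (E i) (c i) (σ (τ y)) (fderiv ℂ σ (τ y) t) := by
    intro i
    have h8 : ellE (E i) (c i) (a • σ (τ y)) (a • fderiv ℂ σ (τ y) t + (a' * a) • σ (τ y)) = ellE (E i) (c i) (σ (τ y)) (fderiv ℂ σ (τ y) t) :=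
      snc2_ell_inv hE i hx0 (hne i _ hσ) _ ha _
    rw [mul_smul, ← hya, ← hv'] at h8
    exact h8
  refine ⟨t, ?_, ?_, ?_, ?_⟩
  · intro m θ
    have h8 := sym_inv hc hH θ hT ha a'
    rw [← hya, ← hv'] at h8
    exact h8
  · rw [hfs]
    exact (h2 t).2.1
  · rw [hfs]
    exact (h2 t).1
  · intro i
    rw [hell]
    exact (h2 t).2.2 hσ i

end Pool.Agent.SR3

end
end

section

/-!
# SR3 RsR: the residue along a component: existence and uniqueness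
-/

set_option autoImplicit false

open Topology Filter Metric MvPolynomial

noncomputable section

namespace Pool.Agent.SR3

open Pool.Agent.H36.BP (EN fs)
open Pool.Agent.H17BP (Surface IsChart)
open Pool.Agent.H14.PP (IsCone Tan)
open Pool.Agent.H17EF (coneE)
open Pool.Agent.AD (SymDiff)

variable {N k M : ℕ} {P : Ideal (MvPolynomial (Fin (N + 1)) ℂ)} {H : MvPolynomial (Fin (N + 1)) ℂ} {h : ℕ}
  {E : Fin k → Fin (M + 1) → MvPolynomial (Fin (N + 1)) ℂ} {b c : Fin k → ℕ} {σ : ℂ × ℂ → EN N} {τ : EN N → ℂ × ℂ} {o₁ o₂ : Option (Fin k)}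

theorem rs_pow_sub_le {x y : ℂ} {R : ℝ} (hR : 0 ≤ R) (hx : ‖x‖ ≤ R) (hy : ‖y‖ ≤ R) (m : ℕ) : ‖x ^ (m + 1) - y ^ (m + 1)‖ ≤ (m + 1) * R ^ m * ‖x - y‖ := by
  induction m with
  | zero => simp
  | succ m ih =>
    have h1 : x ^ (m + 1 + 1) - y ^ (m + 1 + 1) = x ^ (m + 1) * (x - y) + (x ^ (m + 1) - y ^ (m + 1)) * y := by ring
    rw [h1]
    have h2 : ‖x ^ (m + 1)‖ ≤ R ^ (m + 1) := by
      rw [norm_pow]
      exact pow_le_pow_left₀ (norm_nonneg _) hx _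
    calc ‖x ^ (m + 1) * (x - y) + (x ^ (m + 1) - y ^ (m + 1)) * y‖
        ≤ ‖x ^ (m + 1)‖ * ‖x - y‖ + ‖x ^ (m + 1) - y ^ (m + 1)‖ * ‖y‖ := (norm_add_le _ _).trans (by rw [norm_mul, norm_mul])
      _ ≤ R ^ (m + 1) * ‖x - y‖ + ((m + 1) * R ^ m * ‖x - y‖) * R := by gcongr
      _ = ((m + 1 : ℕ) + 1) * R ^ (m + 1) * ‖x - y‖ := by push_cast; ring

theorem exp_est {m : ℕ} (hm : 1 ≤ m) {α : ℕ → ℂ} {r l u₁ u₂ : ℂ} {A d ε : ℝ} (hA : 0 ≤ A) (hα : ∀ k ∈ Finset.range (m + 1), ‖α k‖ ≤ A)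
    (hd : 0 ≤ d) (hd1 : d ≤ 1) (h1 : ‖u₁ - l‖ ≤ d * ‖l‖) (h2 : ‖u₂‖ ≤ d * ‖l‖) (hr : ‖α m - r‖ ≤ ε) :
    ‖∑ k ∈ Finset.range (m + 1), α k * u₁ ^ k * u₂ ^ (m - k) - r * l ^ m‖ ≤ (2 * m * A * 2 ^ m * d + ε) * ‖l‖ ^ m := by
  have hl := norm_nonneg l
  have hu₁ : ‖u₁‖ ≤ 2 * ‖l‖ := by
    have := norm_add_le (u₁ - l) l
    rw [sub_add_cancel] at this
    nlinarith
  rw [Finset.sum_range_succ, Nat.sub_self, pow_zero, mul_one]
  have h3 : ∑ k ∈ Finset.range m, α k * u₁ ^ k * u₂ ^ (m - k) + α m * u₁ ^ m - r * l ^ m =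
      ∑ k ∈ Finset.range m, α k * u₁ ^ k * u₂ ^ (m - k) + α m * (u₁ ^ m - l ^ m) + (α m - r) * l ^ m := by ring
  rw [h3]
  have h4 : ‖∑ k ∈ Finset.range m, α k * u₁ ^ k * u₂ ^ (m - k)‖ ≤ m * (A * 2 ^ m * d * ‖l‖ ^ m) := by
    have h5 : ∀ k ∈ Finset.range m, ‖α k * u₁ ^ k * u₂ ^ (m - k)‖ ≤ A * 2 ^ m * d * ‖l‖ ^ m := by
      intro k hk
      have hk' : k < m := Finset.mem_range.mp hk
      rw [norm_mul, norm_mul, norm_pow, norm_pow]
      have h6 : ‖u₁‖ ^ k ≤ 2 ^ m * ‖l‖ ^ k := by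
        calc ‖u₁‖ ^ k ≤ (2 * ‖l‖) ^ k := pow_le_pow_left₀ (norm_nonneg _) hu₁ _
          _ = 2 ^ k * ‖l‖ ^ k := by rw [mul_pow]
          _ ≤ 2 ^ m * ‖l‖ ^ k := by
            gcongr
            · norm_num
      have h7 : ‖u₂‖ ^ (m - k) ≤ d * ‖l‖ ^ (m - k) := by
        calc ‖u₂‖ ^ (m - k) ≤ (d * ‖l‖) ^ (m - k) := pow_le_pow_left₀ (norm_nonneg _) h2 _
          _ = d ^ (m - k) * ‖l‖ ^ (m - k) := by rw [mul_pow]
          _ ≤ d * ‖l‖ ^ (m - k) := by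
            gcongr
            exact pow_le_of_le_one hd hd1 (by omega)
      have h8 := hα k (Finset.mem_range.mpr (by omega))
      calc ‖α k‖ * ‖u₁‖ ^ k * ‖u₂‖ ^ (m - k) ≤ A * (2 ^ m * ‖l‖ ^ k) * (d * ‖l‖ ^ (m - k)) := by gcongr
        _ = A * 2 ^ m * d * (‖l‖ ^ k * ‖l‖ ^ (m - k)) := by ring
        _ = A * 2 ^ m * d * ‖l‖ ^ m := by rw [← pow_add, Nat.add_sub_cancel' hk'.le]
    refine (norm_sum_le _ _).trans ((Finset.sum_le_sum h5).trans ?_)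
    simp
  have h9 : ‖α m * (u₁ ^ m - l ^ m)‖ ≤ m * (A * 2 ^ m * d * ‖l‖ ^ m) := by
    obtain ⟨n, rfl⟩ : ∃ n, m = n + 1 := ⟨m - 1, by omega⟩
    rw [norm_mul]
    have h10 := rs_pow_sub_le (x := u₁) (y := l) (R := 2 * ‖l‖) (by positivity) hu₁ (by linarith) n
    have h11 := hα (n + 1) (Finset.mem_range.mpr (by omega))
    calc ‖α (n + 1)‖ * ‖u₁ ^ (n + 1) - l ^ (n + 1)‖ ≤ A * ((n + 1) * (2 * ‖l‖) ^ n * (d * ‖l‖)) := by gcongr; exact h10.trans (by gcongr)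
      _ = (n + 1) * (A * 2 ^ n * d * ‖l‖ ^ (n + 1)) := by ring
      _ ≤ ((n + 1 : ℕ) : ℝ) * (A * 2 ^ (n + 1) * d * ‖l‖ ^ (n + 1)) := by
        push_cast
        gcongr
        · norm_num
        · omega
  have h12 : ‖(α m - r) * l ^ m‖ ≤ ε * ‖l‖ ^ m := by
    rw [norm_mul, norm_pow]
    gcongr
  refine (norm_add_le _ _).trans ((add_le_add (norm_add_le _ _) h12).trans ?_)
  nlinarith [h4, h9]

/-- the estimates of the logarithmic coordinates in the frame -/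
theorem frame_est {i : Fin k} {o₂ : Option (Fin k)} (ho : o₂ ≠ some i) {C F : ℝ} {η : ℝ} (hC : 0 ≤ C) (hη : 0 ≤ η) {p t : ℂ × ℂ} {ell : Fin k → ℂ}
    (ht : ‖t‖ ≤ C * F) (hF : F ≤ η * ‖ell i‖) (hu : ∀ i', ‖ell i' - uu (some i) o₂ i' p t‖ ≤ C * ‖t‖)
    (hsm : ∀ i', i' ≠ i → ‖ell i'‖ ≤ η * ‖ell i‖) :
    ‖t.1 / gg (some i).isSome p.1 - ell i‖ ≤ (1 + C + C ^ 2) * η * ‖ell i‖ ∧ ‖t.2 / gg o₂.isSome p.2‖ ≤ (1 + C + C ^ 2) * η * ‖ell i‖ := by
  have hl := norm_nonneg (ell i)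
  have h1 : ‖t‖ ≤ C * (η * ‖ell i‖) := ht.trans (mul_le_mul_of_nonneg_left hF hC)
  have h2 : 0 ≤ η * ‖ell i‖ := by positivity
  have h3 : C * ‖t‖ ≤ C * (C * (η * ‖ell i‖)) := mul_le_mul_of_nonneg_left h1 hC
  constructor
  · have h4 : uu (some i) o₂ i p t = t.1 / gg (some i).isSome p.1 := by
      simp [uu, ho, gg]
    have h5 := hu i
    rw [h4, norm_sub_rev] at h5
    nlinarith
  · rcases o₂ with _ | i₂
    · simp only [Option.isSome_none, gg_false, div_one]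
      have h6 := norm_snd_le t
      nlinarith [mul_nonneg hC h2]
    · have hne : i₂ ≠ i := fun e => ho (by rw [e])
      have h4 : uu (some i) (some i₂) i₂ p t = t.2 / gg (some i₂).isSome p.2 := by
        simp [uu, gg, hne.symm]
      have h5 := hu i₂
      rw [h4] at h5
      have h6 := hsm i₂ hne
      have h7 : ‖t.2 / gg (some i₂).isSome p.2‖ ≤ ‖ell i₂‖ + ‖ell i₂ - t.2 / gg (some i₂).isSome p.2‖ := by
        have := norm_sub_le (ell i₂) (ell i₂ - t.2 / gg (some i₂).isSome p.2)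
        rwa [sub_sub_cancel] at this
      nlinarith [mul_nonneg hC h2]

/-- **Existence of the residue**: it is the coefficient of `(dy₁ / y₁) ^ m`. -/
theorem isR_of_exp (hc : IsCone (coneE P)) (hH : H.IsHomogeneous h) (hE : ∀ i l, (E i l).IsHomogeneous (c i))
    (hne : ∀ i, ∀ x ∈ oc P H, vec (E i) x ≠ 0) {i : Fin k} (hL : LC P H E σ τ (some i) o₂) {m : ℕ} (hm : 1 ≤ m) (θ : SymDiff (oc P H) m)
    {a : ℕ → ℂ × ℂ → ℂ} (ha : ∀ k, AnalyticAt ℂ (a k) 0) (hexp : ∀ᶠ y in 𝓝 (0 : ℂ × ℂ), σ y ∈ oc P H → ∀ t : ℂ × ℂ,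
      θ.toFun (σ y) (fderiv ℂ σ y t) =
        ∑ k ∈ Finset.range (m + 1), a k y * (t.1 / gg (some i).isSome y.1) ^ k * (t.2 / gg o₂.isSome y.2) ^ (m - k)) :
    ∀ᶠ s in 𝓝 (0 : ℂ), IsR P H E c θ.toFun m i (σ (0, s)) (a m (0, s)) := by
  obtain ⟨C, hC, hfr⟩ := frame hc hH hE hL hne
  have hho : o₂ ≠ some i := hL.ne i rfl
  have hτ : Tendsto τ (𝓝 (σ 0)) (𝓝 0) := by
    have h1 := hL.chart.τ_an.continuousAt.tendsto
    have h2 : τ (σ 0) = 0 := hL.chart.left.self_of_nhds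
    rwa [h2] at h1
  -- a bound for the coefficients
  obtain ⟨A, hA0, hA⟩ : ∃ A : ℝ, 0 ≤ A ∧ ∀ᶠ p in 𝓝 (0 : ℂ × ℂ), ∀ k ∈ Finset.range (m + 1), ‖a k p‖ ≤ A := by
    refine ⟨∑ k ∈ Finset.range (m + 1), (‖a k 0‖ + 1), by positivity, ?_⟩
    rw [Filter.eventually_all_finset]
    intro k hk
    have h1 : ∀ᶠ p in 𝓝 (0 : ℂ × ℂ), ‖a k p‖ < ‖a k 0‖ + 1 := (ha k).continuousAt.norm.eventually_lt_const (by linarith)
    filter_upwards [h1] with p hp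
    exact hp.le.trans (Finset.single_le_sum (f := fun k => ‖a k 0‖ + 1) (fun j _ => by positivity) hk)
  have hgood : ∀ᶠ x in 𝓝 (σ 0), (∀ᶠ y in 𝓝 x, (y ∈ oc P H → σ (τ y) ∈ oc P H ∧ ∀ v, Tan (coneE P) y v → ∃ t : ℂ × ℂ,
      (∀ {m : ℕ} (θ : SymDiff (oc P H) m), θ.toFun y v = θ.toFun (σ (τ y)) (fderiv ℂ σ (τ y) t)) ∧ ‖t‖ ≤ C * fs y v ∧ fs y v ≤ C * ‖t‖ ∧
      ∀ i', ‖ellE (E i') (c i') y v - uu (some i) o₂ i' (τ y) t‖ ≤ C * ‖t‖) ∧ (σ (τ y) ∈ oc P H → ∀ t : ℂ × ℂ,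
      θ.toFun (σ (τ y)) (fderiv ℂ σ (τ y) t) = ∑ k ∈ Finset.range (m + 1), a k (τ y) * (t.1 / gg (some i).isSome (τ y).1) ^ k *
        (t.2 / gg o₂.isSome (τ y).2) ^ (m - k)) ∧ (∀ k ∈ Finset.range (m + 1), ‖a k (τ y)‖ ≤ A)) ∧ ContinuousAt (fun y => a m (τ y)) x := by
    have h1 := ((hfr.and (hτ.eventually hexp)).and (hτ.eventually hA))
    have h2 : ∀ᶠ x in 𝓝 (σ 0), ContinuousAt τ x := hL.chart.τ_an.eventually_analyticAt.mono fun x hx => hx.continuousAt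
    have h3 : ∀ᶠ x in 𝓝 (σ 0), ContinuousAt (a m) (τ x) :=
      hτ.eventually ((ha m).eventually_analyticAt.mono fun x hx => hx.continuousAt)
    filter_upwards [eventually_eventually_nhds.mpr h1, h2, h3] with x hx hx2 hx3
    exact ⟨hx.mono fun y hy => ⟨hy.1.1, hy.1.2, hy.2⟩, ContinuousAt.comp (g := a m) hx3 hx2⟩
  have hline : Tendsto (fun s : ℂ => ((0, s) : ℂ × ℂ)) (𝓝 0) (𝓝 (0 : ℂ × ℂ)) := by
    have : Continuous (fun s : ℂ => ((0, s) : ℂ × ℂ)) := by fun_prop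
    exact this.tendsto 0
  have hσ : Tendsto (fun s : ℂ => σ (0, s)) (𝓝 0) (𝓝 (σ 0)) := hL.chart.σ_an.continuousAt.tendsto.comp hline
  filter_upwards [hσ.eventually hgood, hline.eventually hL.chart.left] with s hs hleft
  obtain ⟨hs1, hs2⟩ := hs
  intro ε hε
  set D : ℝ := 1 + C + C ^ 2 with hD
  have hD0 : 0 < D := by positivity
  set K : ℝ := 2 * m * A * 2 ^ m * D with hK
  have hK0 : 0 ≤ K := by positivity
  refine ⟨min (1 / D) (ε / (2 * (K + 1))), by positivity, ?_⟩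
  set η : ℝ := min (1 / D) (ε / (2 * (K + 1))) with hη
  have hη0 : 0 < η := by positivity
  have hη1 : D * η ≤ 1 := by
    have := min_le_left (1 / D) (ε / (2 * (K + 1)))
    rw [← hη, le_div_iff₀ hD0] at this
    linarith
  have hη2 : K * η ≤ ε / 2 := by
    have := min_le_right (1 / D) (ε / (2 * (K + 1)))
    rw [← hη, le_div_iff₀ (by positivity)] at this
    nlinarith
  have hclose : ∀ᶠ y in 𝓝 (σ (0, s)), ‖a m (τ y) - a m (0, s)‖ ≤ ε / 2 := by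
    have h1 : Tendsto (fun y => ‖a m (τ y) - a m (0, s)‖) (𝓝 (σ (0, s))) (𝓝 0) := by
      have h2 := hs2.tendsto
      simp only [hleft] at h2
      have h3 := (h2.sub_const (a m (0, s))).norm
      rwa [sub_self, norm_zero] at h3
    exact (h1.eventually_lt_const (half_pos hε)).mono fun y hy => hy.le
  filter_upwards [hs1, hclose] with y hy hyc hyo v hv hsm hfs
  obtain ⟨h1, h2, h3⟩ := hy
  obtain ⟨h4, h5⟩ := h1 hyo
  obtain ⟨t, ht1, ht2, -, ht4⟩ := h5 v hv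
  obtain ⟨e1, e2⟩ := frame_est (ell := fun i' => ellE (E i') (c i') y v) hho hC hη0.le ht2 hfs ht4 hsm
  rw [ht1 θ, h2 h4 t]
  refine (exp_est (d := D * η) (ε := ε / 2) hm hA0 h3 (by positivity) hη1 e1 e2 hyc).trans ?_
  refine mul_le_mul_of_nonneg_right ?_ (by positivity)
  have : 2 * (m : ℝ) * A * 2 ^ m * (D * η) = K * η := by rw [hK]; ring
  linarith

end Pool.Agent.SR3

end
end

section

/-!
# SR3 RsU: the residue along a component is unique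
-/

set_option autoImplicit false

open Topology Filter Metric MvPolynomial

noncomputable section

namespace Pool.Agent.SR3

open Pool.Agent.H36.BP (EN fs)
open Pool.Agent.H17BP (Surface IsChart)
open Pool.Agent.H14.PP (IsCone Tan)
open Pool.Agent.H17EF (coneE)
open Pool.Agent.AD (SymDiff)

variable {N k M : ℕ} {P : Ideal (MvPolynomial (Fin (N + 1)) ℂ)} {H : MvPolynomial (Fin (N + 1)) ℂ} {h : ℕ}
  {E : Fin k → Fin (M + 1) → MvPolynomial (Fin (N + 1)) ℂ} {b c : Fin k → ℕ} {σ : ℂ × ℂ → EN N} {τ : EN N → ℂ × ℂ} {o₁ o₂ : Option (Fin k)}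

/-- a component through the point is one of the two of the chart -/
theorem LC.some_of_zero (hL : LC P H E σ τ o₁ o₂) {i : Fin k} (hi : vec (E i) (σ 0) = 0) : o₁ = some i ∨ o₂ = some i := by
  by_contra hcon
  push Not at hcon
  obtain ⟨e, -, he0, he⟩ := hL.eqs i
  have h1 := he.self_of_nhds
  simp only [hcon.1, hcon.2, decide_false, gg_false, one_mul, one_smul] at h1
  exact he0 (h1 ▸ hi)

theorem LC.zero_of_some (hL : LC P H E σ τ o₁ o₂) {i : Fin k} (hi : o₁ = some i ∨ o₂ = some i) : vec (E i) (σ 0) = 0 := by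
  obtain ⟨e, -, he0, he⟩ := hL.eqs i
  have h1 := he.self_of_nhds
  rw [h1]
  rcases hi with hi | hi
  · simp [hi, gg]
  · simp [hi, gg]

theorem isR_unique_lc (hE : ∀ i l, (E i l).IsHomogeneous (c i)) (hL : LC P H E σ τ o₁ o₂) {m : ℕ} {w : EN N → EN N → ℂ} {i : Fin k}
    (hi : vec (E i) (σ 0) = 0) {r r' : ℂ} (h : IsR P H E c w m i (σ 0) r) (h' : IsR P H E c w m i (σ 0) r') : r = r' := by
  obtain ⟨C, hC, hest⟩ := lc_est hE hL
  -- the direction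
  obtain ⟨t, ht1, ht2, ht3⟩ : ∃ t : ℂ × ℂ, ‖t‖ = 1 ∧ (∀ z : ℂ, uu o₁ o₂ i (z, z) t = 1 / z) ∧ ∀ i', i' ≠ i → ∀ z : ℂ, uu o₁ o₂ i' (z, z) t = 0 := by
    rcases hL.some_of_zero hi with h1 | h1
    · refine ⟨(1, 0), by simp [Prod.norm_def], fun z => ?_, fun i' hi' z => ?_⟩
      · simp [uu, h1]
      · simp [uu, h1, Ne.symm hi']
    · have h2 : o₁ ≠ some i := fun e => hL.ne i e h1
      refine ⟨(0, 1), by simp [Prod.norm_def], fun z => ?_, fun i' hi' z => ?_⟩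
      · simp [uu, h1, h2]
      · simp [uu, h1, Ne.symm hi']
  have hline : Tendsto (fun z : ℂ => ((z, z) : ℂ × ℂ)) (𝓝[≠] 0) (𝓝 (0 : ℂ × ℂ)) := by
    have : Continuous (fun z : ℂ => ((z, z) : ℂ × ℂ)) := by fun_prop
    exact (this.tendsto 0).mono_left nhdsWithin_le_nhds
  have hσ : Tendsto (fun z : ℂ => σ (z, z)) (𝓝[≠] 0) (𝓝 (σ 0)) := hL.chart.σ_an.continuousAt.tendsto.comp hline
  have hsmall : ∀ δ : ℝ, 0 < δ → ∀ᶠ z : ℂ in 𝓝[≠] 0, ‖z‖ < δ := by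
    intro δ hδ
    have : ∀ᶠ z : ℂ in 𝓝 0, ‖z‖ < δ := by
      have h1 := (continuous_norm (E := ℂ)).tendsto 0
      rw [norm_zero] at h1
      exact h1.eventually_lt_const hδ
    exact this.filter_mono nhdsWithin_le_nhds
  have key : ∀ ε : ℝ, 0 < ε → ‖r - r'‖ ≤ 2 * ε := by
    intro ε hε
    obtain ⟨η, hη, h1⟩ := h ε hε
    obtain ⟨η', hη', h2⟩ := h' ε hε
    set μ : ℝ := min η η' with hμ
    have hμ0 : 0 < μ := lt_min hη hη'
    have hδ : 0 < μ / ((C + 1) * (1 + μ)) := by positivity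
    have hall := ((hσ.eventually h1).and (hσ.eventually h2)).and ((hline.eventually hest).and ((hline.eventually (lc_open hL)).and
      ((hsmall _ hδ).and self_mem_nhdsWithin)))
    obtain ⟨z, ⟨h3, h4⟩, h5, h6, h7, h8⟩ := hall.exists
    have hz : z ≠ 0 := h8
    have hg : gg o₁.isSome z * gg o₂.isSome z ≠ 0 := by
      refine mul_ne_zero ?_ ?_
      · cases o₁.isSome <;> simp [gg, hz]
      · cases o₂.isSome <;> simp [gg, hz]
    have h9 := h6 hg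
    have hoc : σ (z, z) ∈ oc P H := h9.self_of_nhds.2
    have hT : Tan (coneE P) (σ (z, z)) (fderiv ℂ σ (z, z) t) := rs_tan_mono (fun x hx => hx.1) (tan_of_near h9 t)
    obtain ⟨e1, -, e3⟩ := h5 t
    rw [ht1, mul_one] at e1
    have e3 := e3 hoc
    rw [ht1, mul_one] at e3
    set l : ℂ := ellE (E i) (c i) (σ (z, z)) (fderiv ℂ σ (z, z) t) with hl
    have hz0 : 0 < ‖z‖ := norm_pos_iff.mpr hz
    have hlb : 1 / ‖z‖ - C ≤ ‖l‖ := by
      have e4 := e3 i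
      rw [ht2 z, ← hl] at e4
      have e5 := norm_sub_norm_le (1 / z) l
      rw [norm_div, norm_one, norm_sub_rev] at e5
      linarith
    have hbig : C ≤ μ * ‖l‖ ∧ 0 < ‖l‖ := by
      have e6 : (C + 1) * (1 + μ) / μ < 1 / ‖z‖ := by
        rw [lt_div_iff₀ (by positivity)] at h7
        rw [div_lt_div_iff₀ hμ0 hz0]
        linarith
      have e7 : (C + 1) * (1 + μ) / μ = (C + 1) / μ + (C + 1) := by field_simp
      have e8 : (C + 1) / μ ≤ ‖l‖ := by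
        rw [e7] at e6
        linarith
      have e9 : C + 1 ≤ μ * ‖l‖ := by
        rw [div_le_iff₀ hμ0] at e8
        linarith
      refine ⟨by linarith, ?_⟩
      by_contra hcon
      push Not at hcon
      nlinarith
    have f1 : ∀ i', i' ≠ i → ‖ellE (E i') (c i') (σ (z, z)) (fderiv ℂ σ (z, z) t)‖ ≤ μ * ‖l‖ := by
      intro i' hi'
      have e4 := e3 i'
      rw [ht3 i' hi' z, sub_zero] at e4
      exact e4.trans hbig.1
    have g1 := h3 hoc _ hT (fun i' hi' => (f1 i' hi').trans (mul_le_mul_of_nonneg_right (min_le_left _ _) (norm_nonneg _)))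
      ((e1.trans hbig.1).trans (mul_le_mul_of_nonneg_right (min_le_left _ _) (norm_nonneg _)))
    have g2 := h4 hoc _ hT (fun i' hi' => (f1 i' hi').trans (mul_le_mul_of_nonneg_right (min_le_right _ _) (norm_nonneg _)))
      ((e1.trans hbig.1).trans (mul_le_mul_of_nonneg_right (min_le_right _ _) (norm_nonneg _)))
    have hlm : 0 < ‖l‖ ^ m := pow_pos hbig.2 m
    have g3 : ‖r - r'‖ * ‖l‖ ^ m ≤ 2 * ε * ‖l‖ ^ m := by
      rw [← norm_pow, ← norm_mul]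
      have g4 : (r - r') * l ^ m = (w (σ (z, z)) (fderiv ℂ σ (z, z) t) - r' * l ^ m) - (w (σ (z, z)) (fderiv ℂ σ (z, z) t) - r * l ^ m) := by ring
      rw [g4, norm_pow]
      refine (norm_sub_le _ _).trans ?_
      linarith
    exact le_of_mul_le_mul_right g3 hlm
  have h0 : ‖r - r'‖ ≤ 0 := by
    refine le_of_forall_pos_le_add fun ε hε => ?_
    have := key (ε / 2) (half_pos hε)
    linarith
  exact sub_eq_zero.mp (norm_le_zero_iff.mp h0)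

end Pool.Agent.SR3

end
end
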