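import Pool.Agent.H43.TL2.M160
import Pool.Agent.H43.TL2.M161
import Pool.Agent.H43.TL2.M162
import Pool.Agent.H43.TL2.M163

/-! The parts of this file: SR3.QnB, SR3.Big. -/

section

/-!
# SR3 QnB: the curve `Z` is null in a quantitative sense, for forms `Q a` with common zeros on `Z`
-/

set_option autoImplicit false

open Topology Filter Metric MvPolynomial

noncomputable section

namespace Pool.Agent.SR3

open Pool.Agent.H36.BP (EN fs wd wd_sq wd_le fs_nonneg)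
open Pool.Agent.H17BP (Surface IsChart IsForm NoZeros)
open Pool.Agent.H14.PP (IsCone Tan CurveAt)
open Pool.Agent.H14.KB (rhoS)
open Pool.Agent.H17 (PN VanishesAt HolomorphicInto)
open Pool.Agent.H62.FC (Homog)
open Pool.Agent.H17LG.Variety (FunField)
open Pool.Agent.H17EF (projVar coneE LE)
open Pool.Agent.H13.SM (conTan cone Inv_hasFDerivAt_eval)
open Pool.Agent.AD (SymDiff TangentTo)
open Pool.Agent.AD.NC (IsSmooth)
open Pool.Agent.SDA (openCone)
open Pool.Agent.SDR (pv disc_null)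

variable {N k M : ℕ} {P : Ideal (MvPolynomial (Fin (N + 1)) ℂ)}

private theorem tan_comb {X : Set (EN N)} (hX : ∀ x ∈ X, ∀ c : ℂ, c ≠ 0 → c • x ∈ X) {x v : EN N} (h : Tan X x v) (t a : ℂ) :
    Tan X x (t • v + a • x) := by
  obtain ⟨F, ⟨hF, hFX⟩, h0, h1⟩ := h
  have g1 : HasDerivAt (fun z : ℂ => t * z) t 0 := by simpa using (hasDerivAt_id (0 : ℂ)).const_mul t
  have g2 : HasDerivAt F v (t * 0) := by rw [mul_zero, ← h1]; exact hF.differentiableAt.hasDerivAt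
  have g3 : HasDerivAt (fun z : ℂ => F (t * z)) (t • v) 0 := HasDerivAt.scomp (0 : ℂ) g2 g1
  have g4 : HasDerivAt (fun z : ℂ => 1 + a * z) a 0 := by
    simpa using ((hasDerivAt_id (0 : ℂ)).const_mul a).const_add 1
  have g5 := g4.smul g3
  refine ⟨fun z => (1 + a * z) • F (t * z), ⟨?_, ?_⟩, ?_, ?_⟩
  · have e1 : AnalyticAt ℂ (fun z : ℂ => t * z) 0 := analyticAt_const.mul analyticAt_id
    have e2 : AnalyticAt ℂ F ((fun z : ℂ => t * z) 0) := by simpa using hF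
    exact (analyticAt_const.add (analyticAt_const.mul analyticAt_id)).smul (AnalyticAt.comp (g := F) (f := fun z : ℂ => t * z) e2 e1)
  · have c1 : Tendsto (fun z : ℂ => t * z) (𝓝 0) (𝓝 0) := by
      have : Continuous fun z : ℂ => t * z := by fun_prop
      simpa using this.tendsto 0
    have c2 : ∀ᶠ z : ℂ in 𝓝 0, (1 + a * z) ≠ 0 := by
      have : ContinuousAt (fun z : ℂ => 1 + a * z) 0 := by fun_prop
      exact this.eventually_ne (by simp)
    filter_upwards [c1.eventually hFX, c2] with z hz1 hz2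
    exact hX _ hz1 _ hz2
  · simp [h0]
  · have h4 : deriv (fun z => (1 + a * z) • F (t * z)) 0 = (1 + a * 0) • (t • v) + a • F (t * 0) := g5.deriv
    rw [h4]
    simp [h0]

private theorem fderiv_eval (Q : MvPolynomial (Fin (N + 1)) ℂ) (x v : EN N) :
    fderiv ℂ (fun y : EN N => eval y.ofLp Q) x v = ∑ i, v i * eval x.ofLp (pderiv i Q) := by
  have h1 : HasFDerivAt (fun y : EN N => y.ofLp) ((LE N).symm : EN N →L[ℂ] (Fin (N + 1) → ℂ)) x :=
    ((LE N).symm : EN N →L[ℂ] (Fin (N + 1) → ℂ)).hasFDerivAt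
  have h2 := (Inv_hasFDerivAt_eval Q x.ofLp).comp x h1
  have h3 : HasFDerivAt (fun y : EN N => eval y.ofLp Q)
      ((∑ i, eval x.ofLp (pderiv i Q) • (ContinuousLinearMap.proj i : (Fin (N + 1) → ℂ) →L[ℂ] ℂ)).comp
        ((LE N).symm : EN N →L[ℂ] (Fin (N + 1) → ℂ))) x := h2
  rw [h3.fderiv]
  have e : ((LE N).symm : EN N →L[ℂ] (Fin (N + 1) → ℂ)) v = v.ofLp := rfl
  rw [ContinuousLinearMap.comp_apply, e]
  simp only [sum_apply, FunLike.coe_smul, Pi.smul_apply, ContinuousLinearMap.proj_apply, smul_eq_mul]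
  exact Finset.sum_congr rfl fun i _ => mul_comm _ _

private theorem cont_eval (Q : MvPolynomial (Fin (N + 1)) ℂ) : Continuous fun y : EN N => eval y.ofLp Q :=
  (MvPolynomial.continuous_eval Q).comp (LE N).symm.continuous

private theorem oc_smul {H : MvPolynomial (Fin (N + 1)) ℂ} {h : ℕ} (hH : H.IsHomogeneous h) (hX : Surface (coneE P)) :
    ∀ x ∈ oc P H, ∀ c : ℂ, c ≠ 0 → c • x ∈ oc P H := by
  intro x hx c hc
  refine ⟨hX.smul x hx.1 c hc, fun i => ?_⟩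
  have h1 := hx.2 i
  have h2 : eval (c • x).ofLp H = c ^ h * eval x.ofLp H := Pool.Agent.AD.P.eval_smul_of_homog hH c x.ofLp
  rw [h2]
  exact mul_ne_zero (pow_ne_zero _ hc) h1

/-- an algebraic symmetric differential on a compact part -/
private theorem sym_le {H : MvPolynomial (Fin (N + 1)) ℂ} {h : ℕ} (hH : H.IsHomogeneous h) (hX : Surface (coneE P)) {m : ℕ} (hm : 1 ≤ m)
    (θ : SymDiff (oc P H) m) {W : MvPolynomial (Fin (N + 1) ⊕ Fin (N + 1)) ℂ} {r : ℕ}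
    (hW : ∀ x ∈ oc P H, ∀ v, Tan (oc P H) x v → θ.toFun x v * eval x.ofLp H ^ r = eval (Sum.elim x.ofLp v.ofLp) W) (B : ℝ) :
    ∃ A : ℝ, 0 ≤ A ∧ ∀ x ∈ oc P H, eval x.ofLp H = 1 → ‖x‖ ≤ B → ∀ v, Tan (oc P H) x v → ‖v‖ ≤ B → ‖θ.toFun x v‖ ≤ A * fs x v := by
  have hK : IsCompact (closedBall (0 : EN N) B ×ˢ closedBall (0 : EN N) 1) := (isCompact_closedBall _ _).prod (isCompact_closedBall _ _)
  have hc : Continuous fun p : EN N × EN N => eval (Sum.elim p.1.ofLp p.2.ofLp) W := by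
    refine (MvPolynomial.continuous_eval W).comp (continuous_pi fun i => ?_)
    rcases i with i | i
    · exact (continuous_apply i).comp ((LE N).symm.continuous.comp continuous_fst)
    · exact (continuous_apply i).comp ((LE N).symm.continuous.comp continuous_snd)
  obtain ⟨A₁, hA₁⟩ := hK.exists_bound_of_continuousOn hc.continuousOn
  refine ⟨|A₁| * |B| ^ (m - 1) * |B|, by positivity, fun x hx hHx hxB v hv hvB => ?_⟩
  have hoc := oc_smul hH hX
  have hx0 : x ≠ 0 := fun h0 => hx.1.1 (by rw [h0]; rfl)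
  have hxn : 0 < ‖x‖ := norm_pos_iff.2 hx0
  have hB0 : 0 ≤ B := hxn.le.trans hxB
  set c : ℂ := inner ℂ x v / (‖x‖ : ℂ) ^ 2 with hcdef
  set v' : EN N := v + (-c) • x with hv'
  have horth : inner ℂ x v' = (0 : ℂ) := by
    have hxx : (inner ℂ x x : ℂ) = (‖x‖ : ℂ) ^ 2 := inner_self_eq_norm_sq_to_K x
    have : ((‖x‖ : ℂ)) ^ 2 ≠ 0 := pow_ne_zero _ (by exact_mod_cast hxn.ne')
    rw [hv', inner_add_right, inner_smul_right, hxx, hcdef, neg_mul, div_mul_cancel₀ _ this, add_neg_cancel]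
  have hwd : wd x v = ‖x‖ * ‖v'‖ := by
    have h1 : wd x v = wd x v' := by
      have h := Pool.Agent.H36.BP.wd_inv x v 1 (-c)
      rw [one_smul, one_smul, norm_one] at h
      rw [hv', h]; ring
    have h2 := wd_sq x v'
    rw [horth, norm_zero] at h2
    rw [h1]
    have h3 : wd x v' ^ 2 = (‖x‖ * ‖v'‖) ^ 2 := by rw [h2]; ring
    exact (pow_left_inj₀ (Pool.Agent.H36.BP.wd_nonneg _ _) (by positivity) two_ne_zero).mp h3
  have hv'n : ‖v'‖ = fs x v * ‖x‖ := by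
    unfold fs
    rw [hwd]
    field_simp
  have hv'le : ‖v'‖ ≤ |B| := by
    have h1 : ‖x‖ * ‖v'‖ ≤ ‖x‖ * ‖v‖ := by rw [← hwd]; exact wd_le _ _
    exact (le_of_mul_le_mul_left h1 hxn).trans (hvB.trans (le_abs_self _))
  have hT' : Tan (oc P H) x v' := by
    have := tan_comb hoc hv 1 (-c)
    rwa [one_smul] at this
  have hθ' : θ.toFun x v = θ.toFun x v' := (θ.add_smul x v hv (-c)).symm
  rcases eq_or_ne v' 0 with h0 | h0
  · have h1 : θ.toFun x v' = 0 := by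
      have h2 := θ.smul x v' hT' 0
      rw [zero_smul, zero_pow (by omega), zero_mul] at h2
      rw [h0]; exact h2
    rw [hθ', h1, norm_zero]
    exact mul_nonneg (by positivity) (fs_nonneg _ _)
  · have hv'pos : 0 < ‖v'‖ := norm_pos_iff.2 h0
    set u : EN N := ((‖v'‖ : ℂ)⁻¹) • v' with hu
    have hun : ‖u‖ = 1 := by
      rw [hu, norm_smul, norm_inv, Complex.norm_real, norm_norm, inv_mul_cancel₀ hv'pos.ne']
    have hTu : Tan (oc P H) x u := by
      have := tan_comb hoc hT' ((‖v'‖ : ℂ)⁻¹) 0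
      rwa [zero_smul, add_zero] at this
    have hvu : v' = (‖v'‖ : ℂ) • u := by
      rw [hu, smul_smul, mul_inv_cancel₀ (by exact_mod_cast hv'pos.ne'), one_smul]
    have h1 : θ.toFun x v' = (‖v'‖ : ℂ) ^ m * θ.toFun x u := by
      conv_lhs => rw [hvu]
      exact θ.smul x u hTu _
    have h2 : ‖θ.toFun x u‖ ≤ |A₁| := by
      have h3 := hW x hx u hTu
      rw [hHx, one_pow, mul_one] at h3
      rw [h3]
      exact (hA₁ (x, u) ⟨by simpa using hxB, by simp [hun]⟩).trans (le_abs_self _)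
    rw [hθ', h1, norm_mul, norm_pow, Complex.norm_real, norm_norm]
    calc ‖v'‖ ^ m * ‖θ.toFun x u‖ = ‖v'‖ ^ (m - 1) * ‖v'‖ * ‖θ.toFun x u‖ := by
          rw [← pow_succ, Nat.sub_add_cancel hm]
      _ ≤ |B| ^ (m - 1) * (fs x v * |B|) * |A₁| := by
          have h5 : ‖v'‖ ≤ fs x v * |B| := by
            rw [hv'n]
            exact mul_le_mul_of_nonneg_left (hxB.trans (le_abs_self _)) (fs_nonneg _ _)
          have h6 : ‖v'‖ ^ (m - 1) ≤ |B| ^ (m - 1) := pow_le_pow_left₀ (norm_nonneg _) hv'le _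
          have h7 := fs_nonneg x v
          exact mul_le_mul (mul_le_mul h6 h5 (norm_nonneg _) (by positivity)) h2 (norm_nonneg _) (by positivity)
      _ = |A₁| * |B| ^ (m - 1) * |B| * fs x v := by ring

/-- the ideal of the polynomials which vanish at `x` with their derivative in the direction of `v` -/
private theorem gen_all {G : Finset (MvPolynomial (Fin (N + 1)) ℂ)} (hG : Ideal.span (G : Set (MvPolynomial (Fin (N + 1)) ℂ)) = P)
    {x v : Fin (N + 1) → ℂ} (h1 : ∀ Q ∈ G, eval x Q = 0) (h2 : ∀ Q ∈ G, ∑ i, v i * eval x (pderiv i Q) = 0) :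
    (∀ Q ∈ P, eval x Q = 0) ∧ ∀ Q ∈ P, ∑ i, v i * eval x (pderiv i Q) = 0 := by
  have key : ∀ Q ∈ P, eval x Q = 0 ∧ ∑ i, v i * eval x (pderiv i Q) = 0 := by
    intro Q hQ
    rw [← hG] at hQ
    induction hQ using Submodule.span_induction with
    | mem Q hQ => exact ⟨h1 Q hQ, h2 Q hQ⟩
    | zero => simp
    | add p q _ _ hp hq =>
      refine ⟨by rw [map_add, hp.1, hq.1, add_zero], ?_⟩
      simp only [map_add, mul_add, Finset.sum_add_distrib, hp.2, hq.2, add_zero]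
    | smul a p _ hp =>
      refine ⟨by rw [smul_eq_mul, map_mul, hp.1, mul_zero], ?_⟩
      simp only [smul_eq_mul, Derivation.leibniz, map_add, map_mul, hp.1, zero_mul, add_zero]
      have : ∑ i, v i * (eval x a * eval x (pderiv i p)) = eval x a * ∑ i, v i * eval x (pderiv i p) := by
        rw [Finset.mul_sum]
        exact Finset.sum_congr rfl fun i _ => by ring
      rw [this, hp.2, mul_zero]
  exact ⟨fun Q hQ => (key Q hQ).1, fun Q hQ => (key Q hQ).2⟩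

/-- The curve `Z` is null in a quantitative sense. -/
theorem exists_qnB [P.IsPrime] {z : Fin 2 → FunField P} (hP : Homog P) (hz : IsTranscendenceBasis ℂ z) (hsm : IsSmooth P 2)
    {H : MvPolynomial (Fin (N + 1)) ℂ} {h : ℕ}
    (hH : H.IsHomogeneous h) (h1 : 1 ≤ h) {s : ℕ} {m : Fin s → ℕ}
    (hm : ∀ j, 1 ≤ m j) (θ : ∀ j, SymDiff (oc P H) (m j)) (hθ : ∀ j, IsAlg (θ j)) {r t : ℕ}
    {Q : Fin r → MvPolynomial (Fin (N + 1)) ℂ} {R : Fin t → MvPolynomial (Fin (N + 1)) ℂ} (hR : NullCurve θ R) (hcov : ZeroCover P H Q R)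
    (D : ℕ) (B : ℝ) :
    ∃ C α : ℝ, 0 ≤ C ∧ 0 < α ∧ ∀ (φ : ℂ → EN N) (q : Fin s → ℂ) (ε : ℝ), 0 < ε → ε ≤ 1 → DifferentiableOn ℂ φ (ball 0 1) →
      (∀ z ∈ ball (0 : ℂ) 1, φ z ∈ oc P H ∧ eval (φ z).ofLp H = 1 ∧ ‖φ z‖ ≤ B ∧
        rhoS (eqT H R Q) D (φ z) ≤ ε) →
      (∀ j, ∀ z ∈ ball (0 : ℂ) 1, (θ j).toFun (φ z) (deriv φ z) = q j) → ∑ j, ‖q j‖ ^ ((m j : ℝ)⁻¹) ≤ C * ε ^ α := by
  classical
  have hX : Surface (coneE P) := Pool.Agent.H90.SG.surface_coneE hP hz hsm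
  have hoc := oc_smul (P := P) hH hX
  -- the compact set
  set Kc : Set (EN N) := {x | ‖x‖ ≤ B ∧ x ∈ oc P H ∧ eval x.ofLp H = 1} with hKc
  have hKcc : IsCompact Kc := by
    have e : Kc = closedBall (0 : EN N) B ∩ ({x | ∀ Q ∈ P, eval x.ofLp Q = 0} ∩ {x | eval x.ofLp H = 1}) := by
      ext x
      simp only [hKc, Set.mem_ofPred_eq, Set.mem_inter_iff, mem_closedBall_zero_iff]
      constructor
      · rintro ⟨a1, a2, a3⟩
        exact ⟨a1, a2.1.2, a3⟩
      · rintro ⟨a1, a2, a3⟩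
        refine ⟨a1, ⟨⟨?_, a2⟩, fun _ => by rw [a3]; exact one_ne_zero⟩, a3⟩
        intro h0
        have h0' : x.ofLp = 0 := h0
        rw [h0'] at a3
        have : eval (0 : Fin (N + 1) → ℂ) H = 0 := by
          have := Pool.Agent.AD.P.eval_smul_of_homog hH (0 : ℂ) (0 : Fin (N + 1) → ℂ)
          rw [zero_smul, zero_pow (by omega), zero_mul] at this
          exact this
        rw [this] at a3
        exact zero_ne_one a3
    rw [e]
    refine (isCompact_closedBall _ _).inter_right (IsClosed.inter ?_ ?_)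
    · have : {x : EN N | ∀ Q ∈ P, eval x.ofLp Q = 0} = ⋂ Q ∈ P, {x | eval x.ofLp Q = 0} := by ext x; simp
      rw [this]
      exact isClosed_biInter fun Q _ => isClosed_eq (cont_eval Q) continuous_const
    · exact isClosed_eq (cont_eval H) continuous_const
  rcases Set.eq_empty_or_nonempty Kc with hemp | hKne
  · refine ⟨0, 1, le_refl _, one_pos, fun φ q ε hε hε1 hφ hφK hq => ?_⟩
    obtain ⟨a1, a2, a3, -⟩ := hφK 0 (mem_ball_self one_pos)
    have : φ 0 ∈ Kc := ⟨a3, a1, a2⟩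
    rw [hemp] at this
    exact this.elim
  -- the lower bound of the norm
  obtain ⟨x₀, hx₀, hx₀m⟩ := hKcc.exists_isMinOn hKne continuous_norm.continuousOn
  have hne : ∀ x ∈ Kc, x ≠ 0 := fun x hx h0 => hx.2.1.1.1 (by rw [h0]; rfl)
  have hx₀0 : 0 < ‖x₀‖ := norm_pos_iff.2 (hne x₀ hx₀)
  have hB0 : 0 < B := hx₀0.trans_le hx₀.1
  -- the generators of `P`
  obtain ⟨G, hG⟩ : P.FG := IsNoetherian.noetherian P
  have hG' : Ideal.span (G : Set (MvPolynomial (Fin (N + 1)) ℂ)) = P := hG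
  -- the Nullstellensatz
  obtain ⟨n, hn1, hn⟩ := Pool.Agent.SDR.ns_bound (T := Fin t) R (Sum.elim (fun g : {g // g ∈ G} => g.1)
    (Sum.elim (fun _ : Unit => H - 1) fun a : Fin t × Fin r => R a.1 * Q a.2)) (by
      intro l y hy
      have g1 : ∀ Q ∈ G, eval y Q = 0 := fun Q hQ => hy (Sum.inl ⟨Q, hQ⟩)
      have g2 : ∀ Q ∈ G, ∑ i, (0 : Fin (N + 1) → ℂ) i * eval y (pderiv i Q) = 0 := fun Q hQ => by simp
      have g3 := (gen_all hG' g1 g2).1
      have g4 : eval y H = 1 := by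
        have h2 := hy (Sum.inr (Sum.inl ()))
        simp only [Sum.elim_inr, Sum.elim_inl, map_sub, map_one] at h2
        exact sub_eq_zero.1 h2
      have hy0 : y ≠ 0 := by
        rintro rfl
        have : eval (0 : Fin (N + 1) → ℂ) H = 0 := by
          have := Pool.Agent.AD.P.eval_smul_of_homog hH (0 : ℂ) (0 : Fin (N + 1) → ℂ)
          rw [zero_smul, zero_pow (by omega), zero_mul] at this
          exact this
        rw [this] at g4
        exact zero_ne_one g4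
      have g5 : (WithLp.toLp 2 y : EN N) ∈ oc P H := ⟨⟨hy0, g3⟩, fun _ => by
        show eval y H ≠ 0
        rw [g4]
        exact one_ne_zero⟩
      by_cases h2 : ∀ a, eval y (Q a) = 0
      · exact hcov _ g5 h2 l
      · push Not at h2
        obtain ⟨a, ha⟩ := h2
        have h3 := hy (Sum.inr (Sum.inr (l, a)))
        simp only [Sum.elim_inr, map_mul] at h3
        exact (mul_eq_zero.1 h3).resolve_right ha)
  obtain ⟨C₃, hC₃0, hC₃⟩ := hn B
  have hnpos : (0 : ℝ) < n := by exact_mod_cast hn1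
  set K₂ : ℝ := C₃ * (t * r * B ^ D) + 1 with hK₂
  have hK₂0 : 0 < K₂ := by rw [hK₂]; positivity
  set C₂ : ℝ := K₂ ^ ((n : ℝ)⁻¹) with hC₂
  have hC₂0 : 0 < C₂ := Real.rpow_pos_of_pos hK₂0 _
  -- the points
  obtain ⟨S, hS⟩ := hR.tan
  set S' : Finset (EN N) := S.image fun p => WithLp.toLp 2 p.rep with hS'
  have hS0 : ∀ p ∈ S', p ≠ 0 := by
    intro p hp h0
    rw [hS', Finset.mem_image] at hp
    obtain ⟨p', -, rfl⟩ := hp
    exact p'.rep_nonzero (congrArg WithLp.ofLp h0)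
  have hS'' : ∀ x : EN N, (∀ p ∈ S', ∀ c : ℂ, x ≠ c • p) → ∀ hx : x.ofLp ≠ 0, Projectivization.mk ℂ x.ofLp hx ∉ S := by
    intro x hxp hx hmem
    obtain ⟨a, ha⟩ := Projectivization.exists_smul_eq_mk_rep ℂ x.ofLp hx
    refine hxp (WithLp.toLp 2 (Projectivization.mk ℂ x.ofLp hx).rep) (Finset.mem_image_of_mem _ hmem) ((a⁻¹ : ℂˣ) : ℂ) ?_
    apply WithLp.ofLp_injective
    rw [← ha]
    change x.ofLp = ((a⁻¹ : ℂˣ) : ℂ) • ((a : ℂ) • x.ofLp)
    rw [smul_smul, ← Units.val_mul, inv_mul_cancel, Units.val_one, one_smul]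
  -- one form
  have hone : ∀ j, ∃ C α : ℝ, 0 ≤ C ∧ 0 < α ∧ ∀ (φ : ℂ → EN N) (q : ℂ) (ε : ℝ), 0 < ε → ε ≤ 1 → DifferentiableOn ℂ φ (ball 0 1) →
      (∀ z ∈ ball (0 : ℂ) 1, φ z ∈ oc P H ∧ eval (φ z).ofLp H = 1 ∧ ‖φ z‖ ≤ B ∧
        rhoS (eqT H R Q) D (φ z) ≤ ε) →
      (∀ z ∈ ball (0 : ℂ) 1, (θ j).toFun (φ z) (deriv φ z) = q) → ‖q‖ ≤ C * ε ^ α := by
    intro j
    obtain ⟨W, e, hW⟩ := hθ j
    obtain ⟨A, hA0, hA⟩ := sym_le hH hX (hm j) (θ j) hW (2 * B)
    obtain ⟨C, α, hC0, hα0, hmain⟩ := disc_null (κ := {g // g ∈ G} ⊕ Fin t) (Sum.elim (fun g => g.1) fun l => MvPolynomial.C ((C₂ : ℂ)⁻¹) * R l) H W S' hS0 (by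
      intro x v hHx hRx hdRx hxS
      have g1 : ∀ Q ∈ G, eval x.ofLp Q = 0 := fun Q hQ => hRx (Sum.inl ⟨Q, hQ⟩)
      have g2 : ∀ Q ∈ G, ∑ i, v.ofLp i * eval x.ofLp (pderiv i Q) = 0 := fun Q hQ => hdRx (Sum.inl ⟨Q, hQ⟩)
      obtain ⟨g3, g4⟩ := gen_all hG' g1 g2
      have hC₂c : (C₂ : ℂ) ≠ 0 := by exact_mod_cast hC₂0.ne'
      have hx0 : x.ofLp ≠ 0 := by
        intro h0
        rw [h0] at hHx
        have : eval (0 : Fin (N + 1) → ℂ) H = 0 := by
          have := Pool.Agent.AD.P.eval_smul_of_homog hH (0 : ℂ) (0 : Fin (N + 1) → ℂ)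
          rw [zero_smul, zero_pow (by omega), zero_mul] at this
          exact this
        exact hHx this
      have hxc : x ∈ coneE P := ⟨hx0, g3⟩
      have hxo : x ∈ oc P H := ⟨hxc, fun _ => hHx⟩
      have hT : Tan (coneE P) x v := tan_of_conTan hP hz hsm hxc g4
      have hTo : Tan (oc P H) x v := by
        obtain ⟨F, ⟨hF, hFX⟩, h0, h1'⟩ := hT
        refine ⟨F, ⟨hF, ?_⟩, h0, h1'⟩
        have hc : ContinuousAt (fun z => eval (F z).ofLp H) 0 := (cont_eval H).continuousAt.comp hF.continuousAt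
        filter_upwards [hFX, hc.eventually_ne (by rw [h0]; exact hHx)] with z hz1 hz2
        exact ⟨hz1, fun _ => hz2⟩
      have g5 : ∀ l, eval x.ofLp (R l) = 0 := by
        intro l
        have := hRx (Sum.inr l)
        simp only [Sum.elim_inr, map_mul, eval_C, mul_eq_zero, inv_eq_zero, hC₂c, false_or] at this
        exact this
      have g6 : ∀ l, fderiv ℂ (fun y : EN N => eval y.ofLp (R l)) x v = 0 := by
        intro l
        rw [fderiv_eval]
        have h2 := hdRx (Sum.inr l)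
        simp only [Sum.elim_inr, pderiv_C_mul, map_mul, eval_C] at h2
        have h3 : ∑ i, v.ofLp i * ((C₂ : ℂ)⁻¹ * eval x.ofLp (pderiv i (R l))) = (C₂ : ℂ)⁻¹ * ∑ i, v.ofLp i * eval x.ofLp (pderiv i (R l)) := by
          rw [Finset.mul_sum]
          exact Finset.sum_congr rfl fun i _ => by ring
        rw [h3, mul_eq_zero, inv_eq_zero] at h2
        exact h2.resolve_left hC₂c
      have g7 := hS x hxo hx0 (hS'' x hxS hx0) g5 v hTo g6 j
      have g8 := hW x hxo v hTo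
      rw [g7, zero_mul] at g8
      exact g8.symm) (min ‖x₀‖ 1) (max (2 * B) (max 1 A)) (lt_min hx₀0 one_pos)
    refine ⟨C, (n : ℝ)⁻¹ * α, hC0, mul_pos (inv_pos.2 hnpos) hα0, fun φ q ε hε hε1 hφ hφK hq => ?_⟩
    rw [Real.rpow_mul hε.le]
    set ε₁ : ℝ := ε ^ ((n : ℝ)⁻¹) with hε₁
    have hε₁0 : 0 < ε₁ := Real.rpow_pos_of_pos hε _
    have hε₁1 : ε₁ ≤ 1 := Real.rpow_le_one hε.le hε1 (inv_pos.2 hnpos).le
    have hφd : ∀ w ∈ ball (0 : ℂ) 1, DifferentiableAt ℂ φ w := fun w hw => (hφ w hw).differentiableAt (isOpen_ball.mem_nhds hw)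
    have hT : ∀ w ∈ ball (0 : ℂ) 1, Tan (oc P H) (φ w) (deriv φ w) := by
      intro w hw
      have hw' : ∀ᶠ y in 𝓝 w, y ∈ ball (0 : ℂ) 1 := isOpen_ball.mem_nhds hw
      have han : AnalyticAt ℂ φ w := hφ.analyticAt (isOpen_ball.mem_nhds hw)
      have htr : Tendsto (fun y : ℂ => w + y) (𝓝 0) (𝓝 w) := by
        have : Continuous fun y : ℂ => w + y := by fun_prop
        simpa using this.tendsto 0
      refine ⟨fun y => φ (w + y), ⟨?_, ?_⟩, by simp, ?_⟩
      · have e2 : AnalyticAt ℂ φ ((fun y : ℂ => w + y) 0) := by simpa using han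
        exact AnalyticAt.comp (g := φ) (f := fun y : ℂ => w + y) e2 (analyticAt_const.add analyticAt_id)
      · filter_upwards [htr.eventually hw'] with y hy
        exact (hφK _ hy).1
      · rw [deriv_comp_const_add]
        simp
    have hKφ : ∀ w ∈ ball (0 : ℂ) 1, φ w ∈ Kc := fun w hw => ⟨(hφK w hw).2.2.1, (hφK w hw).1, (hφK w hw).2.1⟩
    have hd0 : ‖deriv φ 0‖ ≤ 2 * B := by
      have := Complex.norm_deriv_le_of_forall_mem_sphere_norm_le (c := 0) (R := 1 / 2) (C := B) (f := φ) (by norm_num)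
        (DifferentiableOn.diffContOnCl fun w hw => (hφd w (by
          rw [closure_ball _ (by norm_num)] at hw
          rw [mem_closedBall_zero_iff] at hw
          rw [mem_ball_zero_iff]; linarith)).differentiableWithinAt) (fun w hw => (hφK w (by
            rw [mem_sphere_zero_iff_norm] at hw
            rw [mem_ball_zero_iff, hw]; norm_num)).2.2.1)
      calc ‖deriv φ 0‖ ≤ B / (1 / 2) := this
        _ = 2 * B := by ring
    have h00 : (0 : ℂ) ∈ ball (0 : ℂ) 1 := mem_ball_self one_pos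
    refine hmain ε₁ hε₁0 hε₁1 φ ‖q‖ hφ (fun w hw => ⟨?_, ?_, ?_, ?_⟩) (fun w hw => ?_) ?_
    · exact (min_le_left _ _).trans (hx₀m (hKφ w hw))
    · exact ((hφK w hw).2.2.1.trans (by linarith)).trans (le_max_left _ _)
    · rw [(hφK w hw).2.1, norm_one]; exact min_le_right _ _
    · rintro (g | l)
      · simp only [Sum.elim_inl]
        have hgP : g.1 ∈ P := by rw [← hG']; exact Ideal.subset_span g.2
        have k0 : eval (φ w).ofLp g.1 = 0 := (hφK w hw).1.1.2 g.1 hgP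
        rw [k0, norm_zero]
        exact hε₁0.le
      · simp only [Sum.elim_inr, map_mul, eval_C, norm_mul, norm_inv, Complex.norm_real, Real.norm_eq_abs, abs_of_pos hC₂0]
        have k1 := (hφK w hw).2.2.2
        have k2 : 0 < ‖φ w‖ := norm_pos_iff.2 (hne _ (hKφ w hw))
        have k4 : ∀ a : Fin t × Fin r, ‖eval (φ w).ofLp (R a.1 * Q a.2)‖ ≤ ε * B ^ D := by
          intro a
          have k5 : ‖eval (φ w).ofLp (R a.1 * Q a.2 * H)‖ ≤ ‖fun a : Fin t × Fin r => eval (φ w).ofLp (R a.1 * Q a.2 * H)‖ :=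
            norm_le_pi_norm (fun a : Fin t × Fin r => eval (φ w).ofLp (R a.1 * Q a.2 * H)) a
          have k6 : ‖fun a : Fin t × Fin r => eval (φ w).ofLp (R a.1 * Q a.2 * H)‖ ≤ ε * ‖φ w‖ ^ D := by
            unfold rhoS eqT at k1
            rwa [div_le_iff₀ (by positivity)] at k1
          rw [map_mul, (hφK w hw).2.1, mul_one] at k5
          refine k5.trans (k6.trans ?_)
          have := (hφK w hw).2.2.1
          gcongr
        have k7 := hC₃ l (φ w).ofLp fun i => (PiLp.norm_apply_le (φ w) i).trans (hφK w hw).2.2.1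
        have k8 : ∑ i, ‖eval (φ w).ofLp ((Sum.elim (fun g : {g // g ∈ G} => g.1)
            (Sum.elim (fun _ : Unit => H - 1) fun a : Fin t × Fin r => R a.1 * Q a.2)) i)‖ ≤ t * r * (ε * B ^ D) := by
          rw [Fintype.sum_sum_type, Fintype.sum_sum_type]
          simp only [Sum.elim_inl, Sum.elim_inr]
          have e1 : ∑ g : {g // g ∈ G}, ‖eval (φ w).ofLp g.1‖ = 0 := Finset.sum_eq_zero fun g _ => by
            have hgP : g.1 ∈ P := by rw [← hG']; exact Ideal.subset_span g.2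
            have h0 : eval (φ w).ofLp g.1 = 0 := (hφK w hw).1.1.2 g.1 hgP
            rw [h0, norm_zero]
          have e2 : ∑ _a : Unit, ‖eval (φ w).ofLp (H - 1)‖ = 0 := Finset.sum_eq_zero fun _ _ => by
            rw [map_sub, map_one, (hφK w hw).2.1, sub_self, norm_zero]
          rw [e1, e2, zero_add, zero_add]
          calc ∑ a : Fin t × Fin r, ‖eval (φ w).ofLp (R a.1 * Q a.2)‖ ≤ ∑ _a : Fin t × Fin r, ε * B ^ D := Finset.sum_le_sum fun a _ => k4 a
            _ = t * r * (ε * B ^ D) := by simp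
        have k9 : ‖eval (φ w).ofLp (R l)‖ ^ n ≤ K₂ * ε := by
          refine (k7.trans (mul_le_mul_of_nonneg_left k8 hC₃0)).trans ?_
          rw [hK₂]
          have : C₃ * (t * r * (ε * B ^ D)) = C₃ * (t * r * B ^ D) * ε := by ring
          rw [this]
          nlinarith
        have k10 : ‖eval (φ w).ofLp (R l)‖ ≤ C₂ * ε₁ := by
          rw [hC₂, hε₁, ← Real.mul_rpow hK₂0.le hε.le]
          have e1 : ‖eval (φ w).ofLp (R l)‖ = (‖eval (φ w).ofLp (R l)‖ ^ n) ^ ((n : ℝ)⁻¹) := by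
            rw [← Real.rpow_natCast, ← Real.rpow_mul (norm_nonneg _), mul_inv_cancel₀ hnpos.ne', Real.rpow_one]
          rw [e1]
          exact Real.rpow_le_rpow (by positivity) k9 (inv_pos.2 hnpos).le
        rw [inv_mul_le_iff₀ hC₂0]
        exact k10
    · have hw1 : w ∈ ball (0 : ℂ) 1 := by rw [mem_ball_zero_iff] at hw ⊢; linarith
      have k1 := hW (φ w) (hφK w hw1).1 _ (hT w hw1)
      rw [(hφK w hw1).2.1, one_pow, mul_one, hq w hw1] at k1
      have k2 : pv W (φ w) (deriv φ w) = q := k1.symm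
      rw [k2]
      exact le_mul_of_one_le_left (norm_nonneg _) ((le_max_left _ _).trans (le_max_right _ _))
    · have k1 := hA (φ 0) (hφK 0 h00).1 (hφK 0 h00).2.1 ((hφK 0 h00).2.2.1.trans (by linarith)) _ (hT 0 h00) hd0
      rw [hq 0 h00] at k1
      exact k1.trans (mul_le_mul_of_nonneg_right ((le_max_right _ _).trans (le_max_right _ _)) (fs_nonneg _ _))
  choose C α hC0 hα0 hmain using hone
  -- the common exponent
  set β : ℝ := (∑ j, (m j : ℝ) / α j + 1)⁻¹ with hβ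
  have hsum0 : 0 ≤ ∑ j, (m j : ℝ) / α j := Finset.sum_nonneg fun j _ => div_nonneg (Nat.cast_nonneg _) (hα0 j).le
  have hβ0 : 0 < β := by rw [hβ]; positivity
  have hβj : ∀ j, β ≤ α j * (m j : ℝ)⁻¹ := by
    intro j
    have hmj : (0 : ℝ) < m j := by exact_mod_cast hm j
    have k1 : (m j : ℝ) / α j ≤ ∑ j, (m j : ℝ) / α j + 1 := by
      have := Finset.single_le_sum (f := fun j => (m j : ℝ) / α j) (fun j _ => div_nonneg (Nat.cast_nonneg _) (hα0 j).le) (Finset.mem_univ j)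
      linarith
    have k2 : α j * (m j : ℝ)⁻¹ = ((m j : ℝ) / α j)⁻¹ := by rw [inv_div]; rfl
    rw [k2, hβ]
    exact inv_anti₀ (div_pos hmj (hα0 j)) k1
  refine ⟨∑ j, C j ^ ((m j : ℝ)⁻¹), β, Finset.sum_nonneg fun j _ => Real.rpow_nonneg (hC0 j) _, hβ0, fun φ q ε hε hε1 hφ hφK hq => ?_⟩
  rw [Finset.sum_mul]
  refine Finset.sum_le_sum fun j _ => ?_
  have k1 := hmain j φ (q j) ε hε hε1 hφ hφK (hq j)
  calc ‖q j‖ ^ ((m j : ℝ)⁻¹) ≤ (C j * ε ^ α j) ^ ((m j : ℝ)⁻¹) := Real.rpow_le_rpow (norm_nonneg _) k1 (by positivity)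
    _ = C j ^ ((m j : ℝ)⁻¹) * ε ^ (α j * (m j : ℝ)⁻¹) := by
        rw [Real.mul_rpow (hC0 j) (Real.rpow_nonneg hε.le _), ← Real.rpow_mul hε.le]
    _ ≤ C j ^ ((m j : ℝ)⁻¹) * ε ^ β :=
        mul_le_mul_of_nonneg_left (Real.rpow_le_rpow_of_exponent_ge hε hε1 (hβj j)) (Real.rpow_nonneg (hC0 j) _)

end Pool.Agent.SR3

end
end

section

/-!
# SR3 Big: module H16, the degrees of the equations of the components may be assumed to be large

`E' i (l, a) = E i l * X a ^ κ`: the vector `vec (E' i) x` is the tensor product of `vec (E i) x` and of `w (x) = (x a ^ κ)`, which has no zeros; the quotient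
`⟨g, g'⟩ / |g|²` of a tensor product is the sum of those of the factors, and for `w` it is `κ ⟨x, v⟩ / |x|²` up to `C * fs x v`.
-/

set_option autoImplicit false

open Topology Filter Metric MvPolynomial

noncomputable section

namespace Pool.Agent.SR3

open Pool.Agent.H36.BP (EN fs wd fs_nonneg)
open Pool.Agent.H17BP (Surface IsChart)
open Pool.Agent.H14.PP (IsCone Tan)
open Pool.Agent.H17 (PN VanishesAt HolomorphicInto)
open Pool.Agent.H17EF (projVar coneE)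
open Pool.Agent.AD (SymDiff TangentTo)

variable {N k M : ℕ}

/-! ## the tensor product -/

/-- the indices of the products -/
def bigE (M N : ℕ) : Fin ((M + 1) * (N + 1) - 1 + 1) ≃ Fin (M + 1) × Fin (N + 1) :=
  (finCongr (Nat.sub_add_cancel (Nat.mul_pos (Nat.succ_pos M) (Nat.succ_pos N)))).trans finProdFinEquiv.symm

/-- the new equations -/
def bigF (κ : ℕ) (E : Fin (M + 1) → MvPolynomial (Fin (N + 1)) ℂ) (l : Fin ((M + 1) * (N + 1) - 1 + 1)) : MvPolynomial (Fin (N + 1)) ℂ :=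
  E (bigE M N l).1 * X (bigE M N l).2 ^ κ

/-- the vector of the powers of the coordinates -/
def powV (κ : ℕ) (x : EN N) : EN N := WithLp.toLp 2 fun a => x a ^ κ

/-- the derivative of `powV` -/
def powD (κ : ℕ) (x v : EN N) : EN N := WithLp.toLp 2 fun a => (κ : ℂ) * x a ^ (κ - 1) * v a

theorem bigF_eval (κ : ℕ) (E : Fin (M + 1) → MvPolynomial (Fin (N + 1)) ℂ) (l : Fin ((M + 1) * (N + 1) - 1 + 1)) (x : Fin (N + 1) → ℂ) :
    eval x (bigF κ E l) = eval x (E (bigE M N l).1) * x (bigE M N l).2 ^ κ := by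
  unfold bigF
  rw [map_mul, map_pow, eval_X]

theorem vec_bigF (κ : ℕ) (E : Fin (M + 1) → MvPolynomial (Fin (N + 1)) ℂ) (x : EN N) (l : Fin ((M + 1) * (N + 1) - 1 + 1)) :
    vec (bigF κ E) x l = vec E x (bigE M N l).1 * powV κ x (bigE M N l).2 := bigF_eval κ E l x.ofLp

theorem big_coord {M' : ℕ} (E : Fin (M' + 1) → MvPolynomial (Fin (N + 1)) ℂ) (x v : EN N) (l : Fin (M' + 1)) :
    fderiv ℂ (vec E) x v l = fderiv ℂ (fun y : EN N => eval y.ofLp (E l)) x v := by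
  have h1 : HasFDerivAt (fun y : EN N => vec E y l) ((EuclideanSpace.proj l : EN M' →L[ℂ] ℂ).comp (fderiv ℂ (vec E) x)) x :=
    (EuclideanSpace.proj l : EN M' →L[ℂ] ℂ).hasFDerivAt.comp x (snc2_diffE E x).hasFDerivAt
  exact (congrArg (fun T : EN N →L[ℂ] ℂ => T v) h1.fderiv).symm

theorem big_deriv (κ : ℕ) (E : Fin (M + 1) → MvPolynomial (Fin (N + 1)) ℂ) (x v : EN N) (l : Fin ((M + 1) * (N + 1) - 1 + 1)) :
    fderiv ℂ (vec (bigF κ E)) x v l = fderiv ℂ (vec E) x v (bigE M N l).1 * powV κ x (bigE M N l).2 +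
      vec E x (bigE M N l).1 * powD κ x v (bigE M N l).2 := by
  rw [big_coord, big_coord]
  have h1 : HasFDerivAt (fun y : EN N => eval y.ofLp (E (bigE M N l).1)) (fderiv ℂ (fun y : EN N => eval y.ofLp (E (bigE M N l).1)) x) x :=
    (snc2_diffH _ x).hasFDerivAt
  have h2 : HasFDerivAt (fun y : EN N => y (bigE M N l).2) (EuclideanSpace.proj (bigE M N l).2 : EN N →L[ℂ] ℂ) x :=
    (EuclideanSpace.proj (bigE M N l).2 : EN N →L[ℂ] ℂ).hasFDerivAt
  have h3 : HasFDerivAt (fun y : EN N => eval y.ofLp (E (bigE M N l).1) * y (bigE M N l).2 ^ κ) _ x := h1.mul (h2.pow κ)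
  have h4 : (fun y : EN N => eval y.ofLp (bigF κ E l)) = fun y : EN N => eval y.ofLp (E (bigE M N l).1) * y (bigE M N l).2 ^ κ := by
    funext y
    exact bigF_eval κ E l y.ofLp
  rw [h4, h3.fderiv]
  simp only [_root_.add_apply, _root_.smul_apply, smul_eq_mul, nsmul_eq_mul]
  have e1 : powV κ x (bigE M N l).2 = x (bigE M N l).2 ^ κ := rfl
  have e2 : powD κ x v (bigE M N l).2 = (κ : ℂ) * x (bigE M N l).2 ^ (κ - 1) * v (bigE M N l).2 := rfl
  have e3 : vec E x (bigE M N l).1 = eval x.ofLp (E (bigE M N l).1) := rfl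
  have e4 : (EuclideanSpace.proj (bigE M N l).2 : EN N →L[ℂ] ℂ) v = v (bigE M N l).2 := rfl
  rw [e1, e2, e3, e4]
  ring

/-- the inner product of tensor products -/
theorem big_sum (p q : Fin (M + 1) → ℂ) (r t : Fin (N + 1) → ℂ) :
    ∑ l, (p (bigE M N l).1 * r (bigE M N l).2) * (starRingEnd ℂ) (q (bigE M N l).1 * t (bigE M N l).2) =
      (∑ l, p l * (starRingEnd ℂ) (q l)) * ∑ a, r a * (starRingEnd ℂ) (t a) := by
  rw [Fintype.sum_equiv (bigE M N) _ (fun j => (p j.1 * r j.2) * (starRingEnd ℂ) (q j.1 * t j.2)) fun _ => rfl, Fintype.sum_prod_type, Finset.sum_mul_sum]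
  refine Finset.sum_congr rfl fun i _ => Finset.sum_congr rfl fun j _ => ?_
  rw [map_mul]
  ring

theorem big_inner {M' : ℕ} (p q : EN M') : inner ℂ q p = ∑ l, p l * (starRingEnd ℂ) (q l) := by
  rw [PiLp.inner_apply]
  exact Finset.sum_congr rfl fun l _ => RCLike.inner_apply _ _

theorem big_quot (κ : ℕ) (E : Fin (M + 1) → MvPolynomial (Fin (N + 1)) ℂ) {x : EN N} (hE : vec E x ≠ 0) (hw : powV κ x ≠ 0) (v : EN N) :
    inner ℂ (vec (bigF κ E) x) (fderiv ℂ (vec (bigF κ E)) x v) / (‖vec (bigF κ E) x‖ : ℂ) ^ 2 =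
      inner ℂ (vec E x) (fderiv ℂ (vec E) x v) / (‖vec E x‖ : ℂ) ^ 2 + inner ℂ (powV κ x) (powD κ x v) / (‖powV κ x‖ : ℂ) ^ 2 := by
  have e1 : inner ℂ (vec (bigF κ E) x) (fderiv ℂ (vec (bigF κ E)) x v) =
      inner ℂ (vec E x) (fderiv ℂ (vec E) x v) * inner ℂ (powV κ x) (powV κ x) + inner ℂ (vec E x) (vec E x) * inner ℂ (powV κ x) (powD κ x v) := by
    rw [big_inner, big_inner, big_inner, big_inner, big_inner, ← big_sum, ← big_sum, ← Finset.sum_add_distrib]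
    refine Finset.sum_congr rfl fun l _ => ?_
    rw [big_deriv, vec_bigF]
    ring
  have e2 : inner ℂ (vec (bigF κ E) x) (vec (bigF κ E) x) = inner ℂ (vec E x) (vec E x) * inner ℂ (powV κ x) (powV κ x) := by
    rw [big_inner, big_inner, big_inner, ← big_sum]
    refine Finset.sum_congr rfl fun l _ => ?_
    rw [vec_bigF]
  have e3 : ∀ {M' : ℕ} (p : EN M'), inner ℂ p p = (‖p‖ : ℂ) ^ 2 := fun p => inner_self_eq_norm_sq_to_K p
  rw [e3, e3, e3] at e2
  rw [e1, e2, e3, e3]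
  have h1 : (‖vec E x‖ : ℂ) ≠ 0 := by exact_mod_cast norm_ne_zero_iff.2 hE
  have h2 : (‖powV κ x‖ : ℂ) ≠ 0 := by exact_mod_cast norm_ne_zero_iff.2 hw
  field_simp

/-! ## the powers of the coordinates -/

theorem big_max (x : EN N) : ∃ a, ‖x‖ ≤ (N + 1) * ‖x a‖ := by
  obtain ⟨a, -, ha⟩ := Finset.exists_max_image Finset.univ (fun a => ‖x a‖) ⟨0, Finset.mem_univ _⟩
  refine ⟨a, ?_⟩
  have h1 : ‖x‖ ^ 2 ≤ ((N + 1) * ‖x a‖) ^ 2 := by
    rw [EuclideanSpace.norm_sq_eq]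
    calc ∑ i, ‖x i‖ ^ 2 ≤ ∑ _i : Fin (N + 1), ‖x a‖ ^ 2 :=
          Finset.sum_le_sum fun i hi => pow_le_pow_left₀ (norm_nonneg _) (ha i hi) 2
      _ = (N + 1) * ‖x a‖ ^ 2 := by
          rw [Finset.sum_const, Finset.card_univ, Fintype.card_fin, nsmul_eq_mul]
          push_cast
          ring
      _ ≤ (N + 1) ^ 2 * ‖x a‖ ^ 2 := by
          refine mul_le_mul_of_nonneg_right ?_ (sq_nonneg _)
          have h2 : (0 : ℝ) ≤ N := Nat.cast_nonneg N
          nlinarith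
      _ = _ := by ring
  exact (pow_le_pow_iff_left₀ (norm_nonneg _) (by positivity) two_ne_zero).1 h1

theorem powV_ge (κ : ℕ) (x : EN N) : ‖x‖ ^ κ ≤ (N + 1) ^ κ * ‖powV κ x‖ := by
  obtain ⟨a, ha⟩ := big_max x
  have h1 : ‖x a‖ ^ κ ≤ ‖powV κ x‖ := by
    have h2 := PiLp.norm_apply_le (powV κ x) a
    rwa [show powV κ x a = x a ^ κ from rfl, norm_pow] at h2
  calc ‖x‖ ^ κ ≤ ((N + 1) * ‖x a‖) ^ κ := pow_le_pow_left₀ (norm_nonneg _) ha κ
    _ = (N + 1) ^ κ * ‖x a‖ ^ κ := mul_pow _ _ _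
    _ ≤ _ := mul_le_mul_of_nonneg_left h1 (by positivity)

theorem powV_ne (κ : ℕ) {x : EN N} (hx : x ≠ 0) : powV κ x ≠ 0 := by
  intro h
  have h1 := powV_ge κ x
  rw [h, norm_zero, mul_zero] at h1
  exact absurd h1 (not_le.2 (pow_pos (norm_pos_iff.2 hx) κ))

theorem powD_self (κ : ℕ) (hκ : 1 ≤ κ) (x : EN N) : powD κ x x = (κ : ℂ) • powV κ x := by
  ext a
  show (κ : ℂ) * x a ^ (κ - 1) * x a = (κ : ℂ) • (x a ^ κ)
  rw [smul_eq_mul, mul_assoc, pow_sub_one_mul (by omega)]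

theorem powD_add (κ : ℕ) (x v w : EN N) : powD κ x (v + w) = powD κ x v + powD κ x w := by
  ext a
  show (κ : ℂ) * x a ^ (κ - 1) * (v a + w a) = (κ : ℂ) * x a ^ (κ - 1) * v a + (κ : ℂ) * x a ^ (κ - 1) * w a
  ring

theorem powD_smul (κ : ℕ) (x v : EN N) (t : ℂ) : powD κ x (t • v) = t • powD κ x v := by
  ext a
  show (κ : ℂ) * x a ^ (κ - 1) * (t * v a) = t * ((κ : ℂ) * x a ^ (κ - 1) * v a)
  ring

theorem powD_le (κ : ℕ) (x v : EN N) : ‖powD κ x v‖ ≤ κ * ‖x‖ ^ (κ - 1) * ‖v‖ := by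
  have h1 : ‖powD κ x v‖ ^ 2 ≤ (κ * ‖x‖ ^ (κ - 1) * ‖v‖) ^ 2 := by
    rw [EuclideanSpace.norm_sq_eq, mul_pow _ ‖v‖, EuclideanSpace.norm_sq_eq v, Finset.mul_sum]
    refine Finset.sum_le_sum fun a _ => ?_
    rw [← mul_pow]
    refine pow_le_pow_left₀ (norm_nonneg _) ?_ 2
    rw [show powD κ x v a = (κ : ℂ) * x a ^ (κ - 1) * v a from rfl, norm_mul, norm_mul, norm_pow, Complex.norm_natCast]
    exact mul_le_mul_of_nonneg_right (mul_le_mul_of_nonneg_left (pow_le_pow_left₀ (norm_nonneg _) (PiLp.norm_apply_le x a) _) (Nat.cast_nonneg κ)) (norm_nonneg _)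
  exact (pow_le_pow_iff_left₀ (norm_nonneg _) (by positivity) two_ne_zero).1 h1

/-- the quotient of `powV` -/
theorem pow_quot (κ : ℕ) (hκ : 1 ≤ κ) {x : EN N} (hx : x ≠ 0) (v : EN N) :
    ‖inner ℂ (powV κ x) (powD κ x v) / (‖powV κ x‖ : ℂ) ^ 2 - (κ : ℂ) * (inner ℂ x v / (‖x‖ : ℂ) ^ 2)‖ ≤ κ * (N + 1) ^ κ * fs x v := by
  obtain ⟨α, hα⟩ : ∃ α : ℂ, α = inner ℂ x v / (‖x‖ : ℂ) ^ 2 := ⟨_, rfl⟩
  obtain ⟨v', hv'⟩ : ∃ v' : EN N, v' = v - α • x := ⟨_, rfl⟩
  have hx' : 0 < ‖x‖ := norm_pos_iff.2 hx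
  have hw := powV_ne κ hx
  have hw' : (‖powV κ x‖ : ℂ) ≠ 0 := by exact_mod_cast norm_ne_zero_iff.2 hw
  have h1 : powD κ x v = α • ((κ : ℂ) • powV κ x) + powD κ x v' := by
    rw [← powD_self κ hκ, ← powD_smul, ← powD_add, hv', add_sub_cancel]
  have h2 : inner ℂ (powV κ x) (powD κ x v) / (‖powV κ x‖ : ℂ) ^ 2 - (κ : ℂ) * (inner ℂ x v / (‖x‖ : ℂ) ^ 2) =
      inner ℂ (powV κ x) (powD κ x v') / (‖powV κ x‖ : ℂ) ^ 2 := by
    have h3 : inner ℂ (powV κ x) (powV κ x) = (‖powV κ x‖ : ℂ) ^ 2 := inner_self_eq_norm_sq_to_K _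
    rw [← hα, h1, inner_add_right, inner_smul_right, inner_smul_right, h3]
    field_simp
    ring
  rw [h2]
  refine snc2_quot_le hw ?_
  have h3 : ‖v'‖ = ‖x‖ * fs x v := by
    have h4 := snc2_wd hx v
    rw [← hα, ← hv'] at h4
    unfold Pool.Agent.H36.BP.fs
    rw [← h4]
    field_simp
  have h4 : 0 ≤ fs x v := fs_nonneg x v
  calc ‖powD κ x v'‖ ≤ κ * ‖x‖ ^ (κ - 1) * ‖v'‖ := powD_le κ x v'
    _ = κ * fs x v * ‖x‖ ^ κ := by
        rw [h3, ← pow_sub_one_mul (show κ ≠ 0 by omega) ‖x‖]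
        ring
    _ ≤ κ * fs x v * ((N + 1) ^ κ * ‖powV κ x‖) := mul_le_mul_of_nonneg_left (powV_ge κ x) (by positivity)
    _ = _ := by ring

theorem ellE_big (κ : ℕ) (hκ : 1 ≤ κ) (E : Fin (M + 1) → MvPolynomial (Fin (N + 1)) ℂ) (c : ℕ) {x : EN N} (hx : x ≠ 0) (hE : vec E x ≠ 0) (v : EN N) :
    ‖ellE E c x v‖ ≤ ‖ellE (bigF κ E) (c + κ) x v‖ + κ * (N + 1) ^ κ * fs x v := by
  have h1 : ellE E c x v = ellE (bigF κ E) (c + κ) x v -
      (inner ℂ (powV κ x) (powD κ x v) / (‖powV κ x‖ : ℂ) ^ 2 - (κ : ℂ) * (inner ℂ x v / (‖x‖ : ℂ) ^ 2)) := by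
    unfold ellE
    rw [big_quot κ E hE (powV_ne κ hx) v]
    push_cast
    ring
  rw [h1]
  exact (norm_sub_le _ _).trans (add_le_add le_rfl (pow_quot κ hκ hx v))

/-! ## the hypotheses -/

variable {P : Ideal (MvPolynomial (Fin (N + 1)) ℂ)} {H : MvPolynomial (Fin (N + 1)) ℂ} {h : ℕ} {E : Fin k → Fin (M + 1) → MvPolynomial (Fin (N + 1)) ℂ}
  {c b : Fin k → ℕ}

theorem snc_big (κ : ℕ) (hs : Snc P H E b) : Snc P H (fun i => bigF κ (E i)) b where
  pos := hs.pos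
  chart := by
    intro x hx
    obtain ⟨σ, τ, s, e, u, h1, h2, h3, h4, h5, h6, h7⟩ := hs.chart x hx
    have hx0 : x ≠ 0 := by
      rw [← h2]
      exact h1.ne
    refine ⟨σ, τ, s, fun i y => WithLp.toLp 2 fun l => e i y (bigE M N l).1 * powV κ (σ y) (bigE M N l).2, u, h1, h2, h3, fun i => ⟨?_, ?_, ?_⟩, h5, h6, h7⟩
    · have h8 : AnalyticAt ℂ (fun y => fun l : Fin ((M + 1) * (N + 1) - 1 + 1) => e i y (bigE M N l).1 * powV κ (σ y) (bigE M N l).2) 0 := by
        refine AnalyticAt.pi fun l => ?_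
        have h9 : AnalyticAt ℂ (fun y => e i y (bigE M N l).1) 0 := ((EuclideanSpace.proj (bigE M N l).1 : EN M →L[ℂ] ℂ).analyticAt _).comp (h4 i).1
        have h10 : AnalyticAt ℂ (fun y => σ y (bigE M N l).2) 0 := ((EuclideanSpace.proj (bigE M N l).2 : EN N →L[ℂ] ℂ).analyticAt _).comp h1.σ_an
        exact h9.mul (h10.pow κ)
      exact (((PiLp.continuousLinearEquiv 2 ℂ fun _ : Fin ((M + 1) * (N + 1) - 1 + 1) => ℂ).symm :
        (Fin ((M + 1) * (N + 1) - 1 + 1) → ℂ) →L[ℂ] EN ((M + 1) * (N + 1) - 1)).analyticAt _).comp h8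
    · intro h8
      have h9 : ∃ l, e i 0 l ≠ 0 := by
        by_contra h10
        push Not at h10
        exact (h4 i).2.1 (by ext l; exact h10 l)
      have h10 : ∃ a, x a ≠ 0 := by
        by_contra h11
        push Not at h11
        exact hx0 (by ext a; exact h11 a)
      obtain ⟨l, hl⟩ := h9
      obtain ⟨a, ha⟩ := h10
      have h11 := congrArg (fun p : EN ((M + 1) * (N + 1) - 1) => p ((bigE M N).symm (l, a))) h8
      have h12 : e i 0 l * x a ^ κ = 0 := by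
        have h13 : e i 0 (bigE M N ((bigE M N).symm (l, a))).1 * (σ 0) (bigE M N ((bigE M N).symm (l, a))).2 ^ κ = 0 := h11
        rwa [Equiv.apply_symm_apply, h2] at h13
      exact (mul_ne_zero hl (pow_ne_zero κ ha)) h12
    · filter_upwards [(h4 i).2.2] with y hy
      ext l
      rw [vec_bigF, hy]
      show co (s i) y * e i y (bigE M N l).1 * powV κ (σ y) (bigE M N l).2 = co (s i) y * (e i y (bigE M N l).1 * powV κ (σ y) (bigE M N l).2)
      ring

theorem vanishes_big (κ : ℕ) (E : Fin (M + 1) → MvPolynomial (Fin (N + 1)) ℂ) (p : PN N) : (∀ l, VanishesAt (bigF κ E l) p) ↔ ∀ l, VanishesAt (E l) p := by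
  constructor
  · intro h l
    have h10 : ∃ a, p.rep a ≠ 0 := by
      by_contra h11
      push Not at h11
      exact p.rep_nonzero (funext h11)
    obtain ⟨a, ha⟩ := h10
    have h1 := h ((bigE M N).symm (l, a))
    unfold VanishesAt at h1 ⊢
    rw [bigF_eval, Equiv.apply_symm_apply] at h1
    exact (mul_eq_zero.1 h1).resolve_right (pow_ne_zero κ ha)
  · intro h l
    have h1 := h (bigE M N l).1
    unfold VanishesAt at h1 ⊢
    rw [bigF_eval, h1, zero_mul]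

theorem noBdy_big (κ : ℕ) (hB : NoBdyCurve P E) : NoBdyCurve P (fun i => bigF κ (E i)) := by
  intro i f hf h1 h2
  refine hB i f hf (fun z => ⟨(h1 z).1, (vanishes_big κ (E i) (f z)).1 (h1 z).2⟩) fun i' hi' z => ?_
  by_contra h3
  push Not at h3
  obtain ⟨l, hl⟩ := h2 i' hi' z
  exact hl ((vanishes_big κ (E i') (f z)).2 h3 l)

theorem logPoles_big (κ : ℕ) (hκ : 1 ≤ κ) (hs : Snc P H E b) {m : ℕ} {θ : SymDiff (oc P H) m} (hθ : HasLogPoles E c θ) :
    HasLogPoles (fun i => bigF κ (E i)) (fun i => c i + κ) θ := by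
  obtain ⟨C, hC, hle⟩ := hθ
  refine ⟨C * (1 + k * (κ * (N + 1) ^ κ)) ^ m, by positivity, fun x hx v hv => (hle x hx v hv).trans ?_⟩
  have hx0 : x ≠ 0 := by
    obtain ⟨σ, τ, s, e, u, h1, h2, -⟩ := hs.chart x hx.1
    rw [← h2]
    exact h1.ne
  have h4 : 0 ≤ fs x v := fs_nonneg x v
  have h1 : logLen E c x v ≤ (1 + k * (κ * (N + 1) ^ κ)) * logLen (fun i => bigF κ (E i)) (fun i => c i + κ) x v := by
    have h2 : ∑ i, ‖ellE (E i) (c i) x v‖ ≤ ∑ i, ‖ellE (bigF κ (E i)) (c i + κ) x v‖ + k * (κ * (N + 1) ^ κ) * fs x v := by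
      calc ∑ i, ‖ellE (E i) (c i) x v‖ ≤ ∑ i, (‖ellE (bigF κ (E i)) (c i + κ) x v‖ + κ * (N + 1) ^ κ * fs x v) :=
            Finset.sum_le_sum fun i _ => ellE_big κ hκ (E i) (c i) hx0 (snc_ne hs i hx) v
        _ = _ := by
            rw [Finset.sum_add_distrib, Finset.sum_const, Finset.card_univ, Fintype.card_fin, nsmul_eq_mul]
            ring
    have h3 : 0 ≤ ∑ i, ‖ellE (bigF κ (E i)) (c i + κ) x v‖ := Finset.sum_nonneg fun _ _ => norm_nonneg _
    have h5 : (0 : ℝ) ≤ k * (κ * (N + 1) ^ κ) := by positivity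
    unfold logLen
    nlinarith [mul_nonneg h5 h3]
  rw [mul_assoc, ← mul_pow]
  exact mul_le_mul_of_nonneg_left (pow_le_pow_left₀ (add_nonneg (fs_nonneg x v) (Finset.sum_nonneg fun _ _ => norm_nonneg _)) h1 m) hC

/-- MODULE H16 (Big.lean): the degrees `c i` may be assumed to be large -/
theorem exists_big (hX : Surface (coneE P)) (hc : IsCone (coneE P)) (hH : H.IsHomogeneous h) (hE : ∀ i l, (E i l).IsHomogeneous (c i))
    (hs : Snc P H E b) (hB : NoBdyCurve P E) {s : ℕ} {m : Fin s → ℕ} (θ : ∀ j, SymDiff (oc P H) (m j)) (hθ : ∀ j, HasLogPoles E c (θ j)) :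
    ∃ (M' : ℕ) (E' : Fin k → Fin (M' + 1) → MvPolynomial (Fin (N + 1)) ℂ) (c' : Fin k → ℕ), (∀ i l, (E' i l).IsHomogeneous (c' i)) ∧
      (∀ i, h + 1 ≤ c' i) ∧ Snc P H E' b ∧ NoBdyCurve P E' ∧ ∀ j, HasLogPoles E' c' (θ j) :=
  ⟨(M + 1) * (N + 1) - 1, fun i => bigF (h + 1) (E i), fun i => c i + (h + 1), fun i l => (hE i _).mul ((isHomogeneous_X_pow _ _)),
    fun i => Nat.le_add_left _ _, snc_big _ hs, noBdy_big _ hB, fun j => logPoles_big _ (Nat.le_add_left _ _) hs (hθ j)⟩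

end Pool.Agent.SR3

end
end
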