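import Pool.Agent.H43.TL2.M144
import Pool.Agent.H43.TL2.M153
import Pool.Agent.H43.TL2.M156

/-! The parts of this file: H15.V.Liou, SDA.Oo_1, SDA.Q1, SR3.PolZ. -/

section

/-!
# V Liou: differentials of bounded weight are constant along entire curves of order two

`F` is an entire curve (without zeros) with `mean log ‖F‖ ≤ A (1 + r²)` over the circles of radius `r`, and `s` is an entire function with
`‖s‖ ≤ C fs (F, F') ^ m`.  Then `s` is constant.

If not, then the averages of `‖s‖ ^ (2/m)` over large circles are large (`growth`), so the averages of `fs²` over finitely many rotations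
are large on `t₁ ≤ ‖z‖ ≤ r` (`riemann`); the product of the functions `‖F (rot z)‖ ^ (1/N)` is compared with the radial function
`β z = b (‖z‖² - t₁² - 2 t₁² log (‖z‖ / t₁))` (`barrier`).
-/

set_option autoImplicit false

open Topology Filter Metric

namespace Pool.Agent.H15.V

attribute [-instance] ProperSMul.toContinuousSMul

open Pool.Agent.H36.BP (EN fs wd Sub)

variable {N : ℕ}

theorem Sub_prod {ι : Type} (S : Finset ι) {u : ι → ℂ → ℝ} {z₀ : ℂ} {c : ι → ℝ} (h : ∀ j ∈ S, Sub (u j) z₀ (c j)) :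
    Sub (fun z => ∏ j ∈ S, u j z) z₀ (∑ j ∈ S, c j) := by
  classical
  induction S using Finset.induction_on with
  | empty =>
    refine (Pool.Agent.H36.BP.Sub.const one_pos z₀).congr (Filter.Eventually.of_forall fun z => ?_)
    simp
  | insert a S ha ih =>
    rw [Finset.sum_insert ha]
    refine ((h a (Finset.mem_insert_self _ _)).mul (ih fun j hj => h j (Finset.mem_insert_of_mem hj))).congr
      (Filter.Eventually.of_forall fun z => ?_)
    rw [Finset.prod_insert ha]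

end Pool.Agent.H15.V

end

section

/-!
# SDA Oo: order two and the growth of the normalised lift
-/

set_option autoImplicit false

open Topology Filter Metric

noncomputable section

namespace Pool.Agent.SDA

open Pool.Agent.H36.BP (EN fs wd Sub OrdTwo)
open Pool.Agent.H14.PP (IsCone Tan)

variable {N : ℕ} {ι : Type} [Fintype ι] {X K T : Set (EN N)} {P : ι → EN N → ℂ} {d : ι → ℕ}

/-- the product of the equations on a lift `G` with zeros -/
private theorem oo_prod (h : AffOpen X K P d) {x y : EN N} (hx : ∏ i, P i x = 1) (hy1 : ‖y‖ ≤ 1) (hxy : y = 0 ∨ ∃ c : ℂ, c ≠ 0 ∧ x = c • y) :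
    ‖∏ i, P i y‖ ≤ ‖x‖ ^ (-((∑ i, d i : ℕ) : ℝ)) ∧ (y ≠ 0 → ‖∏ i, P i y‖ = (‖y‖ / ‖x‖) ^ (∑ i, d i : ℕ)) := by
  obtain ⟨i₀⟩ := h.ne
  rcases hxy with hy | ⟨c, hc, hxy⟩
  · refine ⟨?_, fun h0 => absurd hy h0⟩
    have h0 : P i₀ y = 0 := by
      have := h.smul i₀ 0 y
      rw [zero_smul, zero_pow (Nat.one_le_iff_ne_zero.mp (h.pos i₀)), zero_mul] at this
      rw [hy, this]
    rw [Finset.prod_eq_zero (Finset.mem_univ i₀) h0, norm_zero]
    positivity
  · have h1 : c ^ (∑ i, d i) * ∏ i, P i y = 1 := by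
      rw [← Finset.prod_pow_eq_pow_sum, ← Finset.prod_mul_distrib, ← hx]
      exact Finset.prod_congr rfl fun i _ => by rw [hxy, h.smul]
    have h2 : ‖c‖ ^ (∑ i, d i) * ‖∏ i, P i y‖ = 1 := by rw [← norm_pow, ← norm_mul, h1, norm_one]
    have hc0 : 0 < ‖c‖ := norm_pos_iff.mpr hc
    have h3 : ‖∏ i, P i y‖ = (‖c‖ ^ (∑ i, d i))⁻¹ := eq_inv_of_mul_eq_one_right h2
    have hx0 : x ≠ 0 := by
      intro h0
      have h4 : P i₀ x = 0 := by
        have := h.smul i₀ 0 x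
        rw [zero_smul, zero_pow (Nat.one_le_iff_ne_zero.mp (h.pos i₀)), zero_mul] at this
        rw [h0, this]
      rw [Finset.prod_eq_zero (Finset.mem_univ i₀) h4] at hx
      exact zero_ne_one hx
    have hxn : 0 < ‖x‖ := norm_pos_iff.mpr hx0
    have h4 : ‖x‖ = ‖c‖ * ‖y‖ := by rw [hxy, norm_smul]
    refine ⟨?_, fun hy0 => ?_⟩
    · rw [h3, Real.rpow_neg hxn.le, Real.rpow_natCast]
      apply inv_anti₀ (pow_pos hxn _)
      apply pow_le_pow_left₀ hxn.le
      rw [h4]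
      exact mul_le_of_le_one_right hc0.le hy1
    · have hyn : 0 < ‖y‖ := norm_pos_iff.mpr hy0
      rw [h3, h4, ← inv_pow]
      congr 1
      field_simp

/-- order two, growth of the normalised lift -/
theorem growth_of_ordTwo (hX : IsCone X) (h : AffOpen X K P d) {F : ℂ → EN N} (hF : Differentiable ℂ F) (hK : ∀ z, F z ∈ K) (hN : Nm P F)
    (ho : OrdTwo F) : ∃ A : ℝ, 0 ≤ A ∧ ∀ z, Real.log ‖F z‖ ≤ A * (1 + ‖z‖ ^ 2) := by
  obtain ⟨C₀, ho⟩ := ho
  obtain ⟨c₁, hc₁, hc₁1, hlow⟩ := norm_lower h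
  set D : ℕ := ∑ i, d i with hDdef
  have hD : 0 < D := by
    obtain ⟨i₀⟩ := h.ne
    exact lt_of_lt_of_le (h.pos i₀) (Finset.single_le_sum (fun i _ => Nat.zero_le (d i)) (Finset.mem_univ i₀))
  have hDR : (0 : ℝ) < D := by exact_mod_cast hD
  have hlF : ∀ z, c₁ ≤ ‖F z‖ := fun z => hlow _ (hN z)
  have hFp : ∀ z, 0 < ‖F z‖ := fun z => lt_of_lt_of_le hc₁ (hlF z)
  refine ⟨3 * (|Real.log c₁| + 33 * |C₀| + |Real.log ‖F 0‖|), by positivity, fun z => ?_⟩
  have hz := norm_nonneg z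
  set r : ℝ := 4 * (‖z‖ + 1) with hr
  have hr0 : 0 < r := by positivity
  obtain ⟨G, hG1, hG2, hG3, hG4⟩ := ho r hr0
  set R : ℝ := r / 2 with hR
  have hR0 : 0 < R := by positivity
  have hsub : closedBall (0 : ℂ) R ⊆ ball 0 r := closedBall_subset_ball (by rw [hR]; linarith)
  have hPd : ∀ i, Differentiable ℂ (P i) := fun i x => (h.an i x).differentiableAt
  have hq : DifferentiableOn ℂ (fun w => ∏ i, P i (G w)) (ball 0 r) := by
    have : ∀ i ∈ (Finset.univ : Finset ι), DifferentiableOn ℂ (fun w => P i (G w)) (ball 0 r) := fun i _ =>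
      (hPd i).comp_differentiableOn hG1
    simpa using DifferentiableOn.fun_finsetProd this
  have hrel : ∀ w ∈ ball (0 : ℂ) r, ‖∏ i, P i (G w)‖ ≤ ‖F w‖ ^ (-(D : ℝ)) ∧
      (G w ≠ 0 → ‖∏ i, P i (G w)‖ = (‖G w‖ / ‖F w‖) ^ D) := fun w hw =>
    oo_prod h (hN w) (hG2 w hw) (hG4 w hw)
  have hG0 : G 0 ≠ 0 := by
    intro h0
    rw [h0, norm_zero] at hG3
    exact absurd hG3 (not_le.mpr (Real.exp_pos _))
  have h0r : (0 : ℂ) ∈ ball (0 : ℂ) r := mem_ball_self hr0
  have hF' : ∀ w, ‖((c₁⁻¹ : ℝ) : ℂ) • F w‖ = c₁⁻¹ * ‖F w‖ := fun w => by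
    rw [norm_smul, Complex.norm_real, Real.norm_of_nonneg (inv_nonneg.mpr hc₁.le)]
  have hH := harnack (c := 0) (z₀ := 0) (R := R) (a := D * |Real.log c₁|) (b := D * (C₀ * (1 + r ^ 2) + Real.log ‖F 0‖)) (c₀ := (D : ℝ)) hDR
    (mem_ball_self hR0) (F := fun w => ((c₁⁻¹ : ℝ) : ℂ) • F w) (hF.fun_const_smul _)
    (fun w => by
      rw [hF', inv_mul_eq_div, one_le_div hc₁]
      exact hlF w)
    (v := fun w => ‖∏ i, P i (G w)‖) ((hq.continuousOn.mono hsub).norm.upperSemicontinuousOn) (fun w _ => norm_nonneg _)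
    (fun w hw hw0 => Sub.of_holo (hq.analyticAt (isOpen_ball.mem_nhds (hsub (ball_subset_closedBall hw)))) (norm_pos_iff.mp hw0))
    (fun w hw => by
      rw [hF', Real.mul_rpow (inv_nonneg.mpr hc₁.le) (norm_nonneg _), ← mul_assoc]
      refine (hrel w (hsub hw)).1.trans ?_
      refine le_mul_of_one_le_left (Real.rpow_nonneg (norm_nonneg _) _) ?_
      have h1 : c₁⁻¹ ^ (-(D : ℝ)) = Real.exp (D * Real.log c₁) := by
        rw [Real.rpow_def_of_pos (inv_pos.mpr hc₁), Real.log_inv]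
        congr 1; ring
      rw [h1, ← Real.exp_add]
      apply Real.one_le_exp
      have := neg_abs_le (Real.log c₁)
      nlinarith)
    (by
      rw [(hrel 0 h0r).2 hG0]
      have h1 : Real.exp (-(C₀ * (1 + r ^ 2)) - Real.log ‖F 0‖) ≤ ‖G 0‖ / ‖F 0‖ := by
        rw [Real.exp_sub, Real.exp_log (hFp 0)]
        exact div_le_div_of_nonneg_right hG3 (hFp 0).le
      calc Real.exp (-(D * (C₀ * (1 + r ^ 2) + Real.log ‖F 0‖))) = Real.exp (-(C₀ * (1 + r ^ 2)) - Real.log ‖F 0‖) ^ D := by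
            rw [← Real.exp_nat_mul]; congr 1; ring
        _ ≤ _ := pow_le_pow_left₀ (Real.exp_pos _).le h1 _)
    z (by
      rw [mem_closedBall, dist_zero_right, hR, hr]
      linarith)
  rw [hF', sub_zero, norm_zero, add_zero, sub_zero, div_self hR0.ne', mul_one, ← mul_add,
    Real.log_mul (inv_ne_zero hc₁.ne') (hFp z).ne', Real.log_inv] at hH
  have hH2 : -Real.log c₁ + Real.log ‖F z‖ ≤ 3 * (|Real.log c₁| + (C₀ * (1 + r ^ 2) + Real.log ‖F 0‖)) := by
    have : (D : ℝ) * (-Real.log c₁ + Real.log ‖F z‖) ≤ D * (3 * (|Real.log c₁| + (C₀ * (1 + r ^ 2) + Real.log ‖F 0‖))) := by linarith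
    exact le_of_mul_le_mul_left this hDR
  have hlc : Real.log c₁ ≤ 0 := Real.log_nonpos hc₁.le hc₁1
  have h5 : C₀ * (1 + r ^ 2) ≤ 33 * |C₀| * (1 + ‖z‖ ^ 2) := by
    have h6 : 1 + r ^ 2 ≤ 33 * (1 + ‖z‖ ^ 2) := by
      rw [hr]; nlinarith [sq_nonneg (‖z‖ - 1)]
    calc C₀ * (1 + r ^ 2) ≤ |C₀| * (1 + r ^ 2) := mul_le_mul_of_nonneg_right (le_abs_self _) (by positivity)
      _ ≤ |C₀| * (33 * (1 + ‖z‖ ^ 2)) := mul_le_mul_of_nonneg_left h6 (abs_nonneg _)
      _ = _ := by ring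
  have h7 : |Real.log c₁| ≤ |Real.log c₁| * (1 + ‖z‖ ^ 2) := le_mul_of_one_le_right (abs_nonneg _) (by nlinarith [sq_nonneg ‖z‖])
  have h8 : Real.log ‖F 0‖ ≤ |Real.log ‖F 0‖| * (1 + ‖z‖ ^ 2) :=
    (le_abs_self _).trans (le_mul_of_one_le_right (abs_nonneg _) (by nlinarith [sq_nonneg ‖z‖]))
  calc Real.log ‖F z‖ ≤ 3 * (|Real.log c₁| + (C₀ * (1 + r ^ 2) + Real.log ‖F 0‖)) := by linarith
    _ ≤ 3 * (|Real.log c₁| * (1 + ‖z‖ ^ 2) + (33 * |C₀| * (1 + ‖z‖ ^ 2) + |Real.log ‖F 0‖| * (1 + ‖z‖ ^ 2))) := by linarith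
    _ = _ := by ring

end Pool.Agent.SDA

end
end

section

/-!
# SDA Q1: a mean value inequality

`φ` is continuous on a disc of radius `R` with `0 ≤ φ ≤ B` and `Lap φ ≥ 4 a ‖q‖ ^ (2 / m)`, `q` entire.  Then `‖q z₀‖ ^ (2 / m) ≤ B / (a R ^ 2)`.
The average of `φ` over many rotations around the centre is compared with `b ‖z - z₀‖ ^ 2`.
-/

set_option autoImplicit false

open Topology Filter Metric

noncomputable section

namespace Pool.Agent.SDA

open Pool.Agent.H36.BP (EN fs wd Sub)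
open Pool.Agent.H15.V (rot norm_rot riemann Sub_prod)

/-- `Sub` along an isometric change of the parameter -/
theorem Sub_rot {u : ℂ → ℝ} {z₀ ρ : ℂ} (hρ : ‖ρ‖ = 1) {w₀ : ℂ} {c : ℝ} (h : Sub u (z₀ + ρ * w₀) c) :
    Sub (fun w => u (z₀ + ρ * w)) w₀ c := by
  refine ⟨h.1, fun c' hc' => ?_⟩
  obtain ⟨f, hf, hf0, hfe⟩ := h.2 c' hc'
  have haff : AnalyticAt ℂ (fun w : ℂ => z₀ + ρ * w) w₀ := by fun_prop
  refine ⟨fun w => f (z₀ + ρ * w), ?_, hf0, ?_⟩
  · exact hf.comp_of_eq haff rfl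
  · have h1 : Tendsto (fun w : ℂ => z₀ + ρ * w) (𝓝 w₀) (𝓝 (z₀ + ρ * w₀)) := haff.continuousAt
    filter_upwards [h1.eventually hfe] with w hw
    have h2 : ‖z₀ + ρ * w - (z₀ + ρ * w₀)‖ = ‖w - w₀‖ := by
      rw [add_sub_add_left_eq_sub, ← mul_sub, norm_mul, hρ, one_mul]
    rwa [h2] at hw

/-- MODULE Q1: the mean value inequality -/
theorem mean_bound {q : ℂ → ℂ} (hq : Differentiable ℂ q) {m : ℕ} (hm : 1 ≤ m) {z₀ : ℂ} {R a B : ℝ} (hR : 0 < R) (ha : 0 < a) {φ : ℂ → ℝ}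
    (hφ : ContinuousOn φ (closedBall z₀ R)) (hs : ∀ z ∈ ball z₀ R, Sub (fun w => Real.exp (φ w)) z (a * ‖q z‖ ^ ((2 : ℝ) / m)))
    (hB : ∀ z ∈ closedBall z₀ R, 0 ≤ φ z ∧ φ z ≤ B) : ‖q z₀‖ ^ ((2 : ℝ) / m) ≤ 4 * B / (a * R ^ 2) := by
  have hm0 : (0 : ℝ) < m := by exact_mod_cast hm
  obtain ⟨p, hp⟩ : ∃ p : ℝ, p = (2 : ℝ) / m := ⟨_, rfl⟩
  have hp0 : 0 < p := by rw [hp]; positivity
  rw [← hp] at hs ⊢
  have hB0 : 0 ≤ B := (hB z₀ (mem_closedBall_self hR.le)).1.trans (hB z₀ (mem_closedBall_self hR.le)).2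
  have hcq : Continuous fun z => ‖q (z₀ + z)‖ ^ p :=
    ((hq.continuous.comp (continuous_const.add continuous_id)).norm).rpow_const fun z => Or.inr hp0.le
  -- the value at the centre is at most the mean
  have hmean : ∀ z : ℂ, ‖q z₀‖ ^ p ≤ Real.circleAverage (fun z => ‖q (z₀ + z)‖ ^ p) 0 ‖z‖ := by
    intro z
    rcases eq_or_ne z 0 with rfl | hz
    · rw [norm_zero, Real.circleAverage_zero, add_zero]
    · have h1 := Pool.Agent.H22.W.rpow_le_avg (h := fun z => q (z₀ + z)) (c := 0) (r := ‖z‖) (p := p) (norm_pos_iff.2 hz) hp0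
        (fun x _ => (hq.comp ((differentiable_const z₀).add differentiable_id)).analyticAt x)
      simpa using h1
  have key : ∀ δ : ℝ, 0 < δ → ‖q z₀‖ ^ p ≤ B / (a * R ^ 2) + 2 * δ := by
    intro δ hδ
    obtain ⟨n, hn, hnr⟩ := riemann hcq hR hδ
    have hn0 : (0 : ℝ) < n := by exact_mod_cast hn
    by_contra hcon
    push Not at hcon
    obtain ⟨b, hb⟩ : ∃ b : ℝ, b = a * (‖q z₀‖ ^ p - 2 * δ) := ⟨_, rfl⟩
    obtain ⟨u, hu⟩ : ∃ u : ℂ → ℝ, ∀ z, u z = (∏ j ∈ Finset.range n, Real.exp (φ (z₀ + rot n j * z)) ^ ((n : ℝ)⁻¹)) *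
        Real.exp (-b * ‖z‖ ^ 2) := ⟨_, fun _ => rfl⟩
    have hmemc : ∀ z ∈ closedBall (0 : ℂ) R, ∀ j, z₀ + rot n j * z ∈ closedBall z₀ R := by
      intro z hz j
      rw [mem_closedBall_zero_iff] at hz
      rw [mem_closedBall_iff_norm, add_sub_cancel_left, norm_mul, norm_rot, one_mul]
      exact hz
    have hmemb : ∀ z ∈ ball (0 : ℂ) R, ∀ j, z₀ + rot n j * z ∈ ball z₀ R := by
      intro z hz j
      rw [mem_ball_zero_iff] at hz
      rw [mem_ball_iff_norm, add_sub_cancel_left, norm_mul, norm_rot, one_mul]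
      exact hz
    have hulog : ∀ z, u z = Real.exp ((n : ℝ)⁻¹ * ∑ j ∈ Finset.range n, φ (z₀ + rot n j * z) - b * ‖z‖ ^ 2) := by
      intro z
      rw [hu]
      have h1 : ∏ j ∈ Finset.range n, Real.exp (φ (z₀ + rot n j * z)) ^ ((n : ℝ)⁻¹) =
          Real.exp ((n : ℝ)⁻¹ * ∑ j ∈ Finset.range n, φ (z₀ + rot n j * z)) := by
        rw [Finset.mul_sum, Real.exp_sum]
        refine Finset.prod_congr rfl fun j _ => ?_
        rw [← Real.exp_mul, mul_comm]
      rw [h1, ← Real.exp_add]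
      congr 1
      ring
    have huc : ContinuousOn u (closedBall 0 R) := by
      have e : u = fun z => Real.exp ((n : ℝ)⁻¹ * ∑ j ∈ Finset.range n, φ (z₀ + rot n j * z) - b * ‖z‖ ^ 2) := funext hulog
      rw [e]
      refine Real.continuous_exp.comp_continuousOn (ContinuousOn.sub (continuousOn_const.mul
        (continuousOn_finsetSum _ fun j _ => hφ.comp (by fun_prop) fun z hz => hmemc z hz j)) ?_)
      exact (continuous_const.mul (continuous_norm.pow 2)).continuousOn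
    have hsub : ∀ z ∈ ball (0 : ℂ) R, 0 < u z → ∃ c, 0 < c ∧ Sub u z c := by
      intro z₁ hz₁ _
      have hj : ∀ j ∈ Finset.range n, Sub (fun z => Real.exp (φ (z₀ + rot n j * z)) ^ ((n : ℝ)⁻¹)) z₁
          ((n : ℝ)⁻¹ * (a * ‖q (z₀ + rot n j * z₁)‖ ^ p)) := by
        intro j _
        exact (Sub_rot (norm_rot n j) (hs _ (hmemb z₁ hz₁ j))).rpow (inv_nonneg.2 hn0.le)
      have h1 := Sub_prod (Finset.range n) hj
      have h2 : Sub (fun z : ℂ => Real.exp (-b * ‖z‖ ^ 2)) z₁ (-b) := by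
        have h := Pool.Agent.H36.BP.Sub.exp_sq (t := fun z : ℂ => z) (z₀ := z₁) analyticAt_id (-b)
        simpa using h
      refine ⟨_, ?_, (h1.mul h2).congr (Filter.Eventually.of_forall fun z => (hu z).symm)⟩
      have h3 : ∑ j ∈ Finset.range n, ((n : ℝ)⁻¹ * (a * ‖q (z₀ + rot n j * z₁)‖ ^ p)) =
          a * ((n : ℝ)⁻¹ * ∑ j ∈ Finset.range n, ‖q (z₀ + rot n j * z₁)‖ ^ p) := by
        rw [Finset.mul_sum, Finset.mul_sum]
        exact Finset.sum_congr rfl fun j _ => by ring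
      rw [h3, hb]
      have h4 := (abs_le.1 (hnr z₁ (by
        rw [mem_ball_zero_iff] at hz₁
        exact hz₁.le))).1
      have h5 := hmean z₁
      have h6 : a * (‖q z₀‖ ^ p - δ) ≤ a * ((n : ℝ)⁻¹ * ∑ j ∈ Finset.range n, ‖q (z₀ + rot n j * z₁)‖ ^ p) :=
        mul_le_mul_of_nonneg_left (by linarith) ha.le
      have h7 : 0 < a * δ := by positivity
      linarith
    have hmax := Pool.Agent.H36.BP.max_principle (isCompact_closedBall (0 : ℂ) R) isOpen_ball ball_subset_closedBall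
      huc.upperSemicontinuousOn hsub (A := Real.exp (B - b * R ^ 2)) (Real.exp_pos _).le (by
        rintro z ⟨hz1, hz2⟩
        have hzr : ‖z‖ = R := by
          rw [mem_closedBall_zero_iff] at hz1
          rw [mem_ball_zero_iff, not_lt] at hz2
          exact le_antisymm hz1 hz2
        rw [hulog, hzr, Real.exp_le_exp]
        have h1 : ∑ j ∈ Finset.range n, φ (z₀ + rot n j * z) ≤ ∑ _j ∈ Finset.range n, B :=
          Finset.sum_le_sum fun j _ => (hB _ (hmemc z hz1 j)).2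
        rw [Finset.sum_const, Finset.card_range, nsmul_eq_mul] at h1
        have h2 : (n : ℝ)⁻¹ * ∑ j ∈ Finset.range n, φ (z₀ + rot n j * z) ≤ B := by
          rw [inv_mul_le_iff₀ hn0]
          exact h1
        linarith)
    have h0 := hmax 0 (mem_closedBall_self hR.le)
    rw [hulog, Real.exp_le_exp] at h0
    have h1 : (n : ℝ)⁻¹ * ∑ j ∈ Finset.range n, φ (z₀ + rot n j * 0) = φ z₀ := by
      simp only [mul_zero, add_zero, Finset.sum_const, Finset.card_range, nsmul_eq_mul]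
      field_simp
    rw [h1, norm_zero] at h0
    have h2 := (hB z₀ (mem_closedBall_self hR.le)).1
    have h3 : b * R ^ 2 ≤ B := by linarith
    have h4 : B / (a * R ^ 2) < ‖q z₀‖ ^ p - 2 * δ := by linarith
    rw [div_lt_iff₀ (by positivity)] at h4
    rw [hb] at h3
    linarith
  have h1 : ‖q z₀‖ ^ p ≤ B / (a * R ^ 2) := by
    refine le_of_forall_pos_le_add fun δ hδ => ?_
    have := key (δ / 2) (by positivity)
    linarith
  refine h1.trans ?_
  have h2 : 0 ≤ B / (a * R ^ 2) := by positivity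
  have h3 : 4 * B / (a * R ^ 2) = 4 * (B / (a * R ^ 2)) := by ring
  rw [h3]
  linarith

end Pool.Agent.SDA

end
end

section

/-!
# SR3 PolZ: along a curve of order two the forms are polynomials
-/

set_option autoImplicit false

open Topology Filter Metric

noncomputable section

namespace Pool.Agent.SR3

open Pool.Agent.H36.BP (EN fs wd Sub OrdTwo)
open Pool.Agent.H14.PP (IsCone Tan)
open Pool.Agent.SY (Ent)
open Pool.Agent.SDA (EnergyK Near AffOpen Nm nForms Tame)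
open Geo (Gd)

variable {N : ℕ} {G : Geo N}

/-- the forms are holomorphic along holomorphic curves -/
theorem w_hol (hG : G.Ok) (j : G.J) {F : ℂ → EN N} (hF : Differentiable ℂ F) (hK : ∀ z, F z ∈ G.K) :
    Differentiable ℂ fun z => G.w j (F z) (deriv F z) := by
  intro z
  set φ : (Fin 1 → ℂ) → EN N := fun y => F (y 0) with hφ
  have h1 : ∀ y : Fin 1 → ℂ, HasFDerivAt φ ((ContinuousLinearMap.toSpanSingleton ℂ (deriv F (y 0))).comp (ContinuousLinearMap.proj (R := ℂ) (φ := fun _ : Fin 1 => ℂ) 0)) y := by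
    intro y
    have h2 : HasFDerivAt F (ContinuousLinearMap.toSpanSingleton ℂ (deriv F (y 0))) (y 0) := (hF (y 0)).hasDerivAt.hasFDerivAt
    have h3 : HasFDerivAt (fun y : Fin 1 → ℂ => y 0) (ContinuousLinearMap.proj (R := ℂ) (φ := fun _ : Fin 1 => ℂ) 0) y :=
      (ContinuousLinearMap.proj (R := ℂ) (φ := fun _ : Fin 1 => ℂ) 0).hasFDerivAt
    exact h2.comp y h3
  have hφa : AnalyticAt ℂ φ (fun _ => z) := by
    have h3 : AnalyticAt ℂ (fun y : Fin 1 → ℂ => y 0) (fun _ => z) := (ContinuousLinearMap.proj (R := ℂ) (φ := fun _ : Fin 1 => ℂ) 0).analyticAt _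
    exact AnalyticAt.fun_comp (g := F) (hF.analyticAt z) h3
  have h4 := hG.w_an j 1 φ (fun _ => z) (fun _ => 1) hφa (Eventually.of_forall fun y => hK _)
  have h5 : AnalyticAt ℂ (fun w : ℂ => ((fun _ => w, fun _ => 1) : (Fin 1 → ℂ) × (Fin 1 → ℂ))) z :=
    (analyticAt_pi_iff.2 fun _ => analyticAt_id).prod analyticAt_const
  have h6 : AnalyticAt ℂ (fun w : ℂ => G.w j (φ fun _ => w) (fderiv ℂ φ (fun _ => w) fun _ => 1)) z :=
    AnalyticAt.comp_of_eq (f := fun w : ℂ => ((fun _ => w, fun _ => 1) : (Fin 1 → ℂ) × (Fin 1 → ℂ))) h4 h5 rfl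
  have h7 : (fun w : ℂ => G.w j (φ fun _ => w) (fderiv ℂ φ (fun _ => w) fun _ => 1)) = fun w => G.w j (F w) (deriv F w) := by
    funext w
    rw [(h1 fun _ => w).fderiv]
    simp [φ]
  rw [← h7]
  exact h6.differentiableAt

/-- MODULE Z3 (PolZ.lean; compare `SDA/Q2.lean`, and `lprime` of block A for the subharmonic function) -/
theorem exists_poly (hG : G.Ok) {F : ℂ → EN N} (hF : Differentiable ℂ F) (hK : ∀ z, F z ∈ G.K) (hN : ∀ z, G.p (F z) = 1) (ho : OrdTwo F) (j : G.J) :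
    ∃ p : Polynomial ℂ, ∀ z, G.w j (F z) (deriv F z) = p.eval z := by
  classical
  obtain ⟨A, hA, hgr⟩ := Pool.Agent.SDA.growth_of_ordTwo hG.cone hG.aff hF hK (nm_iff.2 hN) ho
  obtain ⟨B₁, hB₁, hlo⟩ := lam_lowerA hG
  obtain ⟨B₂, hB₂, hup⟩ := lam_upperA hG
  obtain ⟨B₃, hB₃, hsubl⟩ := lam_sub hG
  obtain ⟨B₄, hB₄, hlog⟩ := log_lower hG
  obtain ⟨C, hC, hwl⟩ := hG.w_log
  have hm := hG.one_m j
  have hm0 : (0 : ℝ) < G.m j := by exact_mod_cast hm
  set m : ℕ := G.m j with hmd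
  set q : ℂ → ℂ := fun z => G.w j (F z) (deriv F z) with hqd
  have hq : Differentiable ℂ q := w_hol hG j hF hK
  have hF0 : ∀ z, F z ≠ 0 := fun z => ne0 hG (hK z)
  set k : ℝ := (Fintype.card G.ι : ℝ) with hk
  have hk0 : 0 ≤ k := Nat.cast_nonneg _
  set κ : ℝ := B₁ + 1 with hκ
  set h : ℝ := (G.h : ℝ) with hh
  have hh0 : 0 ≤ h := Nat.cast_nonneg _
  set S : ℝ := κ + 5 * h * A + B₂ with hS
  have hS0 : 0 ≤ S := by positivity
  set D : ℝ := 4 * k * B₃ * S + 2 with hD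
  have hD0 : 0 ≤ D := by positivity
  set C' : ℝ := C ^ ((1 : ℝ) / m) with hC'
  have hC'0 : 0 ≤ C' := by positivity
  set a : ℝ := 1 / ((C' ^ 2 + 1) * (2 + 4 * k)) with ha
  have ha0 : 0 < a := by positivity
  set u : G.ι → ℂ → ℝ := fun i z => κ + G.lam i (F z) with hu
  have hu1 : ∀ i z, 1 ≤ u i z := fun i z => by
    have := hlo i (F z) (hK z)
    simp only [hu, hκ]
    linarith only [this]
  have hug : ∀ i z, HasFDerivAt (u i) (reL (-G.ell i (F z) (deriv F z))) z := fun i z =>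
    (lam_grad hG i (hF.analyticAt z) (hK z)).const_add κ
  have huc : ∀ i, Continuous (u i) := fun i => continuous_iff_continuousAt.2 fun z => (hug i z).continuousAt
  set B' : ℝ := k * S ^ 2 + D * (5 * A + B₄) with hB'
  have hB'0 : 0 ≤ B' := by positivity
  set E : ℝ := max 1 (4 * B' / a) with hE
  have hE1 : 1 ≤ E := le_max_left _ _
  have hbound : ∀ z, ‖q z‖ ^ ((2 : ℝ) / m) ≤ E * (1 + ‖z‖) ^ 2 := by
    intro z₀
    set r : ℝ := 1 + ‖z₀‖ with hr
    have hr1 : 1 ≤ r := by rw [hr]; linarith only [norm_nonneg z₀]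
    have hr0 : 0 < r := by linarith only [hr1]
    have hr2 : 1 ≤ r ^ 2 := one_le_pow₀ hr1
    have hr24 : r ^ 2 ≤ r ^ 4 := pow_le_pow_right₀ hr1 (by norm_num)
    have hlogF : ∀ z ∈ closedBall z₀ r, Real.log ‖F z‖ ≤ 5 * A * r ^ 2 := by
      intro z hz
      rw [mem_closedBall, dist_eq_norm] at hz
      have h2 : ‖z‖ ≤ 2 * r := by
        have h3 : ‖z‖ ≤ ‖z - z₀‖ + ‖z₀‖ := by simpa using norm_add_le (z - z₀) z₀
        rw [hr] at hz ⊢
        linarith only [hz, h3]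
      have h6 : ‖z‖ ^ 2 ≤ (2 * r) ^ 2 := pow_le_pow_left₀ (norm_nonneg _) h2 2
      have h7 : A * (1 + ‖z‖ ^ 2) ≤ A * (5 * r ^ 2) := mul_le_mul_of_nonneg_left (by linarith only [hr2, h6]) hA
      linarith only [h7, hgr z]
    have hule : ∀ z ∈ closedBall z₀ r, ∀ i, u i z ≤ S * r ^ 2 := by
      intro z hz i
      have h1 := (hup (F z) (hK z) (hN z)).1 i
      have h2 : h * Real.log ‖F z‖ ≤ h * (5 * A * r ^ 2) := mul_le_mul_of_nonneg_left (hlogF z hz) hh0
      have h3 : (κ + B₂) * 1 ≤ (κ + B₂) * r ^ 2 := mul_le_mul_of_nonneg_left hr2 (by positivity)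
      simp only [hu, hS]
      linarith only [h1, h2, h3]
    set R : ℝ := D * r ^ 2 with hR
    have hR0 : 0 ≤ R := by positivity
    set φ : ℂ → ℝ := fun z => ∑ i, (u i z) ^ 2 + R * (Real.log ‖F z‖ + B₄) with hφ
    have hφc : Continuous φ := by
      refine (continuous_finsetSum _ fun i _ => (huc i).pow 2).add (continuous_const.mul ((Continuous.log hF.continuous.norm fun z => norm_ne_zero_iff.mpr (hF0 z)).add continuous_const))
    have hsub : ∀ z ∈ ball z₀ r, Sub (fun w => Real.exp (φ w)) z (a * ‖q z‖ ^ ((2 : ℝ) / m)) := by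
      intro z hz
      have hz' : z ∈ closedBall z₀ r := ball_subset_closedBall hz
      have htan := tan hG hF hK z
      set f : ℝ := fs (F z) (deriv F z) with hf
      have hf0 : 0 ≤ f := Pool.Agent.H36.BP.fs_nonneg _ _
      have h1 : ∀ i, Sub (fun w => Real.exp ((u i w) ^ 2)) z (1 / 2 * ‖G.ell i (F z) (deriv F z)‖ ^ 2 + 2 * (-(B₃ * f ^ 2)) * u i z) := by
        intro i
        have h2 := hsubl i 1 F z (hF.analyticAt z) (Eventually.of_forall hK)
        rw [abs_one, one_mul] at h2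
        have h3 : Sub (fun w => Real.exp (u i w)) z (-(B₃ * f ^ 2)) := by
          refine (h2.const_mul (Real.exp_pos κ)).congr (Eventually.of_forall fun w => ?_)
          show Real.exp κ * Real.exp (1 * G.lam i (F w)) = Real.exp (κ + G.lam i (F w))
          rw [← Real.exp_add, one_mul]
        have h4 := sub_sq h3 (hug i z) (lt_of_lt_of_le one_pos (hu1 i z))
        rwa [norm_neg] at h4
      have h2 := Pool.Agent.SDA.La.sub_sum Finset.univ (fun i _ => h1 i)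
      have h3 : Sub (fun w => Real.exp (R * (Real.log ‖F w‖ + B₄))) z (R * f ^ 2 / 2) := by
        refine ((Pool.Agent.H36.BP.Sub.norm_rpow (hF.analyticAt z) (hF0 z) R).const_mul (Real.exp_pos (R * B₄))).congr (Eventually.of_forall fun w => ?_)
        show Real.exp (R * B₄) * ‖F w‖ ^ R = _
        rw [Real.rpow_def_of_pos (norm_pos_iff.2 (hF0 w)), ← Real.exp_add]
        congr 1
        ring
      have h4 : Sub (fun w => Real.exp (φ w)) z (∑ i, (1 / 2 * ‖G.ell i (F z) (deriv F z)‖ ^ 2 + 2 * (-(B₃ * f ^ 2)) * u i z) + R * f ^ 2 / 2) := by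
        refine (h2.mul h3).congr (Eventually.of_forall fun w => ?_)
        show Real.exp _ * Real.exp _ = Real.exp (φ w)
        rw [← Real.exp_add]
      refine h4.anti ?_
      -- the lower bound
      set Q₂ : ℝ := ∑ i, ‖G.ell i (F z) (deriv F z)‖ ^ 2 with hQ₂
      have hQ₂0 : 0 ≤ Q₂ := Finset.sum_nonneg fun i _ => by positivity
      set e : ℝ := ∑ i, ‖G.ell i (F z) (deriv F z)‖ with he
      have he0 : 0 ≤ e := Finset.sum_nonneg fun i _ => norm_nonneg _
      have h5 : e ^ 2 ≤ k * Q₂ := by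
        have := sq_sum_le_card_mul_sum_sq (s := (Finset.univ : Finset G.ι)) (f := fun i => ‖G.ell i (F z) (deriv F z)‖)
        simpa [hk, he, hQ₂] using this
      have h6 : ∑ i, (1 / 2 * ‖G.ell i (F z) (deriv F z)‖ ^ 2 + 2 * (-(B₃ * f ^ 2)) * u i z) = 1 / 2 * Q₂ - 2 * B₃ * f ^ 2 * ∑ i, u i z := by
        rw [hQ₂, Finset.sum_add_distrib, Finset.mul_sum, Finset.mul_sum, ← sub_eq_zero]
        have : ∑ i, 2 * (-(B₃ * f ^ 2)) * u i z = -∑ i, 2 * B₃ * f ^ 2 * u i z := by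
          rw [← Finset.sum_neg_distrib]
          exact Finset.sum_congr rfl fun i _ => by ring
        rw [this]
        ring
      have h7 : ∑ i, u i z ≤ k * (S * r ^ 2) := by
        have := Finset.sum_le_sum (s := Finset.univ) fun i _ => hule z hz' i
        simpa [hk, Finset.sum_const, nsmul_eq_mul] using this
      have h8 : 2 * B₃ * f ^ 2 * ∑ i, u i z ≤ 2 * B₃ * f ^ 2 * (k * (S * r ^ 2)) := mul_le_mul_of_nonneg_left h7 (by positivity)
      have h9 : 1 / 2 * Q₂ + f ^ 2 ≤ ∑ i, (1 / 2 * ‖G.ell i (F z) (deriv F z)‖ ^ 2 + 2 * (-(B₃ * f ^ 2)) * u i z) + R * f ^ 2 / 2 := by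
        rw [h6, hR, hD]
        have h10 : f ^ 2 * 1 ≤ f ^ 2 * r ^ 2 := mul_le_mul_of_nonneg_left hr2 (sq_nonneg f)
        have h11 : (4 * k * B₃ * S + 2) * r ^ 2 * f ^ 2 / 2 = 2 * B₃ * f ^ 2 * (k * (S * r ^ 2)) + f ^ 2 * r ^ 2 := by ring
        rw [h11]
        linarith only [h8, h10]
      refine le_trans ?_ h9
      -- the form
      have hL : G.L (F z) (deriv F z) = f + e := rfl
      have hL0 : 0 ≤ f + e := add_nonneg hf0 he0
      set t : ℝ := ‖q z‖ ^ ((1 : ℝ) / m) with ht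
      have ht0 : 0 ≤ t := by positivity
      have h12 : t ≤ C' * (f + e) := by
        have h13 := hwl j (F z) (hK z) _ htan
        rw [hL] at h13
        have h14 := Real.rpow_le_rpow (norm_nonneg _) h13 (by positivity : (0 : ℝ) ≤ (1 : ℝ) / m)
        rw [Real.mul_rpow hC (pow_nonneg hL0 _), ← Real.rpow_natCast, ← Real.rpow_mul hL0, mul_one_div_cancel hm0.ne', Real.rpow_one] at h14
        exact h14
      have h15 : ‖q z‖ ^ ((2 : ℝ) / m) = t ^ 2 := by
        rw [ht, ← Real.rpow_natCast, ← Real.rpow_mul (norm_nonneg _)]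
        congr 1
        push_cast
        ring
      have h16 : t ^ 2 ≤ (C' * (f + e)) ^ 2 := pow_le_pow_left₀ ht0 h12 2
      have h17 : (f + e) ^ 2 ≤ (2 + 4 * k) * (1 / 2 * Q₂ + f ^ 2) := by
        have h18 : (f + e) ^ 2 ≤ 2 * f ^ 2 + 2 * e ^ 2 := by linarith only [sq_nonneg (f - e)]
        linarith only [hQ₂0, h5, h18, mul_nonneg hk0 (sq_nonneg f)]
      have h19 : t ^ 2 ≤ ((C' ^ 2 + 1) * (2 + 4 * k)) * (1 / 2 * Q₂ + f ^ 2) := by
        have h20 : C' ^ 2 * (f + e) ^ 2 ≤ (C' ^ 2 + 1) * (f + e) ^ 2 := mul_le_mul_of_nonneg_right (by linarith only []) (sq_nonneg _)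
        have h21 : (C' ^ 2 + 1) * (f + e) ^ 2 ≤ (C' ^ 2 + 1) * ((2 + 4 * k) * (1 / 2 * Q₂ + f ^ 2)) :=
          mul_le_mul_of_nonneg_left h17 (by positivity)
        rw [mul_pow] at h16
        linarith only [h16, h20, h21]
      rw [h15, ha, one_div, inv_mul_le_iff₀ (by positivity)]
      exact h19
    have h1 := Pool.Agent.SDA.mean_bound hq hm hr0 ha0 (z₀ := z₀) (φ := φ) (B := B' * r ^ 4) hφc.continuousOn hsub (by
      intro z hz
      have hl := hlog (F z) (hN z)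
      refine ⟨add_nonneg (Finset.sum_nonneg fun i _ => sq_nonneg _) (mul_nonneg hR0 (by linarith only [hl])), ?_⟩
      have h2 : ∑ i, (u i z) ^ 2 ≤ k * (S * r ^ 2) ^ 2 := by
        have := Finset.sum_le_sum (s := Finset.univ) fun i _ => pow_le_pow_left₀ (zero_le_one.trans (hu1 i z)) (hule z hz i) 2
        simpa [hk, Finset.sum_const, nsmul_eq_mul] using this
      have h3 : R * (Real.log ‖F z‖ + B₄) ≤ R * (5 * A * r ^ 2 + B₄ * r ^ 2) := by
        refine mul_le_mul_of_nonneg_left (add_le_add (hlogF z hz) ?_) hR0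
        exact le_mul_of_one_le_right (by positivity) hr2
      calc φ z ≤ k * (S * r ^ 2) ^ 2 + R * (5 * A * r ^ 2 + B₄ * r ^ 2) := add_le_add h2 h3
        _ = B' * r ^ 4 := by rw [hB', hR]; ring)
    refine h1.trans ?_
    have h13 : 4 * (B' * r ^ 4) / (a * r ^ 2) = 4 * B' / a * r ^ 2 := by
      field_simp
    rw [h13]
    exact mul_le_mul_of_nonneg_right (le_max_right _ _) (by positivity)
  refine Pool.Agent.SY.exists_poly_of_growth (2 * m) q (E ^ m) hq fun z => ?_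
  have hY1 : 1 ≤ E * (1 + ‖z‖) ^ 2 := one_le_mul_of_one_le_of_one_le hE1 (one_le_pow₀ (by linarith only [norm_nonneg z]))
  have h1 : ‖q z‖ = (‖q z‖ ^ ((2 : ℝ) / m)) ^ ((m : ℝ) / 2) := by
    rw [← Real.rpow_mul (norm_nonneg _)]
    have : (2 : ℝ) / m * (m / 2) = 1 := by field_simp
    rw [this, Real.rpow_one]
  rw [h1]
  calc (‖q z‖ ^ ((2 : ℝ) / m)) ^ ((m : ℝ) / 2) ≤ (E * (1 + ‖z‖) ^ 2) ^ ((m : ℝ) / 2) :=
        Real.rpow_le_rpow (by positivity) (hbound z) (by positivity)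
    _ ≤ (E * (1 + ‖z‖) ^ 2) ^ (m : ℝ) := Real.rpow_le_rpow_of_exponent_le hY1 (by linarith only [])
    _ = E ^ m * (1 + ‖z‖) ^ (2 * m) := by
        rw [Real.rpow_natCast, mul_pow, ← pow_mul]

end Pool.Agent.SR3

end
end
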