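import Pool.Agent.H43.TL2.M134
import Pool.Agent.H43.TL2.M136
import Pool.Agent.H43.TL2.M137

/-! The parts of this file: SR3.G.DQ, SR3.G.Cpt, SR3.G.Lim, SR3.G.Min, SR3.G.Fast, SR3.G.Fol, SR3.G.Ret, SR3.G.Zero, SR3.EGDefs, SR3.F.Cst, SR3.F.Lin, SR3.F.LipE, SR3.F.Tan. -/

section

/-!
# SR3 G DQ: the distance of two curves on a disc
-/

set_option autoImplicit false

open Topology Filter Metric

noncomputable section

namespace Pool.Agent.SR3.G

variable {V : Type} [NormedAddCommGroup V] [NormedSpace ℂ V] {r : ℝ}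

theorem dq_bdd {F H : ℂ → V} (hF : Continuous F) (hH : Continuous H) : BddAbove ((fun w => ‖H w - F w‖) '' closedBall 0 r) :=
  (isCompact_closedBall (0 : ℂ) r).bddAbove_image (hH.sub hF).norm.continuousOn

theorem le_dQ {F H : ℂ → V} (hF : Continuous F) (hH : Continuous H) {w : ℂ} (hw : ‖w‖ ≤ r) : ‖H w - F w‖ ≤ dQ r F H :=
  le_csSup (dq_bdd hF hH) ⟨w, by simpa using hw, rfl⟩

theorem dQ_le {F H : ℂ → V} (hr : 0 ≤ r) {δ : ℝ} (h : ∀ w : ℂ, ‖w‖ ≤ r → ‖H w - F w‖ ≤ δ) : dQ r F H ≤ δ := by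
  refine csSup_le ⟨_, 0, mem_closedBall_self hr, rfl⟩ ?_
  rintro _ ⟨w, hw, rfl⟩
  exact h w (by simpa using hw)

theorem dQ_nonneg (F H : ℂ → V) : 0 ≤ dQ r F H := by
  refine Real.sSup_nonneg ?_
  rintro _ ⟨w, -, rfl⟩
  exact norm_nonneg _

theorem dQ_tri {F G H : ℂ → V} (hr : 0 ≤ r) (hF : Continuous F) (hG : Continuous G) (hH : Continuous H) : dQ r F H ≤ dQ r F G + dQ r G H := by
  refine dQ_le hr fun w hw => ?_
  calc ‖H w - F w‖ = ‖(G w - F w) + (H w - G w)‖ := by congr 1; abel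
    _ ≤ ‖G w - F w‖ + ‖H w - G w‖ := norm_add_le _ _
    _ ≤ dQ r F G + dQ r G H := add_le_add (le_dQ hF hG hw) (le_dQ hG hH hw)

theorem dQ_comm (F H : ℂ → V) : dQ r F H = dQ r H F := by
  unfold dQ
  congr 1
  refine Set.image_congr fun w _ => ?_
  exact norm_sub_rev _ _

/-- the distance to the limit tends to `0` -/
theorem dq_tendsto_zero {l : Filter ℕ} {F : ℕ → ℂ → V} {F₀ : ℂ → V} (hr : 0 ≤ r) (hF : TendstoLocallyUniformlyOn F F₀ l Set.univ) :
    Tendsto (fun n => dQ r (F n) F₀) l (𝓝 0) := by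
  have h1 : TendstoUniformlyOn F F₀ l (closedBall (0 : ℂ) r) :=
    (tendstoLocallyUniformlyOn_iff_forall_isCompact isOpen_univ).1 hF _ (Set.subset_univ _) (isCompact_closedBall _ _)
  rw [Metric.tendstoUniformlyOn_iff] at h1
  rw [Metric.tendsto_nhds]
  intro ε hε
  filter_upwards [h1 (ε / 2) (by positivity)] with n hn
  rw [Real.dist_eq, sub_zero, abs_of_nonneg (dQ_nonneg _ _)]
  refine lt_of_le_of_lt (dQ_le hr fun w hw => ?_) (half_lt_self hε)
  have := hn w (by simpa using hw)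
  rw [dist_eq_norm] at this
  exact this.le

/-- the distance converges if the functions do -/
theorem tendsto_dQ {l : Filter ℕ} {F H : ℕ → ℂ → V} {F₀ H₀ : ℂ → V} (hr : 0 ≤ r) (hFc : ∀ n, Continuous (F n)) (hHc : ∀ n, Continuous (H n))
    (hF₀ : Continuous F₀) (hH₀ : Continuous H₀) (hF : TendstoLocallyUniformlyOn F F₀ l Set.univ) (hH : TendstoLocallyUniformlyOn H H₀ l Set.univ) :
    Tendsto (fun n => dQ r (F n) (H n)) l (𝓝 (dQ r F₀ H₀)) := by
  have h1 := dq_tendsto_zero (r := r) hr hF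
  have h2 := dq_tendsto_zero (r := r) hr hH
  have h3 := h1.add h2
  rw [add_zero] at h3
  rw [tendsto_iff_dist_tendsto_zero]
  refine squeeze_zero (fun n => dist_nonneg) (fun n => ?_) h3
  rw [Real.dist_eq, abs_le]
  have e1 : dQ r F₀ (F n) = dQ r (F n) F₀ := dQ_comm _ _
  have e2 : dQ r H₀ (H n) = dQ r (H n) H₀ := dQ_comm _ _
  have t1 := dQ_tri hr (hFc n) hF₀ (hHc n)
  have t2 := dQ_tri hr hF₀ hH₀ (hHc n)
  have t3 := dQ_tri hr hF₀ (hFc n) hH₀
  have t4 := dQ_tri hr (hFc n) (hHc n) hH₀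
  constructor <;> linarith

theorem sh_cont {F : ℂ → V} (hF : Continuous F) (a : ℂ) : Continuous (sh a F) := hF.comp (continuous_id.add continuous_const)

/-- translates with converging shifts -/
theorem tlu_sh {l : Filter ℕ} [l.NeBot] {F : ℕ → ℂ → V} {F₀ : ℂ → V} (hF₀ : Continuous F₀) (hF : TendstoLocallyUniformlyOn F F₀ l Set.univ) {a : ℕ → ℂ}
    {a₀ : ℂ} (ha : Tendsto a l (𝓝 a₀)) : TendstoLocallyUniformlyOn (fun n => sh (a n) (F n)) (sh a₀ F₀) l Set.univ := by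
  rw [tendstoLocallyUniformlyOn_iff_forall_isCompact isOpen_univ]
  intro K _ hK
  obtain ⟨R, hR⟩ := hK.isBounded.subset_closedBall 0
  have hS : IsCompact (closedBall (0 : ℂ) (R + ‖a₀‖ + 1)) := isCompact_closedBall _ _
  have h1 : TendstoUniformlyOn F F₀ l (closedBall (0 : ℂ) (R + ‖a₀‖ + 1)) :=
    (tendstoLocallyUniformlyOn_iff_forall_isCompact isOpen_univ).1 hF _ (Set.subset_univ _) hS
  have h2 := hS.uniformContinuousOn_of_continuous hF₀.continuousOn
  rw [Metric.tendstoUniformlyOn_iff] at h1 ⊢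
  rw [Metric.uniformContinuousOn_iff] at h2
  intro ε hε
  obtain ⟨δ, hδ, h2⟩ := h2 (ε / 2) (by positivity)
  rw [Metric.tendsto_nhds] at ha
  filter_upwards [h1 (ε / 2) (by positivity), ha (min δ 1) (by positivity)] with n hn han z hz
  have hz' := hR hz
  rw [mem_closedBall_zero_iff] at hz'
  rw [dist_eq_norm] at han
  have hmem0 : z + a₀ ∈ closedBall (0 : ℂ) (R + ‖a₀‖ + 1) := by
    rw [mem_closedBall_zero_iff]
    have := norm_add_le z a₀
    linarith
  have hmem : z + a n ∈ closedBall (0 : ℂ) (R + ‖a₀‖ + 1) := by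
    rw [mem_closedBall_zero_iff]
    have h3 : ‖a n‖ ≤ ‖a₀‖ + 1 := by
      have h4 : ‖a n‖ ≤ ‖a₀‖ + ‖a n - a₀‖ := by
        calc ‖a n‖ = ‖a₀ + (a n - a₀)‖ := by congr 1; ring
          _ ≤ _ := norm_add_le _ _
      have h5 := han.trans_le (min_le_right δ 1)
      linarith
    have := norm_add_le z (a n)
    linarith
  have h3 := h2 _ hmem0 _ hmem (by
    rw [dist_eq_norm, show z + a₀ - (z + a n) = -(a n - a₀) by ring, norm_neg]
    exact han.trans_le (min_le_left _ _))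
  have h4 := hn _ hmem
  calc dist (sh a₀ F₀ z) (sh (a n) (F n) z) ≤ dist (F₀ (z + a₀)) (F₀ (z + a n)) + dist (F₀ (z + a n)) (F n (z + a n)) := dist_triangle _ _ _
    _ < ε / 2 + ε / 2 := add_lt_add h3 h4
    _ = ε := by ring

theorem continuous_dev {F H : ℂ → V} (hr : 0 ≤ r) (hF : Continuous F) (hH : Continuous H) (a : ℂ) : Continuous fun b => dev r F H a b := by
  rw [continuous_iff_seqContinuous]
  intro b b₀ hb
  have h1 : TendstoLocallyUniformlyOn (fun _ : ℕ => sh a F) (sh a F) atTop Set.univ := by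
    rw [Metric.tendstoLocallyUniformlyOn_iff]
    intro ε hε z _
    exact ⟨Set.univ, univ_mem, Eventually.of_forall fun n y _ => by simpa using hε⟩
  have h0 : TendstoLocallyUniformlyOn (fun _ : ℕ => H) H atTop Set.univ := by
    rw [Metric.tendstoLocallyUniformlyOn_iff]
    intro ε hε z _
    exact ⟨Set.univ, univ_mem, Eventually.of_forall fun n y _ => by simpa using hε⟩
  have h2 : TendstoLocallyUniformlyOn (fun n => sh (a + b n) H) (sh (a + b₀) H) atTop Set.univ := tlu_sh hH h0 (hb.const_add a)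
  exact tendsto_dQ hr (fun _ => sh_cont hF a) (fun n => sh_cont hH _) (sh_cont hF a) (sh_cont hH _) h1 h2

theorem eq_of_dQ [CompleteSpace V] {F H : ℂ → V} (hF : Differentiable ℂ F) (hH : Differentiable ℂ H) (hr : 0 < r) (h : dQ r F H ≤ 0) : H = F := by
  have h1 : H =ᶠ[𝓝 (0 : ℂ)] F := by
    filter_upwards [ball_mem_nhds (0 : ℂ) hr] with w hw
    have h2 : ‖w‖ ≤ r := by
      have : ‖w‖ < r := by simpa using hw
      exact this.le
    have h3 := (le_dQ hF.continuous hH.continuous h2).trans h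
    exact sub_eq_zero.1 (norm_le_zero_iff.1 h3)
  exact AnalyticOnNhd.eq_of_eventuallyEq (fun z _ => hH.analyticAt z) (fun z _ => hF.analyticAt z) h1

/-- change of the base point, with a shift of `H` -/
theorem dev_sh' (F H : ℂ → V) (a b a' b' : ℂ) : dev r (sh a' F) (sh (a' + b') H) a b = dev r F H (a + a') (b + b') := by
  unfold dev
  congr 1
  · funext z
    simp only [sh]
    congr 1
    ring
  · funext z
    simp only [sh]
    congr 1
    ring

end Pool.Agent.SR3.G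

end
end

section

/-!
# SR3 G Cpt: uniform Lipschitz bounds, uniform injectivity, propagation of closeness

PROOF.  `exists_lip`: `grow` and Cauchy.  `exists_inj`: by contradiction, `F_n`, `b_n → 0`, `b_n ≠ 0`: `(F_n (b_n) - F_n (0)) / b_n → H' (0)` along an
ultrafilter, so `H' (0) = 0`, against `imm`.  `exists_prop`: by contradiction; `dQ → 0`, so the limits agree on the disc, so everywhere.
-/

set_option autoImplicit false

open Topology Filter Metric

noncomputable section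

namespace Pool.Agent.SR3.G

variable {V : Type} [NormedAddCommGroup V] [NormedSpace ℂ V] [CompleteSpace V] {KK : Set (ℂ → V)} {M γ : ℝ} {r : ℝ}

omit [CompleteSpace V] in
private theorem cpt_bound (h : Sys KK M γ) (R B : ℝ) : ∃ K : ℝ, ∀ F ∈ KK, ‖F 0‖ ≤ B → ∀ z : ℂ, ‖z‖ ≤ R → ‖F z‖ ≤ K := by
  obtain ⟨C, hC⟩ := h.grow B
  refine ⟨Real.exp (|C| * (|R| + pw γ |R|)), fun F hF h0 z hz => ?_⟩
  refine (hC F hF h0 z).trans (Real.exp_le_exp.2 ?_)
  have hzR : ‖z‖ ≤ |R| := hz.trans (le_abs_self R)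
  have h1 : |z.im| ≤ |R| := (Complex.abs_im_le_norm z).trans hzR
  have h2 : pw γ ‖z‖ ≤ pw γ |R| := by
    unfold pw
    exact Real.rpow_le_rpow (by positivity) (by linarith) h.γ_pos.le
  have h3 : 0 ≤ |z.im| + pw γ ‖z‖ := by
    unfold pw
    positivity
  calc C * (|z.im| + pw γ ‖z‖) ≤ |C| * (|z.im| + pw γ ‖z‖) := mul_le_mul_of_nonneg_right (le_abs_self C) h3
    _ ≤ |C| * (|R| + pw γ |R|) := mul_le_mul_of_nonneg_left (by linarith) (abs_nonneg C)

omit [CompleteSpace V] in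
theorem exists_lip (h : Sys KK M γ) (r B : ℝ) :
    ∃ C₂ : ℝ, 1 ≤ C₂ ∧ ∀ F ∈ KK, ‖F 0‖ ≤ B → ∀ w b : ℂ, ‖w‖ ≤ r → ‖b‖ ≤ 2 → ‖F (w + b) - F w‖ ≤ C₂ * ‖b‖ := by
  obtain ⟨K, hK⟩ := cpt_bound h (r + 3) B
  refine ⟨max 1 K, le_max_left _ _, fun F hF h0 w b hw hb => ?_⟩
  have hd := h.diff F hF
  have h1 : ∀ z : ℂ, ‖z‖ ≤ r + 2 → ‖deriv F z‖ ≤ max 1 K := by
    intro z hz
    have h2 := Complex.norm_deriv_le_of_forall_mem_sphere_norm_le (c := z) (R := 1) (C := K) (f := F) one_pos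
      hd.diffContOnCl fun y hy => hK F hF h0 y (by
        have : ‖y - z‖ = 1 := by simpa [dist_eq_norm] using hy
        calc ‖y‖ = ‖(y - z) + z‖ := by rw [sub_add_cancel]
          _ ≤ ‖y - z‖ + ‖z‖ := norm_add_le _ _
          _ ≤ r + 3 := by linarith)
    rw [div_one] at h2
    exact h2.trans (le_max_right _ _)
  have h3 := (convex_closedBall (0 : ℂ) (r + 2)).norm_image_sub_le_of_norm_deriv_le (𝕜 := ℂ) (f := F) (C := max 1 K) (x := w) (y := w + b)
    (fun z _ => hd z) (fun z hz => h1 z (by simpa using hz)) (by simpa using by linarith) (by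
      have : ‖w + b‖ ≤ ‖w‖ + ‖b‖ := norm_add_le _ _
      simpa using by linarith)
  simpa using h3

theorem exists_inj (h : Sys KK M γ) (B : ℝ) :
    ∃ b₀ c₁ : ℝ, 0 < b₀ ∧ b₀ ≤ 1 / 8 ∧ 0 < c₁ ∧ c₁ ≤ 1 ∧ ∀ F ∈ KK, ‖F 0‖ ≤ B → ∀ b : ℂ, ‖b‖ ≤ 4 * b₀ → ∃ w : ℂ, ‖w‖ ≤ 1 ∧ c₁ * ‖b‖ ≤ ‖F (w + b) - F w‖ := by
  by_contra hcon
  push Not at hcon
  have hs : ∀ n : ℕ, ∃ F ∈ KK, ‖F 0‖ ≤ B ∧ ∃ b : ℂ, ‖b‖ ≤ 4 * (1 / (8 * ((n : ℝ) + 1))) ∧ ∀ w : ℂ, ‖w‖ ≤ 1 → ‖F (w + b) - F w‖ < 1 / (8 * ((n : ℝ) + 1)) * ‖b‖ := by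
    intro n
    have h1 : (0 : ℝ) < 1 / (8 * ((n : ℝ) + 1)) := by positivity
    have h2 : (1 : ℝ) / (8 * ((n : ℝ) + 1)) ≤ 1 / 8 := by
      apply one_div_le_one_div_of_le (by norm_num)
      nlinarith [(Nat.cast_nonneg n : (0 : ℝ) ≤ n)]
    obtain ⟨F, hF, h0, b, hb, hw⟩ := hcon _ _ h1 h2 h1 (h2.trans (by norm_num))
    exact ⟨F, hF, h0, b, hb, hw⟩
  choose F hF h0 b hb hw using hs
  obtain ⟨H, hH, hlim⟩ := h.cpt (hyperfilter ℕ) Nat.hyperfilter_le_atTop B F hF h0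
  have hHd := h.diff H hH
  apply h.imm H hH 0
  have hder : TendstoLocallyUniformlyOn (deriv ∘ F) (deriv H) (hyperfilter ℕ : Filter ℕ) Set.univ :=
    hlim.deriv (Eventually.of_forall fun n => (h.diff _ (hF n)).differentiableOn) isOpen_univ
  have ht0 : Tendsto (fun n : ℕ => 4 * (1 / (8 * ((n : ℝ) + 1)))) (hyperfilter ℕ : Filter ℕ) (𝓝 0) := by
    have h1 : Tendsto (fun n : ℕ => (1 / 2 : ℝ) * (1 / ((n : ℝ) + 1))) atTop (𝓝 (1 / 2 * 0)) :=
      tendsto_one_div_add_atTop_nhds_zero_nat.const_mul _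
    rw [mul_zero] at h1
    refine (h1.congr fun n => ?_).mono_left Nat.hyperfilter_le_atTop
    field_simp
    norm_num
  rw [← norm_eq_zero]
  refine le_antisymm (le_of_forall_pos_le_add fun ε hε => ?_) (norm_nonneg _)
  rw [zero_add]
  have hcont : Continuous (deriv H) := (hHd.contDiff (n := 1)).continuous_deriv le_rfl
  obtain ⟨δ, hδ, hδH⟩ := Metric.continuousAt_iff.1 (hcont.continuousAt (x := (0 : ℂ))) (ε / 3) (by positivity)
  have hu := (tendstoLocallyUniformlyOn_iff_forall_isCompact isOpen_univ).1 hder (closedBall 0 1) (Set.subset_univ _) (isCompact_closedBall 0 1)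
  rw [Metric.tendstoUniformlyOn_iff] at hu
  have e1 := hu (ε / 3) (by positivity)
  have e2 : ∀ᶠ n : ℕ in (hyperfilter ℕ : Filter ℕ), 4 * (1 / (8 * ((n : ℝ) + 1))) < min (min δ 1) (ε / 3) :=
    ht0.eventually_lt_const (lt_min (lt_min hδ one_pos) (by positivity))
  obtain ⟨n, h1, h2⟩ := (e1.and e2).exists
  rw [lt_min_iff, lt_min_iff] at h2
  have hpos : (0 : ℝ) < 1 / (8 * ((n : ℝ) + 1)) := by positivity
  have hbn : ‖b n‖ < min δ 1 := lt_min ((hb n).trans_lt h2.1.1) ((hb n).trans_lt h2.1.2)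
  have hb0 : 0 < ‖b n‖ := by
    by_contra hb0
    have h3 := hw n 0 (by simp)
    have h4 : b n = 0 := norm_le_zero_iff.1 (not_lt.1 hb0)
    rw [h4] at h3
    simp at h3
  have h5 := (convex_closedBall (0 : ℂ) ‖b n‖).norm_image_sub_le_of_norm_deriv_le (𝕜 := ℂ) (f := fun z => F n z - z • deriv H 0) (C := 2 * ε / 3)
    (x := 0) (y := b n) (fun z _ => ((h.diff _ (hF n)) z).sub (differentiableAt_id.smul_const _)) (fun z hz => by
      have hz' : ‖z‖ ≤ ‖b n‖ := by simpa using hz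
      have h6 : deriv (fun z => F n z - z • deriv H 0) z = deriv (F n) z - deriv H 0 := by
        have h9 : HasDerivAt (fun z => F n z - z • deriv H 0) (deriv (F n) z - (1 : ℂ) • deriv H 0) z :=
          ((h.diff _ (hF n)) z).hasDerivAt.sub ((hasDerivAt_id z).smul_const (deriv H 0))
        rw [h9.deriv, one_smul]
      rw [h6]
      have h7 := h1 z (by
        rw [mem_closedBall_zero_iff]
        exact hz'.trans (hbn.le.trans (min_le_right _ _)))
      have h8 := @hδH z (by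
        rw [dist_zero_right]
        exact hz'.trans_lt (hbn.trans_le (min_le_left _ _)))
      calc ‖deriv (F n) z - deriv H 0‖ = ‖(deriv (F n) z - deriv H z) + (deriv H z - deriv H 0)‖ := by rw [sub_add_sub_cancel]
        _ ≤ ‖deriv (F n) z - deriv H z‖ + ‖deriv H z - deriv H 0‖ := norm_add_le _ _
        _ ≤ ε / 3 + ε / 3 := by
          refine add_le_add ?_ ?_
          · rw [← dist_eq_norm, dist_comm]
            exact h7.le
          · rw [← dist_eq_norm]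
            exact h8.le
        _ = 2 * ε / 3 := by ring) (by simp) (by simp)
  have h6 := hw n 0 (by simp)
  simp only [zero_add, zero_smul, sub_zero] at h5 h6
  have h7 : ‖b n • deriv H 0‖ ≤ (2 * ε / 3 + 1 / (8 * ((n : ℝ) + 1))) * ‖b n‖ := by
    have h8 : b n • deriv H 0 = (F n (b n) - F n 0) - (F n (b n) - b n • deriv H 0 - F n 0) := by abel
    rw [h8]
    refine (norm_sub_le _ _).trans ?_
    rw [add_mul]
    linarith
  rw [norm_smul, mul_comm] at h7
  have h8 := le_of_mul_le_mul_right h7 hb0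
  linarith [h2.2]

/-- closeness on the disc of radius `r` implies closeness on the disc of radius `R` -/
theorem exists_prop (h : Sys KK M γ) (hr : 0 < r) (B R : ℝ) {δ : ℝ} (hδ : 0 < δ) :
    ∃ ε : ℝ, 0 < ε ∧ ∀ F ∈ KK, ∀ H ∈ KK, ‖F 0‖ ≤ B → dQ r F H ≤ ε → ∀ w : ℂ, ‖w‖ ≤ R → ‖H w - F w‖ ≤ δ := by
  by_contra hcon
  push Not at hcon
  have hs : ∀ n : ℕ, ∃ F ∈ KK, ∃ H ∈ KK, ‖F 0‖ ≤ B ∧ dQ r F H ≤ 1 / ((n : ℝ) + 1) ∧ ∃ w : ℂ, ‖w‖ ≤ R ∧ δ < ‖H w - F w‖ := fun n =>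
    hcon _ (by positivity)
  choose F hF H hH h0 hd w hw hwδ using hs
  have hFc : ∀ n, Continuous (F n) := fun n => (h.diff _ (hF n)).continuous
  have hHc : ∀ n, Continuous (H n) := fun n => (h.diff _ (hH n)).continuous
  have hH0 : ∀ n, ‖H n 0‖ ≤ B + 1 := by
    intro n
    have h1 : ‖H n 0 - F n 0‖ ≤ dQ r (F n) (H n) := le_dQ (hFc n) (hHc n) (by simpa using hr.le)
    have h2 : (1 : ℝ) / ((n : ℝ) + 1) ≤ 1 := by
      rw [div_le_one (by positivity)]
      linarith [(Nat.cast_nonneg n : (0 : ℝ) ≤ n)]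
    calc ‖H n 0‖ = ‖(H n 0 - F n 0) + F n 0‖ := by rw [sub_add_cancel]
      _ ≤ ‖H n 0 - F n 0‖ + ‖F n 0‖ := norm_add_le _ _
      _ ≤ B + 1 := by linarith [h0 n, hd n]
  obtain ⟨F₀, hF₀, hlF⟩ := h.cpt (hyperfilter ℕ) Nat.hyperfilter_le_atTop B F hF h0
  obtain ⟨H₀, hH₀, hlH⟩ := h.cpt (hyperfilter ℕ) Nat.hyperfilter_le_atTop (B + 1) H hH hH0
  have hF₀d := h.diff _ hF₀
  have hH₀d := h.diff _ hH₀
  have ht := tendsto_dQ hr.le hFc hHc hF₀d.continuous hH₀d.continuous hlF hlH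
  have h1 : Tendsto (fun n : ℕ => (1 : ℝ) / ((n : ℝ) + 1)) (hyperfilter ℕ : Filter ℕ) (𝓝 0) :=
    tendsto_one_div_add_atTop_nhds_zero_nat.mono_left Nat.hyperfilter_le_atTop
  have h2 : dQ r F₀ H₀ ≤ 0 := le_of_tendsto_of_tendsto' ht h1 hd
  have h3 := eq_of_dQ hF₀d hH₀d hr h2
  subst h3
  have uF := (tendstoLocallyUniformlyOn_iff_forall_isCompact isOpen_univ).1 hlF (closedBall 0 R) (Set.subset_univ _) (isCompact_closedBall 0 R)
  have uH := (tendstoLocallyUniformlyOn_iff_forall_isCompact isOpen_univ).1 hlH (closedBall 0 R) (Set.subset_univ _) (isCompact_closedBall 0 R)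
  rw [Metric.tendstoUniformlyOn_iff] at uF uH
  obtain ⟨n, e1, e2⟩ := ((uF (δ / 2) (by positivity)).and (uH (δ / 2) (by positivity))).exists
  have hwn : w n ∈ closedBall (0 : ℂ) R := by
    rw [mem_closedBall_zero_iff]
    exact hw n
  have e3 := e1 (w n) hwn
  have e4 := e2 (w n) hwn
  have e5 : ‖H n (w n) - F n (w n)‖ ≤ δ := by
    calc ‖H n (w n) - F n (w n)‖ = dist (H n (w n)) (F n (w n)) := (dist_eq_norm _ _).symm
      _ ≤ dist (H n (w n)) (H₀ (w n)) + dist (H₀ (w n)) (F n (w n)) := dist_triangle _ _ _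
      _ ≤ δ := by
        rw [dist_comm (H n (w n))]
        linarith
  exact absurd e5 (not_le.2 (hwδ n))

end Pool.Agent.SR3.G

end
end

section

/-!
# SR3 G Lim: limits of followed pairs
-/

set_option autoImplicit false

open Topology Filter Metric

noncomputable section

namespace Pool.Agent.SR3.G

variable {V : Type} [NormedAddCommGroup V] [NormedSpace ℂ V] [CompleteSpace V] {KK : Set (ℂ → V)} {M γ L r b₀ c₁ C₂ ε₀ : ℝ}

/-- bounded sequences converge along an ultrafilter -/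
theorem lim_exists {𝒰 : Ultrafilter ℕ} {f : ℕ → ℂ} {R : ℝ} (h : ∀ᶠ n in (𝒰 : Filter ℕ), ‖f n‖ ≤ R) : ∃ β : ℂ, Tendsto f 𝒰 (𝓝 β) := by
  have h1 : ((𝒰.map f : Ultrafilter ℂ) : Filter ℂ) ≤ 𝓟 (closedBall 0 R) := by
    rw [le_principal_iff]
    show f ⁻¹' closedBall 0 R ∈ (𝒰 : Filter ℕ)
    filter_upwards [h] with n hn
    simpa using hn
  obtain ⟨β, _, h2⟩ := (isCompact_closedBall (0 : ℂ) R).ultrafilter_le_nhds _ h1
  exact ⟨β, h2⟩

omit [NormedSpace ℂ V] [CompleteSpace V] in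
/-- values at converging points -/
theorem lim_apply {l : Filter ℕ} {F : ℕ → ℂ → V} {F₀ : ℂ → V} (hc : Continuous F₀) (hF : TendstoLocallyUniformlyOn F F₀ l Set.univ) {a : ℕ → ℂ} {a₀ : ℂ}
    (ha : Tendsto a l (𝓝 a₀)) : Tendsto (fun n => F n (a n)) l (𝓝 (F₀ a₀)) := by
  rw [tendstoLocallyUniformlyOn_univ] at hF
  exact hF.tendsto_comp hc.continuousAt ha

omit [NormedSpace ℂ V] [CompleteSpace V] in
theorem lim_norm_le {F : ℂ → V} {z : ℤ → ℂ} (hz : IsChain M L F z) (k : ℤ) : ‖z k‖ ≤ L * |(k : ℝ)| := by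
  induction k using Int.induction_on with
  | zero => simp [hz.zero]
  | succ k ih =>
    have h1 := hz.norm k
    have h2 : ‖z (k + 1)‖ ≤ ‖z (k + 1) - z k‖ + ‖z k‖ := by
      calc ‖z (k + 1)‖ = ‖(z (k + 1) - z k) + z k‖ := by rw [sub_add_cancel]
        _ ≤ _ := norm_add_le _ _
    push_cast at ih ⊢
    rw [abs_of_nonneg (by positivity)] at ih ⊢
    nlinarith
  | pred k ih =>
    have h1 := hz.norm (-(k : ℤ) - 1)
    rw [sub_add_cancel] at h1
    have h2 : ‖z (-(k : ℤ) - 1)‖ ≤ ‖z (-(k : ℤ)) - z (-(k : ℤ) - 1)‖ + ‖z (-(k : ℤ))‖ := by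
      calc ‖z (-(k : ℤ) - 1)‖ = ‖z (-(k : ℤ)) - (z (-(k : ℤ)) - z (-(k : ℤ) - 1))‖ := by rw [sub_sub_cancel]
        _ ≤ _ := by
          rw [add_comm]
          exact norm_sub_le _ _
    push_cast at ih ⊢
    have h3 : |-(k : ℝ)| = k := by rw [abs_neg, abs_of_nonneg (by positivity)]
    have h4 : |-(k : ℝ) - 1| = k + 1 := by
      rw [show -(k : ℝ) - 1 = -(k + 1) by ring, abs_neg, abs_of_nonneg (by positivity)]
    rw [h3] at ih
    rw [h4]
    nlinarith

/-- limits of followed pairs -/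
theorem exists_lim (h : Sys KK M γ) (hc : Cst KK M L r b₀ c₁ C₂) (𝒰 : Ultrafilter ℕ) (h𝒰 : (𝒰 : Filter ℕ) ≤ atTop) {ε : ℝ} (hε : ε ≤ 1)
    {F H : ℕ → ℂ → V} {z b : ℕ → ℤ → ℂ} {J : ℕ → Set ℤ} {I : Set ℤ} (hF : ∀ n, F n ∈ KK) (hH : ∀ n, H n ∈ KK) (hz : ∀ n, IsChain M L (F n) (z n))
    (hb : ∀ n, b n 0 = 0) (hJ : ∀ n, Track r b₀ ε (F n) (H n) (z n) (b n) (J n)) (hJ0 : ∀ n, (0 : ℤ) ∈ J n) (hI0 : (0 : ℤ) ∈ I) (hI : I.OrdConnected)
    (hIJ : ∀ k ∈ I, ∀ᶠ n in (𝒰 : Filter ℕ), k ∈ J n) :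
    ∃ (F₀ H₀ : ℂ → V) (z₀ b' : ℤ → ℂ), F₀ ∈ KK ∧ H₀ ∈ KK ∧ IsChain M L F₀ z₀ ∧ b' 0 = 0 ∧ Track r b₀ ε F₀ H₀ z₀ b' I ∧
      ∀ k ∈ I, Tendsto (fun n => dev r (F n) (H n) (z n k) (b n k)) 𝒰 (𝓝 (dev r F₀ H₀ (z₀ k) (b' k))) := by
  have hL : 0 ≤ L := zero_le_one.trans hc.L1
  have hr : 0 ≤ r := (add_nonneg hL zero_le_one).trans hc.rL
  have hFc : ∀ n, Continuous (F n) := fun n => (h.diff _ (hF n)).continuous
  have hHc : ∀ n, Continuous (H n) := fun n => (h.diff _ (hH n)).continuous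
  have hshc : ∀ (a : ℂ) (G : ℂ → V), Continuous G → Continuous (sh a G) := fun a G hG => hG.comp (by fun_prop)
  have hF0 : ∀ n, ‖F n 0‖ ≤ M := fun n => by
    have h1 := (hz n).good 0
    rwa [(hz n).zero] at h1
  have hH0 : ∀ n, ‖H n 0‖ ≤ M + 1 := fun n => by
    have h1 := (hJ n).le 0 (hJ0 n)
    rw [(hz n).zero, hb n] at h1
    have h2 : ‖sh (0 + 0) (H n) 0 - sh 0 (F n) 0‖ ≤ dQ r (sh 0 (F n)) (sh (0 + 0) (H n)) :=
      le_dQ (hshc _ _ (hFc n)) (hshc _ _ (hHc n)) (by simpa using hr)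
    have h3 : ‖H n 0 - F n 0‖ ≤ 1 := by
      have h4 := h2.trans (h1.trans hε)
      simpa [sh] using h4
    calc ‖H n 0‖ = ‖(H n 0 - F n 0) + F n 0‖ := by rw [sub_add_cancel]
      _ ≤ ‖H n 0 - F n 0‖ + ‖F n 0‖ := norm_add_le _ _
      _ ≤ M + 1 := by linarith [hF0 n]
  obtain ⟨F₀, hF₀, hFl⟩ := h.cpt 𝒰 h𝒰 M F hF hF0
  obtain ⟨H₀, hH₀, hHl⟩ := h.cpt 𝒰 h𝒰 (M + 1) H hH hH0
  have hF₀c : Continuous F₀ := (h.diff _ hF₀).continuous
  have hH₀c : Continuous H₀ := (h.diff _ hH₀).continuous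
  have hzl : ∀ k, ∃ β : ℂ, Tendsto (fun n => z n k) 𝒰 (𝓝 β) := fun k =>
    lim_exists (R := L * |(k : ℝ)|) (Eventually.of_forall fun n => lim_norm_le (hz n) k)
  have hbl : ∀ k, k ∈ I → ∃ β : ℂ, Tendsto (fun n => b n k) 𝒰 (𝓝 β) := by
    intro k
    induction k using Int.induction_on with
    | zero =>
      intro _
      refine ⟨0, ?_⟩
      simp only [hb]
      exact tendsto_const_nhds
    | succ k ih =>
      intro hk
      have h1 : (k : ℤ) ∈ I := hI.out hI0 hk ⟨by positivity, by linarith⟩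
      obtain ⟨β, hβ⟩ := ih h1
      have h2 : ∀ᶠ n in (𝒰 : Filter ℕ), ‖b n k‖ ≤ ‖β‖ + 1 := by
        have h3 := hβ.norm.eventually (Iic_mem_nhds (lt_add_one ‖β‖))
        exact h3
      refine lim_exists (R := b₀ + (‖β‖ + 1)) ?_
      filter_upwards [h2, hIJ k h1, hIJ _ hk] with n h3 h4 h5
      have h6 := (hJ n).near k h4 h5
      calc ‖b n (k + 1)‖ = ‖(b n (k + 1) - b n k) + b n k‖ := by rw [sub_add_cancel]
        _ ≤ ‖b n (k + 1) - b n k‖ + ‖b n k‖ := norm_add_le _ _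
        _ ≤ _ := by linarith
    | pred k ih =>
      intro hk
      have h1 : (-(k : ℤ)) ∈ I := hI.out hk hI0 ⟨by linarith, by simp⟩
      obtain ⟨β, hβ⟩ := ih h1
      have h2 : ∀ᶠ n in (𝒰 : Filter ℕ), ‖b n (-(k : ℤ))‖ ≤ ‖β‖ + 1 := by
        have h3 := hβ.norm.eventually (Iic_mem_nhds (lt_add_one ‖β‖))
        exact h3
      refine lim_exists (R := b₀ + (‖β‖ + 1)) ?_
      filter_upwards [h2, hIJ _ h1, hIJ _ hk] with n h3 h4 h5
      have h6 := (hJ n).near _ h5 (by rwa [sub_add_cancel])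
      rw [sub_add_cancel] at h6
      calc ‖b n (-(k : ℤ) - 1)‖ = ‖b n (-(k : ℤ)) - (b n (-(k : ℤ)) - b n (-(k : ℤ) - 1))‖ := by rw [sub_sub_cancel]
        _ ≤ ‖b n (-(k : ℤ))‖ + ‖b n (-(k : ℤ)) - b n (-(k : ℤ) - 1)‖ := norm_sub_le _ _
        _ ≤ _ := by linarith
  choose z₀ hz₀ using hzl
  choose! b' hb' using hbl
  have hshF : ∀ k, TendstoLocallyUniformlyOn (fun n => sh (z n k) (F n)) (sh (z₀ k) F₀) 𝒰 Set.univ := fun k => tlu_sh hF₀c hFl (hz₀ k)
  have hdev : ∀ (k : ℤ) (β : ℕ → ℂ) (β₀ : ℂ), Tendsto β 𝒰 (𝓝 β₀) →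
      Tendsto (fun n => dev r (F n) (H n) (z n k) (β n)) 𝒰 (𝓝 (dev r F₀ H₀ (z₀ k) β₀)) := by
    intro k β β₀ hβ
    exact tendsto_dQ hr (fun n => hshc _ _ (hFc n)) (fun n => hshc _ _ (hHc n)) (hshc _ _ hF₀c) (hshc _ _ hH₀c) (hshF k)
      (tlu_sh hH₀c hHl ((hz₀ k).add hβ))
  refine ⟨F₀, H₀, z₀, b', hF₀, hH₀, ⟨?_, fun k => ?_, fun k => ?_, fun k => ?_⟩, ?_, ⟨fun k hk => ?_, fun k hk b'' hb'' => ?_, fun k hk hk1 => ?_⟩,
    fun k hk => hdev k _ _ (hb' k hk)⟩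
  · have h1 := hz₀ 0
    simp only [(hz _).zero] at h1
    exact tendsto_nhds_unique h1 tendsto_const_nhds
  · exact le_of_tendsto (lim_apply hF₀c hFl (hz₀ k)).norm (Eventually.of_forall fun n => (hz n).good k)
  · have h1 : Tendsto (fun n => (z n (k + 1)).re - (z n k).re) 𝒰 (𝓝 ((z₀ (k + 1)).re - (z₀ k).re)) :=
      ((Complex.continuous_re.tendsto _).comp (hz₀ (k + 1))).sub ((Complex.continuous_re.tendsto _).comp (hz₀ k))
    exact ge_of_tendsto h1 (Eventually.of_forall fun n => (hz n).re k)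
  · exact le_of_tendsto ((hz₀ (k + 1)).sub (hz₀ k)).norm (Eventually.of_forall fun n => (hz n).norm k)
  · have h1 := hb' 0 hI0
    simp only [hb] at h1
    exact tendsto_nhds_unique h1 tendsto_const_nhds
  · refine le_of_tendsto (hdev k _ _ (hb' k hk)) ?_
    filter_upwards [hIJ k hk] with n hn
    exact (hJ n).le k hn
  · have h1 : Tendsto (fun n => b n k + (b'' - b' k)) 𝒰 (𝓝 b'') := by
      have h2 := (hb' k hk).add_const (b'' - b' k)
      rwa [add_sub_cancel] at h2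
    refine le_of_tendsto_of_tendsto (hdev k _ _ (hb' k hk)) (hdev k _ _ h1) ?_
    filter_upwards [hIJ k hk] with n hn
    refine (hJ n).min k hn _ ?_
    rwa [add_sub_cancel_left]
  · refine le_of_tendsto ((hb' (k + 1) hk1).sub (hb' k hk)).norm ?_
    filter_upwards [hIJ k hk, hIJ _ hk1] with n h3 h4
    exact (hJ n).near k h3 h4

end Pool.Agent.SR3.G

end
end

section

/-!
# SR3 G Min: the constants, uniqueness of good shifts, the best shift (helper59)
-/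

set_option autoImplicit false

open Topology Filter Metric

noncomputable section

namespace Pool.Agent.SR3.G

variable {V : Type} [NormedAddCommGroup V] [NormedSpace ℂ V] [CompleteSpace V] {KK : Set (ℂ → V)} {M γ L r b₀ c₁ C₂ ε₀ : ℝ}

theorem exists_cst (h : Sys KK M γ) (hL : 1 ≤ L) (hrL : L + 1 ≤ r) (hch : ∀ F ∈ KK, ‖F 0‖ ≤ M → ∃ z, IsChain M L F z) :
    ∃ b₀ c₁ C₂ : ℝ, Cst KK M L r b₀ c₁ C₂ := by
  obtain ⟨C₂, hC₂, hlip⟩ := exists_lip h r (M + 1)
  obtain ⟨b₀, c₁, hb, hb', hc, hc', hinj⟩ := exists_inj h (M + 1)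
  exact ⟨b₀, c₁, C₂, ⟨hL, hrL, hb, hb', hc, hc', hC₂, hch, hlip, hinj⟩⟩

private theorem le_dev {F H : ℂ → V} (hF : Continuous F) (hH : Continuous H) (a b : ℂ) {w : ℂ} (hw : ‖w‖ ≤ r) :
    ‖H (w + (a + b)) - F (w + a)‖ ≤ dev r F H a b :=
  le_dQ (F := sh a F) (H := sh (a + b) H) (hF.comp (continuous_id.add continuous_const))
    (hH.comp (continuous_id.add continuous_const)) hw

/-- two good shifts are close -/
theorem uniq (h : Sys KK M γ) (hc : Cst KK M L r b₀ c₁ C₂) {F H : ℂ → V} (hF : F ∈ KK) (hH : H ∈ KK) {a b b' : ℂ} (ha : ‖F a‖ ≤ M)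
    (h1 : dev r F H a b ≤ 1) (h3 : ‖b' - b‖ ≤ 4 * b₀) : c₁ * ‖b' - b‖ ≤ dev r F H a b + dev r F H a b' := by
  have hFc := (h.diff F hF).continuous
  have hHc := (h.diff H hH).continuous
  have hr1 : 1 ≤ r := by linarith [hc.L1, hc.rL]
  have hK0 : ‖sh (a + b) H 0‖ ≤ M + 1 := by
    have := le_dev (r := r) hFc hHc a b (w := 0) (by rw [norm_zero]; linarith)
    simp only [zero_add] at this
    have e : sh (a + b) H 0 = F a + (H (a + b) - F a) := by simp [sh]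
    rw [e]
    exact (norm_add_le _ _).trans (by linarith)
  obtain ⟨w, hw, hw'⟩ := hc.inj _ (h.shift H hH (a + b)) hK0 (b' - b) h3
  have e : sh (a + b) H (w + (b' - b)) - sh (a + b) H w
      = (H (w + (a + b')) - F (w + a)) - (H (w + (a + b)) - F (w + a)) := by
    simp only [sh]
    rw [show w + (b' - b) + (a + b) = w + (a + b') by ring]
    abel
  rw [e] at hw'
  refine hw'.trans ((norm_sub_le _ _).trans ?_)
  have e1 := le_dev hFc hHc a b' (hw.trans hr1)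
  have e2 := le_dev hFc hHc a b (hw.trans hr1)
  linarith

/-- the shifts at neighbouring indices are close -/
theorem step (h : Sys KK M γ) (hc : Cst KK M L r b₀ c₁ C₂) {F H : ℂ → V} (hF : F ∈ KK) (hH : H ∈ KK) {a a' b b' : ℂ} (ha' : ‖F a'‖ ≤ M)
    (haa : ‖a' - a‖ ≤ L) (h2 : dev r F H a' b' ≤ 1) (h3 : ‖b' - b‖ ≤ 4 * b₀) : c₁ * ‖b' - b‖ ≤ dev r F H a b + dev r F H a' b' := by
  have hFc := (h.diff F hF).continuous
  have hHc := (h.diff H hH).continuous
  have hr1 : 1 ≤ r := by linarith [hc.L1, hc.rL]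
  have hK0 : ‖sh (a' + b') H 0‖ ≤ M + 1 := by
    have := le_dev (r := r) hFc hHc a' b' (w := 0) (by rw [norm_zero]; linarith)
    simp only [zero_add] at this
    have e : sh (a' + b') H 0 = F a' + (H (a' + b') - F a') := by simp [sh]
    rw [e]
    exact (norm_add_le _ _).trans (by linarith)
  obtain ⟨w, hw, hw'⟩ := hc.inj _ (h.shift H hH (a' + b')) hK0 (b - b') (by rw [norm_sub_rev]; exact h3)
  have e : sh (a' + b') H (w + (b - b')) - sh (a' + b') H w
      = (H ((w + (a' - a)) + (a + b)) - F ((w + (a' - a)) + a)) - (H (w + (a' + b')) - F (w + a')) := by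
    simp only [sh]
    rw [show w + (b - b') + (a' + b') = (w + (a' - a)) + (a + b) by ring,
      show (w + (a' - a)) + a = w + a' by ring]
    abel
  rw [e, norm_sub_rev b b'] at hw'
  refine hw'.trans ((norm_sub_le _ _).trans ?_)
  have hw2 : ‖w + (a' - a)‖ ≤ r := (norm_add_le _ _).trans (by linarith [hc.rL])
  have e1 := le_dev hFc hHc a b hw2
  have e2 := le_dev hFc hHc a' b' (hw.trans hr1)
  linarith

/-- the best shift near a good one -/
theorem exists_min (h : Sys KK M γ) (hc : Cst KK M L r b₀ c₁ C₂) {F H : ℂ → V} (hF : F ∈ KK) (hH : H ∈ KK) {a b : ℂ} (ha : ‖F a‖ ≤ M)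
    (h1 : dev r F H a b ≤ c₁ * b₀ / 4) :
    ∃ b' : ℂ, c₁ * ‖b' - b‖ ≤ 2 * dev r F H a b ∧ dev r F H a b' ≤ dev r F H a b ∧ ∀ b'' : ℂ, ‖b'' - b'‖ ≤ b₀ → dev r F H a b' ≤ dev r F H a b'' := by
  have hFc := (h.diff F hF).continuous
  have hHc := (h.diff H hH).continuous
  have hr0 : 0 ≤ r := by linarith [hc.L1, hc.rL]
  have hb0 := hc.b₀_pos
  have hc1 := hc.c₁_pos
  obtain ⟨b', hb', hmin⟩ := (isCompact_closedBall b (2 * b₀)).exists_isMinOn
    ⟨b, mem_closedBall_self (by linarith)⟩ (continuous_dev hr0 hFc hHc a).continuousOn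
  have hle : dev r F H a b' ≤ dev r F H a b := hmin (mem_closedBall_self (by linarith))
  have hd1 : dev r F H a b ≤ 1 := by
    have h3 := hc.b₀_le
    have h4 := hc.c₁_le
    nlinarith [mul_le_mul h4 h3 hb0.le zero_le_one]
  have hn : ‖b' - b‖ ≤ 2 * b₀ := by
    rw [mem_closedBall, dist_eq_norm] at hb'; exact hb'
  have hu := uniq h hc hF hH ha hd1 (b' := b') (by linarith)
  have hhalf : ‖b' - b‖ ≤ b₀ / 2 := by
    have : c₁ * ‖b' - b‖ ≤ c₁ * (b₀ / 2) := by linarith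
    exact le_of_mul_le_mul_left this hc1
  refine ⟨b', by linarith, hle, ?_⟩
  intro b'' hb''
  apply hmin
  rw [mem_closedBall, dist_eq_norm]
  calc ‖b'' - b‖ = ‖(b'' - b') + (b' - b)‖ := by congr 1; ring
    _ ≤ ‖b'' - b'‖ + ‖b' - b‖ := norm_add_le _ _
    _ ≤ 2 * b₀ := by linarith

end Pool.Agent.SR3.G

end
end

section

/-!
# SR3 G Fast: the deviations do not decay fast

The sum of the deviations converges like `exp (- (c / 2) k / log (2 + k))`: `b k → b∞` with this rate; `LogI` for `F` and `sh b∞ H`: they are equal; then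
`dev (z k) b∞ = 0` and the minimality gives `dev (z k) (b k) = 0` for large `k`.
-/

set_option autoImplicit false

open Topology Filter Metric

noncomputable section

namespace Pool.Agent.SR3.G

/-- `k / log (2 + k)` -/
private def gk (k : ℕ) : ℝ := (k : ℝ) / Real.log (2 + k)

private theorem log_pos' (k : ℕ) : 0 < Real.log (2 + k) := by
  apply Real.log_pos
  have : (0 : ℝ) ≤ k := Nat.cast_nonneg k
  linarith

private theorem gk_nonneg (k : ℕ) : 0 ≤ gk k := div_nonneg (Nat.cast_nonneg k) (log_pos' k).le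

private theorem gk_succ (k : ℕ) : gk k ≤ gk (k + 1) := by
  unfold gk
  rw [div_le_div_iff₀ (log_pos' k) (log_pos' (k + 1))]
  rcases Nat.eq_zero_or_pos k with rfl | hk
  · simp only [Nat.cast_zero, zero_mul, add_zero, zero_add, Nat.cast_one, one_mul]
    exact (Real.log_pos (by norm_num)).le
  · have hk1 : (1 : ℝ) ≤ k := by exact_mod_cast hk
    have h3 : (1 : ℝ) ≤ Real.log (2 + k) := by
      rw [Real.le_log_iff_exp_le (by linarith)]
      have := Real.exp_one_lt_d9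
      linarith
    have h4 : Real.log (2 + ((k + 1 : ℕ) : ℝ)) - Real.log (2 + k) ≤ 1 / (2 + k) := by
      rw [← Real.log_div (by positivity) (by positivity)]
      have h5 : (2 + ((k + 1 : ℕ) : ℝ)) / (2 + k) = 1 + 1 / (2 + k) := by
        push_cast
        field_simp
        ring
      rw [h5]
      have h6 := Real.log_le_sub_one_of_pos (show (0 : ℝ) < 1 + 1 / (2 + k) by positivity)
      linarith
    have h7 : (k : ℝ) * (1 / (2 + k)) ≤ 1 := by
      rw [mul_one_div, div_le_one (by positivity)]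
      linarith
    have h8 : (k : ℝ) * (Real.log (2 + ((k + 1 : ℕ) : ℝ)) - Real.log (2 + k)) ≤ 1 :=
      (mul_le_mul_of_nonneg_left h4 (by positivity)).trans h7
    push_cast at h8 ⊢
    nlinarith

private theorem gk_mono : Monotone gk := monotone_nat_of_le_succ gk_succ

private theorem gk_lower (k : ℕ) : √(2 + k) / 2 - 1 ≤ gk k := by
  have h0 : (0 : ℝ) ≤ k := Nat.cast_nonneg k
  have hs : 0 < √(2 + (k : ℝ)) := Real.sqrt_pos.2 (by linarith)
  have hs1 : 1 ≤ √(2 + (k : ℝ)) := by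
    rw [Real.one_le_sqrt]; linarith
  have hlog : Real.log (2 + k) ≤ 2 * √(2 + (k : ℝ)) := by
    have h1 : Real.log (2 + k) = 2 * Real.log (√(2 + (k : ℝ))) := by
      rw [Real.log_sqrt (by linarith)]
      ring
    rw [h1]
    have h2 := Real.log_le_sub_one_of_pos hs
    linarith
  have h3 : (k : ℝ) / (2 * √(2 + (k : ℝ))) ≤ gk k := by
    unfold gk
    exact div_le_div_of_nonneg_left h0 (log_pos' k) hlog
  refine le_trans ?_ h3
  rw [le_div_iff₀ (by positivity)]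
  have h4 : √(2 + (k : ℝ)) ^ 2 = 2 + k := Real.sq_sqrt (by linarith)
  nlinarith

private theorem summable_gk {a : ℝ} (ha : 0 < a) : Summable fun k : ℕ => Real.exp (-(a * gk k)) := by
  have h1 : Summable fun k : ℕ => Real.exp a * (24 / (a / 2) ^ 4) * (1 / ((k : ℝ) + 1) ^ 2) := by
    refine Summable.mul_left _ ?_
    have h2 : Summable fun k : ℕ => 1 / (((k + 1 : ℕ) : ℝ)) ^ 2 := by
      rw [summable_nat_add_iff (f := fun k : ℕ => 1 / ((k : ℝ)) ^ 2)]
      exact Real.summable_one_div_nat_pow.2 one_lt_two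
    simpa using h2
  refine Summable.of_nonneg_of_le (fun k => (Real.exp_pos _).le) (fun k => ?_) h1
  have h0 : (0 : ℝ) ≤ k := Nat.cast_nonneg k
  have hs : 0 < √(2 + (k : ℝ)) := Real.sqrt_pos.2 (by linarith)
  have h3 := gk_lower k
  have h4 : Real.exp (-(a * gk k)) ≤ Real.exp a * Real.exp (-(a / 2 * √(2 + (k : ℝ)))) := by
    rw [← Real.exp_add, Real.exp_le_exp]
    nlinarith
  refine h4.trans ?_
  rw [mul_assoc]
  refine mul_le_mul_of_nonneg_left ?_ (Real.exp_pos _).le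
  have hy : 0 < a / 2 * √(2 + (k : ℝ)) := by positivity
  have h5 := Real.pow_div_factorial_le_exp (a / 2 * √(2 + (k : ℝ))) hy.le 4
  have h6 : (a / 2 * √(2 + (k : ℝ))) ^ 4 = (a / 2) ^ 4 * (2 + (k : ℝ)) ^ 2 := by
    rw [mul_pow]
    congr 1
    calc √(2 + (k : ℝ)) ^ 4 = (√(2 + (k : ℝ)) ^ 2) ^ 2 := by ring
      _ = _ := by rw [Real.sq_sqrt (by linarith)]
  rw [h6] at h5
  have h7 : ((Nat.factorial 4 : ℕ) : ℝ) = 24 := by norm_num [Nat.factorial]
  rw [h7] at h5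
  rw [Real.exp_neg]
  have h8 : 0 < (a / 2) ^ 4 * (2 + (k : ℝ)) ^ 2 / 24 := by positivity
  calc (Real.exp (a / 2 * √(2 + (k : ℝ))))⁻¹ ≤ ((a / 2) ^ 4 * (2 + (k : ℝ)) ^ 2 / 24)⁻¹ := inv_anti₀ h8 h5
    _ = 24 / (a / 2) ^ 4 * (1 / (2 + (k : ℝ)) ^ 2) := by
      field_simp
    _ ≤ 24 / (a / 2) ^ 4 * (1 / ((k : ℝ) + 1) ^ 2) := by
      refine mul_le_mul_of_nonneg_left ?_ (by positivity)
      refine one_div_le_one_div_of_le (by positivity) ?_
      exact pow_le_pow_left₀ (by positivity) (by linarith) 2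

variable {V : Type} [NormedAddCommGroup V] [NormedSpace ℂ V] [CompleteSpace V] {KK : Set (ℂ → V)} {M γ L r b₀ c₁ C₂ ε₀ : ℝ}

/-- the deviations do not decay fast -/
theorem not_fast (h : Sys KK M γ) (hc : Cst KK M L r b₀ c₁ C₂) (hl : LogI KK M L r) {F H : ℂ → V} {z b : ℤ → ℂ}
    (hp : Asym KK M L r b₀ ε₀ F H z b) (he : ε₀ ≤ c₁ * b₀ / 4) {c : ℝ} (hc0 : 0 < c) :
    ¬ ∀ᶠ k : ℕ in atTop, dev r F H (z k) (b k) ≤ Real.exp (-(c * k / Real.log k)) := by
  intro hfast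
  have hr0 : 0 ≤ r := by have := hc.rL; have := hc.L1; linarith
  have hFc : Continuous F := (h.diff F hp.memF).continuous
  have hHc : Continuous H := (h.diff H hp.memH).continuous
  have hc₁ := hc.c₁_pos
  have hC₂ := hc.C₂_ge
  have hb₀ := hc.b₀_pos
  have he1 : ε₀ ≤ 1 := by
    have h1 := hc.c₁_le
    have h2 := hc.b₀_le
    nlinarith
  set d : ℕ → ℝ := fun k => dev r F H (z k) (b k) with hd
  have hmem : ∀ k : ℕ, (k : ℤ) ∈ Set.Ici (0 : ℤ) := fun k => by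
    show (0 : ℤ) ≤ k
    exact Int.natCast_nonneg k
  have hdle : ∀ k, d k ≤ 1 := fun k => (hp.track.le k (hmem k)).trans he1
  obtain ⟨K₀, hK₀⟩ := eventually_atTop.1 (hfast.and (eventually_ge_atTop 2))
  have hdg : ∀ k, K₀ ≤ k → d k ≤ Real.exp (-(c * gk k)) := by
    intro k hk
    obtain ⟨h1, h2⟩ := hK₀ k hk
    refine h1.trans (Real.exp_le_exp.2 (neg_le_neg ?_))
    unfold gk
    rw [mul_div_assoc]
    refine mul_le_mul_of_nonneg_left ?_ hc0.le
    have hk2 : (2 : ℝ) ≤ k := by exact_mod_cast h2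
    refine div_le_div_of_nonneg_left (by linarith) (Real.log_pos (by linarith)) (Real.log_le_log (by linarith) (by linarith))
  have hstep : ∀ k, K₀ ≤ k → ‖b ((k + 1 : ℕ) : ℤ) - b k‖ ≤ 2 / c₁ * Real.exp (-(c * gk k)) := by
    intro k hk
    have e1 : ((k + 1 : ℕ) : ℤ) = (k : ℤ) + 1 := by push_cast; ring
    have h1 := step h hc hp.memF hp.memH (a := z k) (a' := z ((k + 1 : ℕ) : ℤ)) (b := b k) (b' := b ((k + 1 : ℕ) : ℤ))
      (hp.chain.good _) (by rw [e1]; exact hp.chain.norm k) (hdle (k + 1)) (by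
        have h2 := hp.track.near k (hmem k) (by rw [← e1]; exact hmem (k + 1))
        rw [e1]
        linarith)
    have h2 := hdg k hk
    have h3 := hdg (k + 1) (by omega)
    have h4 : Real.exp (-(c * gk (k + 1))) ≤ Real.exp (-(c * gk k)) :=
      Real.exp_le_exp.2 (neg_le_neg (mul_le_mul_of_nonneg_left (gk_succ k) hc0.le))
    have h5 : c₁ * ‖b ((k + 1 : ℕ) : ℤ) - b k‖ ≤ 2 * Real.exp (-(c * gk k)) := by
      calc c₁ * ‖b ((k + 1 : ℕ) : ℤ) - b k‖ ≤ d k + d (k + 1) := h1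
        _ ≤ 2 * Real.exp (-(c * gk k)) := by linarith
    rw [div_mul_eq_mul_div, le_div_iff₀ hc₁]
    linarith
  -- the limit of the shifts
  have hc2 : 0 < c / 2 := half_pos hc0
  have hsum := summable_gk hc2
  obtain ⟨S, hS⟩ : ∃ S : ℝ, S = ∑' m : ℕ, Real.exp (-(c / 2 * gk m)) := ⟨_, rfl⟩
  have hS0 : 0 ≤ S := by rw [hS]; exact tsum_nonneg fun m => (Real.exp_pos _).le
  have hsplit : ∀ n m : ℕ, Real.exp (-(c * gk (K₀ + (n + m)))) ≤ Real.exp (-(c / 2 * gk (K₀ + n))) * Real.exp (-(c / 2 * gk m)) := by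
    intro n m
    rw [← Real.exp_add, Real.exp_le_exp]
    have h1 : gk (K₀ + n) ≤ gk (K₀ + (n + m)) := gk_mono (by omega)
    have h2 : gk m ≤ gk (K₀ + (n + m)) := gk_mono (by omega)
    nlinarith
  set D : ℕ → ℝ := fun n => 2 / c₁ * Real.exp (-(c * gk (K₀ + n))) with hD
  have hDs : Summable D := by
    refine Summable.mul_left _ ?_
    refine Summable.of_nonneg_of_le (fun n => (Real.exp_pos _).le) (fun n => ?_) (hsum.mul_left (Real.exp (-(c / 2 * gk (K₀ + 0)))))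
    have := hsplit 0 n
    rwa [zero_add] at this
  have hdist : ∀ n : ℕ, dist (b ((K₀ + n : ℕ) : ℤ)) (b ((K₀ + n.succ : ℕ) : ℤ)) ≤ D n := by
    intro n
    rw [dist_comm, dist_eq_norm]
    exact hstep (K₀ + n) (by omega)
  obtain ⟨b', hb'⟩ := cauchySeq_tendsto_of_complete (cauchySeq_of_dist_le_of_summable D hdist hDs)
  have hrate : ∀ n : ℕ, ‖b' - b ((K₀ + n : ℕ) : ℤ)‖ ≤ 2 / c₁ * S * Real.exp (-(c / 2 * gk (K₀ + n))) := by
    intro n
    have h1 := dist_le_tsum_of_dist_le_of_tendsto D hdist hDs hb' n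
    rw [← dist_eq_norm, dist_comm]
    refine h1.trans ?_
    have h2 : ∑' m, D (n + m) ≤ ∑' m : ℕ, 2 / c₁ * Real.exp (-(c / 2 * gk (K₀ + n))) * Real.exp (-(c / 2 * gk m)) := by
      refine Summable.tsum_le_tsum (fun m => ?_) ?_ (hsum.mul_left _)
      · rw [hD, mul_assoc]
        exact mul_le_mul_of_nonneg_left (hsplit n m) (by positivity)
      · have := (summable_nat_add_iff n).2 hDs
        refine this.congr fun m => ?_
        rw [add_comm]
    refine h2.trans (le_of_eq ?_)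
    rw [tsum_mul_left, ← hS]
    ring
  have hto : Tendsto (fun n : ℕ => ‖b' - b ((K₀ + n : ℕ) : ℤ)‖) atTop (𝓝 0) := by
    have h1 : Tendsto (fun n : ℕ => b' - b ((K₀ + n : ℕ) : ℤ)) atTop (𝓝 (b' - b')) := tendsto_const_nhds.sub hb'
    rw [sub_self] at h1
    simpa using h1.norm
  obtain ⟨n₁, hn₁⟩ := eventually_atTop.1 (hto.eventually_lt_const hb₀)
  -- the deviation with the shift `b'`
  have hdev : ∀ k : ℕ, K₀ + n₁ ≤ k → dev r F H (z k) b' ≤ (1 + C₂ * (2 / c₁ * S)) * Real.exp (-(c / 2 * gk k)) := by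
    intro k hk
    obtain ⟨n, rfl⟩ : ∃ n, k = K₀ + n := ⟨k - K₀, by omega⟩
    have hn : n₁ ≤ n := by omega
    have h1 := hn₁ n hn
    have h2 : ‖b' - b ((K₀ + n : ℕ) : ℤ)‖ ≤ 2 := by have := hc.b₀_le; linarith
    have hHk : ‖sh (z ((K₀ + n : ℕ) : ℤ) + b ((K₀ + n : ℕ) : ℤ)) H 0‖ ≤ M + 1 := by
      have h3 := le_dQ (r := r) (sh_cont hFc (z ((K₀ + n : ℕ) : ℤ))) (sh_cont hHc (z ((K₀ + n : ℕ) : ℤ) + b ((K₀ + n : ℕ) : ℤ)))
        (w := 0) (by simpa using hr0)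
      have h4 : ‖sh (z ((K₀ + n : ℕ) : ℤ)) F 0‖ ≤ M := by
        show ‖F (0 + z ((K₀ + n : ℕ) : ℤ))‖ ≤ M
        rw [zero_add]
        exact hp.chain.good _
      have h5 : dQ r (sh (z ((K₀ + n : ℕ) : ℤ)) F) (sh (z ((K₀ + n : ℕ) : ℤ) + b ((K₀ + n : ℕ) : ℤ)) H) ≤ 1 := hdle (K₀ + n)
      calc ‖sh (z ((K₀ + n : ℕ) : ℤ) + b ((K₀ + n : ℕ) : ℤ)) H 0‖
          = ‖sh (z ((K₀ + n : ℕ) : ℤ)) F 0 + (sh (z ((K₀ + n : ℕ) : ℤ) + b ((K₀ + n : ℕ) : ℤ)) H 0 - sh (z ((K₀ + n : ℕ) : ℤ)) F 0)‖ := by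
            rw [add_sub_cancel]
        _ ≤ _ := norm_add_le _ _
        _ ≤ M + 1 := add_le_add h4 (h3.trans h5)
    have hlip := hc.lip _ (h.shift H hp.memH (z ((K₀ + n : ℕ) : ℤ) + b ((K₀ + n : ℕ) : ℤ))) hHk
    have h6 : dev r F H (z ((K₀ + n : ℕ) : ℤ)) b' ≤ d (K₀ + n) + C₂ * ‖b' - b ((K₀ + n : ℕ) : ℤ)‖ := by
      unfold dev
      refine dQ_le hr0 fun w hw => ?_
      have h7 := hlip w (b' - b ((K₀ + n : ℕ) : ℤ)) hw h2
      have h8 := le_dQ (r := r) (sh_cont hFc (z ((K₀ + n : ℕ) : ℤ))) (sh_cont hHc (z ((K₀ + n : ℕ) : ℤ) + b ((K₀ + n : ℕ) : ℤ))) hw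
      have e1 : sh (z ((K₀ + n : ℕ) : ℤ) + b') H w = sh (z ((K₀ + n : ℕ) : ℤ) + b ((K₀ + n : ℕ) : ℤ)) H (w + (b' - b ((K₀ + n : ℕ) : ℤ))) := by
        show H _ = H _
        congr 1
        ring
      rw [e1]
      calc ‖sh (z ((K₀ + n : ℕ) : ℤ) + b ((K₀ + n : ℕ) : ℤ)) H (w + (b' - b ((K₀ + n : ℕ) : ℤ))) - sh (z ((K₀ + n : ℕ) : ℤ)) F w‖
          = ‖(sh (z ((K₀ + n : ℕ) : ℤ) + b ((K₀ + n : ℕ) : ℤ)) H w - sh (z ((K₀ + n : ℕ) : ℤ)) F w) +
            (sh (z ((K₀ + n : ℕ) : ℤ) + b ((K₀ + n : ℕ) : ℤ)) H (w + (b' - b ((K₀ + n : ℕ) : ℤ))) -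
              sh (z ((K₀ + n : ℕ) : ℤ) + b ((K₀ + n : ℕ) : ℤ)) H w)‖ := by
            congr 1
            abel
        _ ≤ _ := norm_add_le _ _
        _ ≤ d (K₀ + n) + C₂ * ‖b' - b ((K₀ + n : ℕ) : ℤ)‖ := add_le_add h8 h7
    have h9 := hrate n
    have h10 : d (K₀ + n) ≤ Real.exp (-(c / 2 * gk (K₀ + n))) := by
      refine (hdg (K₀ + n) (by omega)).trans (Real.exp_le_exp.2 (neg_le_neg ?_))
      have := gk_nonneg (K₀ + n)
      nlinarith
    have h11 : C₂ * ‖b' - b ((K₀ + n : ℕ) : ℤ)‖ ≤ C₂ * (2 / c₁ * S * Real.exp (-(c / 2 * gk (K₀ + n)))) :=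
      mul_le_mul_of_nonneg_left h9 (by linarith)
    calc dev r F H (z ((K₀ + n : ℕ) : ℤ)) b' ≤ d (K₀ + n) + C₂ * ‖b' - b ((K₀ + n : ℕ) : ℤ)‖ := h6
      _ ≤ Real.exp (-(c / 2 * gk (K₀ + n))) + C₂ * (2 / c₁ * S * Real.exp (-(c / 2 * gk (K₀ + n)))) := add_le_add h10 h11
      _ = _ := by ring
  -- the constant for all `k`
  have hdev0 : ∀ k : ℕ, 0 ≤ dev r F H (z k) b' := fun k => dQ_nonneg _ _
  have hA1 : 0 < 1 + C₂ * (2 / c₁ * S) := by positivity
  obtain ⟨T, hT⟩ : ∃ T : ℝ, T = ∑ k ∈ Finset.range (K₀ + n₁), (Real.log (1 + dev r F H (z k) b') + c / 2 * gk k) := ⟨_, rfl⟩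
  have hterm : ∀ k : ℕ, 0 ≤ Real.log (1 + dev r F H (z k) b') + c / 2 * gk k := fun k =>
    add_nonneg (Real.log_nonneg (by linarith [hdev0 k])) (mul_nonneg hc2.le (gk_nonneg k))
  have hT0 : 0 ≤ T := by rw [hT]; exact Finset.sum_nonneg fun k _ => hterm k
  have hall : ∀ k : ℕ, dev r F H (z k) b' ≤ Real.exp ((|Real.log (1 + C₂ * (2 / c₁ * S))| + T) - c / 2 * gk k) := by
    intro k
    by_cases hk : K₀ + n₁ ≤ k
    · refine (hdev k hk).trans ?_
      have h1 : 1 + C₂ * (2 / c₁ * S) ≤ Real.exp (|Real.log (1 + C₂ * (2 / c₁ * S))| + T) := by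
        rw [← Real.log_le_iff_le_exp hA1]
        exact (le_abs_self _).trans (by linarith)
      rw [sub_eq_add_neg, Real.exp_add]
      exact mul_le_mul_of_nonneg_right h1 (Real.exp_pos _).le
    · have hk' : k ∈ Finset.range (K₀ + n₁) := Finset.mem_range.2 (by omega)
      have h1 : Real.log (1 + dev r F H (z k) b') + c / 2 * gk k ≤ T := by
        rw [hT]
        exact Finset.single_le_sum (f := fun k : ℕ => Real.log (1 + dev r F H (z k) b') + c / 2 * gk k) (fun k _ => hterm k) hk'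
      have h2 : 1 + dev r F H (z k) b' ≤ Real.exp ((|Real.log (1 + C₂ * (2 / c₁ * S))| + T) - c / 2 * gk k) := by
        rw [← Real.log_le_iff_le_exp (by linarith [hdev0 k])]
        have := abs_nonneg (Real.log (1 + C₂ * (2 / c₁ * S)))
        linarith
      linarith
  have heq : sh b' H = F := by
    refine hl F hp.memF (sh b' H) (h.shift H hp.memH b') z hp.chain (c / 2) (|Real.log (1 + C₂ * (2 / c₁ * S))| + T) hc2 ?_
    intro k w hw
    have h1 := le_dQ (r := r) (sh_cont hFc (z k)) (sh_cont hHc (z k + b')) hw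
    have e1 : sh (z k + b') H w = sh b' H (z k + w) := by
      show H _ = H _
      congr 1
      ring
    have e2 : sh (z k) F w = F (z k + w) := by
      show F _ = F _
      congr 1
      ring
    rw [e1, e2] at h1
    exact h1.trans (hall k)
  -- contradiction
  have hzero : dev r F H (z ((K₀ + n₁ : ℕ) : ℤ)) b' ≤ 0 := by
    unfold dev
    refine dQ_le hr0 fun w _ => ?_
    have e1 : sh (z ((K₀ + n₁ : ℕ) : ℤ) + b') H w = sh (z ((K₀ + n₁ : ℕ) : ℤ)) F w := by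
      rw [← heq]
      show H _ = H _
      congr 1
      ring
    rw [e1, sub_self, norm_zero]
  have hmin := hp.track.min ((K₀ + n₁ : ℕ) : ℤ) (hmem _) b' (hn₁ n₁ le_rfl).le
  have hpos := hp.pos ((K₀ + n₁ : ℕ) : ℤ) (Int.natCast_nonneg _)
  linarith

end Pool.Agent.SR3.G

end
end

section

/-!
# SR3 G Fol: the difference along the chain
-/

set_option autoImplicit false

open Topology Filter Metric

noncomputable section

namespace Pool.Agent.SR3.G

variable {V : Type} [NormedAddCommGroup V] [NormedSpace ℂ V] [CompleteSpace V] {KK : Set (ℂ → V)} {M γ L r b₀ c₁ C₂ ε₀ : ℝ}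

/-- a linear function is smaller than `exp (A (2 + x) ^ γ)` -/
theorem exists_lin_le {γ : ℝ} (hγ : 0 < γ) {B : ℝ} (hB : 0 ≤ B) : ∃ A : ℝ, 0 ≤ A ∧ ∀ x : ℝ, 0 ≤ x → 1 + B * x ≤ Real.exp (A * pw γ x) := by
  refine ⟨Real.log (1 + B) + 1 / γ, add_nonneg (Real.log_nonneg (by linarith)) (by positivity), fun x hx => ?_⟩
  have h2 : (0 : ℝ) < 2 + x := by linarith
  have hy1 : 1 ≤ pw γ x := Real.one_le_rpow (by linarith) hγ.le
  have hy0 : 0 < pw γ x := by linarith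
  have h3 : 1 + B * x ≤ (1 + B) * (2 + x) := by nlinarith
  refine h3.trans ?_
  have h4 : (1 + B) * (2 + x) = Real.exp (Real.log (1 + B) + Real.log (2 + x)) := by
    rw [Real.exp_add, Real.exp_log (by linarith), Real.exp_log h2]
  rw [h4]
  refine Real.exp_le_exp.2 ?_
  have h5 : Real.log (pw γ x) = γ * Real.log (2 + x) := Real.log_rpow h2 γ
  have h6 : Real.log (pw γ x) ≤ pw γ x := by linarith [Real.log_le_sub_one_of_pos hy0]
  have h7 : Real.log (2 + x) ≤ 1 / γ * pw γ x := by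
    rw [h5] at h6
    rw [one_div, inv_mul_eq_div, le_div_iff₀ hγ]
    linarith
  have h8 : Real.log (1 + B) ≤ Real.log (1 + B) * pw γ x := le_mul_of_one_le_right (Real.log_nonneg (by linarith)) hy1
  nlinarith

/-- The difference along the chain, from the deviations `dev ≤ s * e k` and the shifts.  (`e k` is the bound of the deviations in units of `s`.) -/
theorem follow_bound (h : Sys KK M γ) (hc : Cst KK M L r b₀ c₁ C₂) :
    ∃ A : ℝ, 0 ≤ A ∧ ∀ F ∈ KK, ∀ H ∈ KK, ∀ (z b : ℤ → ℂ) (I : Set ℤ) (s : ℝ) (e : ℤ → ℝ), IsChain M L F z → b 0 = 0 → (0 : ℤ) ∈ I → I.OrdConnected →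
      0 < s → (∀ i j : ℤ, |i| ≤ |j| → e i ≤ e j) → Track r b₀ 1 F H z b I → (∀ k ∈ I, dev r F H (z k) (b k) ≤ s * Real.exp (e k)) → (∀ k ∉ I, 1 ≤ s * Real.exp (e k)) →
      ∀ (k : ℤ) (w : ℂ), ‖w‖ ≤ r → ‖H (z k + w) - F (z k + w)‖ ≤ s * Real.exp (A * pw γ |(k : ℝ)| + e k) := by
  have hc₁ := hc.c₁_pos
  have hC₂ := hc.C₂_ge
  have hL1 := hc.L1
  have hrL := hc.rL
  obtain ⟨A₀, hA₀, hgrow⟩ := chain_grow h L r (M + 1)
  set B : ℝ := 2 * C₂ / c₁ + 4 / c₁ + 2 with hB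
  have hB0 : 0 ≤ B := by positivity
  obtain ⟨A₁, hA₁, hlin⟩ := exists_lin_le h.γ_pos hB0
  refine ⟨A₀ + A₁, by positivity, ?_⟩
  intro F hF H hH z b I s e hz hb0 hI0 hI hs hmono htr hdev hout k w hw
  have hFc : Continuous F := (h.diff F hF).continuous
  have hHc : Continuous H := (h.diff H hH).continuous
  have hr0 : 0 ≤ r := by linarith
  have hpw : 0 ≤ pw γ |(k : ℝ)| := Real.rpow_nonneg (by linarith [abs_nonneg (k : ℝ)]) _
  set E : ℝ := s * Real.exp (e k) with hE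
  have hE0 : 0 < E := by positivity
  have hgoal : s * Real.exp ((A₀ + A₁) * pw γ |(k : ℝ)| + e k) = E * (Real.exp (A₀ * pw γ |(k : ℝ)|) * Real.exp (A₁ * pw γ |(k : ℝ)|)) := by
    rw [hE, Real.exp_add, add_mul, Real.exp_add]
    ring
  rw [hgoal]
  have hx1 : 1 ≤ Real.exp (A₀ * pw γ |(k : ℝ)|) := Real.one_le_exp (by positivity)
  have hx2 := hlin |(k : ℝ)| (abs_nonneg _)
  have hk0 : 0 ≤ |(k : ℝ)| := abs_nonneg _
  -- the value of `dev`
  have hdv : ∀ j, ∀ v : ℂ, ‖v‖ ≤ r → ‖H (v + (z j + b j)) - F (v + z j)‖ ≤ dev r F H (z j) (b j) := by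
    intro j v hv
    exact le_dQ (F := sh (z j) F) (H := sh (z j + b j) H) (hFc.comp (continuous_id.add continuous_const))
      (hHc.comp (continuous_id.add continuous_const)) hv
  -- the growth bound
  have hH0 : ‖H 0‖ ≤ M + 1 := by
    have h1 := hdv 0 0 (by rw [norm_zero]; exact hr0)
    rw [hb0, hz.zero] at h1
    simp only [add_zero] at h1
    have h2 : dev r F H 0 0 ≤ 1 := by
      have := htr.le 0 hI0
      rwa [hb0, hz.zero] at this
    have h3 : ‖F 0‖ ≤ M := by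
      have := hz.good 0
      rwa [hz.zero] at this
    calc ‖H 0‖ = ‖(H 0 - F 0) + F 0‖ := by rw [sub_add_cancel]
      _ ≤ ‖H 0 - F 0‖ + ‖F 0‖ := norm_add_le _ _
      _ ≤ M + 1 := by linarith
  have hF0 : ‖F 0‖ ≤ M + 1 := by
    have := hz.good 0
    rw [hz.zero] at this
    linarith
  have hbig : ‖H (z k + w) - F (z k + w)‖ ≤ 2 * Real.exp (A₀ * pw γ |(k : ℝ)|) := by
    have h1 := hgrow F hF H hH z hz hH0 k w hw
    have h2 := hgrow F hF F hF z hz hF0 k w hw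
    exact (norm_sub_le _ _).trans (by linarith)
  by_cases hk : k ∈ I
  · -- the shift
    have hst : ∀ j : ℤ, j ∈ I → j + 1 ∈ I → |j| ≤ |k| → |j + 1| ≤ |k| → ‖b (j + 1) - b j‖ ≤ 2 / c₁ * E := by
      intro j hj hj1 ha ha1
      have h1 := step h hc hF hH (a := z j) (a' := z (j + 1)) (b := b j) (b' := b (j + 1)) (hz.good _) (hz.norm j) (htr.le _ hj1)
        ((htr.near j hj hj1).trans (by linarith [hc.b₀_pos]))
      have h2 : dev r F H (z j) (b j) ≤ E := (hdev j hj).trans (mul_le_mul_of_nonneg_left (Real.exp_le_exp.2 (hmono _ _ ha)) hs.le)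
      have h3 : dev r F H (z (j + 1)) (b (j + 1)) ≤ E := (hdev _ hj1).trans (mul_le_mul_of_nonneg_left (Real.exp_le_exp.2 (hmono _ _ ha1)) hs.le)
      rw [div_mul_eq_mul_div, le_div_iff₀ hc₁]
      linarith
    have hbk : ‖b k‖ ≤ 2 / c₁ * |(k : ℝ)| * E := by
      have hq : 0 ≤ 2 / c₁ * E := by positivity
      rcases le_total 0 k with hk' | hk'
      · have hind : ∀ n : ℕ, (n : ℤ) ≤ k → ‖b n‖ ≤ 2 / c₁ * n * E := by
          intro n
          induction n with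
          | zero =>
            intro _
            simp [hb0]
          | succ n ih =>
            intro hn
            have hn' : (n : ℤ) ≤ k := by push_cast at hn; omega
            have m1 : (n : ℤ) ∈ I := hI.out hI0 hk ⟨by omega, hn'⟩
            have m2 : (n : ℤ) + 1 ∈ I := hI.out hI0 hk ⟨by omega, by push_cast at hn; omega⟩
            have h1 := hst n m1 m2 (by rw [abs_of_nonneg (by omega), abs_of_nonneg hk']; exact hn')
              (by rw [abs_of_nonneg (by omega), abs_of_nonneg hk']; push_cast at hn; omega)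
            have h2 := ih hn'
            have h3 : ‖b ((n : ℤ) + 1)‖ ≤ ‖b n‖ + ‖b ((n : ℤ) + 1) - b n‖ := by
              calc ‖b ((n : ℤ) + 1)‖ = ‖b n + (b ((n : ℤ) + 1) - b n)‖ := by rw [add_sub_cancel]
                _ ≤ _ := norm_add_le _ _
            push_cast
            calc ‖b ((n : ℤ) + 1)‖ ≤ 2 / c₁ * n * E + 2 / c₁ * E := h3.trans (add_le_add h2 h1)
              _ = 2 / c₁ * (n + 1) * E := by ring
        have h1 := hind k.toNat (by rw [Int.toNat_of_nonneg hk'])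
        have h2 : ((k.toNat : ℤ)) = k := Int.toNat_of_nonneg hk'
        have h3 : ((k.toNat : ℝ)) = |(k : ℝ)| := by
          rw [abs_of_nonneg (by exact_mod_cast hk')]
          exact_mod_cast h2
        rw [h2, h3] at h1
        exact h1
      · have hind : ∀ n : ℕ, k ≤ -(n : ℤ) → ‖b (-(n : ℤ))‖ ≤ 2 / c₁ * n * E := by
          intro n
          induction n with
          | zero =>
            intro _
            simp [hb0]
          | succ n ih =>
            intro hn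
            have hn' : k ≤ -(n : ℤ) := by push_cast at hn; omega
            have m1 : -(n : ℤ) ∈ I := hI.out hk hI0 ⟨hn', by omega⟩
            have m2 : -(n : ℤ) - 1 ∈ I := hI.out hk hI0 ⟨by push_cast at hn; omega, by omega⟩
            have h1 := hst (-(n : ℤ) - 1) m2 (by rw [sub_add_cancel]; exact m1)
              (by rw [abs_of_nonpos (by omega), abs_of_nonpos hk']; push_cast at hn; omega)
              (by rw [sub_add_cancel, abs_of_nonpos (by omega), abs_of_nonpos hk']; omega)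
            rw [sub_add_cancel] at h1
            have h2 := ih hn'
            have h3 : ‖b (-(n : ℤ) - 1)‖ ≤ ‖b (-(n : ℤ))‖ + ‖b (-(n : ℤ)) - b (-(n : ℤ) - 1)‖ := by
              calc ‖b (-(n : ℤ) - 1)‖ = ‖b (-(n : ℤ)) - (b (-(n : ℤ)) - b (-(n : ℤ) - 1))‖ := by rw [sub_sub_cancel]
                _ ≤ _ := norm_sub_le _ _
            have e1 : (-((n + 1 : ℕ) : ℤ)) = -(n : ℤ) - 1 := by push_cast; ring
            rw [e1]
            push_cast
            calc ‖b (-(n : ℤ) - 1)‖ ≤ 2 / c₁ * n * E + 2 / c₁ * E := h3.trans (add_le_add h2 h1)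
              _ = 2 / c₁ * (n + 1) * E := by ring
        have h2 : (((-k).toNat : ℤ)) = -k := Int.toNat_of_nonneg (by omega)
        have h1 := hind (-k).toNat (by rw [h2]; omega)
        have h3 : (((-k).toNat : ℝ)) = |(k : ℝ)| := by
          rw [abs_of_nonpos (by exact_mod_cast hk')]
          exact_mod_cast h2
        rw [h2, h3, neg_neg] at h1
        exact h1
    rcases le_or_gt ‖b k‖ 1 with hb1 | hb1
    · -- small shift
      have hG : sh (z k + b k) H ∈ KK := h.shift H hH _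
      have hG0 : ‖sh (z k + b k) H 0‖ ≤ M + 1 := by
        have h1 := hdv k 0 (by rw [norm_zero]; exact hr0)
        have h2 := htr.le k hk
        have h3 := hz.good k
        rw [zero_add] at h1
        calc ‖sh (z k + b k) H 0‖ = ‖(H (0 + (z k + b k)) - F (z k)) + F (z k)‖ := by rw [sub_add_cancel]; rfl
          _ ≤ ‖H (0 + (z k + b k)) - F (z k)‖ + ‖F (z k)‖ := norm_add_le _ _
          _ ≤ M + 1 := by rw [zero_add] at h1 ⊢; linarith
      have h1 := hc.lip _ hG hG0 w (-b k) hw (by rw [norm_neg]; linarith)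
      have e1 : sh (z k + b k) H (w + -b k) = H (z k + w) := by
        show H (w + -b k + (z k + b k)) = H (z k + w)
        congr 1
        ring
      have e2 : sh (z k + b k) H w = H (w + (z k + b k)) := rfl
      rw [e1, e2, norm_neg] at h1
      have h2 := (hdv k w hw).trans (hdev k hk)
      have e3 : H (z k + w) - F (z k + w) = (H (z k + w) - H (w + (z k + b k))) + (H (w + (z k + b k)) - F (w + z k)) := by
        rw [add_comm (z k) w]
        abel
      rw [e3]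
      refine (norm_add_le _ _).trans ?_
      have h3 : C₂ * ‖b k‖ ≤ C₂ * (2 / c₁ * |(k : ℝ)| * E) := mul_le_mul_of_nonneg_left hbk (by linarith)
      have h4 : C₂ * (2 / c₁ * |(k : ℝ)| * E) + E ≤ E * (1 + B * |(k : ℝ)|) := by
        have h5 : C₂ * (2 / c₁ * |(k : ℝ)| * E) + E = E * (1 + (2 * C₂ / c₁) * |(k : ℝ)|) := by ring
        rw [h5]
        refine mul_le_mul_of_nonneg_left ?_ hE0.le
        have h6 : (2 * C₂ / c₁) * |(k : ℝ)| ≤ B * |(k : ℝ)| := by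
          refine mul_le_mul_of_nonneg_right ?_ hk0
          rw [hB]
          have : 0 ≤ 4 / c₁ := by positivity
          linarith
        linarith
      have h5 : E * (1 + B * |(k : ℝ)|) ≤ E * (Real.exp (A₀ * pw γ |(k : ℝ)|) * Real.exp (A₁ * pw γ |(k : ℝ)|)) := by
        refine mul_le_mul_of_nonneg_left ?_ hE0.le
        exact hx2.trans (le_mul_of_one_le_left (Real.exp_pos _).le hx1)
      have h6 : dev r F H (z k) (b k) ≤ E := hdev k hk
      have h7 := hdv k w hw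
      linarith
    · -- large shift
      have h1 : 1 ≤ 2 / c₁ * |(k : ℝ)| * E := hb1.le.trans hbk
      have h2 : 2 * Real.exp (A₀ * pw γ |(k : ℝ)|) ≤ 2 * Real.exp (A₀ * pw γ |(k : ℝ)|) * (2 / c₁ * |(k : ℝ)| * E) :=
        le_mul_of_one_le_right (by positivity) h1
      refine hbig.trans (h2.trans ?_)
      have h3 : 2 * Real.exp (A₀ * pw γ |(k : ℝ)|) * (2 / c₁ * |(k : ℝ)| * E) = E * (Real.exp (A₀ * pw γ |(k : ℝ)|) * (4 / c₁ * |(k : ℝ)|)) := by ring
      rw [h3]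
      refine mul_le_mul_of_nonneg_left (mul_le_mul_of_nonneg_left ?_ (Real.exp_pos _).le) hE0.le
      refine le_trans ?_ hx2
      have h6 : (4 / c₁) * |(k : ℝ)| ≤ B * |(k : ℝ)| := by
        refine mul_le_mul_of_nonneg_right ?_ hk0
        rw [hB]
        have : 0 ≤ 2 * C₂ / c₁ := by positivity
        linarith
      linarith
  · -- outside `I`
    have h1 : 1 ≤ E := hout k hk
    have hk1 : 1 ≤ |(k : ℝ)| := by
      have h2 : k ≠ 0 := fun h0 => hk (h0 ▸ hI0)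
      have h3 : 1 ≤ |k| := Int.one_le_abs h2
      exact_mod_cast h3
    have h2 : (2 : ℝ) ≤ Real.exp (A₁ * pw γ |(k : ℝ)|) := by
      refine le_trans ?_ hx2
      have h4 : 2 ≤ B := by
        rw [hB]
        have : 0 ≤ 2 * C₂ / c₁ := by positivity
        have : 0 ≤ 4 / c₁ := by positivity
        linarith
      nlinarith
    refine hbig.trans ?_
    have h3 : 2 * Real.exp (A₀ * pw γ |(k : ℝ)|) ≤ Real.exp (A₀ * pw γ |(k : ℝ)|) * Real.exp (A₁ * pw γ |(k : ℝ)|) := by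
      rw [mul_comm]
      exact mul_le_mul_of_nonneg_left h2 (Real.exp_pos _).le
    exact h3.trans (le_mul_of_one_le_left (by positivity) h1)

end Pool.Agent.SR3.G

end
end

section

/-!
# SR3 G Ret: two close translates of one curve
-/

set_option autoImplicit false
set_option linter.unusedSectionVars false

open Topology Filter Metric

noncomputable section

namespace Pool.Agent.SR3.G

variable {V : Type} [NormedAddCommGroup V] [NormedSpace ℂ V] [CompleteSpace V] {KK : Set (ℂ → V)} {M γ L r b₀ c₁ C₂ ε₀ : ℝ}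

theorem chain_re {F : ℂ → V} {z : ℤ → ℂ} (h : IsChain M L F z) (k : ℤ) (n : ℕ) : (n : ℝ) ≤ (z (k + n)).re - (z k).re := by
  induction n with
  | zero => simp
  | succ n ih =>
    have h1 := h.re (k + n)
    have h2 : k + (n : ℤ) + 1 = k + ((n + 1 : ℕ) : ℤ) := by push_cast; ring
    rw [h2] at h1
    push_cast at h1 ⊢
    linarith

/-- two close translates of one curve, at points which are far apart -/
theorem exists_return (h : Sys KK M γ) (hc : Cst KK M L r b₀ c₁ C₂) {δ : ℝ} (hδ : 0 < δ) :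
    ∃ (F : ℂ → V) (z : ℤ → ℂ) (ζ : ℂ), F ∈ KK ∧ IsChain M L F z ∧ 1 ≤ ζ.re ∧ ‖F ζ‖ ≤ M ∧ dQ r F (sh ζ F) ≤ δ := by
  have hr : 0 ≤ r := by linarith [hc.L1, hc.rL]
  obtain ⟨F₁, hF₁, h0⟩ := h.nonempty
  obtain ⟨z, hz⟩ := hc.chain F₁ hF₁ h0
  set G : ℕ → ℂ → V := fun k => sh (z k) F₁ with hG
  have hGm : ∀ k, G k ∈ KK := fun k => h.shift F₁ hF₁ _
  have hG0 : ∀ k, ‖G k 0‖ ≤ M := fun k => by
    show ‖F₁ (0 + z k)‖ ≤ M
    rw [zero_add]
    exact hz.good k
  obtain ⟨H, hH, hlim⟩ := h.cpt (hyperfilter ℕ) Nat.hyperfilter_le_atTop M G hGm hG0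
  have hGc : ∀ k, Continuous (G k) := fun k => (h.diff _ (hGm k)).continuous
  have hHc : Continuous H := (h.diff _ hH).continuous
  have h1 : Tendsto (fun k => dQ r (G k) H) (hyperfilter ℕ) (𝓝 (dQ r H H)) :=
    tendsto_dQ hr hGc (fun _ => hHc) hHc hHc hlim fun u hu x _ => ⟨Set.univ, univ_mem, Eventually.of_forall fun _ _ _ => refl_mem_uniformity hu⟩
  have h2 : dQ r H H = 0 := le_antisymm (dQ_le hr fun w _ => by simp) (dQ_nonneg _ _)
  rw [h2] at h1
  have h3 : ∀ᶠ k in (hyperfilter ℕ : Filter ℕ), dQ r (G k) H < δ / 2 := h1.eventually (gt_mem_nhds (by linarith))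
  have h4 : ∃ᶠ k in (atTop : Filter ℕ), dQ r (G k) H < δ / 2 := h3.frequently.filter_mono Nat.hyperfilter_le_atTop
  obtain ⟨k, -, hk⟩ := frequently_atTop.1 h4 0
  obtain ⟨k', hkk, hk'⟩ := frequently_atTop.1 h4 (k + 1)
  refine ⟨G k, fun j => z (j + k) - z k, z k' - z k, hGm k, ?_, ?_, ?_, ?_⟩
  · exact hz.shift k
  · have h6 := chain_re hz k (k' - k)
    have h7 : (k : ℤ) + ((k' - k : ℕ) : ℤ) = k' := by omega
    rw [h7] at h6
    rw [Complex.sub_re]
    have h8 : (1 : ℝ) ≤ ((k' - k : ℕ) : ℝ) := by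
      have : 1 ≤ k' - k := by omega
      exact_mod_cast this
    linarith
  · show ‖F₁ (z k' - z k + z k)‖ ≤ M
    rw [sub_add_cancel]
    exact hz.good k'
  · have h6 : sh (z k' - z k) (G k) = G k' := by
      funext w
      show F₁ (w + (z k' - z k) + z k) = F₁ (w + z k')
      congr 1
      ring
    rw [h6]
    have h7 := dQ_tri (r := r) hr (hGc k) hHc (hGc k')
    rw [dQ_comm H (G k')] at h7
    linarith

end Pool.Agent.SR3.G

end
end

section

/-!
# SR3 G Zero: the deviations of an asymptotic pair tend to zero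

PROOF.  If not, there are indices `k n → ∞` with `dev ≥ δ`.  Translate to `k n`; `exists_lim` with `J n = {k | - k n ≤ k}`, `I = univ` and the
expansivity give `dev = 0` at `0`.
-/

set_option autoImplicit false

open Topology Filter Metric

noncomputable section

namespace Pool.Agent.SR3.G

variable {V : Type} [NormedAddCommGroup V] [NormedSpace ℂ V] [CompleteSpace V] {KK : Set (ℂ → V)} {M γ L r b₀ c₁ C₂ ε₀ : ℝ}

theorem tendsto_zero (h : Sys KK M γ) (hc : Cst KK M L r b₀ c₁ C₂) (he : Expa KK M L r b₀ c₁ ε₀) {F H : ℂ → V} {z b : ℤ → ℂ}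
    (hp : Asym KK M L r b₀ ε₀ F H z b) : Tendsto (fun k : ℕ => dev r F H (z k) (b k)) atTop (𝓝 0) := by
  by_contra hcon
  rw [Metric.tendsto_atTop] at hcon
  push Not at hcon
  obtain ⟨δ, hδ, hk⟩ := hcon
  choose k hk hkδ using hk
  have hkδ' : ∀ n, δ ≤ dev r F H (z (k n)) (b (k n)) := by
    intro n
    have h1 := hkδ n
    have h2 : 0 ≤ dev r F H (z (k n)) (b (k n)) := dQ_nonneg _ _
    rw [dist_zero_right, Real.norm_eq_abs, abs_of_nonneg h2] at h1
    exact h1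
  have hε : ε₀ ≤ 1 := by
    have h1 := he.le
    have h2 : c₁ * b₀ ≤ 1 * 1 := mul_le_mul hc.c₁_le (hc.b₀_le.trans (by norm_num)) hc.b₀_pos.le zero_le_one
    linarith
  obtain ⟨F₀, H₀, z₀, b', hF₀, hH₀, hz₀, hb'0, hT, hlim⟩ := exists_lim h hc (hyperfilter ℕ) Nat.hyperfilter_le_atTop hε
    (F := fun n => sh (z (k n)) F) (H := fun n => sh (z (k n) + b (k n)) H) (z := fun n j => z (j + k n) - z (k n)) (b := fun n j => b (j + k n) - b (k n))
    (J := fun n => {j : ℤ | 0 ≤ j + k n}) (I := Set.univ)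
    (fun n => h.shift F hp.memF _) (fun n => h.shift H hp.memH _) (fun n => IsChain.shift hp.chain (k n))
    (fun n => by simp) (fun n => by
      have e : ∀ (j : ℤ) (b' : ℂ), dev r (sh (z (k n)) F) (sh (z (k n) + b (k n)) H) (z (j + k n) - z (k n)) (b' - b (k n)) = dev r F H (z (j + k n)) b' := by
        intro j b'
        rw [dev_sh', sub_add_cancel, sub_add_cancel]
      refine ⟨fun j hj => ?_, fun j hj b' hb' => ?_, fun j hj hj1 => ?_⟩
      · rw [e]
        exact hp.track.le _ hj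
      · rw [e]
        have h1 := hp.track.min (j + k n) hj (b' + b (k n)) (by
          rw [show b' + b (k n) - b (j + k n) = b' - (b (j + k n) - b (k n)) by ring]
          exact hb')
        rwa [← e j (b' + b (k n)), add_sub_cancel_right] at h1
      · rw [show b (j + 1 + k n) - b (k n) - (b (j + k n) - b (k n)) = b (j + k n + 1) - b (j + k n) by
          rw [show j + 1 + (k n : ℤ) = j + k n + 1 by ring]; ring]
        exact hp.track.near _ hj (by
          rw [show j + (k n : ℤ) + 1 = j + 1 + k n by ring]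
          exact hj1))
    (fun n => by
      show (0 : ℤ) ≤ 0 + (k n : ℤ)
      omega) (Set.mem_univ _) Set.ordConnected_univ (fun j _ => by
      have h1 : ∀ᶠ n : ℕ in atTop, 0 ≤ j + (k n : ℤ) := by
        filter_upwards [eventually_ge_atTop (j.natAbs)] with n hn
        have h2 := hk n
        omega
      exact Nat.hyperfilter_le_atTop h1)
  have h0 := he.exp F₀ hF₀ H₀ hH₀ z₀ b' hz₀ hT 0
  have h1 := hlim 0 (Set.mem_univ _)
  rw [h0] at h1
  have h2 : δ ≤ 0 := ge_of_tendsto' h1 fun n => by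
    rw [dev_sh', sub_add_cancel, sub_add_cancel, zero_add]
    exact hkδ' n
  exact absurd hδ (not_lt.2 h2)

end Pool.Agent.SR3.G

end
end

section

/-!
# SR3 EGDefs: block E, the family of the curves of the class
-/

set_option autoImplicit false

open Topology Filter Metric InnerProductSpace Laplacian

noncomputable section

namespace Pool.Agent.SR3

open Pool.Agent.H36.BP (EN fs)
open Pool.Agent.SDR (gc)
open Pool.Agent.SR3.BE (Fam Hyp Fit AllFlat Rel ht vee)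

variable {N : ℕ}

/-- the curves of the class with the values of the forms -/
def ECl (G : Geo N) (T : Set (EN N)) : Type := {y : (G.J → ℂ) × (ℂ → EN N) // G.Cl T y.1 y.2}

/-- the functions `lam i + B₀` along the curves of the class -/
def eFam (G : Geo N) (T : Set (EN N)) (rho : EN N → ℝ) (δ B₀ : ℝ) : Fam (ECl G T) G.ι :=
  ⟨fun x i z => G.lam i (x.1.2 z) + B₀, fun x => Geo.Gd rho δ x.1.2⟩

theorem lin_eq (u a : ℂ) (β β' : ℝ) (z : ℂ) : lin u a β β' z = vee u a β β' z := rfl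

end Pool.Agent.SR3

end
end

section

/-!
# SR3 F Cst (block F of SDR2): the coefficient of a tangential variation is constant

In a chart `(σ, τ)` the form `w j` is the restriction of the function `(x, ξ) ↦ w j (σ (τ x)) (dσ (dτ ξ))`, analytic near `(F₀ z, F₀' z)`.
Its derivative vanishes on `(V z, V' z)`, because the values of `w j` along `F k` and `H k` are the same numbers, and on `(F₀' z, F₀'' z)`; on
`(0, F₀' z)` it is `m j q j` (Euler).
-/

set_option autoImplicit false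

open Topology Filter Metric Asymptotics

noncomputable section

namespace Pool.Agent.SR3.F

open Pool.Agent.H36.BP (EN fs)
open Pool.Agent.H17BP (Surface IsChart)
open Pool.Agent.H14.PP (Tan CurveAt)

variable {N : ℕ} {G : Geo N} {T : Set (EN N)}

/-! ## charts -/

section

variable {X : Set (EN N)} {σ : ℂ × ℂ → EN N} {τ : EN N → ℂ × ℂ}

/-- the points and tangent vectors of the surface near the centre of a chart -/
theorem cst_chart (h : IsChart X σ τ) :
    ∀ᶠ y in 𝓝 (σ 0), y ∈ X → ∃ c : ℂ, c ≠ 0 ∧ y = c • σ (τ y) ∧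
      ∀ v, Tan X y v → ∃ a : ℂ, v = c • fderiv ℂ σ (τ y) (fderiv ℂ τ y v) + a • σ (τ y) := by
  have h0 : τ (σ 0) = 0 := h.left.self_of_nhds
  have h1 : Tendsto τ (𝓝 (σ 0)) (𝓝 0) := by
    have := h.τ_an.continuousAt
    rwa [ContinuousAt, h0] at this
  have h2 : ∀ᶠ y in 𝓝 (σ 0), σ (τ y) ≠ 0 := (h.σ_an.continuousAt.tendsto.comp h1).eventually_ne h.ne
  filter_upwards [h.right.eventually_nhds, h.τ_an.eventually_analyticAt, h1.eventually h.σ_an.eventually_analyticAt, h2] with y h3 h4 h5 h6 hyX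
  obtain ⟨c, hc, h7⟩ := h3.self_of_nhds hyX
  refine ⟨c, hc, h7, fun v hv => ?_⟩
  obtain ⟨F, ⟨hF, hFX⟩, hF0, hF1⟩ := hv
  have h8 : AnalyticAt ℂ (fun z => τ (F z)) 0 := AnalyticAt.comp_of_eq h4 hF hF0
  have h9 : AnalyticAt ℂ (fun z => σ (τ (F z))) 0 := AnalyticAt.comp_of_eq h5 h8 (by rw [hF0])
  obtain ⟨b, hb⟩ : ∃ b, σ (τ y) b ≠ 0 := by
    by_contra hne
    push Not at hne
    exact h6 (by ext b; exact hne b)
  have hco : ∀ {G : ℂ → EN N}, AnalyticAt ℂ G 0 → AnalyticAt ℂ (fun z => G z b) 0 := fun {G} hG =>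
    ((EuclideanSpace.proj b : EN N →L[ℂ] ℂ).analyticAt _).fun_comp hG
  have hGb : σ (τ (F 0)) b ≠ 0 := by rwa [hF0]
  have hk : AnalyticAt ℂ (fun z => F z b / σ (τ (F z)) b) 0 := (hco hF).div (hco h9) hGb
  have he : F =ᶠ[𝓝 0] fun z => (F z b / σ (τ (F z)) b) • σ (τ (F z)) := by
    have hFc : Tendsto F (𝓝 0) (𝓝 y) := by
      have := hF.continuousAt
      rwa [ContinuousAt, hF0] at this
    filter_upwards [hFX, hFc.eventually h3, (hco h9).continuousAt.eventually_ne hGb] with z h10 h11 h12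
    obtain ⟨c', -, h13⟩ := h11 h10
    have h14 : F z b = c' * σ (τ (F z)) b := by
      have := congrArg (fun x : EN N => x b) h13
      simpa using this
    rw [h14, mul_div_cancel_right₀ _ h12]
    exact h13
  have h15 : HasDerivAt (fun z => σ (τ (F z))) (fderiv ℂ σ (τ y) (fderiv ℂ τ y v)) 0 := by
    have h16 : HasDerivAt F v 0 := by
      rw [← hF1]
      exact hF.differentiableAt.hasDerivAt
    have h17 : HasDerivAt (fun z => τ (F z)) (fderiv ℂ τ y v) 0 := by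
      have h4' : HasFDerivAt τ (fderiv ℂ τ y) (F 0) := by
        rw [hF0]
        exact h4.differentiableAt.hasFDerivAt
      exact h4'.comp_hasDerivAt 0 h16
    have h5' : HasFDerivAt σ (fderiv ℂ σ (τ y)) (τ (F 0)) := by
      rw [hF0]
      exact h5.differentiableAt.hasFDerivAt
    exact h5'.comp_hasDerivAt 0 h17
  have hk0 : F 0 b / σ (τ (F 0)) b = c := by
    rw [hF0]
    have h18 : y b = c * σ (τ y) b := by
      have := congrArg (fun x : EN N => x b) h7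
      simpa using this
    rw [h18, mul_div_cancel_right₀ _ hb]
  have h19 := hk.differentiableAt.hasDerivAt.smul h15
  have h20 := h19.congr_of_eventuallyEq he
  refine ⟨deriv (fun z => F z b / σ (τ (F z)) b) 0, ?_⟩
  have h21 := h20.deriv
  rw [hF1, hk0, hF0] at h21
  exact h21

/-- the derivatives of the parametrisation are tangent vectors -/
theorem cst_tan (h : IsChart X σ τ) : ∀ᶠ y in 𝓝 (0 : ℂ × ℂ), ∀ t, Tan X (σ y) (fderiv ℂ σ y t) := by
  filter_upwards [h.σ_an.eventually_analyticAt, h.σ_mem.eventually_nhds] with y h1 h2 t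
  have h3 : HasDerivAt (fun s : ℂ => y + s • t) t 0 := by simpa using ((hasDerivAt_id (0 : ℂ)).smul_const t).const_add y
  have h4 : AnalyticAt ℂ (fun s : ℂ => y + s • t) 0 := analyticAt_const.add (analyticAt_id.smul analyticAt_const)
  have h5 : Tendsto (fun s : ℂ => y + s • t) (𝓝 0) (𝓝 y) := by simpa using h4.continuousAt.tendsto
  refine ⟨fun s => σ (y + s • t), ⟨AnalyticAt.comp_of_eq h1 h4 (by simp), h5.eventually h2⟩, by simp, ?_⟩
  exact (h1.differentiableAt.hasFDerivAt.comp_hasDerivAt_of_eq (0 : ℂ) h3 (by simp)).deriv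

end

/-! ## the forms in a chart -/

/-- the form `w j` in the chart `(σ, τ)` -/
def cstW (G : Geo N) (j : G.J) (σ : ℂ × ℂ → EN N) (τ : EN N → ℂ × ℂ) (P : EN N × EN N) : ℂ :=
  G.w j (σ (τ P.1)) (fderiv ℂ σ (τ P.1) (fderiv ℂ τ P.1 P.2))

variable {σ : ℂ × ℂ → EN N} {τ : EN N → ℂ × ℂ}

theorem cst_K (hG : G.Ok) (h : IsChart G.X σ τ) (hK : σ 0 ∈ G.K) : ∀ᶠ y in 𝓝 (0 : ℂ × ℂ), σ y ∈ G.K := by
  have h1 : G.p (σ 0) ≠ 0 := ((hG.aff.mem _).1 hK).2 ()
  have h2 : ContinuousAt (fun y => G.p (σ y)) 0 := ContinuousAt.comp (g := G.p) (hG.aff.an () _).continuousAt h.σ_an.continuousAt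
  filter_upwards [h.σ_mem, h2.eventually_ne h1] with y h3 h4
  exact (hG.aff.mem _).2 ⟨h3, fun _ => h4⟩

theorem cstW_an (hG : G.Ok) (h : IsChart G.X σ τ) (hK : σ 0 ∈ G.K) (j : G.J) (ξ : EN N) : AnalyticAt ℂ (cstW G j σ τ) (σ 0, ξ) := by
  have h0 : τ (σ 0) = 0 := h.left.self_of_nhds
  set E : (Fin 2 → ℂ) ≃L[ℂ] ℂ × ℂ := ContinuousLinearEquiv.finTwoArrow ℂ ℂ with hE
  have h1 : AnalyticAt ℂ (σ ∘ E) 0 := AnalyticAt.comp_of_eq h.σ_an (E.analyticAt _) (map_zero E)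
  have h2 : ∀ᶠ y in 𝓝 (0 : Fin 2 → ℂ), (σ ∘ E) y ∈ G.K := by
    have h3 : Tendsto E (𝓝 0) (𝓝 0) := by simpa using E.continuous.tendsto 0
    exact h3.eventually (cst_K hG h hK)
  have h3 := hG.w_an j 2 (σ ∘ E) 0 (E.symm (fderiv ℂ τ (σ 0) ξ)) h1 h2
  have h4 : AnalyticAt ℂ (fun P : EN N × EN N => τ P.1) (σ 0, ξ) := AnalyticAt.comp_of_eq (g := τ) h.τ_an analyticAt_fst rfl
  have h5 : AnalyticAt ℂ (fun P : EN N × EN N => fderiv ℂ τ P.1) (σ 0, ξ) := AnalyticAt.comp_of_eq (g := fderiv ℂ τ) h.τ_an.fderiv analyticAt_fst rfl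
  have h5' : AnalyticAt ℂ (fun P : EN N × EN N => fderiv ℂ τ P.1 P.2) (σ 0, ξ) :=
    ((ContinuousLinearMap.id ℂ (EN N →L[ℂ] ℂ × ℂ)).analyticAt_bilinear (fderiv ℂ τ (σ 0), ξ)).comp_of_eq (h5.prod analyticAt_snd) rfl
  have h6 : AnalyticAt ℂ (fun P : EN N × EN N => (E.symm (τ P.1), E.symm (fderiv ℂ τ P.1 P.2))) (σ 0, ξ) :=
    (((E.symm : ℂ × ℂ →L[ℂ] (Fin 2 → ℂ)).analyticAt _).comp h4).prod (((E.symm : ℂ × ℂ →L[ℂ] (Fin 2 → ℂ)).analyticAt _).comp h5')
  have h7 := AnalyticAt.comp_of_eq h3 h6 (by simp [h0])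
  refine h7.congr (Eventually.of_forall fun P => ?_)
  simp only [Function.comp_apply, cstW]
  rw [E.comp_right_fderiv]
  simp

theorem cstW_eq (hG : G.Ok) (h : IsChart G.X σ τ) (hK : σ 0 ∈ G.K) (j : G.J) :
    ∀ᶠ x in 𝓝 (σ 0), x ∈ G.X → ∀ v, Tan G.X x v → cstW G j σ τ (x, v) = G.w j x v := by
  have h1 : Tendsto τ (𝓝 (σ 0)) (𝓝 0) := by
    have := h.τ_an.continuousAt
    rwa [ContinuousAt, h.left.self_of_nhds] at this
  filter_upwards [cst_chart h, h1.eventually (cst_K hG h hK), h1.eventually (cst_tan h)] with x h2 h3 h4 hx v hv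
  obtain ⟨c, hc, h5, h6⟩ := h2 hx
  obtain ⟨a, h7⟩ := h6 v hv
  have h8 := hG.w_inv j _ h3 _ (h4 (fderiv ℂ τ x v)) c a hc
  rw [← h5, ← h7] at h8
  exact h8.symm

theorem cst_tan_curve {F : ℂ → EN N} (hF : Differentiable ℂ F) (hm : ∀ z, F z ∈ G.X) (z : ℂ) : Tan G.X (F z) (deriv F z) := by
  have h1 : AnalyticAt ℂ (fun w : ℂ => z + w) 0 := analyticAt_const.add analyticAt_id
  refine ⟨fun w => F (z + w), ⟨AnalyticAt.comp_of_eq (hF.analyticAt z) h1 (by simp), Eventually.of_forall fun w => hm _⟩, by simp, ?_⟩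
  have h2 : HasDerivAt (fun w : ℂ => z + w) 1 0 := (hasDerivAt_id (0 : ℂ)).const_add z
  have h3 := HasDerivAt.scomp_of_eq (0 : ℂ) (h := fun w : ℂ => z + w) (hF z).hasDerivAt h2 (by simp)
  simpa [Function.comp_def] using h3.deriv

/-- MODULE Cst. -/
theorem deriv_c_zero (hG : G.Ok) (𝒰 : Ultrafilter ℕ) {q : G.J → ℂ} {F H : ℕ → ℂ → EN N} {ℓ : ℕ → ℝ} {F₀ V : ℂ → EN N}
    (hF : ∀ k, G.Cl T q (F k)) (hH : ∀ k, G.Cl T q (H k)) (h0 : G.Cl T q F₀) (hℓ : ∀ k, 0 < ℓ k) (hℓ0 : Tendsto ℓ 𝒰 (𝓝 0))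
    (h1 : TendstoLocallyUniformlyOn F F₀ 𝒰 Set.univ)
    (h2 : TendstoLocallyUniformlyOn (fun k z => ((ℓ k : ℂ)⁻¹) • (H k z - F k z)) V 𝒰 Set.univ) {c : ℂ → ℂ} (hc : Differentiable ℂ c)
    (hV : ∀ z, V z = c z • deriv F₀ z) : ∀ z, deriv c z = 0 := by
  intro z
  -- a form which is not zero
  obtain ⟨j, hj⟩ : ∃ j, q j ≠ 0 := by
    by_contra hne
    push Not at hne
    have h3 := h0.one
    unfold Geo.nq at h3
    rw [Finset.sum_eq_zero fun j _ => ?_] at h3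
    · exact zero_ne_one h3
    · rw [hne j, norm_zero]
      have h4 := hG.one_m j
      exact Real.zero_rpow (inv_ne_zero (by exact_mod_cast (by omega : G.m j ≠ 0)))
  have hX : ∀ x ∈ G.K, x ∈ G.X := fun x hx => ((hG.aff.mem x).1 hx).1
  obtain ⟨σ, τ, hch, hσ⟩ := hG.surf.chart (F₀ z) (hX _ (h0.ent.mem z))
  have hK : σ 0 ∈ G.K := by rw [hσ]; exact h0.ent.mem z
  have han := cstW_an hG hch hK j (deriv F₀ z)
  rw [hσ] at han
  have hev := cstW_eq hG hch hK j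
  rw [hσ] at hev
  set W := cstW G j σ τ with hW
  set D := fderiv ℂ W (F₀ z, deriv F₀ z) with hD
  have hst : HasStrictFDerivAt W D (F₀ z, deriv F₀ z) := han.hasStrictFDerivAt
  -- the values of `W` along a curve of the class near the point
  have hval : ∀ {Φ : ℂ → EN N}, G.Cl T q Φ → ∀ w, (Φ w ∈ G.X → ∀ v, Tan G.X (Φ w) v → W (Φ w, v) = G.w j (Φ w) v) →
      W (Φ w, deriv Φ w) = q j := fun {Φ} hΦ w hw =>
    (hw (hX _ (hΦ.ent.mem w)) _ (cst_tan_curve hΦ.ent.diff (fun z => hX _ (hΦ.ent.mem z)) w)).trans (hΦ.val j w)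
  -- the limits
  have hF1 : Tendsto (fun k => (F k z, deriv (F k) z)) 𝒰 (𝓝 (F₀ z, deriv F₀ z)) :=
    (h1.tendsto_at (Set.mem_univ z)).prodMk_nhds ((h1.deriv (Eventually.of_forall fun k => (hF k).ent.diff.differentiableOn) isOpen_univ).tendsto_at
      (Set.mem_univ z))
  have hd2 : ∀ k, Differentiable ℂ fun z => ((ℓ k : ℂ)⁻¹) • (H k z - F k z) := fun k =>
    ((hH k).ent.diff.sub (hF k).ent.diff).const_smul ((ℓ k : ℂ)⁻¹)
  have hR1 : Tendsto (fun k => (((ℓ k : ℂ)⁻¹) • (H k z - F k z), deriv (fun z => ((ℓ k : ℂ)⁻¹) • (H k z - F k z)) z)) 𝒰 (𝓝 (V z, deriv V z)) :=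
    (h2.tendsto_at (Set.mem_univ z)).prodMk_nhds ((h2.deriv (Eventually.of_forall fun k => (hd2 k).differentiableOn) isOpen_univ).tendsto_at
      (Set.mem_univ z))
  have hR2 : ∀ k, (((ℓ k : ℂ)⁻¹) • (H k z - F k z), deriv (fun z => ((ℓ k : ℂ)⁻¹) • (H k z - F k z)) z) =
      ((ℓ k : ℂ)⁻¹) • ((H k z, deriv (H k) z) - (F k z, deriv (F k) z)) := by
    intro k
    have h3 : deriv (fun z => ((ℓ k : ℂ)⁻¹) • (H k z - F k z)) z = ((ℓ k : ℂ)⁻¹) • (deriv (H k) z - deriv (F k) z) :=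
      ((((hH k).ent.diff z).hasDerivAt.sub ((hF k).ent.diff z).hasDerivAt).const_smul ((ℓ k : ℂ)⁻¹)).deriv
    rw [h3]
    rfl
  have hR : Tendsto (fun k => ((ℓ k : ℂ)⁻¹) • ((H k z, deriv (H k) z) - (F k z, deriv (F k) z))) 𝒰 (𝓝 (V z, deriv V z)) :=
    hR1.congr hR2
  have hℓC : Tendsto (fun k => (ℓ k : ℂ)) 𝒰 (𝓝 0) := by
    have := (Complex.continuous_ofReal.tendsto 0).comp hℓ0
    rwa [Complex.ofReal_zero] at this
  have hH1 : Tendsto (fun k => (H k z, deriv (H k) z)) 𝒰 (𝓝 (F₀ z, deriv F₀ z)) := by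
    have h3 := hF1.add (hℓC.smul hR)
    rw [zero_smul, add_zero] at h3
    refine h3.congr fun k => ?_
    have h4 : (ℓ k : ℂ) ≠ 0 := by exact_mod_cast (hℓ k).ne'
    rw [smul_smul, mul_inv_cancel₀ h4, one_smul, add_sub_cancel]
  -- `D (V z, V' z) = 0`
  have hDV : D (V z, deriv V z) = 0 := by
    have h3 := hst.isLittleO.comp_tendsto (hH1.prodMk_nhds hF1)
    have h4 : ∀ᶠ k in (𝒰 : Filter ℕ), W (H k z, deriv (H k) z) - W (F k z, deriv (F k) z) = 0 := by
      have h5 : Tendsto (fun k => F k z) 𝒰 (𝓝 (F₀ z)) := h1.tendsto_at (Set.mem_univ z)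
      have h6 : Tendsto (fun k => H k z) 𝒰 (𝓝 (F₀ z)) := (continuous_fst.tendsto _).comp hH1
      filter_upwards [h5.eventually hev, h6.eventually hev] with k h7 h8
      rw [hval (hH k) z h8, hval (hF k) z h7, sub_self]
    have h5 : (fun k => D (((ℓ k : ℂ)⁻¹) • ((H k z, deriv (H k) z) - (F k z, deriv (F k) z)))) =o[(𝒰 : Filter ℕ)] fun _ => (1 : ℝ) := by
      have h6 : (fun k => D (((ℓ k : ℂ)⁻¹) • ((H k z, deriv (H k) z) - (F k z, deriv (F k) z)))) =o[(𝒰 : Filter ℕ)]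
          fun k => ((ℓ k : ℂ)⁻¹) • ((H k z, deriv (H k) z) - (F k z, deriv (F k) z)) := by
        have h7 : (fun k => D ((H k z, deriv (H k) z) - (F k z, deriv (F k) z))) =o[(𝒰 : Filter ℕ)]
            fun k => (H k z, deriv (H k) z) - (F k z, deriv (F k) z) := by
          refine (h3.neg_left).congr' ?_ EventuallyEq.rfl
          filter_upwards [h4] with k h8
          simp only [Function.comp]
          rw [h8]
          simp
        have h8 : (fun k => ((ℓ k : ℂ)⁻¹) • D ((H k z, deriv (H k) z) - (F k z, deriv (F k) z))) =o[(𝒰 : Filter ℕ)]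
            fun k => ((ℓ k : ℂ)⁻¹) • ((H k z, deriv (H k) z) - (F k z, deriv (F k) z)) := (isBigO_refl (fun k => (ℓ k : ℂ)⁻¹) _).smul_isLittleO h7
        refine h8.congr_left fun k => ?_
        rw [map_smul]
      exact h6.trans_isBigO (hR.isBigO_one ℝ)
    have h6 := (isLittleO_one_iff ℝ).1 h5
    have h7 : Tendsto (fun k => D (((ℓ k : ℂ)⁻¹) • ((H k z, deriv (H k) z) - (F k z, deriv (F k) z)))) 𝒰 (𝓝 (D (V z, deriv V z))) :=
      (D.continuous.tendsto _).comp hR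
    exact tendsto_nhds_unique h7 h6
  -- `V' = c' F₀' + c F₀''`
  have hF0 := h0.ent.diff
  have hF0' : Differentiable ℂ (deriv F₀) := fun w => ((hF0.analyticAt w).deriv).differentiableAt
  have hV' : deriv V z = c z • deriv (deriv F₀) z + deriv c z • deriv F₀ z := by
    have h3 : V = fun z => c z • deriv F₀ z := funext hV
    rw [h3]
    exact ((hc z).hasDerivAt.smul (hF0' z).hasDerivAt).deriv
  -- the derivative along the curve
  have hD1 : D (deriv F₀ z, deriv (deriv F₀) z) = 0 := by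
    have h3 : HasDerivAt (fun w => W (F₀ w, deriv F₀ w)) (D (deriv F₀ z, deriv (deriv F₀) z)) z :=
      hst.hasFDerivAt.comp_hasDerivAt_of_eq z ((hF0 z).hasDerivAt.prodMk (hF0' z).hasDerivAt) rfl
    have h4 : (fun w => W (F₀ w, deriv F₀ w)) =ᶠ[𝓝 z] fun _ => q j := by
      filter_upwards [(hF0.continuous.tendsto z).eventually hev] with w hw
      exact hval h0 w hw
    exact h3.unique ((hasDerivAt_const z (q j)).congr_of_eventuallyEq h4)
  -- Euler
  have hD2 : D (0, deriv F₀ z) = G.m j * q j := by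
    have h3 : HasDerivAt (fun s : ℂ => W (F₀ z, s • deriv F₀ z)) (D (0, deriv F₀ z)) 1 := by
      have h4 : HasDerivAt (fun s : ℂ => (F₀ z, s • deriv F₀ z)) (0, deriv F₀ z) 1 := by
        have h5 : HasDerivAt (fun s : ℂ => s • deriv F₀ z) (deriv F₀ z) 1 := by simpa using (hasDerivAt_id (1 : ℂ)).smul_const (deriv F₀ z)
        exact (hasDerivAt_const (1 : ℂ) (F₀ z)).prodMk h5
      exact hst.hasFDerivAt.comp_hasDerivAt_of_eq 1 h4 (by simp)
    have h4 : (fun s : ℂ => W (F₀ z, s • deriv F₀ z)) = fun s => s ^ G.m j * q j := by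
      funext s
      have h5 : τ (F₀ z) = 0 := by rw [← hσ]; exact hch.left.self_of_nhds
      have h6 : W (F₀ z, deriv F₀ z) = q j := hval h0 z hev.self_of_nhds
      have h7 := hG.w_hom j (σ 0) hK _ ((cst_tan hch).self_of_nhds (fderiv ℂ τ (F₀ z) (deriv F₀ z))) s
      rw [← h6, hW]
      simp only [cstW, h5]
      rw [map_smul, map_smul]
      exact h7
    rw [h4] at h3
    have h5 : HasDerivAt (fun s : ℂ => s ^ G.m j * q j) (G.m j * q j) 1 := by
      simpa using (hasDerivAt_pow (G.m j) (1 : ℂ)).mul_const (q j)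
    exact h3.unique h5
  have h3 : (V z, deriv V z) = c z • (deriv F₀ z, deriv (deriv F₀) z) + deriv c z • ((0 : EN N), deriv F₀ z) := by
    rw [hV', hV z]
    ext1 <;> simp
  rw [h3, map_add, map_smul, map_smul, hD1, hD2, smul_zero, zero_add, smul_eq_mul] at hDV
  have hm : (G.m j : ℂ) ≠ 0 := by
    have := hG.one_m j
    exact_mod_cast (by omega : G.m j ≠ 0)
  rcases mul_eq_zero.1 hDV with h4 | h4
  · exact h4
  · exact absurd h4 (mul_ne_zero hm hj)

end Pool.Agent.SR3.F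

end
end

section

/-!
# SR3 F Lin: two tangent vectors on which all the forms vanish are proportional
-/

set_option autoImplicit false

open Topology Filter Metric

noncomputable section

namespace Pool.Agent.SR3.F

open Pool.Agent.H36.BP (EN fs)
open Pool.Agent.H14.PP (Tan)

variable {N : ℕ} {G : Geo N}

/-- Euler's relation -/
theorem fderiv_p_self (hG : G.Ok) (x : EN N) : fderiv ℂ G.p x x = G.h * G.p x := by
  have h1 : HasDerivAt (fun t : ℂ => t • x) x 1 := by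
    simpa using (hasDerivAt_id (1 : ℂ)).smul_const x
  have h2 : HasFDerivAt G.p (fderiv ℂ G.p x) ((fun t : ℂ => t • x) 1) := by
    simp only [one_smul]
    exact (hG.aff.an () x).differentiableAt.hasFDerivAt
  have h3 := h2.comp_hasDerivAt (1 : ℂ) h1
  have h4 : (G.p ∘ fun t : ℂ => t • x) = fun t : ℂ => t ^ G.h * G.p x := by
    funext t
    exact hG.aff.smul () t x
  rw [h4] at h3
  have h5 : HasDerivAt (fun t : ℂ => t ^ G.h * G.p x) ((G.h : ℂ) * 1 ^ (G.h - 1) * G.p x) 1 := (hasDerivAt_pow G.h (1 : ℂ)).mul_const _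
  have h6 := h3.unique h5
  rw [h6, one_pow, mul_one]

theorem lin_dep (hG : G.Ok) {x v w : EN N} (hx : x ∈ G.K) (hv : Tan G.X x v) (hw : Tan G.X x w) (hpv : fderiv ℂ G.p x v = 0)
    (hpw : fderiv ℂ G.p x w = 0) (hv0 : v ≠ 0) (h : ∀ a, G.Ω a x v w = 0)
    (hΩ : ∃ a, ∀ v w, Tan G.X x v → Tan G.X x w → LinearIndependent ℂ ![x, v, w] → G.Ω a x v w ≠ 0) : ∃ c : ℂ, w = c • v := by
  obtain ⟨a, ha⟩ := hΩ
  have hli : ¬ LinearIndependent ℂ ![x, v, w] := fun hl => ha v w hv hw hl (h a)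
  rw [Fintype.not_linearIndependent_iff] at hli
  obtain ⟨k, hk, i, hi⟩ := hli
  simp only [Fin.sum_univ_three, Matrix.cons_val_zero, Matrix.cons_val_one, Matrix.cons_val] at hk
  have hp : G.p x ≠ 0 := ((hG.aff.mem x).1 hx).2 ()
  have hh : (G.h : ℂ) ≠ 0 := by
    have := hG.aff.pos ()
    have h2 : 1 ≤ G.h := this
    rw [Nat.cast_ne_zero]
    omega
  have h0 : k 0 = 0 := by
    have h1 := congrArg (fderiv ℂ G.p x) hk
    rw [map_add, map_add, map_smul, map_smul, map_smul, hpv, hpw, fderiv_p_self hG, map_zero, smul_zero, smul_zero, add_zero, add_zero, smul_eq_mul] at h1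
    exact (mul_eq_zero.1 h1).resolve_right (mul_ne_zero hh hp)
  rw [h0, zero_smul, zero_add] at hk
  have h2 : k 2 ≠ 0 := by
    intro h2
    rw [h2, zero_smul, add_zero] at hk
    have h1 : k 1 = 0 := (smul_eq_zero.1 hk).resolve_right hv0
    fin_cases i
    · exact hi h0
    · exact hi h1
    · exact hi h2
  refine ⟨-(k 2)⁻¹ * k 1, ?_⟩
  have h3 : k 2 • w = -(k 1 • v) := by
    rw [eq_neg_iff_add_eq_zero, add_comm]
    exact hk
  have h4 : w = (k 2)⁻¹ • (k 2 • w) := by rw [smul_smul, inv_mul_cancel₀ h2, one_smul]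
  rw [h4, h3, smul_neg, smul_smul, neg_mul, neg_smul]

end Pool.Agent.SR3.F

end
end

section

/-!
# SR3 F LipE: the equations of the boundary are Lipschitz
-/

set_option autoImplicit false

open Topology Filter Metric

noncomputable section

namespace Pool.Agent.SR3.F

open Pool.Agent.H36.BP (EN)

variable {N : ℕ} {G : Geo N}

/-- MODULE LipE.  A homogeneous analytic map. -/
theorem lipE (hG : G.Ok) : ∃ B₁ : ℝ, 0 ≤ B₁ ∧ ∀ (i : G.ι) (x y : EN N) (R : ℝ), 1 ≤ R → ‖x‖ ≤ R → ‖y‖ ≤ R → ‖G.E i x - G.E i y‖ ≤ B₁ * R ^ G.c i * ‖x - y‖ := by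
  have h1 : ∀ i : G.ι, ∃ L : ℝ, 0 ≤ L ∧ ∀ x ∈ closedBall (0 : EN N) 1, ∀ y ∈ closedBall (0 : EN N) 1, ‖G.E i x - G.E i y‖ ≤ L * ‖x - y‖ := by
    intro i
    have hc : Continuous fun x => fderiv ℂ (G.E i) x := continuous_iff_continuousAt.2 fun x => (hG.anE i x).fderiv.continuousAt
    obtain ⟨L, hL⟩ := ((isCompact_closedBall (0 : EN N) 1).image hc.norm).isBounded.bddAbove
    refine ⟨max L 0, le_max_right _ _, fun x hx y hy => ?_⟩
    refine Convex.norm_image_sub_le_of_norm_fderiv_le (𝕜 := ℂ) (s := closedBall (0 : EN N) 1) (f := G.E i) (fun z _ => (hG.anE i z).differentiableAt)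
      (fun z hz => (hL ⟨z, hz, rfl⟩).trans (le_max_left _ _)) (convex_closedBall _ _) hy hx
  choose L hL0 hL using h1
  refine ⟨∑ i, L i, Finset.sum_nonneg fun i _ => hL0 i, fun i x y R hR hx hy => ?_⟩
  have hR0 : 0 < R := lt_of_lt_of_le one_pos hR
  have hRc : (R : ℂ) ≠ 0 := Complex.ofReal_ne_zero.2 hR0.ne'
  have hn : ∀ x : EN N, ‖x‖ ≤ R → ((R : ℂ)⁻¹ • x) ∈ closedBall (0 : EN N) 1 := fun x hx => by
    rw [mem_closedBall, dist_zero_right, norm_smul, norm_inv, Complex.norm_real, Real.norm_of_nonneg hR0.le, inv_mul_le_iff₀ hR0, mul_one]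
    exact hx
  have hs : ∀ x : EN N, G.E i x = (R : ℂ) ^ G.c i • G.E i ((R : ℂ)⁻¹ • x) := fun x => by
    rw [← hG.smulE i, smul_smul, mul_inv_cancel₀ hRc, one_smul]
  have h2 := hL i _ (hn x hx) _ (hn y hy)
  rw [hs x, hs y, ← smul_sub, norm_smul, norm_pow, Complex.norm_real, Real.norm_of_nonneg hR0.le]
  have h3 : ‖(R : ℂ)⁻¹ • x - (R : ℂ)⁻¹ • y‖ ≤ ‖x - y‖ := by
    rw [← smul_sub, norm_smul, norm_inv, Complex.norm_real, Real.norm_of_nonneg hR0.le]
    exact mul_le_of_le_one_left (norm_nonneg _) (inv_le_one_of_one_le₀ hR)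
  have h4 : L i ≤ ∑ i, L i := Finset.single_le_sum (f := L) (fun i _ => hL0 i) (Finset.mem_univ i)
  calc R ^ G.c i * ‖G.E i ((R : ℂ)⁻¹ • x) - G.E i ((R : ℂ)⁻¹ • y)‖ ≤ R ^ G.c i * ((∑ i, L i) * ‖x - y‖) := by
        refine mul_le_mul_of_nonneg_left (h2.trans ?_) (pow_nonneg hR0.le _)
        exact mul_le_mul h4 h3 (norm_nonneg _) (Finset.sum_nonneg fun i _ => hL0 i)
    _ = _ := by ring

end Pool.Agent.SR3.F

end
end

section

/-!
# SR3 F Tan: the limit of the difference quotients is tangent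

`exists_retr`: the map `y ↦ (l y / l (σ (τ y))) • σ (τ y)`, `l` linear, `l x₀ ≠ 0`, is an analytic retraction onto the surface near `x₀`.
`tan_lim`: strict differentiability of the retraction at `x₀`.
-/

set_option autoImplicit false

open Topology Filter Metric Asymptotics

noncomputable section

namespace Pool.Agent.SR3.F

open Pool.Agent.H36.BP (EN fs)
open Pool.Agent.H14.PP (Tan)
open Pool.Agent.H17BP (Surface)

variable {N : ℕ} {G : Geo N}

/-- an analytic retraction onto the surface -/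
theorem exists_retr {X : Set (EN N)} (hX : Surface X) {x₀ : EN N} (hx₀ : x₀ ∈ X) :
    ∃ Φ : EN N → EN N, AnalyticAt ℂ Φ x₀ ∧ (∀ᶠ y in 𝓝 x₀, Φ y ∈ X) ∧ ∀ᶠ y in 𝓝 x₀, y ∈ X → Φ y = y := by
  obtain ⟨σ, τ, hc, hσ0⟩ := hX.chart x₀ hx₀
  have hτ0 : τ x₀ = 0 := by
    have h1 := hc.left.self_of_nhds
    rwa [hσ0] at h1
  have hx0 : x₀ ≠ 0 := by
    rw [← hσ0]
    exact hc.ne
  have hτa : AnalyticAt ℂ τ x₀ := by
    have h1 := hc.τ_an
    rwa [hσ0] at h1
  have hσa : AnalyticAt ℂ σ (τ x₀) := by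
    rw [hτ0]
    exact hc.σ_an
  have hστ : AnalyticAt ℂ (fun y => σ (τ y)) x₀ := hσa.comp hτa
  have hστ0 : σ (τ x₀) = x₀ := by rw [hτ0, hσ0]
  set l : EN N →L[ℂ] ℂ := innerSL ℂ x₀ with hl
  have hlx : l x₀ ≠ 0 := by
    rw [hl, innerSL_apply_apply]
    exact inner_self_ne_zero.2 hx0
  have hla : AnalyticAt ℂ (fun y => l (σ (τ y))) x₀ := (l.analyticAt _).comp hστ
  have hl0 : l (σ (τ x₀)) ≠ 0 := by rwa [hστ0]
  have hca : AnalyticAt ℂ (fun y => l y / l (σ (τ y))) x₀ := (l.analyticAt x₀).div hla hl0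
  have hc1 : l x₀ / l (σ (τ x₀)) ≠ 0 := div_ne_zero hlx hl0
  refine ⟨fun y => (l y / l (σ (τ y))) • σ (τ y), hca.smul hστ, ?_, ?_⟩
  · have h1 : Tendsto τ (𝓝 x₀) (𝓝 0) := by
      have h2 := hτa.continuousAt.tendsto
      rwa [hτ0] at h2
    filter_upwards [h1.eventually hc.σ_mem, hca.continuousAt.eventually_ne hc1] with y hy hy'
    exact hX.smul _ hy _ hy'
  · have h1 := hc.right
    rw [hσ0] at h1
    filter_upwards [h1, hla.continuousAt.eventually_ne hl0] with y hy hy' hyX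
    obtain ⟨c, hc0, hc2⟩ := hy hyX
    have h3 : l y = c * l (σ (τ y)) := by
      conv_lhs => rw [hc2]
      rw [map_smul, smul_eq_mul]
    show (l y / l (σ (τ y))) • σ (τ y) = y
    rw [h3, mul_div_assoc, div_self hy', mul_one]
    exact hc2.symm

/-- difference quotients along two sequences with the same limit -/
theorem strict_lim {E : Type*} [NormedAddCommGroup E] [NormedSpace ℂ E] {f : EN N → E} {f' : EN N →L[ℂ] E} {𝒰 : Filter ℕ} {x y : ℕ → EN N} {x₀ v : EN N}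
    {ℓ : ℕ → ℝ} (hf : HasStrictFDerivAt f f' x₀) (hℓ : ∀ k, 0 < ℓ k) (hℓ0 : Tendsto ℓ 𝒰 (𝓝 0)) (h1 : Tendsto x 𝒰 (𝓝 x₀))
    (h2 : Tendsto (fun k => ((ℓ k : ℂ)⁻¹) • (y k - x k)) 𝒰 (𝓝 v)) :
    Tendsto y 𝒰 (𝓝 x₀) ∧ Tendsto (fun k => ((ℓ k : ℂ)⁻¹) • (f (y k) - f (x k))) 𝒰 (𝓝 (f' v)) := by
  have hℓc : ∀ k, (ℓ k : ℂ) ≠ 0 := fun k => by exact_mod_cast (hℓ k).ne'
  have hℓ0' : Tendsto (fun k => (ℓ k : ℂ)) 𝒰 (𝓝 0) := by
    have h3 := (Complex.continuous_ofReal.tendsto 0).comp hℓ0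
    rwa [Complex.ofReal_zero] at h3
  have hyx : ∀ k, y k = x k + (ℓ k : ℂ) • (((ℓ k : ℂ)⁻¹) • (y k - x k)) := by
    intro k
    rw [smul_smul, mul_inv_cancel₀ (hℓc k), one_smul]
    abel
  have hy : Tendsto y 𝒰 (𝓝 x₀) := by
    have h3 : Tendsto (fun k => x k + (ℓ k : ℂ) • (((ℓ k : ℂ)⁻¹) • (y k - x k))) 𝒰 (𝓝 (x₀ + (0 : ℂ) • v)) := h1.add (hℓ0'.smul h2)
    rw [zero_smul, add_zero] at h3
    exact h3.congr fun k => (hyx k).symm
  refine ⟨hy, ?_⟩
  have h3 : (fun k => f (y k) - f (x k) - f' (y k - x k)) =o[𝒰] fun k => y k - x k :=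
    (hasStrictFDerivAt_iff_isLittleO.1 hf).comp_tendsto (hy.prodMk_nhds h1)
  have h4 : (fun k => y k - x k) =O[𝒰] fun k => (ℓ k : ℂ) := by
    have h5 : (fun k => ((ℓ k : ℂ)⁻¹) • (y k - x k)) =O[𝒰] fun _ => (1 : ℂ) := h2.isBigO_one ℂ
    have h6 := (isBigO_refl (fun k => (ℓ k : ℂ)) 𝒰).smul h5
    refine (h6.congr (fun k => ?_) fun k => ?_)
    · rw [smul_smul, mul_inv_cancel₀ (hℓc k), one_smul]
    · rw [smul_eq_mul, mul_one]
  have h7 : (fun k => f (y k) - f (x k) - f' (y k - x k)) =o[𝒰] fun k => (ℓ k : ℂ) := h3.trans_isBigO h4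
  have h8 : Tendsto (fun k => ((ℓ k : ℂ)⁻¹) • (f (y k) - f (x k) - f' (y k - x k))) 𝒰 (𝓝 0) := by
    rw [tendsto_zero_iff_norm_tendsto_zero]
    have h9 := (isLittleO_norm_norm.2 h7).tendsto_div_nhds_zero
    refine h9.congr fun k => ?_
    rw [norm_smul, norm_inv, div_eq_inv_mul]
  have h9 := h8.add ((f'.continuous.tendsto v).comp h2)
  rw [zero_add] at h9
  refine h9.congr fun k => ?_
  show ((ℓ k : ℂ)⁻¹) • (f (y k) - f (x k) - f' (y k - x k)) + f' (((ℓ k : ℂ)⁻¹) • (y k - x k)) = _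
  rw [map_smul, ← smul_add, sub_add_cancel]

/-- **Module Tan.** -/
theorem tan_lim (hG : G.Ok) (𝒰 : Ultrafilter ℕ) {x y : ℕ → EN N} {x₀ v : EN N} {ℓ : ℕ → ℝ} (hx : ∀ k, x k ∈ G.K ∧ G.p (x k) = 1)
    (hy : ∀ k, y k ∈ G.K ∧ G.p (y k) = 1) (hx₀ : x₀ ∈ G.K) (hℓ : ∀ k, 0 < ℓ k) (hℓ0 : Tendsto ℓ 𝒰 (𝓝 0)) (h1 : Tendsto x 𝒰 (𝓝 x₀))
    (h2 : Tendsto (fun k => ((ℓ k : ℂ)⁻¹) • (y k - x k)) 𝒰 (𝓝 v)) : Tan G.X x₀ v ∧ fderiv ℂ G.p x₀ v = 0 := by
  have hKX : ∀ z ∈ G.K, z ∈ G.X := fun z hz => ((hG.aff.mem z).1 hz).1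
  obtain ⟨Φ, hΦa, hΦX, hΦ⟩ := exists_retr hG.surf (hKX x₀ hx₀)
  obtain ⟨h3, h4⟩ := strict_lim hΦa.hasStrictFDerivAt hℓ hℓ0 h1 h2
  have h5 : fderiv ℂ Φ x₀ v = v := by
    refine tendsto_nhds_unique h4 (h2.congr' ?_)
    filter_upwards [h1.eventually hΦ, h3.eventually hΦ] with k hk hk'
    rw [hk (hKX _ (hx k).1), hk' (hKX _ (hy k).1)]
  have hx₀' : Φ x₀ = x₀ := hΦ.self_of_nhds (hKX x₀ hx₀)
  constructor
  · have hlin : AnalyticAt ℂ (fun t : ℂ => x₀ + t • v) 0 := analyticAt_const.add (analyticAt_id.smul analyticAt_const)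
    have hlin0 : x₀ + (0 : ℂ) • v = x₀ := by rw [zero_smul, add_zero]
    have h6 : AnalyticAt ℂ Φ (x₀ + (0 : ℂ) • v) := by rwa [hlin0]
    have h7 : Tendsto (fun t : ℂ => x₀ + t • v) (𝓝 0) (𝓝 x₀) := by
      have h8 := hlin.continuousAt.tendsto
      rwa [hlin0] at h8
    refine ⟨fun t => Φ (x₀ + t • v), ⟨AnalyticAt.comp (g := Φ) (f := fun t : ℂ => x₀ + t • v) h6 hlin, h7.eventually hΦX⟩, ?_, ?_⟩
    · show Φ (x₀ + (0 : ℂ) • v) = x₀
      rw [hlin0, hx₀']
    · have h8 : HasDerivAt (fun t : ℂ => x₀ + t • v) v 0 := by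
        have h9 := ((hasDerivAt_id (0 : ℂ)).smul_const v).const_add x₀
        rwa [one_smul] at h9
      have h9 : HasFDerivAt Φ (fderiv ℂ Φ x₀) (x₀ + (0 : ℂ) • v) := by
        rw [hlin0]
        exact hΦa.differentiableAt.hasFDerivAt
      exact (h9.comp_hasDerivAt (0 : ℂ) h8).deriv.trans h5
  · obtain ⟨-, h6⟩ := strict_lim (hG.aff.an () x₀).hasStrictFDerivAt hℓ hℓ0 h1 h2
    refine tendsto_nhds_unique h6 ?_
    refine tendsto_const_nhds.congr fun k => ?_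
    show (0 : ℂ) = ((ℓ k : ℂ)⁻¹) • (G.p (y k) - G.p (x k))
    rw [(hx k).2, (hy k).2, sub_self, smul_zero]

end Pool.Agent.SR3.F

end
end
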