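import Pool.Agent.H43.TL2.H62.EF.PrLip
import Pool.Agent.H43.TL2.M08
import Pool.Agent.H43.TL2.M139
import Pool.Agent.H43.TL2.M140
import Pool.Agent.H43.TL2.M143
import Pool.Agent.H43.TL2.M147
import Pool.Agent.H43.TL2.M40

/-! The parts of this file: SR3.Apx, SR3.ClN, SR3.Bdr, SR3.LHlA, SR3.LSmo, SR3.LHlB. -/

section

/-!
# SR3 Apx: on a slow disc `lam i` is the real part of a holomorphic function up to a constant
-/

set_option autoImplicit false

open Topology Filter Metric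

noncomputable section

namespace Pool.Agent.SR3

open Pool.Agent.H36.BP (EN fs wd fs_nonneg)
open Pool.Agent.H14.PP (IsCone Tan)

private theorem apx_pr {n : ℕ} (x : EN n) (l : Fin (n + 1)) :
    (Pool.Agent.H62.EF.pr x).ofLp (l, l) = ((‖x.ofLp l‖ ^ 2 / ‖x‖ ^ 2 : ℝ) : ℂ) := by
  show x.ofLp l * (starRingEnd ℂ) (x.ofLp l) / ((‖x‖ ^ 2 : ℝ) : ℂ) = _
  rw [Complex.mul_conj']
  push_cast
  ring

/-- on a slow disc the logarithm of the norm is the real part of a holomorphic function up to a constant -/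
theorem apx_one {n : ℕ} {F : ℂ → EN n} {w : ℂ} {r : ℝ} (hr : 0 < r) (hF : DifferentiableOn ℂ F (ball w r)) (h0 : ∀ z ∈ ball w r, F z ≠ 0)
    (hs : ∀ z ∈ ball w r, fs (F z) (deriv F z) ≤ 1 / (4 * ((n : ℝ) + 1) ^ 2) / r) :
    ∃ g : ℂ → ℂ, DifferentiableOn ℂ g (ball w r) ∧ ∀ z ∈ ball w r, |Real.log ‖F z‖ - (g z).re| ≤ 2 * ((n : ℝ) + 1) ∧
      ‖inner ℂ (F z) (deriv F z) / (‖F z‖ : ℂ) ^ 2 - deriv g z‖ ≤ 2 * ((n : ℝ) + 1) * fs (F z) (deriv F z) := by
  have hw : w ∈ ball w r := mem_ball_self hr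
  have hn : (0 : ℝ) < (n : ℝ) + 1 := by positivity
  obtain ⟨l, hl⟩ := Pool.Agent.H14.PP.exists_coord (h0 w hw)
  have key : ∀ z ∈ ball w r, ‖F z‖ ≤ 2 * ((n : ℝ) + 1) * ‖(F z).ofLp l‖ := by
    intro z hz
    have h1 := Pool.Agent.H62.EF.pr_lipschitz isOpen_ball (convex_ball w r) hF h0 hs z hz w hw
    have h2 : ‖z - w‖ ≤ r := by
      rw [← dist_eq_norm]
      exact (mem_ball.1 hz).le
    have h3 : dist (Pool.Agent.H62.EF.pr (F z)) (Pool.Agent.H62.EF.pr (F w)) ≤ 1 / (2 * ((n : ℝ) + 1) ^ 2) := by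
      refine h1.trans ?_
      have h4 : 2 * (1 / (4 * ((n : ℝ) + 1) ^ 2) / r) * ‖z - w‖ ≤ 2 * (1 / (4 * ((n : ℝ) + 1) ^ 2) / r) * r :=
        mul_le_mul_of_nonneg_left h2 (by positivity)
      refine h4.trans (le_of_eq ?_)
      field_simp
      ring
    have h5 : |‖(F z).ofLp l‖ ^ 2 / ‖F z‖ ^ 2 - ‖(F w).ofLp l‖ ^ 2 / ‖F w‖ ^ 2| ≤ 1 / (2 * ((n : ℝ) + 1) ^ 2) := by
      have h6 := PiLp.norm_apply_le (Pool.Agent.H62.EF.pr (F z) - Pool.Agent.H62.EF.pr (F w)) (l, l)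
      have h7 : (Pool.Agent.H62.EF.pr (F z) - Pool.Agent.H62.EF.pr (F w)) (l, l) =
          ((‖(F z).ofLp l‖ ^ 2 / ‖F z‖ ^ 2 - ‖(F w).ofLp l‖ ^ 2 / ‖F w‖ ^ 2 : ℝ) : ℂ) := by
        rw [PiLp.sub_apply]
        show (Pool.Agent.H62.EF.pr (F z)).ofLp (l, l) - (Pool.Agent.H62.EF.pr (F w)).ofLp (l, l) = _
        rw [apx_pr, apx_pr]
        push_cast
        ring
      rw [h7, Complex.norm_real, Real.norm_eq_abs, ← dist_eq_norm] at h6
      exact h6.trans h3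
    have hz0 : 0 < ‖F z‖ := norm_pos_iff.2 (h0 z hz)
    have hw0 : 0 < ‖F w‖ := norm_pos_iff.2 (h0 w hw)
    have h8 : 1 / ((n : ℝ) + 1) ^ 2 ≤ ‖(F w).ofLp l‖ ^ 2 / ‖F w‖ ^ 2 := by
      rw [div_le_div_iff₀ (by positivity) (by positivity), one_mul, ← mul_pow]
      refine pow_le_pow_left₀ hw0.le ?_ 2
      rw [mul_comm]
      exact hl
    have h9 : 1 / (4 * ((n : ℝ) + 1) ^ 2) ≤ ‖(F z).ofLp l‖ ^ 2 / ‖F z‖ ^ 2 := by
      have h10 := (abs_le.1 h5).1
      have h11 : 1 / (2 * ((n : ℝ) + 1) ^ 2) = 1 / ((n : ℝ) + 1) ^ 2 / 2 := by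
        field_simp
      have h12 : 1 / (4 * ((n : ℝ) + 1) ^ 2) = 1 / ((n : ℝ) + 1) ^ 2 / 4 := by
        field_simp
      have h13 : 0 < 1 / ((n : ℝ) + 1) ^ 2 := by positivity
      rw [h11] at h10
      rw [h12]
      linarith
    rw [div_le_div_iff₀ (by positivity) (by positivity), one_mul] at h9
    have h14 : ‖F z‖ ^ 2 ≤ (2 * ((n : ℝ) + 1) * ‖(F z).ofLp l‖) ^ 2 := by
      refine h9.trans (le_of_eq ?_)
      ring
    exact le_of_sq_le_sq h14 (by positivity)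
  have hne : ∀ z ∈ ball w r, (F z).ofLp l ≠ 0 := by
    intro z hz h
    have h1 := key z hz
    rw [h, norm_zero, mul_zero] at h1
    exact h0 z hz (norm_le_zero_iff.1 h1)
  have hFl : DifferentiableOn ℂ (fun z => (F z).ofLp l) (ball w r) := fun z hz =>
    ((EuclideanSpace.proj (𝕜 := ℂ) l : EN n →L[ℂ] ℂ).differentiableAt.comp_differentiableWithinAt z (hF z hz))
  obtain ⟨g, hg, hge⟩ := Pool.Agent.H13.LU.exists_log isOpen_ball (convex_ball w r) ⟨w, hw⟩ hFl hne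
  refine ⟨g, hg, fun z hz => ?_⟩
  have hnb : ball w r ∈ 𝓝 z := isOpen_ball.mem_nhds hz
  have hz0 : 0 < ‖F z‖ := norm_pos_iff.2 (h0 z hz)
  have hl0 : 0 < ‖(F z).ofLp l‖ := norm_pos_iff.2 (hne z hz)
  constructor
  · have h1 : (g z).re = Real.log ‖(F z).ofLp l‖ := by
      rw [← hge z hz, Complex.norm_exp, Real.log_exp]
    have h2 : ‖(F z).ofLp l‖ ≤ ‖F z‖ := PiLp.norm_apply_le (F z) l
    rw [h1, ← Real.log_div hz0.ne' hl0.ne', abs_of_nonneg (Real.log_nonneg ((one_le_div hl0).2 h2))]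
    have h3 : ‖F z‖ / ‖(F z).ofLp l‖ ≤ 2 * ((n : ℝ) + 1) := by
      rw [div_le_iff₀ hl0]
      exact key z hz
    refine (Real.log_le_sub_one_of_pos (by positivity)).trans ?_
    linarith
  · have hFd : HasDerivAt F (deriv F z) z := ((hF z hz).differentiableAt hnb).hasDerivAt
    have h1 : HasDerivAt (fun z => (F z).ofLp l) ((deriv F z).ofLp l) z :=
      (EuclideanSpace.proj (𝕜 := ℂ) l : EN n →L[ℂ] ℂ).hasFDerivAt.comp_hasDerivAt z hFd
    have h2 : HasDerivAt (fun z => Complex.exp (g z)) (Complex.exp (g z) * deriv g z) z :=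
      ((hg z hz).differentiableAt hnb).hasDerivAt.cexp
    have h3 : (fun z => Complex.exp (g z)) =ᶠ[𝓝 z] fun z => (F z).ofLp l := by
      filter_upwards [hnb] with y hy using hge y hy
    have h4 : Complex.exp (g z) * deriv g z = (deriv F z).ofLp l := h2.unique (h1.congr_of_eventuallyEq h3)
    rw [hge z hz] at h4
    set a : ℂ := inner ℂ (F z) (deriv F z) / (‖F z‖ : ℂ) ^ 2 with ha
    have h5 : (F z).ofLp l * (a - deriv g z) = -((deriv F z - a • F z).ofLp l) := by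
      have h6 : (deriv F z - a • F z).ofLp l = (deriv F z).ofLp l - a * (F z).ofLp l := by
        simp [PiLp.sub_apply, PiLp.smul_apply, smul_eq_mul]
      rw [h6, mul_sub, h4]
      ring
    have h6 : ‖(F z).ofLp l‖ * ‖a - deriv g z‖ ≤ fs (F z) (deriv F z) * ‖F z‖ := by
      rw [← norm_mul, h5, norm_neg]
      refine (PiLp.norm_apply_le _ l).trans (le_of_eq ?_)
      rw [Pool.Agent.H14.PP.fs_eq (h0 z hz), div_mul_cancel₀ _ hz0.ne']
    have h7 : fs (F z) (deriv F z) * ‖F z‖ ≤ fs (F z) (deriv F z) * (2 * ((n : ℝ) + 1) * ‖(F z).ofLp l‖) :=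
      mul_le_mul_of_nonneg_left (key z hz) (fs_nonneg _ _)
    have h8 : ‖(F z).ofLp l‖ * ‖a - deriv g z‖ ≤ ‖(F z).ofLp l‖ * (2 * ((n : ℝ) + 1) * fs (F z) (deriv F z)) := by
      refine h6.trans (h7.trans (le_of_eq ?_))
      ring
    exact le_of_mul_le_mul_left h8 hl0

variable {N : ℕ} {G : Geo N}

theorem apx (hG : G.Ok) : ∃ B η : ℝ, 0 < B ∧ 0 < η ∧ ∀ (F : ℂ → EN N) (w : ℂ) (r : ℝ), 0 < r → Differentiable ℂ F → (∀ z, F z ∈ G.K) →
    (∀ z ∈ ball w r, fs (F z) (deriv F z) ≤ η / r) → ∃ h : G.ι → ℂ → ℂ, (∀ i, DifferentiableOn ℂ (h i) (ball w r)) ∧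
      ∀ i, ∀ z ∈ ball w r, |G.lam i (F z) - (h i z).re| ≤ B ∧ ‖G.ell i (F z) (deriv F z) + deriv (h i) z‖ ≤ B * fs (F z) (deriv F z) := by
  obtain ⟨C, hC0, hC⟩ := hG.fsE
  have hKX : ∀ x ∈ G.K, x ∈ G.X := fun x hx => ((hG.aff.mem x).1 hx).1
  have hK0 : ∀ x ∈ G.K, x ≠ 0 := fun x hx h => hG.cone.zero_notMem (h ▸ hKX x hx)
  set cs : ℝ := ∑ i, (G.c i : ℝ) with hcs
  have hcs0 : 0 ≤ cs := Finset.sum_nonneg fun i _ => by positivity
  have hci : ∀ i, (G.c i : ℝ) ≤ cs := fun i =>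
    Finset.single_le_sum (f := fun i => (G.c i : ℝ)) (fun i _ => by positivity) (Finset.mem_univ i)
  set a : ℝ := 2 * ((N : ℝ) + 1) with ha
  set b : ℝ := 2 * ((G.M : ℝ) + 1) with hb
  have ha0 : 0 < a := by positivity
  have hb0 : 0 < b := by positivity
  have hη1 : (0 : ℝ) < 1 / (4 * ((N : ℝ) + 1) ^ 2) := by positivity
  have hη2 : (0 : ℝ) < 1 / (4 * ((G.M : ℝ) + 1) ^ 2) / (C + 1) := by positivity
  refine ⟨cs * a + b * (C + 1), min (1 / (4 * ((N : ℝ) + 1) ^ 2)) (1 / (4 * ((G.M : ℝ) + 1) ^ 2) / (C + 1)), by positivity, lt_min hη1 hη2, ?_⟩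
  intro F w r hr hF hFK hs
  obtain ⟨g₀, hg₀, hg₀'⟩ := apx_one hr hF.differentiableOn (fun z _ => hK0 _ (hFK z)) (fun z hz =>
    (hs z hz).trans (div_le_div_of_nonneg_right (min_le_left _ _) hr.le))
  have hT : ∀ z, Tan G.X (F z) (deriv F z) := by
    intro z
    refine ⟨fun t => F (t + z), ⟨(hF.comp (differentiable_id.add_const z)).analyticAt 0, Eventually.of_forall fun t => hKX _ (hFK _)⟩, by simp, ?_⟩
    rw [deriv_comp_add_const]
    simp
  have hEd : ∀ i z, HasDerivAt (fun y => G.E i (F y)) (fderiv ℂ (G.E i) (F z) (deriv F z)) z := fun i z =>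
    ((hG.anE i (F z)).differentiableAt.hasFDerivAt).comp_hasDerivAt z (hF z).hasDerivAt
  have hE : ∀ i, ∃ g : ℂ → ℂ, DifferentiableOn ℂ g (ball w r) ∧ ∀ z ∈ ball w r, |Real.log ‖G.E i (F z)‖ - (g z).re| ≤ b ∧
      ‖inner ℂ (G.E i (F z)) (fderiv ℂ (G.E i) (F z) (deriv F z)) / (‖G.E i (F z)‖ : ℂ) ^ 2 - deriv g z‖ ≤ b * (C * fs (F z) (deriv F z)) := by
    intro i
    have h1 : ∀ z ∈ ball w r, fs (G.E i (F z)) (deriv (fun y => G.E i (F y)) z) ≤ C * fs (F z) (deriv F z) := by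
      intro z _
      rw [(hEd i z).deriv]
      exact hC i (F z) (hFK z) (deriv F z) (hT z)
    obtain ⟨g, hg, hg'⟩ := apx_one (F := fun y => G.E i (F y)) hr (fun z _ => (hEd i z).differentiableAt.differentiableWithinAt)
      (fun z _ => hG.neE i _ (hFK z)) (fun z hz => by
        refine (h1 z hz).trans ?_
        have h2 : C * fs (F z) (deriv F z) ≤ C * (1 / (4 * ((G.M : ℝ) + 1) ^ 2) / (C + 1) / r) :=
          mul_le_mul_of_nonneg_left ((hs z hz).trans (div_le_div_of_nonneg_right (min_le_right _ _) hr.le)) hC0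
        refine h2.trans ?_
        have h3 : C * (1 / (4 * ((G.M : ℝ) + 1) ^ 2) / (C + 1) / r) = (C / (C + 1)) * (1 / (4 * ((G.M : ℝ) + 1) ^ 2) / r) := by
          field_simp
        rw [h3]
        have h4 : C / (C + 1) ≤ 1 := by
          rw [div_le_one (by positivity)]
          linarith
        exact mul_le_of_le_one_left (by positivity) h4)
    refine ⟨g, hg, fun z hz => ?_⟩
    obtain ⟨h2, h3⟩ := hg' z hz
    refine ⟨h2, ?_⟩
    have h4 := h1 z hz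
    rw [(hEd i z).deriv] at h3 h4
    exact h3.trans (mul_le_mul_of_nonneg_left h4 hb0.le)
  choose g hg hg' using hE
  refine ⟨fun i z => (G.c i : ℂ) * g₀ z - g i z, fun i => (hg₀.const_mul _).sub (hg i), fun i z hz => ?_⟩
  have hnb : ball w r ∈ 𝓝 z := isOpen_ball.mem_nhds hz
  obtain ⟨h1, h2⟩ := hg₀' z hz
  obtain ⟨h3, h4⟩ := hg' i z hz
  have hc0 : (0 : ℝ) ≤ G.c i := by positivity
  have hf0 := fs_nonneg (F z) (deriv F z)
  constructor
  · have h5 : G.lam i (F z) - ((G.c i : ℂ) * g₀ z - g i z).re =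
        G.c i * (Real.log ‖F z‖ - (g₀ z).re) - (Real.log ‖G.E i (F z)‖ - (g i z).re) := by
      have h6 : ((G.c i : ℂ) * g₀ z - g i z).re = G.c i * (g₀ z).re - (g i z).re := by
        simp
      rw [h6]
      unfold Geo.lam
      ring
    rw [h5]
    refine (abs_sub _ _).trans ?_
    rw [abs_mul, abs_of_nonneg hc0]
    have h7 : (G.c i : ℝ) * |Real.log ‖F z‖ - (g₀ z).re| ≤ cs * a := mul_le_mul (hci i) h1 (abs_nonneg _) hcs0
    have h8 : b ≤ b * (C + 1) := by nlinarith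
    linarith
  · have h5 : deriv (fun z => (G.c i : ℂ) * g₀ z - g i z) z = (G.c i : ℂ) * deriv g₀ z - deriv (g i) z :=
      ((((hg₀ z hz).differentiableAt hnb).hasDerivAt.const_mul _).sub ((hg i z hz).differentiableAt hnb).hasDerivAt).deriv
    have h6 : G.ell i (F z) (deriv F z) + deriv (fun z => (G.c i : ℂ) * g₀ z - g i z) z =
        (inner ℂ (G.E i (F z)) (fderiv ℂ (G.E i) (F z) (deriv F z)) / (‖G.E i (F z)‖ : ℂ) ^ 2 - deriv (g i) z) -
          (G.c i : ℂ) * (inner ℂ (F z) (deriv F z) / (‖F z‖ : ℂ) ^ 2 - deriv g₀ z) := by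
      rw [h5]
      unfold Geo.ell
      ring
    rw [h6]
    refine (norm_sub_le _ _).trans ?_
    rw [norm_mul, Complex.norm_natCast]
    have h7 : (G.c i : ℝ) * ‖inner ℂ (F z) (deriv F z) / (‖F z‖ : ℂ) ^ 2 - deriv g₀ z‖ ≤ cs * (a * fs (F z) (deriv F z)) :=
      mul_le_mul (hci i) h2 (norm_nonneg _) hcs0
    have h8 : 0 ≤ b * fs (F z) (deriv F z) := by positivity
    nlinarith

end Pool.Agent.SR3

end
end

section

/-!
# SR3 ClN: a curve of constant length one is in the class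
-/

set_option autoImplicit false

open Topology Filter Metric

noncomputable section

namespace Pool.Agent.SR3

open Pool.Agent.H36.BP (EN fs wd Sub OrdTwo)
open Pool.Agent.H14.PP (IsCone Tan)
open Pool.Agent.SY (Ent)
open Pool.Agent.SDA (EnergyK Near AffOpen Nm nForms)

variable {N : ℕ} {G : Geo N} {T : Set (EN N)}

/-- the values of the forms along an entire curve are entire functions -/
theorem ClN_hol (hG : G.Ok) {F : ℂ → EN N} (hF : Differentiable ℂ F) (hK : ∀ z, F z ∈ G.K) (j : G.J) :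
    Differentiable ℂ fun z => G.w j (F z) (deriv F z) := by
  intro z
  have h1 : AnalyticAt ℂ (fun y : Fin 1 → ℂ => F (y 0)) (fun _ => z) := by
    have h2 : AnalyticAt ℂ F z := hF.analyticAt z
    exact AnalyticAt.comp (g := F) (f := fun y : Fin 1 → ℂ => y 0) h2
      ((ContinuousLinearMap.proj (R := ℂ) (φ := fun _ : Fin 1 => ℂ) 0).analyticAt _)
  have h2 := hG.w_an j 1 (fun y => F (y 0)) (fun _ => z) (fun _ => 1) h1 (Eventually.of_forall fun y => hK _)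
  have h3 : AnalyticAt ℂ (fun ζ : ℂ => ((fun _ => ζ, fun _ => 1) : (Fin 1 → ℂ) × (Fin 1 → ℂ))) z := by
    refine AnalyticAt.prod ?_ analyticAt_const
    exact (ContinuousLinearMap.pi (R := ℂ) fun _ : Fin 1 => ContinuousLinearMap.id ℂ ℂ).analyticAt z
  have h4 := AnalyticAt.comp (g := fun z : (Fin 1 → ℂ) × (Fin 1 → ℂ) => G.w j (F (z.1 0)) (fderiv ℂ (fun y : Fin 1 → ℂ => F (y 0)) z.1 z.2))
    (f := fun ζ : ℂ => ((fun _ => ζ, fun _ => 1) : (Fin 1 → ℂ) × (Fin 1 → ℂ))) h2 h3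
  refine (h4.congr (Eventually.of_forall fun ζ => ?_)).differentiableAt
  have h5 : HasFDerivAt (fun y : Fin 1 → ℂ => F (y 0)) ((fderiv ℂ F ζ).comp (ContinuousLinearMap.proj 0)) (fun _ => ζ) :=
    HasFDerivAt.comp (g := F) (f := fun y : Fin 1 → ℂ => y 0) (fun _ => ζ) (hF ζ).hasFDerivAt
      (ContinuousLinearMap.proj (R := ℂ) (φ := fun _ : Fin 1 => ℂ) 0).hasFDerivAt
  simp only [Function.comp_apply]
  rw [h5.fderiv]
  simp

/-- MODULE Z5 (ClN.lean): a curve of constant length one is in the class (Liouville) -/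
theorem cl_of_n (hG : G.Ok) {F : ℂ → EN N} (hF : Ent G.K T F) (hN : ∀ z, G.p (F z) = 1) (h1 : ∀ z, G.n (F z) (deriv F z) = 1) : ∃ q, G.Cl T q F := by
  have hc : ∀ j, ∃ q : ℂ, ∀ z, G.w j (F z) (deriv F z) = q := by
    intro j
    refine (ClN_hol hG hF.diff hF.mem j).exists_const_forall_eq_of_bounded ?_
    refine (isBounded_iff_forall_norm_le).2 ⟨1, ?_⟩
    rintro _ ⟨z, rfl⟩
    have h2 : ‖G.w j (F z) (deriv F z)‖ ^ ((G.m j : ℝ)⁻¹) ≤ 1 := by
      rw [← h1 z]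
      exact Finset.single_le_sum (f := fun j => ‖G.w j (F z) (deriv F z)‖ ^ ((G.m j : ℝ)⁻¹)) (fun i _ => Real.rpow_nonneg (norm_nonneg _) _)
        (Finset.mem_univ j)
    by_contra hcon
    rw [not_le] at hcon
    have h3 : (0 : ℝ) < (G.m j : ℝ)⁻¹ := inv_pos.2 (by exact_mod_cast hG.one_m j)
    exact absurd h2 (not_le.2 (Real.one_lt_rpow hcon h3))
  choose q hq using hc
  refine ⟨q, hF, hN, hq, ?_⟩
  rw [← nq_eq q fun j => hq j 0, h1]

end Pool.Agent.SR3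

end
end

section

/-!
# SR3 Bdr: the boundary, and the ends of the lines

`Ok.h1` needs a curve in `K`, so `bdry_of` has the hypothesis that `K` is not empty.
-/

set_option autoImplicit false

open Topology Filter Metric

noncomputable section

namespace Pool.Agent.SR3

open Pool.Agent.H36.BP (EN fs wd Sub OrdTwo)
open Pool.Agent.H14.PP (IsCone Tan)
open Pool.Agent.H62.EF (MN pr)

variable {N : ℕ} {G : Geo N}

theorem pd_le_dist {x y : EN N} (hx : x ≠ 0) (hy : y ≠ 0) : pd x y ≤ dist (pr x) (pr y) := by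
  have h1 : 0 ≤ wd x y / (‖x‖ * ‖y‖) := div_nonneg (Real.sqrt_nonneg _) (by positivity)
  rw [Pool.Agent.H62.EF.dist_pr hx hy]
  have h2 : (1 : ℝ) ≤ √2 := Real.one_le_sqrt.2 (by norm_num)
  show wd x y / (‖x‖ * ‖y‖) ≤ _
  nlinarith

theorem bdry_of (hG : G.Ok) (hK : G.K.Nonempty) : G.Bdry := by
  classical
  have hne : ∀ x ∈ G.X, x ≠ 0 := fun x hx h => hG.surf.zero (h ▸ hx)
  refine ⟨hG.oneE, fun y hy _ i hi => ?_, fun i i' hii => ?_, fun H hH hHX i hi hi' z z' => ?_⟩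
  · obtain ⟨l, r, c, hr, hc, h⟩ := hG.locE y hy i hi
    exact ⟨l, r, c, hr, hc, fun x hx hd => h x hx ((pd_le_dist (hne x hx) (hne y hy)).trans_lt hd)⟩
  · obtain ⟨S, hS⟩ := hG.cross
    refine (S.image pr).finite_toSet.subset ?_
    rintro P ⟨y, hy, -, h1, h2, rfl⟩
    obtain ⟨s, hs, c, hc⟩ := hS y hy i i' hii h1 h2
    have hc0 : c ≠ 0 := by
      rintro rfl
      exact hne y hy (by rw [hc, zero_smul])
    rw [hc, Pool.Agent.H62.EF.pr_smul s hc0]
    exact Finset.mem_coe.2 (Finset.mem_image_of_mem _ hs)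
  · obtain ⟨x₀, hx₀⟩ := hK
    obtain ⟨c, hc⟩ := hG.h1 (Filter.hyperfilter ℕ) (by
        rw [← Nat.cofinite_eq_atTop]
        exact Filter.hyperfilter_le_cofinite) (fun _ _ => x₀) H (fun _ => differentiable_const _) (fun _ _ => hx₀) hH hHX (fun w hw => by
      exfalso
      obtain ⟨j, j', hjj, h1, h2⟩ := hw
      rcases eq_or_ne j i with h | h
      · subst h
        exact hi' j' hjj.symm w h2
      · exact hi' j h w h1) z z'
    have hc0 : c ≠ 0 := by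
      rintro rfl
      exact hne _ (hHX z).1 (by rw [hc, zero_smul])
    rw [hc, Pool.Agent.H62.EF.pr_smul _ hc0]

end Pool.Agent.SR3

end
end

section

/-!
# SR3 LHlA: from `Holes` to `Hl`

`κ` = the holes `b ∈ t` with `‖b - a‖ < ρ`.  `yy b = yy a` for them: at a point `b + s b w`, `‖w‖ = 1` (which is `Off`) the curve is `ε₂`-near `yy a` and `ε`-near
`yy b`.  `near`: `hst` outside the holes, `Rim.ann` for `1 / 2 ≤ ‖w‖ ≤ 1`.  `wind`, `one`, `M_le`: `Rim.wind`.  `sepN`: `hpar`.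
-/

set_option autoImplicit false

open Topology Filter Metric

noncomputable section

namespace Pool.Agent.SR3

open Pool.Agent.H36.BP (EN fs wd Sub OrdTwo)
open Pool.Agent.H14.PP (IsCone Tan)
open Pool.Agent.SY (Ent)
open Pool.Agent.H62.EF (MN pr)
open Geo (Gd)

variable {N : ℕ} {G : Geo N} {T : Set (EN N)} {rho : EN N → ℝ} {M' : ℕ} {c₀ C₀ δ : ℝ} {g : (ℂ → EN N) → ℂ → ℝ}
variable {y : EN N} {i : Fin 2 → G.ι} {l : Fin 2 → Fin (G.M + 1)} {P : G.J → MvPolynomial (Fin 2) ℂ} {r C α : ℝ}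

theorem hl_of (hG : G.Ok) {Y : Finset (EN N)} (hY : G.Ends Y) {B₃ B₄ B₅ ε ε₂ r η τ : ℝ} (hε : ε ≤ r) (hε2 : ε₂ ≤ r) (hεp : 0 < ε)
    (hsepY : ∀ y ∈ Y, ∀ y' ∈ Y, dist (pr y) (pr y') < ε + ε₂ → pr y = pr y') (hη : 0 < η) (hτ : 0 < τ) (hτ1 : τ ≤ 1 / 8) {i : Fin 2 → G.ι}
    {l : Fin 2 → Fin (G.M + 1)} {F : ℂ → EN N} {z : ℂ} {d K : ℝ} {t : Finset ℂ} {s : ℂ → ℝ} {yy : ℂ → EN N} (hd : 8 / τ ≤ d) (hd' : Real.exp (-(η * d)) ≤ 1)
    (hF : Differentiable ℂ F) (hK : ∀ w, F w ∈ G.K) (hnm : ∀ w, G.p (F w) = 1)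
    (hH : G.Holes Y B₃ B₄ ε 20 (Real.exp (-(η * d))) F z ((1 - τ / 4) * d) t s yy) {a : ℂ} (ha : a ∈ t) (haz : ‖z - a‖ < s a / 2)
    (hi : ∀ e, G.E (i e) (yy a) = 0) (hl : ∀ e, G.LocEq r (yy a) (i e) (l e))
    (hst : ∀ w, ‖w - z‖ ≤ (1 - τ / 2) * d → Off t s w → dist (pr (F w)) (pr (yy a)) < ε₂)
    (hcard : (t.card : ℝ) ≤ B₅ * d)
    (hcnt : ∀ b ∈ t, ‖b - z‖ ≤ (1 - τ / 2) * d → ∀ r' : ℝ, 0 < r' → r' < d →
      (((t.erase b).filter (fun b' => ‖b' - b‖ ≤ r')).card : ℝ) * Real.log (d / r') ≤ B₅ * d)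
    (hpar : ∀ b ∈ t, ∀ b' ∈ t, ‖b - z‖ ≤ (1 - τ / 2) * d → ‖b - b'‖ ≤ K * max (s b) (s b') →
      G.wnd (fun w => F (b + s b * w)) (yy b) (i 0) (l 0) 1 * G.wnd (fun w => F (b' + s b' * w)) (yy b') (i 1) (l 1) 1 =
        G.wnd (fun w => F (b + s b * w)) (yy b) (i 1) (l 1) 1 * G.wnd (fun w => F (b' + s b' * w)) (yy b') (i 0) (l 0) 1)
    {B₆ : ℝ} (hgr : ∀ w, ‖w - z‖ ≤ d → Real.log ‖F w‖ ≤ B₆ * d) {ρ : ℝ} (hρ1 : (1 - 2 * τ) * d < ρ) (hρ2 : ρ < (1 - τ) * d)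
    (hρ : ∀ b ∈ t, ‖b - a‖ + 4 * s b < ρ ∨ ρ + 4 * s b < ‖b - a‖) {B : ℝ} (hB4 : B₄ ≤ B) (hB5 : 2 * |B₅| ≤ B) (hB6 : 2 * |B₆| ≤ B) :
    ∃ (κ : Type) (_ : Fintype κ) (ζ : κ → ℂ) (s' : κ → ℝ) (M : κ → Fin 2 → ℕ), G.Hl (yy a) i l r F ζ s' M a ρ B η K ∧ ∃ k, ζ k = a := by
  classical
  -- numbers
  have hd0 : 0 < d := lt_of_lt_of_le (by positivity) hd
  have hτd : 8 ≤ τ * d := by
    have h1 := (div_le_iff₀ hτ).1 hd
    rwa [mul_comm] at h1
  have hτ1d : τ * d ≤ d / 8 := by nlinarith only [hτ, hτ1, hρ1, hρ2]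
  have hρd : ρ < d := by linarith only [hρ2, hτd]
  have hρ3 : 3 / 4 * d ≤ ρ := by linarith only [hρ1, hτ1d]
  have hρ0 : 0 < ρ := by linarith only [hρ1, hτd, hτ1d]
  have hs1 : ∀ b ∈ t, 0 < s b ∧ s b ≤ 1 := fun b hb => ⟨(hH.pos b hb).1, (hH.pos b hb).2.trans hd'⟩
  have hsa := hs1 a ha
  have hwz : ∀ w, ‖w - z‖ ≤ ‖w - a‖ + 1 := by
    intro w
    have h1 : w - z = (w - a) - (z - a) := by ring
    rw [h1]
    refine (norm_sub_le _ _).trans ?_
    linarith only [haz, hsa]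
  have hB5' : B₅ * d ≤ B * ρ := by
    have h1 : B₅ * d ≤ |B₅| * d := mul_le_mul_of_nonneg_right (le_abs_self _) hd0.le
    have h2 : 2 * |B₅| * ρ ≤ B * ρ := mul_le_mul_of_nonneg_right hB5 hρ0.le
    have h3 := abs_nonneg B₅
    nlinarith only [hτ1, hcard, hρ1, h1, h2, h3]
  have hB6' : B₆ * d ≤ B * ρ := by
    have h1 : B₆ * d ≤ |B₆| * d := mul_le_mul_of_nonneg_right (le_abs_self _) hd0.le
    have h2 : 2 * |B₆| * ρ ≤ B * ρ := mul_le_mul_of_nonneg_right hB6 hρ0.le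
    have h3 := abs_nonneg B₆
    nlinarith only [hτ1, hcard, hρ1, hB5', h1, h2, h3]
  have hsep' : ∀ b ∈ t, ∀ b' ∈ t, b ≠ b' → 20 * s b < ‖b - b'‖ ∧ 20 * s b' < ‖b - b'‖ := by
    intro b hb b' hb' hne
    have h1 := hH.sep b hb b' hb' hne
    have h2 := le_max_left (s b) (s b')
    have h3 := le_max_right (s b) (s b')
    constructor <;> linarith
  have hbz : ∀ b, ‖b - a‖ < ρ → ‖b - z‖ ≤ (1 - τ / 2) * d := fun b hb => by
    have h1 := hwz b
    linarith only [hρ2, hτd, hb, h1]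
  -- the annulus of a hole
  have hann : ∀ b ∈ t, ∀ w, s b / 2 ≤ ‖w - b‖ → ‖w - b‖ ≤ 20 * s b → dist (pr (F w)) (pr (yy b)) < ε := by
    intro b hb w h1 h2
    have hsb := (hs1 b hb).1
    have e : b + (s b : ℂ) * ((w - b) / s b) = w := by
      rw [mul_div_cancel₀ _ (Complex.ofReal_ne_zero.2 hsb.ne')]
      ring
    have hn : ‖(w - b) / (s b : ℂ)‖ = ‖w - b‖ / s b := by rw [norm_div, Complex.norm_real, Real.norm_of_nonneg hsb.le]
    have h3 := ((hH.rim b hb).ann ((w - b) / s b) (by rw [hn, le_div_iff₀ hsb]; linarith only [h1]) (by rw [hn, div_le_iff₀ hsb]; exact h2)).2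
    rw [e] at h3
    exact h3
  -- all ends are the same
  have hyy : ∀ b ∈ t, ‖b - a‖ < ρ → yy b = yy a := by
    intro b hb hba
    have hsb := hs1 b hb
    have hn : ‖(b + (s b : ℂ)) - b‖ = s b := by rw [add_sub_cancel_left, Complex.norm_real, Real.norm_of_nonneg hsb.1.le]
    have hoff : Off t s (b + (s b : ℂ)) := by
      intro b' hb'
      by_cases h1 : b' = b
      · rw [h1, hn]
      · have h2 := hsep' b hb b' hb' fun h => h1 h.symm
        have h3 : ‖b - b'‖ ≤ ‖(b + (s b : ℂ)) - b'‖ + ‖(b + (s b : ℂ)) - b‖ := by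
          have h4 : b - b' = ((b + (s b : ℂ)) - b') - ((b + (s b : ℂ)) - b) := by ring
          rw [h4]
          exact norm_sub_le _ _
        rw [hn] at h3
        have h5 := (hs1 b' hb').1
        by_cases h6 : s b ≤ s b'
        · linarith only [hsb, h2, h3]
        · linarith only [h2, h3, h5]
    have h1 := hann b hb (b + (s b : ℂ)) (by rw [hn]; linarith only [hsb]) (by rw [hn]; linarith only [hsb])
    have h2 := hst (b + (s b : ℂ)) (by
      have h3 := hwz (b + (s b : ℂ))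
      have h4 : ‖(b + (s b : ℂ)) - a‖ ≤ ‖b - a‖ + s b := by
        have h5 : (b + (s b : ℂ)) - a = (b - a) + ((b + (s b : ℂ)) - b) := by ring
        rw [h5]
        refine (norm_add_le _ _).trans ?_
        rw [hn]
      linarith only [hρ2, hτd, hba, hsb, h3, h4]) hoff
    refine hY.inj _ (hH.rim b hb).mem _ (hH.rim a ha).mem (hsepY _ (hH.rim b hb).mem _ (hH.rim a ha).mem ?_)
    rw [dist_comm] at h1
    exact (dist_triangle _ _ _).trans_lt (add_lt_add h1 h2)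
  -- the index set
  have hloc : ∀ b ∈ t, ‖b - a‖ < ρ → ∀ e, G.LocEq ε (yy b) (i e) (l e) := by
    intro b hb hba e
    obtain ⟨c, hc, h1⟩ := hl e
    rw [hyy b hb hba]
    exact ⟨c, hc, fun x hx hxy => h1 x hx (hxy.trans_le hε)⟩
  choose! M hM using fun (b : ℂ) (hb : b ∈ t) (hba : ‖b - a‖ < ρ) (e : Fin 2) => (hH.rim b hb).wind (i e) (l e) (hloc b hb hba e)
  have hwnd : ∀ b ∈ t, ‖b - a‖ < ρ → ∀ e, G.wnd (fun w => F (b + s b * w)) (yy b) (i e) (l e) 1 = -(2 * Real.pi * Complex.I * M b e) :=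
    fun b hb hba e => (hM b hb hba e).2.2 1 le_rfl one_le_two
  have hpiI : (2 * Real.pi * Complex.I : ℂ) ≠ 0 := Complex.two_pi_I_ne_zero
  refine ⟨{b // b ∈ t ∧ ‖b - a‖ < ρ}, (Fintype.ofFinset (t.filter fun b => ‖b - a‖ < ρ) fun b => by rw [Finset.mem_filter]; rfl), fun b => b, fun b => s b,
    fun b => M b, ?_, ⟨a, ha, by rw [sub_self, norm_zero]; exact hρ0⟩, rfl⟩
  let _ : Fintype {b // b ∈ t ∧ ‖b - a‖ < ρ} := Fintype.ofFinset (t.filter fun b => ‖b - a‖ < ρ) fun b => by rw [Finset.mem_filter]; rfl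
  refine ⟨hF, hK, hnm, fun k => (hs1 k k.2.1).1, fun k => (hH.pos k k.2.1).2.trans (Real.exp_le_exp.2 (neg_le_neg (mul_le_mul_of_nonneg_left hρd.le hη.le))),
    fun k => ?_, fun j k hjk => ?_, fun j k hjk => ?_, ?_, fun k t' ht' ht'ρ => ?_, fun w hw hwk => ?_, fun k w hw => ?_, fun w hw => ?_,
    fun k e => (hM k k.2.1 k.2.2 e).2.1 (by rw [hyy k k.2.1 k.2.2]; exact hi e), fun k e => (hM k k.2.1 k.2.2 e).1.trans hB4, fun k e => ?_⟩
  · -- inb
    rcases hρ k k.2.1 with h1 | h1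
    · exact h1
    · have h2 := k.2.2
      have h3 := (hs1 k k.2.1).1
      exfalso
      linarith only [h1, h2, h3]
  · -- sep
    exact (hsep' j j.2.1 k k.2.1 fun h => hjk (Subtype.ext h)).1.le
  · -- sepN
    by_contra hcon
    push Not at hcon
    apply hjk
    have hK0 : 0 ≤ K := by
      by_contra h1
      have h2 : K * s j ≤ 0 := mul_nonpos_of_nonpos_of_nonneg (not_le.1 h1).le (hs1 j j.2.1).1.le
      exact absurd (hcon.trans_le h2) (not_lt.2 (norm_nonneg _))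
    have h1 := hpar j j.2.1 k k.2.1 (hbz j j.2.2) (hcon.le.trans (mul_le_mul_of_nonneg_left (le_max_left _ _) hK0))
    rw [hwnd j j.2.1 j.2.2, hwnd k k.2.1 k.2.2, hwnd j j.2.1 j.2.2, hwnd k k.2.1 k.2.2] at h1
    have h2 : ((M j 0 * M k 1 : ℕ) : ℂ) = ((M j 1 * M k 0 : ℕ) : ℂ) := by
      apply mul_left_cancel₀ (pow_ne_zero 2 hpiI)
      push_cast
      linear_combination h1
    exact_mod_cast h2
  · -- card
    refine le_trans ?_ (hcard.trans hB5')
    have h1 : Fintype.card {b // b ∈ t ∧ ‖b - a‖ < ρ} ≤ t.card :=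
      (Fintype.card_le_of_injective (fun b : {b // b ∈ t ∧ ‖b - a‖ < ρ} => (⟨b, b.2.1⟩ : t)) fun b b' h => Subtype.ext (congrArg (fun x : t => (x : ℂ)) h)).trans (Fintype.card_coe t).le
    exact_mod_cast h1
  · -- cnt
    have h1 := hcnt k k.2.1 (hbz k k.2.2) t' ht' (ht'ρ.trans hρd)
    refine le_trans ?_ (h1.trans hB5')
    refine mul_le_mul ?_ (Real.log_le_log (div_pos hρ0 ht') (div_le_div_of_nonneg_right hρd.le ht'.le)) (Real.log_nonneg ((one_le_div ht').2 ht'ρ.le))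
      (Nat.cast_nonneg _)
    have h2 : (Finset.univ.filter fun j : {b // b ∈ t ∧ ‖b - a‖ < ρ} => 0 < ‖(j : ℂ) - k‖ ∧ ‖(j : ℂ) - k‖ ≤ t').card ≤
        ((t.erase (k : ℂ)).filter (fun b' => ‖b' - (k : ℂ)‖ ≤ t')).card := by
      refine Finset.card_le_card_of_injOn (fun j => (j : ℂ)) (fun j hj => ?_) fun j _ j' _ h => Subtype.ext h
      have h3 := (Finset.mem_filter.1 hj).2
      refine Finset.mem_filter.2 ⟨Finset.mem_erase.2 ⟨fun h => ?_, j.2.1⟩, h3.2⟩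
      have h4 := h3.1
      have h5 : (j : ℂ) = k := h
      rw [h5, sub_self, norm_zero] at h4
      exact lt_irrefl _ h4
    exact_mod_cast h2
  · -- near
    by_cases hoff : Off t s w
    · refine (hst w ?_ hoff).trans_le hε2
      have h1 := hwz w
      linarith only [hρ2, hτd, hw, h1]
    · obtain ⟨b, hb, hwb⟩ : ∃ b ∈ t, ‖w - b‖ < s b := by
        unfold Off at hoff
        push Not at hoff
        exact hoff
      have h1 : ‖b - a‖ < s b + ρ := by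
        have h2 : b - a = (w - a) - (w - b) := by ring
        rw [h2]
        refine (norm_sub_le _ _).trans_lt ?_
        linarith only [hw, hwb]
      have hba : ‖b - a‖ < ρ := by
        have h3 := (hs1 b hb).1
        rcases hρ b hb with h2 | h2
        · linarith only [h3, h2]
        · exfalso
          linarith only [h1, h3, h2]
      have h2 : s b / 2 ≤ ‖w - b‖ := hwk ⟨b, hb, hba⟩
      have h3 := hann b hb w h2 (by have := (hs1 b hb).1; linarith only [hwb, h2])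
      rw [hyy b hb hba] at h3
      exact h3.trans_le hε
  · -- bdd
    have hsb := (hs1 k k.2.1).1
    have e : (k : ℂ) + (s k : ℂ) * ((w - k) / s k) = w := by
      rw [mul_div_cancel₀ _ (Complex.ofReal_ne_zero.2 hsb.ne')]
      ring
    have hn : ‖(w - k) / (s k : ℂ)‖ = ‖w - k‖ / s k := by rw [norm_div, Complex.norm_real, Real.norm_of_nonneg hsb.le]
    have h3 := (hH.rim k k.2.1).bdd ((w - k) / s k) (by rw [hn, div_le_iff₀ hsb]; exact hw.trans (mul_le_mul_of_nonneg_right (by norm_num) hsb.le))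
    rw [e] at h3
    exact h3.trans hB4
  · -- upp
    refine (hgr w ?_).trans hB6'
    have h1 := hwz w
    linarith only [hρ2, hτd, hw, h1]
  · -- wind
    rw [← hyy k k.2.1 k.2.2]
    exact hwnd k k.2.1 k.2.2 e

end Pool.Agent.SR3

end
end

section

/-!
# SR3 LSmo: the ends of the lines; at a smooth end the forms have no residue

For a vector `V ≠ 0` of polynomials of degree `D`: `z ⟪V, V'⟫ / ‖V‖ ^ 2 → D`.  So `z ell i (F, F') → D i - c i D`, `‖z‖ fs (F, F') → 0`; and `D i ≠ c i D` if the component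
`i` contains the end of the line `F`.  Then `z ^ m w j (F, F')` tends to the value of the residue polynomial at this vector, so the entire function `w j (F, F')` tends
to `0`, is `0`, and the residue polynomial, a form in one variable, is zero.
-/

set_option autoImplicit false

open Topology Filter Metric

noncomputable section

namespace Pool.Agent.SR3

open Pool.Agent.H36.BP (EN fs wd Sub OrdTwo)
open Pool.Agent.H14.PP (IsCone Tan)
open Pool.Agent.SY (Ent)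
open Pool.Agent.H62.EF (MN pr)
open Geo (Gd)

variable {N : ℕ} {G : Geo N}

namespace LSmo

theorem tinv : Tendsto (fun z : ℂ => z⁻¹) (cocompact ℂ) (𝓝 0) := by
  rw [← Metric.cobounded_eq_cocompact]
  exact tendsto_inv₀_cobounded

theorem ev_ne : ∀ᶠ z : ℂ in cocompact ℂ, z ≠ 0 := by
  have h1 : {(0 : ℂ)}ᶜ ∈ cocompact ℂ := isCompact_singleton.compl_mem_cocompact
  filter_upwards [h1] with z hz
  exact hz

theorem poly_lim (p : Polynomial ℂ) {d : ℕ} (hd : p.natDegree ≤ d) :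
    Tendsto (fun z : ℂ => (z ^ d)⁻¹ * p.eval z) (cocompact ℂ) (𝓝 (p.coeff d)) := by
  have h1 : Tendsto (fun z : ℂ => (Polynomial.reflect d p).eval z⁻¹) (cocompact ℂ) (𝓝 ((Polynomial.reflect d p).eval 0)) :=
    ((Polynomial.reflect d p).continuous.tendsto 0).comp tinv
  have h3 : (Polynomial.reflect d p).eval 0 = p.coeff d := by
    rw [← Polynomial.coeff_zero_eq_eval_zero, Polynomial.coeff_reflect, Polynomial.revAt_le (Nat.zero_le d), Nat.sub_zero]
  rw [h3] at h1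
  refine h1.congr' ?_
  filter_upwards [ev_ne] with z hz
  let := invertibleOfNonzero hz
  have h5 := Polynomial.eval₂_reflect_mul_pow (RingHom.id ℂ) z d p hd
  rw [invOf_eq_inv] at h5
  change (Polynomial.reflect d p).eval z⁻¹ * z ^ d = p.eval z at h5
  rw [← h5, mul_comm, mul_assoc, mul_inv_cancel₀ (pow_ne_zero d hz), mul_one]

/-- the leading term of a vector of polynomials -/
theorem lead {M : ℕ} {V : ℂ → EN M} (hV : Differentiable ℂ V) {C : ℝ} {k : ℕ} (hC : ∀ z, ‖V z‖ ≤ C * (1 + ‖z‖) ^ k) (h0 : ∃ z, V z ≠ 0) :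
    ∃ (D : ℕ) (v : EN M), v ≠ 0 ∧ Tendsto (fun z : ℂ => (z ^ D)⁻¹ • V z) (cocompact ℂ) (𝓝 v) ∧
      Tendsto (fun z : ℂ => (z ^ D)⁻¹ • (z • deriv V z)) (cocompact ℂ) (𝓝 ((D : ℂ) • v)) ∧ ((∃ z z', V z ≠ V z') → 1 ≤ D) := by
  have hp : ∀ i : Fin (M + 1), ∃ p : Polynomial ℂ, ∀ z, V z i = p.eval z := by
    intro i
    refine Pool.Agent.SY.exists_poly_of_growth k (fun z => V z i) C ?_ ?_
    · exact (EuclideanSpace.proj (𝕜 := ℂ) i).differentiable.comp hV
    · intro z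
      exact (PiLp.norm_apply_le (V z) i).trans (hC z)
  choose p hp using hp
  obtain ⟨D, hD⟩ : ∃ D : ℕ, D = Finset.univ.sup fun l => (p l).natDegree := ⟨_, rfl⟩
  have hle : ∀ l, (p l).natDegree ≤ D := fun l => by
    rw [hD]
    exact Finset.le_sup (f := fun l => (p l).natDegree) (Finset.mem_univ l)
  obtain ⟨l₀, -, hl₀⟩ : ∃ l₀ ∈ (Finset.univ : Finset (Fin (M + 1))), D = (p l₀).natDegree := by
    rw [hD]
    exact Finset.exists_mem_eq_sup _ Finset.univ_nonempty _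
  have hconst : D = 0 → ∀ z l, V z l = (p l).coeff 0 := by
    intro h0 z l
    have h1 : (p l).natDegree = 0 := Nat.le_zero.mp (h0 ▸ hle l)
    rw [hp l z, Polynomial.eq_C_of_natDegree_eq_zero h1, Polynomial.eval_C, Polynomial.coeff_C_zero]
  obtain ⟨v, hv⟩ : ∃ v : EN M, v = WithLp.toLp 2 fun l => (p l).coeff D := ⟨_, rfl⟩
  have hv0 : v ≠ 0 := by
    intro h
    have h1 : ∀ l, (p l).coeff D = 0 := fun l => by
      have := congrArg (fun x : EN M => x l) h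
      rw [hv] at this
      exact this
    have h2 : p l₀ = 0 := by
      have := h1 l₀
      rw [hl₀] at this
      exact Polynomial.leadingCoeff_eq_zero.1 this
    have h3 : D = 0 := by rw [hl₀, h2, Polynomial.natDegree_zero]
    obtain ⟨z, hz⟩ := h0
    apply hz
    ext l
    rw [hconst h3 z l]
    have := h1 l
    rw [h3] at this
    exact this
  have hlimv : ∀ (q : Fin (M + 1) → Polynomial ℂ) (W : ℂ → EN M) (c : ℂ), (∀ l, (q l).natDegree ≤ D) → (∀ z l, W z l = (q l).eval z) →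
      (∀ l, (q l).coeff D = c * (p l).coeff D) → Tendsto (fun z : ℂ => (z ^ D)⁻¹ • W z) (cocompact ℂ) (𝓝 (c • v)) := by
    intro q W c hq hW hc
    have h1 : Tendsto (fun z : ℂ => fun l => (z ^ D)⁻¹ * (q l).eval z) (cocompact ℂ) (𝓝 fun l => (q l).coeff D) :=
      tendsto_pi_nhds.2 fun l => poly_lim (q l) (hq l)
    have h2 := ((PiLp.continuous_toLp 2 (fun _ : Fin (M + 1) => ℂ)).tendsto (fun l => (q l).coeff D)).comp h1
    have h3 : (WithLp.toLp 2 (fun l => (q l).coeff D) : EN M) = c • v := by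
      ext l
      rw [hv]
      exact hc l
    rw [h3] at h2
    refine h2.congr fun z => ?_
    ext l
    show (z ^ D)⁻¹ * (q l).eval z = (z ^ D)⁻¹ * W z l
    rw [hW]
  refine ⟨D, v, hv0, ?_, ?_, ?_⟩
  · have h1 := hlimv p V 1 hle (fun z l => hp l z) (fun l => (one_mul _).symm)
    rwa [one_smul] at h1
  · refine hlimv (fun l => Polynomial.X * Polynomial.derivative (p l)) (fun z => z • deriv V z) D ?_ ?_ ?_
    · intro l
      rw [Polynomial.natDegree_le_iff_coeff_eq_zero]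
      intro n hn
      obtain ⟨m, rfl⟩ : ∃ m, n = m + 1 := ⟨n - 1, by omega⟩
      rw [Polynomial.coeff_X_mul, Polynomial.coeff_derivative, Polynomial.coeff_eq_zero_of_natDegree_lt ((hle l).trans_lt hn), zero_mul]
    · intro z l
      have h1 : HasDerivAt (fun z => V z l) ((deriv V z) l) z :=
        (EuclideanSpace.proj (𝕜 := ℂ) l).hasFDerivAt.comp_hasDerivAt z (hV z).hasDerivAt
      have h2 : HasDerivAt (fun z => V z l) ((Polynomial.derivative (p l)).eval z) z := by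
        have h3 : (fun z => V z l) = fun z => (p l).eval z := funext fun z => hp l z
        rw [h3]
        exact (p l).hasDerivAt z
      show z * (deriv V z) l = (Polynomial.X * Polynomial.derivative (p l)).eval z
      rw [h1.unique h2, Polynomial.eval_mul, Polynomial.eval_X]
    · intro l
      show (Polynomial.X * Polynomial.derivative (p l)).coeff D = D * (p l).coeff D
      rcases Nat.eq_zero_or_pos D with h | h
      · rw [h]
        simp
      · obtain ⟨m, hm⟩ : ∃ m, D = m + 1 := ⟨D - 1, by omega⟩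
        rw [hm, Polynomial.coeff_X_mul, Polynomial.coeff_derivative]
        push_cast
        ring
  · rintro ⟨z, z', hzz⟩
    by_contra hD0
    apply hzz
    ext l
    rw [hconst (by omega) z l, hconst (by omega) z' l]

theorem lead_inner {M : ℕ} {V : ℂ → EN M} {D : ℕ} {v : EN M} (hv : v ≠ 0) (h1 : Tendsto (fun z : ℂ => (z ^ D)⁻¹ • V z) (cocompact ℂ) (𝓝 v))
    (h2 : Tendsto (fun z : ℂ => (z ^ D)⁻¹ • (z • deriv V z)) (cocompact ℂ) (𝓝 ((D : ℂ) • v))) :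
    Tendsto (fun z : ℂ => z * (inner ℂ (V z) (deriv V z) / (‖V z‖ : ℂ) ^ 2)) (cocompact ℂ) (𝓝 (D : ℂ)) := by
  have hv' : (‖v‖ : ℂ) ≠ 0 := by exact_mod_cast norm_ne_zero_iff.2 hv
  have h3 : Tendsto (fun z : ℂ => (inner ℂ ((z ^ D)⁻¹ • V z) ((z ^ D)⁻¹ • (z • deriv V z)) : ℂ) / (‖(z ^ D)⁻¹ • V z‖ : ℂ) ^ 2) (cocompact ℂ)
      (𝓝 ((inner ℂ v ((D : ℂ) • v) : ℂ) / (‖v‖ : ℂ) ^ 2)) :=
    (h1.inner h2).div (((Complex.continuous_ofReal.tendsto _).comp h1.norm).pow 2) (pow_ne_zero 2 hv')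
  have h4 : (inner ℂ v ((D : ℂ) • v) : ℂ) / (‖v‖ : ℂ) ^ 2 = D := by
    rw [inner_smul_right, inner_self_eq_norm_sq_to_K]
    exact mul_div_cancel_right₀ _ (pow_ne_zero 2 hv')
  rw [h4] at h3
  refine h3.congr' ?_
  filter_upwards [ev_ne] with z hz
  have hc : (z ^ D)⁻¹ ≠ 0 := inv_ne_zero (pow_ne_zero D hz)
  generalize (z ^ D)⁻¹ = c at hc
  have hc1 : (starRingEnd ℂ) c * c = (‖c‖ : ℂ) ^ 2 := Complex.conj_mul' c
  have hc2 : (‖c‖ : ℂ) ^ 2 ≠ 0 := pow_ne_zero 2 (by exact_mod_cast norm_ne_zero_iff.2 hc)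
  rw [inner_smul_left, inner_smul_right, inner_smul_right, norm_smul, Complex.ofReal_mul, mul_pow, ← mul_div_assoc,
    ← mul_div_mul_left (z * inner ℂ (V z) (deriv V z)) ((‖V z‖ : ℂ) ^ 2) hc2]
  congr 1
  rw [← hc1]
  ring

theorem lead_fs {F : ℂ → EN N} (h0 : ∀ z, F z ≠ 0) {D : ℕ} {v : EN N} (hv : v ≠ 0) (h1 : Tendsto (fun z : ℂ => (z ^ D)⁻¹ • F z) (cocompact ℂ) (𝓝 v))
    (h2 : Tendsto (fun z : ℂ => (z ^ D)⁻¹ • (z • deriv F z)) (cocompact ℂ) (𝓝 ((D : ℂ) • v))) :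
    Tendsto (fun z : ℂ => ‖z‖ * fs (F z) (deriv F z)) (cocompact ℂ) (𝓝 0) := by
  have h3 : Tendsto (fun z : ℂ => ‖(z ^ D)⁻¹ • (z • deriv F z) - (D : ℂ) • ((z ^ D)⁻¹ • F z)‖ / ‖(z ^ D)⁻¹ • F z‖) (cocompact ℂ)
      (𝓝 (‖(D : ℂ) • v - (D : ℂ) • v‖ / ‖v‖)) :=
    ((h2.sub (h1.const_smul (D : ℂ))).norm).div h1.norm (norm_ne_zero_iff.2 hv)
  rw [sub_self, norm_zero, zero_div] at h3
  have hfs : ∀ x w : EN N, 0 ≤ fs x w := fun x w => div_nonneg (Real.sqrt_nonneg _) (by positivity)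
  refine squeeze_zero' (Eventually.of_forall fun z => mul_nonneg (norm_nonneg _) (hfs _ _)) ?_ h3
  filter_upwards [ev_ne] with z hz
  have hc : (z ^ D)⁻¹ ≠ 0 := inv_ne_zero (pow_ne_zero D hz)
  have h4 := Pool.Agent.H36.BP.fs_inv (h0 z) (z • deriv F z) hc (-(D : ℂ) * (z ^ D)⁻¹)
  rw [Pool.Agent.H36.BP.fs_smul_right] at h4
  rw [← h4]
  refine (Pool.Agent.H14.PP.fs_le (smul_ne_zero hc (h0 z)) _).trans (le_of_eq ?_)
  congr 2
  rw [neg_mul, neg_smul, ← sub_eq_add_neg, mul_smul]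

theorem growthE (hG : G.Ok) {F : ℂ → EN N} (hF : G.Line F) (i : G.ι) : ∃ (C : ℝ) (k : ℕ), ∀ z, ‖G.E i (F z)‖ ≤ C * (1 + ‖z‖) ^ k := by
  obtain ⟨C, k, hC⟩ := hF.pol
  obtain ⟨B, hB⟩ := (isCompact_sphere (0 : EN N) 1).exists_bound_of_continuousOn
    (f := G.E i) (fun x _ => (hG.anE i x).continuousAt.continuousWithinAt)
  refine ⟨|B| * C ^ G.c i, k * G.c i, fun z => ?_⟩
  have h0 : F z ≠ 0 := ne0 hG (hF.mem z)
  have hn : ‖F z‖ ≠ 0 := norm_ne_zero_iff.2 h0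
  have h1 : F z = (‖F z‖ : ℂ) • ((‖F z‖ : ℂ)⁻¹ • F z) := by
    rw [smul_smul, mul_inv_cancel₀ (by exact_mod_cast hn), one_smul]
  have h2 : ‖(‖F z‖ : ℂ)⁻¹ • F z‖ = 1 := by
    rw [norm_smul, norm_inv, Complex.norm_real, norm_norm, inv_mul_cancel₀ hn]
  have h3 : ‖G.E i (F z)‖ = ‖F z‖ ^ G.c i * ‖G.E i ((‖F z‖ : ℂ)⁻¹ • F z)‖ := by
    conv_lhs => rw [h1]
    rw [hG.smulE, norm_smul, norm_pow, Complex.norm_real, norm_norm]
  rw [h3]
  have h4 : ‖G.E i ((‖F z‖ : ℂ)⁻¹ • F z)‖ ≤ |B| := (hB _ (mem_sphere_zero_iff_norm.2 h2)).trans (le_abs_self B)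
  have h5 : ‖F z‖ ^ G.c i ≤ (C * (1 + ‖z‖) ^ k) ^ G.c i := pow_le_pow_left₀ (norm_nonneg _) (hC z) _
  have h6 : (C * (1 + ‖z‖) ^ k) ^ G.c i = C ^ G.c i * (1 + ‖z‖) ^ (k * G.c i) := by
    rw [mul_pow, ← pow_mul]
  rw [h6] at h5
  calc ‖F z‖ ^ G.c i * ‖G.E i ((‖F z‖ : ℂ)⁻¹ • F z)‖ ≤ (C ^ G.c i * (1 + ‖z‖) ^ (k * G.c i)) * |B| :=
        mul_le_mul h5 h4 (norm_nonneg _) ((pow_nonneg (norm_nonneg _) _).trans h5)
    _ = |B| * C ^ G.c i * (1 + ‖z‖) ^ (k * G.c i) := by ring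

theorem ell_lim (hG : G.Ok) {F : ℂ → EN N} (hF : G.Line F) {D : ℕ} {v : EN N} (hv : v ≠ 0)
    (h1 : Tendsto (fun z : ℂ => (z ^ D)⁻¹ • F z) (cocompact ℂ) (𝓝 v))
    (h2 : Tendsto (fun z : ℂ => (z ^ D)⁻¹ • (z • deriv F z)) (cocompact ℂ) (𝓝 ((D : ℂ) • v))) (i : G.ι) :
    ∃ M : ℂ, Tendsto (fun z : ℂ => z * G.ell i (F z) (deriv F z)) (cocompact ℂ) (𝓝 M) ∧ (G.E i v = 0 → M ≠ 0) := by
  obtain ⟨C, k, hC⟩ := growthE hG hF i
  have hVd : Differentiable ℂ fun z => G.E i (F z) := fun z => (hG.anE i (F z)).differentiableAt.comp z (hF.diff z)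
  obtain ⟨D', v', hv', h1', h2', -⟩ := lead hVd hC ⟨0, hG.neE i _ (hF.mem 0)⟩
  have hder : ∀ z, deriv (fun z => G.E i (F z)) z = fderiv ℂ (G.E i) (F z) (deriv F z) := fun z =>
    ((hG.anE i (F z)).differentiableAt.hasFDerivAt.comp_hasDerivAt z (hF.diff z).hasDerivAt).deriv
  refine ⟨(D' : ℂ) - G.c i * D, ?_, ?_⟩
  · have h3 := (lead_inner hv' h1' h2').sub ((lead_inner hv h1 h2).const_mul (G.c i : ℂ))
    refine h3.congr fun z => ?_
    rw [hder]
    unfold Geo.ell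
    ring
  · intro hE h0
    have h4 : D' = D * G.c i := by
      have h5 : (D' : ℂ) = ((G.c i * D : ℕ) : ℂ) := by
        push_cast
        exact sub_eq_zero.1 h0
      rw [mul_comm]
      exact_mod_cast h5
    apply hv'
    have h5 : Tendsto (fun z : ℂ => G.E i ((z ^ D)⁻¹ • F z)) (cocompact ℂ) (𝓝 0) := by
      rw [← hE]
      exact (hG.anE i v).continuousAt.tendsto.comp h1
    refine tendsto_nhds_unique h1' (h5.congr fun z => ?_)
    rw [hG.smulE, h4, pow_mul, inv_pow]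

theorem pd_lt {x y : EN N} (hx : x ≠ 0) (hy : y ≠ 0) {r : ℝ} (h : dist (pr x) (pr y) < r) : pd x y < r := by
  have h1 : 0 ≤ pd x y := div_nonneg (Real.sqrt_nonneg _) (by positivity)
  have h2 : dist (pr x) (pr y) = Real.sqrt 2 * pd x y := Pool.Agent.H62.EF.dist_pr hx hy
  have h3 : 1 ≤ Real.sqrt 2 := by
    rw [Real.one_le_sqrt]
    norm_num
  rw [h2] at h
  nlinarith

/-- the end of a line -/
theorem line_smooth (hG : G.Ok) {F : ℂ → EN N} (hF : G.Line F) : ∃ v : EN N, v ∈ G.X ∧ v ∉ G.K ∧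
    Tendsto (fun w => pr (F w)) (cocompact ℂ) (𝓝 (pr v)) ∧ ((∀ i i' : G.ι, i ≠ i' → G.E i v = 0 → G.E i' v ≠ 0) → ∃ (r B : ℝ), 0 < r ∧ ∀ x ∈ G.K,
      dist (pr x) (pr v) < r → ∀ w, Tan G.X x w → ∀ j, ‖G.w j x w‖ ≤ B * fs x w * G.L x w ^ (G.m j - 1)) := by
  obtain ⟨C₀, k₀, hC₀⟩ := hF.pol
  have hF0 : ∀ z, F z ≠ 0 := fun z => ne0 hG (hF.mem z)
  obtain ⟨D, v, hv, h1, h2, hD⟩ := lead hF.diff hC₀ ⟨0, hF0 0⟩
  have hD1 : 1 ≤ D := hD hF.ne
  have hX : ∀ᶠ z : ℂ in cocompact ℂ, (z ^ D)⁻¹ • F z ∈ G.X := by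
    filter_upwards [ev_ne] with z hz
    exact hG.surf.smul _ (KX hG (hF.mem z)) _ (inv_ne_zero (pow_ne_zero _ hz))
  have hvX : v ∈ G.X := hG.surf.closed v (mem_closure_of_tendsto h1 hX) hv
  have hpv : G.p v = 0 := by
    have h3 : Tendsto (fun z : ℂ => G.p ((z ^ D)⁻¹ • F z)) (cocompact ℂ) (𝓝 (G.p v)) := (hG.aff.an () v).continuousAt.tendsto.comp h1
    have h4 : Tendsto (fun z : ℂ => G.p ((z ^ D)⁻¹ • F z)) (cocompact ℂ) (𝓝 0) := by
      have h5 := tinv.pow (D * G.h)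
      have hh : 1 ≤ G.h := hG.aff.pos ()
      rw [zero_pow (Nat.mul_ne_zero (by omega) (by omega))] at h5
      refine h5.congr fun z => ?_
      rw [p_smul hG, hF.nm z, mul_one, ← inv_pow, ← pow_mul]
    exact tendsto_nhds_unique h3 h4
  have hvK : v ∉ G.K := fun hK => p_ne hG hK hpv
  have hpr : Tendsto (fun w => pr (F w)) (cocompact ℂ) (𝓝 (pr v)) := by
    have h3 := (Pool.Agent.H62.EF.continuousAt_pr hv).tendsto.comp h1
    refine h3.congr' ?_
    filter_upwards [ev_ne] with z hz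
    exact Pool.Agent.H62.EF.pr_smul _ (inv_ne_zero (pow_ne_zero _ hz))
  refine ⟨v, hvX, hvK, hpr, fun hs => ?_⟩
  obtain ⟨i₀, hi₀⟩ := hG.oneE v hvX hvK
  obtain ⟨Q, r, C, hr, hC, hQh, hQs, hQ⟩ := hG.resL v hvX hvK
  choose M hM hM0 using ell_lim hG hF hv h1 h2
  have hfs := lead_fs hF0 hv h1 h2
  have hL : Tendsto (fun z : ℂ => ‖z‖ * G.L (F z) (deriv F z)) (cocompact ℂ) (𝓝 (0 + ∑ i, ‖M i‖)) := by
    have h3 := hfs.add (tendsto_finsetSum (Finset.univ : Finset G.ι) fun i _ => (hM i).norm)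
    refine h3.congr fun z => ?_
    unfold Geo.L
    rw [mul_add, Finset.mul_sum]
    congr 1
    refine Finset.sum_congr rfl fun i _ => ?_
    rw [norm_mul]
  have hnear : ∀ᶠ z : ℂ in cocompact ℂ, pd (F z) v < r := by
    filter_upwards [(Metric.tendsto_nhds.1 hpr) r hr] with z hz
    exact pd_lt (hF0 z) hv hz
  have hzero : ∀ j, MvPolynomial.eval M (Q j) = 0 := by
    intro j
    have hm1 := hG.one_m j
    have h3 : Tendsto (fun z : ℂ => MvPolynomial.eval (fun i => z * G.ell i (F z) (deriv F z)) (Q j)) (cocompact ℂ) (𝓝 (MvPolynomial.eval M (Q j))) :=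
      ((MvPolynomial.continuous_eval (Q j)).tendsto M).comp (tendsto_pi_nhds.2 hM)
    have h4 : Tendsto (fun z : ℂ => z ^ G.m j * G.w j (F z) (deriv F z) - MvPolynomial.eval (fun i => z * G.ell i (F z) (deriv F z)) (Q j)) (cocompact ℂ) (𝓝 0) := by
      have h5 : Tendsto (fun z : ℂ => C * (‖z‖ * fs (F z) (deriv F z)) * (‖z‖ * G.L (F z) (deriv F z)) ^ (G.m j - 1)) (cocompact ℂ)
          (𝓝 (C * 0 * (0 + ∑ i, ‖M i‖) ^ (G.m j - 1))) := (hfs.const_mul C).mul (hL.pow _)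
      rw [mul_zero, zero_mul] at h5
      refine squeeze_zero_norm' ?_ h5
      filter_upwards [hnear] with z hz
      rw [eval_smul_of_hom (hQh j), ← mul_sub, norm_mul, norm_pow]
      have h6 := hQ (F z) (hF.mem z) hz j (deriv F z) (tan hG hF.diff hF.mem z)
      calc ‖z‖ ^ G.m j * ‖G.w j (F z) (deriv F z) - MvPolynomial.eval (fun i => G.ell i (F z) (deriv F z)) (Q j)‖
          ≤ ‖z‖ ^ G.m j * (C * fs (F z) (deriv F z) * G.L (F z) (deriv F z) ^ (G.m j - 1)) := mul_le_mul_of_nonneg_left h6 (by positivity)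
        _ = C * (‖z‖ * fs (F z) (deriv F z)) * (‖z‖ * G.L (F z) (deriv F z)) ^ (G.m j - 1) := by
          have h7 : ‖z‖ ^ G.m j = ‖z‖ * ‖z‖ ^ (G.m j - 1) := by
            rw [← pow_succ']
            congr 1
            omega
          rw [h7, mul_pow]
          ring
    have h5 : Tendsto (fun z : ℂ => z ^ G.m j * G.w j (F z) (deriv F z)) (cocompact ℂ) (𝓝 (MvPolynomial.eval M (Q j))) := by
      have h6 := h4.add h3
      rw [zero_add] at h6
      refine h6.congr fun z => ?_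
      ring
    have h6 : Tendsto (fun z : ℂ => G.w j (F z) (deriv F z)) (cocompact ℂ) (𝓝 0) := by
      have h7 := (tinv.pow (G.m j)).mul h5
      rw [zero_pow (by omega), zero_mul] at h7
      refine h7.congr' ?_
      filter_upwards [ev_ne] with z hz
      rw [← mul_assoc, inv_pow, inv_mul_cancel₀ (pow_ne_zero _ hz), one_mul]
    have h7 := (ClN_hol hG hF.diff hF.mem j).eq_const_of_tendsto_cocompact h6
    have h8 : ∀ z, G.w j (F z) (deriv F z) = 0 := fun z => congrFun h7 z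
    refine tendsto_nhds_unique h5 ?_
    refine (tendsto_const_nhds (x := (0 : ℂ))).congr fun z => ?_
    rw [h8 z, mul_zero]
  have hQ0 : ∀ j u, MvPolynomial.eval u (Q j) = 0 := by
    intro j u
    have h3 : MvPolynomial.eval u (Q j) = MvPolynomial.eval (fun i => u i₀ / M i₀ * M i) (Q j) := by
      refine hQs j _ _ fun i hi => ?_
      have h4 : i = i₀ := by
        by_contra hne
        exact hs i₀ i (fun h => hne h.symm) hi₀ hi
      rw [h4, div_mul_cancel₀ _ (hM0 i₀ hi₀)]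
    rw [h3, eval_smul_of_hom (hQh j), hzero j, mul_zero]
  refine ⟨r, C, hr, fun x hx hd w hw j => ?_⟩
  have h3 := hQ x hx (pd_lt (ne0 hG hx) hv hd) j w hw
  rwa [hQ0, sub_zero] at h3

end LSmo

open LSmo in
theorem ends_smooth (hG : G.Ok) : ∃ Y : Finset (EN N), G.Ends Y ∧ G.Smooth Y := by
  classical
  obtain ⟨n, Φ, hΦ, hall⟩ := hG.lines
  choose v hvX hvK hv hvs using fun k => line_smooth hG (hΦ k)
  have hr : ∀ P : MN N, ∃ y : EN N, (∃ k, pr (v k) = P) → (∃ k, y = v k) ∧ pr y = P := by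
    intro P
    by_cases h : ∃ k, pr (v k) = P
    · obtain ⟨k, hk⟩ := h
      exact ⟨v k, fun _ => ⟨⟨k, rfl⟩, hk⟩⟩
    · exact ⟨0, fun h' => absurd h' h⟩
  choose f hf using hr
  refine ⟨Finset.univ.image fun k => f (pr (v k)), ⟨?_, ?_, ?_⟩, ?_⟩
  · intro y hy
    obtain ⟨k, -, rfl⟩ := Finset.mem_image.1 hy
    obtain ⟨⟨j, hj⟩, -⟩ := hf (pr (v k)) ⟨k, rfl⟩
    rw [hj]
    exact ⟨hvX j, hvK j⟩
  · intro y hy y' hy' h
    obtain ⟨k, -, rfl⟩ := Finset.mem_image.1 hy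
    obtain ⟨k', -, rfl⟩ := Finset.mem_image.1 hy'
    rw [(hf (pr (v k)) ⟨k, rfl⟩).2, (hf (pr (v k')) ⟨k', rfl⟩).2] at h
    rw [h]
  · intro ε hε
    have h1 : ∀ k, ∃ B : ℝ, ∀ w, B ≤ Real.log ‖Φ k w‖ → dist (pr (Φ k w)) (pr (v k)) < ε := by
      intro k
      have h2 : ∀ᶠ w in cocompact ℂ, dist (pr (Φ k w)) (pr (v k)) < ε := (Metric.tendsto_nhds.mp (hv k)) ε hε
      obtain ⟨W, hW, hWs⟩ := mem_cocompact.mp h2
      obtain ⟨B, hB⟩ := hW.exists_bound_of_continuousOn (hΦ k).diff.continuous.continuousOn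
      refine ⟨Real.log (max B 1) + 1, fun w hw => ?_⟩
      by_contra hlt
      have hwW : w ∈ W := by
        by_contra hn
        exact hlt (hWs hn)
      have h3 : Real.log ‖Φ k w‖ ≤ Real.log (max B 1) :=
        Real.log_le_log (norm_pos_iff.mpr (ne0 hG ((hΦ k).mem w))) ((hB w hwW).trans (le_max_left _ _))
      linarith
    choose B hB using h1
    obtain ⟨B₀, hB₀⟩ := (Set.finite_range B).bddAbove
    refine ⟨B₀, fun φ hφ z hz => ?_⟩
    obtain ⟨k, hk⟩ := hall φ hφ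
    obtain ⟨w, hw⟩ := hk z
    refine ⟨f (pr (v k)), Finset.mem_image.mpr ⟨k, Finset.mem_univ k, rfl⟩, ?_⟩
    rw [(hf (pr (v k)) ⟨k, rfl⟩).2, hw]
    rw [hw] at hz
    exact hB k w ((hB₀ ⟨k, rfl⟩).trans hz)
  · intro y hy hs
    obtain ⟨k, -, rfl⟩ := Finset.mem_image.1 hy
    obtain ⟨⟨j, hj⟩, -⟩ := hf (pr (v k)) ⟨k, rfl⟩
    rw [hj] at hs ⊢
    exact hvs j hs

end Pool.Agent.SR3

end
end

section

/-!
# SR3 LHlB: the holes near a well, in the neighbourhood of a crossing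

`hl_ex`: a point where the lift is bounded, far from the good points, lies in a hole; its end is a crossing, the curve stays near this crossing in the disc of
radius `(1 - τ) d`, outside the holes.
-/

set_option autoImplicit false

open Topology Filter Metric

noncomputable section

namespace Pool.Agent.SR3

open Pool.Agent.H36.BP (EN fs wd Sub OrdTwo)
open Pool.Agent.H14.PP (IsCone Tan)
open Pool.Agent.SY (Ent)
open Pool.Agent.H62.EF (MN pr)
open Geo (Gd)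

variable {N : ℕ} {G : Geo N} {T : Set (EN N)} {rho : EN N → ℝ} {M' : ℕ} {c₀ C₀ δ : ℝ} {g : (ℂ → EN N) → ℂ → ℝ}

namespace LHlB

theorem lower_fin {α : Type*} (S : Finset α) {f : α → ℝ} (hf : ∀ x ∈ S, 0 < f x) : ∃ r : ℝ, 0 < r ∧ ∀ x ∈ S, r ≤ f x := by
  rcases S.eq_empty_or_nonempty with h | h
  · exact ⟨1, one_pos, fun x hx => by rw [h] at hx; simp at hx⟩
  · obtain ⟨p, hp, hmin⟩ := Finset.exists_min_image S f h
    exact ⟨f p, hf p hp, hmin⟩

theorem sep_fin (Y : Finset (EN N)) : ∃ σ : ℝ, 0 < σ ∧ ∀ y ∈ Y, ∀ y' ∈ Y, dist (pr y) (pr y') < σ → pr y = pr y' := by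
  classical
  obtain ⟨σ, hσ, h⟩ := lower_fin ((Y ×ˢ Y).filter (fun p => pr p.1 ≠ pr p.2)) (f := fun p : EN N × EN N => dist (pr p.1) (pr p.2))
    fun p hp => dist_pos.2 (Finset.mem_filter.1 hp).2
  refine ⟨σ, hσ, fun y hy y' hy' hd => ?_⟩
  by_contra hne
  exact absurd hd (not_lt.2 (h (y, y') (Finset.mem_filter.2 ⟨Finset.mk_mem_product hy hy', hne⟩)))

theorem locEq_mono {y : EN N} {i : G.ι} {l : Fin (G.M + 1)} {r r' : ℝ} (h : G.LocEq r y i l) (hr : r' ≤ r) : G.LocEq r' y i l := by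
  obtain ⟨c, hc, h⟩ := h
  exact ⟨c, hc, fun x hx hd => h x hx (hd.trans_le hr)⟩

/-- the holes near `z` have the end of the hole `a` -/
theorem same_end {Y : Finset (EN N)} (hY : G.Ends Y) {B₃ B₄ ε ε₂ S R R' : ℝ} {F : ℂ → EN N} {z : ℂ} {t : Finset ℂ} {s : ℂ → ℝ} {yy : ℂ → EN N}
    (hH : G.Holes Y B₃ B₄ ε 20 S F z R t s yy) (hS : S ≤ R') {a : ℂ} (ha : a ∈ t)
    (hsep : ∀ y ∈ Y, ∀ y' ∈ Y, dist (pr y) (pr y') < ε + ε₂ → pr y = pr y')
    (hst : ∀ w, ‖w - z‖ ≤ R' → Off t s w → dist (pr (F w)) (pr (yy a)) < ε₂) {b : ℂ} (hb : b ∈ t) (hbz : ‖b - z‖ ≤ R') : yy b = yy a := by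
  obtain ⟨hs0, hsS⟩ := hH.pos b hb
  -- a point on the rim
  obtain ⟨u, hu, hur⟩ : ∃ u : ℂ, ‖u‖ = 1 ∧ ‖b + s b * u - z‖ ≤ R' := by
    by_cases h0 : b = z
    · refine ⟨1, norm_one, ?_⟩
      rw [h0, mul_one, add_sub_cancel_left, Complex.norm_real, Real.norm_of_nonneg (by rw [← h0]; exact hs0.le), ← h0]
      exact hsS.trans hS
    · have h1 : 0 < ‖b - z‖ := norm_pos_iff.2 (sub_ne_zero.2 h0)
      have h1c : ((‖b - z‖ : ℝ) : ℂ) ≠ 0 := by exact_mod_cast h1.ne'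
      refine ⟨-((b - z) / (‖b - z‖ : ℝ)), ?_, ?_⟩
      · rw [norm_neg, norm_div, Complex.norm_real, norm_norm, div_self h1.ne']
      · have h2 : b + s b * -((b - z) / (‖b - z‖ : ℝ)) - z = ((1 - s b / ‖b - z‖ : ℝ) : ℂ) * (b - z) := by
          push_cast
          field_simp
          ring
        rw [h2, norm_mul, Complex.norm_real, Real.norm_eq_abs]
        have h3 : |1 - s b / ‖b - z‖| * ‖b - z‖ = |‖b - z‖ - s b| := by
          rw [← abs_of_pos h1, ← abs_mul, abs_of_pos h1]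
          congr 1
          field_simp
        rw [h3, abs_le]
        constructor
        · linarith only [hS, hsS, h1]
        · linarith only [hbz, hs0]
  have hoff : Off t s (b + s b * u) := by
    intro c hc
    have h4 : ‖b + s b * u - b‖ = s b := by
      rw [add_sub_cancel_left, norm_mul, hu, mul_one, Complex.norm_real, Real.norm_of_nonneg hs0.le]
    by_cases h : c = b
    · rw [h, h4]
    · have h5 := hH.sep b hb c hc (Ne.symm h)
      have h6 : ‖b - c‖ ≤ ‖b + s b * u - c‖ + ‖b + s b * u - b‖ := by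
        rw [show b - c = (b + s b * u - c) - (b + s b * u - b) by ring]
        exact norm_sub_le _ _
      rw [h4] at h6
      have h7 := le_max_left (s b) (s c)
      have h8 := le_max_right (s b) (s c)
      linarith only [hs0, h5, h6, h7, h8]
  have h1 := hst _ hur hoff
  have h2 := ((hH.rim b hb).ann u (by rw [hu]; norm_num) (by rw [hu]; norm_num)).2
  refine hY.inj _ (hH.rim b hb).mem _ (hH.rim a ha).mem (hsep _ (hH.rim b hb).mem _ (hH.rim a ha).mem ?_)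
  calc dist (pr (yy b)) (pr (yy a)) ≤ dist (pr (F (b + s b * u))) (pr (yy b)) + dist (pr (F (b + s b * u))) (pr (yy a)) := dist_triangle_left _ _ _
    _ < ε + ε₂ := add_lt_add h2 h1

end LHlB

open LHlB

end Pool.Agent.SR3

end
end
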