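import Pool.Agent.H43.TL2.M134
import Pool.Agent.H43.TL2.M151
import Pool.Agent.H43.TL2.M32

/-! The parts of this file: SDA.Q3b, SR3.EAff, SR3.ELim, SR3.ELow, SR3.G.Neg, SR3.G.Rig. -/

section

/-!
# SDA Q3b: sums of roots of absolute values of polynomials are constant or tame
-/

set_option autoImplicit false

open Topology Filter Metric

noncomputable section

namespace Pool.Agent.SDA

private theorem ne_zero_ev : ∀ᶠ z : ℂ in cocompact ℂ, z ≠ 0 := by
  have h := (tendsto_norm_cocompact_atTop (E := ℂ)).eventually (eventually_gt_atTop 0)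
  filter_upwards [h] with z hz
  exact norm_pos_iff.1 hz

private theorem tendsto_lead (p : Polynomial ℂ) :
    Tendsto (fun z : ℂ => ‖p.eval z‖ / ‖z‖ ^ p.natDegree) (cocompact ℂ) (𝓝 ‖p.leadingCoeff‖) := by
  have h1 : Tendsto (fun z : ℂ => z⁻¹) (cocompact ℂ) (𝓝 0) := by
    rw [← Metric.cobounded_eq_cocompact]
    exact tendsto_inv₀_cobounded
  have h2 : Tendsto (fun z : ℂ => ‖(p.reverse).eval z⁻¹‖) (cocompact ℂ) (𝓝 ‖(p.reverse).eval 0‖) :=
    ((p.reverse.continuous.tendsto 0).comp h1).norm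
  rw [← Polynomial.coeff_zero_eq_eval_zero, Polynomial.coeff_zero_reverse] at h2
  refine h2.congr' ?_
  filter_upwards [ne_zero_ev] with z hz
  have hpos : (0 : ℝ) < ‖z‖ ^ p.natDegree := pow_pos (norm_pos_iff.2 hz) _
  rw [eq_div_iff hpos.ne', ← norm_pow, ← norm_mul]
  congr 1
  have := invertibleOfNonzero hz
  have h3 := Polynomial.eval₂_reverse_mul_pow (RingHom.id ℂ) z p
  rw [invOf_eq_inv] at h3
  simpa [Polynomial.eval₂_eq_eval_map] using h3

/-- one summand, divided by a power of `|z|` -/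
private theorem tendsto_term (p : Polynomial ℂ) {m : ℕ} {κ : ℝ} (hκ : (p.natDegree : ℝ) * (m : ℝ)⁻¹ ≤ κ) :
    ∃ L : ℝ, 0 ≤ L ∧ ((p.natDegree : ℝ) * (m : ℝ)⁻¹ = κ → p ≠ 0 → 0 < L) ∧
      Tendsto (fun z : ℂ => ‖p.eval z‖ ^ ((m : ℝ)⁻¹) / ‖z‖ ^ κ) (cocompact ℂ) (𝓝 L) := by
  have h1 : Tendsto (fun z : ℂ => (‖p.eval z‖ / ‖z‖ ^ p.natDegree) ^ ((m : ℝ)⁻¹)) (cocompact ℂ) (𝓝 (‖p.leadingCoeff‖ ^ ((m : ℝ)⁻¹))) :=
    (tendsto_lead p).rpow_const (Or.inr (by positivity))
  have e : ∀ᶠ z : ℂ in cocompact ℂ, (‖p.eval z‖ / ‖z‖ ^ p.natDegree) ^ ((m : ℝ)⁻¹) * ‖z‖ ^ ((p.natDegree : ℝ) * (m : ℝ)⁻¹ - κ) =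
      ‖p.eval z‖ ^ ((m : ℝ)⁻¹) / ‖z‖ ^ κ := by
    filter_upwards [ne_zero_ev] with z hz
    have hz' : (0 : ℝ) < ‖z‖ := norm_pos_iff.2 hz
    rw [Real.div_rpow (norm_nonneg _) (by positivity), ← Real.rpow_natCast, ← Real.rpow_mul hz'.le, Real.rpow_sub hz']
    have h2 : (0 : ℝ) < ‖z‖ ^ ((p.natDegree : ℝ) * (m : ℝ)⁻¹) := Real.rpow_pos_of_pos hz' _
    field_simp
  rcases hκ.eq_or_lt with h | h
  · refine ⟨‖p.leadingCoeff‖ ^ ((m : ℝ)⁻¹), by positivity, fun _ hp => ?_, ?_⟩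
    · exact Real.rpow_pos_of_pos (norm_pos_iff.2 (Polynomial.leadingCoeff_ne_zero.2 hp)) _
    · refine h1.congr' ?_
      filter_upwards [e] with z hz
      rw [← hz, h, sub_self, Real.rpow_zero, mul_one]
  · refine ⟨0, le_rfl, fun h' => absurd h' h.ne, ?_⟩
    have h2 : Tendsto (fun z : ℂ => ‖z‖ ^ ((p.natDegree : ℝ) * (m : ℝ)⁻¹ - κ)) (cocompact ℂ) (𝓝 0) := by
      have h3 := (tendsto_rpow_neg_atTop (y := κ - (p.natDegree : ℝ) * (m : ℝ)⁻¹) (by linarith)).comp
        (tendsto_norm_cocompact_atTop (E := ℂ))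
      refine h3.congr fun z => ?_
      simp only [Function.comp_apply, neg_sub]
    have h4 := h1.mul h2
    rw [mul_zero] at h4
    exact h4.congr' e

private theorem eval_le (p : Polynomial ℂ) {K : ℕ} (hK : p.natDegree ≤ K) (z : ℂ) :
    ‖p.eval z‖ ≤ (∑ i ∈ Finset.range (p.natDegree + 1), ‖p.coeff i‖) * (1 + ‖z‖) ^ K := by
  rw [Polynomial.eval_eq_sum_range, Finset.sum_mul]
  refine (norm_sum_le _ _).trans (Finset.sum_le_sum fun i hi => ?_)
  rw [norm_mul, norm_pow]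
  refine mul_le_mul_of_nonneg_left ?_ (norm_nonneg _)
  have h1 : ‖z‖ ^ i ≤ (1 + ‖z‖) ^ i := pow_le_pow_left₀ (norm_nonneg _) (by linarith) _
  have h2 : (1 + ‖z‖) ^ i ≤ (1 + ‖z‖) ^ K :=
    pow_le_pow_right₀ (by linarith [norm_nonneg z]) ((Nat.lt_succ_iff.1 (Finset.mem_range.1 hi)).trans hK)
  exact h1.trans h2

private theorem rpow_inv_le {x : ℝ} (hx : 0 ≤ x) {m : ℕ} (hm : 1 ≤ m) : x ^ ((m : ℝ)⁻¹) ≤ 1 + x := by
  have hm' : (1 : ℝ) ≤ m := by exact_mod_cast hm
  have h1 : (m : ℝ)⁻¹ ≤ 1 := inv_le_one_of_one_le₀ hm'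
  have h0 : 0 ≤ (m : ℝ)⁻¹ := by positivity
  rcases le_total x 1 with h | h
  · have := Real.rpow_le_one hx h h0
    linarith
  · have := Real.rpow_le_rpow_of_exponent_le h h1
    rw [Real.rpow_one] at this
    linarith

/-- the ratio -/
private theorem tame_of_asymp {μ : ℂ → ℝ} {κ c₀ : ℝ} (hκ : 0 < κ) (hc : 0 < c₀)
    (h : Tendsto (fun z : ℂ => μ z / ‖z‖ ^ κ) (cocompact ℂ) (𝓝 c₀)) : Tendsto μ (cocompact ℂ) atTop ∧
      ∀ R ε : ℝ, 0 < ε → ∀ᶠ z in cocompact ℂ, ∀ w : ℂ, ‖w‖ ≤ R → |μ (z + w / (μ z : ℂ)) / μ z - 1| ≤ ε := by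
  have hn := tendsto_norm_cocompact_atTop (E := ℂ)
  have hz : Tendsto (fun z : ℂ => ‖z‖ ^ κ) (cocompact ℂ) atTop := (tendsto_rpow_atTop hκ).comp hn
  have hμ : Tendsto μ (cocompact ℂ) atTop := by
    refine (hz.atTop_mul_pos hc h).congr' ?_
    filter_upwards [ne_zero_ev] with z hz
    have : (0 : ℝ) < ‖z‖ ^ κ := Real.rpow_pos_of_pos (norm_pos_iff.2 hz) _
    field_simp
  refine ⟨hμ, fun R ε hε => ?_⟩
  set l : Filter (ℂ × ℂ) := cocompact ℂ ×ˢ 𝓟 (closedBall (0 : ℂ) R) with hl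
  have f1 : Tendsto (fun x : ℂ × ℂ => x.1) l (cocompact ℂ) := tendsto_fst
  have h1 : Tendsto (fun x : ℂ × ℂ => μ x.1) l atTop := hμ.comp f1
  have h2 : Tendsto (fun x : ℂ × ℂ => ‖x.1‖) l atTop := hn.comp f1
  have b2 : ∀ᶠ x : ℂ × ℂ in l, ‖x.2‖ ≤ R := by
    rw [hl, eventually_prod_principal_iff]
    exact Eventually.of_forall fun z w hw => by simpa using hw
  have h3 : Tendsto (fun x : ℂ × ℂ => ‖x.1 + x.2 / (μ x.1 : ℂ)‖ / ‖x.1‖) l (𝓝 1) := by
    rw [tendsto_iff_norm_sub_tendsto_zero]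
    have h5 : Tendsto (fun x : ℂ × ℂ => R / μ x.1 / ‖x.1‖) l (𝓝 0) := ((tendsto_const_nhds (x := R)).div_atTop h1).div_atTop h2
    refine squeeze_zero' (Eventually.of_forall fun x => norm_nonneg _) ?_ h5
    filter_upwards [b2, h1.eventually (eventually_gt_atTop 0), h2.eventually (eventually_gt_atTop 0)] with x hx hm hx1
    rw [Real.norm_eq_abs, div_sub_one hx1.ne', abs_div, abs_of_pos hx1]
    gcongr
    refine (abs_norm_sub_norm_le _ _).trans ?_
    rw [add_sub_cancel_left, norm_div, Complex.norm_real, Real.norm_eq_abs, abs_of_pos hm]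
    gcongr
  have h4 : Tendsto (fun x : ℂ × ℂ => x.1 + x.2 / (μ x.1 : ℂ)) l (cocompact ℂ) := by
    rw [← Metric.cobounded_eq_cocompact, ← comap_norm_atTop, tendsto_comap_iff]
    refine (h2.atTop_mul_pos one_pos h3).congr' ?_
    filter_upwards [h2.eventually (eventually_gt_atTop 0)] with x hx
    simp only [Function.comp_apply]
    field_simp
  have h5 : Tendsto (fun x : ℂ × ℂ => (μ (x.1 + x.2 / (μ x.1 : ℂ)) / ‖x.1 + x.2 / (μ x.1 : ℂ)‖ ^ κ) / (μ x.1 / ‖x.1‖ ^ κ) *
      (‖x.1 + x.2 / (μ x.1 : ℂ)‖ / ‖x.1‖) ^ κ) l (𝓝 (c₀ / c₀ * 1 ^ κ)) :=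
    ((h.comp h4).div (h.comp f1) hc.ne').mul (h3.rpow_const (Or.inr hκ.le))
  rw [div_self hc.ne', Real.one_rpow, mul_one] at h5
  have h6 := h5.eventually (Metric.closedBall_mem_nhds (1 : ℝ) hε)
  have h7 : ∀ᶠ x : ℂ × ℂ in l, |μ (x.1 + x.2 / (μ x.1 : ℂ)) / μ x.1 - 1| ≤ ε := by
    filter_upwards [h6, h1.eventually (eventually_gt_atTop 0), f1.eventually ne_zero_ev, h4.eventually ne_zero_ev] with x hx hm hx1 hx2
    rw [Real.dist_eq] at hx
    have p1 : (0 : ℝ) < ‖x.1‖ := norm_pos_iff.2 hx1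
    have p2 : (0 : ℝ) < ‖x.1 + x.2 / (μ x.1 : ℂ)‖ := norm_pos_iff.2 hx2
    rw [Real.div_rpow p2.le p1.le] at hx
    have q1 : (0 : ℝ) < ‖x.1‖ ^ κ := Real.rpow_pos_of_pos p1 _
    have q2 : (0 : ℝ) < ‖x.1 + x.2 / (μ x.1 : ℂ)‖ ^ κ := Real.rpow_pos_of_pos p2 _
    have e : (μ (x.1 + x.2 / (μ x.1 : ℂ)) / ‖x.1 + x.2 / (μ x.1 : ℂ)‖ ^ κ) / (μ x.1 / ‖x.1‖ ^ κ) *
        (‖x.1 + x.2 / (μ x.1 : ℂ)‖ ^ κ / ‖x.1‖ ^ κ) = μ (x.1 + x.2 / (μ x.1 : ℂ)) / μ x.1 := by
      generalize μ (x.1 + x.2 / (μ x.1 : ℂ)) = A at *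
      generalize ‖x.1 + x.2 / (μ x.1 : ℂ)‖ ^ κ = B at *
      generalize ‖x.1‖ ^ κ = D at *
      field_simp
    rwa [e] at hx
  rw [hl, eventually_prod_principal_iff] at h7
  filter_upwards [h7] with z hz w hw
  exact hz w (by simpa using hw)

variable {J : Type} [Fintype J] {m : J → ℕ}

/-- MODULE Q3 (2) -/
theorem tame_poly (p : J → Polynomial ℂ) (hm : ∀ j, 1 ≤ m j) {b : ℝ} (hb : 0 ≤ b) :
    (∃ c : ℝ, ∀ z : ℂ, b + ∑ j, ‖(p j).eval z‖ ^ ((m j : ℝ)⁻¹) = c) ∨ Tame fun z => b + ∑ j, ‖(p j).eval z‖ ^ ((m j : ℝ)⁻¹) := by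
  by_cases h0 : ∀ j, (p j).natDegree = 0
  · refine Or.inl ⟨b + ∑ j, ‖(p j).coeff 0‖ ^ ((m j : ℝ)⁻¹), fun z => ?_⟩
    congr 1
    refine Finset.sum_congr rfl fun j _ => ?_
    rw [Polynomial.eq_C_of_natDegree_eq_zero (h0 j)]
    simp
  · right
    push Not at h0
    obtain ⟨j₀, hj₀⟩ := h0
    obtain ⟨j₁, -, hj₁⟩ := Finset.exists_max_image Finset.univ (fun j => ((p j).natDegree : ℝ) * (m j : ℝ)⁻¹) ⟨j₀, Finset.mem_univ _⟩
    set κ : ℝ := ((p j₁).natDegree : ℝ) * (m j₁ : ℝ)⁻¹ with hκd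
    have mpos : ∀ j, (0 : ℝ) < m j := fun j => by exact_mod_cast (hm j)
    have hκ : 0 < κ := by
      refine lt_of_lt_of_le ?_ (hj₁ j₀ (Finset.mem_univ _))
      have h1 : (0 : ℝ) < (p j₀).natDegree := by exact_mod_cast Nat.pos_of_ne_zero hj₀
      have := mpos j₀
      positivity
    choose L hL0 hLp hLt using fun j => tendsto_term (p j) (m := m j) (hj₁ j (Finset.mem_univ _))
    have hp1 : p j₁ ≠ 0 := by
      intro h
      rw [hκd, h, Polynomial.natDegree_zero] at hκ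
      simp at hκ
    have hc : 0 < ∑ j, L j :=
      Finset.sum_pos' (fun j _ => hL0 j) ⟨j₁, Finset.mem_univ _, hLp j₁ rfl hp1⟩
    have hz : Tendsto (fun z : ℂ => ‖z‖ ^ κ) (cocompact ℂ) atTop := (tendsto_rpow_atTop hκ).comp (tendsto_norm_cocompact_atTop (E := ℂ))
    have ht : Tendsto (fun z : ℂ => (b + ∑ j, ‖(p j).eval z‖ ^ ((m j : ℝ)⁻¹)) / ‖z‖ ^ κ) (cocompact ℂ) (𝓝 (∑ j, L j)) := by
      have h1 : Tendsto (fun z : ℂ => b / ‖z‖ ^ κ) (cocompact ℂ) (𝓝 0) := tendsto_const_nhds.div_atTop hz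
      have h2 := h1.add (tendsto_finsetSum Finset.univ fun j _ => hLt j)
      rw [zero_add] at h2
      refine h2.congr fun z => ?_
      rw [add_div, Finset.sum_div]
    obtain ⟨t1, t3⟩ := tame_of_asymp hκ hc ht
    refine ⟨t1, ⟨b + ∑ j, (1 + ∑ i ∈ Finset.range ((p j).natDegree + 1), ‖(p j).coeff i‖), ∑ j, (p j).natDegree, fun z => ?_⟩, t3⟩
    have hz1 : 1 ≤ (1 + ‖z‖) ^ (∑ j, (p j).natDegree) := one_le_pow₀ (by linarith [norm_nonneg z])
    rw [add_mul, Finset.sum_mul]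
    refine add_le_add (le_mul_of_one_le_right hb hz1) (Finset.sum_le_sum fun j _ => ?_)
    have h1 := rpow_inv_le (norm_nonneg ((p j).eval z)) (hm j)
    have h2 := eval_le (p j) (K := ∑ j, (p j).natDegree) (Finset.single_le_sum (f := fun j => (p j).natDegree) (fun _ _ => Nat.zero_le _) (Finset.mem_univ j)) z
    rw [add_mul, one_mul]
    exact h1.trans (add_le_add hz1 h2)

end Pool.Agent.SDA

end
end

section

/-!
# SR3 EAff: affine functions, and comparison of two functions `vee` with the same center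
-/

set_option autoImplicit false

open Topology Filter Metric Complex InnerProductSpace Laplacian

noncomputable section

namespace Pool.Agent.SR3.BE

/-- the height of `a + w` -/
theorem ht_base_add (u a w : ℂ) : ht u a (a + w) = (star u * w).re := by
  unfold ht
  rw [add_sub_cancel_left]

/-- MODULE Aff.  Comparison of two functions `vee` with the same center. -/
theorem vee_close {ι : Type} [Fintype ι] {A Bd : ℝ} (hA : 0 < A) : ∃ C : ℝ, 0 < C ∧ ∀ (u u' a : ℂ) (β β' γ γ' : ι → ℝ) (R e : ℝ), ‖u‖ = 1 → ‖u'‖ = 1 →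
    0 < R → 0 ≤ e → (∀ i, 0 ≤ β i ∧ 0 ≤ β' i ∧ 0 ≤ γ i ∧ 0 ≤ γ' i) → (∀ i, β i ≤ Bd ∧ β' i ≤ Bd ∧ γ i ≤ Bd ∧ γ' i ≤ Bd) → A ≤ ∑ i, β i → A ≤ ∑ i, β' i →
    A ≤ ∑ i, γ i → A ≤ ∑ i, γ' i → (∀ z ∈ closedBall a R, ∀ i, |vee u a (β i) (β' i) z - vee u' a (γ i) (γ' i) z| ≤ e) → 0 ≤ (star u * u').re →
    ‖u - u'‖ ≤ C * e / R ∧ ∀ i, |β i - γ i| ≤ C * e / R ∧ |β' i - γ' i| ≤ C * e / R := by
  have hn : (0 : ℝ) ≤ Fintype.card ι := Nat.cast_nonneg _
  refine ⟨1 + (2 + |Bd|) * (Fintype.card ι / A), by positivity, ?_⟩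
  intro u u' a β β' γ γ' R e hu hu' hR he hnn hBd _ _ hγ hγ' hfit hre
  obtain ⟨p, hp⟩ : ∃ p, p = star u * u' := ⟨_, rfl⟩
  have huu : star u * u = 1 := by
    show (starRingEnd ℂ) u * u = 1
    rw [← Complex.normSq_eq_conj_mul_self, Complex.normSq_eq_norm_sq, hu]
    norm_num
  have hpn : ‖p‖ = 1 := by rw [hp, norm_mul, norm_star, hu, hu', one_mul]
  have hps : star u' * u = star p := by rw [hp, star_mul, star_star, mul_comm]
  rw [← hp] at hre
  have hsq : p.re ^ 2 + p.im ^ 2 = 1 := by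
    have h1 := Complex.sq_norm p
    rw [hpn, Complex.normSq_apply] at h1
    linarith only [h1]
  have hc1 : p.re ≤ 1 := by nlinarith only [hsq]
  have hs1 : |p.im| ≤ 1 := by
    rw [abs_le]
    constructor <;> nlinarith only [hsq]
  have hcs : 1 - p.re ≤ |p.im| ^ 2 := by
    rw [sq_abs]
    nlinarith only [hre, hsq]
  -- the point `a + R I u`
  have hsin : A * |p.im| ≤ Fintype.card ι * (e / R) := by
    have hin : a + R * (I * u) ∈ closedBall a R := by
      rw [mem_closedBall, dist_eq_norm, add_sub_cancel_left, norm_mul, norm_mul, Complex.norm_I, hu, Complex.norm_real, Real.norm_of_nonneg hR.le]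
      simp
    have e1 : ht u a (a + R * (I * u)) = 0 := by
      rw [ht_base_add]
      have h2 : star u * (R * (I * u)) = R * I * (star u * u) := by ring
      rw [h2, huu]
      simp
    have e2 : ht u' a (a + R * (I * u)) = R * p.im := by
      rw [ht_base_add]
      have h2 : star u' * (R * (I * u)) = (R : ℂ) * (I * (star u' * u)) := by ring
      rw [h2, hps, Complex.re_ofReal_mul]
      simp
    have h3 := hfit _ hin
    have h4 : ∀ i, vee u a (β i) (β' i) (a + R * (I * u)) = 0 := by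
      intro i
      unfold vee
      rw [e1]
      simp
    rcases le_total 0 p.im with hs | hs
    · have h5 : ∀ i, γ i * |p.im| ≤ e / R := by
        intro i
        have h6 := h3 i
        rw [h4 i, zero_sub, abs_neg] at h6
        unfold vee at h6
        rw [e2, max_eq_left (mul_nonneg hR.le hs), max_eq_right (neg_nonpos.2 (mul_nonneg hR.le hs)), mul_zero, add_zero] at h6
        rw [le_div_iff₀ hR, abs_of_nonneg hs]
        calc γ i * p.im * R = γ i * (R * p.im) := by ring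
          _ ≤ |γ i * (R * p.im)| := le_abs_self _
          _ ≤ e := h6
      calc A * |p.im| ≤ (∑ i, γ i) * |p.im| := mul_le_mul_of_nonneg_right hγ (abs_nonneg _)
        _ = ∑ i, γ i * |p.im| := Finset.sum_mul _ _ _
        _ ≤ ∑ _i : ι, e / R := Finset.sum_le_sum fun i _ => h5 i
        _ = Fintype.card ι * (e / R) := by rw [Finset.sum_const, nsmul_eq_mul, Finset.card_univ]
    · have h5 : ∀ i, γ' i * |p.im| ≤ e / R := by
        intro i
        have h6 := h3 i
        rw [h4 i, zero_sub, abs_neg] at h6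
        unfold vee at h6
        have h7 : R * p.im ≤ 0 := mul_nonpos_of_nonneg_of_nonpos hR.le hs
        rw [e2, max_eq_right h7, max_eq_left (neg_nonneg.2 h7), mul_zero, zero_add] at h6
        rw [le_div_iff₀ hR, abs_of_nonpos hs]
        calc γ' i * -p.im * R = γ' i * -(R * p.im) := by ring
          _ ≤ |γ' i * -(R * p.im)| := le_abs_self _
          _ ≤ e := h6
      calc A * |p.im| ≤ (∑ i, γ' i) * |p.im| := mul_le_mul_of_nonneg_right hγ' (abs_nonneg _)
        _ = ∑ i, γ' i * |p.im| := Finset.sum_mul _ _ _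
        _ ≤ ∑ _i : ι, e / R := Finset.sum_le_sum fun i _ => h5 i
        _ = Fintype.card ι * (e / R) := by rw [Finset.sum_const, nsmul_eq_mul, Finset.card_univ]
  obtain ⟨ε, hε⟩ : ∃ ε, ε = e / R := ⟨_, rfl⟩
  have hε0 : 0 ≤ ε := by
    rw [hε]
    positivity
  obtain ⟨N, hN⟩ : ∃ N : ℝ, N = Fintype.card ι / A := ⟨_, rfl⟩
  have hN0 : 0 ≤ N := by
    rw [hN]
    positivity
  have hs2 : |p.im| ≤ N * ε := by
    rw [hN, hε, div_mul_eq_mul_div, le_div_iff₀ hA]
    linarith only [hsin]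
  have hcl : 1 - p.re ≤ N * ε := by
    refine hcs.trans (le_trans ?_ hs2)
    rw [sq]
    exact mul_le_of_le_one_left (abs_nonneg _) hs1
  have hCe : (1 + (2 + |Bd|) * (Fintype.card ι / A)) * e / R = (1 + (2 + |Bd|) * N) * ε := by
    rw [hε, hN]
    ring
  rw [hCe]
  have hB0 := abs_nonneg Bd
  have hval : ∀ (σ : ℝ), σ = 1 ∨ σ = -1 → a + R * ((σ : ℂ) * u) ∈ closedBall a R ∧ ht u a (a + R * ((σ : ℂ) * u)) = R * σ ∧
      ht u' a (a + R * ((σ : ℂ) * u)) = R * (σ * p.re) := by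
    intro σ hσ
    have hσn : |σ| = 1 := by rcases hσ with h | h <;> rw [h] <;> norm_num
    refine ⟨?_, ?_, ?_⟩
    · rw [mem_closedBall, dist_eq_norm, add_sub_cancel_left, norm_mul, norm_mul, hu, Complex.norm_real, Complex.norm_real, Real.norm_of_nonneg hR.le,
        Real.norm_eq_abs, hσn]
      simp
    · rw [ht_base_add]
      have h2 : star u * (R * ((σ : ℂ) * u)) = (R : ℂ) * ((σ : ℂ) * (star u * u)) := by ring
      rw [h2, huu, Complex.re_ofReal_mul, Complex.re_ofReal_mul, Complex.one_re, mul_one]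
    · rw [ht_base_add]
      have h2 : star u' * (R * ((σ : ℂ) * u)) = (R : ℂ) * ((σ : ℂ) * (star u' * u)) := by ring
      rw [h2, hps, Complex.re_ofReal_mul, Complex.re_ofReal_mul]
      rfl
  refine ⟨?_, fun i => ⟨?_, ?_⟩⟩
  · -- the normals
    have h1 : ‖u - u'‖ ^ 2 ≤ 2 * |p.im| ^ 2 := by
      have h2 : u - u' = u * (1 - p) := by
        rw [hp, mul_sub, mul_one, ← mul_assoc, mul_comm u (star u), huu, one_mul]
      rw [h2, norm_mul, hu, one_mul, Complex.sq_norm, Complex.normSq_apply, Complex.sub_re, Complex.sub_im, Complex.one_re, Complex.one_im]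
      linarith only [hsq, hcs]
    have h3 : ‖u - u'‖ ≤ 2 * |p.im| := by
      refine abs_le_of_sq_le_sq' ?_ (by positivity) |>.2
      linarith only [hc1, hcs, h1]
    calc ‖u - u'‖ ≤ 2 * |p.im| := h3
      _ ≤ 2 * (N * ε) := by linarith only [hs2]
      _ ≤ (1 + (2 + |Bd|) * N) * ε := by
          have : 0 ≤ |Bd| * N * ε := by positivity
          linarith only [hε0, this]
  · obtain ⟨h1, h2, h3⟩ := hval 1 (Or.inl rfl)
    have h4 := hfit _ h1 i
    unfold vee at h4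
    have h5 : 0 ≤ R * (1 * p.re) := by positivity
    have h6 : 0 ≤ R * 1 := by positivity
    rw [h2, h3, max_eq_left h5, max_eq_left h6, max_eq_right (neg_nonpos.2 h5), max_eq_right (neg_nonpos.2 h6), mul_zero, mul_zero, add_zero, add_zero] at h4
    have h7 : |β i - γ i * p.re| ≤ ε := by
      rw [hε, le_div_iff₀ hR]
      have h8 : β i * (R * 1) - γ i * (R * (1 * p.re)) = (β i - γ i * p.re) * R := by ring
      rw [h8, abs_mul, abs_of_pos hR] at h4
      exact h4
    have h8 : β i - γ i = (β i - γ i * p.re) - γ i * (1 - p.re) := by ring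
    have h9 : |γ i * (1 - p.re)| ≤ |Bd| * (N * ε) := by
      rw [abs_mul, abs_of_nonneg (hnn i).2.2.1, abs_of_nonneg (sub_nonneg.2 hc1)]
      exact mul_le_mul ((hBd i).2.2.1.trans (le_abs_self _)) hcl (sub_nonneg.2 hc1) hB0
    rw [h8]
    refine (abs_sub _ _).trans ?_
    have : 0 ≤ N * ε := by positivity
    linarith only [hc1, hcl, h7, h9]
  · obtain ⟨h1, h2, h3⟩ := hval (-1) (Or.inr rfl)
    have h4 := hfit _ h1 i
    unfold vee at h4
    have h5 : R * (-1 * p.re) ≤ 0 := by linarith only [mul_nonneg hR.le hre]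
    have h6 : R * (-1) ≤ 0 := by linarith only [hR]
    rw [h2, h3, max_eq_right h5, max_eq_right h6, max_eq_left (neg_nonneg.2 h5), max_eq_left (neg_nonneg.2 h6), mul_zero, mul_zero, zero_add, zero_add] at h4
    have h7 : |β' i - γ' i * p.re| ≤ ε := by
      rw [hε, le_div_iff₀ hR]
      have h8 : β' i * -(R * -1) - γ' i * -(R * (-1 * p.re)) = (β' i - γ' i * p.re) * R := by ring
      rw [h8, abs_mul, abs_of_pos hR] at h4
      exact h4
    have h8 : β' i - γ' i = (β' i - γ' i * p.re) - γ' i * (1 - p.re) := by ring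
    have h9 : |γ' i * (1 - p.re)| ≤ |Bd| * (N * ε) := by
      rw [abs_mul, abs_of_nonneg (hnn i).2.2.2, abs_of_nonneg (sub_nonneg.2 hc1)]
      exact mul_le_mul ((hBd i).2.2.2.trans (le_abs_self _)) hcl (sub_nonneg.2 hc1) hB0
    rw [h8]
    refine (abs_sub _ _).trans ?_
    have : 0 ≤ N * ε := by positivity
    linarith only [hc1, hcl, h7, h9]

end Pool.Agent.SR3.BE

end
end

section

/-!
# SR3 ELim: the limit of the data at the scales `2^n R'`
-/

set_option autoImplicit false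

open Topology Filter Metric Complex InnerProductSpace Laplacian

noncomputable section

namespace Pool.Agent.SR3.BE

open Pool.Agent.SDR (gc)

variable {X ι : Type} [Fintype ι] {Φ : Fam X ι} {C c R₀ A : ℝ}

private theorem el_flip {x : X} {a : ℂ} {R e : ℝ} {u : ℂ} {β β' : ι → ℝ} (h : Fit Φ x a R e A u β β') : Fit Φ x a R e A (-u) β' β := by
  refine ⟨by rw [norm_neg, h.nu], h.nβ', h.nβ, h.Aβ', h.Aβ, fun z hz i => ?_⟩
  rw [vee_neg]
  exact h.fit z hz i

private theorem el_ht_sub (u u' a z : ℂ) : |ht u a z - ht u' a z| ≤ ‖u - u'‖ * ‖z - a‖ := by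
  have h1 : ht u a z - ht u' a z = (star (u - u') * (z - a)).re := by
    unfold ht
    rw [← Complex.sub_re, star_sub, sub_mul]
  rw [h1]
  refine (Complex.abs_re_le_norm _).trans ?_
  rw [norm_mul, norm_star]

private theorem el_max {s t : ℝ} : |max s 0 - max t 0| ≤ |s - t| := by
  have := abs_max_sub_max_le_max s 0 t 0
  simpa using this

/-- the difference of two functions `vee` -/
private theorem el_vee {u u' a : ℂ} (hu : ‖u‖ = 1) {β β' γ γ' : ℝ} (hγ : 0 ≤ γ) (hγ' : 0 ≤ γ') (z : ℂ) :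
    |vee u a β β' z - vee u' a γ γ' z| ≤ (|β - γ| + |β' - γ'| + (γ + γ') * ‖u - u'‖) * ‖z - a‖ := by
  have h0 := abs_ht_le hu a z
  have hn := norm_nonneg (z - a)
  have h1 : |max (ht u a z) 0| ≤ ‖z - a‖ := by
    rw [abs_of_nonneg (le_max_right _ _)]
    exact max_le ((le_abs_self _).trans h0) hn
  have h2 : |max (-ht u a z) 0| ≤ ‖z - a‖ := by
    rw [abs_of_nonneg (le_max_right _ _)]
    exact max_le ((neg_le_abs _).trans h0) hn
  have h3 : |max (ht u a z) 0 - max (ht u' a z) 0| ≤ ‖u - u'‖ * ‖z - a‖ := el_max.trans (el_ht_sub u u' a z)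
  have h4 : |max (-ht u a z) 0 - max (-ht u' a z) 0| ≤ ‖u - u'‖ * ‖z - a‖ := by
    refine el_max.trans ?_
    have : -ht u a z - -ht u' a z = -(ht u a z - ht u' a z) := by ring
    rw [this, abs_neg]
    exact el_ht_sub u u' a z
  have e : vee u a β β' z - vee u' a γ γ' z = (β - γ) * max (ht u a z) 0 + γ * (max (ht u a z) 0 - max (ht u' a z) 0) +
      ((β' - γ') * max (-ht u a z) 0 + γ' * (max (-ht u a z) 0 - max (-ht u' a z) 0)) := by
    unfold vee
    ring
  rw [e]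
  refine (abs_add_le _ _).trans ?_
  have h5 : |(β - γ) * max (ht u a z) 0 + γ * (max (ht u a z) 0 - max (ht u' a z) 0)| ≤ |β - γ| * ‖z - a‖ + γ * (‖u - u'‖ * ‖z - a‖) := by
    refine (abs_add_le _ _).trans (add_le_add ?_ ?_)
    · rw [abs_mul]
      exact mul_le_mul_of_nonneg_left h1 (abs_nonneg _)
    · rw [abs_mul, abs_of_nonneg hγ]
      exact mul_le_mul_of_nonneg_left h3 hγ
  have h6 : |(β' - γ') * max (-ht u a z) 0 + γ' * (max (-ht u a z) 0 - max (-ht u' a z) 0)| ≤ |β' - γ'| * ‖z - a‖ + γ' * (‖u - u'‖ * ‖z - a‖) := by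
    refine (abs_add_le _ _).trans (add_le_add ?_ ?_)
    · rw [abs_mul]
      exact mul_le_mul_of_nonneg_left h2 (abs_nonneg _)
    · rw [abs_mul, abs_of_nonneg hγ']
      exact mul_le_mul_of_nonneg_left h4 hγ'
  nlinarith [h5, h6]

/-- the rates are bounded -/
private theorem el_rate (hΦ : Hyp Φ C c R₀) {x : X} {a : ℂ} {R e : ℝ} {u : ℂ} {β β' : ι → ℝ} (ha : a ∈ Φ.G x) (hR : 1 ≤ R) {D : ℝ} (he : e ≤ D * R)
    (h : Fit Φ x a R e A u β β') (i : ι) : β i ≤ 2 * C + D := by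
  have hR0 : 0 < R := by linarith
  have hmem : a + R * u ∈ closedBall a R := by
    rw [mem_closedBall, dist_eq_norm, add_sub_cancel_left, norm_mul, h.nu, mul_one, Complex.norm_real, Real.norm_of_nonneg hR0.le]
  have hht : ht u a (a + R * u) = R := by
    rw [ht_add h.nu]
    have : ht u a a = 0 := by unfold ht; simp
    rw [this, zero_add]
  have h1 := h.fit _ hmem i
  have h2 : vee u a (β i) (β' i) (a + R * u) = β i * R := by
    unfold vee
    rw [hht, max_eq_left hR0.le, max_eq_right (by linarith), mul_zero, add_zero]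
  rw [h2] at h1
  have h3 := hΦ.up x i (a + R * u)
  have h4 : Φ.d x (a + R * u) ≤ R := by
    refine (infDist_le_dist_of_mem ha).trans ?_
    exact mem_closedBall.1 hmem
  have h5 : Φ.lam x i (a + R * u) ≤ C * (1 + R) := h3.trans (mul_le_mul_of_nonneg_left (by linarith) (by linarith [hΦ.C_ge]))
  have h6 := (abs_le.1 h1).1
  have h7 : β i * R ≤ (2 * C + D) * R := by nlinarith [hΦ.C_ge]
  exact le_of_mul_le_mul_right h7 hR0

/-- MODULE Lim.  The data at the scales `2^n R'`, after flips, converge (`vee_close`). -/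
theorem limit_fit (hΦ : Hyp Φ C c R₀) (hA : 0 < A) {α C' R' : ℝ} (hα : 0 < α) (hα' : α ≤ 1 / 2) (hC' : 0 < C') (hR' : 1 ≤ R')
    (h : ∀ r, R' ≤ r → ∀ (x : X) (a : ℂ), a ∈ Φ.G x → ∃ u β β', Fit Φ x a r (C' * r ^ (-α) * r) A u β β') :
    ∃ B : ℝ, 0 < B ∧ ∀ (x : X) (a : ℂ), a ∈ Φ.G x → ∃ (u : ℂ) (β β' : ι → ℝ), ‖u‖ = 1 ∧ (∀ i, 0 ≤ β i ∧ 0 ≤ β' i) ∧ A ≤ ∑ i, β i ∧ A ≤ ∑ i, β' i ∧
      ∀ z i, |Φ.lam x i z - vee u a (β i) (β' i) z| ≤ B * (2 + ‖z - a‖) ^ (1 - α) := by
  classical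
  obtain ⟨K, hK, hvc⟩ := vee_close (ι := ι) (Bd := 2 * C + C') hA
  set ρ : ℝ := (2 : ℝ) ^ (-α) with hρ
  have hρ0 : 0 < ρ := Real.rpow_pos_of_pos two_pos _
  have hρ1 : ρ < 1 := Real.rpow_lt_one_of_one_lt_of_neg one_lt_two (by linarith)
  have hR0 : 0 < R' := by linarith
  set P₀ : ℝ := R' ^ (-α) with hP₀
  have hP0 : 0 < P₀ := Real.rpow_pos_of_pos hR0 _
  have hP1 : P₀ ≤ 1 := Real.rpow_le_one_of_one_le_of_nonpos hR' (by linarith)
  set r : ℕ → ℝ := fun n => 2 ^ n * R' with hr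
  have hr1 : ∀ n, R' ≤ r n := fun n => by
    have : (1 : ℝ) ≤ 2 ^ n := one_le_pow₀ one_le_two
    show R' ≤ 2 ^ n * R'
    nlinarith
  have hr0 : ∀ n, 0 < r n := fun n => lt_of_lt_of_le hR0 (hr1 n)
  have hrs : ∀ n, r (n + 1) = 2 * r n := fun n => by
    show 2 ^ (n + 1) * R' = 2 * (2 ^ n * R')
    rw [pow_succ]
    ring
  have hrp : ∀ n, r n ^ (-α) = P₀ * ρ ^ n := by
    intro n
    show (2 ^ n * R') ^ (-α) = P₀ * ρ ^ n
    rw [Real.mul_rpow (by positivity) hR0.le, hP₀, mul_comm, hρ, ← Real.rpow_natCast, ← Real.rpow_mul two_pos.le, ← Real.rpow_natCast,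
      ← Real.rpow_mul two_pos.le, mul_comm (-α)]
  set T := ℂ × (ι → ℝ) × (ι → ℝ) with hT
  set Bk : ℝ := 2 * C + C' with hBk
  have hC1 := hΦ.C_ge
  set K₁ : ℝ := K * (3 * C') * P₀ with hK₁
  have hK₁0 : 0 < K₁ := by positivity
  set K₂ : ℝ := K₁ / (1 - ρ) with hK₂
  have hK₂0 : 0 < K₂ := div_pos hK₁0 (by linarith)
  set M : ℝ := C' + (2 * K₂ + 2 * (Bk + 0) * K₂) / P₀ with hM
  have hM0 : 0 < M := by positivity
  refine ⟨2 * M * R', by positivity, fun x a ha => ?_⟩
  -- the sequence of data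
  set Pr : ℕ → T → Prop := fun n D => Fit Φ x a (r n) (C' * r n ^ (-α) * r n) A D.1 D.2.1 D.2.2 with hPr
  have hstep : ∀ (n : ℕ) (D : T), Pr n D → ∃ D' : T, Pr (n + 1) D' ∧ 0 ≤ (star D.1 * D'.1).re := by
    intro n D _
    obtain ⟨u, β, β', h1⟩ := h (r (n + 1)) (hr1 _) x a ha
    rcases le_total 0 (star D.1 * u).re with h2 | h2
    · exact ⟨(u, β, β'), h1, h2⟩
    · refine ⟨(-u, β', β), el_flip h1, ?_⟩
      show 0 ≤ (star D.1 * -u).re
      rw [mul_neg, Complex.neg_re]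
      linarith
  obtain ⟨u₀, β₀, β₀', h₀⟩ := h (r 0) (hr1 _) x a ha
  choose! g hg1 hg2 using hstep
  set D : ℕ → T := fun n => Nat.rec (u₀, β₀, β₀') (fun n D => g n D) n with hD
  have hDs : ∀ n, D (n + 1) = g n (D n) := fun n => rfl
  have hDP : ∀ n, Pr n (D n) := by
    intro n
    induction n with
    | zero => exact h₀
    | succ n ih =>
      rw [hDs]
      exact hg1 n (D n) ih
  have hrate : ∀ n i, (D n).2.1 i ≤ Bk ∧ (D n).2.2 i ≤ Bk := by
    intro n i
    have he : C' * r n ^ (-α) * r n ≤ C' * r n := by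
      have h1 : r n ^ (-α) ≤ 1 := Real.rpow_le_one_of_one_le_of_nonpos (hR'.trans (hr1 n)) (by linarith)
      exact mul_le_mul_of_nonneg_right (mul_le_of_le_one_right hC'.le h1) (hr0 n).le
    exact ⟨el_rate hΦ ha (hR'.trans (hr1 n)) he (hDP n) i, el_rate hΦ ha (hR'.trans (hr1 n)) he (el_flip (hDP n)) i⟩
  -- consecutive data
  have hcons : ∀ n, ‖(D n).1 - (D (n + 1)).1‖ ≤ K₁ * ρ ^ n ∧ ∀ i, |(D n).2.1 i - (D (n + 1)).2.1 i| ≤ K₁ * ρ ^ n ∧
      |(D n).2.2 i - (D (n + 1)).2.2 i| ≤ K₁ * ρ ^ n := by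
    intro n
    have hn := hDP n
    have hn1 := hDP (n + 1)
    have hpos := hg2 n (D n) hn
    rw [← hDs] at hpos
    have he : ∀ z ∈ closedBall a (r n), ∀ i, |vee (D n).1 a ((D n).2.1 i) ((D n).2.2 i) z -
        vee (D (n + 1)).1 a ((D (n + 1)).2.1 i) ((D (n + 1)).2.2 i) z| ≤ 3 * C' * (P₀ * ρ ^ n) * r n := by
      intro z hz i
      have h1 := hn.fit z hz i
      have h2 := hn1.fit z (closedBall_subset_closedBall (by rw [hrs]; linarith [hr0 n]) hz) i
      rw [hrp] at h1 h2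
      rw [hrs, pow_succ] at h2
      have h3 : C' * (P₀ * (ρ ^ n * ρ)) * (2 * r n) ≤ 2 * (C' * (P₀ * ρ ^ n) * r n) := by
        have h4 : 0 ≤ C' * (P₀ * ρ ^ n) * r n := by have := hr0 n; positivity
        have h5 : C' * (P₀ * (ρ ^ n * ρ)) * (2 * r n) = 2 * (C' * (P₀ * ρ ^ n) * r n) * ρ := by ring
        rw [h5]
        exact mul_le_of_le_one_right (mul_nonneg zero_le_two h4) hρ1.le
      have h6 : vee (D n).1 a ((D n).2.1 i) ((D n).2.2 i) z - vee (D (n + 1)).1 a ((D (n + 1)).2.1 i) ((D (n + 1)).2.2 i) z =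
          (Φ.lam x i z - vee (D (n + 1)).1 a ((D (n + 1)).2.1 i) ((D (n + 1)).2.2 i) z) - (Φ.lam x i z - vee (D n).1 a ((D n).2.1 i) ((D n).2.2 i) z) := by
        ring
      rw [h6]
      refine (abs_sub _ _).trans ?_
      linarith
    have hkey := hvc (D n).1 (D (n + 1)).1 a (D n).2.1 (D n).2.2 (D (n + 1)).2.1 (D (n + 1)).2.2 (r n) (3 * C' * (P₀ * ρ ^ n) * r n) hn.nu hn1.nu
      (hr0 n) (by have := hr0 n; positivity) (fun i => ⟨hn.nβ i, hn.nβ' i, hn1.nβ i, hn1.nβ' i⟩)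
      (fun i => ⟨(hrate n i).1, (hrate n i).2, (hrate (n + 1) i).1, (hrate (n + 1) i).2⟩) hn.Aβ hn.Aβ' hn1.Aβ hn1.Aβ' he hpos
    have e1 : K * (3 * C' * (P₀ * ρ ^ n) * r n) / r n = K₁ * ρ ^ n := by
      have := (hr0 n).ne'
      field_simp
      rw [hK₁]
      ring
    rw [e1] at hkey
    exact hkey
  -- the limits
  have hu1 : ∀ n, dist ((D n).1) ((D (n + 1)).1) ≤ K₁ * ρ ^ n := fun n => by
    rw [dist_eq_norm]
    exact (hcons n).1
  have hb1 : ∀ i n, dist ((D n).2.1 i) ((D (n + 1)).2.1 i) ≤ K₁ * ρ ^ n := fun i n => by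
    rw [Real.dist_eq]
    exact ((hcons n).2 i).1
  have hb2 : ∀ i n, dist ((D n).2.2 i) ((D (n + 1)).2.2 i) ≤ K₁ * ρ ^ n := fun i n => by
    rw [Real.dist_eq]
    exact ((hcons n).2 i).2
  obtain ⟨u, hu⟩ := cauchySeq_tendsto_of_complete (cauchySeq_of_le_geometric ρ K₁ hρ1 hu1)
  have hex1 : ∀ i, ∃ b, Tendsto (fun n => (D n).2.1 i) atTop (𝓝 b) := fun i =>
    cauchySeq_tendsto_of_complete (cauchySeq_of_le_geometric ρ K₁ hρ1 (hb1 i))
  have hex2 : ∀ i, ∃ b, Tendsto (fun n => (D n).2.2 i) atTop (𝓝 b) := fun i =>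
    cauchySeq_tendsto_of_complete (cauchySeq_of_le_geometric ρ K₁ hρ1 (hb2 i))
  choose β hβ using hex1
  choose β' hβ' using hex2
  have hud : ∀ n, ‖(D n).1 - u‖ ≤ K₂ * ρ ^ n := fun n => by
    have := dist_le_of_le_geometric_of_tendsto ρ K₁ hρ1 hu1 hu n
    rw [dist_eq_norm] at this
    refine this.trans (le_of_eq ?_)
    rw [hK₂]
    ring
  have hbd : ∀ n i, |(D n).2.1 i - β i| ≤ K₂ * ρ ^ n := fun n i => by
    have := dist_le_of_le_geometric_of_tendsto ρ K₁ hρ1 (hb1 i) (hβ i) n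
    rw [Real.dist_eq] at this
    refine this.trans (le_of_eq ?_)
    rw [hK₂]
    ring
  have hbd' : ∀ n i, |(D n).2.2 i - β' i| ≤ K₂ * ρ ^ n := fun n i => by
    have := dist_le_of_le_geometric_of_tendsto ρ K₁ hρ1 (hb2 i) (hβ' i) n
    rw [Real.dist_eq] at this
    refine this.trans (le_of_eq ?_)
    rw [hK₂]
    ring
  have hβ0 : ∀ i, 0 ≤ β i := fun i => ge_of_tendsto' (hβ i) fun n => (hDP n).nβ i
  have hβ0' : ∀ i, 0 ≤ β' i := fun i => ge_of_tendsto' (hβ' i) fun n => (hDP n).nβ' i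
  have hβB : ∀ i, β i ≤ Bk := fun i => le_of_tendsto' (hβ i) fun n => (hrate n i).1
  have hβB' : ∀ i, β' i ≤ Bk := fun i => le_of_tendsto' (hβ' i) fun n => (hrate n i).2
  refine ⟨u, β, β', ?_, fun i => ⟨hβ0 i, hβ0' i⟩, ?_, ?_, ?_⟩
  · exact tendsto_nhds_unique hu.norm (by simp only [(hDP _).nu]; exact tendsto_const_nhds)
  · exact ge_of_tendsto' (tendsto_finsetSum _ fun i _ => hβ i) fun n => (hDP n).Aβ
  · exact ge_of_tendsto' (tendsto_finsetSum _ fun i _ => hβ' i) fun n => (hDP n).Aβ'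
  · -- the estimate on the disc of radius `r n`
    have hdisc : ∀ n, ∀ z ∈ closedBall a (r n), ∀ i, |Φ.lam x i z - vee u a (β i) (β' i) z| ≤ M * (r n ^ (-α) * r n) := by
      intro n z hz i
      have h1 := (hDP n).fit z hz i
      have h2 := el_vee (hDP n).nu (a := a) (u' := u) (β := (D n).2.1 i) (β' := (D n).2.2 i) (hβ0 i) (hβ0' i) z
      have h3 : ‖z - a‖ ≤ r n := by
        rw [← dist_eq_norm]
        exact mem_closedBall.1 hz
      have hp : 0 ≤ K₂ * ρ ^ n := by positivity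
      have h4 : |(D n).2.1 i - β i| + |(D n).2.2 i - β' i| + (β i + β' i) * ‖(D n).1 - u‖ ≤ (2 * K₂ + 2 * (Bk + 0) * K₂) * ρ ^ n := by
        have h5 : (β i + β' i) * ‖(D n).1 - u‖ ≤ (Bk + Bk) * (K₂ * ρ ^ n) :=
          mul_le_mul (add_le_add (hβB i) (hβB' i)) (hud n) (norm_nonneg _) (by linarith [hβ0 i, hβB i])
        have h6 := hbd n i
        have h7 := hbd' n i
        have h8 : (2 * K₂ + 2 * (Bk + 0) * K₂) * ρ ^ n = K₂ * ρ ^ n + K₂ * ρ ^ n + (Bk + Bk) * (K₂ * ρ ^ n) := by ring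
        rw [h8]
        exact add_le_add (add_le_add h6 h7) h5
      have h5 : |vee (D n).1 a ((D n).2.1 i) ((D n).2.2 i) z - vee u a (β i) (β' i) z| ≤ ((2 * K₂ + 2 * (Bk + 0) * K₂) * ρ ^ n) * r n := by
        refine h2.trans (mul_le_mul h4 h3 (norm_nonneg _) ?_)
        positivity
      have h6 : Φ.lam x i z - vee u a (β i) (β' i) z = (Φ.lam x i z - vee (D n).1 a ((D n).2.1 i) ((D n).2.2 i) z) +
          (vee (D n).1 a ((D n).2.1 i) ((D n).2.2 i) z - vee u a (β i) (β' i) z) := by ring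
      rw [h6]
      refine (abs_add_le _ _).trans ((add_le_add h1 h5).trans (le_of_eq ?_))
      rw [hM, hrp]
      field_simp
    intro z i
    have hbase : 1 ≤ 2 + ‖z - a‖ := by linarith [norm_nonneg (z - a)]
    -- choose the scale
    obtain ⟨n, hn1, hn2⟩ : ∃ n : ℕ, ‖z - a‖ ≤ r n ∧ r n ≤ 2 * R' * (2 + ‖z - a‖) := by
      obtain ⟨N, hN⟩ := pow_unbounded_of_one_lt (‖z - a‖ / R') one_lt_two
      have hexN : ∃ n, ‖z - a‖ ≤ r n := ⟨N, by
        rw [div_lt_iff₀ hR0] at hN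
        exact hN.le⟩
      refine ⟨Nat.find hexN, Nat.find_spec hexN, ?_⟩
      rcases Nat.eq_zero_or_pos (Nat.find hexN) with h0 | h0
      · rw [h0]
        show 2 ^ 0 * R' ≤ _
        rw [pow_zero, one_mul]
        have e : 2 * R' * (2 + ‖z - a‖) = 4 * R' + 2 * (R' * ‖z - a‖) := by ring
        have e2 : 0 ≤ R' * ‖z - a‖ := mul_nonneg hR0.le (norm_nonneg _)
        rw [e]
        linarith
      · obtain ⟨m, hm⟩ : ∃ m, Nat.find hexN = m + 1 := ⟨Nat.find hexN - 1, by omega⟩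
        have h1 : ¬ ‖z - a‖ ≤ r m := Nat.find_min hexN (by omega)
        rw [hm, hrs]
        have h2 := not_le.1 h1
        have e : 2 * R' * (2 + ‖z - a‖) = 4 * R' + 2 * (R' * ‖z - a‖) := by ring
        have e2 : ‖z - a‖ ≤ R' * ‖z - a‖ := le_mul_of_one_le_left (norm_nonneg _) hR'
        rw [e]
        linarith
    have h1 := hdisc n z (by rw [mem_closedBall, dist_eq_norm]; exact hn1) i
    refine h1.trans ?_
    have h2 : r n ^ (-α) * r n = r n ^ (1 - α) := by
      have := hr0 n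
      rw [show (1 - α) = -α + 1 by ring, Real.rpow_add this, Real.rpow_one]
    have h3 : r n ^ (1 - α) ≤ (2 * R' * (2 + ‖z - a‖)) ^ (1 - α) := Real.rpow_le_rpow (hr0 n).le hn2 (by linarith)
    have h4 : (2 * R' * (2 + ‖z - a‖)) ^ (1 - α) = (2 * R') ^ (1 - α) * (2 + ‖z - a‖) ^ (1 - α) :=
      Real.mul_rpow (by positivity) (by linarith)
    have h5 : (2 * R') ^ (1 - α) ≤ 2 * R' := by
      have h6 : (2 * R') ^ (1 - α) ≤ (2 * R') ^ (1 : ℝ) := Real.rpow_le_rpow_of_exponent_le (by linarith) (by linarith)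
      rwa [Real.rpow_one] at h6
    have h7 : 0 ≤ (2 + ‖z - a‖) ^ (1 - α) := Real.rpow_nonneg (by linarith) _
    rw [h2]
    calc M * r n ^ (1 - α) ≤ M * ((2 * R') * (2 + ‖z - a‖) ^ (1 - α)) := by
          refine mul_le_mul_of_nonneg_left ?_ hM0.le
          rw [h4] at h3
          exact h3.trans (mul_le_mul_of_nonneg_right h5 h7)
      _ = 2 * M * R' * (2 + ‖z - a‖) ^ (1 - α) := by ring

end Pool.Agent.SR3.BE

end
end

section

/-!
# SR3 ELow: block E, the two affine families in the low region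

`side`: at a good point `a'` with a datum `(u', γ, γ')` of scale `D` which is oriented like `u` the affine functions of the upper half of the big disc are
`γ ht u' a'` up to `9 (e + ε)` at the points at distance `≤ D / 2` of `a'`.
-/

set_option autoImplicit false
set_option linter.unusedSectionVars false

open Topology Filter Metric Complex InnerProductSpace Laplacian

noncomputable section

namespace Pool.Agent.SR3.BE

open Pool.Agent.SDR (gc)

variable {X ι : Type} [Fintype ι] {Φ : Fam X ι} {C c R₀ A c₂ C₂ R₂ : ℝ}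

namespace LowAux

/-- an affine function which is small on a disc is small on larger discs -/
theorem aff_le {k : ℂ} {b e r s : ℝ} {q a : ℂ} (hr : 0 < r) (hs : 0 ≤ s) (h : ∀ z ∈ closedBall q r, |(k * (z - a)).re + b| ≤ e) :
    ∀ z ∈ closedBall q s, |(k * (z - a)).re + b| ≤ (1 + 2 * s / r) * e := by
  intro z hz
  have hq := h q (mem_closedBall_self hr.le)
  have he : 0 ≤ e := (abs_nonneg _).trans hq
  have hzn : ‖z - q‖ ≤ s := by
    rw [← dist_eq_norm]
    exact mem_closedBall.1 hz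
  rcases eq_or_ne (z - q) 0 with h0 | h0
  · have hzq : z = q := sub_eq_zero.1 h0
    rw [hzq]
    refine hq.trans ?_
    have : 0 ≤ 2 * s / r := by positivity
    exact le_mul_of_one_le_left he (by linarith)
  · have hn : 0 < ‖z - q‖ := norm_pos_iff.2 h0
    set w : ℂ := q + ((r / ‖z - q‖ : ℝ) : ℂ) * (z - q) with hw
    have hwm : w ∈ closedBall q r := by
      rw [mem_closedBall, dist_eq_norm, hw, add_sub_cancel_left, norm_mul, Complex.norm_real, Real.norm_of_nonneg (by positivity),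
        div_mul_cancel₀ _ hn.ne']
    have h1 := h w hwm
    have h2 : (k * (z - a)).re + b = ((k * (q - a)).re + b) + ‖z - q‖ / r * (((k * (w - a)).re + b) - ((k * (q - a)).re + b)) := by
      have h3 : k * (w - a) = k * (q - a) + ((r / ‖z - q‖ : ℝ) : ℂ) * (k * (z - q)) := by
        rw [hw]
        ring
      have h4 : k * (z - a) = k * (q - a) + k * (z - q) := by ring
      rw [h3, h4, Complex.add_re, Complex.add_re, Complex.re_ofReal_mul]
      field_simp
      ring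
    rw [h2]
    have h5 : |((k * (w - a)).re + b) - ((k * (q - a)).re + b)| ≤ 2 * e := by
      refine (abs_sub _ _).trans ?_
      linarith
    have h6 : ‖z - q‖ / r ≤ s / r := div_le_div_of_nonneg_right hzn hr.le
    calc _ ≤ |(k * (q - a)).re + b| + |‖z - q‖ / r * (((k * (w - a)).re + b) - ((k * (q - a)).re + b))| := abs_add_le _ _
      _ ≤ e + s / r * (2 * e) := by
          rw [abs_mul, abs_of_nonneg (by positivity : 0 ≤ ‖z - q‖ / r)]
          exact add_le_add hq (mul_le_mul h6 h5 (abs_nonneg _) (by positivity))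
      _ = _ := by ring

theorem flip' {x : X} {a : ℂ} {R e : ℝ} {u : ℂ} {β β' : ι → ℝ} (h : Fit Φ x a R e A u β β') : Fit Φ x a R e A (-u) β' β :=
  ⟨by rw [norm_neg]; exact h.nu, h.nβ', h.nβ, h.Aβ', h.Aβ, fun z hz i => by rw [vee_neg]; exact h.fit z hz i⟩

/-- one side -/
theorem side {x : X} {a a' : ℂ} {R δ e ε D : ℝ} {u u' : ℂ} {γ γ' t b : ι → ℝ} {k : ℂ} (hu : ‖u‖ = 1) (hu' : ‖u'‖ = 1) (hcos : 1 / 2 < (star u * u').re)
    (hht : |ht u a a'| ≤ δ * R) (hD : 0 < D) (h8 : 8 * (δ * R) ≤ D) (hsub : closedBall a' D ⊆ closedBall a (2 * R))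
    (hfit : ∀ w ∈ closedBall a' D, ∀ i, |Φ.lam x i w - vee u' a' (γ i) (γ' i) w| ≤ ε) (hT : TopAff Φ x a (2 * R) (δ / 2) e u t k b)
    {z : ℂ} (hz : ‖z - a'‖ ≤ D / 2) (i : ι) : |t i * (k * (z - a)).re + b i - γ i * ht u' a' z| ≤ 9 * (e + ε) := by
  set q : ℂ := a' + ((D / 2 : ℝ) : ℂ) * u with hq
  have hqn : ‖q - a'‖ = D / 2 := by
    rw [hq, add_sub_cancel_left, norm_mul, Complex.norm_real, hu, mul_one, Real.norm_of_nonneg (by positivity)]
  have hrew : ∀ w, t i * (k * (w - a)).re + b i - γ i * ht u' a' w =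
      (((t i : ℂ) * k - (γ i : ℂ) * star u') * (w - a)).re + (b i + γ i * (star u' * (a' - a)).re) := by
    intro w
    unfold ht
    have h1 : ((t i : ℂ) * k - (γ i : ℂ) * star u') * (w - a) = (t i : ℂ) * (k * (w - a)) - (γ i : ℂ) * (star u' * (w - a)) := by ring
    have h2 : star u' * (w - a') = star u' * (w - a) - star u' * (a' - a) := by ring
    rw [h1, h2, Complex.sub_re, Complex.sub_re, Complex.re_ofReal_mul, Complex.re_ofReal_mul]
    ring
  have hsmall : ∀ w ∈ closedBall q (D / 4),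
      |(((t i : ℂ) * k - (γ i : ℂ) * star u') * (w - a)).re + (b i + γ i * (star u' * (a' - a)).re)| ≤ e + ε := by
    intro w hw
    rw [← hrew w]
    have hwq : ‖w - q‖ ≤ D / 4 := by
      rw [← dist_eq_norm]
      exact mem_closedBall.1 hw
    have hwD : w ∈ closedBall a' D := by
      rw [mem_closedBall, dist_eq_norm]
      calc ‖w - a'‖ = ‖(w - q) + (q - a')‖ := by congr 1; ring
        _ ≤ ‖w - q‖ + ‖q - a'‖ := norm_add_le _ _
        _ ≤ D := by rw [hqn]; linarith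
    have hex : ∀ v : ℂ, w - a' = ((D / 2 : ℝ) : ℂ) * u + (w - q) := by
      intro _
      rw [hq]
      ring
    -- the height in the big disc
    have h1 : δ / 2 * (2 * R) ≤ ht u a w := by
      have h2 : ht u a w = ht u a a' + (star u * (w - a')).re := by
        have := ht_sub u a w a'
        linarith
      have h3 : (star u * (w - a')).re = D / 2 + (star u * (w - q)).re := by
        rw [hex 0, mul_add, Complex.add_re]
        have h4 : star u * (((D / 2 : ℝ) : ℂ) * u) = ((D / 2 : ℝ) : ℂ) * (star u * u) := by ring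
        have h5 : star u * u = 1 := by
          show (starRingEnd ℂ) u * u = 1
          rw [← Complex.normSq_eq_conj_mul_self, Complex.normSq_eq_norm_sq, hu]
          norm_num
        rw [h4, h5, mul_one, Complex.ofReal_re]
      have h6 : |(star u * (w - q)).re| ≤ D / 4 := by
        refine (Complex.abs_re_le_norm _).trans ?_
        rw [norm_mul, norm_star, hu, one_mul]
        exact hwq
      have h7 := (abs_le.1 h6).1
      have h8' := (abs_le.1 hht).1
      rw [h2, h3]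
      linarith
    have hA := hT.2.2 w (hsub hwD) h1 i
    -- the height in the small disc
    have h2 : 0 ≤ ht u' a' w := by
      unfold ht
      rw [hex 0, mul_add, Complex.add_re]
      have h4 : star u' * (((D / 2 : ℝ) : ℂ) * u) = ((D / 2 : ℝ) : ℂ) * (star u' * u) := by ring
      rw [h4, Complex.re_ofReal_mul]
      have h5 : (star u' * u).re = (star u * u').re := by
        have h6 : star u' * u = star (star u * u') := by
          rw [star_mul', star_star, mul_comm]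
        rw [h6]
        exact Complex.conj_re _
      have h6 : |(star u' * (w - q)).re| ≤ D / 4 := by
        refine (Complex.abs_re_le_norm _).trans ?_
        rw [norm_mul, norm_star, hu', one_mul]
        exact hwq
      have h7 := (abs_le.1 h6).1
      rw [h5]
      linarith [mul_le_mul_of_nonneg_left hcos.le (by linarith : (0 : ℝ) ≤ D / 2)]
    have hB := hfit w hwD i
    rw [vee_top h2] at hB
    have h9 : t i * (k * (w - a)).re + b i - γ i * ht u' a' w =
        (Φ.lam x i w - γ i * ht u' a' w) - (Φ.lam x i w - (t i * (k * (w - a)).re + b i)) := by ring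
    rw [h9]
    refine (abs_sub _ _).trans ?_
    linarith
  have hzq : z ∈ closedBall q D := by
    rw [mem_closedBall, dist_eq_norm]
    calc ‖z - q‖ = ‖(z - a') - (q - a')‖ := by congr 1; ring
      _ ≤ ‖z - a'‖ + ‖q - a'‖ := norm_sub_le _ _
      _ ≤ D := by rw [hqn]; linarith
  have h10 := aff_le (by positivity) hD.le hsmall z hzq
  rw [hrew z]
  refine h10.trans (le_of_eq ?_)
  have : 1 + 2 * D / (D / 4) = 9 := by
    field_simp
    norm_num
  rw [this]

end LowAux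

open LowAux

/-- MODULE Low. -/
theorem low_region (hΦ : Hyp Φ C c R₀) (hA : 0 < A) (hD : Dep Φ A c₂ C₂ R₂) (hR₂ : R₀ ≤ R₂) :
    ∃ K₃ C₆ δ₀ : ℝ, 1 ≤ K₃ ∧ 0 < C₆ ∧ 0 < δ₀ ∧ δ₀ ≤ 1 / 8 ∧ K₃ * δ₀ ≤ 1 ∧ ∀ δ : ℝ, 0 < δ → δ ≤ δ₀ → ∃ η₁ R₆ : ℝ, 0 < η₁ ∧ 1 ≤ R₆ ∧
      ∀ (x : X) (a : ℂ), a ∈ Φ.G x → ∀ (R e η : ℝ), R₆ ≤ R → 0 ≤ e → 0 ≤ η → η ≤ η₁ →
      (∀ a' ∈ Φ.G x, ∃ u' γ γ', Fit Φ x a' (K₃ * δ * R) (η * (K₃ * δ * R)) A u' γ γ') → ∀ (u : ℂ) (β β' : ι → ℝ),
      Fit Φ x a (16 * R) (η * (16 * R)) A u β β' → ∀ (t t' : ι → ℝ) (k k' : ℂ) (b b' : ι → ℝ), TopAff Φ x a (2 * R) (δ / 2) e u t k b →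
      TopAff Φ x a (2 * R) (δ / 2) e (-u) t' k' b' → ∀ z ∈ closedBall a R,
        ((∀ i, |Φ.lam x i z - (t i * (k * (z - a)).re + b i)| ≤ C₆ * (e + η * δ * R)) ∨
          ∀ i, |Φ.lam x i z - (t' i * (k' * (z - a)).re + b' i)| ≤ C₆ * (e + η * δ * R)) ∧
        (z ∈ Φ.G x → (∀ i, |Φ.lam x i z - (t i * (k * (z - a)).re + b i)| ≤ C₆ * (e + η * δ * R)) ∧
          ∀ i, |Φ.lam x i z - (t' i * (k' * (z - a)).re + b' i)| ≤ C₆ * (e + η * δ * R)) := by
  have hc₂ := hD.c_pos
  have hc₂1 := hD.c_le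
  have hR₂1 := hD.R_ge
  set n : ℝ := (Fintype.card ι : ℝ) with hn
  have hn0 : 0 ≤ n := Nat.cast_nonneg _
  set K₃ : ℝ := 8 / c₂ with hK₃
  have hK8 : 8 ≤ K₃ := by
    rw [hK₃, le_div_iff₀ hc₂]
    linarith
  have hKpos : 0 < K₃ := by linarith
  have hKc : K₃ * c₂ = 8 := by
    rw [hK₃]
    field_simp
  refine ⟨K₃, 10 * K₃, c₂ / 16, by linarith, by positivity, by positivity, by linarith, by linarith, fun δ hδ hδ' => ?_⟩
  have hKδ : K₃ * δ ≤ 1 / 2 := by
    calc K₃ * δ ≤ K₃ * (c₂ / 16) := by gcongr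
      _ = 1 / 2 := by rw [← mul_div_assoc, hKc]; norm_num
  refine ⟨min (c₂ * δ / 16) (A * K₃ * δ / (68 * (n + 1))), max 1 (R₂ / δ), lt_min (by positivity) (by positivity), le_max_left _ _, ?_⟩
  intro x a ha R e η hR he hη hη₁ hdat u β β' hfit t t' k k' b b' hT hT' z hz
  have hR1 : 1 ≤ R := (le_max_left _ _).trans hR
  have hRpos : 0 < R := by linarith
  have hR2 : R₂ ≤ δ * R := by
    have h1 : R₂ / δ ≤ R := (le_max_right _ _).trans hR
    rw [div_le_iff₀ hδ] at h1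
    linarith
  have hη2 : 16 * η ≤ c₂ * δ := by
    have := hη₁.trans (min_le_left _ _)
    linarith
  have hη3 : 68 * (n + 1) * η ≤ A * K₃ * δ := by
    have h1 := hη₁.trans (min_le_right _ _)
    rw [le_div_iff₀ (by positivity)] at h1
    linarith
  set D : ℝ := K₃ * δ * R with hDdef
  have hDpos : 0 < D := by positivity
  have h8 : 8 * (δ * R) ≤ D := by
    rw [hDdef]
    linarith [mul_le_mul_of_nonneg_right hK8 (mul_pos hδ hRpos).le]
  have hDR : D ≤ R / 2 := by
    rw [hDdef]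
    linarith [mul_le_mul_of_nonneg_right hKδ hRpos.le]
  have hδR : 0 < δ * R := by positivity
  have hηR : η * (16 * R) ≤ c₂ * (δ * R) := by linarith [mul_le_mul_of_nonneg_right hη2 hRpos.le]
  have hcδ : c₂ * (δ * R) ≤ δ * R := mul_le_of_le_one_left hδR.le hc₂1
  have hza : ‖z - a‖ ≤ R := by
    rw [← dist_eq_norm]
    exact mem_closedBall.1 hz
  -- good points have a small height
  have hgood : ∀ a' ∈ Φ.G x, a' ∈ closedBall a (16 * R) → |ht u a a'| ≤ δ * R := by
    intro a' ha' hb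
    by_contra hcon
    push Not at hcon
    have h1 := (hD.dep x a (16 * R) (η * (16 * R)) u β β' ha (by linarith) hfit a' hb (hR2.trans hcon.le)
      (hηR.trans (mul_le_mul_of_nonneg_left hcon.le hc₂.le))).1
    rw [d_good ha'] at h1
    linarith [mul_pos hc₂ (hδR.trans hcon)]
  -- the core
  have hcore : ∀ a' ∈ Φ.G x, ‖z - a'‖ ≤ D / 2 → ∃ (u' : ℂ) (γ γ' : ι → ℝ), (∀ i, |Φ.lam x i z - vee u' a' (γ i) (γ' i) z| ≤ η * D) ∧
      (∀ i, |t i * (k * (z - a)).re + b i - γ i * ht u' a' z| ≤ 9 * (e + η * D)) ∧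
      ∀ i, |t' i * (k' * (z - a)).re + b' i - γ' i * (-ht u' a' z)| ≤ 9 * (e + η * D) := by
    intro a' ha' hza'
    have ha'a : ‖a' - a‖ ≤ R + D / 2 := by
      calc ‖a' - a‖ = ‖(z - a) - (z - a')‖ := by congr 1; ring
        _ ≤ ‖z - a‖ + ‖z - a'‖ := norm_sub_le _ _
        _ ≤ _ := by linarith
    have hsub : closedBall a' D ⊆ closedBall a (2 * R) := by
      intro w hw
      rw [mem_closedBall, dist_eq_norm] at hw ⊢
      calc ‖w - a‖ = ‖(w - a') + (a' - a)‖ := by congr 1; ring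
        _ ≤ ‖w - a'‖ + ‖a' - a‖ := norm_add_le _ _
        _ ≤ 2 * R := by linarith
    have ha'b : a' ∈ closedBall a (16 * R) := by
      rw [mem_closedBall, dist_eq_norm]
      linarith
    have hhta := hgood a' ha' ha'b
    obtain ⟨u', γ, γ', hpos, hF⟩ : ∃ (u' : ℂ) (γ γ' : ι → ℝ), 0 ≤ (star u * u').re ∧ Fit Φ x a' D (η * D) A u' γ γ' := by
      obtain ⟨u', γ, γ', hF⟩ := hdat a' ha'
      rcases le_total 0 (star u * u').re with h1 | h1
      · exact ⟨u', γ, γ', h1, hF⟩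
      · refine ⟨-u', γ', γ, ?_, flip' hF⟩
        rw [mul_neg, Complex.neg_re]
        linarith
    have hcos : 1 / 2 < (star u * u').re := by
      -- the sine is small
      set w : ℂ := a' + (D : ℂ) * (Complex.I * u') with hw
      have hwD : w ∈ closedBall a' D := by
        rw [mem_closedBall, dist_eq_norm, hw, add_sub_cancel_left, norm_mul, norm_mul, Complex.norm_I, hF.nu, Complex.norm_real,
          Real.norm_of_nonneg hDpos.le]
        linarith
      have hw16 : w ∈ closedBall a (16 * R) := closedBall_subset_closedBall (by linarith) (hsub hwD)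
      have h1 : ht u' a' w = 0 := by
        unfold ht
        rw [hw, add_sub_cancel_left]
        have h2 : star u' * ((D : ℂ) * (Complex.I * u')) = (D : ℂ) * Complex.I * (star u' * u') := by ring
        have h3 : star u' * u' = 1 := by
          show (starRingEnd ℂ) u' * u' = 1
          rw [← Complex.normSq_eq_conj_mul_self, Complex.normSq_eq_norm_sq, hF.nu]
          norm_num
        rw [h2, h3, mul_one]
        simp
      have h2 := hF.S hwD
      rw [vee_top h1.ge, h1, mul_zero, sub_zero] at h2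
      have h3 := hfit.S hw16
      have h4 : A * |ht u a w| ≤ vee u a (∑ i, β i) (∑ i, β' i) w := by
        rcases le_total 0 (ht u a w) with h5 | h5
        · rw [vee_top h5, abs_of_nonneg h5]
          exact mul_le_mul_of_nonneg_right hfit.Aβ h5
        · rw [vee_low h5, abs_of_nonpos h5]
          exact mul_le_mul_of_nonneg_right hfit.Aβ' (by linarith)
      have h5 : A * |ht u a w| ≤ n * (η * D) + n * (η * (16 * R)) := by
        have h6 := (abs_le.1 h2).2
        have h7 := (abs_le.1 h3).1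
        linarith
      have h6 : ht u a w = ht u a a' - D * (star u * u').im := by
        have h7 := ht_sub u a w a'
        rw [hw, add_sub_cancel_left] at h7
        have h8 : star u * ((D : ℂ) * (Complex.I * u')) = (D : ℂ) * (Complex.I * (star u * u')) := by ring
        rw [h8, Complex.re_ofReal_mul] at h7
        have h9 : (Complex.I * (star u * u')).re = -(star u * u').im := by simp
        rw [h9] at h7
        rw [← hw] at h7
        linarith
      have h7 : D * |(star u * u').im| ≤ |ht u a a'| + |ht u a w| := by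
        have h8 : D * (star u * u').im = ht u a a' - ht u a w := by linarith
        calc D * |(star u * u').im| = |D * (star u * u').im| := by rw [abs_mul, abs_of_pos hDpos]
          _ ≤ _ := by rw [h8]; exact abs_sub _ _
      have h8' : A * |ht u a w| ≤ A * (D / 4) := by
        refine h5.trans ?_
        have h9 : n * (η * D) + n * (η * (16 * R)) ≤ n * η * (17 * R) := by
          have : n * η * D ≤ n * η * R := mul_le_mul_of_nonneg_left (by linarith) (by positivity)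
          linarith
        refine h9.trans ?_
        have h10 : 68 * (n * η) ≤ A * K₃ * δ := by linarith
        have h11 : 68 * (n * η) * R ≤ A * K₃ * δ * R := mul_le_mul_of_nonneg_right h10 hRpos.le
        rw [hDdef]
        linarith
      have h9 : |ht u a w| ≤ D / 4 := le_of_mul_le_mul_left h8' hA
      have h10 : D * |(star u * u').im| ≤ D * (3 / 8) := by linarith
      have h11 : |(star u * u').im| ≤ 3 / 8 := le_of_mul_le_mul_left h10 hDpos
      have h12 : (star u * u').re ^ 2 + (star u * u').im ^ 2 = 1 := by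
        have h13 : Complex.normSq (star u * u') = 1 := by
          rw [Complex.normSq_eq_norm_sq, norm_mul, norm_star, hfit.nu, hF.nu]
          norm_num
        rw [Complex.normSq_apply] at h13
        linarith
      have h13 : (star u * u').im ^ 2 ≤ (3 / 8) ^ 2 := by
        rw [← sq_abs (star u * u').im]
        exact pow_le_pow_left₀ (abs_nonneg _) h11 2
      by_contra hcon
      push Not at hcon
      have h14 := mul_le_mul hcon hcon hpos (by norm_num : (0 : ℝ) ≤ 1 / 2)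
      linarith
    refine ⟨u', γ, γ', fun i => hF.fit z ?_ i, fun i => ?_, fun i => ?_⟩
    · rw [mem_closedBall, dist_eq_norm]
      linarith
    · exact side hfit.nu hF.nu hcos hhta hDpos h8 hsub hF.fit hT hza' i
    · have h1 := side (u := -u) (u' := -u') (γ := γ') (γ' := γ) (by rw [norm_neg]; exact hfit.nu) (by rw [norm_neg]; exact hF.nu)
        (by rw [star_neg, neg_mul_neg]; exact hcos) (by rw [ht_neg, abs_neg]; exact hhta) hDpos h8 hsub (flip' hF).fit hT' hza' i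
      rwa [ht_neg] at h1
  have hfin : ∀ {y L : ℝ}, |y - L| ≤ 10 * (e + η * D) → |y - L| ≤ 10 * K₃ * (e + η * δ * R) := by
    intro y L h1
    refine h1.trans ?_
    rw [hDdef]
    have h2 : e ≤ K₃ * e := le_mul_of_one_le_left he (by linarith)
    linarith
  have hηD : 0 ≤ η * D := by positivity
  have hG : z ∈ Φ.G x → (∀ i, |Φ.lam x i z - (t i * (k * (z - a)).re + b i)| ≤ 10 * K₃ * (e + η * δ * R)) ∧
      ∀ i, |Φ.lam x i z - (t' i * (k' * (z - a)).re + b' i)| ≤ 10 * K₃ * (e + η * δ * R) := by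
    intro hzG
    obtain ⟨u', γ, γ', h1, h2, h3⟩ := hcore z hzG (by rw [sub_self, norm_zero]; positivity)
    have h0 : ht u' z z = 0 := by
      unfold ht
      simp
    constructor
    · intro i
      apply hfin
      have h4 := h1 i
      have h5 := h2 i
      rw [vee_top h0.ge, h0, mul_zero, sub_zero] at h4
      rw [h0, mul_zero, sub_zero] at h5
      refine (abs_sub _ _).trans ?_
      linarith
    · intro i
      apply hfin
      have h4 := h1 i
      have h5 := h3 i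
      rw [vee_top h0.ge, h0, mul_zero, sub_zero] at h4
      rw [h0, neg_zero, mul_zero, sub_zero] at h5
      refine (abs_sub _ _).trans ?_
      linarith
  refine ⟨?_, hG⟩
  rcases le_or_gt (δ * R) |ht u a z| with h1 | h1
  · have hz2 : z ∈ closedBall a (2 * R) := closedBall_subset_closedBall (by linarith) hz
    have he' : ∀ {y L : ℝ}, |y - L| ≤ e → |y - L| ≤ 10 * K₃ * (e + η * δ * R) := by
      intro y L h2
      apply hfin
      linarith
    rcases le_total 0 (ht u a z) with h2 | h2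
    · left
      intro i
      rw [abs_of_nonneg h2] at h1
      exact he' (hT.2.2 z hz2 (by linarith) i)
    · right
      intro i
      rw [abs_of_nonpos h2] at h1
      exact he' (hT'.2.2 z hz2 (by rw [ht_neg]; linarith) i)
  · -- near a good point
    have hd : Φ.d x z ≤ D / 8 := by
      by_contra hcon
      push Not at hcon
      have h2 : δ * R < c₂ * Φ.d x z := by
        have h3 : c₂ * (D / 8) < c₂ * Φ.d x z := mul_lt_mul_of_pos_left hcon hc₂
        have h4 : c₂ * (D / 8) = δ * R := by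
          rw [hDdef]
          linear_combination (δ * R / 8) * hKc
        linarith
      have h3 : c₂ * Φ.d x z ≤ Φ.d x z := by
        have := d_nonneg (Φ := Φ) x z
        exact mul_le_of_le_one_left this hc₂1
      have hz16 : z ∈ closedBall a (16 * R) := closedBall_subset_closedBall (by linarith) hz
      have h4 := hD.het x a (16 * R) (η * (16 * R)) u β β' ha (by linarith) hfit z hz16 (by linarith) (by linarith)
      linarith
    obtain ⟨a', ha', hza'⟩ := good_near hΦ (x := x) (z := z) (r := D / 2) (by linarith)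
    obtain ⟨u', γ, γ', h2, h3, h4⟩ := hcore a' ha' hza'.le
    rcases le_total 0 (ht u' a' z) with h5 | h5
    · left
      intro i
      apply hfin
      have h6 := h2 i
      rw [vee_top h5] at h6
      have h7 := h3 i
      have h8' : Φ.lam x i z - (t i * (k * (z - a)).re + b i) =
          (Φ.lam x i z - γ i * ht u' a' z) - (t i * (k * (z - a)).re + b i - γ i * ht u' a' z) := by ring
      rw [h8']
      refine (abs_sub _ _).trans ?_
      linarith
    · right
      intro i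
      apply hfin
      have h6 := h2 i
      rw [vee_low h5] at h6
      have h7 := h4 i
      have h8' : Φ.lam x i z - (t' i * (k' * (z - a)).re + b' i) =
          (Φ.lam x i z - γ' i * (-ht u' a' z)) - (t' i * (k' * (z - a)).re + b' i - γ' i * (-ht u' a' z)) := by ring
      rw [h8']
      refine (abs_sub _ _).trans ?_
      linarith

end Pool.Agent.SR3.BE

end
end

section

/-!
# SR3 G Neg: the mirror image
-/

set_option autoImplicit false
set_option linter.unusedSectionVars false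

open Topology Filter Metric

noncomputable section

namespace Pool.Agent.SR3.G

variable {V : Type} [NormedAddCommGroup V] [NormedSpace ℂ V] {KK : Set (ℂ → V)} {M γ L r b₀ c₁ C₂ ε₀ : ℝ}

theorem ng_inv (F : ℂ → V) : ng (ng F) = F := by
  funext z
  simp [ng]

theorem ng_image (KK : Set (ℂ → V)) : ng '' (ng '' KK) = KK := by
  rw [Set.image_image]
  simp only [ng_inv, Set.image_id']

theorem ng_mem {F : ℂ → V} (h : F ∈ KK) : ng F ∈ ng '' KK := Set.mem_image_of_mem _ h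

theorem ng_mem' {F : ℂ → V} (h : F ∈ ng '' KK) : ng F ∈ KK := by
  have h1 := ng_mem h
  rwa [ng_image] at h1

theorem tlu_neg {l : Filter ℕ} {F : ℕ → ℂ → V} {F₀ : ℂ → V} (hF : TendstoLocallyUniformlyOn F F₀ l Set.univ) :
    TendstoLocallyUniformlyOn (fun n => ng (F n)) (ng F₀) l Set.univ := by
  have h1 := hF.comp (fun z : ℂ => -z) (Set.mapsTo_univ _ Set.univ) continuous_neg.continuousOn
  exact h1

theorem deriv_ng (F : ℂ → V) (z : ℂ) : deriv (ng F) z = -deriv F (-z) := deriv_comp_neg F z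

theorem Sys.neg (h : Sys KK M γ) : Sys (ng '' KK) M γ := by
  refine ⟨h.γ_pos, h.γ_lt, ?_, ?_, ?_, ?_, ?_, ?_, ?_, ?_⟩
  · obtain ⟨F, hF, h0⟩ := h.nonempty
    exact ⟨ng F, ng_mem hF, by simpa [ng] using h0⟩
  · rintro _ ⟨F, hF, rfl⟩
    exact (h.diff F hF).comp differentiable_neg
  · rintro _ ⟨F, hF, rfl⟩ z
    rw [deriv_ng]
    exact neg_ne_zero.2 (h.imm F hF _)
  · rintro _ ⟨F, hF, rfl⟩ a
    refine ⟨sh (-a) F, h.shift F hF _, ?_⟩
    funext z
    show F (-z + -a) = F (-(z + a))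
    rw [neg_add]
  · intro 𝒰 h𝒰 B F hF hB
    obtain ⟨H, hH, hlim⟩ := h.cpt 𝒰 h𝒰 B (fun k => ng (F k)) (fun k => ng_mem' (hF k)) fun k => by simpa [ng] using hB k
    refine ⟨ng H, ng_mem hH, ?_⟩
    have h1 := tlu_neg hlim
    simp only [ng_inv] at h1
    exact h1
  · intro B
    obtain ⟨C, hC⟩ := h.grow B
    refine ⟨C, ?_⟩
    rintro _ ⟨F, hF, rfl⟩ h0 z
    have h1 := hC F hF (by simpa [ng] using h0) (-z)
    simpa [ng] using h1
  · intro B
    obtain ⟨C, hC⟩ := h.thin B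
    refine ⟨C, ?_⟩
    rintro _ ⟨F, hF, rfl⟩ h0 z hz
    have h1 := hC F hF (by simpa [ng] using h0) (-z) hz
    simpa using h1
  · obtain ⟨l, hl⟩ := h.dense
    refine ⟨l, ?_⟩
    rintro _ ⟨F, hF, rfl⟩ h0 x
    obtain ⟨z, h1, h2⟩ := hl F hF (by simpa [ng] using h0) (-x)
    refine ⟨-z, ?_, by simpa [ng] using h2⟩
    rw [Complex.neg_re, ← abs_neg]
    have h3 : -(-z.re - x) = z.re - -x := by ring
    rw [h3]
    exact h1

theorem IsChain.neg {F : ℂ → V} {z : ℤ → ℂ} (h : IsChain M L F z) : IsChain M L (ng F) fun k => -z (-k) := by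
  refine ⟨by simp [h.zero], fun k => by simpa [ng] using h.good (-k), fun k => ?_, fun k => ?_⟩
  · have h1 := h.re (-(k + 1))
    have h2 : -(k + 1) + 1 = -k := by ring
    rw [h2] at h1
    simp only [Complex.neg_re]
    linarith
  · have h1 := h.norm (-(k + 1))
    have h2 : -(k + 1) + 1 = -k := by ring
    rw [h2] at h1
    have h3 : -z (-(k + 1)) - -z (-k) = z (-k) - z (-(k + 1)) := by ring
    rw [h3]
    exact h1

theorem Cst.neg (hc : Cst KK M L r b₀ c₁ C₂) : Cst (ng '' KK) M L r b₀ c₁ C₂ := by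
  refine ⟨hc.L1, hc.rL, hc.b₀_pos, hc.b₀_le, hc.c₁_pos, hc.c₁_le, hc.C₂_ge, ?_, ?_, ?_⟩
  · rintro _ ⟨F, hF, rfl⟩ h0
    obtain ⟨z, hz⟩ := hc.chain F hF (by simpa [ng] using h0)
    exact ⟨_, hz.neg⟩
  · rintro _ ⟨F, hF, rfl⟩ h0 w b hw hb
    have h1 := hc.lip F hF (by simpa [ng] using h0) (-w) (-b) (by simpa using hw) (by simpa using hb)
    show ‖F (-(w + b)) - F (-w)‖ ≤ _
    rw [neg_add]
    simpa using h1
  · rintro _ ⟨F, hF, rfl⟩ h0 b hb
    obtain ⟨w, hw, h1⟩ := hc.inj F hF (by simpa [ng] using h0) (-b) (by simpa using hb)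
    refine ⟨-w, by simpa using hw, ?_⟩
    show _ ≤ ‖F (-(-w + b)) - F (-(-w))‖
    rw [neg_add, neg_neg]
    simpa using h1

theorem Rigid.neg (hr : Rigid KK M L r γ) : Rigid (ng '' KK) M L r γ := by
  intro 𝒰 h𝒰 F H z s ε N A hF hH hz hs hs0 hε hN hεN hb
  obtain ⟨F₀, hF₀, c, h1, h2⟩ := hr 𝒰 h𝒰 (fun n => ng (F n)) (fun n => ng (H n)) (fun n k => -z n (-k)) s ε N A (fun n => ng_mem' (hF n))
    (fun n => ng_mem' (hH n)) (fun n => (hz n).neg) hs hs0 hε hN hεN fun n k w hw => by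
      have h3 := hb n (-k) (-w) (by simpa using hw)
      simp only [ng, neg_add, neg_neg]
      simpa using h3
  refine ⟨ng F₀, ng_mem hF₀, -c, ?_, ?_⟩
  · have h3 := tlu_neg h1
    simp only [ng_inv] at h3
    exact h3
  · have h3 := tlu_neg h2
    refine h3.congr_right ?_ |>.congr ?_
    · intro z _
      show c • deriv F₀ (-z) = -c • deriv (ng F₀) z
      rw [deriv_ng]
      simp
    · intro n z _
      show ((s n : ℂ)⁻¹) • (H n (- -z) - F n (- -z)) = _
      rw [neg_neg]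

theorem dQ_ng (F H : ℂ → V) : dQ r (ng F) (ng H) = dQ r F H := by
  unfold dQ
  congr 1
  ext x
  simp only [Set.mem_image, mem_closedBall_zero_iff]
  constructor
  · rintro ⟨w, hw, rfl⟩
    exact ⟨-w, by simpa using hw, rfl⟩
  · rintro ⟨w, hw, rfl⟩
    exact ⟨-w, by simpa using hw, by simp [ng]⟩

theorem sh_ng (a : ℂ) (F : ℂ → V) : sh (-a) (ng F) = ng (sh a F) := by
  funext z
  show F (-(z + -a)) = F (-z + a)
  congr 1
  ring

theorem dev_neg (F H : ℂ → V) (a b : ℂ) : dev r (ng F) (ng H) (-a) (-b) = dev r F H a b := by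
  unfold dev
  rw [← neg_add, sh_ng, sh_ng, dQ_ng]

theorem Track.neg {ε : ℝ} {F H : ℂ → V} {z b : ℤ → ℂ} {I : Set ℤ} (h : Track r b₀ ε F H z b I) :
    Track r b₀ ε (ng F) (ng H) (fun k => -z (-k)) (fun k => -b (-k)) (Neg.neg ⁻¹' I) := by
  refine ⟨fun k hk => ?_, fun k hk b' hb' => ?_, fun k hk hk1 => ?_⟩
  · simp only [dev_neg]
    exact h.le _ hk
  · have h1 := h.min (-k) hk (-b') (by
      rw [← norm_neg]
      have h3 : -(-b' - b (-k)) = b' - -b (-k) := by ring
      rw [h3]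
      exact hb')
    have h2 := dev_neg (r := r) F H (z (-k)) (-b')
    rw [neg_neg] at h2
    simp only [dev_neg]
    rw [h2]
    exact h1
  · have h2 : -(k + 1) + 1 = -k := by ring
    have h1 := h.near (-(k + 1)) hk1 (by rw [h2]; exact hk)
    rw [h2] at h1
    have h3 : -b (-(k + 1)) - -b (-k) = b (-k) - b (-(k + 1)) := by ring
    rw [h3]
    exact h1

theorem Expa.neg (he : Expa KK M L r b₀ c₁ ε₀) : Expa (ng '' KK) M L r b₀ c₁ ε₀ := by
  refine ⟨he.pos, he.le, ?_⟩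
  rintro _ ⟨F, hF, rfl⟩ _ ⟨H, hH, rfl⟩ z b hz ht k
  have h1 := hz.neg
  have h2 := ht.neg
  simp only [ng_inv, Set.preimage_univ] at h1 h2
  have h3 := he.exp F hF H hH _ _ h1 h2 (-k)
  simp only [neg_neg] at h3
  have h4 := dev_neg (r := r) F H (-z k) (-b k)
  rw [neg_neg, neg_neg] at h4
  rw [h4]
  exact h3

end Pool.Agent.SR3.G

end
end

section

/-!
# SR3 G Rig: no rescaled limit at a best shift
-/

set_option autoImplicit false

open Topology Filter Metric

noncomputable section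

namespace Pool.Agent.SR3.G

variable {V : Type} [NormedAddCommGroup V] [NormedSpace ℂ V]

theorem Rig.dQ_le {F H : ℂ → V} {r : ℝ} (hr : 0 ≤ r) {δ : ℝ} (h : ∀ w : ℂ, ‖w‖ ≤ r → ‖H w - F w‖ ≤ δ) : dQ r F H ≤ δ := by
  unfold dQ
  apply csSup_le
  · exact ⟨_, 0, mem_closedBall_self hr, rfl⟩
  · rintro _ ⟨w, hw, rfl⟩
    exact h w (by simpa using hw)

/-- `F n + s n • V n → F₀` -/
theorem Rig.lim_add {l : Filter ℕ} {F H : ℕ → ℂ → V} {F₀ V₀ : ℂ → V} {s : ℕ → ℝ} (hs : ∀ n, 0 < s n) (hs0 : Tendsto s l (𝓝 0)) (hV₀ : Continuous V₀)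
    (hF : TendstoLocallyUniformlyOn F F₀ l Set.univ)
    (hV : TendstoLocallyUniformlyOn (fun n z => ((s n : ℂ)⁻¹) • (H n z - F n z)) V₀ l Set.univ) :
    TendstoLocallyUniformlyOn H F₀ l Set.univ := by
  rw [tendstoLocallyUniformlyOn_iff_forall_isCompact isOpen_univ] at hF hV ⊢
  intro K hK1 hK
  obtain ⟨B, hB⟩ := hK.exists_bound_of_continuousOn hV₀.continuousOn
  have hB1 : 0 ≤ max B 0 := le_max_right _ _
  rw [Metric.tendstoUniformlyOn_iff]
  intro ε hε
  have h1 := Metric.tendstoUniformlyOn_iff.1 (hF K hK1 hK) (ε / 2) (by positivity)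
  have h2 := Metric.tendstoUniformlyOn_iff.1 (hV K hK1 hK) 1 one_pos
  have h3 := hs0.eventually (gt_mem_nhds (show (0 : ℝ) < ε / (2 * (max B 0 + 1)) by positivity))
  filter_upwards [h1, h2, h3] with n hn1 hn2 hn3 z hz
  have e1 := hn1 z hz
  have e2 := hn2 z hz
  have e3 := hB z hz
  rw [dist_eq_norm] at e1 e2 ⊢
  have hsn := hs n
  have hsn' : (s n : ℂ) ≠ 0 := by exact_mod_cast hsn.ne'
  have e4 : ‖((s n : ℂ)⁻¹) • (H n z - F n z)‖ ≤ max B 0 + 1 := by
    have h4 : ‖((s n : ℂ)⁻¹) • (H n z - F n z)‖ ≤ ‖V₀ z‖ + ‖V₀ z - ((s n : ℂ)⁻¹) • (H n z - F n z)‖ := by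
      have := norm_sub_le (V₀ z) (V₀ z - ((s n : ℂ)⁻¹) • (H n z - F n z))
      rwa [sub_sub_cancel] at this
    linarith [le_max_left B 0]
  have e5 : ‖H n z - F n z‖ ≤ s n * (max B 0 + 1) := by
    have h5 : H n z - F n z = (s n : ℂ) • (((s n : ℂ)⁻¹) • (H n z - F n z)) := by
      rw [smul_smul, mul_inv_cancel₀ hsn', one_smul]
    rw [h5, norm_smul, Complex.norm_real, Real.norm_of_nonneg hsn.le]
    exact mul_le_mul_of_nonneg_left e4 hsn.le
  have e6 : s n * (max B 0 + 1) < ε / 2 := by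
    have h6 : 0 < max B 0 + 1 := by positivity
    rw [lt_div_iff₀ (by positivity)] at hn3
    linarith
  have e7 : F₀ z - H n z = (F₀ z - F n z) - (H n z - F n z) := by abel
  rw [e7]
  have := norm_sub_le (F₀ z - F n z) (H n z - F n z)
  linarith

/-- **No rescaled limit at a best shift.** -/
theorem rig_false [CompleteSpace V] {KK : Set (ℂ → V)} {M γ L r b₀ c₁ C₂ : ℝ} (h : Sys KK M γ) (hc : Cst KK M L r b₀ c₁ C₂) (hr : Rigid KK M L r γ)
    (𝒰 : Ultrafilter ℕ) (h𝒰 : (𝒰 : Filter ℕ) ≤ atTop)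
    {F H : ℕ → ℂ → V} {z : ℕ → ℤ → ℂ} {s ε N : ℕ → ℝ} {A : ℝ} (hF : ∀ n, F n ∈ KK) (hH : ∀ n, H n ∈ KK) (hz : ∀ n, IsChain M L (F n) (z n))
    (hs : ∀ n, 0 < s n) (hs0 : Tendsto s 𝒰 (𝓝 0)) (hε : ∀ n, 0 ≤ ε n) (hN : ∀ n, 0 ≤ N n) (hεN : Tendsto (fun n => ε n * Real.log (2 + N n)) 𝒰 (𝓝 0))
    (hb : ∀ (n : ℕ) (k : ℤ) (w : ℂ), ‖w‖ ≤ r →
      ‖H n (z n k + w) - F n (z n k + w)‖ ≤ s n * Real.exp (A * pw γ |(k : ℝ)| + ε n * min |(k : ℝ)| (N n)))
    (hmin : ∀ (n : ℕ) (b : ℂ), ‖b‖ ≤ b₀ → s n / 2 ≤ dev r (F n) (H n) 0 b) : False := by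
  obtain ⟨F₀, hF₀, c, hlim, hV⟩ := hr 𝒰 h𝒰 F H z s ε N A hF hH hz hs hs0 hε hN hεN hb
  have hr0 : 0 ≤ r := by linarith [hc.rL, hc.L1]
  have hdF₀ : Differentiable ℂ F₀ := h.diff F₀ hF₀
  have hdc : Continuous (deriv F₀) := by
    have h1 : ContDiff ℂ 2 F₀ := hdF₀.contDiff
    exact h1.continuous_deriv (by norm_num)
  have hHlim : TendstoLocallyUniformlyOn H F₀ 𝒰 Set.univ := Rig.lim_add hs hs0 (hdc.const_smul c) hlim hV
  have hH' : TendstoLocallyUniformlyOn (deriv ∘ H) (deriv F₀) 𝒰 Set.univ :=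
    hHlim.deriv (Eventually.of_forall fun n => (h.diff _ (hH n)).differentiableOn) isOpen_univ
  set δ : ℝ := 1 / (4 * (1 + 2 * ‖c‖)) with hδ
  have hδ0 : 0 < δ := by positivity
  -- uniform continuity of `F₀'`
  have hK : IsCompact (closedBall (0 : ℂ) (r + 1)) := isCompact_closedBall _ _
  have huc := hK.uniformContinuousOn_of_continuous hdc.continuousOn
  obtain ⟨η, hη, hη2⟩ := Metric.uniformContinuousOn_iff.1 huc δ hδ0
  have h1 := Metric.tendstoUniformlyOn_iff.1 ((tendstoLocallyUniformlyOn_iff_forall_isCompact isOpen_univ).1 hH' _ (Set.subset_univ _) hK) δ hδ0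
  have h2 := Metric.tendstoUniformlyOn_iff.1 ((tendstoLocallyUniformlyOn_iff_forall_isCompact isOpen_univ).1 hV _ (Set.subset_univ _) hK) δ hδ0
  have h3 : ∀ᶠ n in (𝒰 : Filter ℕ), ‖c‖ * s n < min (min b₀ η) 1 := by
    have h4 : Tendsto (fun n => ‖c‖ * s n) 𝒰 (𝓝 (‖c‖ * 0)) := hs0.const_mul _
    rw [mul_zero] at h4
    exact h4.eventually (gt_mem_nhds (lt_min (lt_min hc.b₀_pos hη) one_pos))
  obtain ⟨n, hn1, hn2, hn3⟩ := (h1.and (h2.and h3)).exists
  have hsn := hs n
  have hsn' : (s n : ℂ) ≠ 0 := by exact_mod_cast hsn.ne'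
  have hnb : ‖c‖ * s n < b₀ := hn3.trans_le ((min_le_left _ _).trans (min_le_left _ _))
  have hnη : ‖c‖ * s n < η := hn3.trans_le ((min_le_left _ _).trans (min_le_right _ _))
  have hn1' : ‖c‖ * s n < 1 := hn3.trans_le (min_le_right _ _)
  set b : ℂ := -(c * s n) with hbdef
  have hbn : ‖b‖ = ‖c‖ * s n := by
    rw [hbdef, norm_neg, norm_mul, Complex.norm_real, Real.norm_of_nonneg hsn.le]
  have key : ∀ w : ℂ, ‖w‖ ≤ r → ‖H n (w + b) - F n w‖ ≤ s n / 4 := by
    intro w hw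
    have hwK : w ∈ closedBall (0 : ℂ) (r + 1) := by
      rw [mem_closedBall, dist_zero_right]
      linarith
    -- the increment of `H n`
    have e1 : ‖H n (w + b) - H n w - b • deriv F₀ w‖ ≤ 2 * δ * ‖b‖ := by
      have hd : ∀ u ∈ closedBall w ‖b‖, HasDerivWithinAt (fun u => H n u - (u - w) • deriv F₀ w) (deriv (H n) u - deriv F₀ w) (closedBall w ‖b‖) u := by
        intro u _
        have g1 : HasDerivAt (H n) (deriv (H n) u) u := (h.diff _ (hH n) u).hasDerivAt
        have g2 : HasDerivAt (fun u : ℂ => (u - w) • deriv F₀ w) ((1 : ℂ) • deriv F₀ w) u := ((hasDerivAt_id u).sub_const w).smul_const _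
        rw [one_smul] at g2
        exact (g1.sub g2).hasDerivWithinAt
      have hbd : ∀ u ∈ closedBall w ‖b‖, ‖deriv (H n) u - deriv F₀ w‖ ≤ 2 * δ := by
        intro u hu
        rw [mem_closedBall] at hu
        have huK : u ∈ closedBall (0 : ℂ) (r + 1) := by
          rw [mem_closedBall, dist_zero_right]
          rw [dist_eq_norm] at hu
          have := norm_le_norm_add_norm_sub' u w
          linarith
        have g1 := hn1 u huK
        have g2 := hη2 u huK w hwK (by linarith)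
        rw [dist_eq_norm] at g1 g2
        have g3 : deriv (H n) u - deriv F₀ w = (deriv F₀ u - deriv F₀ w) - (deriv F₀ u - (deriv ∘ H) n u) := by
          show _ = (deriv F₀ u - deriv F₀ w) - (deriv F₀ u - deriv (H n) u)
          abel
        rw [g3]
        have := norm_sub_le (deriv F₀ u - deriv F₀ w) (deriv F₀ u - (deriv ∘ H) n u)
        linarith
      have := (convex_closedBall w ‖b‖).norm_image_sub_le_of_norm_hasDerivWithin_le hd hbd (mem_closedBall_self (norm_nonneg b))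
        (show w + b ∈ closedBall w ‖b‖ by rw [mem_closedBall, dist_eq_norm, add_sub_cancel_left])
      rw [sub_self, zero_smul, sub_zero, add_sub_cancel_left] at this
      have e : H n (w + b) - H n w - b • deriv F₀ w = H n (w + b) - b • deriv F₀ w - H n w := by abel
      rw [e]
      exact this
    have e2 : ‖H n w - F n w + b • deriv F₀ w‖ ≤ s n * δ := by
      have g1 := hn2 w hwK
      rw [dist_comm, dist_eq_norm] at g1
      have g2 : H n w - F n w + b • deriv F₀ w = (s n : ℂ) • (((s n : ℂ)⁻¹) • (H n w - F n w) - c • deriv F₀ w) := by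
        rw [smul_sub, smul_smul, mul_inv_cancel₀ hsn', one_smul, smul_smul, hbdef, neg_smul, mul_comm c]
        abel
      rw [g2, norm_smul, Complex.norm_real, Real.norm_of_nonneg hsn.le]
      exact mul_le_mul_of_nonneg_left g1.le hsn.le
    have e3 : H n (w + b) - F n w = (H n (w + b) - H n w - b • deriv F₀ w) + (H n w - F n w + b • deriv F₀ w) := by abel
    rw [e3]
    refine (norm_add_le _ _).trans ((add_le_add e1 e2).trans ?_)
    rw [hbn]
    have e4 : 2 * δ * (‖c‖ * s n) + s n * δ = s n * (δ * (1 + 2 * ‖c‖)) := by ring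
    rw [e4]
    have e5 : δ * (1 + 2 * ‖c‖) = 1 / 4 := by
      rw [hδ]
      field_simp
    rw [e5]
    linarith
  have h5 := hmin n b (by rw [hbn]; exact hnb.le)
  have h6 : dev r (F n) (H n) 0 b ≤ s n / 4 := by
    unfold dev
    apply Rig.dQ_le hr0
    intro w hw
    show ‖H n (w + (0 + b)) - F n (w + 0)‖ ≤ s n / 4
    rw [zero_add, add_zero]
    exact key w hw
  linarith

end Pool.Agent.SR3.G

end
end
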