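import Pool.Agent.H43.TL2.M15
import Pool.Agent.H43.TL2.M156
import Pool.Agent.H43.TL2.M166
import Pool.Agent.H43.TL2.M167
import Pool.Agent.H43.TL2.M168
import Pool.Agent.H43.TL2.M30
import Pool.Agent.H43.TL2.M45
import Pool.Agent.H43.TL2.SR3.ABd
import Pool.Agent.H43.TL2.SR3.ATh

/-! The parts of this file: SR3.G.Ext, SR3.G.PerG, SR3.G.Exit, SR3.G.Exp, SR3.G.Slow, SR3.G.Per, SR3.Per, SR3.Tm1, SR3.Tm2. -/

section

/-!
# SR3 G Ext: following a close pair of curves to the right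
-/

set_option autoImplicit false

open Topology Filter Metric

noncomputable section

namespace Pool.Agent.SR3.G

variable {V : Type} [NormedAddCommGroup V] [NormedSpace ℂ V] [CompleteSpace V] {KK : Set (ℂ → V)} {M γ L r b₀ c₁ C₂ ε₀ : ℝ}

/-- Start with two close curves and follow them to the right: either for ever, or until an exit at an index `T > n`. -/
theorem exists_fwd (h : Sys KK M γ) (hc : Cst KK M L r b₀ c₁ C₂) (he : 0 < ε₀) (he' : ε₀ ≤ c₁ * b₀ / 4) :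
    ∃ ε₃ : ℝ, 0 < ε₃ ∧ ε₃ ≤ ε₀ ∧ ∀ n : ℕ, ∃ δ : ℝ, 0 < δ ∧ ∀ F ∈ KK, ∀ H ∈ KK, ∀ z, IsChain M L F z → dQ r F H ≤ δ → ∃ b : ℕ → ℂ,
      ‖b 0‖ ≤ b₀ ∧ dev r F H 0 (b 0) ≤ ε₃ ∧ (∀ b' : ℂ, ‖b' - b 0‖ ≤ b₀ → dev r F H 0 (b 0) ≤ dev r F H 0 b') ∧
      ((∀ k : ℕ, dev r F H (z k) (b k) ≤ ε₃ ∧ (∀ b' : ℂ, ‖b' - b k‖ ≤ b₀ → dev r F H (z k) (b k) ≤ dev r F H (z k) b') ∧ ‖b (k + 1) - b k‖ ≤ b₀) ∨
      ∃ T : ℕ, n < T ∧ ε₃ < dev r F H (z T) (b T) ∧ ∀ k ≤ T, dev r F H (z k) (b k) ≤ ε₀ ∧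
        (∀ b' : ℂ, ‖b' - b k‖ ≤ b₀ → dev r F H (z k) (b k) ≤ dev r F H (z k) b') ∧ (k < T → ‖b (k + 1) - b k‖ ≤ b₀)) := by
  have hL1 := hc.L1
  have hr : 0 < r := by linarith [hc.rL]
  have hb0 := hc.b₀_pos
  have hc1 := hc.c₁_pos
  have hcb : 0 < c₁ * b₀ / 4 := by positivity
  obtain ⟨ε₁, hε₁, hprop⟩ := exists_prop h hr M (r + L) he
  refine ⟨min ε₁ ε₀, lt_min hε₁ he, min_le_right _ _, fun n => ?_⟩
  obtain ⟨ε₃, hε₃⟩ : ∃ ε₃ : ℝ, ε₃ = min ε₁ ε₀ := ⟨_, rfl⟩
  rw [← hε₃]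
  have hε₃0 : 0 < ε₃ := hε₃ ▸ lt_min hε₁ he
  have hε₃1 : ε₃ ≤ ε₁ := hε₃ ▸ min_le_left _ _
  have hε₃2 : ε₃ ≤ ε₀ := hε₃ ▸ min_le_right _ _
  have hε₃3 : ε₃ ≤ c₁ * b₀ / 4 := hε₃2.trans he'
  obtain ⟨δ, hδ, hpropn⟩ := exists_prop h hr M (r + L * n) hε₃0
  refine ⟨δ, hδ, fun F hF H hH z hz hd => ?_⟩
  have hc1b : c₁ * b₀ / 4 ≤ 1 := by
    have h1 : c₁ * b₀ ≤ 1 * (1 / 8) := mul_le_mul hc.c₁_le hc.b₀_le hb0.le zero_le_one
    linarith
  -- the deviations with the shift `0` are small at the indices `k ≤ n`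
  have hF0 : ‖F 0‖ ≤ M := by
    have h1 := hz.good 0
    rwa [hz.zero] at h1
  have hzn : ∀ k : ℕ, ‖z k‖ ≤ L * k := fun k => by
    have h1 := hz.norm_le k
    rwa [Int.cast_natCast, abs_of_nonneg (Nat.cast_nonneg k)] at h1
  have hsmall : ∀ k : ℕ, k ≤ n → dev r F H (z k) 0 ≤ ε₃ := fun k hk => by
    refine dQ_le hr.le fun w hw => ?_
    have h1 : ‖w + z k‖ ≤ r + L * n := by
      refine (norm_add_le _ _).trans (add_le_add hw ((hzn k).trans ?_))
      exact mul_le_mul_of_nonneg_left (Nat.cast_le.2 hk) (by linarith)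
    have h2 := hpropn F hF H hH hF0 hd (w + z k) h1
    simpa only [sh, add_zero] using h2
  -- one step
  have hstep : ∀ (k : ℕ) (b : ℂ), dev r F H (z k) b ≤ ε₃ → ∃ b' : ℂ, c₁ * ‖b' - b‖ ≤ c₁ * b₀ / 2 ∧ dev r F H (z (k + 1 : ℕ)) b' ≤ ε₀ ∧
      ∀ b'' : ℂ, ‖b'' - b'‖ ≤ b₀ → dev r F H (z (k + 1 : ℕ)) b' ≤ dev r F H (z (k + 1 : ℕ)) b'' := by
    intro k b hb
    have h1 : dev r F H (z (k + 1 : ℕ)) b ≤ ε₀ := by
      refine dQ_le hr.le fun w hw => ?_
      have h2 : ‖w + (z (k + 1 : ℕ) - z k)‖ ≤ r + L := by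
        refine (norm_add_le _ _).trans (add_le_add hw ?_)
        have h3 := hz.norm k
        push_cast
        exact h3
      have h3 := hprop (sh (z k) F) (h.shift F hF _) (sh (z k + b) H) (h.shift H hH _) (by simpa only [sh, zero_add] using hz.good k) (hb.trans hε₃1)
        (w + (z (k + 1 : ℕ) - z k)) h2
      simp only [sh] at h3 ⊢
      have e1 : w + (z (k + 1 : ℕ) - z k) + (z k + b) = w + (z (k + 1 : ℕ) + b) := by ring
      have e2 : w + (z (k + 1 : ℕ) - z k) + z k = w + z (k + 1 : ℕ) := by ring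
      rw [e1, e2] at h3
      exact h3
    obtain ⟨b', hb1, hb2, hb3⟩ := exists_min h hc hF hH (hz.good (k + 1 : ℕ)) (h1.trans he')
    exact ⟨b', by linarith, hb2.trans h1, hb3⟩
  -- the first shift
  have hz0 : z ((0 : ℕ) : ℤ) = 0 := hz.zero
  have hd0 : dev r F H 0 0 ≤ ε₃ := by
    have h1 := hsmall 0 (Nat.zero_le _)
    rwa [hz0] at h1
  obtain ⟨β₀, hβ1, hβ2, hβ3⟩ := exists_min h hc hF hH hF0 (hd0.trans hε₃3)
  rw [sub_zero] at hβ1
  -- the sequence of shifts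
  classical
  obtain ⟨nx, hnx⟩ : ∃ nx : ℕ → ℂ → ℂ, ∀ (k : ℕ) (b : ℂ), dev r F H (z k) b ≤ ε₃ → c₁ * ‖nx k b - b‖ ≤ c₁ * b₀ / 2 ∧
      dev r F H (z (k + 1 : ℕ)) (nx k b) ≤ ε₀ ∧ ∀ b'' : ℂ, ‖b'' - nx k b‖ ≤ b₀ → dev r F H (z (k + 1 : ℕ)) (nx k b) ≤ dev r F H (z (k + 1 : ℕ)) b'' := by
    refine ⟨fun k b => if hb : dev r F H (z k) b ≤ ε₃ then (hstep k b hb).choose else b, fun k b hb => ?_⟩
    simp only [dif_pos hb]
    exact (hstep k b hb).choose_spec
  obtain ⟨b, hb0', hbs⟩ : ∃ b : ℕ → ℂ, b 0 = β₀ ∧ ∀ k, b (k + 1) = nx k (b k) := ⟨fun k => Nat.rec β₀ (fun k x => nx k x) k, rfl, fun _ => rfl⟩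
  have hle : ∀ {x : ℂ}, c₁ * ‖x‖ ≤ c₁ * b₀ / 2 → ‖x‖ ≤ b₀ / 2 := fun {x} hx => by
    have h1 : c₁ * ‖x‖ ≤ c₁ * (b₀ / 2) := by linarith
    exact le_of_mul_le_mul_left h1 hc1
  have hβ4 : ‖β₀‖ ≤ b₀ / 2 := hle (by linarith)
  have hb00 : dev r F H 0 (b 0) ≤ ε₃ := by
    rw [hb0']
    exact hβ2.trans hd0
  -- the minimality propagates
  have hmin : ∀ k : ℕ, (∀ j < k, dev r F H (z j) (b j) ≤ ε₃) → ∀ b' : ℂ, ‖b' - b k‖ ≤ b₀ → dev r F H (z k) (b k) ≤ dev r F H (z k) b' := by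
    intro k hk
    cases k with
    | zero =>
      rw [hz0, hb0']
      exact hβ3
    | succ k =>
      rw [hbs k]
      exact (hnx k (b k) (hk k (Nat.lt_succ_self k))).2.2
  -- no exit before `n`
  have hno : ∀ k : ℕ, k ≤ n → dev r F H (z k) (b k) ≤ ε₃ ∧ ‖b k‖ ≤ b₀ / 2 := by
    intro k
    induction k using Nat.strong_induction_on with
    | _ k ih =>
      intro hk
      have h1 : ‖b k‖ ≤ b₀ := by
        cases k with
        | zero =>
          rw [hb0']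
          linarith
        | succ k =>
          have h2 := ih k (Nat.lt_succ_self k) (by omega)
          have h3 := hle (hnx k (b k) h2.1).1
          rw [hbs k]
          have h4 : nx k (b k) = (nx k (b k) - b k) + b k := by ring
          rw [h4]
          refine (norm_add_le _ _).trans ?_
          linarith [h2.2]
      have h2 : dev r F H (z k) (b k) ≤ dev r F H (z k) 0 :=
        hmin k (fun j hj => (ih j hj (by omega)).1) 0 (by rwa [zero_sub, norm_neg])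
      have h3 := hsmall k hk
      refine ⟨h2.trans h3, hle ?_⟩
      have h4 := uniq h hc hF hH (a := z k) (b := 0) (b' := b k) (hz.good k) (h3.trans (hε₃3.trans hc1b)) (by rw [sub_zero]; linarith)
      rw [sub_zero] at h4
      linarith [h2.trans h3]
  refine ⟨b, ?_, hb00, ?_, ?_⟩
  · rw [hb0']
    linarith
  · rw [hb0']
    exact hβ3
  by_cases hall : ∀ k : ℕ, dev r F H (z k) (b k) ≤ ε₃
  · left
    intro k
    refine ⟨hall k, hmin k fun j _ => hall j, ?_⟩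
    rw [hbs k]
    have := hle (hnx k (b k) (hall k)).1
    linarith
  · right
    push Not at hall
    have hT := Nat.find_spec hall
    have hT' : ∀ j < Nat.find hall, dev r F H (z j) (b j) ≤ ε₃ := fun j hj => not_lt.1 (Nat.find_min hall hj)
    refine ⟨Nat.find hall, ?_, hT, fun k hk => ⟨?_, hmin k fun j hj => hT' j (lt_of_lt_of_le hj hk), fun hk' => ?_⟩⟩
    · by_contra hcon
      push Not at hcon
      exact absurd (hno _ hcon).1 (not_le.2 hT)
    · rcases lt_or_eq_of_le hk with hk' | hk'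
      · exact (hT' k hk').trans hε₃2
      · cases k with
        | zero =>
          have h1 := (hno 0 (Nat.zero_le _)).1
          exact h1.trans hε₃2
        | succ k =>
          rw [hbs k]
          exact (hnx k (b k) (hT' k (by omega))).2.1
    · rw [hbs k]
      have := hle (hnx k (b k) (hT' k hk')).1
      linarith

end Pool.Agent.SR3.G

end
end

section

/-!
# SR3 G PerG: periodic curves of exponential type on a surface are algebraically degenerate (helper92)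

Counting: a form `Q` of degree `d` outside the ideal such that `g z = Q (F z)` vanishes at `0` to the order `K d`.  By the period `g` vanishes to this order at
the points `n ω`, and `|g z| ≤ C exp (d B (1 + |z|))`: for `K` large `g = 0`.
-/

set_option autoImplicit false

open Topology Filter Metric MvPolynomial

noncomputable section

namespace Pool.Agent.SR3.G

open Pool.Agent.H36.BP (EN)
open Pool.Agent.H17EF (coneE exists_form_of_conditions analyticAt_eval exists_bound eval_smul_form div_list)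
open Pool.Agent.H17LG.Variety (FunField)
open Pool.Agent.H62.FC (Homog)

/-- the bound of a form -/
private theorem per_bd {N : ℕ} {Q : MvPolynomial (Fin (N + 1)) ℂ} {d : ℕ} (hQ : Q.IsHomogeneous d) : ∃ B : ℝ, 0 < B ∧ ∀ x : EN N, x ≠ 0 →
    ‖eval x.ofLp Q‖ ≤ B * ‖x‖ ^ d := by
  obtain ⟨B, hB0, hB⟩ := exists_bound Q
  refine ⟨B, hB0, fun x hx => ?_⟩
  have hxn : 0 < ‖x‖ := norm_pos_iff.2 hx
  have hxc : (‖x‖ : ℂ) ≠ 0 := by simpa using hx
  have h1 : ‖(‖x‖ : ℂ)⁻¹ • x.ofLp‖ ≤ 1 := by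
    rw [norm_smul, norm_inv, Complex.norm_real, norm_norm, inv_mul_le_iff₀ hxn, mul_one]
    exact (pi_norm_le_iff_of_nonneg (norm_nonneg x)).2 fun i => PiLp.norm_apply_le x i
  have h2 : x.ofLp = (‖x‖ : ℂ) • ((‖x‖ : ℂ)⁻¹ • x.ofLp) := by rw [smul_smul, mul_inv_cancel₀ hxc, one_smul]
  rw [h2, eval_smul_form hQ, norm_mul, norm_pow, Complex.norm_real, norm_norm, mul_comm]
  exact mul_le_mul_of_nonneg_right (hB _ h1) (by positivity)

/-- a periodic function with a zero of high order has small values -/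
private theorem per_est {g : ℂ → ℂ} (hg : Differentiable ℂ g) {ω : ℂ} (hω : ω ≠ 0) (hper : ∀ z, g (z + ω) = g z) {μ : ℕ}
    (hμ : (μ : ℕ∞) ≤ analyticOrderAt g 0) {T : ℕ} (hT : 1 ≤ T) {B : ℝ} (hB : ∀ z ∈ ball (0 : ℂ) (4 * (‖ω‖ * T)), ‖g z‖ ≤ B) {z₀ : ℂ}
    (hz₀ : ‖z₀‖ ≤ ‖ω‖ * T) : ‖g z₀‖ ≤ B * (2 / 3) ^ (μ * (2 * T + 1)) := by
  classical
  have hω0 : 0 < ‖ω‖ := norm_pos_iff.2 hω
  have hT0 : (0 : ℝ) < T := by exact_mod_cast hT
  obtain ⟨r, hr⟩ : ∃ r : ℝ, r = 4 * (‖ω‖ * T) := ⟨_, rfl⟩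
  have hr0 : 0 < r := by rw [hr]; positivity
  have hr4 : r / 4 = ‖ω‖ * T := by rw [hr]; ring
  rw [← hr] at hB
  rw [← hr4] at hz₀
  have hpern : ∀ (n : ℕ) (z : ℂ), g (z + n * ω) = g z := by
    intro n
    induction n with
    | zero => intro z; simp
    | succ n ih =>
      intro z
      have h1 : z + ((n + 1 : ℕ) : ℂ) * ω = z + n * ω + ω := by push_cast; ring
      rw [h1, hper, ih]
  have hperz : ∀ (n : ℤ) (z : ℂ), g (z + n * ω) = g z := by
    intro n z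
    rcases le_total 0 n with hn | hn
    · obtain ⟨k, rfl⟩ := Int.eq_ofNat_of_zero_le hn
      have := hpern k z
      simpa using this
    · obtain ⟨k, hk⟩ : ∃ k : ℕ, n = -(k : ℤ) := ⟨(-n).toNat, by omega⟩
      have h1 := hpern k (z + n * ω)
      rw [← h1]
      congr 1
      rw [hk]
      push_cast
      ring
  obtain ⟨S, hS⟩ : ∃ S : Finset ℂ, S = (Finset.Icc (-(T : ℤ)) T).image fun n : ℤ => (n : ℂ) * ω := ⟨_, rfl⟩
  have hinj : Function.Injective fun n : ℤ => (n : ℂ) * ω := by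
    intro a b hab
    have h1 := mul_right_cancel₀ hω hab
    exact_mod_cast h1
  have hcard : S.card = 2 * T + 1 := by
    rw [hS, Finset.card_image_of_injective _ hinj, Int.card_Icc]
    omega
  have hSr : ∀ w ∈ S, ‖w‖ ≤ r / 4 := by
    intro w hw
    rw [hS, Finset.mem_image] at hw
    obtain ⟨n, hn, rfl⟩ := hw
    rw [Finset.mem_Icc] at hn
    have h1 : |(n : ℝ)| ≤ T := abs_le.2 ⟨by exact_mod_cast hn.1, by exact_mod_cast hn.2⟩
    rw [norm_mul, Complex.norm_intCast, hr4, mul_comm]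
    exact mul_le_mul_of_nonneg_left h1 hω0.le
  have hordS : ∀ w ∈ S, (μ : ℕ∞) ≤ analyticOrderAt g w := by
    intro w hw
    rw [hS, Finset.mem_image] at hw
    obtain ⟨n, -, rfl⟩ := hw
    rw [natCast_le_analyticOrderAt (hg.analyticAt 0)] at hμ
    obtain ⟨h, hh, hh'⟩ := hμ
    have ht : Tendsto (fun z : ℂ => z - (n : ℂ) * ω) (𝓝 ((n : ℂ) * ω)) (𝓝 0) := by
      have h1 : ContinuousAt (fun z : ℂ => z - (n : ℂ) * ω) ((n : ℂ) * ω) := by fun_prop
      rwa [ContinuousAt, sub_self] at h1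
    rw [natCast_le_analyticOrderAt (hg.analyticAt _)]
    refine ⟨fun z => h (z - n * ω), AnalyticAt.comp_of_eq hh (by fun_prop) (sub_self _), ?_⟩
    filter_upwards [ht.eventually hh'] with z hz
    have h1 := hperz n (z - n * ω)
    rw [sub_add_cancel] at h1
    rw [h1, hz, sub_zero]
  obtain ⟨l, hl⟩ : ∃ l : List ℂ, l = (List.replicate μ S.toList).flatten := ⟨_, rfl⟩
  have hlmem : ∀ w ∈ l, w ∈ S := by
    intro w hw
    rw [hl, List.mem_flatten] at hw
    obtain ⟨l', hl', hw⟩ := hw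
    rw [List.mem_replicate] at hl'
    rw [hl'.2, Finset.mem_toList] at hw
    exact hw
  have hlcount : ∀ w, l.count w = if w ∈ S then μ else 0 := by
    intro w
    rw [hl, List.count_flatten, List.map_replicate, List.sum_replicate]
    split_ifs with hw
    · rw [List.count_eq_one_of_mem S.nodup_toList (Finset.mem_toList.2 hw)]
      simp
    · rw [List.count_eq_zero_of_not_mem (by rwa [Finset.mem_toList])]
      simp
  have hllen : l.length = μ * (2 * T + 1) := by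
    rw [hl, List.length_flatten, List.map_replicate, List.sum_replicate, Finset.length_toList, hcard]
    simp
  obtain ⟨g₁, h1d, h1f, h1B⟩ := div_list hr0 l hg.differentiableOn hB (fun w hw => hSr w (hlmem w hw)) (by
    intro w
    rw [hlcount]
    split_ifs with hw
    · exact hordS w hw
    · simp)
  have hz₀b : z₀ ∈ ball (0 : ℂ) r := by
    rw [mem_ball_zero_iff]
    linarith
  have hprle : ∀ l : List ℂ, (∀ w ∈ l, ‖w‖ ≤ r / 4) → ‖(l.map fun w => z₀ - w).prod‖ ≤ (r / 2) ^ l.length := by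
    intro l
    induction l with
    | nil => simp
    | cons a l ih =>
      intro h
      simp only [List.map_cons, List.prod_cons, norm_mul, List.length_cons, pow_succ']
      have h7 : ‖z₀ - a‖ ≤ r / 2 := by
        refine (norm_sub_le _ _).trans ?_
        have := h a List.mem_cons_self
        linarith
      exact mul_le_mul h7 (ih fun w hw => h w (List.mem_cons_of_mem _ hw)) (norm_nonneg _) (by positivity)
  rw [h1f z₀, norm_mul]
  calc ‖(l.map fun w => z₀ - w).prod‖ * ‖g₁ z₀‖ ≤ (r / 2) ^ l.length * (B * (4 / (3 * r)) ^ l.length) :=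
        mul_le_mul (hprle l fun w hw => hSr w (hlmem w hw)) (h1B z₀ hz₀b) (norm_nonneg _) (by positivity)
    _ = B * ((r / 2) * (4 / (3 * r))) ^ l.length := by rw [mul_pow]; ring
    _ = B * (2 / 3) ^ (μ * (2 * T + 1)) := by
      rw [hllen]
      congr 2
      field_simp
      norm_num

theorem per_degenerate {N : ℕ} {P : Ideal (MvPolynomial (Fin (N + 1)) ℂ)} [P.IsPrime] (_hP : Homog P) (hdim : ∃ z : Fin 2 → FunField P, IsTranscendenceBasis ℂ z)
    {F : ℂ → EN N} (hF : Differentiable ℂ F) (hX : ∀ z, F z ∈ coneE P) {ω : ℂ} (hω : ω ≠ 0) (hper : ∀ z, F (z + ω) = F z)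
    (hgr : ∃ B : ℝ, ∀ z, Real.log ‖F z‖ ≤ B * (1 + ‖z‖)) :
    ∃ (R : MvPolynomial (Fin (N + 1)) ℂ) (d : ℕ), R.IsHomogeneous d ∧ R ∉ P ∧ ∀ z, MvPolynomial.eval (F z).ofLp R = 0 := by
  obtain ⟨zz, hz⟩ := hdim
  obtain ⟨B₀, hB₀⟩ := hgr
  have hne : ∀ z, (F z).ofLp ≠ 0 := fun z => (hX z).1
  have hne' : ∀ z, F z ≠ 0 := fun z h => hne z (by rw [h]; rfl)
  have hFd : Differentiable ℂ fun z => (F z).ofLp := (PiLp.continuousLinearEquiv 2 ℂ (fun _ : Fin (N + 1) => ℂ)).differentiable.comp hF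
  have hXP : ∃ i, (X i : MvPolynomial (Fin (N + 1)) ℂ) ∉ P := by
    by_contra hcon
    push Not at hcon
    apply hne 0
    funext i
    have h1 : eval (F 0).ofLp (X i) = 0 := (hX 0).2 _ (hcon i)
    simpa using h1
  obtain ⟨B, hB⟩ : ∃ B : ℝ, B = |B₀| := ⟨_, rfl⟩
  have hB0 : 0 ≤ B := by rw [hB]; exact abs_nonneg _
  obtain ⟨K, hK⟩ := exists_nat_ge (6 * ‖ω‖ * B + 2)
  obtain ⟨d, hd, hL⟩ := exists_form_of_conditions hz hXP K
  let L : MvPolynomial (Fin (N + 1)) ℂ →ₗ[ℂ] (Fin (K * d) → ℂ) :=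
    { toFun := fun Q k => iteratedDeriv k (fun z => eval (F z).ofLp Q) 0
      map_add' := by
        intro Q R
        funext k
        have e1 : (fun z => eval (F z).ofLp (Q + R)) = (fun z => eval (F z).ofLp Q) + fun z => eval (F z).ofLp R := by
          funext z; simp
        rw [e1, iteratedDeriv_add (analyticAt_eval (hFd.analyticAt 0) Q).contDiffAt (analyticAt_eval (hFd.analyticAt 0) R).contDiffAt]
        rfl
      map_smul' := by
        intro c Q
        funext k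
        have e1 : (fun z => eval (F z).ofLp (c • Q)) = c • fun z => eval (F z).ofLp Q := by
          funext z; simp [MvPolynomial.smul_eval]
        rw [e1, iteratedDeriv_const_smul (analyticAt_eval (hFd.analyticAt 0) Q).contDiffAt]
        rfl }
  obtain ⟨Q, hQ, hQP, hLQ⟩ := hL L
  refine ⟨Q, d, hQ, hQP, ?_⟩
  obtain ⟨g, hg⟩ : ∃ g : ℂ → ℂ, g = fun z => eval (F z).ofLp Q := ⟨_, rfl⟩
  have hgd : Differentiable ℂ g := by
    rw [hg]
    exact fun z => (analyticAt_eval (hFd.analyticAt z) Q).differentiableAt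
  have hgper : ∀ z, g (z + ω) = g z := by
    intro z
    rw [hg]
    show eval (F (z + ω)).ofLp Q = eval (F z).ofLp Q
    rw [hper]
  have hμ : ((K * d : ℕ) : ℕ∞) ≤ analyticOrderAt g 0 := by
    rw [hg, natCast_le_analyticOrderAt_iff_iteratedDeriv_eq_zero (analyticAt_eval (hFd.analyticAt 0) Q)]
    intro k hk
    exact congrFun hLQ ⟨k, hk⟩
  obtain ⟨BQ, hBQ0, hBQ⟩ := per_bd hQ
  have hgb : ∀ z, ‖g z‖ ≤ BQ * Real.exp (d * (B * (1 + ‖z‖))) := by
    intro z
    rw [hg]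
    refine (hBQ (F z) (hne' z)).trans (mul_le_mul_of_nonneg_left ?_ hBQ0.le)
    have h1 : 0 < ‖F z‖ := norm_pos_iff.2 (hne' z)
    have h2 : Real.log ‖F z‖ ≤ B * (1 + ‖z‖) := by
      refine (hB₀ z).trans (mul_le_mul_of_nonneg_right ?_ (by positivity))
      rw [hB]
      exact le_abs_self _
    rw [Real.exp_nat_mul, ← Real.exp_log h1]
    exact pow_le_pow_left₀ (Real.exp_pos _).le (Real.exp_le_exp.2 h2) d
  intro z₀
  have hω0 : 0 < ‖ω‖ := norm_pos_iff.2 hω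
  have hd1 : (1 : ℝ) ≤ d := by exact_mod_cast hd
  have hlim : Tendsto (fun T : ℕ => BQ * Real.exp (d * B) * Real.exp (-(T : ℝ))) atTop (𝓝 0) := by
    have h1 : Tendsto (fun T : ℕ => Real.exp (-(T : ℝ))) atTop (𝓝 0) :=
      Real.tendsto_exp_neg_atTop_nhds_zero.comp tendsto_natCast_atTop_atTop
    simpa using h1.const_mul (BQ * Real.exp (d * B))
  have hev : ∀ᶠ T : ℕ in atTop, ‖g z₀‖ ≤ BQ * Real.exp (d * B) * Real.exp (-(T : ℝ)) := by
    have h1 : ∀ᶠ T : ℕ in atTop, ‖z₀‖ / ‖ω‖ ≤ (T : ℝ) := tendsto_natCast_atTop_atTop.eventually_ge_atTop _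
    filter_upwards [h1, eventually_ge_atTop 1] with T hT1 hT2
    have h2 : ‖z₀‖ ≤ ‖ω‖ * T := by
      rw [div_le_iff₀ hω0] at hT1
      linarith
    have h3 := per_est hgd hω hgper hμ hT2 (B := BQ * Real.exp (d * (B * (1 + 4 * (‖ω‖ * T))))) (fun z hz => by
      rw [mem_ball_zero_iff] at hz
      refine (hgb z).trans (mul_le_mul_of_nonneg_left (Real.exp_le_exp.2 ?_) hBQ0.le)
      exact mul_le_mul_of_nonneg_left (mul_le_mul_of_nonneg_left (by linarith) hB0) (by positivity)) h2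
    refine h3.trans ?_
    have h4 : (2 / 3 : ℝ) ≤ Real.exp (-(1 / 3)) := by
      have := Real.add_one_le_exp (-(1 / 3) : ℝ)
      linarith
    have h5 : (2 / 3 : ℝ) ^ (K * d * (2 * T + 1)) ≤ Real.exp (((K * d * (2 * T + 1) : ℕ) : ℝ) * (-(1 / 3))) := by
      rw [Real.exp_nat_mul]
      exact pow_le_pow_left₀ (by norm_num) h4 _
    calc BQ * Real.exp (d * (B * (1 + 4 * (‖ω‖ * T)))) * (2 / 3) ^ (K * d * (2 * T + 1))
        ≤ BQ * Real.exp (d * (B * (1 + 4 * (‖ω‖ * T)))) * Real.exp (((K * d * (2 * T + 1) : ℕ) : ℝ) * (-(1 / 3))) :=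
          mul_le_mul_of_nonneg_left h5 (by positivity)
      _ = BQ * Real.exp (d * (B * (1 + 4 * (‖ω‖ * T))) + ((K * d * (2 * T + 1) : ℕ) : ℝ) * (-(1 / 3))) := by
          rw [Real.exp_add]; ring
      _ ≤ BQ * Real.exp (d * B + -(T : ℝ)) := by
          refine mul_le_mul_of_nonneg_left (Real.exp_le_exp.2 ?_) hBQ0.le
          push_cast
          have hT0 : (1 : ℝ) ≤ T := by exact_mod_cast hT2
          have h6 : (d : ℝ) * T * (6 * ‖ω‖ * B + 2) ≤ d * T * K := mul_le_mul_of_nonneg_left hK (by positivity)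
          have h7 : (0 : ℝ) ≤ K * d := by positivity
          have h8 : (T : ℝ) ≤ d * T := by nlinarith
          nlinarith
      _ = BQ * Real.exp (d * B) * Real.exp (-(T : ℝ)) := by rw [Real.exp_add]; ring
  have h9 : ‖g z₀‖ ≤ 0 := ge_of_tendsto hlim hev
  have h10 : g z₀ = 0 := norm_le_zero_iff.1 h9
  rw [hg] at h10
  exact h10

end Pool.Agent.SR3.G

end
end

section

/-!
# SR3 G Exit: an asymptotic pair exists, in one of the two directions

PROOF.  Take two close translates of one curve (`exists_return`) and follow them to the right (`exists_fwd`).  If they can be followed for ever, this is an asymptotic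
pair: the deviation is never `0`, because otherwise it is `0` at all smaller indices, and then the curve is periodic.  Otherwise, for closer and closer translates, there
are exits at the indices `T n → ∞`; translate to `T n` and pass to the limit (`exists_lim`): a pair which is followed along the negative half, with a positive deviation
at `0`.
-/

set_option autoImplicit false
set_option linter.unusedSectionVars false

open Topology Filter Metric

noncomputable section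

namespace Pool.Agent.SR3.G

variable {V : Type} [NormedAddCommGroup V] [NormedSpace ℂ V] [CompleteSpace V] {KK : Set (ℂ → V)} {M γ L r b₀ c₁ C₂ ε₀ : ℝ}

theorem eq_of_dev {F H : ℂ → V} (hF : Differentiable ℂ F) (hH : Differentiable ℂ H) (hr : 0 < r) {a b : ℂ} (h : dev r F H a b ≤ 0) (z : ℂ) :
    H (z + b) = F z := by
  have h1 : sh (a + b) H = sh a F :=
    eq_of_dQ (hF.comp (differentiable_id.add_const a)) (hH.comp (differentiable_id.add_const (a + b))) hr h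
  have h2 := congrFun h1 (z - a)
  simp only [sh] at h2
  rw [sub_add_cancel, show z - a + (a + b) = z + b by ring] at h2
  exact h2

theorem dev_of_eq {F H : ℂ → V} (hr : 0 ≤ r) {b : ℂ} (h : ∀ z, H (z + b) = F z) (a : ℂ) : dev r F H a b = 0 := by
  have h1 : sh (a + b) H = sh a F := by
    funext z
    show H (z + (a + b)) = F (z + a)
    rw [← add_assoc]
    exact h _
  unfold dev
  rw [h1]
  exact le_antisymm (dQ_le hr fun w _ => by simp) (dQ_nonneg _ _)

/-- if the deviation is `0` at one index, it is `0` at the neighbours -/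
theorem dev_prop (h : Sys KK M γ) (hr : 0 < r) {F H : ℂ → V} (hF : F ∈ KK) (hH : H ∈ KK) {a a' b b' : ℂ} (h0 : dev r F H a b ≤ 0)
    (hmin : ∀ b'' : ℂ, ‖b'' - b'‖ ≤ b₀ → dev r F H a' b' ≤ dev r F H a' b'') (hb : ‖b - b'‖ ≤ b₀) : dev r F H a' b' ≤ 0 := by
  have h1 := eq_of_dev (h.diff F hF) (h.diff H hH) hr h0
  have h2 := dev_of_eq hr.le h1 a'
  exact (hmin b hb).trans h2.le

/-- an asymptotic pair exists, in one of the two directions -/
theorem exists_asym (h : Sys KK M γ) (hc : Cst KK M L r b₀ c₁ C₂) (he : Expa KK M L r b₀ c₁ ε₀) (hp : NoPer KK) :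
    (∃ (F H : ℂ → V) (z b : ℤ → ℂ), Asym KK M L r b₀ ε₀ F H z b) ∨ ∃ (F H : ℂ → V) (z b : ℤ → ℂ), Asym (ng '' KK) M L r b₀ ε₀ F H z b := by
  have hr : 0 < r := by linarith [hc.L1, hc.rL]
  obtain ⟨ε₃, h3, h3', hfwd⟩ := exists_fwd h hc he.pos he.le
  choose δ hδ hfw using hfwd
  have hret := fun n => exists_return h hc (hδ n)
  choose F z ζ hF hz hζ hFζ hdQ using hret
  have hH : ∀ n, sh (ζ n) (F n) ∈ KK := fun n => h.shift _ (hF n) _
  have hfw' := fun n => hfw n (F n) (hF n) (sh (ζ n) (F n)) (hH n) (z n) (hz n) (hdQ n)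
  choose b hb0 hb1 hb2 hb3 using hfw'
  have hε : ε₀ ≤ 1 := by
    have h1 := he.le
    have h2 : c₁ * b₀ ≤ 1 * (1 / 8) := mul_le_mul hc.c₁_le hc.b₀_le hc.b₀_pos.le zero_le_one
    linarith
  by_cases hev : ∃ n, ∀ k : ℕ, dev r (F n) (sh (ζ n) (F n)) (z n k) (b n k) ≤ ε₃ ∧
      (∀ b' : ℂ, ‖b' - b n k‖ ≤ b₀ → dev r (F n) (sh (ζ n) (F n)) (z n k) (b n k) ≤ dev r (F n) (sh (ζ n) (F n)) (z n k) b') ∧ ‖b n (k + 1) - b n k‖ ≤ b₀
  · left
    obtain ⟨n, hn⟩ := hev
    have hcast : ∀ k : ℤ, 0 ≤ k → ∃ m : ℕ, k = m := fun k hk => ⟨k.toNat, (Int.toNat_of_nonneg hk).symm⟩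
    refine ⟨F n, sh (ζ n) (F n), z n, fun k => b n k.toNat, hF n, hH n, hz n, ⟨fun k hk => ?_, fun k hk b' hb' => ?_, fun k hk hk1 => ?_⟩, fun k hk => ?_⟩
    · obtain ⟨m, rfl⟩ := hcast k hk
      rw [Int.toNat_natCast]
      exact (hn m).1.trans h3'
    · obtain ⟨m, rfl⟩ := hcast k hk
      rw [Int.toNat_natCast] at hb' ⊢
      exact (hn m).2.1 b' hb'
    · obtain ⟨m, rfl⟩ := hcast k hk
      rw [Int.toNat_natCast, show ((m : ℤ) + 1).toNat = m + 1 by omega]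
      exact (hn m).2.2
    · obtain ⟨m, rfl⟩ := hcast k hk
      rw [Int.toNat_natCast]
      by_contra hneg
      push Not at hneg
      have hall : ∀ j : ℕ, j ≤ m → dev r (F n) (sh (ζ n) (F n)) (z n ((m - j : ℕ) : ℤ)) (b n (m - j)) ≤ 0 := by
        intro j
        induction j with
        | zero => intro _; simpa using hneg
        | succ j ih =>
          intro hj
          have h4 := ih (by omega)
          have h5 : m - j = (m - (j + 1)) + 1 := by omega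
          rw [h5] at h4
          exact dev_prop h hr (hF n) (hH n) h4 (hn (m - (j + 1))).2.1 (hn (m - (j + 1))).2.2
      have h6 := hall m le_rfl
      rw [Nat.sub_self] at h6
      have h7 := eq_of_dev (h.diff _ (hF n)) (h.diff _ (hH n)) hr h6
      have h8 := hp (F n) (hF n) (b n 0 + ζ n) fun w => by
        have := h7 w
        simp only [sh] at this
        rw [← add_assoc]
        exact this
      have h9 : (b n 0 + ζ n).re = 0 := by rw [h8]; rfl
      have h10 : |(b n 0).re| ≤ 1 / 8 := (Complex.abs_re_le_norm _).trans ((hb0 n).trans hc.b₀_le)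
      rw [Complex.add_re] at h9
      have h11 := abs_le.1 h10
      linarith [hζ n, h11.1]
  · right
    have hex : ∀ n, ∃ T : ℕ, n < T ∧ ε₃ < dev r (F n) (sh (ζ n) (F n)) (z n T) (b n T) ∧ ∀ k ≤ T, dev r (F n) (sh (ζ n) (F n)) (z n k) (b n k) ≤ ε₀ ∧
        (∀ b' : ℂ, ‖b' - b n k‖ ≤ b₀ → dev r (F n) (sh (ζ n) (F n)) (z n k) (b n k) ≤ dev r (F n) (sh (ζ n) (F n)) (z n k) b') ∧
        (k < T → ‖b n (k + 1) - b n k‖ ≤ b₀) := fun n => (hb3 n).resolve_left fun h4 => hev ⟨n, h4⟩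
    choose T hT hT1 hT2 using hex
    set F' : ℕ → ℂ → V := fun n => sh (z n (T n)) (F n) with hF'
    set H' : ℕ → ℂ → V := fun n => sh (z n (T n) + b n (T n)) (sh (ζ n) (F n)) with hH'
    set z' : ℕ → ℤ → ℂ := fun n k => z n (k + T n) - z n (T n) with hz'
    set b' : ℕ → ℤ → ℂ := fun n k => b n (k + T n).toNat - b n (T n) with hb'
    have hdev : ∀ n k (β : ℂ), dev r (F' n) (H' n) (z' n k) β = dev r (F n) (sh (ζ n) (F n)) (z n (k + T n)) (β + b n (T n)) := by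
      intro n k β
      simp only [hF', hH', hz', dev_sh', sub_add_cancel]
    have hcast : ∀ n, ∀ k ∈ Set.Icc (-(T n : ℤ)) 0, ∃ m : ℕ, m ≤ T n ∧ k + T n = m := fun n k hk => by
      obtain ⟨h4, h5⟩ := hk
      exact ⟨(k + T n).toNat, by omega, by omega⟩
    have htr : ∀ n, Track r b₀ ε₀ (F' n) (H' n) (z' n) (b' n) (Set.Icc (-(T n : ℤ)) 0) := by
      intro n
      refine ⟨fun k hk => ?_, fun k hk β hβ => ?_, fun k hk hk1 => ?_⟩
      · obtain ⟨m, hm, hkm⟩ := hcast n k hk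
        rw [hdev, hkm]
        simp only [hb', hkm, Int.toNat_natCast, sub_add_cancel]
        exact (hT2 n m hm).1
      · obtain ⟨m, hm, hkm⟩ := hcast n k hk
        rw [hdev, hdev, hkm]
        simp only [hb', hkm, Int.toNat_natCast, sub_add_cancel] at hβ ⊢
        refine (hT2 n m hm).2.1 _ ?_
        rw [show β + b n (T n) - b n m = β - (b n m - b n (T n)) by ring]
        exact hβ
      · obtain ⟨m, hm, hkm⟩ := hcast n k hk
        have hkm1 : k + 1 + T n = ((m + 1 : ℕ) : ℤ) := by push_cast; omega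
        simp only [hb', hkm, hkm1, Int.toNat_natCast]
        rw [show b n (m + 1) - b n (T n) - (b n m - b n (T n)) = b n (m + 1) - b n m by ring]
        have h5 := hk1.2
        exact (hT2 n m hm).2.2 (by omega)
    have hF'm : ∀ n, F' n ∈ KK := fun n => h.shift _ (hF n) _
    have hH'm : ∀ n, H' n ∈ KK := fun n => h.shift _ (hH n) _
    have hz'c : ∀ n, IsChain M L (F' n) (z' n) := fun n => (hz n).shift (T n)
    have hb'0 : ∀ n, b' n 0 = 0 := fun n => by simp [hb']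
    obtain ⟨F₀, H₀, z₀, β, hF₀, hH₀, hz₀, hβ0, htr₀, hlim⟩ := exists_lim h hc (hyperfilter ℕ) Nat.hyperfilter_le_atTop hε hF'm hH'm hz'c hb'0 htr
      (fun n => ⟨by simp, le_rfl⟩) (Set.mem_Iic.2 le_rfl : (0 : ℤ) ∈ Set.Iic 0) Set.ordConnected_Iic
      (fun k hk => Nat.hyperfilter_le_atTop (by
        filter_upwards [eventually_ge_atTop k.natAbs] with n hn
        have h4 := hT n
        have h5 : k ≤ 0 := hk
        exact ⟨by omega, h5⟩))
    have hpos0 : 0 < dev r F₀ H₀ (z₀ 0) (β 0) := by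
      refine lt_of_lt_of_le h3 (ge_of_tendsto' (hlim 0 (Set.mem_Iic.2 le_rfl)) fun n => ?_)
      rw [hdev]
      simp only [hb', zero_add, Int.toNat_natCast, sub_add_cancel]
      exact (hT1 n).le
    refine ⟨ng F₀, ng H₀, fun k => -z₀ (-k), fun k => -β (-k), ng_mem hF₀, ng_mem hH₀, hz₀.neg, ?_, fun k hk => ?_⟩
    · have h4 := htr₀.neg
      have h5 : Neg.neg ⁻¹' Set.Iic (0 : ℤ) = Set.Ici 0 := by
        ext k
        simp
      rw [h5] at h4
      exact h4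
    · rw [dev_neg]
      by_contra hneg
      push Not at hneg
      obtain ⟨m, rfl⟩ : ∃ m : ℕ, k = m := ⟨k.toNat, (Int.toNat_of_nonneg hk).symm⟩
      have hall : ∀ j : ℕ, j ≤ m → dev r F₀ H₀ (z₀ (-(m : ℤ) + j)) (β (-(m : ℤ) + j)) ≤ 0 := by
        intro j
        induction j with
        | zero => intro _; simpa using hneg
        | succ j ih =>
          intro hj
          have h4 := ih (by omega)
          have h5 : -(m : ℤ) + ((j + 1 : ℕ) : ℤ) = (-(m : ℤ) + j) + 1 := by push_cast; ring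
          rw [h5]
          have h6 : (-(m : ℤ) + j) ∈ Set.Iic (0 : ℤ) := Set.mem_Iic.2 (by omega)
          have h7 : (-(m : ℤ) + j) + 1 ∈ Set.Iic (0 : ℤ) := Set.mem_Iic.2 (by omega)
          refine dev_prop h hr hF₀ hH₀ h4 (htr₀.min _ h7) ?_
          rw [norm_sub_rev]
          exact htr₀.near _ h6 h7
      have h8 := hall m le_rfl
      rw [neg_add_cancel] at h8
      exact absurd hpos0 (not_lt.2 h8)

end Pool.Agent.SR3.G

end
end

section

/-!
# SR3 G Exp: expansivity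

PROOF.  Otherwise there are followed pairs with deviations `≤ ε_n → 0`, not all `0`.  Translate to an index where the deviation is at least half the supremum `s_n` and
rescale by `s_n` (`follow_bound`): this contradicts `rig_false`.
-/

set_option autoImplicit false

open Topology Filter Metric

noncomputable section

namespace Pool.Agent.SR3.G

variable {V : Type} [NormedAddCommGroup V] [NormedSpace ℂ V] [CompleteSpace V] {KK : Set (ℂ → V)} {M γ L r b₀ c₁ C₂ ε₀ : ℝ}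

/-- translation of a followed pair -/
theorem Track.translate {ε : ℝ} {F H : ℂ → V} {z b : ℤ → ℂ} (h : Track r b₀ ε F H z b Set.univ) (n : ℤ) :
    Track r b₀ ε (sh (z n) F) (sh (z n + b n) H) (fun k => z (k + n) - z n) (fun k => b (k + n) - b n) Set.univ := by
  have key : ∀ (k : ℤ) (b' : ℂ), dev r (sh (z n) F) (sh (z n + b n) H) (z (k + n) - z n) b' = dev r F H (z (k + n)) (b' + b n) := by
    intro k b'
    rw [dev_sh', sub_add_cancel]
  refine ⟨fun k _ => ?_, fun k _ b' hb' => ?_, fun k _ _ => ?_⟩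
  · rw [key, sub_add_cancel]
    exact h.le _ trivial
  · rw [key, key, sub_add_cancel]
    refine h.min _ trivial _ ?_
    rw [show b' + b n - b (k + n) = b' - (b (k + n) - b n) by ring]
    exact hb'
  · have := h.near (k + n) trivial trivial
    rw [show b (k + 1 + n) - b n - (b (k + n) - b n) = b (k + n + 1) - b (k + n) by rw [show k + 1 + n = k + n + 1 by ring]; ring]
    exact this

/-- a followed pair which is not exact, normalised at an almost maximal deviation -/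
theorem exp_norm {ε : ℝ} (h : Sys KK M γ) {F H : ℂ → V} (hF : F ∈ KK) (hH : H ∈ KK) {z b : ℤ → ℂ} (hz : IsChain M L F z)
    (ht : Track r b₀ ε F H z b Set.univ) {k : ℤ} (hk : dev r F H (z k) (b k) ≠ 0) :
    ∃ (F' H' : ℂ → V) (z' b' : ℤ → ℂ) (s : ℝ), F' ∈ KK ∧ H' ∈ KK ∧ IsChain M L F' z' ∧ b' 0 = 0 ∧ 0 < s ∧ s ≤ ε ∧ Track r b₀ ε F' H' z' b' Set.univ ∧
      (∀ k, dev r F' H' (z' k) (b' k) ≤ s) ∧ ∀ b'' : ℂ, ‖b''‖ ≤ b₀ → s / 2 ≤ dev r F' H' 0 b'' := by
  have hbdd : BddAbove (Set.range fun k => dev r F H (z k) (b k)) := ⟨ε, by rintro _ ⟨k, rfl⟩; exact ht.le k trivial⟩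
  obtain ⟨s, hs⟩ : ∃ s : ℝ, s = ⨆ k, dev r F H (z k) (b k) := ⟨_, rfl⟩
  have hle : ∀ k, dev r F H (z k) (b k) ≤ s := fun k => by rw [hs]; exact le_ciSup hbdd k
  have hs0 : 0 < s := lt_of_lt_of_le (lt_of_le_of_ne (dQ_nonneg _ _) hk.symm) (hle k)
  have hsε : s ≤ ε := by rw [hs]; exact ciSup_le fun k => ht.le k trivial
  obtain ⟨n, hn⟩ : ∃ n, s / 2 < dev r F H (z n) (b n) := by
    have : s / 2 < ⨆ k, dev r F H (z k) (b k) := by rw [← hs]; exact half_lt_self hs0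
    exact exists_lt_of_lt_ciSup this
  refine ⟨sh (z n) F, sh (z n + b n) H, fun k => z (k + n) - z n, fun k => b (k + n) - b n, s, h.shift _ hF _, h.shift _ hH _, hz.shift n, by simp, hs0, hsε,
    ht.translate n, fun k => ?_, fun b'' hb'' => ?_⟩
  · rw [dev_sh', sub_add_cancel, sub_add_cancel]
    exact hle _
  · have h1 := (ht.translate n).min 0 trivial b'' (by simpa using hb'')
    simp only [zero_add, sub_self] at h1
    refine hn.le.trans (le_trans (le_of_eq ?_) h1)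
    rw [dev_sh', zero_add, zero_add]

/-- **Expansivity.** -/
theorem exists_expa (h : Sys KK M γ) (hc : Cst KK M L r b₀ c₁ C₂) (hr : Rigid KK M L r γ) : ∃ ε₀ : ℝ, Expa KK M L r b₀ c₁ ε₀ := by
  by_contra hcon
  push Not at hcon
  have hcb : 0 < c₁ * b₀ / 4 := by
    have := hc.c₁_pos
    have := hc.b₀_pos
    positivity
  have hcb1 : c₁ * b₀ / 4 ≤ 1 := by
    have h1 := hc.c₁_pos
    have h2 := hc.b₀_pos
    have h3 := hc.c₁_le
    have h4 := hc.b₀_le
    nlinarith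
  have hεn : ∀ n : ℕ, 0 < c₁ * b₀ / 4 / (n + 1) ∧ c₁ * b₀ / 4 / (n + 1) ≤ c₁ * b₀ / 4 := by
    intro n
    refine ⟨by positivity, div_le_self hcb.le ?_⟩
    have : (0 : ℝ) ≤ n := Nat.cast_nonneg n
    linarith
  have hex : ∀ n : ℕ, ∃ (F' H' : ℂ → V) (z' b' : ℤ → ℂ) (s : ℝ), F' ∈ KK ∧ H' ∈ KK ∧ IsChain M L F' z' ∧ b' 0 = 0 ∧ 0 < s ∧ s ≤ c₁ * b₀ / 4 / (n + 1) ∧
      Track r b₀ (c₁ * b₀ / 4 / (n + 1)) F' H' z' b' Set.univ ∧
      (∀ k, dev r F' H' (z' k) (b' k) ≤ s) ∧ ∀ b'' : ℂ, ‖b''‖ ≤ b₀ → s / 2 ≤ dev r F' H' 0 b'' := by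
    intro n
    by_contra hno
    refine hcon _ ⟨(hεn n).1, (hεn n).2, fun F hF H hH z b hz ht k => ?_⟩
    by_contra hk
    exact hno (exp_norm h hF hH hz ht hk)
  choose F H z b s hF hH hz hb hs hsε ht hdev hmin using hex
  obtain ⟨A, hA, hfol⟩ := follow_bound h hc
  have hs0 : Tendsto s atTop (𝓝 0) := by
    refine squeeze_zero (fun n => (hs n).le) hsε ?_
    exact (tendsto_const_div_atTop_nhds_zero_nat (c₁ * b₀ / 4)).comp (tendsto_add_atTop_nat 1) |>.congr fun n => by simp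
  refine rig_false h hc hr (hyperfilter ℕ) (Nat.hyperfilter_le_atTop) (s := s) (ε := fun _ => 0) (N := fun _ => 0) (A := A) hF hH hz hs
    (hs0.mono_left Nat.hyperfilter_le_atTop) (fun _ => le_rfl) (fun _ => le_rfl) (by simp) (fun n k w hw => ?_) hmin
  have h1 := hfol (F n) (hF n) (H n) (hH n) (z n) (b n) Set.univ (s n) (fun _ => 0) (hz n) (hb n) trivial Set.ordConnected_univ (hs n)
    (fun _ _ _ => le_rfl) ⟨fun k hk => ((ht n).le k hk).trans ((hεn n).2.trans hcb1), (ht n).min, (ht n).near⟩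
    (fun k _ => by simpa using hdev n k) (fun k hk => absurd trivial hk) k w hw
  simpa using h1

end Pool.Agent.SR3.G

end
end

section

/-!
# SR3 G Slow: there are no good indices

Translate to the index `n j`: `F j = sh (z (n j)) F`, `H j = sh (z (n j) + b (n j)) H`, `s j` = the deviation at `n j`; `follow_bound` with
`e k = ε j * min |k| (n j)` on `Ici (- n j)`, then `rig_false`.
-/

set_option autoImplicit false

open Topology Filter Metric

noncomputable section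

namespace Pool.Agent.SR3.G

variable {V : Type} [NormedAddCommGroup V] [NormedSpace ℂ V] [CompleteSpace V] {KK : Set (ℂ → V)} {M γ L r b₀ c₁ C₂ ε₀ : ℝ}

/-- there are no good indices -/
theorem not_slow (h : Sys KK M γ) (hc : Cst KK M L r b₀ c₁ C₂) (hr : Rigid KK M L r γ) {F H : ℂ → V} {z b : ℤ → ℂ}
    (hp : Asym KK M L r b₀ ε₀ F H z b) (he : ε₀ ≤ c₁ * b₀ / 4) (h0 : Tendsto (fun k : ℕ => dev r F H (z k) (b k)) atTop (𝓝 0)) {n : ℕ → ℕ} {ε : ℕ → ℝ} (hn : StrictMono n) (hε : ∀ j, 0 < ε j)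
    (hεn : Tendsto (fun j => ε j * Real.log (n j)) atTop (𝓝 0))
    (h1 : ∀ j, Real.exp (-(ε j * n j)) ≤ dev r F H (z (n j)) (b (n j)))
    (h2 : ∀ j, ∀ i : ℕ, dev r F H (z i) (b i) ≤ dev r F H (z (n j)) (b (n j)) * Real.exp (ε j * |(i : ℝ) - n j|)) : False := by
  obtain ⟨A, -, hA⟩ := follow_bound h hc
  have he1 : ε₀ ≤ 1 := by
    have a1 := hc.b₀_le
    have a2 := hc.c₁_le
    have a3 := hc.b₀_pos
    have a4 := hc.c₁_pos
    nlinarith
  have hdev : ∀ (j : ℕ) (k : ℤ), dev r (sh (z (n j)) F) (sh (z (n j) + b (n j)) H) (z (k + n j) - z (n j)) (b (k + n j) - b (n j)) =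
      dev r F H (z (k + n j)) (b (k + n j)) := by
    intro j k
    rw [dev_sh', sub_add_cancel, sub_add_cancel]
  have hs : ∀ j, 0 < dev r F H (z (n j)) (b (n j)) := fun j => hp.pos _ (Int.natCast_nonneg _)
  -- `1 ≤ s exp (ε n)`
  have hs1 : ∀ j, 1 ≤ dev r F H (z (n j)) (b (n j)) * Real.exp (ε j * n j) := by
    intro j
    have a1 := mul_le_mul_of_nonneg_right (h1 j) (Real.exp_pos (ε j * n j)).le
    rwa [← Real.exp_add, neg_add_cancel, Real.exp_zero] at a1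
  refine rig_false (F := fun j => sh (z (n j)) F) (H := fun j => sh (z (n j) + b (n j)) H) (z := fun j k => z (k + n j) - z (n j))
    (s := fun j => dev r F H (z (n j)) (b (n j))) (ε := ε) (N := fun j => (n j : ℝ)) (A := A) h hc hr (hyperfilter ℕ) Nat.hyperfilter_le_atTop
    (fun j => h.shift F hp.memF _) (fun j => h.shift H hp.memH _) (fun j => hp.chain.shift _) hs ?_ (fun j => (hε j).le) (fun j => Nat.cast_nonneg _) ?_ ?_ ?_
  · exact (h0.comp hn.tendsto_atTop).mono_left Nat.hyperfilter_le_atTop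
  · -- `ε log (2 + n) → 0`
    refine Tendsto.mono_left ?_ Nat.hyperfilter_le_atTop
    have a1 : Tendsto (fun j => 2 * (ε j * Real.log (n j))) atTop (𝓝 0) := by simpa using hεn.const_mul 2
    refine squeeze_zero' (Eventually.of_forall fun j => mul_nonneg (hε j).le (Real.log_nonneg (by
      have : (0 : ℝ) ≤ (n j : ℝ) := Nat.cast_nonneg _
      linarith))) ?_ a1
    filter_upwards [hn.tendsto_atTop.eventually_ge_atTop 2] with j hj
    have a2 : (2 : ℝ) ≤ (n j : ℝ) := by exact_mod_cast hj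
    have a3 : Real.log (2 + n j) ≤ 2 * Real.log (n j) := by
      have a4 : (2 : ℝ) * Real.log (n j) = Real.log ((n j : ℝ) ^ 2) := by
        rw [Real.log_pow]
        norm_num
      rw [a4]
      exact Real.log_le_log (by linarith) (by nlinarith)
    calc ε j * Real.log (2 + n j) ≤ ε j * (2 * Real.log (n j)) := mul_le_mul_of_nonneg_left a3 (hε j).le
      _ = 2 * (ε j * Real.log (n j)) := by ring
  · -- the bound
    intro j
    have hT : Track r b₀ 1 (sh (z (n j)) F) (sh (z (n j) + b (n j)) H) (fun k => z (k + n j) - z (n j)) (fun k => b (k + n j) - b (n j))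
        (Set.Ici (-(n j : ℤ))) := by
      constructor
      · intro k hk
        have hk' : k + n j ∈ Set.Ici (0 : ℤ) := by
          rw [Set.mem_Ici] at hk ⊢
          linarith
        change dev r _ _ (z (k + n j) - z (n j)) (b (k + n j) - b (n j)) ≤ 1
        rw [hdev]
        exact (hp.track.le _ hk').trans he1
      · intro k hk b' hb'
        have hk' : k + n j ∈ Set.Ici (0 : ℤ) := by
          rw [Set.mem_Ici] at hk ⊢
          linarith
        change dev r _ _ (z (k + n j) - z (n j)) (b (k + n j) - b (n j)) ≤ dev r _ _ (z (k + n j) - z (n j)) b'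
        rw [hdev, dev_sh', sub_add_cancel]
        refine hp.track.min _ hk' _ ?_
        have a1 : b' + b (n j) - b (k + n j) = b' - (b (k + n j) - b (n j)) := by ring
        rw [a1]
        exact hb'
      · intro k hk hk1
        have hk' : k + n j ∈ Set.Ici (0 : ℤ) := by
          rw [Set.mem_Ici] at hk ⊢
          linarith
        have hk1' : k + n j + 1 ∈ Set.Ici (0 : ℤ) := by
          rw [Set.mem_Ici] at hk1 ⊢
          linarith
        have a1 : b (k + 1 + n j) - b (n j) - (b (k + n j) - b (n j)) = b (k + n j + 1) - b (k + n j) := by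
          rw [show k + 1 + (n j : ℤ) = k + n j + 1 by ring]
          ring
        change ‖b (k + 1 + n j) - b (n j) - (b (k + n j) - b (n j))‖ ≤ b₀
        rw [a1]
        exact hp.track.near _ hk' hk1'
    have hmono : ∀ i i' : ℤ, |i| ≤ |i'| → ε j * min |(i : ℝ)| (n j) ≤ ε j * min |(i' : ℝ)| (n j) := by
      intro i i' hii
      have a1 : |(i : ℝ)| ≤ |(i' : ℝ)| := by exact_mod_cast hii
      exact mul_le_mul_of_nonneg_left (min_le_min_right _ a1) (hε j).le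
    refine hA _ (h.shift F hp.memF _) _ (h.shift H hp.memH _) (fun k => z (k + n j) - z (n j)) (fun k => b (k + n j) - b (n j))
      (Set.Ici (-(n j : ℤ))) (dev r F H (z (n j)) (b (n j))) (fun k => ε j * min |(k : ℝ)| (n j)) (hp.chain.shift _) (by simp)
      (by simp) Set.ordConnected_Ici (hs j) hmono hT ?_ ?_
    · intro k hk
      rw [hdev]
      rcases le_total |(k : ℝ)| (n j) with hkn | hkn
      · rw [min_eq_left hkn]
        obtain ⟨i, hi⟩ := Int.eq_ofNat_of_zero_le (a := k + n j) (by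
          rw [Set.mem_Ici] at hk
          linarith)
        have a1 := h2 j i
        have a2 : (i : ℝ) - n j = k := by
          have a3 : ((k + n j : ℤ) : ℝ) = ((i : ℤ) : ℝ) := by rw [hi]
          push_cast at a3
          linarith
        rw [a2] at a1
        rw [hi]
        exact a1
      · rw [min_eq_right hkn]
        refine le_trans ?_ (hs1 j)
        have hk' : k + n j ∈ Set.Ici (0 : ℤ) := by
          rw [Set.mem_Ici] at hk ⊢
          linarith
        exact (hp.track.le _ hk').trans he1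
    · intro k hk
      have a1 : (n j : ℝ) ≤ |(k : ℝ)| := by
        rw [Set.mem_Ici, not_le] at hk
        have a2 : (k : ℝ) < -(n j : ℝ) := by exact_mod_cast hk
        have a3 := neg_le_abs (k : ℝ)
        linarith
      change 1 ≤ _ * Real.exp (ε j * min |(k : ℝ)| (n j))
      rw [min_eq_right a1]
      exact hs1 j
  · -- the minimality
    intro j b' hb'
    have a1 := hp.track.min (n j) (Int.natCast_nonneg _) (b' + b (n j)) (by rwa [add_sub_cancel_right])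
    have a2 : dev r (sh (z (n j)) F) (sh (z (n j) + b (n j)) H) 0 b' = dev r F H (z (n j)) (b' + b (n j)) := by
      rw [dev_sh', zero_add]
    change dev r F H (z (n j)) (b (n j)) / 2 ≤ dev r (sh (z (n j)) F) (sh (z (n j) + b (n j)) H) 0 b'
    rw [a2]
    have a3 := hs j
    linarith

end Pool.Agent.SR3.G

end
end

section

/-!
# SR3 G Per: the main theorem of block G
-/

set_option autoImplicit false
set_option linter.unusedSectionVars false

open Topology Filter Metric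

noncomputable section

namespace Pool.Agent.SR3.G

variable {V : Type} [NormedAddCommGroup V] [NormedSpace ℂ V] [CompleteSpace V] {KK : Set (ℂ → V)} {M γ L r b₀ c₁ C₂ ε₀ : ℝ}

/-- there are no asymptotic pairs -/
theorem not_asym (h : Sys KK M γ) (hc : Cst KK M L r b₀ c₁ C₂) (hr : Rigid KK M L r γ) (hl : LogI KK M L r) (he : Expa KK M L r b₀ c₁ ε₀)
    {F H : ℂ → V} {z b : ℤ → ℂ} (hp : Asym KK M L r b₀ ε₀ F H z b) : False := by
  have h0 := tendsto_zero h hc he hp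
  have h1 : ∀ k : ℕ, 0 < dev r F H (z k) (b k) := fun k => hp.pos k (Int.natCast_nonneg k)
  have h2 : ∀ k : ℕ, dev r F H (z k) (b k) ≤ ε₀ := fun k => hp.track.le k (Int.natCast_nonneg k)
  rcases Pool.Agent.SDR.decay_or_good h1 h2 with ⟨c, hc0, h3⟩ | ⟨n, ε, hn, hε, -, hεn, h3⟩
  · exact not_fast h hc hl hp he.le hc0 h3
  · exact not_slow h hc hr hp he.le h0 hn hε hεn (fun j => (h3 j).1) fun j => (h3 j).2

/-- **Main theorem of block G.** -/
theorem exists_periodic (h : Sys KK M γ) (hr : ∀ L : ℝ, ∃ r₀ : ℝ, ∀ r ≥ r₀, Rigid KK M L r γ)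
    (hl : ∀ L : ℝ, ∃ r₀ : ℝ, ∀ r ≥ r₀, LogI KK M L r ∧ LogI (ng '' KK) M L r) : ∃ F ∈ KK, ∃ ω : ℂ, ω ≠ 0 ∧ ∀ z, F (z + ω) = F z := by
  by_contra hno
  have hp : NoPer KK := by
    intro F hF ω hω
    by_contra h0
    exact hno ⟨F, hF, ω, h0, hω⟩
  obtain ⟨L, hL, hch⟩ := exists_chain h
  obtain ⟨r₀, h1⟩ := hr L
  obtain ⟨r₁, h2⟩ := hl L
  set r : ℝ := max (max r₀ r₁) (L + 1) with hrd
  have hR := h1 r ((le_max_left _ _).trans (le_max_left _ _))
  obtain ⟨hl1, hl2⟩ := h2 r ((le_max_right _ _).trans (le_max_left _ _))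
  obtain ⟨b₀, c₁, C₂, hc⟩ := exists_cst (r := r) h hL (le_max_right _ _) hch
  obtain ⟨ε₀, he⟩ := exists_expa h hc hR
  rcases exists_asym h hc he hp with ⟨F, H, z, b, ha⟩ | ⟨F, H, z, b, ha⟩
  · exact not_asym h hc hR hl1 he ha
  · exact not_asym h.neg hc.neg hR.neg hl2 he.neg ha

end Pool.Agent.SR3.G

end
end

section

/-!
# SR3 Per (module H13): a periodic curve of exponential type is algebraic (helper92)
-/

set_option autoImplicit false

open Topology Filter Metric MvPolynomial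

noncomputable section

namespace Pool.Agent.SR3

open Pool.Agent.H36.BP (EN)
open Pool.Agent.H17EF (coneE)
open Pool.Agent.H17LG.Variety (FunField)
open Pool.Agent.H62.FC (Homog)

variable {N : ℕ} {P : Ideal (MvPolynomial (Fin (N + 1)) ℂ)}

theorem periodic_degenerate [P.IsPrime] {z : Fin 2 → FunField P} (hP : Homog P) (hz : IsTranscendenceBasis ℂ z) {F : ℂ → EN N}
    (hF : Differentiable ℂ F) (hX : ∀ z, F z ∈ coneE P) {ω : ℂ} (hω : ω ≠ 0) (hper : ∀ z, F (z + ω) = F z)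
    (hg : ∃ B : ℝ, ∀ z, Real.log ‖F z‖ ≤ B * (1 + ‖z‖)) :
    ∃ (R : MvPolynomial (Fin (N + 1)) ℂ) (D : ℕ), R.IsHomogeneous D ∧ R ∉ P ∧ ∀ z, eval (F z).ofLp R = 0 :=
  G.per_degenerate hP ⟨z, hz⟩ hF hX hω hper hg

end Pool.Agent.SR3

end
end

section

/-!
# SR3 Tm1: tame curves

A curve of tame length: the metric is bounded by a multiple of the length, and there are no good points near infinity.
-/

set_option autoImplicit false

open Topology Filter Metric

noncomputable section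

namespace Pool.Agent.SR3

open Pool.Agent.H36.BP (EN fs wd Sub OrdTwo)
open Pool.Agent.H14.PP (IsCone Tan)
open Pool.Agent.SY (Ent)
open Pool.Agent.SDA (EnergyK Near AffOpen Nm nForms Tame compactness)

variable {N : ℕ} {G : Geo N} {T : Set (EN N)} {rho : EN N → ℝ} {M : ℕ} {c₀ C δ : ℝ} {g : (ℂ → EN N) → ℂ → ℝ}

/-- MODULE Z6 (Tm1.lean): compare `SDA/T1.lean` -/
theorem tame_bound (hG : G.Ok) (hM : G.Met T rho M c₀ C δ g) {F : ℂ → EN N} (hF : Ent G.K T F) (hN : ∀ z, G.p (F z) = 1)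
    (ht : Tame fun z => G.n (F z) (deriv F z)) : ∃ C₂ : ℝ, 0 < C₂ ∧ ∀ᶠ z in cocompact ℂ, g F z ≤ C₂ * G.n (F z) (deriv F z) := by
  obtain ⟨C₁, hC₁, hb⟩ := bound_local hG hM
  refine ⟨2 * C₁, by positivity, ?_⟩
  filter_upwards [ht.1.eventually_gt_atTop 0, ht.2.2 1 1 one_pos] with z hz0 hz
  obtain ⟨μ, hμ⟩ : ∃ μ : ℂ → ℝ, μ = fun z => G.n (F z) (deriv F z) := ⟨_, rfl⟩
  have hμz : G.n (F z) (deriv F z) = μ z := by rw [hμ]
  have hz0' : 0 < μ z := by rw [← hμz]; exact hz0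
  obtain ⟨t, ht'⟩ : ∃ t : ℝ, t = (2 * μ z)⁻¹ := ⟨_, rfl⟩
  have ht0 : 0 < t := by rw [ht']; positivity
  have hat : (t : ℂ) ≠ 0 := by exact_mod_cast ht0.ne'
  have h1 := hb (fun w => F ((t : ℂ) * w + z)) (ent_comp hF hat z) fun w hw => by
    rw [n_aff hG hF.diff hF.mem (t : ℂ) z w, Complex.norm_real, Real.norm_of_nonneg ht0.le]
    have hw' : ‖w‖ < 1 := by rwa [mem_ball, dist_zero_right] at hw
    have h3 := hz (w / 2) (by rw [norm_div, Complex.norm_ofNat]; linarith)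
    have h4 : z + w / 2 / ((G.n (F z) (deriv F z) : ℝ) : ℂ) = (t : ℂ) * w + z := by
      rw [hμz, ht', Complex.ofReal_inv, Complex.ofReal_mul]
      have : (μ z : ℂ) ≠ 0 := by exact_mod_cast hz0'.ne'
      push_cast
      field_simp
      ring
    rw [h4, hμz] at h3
    have h5 := (abs_le.1 h3).2
    have h6 : G.n (F ((t : ℂ) * w + z)) (deriv F ((t : ℂ) * w + z)) / μ z ≤ 2 := by linarith
    rw [div_le_iff₀ hz0'] at h6
    rw [ht'] at h6
    rw [ht', inv_mul_le_iff₀ (by positivity)]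
    linarith
  rw [hM.en.aff F hF (t : ℂ) z hat 0, mul_zero, zero_add, Complex.norm_real, Real.norm_of_nonneg ht0.le, ht',
    inv_mul_le_iff₀ (by positivity)] at h1
  rw [hμz]
  linarith

/-- MODULE Z6 (Tm1.lean): compare `SDA/T1.lean` -/
theorem tame_bad (hG : G.Ok) (hM : G.Met T rho M c₀ C δ g) (hno : ∀ (q : G.J → ℂ) (F : ℂ → EN N), ¬ G.Cl T q F) {F : ℂ → EN N} (hF : Ent G.K T F)
    (hN : ∀ z, G.p (F z) = 1) (ht : Tame fun z => G.n (F z) (deriv F z)) : ∀ᶠ z in cocompact ℂ, rho (F z) < δ := by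
  by_contra hcon
  rw [not_eventually] at hcon
  obtain ⟨C₂, hC₂, hg⟩ := tame_bound hG hM hF hN ht
  obtain ⟨d₁, C₃, hd₁, hthick, -⟩ := thick hG hM hM.pos
  obtain ⟨μ, hμ⟩ : ∃ μ : ℂ → ℝ, μ = fun z => G.n (F z) (deriv F z) := ⟨_, rfl⟩
  have hμz : ∀ z, G.n (F z) (deriv F z) = μ z := by intro z; rw [hμ]
  -- the points
  have hex : ∀ k : ℕ, ∃ z : ℂ, δ ≤ rho (F z) ∧ 1 ≤ μ z ∧
      (∀ w : ℂ, ‖w‖ ≤ k + 1 → |μ (z + w / (μ z : ℂ)) / μ z - 1| ≤ 1 / ((k : ℝ) + 1)) ∧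
      ∀ w : ℂ, ‖w‖ ≤ k + 1 → g F (z + w / (μ z : ℂ)) ≤ C₂ * μ (z + w / (μ z : ℂ)) := by
    intro k
    obtain ⟨r, hr⟩ : ∃ r : ℝ, ∀ z : ℂ, r ≤ ‖z‖ → g F z ≤ C₂ * G.n (F z) (deriv F z) := by
      rw [← Metric.cobounded_eq_cocompact, ← comap_norm_atTop, eventually_comap, eventually_atTop] at hg
      obtain ⟨r, hr⟩ := hg
      exact ⟨r, fun z hz => hr _ hz z rfl⟩
    have h1 : ∀ᶠ z : ℂ in cocompact ℂ, r + k + 1 ≤ ‖z‖ := (tendsto_norm_cocompact_atTop (E := ℂ)).eventually_ge_atTop _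
    obtain ⟨z, hz, hz1, hz2, hz3⟩ := (hcon.and_eventually (h1.and ((ht.1.eventually_ge_atTop 1).and
      (ht.2.2 (k + 1) (1 / ((k : ℝ) + 1)) (by positivity))))).exists
    simp only [hμz] at hz2 hz3
    refine ⟨z, not_lt.1 hz, hz2, hz3, fun w hw => ?_⟩
    have h2 : ‖w / (μ z : ℂ)‖ ≤ k + 1 := by
      rw [norm_div, Complex.norm_real, Real.norm_of_nonneg (by linarith)]
      exact (div_le_self (norm_nonneg _) hz2).trans hw
    have h3 : r ≤ ‖z + w / (μ z : ℂ)‖ := by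
      have := norm_sub_le_norm_add z (w / (μ z : ℂ))
      linarith
    have h4 := hr _ h3
    rwa [hμz] at h4
  choose z hz hz1 hz2 hz3 using hex
  obtain ⟨E, hE⟩ : ∃ E : ℕ → ℂ → EN N, E = fun k w => F (((μ (z k))⁻¹ : ℝ) * w + z k) := ⟨_, rfl⟩
  have hpos : ∀ k, 0 < (μ (z k))⁻¹ := fun k => inv_pos.2 (by linarith [hz1 k])
  have hne : ∀ k, (((μ (z k))⁻¹ : ℝ) : ℂ) ≠ 0 := fun k => by exact_mod_cast (hpos k).ne'
  have harg : ∀ (k : ℕ) (w : ℂ), (((μ (z k))⁻¹ : ℝ) : ℂ) * w + z k = z k + w / (μ (z k) : ℂ) := by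
    intro k w
    rw [Complex.ofReal_inv, div_eq_mul_inv]
    ring
  have hEE : ∀ k, Ent G.K T (E k) := by
    intro k
    rw [hE]
    exact ent_comp hF (hne k) (z k)
  have hEN : ∀ k z, G.p (E k z) = 1 := by
    intro k w
    rw [hE]
    exact hN _
  have hEn : ∀ k w, G.n (E k w) (deriv (E k) w) = μ (z k + w / (μ (z k) : ℂ)) / μ (z k) := by
    intro k w
    have h1 := n_aff hG hF.diff hF.mem (((μ (z k))⁻¹ : ℝ) : ℂ) (z k) w
    rw [Complex.norm_real, Real.norm_of_nonneg (hpos k).le, hμz, harg] at h1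
    rw [hE]
    simp only [harg] at h1 ⊢
    rw [h1]
    ring
  have hEg : ∀ k w, g (E k) w = (μ (z k))⁻¹ * g F (z k + w / (μ (z k) : ℂ)) := by
    intro k w
    have h1 := hM.en.aff F hF (((μ (z k))⁻¹ : ℝ) : ℂ) (z k) (hne k) w
    rw [Complex.norm_real, Real.norm_of_nonneg (hpos k).le, harg] at h1
    rw [hE]
    exact h1
  have hEA : ∀ k : ℕ, ∀ w ∈ ball (0 : ℂ) (k + 1), g (E k) w ≤ 2 * C₂ := by
    intro k w hw
    have hw' : ‖w‖ ≤ k + 1 := by
      rw [mem_ball, dist_zero_right] at hw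
      exact hw.le
    have h1 := hz3 k w hw'
    have h2 := (abs_le.1 (hz2 k w hw')).2
    have h3 : (1 : ℝ) / ((k : ℝ) + 1) ≤ 1 := by
      rw [div_le_one (by positivity)]
      have : (0 : ℝ) ≤ k := Nat.cast_nonneg k
      linarith
    have h4 : μ (z k + w / (μ (z k) : ℂ)) / μ (z k) ≤ 2 := by linarith
    rw [hEg]
    calc (μ (z k))⁻¹ * g F (z k + w / (μ (z k) : ℂ)) ≤ (μ (z k))⁻¹ * (C₂ * μ (z k + w / (μ (z k) : ℂ))) :=
          mul_le_mul_of_nonneg_left h1 (hpos k).le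
      _ = C₂ * (μ (z k + w / (μ (z k) : ℂ)) / μ (z k)) := by rw [div_eq_mul_inv]; ring
      _ ≤ C₂ * 2 := mul_le_mul_of_nonneg_left h4 hC₂.le
      _ = 2 * C₂ := by ring
  have hE0 : ∀ k, d₁ ≤ g (E k) 0 := by
    intro k
    refine hthick (E k) (hEE k) 0 ?_ ?_
    · rw [hE]
      simpa using hz k
    · rw [hEn]
      simp only [zero_div, add_zero]
      rw [div_self (by linarith [hz1 k] : μ (z k) ≠ 0)]
  -- the limit
  have h𝒰 : ((hyperfilter ℕ : Ultrafilter ℕ) : Filter ℕ) ≤ atTop := by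
    rw [← Nat.cofinite_eq_atTop]
    exact hyperfilter_le_cofinite
  obtain ⟨H, hHE, hHN, -, -, hHc⟩ := compactness (setup_fs hG hM) (hyperfilter ℕ) h𝒰 E hEE (fun k => nm_iff.2 (hEN k)) hd₁ hEA hE0
  obtain ⟨q, hq⟩ := cl_of_n hG hHE (nm_iff.1 hHN) fun w => by
    have h1 := n_tendsto hG (Eventually.of_forall fun k => ⟨(hEE k).diff, (hEE k).mem⟩) hHE.diff hHE.mem hHc w
    have h2 : Tendsto (fun k : ℕ => G.n (E k w) (deriv (E k) w)) atTop (𝓝 1) := by
      rw [tendsto_iff_dist_tendsto_zero]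
      refine squeeze_zero' (Eventually.of_forall fun k => dist_nonneg) ?_ (tendsto_one_div_add_atTop_nhds_zero_nat (𝕜 := ℝ))
      filter_upwards [eventually_ge_atTop ⌈‖w‖⌉₊] with k hk
      rw [Real.dist_eq, hEn]
      refine hz2 k w ?_
      have h3 : ‖w‖ ≤ (k : ℝ) := (Nat.le_ceil _).trans (by exact_mod_cast hk)
      linarith
    exact tendsto_nhds_unique h1 (h2.mono_left h𝒰)
  exact hno q H hq

end Pool.Agent.SR3

end
end

section

/-!
# SR3 Tm2: there are no tame curves (module Z7)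

The port of `SDA/T2`.  Near infinity the metric has no curvature error and is bounded by a power of `|z|`.  Harnack's inequality on discs of radius `R`
which are tangent to a fixed disc gives `log |F| ≤ B R` there, and the length is large: this contradicts `lprime`.
-/

set_option autoImplicit false

open Topology Filter Metric

noncomputable section

namespace Pool.Agent.SR3

open Pool.Agent.H36.BP (EN fs wd Sub OrdTwo)
open Pool.Agent.H14.PP (IsCone Tan)
open Pool.Agent.SY (Ent)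
open Pool.Agent.SDA (EnergyK Near AffOpen Nm nForms Tame)

variable {N : ℕ} {G : Geo N} {T : Set (EN N)} {rho : EN N → ℝ} {M : ℕ} {c₀ C δ : ℝ} {g : (ℂ → EN N) → ℂ → ℝ}

/-- the length of a radial vector -/
private theorem Tm2_self (hG : G.Ok) {x : EN N} (hx : x ∈ G.K) (a : ℂ) : G.n x (a • x) = 0 := by
  have h0 : Tan G.X x 0 := by
    refine ⟨fun _ => x, ⟨analyticAt_const, Eventually.of_forall fun _ => KX hG hx⟩, rfl, ?_⟩
    simp
  have h1 : ∀ j, G.w j x (a • x) = 0 := by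
    intro j
    have h2 := hG.w_inv j x hx 0 h0 1 a one_ne_zero
    rw [one_smul, smul_zero, zero_add] at h2
    have h3 := hG.w_hom j x hx 0 h0 0
    rw [smul_zero, zero_pow (by have := hG.one_m j; omega), zero_mul] at h3
    rw [h2, h3]
  show ∑ j, ‖G.w j x (a • x)‖ ^ ((G.m j : ℝ)⁻¹) = 0
  refine Finset.sum_eq_zero fun j _ => ?_
  rw [h1, norm_zero, Real.zero_rpow]
  have : (0 : ℝ) < G.m j := by
    have := hG.one_m j
    exact_mod_cast this
  exact (inv_pos.2 this).ne'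

/-- the eventual statements near infinity hold outside a disc -/
private theorem Tm2_out {p : ℂ → Prop} (h : ∀ᶠ z in cocompact ℂ, p z) : ∃ r : ℝ, ∀ z : ℂ, r ≤ ‖z‖ → p z := by
  obtain ⟨r, hr⟩ := (hasBasis_cobounded_norm (E := ℂ)).eventually_iff.1 (Metric.cobounded_eq_cocompact (α := ℂ) ▸ h)
  exact ⟨r, fun z hz => hr.2 hz⟩

/-- the metric is positive at some points near infinity -/
private theorem Tm2_pos (hG : G.Ok) (hM : G.Met T rho M c₀ C δ g) {F : ℂ → EN N} (hF : Ent G.K T F) {r : ℝ}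
    (hr : ∀ z : ℂ, r ≤ ‖z‖ → 0 < G.n (F z) (deriv F z)) : ∃ z : ℂ, r ≤ ‖z‖ ∧ 1 < ‖z‖ ∧ 0 < g F z := by
  have hKX : ∀ {x : EN N}, x ∈ G.K → x ∈ G.X := fun hx => KX hG hx
  obtain ⟨s, hs⟩ : ∃ s : ℝ, s = |r| + 2 := ⟨_, rfl⟩
  have hs0 : 0 < s := by
    rw [hs]
    positivity
  have hns : ‖(s : ℂ)‖ = s := by rw [Complex.norm_real, Real.norm_of_nonneg hs0.le]
  have h1 := hM.Ti F hF.diff (fun z => hKX (hF.mem z)) hF.out (s : ℂ)
  have h2 : ∀ᶠ z in 𝓝[≠] (s : ℂ), |r| + 1 < ‖z‖ := by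
    refine Filter.Eventually.filter_mono nhdsWithin_le_nhds ?_
    refine continuous_norm.continuousAt.eventually (lt_mem_nhds ?_)
    show |r| + 1 < ‖(s : ℂ)‖
    rw [hns, hs]
    linarith
  obtain ⟨z, hz1, hz2⟩ := (h1.and h2).exists
  have hrz : r ≤ ‖z‖ := by
    have := le_abs_self r
    linarith
  refine ⟨z, hrz, by have := abs_nonneg r; linarith, ?_⟩
  have hX := hKX (hF.mem z)
  have hrho : 0 < rho (F z) := lt_of_le_of_ne (hM.rho0 _ hX) fun h => hz1 ((hM.rhoT _ hX).1 h.symm)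
  obtain ⟨a, ha⟩ := hM.en.lower F hF z
  rcases (hM.en.nonneg F hF z).lt_or_eq with h | h
  · exact h
  · exfalso
    rw [← h, mul_zero] at ha
    have h4 : ‖deriv F z - a • F z‖ = 0 := by
      have h5 : 0 < rho (F z) ^ M := pow_pos hrho M
      by_contra h6
      have h7 : 0 < ‖deriv F z - a • F z‖ := lt_of_le_of_ne (norm_nonneg _) (Ne.symm h6)
      exact absurd ha (not_le.2 (mul_pos h5 h7))
    have h5 : deriv F z = a • F z := sub_eq_zero.1 (norm_eq_zero.1 h4)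
    have h6 := hr z hrz
    rw [h5, Tm2_self hG (hF.mem z)] at h6
    exact lt_irrefl _ h6

/-- Harnack's inequality on the discs near infinity -/
private theorem Tm2_harnack (hG : G.Ok) (hM : G.Met T rho M c₀ C δ g) {F : ℂ → EN N} (hF : Ent G.K T F) (hN : Nm G.P F) {r A : ℝ} {k : ℕ} (hA : 0 < A) (hbad : ∀ z : ℂ, r ≤ ‖z‖ → rho (F z) < δ)
    (hg : ∀ z : ℂ, r ≤ ‖z‖ → g F z ≤ A * ‖z‖ ^ k) {z₁ : ℂ} (hz₁ : r ≤ ‖z₁‖ - 1) (hz₁' : 1 < ‖z₁‖) (hpos : 0 < g F z₁) :
    ∃ B : ℝ, 0 ≤ B ∧ ∀ R : ℝ, 1 ≤ R → ∀ z ∈ closedBall (z₁ + ((R - 1 : ℝ) : ℂ) * (z₁ / (‖z₁‖ : ℂ))) (R / 2), Real.log ‖F z‖ ≤ B * R := by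
  have hc₀ := hM.en.c₀_pos
  have hnear := hM.near
  obtain ⟨c, hc, hc1, hlow⟩ := Pool.Agent.SDA.norm_lower hG.aff
  have hlow' : ∀ z, c ≤ ‖F z‖ := fun z => hlow _ (hN z)
  have hFpos : ∀ z, 0 < ‖F z‖ := fun z => hc.trans_le (hlow' z)
  have hcc : (c : ℂ) ≠ 0 := by exact_mod_cast hc.ne'
  have hnF : ∀ z, ‖(c : ℂ)⁻¹ • F z‖ = c⁻¹ * ‖F z‖ := fun z => by
    rw [norm_smul, norm_inv, Complex.norm_real, Real.norm_of_nonneg hc.le]
  have hpw : ∀ z, ‖(c : ℂ)⁻¹ • F z‖ ^ (-c₀) = c ^ c₀ * ‖F z‖ ^ (-c₀) := fun z => by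
    rw [hnF, Real.mul_rpow (inv_nonneg.2 hc.le) (norm_nonneg _), Real.inv_rpow hc.le, Real.rpow_neg hc.le, inv_inv]
  have hcp : 0 < c ^ c₀ := Real.rpow_pos_of_pos hc _
  have hcontF : Continuous F := hF.diff.continuous
  have hrc : Continuous fun z => ‖F z‖ ^ (-c₀) := hcontF.norm.rpow_const fun z => Or.inl (hFpos z).ne'
  have hdF : Differentiable ℂ (fun z => (c : ℂ)⁻¹ • F z) := hF.diff.const_smul ((c : ℂ)⁻¹)
  obtain ⟨v, hv⟩ : ∃ v : ℂ → ℝ, v = fun z => g F z * (c ^ c₀ * ‖F z‖ ^ (-c₀) * ‖(z ^ k)⁻¹‖) := ⟨_, rfl⟩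
  have hn1 : 0 < ‖z₁‖ := by linarith
  have hz₁0 : z₁ ≠ 0 := norm_pos_iff.1 hn1
  have hv₁ : 0 < v z₁ := by
    rw [hv]
    refine mul_pos hpos (mul_pos (mul_pos hcp (Real.rpow_pos_of_pos (hFpos _) _)) (norm_pos_iff.2 (inv_ne_zero (pow_ne_zero _ hz₁0))))
  obtain ⟨b, hb⟩ : ∃ b : ℝ, b = -Real.log (v z₁) := ⟨_, rfl⟩
  refine ⟨6 * |Real.log A + b| / c₀, by positivity, fun R hR z hz => ?_⟩
  have hR0 : 0 < R := by linarith
  set cc : ℂ := z₁ + ((R - 1 : ℝ) : ℂ) * (z₁ / (‖z₁‖ : ℂ)) with hcdef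
  have hnc : (‖z₁‖ : ℂ) ≠ 0 := by exact_mod_cast hn1.ne'
  have hun : ‖z₁ / (‖z₁‖ : ℂ)‖ = 1 := by
    rw [norm_div, Complex.norm_real, Real.norm_of_nonneg hn1.le]
    exact div_self hn1.ne'
  have hdist : ‖z₁ - cc‖ = R - 1 := by
    have h1 : z₁ - cc = -(((R - 1 : ℝ) : ℂ) * (z₁ / (‖z₁‖ : ℂ))) := by rw [hcdef]; ring
    rw [h1, norm_neg, norm_mul, hun, mul_one, Complex.norm_real, Real.norm_of_nonneg (by linarith)]
  have hncc : ‖cc‖ = ‖z₁‖ + (R - 1) := by
    have h1 : cc = ((‖z₁‖ + (R - 1) : ℝ) : ℂ) * (z₁ / (‖z₁‖ : ℂ)) := by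
      rw [hcdef]
      push_cast
      field_simp
    rw [h1, norm_mul, hun, mul_one, Complex.norm_real, Real.norm_of_nonneg (by linarith)]
  have hout : ∀ w ∈ closedBall cc R, ‖z₁‖ - 1 ≤ ‖w‖ := by
    intro w hw
    have h1 : ‖w - cc‖ ≤ R := by rwa [mem_closedBall, dist_eq_norm] at hw
    have h2 : ‖cc‖ ≤ ‖w‖ + ‖w - cc‖ := by
      have h3 : cc = w - (w - cc) := by ring
      calc ‖cc‖ = ‖w - (w - cc)‖ := by rw [← h3]
        _ ≤ ‖w‖ + ‖w - cc‖ := norm_sub_le _ _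
    rw [hncc] at h2
    linarith
  have hw0 : ∀ w ∈ closedBall cc R, w ≠ 0 := by
    intro w hw h
    have h1 := hout w hw
    rw [h, norm_zero] at h1
    linarith
  have hrad : 2 * R - 1 = (R + ‖z₁ - cc‖) / (R - ‖z₁ - cc‖) := by
    rw [hdist]
    rw [eq_div_iff (by norm_num)]
    ring
  have key := Pool.Agent.SDA.harnack (c := cc) (z₀ := z₁) (R := R) (a := Real.log A) (b := b) hc₀
    (by
      rw [mem_ball, dist_eq_norm, hdist]
      linarith) (F := fun z => (c : ℂ)⁻¹ • F z) hdF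
    (fun z => by
      rw [hnF, inv_mul_eq_div, one_le_div hc]
      exact hlow' z)
    (v := v)
    (by
      intro x hx y hy
      have hx0 := hw0 x hx
      set h : ℂ → ℝ := fun z => c ^ c₀ * ‖F z‖ ^ (-c₀) * ‖(z ^ k)⁻¹‖ with hh
      have hhx : 0 < h x := mul_pos (mul_pos hcp (Real.rpow_pos_of_pos (hFpos _) _)) (norm_pos_iff.2 (inv_ne_zero (pow_ne_zero _ hx0)))
      have hhc : ContinuousAt h x := by
        refine (continuousAt_const.mul hrc.continuousAt).mul ?_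
        exact (((continuous_pow k).continuousAt).inv₀ (pow_ne_zero _ hx0)).norm
      rw [hv] at hy ⊢
      have h1 : g F x < y / h x := (lt_div_iff₀ hhx).2 hy
      obtain ⟨a, ha1, ha2⟩ := exists_between h1
      have h2 : a * h x < y := (lt_div_iff₀ hhx).1 ha2
      have h3 : ∀ᶠ z in 𝓝 x, a * h z < y := ((continuousAt_const.mul hhc).tendsto).eventually (gt_mem_nhds h2)
      have h4 : ∀ᶠ z in 𝓝 x, 0 < h z := hhc.eventually (lt_mem_nhds hhx)
      refine Filter.Eventually.filter_mono nhdsWithin_le_nhds ?_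
      filter_upwards [hM.en.usc F hF x a ha1, h3, h4] with z hz1 hz2 hz3
      exact (mul_lt_mul_of_pos_right hz1 hz3).trans hz2)
    (fun z hz => by
      rw [hv]
      exact mul_nonneg (hM.en.nonneg F hF z) (mul_nonneg (mul_nonneg hcp.le (Real.rpow_nonneg (norm_nonneg _) _)) (norm_nonneg _)))
    (by
      intro z hz hz0
      have hzc := ball_subset_closedBall hz
      have hq : 0 < c ^ c₀ * ‖F z‖ ^ (-c₀) * ‖(z ^ k)⁻¹‖ :=
        mul_pos (mul_pos hcp (Real.rpow_pos_of_pos (hFpos z) _)) (norm_pos_iff.2 (inv_ne_zero (pow_ne_zero _ (hw0 z hzc))))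
      rw [hv] at hz0
      have hg0 : 0 < g F z := by
        by_contra h3
        exact absurd hz0 (not_lt.2 (mul_nonpos_of_nonpos_of_nonneg (not_lt.1 h3) hq.le))
      have hs1 := (hnear F hF z (hbad z (hz₁.trans (hout z hzc))) hg0).const_mul hcp
      have hs2 : Sub (fun w : ℂ => ‖(w ^ k)⁻¹‖) z 0 :=
        Sub.of_holo ((analyticAt_id.pow k).inv (pow_ne_zero _ (hw0 z hzc))) (inv_ne_zero (pow_ne_zero _ (hw0 z hzc)))
      have hs3 := hs1.mul hs2
      rw [add_zero] at hs3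
      rw [hv]
      refine hs3.congr (Eventually.of_forall fun w => ?_)
      show c ^ c₀ * (g F w * ‖F w‖ ^ (-c₀)) * ‖(w ^ k)⁻¹‖ = g F w * (c ^ c₀ * ‖F w‖ ^ (-c₀) * ‖(w ^ k)⁻¹‖)
      ring)
    (by
      intro z hz
      rw [hv, hpw, Real.exp_log hA]
      show g F z * (c ^ c₀ * ‖F z‖ ^ (-c₀) * ‖(z ^ k)⁻¹‖) ≤ _
      have h1 := hg z (hz₁.trans (hout z hz))
      have h2 : 0 < ‖z‖ ^ k := pow_pos (norm_pos_iff.2 (hw0 z hz)) _
      have h4 : 0 ≤ c ^ c₀ * ‖F z‖ ^ (-c₀) := mul_nonneg hcp.le (Real.rpow_nonneg (norm_nonneg _) _)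
      rw [norm_inv, norm_pow]
      calc g F z * (c ^ c₀ * ‖F z‖ ^ (-c₀) * (‖z‖ ^ k)⁻¹) ≤ A * ‖z‖ ^ k * (c ^ c₀ * ‖F z‖ ^ (-c₀) * (‖z‖ ^ k)⁻¹) :=
            mul_le_mul_of_nonneg_right h1 (mul_nonneg h4 (inv_nonneg.2 h2.le))
        _ = A * (c ^ c₀ * ‖F z‖ ^ (-c₀)) := by
          field_simp)
    (by
      rw [hb, neg_neg, Real.exp_log hv₁])
  have h1 := key z hz
  rw [← hrad, hnF, Real.log_mul (inv_ne_zero hc.ne') (hFpos z).ne', Real.log_inv] at h1
  have h2 : Real.log c ≤ 0 := Real.log_nonpos hc.le hc1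
  have h3 : Real.log A + b ≤ |Real.log A + b| := le_abs_self _
  have h4 : 0 ≤ |Real.log A + b| := abs_nonneg _
  rw [div_mul_eq_mul_div, le_div_iff₀ hc₀]
  nlinarith [mul_nonneg hc₀.le (neg_nonneg.2 h2), mul_nonneg h4 hR0.le, mul_le_mul_of_nonneg_left h3 (by linarith : (0 : ℝ) ≤ 3 * (2 * R - 1))]

/-- **Z7**: there are no tame curves -/
theorem not_tame (hG : G.Ok) (hM : G.Met T rho M c₀ C δ g) (hno : ∀ (q : G.J → ℂ) (F : ℂ → EN N), ¬ G.Cl T q F) {F : ℂ → EN N} (hF : Ent G.K T F)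
    (hN : ∀ z, G.p (F z) = 1) : ¬ Tame fun z => G.n (F z) (deriv F z) := by
  intro ht
  obtain ⟨C₂, hC₂, hb⟩ := tame_bound hG hM hF hN ht
  obtain ⟨r₁, hr₁⟩ := Tm2_out hb
  obtain ⟨r₂, hr₂⟩ := Tm2_out (tame_bad hG hM hno hF hN ht)
  obtain ⟨r₃, hr₃⟩ := Tm2_out (ht.1.eventually_gt_atTop 0)
  obtain ⟨C₃, k, hC₃⟩ := ht.2.1
  obtain ⟨r, hr⟩ : ∃ r : ℝ, r = max (max r₁ r₂) (max r₃ 1) := ⟨_, rfl⟩
  have hrr₁ : r₁ ≤ r := by rw [hr]; exact (le_max_left _ _).trans (le_max_left _ _)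
  have hrr₂ : r₂ ≤ r := by rw [hr]; exact (le_max_right _ _).trans (le_max_left _ _)
  have hrr₃ : r₃ ≤ r := by rw [hr]; exact (le_max_left _ _).trans (le_max_right _ _)
  have hr1 : 1 ≤ r := by rw [hr]; exact (le_max_right _ _).trans (le_max_right _ _)
  obtain ⟨z₁, hz₁, hz₁', hpos⟩ := Tm2_pos hG hM hF (r := r + 1) (fun z hz => hr₃ z (by linarith))
  have hg : ∀ z : ℂ, r ≤ ‖z‖ → g F z ≤ (C₂ * (|C₃| + 1) * 2 ^ k) * ‖z‖ ^ k := by
    intro z hz
    have h1 := hr₁ z (hrr₁.trans hz)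
    have h2 : G.n (F z) (deriv F z) ≤ C₃ * (1 + ‖z‖) ^ k := hC₃ z
    have h3 : (1 + ‖z‖) ^ k ≤ (2 * ‖z‖) ^ k := pow_le_pow_left₀ (by positivity) (by linarith) k
    have h4 : C₃ * (1 + ‖z‖) ^ k ≤ (|C₃| + 1) * (2 * ‖z‖) ^ k :=
      mul_le_mul (by have := le_abs_self C₃; linarith) h3 (by positivity) (by positivity)
    calc g F z ≤ C₂ * G.n (F z) (deriv F z) := h1
      _ ≤ C₂ * ((|C₃| + 1) * (2 * ‖z‖) ^ k) := mul_le_mul_of_nonneg_left (h2.trans h4) hC₂.le
      _ = (C₂ * (|C₃| + 1) * 2 ^ k) * ‖z‖ ^ k := by rw [mul_pow]; ring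
  obtain ⟨B, hB, hhar⟩ := Tm2_harnack hG hM hF (nm_iff.2 hN) (r := r) (A := C₂ * (|C₃| + 1) * 2 ^ k) (k := k) (by positivity)
    (fun z hz => hr₂ z (hrr₂.trans hz)) hg (z₁ := z₁) (by linarith) hz₁' hpos
  obtain ⟨A₀, R₀, hA₀, hR₀, hL⟩ := lprime hG
  obtain ⟨m, hm⟩ : ∃ m : ℝ, m = 2 * B / A₀ + 1 := ⟨_, rfl⟩
  have hm1 : 1 ≤ m := by
    rw [hm]
    have : 0 ≤ 2 * B / A₀ := by positivity
    linarith
  have hm0 : 0 < m := by linarith
  obtain ⟨r₄, hr₄⟩ := Tm2_out (ht.1.eventually_ge_atTop m)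
  obtain ⟨R, hR⟩ : ∃ R : ℝ, R = max 1 (max (2 * r₄) (2 * R₀)) := ⟨_, rfl⟩
  have hR1 : 1 ≤ R := by rw [hR]; exact le_max_left _ _
  have hRr : 2 * r₄ ≤ R := by rw [hR]; exact (le_max_left _ _).trans (le_max_right _ _)
  have hRR : 2 * R₀ ≤ R := by rw [hR]; exact (le_max_right _ _).trans (le_max_right _ _)
  have hn1 : 0 < ‖z₁‖ := by linarith
  obtain ⟨cc, hcc⟩ : ∃ cc : ℂ, cc = z₁ + ((R - 1 : ℝ) : ℂ) * (z₁ / (‖z₁‖ : ℂ)) := ⟨_, rfl⟩
  have hun : ‖z₁ / (‖z₁‖ : ℂ)‖ = 1 := by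
    rw [norm_div, Complex.norm_real, Real.norm_of_nonneg hn1.le]
    exact div_self hn1.ne'
  have hncc : ‖cc‖ = ‖z₁‖ + (R - 1) := by
    have hnc : (‖z₁‖ : ℂ) ≠ 0 := by exact_mod_cast hn1.ne'
    have h1 : cc = ((‖z₁‖ + (R - 1) : ℝ) : ℂ) * (z₁ / (‖z₁‖ : ℂ)) := by
      rw [hcc]
      push_cast
      field_simp
    rw [h1, norm_mul, hun, mul_one, Complex.norm_real, Real.norm_of_nonneg (by linarith)]
  have hmc : ((m⁻¹ : ℝ) : ℂ) ≠ 0 := by exact_mod_cast inv_ne_zero hm0.ne'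
  have hnm : ‖((m⁻¹ : ℝ) : ℂ)‖ = m⁻¹ := by rw [Complex.norm_real, Real.norm_of_nonneg (inv_nonneg.2 hm0.le)]
  have hin : ∀ w ∈ closedBall (0 : ℂ) (R * m / 2), ((m⁻¹ : ℝ) : ℂ) * w + cc ∈ closedBall cc (R / 2) := by
    intro w hw
    have h1 : ‖w‖ ≤ R * m / 2 := by rwa [mem_closedBall_zero_iff] at hw
    rw [mem_closedBall, dist_eq_norm, add_sub_cancel_right, norm_mul, hnm, inv_mul_le_iff₀ hm0]
    linarith
  have hRm : R₀ ≤ R * m / 2 := by nlinarith
  obtain ⟨w, hw, hw2⟩ := hL (fun w => F (((m⁻¹ : ℝ) : ℂ) * w + cc)) (hF.diff.comp ((differentiable_id.const_mul _).add_const _))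
    (fun z => hF.mem _) (fun z => hN _) 0 (R * m / 2) hRm (by
      intro w hw
      rw [n_aff hG hF.diff hF.mem, hnm]
      have h1 := hin w hw
      rw [mem_closedBall, dist_eq_norm] at h1
      have h2 : ‖cc‖ ≤ ‖((m⁻¹ : ℝ) : ℂ) * w + cc‖ + ‖((m⁻¹ : ℝ) : ℂ) * w + cc - cc‖ := by
        have h3 : cc = (((m⁻¹ : ℝ) : ℂ) * w + cc) - (((m⁻¹ : ℝ) : ℂ) * w + cc - cc) := by ring
        calc ‖cc‖ = ‖(((m⁻¹ : ℝ) : ℂ) * w + cc) - (((m⁻¹ : ℝ) : ℂ) * w + cc - cc)‖ := by rw [← h3]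
          _ ≤ _ := norm_sub_le _ _
      rw [hncc] at h2
      have h4 := hr₄ (((m⁻¹ : ℝ) : ℂ) * w + cc) (by linarith)
      rw [inv_mul_eq_div, one_le_div hm0]
      exact h4)
  have h1 := hhar R hR1 (((m⁻¹ : ℝ) : ℂ) * w + cc) (by rw [← hcc]; exact hin w hw)
  have h2 : A₀ * (R * m / 2) ≤ B * R := hw2.trans h1
  have h3 : A₀ * m = 2 * B + A₀ := by
    rw [hm]
    field_simp
  have h4 : A₀ * (R * m / 2) = R * (A₀ * m) / 2 := by ring
  rw [h4, h3] at h2
  nlinarith [mul_pos hA₀ (show 0 < R by linarith)]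

end Pool.Agent.SR3

end
end
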