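import Pool.Agent.H43.TL2.M154
import Pool.Agent.H43.TL2.M161
import Pool.Agent.H43.TL2.M163
import Pool.Agent.H43.TL2.M165
import Pool.Agent.H43.TL2.M169
import Pool.Agent.H43.TL2.M64
import Pool.Agent.H43.TL2.M74
import Pool.Agent.H43.TL2.M84

/-! The parts of this file: MQL.FinSD, SR3.ConT, SR3.OrdZ, MQL.AxLb, SR3.RsK, SR3.Rloc, SR3.Rsd. -/

section

/-!
# MQL FinSD: the curves which are tangent to a logarithmic symmetric differential
-/

set_option autoImplicit false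

open Topology Filter Metric MvPolynomial

noncomputable section

namespace Pool.Agent.MQL

open Pool.Agent.H36.BP (EN)
open Pool.Agent.H14.PP (IsCone Tan IsOpenPart)
open Pool.Agent.H14.V (IsLift)
open Pool.Agent.H17 (PN VanishesAt HolomorphicInto)
open Pool.Agent.H62.FC (Homog)
open Pool.Agent.H17LG.Variety (FunField)
open Pool.Agent.H17EF (coneE)
open Pool.Agent.H13.OT (OrderTwo)
open Pool.Agent.H22.W (tan_curve)
open Pool.Agent.H22.WL (vanishesAt_lift)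
open Pool.Agent.AD (SymDiff TangentTo)
open Pool.Agent.AD.NC (IsSmooth IsOfLogGeneralType complement)
open Pool.Agent.MQ (growth_of_orderTwo)
open Pool.Agent.MQ3
open Pool.Agent.SDA (openCone)

variable {N k : ℕ} {P : Ideal (MvPolynomial (Fin (N + 1)) ℂ)} {H : Fin k → MvPolynomial (Fin (N + 1)) ℂ} {e : Fin k → ℕ}

/-- a lift of a curve in the complement -/
theorem lift_mem (hP : Homog P) (hH : ∀ i, (H i).IsHomogeneous (e i)) {f : ℂ → PN N} (hfU : ∀ z, f z ∈ complement P H) {F : ℂ → EN N} (hF : IsLift F f) (z : ℂ) : F z ∈ openCone P H := by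
  refine ⟨(hF.mem_iff hP z).1 (hfU z).1, fun i hi => (hfU z).2 i ?_⟩
  obtain ⟨h5, h6⟩ := hF.2 z
  show eval (f z).rep (H i) = 0
  rw [h6]
  obtain ⟨a, ha, hrep⟩ := Pool.Agent.H36.BP.rep_mk h5
  rw [hrep, Pool.Agent.H17EF.eval_smul_form (hH i) a (F z).ofLp, hi, mul_zero]

/-- from the theorem for twisted symmetric differentials on the projective surface to the curves tangent to `θ` -/
theorem curve_of_log (hP : Homog P) (hH : ∀ i, (H i).IsHomogeneous (e i)) {m : ℕ} (θ : SymDiff (openCone P H) m) (θ' : WDiff (coneE P) m)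
    (h0 : ∀ x ∈ openCone P H, ∀ v, Tan (coneE P) x v → θ.toFun x v = 0 → θ'.toFun x v = 0)
    {R : MvPolynomial (Fin (N + 1)) ℂ} {d : ℕ} (hR : R.IsHomogeneous d)
    (hR' : ∀ F : ℂ → EN N, Differentiable ℂ F → (∀ z, F z ∈ coneE P) → (∀ z, eval (F z).ofLp (∏ i, H i) ≠ 0) →
      (∃ A : ℝ, ∀ r : ℝ, 0 < r → Real.circleAverage (fun z => Real.log ‖F z‖) 0 r ≤ A * (1 + r ^ 2)) →
      (∃ z w, ∀ c : ℂ, F z ≠ c • F w) → (∀ z, θ'.toFun (F z) (deriv F z) = 0) → ∀ z, eval (F z).ofLp R = 0)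
    {f : ℂ → PN N} (hfo : OrderTwo f) (hfU : ∀ z, f z ∈ complement P H) (hne : ∃ z w, f z ≠ f w) (ht : TangentTo θ f) (z : ℂ) :
    VanishesAt R (f z) := by
  obtain ⟨F, hF, hF1⟩ := ht
  have hFK := lift_mem hP hH hfU hF
  have hFX : ∀ z, F z ∈ coneE P := fun z => (hFK z).1
  rw [vanishesAt_lift hF hR]
  refine hR' F hF.1 hFX (fun z h => ?_) (growth_of_orderTwo hfo hF) ?_ (fun z => h0 _ (hFK z) _
    (tan_curve ⟨hF.1.analyticAt z, Eventually.of_forall hFX⟩) (hF1 z)) z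
  · rw [map_prod] at h
    obtain ⟨i, -, hi⟩ := Finset.prod_eq_zero_iff.1 h
    exact (hFK z).2 i hi
  · obtain ⟨z, w, hzw⟩ := hne
    refine ⟨z, w, fun c hc => hzw ?_⟩
    obtain ⟨h1, h2⟩ := hF.2 z
    obtain ⟨h3, h4⟩ := hF.2 w
    rw [h2, h4, Projectivization.mk_eq_mk_iff']
    exact ⟨c, by rw [hc]; rfl⟩

end Pool.Agent.MQL

end
end

section

/-!
# SR3 ConT: the length of a curve of order two is constant or tame
-/

set_option autoImplicit false

open Topology Filter Metric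

noncomputable section

namespace Pool.Agent.SR3

open Pool.Agent.H36.BP (EN fs wd Sub OrdTwo)
open Pool.Agent.SDA (nForms Tame)

variable {N : ℕ} {G : Geo N}

/-- MODULE Z4 (ConT.lean; `SDA/Q3b.lean`, `tame_poly`) -/
theorem const_or_tame (hG : G.Ok) {F : ℂ → EN N} (hF : Differentiable ℂ F) (hK : ∀ z, F z ∈ G.K) (hN : ∀ z, G.p (F z) = 1) (ho : OrdTwo F) :
    (∃ c : ℝ, ∀ z, G.n (F z) (deriv F z) = c) ∨ Tame fun z => G.n (F z) (deriv F z) := by
  choose p hp using fun j => exists_poly hG hF hK hN ho j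
  have h1 : ∀ z, G.n (F z) (deriv F z) = 0 + ∑ j, ‖(p j).eval z‖ ^ ((G.m j : ℝ)⁻¹) := by
    intro z
    rw [zero_add]
    show ∑ j, ‖G.w j (F z) (deriv F z)‖ ^ ((G.m j : ℝ)⁻¹) = _
    exact Finset.sum_congr rfl fun j _ => by rw [hp j z]
  have h2 := Pool.Agent.SDA.tame_poly p hG.one_m (b := 0) le_rfl
  simp only [h1]
  exact h2

end Pool.Agent.SR3

end
end

section

/-!
# SR3 OrdZ: the curves of order two (module Z8)

The port of `SDA/Mn`.
-/

set_option autoImplicit false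

open Topology Filter Metric

noncomputable section

namespace Pool.Agent.SR3

open Pool.Agent.H36.BP (EN fs wd Sub OrdTwo)
open Pool.Agent.H14.PP (IsCone Tan)
open Pool.Agent.SY (Ent)
open Pool.Agent.SDA (EnergyK Near AffOpen Nm nForms Tame)

variable {N : ℕ} {G : Geo N} {T : Set (EN N)} {rho : EN N → ℝ} {M : ℕ} {c₀ C δ : ℝ} {g : (ℂ → EN N) → ℂ → ℝ}

/-- a normalised entire curve of order two -/
private theorem OrdZ_norm (hG : G.Ok) (hM : G.Met T rho M c₀ C δ g) (hno : ∀ (q : G.J → ℂ) (F : ℂ → EN N), ¬ G.Cl T q F) {F : ℂ → EN N}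
    (hF : Differentiable ℂ F) (hK : ∀ z, F z ∈ G.K) (hN : ∀ z, G.p (F z) = 1) (ho : OrdTwo F) :
    (∀ z, F z ∈ T) ∨ ∀ z w, ∃ c : ℂ, F z = c • F w := by
  by_cases hT : ∀ z, F z ∈ T
  · exact Or.inl hT
  push Not at hT
  have hE : Ent G.K T F := ⟨hF, hK, hT⟩
  rcases const_or_tame hG hF hK hN ho with ⟨c, hc⟩ | ht
  · have hc0 : 0 ≤ c := by
      rw [← hc 0]
      exact n_nonneg _ _
    rcases hc0.eq_or_lt with h0 | h0
    · exact hM.null F hF hK ho fun z => by rw [hc z, ← h0]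
    · exfalso
      have hcne : ((c⁻¹ : ℝ) : ℂ) ≠ 0 := by exact_mod_cast (inv_pos.2 h0).ne'
      obtain ⟨q, hq⟩ := cl_of_n hG (T := T) (F := fun z : ℂ => F (((c⁻¹ : ℝ) : ℂ) * z + 0)) (ent_comp hE hcne 0) (fun z => hN _) fun z => by
        rw [n_aff hG hF hK, hc, Complex.norm_real, Real.norm_of_nonneg (inv_pos.2 h0).le, inv_mul_cancel₀ h0.ne']
      exact hno q _ hq
  · exact absurd ht (not_tame hG hM hno hE hN)

/-- MODULE Z8: the curves of order two -/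
theorem ordTwo_in (hG : G.Ok) (hM : G.Met T rho M c₀ C δ g) (hno : ∀ (q : G.J → ℂ) (F : ℂ → EN N), ¬ G.Cl T q F) {F : ℂ → EN N}
    (hF : Differentiable ℂ F) (hK : ∀ z, F z ∈ G.K) (ho : OrdTwo F) : (∀ z, F z ∈ T) ∨ ∀ z w, ∃ c : ℂ, F z = c • F w := by
  obtain ⟨u, hu, hu0, hN⟩ := Pool.Agent.SDA.exists_norm hG.aff hF hK
  have hH : Differentiable ℂ fun z => u z • F z := hu.smul hF
  have hHK : ∀ z, u z • F z ∈ G.K := fun z => smul_mem hG (hK z) (hu0 z)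
  have hHo : OrdTwo fun z => u z • F z := ho.congr fun z => ⟨u z, hu0 z, rfl⟩
  rcases OrdZ_norm hG hM hno hH hHK (nm_iff.1 hN) hHo with h | h
  · left
    intro z
    have h1 := hM.Ts _ (h z) (u z)⁻¹ (inv_ne_zero (hu0 z))
    rwa [smul_smul, inv_mul_cancel₀ (hu0 z), one_smul] at h1
  · right
    intro z w
    obtain ⟨c, hc⟩ := h z w
    refine ⟨(u z)⁻¹ * (c * u w), ?_⟩
    have h1 : F z = (u z)⁻¹ • (u z • F z) := by rw [smul_smul, inv_mul_cancel₀ (hu0 z), one_smul]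
    rw [h1, hc, smul_smul, smul_smul, mul_assoc]

end Pool.Agent.SR3

end
end

section

/-!
# MQL AxLb: the weight contains the invariant axes in `D`
-/

set_option autoImplicit false

open Topology Filter Metric MvPolynomial

noncomputable section

namespace Pool.Agent.MQL

open Pool.Agent.H36.BP (EN)
open Pool.Agent.H17BP (Surface)
open Pool.Agent.H17EF (coneE)
open Pool.Agent.MQ3

variable {M : ℕ} {P : Ideal (MvPolynomial (Fin (M + 1)) ℂ)} {RD H₀ Ra : MvPolynomial (Fin (M + 1)) ℂ} {m : ℕ} {X : NCModel P RD} {θ : WDiff (coneE P) m}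
  {l : LF M} {S : Web X θ l} {mK : ℕ}

private theorem D_open (k : S.ι) : IsOpen (S.D k) := by
  have h1 : IsOpen ((S.c k).D) := isOpen_Dm
  have h2 : Continuous (S.κ k) := continuous_iff_continuousAt.2 fun q => (analyticAt_mono (w := (S.c k).w) (w' := (S.c k).w') q).continuousAt
  exact h1.inter ((X.isOpen k.1).preimage h2)

private theorem mem_cone {k : S.ι} {q : ℂ × ℂ} (hq : q ∈ S.D k) : S.σ k q ∈ coneE P := by
  have h1 : S.κ k q ∈ DD := X.sub k.1 hq.2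
  exact ((X.box k.1).mem _ h1.1.le h1.2.le).self_of_nhds

/-- the equation vanishes on an invariant line in `D` -/
private theorem line_zero (hD : DivB P RD H₀) {k : S.ι} {q : ℂ × ℂ} (hq : q ∈ S.D k) {g : ℂ × ℂ → ℂ} (hg : AnalyticAt ℂ g q)
    (hinv : ∀ᶠ x in 𝓝[≠] q, InvAt S Ra k x g) {L : ℂ → ℂ × ℂ} {w : ℂ × ℂ} (hL0 : L 0 = q) (hL : ∀ t, HasDerivAt L w t) (hne : ∀ t, t ≠ 0 → L t ≠ q)
    (h0 : ∀ᶠ t in 𝓝 (0 : ℂ), eval (S.σ k (L t)).ofLp H₀ = 0) (hv : ∀ᶠ t in 𝓝 (0 : ℂ), ∃ c : ℂ, S.v k (L t) = c • w) :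
    ∀ᶠ t in 𝓝 (0 : ℂ), g (L t) = 0 := by
  have hLc : ∀ t, ContinuousAt L t := fun t => (hL t).continuousAt
  have hLt : Tendsto L (𝓝 0) (𝓝 q) := by
    have := (hLc 0).tendsto
    rwa [hL0] at this
  have hLt' : Tendsto L (𝓝[≠] 0) (𝓝[≠] q) := by
    refine tendsto_nhdsWithin_iff.2 ⟨hLt.mono_left nhdsWithin_le_nhds, ?_⟩
    filter_upwards [self_mem_nhdsWithin] with t ht
    exact hne t ht
  have hR : ∀ᶠ t in 𝓝 (0 : ℂ), eval (S.σ k (L t)).ofLp (RD * Ra) = 0 := by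
    filter_upwards [h0, hLt.eventually ((D_open k).mem_nhds hq)] with t h1 h2
    rw [map_mul, hD.le _ (mem_cone h2) h1, zero_mul]
  have key : ∀ᶠ t in 𝓝[≠] (0 : ℂ), g (L t) = 0 := by
    filter_upwards [hLt'.eventually hinv, nhdsWithin_le_nhds hR.eventually_nhds, nhdsWithin_le_nhds hv] with t h1 h2 h3
    obtain ⟨hga, -, -, h, hha, hz, hh⟩ := h1
    by_contra hgt
    have h4 : ∀ᶠ t' in 𝓝 t, h (L t') = 0 := by
      filter_upwards [h2, (hLc t).tendsto.eventually hz, (hga.continuousAt.comp (hLc t)).eventually_ne hgt] with t' h5 h6 h7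
      exact (mul_eq_zero.1 (h6.1 h5)).resolve_left h7
    have h5 : HasDerivAt (fun t' => h (L t')) (fderiv ℂ h (L t) w) t := hha.differentiableAt.hasFDerivAt.comp_hasDerivAt t (hL t)
    have h6 : fderiv ℂ h (L t) w = 0 := by
      rw [← h5.deriv]
      have h7 : (fun t' => h (L t')) =ᶠ[𝓝 t] fun _ => 0 := h4
      rw [h7.deriv_eq, deriv_const]
    obtain ⟨c, hc⟩ := h3
    refine (hh.self_of_nhds h4.self_of_nhds).2 ?_
    rw [hc, map_smul, h6, smul_zero]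
  have hgc : ContinuousAt (fun t => g (L t)) 0 := by
    refine ContinuousAt.comp (g := g) (f := L) ?_ (hLc 0)
    rw [hL0]
    exact hg.continuousAt
  have h00 : g (L 0) = 0 := by
    have h1 : Tendsto (fun t => g (L t)) (𝓝[≠] 0) (𝓝 (g (L 0))) := hgc.tendsto.mono_left nhdsWithin_le_nhds
    have h2 : Tendsto (fun t => g (L t)) (𝓝[≠] (0 : ℂ)) (𝓝 0) := tendsto_const_nhds.congr' (key.mono fun t ht => ht.symm)
    exact tendsto_nhds_unique h1 h2
  rw [eventually_nhdsWithin_iff] at key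
  filter_upwards [key] with t ht
  by_cases h : t = 0
  · rw [h, h00]
  · exact ht h

/-- **The weight contains the invariant axes in `D`.** -/
theorem axW_of (hX : Surface (coneE P)) (hD : DivB P RD H₀) {k : S.ι} {q : ℂ × ℂ} (hq : q ∈ S.D k) {g : ℂ × ℂ → ℂ} (hg : AnalyticAt ℂ g q)
    (hinv : ∀ᶠ x in 𝓝[≠] q, InvAt S Ra k x g) :
    AxW (exX H₀ mK (S.σ k) q) (exY H₀ mK (S.σ k) q) (fun x => S.v k (q + x)) fun x => g (q + x) := by
  have _ := hX
  have hga : AnalyticAt ℂ (fun x => g (q + x)) 0 := by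
    refine AnalyticAt.fun_comp (g := g) (f := fun x : ℂ × ℂ => q + x) ?_ (by fun_prop)
    rwa [add_zero]
  have e1 : ∀ t : ℂ, q + ((0 : ℂ), t) = (q.1, q.2 + t) := fun t => Prod.ext (add_zero _) rfl
  have e2 : ∀ t : ℂ, q + (t, (0 : ℂ)) = (q.1 + t, q.2) := fun t => Prod.ext rfl (add_zero _)
  refine ⟨fun hal hv => ?_, fun hbe hv => ?_⟩
  · have h0 : ∀ᶠ t in 𝓝 (0 : ℂ), eval (S.σ k (q.1, q.2 + t)).ofLp H₀ = 0 := by
      by_contra hcon
      rw [exX, if_neg hcon] at hal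
      exact lt_irrefl _ hal
    have h1 : ∀ᶠ t in 𝓝 (0 : ℂ), g (q.1, q.2 + t) = 0 := by
      refine line_zero (L := fun t => (q.1, q.2 + t)) (w := (0, 1)) hD hq hg hinv (by simp) (fun t => ?_) (fun t ht h => ?_) h0 ?_
      · exact (hasDerivAt_const t q.1).prodMk ((hasDerivAt_id t).const_add q.2)
      · exact ht (add_eq_left.1 (congrArg Prod.snd h))
      · filter_upwards [hv] with t ht
        rw [e1] at ht
        exact ⟨(S.v k (q.1, q.2 + t)).2, Prod.ext (by simp [ht]) (by simp)⟩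
    obtain ⟨g₀, hg₀, h2⟩ := Pool.Agent.H17BP.exists_div_x hga (by
      filter_upwards [h1] with t ht
      rw [e1]
      exact ht)
    exact ⟨g₀, hg₀, h2⟩
  · have h0 : ∀ᶠ t in 𝓝 (0 : ℂ), eval (S.σ k (q.1 + t, q.2)).ofLp H₀ = 0 := by
      by_contra hcon
      rw [exY, if_neg hcon] at hbe
      exact lt_irrefl _ hbe
    have h1 : ∀ᶠ t in 𝓝 (0 : ℂ), g (q.1 + t, q.2) = 0 := by
      refine line_zero (L := fun t => (q.1 + t, q.2)) (w := (1, 0)) hD hq hg hinv (by simp) (fun t => ?_) (fun t ht h => ?_) h0 ?_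
      · exact ((hasDerivAt_id t).const_add q.1).prodMk (hasDerivAt_const t q.2)
      · exact ht (add_eq_left.1 (congrArg Prod.fst h))
      · filter_upwards [hv] with t ht
        rw [e2] at ht
        exact ⟨(S.v k (q.1 + t, q.2)).1, Prod.ext (by simp) (by simp [ht])⟩
    have hs : AnalyticAt ℂ (fun x : ℂ × ℂ => (x.2, x.1)) 0 := analyticAt_snd.prod analyticAt_fst
    have hst : Tendsto (fun x : ℂ × ℂ => (x.2, x.1)) (𝓝 0) (𝓝 0) := (by fun_prop : Continuous fun x : ℂ × ℂ => (x.2, x.1)).tendsto' _ _ rfl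
    obtain ⟨g₀, hg₀, h2⟩ := Pool.Agent.H17BP.exists_div_x (f := fun x : ℂ × ℂ => g (q + (x.2, x.1)))
      (AnalyticAt.fun_comp (g := fun x : ℂ × ℂ => g (q + x)) (f := fun x : ℂ × ℂ => (x.2, x.1)) hga hs) (by
      filter_upwards [h1] with t ht
      show g (q + (t, 0)) = 0
      rw [e2]
      exact ht)
    refine ⟨fun x => g₀ (x.2, x.1), AnalyticAt.fun_comp (g := g₀) (f := fun x : ℂ × ℂ => (x.2, x.1)) hg₀ hs, ?_⟩
    filter_upwards [hst.eventually h2] with x hx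
    exact hx

end Pool.Agent.MQL

end
end

section

/-!
# SR3 RsK: the coefficient of `(dy₁ / y₁) ^ m` is constant along the component
-/

set_option autoImplicit false

open Topology Filter Metric MvPolynomial

noncomputable section

namespace Pool.Agent.SR3

open Pool.Agent.H36.BP (EN fs)
open Pool.Agent.H17BP (Surface IsChart)
open Pool.Agent.H14.PP (IsCone Tan)
open Pool.Agent.H17EF (coneE)
open Pool.Agent.AD (SymDiff)

variable {N k M : ℕ} {P : Ideal (MvPolynomial (Fin (N + 1)) ℂ)} {H : MvPolynomial (Fin (N + 1)) ℂ} {h : ℕ}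
  {E : Fin k → Fin (M + 1) → MvPolynomial (Fin (N + 1)) ℂ} {b c : Fin k → ℕ} {σ : ℂ × ℂ → EN N} {τ : EN N → ℂ × ℂ} {o₁ o₂ : Option (Fin k)}

theorem tendsto_sw : Tendsto (fun y : ℂ × ℂ => (y.2, y.1)) (𝓝 0) (𝓝 0) := by
  have h1 : Continuous fun y : ℂ × ℂ => (y.2, y.1) := continuous_snd.prodMk continuous_fst
  exact h1.tendsto 0

/-- exchange of the coordinates -/
theorem chart_sw {X : Set (EN N)} {σ : ℂ × ℂ → EN N} {τ : EN N → ℂ × ℂ} (h : IsChart X σ τ) :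
    IsChart X (fun y => σ (y.2, y.1)) (fun x => ((τ x).2, (τ x).1)) := by
  have h0 : ((0 : ℂ × ℂ).2, (0 : ℂ × ℂ).1) = 0 := rfl
  have hsa : AnalyticAt ℂ (fun y : ℂ × ℂ => (y.2, y.1)) 0 := analyticAt_snd.prod analyticAt_fst
  refine ⟨?_, tendsto_sw.eventually h.σ_mem, ?_, ?_, ?_, ?_, ?_⟩
  · exact AnalyticAt.comp (g := σ) (f := fun y : ℂ × ℂ => (y.2, y.1)) (by rw [h0]; exact h.σ_an) hsa
  · show σ ((0 : ℂ × ℂ).2, (0 : ℂ × ℂ).1) ≠ 0
    rw [h0]
    exact h.ne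
  · show AnalyticAt ℂ (fun x => ((τ x).2, (τ x).1)) (σ ((0 : ℂ × ℂ).2, (0 : ℂ × ℂ).1))
    rw [h0]
    have h3 : AnalyticAt ℂ (fun x => (τ x).2) (σ 0) := AnalyticAt.comp (g := fun y : ℂ × ℂ => y.2) analyticAt_snd h.τ_an
    have h4 : AnalyticAt ℂ (fun x => (τ x).1) (σ 0) := AnalyticAt.comp (g := fun y : ℂ × ℂ => y.1) analyticAt_fst h.τ_an
    exact h3.prod h4
  · filter_upwards [tendsto_sw.eventually h.left] with y hy
    rw [hy]
  · show ∀ᶠ y in 𝓝 (σ ((0 : ℂ × ℂ).2, (0 : ℂ × ℂ).1)), _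
    rw [h0]
    exact h.right
  · show ∀ᶠ p in 𝓝 (σ ((0 : ℂ × ℂ).2, (0 : ℂ × ℂ).1), (1 : ℂ)), _
    rw [h0]
    filter_upwards [h.inv] with p hp
    rw [hp]

theorem LC.swap {i : Fin k} (hL : LC P H E σ τ o₁ (some i)) : LC P H E (fun y => σ (y.2, y.1)) (fun x => ((τ x).2, (τ x).1)) (some i) o₁ := by
  refine ⟨chart_sw hL.chart, fun j hj hj' => hL.ne j hj' hj, fun e => (by simp at e), fun j => ?_, ?_⟩
  · obtain ⟨e, he1, he2, he3⟩ := hL.eqs j
    have hsa : AnalyticAt ℂ (fun y : ℂ × ℂ => (y.2, y.1)) 0 := analyticAt_snd.prod analyticAt_fst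
    refine ⟨fun y => e (y.2, y.1), AnalyticAt.comp (g := e) (f := fun y : ℂ × ℂ => (y.2, y.1)) he1 hsa, he2, ?_⟩
    filter_upwards [tendsto_sw.eventually he3] with y hy
    rw [hy, mul_comm]
  · filter_upwards [tendsto_sw.eventually hL.dom] with y hy
    rw [hy, mul_comm]

theorem exists_lc_at (hs : Snc P H E b) {x : EN N} (hx : x ∈ coneE P) {i : Fin k} (hi : vec (E i) x = 0) :
    ∃ σ τ o₂, LC P H E σ τ (some i) o₂ ∧ σ 0 = x := by
  obtain ⟨σ, τ, o₁, o₂, hL, h0⟩ := exists_lc hs hx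
  rcases hL.some_of_zero (i := i) (by rw [h0]; exact hi) with h1 | h1
  · subst h1
    exact ⟨σ, τ, o₂, hL, h0⟩
  · subst h1
    exact ⟨_, _, o₁, hL.swap, h0⟩

theorem isR_smul (hc : IsCone (coneE P)) (hH : H.IsHomogeneous h) (hE : ∀ i l, (E i l).IsHomogeneous (c i))
    (hne : ∀ i, ∀ x ∈ oc P H, vec (E i) x ≠ 0) {m : ℕ} (θ : SymDiff (oc P H) m)
    (hinv : ∀ x ∈ oc P H, ∀ v, Tan (coneE P) x v → ∀ a : ℂ, a ≠ 0 → θ.toFun (a • x) (a • v) = θ.toFun x v) {i : Fin k} {x : EN N} {r : ℂ}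
    (h1 : IsR P H E c θ.toFun m i x r) {a : ℂ} (ha : a ≠ 0) : IsR P H E c θ.toFun m i (a • x) r := by
  intro ε hε
  obtain ⟨η, hη, h2⟩ := h1 ε hε
  refine ⟨η, hη, ?_⟩
  have ht : Tendsto (fun y : EN N => a⁻¹ • y) (𝓝 (a • x)) (𝓝 x) := by
    have h3 : Continuous (fun y : EN N => a⁻¹ • y) := by fun_prop
    have h4 := h3.tendsto (a • x)
    rwa [smul_smul, inv_mul_cancel₀ ha, one_smul] at h4
  filter_upwards [ht.eventually h2] with y hy hyo v hv hsm hfs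
  have ha' : a⁻¹ ≠ 0 := inv_ne_zero ha
  have hy0 : y ≠ 0 := fun h0 => hc.zero_notMem (h0 ▸ hyo.1)
  have hell : ∀ i', ellE (E i') (c i') (a⁻¹ • y) (a⁻¹ • v) = ellE (E i') (c i') y v := by
    intro i'
    have := snc2_ell_inv hE i' hy0 (hne i' _ hyo) v ha' 0
    rwa [zero_smul, add_zero] at this
  have hfs' : fs (a⁻¹ • y) (a⁻¹ • v) = fs y v := by
    have := Pool.Agent.H36.BP.fs_inv hy0 v ha' 0
    rwa [zero_smul, add_zero] at this
  have h5 := hy (rs_oc_smul hc hH hyo ha') (a⁻¹ • v) (rs_tan_smul hc.smul_mem hv ha')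
    (by intro i' hi'; rw [hell, hell]; exact hsm i' hi') (by rw [hell, hfs']; exact hfs)
  rwa [hell, hinv y hyo v hv _ ha'] at h5

theorem rs_tan_oc {x v : EN N} (hx : x ∈ oc P H) (hv : Tan (coneE P) x v) : Tan (oc P H) x v := by
  obtain ⟨F, ⟨h1, h2⟩, h3, h4⟩ := hv
  refine ⟨F, ⟨h1, ?_⟩, h3, h4⟩
  have hc : ContinuousAt (fun z => eval (F z).ofLp H) 0 :=
    ContinuousAt.comp (g := fun y : EN N => eval y.ofLp H) (snc2_diffH H _).continuousAt h1.continuousAt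
  have h5 : eval (F 0).ofLp H ≠ 0 := by
    rw [h3]
    exact hx.2 0
  filter_upwards [h2, hc.eventually_ne h5] with z hz hz'
  exact ⟨hz, fun _ => hz'⟩

/-- the component -/
def comp (P : Ideal (MvPolynomial (Fin (N + 1)) ℂ)) (E : Fin k → Fin (M + 1) → MvPolynomial (Fin (N + 1)) ℂ) (i : Fin k) : Set (EN N) :=
  {x | x ∈ coneE P ∧ vec (E i) x = 0}

theorem comp_smul (hc : IsCone (coneE P)) (hE : ∀ i l, (E i l).IsHomogeneous (c i)) {i : Fin k} : ∀ x ∈ comp P E i, ∀ a : ℂ, a ≠ 0 → a • x ∈ comp P E i := by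
  intro x hx a ha
  refine ⟨hc.smul_mem x hx.1 a ha, ?_⟩
  rw [snc2_homE (hE i), hx.2, smul_zero]

theorem comp_closed (hc : IsCone (coneE P)) (i : Fin k) : IsClosed (insert 0 (comp P E i)) := by
  have h1 : insert (0 : EN N) (comp P E i) = insert 0 (coneE P) ∩ ({x | vec (E i) x = 0} ∪ {0}) := by
    ext x
    simp only [comp, Set.mem_insert_iff, Set.mem_ofPred_eq, Set.mem_inter_iff, Set.mem_union, Set.mem_singleton_iff]
    tauto
  rw [h1]
  refine hc.closed.inter (IsClosed.union ?_ isClosed_singleton)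
  exact isClosed_eq (continuous_iff_continuousAt.mpr fun x => (snc2_diffE (E i) x).continuousAt) continuous_const

/-- the residue function of a component -/
def resF (P : Ideal (MvPolynomial (Fin (N + 1)) ℂ)) (H : MvPolynomial (Fin (N + 1)) ℂ) (E : Fin k → Fin (M + 1) → MvPolynomial (Fin (N + 1)) ℂ)
    (c : Fin k → ℕ) (w : EN N → EN N → ℂ) (m : ℕ) (i : Fin k) (x : EN N) : ℂ :=
  open Classical in if h : ∃ r, IsR P H E c w m i x r then h.choose else 0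

theorem resF_eq (hs : Snc P H E b) (hE : ∀ i l, (E i l).IsHomogeneous (c i)) {w : EN N → EN N → ℂ} {m : ℕ} {i : Fin k} {x : EN N}
    (hx : x ∈ comp P E i) {r : ℂ} (h : IsR P H E c w m i x r) : resF P H E c w m i x = r := by
  obtain ⟨σ, τ, o₂, hL, h0⟩ := exists_lc_at hs hx.1 hx.2
  have hex : ∃ r, IsR P H E c w m i x r := ⟨r, h⟩
  unfold resF
  rw [dif_pos hex]
  subst h0
  exact isR_unique_lc hE hL hx.2 hex.choose_spec h

theorem exists_isR (hs : Snc P H E b) (hc : IsCone (coneE P)) (hH : H.IsHomogeneous h) (hE : ∀ i l, (E i l).IsHomogeneous (c i)) {m : ℕ} (hm : 1 ≤ m)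
    (θ : SymDiff (oc P H) m) (hθ : HasLogPoles E c θ) {i : Fin k} {x : EN N} (hx : x ∈ comp P E i) : ∃ r, IsR P H E c θ.toFun m i x r := by
  have hne : ∀ i, ∀ x ∈ oc P H, vec (E i) x ≠ 0 := fun i x hx => snc2_ne hs i hx
  obtain ⟨σ, τ, o₂, hL, h0⟩ := exists_lc_at hs hx.1 hx.2
  obtain ⟨a, ha, hexp⟩ := lc_exp' (lc_est hE hL) hL θ hθ
  have h1 := (isR_of_exp hc hH hE hne hL hm θ ha hexp).self_of_nhds
  have h2 : ((0 : ℂ), (0 : ℂ)) = 0 := rfl
  rw [h2, h0] at h1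
  exact ⟨_, h1⟩

/-- near a point of the component: the points of the component in the chart, and the residue function there -/
theorem comp_chart (hs : Snc P H E b) (hc : IsCone (coneE P)) (hH : H.IsHomogeneous h) (hE : ∀ i l, (E i l).IsHomogeneous (c i)) {m : ℕ} (hm : 1 ≤ m)
    (θ : SymDiff (oc P H) m) {i : Fin k} (hL : LC P H E σ τ (some i) o₂) {a : ℕ → ℂ × ℂ → ℂ} (ha : ∀ k, AnalyticAt ℂ (a k) 0)
    (hexp : ∀ᶠ y in 𝓝 (0 : ℂ × ℂ), σ y ∈ oc P H → ∀ t : ℂ × ℂ,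
      θ.toFun (σ y) (fderiv ℂ σ y t) =
        ∑ k ∈ Finset.range (m + 1), a k y * (t.1 / gg (some i).isSome y.1) ^ k * (t.2 / gg o₂.isSome y.2) ^ (m - k)) :
    ∀ᶠ t in 𝓝 (0 : ℂ), σ (0, t) ∈ comp P E i ∧ resF P H E c θ.toFun m i (σ (0, t)) = a m (0, t) := by
  have hne : ∀ i, ∀ x ∈ oc P H, vec (E i) x ≠ 0 := fun i x hx => snc2_ne hs i hx
  have hline : Tendsto (fun s : ℂ => ((0, s) : ℂ × ℂ)) (𝓝 0) (𝓝 (0 : ℂ × ℂ)) := by
    have : Continuous (fun s : ℂ => ((0, s) : ℂ × ℂ)) := by fun_prop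
    exact this.tendsto 0
  obtain ⟨e, -, -, he⟩ := hL.eqs i
  filter_upwards [isR_of_exp hc hH hE hne hL hm θ ha hexp, hline.eventually hL.chart.σ_mem, hline.eventually he] with t h1 h2 h3
  have h4 : σ (0, t) ∈ comp P E i := by
    refine ⟨h2, ?_⟩
    rw [h3]
    simp [gg]
  exact ⟨h4, resF_eq hs hE h4 h1⟩

/-- **The residue is constant along the component.** -/
theorem coeff_const (hlc : ∀ {D : Set (EN N)} {r : EN N → ℂ} (_ : IsClosed (insert 0 D)) (_ : (0 : EN N) ∉ D) (_ : ∀ x ∈ D, ∀ a : ℂ, a ≠ 0 → a • x ∈ D)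
      (_ : ∀ x ∈ D, ∀ a : ℂ, a ≠ 0 → r (a • x) = r x)
      (_ : ∀ x ∈ D, ∃ (γ : ℂ → EN N) (g : ℂ → ℂ) (q : EN N → ℂ), ContinuousAt γ 0 ∧ γ 0 = x ∧ AnalyticAt ℂ g 0 ∧
        (∀ᶠ t in 𝓝 (0 : ℂ), γ t ∈ D ∧ r (γ t) = g t) ∧ ContinuousAt q x ∧ q x = 0 ∧ ∀ᶠ y in 𝓝 x, y ∈ D → ∃ a : ℂ, a ≠ 0 ∧ y = a • γ (q y)),
      ∀ x ∈ D, ∀ᶠ y in 𝓝 x, y ∈ D → r y = r x)
    (hs : Snc P H E b) (hc : IsCone (coneE P)) (hH : H.IsHomogeneous h) (hE : ∀ i l, (E i l).IsHomogeneous (c i)) {m : ℕ} (hm : 1 ≤ m)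
    (θ : SymDiff (oc P H) m) (hθ : HasLogPoles E c θ) {i : Fin k} (hL : LC P H E σ τ (some i) o₂) {a : ℕ → ℂ × ℂ → ℂ} (ha : ∀ k, AnalyticAt ℂ (a k) 0)
    (hexp : ∀ᶠ y in 𝓝 (0 : ℂ × ℂ), σ y ∈ oc P H → ∀ t : ℂ × ℂ,
      θ.toFun (σ y) (fderiv ℂ σ y t) =
        ∑ k ∈ Finset.range (m + 1), a k y * (t.1 / gg (some i).isSome y.1) ^ k * (t.2 / gg o₂.isSome y.2) ^ (m - k)) :
    ∀ᶠ s in 𝓝 (0 : ℂ), a m (0, s) = a m 0 := by
  have hne : ∀ i, ∀ x ∈ oc P H, vec (E i) x ≠ 0 := fun i x hx => snc2_ne hs i hx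
  have hinv : ∀ x ∈ oc P H, ∀ v, Tan (coneE P) x v → ∀ a : ℂ, a ≠ 0 → θ.toFun (a • x) (a • v) = θ.toFun x v :=
    fun x hx v hv a ha => θ.scale x v (rs_tan_oc hx hv) a ha
  have hline : Tendsto (fun s : ℂ => ((0, s) : ℂ × ℂ)) (𝓝 0) (𝓝 (0 : ℂ × ℂ)) := by
    have : Continuous (fun s : ℂ => ((0, s) : ℂ × ℂ)) := by fun_prop
    exact this.tendsto 0
  have h00 : ((0 : ℂ), (0 : ℂ)) = 0 := rfl
  have hmain : ∀ x ∈ comp P E i, ∀ᶠ y in 𝓝 x, y ∈ comp P E i → resF P H E c θ.toFun m i y = resF P H E c θ.toFun m i x := by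
    refine hlc (comp_closed hc i) (fun h0 => hc.zero_notMem h0.1) (comp_smul hc hE) ?_ ?_
    · intro x hx a ha
      obtain ⟨r, hr⟩ := exists_isR hs hc hH hE hm θ hθ hx
      rw [resF_eq hs hE hx hr, resF_eq hs hE (comp_smul hc hE x hx a ha) (isR_smul hc hH hE hne θ hinv hr ha)]
    · intro x hx
      obtain ⟨σ', τ', o₂', hL', h0⟩ := exists_lc_at hs hx.1 hx.2
      obtain ⟨a', ha', hexp'⟩ := lc_exp' (lc_est hE hL') hL' θ hθ
      subst h0
      obtain ⟨e, he1, he2, he3⟩ := hL'.eqs i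
      have hτ0 : τ' (σ' 0) = 0 := hL'.chart.left.self_of_nhds
      have hτ : Tendsto τ' (𝓝 (σ' 0)) (𝓝 0) := by
        have h1 := hL'.chart.τ_an.continuousAt.tendsto
        rwa [hτ0] at h1
      have hho : o₂' ≠ some i := hL'.ne i rfl
      refine ⟨fun t => σ' (0, t), fun t => a' m (0, t), fun y => (τ' y).2, ?_, rfl, ?_, comp_chart hs hc hH hE hm θ hL' ha' hexp', ?_, ?_, ?_⟩
      · exact ContinuousAt.comp (g := σ') (f := fun t : ℂ => ((0, t) : ℂ × ℂ)) hL'.chart.σ_an.continuousAt (by fun_prop)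
      · exact AnalyticAt.comp (g := a' m) (f := fun t : ℂ => ((0, t) : ℂ × ℂ)) (ha' m) (analyticAt_const.prod analyticAt_id)
      · exact continuous_snd.continuousAt.comp hL'.chart.τ_an.continuousAt
      · show (τ' (σ' 0)).2 = 0
        rw [hτ0]
        rfl
      · filter_upwards [hL'.chart.right, hτ.eventually he3, hτ.eventually (he1.continuousAt.eventually_ne he2)] with y h1 h2 h3 hy
        obtain ⟨κ, hκ, hyκ⟩ := h1 hy.1
        refine ⟨κ, hκ, ?_⟩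
        have h4 : vec (E i) (σ' (τ' y)) = 0 := by
          have h5 := hy.2
          rw [hyκ, snc2_homE (hE i)] at h5
          exact (smul_eq_zero.mp h5).resolve_left (pow_ne_zero _ hκ)
        rw [h2] at h4
        have h6 := (smul_eq_zero.mp h4).resolve_right h3
        have h7 : (τ' y).1 = 0 := by
          simpa [gg, hho] using h6
        have h8 : ((0 : ℂ), (τ' y).2) = τ' y := Prod.ext h7.symm rfl
        show y = κ • σ' (0, (τ' y).2)
        rw [h8]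
        exact hyκ
  have hσ : Tendsto (fun s : ℂ => σ (0, s)) (𝓝 0) (𝓝 (σ 0)) := hL.chart.σ_an.continuousAt.tendsto.comp hline
  have hch := comp_chart hs hc hH hE hm θ hL ha hexp
  have h0 := hch.self_of_nhds
  rw [h00] at h0
  filter_upwards [hch, hσ.eventually (hmain (σ 0) h0.1)] with s h1 h2
  rw [← h1.2, ← h0.2]
  exact h2 h1.1

end Pool.Agent.SR3

end
end

section

/-!
# SR3 Rloc: the local form of the theorem on the residues
-/

set_option autoImplicit false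

open Topology Filter Metric MvPolynomial

noncomputable section

namespace Pool.Agent.SR3

open Pool.Agent.H36.BP (EN fs)
open Pool.Agent.H17BP (Surface IsChart)
open Pool.Agent.H14.PP (IsCone Tan)
open Pool.Agent.H17EF (coneE)
open Pool.Agent.AD (SymDiff)

variable {N k M : ℕ} {P : Ideal (MvPolynomial (Fin (N + 1)) ℂ)} {H : MvPolynomial (Fin (N + 1)) ℂ}
  {E : Fin k → Fin (M + 1) → MvPolynomial (Fin (N + 1)) ℂ} {b c : Fin k → ℕ} {σ : ℂ × ℂ → EN N} {τ : EN N → ℂ × ℂ} {o₁ o₂ : Option (Fin k)}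

/-- the expansion in the chart with the coordinates exchanged -/
theorem exp_sw {m : ℕ} (θ : SymDiff (oc P H) m) (hσ : AnalyticAt ℂ σ 0) {a : ℕ → ℂ × ℂ → ℂ}
    (hexp : ∀ᶠ y in 𝓝 (0 : ℂ × ℂ), σ y ∈ oc P H → ∀ t : ℂ × ℂ,
      θ.toFun (σ y) (fderiv ℂ σ y t) =
        ∑ k ∈ Finset.range (m + 1), a k y * (t.1 / gg o₁.isSome y.1) ^ k * (t.2 / gg o₂.isSome y.2) ^ (m - k)) :
    ∀ᶠ y in 𝓝 (0 : ℂ × ℂ), σ (y.2, y.1) ∈ oc P H → ∀ t : ℂ × ℂ,
      θ.toFun (σ (y.2, y.1)) (fderiv ℂ (fun y : ℂ × ℂ => σ (y.2, y.1)) y t) =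
        ∑ k ∈ Finset.range (m + 1), a (m - k) (y.2, y.1) * (t.1 / gg o₂.isSome y.1) ^ k * (t.2 / gg o₁.isSome y.2) ^ (m - k) := by
  filter_upwards [tendsto_sw.eventually hexp, tendsto_sw.eventually hσ.eventually_analyticAt] with y h1 h2 hy t
  have h3 : fderiv ℂ (fun y : ℂ × ℂ => σ (y.2, y.1)) y t = fderiv ℂ σ (y.2, y.1) (t.2, t.1) := by
    set e : (ℂ × ℂ) →L[ℂ] ℂ × ℂ := (ContinuousLinearMap.snd ℂ ℂ ℂ).prod (ContinuousLinearMap.fst ℂ ℂ ℂ) with he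
    have h4 : HasFDerivAt σ (fderiv ℂ σ (y.2, y.1)) (e y) := h2.differentiableAt.hasFDerivAt
    have h5 := h4.comp y e.hasFDerivAt
    have h6 : fderiv ℂ (fun y : ℂ × ℂ => σ (y.2, y.1)) y = (fderiv ℂ σ (y.2, y.1)).comp e := h5.fderiv
    rw [h6]
    rfl
  rw [h3, h1 hy (t.2, t.1), ← Finset.sum_range_reflect]
  refine Finset.sum_congr rfl fun j hj => ?_
  have hj' : j ≤ m := by simpa [Nat.lt_succ_iff] using hj
  have h7 : m + 1 - 1 - j = m - j := by omega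
  have h8 : m - (m - j) = j := by omega
  rw [h7, h8]
  ring

/-- **The residues, local form.** -/
theorem res_loc {h : ℕ} (hX : Surface (coneE P)) (hc : IsCone (coneE P)) (hH : H.IsHomogeneous h) (hE : ∀ i l, (E i l).IsHomogeneous (c i))
    (hs : Snc P H E b) {s : ℕ} {m : Fin s → ℕ}
    (hm : ∀ j, 1 ≤ m j) (θ : ∀ j, SymDiff (oc P H) (m j)) (hθ : ∀ j, HasLogPoles E c (θ j)) {x₀ : EN N} (hx₀ : x₀ ∈ coneE P) :
    ∃ (S : Finset (Fin k)) (Pol : Fin s → MvPolynomial (Fin k) ℂ) (C : ℝ), (∀ i, i ∈ S ↔ vec (E i) x₀ = 0) ∧ S.card ≤ 2 ∧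
      (∀ j, (Pol j).IsHomogeneous (m j)) ∧ (∀ j (y y' : Fin k → ℂ), (∀ i ∈ S, y i = y' i) → eval y (Pol j) = eval y' (Pol j)) ∧ 0 ≤ C ∧
      ∀ᶠ x in 𝓝 x₀, x ∈ oc P H → (∀ i, i ∉ S → lamV (E i) (c i) x ≤ C) ∧ ∀ j v, Tan (coneE P) x v →
        ‖(θ j).toFun x v - eval (fun i => ellE (E i) (c i) x v) (Pol j)‖ ≤ C * fs x v * logLen E c x v ^ (m j - 1) := by
  classical
  have _ := hX
  obtain ⟨σ, τ, o₁, o₂, hL, h0⟩ := exists_lc hs hx₀
  subst h0
  have hne : ∀ i, ∀ x ∈ oc P H, vec (E i) x ≠ 0 := fun i x hx => snc2_ne hs i hx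
  obtain ⟨C₁, hC₁, hfr⟩ := frame hc hH hE hL hne
  obtain ⟨C₂, hlam⟩ := lc_lam (c := c) hL
  have hτ : Tendsto τ (𝓝 (σ 0)) (𝓝 0) := by
    have h1 := hL.chart.τ_an.continuousAt.tendsto
    have h2 : τ (σ 0) = 0 := hL.chart.left.self_of_nhds
    rwa [h2] at h1
  have h00 : ((0 : ℂ), (0 : ℂ)) = 0 := rfl
  -- one symmetric differential
  have hone : ∀ j, ∃ (Pol : MvPolynomial (Fin k) ℂ) (C' : ℝ), Pol.IsHomogeneous (m j) ∧
      (∀ y y' : Fin k → ℂ, (∀ i, (o₁ = some i ∨ o₂ = some i) → y i = y' i) → eval y Pol = eval y' Pol) ∧ 0 ≤ C' ∧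
      ∀ᶠ x in 𝓝 (σ 0), x ∈ oc P H → ∀ v, Tan (coneE P) x v →
        ‖(θ j).toFun x v - eval (fun i => ellE (E i) (c i) x v) Pol‖ ≤ C' * fs x v * logLen E c x v ^ (m j - 1) := by
    intro j
    obtain ⟨a, ha, hexp⟩ := lc_exp' (lc_est hE hL) hL (θ j) (hθ j)
    have h1 : o₁ ≠ none → ∀ᶠ s in 𝓝 (0 : ℂ), a (m j) (0, s) = a (m j) 0 := by
      intro ho
      obtain ⟨i, rfl⟩ := Option.ne_none_iff_exists'.mp ho
      exact coeff_const loc_const hs hc hH hE (hm j) (θ j) (hθ j) hL ha hexp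
    have h2 : o₂ ≠ none → ∀ᶠ s in 𝓝 (0 : ℂ), a 0 (s, 0) = a 0 0 := by
      intro ho
      obtain ⟨i, rfl⟩ := Option.ne_none_iff_exists'.mp ho
      have h3 := exp_sw (θ j) hL.chart.σ_an hexp
      have hsa : AnalyticAt ℂ (fun y : ℂ × ℂ => (y.2, y.1)) 0 := analyticAt_snd.prod analyticAt_fst
      have ha' : ∀ k, AnalyticAt ℂ (fun y : ℂ × ℂ => a (m j - k) (y.2, y.1)) 0 := fun k =>
        AnalyticAt.comp (g := a (m j - k)) (f := fun y : ℂ × ℂ => (y.2, y.1)) (ha _) hsa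
      have h4 := coeff_const loc_const hs hc hH hE (hm j) (θ j) (hθ j) hL.swap (a := fun k y => a (m j - k) (y.2, y.1)) ha' h3
      filter_upwards [h4] with s hs'
      have h5 : a (m j - m j) (s, 0) = a (m j - m j) ((0 : ℂ), (0 : ℂ)) := hs'
      rw [Nat.sub_self] at h5
      exact h5
    obtain ⟨Pol, C', hp1, hp2, hp3, hp4⟩ := loc_bound (hm j) hL.ne hL.one ha h1 h2 hC₁
    refine ⟨Pol, C', hp1, hp2, hp3, ?_⟩
    filter_upwards [hfr, hτ.eventually hexp, hτ.eventually hp4, hτ.eventually hL.dom] with x h3 h4 h5 h6 hx v hv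
    obtain ⟨h7, h8⟩ := h3 hx
    obtain ⟨t, ht1, ht2, -, ht4⟩ := h8 v hv
    rw [ht1 (θ j), h4 h7 t]
    exact h5 (h6.mp h7) t (fun i => ellE (E i) (c i) x v) (fs x v) (logLen E c x v) ht2 (Pool.Agent.H36.BP.fs_nonneg _ _) le_rfl ht4
  choose Pol C' hP1 hP2 hP3 hP4 using hone
  set S : Finset (Fin k) := Finset.univ.filter fun i => o₁ = some i ∨ o₂ = some i with hS
  have hSmem : ∀ i, i ∈ S ↔ (o₁ = some i ∨ o₂ = some i) := fun i => by simp [hS]
  set C : ℝ := max C₂ 0 + ∑ j, C' j with hC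
  have hCs : ∀ j, C' j ≤ C := by
    intro j
    have h1 : C' j ≤ ∑ j, C' j := Finset.single_le_sum (f := C') (fun j _ => hP3 j) (Finset.mem_univ j)
    have h2 : 0 ≤ max C₂ 0 := le_max_right _ _
    linarith
  have hC0 : 0 ≤ C := by
    have h1 : 0 ≤ ∑ j, C' j := Finset.sum_nonneg fun j _ => hP3 j
    have h2 : 0 ≤ max C₂ 0 := le_max_right _ _
    linarith
  have hC2 : C₂ ≤ C := by
    have h1 : 0 ≤ ∑ j, C' j := Finset.sum_nonneg fun j _ => hP3 j
    have h2 : C₂ ≤ max C₂ 0 := le_max_left _ _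
    linarith
  refine ⟨S, Pol, C, fun i => ?_, ?_, hP1, fun j y y' hy => hP2 j y y' fun i hi => hy i ((hSmem i).mpr hi), hC0, ?_⟩
  · rw [hSmem]
    exact ⟨fun hi => hL.zero_of_some hi, fun hi => hL.some_of_zero hi⟩
  · have h1 : S ⊆ o₁.toFinset ∪ o₂.toFinset := by
      intro i hi
      rcases (hSmem i).mp hi with h1 | h1
      · exact Finset.mem_union_left _ (by simp [h1])
      · exact Finset.mem_union_right _ (by simp [h1])
    refine (Finset.card_le_card h1).trans ((Finset.card_union_le _ _).trans ?_)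
    have h2 : ∀ o : Option (Fin k), o.toFinset.card ≤ 1 := fun o => by cases o <;> simp
    have := h2 o₁
    have := h2 o₂
    omega
  · have hall : ∀ᶠ x in 𝓝 (σ 0), ∀ j, x ∈ oc P H → ∀ v, Tan (coneE P) x v →
        ‖(θ j).toFun x v - eval (fun i => ellE (E i) (c i) x v) (Pol j)‖ ≤ C' j * fs x v * logLen E c x v ^ (m j - 1) :=
      Filter.eventually_all.mpr hP4
    filter_upwards [hall, hL.chart.right, hτ.eventually hlam, hfr] with x h1 h2 h3 h4 hx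
    refine ⟨fun i hi => ?_, fun j v hv => ?_⟩
    · rw [hSmem] at hi
      push Not at hi
      obtain ⟨κ, hκ, hxκ⟩ := h2 hx.1
      have h5 := (h4 hx).1
      have h6 : lamV (E i) (c i) x = lamV (E i) (c i) (σ (τ x)) := by
        conv_lhs => rw [hxκ]
        exact lamE_smul (hE i) hκ (fun h0 => hc.zero_notMem (h0 ▸ h5.1)) (hne i _ h5)
      rw [h6]
      exact (h3 i hi.1 hi.2).trans hC2
    · refine (h1 j hx v hv).trans ?_
      have h5 : 0 ≤ fs x v := Pool.Agent.H36.BP.fs_nonneg _ _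
      have h6 : 0 ≤ logLen E c x v := by
        unfold logLen
        exact add_nonneg h5 (Finset.sum_nonneg fun i _ => norm_nonneg _)
      exact mul_le_mul_of_nonneg_right (mul_le_mul_of_nonneg_right (hCs j) h5) (by positivity)

end Pool.Agent.SR3

end
end

section

/-!
# SR3 Rsd: module H3, `exists_res`

The local statement `res_loc` (Rloc.lean) and the finite cover of RsdA.lean.
-/

set_option autoImplicit false

open Topology Filter Metric MvPolynomial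

noncomputable section

namespace Pool.Agent.SR3

open Pool.Agent.H36.BP (EN fs)
open Pool.Agent.H17BP (Surface)
open Pool.Agent.H14.PP (IsCone Tan)
open Pool.Agent.H17EF (coneE)
open Pool.Agent.AD (SymDiff)

variable {N k M : ℕ}

variable {P : Ideal (MvPolynomial (Fin (N + 1)) ℂ)} {H : MvPolynomial (Fin (N + 1)) ℂ} {h : ℕ} {E : Fin k → Fin (M + 1) → MvPolynomial (Fin (N + 1)) ℂ}
  {c b : Fin k → ℕ}

/-- MODULE H3 (Rsd.lean and others): the residues. -/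
theorem exists_res (hX : Surface (coneE P)) (hc : IsCone (coneE P)) (hH : H.IsHomogeneous h) (_h1 : 1 ≤ h)
    (hE : ∀ i l, (E i l).IsHomogeneous (c i)) (hs : Snc P H E b) {s : ℕ} {m : Fin s → ℕ} (hm : ∀ j, 1 ≤ m j) (θ : ∀ j, SymDiff (oc P H) (m j))
    (hθ : ∀ j, HasLogPoles E c (θ j)) :
    ∃ (n : ℕ) (supp : Fin n → Finset (Fin k)) (Pol : Fin n → Fin s → MvPolynomial (Fin k) ℂ) (ty : EN N → Fin n),
      (∀ t, (supp t).card ≤ 2) ∧ (∀ t j, (Pol t j).IsHomogeneous (m j)) ∧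
      (∀ t j (y y' : Fin k → ℂ), (∀ i ∈ supp t, y i = y' i) → eval y (Pol t j) = eval y' (Pol t j)) ∧
      (∃ C : ℝ, 0 ≤ C ∧ ∀ x ∈ oc P H, (∀ i, i ∉ supp (ty x) → lamE (E i) (c i) x ≤ C) ∧ ∀ j v, Tan (coneE P) x v →
        ‖(θ j).toFun x v - eval (fun i => ellE (E i) (c i) x v) (Pol (ty x) j)‖ ≤ C * fs x v * logLen E c x v ^ (m j - 1)) := by
  refine exists_res_of_loc hc hH hE (fun i x hx => snc_ne hs i hx) θ fun x₀ hx₀ => ?_
  obtain ⟨S, Pol, C, -, hS, hPh, hPs, hC, hx⟩ := res_loc hX hc hH hE hs hm θ hθ hx₀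
  obtain ⟨V, hV, hVo, hxV⟩ := _root_.mem_nhds_iff.1 hx
  exact ⟨V, C, S, Pol, hVo, hxV, hC, hS, hPh, hPs, fun x hxV' hxo => hV hxV' hxo⟩

end Pool.Agent.SR3

end
end
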