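import Pool.Agent.H43.TL2.M135

/-! The parts of this file: SR3.CLowA, SR3.CPig. -/

section

/-!
# SR3 CLowA: the lower bound near a well, but not too near

`z` at distance between `exp (- θ ρ)` and `δ ρ` from the nearest well `ζ k`; compare with a point `z'` of the rim of the hole `k`.
-/

set_option autoImplicit false

open Metric

noncomputable section

namespace Pool.Agent.SR3

namespace CLowA

/-- the term of a well other than the nearest one -/
theorem term_ge {m C d d' t : ℝ} (hm : 0 ≤ m) (hmC : m ≤ C) (ht : 0 < t) (hd : t ≤ d) (hd' : 0 < d') (h : d' ≤ d + 2 * t) :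
    -(C * (2 * t / d)) ≤ m * (Real.log d - Real.log d') := by
  have hdp : 0 < d := lt_of_lt_of_le ht hd
  have h1 : Real.log d' ≤ Real.log (d + 2 * t) := Real.log_le_log hd' h
  have h2 : Real.log (d + 2 * t) = Real.log d + Real.log (1 + 2 * t / d) := by
    rw [← Real.log_mul hdp.ne' (by positivity)]
    congr 1
    field_simp
  have h3 : Real.log (1 + 2 * t / d) ≤ 2 * t / d := by
    have := Real.log_le_sub_one_of_pos (show (0 : ℝ) < 1 + 2 * t / d by positivity)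
    linarith
  have h4 : -(2 * t / d) ≤ Real.log d - Real.log d' := by linarith
  have h5 : 0 ≤ 2 * t / d := by positivity
  calc -(C * (2 * t / d)) ≤ -(m * (2 * t / d)) := neg_le_neg (mul_le_mul_of_nonneg_right hmC h5)
    _ = m * (-(2 * t / d)) := by ring
    _ ≤ _ := mul_le_mul_of_nonneg_left h4 hm

end CLowA

theorem wd_lowA {C η : ℝ} (hC : 1 ≤ C) (hη : 0 < η) : ∃ δ c θ ρ₁ : ℝ, 0 < δ ∧ δ ≤ 1 / 8 ∧ 0 < c ∧ 0 < θ ∧ ∀ (κ : Type) [Fintype κ] (ζ : κ → ℂ) (s : κ → ℝ)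
    (M : κ → Fin 2 → ℕ) (h : Fin 2 → ℂ → ℂ) (z₀ : ℂ) (ρ K : ℝ), Wd ζ s M h z₀ ρ C η K → 2 ≤ K → ρ₁ ≤ ρ → ∀ z ∈ ball z₀ (ρ / 8),
      (∀ k, Real.exp (-(θ * ρ)) ≤ ‖z - ζ k‖) → (∃ k, ‖z - ζ k‖ ≤ δ * ρ) → ∀ i, c * ρ ≤ sg ζ M h i z := by
  obtain ⟨C₁, ρa, hC₁, hρa, hbdd⟩ := wd_bdd hC hη
  obtain ⟨C₂, ρb, hC₂, hρb, hnum⟩ := wd_num hC hη
  set A : ℝ := 16 * C * C / η + 1 with hA
  have hCp : 0 < C := by linarith
  have hC₁p : 0 < C₁ := by linarith
  have hC₂p : 0 < C₂ := by linarith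
  have hApos : 1 < A := by
    have : 0 < 16 * C * C / η := by positivity
    linarith
  set Λ : ℝ := 16 * C * C₂ / η + Real.log 8 with hΛ
  have hlog8 : 0 < Real.log 8 := Real.log_pos (by norm_num)
  have hΛpos : 0 < Λ := by positivity
  set δ : ℝ := min (Real.exp (-Λ) / (A + 1)) (η / (32 * C₁)) with hδ
  have hδpos : 0 < δ := by
    rw [hδ]
    exact lt_min (by positivity) (by positivity)
  have hδ1 : (A + 1) * δ ≤ Real.exp (-Λ) := by
    have h1 : δ ≤ Real.exp (-Λ) / (A + 1) := min_le_left _ _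
    have h2 : 0 < A + 1 := by linarith
    rw [le_div_iff₀ h2] at h1
    linarith
  have hδ2 : 2 * C₁ * δ ≤ η / 16 := by
    have h1 : δ ≤ η / (32 * C₁) := min_le_right _ _
    rw [le_div_iff₀ (by positivity)] at h1
    linarith
  have hexp8 : Real.exp (-Λ) ≤ 1 / 8 := by
    have h1 : Real.exp (-Λ) ≤ Real.exp (-Real.log 8) := by
      apply Real.exp_le_exp.mpr
      have : 0 < 16 * C * C₂ / η := by positivity
      linarith
    rw [Real.exp_neg (Real.log 8), Real.exp_log (by norm_num)] at h1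
    linarith
  have hδ8 : δ ≤ 1 / 8 := by linarith [mul_pos (show (0 : ℝ) < A by linarith) hδpos]
  refine ⟨δ, η / 8, η / 2, max (max ρa ρb) (16 * C / η), hδpos, hδ8, by positivity, by positivity, ?_⟩
  intro κ _ ζ s M h z₀ ρ K W hK hρ z hz hfar hnear i
  classical
  have hρa' : ρa ≤ ρ := le_trans (le_trans (le_max_left _ _) (le_max_left _ _)) hρ
  have hρb' : ρb ≤ ρ := le_trans (le_trans (le_max_right _ _) (le_max_left _ _)) hρ
  have hρc : 16 * C / η ≤ ρ := le_trans (le_max_right _ _) hρ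
  have hρC : 16 * C ≤ η * ρ := by
    rw [div_le_iff₀ hη] at hρc
    linarith
  have hρpos : 0 < ρ := by linarith
  -- the nearest well
  obtain ⟨k₀, hk₀⟩ := hnear
  obtain ⟨k, -, hk⟩ := Finset.exists_min_image Finset.univ (fun j => ‖z - ζ j‖) ⟨k₀, Finset.mem_univ _⟩
  have hkmin : ∀ j, ‖z - ζ k‖ ≤ ‖z - ζ j‖ := fun j => hk j (Finset.mem_univ _)
  set t : ℝ := ‖z - ζ k‖ with ht
  have htδ : t ≤ δ * ρ := le_trans (hkmin k₀) hk₀
  have htexp : Real.exp (-(η / 2 * ρ)) ≤ t := hfar k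
  have htpos : 0 < t := lt_of_lt_of_le (Real.exp_pos _) htexp
  have hspos : 0 < s k := W.s_pos k
  have hsexp : s k ≤ Real.exp (-(η * ρ)) := W.s_le k
  have hst : s k ≤ t := by
    refine le_trans hsexp (le_trans (Real.exp_le_exp.mpr ?_) htexp)
    linarith [mul_pos hη hρpos]
  have hzz₀ : ‖z - z₀‖ < ρ / 8 := by rwa [mem_ball, dist_eq_norm] at hz
  -- the point of the rim
  set z' : ℂ := ζ k + (s k : ℂ) with hz'
  have hz'k : ‖z' - ζ k‖ = s k := by
    rw [hz', add_sub_cancel_left, Complex.norm_real, Real.norm_of_nonneg hspos.le]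
  have hzz' : ‖z' - z‖ ≤ 2 * t := by
    have h1 : z' - z = (z' - ζ k) - (z - ζ k) := by ring
    rw [h1]
    refine le_trans (norm_sub_le _ _) ?_
    rw [hz'k]
    linarith
  have htρ : t ≤ ρ / 8 := by
    have h1 : δ * ρ ≤ 1 / 8 * ρ := mul_le_mul_of_nonneg_right hδ8 hρpos.le
    linarith
  have hz'z₀ : ‖z' - z₀‖ < 3 * ρ / 4 := by
    have h1 : z' - z₀ = (z' - z) + (z - z₀) := by ring
    rw [h1]
    refine lt_of_le_of_lt (norm_add_le _ _) ?_
    linarith
  have hz'b : z' ∈ ball z₀ (3 * ρ / 4) := by rw [mem_ball, dist_eq_norm]; exact hz'z₀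
  have hzb : z ∈ ball z₀ (3 * ρ / 4) := by rw [mem_ball, dist_eq_norm]; linarith
  have hsub : ball z₀ (3 * ρ / 4) ⊆ ball z₀ ρ := ball_subset_ball (by linarith)
  have hsep : ∀ j, j ≠ k → s j + s k ≤ ‖ζ j - ζ k‖ := by
    intro j hj
    have h1 := W.sep j k hj
    have h2 := W.sep k j (Ne.symm hj)
    rw [norm_sub_rev] at h2
    have h3 := W.s_pos j
    linarith [mul_le_mul_of_nonneg_right hK h3.le, mul_le_mul_of_nonneg_right hK hspos.le]
  have hz'far : ∀ j, s j ≤ ‖z' - ζ j‖ := by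
    intro j
    by_cases hj : j = k
    · subst hj; rw [hz'k]
    · have h1 := hsep j hj
      have h2 : ‖ζ j - ζ k‖ ≤ ‖z' - ζ j‖ + ‖z' - ζ k‖ := by
        have h3 : ζ j - ζ k = -(z' - ζ j) + (z' - ζ k) := by ring
        rw [h3]
        refine le_trans (norm_add_le _ _) ?_
        rw [norm_neg]
      rw [hz'k] at h2
      linarith
  have hlow : -C ≤ sg ζ M h i z' := W.low i z' (hsub hz'b) hz'far
  -- the holomorphic part
  have hLip : ‖h i z' - h i z‖ ≤ C₁ * ‖z' - z‖ := by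
    refine Convex.norm_image_sub_le_of_norm_deriv_le (s := ball z₀ (3 * ρ / 4)) ?_ ?_ (convex_ball _ _) hzb hz'b
    · intro w hw
      exact ((W.hol i) w (hsub hw)).differentiableAt (isOpen_ball.mem_nhds (hsub hw))
    · intro w hw
      exact (hbdd κ ζ s M h z₀ ρ K W hK hρa' i w hw).2.2
  have hre : (h i z').re - (h i z).re ≤ η / 16 * ρ := by
    have h1 : (h i z').re - (h i z).re ≤ ‖h i z' - h i z‖ := by
      rw [← Complex.sub_re]; exact Complex.re_le_norm _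
    have h2 : C₁ * ‖z' - z‖ ≤ C₁ * (2 * t) := mul_le_mul_of_nonneg_left hzz' hC₁p.le
    have h3 : C₁ * (2 * t) ≤ C₁ * (2 * (δ * ρ)) := by
      apply mul_le_mul_of_nonneg_left _ hC₁p.le
      linarith
    have h4 : C₁ * (2 * (δ * ρ)) ≤ η / 16 * ρ := by
      have := mul_le_mul_of_nonneg_right hδ2 hρpos.le
      linarith
    linarith
  -- the number of wells near `ζ k`
  set t' : ℝ := (A + 1) * t with ht'
  have htt' : t ≤ t' := by
    rw [ht']; linarith [mul_pos (show (0 : ℝ) < A by linarith) htpos]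
  have ht'ρ : t' ≤ Real.exp (-Λ) * ρ := by
    have h1 : (A + 1) * t ≤ (A + 1) * (δ * ρ) := mul_le_mul_of_nonneg_left htδ (by linarith)
    have h2 : (A + 1) * (δ * ρ) ≤ Real.exp (-Λ) * ρ := by
      rw [← mul_assoc]; exact mul_le_mul_of_nonneg_right hδ1 hρpos.le
    exact le_trans h1 h2
  have ht'8 : t' ≤ ρ / 8 := by
    have := mul_le_mul_of_nonneg_right hexp8 hρpos.le
    linarith
  have ht'pos : 0 < t' := lt_of_lt_of_le htpos htt'
  have hζk : ζ k ∈ ball z₀ (5 * ρ / 8) := by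
    rw [mem_ball, dist_eq_norm]
    have h1 : ζ k - z₀ = -(z - ζ k) + (z - z₀) := by ring
    rw [h1]
    refine lt_of_le_of_lt (norm_add_le _ _) ?_
    rw [norm_neg]
    linarith
  have hcard := hnum κ ζ s M h z₀ ρ K W hK hρb' k hζk t' (le_trans hst htt') ht'8
  set N : ℕ := (Finset.univ.filter fun j => ‖ζ j - ζ k‖ ≤ t').card with hN
  have hlogΛ : Λ ≤ Real.log (ρ / t') := by
    rw [Real.le_log_iff_exp_le (by positivity), le_div_iff₀ ht'pos]
    calc Real.exp Λ * t' ≤ Real.exp Λ * (Real.exp (-Λ) * ρ) := mul_le_mul_of_nonneg_left ht'ρ (Real.exp_pos _).le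
      _ = ρ := by rw [← mul_assoc, ← Real.exp_add]; simp
  have hNle : (N : ℝ) * Λ ≤ C₂ * ρ := le_trans (mul_le_mul_of_nonneg_left hlogΛ (Nat.cast_nonneg _)) hcard
  have hN2 : 2 * C * (N : ℝ) ≤ η / 8 * ρ := by
    have h1 : (N : ℝ) * (16 * C * C₂ / η) ≤ C₂ * ρ := by
      refine le_trans (mul_le_mul_of_nonneg_left ?_ (Nat.cast_nonneg _)) hNle
      rw [hΛ]; linarith
    have h2 : (N : ℝ) * (16 * C * C₂ / η) = C₂ * ((N : ℝ) * (16 * C / η)) := by ring
    rw [h2] at h1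
    have h3 : (N : ℝ) * (16 * C / η) ≤ ρ := le_of_mul_le_mul_left h1 hC₂p
    have h4 : (N : ℝ) * (16 * C / η) = (N * (16 * C)) / η := by ring
    rw [h4, div_le_iff₀ hη] at h3
    linarith
  have hA2 : (Fintype.card κ : ℝ) * (2 * C / A) ≤ η / 8 * ρ := by
    have h1 : 2 * C / A ≤ η / (8 * C) := by
      rw [div_le_div_iff₀ (by linarith) (by positivity)]
      have h2 : η * A = 16 * C * C + η := by rw [hA]; field_simp
      rw [h2]; linarith
    calc (Fintype.card κ : ℝ) * (2 * C / A) ≤ (C * ρ) * (η / (8 * C)) :=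
          mul_le_mul W.card h1 (by positivity) (by positivity)
      _ = η / 8 * ρ := by field_simp
  -- the terms
  have hterm : ∀ j, (if j = k then η / 2 * ρ else 0) - (if ‖ζ j - ζ k‖ ≤ t' then 2 * C else 0) - 2 * C / A ≤
      (M j i : ℝ) * (Real.log ‖z - ζ j‖ - Real.log ‖z' - ζ j‖) := by
    intro j
    have hA0 : 0 < 2 * C / A := by positivity
    by_cases hj : j = k
    · subst hj
      rw [if_pos rfl, hz'k]
      have h1 : -(η / 2 * ρ) ≤ Real.log ‖z - ζ j‖ := by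
        rw [Real.le_log_iff_exp_le htpos]; exact htexp
      have h2 : Real.log (s j) ≤ -(η * ρ) := by
        rw [Real.log_le_iff_le_exp hspos]; exact hsexp
      have h3 : η / 2 * ρ ≤ Real.log ‖z - ζ j‖ - Real.log (s j) := by linarith
      have h4 : (1 : ℝ) ≤ (M j i : ℝ) := by exact_mod_cast W.one j i
      have h5 : 0 ≤ η / 2 * ρ := by positivity
      have h6 : η / 2 * ρ ≤ (M j i : ℝ) * (Real.log ‖z - ζ j‖ - Real.log (s j)) := h3.trans (le_mul_of_one_le_left (h5.trans h3) h4)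
      have h7 : (0 : ℝ) ≤ (if ‖ζ j - ζ j‖ ≤ t' then 2 * C else 0) := by split_ifs <;> positivity
      linarith
    · rw [if_neg hj]
      have hd : t ≤ ‖z - ζ j‖ := hkmin j
      have hd' : 0 < ‖z' - ζ j‖ := lt_of_lt_of_le (W.s_pos j) (hz'far j)
      have hdd : ‖z' - ζ j‖ ≤ ‖z - ζ j‖ + 2 * t := by
        have h1 : z' - ζ j = (z - ζ j) + (z' - z) := by ring
        rw [h1]
        refine le_trans (norm_add_le _ _) ?_
        linarith
      have h1 := CLowA.term_ge (Nat.cast_nonneg (M j i)) (W.M_le j i) htpos hd hd' hdd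
      have hdp : 0 < ‖z - ζ j‖ := lt_of_lt_of_le htpos hd
      by_cases hb : ‖ζ j - ζ k‖ ≤ t'
      · rw [if_pos hb]
        have h2 : 2 * t / ‖z - ζ j‖ ≤ 2 := by
          rw [div_le_iff₀ hdp]; linarith
        have h3 : C * (2 * t / ‖z - ζ j‖) ≤ C * 2 := mul_le_mul_of_nonneg_left h2 hCp.le
        linarith
      · rw [if_neg hb]
        have h4 : A * t ≤ ‖z - ζ j‖ := by
          have h5 : ‖ζ j - ζ k‖ ≤ ‖z - ζ j‖ + t := by
            have h6 : ζ j - ζ k = -(z - ζ j) + (z - ζ k) := by ring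
            rw [h6]
            refine le_trans (norm_add_le _ _) ?_
            rw [norm_neg]
          have h7 : t' < ‖ζ j - ζ k‖ := not_le.mp hb
          rw [ht'] at h7
          linarith
        have h2 : 2 * t / ‖z - ζ j‖ ≤ 2 / A := by
          rw [div_le_div_iff₀ hdp (by linarith)]
          linarith
        have h3 : C * (2 * t / ‖z - ζ j‖) ≤ C * (2 / A) := mul_le_mul_of_nonneg_left h2 hCp.le
        have h8 : C * (2 / A) = 2 * C / A := by ring
        linarith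
  have hsum := Finset.sum_le_sum (fun j (_ : j ∈ Finset.univ) => hterm j)
  rw [Finset.sum_sub_distrib, Finset.sum_sub_distrib, Finset.sum_ite_eq' Finset.univ k (fun _ => η / 2 * ρ), if_pos (Finset.mem_univ _),
    ← Finset.sum_filter, Finset.sum_const, Finset.sum_const, nsmul_eq_mul, nsmul_eq_mul, Finset.card_univ] at hsum
  have hsg : sg ζ M h i z = sg ζ M h i z' - ((h i z').re - (h i z).re) + ∑ j, (M j i : ℝ) * (Real.log ‖z - ζ j‖ - Real.log ‖z' - ζ j‖) := by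
    unfold sg
    simp only [mul_sub, Finset.sum_sub_distrib]
    ring
  rw [hsg]
  have hC16 : C ≤ η / 16 * ρ := by linarith
  have hNN : (N : ℝ) * (2 * C) = 2 * C * N := by ring
  linarith

end Pool.Agent.SR3
end
end

section

/-!
# SR3 CPig: a circle of exponentially small radius around a well on which `sl` is almost `μ / (z - ζ k)`
-/

set_option autoImplicit false

open Metric Filter Topology

noncomputable section

namespace Pool.Agent.SR3

/-- a gap in a finite set of distances -/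
private theorem exists_gap {κ : Type} [Fintype κ] (d : κ → ℝ) {A E T : ℝ} (hA : 1 < A) (hE : 0 < E) {p : ℕ}
    (hcard : (Finset.univ.filter fun j => d j ≤ T).card ≤ p) (hT : A ^ (3 * p + 3) * E ≤ T) :
    ∃ l : ℕ, l ≤ p ∧ ∀ j, ¬ (A ^ (3 * l + 1) * E ≤ d j ∧ d j ≤ A ^ (3 * l + 3) * E) := by
  classical
  by_contra hcon
  push Not at hcon
  have h1 : ∀ l : Fin (p + 1), ∃ j, A ^ (3 * (l : ℕ) + 1) * E ≤ d j ∧ d j ≤ A ^ (3 * (l : ℕ) + 3) * E := fun l => hcon l (Nat.lt_succ_iff.1 l.2)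
  choose f hf using h1
  have hlt : ∀ l l' : Fin (p + 1), (l : ℕ) < l' → f l ≠ f l' := by
    intro l l' hll he
    have h2 := (hf l).2
    have h3 := (hf l').1
    rw [he] at h2
    have h4 : A ^ (3 * (l : ℕ) + 3) < A ^ (3 * (l' : ℕ) + 1) := pow_lt_pow_right₀ hA (by omega)
    have h5 := mul_lt_mul_of_pos_right h4 hE
    linarith
  have hinj : Function.Injective f := by
    intro l l' he
    by_contra hne
    rcases lt_or_gt_of_ne (fun h => hne (Fin.ext h) : (l : ℕ) ≠ l') with h | h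
    · exact hlt l l' h he
    · exact hlt l' l h he.symm
  have h6 : (Finset.univ.image f) ⊆ Finset.univ.filter fun j => d j ≤ T := by
    intro j hj
    obtain ⟨l, -, rfl⟩ := Finset.mem_image.1 hj
    rw [Finset.mem_filter]
    refine ⟨Finset.mem_univ _, (hf l).2.trans (le_trans ?_ hT)⟩
    have h7 : A ^ (3 * (l : ℕ) + 3) ≤ A ^ (3 * p + 3) := pow_le_pow_right₀ hA.le (by have := l.2; omega)
    exact mul_le_mul_of_nonneg_right h7 hE.le
  have h8 := Finset.card_le_card h6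
  rw [Finset.card_image_of_injective _ hinj, Finset.card_univ, Fintype.card_fin] at h8
  omega

/-- the terms of `sl` on the circle -/
private theorem sl_bound {κ : Type} [Fintype κ] {ζ : κ → ℂ} {m : κ → ℕ} {k : κ} {z : ℂ} {t T A C L : ℝ} {p : ℕ} (ht : 0 < t) (hA : 2 ≤ A) (hC : 0 ≤ C)
    (hz : ‖z - ζ k‖ = t) (hgap : ∀ j, ¬ (t / A ≤ ‖ζ j - ζ k‖ ∧ ‖ζ j - ζ k‖ ≤ A * t)) (hcard : (Finset.univ.filter fun j => ‖ζ j - ζ k‖ ≤ T).card ≤ p)
    (hT : A * t ≤ T) (hm : ∀ j, (m j : ℝ) ≤ C) (hL : (Fintype.card κ : ℝ) ≤ L) :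
    (∀ j, t / 2 ≤ ‖z - ζ j‖) ∧
      ‖∑ j, (m j : ℂ) / (z - ζ j) - ((∑ j ∈ Finset.univ.filter (fun j => ‖ζ j - ζ k‖ < t), m j : ℕ) : ℂ) / (z - ζ k)‖ ≤
        p * (C * (2 / (A * t))) + L * (C * (2 / T)) := by
  classical
  have hA0 : 0 < A := by linarith
  have hT0 : 0 < T := lt_of_lt_of_le (mul_pos hA0 ht) hT
  have hL0 : 0 ≤ L := le_trans (Nat.cast_nonneg _) hL
  have htA : t / A ≤ t / 2 := div_le_div_of_nonneg_left ht.le (by norm_num) hA
  have hd1 : ∀ j, ‖z - ζ j‖ ≥ t - ‖ζ j - ζ k‖ := by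
    intro j
    have h1 : ‖z - ζ k‖ ≤ ‖z - ζ j‖ + ‖ζ j - ζ k‖ := by
      have := norm_add_le (z - ζ j) (ζ j - ζ k)
      rwa [sub_add_sub_cancel] at this
    rw [hz] at h1
    linarith
  have hd2 : ∀ j, ‖z - ζ j‖ ≥ ‖ζ j - ζ k‖ - t := by
    intro j
    have h1 : ‖ζ j - ζ k‖ ≤ ‖ζ j - z‖ + ‖z - ζ k‖ := by
      have := norm_add_le (ζ j - z) (z - ζ k)
      rwa [sub_add_sub_cancel] at this
    rw [hz, norm_sub_rev (ζ j) z] at h1
    linarith
  -- near and far
  have hnear : ∀ j, ‖ζ j - ζ k‖ < t → ‖ζ j - ζ k‖ < t / A ∧ t / 2 ≤ ‖z - ζ j‖ := by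
    intro j hj
    have h1 : ‖ζ j - ζ k‖ < t / A := by
      by_contra h
      refine hgap j ⟨not_lt.1 h, hj.le.trans ?_⟩
      linarith [mul_le_mul_of_nonneg_right hA ht.le]
    have h2 := hd1 j
    exact ⟨h1, by linarith⟩
  have hfar : ∀ j, ¬ ‖ζ j - ζ k‖ < t → A * t < ‖ζ j - ζ k‖ ∧ A * t / 2 ≤ ‖z - ζ j‖ := by
    intro j hj
    have h1 : A * t < ‖ζ j - ζ k‖ := by
      by_contra h
      refine hgap j ⟨?_, not_lt.1 h⟩
      have : t / A ≤ t := div_le_self ht.le (by linarith)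
      exact this.trans (not_lt.1 hj)
    have h2 := hd2 j
    refine ⟨h1, ?_⟩
    linarith [mul_le_mul_of_nonneg_right hA ht.le]
  have hall : ∀ j, t / 2 ≤ ‖z - ζ j‖ := by
    intro j
    by_cases hj : ‖ζ j - ζ k‖ < t
    · exact (hnear j hj).2
    · have := (hfar j hj).2
      linarith [mul_le_mul_of_nonneg_right hA ht.le]
  refine ⟨hall, ?_⟩
  have hne : ∀ j, z - ζ j ≠ 0 := fun j => norm_pos_iff.1 (lt_of_lt_of_le (half_pos ht) (hall j))
  have hsplit : ∑ j, (m j : ℂ) / (z - ζ j) - ((∑ j ∈ Finset.univ.filter (fun j => ‖ζ j - ζ k‖ < t), m j : ℕ) : ℂ) / (z - ζ k) =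
      ∑ j, ((m j : ℂ) / (z - ζ j) - if ‖ζ j - ζ k‖ < t then (m j : ℂ) / (z - ζ k) else 0) := by
    rw [Finset.sum_sub_distrib, Nat.cast_sum, Finset.sum_div, Finset.sum_filter]
  rw [hsplit]
  refine (norm_sum_le _ _).trans ?_
  have hterm : ∀ j, ‖(m j : ℂ) / (z - ζ j) - if ‖ζ j - ζ k‖ < t then (m j : ℂ) / (z - ζ k) else 0‖ ≤
      (if ‖ζ j - ζ k‖ ≤ T then C * (2 / (A * t)) else 0) + C * (2 / T) := by
    intro j
    have hmj : ‖(m j : ℂ)‖ ≤ C := by
      rw [Complex.norm_natCast]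
      exact hm j
    have hc1 : 0 ≤ C * (2 / (A * t)) := by positivity
    have hc2 : 0 ≤ C * (2 / T) := by positivity
    by_cases hj : ‖ζ j - ζ k‖ < t
    · obtain ⟨h1, h2⟩ := hnear j hj
      have h3 : ‖ζ j - ζ k‖ ≤ T := by
        have : t ≤ T := le_trans (by linarith [mul_le_mul_of_nonneg_right hA ht.le]) hT
        linarith
      rw [if_pos hj, if_pos h3]
      have h4 : (m j : ℂ) / (z - ζ j) - (m j : ℂ) / (z - ζ k) = (m j : ℂ) * ((ζ j - ζ k) / ((z - ζ j) * (z - ζ k))) := by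
        have h5 := hne j
        have h6 := hne k
        field_simp
        ring
      rw [h4, norm_mul, norm_div, norm_mul, hz]
      have h7 : ‖ζ j - ζ k‖ / (‖z - ζ j‖ * t) ≤ 2 / (A * t) := by
        have h8 : 0 < ‖z - ζ j‖ := lt_of_lt_of_le (half_pos ht) h2
        rw [div_le_div_iff₀ (mul_pos h8 ht) (mul_pos hA0 ht)]
        have h9 : ‖ζ j - ζ k‖ * A ≤ t := by
          have := (lt_div_iff₀ hA0).1 h1
          exact this.le
        linarith [mul_le_mul_of_nonneg_right h9 ht.le, mul_le_mul_of_nonneg_right h2 ht.le]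
      have h10 := mul_le_mul hmj h7 (by positivity) hC
      linarith
    · obtain ⟨h1, h2⟩ := hfar j hj
      rw [if_neg hj, sub_zero, norm_div]
      have h8 : 0 < ‖z - ζ j‖ := lt_of_lt_of_le (half_pos ht) (hall j)
      by_cases h3 : ‖ζ j - ζ k‖ ≤ T
      · rw [if_pos h3]
        have h4 : ‖(m j : ℂ)‖ / ‖z - ζ j‖ ≤ C * (2 / (A * t)) := by
          rw [div_le_iff₀ h8]
          have h5 : C * (2 / (A * t)) * (A * t / 2) = C := by
            field_simp
          calc ‖(m j : ℂ)‖ ≤ C := hmj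
            _ = C * (2 / (A * t)) * (A * t / 2) := h5.symm
            _ ≤ C * (2 / (A * t)) * ‖z - ζ j‖ := mul_le_mul_of_nonneg_left h2 hc1
        linarith
      · rw [if_neg h3]
        have h6 : T / 2 ≤ ‖z - ζ j‖ := by
          have h7 := hd2 j
          have h9 : t ≤ T / 2 := by linarith [mul_le_mul_of_nonneg_right hA ht.le]
          linarith [not_le.1 h3]
        have h4 : ‖(m j : ℂ)‖ / ‖z - ζ j‖ ≤ C * (2 / T) := by
          rw [div_le_iff₀ h8]
          have h5 : C * (2 / T) * (T / 2) = C := by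
            field_simp
          calc ‖(m j : ℂ)‖ ≤ C := hmj
            _ = C * (2 / T) * (T / 2) := h5.symm
            _ ≤ C * (2 / T) * ‖z - ζ j‖ := mul_le_mul_of_nonneg_left h6 hc2
        linarith
  refine (Finset.sum_le_sum fun j _ => hterm j).trans ?_
  rw [Finset.sum_add_distrib, ← Finset.sum_filter, Finset.sum_const, Finset.sum_const, nsmul_eq_mul, nsmul_eq_mul, Finset.card_univ]
  have hc1 : 0 ≤ C * (2 / (A * t)) := by positivity
  have hc2 : 0 ≤ C * (2 / T) := by positivity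
  have h1 : ((Finset.univ.filter fun j => ‖ζ j - ζ k‖ ≤ T).card : ℝ) ≤ p := by exact_mod_cast hcard
  exact add_le_add (mul_le_mul_of_nonneg_right h1 hc1) (mul_le_mul_of_nonneg_right hL hc2)

theorem wd_pig {C η : ℝ} (hC : 1 ≤ C) (hη : 0 < η) {θ ε : ℝ} (hθ : 0 < θ) (hθη : θ < η) (hε : 0 < ε) : ∃ ρ₁ N₁ : ℝ, ∀ (κ : Type) [Fintype κ] (ζ : κ → ℂ)
    (s : κ → ℝ) (M : κ → Fin 2 → ℕ) (h : Fin 2 → ℂ → ℂ) (z₀ : ℂ) (ρ K : ℝ), Wd ζ s M h z₀ ρ C η K → 2 ≤ K → ρ₁ ≤ ρ → ∀ k, ζ k ∈ ball z₀ (ρ / 2) →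
      ∃ (t : ℝ) (μ : Fin 2 → ℕ), Real.exp (-(θ * ρ)) ≤ t ∧ t ≤ Real.exp (-(θ * ρ / 2)) ∧ (∀ i, 1 ≤ μ i ∧ (μ i : ℝ) ≤ N₁) ∧
        (μ = fun i => ∑ j ∈ Finset.univ.filter (fun j => ‖ζ j - ζ k‖ < t), M j i) ∧
        ∀ z, ‖z - ζ k‖ = t → (∀ j, t / 2 ≤ ‖z - ζ j‖) ∧ ∀ i, ‖sl ζ M h i z - (μ i : ℂ) / (z - ζ k)‖ ≤ ε / t := by
  obtain ⟨C₁, ρa, hC₁, hρa, hbdd⟩ := wd_bdd hC hη
  obtain ⟨C₂, ρb, hC₂, hρb, hnum⟩ := wd_num hC hη
  obtain ⟨p, hp⟩ : ∃ p : ℕ, p = ⌊2 * C₂ / θ⌋₊ := ⟨_, rfl⟩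
  obtain ⟨A, hA2, hA⟩ : ∃ A : ℝ, 2 ≤ A ∧ 4 * (p * C) / ε ≤ A := ⟨max 2 (4 * (p * C) / ε), le_max_left _ _, le_max_right _ _⟩
  have hA0 : 0 < A := by linarith
  obtain ⟨L, hL⟩ : ∃ L : ℝ, L = A ^ (3 * p + 2) := ⟨_, rfl⟩
  have hL0 : 0 < L := by rw [hL]; positivity
  -- large `ρ`
  have e1 : Tendsto (fun ρ : ℝ => θ * ρ / 2) atTop atTop := (tendsto_id.const_mul_atTop hθ).atTop_div_const (by norm_num)
  have e2 : Tendsto (fun ρ : ℝ => Real.exp (-(θ * ρ / 2))) atTop (𝓝 0) := Real.tendsto_exp_neg_atTop_nhds_zero.comp e1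
  have e3 : Tendsto (fun ρ : ℝ => (θ * ρ / 2) * Real.exp (-(θ * ρ / 2))) atTop (𝓝 0) := by
    have h1 := (Real.tendsto_pow_mul_exp_neg_atTop_nhds_zero 1).comp e1
    simpa [Function.comp_def] using h1
  have E1 : ∀ᶠ ρ : ℝ in atTop, Real.exp (-(θ * ρ / 2)) < 1 / (A * L) := e2.eventually (gt_mem_nhds (by positivity))
  have E2 : ∀ᶠ ρ : ℝ in atTop, Real.exp (-(θ * ρ / 2)) < ε / (4 * (C₁ * L)) := e2.eventually (gt_mem_nhds (by positivity))
  have E3 : ∀ᶠ ρ : ℝ in atTop, (θ * ρ / 2) * Real.exp (-(θ * ρ / 2)) < ε * θ / (16 * (C * C * L)) := e3.eventually (gt_mem_nhds (by positivity))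
  obtain ⟨ρc, hρc⟩ := eventually_atTop.1 (E1.and (E2.and E3))
  refine ⟨max (max ρa ρb) (max ρc 8), p * C, ?_⟩
  intro κ _ ζ s M h z₀ ρ K hW hK hρ k hk
  have hρa' : ρa ≤ ρ := ((le_max_left _ _).trans (le_max_left _ _)).trans hρ
  have hρb' : ρb ≤ ρ := ((le_max_right _ _).trans (le_max_left _ _)).trans hρ
  have hρc' : ρc ≤ ρ := ((le_max_left _ _).trans (le_max_right _ _)).trans hρ
  have hρ8 : 8 ≤ ρ := ((le_max_right _ _).trans (le_max_right _ _)).trans hρ
  obtain ⟨F1, F2, F3⟩ := hρc ρ hρc'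
  have hρ0 : 0 < ρ := by linarith
  obtain ⟨T, hT⟩ : ∃ T : ℝ, T = Real.exp (-(θ * ρ / 2)) := ⟨_, rfl⟩
  rw [← hT] at F1 F2 F3
  have hT0 : 0 < T := by rw [hT]; exact Real.exp_pos _
  have hT1 : T ≤ 1 := by
    rw [hT]
    apply Real.exp_le_one_iff.2
    have : 0 < θ * ρ / 2 := by positivity
    linarith
  have hTT : Real.exp (-(θ * ρ)) = T * T := by
    rw [hT, ← Real.exp_add]
    congr 1
    ring
  -- the number of wells
  have hcard : (Finset.univ.filter fun j => ‖ζ j - ζ k‖ ≤ T).card ≤ p := by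
    have h1 := hnum κ ζ s M h z₀ ρ K hW hK hρb' k (ball_subset_ball (by linarith) hk) T (by
      refine (hW.s_le k).trans ?_
      rw [hT]
      apply Real.exp_le_exp.2
      linarith [mul_lt_mul_of_pos_right hθη hρ0, mul_pos hθ hρ0]) (by linarith)
    have h2 : θ * ρ / 2 ≤ Real.log (ρ / T) := by
      rw [Real.log_div hρ0.ne' hT0.ne', hT, Real.log_exp]
      have : 0 ≤ Real.log ρ := Real.log_nonneg (by linarith)
      linarith
    have h3 : ((Finset.univ.filter fun j => ‖ζ j - ζ k‖ ≤ T).card : ℝ) * (θ * ρ / 2) ≤ C₂ * ρ :=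
      (mul_le_mul_of_nonneg_left h2 (Nat.cast_nonneg _)).trans h1
    rw [hp]
    apply Nat.le_floor
    rw [le_div_iff₀ hθ]
    have h4 : ((Finset.univ.filter fun j => ‖ζ j - ζ k‖ ≤ T).card : ℝ) * θ * ρ ≤ 2 * C₂ * ρ := by linarith
    exact le_of_mul_le_mul_right h4 hρ0
  have hAL : A * L * T ≤ 1 := by
    have h1 := (lt_div_iff₀ (mul_pos hA0 hL0)).1 F1
    linarith
  have hgapT : A ^ (3 * p + 3) * (T * T) ≤ T := by
    have h1 : A ^ (3 * p + 3) = A * L := by rw [hL]; ring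
    rw [h1]
    calc A * L * (T * T) = (A * L * T) * T := by ring
      _ ≤ 1 * T := mul_le_mul_of_nonneg_right hAL hT0.le
      _ = T := one_mul T
  obtain ⟨l, hlp, hgap⟩ := exists_gap (fun j => ‖ζ j - ζ k‖) (A := A) (E := T * T) (T := T) (by linarith) (mul_pos hT0 hT0) hcard hgapT
  obtain ⟨t, ht⟩ : ∃ t : ℝ, t = A ^ (3 * l + 2) * (T * T) := ⟨_, rfl⟩
  have ht0 : 0 < t := by rw [ht]; positivity
  have htL : t ≤ L * (T * T) := by
    rw [ht, hL]
    exact mul_le_mul_of_nonneg_right (pow_le_pow_right₀ (by linarith) (by omega)) (by positivity)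
  have hAt : A * t ≤ T := by
    calc A * t ≤ A * (L * (T * T)) := mul_le_mul_of_nonneg_left htL hA0.le
      _ = (A * L * T) * T := by ring
      _ ≤ 1 * T := mul_le_mul_of_nonneg_right hAL hT0.le
      _ = T := one_mul T
  have htT : t ≤ T := by linarith [mul_le_mul_of_nonneg_right hA2 ht0.le]
  have hgap' : ∀ j, ¬ (t / A ≤ ‖ζ j - ζ k‖ ∧ ‖ζ j - ζ k‖ ≤ A * t) := by
    intro j hj
    refine hgap j ⟨?_, ?_⟩
    · have h1 : t / A = A ^ (3 * l + 1) * (T * T) := by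
        rw [ht, div_eq_iff hA0.ne']
        ring
      rw [← h1]
      exact hj.1
    · have h1 : A * t = A ^ (3 * l + 3) * (T * T) := by
        rw [ht]
        ring
      rw [← h1]
      exact hj.2
  have hμ : ∀ i, 1 ≤ ∑ j ∈ Finset.univ.filter (fun j => ‖ζ j - ζ k‖ < t), M j i ∧
      ((∑ j ∈ Finset.univ.filter (fun j => ‖ζ j - ζ k‖ < t), M j i : ℕ) : ℝ) ≤ p * C := by
    intro i
    have hk' : k ∈ Finset.univ.filter (fun j => ‖ζ j - ζ k‖ < t) := by
      rw [Finset.mem_filter]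
      exact ⟨Finset.mem_univ _, by rw [sub_self, norm_zero]; exact ht0⟩
    constructor
    · exact (hW.one k i).trans (Finset.single_le_sum (f := fun j => M j i) (fun j _ => Nat.zero_le _) hk')
    · rw [Nat.cast_sum]
      have h1 : ∑ j ∈ Finset.univ.filter (fun j => ‖ζ j - ζ k‖ < t), (M j i : ℝ) ≤ ∑ j ∈ Finset.univ.filter (fun j => ‖ζ j - ζ k‖ < t), C :=
        Finset.sum_le_sum fun j _ => hW.M_le j i
      rw [Finset.sum_const, nsmul_eq_mul] at h1
      refine h1.trans (mul_le_mul_of_nonneg_right ?_ (by linarith))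
      have h2 : (Finset.univ.filter (fun j => ‖ζ j - ζ k‖ < t)).card ≤ (Finset.univ.filter fun j => ‖ζ j - ζ k‖ ≤ T).card := by
        apply Finset.card_le_card
        intro j hj
        rw [Finset.mem_filter] at hj ⊢
        exact ⟨hj.1, hj.2.le.trans htT⟩
      exact_mod_cast h2.trans hcard
  refine ⟨t, fun i => ∑ j ∈ Finset.univ.filter (fun j => ‖ζ j - ζ k‖ < t), M j i, ?_, ?_, hμ, rfl, ?_⟩
  · rw [hTT, ht]
    have h1 : 1 ≤ A ^ (3 * l + 2) := one_le_pow₀ (by linarith)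
    exact le_mul_of_one_le_left (mul_pos hT0 hT0).le h1
  · rw [← hT]
    exact htT
  · intro z hz
    refine ⟨(sl_bound (m := fun j => M j 0) ht0 hA2 (by linarith) hz hgap' hcard hAt (fun j => hW.M_le j 0) hW.card).1, fun i => ?_⟩
    have h1 := (sl_bound (m := fun j => M j i) ht0 hA2 (by linarith) hz hgap' hcard hAt (fun j => hW.M_le j i) hW.card).2
    have hzb : z ∈ ball z₀ (3 * ρ / 4) := by
      rw [mem_ball, dist_eq_norm] at hk ⊢
      have h2 : ‖z - z₀‖ ≤ ‖z - ζ k‖ + ‖ζ k - z₀‖ := by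
        have := norm_add_le (z - ζ k) (ζ k - z₀)
        rwa [sub_add_sub_cancel] at this
      rw [hz] at h2
      linarith
    have h3 := (hbdd κ ζ s M h z₀ ρ K hW hK hρa' i z hzb).2.2
    have h4 : sl ζ M h i z - ((∑ j ∈ Finset.univ.filter (fun j => ‖ζ j - ζ k‖ < t), M j i : ℕ) : ℂ) / (z - ζ k) =
        deriv (h i) z + (∑ j, (M j i : ℂ) / (z - ζ j) - ((∑ j ∈ Finset.univ.filter (fun j => ‖ζ j - ζ k‖ < t), M j i : ℕ) : ℂ) / (z - ζ k)) := by
      unfold sl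
      ring
    show ‖sl ζ M h i z - ((∑ j ∈ Finset.univ.filter (fun j => ‖ζ j - ζ k‖ < t), M j i : ℕ) : ℂ) / (z - ζ k)‖ ≤ ε / t
    rw [h4]
    refine (norm_add_le _ _).trans ((add_le_add h3 h1).trans ?_)
    rw [le_div_iff₀ ht0]
    -- the three terms
    have g1 : C₁ * t ≤ ε / 4 := by
      have h5 := (lt_div_iff₀ (by positivity : (0 : ℝ) < 4 * (C₁ * L))).1 F2
      have h6 : C₁ * t ≤ C₁ * (L * (T * T)) := mul_le_mul_of_nonneg_left htL (by linarith)
      have h7 : C₁ * (L * (T * T)) ≤ C₁ * (L * T) := by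
        have : T * T ≤ T := mul_le_of_le_one_left hT0.le hT1
        gcongr
      linarith
    have g2 : p * (C * (2 / (A * t))) * t ≤ ε / 2 := by
      have h5 : p * (C * (2 / (A * t))) * t = 2 * (p * C) / A := by
        field_simp
      rw [h5, div_le_iff₀ hA0]
      have h6 := (div_le_iff₀ hε).1 hA
      linarith
    have g3 : C * ρ * (C * (2 / T)) * t ≤ ε / 4 := by
      have h5 := (lt_div_iff₀ (by positivity : (0 : ℝ) < 16 * (C * C * L))).1 F3
      have h6 : C * ρ * (C * (2 / T)) * t ≤ C * ρ * (C * (2 / T)) * (L * (T * T)) := mul_le_mul_of_nonneg_left htL (by positivity)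
      have h7 : C * ρ * (C * (2 / T)) * (L * (T * T)) = 2 * (C * C * L) * (ρ * T) := by
        field_simp
      have h8 : θ * (2 * (C * C * L) * (ρ * T)) ≤ θ * (ε / 4) := by linarith
      have h9 := le_of_mul_le_mul_left h8 hθ
      linarith
    calc (C₁ + (p * (C * (2 / (A * t))) + C * ρ * (C * (2 / T)))) * t = C₁ * t + p * (C * (2 / (A * t))) * t + C * ρ * (C * (2 / T)) * t := by ring
      _ ≤ ε := by linarith

end Pool.Agent.SR3

end
end
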