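import Pool.Agent.H43.TL2.M142
import Pool.Agent.H43.TL2.M171
import Pool.Agent.H43.TL2.SR3.CDir

/-! The parts of this file: SR3.CPur, SR3.CMac. -/

section

/-!
# SR3 CPur: the residue polynomial is a pure power

PROOF.  Let `a = M k`, `P = L ^ e * P'`, `L = Lf a`, `P' (a) ≠ 0`, `d = deg P' = m - e`; suppose `e < m`.  `wd_dir`: on `ball z₀ (δ₁ ρ)` all wells are
parallel to `a`, so `ℓ = a 1 sl 0 - a 0 sl 1` is holomorphic on `ball z₀ (δ₁ ρ)` and bounded by `C₂` on `ball z₀ (δ₁ ρ / 2)`.  On the circle of `wd_pig`: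
`μ = λ a`, `sl = μ / w + E`, `|E| ≤ ε / t`, so `w ^ d P' (sl) = P' (μ) (1 + x)`, `|x| ≤ 1 / 8`, and `ℓ ^ e P' (sl) = q (1 + y)`, `|y| ≤ 1 / 8`: with
`Q = q / P' (μ)`, `|ℓ ^ e - Q w ^ d| ≤ |Q| t ^ d / 2` on the circle.  Cauchy: `|Q| R ^ d ≤ 2 C₂ ^ e`, `R = δ₁ ρ / 4`: a contradiction for large `ρ`.
-/

set_option autoImplicit false

open Metric

noncomputable section

namespace Pool.Agent.SR3

/-- a function which is close to `Q w ^ d` on a small circle is large on a big circle -/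
private lemma cpur_cauchy {G : ℂ → ℂ} {z₀ Q : ℂ} {R t B : ℝ} {d : ℕ} (ht : 0 < t) (htR : t < R)
    (hG : DifferentiableOn ℂ G (ball z₀ (2 * R))) (hB : ∀ z ∈ ball z₀ (2 * R), ‖G z‖ ≤ B)
    (hQ : ∀ z, ‖z - z₀‖ = t → ‖G z - Q * (z - z₀) ^ d‖ ≤ ‖Q‖ / 2 * t ^ d) : ‖Q‖ * R ^ d ≤ 2 * B := by
  have hR : 0 < R := ht.trans htR
  have hm : DifferentiableOn ℂ (fun z : ℂ => Q * (z - z₀) ^ d) (ball z₀ (2 * R)) := by
    apply Differentiable.differentiableOn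
    fun_prop
  have hsub : ∀ r, r < 2 * R → 0 < r → closedBall z₀ r ⊆ ball z₀ (2 * R) := fun r hr _ => closedBall_subset_ball hr
  have h1 : ‖iteratedDeriv d G z₀‖ ≤ d.factorial * B / R ^ d := by
    refine Complex.norm_iteratedDeriv_le_of_forall_mem_sphere_norm_le d hR ?_ ?_
    · exact (hG.mono (hsub R (by linarith only [ht, htR]) hR)).diffContOnCl_ball (subset_refl _)
    · intro z hz
      exact hB z (hsub R (by linarith only [ht, htR]) hR (sphere_subset_closedBall hz))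
  have h2 : ‖iteratedDeriv d (fun z => G z - Q * (z - z₀) ^ d) z₀‖ ≤ d.factorial * (‖Q‖ / 2 * t ^ d) / t ^ d := by
    refine Complex.norm_iteratedDeriv_le_of_forall_mem_sphere_norm_le d ht ?_ ?_
    · exact ((hG.sub hm).mono (hsub t (by linarith only [ht, htR]) ht)).diffContOnCl_ball (subset_refl _)
    · intro z hz
      exact hQ z (by rwa [mem_sphere_iff_norm] at hz)
  have h3 : iteratedDeriv d (fun z : ℂ => Q * (z - z₀) ^ d) z₀ = Q * d.factorial := by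
    rw [iteratedDeriv_const_mul_field]
    have h4 := congrFun (iteratedDeriv_comp_sub_const (n := d) (f := fun z : ℂ => z ^ d) (s := z₀)) z₀
    rw [h4, sub_self, iteratedDeriv_fun_pow_zero, if_pos rfl]
  have hat : ContDiffAt ℂ d G z₀ :=
    (hG.analyticAt (isOpen_ball.mem_nhds (mem_ball_self (by linarith only [ht, htR])))).contDiffAt
  have hat2 : ContDiffAt ℂ d (fun z : ℂ => Q * (z - z₀) ^ d) z₀ :=
    (hm.analyticAt (isOpen_ball.mem_nhds (mem_ball_self (by linarith only [ht, htR])))).contDiffAt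
  have h4 : iteratedDeriv d (fun z => G z - Q * (z - z₀) ^ d) z₀ = iteratedDeriv d G z₀ - Q * d.factorial := by
    rw [← h3]
    exact iteratedDeriv_sub hat hat2
  have hf : (0 : ℝ) < d.factorial := by exact_mod_cast d.factorial_pos
  have htd : 0 < t ^ d := pow_pos ht d
  have hRd : 0 < R ^ d := pow_pos hR d
  have h5 : (d.factorial : ℝ) * (‖Q‖ / 2 * t ^ d) / t ^ d = d.factorial * (‖Q‖ / 2) := by
    field_simp
  rw [h4, h5] at h2
  have h6 : ‖Q‖ * d.factorial ≤ ‖iteratedDeriv d G z₀ - Q * d.factorial‖ + ‖iteratedDeriv d G z₀‖ := by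
    have h7 : ‖Q * (d.factorial : ℂ)‖ = ‖Q‖ * d.factorial := by
      rw [norm_mul, Complex.norm_natCast]
    rw [← h7]
    calc ‖Q * (d.factorial : ℂ)‖ = ‖iteratedDeriv d G z₀ - (iteratedDeriv d G z₀ - Q * d.factorial)‖ := by
          congr 1
          ring
      _ ≤ ‖iteratedDeriv d G z₀‖ + ‖iteratedDeriv d G z₀ - Q * d.factorial‖ := norm_sub_le _ _
      _ = _ := add_comm _ _
  have h8 : ‖Q‖ / 2 ≤ B / R ^ d := by
    have h9 : (d.factorial : ℝ) * (‖Q‖ / 2) ≤ d.factorial * (B / R ^ d) := by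
      have h10 : (d.factorial : ℝ) * (B / R ^ d) = d.factorial * B / R ^ d := by ring
      rw [h10]
      linarith only [h1, h2, h6]
    exact le_of_mul_le_mul_left h9 hf
  rw [le_div_iff₀ hRd] at h8
  linarith only [h8]

/-- values of a form at a multiple -/
private lemma cpur_hom {d : ℕ} {P : MvPolynomial (Fin 2) ℂ} (hP : P.IsHomogeneous d) (c : ℂ) (x : Fin 2 → ℂ) :
    MvPolynomial.eval (fun i => c * x i) P = c ^ d * MvPolynomial.eval x P := by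
  rw [MvPolynomial.eval_eq, MvPolynomial.eval_eq, Finset.mul_sum]
  refine Finset.sum_congr rfl fun s hs => ?_
  have h1 : s.degree = d := by
    rw [Finsupp.degree_apply]
    exact (hP.degree_eq_sum_deg_support hs).symm
  have h2 : ∏ i ∈ s.support, (c * x i) ^ s i = c ^ d * ∏ i ∈ s.support, x i ^ s i := by
    rw [← h1, Finsupp.degree_apply, ← Finset.prod_pow_eq_pow_sum, ← Finset.prod_mul_distrib]
    exact Finset.prod_congr rfl fun i _ => mul_pow _ _ _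
  rw [h2]
  ring

/-- a form near a point where it does not vanish -/
private lemma cpur_near {P : MvPolynomial (Fin 2) ℂ} {a : Fin 2 → ℂ} (h : MvPolynomial.eval a P ≠ 0) :
    ∃ ε : ℝ, 0 < ε ∧ ∀ y : Fin 2 → ℂ, (∀ i, ‖y i‖ ≤ ε) →
      ‖MvPolynomial.eval (fun i => a i + y i) P - MvPolynomial.eval a P‖ ≤ ‖MvPolynomial.eval a P‖ / 8 := by
  have hc := (MvPolynomial.continuous_eval P).continuousAt (x := a)
  rw [Metric.continuousAt_iff] at hc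
  obtain ⟨ε, hε, h1⟩ := hc (‖MvPolynomial.eval a P‖ / 8) (by positivity)
  refine ⟨ε / 2, half_pos hε, fun y hy => ?_⟩
  have h2 : dist (fun i => a i + y i) a < ε := by
    rw [dist_pi_lt_iff hε]
    intro i
    rw [dist_eq_norm]
    have h3 : a i + y i - a i = y i := by ring
    rw [h3]
    linarith only [hε, hy i]
  have h3 := h1 h2
  rw [dist_eq_norm] at h3
  exact h3.le

/-- the form at `μ / w` up to a small error, `μ` a multiple of `a` -/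
private lemma cpur_pert {d : ℕ} {P : MvPolynomial (Fin 2) ℂ} (hP : P.IsHomogeneous d) {a μ : Fin 2 → ℕ} {C ε : ℝ}
    (ha : ∀ i, 1 ≤ a i) (haC : (a 0 : ℝ) ≤ C) (hμ : 1 ≤ μ 0) (hpar : a 0 * μ 1 = a 1 * μ 0)
    (hε : ∀ y : Fin 2 → ℂ, (∀ i, ‖y i‖ ≤ C * ε) → ‖MvPolynomial.eval (fun i => (a i : ℂ) + y i) P - MvPolynomial.eval (fun i => (a i : ℂ)) P‖ ≤
      ‖MvPolynomial.eval (fun i => (a i : ℂ)) P‖ / 8)
    {w : ℂ} (hw : w ≠ 0) {x : Fin 2 → ℂ} (hx : ∀ i, ‖x i - (μ i : ℂ) / w‖ ≤ ε / ‖w‖) :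
    ‖w ^ d * MvPolynomial.eval x P - MvPolynomial.eval (fun i => (μ i : ℂ)) P‖ ≤ ‖MvPolynomial.eval (fun i => (μ i : ℂ)) P‖ / 8 := by
  have ha0 : (a 0 : ℂ) ≠ 0 := by exact_mod_cast (by have := ha 0; omega : a 0 ≠ 0)
  have hμ0 : (μ 0 : ℂ) ≠ 0 := by exact_mod_cast (by omega : μ 0 ≠ 0)
  obtain ⟨l, hl⟩ : ∃ l : ℂ, l = (μ 0 : ℂ) / a 0 := ⟨_, rfl⟩
  have hl0 : l ≠ 0 := by
    rw [hl]
    exact div_ne_zero hμ0 ha0
  have hμl : ∀ i, (μ i : ℂ) = l * a i := by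
    intro i
    rw [hl]
    fin_cases i
    · change (μ 0 : ℂ) = μ 0 / a 0 * a 0
      rw [div_mul_cancel₀ _ ha0]
    · change (μ 1 : ℂ) = μ 0 / a 0 * a 1
      have h1 : (a 0 : ℂ) * μ 1 = a 1 * μ 0 := by exact_mod_cast hpar
      field_simp
      linear_combination h1
  have hln : 1 ≤ C * ‖l‖ := by
    have ha0' : (0 : ℝ) < a 0 := by exact_mod_cast (by have := ha 0; omega : 0 < a 0)
    have hμ' : (1 : ℝ) ≤ μ 0 := by exact_mod_cast hμ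
    rw [hl, norm_div, Complex.norm_natCast, Complex.norm_natCast, ← mul_div_assoc, le_div_iff₀ ha0']
    nlinarith only [haC, hμ']
  have hlpos : 0 < ‖l‖ := norm_pos_iff.2 hl0
  have hwpos : 0 < ‖w‖ := norm_pos_iff.2 hw
  obtain ⟨y, hy⟩ : ∃ y : Fin 2 → ℂ, ∀ i, y i = (w * x i - μ i) / l := ⟨fun i => (w * x i - μ i) / l, fun _ => rfl⟩
  have hyn : ∀ i, ‖y i‖ ≤ C * ε := by
    intro i
    have h1 : w * x i - μ i = w * (x i - (μ i : ℂ) / w) := by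
      field_simp
    have h2 : ‖w * x i - μ i‖ ≤ ε := by
      rw [h1, norm_mul]
      calc ‖w‖ * ‖x i - (μ i : ℂ) / w‖ ≤ ‖w‖ * (ε / ‖w‖) := mul_le_mul_of_nonneg_left (hx i) hwpos.le
        _ = ε := by field_simp
    have hε0 : 0 ≤ ε := le_trans (norm_nonneg _) h2
    rw [hy, norm_div, div_le_iff₀ hlpos]
    calc ‖w * x i - μ i‖ ≤ ε * 1 := by rw [mul_one]; exact h2
      _ ≤ ε * (C * ‖l‖) := mul_le_mul_of_nonneg_left hln hε0
      _ = C * ε * ‖l‖ := by ring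
  have h1 : (fun i => w * x i) = fun i => l * ((a i : ℂ) + y i) := by
    funext i
    rw [hy, mul_add, ← hμl, mul_div_cancel₀ _ hl0]
    ring
  have h2 : (fun i => (μ i : ℂ)) = fun i => l * (a i : ℂ) := funext hμl
  rw [← cpur_hom hP, h1, h2, cpur_hom hP, cpur_hom hP, ← mul_sub, norm_mul, norm_mul]
  have h3 := hε y hyn
  have h4 : 0 ≤ ‖l ^ d‖ := norm_nonneg _
  nlinarith only [h3, h4]

private lemma cpur_alg {L p q Pμ w : ℂ} {d : ℕ} (hr : ‖L * p - q‖ ≤ ‖q‖ / 8) (hs : ‖w ^ d * p - Pμ‖ ≤ ‖Pμ‖ / 8) (hP : Pμ ≠ 0) :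
    ‖L - q / Pμ * w ^ d‖ ≤ ‖q / Pμ‖ / 2 * ‖w‖ ^ d := by
  have hPn : 0 < ‖Pμ‖ := norm_pos_iff.2 hP
  have h1 : (L - q / Pμ * w ^ d) * (w ^ d * p) = w ^ d * ((L * p - q) - q / Pμ * (w ^ d * p - Pμ)) := by
    field_simp
    ring
  have h2 : ‖(L * p - q) - q / Pμ * (w ^ d * p - Pμ)‖ ≤ ‖q‖ / 4 := by
    have h3 : ‖q / Pμ * (w ^ d * p - Pμ)‖ ≤ ‖q‖ / 8 := by
      rw [norm_mul, norm_div]
      calc ‖q‖ / ‖Pμ‖ * ‖w ^ d * p - Pμ‖ ≤ ‖q‖ / ‖Pμ‖ * (‖Pμ‖ / 8) := mul_le_mul_of_nonneg_left hs (by positivity)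
        _ = ‖q‖ / 8 := by field_simp
    linarith only [hr, h3, norm_sub_le (L * p - q) (q / Pμ * (w ^ d * p - Pμ))]
  have h4 : 7 / 8 * ‖Pμ‖ ≤ ‖w ^ d * p‖ := by
    have h5 : ‖Pμ‖ ≤ ‖w ^ d * p‖ + ‖w ^ d * p - Pμ‖ := by
      calc ‖Pμ‖ = ‖w ^ d * p - (w ^ d * p - Pμ)‖ := by
            congr 1
            ring
        _ ≤ _ := norm_sub_le _ _
    linarith only [hs, h5]
  have h6 : ‖L - q / Pμ * w ^ d‖ * (7 / 8 * ‖Pμ‖) ≤ ‖w‖ ^ d * (‖q‖ / 4) := by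
    calc ‖L - q / Pμ * w ^ d‖ * (7 / 8 * ‖Pμ‖) ≤ ‖L - q / Pμ * w ^ d‖ * ‖w ^ d * p‖ := mul_le_mul_of_nonneg_left h4 (norm_nonneg _)
      _ = ‖w ^ d * ((L * p - q) - q / Pμ * (w ^ d * p - Pμ))‖ := by rw [← norm_mul, h1]
      _ = ‖w‖ ^ d * ‖(L * p - q) - q / Pμ * (w ^ d * p - Pμ)‖ := by rw [norm_mul, norm_pow]
      _ ≤ ‖w‖ ^ d * (‖q‖ / 4) := mul_le_mul_of_nonneg_left h2 (by positivity)
  have h7 : ‖q / Pμ‖ / 2 * ‖w‖ ^ d = ‖w‖ ^ d * ‖q‖ / (2 * ‖Pμ‖) := by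
    rw [norm_div]
    field_simp
  rw [h7, le_div_iff₀ (by positivity)]
  have h8 : 0 ≤ ‖w‖ ^ d * ‖q‖ := by positivity
  linarith only [h6, h8]

variable {κ : Type} [Fintype κ]

private lemma cpur_ell (ζ : κ → ℂ) (M : κ → Fin 2 → ℕ) (h : Fin 2 → ℂ → ℂ) (a : Fin 2 → ℕ) (z : ℂ) :
    (a 1 : ℂ) * sl ζ M h 0 z - (a 0 : ℂ) * sl ζ M h 1 z =
      (a 1 : ℂ) * deriv (h 0) z - (a 0 : ℂ) * deriv (h 1) z + ∑ k, ((a 1 : ℂ) * M k 0 - (a 0 : ℂ) * M k 1) / (z - ζ k) := by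
  have h1 : ∑ k, ((a 1 : ℂ) * M k 0 - (a 0 : ℂ) * M k 1) / (z - ζ k) =
      (a 1 : ℂ) * ∑ k, (M k 0 : ℂ) / (z - ζ k) - (a 0 : ℂ) * ∑ k, (M k 1 : ℂ) / (z - ζ k) := by
    rw [Finset.mul_sum, Finset.mul_sum, ← Finset.sum_sub_distrib]
    exact Finset.sum_congr rfl fun k _ => by ring
  rw [h1, sl, sl]
  ring

/-- the poles cancel -/
private lemma cpur_diff {ζ : κ → ℂ} {M : κ → Fin 2 → ℕ} {h : Fin 2 → ℂ → ℂ} {a : Fin 2 → ℕ} {z₀ : ℂ} {r ρ : ℝ} (hr : r ≤ ρ)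
    (hh : ∀ i, DifferentiableOn ℂ (h i) (ball z₀ ρ)) (hpar : ∀ k, ζ k ∈ ball z₀ r → a 0 * M k 1 = a 1 * M k 0) :
    DifferentiableOn ℂ (fun z => (a 1 : ℂ) * sl ζ M h 0 z - (a 0 : ℂ) * sl ζ M h 1 z) (ball z₀ r) := by
  have h1 : (fun z => (a 1 : ℂ) * sl ζ M h 0 z - (a 0 : ℂ) * sl ζ M h 1 z) = fun z =>
      (a 1 : ℂ) * deriv (h 0) z - (a 0 : ℂ) * deriv (h 1) z + ∑ k, ((a 1 : ℂ) * M k 0 - (a 0 : ℂ) * M k 1) / (z - ζ k) :=
    funext fun z => cpur_ell ζ M h a z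
  rw [h1]
  have h2 : ∀ i, DifferentiableOn ℂ (deriv (h i)) (ball z₀ r) := fun i => ((hh i).deriv isOpen_ball).mono (ball_subset_ball hr)
  refine (((h2 0).const_mul _).sub ((h2 1).const_mul _)).add (DifferentiableOn.fun_sum fun k _ => ?_)
  by_cases hk : ζ k ∈ ball z₀ r
  · have h3 : ((a 1 : ℂ) * M k 0 - (a 0 : ℂ) * M k 1) = 0 := by
      have h4 : (a 0 : ℂ) * M k 1 = a 1 * M k 0 := by exact_mod_cast hpar k hk
      rw [h4, sub_self]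
    simp only [h3, zero_div]
    exact differentiableOn_const 0
  · refine (differentiableOn_const _).div ?_ fun z hz h3 => ?_
    · fun_prop
    · rw [sub_eq_zero] at h3
      rw [← h3] at hk
      exact hk hz

/-- the bound of `ℓ` -/
private lemma cpur_bound {ζ : κ → ℂ} {M : κ → Fin 2 → ℕ} {h : Fin 2 → ℂ → ℂ} {a : Fin 2 → ℕ} {z₀ : ℂ} {δ ρ C C₁ : ℝ} (hC : 1 ≤ C)
    (hδ : 0 < δ) (hρ : 0 < ρ)
    (haC : ∀ i, (a i : ℝ) ≤ C) (hM : ∀ k i, (M k i : ℝ) ≤ C) (hcard : (Fintype.card κ : ℝ) ≤ C * ρ) {z : ℂ} (hz : z ∈ ball z₀ (δ * ρ / 2))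
    (hd : ∀ i, ‖deriv (h i) z‖ ≤ C₁) (hpar : ∀ k, ζ k ∈ ball z₀ (δ * ρ) → a 0 * M k 1 = a 1 * M k 0) :
    ‖(a 1 : ℂ) * sl ζ M h 0 z - (a 0 : ℂ) * sl ζ M h 1 z‖ ≤ 2 * C * C₁ + 4 * C ^ 3 / δ := by
  have hC0 : 0 ≤ C := by linarith only [hC]
  rw [cpur_ell]
  have h1 : ∀ i j, ‖(a i : ℂ) * deriv (h j) z‖ ≤ C * C₁ := by
    intro i j
    rw [norm_mul, Complex.norm_natCast]
    exact mul_le_mul (haC i) (hd j) (norm_nonneg _) hC0
  have h2 : ∀ k, ‖((a 1 : ℂ) * M k 0 - (a 0 : ℂ) * M k 1) / (z - ζ k)‖ ≤ 2 * C ^ 2 / (δ * ρ / 2) := by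
    intro k
    have hpos : 0 < δ * ρ / 2 := by positivity
    by_cases hk : ζ k ∈ ball z₀ (δ * ρ)
    · have h3 : ((a 1 : ℂ) * M k 0 - (a 0 : ℂ) * M k 1) = 0 := by
        have h4 : (a 0 : ℂ) * M k 1 = a 1 * M k 0 := by exact_mod_cast hpar k hk
        rw [h4, sub_self]
      rw [h3, zero_div, norm_zero]
      positivity
    · have h3 : δ * ρ / 2 ≤ ‖z - ζ k‖ := by
        rw [mem_ball, not_lt] at hk
        rw [mem_ball] at hz
        have h4 := dist_triangle (ζ k) z z₀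
        rw [dist_comm (ζ k) z, dist_eq_norm z (ζ k)] at h4
        linarith only [hz, hk, h4]
      have h4 : ‖(a 1 : ℂ) * M k 0 - (a 0 : ℂ) * M k 1‖ ≤ 2 * C ^ 2 := by
        have h5 : ∀ i j, ‖(a i : ℂ) * M k j‖ ≤ C * C := by
          intro i j
          rw [norm_mul, Complex.norm_natCast, Complex.norm_natCast]
          exact mul_le_mul (haC i) (hM k j) (Nat.cast_nonneg _) hC0
        calc ‖(a 1 : ℂ) * M k 0 - (a 0 : ℂ) * M k 1‖ ≤ _ := norm_sub_le _ _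
          _ ≤ C * C + C * C := add_le_add (h5 1 0) (h5 0 1)
          _ = 2 * C ^ 2 := by ring
      rw [norm_div]
      exact div_le_div₀ (by positivity) h4 hpos h3
  have h3 : ‖∑ k, ((a 1 : ℂ) * M k 0 - (a 0 : ℂ) * M k 1) / (z - ζ k)‖ ≤ 4 * C ^ 3 / δ := by
    calc ‖∑ k, ((a 1 : ℂ) * M k 0 - (a 0 : ℂ) * M k 1) / (z - ζ k)‖ ≤ ∑ k, ‖((a 1 : ℂ) * M k 0 - (a 0 : ℂ) * M k 1) / (z - ζ k)‖ := norm_sum_le _ _
      _ ≤ ∑ _k : κ, 2 * C ^ 2 / (δ * ρ / 2) := Finset.sum_le_sum fun k _ => h2 k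
      _ = (Fintype.card κ : ℝ) * (2 * C ^ 2 / (δ * ρ / 2)) := by rw [Finset.sum_const, Finset.card_univ, nsmul_eq_mul]
      _ ≤ C * ρ * (2 * C ^ 2 / (δ * ρ / 2)) := mul_le_mul_of_nonneg_right hcard (by positivity)
      _ = 4 * C ^ 3 / δ := by
        field_simp
        ring
  calc _ ≤ ‖(a 1 : ℂ) * deriv (h 0) z - (a 0 : ℂ) * deriv (h 1) z‖ + ‖∑ k, ((a 1 : ℂ) * M k 0 - (a 0 : ℂ) * M k 1) / (z - ζ k)‖ := norm_add_le _ _
    _ ≤ (C * C₁ + C * C₁) + 4 * C ^ 3 / δ := add_le_add (le_trans (norm_sub_le _ _) (add_le_add (h1 1 0) (h1 0 1))) h3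
    _ = _ := by ring

private lemma cpur_mu {d : ℕ} {P : MvPolynomial (Fin 2) ℂ} (hP : P.IsHomogeneous d) {a μ : Fin 2 → ℕ}
    (ha : ∀ i, 1 ≤ a i) (hpar : a 0 * μ 1 = a 1 * μ 0) :
    MvPolynomial.eval (fun i => (μ i : ℂ)) P = ((μ 0 : ℂ) / a 0) ^ d * MvPolynomial.eval (fun i => (a i : ℂ)) P := by
  have ha0 : (a 0 : ℂ) ≠ 0 := by exact_mod_cast (by have := ha 0; omega : a 0 ≠ 0)
  have h2 : (fun i => (μ i : ℂ)) = fun i => ((μ 0 : ℂ) / a 0) * (a i : ℂ) := by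
    funext i
    fin_cases i
    · change (μ 0 : ℂ) = μ 0 / a 0 * a 0
      rw [div_mul_cancel₀ _ ha0]
    · change (μ 1 : ℂ) = μ 0 / a 0 * a 1
      have h1 : (a 0 : ℂ) * μ 1 = a 1 * μ 0 := by exact_mod_cast hpar
      field_simp
      linear_combination h1
  rw [h2, cpur_hom hP]

/-- the factorizations, with uniform constants -/
private lemma cpur_data {C : ℝ} (hC : 1 ≤ C) {m : ℕ} {P : MvPolynomial (Fin 2) ℂ} (hP : P.IsHomogeneous m) (h0 : P ≠ 0) :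
    ∃ ε V : ℝ, 0 < ε ∧ 1 ≤ V ∧ ∀ a : Fin 2 → ℕ, (∀ i, 1 ≤ a i) → (∀ i, (a i : ℝ) ≤ C) →
      ∃ (e : ℕ) (P' : MvPolynomial (Fin 2) ℂ), e ≤ m ∧ P'.IsHomogeneous (m - e) ∧ P = Lf a ^ e * P' ∧
        MvPolynomial.eval (fun i => (a i : ℂ)) P' ≠ 0 ∧
        (∀ y : Fin 2 → ℂ, (∀ i, ‖y i‖ ≤ C * ε) → ‖MvPolynomial.eval (fun i => (a i : ℂ) + y i) P' - MvPolynomial.eval (fun i => (a i : ℂ)) P'‖ ≤
          ‖MvPolynomial.eval (fun i => (a i : ℂ)) P'‖ / 8) ∧ ‖MvPolynomial.eval (fun i => (a i : ℂ)) P'‖ ≤ V := by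
  have key : ∀ a : Fin 2 → ℕ, ∃ ε V : ℝ, 0 < ε ∧ ((∀ i, 1 ≤ a i) →
      ∃ (e : ℕ) (P' : MvPolynomial (Fin 2) ℂ), e ≤ m ∧ P'.IsHomogeneous (m - e) ∧ P = Lf a ^ e * P' ∧
        MvPolynomial.eval (fun i => (a i : ℂ)) P' ≠ 0 ∧
        (∀ y : Fin 2 → ℂ, (∀ i, ‖y i‖ ≤ ε) → ‖MvPolynomial.eval (fun i => (a i : ℂ) + y i) P' - MvPolynomial.eval (fun i => (a i : ℂ)) P'‖ ≤
          ‖MvPolynomial.eval (fun i => (a i : ℂ)) P'‖ / 8) ∧ ‖MvPolynomial.eval (fun i => (a i : ℂ)) P'‖ ≤ V) := by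
    intro a
    by_cases ha : ∀ i, 1 ≤ a i
    · obtain ⟨e, P', he, hP', hPP, hne⟩ := lin_factor hP h0 a (by have := ha 1; omega)
      obtain ⟨ε, hε, h1⟩ := cpur_near hne
      exact ⟨ε, _, hε, fun _ => ⟨e, P', he, hP', hPP, hne, h1, le_rfl⟩⟩
    · exact ⟨1, 1, one_pos, fun h => absurd h ha⟩
  choose ε V hε hk using key
  have hS : (Fintype.piFinset fun _ : Fin 2 => Finset.range (⌊C⌋₊ + 1)).Nonempty := by
    refine ⟨fun _ => 0, ?_⟩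
    rw [Fintype.mem_piFinset]
    intro i
    rw [Finset.mem_range]
    omega
  obtain ⟨a₁, -, h1⟩ := Finset.exists_min_image _ ε hS
  obtain ⟨a₂, -, h2⟩ := Finset.exists_max_image _ V hS
  have hC0 : 0 < C := by linarith only [hC]
  refine ⟨ε a₁ / C, max (V a₂) 1, div_pos (hε a₁) hC0, le_max_right _ _, fun a ha haC => ?_⟩
  have haS : a ∈ Fintype.piFinset fun _ : Fin 2 => Finset.range (⌊C⌋₊ + 1) := by
    rw [Fintype.mem_piFinset]
    intro i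
    rw [Finset.mem_range]
    exact Nat.lt_succ_of_le (Nat.le_floor (haC i))
  obtain ⟨e, P', he, hP', hPP, hne, h3, h4⟩ := hk a ha
  refine ⟨e, P', he, hP', hPP, hne, fun y hy => h3 y fun i => (hy i).trans ?_, h4.trans ((h2 a haS).trans (le_max_left _ _))⟩
  rw [mul_div_cancel₀ _ hC0.ne']
  exact h1 a haS

theorem wd_pure {C η : ℝ} (hC : 1 ≤ C) (hη : 0 < η) {m : ℕ} (hm : 1 ≤ m) {P : MvPolynomial (Fin 2) ℂ} (hP : P.IsHomogeneous m) {c : ℝ} (hc : 0 < c) :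
    ∃ K₁ θ₀ : ℝ, 0 < θ₀ ∧ ∀ θ : ℝ, 0 < θ → θ ≤ θ₀ → ∃ ρ₁ : ℝ, ∀ (κ : Type) [Fintype κ] (ζ : κ → ℂ) (s : κ → ℝ) (M : κ → Fin 2 → ℕ) (h : Fin 2 → ℂ → ℂ)
      (z₀ : ℂ) (ρ K : ℝ), Wd ζ s M h z₀ ρ C η K → K₁ ≤ K → ρ₁ ≤ ρ → ∀ q : ℂ, c ≤ ‖q‖ → ‖q‖ ≤ C →
        (∀ z ∈ ball z₀ (ρ / 2), (∀ k, Real.exp (-(θ * ρ)) / 2 ≤ ‖z - ζ k‖) → ‖MvPolynomial.eval (fun i => sl ζ M h i z) P - q‖ ≤ θ) →
          ∀ k, ζ k = z₀ → ∃ b : ℂ, b ≠ 0 ∧ P = MvPolynomial.C b * Lf (M k) ^ m := by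
  obtain ⟨C₁, ρb, hC₁, hρb, hbdd⟩ := wd_bdd hC hη
  obtain ⟨K₁, δ₁, ρd, hδ₁, hδ₁', hdir⟩ := wd_dir hC hη
  refine ⟨max K₁ 2, min (c / 8) (η / 2), lt_min (by positivity) (by positivity), fun θ hθ hθ0 => ?_⟩
  have hθc : θ ≤ c / 8 := hθ0.trans (min_le_left _ _)
  have hθη : θ < η := lt_of_le_of_lt (hθ0.trans (min_le_right _ _)) (by linarith only [hη])
  -- the points of the circle
  have hcir : ∀ {κ : Type} {ζ : κ → ℂ} {z₀ z : ℂ} {ρ t : ℝ}, 3 ≤ ρ → Real.exp (-(θ * ρ)) ≤ t → t ≤ Real.exp (-(θ * ρ / 2)) → ‖z - z₀‖ = t →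
      (∀ j, t / 2 ≤ ‖z - ζ j‖) → z ∈ ball z₀ (ρ / 2) ∧ ∀ k, Real.exp (-(θ * ρ)) / 2 ≤ ‖z - ζ k‖ := by
    intro κ ζ z₀ z ρ t hρ ht1 ht2 hz hj
    have hθρ : 0 < θ * ρ := mul_pos hθ (by linarith only [hρ])
    have ht3 : t ≤ 1 := ht2.trans (Real.exp_le_one_iff.2 (by linarith only [hθρ]))
    refine ⟨?_, fun k => le_trans (by linarith only [ht1]) (hj k)⟩
    rw [mem_ball, dist_eq_norm, hz]
    linarith only [hρ, ht3]
  by_cases h0 : P = 0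
  · obtain ⟨ρp, N₁, hpig⟩ := wd_pig hC hη hθ hθη one_pos
    refine ⟨max ρp 3, fun κ _ ζ s M h z₀ ρ K W hK hρ q hq hqC hsl k hk => ?_⟩
    exfalso
    have hρ3 : 3 ≤ ρ := (le_max_right _ _).trans hρ
    obtain ⟨t, μ, ht1, ht2, -, -, hci⟩ := hpig κ ζ s M h z₀ ρ K W ((le_max_right _ _).trans hK) ((le_max_left _ _).trans hρ) k
      (by rw [hk]; exact mem_ball_self (by linarith only [hρ3]))
    have ht0 : 0 < t := lt_of_lt_of_le (Real.exp_pos _) ht1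
    have hz : ‖z₀ + t - z₀‖ = t := by
      rw [add_sub_cancel_left, Complex.norm_real, Real.norm_eq_abs, abs_of_pos ht0]
    have h1 := hcir hρ3 ht1 ht2 hz (hci (z₀ + t) (by rw [hk]; exact hz)).1
    have h2 := hsl (z₀ + t) h1.1 h1.2
    rw [h0, map_zero, zero_sub, norm_neg] at h2
    linarith only [hθ, hθc, hq, h2]
  obtain ⟨ε, V, hε, hV, hdata⟩ := cpur_data hC hP h0
  obtain ⟨ρp, N₁, hpig⟩ := wd_pig hC hη hθ hθη hε
  obtain ⟨N, hN⟩ : ∃ N, N = max N₁ 1 := ⟨_, rfl⟩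
  obtain ⟨C₂, hC₂⟩ : ∃ C₂, C₂ = 2 * C * C₁ + 4 * C ^ 3 / δ₁ := ⟨_, rfl⟩
  obtain ⟨D, hD⟩ : ∃ D, D = 2 * C₂ ^ m * V / c := ⟨_, rfl⟩
  have hC₂1 : 1 ≤ C₂ := by
    have h1 : 1 ≤ C * C₁ := one_le_mul_of_one_le_of_one_le hC hC₁
    have h2 : 0 ≤ 4 * C ^ 3 / δ₁ := by positivity
    have h3 : 2 * C * C₁ = 2 * (C * C₁) := by ring
    rw [hC₂, h3]
    linarith only [h1, h2]
  have hN1 : 1 ≤ N := by
    rw [hN]
    exact le_max_right _ _
  have hD0 : 0 < D := by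
    rw [hD]
    positivity
  refine ⟨max (max ρb ρd) (max ρp (max (3 + 8 / δ₁) (4 / δ₁ * (N * (D + 1))))), fun κ _ ζ s M h z₀ ρ K W hK hρ q hq hqC hsl k hk => ?_⟩
  have hρb' : ρb ≤ ρ := le_trans (le_trans (le_max_left _ _) (le_max_left _ _)) hρ
  have hρd' : ρd ≤ ρ := le_trans (le_trans (le_max_right _ _) (le_max_left _ _)) hρ
  have hρp' : ρp ≤ ρ := le_trans (le_trans (le_max_left _ _) (le_max_right _ _)) hρ
  have hρ8 : 3 + 8 / δ₁ ≤ ρ := le_trans (le_trans (le_trans (le_max_left _ _) (le_max_right _ _)) (le_max_right _ _)) hρ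
  have hρN : 4 / δ₁ * (N * (D + 1)) ≤ ρ := le_trans (le_trans (le_trans (le_max_right _ _) (le_max_right _ _)) (le_max_right _ _)) hρ
  have h8 : 0 < 8 / δ₁ := by positivity
  have hρ3 : 3 ≤ ρ := by linarith only [hρ8, h8]
  have hρ0 : 0 < ρ := by linarith only [hρ8, h8]
  have hR2 : 2 ≤ δ₁ * ρ / 4 := by
    have h1 : δ₁ * (8 / δ₁) ≤ δ₁ * ρ := mul_le_mul_of_nonneg_left (by linarith only [hρ8]) hδ₁.le
    rw [mul_div_cancel₀ _ hδ₁.ne'] at h1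
    linarith only [h1]
  have hRN : N * (D + 1) ≤ δ₁ * ρ / 4 := by
    have h1 : δ₁ * (4 / δ₁ * (N * (D + 1))) ≤ δ₁ * ρ := mul_le_mul_of_nonneg_left hρN hδ₁.le
    have h2 : δ₁ * (4 / δ₁ * (N * (D + 1))) = 4 * (N * (D + 1)) := by
      field_simp
    linarith only [h1, h2]
  obtain ⟨t, μ, ht1, ht2, hμN, hμs, hci⟩ := hpig κ ζ s M h z₀ ρ K W ((le_max_right _ _).trans hK) hρp' k
    (by rw [hk]; exact mem_ball_self (by linarith only [hρ8, h8]))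
  have ht0 : 0 < t := lt_of_lt_of_le (Real.exp_pos _) ht1
  have hθρ : 0 < θ * ρ := mul_pos hθ hρ0
  have hδρ : 0 < δ₁ * ρ := mul_pos hδ₁ hρ0
  have hδρ' : δ₁ * ρ ≤ 1 / 8 * ρ := mul_le_mul_of_nonneg_right hδ₁' hρ0.le
  have ht3 : t ≤ 1 := ht2.trans (Real.exp_le_one_iff.2 (by linarith only [hθρ]))
  have ha : ∀ i, 1 ≤ M k i := W.one k
  have haC : ∀ i, (M k i : ℝ) ≤ C := W.M_le k
  obtain ⟨e, P', he, hP', hPP, hne, hnear, hPV⟩ := hdata (M k) ha haC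
  rcases he.eq_or_lt with he | he
  · subst he
    rw [Nat.sub_self] at hP'
    have h1 : P'.totalDegree = 0 := Nat.le_zero.1 hP'.totalDegree_le
    rw [MvPolynomial.totalDegree_eq_zero_iff_eq_C] at h1
    refine ⟨P'.coeff 0, fun h2 => ?_, ?_⟩
    · rw [h1, h2, map_zero, map_zero] at hne
      exact hne rfl
    · rw [mul_comm, ← h1]
      exact hPP
  exfalso
  have hpar : ∀ j, ζ j ∈ ball z₀ (δ₁ * ρ) → M k 0 * M j 1 = M k 1 * M j 0 := fun j hj =>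
    hdir κ ζ s M h z₀ ρ K W ((le_max_left _ _).trans hK) hρd' k j (by rw [hk]; exact mem_ball_self (by positivity)) hj
  have hμpar : M k 0 * μ 1 = M k 1 * μ 0 := by
    rw [hμs, Finset.mul_sum, Finset.mul_sum]
    refine Finset.sum_congr rfl fun j hj => hpar j ?_
    rw [Finset.mem_filter, hk] at hj
    rw [mem_ball, dist_eq_norm]
    linarith only [hR2, ht3, hj]
  obtain ⟨Pμ, hPμ⟩ : ∃ Pμ, Pμ = MvPolynomial.eval (fun i => (μ i : ℂ)) P' := ⟨_, rfl⟩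
  have hPμ' := cpur_mu hP' ha hμpar
  rw [← hPμ] at hPμ'
  have hk0 : (M k 0 : ℂ) ≠ 0 := by exact_mod_cast (by have := ha 0; omega : M k 0 ≠ 0)
  have hμ0 : (μ 0 : ℂ) ≠ 0 := by exact_mod_cast (by have := (hμN 0).1; omega : μ 0 ≠ 0)
  have hPμ0 : Pμ ≠ 0 := by
    rw [hPμ']
    exact mul_ne_zero (pow_ne_zero _ (div_ne_zero hμ0 hk0)) hne
  have hPμN : ‖Pμ‖ ≤ N ^ (m - e) * V := by
    rw [hPμ', norm_mul, norm_pow, norm_div, Complex.norm_natCast, Complex.norm_natCast]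
    have h1 : (μ 0 : ℝ) / M k 0 ≤ N := by
      have h2 : (1 : ℝ) ≤ M k 0 := by exact_mod_cast ha 0
      rw [div_le_iff₀ (by linarith only [h2])]
      have h3 : (μ 0 : ℝ) ≤ N := by
        rw [hN]
        exact (hμN 0).2.trans (le_max_left _ _)
      exact le_trans h3 (le_mul_of_one_le_right (by linarith only [hN1]) h2)
    exact mul_le_mul (pow_le_pow_left₀ (by positivity) h1 _) hPV (norm_nonneg _) (by positivity)
  have hG : DifferentiableOn ℂ (fun z => ((M k 1 : ℂ) * sl ζ M h 0 z - (M k 0 : ℂ) * sl ζ M h 1 z) ^ e) (ball z₀ (2 * (δ₁ * ρ / 4))) := by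
    refine ((cpur_diff (r := δ₁ * ρ) ?_ W.hol hpar).mono (ball_subset_ball ?_)).pow e
    · linarith only [hR2, hδρ']
    · linarith only [hR2]
  have hcau := cpur_cauchy (d := m - e) (Q := q / Pμ) (B := C₂ ^ e) ht0 (by linarith only [hR2, ht3] : t < δ₁ * ρ / 4) hG ?_ ?_
  · have h1 : c * (δ₁ * ρ / 4) ^ (m - e) ≤ 2 * C₂ ^ m * (N ^ (m - e) * V) := by
      have h2 : ‖q‖ = ‖q / Pμ‖ * ‖Pμ‖ := by
        rw [norm_div, div_mul_cancel₀ _ (norm_ne_zero_iff.2 hPμ0)]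
      have hRp : 0 < (δ₁ * ρ / 4) ^ (m - e) := by positivity
      calc c * (δ₁ * ρ / 4) ^ (m - e) ≤ ‖q‖ * (δ₁ * ρ / 4) ^ (m - e) := mul_le_mul_of_nonneg_right hq hRp.le
        _ = ‖q / Pμ‖ * (δ₁ * ρ / 4) ^ (m - e) * ‖Pμ‖ := by rw [h2]; ring
        _ ≤ 2 * C₂ ^ e * ‖Pμ‖ := mul_le_mul_of_nonneg_right hcau (norm_nonneg _)
        _ ≤ 2 * C₂ ^ m * (N ^ (m - e) * V) := by
            refine mul_le_mul ?_ hPμN (norm_nonneg _) (by positivity)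
            exact mul_le_mul_of_nonneg_left (pow_le_pow_right₀ hC₂1 he.le) (by norm_num)
    have h2 : N ^ (m - e) * (D + 1) ≤ (δ₁ * ρ / 4) ^ (m - e) := by
      calc N ^ (m - e) * (D + 1) ≤ N ^ (m - e) * (D + 1) ^ (m - e) := by
            refine mul_le_mul_of_nonneg_left ?_ (by positivity)
            exact le_self_pow₀ (by linarith only [hD0]) (by omega)
        _ = (N * (D + 1)) ^ (m - e) := by rw [mul_pow]
        _ ≤ _ := pow_le_pow_left₀ (by positivity) hRN _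
    have h3 : 0 < N ^ (m - e) := by positivity
    have h4 : c * D = 2 * C₂ ^ m * V := by
      rw [hD]
      field_simp
    have h5 : c * (N ^ (m - e) * (D + 1)) ≤ 2 * C₂ ^ m * (N ^ (m - e) * V) := le_trans (mul_le_mul_of_nonneg_left h2 hc.le) h1
    have h6 : c * (N ^ (m - e) * (D + 1)) = N ^ (m - e) * (c * D) + c * N ^ (m - e) := by ring
    rw [h6, h4] at h5
    have h7 : 0 < c * N ^ (m - e) := mul_pos hc h3
    linarith only [h5, h7]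
  · intro z hz
    have hz' : z ∈ ball z₀ (δ₁ * ρ / 2) := by
      have h1 : 2 * (δ₁ * ρ / 4) = δ₁ * ρ / 2 := by ring
      rwa [h1] at hz
    have h2 := cpur_bound (ζ := ζ) (M := M) (h := h) (a := M k) hC hδ₁ hρ0 haC W.M_le W.card hz'
      (fun i => (hbdd κ ζ s M h z₀ ρ K W ((le_max_right _ _).trans hK) hρb' i z (ball_subset_ball (by linarith only [hR2, hδρ']) hz')).2.2) hpar
    rw [norm_pow, hC₂]
    exact pow_le_pow_left₀ (norm_nonneg _) h2 e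
  · intro z hz
    have hz0 : z - z₀ ≠ 0 := by
      rw [← norm_pos_iff, hz]
      exact ht0
    have hzk : ‖z - ζ k‖ = t := by
      rw [hk]
      exact hz
    have h1 := hci z hzk
    have h2 := hcir hρ3 ht1 ht2 hz h1.1
    have h3 := hsl z h2.1 h2.2
    have h4 : MvPolynomial.eval (fun i => sl ζ M h i z) P = ((M k 1 : ℂ) * sl ζ M h 0 z - (M k 0 : ℂ) * sl ζ M h 1 z) ^ e *
        MvPolynomial.eval (fun i => sl ζ M h i z) P' := by
      conv_lhs => rw [hPP]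
      rw [map_mul, map_pow, Lf, map_sub, map_mul, map_mul, MvPolynomial.eval_C, MvPolynomial.eval_C, MvPolynomial.eval_X, MvPolynomial.eval_X]
    rw [h4] at h3
    have h5 := cpur_pert hP' ha (haC 0) (hμN 0).1 hμpar hnear hz0 (x := fun i => sl ζ M h i z) (fun i => by
      rw [hz, ← hk]
      exact h1.2 i)
    rw [← hPμ] at h5
    have h6 := cpur_alg (h3.trans (by linarith only [hθc, hq])) h5 hPμ0
    rw [hz] at h6
    exact h6

end Pool.Agent.SR3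

end
end

section

/-!
# SR3 CMac: the end of the function theory of the wells at a crossing
-/

set_option autoImplicit false

open Metric

noncomputable section

namespace Pool.Agent.SR3

variable {κ : Type} [Fintype κ]

theorem eval_pure (a : Fin 2 → ℕ) (b : ℂ) (m : ℕ) (y : Fin 2 → ℂ) :
    MvPolynomial.eval y (MvPolynomial.C b * Lf a ^ m) = b * ((a 1 : ℂ) * y 0 - (a 0 : ℂ) * y 1) ^ m := by
  simp [Lf]

/-- a good circle for the larger discs of radius `exp (- θ ρ)` -/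
theorem cm_circle {ζ : κ → ℂ} {s : κ → ℝ} {M : κ → Fin 2 → ℕ} {h : Fin 2 → ℂ → ℂ} {z₀ : ℂ} {ρ C η K : ℝ} (W : Wd ζ s M h z₀ ρ C η K)
    {θ δ : ℝ} (hθ : 0 < θ) (hδ : 0 < δ) (hC : 1 ≤ C) (hρ₁ : 2 * C / (θ * δ) < ρ) (z₁ : ℂ) {r₁ r₂ : ℝ} (hr : δ * ρ ≤ r₂ - r₁) :
    ∃ r : ℝ, r₁ ≤ r ∧ r ≤ r₂ ∧ ∀ k, r + Real.exp (-(θ * ρ)) < ‖ζ k - z₁‖ ∨ ‖ζ k - z₁‖ + Real.exp (-(θ * ρ)) < r := by
  refine good_circle (s := fun _ => Real.exp (-(θ * ρ))) (fun _ => (Real.exp_pos _).le) (lt_of_lt_of_le ?_ hr)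
  have h1 : ∑ k : κ, Real.exp (-(θ * ρ)) = (Fintype.card κ : ℝ) * Real.exp (-(θ * ρ)) := by simp
  rw [h1]
  have h2 : Real.exp (-(θ * ρ)) * (θ * ρ) ≤ 1 := by
    have := Real.add_one_le_exp (θ * ρ)
    have h3 : Real.exp (-(θ * ρ)) * Real.exp (θ * ρ) = 1 := by rw [← Real.exp_add]; simp
    have hm1 := mul_le_mul_of_nonneg_left this (Real.exp_pos (-(θ * ρ))).le
    linarith only [hm1, h3, Real.exp_pos (-(θ * ρ))]
  have h4 : (Fintype.card κ : ℝ) * Real.exp (-(θ * ρ)) ≤ C * ρ * Real.exp (-(θ * ρ)) := mul_le_mul_of_nonneg_right W.card (Real.exp_pos _).le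
  have h5 : C * ρ * Real.exp (-(θ * ρ)) ≤ C / θ := by
    rw [le_div_iff₀ hθ]
    have hm1 := mul_le_mul_of_nonneg_left h2 (zero_le_one.trans hC)
    linarith only [hm1]
  have h6 : 2 * C / θ < δ * ρ := by
    rw [div_lt_iff₀ (by positivity)] at hρ₁
    rw [div_lt_iff₀ hθ]
    linarith only [hρ₁]
  have h7 : 2 * C / θ = 2 * (C / θ) := by ring
  linarith

theorem pure_at {C η ε : ℝ} (hC : 1 ≤ C) (hη : 0 < η) (hε : 0 < ε) (hε1 : ε ≤ 1) {m : ℕ} (hm : 1 ≤ m) {P : MvPolynomial (Fin 2) ℂ}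
    (hP : P.IsHomogeneous m) {c : ℝ} (hc : 0 < c) :
    ∃ K₁ θ₀ : ℝ, 0 < θ₀ ∧ ∀ θ : ℝ, 0 < θ → θ ≤ θ₀ → θ ≤ η → ∃ ρ₁ : ℝ, ∀ (κ : Type) [Fintype κ] (ζ : κ → ℂ) (s : κ → ℝ) (M : κ → Fin 2 → ℕ) (h : Fin 2 → ℂ → ℂ)
      (z₀ : ℂ) (ρ K : ℝ), Wd ζ s M h z₀ ρ C η K → K₁ ≤ K → ρ₁ ≤ ρ → ∀ q : ℂ, c ≤ ‖q‖ → ‖q‖ ≤ C →
        (∀ z ∈ ball z₀ ((1 - ε / 2) * ρ), (∀ k, Real.exp (-(θ * ρ)) ≤ ‖z - ζ k‖) → ‖MvPolynomial.eval (fun i => sl ζ M h i z) P - q‖ ≤ θ) →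
          ∀ k, ‖ζ k - z₀‖ ≤ (1 - 5 * ε / 8) * ρ → ∃ b : ℂ, b ≠ 0 ∧ P = MvPolynomial.C b * Lf (M k) ^ m := by
  have hA : (1 : ℝ) ≤ 16 / ε := by rw [le_div_iff₀ hε]; linarith
  have hAC : (1 : ℝ) ≤ 16 / ε * C := by
    have hm1 := mul_le_mul hA hC zero_le_one (zero_le_one.trans hA)
    linarith only [hm1]
  obtain ⟨K₁, θ₀, hθ₀, H⟩ := wd_pure hAC hη hm hP hc
  refine ⟨max K₁ 2, θ₀, hθ₀, fun θ hθ hθθ₀ hθη => ?_⟩
  obtain ⟨ρ₂, H⟩ := H θ hθ hθθ₀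
  refine ⟨1 + |16 * ρ₂ / ε| + 2 * C / (θ * (ε / 16)) + 32 / ε + 2 / θ, ?_⟩
  intro κ _ ζ s M h z₀ ρ K W hK hρ q hq hqC hH k hk
  have hK1 : K₁ ≤ K := (le_max_left _ _).trans hK
  have hK2 : 2 ≤ K := (le_max_right _ _).trans hK
  have p1 : 0 ≤ |16 * ρ₂ / ε| := abs_nonneg _
  have p2 : 0 < 2 * C / (θ * (ε / 16)) := by positivity
  have p3 : 0 < 32 / ε := by positivity
  have p4 : 0 < 2 / θ := by positivity
  have hρ0 : 0 < ρ := by linarith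
  have hρ2 : 16 * ρ₂ / ε ≤ ρ := (le_abs_self _).trans (by linarith)
  obtain ⟨r, hr1, hr2, hr⟩ := cm_circle W hθ (δ := ε / 16) (by positivity) hC (by linarith) (ζ k) (r₁ := ε / 16 * ρ) (r₂ := ε / 8 * ρ) (by linarith)
  have hερ : 0 < ε * ρ := mul_pos hε hρ0
  have hr0 : 0 < r := by linarith
  have hrρ : r ≤ ρ / 8 := by
    have hm1 := mul_le_mul_of_nonneg_right hε1 hρ0.le
    linarith only [hr2, hm1]
  have hexpr : ∀ j, s j ≤ Real.exp (-(θ * ρ)) := fun j => (W.s_le j).trans (Real.exp_le_exp.2 (by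
    have hm1 := mul_le_mul_of_nonneg_right hθη hρ0.le
    linarith only [hm1]))
  have hb' : ball (ζ k) r ⊆ ball z₀ ((1 - ε / 2) * ρ) := by
    intro z hz
    rw [mem_ball, dist_eq_norm] at hz ⊢
    have : z - z₀ = (z - ζ k) + (ζ k - z₀) := by ring
    rw [this]
    refine (norm_add_le _ _).trans_lt ?_
    linarith
  have hb : ball (ζ k) r ⊆ ball z₀ ρ := hb'.trans (ball_subset_ball (by linarith))
  have hρA : ρ ≤ 16 / ε * r := by
    have : 16 / ε * (ε / 16 * ρ) = ρ := by field_simp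
    have h2 := mul_le_mul_of_nonneg_left hr1 (by positivity : (0 : ℝ) ≤ 16 / ε)
    linarith
  obtain ⟨κ', _, e, h', -, hmem, W', hsg⟩ := wd_restrict W hC hη hK2 hr0 hb hA hρA (by linarith)
    (fun j => (hr j).imp (fun hj => by linarith [hexpr j]) (fun hj => by linarith [hexpr j]))
  obtain ⟨k', hk'⟩ := (hmem k).1 (mem_ball_self hr0)
  have hexp1 : Real.exp (-(θ * ρ)) ≤ Real.exp (-(θ * r)) / 2 := by
    have h2 : Real.exp (-(θ * r)) = Real.exp (-(θ * ρ)) * Real.exp (θ * (ρ - r)) := by rw [← Real.exp_add]; congr 1; ring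
    have h3 : θ * (ρ - r) + 1 ≤ Real.exp (θ * (ρ - r)) := Real.add_one_le_exp _
    have h4 : 2 ≤ θ * ρ := by
      have : 2 / θ ≤ ρ := by linarith
      rw [div_le_iff₀ hθ] at this; linarith
    have h5 : 1 ≤ θ * (ρ - r) := by
      have hm1 := mul_le_mul_of_nonneg_left hrρ hθ.le
      linarith only [h4, hm1]
    rw [h2]
    have hm1 := mul_le_mul_of_nonneg_left (show 2 ≤ Real.exp (θ * (ρ - r)) by linarith only [h3, h5]) (Real.exp_pos (-(θ * ρ))).le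
    linarith only [hm1]
  have hexp2 : Real.exp (-(θ * ρ)) ≤ r / 2 := by
    have h1 : Real.exp (-(θ * ρ)) ≤ 1 := Real.exp_le_one_iff.2 (neg_nonpos.2 (mul_nonneg hθ.le hρ0.le))
    have h2 : 32 / ε ≤ ρ := by linarith
    rw [div_le_iff₀ hε] at h2
    linarith only [h1, h2, hr1]
  obtain ⟨b, hb0, hbP⟩ := H κ' (ζ ∘ e) (s ∘ e) (M ∘ e) h' (ζ k) r K W' hK1
    (by rw [div_le_iff₀ hε] at hρ2; linarith only [hρ2, hr1]) q hq (hqC.trans (by
      have hm1 := mul_le_mul_of_nonneg_right hA (zero_le_one.trans hC)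
      linarith only [hm1])) (by
      intro z hz hzk
      have hzr : z ∈ ball (ζ k) r := ball_subset_ball (by linarith) hz
      have hall : ∀ j, Real.exp (-(θ * ρ)) ≤ ‖z - ζ j‖ := by
        intro j
        by_cases hj : ζ j ∈ ball (ζ k) r
        · obtain ⟨j', rfl⟩ := (hmem j).1 hj
          exact hexp1.trans (hzk j')
        · rw [mem_ball, dist_eq_norm, not_lt] at hj
          rw [mem_ball, dist_eq_norm] at hz
          have : ζ j - ζ k = (z - ζ k) - (z - ζ j) := by ring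
          have h1 := norm_sub_le (z - ζ k) (z - ζ j)
          rw [← this] at h1
          linarith
      have hs : ∀ j, s j ≤ ‖z - ζ j‖ := fun j => (hexpr j).trans (hall j)
      have h1 : (fun i => sl (ζ ∘ e) (M ∘ e) h' i z) = fun i => sl ζ M h i z := funext fun i => (hsg i z hzr hs).2
      rw [h1]
      exact hH z (hb' hzr) hall) k' (by simp [hk'])
  exact ⟨b, hb0, by simpa [hk'] using hbP⟩

theorem wd_macro {m : ℕ} (hm : 1 ≤ m) {P : MvPolynomial (Fin 2) ℂ} (hP : P.IsHomogeneous m) {c : ℝ} (hc : 0 < c) : ∃ c₁ : ℝ, 0 < c₁ ∧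
    ∀ C η ε : ℝ, 1 ≤ C → 0 < η → 0 < ε → ∃ K₁ θ₀ : ℝ, 0 < θ₀ ∧ ∀ θ : ℝ, 0 < θ → θ ≤ θ₀ → ∃ ρ₁ : ℝ, ∀ (κ : Type) [Fintype κ] (ζ : κ → ℂ) (s : κ → ℝ)
      (M : κ → Fin 2 → ℕ) (h : Fin 2 → ℂ → ℂ) (z₀ : ℂ) (ρ K : ℝ), Wd ζ s M h z₀ ρ C η K → K₁ ≤ K → ρ₁ ≤ ρ → ∀ q : ℂ, c ≤ ‖q‖ → ‖q‖ ≤ C →
        (∀ z ∈ ball z₀ ((1 - ε / 2) * ρ), (∀ k, Real.exp (-(θ * ρ)) ≤ ‖z - ζ k‖) → ‖MvPolynomial.eval (fun i => sl ζ M h i z) P - q‖ ≤ θ) →
          (∃ k, ζ k = z₀) → ∃ l : ℂ, c₁ ≤ ‖l‖ ∧ ∀ z ∈ ball z₀ ((1 - ε) * ρ), (∀ k, s k ≤ ‖z - ζ k‖) →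
            |(l * (z - z₀)).re| ≤ |sg ζ M h 0 z| + |sg ζ M h 1 z| + ε * ρ := by
  set B : ℝ := ‖MvPolynomial.eval (fun i : Fin 2 => if i = 0 then (1 : ℂ) else -1) P‖ with hB
  have hB0 : 0 ≤ B := norm_nonneg _
  have hc₁ : 0 < min 1 (c / (2 * (B + 1))) := lt_min one_pos (by positivity)
  refine ⟨min 1 (c / (2 * (B + 1))), hc₁, fun C η ε hC hη hε => ?_⟩
  rcases le_or_gt 1 ε with hε1 | hε1
  · refine ⟨0, 1, one_pos, fun θ _ _ => ⟨0, ?_⟩⟩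
    intro κ _ ζ s M h z₀ ρ K W hK hρ q hq hqC hH hk
    refine ⟨((min 1 (c / (2 * (B + 1))) : ℝ) : ℂ), ?_, fun z hz => ?_⟩
    · rw [Complex.norm_real, Real.norm_of_nonneg hc₁.le]
    · exfalso
      rw [mem_ball] at hz
      have h1 : (1 - ε) * ρ ≤ 0 := mul_nonpos_of_nonpos_of_nonneg (by linarith) hρ
      linarith [dist_nonneg (x := z) (y := z₀)]
  obtain ⟨K₁, θ₁, hθ₁, H₁⟩ := pure_at hC hη hε hε1.le hm hP hc
  by_cases hex : ∃ (a : Fin 2 → ℕ) (b : ℂ), b ≠ 0 ∧ (∀ i, 1 ≤ a i) ∧ P = MvPolynomial.C b * Lf a ^ m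
  · obtain ⟨a, b, hb0, ha, hPa⟩ := hex
    have hC2 : (1 : ℝ) ≤ 4 * C := by linarith
    obtain ⟨θ₂, hθ₂, H₂⟩ := wd_aff hC2 hη hm a hb0 hc (θ := ε / 4) (by positivity)
    refine ⟨max K₁ 2, min θ₁ (min θ₂ η), lt_min hθ₁ (lt_min hθ₂ hη), fun θ hθ hθ0 => ?_⟩
    have hθ1 : θ ≤ θ₁ := hθ0.trans (min_le_left _ _)
    have hθ2 : θ ≤ θ₂ := hθ0.trans ((min_le_right _ _).trans (min_le_left _ _))
    have hθη : θ ≤ η := hθ0.trans ((min_le_right _ _).trans (min_le_right _ _))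
    obtain ⟨ρ₂, H₁⟩ := H₁ θ hθ hθ1 hθη
    obtain ⟨ρ₃, H₂⟩ := H₂ θ hθ hθ2
    refine ⟨1 + |ρ₂| + |4 * ρ₃| + 2 * C / (θ * (ε / 8)) + 2 / (θ * ε), ?_⟩
    intro κ _ ζ s M h z₀ ρ K W hK hρ q hq hqC hH hk
    have hK1 : K₁ ≤ K := (le_max_left _ _).trans hK
    have hK2 : 2 ≤ K := (le_max_right _ _).trans hK
    have p0 : 0 ≤ |ρ₂| := abs_nonneg _
    have p1 : 0 ≤ |4 * ρ₃| := abs_nonneg _
    have p2 : 0 < 2 * C / (θ * (ε / 8)) := by positivity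
    have p3 : 0 < 2 / (θ * ε) := by positivity
    have hρ0 : 0 < ρ := by linarith
    have hρ2 : ρ₂ ≤ ρ := (le_abs_self _).trans (by linarith)
    have hρ3 : 4 * ρ₃ ≤ ρ := (le_abs_self _).trans (by linarith)
    have hερ : 0 < ε * ρ := mul_pos hε hρ0
    have hpar : ∀ k, ‖ζ k - z₀‖ ≤ (1 - 5 * ε / 8) * ρ → M k 0 * a 1 = M k 1 * a 0 := by
      intro k hk
      obtain ⟨b', hb', hbP⟩ := H₁ κ ζ s M h z₀ ρ K W hK1 hρ2 q hq hqC hH k hk
      have h1 : MvPolynomial.eval (fun i => ((M k i : ℕ) : ℂ)) P = 0 := by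
        rw [hbP, eval_pure]
        have : (M k 1 : ℂ) * (M k 0 : ℂ) - (M k 0 : ℂ) * (M k 1 : ℂ) = 0 := by ring
        rw [this, zero_pow (by omega), mul_zero]
      rw [hPa, eval_pure] at h1
      have h2 : ((a 1 : ℂ) * (M k 0 : ℂ) - (a 0 : ℂ) * (M k 1 : ℂ)) = 0 := by
        rcases mul_eq_zero.1 h1 with h1 | h1
        · exact absurd h1 hb0
        · exact pow_eq_zero_iff (by omega) |>.1 h1
      have h3 : (M k 0 : ℂ) * (a 1 : ℂ) = (M k 1 : ℂ) * (a 0 : ℂ) := by linear_combination h2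
      exact_mod_cast h3
    obtain ⟨R, hR1, hR2, hR⟩ := cm_circle W hθ (δ := ε / 8) (by positivity) hC (by linarith) z₀ (r₁ := (1 - 3 * ε / 4) * ρ) (r₂ := (1 - 5 * ε / 8) * ρ) (by linarith)
    have hRρ : R ≤ ρ := by linarith only [hR2, hερ]
    have hR0 : ρ / 4 ≤ R := by
      have hm1 := mul_le_mul_of_nonneg_right hε1.le hρ0.le
      linarith only [hR1, hm1]
    have hexpr : ∀ j, s j ≤ Real.exp (-(θ * ρ)) := fun j => (W.s_le j).trans (Real.exp_le_exp.2 (by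
      have hm1 := mul_le_mul_of_nonneg_right hθη hρ0.le
      linarith only [hm1]))
    have hbR : ball z₀ R ⊆ ball z₀ ρ := ball_subset_ball hRρ
    have hbR' : ball z₀ R ⊆ ball z₀ ((1 - ε / 2) * ρ) := ball_subset_ball (by linarith)
    obtain ⟨κ', _, e, h', -, hmem, W', hsg⟩ := wd_restrict W hC hη hK2 (by linarith) hbR (by norm_num : (1 : ℝ) ≤ 4) (by linarith) hRρ
      (fun j => (hR j).imp (fun hj => by linarith [hexpr j]) (fun hj => by linarith [hexpr j]))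
    have hexp1 : Real.exp (-(θ * ρ)) ≤ Real.exp (-(θ * R)) / 2 := by
      have h2 : Real.exp (-(θ * R)) = Real.exp (-(θ * ρ)) * Real.exp (θ * (ρ - R)) := by rw [← Real.exp_add]; congr 1; ring
      have h3 : θ * (ρ - R) + 1 ≤ Real.exp (θ * (ρ - R)) := Real.add_one_le_exp _
      have h4 : 2 ≤ θ * (ε * ρ) := by
        have : 2 / (θ * ε) ≤ ρ := by linarith
        rw [div_le_iff₀ (by positivity)] at this; linarith
      have h5 : 1 ≤ θ * (ρ - R) := by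
        have hm1 := mul_le_mul_of_nonneg_left (show 5 / 8 * (ε * ρ) ≤ ρ - R by linarith only [hR2]) hθ.le
        linarith only [hm1, h4]
      rw [h2]
      have hm1 := mul_le_mul_of_nonneg_left (show 2 ≤ Real.exp (θ * (ρ - R)) by linarith only [h3, h5]) (Real.exp_pos (-(θ * ρ))).le
      linarith only [hm1]
    obtain ⟨l, hl, hz⟩ := H₂ κ' (ζ ∘ e) (s ∘ e) (M ∘ e) h' z₀ R K W' hK2 (by linarith)
      (fun k' => hpar (e k') (by
        have h1 : ζ (e k') ∈ ball z₀ R := (hmem (e k')).2 ⟨k', rfl⟩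
        rw [mem_ball, dist_eq_norm] at h1
        linarith))
      q hq (hqC.trans (by linarith)) (by
        intro z hz hzk
        have hall : ∀ j, Real.exp (-(θ * ρ)) ≤ ‖z - ζ j‖ := by
          intro j
          by_cases hj : ζ j ∈ ball z₀ R
          · obtain ⟨j', rfl⟩ := (hmem j).1 hj
            exact hexp1.trans (hzk j')
          · rw [mem_ball, dist_eq_norm, not_lt] at hj
            rw [mem_ball, dist_eq_norm] at hz
            have : ζ j - z₀ = (z - z₀) - (z - ζ j) := by ring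
            have h1 := norm_sub_le (z - z₀) (z - ζ j)
            rw [← this] at h1
            rcases hR j with h2 | h2
            · linarith
            · have := Real.exp_pos (-(θ * ρ)); linarith
        have hs : ∀ j, s j ≤ ‖z - ζ j‖ := fun j => (hexpr j).trans (hall j)
        rw [(hsg 0 z hz hs).2, (hsg 1 z hz hs).2]
        have h2 := hH z (hbR' hz) hall
        rwa [hPa, eval_pure] at h2)
      (by
        obtain ⟨k, hk⟩ := hk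
        obtain ⟨k', hk'⟩ := (hmem k).1 (by rw [hk]; exact mem_ball_self (by linarith))
        exact ⟨k', by simp [hk', hk]⟩)
    have hσ : (0 : ℝ) < (a 0 : ℝ) + (a 1 : ℝ) := by
      have h1 : (1 : ℝ) ≤ (a 0 : ℝ) := by exact_mod_cast ha 0
      have h2 : (0 : ℝ) ≤ (a 1 : ℝ) := Nat.cast_nonneg _
      linarith
    have hσ1 : (1 : ℝ) ≤ (a 0 : ℝ) + (a 1 : ℝ) := by
      have h1 : (1 : ℝ) ≤ (a 0 : ℝ) := by exact_mod_cast ha 0
      have h2 : (0 : ℝ) ≤ (a 1 : ℝ) := Nat.cast_nonneg _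
      linarith
    set σ : ℝ := (a 0 : ℝ) + (a 1 : ℝ) with hσd
    refine ⟨l / (σ : ℂ), ?_, ?_⟩
    · -- the bound from below
      have hBe : B = ‖b‖ * σ ^ m := by
        rw [hB, hPa, eval_pure]
        simp only [Fin.isValue, ↓reduceIte, mul_one, one_ne_zero, mul_neg, sub_neg_eq_add, norm_mul, norm_pow]
        congr 2
        have : ((a 1 : ℂ) + (a 0 : ℂ)) = ((σ : ℝ) : ℂ) := by rw [hσd]; push_cast; ring
        rw [this, Complex.norm_real, Real.norm_of_nonneg hσ.le]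
      have hnl : ‖l / (σ : ℂ)‖ = ‖l‖ / σ := by rw [norm_div, Complex.norm_real, Real.norm_of_nonneg hσ.le]
      rw [hnl]
      by_contra hlt
      rw [not_le, lt_min_iff] at hlt
      obtain ⟨hl1, hl2⟩ := hlt
      set x : ℝ := ‖l‖ / σ with hx
      have hx0 : 0 ≤ x := by positivity
      have hlx : ‖l‖ = x * σ := by rw [hx]; field_simp
      have h1 : x ^ m ≤ x := pow_le_of_le_one hx0 hl1.le (by omega)
      have h2 : c ≤ 2 * B * x ^ m := by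
        rw [hBe]; rw [hlx, mul_pow] at hl
        linarith
      have h3 : 2 * B * x ^ m ≤ 2 * B * x := mul_le_mul_of_nonneg_left h1 (by positivity)
      rw [lt_div_iff₀ (by positivity)] at hl2
      linarith only [hl2, h2, h3, hx0]
    · intro z hz' hzs
      have hzR : z ∈ ball z₀ ((1 - ε / 4) * R) := by
        refine ball_subset_ball ?_ hz'
        have h1 : (1 - ε / 4) * ((1 - 3 * ε / 4) * ρ) ≤ (1 - ε / 4) * R := mul_le_mul_of_nonneg_left hR1 (by linarith)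
        have h3 : 0 ≤ ε * ε * ρ := by positivity
        have h4 : (1 - ε / 4) * ((1 - 3 * ε / 4) * ρ) = (1 - ε) * ρ + 3 / 16 * (ε * ε * ρ) := by ring
        linarith
      have hzR' : z ∈ ball z₀ R := ball_subset_ball (by
        have hm1 := mul_nonneg hε.le (show 0 ≤ R by linarith only [hR0, hρ0])
        linarith only [hm1]) hzR
      have h1 := hz z hzR (fun k' => hzs (e k'))
      rw [(hsg 0 z hzR' hzs).1, (hsg 1 z hzR' hzs).1] at h1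
      have h2 : (l / (σ : ℂ) * (z - z₀)).re = (l * (z - z₀)).re / σ := by
        rw [div_mul_eq_mul_div, Complex.div_ofReal_re]
      rw [h2, abs_div, abs_of_pos hσ, div_le_iff₀ hσ]
      have h3 : |(l * (z - z₀)).re| ≤ |(a 1 : ℝ) * sg ζ M h 0 z - (a 0 : ℝ) * sg ζ M h 1 z| + ε / 4 * R := by
        have := abs_sub_abs_le_abs_sub ((l * (z - z₀)).re) ((a 1 : ℝ) * sg ζ M h 0 z - (a 0 : ℝ) * sg ζ M h 1 z)
        rw [abs_sub_comm ((l * (z - z₀)).re) ((a 1 : ℝ) * sg ζ M h 0 z - (a 0 : ℝ) * sg ζ M h 1 z)] at this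
        linarith
      have h4 : |(a 1 : ℝ) * sg ζ M h 0 z - (a 0 : ℝ) * sg ζ M h 1 z| ≤ (a 1 : ℝ) * |sg ζ M h 0 z| + (a 0 : ℝ) * |sg ζ M h 1 z| := by
        refine (abs_sub _ _).trans ?_
        rw [abs_mul, abs_mul, Nat.abs_cast, Nat.abs_cast]
      have h5 : (0 : ℝ) ≤ (a 0 : ℝ) := Nat.cast_nonneg _
      have h6 : (0 : ℝ) ≤ (a 1 : ℝ) := Nat.cast_nonneg _
      have h7 : (a 1 : ℝ) ≤ σ := by linarith
      have h8 : (a 0 : ℝ) ≤ σ := by linarith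
      have h9 : ε / 4 * R ≤ ε * ρ * σ := by
        have h10 : ε / 4 * R ≤ ε * ρ := by
          have hm1 := mul_le_mul_of_nonneg_left hRρ hε.le
          linarith only [hm1, hερ]
        have h12 : ε * ρ ≤ ε * ρ * σ := le_mul_of_one_le_right (by positivity) hσ1
        linarith
      have h13 := mul_le_mul_of_nonneg_right h7 (abs_nonneg (sg ζ M h 0 z))
      have h14 := mul_le_mul_of_nonneg_right h8 (abs_nonneg (sg ζ M h 1 z))
      linarith only [h3, h4, h9, h13, h14]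
  · -- no data
    refine ⟨K₁, min θ₁ η, lt_min hθ₁ hη, fun θ hθ hθ0 => ?_⟩
    obtain ⟨ρ₂, H₁⟩ := H₁ θ hθ (hθ0.trans (min_le_left _ _)) (hθ0.trans (min_le_right _ _))
    refine ⟨max ρ₂ 0, ?_⟩
    intro κ _ ζ s M h z₀ ρ K W hK hρ q hq hqC hH hk
    exfalso
    obtain ⟨k, hk⟩ := hk
    have hρ0 : 0 ≤ ρ := (le_max_right _ _).trans hρ
    obtain ⟨b, hb, hbP⟩ := H₁ κ ζ s M h z₀ ρ K W hK ((le_max_left _ _).trans hρ) q hq hqC hH k (by
      rw [hk, sub_self, norm_zero]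
      exact mul_nonneg (by linarith) hρ0)
    exact hex ⟨M k, b, hb, W.one k, hbP⟩

end Pool.Agent.SR3

end
end
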