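import Pool.Agent.H43.TL2.M139
import Pool.Agent.H43.TL2.M143
import Pool.Agent.H43.TL2.M148
import Pool.Agent.H43.TL2.M153
import Pool.Agent.H43.TL2.M171

/-! The parts of this file: SR3.CLow, SR3.LResA, SR3.LRes. -/

section

/-!
# SR3 CLow: every point which is not too near to a well

Near a well: `wd_lowA` for the restriction to a disc about the point.  Otherwise a chain of discs (Harnack) along the segment to `z₀`, up to the first point which is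
near a well.
-/

set_option autoImplicit false

open Metric

noncomputable section

namespace Pool.Agent.SR3

/-- `exp (- x)` is small -/
private theorem exp_small {a b ρ : ℝ} (ha : 0 < a) (hb : 0 < b) (h : 1 / (a * b) ≤ ρ) : Real.exp (-(a * ρ)) < b := by
  have h1 : 1 / b ≤ a * ρ := by
    rw [div_le_iff₀ (mul_pos ha hb)] at h
    rw [div_le_iff₀ hb]
    linarith
  have h2 : 1 / b < Real.exp (a * ρ) := by linarith [Real.add_one_le_exp (a * ρ)]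
  rw [Real.exp_neg, inv_lt_comm₀ (Real.exp_pos _) hb, ← one_div]
  exact h2

/-- a point near a well, in the whole disc -/
private theorem near {C η ε : ℝ} (hC : 1 ≤ C) (hη : 0 < η) (hε : 0 < ε) (hε1 : ε ≤ 1) : ∃ δ c θ ρ₁ : ℝ, 0 < δ ∧ 0 < c ∧ 0 < θ ∧ θ ≤ η ∧ 1 ≤ ρ₁ ∧
    ∀ (κ : Type) [Fintype κ] (ζ : κ → ℂ) (s : κ → ℝ)
    (M : κ → Fin 2 → ℕ) (h : Fin 2 → ℂ → ℂ) (z₀ : ℂ) (ρ K : ℝ), Wd ζ s M h z₀ ρ C η K → 2 ≤ K → ρ₁ ≤ ρ →
      ∀ z ∈ ball z₀ ((1 - ε) * ρ), (∀ k, Real.exp (-(θ * ρ)) ≤ ‖z - ζ k‖) → (∃ k, ‖z - ζ k‖ ≤ δ * ρ) → ∀ i, c * ρ ≤ sg ζ M h i z := by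
  have hA : 1 ≤ 4 / ε := by rw [le_div_iff₀ hε]; linarith
  have hC' : 1 ≤ 4 / ε * C := by
    have hm1 := mul_le_mul hA hC zero_le_one (zero_le_one.trans hA)
    linarith only [hm1]
  obtain ⟨δ, c, θ, ρ₁, hδ, hδ8, hc, hθ, H⟩ := wd_lowA (C := 4 / ε * C) (η := η) hC' hη
  refine ⟨δ * ε / 4, c * ε / 4, min (θ * ε / 4) η, max 1 (max (4 * ρ₁ / ε) (1 / (η * (ε / (8 * C))))), by positivity, by positivity,
    lt_min (by positivity) hη, min_le_right _ _, le_max_left _ _, ?_⟩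
  intro κ _ ζ s M h z₀ ρ K W hK hρ z hz hfar hnear i
  have hρ1 : 1 ≤ ρ := (le_max_left _ _).trans hρ
  have hρ0 : 0 < ρ := by linarith
  have hρ2 : 4 * ρ₁ / ε ≤ ρ := ((le_max_left _ _).trans (le_max_right _ _)).trans hρ
  have hρ3 : 1 / (η * (ε / (8 * C))) ≤ ρ := ((le_max_right _ _).trans (le_max_right _ _)).trans hρ
  have hC0 : 0 < C := by linarith
  have hexp : Real.exp (-(η * ρ)) < ε / (8 * C) := exp_small hη (by positivity) hρ3
  have hsum : ∑ k, s k ≤ C * ρ * Real.exp (-(η * ρ)) := by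
    calc ∑ k, s k ≤ ∑ _k : κ, Real.exp (-(η * ρ)) := Finset.sum_le_sum fun k _ => W.s_le k
      _ = (Fintype.card κ : ℝ) * Real.exp (-(η * ρ)) := by rw [Finset.sum_const, nsmul_eq_mul, Finset.card_univ]
      _ ≤ C * ρ * Real.exp (-(η * ρ)) := mul_le_mul_of_nonneg_right W.card (Real.exp_pos _).le
  have hsum2 : 2 * ∑ k, s k < ε * ρ / 2 - ε * ρ / 4 := by
    have h1 : C * ρ * Real.exp (-(η * ρ)) < C * ρ * (ε / (8 * C)) := mul_lt_mul_of_pos_left hexp (by positivity)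
    have h2 : C * ρ * (ε / (8 * C)) = ε * ρ / 8 := by field_simp
    linarith
  obtain ⟨r, hr1, hr2, hm⟩ := good_circle (ζ := ζ) (s := s) (fun k => (W.s_pos k).le) (z₁ := z) (r₁ := ε * ρ / 4) (r₂ := ε * ρ / 2) hsum2
  have hερ : 0 < ε * ρ := by positivity
  have hr0 : 0 < r := by linarith
  have hερ1 : ε * ρ ≤ ρ := by
    have hm1 := mul_le_mul_of_nonneg_right hε1 hρ0.le
    linarith only [hm1]
  have hzd : dist z z₀ < (1 - ε) * ρ := mem_ball.1 hz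
  have hb : ball z r ⊆ ball z₀ ρ := ball_subset_ball' (by linarith only [hzd, hr2, hερ])
  have hρA : ρ ≤ 4 / ε * r := by
    rw [div_mul_eq_mul_div, le_div_iff₀ hε]; linarith
  obtain ⟨κ', inst, e, h', -, hmem, W', hsg⟩ := wd_restrict W hC hη hK hr0 hb hA hρA (by linarith) hm
  have hs : ∀ k, s k ≤ ‖z - ζ k‖ := by
    intro k
    refine (W.s_le k).trans (le_trans (Real.exp_le_exp.2 ?_) (hfar k))
    have : min (θ * ε / 4) η * ρ ≤ η * ρ := mul_le_mul_of_nonneg_right (min_le_right _ _) hρ0.le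
    linarith
  have hρ₁r : ρ₁ ≤ r := by
    rw [div_le_iff₀ hε] at hρ2
    linarith
  have hθr : min (θ * ε / 4) η * ρ ≤ θ * r := by
    have h1 : min (θ * ε / 4) η * ρ ≤ θ * ε / 4 * ρ := mul_le_mul_of_nonneg_right (min_le_left _ _) hρ0.le
    have h2 : θ * (ε * ρ / 4) ≤ θ * r := mul_le_mul_of_nonneg_left hr1 hθ.le
    linarith only [h1, h2]
  have h3 := H κ' (ζ ∘ e) (s ∘ e) (M ∘ e) h' z r K W' hK hρ₁r z (mem_ball_self (by linarith)) ?_ ?_ i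
  · rw [(hsg i z (mem_ball_self hr0) hs).1] at h3
    have h4 : c * (ε * ρ / 4) ≤ c * r := mul_le_mul_of_nonneg_left hr1 hc.le
    linarith only [h3, h4]
  · intro k'
    refine le_trans (Real.exp_le_exp.2 ?_) (hfar (e k'))
    linarith
  · obtain ⟨k, hk⟩ := hnear
    have h5 : ‖z - ζ k‖ ≤ δ * r := by
      have : δ * (ε * ρ / 4) ≤ δ * r := mul_le_mul_of_nonneg_left hr1 hδ.le
      linarith only [hk, this]
    have h6 : ζ k ∈ ball z r := by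
      have hm1 := mul_le_mul_of_nonneg_right hδ8 hr0.le
      rw [mem_ball, dist_comm, dist_eq_norm]
      linarith only [h5, hm1, hr0]
    obtain ⟨k', hk'⟩ := (hmem k).1 h6
    exact ⟨k', by simpa [hk'] using h5⟩

/-- Harnack in a disc without wells -/
private theorem step {κ : Type} [Fintype κ] {ζ : κ → ℂ} {s : κ → ℝ} {M : κ → Fin 2 → ℕ} {h : Fin 2 → ℂ → ℂ} {z₀ : ℂ} {ρ C η K : ℝ}
    (W : Wd ζ s M h z₀ ρ C η K) (hC : 1 ≤ C) (hη : 0 < η) (hK : 2 ≤ K) {w : ℂ} {r : ℝ} (hr : 0 < r) (hrρ : r ≤ ρ) (hb : ball w r ⊆ ball z₀ ρ)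
    (hk : ∀ k, r + s k < ‖ζ k - w‖) (i : Fin 2) {w' : ℂ} (hw' : ‖w' - w‖ ≤ r / 2) : sg ζ M h i w' + C ≤ 3 * (sg ζ M h i w + C) := by
  have hA : 1 ≤ ρ / r := by rw [le_div_iff₀ hr]; linarith
  have hρA : ρ ≤ ρ / r * r := by rw [div_mul_cancel₀ _ hr.ne']
  obtain ⟨κ', inst, e, h', -, hmem, W', hsg⟩ := wd_restrict W hC hη hK hr hb hA hρA hrρ fun k => Or.inl (hk k)
  have hempty : IsEmpty κ' := by
    constructor
    intro k'
    have h1 : ζ (e k') ∈ ball w r := (hmem (e k')).2 ⟨k', rfl⟩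
    have h2 := hk (e k')
    rw [mem_ball, dist_eq_norm] at h1
    linarith [W.s_pos (e k')]
  have hs : ∀ z ∈ ball w r, ∀ k, s k ≤ ‖z - ζ k‖ := by
    intro z hz k
    have h1 := hk k
    rw [mem_ball, dist_eq_norm] at hz
    have h2 : ‖ζ k - w‖ ≤ ‖z - w‖ + ‖z - ζ k‖ := by
      have : ζ k - w = (z - w) - (z - ζ k) := by ring
      rw [this]
      exact norm_sub_le _ _
    linarith
  have hre : ∀ z ∈ ball w r, (h' i z).re = sg ζ M h i z := by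
    intro z hz
    rw [← (hsg i z hz (hs z hz)).1]
    simp [sg]
  have hd : DifferentiableOn ℂ (fun z => h' i z + (C : ℂ)) (ball w r) := (W'.hol i).add_const _
  have h0 : ∀ z ∈ ball w r, 0 ≤ (h' i z + (C : ℂ)).re := by
    intro z hz
    rw [Complex.add_re, Complex.ofReal_re, hre z hz]
    linarith [W.low i z (hb hz) (hs z hz)]
  have h1 := Pool.Agent.SR2.harnack_re hr hd h0 hw'
  rw [Complex.add_re, Complex.ofReal_re, Complex.add_re, Complex.ofReal_re, hre w (mem_ball_self hr), hre w'] at h1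
  · exact h1
  · rw [mem_ball, dist_eq_norm]
    linarith

/-- the chain along a segment -/
private theorem chain {u : ℂ → ℝ} {S : Set ℂ} {r : ℝ} (hstep : ∀ w ∈ S, ∀ w' : ℂ, ‖w' - w‖ ≤ r → u w' ≤ 3 * u w) {a b : ℂ} {N : ℕ} (hN : 0 < N)
    (hseg : ∀ t : ℝ, 0 ≤ t → t ≤ 1 → a + (t : ℂ) * (b - a) ∈ S) (hab : ‖b - a‖ ≤ N * r) : u a ≤ 3 ^ N * u b := by
  have hN' : (0 : ℝ) < N := by exact_mod_cast hN
  have key : ∀ j : ℕ, j ≤ N → u a ≤ 3 ^ j * u (a + ((j / N : ℝ) : ℂ) * (b - a)) := by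
    intro j
    induction j with
    | zero =>
      intro _
      simp
    | succ j ih =>
      intro hj
      have h1 := ih (by omega)
      have hjN : ((j + 1 : ℕ) : ℝ) ≤ N := by exact_mod_cast hj
      have h2 := hstep (a + (((j + 1 : ℕ) / N : ℝ) : ℂ) * (b - a)) (hseg _ (by positivity) (by rw [div_le_one hN']; exact hjN))
        (a + ((j / N : ℝ) : ℂ) * (b - a)) ?_
      · calc u a ≤ 3 ^ j * u (a + ((j / N : ℝ) : ℂ) * (b - a)) := h1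
          _ ≤ 3 ^ j * (3 * u (a + (((j + 1 : ℕ) / N : ℝ) : ℂ) * (b - a))) := mul_le_mul_of_nonneg_left h2 (by positivity)
          _ = 3 ^ (j + 1) * u (a + (((j + 1 : ℕ) / N : ℝ) : ℂ) * (b - a)) := by ring
      · have h3 : a + ((j / N : ℝ) : ℂ) * (b - a) - (a + (((j + 1 : ℕ) / N : ℝ) : ℂ) * (b - a)) = (((-1) / N : ℝ) : ℂ) * (b - a) := by
          push_cast
          field_simp
          ring
        rw [h3, norm_mul, Complex.norm_real, Real.norm_eq_abs, abs_div, abs_neg, abs_one, abs_of_pos hN', one_div, inv_mul_le_iff₀ hN']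
        exact hab
  have h := key N le_rfl
  rwa [div_self hN'.ne', Complex.ofReal_one, one_mul, add_sub_cancel] at h

theorem wd_low {C η ε : ℝ} (hC : 1 ≤ C) (hη : 0 < η) (hε : 0 < ε) : ∃ c θ ρ₁ : ℝ, 0 < c ∧ 0 < θ ∧ ∀ (κ : Type) [Fintype κ] (ζ : κ → ℂ) (s : κ → ℝ)
    (M : κ → Fin 2 → ℕ) (h : Fin 2 → ℂ → ℂ) (z₀ : ℂ) (ρ K : ℝ), Wd ζ s M h z₀ ρ C η K → 2 ≤ K → ρ₁ ≤ ρ → (∃ k, ζ k = z₀) →
      ∀ z ∈ ball z₀ ((1 - ε) * ρ), (∀ k, Real.exp (-(θ * ρ)) ≤ ‖z - ζ k‖) → ∀ i, c * ρ ≤ sg ζ M h i z := by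
  rcases le_or_gt ε 1 with hε1 | hε1
  swap
  · refine ⟨1, 1, 1, one_pos, one_pos, ?_⟩
    intro κ _ ζ s M h z₀ ρ K W hK hρ _ z hz
    exfalso
    rw [mem_ball] at hz
    have hm1 := mul_pos (sub_pos.2 hε1) (lt_of_lt_of_le one_pos hρ)
    linarith only [hz, hm1, dist_nonneg (x := z) (y := z₀)]
  obtain ⟨δ, c, θ, ρ₁, hδ, hc, hθ, hθη, hρ₁, H⟩ := near hC hη hε hε1
  obtain ⟨m, hm⟩ : ∃ m : ℝ, m = min δ ε := ⟨_, rfl⟩
  have hm0 : 0 < m := by rw [hm]; exact lt_min hδ hε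
  have hmδ : m ≤ δ := by rw [hm]; exact min_le_left _ _
  have hmε : m ≤ ε := by rw [hm]; exact min_le_right _ _
  obtain ⟨N, hNm⟩ : ∃ N : ℕ, 4 / m ≤ N := exists_nat_ge _
  have hN : 0 < N := by
    have : (0 : ℝ) < N := lt_of_lt_of_le (by positivity) hNm
    exact_mod_cast this
  have h3N : (0 : ℝ) < 3 ^ N := by positivity
  refine ⟨c / 3 ^ N / 2, θ, max ρ₁ (max (1 / (θ * (δ / 2))) (2 * C * 3 ^ N / c)), by positivity, hθ, ?_⟩
  intro κ _ ζ s M h z₀ ρ K W hK hρ hz₀ z hz hfar i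
  have hρ1 : ρ₁ ≤ ρ := (le_max_left _ _).trans hρ
  have hρ2 : 1 / (θ * (δ / 2)) ≤ ρ := ((le_max_left _ _).trans (le_max_right _ _)).trans hρ
  have hρ3 : 2 * C * 3 ^ N / c ≤ ρ := ((le_max_right _ _).trans (le_max_right _ _)).trans hρ
  have hρge : 1 ≤ ρ := hρ₁.trans hρ1
  have hρ0 : 0 < ρ := by linarith
  have hexpθ : Real.exp (-(θ * ρ)) < δ / 2 := exp_small hθ (by positivity) hρ2
  have hexpη : Real.exp (-(η * ρ)) ≤ Real.exp (-(θ * ρ)) := Real.exp_le_exp.2 (by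
    have hm1 := mul_le_mul_of_nonneg_right hθη hρ0.le
    linarith only [hm1])
  have hcc : c / 3 ^ N / 2 * ρ ≤ c * ρ := by
    refine mul_le_mul_of_nonneg_right ?_ hρ0.le
    have h1 : c / 3 ^ N ≤ c := div_le_self hc.le (one_le_pow₀ (by norm_num))
    have h2 : 0 < c / 3 ^ N := by positivity
    linarith
  by_cases hnear : ∃ k, ‖z - ζ k‖ ≤ δ * ρ
  · exact hcc.trans (H κ ζ s M h z₀ ρ K W hK hρ1 z hz hfar hnear i)
  push Not at hnear
  -- the first point near a well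
  obtain ⟨γ, hγ⟩ : ∃ γ : ℝ → ℂ, γ = fun t : ℝ => z + (t : ℂ) * (z₀ - z) := ⟨_, rfl⟩
  have hγt : ∀ t, γ t = z + (t : ℂ) * (z₀ - z) := fun t => by rw [hγ]
  have hγc : Continuous γ := by
    rw [hγ]
    fun_prop
  have hcl : IsClosed (⋃ k, {t : ℝ | ‖γ t - ζ k‖ ≤ δ * ρ}) :=
    isClosed_iUnion_of_finite fun k => isClosed_le (by fun_prop) continuous_const
  have hTc : IsCompact (Set.Icc (0 : ℝ) 1 ∩ ⋃ k, {t : ℝ | ‖γ t - ζ k‖ ≤ δ * ρ}) := isCompact_Icc.inter_right hcl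
  obtain ⟨k₀, hk₀⟩ := hz₀
  have hTn : (Set.Icc (0 : ℝ) 1 ∩ ⋃ k, {t : ℝ | ‖γ t - ζ k‖ ≤ δ * ρ}).Nonempty := by
    refine ⟨1, ⟨zero_le_one, le_rfl⟩, Set.mem_iUnion.2 ⟨k₀, ?_⟩⟩
    show ‖γ 1 - ζ k₀‖ ≤ δ * ρ
    rw [hγt, hk₀, Complex.ofReal_one, one_mul, add_sub_cancel, sub_self, norm_zero]
    positivity
  obtain ⟨t₀, ht₀, hmin⟩ := hTc.exists_isLeast hTn
  obtain ⟨⟨h00, h01⟩, ht₀'⟩ := ht₀
  obtain ⟨k₁, hk₁⟩ := Set.mem_iUnion.1 ht₀'
  have hk₁' : ‖γ t₀ - ζ k₁‖ ≤ δ * ρ := hk₁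
  have ht0pos : 0 < t₀ := by
    rcases h00.lt_or_eq with h1 | h1
    · exact h1
    · exfalso
      have h2 := hnear k₁
      rw [← h1, hγt, Complex.ofReal_zero, zero_mul, add_zero] at hk₁'
      linarith
  have hbefore : ∀ k, ∀ t ∈ Set.Icc 0 t₀, δ * ρ ≤ ‖γ t - ζ k‖ := by
    intro k
    have h1 : Set.Ico 0 t₀ ⊆ {t : ℝ | δ * ρ ≤ ‖γ t - ζ k‖} := by
      intro t ht
      by_contra hcon
      have hlt : ‖γ t - ζ k‖ < δ * ρ := not_le.1 hcon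
      have h2 : t ∈ Set.Icc (0 : ℝ) 1 ∩ ⋃ k, {t : ℝ | ‖γ t - ζ k‖ ≤ δ * ρ} :=
        ⟨⟨ht.1, ht.2.le.trans h01⟩, Set.mem_iUnion.2 ⟨k, hlt.le⟩⟩
      exact absurd (hmin h2) (not_le.2 ht.2)
    have h3 : IsClosed {t : ℝ | δ * ρ ≤ ‖γ t - ζ k‖} := isClosed_le continuous_const (by fun_prop)
    have h4 := closure_minimal h1 h3
    rw [closure_Ico ht0pos.ne] at h4
    exact fun t ht => h4 ht
  have hzd : ‖z - z₀‖ < (1 - ε) * ρ := by rw [← dist_eq_norm]; exact mem_ball.1 hz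
  have hin : ∀ t, 0 ≤ t → t ≤ 1 → ‖γ t - z₀‖ < (1 - ε) * ρ := by
    intro t h1 h2
    have h3 : γ t - z₀ = ((1 - t : ℝ) : ℂ) * (z - z₀) := by
      rw [hγt]
      push_cast
      ring
    rw [h3, norm_mul, Complex.norm_real, Real.norm_eq_abs, abs_of_nonneg (by linarith)]
    have hm1 := mul_nonneg h1 (norm_nonneg (z - z₀))
    linarith only [hm1, hzd]
  have hfar' : ∀ k, Real.exp (-(θ * ρ)) ≤ ‖γ t₀ - ζ k‖ := by
    intro k
    have h1 := hbefore k t₀ ⟨h00, le_rfl⟩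
    have hm1 := mul_le_mul_of_nonneg_left hρge hδ.le
    linarith only [h1, hexpθ, hm1, hδ]
  have hlow := H κ ζ s M h z₀ ρ K W hK hρ1 (γ t₀) (by rw [mem_ball, dist_eq_norm]; exact hin t₀ h00 h01) hfar' ⟨k₁, hk₁'⟩ i
  -- the chain
  have hch := chain (u := fun w => sg ζ M h i w + C) (S := {w : ℂ | ‖w - z₀‖ < (1 - ε) * ρ ∧ ∀ k, δ * ρ ≤ ‖w - ζ k‖}) (r := m * ρ / 4)
    (a := γ t₀) (b := z) (N := N) ?_ hN ?_ ?_
  · have hch' : sg ζ M h i (γ t₀) + C ≤ 3 ^ N * (sg ζ M h i z + C) := hch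
    have h1 : c * ρ ≤ 3 ^ N * (sg ζ M h i z + C) := by linarith
    have h2 : c / 3 ^ N * ρ ≤ sg ζ M h i z + C := by
      rw [div_mul_eq_mul_div, div_le_iff₀ h3N]
      linarith
    have h3 : C ≤ c / 3 ^ N / 2 * ρ := by
      rw [div_le_iff₀ hc] at hρ3
      rw [div_div, div_mul_eq_mul_div, le_div_iff₀ (by positivity)]
      linarith only [hρ3]
    have h4 : c / 3 ^ N / 2 * ρ = c / 3 ^ N * ρ / 2 := by ring
    linarith
  · rintro w ⟨hw1, hw2⟩ w' hw'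
    have hmρ : m * ρ ≤ δ * ρ := mul_le_mul_of_nonneg_right hmδ hρ0.le
    have hmρ' : m * ρ ≤ ε * ρ := mul_le_mul_of_nonneg_right hmε hρ0.le
    have hερ : ε * ρ ≤ ρ := by
      have hm1 := mul_le_mul_of_nonneg_right hε1 hρ0.le
      linarith only [hm1]
    have hm' : 0 < m * ρ := by positivity
    refine step W hC hη hK (w := w) (r := m * ρ / 2) (by positivity) (by linarith) (ball_subset_ball' ?_) ?_ i ?_
    · rw [dist_eq_norm]
      linarith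
    · intro k
      have h1 := hw2 k
      have h2 := W.s_le k
      have hm1 := mul_le_mul_of_nonneg_left hρge hδ.le
      rw [norm_sub_rev]
      linarith only [h1, h2, hexpη, hexpθ, hmρ, hm1]
    · linarith
  · intro t h1 h2
    have h3 : γ t₀ + (t : ℂ) * (z - γ t₀) = γ ((1 - t) * t₀) := by
      rw [hγt, hγt]
      push_cast
      ring
    have h4 : 0 ≤ (1 - t) * t₀ := mul_nonneg (by linarith) h00
    have h5 : (1 - t) * t₀ ≤ t₀ := by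
      have hm1 := mul_nonneg h1 h00
      linarith only [hm1]
    show ‖γ t₀ + (t : ℂ) * (z - γ t₀) - z₀‖ < (1 - ε) * ρ ∧ ∀ k, δ * ρ ≤ ‖γ t₀ + (t : ℂ) * (z - γ t₀) - ζ k‖
    rw [h3]
    exact ⟨hin _ h4 (h5.trans h01), fun k => hbefore k _ ⟨h4, h5⟩⟩
  · have h1 : z - γ t₀ = ((-t₀ : ℝ) : ℂ) * (z₀ - z) := by
      rw [hγt]
      push_cast
      ring
    rw [h1, norm_mul, Complex.norm_real, Real.norm_eq_abs, abs_neg, abs_of_nonneg h00, norm_sub_rev]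
    have h2 : 4 ≤ N * m := by
      rw [div_le_iff₀ hm0] at hNm
      exact hNm
    have h3 : t₀ * ‖z - z₀‖ ≤ ρ := by
      have hm1 := mul_pos hε hρ0
      have hm2 := mul_le_mul_of_nonneg_right h01 (norm_nonneg (z - z₀))
      linarith only [hm1, hm2, hzd]
    have hm1 := mul_le_mul_of_nonneg_right h2 hρ0.le
    linarith only [hm1, h3]

end Pool.Agent.SR3

end
end

section

/-!
# SR3 LResA: the curve off the wells

At the distance `exp (- θ ρ)` from the wells the curve is exponentially near to the crossing, so its Fubini-Study length is exponentially small;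
the bounds for `sl` and for `ell + sl`.
-/

set_option autoImplicit false

open Topology Filter Metric

noncomputable section

namespace Pool.Agent.SR3

open Pool.Agent.H36.BP (EN fs wd Sub OrdTwo)
open Pool.Agent.H14.PP (IsCone Tan)
open Pool.Agent.H62.EF (MN pr)

variable {N : ℕ} {G : Geo N}
variable {y : EN N} {i : Fin 2 → G.ι} {l : Fin 2 → Fin (G.M + 1)} {P : G.J → MvPolynomial (Fin 2) ℂ} {r C α : ℝ}

/-- exponential growth -/
theorem lres_exp (A : ℝ) {b : ℝ} (hb : 0 < b) : ∃ R : ℝ, 1 ≤ R ∧ ∀ ρ : ℝ, R ≤ ρ → A * ρ ≤ Real.exp (b * ρ) := by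
  refine ⟨max 1 (2 * |A| / b ^ 2), le_max_left _ _, fun ρ hρ => ?_⟩
  have h1 : 1 ≤ ρ := (le_max_left _ _).trans hρ
  have h2 : 2 * |A| / b ^ 2 ≤ ρ := (le_max_right _ _).trans hρ
  have hb2 : 0 < b ^ 2 := by positivity
  rw [div_le_iff₀ hb2] at h2
  have h3 : 1 + b * ρ + (b * ρ) ^ 2 / 2 ≤ Real.exp (b * ρ) := Real.quadratic_le_exp_of_nonneg (by positivity)
  have h4 : A ≤ |A| := le_abs_self A
  have h5 : A * ρ ≤ |A| * ρ := mul_le_mul_of_nonneg_right h4 (by linarith only [h1])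
  have h6 : |A| * ρ ≤ (ρ * b ^ 2 / 2) * ρ := mul_le_mul_of_nonneg_right (by linarith only [h2]) (by linarith only [h1])
  have h7 : 0 < b * ρ := by positivity
  linarith only [h3, h5, h6, h7]

theorem lres_exp' (A : ℝ) {b : ℝ} (hb : 0 < b) : ∃ R : ℝ, 1 ≤ R ∧ ∀ ρ : ℝ, R ≤ ρ → A ≤ Real.exp (b * ρ) := by
  obtain ⟨R, hR, h⟩ := lres_exp |A| hb
  refine ⟨R, hR, fun ρ hρ => ?_⟩
  have h1 := h ρ hρ
  have h2 : |A| * 1 ≤ |A| * ρ := mul_le_mul_of_nonneg_left (hR.trans hρ) (abs_nonneg A)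
  have h3 : A ≤ |A| := le_abs_self A
  linarith only [h1, h2, h3]

theorem hl_off (hG : G.Ok) (hc : G.Crs y i l P r C α) {B η ε C' : ℝ} (_hB : 1 ≤ B) (hη : 0 < η) (hε : 0 < ε) (hC' : 1 ≤ C') : ∃ θ₀ β : ℝ, 0 < θ₀ ∧ 0 < β ∧
    ∀ θ : ℝ, 0 < θ → θ ≤ θ₀ → ∃ ρ₁ : ℝ, ∀ (F : ℂ → EN N) (κ : Type) [Fintype κ] (ζ : κ → ℂ) (s : κ → ℝ) (M : κ → Fin 2 → ℕ) (h : Fin 2 → ℂ → ℂ) (z₀ : ℂ)
      (ρ K : ℝ), G.Hl y i l r F ζ s M z₀ ρ B η K → G.Cmp i F ζ s M h z₀ ρ C' η K → 2 ≤ K → ρ₁ ≤ ρ → (∃ k, ζ k = z₀) → ∀ z ∈ ball z₀ ((1 - ε) * ρ),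
        (∀ k, Real.exp (-(θ * ρ)) ≤ ‖z - ζ k‖) → dist (pr (F z)) (pr y) < r ∧ fs (F z) (deriv F z) ≤ Real.exp (-(β * ρ)) ∧
          ∀ a, ‖sl ζ M h a z‖ ≤ Real.exp (2 * θ * ρ) ∧ ‖G.ell (i a) (F z) (deriv F z) + sl ζ M h a z‖ ≤ Real.exp (-(β * ρ)) := by
  obtain ⟨c, θ₁, ρa, hc0, hθ₁, hlow⟩ := wd_low (C := C') (η := η) (ε := ε / 2) hC' hη (by linarith only [hε])
  have hα := hc.α_pos
  have hCC := hc.C_ge
  have hac : 0 < α * c := mul_pos hα hc0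
  have hEα : 0 < Real.exp (α * C') := Real.exp_pos _
  obtain ⟨R1, hR1, e1⟩ := lres_exp' (1 / ε) (b := 1) one_pos
  obtain ⟨R3, hR3, e3⟩ := lres_exp' 2 (b := θ₁ / 2) (by linarith only [hθ₁])
  obtain ⟨R4, hR4, e4⟩ := lres_exp' 2 (b := η / 2) (by linarith only [hη])
  obtain ⟨R6, hR6, e6⟩ := lres_exp' (8 * C * Real.exp (α * C')) (b := 3 / 8 * (α * c)) (by positivity)
  obtain ⟨R8, hR8, e8⟩ := lres_exp' (2 * C') (b := α * c / 4) (by positivity)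
  obtain ⟨R9, hR9, e9⟩ := lres_exp (2 * C' * B) (b := η / 4) (by positivity)
  refine ⟨min (θ₁ / 2) (min (η / 4) (α * c / 8)), min (α * c / 4) (η / 4), by positivity, by positivity, fun θ hθ hθ0 => ?_⟩
  have hθ1 : θ ≤ θ₁ / 2 := hθ0.trans (min_le_left _ _)
  have hθ2 : θ ≤ η / 4 := hθ0.trans ((min_le_right _ _).trans (min_le_left _ _))
  have hθ3 : θ ≤ α * c / 8 := hθ0.trans ((min_le_right _ _).trans (min_le_right _ _))
  have hβ1 : min (α * c / 4) (η / 4) ≤ α * c / 4 := min_le_left _ _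
  have hβ2 : min (α * c / 4) (η / 4) ≤ η / 4 := min_le_right _ _
  obtain ⟨R7, hR7, e7⟩ := lres_exp (8 * C') hθ
  refine ⟨max ρa (max (1 / ε) (max R3 (max R4 (max R6 (max R7 (max R8 R9)))))), ?_⟩
  intro F κ _ ζ s M h z₀ ρ K hH hCmp hK hρ hk z hz hzk
  simp only [max_le_iff] at hρ
  obtain ⟨hρa, hρε, hρ3, hρ4, hρ6, hρ7, hρ8, hρ9⟩ := hρ
  have e3 := e3 ρ hρ3
  have e4 := e4 ρ hρ4
  have e6 := e6 ρ hρ6
  have e7 := e7 ρ hρ7
  have e8 := e8 ρ hρ8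
  have e9 := e9 ρ hρ9
  have hρ1 : 1 ≤ ρ := hR3.trans hρ3
  have hρ0 : 0 < ρ := by linarith only [hR3, hρ3]
  have hθρ : 0 < θ * ρ := mul_pos hθ hρ0
  have hηρ : 0 < η * ρ := mul_pos hη hρ0
  have hacρ : 0 < α * c * ρ := mul_pos hac hρ0
  have m1 : θ * ρ ≤ θ₁ / 2 * ρ := mul_le_mul_of_nonneg_right hθ1 hρ0.le
  have m2 : θ * ρ ≤ η / 4 * ρ := mul_le_mul_of_nonneg_right hθ2 hρ0.le
  have m3 : θ * ρ ≤ α * c / 8 * ρ := mul_le_mul_of_nonneg_right hθ3 hρ0.le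
  have m4 := mul_le_mul_of_nonneg_right hβ1 hρ0.le
  have m5 := mul_le_mul_of_nonneg_right hβ2 hρ0.le
  have hερ : 1 ≤ ε * ρ := by
    rw [div_le_iff₀ hε] at hρε
    linarith only [hρε]
  -- the radius
  set t : ℝ := Real.exp (-(θ * ρ)) / 2 with ht
  have hEθ : 0 < Real.exp (-(θ * ρ)) := Real.exp_pos _
  have hEθ1 : Real.exp (-(θ * ρ)) ≤ 1 := Real.exp_le_one_iff.2 (by linarith only [hθρ])
  have ht0 : 0 < t := by rw [ht]; linarith only [hEθ]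
  have ht1 : t ≤ 1 / 2 := by rw [ht]; linarith only [hEθ1]
  have hθθ₁ : Real.exp (-(θ₁ * ρ)) ≤ t := by
    have h1 : Real.exp (-(θ₁ * ρ)) * 2 ≤ Real.exp (-(θ₁ * ρ)) * Real.exp (θ₁ / 2 * ρ) := mul_le_mul_of_nonneg_left e3 (Real.exp_pos _).le
    rw [← Real.exp_add] at h1
    have h2 : Real.exp (-(θ₁ * ρ) + θ₁ / 2 * ρ) ≤ Real.exp (-(θ * ρ)) := Real.exp_le_exp.2 (by linarith only [m1])
    rw [ht]; linarith only [h1, h2]
  have hθη : Real.exp (-(η * ρ)) ≤ t := by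
    have h1 : Real.exp (-(η * ρ)) * 2 ≤ Real.exp (-(η * ρ)) * Real.exp (η / 2 * ρ) := mul_le_mul_of_nonneg_left e4 (Real.exp_pos _).le
    rw [← Real.exp_add] at h1
    have h2 : Real.exp (-(η * ρ) + η / 2 * ρ) ≤ Real.exp (-(θ * ρ)) := Real.exp_le_exp.2 (by linarith only [hθρ, m2])
    rw [ht]; linarith only [h1, h2]
  have hskt : ∀ k, s k ≤ t := fun k => (hH.s_le k).trans hθη
  rw [mem_ball, dist_eq_norm] at hz
  -- the points near `z`
  have hw0 : ∀ w : ℂ, ‖w - z‖ ≤ t → ‖w - z₀‖ < (1 - ε / 2) * ρ := fun w hw => by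
    have h1 : ‖w - z₀‖ ≤ ‖w - z‖ + ‖z - z₀‖ := by
      calc ‖w - z₀‖ = ‖(w - z) + (z - z₀)‖ := by ring_nf
        _ ≤ _ := norm_add_le _ _
    have h2 : (1 - ε / 2) * ρ = (1 - ε) * ρ + ε * ρ / 2 := by ring
    linarith only [hz, hερ, ht, hEθ1, hw, h1]
  have hwρ : ∀ w : ℂ, ‖w - z‖ ≤ t → ‖w - z₀‖ < ρ := fun w hw => by
    have h1 := hw0 w hw
    have h2 : (1 - ε / 2) * ρ = ρ - ε * ρ / 2 := by ring
    linarith only [hερ, h1]
  have hwk : ∀ w : ℂ, ‖w - z‖ ≤ t → ∀ k, t ≤ ‖w - ζ k‖ := fun w hw k => by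
    have h1 : ‖z - ζ k‖ ≤ ‖w - z‖ + ‖w - ζ k‖ := by
      calc ‖z - ζ k‖ = ‖(w - ζ k) - (w - z)‖ := by ring_nf
        _ ≤ ‖w - ζ k‖ + ‖w - z‖ := norm_sub_le _ _
        _ = _ := add_comm _ _
    have h2 := hzk k
    have h3 : Real.exp (-(θ * ρ)) = 2 * t := by rw [ht]; ring
    linarith only [ht, hw, h1, h2]
  have hwr : ∀ w : ℂ, ‖w - z‖ ≤ t → dist (pr (F w)) (pr y) < r := fun w hw =>
    hH.near w (hwρ w hw).le fun k => by
      have h1 := hwk w hw k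
      have h2 := hskt k
      have h3 := hH.s_pos k
      linarith only [ht0, h1, h2]
  set τ : ℝ := C * Real.exp (-(α * (c * ρ - C'))) with hτ
  have hwτ : ∀ w : ℂ, ‖w - z‖ ≤ t → dist (pr (F w)) (pr y) ≤ τ := fun w hw => by
    refine hc.rate (F w) (hH.mem w) (hwr w hw) (c * ρ - C') fun a => ?_
    have hwb : w ∈ ball z₀ ρ := by rw [mem_ball, dist_eq_norm]; exact hwρ w hw
    have hsk : ∀ k, s k ≤ ‖w - ζ k‖ := fun k => (hskt k).trans (hwk w hw k)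
    have h1 := hCmp.lam a w hwb hsk
    have h2 := hlow κ ζ s M h z₀ ρ K hCmp.wd hK hρa hk w (by rw [mem_ball, dist_eq_norm]; exact hw0 w hw)
      (fun k => hθθ₁.trans (hwk w hw k)) a
    have h3 := (abs_le.1 h1).1
    linarith only [h2, h3]
  -- the length
  have hτe : 8 * τ ≤ Real.exp (-(5 / 8 * (α * c) * ρ)) := by
    have h1 : Real.exp (-(α * (c * ρ - C'))) = Real.exp (α * C') * Real.exp (-(α * c * ρ)) := by
      rw [← Real.exp_add]; ring_nf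
    have h2 : 8 * τ = 8 * C * Real.exp (α * C') * Real.exp (-(α * c * ρ)) := by rw [hτ, h1]; ring
    rw [h2]
    calc 8 * C * Real.exp (α * C') * Real.exp (-(α * c * ρ)) ≤ Real.exp (3 / 8 * (α * c) * ρ) * Real.exp (-(α * c * ρ)) :=
          mul_le_mul_of_nonneg_right e6 (Real.exp_pos _).le
      _ = Real.exp (-(5 / 8 * (α * c) * ρ)) := by rw [← Real.exp_add]; ring_nf
  have hτ2 : τ ≤ 1 / 2 := by
    have h1 : Real.exp (-(5 / 8 * (α * c) * ρ)) ≤ 1 := Real.exp_le_one_iff.2 (by linarith only [hθρ, m3])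
    linarith only [hτe, h1]
  have hfs := crs_cauchy hc.ne hH.diff (fun w => ne0 hG (hH.mem w)) ht0 hτ2 hwτ
  have hfs' : fs (F z) (deriv F z) ≤ Real.exp (-(α * c / 2 * ρ)) := by
    have h1 : 4 * τ / t = 8 * τ * Real.exp (θ * ρ) := by
      have h2 : Real.exp (θ * ρ) * Real.exp (-(θ * ρ)) = 1 := by rw [← Real.exp_add]; simp
      rw [ht, div_eq_iff (by positivity)]
      calc 4 * τ = 4 * τ * 1 := by ring
        _ = 4 * τ * (Real.exp (θ * ρ) * Real.exp (-(θ * ρ))) := by rw [h2]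
        _ = _ := by ring
    rw [h1] at hfs
    refine hfs.trans ?_
    calc 8 * τ * Real.exp (θ * ρ) ≤ Real.exp (-(5 / 8 * (α * c) * ρ)) * Real.exp (θ * ρ) := mul_le_mul_of_nonneg_right hτe (Real.exp_pos _).le
      _ = Real.exp (-(5 / 8 * (α * c) * ρ) + θ * ρ) := by rw [Real.exp_add]
      _ ≤ Real.exp (-(α * c / 2 * ρ)) := Real.exp_le_exp.2 (by linarith only [m3])
  have hβle1 : Real.exp (-(α * c / 4 * ρ)) ≤ Real.exp (-(min (α * c / 4) (η / 4) * ρ)) :=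
    Real.exp_le_exp.2 (by linarith only [m4])
  have hβle2 : Real.exp (-(η / 4 * ρ)) ≤ Real.exp (-(min (α * c / 4) (η / 4) * ρ)) :=
    Real.exp_le_exp.2 (by linarith only [m5])
  have hz0 : ‖z - z‖ ≤ t := by simp [ht0.le]
  refine ⟨hwr z hz0, hfs'.trans (le_trans (Real.exp_le_exp.2 (by linarith only [hθρ, m3])) hβle1), fun a => ⟨?_, ?_⟩⟩
  · -- the bound for `sl`
    have h1 := sl_le hCmp.wd hC' hρ1 (z := z) (t := t) ht0 ?_ ?_ a
    · refine h1.trans ?_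
      have h2 : 4 * C' * ρ / t = 8 * C' * ρ * Real.exp (θ * ρ) := by
        have h2 : Real.exp (θ * ρ) * Real.exp (-(θ * ρ)) = 1 := by rw [← Real.exp_add]; simp
        rw [ht, div_eq_iff (by positivity)]
        calc 4 * C' * ρ = 4 * C' * ρ * 1 := by ring
          _ = 4 * C' * ρ * (Real.exp (θ * ρ) * Real.exp (-(θ * ρ))) := by rw [h2]
          _ = _ := by ring
      rw [h2]
      calc 8 * C' * ρ * Real.exp (θ * ρ) ≤ Real.exp (θ * ρ) * Real.exp (θ * ρ) := mul_le_mul_of_nonneg_right e7 (Real.exp_pos _).le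
        _ = Real.exp (2 * θ * ρ) := by rw [← Real.exp_add]; ring_nf
    · intro w hw
      rw [mem_ball, dist_eq_norm] at hw ⊢
      exact hwρ w hw.le
    · intro k
      have h2 := hskt k
      have h3 := hzk k
      have h4 : Real.exp (-(θ * ρ)) = 2 * t := by rw [ht]; ring
      linarith only [ht, h2, h3]
  · have hzb : z ∈ ball z₀ ρ := by rw [mem_ball, dist_eq_norm]; exact hwρ z hz0
    have hsk : ∀ k, s k ≤ ‖z - ζ k‖ := fun k => (hskt k).trans (hwk z hz0 k)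
    have h1 := hCmp.ell a z hzb hsk
    refine h1.trans ?_
    -- the sum
    have h2 : ∑ k, s k / ‖z - ζ k‖ ^ 2 ≤ B * ρ * Real.exp (-(η / 2 * ρ)) := by
      have h3 : ∀ k ∈ (Finset.univ : Finset κ), s k / ‖z - ζ k‖ ^ 2 ≤ Real.exp (-(η / 2 * ρ)) := fun k _ => by
        have h4 := hzk k
        have h5 : 0 < ‖z - ζ k‖ := hEθ.trans_le h4
        rw [div_le_iff₀ (by positivity)]
        have h6 : Real.exp (-(θ * ρ)) ^ 2 ≤ ‖z - ζ k‖ ^ 2 := pow_le_pow_left₀ hEθ.le h4 2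
        have h7 : Real.exp (-(η * ρ)) ≤ Real.exp (-(η / 2 * ρ)) * Real.exp (-(θ * ρ)) ^ 2 := by
          rw [pow_two, ← Real.exp_add, ← Real.exp_add]
          exact Real.exp_le_exp.2 (by linarith only [m2])
        calc s k ≤ Real.exp (-(η * ρ)) := hH.s_le k
          _ ≤ Real.exp (-(η / 2 * ρ)) * Real.exp (-(θ * ρ)) ^ 2 := h7
          _ ≤ _ := mul_le_mul_of_nonneg_left h6 (Real.exp_pos _).le
      calc ∑ k, s k / ‖z - ζ k‖ ^ 2 ≤ ∑ _k : κ, Real.exp (-(η / 2 * ρ)) := Finset.sum_le_sum h3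
        _ = (Fintype.card κ : ℝ) * Real.exp (-(η / 2 * ρ)) := by
          rw [Finset.sum_const, nsmul_eq_mul, Finset.card_univ]
        _ ≤ _ := mul_le_mul_of_nonneg_right hH.card (Real.exp_pos _).le
    have h8 : C' * Real.exp (-(α * c / 2 * ρ)) ≤ Real.exp (-(α * c / 4 * ρ)) / 2 := by
      have h9 : 2 * C' * Real.exp (-(α * c / 2 * ρ)) ≤ Real.exp (α * c / 4 * ρ) * Real.exp (-(α * c / 2 * ρ)) :=
        mul_le_mul_of_nonneg_right e8 (Real.exp_pos _).le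
      rw [← Real.exp_add] at h9
      have h10 : α * c / 4 * ρ + -(α * c / 2 * ρ) = -(α * c / 4 * ρ) := by ring
      rw [h10] at h9
      linarith only [h9]
    have h11 : C' * (B * ρ * Real.exp (-(η / 2 * ρ))) ≤ Real.exp (-(η / 4 * ρ)) / 2 := by
      have h9 : 2 * C' * B * ρ * Real.exp (-(η / 2 * ρ)) ≤ Real.exp (η / 4 * ρ) * Real.exp (-(η / 2 * ρ)) :=
        mul_le_mul_of_nonneg_right e9 (Real.exp_pos _).le
      rw [← Real.exp_add] at h9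
      have h10 : η / 4 * ρ + -(η / 2 * ρ) = -(η / 4 * ρ) := by ring
      rw [h10] at h9
      have h12 : C' * (B * ρ * Real.exp (-(η / 2 * ρ))) = 2 * C' * B * ρ * Real.exp (-(η / 2 * ρ)) / 2 := by ring
      linarith only [h9]
    calc C' * (fs (F z) (deriv F z) + ∑ k, s k / ‖z - ζ k‖ ^ 2)
        ≤ C' * (Real.exp (-(α * c / 2 * ρ)) + B * ρ * Real.exp (-(η / 2 * ρ))) :=
          mul_le_mul_of_nonneg_left (add_le_add hfs' h2) (by linarith only [hC'])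
      _ = C' * Real.exp (-(α * c / 2 * ρ)) + C' * (B * ρ * Real.exp (-(η / 2 * ρ))) := by ring
      _ ≤ Real.exp (-(α * c / 4 * ρ)) / 2 + Real.exp (-(η / 4 * ρ)) / 2 := add_le_add h8 h11
      _ ≤ _ := by linarith only [hβle1, hβle2]

end Pool.Agent.SR3

end
end

section

/-!
# SR3 LRes: the residue relation

PROOF.  From `hl_off`: off the wells `fs ≤ exp (- β ρ)`, `‖sl‖ ≤ X = exp (2 θ ρ)`, `‖ell + sl‖ ≤ exp (- β ρ)`; so `‖ell‖ ≤ 2 X`, `L ≤ 5 C X` (`Crs.oth`);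
`Crs.res`: `‖q - P (ell)‖ ≤ C (5 C) ^ m X ^ m exp (- β ρ)`; `crs_lip`: `‖P (ell) - P (- sl)‖ ≤ D 2 ^ m X ^ m exp (- β ρ)`; `crs_neg`; `4 (m + 1) θ ≤ β`.
-/

set_option autoImplicit false

open Topology Filter Metric

noncomputable section

namespace Pool.Agent.SR3

open Pool.Agent.H36.BP (EN fs wd Sub OrdTwo)
open Pool.Agent.H14.PP (IsCone Tan)
open Pool.Agent.SY (Ent)
open Pool.Agent.H62.EF (MN pr)

open Pool.Agent.SR3.Geo (Gd)

variable {N : ℕ} {G : Geo N} {T : Set (EN N)} {rho : EN N → ℝ} {M' : ℕ} {c₀ C₀ δ : ℝ} {g : (ℂ → EN N) → ℂ → ℝ}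
variable {y : EN N} {i : Fin 2 → G.ι} {l : Fin 2 → Fin (G.M + 1)} {P : G.J → MvPolynomial (Fin 2) ℂ} {r C α : ℝ}

theorem hl_res (hG : G.Ok) (hc : G.Crs y i l P r C α) {B η ε C' : ℝ} (hB : 1 ≤ B) (hη : 0 < η) (hε : 0 < ε) (hC' : 1 ≤ C') : ∃ θ₀ : ℝ, 0 < θ₀ ∧
    ∀ θ : ℝ, 0 < θ → θ ≤ θ₀ → ∃ ρ₁ : ℝ, ∀ (F : ℂ → EN N) (κ : Type) [Fintype κ] (ζ : κ → ℂ) (s : κ → ℝ) (M : κ → Fin 2 → ℕ) (h : Fin 2 → ℂ → ℂ) (z₀ : ℂ)
      (ρ K : ℝ), G.Hl y i l r F ζ s M z₀ ρ B η K → G.Cmp i F ζ s M h z₀ ρ C' η K → 2 ≤ K → ρ₁ ≤ ρ → (∃ k, ζ k = z₀) → ∀ q : G.J → ℂ,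
        (∀ j z, G.w j (F z) (deriv F z) = q j) → ∀ j, ∀ z ∈ ball z₀ ((1 - ε) * ρ), (∀ k, Real.exp (-(θ * ρ)) ≤ ‖z - ζ k‖) →
          ‖MvPolynomial.eval (fun a => sl ζ M h a z) (P j) - (-1) ^ G.m j * q j‖ ≤ θ := by
  classical
  obtain ⟨θ₁, β, hθ₁, hβ, hoff⟩ := hl_off hG hc hB hη hε hC'
  choose D hD0 hD using fun j => crs_lip (hc.hom j)
  obtain ⟨m, hm⟩ : ∃ m : ℕ, ∀ j, G.m j ≤ m := ⟨∑ j, G.m j, fun j => Finset.single_le_sum (fun _ _ => Nat.zero_le _) (Finset.mem_univ j)⟩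
  have hC1 : 1 ≤ C := hc.C_ge
  -- the constant
  obtain ⟨A, hA⟩ : ∃ A : ℝ, A = (∑ j, D j) * 2 ^ m + C * (5 * C) ^ m := ⟨_, rfl⟩
  have hDs : 0 ≤ ∑ j, D j := Finset.sum_nonneg fun j _ => hD0 j
  have hA0 : 0 < A := by
    rw [hA]
    positivity
  refine ⟨min θ₁ (β / (4 * (m + 1))), lt_min hθ₁ (by positivity), fun θ hθ hθ0 => ?_⟩
  obtain ⟨ρ₁, hρ₁⟩ := hoff θ hθ (hθ0.trans (min_le_left _ _))
  have hθβ : θ * (4 * (m + 1)) ≤ β := by
    have h1 := hθ0.trans (min_le_right _ _)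
    rwa [le_div_iff₀ (by positivity)] at h1
  -- the exponential
  obtain ⟨ρ₂, hρ₂⟩ : ∃ ρ₂ : ℝ, ∀ ρ, ρ₂ ≤ ρ → A * Real.exp (-(β / 2 * ρ)) ≤ θ := by
    refine ⟨2 / β * (A / θ), fun ρ hρ => ?_⟩
    have h1 : A / θ ≤ β / 2 * ρ := by
      have h2 := mul_le_mul_of_nonneg_left hρ (by positivity : 0 ≤ β / 2)
      have h3 : β / 2 * (2 / β * (A / θ)) = A / θ := by
        field_simp
      rwa [h3] at h2
    have h2 : A / θ ≤ Real.exp (β / 2 * ρ) := by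
      linarith [Real.add_one_le_exp (β / 2 * ρ)]
    rw [Real.exp_neg, ← div_eq_mul_inv, div_le_iff₀ (Real.exp_pos _)]
    rwa [div_le_iff₀ hθ, mul_comm] at h2
  refine ⟨max (max ρ₁ ρ₂) 0, fun F κ _ ζ s M h z₀ ρ K hl hcmp hK hρ hk q hq j z hz hzk => ?_⟩
  have hρ1 : ρ₁ ≤ ρ := le_trans (le_trans (le_max_left _ _) (le_max_left _ _)) hρ
  have hρ2 : ρ₂ ≤ ρ := le_trans (le_trans (le_max_right _ _) (le_max_left _ _)) hρ
  have hρ0 : 0 ≤ ρ := le_trans (le_max_right _ _) hρ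
  obtain ⟨hdist, hfs, hsl⟩ := hρ₁ F κ ζ s M h z₀ ρ K hl hcmp hK hρ1 hk z hz hzk
  have htan : Tan G.X (F z) (deriv F z) := tan hG hl.diff hl.mem z
  -- sizes
  obtain ⟨X, hX⟩ : ∃ X, X = Real.exp (2 * θ * ρ) := ⟨_, rfl⟩
  obtain ⟨b, hb⟩ : ∃ b, b = Real.exp (-(β * ρ)) := ⟨_, rfl⟩
  rw [← hb] at hfs
  have hsl1 : ∀ a, ‖sl ζ M h a z‖ ≤ X := fun a => by
    rw [hX]
    exact (hsl a).1
  have hsl2 : ∀ a, ‖G.ell (i a) (F z) (deriv F z) + sl ζ M h a z‖ ≤ b := fun a => by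
    rw [hb]
    exact (hsl a).2
  have hX1 : 1 ≤ X := by
    rw [hX]
    exact Real.one_le_exp (by positivity)
  have hb0 : 0 < b := by
    rw [hb]
    exact Real.exp_pos _
  have hb1 : b ≤ 1 := by
    rw [hb]
    exact Real.exp_le_one_iff.2 (by have := mul_nonneg hβ.le hρ0; linarith)
  have hell : ∀ a, ‖G.ell (i a) (F z) (deriv F z)‖ ≤ 2 * X := by
    intro a
    have h1 : G.ell (i a) (F z) (deriv F z) = (G.ell (i a) (F z) (deriv F z) + sl ζ M h a z) - sl ζ M h a z := by ring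
    rw [h1]
    exact (norm_sub_le _ _).trans (by linarith [hsl1 a, hsl2 a])
  have hL : G.L (F z) (deriv F z) ≤ 5 * C * X := by
    have h1 := hc.oth (F z) (hl.mem z) hdist (deriv F z) htan
    have h2 : fs (F z) (deriv F z) + ‖G.ell (i 0) (F z) (deriv F z)‖ + ‖G.ell (i 1) (F z) (deriv F z)‖ ≤ 5 * X := by
      linarith [hell 0, hell 1]
    calc _ ≤ _ := h1
      _ ≤ C * (5 * X) := mul_le_mul_of_nonneg_left h2 (by linarith)
      _ = 5 * C * X := by ring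
  have hL0 : 0 ≤ G.L (F z) (deriv F z) := L_nonneg _ _
  have hres := hc.res (F z) (hl.mem z) hdist j (deriv F z) htan
  rw [hq j z] at hres
  have hm1 : G.m j - 1 ≤ m := (Nat.sub_le _ _).trans (hm j)
  have hXm : ∀ n : ℕ, n ≤ m → X ^ n ≤ X ^ m := fun n hn => pow_le_pow_right₀ hX1 hn
  have h1 : C * fs (F z) (deriv F z) * G.L (F z) (deriv F z) ^ (G.m j - 1) ≤ C * (5 * C) ^ m * (X ^ m * b) := by
    have h2 : G.L (F z) (deriv F z) ^ (G.m j - 1) ≤ (5 * C * X) ^ m := by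
      calc _ ≤ (5 * C * X) ^ (G.m j - 1) := pow_le_pow_left₀ hL0 hL _
        _ ≤ (5 * C * X) ^ m := pow_le_pow_right₀ (by nlinarith) hm1
    calc C * fs (F z) (deriv F z) * G.L (F z) (deriv F z) ^ (G.m j - 1) ≤ C * b * (5 * C * X) ^ m := by
          refine mul_le_mul ?_ h2 (pow_nonneg hL0 _) (by positivity)
          exact mul_le_mul_of_nonneg_left hfs (by linarith)
      _ = C * (5 * C) ^ m * (X ^ m * b) := by
          rw [mul_pow (5 * C) X]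
          ring
  have h2 := hD j (fun a => G.ell (i a) (F z) (deriv F z)) (fun a => -sl ζ M h a z) (2 * X) b (by linarith) hell
    (fun a => by rw [norm_neg]; linarith [hsl1 a]) (fun a => by rw [sub_neg_eq_add]; exact hsl2 a)
  have h3 : D j * (2 * X) ^ G.m j * b ≤ (∑ j, D j) * 2 ^ m * (X ^ m * b) := by
    have h4 : (2 * X) ^ G.m j ≤ 2 ^ m * X ^ m := by
      rw [← mul_pow]
      exact pow_le_pow_right₀ (by linarith) (hm j)
    have h5 : D j ≤ ∑ j, D j := Finset.single_le_sum (fun j _ => hD0 j) (Finset.mem_univ j)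
    calc D j * (2 * X) ^ G.m j * b ≤ (∑ j, D j) * (2 ^ m * X ^ m) * b :=
          mul_le_mul_of_nonneg_right (mul_le_mul h5 h4 (by positivity) hDs) hb0.le
      _ = _ := by ring
  have h4 : X ^ m * b ≤ Real.exp (-(β / 2 * ρ)) := by
    rw [hX, hb, ← Real.exp_nat_mul, ← Real.exp_add, Real.exp_le_exp]
    have h5 : θ * (4 * (m + 1)) * ρ ≤ β * ρ := mul_le_mul_of_nonneg_right hθβ hρ0
    have h6 : 0 ≤ θ * ρ := mul_nonneg hθ.le hρ0
    nlinarith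
  have h5 : MvPolynomial.eval (fun a => sl ζ M h a z) (P j) - (-1) ^ G.m j * q j =
      (-1) ^ G.m j * (MvPolynomial.eval (fun a => -sl ζ M h a z) (P j) - q j) := by
    rw [crs_neg (hc.hom j), mul_sub, ← mul_assoc, ← mul_pow]
    norm_num
  rw [h5, norm_mul, norm_pow, norm_neg, norm_one, one_pow, one_mul]
  have h6 : MvPolynomial.eval (fun a => -sl ζ M h a z) (P j) - q j =
      -((q j - MvPolynomial.eval (fun a => G.ell (i a) (F z) (deriv F z)) (P j)) +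
        (MvPolynomial.eval (fun a => G.ell (i a) (F z) (deriv F z)) (P j) - MvPolynomial.eval (fun a => -sl ζ M h a z) (P j))) := by ring
  rw [h6, norm_neg]
  calc _ ≤ ‖q j - MvPolynomial.eval (fun a => G.ell (i a) (F z) (deriv F z)) (P j)‖ +
        ‖MvPolynomial.eval (fun a => G.ell (i a) (F z) (deriv F z)) (P j) - MvPolynomial.eval (fun a => -sl ζ M h a z) (P j)‖ := norm_add_le _ _
    _ ≤ C * (5 * C) ^ m * (X ^ m * b) + (∑ j, D j) * 2 ^ m * (X ^ m * b) := add_le_add (hres.trans h1) (h2.trans h3)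
    _ = A * (X ^ m * b) := by rw [hA]; ring
    _ ≤ A * Real.exp (-(β / 2 * ρ)) := mul_le_mul_of_nonneg_left h4 hA0.le
    _ ≤ θ := hρ₂ ρ hρ2

end Pool.Agent.SR3

end
end
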