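import Pool.Agent.H43.TL2.M155
import Pool.Agent.H43.TL2.SR3.LNear_1
import Pool.Agent.H43.TL2.SR3.LZer

/-! The parts of this file: SR3.LFac, SR3.LWd. -/

section

/-!
# SR3 LFac: the factorization along the holes and the winding numbers
-/

set_option autoImplicit false

open Topology Filter Metric

noncomputable section

namespace Pool.Agent.SR3

open Pool.Agent.H36.BP (EN fs wd Sub OrdTwo)
open Pool.Agent.H14.PP (IsCone Tan)
open Pool.Agent.SY (Ent)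
open Pool.Agent.H62.EF (MN pr)
open Geo (Gd)

variable {N : ℕ} {G : Geo N} {T : Set (EN N)} {rho : EN N → ℝ} {M' : ℕ} {c₀ C₀ δ : ℝ} {g : (ℂ → EN N) → ℂ → ℝ}
variable {y : EN N} {i : Fin 2 → G.ι} {l : Fin 2 → Fin (G.M + 1)} {P : G.J → MvPolynomial (Fin 2) ℂ} {r C α : ℝ}

namespace LFac

/-- the logarithmic derivative of a factorized function is integrable on the sphere of a hole -/
theorem integrable {κ : Type} [Fintype κ] {ζ : κ → ℂ} {s : κ → ℝ} {f g : ℂ → ℂ} {n : κ → ℕ} {b : (k : κ) → Fin (n k) → ℂ} {z₀ : ℂ} {ρ : ℝ} (hs : ∀ k, 0 < s k)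
    (hg : DifferentiableOn ℂ g (ball z₀ ρ)) (hb : ∀ k j, b k j ∈ closedBall (ζ k) (s k / 2)) (hfg : ∀ z ∈ ball z₀ ρ, f z = Complex.exp (g z) * ∏ k, ∏ j, (z - b k j))
    (k : κ) (hk : ‖ζ k - z₀‖ + s k < ρ) (hsep : ∀ j, j ≠ k → s k + s j < ‖ζ j - ζ k‖) :
    CircleIntegrable (logDeriv f) (ζ k) (s k) := by
  have hsph : ∀ z ∈ sphere (ζ k) |s k|, z ∈ ball z₀ ρ := by
    intro z hz
    rw [mem_sphere, dist_eq_norm, abs_of_pos (hs k)] at hz
    rw [mem_ball, dist_eq_norm]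
    calc ‖z - z₀‖ = ‖(z - ζ k) + (ζ k - z₀)‖ := by congr 1; ring
      _ ≤ ‖z - ζ k‖ + ‖ζ k - z₀‖ := norm_add_le _ _
      _ < ρ := by rw [hz]; linarith
  have hd : DifferentiableOn ℂ f (ball z₀ ρ) := by
    have h1 : DifferentiableOn ℂ (fun z => Complex.exp (g z) * ∏ k, ∏ j, (z - b k j)) (ball z₀ ρ) := by
      refine hg.cexp.mul ?_
      fun_prop
    exact h1.congr hfg
  have hd' : ContinuousOn (deriv f) (ball z₀ ρ) := (hd.deriv isOpen_ball).continuousOn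
  have h0 : ∀ z ∈ sphere (ζ k) |s k|, f z ≠ 0 := by
    intro z hz
    rw [hfg z (hsph z hz)]
    rw [mem_sphere, dist_eq_norm, abs_of_pos (hs k)] at hz
    refine mul_ne_zero (Complex.exp_ne_zero _) (Finset.prod_ne_zero_iff.mpr fun k' _ => Finset.prod_ne_zero_iff.mpr fun j _ => ?_)
    intro hcon
    have hz' : z = b k' j := sub_eq_zero.mp hcon
    have hbj := hb k' j
    rw [← hz', mem_closedBall, dist_eq_norm] at hbj
    by_cases hkk : k' = k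
    · subst hkk
      rw [hz] at hbj
      have := hs k'
      linarith
    · have h1 := hsep k' hkk
      have h2 : ‖ζ k' - ζ k‖ ≤ ‖z - ζ k‖ + ‖z - ζ k'‖ := by
        calc ‖ζ k' - ζ k‖ = ‖(z - ζ k) - (z - ζ k')‖ := by congr 1; ring
          _ ≤ _ := norm_sub_le _ _
      have := hs k'
      rw [hz] at h2
      linarith
  refine ContinuousOn.circleIntegrable' ?_
  intro z hz
  have hz' := hsph z hz
  have h1 : ContinuousAt (deriv f) z := (hd' z hz').continuousAt (isOpen_ball.mem_nhds hz')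
  have h2 : ContinuousAt f z := (hd z hz').continuousWithinAt.continuousAt (isOpen_ball.mem_nhds hz')
  exact (h1.div h2 (h0 z hz)).continuousWithinAt

end LFac

theorem hl_fac (hG : G.Ok) (hc : G.Crs y i l P r C α) {B η : ℝ} (hB : 1 ≤ B) (hη : 0 < η) : ∃ n₁ : ℝ, 0 ≤ n₁ ∧ ∀ (F : ℂ → EN N) (κ : Type) [Fintype κ]
    (ζ : κ → ℂ) (s : κ → ℝ) (M : κ → Fin 2 → ℕ) (z₀ : ℂ) (ρ K : ℝ), G.Hl y i l r F ζ s M z₀ ρ B η K → 0 < ρ → ∀ a, ∃ (n n' : κ → ℕ)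
      (b : (k : κ) → Fin (n k) → ℂ) (b' : (k : κ) → Fin (n' k) → ℂ) (g g' : ℂ → ℂ), DifferentiableOn ℂ g (ball z₀ ρ) ∧ DifferentiableOn ℂ g' (ball z₀ ρ) ∧
      (∀ k j, b k j ∈ closedBall (ζ k) (s k / 2)) ∧ (∀ k j, b' k j ∈ closedBall (ζ k) (s k / 2)) ∧
      (∀ z ∈ ball z₀ ρ, (inner ℂ y (F z) : ℂ) = Complex.exp (g z) * ∏ k, ∏ j, (z - b k j)) ∧
      (∀ z ∈ ball z₀ ρ, (G.E (i a) (F z)).ofLp (l a) = Complex.exp (g' z) * ∏ k, ∏ j, (z - b' k j)) ∧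
      ∀ k, (n k : ℝ) ≤ n₁ ∧ (n' k : ℝ) ≤ n₁ ∧ (G.c (i a) : ℂ) * n k - n' k = M k a := by
  obtain ⟨n₁, hn₁, Hz⟩ := hl_zer hG hc hB hη
  refine ⟨n₁, hn₁, fun F κ _ ζ s M z₀ ρ K H hρ a => ?_⟩
  obtain ⟨n, n', b, b', g, g', hg, hg', hb, hb', h1, h2, h3⟩ := Hz F κ ζ s M z₀ ρ K H hρ a
  refine ⟨n, n', b, b', g, g', hg, hg', hb, hb', h1, h2, fun k => ⟨(h3 k).1, (h3 k).2, ?_⟩⟩
  have hs := H.s_pos
  have hk : ‖ζ k - z₀‖ + s k < ρ := by
    have := H.inb k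
    have := hs k
    linarith
  have hsep : ∀ j, j ≠ k → s k + s j < ‖ζ j - ζ k‖ := by
    intro j hj
    have a1 := H.sep j k hj
    have a2 := H.sep k j (Ne.symm hj)
    rw [norm_sub_rev] at a2
    have := hs k
    have := hs j
    linarith
  have e1 := wnd_scale H.diff y (i a) (l a) (ζ k) (hs k)
  rw [H.wind k a] at e1
  have c1 := circle_fac hs hg hb h1 k hk hsep
  have c2 := circle_fac hs hg' hb' h2 k hk hsep
  have i1 := LFac.integrable hs hg hb h1 k hk hsep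
  have i2 := LFac.integrable hs hg' hb' h2 k hk hsep
  have i3 : CircleIntegrable (fun z => (G.c (i a) : ℂ) * logDeriv (fun w => (inner ℂ y (F w) : ℂ)) z) (ζ k) (s k) := by
    have := i1.const_fun_smul (a := (G.c (i a) : ℂ))
    simpa only [smul_eq_mul] using this
  have e2 : (∮ z in C(ζ k, s k), (logDeriv (fun w => (G.E (i a) (F w)).ofLp (l a)) z - G.c (i a) * logDeriv (fun w => (inner ℂ y (F w) : ℂ)) z)) =
      (∮ z in C(ζ k, s k), logDeriv (fun w => (G.E (i a) (F w)).ofLp (l a)) z) - G.c (i a) * ∮ z in C(ζ k, s k), logDeriv (fun w => (inner ℂ y (F w) : ℂ)) z := by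
    rw [circleIntegral.integral_sub i2 i3, circleIntegral.integral_const_mul]
  rw [e2, c1, c2] at e1
  have hpi : (2 * Real.pi * Complex.I : ℂ) ≠ 0 := Complex.two_pi_I_ne_zero
  have e3 : (2 * Real.pi * Complex.I : ℂ) * ((G.c (i a) : ℂ) * n k - n' k) = (2 * Real.pi * Complex.I : ℂ) * M k a := by
    linear_combination e1
  exact mul_left_cancel₀ hpi e3

end Pool.Agent.SR3

end
end

section

/-!
# SR3 LWd: comparison of the curve with the function theory of `CDefs`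

`h a = c (i a) g - g'` with the factorizations of `hl_fac`; `fac_log`, `fac_deriv` with the radii `s k / 2`; `hl_sum`, `crs_lam`, `crs_ell`.
-/

set_option autoImplicit false

open Topology Filter Metric

noncomputable section

namespace Pool.Agent.SR3

open Pool.Agent.H36.BP (EN fs wd Sub OrdTwo)
open Pool.Agent.H14.PP (IsCone Tan)
open Pool.Agent.SY (Ent)
open Pool.Agent.H62.EF (MN pr)
open Geo (Gd)

variable {N : ℕ} {G : Geo N} {T : Set (EN N)} {rho : EN N → ℝ} {M' : ℕ} {c₀ C₀ δ : ℝ} {g : (ℂ → EN N) → ℂ → ℝ}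
variable {y : EN N} {i : Fin 2 → G.ι} {l : Fin 2 → Fin (G.M + 1)} {P : G.J → MvPolynomial (Fin 2) ℂ} {r C α : ℝ}

namespace LWd

/-- the ell half -/
theorem ell_half (hG : G.Ok) (hc : G.Crs y i l P r C α) : ∃ C' : ℝ, 0 ≤ C' ∧ ∀ (F : ℂ → EN N) (κ : Type) [Fintype κ] (ζ : κ → ℂ) (s : κ → ℝ)
    (M : κ → Fin 2 → ℕ) (z₀ : ℂ) (ρ B η K n₁ : ℝ), G.Hl y i l r F ζ s M z₀ ρ B η K → ∀ (a : Fin 2) (n n' : κ → ℕ) (b : (k : κ) → Fin (n k) → ℂ)
      (b' : (k : κ) → Fin (n' k) → ℂ) (g g' : ℂ → ℂ), DifferentiableOn ℂ g (ball z₀ ρ) → DifferentiableOn ℂ g' (ball z₀ ρ) →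
      (∀ k j, b k j ∈ closedBall (ζ k) (s k / 2)) → (∀ k j, b' k j ∈ closedBall (ζ k) (s k / 2)) →
      (∀ z ∈ ball z₀ ρ, (inner ℂ y (F z) : ℂ) = Complex.exp (g z) * ∏ k, ∏ j, (z - b k j)) →
      (∀ z ∈ ball z₀ ρ, (G.E (i a) (F z)).ofLp (l a) = Complex.exp (g' z) * ∏ k, ∏ j, (z - b' k j)) →
      (∀ k, (n k : ℝ) ≤ n₁ ∧ (n' k : ℝ) ≤ n₁ ∧ (G.c (i a) : ℂ) * n k - n' k = M k a) → ∀ z ∈ ball z₀ ρ, (∀ k, s k ≤ ‖z - ζ k‖) →
        ‖G.ell (i a) (F z) (deriv F z) + ((G.c (i a) : ℂ) * deriv g z - deriv g' z + ∑ k, (M k a : ℂ) / (z - ζ k))‖ ≤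
          C' * fs (F z) (deriv F z) + (G.c (i a) + 1) * n₁ * ∑ k, s k / ‖z - ζ k‖ ^ 2 := by
  obtain ⟨C', hC'⟩ := crs_ell hG hc
  refine ⟨|C'|, abs_nonneg _, fun F κ _ ζ s M z₀ ρ B η K n₁ hH a n n' b b' g g' hg hg' hb hb' hf hf' hn z hz hzs => ?_⟩
  have hs2 : ∀ k, 0 < s k / 2 := fun k => by
    have := hH.s_pos k
    positivity
  have hz2 : ∀ k, 2 * (s k / 2) ≤ ‖z - ζ k‖ := fun k => by
    have := hzs k
    linarith only [this]
  have hzn : dist (pr (F z)) (pr y) < r := hH.near z (by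
    have := mem_ball_iff_norm.mp hz
    exact this.le) fun k => by
      have h1 := hzs k
      have h2 := hH.s_pos k
      linarith only [h1, h2]
  have h1 := hC' F hH.diff hH.mem z hzn a
  have h2 := fac_deriv hs2 hg hb hf z hz hz2
  have h3 := fac_deriv hs2 hg' hb' hf' z hz hz2
  have hfs : 0 ≤ fs (F z) (deriv F z) := Pool.Agent.H36.BP.fs_nonneg _ _
  have hsum : ∀ m : κ → ℕ, (∀ k, (m k : ℝ) ≤ n₁) → ∑ k, (m k : ℝ) * (2 * (s k / 2) / ‖z - ζ k‖ ^ 2) ≤ n₁ * ∑ k, s k / ‖z - ζ k‖ ^ 2 := by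
    intro m hm
    rw [Finset.mul_sum]
    refine Finset.sum_le_sum fun k _ => ?_
    have h4 : 2 * (s k / 2) / ‖z - ζ k‖ ^ 2 = s k / ‖z - ζ k‖ ^ 2 := by ring
    rw [h4]
    have h5 : 0 ≤ s k / ‖z - ζ k‖ ^ 2 := div_nonneg (hH.s_pos k).le (by positivity)
    exact mul_le_mul_of_nonneg_right (hm k) h5
  have h2' := h2.trans (hsum n fun k => (hn k).1)
  have h3' := h3.trans (hsum n' fun k => (hn k).2.1)
  set LE : ℂ := logDeriv (fun w => (G.E (i a) (F w)).ofLp (l a)) z with hLE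
  set LI : ℂ := logDeriv (fun w => (inner ℂ y (F w) : ℂ)) z with hLI
  have hLE' : LE = deriv (fun w => (G.E (i a) (F w)).ofLp (l a)) z / (G.E (i a) (F z)).ofLp (l a) := logDeriv_apply _ _
  have hLI' : LI = deriv (fun w => (inner ℂ y (F w) : ℂ)) z / (inner ℂ y (F z) : ℂ) := logDeriv_apply _ _
  rw [← hLI'] at h2'
  rw [← hLE'] at h3'
  have hM : ∑ k, (M k a : ℂ) / (z - ζ k) = (G.c (i a) : ℂ) * ∑ k, (n k : ℂ) / (z - ζ k) - ∑ k, (n' k : ℂ) / (z - ζ k) := by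
    rw [Finset.mul_sum, ← Finset.sum_sub_distrib]
    refine Finset.sum_congr rfl fun k _ => ?_
    rw [← (hn k).2.2]
    ring
  have key : G.ell (i a) (F z) (deriv F z) + ((G.c (i a) : ℂ) * deriv g z - deriv g' z + ∑ k, (M k a : ℂ) / (z - ζ k)) =
      (G.ell (i a) (F z) (deriv F z) - (LE - G.c (i a) * LI)) + (LE - deriv g' z - ∑ k, (n' k : ℂ) / (z - ζ k)) -
        (G.c (i a) : ℂ) * (LI - deriv g z - ∑ k, (n k : ℂ) / (z - ζ k)) := by
    rw [hM]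
    ring
  rw [key]
  set S : ℝ := ∑ k, s k / ‖z - ζ k‖ ^ 2 with hS
  calc ‖(G.ell (i a) (F z) (deriv F z) - (LE - G.c (i a) * LI)) + (LE - deriv g' z - ∑ k, (n' k : ℂ) / (z - ζ k)) -
        (G.c (i a) : ℂ) * (LI - deriv g z - ∑ k, (n k : ℂ) / (z - ζ k))‖
      ≤ ‖G.ell (i a) (F z) (deriv F z) - (LE - G.c (i a) * LI)‖ + ‖LE - deriv g' z - ∑ k, (n' k : ℂ) / (z - ζ k)‖ +
        ‖(G.c (i a) : ℂ) * (LI - deriv g z - ∑ k, (n k : ℂ) / (z - ζ k))‖ :=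
        (norm_sub_le _ _).trans (add_le_add (norm_add_le _ _) le_rfl)
    _ ≤ |C'| * fs (F z) (deriv F z) + n₁ * S + G.c (i a) * (n₁ * S) := by
        refine add_le_add (add_le_add (h1.trans (mul_le_mul_of_nonneg_right (le_abs_self _) hfs)) h3') ?_
        rw [norm_mul, Complex.norm_natCast]
        exact mul_le_mul_of_nonneg_left h2' (Nat.cast_nonneg _)
    _ = |C'| * fs (F z) (deriv F z) + (G.c (i a) + 1) * n₁ * S := by ring

/-- the lam half -/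
theorem lam_half (hG : G.Ok) (hc : G.Crs y i l P r C α) : ∃ C' : ℝ, 0 ≤ C' ∧ ∀ (F : ℂ → EN N) (κ : Type) [Fintype κ] (ζ : κ → ℂ) (s : κ → ℝ)
    (M : κ → Fin 2 → ℕ) (z₀ : ℂ) (ρ B η K n₁ : ℝ), G.Hl y i l r F ζ s M z₀ ρ B η K → ∀ (a : Fin 2) (n n' : κ → ℕ) (b : (k : κ) → Fin (n k) → ℂ)
      (b' : (k : κ) → Fin (n' k) → ℂ) (g g' : ℂ → ℂ),
      (∀ k j, b k j ∈ closedBall (ζ k) (s k / 2)) → (∀ k j, b' k j ∈ closedBall (ζ k) (s k / 2)) →
      (∀ z ∈ ball z₀ ρ, (inner ℂ y (F z) : ℂ) = Complex.exp (g z) * ∏ k, ∏ j, (z - b k j)) →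
      (∀ z ∈ ball z₀ ρ, (G.E (i a) (F z)).ofLp (l a) = Complex.exp (g' z) * ∏ k, ∏ j, (z - b' k j)) →
      (∀ k, (n k : ℝ) ≤ n₁ ∧ (n' k : ℝ) ≤ n₁ ∧ (G.c (i a) : ℂ) * n k - n' k = M k a) → ∀ z ∈ ball z₀ ρ, (∀ k, s k ≤ ‖z - ζ k‖) →
        |G.lam (i a) (F z) - (((G.c (i a) : ℂ) * g z - g' z).re + ∑ k, (M k a : ℝ) * Real.log ‖z - ζ k‖)| ≤
          C' + (G.c (i a) + 1) * n₁ * ∑ k, s k / ‖z - ζ k‖ := by
  obtain ⟨C', hC'⟩ := crs_lam hG hc
  refine ⟨|C'|, abs_nonneg _, fun F κ _ ζ s M z₀ ρ B η K n₁ hH a n n' b b' g g' hb hb' hf hf' hn z hz hzs => ?_⟩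
  have hs2 : ∀ k, 0 < s k / 2 := fun k => by
    have := hH.s_pos k
    positivity
  have hz2 : ∀ k, 2 * (s k / 2) ≤ ‖z - ζ k‖ := fun k => by
    have := hzs k
    linarith only [this]
  have hzn : dist (pr (F z)) (pr y) < r := hH.near z (by
    have := mem_ball_iff_norm.mp hz
    exact this.le) fun k => by
      have h1 := hzs k
      have h2 := hH.s_pos k
      linarith only [h1, h2]
  have h1 := hC' (F z) (hH.mem z) hzn a
  have h2 := fac_log hs2 hb hf z hz hz2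
  have h3 := fac_log hs2 hb' hf' z hz hz2
  have hsum : ∀ m : κ → ℕ, (∀ k, (m k : ℝ) ≤ n₁) → ∑ k, (m k : ℝ) * (2 * (s k / 2) / ‖z - ζ k‖) ≤ n₁ * ∑ k, s k / ‖z - ζ k‖ := by
    intro m hm
    rw [Finset.mul_sum]
    refine Finset.sum_le_sum fun k _ => ?_
    have h4 : 2 * (s k / 2) / ‖z - ζ k‖ = s k / ‖z - ζ k‖ := by ring
    rw [h4]
    have h5 : 0 ≤ s k / ‖z - ζ k‖ := div_nonneg (hH.s_pos k).le (norm_nonneg _)
    exact mul_le_mul_of_nonneg_right (hm k) h5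
  have h2' := h2.trans (hsum n fun k => (hn k).1)
  have h3' := h3.trans (hsum n' fun k => (hn k).2.1)
  have hMr : ∀ k, (M k a : ℝ) = (G.c (i a) : ℝ) * n k - n' k := by
    intro k
    have h4 := (hn k).2.2
    have h5 := congrArg Complex.re h4
    simp at h5
    linarith only [h5]
  have hM : ∑ k, (M k a : ℝ) * Real.log ‖z - ζ k‖ = (G.c (i a) : ℝ) * ∑ k, (n k : ℝ) * Real.log ‖z - ζ k‖ - ∑ k, (n' k : ℝ) * Real.log ‖z - ζ k‖ := by
    rw [Finset.mul_sum, ← Finset.sum_sub_distrib]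
    refine Finset.sum_congr rfl fun k _ => ?_
    rw [hMr k]
    ring
  have hre : ((G.c (i a) : ℂ) * g z - g' z).re = (G.c (i a) : ℝ) * (g z).re - (g' z).re := by simp
  set S : ℝ := ∑ k, s k / ‖z - ζ k‖ with hS
  set LI : ℝ := Real.log ‖(inner ℂ y (F z) : ℂ)‖ with hLI
  set LE : ℝ := Real.log ‖(G.E (i a) (F z)).ofLp (l a)‖ with hLE
  have hc0 : (0 : ℝ) ≤ G.c (i a) := Nat.cast_nonneg _
  rw [hre, hM]
  rw [abs_le] at h1 h2' h3' ⊢
  obtain ⟨h11, h12⟩ := h1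
  obtain ⟨h21, h22⟩ := h2'
  obtain ⟨h31, h32⟩ := h3'
  have hC1 := le_abs_self C'
  have hC2 := neg_abs_le C'
  have m1 := mul_le_mul_of_nonneg_left h21 hc0
  have m2 := mul_le_mul_of_nonneg_left h22 hc0
  constructor <;> nlinarith

end LWd

theorem hl_wd (hG : G.Ok) (hc : G.Crs y i l P r C α) {B η : ℝ} (hB : 1 ≤ B) (hη : 0 < η) : ∃ C' ρ₁ : ℝ, 1 ≤ C' ∧ ∀ (F : ℂ → EN N) (κ : Type) [Fintype κ]
    (ζ : κ → ℂ) (s : κ → ℝ) (M : κ → Fin 2 → ℕ) (z₀ : ℂ) (ρ K : ℝ), G.Hl y i l r F ζ s M z₀ ρ B η K → ρ₁ ≤ ρ → ∃ h, G.Cmp i F ζ s M h z₀ ρ C' η K := by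
  obtain ⟨C₁, hC₁, hell⟩ := LWd.ell_half hG hc
  obtain ⟨C₂, hC₂, hlam⟩ := LWd.lam_half hG hc
  obtain ⟨n₁, hn₁, hfac⟩ := hl_fac hG hc hB hη
  obtain ⟨C₃, ρ₃, hsum⟩ := hl_sum hB hη
  obtain ⟨B₁, hB₁, hlow⟩ := lam_lowerA hG
  obtain ⟨B₂, hB₂, hupp⟩ := lam_upperA hG
  -- a bound for the degrees `c (i a)`
  set cc : ℝ := (G.c (i 0) : ℝ) + G.c (i 1) + 1 with hcc
  have hcca : ∀ a : Fin 2, (G.c (i a) : ℝ) + 1 ≤ cc := by
    intro a
    have h0 : (0 : ℝ) ≤ G.c (i 0) := Nat.cast_nonneg _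
    have h1 : (0 : ℝ) ≤ G.c (i 1) := Nat.cast_nonneg _
    fin_cases a
    · show (G.c (i 0) : ℝ) + 1 ≤ cc
      linarith
    · show (G.c (i 1) : ℝ) + 1 ≤ cc
      linarith
  have hcc0 : 0 ≤ cc := by
    have h0 : (0 : ℝ) ≤ G.c (i 0) := Nat.cast_nonneg _
    have h1 : (0 : ℝ) ≤ G.c (i 1) := Nat.cast_nonneg _
    positivity
  set D : ℝ := C₂ + cc * n₁ * |C₃| with hD
  have hD0 : 0 ≤ D := by positivity
  have hh0 : (0 : ℝ) ≤ G.h := Nat.cast_nonneg _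
  set C' : ℝ := 1 + D + C₁ + cc * n₁ + B + B₁ + B₂ + G.h * B with hC'
  have hhB : 0 ≤ (G.h : ℝ) * B := by positivity
  have hcn : 0 ≤ cc * n₁ := by positivity
  refine ⟨C', max ρ₃ 1, by linarith only [hB, hC₁, hB₁, hB₂, hD0, hhB, hcn], fun F κ _ ζ s M z₀ ρ K hH hρ => ?_⟩
  have hρ3 : ρ₃ ≤ ρ := (le_max_left _ _).trans hρ
  have hρ1 : 1 ≤ ρ := (le_max_right _ _).trans hρ
  have hρ0 : 0 < ρ := by linarith only [hρ1]
  choose n n' b b' g g' hg hg' hb hb' hf hf' hn using hfac F κ ζ s M z₀ ρ K hH hρ0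
  -- `ζ` is injective
  have hinj : Function.Injective ζ := by
    intro j k hjk
    by_contra hne
    have h1 := hH.sep j k hne
    rw [hjk, sub_self, norm_zero] at h1
    have h2 := hH.s_pos j
    linarith only [h1, h2]
  have hsumz : ∀ z, (∀ k, s k ≤ ‖z - ζ k‖) → ∑ k, s k / ‖z - ζ k‖ ≤ |C₃| := fun z hz =>
    (hsum κ ζ s ρ hρ3 (fun k => ⟨hH.s_pos k, hH.s_le k⟩) hinj hH.card hH.cnt z hz).trans (le_abs_self _)
  set h : Fin 2 → ℂ → ℂ := fun a z => (G.c (i a) : ℂ) * g a z - g' a z with hh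
  have hhol : ∀ a, DifferentiableOn ℂ (h a) (ball z₀ ρ) := fun a => ((hg a).const_mul _).sub (hg' a)
  have hlam' : ∀ a, ∀ z ∈ ball z₀ ρ, (∀ k, s k ≤ ‖z - ζ k‖) → |G.lam (i a) (F z) - sg ζ M h a z| ≤ D := by
    intro a z hz hzs
    have h1 := hlam F κ ζ s M z₀ ρ B η K n₁ hH a (n a) (n' a) (b a) (b' a) (g a) (g' a) (hb a) (hb' a) (hf a) (hf' a) (hn a) z hz hzs
    refine h1.trans ?_
    have h2 := hsumz z hzs
    have h3 : 0 ≤ ∑ k, s k / ‖z - ζ k‖ := Finset.sum_nonneg fun k _ => div_nonneg (hH.s_pos k).le (norm_nonneg _)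
    have h4 : ((G.c (i a) : ℝ) + 1) * n₁ * ∑ k, s k / ‖z - ζ k‖ ≤ cc * n₁ * |C₃| := by
      have h5 := hcca a
      gcongr
    rw [hD]
    linarith only [h4]
  refine ⟨h, ?_, ?_, ?_⟩
  · refine ⟨hhol, fun k => ?_, hH.one, fun k a => ?_, hH.s_pos, hH.s_le, fun j k hjk => ?_, hH.sepN, ?_, fun a z hz hzs => ?_, fun a z hz hzs => ?_, fun k a z hz hzk => ?_⟩
    · have h1 := hH.inb k
      have h2 := hH.s_pos k
      rw [mem_ball_iff_norm]
      linarith only [h1, h2]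
    · have := hH.M_le k a
      linarith only [hC₁, hB₁, hB₂, hD0, hhB, hcn, this]
    · have h1 := hH.sep j k hjk
      have h2 := hH.s_pos j
      linarith only [h1, h2]
    · refine hH.card.trans (mul_le_mul_of_nonneg_right ?_ hρ0.le)
      linarith only [hC₁, hB₁, hB₂, hD0, hhB, hcn]
    · have h1 := hlow (i a) (F z) (hH.mem z)
      have h2 := (abs_le.mp (hlam' a z hz hzs)).2
      linarith only [hB, hC₁, hB₂, hhB, hcn, h1, h2]
    · have h1 := (hupp (F z) (hH.mem z) (hH.nm z)).1 (i a)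
      have h2 := (abs_le.mp (hlam' a z hz hzs)).1
      have h3 := hH.upp z (by
        have := mem_ball_iff_norm.mp hz
        exact this.le)
      have h4 : (G.h : ℝ) * Real.log ‖F z‖ ≤ G.h * (B * ρ) := mul_le_mul_of_nonneg_left h3 hh0
      have h5 : D ≤ D * ρ := le_mul_of_one_le_right hD0 hρ1
      have h6 : B₂ ≤ B₂ * ρ := le_mul_of_one_le_right hB₂ hρ1
      have h7 : (D + B₂ + G.h * B) * ρ ≤ C' * ρ := mul_le_mul_of_nonneg_right (by linarith only [hB, hC₁, hB₁, hcn]) hρ0.le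
      linarith only [h1, h2, h4, h5, h6, h7]
    · -- rim
      have hsk := hH.s_pos k
      have hzs : ∀ j, s j ≤ ‖z - ζ j‖ := by
        intro j
        by_cases hjk : j = k
        · rw [hjk, hzk]
        · have h1 := hH.sep j k hjk
          have h1' := hH.sep k j (Ne.symm hjk)
          have h2 := hH.s_pos j
          have h3 : ‖ζ j - ζ k‖ ≤ ‖z - ζ j‖ + ‖z - ζ k‖ := by
            have : ζ j - ζ k = -(z - ζ j) + (z - ζ k) := by ring
            rw [this]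
            refine (norm_add_le _ _).trans ?_
            rw [norm_neg]
          have h4 : ‖ζ k - ζ j‖ = ‖ζ j - ζ k‖ := norm_sub_rev _ _
          rw [hzk] at h3
          linarith only [h1, h1', h2, h3, h4]
      have h1 := (hupp (F z) (hH.mem z) (hH.nm z)).1 (i a)
      have h2 := (abs_le.mp (hlam' a z hz hzs)).1
      have h3 := hH.bdd k z (by rw [hzk]; linarith only [hsk])
      have h4 : (G.h : ℝ) * Real.log ‖F z‖ ≤ G.h * B := mul_le_mul_of_nonneg_left h3 hh0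
      linarith only [hB, hC₁, hB₁, hcn, h1, h2, h4]
  · intro a z hz hzs
    exact (hlam' a z hz hzs).trans (by linarith only [hB, hC₁, hB₁, hB₂, hhB, hcn])
  · intro a z hz hzs
    have h1 := hell F κ ζ s M z₀ ρ B η K n₁ hH a (n a) (n' a) (b a) (b' a) (g a) (g' a) (hg a) (hg' a) (hb a) (hb' a) (hf a) (hf' a) (hn a) z hz hzs
    have hda : deriv (h a) z = (G.c (i a) : ℂ) * deriv (g a) z - deriv (g' a) z := by
      have hgd := (hg a).differentiableAt (isOpen_ball.mem_nhds hz)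
      have hgd' := (hg' a).differentiableAt (isOpen_ball.mem_nhds hz)
      rw [hh]
      show deriv (fun z => (G.c (i a) : ℂ) * g a z - g' a z) z = _
      rw [deriv_fun_sub (hgd.const_mul _) hgd', deriv_const_mul_field]
    have h2 : sl ζ M h a z = (G.c (i a) : ℂ) * deriv (g a) z - deriv (g' a) z + ∑ k, (M k a : ℂ) / (z - ζ k) := by
      rw [sl, hda]
    rw [h2]
    refine h1.trans ?_
    have hfs : 0 ≤ fs (F z) (deriv F z) := Pool.Agent.H36.BP.fs_nonneg _ _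
    have hS : 0 ≤ ∑ k, s k / ‖z - ζ k‖ ^ 2 := Finset.sum_nonneg fun k _ => div_nonneg (hH.s_pos k).le (by positivity)
    rw [mul_add]
    refine add_le_add (mul_le_mul_of_nonneg_right (by linarith only [hB, hB₁, hB₂, hD0, hhB, hcn]) hfs) (mul_le_mul_of_nonneg_right ?_ hS)
    have h3 := mul_le_mul_of_nonneg_right (hcca a) hn₁
    linarith only [hB, hC₁, hB₁, hB₂, hD0, hhB, h3]

end Pool.Agent.SR3

end
end
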