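import Pool.Agent.H43.TL2.H62.EF.PrA_1
import Pool.Agent.H43.TL2.M138
import Pool.Agent.H43.TL2.M140
import Pool.Agent.H43.TL2.M147
import Pool.Agent.H43.TL2.SR3.GDefs_1

/-! The parts of this file: SR3.PreFCore, SR3.Mac. -/

section

/-!
# SR3 PreFCore: rescaled curves, from the statements on the boundary functions and on the curves
-/

set_option autoImplicit false

open Metric Topology Filter MvPolynomial

noncomputable section

namespace Pool.Agent.SR3

open Pool.Agent.H36.BP (EN fs)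
open Pool.Agent.H14.PP (Tan)
open Geo (Gd)

variable {N : ℕ} {G : Geo N} {T : Set (EN N)} {rho : EN N → ℝ} {δ : ℝ}

theorem preF_tan (hG : G.Ok) {F : ℂ → EN N} (hF : Differentiable ℂ F) (hK : ∀ z, F z ∈ G.K) (z : ℂ) : Tan G.X (F z) (deriv F z) := by
  refine ⟨fun w => F (z + w), ⟨?_, ?_⟩, by simp, ?_⟩
  · exact (hF.comp (by fun_prop : Differentiable ℂ fun w : ℂ => z + w)).analyticAt 0
  · exact Eventually.of_forall fun w => ((hG.aff.mem _).1 (hK _)).1
  · rw [deriv_comp_const_add, add_zero]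

theorem preF_n {q : G.J → ℂ} {F : ℂ → EN N} (hF : G.Cl T q F) (w : ℂ) : G.n (F w) (deriv F w) = 1 := by
  have h := hF.one
  unfold Geo.nq at h
  unfold Geo.n Pool.Agent.SDA.nForms
  rw [← h]
  exact Finset.sum_congr rfl fun j _ => by rw [hF.val]

/-- the residue polynomials are uniformly continuous on bounded sets -/
theorem pol_unif (G : Geo N) (B : ℝ) {ε : ℝ} (hε : 0 < ε) : ∃ η : ℝ, 0 < η ∧ ∀ (t : G.Ty) (j : G.J) (y y' : G.ι → ℂ), (∀ i, ‖y i‖ ≤ B) →
    (∀ i, ‖y i - y' i‖ ≤ η) → ‖eval y (G.Pol t j) - eval y' (G.Pol t j)‖ ≤ ε := by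
  have h1 : ∀ t : G.Ty, ∀ j : G.J, ∀ᶠ η in 𝓝[>] (0 : ℝ), ∀ (y y' : G.ι → ℂ), (∀ i, ‖y i‖ ≤ B) → (∀ i, ‖y i - y' i‖ ≤ η) →
      ‖eval y (G.Pol t j) - eval y' (G.Pol t j)‖ ≤ ε := by
    intro t j
    have hK : IsCompact (closedBall (0 : G.ι → ℂ) (|B| + 1)) := isCompact_closedBall _ _
    have hu := hK.uniformContinuousOn_of_continuous (MvPolynomial.continuous_eval (G.Pol t j)).continuousOn
    rw [Metric.uniformContinuousOn_iff] at hu
    obtain ⟨η, hη, h⟩ := hu ε hε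
    have : ∀ᶠ η' in 𝓝[>] (0 : ℝ), η' < min η 1 := nhdsWithin_le_nhds (gt_mem_nhds (by positivity))
    filter_upwards [this, self_mem_nhdsWithin] with η' hη' hη0 y y' hy hyy
    have hη0 : 0 < η' := hη0
    have hy1 : ‖y‖ ≤ |B| := (pi_norm_le_iff_of_nonneg (abs_nonneg _)).2 fun i => (hy i).trans (le_abs_self _)
    have hy2 : ‖y - y'‖ ≤ η' := (pi_norm_le_iff_of_nonneg hη0.le).2 fun i => hyy i
    have hy3 : ‖y'‖ ≤ |B| + 1 := by
      have : ‖y'‖ ≤ ‖y‖ + ‖y - y'‖ := by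
        calc ‖y'‖ = ‖y - (y - y')‖ := by rw [sub_sub_cancel]
          _ ≤ ‖y‖ + ‖y - y'‖ := norm_sub_le _ _
      have h3 := hη'.trans_le (min_le_right η 1)
      linarith
    have h5 := h y (by simpa using hy1.trans (by linarith)) y' (by simpa using hy3) (by
      rw [dist_eq_norm]
      exact hy2.trans_lt (hη'.trans_le (min_le_left _ _)))
    rw [dist_eq_norm] at h5
    exact h5.le
  have h2 : ∀ᶠ η in 𝓝[>] (0 : ℝ), ∀ t : G.Ty, ∀ j : G.J, ∀ (y y' : G.ι → ℂ), (∀ i, ‖y i‖ ≤ B) → (∀ i, ‖y i - y' i‖ ≤ η) →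
      ‖eval y (G.Pol t j) - eval y' (G.Pol t j)‖ ≤ ε := eventually_all.2 fun t => eventually_all.2 fun j => h1 t j
  obtain ⟨η, hη, hη0⟩ := (h2.and self_mem_nhdsWithin).exists
  exact ⟨η, hη0, hη⟩

/-- homogeneous polynomials and the sign -/
theorem eval_neg {ι : Type} {m : ℕ} {Q : MvPolynomial ι ℂ} (hQ : Q.IsHomogeneous m) (y : ι → ℂ) : eval (fun i => -y i) Q = (-1) ^ m * eval y Q := by
  rw [eval_eq, eval_eq, Finset.mul_sum]
  refine Finset.sum_congr rfl fun d hd => ?_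
  have hdeg : ∑ i ∈ d.support, d i = m := by
    have := hQ (mem_support_iff.1 hd)
    simpa [Finsupp.weight_apply, Finsupp.sum] using this
  have h1 : ∏ i ∈ d.support, (-y i) ^ d i = (-1) ^ m * ∏ i ∈ d.support, y i ^ d i := by
    rw [← hdeg, ← Finset.prod_pow_eq_pow_sum, ← Finset.prod_mul_distrib]
    exact Finset.prod_congr rfl fun i _ => by rw [← mul_pow, neg_one_mul]
  rw [h1]
  ring

theorem preF_core (hG : G.Ok)
    (hgrow : ∃ B : ℝ, 0 ≤ B ∧ ∀ (q : G.J → ℂ) (F : ℂ → EN N), G.Cl T q F → ∀ z, Real.log ‖F z‖ ≤ B * (1 + infDist z (Gd rho δ F)))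
    (hlp : ∃ A₀ r₀ : ℝ, 0 < A₀ ∧ 0 < r₀ ∧ ∀ F : ℂ → EN N, Differentiable ℂ F → (∀ z, F z ∈ G.K) → (∀ z, G.p (F z) = 1) → ∀ (z : ℂ) (r : ℝ), r₀ ≤ r →
      (∀ w ∈ closedBall z r, 1 ≤ G.n (F w) (deriv F w)) → ∃ w ∈ closedBall z r, A₀ * r ≤ Real.log ‖F w‖)
    (hsp : ∃ B R : ℝ, 0 < B ∧ 0 < R ∧ ∀ (q : G.J → ℂ) (F : ℂ → EN N), G.Cl T q F → ∀ z, R ≤ infDist z (Gd rho δ F) →
      fs (F z) (deriv F z) ≤ B / infDist z (Gd rho δ F))
    (hLb : ∃ B : ℝ, 0 < B ∧ ∀ (q : G.J → ℂ) (F : ℂ → EN N), G.Cl T q F → ∀ z, G.L (F z) (deriv F z) ≤ B)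
    (hapx : ∃ B η : ℝ, 0 < B ∧ 0 < η ∧ ∀ (F : ℂ → EN N) (w : ℂ) (r : ℝ), 0 < r → Differentiable ℂ F → (∀ z, F z ∈ G.K) →
      (∀ z ∈ ball w r, fs (F z) (deriv F z) ≤ η / r) → ∃ h : G.ι → ℂ → ℂ, (∀ i, DifferentiableOn ℂ (h i) (ball w r)) ∧
        ∀ i, ∀ z ∈ ball w r, |G.lam i (F z) - (h i z).re| ≤ B ∧ ‖G.ell i (F z) (deriv F z) + deriv (h i) z‖ ≤ B * fs (F z) (deriv F z))
    (hll : ∃ B : ℝ, ∀ i, ∀ x ∈ G.K, -B ≤ G.lam i x)
    (hlog : ∃ B : ℝ, 0 < B ∧ ∀ x ∈ G.K, G.p x = 1 →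
      ∑ i, G.lam i x ≤ B * (Real.log ‖x‖ + B) ∧ (∀ i, G.lam i x ≤ B * (Real.log ‖x‖ + B)) ∧ Real.log ‖x‖ ≤ B * (∑ i, G.lam i x + B))
    (hlip : ∀ {F : ℂ → EN N}, Differentiable ℂ F → (∀ z, F z ∈ G.K) → ∀ {B : ℝ}, (∀ z, G.L (F z) (deriv F z) ≤ B) → ∀ (i : G.ι) (z w : ℂ),
      |G.lam i (F z) - G.lam i (F w)| ≤ B * ‖z - w‖) :
    ∃ B A' : ℝ, 0 < B ∧ 0 < A' ∧ ∀ (l : Filter ℕ) (q : ℕ → G.J → ℂ) (F : ℕ → ℂ → EN N) (p : ℕ → ℂ) (R : ℕ → ℝ),
    (∀ n, G.Cl T (q n) (F n)) → (∀ n, p n ∈ Gd rho δ (F n)) → (∀ n, 0 < R n) → Tendsto R l atTop →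
    Pre G.supp G.Pol B A' l (fun n j => (-1) ^ G.m j * q n j) (fun n i z => G.lam i (F n (p n + R n * z)) / R n) := by
  obtain ⟨Bg, hBg0, hBg⟩ := hgrow
  obtain ⟨A₀, r₀, hA₀, hr₀, hlp⟩ := hlp
  obtain ⟨Bs, Rs, hBs, hRs, hsp⟩ := hsp
  obtain ⟨BL, hBL0, hBL⟩ := hLb
  obtain ⟨Ba, η, hBa, hη, hapx⟩ := hapx
  obtain ⟨Bl, hll⟩ := hll
  obtain ⟨Bo, hBo0, hlog⟩ := hlog
  obtain ⟨Cr, hCr0, hres⟩ := hG.res
  refine ⟨BL, A₀ / (2 * Bo), hBL0, by positivity, fun l q F p R hF hp hR hRlim => ?_⟩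
  have hRinv : Tendsto (fun n => (R n)⁻¹) l (𝓝 0) := tendsto_inv_atTop_zero.comp hRlim
  have hsmall : ∀ (a ε : ℝ), 0 < ε → ∀ᶠ n in l, a / R n ≤ ε := by
    intro a ε hε
    have h1 : Tendsto (fun n => a * (R n)⁻¹) l (𝓝 (a * 0)) := hRinv.const_mul a
    rw [mul_zero] at h1
    filter_upwards [h1.eventually (gt_mem_nhds hε)] with n hn
    rw [div_eq_mul_inv]
    exact hn.le
  have hlarge : ∀ a : ℝ, ∀ᶠ n in l, a ≤ R n := fun a => hRlim.eventually_ge_atTop a
  constructor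
  · -- nonneg
    intro i z ε hε
    filter_upwards [hsmall Bl ε hε] with n hn
    have h1 := hll i (F n (p n + R n * z)) ((hF n).ent.mem _)
    rw [le_div_iff₀ (hR n)]
    rw [div_le_iff₀ (hR n)] at hn
    linarith
  · -- lip
    refine Eventually.of_forall fun n i z w => ?_
    have h1 := hlip (hF n).ent.diff (hF n).ent.mem (hBL _ _ (hF n)) i (p n + R n * z) (p n + R n * w)
    rw [← sub_div, abs_div, abs_of_pos (hR n), div_le_iff₀ (hR n)]
    refine h1.trans_eq ?_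
    rw [show (p n + R n * z) - (p n + R n * w) = (R n : ℂ) * (z - w) by ring, norm_mul, Complex.norm_real, Real.norm_of_nonneg (hR n).le]
    ring
  · -- bound
    refine ⟨|Bl| + Bo * (Bg + Bo), ?_⟩
    filter_upwards [hlarge 1] with n hn i
    have hK := (hF n).ent.mem (p n + R n * 0)
    have h1 := hll i _ hK
    have h2 := (hlog _ hK ((hF n).nm _)).2.1 i
    have h3 := hBg _ _ (hF n) (p n)
    rw [infDist_zero_of_mem (hp n), add_zero, mul_one] at h3
    rw [mul_zero, add_zero] at h1 h2 ⊢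
    have h4 : G.lam i (F n (p n)) ≤ Bo * (Bg + Bo) := h2.trans (mul_le_mul_of_nonneg_left (by linarith) hBo0.le)
    have h5 : 0 ≤ Bo * (Bg + Bo) := by positivity
    have h6 : |G.lam i (F n (p n))| ≤ |Bl| + Bo * (Bg + Bo) := by
      rw [abs_le]
      constructor
      · linarith [le_abs_self Bl]
      · linarith [abs_nonneg Bl]
    rw [abs_div, abs_of_pos (hR n), div_le_iff₀ (hR n)]
    have h7 : 0 ≤ |Bl| + Bo * (Bg + Bo) := by positivity
    nlinarith
  · -- big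
    intro w r hr
    filter_upwards [hlarge (r₀ / r), hsmall (2 * Bo * Bo) (A₀ * r) (by positivity)] with n hn1 hn2
    have hRn := hR n
    have hr1 : r₀ ≤ R n * r := by
      rw [div_le_iff₀ hr] at hn1
      exact hn1
    obtain ⟨w', hw', h1⟩ := hlp (F n) (hF n).ent.diff (hF n).ent.mem (hF n).nm (p n + R n * w) (R n * r) hr1
      fun w _ => (preF_n (hF n) w).ge
    have hRne : (R n : ℂ) ≠ 0 := by exact_mod_cast hRn.ne'
    refine ⟨(w' - p n) / R n, ?_, ?_⟩
    · rw [mem_closedBall, dist_eq_norm] at hw' ⊢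
      have h2 : (w' - p n) / R n - w = (w' - (p n + R n * w)) / R n := by
        field_simp
        ring
      rw [h2, norm_div, Complex.norm_real, Real.norm_of_nonneg hRn.le, div_le_iff₀ hRn]
      linarith
    · have h2 : p n + R n * ((w' - p n) / R n) = w' := by
        field_simp
        ring
      simp only [h2]
      rw [← Finset.sum_div, le_div_iff₀ hRn]
      have h3 := (hlog _ ((hF n).ent.mem w') ((hF n).nm _)).2.2
      rw [div_le_iff₀ hRn] at hn2
      have h4 : A₀ * (R n * r) ≤ Bo * (∑ i, G.lam i (F n w') + Bo) := h1.trans h3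
      rw [div_mul_eq_mul_div, div_mul_eq_mul_div, div_le_iff₀ (by positivity)]
      nlinarith
  · -- hol
    intro w δ' hδ' hev
    obtain ⟨Bh, hBh⟩ : ∃ Bh : ℝ, Bh = Bg + 1 := ⟨_, rfl⟩
    have hBh0 : 0 < Bh := by rw [hBh]; linarith
    obtain ⟨c, hc⟩ : ∃ c : ℝ, c = δ' / (2 * Bo * Bh) := ⟨_, rfl⟩
    have hc0 : 0 < c := by rw [hc]; positivity
    obtain ⟨r, hr⟩ : ∃ r : ℝ, r = min (c / 2) (η * c / (2 * Bs)) := ⟨_, rfl⟩
    have hr0 : 0 < r := by rw [hr]; positivity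
    have hr1 : r ≤ c / 2 := by rw [hr]; exact min_le_left _ _
    have hr2 : r ≤ η * c / (2 * Bs) := by rw [hr]; exact min_le_right _ _
    -- the distance to the good points
    have hdist : ∀ᶠ n in l, c * R n ≤ infDist (p n + R n * w) (Gd rho δ (F n)) := by
      filter_upwards [hev, hlarge (2 * Bo * Bh * (Bo / Bh + 1) / δ')] with n hn1 hn2
      have hRn := hR n
      have hK := (hF n).ent.mem (p n + R n * w)
      have h1 : δ' * R n ≤ ∑ i, G.lam i (F n (p n + R n * w)) := by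
        rw [← Finset.sum_div, le_div_iff₀ hRn] at hn1
        exact hn1
      have h2 := (hlog _ hK ((hF n).nm _)).1
      have h3 := hBg _ _ (hF n) (p n + R n * w)
      have hd0 : 0 ≤ infDist (p n + R n * w) (Gd rho δ (F n)) := infDist_nonneg
      set d := infDist (p n + R n * w) (Gd rho δ (F n)) with hd
      have h4 : Real.log ‖F n (p n + R n * w)‖ ≤ Bh * (1 + d) := h3.trans (mul_le_mul_of_nonneg_right (by rw [hBh]; linarith) (by linarith))
      have h5 : δ' * R n ≤ Bo * (Bh * (1 + d) + Bo) := h1.trans (h2.trans (mul_le_mul_of_nonneg_left (by linarith) hBo0.le))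
      rw [div_le_iff₀ hδ'] at hn2
      rw [hc, div_mul_eq_mul_div, div_le_iff₀ (by positivity)]
      have h6 : 2 * Bo * Bh * (Bo / Bh + 1) = 2 * Bo * (Bo + Bh) := by
        field_simp
      rw [h6] at hn2
      nlinarith
    have hslow : ∀ᶠ n in l, ∀ z ∈ ball (p n + R n * w) (r * R n), fs (F n z) (deriv (F n) z) ≤ 2 * Bs / (c * R n) := by
      filter_upwards [hdist, hlarge (2 * Rs / c)] with n hn1 hn2 z hz
      have hRn := hR n
      have h1 : infDist (p n + R n * w) (Gd rho δ (F n)) ≤ infDist z (Gd rho δ (F n)) + dist (p n + R n * w) z := infDist_le_infDist_add_dist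
      have h2 : dist (p n + R n * w) z < r * R n := by
        rw [dist_comm]
        exact hz
      have h3 : r * R n ≤ c / 2 * R n := mul_le_mul_of_nonneg_right hr1 hRn.le
      have h4 : c / 2 * R n ≤ infDist z (Gd rho δ (F n)) := by linarith
      have h5 : Rs ≤ c / 2 * R n := by
        rw [div_le_iff₀ hc0] at hn2
        linarith
      have h6 := hsp _ _ (hF n) z (h5.trans h4)
      have h7 : 0 < c / 2 * R n := by positivity
      refine h6.trans ?_
      calc Bs / infDist z (Gd rho δ (F n)) ≤ Bs / (c / 2 * R n) := by gcongr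
        _ = 2 * Bs / (c * R n) := by field_simp
    have hex : ∀ n, ∃ h : G.ι → ℂ → ℂ, (∀ z ∈ ball (p n + R n * w) (r * R n), fs (F n z) (deriv (F n) z) ≤ 2 * Bs / (c * R n)) →
        (∀ i, DifferentiableOn ℂ (h i) (ball (p n + R n * w) (r * R n))) ∧
        ∀ i, ∀ z ∈ ball (p n + R n * w) (r * R n), |G.lam i (F n z) - (h i z).re| ≤ Ba ∧
          ‖G.ell i (F n z) (deriv (F n) z) + deriv (h i) z‖ ≤ Ba * fs (F n z) (deriv (F n) z) := by
      intro n
      by_cases hn : ∀ z ∈ ball (p n + R n * w) (r * R n), fs (F n z) (deriv (F n) z) ≤ 2 * Bs / (c * R n)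
      · have hRn := hR n
        obtain ⟨h, h1⟩ := hapx (F n) (p n + R n * w) (r * R n) (by positivity) (hF n).ent.diff (hF n).ent.mem fun z hz => by
          refine (hn z hz).trans ?_
          rw [div_le_div_iff₀ (by positivity) (by positivity)]
          have h3 : r * (2 * Bs) ≤ η * c := by
            rwa [le_div_iff₀ (by positivity)] at hr2
          nlinarith
        exact ⟨h, fun _ => h1⟩
      · exact ⟨0, fun h => absurd h hn⟩
    choose H hH using hex
    refine ⟨r, hr0, fun n i z => H n i (p n + R n * z) / R n, ?_, ?_⟩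
    · filter_upwards [hslow] with n hn i
      have hRn := hR n
      refine DifferentiableOn.div_const ?_ _
      refine ((hH n hn).1 i).comp (by fun_prop) fun z hz => ?_
      rw [mem_ball, dist_eq_norm] at hz ⊢
      rw [show (p n + R n * z) - (p n + R n * w) = (R n : ℂ) * (z - w) by ring, norm_mul, Complex.norm_real, Real.norm_of_nonneg hRn.le]
      nlinarith
    · intro ε hε
      obtain ⟨η', hη', hpol⟩ := pol_unif G BL (ε := ε / 2) (by positivity)
      filter_upwards [hslow, hsmall Ba ε hε, hsmall (Ba * (2 * Bs / c)) η' hη', hsmall Cr ε hε,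
        hsmall (Cr * (2 * Bs / c) * (1 + BL) ^ (∑ j, G.m j)) (ε / 2) (by positivity)] with n hn hn1 hn2 hn3 hn4
      have hRn := hR n
      have hRne : (R n : ℂ) ≠ 0 := by exact_mod_cast hRn.ne'
      refine ⟨fun i z hz => ?_, ?_⟩
      · have hz' : p n + R n * z ∈ ball (p n + R n * w) (r * R n) := by
          rw [mem_ball, dist_eq_norm] at hz ⊢
          rw [show (p n + R n * z) - (p n + R n * w) = (R n : ℂ) * (z - w) by ring, norm_mul, Complex.norm_real, Real.norm_of_nonneg hRn.le]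
          nlinarith
        have h1 := ((hH n hn).2 i _ hz').1
        rw [Complex.div_ofReal_re, ← sub_div, abs_div, abs_of_pos hRn]
        exact (div_le_div_of_nonneg_right h1 hRn.le).trans hn1
      · have hw' : p n + R n * w ∈ ball (p n + R n * w) (r * R n) := mem_ball_self (by positivity)
        set x := F n (p n + R n * w) with hx
        set v := deriv (F n) (p n + R n * w) with hv
        have hxK : x ∈ G.K := (hF n).ent.mem _
        have htan : Tan G.X x v := preF_tan hG (hF n).ent.diff (hF n).ent.mem _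
        have hfs := hn _ hw'
        have hfs0 : 0 ≤ fs x v := by
          unfold fs Pool.Agent.H36.BP.wd
          positivity
        obtain ⟨hr1, hr2⟩ := hres x hxK
        have hder : ∀ i, deriv (fun z => H n i (p n + R n * z) / R n) w = deriv (H n i) (p n + R n * w) := by
          intro i
          have h1 : HasDerivAt (H n i) (deriv (H n i) (p n + R n * w)) (p n + R n * w) :=
            (((hH n hn).1 i).differentiableAt (isOpen_ball.mem_nhds hw')).hasDerivAt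
          have h2 : HasDerivAt (fun z : ℂ => p n + R n * z) (R n : ℂ) w := by
            simpa using ((hasDerivAt_id w).const_mul (R n : ℂ)).const_add (p n)
          have h3 := (h1.comp w h2).div_const (R n : ℂ)
          have h4 := h3.deriv
          rw [mul_div_assoc, div_self hRne, mul_one] at h4
          exact h4
        refine ⟨G.ty x, fun i hi => ?_, fun j => ?_⟩
        · have h1 := hr1 i hi
          exact (div_le_div_of_nonneg_right h1 hRn.le).trans hn3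
        · simp only [hder]
          have hL : G.L x v ≤ BL := hBL _ _ (hF n) _
          have hell : ∀ i, ‖G.ell i x v‖ ≤ BL := by
            intro i
            refine le_trans ?_ hL
            unfold Geo.L
            have := Finset.single_le_sum (f := fun i => ‖G.ell i x v‖) (fun i _ => norm_nonneg _) (Finset.mem_univ i)
            linarith
          have h1 : ‖eval (fun i => -G.ell i x v) (G.Pol (G.ty x) j) - eval (fun i => deriv (H n i) (p n + R n * w)) (G.Pol (G.ty x) j)‖ ≤ ε / 2 := by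
            refine hpol _ _ _ _ (fun i => by rw [norm_neg]; exact hell i) fun i => ?_
            have h2 := ((hH n hn).2 i _ hw').2
            rw [← norm_neg, show -(-G.ell i x v - deriv (H n i) (p n + R n * w)) = G.ell i x v + deriv (H n i) (p n + R n * w) by ring]
            refine h2.trans ((mul_le_mul_of_nonneg_left hfs hBa.le).trans (le_trans (le_of_eq ?_) hn2))
            field_simp
          have h2 : ‖(-1) ^ G.m j * q n j - eval (fun i => -G.ell i x v) (G.Pol (G.ty x) j)‖ ≤ ε / 2 := by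
            rw [eval_neg (hG.Pol_hom _ _), ← mul_sub, norm_mul, norm_pow, norm_neg, norm_one, one_pow, one_mul]
            have h3 := hr2 j v htan
            rw [(hF n).val] at h3
            have hL0 : 0 ≤ G.L x v := by
              unfold Geo.L
              have := Finset.sum_nonneg (s := Finset.univ) (f := fun i => ‖G.ell i x v‖) fun i _ => norm_nonneg _
              linarith
            have h4 : G.L x v ^ (G.m j - 1) ≤ (1 + BL) ^ (∑ j, G.m j) := by
              calc G.L x v ^ (G.m j - 1) ≤ (1 + BL) ^ (G.m j - 1) := pow_le_pow_left₀ hL0 (by linarith) _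
                _ ≤ (1 + BL) ^ (∑ j, G.m j) := pow_le_pow_right₀ (by linarith) (by
                  have := Finset.single_le_sum (f := G.m) (fun i _ => Nat.zero_le _) (Finset.mem_univ j)
                  omega)
            refine h3.trans (le_trans ?_ hn4)
            calc Cr * fs x v * G.L x v ^ (G.m j - 1) ≤ Cr * (2 * Bs / (c * R n)) * (1 + BL) ^ (∑ j, G.m j) := by gcongr
              _ = Cr * (2 * Bs / c) * (1 + BL) ^ (∑ j, G.m j) / R n := by field_simp
          calc ‖eval (fun i => deriv (H n i) (p n + R n * w)) (G.Pol (G.ty x) j) - (-1) ^ G.m j * q n j‖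
              = ‖-((-1) ^ G.m j * q n j - eval (fun i => -G.ell i x v) (G.Pol (G.ty x) j)) -
                (eval (fun i => -G.ell i x v) (G.Pol (G.ty x) j) - eval (fun i => deriv (H n i) (p n + R n * w)) (G.Pol (G.ty x) j))‖ := by
                congr 1; ring
            _ ≤ ε / 2 + ε / 2 := by
                refine (norm_sub_le _ _).trans ?_
                rw [norm_neg]
                exact add_le_add h2 h1
            _ = ε := by ring

end Pool.Agent.SR3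

end
end

section

/-!
# SR3 Mac: the macroscopic limit

An end at a crossing stays there on the whole disc of radius `θ' d`: rescale by `d` (`macro_loc`), `U` a disc.
-/

set_option autoImplicit false

open Topology Filter Metric

noncomputable section

namespace Pool.Agent.SR3

open Pool.Agent.H36.BP (EN fs wd Sub OrdTwo)
open Pool.Agent.H14.PP (IsCone Tan)
open Pool.Agent.SY (Ent)
open Pool.Agent.SDA (EnergyK Near AffOpen Nm nForms)
open Pool.Agent.H62.EF (MN pr)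
open Pool.Agent.G3 (LLift)
open Geo (Gd)

variable {N : ℕ} {G : Geo N} {T : Set (EN N)} {rho : EN N → ℝ} {M : ℕ} {c₀ C δ : ℝ} {g : (ℂ → EN N) → ℂ → ℝ}

/-! ### rescaling -/

def cz (z₀ : ℂ) (d : ℝ) (w : ℂ) : ℂ := z₀ + d * w

def ct (z₀ : ℂ) (d : ℝ) (t : Finset ℂ) : Finset ℂ := t.image fun a => (a - z₀) / d

def cs (z₀ : ℂ) (d : ℝ) (s : ℂ → ℝ) : ℂ → ℝ := fun a => s (cz z₀ d a) / d

theorem cz_inv {z₀ : ℂ} {d : ℝ} (hd : 0 < d) (a : ℂ) : cz z₀ d ((a - z₀) / d) = a := by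
  have h : (d : ℂ) ≠ 0 := by exact_mod_cast hd.ne'
  unfold cz
  field_simp
  ring

private theorem cz_sub (z₀ : ℂ) (d : ℝ) (a b : ℂ) : cz z₀ d a - cz z₀ d b = d * (a - b) := by
  unfold cz
  ring

theorem norm_cz {z₀ : ℂ} {d : ℝ} (hd : 0 < d) (a b : ℂ) : ‖cz z₀ d a - cz z₀ d b‖ = d * ‖a - b‖ := by
  rw [cz_sub, norm_mul, Complex.norm_real, Real.norm_of_nonneg hd.le]

theorem norm_cz0 {z₀ : ℂ} {d : ℝ} (hd : 0 < d) (a : ℂ) : ‖cz z₀ d a - z₀‖ = d * ‖a‖ := by
  have h := norm_cz (z₀ := z₀) hd a 0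
  rwa [sub_zero, show cz z₀ d 0 = z₀ by unfold cz; ring] at h

theorem mem_ct {z₀ : ℂ} {d : ℝ} (hd : 0 < d) {t : Finset ℂ} {a : ℂ} : a ∈ ct z₀ d t ↔ cz z₀ d a ∈ t := by
  have h : (d : ℂ) ≠ 0 := by exact_mod_cast hd.ne'
  unfold ct
  rw [Finset.mem_image]
  constructor
  · rintro ⟨b, hb, rfl⟩
    rwa [cz_inv hd]
  · intro ha
    refine ⟨_, ha, ?_⟩
    unfold cz
    field_simp
    ring

theorem off_ct {z₀ : ℂ} {d : ℝ} (hd : 0 < d) {t : Finset ℂ} {s : ℂ → ℝ} {w : ℂ} : Off (ct z₀ d t) (cs z₀ d s) w ↔ Off t s (cz z₀ d w) := by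
  constructor
  · intro h b hb
    have h1 := h ((b - z₀) / d) ((mem_ct hd).2 (by rwa [cz_inv hd]))
    unfold cs at h1
    rw [cz_inv hd, div_le_iff₀ hd, mul_comm, ← norm_cz (z₀ := z₀) hd, cz_inv hd] at h1
    exact h1
  · intro h a ha
    have h1 := h _ ((mem_ct hd).1 ha)
    rw [norm_cz hd] at h1
    unfold cs
    rw [div_le_iff₀ hd, mul_comm]
    exact h1

private theorem fs_cz {F : ℂ → EN N} (hF : Differentiable ℂ F) {z₀ : ℂ} {d : ℝ} (hd : 0 < d) (w : ℂ) :
    fs (F (cz z₀ d w)) (deriv (fun w => F (cz z₀ d w)) w) = d * fs (F (cz z₀ d w)) (deriv F (cz z₀ d w)) := by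
  have h1 : HasDerivAt (fun w => cz z₀ d w) (d : ℂ) w := by
    have h2 := ((hasDerivAt_id w).const_mul (d : ℂ)).const_add z₀
    rw [mul_one] at h2
    exact h2
  have h2 : deriv (fun w => F (cz z₀ d w)) w = (d : ℂ) • deriv F (cz z₀ d w) := ((hF (cz z₀ d w)).hasDerivAt.scomp w h1).deriv
  rw [h2]
  unfold fs
  rw [Pool.Agent.H36.BP.wd_smul_right, Complex.norm_real, Real.norm_of_nonneg hd.le, mul_div_assoc]

/-- the sum of the square roots of the radii -/
theorem sum_ct {z₀ : ℂ} {d : ℝ} (hd : 1 ≤ d) {t : Finset ℂ} {s : ℂ → ℝ} {B₅ S : ℝ} (hS : 0 ≤ S) (hcard : (t.card : ℝ) ≤ B₅ * d) (hs : ∀ a ∈ t, s a ≤ S) :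
    ∑ a ∈ ct z₀ d t, √(cs z₀ d s a) ≤ B₅ * d * √S := by
  have hd0 : 0 < d := lt_of_lt_of_le one_pos hd
  have h1 : ∀ a ∈ ct z₀ d t, √(cs z₀ d s a) ≤ √S := by
    intro a ha
    refine Real.sqrt_le_sqrt ?_
    have h2 := hs _ ((mem_ct hd0).1 ha)
    unfold cs
    rw [div_le_iff₀ hd0]
    exact h2.trans (le_mul_of_one_le_right hS hd)
  refine (Finset.sum_le_card_nsmul _ _ _ h1).trans ?_
  rw [nsmul_eq_mul]
  refine mul_le_mul_of_nonneg_right (le_trans ?_ hcard) (Real.sqrt_nonneg S)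
  exact_mod_cast Finset.card_image_le

theorem tendsto_sm {𝒰 : Ultrafilter ℕ} {d : ℕ → ℝ} (hd : Tendsto d (𝒰 : Filter ℕ) atTop) {B₅ η : ℝ} (hη : 0 < η) :
    Tendsto (fun n => B₅ * d n * √(Real.exp (-(η * d n)))) (𝒰 : Filter ℕ) (𝓝 0) := by
  have h1 : Tendsto (fun n => η / 2 * d n) (𝒰 : Filter ℕ) atTop := hd.const_mul_atTop (by positivity)
  have h2 := (Real.tendsto_pow_mul_exp_neg_atTop_nhds_zero 1).comp h1
  have h3 := h2.const_mul (B₅ * (2 / η))
  rw [mul_zero] at h3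
  refine h3.congr fun n => ?_
  have h4 : √(Real.exp (-(η * d n))) = Real.exp (-(η / 2 * d n)) := by
    rw [← Real.exp_half]
    congr 1
    ring
  simp only [Function.comp_apply, pow_one]
  rw [h4]
  field_simp

/-- the rescaled sequences are under control -/
theorem macro_loc {Y : Finset (EN N)} {B₃ B₄ ε K ε₂ η θ θ₁ B₅ κ Rs Bv Rv Rc : ℝ} (hη : 0 < η) (h01 : 0 < θ₁) (h1θ : θ₁ < θ) (hθ1 : θ < 1) (hκ : 0 < κ) (hBv : 0 < Bv)
    (HS : ∀ (q : G.J → ℂ) (F : ℂ → EN N), G.Cl T q F → ∀ z₀ t s y, Rs ≤ infDist z₀ (Gd rho δ F) →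
      G.Holes Y B₃ B₄ ε K (Real.exp (-(η * infDist z₀ (Gd rho δ F)))) F z₀ (θ * infDist z₀ (Gd rho δ F)) t s y →
      ∀ a ∈ t, ‖a - z₀‖ ≤ θ₁ * infDist z₀ (Gd rho δ F) → ∀ z, ‖z - a‖ ≤ κ * infDist z₀ (Gd rho δ F) → Off t s z → dist (pr (F z)) (pr (y a)) < ε₂)
    (HV : ∀ (q : G.J → ℂ) (F : ℂ → EN N), G.Cl T q F → ∀ (z : ℂ) (r : ℝ), Rv ≤ infDist z (Gd rho δ F) → 0 < r → r ≤ infDist z (Gd rho δ F) →
      (∀ w ∈ ball z r, B₃ < Real.log ‖F w‖) → fs (F z) (deriv F z) ≤ Bv / r)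
    (HC : ∀ (q : G.J → ℂ) (F : ℂ → EN N), G.Cl T q F → ∀ z₀ t s y, Rc ≤ infDist z₀ (Gd rho δ F) →
      G.Holes Y B₃ B₄ ε K (Real.exp (-(η * infDist z₀ (Gd rho δ F)))) F z₀ (θ * infDist z₀ (Gd rho δ F)) t s y →
      (t.card : ℝ) ≤ B₅ * infDist z₀ (Gd rho δ F))
    {𝒰 : Ultrafilter ℕ} {q : ℕ → G.J → ℂ} {F : ℕ → ℂ → EN N} {z₀ : ℕ → ℂ} {t : ℕ → Finset ℂ} {s : ℕ → ℂ → ℝ} {y : ℕ → ℂ → EN N} {d : ℕ → ℝ}
    (hF : ∀ n, G.Cl T (q n) (F n)) (hd : ∀ n, d n = infDist (z₀ n) (Gd rho δ (F n))) (hd1 : ∀ n, 1 ≤ d n) (hdt : Tendsto d (𝒰 : Filter ℕ) atTop)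
    (hH : ∀ n, G.Holes Y B₃ B₄ ε K (Real.exp (-(η * d n))) (F n) (z₀ n) (θ * d n) (t n) (s n) (y n)) :
    G.Loc Y B₃ B₄ ε K ε₂ 𝒰 (ball 0 θ₁) (fun n w => F n (cz (z₀ n) (d n) w)) (fun n => ct (z₀ n) (d n) (t n)) (fun n => cs (z₀ n) (d n) (s n))
      (fun n a => y n (cz (z₀ n) (d n) a)) := by
  have hd0 : ∀ n, 0 < d n := fun n => lt_of_lt_of_le one_pos (hd1 n)
  -- the radii
  have hcs : ∀ n, ∀ a ∈ ct (z₀ n) (d n) (t n), cs (z₀ n) (d n) (s n) a ≤ 1 / d n := by
    intro n a ha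
    have h1 := ((hH n).pos _ ((mem_ct (hd0 n)).1 ha)).2
    have h2 : Real.exp (-(η * d n)) ≤ 1 := Real.exp_le_one_iff.2 (neg_nonpos.2 (mul_nonneg hη.le (hd0 n).le))
    exact div_le_div_of_nonneg_right (h1.trans h2) (hd0 n).le
  have hcov : ∀ n w, ‖w‖ ≤ θ → Real.log ‖F n (cz (z₀ n) (d n) w)‖ ≤ B₃ → ∃ a ∈ ct (z₀ n) (d n) (t n), ‖w - a‖ < cs (z₀ n) (d n) (s n) a / 2 := by
    intro n w hw hl
    have h1 : cz (z₀ n) (d n) w ∈ closedBall (z₀ n) (θ * d n) := by
      rw [mem_closedBall, dist_eq_norm, norm_cz0 (hd0 n), mul_comm]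
      exact mul_le_mul_of_nonneg_right hw (hd0 n).le
    obtain ⟨b, hb, hb'⟩ := (hH n).cov _ h1 hl
    refine ⟨(b - z₀ n) / d n, (mem_ct (hd0 n)).2 (by rwa [cz_inv (hd0 n)]), ?_⟩
    have h2 := norm_cz (z₀ := z₀ n) (hd0 n) w ((b - z₀ n) / d n)
    rw [cz_inv (hd0 n)] at h2
    unfold cs
    rw [cz_inv (hd0 n), div_div, mul_comm, ← div_div, lt_div_iff₀ (hd0 n), mul_comm, ← h2]
    exact hb'
  refine ⟨isOpen_ball, (convex_ball 0 θ₁).isPreconnected, ?_, ?_, ?_, ?_, ?_, ?_, ?_, ?_, ?_⟩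
  · intro n
    refine ⟨(hF n).ent.diff.comp ?_, fun z => (hF n).ent.mem _, fun z => (hF n).nm _⟩
    unfold cz
    fun_prop
  · intro n a ha
    exact div_pos ((hH n).pos _ ((mem_ct (hd0 n)).1 ha)).1 (hd0 n)
  · intro n a ha b hb hab
    have h1 := (hH n).sep _ ((mem_ct (hd0 n)).1 ha) _ ((mem_ct (hd0 n)).1 hb) fun h => hab ?_
    · rw [norm_cz (hd0 n)] at h1
      unfold cs
      rw [max_div_div_right (hd0 n).le, ← mul_div_assoc, div_lt_iff₀ (hd0 n), mul_comm (‖a - b‖)]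
      exact h1
    · have h2 := cz_sub (z₀ n) (d n) a b
      rw [h, sub_self] at h2
      have h3 : (d n : ℂ) ≠ 0 := by exact_mod_cast (hd0 n).ne'
      exact sub_eq_zero.1 ((mul_eq_zero.1 h2.symm).resolve_left h3)
  · intro n a ha
    have h1 := (hH n).rim _ ((mem_ct (hd0 n)).1 ha)
    have h2 : (fun w : ℂ => F n (cz (z₀ n) (d n) (a + cs (z₀ n) (d n) (s n) a * w))) =
        fun w => F n (cz (z₀ n) (d n) a + s n (cz (z₀ n) (d n) a) * w) := by
      funext w
      congr 1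
      have h3 : (d n : ℂ) ≠ 0 := by exact_mod_cast (hd0 n).ne'
      unfold cs
      push_cast
      conv_lhs => unfold cz
      conv_rhs => rw [show cz (z₀ n) (d n) a + s n (cz (z₀ n) (d n) a) * w = z₀ n + d n * a + s n (cz (z₀ n) (d n) a) * w from rfl]
      change z₀ n + d n * (a + (s n (cz (z₀ n) (d n) a) : ℂ) / d n * w) = _
      field_simp
      ring
    rw [h2]
    exact h1
  · intro z hz
    rw [mem_ball_zero_iff] at hz
    refine ⟨θ₁ - ‖z‖, sub_pos.2 hz, Eventually.of_forall fun n w hw hl => hcov n w ?_ hl⟩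
    rw [mem_ball, dist_eq_norm] at hw
    have h1 : ‖w‖ ≤ ‖z‖ + ‖w - z‖ := by
      have := norm_add_le z (w - z)
      rwa [add_sub_cancel] at this
    linarith
  · intro z _
    refine ⟨1, one_pos, ?_⟩
    filter_upwards [hdt.eventually_ge_atTop 2] with n hn a ha h1
    have h2 := hcs n a ha
    have h3 : 1 / d n ≤ 1 / 2 := one_div_le_one_div_of_le two_pos hn
    linarith
  · intro R τ hτ
    filter_upwards [hdt.eventually_ge_atTop (1 / τ)] with n hn a ha _
    refine (hcs n a ha).trans ?_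
    rw [div_le_iff₀ hτ] at hn
    rw [div_le_iff₀ (hd0 n), mul_comm]
    exact hn
  · intro z _
    refine ⟨1, one_pos, ?_⟩
    refine squeeze_zero' (Eventually.of_forall fun n => Finset.sum_nonneg fun a _ => Real.sqrt_nonneg _) ?_ (tendsto_sm (B₅ := B₅) hdt hη)
    filter_upwards [hdt.eventually_ge_atTop Rc] with n hn
    refine (Finset.sum_le_sum_of_subset_of_nonneg (Finset.filter_subset _ _) fun a _ _ => Real.sqrt_nonneg _).trans ?_
    refine sum_ct (hd1 n) (Real.exp_pos _).le ?_ fun a ha => ((hH n).pos a ha).2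
    have h1 := HC (q n) (F n) (hF n) (z₀ n) (t n) (s n) (y n) (by rwa [← hd n]) (by rw [← hd n]; exact hH n)
    rwa [← hd n] at h1
  · intro z hz
    rw [mem_ball_zero_iff] at hz
    obtain ⟨r₀, hr₀, hr₁, hr₂, hr₃⟩ : ∃ r₀ : ℝ, 0 < r₀ ∧ 2 * r₀ ≤ κ ∧ ‖z‖ + r₀ ≤ θ₁ ∧ r₀ ≤ 1 - θ₁ := by
      refine ⟨min (κ / 2) (min (θ₁ - ‖z‖) (1 - θ₁)), lt_min (by positivity) (lt_min (by linarith) (by linarith)), ?_, ?_, ?_⟩
      · have := min_le_left (κ / 2) (min (θ₁ - ‖z‖) (1 - θ₁))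
        linarith
      · have := (min_le_right (κ / 2) (min (θ₁ - ‖z‖) (1 - θ₁))).trans (min_le_left _ _)
        linarith
      · exact (min_le_right (κ / 2) (min (θ₁ - ‖z‖) (1 - θ₁))).trans (min_le_right _ _)
    have hrr : 0 < min (r₀ / 4) (r₀ / (4 * Bv)) := lt_min (by positivity) (by positivity)
    have hr4 : min (r₀ / 4) (r₀ / (4 * Bv)) ≤ r₀ / 4 := min_le_left _ _
    refine ⟨min (r₀ / 4) (r₀ / (4 * Bv)), hrr, ?_⟩
    filter_upwards [hdt.eventually_ge_atTop Rs, hdt.eventually_ge_atTop (Rv / (1 - θ₁)), hdt.eventually_ge_atTop (1 / r₀)] with n hn1 hn2 hn3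
    by_cases hc : ∃ a ∈ ct (z₀ n) (d n) (t n), ‖a - z‖ < r₀
    · obtain ⟨a, ha, haz⟩ := hc
      refine Or.inl ⟨a, ha, fun w hw hoff => ?_⟩
      have h1 : ‖a‖ ≤ θ₁ := by
        have := norm_add_le z (a - z)
        rw [add_sub_cancel] at this
        linarith
      have h2 : ‖w - a‖ ≤ κ := by
        rw [mem_ball, dist_eq_norm] at hw
        have := norm_sub_le_norm_sub_add_norm_sub w z a
        rw [norm_sub_rev z a] at this
        linarith
      refine HS (q n) (F n) (hF n) (z₀ n) (t n) (s n) (y n) (by rwa [← hd n]) (by rw [← hd n]; exact hH n) _ ((mem_ct (hd0 n)).1 ha) ?_ _ ?_ ((off_ct (hd0 n)).1 hoff)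
      · rw [← hd n, norm_cz0 (hd0 n), mul_comm]
        exact mul_le_mul_of_nonneg_right h1 (hd0 n).le
      · rw [← hd n, norm_cz (hd0 n), mul_comm]
        exact mul_le_mul_of_nonneg_right h2 (hd0 n).le
    · push Not at hc
      refine Or.inr ⟨fun a ha => (by linarith [hc a ha] : min (r₀ / 4) (r₀ / (4 * Bv)) ≤ ‖a - z‖), fun w hw => ?_⟩
      rw [mem_ball, dist_eq_norm] at hw
      have hw1 : ‖w‖ ≤ θ₁ := by
        have := norm_add_le z (w - z)
        rw [add_sub_cancel] at this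
        linarith
      have h1 : d n * (1 - θ₁) ≤ infDist (cz (z₀ n) (d n) w) (Gd rho δ (F n)) := by
        have h2 : infDist (z₀ n) (Gd rho δ (F n)) ≤ infDist (cz (z₀ n) (d n) w) (Gd rho δ (F n)) + dist (z₀ n) (cz (z₀ n) (d n) w) := infDist_le_infDist_add_dist
        rw [← hd n, dist_comm, dist_eq_norm, norm_cz0 (hd0 n)] at h2
        have h3 := mul_le_mul_of_nonneg_left hw1 (hd0 n).le
        linarith
      have h3 : Rv ≤ infDist (cz (z₀ n) (d n) w) (Gd rho δ (F n)) := by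
        refine le_trans ?_ h1
        rwa [div_le_iff₀ (by linarith)] at hn2
      have h4 := HV (q n) (F n) (hF n) (cz (z₀ n) (d n) w) (d n * (r₀ / 4)) h3 (mul_pos (hd0 n) (by positivity))
        (le_trans (mul_le_mul_of_nonneg_left (by linarith) (hd0 n).le) h1) ?_
      · rw [fs_cz (hF n).ent.diff (hd0 n)]
        calc d n * fs (F n (cz (z₀ n) (d n) w)) (deriv (F n) (cz (z₀ n) (d n) w)) ≤ d n * (Bv / (d n * (r₀ / 4))) := mul_le_mul_of_nonneg_left h4 (hd0 n).le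
          _ = 4 * Bv / r₀ := by
            have := (hd0 n).ne'
            field_simp
          _ = 1 / (r₀ / (4 * Bv)) := by rw [one_div_div]
          _ ≤ 1 / min (r₀ / 4) (r₀ / (4 * Bv)) := one_div_le_one_div_of_le hrr (min_le_right _ _)
      · intro ζ hζ
        by_contra hcon
        push Not at hcon
        rw [mem_ball, dist_eq_norm] at hζ
        have h5 : ‖ζ - cz (z₀ n) (d n) w‖ = d n * ‖(ζ - z₀ n) / d n - w‖ := by
          rw [← norm_cz (z₀ := z₀ n) (hd0 n), cz_inv (hd0 n)]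
        rw [h5] at hζ
        have h6 : ‖(ζ - z₀ n) / d n - w‖ < r₀ / 4 := lt_of_mul_lt_mul_left hζ (hd0 n).le
        have h7 : ‖(ζ - z₀ n) / d n - z‖ < r₀ / 2 := by
          have := norm_sub_le_norm_sub_add_norm_sub ((ζ - z₀ n) / d n) w z
          linarith
        have h8 : ‖(ζ - z₀ n) / d n‖ ≤ θ := by
          have := norm_add_le z ((ζ - z₀ n) / d n - z)
          rw [add_sub_cancel] at this
          linarith
        obtain ⟨a, ha, ha'⟩ := hcov n ((ζ - z₀ n) / d n) h8 (by rwa [cz_inv (hd0 n)])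
        have h9 := hcs n a ha
        have h10 : 1 / d n ≤ r₀ := by
          rw [div_le_iff₀ hr₀] at hn3
          rw [div_le_iff₀ (hd0 n), mul_comm]
          exact hn3
        have h11 := hc a ha
        have h12 := norm_sub_le_norm_sub_add_norm_sub a ((ζ - z₀ n) / d n) z
        rw [norm_sub_rev a ((ζ - z₀ n) / d n)] at h12
        linarith

theorem exists_sep (Y : Finset (EN N)) (h : ∀ y ∈ Y, ∀ y' ∈ Y, pr y = pr y' → y = y') :
    ∃ e : ℝ, 0 < e ∧ ∀ y ∈ Y, ∀ y' ∈ Y, dist (pr y) (pr y') < 2 * e → y = y' := by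
  classical
  have h1 : ∃ e : ℝ, 0 < e ∧ ∀ p ∈ (Y ×ˢ Y).filter (fun p => p.1 ≠ p.2), 2 * e ≤ dist (pr p.1) (pr p.2) := by
    rcases ((Y ×ˢ Y).filter (fun p => p.1 ≠ p.2)).eq_empty_or_nonempty with h0 | h0
    · exact ⟨1, one_pos, fun p hp => absurd hp (by rw [h0]; exact Finset.notMem_empty p)⟩
    · obtain ⟨p, hp, hmin⟩ := Finset.exists_min_image _ (fun p : EN N × EN N => dist (pr p.1) (pr p.2)) h0
      rw [Finset.mem_filter, Finset.mem_product] at hp
      have h2 : 0 < dist (pr p.1) (pr p.2) := dist_pos.2 fun h3 => hp.2 (h _ hp.1.1 _ hp.1.2 h3)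
      refine ⟨dist (pr p.1) (pr p.2) / 2, by positivity, fun p' hp' => ?_⟩
      have := hmin p' hp'
      linarith
  obtain ⟨e, he, h1⟩ := h1
  refine ⟨e, he, fun y hy y' hy' hlt => ?_⟩
  by_contra hne
  exact absurd hlt (not_lt.2 (h1 (y, y') (Finset.mem_filter.2 ⟨Finset.mem_product.2 ⟨hy, hy'⟩, hne⟩)))

end Pool.Agent.SR3

end
end
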