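import Pool.Agent.H43.TL2.H62.EF.PrA
import Pool.Agent.H43.TL2.M136

/-! The parts of this file: G3.C.EDefs, G3.P.Ult. -/

section

/-!
# G3 C EDefs: extension of families of curves to complex values of the parameter, definitions

Coordinates `(σ, z) ↦ b + σ ν + z a` of `ℂ^(k+1)` (`k = 1`), `Bd ⊆ ℂ × ℂ` the set of the `(σ, z)` over the bad points, separated for the sup metric,
`Φ : ℝ → ℂ → MN N` a family of curves, `Φ s` a curve over the line `b + s ν + ℂ a`.  `EAt Φ s₀ z₀ ε`: the family extends to the ball of radius `ε` in `ℂ × ℂ`.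
-/

set_option autoImplicit false

open Topology Filter Metric

namespace Pool.Agent.G3.C

open Pool.Agent.H36.BP (EN fs wd)
open Pool.Agent.H62.EF (MN pr)

variable {N k : ℕ}

/-- the points of distance at least `ρ` from the bad points (sup metric) -/
def Off (Bd : Set (ℂ × ℂ)) (ρ : ℝ) : Set (ℝ × ℂ) := {p | ∀ β ∈ Bd, ρ ≤ dist ((p.1 : ℂ), p.2) β}

/-! ### the normalised vector of a line -/

/-- the vector `x / ⟨v, x⟩` for the line with the projection matrix `pr x` -/
noncomputable def nv (v : EN N) (m : MN N) : EN N := (∑ i, ∑ j, (starRingEnd ℂ) (v i) * m (i, j) * v j)⁻¹ • WithLp.toLp 2 fun i => ∑ j, m (i, j) * v j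

private theorem inner_eq_sum (x y : EN N) : (inner ℂ x y : ℂ) = ∑ j, (starRingEnd ℂ) (x j) * y j := by
  rw [PiLp.inner_apply]
  refine Finset.sum_congr rfl fun j _ => ?_
  rw [RCLike.inner_apply]
  ring

private theorem nv_row (v x : EN N) (i : Fin (N + 1)) : ∑ j, pr x (i, j) * v j = (inner ℂ x v / ((‖x‖ ^ 2 : ℝ) : ℂ)) * x i := by
  rw [inner_eq_sum, Finset.sum_div, Finset.sum_mul]
  refine Finset.sum_congr rfl fun j _ => ?_
  simp only [pr]
  ring

private theorem nv_den (v x : EN N) : ∑ i, ∑ j, (starRingEnd ℂ) (v i) * pr x (i, j) * v j = (inner ℂ x v / ((‖x‖ ^ 2 : ℝ) : ℂ)) * inner ℂ v x := by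
  rw [inner_eq_sum v x, Finset.mul_sum]
  refine Finset.sum_congr rfl fun i _ => ?_
  have h := nv_row v x i
  calc ∑ j, (starRingEnd ℂ) (v i) * pr x (i, j) * v j = (starRingEnd ℂ) (v i) * ∑ j, pr x (i, j) * v j := by
        rw [Finset.mul_sum]
        exact Finset.sum_congr rfl fun j _ => by ring
    _ = _ := by rw [h]; ring

theorem nv_pr {v x : EN N} (h : inner ℂ v x ≠ (0 : ℂ)) : nv v (pr x) = (inner ℂ v x : ℂ)⁻¹ • x := by
  have hx : x ≠ 0 := by
    rintro rfl
    exact h (inner_zero_right _)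
  have h1 : ((‖x‖ ^ 2 : ℝ) : ℂ) ≠ 0 := by
    have : ‖x‖ ≠ 0 := norm_ne_zero_iff.mpr hx
    exact_mod_cast pow_ne_zero 2 this
  have h2 : inner ℂ x v ≠ (0 : ℂ) := fun h' => h (by rw [← inner_conj_symm, h', map_zero])
  unfold nv
  rw [nv_den]
  ext i
  simp only [PiLp.smul_apply, smul_eq_mul]
  rw [nv_row]
  field_simp

/-- the denominator of `nv`, a continuous function which is not zero at `pr x` if `⟨v, x⟩ ≠ 0` -/
noncomputable def nd (v : EN N) (m : MN N) : ℂ := ∑ i, ∑ j, (starRingEnd ℂ) (v i) * m (i, j) * v j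

theorem nd_cont (v : EN N) : Continuous (nd v : MN N → ℂ) := by
  unfold nd
  refine continuous_finsetSum _ fun i _ => continuous_finsetSum _ fun j _ => ?_
  exact (continuous_const.mul (PiLp.continuous_apply 2 _ (i, j))).mul continuous_const

theorem nd_pr_ne {v x : EN N} (hx : x ≠ 0) : nd v (pr x) ≠ 0 ↔ inner ℂ v x ≠ (0 : ℂ) := by
  have h1 : ((‖x‖ ^ 2 : ℝ) : ℂ) ≠ 0 := by
    have : ‖x‖ ≠ 0 := norm_ne_zero_iff.mpr hx
    exact_mod_cast pow_ne_zero 2 this
  unfold nd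
  rw [nv_den]
  constructor
  · intro h h'
    rw [h', mul_zero] at h
    exact h rfl
  · intro h
    have h2 : inner ℂ x v ≠ (0 : ℂ) := fun h' => h (by rw [← inner_conj_symm, h', map_zero])
    exact mul_ne_zero (div_ne_zero h2 h1) h

theorem nv_continuousAt {v : EN N} {m : MN N} (h : nd v m ≠ 0) : ContinuousAt (nv v) m := by
  have h1 : ContinuousAt (fun m : MN N => (nd v m)⁻¹) m := ((nd_cont v).continuousAt (x := m)).inv₀ h
  have h2 : ContinuousAt (fun m : MN N => (WithLp.toLp 2 fun i => ∑ j, m (i, j) * v j : EN N)) m := ?_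
  · exact h1.smul h2
  · refine ((PiLp.continuous_toLp 2 _).comp (continuous_pi fun i => ?_)).continuousAt
    refine continuous_finsetSum _ fun j _ => ?_
    exact (PiLp.continuous_apply 2 _ (i, j)).mul continuous_const

theorem pr_nv {v x : EN N} (h : inner ℂ v x ≠ (0 : ℂ)) : pr (nv v (pr x)) = pr x := by
  rw [nv_pr h]
  exact Pool.Agent.H62.EF.pr_smul x (inv_ne_zero h)

end Pool.Agent.G3.C

end

section

/-!
# G3 P Ult: ultralimits of curves in projective space

`ult`: a sequence of holomorphic curves (eventually defined on compact subsets of the open set `U`) which is equicontinuous at each point of `U` has, along an ultrafilter, a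
limit `f : ℂ → MN N`; the convergence is uniform on compact subsets of `U` and `f` has local holomorphic lifts in `U`.
Plan: the projection matrices `pr x`, `x ≠ 0`, lie in the compact set `{m : ‖m‖ ≤ 1}` (`MN N` is finite dimensional), so `f z` := the limit along `𝒰` exists; equicontinuity gives
local uniform convergence (finite covers).  Local lifts at `z₀`: `f z₀ = pr v` for a unit vector `v` (take `x_n = F n z₀ / ‖F n z₀‖`, ultralimit `v` on the compact sphere);
near `z₀` and for `𝒰`-many `n` the functions `⟨v, F n z⟩⁻¹ F n z = nv v (pr (F n z))` (`nv`, `nv_pr`, `nv_continuousAt` in `G3/C/EDefs`) are holomorphic, and they converge uniformly near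
`z₀` to `nv v (f z)`, so the limit is holomorphic (`TendstoLocallyUniformlyOn.differentiableOn`) and `pr (nv v (f z)) = f z`.
-/

set_option autoImplicit false

open Topology Filter Metric

namespace Pool.Agent.G3

open Pool.Agent.H36.BP (EN fs wd Sub)
open Pool.Agent.H62.EF (MN pr)

variable {N k : ℕ} {X : Set (EN N)} {p : EN N → EN N → ℝ} {m : ℕ} {C : ℝ}

/-- the set of the projection matrices of lines is compact -/
private theorem ult_compact : IsCompact ((pr : EN N → MN N) '' sphere (0 : EN N) 1) := by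
  refine (isCompact_sphere (0 : EN N) 1).image_of_continuousOn fun x hx => ?_
  have hx0 : x ≠ 0 := by
    rintro rfl
    simp at hx
  exact (Pool.Agent.H62.EF.continuousAt_pr hx0).continuousWithinAt

private theorem ult_mem {x : EN N} (hx : x ≠ 0) : pr x ∈ (pr : EN N → MN N) '' sphere (0 : EN N) 1 := by
  have hn : ‖x‖ ≠ 0 := norm_ne_zero_iff.mpr hx
  have hc : (((‖x‖⁻¹ : ℝ)) : ℂ) ≠ 0 := by
    exact_mod_cast inv_ne_zero hn
  refine ⟨(((‖x‖⁻¹ : ℝ)) : ℂ) • x, ?_, Pool.Agent.H62.EF.pr_smul x hc⟩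
  rw [mem_sphere_zero_iff_norm, norm_smul, Complex.norm_real, norm_inv, norm_norm]
  exact inv_mul_cancel₀ hn

/-- the limit at one point -/
private theorem ult_point (𝒰 : Ultrafilter ℕ) (x : ℕ → EN N) (hx : ∀ᶠ n in (𝒰 : Filter ℕ), x n ≠ 0) :
    ∃ y : EN N, y ≠ 0 ∧ Tendsto (fun n => pr (x n)) (𝒰 : Filter ℕ) (𝓝 (pr y)) := by
  have h1 : ((𝒰.map fun n => pr (x n) : Ultrafilter (MN N)) : Filter (MN N)) ≤
      𝓟 ((pr : EN N → MN N) '' sphere (0 : EN N) 1) := by
    rw [Ultrafilter.coe_map, le_principal_iff, mem_map]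
    filter_upwards [hx] with n hn
    exact ult_mem hn
  obtain ⟨m, ⟨y, hy, rfl⟩, hm⟩ := ult_compact.ultrafilter_le_nhds _ h1
  refine ⟨y, ?_, hm⟩
  rintro rfl
  simp at hy

theorem ult (𝒰 : Ultrafilter ℕ) {U : Set ℂ} (hU : IsOpen U) (F : ℕ → ℂ → EN N)
    (hF : ∀ z ∈ U, ∃ s : ℝ, 0 < s ∧ ∀ᶠ n in (𝒰 : Filter ℕ), DifferentiableOn ℂ (F n) (ball z s) ∧ ∀ w ∈ ball z s, F n w ≠ 0)
    (hq : ∀ z ∈ U, ∀ ε : ℝ, 0 < ε → ∃ s : ℝ, 0 < s ∧ ∀ᶠ n in (𝒰 : Filter ℕ), ∀ w ∈ ball z s, dist (pr (F n w)) (pr (F n z)) ≤ ε) :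
    ∃ f : ℂ → MN N, (∀ z ∈ U, LLift f z) ∧
      ∀ K ⊆ U, IsCompact K → ∀ ε : ℝ, 0 < ε → ∀ᶠ n in (𝒰 : Filter ℕ), ∀ z ∈ K, dist (pr (F n z)) (f z) < ε := by
  classical
  have hne : ∀ z ∈ U, ∀ᶠ n in (𝒰 : Filter ℕ), F n z ≠ 0 := by
    intro z hz
    obtain ⟨s, hs, h⟩ := hF z hz
    filter_upwards [h] with n hn
    exact hn.2 z (mem_ball_self hs)
  have hpt : ∀ z, ∃ y : EN N, z ∈ U → y ≠ 0 ∧
      Tendsto (fun n => pr (F n z)) (𝒰 : Filter ℕ) (𝓝 (pr y)) := by
    intro z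
    by_cases hz : z ∈ U
    · obtain ⟨y, h1, h2⟩ := ult_point 𝒰 (fun n => F n z) (hne z hz)
      exact ⟨y, fun _ => ⟨h1, h2⟩⟩
    · exact ⟨0, fun h => absurd h hz⟩
  choose g hg using hpt
  -- local uniform convergence
  have hloc : ∀ z₀ ∈ U, ∀ ε : ℝ, 0 < ε → ∃ s : ℝ, 0 < s ∧ ball z₀ s ⊆ U ∧
      (∀ w ∈ ball z₀ s, dist (pr (g w)) (pr (g z₀)) ≤ ε) ∧
      ∀ᶠ n in (𝒰 : Filter ℕ), ∀ w ∈ ball z₀ s, dist (pr (g w)) (pr (F n w)) < 4 * ε := by
    intro z₀ hz₀ ε hε
    obtain ⟨s₁, hs₁, h1⟩ := hq z₀ hz₀ ε hε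
    obtain ⟨s₂, hs₂, h2⟩ := Metric.isOpen_iff.1 hU z₀ hz₀
    have hU' : ball z₀ (min s₁ s₂) ⊆ U := (ball_subset_ball (min_le_right _ _)).trans h2
    have hd : ∀ w ∈ ball z₀ (min s₁ s₂), dist (pr (g w)) (pr (g z₀)) ≤ ε := by
      intro w hw
      have h3 := (hg w (hU' hw)).2
      have h4 := (hg z₀ hz₀).2
      refine le_of_tendsto (h3.dist h4) ?_
      filter_upwards [h1] with n hn
      exact hn w (ball_subset_ball (min_le_left _ _) hw)
    refine ⟨min s₁ s₂, lt_min hs₁ hs₂, hU', hd, ?_⟩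
    have h4 := (Metric.tendsto_nhds.1 (hg z₀ hz₀).2) ε hε
    filter_upwards [h1, h4] with n hn1 hn4 w hw
    have h5 := hd w hw
    have h6 := hn1 w (ball_subset_ball (min_le_left _ _) hw)
    calc dist (pr (g w)) (pr (F n w)) ≤ dist (pr (g w)) (pr (g z₀)) + dist (pr (g z₀)) (pr (F n w)) :=
          dist_triangle _ _ _
      _ ≤ dist (pr (g w)) (pr (g z₀)) + (dist (pr (g z₀)) (pr (F n z₀)) + dist (pr (F n z₀)) (pr (F n w))) := by
          gcongr
          exact dist_triangle _ _ _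
      _ < 4 * ε := by
          rw [dist_comm (pr (g z₀)) (pr (F n z₀)), dist_comm (pr (F n z₀)) (pr (F n w))]
          linarith
  refine ⟨fun z => pr (g z), ?_, ?_⟩
  · intro z₀ hz₀
    set v := g z₀ with hv
    have hv0 : v ≠ 0 := (hg z₀ hz₀).1
    have hnd : C.nd v (pr v) ≠ 0 := (C.nd_pr_ne hv0).2 (inner_self_ne_zero.2 hv0)
    obtain ⟨δ, hδ, hδO⟩ := Metric.isOpen_iff.1 (isOpen_ne.preimage (C.nd_cont v)) (pr v) hnd
    have hcomp : IsCompact (closedBall (pr v) (δ / 2)) := isCompact_closedBall _ _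
    have hO : ∀ m ∈ closedBall (pr v) (δ / 2), C.nd v m ≠ 0 := by
      intro m hm
      exact hδO (closedBall_subset_ball (by linarith) hm)
    have huc : UniformContinuousOn (C.nv v) (closedBall (pr v) (δ / 2)) :=
      hcomp.uniformContinuousOn_of_continuous fun m hm => (C.nv_continuousAt (hO m hm)).continuousWithinAt
    rw [Metric.uniformContinuousOn_iff] at huc
    obtain ⟨s₁, hs₁, hsU, hd1, hd2⟩ := hloc z₀ hz₀ (δ / 16) (by linarith)
    obtain ⟨s₂, hs₂, hd3⟩ := hF z₀ hz₀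
    have hmemg : ∀ w ∈ ball z₀ s₁, pr (g w) ∈ closedBall (pr v) (δ / 2) := by
      intro w hw
      rw [mem_closedBall]
      have := hd1 w hw
      linarith
    have hmemF : ∀ᶠ n in (𝒰 : Filter ℕ), ∀ w ∈ ball z₀ s₁, pr (F n w) ∈ closedBall (pr v) (δ / 2) := by
      filter_upwards [hd2] with n hn w hw
      rw [mem_closedBall]
      have h1 := hd1 w hw
      have h2 := hn w hw
      calc dist (pr (F n w)) (pr v) ≤ dist (pr (F n w)) (pr (g w)) + dist (pr (g w)) (pr v) := dist_triangle _ _ _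
        _ ≤ δ / 2 := by
            rw [dist_comm (pr (F n w)) (pr (g w))]
            linarith
    set s := min s₁ s₂ with hs
    have hs0 : 0 < s := lt_min hs₁ hs₂
    have hb1 : ball z₀ s ⊆ ball z₀ s₁ := ball_subset_ball (min_le_left _ _)
    have hb2 : ball z₀ s ⊆ ball z₀ s₂ := ball_subset_ball (min_le_right _ _)
    have hdiff : ∀ᶠ n in (𝒰 : Filter ℕ), DifferentiableOn ℂ (fun w => C.nv v (pr (F n w))) (ball z₀ s) := by
      filter_upwards [hmemF, hd3] with n hn1 hn2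
      have h1 : ∀ w ∈ ball z₀ s, inner ℂ v (F n w) ≠ (0 : ℂ) := fun w hw =>
        (C.nd_pr_ne (hn2.2 w (hb2 hw))).1 (hO _ (hn1 w (hb1 hw)))
      have h2 : DifferentiableOn ℂ (fun w => (inner ℂ v (F n w) : ℂ)⁻¹ • F n w) (ball z₀ s) := by
        have h3 : DifferentiableOn ℂ (F n) (ball z₀ s) := hn2.1.mono hb2
        have h4 : DifferentiableOn ℂ (fun w => (inner ℂ v (F n w) : ℂ)) (ball z₀ s) :=
          ((innerSL ℂ v).differentiable.comp_differentiableOn h3)
        exact (h4.inv h1).smul h3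
      exact h2.congr fun w hw => C.nv_pr (h1 w hw)
    have hlu : TendstoLocallyUniformlyOn (fun n w => C.nv v (pr (F n w))) (fun w => C.nv v (pr (g w)))
        (𝒰 : Filter ℕ) (ball z₀ s) := by
      rw [Metric.tendstoLocallyUniformlyOn_iff]
      intro ε hε w₀ hw₀
      obtain ⟨η, hη, huc'⟩ := huc ε hε
      obtain ⟨s₃, hs₃, -, -, h3⟩ := hloc w₀ (hsU (hb1 hw₀)) (η / 4) (by linarith)
      refine ⟨ball z₀ s ∩ ball w₀ s₃, ?_, ?_⟩
      · exact inter_mem self_mem_nhdsWithin (mem_nhdsWithin_of_mem_nhds (ball_mem_nhds w₀ hs₃))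
      · filter_upwards [h3, hmemF] with n hn1 hn2 w hw
        refine huc' _ (hmemg w (hb1 hw.1)) _ (hn2 w (hb1 hw.1)) ?_
        have := hn1 w hw.2
        linarith
    have hΦ : DifferentiableOn ℂ (fun w => C.nv v (pr (g w))) (ball z₀ s) :=
      hlu.differentiableOn hdiff isOpen_ball
    refine ⟨fun w => C.nv v (pr (g w)), hΦ.analyticAt (ball_mem_nhds z₀ hs0), ?_⟩
    filter_upwards [ball_mem_nhds z₀ hs0] with w hw
    have hw0 : g w ≠ 0 := (hg w (hsU (hb1 hw))).1
    have hi : inner ℂ v (g w) ≠ (0 : ℂ) := (C.nd_pr_ne hw0).1 (hO _ (hmemg w (hb1 hw)))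
    refine ⟨?_, (C.pr_nv hi).symm⟩
    rw [C.nv_pr hi]
    exact smul_ne_zero (inv_ne_zero hi) hw0
  · have hlu : TendstoLocallyUniformlyOn (fun n w => pr (F n w)) (fun w => pr (g w)) (𝒰 : Filter ℕ) U := by
      rw [Metric.tendstoLocallyUniformlyOn_iff]
      intro ε hε w₀ hw₀
      obtain ⟨s₃, hs₃, -, -, h3⟩ := hloc w₀ hw₀ (ε / 4) (by linarith)
      refine ⟨ball w₀ s₃, mem_nhdsWithin_of_mem_nhds (ball_mem_nhds w₀ hs₃), ?_⟩
      filter_upwards [h3] with n hn w hw
      have := hn w hw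
      linarith
    intro K hK hKc ε hε
    have h1 := (tendstoLocallyUniformlyOn_iff_forall_isCompact hU).1 hlu K hK hKc
    rw [Metric.tendstoUniformlyOn_iff] at h1
    filter_upwards [h1 ε hε] with n hn z hz
    rw [dist_comm]
    exact hn z hz

end Pool.Agent.G3

end
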