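import Pool.Agent.H43.TL2.H17BP.ResS
import Pool.Agent.H43.TL2.H62.EF.PrA_1
import Pool.Agent.H43.TL2.H62.EF.PrLip
import Pool.Agent.H43.TL2.M176
import Pool.Agent.H43.TL2.M28

/-! The parts of this file: G3.P.Ent, SR3.APl. -/

section

/-!
# G3 P Ent: from local to global lifts

`Pool.Agent.H17.exists_global_lift` is the statement for maps `ℂ → PN N`; see the proof of `TG.disc_lift` (`TG/Lf`) for the passage between `MN N` and `PN N`.
-/

set_option autoImplicit false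

open Topology Filter Metric

namespace Pool.Agent.G3

open Pool.Agent.H36.BP (EN fs wd Sub)
open Pool.Agent.H14.PP (IsCone CurveAt Tan)
open Pool.Agent.H62.EF (MN pr)

variable {N k : ℕ} {X : Set (EN N)} {p : EN N → EN N → ℝ} {m : ℕ} {C : ℝ}

theorem entire_lift {f : ℂ → MN N} (hf : ∀ z, LLift f z) : ∃ F : ℂ → EN N, Differentiable ℂ F ∧ ∀ z, F z ≠ 0 ∧ f z = pr (F z) := by
  classical
  have hV : ∀ z : ℂ, ∃ v : EN N, v ≠ 0 ∧ f z = pr v := by
    intro z
    obtain ⟨Φ, -, h⟩ := hf z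
    exact ⟨Φ z, h.self_of_nhds.1, h.self_of_nhds.2⟩
  choose V hV0 hVf using hV
  have hofne : ∀ v : EN N, v ≠ 0 → v.ofLp ≠ 0 := by
    intro v hv h
    apply hv
    ext j
    exact congrFun h j
  obtain ⟨g, hg⟩ : ∃ g : ℂ → Pool.Agent.H17.PN N,
      ∀ z, g z = Projectivization.mk ℂ (V z).ofLp (hofne _ (hV0 z)) := ⟨_, fun _ => rfl⟩
  have hgh : Pool.Agent.H17.HolomorphicInto g Set.univ := by
    intro z₀ _
    obtain ⟨Φ, hΦ, h⟩ := hf z₀
    refine ⟨fun w => (Φ w).ofLp, ?_, ?_⟩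
    · rw [analyticAt_pi_iff]
      intro j
      exact ((EuclideanSpace.proj (𝕜 := ℂ) j : EN N →L[ℂ] ℂ).analyticAt _).comp hΦ
    · filter_upwards [h] with w hw
      refine ⟨hofne _ hw.1, ?_⟩
      have h1 : pr (V w) = pr (Φ w) := by
        rw [← hVf w, hw.2]
      obtain ⟨c, -, h2⟩ := (Pool.Agent.H62.EF.pr_eq_iff (hV0 _) hw.1).mp h1
      rw [hg, Projectivization.mk_eq_mk_iff']
      exact ⟨c, by rw [h2]; rfl⟩
  obtain ⟨x, hx⟩ := Pool.Agent.H17.exists_global_lift hgh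
  refine ⟨fun z => WithLp.toLp 2 fun j => (x j : ℂ → ℂ) z, ?_, fun z => ?_⟩
  · rw [differentiable_euclidean]
    intro j
    exact (x j).diff
  · obtain ⟨h1, h2⟩ := hx z
    have h4 : (WithLp.toLp 2 fun j => (x j : ℂ → ℂ) z : EN N) ≠ 0 := by
      intro h
      apply h1
      have h3 : (WithLp.toLp 2 fun j => (x j : ℂ → ℂ) z : EN N).ofLp = 0 := by
        rw [h]
        rfl
      exact h3
    refine ⟨h4, ?_⟩
    rw [hg] at h2
    obtain ⟨c, hc, h6⟩ := Pool.Agent.H17.mk_eq_mk_cross h2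
    have h7 : V z = c • (WithLp.toLp 2 fun j => (x j : ℂ → ℂ) z : EN N) := by
      ext j
      exact h6 j
    rw [hVf z, h7, Pool.Agent.H62.EF.pr_smul _ hc]

end Pool.Agent.G3

end

section

/-!
# SR3 APl: limits of curves of bounded speed in the projective space (helper59)

`G3.ult` (limit of the projection matrices along the ultrafilter) and `G3.entire_lift`.
-/

set_option autoImplicit false

open Topology Filter Metric

noncomputable section

namespace Pool.Agent.SR3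

open Pool.Agent.H36.BP (EN fs wd Sub)
open Pool.Agent.H62.EF (MN pr)

variable {N : ℕ}

/-- a limit of curves in the projective space lifts, locally with multipliers -/
private theorem APl_loc {𝒰 : Ultrafilter ℕ} {F : ℕ → ℂ → EN N} (hF : ∀ k, Differentiable ℂ (F k)) (h0 : ∀ k z, F k z ≠ 0)
    {H : ℂ → EN N} (hH : Differentiable ℂ H) (hH0 : ∀ z, H z ≠ 0)
    (hlim : ∀ K : Set ℂ, IsCompact K → ∀ ε : ℝ, 0 < ε → ∀ᶠ n in (𝒰 : Filter ℕ), ∀ z ∈ K, dist (pr (F n z)) (pr (H z)) < ε) (z : ℂ) :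
    ∃ r : ℝ, 0 < r ∧ ∃ u : ℕ → ℂ → ℂ,
      (∀ᶠ k in (𝒰 : Filter ℕ), DifferentiableOn ℂ (u k) (ball z r) ∧ ∀ w ∈ ball z r, u k w ≠ 0) ∧
        TendstoLocallyUniformlyOn (fun k w => u k w • F k w) H 𝒰 (ball z r) := by
  set v := H z with hv
  have hv0 : v ≠ 0 := hH0 z
  have hnd : G3.C.nd v (pr v) ≠ 0 := (G3.C.nd_pr_ne hv0).2 (inner_self_ne_zero.2 hv0)
  obtain ⟨δ, hδ, hδO⟩ := Metric.isOpen_iff.1 (isOpen_ne.preimage (G3.C.nd_cont v)) (pr v) hnd
  have hO : ∀ m ∈ closedBall (pr v) (δ / 2), G3.C.nd v m ≠ 0 := by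
    intro m hm
    exact hδO (closedBall_subset_ball (by linarith) hm)
  have huc : UniformContinuousOn (G3.C.nv v) (closedBall (pr v) (δ / 2)) :=
    (isCompact_closedBall _ _).uniformContinuousOn_of_continuous fun m hm => (G3.C.nv_continuousAt (hO m hm)).continuousWithinAt
  rw [Metric.uniformContinuousOn_iff] at huc
  have hcont : ContinuousAt (fun w => pr (H w)) z :=
    (ContinuousAt.comp (g := (pr : EN N → MN N)) (f := H) (x := z) (Pool.Agent.H62.EF.continuousAt_pr hv0) hH.continuous.continuousAt)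
  obtain ⟨s, hs, hsb⟩ := Metric.continuousAt_iff.1 hcont (δ / 4) (by linarith)
  set r := s / 2 with hr
  have hr0 : 0 < r := by linarith
  have hmemH : ∀ w ∈ closedBall z r, dist (pr (H w)) (pr v) < δ / 4 := by
    intro w hw
    exact hsb (lt_of_le_of_lt (mem_closedBall.1 hw) (by linarith))
  have hin : ∀ w ∈ closedBall z r, (inner ℂ v (H w) : ℂ) ≠ 0 := by
    intro w hw
    apply (G3.C.nd_pr_ne (hH0 w)).1
    apply hO
    rw [mem_closedBall]; linarith [hmemH w hw]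
  have hev : ∀ ε : ℝ, 0 < ε → ∀ᶠ n in (𝒰 : Filter ℕ), ∀ w ∈ closedBall z r, dist (pr (F n w)) (pr (H w)) < ε ∧
      pr (F n w) ∈ closedBall (pr v) (δ / 2) := by
    intro ε hε
    filter_upwards [hlim (closedBall z r) (isCompact_closedBall _ _) (min ε (δ / 4)) (lt_min hε (by linarith))] with n hn w hw
    have h1 := hn w hw
    refine ⟨lt_of_lt_of_le h1 (min_le_left _ _), ?_⟩
    rw [mem_closedBall]
    have h2 := hmemH w hw
    have h3 := lt_of_lt_of_le h1 (min_le_right _ _)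
    have h4 := dist_triangle (pr (F n w)) (pr (H w)) (pr v)
    linarith
  refine ⟨r, hr0, fun n w => (inner ℂ v (H w) : ℂ) / inner ℂ v (F n w), ?_, ?_⟩
  · filter_upwards [hev 1 one_pos] with n hn
    have hne : ∀ w ∈ ball z r, (inner ℂ v (F n w) : ℂ) ≠ 0 := by
      intro w hw
      exact (G3.C.nd_pr_ne (h0 n w)).1 (hO _ (hn w (ball_subset_closedBall hw)).2)
    refine ⟨?_, fun w hw => div_ne_zero (hin w (ball_subset_closedBall hw)) (hne w hw)⟩
    apply DifferentiableOn.div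
    · exact ((innerSL ℂ v).differentiable.comp hH).differentiableOn
    · exact ((innerSL ℂ v).differentiable.comp (hF n)).differentiableOn
    · exact hne
  · obtain ⟨B, hB⟩ := (isCompact_closedBall z r).exists_bound_of_continuousOn
      (f := fun w => (inner ℂ v (H w) : ℂ)) ((continuous_const.inner hH.continuous).continuousOn)
    have hB0 : 0 ≤ B := (norm_nonneg _).trans (hB z (mem_closedBall_self hr0.le))
    apply TendstoUniformlyOn.tendstoLocallyUniformlyOn
    rw [Metric.tendstoUniformlyOn_iff]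
    intro ε hε
    obtain ⟨η, hη, hη2⟩ := huc (ε / (B + 1)) (by positivity)
    filter_upwards [hev η hη] with n hn w hw
    have hwc := ball_subset_closedBall hw
    obtain ⟨h1, h2⟩ := hn w hwc
    have h3 : (inner ℂ v (F n w) : ℂ) ≠ 0 := (G3.C.nd_pr_ne (h0 n w)).1 (hO _ h2)
    have h4 : pr (H w) ∈ closedBall (pr v) (δ / 2) := by
      rw [mem_closedBall]; linarith [hmemH w hwc]
    have h5 := hη2 _ h4 _ h2 (by rw [dist_comm]; exact h1)
    rw [G3.C.nv_pr (hin w hwc), G3.C.nv_pr h3] at h5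
    have e1 : H w = (inner ℂ v (H w) : ℂ) • ((inner ℂ v (H w) : ℂ)⁻¹ • H w) := by
      rw [smul_smul, mul_inv_cancel₀ (hin w hwc), one_smul]
    have e2 : ((inner ℂ v (H w) : ℂ) / inner ℂ v (F n w)) • F n w = (inner ℂ v (H w) : ℂ) • ((inner ℂ v (F n w) : ℂ)⁻¹ • F n w) := by
      rw [smul_smul, div_eq_mul_inv]
    calc dist (H w) (((inner ℂ v (H w) : ℂ) / inner ℂ v (F n w)) • F n w)
        = ‖(inner ℂ v (H w) : ℂ)‖ * dist ((inner ℂ v (H w) : ℂ)⁻¹ • H w) ((inner ℂ v (F n w) : ℂ)⁻¹ • F n w) := by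
          rw [e2, dist_eq_norm, dist_eq_norm, ← norm_smul, smul_sub, ← e1]
      _ ≤ B * (ε / (B + 1)) := by
          apply mul_le_mul (hB w hwc) h5.le dist_nonneg hB0
      _ < ε := by
          rw [← mul_div_assoc, div_lt_iff₀ (by linarith)]
          nlinarith

theorem proj_limit (𝒰 : Ultrafilter ℕ) {F : ℕ → ℂ → EN N} (hF : ∀ k, Differentiable ℂ (F k)) (h0 : ∀ k z, F k z ≠ 0) {A : ℝ}
    (hA : ∀ R : ℝ, ∀ᶠ k in (𝒰 : Filter ℕ), ∀ w ∈ ball (0 : ℂ) R, fs (F k w) (deriv (F k) w) ≤ A) :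
    ∃ H : ℂ → EN N, Differentiable ℂ H ∧ (∀ z, H z ≠ 0) ∧ ∀ z, ∃ r : ℝ, 0 < r ∧ ∃ u : ℕ → ℂ → ℂ,
      (∀ᶠ k in (𝒰 : Filter ℕ), DifferentiableOn ℂ (u k) (ball z r) ∧ ∀ w ∈ ball z r, u k w ≠ 0) ∧
        TendstoLocallyUniformlyOn (fun k w => u k w • F k w) H 𝒰 (ball z r) := by
  obtain ⟨f, hf, hlim⟩ := G3.ult 𝒰 isOpen_univ F
    (fun z _ => ⟨1, one_pos, Eventually.of_forall fun n => ⟨(hF n).differentiableOn, fun w _ => h0 n w⟩⟩) (by
      intro z _ ε hε
      refine ⟨min 1 (ε / (2 * (|A| + 1))), by positivity, ?_⟩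
      filter_upwards [hA (‖z‖ + 1)] with n hn w hw
      have hsub : ∀ y ∈ ball z 1, fs (F n y) (deriv (F n) y) ≤ |A| + 1 := by
        intro y hy
        have : y ∈ ball (0 : ℂ) (‖z‖ + 1) := by
          rw [mem_ball_zero_iff]
          rw [mem_ball, dist_eq_norm] at hy
          calc ‖y‖ = ‖(y - z) + z‖ := by congr 1; ring
            _ ≤ ‖y - z‖ + ‖z‖ := norm_add_le _ _
            _ < ‖z‖ + 1 := by linarith
        exact (hn y this).trans (by linarith [le_abs_self A])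
      have hw1 : w ∈ ball z 1 := ball_subset_ball (min_le_left _ _) hw
      have h1 := Pool.Agent.H62.EF.pr_lipschitz isOpen_ball (convex_ball z 1) (hF n).differentiableOn
        (fun y _ => h0 n y) hsub w hw1 z (mem_ball_self one_pos)
      have h2 : ‖w - z‖ < ε / (2 * (|A| + 1)) := by
        rw [← dist_eq_norm]
        exact lt_of_lt_of_le (mem_ball.1 hw) (min_le_right _ _)
      refine h1.trans ?_
      have h3 : 0 < 2 * (|A| + 1) := by positivity
      rw [lt_div_iff₀ h3] at h2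
      linarith)
  obtain ⟨H, hH, hH0⟩ := G3.entire_lift fun z => hf z (Set.mem_univ z)
  refine ⟨H, hH, fun z => (hH0 z).1, APl_loc hF h0 hH (fun z => (hH0 z).1) ?_⟩
  intro K hK ε hε
  filter_upwards [hlim K (Set.subset_univ K) hK ε hε] with n hn z hz
  rw [← (hH0 z).2]
  exact hn z hz

end Pool.Agent.SR3

end
end
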