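import Pool.Agent.H43.TL2.M139
import Pool.Agent.H43.TL2.M140
import Pool.Agent.H43.TL2.M155
import Pool.Agent.H43.TL2.M157
import Pool.Agent.H43.TL2.M177
import Pool.Agent.H43.TL2.M37

/-! The parts of this file: SR3.ASpd, SR3.PreB_2, SR3.PreC, SR3.Smo. -/

section

/-!
# SR3 ASpd: the static region is slow

If not, Zalcman's rescaling gives a limit curve in the boundary which is not constant, against `h1`.
-/

set_option autoImplicit false

open Topology Filter Metric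

noncomputable section

namespace Pool.Agent.SR3

open Pool.Agent.H36.BP (EN fs wd Sub OrdTwo)
open Pool.Agent.H14.PP (IsCone Tan)
open Pool.Agent.SY (Ent)
open Pool.Agent.SDA (EnergyK Near AffOpen Nm nForms)
open Geo (Gd)

variable {N : ℕ} {G : Geo N} {T : Set (EN N)} {rho : EN N → ℝ} {M : ℕ} {c₀ C δ : ℝ} {g : (ℂ → EN N) → ℂ → ℝ}

/-- the limits of multiples of vectors of the cone -/
private theorem ASpd_mem (hG : G.Ok) {l : Filter ℕ} [l.NeBot] {x : ℕ → EN N} {y : EN N} (hx : ∀ᶠ k in l, x k ∈ G.X) (hy : Tendsto x l (𝓝 y))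
    (h0 : y ≠ 0) : y ∈ G.X := by
  have h1 : closure G.X ⊆ insert 0 G.X := closure_minimal (Set.subset_insert 0 G.X) hG.cone.closed
  exact (Set.mem_insert_iff.1 (h1 (mem_closure_of_tendsto hy hx))).resolve_left h0

private theorem ASpd_fs {x v : EN N} (hx : x ≠ 0) {l : Filter ℕ} {y w : ℕ → EN N} (hy : Tendsto y l (𝓝 x)) (hw : Tendsto w l (𝓝 v)) :
    Tendsto (fun k => fs (y k) (w k)) l (𝓝 (fs x v)) := by
  have h0 : Tendsto (fun p : EN N × EN N => wd p.1 p.2) (𝓝 (x, v)) (𝓝 (wd x v)) := (Pool.Agent.H36.BP.wd_cont (N := N)).tendsto (x, v)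
  have h1 : Tendsto (fun k => wd (y k) (w k)) l (𝓝 (wd x v)) := Tendsto.comp (f := fun k => (y k, w k)) h0 (hy.prodMk_nhds hw)
  have h2 : Tendsto (fun k => ‖y k‖ ^ 2) l (𝓝 (‖x‖ ^ 2)) := hy.norm.pow 2
  show Tendsto (fun k => wd (y k) (w k) / ‖y k‖ ^ 2) l (𝓝 (wd x v / ‖x‖ ^ 2))
  exact h1.div h2 (pow_ne_zero 2 (norm_ne_zero_iff.2 hx))

/-- the theorem, with the gap theorem as hypothesis -/
theorem ASpd_aux (hG : G.Ok)
    (hgap : ∀ B : ℝ, ∃ R : ℝ, ∀ (q : G.J → ℂ) (F : ℂ → EN N), G.Cl T q F → ∀ z, Real.log ‖F z‖ ≤ B → infDist z (Gd rho δ F) ≤ R) :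
    ∃ B R : ℝ, 0 < B ∧ 0 < R ∧ ∀ (q : G.J → ℂ) (F : ℂ → EN N), G.Cl T q F → ∀ z, R ≤ infDist z (Gd rho δ F) →
      fs (F z) (deriv F z) ≤ B / infDist z (Gd rho δ F) := by
  by_contra hcon
  push Not at hcon
  have h1 : ∀ k : ℕ, ∃ (q : G.J → ℂ) (F : ℂ → EN N) (z : ℂ), G.Cl T q F ∧ (k : ℝ) + 1 ≤ infDist z (Gd rho δ F) ∧
      32 * ((k : ℝ) + 1) / infDist z (Gd rho δ F) < fs (F z) (deriv F z) := fun k => by
    obtain ⟨q, F, hF, z, h2, h3⟩ := hcon (32 * ((k : ℝ) + 1)) ((k : ℝ) + 1) (by positivity) (by positivity)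
    exact ⟨q, F, z, hF, h2, h3⟩
  choose q F z hF hz hfs using h1
  obtain ⟨d, hd⟩ : ∃ d : ℕ → ℝ, ∀ k, d k = infDist (z k) (Gd rho δ (F k)) := ⟨_, fun _ => rfl⟩
  simp only [← hd] at hz hfs
  have hk0 : ∀ k : ℕ, (0 : ℝ) ≤ (k : ℝ) := fun k => Nat.cast_nonneg k
  have hd0 : ∀ k, 0 < d k := fun k => by
    have := hk0 k
    linarith [hz k]
  have h2 : ∀ k : ℕ, 8 * ((k : ℝ) + 1) < d k / 2 * fs (F k (z k)) (deriv (F k) (z k)) := fun k => by
    have h3 := hfs k
    rw [div_lt_iff₀ (hd0 k)] at h3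
    have := hk0 k
    linarith
  choose a b ha hb hak hab hle using fun k => zalcman (hF k).ent.diff (fun w => ne0 hG ((hF k).ent.mem w)) (half_pos (hd0 k))
    (by linarith [hk0 k] : (1 : ℝ) ≤ (k : ℝ) + 1) (h2 k)
  have hac : ∀ k, ((a k : ℝ) : ℂ) ≠ 0 := fun k => by exact_mod_cast (ha k).ne'
  obtain ⟨E, hE⟩ : ∃ E : ℕ → ℂ → EN N, E = fun k w => F k ((a k : ℂ) * w + b k) := ⟨_, rfl⟩
  have hEnt : ∀ k, Ent G.K T (E k) := fun k => by
    rw [hE]
    exact ent_comp (hF k).ent (hac k) (b k)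
  have hEp : ∀ k w, G.p (E k w) = 1 := fun k w => by
    rw [hE]
    exact (hF k).nm _
  have hEfs : ∀ k w, fs (E k w) (deriv (E k) w) = a k * fs (F k (b k + a k * w)) (deriv (F k) (b k + a k * w)) := fun k w => by
    rw [hE]
    show fs (F k ((a k : ℂ) * w + b k)) (deriv (fun w => F k ((a k : ℂ) * w + b k)) w) = _
    rw [deriv_aff (hF k).ent.diff, Pool.Agent.H36.BP.fs_smul_right, Complex.norm_real, Real.norm_of_nonneg (ha k).le, add_comm]
  have hE0 : ∀ k, fs (E k 0) (deriv (E k) 0) = 1 := fun k => by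
    rw [hEfs, mul_zero, add_zero, hab]
  obtain ⟨𝒰, h𝒰⟩ : ∃ 𝒰 : Ultrafilter ℕ, 𝒰 = hyperfilter ℕ := ⟨_, rfl⟩
  have hle' : (𝒰 : Filter ℕ) ≤ atTop := by rw [h𝒰]; exact Nat.hyperfilter_le_atTop
  have hbig : ∀ R : ℝ, ∀ᶠ k : ℕ in (𝒰 : Filter ℕ), R ≤ k := fun R => by
    obtain ⟨n, hn⟩ := exists_nat_ge R
    filter_upwards [hle' (eventually_ge_atTop n)] with k hk
    exact hn.trans (by exact_mod_cast hk)
  obtain ⟨H, hHd, hH0, hloc⟩ := proj_limit 𝒰 (F := E) (fun k => (hEnt k).diff) (fun k w => ne0 hG ((hEnt k).mem w)) (A := 2) (fun R => by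
    filter_upwards [hbig R] with k hk w hw
    rw [hEfs]
    refine hle k w ?_
    rw [mem_ball_zero_iff] at hw ⊢
    linarith)
  -- the limit is in the cone
  have hconv : ∀ w, ∃ u : ℕ → ℂ, (∀ᶠ k in (𝒰 : Filter ℕ), u k ≠ 0) ∧ Tendsto (fun k => u k • E k w) 𝒰 (𝓝 (H w)) := fun w => by
    obtain ⟨r, hr, u, hu, hc⟩ := hloc w
    refine ⟨fun k => u k w, ?_, hc.tendsto_at (mem_ball_self hr)⟩
    filter_upwards [hu] with k hk
    exact hk.2 w (mem_ball_self hr)
  have hHX : ∀ w, H w ∈ G.X := fun w => by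
    obtain ⟨u, hu, hc⟩ := hconv w
    refine ASpd_mem hG ?_ hc (hH0 w)
    filter_upwards [hu] with k hk
    exact KX hG (smul_mem hG ((hEnt k).mem w) hk)
  -- the lifts tend to infinity
  have hinf : ∀ (w : ℂ) (B : ℝ), ∀ᶠ k in (𝒰 : Filter ℕ), B ≤ ‖E k w‖ := fun w B => by
    obtain ⟨R, hR⟩ := hgap (Real.log (max B 1))
    filter_upwards [hbig ‖w‖, hbig (2 * R + 1)] with k hk1 hk2
    by_contra hcon2
    push Not at hcon2
    have hpos : 0 < ‖E k w‖ := norm_pos_iff.2 (ne0 hG ((hEnt k).mem w))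
    have h3 : Real.log ‖E k w‖ ≤ Real.log (max B 1) := Real.log_le_log hpos (hcon2.le.trans (le_max_left _ _))
    have h4 : infDist ((a k : ℂ) * w + b k) (Gd rho δ (F k)) ≤ R := hR (q k) (F k) (hF k) _ (by
      rw [hE] at h3
      exact h3)
    have h5 : d k ≤ infDist ((a k : ℂ) * w + b k) (Gd rho δ (F k)) + dist (z k) ((a k : ℂ) * w + b k) := by
      rw [hd]
      exact infDist_le_infDist_add_dist
    have h6 : dist (z k) ((a k : ℂ) * w + b k) ≤ d k / 2 := by
      rw [dist_comm, dist_eq_norm]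
      have h7 : ‖(a k : ℂ) * w‖ ≤ d k / 2 / 4 := by
        rw [norm_mul, Complex.norm_real, Real.norm_of_nonneg (ha k).le]
        refine le_trans ?_ (hak k)
        exact mul_le_mul_of_nonneg_left (by linarith) (ha k).le
      have h8 := hb k
      calc ‖(a k : ℂ) * w + b k - z k‖ = ‖(a k : ℂ) * w + (b k - z k)‖ := by rw [add_sub_assoc]
        _ ≤ ‖(a k : ℂ) * w‖ + ‖b k - z k‖ := norm_add_le _ _
        _ ≤ d k / 2 := by linarith [hd0 k]
    have h7 := hz k
    linarith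
  have hHK : ∀ w, H w ∉ G.K := fun w hw => by
    obtain ⟨u, hu, hc⟩ := hconv w
    have hpc : Continuous G.p := continuous_iff_continuousAt.2 fun x => (hG.aff.an () x).continuousAt
    have h3 : Tendsto (fun k => ‖u k‖ ^ G.h) 𝒰 (𝓝 ‖G.p (H w)‖) := by
      have h4 := ((hpc.tendsto (H w)).comp hc).norm
      refine h4.congr fun k => ?_
      show ‖G.p (u k • E k w)‖ = _
      rw [p_smul hG, hEp, mul_one, norm_pow]
    have h5 : Tendsto (fun k => ‖u k‖) 𝒰 (𝓝 0) := by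
      rw [Metric.tendsto_nhds]
      intro ε hε
      have h6 : ∀ᶠ k in (𝒰 : Filter ℕ), ‖u k • E k w‖ < ‖H w‖ + 1 := hc.norm.eventually (gt_mem_nhds (by linarith))
      filter_upwards [h6, hinf w ((‖H w‖ + 1) / ε)] with k hk1 hk2
      rw [dist_zero_right, norm_norm]
      rw [norm_smul] at hk1
      by_contra hcon3
      push Not at hcon3
      rw [div_le_iff₀ hε] at hk2
      have h7 : ‖E k w‖ * ε ≤ ‖E k w‖ * ‖u k‖ := mul_le_mul_of_nonneg_left hcon3 (norm_nonneg _)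
      linarith
    have h8 : Tendsto (fun k => ‖u k‖ ^ G.h) 𝒰 (𝓝 (0 ^ G.h)) := h5.pow G.h
    have h9 : 1 ≤ G.h := hG.aff.pos ()
    rw [zero_pow (by omega)] at h8
    have h10 := tendsto_nhds_unique h3 h8
    exact p_ne hG hw (norm_eq_zero.1 h10)
  have hline := hG.h1 𝒰 hle' E H (fun k => (hEnt k).diff) (fun k w => (hEnt k).mem w) hHd (fun w => ⟨hHX w, hHK w⟩) (fun w _ => hloc w)
  obtain ⟨c, hc⟩ := Pool.Agent.H36.BP.Brody_deriv_line (hHd 0) fun w => hline w 0
  have hfs0 : fs (H 0) (deriv H 0) = 0 := by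
    unfold fs
    rw [(Pool.Agent.H36.BP.wd_eq_zero (hH0 0)).2 ⟨c, hc⟩, zero_div]
  obtain ⟨r, hr, u, hu, hcv⟩ := hloc 0
  have hm : (0 : ℂ) ∈ ball (0 : ℂ) r := mem_ball_self hr
  have hd1 : Tendsto (fun k => deriv (fun w => u k w • E k w) 0) 𝒰 (𝓝 (deriv H 0)) := by
    have h3 : TendstoLocallyUniformlyOn (deriv ∘ fun k w => u k w • E k w) (deriv H) 𝒰 (ball 0 r) :=
      hcv.deriv (by
        filter_upwards [hu] with k hk
        exact hk.1.smul (hEnt k).diff.differentiableOn) isOpen_ball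
    exact h3.tendsto_at hm
  have hlim := ASpd_fs (hH0 0) (hcv.tendsto_at hm) hd1
  have hone : Tendsto (fun k => fs (u k 0 • E k 0) (deriv (fun w => u k w • E k w) 0)) 𝒰 (𝓝 1) := by
    refine tendsto_const_nhds.congr' ?_
    filter_upwards [hu] with k hk
    have hud : DifferentiableAt ℂ (u k) 0 := hk.1.differentiableAt (isOpen_ball.mem_nhds hm)
    have h3 : deriv (fun w => u k w • E k w) 0 = u k 0 • deriv (E k) 0 + deriv (u k) 0 • E k 0 :=
      (hud.hasDerivAt.smul ((hEnt k).diff 0).hasDerivAt).deriv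
    rw [h3, Pool.Agent.H36.BP.fs_inv (ne0 hG ((hEnt k).mem 0)) _ (hk.2 0 hm), hE0]
  have := tendsto_nhds_unique hlim hone
  rw [hfs0] at this
  exact zero_ne_one this

end Pool.Agent.SR3

end
end

section

/-!
# SR3 PreB: the holes are relatively small
-/

set_option autoImplicit false

open Topology Filter Metric

noncomputable section

namespace Pool.Agent.SR3

open Pool.Agent.H36.BP (EN fs wd Sub OrdTwo)
open Pool.Agent.H14.PP (IsCone Tan)
open Pool.Agent.SY (Ent)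
open Pool.Agent.SDA (EnergyK Near AffOpen Nm nForms)
open Pool.Agent.H62.EF (MN pr continuousAt_pr)
open Geo (Gd)

variable {N : ℕ} {G : Geo N} {T : Set (EN N)} {rho : EN N → ℝ} {M : ℕ} {c₀ C δ : ℝ} {g : (ℂ → EN N) → ℂ → ℝ}

theorem pre_sum {Y : Finset (EN N)} {B₃ B₄ ε K ε₂ η B₅ : ℝ} (hK : 20 ≤ K) (hη : 0 < η) {q F t s y a ρ d A} (h : G.Pre T rho δ Y B₃ B₄ ε K ε₂ η B₅ q F t s y a ρ d A)
    (𝒰 : Ultrafilter ℕ) (h𝒰 : (𝒰 : Filter ℕ) ≤ atTop)
    (hs : ∀ R τ : ℝ, 0 < τ → ∀ᶠ n in (𝒰 : Filter ℕ), ∀ b ∈ t n, ‖b - a n‖ ≤ R * ρ n → s n b ≤ τ * ρ n) :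
    (∀ R : ℝ, Tendsto (fun n => ∑ b ∈ (t n).filter (fun b => ‖b - a n‖ ≤ R * ρ n), √(s n b / ρ n)) (𝒰 : Filter ℕ) (𝓝 0)) ∧
      ∀ᶠ n in (𝒰 : Filter ℕ), ∑ b ∈ ((t n).erase (a n)).filter (fun b => ‖b - a n‖ < ρ n), s n b / ‖b - a n‖ ≤ B₅ / η + 1 := by
  classical
  have hB₅ := PreB_B5 h
  have hge : ∀ k : ℝ, ∀ᶠ n : ℕ in (𝒰 : Filter ℕ), k ≤ (n : ℝ) := fun k => h𝒰 (tendsto_natCast_atTop_atTop.eventually_ge_atTop k)
  constructor
  · intro R
    rw [Metric.tendsto_nhds]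
    intro e he
    set R' : ℝ := max R 1 with hR'
    have hR'1 : 1 ≤ R' := le_max_right _ _
    set x : ℝ := min (e / 4) (e * η / (16 * (B₅ + 1))) with hx
    have hx0 : 0 < x := lt_min (by positivity) (by positivity)
    have hx1 : x ≤ e / 4 := min_le_left _ _
    have hx2 : x ≤ e * η / (16 * (B₅ + 1)) := min_le_right _ _
    filter_upwards [hs R' (x ^ 2) (by positivity), hge 1, hge (R' * Real.exp 1), hge (64 * B₅ / (η ^ 2 * e) + 1)] with n hn h1 hnR hne
    obtain ⟨hρ, hd, hA, hAρ⟩ := h.dA n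
    have hd0 : 0 < d n := lt_of_lt_of_le (by linarith) hd
    have hsum0 : ∀ b ∈ (t n).filter (fun b => ‖b - a n‖ ≤ R * ρ n), 0 ≤ √(s n b / ρ n) := fun b _ => Real.sqrt_nonneg _
    rw [dist_zero_right, Real.norm_of_nonneg (Finset.sum_nonneg hsum0)]
    have hRd : R' * ρ n * Real.exp 1 ≤ d n := by
      calc R' * ρ n * Real.exp 1 = R' * Real.exp 1 * ρ n := by ring
        _ ≤ A n * ρ n := mul_le_mul_of_nonneg_right (hnR.trans hA) hρ.le
        _ ≤ d n := hAρ
    -- the terms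
    have hterm : ∀ b ∈ t n, ‖b - a n‖ ≤ R' * ρ n → √(s n b / ρ n) ≤ x := by
      intro b hb1 hb2
      refine Real.sqrt_le_iff.2 ⟨hx0.le, ?_⟩
      rw [div_le_iff₀ hρ]
      exact hn b hb1 hb2
    have hR'ρ : 0 < R' * ρ n := by positivity
    have hterma : √(s n (a n) / ρ n) ≤ x := hterm _ (h.mem n) (by rw [sub_self, norm_zero]; exact hR'ρ.le)
    set V : Finset ℂ := ((t n).erase (a n)).filter (fun b => ‖b - a n‖ ≤ R' * ρ n) with hV
    have hsub : (t n).filter (fun b => ‖b - a n‖ ≤ R * ρ n) ⊆ insert (a n) V := by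
      intro b hb
      obtain ⟨hb1, hb2⟩ := Finset.mem_filter.1 hb
      by_cases hba : b = a n
      · rw [hba]
        exact Finset.mem_insert_self _ _
      · refine Finset.mem_insert_of_mem (Finset.mem_filter.2 ⟨Finset.mem_erase.2 ⟨hba, hb1⟩, ?_⟩)
        exact hb2.trans (mul_le_mul_of_nonneg_right (le_max_left _ _) hρ.le)
    have hle : ∑ b ∈ (t n).filter (fun b => ‖b - a n‖ ≤ R * ρ n), √(s n b / ρ n) ≤ √(s n (a n) / ρ n) + ∑ b ∈ V, √(s n b / ρ n) := by
      refine (Finset.sum_le_sum_of_subset_of_nonneg hsub fun b _ _ => Real.sqrt_nonneg _).trans ?_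
      rw [Finset.sum_insert (by
        rw [hV]
        intro hc
        exact (Finset.mem_erase.1 (Finset.mem_filter.1 hc).1).1 rfl)]
    refine lt_of_le_of_lt hle ?_
    rcases le_or_gt (Real.exp (-(η / 2 * d n))) (ρ n) with hc | hc
    · -- large scale
      have hN := PreB_card h n (r := R' * ρ n) (L := 1) hR'ρ one_pos hRd
      rw [div_one] at hN
      have hterm' : ∀ b ∈ V, √(s n b / ρ n) ≤ Real.exp (-(η / 4 * d n)) := by
        intro b hb
        have hb1 := h.pos n b (Finset.mem_erase.1 (Finset.mem_filter.1 hb).1).2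
        refine Real.sqrt_le_iff.2 ⟨(Real.exp_pos _).le, ?_⟩
        rw [div_le_iff₀ hρ, ← Real.exp_nat_mul]
        calc s n b ≤ Real.exp (-(η * d n)) := hb1.2
          _ = Real.exp (((2 : ℕ) : ℝ) * -(η / 4 * d n)) * Real.exp (-(η / 2 * d n)) := by
            rw [← Real.exp_add]
            congr 1
            push_cast
            ring
          _ ≤ Real.exp (((2 : ℕ) : ℝ) * -(η / 4 * d n)) * ρ n := mul_le_mul_of_nonneg_left hc (Real.exp_pos _).le
      have hV1 : ∑ b ∈ V, √(s n b / ρ n) ≤ e / 2 := by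
        refine (Finset.sum_le_card_nsmul _ _ _ hterm').trans ?_
        rw [nsmul_eq_mul]
        calc (V.card : ℝ) * Real.exp (-(η / 4 * d n))
            ≤ B₅ * d n * Real.exp (-(η / 4 * d n)) := mul_le_mul_of_nonneg_right hN (Real.exp_pos _).le
          _ = B₅ * (d n * Real.exp (-(η / 4 * d n))) := by ring
          _ ≤ B₅ * (2 / ((η / 4) ^ 2 * d n)) := mul_le_mul_of_nonneg_left (PreB_exp (by positivity) hd0) hB₅
          _ ≤ e / 2 := by
            have h2 : 64 * B₅ / (η ^ 2 * e) ≤ d n := le_trans (by linarith) (hne.trans hd)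
            rw [div_le_iff₀ (by positivity)] at h2
            have h3 : B₅ * (2 / ((η / 4) ^ 2 * d n)) = 32 * B₅ / (η ^ 2 * d n) := by
              field_simp
              ring
            rw [h3, div_le_iff₀ (by positivity)]
            nlinarith
      linarith
    · -- small scale
      have hN := PreB_card h n (r := R' * ρ n) (L := η / 4 * d n) hR'ρ (by positivity) (by
        have h2 : R' ≤ d n := by
          have h3 : R' ≤ R' * Real.exp 1 := le_mul_of_one_le_right (by linarith) (Real.one_le_exp zero_le_one)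
          exact h3.trans (hnR.trans hd)
        calc R' * ρ n * Real.exp (η / 4 * d n) ≤ d n * Real.exp (-(η / 2 * d n)) * Real.exp (η / 4 * d n) := by
              gcongr
          _ = d n * Real.exp (-(η / 4 * d n)) := by
              rw [mul_assoc, ← Real.exp_add]
              congr 2
              ring
          _ ≤ d n * 1 := by
              refine mul_le_mul_of_nonneg_left (Real.exp_le_one_iff.2 ?_) hd0.le
              have : 0 ≤ η / 4 * d n := by positivity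
              linarith
          _ = d n := mul_one _)
      have hN2 : (V.card : ℝ) ≤ 4 * B₅ / η := by
        refine hN.trans (le_of_eq ?_)
        field_simp
      have hV1 : ∑ b ∈ V, √(s n b / ρ n) ≤ e / 4 := by
        refine (Finset.sum_le_card_nsmul V _ x fun b hb => ?_).trans ?_
        · exact hterm b (Finset.mem_erase.1 (Finset.mem_filter.1 hb).1).2 (Finset.mem_filter.1 hb).2
        · rw [nsmul_eq_mul]
          calc (V.card : ℝ) * x ≤ 4 * B₅ / η * x := mul_le_mul_of_nonneg_right hN2 hx0.le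
            _ ≤ 4 * B₅ / η * (e * η / (16 * (B₅ + 1))) := mul_le_mul_of_nonneg_left hx2 (by positivity)
            _ = e / 4 * (B₅ / (B₅ + 1)) := by
              field_simp
              ring
            _ ≤ e / 4 * 1 := by
              refine mul_le_mul_of_nonneg_left ?_ (by positivity)
              rw [div_le_one (by positivity)]
              linarith
            _ = e / 4 := mul_one _
      linarith
  · filter_upwards [hge 3, hge (8 * B₅ / η ^ 2)] with n h3 hnB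
    obtain ⟨hρ, hd, hA, hAρ⟩ := h.dA n
    have hd0 : 0 < d n := lt_of_lt_of_le (by linarith) hd
    set r₁ : ℝ := Real.exp (-(η / 2 * d n)) with hr₁
    have hr₁0 : 0 < r₁ := Real.exp_pos _
    have hN1 := PreB_card h n (r := r₁) (L := η / 2 * d n) hr₁0 (by positivity) (by
      rw [hr₁, ← Real.exp_add, neg_add_cancel, Real.exp_zero]
      linarith)
    have hN1' : ((((t n).erase (a n)).filter (fun b => ‖b - a n‖ ≤ r₁)).card : ℝ) ≤ 2 * B₅ / η := by
      refine hN1.trans (le_of_eq ?_)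
      field_simp
    have hN2 := PreB_card h n (r := ρ n) (L := 1) hρ one_pos (by
      have h4 : Real.exp 1 ≤ 3 := by linarith [Real.exp_one_lt_d9]
      nlinarith)
    rw [div_one] at hN2
    -- the terms
    have hterm : ∀ b ∈ ((t n).erase (a n)).filter (fun b => ‖b - a n‖ < ρ n),
        s n b / ‖b - a n‖ ≤ (if ‖b - a n‖ ≤ r₁ then (1 / 20 : ℝ) else 0) + r₁ := by
      intro b hb
      obtain ⟨hb1, hb2⟩ := Finset.mem_filter.1 hb
      obtain ⟨hne, hbt⟩ := Finset.mem_erase.1 hb1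
      have hsep := h.sep n b hbt (a n) (h.mem n) hne
      obtain ⟨hp1, hp2⟩ := h.pos n b hbt
      have hpos : 0 < ‖b - a n‖ := norm_pos_iff.2 (sub_ne_zero.2 hne)
      split_ifs with hif
      · have h5 : s n b / ‖b - a n‖ ≤ 1 / 20 := by
          rw [div_le_div_iff₀ hpos (by norm_num)]
          have h6 : s n b ≤ max (s n b) (s n (a n)) := le_max_left _ _
          nlinarith
        linarith
      · push Not at hif
        rw [zero_add, div_le_iff₀ hpos]
        calc s n b ≤ Real.exp (-(η * d n)) := hp2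
          _ = r₁ * r₁ := by
            rw [hr₁, ← Real.exp_add]
            congr 1
            ring
          _ ≤ r₁ * ‖b - a n‖ := mul_le_mul_of_nonneg_left hif.le hr₁0.le
    refine (Finset.sum_le_sum hterm).trans ?_
    rw [Finset.sum_add_distrib, Finset.sum_ite, Finset.sum_const_zero, add_zero, Finset.sum_const, Finset.sum_const, nsmul_eq_mul, nsmul_eq_mul]
    have hc1 : (((((t n).erase (a n)).filter (fun b => ‖b - a n‖ < ρ n)).filter (fun b => ‖b - a n‖ ≤ r₁)).card : ℝ) ≤ 2 * B₅ / η := by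
      refine le_trans ?_ hN1'
      have : ((((t n).erase (a n)).filter (fun b => ‖b - a n‖ < ρ n)).filter (fun b => ‖b - a n‖ ≤ r₁)).card ≤
          (((t n).erase (a n)).filter (fun b => ‖b - a n‖ ≤ r₁)).card := by
        refine Finset.card_le_card fun b hb => ?_
        obtain ⟨hb1, hb2⟩ := Finset.mem_filter.1 hb
        exact Finset.mem_filter.2 ⟨(Finset.mem_filter.1 hb1).1, hb2⟩
      exact_mod_cast this
    have hc2 : ((((t n).erase (a n)).filter (fun b => ‖b - a n‖ < ρ n)).card : ℝ) ≤ B₅ * d n := by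
      refine le_trans ?_ hN2
      have : (((t n).erase (a n)).filter (fun b => ‖b - a n‖ < ρ n)).card ≤ (((t n).erase (a n)).filter (fun b => ‖b - a n‖ ≤ ρ n)).card := by
        refine Finset.card_le_card fun b hb => ?_
        obtain ⟨hb1, hb2⟩ := Finset.mem_filter.1 hb
        exact Finset.mem_filter.2 ⟨hb1, hb2.le⟩
      exact_mod_cast this
    have h7 : B₅ * d n * r₁ ≤ 1 := by
      calc B₅ * d n * r₁ = B₅ * (d n * Real.exp (-(η / 2 * d n))) := by rw [hr₁]; ring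
        _ ≤ B₅ * (2 / ((η / 2) ^ 2 * d n)) := mul_le_mul_of_nonneg_left (PreB_exp (by positivity) hd0) hB₅
        _ ≤ 1 := by
          have h8 : 8 * B₅ / η ^ 2 ≤ d n := hnB.trans hd
          rw [div_le_iff₀ (by positivity)] at h8
          have h9 : B₅ * (2 / ((η / 2) ^ 2 * d n)) = 8 * B₅ / (η ^ 2 * d n) := by
            field_simp
            ring
          rw [h9, div_le_one (by positivity)]
          linarith
    have h8 : 0 ≤ B₅ / η := by positivity
    have h9 : 2 * B₅ / η = 2 * (B₅ / η) := by ring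
    have h10 := mul_le_mul_of_nonneg_right hc2 hr₁0.le
    rw [h9] at hc1
    linarith

end Pool.Agent.SR3

end
end

section

/-!
# SR3 PreC: rescaling at a minimal exit radius (assembly of `speedW`, `pre_small`, `pre_sum`)
-/

set_option autoImplicit false

open Topology Filter Metric

noncomputable section

namespace Pool.Agent.SR3

open Pool.Agent.H36.BP (EN fs wd Sub OrdTwo)
open Pool.Agent.H14.PP (IsCone Tan)
open Pool.Agent.SY (Ent)
open Pool.Agent.SDA (EnergyK Near AffOpen Nm nForms)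
open Pool.Agent.H62.EF (MN pr)
open Pool.Agent.G3 (LLift)
open Geo (Gd)

variable {N : ℕ} {G : Geo N} {T : Set (EN N)} {rho : EN N → ℝ} {M : ℕ} {c₀ C δ : ℝ} {g : (ℂ → EN N) → ℂ → ℝ}

/-- the points of `Y` are separated -/
theorem PreC_sep {Y : Finset (EN N)} (hY : G.Ends Y) : ∃ ε₁ : ℝ, 0 < ε₁ ∧ ∀ y ∈ Y, ∀ y' ∈ Y, dist (pr y) (pr y') < 2 * ε₁ → y = y' := by
  have h1 : ∀ᶠ ε in 𝓝[>] (0 : ℝ), ∀ p ∈ Y ×ˢ Y, dist (pr p.1) (pr p.2) < 2 * ε → p.1 = p.2 := by
    refine (Finset.eventually_all _).2 fun p hp => ?_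
    obtain ⟨hp1, hp2⟩ := Finset.mem_product.1 hp
    by_cases h : p.1 = p.2
    · exact Eventually.of_forall fun _ _ => h
    · have h2 : 0 < dist (pr p.1) (pr p.2) := dist_pos.2 fun h3 => h (hY.inj _ hp1 _ hp2 h3)
      have h3 : ∀ᶠ ε in 𝓝[>] (0 : ℝ), ε < dist (pr p.1) (pr p.2) / 2 :=
        mem_nhdsWithin_of_mem_nhds (Iio_mem_nhds (by linarith))
      filter_upwards [h3] with ε hε h4
      linarith
  obtain ⟨ε, hε, hε0⟩ := (h1.and self_mem_nhdsWithin).exists
  exact ⟨ε, hε0, fun y hy y' hy' h => hε (y, y') (Finset.mk_mem_product hy hy') h⟩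

/-- the rescaled holes -/
private def PreC_t (t : Finset ℂ) (a : ℂ) (ρ : ℝ) : Finset ℂ := by
  classical exact t.image (fun b => (b - a) / ρ)

private theorem PreC_mem {t : Finset ℂ} {a : ℂ} {ρ : ℝ} (hρ : 0 < ρ) {w : ℂ} : w ∈ PreC_t t a ρ ↔ a + ρ * w ∈ t := by
  classical
  have hρ' : (ρ : ℂ) ≠ 0 := Complex.ofReal_ne_zero.2 hρ.ne'
  unfold PreC_t
  rw [Finset.mem_image]
  constructor
  · rintro ⟨b, hb, rfl⟩
    rwa [mul_div_cancel₀ _ hρ', add_sub_cancel]
  · intro h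
    refine ⟨_, h, ?_⟩
    rw [add_sub_cancel_left, mul_div_cancel_left₀ _ hρ']

private theorem PreC_nm {a z : ℂ} {ρ : ℝ} (hρ : 0 < ρ) (b : ℂ) : ‖(a + ρ * z) - (a + ρ * b)‖ = ρ * ‖z - b‖ := by
  rw [add_sub_add_left_eq_sub, ← mul_sub, norm_mul, Complex.norm_real, Real.norm_of_nonneg hρ.le]

private theorem PreC_nm0 {a z : ℂ} {ρ : ℝ} (hρ : 0 < ρ) : ‖(a + ρ * z) - a‖ = ρ * ‖z‖ := by
  rw [add_sub_cancel_left, norm_mul, Complex.norm_real, Real.norm_of_nonneg hρ.le]

private theorem PreC_off {t : Finset ℂ} {s : ℂ → ℝ} {a : ℂ} {ρ : ℝ} (hρ : 0 < ρ) {z : ℂ}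
    (h : Off (PreC_t t a ρ) (fun w => s (a + ρ * w) / ρ) z) : Off t s (a + ρ * z) := by
  intro b hb
  have hρ' : (ρ : ℂ) ≠ 0 := Complex.ofReal_ne_zero.2 hρ.ne'
  have e : a + ρ * ((b - a) / ρ) = b := by rw [mul_div_cancel₀ _ hρ', add_sub_cancel]
  have h1 := h ((b - a) / ρ) ((PreC_mem hρ).2 (by rw [e]; exact hb))
  have h2 := PreC_nm (a := a) (z := z) hρ ((b - a) / ρ)
  rw [e] at h2
  simp only [e] at h1
  rw [h2]
  rwa [div_le_iff₀' hρ] at h1

private theorem PreC_off' {t : Finset ℂ} {s : ℂ → ℝ} {a : ℂ} {ρ : ℝ} (hρ : 0 < ρ) {z : ℂ} (h : Off t s (a + ρ * z)) :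
    Off (PreC_t t a ρ) (fun w => s (a + ρ * w) / ρ) z := by
  intro w hw
  have h1 := h _ ((PreC_mem hρ).1 hw)
  rw [PreC_nm hρ] at h1
  show s (a + ρ * w) / ρ ≤ ‖z - w‖
  rwa [div_le_iff₀' hρ]

theorem PreC_core {Y : Finset (EN N)} {e₁ ε₂ B₃ B₄ ε K η B₅ B R₀ : ℝ} (hsep : ∀ y ∈ Y, ∀ y' ∈ Y, dist (pr y) (pr y') < 2 * e₁ → y = y')
    (hle : ε₂ ≤ e₁) (hK : 20 ≤ K) {q : ℕ → G.J → ℂ} {F : ℕ → ℂ → EN N} {t : ℕ → Finset ℂ} {s : ℕ → ℂ → ℝ} {y : ℕ → ℂ → EN N} {a : ℕ → ℂ} {ρ d A : ℕ → ℝ}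
    (hP : G.Pre T rho δ Y B₃ B₄ ε K ε₂ η B₅ q F t s y a ρ d A) {𝒰 : Ultrafilter ℕ} (h𝒰 : (𝒰 : Filter ℕ) ≤ atTop)
    (hsm' : ∀ R τ : ℝ, 0 < τ → ∀ᶠ n in (𝒰 : Filter ℕ), ∀ b ∈ t n, ‖b - a n‖ ≤ R * ρ n → s n b ≤ τ * ρ n)
    (hsum1 : ∀ R : ℝ, Tendsto (fun n => ∑ b ∈ (t n).filter (fun b => ‖b - a n‖ ≤ R * ρ n), √(s n b / ρ n)) (𝒰 : Filter ℕ) (𝓝 0))
    (hsum2 : ∀ᶠ n in (𝒰 : Filter ℕ), ∑ b ∈ ((t n).erase (a n)).filter (fun b => ‖b - a n‖ < ρ n), s n b / ‖b - a n‖ ≤ B₅ / η + 1)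
    (hB0 : 0 < B)
    (hspd : ∀ (q : G.J → ℂ) (F : ℂ → EN N), G.Cl T q F → ∀ (z : ℂ) (r : ℝ), R₀ ≤ infDist z (Gd rho δ F) → 0 < r → r ≤ infDist z (Gd rho δ F) →
      (∀ w ∈ ball z r, B₃ < Real.log ‖F w‖) → fs (F z) (deriv F z) ≤ B / r) :
    ∃ (Γ : ℕ → ℂ → EN N) (t' : ℕ → Finset ℂ) (s' : ℕ → ℂ → ℝ) (y' : ℕ → ℂ → EN N), G.Res Y B₃ B₄ ε K ε₂ (B₅ / η + 1) 𝒰 Γ t' s' y' := by
  classical
  have hρ : ∀ n, 0 < ρ n := fun n => (hP.dA n).1
  have hge : ∀ k : ℝ, ∀ᶠ n : ℕ in (𝒰 : Filter ℕ), k ≤ (n : ℝ) := fun k => h𝒰 (tendsto_natCast_atTop_atTop.eventually_ge_atTop k)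
  have hA : ∀ k : ℝ, ∀ᶠ n : ℕ in (𝒰 : Filter ℕ), k ≤ A n := fun k => (hge k).mono fun n hn => hn.trans (hP.dA n).2.2.1
  -- the data
  set Γ : ℕ → ℂ → EN N := fun n z => F n (a n + ρ n * z) with hΓ
  set t' : ℕ → Finset ℂ := fun n => PreC_t (t n) (a n) (ρ n) with ht'
  set s' : ℕ → ℂ → ℝ := fun n w => s n (a n + ρ n * w) / ρ n with hs'
  set y' : ℕ → ℂ → EN N := fun n w => y n (a n + ρ n * w) with hy'
  have hmem : ∀ n w, w ∈ t' n ↔ a n + ρ n * w ∈ t n := fun n w => PreC_mem (hρ n)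
  have hpos : ∀ n, ∀ b ∈ t' n, 0 < s' n b := fun n b hb => div_pos (hP.pos n _ ((hmem n b).1 hb)).1 (hρ n)
  have hsepn : ∀ n, ∀ b ∈ t' n, ∀ b' ∈ t' n, b ≠ b' → K * max (s' n b) (s' n b') < ‖b - b'‖ := by
    intro n b hb b' hb' hne
    have h1 := hP.sep n _ ((hmem n b).1 hb) _ ((hmem n b').1 hb') (fun h => hne (by
      have h2 := add_left_cancel h
      exact mul_left_cancel₀ (Complex.ofReal_ne_zero.2 (hρ n).ne') h2))
    rw [PreC_nm (hρ n)] at h1
    have h3 : max (s' n b) (s' n b') = max (s n (a n + ρ n * b)) (s n (a n + ρ n * b')) / ρ n := by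
      simp only [hs']
      exact (max_div_div_right (hρ n).le _ _)
    rw [h3, ← mul_div_assoc, div_lt_iff₀' (hρ n)]
    exact h1
  have hrim : ∀ n, ∀ b ∈ t' n, G.Rim Y B₃ B₄ ε K (fun w => Γ n (b + s' n b * w)) (y' n b) := by
    intro n b hb
    have h1 := hP.rim n _ ((hmem n b).1 hb)
    have e : (fun w : ℂ => Γ n (b + s' n b * w)) = fun w => F n ((a n + ρ n * b) + s n (a n + ρ n * b) * w) := by
      funext w
      simp only [hΓ, hs']
      congr 1
      have hρ' : (ρ n : ℂ) ≠ 0 := Complex.ofReal_ne_zero.2 (hρ n).ne'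
      push_cast
      field_simp
      ring
    rw [e]
    exact h1
  have hzero : ∀ n, (0 : ℂ) ∈ t' n := fun n => (hmem n 0).2 (by rw [mul_zero, add_zero]; exact hP.mem n)
  have htiny : ∀ R τ : ℝ, 0 < τ → ∀ᶠ n in (𝒰 : Filter ℕ), ∀ b ∈ t' n, ‖b‖ ≤ R → s' n b ≤ τ := by
    intro R τ hτ
    filter_upwards [hsm' R τ hτ] with n hn b hb hbR
    have h1 := hn _ ((hmem n b).1 hb) (by
      rw [PreC_nm0 (hρ n), mul_comm]
      exact mul_le_mul_of_nonneg_right hbR (hρ n).le)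
    show s n (a n + ρ n * b) / ρ n ≤ τ
    rwa [div_le_iff₀ (hρ n)]
  have hstay : ∀ n z, ‖z‖ < 1 → Off (t' n) (s' n) z → dist (pr (Γ n z)) (pr (y' n 0)) < ε₂ := by
    intro n z hz ho
    have h1 := hP.stay n (a n + ρ n * z) (by
      rw [PreC_nm0 (hρ n)]
      exact mul_lt_of_lt_one_right (hρ n) hz) (PreC_off (hρ n) ho)
    simp only [hΓ, hy']
    rw [mul_zero, add_zero]
    exact h1
  have hcov : ∀ n z, ‖z‖ ≤ A n → Real.log ‖Γ n z‖ ≤ B₃ → ∃ b ∈ t' n, ‖z - b‖ < s' n b / 2 := by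
    intro n z hz hl
    obtain ⟨b, hb, hzb⟩ := hP.cov n (a n + ρ n * z) (by
      rw [PreC_nm0 (hρ n), mul_comm]
      exact mul_le_mul_of_nonneg_right hz (hρ n).le) hl
    have hρ' : (ρ n : ℂ) ≠ 0 := Complex.ofReal_ne_zero.2 (hρ n).ne'
    have e : a n + ρ n * ((b - a n) / ρ n) = b := by rw [mul_div_cancel₀ _ hρ', add_sub_cancel]
    refine ⟨(b - a n) / ρ n, (hmem n _).2 (by rw [e]; exact hb), ?_⟩
    have h2 := PreC_nm (a := a n) (z := z) (hρ n) ((b - a n) / ρ n)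
    rw [e] at h2
    rw [h2] at hzb
    show ‖z - (b - a n) / ρ n‖ < s n (a n + ρ n * ((b - a n) / ρ n)) / ρ n / 2
    rw [e, div_div, mul_comm (ρ n) 2, ← div_div, lt_div_iff₀' (hρ n)]
    exact hzb
  have hhof : ∀ n, ∀ b ∈ t' n, ‖b‖ ≤ A n → ∀ z, ‖z - b‖ < 1 / 2 → Off (t' n) (s' n) z → dist (pr (Γ n z)) (pr (y' n b)) < ε₂ := by
    intro n b hb hbA z hz ho
    refine hP.hof n _ ((hmem n b).1 hb) (by
      rw [PreC_nm0 (hρ n), mul_comm]
      exact mul_le_mul_of_nonneg_right hbA (hρ n).le) _ ?_ (PreC_off (hρ n) ho)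
    rw [PreC_nm (hρ n)]
    have h1 := mul_lt_mul_of_pos_left hz (hρ n)
    rwa [mul_one_div] at h1
  have hent : ∀ n, Differentiable ℂ (F n) := fun n => (hP.cl n).ent.diff
  have hlin : ∀ n, Differentiable ℂ (fun z : ℂ => a n + ρ n * z) := fun n => (differentiable_const _).add ((differentiable_const _).mul differentiable_id)
  refine ⟨Γ, t', s', y', ?_, hzero, hstay, ?_, ?_, ?_⟩
  · refine ⟨isOpen_univ, isPreconnected_univ, fun n => ⟨(hent n).comp (hlin n), fun z => (hP.cl n).ent.mem _, fun z => (hP.cl n).nm _⟩, hpos, hsepn, hrim, ?_, ?_,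
      htiny, ?_, ?_⟩
    · -- cov
      intro z _
      refine ⟨1, one_pos, ?_⟩
      filter_upwards [hA (‖z‖ + 1)] with n hn w hw hl
      refine hcov n w ?_ hl
      have h1 : ‖w - z‖ < 1 := mem_ball_iff_norm.1 hw
      calc ‖w‖ = ‖(w - z) + z‖ := by rw [sub_add_cancel]
        _ ≤ ‖w - z‖ + ‖z‖ := norm_add_le _ _
        _ ≤ A n := by linarith
    · -- out
      intro z _
      refine ⟨‖z‖ + 1, by positivity, ?_⟩
      filter_upwards [htiny 0 (1 / 2) (by norm_num)] with n hn b hb hbz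
      by_cases h0 : b = 0
      · subst h0
        have h1 := hn 0 hb (by rw [norm_zero])
        have h2 := norm_nonneg z
        linarith
      · have h1 := hsepn n b hb 0 (hzero n) h0
        rw [sub_zero] at h1
        have h2 : s' n b ≤ max (s' n b) (s' n 0) := le_max_left _ _
        have h3 := hpos n b hb
        have h4 : 20 * s' n b < ‖b‖ := (mul_le_mul hK h2 h3.le (le_trans (by norm_num) hK)).trans_lt h1
        have h5 : ‖b‖ ≤ ‖b - z‖ + ‖z‖ := by
          calc ‖b‖ = ‖(b - z) + z‖ := by rw [sub_add_cancel]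
            _ ≤ ‖b - z‖ + ‖z‖ := norm_add_le _ _
        linarith
    · -- small
      intro z _
      refine ⟨1, one_pos, ?_⟩
      refine squeeze_zero (fun n => Finset.sum_nonneg fun b _ => Real.sqrt_nonneg _) (fun n => ?_) (hsum1 (‖z‖ + 1))
      have h1 : ∑ b ∈ (t' n).filter (fun b => ‖b - z‖ < 1), √(s' n b) =
          ∑ b ∈ ((t' n).filter (fun b => ‖b - z‖ < 1)).image (fun b => a n + ρ n * b), √(s n b / ρ n) := by
        rw [Finset.sum_image]
        intro b _ b' _ hbb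
        exact mul_left_cancel₀ (Complex.ofReal_ne_zero.2 (hρ n).ne') (add_left_cancel hbb)
      rw [h1]
      refine Finset.sum_le_sum_of_subset_of_nonneg ?_ fun _ _ _ => Real.sqrt_nonneg _
      intro b hb
      obtain ⟨b', hb', rfl⟩ := Finset.mem_image.1 hb
      obtain ⟨hb1, hb2⟩ := Finset.mem_filter.1 hb'
      refine Finset.mem_filter.2 ⟨(hmem n b').1 hb1, ?_⟩
      rw [PreC_nm0 (hρ n), mul_comm]
      refine mul_le_mul_of_nonneg_right ?_ (hρ n).le
      calc ‖b'‖ = ‖(b' - z) + z‖ := by rw [sub_add_cancel]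
        _ ≤ ‖b' - z‖ + ‖z‖ := norm_add_le _ _
        _ ≤ ‖z‖ + 1 := by linarith
    · -- loc
      intro z _
      have hr0 : 0 < min (1 / 8 : ℝ) (1 / (16 * B)) := lt_min (by norm_num) (by positivity)
      refine ⟨min (1 / 8) (1 / (16 * B)), hr0, ?_⟩
      have hr1 : min (1 / 8 : ℝ) (1 / (16 * B)) ≤ 1 / 8 := min_le_left _ _
      have hr2 : min (1 / 8 : ℝ) (1 / (16 * B)) ≤ 1 / (16 * B) := min_le_right _ _
      generalize min (1 / 8 : ℝ) (1 / (16 * B)) = r at hr0 hr1 hr2 ⊢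
      filter_upwards [hA (2 * ‖z‖ + 2), hge R₀, hge 1, htiny (2 * ‖z‖ + 2) (1 / 16) (by norm_num)] with n hn hnR hn1 hnt
      by_cases hc : ∃ b ∈ t' n, ‖b - z‖ < 1 / 4
      · left
        obtain ⟨b, hb, hbz⟩ := hc
        refine ⟨b, hb, fun w hw ho => hhof n b hb ?_ w ?_ ho⟩
        · have h1 := norm_nonneg z
          calc ‖b‖ = ‖(b - z) + z‖ := by rw [sub_add_cancel]
            _ ≤ ‖b - z‖ + ‖z‖ := norm_add_le _ _
            _ ≤ A n := by linarith
        · have h1 : ‖w - z‖ < r := mem_ball_iff_norm.1 hw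
          calc ‖w - b‖ = ‖(w - z) - (b - z)‖ := by rw [sub_sub_sub_cancel_right]
            _ ≤ ‖w - z‖ + ‖b - z‖ := norm_sub_le _ _
            _ < 1 / 2 := by linarith
      · right
        push Not at hc
        refine ⟨fun b hb => by linarith [hc b hb], fun w hw => ?_⟩
        have hw1 : ‖w - z‖ < r := mem_ball_iff_norm.1 hw
        have hz0 := norm_nonneg z
        have hwn : ‖w‖ ≤ ‖z‖ + 1 / 8 := by
          calc ‖w‖ = ‖(w - z) + z‖ := by rw [sub_add_cancel]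
            _ ≤ ‖w - z‖ + ‖z‖ := norm_add_le _ _
            _ ≤ ‖z‖ + 1 / 8 := by linarith
        -- no low points near w
        have hlow : ∀ v : ℂ, ‖v - w‖ < 1 / 16 → B₃ < Real.log ‖Γ n v‖ := by
          intro v hv
          by_contra hcon
          have hvn : ‖v‖ ≤ ‖z‖ + 1 := by
            calc ‖v‖ = ‖(v - w) + w‖ := by rw [sub_add_cancel]
              _ ≤ ‖v - w‖ + ‖w‖ := norm_add_le _ _
              _ ≤ ‖z‖ + 1 := by linarith
          obtain ⟨b, hb, hvb⟩ := hcov n v (by linarith) (not_lt.1 hcon)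
          have hbn : ‖b‖ ≤ 2 * ‖z‖ + 2 := by
            by_cases h0 : b = 0
            · rw [h0, norm_zero]
              positivity
            · have h1 := hsepn n b hb 0 (hzero n) h0
              rw [sub_zero] at h1
              have h2 : s' n b ≤ max (s' n b) (s' n 0) := le_max_left _ _
              have h3 := hpos n b hb
              have h4 : 20 * s' n b < ‖b‖ := (mul_le_mul hK h2 h3.le (le_trans (by norm_num) hK)).trans_lt h1
              have h5 : ‖b‖ ≤ ‖v - b‖ + ‖v‖ := by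
                calc ‖b‖ = ‖v - (v - b)‖ := by rw [sub_sub_cancel]
                  _ ≤ ‖v‖ + ‖v - b‖ := norm_sub_le _ _
                  _ = ‖v - b‖ + ‖v‖ := add_comm _ _
              linarith
          have hsb := hnt b hb hbn
          have h6 : ‖b - z‖ ≤ ‖v - b‖ + ‖v - w‖ + ‖w - z‖ := by
            calc ‖b - z‖ = ‖(v - w) + (w - z) - (v - b)‖ := by congr 1; ring
              _ ≤ ‖(v - w) + (w - z)‖ + ‖v - b‖ := norm_sub_le _ _
              _ ≤ ‖v - w‖ + ‖w - z‖ + ‖v - b‖ := by gcongr; exact norm_add_le _ _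
              _ = ‖v - b‖ + ‖v - w‖ + ‖w - z‖ := by ring
          have h7 := hc b hb
          linarith
        -- the speed
        have hA2 := hP.dA n
        have hdz : d n ≤ infDist (a n + ρ n * w) (Gd rho δ (F n)) := by
          refine hP.dd n _ ?_
          rw [PreC_nm0 (hρ n), mul_comm]
          refine mul_le_mul_of_nonneg_right ?_ (hρ n).le
          linarith
        have hAρ : ρ n ≤ d n := by
          refine le_trans ?_ hA2.2.2.2
          have h1 : (1 : ℝ) ≤ A n := by linarith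
          exact le_mul_of_one_le_left (hρ n).le h1
        have h8 := hspd (q n) (F n) (hP.cl n) (a n + ρ n * w) (ρ n / 16) (hnR.trans (hA2.2.1.trans hdz)) (by linarith [hρ n]) (by linarith [hρ n]) (by
          intro v hv
          have hρ' : (ρ n : ℂ) ≠ 0 := Complex.ofReal_ne_zero.2 (hρ n).ne'
          have e : a n + ρ n * ((v - a n) / ρ n) = v := by rw [mul_div_cancel₀ _ hρ', add_sub_cancel]
          have h9 := hlow ((v - a n) / ρ n) (by
            have h10 := PreC_nm (a := a n) (z := (v - a n) / ρ n) (hρ n) w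
            rw [e] at h10
            have h11 : ‖v - (a n + ρ n * w)‖ < ρ n / 16 := mem_ball_iff_norm.1 hv
            rw [h10] at h11
            have h12 := hρ n
            have h13 : ρ n * ‖(v - a n) / ρ n - w‖ < ρ n * (1 / 16) := by linarith
            exact lt_of_mul_lt_mul_left h13 h12.le)
          simp only [hΓ] at h9
          rwa [e] at h9)
        have e1 : Γ n = fun v => F n (ρ n * v + a n) := by
          funext v
          simp only [hΓ]
          rw [add_comm]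
        have e2 : deriv (Γ n) w = (ρ n : ℂ) • deriv (F n) (a n + ρ n * w) := by
          rw [e1, deriv_aff (hent n), add_comm ((ρ n : ℂ) * w) (a n)]
        show fs (Γ n w) (deriv (Γ n) w) ≤ 1 / r
        rw [e2, Pool.Agent.H36.BP.fs_smul_right, Complex.norm_real, Real.norm_of_nonneg (hρ n).le]
        have h14 : ρ n * fs (Γ n w) (deriv (F n) (a n + ρ n * w)) ≤ ρ n * (B / (ρ n / 16)) := mul_le_mul_of_nonneg_left h8 (hρ n).le
        have h15 : ρ n * (B / (ρ n / 16)) = 16 * B := by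
          have := (hρ n).ne'
          field_simp
        rw [h15] at h14
        refine h14.trans ?_
        rw [le_div_iff₀ hr0]
        rw [le_div_iff₀ (by positivity)] at hr2
        linarith
  · -- exit
    intro n
    obtain ⟨z, hz, ho, hd⟩ := hP.exit n
    have hρ' : (ρ n : ℂ) ≠ 0 := Complex.ofReal_ne_zero.2 (hρ n).ne'
    have e : a n + ρ n * ((z - a n) / ρ n) = z := by rw [mul_div_cancel₀ _ hρ', add_sub_cancel]
    refine ⟨(z - a n) / ρ n, ?_, PreC_off' (hρ n) (by rw [e]; exact ho), ?_⟩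
    · rw [norm_div, hz, Complex.norm_real, Real.norm_of_nonneg (hρ n).le, div_self (hρ n).ne']
    · simp only [hΓ, hy']
      rw [e, mul_zero, add_zero]
      exact hd
  · -- exitFar
    filter_upwards [hA (5 / 4)] with n hn z hz ho hd b hb
    by_contra hcon
    push Not at hcon
    have hbn : ‖b‖ ≤ 5 / 4 := by
      calc ‖b‖ = ‖z - (z - b)‖ := by rw [sub_sub_cancel]
        _ ≤ ‖z‖ + ‖z - b‖ := norm_sub_le _ _
        _ ≤ 5 / 4 := by linarith
    have h1 := hhof n b hb (hbn.trans hn) z (by linarith) ho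
    have h2 : y' n b = y' n 0 := by
      refine hsep _ (hrim n b hb).mem _ (hrim n 0 (hzero n)).mem ?_
      calc dist (pr (y' n b)) (pr (y' n 0)) ≤ dist (pr (y' n b)) (pr (Γ n z)) + dist (pr (Γ n z)) (pr (y' n 0)) := dist_triangle _ _ _
        _ < ε₂ + ε₂ := by rw [dist_comm (pr (y' n b)), hd]; linarith
        _ ≤ 2 * e₁ := by linarith [hle]
    rw [h2, hd] at h1
    exact lt_irrefl _ h1
  · -- cnt
    filter_upwards [hsum2] with n hn
    refine le_trans (le_of_eq ?_) hn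
    have h1 : ((t n).erase (a n)).filter (fun b => ‖b - a n‖ < ρ n) =
        (((t' n).erase 0).filter (fun b => ‖b‖ < 1)).image (fun b => a n + ρ n * b) := by
      have hρ' : (ρ n : ℂ) ≠ 0 := Complex.ofReal_ne_zero.2 (hρ n).ne'
      ext b
      constructor
      · intro hb
        obtain ⟨hb1, hb2⟩ := Finset.mem_filter.1 hb
        obtain ⟨hb3, hb4⟩ := Finset.mem_erase.1 hb1
        have e : a n + ρ n * ((b - a n) / ρ n) = b := by rw [mul_div_cancel₀ _ hρ', add_sub_cancel]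
        refine Finset.mem_image.2 ⟨(b - a n) / ρ n, Finset.mem_filter.2 ⟨Finset.mem_erase.2 ⟨?_, (hmem n _).2 (by rw [e]; exact hb4)⟩, ?_⟩, e⟩
        · exact div_ne_zero (sub_ne_zero.2 hb3) hρ'
        · rw [norm_div, Complex.norm_real, Real.norm_of_nonneg (hρ n).le, div_lt_one (hρ n)]
          exact hb2
      · intro hb
        obtain ⟨b', hb', rfl⟩ := Finset.mem_image.1 hb
        obtain ⟨hb1, hb2⟩ := Finset.mem_filter.1 hb'
        obtain ⟨hb3, hb4⟩ := Finset.mem_erase.1 hb1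
        refine Finset.mem_filter.2 ⟨Finset.mem_erase.2 ⟨fun h => hb3 ?_, (hmem n b').1 hb4⟩, ?_⟩
        · have h2 : (ρ n : ℂ) * b' = 0 := by
            have h3 : a n + ρ n * b' = a n + 0 := by rw [add_zero]; exact h
            exact add_left_cancel h3
          exact (mul_eq_zero.1 h2).resolve_left hρ'
        · rw [PreC_nm0 (hρ n)]
          exact mul_lt_of_lt_one_right (hρ n) hb2
    rw [h1, Finset.sum_image]
    · refine Finset.sum_congr rfl fun b _ => ?_
      rw [PreC_nm0 (hρ n)]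
      simp only [hs']
      rw [div_div]
    · intro b _ b' _ hbb
      exact mul_left_cancel₀ (Complex.ofReal_ne_zero.2 (hρ n).ne') (add_left_cancel hbb)

end Pool.Agent.SR3

end
end

section

/-!
# SR3 Smo: the wells end at crossings

Otherwise `stay` for `a`, `exists_pt` in `closedBall a (κ d)`; the point is in no hole (`Rim.bdd`, `n_le_L`, `L_le_fs`); all
`|q j| ≤ C fs L ^ (m j - 1)` tend to `0`, against `nq q = 1`.
-/

set_option autoImplicit false

open Topology Filter Metric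

noncomputable section

namespace Pool.Agent.SR3

open Pool.Agent.H36.BP (EN fs wd Sub OrdTwo)
open Pool.Agent.H14.PP (IsCone Tan)
open Pool.Agent.SY (Ent)
open Pool.Agent.SDA (EnergyK Near AffOpen Nm nForms)
open Pool.Agent.H62.EF (MN pr)
open Geo (Gd)

variable {N : ℕ} {G : Geo N} {T : Set (EN N)} {rho : EN N → ℝ} {M : ℕ} {c₀ C δ : ℝ} {g : (ℂ → EN N) → ℂ → ℝ}

/-- a positive lower bound on a finite set -/
theorem Smo_min (Y : Finset (EN N)) (r : EN N → ℝ) (hr : ∀ y, 0 < r y) : ∃ r₀ : ℝ, 0 < r₀ ∧ ∀ y ∈ Y, r₀ ≤ r y := by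
  classical
  induction Y using Finset.induction_on with
  | empty => exact ⟨1, one_pos, fun y hy => absurd hy (Finset.notMem_empty y)⟩
  | insert a s _ ih =>
    obtain ⟨r₀, h0, h1⟩ := ih
    refine ⟨min r₀ (r a), lt_min h0 (hr a), fun y hy => ?_⟩
    rcases Finset.mem_insert.1 hy with h | h
    · rw [h]
      exact min_le_right _ _
    · exact (min_le_left _ _).trans (h1 y h)

/-- an upper bound on a finite set -/
theorem Smo_max (Y : Finset (EN N)) (b : EN N → ℝ) : ∃ b₀ : ℝ, 0 < b₀ ∧ ∀ y ∈ Y, b y ≤ b₀ := by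
  classical
  induction Y using Finset.induction_on with
  | empty => exact ⟨1, one_pos, fun y hy => absurd hy (Finset.notMem_empty y)⟩
  | insert a s _ ih =>
    obtain ⟨r₀, h0, h1⟩ := ih
    refine ⟨max r₀ (b a), lt_of_lt_of_le h0 (le_max_left _ _), fun y hy => ?_⟩
    rcases Finset.mem_insert.1 hy with h | h
    · rw [h]
      exact le_max_right _ _
    · exact (h1 y h).trans (le_max_left _ _)

/-- the length of small values -/
theorem Smo_small (hG : G.Ok) (B L₁ : ℝ) : ∃ τ₀ : ℝ, 0 < τ₀ ∧ ∀ τ : ℝ, 0 ≤ τ → τ < τ₀ →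
    ∑ j : G.J, (B * τ * L₁ ^ (G.m j - 1)) ^ ((G.m j : ℝ)⁻¹) < 1 := by
  have hc : ContinuousAt (fun τ : ℝ => ∑ j : G.J, (B * τ * L₁ ^ (G.m j - 1)) ^ ((G.m j : ℝ)⁻¹)) 0 := by
    refine tendsto_finset_sum _ fun j _ => ?_
    have h1 : ContinuousAt (fun τ : ℝ => B * τ * L₁ ^ (G.m j - 1)) 0 := by fun_prop
    exact h1.rpow_const (Or.inr (inv_nonneg.2 (Nat.cast_nonneg _)))
  have h0 : ∑ j : G.J, (B * 0 * L₁ ^ (G.m j - 1)) ^ ((G.m j : ℝ)⁻¹) = 0 := by
    refine Finset.sum_eq_zero fun j _ => ?_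
    have hm : (G.m j : ℝ) ≠ 0 := by
      have := hG.one_m j
      exact_mod_cast (by omega : G.m j ≠ 0)
    rw [mul_zero, zero_mul, Real.zero_rpow (inv_ne_zero hm)]
  have h1 : ∀ᶠ τ : ℝ in 𝓝 0, ∑ j : G.J, (B * τ * L₁ ^ (G.m j - 1)) ^ ((G.m j : ℝ)⁻¹) < 1 := by
    refine hc.eventually_lt continuousAt_const ?_
    rw [h0]
    exact one_pos
  obtain ⟨τ₀, h2, h3⟩ := Metric.eventually_nhds_iff.1 h1
  refine ⟨τ₀, h2, fun τ ha hb => h3 ?_⟩
  rw [Real.dist_eq, sub_zero, abs_of_nonneg ha]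
  exact hb

end Pool.Agent.SR3

end
end
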