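import Pool.Agent.H43.TL2.M149
import Pool.Agent.H43.TL2.M155
import Pool.Agent.H43.TL2.SR3.AJmp
import Pool.Agent.H43.TL2.SR3.Spd

/-! The parts of this file: SR3.PreB_1, SR3.Spd_1. -/

section

/-!
# SR3 PreB: the holes are relatively small
-/

set_option autoImplicit false

open Topology Filter Metric

noncomputable section

namespace Pool.Agent.SR3

open Pool.Agent.H36.BP (EN fs wd Sub OrdTwo)
open Pool.Agent.H14.PP (IsCone Tan)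
open Pool.Agent.SY (Ent)
open Pool.Agent.SDA (EnergyK Near AffOpen Nm nForms)
open Pool.Agent.H62.EF (MN pr continuousAt_pr)
open Geo (Gd)

variable {N : ℕ} {G : Geo N} {T : Set (EN N)} {rho : EN N → ℝ} {M : ℕ} {c₀ C δ : ℝ} {g : (ℂ → EN N) → ℂ → ℝ}

/-- `pre_small` from the statement of `line_limit` -/
private theorem PreB_core (hG : G.Ok) {Y : Finset (EN N)} (hY : G.Ends Y)
    (hll : ∀ B B' η : ℝ, 0 < η → ∀ (𝒰 : Ultrafilter ℕ), (𝒰 : Filter ℕ) ≤ atTop → ∀ (q : ℕ → G.J → ℂ)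
    (F : ℕ → ℂ → EN N) (z : ℕ → ℂ) (r : ℕ → ℝ), (∀ n, G.Cl T (q n) (F n)) →
    Tendsto (fun n => infDist (z n) (Gd rho δ (F n))) (𝒰 : Filter ℕ) atTop →
    (∀ᶠ n in (𝒰 : Filter ℕ), 0 < r n ∧ r n ≤ Real.exp (-(η * infDist (z n) (Gd rho δ (F n))))) →
    (∀ᶠ n in (𝒰 : Filter ℕ), ∀ w : ℂ, ‖w‖ ≤ 1 → Real.log ‖F n (z n + r n * w)‖ ≤ B) →
    (∀ᶠ n in (𝒰 : Filter ℕ), ∃ w : ℂ, ‖w‖ ≤ 1 ∧ Real.log ‖F n (z n + r n * w)‖ ≤ B') →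
    (∀ᶠ n in (𝒰 : Filter ℕ), ∃ w : ℂ, ‖w‖ ≤ 1 ∧ B' + 1 ≤ Real.log ‖F n (z n + r n * w)‖) →
    ∃ φ : ℂ → EN N, G.Line φ ∧ TendstoLocallyUniformlyOn (fun n w => F n (z n + r n * w)) φ (𝒰 : Filter ℕ) Set.univ)
    : ∃ ε₁ : ℝ, 0 < ε₁ ∧ ∀ ε₂ : ℝ, 0 < ε₂ → ε₂ ≤ ε₁ → ∃ B₀ : ℝ,
    ∀ B₃ B₄ ε K η B₅ : ℝ, B₀ ≤ B₃ → 0 < ε → 20 ≤ K → 0 < η → ∀ q F t s y a ρ d A, G.Pre T rho δ Y B₃ B₄ ε K ε₂ η B₅ q F t s y a ρ d A →
      ∀ (𝒰 : Ultrafilter ℕ), (𝒰 : Filter ℕ) ≤ atTop → ∀ R τ : ℝ, 0 < τ → ∀ᶠ n in (𝒰 : Filter ℕ), ∀ b ∈ t n, ‖b - a n‖ ≤ R * ρ n → s n b ≤ τ * ρ n := by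
  classical
  obtain ⟨ε₁, hε₁, hsepY⟩ := PreB_sep hY
  refine ⟨ε₁, hε₁, fun ε₂ hε₂ hε₂₁ => ?_⟩
  obtain ⟨B₀, hB₀⟩ := hY.near (ε₂ / 2) (half_pos hε₂)
  refine ⟨B₀, fun B₃ B₄ ε K η B₅ hB₃ hε hK hη q F t s y a ρ d A h 𝒰 h𝒰 R τ hτ => ?_⟩
  have hB₅ := PreB_B5 h
  by_contra hcon
  rw [← Ultrafilter.eventually_not] at hcon
  -- the large holes
  set b : ℕ → ℂ := fun n => if hb : ∃ b ∈ t n, ‖b - a n‖ ≤ R * ρ n ∧ τ * ρ n < s n b then hb.choose else a n with hb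
  have hbev : ∀ᶠ n in (𝒰 : Filter ℕ), b n ∈ t n ∧ ‖b n - a n‖ ≤ R * ρ n ∧ τ * ρ n < s n (b n) := by
    filter_upwards [hcon] with n hn
    have h1 : ∃ b ∈ t n, ‖b - a n‖ ≤ R * ρ n ∧ τ * ρ n < s n b := by
      by_contra h2
      push Not at h2
      exact hn h2
    have h2 : b n = h1.choose := by simp only [hb, dif_pos h1]
    rw [h2]
    exact ⟨h1.choose_spec.1, h1.choose_spec.2.1, h1.choose_spec.2.2⟩
  choose z hz1 hz2 hz3 using h.exit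
  have hge : ∀ k : ℝ, ∀ᶠ n : ℕ in (𝒰 : Filter ℕ), k ≤ (n : ℝ) := fun k => h𝒰 (tendsto_natCast_atTop_atTop.eventually_ge_atTop k)
  -- the distance to the good points
  have hinf : ∀ᶠ n in (𝒰 : Filter ℕ), d n ≤ infDist (b n) (Gd rho δ (F n)) ∧ infDist (b n) (Gd rho δ (F n)) ≤ (B₅ + 1) * d n := by
    filter_upwards [hbev, hge R, hge 1] with n hn hR h1
    obtain ⟨hρ, hd, hA, hAρ⟩ := h.dA n
    have h2 : ‖b n - a n‖ ≤ A n * ρ n := hn.2.1.trans (mul_le_mul_of_nonneg_right (hR.trans hA) hρ.le)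
    refine ⟨h.dd n _ h2, ?_⟩
    have h3 : infDist (b n) (Gd rho δ (F n)) ≤ infDist (a n) (Gd rho δ (F n)) + dist (b n) (a n) := infDist_le_infDist_add_dist
    rw [dist_eq_norm] at h3
    have h4 := h.du n
    linarith
  have hrim : ∀ᶠ n in (𝒰 : Filter ℕ), G.Rim Y B₃ B₄ ε K (fun w => F n (b n + s n (b n) * w)) (y n (b n)) := by
    filter_upwards [hbev] with n hn
    exact h.rim n _ hn.1
  obtain ⟨φ, hφ, hlim⟩ := hll B₄ B₃ (η / (B₅ + 1)) (by positivity) 𝒰 h𝒰 q F b (fun n => s n (b n)) h.cl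
    (by
      refine tendsto_atTop.2 fun k => ?_
      filter_upwards [hinf, hge k] with n hn hk
      exact hk.trans ((h.dA n).2.1.trans hn.1))
    (by
      filter_upwards [hbev, hinf] with n hn hi
      obtain ⟨h1, h2⟩ := h.pos n _ hn.1
      refine ⟨h1, h2.trans (Real.exp_le_exp.2 (neg_le_neg ?_))⟩
      rw [div_mul_eq_mul_div, div_le_iff₀ (by linarith)]
      have h3 := mul_le_mul_of_nonneg_left hi.2 hη.le
      linarith)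
    (by
      filter_upwards [hrim] with n hn w hw
      exact hn.bdd w (hw.trans (by linarith)))
    (by
      filter_upwards [hrim] with n hn
      exact ⟨0, by simp, hn.low⟩)
    (by
      filter_upwards [hrim] with n hn
      obtain ⟨w, hw, hw2⟩ := hn.up
      exact ⟨w, by linarith, hw2⟩)
  -- the exit point in the scale of the hole
  set w : ℕ → ℂ := fun n => (z n - b n) / s n (b n) with hw
  have hwb : ∀ᶠ n in (𝒰 : Filter ℕ), w n ∈ closedBall (0 : ℂ) ((1 + R) / τ) := by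
    filter_upwards [hbev] with n hn
    obtain ⟨hρ, -⟩ := h.dA n
    have h1 := (h.pos n _ hn.1).1
    rw [mem_closedBall_zero_iff, hw, norm_div, Complex.norm_real, Real.norm_of_nonneg h1.le, div_le_div_iff₀ h1 hτ]
    have h2 : ‖z n - b n‖ ≤ (1 + R) * ρ n := by
      have h3 : z n - b n = (z n - a n) - (b n - a n) := by ring
      rw [h3]
      refine (norm_sub_le _ _).trans ?_
      rw [hz1 n]
      linarith [hn.2.1]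
    have h3 : 0 ≤ 1 + R := by
      have h4 := (norm_nonneg _).trans h2
      exact nonneg_of_mul_nonneg_left h4 hρ
    calc ‖z n - b n‖ * τ ≤ (1 + R) * ρ n * τ := mul_le_mul_of_nonneg_right h2 hτ.le
      _ = (1 + R) * (τ * ρ n) := by ring
      _ ≤ (1 + R) * s n (b n) := mul_le_mul_of_nonneg_left hn.2.2.le h3
  obtain ⟨w₀, -, hw₀⟩ := (isCompact_closedBall (0 : ℂ) ((1 + R) / τ)).ultrafilter_le_nhds' (𝒰.map w) hwb
  have hwt : Tendsto w (𝒰 : Filter ℕ) (𝓝 w₀) := hw₀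
  have hlim2 : Tendsto (fun n => F n (b n + s n (b n) * w n)) (𝒰 : Filter ℕ) (𝓝 (φ w₀)) := by
    refine hlim.tendsto_comp (x := w₀) (g := w) hφ.diff.continuous.continuousWithinAt (Set.mem_univ _) ?_
    rw [nhdsWithin_univ]
    exact hwt
  have hlim3 : Tendsto (fun n => F n (z n)) (𝒰 : Filter ℕ) (𝓝 (φ w₀)) := by
    refine hlim2.congr' ?_
    filter_upwards [hbev] with n hn
    have h1 : (s n (b n) : ℂ) ≠ 0 := by
      have := (h.pos n _ hn.1).1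
      exact_mod_cast this.ne'
    have h2 : b n + s n (b n) * w n = z n := by
      rw [hw]
      field_simp
      ring
    rw [h2]
  have hφ0 : φ w₀ ≠ 0 := ne0 hG (hφ.mem w₀)
  -- the value is large
  have hbig : B₃ ≤ Real.log ‖φ w₀‖ := by
    have h1 : Tendsto (fun n => Real.log ‖F n (z n)‖) (𝒰 : Filter ℕ) (𝓝 (Real.log ‖φ w₀‖)) :=
      (Real.continuousAt_log (norm_ne_zero_iff.2 hφ0)).tendsto.comp hlim3.norm
    refine ge_of_tendsto h1 ?_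
    filter_upwards [hge 1] with n hn
    obtain ⟨hρ, -, hA, -⟩ := h.dA n
    by_contra h2
    push Not at h2
    have h3 : ‖z n - a n‖ ≤ A n * ρ n := by
      rw [hz1 n]
      exact le_mul_of_one_le_left hρ.le (hn.trans hA)
    obtain ⟨c, hc, hc2⟩ := h.cov n (z n) h3 h2.le
    have h4 := hz2 n c hc
    have h5 := (h.pos n c hc).1
    linarith
  obtain ⟨y', hy', hy'2⟩ := hB₀ φ hφ w₀ (hB₃.trans hbig)
  -- the end of the hole `a n` is constant along the ultrafilter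
  obtain ⟨y'', hy'', hy''2⟩ : ∃ y'' ∈ Y, ∀ᶠ n in (𝒰 : Filter ℕ), y n (a n) = y'' := by
    have h1 : ∀ᶠ n in (𝒰 : Filter ℕ), ∃ y'' ∈ Y, y n (a n) = y'' := by
      refine Eventually.of_forall fun n => ⟨_, (h.rim n _ (h.mem n)).mem, rfl⟩
    exact (Ultrafilter.eventually_exists_mem_iff Y.finite_toSet).1 h1
  have hdist : dist (pr (φ w₀)) (pr y'') = ε₂ := by
    have h1 : Tendsto (fun n => dist (pr (F n (z n))) (pr y'')) (𝒰 : Filter ℕ) (𝓝 (dist (pr (φ w₀)) (pr y''))) :=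
      ((continuousAt_pr hφ0).tendsto.comp hlim3).dist tendsto_const_nhds
    have h2 : Tendsto (fun n => dist (pr (F n (z n))) (pr y'')) (𝒰 : Filter ℕ) (𝓝 ε₂) := by
      refine tendsto_const_nhds.congr' ?_
      filter_upwards [hy''2] with n hn
      rw [← hn, hz3 n]
    exact tendsto_nhds_unique h1 h2
  have h3 : y' = y'' := by
    refine hsepY y' hy' y'' hy'' ?_
    have h4 := dist_triangle (pr y') (pr (φ w₀)) (pr y'')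
    rw [dist_comm (pr y') (pr (φ w₀))] at h4
    linarith
  rw [← h3] at hdist
  linarith

theorem pre_small (hG : G.Ok) (hM : G.Met T rho M c₀ C δ g) (hQ : G.QN rho) {Y : Finset (EN N)} (hY : G.Ends Y) : ∃ ε₁ : ℝ, 0 < ε₁ ∧ ∀ ε₂ : ℝ, 0 < ε₂ → ε₂ ≤ ε₁ → ∃ B₀ : ℝ,
    ∀ B₃ B₄ ε K η B₅ : ℝ, B₀ ≤ B₃ → 0 < ε → 20 ≤ K → 0 < η → ∀ q F t s y a ρ d A, G.Pre T rho δ Y B₃ B₄ ε K ε₂ η B₅ q F t s y a ρ d A →
      ∀ (𝒰 : Ultrafilter ℕ), (𝒰 : Filter ℕ) ≤ atTop → ∀ R τ : ℝ, 0 < τ → ∀ᶠ n in (𝒰 : Filter ℕ), ∀ b ∈ t n, ‖b - a n‖ ≤ R * ρ n → s n b ≤ τ * ρ n :=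
  PreB_core hG hY fun _ _ _ hη 𝒰 h𝒰 q F z r h1 h2 h3 h4 h5 h6 => line_limit hG hM hQ hη 𝒰 h𝒰 q F z r h1 h2 h3 h4 h5 h6

end Pool.Agent.SR3

end
end

section

/-!
# SR3 Spd: the speed off the wells

As in `ASpd`: Zalcman's rescaling in the disc of radius `r` gives a limit curve.  Its lifts tend to infinity: if not, at a rescaled point where the lift
stays bounded there is a well of radius `ρ`, whose limit is an affine line (`line_limit`), which has a point with `log < B₀` (`line_low`); so the well is not much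
smaller than `r`, and the speed is bounded at the scale `ρ`, against the choice of the scale of the limit curve.  So the limit curve is in the boundary and it is not
constant, against `h1`.
-/

set_option autoImplicit false

open Topology Filter Metric

noncomputable section

namespace Pool.Agent.SR3

open Pool.Agent.H36.BP (EN fs wd Sub OrdTwo)
open Pool.Agent.H14.PP (IsCone Tan)
open Pool.Agent.SY (Ent)
open Pool.Agent.SDA (EnergyK Near AffOpen Nm nForms)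
open Pool.Agent.H62.EF (MN pr)
open Pool.Agent.G3 (LLift)
open Geo (Gd)

variable {N : ℕ} {G : Geo N} {T : Set (EN N)} {rho : EN N → ℝ} {M : ℕ} {c₀ C δ : ℝ} {g : (ℂ → EN N) → ℂ → ℝ}

/-- the jump and the limit line -/
private theorem Spd_well (hG : G.Ok)
    (hjmp : ∀ B : ℝ, ∃ η R : ℝ, 0 < η ∧ 0 < R ∧ ∀ (q : G.J → ℂ) (F : ℂ → EN N), G.Cl T q F → ∀ z, R ≤ infDist z (Gd rho δ F) → Real.log ‖F z‖ ≤ B →
      ∃ w, ‖w - z‖ ≤ Real.exp (-(η * infDist z (Gd rho δ F))) ∧ B + 1 < Real.log ‖F w‖)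
    (hlim0 : ∀ {B B' η : ℝ} (_ : 0 < η) (𝒰 : Ultrafilter ℕ) (_ : (𝒰 : Filter ℕ) ≤ atTop) (q : ℕ → G.J → ℂ) (F : ℕ → ℂ → EN N) (z : ℕ → ℂ) (r : ℕ → ℝ)
      (_ : ∀ n, G.Cl T (q n) (F n)) (_ : Tendsto (fun n => infDist (z n) (Gd rho δ (F n))) (𝒰 : Filter ℕ) atTop)
      (_ : ∀ᶠ n in (𝒰 : Filter ℕ), 0 < r n ∧ r n ≤ Real.exp (-(η * infDist (z n) (Gd rho δ (F n)))))
      (_ : ∀ᶠ n in (𝒰 : Filter ℕ), ∀ w : ℂ, ‖w‖ ≤ 1 → Real.log ‖F n (z n + r n * w)‖ ≤ B)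
      (_ : ∀ᶠ n in (𝒰 : Filter ℕ), ∃ w : ℂ, ‖w‖ ≤ 1 ∧ Real.log ‖F n (z n + r n * w)‖ ≤ B')
      (_ : ∀ᶠ n in (𝒰 : Filter ℕ), ∃ w : ℂ, ‖w‖ ≤ 1 ∧ B' + 1 ≤ Real.log ‖F n (z n + r n * w)‖),
      ∃ φ : ℂ → EN N, G.Line φ ∧ TendstoLocallyUniformlyOn (fun n w => F n (z n + r n * w)) φ (𝒰 : Filter ℕ) Set.univ)
    {B₀ B₃ : ℝ} (hB₀ : ∀ φ, G.Line φ → ∃ z, Real.log ‖φ z‖ < B₀)
    (hB₃ : B₀ ≤ B₃) (𝒰 : Ultrafilter ℕ) (h𝒰 : (𝒰 : Filter ℕ) ≤ atTop) {q : ℕ → G.J → ℂ} {F : ℕ → ℂ → EN N} (hF : ∀ n, G.Cl T (q n) (F n))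
    {z ζ b : ℕ → ℂ} {r a : ℕ → ℝ} (hr : ∀ n, 0 < r n) (hlow : ∀ n, ∀ w ∈ ball (z n) (r n), B₃ < Real.log ‖F n w‖) (ha : ∀ n, 0 < a n)
    (han : ∀ n : ℕ, a n * ((n : ℝ) + 1) ≤ r n / 8) (hab : ∀ n, a n * fs (F n (b n)) (deriv (F n) (b n)) = 1) {w : ℂ} (hζ : ∀ n, ζ n = a n * w + b n)
    (hζz : ∀ᶠ n in (𝒰 : Filter ℕ), ‖ζ n - z n‖ ≤ r n / 2) (hd : Tendsto (fun n => infDist (ζ n) (Gd rho δ (F n))) (𝒰 : Filter ℕ) atTop) {B : ℝ}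
    (hB : ∀ᶠ n in (𝒰 : Filter ℕ), Real.log ‖F n (ζ n)‖ ≤ B) : False := by
  obtain ⟨η, R₁, hη, hR₁, hjump⟩ := hjmp B
  have h1 : ∀ n, ∃ s : ℝ, R₁ ≤ infDist (ζ n) (Gd rho δ (F n)) → Real.log ‖F n (ζ n)‖ ≤ B →
      (0 < s ∧ s ≤ Real.exp (-(η * infDist (ζ n) (Gd rho δ (F n))))) ∧ (∀ w : ℂ, ‖w‖ ≤ 1 → Real.log ‖F n (ζ n + s * w)‖ ≤ B + 1) ∧
        ∃ w : ℂ, ‖w‖ ≤ 1 ∧ B + 1 ≤ Real.log ‖F n (ζ n + s * w)‖ := fun n => by
    by_cases h : R₁ ≤ infDist (ζ n) (Gd rho δ (F n)) ∧ Real.log ‖F n (ζ n)‖ ≤ B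
    · obtain ⟨s, hs⟩ := Spd_exit (hF n).ent.diff (fun w => ne0 hG ((hF n).ent.mem w)) h.2 (hjump (q n) (F n) (hF n) (ζ n) h.1 h.2)
      exact ⟨s, fun _ _ => hs⟩
    · exact ⟨0, fun h1 h2 => absurd ⟨h1, h2⟩ h⟩
  choose ρ hρ using h1
  have hρ' := (hd.eventually_ge_atTop R₁).and hB
  obtain ⟨φ, hφ, hlim⟩ := hlim0 (B := B + 1) (B' := B) hη 𝒰 h𝒰 q F ζ ρ hF hd
    (hρ'.mono fun n hn => (hρ n hn.1 hn.2).1) (hρ'.mono fun n hn => (hρ n hn.1 hn.2).2.1)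
    (hρ'.mono fun n hn => ⟨0, by rw [norm_zero]; exact zero_le_one, by rw [mul_zero, add_zero]; exact hn.2⟩) (hρ'.mono fun n hn => (hρ n hn.1 hn.2).2.2)
  obtain ⟨z₁, hz₁⟩ := hB₀ φ hφ
  exact Spd_scale hG 𝒰 h𝒰 (fun n => (hF n).ent.diff) hr hlow ha han hab hζ hζz (hρ'.mono fun n hn => (hρ n hn.1 hn.2).1.1) hφ hlim (hz₁.trans_le hB₃)

private theorem Spd_core (hG : G.Ok)
    (hjmp : ∀ B : ℝ, ∃ η R : ℝ, 0 < η ∧ 0 < R ∧ ∀ (q : G.J → ℂ) (F : ℂ → EN N), G.Cl T q F → ∀ z, R ≤ infDist z (Gd rho δ F) → Real.log ‖F z‖ ≤ B →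
      ∃ w, ‖w - z‖ ≤ Real.exp (-(η * infDist z (Gd rho δ F))) ∧ B + 1 < Real.log ‖F w‖)
    (hlim0 : ∀ {B B' η : ℝ} (_ : 0 < η) (𝒰 : Ultrafilter ℕ) (_ : (𝒰 : Filter ℕ) ≤ atTop) (q : ℕ → G.J → ℂ) (F : ℕ → ℂ → EN N) (z : ℕ → ℂ) (r : ℕ → ℝ)
      (_ : ∀ n, G.Cl T (q n) (F n)) (_ : Tendsto (fun n => infDist (z n) (Gd rho δ (F n))) (𝒰 : Filter ℕ) atTop)
      (_ : ∀ᶠ n in (𝒰 : Filter ℕ), 0 < r n ∧ r n ≤ Real.exp (-(η * infDist (z n) (Gd rho δ (F n)))))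
      (_ : ∀ᶠ n in (𝒰 : Filter ℕ), ∀ w : ℂ, ‖w‖ ≤ 1 → Real.log ‖F n (z n + r n * w)‖ ≤ B)
      (_ : ∀ᶠ n in (𝒰 : Filter ℕ), ∃ w : ℂ, ‖w‖ ≤ 1 ∧ Real.log ‖F n (z n + r n * w)‖ ≤ B')
      (_ : ∀ᶠ n in (𝒰 : Filter ℕ), ∃ w : ℂ, ‖w‖ ≤ 1 ∧ B' + 1 ≤ Real.log ‖F n (z n + r n * w)‖),
      ∃ φ : ℂ → EN N, G.Line φ ∧ TendstoLocallyUniformlyOn (fun n w => F n (z n + r n * w)) φ (𝒰 : Filter ℕ) Set.univ)
    (hlow0 : ∃ B₀ : ℝ, ∀ φ, G.Line φ → ∃ z, Real.log ‖φ z‖ < B₀) : ∃ B₀ : ℝ, ∀ B₃ : ℝ, B₀ ≤ B₃ → ∃ B R : ℝ, 0 < B ∧ 0 < R ∧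
    ∀ (q : G.J → ℂ) (F : ℂ → EN N), G.Cl T q F → ∀ (z : ℂ) (r : ℝ), R ≤ infDist z (Gd rho δ F) → 0 < r → r ≤ infDist z (Gd rho δ F) →
      (∀ w ∈ ball z r, B₃ < Real.log ‖F w‖) → fs (F z) (deriv F z) ≤ B / r := by
  obtain ⟨B₀, hB₀⟩ := hlow0
  refine ⟨B₀, fun B₃ hB₃ => ?_⟩
  by_contra hcon
  push Not at hcon
  have h1 : ∀ k : ℕ, ∃ (q : G.J → ℂ) (F : ℂ → EN N) (z : ℂ) (r : ℝ), G.Cl T q F ∧ (k : ℝ) + 1 ≤ infDist z (Gd rho δ F) ∧ 0 < r ∧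
      r ≤ infDist z (Gd rho δ F) ∧ (∀ w ∈ ball z r, B₃ < Real.log ‖F w‖) ∧ 32 * ((k : ℝ) + 1) / r < fs (F z) (deriv F z) := fun k => by
    have hk1 : (0 : ℝ) < (k : ℝ) + 1 := Nat.cast_add_one_pos k
    obtain ⟨q, F, hF, z, r, h2, h3, h4, h5, h6⟩ := hcon (32 * ((k : ℝ) + 1)) ((k : ℝ) + 1) (mul_pos (by norm_num) hk1) hk1
    exact ⟨q, F, z, r, hF, h2, h3, h4, h5, h6⟩
  choose q F z r hF hz hr hrd hlow hfs using h1
  refine Spd_blow (z := z) hG (fun k => (hF k).ent) (fun k => (hF k).nm) hr (fun k => ?_) (hyperfilter ℕ) Nat.hyperfilter_le_atTop fun a b ha hb hak hab w B => ?_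
  · have h3 := hfs k
    rw [div_lt_iff₀ (hr k)] at h3
    linarith
  · by_contra hcon2
    rw [← Ultrafilter.eventually_not] at hcon2
    obtain ⟨h6, h7⟩ := Spd_dist (w := w) ha hr hz hrd hb hak Nat.hyperfilter_le_atTop
    refine Spd_well hG hjmp hlim0 hB₀ hB₃ (hyperfilter ℕ) Nat.hyperfilter_le_atTop hF (ζ := fun k => (a k : ℂ) * w + b k) hr hlow ha (fun k => ?_) hab
      (fun _ => rfl) h6 h7 (B := Real.log (max B 1)) (hcon2.mono fun k hk => ?_)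
    · have := hak k
      linarith
    · exact Real.log_le_log (norm_pos_iff.2 (ne0 hG ((hF k).ent.mem _))) ((not_le.1 hk).le.trans (le_max_left _ _))

theorem speedW (hG : G.Ok) (hM : G.Met T rho M c₀ C δ g) (hQ : G.QN rho) {Y : Finset (EN N)} (hY : G.Ends Y) : ∃ B₀ : ℝ, ∀ B₃ : ℝ, B₀ ≤ B₃ → ∃ B R : ℝ, 0 < B ∧ 0 < R ∧
    ∀ (q : G.J → ℂ) (F : ℂ → EN N), G.Cl T q F → ∀ (z : ℂ) (r : ℝ), R ≤ infDist z (Gd rho δ F) → 0 < r → r ≤ infDist z (Gd rho δ F) →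
      (∀ w ∈ ball z r, B₃ < Real.log ‖F w‖) → fs (F z) (deriv F z) ≤ B / r :=
  Spd_core hG (fun B => jump ⟨hG, hM, hQ⟩ B) (fun hη => line_limit hG hM hQ hη) (line_low hG hY)

end Pool.Agent.SR3

end
end
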