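import Pool.Agent.H43.TL2.M152
import Pool.Agent.H43.TL2.M153
import Pool.Agent.H43.TL2.M177
import Pool.Agent.H43.TL2.M180
import Pool.Agent.H43.TL2.SR3.LimB

/-! The parts of this file: SR3.LimC, SR3.LimD, SR3.ResF. -/

section

/-!
# SR3 LimC: a limit which meets a crossing is constant

If `f z₁ = pr x` with `E j x = 0` and the local equation of the component `j` is not identically zero on the lift near `z₁`, then it has an isolated zero there,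
so the winding number of the limit on a small circle is positive (`circle_zero`); the curves `Γ n` have the same winding number (`circle_close`, the circle avoids
the holes), but it is the sum of the winding numbers of the rims, which are nonpositive (`circle_sum`, `Rim.wind`).  So both components contain the limit near
`z₁`: `lim_two`.
-/

set_option autoImplicit false

open Topology Filter Metric

noncomputable section

namespace Pool.Agent.SR3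

open Pool.Agent.H36.BP (EN fs wd Sub OrdTwo)
open Pool.Agent.H62.EF (MN pr nm_close near_of_pr)
open Pool.Agent.G3 (LLift)

variable {N : ℕ} {G : Geo N}

/-- the local equation is almost constant near the points of a compact part of a curve, uniformly -/
theorem eqf_unif (hG : G.Ok) {v : EN N} {j : G.ι} {l : Fin (G.M + 1)} {Φ : ℂ → EN N} {A : Set ℂ} (hA : IsCompact A)
    (h : ∀ z ∈ A, ContinuousAt Φ z ∧ Φ z ≠ 0 ∧ eqf (G := G) v j l (Φ z) ≠ 0 ∧ (inner ℂ v (Φ z) : ℂ) ≠ 0) :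
    ∃ δ : ℝ, 0 < δ ∧ ∀ z ∈ A, ∀ x : EN N, x ≠ 0 → dist (pr x) (pr (Φ z)) < δ →
      ‖eqf (G := G) v j l x - eqf (G := G) v j l (Φ z)‖ < ‖eqf (G := G) v j l (Φ z)‖ := by
  refine hA.induction_on (p := fun S => ∃ δ : ℝ, 0 < δ ∧ ∀ z ∈ S, ∀ x : EN N, x ≠ 0 → dist (pr x) (pr (Φ z)) < δ →
    ‖eqf (G := G) v j l x - eqf (G := G) v j l (Φ z)‖ < ‖eqf (G := G) v j l (Φ z)‖) ?_ ?_ ?_ ?_
  · exact ⟨1, one_pos, fun z hz => absurd hz (Set.notMem_empty z)⟩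
  · rintro S S' hSS ⟨δ, hδ, h1⟩
    exact ⟨δ, hδ, fun z hz => h1 z (hSS hz)⟩
  · rintro S S' ⟨δ, hδ, h1⟩ ⟨δ', hδ', h2⟩
    refine ⟨min δ δ', lt_min hδ hδ', fun z hz x hx hd => ?_⟩
    rcases hz with hz | hz
    · exact h1 z hz x hx (hd.trans_le (min_le_left _ _))
    · exact h2 z hz x hx (hd.trans_le (min_le_right _ _))
  · intro z₀ hz₀
    obtain ⟨hc, h0, he, hv⟩ := h z₀ hz₀
    obtain ⟨e₀, he₀⟩ : ∃ e₀ : ℂ, e₀ = eqf (G := G) v j l (Φ z₀) := ⟨_, rfl⟩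
    have hn0 : 0 < ‖e₀‖ := by
      rw [he₀]
      exact norm_pos_iff.2 he
    have hcc : ContinuousAt (fun x => ‖eqf (G := G) v j l x - e₀‖) (Φ z₀) := ((analyticAt_eqf hG j l hv).continuousAt.sub continuousAt_const).norm
    have h1 : {x : EN N | ‖eqf (G := G) v j l x - e₀‖ < ‖e₀‖ / 4} ∈ 𝓝 (Φ z₀) := by
      refine hcc.eventually_lt continuousAt_const ?_
      rw [← he₀, sub_self, norm_zero]
      positivity
    obtain ⟨δ, hδ, h2⟩ := near_of_pr h0 h1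
    have h3 : ∀ᶠ z in 𝓝 z₀, ‖eqf (G := G) v j l (Φ z) - e₀‖ < ‖e₀‖ / 4 := hc.eventually h1
    have h4 : ContinuousAt (fun z => pr (Φ z)) z₀ := ContinuousAt.comp (f := Φ) (g := pr) (Pool.Agent.H62.EF.continuousAt_pr h0) hc
    have h5 : ∀ᶠ z in 𝓝 z₀, dist (pr (Φ z)) (pr (Φ z₀)) < δ / 2 := h4.eventually (ball_mem_nhds _ (by positivity))
    refine ⟨{z | ‖eqf (G := G) v j l (Φ z) - e₀‖ < ‖e₀‖ / 4 ∧ dist (pr (Φ z)) (pr (Φ z₀)) < δ / 2}, mem_nhdsWithin_of_mem_nhds (h3.and h5), δ / 2,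
      by positivity, ?_⟩
    rintro z ⟨h6, h7⟩ x hx hd
    obtain ⟨c, hc0, h8⟩ := h2 x hx (by
      have := dist_triangle (pr x) (pr (Φ z)) (pr (Φ z₀))
      linarith)
    rw [Set.mem_ofPred_eq, eqf_smul hG v j l x hc0] at h8
    have h9 : ‖eqf (G := G) v j l x - eqf (G := G) v j l (Φ z)‖ ≤ ‖eqf (G := G) v j l x - e₀‖ + ‖eqf (G := G) v j l (Φ z) - e₀‖ := by
      have h10 := norm_sub_le (eqf (G := G) v j l x - e₀) (eqf (G := G) v j l (Φ z) - e₀)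
      rwa [sub_sub_sub_cancel_right] at h10
    have h11 : ‖e₀‖ ≤ ‖eqf (G := G) v j l (Φ z)‖ + ‖eqf (G := G) v j l (Φ z) - e₀‖ := by
      have h12 := norm_sub_le (eqf (G := G) v j l (Φ z)) (eqf (G := G) v j l (Φ z) - e₀)
      rwa [sub_sub_cancel] at h12
    linarith

/-- the winding numbers of the limit and of the rims -/
theorem LimC_core (hG : G.Ok) {Y : Finset (EN N)} {B₃ B₄ ε K ε₂ : ℝ} (hK : 20 ≤ K) {𝒰 : Ultrafilter ℕ} {U : Set ℂ} {Γ : ℕ → ℂ → EN N} {t : ℕ → Finset ℂ}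
    {s : ℕ → ℂ → ℝ} {y : ℕ → ℂ → EN N} (hL : G.Loc Y B₃ B₄ ε K ε₂ 𝒰 U Γ t s y) {f : ℂ → MN N} (hf : Geo.LimOf 𝒰 U Γ t s f) {z₁ : ℂ} (hz₁ : z₁ ∈ U)
    {Φ : ℂ → EN N} (hΦ : AnalyticAt ℂ Φ z₁) (hΦe : ∀ᶠ w in 𝓝 z₁, Φ w ≠ 0 ∧ f w = pr (Φ w)) {j : G.ι} {l : Fin (G.M + 1)} {v : EN N}
    (hv : (inner ℂ v (Φ z₁) : ℂ) ≠ 0) (h0 : (G.E j (Φ z₁)).ofLp l = 0) (hne : ∀ᶠ z in 𝓝[≠] z₁, (G.E j (Φ z)).ofLp l ≠ 0) {r₁ : ℝ} (hr₁ : 0 < r₁)
    (hst : ∀ᶠ n in (𝒰 : Filter ℕ), (∀ w ∈ ball z₁ r₁, Off (t n) (s n) w → (G.E j (Γ n w)).ofLp l ≠ 0 ∧ (inner ℂ v (Γ n w) : ℂ) ≠ 0) ∧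
      ∀ b ∈ t n, ‖b - z₁‖ < r₁ → ∃ k : ℕ,
        (∮ ζ in C(b, s n b), (logDeriv (fun ζ => (G.E j (Γ n ζ)).ofLp l) ζ - G.c j * logDeriv (fun ζ => (inner ℂ v (Γ n ζ) : ℂ)) ζ)) =
          -(2 * Real.pi * Complex.I * k)) : False := by
  have hX0 : ∀ x ∈ G.X, x ≠ 0 := fun x hx h => hG.cone.zero_notMem (h ▸ hx)
  have hKX : ∀ x ∈ G.K, x ∈ G.X := fun x hx => ((hG.aff.mem x).1 hx).1
  -- a closed disc for the lift
  have h1 : ∀ᶠ z in 𝓝 z₁, AnalyticAt ℂ Φ z := hΦ.eventually_analyticAt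
  have h2 : ∀ᶠ z in 𝓝 z₁, (inner ℂ v (Φ z) : ℂ) ≠ 0 := by
    have h3 : ContinuousAt (fun z => (inner ℂ v (Φ z) : ℂ)) z₁ := (((innerSL ℂ v).analyticAt (Φ z₁)).comp hΦ).continuousAt
    exact h3.eventually_ne hv
  have h3 : ∀ᶠ z in 𝓝 z₁, z ≠ z₁ → (G.E j (Φ z)).ofLp l ≠ 0 := eventually_nhdsWithin_iff.1 hne
  obtain ⟨r₂, hr₂, h4⟩ := Metric.eventually_nhds_iff.1 (((h1.and h2).and (h3.and hΦe)).and (hL.opn.mem_nhds hz₁))
  obtain ⟨R₀, hR₀, hcirc⟩ := loc_circle hL hz₁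
  obtain ⟨r, hrdef⟩ : ∃ r : ℝ, r = min (r₂ / 2) (min R₀ (r₁ / 2)) := ⟨_, rfl⟩
  have hr : 0 < r := by
    rw [hrdef]
    positivity
  have hrr₂ : r < r₂ := by
    have : r ≤ r₂ / 2 := by
      rw [hrdef]
      exact min_le_left _ _
    linarith
  have hrR : r ≤ R₀ := by
    rw [hrdef]
    exact (min_le_right _ _).trans (min_le_left _ _)
  have hrr₁ : r < r₁ := by
    have : r ≤ r₁ / 2 := by
      rw [hrdef]
      exact (min_le_right _ _).trans (min_le_right _ _)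
    linarith
  have hin : ∀ z, ‖z - z₁‖ ≤ r → ((AnalyticAt ℂ Φ z ∧ (inner ℂ v (Φ z) : ℂ) ≠ 0) ∧ ((z ≠ z₁ → (G.E j (Φ z)).ofLp l ≠ 0) ∧ (Φ z ≠ 0 ∧ f z = pr (Φ z)))) ∧ z ∈ U :=
    fun z hz => h4 (by rw [dist_eq_norm]; linarith)
  -- the local equation of the lift
  have hq : ∀ z, ‖z - z₁‖ ≤ r → AnalyticAt ℂ (fun z => eqf (G := G) v j l (Φ z)) z := fun z hz =>
    (analyticAt_eqf hG j l (hin z hz).1.1.2).comp (hin z hz).1.1.1
  have hq0 : eqf (G := G) v j l (Φ z₁) = 0 := by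
    unfold eqf
    rw [h0, zero_div]
  have hq1 : ∀ z, ‖z - z₁‖ ≤ r → z ≠ z₁ → eqf (G := G) v j l (Φ z) ≠ 0 := fun z hz hzz =>
    div_ne_zero ((hin z hz).1.2.1 hzz) (pow_ne_zero _ (hin z hz).1.1.2)
  -- uniformly on the annulus
  have hA : IsCompact (closedBall z₁ r \ ball z₁ (r / 2)) := (isCompact_closedBall z₁ r).diff isOpen_ball
  obtain ⟨δ, hδ, h5⟩ := eqf_unif hG (v := v) (j := j) (l := l) (Φ := Φ) hA (fun z hz => by
    have h6 : ‖z - z₁‖ ≤ r := mem_closedBall_iff_norm.1 hz.1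
    have h7 : z ≠ z₁ := by
      rintro rfl
      exact hz.2 (mem_ball_self (by positivity))
    exact ⟨(hin z h6).1.1.1.continuousAt, (hin z h6).1.2.2.1, hq1 z h6 h7, (hin z h6).1.1.2⟩)
  have hsub : closedBall z₁ r ⊆ U := fun z hz => (hin z (mem_closedBall_iff_norm.1 hz)).2
  obtain ⟨n, h6, ⟨h7, h8⟩, ρ, hρ1, hρ2, h9, h10, h11, h12⟩ :=
    ((hf.lim _ hsub (isCompact_closedBall _ _) δ hδ).and (hst.and (hcirc r hr hrR))).exists
  have hρ : 0 < ρ := by linarith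
  obtain ⟨hΓ, hΓK, -⟩ := hL.crv n
  have hΓ0 : ∀ z, Γ n z ≠ 0 := fun z => hX0 _ (hKX _ (hΓK z))
  have hsph : ∀ ζ ∈ sphere z₁ ρ, ‖ζ - z₁‖ = ρ := fun ζ hζ => mem_sphere_iff_norm.1 hζ
  have hoff : ∀ ζ ∈ closedBall z₁ ρ, Off (t n) (s n) ζ → (G.E j (Γ n ζ)).ofLp l ≠ 0 ∧ (inner ℂ v (Γ n ζ) : ℂ) ≠ 0 := by
    intro ζ hζ ho
    refine h7 ζ ?_ ho
    rw [mem_ball]
    rw [mem_closedBall] at hζ
    linarith
  have hoffs : ∀ ζ ∈ sphere z₁ ρ, (G.E j (Γ n ζ)).ofLp l ≠ 0 ∧ (inner ℂ v (Γ n ζ) : ℂ) ≠ 0 := fun ζ hζ =>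
    hoff ζ (sphere_subset_closedBall hζ) (h12 ζ (hsph ζ hζ))
  -- the winding number of the limit
  obtain ⟨k, hk1, hk2⟩ := circle_zero (f := fun z => eqf (G := G) v j l (Φ z)) (w := z₁) hρ
    (fun z hz => hq z ((mem_closedBall_iff_norm.1 hz).trans hρ2.le)) hq0 (fun z hz hzz => hq1 z ((mem_closedBall_iff_norm.1 hz).trans hρ2.le) hzz)
  have h13 : (∮ ζ in C(z₁, ρ), logDeriv (fun ζ => eqf (G := G) v j l (Γ n ζ)) ζ) = ∮ ζ in C(z₁, ρ), logDeriv (fun ζ => eqf (G := G) v j l (Φ ζ)) ζ := by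
    refine circle_close hρ (fun ζ hζ => (logDeriv_eqf hG hΓ j l (hoffs ζ hζ).1 (hoffs ζ hζ).2).1) (fun ζ hζ => hq ζ (by rw [hsph ζ hζ]; exact hρ2.le)) ?_
    intro ζ hζ
    have h14 : ‖ζ - z₁‖ ≤ r := by
      rw [hsph ζ hζ]
      exact hρ2.le
    have h15 := h6 ζ (mem_closedBall_iff_norm.2 h14) (h9 ζ (hsph ζ hζ))
    rw [(hin ζ h14).1.2.2.2] at h15
    refine h5 ζ ⟨mem_closedBall_iff_norm.2 h14, fun h16 => ?_⟩ (Γ n ζ) (hΓ0 ζ) h15
    rw [mem_ball_iff_norm, hsph ζ hζ] at h16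
    linarith
  have hI : (∮ ζ in C(z₁, ρ), (logDeriv (fun ζ => (G.E j (Γ n ζ)).ofLp l) ζ - G.c j * logDeriv (fun ζ => (inner ℂ v (Γ n ζ) : ℂ)) ζ)) =
      2 * Real.pi * Complex.I * k := by
    rw [← hk2, ← h13]
    refine circleIntegral.integral_congr hρ.le fun ζ hζ => ?_
    exact (logDeriv_eqf hG hΓ j l (hoffs ζ hζ).1 (hoffs ζ hζ).2).2.symm
  -- the winding numbers of the rims
  have hsum := circle_sum (f := fun ζ => logDeriv (fun ζ => (G.E j (Γ n ζ)).ofLp l) ζ - G.c j * logDeriv (fun ζ => (inner ℂ v (Γ n ζ) : ℂ)) ζ) (w := z₁) hρ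
    ((t n).filter (fun a => ‖a - z₁‖ < ρ)) (s n) (fun a ha => hL.pos n a (Finset.mem_filter.1 ha).1)
    (fun a ha b hb hab => by
      have h10 := hL.sep n a (Finset.mem_filter.1 ha).1 b (Finset.mem_filter.1 hb).1 hab
      have h11 : 0 < max (s n a) (s n b) := lt_max_of_lt_left (hL.pos n a (Finset.mem_filter.1 ha).1)
      nlinarith)
    (fun a ha => h10 a (Finset.mem_filter.1 ha).1 (Finset.mem_filter.1 ha).2)
    (fun ζ hζ ho => diff_lf hG hΓ j l (hoff ζ hζ (h11 ζ hζ ho)).1 (hoff ζ hζ (h11 ζ hζ ho)).2)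
  rw [hI] at hsum
  have hk : ∀ a ∈ (t n).filter (fun a => ‖a - z₁‖ < ρ), ∃ k : ℕ,
      (∮ ζ in C(a, s n a), (logDeriv (fun ζ => (G.E j (Γ n ζ)).ofLp l) ζ - G.c j * logDeriv (fun ζ => (inner ℂ v (Γ n ζ) : ℂ)) ζ)) = -(2 * Real.pi * Complex.I * k) := by
    intro a ha
    obtain ⟨ha1, ha2⟩ := Finset.mem_filter.1 ha
    exact h8 a ha1 (by linarith)
  choose! k' hk' using hk
  rw [Finset.sum_congr rfl hk', Finset.sum_neg_distrib, ← Finset.mul_sum] at hsum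
  have h14 : (2 * Real.pi * Complex.I * ((k + ∑ a ∈ (t n).filter (fun a => ‖a - z₁‖ < ρ), k' a : ℕ) : ℂ)) = 0 := by
    push_cast
    rw [mul_add, hsum]
    ring
  have h15 : (2 * Real.pi * Complex.I : ℂ) ≠ 0 := by
    simp [Real.pi_ne_zero]
  rcases mul_eq_zero.1 h14 with h16 | h16
  · exact h15 h16
  · have : (k + ∑ a ∈ (t n).filter (fun a => ‖a - z₁‖ < ρ), k' a) = 0 := by exact_mod_cast h16
    omega

/-- a radius for the local equations at the crossings -/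
theorem exists_crsEps (hB : G.Bdry) : ∃ ε₁ : ℝ, 0 < ε₁ ∧ ∀ i i', i ≠ i' → ∀ x ∈ G.X, x ∉ G.K → G.E i x = 0 → G.E i' x = 0 → ∃ l, G.LocEq (4 * ε₁) x i l := by
  have hev : ∀ d : ℝ, 0 < d → ∀ᶠ ε in 𝓝[>] (0 : ℝ), 4 * ε ≤ d := by
    intro d hd
    filter_upwards [Ioo_mem_nhdsGT (show (0 : ℝ) < d / 4 by positivity)] with ε hε
    have := hε.2
    linarith
  have h1 : ∀ᶠ ε in 𝓝[>] (0 : ℝ), ∀ i i', i ≠ i' → ∀ x ∈ G.X, x ∉ G.K → G.E i x = 0 → G.E i' x = 0 → ∃ l, G.LocEq (4 * ε) x i l := by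
    refine Filter.eventually_all.2 fun i => Filter.eventually_all.2 fun i' => ?_
    by_cases h : i = i'
    · exact Eventually.of_forall fun ε hn => absurd h hn
    · have h5 : ∀ᶠ ε in 𝓝[>] (0 : ℝ), ∀ P ∈ {P : MN N | ∃ y ∈ G.X, y ∉ G.K ∧ G.E i y = 0 ∧ G.E i' y = 0 ∧ P = pr y},
          ∃ (l : Fin (G.M + 1)) (c : ℝ), 0 < c ∧ ∀ x ∈ G.X, dist (pr x) P < 4 * ε → c * ‖G.E i x‖ ≤ ‖(G.E i x).ofLp l‖ := by
        refine (Filter.eventually_all_finite (hB.two i i' h)).2 ?_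
        rintro P ⟨y, hy, hyK, hyi, -, rfl⟩
        obtain ⟨l, r, c, hr, hc, h3⟩ := hB.loc y hy hyK i hyi
        filter_upwards [hev _ hr] with ε hε
        exact ⟨l, c, hc, fun x hx hd => h3 x hx (hd.trans_le hε)⟩
      filter_upwards [h5] with ε hε _ x hx hxK hi hi'
      obtain ⟨l, c, hc, h6⟩ := hε (pr x) ⟨x, hx, hxK, hi, hi', rfl⟩
      exact ⟨l, c, hc, h6⟩
  obtain ⟨ε, h2, h3⟩ := (h1.and self_mem_nhdsWithin).exists
  exact ⟨ε, h3, h2⟩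

theorem lim_cross (hG : G.Ok) (hB : G.Bdry) {Y : Finset (EN N)} (hY : G.Ends Y) : ∃ ε₁ : ℝ, 0 < ε₁ ∧ ∀ B₃ B₄ ε K ε₂ : ℝ, 20 ≤ K → 0 < ε → 2 * ε ≤ ε₂ →
    ε₂ ≤ ε₁ → ∀ 𝒰 U Γ t s y, G.Loc Y B₃ B₄ ε K ε₂ 𝒰 U Γ t s y → ∀ f, Geo.LimOf 𝒰 U Γ t s f →
    (∀ z ∈ U, ∀ x : EN N, x ≠ 0 → f z = pr x → x ∈ G.X ∧ x ∉ G.K) → ∀ z₁ ∈ U, ∀ (x : EN N) (i i' : G.ι), x ≠ 0 → f z₁ = pr x → i ≠ i' → G.E i x = 0 →
      G.E i' x = 0 → ∀ z ∈ U, f z = f z₁ := by
  obtain ⟨ε₀, hE⟩ := exists_limEps hG hB hY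
  obtain ⟨ε₃, hε₃, hC⟩ := exists_crsEps hB
  refine ⟨min ε₀ ε₃, lt_min hE.pos hε₃, fun B₃ B₄ ε K ε₂ hK hε h2 h1 𝒰 U Γ t s y hL f hf hbd z₁ hz₁ x i i' hx hfx hii hi hi' => ?_⟩
  have h1a : ε₂ ≤ ε₀ := h1.trans (min_le_left _ _)
  have h1b : ε₂ ≤ ε₃ := h1.trans (min_le_right _ _)
  have hX0 : ∀ x ∈ G.X, x ≠ 0 := fun x hx h => hG.cone.zero_notMem (h ▸ hx)
  have hKX : ∀ x ∈ G.K, x ∈ G.X := fun x hx => ((hG.aff.mem x).1 hx).1
  have hε₂ : 0 < ε₂ := by linarith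
  -- the lift at `z₁`
  obtain ⟨Φ, hΦ, hΦe⟩ := hf.lift z₁ hz₁
  obtain ⟨hx₁, hfx₁⟩ := hΦe.self_of_nhds
  set x₁ := Φ z₁ with hx₁def
  obtain ⟨hx₁X, hx₁K⟩ := hbd z₁ hz₁ x₁ hx₁ hfx₁
  obtain ⟨c₁, hc₁, hxc⟩ := (Pool.Agent.H62.EF.pr_eq_iff hx₁ hx).1 (hfx₁.symm.trans hfx)
  have hzero : ∀ j, G.E j x = 0 → G.E j x₁ = 0 := fun j hj => by rw [hxc, hG.smulE, hj, smul_zero]
  have hfc : ContinuousAt f z₁ := LLift.continuousAt (hf.lift z₁ hz₁)
  -- the lift is in `X`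
  have hΦX : ∀ᶠ z in 𝓝 z₁, Φ z ∈ G.X := by
    filter_upwards [hΦe, hL.opn.mem_nhds hz₁] with z h3 h4
    exact (hbd z h4 (Φ z) h3.1 h3.2).1
  -- the component `j` contains the limit near `z₁`
  have key : ∀ j j' : G.ι, j ≠ j' → G.E j x₁ = 0 → G.E j' x₁ = 0 → ∀ᶠ z in 𝓝 z₁, G.E j (Φ z) = 0 := by
    intro j j' hjj hj hj'
    obtain ⟨l, c, hc, hle⟩ := hC j j' hjj x₁ hx₁X hx₁K hj hj'
    have hnum : ∀ x ∈ G.X, G.E j x ≠ 0 → dist (pr x) (pr x₁) < 4 * ε₃ → (G.E j x).ofLp l ≠ 0 := by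
      intro x hx h0 hd h3
      have h4 := hle x hx hd
      rw [h3, norm_zero] at h4
      have h5 : 0 < c * ‖G.E j x‖ := mul_pos hc (norm_pos_iff.2 h0)
      linarith
    have han : AnalyticAt ℂ (fun z => (G.E j (Φ z)).ofLp l) z₁ := (analyticAt_numE hG j l (Φ z₁)).comp hΦ
    have hnear : ∀ᶠ z in 𝓝 z₁, dist (pr (Φ z)) (pr x₁) < 4 * ε₃ := by
      have h3 : ∀ᶠ z in 𝓝 z₁, dist (f z) (f z₁) < 4 * ε₃ := hfc.eventually (ball_mem_nhds _ (by positivity))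
      filter_upwards [h3, hΦe] with z h4 h5
      rw [h5.2, hfx₁] at h4
      exact h4
    rcases han.eventually_eq_zero_or_eventually_ne_zero with hz | hne
    · filter_upwards [hz, hΦX, hnear] with z h3 h4 h5
      by_contra h6
      exact hnum _ h4 h6 h5 h3
    · exfalso
      have h00 : (G.E j (Φ z₁)).ofLp l = 0 := by
        rw [← hx₁def, hj]
        rfl
      obtain ⟨r₁, hr₁, hloc⟩ := hL.loc z₁ hz₁
      -- the two cases
      have hcase : (∃ v ∈ Y, ∀ᶠ n in (𝒰 : Filter ℕ), ∀ w ∈ ball z₁ r₁, Off (t n) (s n) w → dist (pr (Γ n w)) (pr v) < ε₂) ∨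
          ∀ᶠ n in (𝒰 : Filter ℕ), (∀ a ∈ t n, r₁ ≤ ‖a - z₁‖) ∧ ∀ w ∈ ball z₁ r₁, fs (Γ n w) (deriv (Γ n) w) ≤ 1 / r₁ := by
        rcases Ultrafilter.eventually_or.1 hloc with h3 | h3
        · left
          have h4 : ∀ᶠ n in (𝒰 : Filter ℕ), ∃ v ∈ (Y : Set (EN N)), ∀ w ∈ ball z₁ r₁, Off (t n) (s n) w → dist (pr (Γ n w)) (pr v) < ε₂ := by
            filter_upwards [h3] with n h5
            obtain ⟨a, ha, h6⟩ := h5
            exact ⟨y n a, (hL.rim n a ha).mem, h6⟩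
          exact (Ultrafilter.eventually_exists_mem_iff Y.finite_toSet).1 h4
        · exact Or.inr h3
      obtain ⟨R₀, hR₀, hcirc⟩ := loc_circle hL hz₁
      obtain ⟨r₂, hr₂, hr₂U⟩ := Metric.isOpen_iff.1 hL.opn z₁ hz₁
      rcases hcase with ⟨v, hvY, h3⟩ | h3
      · -- near an end
        have hst : ∀ᶠ n in (𝒰 : Filter ℕ), ∀ b ∈ t n, ‖b - z₁‖ < r₁ / 2 → y n b = v := by
          filter_upwards [h3, hL.tiny_at z₁ r₁ (r₁ / 4) (by positivity)] with n h6 h5 b hb hbr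
          refine end_eq hE hK h2 h1a (hL.pos n) (hL.sep n) (hL.rim n) hvY h6 hb ?_
          have := h5 b hb (by linarith)
          linarith
        -- `f z₁` is near `v`
        have hnv : dist (pr x₁) (pr v) < 2 * ε₂ := by
          obtain ⟨r₃, hr₃, h4⟩ := Metric.continuousAt_iff.1 hfc (ε₂ / 2) (by positivity)
          obtain ⟨r, hrdef⟩ : ∃ r : ℝ, r = min (min (r₃ / 2) (r₂ / 2)) (min R₀ (r₁ / 2)) := ⟨_, rfl⟩
          have hr : 0 < r := by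
            rw [hrdef]
            positivity
          have hrr₃ : r ≤ r₃ / 2 := by
            rw [hrdef]
            exact (min_le_left _ _).trans (min_le_left _ _)
          have hrr₂ : r ≤ r₂ / 2 := by
            rw [hrdef]
            exact (min_le_left _ _).trans (min_le_right _ _)
          have hrR : r ≤ R₀ := by
            rw [hrdef]
            exact (min_le_right _ _).trans (min_le_left _ _)
          have hrr₁ : r ≤ r₁ / 2 := by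
            rw [hrdef]
            exact (min_le_right _ _).trans (min_le_right _ _)
          have hsub : closedBall z₁ r ⊆ U := by
            intro z hz
            refine hr₂U ?_
            rw [mem_closedBall] at hz
            rw [mem_ball]
            linarith
          obtain ⟨n, h5, h6, ρ, hρ1, hρ2, h7, -, -, h8⟩ :=
            ((hf.lim _ hsub (isCompact_closedBall _ _) (ε₂ / 2) (by positivity)).and (h3.and (hcirc r hr hrR))).exists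
          have hρ : 0 < ρ := by linarith
          have h9 : ‖(z₁ + ρ) - z₁‖ = ρ := by rw [add_sub_cancel_left, Complex.norm_real, Real.norm_of_nonneg hρ.le]
          have h10 := h5 (z₁ + ρ) (mem_closedBall_iff_norm.2 (by rw [h9]; exact hρ2.le)) (h7 _ h9)
          have h11 := h6 (z₁ + ρ) (by rw [mem_ball_iff_norm, h9]; linarith) (h8 _ h9)
          have h12 : dist (f (z₁ + ρ)) (f z₁) < ε₂ / 2 := h4 (by rw [dist_eq_norm, h9]; linarith)
          rw [hfx₁] at h12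
          have h13 : dist (pr x₁) (pr v) ≤ dist (pr (Γ n (z₁ + ρ))) (pr x₁) + dist (pr (Γ n (z₁ + ρ))) (pr v) := dist_triangle_left _ _ _
          have h14 := dist_triangle (pr (Γ n (z₁ + ρ))) (f (z₁ + ρ)) (pr x₁)
          linarith
        have hinn : (inner ℂ v x₁ : ℂ) ≠ 0 := hE.inn v hvY x₁ hx₁ (by linarith)
        refine LimC_core hG hK hL hf hz₁ hΦ hΦe hinn h00 hne (r₁ := r₁ / 2) (by positivity) ?_
        filter_upwards [h3, hst] with n h6 h7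
        obtain ⟨hΓ, hΓK, -⟩ := hL.crv n
        refine ⟨fun w hw ho => ?_, fun b hb hbr => ?_⟩
        · have hw' : w ∈ ball z₁ r₁ := by
            rw [mem_ball] at hw ⊢
            linarith
          have hd := h6 w hw' ho
          have hd2 : dist (pr (Γ n w)) (pr x₁) < 4 * ε₃ := by
            have := dist_triangle_right (pr (Γ n w)) (pr x₁) (pr v)
            linarith
          exact ⟨hnum _ (hKX _ (hΓK w)) (hG.neE j _ (hΓK w)) hd2, hE.inn v hvY _ (hX0 _ (hKX _ (hΓK w))) (by linarith [hE.pos])⟩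
        · have hyb := h7 b hb hbr
          have hloc2 : G.LocEq ε v j l := ⟨c, hc, fun x hx hd => hle x hx (by
            have := dist_triangle_right (pr x) (pr x₁) (pr v)
            linarith)⟩
          obtain ⟨k, -, -, hk2⟩ := (hL.rim n b hb).wind j l (by rw [hyb]; exact hloc2)
          rw [hyb] at hk2
          exact ⟨k, by rw [wnd_circle]; exact hk2 1 le_rfl (by norm_num)⟩
      · -- no holes
        obtain ⟨δ, hδ, hδe⟩ := nm_close hx₁ one_pos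
        obtain ⟨η, hη⟩ : ∃ η : ℝ, η = min δ (4 * ε₃) := ⟨_, rfl⟩
        have hη0 : 0 < η := by
          rw [hη]
          positivity
        have hinn : (inner ℂ x₁ (Φ z₁) : ℂ) ≠ 0 := by
          rw [← hx₁def]
          exact inner_self_ne_zero.2 hx₁
        refine LimC_core hG hK hL hf hz₁ hΦ hΦe hinn h00 hne (r₁ := min r₁ (r₁ * η / 4)) (by positivity) ?_
        have hsub : {z₁} ⊆ U := Set.singleton_subset_iff.2 hz₁
        filter_upwards [h3, hf.lim _ hsub isCompact_singleton (η / 2) (by positivity), hL.out_sqrt hz₁ hr₁] with n h6 h7 h8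
        obtain ⟨hΓ, hΓK, -⟩ := hL.crv n
        have hfar : Far (t n) (s n) z₁ := by
          intro a ha ha1
          rw [norm_sub_rev] at ha1
          have h9 := (h8 a ha (h6.1 a ha)).2 (by linarith)
          rw [norm_sub_rev]
          have h10 := norm_nonneg (a - z₁)
          linarith [h9.2]
        have h9 := h7 z₁ (Set.mem_singleton z₁) hfar
        rw [hfx₁] at h9
        refine ⟨fun w hw ho => ?_, fun b hb hbr => ?_⟩
        · rw [mem_ball] at hw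
          have hw1 : dist w z₁ < r₁ := hw.trans_le (min_le_left _ _)
          have hw2 : dist w z₁ < r₁ * η / 4 := hw.trans_le (min_le_right _ _)
          have h10 := Pool.Agent.H62.EF.pr_lipschitz isOpen_ball (convex_ball z₁ r₁) (hΓ.differentiableOn) (fun z _ => hX0 _ (hKX _ (hΓK z))) h6.2 w
            (mem_ball.2 hw1) z₁ (mem_ball_self hr₁)
          rw [← dist_eq_norm] at h10
          have h11 : 2 * (1 / r₁) * dist w z₁ < η / 2 := by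
            calc 2 * (1 / r₁) * dist w z₁ < 2 * (1 / r₁) * (r₁ * η / 4) := mul_lt_mul_of_pos_left hw2 (by positivity)
              _ = η / 2 := by field_simp; ring
          have h12 : dist (pr (Γ n w)) (pr x₁) < η := by
            have := dist_triangle (pr (Γ n w)) (pr (Γ n z₁)) (pr x₁)
            linarith
          refine ⟨hnum _ (hKX _ (hΓK w)) (hG.neE j _ (hΓK w)) (h12.trans_le (by rw [hη]; exact min_le_right _ _)), ?_⟩
          exact (hδe _ (hX0 _ (hKX _ (hΓK w))) (h12.trans_le (by rw [hη]; exact min_le_left _ _))).1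
        · have := h6.1 b hb
          have h10 : min r₁ (r₁ * η / 4) ≤ r₁ := min_le_left _ _
          linarith
  refine lim_two hB hL.opn hL.conn hf.lift hbd hz₁ hii ?_
  filter_upwards [key i i' hii (hzero i hi) (hzero i' hi'), key i' i hii.symm (hzero i' hi') (hzero i hi), hΦe] with z h3 h4 h5 w hw hfw
  obtain ⟨c, -, hcw⟩ := (Pool.Agent.H62.EF.pr_eq_iff hw h5.1).1 (hfw.symm.trans h5.2)
  rw [hcw, hG.smulE, hG.smulE, h3, h4, smul_zero, smul_zero]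
  exact ⟨rfl, rfl⟩

end Pool.Agent.SR3

end
end

section

/-!
# SR3 LimD: on the plane the limit is constant
-/

set_option autoImplicit false

open Topology Filter Metric

noncomputable section

namespace Pool.Agent.SR3

open Pool.Agent.H36.BP (EN fs wd Sub OrdTwo)
open Pool.Agent.H62.EF (MN pr)
open Pool.Agent.G3 (LLift)

variable {N : ℕ} {G : Geo N}

/-- one of finitely many analytic functions without isolated zeros vanishes everywhere -/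
private theorem exists_zero {ι : Type} [Fintype ι] {E : Type} [NormedAddCommGroup E] [NormedSpace ℂ E] {f : ι → ℂ → E}
    (hf : ∀ i z, AnalyticAt ℂ (f i) z) (h : ∀ z, ∃ i, f i z = 0) : ∃ i, ∀ z, f i z = 0 := by
  have h1 : ∃ i, ∃ᶠ z in 𝓝[≠] (0 : ℂ), f i z = 0 := by
    by_contra hc
    push Not at hc
    have h2 : ∀ i, ∀ᶠ z in 𝓝[≠] (0 : ℂ), f i z ≠ 0 := fun i => by simpa [Filter.Frequently] using hc i
    obtain ⟨z, hz⟩ := (eventually_all.2 h2).exists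
    obtain ⟨i, hi⟩ := h z
    exact hz i hi
  obtain ⟨i, hi⟩ := h1
  refine ⟨i, fun z => ?_⟩
  have h3 : AnalyticOnNhd ℂ (f i) Set.univ := fun z _ => hf i z
  exact h3.eqOn_zero_of_preconnected_of_frequently_eq_zero isPreconnected_univ (Set.mem_univ 0) hi (Set.mem_univ z)

theorem lim_const (hG : G.Ok) (hB : G.Bdry) {Y : Finset (EN N)} (hY : G.Ends Y) : ∃ ε₁ : ℝ, 0 < ε₁ ∧ ∀ B₃ B₄ ε K ε₂ : ℝ, 20 ≤ K → 0 < ε → 2 * ε ≤ ε₂ →
    ε₂ ≤ ε₁ → ∀ 𝒰 Γ t s y, G.Loc Y B₃ B₄ ε K ε₂ 𝒰 Set.univ Γ t s y → ∀ f, Geo.LimOf 𝒰 Set.univ Γ t s f →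
    (∀ z, ∀ x : EN N, x ≠ 0 → f z = pr x → x ∈ G.X ∧ x ∉ G.K) → ∀ z z', f z = f z' := by
  obtain ⟨ε₁, h0, h1⟩ := lim_cross hG hB hY
  refine ⟨ε₁, h0, fun B₃ B₄ ε K ε₂ hK hε h2 h3 𝒰 Γ t s y hL f hf hX => ?_⟩
  obtain ⟨H, hH, hHe⟩ := G3.entire_lift fun z => hf.lift z (Set.mem_univ z)
  have hHX : ∀ z, H z ∈ G.X ∧ H z ∉ G.K := fun z => hX z _ (hHe z).1 (hHe z).2
  obtain ⟨i, hi⟩ := exists_zero (f := fun i z => G.E i (H z)) (fun i z => (hG.anE i _).comp (hH.analyticAt z)) fun z => hB.zero _ (hHX z).1 (hHX z).2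
  by_cases hc : ∃ z₁, ∃ i', i' ≠ i ∧ G.E i' (H z₁) = 0
  · obtain ⟨z₁, i', hi', hz₁⟩ := hc
    have h4 := h1 B₃ B₄ ε K ε₂ hK hε h2 h3 𝒰 Set.univ Γ t s y hL f hf (fun z _ => hX z) z₁ (Set.mem_univ _) (H z₁) i i' (hHe z₁).1 (hHe z₁).2 hi'.symm (hi z₁) hz₁
    exact fun z z' => (h4 z (Set.mem_univ z)).trans (h4 z' (Set.mem_univ z')).symm
  · push Not at hc
    intro z z'
    rw [(hHe z).2, (hHe z').2]
    exact hB.one H hH hHX i hi (fun i' h z => hc z i' h) z z'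

end Pool.Agent.SR3

end
end

section

/-!
# SR3 ResF: the rescaled sequences do not exist

`f = c`, `dist c (pr y) = ε₂`; `ext_holes` for `Γ / ⟪u, Γ⟫ - u`, `u = y / ‖y‖` (norm `< ε` at the rims), at the point `2 s 0`; on a circle which meets no hole this
function is close to its value at `c`, of norm at least `ε₂ / 2`.
-/

set_option autoImplicit false

open Topology Filter Metric

noncomputable section

namespace Pool.Agent.SR3

open Pool.Agent.H36.BP (EN fs wd)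
open Pool.Agent.H62.EF (MN pr)
open Pool.Agent.G3 (LLift)
open Pool.Agent.G3.C (nv nd nv_pr nd_pr_ne nv_continuousAt)

variable {N : ℕ} {G : Geo N}

/-! ## the chart -/

private theorem rf_id {v x : EN N} (hv : ‖v‖ = 1) (h : inner ℂ v x ≠ (0 : ℂ)) :
    dist (pr x) (pr v) ^ 2 * (1 + ‖(inner ℂ v x : ℂ)⁻¹ • x - v‖ ^ 2) = 2 * ‖(inner ℂ v x : ℂ)⁻¹ • x - v‖ ^ 2 := by
  have hv0 : v ≠ 0 := by
    rintro rfl
    rw [norm_zero] at hv
    exact zero_ne_one hv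
  have h1 : inner ℂ v ((inner ℂ v x : ℂ)⁻¹ • x) = (1 : ℂ) := by
    rw [inner_smul_right, inv_mul_cancel₀ h]
  have hp : pr ((inner ℂ v x : ℂ)⁻¹ • x) = pr x := Pool.Agent.H62.EF.pr_smul x (inv_ne_zero h)
  generalize (inner ℂ v x : ℂ)⁻¹ • x = x₁ at h1 hp ⊢
  have hx0 : x₁ ≠ 0 := by
    intro h0
    rw [h0, inner_zero_right] at h1
    exact zero_ne_one h1
  have h2 := Pool.Agent.H62.EF.norm_inner_sq hv0 hx0
  rw [h1, hv, norm_one, one_pow, one_mul, hp, dist_comm] at h2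
  have h3 : ‖x₁ - v‖ ^ 2 = ‖x₁‖ ^ 2 - 1 := by
    rw [norm_sub_rev, norm_sub_sq (𝕜 := ℂ), h1, hv, RCLike.re_to_complex, Complex.one_re]
    ring
  rw [h3]
  linarith [h2]

private theorem rf_chart {v x : EN N} (hv : ‖v‖ = 1) (hx : x ≠ 0) (hd : dist (pr x) (pr v) ≤ 1) :
    inner ℂ v x ≠ (0 : ℂ) ∧ ‖(inner ℂ v x : ℂ)⁻¹ • x - v‖ ≤ dist (pr x) (pr v) := by
  have hv0 : v ≠ 0 := by
    rintro rfl
    rw [norm_zero] at hv
    exact zero_ne_one hv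
  have hd0 : 0 ≤ dist (pr x) (pr v) := dist_nonneg
  have h0 : inner ℂ v x ≠ (0 : ℂ) := by
    intro h
    have h2 := Pool.Agent.H62.EF.norm_inner_sq hv0 hx
    rw [h, hv, norm_zero, dist_comm] at h2
    have hx0 : 0 < ‖x‖ ^ 2 := by positivity
    have h3 : dist (pr x) (pr v) ^ 2 ≤ 1 := pow_le_one₀ hd0 hd
    linarith [mul_le_mul_of_nonneg_left h3 hx0.le]
  refine ⟨h0, ?_⟩
  have h1 := rf_id hv h0
  have h2 : 0 ≤ ‖(inner ℂ v x : ℂ)⁻¹ • x - v‖ := norm_nonneg _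
  have h3 : dist (pr x) (pr v) ^ 2 ≤ 1 := pow_le_one₀ hd0 hd
  refine le_of_sq_le_sq ?_ hd0
  linarith [mul_nonneg (sub_nonneg.2 h3) (pow_two_nonneg ‖(inner ℂ v x : ℂ)⁻¹ • x - v‖)]

private theorem rf_far {v x : EN N} (hv : ‖v‖ = 1) (h : inner ℂ v x ≠ (0 : ℂ)) : dist (pr x) (pr v) ≤ 2 * ‖(inner ℂ v x : ℂ)⁻¹ • x - v‖ := by
  have h1 := rf_id hv h
  have h2 : 0 ≤ ‖(inner ℂ v x : ℂ)⁻¹ • x - v‖ := norm_nonneg _
  refine le_of_sq_le_sq ?_ (by positivity)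
  linarith [pow_two_nonneg ‖(inner ℂ v x : ℂ)⁻¹ • x - v‖, mul_nonneg (pow_two_nonneg (dist (pr x) (pr v))) (pow_two_nonneg ‖(inner ℂ v x : ℂ)⁻¹ • x - v‖)]

/-! ## finite sets -/

private theorem rf_pos {α : Type*} (S : Finset α) (f : α → ℝ) (h : ∀ a ∈ S, 0 < f a) : ∃ r : ℝ, 0 < r ∧ ∀ a ∈ S, r ≤ f a := by
  rcases S.eq_empty_or_nonempty with rfl | hS
  · exact ⟨1, one_pos, fun a ha => absurd ha (Finset.notMem_empty a)⟩
  · obtain ⟨p, hp, hmin⟩ := S.exists_min_image f hS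
    exact ⟨f p, h p hp, hmin⟩

private theorem rf_sep' {α β : Type*} [DecidableEq α] [MetricSpace β] (Y : Finset α) (f : α → β) (hY : ∀ y ∈ Y, ∀ y' ∈ Y, f y = f y' → y = y') :
    ∃ r : ℝ, 0 < r ∧ ∀ y ∈ Y, ∀ y' ∈ Y, dist (f y) (f y') < r → y = y' := by
  obtain ⟨r, hr, h⟩ := rf_pos ((Y ×ˢ Y).filter fun p => p.1 ≠ p.2) (fun p => dist (f p.1) (f p.2)) (by
    intro p hp
    rw [Finset.mem_filter, Finset.mem_product] at hp
    exact dist_pos.2 fun h1 => hp.2 (hY _ hp.1.1 _ hp.1.2 h1))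
  refine ⟨r, hr, fun y hy y' hy' hlt => ?_⟩
  by_contra hne
  have h1 : (y, y') ∈ (Y ×ˢ Y).filter fun p => p.1 ≠ p.2 := by
    rw [Finset.mem_filter, Finset.mem_product]
    exact ⟨⟨hy, hy'⟩, hne⟩
  exact absurd hlt (not_lt.2 (h _ h1))

private theorem rf_cover {α : Type*} {l : Filter α} {t : α → Finset ℂ} {φ : α → ℂ → ℝ} (h0 : ∀ n a, 0 ≤ φ n a)
    (h : ∀ z : ℂ, ∃ r : ℝ, 0 < r ∧ Tendsto (fun n => ∑ a ∈ (t n).filter (fun a => ‖a - z‖ < r), φ n a) l (𝓝 0)) (R : ℝ) {τ : ℝ} (hτ : 0 < τ) :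
    ∀ᶠ n in l, ∑ a ∈ (t n).filter (fun a => ‖a‖ ≤ R), φ n a < τ := by
  choose r hr hlim using h
  obtain ⟨I, -, hI⟩ := (isCompact_closedBall (0 : ℂ) R).elim_nhds_subcover (fun z => ball z (r z)) fun z _ => ball_mem_nhds z (hr z)
  have h1 : Tendsto (fun n => ∑ z ∈ I, ∑ a ∈ (t n).filter (fun a => ‖a - z‖ < r z), φ n a) l (𝓝 0) := by
    have h2 := tendsto_finsetSum I fun z _ => hlim z
    rwa [Finset.sum_const_zero] at h2
  filter_upwards [h1.eventually (gt_mem_nhds hτ)] with n hn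
  refine lt_of_le_of_lt ?_ hn
  have h3 : ∑ z ∈ I, ∑ a ∈ (t n).filter (fun a => ‖a - z‖ < r z), φ n a = ∑ a ∈ t n, ∑ z ∈ I, if ‖a - z‖ < r z then φ n a else 0 := by
    rw [Finset.sum_comm]
    exact Finset.sum_congr rfl fun z _ => Finset.sum_filter _ _
  rw [h3, Finset.sum_filter]
  refine Finset.sum_le_sum fun a _ => ?_
  have h4 : ∀ z ∈ I, 0 ≤ if ‖a - z‖ < r z then φ n a else 0 := fun z _ => by
    split_ifs
    · exact h0 n a
    · exact le_rfl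
  split_ifs with ha
  · obtain ⟨z, hz, haz⟩ := Set.mem_iUnion₂.1 (hI (mem_closedBall_zero_iff.2 ha))
    have h5 := Finset.single_le_sum h4 hz
    rw [mem_ball, dist_eq_norm] at haz
    rw [if_pos haz] at h5
    exact h5
  · exact Finset.sum_nonneg h4

private theorem rf_const {α : Type*} {𝒰 : Ultrafilter ℕ} {Y : Finset α} {y : ℕ → α} (h : ∀ n, y n ∈ Y) : ∃ v ∈ Y, ∀ᶠ n in (𝒰 : Filter ℕ), y n = v := by
  have h1 : (Y : Set α) ∈ (𝒰.map y : Filter α) := by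
    rw [Ultrafilter.coe_map, Filter.mem_map]
    exact Filter.univ_mem' h
  obtain ⟨v, hv, he⟩ := Ultrafilter.eq_pure_of_finite_mem Y.finite_toSet h1
  refine ⟨v, hv, ?_⟩
  have h2 : ({v} : Set α) ∈ (𝒰.map y : Filter α) := by
    rw [show ((𝒰.map y : Ultrafilter α) : Filter α) = ((pure v : Ultrafilter α) : Filter α) from congrArg _ he]
    exact Set.mem_singleton v
  exact h2

/-! ## the estimate -/

private theorem rf_core {E : Type} [NormedAddCommGroup E] [NormedSpace ℂ E] [CompleteSpace E] {f : ℂ → E} (t : Finset ℂ) (s : ℂ → ℝ) {μ η θ : ℝ} {c : E}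
    (hμ0 : 0 ≤ μ) (hs : ∀ a ∈ t, 0 < s a) (hsep : ∀ a ∈ t, ∀ b ∈ t, a ≠ b → 20 * max (s a) (s b) < ‖a - b‖) (h0 : (0 : ℂ) ∈ t)
    (hf : ∀ ζ : ℂ, ‖ζ‖ < 3 / 4 → Off t s ζ → DifferentiableAt ℂ f ζ)
    (hμ : ∀ a ∈ t, ∀ ζ, s a ≤ ‖ζ - a‖ → ‖ζ - a‖ ≤ 2 * s a → DifferentiableAt ℂ f ζ ∧ ‖f ζ‖ ≤ μ) (hσ : ∑ a ∈ t, √(s a) < 1 / 16)
    (hc : ∀ ζ : ℂ, 1 / 2 < ‖ζ‖ → ‖ζ‖ < 3 / 4 → (∀ a ∈ t, √(s a) ≤ ‖ζ - a‖) → ‖f ζ - c‖ ≤ η) (hθ : ∑ a ∈ t.erase 0, s a / ‖a‖ ≤ θ) :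
    ‖c‖ ≤ η + μ / 8 + 2 * μ * (1 / 2 + 2 * θ) + μ := by
  have hsq : ∀ a ∈ t, √(s a) < 1 / 16 := fun a ha =>
    lt_of_le_of_lt (Finset.single_le_sum (f := fun a => √(s a)) (fun b _ => Real.sqrt_nonneg _) ha) hσ
  have hss : ∀ a ∈ t, s a = √(s a) * √(s a) := fun a ha => (Real.mul_self_sqrt (hs a ha).le).symm
  have hsq0 : ∀ a ∈ t, 0 < √(s a) := fun a ha => Real.sqrt_pos.2 (hs a ha)
  have hsep4 : ∀ a ∈ t, ∀ b ∈ t, a ≠ b → 4 * max (s a) (s b) < ‖a - b‖ := fun a ha b hb hab => by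
    have h1 := hsep a ha b hb hab
    have h2 : 0 < max (s a) (s b) := lt_of_lt_of_le (hs a ha) (le_max_left _ _)
    linarith
  obtain ⟨g, hg, hgf⟩ := ext_holes (E := E) (f := f) (U := ball 0 (3 / 4)) isOpen_ball t s hs hsep4
    (fun ζ hζ hO => hf ζ (mem_ball_zero_iff.1 hζ) hO) hμ
  obtain ⟨ρ, hρ1, hρ2, hρ⟩ := exists_rad t (fun a => √(s a)) 0 (a := 1 / 2) (b := 3 / 4) (fun a _ => Real.sqrt_nonneg _) (by linarith)
  -- the circle
  have hcirc : ∀ ζ : ℂ, ‖ζ‖ = ρ → ‖g ζ - c‖ ≤ η + μ / 8 := by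
    intro ζ hζ
    have h1 : ∀ a ∈ t, √(s a) ≤ ‖ζ - a‖ := fun a ha => hρ a ha ζ (by rwa [sub_zero])
    have h2 : Off t (fun a => 2 * s a) ζ := by
      intro a ha
      have h3 := hss a ha
      have h4 := h1 a ha
      have h5 := hsq a ha
      have h6 := hsq0 a ha
      show 2 * s a ≤ ‖ζ - a‖
      linarith [mul_le_mul_of_nonneg_left h5.le h6.le]
    have h3 := hgf ζ (mem_ball_zero_iff.2 (by rw [hζ]; exact hρ2)) h2
    have h4 : ∑ a ∈ t, s a / ‖ζ - a‖ ≤ ∑ a ∈ t, √(s a) := by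
      refine Finset.sum_le_sum fun a ha => ?_
      have h5 := hsq0 a ha
      rw [div_le_iff₀ (lt_of_lt_of_le h5 (h1 a ha))]
      calc s a = √(s a) * √(s a) := hss a ha
        _ ≤ √(s a) * ‖ζ - a‖ := mul_le_mul_of_nonneg_left (h1 a ha) h5.le
    have h5 := hc ζ (by rw [hζ]; exact hρ1) (by rw [hζ]; exact hρ2) h1
    have h6 : ‖g ζ - c‖ ≤ ‖g ζ - f ζ‖ + ‖f ζ - c‖ := by
      rw [← sub_add_sub_cancel (g ζ) (f ζ) c]
      exact norm_add_le _ _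
    have h7 : 2 * μ * ∑ a ∈ t, s a / ‖ζ - a‖ ≤ 2 * μ * (1 / 16) := mul_le_mul_of_nonneg_left (by linarith) (by linarith)
    linarith
  -- the maximum principle
  have hmax : ∀ ζ : ℂ, ‖ζ‖ ≤ ρ → ‖g ζ - c‖ ≤ η + μ / 8 := by
    intro ζ hζ
    have hρ0 : 0 < ρ := by linarith
    have h1 : DiffContOnCl ℂ (fun ζ => g ζ - c) (ball 0 ρ) := by
      refine DifferentiableOn.diffContOnCl ?_
      rw [closure_ball _ hρ0.ne']
      exact (hg.mono (closedBall_subset_ball hρ2)).sub_const c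
    refine Complex.norm_le_of_forall_mem_frontier_norm_le isBounded_ball h1 (fun z hz => ?_) (z := ζ) ?_
    · rw [frontier_ball _ hρ0.ne'] at hz
      exact hcirc z (mem_sphere_zero_iff_norm.1 hz)
    · rw [closure_ball _ hρ0.ne', mem_closedBall_zero_iff]
      exact hζ
  -- the point `2 s 0`
  obtain ⟨ζ, hζ⟩ : ∃ ζ : ℂ, ζ = ((2 * s 0 : ℝ) : ℂ) := ⟨_, rfl⟩
  have hs0 := hs 0 h0
  have hn : ‖ζ‖ = 2 * s 0 := by
    rw [hζ, Complex.norm_real, Real.norm_of_nonneg (by linarith)]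
  have hsm : s 0 < 1 / 16 := by
    have h3 := hss 0 h0
    have h5 := hsq 0 h0
    have h6 := hsq0 0 h0
    linarith [mul_le_mul_of_nonneg_left h5.le h6.le]
  have hdist : ∀ a ∈ t, a ≠ 0 → 9 / 10 * ‖a‖ ≤ ‖ζ - a‖ ∧ 2 * s a ≤ ‖ζ - a‖ ∧ 0 < ‖a‖ := by
    intro a ha ha0
    have h1 := hsep a ha 0 h0 ha0
    rw [sub_zero] at h1
    have h2 : s a ≤ max (s a) (s 0) := le_max_left _ _
    have h3 : s 0 ≤ max (s a) (s 0) := le_max_right _ _
    have h4 : ‖a‖ - ‖ζ‖ ≤ ‖ζ - a‖ := by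
      rw [norm_sub_rev]
      exact norm_sub_norm_le a ζ
    have h5 := hs a ha
    refine ⟨?_, ?_, ?_⟩
    · linarith
    · linarith
    · linarith
  have hO : Off t (fun a => 2 * s a) ζ := by
    intro a ha
    show 2 * s a ≤ ‖ζ - a‖
    rcases eq_or_ne a 0 with rfl | ha0
    · rw [sub_zero, hn]
    · exact (hdist a ha ha0).2.1
  have h1 := hgf ζ (mem_ball_zero_iff.2 (by rw [hn]; linarith)) hO
  have h2 := (hμ 0 h0 ζ (by rw [sub_zero, hn]; linarith) (by rw [sub_zero, hn])).2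
  have h3 := hmax ζ (by rw [hn]; linarith)
  have h4 : ∑ a ∈ t, s a / ‖ζ - a‖ ≤ 1 / 2 + 2 * θ := by
    rw [← Finset.add_sum_erase t _ h0]
    have h5 : s 0 / ‖ζ - 0‖ = 1 / 2 := by
      rw [sub_zero, hn]
      field_simp
    have h6 : ∑ a ∈ t.erase 0, s a / ‖ζ - a‖ ≤ ∑ a ∈ t.erase 0, 2 * (s a / ‖a‖) := by
      refine Finset.sum_le_sum fun a ha => ?_
      obtain ⟨ha0, ha⟩ := Finset.mem_erase.1 ha
      obtain ⟨h7, -, h8⟩ := hdist a ha ha0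
      have h9 := hs a ha
      rw [div_le_iff₀ (by linarith)]
      have h10 : s a = s a / ‖a‖ * ‖a‖ := by
        rw [div_mul_cancel₀ _ h8.ne']
      have h11 : 0 < s a / ‖a‖ := div_pos h9 h8
      linarith [mul_le_mul_of_nonneg_left h7 h11.le]
    rw [← Finset.mul_sum] at h6
    linarith
  have h5 : 2 * μ * ∑ a ∈ t, s a / ‖ζ - a‖ ≤ 2 * μ * (1 / 2 + 2 * θ) := mul_le_mul_of_nonneg_left h4 (by linarith)
  have h6 : ‖c‖ ≤ ‖g ζ - c‖ + ‖g ζ - f ζ‖ + ‖f ζ‖ := by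
    have h7 : c = -(g ζ - c) + (g ζ - f ζ) + f ζ := by abel
    calc ‖c‖ = ‖-(g ζ - c) + (g ζ - f ζ) + f ζ‖ := by rw [← h7]
      _ ≤ ‖-(g ζ - c)‖ + ‖g ζ - f ζ‖ + ‖f ζ‖ := norm_add₃_le
      _ = _ := by rw [norm_neg]
  linarith

/-! ## the theorem -/

theorem res_false (hG : G.Ok) (hB : G.Bdry) {Y : Finset (EN N)} (hY : G.Ends Y) : ∃ ε₁ : ℝ, 0 < ε₁ ∧ ∀ ε₂ θ : ℝ, 0 < ε₂ → ε₂ ≤ ε₁ → 0 ≤ θ → ∃ ε₀ : ℝ, 0 < ε₀ ∧
    ∀ B₃ B₄ ε K : ℝ, 0 < ε → ε ≤ ε₀ → 20 ≤ K → ∀ 𝒰 Γ t s y, ¬ G.Res Y B₃ B₄ ε K ε₂ θ 𝒰 Γ t s y := by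
  classical
  obtain ⟨εa, hεa, hlim⟩ := exists_limH hG hY
  obtain ⟨εb, hεb, hcst⟩ := lim_const hG hB hY
  obtain ⟨r, hr, hsepY⟩ := rf_sep' Y (pr : EN N → MN N) hY.inj
  refine ⟨min (min εa εb) (min (1 / 2) (r / 4)), lt_min (lt_min hεa hεb) (lt_min (by norm_num) (by linarith)), fun ε₂ θ hε₂ hle hθ => ?_⟩
  have hla : ε₂ ≤ εa := hle.trans ((min_le_left _ _).trans (min_le_left _ _))
  have hlb : ε₂ ≤ εb := hle.trans ((min_le_left _ _).trans (min_le_right _ _))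
  have hlc : ε₂ ≤ 1 / 2 := hle.trans ((min_le_right _ _).trans (min_le_left _ _))
  have hld : ε₂ ≤ r / 4 := hle.trans ((min_le_right _ _).trans (min_le_right _ _))
  have hθ1 : 0 < 1 + θ := by linarith
  refine ⟨ε₂ / (16 * (1 + θ)), by positivity, fun B₃ B₄ ε K hε hεle hK 𝒰 Γ t s y h => ?_⟩
  have hεθ : ε * (16 * (1 + θ)) ≤ ε₂ := (le_div_iff₀ (by positivity)).1 hεle
  have hε16 : 16 * ε ≤ ε₂ := by linarith [mul_nonneg hε.le hθ]
  have hL := h.loc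
  -- the limit is constant
  obtain ⟨f, hf⟩ := hlim B₃ B₄ ε K ε₂ hK hla 𝒰 Set.univ Γ t s y hL
  have hbd := lim_bdry hG hK hL hf (z₁ := 0) trivial fun r' hr' => Eventually.of_forall fun n => ⟨0, h.zero n, by rw [sub_zero, norm_zero]; exact hr'⟩
  have hc := hcst B₃ B₄ ε K ε₂ hK hε (by linarith) hlb 𝒰 Γ t s y hL f hf fun z => hbd z trivial
  obtain ⟨Φ, -, hΦ⟩ := hf.lift 0 trivial
  obtain ⟨hx0, hfx⟩ := hΦ.self_of_nhds
  generalize Φ 0 = x at hx0 hfx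
  have hfz : ∀ z, f z = pr x := fun z => (hc z 0).trans hfx
  -- the end is constant
  obtain ⟨v, hvY, hyv⟩ := rf_const (𝒰 := 𝒰) (Y := Y) (y := fun n => y n 0) fun n => (h.loc.rim n 0 (h.zero n)).mem
  have hv0 : v ≠ 0 := fun h0 => hG.cone.zero_notMem (h0 ▸ (hY.mem v hvY).1)
  have hvn : ‖v‖ ≠ 0 := norm_ne_zero_iff.2 hv0
  obtain ⟨u, hu1, hu⟩ : ∃ u : EN N, ‖u‖ = 1 ∧ pr u = pr v := by
    have h1 : (((‖v‖⁻¹ : ℝ)) : ℂ) ≠ 0 := by exact_mod_cast inv_ne_zero hvn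
    refine ⟨(((‖v‖⁻¹ : ℝ)) : ℂ) • v, ?_, Pool.Agent.H62.EF.pr_smul v h1⟩
    rw [norm_smul, Complex.norm_real, norm_inv, norm_norm]
    exact inv_mul_cancel₀ hvn
  -- smallness
  have hsum := fun R : ℝ => rf_cover (l := (𝒰 : Filter ℕ)) (t := t) (φ := fun n a => √(s n a)) (fun _ _ => Real.sqrt_nonneg _)
    (fun z => h.loc.small z trivial) R (τ := 1 / 16) (by norm_num)
  have hsq : ∀ R : ℝ, ∀ᶠ n in (𝒰 : Filter ℕ), ∀ a ∈ t n, ‖a‖ ≤ R → √(s n a) < 1 / 16 := by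
    intro R
    filter_upwards [hsum R] with n hn a ha haR
    refine lt_of_le_of_lt ?_ hn
    exact Finset.single_le_sum (f := fun a => √(s n a)) (fun b _ => Real.sqrt_nonneg _) (Finset.mem_filter.2 ⟨ha, haR⟩)
  -- the distance
  have hdist : dist (pr x) (pr u) = ε₂ := by
    have h1 : ∀ η : ℝ, 0 < η → |dist (pr x) (pr u) - ε₂| ≤ η := by
      intro η hη
      have h2 := hf.lim (closedBall 0 1) (Set.subset_univ _) (isCompact_closedBall _ _) η hη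
      obtain ⟨n, hn1, hn2, hn3, hn4⟩ := (hyv.and (h2.and ((hsq 2).and h.exitFar))).exists
      obtain ⟨z, hz, hO, hd⟩ := h.exit n
      have h3 := hn4 z hz hO hd
      have h4 : Far (t n) (s n) z := by
        intro a ha haz
        have h5 : ‖a‖ ≤ 2 := by
          have h6 : ‖a‖ ≤ ‖z‖ + ‖z - a‖ := by
            calc ‖a‖ = ‖z - (z - a)‖ := by rw [sub_sub_cancel]
              _ ≤ _ := norm_sub_le _ _
          linarith
        have h6 := hn3 a ha h5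
        have h7 := h3 a ha
        linarith
      have h5 := hn2 z (mem_closedBall_zero_iff.2 hz.le) h4
      rw [hfz z] at h5
      rw [hn1, ← hu] at hd
      rw [← hd]
      refine (abs_dist_sub_le (pr x) (pr (Γ n z)) (pr u)).trans ?_
      rw [dist_comm]
      exact h5.le
    have h2 : |dist (pr x) (pr u) - ε₂| ≤ 0 := le_of_forall_pos_le_add fun η hη => by rw [zero_add]; exact h1 η hη
    linarith [abs_nonpos_iff.1 h2]
  have hxu := rf_chart hu1 hx0 (by rw [hdist]; linarith)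
  have hfar := rf_far hu1 hxu.1
  rw [hdist] at hfar
  -- continuity of the chart
  have hnv : ContinuousAt (nv u) (pr x) := nv_continuousAt ((nd_pr_ne hx0).2 hxu.1)
  obtain ⟨ε', hε', hcont⟩ := Metric.continuousAt_iff.1 hnv (ε₂ / 16) (by linarith)
  -- a good index
  obtain ⟨r₀, hr₀, hout⟩ := h.loc.out 0 trivial
  obtain ⟨R, hR2, hRr⟩ : ∃ R : ℝ, 2 ≤ R ∧ r₀ ≤ R := ⟨max 2 r₀, le_max_left _ _, le_max_right _ _⟩
  obtain ⟨n, hn1, hn2, hn3, hn4, hn5, hn6⟩ := (hyv.and ((hf.lim (closedBall 0 1) (Set.subset_univ _) (isCompact_closedBall _ _) ε' hε').and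
    ((hsum R).and ((hsq R).and (hout.and h.cnt))))).exists
  have hpos := h.loc.pos n
  have hsep := h.loc.sep n
  have hcrv := h.loc.crv n
  have hsep20 : ∀ a ∈ t n, ∀ b ∈ t n, a ≠ b → 20 * max (s n a) (s n b) < ‖a - b‖ := by
    intro a ha b hb hab
    have h1 := hsep a ha b hb hab
    have h2 : 0 < max (s n a) (s n b) := lt_of_lt_of_le (hpos a ha) (le_max_left _ _)
    linarith [mul_le_mul_of_nonneg_right hK h2.le]
  have hss : ∀ a ∈ t n, ‖a‖ ≤ R → s n a < 1 / 16 := by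
    intro a ha haR
    have h1 := hn4 a ha haR
    have h2 := (Real.mul_self_sqrt (hpos a ha).le).symm
    have h3 := Real.sqrt_nonneg (s n a)
    linarith [mul_le_mul_of_nonneg_left h1.le h3]
  -- in the disc
  have hstay : ∀ ζ : ℂ, ‖ζ‖ < 1 → Off (t n) (s n) ζ → inner ℂ u (Γ n ζ) ≠ (0 : ℂ) ∧ dist (pr (Γ n ζ)) (pr v) < ε₂ := by
    intro ζ hζ hO
    have h1 := h.stay n ζ hζ hO
    rw [hn1] at h1
    have hΓ0 : Γ n ζ ≠ 0 := fun h0 => hG.cone.zero_notMem (h0 ▸ ((hG.aff.mem _).1 (hcrv.2.1 ζ)).1)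
    exact ⟨(rf_chart hu1 hΓ0 (by rw [hu]; linarith)).1, h1⟩
  have hoff : ∀ ζ : ℂ, ‖ζ‖ < 3 / 4 → Off ((t n).filter fun a => ‖a‖ < 1) (s n) ζ → Off (t n) (s n) ζ := by
    intro ζ hζ hO a ha
    by_cases ha1 : ‖a‖ < 1
    · exact hO a (Finset.mem_filter.2 ⟨ha, ha1⟩)
    · rw [not_lt] at ha1
      have h1 : ‖a‖ - ‖ζ‖ ≤ ‖ζ - a‖ := by
        rw [norm_sub_rev]
        exact norm_sub_norm_le a ζ
      by_cases haR : ‖a‖ ≤ R
      · have h2 := hss a ha haR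
        linarith
      · rw [not_le] at haR
        have h2 := hn5 a ha (by rw [sub_zero]; linarith)
        rw [sub_zero] at h2
        linarith
  have hdiff : ∀ ζ : ℂ, inner ℂ u (Γ n ζ) ≠ (0 : ℂ) → DifferentiableAt ℂ (fun ζ => (inner ℂ u (Γ n ζ) : ℂ)⁻¹ • Γ n ζ - u) ζ := by
    intro ζ hζ
    have h1 : DifferentiableAt ℂ (Γ n) ζ := hcrv.1 ζ
    have h2 : DifferentiableAt ℂ (fun ζ => (inner ℂ u (Γ n ζ) : ℂ)) ζ := ((innerSL ℂ u).differentiableAt).comp ζ h1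
    exact ((h2.inv hζ).smul h1).sub_const u
  have hends : ∀ a ∈ t n, ‖a‖ < 1 → y n a = v := by
    intro a ha ha1
    rcases eq_or_ne a 0 with rfl | ha0
    · exact hn1
    have hna : 0 < ‖a‖ := norm_pos_iff.2 ha0
    have hsa := hpos a ha
    have h1 := hsep20 a ha 0 (h.zero n) ha0
    rw [sub_zero] at h1
    have h2 : s n a ≤ max (s n a) (s n 0) := le_max_left _ _
    obtain ⟨w, hw⟩ : ∃ w : ℂ, w = ((-(3 / 2) / ‖a‖ : ℝ) : ℂ) * a := ⟨_, rfl⟩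
    have hwn : ‖w‖ = 3 / 2 := by
      rw [hw, norm_mul, Complex.norm_real, norm_div, norm_norm, norm_neg, Real.norm_of_nonneg (by norm_num)]
      field_simp
    have hζ : ‖a + s n a * w‖ < 1 := by
      have h3 : a + s n a * w = ((1 - 3 / 2 * s n a / ‖a‖ : ℝ) : ℂ) * a := by
        rw [hw]
        push_cast
        ring
      rw [h3, norm_mul, Complex.norm_real]
      have h4 : 0 < 3 / 2 * s n a / ‖a‖ := by positivity
      have h5 : 3 / 2 * s n a / ‖a‖ < 1 := by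
        rw [div_lt_one hna]
        linarith
      rw [Real.norm_of_nonneg (by linarith)]
      linarith [mul_pos h4 hna]
    have hO : Off (t n) (s n) (a + s n a * w) := by
      intro b hb
      rcases eq_or_ne b a with rfl | hba
      · rw [add_sub_cancel_left, norm_mul, hwn, Complex.norm_real, Real.norm_of_nonneg hsa.le]
        linarith
      · have h3 := hsep20 b hb a ha hba
        have h4 : s n b ≤ max (s n b) (s n a) := le_max_left _ _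
        have h5 : s n a ≤ max (s n b) (s n a) := le_max_right _ _
        have h6 : ‖b - a‖ ≤ ‖a + s n a * w - b‖ + ‖(s n a : ℂ) * w‖ := by
          calc ‖b - a‖ = ‖(a + s n a * w - b) - s n a * w‖ := by rw [norm_sub_rev]; congr 1; ring
            _ ≤ _ := norm_sub_le _ _
        rw [norm_mul, hwn, Complex.norm_real, Real.norm_of_nonneg hsa.le] at h6
        have h7 := hpos b hb
        linarith
    have h3 := (hstay _ hζ hO).2
    have h4 := ((h.loc.rim n a ha).ann w (by rw [hwn]; norm_num) (by rw [hwn]; linarith)).2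
    refine hsepY _ (h.loc.rim n a ha).mem _ hvY ?_
    have h5 := dist_triangle_left (pr (y n a)) (pr v) (pr (Γ n (a + s n a * w)))
    linarith
  have hrim : ∀ a ∈ t n, ‖a‖ < 1 → ∀ ζ : ℂ, s n a ≤ ‖ζ - a‖ → ‖ζ - a‖ ≤ 2 * s n a →
      inner ℂ u (Γ n ζ) ≠ (0 : ℂ) ∧ ‖(inner ℂ u (Γ n ζ) : ℂ)⁻¹ • Γ n ζ - u‖ ≤ ε := by
    intro a ha ha1 ζ h1 h2
    have hsa := hpos a ha
    have hsc : ((s n a : ℝ) : ℂ) ≠ 0 := by exact_mod_cast hsa.ne'
    have h3 : ζ = a + s n a * ((ζ - a) / s n a) := by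
      rw [mul_div_cancel₀ _ hsc]
      ring
    have h4 : ‖(ζ - a) / (s n a : ℂ)‖ = ‖ζ - a‖ / s n a := by
      rw [norm_div, Complex.norm_real, Real.norm_of_nonneg hsa.le]
    have h5 := ((h.loc.rim n a ha).ann ((ζ - a) / s n a) (by
      rw [h4, le_div_iff₀ hsa]
      linarith) (by
      rw [h4, div_le_iff₀ hsa]
      linarith [mul_le_mul_of_nonneg_right hK hsa.le])).2
    rw [← h3, hends a ha ha1, ← hu] at h5
    have hΓ0 : Γ n ζ ≠ 0 := fun h0 => hG.cone.zero_notMem (h0 ▸ ((hG.aff.mem _).1 (hcrv.2.1 ζ)).1)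
    obtain ⟨h6, h7⟩ := rf_chart hu1 hΓ0 (by linarith)
    exact ⟨h6, h7.trans h5.le⟩
  -- the estimate
  have hfin := rf_core (f := fun ζ => (inner ℂ u (Γ n ζ) : ℂ)⁻¹ • Γ n ζ - u) ((t n).filter fun a => ‖a‖ < 1) (s n) (μ := ε) (η := ε₂ / 16) (θ := θ)
    (c := (inner ℂ u x : ℂ)⁻¹ • x - u) hε.le (fun a ha => hpos a (Finset.mem_filter.1 ha).1)
    (fun a ha b hb hab => hsep20 a (Finset.mem_filter.1 ha).1 b (Finset.mem_filter.1 hb).1 hab)
    (Finset.mem_filter.2 ⟨h.zero n, by rw [norm_zero]; exact one_pos⟩)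
    (fun ζ hζ hO => hdiff ζ (hstay ζ (by linarith) (hoff ζ hζ hO)).1)
    (fun a ha ζ h1 h2 => by
      obtain ⟨ha, ha1⟩ := Finset.mem_filter.1 ha
      obtain ⟨h3, h4⟩ := hrim a ha ha1 ζ h1 h2
      exact ⟨hdiff ζ h3, h4⟩)
    (by
      refine lt_of_le_of_lt (Finset.sum_le_sum_of_subset_of_nonneg (fun a ha => ?_) fun a _ _ => Real.sqrt_nonneg _) hn3
      obtain ⟨ha, ha1⟩ := Finset.mem_filter.1 ha
      exact Finset.mem_filter.2 ⟨ha, by linarith⟩)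
    (fun ζ h1 h2 h3 => by
      have hO : Off (t n) (s n) ζ := by
        refine hoff ζ h2 fun a ha => ?_
        have h4 := h3 a ha
        obtain ⟨ha, ha1⟩ := Finset.mem_filter.1 ha
        have h5 := hn4 a ha (by linarith)
        have h6 := (Real.mul_self_sqrt (hpos a ha).le).symm
        have h7 := Real.sqrt_nonneg (s n a)
        linarith [mul_le_mul_of_nonneg_left h5.le h7]
      have hF : Far (t n) (s n) ζ := by
        intro a ha haζ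
        by_cases ha1 : ‖a‖ < 1
        · exact h3 a (Finset.mem_filter.2 ⟨ha, ha1⟩)
        · rw [not_lt] at ha1
          have h4 : ‖a‖ - ‖ζ‖ ≤ ‖ζ - a‖ := by
            rw [norm_sub_rev]
            exact norm_sub_norm_le a ζ
          have h5 := hn4 a ha (by linarith)
          linarith
      have h4 := hn2 ζ (mem_closedBall_zero_iff.2 (by linarith)) hF
      rw [hfz ζ] at h4
      have h5 := hcont h4
      rw [nv_pr (hstay ζ (by linarith) hO).1, nv_pr hxu.1, dist_eq_norm] at h5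
      rw [sub_sub_sub_cancel_right]
      exact h5.le)
    (by
      refine le_trans (le_of_eq ?_) hn6
      refine Finset.sum_congr ?_ fun _ _ => rfl
      ext a
      simp only [Finset.mem_erase, Finset.mem_filter]
      tauto)
  have h1 : 2 * ε * (1 / 2 + 2 * θ) = ε + 4 * (ε * θ) := by ring
  have h2 : ε * (16 * (1 + θ)) = 16 * ε + 16 * (ε * θ) := by ring
  rw [h1] at hfin
  rw [h2] at hεθ
  have h3 : 0 ≤ ε * θ := mul_nonneg hε.le hθ
  linarith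

end Pool.Agent.SR3

end
end
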