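import Pool.Agent.H43.TL2.M178
import Pool.Agent.H43.TL2.M179
import Pool.Agent.H43.TL2.M181
import Pool.Agent.H43.TL2.SR3.Cnt

/-! The parts of this file: SR3.PreA_1, SR3.PreC_1, SR3.Stay. -/

section

/-!
# SR3 PreA: exit radii and Hofer's lemma
-/

set_option autoImplicit false

open Topology Filter Metric

noncomputable section

namespace Pool.Agent.SR3

open Pool.Agent.H36.BP (EN fs wd Sub OrdTwo)
open Pool.Agent.H14.PP (IsCone Tan)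
open Pool.Agent.SY (Ent)
open Pool.Agent.SDA (EnergyK Near AffOpen Nm nForms)
open Pool.Agent.H62.EF (MN pr continuousAt_pr)
open Pool.Agent.G3 (LLift)
open Geo (Gd)

namespace PreA

end PreA

variable {N : ℕ} {G : Geo N} {T : Set (EN N)} {rho : EN N → ℝ} {M : ℕ} {c₀ C δ : ℝ} {g : (ℂ → EN N) → ℂ → ℝ}

theorem exists_pre (hG : G.Ok) (hM : G.Met T rho M c₀ C δ g) (hQ : G.QN rho) {Y : Finset (EN N)} (hY : G.Ends Y) : ∃ ε₁ : ℝ, 0 < ε₁ ∧ ∀ ε₂ : ℝ, 0 < ε₂ → ε₂ ≤ ε₁ →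
    ∀ B₃ η θ θ' : ℝ, 0 < η → 0 < θ' → θ' < θ → θ < 1 → ∃ B₅ : ℝ, 0 < B₅ ∧ ∀ B₄ ε K : ℝ, 0 < ε → 2 * ε ≤ ε₂ → 20 ≤ K →
      (∀ n : ℕ, ∃ (q : G.J → ℂ) (F : ℂ → EN N) (z₀ : ℂ) (t : Finset ℂ) (s : ℂ → ℝ) (y : ℂ → EN N) (a z : ℂ), G.Cl T q F ∧ (n : ℝ) ≤ infDist z₀ (Gd rho δ F) ∧
        G.Holes Y B₃ B₄ ε K (Real.exp (-(η * infDist z₀ (Gd rho δ F)))) F z₀ (θ * infDist z₀ (Gd rho δ F)) t s y ∧ a ∈ t ∧
        ‖a - z₀‖ ≤ θ' * infDist z₀ (Gd rho δ F) ∧ ‖z - a‖ ≤ infDist z₀ (Gd rho δ F) / (n + 1) ∧ Off t s z ∧ ε₂ ≤ dist (pr (F z)) (pr (y a))) →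
      ∃ q F t s y a ρ d A, G.Pre T rho δ Y B₃ B₄ ε K ε₂ η B₅ q F t s y a ρ d A := by
  obtain ⟨ε₁, hε₁, hsepY⟩ := PreA.sepY hY
  refine ⟨ε₁, hε₁, fun ε₂ h0 h1 B₃ η θ θ' hη hθ' hθθ hθ1 => ?_⟩
  obtain ⟨B, hB, hcount⟩ := holes_count hG hM hQ (Y := Y) (B₃ := B₃) (η := η) (θ := θ) (θ' := (θ + θ') / 2) hη (by linarith) (by linarith) hθ1
  have hθ0 : 0 < 1 - θ := by linarith
  refine ⟨(B + 2) / (1 - θ), by positivity, fun B₄ ε K hε hεε hK hseq => ?_⟩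
  obtain ⟨R, hR, hcount⟩ := hcount B₄ ε K hK
  obtain ⟨κ, hκ0, hκ1, hκ2⟩ : ∃ κ : ℝ, 0 < κ ∧ κ ≤ 1 - θ ∧ 4 * κ ≤ θ - θ' :=
    ⟨min (1 - θ) ((θ - θ') / 4), lt_min hθ0 (by linarith), min_le_left _ _, by linarith [min_le_right (1 - θ) ((θ - θ') / 4)]⟩
  have key : ∀ n : ℕ, ∃ (q : G.J → ℂ) (F : ℂ → EN N) (t : Finset ℂ) (s : ℂ → ℝ) (y : ℂ → EN N) (a : ℂ) (ρ d A : ℝ),
      G.Cl T q F ∧ (0 < ρ ∧ (n : ℝ) ≤ d ∧ (n : ℝ) ≤ A ∧ A * ρ ≤ d) ∧ (∀ z, ‖z - a‖ ≤ A * ρ → d ≤ infDist z (Gd rho δ F)) ∧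
      infDist a (Gd rho δ F) ≤ (B + 2) / (1 - θ) * d ∧ a ∈ t ∧ (∀ b ∈ t, 0 < s b ∧ s b ≤ Real.exp (-(η * d))) ∧
      (∀ b ∈ t, ∀ b' ∈ t, b ≠ b' → K * max (s b) (s b') < ‖b - b'‖) ∧
      (∀ z, ‖z - a‖ ≤ A * ρ → Real.log ‖F z‖ ≤ B₃ → ∃ b ∈ t, ‖z - b‖ < s b / 2) ∧
      (∀ b ∈ t, G.Rim Y B₃ B₄ ε K (fun w => F (b + s b * w)) (y b)) ∧
      (∀ r, 0 < r → r < d → (((t.erase a).filter (fun b => ‖b - a‖ ≤ r)).card : ℝ) * Real.log (d / r) ≤ (B + 2) / (1 - θ) * d) ∧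
      (∀ z, ‖z - a‖ < ρ → Off t s z → dist (pr (F z)) (pr (y a)) < ε₂) ∧
      (∃ z, ‖z - a‖ = ρ ∧ Off t s z ∧ dist (pr (F z)) (pr (y a)) = ε₂) ∧
      (∀ b ∈ t, ‖b - a‖ ≤ A * ρ → ∀ z, ‖z - b‖ < ρ / 2 → Off t s z → dist (pr (F z)) (pr (y b)) < ε₂) := by
    intro n
    obtain ⟨m, hm⟩ := exists_nat_ge (max R ((n + 1) / κ))
    have hmR : R ≤ m := le_trans (le_max_left _ _) hm
    have hmn : (n + 1 : ℝ) ≤ κ * m := by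
      have h2 := le_trans (le_max_right R ((n + 1) / κ)) hm
      rw [div_le_iff₀ hκ0] at h2
      linarith
    obtain ⟨q, F, z₀, t, s, y, a₀, z₁, hF, hD, hH, ha₀, ha₀z, hz₁, hz₁o, hz₁d⟩ := hseq m
    obtain ⟨D, hDe⟩ : ∃ D, D = infDist z₀ (Gd rho δ F) := ⟨_, rfl⟩
    have hcnt := hcount q F hF z₀ t s y
    rw [← hDe] at hD hH ha₀z hz₁ hcnt
    have hn0 : (0 : ℝ) ≤ n := Nat.cast_nonneg n
    have hm0 : (0 : ℝ) < m := by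
      by_contra hc
      have h2 : κ * (m : ℝ) ≤ 0 := mul_nonpos_of_nonneg_of_nonpos hκ0.le (not_lt.1 hc)
      linarith
    have hD0 : 0 < D := lt_of_lt_of_le hm0 hD
    have hf : Continuous fun z => pr (F z) := by
      rw [continuous_iff_continuousAt]
      intro z
      exact (continuousAt_pr (ne0 hG (hF.ent.mem z))).comp (f := F) hF.ent.diff.continuous.continuousAt
    have hs : ∀ b ∈ t, 0 < s b := fun b hb => (hH.pos b hb).1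
    have hrim : ∀ b ∈ t, ∀ z, s b / 2 ≤ ‖z - b‖ → ‖z - b‖ ≤ K * s b → dist (pr (F z)) (pr (y b)) < ε := by
      intro b hb z hz1 hz2
      have hsb := hs b hb
      have hsb' : (s b : ℂ) ≠ 0 := Complex.ofReal_ne_zero.2 hsb.ne'
      have h2 := (hH.rim b hb).ann ((z - b) / s b)
      rw [norm_div, Complex.norm_real, Real.norm_of_nonneg hsb.le, le_div_iff₀ hsb, div_le_iff₀ hsb] at h2
      have h3 := (h2 (by linarith) hz2).2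
      have h4 : b + (s b : ℂ) * ((z - b) / s b) = z := by
        field_simp
        ring
      simp only [h4] at h3
      exact h3
    have hc : ∀ b ∈ t, ∀ b' ∈ t, dist (pr (y b)) (pr (y b')) < 2 * ε₁ → pr (y b) = pr (y b') := by
      intro b hb b' hb' h2
      rw [hsepY _ (hH.rim b hb).mem _ (hH.rim b' hb').mem h2]
    obtain ⟨ρ, hρ⟩ : ∃ ρ : ℂ → ℝ, ρ = PreA.rad (fun z => pr (F z)) t s (fun b => pr (y b)) ε₂ D := ⟨_, rfl⟩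
    have hρ0 : ∀ b ∈ t, 0 < ρ b := fun b hb => by
      rw [hρ]
      exact PreA.rad_pos hD0 hb (hs b hb)
    have hA : (0 : ℝ) < n + 1 := by linarith
    obtain ⟨a, ha, haa, hρa, hho⟩ := hofer hρ0 hA ha₀
    have hρ1 : ρ a₀ ≤ D / (m + 1) := by
      refine le_trans ?_ hz₁
      rw [hρ]
      exact PreA.rad_le hz₁o hz₁d
    have hAρ0 : (n + 1) * ρ a₀ ≤ κ * D := by
      have h2 : (0 : ℝ) < m + 1 := by linarith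
      rw [le_div_iff₀ h2] at hρ1
      have h3 : 0 < ρ a₀ := hρ0 a₀ ha₀
      calc (n + 1) * ρ a₀ ≤ κ * m * ρ a₀ := mul_le_mul_of_nonneg_right hmn h3.le
        _ ≤ κ * (ρ a₀ * (m + 1)) := by
          have h4 := mul_pos hκ0 h3
          linarith
        _ ≤ κ * D := mul_le_mul_of_nonneg_left hρ1 hκ0.le
    have hAρ : (n + 1) * ρ a ≤ κ * D := le_trans (mul_le_mul_of_nonneg_left hρa hA.le) hAρ0
    have hκD : κ * D ≤ (1 - θ) * D := mul_le_mul_of_nonneg_right hκ1 hD0.le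
    have hκD4 : 4 * (κ * D) ≤ (θ - θ') * D := by
      have h2 := mul_le_mul_of_nonneg_right hκ2 hD0.le
      linarith
    have haz : ‖a - z₀‖ ≤ θ' * D + 2 * (κ * D) := by
      have h2 := norm_sub_le_norm_sub_add_norm_sub a a₀ z₀
      linarith
    have hzz : ∀ z, ‖z - a‖ ≤ (n + 1) * ρ a → ‖z - z₀‖ ≤ θ * D := by
      intro z hz
      have h2 := norm_sub_le_norm_sub_add_norm_sub z a z₀
      linarith [mul_pos hκ0 hD0]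
    have haz2 : ‖a - z₀‖ ≤ (θ + θ') / 2 * D := by linarith
    have hρa0 : 0 < ρ a := hρ0 a ha
    have hρD : ρ a < D := by
      have h2 : ρ a ≤ (n + 1) * ρ a := le_mul_of_one_le_left hρa0.le (by linarith)
      have h3 : κ * D < D := mul_lt_of_lt_one_left hD0 (by linarith)
      linarith
    have hdD : (1 - θ) * D ≤ D := mul_le_of_le_one_left hD0.le (by linarith)
    refine ⟨q, F, t, s, y, a, ρ a, (1 - θ) * D, n + 1, hF, ⟨hρa0, ?_, by linarith, le_trans hAρ hκD⟩, ?_, ?_, ha, ?_, hH.sep, ?_, hH.rim, ?_, ?_, ?_, ?_⟩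
    · have h2 : κ * (m : ℝ) ≤ (1 - θ) * D := mul_le_mul hκ1 hD hm0.le hθ0.le
      linarith
    · intro z hz
      have h2 := infDist_le_infDist_add_dist (s := Gd rho δ F) (x := z₀) (y := z)
      rw [← hDe, dist_comm, dist_eq_norm] at h2
      linarith [hzz z hz]
    · have h2 := infDist_le_infDist_add_dist (s := Gd rho δ F) (x := a) (y := z₀)
      rw [← hDe, dist_eq_norm] at h2
      have h3 : (B + 2) / (1 - θ) * ((1 - θ) * D) = (B + 2) * D := by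
        field_simp
      rw [h3]
      have h4 : (θ + θ') / 2 * D ≤ D := mul_le_of_le_one_left hD0.le (by linarith)
      have h5 := mul_pos hB hD0
      linarith
    · intro b hb
      refine ⟨hs b hb, le_trans (hH.pos b hb).2 (Real.exp_le_exp.2 ?_)⟩
      have h4 := mul_le_mul_of_nonneg_left hdD hη.le
      linarith
    · intro z hz hl
      exact hH.cov z (by rw [mem_closedBall, dist_eq_norm]; exact hzz z hz) hl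
    · intro r hr hrd
      have h2 := (hcnt (le_trans hmR hD) hH).2 a ha haz2 r hr (by linarith)
      have h3 : (B + 2) / (1 - θ) * ((1 - θ) * D) = (B + 2) * D := by
        field_simp
      rw [h3]
      have h4 : Real.log ((1 - θ) * D / r) ≤ Real.log (D / r) :=
        Real.log_le_log (div_pos (by positivity) hr) (div_le_div_of_nonneg_right hdD hr.le)
      have h5 := mul_le_mul_of_nonneg_left h4 (Nat.cast_nonneg (α := ℝ) ((t.erase a).filter (fun b => ‖b - a‖ ≤ r)).card)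
      linarith
    · intro z hz ho
      rw [hρ] at hz
      exact PreA.rad_stay hz ho
    · rw [hρ] at hρD ⊢
      exact PreA.rad_exit hf hD0 hK (by linarith) (by linarith) hs hH.sep hrim hc ha hρD
    · intro b hb hba z hz ho
      have h2 := hho b hb hba
      have h3 : ‖z - b‖ < ρ b := lt_of_lt_of_le hz h2
      rw [hρ] at h3
      exact PreA.rad_stay h3 ho
  choose q F t s y a ρ d A h using key
  exact ⟨q, F, t, s, y, a, ρ, d, A, ⟨fun n => (h n).1, fun n => (h n).2.1, fun n => (h n).2.2.1, fun n => (h n).2.2.2.1, fun n => (h n).2.2.2.2.1,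
    fun n => (h n).2.2.2.2.2.1, fun n => (h n).2.2.2.2.2.2.1, fun n => (h n).2.2.2.2.2.2.2.1, fun n => (h n).2.2.2.2.2.2.2.2.1,
    fun n => (h n).2.2.2.2.2.2.2.2.2.1, fun n => (h n).2.2.2.2.2.2.2.2.2.2.1, fun n => (h n).2.2.2.2.2.2.2.2.2.2.2.1,
    fun n => (h n).2.2.2.2.2.2.2.2.2.2.2.2⟩⟩

end Pool.Agent.SR3

end
end

section

/-!
# SR3 PreC: rescaling at a minimal exit radius (assembly of `speedW`, `pre_small`, `pre_sum`)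
-/

set_option autoImplicit false

open Topology Filter Metric

noncomputable section

namespace Pool.Agent.SR3

open Pool.Agent.H36.BP (EN fs wd Sub OrdTwo)
open Pool.Agent.H14.PP (IsCone Tan)
open Pool.Agent.SY (Ent)
open Pool.Agent.SDA (EnergyK Near AffOpen Nm nForms)
open Pool.Agent.H62.EF (MN pr)
open Pool.Agent.G3 (LLift)
open Geo (Gd)

variable {N : ℕ} {G : Geo N} {T : Set (EN N)} {rho : EN N → ℝ} {M : ℕ} {c₀ C δ : ℝ} {g : (ℂ → EN N) → ℂ → ℝ}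

theorem exists_resc (hG : G.Ok) (hM : G.Met T rho M c₀ C δ g) (hQ : G.QN rho) {Y : Finset (EN N)} (hY : G.Ends Y) : ∃ ε₁ : ℝ, 0 < ε₁ ∧ ∀ ε₂ : ℝ, 0 < ε₂ → ε₂ ≤ ε₁ → ∃ B₀ : ℝ,
    ∀ B₃ B₄ ε K η B₅ : ℝ, B₀ ≤ B₃ → 0 < ε → 2 * ε ≤ ε₂ → 20 ≤ K → 0 < η → ∀ q F t s y a ρ d A, G.Pre T rho δ Y B₃ B₄ ε K ε₂ η B₅ q F t s y a ρ d A →
      ∃ (𝒰 : Ultrafilter ℕ) (Γ : ℕ → ℂ → EN N) (t' : ℕ → Finset ℂ) (s' : ℕ → ℂ → ℝ) (y' : ℕ → ℂ → EN N),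
        G.Res Y B₃ B₄ ε K ε₂ (B₅ / η + 1) 𝒰 Γ t' s' y' := by
  classical
  obtain ⟨e₁, he₁, hsep⟩ := PreC_sep hY
  obtain ⟨e₂, he₂, hsm⟩ := pre_small hG hM hQ hY
  obtain ⟨B₁, hspd⟩ := speedW hG hM hQ hY
  refine ⟨min e₁ e₂, lt_min he₁ he₂, fun ε₂ hε₂ hle => ?_⟩
  obtain ⟨B₂, hsm⟩ := hsm ε₂ hε₂ (hle.trans (min_le_right _ _))
  refine ⟨max B₁ B₂, fun B₃ B₄ ε K η B₅ hB hε hεε hK hη q F t s y a ρ d A hP => ?_⟩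
  have h𝒰 : ((hyperfilter ℕ : Ultrafilter ℕ) : Filter ℕ) ≤ atTop := Nat.hyperfilter_le_atTop
  have hsm' : ∀ R τ : ℝ, 0 < τ → ∀ᶠ n in ((hyperfilter ℕ : Ultrafilter ℕ) : Filter ℕ), ∀ b ∈ t n, ‖b - a n‖ ≤ R * ρ n → s n b ≤ τ * ρ n :=
    hsm B₃ B₄ ε K η B₅ ((le_max_right _ _).trans hB) hε hK hη q F t s y a ρ d A hP _ h𝒰
  obtain ⟨hsum1, hsum2⟩ := pre_sum hK hη hP _ h𝒰 hsm'
  obtain ⟨B, R₀, hB0, hR0, hspd⟩ := hspd B₃ ((le_max_left _ _).trans hB)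
  obtain ⟨Γ, t', s', y', h⟩ := PreC_core hsep (hle.trans (min_le_left _ _)) hK hP h𝒰 hsm' hsum1 hsum2 hB0 hspd
  exact ⟨_, Γ, t', s', y', h⟩

end Pool.Agent.SR3

end
end

section

/-!
# SR3 Stay: the curve stays near the end of a hole, up to a distance proportional to `infDist z₀ (Gd rho δ F)`

PROOF.  If not, there is a sequence of counterexamples with `κ = 1 / (n + 1)`; `exists_pre`, `exists_resc`, `res_false`.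
-/

set_option autoImplicit false

open Topology Filter Metric

noncomputable section

namespace Pool.Agent.SR3

open Pool.Agent.H36.BP (EN fs wd Sub OrdTwo)
open Pool.Agent.H14.PP (IsCone Tan)
open Pool.Agent.SY (Ent)
open Pool.Agent.SDA (EnergyK Near AffOpen Nm nForms)
open Pool.Agent.H62.EF (MN pr)
open Pool.Agent.G3 (LLift)
open Geo (Gd)

variable {N : ℕ} {G : Geo N} {T : Set (EN N)} {rho : EN N → ℝ} {M : ℕ} {c₀ C δ : ℝ} {g : (ℂ → EN N) → ℂ → ℝ}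

/-- `stay` from the statements of `exists_pre`, `exists_resc`, `res_false` -/
private theorem Stay_core {Y : Finset (EN N)}
    (hpre : ∃ ε₁ : ℝ, 0 < ε₁ ∧ ∀ ε₂ : ℝ, 0 < ε₂ → ε₂ ≤ ε₁ →
    ∀ B₃ η θ θ' : ℝ, 0 < η → 0 < θ' → θ' < θ → θ < 1 → ∃ B₅ : ℝ, 0 < B₅ ∧ ∀ B₄ ε K : ℝ, 0 < ε → 2 * ε ≤ ε₂ → 20 ≤ K →
      (∀ n : ℕ, ∃ (q : G.J → ℂ) (F : ℂ → EN N) (z₀ : ℂ) (t : Finset ℂ) (s : ℂ → ℝ) (y : ℂ → EN N) (a z : ℂ), G.Cl T q F ∧ (n : ℝ) ≤ infDist z₀ (Gd rho δ F) ∧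
        G.Holes Y B₃ B₄ ε K (Real.exp (-(η * infDist z₀ (Gd rho δ F)))) F z₀ (θ * infDist z₀ (Gd rho δ F)) t s y ∧ a ∈ t ∧
        ‖a - z₀‖ ≤ θ' * infDist z₀ (Gd rho δ F) ∧ ‖z - a‖ ≤ infDist z₀ (Gd rho δ F) / (n + 1) ∧ Off t s z ∧ ε₂ ≤ dist (pr (F z)) (pr (y a))) →
      ∃ q F t s y a ρ d A, G.Pre T rho δ Y B₃ B₄ ε K ε₂ η B₅ q F t s y a ρ d A)
    (hresc : ∃ ε₁ : ℝ, 0 < ε₁ ∧ ∀ ε₂ : ℝ, 0 < ε₂ → ε₂ ≤ ε₁ → ∃ B₀ : ℝ,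
    ∀ B₃ B₄ ε K η B₅ : ℝ, B₀ ≤ B₃ → 0 < ε → 2 * ε ≤ ε₂ → 20 ≤ K → 0 < η → ∀ q F t s y a ρ d A, G.Pre T rho δ Y B₃ B₄ ε K ε₂ η B₅ q F t s y a ρ d A →
      ∃ (𝒰 : Ultrafilter ℕ) (Γ : ℕ → ℂ → EN N) (t' : ℕ → Finset ℂ) (s' : ℕ → ℂ → ℝ) (y' : ℕ → ℂ → EN N),
        G.Res Y B₃ B₄ ε K ε₂ (B₅ / η + 1) 𝒰 Γ t' s' y')
    (hfalse : ∃ ε₁ : ℝ, 0 < ε₁ ∧ ∀ ε₂ θ : ℝ, 0 < ε₂ → ε₂ ≤ ε₁ → 0 ≤ θ → ∃ ε₀ : ℝ, 0 < ε₀ ∧
    ∀ B₃ B₄ ε K : ℝ, 0 < ε → ε ≤ ε₀ → 20 ≤ K → ∀ 𝒰 Γ t s y, ¬ G.Res Y B₃ B₄ ε K ε₂ θ 𝒰 Γ t s y)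
    : ∃ ε₁ : ℝ, 0 < ε₁ ∧ ∀ ε₂ : ℝ, 0 < ε₂ → ε₂ ≤ ε₁ → ∃ B₀ : ℝ,
    ∀ B₃ : ℝ, B₀ ≤ B₃ → ∀ η θ θ' : ℝ, 0 < η → 0 < θ' → θ' < θ → θ < 1 → ∃ ε₀ : ℝ, 0 < ε₀ ∧ ∀ ε : ℝ, 0 < ε → ε ≤ ε₀ → ∀ K B₄ : ℝ, 20 ≤ K → ∃ κ R : ℝ, 0 < κ ∧ 0 < R ∧
    ∀ (q : G.J → ℂ) (F : ℂ → EN N), G.Cl T q F → ∀ z₀ t s y, R ≤ infDist z₀ (Gd rho δ F) →
      G.Holes Y B₃ B₄ ε K (Real.exp (-(η * infDist z₀ (Gd rho δ F)))) F z₀ (θ * infDist z₀ (Gd rho δ F)) t s y →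
      ∀ a ∈ t, ‖a - z₀‖ ≤ θ' * infDist z₀ (Gd rho δ F) → ∀ z, ‖z - a‖ ≤ κ * infDist z₀ (Gd rho δ F) → Off t s z → dist (pr (F z)) (pr (y a)) < ε₂ := by
  obtain ⟨ε₁, hε₁, h1⟩ := hpre
  obtain ⟨ε₁', hε₁', h2⟩ := hresc
  obtain ⟨ε₁'', hε₁'', h3⟩ := hfalse
  refine ⟨min ε₁ (min ε₁' ε₁''), lt_min hε₁ (lt_min hε₁' hε₁''), fun ε₂ hε₂ hle => ?_⟩
  have hle1 : ε₂ ≤ ε₁ := hle.trans (min_le_left _ _)
  have hle2 : ε₂ ≤ ε₁' := hle.trans ((min_le_right _ _).trans (min_le_left _ _))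
  have hle3 : ε₂ ≤ ε₁'' := hle.trans ((min_le_right _ _).trans (min_le_right _ _))
  obtain ⟨B₀, h2⟩ := h2 ε₂ hε₂ hle2
  refine ⟨B₀, fun B₃ hB₃ η θ θ' hη hθ' hθθ hθ => ?_⟩
  obtain ⟨B₅, hB₅, h1⟩ := h1 ε₂ hε₂ hle1 B₃ η θ θ' hη hθ' hθθ hθ
  obtain ⟨ε₀, hε₀, h3⟩ := h3 ε₂ (B₅ / η + 1) hε₂ hle3 (by positivity)
  refine ⟨min ε₀ (ε₂ / 2), lt_min hε₀ (by positivity), fun ε hε hεε K B₄ hK => ?_⟩
  have hε0 : ε ≤ ε₀ := hεε.trans (min_le_left _ _)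
  have hε2 : 2 * ε ≤ ε₂ := by
    have := hεε.trans (min_le_right _ _)
    linarith
  by_contra hcon
  have hseq : ∀ n : ℕ, ∃ (q : G.J → ℂ) (F : ℂ → EN N) (z₀ : ℂ) (t : Finset ℂ) (s : ℂ → ℝ) (y : ℂ → EN N) (a z : ℂ), G.Cl T q F ∧ (n : ℝ) ≤ infDist z₀ (Gd rho δ F) ∧
        G.Holes Y B₃ B₄ ε K (Real.exp (-(η * infDist z₀ (Gd rho δ F)))) F z₀ (θ * infDist z₀ (Gd rho δ F)) t s y ∧ a ∈ t ∧
        ‖a - z₀‖ ≤ θ' * infDist z₀ (Gd rho δ F) ∧ ‖z - a‖ ≤ infDist z₀ (Gd rho δ F) / (n + 1) ∧ Off t s z ∧ ε₂ ≤ dist (pr (F z)) (pr (y a)) := by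
    intro n
    have hn : (0 : ℝ) < (n : ℝ) + 1 := by positivity
    by_contra hc
    refine hcon ⟨1 / ((n : ℝ) + 1), (n : ℝ) + 1, by positivity, hn, fun q F hF z₀ t s y hR hH a ha hab z hz hoff => ?_⟩
    by_contra hd
    refine hc ⟨q, F, z₀, t, s, y, a, z, hF, ?_, hH, ha, hab, ?_, hoff, not_lt.1 hd⟩
    · linarith
    · rw [one_div, inv_mul_eq_div] at hz
      exact hz
  obtain ⟨q, F, t, s, y, a, ρ, d, A, hpre2⟩ := h1 B₄ ε K hε hε2 hK hseq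
  obtain ⟨𝒰, Γ, t', s', y', hres⟩ := h2 B₃ B₄ ε K η B₅ hB₃ hε hε2 hK hη q F t s y a ρ d A hpre2
  exact h3 B₃ B₄ ε K hε hε0 hK 𝒰 Γ t' s' y' hres

theorem stay (hG : G.Ok) (hM : G.Met T rho M c₀ C δ g) (hQ : G.QN rho) (hB : G.Bdry) {Y : Finset (EN N)} (hY : G.Ends Y) : ∃ ε₁ : ℝ, 0 < ε₁ ∧ ∀ ε₂ : ℝ, 0 < ε₂ → ε₂ ≤ ε₁ → ∃ B₀ : ℝ,
    ∀ B₃ : ℝ, B₀ ≤ B₃ → ∀ η θ θ' : ℝ, 0 < η → 0 < θ' → θ' < θ → θ < 1 → ∃ ε₀ : ℝ, 0 < ε₀ ∧ ∀ ε : ℝ, 0 < ε → ε ≤ ε₀ → ∀ K B₄ : ℝ, 20 ≤ K → ∃ κ R : ℝ, 0 < κ ∧ 0 < R ∧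
    ∀ (q : G.J → ℂ) (F : ℂ → EN N), G.Cl T q F → ∀ z₀ t s y, R ≤ infDist z₀ (Gd rho δ F) →
      G.Holes Y B₃ B₄ ε K (Real.exp (-(η * infDist z₀ (Gd rho δ F)))) F z₀ (θ * infDist z₀ (Gd rho δ F)) t s y →
      ∀ a ∈ t, ‖a - z₀‖ ≤ θ' * infDist z₀ (Gd rho δ F) → ∀ z, ‖z - a‖ ≤ κ * infDist z₀ (Gd rho δ F) → Off t s z → dist (pr (F z)) (pr (y a)) < ε₂ :=
  Stay_core (exists_pre hG hM hQ hY) (exists_resc hG hM hQ hY) (res_false hG hB hY)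

end Pool.Agent.SR3

end
end
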