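import Pool.Agent.H43.TL2.M134
import Pool.Agent.H43.TL2.M139
import Pool.Agent.H43.TL2.M147
import Pool.Agent.H43.TL2.M17
import Pool.Agent.H43.TL2.M60
import Pool.Agent.H43.TL2.SR3.ALam_1

/-! The parts of this file: SR3.ZDisc, SR3.EGa, SR3.F.Jen, SR3.F.Psi, SR3.LCrs. -/

section

/-!
# SR3 ZDisc: a logarithmic gain

`v` is subharmonic for the logarithm on the disc with centre `r` and radius `r`, with a bounded error in a neighbourhood of width one of the circle, and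
`v z ≤ exp (A - c |Im z| + B (2 + |z|) ^ γ)`.  Then `v 1 ≤ exp (A' - c / 3 log r)`.  Comparison with the real part of
`(c / 3) (z log z - log (2 r) z) + B' (z + 2) ^ γ`.
-/

set_option autoImplicit false

open Topology Filter Metric

noncomputable section

namespace Pool.Agent.SR3

open Pool.Agent.H36.BP (Sub Sub.anti Sub.mul Sub.congr Sub.of_holo Sub.exp_sq max_principle)

/-- on the circle `|z - r| = r` -/
private theorem zd_circle {r : ℝ} {z : ℂ} (h : ‖z - r‖ = r) : ‖z‖ ^ 2 = 2 * r * z.re := by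
  have h1 : ‖z - r‖ ^ 2 = r ^ 2 := by rw [h]
  rw [← Complex.normSq_eq_norm_sq, Complex.normSq_apply] at h1 ⊢
  simp only [Complex.sub_re, Complex.ofReal_re, Complex.sub_im, Complex.ofReal_im, sub_zero] at h1
  nlinarith

private theorem zd_log_re (z : ℂ) : (z * Complex.log z).re = z.re * Real.log ‖z‖ - z.im * Complex.arg z := by
  rw [Complex.mul_re, Complex.log_re, Complex.log_im]

/-- the boundary values of the first part -/
private theorem zd_bdy {r : ℝ} (hr : 0 < r) {z : ℂ} (h : ‖z - r‖ = r) :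
    -(3 * |z.im|) ≤ (z * Complex.log z).re - Real.log (2 * r) * z.re := by
  have h1 := zd_circle h
  have h2 : 0 ≤ z.re := by
    have : 0 ≤ 2 * r * z.re := by rw [← h1]; positivity
    by_contra hc
    push Not at hc
    nlinarith
  rw [zd_log_re]
  have h3 : |Complex.arg z| ≤ Real.pi / 2 := Complex.abs_arg_le_pi_div_two_iff.2 h2
  have h4 : z.im * Complex.arg z ≤ 2 * |z.im| := by
    refine (le_abs_self _).trans ?_
    rw [abs_mul, mul_comm]
    refine mul_le_mul_of_nonneg_right (h3.trans ?_) (abs_nonneg _)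
    linarith [Real.pi_lt_four]
  rcases eq_or_ne z 0 with h0 | h0
  · rw [h0]; simp
  have hz : 0 < ‖z‖ := norm_pos_iff.2 h0
  -- `log (2 r / |z|) ≤ 2 r / |z| - 1`
  have h5 : Real.log (2 * r) - Real.log ‖z‖ ≤ 2 * r / ‖z‖ - 1 := by
    rw [← Real.log_div (by positivity) hz.ne']
    exact Real.log_le_sub_one_of_pos (by positivity)
  have h6 : z.re * (Real.log (2 * r) - Real.log ‖z‖) ≤ z.re * (2 * r / ‖z‖ - 1) := mul_le_mul_of_nonneg_left h5 h2
  have h7 : z.re * (2 * r / ‖z‖ - 1) = ‖z‖ - z.re := by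
    have : z.re * (2 * r / ‖z‖) = ‖z‖ := by
      rw [mul_div_assoc', div_eq_iff hz.ne']
      linarith
    rw [mul_sub, this, mul_one]
  have h8 : ‖z‖ ≤ z.re + |z.im| := by
    have := Complex.norm_le_abs_re_add_abs_im z
    rwa [abs_of_nonneg h2] at this
  nlinarith

/-- the boundary values of the second part -/
private theorem zd_pow {γ : ℝ} (hγ : 0 < γ) (hγ1 : γ < 1) {z : ℂ} (h : 0 ≤ z.re) :
    (2 + ‖z‖) ^ γ * Real.cos (γ * (Real.pi / 2)) ≤ 2 * ((z + 2) ^ (γ : ℂ)).re := by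
  have h0 : 0 ≤ (z + 2).re := by simp; linarith
  rw [Complex.cpow_ofReal_re]
  have h1 : |Complex.arg (z + 2)| ≤ Real.pi / 2 := Complex.abs_arg_le_pi_div_two_iff.2 h0
  have h2 : Real.cos (γ * (Real.pi / 2)) ≤ Real.cos (Complex.arg (z + 2) * γ) := by
    rw [← Real.cos_abs (Complex.arg (z + 2) * γ), abs_mul, abs_of_pos hγ, mul_comm |_| γ]
    refine Real.cos_le_cos_of_nonneg_of_le_pi (by positivity) ?_ (mul_le_mul_of_nonneg_left h1 hγ.le)
    nlinarith [Real.pi_pos]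
  have hc : 0 < Real.cos (γ * (Real.pi / 2)) := by
    refine Real.cos_pos_of_mem_Ioo ⟨?_, ?_⟩
    · nlinarith [Real.pi_pos]
    · nlinarith [Real.pi_pos]
  have h3 : (2 + ‖z‖) ≤ 2 * ‖z + 2‖ := by
    have h4 : 2 ≤ ‖z + 2‖ := by
      refine le_trans ?_ (Complex.re_le_norm _)
      simp
      linarith
    have h5 : ‖z‖ ≤ ‖z + 2‖ := by
      rw [← sq_le_sq₀ (norm_nonneg _) (norm_nonneg _), ← Complex.normSq_eq_norm_sq, ← Complex.normSq_eq_norm_sq, Complex.normSq_apply,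
        Complex.normSq_apply]
      simp
      nlinarith
    linarith
  have h4 : (2 + ‖z‖) ^ γ ≤ 2 * ‖z + 2‖ ^ γ := by
    refine (Real.rpow_le_rpow (by positivity) h3 hγ.le).trans ?_
    rw [Real.mul_rpow (by norm_num) (norm_nonneg _)]
    refine mul_le_mul_of_nonneg_right ?_ (Real.rpow_nonneg (norm_nonneg _) _)
    calc (2 : ℝ) ^ γ ≤ 2 ^ (1 : ℝ) := Real.rpow_le_rpow_of_exponent_le (by norm_num) hγ1.le
      _ = 2 := Real.rpow_one 2
  calc (2 + ‖z‖) ^ γ * Real.cos (γ * (Real.pi / 2)) ≤ (2 * ‖z + 2‖ ^ γ) * Real.cos (Complex.arg (z + 2) * γ) :=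
        mul_le_mul h4 h2 hc.le (by positivity)
    _ = 2 * (‖z + 2‖ ^ γ * Real.cos (Complex.arg (z + 2) * γ)) := by ring

private theorem zd_cont0 : ContinuousAt (fun z : ℂ => z * Complex.log z) 0 := by
  have h0 : (0 : ℂ) * Complex.log 0 = 0 := by simp
  rw [ContinuousAt, h0, tendsto_zero_iff_norm_tendsto_zero]
  have h1 : Tendsto (fun z : ℂ => |‖z‖ * Real.log ‖z‖| + Real.pi * ‖z‖) (𝓝 0) (𝓝 0) := by
    have h2 : Continuous fun z : ℂ => |‖z‖ * Real.log ‖z‖| + Real.pi * ‖z‖ :=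
      ((Real.continuous_mul_log.comp continuous_norm).abs).add (continuous_const.mul continuous_norm)
    have h3 := h2.tendsto 0
    simpa using h3
  refine squeeze_zero (fun z => norm_nonneg _) (fun z => ?_) h1
  rw [norm_mul, abs_mul, abs_norm, ← mul_comm ‖z‖ Real.pi, ← mul_add]
  refine mul_le_mul_of_nonneg_left ?_ (norm_nonneg _)
  refine (Complex.norm_le_abs_re_add_abs_im _).trans ?_
  rw [Complex.log_re, Complex.log_im]
  linarith [Complex.abs_arg_le_pi z]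

/-- the disc -/
private theorem zd_re {r : ℝ} (hr : 0 < r) {z : ℂ} (h : ‖z - r‖ ≤ r) : z = 0 ∨ 0 < z.re := by
  have h1 : ‖z - r‖ ^ 2 ≤ r ^ 2 := pow_le_pow_left₀ (norm_nonneg _) h 2
  rw [← Complex.normSq_eq_norm_sq, Complex.normSq_apply] at h1
  simp only [Complex.sub_re, Complex.ofReal_re, Complex.sub_im, Complex.ofReal_im, sub_zero] at h1
  by_cases h2 : 0 < z.re
  · exact Or.inr h2
  · left
    push Not at h2
    have h3 : z.re * z.re + z.im * z.im ≤ 2 * r * z.re := by nlinarith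
    have h4 : 2 * r * z.re ≤ 0 := by nlinarith
    have h5 : z.re * z.re = 0 := by nlinarith [mul_self_nonneg z.re, mul_self_nonneg z.im]
    have h6 : z.im * z.im = 0 := by nlinarith [mul_self_nonneg z.re, mul_self_nonneg z.im]
    exact Complex.ext (mul_self_eq_zero.1 h5) (mul_self_eq_zero.1 h6)

theorem disc_gain {γ c k A B : ℝ} (hγ : 0 < γ) (hγ1 : γ < 1) (hc : 0 < c) (hk : 0 ≤ k) (hB : 0 ≤ B) :
    ∃ A' : ℝ, ∀ r : ℝ, 2 < r → ∀ v : ℂ → ℝ, UpperSemicontinuousOn v (closedBall (r : ℂ) r) → (∀ z, 0 ≤ v z) →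
      (∀ z ∈ ball (r : ℂ) r, 0 < v z → Sub v z (-k)) → (∀ z ∈ ball (r : ℂ) (r - 1), 0 < v z → Sub v z 0) →
      (∀ z ∈ closedBall (r : ℂ) r, v z ≤ Real.exp (A - c * |z.im| + B * (2 + ‖z‖) ^ γ)) → v 1 ≤ Real.exp (A' - c / 3 * Real.log r) := by
  have hcos : 0 < Real.cos (γ * (Real.pi / 2)) := by
    refine Real.cos_pos_of_mem_Ioo ⟨?_, ?_⟩
    · nlinarith [Real.pi_pos]
    · nlinarith [Real.pi_pos]
  obtain ⟨B₁, hB₁⟩ : ∃ B₁, B₁ = 2 * B / Real.cos (γ * (Real.pi / 2)) := ⟨_, rfl⟩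
  have hB₁0 : 0 ≤ B₁ := by rw [hB₁]; positivity
  refine ⟨A + 8 * k + 4 + 3 * B₁, fun r hr v husc hv0 hs1 hs2 hle => ?_⟩
  have hr0 : 0 < r := by linarith
  -- the comparison function
  obtain ⟨H, hH⟩ : ∃ H : ℂ → ℂ, H = fun z => ((c / 3 : ℝ) : ℂ) * (z * Complex.log z - (Real.log (2 * r) : ℂ) * z) + (B₁ : ℂ) * (z + 2) ^ (γ : ℂ) :=
    ⟨_, rfl⟩
  have hHre : ∀ z, (H z).re = c / 3 * ((z * Complex.log z).re - Real.log (2 * r) * z.re) + B₁ * ((z + 2) ^ (γ : ℂ)).re := by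
    intro z
    rw [hH]
    simp only [Complex.add_re, Complex.re_ofReal_mul, Complex.sub_re]
  have hslit : ∀ z : ℂ, 0 ≤ z.re → z + 2 ∈ Complex.slitPlane := fun z hz => Or.inl (by simp; linarith)
  have hHan : ∀ z : ℂ, 0 < z.re → AnalyticAt ℂ H z := by
    intro z hz
    rw [hH]
    refine (analyticAt_const.mul ((analyticAt_id.mul (analyticAt_clog (Or.inl hz))).sub (analyticAt_const.mul analyticAt_id))).add
      (analyticAt_const.mul ?_)
    exact (analyticAt_id.add analyticAt_const).cpow analyticAt_const (hslit z hz.le)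
  have hHc : ContinuousOn H (closedBall (r : ℂ) r) := by
    intro z hz
    rw [mem_closedBall, dist_eq_norm] at hz
    rcases zd_re hr0 hz with h0 | h0
    · rw [h0]
      have h1 : ContinuousAt (fun z : ℂ => (z + 2) ^ (γ : ℂ)) 0 :=
        (((analyticAt_id (𝕜 := ℂ) (z := (0 : ℂ))).add analyticAt_const).cpow analyticAt_const (hslit 0 le_rfl)).continuousAt
      have h2 : ContinuousAt H 0 := by
        rw [hH]
        exact (continuousAt_const.mul (zd_cont0.sub (continuousAt_const.mul continuousAt_id))).add (continuousAt_const.mul h1)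
      exact h2.continuousWithinAt
    · exact (hHan z h0).continuousAt.continuousWithinAt
  have hHbdy : ∀ z : ℂ, ‖z - r‖ = r → -(c * |z.im|) + B * (2 + ‖z‖) ^ γ ≤ (H z).re := by
    intro z hz
    have hre : 0 ≤ z.re := by
      rcases zd_re hr0 hz.le with h0 | h0
      · rw [h0]; simp
      · exact h0.le
    rw [hHre]
    have h1 := mul_le_mul_of_nonneg_left (zd_bdy hr0 hz) (by positivity : (0 : ℝ) ≤ c / 3)
    have h2 := mul_le_mul_of_nonneg_left (zd_pow hγ hγ1 hre) (by positivity : (0 : ℝ) ≤ B / Real.cos (γ * (Real.pi / 2)))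
    have h3 : B / Real.cos (γ * (Real.pi / 2)) * ((2 + ‖z‖) ^ γ * Real.cos (γ * (Real.pi / 2))) = B * (2 + ‖z‖) ^ γ := by
      rw [mul_comm ((2 + ‖z‖) ^ γ), ← mul_assoc, div_mul_cancel₀ _ hcos.ne']
    have h4 : B / Real.cos (γ * (Real.pi / 2)) * (2 * ((z + 2) ^ (γ : ℂ)).re) = B₁ * ((z + 2) ^ (γ : ℂ)).re := by
      rw [hB₁]; ring
    rw [h3, h4] at h2
    linarith
  -- the function
  obtain ⟨ε, hε⟩ : ∃ ε : ℝ, ε = 1 / r ^ 2 := ⟨_, rfl⟩
  have hε0 : 0 < ε := by rw [hε]; positivity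
  obtain ⟨f, hf⟩ : ∃ f : ℂ → ℝ, f = fun z => ‖Complex.exp (-H z)‖ * (Real.exp (2 * k * max (‖z - r‖ - (r - 2)) 0 ^ 2) * Real.exp (ε * ‖z‖ ^ 2)) :=
    ⟨_, rfl⟩
  have hf0 : ∀ z, 0 < f z := fun z => by
    rw [hf]
    exact mul_pos (norm_pos_iff.2 (Complex.exp_ne_zero _)) (by positivity)
  have hfe : ∀ z, f z = Real.exp (-(H z).re + 2 * k * max (‖z - r‖ - (r - 2)) 0 ^ 2 + ε * ‖z‖ ^ 2) := fun z => by
    rw [hf]
    show ‖Complex.exp (-H z)‖ * (Real.exp (2 * k * max (‖z - r‖ - (r - 2)) 0 ^ 2) * Real.exp (ε * ‖z‖ ^ 2)) = _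
    rw [Complex.norm_exp, Complex.neg_re, ← Real.exp_add, ← Real.exp_add, add_assoc]
  have hfc : ContinuousOn f (closedBall (r : ℂ) r) := by
    rw [hf]
    refine (hHc.neg.cexp.norm).mul (Continuous.continuousOn ?_)
    fun_prop
  have huscf : UpperSemicontinuousOn (fun z => v z * f z) (closedBall (r : ℂ) r) := by
    intro z hz y hy
    have hy' : v z * f z < y := hy
    have h1 : v z < y / f z := (lt_div_iff₀ (hf0 z)).2 hy'
    obtain ⟨a, ha1, ha2⟩ := exists_between h1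
    have h2 : a * f z < y := (lt_div_iff₀ (hf0 z)).1 ha2
    have h3 : ∀ᶠ w in 𝓝[closedBall (r : ℂ) r] z, a * f w < y :=
      ((continuousWithinAt_const.mul (hfc z hz)).tendsto).eventually (gt_mem_nhds h2)
    filter_upwards [husc z hz a ha1, h3] with w hw1 hw2
    exact (mul_lt_mul_of_pos_right hw1 (hf0 w)).trans hw2
  have key := max_principle (isCompact_closedBall (r : ℂ) r) isOpen_ball ball_subset_closedBall (u := fun z => v z * f z) huscf
    (fun z hz hvz => ?_) (Real.exp_pos (A + 8 * k + 4)).le (fun z hz => ?_) 1 ?_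
  · have h1 : f 1 = Real.exp (-(H 1).re + 2 * k * max (‖(1 : ℂ) - r‖ - (r - 2)) 0 ^ 2 + ε * ‖(1 : ℂ)‖ ^ 2) := hfe 1
    have h2 : Real.exp (-(H 1).re) ≤ f 1 := by
      rw [h1, Real.exp_le_exp]
      have : 0 ≤ 2 * k * max (‖(1 : ℂ) - r‖ - (r - 2)) 0 ^ 2 + ε * ‖(1 : ℂ)‖ ^ 2 := by positivity
      linarith
    have h3 : v 1 * Real.exp (-(H 1).re) ≤ Real.exp (A + 8 * k + 4) := (mul_le_mul_of_nonneg_left h2 (hv0 1)).trans key
    have h4 : (H 1).re ≤ 3 * B₁ - c / 3 * Real.log r := by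
      rw [hHre]
      have h5 : (((1 : ℂ) + 2) ^ (γ : ℂ)).re ≤ 3 := by
        refine (Complex.re_le_norm _).trans ?_
        have h6 : (1 : ℂ) + 2 = ((3 : ℝ) : ℂ) := by push_cast; norm_num
        rw [h6, Complex.norm_cpow_eq_rpow_re_of_pos (by norm_num), Complex.ofReal_re]
        calc (3 : ℝ) ^ γ ≤ 3 ^ (1 : ℝ) := Real.rpow_le_rpow_of_exponent_le (by norm_num) hγ1.le
          _ = 3 := Real.rpow_one 3
      have h6 : Real.log (2 * r) = Real.log 2 + Real.log r := Real.log_mul (by norm_num) hr0.ne'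
      have h7 : 0 ≤ Real.log 2 := Real.log_nonneg (by norm_num)
      have h8 : (((1 : ℂ)) * Complex.log 1).re = 0 := by simp
      rw [h8, h6, Complex.one_re]
      have h9 := mul_le_mul_of_nonneg_left h5 hB₁0
      have h10 : 0 ≤ c / 3 * Real.log 2 := by positivity
      have h11 : c / 3 * (0 - (Real.log 2 + Real.log r) * 1) = -(c / 3 * Real.log 2) - c / 3 * Real.log r := by ring
      rw [h11]
      generalize (((1 : ℂ) + 2) ^ (γ : ℂ)).re = t at h9 ⊢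
      linarith
    have h5 : v 1 ≤ Real.exp (A + 8 * k + 4) * Real.exp ((H 1).re) := by
      have h6 : v 1 = v 1 * Real.exp (-(H 1).re) * Real.exp ((H 1).re) := by
        rw [mul_assoc, ← Real.exp_add, neg_add_cancel, Real.exp_zero, mul_one]
      rw [h6]
      exact mul_le_mul_of_nonneg_right h3 (Real.exp_pos _).le
    refine h5.trans ?_
    rw [← Real.exp_add, Real.exp_le_exp]
    linarith
  · -- the Laplacian
    have hv : 0 < v z := by
      by_contra hcon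
      have : v z * f z ≤ 0 := mul_nonpos_of_nonpos_of_nonneg (not_lt.1 hcon) (hf0 z).le
      linarith
    have hzn : ‖z - r‖ < r := by
      rw [mem_ball, dist_eq_norm] at hz
      exact hz
    have hre : 0 < z.re := by
      rcases zd_re hr0 hzn.le with h0 | h0
      · exfalso
        rw [h0, zero_sub, norm_neg, Complex.norm_real, Real.norm_eq_abs, abs_of_pos hr0] at hzn
        exact lt_irrefl _ hzn
      · exact h0
    have h1 : Sub (fun w => ‖Complex.exp (-H w)‖) z 0 := Sub.of_holo ((hHan z hre).neg.cexp) (Complex.exp_ne_zero _)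
    have h2 : Sub (fun w => Real.exp (ε * ‖w‖ ^ 2)) z (ε * ‖deriv (fun w : ℂ => w) z‖ ^ 2) := Sub.exp_sq analyticAt_id _
    have h3 : deriv (fun w : ℂ => w) z = 1 := deriv_id z
    rw [h3, norm_one, one_pow, mul_one] at h2
    by_cases hz1 : ‖z - r‖ < r - 1
    · have h4 := hs2 z (by rw [mem_ball, dist_eq_norm]; exact hz1) hv
      have h5 := sub_rad (2 * k) (r - 2) (by positivity) (r : ℂ) z
      refine ⟨0 + (0 + (0 + ε)), by linarith, ?_⟩
      rw [hf]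
      exact h4.mul (h1.mul (h5.mul h2))
    · have h4 := hs1 z hz hv
      have h5 : Sub (fun w => Real.exp (2 * k * max (‖w - r‖ - (r - 2)) 0 ^ 2)) z (2 * k / 2) :=
        sub_rad' (by positivity) (by linarith [not_lt.1 hz1])
      refine ⟨-k + (0 + (2 * k / 2 + ε)), by linarith, ?_⟩
      rw [hf]
      exact h4.mul (h1.mul (h5.mul h2))
  · -- the boundary
    have hzn : ‖z - r‖ = r := by
      have h1 : z ∈ sphere (r : ℂ) r := by
        rw [← closedBall_sdiff_ball]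
        exact hz
      rw [mem_sphere, dist_eq_norm] at h1
      exact h1
    show v z * f z ≤ _
    have h1 := hle z hz.1
    have h2 := hHbdy z hzn
    refine (mul_le_mul_of_nonneg_right h1 (hf0 z).le).trans ?_
    rw [hfe, ← Real.exp_add, Real.exp_le_exp, hzn]
    have h3 : max (r - (r - 2)) 0 = 2 := by
      rw [sub_sub_cancel, max_eq_left (by norm_num)]
    rw [h3]
    have h4 : ε * ‖z‖ ^ 2 ≤ 4 := by
      have h5 : ‖z‖ ≤ 2 * r := by
        have h6 : ‖z‖ ≤ ‖z - r‖ + ‖(r : ℂ)‖ := by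
          have := norm_add_le (z - r) (r : ℂ)
          rwa [sub_add_cancel] at this
        rw [hzn, Complex.norm_real, Real.norm_eq_abs, abs_of_pos hr0] at h6
        linarith
      have h6 : ‖z‖ ^ 2 ≤ (2 * r) ^ 2 := pow_le_pow_left₀ (norm_nonneg _) h5 2
      rw [hε, one_div, inv_mul_le_iff₀ (by positivity)]
      linarith
    linarith
  · rw [mem_closedBall, dist_eq_norm]
    have h1 : (1 : ℂ) - r = ((1 - r : ℝ) : ℂ) := by push_cast; ring
    rw [h1, Complex.norm_real, Real.norm_eq_abs, abs_of_neg (by linarith)]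
    linarith

end Pool.Agent.SR3

end
end

section

/-!
# SR3 EGa: block E, the second derivatives of `lam i` along a curve
-/

set_option autoImplicit false

open Topology Filter Metric InnerProductSpace Laplacian

noncomputable section

namespace Pool.Agent.SR3

open Pool.Agent.H36.BP (EN fs)
open Pool.Agent.SDR (gc)

variable {N : ℕ} {G : Geo N}

theorem gc_conj (u : ℂ → ℝ) (z : ℂ) : gc u z = (starRingEnd ℂ) (Pool.Agent.MQ.gr u z) := by
  unfold gc Pool.Agent.MQ.gr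
  apply Complex.ext <;> simp

theorem log_c2 {M : ℕ} {F : ℂ → EN M} {z : ℂ} (hF : AnalyticAt ℂ F z) (h0 : F z ≠ 0) :
    ContDiffAt ℝ 2 (fun w => Real.log ‖F w‖) z ∧ Δ (fun w => Real.log ‖F w‖) z = 2 * fs (F z) (deriv F z) ^ 2 ∧
      gc (fun w => Real.log ‖F w‖) z = inner ℂ (F z) (deriv F z) / (‖F z‖ : ℂ) ^ 2 := by
  have h1 := Pool.Agent.MQ.lap_log_norm hF h0
  refine ⟨h1.1, h1.2, ?_⟩
  rw [gc_conj, Pool.Agent.MQ.gr_log_normV hF.differentiableAt.hasDerivAt h0, map_mul, Complex.conj_conj, Complex.conj_ofReal]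
  push_cast
  rw [div_eq_mul_inv, mul_comm]

theorem gc_const_mul {u : ℂ → ℝ} {z : ℂ} (hu : DifferentiableAt ℝ u z) (c : ℝ) : gc (fun w => c * u w) z = (c : ℂ) * gc u z := by
  have h : fderiv ℝ (fun w => c * u w) z = c • fderiv ℝ u z := fderiv_const_mul hu c
  unfold gc
  rw [h]
  simp
  ring

/-- MODULE EGa. -/
theorem lam_c2 (hG : G.Ok) : ∃ B : ℝ, 0 ≤ B ∧ ∀ (i : G.ι) (F : ℂ → EN N) (z : ℂ), AnalyticAt ℂ F z → (∀ᶠ w in 𝓝 z, F w ∈ G.K) →
    ContDiffAt ℝ 2 (fun w => G.lam i (F w)) z ∧ |Δ (fun w => G.lam i (F w)) z| ≤ B * fs (F z) (deriv F z) ^ 2 ∧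
      gc (fun w => G.lam i (F w)) z = - G.ell i (F z) (deriv F z) := by
  obtain ⟨C, hC, hfs⟩ := hG.fsE
  refine ⟨2 * (∑ i, (G.c i : ℝ)) + 2 * C ^ 2, by positivity, fun i F z hF hK => ?_⟩
  have hz : F z ∈ G.K := hK.self_of_nhds
  have h0 : F z ≠ 0 := ne0 hG hz
  have hE0 : G.E i (F z) ≠ 0 := hG.neE i _ hz
  have hEF : AnalyticAt ℂ (fun w => G.E i (F w)) z := (hG.anE i (F z)).comp hF
  have hd : deriv (fun w => G.E i (F w)) z = fderiv ℂ (G.E i) (F z) (deriv F z) :=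
    ((hG.anE i (F z)).differentiableAt.hasFDerivAt.comp_hasDerivAt z hF.differentiableAt.hasDerivAt).deriv
  obtain ⟨a1, a2, a3⟩ := log_c2 hF h0
  obtain ⟨b1, b2, b3⟩ := log_c2 hEF hE0
  rw [hd] at b2 b3
  have hT := tan_at hG hF hK
  have hc1 : ContDiffAt ℝ 2 (fun w => (G.c i : ℝ) * Real.log ‖F w‖) z := contDiffAt_const.mul a1
  have e1 : Δ (fun w => (G.c i : ℝ) * Real.log ‖F w‖) z = (G.c i : ℝ) * (2 * fs (F z) (deriv F z) ^ 2) := by
    have := laplacian_smul (G.c i : ℝ) a1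
    rw [a2] at this
    exact this
  have e2 : Δ (fun w => G.lam i (F w)) z = (G.c i : ℝ) * (2 * fs (F z) (deriv F z) ^ 2) -
      2 * fs (G.E i (F z)) (fderiv ℂ (G.E i) (F z) (deriv F z)) ^ 2 := by
    have := hc1.laplacian_sub b1
    rw [e1, b2] at this
    exact this
  have hd1 : DifferentiableAt ℝ (fun w => Real.log ‖F w‖) z := a1.differentiableAt two_ne_zero
  have hd2 : DifferentiableAt ℝ (fun w => Real.log ‖G.E i (F w)‖) z := b1.differentiableAt two_ne_zero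
  refine ⟨hc1.sub b1, ?_, ?_⟩
  · rw [e2]
    have f0 : 0 ≤ fs (F z) (deriv F z) := Pool.Agent.H36.BP.fs_nonneg _ _
    have f1 : 0 ≤ fs (G.E i (F z)) (fderiv ℂ (G.E i) (F z) (deriv F z)) := Pool.Agent.H36.BP.fs_nonneg _ _
    have f2 := hfs i (F z) hz (deriv F z) hT
    have f3 : fs (G.E i (F z)) (fderiv ℂ (G.E i) (F z) (deriv F z)) ^ 2 ≤ C ^ 2 * fs (F z) (deriv F z) ^ 2 := by
      rw [← mul_pow]
      exact pow_le_pow_left₀ f1 f2 2
    have f4 : (G.c i : ℝ) ≤ ∑ i, (G.c i : ℝ) :=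
      Finset.single_le_sum (f := fun i => (G.c i : ℝ)) (fun _ _ => Nat.cast_nonneg _) (Finset.mem_univ i)
    have f5 : (G.c i : ℝ) * fs (F z) (deriv F z) ^ 2 ≤ (∑ i, (G.c i : ℝ)) * fs (F z) (deriv F z) ^ 2 :=
      mul_le_mul_of_nonneg_right f4 (sq_nonneg _)
    have f6 : 0 ≤ (G.c i : ℝ) * fs (F z) (deriv F z) ^ 2 := by positivity
    have f7 : 0 ≤ fs (G.E i (F z)) (fderiv ℂ (G.E i) (F z) (deriv F z)) ^ 2 := sq_nonneg _
    have f8 : 0 ≤ C ^ 2 * fs (F z) (deriv F z) ^ 2 := by positivity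
    rw [abs_le]
    constructor <;> nlinarith
  · have g1 : gc (fun w => G.lam i (F w)) z = gc (fun w => (G.c i : ℝ) * Real.log ‖F w‖) z - gc (fun w => Real.log ‖G.E i (F w)‖) z :=
      Pool.Agent.SDR.gc_sub (hd1.const_mul _) hd2
    rw [g1, gc_const_mul hd1, a3, b3]
    unfold Geo.ell
    push_cast
    ring

end Pool.Agent.SR3

end
end

section

/-!
# SR3 F Jen: an entire function which is small off a line

PROOF.  On the circle `|w - z₀| = R` the exponent is at most `K - k Re (ζ ²)`, `ζ = star u (w - a)`, `k = c / (2 (|z₀ - a| + R))`,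
because `|ζ + conj ζ| / 2 ≥ (Re ζ)² / (|z₀ - a| + R)` and `2 (Re ζ)² = |ζ|² + Re ζ²`; the maximum principle for `ψ exp (k ζ²)`.
-/

set_option autoImplicit false

open Topology Filter Metric

noncomputable section

namespace Pool.Agent.SR3.F

private theorem jen_bound {ψ : ℂ → ℂ} (hψ : Differentiable ℂ ψ) {u a : ℂ} (hu : ‖u‖ = 1) {c C γ γ' : ℝ} (hc : 0 < c) (hγ : γ ≤ γ') (hγ' : 0 ≤ γ')
    (h : ∀ z, ‖ψ z‖ ≤ Real.exp (C * pw γ ‖z‖ - c * |yy u a z|)) (z₀ : ℂ) {R : ℝ} (hR : 0 < R) (hRa : ‖z₀ - a‖ ≤ R) :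
    ‖ψ z₀‖ ≤ Real.exp (|C| * (2 + ‖z₀‖ + R) ^ γ' - c / 2 * R + 2 * c * ‖z₀ - a‖) := by
  set e : ℝ := ‖z₀ - a‖ with he
  have he0 : 0 ≤ e := norm_nonneg _
  set k : ℝ := c / (2 * (e + R)) with hk
  have hS : 0 < e + R := by linarith
  have hk0 : 0 < k := by positivity
  set K : ℝ := |C| * (2 + ‖z₀‖ + R) ^ γ' - k * (R - e) ^ 2 with hK
  set ζ : ℂ → ℂ := fun w => star u * (w - a) with hζ
  have hζd : Differentiable ℂ ζ := fun w => by
    show DifferentiableAt ℂ (fun w => star u * (w - a)) w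
    fun_prop
  have hζn : ∀ w, ‖ζ w‖ = ‖w - a‖ := fun w => by
    show ‖star u * (w - a)‖ = _
    rw [norm_mul, norm_star, hu, one_mul]
  have hd : Differentiable ℂ fun w => ψ w * Complex.exp (k * ζ w ^ 2) := by
    intro w
    exact (hψ w).mul (((differentiableAt_const _).mul ((hζd w).pow 2)).cexp)
  have hbd : ∀ w ∈ frontier (ball z₀ R), ‖ψ w * Complex.exp (k * ζ w ^ 2)‖ ≤ Real.exp K := by
    intro w hw
    rw [frontier_ball z₀ hR.ne', mem_sphere, dist_eq_norm] at hw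
    have hre : ((k : ℂ) * ζ w ^ 2).re = k * (2 * yy u a w ^ 2 - ‖w - a‖ ^ 2) := by
      rw [Complex.re_ofReal_mul]
      congr 1
      have h1 : ‖w - a‖ ^ 2 = (ζ w).re ^ 2 + (ζ w).im ^ 2 := by
        rw [← hζn w, Complex.sq_norm, Complex.normSq_apply]
        ring
      have h2 : yy u a w = (ζ w).re := rfl
      rw [h1, h2, pow_two (ζ w), Complex.mul_re]
      ring
    rw [norm_mul, Complex.norm_exp, hre]
    refine (mul_le_mul_of_nonneg_right (h w) (Real.exp_pos _).le).trans ?_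
    rw [← Real.exp_add]
    refine Real.exp_le_exp.2 ?_
    have hwa : ‖w - a‖ ≤ e + R := by
      calc ‖w - a‖ = ‖(w - z₀) + (z₀ - a)‖ := by congr 1; ring
        _ ≤ ‖w - z₀‖ + ‖z₀ - a‖ := norm_add_le _ _
        _ = e + R := by rw [hw, ← he]; ring
    have hwa' : R - e ≤ ‖w - a‖ := by
      have h1 : ‖w - z₀‖ ≤ ‖w - a‖ + ‖z₀ - a‖ := by
        calc ‖w - z₀‖ = ‖(w - a) - (z₀ - a)‖ := by congr 1; ring
          _ ≤ _ := norm_sub_le _ _
      rw [hw] at h1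
      linarith
    have hyy : |yy u a w| ≤ e + R := by
      refine le_trans ?_ hwa
      have h1 : |(ζ w).re| ≤ ‖ζ w‖ := Complex.abs_re_le_norm _
      rw [hζn] at h1
      exact h1
    -- the growth term
    have h1 : C * pw γ ‖w‖ ≤ |C| * (2 + ‖z₀‖ + R) ^ γ' := by
      have h2 : (1 : ℝ) ≤ 2 + ‖w‖ := by have := norm_nonneg w; linarith
      have h3 : ‖w‖ ≤ ‖z₀‖ + R := by
        calc ‖w‖ = ‖(w - z₀) + z₀‖ := by congr 1; ring
          _ ≤ ‖w - z₀‖ + ‖z₀‖ := norm_add_le _ _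
          _ = ‖z₀‖ + R := by rw [hw]; ring
      have h4 : pw γ ‖w‖ ≤ (2 + ‖z₀‖ + R) ^ γ' := by
        unfold pw
        calc (2 + ‖w‖) ^ γ ≤ (2 + ‖w‖) ^ γ' := Real.rpow_le_rpow_of_exponent_le h2 hγ
          _ ≤ (2 + ‖z₀‖ + R) ^ γ' := Real.rpow_le_rpow (by linarith) (by linarith) hγ'
      have h5 : 0 ≤ pw γ ‖w‖ := Real.rpow_nonneg (by linarith) _
      calc C * pw γ ‖w‖ ≤ |C| * pw γ ‖w‖ := mul_le_mul_of_nonneg_right (le_abs_self C) h5
        _ ≤ _ := mul_le_mul_of_nonneg_left h4 (abs_nonneg C)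
    -- the decay
    have h2 : 2 * k * yy u a w ^ 2 ≤ c * |yy u a w| := by
      have h3 : 2 * k * (e + R) = c := by
        rw [hk]
        field_simp
      have h4 : yy u a w ^ 2 ≤ |yy u a w| * (e + R) := by
        rw [← sq_abs, pow_two]
        exact mul_le_mul_of_nonneg_left hyy (abs_nonneg _)
      calc 2 * k * yy u a w ^ 2 ≤ 2 * k * (|yy u a w| * (e + R)) := mul_le_mul_of_nonneg_left h4 (by positivity)
        _ = (2 * k * (e + R)) * |yy u a w| := by ring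
        _ = _ := by rw [h3]
    have h3 : k * (R - e) ^ 2 ≤ k * ‖w - a‖ ^ 2 := by
      refine mul_le_mul_of_nonneg_left ?_ hk0.le
      exact pow_le_pow_left₀ (by linarith) hwa' 2
    rw [hK]
    nlinarith
  have hmax := Complex.norm_le_of_forall_mem_frontier_norm_le (U := ball z₀ R) isBounded_ball (f := fun w => ψ w * Complex.exp (k * ζ w ^ 2))
    hd.diffContOnCl hbd (subset_closure (mem_ball_self hR))
  have h1 : ‖ψ z₀‖ * Real.exp (-(k * e ^ 2)) ≤ Real.exp K := by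
    refine le_trans ?_ hmax
    rw [norm_mul, Complex.norm_exp]
    refine mul_le_mul_of_nonneg_left (Real.exp_le_exp.2 ?_) (norm_nonneg _)
    have h2 : -‖(k : ℂ) * ζ z₀ ^ 2‖ ≤ ((k : ℂ) * ζ z₀ ^ 2).re := (abs_le.1 (Complex.abs_re_le_norm _)).1
    rw [norm_mul, Complex.norm_real, Real.norm_of_nonneg hk0.le, norm_pow, hζn, ← he] at h2
    exact h2
  have h2 : ‖ψ z₀‖ ≤ Real.exp (K + k * e ^ 2) := by
    have h3 := mul_le_mul_of_nonneg_right h1 (Real.exp_pos (k * e ^ 2)).le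
    rwa [mul_assoc, ← Real.exp_add, neg_add_cancel, Real.exp_zero, mul_one, ← Real.exp_add] at h3
  refine h2.trans (Real.exp_le_exp.2 ?_)
  have h3 : k * (R - e) ^ 2 - k * e ^ 2 = c / 2 * (R * (R - 2 * e) / (e + R)) := by
    rw [hk]
    field_simp
    ring
  have h4 : R - 4 * e ≤ R * (R - 2 * e) / (e + R) := by
    rw [le_div_iff₀ hS]
    nlinarith
  have h5 : c / 2 * (R - 4 * e) ≤ c / 2 * (R * (R - 2 * e) / (e + R)) := mul_le_mul_of_nonneg_left h4 (by positivity)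
  rw [hK]
  linarith

/-- MODULE Jen.  Jensen: `log ‖ψ z₀‖ ≤` mean of `log ‖ψ‖` over large circles, which tends to `-∞`. -/
theorem entire_zero {ψ : ℂ → ℂ} (hψ : Differentiable ℂ ψ) {u a : ℂ} (hu : ‖u‖ = 1) {c C γ : ℝ} (hc : 0 < c) (hγ : γ < 1)
    (h : ∀ z, ‖ψ z‖ ≤ Real.exp (C * pw γ ‖z‖ - c * |yy u a z|)) : ∀ z, ψ z = 0 := by
  intro z₀
  have hγ1 : max γ 0 < 1 := max_lt hγ one_pos
  -- the exponent as a function of `s = 2 + ‖z₀‖ + R`
  have h1 : Tendsto (fun s : ℝ => |C| * s ^ (max γ 0) - c / 2 * s) atTop atBot := by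
    have h2 : Tendsto (fun s : ℝ => |C| * s ^ (-(1 - max γ 0)) - c / 2) atTop (𝓝 (|C| * 0 - c / 2)) :=
      ((tendsto_rpow_neg_atTop (by linarith : 0 < 1 - max γ 0)).const_mul _).sub_const _
    have h3 : |C| * 0 - c / 2 < 0 := by
      rw [mul_zero, zero_sub]
      linarith
    have h4 := Filter.Tendsto.atTop_mul_neg h3 tendsto_id h2
    refine h4.congr' ?_
    filter_upwards [eventually_gt_atTop (0 : ℝ)] with s hs
    have h5 : s * s ^ (-(1 - max γ 0)) = s ^ (max γ 0) := by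
      conv_lhs => rw [← Real.rpow_one s, ← Real.rpow_mul hs.le, one_mul, ← Real.rpow_add hs]
      congr 1
      ring
    show s * (|C| * s ^ (-(1 - max γ 0)) - c / 2) = _
    rw [mul_sub, ← mul_assoc, mul_comm s |C|, mul_assoc, h5]
    ring
  have h2 : Tendsto (fun R : ℝ => |C| * (2 + ‖z₀‖ + R) ^ (max γ 0) - c / 2 * R + 2 * c * ‖z₀ - a‖) atTop atBot := by
    have h3 : Tendsto (fun R : ℝ => 2 + ‖z₀‖ + R) atTop atTop := tendsto_atTop_add_const_left _ _ tendsto_id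
    have h4 := (h1.comp h3).atBot_add (tendsto_const_nhds (x := c / 2 * (2 + ‖z₀‖) + 2 * c * ‖z₀ - a‖))
    refine h4.congr fun R => ?_
    show |C| * (2 + ‖z₀‖ + R) ^ (max γ 0) - c / 2 * (2 + ‖z₀‖ + R) + (c / 2 * (2 + ‖z₀‖) + 2 * c * ‖z₀ - a‖) = _
    ring
  have h3 : Tendsto (fun R : ℝ => Real.exp (|C| * (2 + ‖z₀‖ + R) ^ (max γ 0) - c / 2 * R + 2 * c * ‖z₀ - a‖)) atTop (𝓝 0) :=
    Real.tendsto_exp_atBot.comp h2
  have h4 : ‖ψ z₀‖ ≤ 0 := by
    refine ge_of_tendsto h3 ?_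
    filter_upwards [eventually_gt_atTop (0 : ℝ), eventually_ge_atTop ‖z₀ - a‖] with R hR hRa
    exact jen_bound hψ hu hc (le_max_left _ _) (le_max_right _ _) h z₀ hR hRa
  exact norm_le_zero_iff.1 h4

end Pool.Agent.SR3.F

end
end

section

/-!
# SR3 F Psi: the sections along a curve and a field of tangent vectors
-/

set_option autoImplicit false

open Topology Filter Metric Laplacian InnerProductSpace

noncomputable section

namespace Pool.Agent.SR3.F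

open Pool.Agent.H36.BP (EN fs wd)
open Pool.Agent.H14.PP (Tan)
open Geo (Gd)

variable {N : ℕ} {G : Geo N} {T : Set (EN N)} {rho : EN N → ℝ} {M : ℕ} {c₀ C δ γ A' B : ℝ} {g : (ℂ → EN N) → ℂ → ℝ}

/-- MODULE Psi.  `φ (z, t) = c (z) σ (τ (F z) + t Dτ (F z) (V z))` in `IsForm.analytic`, at `(z, 0)`; `add_smul`. -/
theorem psi_diff (hG : G.Ok) (a : G.A) {F V : ℂ → EN N} (hF : Differentiable ℂ F) (hK : ∀ z, F z ∈ G.K) (hV : Differentiable ℂ V)
    (hT : ∀ z, Tan G.X (F z) (V z)) : Differentiable ℂ fun z => G.Ω a (F z) (deriv F z) (V z) := by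
  intro z₀
  have hKX : ∀ x, x ∈ G.K ↔ x ∈ G.X ∧ G.p x ≠ 0 := fun x => by
    rw [hG.aff.mem]
    exact ⟨fun h => ⟨h.1, h.2 ()⟩, fun h => ⟨h.1, fun _ => h.2⟩⟩
  obtain ⟨σ, τ, hσ, hσ0⟩ := hG.surf.chart (F z₀) ((hKX _).1 (hK z₀)).1
  have hFan : AnalyticAt ℂ F z₀ := hF.analyticAt z₀
  have hVan : AnalyticAt ℂ V z₀ := hV.analyticAt z₀
  obtain ⟨c, hc, hc1, hτF, hτ0, hFc⟩ := Pool.Agent.E2.curve_chart hσ hFan (Eventually.of_forall fun z => ((hKX _).1 (hK z)).1) hσ0.symm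
  -- the coordinates of the field
  set u : ℂ → ℂ × ℂ := fun z => fderiv ℂ τ (F z) (V z) with hu
  have hτ' : AnalyticAt ℂ (fderiv ℂ τ) (F z₀) := by
    rw [← hσ0]
    exact hσ.τ_an.fderiv
  have huan : AnalyticAt ℂ u z₀ := by
    have hb : AnalyticAt ℂ (fun x : (EN N →L[ℂ] ℂ × ℂ) × EN N => (ContinuousLinearMap.id ℂ (EN N →L[ℂ] ℂ × ℂ)) x.1 x.2)
        (fderiv ℂ τ (F z₀), V z₀) := ContinuousLinearMap.analyticAt_bilinear _ _
    exact AnalyticAt.fun_comp (f := fun z => (fderiv ℂ τ (F z), V z)) hb ((hτ'.comp hFan).prod hVan)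
  set Φ : ℂ × ℂ → EN N := fun y => c y.1 • σ (τ (F y.1) + y.2 • u y.1) with hΦ
  have hy1 : AnalyticAt ℂ (fun y : ℂ × ℂ => y.1) (z₀, 0) := analyticAt_fst
  have hy2 : AnalyticAt ℂ (fun y : ℂ × ℂ => y.2) (z₀, 0) := analyticAt_snd
  have hin : AnalyticAt ℂ (fun y : ℂ × ℂ => τ (F y.1) + y.2 • u y.1) (z₀, 0) :=
    (AnalyticAt.fun_comp (g := fun z => τ (F z)) (f := fun y : ℂ × ℂ => y.1) hτF hy1).add
      (hy2.smul (AnalyticAt.fun_comp (g := u) (f := fun y : ℂ × ℂ => y.1) huan hy1))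
  have hin0 : τ (F ((z₀, (0 : ℂ)) : ℂ × ℂ).1) + ((z₀, (0 : ℂ)) : ℂ × ℂ).2 • u ((z₀, (0 : ℂ)) : ℂ × ℂ).1 = 0 := by
    simp only [zero_smul, add_zero]
    exact hτ0
  have hcan : AnalyticAt ℂ (fun y : ℂ × ℂ => c y.1) (z₀, 0) := AnalyticAt.fun_comp (g := c) (f := fun y : ℂ × ℂ => y.1) hc hy1
  have hΦan : AnalyticAt ℂ Φ (z₀, 0) :=
    hcan.smul (AnalyticAt.fun_comp (g := σ) (f := fun y : ℂ × ℂ => τ (F y.1) + y.2 • u y.1) (by rw [hin0]; exact hσ.σ_an) hin)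
  have hΦ0 : ∀ᶠ z in 𝓝 z₀, Φ (z, 0) = F z := by
    filter_upwards [hFc] with z hz
    rw [hΦ]
    simp only [zero_smul, add_zero]
    exact hz.symm
  have hΦK : ∀ᶠ y in 𝓝 ((z₀, 0) : ℂ × ℂ), Φ y ∈ G.K := by
    have h1 : Tendsto (fun y : ℂ × ℂ => τ (F y.1) + y.2 • u y.1) (𝓝 (z₀, 0)) (𝓝 0) := by
      have := hin.continuousAt.tendsto
      rwa [hin0] at this
    have h2 : ∀ᶠ y in 𝓝 ((z₀, 0) : ℂ × ℂ), c y.1 ≠ 0 := by
      refine hcan.continuousAt.eventually_ne ?_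
      show c z₀ ≠ 0
      rw [hc1]
      exact one_ne_zero
    have h3 : ∀ᶠ y in 𝓝 ((z₀, 0) : ℂ × ℂ), G.p (Φ y) ≠ 0 := by
      have h4 : ContinuousAt (fun y => G.p (Φ y)) (z₀, 0) := ContinuousAt.comp (g := G.p) (hG.aff.an () _).continuousAt hΦan.continuousAt
      refine h4.eventually_ne ?_
      show G.p (Φ (z₀, 0)) ≠ 0
      rw [hΦ0.self_of_nhds]
      exact ((hKX _).1 (hK z₀)).2
    filter_upwards [h1.eventually hσ.σ_mem, h2, h3] with y e1 e2 e3
    exact (hKX _).2 ⟨hG.surf.smul _ e1 _ e2, e3⟩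
  have key := (hG.form a).analytic Φ (z₀, 0) hΦan hΦK
  have hsec : AnalyticAt ℂ (fun z : ℂ => ((z, 0) : ℂ × ℂ)) z₀ := analyticAt_id.prod analyticAt_const
  have hsecT : Tendsto (fun z : ℂ => ((z, 0) : ℂ × ℂ)) (𝓝 z₀) (𝓝 (z₀, 0)) := hsec.continuousAt.tendsto
  have key2 : AnalyticAt ℂ (fun z : ℂ => G.Ω a (Φ (z, 0)) (fderiv ℂ Φ (z, 0) (1, 0)) (fderiv ℂ Φ (z, 0) (0, 1))) z₀ :=
    AnalyticAt.fun_comp (g := fun y => G.Ω a (Φ y) (fderiv ℂ Φ y (1, 0)) (fderiv ℂ Φ y (0, 1))) (f := fun z : ℂ => ((z, 0) : ℂ × ℂ)) key hsec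
  refine (key2.congr ?_).differentiableAt
  have hFt : Tendsto F (𝓝 z₀) (𝓝 (σ 0)) := by
    rw [hσ0]
    exact hFan.continuousAt.tendsto
  have hτFt : Tendsto (fun z => τ (F z)) (𝓝 z₀) (𝓝 0) := by
    have := hτF.continuousAt.tendsto
    rwa [hτ0] at this
  filter_upwards [hsecT.eventually hΦan.eventually_analyticAt, hΦ0.eventually_nhds, hFt.eventually (Pool.Agent.H36.TB.exists_coef hσ), hFc,
    hc.continuousAt.eventually_ne (by rw [hc1]; exact one_ne_zero), hsecT.eventually hΦK.eventually_nhds,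
    hτFt.eventually (hσ.σ_an.continuousAt.eventually_ne hσ.ne), hτFt.eventually hσ.σ_an.eventually_analyticAt,
    hFt.eventually hσ.τ_an.eventually_analyticAt] with z e1 e2 e3 e4 e5 e6 e7 e8 e9
  have f0 : Φ (z, 0) = F z := e2.self_of_nhds
  -- the two derivatives
  have f1 : fderiv ℂ Φ (z, 0) (1, 0) = deriv F z := by
    have h0 : HasDerivAt (fun w : ℂ => ((w, 0) : ℂ × ℂ)) (1, 0) z := (hasDerivAt_id z).prodMk (hasDerivAt_const z (0 : ℂ))
    have hd : HasFDerivAt Φ (fderiv ℂ Φ (z, 0)) ((fun w : ℂ => ((w, 0) : ℂ × ℂ)) z) := e1.differentiableAt.hasFDerivAt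
    have h1 : HasDerivAt (Φ ∘ fun w : ℂ => ((w, 0) : ℂ × ℂ)) (fderiv ℂ Φ (z, 0) (1, 0)) z := HasFDerivAt.comp_hasDerivAt z hd h0
    have h2 : (fun w : ℂ => Φ (w, 0)) =ᶠ[𝓝 z] F := e2
    rw [← h1.deriv]
    exact h2.deriv_eq
  have f2 : HasDerivAt (fun s : ℂ => Φ (z, s)) (fderiv ℂ Φ (z, 0) (0, 1)) 0 := by
    have h0 : HasDerivAt (fun s : ℂ => ((z, s) : ℂ × ℂ)) (0, 1) 0 := (hasDerivAt_const (0 : ℂ) z).prodMk (hasDerivAt_id (0 : ℂ))
    exact e1.differentiableAt.hasFDerivAt.comp_hasDerivAt (0 : ℂ) h0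
  have f3 : fderiv ℂ Φ (z, 0) (0, 1) = c z • fderiv ℂ σ (τ (F z)) (u z) := by
    have h1 : HasDerivAt (fun s : ℂ => τ (F z) + s • u z) (u z) 0 := by
      have h3 : HasDerivAt (fun s : ℂ => s • u z) ((1 : ℂ) • u z) 0 := (hasDerivAt_id (0 : ℂ)).smul_const (u z)
      rw [one_smul] at h3
      exact h3.const_add _
    have h2 : HasFDerivAt σ (fderiv ℂ σ (τ (F z))) (τ (F z) + (0 : ℂ) • u z) := by
      rw [zero_smul, add_zero]
      exact e8.differentiableAt.hasFDerivAt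
    have h3 : HasDerivAt (fun s : ℂ => Φ (z, s)) (c z • fderiv ℂ σ (τ (F z)) (u z)) 0 := (h2.comp_hasDerivAt (0 : ℂ) h1).const_smul (c z)
    exact f2.unique h3
  -- the given vector
  obtain ⟨γ, ⟨hγ, hγX⟩, hγ0, hγ'⟩ := hT z
  obtain ⟨c', b, hc', g1, g2⟩ := e3 γ 0 hγ hγX hγ0
  have g3 : deriv (fun w => τ (γ w)) 0 = u z := by
    have h1 : HasFDerivAt τ (fderiv ℂ τ (F z)) (γ 0) := by
      rw [hγ0]
      exact e9.differentiableAt.hasFDerivAt
    have h2 := h1.comp_hasDerivAt (0 : ℂ) hγ.differentiableAt.hasDerivAt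
    rw [hγ'] at h2
    exact h2.deriv
  rw [hγ0] at g1
  have g4 : c' = c z := by
    have h1 : (c' - c z) • σ (τ (F z)) = 0 := by
      rw [sub_smul, ← g1, ← e4, sub_self]
    exact sub_eq_zero.1 ((smul_eq_zero.1 h1).resolve_right e7)
  have g5 : V z = fderiv ℂ Φ (z, 0) (0, 1) + (b / c z) • F z := by
    rw [f3, ← hγ', g2, g3, g4]
    congr 1
    conv_rhs => rw [e4]
    rw [smul_smul, div_mul_cancel₀ _ e5]
  -- the tangent vectors
  have hzK : F z ∈ G.K := hK z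
  have t1 : deriv F z ∈ Pool.Agent.H17BP.Tan G.K (F z) := by
    refine ⟨fun s => F (z + s), ?_, Eventually.of_forall fun s => hK _, by simp, ?_⟩
    · exact AnalyticAt.fun_comp (g := F) (f := fun s : ℂ => z + s) (hF.analyticAt _) (analyticAt_const.add analyticAt_id)
    · rw [deriv_comp_const_add, add_zero]
  have t2 : fderiv ℂ Φ (z, 0) (0, 1) ∈ Pool.Agent.H17BP.Tan G.K (F z) := by
    have h1 : AnalyticAt ℂ (fun s : ℂ => ((z, s) : ℂ × ℂ)) 0 := analyticAt_const.prod analyticAt_id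
    refine ⟨fun s => Φ (z, s), AnalyticAt.fun_comp (g := Φ) (f := fun s : ℂ => ((z, s) : ℂ × ℂ)) e1 h1, ?_, f0, f2.deriv⟩
    exact h1.continuousAt.tendsto.eventually e6
  rw [f0, f1, g5]
  have h1 := (hG.form a).add_smul (F z) hzK _ t1 _ t2 0 (b / c z)
  rw [zero_smul, add_zero] at h1
  exact h1.symm

/-- MODULE Psi.  From `Ω_le`; `fs x w ≤ ‖w‖ / ‖x‖`. -/
theorem psi_le (hG : G.Ok) : ∃ B₁ : ℝ, 0 ≤ B₁ ∧ ∀ a, ∀ x ∈ G.K, G.p x = 1 → ∀ v w, Tan G.X x v → Tan G.X x w → ∀ e : ℝ, 0 ≤ e → ‖w‖ ≤ e * ‖x‖ →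
    (∀ i, ‖fderiv ℂ (G.E i) x w‖ ≤ e * ‖G.E i x‖) → ‖G.Ω a x v w‖ ≤ B₁ * G.L x v ^ G.mΩ * e ^ G.mΩ / ‖x‖ ^ G.jΩ := by
  obtain ⟨C, hC, hΩ⟩ := hG.Ω_le
  set D : ℝ := 1 + ∑ i, (1 + (G.c i : ℝ)) with hD
  have hD0 : 0 ≤ D := by positivity
  refine ⟨C * D ^ G.mΩ, by positivity, fun a x hx hpx v w hv hw e he hwe hE => ?_⟩
  have hfs0 : ∀ y : EN N, 0 ≤ fs x y := fun y => div_nonneg (Real.sqrt_nonneg _) (sq_nonneg _)
  have hLv : 0 ≤ G.L x v := add_nonneg (hfs0 v) (Finset.sum_nonneg fun i _ => norm_nonneg _)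
  have hLw0 : 0 ≤ G.L x w := add_nonneg (hfs0 w) (Finset.sum_nonneg fun i _ => norm_nonneg _)
  have hfs : fs x w ≤ e := by
    unfold fs wd
    refine div_le_of_le_mul₀ (sq_nonneg _) he ?_
    have h1 : Real.sqrt (‖x‖ ^ 2 * ‖w‖ ^ 2 - ‖inner ℂ x w‖ ^ 2) ≤ Real.sqrt ((‖x‖ * ‖w‖) ^ 2) :=
      Real.sqrt_le_sqrt (by nlinarith [sq_nonneg ‖(inner ℂ x w : ℂ)‖])
    rw [Real.sqrt_sq (by positivity)] at h1
    refine h1.trans ?_
    calc ‖x‖ * ‖w‖ ≤ ‖x‖ * (e * ‖x‖) := mul_le_mul_of_nonneg_left hwe (norm_nonneg _)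
      _ = e * ‖x‖ ^ 2 := by ring
  have hdiv : ∀ {V : Type} [NormedAddCommGroup V] [InnerProductSpace ℂ V] (y z : V), ‖z‖ ≤ e * ‖y‖ → ‖(inner ℂ y z : ℂ) / (‖y‖ : ℂ) ^ 2‖ ≤ e := by
    intro V _ _ y z hz
    rw [norm_div, norm_pow, Complex.norm_real, norm_norm]
    refine div_le_of_le_mul₀ (sq_nonneg _) he ?_
    calc ‖(inner ℂ y z : ℂ)‖ ≤ ‖y‖ * ‖z‖ := norm_inner_le_norm y z
      _ ≤ ‖y‖ * (e * ‖y‖) := mul_le_mul_of_nonneg_left hz (norm_nonneg _)
      _ = e * ‖y‖ ^ 2 := by ring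
  have hell : ∀ i, ‖G.ell i x w‖ ≤ (1 + (G.c i : ℝ)) * e := fun i => by
    unfold Geo.ell
    refine (norm_sub_le _ _).trans ?_
    rw [norm_mul, Complex.norm_natCast, add_mul, one_mul]
    exact add_le_add (hdiv _ _ (hE i)) (mul_le_mul_of_nonneg_left (hdiv _ _ hwe) (Nat.cast_nonneg _))
  have hLw : G.L x w ≤ D * e := by
    unfold Geo.L
    rw [hD, add_mul, one_mul, Finset.sum_mul]
    exact add_le_add hfs (Finset.sum_le_sum fun i _ => hell i)
  refine (hΩ a x hx hpx v w hv hw).trans ?_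
  refine div_le_div_of_nonneg_right ?_ (by positivity)
  calc C * G.L x v ^ G.mΩ * G.L x w ^ G.mΩ ≤ C * G.L x v ^ G.mΩ * (D * e) ^ G.mΩ :=
        mul_le_mul_of_nonneg_left (pow_le_pow_left₀ hLw0 hLw _) (by positivity)
    _ = C * D ^ G.mΩ * G.L x v ^ G.mΩ * e ^ G.mΩ := by
      rw [mul_pow]
      ring

end Pool.Agent.SR3.F

end
end

section

/-!
# SR3 LCrs: the local data at a crossing
-/

set_option autoImplicit false

open Topology Filter Metric

noncomputable section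

namespace Pool.Agent.SR3

open Pool.Agent.H36.BP (EN fs wd Sub OrdTwo wd_sq wd_nonneg fs_inv fs_nonneg)
open Pool.Agent.H14.PP (IsCone Tan)
open Pool.Agent.SY (Ent)
open Pool.Agent.H62.EF (MN pr dist_pr)
open Geo (Gd)

variable {N : ℕ} {G : Geo N}

namespace LCrs

/-- the derivative of a homogeneous function -/
theorem fderiv_smul' (hG : G.Ok) (i : G.ι) (x : EN N) (t : ℂ) :
    ‖t‖ * ‖fderiv ℂ (G.E i) (t • x)‖ = ‖t‖ ^ G.c i * ‖fderiv ℂ (G.E i) x‖ := by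
  have h1 : HasFDerivAt (G.E i) (fderiv ℂ (G.E i) (t • x)) (t • x) := (hG.anE i (t • x)).differentiableAt.hasFDerivAt
  have h2 : HasFDerivAt (fun z : EN N => t • z) (t • ContinuousLinearMap.id ℂ (EN N)) x := (hasFDerivAt_id x).const_smul t
  have h3 := h1.comp x h2
  have h4 : (G.E i ∘ fun z : EN N => t • z) = fun z => t ^ G.c i • G.E i z := funext fun z => hG.smulE i t z
  rw [h4] at h3
  have h5 : HasFDerivAt (fun z => t ^ G.c i • G.E i z) (t ^ G.c i • fderiv ℂ (G.E i) x) x := by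
    exact HasFDerivAt.const_smul (hG.anE i x).differentiableAt.hasFDerivAt (t ^ G.c i)
  have h6 := h3.unique h5
  rw [ContinuousLinearMap.comp_smul, ContinuousLinearMap.comp_id] at h6
  rw [← norm_smul, h6, norm_smul, norm_pow]

/-- the bound of `ell` by the Fubini-Study length -/
theorem ell_le (hG : G.Ok) (i : G.ι) {x : EN N} (hx : x ∈ G.K) (v : EN N) :
    ‖G.ell i x v‖ ≤ ‖fderiv ℂ (G.E i) x‖ * ‖x‖ / ‖G.E i x‖ * fs x v := by
  have hx0 : x ≠ 0 := ne0 hG hx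
  have hxn : 0 < ‖x‖ := norm_pos_iff.2 hx0
  have hxc : (‖x‖ : ℂ) ≠ 0 := by exact_mod_cast hxn.ne'
  set a : ℂ := inner ℂ x v / (‖x‖ : ℂ) ^ 2 with ha
  set v' : EN N := v - a • x with hv'
  have hort : inner ℂ x v' = (0 : ℂ) := by
    rw [hv', inner_sub_right, inner_smul_right, inner_self_eq_norm_sq_to_K, ha]
    simp only [Complex.coe_algebraMap]
    rw [div_mul_cancel₀ _ (pow_ne_zero 2 hxc), sub_self]
  have hfs : fs x v = ‖v'‖ / ‖x‖ := by
    have h2 : fs x v = fs x v' := by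
      have h3 := fs_inv hx0 v' (c := 1) one_ne_zero a
      rw [one_smul, one_smul] at h3
      rw [← h3, hv']
      congr 1
      abel
    rw [h2]
    have h3 : wd x v' = ‖x‖ * ‖v'‖ := by
      have h4 := wd_sq x v'
      rw [hort, norm_zero] at h4
      have h5 : wd x v' ^ 2 = (‖x‖ * ‖v'‖) ^ 2 := by rw [h4]; ring
      exact (pow_left_inj₀ (wd_nonneg _ _) (by positivity) two_ne_zero).1 h5
    unfold fs
    rw [h3]
    field_simp
  have h2 : G.ell i x v = G.ell i x v' := by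
    have h3 : v = v' + a • x := by rw [hv']; abel
    conv_lhs => rw [h3]
    rw [ALam_ell_add, ell_smul hG, ALam_ell_self hG i hx, mul_zero, add_zero]
  have hE : 0 < ‖G.E i x‖ := norm_pos_iff.2 (hG.neE i x hx)
  have h3 : G.ell i x v' = inner ℂ (G.E i x) (fderiv ℂ (G.E i) x v') / (‖G.E i x‖ : ℂ) ^ 2 := by
    unfold Geo.ell
    rw [hort, zero_div, mul_zero, sub_zero]
  have h4 : ‖G.ell i x v'‖ ≤ ‖fderiv ℂ (G.E i) x‖ / ‖G.E i x‖ * ‖v'‖ := by
    rw [h3, norm_div, norm_pow, Complex.norm_real, norm_norm, div_le_iff₀ (by positivity)]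
    calc ‖inner ℂ (G.E i x) (fderiv ℂ (G.E i) x v')‖ ≤ ‖G.E i x‖ * ‖fderiv ℂ (G.E i) x v'‖ := norm_inner_le_norm _ _
      _ ≤ ‖G.E i x‖ * (‖fderiv ℂ (G.E i) x‖ * ‖v'‖) := by
        exact mul_le_mul_of_nonneg_left ((fderiv ℂ (G.E i) x).le_opNorm v') hE.le
      _ = _ := by field_simp
  rw [h2, hfs]
  calc ‖G.ell i x v'‖ ≤ ‖fderiv ℂ (G.E i) x‖ / ‖G.E i x‖ * ‖v'‖ := h4
    _ = ‖fderiv ℂ (G.E i) x‖ * ‖x‖ / ‖G.E i x‖ * (‖v'‖ / ‖x‖) := by field_simp

/-- a multiple of `x` is close to `y` -/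
theorem exists_mul {x y : EN N} (hx : x ≠ 0) (hy : y ≠ 0) (h : dist (pr x) (pr y) < 1) :
    ∃ t : ℂ, t ≠ 0 ∧ ‖t • x - y‖ ≤ ‖y‖ * dist (pr x) (pr y) := by
  have hxn : 0 < ‖x‖ := norm_pos_iff.2 hx
  have hyn : 0 < ‖y‖ := norm_pos_iff.2 hy
  have hxc : (‖x‖ : ℂ) ≠ 0 := by exact_mod_cast hxn.ne'
  have hd := dist_pr hx hy
  have hw0 : 0 ≤ wd x y / (‖x‖ * ‖y‖) := div_nonneg (wd_nonneg _ _) (by positivity)
  have hpd : wd x y / (‖x‖ * ‖y‖) ≤ dist (pr x) (pr y) := by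
    rw [hd]
    exact le_mul_of_one_le_left hw0 (by rw [Real.one_le_sqrt]; norm_num)
  have hwle : wd x y ≤ ‖x‖ * ‖y‖ * dist (pr x) (pr y) := by
    rwa [div_le_iff₀ (by positivity), mul_comm] at hpd
  have hnn : ‖inner ℂ x y‖ ^ 2 = ‖x‖ ^ 2 * ‖y‖ ^ 2 - wd x y ^ 2 := by rw [wd_sq]; ring
  set t : ℂ := inner ℂ x y / (‖x‖ : ℂ) ^ 2 with ht
  have htn : ‖t‖ = ‖inner ℂ x y‖ / ‖x‖ ^ 2 := by rw [ht, norm_div, norm_pow, Complex.norm_real, norm_norm]
  have hmul : wd x y ^ 2 ≤ (‖x‖ * ‖y‖ * dist (pr x) (pr y)) ^ 2 := pow_le_pow_left₀ (wd_nonneg _ _) hwle 2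
  refine ⟨t, ?_, ?_⟩
  · intro h0
    have h1 : inner ℂ x y = (0 : ℂ) := by
      rw [ht, div_eq_zero_iff] at h0
      rcases h0 with h0 | h0
      · exact h0
      · exact absurd h0 (pow_ne_zero 2 hxc)
    rw [h1, norm_zero] at hnn
    have h2 : 0 < ‖x‖ * ‖y‖ := by positivity
    have h3 : ‖x‖ * ‖y‖ * dist (pr x) (pr y) < ‖x‖ * ‖y‖ := by nlinarith only [h, h2]
    have h4 : (‖x‖ * ‖y‖ * dist (pr x) (pr y)) ^ 2 < (‖x‖ * ‖y‖) ^ 2 := pow_lt_pow_left₀ h3 (by positivity) two_ne_zero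
    linarith only [hnn, hmul, h4]
  · have h1 : ‖t • x - y‖ ^ 2 = wd x y ^ 2 / ‖x‖ ^ 2 := by
      have e1 : ‖t • x - y‖ ^ 2 = ‖y‖ ^ 2 - ‖inner ℂ x y‖ ^ 2 / ‖x‖ ^ 2 := by
        rw [norm_sub_sq (𝕜 := ℂ), norm_smul, htn, inner_smul_left]
        have e2 : (starRingEnd ℂ) t * inner ℂ x y = ((‖inner ℂ x y‖ ^ 2 / ‖x‖ ^ 2 : ℝ) : ℂ) := by
          rw [ht, map_div₀, map_pow, Complex.conj_ofReal, div_mul_eq_mul_div, Complex.conj_mul']
          push_cast
          rfl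
        rw [e2]
        simp only [RCLike.re_to_complex, Complex.ofReal_re]
        field_simp
        ring
      rw [e1, hnn]
      field_simp
      ring
    have h2 : ‖t • x - y‖ ^ 2 ≤ (‖y‖ * dist (pr x) (pr y)) ^ 2 := by
      rw [h1, div_le_iff₀ (by positivity)]
      calc wd x y ^ 2 ≤ (‖x‖ * ‖y‖ * dist (pr x) (pr y)) ^ 2 := hmul
        _ = _ := by ring
    exact (pow_le_pow_iff_left₀ (norm_nonneg _) (by positivity) two_ne_zero).1 h2

/-- a component which does not pass through `y` -/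
theorem oth_le (hG : G.Ok) {y : EN N} (hy : y ≠ 0) (i : G.ι) (hi : G.E i y ≠ 0) :
    ∃ r A : ℝ, 0 < r ∧ 0 ≤ A ∧ ∀ x ∈ G.K, dist (pr x) (pr y) < r → ∀ v, ‖G.ell i x v‖ ≤ A * fs x v := by
  have hyn : 0 < ‖y‖ := norm_pos_iff.2 hy
  have hEn : ‖G.E i y‖ ≠ 0 := norm_ne_zero_iff.2 hi
  have hc : ContinuousAt (fun x : EN N => ‖fderiv ℂ (G.E i) x‖ * ‖x‖ / ‖G.E i x‖) y :=
    (((hG.anE i y).fderiv.continuousAt.norm).mul continuousAt_id.norm).div ((hG.anE i y).continuousAt.norm) hEn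
  set A : ℝ := ‖fderiv ℂ (G.E i) y‖ * ‖y‖ / ‖G.E i y‖ with hA
  have h1 : ∀ᶠ x in 𝓝 y, ‖fderiv ℂ (G.E i) x‖ * ‖x‖ / ‖G.E i x‖ < A + 1 := hc.eventually_lt continuousAt_const (by simp [hA])
  obtain ⟨ε, hε, h1⟩ := Metric.eventually_nhds_iff.1 h1
  have hA0 : 0 ≤ A := by positivity
  refine ⟨min 1 (ε / ‖y‖), A + 1, lt_min one_pos (by positivity), by linarith only [hA0], fun x hx hd v => ?_⟩
  have hx0 : x ≠ 0 := ne0 hG hx
  obtain ⟨t, ht, htx⟩ := exists_mul hx0 hy (hd.trans_le (min_le_left _ _))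
  have h2 : dist (t • x) y < ε := by
    rw [dist_eq_norm]
    refine htx.trans_lt ?_
    have := hd.trans_le (min_le_right _ _)
    rwa [lt_div_iff₀ hyn, mul_comm] at this
  have h3 := h1 h2
  have htn : 0 < ‖t‖ := norm_pos_iff.2 ht
  have hE : 0 < ‖G.E i x‖ := norm_pos_iff.2 (hG.neE i x hx)
  have h4 : ‖fderiv ℂ (G.E i) (t • x)‖ * ‖t • x‖ / ‖G.E i (t • x)‖ = ‖fderiv ℂ (G.E i) x‖ * ‖x‖ / ‖G.E i x‖ := by
    rw [hG.smulE, norm_smul, norm_smul, norm_pow]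
    have h5 := fderiv_smul' hG i x t
    have h6 : ‖fderiv ℂ (G.E i) (t • x)‖ * (‖t‖ * ‖x‖) = ‖t‖ ^ G.c i * (‖fderiv ℂ (G.E i) x‖ * ‖x‖) := by
      rw [← mul_assoc, mul_comm _ ‖t‖, h5]; ring
    rw [h6, mul_div_mul_left _ _ (pow_ne_zero _ htn.ne')]
  rw [h4] at h3
  exact (ell_le hG i hx v).trans (mul_le_mul_of_nonneg_right h3.le (fs_nonneg x v))

/-- the renaming of the variables -/
def rn (i : Fin 2 → G.ι) (Q : MvPolynomial G.ι ℂ) : MvPolynomial (Fin 2) ℂ := by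
  classical
  exact MvPolynomial.aeval (fun i' => if i' = i 0 then MvPolynomial.X 0 else if i' = i 1 then MvPolynomial.X 1 else 0) Q

theorem rn_hom (i : Fin 2 → G.ι) {Q : MvPolynomial G.ι ℂ} {m : ℕ} (hQ : Q.IsHomogeneous m) : (rn i Q).IsHomogeneous m := by
  classical
  have := hQ.aeval (R := ℂ) (S := ℂ) (τ := Fin 2)
    (fun i' => if i' = i 0 then MvPolynomial.X 0 else if i' = i 1 then MvPolynomial.X 1 else 0) (n := 1) (fun i' => by
      split_ifs
      · exact MvPolynomial.isHomogeneous_X _ _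
      · exact MvPolynomial.isHomogeneous_X _ _
      · exact MvPolynomial.isHomogeneous_zero _ _ _)
  rw [one_mul] at this
  exact this

theorem rn_eval (i : Fin 2 → G.ι) (Q : MvPolynomial G.ι ℂ) (u : Fin 2 → ℂ) :
    MvPolynomial.eval u (rn i Q) = MvPolynomial.eval (fun i' => by classical exact if i' = i 0 then u 0 else if i' = i 1 then u 1 else 0) Q := by
  classical
  induction Q using MvPolynomial.induction_on with
  | C a => simp [rn]
  | add p q hp hq =>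
    have : rn i (p + q) = rn i p + rn i q := by simp [rn]
    rw [this, map_add, map_add, hp, hq]
  | mul_X p n hp =>
    have : rn i (p * MvPolynomial.X n) = rn i p * (if n = i 0 then MvPolynomial.X 0 else if n = i 1 then MvPolynomial.X 1 else 0) := by simp [rn]
    rw [this, map_mul, map_mul, hp]
    congr 1
    rw [MvPolynomial.eval_X]
    split_ifs <;> simp

end LCrs

open LCrs

theorem crs_of (hG : G.Ok) {y : EN N} (hy : y ∈ G.X) {i : Fin 2 → G.ι} (hi : i 0 ≠ i 1) (h0 : ∀ a, G.E (i a) y = 0) : ∃ l P r C α, G.Crs y i l P r C α := by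
  classical
  have hy0 : y ≠ 0 := fun h => hG.cone.zero_notMem (h ▸ hy)
  have hyK : y ∉ G.K := fun h => hG.neE (i 0) y h (h0 0)
  have hXne : ∀ x ∈ G.X, x ≠ 0 := fun x hx h => hG.cone.zero_notMem (h ▸ hx)
  have hKX : ∀ x ∈ G.K, x ∈ G.X := fun x hx => ((hG.aff.mem x).1 hx).1
  have hpd : ∀ x ∈ G.X, dist (pr x) (pr y) = Real.sqrt 2 * pd x y := fun x hx => dist_pr (hXne x hx) hy0
  have hpd0 : ∀ x : EN N, 0 ≤ pd x y := fun x => div_nonneg (wd_nonneg _ _) (by positivity)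
  have hpd' : ∀ x ∈ G.X, pd x y ≤ dist (pr x) (pr y) := fun x hx => by
    rw [hpd x hx]
    exact le_mul_of_one_le_left (hpd0 x) (by rw [Real.one_le_sqrt]; norm_num)
  -- the local equations
  have hloc := fun a => hG.locE y hy (i a) (h0 a)
  choose l r₁ c₁ hr₁ hc₁ hloc using hloc
  -- the residues
  obtain ⟨Q, r₂, C₂, hr₂, hC₂, hQh, hQd, hQ⟩ := hG.resL y hy hyK
  -- the rate
  obtain ⟨r₃, C₃, α, hr₃, hα, hcr⟩ := hG.crE y hy (i 0) (i 1) hi (h0 0) (h0 1)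
  -- the other components
  have hoth : ∀ i', ∃ r A : ℝ, 0 < r ∧ 0 ≤ A ∧ ∀ x ∈ G.K, dist (pr x) (pr y) < r → ∀ v, i' ≠ i 0 → i' ≠ i 1 → ‖G.ell i' x v‖ ≤ A * fs x v := by
    intro i'
    by_cases h1 : i' = i 0
    · exact ⟨1, 0, one_pos, le_rfl, fun x _ _ v h => absurd h1 h⟩
    by_cases h2 : i' = i 1
    · exact ⟨1, 0, one_pos, le_rfl, fun x _ _ v _ h => absurd h2 h⟩
    obtain ⟨r, A, hr, hA, h⟩ := oth_le hG hy0 i' (hG.twoE y hy (i 0) (i 1) i' hi (Ne.symm h2) (Ne.symm h1) (h0 0) (h0 1))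
    exact ⟨r, A, hr, hA, fun x hx hd v _ _ => h x hx hd v⟩
  choose r₄ A hr₄ hA hoth using hoth
  have hne : (Finset.univ : Finset G.ι).Nonempty := ⟨i 0, Finset.mem_univ _⟩
  set r₅ : ℝ := Finset.univ.inf' hne r₄ with hr₅
  have hr₅0 : 0 < r₅ := by rw [hr₅, Finset.lt_inf'_iff]; exact fun i' _ => hr₄ i'
  have hr₅le : ∀ i', r₅ ≤ r₄ i' := fun i' => Finset.inf'_le _ (Finset.mem_univ i')
  set r : ℝ := min (1 / 2) (min (min (r₁ 0) (r₁ 1)) (min r₂ (min r₃ r₅))) with hr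
  have hr0 : 0 < r := lt_min (by norm_num) (lt_min (lt_min (hr₁ 0) (hr₁ 1)) (lt_min hr₂ (lt_min hr₃ hr₅0)))
  have q1 : r ≤ 1 / 2 := min_le_left _ _
  have q2 : ∀ a, r ≤ r₁ a := by
    intro a
    have h1 : r ≤ min (r₁ 0) (r₁ 1) := (min_le_right _ _).trans (min_le_left _ _)
    fin_cases a
    · exact h1.trans (min_le_left _ _)
    · exact h1.trans (min_le_right _ _)
  have q3 : r ≤ r₂ := (min_le_right _ _).trans ((min_le_right _ _).trans (min_le_left _ _))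
  have q4 : r ≤ r₃ := (min_le_right _ _).trans ((min_le_right _ _).trans ((min_le_right _ _).trans (min_le_left _ _)))
  have q5 : r ≤ r₅ := (min_le_right _ _).trans ((min_le_right _ _).trans ((min_le_right _ _).trans (min_le_right _ _)))
  have hSA : 0 ≤ ∑ i', A i' := Finset.sum_nonneg fun i' _ => hA i'
  refine ⟨l, fun j => rn i (Q j), r, 1 + C₂ + Real.sqrt 2 * |C₃| + ∑ i', A i', α, ?_⟩
  have hs2 : 0 ≤ Real.sqrt 2 * |C₃| := by positivity
  exact
  { ne := hy0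
    r_pos := hr0
    r_le := q1
    C_ge := by linarith only [hC₂, hSA, hs2]
    α_pos := hα
    hom := fun j => rn_hom i (hQh j)
    loc := fun a => ⟨c₁ a, hc₁ a, fun x hx hd => hloc a x hx (((hpd' x hx).trans_lt hd).trans_le (q2 a))⟩
    oth := by
      intro x hx hd v _
      have hf := fs_nonneg x v
      have h1 : ∑ i', ‖G.ell i' x v‖ ≤ ∑ i', ((if i' = i 0 then ‖G.ell (i 0) x v‖ else 0) + (if i' = i 1 then ‖G.ell (i 1) x v‖ else 0) + A i' * fs x v) := by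
        refine Finset.sum_le_sum fun i' _ => ?_
        have h2 : 0 ≤ A i' * fs x v := mul_nonneg (hA i') hf
        by_cases h3 : i' = i 0
        · subst h3
          have h4 : 0 ≤ (if i 0 = i 1 then ‖G.ell (i 1) x v‖ else 0) := by split_ifs <;> positivity
          rw [if_pos rfl]; linarith only [h2, h4]
        by_cases h5 : i' = i 1
        · subst h5
          rw [if_neg h3, if_pos rfl]; linarith only [h2]
        rw [if_neg h3, if_neg h5]
        have := hoth i' x hx (hd.trans_le (q5.trans (hr₅le i'))) v h3 h5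
        linarith only [this]
      rw [Finset.sum_add_distrib, Finset.sum_add_distrib, Finset.sum_ite_eq', Finset.sum_ite_eq', if_pos (Finset.mem_univ _), if_pos (Finset.mem_univ _),
        ← Finset.sum_mul] at h1
      unfold Geo.L
      have h6 : 0 ≤ ‖G.ell (i 0) x v‖ := norm_nonneg _
      have h7 : 0 ≤ ‖G.ell (i 1) x v‖ := norm_nonneg _
      have h8 : 0 ≤ C₂ + Real.sqrt 2 * |C₃| := by positivity
      linarith only [h1, mul_nonneg h8 hf, mul_nonneg h8 h6, mul_nonneg h8 h7, mul_nonneg hSA h6, mul_nonneg hSA h7]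
    rate := by
      intro x hx hd u hu
      have h1 := hcr x hx (((hpd' x (hKX x hx)).trans_lt hd).trans_le q4) u (hu 0) (hu 1)
      rw [hpd x (hKX x hx)]
      have h2 : Real.sqrt 2 * pd x y ≤ Real.sqrt 2 * (C₃ * Real.exp (-(α * u))) := mul_le_mul_of_nonneg_left h1 (Real.sqrt_nonneg _)
      have h3 : Real.sqrt 2 * (C₃ * Real.exp (-(α * u))) ≤ (Real.sqrt 2 * |C₃|) * Real.exp (-(α * u)) := by
        rw [← mul_assoc]
        exact mul_le_mul_of_nonneg_right (mul_le_mul_of_nonneg_left (le_abs_self _) (Real.sqrt_nonneg _)) (Real.exp_pos _).le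
      refine h2.trans (h3.trans (mul_le_mul_of_nonneg_right (by linarith only [hC₂, hSA]) (Real.exp_pos _).le))
    res := by
      intro x hx hd j v hv
      have h1 := hQ x hx (((hpd' x (hKX x hx)).trans_lt hd).trans_le q3) j v hv
      have h2 : MvPolynomial.eval (fun a => G.ell (i a) x v) (rn i (Q j)) = MvPolynomial.eval (fun i' => G.ell i' x v) (Q j) := by
        rw [rn_eval]
        refine hQd j _ _ fun i' hi' => ?_
        by_cases h3 : i' = i 0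
        · subst h3; simp
        by_cases h4 : i' = i 1
        · subst h4; simp [h3]
        exact absurd hi' (hG.twoE y hy (i 0) (i 1) i' hi (Ne.symm h4) (Ne.symm h3) (h0 0) (h0 1))
      rw [h2]
      refine h1.trans ?_
      have hf := fs_nonneg x v
      have hL : 0 ≤ G.L x v := add_nonneg hf (Finset.sum_nonneg fun _ _ => norm_nonneg _)
      exact mul_le_mul_of_nonneg_right (mul_le_mul_of_nonneg_right (by linarith only [hSA, hs2]) hf) (pow_nonneg hL _) }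

end Pool.Agent.SR3

end
end
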