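import Pool.Agent.H43.TL2.M159
import Pool.Agent.H43.TL2.M167
import Pool.Agent.H43.TL2.M183
import Pool.Agent.H43.TL2.M184
import Pool.Agent.H43.TL2.SR3.LMac
import Pool.Agent.H43.TL2.SR3.Mac_1
import Pool.Agent.H43.TL2.SR3.Smo_1

/-! The parts of this file: SR3.LHlB_1, SR3.LAsm, SR3.GapD, SR3.ASpd_1, SR3.AStc, SR3.ALow. -/

section

/-!
# SR3 LHlB: the holes near a well, in the neighbourhood of a crossing

`hl_ex`: a point where the lift is bounded, far from the good points, lies in a hole; its end is a crossing, the curve stays near this crossing in the disc of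
radius `(1 - τ) d`, outside the holes.
-/

set_option autoImplicit false

open Topology Filter Metric

noncomputable section

namespace Pool.Agent.SR3

open Pool.Agent.H36.BP (EN fs wd Sub OrdTwo)
open Pool.Agent.H14.PP (IsCone Tan)
open Pool.Agent.SY (Ent)
open Pool.Agent.H62.EF (MN pr)
open Geo (Gd)

variable {N : ℕ} {G : Geo N} {T : Set (EN N)} {rho : EN N → ℝ} {M' : ℕ} {c₀ C₀ δ : ℝ} {g : (ℂ → EN N) → ℂ → ℝ}

namespace LHlB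

end LHlB

open LHlB

/-- `hl_ex` from the statements of `macro_stay`, `smooth_end`, `exists_holes`, `holes_par`, `holes_count`, `growth` -/
private theorem hl_core (hG : G.Ok) {Y : Finset (EN N)} (hY : G.Ends Y)
    {l : EN N → (Fin 2 → G.ι) → Fin 2 → Fin (G.M + 1)} {r : EN N → (Fin 2 → G.ι) → ℝ} (hr : ∀ y i, 0 < r y i)
    (hl : ∀ y ∈ Y, ∀ i : Fin 2 → G.ι, i 0 ≠ i 1 → (∀ a, G.E (i a) y = 0) → ∀ a, G.LocEq (r y i) y (i a) (l y i a)) (B₀ : ℝ) {τ : ℝ} (hτ : 0 < τ)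
    (hm : ∃ ε₁ : ℝ, 0 < ε₁ ∧ ∀ ε₂ : ℝ, 0 < ε₂ → ε₂ ≤ ε₁ → ∃ B₀ : ℝ,
    ∀ B₃ : ℝ, B₀ ≤ B₃ → ∀ η θ θ' : ℝ, 0 < η → 0 < θ' → θ' < θ → θ < 1 → ∃ ε₀ : ℝ, 0 < ε₀ ∧ ∀ ε : ℝ, 0 < ε → ε ≤ ε₀ → ∀ K B₄ : ℝ, 20 ≤ K → ∃ R : ℝ, 0 < R ∧
    ∀ (q : G.J → ℂ) (F : ℂ → EN N), G.Cl T q F → ∀ z₀ t s y, R ≤ infDist z₀ (Gd rho δ F) →
      G.Holes Y B₃ B₄ ε K (Real.exp (-(η * infDist z₀ (Gd rho δ F)))) F z₀ (θ * infDist z₀ (Gd rho δ F)) t s y →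
      ∀ a ∈ t, ‖a - z₀‖ ≤ 1 → ∀ i i' : G.ι, i ≠ i' → G.E i (y a) = 0 → G.E i' (y a) = 0 →
      ∀ z, ‖z - z₀‖ ≤ θ' * infDist z₀ (Gd rho δ F) → Off t s z → dist (pr (F z)) (pr (y a)) < ε₂)
    (hs : ∃ B₀ : ℝ, ∀ B₃ : ℝ, B₀ ≤ B₃ → ∀ η θ θ' : ℝ, 0 < η → 0 < θ' → θ' < θ → θ < 1 →
    ∃ ε₀ : ℝ, 0 < ε₀ ∧ ∀ ε : ℝ, 0 < ε → ε ≤ ε₀ → ∀ K B₄ : ℝ, 20 ≤ K → ∃ R : ℝ, 0 < R ∧
    ∀ (q : G.J → ℂ) (F : ℂ → EN N), G.Cl T q F → ∀ z₀ t s y, R ≤ infDist z₀ (Gd rho δ F) →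
      G.Holes Y B₃ B₄ ε K (Real.exp (-(η * infDist z₀ (Gd rho δ F)))) F z₀ (θ * infDist z₀ (Gd rho δ F)) t s y →
      ∀ a ∈ t, ‖a - z₀‖ ≤ θ' * infDist z₀ (Gd rho δ F) → ∃ i i' : G.ι, i ≠ i' ∧ G.E i (y a) = 0 ∧ G.E i' (y a) = 0)
    (hh : ∃ ε₁ : ℝ, 0 < ε₁ ∧ ∀ B₃ θ : ℝ, 0 < θ → θ < 1 → ∃ η : ℝ, 0 < η ∧
    ∀ ε : ℝ, 0 < ε → ε ≤ ε₁ → ∀ K : ℝ, 2 ≤ K → ∃ B₄ R : ℝ, 0 < R ∧ ∀ (q : G.J → ℂ) (F : ℂ → EN N), G.Cl T q F → ∀ z₀, R ≤ infDist z₀ (Gd rho δ F) →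
      ∃ (t : Finset ℂ) (s : ℂ → ℝ) (y : ℂ → EN N),
        G.Holes Y B₃ B₄ ε K (Real.exp (-(η * infDist z₀ (Gd rho δ F)))) F z₀ (θ * infDist z₀ (Gd rho δ F)) t s y)
    (hp : ∃ ε₁ : ℝ, 0 < ε₁ ∧
    ∀ B₃ η θ θ' : ℝ, 0 < η → 0 < θ' → θ' < θ → θ < 1 → ∀ ε : ℝ, 0 < ε → ε ≤ ε₁ → ∀ K B₄ K' : ℝ, 20 ≤ K → ∃ R : ℝ, 0 < R ∧
    ∀ (q : G.J → ℂ) (F : ℂ → EN N), G.Cl T q F → ∀ z₀ t s y, R ≤ infDist z₀ (Gd rho δ F) →
      G.Holes Y B₃ B₄ ε K (Real.exp (-(η * infDist z₀ (Gd rho δ F)))) F z₀ (θ * infDist z₀ (Gd rho δ F)) t s y →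
      ∀ a ∈ t, ∀ b ∈ t, ‖a - z₀‖ ≤ θ' * infDist z₀ (Gd rho δ F) → ‖a - b‖ ≤ K' * max (s a) (s b) → y a = y b ∧
        ∀ i i' l l', G.LocEq ε (y a) i l → G.LocEq ε (y a) i' l' → G.E i (y a) = 0 → G.E i' (y a) = 0 →
          G.wnd (fun w => F (a + s a * w)) (y a) i l 1 * G.wnd (fun w => F (b + s b * w)) (y b) i' l' 1 =
            G.wnd (fun w => F (a + s a * w)) (y a) i' l' 1 * G.wnd (fun w => F (b + s b * w)) (y b) i l 1)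
    (hc : ∀ B₃ η θ θ' : ℝ, 0 < η → 0 < θ' → θ' < θ → θ < 1 →
    ∃ B₅ : ℝ, 0 < B₅ ∧ ∀ B₄ ε K : ℝ, 20 ≤ K → ∃ R : ℝ, 0 < R ∧ ∀ (q : G.J → ℂ) (F : ℂ → EN N), G.Cl T q F → ∀ z₀ t s y, R ≤ infDist z₀ (Gd rho δ F) →
      G.Holes Y B₃ B₄ ε K (Real.exp (-(η * infDist z₀ (Gd rho δ F)))) F z₀ (θ * infDist z₀ (Gd rho δ F)) t s y →
      (t.card : ℝ) ≤ B₅ * infDist z₀ (Gd rho δ F) ∧
      ∀ a ∈ t, ‖a - z₀‖ ≤ θ' * infDist z₀ (Gd rho δ F) → ∀ r : ℝ, 0 < r → r < infDist z₀ (Gd rho δ F) →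
        (((t.erase a).filter (fun b => ‖b - a‖ ≤ r)).card : ℝ) * Real.log (infDist z₀ (Gd rho δ F) / r) ≤ B₅ * infDist z₀ (Gd rho δ F))
    (hg : ∃ B : ℝ, 0 ≤ B ∧ ∀ (q : G.J → ℂ) (F : ℂ → EN N), G.Cl T q F → ∀ z, Real.log ‖F z‖ ≤ B * (1 + infDist z (Gd rho δ F))) :
    ∃ B η : ℝ, 1 ≤ B ∧ 0 < η ∧ ∀ K : ℝ, ∃ R : ℝ, ∀ (q : G.J → ℂ) (F : ℂ → EN N), G.Cl T q F → ∀ z, R ≤ infDist z (Gd rho δ F) → Real.log ‖F z‖ ≤ B₀ →
      ∃ y ∈ Y, ∃ i : Fin 2 → G.ι, i 0 ≠ i 1 ∧ (∀ a, G.E (i a) y = 0) ∧ ∃ (κ : Type) (_ : Fintype κ) (ζ : κ → ℂ) (s : κ → ℝ) (M : κ → Fin 2 → ℕ) (z₀ : ℂ) (ρ : ℝ),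
        G.Hl y i (l y i) (r y i) F ζ s M z₀ ρ B η K ∧ (∃ k, ζ k = z₀) ∧ ‖z₀ - z‖ ≤ 1 ∧ (1 - τ) * infDist z (Gd rho δ F) ≤ ρ ∧
        ρ ≤ infDist z (Gd rho δ F) := by
  classical
  -- the constants
  obtain ⟨σ, hσ, hsepσ⟩ := sep_fin Y
  obtain ⟨r₀, hr₀, hr₀'⟩ := lower_fin (Y ×ˢ (Finset.univ : Finset (Fin 2 → G.ι))) (f := fun p => r p.1 p.2) fun p _ => hr p.1 p.2
  obtain ⟨εm, hεm, hm⟩ := hm
  obtain ⟨ε₂, hε₂⟩ : ∃ ε₂ : ℝ, ε₂ = min εm (min r₀ (σ / 2)) := ⟨_, rfl⟩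
  have hε₂0 : 0 < ε₂ := by rw [hε₂]; exact lt_min hεm (lt_min hr₀ (half_pos hσ))
  have hε₂m : ε₂ ≤ εm := by rw [hε₂]; exact min_le_left _ _
  have hε₂r : ε₂ ≤ r₀ := by rw [hε₂]; exact (min_le_right _ _).trans (min_le_left _ _)
  have hε₂σ : ε₂ ≤ σ / 2 := by rw [hε₂]; exact (min_le_right _ _).trans (min_le_right _ _)
  obtain ⟨Bm, hm⟩ := hm ε₂ hε₂0 hε₂m
  obtain ⟨Bs, hs⟩ := hs
  obtain ⟨B₃, hB₃⟩ : ∃ B₃ : ℝ, B₃ = max B₀ (max Bm Bs) := ⟨_, rfl⟩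
  have hB₃0 : B₀ ≤ B₃ := by rw [hB₃]; exact le_max_left _ _
  have hB₃m : Bm ≤ B₃ := by rw [hB₃]; exact (le_max_left _ _).trans (le_max_right _ _)
  have hB₃s : Bs ≤ B₃ := by rw [hB₃]; exact (le_max_right _ _).trans (le_max_right _ _)
  obtain ⟨τ₁, hτ₁⟩ : ∃ τ₁ : ℝ, τ₁ = min (τ / 2) (1 / 8) := ⟨_, rfl⟩
  have hτ0 : 0 < τ₁ := by rw [hτ₁]; exact lt_min (half_pos hτ) (by norm_num)
  have hτ8 : τ₁ ≤ 1 / 8 := by rw [hτ₁]; exact min_le_right _ _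
  have hττ : τ₁ ≤ τ / 2 := by rw [hτ₁]; exact min_le_left _ _
  have ht0 : (0 : ℝ) < 1 - τ₁ / 2 := by linarith only [hτ8]
  have ht1 : 1 - τ₁ / 2 < 1 - τ₁ / 4 := by linarith only [hτ0]
  have ht2 : 1 - τ₁ / 4 < 1 := by linarith only [hτ0]
  obtain ⟨εh, hεh, hh⟩ := hh
  obtain ⟨η, hη, hh⟩ := hh B₃ (1 - τ₁ / 4) (ht0.trans ht1) ht2
  obtain ⟨εm', hεm', hm⟩ := hm B₃ hB₃m η (1 - τ₁ / 4) (1 - τ₁ / 2) hη ht0 ht1 ht2
  obtain ⟨εs, hεs, hs⟩ := hs B₃ hB₃s η (1 - τ₁ / 4) (1 - τ₁ / 2) hη ht0 ht1 ht2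
  obtain ⟨εp, hεp, hp⟩ := hp
  obtain ⟨ε, hε⟩ : ∃ ε : ℝ, ε = min εh (min εm' (min εs (min εp (min r₀ (σ / 2))))) := ⟨_, rfl⟩
  have hε0 : 0 < ε := by rw [hε]; exact lt_min hεh (lt_min hεm' (lt_min hεs (lt_min hεp (lt_min hr₀ (half_pos hσ)))))
  have hεh' : ε ≤ εh := by rw [hε]; exact min_le_left _ _
  have hεm'' : ε ≤ εm' := by rw [hε]; exact (min_le_right _ _).trans (min_le_left _ _)
  have hεs' : ε ≤ εs := by rw [hε]; exact (min_le_right _ _).trans ((min_le_right _ _).trans (min_le_left _ _))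
  have hεp' : ε ≤ εp := by rw [hε]; exact (min_le_right _ _).trans ((min_le_right _ _).trans ((min_le_right _ _).trans (min_le_left _ _)))
  have hεr : ε ≤ r₀ := by
    rw [hε]; exact (min_le_right _ _).trans ((min_le_right _ _).trans ((min_le_right _ _).trans ((min_le_right _ _).trans (min_le_left _ _))))
  have hεσ : ε ≤ σ / 2 := by
    rw [hε]; exact (min_le_right _ _).trans ((min_le_right _ _).trans ((min_le_right _ _).trans ((min_le_right _ _).trans (min_le_right _ _))))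
  obtain ⟨B₄, R₁, hR₁, hh⟩ := hh ε hε0 hεh' 20 (by norm_num)
  obtain ⟨R₂, hR₂, hm⟩ := hm ε hε0 hεm'' 20 B₄ le_rfl
  obtain ⟨R₃, hR₃, hs⟩ := hs ε hε0 hεs' 20 B₄ le_rfl
  obtain ⟨B₅, hB₅, hc⟩ := hc B₃ η _ _ hη ht0 ht1 ht2
  obtain ⟨R₄, hR₄, hc⟩ := hc B₄ ε 20 le_rfl
  obtain ⟨R₅, hrad⟩ := hl_rad (B := B₅) hη hτ0
  obtain ⟨Bg, hBg, hg⟩ := hg
  obtain ⟨B, hBdef⟩ : ∃ B : ℝ, B = max 1 (max B₄ (max (2 * |B₅|) (2 * |3 * Bg|))) := ⟨_, rfl⟩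
  refine ⟨B, η, by rw [hBdef]; exact le_max_left _ _, hη, fun K => ?_⟩
  obtain ⟨R₆, hR₆, hp⟩ := hp B₃ η (1 - τ₁ / 4) (1 - τ₁ / 2) hη ht0 ht1 ht2 ε hε0 hεp' 20 B₄ K le_rfl
  refine ⟨max R₁ (max R₂ (max R₃ (max R₄ (max R₅ (max R₆ (8 / τ₁)))))), fun q F hF z hz hzB => ?_⟩
  obtain ⟨d, hd⟩ : ∃ d : ℝ, d = infDist z (Gd rho δ F) := ⟨_, rfl⟩
  have hd1 : R₁ ≤ infDist z (Gd rho δ F) := (le_max_left _ _).trans hz
  have hz2 := (le_max_right _ _).trans hz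
  have hd2 : R₂ ≤ infDist z (Gd rho δ F) := (le_max_left _ _).trans hz2
  have hz3 := (le_max_right _ _).trans hz2
  have hd3 : R₃ ≤ infDist z (Gd rho δ F) := (le_max_left _ _).trans hz3
  have hz4 := (le_max_right _ _).trans hz3
  have hd4 : R₄ ≤ infDist z (Gd rho δ F) := (le_max_left _ _).trans hz4
  have hz5 := (le_max_right _ _).trans hz4
  have hd5 : R₅ ≤ infDist z (Gd rho δ F) := (le_max_left _ _).trans hz5
  have hz6 := (le_max_right _ _).trans hz5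
  have hd6 : R₆ ≤ infDist z (Gd rho δ F) := (le_max_left _ _).trans hz6
  have hd7 : 8 / τ₁ ≤ infDist z (Gd rho δ F) := (le_max_right _ _).trans hz6
  obtain ⟨t, s, yy, hH⟩ := hh q F hF z hd1
  have hm := hm q F hF z t s yy hd2 hH
  have hs := hs q F hF z t s yy hd3 hH
  have hc := hc q F hF z t s yy hd4 hH
  have hp := hp q F hF z t s yy hd6 hH
  rw [← hd] at hd7 hH hm hs hc hp hd5 ⊢
  have hd64 : 64 ≤ d := by
    have h1 : (64 : ℝ) ≤ 8 / τ₁ := by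
      rw [le_div_iff₀ hτ0]
      linarith only [hτ8]
    exact h1.trans hd7
  have hd0 : 0 < d := by linarith only [hd64]
  have hexp : Real.exp (-(η * d)) ≤ 1 := by
    rw [Real.exp_le_one_iff]
    have : 0 ≤ η * d := by positivity
    linarith only [this]
  have hdt : 1 ≤ (1 - τ₁ / 2) * d := by
    calc (1 : ℝ) ≤ (1 / 2) * 64 := by norm_num
      _ ≤ (1 - τ₁ / 2) * d := mul_le_mul (by linarith only [hτ8]) hd64 (by norm_num) (by linarith only [hτ8])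
  -- the hole of the well
  obtain ⟨a, ha, haz⟩ := hH.cov z (mem_closedBall_self (mul_nonneg (by linarith only [hτ8]) hd0.le)) (hzB.trans hB₃0)
  have hsa := hH.pos a ha
  have haz' : ‖a - z‖ ≤ 1 := by
    rw [norm_sub_rev]
    have := hsa.2.trans hexp
    linarith only [hexp, haz, hsa]
  obtain ⟨i₀, i₁, hi01, hi0, hi1⟩ := hs a ha (haz'.trans hdt)
  obtain ⟨i, hi⟩ : ∃ i : Fin 2 → G.ι, i = ![i₀, i₁] := ⟨_, rfl⟩
  have hie0 : i 0 = i₀ := by rw [hi]; rfl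
  have hie1 : i 1 = i₁ := by rw [hi]; rfl
  have hine : i 0 ≠ i 1 := by rw [hie0, hie1]; exact hi01
  have hiE : ∀ e, G.E (i e) (yy a) = 0 := by
    intro e
    fin_cases e
    · show G.E (i 0) (yy a) = 0
      rw [hie0]; exact hi0
    · show G.E (i 1) (yy a) = 0
      rw [hie1]; exact hi1
  have hyY : yy a ∈ Y := (hH.rim a ha).mem
  have hst := hm a ha haz' i₀ i₁ hi01 hi0 hi1
  have hrr : r₀ ≤ r (yy a) i := hr₀' (yy a, i) (Finset.mk_mem_product hyY (Finset.mem_univ _))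
  have hlo := hl (yy a) hyY i hine hiE
  have hsepY : ∀ y ∈ Y, ∀ y' ∈ Y, dist (pr y) (pr y') < ε + ε₂ → pr y = pr y' := fun y hy y' hy' h =>
    hsepσ y hy y' hy' (h.trans_le (by linarith only [hε₂σ, hεσ]))
  have hsame : ∀ b ∈ t, ‖b - z‖ ≤ (1 - τ₁ / 2) * d → yy b = yy a := fun b hb hbz =>
    same_end hY hH (hexp.trans hdt) ha hsepY hst hb hbz
  have hgr : ∀ w, ‖w - z‖ ≤ d → Real.log ‖F w‖ ≤ 3 * Bg * d := by
    intro w hw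
    have h1 := hg q F hF w
    have h2 : infDist w (Gd rho δ F) ≤ infDist z (Gd rho δ F) + dist w z := infDist_le_infDist_add_dist
    rw [← hd, dist_eq_norm] at h2
    have h3 : 1 + infDist w (Gd rho δ F) ≤ 3 * d := by linarith only [hd64, hw, h2]
    calc Real.log ‖F w‖ ≤ Bg * (1 + infDist w (Gd rho δ F)) := h1
      _ ≤ Bg * (3 * d) := mul_le_mul_of_nonneg_left h3 hBg
      _ = _ := by ring
  obtain ⟨ρ, hρ1, hρ2, hρ⟩ := hrad t s a d hd5 hc.1 hH.pos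
  have hpar : ∀ b ∈ t, ∀ b' ∈ t, ‖b - z‖ ≤ (1 - τ₁ / 2) * d → ‖b - b'‖ ≤ K * max (s b) (s b') →
      G.wnd (fun w => F (b + s b * w)) (yy b) (i 0) (l (yy a) i 0) 1 * G.wnd (fun w => F (b' + s b' * w)) (yy b') (i 1) (l (yy a) i 1) 1 =
        G.wnd (fun w => F (b + s b * w)) (yy b) (i 1) (l (yy a) i 1) 1 * G.wnd (fun w => F (b' + s b' * w)) (yy b') (i 0) (l (yy a) i 0) 1 := by
    intro b hb b' hb' hbz hbb
    have hbe := hsame b hb hbz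
    refine (hp b hb b' hb' hbz hbb).2 (i 0) (i 1) (l (yy a) i 0) (l (yy a) i 1) ?_ ?_ ?_ ?_
    · rw [hbe]; exact locEq_mono (hlo 0) (hεr.trans hrr)
    · rw [hbe]; exact locEq_mono (hlo 1) (hεr.trans hrr)
    · rw [hbe]; exact hiE 0
    · rw [hbe]; exact hiE 1
  have hcnt : ∀ b ∈ t, ‖b - z‖ ≤ (1 - τ₁ / 2) * d → ∀ r' : ℝ, 0 < r' → r' < d →
      (((t.erase b).filter (fun b' => ‖b' - b‖ ≤ r')).card : ℝ) * Real.log (d / r') ≤ B₅ * d := fun b hb hbz r' h0 h1 =>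
    hc.2 b hb hbz r' h0 h1
  obtain ⟨κ, fκ, ζ, s', M, hHl, hk⟩ := hl_of hG hY (hεr.trans hrr) (hε₂r.trans hrr) hε0 hsepY hη hτ0 hτ8 hd7 hexp hF.ent.diff hF.ent.mem hF.nm hH ha haz
    hiE hlo hst hc.1 hcnt hpar hgr hρ1 hρ2 hρ (B := B) (by rw [hBdef]; exact (le_max_left _ _).trans (le_max_right _ _))
    (by rw [hBdef]; exact (le_max_left _ _).trans ((le_max_right _ _).trans (le_max_right _ _)))
    (by rw [hBdef]; exact (le_max_right _ _).trans ((le_max_right _ _).trans (le_max_right _ _)))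
  refine ⟨yy a, hyY, i, hine, hiE, κ, fκ, ζ, s', M, a, ρ, hHl, hk, haz', ?_, ?_⟩
  · have h1 : (1 - τ) * d ≤ (1 - 2 * τ₁) * d := mul_le_mul_of_nonneg_right (by linarith only [hττ]) hd0.le
    linarith only [hρ1, h1]
  · have h1 : (1 - τ₁) * d ≤ d := mul_le_of_le_one_left hd0.le (by linarith only [hτ0])
    linarith only [hρ1, hρ2]

theorem hl_ex (hG : G.Ok) (hM : G.Met T rho M' c₀ C₀ δ g) (hQ : G.QN rho) (hB : G.Bdry) {Y : Finset (EN N)} (hY : G.Ends Y)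
    (hn : G.Smooth Y) {l : EN N → (Fin 2 → G.ι) → Fin 2 → Fin (G.M + 1)} {r : EN N → (Fin 2 → G.ι) → ℝ} (hr : ∀ y i, 0 < r y i)
    (hl : ∀ y ∈ Y, ∀ i : Fin 2 → G.ι, i 0 ≠ i 1 → (∀ a, G.E (i a) y = 0) → ∀ a, G.LocEq (r y i) y (i a) (l y i a)) (B₀ : ℝ) {τ : ℝ} (hτ : 0 < τ) :
    ∃ B η : ℝ, 1 ≤ B ∧ 0 < η ∧ ∀ K : ℝ, ∃ R : ℝ, ∀ (q : G.J → ℂ) (F : ℂ → EN N), G.Cl T q F → ∀ z, R ≤ infDist z (Gd rho δ F) → Real.log ‖F z‖ ≤ B₀ →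
      ∃ y ∈ Y, ∃ i : Fin 2 → G.ι, i 0 ≠ i 1 ∧ (∀ a, G.E (i a) y = 0) ∧ ∃ (κ : Type) (_ : Fintype κ) (ζ : κ → ℂ) (s : κ → ℝ) (M : κ → Fin 2 → ℕ) (z₀ : ℂ) (ρ : ℝ),
        G.Hl y i (l y i) (r y i) F ζ s M z₀ ρ B η K ∧ (∃ k, ζ k = z₀) ∧ ‖z₀ - z‖ ≤ 1 ∧ (1 - τ) * infDist z (Gd rho δ F) ≤ ρ ∧
        ρ ≤ infDist z (Gd rho δ F) :=
  hl_core hG hY hr hl B₀ hτ (macro_stay hG hM hQ hB hY) (smooth_end hG hM hQ hB hY hn) (exists_holes hG hM hQ hY) (holes_par hG hM hQ hB hY)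
    (fun _ _ _ _ h h0 h1 h2 => holes_count hG hM hQ h h0 h1 h2) (growth hG hM)

end Pool.Agent.SR3

end
end

section

/-!
# SR3 LAsm: the gap

`ends_smooth`, `bdry_of`, `crs_of`; `case5` with `a` = the minimum of the `c₁` of `hl_macro` over the crossings in `Y`, `b = 2 h`, centre `z₀`; then `hl_ex` with
`τ = ε / 4`, then `hl_macro` with `ε / 4`, `B`, `η`.
-/

set_option autoImplicit false

open Topology Filter Metric

noncomputable section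

namespace Pool.Agent.SR3

open Pool.Agent.H36.BP (EN fs wd Sub OrdTwo)
open Pool.Agent.H14.PP (IsCone Tan)
open Pool.Agent.SY (Ent)
open Pool.Agent.H62.EF (MN pr)
open Geo (Gd)

variable {N : ℕ} {G : Geo N} {T : Set (EN N)} {rho : EN N → ℝ} {M' : ℕ} {c₀ C₀ δ : ℝ} {g : (ℂ → EN N) → ℂ → ℝ}

namespace LAsm

theorem exists_le {β : Type*} (s : Finset β) (f : β → ℝ) (hf : ∀ x, 0 < f x) : ∃ a : ℝ, 0 < a ∧ ∀ x ∈ s, a ≤ f x := by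
  classical
  induction s using Finset.induction_on with
  | empty => exact ⟨1, one_pos, by simp⟩
  | insert x s hx ih =>
    obtain ⟨a, ha, h⟩ := ih
    refine ⟨min a (f x), lt_min ha (hf x), fun y hy => ?_⟩
    rcases Finset.mem_insert.1 hy with rfl | hy
    · exact min_le_right _ _
    · exact (min_le_left _ _).trans (h y hy)

theorem exists_ge {β : Type*} (s : Finset β) (f : β → ℝ) : ∃ a : ℝ, ∀ x ∈ s, f x ≤ a :=
  ⟨∑ x ∈ s, |f x|, fun x hx => (le_abs_self _).trans (Finset.single_le_sum (f := fun x => |f x|) (fun _ _ => abs_nonneg _) hx)⟩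

/-- the conclusion of `hl_macro` for given constants -/
def Mac (G : Geo N) (y : EN N) (i : Fin 2 → G.ι) (l : Fin 2 → Fin (G.M + 1)) (r c₁ B η ε K₁ ρ₁ : ℝ) : Prop :=
  ∀ (q : G.J → ℂ) (F : ℂ → EN N) (κ : Type) [Fintype κ] (ζ : κ → ℂ) (s : κ → ℝ) (M : κ → Fin 2 → ℕ) (z₀ : ℂ) (ρ K : ℝ), G.nq q = 1 →
    (∀ j z, G.w j (F z) (deriv F z) = q j) → G.Hl y i l r F ζ s M z₀ ρ B η K → K₁ ≤ K → ρ₁ ≤ ρ → (∃ k, ζ k = z₀) → ∃ u : ℂ, c₁ ≤ ‖u‖ ∧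
      ∀ z, ‖z - z₀‖ ≤ (1 - ε) * ρ → |(u * (z - z₀)).re| ≤ 2 * G.h * Real.log ‖F z‖ + ε * ρ

/-- a crossing in `Y` -/
def Cr (G : Geo N) (Y : Finset (EN N)) (y : EN N) (i : Fin 2 → G.ι) : Prop := y ∈ Y ∧ i 0 ≠ i 1 ∧ ∀ a, G.E (i a) y = 0

/-- The gap, from the local data at the crossings (`hloc`), `case5` and `hl_ex`. -/
theorem gap_of {Y : Finset (EN N)}
    (hloc : ∀ (y : EN N) (i : Fin 2 → G.ι), Cr G Y y i → ∃ (l : Fin 2 → Fin (G.M + 1)) (r c₁ : ℝ), 0 < r ∧ 0 < c₁ ∧ (∀ a, G.LocEq r y (i a) (l a)) ∧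
      ∀ B η ε : ℝ, 1 ≤ B → 0 < η → 0 < ε → ∃ K₁ ρ₁ : ℝ, Mac G y i l r c₁ B η ε K₁ ρ₁)
    (case : ∀ a : ℝ, 0 < a → ∃ ε R : ℝ, 0 < ε ∧ ε < 1 ∧ 0 < R ∧ ∀ (q : G.J → ℂ) (F : ℂ → EN N), G.Cl T q F → ∀ z, R ≤ infDist z (Gd rho δ F) →
      ∀ κ : ℂ, a ≤ ‖κ‖ → (∀ w, ‖w - z‖ ≤ (1 - ε) * infDist z (Gd rho δ F) →
        |(κ * (w - z)).re| ≤ 2 * (G.h : ℝ) * Real.log ‖F w‖ + ε * infDist z (Gd rho δ F)) → False)
    (hlex : ∀ (l : EN N → (Fin 2 → G.ι) → Fin 2 → Fin (G.M + 1)) (r : EN N → (Fin 2 → G.ι) → ℝ), (∀ y i, 0 < r y i) →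
      (∀ y ∈ Y, ∀ i : Fin 2 → G.ι, i 0 ≠ i 1 → (∀ a, G.E (i a) y = 0) → ∀ a, G.LocEq (r y i) y (i a) (l y i a)) → ∀ (B₀ τ : ℝ), 0 < τ →
      ∃ B η : ℝ, 1 ≤ B ∧ 0 < η ∧ ∀ K : ℝ, ∃ R : ℝ, ∀ (q : G.J → ℂ) (F : ℂ → EN N), G.Cl T q F → ∀ z, R ≤ infDist z (Gd rho δ F) → Real.log ‖F z‖ ≤ B₀ →
        ∃ y ∈ Y, ∃ i : Fin 2 → G.ι, i 0 ≠ i 1 ∧ (∀ a, G.E (i a) y = 0) ∧ ∃ (κ : Type) (_ : Fintype κ) (ζ : κ → ℂ) (s : κ → ℝ) (M : κ → Fin 2 → ℕ) (z₀ : ℂ) (ρ : ℝ),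
          G.Hl y i (l y i) (r y i) F ζ s M z₀ ρ B η K ∧ (∃ k, ζ k = z₀) ∧ ‖z₀ - z‖ ≤ 1 ∧ (1 - τ) * infDist z (Gd rho δ F) ≤ ρ ∧
          ρ ≤ infDist z (Gd rho δ F)) (B : ℝ) :
    ∃ R : ℝ, ∀ (q : G.J → ℂ) (F : ℂ → EN N), G.Cl T q F → ∀ z, Real.log ‖F z‖ ≤ B → infDist z (Gd rho δ F) ≤ R := by
  classical
  have hex : ∀ (y : EN N) (i : Fin 2 → G.ι), ∃ (l : Fin 2 → Fin (G.M + 1)) (r c₁ : ℝ), 0 < r ∧ 0 < c₁ ∧
      (Cr G Y y i → (∀ a, G.LocEq r y (i a) (l a)) ∧ ∀ B η ε : ℝ, 1 ≤ B → 0 < η → 0 < ε → ∃ K₁ ρ₁ : ℝ, Mac G y i l r c₁ B η ε K₁ ρ₁) := by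
    intro y i
    by_cases hc : Cr G Y y i
    · obtain ⟨l, r, c₁, hr, hc₁, h1, h2⟩ := hloc y i hc
      exact ⟨l, r, c₁, hr, hc₁, fun _ => ⟨h1, h2⟩⟩
    · exact ⟨fun _ => 0, 1, 1, one_pos, one_pos, fun h => absurd h hc⟩
  choose l r c₁ hr hc₁ hloc using hex
  obtain ⟨a, ha, hac⟩ := exists_le (Y ×ˢ (Finset.univ : Finset (Fin 2 → G.ι))) (fun p => c₁ p.1 p.2) fun p => hc₁ _ _
  obtain ⟨ε, R₁, hε, hε1, hR₁, h5⟩ := case a ha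
  obtain ⟨B', η, hB', hη, hex⟩ := hlex l r hr (fun y hy i hi h0 => (hloc y i ⟨hy, hi, h0⟩).1) B (ε / 4) (by positivity)
  have hm : ∀ (y : EN N) (i : Fin 2 → G.ι), ∃ K₁ ρ₁ : ℝ, Cr G Y y i → Mac G y i (l y i) (r y i) (c₁ y i) B' η (ε / 4) K₁ ρ₁ := by
    intro y i
    by_cases hc : Cr G Y y i
    · obtain ⟨K₁, ρ₁, h⟩ := (hloc y i hc).2 B' η (ε / 4) hB' hη (by positivity)
      exact ⟨K₁, ρ₁, fun _ => h⟩
    · exact ⟨0, 0, fun h => absurd h hc⟩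
  choose K₁ ρ₁ hm using hm
  obtain ⟨K, hKm⟩ := exists_ge (Y ×ˢ (Finset.univ : Finset (Fin 2 → G.ι))) (fun p => K₁ p.1 p.2)
  obtain ⟨ρm, hρm⟩ := exists_ge (Y ×ˢ (Finset.univ : Finset (Fin 2 → G.ι))) (fun p => ρ₁ p.1 p.2)
  obtain ⟨R₂, hR₂⟩ := hex K
  refine ⟨max (max (R₁ + 1) R₂) (max (2 * ρm) (2 / ε + 2)), fun q F hF z hz => ?_⟩
  by_contra hcon
  push Not at hcon
  obtain ⟨d, hd⟩ : ∃ d, d = infDist z (Gd rho δ F) := ⟨_, rfl⟩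
  rw [← hd] at hcon
  have h1 : R₁ + 1 < d := ((le_max_left _ _).trans (le_max_left _ _)).trans_lt hcon
  have h2 : R₂ < d := ((le_max_right _ _).trans (le_max_left _ _)).trans_lt hcon
  have h3 : 2 * ρm < d := ((le_max_left _ _).trans (le_max_right _ _)).trans_lt hcon
  have h4 : 2 / ε + 2 < d := ((le_max_right _ _).trans (le_max_right _ _)).trans_lt hcon
  obtain ⟨y, hy, i, hi, h0, κ, _, ζ, s, M, z₀, ρ, hHl, hk, hzz, hρ1, hρ2⟩ := hR₂ q F hF z (by rw [← hd]; exact h2.le) hz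
  rw [← hd] at hρ1 hρ2
  have hcr : Cr G Y y i := ⟨hy, hi, h0⟩
  have hmem : (y, i) ∈ Y ×ˢ (Finset.univ : Finset (Fin 2 → G.ι)) := Finset.mem_product.2 ⟨hy, Finset.mem_univ _⟩
  have hd0 : 0 < d := by
    have : 0 < 2 / ε := by positivity
    linarith
  have hρd : d / 2 ≤ ρ := by nlinarith
  have hρ0 : 0 < ρ := by linarith
  obtain ⟨u, hu, huw⟩ := hm y i hcr q F κ ζ s M z₀ ρ K hF.one hF.val hHl (hKm _ hmem) ((hρm _ hmem).trans (by linarith)) hk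
  have hdist : dist z z₀ ≤ 1 := by
    rw [dist_comm, dist_eq_norm]
    exact hzz
  have hd1 : d ≤ infDist z₀ (Gd rho δ F) + 1 := by
    have h5 : infDist z (Gd rho δ F) ≤ infDist z₀ (Gd rho δ F) + dist z z₀ := infDist_le_infDist_add_dist
    rw [← hd] at h5
    linarith
  have hd2 : infDist z₀ (Gd rho δ F) ≤ d + 1 := by
    have h5 : infDist z₀ (Gd rho δ F) ≤ infDist z (Gd rho δ F) + dist z₀ z := infDist_le_infDist_add_dist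
    rw [← hd, dist_comm] at h5
    linarith
  have hεd : 2 < ε * d := by
    have h6 : ε * (2 / ε) = 2 := by field_simp
    nlinarith
  refine h5 q F hF z₀ (by linarith) u ((hac _ hmem).trans hu) fun w hw => ?_
  refine (huw w (hw.trans ?_)).trans ?_
  · -- `(1 - ε) (d + 1) ≤ (1 - ε / 4) ρ`
    have h7 : (1 - ε) * infDist z₀ (Gd rho δ F) ≤ (1 - ε) * (d + 1) := mul_le_mul_of_nonneg_left hd2 (by linarith)
    have h8 : (1 - ε / 4) * ((1 - ε / 4) * d) ≤ (1 - ε / 4) * ρ := mul_le_mul_of_nonneg_left hρ1 (by linarith)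
    nlinarith [sq_nonneg ε]
  · have h9 : ε / 4 * ρ ≤ ε / 4 * d := mul_le_mul_of_nonneg_left hρ2 (by positivity)
    have h10 : ε * (d - 1) ≤ ε * infDist z₀ (Gd rho δ F) := mul_le_mul_of_nonneg_left (by linarith) hε.le
    nlinarith

end LAsm

open LAsm

theorem gapL (hG : G.Ok) (hM : G.Met T rho M' c₀ C₀ δ g) (hQ : G.QN rho) (B : ℝ) :
    ∃ R : ℝ, ∀ (q : G.J → ℂ) (F : ℂ → EN N), G.Cl T q F → ∀ z, Real.log ‖F z‖ ≤ B → infDist z (Gd rho δ F) ≤ R := by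
  by_cases hK : G.K.Nonempty
  swap
  · exact ⟨0, fun q F hF => absurd ⟨F 0, hF.ent.mem 0⟩ hK⟩
  obtain ⟨Y, hY, hn⟩ := ends_smooth hG
  refine gap_of (Y := Y) (fun y i hc => ?_) (fun a ha => case5 hG hM ha (b := 2 * (G.h : ℝ)) (by positivity))
    (fun l r hr hl B₀ τ hτ => hl_ex hG hM hQ (bdry_of hG hK) hY hn hr hl B₀ hτ) B
  obtain ⟨l, P, r, C, α, hcr⟩ := crs_of hG (hY.mem y hc.1).1 hc.2.1 hc.2.2
  obtain ⟨c₁, hc₁, h⟩ := hl_macro hG hcr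
  exact ⟨l, r, c₁, hcr.r_pos, hc₁, hcr.loc, fun B η ε hB hη hε => h B η ε hB hη hε⟩

end Pool.Agent.SR3

end
end

section

/-!
# SR3 GapD: the gap (D)
-/

set_option autoImplicit false

open Topology Filter Metric

noncomputable section

namespace Pool.Agent.SR3

open Pool.Agent.H36.BP (EN fs wd Sub OrdTwo)
open Pool.Agent.H14.PP (IsCone Tan)
open Pool.Agent.SY (Ent)
open Pool.Agent.SDA (EnergyK Near AffOpen Nm nForms)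
open Geo (Gd)

variable {N : ℕ} {G : Geo N} {T : Set (EN N)} {rho : EN N → ℝ} {M : ℕ} {c₀ C δ : ℝ} {g : (ℂ → EN N) → ℂ → ℝ}

/-- **The gap (D).** -/
theorem gapD (S : Base G T rho M c₀ C δ g) (B : ℝ) :
    ∃ R : ℝ, ∀ (q : G.J → ℂ) (F : ℂ → EN N), G.Cl T q F → ∀ z, Real.log ‖F z‖ ≤ B → infDist z (Gd rho δ F) ≤ R :=
  gapL S.ok S.met S.qn B

end Pool.Agent.SR3

end
end

section

/-!
# SR3 ASpd: the static region is slow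

If not, Zalcman's rescaling gives a limit curve in the boundary which is not constant, against `h1`.
-/

set_option autoImplicit false

open Topology Filter Metric

noncomputable section

namespace Pool.Agent.SR3

open Pool.Agent.H36.BP (EN fs wd Sub OrdTwo)
open Pool.Agent.H14.PP (IsCone Tan)
open Pool.Agent.SY (Ent)
open Pool.Agent.SDA (EnergyK Near AffOpen Nm nForms)
open Geo (Gd)

variable {N : ℕ} {G : Geo N} {T : Set (EN N)} {rho : EN N → ℝ} {M : ℕ} {c₀ C δ : ℝ} {g : (ℂ → EN N) → ℂ → ℝ}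

theorem speed (S : Base G T rho M c₀ C δ g) :
    ∃ B R : ℝ, 0 < B ∧ 0 < R ∧ ∀ (q : G.J → ℂ) (F : ℂ → EN N), G.Cl T q F → ∀ z, R ≤ infDist z (Gd rho δ F) →
      fs (F z) (deriv F z) ≤ B / infDist z (Gd rho δ F) :=
  ASpd_aux S.ok fun B => gapD S B

end Pool.Agent.SR3

end
end

section

/-!
# SR3 AStc: in the static region the `lam i` are almost harmonic

`speed` on the disc of radius `κ d` about `z` (there the distance to the good points is `≥ 3 d / 4`), and `apx`.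
-/

set_option autoImplicit false

open Topology Filter Metric

noncomputable section

namespace Pool.Agent.SR3

open Pool.Agent.H36.BP (EN fs wd Sub OrdTwo)
open Pool.Agent.H14.PP (IsCone Tan)
open Pool.Agent.SY (Ent)
open Pool.Agent.SDA (EnergyK Near AffOpen Nm nForms)
open Geo (Gd)

variable {N : ℕ} {G : Geo N} {T : Set (EN N)} {rho : EN N → ℝ} {M : ℕ} {c₀ C δ : ℝ} {g : (ℂ → EN N) → ℂ → ℝ}

/-- the theorem, with the bound of the speed as hypothesis -/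
private theorem AStc_aux (hG : G.Ok)
    (hspeed : ∃ B R : ℝ, 0 < B ∧ 0 < R ∧ ∀ (q : G.J → ℂ) (F : ℂ → EN N), G.Cl T q F → ∀ z, R ≤ infDist z (Gd rho δ F) →
      fs (F z) (deriv F z) ≤ B / infDist z (Gd rho δ F)) :
    ∃ κ B R : ℝ, 0 < κ ∧ κ ≤ 1 / 4 ∧ 0 < B ∧ 0 < R ∧ ∀ (q : G.J → ℂ) (F : ℂ → EN N), G.Cl T q F → ∀ z, R ≤ infDist z (Gd rho δ F) →
      ∃ h : G.ι → ℂ → ℂ, (∀ i, DifferentiableOn ℂ (h i) (ball z (κ * infDist z (Gd rho δ F)))) ∧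
        ∀ i, ∀ w ∈ ball z (κ * infDist z (Gd rho δ F)), |G.lam i (F w) - (h i w).re| ≤ B ∧
          ‖G.ell i (F w) (deriv F w) + deriv (h i) w‖ ≤ B / infDist z (Gd rho δ F) := by
  obtain ⟨B₁, R₁, hB₁, hR₁, hsp⟩ := hspeed
  obtain ⟨B₂, η, hB₂, hη, hapx⟩ := apx hG
  have hκ : 0 < min (1 / 4) (η / (2 * B₁)) := lt_min (by norm_num) (by positivity)
  refine ⟨min (1 / 4) (η / (2 * B₁)), max B₂ (2 * B₁ * B₂), 2 * R₁, hκ, min_le_left _ _, lt_max_of_lt_left hB₂, by linarith, ?_⟩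
  intro q F hF z hz
  obtain ⟨κ, hκe⟩ : ∃ κ, κ = min (1 / 4) (η / (2 * B₁)) := ⟨_, rfl⟩
  obtain ⟨d, hd⟩ : ∃ d, d = infDist z (Gd rho δ F) := ⟨_, rfl⟩
  rw [← hκe] at hκ ⊢
  rw [← hd] at hz ⊢
  have hκ1 : κ ≤ 1 / 4 := hκe ▸ min_le_left _ _
  have hκ2 : κ ≤ η / (2 * B₁) := hκe ▸ min_le_right _ _
  have hd0 : 0 < d := by linarith
  -- the speed on the disc
  have hs : ∀ w ∈ ball z (κ * d), fs (F w) (deriv F w) ≤ 2 * B₁ / d := by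
    intro w hw
    have h1 : d ≤ infDist w (Gd rho δ F) + dist z w := by
      rw [hd]
      exact infDist_le_infDist_add_dist
    have h2 : dist z w < κ * d := by
      rw [dist_comm]
      exact mem_ball.1 hw
    have h3 : κ * d ≤ 1 / 4 * d := mul_le_mul_of_nonneg_right hκ1 hd0.le
    have h4 : d / 2 ≤ infDist w (Gd rho δ F) := by linarith
    have h5 : R₁ ≤ infDist w (Gd rho δ F) := by linarith
    refine (hsp q F hF w h5).trans ?_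
    rw [div_le_div_iff₀ (by linarith) hd0]
    nlinarith
  obtain ⟨h, hh, hh'⟩ := hapx F z (κ * d) (by positivity) hF.ent.diff hF.ent.mem (fun w hw => by
    refine (hs w hw).trans ?_
    rw [div_le_div_iff₀ hd0 (by positivity)]
    have h1 : κ * (2 * B₁) ≤ η := by
      rwa [le_div_iff₀ (by positivity)] at hκ2
    nlinarith)
  refine ⟨h, hh, fun i w hw => ?_⟩
  obtain ⟨h1, h2⟩ := hh' i w hw
  refine ⟨h1.trans (le_max_left _ _), h2.trans ?_⟩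
  have h3 := hs w hw
  have h4 : B₂ * fs (F w) (deriv F w) ≤ B₂ * (2 * B₁ / d) := mul_le_mul_of_nonneg_left h3 hB₂.le
  refine h4.trans ?_
  have h5 : B₂ * (2 * B₁ / d) = (2 * B₁ * B₂) / d := by ring
  rw [h5]
  exact div_le_div_of_nonneg_right (le_max_right _ _) hd0.le

theorem static (S : Base G T rho M c₀ C δ g) :
    ∃ κ B R : ℝ, 0 < κ ∧ κ ≤ 1 / 4 ∧ 0 < B ∧ 0 < R ∧ ∀ (q : G.J → ℂ) (F : ℂ → EN N), G.Cl T q F → ∀ z, R ≤ infDist z (Gd rho δ F) →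
      ∃ h : G.ι → ℂ → ℂ, (∀ i, DifferentiableOn ℂ (h i) (ball z (κ * infDist z (Gd rho δ F)))) ∧
        ∀ i, ∀ w ∈ ball z (κ * infDist z (Gd rho δ F)), |G.lam i (F w) - (h i w).re| ≤ B ∧
          ‖G.ell i (F w) (deriv F w) + deriv (h i) w‖ ≤ B / infDist z (Gd rho δ F) :=
  AStc_aux S.ok (speed S)

end Pool.Agent.SR3

end
end

section

/-!
# SR3 ALow: `log ‖F‖` is bounded below by the distance to the good points

PROOF.  In the static region `∑ b i lam i` is, up to `O(1)`, the real part of a holomorphic function on `ball z (κ d)`, bounded below; by `lprime` it is at least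
`c d` at some point of the half disc, so by Harnack also at `z`.
-/

set_option autoImplicit false

open Topology Filter Metric

noncomputable section

namespace Pool.Agent.SR3

open Pool.Agent.H36.BP (EN fs wd Sub OrdTwo)
open Pool.Agent.H14.PP (IsCone Tan)
open Pool.Agent.SY (Ent)
open Pool.Agent.SDA (EnergyK Near AffOpen Nm nForms)
open Geo (Gd)

variable {N : ℕ} {G : Geo N} {T : Set (EN N)} {rho : EN N → ℝ} {M : ℕ} {c₀ C δ : ℝ} {g : (ℂ → EN N) → ℂ → ℝ}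

/-- the theorem, with `static` as hypothesis -/
private theorem ALow_core (hG : G.Ok)
    (hstatic : ∃ κ B R : ℝ, 0 < κ ∧ κ ≤ 1 / 4 ∧ 0 < B ∧ 0 < R ∧ ∀ (q : G.J → ℂ) (F : ℂ → EN N), G.Cl T q F → ∀ z, R ≤ infDist z (Gd rho δ F) →
      ∃ h : G.ι → ℂ → ℂ, (∀ i, DifferentiableOn ℂ (h i) (ball z (κ * infDist z (Gd rho δ F)))) ∧
        ∀ i, ∀ w ∈ ball z (κ * infDist z (Gd rho δ F)), |G.lam i (F w) - (h i w).re| ≤ B ∧
          ‖G.ell i (F w) (deriv F w) + deriv (h i) w‖ ≤ B / infDist z (Gd rho δ F)) :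
    ∃ c B : ℝ, 0 < c ∧ ∀ (q : G.J → ℂ) (F : ℂ → EN N), G.Cl T q F → ∀ z, c * infDist z (Gd rho δ F) - B ≤ Real.log ‖F z‖ := by
  obtain ⟨κ, B₁, R₁, hκ, hκ', hB₁, hR₁, hst⟩ := hstatic
  obtain ⟨B₂, hB₂, hlo⟩ := lam_lowerA hG
  obtain ⟨B₃, hB₃, hup⟩ := lam_upperA hG
  obtain ⟨B₄, hB₄, hlog⟩ := log_lower hG
  obtain ⟨A₀, r₀, hA₀, hr₀, hlp⟩ := lprime hG
  obtain ⟨R, hR⟩ : ∃ R : ℝ, R = max R₁ (2 * r₀ / κ) := ⟨_, rfl⟩
  obtain ⟨s, hs⟩ : ∃ s : ℝ, s = ∑ i, (G.b i : ℝ) := ⟨_, rfl⟩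
  have hs0 : 0 ≤ s := by
    rw [hs]
    exact Finset.sum_nonneg fun i _ => Nat.cast_nonneg _
  have hh : (1 : ℝ) ≤ G.h := by exact_mod_cast hG.aff.pos ()
  refine ⟨A₀ * κ / 6, max (4 / 3 * B₃ + s * (2 * B₁ + B₂)) (A₀ * κ / 6 * R + B₄), by positivity, fun q F hF z => ?_⟩
  obtain ⟨d, hd⟩ : ∃ d, d = infDist z (Gd rho δ F) := ⟨_, rfl⟩
  rw [← hd]
  have hd0 : 0 ≤ d := hd ▸ infDist_nonneg
  rcases le_or_gt R d with hRd | hRd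
  · obtain ⟨h, hh1, hh2⟩ := hst q F hF z (by
      rw [← hd]
      exact (hR ▸ le_max_left _ _).trans hRd)
    rw [← hd] at hh1 hh2
    have hR2 : 2 * r₀ / κ ≤ d := (hR ▸ le_max_right _ _).trans hRd
    rw [div_le_iff₀ hκ] at hR2
    have hr0 : r₀ ≤ κ * d / 2 := by linarith
    have hr : 0 < κ * d := by linarith
    obtain ⟨w, hw, hw'⟩ := hlp F hF.ent.diff hF.ent.mem hF.nm z (κ * d / 2) hr0 (fun w _ => (cl_n hF w).ge)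
    rw [mem_closedBall, dist_eq_norm] at hw
    have hwb : w ∈ ball z (κ * d) := by
      rw [mem_ball, dist_eq_norm]
      linarith
    have hzb : z ∈ ball z (κ * d) := mem_ball_self hr
    obtain ⟨f, hf⟩ : ∃ f : ℂ → ℂ, f = fun w => ∑ i, (G.b i : ℂ) * (h i w + ((B₁ + B₂ : ℝ) : ℂ)) := ⟨_, rfl⟩
    have hfre : ∀ w, (f w).re = ∑ i, (G.b i : ℝ) * ((h i w).re + (B₁ + B₂)) := by
      intro w
      rw [hf, Complex.re_sum]
      refine Finset.sum_congr rfl fun i _ => ?_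
      rw [← Complex.ofReal_natCast, Complex.re_ofReal_mul, Complex.add_re, Complex.ofReal_re]
    have hfd : DifferentiableOn ℂ f (ball z (κ * d)) := by
      rw [hf]
      exact DifferentiableOn.fun_sum fun i _ => ((hh1 i).add_const _).const_mul _
    have hfn : ∀ w ∈ ball z (κ * d), 0 ≤ (f w).re := by
      intro w hw
      rw [hfre]
      refine Finset.sum_nonneg fun i _ => mul_nonneg (Nat.cast_nonneg _) ?_
      have h1 := abs_le.1 (hh2 i w hw).1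
      have h2 := hlo i (F w) (hF.ent.mem w)
      linarith [h1.2]
    have h1 := harnack_re hr hfd hfn (w := w) hw
    have h2 : ∑ i, (G.b i : ℝ) * G.lam i (F w) ≤ (f w).re := by
      rw [hfre]
      refine Finset.sum_le_sum fun i _ => mul_le_mul_of_nonneg_left ?_ (Nat.cast_nonneg _)
      have h1 := abs_le.1 (hh2 i w hwb).1
      linarith [h1.2]
    have h3 : (f z).re ≤ ∑ i, (G.b i : ℝ) * G.lam i (F z) + s * (2 * B₁ + B₂) := by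
      rw [hfre, hs, Finset.sum_mul, ← Finset.sum_add_distrib]
      refine Finset.sum_le_sum fun i _ => ?_
      rw [← mul_add]
      refine mul_le_mul_of_nonneg_left ?_ (Nat.cast_nonneg _)
      have h1 := abs_le.1 (hh2 i z hzb).1
      linarith [h1.1]
    have h4 := (hup (F w) (hF.ent.mem w) (hF.nm w)).2.1
    have h5 := (hup (F z) (hF.ent.mem z) (hF.nm z)).2.2
    have h6 : (G.h : ℝ) * (A₀ * (κ * d / 2)) ≤ G.h * Real.log ‖F w‖ := mul_le_mul_of_nonneg_left hw' (by linarith)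
    have h7 : (G.h : ℝ) * (A₀ * κ / 6 * d) ≤ G.h * Real.log ‖F z‖ + (4 / 3 * B₃ + s * (2 * B₁ + B₂)) := by linarith
    have hE0 : 0 ≤ 4 / 3 * B₃ + s * (2 * B₁ + B₂) := by positivity
    have h8 : (4 / 3 * B₃ + s * (2 * B₁ + B₂)) ≤ G.h * (4 / 3 * B₃ + s * (2 * B₁ + B₂)) := le_mul_of_one_le_left hE0 hh
    have h9 : (G.h : ℝ) * (A₀ * κ / 6 * d - (4 / 3 * B₃ + s * (2 * B₁ + B₂))) ≤ G.h * Real.log ‖F z‖ := by linarith
    have h10 := le_of_mul_le_mul_left h9 (by linarith)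
    have h11 := le_max_left (4 / 3 * B₃ + s * (2 * B₁ + B₂)) (A₀ * κ / 6 * R + B₄)
    linarith
  · have h1 := hlog (F z) (hF.nm z)
    have h2 := le_max_right (4 / 3 * B₃ + s * (2 * B₁ + B₂)) (A₀ * κ / 6 * R + B₄)
    have h3 : A₀ * κ / 6 * d ≤ A₀ * κ / 6 * R := mul_le_mul_of_nonneg_left hRd.le (by positivity)
    linarith

theorem lower (S : Base G T rho M c₀ C δ g) :
    ∃ c B : ℝ, 0 < c ∧ ∀ (q : G.J → ℂ) (F : ℂ → EN N), G.Cl T q F → ∀ z, c * infDist z (Gd rho δ F) - B ≤ Real.log ‖F z‖ :=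
  ALow_core S.ok (static S)

end Pool.Agent.SR3

end
end
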