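import Pool.Agent.H43.TL2.M141
import Pool.Agent.H43.TL2.M158
import Pool.Agent.H43.TL2.M162
import Pool.Agent.H43.TL2.M167
import Pool.Agent.H43.TL2.M175
import Pool.Agent.H43.TL2.M30
import Pool.Agent.H43.TL2.M47
import Pool.Agent.H43.TL2.M48
import Pool.Agent.H43.TL2.M54

/-! The parts of this file: AD.G.Spec, SR3.FamB, SR3.Line, SR3.FlatCore, SR3.NC.Defs, SR3.NC.Cur, SR3.LnC, SR3.FlatF. -/

section

/-!
# AD G Spec: specialisation

`exists_spec`: `R = Algebra.adjoin ℂ (s ∪ {h, h⁻¹})` is a finitely generated `ℂ`-algebra; a maximal ideal has the residue field `ℂ` (Zariski's lemma).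

`transfer`: otherwise apply `exists_spec` to the coordinates of `ξ`, `v`, `w`, `u` and `h = ξ i₀ * aeval H`: at the closed point `x = φ ξ` is in `cone P`, `φ v`, `φ w` are in `conTan P x`, and `H` does not vanish there.

`BSec.val`: the value of a section at a `K`-point, by the representation on `x i ≠ 0`; `val_indep`, `val_add_smul`, `val_scale` by `transfer` (for `val_scale` with the additional variable `c`).
`BSec.restrict`: restriction to a smaller cone.
-/

set_option autoImplicit false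

open MvPolynomial
open Pool.Agent.H13.SM (conTan)
open Pool.Agent.H62.FC (Homog)

noncomputable section

namespace Pool.Agent.AD.G

variable {N : ℕ} {K : Type} [Field K] [Algebra ℂ K]

variable {P : Ideal (MvPolynomial (Fin (N + 1)) ℂ)}

/-! ### The polynomial of a section -/

/-! ### Cones -/

/-! ### Values of sections -/

/-! ### Restriction -/

theorem conTan_anti {Q : Ideal (MvPolynomial (Fin (N + 1)) ℂ)} (h : P ≤ Q) {x v : Fin (N + 1) → ℂ} (hv : v ∈ conTan Q x) : v ∈ conTan P x :=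
  fun R hR => hv R (h hR)

end Pool.Agent.AD.G

end
end

section

/-!
# SR3 FamB: the class of blow-downs is a compact family
-/

set_option autoImplicit false

open Metric Topology Filter MvPolynomial InnerProductSpace

noncomputable section

namespace Pool.Agent.SR3

open Pool.Agent.SDR (gc gc_congr hp tot Blow BlowFam)

variable {ι J Ty : Type} [Fintype ι]

theorem gc_const (a : ℝ) (z : ℂ) : gc (fun _ => a) z = 0 := by
  unfold gc
  simp

theorem hp_div (c : ℕ → ℂ) (m : ℕ) (κ x y : ℂ) : hp (fun l => c l / κ) m x y = hp c m x y / κ := by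
  unfold hp
  rw [Finset.sum_div]
  refine Finset.sum_congr rfl fun l _ => ?_
  ring

/-- a member of the class is a `Blow` -/
theorem Bl.blow [Finite Ty] [Nonempty ι] {supp : Ty → Finset ι} {P : Ty → J → MvPolynomial ι ℂ} {C A : ℝ} (hC : 0 ≤ C) (hA : 0 < A)
    {m : J → ℕ} (hm : ∀ j, 1 ≤ m j) (hP : ∀ t j, (P t j).IsHomogeneous (m j)) {j : J} {κ : ℝ} (hκ : 0 < κ) {e₁ e₂ : Ty → ι} {c : Ty → ℕ → ℂ}
    (he : ∀ t, ∀ i ∈ supp t, i = e₁ t ∨ i = e₂ t)
    (hc : ∀ t, ∀ y : ι → ℂ, (∀ i, i ∉ supp t → y i = 0) → eval y (P t j) = hp (c t) (m j) (y (e₁ t)) (y (e₂ t))) {q : J → ℂ}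
    {U : ι → ℂ → ℝ} (h : Bl supp P C A q U) (hq : ‖q j‖ = κ) : Blow (fun t l => c t l / (κ : ℂ)) (m j) e₁ e₂ (A / 6) (2 * C) U := by
  have hcont : ∀ i, Continuous (U i) := by
    intro i
    apply LipschitzWith.continuous (K := C.toNNReal)
    apply LipschitzWith.of_dist_le_mul
    intro z w
    rw [Real.dist_eq, Real.coe_toNNReal _ hC, dist_eq_norm]
    exact h.lip i z w
  refine ⟨hcont, h.nonneg, ?_, ?_, ?_, h.harm, ?_, ?_⟩
  · by_contra hcon
    push Not at hcon
    have hpos : ∀ z, 0 < ∑ i, U i z := fun z =>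
      lt_of_le_of_ne (Finset.sum_nonneg fun i _ => h.nonneg i z) (Ne.symm (hcon z))
    have hconst : ∀ i z, U i z = U i 0 := fun i => const_of_nonneg (fun z => h.harm z (hpos z) i) (h.nonneg i)
    obtain ⟨t, -, ht⟩ := h.typ 0 (hpos 0)
    have h1 := ht j
    have h2 : (fun i => gc (U i) 0) = fun i => (0 : ℂ) * (fun _ => (1 : ℂ)) i := by
      funext i
      have h3 : U i = fun _ => U i 0 := funext fun z => hconst i z
      rw [h3, gc_const, zero_mul]
    rw [h2, eval_smul_of_hom (hP t j), zero_pow (by have := hm j; omega), zero_mul] at h1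
    rw [← h1, norm_zero] at hq
    linarith
  · by_contra hcon
    obtain ⟨z, hz⟩ := Set.nonempty_iff_ne_empty.2 hcon
    obtain ⟨r, hr, hb⟩ := Metric.isOpen_iff.1 isOpen_interior z hz
    obtain ⟨y, hy, hAy⟩ := h.big z (r / 2) (by linarith)
    have h1 : y ∈ ball z r := closedBall_subset_ball (by linarith) hy
    have h2 : y ∈ {z | tot U z = 0} := interior_subset (hb h1)
    have h3 : ∑ i, U i y = 0 := h2
    rw [h3] at hAy
    have : 0 < A * (r / 2) := by positivity
    linarith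
  · intro z r hr hpos
    obtain ⟨y, hy, hAy⟩ := h.big z (r / 2) (by linarith)
    have h1 : ∑ i, U i y ≤ ∑ i, 3 * U i z :=
      Finset.sum_le_sum fun i _ => harnack hr (fun w hw => h.harm w (hpos w hw) i) (fun w _ => h.nonneg i w) y hy
    rw [← Finset.mul_sum] at h1
    unfold tot
    linarith
  · intro z _ i
    exact norm_gc_le_lip hC (Eventually.of_forall fun w => h.lip i w z)
  · intro z hz
    obtain ⟨t, ht⟩ := h.typ_near hz
    refine ⟨t, fun i h1 h2 => ht.self_of_nhds.1 i fun hi => ?_, ?_⟩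
    · rcases he t i hi with h3 | h3
      · exact h1 h3
      · exact h2 h3
    · filter_upwards [eventually_eventually_nhds.2 ht] with w hw
      have h1 : ∀ i, i ∉ supp t → gc (U i) w = 0 := by
        intro i hi
        have h2 : U i =ᶠ[𝓝 w] fun _ => (0 : ℝ) := by
          filter_upwards [hw] with y hy
          exact hy.1 i hi
        rw [gc_congr h2, gc_const]
      have h2 := hw.self_of_nhds.2 j
      rw [hc t _ h1] at h2
      show ‖hp (fun l => c t l / (κ : ℂ)) (m j) (gc (U (e₁ t)) w) (gc (U (e₂ t)) w)‖ = 1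
      rw [hp_div, h2, norm_div, hq, Complex.norm_real, Real.norm_of_nonneg hκ.le, div_self hκ.ne']

/-- `j` is fixed, and `‖q j‖ = κ`. -/
theorem blowFam [Finite Ty] [Nonempty ι] {supp : Ty → Finset ι} {P : Ty → J → MvPolynomial ι ℂ} {C A : ℝ} (hC : 0 ≤ C) (hA : 0 < A)
    (hs : ∀ t, (supp t).card ≤ 2) {m : J → ℕ} (hm : ∀ j, 1 ≤ m j) (hP : ∀ t j, (P t j).IsHomogeneous (m j))
    (hPs : ∀ t j (y y' : ι → ℂ), (∀ i ∈ supp t, y i = y' i) → eval y (P t j) = eval y' (P t j)) {j : J} {κ : ℝ} (hκ : 0 < κ) :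
    ∃ (Q : Ty → ℕ → ℂ) (e₁ e₂ : Ty → ι), BlowFam Q (m j) e₁ e₂ (A / 6) (2 * C)
      {U | ∃ q : J → ℂ, Bl supp P C A q U ∧ ‖q j‖ = κ ∧ ∀ j', ‖q j'‖ ≤ 1} := by
  choose e₁ e₂ c he hc using fun t => exists_hp (hs t) (hP t j) (hPs t j)
  refine ⟨fun t l => c t l / (κ : ℂ), e₁, e₂, ?_, ?_, ?_⟩
  · rintro U ⟨q, hU, hq, -⟩
    exact hU.blow hC hA hm hP hκ he hc hq
  · rintro U ⟨q, hU, hq, hq'⟩ a r hr
    exact ⟨q, hU.affine a hr, hq, hq'⟩
  · intro U hU hz
    choose q hBl hq hq' using hU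
    choose z hz1 hz2 using hz
    have hB : ∀ n i, U n i 0 ≤ C := by
      intro n i
      have h1 := (hBl n).lip i 0 (z n)
      have h2 : U n i (z n) ≤ 0 := by
        rw [← hz2 n]
        exact Finset.single_le_sum (f := fun i => U n i (z n)) (fun i _ => (hBl n).nonneg i _) (Finset.mem_univ i)
      have h3 : C * ‖0 - z n‖ ≤ C * 1 := by
        apply mul_le_mul_of_nonneg_left _ hC
        rw [zero_sub, norm_neg]
        exact hz1 n
      have := (abs_le.1 h1).2
      linarith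
    obtain ⟨q', V, hV, hqlim, -, hunif⟩ :=
      (Bl.pre (l := (hyperfilter ℕ : Filter ℕ)) hC hBl hB).limit hC (𝒰 := hyperfilter ℕ) (fun n j => hq' n j)
    have hfreq : ∀ k : ℕ, ∃ᶠ n in (atTop : Filter ℕ), ∀ i, ∀ z ∈ closedBall (0 : ℂ) k, |U n i z - V i z| ≤ 1 / ((k : ℝ) + 1) := by
      intro k
      have h1 := hunif k (1 / ((k : ℝ) + 1)) (by positivity)
      exact h1.frequently.filter_mono Nat.hyperfilter_le_atTop
    obtain ⟨φ, hφ, hφ2⟩ := Filter.extraction_forall_of_frequently hfreq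
    refine ⟨φ, V, hφ, ⟨q', hV, ?_, ?_⟩, fun i => ?_⟩
    · have h1 := (hqlim j).norm
      have h2 : (fun n => ‖q n j‖) = fun _ => κ := funext fun n => hq n
      rw [h2] at h1
      exact (tendsto_nhds_unique h1 tendsto_const_nhds)
    · intro j'
      exact le_of_tendsto (hqlim j').norm (Eventually.of_forall fun n => hq' n j')
    · rw [Metric.tendstoLocallyUniformly_iff]
      intro ε hε x
      refine ⟨ball 0 (‖x‖ + 1), isOpen_ball.mem_nhds (by rw [mem_ball_zero_iff]; linarith), ?_⟩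
      obtain ⟨k₀, hk₀⟩ := exists_nat_gt (max (‖x‖ + 1) (1 / ε))
      filter_upwards [eventually_ge_atTop k₀] with k hk y hy
      rw [dist_comm, Real.dist_eq]
      have hk' : (k₀ : ℝ) ≤ k := by exact_mod_cast hk
      have h1 : y ∈ closedBall (0 : ℂ) k := by
        rw [mem_closedBall_zero_iff]
        rw [mem_ball_zero_iff] at hy
        have := le_max_left (‖x‖ + 1) (1 / ε)
        linarith
      refine (hφ2 k i y h1).trans_lt ?_
      have h2 := le_max_right (‖x‖ + 1) (1 / ε)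
      rw [div_lt_iff₀ (by positivity)]
      have h3 : 1 / ε < (k : ℝ) + 1 := by linarith
      rw [div_lt_iff₀ hε] at h3
      linarith

end Pool.Agent.SR3

end
end

section

/-!
# SR3 Line: Liouville's theorem for blow-downs
-/

set_option autoImplicit false

open Metric Topology Filter MvPolynomial InnerProductSpace

noncomputable section

namespace Pool.Agent.SR3

open Pool.Agent.SDR (gc)

variable {ι J Ty : Type} [Fintype ι]

/-- the growth condition gives lower bounds for the slopes -/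
theorem Lin.slopes {u : ℂ} {b : ℝ} {β γ : ι → ℝ} {U : ι → ℂ → ℝ} (h : Lin u b β γ U) {A : ℝ}
    (hbig : ∀ (w : ℂ) (r : ℝ), 0 < r → ∃ z ∈ closedBall w r, A * r ≤ ∑ i, U i z) : A / 2 ≤ ∑ i, β i ∧ A / 2 ≤ ∑ i, γ i := by
  have hu : star u * u = 1 := by
    have h1 : star u * u = ((‖u‖ ^ 2 : ℝ) : ℂ) := by
      rw [Complex.star_def, mul_comm, Complex.mul_conj, Complex.normSq_eq_norm_sq]
    rw [h1, h.norm]
    simp
  have hdist : ∀ w z : ℂ, |(star u * z).re - (star u * w).re| ≤ ‖z - w‖ := by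
    intro w z
    rw [← Complex.sub_re, ← mul_sub]
    refine (Complex.abs_re_le_norm _).trans ?_
    rw [norm_mul, norm_star, h.norm, one_mul]
  constructor
  · obtain ⟨z, hz, hAz⟩ := hbig (((b + 1 : ℝ) : ℂ) * u) 1 one_pos
    have e1 : (star u * (((b + 1 : ℝ) : ℂ) * u)).re = b + 1 := by
      have : star u * (((b + 1 : ℝ) : ℂ) * u) = ((b + 1 : ℝ) : ℂ) * (star u * u) := by ring
      rw [this, hu, mul_one, Complex.ofReal_re]
    have e2 := hdist (((b + 1 : ℝ) : ℂ) * u) z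
    rw [e1] at e2
    rw [mem_closedBall, dist_eq_norm] at hz
    have e3 := abs_le.1 (e2.trans hz)
    have e4 : ∑ i, U i z = (∑ i, β i) * ((star u * z).re - b) := by
      rw [Finset.sum_mul]
      exact Finset.sum_congr rfl fun i _ => h.up i z (by linarith [e3.1])
    rw [e4, mul_one] at hAz
    have e5 : (0 : ℝ) ≤ ∑ i, β i := Finset.sum_nonneg fun i _ => h.pos i
    have e6 : (∑ i, β i) * ((star u * z).re - b) ≤ (∑ i, β i) * 2 := mul_le_mul_of_nonneg_left (by linarith [e3.2]) e5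
    linarith
  · obtain ⟨z, hz, hAz⟩ := hbig (((b - 1 : ℝ) : ℂ) * u) 1 one_pos
    have e1 : (star u * (((b - 1 : ℝ) : ℂ) * u)).re = b - 1 := by
      have : star u * (((b - 1 : ℝ) : ℂ) * u) = ((b - 1 : ℝ) : ℂ) * (star u * u) := by ring
      rw [this, hu, mul_one, Complex.ofReal_re]
    have e2 := hdist (((b - 1 : ℝ) : ℂ) * u) z
    rw [e1] at e2
    rw [mem_closedBall, dist_eq_norm] at hz
    have e3 := abs_le.1 (e2.trans hz)
    have e4 : ∑ i, U i z = (∑ i, γ i) * (b - (star u * z).re) := by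
      rw [Finset.sum_mul]
      exact Finset.sum_congr rfl fun i _ => h.down i z (by linarith [e3.2])
    rw [e4, mul_one] at hAz
    have e5 : (0 : ℝ) ≤ ∑ i, γ i := Finset.sum_nonneg fun i _ => h.pos' i
    have e6 : (∑ i, γ i) * (b - (star u * z).re) ≤ (∑ i, γ i) * 2 := mul_le_mul_of_nonneg_left (by linarith [e3.1]) e5
    linarith

theorem Bl.line [Finite Ty] {supp : Ty → Finset ι} {P : Ty → J → MvPolynomial ι ℂ} {C A : ℝ} {q : J → ℂ} {U : ι → ℂ → ℝ} (hC : 0 ≤ C)
    (hA : 0 < A) (h : Bl supp P C A q U) (hs : ∀ t, (supp t).card ≤ 2) {m : J → ℕ} (hm : ∀ j, 1 ≤ m j)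
    (hP : ∀ t j, (P t j).IsHomogeneous (m j))
    (hPs : ∀ t j (y y' : ι → ℂ), (∀ i ∈ supp t, y i = y' i) → eval y (P t j) = eval y' (P t j))
    (hq : ∀ j, ‖q j‖ ≤ 1) (hq1 : ∃ j, q j ≠ 0) :
    ∃ (u : ℂ) (b : ℝ) (β γ : ι → ℝ), Lin u b β γ U ∧ A / 2 ≤ ∑ i, β i ∧ A / 2 ≤ ∑ i, γ i := by
  have hN : Nonempty ι := by
    by_contra hE
    rw [not_nonempty_iff] at hE
    obtain ⟨z, -, hz⟩ := h.big 0 1 one_pos
    rw [Finset.univ_eq_empty, Finset.sum_empty] at hz
    linarith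
  obtain ⟨j, hj⟩ := hq1
  obtain ⟨Q, e₁, e₂, hF⟩ := blowFam (J := J) hC hA hs hm hP hPs (j := j) (κ := ‖q j‖) (norm_pos_iff.2 hj)
  obtain ⟨u, b, β, γ, hL⟩ := blow_lin hF (hm j) (by positivity) (U := U) ⟨q, h, rfl, hq⟩
  exact ⟨u, b, β, γ, hL, hL.slopes h.big⟩

end Pool.Agent.SR3

end
end

section

/-!
# SR3 FlatCore: the boundary functions are almost linear at all large scales
-/

set_option autoImplicit false

open Metric Topology Filter MvPolynomial

noncomputable section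

namespace Pool.Agent.SR3

open Pool.Agent.H36.BP (EN fs)
open Geo (Gd)

variable {N : ℕ} {G : Geo N} {T : Set (EN N)} {rho : EN N → ℝ} {δ : ℝ}

/-- the values of the forms are at most `1` -/
theorem norm_le_one_of_nq (hG : G.Ok) {q : G.J → ℂ} (hq : G.nq q = 1) (j : G.J) : ‖q j‖ ≤ 1 := by
  have h1 : ‖q j‖ ^ ((G.m j : ℝ)⁻¹) ≤ 1 := by
    rw [← hq]
    exact Finset.single_le_sum (f := fun j => ‖q j‖ ^ ((G.m j : ℝ)⁻¹)) (fun i _ => by positivity) (Finset.mem_univ j)
  have hm : (0 : ℝ) < (G.m j : ℝ)⁻¹ := by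
    have := hG.one_m j
    positivity
  by_contra hcon
  push Not at hcon
  have := Real.one_lt_rpow hcon hm
  linarith

theorem flat_core (hG : G.Ok)
    (hpre : ∃ B A' : ℝ, 0 < B ∧ 0 < A' ∧ ∀ (l : Filter ℕ) (q : ℕ → G.J → ℂ) (F : ℕ → ℂ → EN N) (p : ℕ → ℂ) (R : ℕ → ℝ),
      (∀ n, G.Cl T (q n) (F n)) → (∀ n, p n ∈ Gd rho δ (F n)) → (∀ n, 0 < R n) → Tendsto R l atTop →
      Pre G.supp G.Pol B A' l (fun n j => (-1) ^ G.m j * q n j) (fun n i z => G.lam i (F n (p n + R n * z)) / R n))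
    (hgr : ∃ B : ℝ, 0 ≤ B ∧ ∀ (q : G.J → ℂ) (F : ℂ → EN N), G.Cl T q F → ∀ z, Real.log ‖F z‖ ≤ B * (1 + infDist z (Gd rho δ F))) :
    ∃ A' : ℝ, 0 < A' ∧ ∀ ε : ℝ, 0 < ε → ∃ R₀ : ℝ, 0 < R₀ ∧ ∀ (q : G.J → ℂ) (F : ℂ → EN N), G.Cl T q F → ∀ a ∈ Gd rho δ F, ∀ R : ℝ, R₀ ≤ R →
      ∃ (u : ℂ) (β β' : G.ι → ℝ), G.Fits F a u β β' (fun _ => ε * R) (closedBall a R) ∧ A' ≤ ∑ i, β i ∧ A' ≤ ∑ i, β' i := by
  classical
  obtain ⟨B, A₁, hB, hA₁, hpre⟩ := hpre
  obtain ⟨B₁, hB₁, hgrow⟩ := hgr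
  obtain ⟨B₂, hB₂, hlog⟩ := lam_log hG
  refine ⟨A₁ / 2, by positivity, fun ε hε => ?_⟩
  by_contra hcon
  push Not at hcon
  choose q F hCl p hp R hR hbad using fun n : ℕ => hcon (n + 1) (by positivity)
  set 𝒰 : Ultrafilter ℕ := hyperfilter ℕ with h𝒰
  have hRpos : ∀ n, 0 < R n := fun n => lt_of_lt_of_le (by positivity) (hR n)
  have hRtop : Tendsto R atTop atTop := by
    apply tendsto_atTop_mono (f := fun n : ℕ => (n : ℝ)) (fun n => by linarith [hR n])
    exact tendsto_natCast_atTop_atTop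
  have hRU : Tendsto R (𝒰 : Filter ℕ) atTop := hRtop.mono_left Nat.hyperfilter_le_atTop
  have hP := hpre (𝒰 : Filter ℕ) q F p R hCl hp hRpos hRU
  have hq1 : ∀ n j, ‖(-1) ^ G.m j * q n j‖ ≤ 1 := by
    intro n j
    rw [norm_mul, norm_pow, norm_neg, norm_one, one_pow, one_mul]
    exact norm_le_one_of_nq hG (hCl n).one j
  obtain ⟨q', V, hV, hq', hVlim, hunif⟩ := hP.limit hB.le hq1
  -- the limit value is not `0`
  have hne : ∃ j, q' j ≠ 0 := by
    by_contra hall
    push Not at hall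
    have h1 : Tendsto (fun n => ∑ j, ‖(-1) ^ G.m j * q n j‖ ^ ((G.m j : ℝ)⁻¹)) 𝒰 (𝓝 (∑ j, ‖q' j‖ ^ ((G.m j : ℝ)⁻¹))) := by
      refine tendsto_finsetSum _ fun j _ => ?_
      exact ((hq' j).norm).rpow_const (Or.inr (by positivity))
    have h2 : (fun n => ∑ j, ‖(-1) ^ G.m j * q n j‖ ^ ((G.m j : ℝ)⁻¹)) = fun _ => (1 : ℝ) := by
      funext n
      rw [← (hCl n).one]
      unfold Geo.nq
      refine Finset.sum_congr rfl fun j _ => ?_
      rw [norm_mul, norm_pow, norm_neg, norm_one, one_pow, one_mul]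
    have h3 : ∑ j, ‖q' j‖ ^ ((G.m j : ℝ)⁻¹) = 0 := by
      refine Finset.sum_eq_zero fun j _ => ?_
      rw [hall j, norm_zero]
      apply Real.zero_rpow
      have := hG.one_m j
      positivity
    rw [h2, h3] at h1
    have := tendsto_nhds_unique h1 tendsto_const_nhds
    norm_num at this
  obtain ⟨u, b, β, γ, hL, hβ, hγ⟩ := hV.line hB.le hA₁ hG.supp_card hG.one_m hG.Pol_hom hG.Pol_supp
    (fun j => le_of_tendsto ((hq' j).norm) (Eventually.of_forall fun n => hq1 n j)) hne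
  -- `V` vanishes at `0`
  have hV0 : ∀ i, V i 0 = 0 := by
    intro i
    have h1 : Tendsto (fun n => (max (B₂ * (B₁ + B₂)) 0) / R n) 𝒰 (𝓝 0) := hRU.const_div_atTop _
    apply le_antisymm
    · refine le_of_tendsto_of_tendsto (hVlim i 0) h1 (Eventually.of_forall fun n => ?_)
      show G.lam i (F n (p n + (R n : ℂ) * 0)) / R n ≤ max (B₂ * (B₁ + B₂)) 0 / R n
      rw [mul_zero, add_zero]
      apply div_le_div_of_nonneg_right _ (hRpos n).le
      have e1 := (hlog (F n (p n)) ((hCl n).ent.mem _) ((hCl n).nm _)).2.1 i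
      have e2 := hgrow (q n) (F n) (hCl n) (p n)
      rw [infDist_zero_of_mem (hp n)] at e2
      refine le_trans ?_ (le_max_left _ _)
      refine e1.trans ?_
      apply mul_le_mul_of_nonneg_left _ hB₂.le
      linarith
    · exact hV.nonneg i 0
  have hb : b = 0 := by
    rcases lt_trichotomy b 0 with hb | hb | hb
    · exfalso
      have h1 : ∀ i, β i = 0 := by
        intro i
        have h2 := hL.up i 0 (by simpa using hb.le)
        rw [hV0 i, mul_zero, Complex.zero_re] at h2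
        rcases mul_eq_zero.1 h2.symm with h3 | h3
        · exact h3
        · linarith
      rw [Finset.sum_eq_zero fun i _ => h1 i] at hβ
      linarith
    · exact hb
    · exfalso
      have h1 : ∀ i, γ i = 0 := by
        intro i
        have h2 := hL.down i 0 (by simpa using hb.le)
        rw [hV0 i, mul_zero, Complex.zero_re] at h2
        rcases mul_eq_zero.1 h2.symm with h3 | h3
        · exact h3
        · linarith
      rw [Finset.sum_eq_zero fun i _ => h1 i] at hγ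
      linarith
  obtain ⟨n, hn⟩ := (hunif 1 ε hε).exists
  refine absurd hγ (not_le.2 (hbad n u β γ ⟨hL.norm, fun i => ⟨hL.pos i, hL.pos' i⟩, fun z hz i => ?_⟩ hβ))
  set y : ℂ := (z - p n) / (R n : ℂ) with hy
  have hRc : (R n : ℂ) ≠ 0 := by exact_mod_cast (hRpos n).ne'
  have hzy : p n + (R n : ℂ) * y = z := by rw [hy]; field_simp; ring
  have hyb : y ∈ closedBall (0 : ℂ) 1 := by
    rw [mem_closedBall_zero_iff, hy, norm_div, Complex.norm_real, Real.norm_of_nonneg (hRpos n).le, div_le_one (hRpos n)]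
    rwa [mem_closedBall, dist_eq_norm] at hz
  have h1 := hn i y hyb
  simp only [hzy] at h1
  have hyy : yy u (p n) z = R n * (star u * y).re := by
    unfold yy
    rw [← Complex.re_ofReal_mul]
    congr 1
    rw [hy]
    field_simp
  have hlin : lin u (p n) (β i) (γ i) z = R n * V i y := by
    unfold lin
    rw [hyy]
    rcases le_total 0 (star u * y).re with h2 | h2
    · have h3 := hL.up i y (by rw [hb]; exact h2)
      rw [h3, hb, max_eq_left (mul_nonneg (hRpos n).le h2), max_eq_right (by nlinarith [hRpos n])]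
      ring
    · have h3 := hL.down i y (by rw [hb]; exact h2)
      rw [h3, hb, max_eq_right (mul_nonpos_of_nonneg_of_nonpos (hRpos n).le h2), max_eq_left (by nlinarith [hRpos n])]
      ring
  rw [hlin]
  have e1 : G.lam i (F n z) - R n * V i y = R n * (G.lam i (F n z) / R n - V i y) := by
    have := (hRpos n).ne'
    field_simp
  rw [e1, abs_mul, abs_of_pos (hRpos n), mul_comm ε]
  exact mul_le_mul_of_nonneg_left h1 (hRpos n).le

end Pool.Agent.SR3

end
end

section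

/-!
# SR3 NC Defs: the null curves of order two (MODULE H14), definitions
-/

set_option autoImplicit false

open Topology Filter Metric MvPolynomial

noncomputable section

namespace Pool.Agent.SR3.NC

open Pool.Agent.H17 (PN VanishesAt HolomorphicInto)
open Pool.Agent.H17EF (projVar)
open Pool.Agent.H13.SM (conTan cone)

variable {N : ℕ}

/-- `f` is a nonconstant entire curve in the curve `{R = 0}` of the variety of `P` -/
structure CurveIn (P : Ideal (MvPolynomial (Fin (N + 1)) ℂ)) (R : MvPolynomial (Fin (N + 1)) ℂ) (f : ℂ → PN N) : Prop where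
  hol : HolomorphicInto f Set.univ
  ne : ∃ z w, f z ≠ f w
  mem : ∀ z, f z ∈ projVar P
  van : ∀ z, VanishesAt R (f z)

/-- The field `t` and the coordinates `x` span the tangent spaces of the cone of `J` where `G ≠ 0` (from `exists_tangent` of `SR3/NCcA.lean`). -/
def Tng (J : Ideal (MvPolynomial (Fin (N + 1)) ℂ)) (G : MvPolynomial (Fin (N + 1)) ℂ) (t : Fin (N + 1) → MvPolynomial (Fin (N + 1)) ℂ) : Prop :=
  ∀ x : Fin (N + 1) → ℂ, (∀ Q ∈ J, eval x Q = 0) → eval x G ≠ 0 → x ≠ 0 ∧ (fun i => eval x (t i)) ∈ conTan J x ∧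
    ∀ v ∈ conTan J x, ∃ al be : ℂ, v = al • x + be • fun i => eval x (t i)

end Pool.Agent.SR3.NC

end
end

section

/-!
# SR3 NC Cur: the ideals of the curves
-/

set_option autoImplicit false

open Topology Filter Metric MvPolynomial

noncomputable section

namespace Pool.Agent.SR3.NC

open Pool.Agent.H17 (PN VanishesAt HolomorphicInto)
open Pool.Agent.H62.FC (Homog exists_fin_basis homog_of_minimal)
open Pool.Agent.H17LG.Variety (FunField)
open Pool.Agent.H17EF (projVar)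
open Pool.Agent.H13.SM (conTan)
open Pool.Agent.H17BP (mapIdeal mapIdeal_isPrime mem_mapIdeal_form trdeg_lt eq_of_trdeg_zero mapIdeal_homog exists_X_notMem le_mapIdeal mem_variety_mapIdeal)

variable {N : ℕ} {P J : Ideal (MvPolynomial (Fin (N + 1)) ℂ)} {R : MvPolynomial (Fin (N + 1)) ℂ} {d : ℕ} {f g : ℂ → PN N}

theorem curve_prime (hf : CurveIn P R f) : (mapIdeal f Set.univ).IsPrime :=
  mapIdeal_isPrime isOpen_univ isPreconnected_univ ⟨0, Set.mem_univ _⟩ hf.hol

theorem curve_le (hP : Homog P) (hf : CurveIn P R f) : P ≤ mapIdeal f Set.univ :=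
  le_mapIdeal hP fun z _ => ⟨fun Q hQ n hn => hf.mem z Q hQ n hn, fun m => m.elim0⟩

theorem curve_mem (hR : R.IsHomogeneous d) (hf : CurveIn P R f) : R ∈ mapIdeal f Set.univ :=
  (mem_mapIdeal_form hR).2 fun z _ => hf.van z

/-- a homogeneous prime between `P + (R)` and the ideal of a curve has transcendence degree one -/
theorem trdeg_one [P.IsPrime] (hP : Homog P) (hz : ∃ z : Fin 2 → FunField P, IsTranscendenceBasis ℂ z) (hRP : R ∉ P) {Q : Ideal (MvPolynomial (Fin (N + 1)) ℂ)}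
    [Q.IsPrime] (hQ : Homog Q) (hPQ : P ≤ Q) (hRQ : R ∈ Q) (hf : CurveIn P R f) (hQf : Q ≤ mapIdeal f Set.univ) :
    ∃ z : Fin 1 → FunField Q, IsTranscendenceBasis ℂ z := by
  have hX : ∃ i, (X i : MvPolynomial (Fin (N + 1)) ℂ) ∉ Q := by
    obtain ⟨i, hi⟩ := exists_X_notMem (f := f) (U := Set.univ) ⟨0, Set.mem_univ _⟩
    exact ⟨i, fun h => hi (hQf h)⟩
  obtain ⟨w, hw⟩ := exists_fin_basis hX
  have h1 : w < 2 := trdeg_lt hP hQ hPQ (fun h => hRP (h hRQ)) hX hz hw
  have h0 : w ≠ 0 := by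
    rintro rfl
    have h2 := eq_of_trdeg_zero hQ hX hw
    obtain ⟨a, b, hab⟩ := hf.ne
    have hmem : ∀ z, f z ∈ Pool.Agent.H17BP.variety Q := fun z =>
      ⟨fun G hG n hn => (mem_mapIdeal_form hn).1 (hQf hG) z (Set.mem_univ _), fun m => m.elim0⟩
    exact hab (h2 _ (hmem a) _ (hmem b))
  obtain rfl : w = 1 := by omega
  exact hw

/-- `P < mapIdeal f`, so the transcendence degree is `≤ 1`; it is not `0` since `f` is not constant (`eq_of_trdeg_zero`). -/
theorem curve_trdeg [P.IsPrime] (hP : Homog P) (hz : ∃ z : Fin 2 → FunField P, IsTranscendenceBasis ℂ z) (hR : R.IsHomogeneous d) (hRP : R ∉ P)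
    (hf : CurveIn P R f) (hp : (mapIdeal f Set.univ).IsPrime) : ∃ z : Fin 1 → FunField (mapIdeal f Set.univ), IsTranscendenceBasis ℂ z :=
  trdeg_one hP hz hRP mapIdeal_homog (curve_le hP hf) (curve_mem hR hf) hf le_rfl

/-- There is no homogeneous prime strictly between `P + (R)` and the ideal of a curve. -/
theorem curve_min [P.IsPrime] (hP : Homog P) (hz : ∃ z : Fin 2 → FunField P, IsTranscendenceBasis ℂ z) (hRP : R ∉ P) (hR : R.IsHomogeneous d)
    {Q : Ideal (MvPolynomial (Fin (N + 1)) ℂ)} [Q.IsPrime] (hQ : Homog Q) (hPQ : P ≤ Q) (hRQ : R ∈ Q) (hf : CurveIn P R f)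
    (hQf : Q ≤ mapIdeal f Set.univ) : Q = mapIdeal f Set.univ := by
  have hp := curve_prime hf
  refine le_antisymm hQf ?_
  by_contra hne
  have h1 := trdeg_one hP hz hRP hQ hPQ hRQ hf hQf
  have h2 := curve_trdeg hP hz hR hRP hf hp
  have := trdeg_lt hQ mapIdeal_homog hQf hne (exists_X_notMem ⟨0, Set.mem_univ _⟩) h1 h2
  omega

/-- There are only finitely many ideals `mapIdeal f`. -/
theorem finite_curves [P.IsPrime] (hP : Homog P) (hz : ∃ z : Fin 2 → FunField P, IsTranscendenceBasis ℂ z) (hR : R.IsHomogeneous d) (hRP : R ∉ P) :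
    {J : Ideal (MvPolynomial (Fin (N + 1)) ℂ) | ∃ f, CurveIn P R f ∧ J = mapIdeal f Set.univ}.Finite := by
  classical
  set κ : Type := {l : MvPolynomial (Fin (N + 1)) ℂ × ℕ // l.1.IsHomogeneous l.2 ∧ (l.1 ∈ P ∨ l.1 = R)} with hκ
  set A : κ → MvPolynomial (Fin (N + 1)) ℂ := fun l => l.1.1 with hA
  have hAh : ∀ l, (A l).IsHomogeneous (l.1.2) := fun l => l.2.1
  have hPI : P ≤ Ideal.span (Set.range A) := by
    intro p hp
    rw [← MvPolynomial.sum_homogeneousComponent p]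
    refine Ideal.sum_mem _ fun i _ => Ideal.subset_span ⟨⟨(homogeneousComponent i p, i), homogeneousComponent_isHomogeneous i p, Or.inl (hP p hp i)⟩, rfl⟩
  have hRI : R ∈ Ideal.span (Set.range A) := Ideal.subset_span ⟨⟨(R, d), hR, Or.inr rfl⟩, rfl⟩
  have hfin := Ideal.finite_minimalPrimes_of_isNoetherianRing _ (Ideal.span (Set.range A))
  refine hfin.subset ?_
  rintro J ⟨f, hf, rfl⟩
  have hp := curve_prime hf
  have hle : Ideal.span (Set.range A) ≤ mapIdeal f Set.univ := by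
    rw [Ideal.span_le]
    rintro _ ⟨l, rfl⟩
    rcases l.2.2 with h | h
    · exact curve_le hP hf h
    · have h1 : A l = R := h
      rw [h1]
      exact curve_mem hR hf
  obtain ⟨J, hJ, hJle⟩ := Ideal.exists_minimalPrimes_le hle
  have hJp : J.IsPrime := hJ.1.1
  have h1 := curve_min hP hz hRP hR (homog_of_minimal hAh hJ) (hPI.trans hJ.1.2) (hJ.1.2 hRI) hf hJle
  rwa [← h1]

theorem curve_eq [P.IsPrime] (hP : Homog P) (hz : ∃ z : Fin 2 → FunField P, IsTranscendenceBasis ℂ z) (hR : R.IsHomogeneous d) (hRP : R ∉ P)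
    (hf : CurveIn P R f) (hg : CurveIn P R g) (hle : mapIdeal f Set.univ ≤ mapIdeal g Set.univ) : mapIdeal f Set.univ = mapIdeal g Set.univ := by
  have hp := curve_prime hf
  exact curve_min hP hz hRP hR mapIdeal_homog (curve_le hP hf) (curve_mem hR hf) hg hle

end Pool.Agent.SR3.NC

end
end

section

/-!
# SR3 LnC: finitely many affine lines
-/

set_option autoImplicit false

open Topology Filter Metric MvPolynomial

noncomputable section

namespace Pool.Agent.SR3

open Pool.Agent.SR3.NC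
open Pool.Agent.H17 (PN VanishesAt HolomorphicInto)
open Pool.Agent.H62.FC (Homog)
open Pool.Agent.H17LG.Variety (FunField)
open Pool.Agent.H17EF (projVar mk_mem_projVar)
open Pool.Agent.H17BP (mapIdeal mem_mapIdeal_form vanishesAt_mk eval_smul_form)

variable {N : ℕ} {P : Ideal (MvPolynomial (Fin (N + 1)) ℂ)} {H : MvPolynomial (Fin (N + 1)) ℂ} {h : ℕ}

namespace LnC

theorem pev_ne (hH : H.IsHomogeneous h) (h1 : 1 ≤ h) {F : Fin (N + 1) → Polynomial ℂ} (hF : PLine P H F) (z : ℂ) : pev F z ≠ 0 := by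
  intro h0
  have h2 := hF.one z
  have h3 : eval ((0 : ℂ) • (0 : Fin (N + 1) → ℂ)) H = 0 := by
    rw [eval_smul_form hH, zero_pow (by omega), zero_mul]
  rw [h0] at h2
  rw [zero_smul, h2] at h3
  exact one_ne_zero h3

/-- the curve of a line -/
def cu (hH : H.IsHomogeneous h) (h1 : 1 ≤ h) {F : Fin (N + 1) → Polynomial ℂ} (hF : PLine P H F) (z : ℂ) : PN N :=
  Projectivization.mk ℂ (pev F z) (pev_ne hH h1 hF z)

theorem an_pev (F : Fin (N + 1) → Polynomial ℂ) (z : ℂ) : AnalyticAt ℂ (fun w => pev F w) z := by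
  have h1 : Differentiable ℂ fun w => pev F w := differentiable_pi.2 fun l => (F l).differentiable
  exact h1.analyticAt z

theorem cu_in (hP : Homog P) (hH : H.IsHomogeneous h) (h1 : 1 ≤ h) {R : MvPolynomial (Fin (N + 1)) ℂ} {d : ℕ} (hR : R.IsHomogeneous d)
    {F : Fin (N + 1) → Polynomial ℂ} (hF : PLine P H F) (hL : ∀ z, eval (pev F z) R = 0) : CurveIn P R (cu hH h1 hF) := by
  refine ⟨fun z _ => ⟨fun w => pev F w, an_pev F z, Filter.Eventually.of_forall fun w => ⟨pev_ne hH h1 hF w, rfl⟩⟩, ?_, fun z => ?_, fun z => ?_⟩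
  · by_contra hcon
    push Not at hcon
    obtain ⟨l, hl⟩ := hF.ne
    have h2 : ∀ z, (F l).eval z ^ h = (F l).eval 0 ^ h := by
      intro z
      obtain ⟨a, ha⟩ := (Projectivization.mk_eq_mk_iff' ℂ _ _ (pev_ne hH h1 hF z) (pev_ne hH h1 hF 0)).1 (hcon z 0)
      have h3 := hF.one z
      rw [← ha, eval_smul_form hH, hF.one 0, mul_one] at h3
      have h4 : (F l).eval z = a * (F l).eval 0 := (congrFun ha l).symm
      rw [h4, mul_pow, h3, one_mul]
    have h5 : F l ^ h = Polynomial.C ((F l).eval 0 ^ h) := by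
      apply Polynomial.funext
      intro z
      rw [Polynomial.eval_pow, Polynomial.eval_C, h2 z]
    have h6 := congrArg Polynomial.natDegree h5
    rw [Polynomial.natDegree_pow, Polynomial.natDegree_C] at h6
    rcases Nat.mul_eq_zero.1 h6 with h7 | h7 <;> omega
  · exact (mk_mem_projVar hP _).2 ⟨pev_ne hH h1 hF z, hF.mem z⟩
  · exact (vanishesAt_mk hR _).2 (hL z)

/-- multiples by roots of unity -/
theorem smul_line (hP : Homog P) (hH : H.IsHomogeneous h) (h1 : 1 ≤ h) {F : Fin (N + 1) → Polynomial ℂ} (hF : PLine P H F) {ζ : ℂ} (hζ : ζ ^ h = 1) :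
    PLine P H (fun l => Polynomial.C ζ * F l) ∧ ∀ z, pev (fun l => Polynomial.C ζ * F l) z = ζ • pev F z := by
  have h0 : ζ ≠ 0 := by
    rintro rfl
    rw [zero_pow (by omega)] at hζ
    exact zero_ne_one hζ
  have h2 : ∀ z, pev (fun l => Polynomial.C ζ * F l) z = ζ • pev F z := by
    intro z
    funext l
    simp [pev]
  refine ⟨⟨fun z Q hQ => ?_, fun z => ?_, ?_⟩, h2⟩
  · rw [h2, ← MvPolynomial.sum_homogeneousComponent Q, map_sum]
    refine Finset.sum_eq_zero fun i _ => ?_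
    rw [eval_smul_form (homogeneousComponent_isHomogeneous i Q), hF.mem z _ (hP Q hQ i), mul_zero]
  · rw [h2, eval_smul_form hH, hF.one z, mul_one, hζ]
  · obtain ⟨l, hl⟩ := hF.ne
    exact ⟨l, by rwa [Polynomial.natDegree_C_mul h0]⟩

end LnC

open LnC

theorem lines_fin [P.IsPrime] (hP : Homog P) (hz : ∃ z : Fin 2 → FunField P, IsTranscendenceBasis ℂ z) (hH : H.IsHomogeneous h) (h1 : 1 ≤ h)
    {R : MvPolynomial (Fin (N + 1)) ℂ} {d : ℕ} (hR : R.IsHomogeneous d) (hRP : R ∉ P) (hL : ∀ F, PLine P H F → ∀ z, eval (pev F z) R = 0) :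
    ∃ (n : ℕ) (Φ : Fin n → Fin (N + 1) → Polynomial ℂ), (∀ i, PLine P H (Φ i)) ∧ ∀ F, PLine P H F → ∃ i, ∀ z, ∃ w, pev F z = pev (Φ i) w := by
  classical
  set T : Set (Ideal (MvPolynomial (Fin (N + 1)) ℂ)) := {J | ∃ (F : Fin (N + 1) → Polynomial ℂ) (hF : PLine P H F), J = mapIdeal (cu hH h1 hF) Set.univ} with hTdef
  have hT : T.Finite := by
    refine (finite_curves hP hz hR hRP).subset ?_
    rintro J ⟨F, hF, rfl⟩
    exact ⟨_, cu_in hP hH h1 hR hF (hL F hF), rfl⟩
  have hch : ∀ J : T, ∃ (F : Fin (N + 1) → Polynomial ℂ) (hF : PLine P H F), J.1 = mapIdeal (cu hH h1 hF) Set.univ := fun J => J.2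
  choose G hG hGJ using hch
  set Z : Finset ℂ := (Polynomial.nthRoots h (1 : ℂ)).toFinset with hZdef
  have hZ : ∀ ζ, ζ ∈ Z ↔ ζ ^ h = 1 := by
    intro ζ
    rw [hZdef, Multiset.mem_toFinset, Polynomial.mem_nthRoots (by omega)]
  have hTF : Fintype T := hT.fintype
  set e : (T × Z) ≃ Fin (Fintype.card (T × Z)) := Fintype.equivFin _ with he
  refine ⟨Fintype.card (T × Z), fun i l => Polynomial.C ((e.symm i).2 : ℂ) * G (e.symm i).1 l, fun i => ?_, fun F hF => ?_⟩
  · exact (smul_line hP hH h1 (hG (e.symm i).1) ((hZ _).1 (e.symm i).2.2)).1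
  · set J : T := ⟨mapIdeal (cu hH h1 hF) Set.univ, F, hF, rfl⟩ with hJ
    have hle : ∀ (n : ℕ) (g : MvPolynomial (Fin (N + 1)) ℂ), g.IsHomogeneous n → (∀ z, eval (pev (G J) z) g = 0) → ∀ z, eval (pev F z) g = 0 := by
      intro n g hg hgG z
      have h2 : g ∈ J.1 := by
        rw [hGJ J]
        exact (mem_mapIdeal_form hg).2 fun z _ => (vanishesAt_mk hg _).2 (hgG z)
      exact (vanishesAt_mk hg _).1 ((mem_mapIdeal_form hg).1 h2 z (Set.mem_univ z))
    obtain ⟨ζ, hζ, hw⟩ := line_two hH h1 (hG J) hF hle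
    refine ⟨e (J, ⟨ζ, (hZ ζ).2 hζ⟩), fun z => ?_⟩
    obtain ⟨w, hw⟩ := hw z
    refine ⟨w, ?_⟩
    rw [hw]
    have h3 := (smul_line hP hH h1 (hG J) hζ).2 w
    rw [← h3]
    simp only [Equiv.symm_apply_apply]

end Pool.Agent.SR3

end
end

section

/-!
# SR3 FlatF: flatness, from the statements of the blocks A, B, C
-/

set_option autoImplicit false

open Metric Topology Filter

noncomputable section

namespace Pool.Agent.SR3

open Pool.Agent.H36.BP (EN fs)
open Geo (Gd)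

variable {N : ℕ} {G : Geo N} {T : Set (EN N)} {rho : EN N → ℝ} {δ : ℝ}

theorem flat_of (hG : G.Ok)
    (hgrow : ∃ B : ℝ, 0 ≤ B ∧ ∀ (q : G.J → ℂ) (F : ℂ → EN N), G.Cl T q F → ∀ z, Real.log ‖F z‖ ≤ B * (1 + infDist z (Gd rho δ F)))
    (hlp : ∃ A₀ r₀ : ℝ, 0 < A₀ ∧ 0 < r₀ ∧ ∀ F : ℂ → EN N, Differentiable ℂ F → (∀ z, F z ∈ G.K) → (∀ z, G.p (F z) = 1) → ∀ (z : ℂ) (r : ℝ), r₀ ≤ r →
      (∀ w ∈ closedBall z r, 1 ≤ G.n (F w) (deriv F w)) → ∃ w ∈ closedBall z r, A₀ * r ≤ Real.log ‖F w‖)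
    (hsp : ∃ B R : ℝ, 0 < B ∧ 0 < R ∧ ∀ (q : G.J → ℂ) (F : ℂ → EN N), G.Cl T q F → ∀ z, R ≤ infDist z (Gd rho δ F) →
      fs (F z) (deriv F z) ≤ B / infDist z (Gd rho δ F))
    (hLb : ∃ B : ℝ, 0 < B ∧ ∀ (q : G.J → ℂ) (F : ℂ → EN N), G.Cl T q F → ∀ z, G.L (F z) (deriv F z) ≤ B) :
    ∃ A' : ℝ, 0 < A' ∧ ∀ ε : ℝ, 0 < ε → ∃ R₀ : ℝ, 0 < R₀ ∧ ∀ (q : G.J → ℂ) (F : ℂ → EN N), G.Cl T q F → ∀ a ∈ Gd rho δ F, ∀ R : ℝ, R₀ ≤ R →
      ∃ (u : ℂ) (β β' : G.ι → ℝ), G.Fits F a u β β' (fun _ => ε * R) (closedBall a R) ∧ A' ≤ ∑ i, β i ∧ A' ≤ ∑ i, β' i :=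
  flat_core hG (preF_core hG hgrow hlp hsp hLb (apx hG) (lam_lower hG) (lam_log hG) fun hF hK _ hL i z w => lam_lip hG hF hK hL i z w) hgrow

end Pool.Agent.SR3

end
end
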