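import Pool.Agent.H43.TL2.M160
import Pool.Agent.H43.TL2.M185
import Pool.Agent.H43.TL2.M186

/-! The parts of this file: SR3.ALbd_1, SR3.Flat. -/

section

/-!
# SR3 ALbd: the logarithmic speed of the curves of the class is bounded

PROOF.  Let `d` be the distance to the good points.  If `d ≥ R`: the functions `lam i` are, up to `O(1)`, real parts of holomorphic functions on a disc of
radius `κ d` (`static`), bounded below, and `≤ C (1 + d)` at the center (`growth`): the derivatives are bounded by Harnack (`deriv_le_re`).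
If `d ≤ R`: the curve is bounded on the disc of radius `1` (`growth`), Cauchy's estimate and `L_le_fs`.
The lemma `L_bdd_aux` has the three facts `static`, `growth`, `speed` as hypotheses.
-/

set_option autoImplicit false

open Topology Filter Metric

noncomputable section

namespace Pool.Agent.SR3

open Pool.Agent.H36.BP (EN fs wd Sub OrdTwo)
open Pool.Agent.H14.PP (IsCone Tan)
open Pool.Agent.SY (Ent)
open Pool.Agent.SDA (EnergyK Near AffOpen Nm nForms)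
open Geo (Gd)

variable {N : ℕ} {G : Geo N} {T : Set (EN N)} {rho : EN N → ℝ} {M : ℕ} {c₀ C δ : ℝ} {g : (ℂ → EN N) → ℂ → ℝ}

/-- the estimate of the speed of a curve bounded on a disc -/
private theorem fs_est {F : ℂ → EN N} {z : ℂ} {E B : ℝ} (hF : Differentiable ℂ F) (hE : 0 ≤ E) (hbd : ∀ w ∈ closedBall z 1, ‖F w‖ ≤ E)
    (h0 : 0 < ‖F z‖) (hlog : -B ≤ Real.log ‖F z‖) : fs (F z) (deriv F z) ≤ E * Real.exp B := by
  have hder : ‖deriv F z‖ ≤ E := by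
    have h1 := Complex.norm_deriv_le_of_forall_mem_sphere_norm_le (f := F) (c := z) (R := 1) (C := E) one_pos hF.diffContOnCl
      fun w hw => hbd w (sphere_subset_closedBall hw)
    rwa [div_one] at h1
  have hlow : Real.exp (-B) ≤ ‖F z‖ := (Real.le_log_iff_exp_le h0).1 hlog
  refine fs_le_div.trans ?_
  rw [div_le_iff₀ h0]
  calc ‖deriv F z‖ ≤ E := hder
    _ = E * Real.exp B * Real.exp (-B) := by rw [mul_assoc, ← Real.exp_add, add_neg_cancel, Real.exp_zero, mul_one]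
    _ ≤ E * Real.exp B * ‖F z‖ := mul_le_mul_of_nonneg_left hlow (mul_nonneg hE (Real.exp_pos _).le)

/-- the theorem, with the three facts on the static region and the growth as hypotheses -/
private theorem L_bdd_aux (hG : G.Ok)
    (hst0 : ∃ κ B R : ℝ, 0 < κ ∧ κ ≤ 1 / 4 ∧ 0 < B ∧ 0 < R ∧ ∀ (q : G.J → ℂ) (F : ℂ → EN N), G.Cl T q F → ∀ z, R ≤ infDist z (Gd rho δ F) →
      ∃ h : G.ι → ℂ → ℂ, (∀ i, DifferentiableOn ℂ (h i) (ball z (κ * infDist z (Gd rho δ F)))) ∧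
        ∀ i, ∀ w ∈ ball z (κ * infDist z (Gd rho δ F)), |G.lam i (F w) - (h i w).re| ≤ B ∧
          ‖G.ell i (F w) (deriv F w) + deriv (h i) w‖ ≤ B / infDist z (Gd rho δ F))
    (hgr0 : ∃ B : ℝ, 0 ≤ B ∧ ∀ (q : G.J → ℂ) (F : ℂ → EN N), G.Cl T q F → ∀ z, Real.log ‖F z‖ ≤ B * (1 + infDist z (Gd rho δ F)))
    (hsp0 : ∃ B R : ℝ, 0 < B ∧ 0 < R ∧ ∀ (q : G.J → ℂ) (F : ℂ → EN N), G.Cl T q F → ∀ z, R ≤ infDist z (Gd rho δ F) →
      fs (F z) (deriv F z) ≤ B / infDist z (Gd rho δ F)) :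
    ∃ B : ℝ, 0 < B ∧ ∀ (q : G.J → ℂ) (F : ℂ → EN N), G.Cl T q F → ∀ z, G.L (F z) (deriv F z) ≤ B := by
  obtain ⟨κ, B₁, R₁, hκ, -, hB₁, hR₁, hst⟩ := hst0
  obtain ⟨B₂, hB₂, hgr⟩ := hgr0
  obtain ⟨B₃, hB₃, hlo⟩ := lam_lowerA hG
  obtain ⟨B₄, hB₄, hup⟩ := lam_upperA hG
  obtain ⟨B₅, R₅, hB₅, hR₅, hsp⟩ := hsp0
  obtain ⟨B₆, hB₆, hlog⟩ := log_lower hG
  obtain ⟨R, hR1, hR5, hR0⟩ : ∃ R : ℝ, R₁ ≤ R ∧ R₅ ≤ R ∧ 1 ≤ R :=
    ⟨max (max R₁ R₅) 1, le_trans (le_max_left _ _) (le_max_left _ _), le_trans (le_max_right _ _) (le_max_left _ _), le_max_right _ _⟩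
  obtain ⟨E, hE⟩ : ∃ E : ℝ, E = Real.exp (B₂ * (1 + (R + 1))) := ⟨_, rfl⟩
  have hE0 : 0 ≤ E := hE ▸ (Real.exp_pos _).le
  obtain ⟨A, hA, hL⟩ := L_le_fs hG E
  obtain ⟨D, hD⟩ : ∃ D : ℝ, D = 2 * ((G.h : ℝ) * (B₂ * 2) + B₄ + 2 * B₁ + B₃) / κ + B₁ := ⟨_, rfl⟩
  have hh0 : (0 : ℝ) ≤ G.h := Nat.cast_nonneg _
  have hD0 : 0 ≤ D := by
    rw [hD]
    exact add_nonneg (div_nonneg (mul_nonneg zero_le_two (add_nonneg (add_nonneg (add_nonneg (mul_nonneg hh0 (mul_nonneg hB₂ zero_le_two)) hB₄)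
      (mul_nonneg zero_le_two hB₁.le)) hB₃)) hκ.le) hB₁.le
  have hAE : 0 ≤ A * (E * Real.exp B₆) := mul_nonneg hA.le (mul_nonneg hE0 (Real.exp_pos _).le)
  have hc : (0 : ℝ) ≤ Fintype.card G.ι * D := mul_nonneg (Nat.cast_nonneg _) hD0
  refine ⟨B₅ + Fintype.card G.ι * D + A * (E * Real.exp B₆) + 1, add_pos_of_nonneg_of_pos (add_nonneg (add_nonneg hB₅.le hc) hAE) one_pos,
    fun q F hF z => ?_⟩
  have hK : ∀ w, F w ∈ G.K := hF.ent.mem
  have h0 : ∀ w, 0 < ‖F w‖ := fun w => norm_pos_iff.2 (ne0 hG (hK w))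
  by_cases hRd : R ≤ infDist z (Gd rho δ F)
  · have hd1 : 1 ≤ infDist z (Gd rho δ F) := hR0.trans hRd
    obtain ⟨hh, hdh, hest⟩ := hst q F hF z (hR1.trans hRd)
    have hzb : z ∈ ball z (κ * infDist z (Gd rho δ F)) := mem_ball_self (mul_pos hκ (lt_of_lt_of_le one_pos hd1))
    exact sum_est (f := fun i => ‖G.ell i (F z) (deriv F z)‖) (fun i => hD ▸ der_est hκ hd1 hh0 hB₁.le hB₂ hB₃ hB₄ (hdh i) (fun w hw => (hest i w hw).1)
      (fun w => hlo i (F w) (hK w)) (((hup (F z) (hK z) (hF.nm z)).1 i).trans (add_le_add_left (mul_le_mul_of_nonneg_left (hgr q F hF z) hh0) _))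
      (hest i z hzb).2) ((hsp q F hF z (hR5.trans hRd)).trans (div_le_self hB₅.le hd1)) hAE
  · have hbd : ∀ w ∈ closedBall z 1, ‖F w‖ ≤ E := hE ▸ bd_est hB₂ (not_le.1 hRd).le h0 (hgr q F hF)
    have h1 := hL (F z) (hK z) (hF.nm z) (hbd z (mem_closedBall_self zero_le_one)) (deriv F z)
    have h2 : A * fs (F z) (deriv F z) ≤ A * (E * Real.exp B₆) :=
      mul_le_mul_of_nonneg_left (fs_est hF.ent.1 hE0 hbd (h0 z) (hlog _ (hF.nm z))) hA.le
    linarith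

theorem L_bdd (S : Base G T rho M c₀ C δ g) :
    ∃ B : ℝ, 0 < B ∧ ∀ (q : G.J → ℂ) (F : ℂ → EN N), G.Cl T q F → ∀ z, G.L (F z) (deriv F z) ≤ B :=
  L_bdd_aux S.ok (static S) (growth S.ok S.met) (speed S)

end Pool.Agent.SR3

end
end

section

/-!
# SR3 Flat: the boundary functions are almost linear at all large scales
-/

set_option autoImplicit false

open Metric Topology Filter MvPolynomial

noncomputable section

namespace Pool.Agent.SR3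

open Pool.Agent.H36.BP (EN fs)
open Geo (Gd)

variable {N : ℕ} {G : Geo N} {T : Set (EN N)} {rho : EN N → ℝ} {M : ℕ} {c₀ C δ : ℝ} {g : (ℂ → EN N) → ℂ → ℝ}

theorem flat (S : Base G T rho M c₀ C δ g) :
    ∃ A' : ℝ, 0 < A' ∧ ∀ ε : ℝ, 0 < ε → ∃ R₀ : ℝ, 0 < R₀ ∧ ∀ (q : G.J → ℂ) (F : ℂ → EN N), G.Cl T q F → ∀ a ∈ Gd rho δ F, ∀ R : ℝ, R₀ ≤ R →
      ∃ (u : ℂ) (β β' : G.ι → ℝ), G.Fits F a u β β' (fun _ => ε * R) (closedBall a R) ∧ A' ≤ ∑ i, β i ∧ A' ≤ ∑ i, β' i :=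
  flat_of S.ok (growth S.ok S.met) (lprime S.ok) (speed S) (L_bdd S)

end Pool.Agent.SR3

end
end
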