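import Pool.Agent.H43.TL2.M160
import Pool.Agent.H43.TL2.M163
import Pool.Agent.H43.TL2.M186

/-! The parts of this file: SR3.Fld1, SR3.NC.NulM, SR3.NC.Pt. -/

section

/-!
# SR3 Fld1: local equations of the components

`pd_nhds`: `a = ⟪x, y⟫ / ‖x‖ ^ 2`, `‖y - a • x‖ = wd x y / ‖x‖ = pd x y * ‖y‖`, `a ≠ 0` if `pd x y < 1`.  `snc_oneE`, `snc_twoE`: the chart at `y`.
`snc_locE`: in the chart `vec (E i) (σ t) = co (s i) t • e i t`, `e i 0 ≠ 0`: `l` with `(e i 0) l ≠ 0`; `pd_nhds` and homogeneity.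
-/

set_option autoImplicit false

open Topology Filter Metric MvPolynomial

noncomputable section

namespace Pool.Agent.SR3

open Pool.Agent.H36.BP (EN fs wd)
open Pool.Agent.H17BP (Surface IsChart)
open Pool.Agent.H14.PP (IsCone Tan)
open Pool.Agent.H17EF (coneE)

variable {N k M : ℕ} {P : Ideal (MvPolynomial (Fin (N + 1)) ℂ)} {H : MvPolynomial (Fin (N + 1)) ℂ} {h : ℕ}
  {E : Fin k → Fin (M + 1) → MvPolynomial (Fin (N + 1)) ℂ} {c b : Fin k → ℕ}

theorem pd_nhds {y : EN N} (hy : y ≠ 0) {s : Set (EN N)} (hs : s ∈ 𝓝 y) : ∃ r : ℝ, 0 < r ∧ ∀ x : EN N, x ≠ 0 → pd x y < r → ∃ a : ℂ, a ≠ 0 ∧ a • x ∈ s := by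
  obtain ⟨ε, hε, hb⟩ := Metric.mem_nhds_iff.1 hs
  have hy' : 0 < ‖y‖ := norm_pos_iff.2 hy
  refine ⟨min 1 (ε / ‖y‖), lt_min one_pos (div_pos hε hy'), fun x hx hpd => ?_⟩
  have hx' : 0 < ‖x‖ := norm_pos_iff.2 hx
  obtain ⟨a, ha⟩ : ∃ a : ℂ, a = inner ℂ x y / (‖x‖ : ℂ) ^ 2 := ⟨_, rfl⟩
  have h1 : ‖y - a • x‖ = pd x y * ‖y‖ := by
    have h2 := snc2_wd hx y
    rw [← ha] at h2
    unfold pd
    rw [← h2]
    field_simp
  refine ⟨a, ?_, hb ?_⟩
  · rintro rfl
    rw [zero_smul, sub_zero] at h1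
    have h2 : pd x y < 1 := lt_of_lt_of_le hpd (min_le_left _ _)
    have h3 : pd x y * ‖y‖ < 1 * ‖y‖ := mul_lt_mul_of_pos_right h2 hy'
    rw [← h1, one_mul] at h3
    exact lt_irrefl _ h3
  · rw [mem_ball_iff_norm, norm_sub_rev, h1]
    have h2 : pd x y < ε / ‖y‖ := lt_of_lt_of_le hpd (min_le_right _ _)
    exact (lt_div_iff₀ hy').1 h2

/-- a component through `y` is a coordinate in the chart at `y` -/
private theorem co_zero {s : Option Bool} {e : ℂ × ℂ → EN M} {v : EN M} (he : e 0 ≠ 0) (hv : v = co s 0 • e 0) (h0 : v = 0) : s ≠ none := by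
  rintro rfl
  rw [hv] at h0
  change (1 : ℂ) • e 0 = 0 at h0
  rw [one_smul] at h0
  exact he h0

theorem snc_oneE (hs : Snc P H E b) : ∀ y ∈ coneE P, y ∉ oc P H → ∃ i, vec (E i) y = 0 := by
  intro y hy hyo
  obtain ⟨σ, τ, s, e, u, hch, hσ0, hinj, he, hu, hu0, hH⟩ := hs.chart y hy
  have hHy : eval y.ofLp H = 0 := by
    by_contra h0
    exact hyo ⟨hy, fun _ => h0⟩
  have h1 := hH.self_of_nhds
  rw [hσ0, hHy] at h1
  have h2 := (mul_eq_zero.1 h1.symm).resolve_left hu0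
  obtain ⟨i, -, hi⟩ := Finset.prod_eq_zero_iff.1 h2
  have h3 : co (s i) (0 : ℂ × ℂ) = 0 := eq_zero_of_pow_eq_zero hi
  refine ⟨i, ?_⟩
  have h4 := (he i).2.2.self_of_nhds
  rw [hσ0, h3, zero_smul] at h4
  exact h4

theorem snc_twoE (hs : Snc P H E b) : ∀ y ∈ coneE P, ∀ i i' i'', i ≠ i' → i' ≠ i'' → i ≠ i'' → vec (E i) y = 0 → vec (E i') y = 0 → vec (E i'') y ≠ 0 := by
  intro y hy i i' i'' h1 h2 h3 e1 e2 e3
  obtain ⟨σ, τ, s, e, u, hch, hσ0, hinj, he, -⟩ := hs.chart y hy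
  have hne : ∀ j, vec (E j) y = 0 → s j ≠ none := by
    intro j hj
    have h4 := (he j).2.2.self_of_nhds
    rw [hσ0] at h4
    exact co_zero (he j).2.1 h4 hj
  have n1 := hne i e1
  have n2 := hne i' e2
  have n3 := hne i'' e3
  have d1 : s i ≠ s i' := fun h => h1 (hinj i i' n1 h)
  have d2 : s i' ≠ s i'' := fun h => h2 (hinj i' i'' n2 h)
  have d3 : s i ≠ s i'' := fun h => h3 (hinj i i'' n1 h)
  revert n1 n2 n3 d1 d2 d3
  generalize s i = a1
  generalize s i' = a2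
  generalize s i'' = a3
  revert a1 a2 a3
  decide

theorem snc_locE (hX : Surface (coneE P)) (hc : IsCone (coneE P)) (hE : ∀ i l, (E i l).IsHomogeneous (c i)) (hs : Snc P H E b) :
    ∀ y ∈ coneE P, ∀ i, vec (E i) y = 0 → ∃ (l : Fin (M + 1)) (r a : ℝ), 0 < r ∧ 0 < a ∧ ∀ x ∈ coneE P, pd x y < r → a * ‖vec (E i) x‖ ≤ ‖(vec (E i) x).ofLp l‖ := by
  intro y hy i _
  obtain ⟨σ, τ, s, e, u, hch, hσ0, hinj, he, hu, hu0, hH⟩ := hs.chart y hy
  have hτy : τ y = 0 := by
    rw [← hσ0]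
    exact hch.left.self_of_nhds
  have hτa : AnalyticAt ℂ τ y := by
    rw [← hσ0]
    exact hch.τ_an
  have hτt : Tendsto τ (𝓝 y) (𝓝 0) := by
    have := hτa.continuousAt.tendsto
    rwa [hτy] at this
  have hright := hch.right
  rw [hσ0] at hright
  obtain ⟨l, hl⟩ : ∃ l, (e i 0).ofLp l ≠ 0 := by
    by_contra hcon
    push Not at hcon
    apply (he i).2.1
    ext l
    exact hcon l
  have hn : 0 < ‖(e i 0).ofLp l‖ := norm_pos_iff.2 hl
  have hn2 : 0 < ‖e i 0‖ := norm_pos_iff.2 (he i).2.1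
  obtain ⟨a, ha⟩ : ∃ a : ℝ, a = ‖(e i 0).ofLp l‖ / (2 * ‖e i 0‖) := ⟨_, rfl⟩
  have ha0 : 0 < a := by
    rw [ha]
    positivity
  have hev : ∀ᶠ t in 𝓝 (0 : ℂ × ℂ), a * ‖e i t‖ < ‖(e i t).ofLp l‖ := by
    have hc1 : ContinuousAt (fun t => a * ‖e i t‖) 0 := ((he i).1.continuousAt.norm).const_mul a
    have hc2 : ContinuousAt (fun t => ‖(e i t).ofLp l‖) 0 := by
      have h1 : ContinuousAt (fun t => (e i t).ofLp l) 0 := by
        have h2 : Continuous fun v : EN M => v.ofLp l := (EuclideanSpace.proj (𝕜 := ℂ) l).continuous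
        exact h2.continuousAt.comp (he i).1.continuousAt
      exact h1.norm
    refine hc1.eventually_lt hc2 ?_
    rw [ha]
    have h3 : ‖(e i 0).ofLp l‖ / (2 * ‖e i 0‖) * ‖e i 0‖ = ‖(e i 0).ofLp l‖ / 2 := by
      field_simp
    rw [h3]
    linarith
  have hmem : {x : EN N | x ∈ coneE P → a * ‖vec (E i) x‖ ≤ ‖(vec (E i) x).ofLp l‖} ∈ 𝓝 y := by
    filter_upwards [hright, hτt.eventually hev, hτt.eventually (he i).2.2] with x h2 h3 h4 hx
    obtain ⟨α, hα, hxα⟩ := h2 hx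
    have h5 : vec (E i) x = (α ^ c i * co (s i) (τ x)) • e i (τ x) := by
      conv_lhs => rw [hxα]
      rw [BdyAux.vec_smul (hE i), h4, smul_smul]
    rw [h5, norm_smul]
    have h6 : ((α ^ c i * co (s i) (τ x)) • e i (τ x)).ofLp l = (α ^ c i * co (s i) (τ x)) * (e i (τ x)).ofLp l := rfl
    rw [h6, norm_mul (α ^ c i * co (s i) (τ x)) ((e i (τ x)).ofLp l)]
    calc a * (‖α ^ c i * co (s i) (τ x)‖ * ‖e i (τ x)‖) = ‖α ^ c i * co (s i) (τ x)‖ * (a * ‖e i (τ x)‖) := by ring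
      _ ≤ _ := mul_le_mul_of_nonneg_left h3.le (norm_nonneg _)
  have hy0 : y ≠ 0 := fun h0 => hX.zero (h0 ▸ hy)
  obtain ⟨r, hr, hr2⟩ := pd_nhds hy0 hmem
  refine ⟨l, r, a, hr, ha0, fun x hx hpd => ?_⟩
  have hx0 : x ≠ 0 := fun h0 => hX.zero (h0 ▸ hx)
  obtain ⟨α, hα, hαx⟩ := hr2 x hx0 hpd
  have h1 := hαx (hc.smul_mem x hx α hα)
  rw [BdyAux.vec_smul (hE i), norm_smul] at h1
  have h2 : (α ^ c i • vec (E i) x).ofLp l = α ^ c i * (vec (E i) x).ofLp l := rfl
  rw [h2, norm_mul] at h1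
  have h3 : 0 < ‖α ^ c i‖ := norm_pos_iff.2 (pow_ne_zero _ hα)
  refine le_of_mul_le_mul_left ?_ h3
  calc ‖α ^ c i‖ * (a * ‖vec (E i) x‖) = a * (‖α ^ c i‖ * ‖vec (E i) x‖) := by ring
    _ ≤ _ := h1

end Pool.Agent.SR3

end
end

section

/-!
# SR3 NC NulM: the form along the null curve

`F` the entire lift of `f` with `θ (F, F') = 0`.  At `x = c F (z)`, `c ≠ 0`, `G (x) ≠ 0`, the vector `c F' (z)` is in the tangent space of the cone of
`J = mapIdeal f`, so `c F' = α x + β t (x)`.  If `β ≠ 0` then `θ (x, t (x)) = 0`, so `W (x, t (x)) = 0`; if `β = 0` then all the minors `F_i F_j' - F_j F_i'` vanish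
at `z`.  One minor is not identically zero since `f` is not constant.
-/

set_option autoImplicit false

open Topology Filter Metric MvPolynomial

noncomputable section

namespace Pool.Agent.SR3.NC

open Pool.Agent.H36.BP (EN)
open Pool.Agent.H17 (PN VanishesAt HolomorphicInto)
open Pool.Agent.H62.FC (Homog)
open Pool.Agent.H17EF (projVar coneE LE mk_mem_projVar)
open Pool.Agent.H13.SM (conTan cone Inv_hasFDerivAt_eval)
open Pool.Agent.H17BP (mapIdeal mapIdeal_isPrime vanishesAt_mk eval_smul_form)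
open Pool.Agent.AD (SymDiff TangentTo)
open Pool.Agent.H14.PP (Tan)

variable {N : ℕ} {P : Ideal (MvPolynomial (Fin (N + 1)) ℂ)} {H : MvPolynomial (Fin (N + 1)) ℂ} {h : ℕ} {f : ℂ → PN N}

private theorem nul_evW {x : Fin (N + 1) → ℂ} (t : Fin (N + 1) → MvPolynomial (Fin (N + 1)) ℂ) (W : MvPolynomial (Fin (N + 1) ⊕ Fin (N + 1)) ℂ) :
    eval x (aeval (Sum.elim X t) W) = eval (Sum.elim x fun i => eval x (t i)) W := by
  induction W using MvPolynomial.induction_on with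
  | C a => simp only [algHom_C, algebraMap_eq, eval_C]
  | add p q hp hq => rw [map_add, map_add, hp, hq, map_add]
  | mul_X p s hp =>
    rw [map_mul, map_mul, hp, map_mul, aeval_X, eval_X]
    rcases s with s | s
    · simp only [Sum.elim_inl, eval_X]
    · simp only [Sum.elim_inr]

private theorem nul_mem_oc {x : EN N} : x ∈ oc P H ↔ x ∈ coneE P ∧ eval x.ofLp H ≠ 0 := by
  constructor
  · rintro ⟨h1, h2⟩
    exact ⟨h1, h2 0⟩
  · rintro ⟨h1, h2⟩
    exact ⟨h1, fun _ => h2⟩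

private theorem nul_cone_smul (hP : Homog P) {x : Fin (N + 1) → ℂ} (hx : x ∈ cone P) {c : ℂ} (hc : c ≠ 0) : c • x ∈ cone P := by
  refine ⟨smul_ne_zero hc hx.1, fun Q hQ => ?_⟩
  rw [← MvPolynomial.sum_homogeneousComponent Q, map_sum]
  refine Finset.sum_eq_zero fun i _ => ?_
  rw [eval_smul_form (homogeneousComponent_isHomogeneous i Q), hx.2 _ (hP Q hQ i), mul_zero]

private theorem nul_oc_smul (hP : Homog P) (hH : H.IsHomogeneous h) {x : EN N} (hx : x ∈ oc P H) {c : ℂ} (hc : c ≠ 0) : c • x ∈ oc P H := by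
  have h1 := nul_mem_oc.1 hx
  refine nul_mem_oc.2 ⟨nul_cone_smul hP h1.1 hc, ?_⟩
  have h2 : eval (c • x).ofLp H = c ^ h * eval x.ofLp H := eval_smul_form hH _ _
  rw [h2]
  exact mul_ne_zero (pow_ne_zero _ hc) h1.2

private theorem nul_tan_comb {Y : Set (EN N)} (hY : ∀ x ∈ Y, ∀ c : ℂ, c ≠ 0 → c • x ∈ Y) {x v : EN N} (h : Tan Y x v) (t a : ℂ) :
    Tan Y x (t • v + a • x) := by
  obtain ⟨F, ⟨hF, hFX⟩, h0, h1⟩ := h
  have g1 : HasDerivAt (fun z : ℂ => t * z) t 0 := by simpa using (hasDerivAt_id (0 : ℂ)).const_mul t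
  have g2 : HasDerivAt F v (t * 0) := by rw [mul_zero, ← h1]; exact hF.differentiableAt.hasDerivAt
  have g3 : HasDerivAt (fun z : ℂ => F (t * z)) (t • v) 0 := HasDerivAt.scomp (0 : ℂ) g2 g1
  have g4 : HasDerivAt (fun z : ℂ => 1 + a * z) a 0 := by
    simpa using ((hasDerivAt_id (0 : ℂ)).const_mul a).const_add 1
  have g5 := g4.smul g3
  refine ⟨fun z => (1 + a * z) • F (t * z), ⟨?_, ?_⟩, ?_, ?_⟩
  · have e1 : AnalyticAt ℂ (fun z : ℂ => t * z) 0 := analyticAt_const.mul analyticAt_id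
    have e2 : AnalyticAt ℂ F ((fun z : ℂ => t * z) 0) := by simpa using hF
    exact (analyticAt_const.add (analyticAt_const.mul analyticAt_id)).smul (AnalyticAt.comp (g := F) (f := fun z : ℂ => t * z) e2 e1)
  · have c1 : Tendsto (fun z : ℂ => t * z) (𝓝 0) (𝓝 0) := by
      have : Continuous fun z : ℂ => t * z := by fun_prop
      simpa using this.tendsto 0
    have c2 : ∀ᶠ z : ℂ in 𝓝 0, (1 + a * z) ≠ 0 := by
      have : ContinuousAt (fun z : ℂ => 1 + a * z) 0 := by fun_prop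
      exact this.eventually_ne (by simp)
    filter_upwards [c1.eventually hFX, c2] with z hz1 hz2
    exact hY _ hz1 _ hz2
  · simp [h0]
  · have h4 : deriv (fun z => (1 + a * z) • F (t * z)) 0 = (1 + a * 0) • (t • v) + a • F (t * 0) := g5.deriv
    rw [h4]
    simp [h0]

/-- the ideal of `f` and the lift -/
private theorem nul_mem_iff {F : ℂ → EN N} (hF : ∀ z, ∃ h : (F z).ofLp ≠ 0, f z = Projectivization.mk ℂ (F z).ofLp h)
    (Q : MvPolynomial (Fin (N + 1)) ℂ) : Q ∈ mapIdeal f Set.univ ↔ ∀ z (c : ℂ), eval (c • (F z).ofLp) Q = 0 := by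
  constructor
  · intro hQ z c
    obtain ⟨h1, h2⟩ := hF z
    obtain ⟨a, ha, h3⟩ := Pool.Agent.H36.BP.rep_mk h1
    have h4 := hQ z (Set.mem_univ z) (c / a)
    rw [h2, h3, smul_smul, div_mul_cancel₀ _ ha] at h4
    exact h4
  · intro hQ z _ c
    obtain ⟨h1, h2⟩ := hF z
    obtain ⟨a, ha, h3⟩ := Pool.Agent.H36.BP.rep_mk h1
    rw [h2, h3, smul_smul]
    exact hQ z _

/-- the coordinates of an entire map -/
private theorem nul_coord {F : ℂ → EN N} (hF : Differentiable ℂ F) (i : Fin (N + 1)) (z : ℂ) :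
    HasDerivAt (fun w => (F w).ofLp i) ((deriv F z).ofLp i) z := by
  have h1 : HasDerivAt F (deriv F z) z := (hF z).hasDerivAt
  have h2 : HasFDerivAt (fun y : EN N => y.ofLp i)
      ((ContinuousLinearMap.proj i : (Fin (N + 1) → ℂ) →L[ℂ] ℂ).comp ((LE N).symm : EN N →L[ℂ] (Fin (N + 1) → ℂ))) (F z) :=
    ((ContinuousLinearMap.proj i : (Fin (N + 1) → ℂ) →L[ℂ] ℂ).comp ((LE N).symm : EN N →L[ℂ] (Fin (N + 1) → ℂ))).hasFDerivAt
  exact h2.comp_hasDerivAt z h1

private theorem nul_eval_deriv {F : ℂ → EN N} (hF : Differentiable ℂ F) (Q : MvPolynomial (Fin (N + 1)) ℂ) (c z : ℂ) :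
    HasDerivAt (fun w => eval (c • (F w).ofLp) Q) (∑ i, (c • (deriv F z).ofLp) i * eval (c • (F z).ofLp) (pderiv i Q)) z := by
  have h1 : HasDerivAt (fun w => c • (F w).ofLp) (c • (deriv F z).ofLp) z := by
    rw [hasDerivAt_pi]
    intro i
    exact (nul_coord hF i z).const_mul c
  have h2 := (Inv_hasFDerivAt_eval Q (c • (F z).ofLp)).comp_hasDerivAt z h1
  refine h2.congr_deriv ?_
  simp only [sum_apply, FunLike.coe_smul, Pi.smul_apply, ContinuousLinearMap.proj_apply, smul_eq_mul]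
  exact Finset.sum_congr rfl fun i _ => mul_comm _ _

private theorem nul_conTan0 {F : ℂ → EN N} (hF : Differentiable ℂ F) {Q : MvPolynomial (Fin (N + 1)) ℂ}
    (hJ : ∀ z (c : ℂ), eval (c • (F z).ofLp) Q = 0) (c z : ℂ) :
    ∑ i, (c • (deriv F z).ofLp) i * eval (c • (F z).ofLp) (pderiv i Q) = 0 := by
  have h1 := nul_eval_deriv hF Q c z
  have h2 : (fun w => eval (c • (F w).ofLp) Q) = fun _ => (0 : ℂ) := by
    have h3 := fun w => hJ w c
    funext w
    exact h3 w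
  rw [h2] at h1
  exact h1.unique (hasDerivAt_const z 0)

/-- the velocity is tangent to the cone of the ideal -/
private theorem nul_conTan {J : Ideal (MvPolynomial (Fin (N + 1)) ℂ)} {F : ℂ → EN N} (hF : Differentiable ℂ F)
    (hJ : ∀ Q ∈ J, ∀ z (c : ℂ), eval (c • (F z).ofLp) Q = 0) (c z : ℂ) :
    c • (deriv F z).ofLp ∈ conTan J (c • (F z).ofLp) := by
  have h0 : ∀ Q ∈ J, ∑ i, (c • (deriv F z).ofLp) i * eval (c • (F z).ofLp) (pderiv i Q) = 0 := by
    intro Q hQ
    exact nul_conTan0 hF (hJ Q hQ) c z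
  exact h0

private theorem nul_entire {g : ℂ → ℂ} (hg : Differentiable ℂ g) : AnalyticOnNhd ℂ g Set.univ := fun z _ => hg.analyticAt z

/-- a minor of `(F, F')` which is not identically zero -/
private theorem nul_minor {F : ℂ → EN N} (hF : Differentiable ℂ F) (hFf : ∀ z, ∃ h : (F z).ofLp ≠ 0, f z = Projectivization.mk ℂ (F z).ofLp h)
    (hne : ∃ z w, f z ≠ f w) : ∃ i j, ∃ z, (F z).ofLp i * (deriv F z).ofLp j - (F z).ofLp j * (deriv F z).ofLp i ≠ 0 := by
  by_contra hcon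
  push Not at hcon
  obtain ⟨z₁, z₂, h12⟩ := hne
  apply h12
  obtain ⟨hz0, -⟩ := hFf 0
  obtain ⟨i, hi⟩ : ∃ i, (F 0).ofLp i ≠ 0 := by
    by_contra hc
    push Not at hc
    exact hz0 (funext hc)
  -- every coordinate is a multiple of the coordinate `i`
  have hmul : ∀ j, ∃ a : ℂ, ∀ z, (F z).ofLp j = a * (F z).ofLp i := by
    intro j
    refine ⟨(F 0).ofLp j / (F 0).ofLp i, ?_⟩
    have hdi : Differentiable ℂ fun z => (F z).ofLp i := fun z => (nul_coord hF i z).differentiableAt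
    have hdj : Differentiable ℂ fun z => (F z).ofLp j := fun z => (nul_coord hF j z).differentiableAt
    have hev : ∀ᶠ z in 𝓝 (0 : ℂ), (F z).ofLp i ≠ 0 := (hdi.continuous.continuousAt).eventually_ne hi
    obtain ⟨ε, hε, hball⟩ := Metric.eventually_nhds_iff_ball.1 hev
    have hconst : ∀ z ∈ ball (0 : ℂ) ε, (F z).ofLp j / (F z).ofLp i = (F 0).ofLp j / (F 0).ofLp i := by
      have hd : ∀ z ∈ ball (0 : ℂ) ε, HasDerivAt (fun w => (F w).ofLp j / (F w).ofLp i) 0 z := by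
        intro z hz
        have h1 := (nul_coord hF j z).div (nul_coord hF i z) (hball z hz)
        refine h1.congr_deriv ?_
        have h2 := hcon i j z
        have h3 : (deriv F z).ofLp j * (F z).ofLp i - (F z).ofLp j * (deriv F z).ofLp i = 0 := by
          rw [← h2]; ring
        rw [h3, zero_div]
      intro z hz
      have hcv : Convex ℝ (ball (0 : ℂ) ε) := convex_ball 0 ε
      have h4 := hcv.is_const_of_fderivWithin_eq_zero (𝕜 := ℂ) (f := fun w => (F w).ofLp j / (F w).ofLp i)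
        (fun w hw => (hd w hw).differentiableAt.differentiableWithinAt) (fun w hw => by
          rw [fderivWithin_of_isOpen isOpen_ball hw]
          have h5 := (hd w hw).hasFDerivAt.fderiv
          rw [h5]
          ext
          simp) hz (mem_ball_self hε)
      exact h4
    have hE : Set.EqOn (fun z => (F z).ofLp j) (fun z => (F 0).ofLp j / (F 0).ofLp i * (F z).ofLp i) Set.univ := by
      refine (nul_entire hdj).eqOn_of_preconnected_of_eventuallyEq (nul_entire (hdi.const_mul _)) isPreconnected_univ (Set.mem_univ 0) ?_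
      filter_upwards [ball_mem_nhds (0 : ℂ) hε] with z hz
      have h1 := hconst z hz
      show (F z).ofLp j = (F 0).ofLp j / (F 0).ofLp i * (F z).ofLp i
      rw [← h1, div_mul_cancel₀ _ (hball z hz)]
    exact fun z => hE (Set.mem_univ z)
  choose a ha using hmul
  have hF2 : ∀ z, (F z).ofLp = (F z).ofLp i • a := fun z => funext fun j => by rw [ha j z, Pi.smul_apply, smul_eq_mul, mul_comm]
  have hFi : ∀ z, (F z).ofLp i ≠ 0 := by
    intro z h0
    obtain ⟨h1, -⟩ := hFf z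
    apply h1
    rw [hF2 z, h0, zero_smul]
  obtain ⟨h1, h2⟩ := hFf z₁
  obtain ⟨h3, h4⟩ := hFf z₂
  rw [h2, h4, Projectivization.mk_eq_mk_iff']
  refine ⟨(F z₁).ofLp i / (F z₂).ofLp i, ?_⟩
  rw [hF2 z₁, hF2 z₂, smul_smul]
  congr 1
  have : (((F z₂).ofLp i • a) i) = (F z₂).ofLp i := by rw [← hF2 z₂]
  rw [this]
  have h5 : (((F z₁).ofLp i • a) i) = (F z₁).ofLp i := by rw [← hF2 z₁]
  rw [h5, div_mul_cancel₀ _ (hFi z₂)]

theorem null_mem (hP : Homog P) {m r : ℕ} (hm : 1 ≤ m) (θ : SymDiff (oc P H) m) (hH : H.IsHomogeneous h) {W : MvPolynomial (Fin (N + 1) ⊕ Fin (N + 1)) ℂ}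
    (hW : ∀ x ∈ oc P H, ∀ v, Pool.Agent.H14.PP.Tan (oc P H) x v → θ.toFun x v * eval x.ofLp H ^ r = eval (Sum.elim x.ofLp v.ofLp) W)
    (hf : HolomorphicInto f Set.univ) (hfP : ∀ z, f z ∈ projVar P ∧ ¬ VanishesAt H (f z)) (hne : ∃ z w, f z ≠ f w) (hθ : TangentTo θ f)
    {G : MvPolynomial (Fin (N + 1)) ℂ} {t : Fin (N + 1) → MvPolynomial (Fin (N + 1)) ℂ} (hG : G ∉ mapIdeal f Set.univ)
    (ht : Tng (mapIdeal f Set.univ) G t) : aeval (Sum.elim X t) W ∈ mapIdeal f Set.univ := by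
  have _ := hm
  have hprime : (mapIdeal f Set.univ).IsPrime := mapIdeal_isPrime isOpen_univ isPreconnected_univ Set.univ_nonempty hf
  obtain ⟨F, ⟨hFd, hFf⟩, hθF⟩ := hθ
  set Φ := aeval (Sum.elim X t) W with hΦ
  -- the lift is in the open cone
  have hoc : ∀ z, F z ∈ oc P H := by
    intro z
    obtain ⟨h1, h2⟩ := hFf z
    have h3 := hfP z
    rw [h2, mk_mem_projVar hP h1, vanishesAt_mk hH h1] at h3
    exact nul_mem_oc.2 ⟨h3.1, h3.2⟩
  have hsm : ∀ x ∈ oc P H, ∀ c : ℂ, c ≠ 0 → c • x ∈ oc P H := fun x hx c hc => nul_oc_smul hP hH hx hc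
  obtain ⟨i, j, z₀, hz₀⟩ := nul_minor hFd hFf hne
  -- the main point
  have key : ∀ (c : ℂ), c ≠ 0 → ∀ z, ((F z).ofLp i * (deriv F z).ofLp j - (F z).ofLp j * (deriv F z).ofLp i) * eval (c • (F z).ofLp) (G * Φ) = 0 := by
    intro c hc z
    by_cases hGx : eval (c • (F z).ofLp) G = 0
    · rw [map_mul, hGx, zero_mul, mul_zero]
    obtain ⟨-, htx, hsp⟩ := ht (c • (F z).ofLp) (fun Q hQ => (nul_mem_iff hFf Q).1 hQ z c) hGx
    obtain ⟨al, be, hab⟩ := hsp _ (nul_conTan hFd (fun Q hQ => (nul_mem_iff hFf Q).1 hQ) c z)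
    by_cases hbe : be = 0
    · rw [hbe, zero_smul, add_zero, smul_comm al c] at hab
      have h1 : (deriv F z).ofLp = al • (F z).ofLp := smul_right_injective _ hc hab
      have h2 : ∀ l, (deriv F z).ofLp l = al * (F z).ofLp l := fun l => by rw [h1]; rfl
      rw [h2 i, h2 j]
      ring
    · have hx : c • F z ∈ oc P H := hsm _ (hoc z) c hc
      have hT0 : Tan (oc P H) (F z) (deriv F z) := Pool.Agent.H14.V.tan_of_curve hFd hoc z
      have hT1 : Tan (oc P H) (c • F z) (c • deriv F z) := by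
        have h1 : Tan (oc P H) ((fun w => c • F w) z) (deriv (fun w => c • F w) z) :=
          Pool.Agent.H14.V.tan_of_curve (F := fun w => c • F w) (hFd.const_smul c) (fun w => hsm _ (hoc w) c hc) z
        have h2 : deriv (fun w => c • F w) z = c • deriv F z := deriv_const_smul c (hFd z)
        rw [h2] at h1
        exact h1
      set x : EN N := c • F z with hxdef
      set u : EN N := WithLp.toLp 2 fun i => eval x.ofLp (t i) with hu
      have hxo : x.ofLp = c • (F z).ofLp := rfl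
      have hab' : c • deriv F z = al • x + be • u := by
        apply (LE N).symm.injective
        exact hab
      have hu2 : u = be⁻¹ • (c • deriv F z) + (-(be⁻¹ * al)) • x := by
        rw [hab', smul_add, smul_smul be⁻¹ al x, smul_smul be⁻¹ be u, inv_mul_cancel₀ hbe, one_smul, neg_smul]
        abel
      have hTu : Tan (oc P H) x u := by
        rw [hu2]
        exact nul_tan_comb hsm hT1 _ _
      have hTb : Tan (oc P H) x (be⁻¹ • (c • deriv F z)) := by
        have := nul_tan_comb hsm hT1 be⁻¹ 0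
        rw [zero_smul, add_zero] at this
        exact this
      have hθ0 : θ.toFun x u = 0 := by
        rw [hu2, θ.add_smul x _ hTb, θ.smul x _ hT1, θ.scale _ _ hT0 c hc, hθF z, mul_zero]
      have h3 := hW x hx u hTu
      rw [hθ0, zero_mul] at h3
      have h4 : eval (c • (F z).ofLp) Φ = 0 := by
        rw [hΦ, nul_evW]
        exact h3.symm
      rw [map_mul, h4, mul_zero, mul_zero]
  have hz1 : ∀ (c : ℂ), c ≠ 0 → ∀ z, eval (c • (F z).ofLp) (G * Φ) = 0 := by
    intro c hc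
    have hm1 : Differentiable ℂ fun z => (F z).ofLp i * (deriv F z).ofLp j - (F z).ofLp j * (deriv F z).ofLp i := by
      have hdF : ∀ l, Differentiable ℂ fun z => (F z).ofLp l := fun l z => (nul_coord hFd l z).differentiableAt
      have hdd : ∀ l, Differentiable ℂ fun z => (deriv F z).ofLp l := by
        intro l
        have h1 : (fun z => (deriv F z).ofLp l) = deriv fun z => (F z).ofLp l := funext fun z => (nul_coord hFd l z).deriv.symm
        rw [h1]
        exact (hdF l).deriv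
      exact ((hdF i).mul (hdd j)).sub ((hdF j).mul (hdd i))
    have hm2 : Differentiable ℂ fun z => eval (c • (F z).ofLp) (G * Φ) := fun z => (nul_eval_deriv hFd (G * Φ) c z).differentiableAt
    rcases AnalyticOnNhd.eq_zero_or_eq_zero_of_mul_eq_zero (nul_entire hm1) (nul_entire hm2) (fun z _ => key c hc z) isPreconnected_univ with h1 | h1
    · exact absurd (h1 z₀ (Set.mem_univ _)) hz₀
    · exact fun z => h1 z (Set.mem_univ _)
  have hmem : G * Φ ∈ mapIdeal f Set.univ := by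
    rw [nul_mem_iff hFf]
    intro z c
    have hcont : Continuous fun c : ℂ => eval (c • (F z).ofLp) (G * Φ) :=
      (MvPolynomial.continuous_eval (G * Φ)).comp (continuous_id.smul continuous_const)
    have h1 : (fun c : ℂ => eval (c • (F z).ofLp) (G * Φ)) = fun _ => 0 :=
      Continuous.ext_on (dense_compl_singleton (0 : ℂ)) hcont continuous_const (fun c hc => hz1 c hc z)
    exact congrFun h1 c
  exact (hprime.mem_or_mem hmem).resolve_left hG

end Pool.Agent.SR3.NC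

end
end

section

/-!
# SR3 NC Pt: the differential vanishes on the tangent vectors of the curve of `J` at the points with `G ≠ 0`
-/

set_option autoImplicit false

open Topology Filter Metric MvPolynomial

noncomputable section

namespace Pool.Agent.SR3.NC

open Pool.Agent.H36.BP (EN)
open Pool.Agent.H62.FC (Homog)
open Pool.Agent.H17LG.Variety (FunField)
open Pool.Agent.H17EF (projVar coneE LE)
open Pool.Agent.H13.SM (conTan cone)
open Pool.Agent.AD (SymDiff TangentTo)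
open Pool.Agent.AD.NC (IsSmooth)
open Pool.Agent.H14.PP (Tan)

variable {N : ℕ} {P J : Ideal (MvPolynomial (Fin (N + 1)) ℂ)} {H : MvPolynomial (Fin (N + 1)) ℂ}

private theorem pt_evc (Q : MvPolynomial (Fin (N + 1)) ℂ) : Continuous fun x : EN N => eval x.ofLp Q :=
  (MvPolynomial.continuous_eval Q).comp (PiLp.continuous_ofLp 2 _)

theorem pt_mem_oc {x : EN N} : x ∈ oc P H ↔ x ∈ coneE P ∧ eval x.ofLp H ≠ 0 := by
  constructor
  · rintro ⟨h1, h2⟩
    exact ⟨h1, h2 0⟩
  · rintro ⟨h1, h2⟩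
    exact ⟨h1, fun _ => h2⟩

theorem pt_tan_oc {x v : EN N} (hx : x ∈ oc P H) (hv : Tan (coneE P) x v) : Tan (oc P H) x v := by
  obtain ⟨F, ⟨h1, h2⟩, h3, h4⟩ := hv
  refine ⟨F, ⟨h1, ?_⟩, h3, h4⟩
  have h5 : ContinuousAt (fun z => eval (F z).ofLp H) 0 := (pt_evc H).continuousAt.comp h1.continuousAt
  have h6 : eval (F 0).ofLp H ≠ 0 := by
    rw [h3]
    exact (pt_mem_oc.1 hx).2
  filter_upwards [h2, h5.eventually_ne h6] with z hz hz'
  exact pt_mem_oc.2 ⟨hz, hz'⟩

/-- the Zariski tangent vectors are tangent vectors -/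
theorem pt_tan [P.IsPrime] {z : Fin 2 → FunField P} (hP : Homog P) (hz : IsTranscendenceBasis ℂ z) (hsm : IsSmooth P 2) {x v : EN N}
    (hx : x ∈ oc P H) (hv : v.ofLp ∈ conTan P x.ofLp) : Tan (oc P H) x v :=
  pt_tan_oc hx (tan_of_conTan hP hz hsm (pt_mem_oc.1 hx).1 hv)

theorem pt_eval_W {x : Fin (N + 1) → ℂ} (t : Fin (N + 1) → MvPolynomial (Fin (N + 1)) ℂ) (W : MvPolynomial (Fin (N + 1) ⊕ Fin (N + 1)) ℂ) :
    eval x (aeval (Sum.elim X t) W) = eval (Sum.elim x fun i => eval x (t i)) W := by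
  induction W using MvPolynomial.induction_on with
  | C a => simp only [algHom_C, algebraMap_eq, eval_C]
  | add p q hp hq => rw [map_add, map_add, hp, hq, map_add]
  | mul_X p s hp =>
    rw [map_mul, map_mul, hp, map_mul, aeval_X, eval_X]
    rcases s with s | s
    · simp only [Sum.elim_inl, eval_X]
    · simp only [Sum.elim_inr]

/-- `θ` vanishes on the tangent vectors of the curve of `J` at the points with `G ≠ 0`. -/
theorem null_at [P.IsPrime] {z : Fin 2 → FunField P} (hP : Homog P) (hz : IsTranscendenceBasis ℂ z) (hsm : IsSmooth P 2) (hPJ : P ≤ J)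
    {m r : ℕ} (hm : 1 ≤ m) (θ : SymDiff (oc P H) m) {W : MvPolynomial (Fin (N + 1) ⊕ Fin (N + 1)) ℂ}
    (hW : ∀ x ∈ oc P H, ∀ v, Pool.Agent.H14.PP.Tan (oc P H) x v → θ.toFun x v * eval x.ofLp H ^ r = eval (Sum.elim x.ofLp v.ofLp) W)
    {G : MvPolynomial (Fin (N + 1)) ℂ} {t : Fin (N + 1) → MvPolynomial (Fin (N + 1)) ℂ} (ht : Tng J G t) (hT : aeval (Sum.elim X t) W ∈ J)
    {y : EN N} (hy : y ∈ oc P H) (hyJ : ∀ G ∈ J, eval y.ofLp G = 0)
    (hD : eval y.ofLp G ≠ 0) {w : EN N} (hw : w.ofLp ∈ conTan J y.ofLp) : θ.toFun y w = 0 := by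
  obtain ⟨-, htJ, hsp⟩ := ht y.ofLp hyJ hD
  obtain ⟨al, be, hab⟩ := hsp _ hw
  have hH0 : eval y.ofLp H ≠ 0 := (pt_mem_oc.1 hy).2
  set u : EN N := WithLp.toLp 2 fun i => eval y.ofLp (t i) with hu
  have huT : Tan (oc P H) y u := pt_tan hP hz hsm hy (Pool.Agent.AD.G.conTan_anti hPJ htJ)
  have h1 : θ.toFun y u = 0 := by
    have h2 := hW y hy u huT
    have h3 := hyJ _ hT
    rw [pt_eval_W] at h3
    have h4 : eval (Sum.elim y.ofLp u.ofLp) W = 0 := h3
    rw [h4] at h2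
    exact (mul_eq_zero.1 h2).resolve_right (pow_ne_zero r hH0)
  have hbu : Tan (oc P H) y (be • u) := pt_tan hP hz hsm hy ((conTan P y.ofLp).smul_mem be (Pool.Agent.AD.G.conTan_anti hPJ htJ))
  have hwu : w = be • u + al • y := by
    apply (LE N).symm.injective
    show w.ofLp = _
    rw [hab]
    exact add_comm (al • y.ofLp) (be • u.ofLp)
  rw [hwu, θ.add_smul y _ hbu al, θ.smul y u huT be, h1, mul_zero]

end Pool.Agent.SR3.NC

end
end
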