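import Pool.Agent.H43.TL2.M134
import Pool.Agent.H43.TL2.M136
import Pool.Agent.H43.TL2.M151

/-! The parts of this file: SR3.ELine, SR3.G.ODefs, SR3.G.FitU, SR3.G.MemG, SR3.G.MemT. -/

section

/-!
# SR3 ELine: the line of the two affine families
-/

set_option autoImplicit false

open Topology Filter Metric Complex InnerProductSpace Laplacian

noncomputable section

namespace Pool.Agent.SR3.BE

open Pool.Agent.SDR (gc)

variable {X ι : Type} [Fintype ι] {Φ : Fam X ι} {C c R₀ A c₂ C₂ R₂ : ℝ}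

private theorem en_flip {x : X} {a : ℂ} {R e : ℝ} {u : ℂ} {β β' : ι → ℝ} (h : Fit Φ x a R e A u β β') : Fit Φ x a R e A (-u) β' β := by
  refine ⟨by rw [norm_neg, h.nu], h.nβ', h.nβ, h.Aβ', h.Aβ, fun z hz i => ?_⟩
  rw [vee_neg]
  exact h.fit z hz i

/-- the rates are bounded -/
private theorem en_rate (hΦ : Hyp Φ C c R₀) {x : X} {a : ℂ} {R e : ℝ} {u : ℂ} {β β' : ι → ℝ} (ha : a ∈ Φ.G x) (hR : 1 ≤ R) {D : ℝ} (he : e ≤ D * R)
    (h : Fit Φ x a R e A u β β') (i : ι) : β i ≤ 2 * C + D := by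
  have hR0 : 0 < R := by linarith only [hR]
  have hmem : a + R * u ∈ closedBall a R := by
    rw [mem_closedBall, dist_eq_norm, add_sub_cancel_left, norm_mul, h.nu, mul_one, Complex.norm_real, Real.norm_of_nonneg hR0.le]
  have hht : ht u a (a + R * u) = R := by
    rw [ht_add h.nu]
    have : ht u a a = 0 := by unfold ht; simp
    rw [this, zero_add]
  have h1 := h.fit _ hmem i
  have h2 : vee u a (β i) (β' i) (a + R * u) = β i * R := by
    rw [vee_top (by rw [hht]; exact hR0.le), hht]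
  rw [h2] at h1
  have h3 := hΦ.up x i (a + R * u)
  have h4 : Φ.d x (a + R * u) ≤ R := by
    refine (infDist_le_dist_of_mem ha).trans ?_
    exact mem_closedBall.1 hmem
  have h5 : Φ.lam x i (a + R * u) ≤ C * (1 + R) := h3.trans (mul_le_mul_of_nonneg_left (by linarith only [h4]) (by linarith only [hΦ.C_ge]))
  have h6 := (abs_le.1 h1).1
  have h8 : C * 1 ≤ C * R := mul_le_mul_of_nonneg_left hR (by linarith only [hΦ.C_ge])
  have h7 : β i * R ≤ (2 * C + D) * R := by linarith only [he, h5, h6, h8]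
  exact le_of_mul_le_mul_right h7 hR0

private theorem en_star_mul {u : ℂ} (hu : ‖u‖ = 1) : star u * u = 1 := by
  show (starRingEnd ℂ) u * u = 1
  rw [← Complex.normSq_eq_conj_mul_self, Complex.normSq_eq_norm_sq, hu]
  norm_num

/-- the gradient of an affine function which is small on a disc -/
private theorem en_grad {κ q a : ℂ} {b e r : ℝ} (hr : 0 < r) (h : ∀ z ∈ closedBall q r, |(κ * (z - a)).re + b| ≤ e) : ‖κ‖ ≤ e / r := by
  have he : 0 ≤ e := (abs_nonneg _).trans (h q (mem_closedBall_self hr.le))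
  rcases eq_or_ne κ 0 with rfl | hκ
  · rw [norm_zero]
    positivity
  · have hn : 0 < ‖κ‖ := norm_pos_iff.2 hκ
    set w : ℂ := star κ / ‖κ‖ with hw
    have hwn : ‖w‖ = 1 := by
      rw [hw, norm_div, norm_star, Complex.norm_real, norm_norm, div_self hn.ne']
    have hκw : κ * w = ‖κ‖ := by
      have h1 : κ * star κ = ((‖κ‖ ^ 2 : ℝ) : ℂ) := by
        show κ * (starRingEnd ℂ) κ = _
        rw [Complex.mul_conj, Complex.normSq_eq_norm_sq]
      rw [hw, mul_div_assoc', h1]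
      have h2 : ((‖κ‖ : ℝ) : ℂ) ≠ 0 := by exact_mod_cast hn.ne'
      rw [div_eq_iff h2]
      push_cast
      ring
    have h1 := h (q + r * w) (by
      rw [mem_closedBall, dist_eq_norm, add_sub_cancel_left, norm_mul, hwn, mul_one, Complex.norm_real, Real.norm_of_nonneg hr.le])
    have h2 := h (q - r * w) (by
      rw [mem_closedBall, dist_eq_norm, sub_sub_cancel_left, norm_neg, norm_mul, hwn, mul_one, Complex.norm_real, Real.norm_of_nonneg hr.le])
    have h3 : (κ * (q + r * w - a)).re = (κ * (q - a)).re + r * ‖κ‖ := by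
      have : κ * (q + r * w - a) = κ * (q - a) + r * (κ * w) := by ring
      rw [this, hκw, Complex.add_re, ← Complex.ofReal_mul, Complex.ofReal_re]
    have h4 : (κ * (q - r * w - a)).re = (κ * (q - a)).re - r * ‖κ‖ := by
      have : κ * (q - r * w - a) = κ * (q - a) - r * (κ * w) := by ring
      rw [this, hκw, Complex.sub_re, ← Complex.ofReal_mul, Complex.ofReal_re]
    rw [h3] at h1
    rw [h4] at h2
    rw [le_div_iff₀ hr]
    have h5 := (abs_le.1 h1).2
    have h6 := (abs_le.1 h2).1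
    linarith only [h5, h6]

/-- the sum of an affine family -/
private theorem en_sum {x : X} {z : ℂ} {E Y : ℝ} {t b : ι → ℝ} (ht1 : ∑ i, t i = 1) (h : ∀ i, |Φ.lam x i z - (t i * Y + b i)| ≤ E) :
    |Φ.S x z - (Y + ∑ i, b i)| ≤ Fintype.card ι * E := by
  have e1 : Y + ∑ i, b i = ∑ i, (t i * Y + b i) := by rw [Finset.sum_add_distrib, ← Finset.sum_mul, ht1, one_mul]
  rw [e1]
  unfold Fam.S
  rw [← Finset.sum_sub_distrib]
  refine (Finset.abs_sum_le_sum_abs _ _).trans ((Finset.sum_le_sum fun i _ => h i).trans (le_of_eq ?_))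
  rw [Finset.sum_const, Finset.card_univ, nsmul_eq_mul]

/-- the slope of an affine family compared with a datum -/
private theorem en_slope {x : X} {a : ℂ} {R E e A' : ℝ} {u u₁ k : ℂ} {β β' t b : ι → ℝ} (hR : 0 < R) (hu : ‖u‖ = 1) (hf : Fit Φ x a (16 * R) e A' u₁ β β')
    (hT : TopAff Φ x a (2 * R) (1 / 16) E u t k b) (hp : 0 ≤ (star u * u₁).re) :
    ‖k - (∑ i, β i : ℝ) * star u₁‖ ≤ 4 * (Fintype.card ι * (E + e)) / R := by
  set q : ℂ := a + (R / 2 : ℝ) * (u + u₁) with hq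
  have hu₁ := hf.nu
  have hr : 0 < R / 4 := by linarith only [hR]
  have hqa : q - a = (R / 2 : ℝ) * (u + u₁) := by rw [hq, add_sub_cancel_left]
  have hqn : ‖q - a‖ ≤ R := by
    rw [hqa, norm_mul, Complex.norm_real, Real.norm_of_nonneg (by linarith only [hR])]
    have := norm_add_le u u₁
    rw [hu, hu₁] at this
    linarith only [mul_le_mul_of_nonneg_left this (by linarith only [hR] : (0 : ℝ) ≤ R / 2)]
  have hh1 : R / 2 ≤ ht u a q := by
    unfold ht
    rw [hqa]
    have : star u * ((R / 2 : ℝ) * (u + u₁)) = ((R / 2 : ℝ) : ℂ) * (star u * u + star u * u₁) := by ring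
    rw [this, Complex.re_ofReal_mul, en_star_mul hu, Complex.add_re, Complex.one_re]
    linarith only [mul_nonneg (by linarith only [hR] : (0 : ℝ) ≤ R / 2) hp]
  have hp' : 0 ≤ (star u₁ * u).re := by
    have : star u₁ * u = star (star u * u₁) := by rw [star_mul, star_star]
    rw [this]
    exact hp
  have hh2 : R / 2 ≤ ht u₁ a q := by
    unfold ht
    rw [hqa]
    have : star u₁ * ((R / 2 : ℝ) * (u + u₁)) = ((R / 2 : ℝ) : ℂ) * (star u₁ * u + star u₁ * u₁) := by ring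
    rw [this, Complex.re_ofReal_mul, en_star_mul hu₁, Complex.add_re, Complex.one_re]
    linarith only [mul_nonneg (by linarith only [hR] : (0 : ℝ) ≤ R / 2) hp']
  have key := en_grad (κ := k - (∑ i, β i : ℝ) * star u₁) (q := q) (a := a) (b := ∑ i, b i) (e := Fintype.card ι * (E + e)) hr fun z hz => by
    have hzq : ‖z - q‖ ≤ R / 4 := by rw [← dist_eq_norm]; exact mem_closedBall.1 hz
    have hza : ‖z - a‖ ≤ 5 * R / 4 := by
      calc ‖z - a‖ = ‖(z - q) + (q - a)‖ := by rw [sub_add_sub_cancel]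
        _ ≤ ‖z - q‖ + ‖q - a‖ := norm_add_le _ _
        _ ≤ 5 * R / 4 := by linarith only [hqn, hzq]
    have g1 : R / 4 ≤ ht u a z := by
      have := (abs_le.1 (abs_ht_sub_le hu a z q)).1
      linarith only [hh1, hzq, this]
    have g2 : R / 4 ≤ ht u₁ a z := by
      have := (abs_le.1 (abs_ht_sub_le hu₁ a z q)).1
      linarith only [hh2, hzq, this]
    have f1 := en_sum (x := x) (z := z) hT.2.1 (hT.2.2 z (by rw [mem_closedBall, dist_eq_norm]; linarith only [hR, hza]) (by linarith only [hR, g1]))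
    have f2 := hf.S (z := z) (by rw [mem_closedBall, dist_eq_norm]; linarith only [hR, hza])
    rw [vee_top (by linarith only [hR, g2])] at f2
    have e1 : ((k - (∑ i, β i : ℝ) * star u₁) * (z - a)).re + ∑ i, b i =
        (Φ.S x z - (∑ i, β i) * ht u₁ a z) - (Φ.S x z - ((k * (z - a)).re + ∑ i, b i)) := by
      unfold ht
      have : (k - (∑ i, β i : ℝ) * star u₁) * (z - a) = k * (z - a) - ((∑ i, β i : ℝ) : ℂ) * (star u₁ * (z - a)) := by ring
      rw [this, Complex.sub_re, Complex.re_ofReal_mul]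
      ring
    rw [e1]
    refine (abs_sub _ _).trans ?_
    linarith only [f1, f2]
  refine key.trans (le_of_eq ?_)
  field_simp

/-- a lower bound for the slope -/
private theorem en_slope_ge {x : X} {a : ℂ} {R E e A' : ℝ} {u u₀ k : ℂ} {β β' t b : ι → ℝ} (hR : 0 < R) (hu : ‖u‖ = 1) (hA' : 0 ≤ A')
    (hf : Fit Φ x a (16 * R) e A' u₀ β β') (hT : TopAff Φ x a (2 * R) (1 / 16) E u t k b) :
    A' - 4 * (Fintype.card ι * (E + e)) / R ≤ ‖k‖ := by
  have key : ∀ (u₁ : ℂ) (γ γ' : ι → ℝ), Fit Φ x a (16 * R) e A' u₁ γ γ' → 0 ≤ (star u * u₁).re → A' - 4 * (Fintype.card ι * (E + e)) / R ≤ ‖k‖ := by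
    intro u₁ γ γ' h1 h2
    have h3 := en_slope hR hu h1 hT h2
    have h4 : ‖((∑ i, γ i : ℝ) : ℂ) * star u₁‖ = ∑ i, γ i := by
      rw [norm_mul, norm_star, h1.nu, mul_one, Complex.norm_real, Real.norm_of_nonneg (hA'.trans h1.Aβ)]
    have h5 := norm_sub_norm_le (((∑ i, γ i : ℝ) : ℂ) * star u₁) k
    rw [h4, norm_sub_rev] at h5
    linarith only [h3, h5, h1.Aβ]
  rcases le_total 0 (star u * u₀).re with h | h
  · exact key u₀ β β' hf h
  · refine key (-u₀) β' β (en_flip hf) ?_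
    rw [mul_neg, Complex.neg_re]
    linarith only [h]

/-- two complex numbers of equal modulus with large imaginary parts and close real parts -/
private theorem en_close {p q : ℂ} {R τ : ℝ} (hR : 0 < R) (hpq : ‖p‖ = ‖q‖) (hp : R / 2 ≤ p.im) (hq : R / 2 ≤ q.im) (hn : ‖p‖ ≤ R) (hτp : |p.re| ≤ τ)
    (hτq : |q.re| ≤ τ) : ‖p - q‖ ≤ 6 * τ := by
  have h1 : p.re ^ 2 + p.im ^ 2 = q.re ^ 2 + q.im ^ 2 := by
    have e1 := Complex.sq_norm p
    have e2 := Complex.sq_norm q
    rw [Complex.normSq_apply] at e1 e2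
    rw [hpq] at e1
    linarith only [e1, e2]
  have h2 : |p.re + q.re| ≤ 2 * R := by
    have h3 := Complex.abs_re_le_norm p
    have h4 := Complex.abs_re_le_norm q
    rw [← hpq] at h4
    exact (abs_add_le _ _).trans (by linarith only [hn, h3, h4])
  have h3 : |p.re - q.re| ≤ 2 * τ := (abs_sub _ _).trans (by linarith only [hτp, hτq])
  have h4 : (p.im - q.im) * (p.im + q.im) = (q.re - p.re) * (q.re + p.re) := by linarith only [h1]
  have h5 : |p.im - q.im| * R ≤ 4 * τ * R := by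
    have h6 : |p.im - q.im| * (p.im + q.im) = |q.re - p.re| * |q.re + p.re| := by
      rw [← abs_mul, ← h4, abs_mul, abs_of_nonneg (show 0 ≤ p.im + q.im by linarith only [hR, hp, hq])]
    have h7 : |p.im - q.im| * R ≤ |p.im - q.im| * (p.im + q.im) := mul_le_mul_of_nonneg_left (by linarith only [hp, hq]) (abs_nonneg _)
    have h8 : |q.re - p.re| * |q.re + p.re| ≤ (2 * τ) * (2 * R) := by
      refine mul_le_mul ?_ ?_ (abs_nonneg _) (by linarith only [hτp, abs_nonneg (p.re)])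
      · rw [abs_sub_comm]
        exact h3
      · rw [add_comm]
        exact h2
    linarith only [h6, h7, h8]
  have h6 : |p.im - q.im| ≤ 4 * τ := le_of_mul_le_mul_right h5 hR
  have h7 := Complex.norm_le_abs_re_add_abs_im (p - q)
  rw [Complex.sub_re, Complex.sub_im] at h7
  linarith only [h3, h6, h7]

/-- MODULE Line.  The two affine families of `low_region` give a datum at `(a, R)`: `û = star k / ‖k‖`, rates `t_i ‖k‖`, `t'_i ‖k'‖`.  At `a` and at a good
point `a''` at distance `≥ R / 2` (near `a + (3/4) R I u`) both families are `≤ E + C`; so the lines `Re k (z - a) = 0`, `Re k' (z - a) = 0` agree up to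
`C (E + C)`; where the height is negative and the first family fits, `S ≥ 0` shows that the height is small.  The datum with `2 A` (any `u₀`) shows that
the new rates have sum `≥ A`. -/
theorem line_fit (hΦ : Hyp Φ C c R₀) (hA : 0 < A) (hD : Dep Φ A c₂ C₂ R₂) (hR₂ : R₀ ≤ R₂) :
    ∃ C₇ η₂ R₇ : ℝ, 0 < C₇ ∧ 0 < η₂ ∧ 1 ≤ R₇ ∧ ∀ (x : X) (a : ℂ), a ∈ Φ.G x → ∀ (R E : ℝ), R₇ ≤ R → 0 ≤ E → E ≤ η₂ * R →
      (∃ u₀ β₀ β₀', Fit Φ x a (16 * R) (η₂ * (16 * R)) (2 * A) u₀ β₀ β₀') → ∀ (u : ℂ) (β β' : ι → ℝ),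
      Fit Φ x a (16 * R) (η₂ * (16 * R)) A u β β' → ∀ (t t' : ι → ℝ) (k k' : ℂ) (b b' : ι → ℝ), TopAff Φ x a (2 * R) (1 / 16) E u t k b →
      TopAff Φ x a (2 * R) (1 / 16) E (-u) t' k' b' → (∀ z ∈ closedBall a R,
        ((∀ i, |Φ.lam x i z - (t i * (k * (z - a)).re + b i)| ≤ E) ∨ ∀ i, |Φ.lam x i z - (t' i * (k' * (z - a)).re + b' i)| ≤ E) ∧
        (z ∈ Φ.G x → (∀ i, |Φ.lam x i z - (t i * (k * (z - a)).re + b i)| ≤ E) ∧
          ∀ i, |Φ.lam x i z - (t' i * (k' * (z - a)).re + b' i)| ≤ E)) →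
      ∃ u' γ γ', Fit Φ x a R (C₇ * (E + 1)) A u' γ γ' := by
  have hC1 := hΦ.C_ge
  have hc₂ := hD.c_pos
  have hc₂1 := hD.c_le
  have hR₂1 := hD.R_ge
  set n : ℝ := ((Fintype.card ι : ℕ) : ℝ) with hn
  have hn0 : 0 ≤ n := by positivity
  set K : ℝ := n * (2 * C + 1) + A with hK
  have hK0 : 0 < K := by positivity
  set η₂ : ℝ := min (c₂ / 256) (A / (680 * (n + 1))) with hη₂
  have hη0 : 0 < η₂ := lt_min (by positivity) (by positivity)
  have hη1 : η₂ ≤ c₂ / 256 := min_le_left _ _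
  have hη2 : η₂ ≤ A / (680 * (n + 1)) := min_le_right _ _
  have hη3 : η₂ ≤ 1 / 16 := by linarith only [hc₂1, hη1]
  have hηn : 68 * n * η₂ ≤ A / 10 := by
    have h1 : η₂ * (680 * (n + 1)) ≤ A := by
      rwa [le_div_iff₀ (by positivity)] at hη2
    linarith only [hη0, h1]
  set C₇ : ℝ := (2 + C + 18 * K * n * (1 + C) / A) * (1 + 2 * K * n / A) with hC₇
  refine ⟨C₇, η₂, 16 * R₂ + 1, by positivity, hη0, by linarith only [hR₂1], ?_⟩
  intro x a ha R E hR hE0 hE hex u β β' hfit t t' k k' b b' hT hT' hall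
  have hR0 : 0 < R := by linarith only [hR₂1, hR]
  have hR1 : 1 ≤ R := by linarith only [hR₂1, hR]
  have hu := hfit.nu
  -- slopes
  have hε : 4 * (n * (E + η₂ * (16 * R))) / R ≤ A / 10 := by
    rw [div_le_iff₀ hR0]
    have h1 : n * E ≤ n * (η₂ * R) := mul_le_mul_of_nonneg_left hE hn0
    have h2 : 68 * n * η₂ * R ≤ A / 10 * R := mul_le_mul_of_nonneg_right hηn hR0.le
    linarith only [h1, h2]
  have hkB : ‖k - (∑ i, β i : ℝ) * star u‖ ≤ A / 10 := by
    refine (en_slope hR0 hu hfit hT ?_).trans hε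
    rw [en_star_mul hu]
    norm_num
  have hk'B : ‖k' - (∑ i, β' i : ℝ) * star (-u)‖ ≤ A / 10 := by
    have hu' : ‖-u‖ = 1 := by rw [norm_neg, hu]
    refine (en_slope hR0 hu' (en_flip hfit) hT' ?_).trans hε
    rw [en_star_mul hu']
    norm_num
  obtain ⟨u₀, β₀, β₀', hfit₀⟩ := hex
  have hkA : A ≤ ‖k‖ := by
    have := en_slope_ge hR0 hu (by positivity) hfit₀ hT
    linarith only [hA, hε, this]
  have hkA' : A ≤ ‖k'‖ := by
    have := en_slope_ge hR0 (u := -u) (by rw [norm_neg, hu]) (by positivity) hfit₀ hT'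
    linarith only [hA, hε, this]
  set Bs : ℝ := ∑ i, β i with hBs
  set Bs' : ℝ := ∑ i, β' i with hBs'
  have hBA : A ≤ Bs := hfit.Aβ
  have hBA' : A ≤ Bs' := hfit.Aβ'
  have hsn : ∀ s : ℝ, 0 ≤ s → ‖(s : ℂ) * star u‖ = s := fun s hs => by
    rw [norm_mul, norm_star, hu, mul_one, Complex.norm_real, Real.norm_of_nonneg hs]
  have hkle : ‖k‖ ≤ Bs + A / 10 := by
    have h1 := norm_sub_norm_le k ((Bs : ℂ) * star u)
    rw [hsn Bs (by linarith only [hA, hBA])] at h1
    linarith only [hkB, h1]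
  have hkle' : ‖k'‖ ≤ Bs' + A / 10 := by
    have h1 := norm_sub_norm_le k' ((Bs' : ℂ) * star (-u))
    rw [star_neg, mul_neg, norm_neg, hsn Bs' (by linarith only [hA, hBA'])] at h1
    rw [star_neg, mul_neg] at hk'B
    linarith only [hk'B, h1]
  have hR16 : (1 : ℝ) ≤ 16 * R := by linarith only [hR₂1, hR]
  have heD : η₂ * (16 * R) ≤ 1 * (16 * R) := mul_le_mul_of_nonneg_right (by linarith only [hc₂1, hη1]) (by linarith only [hR₂1, hR])
  have hBK : Bs ≤ n * (2 * C + 1) := by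
    rw [hBs]
    refine (Finset.sum_le_sum fun i _ => en_rate hΦ ha hR16 heD hfit i).trans (le_of_eq ?_)
    rw [Finset.sum_const, Finset.card_univ, nsmul_eq_mul]
  have hBK' : Bs' ≤ n * (2 * C + 1) := by
    rw [hBs']
    refine (Finset.sum_le_sum fun i _ => en_rate hΦ ha hR16 heD (en_flip hfit) i).trans (le_of_eq ?_)
    rw [Finset.sum_const, Finset.card_univ, nsmul_eq_mul]
  have hkK : ‖k‖ ≤ K := by linarith only [hA, hkle, hBK]
  have hkK' : ‖k'‖ ≤ K := by linarith only [hA, hkle', hBK']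
  -- the second good point
  set p : ℂ := a + (3 / 4 * R : ℝ) * (I * u) with hp
  have hpa : p - a = (3 / 4 * R : ℝ) * (I * u) := by rw [hp, add_sub_cancel_left]
  have hpn : ‖p - a‖ = 3 / 4 * R := by
    rw [hpa, norm_mul, norm_mul, Complex.norm_I, hu, Complex.norm_real, Real.norm_of_nonneg (by positivity)]
    ring
  have hsp : star u * (p - a) = ((3 / 4 * R : ℝ) : ℂ) * I := by
    rw [hpa]
    have : star u * (((3 / 4 * R : ℝ) : ℂ) * (I * u)) = ((3 / 4 * R : ℝ) : ℂ) * I * (star u * u) := by ring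
    rw [this, en_star_mul hu, mul_one]
  have hpht : ht u a p = 0 := by
    unfold ht
    rw [hsp, Complex.re_ofReal_mul, Complex.I_re, mul_zero]
  have hdp : Φ.d x p < R / 16 := by
    by_contra hcon
    push Not at hcon
    have h1 := hD.het x a (16 * R) (η₂ * (16 * R)) u β β' ha hR16 hfit p (by
      rw [mem_closedBall, dist_eq_norm, hpn]
      linarith only [hR₂1, hR]) (by linarith only [hR, hcon]) (by
      have h2 : η₂ * (16 * R) ≤ c₂ / 256 * (16 * R) := mul_le_mul_of_nonneg_right hη1 (by linarith only [hR₂1, hR])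
      have h3 : c₂ * (R / 16) ≤ c₂ * Φ.d x p := mul_le_mul_of_nonneg_left hcon hc₂.le
      linarith only [h2, h3])
    rw [hpht, abs_zero] at h1
    have h3 : c₂ * (R / 16) ≤ c₂ * Φ.d x p := mul_le_mul_of_nonneg_left hcon hc₂.le
    have h4 : 0 < c₂ * (R / 16) := by positivity
    linarith only [h1, h3, h4]
  obtain ⟨a', ha', hpa'⟩ := good_near hΦ hdp
  set w : ℂ := a' - a with hw
  have hwv : star u * w = ((3 / 4 * R : ℝ) : ℂ) * I - star u * (p - a') := by
    rw [← hsp, hw]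
    ring
  have hvn : ‖star u * (p - a')‖ ≤ R / 16 := by
    rw [norm_mul, norm_star, hu, one_mul]
    exact hpa'.le
  have hwim : 11 / 16 * R ≤ (star u * w).im := by
    rw [hwv, Complex.sub_im, Complex.im_ofReal_mul, Complex.I_im, mul_one]
    have := (abs_le.1 ((Complex.abs_im_le_norm (star u * (p - a'))).trans hvn)).2
    linarith only [this]
  have hwn : ‖w‖ = ‖star u * w‖ := by rw [norm_mul, norm_star, hu, one_mul]
  have hwle : ‖w‖ ≤ 13 / 16 * R := by
    rw [hwn, hwv]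
    refine (norm_sub_le _ _).trans ?_
    rw [norm_mul, Complex.norm_I, mul_one, Complex.norm_real, Real.norm_of_nonneg (by positivity)]
    linarith only [hvn]
  have hwge : 11 / 16 * R ≤ ‖w‖ := by
    rw [hwn]
    exact hwim.trans ((le_abs_self _).trans (Complex.abs_im_le_norm _))
  have hw0 : 0 < ‖w‖ := by linarith only [hR₂1, hR, hwge]
  have ha'mem : a' ∈ closedBall a R := by
    rw [mem_closedBall, dist_eq_norm]
    linarith only [hR₂1, hR, hwle]
  have hamem : a ∈ closedBall a R := mem_closedBall_self hR0.le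
  -- values at the good points
  have hgood : ∀ y ∈ Φ.G x, ∀ i, 0 ≤ Φ.lam x i y ∧ Φ.lam x i y ≤ C := by
    intro y hy i
    refine ⟨hΦ.nn x i y, ?_⟩
    have := hΦ.up x i y
    rw [d_good hy, add_zero, mul_one] at this
    exact this
  have hSgood : ∀ y ∈ Φ.G x, 0 ≤ Φ.S x y ∧ Φ.S x y ≤ n * C := by
    intro y hy
    refine ⟨S_nonneg hΦ x y, ?_⟩
    have := S_le hΦ x y
    rw [d_good hy, add_zero, mul_one] at this
    exact this
  have hba := (hall a hamem).2 ha
  have hba' := (hall a' ha'mem).2 ha'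
  have hb1 : ∀ i, |b i| ≤ E + C := by
    intro i
    have h1 := hba.1 i
    rw [sub_self, mul_zero, Complex.zero_re, mul_zero, zero_add] at h1
    have h2 := hgood a ha i
    rw [abs_le] at h1 ⊢
    constructor <;> linarith only [h1, h2]
  have hb1' : ∀ i, |b' i| ≤ E + C := by
    intro i
    have h1 := hba.2 i
    rw [sub_self, mul_zero, Complex.zero_re, mul_zero, zero_add] at h1
    have h2 := hgood a ha i
    rw [abs_le] at h1 ⊢
    constructor <;> linarith only [h1, h2]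
  have hre : ∀ (s : ι → ℝ) (q : ι → ℝ) (κ : ℂ), ∑ i, s i = 1 → (∀ i, |Φ.lam x i a - (s i * (κ * (a - a)).re + q i)| ≤ E) →
      (∀ i, |Φ.lam x i a' - (s i * (κ * (a' - a)).re + q i)| ≤ E) → |(κ * w).re| ≤ 2 * n * (E + C) := by
    intro s q κ hs h1 h2
    have e1 := en_sum hs h1
    have e2 := en_sum hs h2
    rw [sub_self, mul_zero, Complex.zero_re, zero_add] at e1
    have g1 := hSgood a ha
    have g2 := hSgood a' ha'
    rw [abs_le] at e1 e2 ⊢
    constructor <;> linarith only [e1, e2, g1, g2]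
  have hkw := hre t b k hT.2.1 hba.1 hba'.1
  have hkw' := hre t' b' k' hT'.2.1 hba.2 hba'.2
  -- the unit vectors
  have hk0 : 0 < ‖k‖ := by linarith only [hA, hkA]
  have hk0' : 0 < ‖k'‖ := by linarith only [hA, hkA']
  have hkc : ((‖k‖ : ℝ) : ℂ) ≠ 0 := by exact_mod_cast hk0.ne'
  have hkc' : ((‖k'‖ : ℝ) : ℂ) ≠ 0 := by exact_mod_cast hk0'.ne'
  set κ : ℂ := k / ‖k‖ with hκ
  set κ' : ℂ := k' / ‖k'‖ with hκ'
  have hκk : k = ‖k‖ * κ := by rw [hκ, mul_div_cancel₀ _ hkc]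
  have hκk' : k' = ‖k'‖ * κ' := by rw [hκ', mul_div_cancel₀ _ hkc']
  have hκn : ‖κ‖ = 1 := by rw [hκ, norm_div, Complex.norm_real, norm_norm, div_self hk0.ne']
  have hκn' : ‖κ'‖ = 1 := by rw [hκ', norm_div, Complex.norm_real, norm_norm, div_self hk0'.ne']
  set τ₀ : ℝ := 2 * n * (E + C) / A with hτ₀
  have hτ₀0 : 0 ≤ τ₀ := by positivity
  have hPre : |(κ * w).re| ≤ τ₀ := by
    have e1 : (k * w).re = ‖k‖ * (κ * w).re := by
      conv_lhs => rw [hκk]
      rw [mul_assoc, Complex.re_ofReal_mul]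
    rw [e1, abs_mul, abs_of_pos hk0] at hkw
    rw [hτ₀, le_div_iff₀ hA]
    have := mul_le_mul_of_nonneg_right hkA (abs_nonneg (κ * w).re)
    linarith only [hkw, this]
  have hQre : |(-κ' * w).re| ≤ τ₀ := by
    have e1 : (k' * w).re = ‖k'‖ * (κ' * w).re := by
      conv_lhs => rw [hκk']
      rw [mul_assoc, Complex.re_ofReal_mul]
    rw [e1, abs_mul, abs_of_pos hk0'] at hkw'
    rw [neg_mul, Complex.neg_re, abs_neg, hτ₀, le_div_iff₀ hA]
    have := mul_le_mul_of_nonneg_right hkA' (abs_nonneg (κ' * w).re)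
    linarith only [hkw', this]
  have hPim : R / 2 ≤ (κ * w).im := by
    have e1 : (k * w).im = ‖k‖ * (κ * w).im := by
      conv_lhs => rw [hκk]
      rw [mul_assoc, Complex.im_ofReal_mul]
    have e2 : k * w = (Bs : ℂ) * (star u * w) + (k - (Bs : ℂ) * star u) * w := by ring
    have e3 : |((k - (Bs : ℂ) * star u) * w).im| ≤ A / 10 * (13 / 16 * R) := by
      refine (Complex.abs_im_le_norm _).trans ?_
      rw [norm_mul]
      exact mul_le_mul hkB hwle (norm_nonneg _) (by positivity)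
    have e4 : Bs * (11 / 16 * R) - A / 10 * (13 / 16 * R) ≤ (k * w).im := by
      rw [e2, Complex.add_im, Complex.im_ofReal_mul]
      have h1 := (abs_le.1 e3).1
      have h2 : Bs * (11 / 16 * R) ≤ Bs * (star u * w).im := mul_le_mul_of_nonneg_left hwim (by linarith only [hA, hBA])
      linarith only [h1, h2]
    rw [e1] at e4
    by_contra hcon
    push Not at hcon
    have h3 : ‖k‖ * (κ * w).im ≤ ‖k‖ * (R / 2) := mul_le_mul_of_nonneg_left hcon.le hk0.le
    have h4 : ‖k‖ * (R / 2) ≤ (Bs + A / 10) * (R / 2) := mul_le_mul_of_nonneg_right hkle (by linarith only [hR₂1, hR])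
    have h5 : A * R ≤ Bs * R := mul_le_mul_of_nonneg_right hBA hR0.le
    have h6 : 0 < A * R := by positivity
    linarith only [e4, h3, h4, h5, h6]
  have hQim : R / 2 ≤ (-κ' * w).im := by
    have e1 : (-k' * w).im = ‖k'‖ * (-κ' * w).im := by
      conv_lhs => rw [hκk']
      rw [neg_mul, neg_mul, mul_assoc, Complex.neg_im, Complex.im_ofReal_mul, Complex.neg_im]
      ring
    have e2 : -k' * w = (Bs' : ℂ) * (star u * w) - (k' - (Bs' : ℂ) * star (-u)) * w := by
      rw [star_neg]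
      ring
    have e3 : |((k' - (Bs' : ℂ) * star (-u)) * w).im| ≤ A / 10 * (13 / 16 * R) := by
      refine (Complex.abs_im_le_norm _).trans ?_
      rw [norm_mul]
      exact mul_le_mul hk'B hwle (norm_nonneg _) (by positivity)
    have e4 : Bs' * (11 / 16 * R) - A / 10 * (13 / 16 * R) ≤ (-k' * w).im := by
      rw [e2, Complex.sub_im, Complex.im_ofReal_mul]
      have h1 := (abs_le.1 e3).2
      have h2 : Bs' * (11 / 16 * R) ≤ Bs' * (star u * w).im := mul_le_mul_of_nonneg_left hwim (by linarith only [hA, hBA'])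
      linarith only [h1, h2]
    rw [e1] at e4
    by_contra hcon
    push Not at hcon
    have h3 : ‖k'‖ * (-κ' * w).im ≤ ‖k'‖ * (R / 2) := mul_le_mul_of_nonneg_left hcon.le hk0'.le
    have h4 : ‖k'‖ * (R / 2) ≤ (Bs' + A / 10) * (R / 2) := mul_le_mul_of_nonneg_right hkle' (by linarith only [hR₂1, hR])
    have h5 : A * R ≤ Bs' * R := mul_le_mul_of_nonneg_right hBA' hR0.le
    have h6 : 0 < A * R := by positivity
    linarith only [e4, h3, h4, h5, h6]
  have hPQ : ‖κ * w - -κ' * w‖ ≤ 6 * τ₀ := by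
    refine en_close hR0 ?_ hPim hQim ?_ hPre hQre
    · rw [norm_mul, norm_mul, norm_neg, hκn, hκn']
    · rw [norm_mul, hκn, one_mul]
      linarith only [hR₂1, hR, hwle]
  set τ : ℝ := 18 * n * (E + C) / A with hτ
  have hτ0 : 0 ≤ τ := by positivity
  have hkk : ∀ z ∈ closedBall a R, |((κ + κ') * (z - a)).re| ≤ τ := by
    intro z hz
    have h1 : ‖κ + κ'‖ * ‖w‖ ≤ 6 * τ₀ := by
      rw [← norm_mul]
      have : (κ + κ') * w = κ * w - -κ' * w := by ring
      rw [this]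
      exact hPQ
    have h2 : ‖z - a‖ ≤ R := by rw [← dist_eq_norm]; exact mem_closedBall.1 hz
    have h3 : ‖κ + κ'‖ * ‖z - a‖ ≤ τ := by
      have h4 : ‖κ + κ'‖ * (11 / 16 * R) ≤ 6 * τ₀ := (mul_le_mul_of_nonneg_left hwge (norm_nonneg _)).trans h1
      have h5 : ‖κ + κ'‖ * ‖z - a‖ ≤ ‖κ + κ'‖ * R := mul_le_mul_of_nonneg_left h2 (norm_nonneg _)
      have h6 : τ = 9 * τ₀ := by
        rw [hτ, hτ₀]
        ring
      have h7 : ‖κ + κ'‖ * R ≤ 9 * τ₀ := by linarith only [hτ₀0, h4]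
      linarith only [hτ0, h4, h5, h6]
    refine (Complex.abs_re_le_norm _).trans ?_
    rw [norm_mul]
    exact h3
  -- the new datum
  have hstar : star (star κ) = κ := star_star κ
  have hht : ∀ z, ht (star κ) a z = (κ * (z - a)).re := fun z => by
    unfold ht
    rw [hstar]
  set m₂ : ℝ := 2 * E + C + K * τ with hm₂
  have hm₂0 : 0 ≤ m₂ := by positivity
  have ht1 : ∀ i, t i ≤ 1 := fun i => by
    rw [← hT.2.1]
    exact Finset.single_le_sum (fun i _ => hT.1 i) (Finset.mem_univ i)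
  have ht1' : ∀ i, t' i ≤ 1 := fun i => by
    rw [← hT'.2.1]
    exact Finset.single_le_sum (fun i _ => hT'.1 i) (Finset.mem_univ i)
  have hγK : ∀ i, t i * ‖k‖ ≤ K := fun i => (mul_le_of_le_one_left hk0.le (ht1 i)).trans hkK
  have hγK' : ∀ i, t' i * ‖k'‖ ≤ K := fun i => (mul_le_of_le_one_left hk0'.le (ht1' i)).trans hkK'
  have hγ0 : ∀ i, 0 ≤ t i * ‖k‖ := fun i => mul_nonneg (hT.1 i) hk0.le
  have hγ0' : ∀ i, 0 ≤ t' i * ‖k'‖ := fun i => mul_nonneg (hT'.1 i) hk0'.le
  have hfin : m₂ * (1 + 2 * K * n / A) ≤ C₇ * (E + 1) := by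
    have h1 : m₂ ≤ (2 + C + 18 * K * n * (1 + C) / A) * (E + 1) := by
      have h0 : 0 ≤ C * E := mul_nonneg (by linarith only [hC1]) hE0
      have h2 : E + C ≤ (1 + C) * (E + 1) := by linarith only [h0]
      have h3 : K * τ ≤ 18 * K * n * (1 + C) / A * (E + 1) := by
        have e1 : K * τ = 18 * K * n / A * (E + C) := by rw [hτ]; ring
        have e2 : 18 * K * n * (1 + C) / A * (E + 1) = 18 * K * n / A * ((1 + C) * (E + 1)) := by ring
        rw [e1, e2]
        exact mul_le_mul_of_nonneg_left h2 (by positivity)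
      have h4 : 2 * E + C ≤ (2 + C) * (E + 1) := by linarith only [h0]
      rw [hm₂]
      linarith only [h0, h3]
    have h2 : 0 ≤ 1 + 2 * K * n / A := by positivity
    calc m₂ * (1 + 2 * K * n / A) ≤ ((2 + C + 18 * K * n * (1 + C) / A) * (E + 1)) * (1 + 2 * K * n / A) := mul_le_mul_of_nonneg_right h1 h2
      _ = C₇ * (E + 1) := by rw [hC₇]; ring
  -- the other side
  have hside : ∀ (z : ℂ) (h : ℝ) (s s' : ι → ℝ) (kk : ℝ), A ≤ kk → 0 < h → (∀ i, 0 ≤ s i) → (∀ i, s i ≤ K) → (∀ i, 0 ≤ s' i) → (∀ i, s' i ≤ K) → ∑ i, s i = kk →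
      (∀ i, |Φ.lam x i z + s i * h| ≤ m₂) → ∀ i, |Φ.lam x i z - s' i * h| ≤ m₂ * (1 + 2 * K * n / A) := by
    intro z h s s' kk hkk0 hh hs0 hsK hs0' hsK' hsum hlam i
    have h1 : Φ.S x z + kk * h ≤ n * m₂ := by
      have e1 : Φ.S x z + kk * h = ∑ i, (Φ.lam x i z + s i * h) := by
        rw [Finset.sum_add_distrib, ← Finset.sum_mul, hsum]
        rfl
      rw [e1]
      refine (Finset.sum_le_sum fun i _ => (abs_le.1 (hlam i)).2).trans (le_of_eq ?_)
      rw [Finset.sum_const, Finset.card_univ, nsmul_eq_mul]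
    have h2 := S_nonneg hΦ x z
    have h3 : A * h ≤ n * m₂ := by
      have := mul_le_mul_of_nonneg_right hkk0 hh.le
      linarith only [h1, h2, this]
    have h4 : h ≤ n * m₂ / A := by
      rw [le_div_iff₀ hA]
      linarith only [h3]
    have e2 : Φ.lam x i z - s' i * h = (Φ.lam x i z + s i * h) - (s i + s' i) * h := by ring
    rw [e2]
    refine (abs_sub _ _).trans ?_
    have h5 : |(s i + s' i) * h| ≤ 2 * K * (n * m₂ / A) := by
      rw [abs_of_nonneg (mul_nonneg (add_nonneg (hs0 i) (hs0' i)) hh.le)]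
      exact mul_le_mul (by linarith only [hsK i, hsK' i]) h4 hh.le (by positivity)
    have h6 : m₂ * (1 + 2 * K * n / A) = m₂ + 2 * K * (n * m₂ / A) := by ring
    rw [h6]
    exact add_le_add (hlam i) h5
  have hm₂le : m₂ ≤ m₂ * (1 + 2 * K * n / A) := by
    have : 0 ≤ 2 * K * n / A := by positivity
    exact le_mul_of_one_le_right hm₂0 (by linarith only [this])
  refine ⟨star κ, fun i => t i * ‖k‖, fun i => t' i * ‖k'‖, by rw [norm_star, hκn], hγ0, hγ0', ?_, ?_, ?_⟩
  · rw [← Finset.sum_mul, hT.2.1, one_mul]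
    exact hkA
  · rw [← Finset.sum_mul, hT'.2.1, one_mul]
    exact hkA'
  · intro z hz i
    refine le_trans ?_ hfin
    set h := ht (star κ) a z with hh
    have hhz : h = (κ * (z - a)).re := hht z
    rcases (hall z hz).1 with h1 | h1
    · -- the first family
      have h2 : ∀ i, |Φ.lam x i z - t i * ‖k‖ * h| ≤ m₂ := by
        intro i
        have e1 : t i * (k * (z - a)).re = t i * ‖k‖ * h := by
          conv_lhs => rw [hκk]
          rw [mul_assoc, Complex.re_ofReal_mul, hhz]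
          ring
        have h3 := h1 i
        rw [e1] at h3
        have h4 := hb1 i
        have e2 : Φ.lam x i z - t i * ‖k‖ * h = (Φ.lam x i z - (t i * ‖k‖ * h + b i)) + b i := by ring
        rw [e2]
        refine (abs_add_le _ _).trans ?_
        have : 0 ≤ K * τ := by positivity
        rw [hm₂]
        linarith only [h3, h4, this]
      rcases le_or_gt 0 h with hs | hs
      · rw [vee_top hs]
        exact (h2 i).trans hm₂le
      · rw [vee_low hs.le]
        refine hside z (-h) (fun i => t i * ‖k‖) (fun i => t' i * ‖k'‖) ‖k‖ hkA (by linarith only [hs]) hγ0 hγK hγ0' hγK' ?_ ?_ i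
        · rw [← Finset.sum_mul, hT.2.1, one_mul]
        · intro i
          have := h2 i
          have e3 : Φ.lam x i z + t i * ‖k‖ * -h = Φ.lam x i z - t i * ‖k‖ * h := by ring
          rw [e3]
          exact this
    · -- the second family
      have h2 : ∀ i, |Φ.lam x i z + t' i * ‖k'‖ * h| ≤ m₂ := by
        intro i
        have hρ := hkk z hz
        have e1 : t' i * (k' * (z - a)).re = t' i * ‖k'‖ * (-h + ((κ + κ') * (z - a)).re) := by
          conv_lhs => rw [hκk']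
          have e4 : (κ + κ') * (z - a) = κ * (z - a) + κ' * (z - a) := by ring
          rw [mul_assoc, Complex.re_ofReal_mul, e4, Complex.add_re, ← hhz]
          ring
        have h3 := h1 i
        rw [e1] at h3
        have h4 := hb1' i
        have e2 : Φ.lam x i z + t' i * ‖k'‖ * h = (Φ.lam x i z - (t' i * ‖k'‖ * (-h + ((κ + κ') * (z - a)).re) + b' i)) +
            (b' i + t' i * ‖k'‖ * ((κ + κ') * (z - a)).re) := by ring
        rw [e2]
        have h5 : |t' i * ‖k'‖ * ((κ + κ') * (z - a)).re| ≤ K * τ := by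
          rw [abs_mul, abs_of_nonneg (hγ0' i)]
          exact mul_le_mul (hγK' i) hρ (abs_nonneg _) hK0.le
        refine (abs_add_le _ _).trans ?_
        have h6 := abs_add_le (b' i) (t' i * ‖k'‖ * ((κ + κ') * (z - a)).re)
        rw [hm₂]
        linarith only [h3, h4, h5, h6]
      rcases le_or_gt h 0 with hs | hs
      · rw [vee_low hs]
        have e3 : Φ.lam x i z - t' i * ‖k'‖ * -h = Φ.lam x i z + t' i * ‖k'‖ * h := by ring
        rw [e3]
        exact (h2 i).trans hm₂le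
      · rw [vee_top hs.le]
        refine hside z h (fun i => t' i * ‖k'‖) (fun i => t i * ‖k‖) ‖k'‖ hkA' hs hγ0' hγK' hγ0 hγK ?_ h2 i
        rw [← Finset.sum_mul, hT'.2.1, one_mul]

end Pool.Agent.SR3.BE

end
end

section

/-!
# SR3 G ODefs: the families of curves of the class with the same (horizontal) direction and the same rates
-/

set_option autoImplicit false

open Topology Filter Metric

noncomputable section

namespace Pool.Agent.SR3.G

open Pool.Agent.H36.BP (EN)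
open Pool.Agent.SR3 (Geo)
open Pool.Agent.SR3.Geo (Gd)

variable {N : ℕ}

/-- the conclusion of `straight`, for given constants -/
structure Str (G : Geo N) (T : Set (EN N)) (rho : EN N → ℝ) (δ γ A' B : ℝ) : Prop where
  γ_pos : 0 < γ
  γ_lt : γ < 1
  A'_pos : 0 < A'
  B_pos : 0 < B
  fits : ∀ (q : G.J → ℂ) (F : ℂ → EN N), G.Cl T q F → ∀ a ∈ Gd rho δ F,
    ∃ (u : ℂ) (β β' : G.ι → ℝ), G.Fits F a u β β' (fun z => B * Pool.Agent.SR3.pw γ ‖z - a‖) Set.univ ∧ A' ≤ ∑ i, β i ∧ A' ≤ ∑ i, β' i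

/-- The curves of the class with the horizontal direction, the rates `β`, `β'` and the value `q`. -/
structure Mem (G : Geo N) (T : Set (EN N)) (rho : EN N → ℝ) (δ γ A' B : ℝ) (β β' : G.ι → ℝ) (q : G.J → ℂ) (F : ℂ → EN N) : Prop where
  cl : G.Cl T q F
  sum : A' ≤ ∑ i, β i
  sum' : A' ≤ ∑ i, β' i
  fits : ∃ a ∈ Gd rho δ F, G.Fits F a Complex.I β β' (fun z => B * Pool.Agent.SR3.pw γ ‖z - a‖) Set.univ

/-- the family: the members which lie in none of the curves `{Q = 0}` -/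
def KF (G : Geo N) (T : Set (EN N)) (rho : EN N → ℝ) (δ γ A' B : ℝ) (β β' : G.ι → ℝ) (q : G.J → ℂ) (𝒬 : Set (EN N → ℂ)) : Set (ℂ → EN N) :=
  {F | Mem G T rho δ γ A' B β β' q F ∧ ∀ Q ∈ 𝒬, ∃ z, Q (F z) ≠ 0}

/-- **(F1)**, block F -/
def TubeBd (G : Geo N) (T : Set (EN N)) (rho : EN N → ℝ) (δ γ A' B : ℝ) : Prop :=
  ∃ γ' : ℝ, γ' < 1 ∧ ∀ (q : G.J → ℂ) (β β' : G.ι → ℝ) (M₀ L : ℝ), ∃ r₀ : ℝ, ∀ r ≥ r₀, ∀ A : ℝ, ∃ K : ℝ, 0 ≤ K ∧
    ∀ (F H : ℂ → EN N) (z : ℤ → ℂ) (s ε n : ℝ), Mem G T rho δ γ A' B β β' q F → Mem G T rho δ γ A' B β β' q H → IsChain M₀ L F z →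
      0 < s → s ≤ 1 → 0 ≤ ε → 0 ≤ n →
      (∀ (k : ℤ) (w : ℂ), ‖w‖ ≤ r → ‖H (z k + w) - F (z k + w)‖ ≤ s * Real.exp (A * pw γ |(k : ℝ)| + ε * min |(k : ℝ)| n)) →
      ∀ y : ℂ, ‖H y - F y‖ ≤ s * Real.exp (K * pw γ' ‖y‖ + K * (ε * Real.log (2 + n)) * (1 + ‖y‖)) * ‖F y‖ ∧
        ∀ i, ‖G.E i (H y) - G.E i (F y)‖ ≤ s * Real.exp (K * pw γ' ‖y‖ + K * (ε * Real.log (2 + n)) * (1 + ‖y‖)) * ‖G.E i (F y)‖

/-- **(F2)**, block F: from the chain to the real axis -/
def FirstP (G : Geo N) (T : Set (EN N)) (rho : EN N → ℝ) (δ γ A' B : ℝ) : Prop :=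
  ∀ (q : G.J → ℂ) (β β' : G.ι → ℝ) (M₀ L : ℝ), ∃ r₀ : ℝ, ∀ r ≥ r₀, ∀ (F H : ℂ → EN N) (z : ℤ → ℂ) (c C : ℝ),
    Mem G T rho δ γ A' B β β' q F → Mem G T rho δ γ A' B β β' q H → IsChain M₀ L F z → 0 < c →
    (∀ (k : ℕ) (w : ℂ), ‖w‖ ≤ r → ‖H (z k + w) - F (z k + w)‖ ≤ Real.exp (C - c * (k / Real.log (2 + k)))) →
    ∃ c' C' : ℝ, 0 < c' ∧ ∀ x : ℝ, 0 ≤ x → ‖H x - F x‖ ≤ Real.exp (C' - c' * (x / Real.log (2 + x)))

/-- the conclusion of `Face.rigid` -/
def RigidF (G : Geo N) (T : Set (EN N)) : Prop :=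
  ∀ 𝒰 : Ultrafilter ℕ, (𝒰 : Filter ℕ) ≤ atTop → ∀ (q : G.J → ℂ) (F H : ℕ → ℂ → EN N) (l : ℕ → ℝ) (F₀ V : ℂ → EN N) (γ : ℝ), γ < 1 →
    (∀ k, G.Cl T q (F k)) → (∀ k, G.Cl T q (H k)) → G.Cl T q F₀ → (∀ k, 0 < l k) → Tendsto l 𝒰 (𝓝 0) →
    TendstoLocallyUniformlyOn F F₀ 𝒰 Set.univ → TendstoLocallyUniformlyOn (fun k z => ((l k : ℂ)⁻¹) • (H k z - F k z)) V 𝒰 Set.univ →
    (∃ B : ℝ, ∀ z, ‖V z‖ ≤ Real.exp (B * Pool.Agent.SR3.pw γ ‖z‖) * ‖F₀ z‖ ∧
      ∀ i, ‖fderiv ℂ (G.E i) (F₀ z) (V z)‖ ≤ Real.exp (B * Pool.Agent.SR3.pw γ ‖z‖) * ‖G.E i (F₀ z)‖) →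
    ∃ c : ℂ, ∀ z, V z = c • deriv F₀ z

/-- the facts of the other blocks, for the first curve `T` -/
structure Facts (G : Geo N) (T : Set (EN N)) (rho : EN N → ℝ) (δ γ A' B : ℝ) : Prop where
  str : Str G T rho δ γ A' B
  good : ∀ (q : G.J → ℂ) (F : ℂ → EN N), G.Cl T q F → (Gd rho δ F).Nonempty
  growth : ∃ B₁ : ℝ, 0 ≤ B₁ ∧ ∀ (q : G.J → ℂ) (F : ℂ → EN N), G.Cl T q F → ∀ z, Real.log ‖F z‖ ≤ B₁ * (1 + infDist z (Gd rho δ F))
  gapD : ∀ B₁ : ℝ, ∃ R : ℝ, ∀ (q : G.J → ℂ) (F : ℂ → EN N), G.Cl T q F → ∀ z, Real.log ‖F z‖ ≤ B₁ → infDist z (Gd rho δ F) ≤ R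
  lower : ∃ c B₁ : ℝ, 0 < c ∧ ∀ (q : G.J → ℂ) (F : ℂ → EN N), G.Cl T q F → ∀ z, c * infDist z (Gd rho δ F) - B₁ ≤ Real.log ‖F z‖
  cpt : ∀ 𝒰 : Ultrafilter ℕ, (𝒰 : Filter ℕ) ≤ atTop → ∀ (q : ℕ → G.J → ℂ) (F : ℕ → ℂ → EN N), (∀ k, G.Cl T (q k) (F k)) → (∀ k, δ ≤ rho (F k 0)) →
    ∃ (q' : G.J → ℂ) (H : ℂ → EN N), G.Cl T q' H ∧ Tendsto q 𝒰 (𝓝 q') ∧ δ ≤ rho (H 0) ∧ TendstoLocallyUniformlyOn F H 𝒰 Set.univ

/-- (15), block F, for a second metric: the curve `T' ⊇ T` -/
structure Facts' (G : Geo N) (T : Set (EN N)) (rho : EN N → ℝ) (δ : ℝ) (T' : Set (EN N)) (rho' : EN N → ℝ) (δ' : ℝ) : Prop where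
  dense' : ∃ R : ℝ, ∀ (q : G.J → ℂ) (F : ℂ → EN N), G.Cl T' q F → ∀ a ∈ Gd rho δ F, ∃ b ∈ Gd rho' δ' F, dist a b ≤ R
  cpt : ∀ 𝒰 : Ultrafilter ℕ, (𝒰 : Filter ℕ) ≤ atTop → ∀ (q : ℕ → G.J → ℂ) (F : ℕ → ℂ → EN N), (∀ k, G.Cl T' (q k) (F k)) → (∀ k, δ' ≤ rho' (F k 0)) →
    ∃ (q' : G.J → ℂ) (H : ℂ → EN N), G.Cl T' q' H ∧ Tendsto q 𝒰 (𝓝 q') ∧ δ' ≤ rho' (H 0) ∧ TendstoLocallyUniformlyOn F H 𝒰 Set.univ

/-- `Facts'` for all the second metrics -/
def HFacts (G : Geo N) (T : Set (EN N)) (rho : EN N → ℝ) (δ : ℝ) (𝒬 : Set (EN N → ℂ)) : Prop :=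
  ∀ R ∈ 𝒬, ∃ Q ∈ 𝒬, (∀ x, R x = 0 → Q x = 0) ∧ (∀ x ∈ T, Q x = 0) ∧ ∃ (rho' : EN N → ℝ) (δ' : ℝ),
    Facts' G T rho δ {x | x ∈ G.X ∧ Q x = 0} rho' δ' 

end Pool.Agent.SR3.G

end
end

section

/-!
# SR3 G FitU: the direction and the rates are the same at all good points
-/

set_option autoImplicit false

open Topology Filter Metric

noncomputable section

namespace Pool.Agent.SR3.G

open Pool.Agent.H36.BP (EN)
open Pool.Agent.SR3 (Geo)
open Pool.Agent.SR3.Geo (Gd)

variable {N : ℕ} {G : Geo N} {T : Set (EN N)} {rho : EN N → ℝ} {δ γ A' B : ℝ} {β β' : G.ι → ℝ} {q : G.J → ℂ} {F : ℂ → EN N}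

/-- `(2 + r) ^ γ` is small compared with `r` -/
private theorem fu_small {γ η : ℝ} (hγ : γ < 1) (hη : 0 < η) : ∀ᶠ s : ℝ in atTop, s ^ γ ≤ η * s := by
  have h1 : Tendsto (fun s : ℝ => s ^ (-(1 - γ))) atTop (𝓝 0) := tendsto_rpow_neg_atTop (by linarith)
  filter_upwards [h1.eventually (gt_mem_nhds hη), eventually_gt_atTop 0] with s hs hs0
  have h2 : s ^ γ = s ^ (-(1 - γ)) * s := by
    conv_rhs => rw [← Real.rpow_one s, ← Real.rpow_mul hs0.le, one_mul, ← Real.rpow_add hs0]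
    congr 1
    ring
  rw [h2]
  exact mul_le_mul_of_nonneg_right hs.le hs0.le

private theorem fu_zero {γ B D K c : ℝ} (hγ : γ < 1) (hB : 0 < B) (h : ∀ t : ℝ, 0 ≤ t → t * |D| ≤ K + 2 * B * Pool.Agent.SR3.pw γ (t + c)) :
    D = 0 := by
  by_contra hD
  have hD0 : 0 < |D| := abs_pos.2 hD
  have h1 := fu_small hγ (η := |D| / (8 * B)) (by positivity)
  have h2 : Tendsto (fun t : ℝ => 2 + (t + c)) atTop atTop :=
    tendsto_atTop_add_const_left _ _ (tendsto_atTop_add_const_right _ _ tendsto_id)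
  have h3 := (h2.eventually h1).and ((eventually_ge_atTop (0 : ℝ)).and (eventually_gt_atTop ((K + |D| * (2 + c) / 4) * 4 / (3 * |D|))))
  obtain ⟨t, ht1, ht0, ht2⟩ := h3.exists
  have h4 := h t ht0
  unfold Pool.Agent.SR3.pw at h4
  have h5 : 2 * B * (2 + (t + c)) ^ γ ≤ |D| / 4 * (2 + (t + c)) := by
    have h6 : 2 * B * (2 + (t + c)) ^ γ ≤ 2 * B * (|D| / (8 * B) * (2 + (t + c))) := mul_le_mul_of_nonneg_left ht1 (by positivity)
    refine h6.trans (le_of_eq ?_)
    field_simp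
    ring
  rw [div_lt_iff₀ (by positivity)] at ht2
  nlinarith

private theorem fu_max (x y : ℝ) : |max (x + y) 0 - max x 0| ≤ |y| := by
  have h := abs_max_sub_max_le_abs (x + y) x 0
  rwa [add_sub_cancel_left] at h

/-- the comparison of the two asymptotics in the direction `v` -/
private theorem fu_dir {a₀ a u : ℂ} {b b' : G.ι → ℝ} (hγ : γ < 1) (hγ0 : 0 < γ) (hB : 0 < B)
    (h₀ : G.Fits F a₀ Complex.I β β' (fun z => B * Pool.Agent.SR3.pw γ ‖z - a₀‖) Set.univ)
    (h : G.Fits F a u b b' (fun z => B * Pool.Agent.SR3.pw γ ‖z - a‖) Set.univ) {v : ℂ} (hv : ‖v‖ = 1) (i : G.ι) :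
    b i * max (star u * v).re 0 + b' i * max (-(star u * v).re) 0 = β i * max v.im 0 + β' i * max (-v.im) 0 := by
  obtain ⟨-, hβ, hf₀⟩ := h₀
  obtain ⟨-, hb, hf⟩ := h
  rw [← sub_eq_zero]
  refine fu_zero (K := (β i + β' i) * |(a - a₀).im|) (c := ‖a - a₀‖) hγ hB fun t ht => ?_
  have h1 := hf₀ (a + t * v) (Set.mem_univ _) i
  have h2 := hf (a + t * v) (Set.mem_univ _) i
  have e1 : Pool.Agent.SR3.yy u a (a + t * v) = t * (star u * v).re := by
    unfold Pool.Agent.SR3.yy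
    rw [add_sub_cancel_left]
    have : star u * ((t : ℂ) * v) = (t : ℂ) * (star u * v) := by ring
    rw [this, Complex.re_ofReal_mul]
  have e2 : Pool.Agent.SR3.yy Complex.I a₀ (a + t * v) = t * v.im + (a - a₀).im := by
    unfold Pool.Agent.SR3.yy
    have : star Complex.I = -Complex.I := Complex.conj_I
    rw [this]
    simp
    ring
  have e3 : Pool.Agent.SR3.lin u a (b i) (b' i) (a + t * v) = t * (b i * max (star u * v).re 0 + b' i * max (-(star u * v).re) 0) := by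
    unfold Pool.Agent.SR3.lin
    rw [e1, mul_add]
    have h3 : max (t * (star u * v).re) 0 = t * max (star u * v).re 0 := by
      rw [mul_max_of_nonneg _ _ ht, mul_zero]
    have h4 : max (-(t * (star u * v).re)) 0 = t * max (-(star u * v).re) 0 := by
      rw [mul_max_of_nonneg _ _ ht, mul_zero, mul_neg]
    rw [h3, h4]
    ring
  have e4 : |Pool.Agent.SR3.lin Complex.I a₀ (β i) (β' i) (a + t * v) - t * (β i * max v.im 0 + β' i * max (-v.im) 0)| ≤
      (β i + β' i) * |(a - a₀).im| := by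
    unfold Pool.Agent.SR3.lin
    rw [e2]
    have h3 : t * (β i * max v.im 0 + β' i * max (-v.im) 0) = β i * max (t * v.im) 0 + β' i * max (-(t * v.im)) 0 := by
      have h4 : max (t * v.im) 0 = t * max v.im 0 := by rw [mul_max_of_nonneg _ _ ht, mul_zero]
      have h5 : max (-(t * v.im)) 0 = t * max (-v.im) 0 := by rw [mul_max_of_nonneg _ _ ht, mul_zero, mul_neg]
      rw [h4, h5]
      ring
    rw [h3]
    have h6 := fu_max (t * v.im) (a - a₀).im
    have h7 := fu_max (-(t * v.im)) (-(a - a₀).im)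
    rw [abs_neg] at h7
    have h8 : -(t * v.im) + -(a - a₀).im = -(t * v.im + (a - a₀).im) := by ring
    rw [h8] at h7
    have h9 : β i * max (t * v.im + (a - a₀).im) 0 + β' i * max (-(t * v.im + (a - a₀).im)) 0 - (β i * max (t * v.im) 0 + β' i * max (-(t * v.im)) 0) =
      β i * (max (t * v.im + (a - a₀).im) 0 - max (t * v.im) 0) + β' i * (max (-(t * v.im + (a - a₀).im)) 0 - max (-(t * v.im)) 0) := by ring
    rw [h9]
    refine (abs_add_le _ _).trans ?_
    rw [abs_mul, abs_mul, abs_of_nonneg (hβ i).1, abs_of_nonneg (hβ i).2, add_mul]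
    exact add_le_add (mul_le_mul_of_nonneg_left h6 (hβ i).1) (mul_le_mul_of_nonneg_left h7 (hβ i).2)
  have e5 : Pool.Agent.SR3.pw γ ‖a + t * v - a‖ ≤ Pool.Agent.SR3.pw γ (t + ‖a - a₀‖) := by
    unfold Pool.Agent.SR3.pw
    refine Real.rpow_le_rpow (by positivity) ?_ hγ0.le
    rw [add_sub_cancel_left, norm_mul, hv, mul_one, Complex.norm_real, Real.norm_of_nonneg ht]
    linarith [norm_nonneg (a - a₀)]
  have e6 : Pool.Agent.SR3.pw γ ‖a + t * v - a₀‖ ≤ Pool.Agent.SR3.pw γ (t + ‖a - a₀‖) := by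
    unfold Pool.Agent.SR3.pw
    refine Real.rpow_le_rpow (by positivity) ?_ hγ0.le
    have h3 : a + t * v - a₀ = t * v + (a - a₀) := by ring
    have h4 : ‖(t : ℂ) * v‖ = t := by rw [norm_mul, hv, mul_one, Complex.norm_real, Real.norm_of_nonneg ht]
    rw [h3]
    have h5 := norm_add_le ((t : ℂ) * v) (a - a₀)
    rw [h4] at h5
    linarith
  have h3 : t * |b i * max (star u * v).re 0 + b' i * max (-(star u * v).re) 0 - (β i * max v.im 0 + β' i * max (-v.im) 0)| =
      |t * (b i * max (star u * v).re 0 + b' i * max (-(star u * v).re) 0) - t * (β i * max v.im 0 + β' i * max (-v.im) 0)| := by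
    rw [← mul_sub, abs_mul, abs_of_nonneg ht]
  rw [h3, ← e3]
  have h4 : Pool.Agent.SR3.lin u a (b i) (b' i) (a + t * v) - t * (β i * max v.im 0 + β' i * max (-v.im) 0) =
      -(G.lam i (F (a + t * v)) - Pool.Agent.SR3.lin u a (b i) (b' i) (a + t * v)) +
      ((G.lam i (F (a + t * v)) - Pool.Agent.SR3.lin Complex.I a₀ (β i) (β' i) (a + t * v)) +
      (Pool.Agent.SR3.lin Complex.I a₀ (β i) (β' i) (a + t * v) - t * (β i * max v.im 0 + β' i * max (-v.im) 0))) := by ring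
  rw [h4]
  refine (abs_add_le _ _).trans ?_
  rw [abs_neg]
  have h5 := abs_add_le (G.lam i (F (a + t * v)) - Pool.Agent.SR3.lin Complex.I a₀ (β i) (β' i) (a + t * v))
    (Pool.Agent.SR3.lin Complex.I a₀ (β i) (β' i) (a + t * v) - t * (β i * max v.im 0 + β' i * max (-v.im) 0))
  have h6 : B * Pool.Agent.SR3.pw γ ‖a + t * v - a‖ ≤ B * Pool.Agent.SR3.pw γ (t + ‖a - a₀‖) := mul_le_mul_of_nonneg_left e5 hB.le
  have h7 : B * Pool.Agent.SR3.pw γ ‖a + t * v - a₀‖ ≤ B * Pool.Agent.SR3.pw γ (t + ‖a - a₀‖) := mul_le_mul_of_nonneg_left e6 hB.le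
  have h8 : |G.lam i (F (a + t * v)) - Pool.Agent.SR3.lin u a (b i) (b' i) (a + t * v)| ≤ B * Pool.Agent.SR3.pw γ ‖a + t * v - a‖ := h2
  have h9 : |G.lam i (F (a + t * v)) - Pool.Agent.SR3.lin Complex.I a₀ (β i) (β' i) (a + t * v)| ≤ B * Pool.Agent.SR3.pw γ ‖a + t * v - a₀‖ := h1
  linarith

/-- The direction and the rates are the same at all good points: compare the two asymptotics at `a + t v`, `t → ∞`, `v = ± 1`, `v = ± I`. -/
theorem fits_all (hs : Str G T rho δ γ A' B) (hm : Mem G T rho δ γ A' B β β' q F) {a : ℂ} (ha : a ∈ Gd rho δ F) :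
    G.Fits F a Complex.I β β' (fun z => B * Pool.Agent.SR3.pw γ ‖z - a‖) Set.univ := by
  obtain ⟨a₀, -, h₀⟩ := hm.fits
  obtain ⟨u, b, b', h, hA, hA'⟩ := hs.fits q F hm.cl a ha
  have key := fun {v : ℂ} (hv : ‖v‖ = 1) (i : G.ι) => fu_dir hs.γ_lt hs.γ_pos hs.B_pos h₀ h hv i
  have hu : ‖u‖ = 1 := h.1
  -- the direction is horizontal
  have h1 : ∀ i, b i * max (star u).re 0 + b' i * max (-(star u).re) 0 = 0 := by
    intro i
    have := key (v := 1) norm_one i
    simpa using this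
  have hre : u.re = 0 := by
    have h2 : (∑ i, b i) * max (star u).re 0 + (∑ i, b' i) * max (-(star u).re) 0 = 0 := by
      rw [Finset.sum_mul, Finset.sum_mul, ← Finset.sum_add_distrib]
      exact Finset.sum_eq_zero fun i _ => h1 i
    have h3 : (star u).re = u.re := Complex.conj_re u
    rw [h3] at h2
    have hp := hs.A'_pos
    have h4 : 0 ≤ (∑ i, b i) * max u.re 0 := mul_nonneg (by linarith) (le_max_right _ _)
    have h5 : 0 ≤ (∑ i, b' i) * max (-u.re) 0 := mul_nonneg (by linarith) (le_max_right _ _)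
    have h6 : (∑ i, b i) * max u.re 0 = 0 := by linarith
    have h7 : (∑ i, b' i) * max (-u.re) 0 = 0 := by linarith
    have h8 : max u.re 0 = 0 := by
      rcases mul_eq_zero.1 h6 with h | h
      · linarith
      · exact h
    have h9 : max (-u.re) 0 = 0 := by
      rcases mul_eq_zero.1 h7 with h | h
      · linarith
      · exact h
    have h10 := le_max_left u.re 0
    have h11 := le_max_left (-u.re) 0
    linarith
  have hu2 : u.im = 1 ∨ u.im = -1 := by
    have h2 : ‖u‖ ^ 2 = 1 := by rw [hu]; norm_num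
    rw [← Complex.normSq_eq_norm_sq, Complex.normSq_apply, hre] at h2
    have h3 : (u.im - 1) * (u.im + 1) = 0 := by linarith
    rcases mul_eq_zero.1 h3 with h | h
    · exact Or.inl (by linarith)
    · exact Or.inr (by linarith)
  have hI : ∀ i, b i * max (star u * Complex.I).re 0 + b' i * max (-(star u * Complex.I).re) 0 = β i := by
    intro i
    have := key (v := Complex.I) Complex.norm_I i
    simpa using this
  have hI' : ∀ i, b i * max (star u * -Complex.I).re 0 + b' i * max (-(star u * -Complex.I).re) 0 = β' i := by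
    intro i
    have := key (v := -Complex.I) (by rw [norm_neg, Complex.norm_I]) i
    simpa using this
  have e1 : (star u * Complex.I).re = u.im := by
    have : star u = ⟨u.re, -u.im⟩ := rfl
    rw [this]
    simp
  have e2 : (star u * -Complex.I).re = -u.im := by
    rw [mul_neg, Complex.neg_re, e1]
  rcases hu2 with h2 | h2
  · have hbb : b = β := by
      funext i
      have := hI i
      rw [e1, h2] at this
      norm_num at this
      exact this
    have hbb' : b' = β' := by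
      funext i
      have := hI' i
      rw [e2, h2] at this
      norm_num at this
      exact this
    have huI : u = Complex.I := Complex.ext (by simp [hre]) (by simp [h2])
    rw [← hbb, ← hbb', ← huI]
    exact h
  · have hbb : b' = β := by
      funext i
      have := hI i
      rw [e1, h2] at this
      norm_num at this
      exact this
    have hbb' : b = β' := by
      funext i
      have := hI' i
      rw [e2, h2] at this
      norm_num at this
      exact this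
    have huI : u = -Complex.I := Complex.ext (by simp [hre]) (by simp [h2])
    obtain ⟨-, h3, h4⟩ := h
    refine ⟨Complex.norm_I, fun i => ?_, fun z hz i => ?_⟩
    · rw [← hbb, ← hbb']
      exact ⟨(h3 i).2, (h3 i).1⟩
    · have h5 := h4 z hz i
      have h6 : Pool.Agent.SR3.lin u a (b i) (b' i) z = Pool.Agent.SR3.lin Complex.I a (β i) (β' i) z := by
        have h7 : Pool.Agent.SR3.yy u a z = -Pool.Agent.SR3.yy Complex.I a z := by
          unfold Pool.Agent.SR3.yy
          rw [huI, star_neg, neg_mul, Complex.neg_re]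
        unfold Pool.Agent.SR3.lin
        rw [h7, hbb, hbb', neg_neg]
        ring
      rw [h6] at h5
      exact h5

end Pool.Agent.SR3.G

end
end

section

/-!
# SR3 G MemG: good points near the origin, the growth of the members
-/

set_option autoImplicit false

open Topology Filter Metric

noncomputable section

namespace Pool.Agent.SR3.G

open Pool.Agent.H36.BP (EN)
open Pool.Agent.SR3 (Geo)
open Pool.Agent.SR3.Geo (Gd)

variable {N : ℕ} {G : Geo N} {T : Set (EN N)} {rho : EN N → ℝ} {δ γ A' B : ℝ} {β β' : G.ι → ℝ} {q : G.J → ℂ} {F : ℂ → EN N}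

/-- from `gapD` -/
theorem exists_good_near (hf : Facts G T rho δ γ A' B) (B₁ : ℝ) :
    ∃ R : ℝ, 0 ≤ R ∧ ∀ (q : G.J → ℂ) (F : ℂ → EN N), G.Cl T q F → ‖F 0‖ ≤ B₁ → ∃ a ∈ Gd rho δ F, ‖a‖ ≤ R := by
  obtain ⟨R, hR⟩ := hf.gapD (Real.log (max B₁ 1))
  refine ⟨max R 0 + 1, by positivity, fun q F hF h0 => ?_⟩
  have h1 : Real.log ‖F 0‖ ≤ Real.log (max B₁ 1) := by
    rcases (norm_nonneg (F 0)).eq_or_lt with h2 | h2
    · rw [← h2, Real.log_zero]
      exact Real.log_nonneg (le_max_right _ _)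
    · exact Real.log_le_log h2 (h0.trans (le_max_left _ _))
  have h2 := hR q F hF 0 h1
  have h3 : infDist 0 (Gd rho δ F) < max R 0 + 1 := by
    have := le_max_left R 0
    linarith only [h2, this]
  obtain ⟨a, ha, hd⟩ := (infDist_lt_iff (hf.good q F hF)).1 h3
  refine ⟨a, ha, ?_⟩
  rw [dist_eq_norm, zero_sub, norm_neg] at hd
  exact hd.le

/-- from `fits_all`, `exists_good_near` and `G.Ok.cmp` (`p (F z) = 1`): `h log ‖F‖ = ∑ b i lam i + O(1)` -/
theorem mem_log (hG : G.Ok) (hf : Facts G T rho δ γ A' B) (β β' : G.ι → ℝ) (B₁ : ℝ) :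
    ∃ c C : ℝ, 0 < c ∧ 0 ≤ C ∧ ∀ (q : G.J → ℂ) (F : ℂ → EN N), Mem G T rho δ γ A' B β β' q F → ‖F 0‖ ≤ B₁ → ∀ z : ℂ,
      c * |z.im| - C * pw γ ‖z‖ ≤ Real.log ‖F z‖ ∧ Real.log ‖F z‖ ≤ C * (|z.im| + pw γ ‖z‖) := by
  obtain ⟨R, hR0, hR⟩ := exists_good_near hf B₁
  obtain ⟨Cc, hCc⟩ := hG.cmp
  have hγ := hf.str.γ_pos
  have hγ1 := hf.str.γ_lt
  have hA' := hf.str.A'_pos
  have hB := hf.str.B_pos
  have hh : (1 : ℝ) ≤ G.h := by
    have := hG.aff.pos ()
    exact_mod_cast this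
  have hh0 : (0 : ℝ) < G.h := by linarith only [hh]
  set S : ℝ := ∑ i, (G.b i : ℝ) * (|β i| + |β' i|) with hS
  have hS0 : 0 ≤ S := by positivity
  set b : ℝ := ∑ i, (G.b i : ℝ) with hb
  have hb0 : 0 ≤ b := by positivity
  set C : ℝ := S * (1 + R) + b * B * (1 + R) + |Cc| + A' * R with hC
  have hC0 : 0 ≤ C := by positivity
  refine ⟨A' / G.h, C, by positivity, hC0, fun q F hm h0 z => ?_⟩
  obtain ⟨a, ha, haR⟩ := hR q F hm.cl h0
  have hfit := fits_all hf.str hm ha
  set y : ℝ := (z - a).im with hy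
  have hyy : yy Complex.I a z = y := by
    unfold yy
    rw [hy]
    simp
  set p : ℝ := pw γ ‖z‖ with hp
  have hp1 : 1 ≤ p := by
    rw [hp]
    exact Real.one_le_rpow (by linarith only [norm_nonneg z]) hγ.le
  have hpa : Pool.Agent.SR3.pw γ ‖z - a‖ ≤ (1 + R) * p := by
    have e1 : ‖z - a‖ ≤ ‖z‖ + R := (norm_sub_le _ _).trans (by linarith only [haR])
    have e2 : (2 + ‖z - a‖) ≤ (1 + R) * (2 + ‖z‖) := by nlinarith only [hR0, e1, norm_nonneg z]
    calc (2 + ‖z - a‖) ^ γ ≤ ((1 + R) * (2 + ‖z‖)) ^ γ := Real.rpow_le_rpow (by positivity) e2 hγ.le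
      _ = (1 + R) ^ γ * (2 + ‖z‖) ^ γ := Real.mul_rpow (by linarith only [hR0]) (by positivity)
      _ ≤ (1 + R) * (2 + ‖z‖) ^ γ := by
          apply mul_le_mul_of_nonneg_right _ (by positivity)
          calc (1 + R) ^ γ ≤ (1 + R) ^ (1 : ℝ) := Real.rpow_le_rpow_of_exponent_le (by linarith only [hR0]) hγ1.le
            _ = 1 + R := Real.rpow_one _
  have hy1 : |y| ≤ |z.im| + R := by
    rw [hy, Complex.sub_im]
    refine (abs_sub _ _).trans ?_
    have := Complex.abs_im_le_norm a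
    linarith only [haR, this]
  have hy2 : |z.im| - R ≤ |y| := by
    rw [hy, Complex.sub_im]
    have h1 := abs_sub_abs_le_abs_sub z.im a.im
    have := Complex.abs_im_le_norm a
    linarith only [haR, h1, this]
  have hcmp := abs_le.1 (hCc (F z) (hm.cl.ent.mem z))
  rw [hm.cl.nm z, norm_one, Real.log_one, sub_zero] at hcmp
  have hCabs := le_abs_self Cc
  have hlin : ∀ i, |G.lam i (F z) - lin Complex.I a (β i) (β' i) z| ≤ B * ((1 + R) * p) := fun i =>
    (hfit.2.2 z (Set.mem_univ z) i).trans (mul_le_mul_of_nonneg_left hpa hB.le)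
  have hb1 : ∀ i, (1 : ℝ) ≤ G.b i := fun i => by exact_mod_cast hG.b_pos i
  have hnn : ∀ i, 0 ≤ β i ∧ 0 ≤ β' i := hfit.2.1
  have hup : ∀ i, lin Complex.I a (β i) (β' i) z ≤ (|β i| + |β' i|) * |y| := by
    intro i
    unfold lin
    rw [hyy]
    have e1 : max y 0 ≤ |y| := max_le (le_abs_self y) (abs_nonneg y)
    have e2 : max (-y) 0 ≤ |y| := max_le (neg_le_abs y) (abs_nonneg y)
    have e3 : β i * max y 0 ≤ |β i| * |y| := mul_le_mul (le_abs_self _) e1 (le_max_right _ _) (abs_nonneg _)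
    have e4 : β' i * max (-y) 0 ≤ |β' i| * |y| := mul_le_mul (le_abs_self _) e2 (le_max_right _ _) (abs_nonneg _)
    linarith only [e3, e4]
  have hlow : A' * |y| ≤ ∑ i, (G.b i : ℝ) * lin Complex.I a (β i) (β' i) z := by
    have e1 : ∑ i, lin Complex.I a (β i) (β' i) z ≤ ∑ i, (G.b i : ℝ) * lin Complex.I a (β i) (β' i) z := by
      apply Finset.sum_le_sum
      intro i _
      have e2 : 0 ≤ lin Complex.I a (β i) (β' i) z := by
        unfold lin
        have := hnn i
        have := le_max_right (yy Complex.I a z) 0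
        have := le_max_right (-yy Complex.I a z) 0
        linarith only [mul_nonneg (hnn i).1 (le_max_right (yy Complex.I a z) 0), mul_nonneg (hnn i).2 (le_max_right (-yy Complex.I a z) 0)]
      nlinarith only [e2, hb1 i]
    refine le_trans ?_ e1
    unfold lin
    rw [hyy, Finset.sum_add_distrib, ← Finset.sum_mul, ← Finset.sum_mul]
    rcases le_total 0 y with h1 | h1
    · rw [abs_of_nonneg h1, max_eq_left h1, max_eq_right (by linarith only [h1]), mul_zero, add_zero]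
      exact mul_le_mul_of_nonneg_right hm.sum h1
    · rw [abs_of_nonpos h1, max_eq_right h1, max_eq_left (by linarith only [h1]), mul_zero, zero_add]
      exact mul_le_mul_of_nonneg_right hm.sum' (by linarith only [h1])
  have hsum1 : ∑ i, (G.b i : ℝ) * G.lam i (F z) ≤ S * |y| + b * (B * ((1 + R) * p)) := by
    rw [hS, hb, Finset.sum_mul, Finset.sum_mul, ← Finset.sum_add_distrib]
    apply Finset.sum_le_sum
    intro i _
    have e1 := (abs_le.1 (hlin i)).2
    have e2 := hup i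
    have e3 : G.lam i (F z) ≤ (|β i| + |β' i|) * |y| + B * ((1 + R) * p) := by linarith only [e1, e2]
    calc (G.b i : ℝ) * G.lam i (F z) ≤ (G.b i : ℝ) * ((|β i| + |β' i|) * |y| + B * ((1 + R) * p)) :=
          mul_le_mul_of_nonneg_left e3 (by positivity)
      _ = _ := by ring
  have hsum2 : ∑ i, (G.b i : ℝ) * lin Complex.I a (β i) (β' i) z - b * (B * ((1 + R) * p)) ≤ ∑ i, (G.b i : ℝ) * G.lam i (F z) := by
    rw [hb, Finset.sum_mul, ← Finset.sum_sub_distrib]
    apply Finset.sum_le_sum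
    intro i _
    have e1 := (abs_le.1 (hlin i)).1
    have e3 : lin Complex.I a (β i) (β' i) z - B * ((1 + R) * p) ≤ G.lam i (F z) := by linarith only [e1]
    calc _ = (G.b i : ℝ) * (lin Complex.I a (β i) (β' i) z - B * ((1 + R) * p)) := by ring
      _ ≤ _ := mul_le_mul_of_nonneg_left e3 (by positivity)
  have hz0 : 0 ≤ |z.im| := abs_nonneg _
  have hRp : R ≤ R * p := le_mul_of_one_le_right hR0 hp1
  have hCp : |Cc| ≤ |Cc| * p := le_mul_of_one_le_right (abs_nonneg _) hp1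
  have hARp : A' * R ≤ A' * R * p := le_mul_of_one_le_right (by positivity) hp1
  have hbB : 0 ≤ b * B * (1 + R) := by positivity
  constructor
  · -- lower bound
    have e1 : A' * |z.im| - C * p ≤ G.h * Real.log ‖F z‖ := by
      have e2 : A' * (|z.im| - R) ≤ A' * |y| := mul_le_mul_of_nonneg_left hy2 hA'.le
      have e3 : 0 ≤ S * (1 + R) * p := by positivity
      have e4 : C * p = S * (1 + R) * p + b * (B * ((1 + R) * p)) + |Cc| * p + A' * R * p := by rw [hC]; ring
      rw [e4]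
      linarith only [hcmp, hCabs, hlow, hsum2, hCp, hARp, e2, e3]
    have e5 : A' / G.h * |z.im| - C * p ≤ (A' * |z.im| - C * p) / G.h := by
      rw [sub_div, div_mul_eq_mul_div]
      have : C * p / G.h ≤ C * p := div_le_self (by positivity) hh
      linarith only [this]
    refine e5.trans ?_
    rw [div_le_iff₀ hh0]
    linarith only [e1]
  · have e1 : G.h * Real.log ‖F z‖ ≤ C * (|z.im| + p) := by
      have e2 : S * |y| ≤ S * (|z.im| + R) := mul_le_mul_of_nonneg_left hy1 hS0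
      have e3 : S * R ≤ S * R * p := le_mul_of_one_le_right (by positivity) hp1
      have e4 : C * (|z.im| + p) = C * |z.im| + (S * p + S * R * p + b * (B * ((1 + R) * p)) + |Cc| * p + A' * R * p) := by rw [hC]; ring
      have e5 : S * |z.im| ≤ C * |z.im| := by
        apply mul_le_mul_of_nonneg_right _ hz0
        have : 0 ≤ S * R := by positivity
        have : 0 ≤ A' * R := by positivity
        have := abs_nonneg Cc
        rw [hC]
        nlinarith
      rw [e4]
      have e6 : 0 ≤ S * p := by positivity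
      have e7 : 0 ≤ A' * R * p := by positivity
      linarith only [hcmp, hCabs, hsum1, hCp, e2, e3, e5, e6, e7]
    have e8 : 0 ≤ C * (|z.im| + p) := by positivity
    by_contra hcon
    push Not at hcon
    have e9 : C * (|z.im| + p) < G.h * Real.log ‖F z‖ := by nlinarith only [hh, e8, hcon]
    linarith only [e1, e9]

end Pool.Agent.SR3.G

end
end

section

/-!
# SR3 G MemT: translations, rotations and the mirror image of the curves of the class
-/

set_option autoImplicit false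

open Topology Filter Metric

noncomputable section

namespace Pool.Agent.SR3.G

open Pool.Agent.H36.BP (EN)
open Pool.Agent.SR3 (Geo)
open Pool.Agent.SR3.Geo (Gd)
open Pool.Agent.H14.PP (Tan)

variable {N : ℕ} {G : Geo N} {T : Set (EN N)} {rho : EN N → ℝ} {δ γ A' B : ℝ} {β β' : G.ι → ℝ} {q : G.J → ℂ} {F : ℂ → EN N} {𝒬 : Set (EN N → ℂ)}

theorem cl_tan (hG : G.Ok) (h : G.Cl T q F) (z : ℂ) : Tan G.X (F z) (deriv F z) := by
  refine ⟨fun w => F (w + z), ⟨?_, ?_⟩, by simp, ?_⟩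
  · exact ((h.ent.diff.comp (differentiable_id.add_const z)).analyticAt 0)
  · exact Eventually.of_forall fun w => ((hG.aff.mem _).1 (h.ent.mem _)).1
  · rw [deriv_comp_add_const]; simp

theorem cl_sh (h : G.Cl T q F) (a : ℂ) : G.Cl T q (sh a F) := by
  refine ⟨⟨h.ent.diff.comp (differentiable_id.add_const a), fun z => h.ent.mem _, ?_⟩, fun z => h.nm _, fun j z => ?_, h.one⟩
  · obtain ⟨z, hz⟩ := h.ent.out
    exact ⟨z - a, by simpa [sh] using hz⟩
  · have h1 : deriv (sh a F) z = deriv F (z + a) := deriv_comp_add_const ..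
    rw [h1]
    exact h.val j _

theorem mem_Gd_sh {a b : ℂ} : b ∈ Gd rho δ (sh a F) ↔ b + a ∈ Gd rho δ F := Iff.rfl

theorem mem_sh (hm : Mem G T rho δ γ A' B β β' q F) (a : ℂ) : Mem G T rho δ γ A' B β β' q (sh a F) := by
  obtain ⟨a₀, ha₀, hu, hβ, hf⟩ := hm.fits
  refine ⟨cl_sh hm.cl a, hm.sum, hm.sum', a₀ - a, ?_, hu, hβ, fun z _ i => ?_⟩
  · rw [mem_Gd_sh, sub_add_cancel]
    exact ha₀
  · have h1 := hf (z + a) (Set.mem_univ _) i
    have h2 : z + a - a₀ = z - (a₀ - a) := by ring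
    simp only [Pool.Agent.SR3.lin, Pool.Agent.SR3.yy, sh] at h1 ⊢
    rw [h2] at h1
    exact h1

theorem nq_rot {v : ℂ} (hv : ‖v‖ = 1) (q : G.J → ℂ) : G.nq (fun j => v ^ G.m j * q j) = G.nq q := by
  simp [Geo.nq, hv]

theorem cl_rot (hG : G.Ok) (h : G.Cl T q F) {v : ℂ} (hv : ‖v‖ = 1) : G.Cl T (fun j => v ^ G.m j * q j) (fun z => F (v * z)) := by
  have hv0 : v ≠ 0 := by
    rintro rfl
    simp at hv
  refine ⟨⟨h.ent.diff.comp (differentiable_id.const_mul v), fun z => h.ent.mem _, ?_⟩, fun z => h.nm _, fun j z => ?_, ?_⟩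
  · obtain ⟨z, hz⟩ := h.ent.out
    exact ⟨v⁻¹ * z, by simpa [mul_inv_cancel_left₀ hv0] using hz⟩
  · have h1 : deriv (fun z => F (v * z)) z = v • deriv F (v * z) := deriv_comp_mul_left v F z
    rw [h1, hG.w_hom j _ (h.ent.mem _) _ (cl_tan hG h _) v, h.val]
  · rw [nq_rot hv]
    exact h.one

/-- rotate the line to the horizontal one -/
theorem exists_mem (hG : G.Ok) (hs : Str G T rho δ γ A' B) (h : G.Cl T q F) {a : ℂ} (ha : a ∈ Gd rho δ F) :
    ∃ (v : ℂ) (β β' : G.ι → ℝ), ‖v‖ = 1 ∧ Mem G T rho δ γ A' B β β' (fun j => v ^ G.m j * q j) (fun z => F (v * z)) := by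
  obtain ⟨u, β, β', ⟨hu, hβ, hf⟩, h1, h2⟩ := hs.fits q F h a ha
  have hv : ‖star Complex.I * u‖ = 1 := by simp [hu]
  have hv0 : star Complex.I * u ≠ 0 := by
    intro h0
    rw [h0] at hv
    simp at hv
  have huu : star u * u = 1 := by
    have h3 := Complex.conj_mul' u
    rw [hu] at h3
    simpa using h3
  refine ⟨star Complex.I * u, β, β', hv, cl_rot hG h hv, h1, h2, (star Complex.I * u)⁻¹ * a, ?_, by simp, hβ, fun z _ i => ?_⟩
  · show δ ≤ rho (F (star Complex.I * u * ((star Complex.I * u)⁻¹ * a)))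
    rw [mul_inv_cancel_left₀ hv0]
    exact ha
  · have h3 := hf (star Complex.I * u * z) (Set.mem_univ _) i
    have h4 : star Complex.I * u * z - a = star Complex.I * u * (z - (star Complex.I * u)⁻¹ * a) := by
      rw [mul_sub, mul_inv_cancel_left₀ hv0]
    have h5 : star u * (star Complex.I * u * z - a) = star Complex.I * (z - (star Complex.I * u)⁻¹ * a) := by
      rw [h4]
      calc star u * (star Complex.I * u * (z - (star Complex.I * u)⁻¹ * a))
          = (star u * u) * (star Complex.I * (z - (star Complex.I * u)⁻¹ * a)) := by ring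
        _ = _ := by rw [huu, one_mul]
    have h6 : ‖star Complex.I * u * z - a‖ = ‖z - (star Complex.I * u)⁻¹ * a‖ := by
      rw [h4, norm_mul, hv, one_mul]
    simp only [Pool.Agent.SR3.lin, Pool.Agent.SR3.yy] at h3 ⊢
    rw [h5, h6] at h3
    exact h3

theorem mem_ng (hG : G.Ok) (hm : Mem G T rho δ γ A' B β β' q F) : Mem G T rho δ γ A' B β' β (fun j => (-1) ^ G.m j * q j) (ng F) := by
  obtain ⟨a, ha, hu, hβ, hf⟩ := hm.fits
  have h1 : (fun z => F (-1 * z)) = ng F := by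
    funext z
    simp [ng]
  refine ⟨?_, hm.sum', hm.sum, -a, ?_, hu, fun i => ⟨(hβ i).2, (hβ i).1⟩, fun z _ i => ?_⟩
  · rw [← h1]
    exact cl_rot hG hm.cl (by simp)
  · show δ ≤ rho (F (- -a))
    rw [neg_neg]
    exact ha
  · have h3 := hf (-z) (Set.mem_univ _) i
    have h4 : -z - a = -(z - -a) := by ring
    simp only [Pool.Agent.SR3.lin, Pool.Agent.SR3.yy, ng] at h3 ⊢
    rw [h4, norm_neg, mul_neg, Complex.neg_re, neg_neg, add_comm (β i * _)] at h3
    exact h3

theorem ng_ng (F : ℂ → EN N) : ng (ng F) = F := by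
  funext z
  simp [ng]

theorem ng_KF (hG : G.Ok) : ng '' KF G T rho δ γ A' B β β' q 𝒬 = KF G T rho δ γ A' B β' β (fun j => (-1) ^ G.m j * q j) 𝒬 := by
  ext H
  constructor
  · rintro ⟨F, ⟨hF, hQ⟩, rfl⟩
    refine ⟨mem_ng hG hF, fun Q hQ' => ?_⟩
    obtain ⟨z, hz⟩ := hQ Q hQ'
    exact ⟨-z, by simpa [ng] using hz⟩
  · rintro ⟨hH, hQ⟩
    refine ⟨ng H, ⟨?_, fun Q hQ' => ?_⟩, ng_ng H⟩
    · have h1 := mem_ng hG hH
      have h2 : (fun j => (-1 : ℂ) ^ G.m j * ((-1) ^ G.m j * q j)) = q := by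
        funext j
        rw [← mul_assoc, ← mul_pow]
        simp
      rw [h2] at h1
      exact h1
    · obtain ⟨z, hz⟩ := hQ Q hQ'
      exact ⟨-z, by simpa [ng] using hz⟩

theorem cl_deriv_ne (hG : G.Ok) (h : G.Cl T q F) (z : ℂ) : deriv F z ≠ 0 := by
  intro h0
  have h1 : ∀ j, q j = 0 := fun j => by
    have h2 := hG.w_hom j _ (h.ent.mem z) _ (cl_tan hG h z) 0
    rw [h0, smul_zero, zero_pow (by have := hG.one_m j; omega), zero_mul, ← h0, h.val] at h2
    exact h2
  have h2 := h.one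
  have h3 : G.nq q = 0 := by
    refine Finset.sum_eq_zero fun j _ => ?_
    rw [h1 j, norm_zero, Real.zero_rpow]
    have := hG.one_m j
    positivity
  rw [h3] at h2
  exact zero_ne_one h2

end Pool.Agent.SR3.G

end
end
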