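import Pool.Agent.H43.TL2.M141
import Pool.Agent.H43.TL2.M154
import Pool.Agent.H43.TL2.M158
import Pool.Agent.H43.TL2.M166
import Pool.Agent.H43.TL2.M189
import Pool.Agent.H43.TL2.M30
import Pool.Agent.H43.TL2.M47
import Pool.Agent.H43.TL2.M48
import Pool.Agent.H43.TL2.M54
import Pool.Agent.H43.TL2.SR3.ABd
import Pool.Agent.H43.TL2.SR3.ATh

/-! The parts of this file: H17EF.MainE, H14.TS.Fin, SR3.F.Pass, SR3.Gens, SR3.NC.FinZ, SR3.G.MemD, SR3.F.CmpInf, SR3.G.LogF, SR3.G.MemC, SR3.G.Cov, SR3.G.MemS, SR3.G.TubC, SR3.ACp. -/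

section

/-!
# EF MainE: surfaces of general type with a map to an elliptic curve
-/

set_option autoImplicit false

open Topology Filter MvPolynomial Metric

noncomputable section

namespace Pool.Agent.H17EF

attribute [-instance] ProperSMul.toContinuousSMul

open Pool.Agent.H17 (PN VanishesAt HolomorphicInto ZariskiClosedIn)
open Pool.Agent.H62.FC (Homog)
open Pool.Agent.H17BP (Surface IsChart IsForm NoZeros)
open Pool.Agent.H17LG.Variety (FunField IsLogGeneralType)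
open Pool.Agent.H13.SM (cone)
open Pool.Agent.H36.BP (EN fs wd formT isCone_transport germ_transport tan_transport OrdTwo)
open Pool.Agent.H14.PP (IsCone Chart Form)

variable {N : ℕ}

section core

variable {P : Ideal (MvPolynomial (Fin (N + 1)) ℂ)} [P.IsPrime] {z : Fin 2 → FunField P}

/-- general type -/
def GT (P : Ideal (MvPolynomial (Fin (N + 1)) ℂ)) [P.IsPrime] (k : ℕ) : Prop :=
  IsLogGeneralType (K := FunField P) (k := k) (fun _ => False)

/-- orders for the two norms -/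
theorem ordTwo_symm {F : ℂ → EN N} (h : OrdTwo F) : OrdTwo fun z => (LE N).symm (F z) := by
  set M : ℝ := max ‖((LE N : (Fin (N + 1) → ℂ) →L[ℂ] EN N))‖ 1 with hM
  have hM0 : 0 < M := lt_of_lt_of_le one_pos (le_max_right _ _)
  refine OrdTwo.map ((LE N).symm : EN N →L[ℂ] (Fin (N + 1) → ℂ)) h (c := M⁻¹) (inv_pos.mpr hM0) fun x => ?_
  rw [inv_mul_le_iff₀ hM0]
  have h1 := (LE N : (Fin (N + 1) → ℂ) →L[ℂ] EN N).le_opNorm ((LE N).symm x)
  have h2 : (LE N : (Fin (N + 1) → ℂ) →L[ℂ] EN N) ((LE N).symm x) = x := (LE N).apply_symm_apply x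
  rw [h2] at h1
  exact h1.trans (mul_le_mul_of_nonneg_right (le_max_left _ _) (norm_nonneg _))

end core

end Pool.Agent.H17EF

end
end

section

/-!
# TS Fin: a form has finitely many zeros on a curve
-/

set_option autoImplicit false

open MvPolynomial Topology Filter
open Pool.Agent.H17 (PN VanishesAt HolomorphicInto)
open Pool.Agent.H62.FC (Homog exists_fin_basis homog_of_minimal)
open Pool.Agent.H17LG.Variety (FunField)
open Pool.Agent.H17EF (projVar)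
open Pool.Agent.H17BP (mapIdeal mapIdeal_isPrime mem_mapIdeal_form trdeg_lt eq_of_trdeg_zero)

noncomputable section

namespace Pool.Agent.H14.TS

variable {N : ℕ}

theorem const_holomorphicInto (x : PN N) : HolomorphicInto (fun _ : ℂ => x) Set.univ := by
  intro z _
  exact ⟨fun _ => x.rep, analyticAt_const, Eventually.of_forall fun _ => ⟨x.rep_nonzero, x.mk_rep.symm⟩⟩

/-- A form which is not zero on a curve has finitely many zeros on it. -/
theorem finite_zeros {Q : Ideal (MvPolynomial (Fin (N + 1)) ℂ)} [Q.IsPrime] (hQ : Homog Q)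
    (hz : ∃ z : Fin 1 → FunField Q, IsTranscendenceBasis ℂ z) {R : MvPolynomial (Fin (N + 1)) ℂ} {n : ℕ} (hR : R.IsHomogeneous n)
    (hRQ : R ∉ Q) : {x | x ∈ projVar Q ∧ VanishesAt R x}.Finite := by
  classical
  set κ : Type := {l : MvPolynomial (Fin (N + 1)) ℂ × ℕ // l.1.IsHomogeneous l.2 ∧ (l.1 ∈ Q ∨ l.1 = R)} with hκ
  set A : κ → MvPolynomial (Fin (N + 1)) ℂ := fun l => l.1.1 with hA
  have hAh : ∀ l, (A l).IsHomogeneous (l.1.2) := fun l => l.2.1
  have hQI : Q ≤ Ideal.span (Set.range A) := by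
    intro p hp
    rw [← MvPolynomial.sum_homogeneousComponent p]
    refine Ideal.sum_mem _ fun i _ => Ideal.subset_span ⟨⟨(homogeneousComponent i p, i), homogeneousComponent_isHomogeneous i p, Or.inl (hQ p hp i)⟩, rfl⟩
  have hRI : R ∈ Ideal.span (Set.range A) := Ideal.subset_span ⟨⟨(R, n), hR, Or.inr rfl⟩, rfl⟩
  have hfin := Ideal.finite_minimalPrimes_of_isNoetherianRing _ (Ideal.span (Set.range A))
  refine (hfin.biUnion (t := fun J => projVar J) fun J hJ => ?_).subset fun x hx => ?_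
  · apply Set.Subsingleton.finite
    intro x hx y hy
    have hJp : J.IsPrime := hJ.1.1
    have hJh : Homog J := homog_of_minimal hAh hJ
    have hQJ : Q ≤ J := hQI.trans hJ.1.2
    have hRJ : R ∈ J := hJ.1.2 hRI
    have hX : ∃ i, (X i : MvPolynomial (Fin (N + 1)) ℂ) ∉ J := by
      by_contra hcon
      push Not at hcon
      apply x.rep_nonzero
      funext i
      have h1 : VanishesAt (X i : MvPolynomial (Fin (N + 1)) ℂ) x := hx _ (hcon i) 1 (isHomogeneous_X ℂ i)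
      have h2 : eval x.rep (X i : MvPolynomial (Fin (N + 1)) ℂ) = 0 := h1
      rw [eval_X] at h2
      exact h2
    obtain ⟨w, hw⟩ := exists_fin_basis hX
    have h1 := trdeg_lt hQ hJh hQJ (fun h => hRQ (h hRJ)) hX hz hw
    obtain rfl : w = 0 := by omega
    exact eq_of_trdeg_zero hJh hX hw x ⟨hx, fun m => m.elim0⟩ y ⟨hy, fun m => m.elim0⟩
  · have hp := mapIdeal_isPrime isOpen_univ isPreconnected_univ ⟨(0 : ℂ), Set.mem_univ _⟩ (const_holomorphicInto x)
    have hle : Ideal.span (Set.range A) ≤ mapIdeal (fun _ : ℂ => x) Set.univ := by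
      rw [Ideal.span_le]
      rintro _ ⟨l, rfl⟩
      refine (mem_mapIdeal_form (hAh l)).2 fun z _ => ?_
      rcases l.2.2 with h | h
      · exact hx.1 _ h _ (hAh l)
      · have h1 : A l = R := h
        rw [h1]
        exact hx.2
    obtain ⟨J, hJ, hJle⟩ := Ideal.exists_minimalPrimes_le hle
    refine Set.mem_biUnion hJ fun G hG m hm => ?_
    exact (mem_mapIdeal_form hm).1 (hJle hG) 0 (Set.mem_univ _)

end Pool.Agent.H14.TS

end
end

section

/-!
# SR3 F Pass: from the good points into the static region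

`W = -m + (m + Q R) (|z - a|² + A (C₂ R rh - rh²)) / R²` on `closedBall a R`, in `bar_ball`; `rh ≤ C₂ R / 2` there,
`Δ (C₂ R rh - rh²) ≤ - 2 Pool.Agent.H30M.gg (rh) (rh) ≤ - 2 c`.
-/

set_option autoImplicit false

open Topology Filter Metric Laplacian InnerProductSpace

noncomputable section

namespace Pool.Agent.SR3.F

open Pool.Agent.H30M (gg lap_add lap_sub lap_mul lap_const_mul)

theorem contDiff_nsq (a : ℂ) : ContDiff ℝ 2 fun w : ℂ => ‖w - a‖ ^ 2 := (contDiff_id.sub contDiff_const).norm_sq ℝ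

theorem lap_nsq (a z : ℂ) : Δ (fun w : ℂ => ‖w - a‖ ^ 2) z = 4 := by
  have hA : AnalyticAt ℂ (fun w : ℂ => w - a) z := analyticAt_id.sub analyticAt_const
  rw [← MQ.lp_eq_lap (contDiff_nsq a).contDiffAt, MQ.lp_sqnorm hA]
  simp

variable {V : Type} [NormedAddCommGroup V] [InnerProductSpace ℂ V] [CompleteSpace V]

/-- MODULE Pass.  `W = -m + (m + Q R) (|z - a|² + A (C₂ R rh - rh²)) / R²` on `closedBall a R`, in `bar_ball`; `rh ≤ C₂ R / 2` there,
`Δ (C₂ R rh - rh²) ≤ - 2 Pool.Agent.H30M.gg (rh) (rh) ≤ - 2 c`. -/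
theorem pass {κ c B : ℝ} (hκ : 1 ≤ κ) (hc : 0 < c) (hB : 1 ≤ B) : ∃ κ' K : ℝ, κ ≤ κ' ∧ 0 ≤ K ∧ ∀ r d : ℂ → ℝ, Pot r d κ c B →
    ∀ U : ℂ → V, Differentiable ℂ U → ∀ (a : ℂ) (R m Q : ℝ), 1 ≤ R → d a ≤ R → 0 ≤ m + Q * R →
      (∀ z ∈ closedBall a R, d z ≤ κ' → ‖U z‖ ≤ Real.exp (-m)) → (∀ z ∈ closedBall a R, ‖U z‖ ≤ Real.exp (Q * R)) →
        ‖U a‖ ≤ Real.exp (-m + K * (m + Q * R) * (1 + d a) / R) := by
  obtain ⟨A₀, κ', B', hA₀, hκκ', hB', hhat⟩ := exists_hat hκ hc hB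
  refine ⟨κ', 24 * B' ^ 2 / c, hκκ', by positivity, ?_⟩
  intro r d hP U hU a R m Q hR hda hmQ hgood hall
  set rr := rh A₀ r with hrr
  have hH : Hat rr d κ' c B' := hhat r d hP
  have hR0 : 0 < R := by linarith
  rcases hmQ.eq_or_lt with h0 | hmQ0
  · have h1 := hall a (mem_closedBall_self hR0.le)
    have h2 : -m + 24 * B' ^ 2 / c * (m + Q * R) * (1 + d a) / R = Q * R := by
      rw [← h0]
      simp only [mul_zero, zero_mul, zero_div, add_zero]
      linarith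
    rw [h2]
    exact h1
  -- the barrier
  set k : ℝ := (m + Q * R) / R ^ 2 with hk
  have hk0 : 0 < k := by positivity
  have hsm : ContDiff ℝ 2 rr := hH.smooth
  have hv : ContDiff ℝ 2 fun w : ℂ => ((6 * B' * R) * rr w - rr w * rr w : ℝ) := (contDiff_const.mul hsm).sub (hsm.mul hsm)
  have hW : ContDiff ℝ 2 fun w : ℂ => (-m + k * (‖w - a‖ ^ 2 + 4 / c * ((6 * B' * R) * rr w - rr w * rr w)) : ℝ) :=
    contDiff_const.add (contDiff_const.mul ((contDiff_nsq a).add (contDiff_const.mul hv)))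
  have hlap : ∀ w : ℂ, Δ (fun w : ℂ => (-m + k * (‖w - a‖ ^ 2 + 4 / c * ((6 * B' * R) * rr w - rr w * rr w)) : ℝ)) w =
      k * (4 + 4 / c * ((6 * B' * R) * Δ rr w - (rr w * Δ rr w + rr w * Δ rr w + 2 * Pool.Agent.H30M.gg rr rr w))) := by
    intro w
    have h1 : Δ (fun _ : ℂ => -m) w = 0 := by simp
    rw [lap_add contDiff_const.contDiffAt (contDiff_const.mul ((contDiff_nsq a).add (contDiff_const.mul hv))).contDiffAt, h1, zero_add,
      lap_const_mul ((contDiff_nsq a).add (contDiff_const.mul hv)).contDiffAt,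
      lap_add (contDiff_nsq a).contDiffAt (contDiff_const.mul hv).contDiffAt, lap_nsq, lap_const_mul hv.contDiffAt,
      lap_sub (contDiff_const.mul hsm).contDiffAt (hsm.mul hsm).contDiffAt, lap_const_mul hsm.contDiffAt, lap_mul hsm.contDiffAt hsm.contDiffAt]
  -- bounds of `rr` on the ball
  have hrr0 : ∀ w, 0 < rr w := fun w => zero_lt_one.trans_le (hH.one_le w)
  have hrrR : ∀ w ∈ closedBall a R, rr w ≤ 3 * B' * R := by
    intro w hw
    rw [mem_closedBall, dist_eq_norm] at hw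
    have h1 := hH.le w
    have h2 : d w ≤ 2 * R := by
      have h3 := (abs_le.1 (hH.lip w a)).2
      linarith
    calc rr w ≤ B' * (1 + d w) := h1
      _ ≤ B' * (3 * R) := mul_le_mul_of_nonneg_left (by linarith) (by linarith)
      _ = 3 * B' * R := by ring
  have hv0 : ∀ w ∈ closedBall a R, 0 ≤ (6 * B' * R) * rr w - rr w * rr w := by
    intro w hw
    have h1 := hrrR w hw
    have h2 := hrr0 w
    nlinarith
  have hmain := bar_ball (U := U) hU (a := a) (R := R) (fun z _ => hW.contDiffAt) (E := {w | κ' ≤ d w}) ?_ ?_ ?_ a (mem_closedBall_self hR0.le)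
  · refine hmain.trans (Real.exp_le_exp.2 ?_)
    rw [sub_self, norm_zero]
    have h1 : (6 * B' * R) * rr a - rr a * rr a ≤ 6 * B' * R * (B' * (1 + d a)) := by
      have h2 := hH.le a
      have h3 := hrr0 a
      have h4 : (6 * B' * R) * rr a ≤ 6 * B' * R * (B' * (1 + d a)) := mul_le_mul_of_nonneg_left h2 (by positivity)
      nlinarith
    have h2 : k * (0 ^ 2 + 4 / c * ((6 * B' * R) * rr a - rr a * rr a)) ≤ k * (4 / c * (6 * B' * R * (B' * (1 + d a)))) := by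
      refine mul_le_mul_of_nonneg_left ?_ hk0.le
      have h3 : 4 / c * ((6 * B' * R) * rr a - rr a * rr a) ≤ 4 / c * (6 * B' * R * (B' * (1 + d a))) :=
        mul_le_mul_of_nonneg_left h1 (by positivity)
      linarith
    have h3 : k * (4 / c * (6 * B' * R * (B' * (1 + d a)))) = 24 * B' ^ 2 / c * (m + Q * R) * (1 + d a) / R := by
      rw [hk]
      field_simp
      ring
    linarith
  · intro w hw hwE
    have hwE' : κ' ≤ d w := hwE
    rw [hlap]
    refine mul_neg_of_pos_of_neg hk0 ?_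
    have h1 := hH.lap w hwE'
    have h2 := hH.grad w hwE'
    have h3 := hrrR w (ball_subset_closedBall hw)
    have h4 : (6 * B' * R - 2 * rr w) * Δ rr w ≤ 0 := mul_nonpos_of_nonneg_of_nonpos (by linarith) h1
    have h5 : (6 * B' * R) * Δ rr w - (rr w * Δ rr w + rr w * Δ rr w + 2 * Pool.Agent.H30M.gg rr rr w) ≤ -(2 * c) := by nlinarith
    have h6 : 4 / c * ((6 * B' * R) * Δ rr w - (rr w * Δ rr w + rr w * Δ rr w + 2 * Pool.Agent.H30M.gg rr rr w)) ≤ 4 / c * -(2 * c) :=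
      mul_le_mul_of_nonneg_left h5 (by positivity)
    have h7 : 4 / c * -(2 * c) = -8 := by
      field_simp
      norm_num
    linarith
  · intro w hw hwE
    have hwE' : d w ≤ κ' := by
      by_contra hne
      exact hwE (not_le.1 hne).le
    refine (hgood w hw hwE').trans (Real.exp_le_exp.2 ?_)
    have h1 := hv0 w hw
    have h2 : 0 ≤ k * (‖w - a‖ ^ 2 + 4 / c * ((6 * B' * R) * rr w - rr w * rr w)) := by positivity
    linarith
  · intro w hw
    have hw' : ‖w - a‖ = R := by rwa [mem_sphere, dist_eq_norm] at hw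
    refine (hall w (sphere_subset_closedBall hw)).trans (Real.exp_le_exp.2 ?_)
    have h1 := hv0 w (sphere_subset_closedBall hw)
    rw [hw']
    have h2 : k * R ^ 2 ≤ k * (R ^ 2 + 4 / c * ((6 * B' * R) * rr w - rr w * rr w)) := by
      refine mul_le_mul_of_nonneg_left ?_ hk0.le
      have : 0 ≤ 4 / c * ((6 * B' * R) * rr w - rr w * rr w) := by positivity
      linarith
    have h3 : k * R ^ 2 = m + Q * R := by
      rw [hk]
      field_simp
    linarith

end Pool.Agent.SR3.F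

end
end

section

/-!
# SR3 Gens: generators of one degree

`Q i * X a ^ (D - d i)` for homogeneous generators `Q i` of `I`, of degree `d i ≤ D`.
-/

set_option autoImplicit false

open Topology Filter Metric MvPolynomial

noncomputable section

namespace Pool.Agent.SR3

open Pool.Agent.H17 (PN VanishesAt HolomorphicInto)
open Pool.Agent.H62.FC (Homog)
open Pool.Agent.H17LG.Variety (FunField)
open Pool.Agent.H13.SM (conTan)

variable {N : ℕ}

variable {P : Ideal (MvPolynomial (Fin (N + 1)) ℂ)} {H : MvPolynomial (Fin (N + 1)) ℂ} {h : ℕ}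

/-- the product rule -/
private theorem Gens_mul (x v : Fin (N + 1) → ℂ) (f g : MvPolynomial (Fin (N + 1)) ℂ) :
    ∑ i, v i * eval x (pderiv i (f * g)) = (∑ i, v i * eval x (pderiv i f)) * eval x g + eval x f * ∑ i, v i * eval x (pderiv i g) := by
  rw [Finset.sum_mul, Finset.mul_sum, ← Finset.sum_add_distrib]
  refine Finset.sum_congr rfl fun i _ => ?_
  rw [Derivation.leibniz, map_add, smul_eq_mul, smul_eq_mul, map_mul, map_mul]
  ring

/-- MODULE N5 (Gens.lean): `Q i * X a ^ (D - d i)` for homogeneous generators `Q i` of `I`, of degree `d i ≤ D` -/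
theorem exists_gens [P.IsPrime] {I : Ideal (MvPolynomial (Fin (N + 1)) ℂ)} (hX : ∃ i, (X i : MvPolynomial (Fin (N + 1)) ℂ) ∉ P) (hI : Homog I)
    (hne : ¬ I ≤ P) :
    ∃ (t D : ℕ) (R' : Fin t → MvPolynomial (Fin (N + 1)) ℂ), (∀ l, (R' l).IsHomogeneous D) ∧ (∀ l, R' l ∈ I) ∧ (∃ l, R' l ∉ P) ∧
      ∀ x : Fin (N + 1) → ℂ, x ≠ 0 → (∀ l, eval x (R' l) = 0) → (∀ Q ∈ I, eval x Q = 0) ∧
        ∀ v : Fin (N + 1) → ℂ, (∀ l, ∑ i, v i * eval x (pderiv i (R' l)) = 0) → v ∈ conTan I x := by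
  classical
  obtain ⟨s, hs⟩ := (isNoetherianRing_iff_ideal_fg _).1 (inferInstance : IsNoetherianRing (MvPolynomial (Fin (N + 1)) ℂ)) I
  have hsI : ∀ f ∈ s, f ∈ I := fun f hf => hs ▸ Ideal.subset_span hf
  obtain ⟨D, hD⟩ : ∃ D : ℕ, ∀ f ∈ s, f.totalDegree ≤ D := ⟨s.sup totalDegree, fun f hf => Finset.le_sup (f := totalDegree) hf⟩
  -- the homogeneous generators
  obtain ⟨Q, hQ⟩ : ∃ Q : s × Fin (D + 1) → MvPolynomial (Fin (N + 1)) ℂ, Q = fun p => homogeneousComponent (p.2 : ℕ) (p.1 : MvPolynomial (Fin (N + 1)) ℂ) :=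
    ⟨_, rfl⟩
  have hQI : ∀ p, Q p ∈ I := fun p => by
    rw [hQ]
    exact hI _ (hsI _ p.1.2) _
  have hQhom : ∀ p, (Q p).IsHomogeneous (p.2 : ℕ) := fun p => by
    rw [hQ]
    exact homogeneousComponent_isHomogeneous _ _
  have hspan : I ≤ Ideal.span (Set.range Q) := by
    rw [← hs, Ideal.span_le]
    intro f hf
    have h1 := sum_homogeneousComponent f
    rw [SetLike.mem_coe, ← h1]
    refine Ideal.sum_mem _ fun n hn => Ideal.subset_span ?_
    have h2 : n < D + 1 := (Finset.mem_range.1 hn).trans_le (Nat.succ_le_succ (hD f hf))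
    exact ⟨(⟨f, hf⟩, ⟨n, h2⟩), by rw [hQ]⟩
  obtain ⟨R, hR⟩ : ∃ R : (s × Fin (D + 1)) × Fin (N + 1) → MvPolynomial (Fin (N + 1)) ℂ, R = fun q => Q q.1 * X q.2 ^ (D - (q.1.2 : ℕ)) := ⟨_, rfl⟩
  obtain ⟨e⟩ : Nonempty ((s × Fin (D + 1)) × Fin (N + 1) ≃ Fin (Fintype.card ((s × Fin (D + 1)) × Fin (N + 1)))) := ⟨Fintype.equivFin _⟩
  refine ⟨_, D, fun l => R (e.symm l), fun l => ?_, fun l => ?_, ?_, fun x hx h0 => ?_⟩
  · obtain ⟨q, hq⟩ : ∃ q, q = e.symm l := ⟨_, rfl⟩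
    show (R (e.symm l)).IsHomogeneous D
    rw [← hq, hR]
    have h1 : (q.1.2 : ℕ) + (D - (q.1.2 : ℕ)) = D := Nat.add_sub_cancel' (Nat.lt_succ_iff.1 q.1.2.2)
    have h2 := (hQhom q.1).mul ((isHomogeneous_X ℂ q.2).pow (D - (q.1.2 : ℕ)))
    rw [one_mul, h1] at h2
    exact h2
  · show R (e.symm l) ∈ I
    rw [hR]
    exact I.mul_mem_right _ (hQI _)
  · by_contra hcon
    push Not at hcon
    obtain ⟨a, ha⟩ := hX
    refine hne (hspan.trans (Ideal.span_le.2 ?_))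
    rintro _ ⟨p, rfl⟩
    have h1 := hcon (e (p, a))
    simp only [e.symm_apply_apply, hR] at h1
    exact (Ideal.IsPrime.mem_or_mem inferInstance h1).resolve_right fun h2 => ha (Ideal.IsPrime.mem_of_pow_mem inferInstance _ h2)
  · obtain ⟨a, ha⟩ : ∃ a, x a ≠ 0 := by
      by_contra hcon
      push Not at hcon
      exact hx (funext hcon)
    have h1 : ∀ p, eval x (Q p) = 0 := by
      intro p
      have h2 := h0 (e (p, a))
      simp only [e.symm_apply_apply, hR, map_mul, map_pow, eval_X] at h2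
      exact (mul_eq_zero.1 h2).resolve_right (pow_ne_zero _ ha)
    have h2 : ∀ G ∈ I, eval x G = 0 := by
      intro G hG
      have h3 : Ideal.span (Set.range Q) ≤ RingHom.ker (eval x) := Ideal.span_le.2 (by
        rintro _ ⟨p, rfl⟩
        exact h1 p)
      exact h3 (hspan hG)
    refine ⟨h2, fun v hv => ?_⟩
    have h3 : ∀ p, ∑ i, v i * eval x (pderiv i (Q p)) = 0 := by
      intro p
      have h4 := hv (e (p, a))
      simp only [e.symm_apply_apply, hR] at h4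
      rw [Gens_mul, h1 p, zero_mul, add_zero, map_pow, eval_X] at h4
      exact (mul_eq_zero.1 h4).resolve_right (pow_ne_zero _ ha)
    intro G hG
    have h5 : ∀ f ∈ Ideal.span (Set.range Q), f ∈ I := fun f hf => (Ideal.span_le.2 (by
      rintro _ ⟨p, rfl⟩
      exact hQI p) : Ideal.span (Set.range Q) ≤ I) hf
    have h4 : G ∈ Ideal.span (Set.range Q) := hspan hG
    clear hG
    induction h4 using Submodule.span_induction with
    | mem G hG' =>
      obtain ⟨p, rfl⟩ := hG'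
      exact h3 p
    | zero => simp
    | add f g hf hg ihf ihg =>
      simp only [map_add, mul_add, Finset.sum_add_distrib, ihf, ihg, add_zero]
    | smul c f hf ihf =>
      rw [smul_eq_mul, Gens_mul, ihf, h2 f (h5 f hf), mul_zero, mul_zero, add_zero]

end Pool.Agent.SR3

end
end

section

/-!
# SR3 NC FinZ: finitely many zeros
-/

set_option autoImplicit false

open Topology Filter Metric MvPolynomial

noncomputable section

namespace Pool.Agent.SR3.NC

open Pool.Agent.H17 (PN VanishesAt HolomorphicInto)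
open Pool.Agent.H62.FC (Homog)
open Pool.Agent.H17LG.Variety (FunField)
open Pool.Agent.H17EF (projVar)

variable {N : ℕ} {J : Ideal (MvPolynomial (Fin (N + 1)) ℂ)}

/-- A form which is not in `J` has only finitely many zeros on the projective curve of `J`. -/
theorem finite_zeros [J.IsPrime] (hJ : Homog J) (hz : ∃ z : Fin 1 → FunField J, IsTranscendenceBasis ℂ z) {G : MvPolynomial (Fin (N + 1)) ℂ} {n : ℕ}
    (hG : G.IsHomogeneous n) (hGJ : G ∉ J) : {p : PN N | p ∈ projVar J ∧ VanishesAt G p}.Finite :=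
  Pool.Agent.H14.TS.finite_zeros hJ hz hG hGJ

end Pool.Agent.SR3.NC

end
end

section

/-!
# SR3 G MemD: the good points are dense along the horizontal line (helper59)
-/

set_option autoImplicit false

open Topology Filter Metric

noncomputable section

namespace Pool.Agent.SR3.G

open Pool.Agent.H36.BP (EN)
open Pool.Agent.SR3 (Geo)
open Pool.Agent.SR3.Geo (Gd)

variable {N : ℕ} {G : Geo N} {T : Set (EN N)} {rho : EN N → ℝ} {δ γ A' B : ℝ} {β β' : G.ι → ℝ} {q : G.J → ℂ} {F : ℂ → EN N} {𝒬 : Set (EN N → ℂ)}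

private theorem MemD_lin (β β' : ℝ) (a : ℂ) (t : ℝ) : Pool.Agent.SR3.lin Complex.I a β β' (a + t) = 0 := by
  have h : Pool.Agent.SR3.yy Complex.I a (a + t) = 0 := by
    simp [Pool.Agent.SR3.yy]
  simp [Pool.Agent.SR3.lin, h]

/-- `log ‖F‖` along the horizontal line through a good point -/
private theorem MemD_log (hG : G.Ok) (hs : Str G T rho δ γ A' B) :
    ∃ C : ℝ, 0 ≤ C ∧ ∀ (β β' : G.ι → ℝ) (q : G.J → ℂ) (F : ℂ → EN N), Mem G T rho δ γ A' B β β' q F → ∀ a ∈ Gd rho δ F, ∀ t : ℝ,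
      Real.log ‖F (a + t)‖ ≤ C * (2 + |t|) ^ γ := by
  obtain ⟨C₀, hC₀⟩ := hG.cmp
  refine ⟨|C₀| + ∑ i, (G.b i : ℝ) * B, ?_, ?_⟩
  · have := hs.B_pos
    have h2 : 0 ≤ ∑ i, (G.b i : ℝ) * B := Finset.sum_nonneg fun i _ => by positivity
    positivity
  intro β β' q F hm a ha t
  have hK := hm.cl.ent.mem (a + t)
  have h1 := hC₀ _ hK
  rw [hm.cl.nm, norm_one, Real.log_one, sub_zero] at h1
  obtain ⟨-, -, hfit⟩ := fits_all hs hm ha
  have hp1 : 1 ≤ (2 + |t|) ^ γ := Real.one_le_rpow (by linarith [abs_nonneg t]) hs.γ_pos.le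
  have h2 : ∀ i, G.lam i (F (a + t)) ≤ B * (2 + |t|) ^ γ := by
    intro i
    have h3 := hfit (a + t) (Set.mem_univ _) i
    rw [MemD_lin, sub_zero] at h3
    have h4 := (abs_le.1 h3).2
    have e : ‖a + (t : ℂ) - a‖ = |t| := by
      rw [add_sub_cancel_left, Complex.norm_real, Real.norm_eq_abs]
    simp only [Pool.Agent.SR3.pw, e] at h4
    exact h4
  have h5 : ∑ i, (G.b i : ℝ) * G.lam i (F (a + t)) ≤ (∑ i, (G.b i : ℝ) * B) * (2 + |t|) ^ γ := by
    rw [Finset.sum_mul]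
    refine Finset.sum_le_sum fun i _ => ?_
    rw [mul_assoc]
    exact mul_le_mul_of_nonneg_left (h2 i) (Nat.cast_nonneg _)
  have h6 : (G.h : ℝ) * Real.log ‖F (a + t)‖ ≤ (|C₀| + ∑ i, (G.b i : ℝ) * B) * (2 + |t|) ^ γ := by
    have h7 := (abs_le.1 h1).2
    have h8 : C₀ ≤ |C₀| * (2 + |t|) ^ γ := by
      calc C₀ ≤ |C₀| := le_abs_self _
        _ = |C₀| * 1 := (mul_one _).symm
        _ ≤ |C₀| * (2 + |t|) ^ γ := mul_le_mul_of_nonneg_left hp1 (abs_nonneg _)
    rw [add_mul]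
    linarith
  have hh : (1 : ℝ) ≤ G.h := by
    have : 1 ≤ G.h := hG.aff.pos ()
    exact_mod_cast this
  rcases le_total (Real.log ‖F (a + t)‖) 0 with hl | hl
  · refine hl.trans ?_
    have := hs.B_pos
    have h2' : 0 ≤ ∑ i, (G.b i : ℝ) * B := Finset.sum_nonneg fun i _ => by positivity
    positivity
  · nlinarith

private theorem MemD_step {γ C c B₁ : ℝ} (h0 : 0 < γ) (h1 : γ < 1) (hC : 0 ≤ C) (hc : 0 < c) :
    ∃ t : ℝ, 1 ≤ t ∧ C * (2 + t) ^ γ + B₁ < c * (t / 2) := by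
  have h2 := (tendsto_rpow_neg_atTop (y := 1 - γ) (by linarith)).comp (tendsto_atTop_add_const_left atTop (2 : ℝ) tendsto_id)
  have h3 : ∀ᶠ t : ℝ in atTop, (2 + t) ^ (-(1 - γ)) < c / (8 * (C + 1)) := by
    have := (h2.eventually (gt_mem_nhds (show (0 : ℝ) < c / (8 * (C + 1)) by positivity)))
    simpa [Function.comp] using this
  obtain ⟨t, ht, ht1, ht2⟩ := (h3.and ((eventually_ge_atTop (1 : ℝ)).and (eventually_gt_atTop ((8 * B₁ + 2 * c) / (3 * c))))).exists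
  refine ⟨t, ht1, ?_⟩
  have h4 : (2 + t) ^ γ = (2 + t) ^ (-(1 - γ)) * (2 + t) := by
    conv_rhs => rw [← Real.rpow_one (2 + t), ← Real.rpow_mul (by linarith), one_mul]
    rw [← Real.rpow_add (by linarith)]
    congr 1; ring
  have h5 : (2 + t) ^ γ ≤ c / (8 * (C + 1)) * (2 + t) := by
    rw [h4]
    exact mul_le_mul_of_nonneg_right ht.le (by linarith)
  have h6 : C * (2 + t) ^ γ ≤ c / 8 * (2 + t) := by
    calc C * (2 + t) ^ γ ≤ C * (c / (8 * (C + 1)) * (2 + t)) := mul_le_mul_of_nonneg_left h5 hC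
      _ = (C / (C + 1)) * (c / 8 * (2 + t)) := by
          field_simp
      _ ≤ 1 * (c / 8 * (2 + t)) := by
          apply mul_le_mul_of_nonneg_right _ (by positivity)
          rw [div_le_one (by linarith)]; linarith
      _ = _ := one_mul _
  rw [div_lt_iff₀ (by positivity)] at ht2
  nlinarith

private theorem MemD_iter {S : Set ℂ} {t : ℝ} (ht : 0 < t) (hr : ∀ a ∈ S, ∃ b ∈ S, a.re + t / 2 ≤ b.re ∧ b.re ≤ a.re + 3 * t / 2)
    (hl : ∀ a ∈ S, ∃ b ∈ S, b.re + t / 2 ≤ a.re ∧ a.re ≤ b.re + 3 * t / 2) (n : ℕ) :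
    ∀ a ∈ S, ∀ x : ℝ, |x - a.re| ≤ n * (t / 2) → ∃ z ∈ S, |z.re - x| ≤ 2 * t := by
  induction n with
  | zero =>
    intro a ha x hx
    refine ⟨a, ha, ?_⟩
    rw [abs_sub_comm]
    simp only [Nat.cast_zero, zero_mul] at hx
    linarith
  | succ n ih =>
    intro a ha x hx
    push_cast at hx
    rcases le_or_gt (|x - a.re|) (2 * t) with h | h
    · exact ⟨a, ha, by rw [abs_sub_comm]; exact h⟩
    rcases le_total a.re x with h1 | h1
    · obtain ⟨b, hb, hb1, hb2⟩ := hr a ha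
      rw [abs_of_nonneg (by linarith)] at hx h
      refine ih b hb x ?_
      rw [abs_of_nonneg (by linarith)]
      linarith
    · obtain ⟨b, hb, hb1, hb2⟩ := hl a ha
      rw [abs_of_nonpos (by linarith)] at hx h
      refine ih b hb x ?_
      rw [abs_of_nonpos (by linarith)]
      linarith

/-- `M₀` bounds `‖F‖` at the good points; on the horizontal line through a good point `a`, `log ‖F (a + t)‖ ≤ C pw γ t`, so (`lower`) there is a good
point `a₁` with `t / 2 ≤ Re (a₁ - a) ≤ 3 t / 2` for a large fixed `t`; iterate in both directions. -/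
theorem mem_dense (hG : G.Ok) (hf : Facts G T rho δ γ A' B) :
    ∃ M₀ : ℝ, 0 ≤ M₀ ∧ (∀ (q : G.J → ℂ) (F : ℂ → EN N), G.Cl T q F → ∀ a ∈ Gd rho δ F, ‖F a‖ ≤ M₀) ∧
      ∀ β β' : G.ι → ℝ, ∃ l : ℝ, ∀ (q : G.J → ℂ) (F : ℂ → EN N), Mem G T rho δ γ A' B β β' q F → ‖F 0‖ ≤ M₀ → ∀ x : ℝ, ∃ z : ℂ, |z.re - x| ≤ l ∧ ‖F z‖ ≤ M₀ := by
  obtain ⟨B₁, hB₁, hgr⟩ := hf.growth
  have hM : ∀ (q : G.J → ℂ) (F : ℂ → EN N), G.Cl T q F → ∀ a ∈ Gd rho δ F, ‖F a‖ ≤ Real.exp B₁ := by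
    intro q F hF a ha
    have h1 := hgr q F hF a
    rw [infDist_zero_of_mem ha, add_zero, mul_one] at h1
    rcases (norm_nonneg (F a)).eq_or_lt with h0 | h0
    · rw [← h0]; exact (Real.exp_pos _).le
    · rw [← Real.exp_log h0]; exact Real.exp_le_exp.2 h1
  refine ⟨Real.exp B₁, (Real.exp_pos _).le, hM, ?_⟩
  intro β β'
  obtain ⟨C, hC, hlog⟩ := MemD_log hG hf.str
  obtain ⟨c, B₂, hc, hlow⟩ := hf.lower
  obtain ⟨t, ht1, ht⟩ := MemD_step (B₁ := B₂) hf.str.γ_pos hf.str.γ_lt hC hc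
  refine ⟨2 * t, ?_⟩
  intro q F hm _ x
  have key : ∀ a ∈ Gd rho δ F, ∀ s : ℝ, |s| = t → ∃ b ∈ Gd rho δ F, ‖b - (a + s)‖ < t / 2 := by
    intro a ha s hs
    have h1 := hlog β β' q F hm a ha s
    have h2 := hlow q F hm.cl (a + s)
    rw [hs] at h1
    have h3 : c * infDist (a + (s : ℂ)) (Gd rho δ F) < c * (t / 2) := by linarith
    have h4 := lt_of_mul_lt_mul_left h3 hc.le
    obtain ⟨b, hb, hb'⟩ := (infDist_lt_iff (hf.good q F hm.cl)).1 h4
    refine ⟨b, hb, ?_⟩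
    rw [← dist_eq_norm, dist_comm]
    exact hb'
  have hr : ∀ a ∈ Gd rho δ F, ∃ b ∈ Gd rho δ F, a.re + t / 2 ≤ b.re ∧ b.re ≤ a.re + 3 * t / 2 := by
    intro a ha
    obtain ⟨b, hb, hb'⟩ := key a ha t (abs_of_pos (by linarith))
    have h1 := (Complex.abs_re_le_norm _).trans hb'.le
    simp only [Complex.sub_re, Complex.add_re, Complex.ofReal_re] at h1
    have h2 := abs_le.1 h1
    exact ⟨b, hb, by linarith [h2.1], by linarith [h2.2]⟩
  have hl : ∀ a ∈ Gd rho δ F, ∃ b ∈ Gd rho δ F, b.re + t / 2 ≤ a.re ∧ a.re ≤ b.re + 3 * t / 2 := by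
    intro a ha
    obtain ⟨b, hb, hb'⟩ := key a ha (-t) (by rw [abs_neg]; exact abs_of_pos (by linarith))
    have h1 := (Complex.abs_re_le_norm _).trans hb'.le
    simp only [Complex.sub_re, Complex.add_re, Complex.ofReal_re] at h1
    have h2 := abs_le.1 h1
    exact ⟨b, hb, by linarith [h2.2], by linarith [h2.1]⟩
  obtain ⟨a₀, ha₀⟩ := hf.good q F hm.cl
  obtain ⟨n, hn⟩ := exists_nat_ge (|x - a₀.re| / (t / 2))
  rw [div_le_iff₀ (by linarith)] at hn
  obtain ⟨z, hz, hz'⟩ := MemD_iter (by linarith) hr hl n a₀ ha₀ x hn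
  exact ⟨z, hz', hM q F hm.cl z hz⟩

end Pool.Agent.SR3.G

end
end

section

/-!
# SR3 F CmpInf: two members with the same rates have the same potentials up to `O (|z| ^ γ)`
-/

set_option autoImplicit false

open Topology Filter Metric

noncomputable section

namespace Pool.Agent.SR3.F

open Pool.Agent.H36.BP (EN)
open Pool.Agent.SR3.G (Mem Str Facts exists_good_near)
open Geo (Gd)

variable {N : ℕ} {G : Geo N} {T : Set (EN N)} {rho : EN N → ℝ} {δ γ A' B : ℝ}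

/-- the boundary functions of a member are close to the linear ones -/
theorem mem_lam (hf : Facts G T rho δ γ A' B) (β β' : G.ι → ℝ) (M₁ : ℝ) :
    ∃ Q : ℝ, 0 ≤ Q ∧ ∀ (q : G.J → ℂ) (F : ℂ → EN N), Mem G T rho δ γ A' B β β' q F → ‖F 0‖ ≤ M₁ → ∀ z i,
      |G.lam i (F z) - lin Complex.I 0 (β i) (β' i) z| ≤ Q * pw γ ‖z‖ := by
  obtain ⟨R, hR0, hR⟩ := exists_good_near hf M₁
  have hγ := hf.str.γ_pos
  have hγ1 := hf.str.γ_lt
  have hB := hf.str.B_pos
  set S : ℝ := ∑ i, (|β i| + |β' i|) with hS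
  have hS0 : 0 ≤ S := by positivity
  refine ⟨B * (1 + R) + S * R, by positivity, fun q F hm h0 z i => ?_⟩
  obtain ⟨a, ha, haR⟩ := hR q F hm.cl h0
  have hfit := Pool.Agent.SR3.G.fits_all hf.str hm ha
  set p : ℝ := pw γ ‖z‖ with hp
  have hp1 : 1 ≤ p := by
    rw [hp]
    exact Real.one_le_rpow (by linarith [norm_nonneg z]) hγ.le
  have hpa : pw γ ‖z - a‖ ≤ (1 + R) * p := by
    have e1 : ‖z - a‖ ≤ ‖z‖ + R := (norm_sub_le _ _).trans (by linarith)
    have e2 : (2 + ‖z - a‖) ≤ (1 + R) * (2 + ‖z‖) := by nlinarith [norm_nonneg z]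
    calc (2 + ‖z - a‖) ^ γ ≤ ((1 + R) * (2 + ‖z‖)) ^ γ := Real.rpow_le_rpow (by positivity) e2 hγ.le
      _ = (1 + R) ^ γ * (2 + ‖z‖) ^ γ := Real.mul_rpow (by linarith) (by positivity)
      _ ≤ (1 + R) * (2 + ‖z‖) ^ γ := by
          apply mul_le_mul_of_nonneg_right _ (by positivity)
          calc (1 + R) ^ γ ≤ (1 + R) ^ (1 : ℝ) := Real.rpow_le_rpow_of_exponent_le (by linarith) hγ1.le
            _ = 1 + R := Real.rpow_one _
  have h1 : |G.lam i (F z) - lin Complex.I a (β i) (β' i) z| ≤ B * ((1 + R) * p) :=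
    (hfit.2.2 z (Set.mem_univ z) i).trans (mul_le_mul_of_nonneg_left hpa hB.le)
  have h2 : |lin Complex.I a (β i) (β' i) z - lin Complex.I 0 (β i) (β' i) z| ≤ (|β i| + |β' i|) * R := by
    have e1 : yy Complex.I a z = z.im - a.im := by
      unfold yy
      simp
    have e2 : yy Complex.I 0 z = z.im := by
      unfold yy
      simp
    unfold lin
    rw [e1, e2]
    have e3 : |max (z.im - a.im) 0 - max z.im 0| ≤ R := by
      refine (abs_max_sub_max_le_abs _ _ _).trans ?_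
      have : z.im - a.im - z.im = -a.im := by ring
      rw [this, abs_neg]
      exact (Complex.abs_im_le_norm a).trans haR
    have e4 : |max (-(z.im - a.im)) 0 - max (-z.im) 0| ≤ R := by
      refine (abs_max_sub_max_le_abs _ _ _).trans ?_
      have : -(z.im - a.im) - -z.im = a.im := by ring
      rw [this]
      exact (Complex.abs_im_le_norm a).trans haR
    have e5 : β i * max (z.im - a.im) 0 + β' i * max (-(z.im - a.im)) 0 - (β i * max z.im 0 + β' i * max (-z.im) 0) =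
        β i * (max (z.im - a.im) 0 - max z.im 0) + β' i * (max (-(z.im - a.im)) 0 - max (-z.im) 0) := by ring
    rw [e5]
    refine (abs_add_le _ _).trans ?_
    rw [abs_mul, abs_mul, add_mul]
    exact add_le_add (mul_le_mul_of_nonneg_left e3 (abs_nonneg _)) (mul_le_mul_of_nonneg_left e4 (abs_nonneg _))
  have h3 : (|β i| + |β' i|) ≤ S := Finset.single_le_sum (f := fun i => |β i| + |β' i|) (fun i _ => by positivity) (Finset.mem_univ i)
  have h4 : (|β i| + |β' i|) * R ≤ S * R * p := by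
    calc (|β i| + |β' i|) * R ≤ S * R := mul_le_mul_of_nonneg_right h3 hR0
      _ ≤ S * R * p := le_mul_of_one_le_right (by positivity) hp1
  have h5 : G.lam i (F z) - lin Complex.I 0 (β i) (β' i) z =
      (G.lam i (F z) - lin Complex.I a (β i) (β' i) z) + (lin Complex.I a (β i) (β' i) z - lin Complex.I 0 (β i) (β' i) z) := by ring
  rw [h5]
  refine (abs_add_le _ _).trans ?_
  have : (B * (1 + R) + S * R) * p = B * ((1 + R) * p) + S * R * p := by ring
  rw [this]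
  linarith

theorem cmp_inf (hG : G.Ok) (hf : Facts G T rho δ γ A' B) (β β' : G.ι → ℝ) (M₁ : ℝ) :
    ∃ Q : ℝ, 0 ≤ Q ∧ ∀ (q : G.J → ℂ) (F H : ℂ → EN N), Mem G T rho δ γ A' B β β' q F → Mem G T rho δ γ A' B β β' q H →
      ‖F 0‖ ≤ M₁ → ‖H 0‖ ≤ M₁ → ∀ z, Real.log ‖H z‖ ≤ Real.log ‖F z‖ + Q * pw γ ‖z‖ ∧
        ∀ i, Real.log ‖G.E i (H z)‖ ≤ Real.log ‖G.E i (F z)‖ + Q * pw γ ‖z‖ := by
  obtain ⟨Q₁, hQ₁, hlam⟩ := mem_lam hf β β' M₁
  obtain ⟨Cc, hCc⟩ := hG.cmp
  have hγ := hf.str.γ_pos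
  have hh : (1 : ℝ) ≤ G.h := by
    have := hG.aff.pos ()
    exact_mod_cast this
  set b : ℝ := ∑ i, (G.b i : ℝ) with hb
  have hb0 : 0 ≤ b := by positivity
  set Q₂ : ℝ := b * (2 * Q₁) + 2 * |Cc| with hQ₂
  have hQ₂0 : 0 ≤ Q₂ := by positivity
  set s : ℝ := ∑ i, (G.c i : ℝ) with hs
  have hs0 : 0 ≤ s := by positivity
  refine ⟨Q₂ + s * Q₂ + 2 * Q₁, by positivity, fun q F H hF hH hF0 hH0 z => ?_⟩
  set p : ℝ := pw γ ‖z‖ with hp
  have hp1 : 1 ≤ p := by
    rw [hp]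
    exact Real.one_le_rpow (by linarith [norm_nonneg z]) hγ.le
  have hp0 : 0 ≤ p := by linarith
  have hd : ∀ i, |G.lam i (H z) - G.lam i (F z)| ≤ 2 * Q₁ * p := by
    intro i
    have e1 := abs_le.1 (hlam q F hF hF0 z i)
    have e2 := abs_le.1 (hlam q H hH hH0 z i)
    rw [abs_le]
    constructor <;> linarith [e1.1, e1.2, e2.1, e2.2]
  have c1 := abs_le.1 (hCc (F z) (hF.cl.ent.mem z))
  have c2 := abs_le.1 (hCc (H z) (hH.cl.ent.mem z))
  rw [hF.cl.nm z, norm_one, Real.log_one, sub_zero] at c1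
  rw [hH.cl.nm z, norm_one, Real.log_one, sub_zero] at c2
  have hsum : |∑ i, (G.b i : ℝ) * G.lam i (H z) - ∑ i, (G.b i : ℝ) * G.lam i (F z)| ≤ b * (2 * Q₁ * p) := by
    rw [← Finset.sum_sub_distrib, hb, Finset.sum_mul]
    refine (Finset.abs_sum_le_sum_abs _ _).trans (Finset.sum_le_sum fun i _ => ?_)
    rw [← mul_sub, abs_mul, abs_of_nonneg (Nat.cast_nonneg _)]
    exact mul_le_mul_of_nonneg_left (hd i) (Nat.cast_nonneg _)
  have hsum' := abs_le.1 hsum
  have hCp : |Cc| ≤ |Cc| * p := le_mul_of_one_le_right (abs_nonneg _) hp1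
  have hCabs := le_abs_self Cc
  have hlog : |Real.log ‖H z‖ - Real.log ‖F z‖| ≤ Q₂ * p := by
    have e1 : |(G.h : ℝ) * (Real.log ‖H z‖ - Real.log ‖F z‖)| ≤ Q₂ * p := by
      have e2 : Q₂ * p = b * (2 * Q₁ * p) + 2 * (|Cc| * p) := by rw [hQ₂]; ring
      rw [e2, abs_le]
      constructor <;> nlinarith [c1.1, c1.2, c2.1, c2.2, hsum'.1, hsum'.2]
    rw [abs_mul, abs_of_nonneg (by linarith)] at e1
    refine le_trans ?_ e1
    exact le_mul_of_one_le_left (abs_nonneg _) hh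
  have hlog' := abs_le.1 hlog
  have hsQ : 0 ≤ s * Q₂ * p := by positivity
  have hQp : 0 ≤ Q₁ * p := by positivity
  have hQ2p : 0 ≤ Q₂ * p := by positivity
  constructor
  · have : (Q₂ + s * Q₂ + 2 * Q₁) * p = Q₂ * p + s * Q₂ * p + 2 * (Q₁ * p) := by ring
    linarith [hlog'.2]
  · intro i
    have e1 : Real.log ‖G.E i (H z)‖ = G.c i * Real.log ‖H z‖ - G.lam i (H z) := by unfold Geo.lam; ring
    have e2 : Real.log ‖G.E i (F z)‖ = G.c i * Real.log ‖F z‖ - G.lam i (F z) := by unfold Geo.lam; ring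
    have e3 : (G.c i : ℝ) ≤ s := Finset.single_le_sum (f := fun i => (G.c i : ℝ)) (fun i _ => by positivity) (Finset.mem_univ i)
    have e4 : (G.c i : ℝ) * (Real.log ‖H z‖ - Real.log ‖F z‖) ≤ s * (Q₂ * p) := by
      calc (G.c i : ℝ) * (Real.log ‖H z‖ - Real.log ‖F z‖) ≤ (G.c i : ℝ) * (Q₂ * p) := mul_le_mul_of_nonneg_left hlog'.2 (Nat.cast_nonneg _)
        _ ≤ s * (Q₂ * p) := mul_le_mul_of_nonneg_right e3 hQ2p
    have e5 := (abs_le.1 (hd i)).1
    rw [e1, e2]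
    have : (Q₂ + s * Q₂ + 2 * Q₁) * p = Q₂ * p + s * (Q₂ * p) + 2 * (Q₁ * p) := by ring
    rw [this]
    linarith

end Pool.Agent.SR3.F

end
end

section

/-!
# SR3 G LogF: the log integral for the members of the family
-/

set_option autoImplicit false
set_option linter.unusedSectionVars false

open Topology Filter Metric

noncomputable section

namespace Pool.Agent.SR3.G

open Pool.Agent.H36.BP (EN)
open Pool.Agent.SR3 (Geo)
open Pool.Agent.SR3.Geo (Gd)

variable {N : ℕ} {G : Geo N} {T : Set (EN N)} {rho : EN N → ℝ} {δ γ A' B : ℝ} {β β' : G.ι → ℝ} {q : G.J → ℂ} {F : ℂ → EN N} {𝒬 : Set (EN N → ℂ)}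

theorem KF_logI (hG : G.Ok) (hf : Facts G T rho δ γ A' B) (hp : FirstP G T rho δ γ A' B) (M₀ L : ℝ) :
    ∃ r₀ : ℝ, ∀ r ≥ r₀, LogI (KF G T rho δ γ A' B β β' q 𝒬) M₀ L r := by
  obtain ⟨r₀, h0⟩ := hp q β β' M₀ L
  refine ⟨r₀, fun r hr F hF H hH z hz c C hc hb => ?_⟩
  obtain ⟨c', C', hc', hx⟩ := h0 r hr F H z c C hF.1 hH.1 hz hc hb
  obtain ⟨c₂, C₂, -, hC₂, hlog⟩ := mem_log hG hf β β' (max ‖F 0‖ ‖H 0‖)
  have hF1 := hlog q F hF.1 (le_max_left _ _)
  have hH1 := hlog q H hH.1 (le_max_right _ _)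
  have hFd : Differentiable ℂ F := hF.1.cl.ent.diff
  have hHd : Differentiable ℂ H := hH.1.cl.ent.diff
  have hγ := hf.str.γ_pos
  have hγ1 := hf.str.γ_lt
  have hle : ∀ x : ℝ, x ≤ Real.exp (Real.log x) := Real.le_exp_log
  have hi : ∀ i, (fun w => (H w - F w) i) = 0 := by
    intro i
    have hD : Differentiable ℂ (fun w => (H w - F w) i) :=
      (EuclideanSpace.proj (𝕜 := ℂ) i : EN N →L[ℂ] ℂ).differentiable.comp (hHd.sub hFd)
    have hn : ∀ w, ‖(H w - F w) i‖ ≤ ‖H w - F w‖ := fun w => PiLp.norm_apply_le _ _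
    refine eq_zero_of_halfplane (D := fun w => (H w - F w) i) hD (b := C₂) (c := c') (C := max C' (C₂ + 1)) (ga := γ) hc' hγ hγ1
      (fun x hx0 => ?_) fun w hw => ?_
    · refine (hn _).trans ((hx x hx0).trans (Real.exp_le_exp.2 ?_))
      linarith [le_max_left C' (C₂ + 1)]
    · have hp1 : (1 : ℝ) ≤ (2 + ‖w‖) ^ γ := Real.one_le_rpow (by linarith [norm_nonneg w]) hγ.le
      have h1 : ‖H w‖ ≤ Real.exp (C₂ * (|w.im| + pw γ ‖w‖)) := (hle _).trans (Real.exp_le_exp.2 (hH1 w).2)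
      have h2 : ‖F w‖ ≤ Real.exp (C₂ * (|w.im| + pw γ ‖w‖)) := (hle _).trans (Real.exp_le_exp.2 (hF1 w).2)
      have h3 : (2 : ℝ) ≤ Real.exp 1 := by
        have := Real.add_one_le_exp (1 : ℝ)
        linarith
      calc ‖(H w - F w) i‖ ≤ ‖H w - F w‖ := hn w
        _ ≤ ‖H w‖ + ‖F w‖ := norm_sub_le _ _
        _ ≤ 2 * Real.exp (C₂ * (|w.im| + pw γ ‖w‖)) := by linarith
        _ ≤ Real.exp 1 * Real.exp (C₂ * (|w.im| + pw γ ‖w‖)) := mul_le_mul_of_nonneg_right h3 (Real.exp_pos _).le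
        _ = Real.exp (1 + C₂ * (|w.im| + pw γ ‖w‖)) := (Real.exp_add _ _).symm
        _ ≤ Real.exp (C₂ * w.im + max C' (C₂ + 1) * (2 + ‖w‖) ^ γ) := by
          refine Real.exp_le_exp.2 ?_
          rw [abs_of_nonneg hw]
          unfold pw
          have h4 : (C₂ + 1) * (2 + ‖w‖) ^ γ ≤ max C' (C₂ + 1) * (2 + ‖w‖) ^ γ := mul_le_mul_of_nonneg_right (le_max_right _ _) (by linarith)
          nlinarith
  funext w
  have h5 : H w - F w = 0 := by
    ext i
    exact congrFun (hi i) w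
  exact sub_eq_zero.1 h5

end Pool.Agent.SR3.G

end
end

section

/-!
# SR3 G MemC: compactness of the families of curves of the class
-/

set_option autoImplicit false

open Topology Filter Metric

noncomputable section

namespace Pool.Agent.SR3.G

open Pool.Agent.H36.BP (EN)
open Pool.Agent.SR3 (Geo)
open Pool.Agent.SR3.Geo (Gd)

variable {N : ℕ}

/-- translations which converge -/
theorem tlu_shift {V : Type} [NormedAddCommGroup V] {l : Filter ℕ} {F : ℕ → ℂ → V} {H : ℂ → V} (hH : Continuous H)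
    (hF : TendstoLocallyUniformlyOn F H l Set.univ) {b : ℕ → ℂ} {b₀ : ℂ} (hb : Tendsto b l (𝓝 b₀)) :
    TendstoLocallyUniformlyOn (fun k z => F k (z + b k)) (fun z => H (z + b₀)) l Set.univ := by
  rw [Metric.tendstoLocallyUniformlyOn_iff] at hF ⊢
  intro ε hε x _
  obtain ⟨t, ht, ht'⟩ := hF (ε / 2) (by positivity) (x + b₀) (Set.mem_univ _)
  rw [nhdsWithin_univ] at ht
  have h1 : ∀ᶠ y in 𝓝 (x + b₀), dist (H y) (H (x + b₀)) < ε / 4 := Metric.tendsto_nhds.1 hH.continuousAt (ε / 4) (by positivity)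
  obtain ⟨ρ, hρ, hρt⟩ := Metric.mem_nhds_iff.1 (inter_mem ht h1)
  refine ⟨ball x (ρ / 2), ?_, ?_⟩
  · rw [nhdsWithin_univ]
    exact ball_mem_nhds x (by positivity)
  · filter_upwards [ht', Metric.tendsto_nhds.1 hb (ρ / 2) (by positivity)] with k hk hbk y hy
    have h2 : y + b k ∈ ball (x + b₀) ρ := by
      rw [mem_ball, dist_eq_norm]
      have h3 : y + b k - (x + b₀) = (y - x) + (b k - b₀) := by ring
      rw [h3]
      refine (norm_add_le _ _).trans_lt ?_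
      rw [mem_ball, dist_eq_norm] at hy
      rw [dist_eq_norm] at hbk
      linarith
    have h4 : y + b₀ ∈ ball (x + b₀) ρ := by
      rw [mem_ball, dist_eq_norm]
      have h3 : y + b₀ - (x + b₀) = y - x := by ring
      rw [h3]
      rw [mem_ball, dist_eq_norm] at hy
      linarith
    have h5 := (hρt h2).2
    have h6 := (hρt h4).2
    have h7 := hk _ (hρt h2).1
    have h8 : dist (H (y + b₀)) (H (y + b k)) < ε / 2 := by
      refine (dist_triangle_right _ _ (H (x + b₀))).trans_lt ?_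
      have h5' : dist (H (y + b k)) (H (x + b₀)) < ε / 4 := h5
      have h6' : dist (H (y + b₀)) (H (x + b₀)) < ε / 4 := h6
      linarith
    refine (dist_triangle _ (H (y + b k)) _).trans_lt ?_
    linarith

variable {G : Geo N} {T : Set (EN N)} {rho : EN N → ℝ} {δ γ A' B : ℝ} {β β' : G.ι → ℝ} {q : G.J → ℂ} {F : ℂ → EN N} {𝒬 : Set (EN N → ℂ)}

private theorem memC_lam (hG : G.Ok) (i : G.ι) {x : EN N} (hx : x ∈ G.K) : ContinuousAt (G.lam i) x := by
  have h1 : x ≠ 0 := fun h => hG.cone.zero_notMem (h ▸ ((hG.aff.mem x).1 hx).1)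
  have h2 : ContinuousAt (fun x : EN N => Real.log ‖x‖) x := (continuous_norm.continuousAt).log (norm_ne_zero_iff.2 h1)
  have h3 : ContinuousAt (fun x : EN N => Real.log ‖G.E i x‖) x :=
    ((hG.anE i x).continuousAt.norm).log (norm_ne_zero_iff.2 (hG.neE i x hx))
  exact (continuousAt_const.mul h2).sub h3

theorem mem_cpt (hG : G.Ok) (hf : Facts G T rho δ γ A' B) {𝒰 : Ultrafilter ℕ} (h𝒰 : (𝒰 : Filter ℕ) ≤ atTop) {B₁ : ℝ} {F : ℕ → ℂ → EN N}
    (hF : ∀ k, Mem G T rho δ γ A' B β β' q (F k)) (h0 : ∀ k, ‖F k 0‖ ≤ B₁) :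
    ∃ H, Mem G T rho δ γ A' B β β' q H ∧ TendstoLocallyUniformlyOn F H 𝒰 Set.univ := by
  obtain ⟨R, hR0, hR⟩ := exists_good_near hf B₁
  choose a ha haR using fun k => hR q (F k) (hF k).cl (h0 k)
  obtain ⟨a₀, ha₀⟩ := lim_exists (𝒰 := 𝒰) (f := a) (R := R) (Eventually.of_forall haR)
  have h1 : ∀ k, δ ≤ rho (sh (a k) (F k) 0) := by
    intro k
    show δ ≤ rho (F k (0 + a k))
    rw [zero_add]
    exact ha k
  obtain ⟨q', H₀, hH₀, hq', hδ, hlim⟩ := hf.cpt 𝒰 h𝒰 (fun _ => q) (fun k => sh (a k) (F k)) (fun k => cl_sh (hF k).cl (a k)) h1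
  have hqq : q' = q := (tendsto_nhds_unique hq' tendsto_const_nhds)
  subst hqq
  have hHc : Continuous H₀ := hH₀.ent.diff.continuous
  have h2 : TendstoLocallyUniformlyOn F (sh (-a₀) H₀) 𝒰 Set.univ := by
    have h3 := tlu_shift hHc hlim (b := fun k => -a k) (b₀ := -a₀) ha₀.neg
    refine h3.congr fun k => ?_
    intro z _
    show F k (z + -a k + a k) = F k z
    rw [neg_add_cancel_right]
  have hHcl : G.Cl T q' (sh (-a₀) H₀) := cl_sh hH₀ (-a₀)
  have hHc' : Continuous (sh (-a₀) H₀) := hHcl.ent.diff.continuous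
  refine ⟨sh (-a₀) H₀, ⟨hHcl, (hF 0).sum, (hF 0).sum', a₀, ?_, ?_⟩, h2⟩
  · show δ ≤ rho (H₀ (a₀ + -a₀))
    rw [add_neg_cancel]
    exact hδ
  · have h4 : ∀ k, G.Fits (F k) (a k) Complex.I β β' (fun z => B * Pool.Agent.SR3.pw γ ‖z - a k‖) Set.univ := fun k => fits_all hf.str (hF k) (ha k)
    refine ⟨(h4 0).1, (h4 0).2.1, fun z _ i => ?_⟩
    have h5 : Tendsto (fun k => F k z) 𝒰 (𝓝 (sh (-a₀) H₀ z)) := h2.tendsto_at (Set.mem_univ z)
    have h6 : Tendsto (fun k => G.lam i (F k z)) 𝒰 (𝓝 (G.lam i (sh (-a₀) H₀ z))) := (memC_lam hG i (hHcl.ent.mem z)).tendsto.comp h5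
    have h7 : Continuous fun b : ℂ => lin Complex.I b (β i) (β' i) z := by
      unfold lin yy
      fun_prop
    have h8 : Tendsto (fun k => |G.lam i (F k z) - lin Complex.I (a k) (β i) (β' i) z|) 𝒰
        (𝓝 |G.lam i (sh (-a₀) H₀ z) - lin Complex.I a₀ (β i) (β' i) z|) := (h6.sub (h7.continuousAt.tendsto.comp ha₀)).abs
    have h9 : Continuous fun b : ℂ => B * Pool.Agent.SR3.pw γ ‖z - b‖ := by
      unfold Pool.Agent.SR3.pw
      refine continuous_const.mul (Continuous.rpow_const (by fun_prop) fun b => Or.inl ?_)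
      have := norm_nonneg (z - b)
      positivity
    exact le_of_tendsto_of_tendsto' h8 (h9.continuousAt.tendsto.comp ha₀) fun k => (h4 k).2.2 z (Set.mem_univ z) i

/-- also used in `Cov` -/
theorem cl_out (hf : Facts G T rho δ γ A' B) {T' : Set (EN N)} {rho' : EN N → ℝ} {δ' : ℝ} (h' : Facts' G T rho δ T' rho' δ') {𝒰 : Ultrafilter ℕ}
    (h𝒰 : (𝒰 : Filter ℕ) ≤ atTop) {B₁ : ℝ} {q : ℕ → G.J → ℂ} {F : ℕ → ℂ → EN N} {H : ℂ → EN N} (hF : ∀ k, G.Cl T (q k) (F k)) (hF' : ∀ k, ∃ z, F k z ∉ T')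
    (h0 : ∀ k, ‖F k 0‖ ≤ B₁) (hH : TendstoLocallyUniformlyOn F H 𝒰 Set.univ) : ∃ z, H z ∉ T' := by
  obtain ⟨R, hR0, hR⟩ := exists_good_near hf B₁
  choose a ha haR using fun k => hR (q k) (F k) (hF k) (h0 k)
  obtain ⟨R', hR'⟩ := h'.dense'
  have hcl : ∀ k, G.Cl T' (q k) (F k) := fun k => ⟨⟨(hF k).ent.diff, (hF k).ent.mem, hF' k⟩, (hF k).nm, (hF k).val, (hF k).one⟩
  choose b hb hab using fun k => hR' (q k) (F k) (hcl k) (a k) (ha k)
  have hbR : ∀ k, ‖b k‖ ≤ R + R' := by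
    intro k
    have h1 : b k = a k - (a k - b k) := by ring
    rw [h1]
    refine (norm_sub_le _ _).trans (add_le_add (haR k) ?_)
    rw [← dist_eq_norm]
    exact hab k
  obtain ⟨b₀, hb₀⟩ := lim_exists (𝒰 := 𝒰) (f := b) (R := R + R') (Eventually.of_forall hbR)
  have h1 : ∀ k, δ' ≤ rho' (sh (b k) (F k) 0) := by
    intro k
    show δ' ≤ rho' (F k (0 + b k))
    rw [zero_add]
    exact hb k
  obtain ⟨q', H₀, hH₀, -, -, hlim⟩ := h'.cpt 𝒰 h𝒰 q (fun k => sh (b k) (F k)) (fun k => cl_sh (hcl k) (b k)) h1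
  obtain ⟨z, hz⟩ := hH₀.ent.out
  have hHc : Continuous H := by
    rw [← continuousOn_univ]
    refine hH.continuousOn (Frequently.of_forall fun k => (hF k).ent.diff.continuous.continuousOn)
  have h2 : Tendsto (fun k => F k (z + b k)) 𝒰 (𝓝 (H (z + b₀))) := lim_apply hHc hH (tendsto_const_nhds.add hb₀)
  have h3 : Tendsto (fun k => F k (z + b k)) 𝒰 (𝓝 (H₀ z)) := hlim.tendsto_at (Set.mem_univ z)
  refine ⟨z + b₀, ?_⟩
  rw [tendsto_nhds_unique h2 h3]
  exact hz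

theorem KF_cpt (hG : G.Ok) (hf : Facts G T rho δ γ A' B) (hq : HFacts G T rho δ 𝒬) {𝒰 : Ultrafilter ℕ} (h𝒰 : (𝒰 : Filter ℕ) ≤ atTop) {B₁ : ℝ}
    {F : ℕ → ℂ → EN N} (hF : ∀ k, F k ∈ KF G T rho δ γ A' B β β' q 𝒬) (h0 : ∀ k, ‖F k 0‖ ≤ B₁) :
    ∃ H ∈ KF G T rho δ γ A' B β β' q 𝒬, TendstoLocallyUniformlyOn F H 𝒰 Set.univ := by
  obtain ⟨H, hH, hlim⟩ := mem_cpt hG hf h𝒰 (fun k => (hF k).1) h0
  refine ⟨H, ⟨hH, fun R hR => ?_⟩, hlim⟩
  obtain ⟨Q, hQ, hRQ, -, rho', δ', h'⟩ := hq R hR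
  obtain ⟨z, hz⟩ := cl_out hf h' h𝒰 (q := fun _ => q) (fun k => (hF k).1.cl) (fun k => by
    obtain ⟨z, hz⟩ := (hF k).2 Q hQ
    exact ⟨z, fun h => hz h.2⟩) h0 hlim
  refine ⟨z, fun h => hz ⟨((hG.aff.mem _).1 (hH.cl.ent.mem z)).1, hRQ _ h⟩⟩

end Pool.Agent.SR3.G

end
end

section

/-!
# SR3 G Cov: one form for the whole class, by compactness
-/

set_option autoImplicit false

open Topology Filter Metric

noncomputable section

namespace Pool.Agent.SR3.G

open Pool.Agent.H36.BP (EN)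
open Pool.Agent.SR3 (Geo)
open Pool.Agent.SR3.Geo (Gd)

variable {N : ℕ} {G : Geo N} {T : Set (EN N)} {rho : EN N → ℝ} {δ γ A' B : ℝ} {𝒬 : Set (EN N → ℂ)}

theorem finite_cover (hG : G.Ok) (hf : Facts G T rho δ γ A' B) (hq : HFacts G T rho δ 𝒬) (hne : 𝒬.Nonempty)
    (hmul : ∀ Q ∈ 𝒬, ∀ Q' ∈ 𝒬, (fun x => Q x * Q' x) ∈ 𝒬)
    (hcov : ∀ (q : G.J → ℂ) (F : ℂ → EN N), G.Cl T q F → ∃ Q ∈ 𝒬, ∀ z, Q (F z) = 0) :
    ∃ Q ∈ 𝒬, ∀ (q : G.J → ℂ) (F : ℂ → EN N), G.Cl T q F → ∀ z, Q (F z) = 0 := by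
  set K : Set C(ℂ, EN N) := {f | ∃ q, G.Cl T q f ∧ δ ≤ rho (f 0)} with hK
  have h𝒰 : ((hyperfilter ℕ : Ultrafilter ℕ) : Filter ℕ) ≤ atTop := Nat.hyperfilter_le_atTop
  -- compactness
  have hseq : IsSeqCompact K := by
    intro f hfK
    choose q hq1 hq2 using hfK
    obtain ⟨q', H, h1, -, h3, h4⟩ := hf.cpt (hyperfilter ℕ) h𝒰 q (fun n => f n) hq1 hq2
    set H' : C(ℂ, EN N) := ⟨H, h1.ent.diff.continuous⟩ with hH'
    have h5 : Tendsto f (hyperfilter ℕ : Filter ℕ) (𝓝 H') :=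
      ContinuousMap.tendsto_iff_tendstoLocallyUniformly.2 (tendstoLocallyUniformlyOn_univ.1 h4)
    have h6 : MapClusterPt H' atTop f := h5.mapClusterPt.mono h𝒰
    obtain ⟨ψ, hψ, h7⟩ := h6.tendsto_subseq
    exact ⟨H', ⟨q', h1, h3⟩, ψ, hψ, h7⟩
  have hcpt : IsCompact K := hseq.isCompact
  have hp : ∃ Q ∈ 𝒬, ∀ f ∈ K, ∀ z, Q (f z) = 0 := by
    refine hcpt.induction_on (p := fun s => ∃ Q ∈ 𝒬, ∀ f ∈ s, ∀ z, Q (f z) = 0) ?_ ?_ ?_ ?_
    · obtain ⟨Q, hQ⟩ := hne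
      exact ⟨Q, hQ, fun f hf => absurd hf (Set.notMem_empty f)⟩
    · rintro s t hst ⟨Q, hQ, h⟩
      exact ⟨Q, hQ, fun f hf => h f (hst hf)⟩
    · rintro s t ⟨Q, hQ, h⟩ ⟨Q', hQ', h'⟩
      refine ⟨fun x => Q x * Q' x, hmul Q hQ Q' hQ', fun f hf z => ?_⟩
      rcases hf with hf | hf
      · simp only [h f hf z, zero_mul]
      · simp only [h' f hf z, mul_zero]
    · rintro H ⟨q₀, hH, -⟩
      obtain ⟨R, hR, hRH⟩ := hcov q₀ H hH
      obtain ⟨Q, hQ, hRQ, -, rho', δ', h'⟩ := hq R hR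
      refine ⟨{f | f ∈ K ∧ ∀ z, Q (f z) = 0}, ?_, Q, hQ, fun f hf => hf.2⟩
      by_contra hcon
      have h1 : ∃ᶠ f in 𝓝[K] H, f ∉ {f : C(ℂ, EN N) | f ∈ K ∧ ∀ z, Q (f z) = 0} := fun h => hcon (h.mono fun f hf => not_not.1 hf)
      have h2 : ∃ᶠ f in 𝓝[K] H, f ∈ K ∧ ∃ z, Q (f z) ≠ 0 := by
        refine (h1.and_eventually self_mem_nhdsWithin).mono fun f hf => ⟨hf.2, ?_⟩
        by_contra h3
        push Not at h3
        exact hf.1 ⟨hf.2, h3⟩
      obtain ⟨f, hf1, hf2⟩ := exists_seq_forall_of_frequently h2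
      have hf3 : Tendsto f atTop (𝓝 H) := hf1.mono_right nhdsWithin_le_nhds
      choose hfK hfz using hf2
      choose q hq1 hq2 using hfK
      have h4 : TendstoLocallyUniformly (fun n => (f n : ℂ → EN N)) H atTop := ContinuousMap.tendsto_iff_tendstoLocallyUniformly.1 hf3
      have h5 : TendstoLocallyUniformlyOn (fun n => (f n : ℂ → EN N)) H (hyperfilter ℕ : Filter ℕ) Set.univ := by
        have h6 : TendstoLocallyUniformlyOn (fun n => (f n : ℂ → EN N)) H atTop Set.univ := tendstoLocallyUniformlyOn_univ.2 h4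
        intro u hu x hx
        obtain ⟨t, ht, h7⟩ := h6 u hu x hx
        exact ⟨t, ht, h7.filter_mono h𝒰⟩
      have h6 : Tendsto (fun n => f n 0) atTop (𝓝 (H 0)) := ((continuous_eval_const (0 : ℂ)).tendsto H).comp hf3
      obtain ⟨B₁, hB₁⟩ := (isBounded_range_of_tendsto _ h6).exists_norm_le
      have h7 := cl_out (𝒰 := hyperfilter ℕ) hf h' h𝒰 (B₁ := B₁) hq1 (fun k => by
        obtain ⟨z, hz⟩ := hfz k
        exact ⟨z, fun h8 => hz h8.2⟩) (fun k => hB₁ _ ⟨k, rfl⟩) h5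
      obtain ⟨z, hz⟩ := h7
      exact hz ⟨KX hG (hH.ent.mem z), hRQ _ (hRH z)⟩
  obtain ⟨Q, hQ, hQK⟩ := hp
  refine ⟨Q, hQ, fun q F hF z => ?_⟩
  obtain ⟨a, ha⟩ := hf.good q F hF
  have h1 := cl_trans hG hF a
  have h2 := hQK ⟨fun z => F (z + a), h1.ent.diff.continuous⟩ ⟨q, h1, by
    show δ ≤ rho (F (0 + a))
    rw [zero_add]
    exact ha⟩ (z - a)
  have h3 : Q (F (z - a + a)) = 0 := h2
  rwa [sub_add_cancel] at h3

end Pool.Agent.SR3.G

end
end

section

/-!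
# SR3 G MemS: the family is a compact family of entire curves in the direction of the real axis
-/

set_option autoImplicit false
set_option linter.unusedSectionVars false

open Topology Filter Metric

noncomputable section

namespace Pool.Agent.SR3.G

open Pool.Agent.H36.BP (EN)
open Pool.Agent.SR3 (Geo)
open Pool.Agent.SR3.Geo (Gd)

variable {N : ℕ} {G : Geo N} {T : Set (EN N)} {rho : EN N → ℝ} {δ γ A' B : ℝ} {β β' : G.ι → ℝ} {q : G.J → ℂ} {𝒬 : Set (EN N → ℂ)}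

theorem one_le_pw {γ r : ℝ} (hγ : 0 ≤ γ) (hr : 0 ≤ r) : 1 ≤ pw γ r := Real.one_le_rpow (by linarith) hγ

theorem KF_shift {F : ℂ → EN N} (hF : F ∈ KF G T rho δ γ A' B β β' q 𝒬) (a : ℂ) : sh a F ∈ KF G T rho δ γ A' B β β' q 𝒬 := by
  refine ⟨mem_sh hF.1 a, fun Q hQ => ?_⟩
  obtain ⟨z, hz⟩ := hF.2 Q hQ
  refine ⟨z - a, ?_⟩
  show Q (F (z - a + a)) ≠ 0
  rwa [sub_add_cancel]

theorem KF_sys (hG : G.Ok) (hf : Facts G T rho δ γ A' B) (hq : HFacts G T rho δ 𝒬) (hne : (KF G T rho δ γ A' B β β' q 𝒬).Nonempty) :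
    ∃ M₀ : ℝ, Sys (KF G T rho δ γ A' B β β' q 𝒬) M₀ γ := by
  obtain ⟨M₀, hM0, hgood, hdense⟩ := mem_dense hG hf
  refine ⟨M₀, ⟨hf.str.γ_pos, hf.str.γ_lt, ?_, fun F hF => hF.1.cl.ent.diff, fun F hF z => cl_deriv_ne hG hF.1.cl z, fun F hF a => KF_shift hF a, ?_, ?_, ?_,
    ?_⟩⟩
  · obtain ⟨F, hF⟩ := hne
    obtain ⟨a, ha⟩ := hf.good q F hF.1.cl
    refine ⟨sh a F, KF_shift hF a, ?_⟩
    show ‖F (0 + a)‖ ≤ M₀
    rw [zero_add]
    exact hgood q F hF.1.cl a ha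
  · intro 𝒰 h𝒰 B₁ F hF h0
    exact KF_cpt hG hf hq h𝒰 hF h0
  · intro B₁
    obtain ⟨c, C, hc, hC, h1⟩ := mem_log hG hf β β' B₁
    refine ⟨C, fun F hF h0 z => ?_⟩
    have h2 := (h1 q F hF.1 h0 z).2
    rcases (norm_nonneg (F z)).eq_or_lt with h3 | h3
    · rw [← h3]
      exact (Real.exp_pos _).le
    · rw [← Real.log_le_iff_le_exp h3]
      exact h2
  · intro B₁
    obtain ⟨c, C, hc, hC, h1⟩ := mem_log hG hf β β' B₁
    refine ⟨(C + |Real.log B₁|) / c, fun F hF h0 z hz => ?_⟩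
    have h2 := (h1 q F hF.1 h0 z).1
    have h3 : Real.log ‖F z‖ ≤ |Real.log B₁| := by
      rcases (norm_nonneg (F z)).eq_or_lt with h4 | h4
      · rw [← h4, Real.log_zero]
        exact abs_nonneg _
      · exact (Real.log_le_log h4 hz).trans (le_abs_self _)
    have h4 := one_le_pw (γ := γ) hf.str.γ_pos.le (norm_nonneg z)
    have h5 : |Real.log B₁| ≤ |Real.log B₁| * pw γ ‖z‖ := le_mul_of_one_le_right (abs_nonneg _) h4
    rw [div_mul_eq_mul_div, le_div_iff₀ hc]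
    nlinarith
  · obtain ⟨l, hl⟩ := hdense β β'
    exact ⟨l, fun F hF h0 x => hl q F hF.1 h0 x⟩

end Pool.Agent.SR3.G

end
end

section

/-!
# SR3 G TubC: a neighbourhood of the good set is in the tube around a chain
-/

set_option autoImplicit false

open Topology Filter Metric

noncomputable section

namespace Pool.Agent.SR3.G

open Pool.Agent.H36.BP (EN)
open Pool.Agent.SR3 (Geo)
open Pool.Agent.SR3.Geo (Gd)

variable {N : ℕ} {G : Geo N} {T : Set (EN N)} {rho : EN N → ℝ} {δ γ A' B : ℝ} {β β' : G.ι → ℝ} {q : G.J → ℂ} {F : ℂ → EN N}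

/-- `t ≤ a + C (2 + t) ^ γ` bounds `t` -/
private theorem exists_T' (hγ1 : γ < 1) (a C : ℝ) : ∃ T : ℝ, 1 ≤ T ∧ ∀ t : ℝ, 0 ≤ t → t ≤ a + C * Pool.Agent.SR3.pw γ t → t ≤ T := by
  have h1 : Tendsto (fun s : ℝ => C * s ^ (-(1 - γ))) atTop (𝓝 (C * 0)) := (tendsto_rpow_neg_atTop (by linarith : 0 < 1 - γ)).const_mul C
  rw [mul_zero] at h1
  obtain ⟨S, hS⟩ := (eventually_atTop.1 (h1.eventually_lt_const (by norm_num : (0 : ℝ) < 1 / 4)))
  refine ⟨max 1 (max S (2 * a + 2)), le_max_left _ _, fun t ht h2 => ?_⟩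
  by_contra hc
  push Not at hc
  have h3 : 1 < t := lt_of_le_of_lt (le_max_left _ _) hc
  have h4 : S < t := lt_of_le_of_lt ((le_max_left _ _).trans (le_max_right _ _)) hc
  have h5 : 2 * a + 2 < t := lt_of_le_of_lt ((le_max_right _ _).trans (le_max_right _ _)) hc
  have h6 := hS (2 + t) (by linarith)
  have h7 : C * Pool.Agent.SR3.pw γ t = C * (2 + t) ^ (-(1 - γ)) * (2 + t) := by
    rw [Pool.Agent.SR3.pw, mul_assoc, ← Real.rpow_add_one (by linarith)]
    congr 2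
    ring
  have h8 : C * (2 + t) ^ (-(1 - γ)) * (2 + t) ≤ 1 / 4 * (2 + t) := mul_le_mul_of_nonneg_right h6.le (by linarith)
  rw [h7] at h2
  linarith

private theorem re_step {M L : ℝ} {F : ℂ → EN N} {z : ℤ → ℂ} (h : IsChain M L F z) (k : ℤ) (n : ℕ) : (n : ℝ) ≤ (z (k + n)).re - (z k).re := by
  induction n with
  | zero => simp
  | succ n ih =>
    have h1 := h.re (k + n)
    push_cast
    rw [← add_assoc]
    linarith

/-- a point of the chain near a vertical line -/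
private theorem exists_re {M L : ℝ} {F : ℂ → EN N} {z : ℤ → ℂ} (h : IsChain M L F z) (x : ℝ) : ∃ k : ℤ, |(z k).re - x| ≤ L := by
  have hb : ∃ b : ℤ, ∀ k : ℤ, (z k).re ≤ x → k ≤ b := by
    obtain ⟨n, hn⟩ := exists_nat_gt x
    refine ⟨n, fun k hk => ?_⟩
    by_contra hc
    push Not at hc
    obtain ⟨m, hm⟩ := Int.eq_ofNat_of_zero_le (by omega : 0 ≤ k - n)
    have h1 := re_step h 0 (n + m)
    rw [h.zero] at h1
    have h2 : (0 : ℤ) + ((n + m : ℕ) : ℤ) = k := by push_cast; omega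
    rw [h2] at h1
    simp only [Complex.zero_re, sub_zero] at h1
    push_cast at h1
    have h3 : (0 : ℝ) ≤ m := Nat.cast_nonneg m
    linarith
  have hi : ∃ k : ℤ, (z k).re ≤ x := by
    obtain ⟨n, hn⟩ := exists_nat_gt (-x)
    refine ⟨-n, ?_⟩
    have h1 := re_step h (-n) n
    rw [neg_add_cancel, h.zero] at h1
    simp only [Complex.zero_re, zero_sub] at h1
    linarith
  obtain ⟨k, hk, hk'⟩ := Int.exists_greatest_of_bdd hb hi
  refine ⟨k, ?_⟩
  have h1 : x < (z (k + 1)).re := by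
    by_contra hc
    push Not at hc
    have := hk' _ hc
    omega
  have h2 := h.norm k
  have h3 := Complex.abs_re_le_norm (z (k + 1) - z k)
  rw [Complex.sub_re] at h3
  have h4 := le_abs_self ((z (k + 1)).re - (z k).re)
  rw [abs_le]
  constructor <;> linarith

private theorem yy_I (a z : ℂ) : yy Complex.I a z = (z - a).im := by
  rw [yy, Complex.star_def, Complex.conj_I]
  simp

/-- the vertical distance of two good points is at most `C` if their horizontal distance is at most `D` -/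
private theorem good_im (hs : Str G T rho δ γ A' B) (β β' : G.ι → ℝ) (D : ℝ) : ∃ C : ℝ, 0 ≤ C ∧
    ∀ (q : G.J → ℂ) (F : ℂ → EN N), Mem G T rho δ γ A' B β β' q F → ∀ a ∈ Gd rho δ F, ∀ a' ∈ Gd rho δ F, |(a' - a).re| ≤ D → ‖a' - a‖ ≤ C := by
  obtain ⟨n, hn⟩ : ∃ n : ℝ, n = Fintype.card G.ι := ⟨_, rfl⟩
  have hn0 : 0 ≤ n := by rw [hn]; exact Nat.cast_nonneg _
  obtain ⟨T₀, hT1, hT⟩ := exists_T' hs.γ_lt (D + n * (B * Pool.Agent.SR3.pw γ 0) / A') (n * B / A')
  refine ⟨T₀, by linarith, fun q F hm a ha a' ha' hD => hT _ (norm_nonneg _) ?_⟩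
  have h1 := (fits_all hs hm ha).2.2
  have h2 := (fits_all hs hm ha').2.2
  have h0 := (fits_all hs hm ha).2.1
  -- one component
  have h3 : ∀ i, lin Complex.I a (β i) (β' i) a' ≤ B * Pool.Agent.SR3.pw γ ‖a' - a‖ + B * Pool.Agent.SR3.pw γ 0 := fun i => by
    have h4 := abs_le.1 (h1 a' (Set.mem_univ _) i)
    have h5 := abs_le.1 (h2 a' (Set.mem_univ _) i)
    have h6 : lin Complex.I a' (β i) (β' i) a' = 0 := by simp [lin, yy]
    simp only [sub_self, norm_zero] at h5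
    rw [h6] at h5
    linarith [h4.1, h4.2, h5.1, h5.2]
  have h4 : ∑ i, lin Complex.I a (β i) (β' i) a' ≤ n * (B * Pool.Agent.SR3.pw γ ‖a' - a‖ + B * Pool.Agent.SR3.pw γ 0) := by
    refine (Finset.sum_le_sum fun i _ => h3 i).trans ?_
    rw [Finset.sum_const, Finset.card_univ, nsmul_eq_mul, hn]
  have h5 : A' * |(a' - a).im| ≤ ∑ i, lin Complex.I a (β i) (β' i) a' := by
    have h6 : ∑ i, lin Complex.I a (β i) (β' i) a' = (∑ i, β i) * max (a' - a).im 0 + (∑ i, β' i) * max (-(a' - a).im) 0 := by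
      simp only [lin, yy_I]
      rw [Finset.sum_add_distrib, Finset.sum_mul, Finset.sum_mul]
    rw [h6]
    have h7 : |(a' - a).im| = max (a' - a).im 0 + max (-(a' - a).im) 0 := by
      rcases le_total 0 (a' - a).im with h | h
      · rw [abs_of_nonneg h, max_eq_left h, max_eq_right (by linarith), add_zero]
      · rw [abs_of_nonpos h, max_eq_right h, max_eq_left (by linarith), zero_add]
    rw [h7, mul_add]
    exact add_le_add (mul_le_mul_of_nonneg_right hm.sum (le_max_right _ _)) (mul_le_mul_of_nonneg_right hm.sum' (le_max_right _ _))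
  have h6 : |(a' - a).im| ≤ n * (B * Pool.Agent.SR3.pw γ ‖a' - a‖ + B * Pool.Agent.SR3.pw γ 0) / A' := by
    rw [le_div_iff₀ hs.A'_pos]
    linarith
  have h7 := Complex.norm_le_abs_re_add_abs_im (a' - a)
  calc ‖a' - a‖ ≤ D + n * (B * Pool.Agent.SR3.pw γ ‖a' - a‖ + B * Pool.Agent.SR3.pw γ 0) / A' := by linarith
    _ = D + n * (B * Pool.Agent.SR3.pw γ 0) / A' + n * B / A' * Pool.Agent.SR3.pw γ ‖a' - a‖ := by ring

/-- the neighbourhood of the good set is in the tube around a chain -/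
theorem tube_cover (_hG : G.Ok) (hf : Facts G T rho δ γ A' B) (β β' : G.ι → ℝ) (M₀ L κ : ℝ) :
    ∃ r₀ C : ℝ, 0 ≤ C ∧ ∀ (q : G.J → ℂ) (F : ℂ → EN N) (z : ℤ → ℂ), Mem G T rho δ γ A' B β β' q F → IsChain M₀ L F z → ∀ y : ℂ,
      infDist y (Gd rho δ F) ≤ κ → ∃ (k : ℤ) (w : ℂ), ‖w‖ ≤ r₀ ∧ y = z k + w ∧ |(k : ℝ)| ≤ ‖y‖ + C ∧ ‖y‖ ≤ C * (1 + |(k : ℝ)|) := by
  obtain ⟨R, hR⟩ := hf.gapD (Real.log (max M₀ 1))
  obtain ⟨C₁, hC₁, hC⟩ := good_im hf.str β β' (L + (R + 1))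
  obtain ⟨r₀, hr₀⟩ : ∃ r₀ : ℝ, r₀ = (κ + 1) + (C₁ + (R + 1)) := ⟨_, rfl⟩
  refine ⟨r₀, |r₀| + |L|, by positivity, fun q F z hm hz y hy => ?_⟩
  have hne := hf.good q F hm.cl
  -- a good point near `y`
  obtain ⟨a, ha, hya⟩ := (infDist_lt_iff hne).1 (lt_of_le_of_lt hy (lt_add_one κ))
  -- a point of the chain with almost the same real part, and a good point near it
  obtain ⟨k, hk⟩ := exists_re hz a.re
  have h1 : Real.log ‖F (z k)‖ ≤ Real.log (max M₀ 1) := by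
    rcases (norm_nonneg (F (z k))).eq_or_lt with h | h
    · rw [← h, Real.log_zero]
      exact Real.log_nonneg (le_max_right _ _)
    · exact Real.log_le_log h ((hz.good k).trans (le_max_left _ _))
  obtain ⟨a', ha', hza⟩ := (infDist_lt_iff hne).1 (lt_of_le_of_lt (hR q F hm.cl (z k) h1) (lt_add_one R))
  rw [dist_eq_norm] at hya hza
  have h2 : ‖a' - a‖ ≤ C₁ := by
    refine hC q F hm a ha a' ha' ?_
    have h3 : (a' - a).re = -(z k - a').re + ((z k).re - a.re) := by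
      simp only [Complex.sub_re]
      ring
    rw [h3]
    refine (abs_add_le _ _).trans ?_
    rw [abs_neg]
    have h4 := Complex.abs_re_le_norm (z k - a')
    linarith
  have h3 : ‖y - z k‖ ≤ r₀ := by
    have h4 : y - z k = (y - a) + (-(a' - a) + -(z k - a')) := by ring
    rw [h4, hr₀]
    refine (norm_add_le _ _).trans (add_le_add hya.le ((norm_add_le _ _).trans ?_))
    rw [norm_neg, norm_neg]
    exact add_le_add h2 hza.le
  refine ⟨k, y - z k, h3, by ring, ?_, ?_⟩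
  · have h4 := hz.le_norm k
    have h5 : ‖z k‖ ≤ ‖y‖ + ‖y - z k‖ := by
      have h6 : z k = y - (y - z k) := by ring
      calc ‖z k‖ = ‖y - (y - z k)‖ := by rw [← h6]
        _ ≤ _ := norm_sub_le _ _
    have h6 := le_abs_self r₀
    have h7 := abs_nonneg L
    linarith
  · have h4 := hz.norm_le k
    have h5 : ‖y‖ ≤ ‖z k‖ + ‖y - z k‖ := by
      have h6 : y = z k + (y - z k) := by ring
      calc ‖y‖ = ‖z k + (y - z k)‖ := by rw [← h6]
        _ ≤ _ := norm_add_le _ _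
    have h6 := le_abs_self r₀
    have h7 : L * |(k : ℝ)| ≤ |L| * |(k : ℝ)| := mul_le_mul_of_nonneg_right (le_abs_self L) (abs_nonneg _)
    have h8 : 0 ≤ |r₀| * |(k : ℝ)| := by positivity
    have h9 := abs_nonneg L
    nlinarith

end Pool.Agent.SR3.G

end
end

section

/-!
# SR3 ACp: compactness of the class
-/

set_option autoImplicit false

open Topology Filter Metric

noncomputable section

namespace Pool.Agent.SR3

open Pool.Agent.H36.BP (EN fs wd Sub OrdTwo)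
open Pool.Agent.H14.PP (IsCone Tan)
open Pool.Agent.SY (Ent)
open Pool.Agent.SDA (Nm)
open Geo (Gd)

variable {N : ℕ} {G : Geo N} {T : Set (EN N)} {rho : EN N → ℝ} {M : ℕ} {c₀ C δ : ℝ} {g : (ℂ → EN N) → ℂ → ℝ}

theorem compact (hG : G.Ok) (hM : G.Met T rho M c₀ C δ g) (𝒰 : Ultrafilter ℕ) (h𝒰 : (𝒰 : Filter ℕ) ≤ atTop) (q : ℕ → G.J → ℂ) (F : ℕ → ℂ → EN N)
    (hF : ∀ k, G.Cl T (q k) (F k)) (h0 : ∀ k, δ ≤ rho (F k 0)) :
    ∃ (q' : G.J → ℂ) (H : ℂ → EN N), G.Cl T q' H ∧ Tendsto q 𝒰 (𝓝 q') ∧ δ ≤ rho (H 0) ∧ TendstoLocallyUniformlyOn F H 𝒰 Set.univ := by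
  obtain ⟨C₁, -, hC₁⟩ := bound hG hM
  obtain ⟨d₁, C₂, hd₁, hd, -⟩ := thick hG hM hM.pos
  obtain ⟨H, hH1, hH2, -, -, hH3⟩ := Pool.Agent.SDA.compactness (setup_fs hG hM) 𝒰 h𝒰 F (fun k => (hF k).ent) (fun k => nm_iff.2 (hF k).nm)
    hd₁ (fun k z _ => hC₁ (q k) (F k) (hF k) z) (fun k => hd (F k) (hF k).ent 0 (h0 k) (cl_n (hF k) 0).ge)
  have hHd : Differentiable ℂ H := hH1.diff
  have hHK : ∀ z, H z ∈ G.K := hH1.mem
  have hFK : ∀ᶠ k in (𝒰 : Filter ℕ), Differentiable ℂ (F k) ∧ ∀ z, F k z ∈ G.K := Eventually.of_forall fun k => ⟨(hF k).ent.diff, (hF k).ent.mem⟩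
  have hw : ∀ z j, Tendsto (fun k => q k j) 𝒰 (𝓝 (G.w j (H z) (deriv H z))) := fun z j =>
    (w_tendsto hG j hFK hHd hHK hH3 z).congr fun k => (hF k).val j z
  have hval : ∀ j z, G.w j (H z) (deriv H z) = G.w j (H 0) (deriv H 0) := fun j z => tendsto_nhds_unique (hw z j) (hw 0 j)
  refine ⟨fun j => G.w j (H 0) (deriv H 0), H, ⟨hH1, nm_iff.1 hH2, hval, ?_⟩, tendsto_pi_nhds.2 fun j => hw 0 j, ?_, hH3⟩
  · have h1 := n_tendsto hG hFK hHd hHK hH3 0
    have h2 : Tendsto (fun k => G.n (F k 0) (deriv (F k) 0)) 𝒰 (𝓝 1) :=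
      tendsto_const_nhds.congr fun k => (cl_n (hF k) 0).symm
    rw [← nq_eq (fun j => G.w j (H 0) (deriv H 0)) (x := H 0) (v := deriv H 0) fun j => rfl]
    exact tendsto_nhds_unique h1 h2
  · have h1 : Tendsto (fun k => F k 0) 𝒰 (𝓝 (H 0)) := hH3.tendsto_at (Set.mem_univ 0)
    have h2 : Tendsto (fun k => F k 0) 𝒰 (𝓝[G.X] (H 0)) :=
      tendsto_nhdsWithin_iff.2 ⟨h1, Eventually.of_forall fun k => KX hG ((hF k).ent.mem 0)⟩
    exact ge_of_tendsto ((hM.rhoc (H 0) (KX hG (hHK 0))).tendsto.comp h2) (Eventually.of_forall h0)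

end Pool.Agent.SR3

end
end
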