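import Pool.Agent.H43.TL2.M187
import Pool.Agent.H43.TL2.M188
import Pool.Agent.H43.TL2.M190
import Pool.Agent.H43.TL2.SR3.NCcA

/-! The parts of this file: SR3.NCu, SR3.F.Rigid. -/

section

/-!
# SR3 NCu (MODULE H14): from `the null curves of order two lie in {R = 0}' to the data `NullCurve'

The ideals `mapIdeal f` of the null curves `f` of order two are finitely many homogeneous primes `J` of dimension one, `R'` are forms which generate their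
intersection `I` up to powers of the coordinates.  Outside a finite set, a common zero `x` of the `R'` lies in exactly one of the curves and the tangent
vectors of `I` at `x` are those of `J`, spanned by `x` and `t (x)`; `W (x, t (x))` vanishes on the curve.
-/

set_option autoImplicit false

open Topology Filter Metric MvPolynomial

noncomputable section

namespace Pool.Agent.SR3

open Pool.Agent.SR3.NC
open Pool.Agent.H36.BP (EN)
open Pool.Agent.H17 (PN VanishesAt HolomorphicInto)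
open Pool.Agent.H62.FC (Homog)
open Pool.Agent.H17LG.Variety (FunField)
open Pool.Agent.H17EF (projVar coneE mk_mem_projVar)
open Pool.Agent.H17GT (coordFun functionField)
open Pool.Agent.H17R (coordFun_ne_zero_iff)
open Pool.Agent.H13.SM (conTan cone Inv_hasFDerivAt_eval)
open Pool.Agent.H13.OT (OrderTwo)
open Pool.Agent.H17BP (mapIdeal mapIdeal_homog mem_mapIdeal_form vanishesAt_mk)
open Pool.Agent.AD (SymDiff TangentTo)
open Pool.Agent.AD.NC (IsSmooth)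
open Pool.Agent.H14.PP (Tan)

variable {N : ℕ} {P : Ideal (MvPolynomial (Fin (N + 1)) ℂ)} {H : MvPolynomial (Fin (N + 1)) ℂ} {h : ℕ}

/-- a form which is in all the ideals except `J` -/
private theorem ncu_sep {J : Ideal (MvPolynomial (Fin (N + 1)) ℂ)} [hJ : J.IsPrime] {T : Set (Ideal (MvPolynomial (Fin (N + 1)) ℂ))} (hT : T.Finite)
    (hh : ∀ J' ∈ T, Homog J') (hn : ∀ J' ∈ T, J' ≠ J → ¬ J' ≤ J) :
    ∃ (K : MvPolynomial (Fin (N + 1)) ℂ) (n : ℕ), K.IsHomogeneous n ∧ K ∉ J ∧ ∀ J' ∈ T, J' ≠ J → K ∈ J' := by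
  classical
  induction T, hT using Set.Finite.induction_on with
  | empty => exact ⟨1, 0, isHomogeneous_one _ _, fun h => hJ.ne_top ((Ideal.eq_top_iff_one J).2 h), fun J' h => absurd h (Set.notMem_empty _)⟩
  | @insert a T _ _ ih =>
    obtain ⟨K, n, hK, hKJ, hK'⟩ := ih (fun J' h => hh J' (Set.mem_insert_of_mem _ h)) (fun J' h => hn J' (Set.mem_insert_of_mem _ h))
    by_cases haJ : a = J
    · refine ⟨K, n, hK, hKJ, ?_⟩
      rintro J' (rfl | hJ') hne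
      · exact absurd haJ hne
      · exact hK' J' hJ' hne
    · have h1 := hn a (Set.mem_insert _ _) haJ
      obtain ⟨q, hqa, hqJ⟩ := Set.not_subset.1 h1
      obtain ⟨i, hi⟩ : ∃ i, homogeneousComponent i q ∉ J := by
        by_contra hcon
        push Not at hcon
        apply hqJ
        rw [← MvPolynomial.sum_homogeneousComponent q]
        exact Ideal.sum_mem _ fun i _ => hcon i
      refine ⟨homogeneousComponent i q * K, i + n, (homogeneousComponent_isHomogeneous i q).mul hK, fun h => (hJ.mem_or_mem h).elim hi hKJ, ?_⟩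
      rintro J' (rfl | hJ') hne
      · exact Ideal.mul_mem_right _ _ (hh _ (Set.mem_insert _ _) q hqa i)
      · exact Ideal.mul_mem_left _ _ (hK' J' hJ' hne)

/-- a point of a finite intersection -/
private theorem ncu_point {T : Set (Ideal (MvPolynomial (Fin (N + 1)) ℂ))} (hT : T.Finite) {x : Fin (N + 1) → ℂ}
    (hx : ∀ Q ∈ sInf T, eval x Q = 0) : ∃ J ∈ T, ∀ Q ∈ J, eval x Q = 0 := by
  classical
  by_contra hcon
  push Not at hcon
  have key : ∀ S ⊆ T, ∃ q, (∀ J ∈ S, q ∈ J) ∧ eval x q ≠ 0 := by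
    intro S hST
    have hS := hT.subset hST
    induction S, hS using Set.Finite.induction_on with
    | empty => exact ⟨1, fun J h => absurd h (Set.notMem_empty _), by simp⟩
    | @insert a S _ _ ih =>
      obtain ⟨q, hq, hq0⟩ := ih fun J h => hST (Set.mem_insert_of_mem _ h)
      obtain ⟨r, hr, hr0⟩ := hcon a (hST (Set.mem_insert _ _))
      refine ⟨r * q, ?_, by rw [map_mul]; exact mul_ne_zero hr0 hq0⟩
      rintro J (rfl | hJ)
      · exact Ideal.mul_mem_right _ _ hr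
      · exact Ideal.mul_mem_left _ _ (hq J hJ)
  obtain ⟨q, hq, hq0⟩ := key T subset_rfl
  exact hq0 (hx q (Submodule.mem_sInf.2 hq))

private theorem ncu_fderiv (Q : MvPolynomial (Fin (N + 1)) ℂ) (x v : EN N) :
    fderiv ℂ (fun y : EN N => eval y.ofLp Q) x v = ∑ i, v i * eval x.ofLp (pderiv i Q) := by
  have h1 := Inv_hasFDerivAt_eval Q x.ofLp
  have h2 : HasFDerivAt (fun y : EN N => y.ofLp) ((EuclideanSpace.equiv (Fin (N + 1)) ℂ : EN N →L[ℂ] (Fin (N + 1) → ℂ))) x :=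
    (EuclideanSpace.equiv (Fin (N + 1)) ℂ).hasFDerivAt
  have h3 : HasFDerivAt (fun y : EN N => eval y.ofLp Q)
      ((∑ i, eval x.ofLp (pderiv i Q) • (ContinuousLinearMap.proj i : (Fin (N + 1) → ℂ) →L[ℂ] ℂ)).comp
        (EuclideanSpace.equiv (Fin (N + 1)) ℂ : EN N →L[ℂ] (Fin (N + 1) → ℂ))) x := h1.comp x h2
  rw [h3.fderiv]
  simp only [ContinuousLinearMap.comp_apply, sum_apply, smul_apply, ContinuousLinearMap.proj_apply, smul_eq_mul]
  exact Finset.sum_congr rfl fun i _ => mul_comm _ _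

private theorem ncu_coord {Q : Ideal (MvPolynomial (Fin (N + 1)) ℂ)} [Q.IsPrime] {k : ℕ} {z : Fin (k + 1) → FunField Q}
    (hz : IsTranscendenceBasis ℂ z) : ∃ i, coordFun Q i ≠ 0 := by
  by_contra hcon
  push Not at hcon
  have h1 : functionField Q = ⊥ := by
    rw [functionField, IntermediateField.adjoin_eq_bot_iff]
    rintro f ⟨i, j, rfl⟩
    rw [hcon i, zero_div]
    exact zero_mem _
  have h2 : Transcendental ℂ (z 0) := hz.1.transcendental 0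
  apply h2
  set y : functionField Q := z 0 with hy
  have h3 : (y : FractionRing (MvPolynomial (Fin (N + 1)) ℂ ⧸ Q)) ∈
      (⊥ : IntermediateField ℂ (FractionRing (MvPolynomial (Fin (N + 1)) ℂ ⧸ Q))) := by
    rw [← h1]
    exact y.2
  obtain ⟨c, hc⟩ := IntermediateField.mem_bot.mp h3
  have h4 : y = algebraMap ℂ (functionField Q) c := Subtype.ext hc.symm
  have h5 : IsAlgebraic ℂ y := by
    rw [h4]
    exact isAlgebraic_algebraMap c
  exact h5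

theorem exists_nullCurve [P.IsPrime] {z : Fin 2 → FunField P} (hP : Homog P) (hz : IsTranscendenceBasis ℂ z) (hsm : IsSmooth P 2)
    (hH : H.IsHomogeneous h) (h1 : 1 ≤ h) (hHP : H ∉ P) {s : ℕ} {m : Fin s → ℕ} (hs1 : 1 ≤ s) (hm : ∀ j, 1 ≤ m j) (θ : ∀ j, SymDiff (oc P H) (m j))
    (hθ : ∀ j, IsAlg (θ j)) {R : MvPolynomial (Fin (N + 1)) ℂ} {d : ℕ} (hR : R.IsHomogeneous d) (hRP : R ∉ P)
    (hnull : ∀ f : ℂ → PN N, HolomorphicInto f Set.univ → OrderTwo f → (∀ z, f z ∈ projVar P ∧ ¬ VanishesAt H (f z)) → (∃ z w, f z ≠ f w) →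
      (∀ j, TangentTo (θ j) f) → ∀ z, VanishesAt R (f z)) :
    ∃ (t : ℕ) (R' : Fin t → MvPolynomial (Fin (N + 1)) ℂ), NullCurve θ R' := by
  classical
  choose W r hW using hθ
  obtain ⟨T, hTdef⟩ : ∃ T : Set (Ideal (MvPolynomial (Fin (N + 1)) ℂ)), T = {J | ∃ f : ℂ → PN N, HolomorphicInto f Set.univ ∧ OrderTwo f ∧
    (∀ z, f z ∈ projVar P ∧ ¬ VanishesAt H (f z)) ∧ (∃ z w, f z ≠ f w) ∧ (∀ j, TangentTo (θ j) f) ∧ J = mapIdeal f Set.univ} := ⟨_, rfl⟩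
  have hcur : ∀ J ∈ T, ∃ f, CurveIn P R f ∧ (∀ z, f z ∈ projVar P ∧ ¬ VanishesAt H (f z)) ∧ (∀ j, TangentTo (θ j) f) ∧ J = mapIdeal f Set.univ := by
    intro J hJ
    rw [hTdef] at hJ
    obtain ⟨f, a1, a2, a3, a4, a5, rfl⟩ := hJ
    exact ⟨f, ⟨a1, a4, fun z => (a3 z).1, hnull f a1 a2 a3 a4 a5⟩, a3, a5, rfl⟩
  have hTfin : T.Finite := (finite_curves hP ⟨z, hz⟩ hR hRP).subset fun J hJ => by
    obtain ⟨f, hf, -, -, rfl⟩ := hcur J hJ
    exact ⟨f, hf, rfl⟩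
  have hThom : ∀ J ∈ T, Homog J := by
    intro J hJ
    obtain ⟨f, -, -, -, rfl⟩ := hcur J hJ
    exact mapIdeal_homog
  -- the data of one curve
  have hdat : ∀ J ∈ T, P ≤ J ∧ R ∈ J ∧ ∃ (G : MvPolynomial (Fin (N + 1)) ℂ) (t : Fin (N + 1) → MvPolynomial (Fin (N + 1)) ℂ)
      (K : MvPolynomial (Fin (N + 1)) ℂ) (n : ℕ), (G * K).IsHomogeneous n ∧ Tng J G t ∧ (∀ j, aeval (Sum.elim X t) (W j) ∈ J) ∧
      (∀ J' ∈ T, J' ≠ J → K ∈ J') ∧ {p : PN N | p ∈ projVar J ∧ VanishesAt (G * K) p}.Finite := by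
    intro J hJ
    obtain ⟨f, hf, hfP, hft, hJf⟩ := hcur J hJ
    have hp : J.IsPrime := by
      rw [hJf]
      exact curve_prime hf
    have hJz : ∃ z : Fin 1 → FunField J, IsTranscendenceBasis ℂ z := by
      subst hJf
      exact curve_trdeg hP ⟨z, hz⟩ hR hRP hf (curve_prime hf)
    have hPJ : P ≤ J := by
      rw [hJf]
      exact Pool.Agent.H17BP.le_mapIdeal hP fun z _ => ⟨hf.mem z, fun m => m.elim0⟩
    have hRJ : R ∈ J := by
      rw [hJf]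
      exact (mem_mapIdeal_form hR).2 fun z _ => hf.van z
    obtain ⟨z', hz'⟩ := hJz
    obtain ⟨G, g, t, e, hG, hGJ, -, -, ht⟩ := exists_tangent (hThom J hJ) hz'
    obtain ⟨K, n, hK, hKJ, hK'⟩ := ncu_sep (J := J) hTfin hThom fun J' hJ' hne hle => by
      obtain ⟨f', hf', -, -, hJf'⟩ := hcur J' hJ'
      apply hne
      rw [hJf, hJf'] at hle ⊢
      exact curve_eq hP ⟨z, hz⟩ hR hRP hf' hf hle
    refine ⟨hPJ, hRJ, G, t, K, g + n, hG.mul hK, ht, fun j => ?_, hK', ?_⟩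
    · have hG' : G ∉ mapIdeal f Set.univ := hJf ▸ hGJ
      have ht' : Tng (mapIdeal f Set.univ) G t := hJf ▸ ht
      rw [hJf]
      exact null_mem hP (hm j) (θ j) hH (hW j) hf.hol hfP hf.ne (hft j) hG' ht'
    · exact finite_zeros (hThom J hJ) ⟨z', hz'⟩ (hG.mul hK) fun h => (hp.mem_or_mem h).elim hGJ hKJ
  -- the forms
  have hIhom : Homog (sInf T) := by
    intro Q hQ n
    rw [Submodule.mem_sInf] at hQ ⊢
    exact fun J hJ => hThom J hJ Q (hQ J hJ) n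
  have hIP : ¬ sInf T ≤ P := fun hle => hRP (hle (Submodule.mem_sInf.2 fun J hJ => (hdat J hJ).2.1))
  obtain ⟨l, hl⟩ := ncu_coord (k := 1) hz
  obtain ⟨t, D, R', hhom, hmem, hneP, hpt⟩ := exists_gens (P := P) ⟨l, Pool.Agent.H17R.coordFun_ne_zero_iff.1 hl⟩ hIhom hIP
  refine ⟨t, R', ⟨⟨D, hhom⟩, hneP, ?_, ?_⟩⟩
  · intro f a1 a2 a3 a4 a5 l z
    have hJ : mapIdeal f Set.univ ∈ T := by
      rw [hTdef]
      exact ⟨f, a1, a2, a3, a4, a5, rfl⟩
    exact (mem_mapIdeal_form (hhom l)).1 (Submodule.mem_sInf.1 (hmem l) _ hJ) z (Set.mem_univ z)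
  · have hdat2 : ∀ J : T, ∃ (G : MvPolynomial (Fin (N + 1)) ℂ) (t : Fin (N + 1) → MvPolynomial (Fin (N + 1)) ℂ)
        (K : MvPolynomial (Fin (N + 1)) ℂ) (n : ℕ), (G * K).IsHomogeneous n ∧ Tng J.1 G t ∧ (∀ j, aeval (Sum.elim X t) (W j) ∈ J.1) ∧
        (∀ J' ∈ T, J' ≠ J.1 → K ∈ J') ∧ {p : PN N | p ∈ projVar J.1 ∧ VanishesAt (G * K) p}.Finite := fun J => (hdat J.1 J.2).2.2
    choose G t K n hGK hTng hWJ hKJ hfin using hdat2
    have hTF : Finite T := hTfin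
    have hS : (⋃ J : T, {p : PN N | p ∈ projVar J.1 ∧ VanishesAt (G J * K J) p}).Finite := Set.finite_iUnion hfin
    refine ⟨hS.toFinset, fun x hx hx0 hxS hxR v hv hdv j => ?_⟩
    rw [Set.Finite.mem_toFinset] at hxS
    obtain ⟨hxI, hvI⟩ := hpt x.ofLp hx0 hxR
    have hvI' := hvI v.ofLp fun l => by
      rw [← ncu_fderiv]
      exact hdv l
    obtain ⟨J, hJ, hxJ⟩ := ncu_point hTfin hxI
    have hmk : Projectivization.mk ℂ x.ofLp hx0 ∈ projVar J := (mk_mem_projVar (hThom J hJ) hx0).2 ⟨hx0, hxJ⟩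
    have hne : eval x.ofLp (G ⟨J, hJ⟩ * K ⟨J, hJ⟩) ≠ 0 := by
      intro h0
      apply hxS
      rw [Set.mem_iUnion]
      exact ⟨⟨J, hJ⟩, hmk, (vanishesAt_mk (hGK ⟨J, hJ⟩) hx0).2 h0⟩
    rw [map_mul] at hne
    have hG0 := left_ne_zero_of_mul hne
    have hK0 := right_ne_zero_of_mul hne
    have hvJ : v.ofLp ∈ conTan J x.ofLp := by
      intro Q hQ
      have hKQ : K ⟨J, hJ⟩ * Q ∈ sInf T := by
        rw [Submodule.mem_sInf]
        intro J' hJ'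
        by_cases hJJ : J' = J
        · rw [hJJ]
          exact Ideal.mul_mem_left _ _ hQ
        · exact Ideal.mul_mem_right _ _ (hKJ ⟨J, hJ⟩ J' hJ' hJJ)
      have h3 := hvI' _ hKQ
      have h4 : ∀ i, eval x.ofLp (pderiv i (K ⟨J, hJ⟩ * Q)) = eval x.ofLp (K ⟨J, hJ⟩) * eval x.ofLp (pderiv i Q) := by
        intro i
        rw [Derivation.leibniz, smul_eq_mul, smul_eq_mul, map_add, map_mul, map_mul, hxJ Q hQ, zero_mul, add_zero]
      simp only [h4] at h3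
      have h5 : eval x.ofLp (K ⟨J, hJ⟩) * ∑ i, v.ofLp i * eval x.ofLp (pderiv i Q) = 0 := by
        rw [Finset.mul_sum, ← h3]
        exact Finset.sum_congr rfl fun i _ => by ring
      exact (mul_eq_zero.1 h5).resolve_left hK0
    exact null_at hP hz hsm (hdat J hJ).1 (hm j) (θ j) (hW j) (hTng ⟨J, hJ⟩) (hWJ ⟨J, hJ⟩ j) hx hxJ hG0 hvJ

end Pool.Agent.SR3

end
end

section

/-!
# SR3 F Rigid: rigidity
-/

set_option autoImplicit false

open Topology Filter Metric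

noncomputable section

namespace Pool.Agent.SR3.F

open Pool.Agent.H36.BP (EN fs)
open Pool.Agent.H14.PP (Tan)
open Pool.Agent.SR3.G (Str RigidF)
open Geo (Gd)

variable {N : ℕ} {G : Geo N} {T : Set (EN N)} {rho : EN N → ℝ} {M : ℕ} {c₀ C δ γ A' B : ℝ} {g : (ℂ → EN N) → ℂ → ℝ}

private theorem pw_pos (γ : ℝ) {r : ℝ} (hr : 0 ≤ r) : 0 < pw γ r := Real.rpow_pos_of_pos (by linarith) _

private theorem one_le_pw {γ : ℝ} (hγ : 0 ≤ γ) {r : ℝ} (hr : 0 ≤ r) : 1 ≤ pw γ r := Real.one_le_rpow (by linarith) hγ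

private theorem pw_mono {γ γ' : ℝ} (h : γ ≤ γ') {r : ℝ} (hr : 0 ≤ r) : pw γ r ≤ pw γ' r := Real.rpow_le_rpow_of_exponent_le (by linarith) h

private theorem pw_sub_le {γ : ℝ} (hγ : 0 ≤ γ) (hγ1 : γ ≤ 1) (a z : ℂ) : pw γ ‖z - a‖ ≤ (1 + ‖a‖) * pw γ ‖z‖ := by
  unfold pw
  have h1 : 2 + ‖z - a‖ ≤ (1 + ‖a‖) * (2 + ‖z‖) := by
    have := norm_sub_le z a
    nlinarith [norm_nonneg z, norm_nonneg a, mul_nonneg (norm_nonneg z) (norm_nonneg a)]
  have h2 : 1 ≤ 1 + ‖a‖ := by linarith [norm_nonneg a]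
  calc (2 + ‖z - a‖) ^ γ ≤ ((1 + ‖a‖) * (2 + ‖z‖)) ^ γ := Real.rpow_le_rpow (by positivity) h1 hγ
    _ = (1 + ‖a‖) ^ γ * (2 + ‖z‖) ^ γ := Real.mul_rpow (by positivity) (by positivity)
    _ ≤ (1 + ‖a‖) ^ (1 : ℝ) * (2 + ‖z‖) ^ γ := by
      refine mul_le_mul_of_nonneg_right (Real.rpow_le_rpow_of_exponent_le h2 hγ1) (by positivity)
    _ = (1 + ‖a‖) * (2 + ‖z‖) ^ γ := by rw [Real.rpow_one]

/-- the growth of a curve away from its line -/
private theorem log_ge (hG : G.Ok) (hγ : 0 ≤ γ) (hγ1 : γ ≤ 1) (hB : 0 ≤ B) {F : ℂ → EN N} (hK : ∀ z, F z ∈ G.K) (hp : ∀ z, G.p (F z) = 1) {a u : ℂ} {β β' : G.ι → ℝ}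
    (hf : G.Fits F a u β β' (fun z => B * pw γ ‖z - a‖) Set.univ) (h1 : A' ≤ ∑ i, β i) (h2 : A' ≤ ∑ i, β' i) :
    ∃ Q : ℝ, 0 ≤ Q ∧ ∀ z, A' / G.h * |yy u a z| - Q * pw γ ‖z‖ ≤ Real.log ‖F z‖ := by
  obtain ⟨C₁, hC₁⟩ := hG.cmp
  have hh : (0 : ℝ) < G.h := by
    have h3 : 1 ≤ G.h := hG.aff.pos ()
    exact_mod_cast h3
  have hC0 : 0 ≤ C₁ := (abs_nonneg _).trans (hC₁ _ (hK 0))
  refine ⟨(C₁ + (∑ i, (G.b i : ℝ)) * B * (1 + ‖a‖)) / G.h, by positivity, fun z => ?_⟩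
  have h3 := hC₁ _ (hK z)
  rw [hp z, norm_one, Real.log_one, sub_zero, abs_le] at h3
  have h4 : ∀ i, lin u a (β i) (β' i) z - B * pw γ ‖z - a‖ ≤ G.lam i (F z) := fun i => by
    have := hf.2.2 z (Set.mem_univ z) i
    rw [abs_le] at this
    linarith [this.1]
  have hl0 : ∀ i, 0 ≤ lin u a (β i) (β' i) z := fun i => by
    unfold lin
    exact add_nonneg (mul_nonneg (hf.2.1 i).1 (le_max_right _ _)) (mul_nonneg (hf.2.1 i).2 (le_max_right _ _))
  have h5 : ∑ i, (lin u a (β i) (β' i) z) - (∑ i, (G.b i : ℝ)) * (B * pw γ ‖z - a‖) ≤ ∑ i, G.b i * G.lam i (F z) := by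
    rw [Finset.sum_mul, ← Finset.sum_sub_distrib]
    refine Finset.sum_le_sum fun i _ => ?_
    have hb : (1 : ℝ) ≤ G.b i := by exact_mod_cast hG.b_pos i
    have h6 := mul_le_mul_of_nonneg_left (h4 i) (by linarith : (0 : ℝ) ≤ G.b i)
    have h7 := mul_le_mul_of_nonneg_right hb (hl0 i)
    rw [mul_sub] at h6
    linarith
  have h6 : A' * |yy u a z| ≤ ∑ i, lin u a (β i) (β' i) z := by
    unfold lin
    rw [Finset.sum_add_distrib, ← Finset.sum_mul, ← Finset.sum_mul]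
    rcases le_total 0 (yy u a z) with h | h
    · rw [abs_of_nonneg h, max_eq_left h, max_eq_right (by linarith), mul_zero, add_zero]
      exact mul_le_mul_of_nonneg_right h1 h
    · rw [abs_of_nonpos h, max_eq_right h, max_eq_left (by linarith), mul_zero, zero_add]
      exact mul_le_mul_of_nonneg_right h2 (by linarith)
  have h7 : (∑ i, (G.b i : ℝ)) * (B * pw γ ‖z - a‖) ≤ (∑ i, (G.b i : ℝ)) * (B * ((1 + ‖a‖) * pw γ ‖z‖)) := by
    refine mul_le_mul_of_nonneg_left (mul_le_mul_of_nonneg_left (pw_sub_le hγ hγ1 a z) hB) (by positivity)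
  have h8 := one_le_pw hγ (norm_nonneg z)
  have h9 : G.h * Real.log ‖F z‖ ≥ A' * |yy u a z| - (C₁ + (∑ i, (G.b i : ℝ)) * B * (1 + ‖a‖)) * pw γ ‖z‖ := by
    have h10 : C₁ ≤ C₁ * pw γ ‖z‖ := le_mul_of_one_le_right hC0 h8
    have h11 := h3.1
    nlinarith
  have h12 : A' / G.h * |yy u a z| - (C₁ + (∑ i, (G.b i : ℝ)) * B * (1 + ‖a‖)) / G.h * pw γ ‖z‖ =
      (A' * |yy u a z| - (C₁ + (∑ i, (G.b i : ℝ)) * B * (1 + ‖a‖)) * pw γ ‖z‖) / G.h := by
    field_simp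
  rw [h12, div_le_iff₀ hh]
  linarith

private theorem deriv_ne (hG : G.Ok) {q : G.J → ℂ} {F : ℂ → EN N} (hF : G.Cl T q F) (z : ℂ) : deriv F z ≠ 0 := by
  intro h0
  have hT : Tan G.X (F z) (deriv F z) := tan hG hF.ent.1 hF.ent.mem z
  have hq : ∀ j, q j = 0 := fun j => by
    have h1 := hF.val j z
    have h2 := hG.w_hom j (F z) (hF.ent.mem z) (deriv F z) hT 0
    rw [zero_smul, zero_pow (by have := hG.one_m j; omega), zero_mul] at h2
    rw [h0, h2] at h1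
    exact h1.symm
  have h1 := hF.one
  unfold Geo.nq at h1
  have h2 : ∑ j, ‖q j‖ ^ ((G.m j : ℝ)⁻¹) = 0 := by
    refine Finset.sum_eq_zero fun j _ => ?_
    rw [hq j, norm_zero, Real.zero_rpow]
    have : (1 : ℝ) ≤ G.m j := by exact_mod_cast hG.one_m j
    positivity
  rw [h2] at h1
  exact zero_ne_one h1

private theorem fderiv_p_curve (hG : G.Ok) {F : ℂ → EN N} (hF : Differentiable ℂ F) (hp : ∀ z, G.p (F z) = 1) (z : ℂ) : fderiv ℂ G.p (F z) (deriv F z) = 0 := by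
  have h1 := ((hG.aff.an () (F z)).differentiableAt.hasFDerivAt).comp_hasDerivAt z (hF z).hasDerivAt
  have h2 : (G.P () ∘ F) = fun _ => (1 : ℂ) := by
    funext w
    exact hp w
  rw [h2] at h1
  exact h1.unique (hasDerivAt_const z (1 : ℂ))

theorem rigid_f (S : Base G T rho M c₀ C δ g) (hs : Str G T rho δ γ A' B) : RigidF G T := by
  intro 𝒰 h𝒰 q F H l F₀ V γ₁ hγ₁ hF hH h0 hl hl0 h1 h2 hV
  have hG := S.ok
  obtain ⟨B₁, hV⟩ := hV
  have hFd : ∀ k, Differentiable ℂ (F k) := fun k => (hF k).ent.1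
  have hHd : ∀ k, Differentiable ℂ (H k) := fun k => (hH k).ent.1
  have hF0 : Differentiable ℂ F₀ := h0.ent.1
  have hK0 : ∀ z, F₀ z ∈ G.K := h0.ent.mem
  have hVd : Differentiable ℂ V := by
    rw [← differentiableOn_univ]
    refine h2.differentiableOn (Eventually.of_forall fun k => ?_) isOpen_univ
    exact fun z _ => (((hHd k z).sub (hFd k z)).const_smul ((l k : ℂ)⁻¹)).differentiableWithinAt
  have hT : ∀ z, Tan G.X (F₀ z) (V z) ∧ fderiv ℂ G.p (F₀ z) (V z) = 0 := fun z =>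
    tan_lim hG 𝒰 (fun k => ⟨(hF k).ent.mem z, (hF k).nm z⟩) (fun k => ⟨(hH k).ent.mem z, (hH k).nm z⟩) (hK0 z) hl hl0
      (h1.tendsto_at (Set.mem_univ z)) (h2.tendsto_at (Set.mem_univ z))
  -- the functions `Ψ`
  obtain ⟨a, ha⟩ := exists_good hG S.met h0
  obtain ⟨u, β, β', hfit, hβ, hβ'⟩ := hs.fits q F₀ h0 a ha
  obtain ⟨Q, hQ, hlog⟩ := log_ge hG hs.γ_pos.le hs.γ_lt.le hs.B_pos.le hK0 h0.nm hfit hβ hβ'
  obtain ⟨B₂, hB₂, hL⟩ := L_bdd S
  obtain ⟨B₃, hB₃, hΨ⟩ := psi_le hG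
  have hh : (0 : ℝ) < G.h := by
    have h3 : 1 ≤ G.h := hG.aff.pos ()
    exact_mod_cast h3
  have hjΩ : (1 : ℝ) ≤ G.jΩ := by exact_mod_cast hG.one_jΩ
  have key : ∀ α z, G.Ω α (F₀ z) (deriv F₀ z) (V z) = 0 := by
    intro α
    refine entire_zero (a := a) (psi_diff hG α hF0 hK0 hVd fun z => (hT z).1) hfit.1 (c := A' / G.h)
      (C := Real.log (1 + B₃ * B₂ ^ G.mΩ) + G.mΩ * |B₁| + G.jΩ * Q) (γ := max (max γ γ₁) 0) (div_pos hs.A'_pos hh)
      (max_lt (max_lt hs.γ_lt hγ₁) one_pos) fun z => ?_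
    have hn : 0 ≤ ‖z‖ := norm_nonneg z
    have hm0 : (0 : ℝ) ≤ max (max γ γ₁) 0 := le_max_right _ _
    have hp1 := one_le_pw hm0 hn
    have hp2 : pw γ ‖z‖ ≤ pw (max (max γ γ₁) 0) ‖z‖ := pw_mono ((le_max_left _ _).trans (le_max_left _ _)) hn
    have hp3 : pw γ₁ ‖z‖ ≤ pw (max (max γ γ₁) 0) ‖z‖ := pw_mono ((le_max_right _ _).trans (le_max_left _ _)) hn
    have h3 := hΨ α (F₀ z) (hK0 z) (h0.nm z) (deriv F₀ z) (V z) (tan hG hF0 hK0 z) (hT z).1 (Real.exp (B₁ * pw γ₁ ‖z‖)) (Real.exp_pos _).le (hV z).1 (hV z).2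
    have hLz := hL q F₀ h0 z
    have hL0 : 0 ≤ G.L (F₀ z) (deriv F₀ z) := Pool.Agent.SR3.L_nonneg _ _
    have hFn : 0 < ‖F₀ z‖ := norm_pos_iff.2 (Pool.Agent.SR3.ne0 hG (hK0 z))
    have h4 : B₃ * G.L (F₀ z) (deriv F₀ z) ^ G.mΩ ≤ Real.exp (Real.log (1 + B₃ * B₂ ^ G.mΩ)) := by
      rw [Real.exp_log (by positivity)]
      have := mul_le_mul_of_nonneg_left (pow_le_pow_left₀ hL0 hLz G.mΩ) hB₃
      linarith
    have h5 : (‖F₀ z‖ ^ G.jΩ)⁻¹ ≤ Real.exp (G.jΩ * (Q * pw γ ‖z‖) - A' / G.h * |yy u a z|) := by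
      have h6 : ‖F₀ z‖ ^ G.jΩ = Real.exp (G.jΩ * Real.log ‖F₀ z‖) := by
        rw [Real.exp_nat_mul, Real.exp_log hFn]
      rw [h6, ← Real.exp_neg, Real.exp_le_exp]
      have h7 := mul_le_mul_of_nonneg_left (hlog z) (by linarith : (0 : ℝ) ≤ G.jΩ)
      have h8 : A' / G.h * |yy u a z| ≤ G.jΩ * (A' / G.h * |yy u a z|) :=
        le_mul_of_one_le_left (mul_nonneg (div_pos hs.A'_pos hh).le (abs_nonneg _)) hjΩ
      rw [mul_sub] at h7
      linarith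
    have h9 : Real.exp (B₁ * pw γ₁ ‖z‖) ^ G.mΩ = Real.exp (G.mΩ * (B₁ * pw γ₁ ‖z‖)) := by rw [Real.exp_nat_mul]
    refine h3.trans ?_
    rw [div_eq_mul_inv, h9]
    have h10 : B₃ * G.L (F₀ z) (deriv F₀ z) ^ G.mΩ * Real.exp (G.mΩ * (B₁ * pw γ₁ ‖z‖)) * (‖F₀ z‖ ^ G.jΩ)⁻¹ ≤
        Real.exp (Real.log (1 + B₃ * B₂ ^ G.mΩ)) * Real.exp (G.mΩ * (B₁ * pw γ₁ ‖z‖)) * Real.exp (G.jΩ * (Q * pw γ ‖z‖) - A' / G.h * |yy u a z|) := by
      refine mul_le_mul (mul_le_mul_of_nonneg_right h4 (Real.exp_pos _).le) h5 (by positivity) (by positivity)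
    refine h10.trans ?_
    rw [← Real.exp_add, ← Real.exp_add, Real.exp_le_exp]
    have hlog1 : 0 ≤ Real.log (1 + B₃ * B₂ ^ G.mΩ) := Real.log_nonneg (by
      have : 0 ≤ B₃ * B₂ ^ G.mΩ := by positivity
      linarith)
    have i1 : Real.log (1 + B₃ * B₂ ^ G.mΩ) ≤ Real.log (1 + B₃ * B₂ ^ G.mΩ) * pw (max (max γ γ₁) 0) ‖z‖ := le_mul_of_one_le_right hlog1 hp1
    have i2 : (G.mΩ : ℝ) * (B₁ * pw γ₁ ‖z‖) ≤ G.mΩ * |B₁| * pw (max (max γ γ₁) 0) ‖z‖ := by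
      rw [mul_assoc]
      refine mul_le_mul_of_nonneg_left ?_ (Nat.cast_nonneg _)
      exact (mul_le_mul_of_nonneg_right (le_abs_self _) (pw_pos _ hn).le).trans (mul_le_mul_of_nonneg_left hp3 (abs_nonneg _))
    have i3 : (G.jΩ : ℝ) * (Q * pw γ ‖z‖) ≤ G.jΩ * Q * pw (max (max γ γ₁) 0) ‖z‖ := by
      rw [mul_assoc]
      exact mul_le_mul_of_nonneg_left (mul_le_mul_of_nonneg_left hp2 hQ) (Nat.cast_nonneg _)
    nlinarith
  -- proportionality
  have hd0 : ∀ z, deriv F₀ z ≠ 0 := deriv_ne hG h0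
  have hF0' : Differentiable ℂ (deriv F₀) := fun z => (hF0.analyticAt z).deriv.differentiableAt
  have hcT : ∀ z, F₀ z ∉ T → ∃ c : ℂ, V z = c • deriv F₀ z := fun z hz =>
    lin_dep hG (hK0 z) (tan hG hF0 hK0 z) (hT z).1 (fderiv_p_curve hG hF0 h0.nm z) (hT z).2 (hd0 z) (fun α => key α z) (S.met.Ωne _ (hK0 z) hz)
  have hc : ∀ z, ∃ c : ℂ, V z = c • deriv F₀ z := by
    intro z
    have hi1 : Continuous fun z => (inner ℂ (deriv F₀ z) (V z) : ℂ) := hF0'.continuous.inner hVd.continuous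
    have hi2 : Continuous fun z => (inner ℂ (deriv F₀ z) (deriv F₀ z) : ℂ) := hF0'.continuous.inner hF0'.continuous
    have hi3 : ∀ z, (inner ℂ (deriv F₀ z) (deriv F₀ z) : ℂ) ≠ 0 := fun z => by
      rw [Ne, inner_self_eq_zero]
      exact hd0 z
    have hcon : Continuous fun z => V z - (inner ℂ (deriv F₀ z) (V z) / inner ℂ (deriv F₀ z) (deriv F₀ z) : ℂ) • deriv F₀ z :=
      hVd.continuous.sub ((hi1.div hi2 hi3).smul hF0'.continuous)
    have hzero : (fun z => V z - (inner ℂ (deriv F₀ z) (V z) / inner ℂ (deriv F₀ z) (deriv F₀ z) : ℂ) • deriv F₀ z) =ᶠ[𝓝[≠] z] fun _ => 0 := by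
      filter_upwards [S.met.Ti F₀ hF0 (fun z => Pool.Agent.SR3.KX hG (hK0 z)) h0.ent.out z] with w hw
      obtain ⟨c, hc⟩ := hcT w hw
      have h5 := hi3 w
      rw [hc, inner_smul_right, mul_div_assoc, div_self h5, mul_one, sub_self]
    have h3 := tendsto_nhds_unique (hcon.continuousAt.tendsto.mono_left (nhdsWithin_le_nhds (s := {z}ᶜ)))
      (tendsto_const_nhds.congr' (EventuallyEq.symm hzero))
    exact ⟨_, sub_eq_zero.1 h3⟩
  choose c hc using hc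
  have hcd : Differentiable ℂ c := by
    intro z₀
    have h3 : DifferentiableAt ℂ (fun z => inner ℂ (deriv F₀ z₀) (deriv F₀ z)) z₀ :=
      (innerSL ℂ (deriv F₀ z₀)).differentiableAt.comp z₀ (hF0' z₀)
    have h4 : DifferentiableAt ℂ (fun z => inner ℂ (deriv F₀ z₀) (V z)) z₀ :=
      (innerSL ℂ (deriv F₀ z₀)).differentiableAt.comp z₀ (hVd z₀)
    have h5 : inner ℂ (deriv F₀ z₀) (deriv F₀ z₀) ≠ 0 := by
      rw [Ne, inner_self_eq_zero]
      exact hd0 z₀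
    have h6 : ∀ᶠ z in 𝓝 z₀, inner ℂ (deriv F₀ z₀) (deriv F₀ z) ≠ 0 := h3.continuousAt.eventually_ne h5
    refine (h4.div h3 h5).congr_of_eventuallyEq ?_
    filter_upwards [h6] with z hz
    show c z = inner ℂ (deriv F₀ z₀) (V z) / inner ℂ (deriv F₀ z₀) (deriv F₀ z)
    rw [hc z, inner_smul_right]
    field_simp
  have hc0 := deriv_c_zero hG 𝒰 hF hH h0 hl hl0 h1 h2 hcd hc
  refine ⟨c 0, fun z => ?_⟩
  rw [hc z, is_const_of_deriv_eq_zero hcd hc0 z 0]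

end Pool.Agent.SR3.F

end
end
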