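import Pool.Agent.H43.TL2.M116
import Pool.Agent.H43.TL2.M118
import Pool.Agent.H43.TL2.M159
import Pool.Agent.H43.TL2.MQL.OkE
import Pool.Agent.H43.TL2.SDA.EI

/-! The parts of this file: SR3.MetF, MQL.LogNL. -/

section

/-!
# SR3 MetF: the metric which is given by sections of `m (K_X + D) - j H`
-/

set_option autoImplicit false

open Topology Filter Metric MvPolynomial

noncomputable section

namespace Pool.Agent.SR3

open Pool.Agent.H36.BP (EN fs Sub isCone_transport)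
open Pool.Agent.H14.PP (IsCone)
open Pool.Agent.H17BP (Surface IsForm NoZeros IsChart)
open Pool.Agent.H62.FC (Homog)
open Pool.Agent.H17LG.Variety (FunField)
open Pool.Agent.H17EF (coneE LE)
open Pool.Agent.H13.SM (conTan cone)
open Pool.Agent.H22.WL (evF evF_diff evF_smul)
open Pool.Agent.H36.BPL (OpenPart PoleLE coneK affProper_coneK isForm_pow_mul eval_prod_ne)
open Pool.Agent.SDA (openCone ModelL enU_of_model energyK_of_enU E1_an EnergyK)

variable {N k : ℕ} {P : Ideal (MvPolynomial (Fin (N + 1)) ℂ)} {H : Fin k → MvPolynomial (Fin (N + 1)) ℂ} {e : Fin k → ℕ}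

/-- the open part -/
theorem openPart_openCone (hX : ∀ x ∈ coneE P, ∀ c : ℂ, c ≠ 0 → c • x ∈ coneE P) (hH : ∀ i, (H i).IsHomogeneous (e i)) :
    OpenPart (coneE P) (openCone P H) where
  sub _ hx := hx.1
  smul x hx c hc := by
    refine ⟨hX x hx.1 c hc, fun i => ?_⟩
    have h1 := evF_smul (hH i) c x
    unfold evF at h1
    rw [h1]
    exact mul_ne_zero (pow_ne_zero _ hc) (hx.2 i)
  eqn x _ := ⟨fun y => eval y.ofLp (∏ i, H i), E1_an _ x, Filter.Eventually.of_forall fun y hy => by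
    constructor
    · intro h
      by_contra h2
      exact h ⟨hy, eval_prod_ne.1 h2⟩
    · intro h h2
      exact eval_prod_ne.2 h2.2 h⟩

/-- **The metric** which is given by a section `Ω` of `m (K_X + D) - j H` without zeros outside the curve `T = {Q = 0}`, which contains `D`. -/
theorem metD_form [P.IsPrime] {z : Fin 2 → FunField P} (hP : Homog P) (hz : IsTranscendenceBasis ℂ z)
    (hsm : ∀ y : Fin (N + 1) → ℂ, y ≠ 0 → (∀ Q ∈ P, eval y Q = 0) → Module.finrank ℂ (conTan P y) ≤ 3)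
    (hH : ∀ i, (H i).IsHomogeneous (e i)) {m j : ℕ} (hm : 1 ≤ m) (hj : 1 ≤ j) {Ω : EN N → EN N → EN N → ℂ}
    (hΩ : IsForm (openCone P H) m j Ω) (hpole : PoleLE (coneE P) (openCone P H) m Ω) {Q : MvPolynomial (Fin (N + 1)) ℂ} {D : ℕ} (hD : 1 ≤ D)
    (hQ : Q.IsHomogeneous D) (hQP : Q ∉ P) (hHQ : ∀ (i : Fin k), ∀ x ∈ coneE P, eval x.ofLp (H i) = 0 → eval x.ofLp Q = 0)
    (hnz : NoZeros (openCone P H) {x | x ∈ coneE P ∧ eval x.ofLp Q = 0} Ω) :
    ∃ (M : ℕ) (c₀ C δ : ℝ) (g : (ℂ → EN N) → ℂ → ℝ),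
      MetD (coneE P) (openCone P H) {x | x ∈ coneE P ∧ eval x.ofLp Q = 0} (fun x => ‖eval x.ofLp Q‖ / ‖x‖ ^ D) M c₀ C δ g := by
  have hS : Surface (coneE P) := Pool.Agent.H90.SG.surface_coneE hP hz hsm
  have hS₀ : Surface (cone P) := Pool.Agent.H13.SM.surface_cone hP hz fun y hy => hsm y hy.1 hy.2
  have hX : IsCone (coneE P) := isCone_transport (LE N) hS₀
  have hopn := openPart_openCone hX.smul_mem hH
  have hnot : ∀ x ∈ coneE P, x ∉ openCone P H → eval x.ofLp (∏ i, H i) = 0 := by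
    intro x hx hxK
    by_contra h
    exact hxK ⟨hx, eval_prod_ne.1 h⟩
  have hKT : ∀ x ∈ coneE P, x ∉ openCone P H → x ∈ {x | x ∈ coneE P ∧ eval x.ofLp Q = 0} := by
    intro x hx hxK
    refine ⟨hx, ?_⟩
    by_contra h
    exact hxK ⟨hx, fun i hi => h (hHQ i x hx hi)⟩
  have hprod : (∏ i, H i).IsHomogeneous (∑ i, e i) := IsHomogeneous.prod _ _ _ fun i _ => hH i
  have hd0 : ∑ i, e i + 1 ≤ j * (∑ i, e i + 1) := Nat.le_mul_of_pos_left _ hj
  have hd : ∑ i, e i ≤ j * (∑ i, e i + 1) := by omega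
  have hd' : 1 ≤ j * (∑ i, e i + 1) - ∑ i, e i := by omega
  have hmodel : ModelL (coneE P) (openCone P H) {x | x ∈ coneE P ∧ eval x.ofLp Q = 0} (m * (∑ i, e i + 1)) (j * (∑ i, e i + 1) - ∑ i, e i)
      (fun x v w => eval x.ofLp (∏ i, H i) * Ω x v w ^ (∑ i, e i + 1)) (fun (_ : Unit) (x : EN N) => eval x.ofLp Q) D :=
    { surf := hS
      opn := hopn
      aff := ⟨_, _, Pool.Agent.H36.BPL.affProper_transport (LE N) (affProper_coneK (P := P) hH)⟩
      sub := hKT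
      one_m := Nat.mul_pos hm (Nat.succ_pos _)
      one_j := hd'
      form := isForm_pow_mul hd hΩ (H := fun x : EN N => eval x.ofLp (∏ i, H i)) (fun x => E1_an _ x) (fun c x => evF_smul hprod c x) hopn.smul
      noZeros := fun x hx hxT v hv w hw hi => mul_ne_zero (eval_prod_ne.2 hx.2) (pow_ne_zero _ (hnz x hx hxT v hv w hw hi))
      pole := PoleLE.pow_mul hm (Nat.succ_pos _) hpole (H := fun x : EN N => eval x.ofLp (∏ i, H i)) (fun x => E1_an _ x) hnot
      eqs := Pool.Agent.H90.SG.eqs_coneE hD hQ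
      thin := fun σ τ h => (Pool.Agent.H90.SG.thin_coneE hP hz hsm hQ hQP h).mono fun p hp hpB => hp hpB.2 }
  obtain ⟨M, c₀, C, δ₀, g, hM, E⟩ := enU_of_model hmodel (ContinuousLinearEquiv.refl ℂ (EN N))
  have hrho : Pool.Agent.H14.KB.rhoS (fun (_ : Unit) (x : EN N) => eval x.ofLp Q) D = fun x => ‖eval x.ofLp Q‖ / ‖x‖ ^ D := by
    funext x
    unfold Pool.Agent.H14.KB.rhoS
    rw [pi_norm_const]
  rw [hrho] at E
  have EK : EnergyK (coneE P) (openCone P H) {x | x ∈ coneE P ∧ eval x.ofLp Q = 0} (fun x => ‖x‖) (fun x => ‖eval x.ofLp Q‖ / ‖x‖ ^ D) M c₀ C g :=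
    energyK_of_enU hX hopn.sub hopn.smul hKT (Pool.Agent.H36.BPL.affProper_transport (LE N) (affProper_coneK (P := P) hH)) E
  obtain ⟨δ, hδ, hnear⟩ := EK.near
  refine ⟨M, c₀, C, δ, g, ?_⟩
  obtain ⟨T, hT⟩ : ∃ T : Set (EN N), T = {x | x ∈ coneE P ∧ eval x.ofLp Q = 0} := ⟨_, rfl⟩
  rw [← hT] at EK hnear hKT ⊢
  have hxne : ∀ x ∈ coneE P, ‖x‖ ≠ 0 := fun x hx => norm_ne_zero_iff.2 fun h => hX.zero_notMem (h ▸ hx)
  have hmemT : ∀ x, x ∈ T ↔ x ∈ coneE P ∧ eval x.ofLp Q = 0 := fun x => by rw [hT]; rfl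
  refine
    { en := EK
      one_M := hM
      pos := hδ
      near := hnear
      TX := fun x hx => ((hmemT x).1 hx).1
      Ts := ?_
      KT := hKT
      rho0 := fun x _ => by positivity
      rhoT := ?_
      rhoc := ?_
      rhos := ?_
      Ti := ?_ }
  · intro x hx c hc
    rw [hmemT] at hx ⊢
    refine ⟨hX.smul_mem x hx.1 c hc, ?_⟩
    have h1 := evF_smul hQ c x
    unfold evF at h1
    rw [h1, hx.2, mul_zero]
  · intro x hx
    rw [hmemT]
    have h2 : ‖x‖ ^ D ≠ 0 := pow_ne_zero _ (hxne x hx)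
    constructor
    · intro h
      rw [div_eq_zero_iff] at h
      rcases h with h | h
      · exact ⟨hx, norm_eq_zero.1 h⟩
      · exact absurd h h2
    · rintro ⟨-, h⟩
      simp only [h, norm_zero, zero_div]
  · refine ContinuousOn.div ?_ (continuous_norm.pow D).continuousOn fun x hx => pow_ne_zero _ (hxne x hx)
    exact (evF_diff Q).continuous.norm.continuousOn
  · intro x _ c hc
    have h1 := evF_smul hQ c x
    unfold evF at h1
    simp only
    rw [h1, norm_mul, norm_pow, norm_smul, mul_pow]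
    exact mul_div_mul_left _ _ (pow_ne_zero _ (norm_ne_zero_iff.2 hc))
  · intro F hF hFX hne z₀
    have h1 : Differentiable ℂ fun z => evF Q (F z) := (evF_diff Q).comp hF
    have h2 : AnalyticAt ℂ (fun z => evF Q (F z)) z₀ := h1.analyticAt z₀
    rcases h2.eventually_eq_zero_or_eventually_ne_zero with h3 | h3
    · exfalso
      have h4 : AnalyticOnNhd ℂ (fun z => evF Q (F z)) Set.univ := fun z _ => h1.analyticAt z
      have h5 := h4.eqOn_zero_of_preconnected_of_eventuallyEq_zero isPreconnected_univ (Set.mem_univ z₀) h3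
      obtain ⟨z, hz⟩ := hne
      apply hz
      rw [hmemT]
      exact ⟨hFX z, h5 (Set.mem_univ z)⟩
    · filter_upwards [h3] with z hz hzT
      rw [hmemT] at hzT
      exact hz hzT.2

/-- **The metric of a family.**  `Ω a` are sections of `m (K_X + D) - j H`, `Ω a` without zeros outside the curve `{Q a = 0}`; `R b` are forms.  There
is a metric for the set `T` of the points of `X` where all `R b * Q a` vanish. -/
theorem exists_metD [P.IsPrime] {z : Fin 2 → FunField P} (hP : Homog P) (hz : IsTranscendenceBasis ℂ z)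
    (hsm : ∀ y : Fin (N + 1) → ℂ, y ≠ 0 → (∀ Q ∈ P, eval y Q = 0) → Module.finrank ℂ (conTan P y) ≤ 3)
    (hH : ∀ i, (H i).IsHomogeneous (e i)) {m j : ℕ} (hm : 1 ≤ m) (hj : 1 ≤ j) {A : Type} [Fintype A] [Nonempty A]
    {Ω : A → EN N → EN N → EN N → ℂ} (hΩ : ∀ a, IsForm (openCone P H) m j (Ω a)) (hpole : ∀ a, PoleLE (coneE P) (openCone P H) m (Ω a))
    {Q : A → MvPolynomial (Fin (N + 1)) ℂ} {D : A → ℕ} (hD : ∀ a, 1 ≤ D a) (hQ : ∀ a, (Q a).IsHomogeneous (D a)) (hQP : ∀ a, Q a ∉ P)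
    (hHQ : ∀ a (i : Fin k), ∀ x ∈ coneE P, eval x.ofLp (H i) = 0 → eval x.ofLp (Q a) = 0)
    (hnz : ∀ a, NoZeros (openCone P H) {x | x ∈ coneE P ∧ eval x.ofLp (Q a) = 0} (Ω a)) :
    ∃ (M : ℕ) (c₀ C δ : ℝ) (g : (ℂ → EN N) → ℂ → ℝ),
      MetD (coneE P) (openCone P H) {x | x ∈ coneE P ∧ ∀ a, eval x.ofLp (Q a) = 0} (fun x => mx fun a => ‖eval x.ofLp (Q a)‖ / ‖x‖ ^ D a)
        M c₀ C δ g := by
  have hS₀ : Surface (cone P) := Pool.Agent.H13.SM.surface_cone hP hz fun y hy => hsm y hy.1 hy.2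
  have hX : IsCone (coneE P) := isCone_transport (LE N) hS₀
  choose M c₀ C δ g h using fun a => metD_form hP hz hsm hH hm hj (hΩ a) (hpole a) (hD a) (hQ a) (hQP a) (hHQ a) (hnz a)
  obtain ⟨M', c', C', δ', h'⟩ := MetD.max hX (fun x hx => hx.1) h
  have hT : (⋂ a, {x : EN N | x ∈ coneE P ∧ eval x.ofLp (Q a) = 0}) = {x | x ∈ coneE P ∧ ∀ a, eval x.ofLp (Q a) = 0} := by
    ext x
    simp only [Set.mem_iInter, Set.mem_ofPred_eq]
    exact ⟨fun h => ⟨(h (Classical.arbitrary A)).1, fun a => (h a).2⟩, fun h a => ⟨h.1, h.2 a⟩⟩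
  rw [hT] at h'
  exact ⟨M', c', C', δ', _, h'⟩

end Pool.Agent.SR3

end
end

section

/-!
# MQL LogNL: the potentials have logarithmic singularities, for a weight with poles

Port of `MQ3/LogN`: the weight enters only through its analyticity along the curve (`wt_anK`) and `WNe`.
-/

set_option autoImplicit false

open Topology Filter Metric MvPolynomial MeasureTheory Laplacian

noncomputable section

namespace Pool.Agent.MQL

open Pool.Agent.H36.BP (EN fs)
open Pool.Agent.H14.PP (Tan)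
open Pool.Agent.H17BP (Surface IsForm)
open Pool.Agent.H17EF (projVar coneE)
open Pool.Agent.H30M (tau LogSing)
open Pool.Agent.MQ (lam En ztv dvg DDv gr dv)
open Pool.Agent.MQ3

variable {M : ℕ} {P : Ideal (MvPolynomial (Fin (M + 1)) ℂ)} {RD H₀ Ra : MvPolynomial (Fin (M + 1)) ℂ} {m : ℕ} {X : NCModel P RD} {θ : WDiff (coneE P) m}
  {l : LF M} {S : Web X θ l} {Wf : EN M → EN M → EN M → ℂ} {mK jH : ℕ}

/-! ## general facts -/

/-- a form along an entire curve -/
private theorem ln_ev {F : ℂ → EN M} (hF : Differentiable ℂ F) {R : MvPolynomial (Fin (M + 1)) ℂ} (hR : ∃ z, eval (F z).ofLp R ≠ 0) (z : ℂ) :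
    ∀ᶠ w in 𝓝[≠] z, eval (F w).ofLp R ≠ 0 := by
  have han : AnalyticOnNhd ℂ (fun w => eval (F w).ofLp R) Set.univ := by
    intro w _
    have h1 : AnalyticAt ℂ (fun w => (F w).ofLp) w := by
      have h2 : Differentiable ℂ fun w => (F w).ofLp := (EuclideanSpace.equiv (Fin (M + 1)) ℂ).differentiable.comp hF
      exact h2.analyticAt w
    have h2 : AnalyticAt ℂ (fun w => aeval (fun s => (F w).ofLp s) R) w :=
      AnalyticAt.aeval_mvPolynomial (fun s => (analyticAt_pi_iff.1 h1) s) R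
    simpa only [MvPolynomial.aeval_eq_eval] using h2
  rcases (han z (Set.mem_univ z)).eventually_eq_zero_or_eventually_ne_zero with h | h
  · exfalso
    obtain ⟨w, hw⟩ := hR
    exact hw (han.eqOn_zero_of_preconnected_of_eventuallyEq_zero isPreconnected_univ (Set.mem_univ z) h (Set.mem_univ w))
  · exact h

/-- a vector with three analytic components -/
private theorem ln_vec {a b c : ℂ → ℂ} {z : ℂ} (ha : AnalyticAt ℂ a z) (hb : AnalyticAt ℂ b z) (hc : AnalyticAt ℂ c z) :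
    AnalyticAt ℂ (fun w => (WithLp.toLp 2 ![a w, b w, c w] : EN 2)) z := by
  have h1 : AnalyticAt ℂ (fun w => (![a w, b w, c w] : Fin 3 → ℂ)) z := by
    refine AnalyticAt.pi fun i => ?_
    fin_cases i
    · exact ha
    · exact hb
    · exact hc
  exact ((EuclideanSpace.equiv (Fin 3) ℂ).symm.toContinuousLinearMap.analyticAt _).comp h1

private theorem ln_vec_ne {a b c : ℂ} (h : a ≠ 0 ∨ b ≠ 0 ∨ c ≠ 0) : (WithLp.toLp 2 ![a, b, c] : EN 2) ≠ 0 := by
  intro h0
  have h1 : (![a, b, c] : Fin 3 → ℂ) = 0 := congrArg WithLp.ofLp h0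
  rcases h with h | h | h
  · exact h (congrFun h1 0)
  · exact h (congrFun h1 1)
  · exact h (congrFun h1 2)

/-- `ζ'` is meromorphic -/
private theorem ln_mero {v : ℂ × ℂ → ℂ × ℂ} {p : ℂ → ℂ × ℂ} {z : ℂ} (hp : AnalyticAt ℂ p z) (hv : AnalyticAt ℂ v (p z)) :
    MeromorphicAt (ztv v p) z := by
  classical
  have hvp : AnalyticAt ℂ (fun w => v (p w)) z := hv.comp hp
  have h1 := Pool.Agent.MQ.an_fst hvp
  have h2 := Pool.Agent.MQ.an_snd hvp
  rcases h2.eventually_eq_zero_or_eventually_ne_zero with h3 | h3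
  · have h5 : MeromorphicAt (fun w => (deriv p w).1 / (v (p w)).1) z := (Pool.Agent.MQ.an_fst hp.deriv).meromorphicAt.fun_div h1.meromorphicAt
    refine h5.congr ?_
    filter_upwards [h3.filter_mono nhdsWithin_le_nhds] with w e1
    unfold ztv
    rw [if_pos e1]
  · have h5 : MeromorphicAt (fun w => (deriv p w).2 / (v (p w)).2) z := (Pool.Agent.MQ.an_snd hp.deriv).meromorphicAt.fun_div h2.meromorphicAt
    refine h5.congr ?_
    filter_upwards [h3] with w e1
    exact (Pool.Agent.MQ.ztv_snd e1).symm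

private theorem ln_log_mero {f : ℂ → ℂ} {z : ℂ} (hf : MeromorphicAt f z) (hne : ∀ᶠ w in 𝓝[≠] z, f w ≠ 0) : ∃ c, LogSing (fun w => Real.log ‖f w‖) c z := by
  refine ⟨_, LogSing.log_norm_mero hf ?_⟩
  intro htop
  obtain ⟨w, h1, h2⟩ := ((meromorphicOrderAt_eq_top_iff.1 htop).and hne).exists
  exact h2 h1

private theorem ln_ne0 {x : EN M} (hx : x ∈ coneE P) : x ≠ 0 := by
  intro h
  have h1 : (Pool.Agent.H17EF.LE M).symm x ∈ Pool.Agent.H13.SM.cone P := hx
  apply h1.1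
  rw [h, map_zero]

private theorem ln_freq {Q : ℂ → Prop} {z : ℂ} (h : ∀ᶠ w in 𝓝[≠] z, Q w) : ∃ᶠ w in 𝓝 z, Q w :=
  h.frequently.filter_mono nhdsWithin_le_nhds

/-- the weight along the curve is analytic -/
private theorem ln_wt_an {F : ℂ → EN M} (hX : Surface (coneE P)) (hW : LW P H₀ mK jH Wf) (hF : LCrv θ RD H₀ Ra F) (Y : NCLift X F) (i : X.ι) :
    ∀ z ∈ Y.U i, AnalyticAt ℂ (wt Wf Y i) z :=
  fun z hz => wt_anK hX (okE_open hX hW.hom) hW.form hF.diff (fun w => ⟨hF.mem w, hF.avoid w⟩) Y i z hz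

theorem logSing_N (hX : Surface (coneE P)) (hW : LW P H₀ mK jH Wf) (C : Cov S Ra) (k : Fin C.nN) {F : ℂ → EN M}
    (hF : LCrv θ RD H₀ Ra F) (Y : NCLift X F) (hne : WNe Wf Y) :
    ∀ z ∈ Y.U (C.b k), Y.p (C.b k) z ∈ ball (C.y k) (C.t k) → ∃ c, 0 ≤ c ∧ LogSing (eN (C.H k) Wf mK jH Y (C.b k)) c z := by
  intro z hz hzb
  have hBC : BCrv θ l (X.ρ (C.b k)) F (Y.U (C.b k)) (Y.p (C.b k)) := bcrv hF.toWCrv Y (C.b k)
  have hp := hBC.p_an z hz
  obtain ⟨p, hpe⟩ : ∃ p, p = Y.p (C.b k) := ⟨_, rfl⟩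
  rw [← hpe] at hp hzb
  have hpd : ∀ᶠ w in 𝓝[≠] z, deriv p w ≠ 0 := hpe ▸ hBC.nc z hz
  have hp0 : ∀ᶠ w in 𝓝[≠] z, (p w).1 ≠ 0 ∧ (p w).2 ≠ 0 := hpe ▸ hBC.ne z hz
  -- the vector
  have hvec : AnalyticAt ℂ (fun w => C.H k (p w) (deriv p w)) z ∧ ∀ᶠ w in 𝓝[≠] z, C.H k (p w) (deriv p w) ≠ 0 := by
    have hp1 := Pool.Agent.MQ.an_fst hp
    have hp2 := Pool.Agent.MQ.an_snd hp
    have hd1 := Pool.Agent.MQ.an_fst hp.deriv
    have hd2 := Pool.Agent.MQ.an_snd hp.deriv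
    cases hu : C.u k with
    | none =>
      have hH : C.H k = hA := by
        unfold Cov.H
        rw [hu]
        rfl
      rw [hH]
      refine ⟨ln_vec (hp2.mul hd1) (hp1.mul hd2) analyticAt_const, ?_⟩
      filter_upwards [hpd, hp0] with w h1 h2
      refine ln_vec_ne ?_
      by_cases h3 : (deriv p w).1 = 0
      · right; left
        refine mul_ne_zero h2.1 fun h4 => h1 (Prod.ext h3 h4)
      · left
        exact mul_ne_zero h2.2 h3
    | some u' =>
      have hH : C.H k = hB u' := by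
        unfold Cov.H
        rw [hu]
        rfl
      obtain ⟨-, hu', hu''⟩ := C.N_B k u' hu
      have hua : AnalyticAt ℂ u' (p z) := hu' _ (ball_subset_closedBall hzb)
      have hup : AnalyticAt ℂ (fun w => u' (p w)) z := hua.comp hp
      rw [hH]
      have hfd : AnalyticAt ℂ (fun w => fderiv ℂ u' (p w) (deriv p w)) z := by
        refine hup.deriv.congr ?_
        filter_upwards [hp.continuousAt.eventually hua.eventually_analyticAt, hp.eventually_analyticAt] with w h1 h2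
        exact (h1.differentiableAt.hasFDerivAt.comp_hasDerivAt w h2.differentiableAt.hasDerivAt).deriv
      refine ⟨ln_vec hfd (hup.mul hd1) (hup.mul hd2), ?_⟩
      have hU : ∀ᶠ w in 𝓝 z, w ∈ Y.U (C.b k) ∧ p w ∈ ball (C.y k) (C.t k) := by
        filter_upwards [(Y.isOpen _).mem_nhds hz, hp.continuousAt.eventually (isOpen_ball.mem_nhds hzb)] with w h1 h2 using ⟨h1, h2⟩
      have hup0 : ∀ᶠ w in 𝓝[≠] z, u' (p w) ≠ 0 := by
        obtain ⟨d, hd⟩ := hF.homR
        filter_upwards [ln_ev hF.diff hF.neR z, hU.filter_mono nhdsWithin_le_nhds] with w h1 h2 h3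
        obtain ⟨c, hc, h4⟩ := Y.eq (C.b k) w h2.1
        apply h1
        rw [h4, Pool.Agent.H14.PP.eval_smulEN hd, ← hpe, ((hu'' _ (ball_subset_closedBall h2.2)).self_of_nhds.1).2 h3, mul_zero]
      filter_upwards [hpd, hup0] with w h1 h2
      refine ln_vec_ne ?_
      by_cases h3 : (deriv p w).1 = 0
      · right; right
        exact mul_ne_zero h2 fun h4 => h1 (Prod.ext h3 h4)
      · right; left
        exact mul_ne_zero h2 h3
  obtain ⟨k₁, h1⟩ := logSing_norm hvec.1 (ln_freq hvec.2)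
  obtain ⟨k₂, h2⟩ := logSing_log (ln_wt_an hX hW hF Y (C.b k) z hz) (ln_freq (hne (C.b k) z hz))
  obtain ⟨k₃, h3⟩ := logSing_norm (hF.diff.analyticAt z) (Eventually.of_forall fun w => ln_ne0 (hF.mem w)).frequently
  refine ⟨k₁ + 1 / mK * k₂ + jH / mK * k₃, by positivity, ?_⟩
  have h4 := (h1.add (h2.const_mul (1 / mK))).add (h3.const_mul (jH / mK))
  refine h4.congr (Eventually.of_forall fun w => ?_)
  rw [hpe]
  rfl

theorem logSing_P (hX : Surface (coneE P)) (hW : LW P H₀ mK jH Wf) (C : Cov S Ra) {g : Fin C.nP → ℂ × ℂ → ℂ}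
    (hg : PG C g) (j : Fin C.nP) {F : ℂ → EN M} (hF : LCrv θ RD H₀ Ra F) (Y : NCLift X F) (hne : WNe Wf Y) :
    ∀ z ∈ C.UP Y j, ∃ c, LogSing (eP S (g j) Wf mK jH Y (C.ck j)) c z := by
  intro z hzU
  have hgne := g_ne C hg j hF.toRCrv Y z hzU
  obtain ⟨hz, hzb⟩ := hzU
  obtain ⟨k, hk⟩ : ∃ k, k = C.ck j := ⟨_, rfl⟩
  rw [← hk] at hz hzb hgne ⊢
  have hlf := lfN_an hF.toWCrv Y k z hz
  have hmem := lfN_mem hF.toWCrv Y k z hz
  have hlne := lfN_ne hF.toWCrv Y k z hz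
  -- the five terms
  obtain ⟨c₁, h1⟩ := ln_log_mero (ln_mero hlf ((S.c k).v_an _ hmem.1.1)) (hlne.mono fun w hw => hw.2.2.2.1)
  have hκ : AnalyticAt ℂ (S.κ k) (S.lf Y k z) := by
    show AnalyticAt ℂ (fun q : ℂ × ℂ => (q.1 ^ (S.c k).w.1 * q.2 ^ (S.c k).w'.1, q.1 ^ (S.c k).w.2 * q.2 ^ (S.c k).w'.2)) _
    exact ((analyticAt_fst.pow _).mul (analyticAt_snd.pow _)).prod ((analyticAt_fst.pow _).mul (analyticAt_snd.pow _))
  obtain ⟨c₂, h2⟩ := logSing_log (AnalyticAt.fun_comp (jc_an hκ) hlf) (ln_freq (hlne.mono fun w hw => hw.2.2.2.2))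
  have hga : AnalyticAt ℂ (g j) (S.lf Y k z) := by
    by_cases h0 : S.lf Y k z = C.Q j
    · rw [h0]
      exact hg.an j
    · exact (hg.inv j _ (ball_subset_closedBall hzb) h0).1
  obtain ⟨c₃, h3⟩ := logSing_log (AnalyticAt.fun_comp hga hlf) (ln_freq hgne)
  obtain ⟨c₄, h4⟩ := logSing_log (ln_wt_an hX hW hF Y k.1 z (Om_sub hF.toWCrv Y k hz)) (ln_freq (hne k.1 z (Om_sub hF.toWCrv Y k hz)))
  obtain ⟨c₅, h5⟩ := logSing_norm (hF.diff.analyticAt z) (Eventually.of_forall fun w => ln_ne0 (hF.mem w)).frequently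
  exact ⟨_, (((h1.add h2).add h3).add (h4.const_mul (1 / mK))).add (h5.const_mul (jH / mK))⟩

end Pool.Agent.MQL

end
end
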