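import Pool.Agent.H43.TL2.M119
import Pool.Agent.H43.TL2.M160
import Pool.Agent.H43.TL2.M185
import Pool.Agent.H43.TL2.M190
import Pool.Agent.H43.TL2.M192
import Pool.Agent.H43.TL2.M55

/-! The parts of this file: SR3.MetG, SR3.MetA, SR3.F.PotE, SR3.F.Tube, MQL.ThL. -/

section

/-!
# SR3 MetG: the first metric, for the curve of the null curves and the boundary
-/

set_option autoImplicit false

open Topology Filter Metric MvPolynomial

noncomputable section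

namespace Pool.Agent.SR3

open Pool.Agent.H36.BP (EN fs Sub)
open Pool.Agent.H17BP (Surface IsForm NoZeros IsChart)
open Pool.Agent.H14.KB (rhoS)
open Pool.Agent.H14.PP (IsCone)
open Pool.Agent.H62.FC (Homog)
open Pool.Agent.H17LG.Variety (FunField)
open Pool.Agent.H17EF (coneE projVar LE)
open Pool.Agent.H13.SM (cone)
open Pool.Agent.AD.NC (IsSmooth)
open Pool.Agent.SDA (openCone EnergyK Near)

variable {N : ℕ} {P : Ideal (MvPolynomial (Fin (N + 1)) ℂ)} {H : MvPolynomial (Fin (N + 1)) ℂ} {h : ℕ}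

/-- only the values of `rho` on `X` matter -/
theorem MetD.congr {X K T : Set (EN N)} {rho rho' : EN N → ℝ} {M : ℕ} {c₀ C δ : ℝ} {g : (ℂ → EN N) → ℂ → ℝ} (hX : IsCone X) (hKX : K ⊆ X)
    (h : MetD X K T rho M c₀ C δ g) (he : ∀ x ∈ X, rho x = rho' x) : MetD X K T rho' M c₀ C δ g := by
  have hn : Near K T (fun x => ‖x‖) rho' c₀ g δ := fun F hF z hz hg => h.near F hF z (by rwa [he _ (hKX (hF.mem z))]) hg
  exact
    { en :=
        { c₀_pos := h.en.c₀_pos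
          C_pos := h.en.C_pos
          nonneg := h.en.nonneg
          usc := h.en.usc
          aff := h.en.aff
          unit := h.en.unit
          sub := h.en.sub
          lower := fun F hF z => by
            rw [← he _ (hKX (hF.mem z))]
            exact h.en.lower F hF z
          lim := h.en.lim
          near := ⟨δ, h.pos, hn⟩
          bdy := h.en.bdy }
      one_M := h.one_M
      pos := h.pos
      near := hn
      TX := h.TX
      Ts := h.Ts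
      KT := h.KT
      rho0 := fun x hx => by rw [← he x hx]; exact h.rho0 x hx
      rhoT := fun x hx => by rw [← he x hx]; exact h.rhoT x hx
      rhoc := h.rhoc.congr fun x hx => (he x hx).symm
      rhos := fun x hx c hc => by
        rw [← he x hx, ← he _ (hX.smul_mem x hx c hc)]
        exact h.rhos x hx c hc
      Ti := h.Ti }

/-- **The first metric.** -/
theorem exists_metD_family [P.IsPrime] {z : Fin 2 → FunField P} (hP : Homog P) (hz : IsTranscendenceBasis ℂ z) (hsm : IsSmooth P 2)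
    (hH : H.IsHomogeneous h) (h1 : 1 ≤ h) (hHP : H ∉ P) {mΩ jΩ r t D₁ D₂ : ℕ} {Ω : Fin r → EN N → EN N → EN N → ℂ}
    {Q : Fin r → MvPolynomial (Fin (N + 1)) ℂ} (hΩ : LogForms P H mΩ jΩ Ω Q) (hQ : ∀ a, (Q a).IsHomogeneous D₂)
    {R : Fin t → MvPolynomial (Fin (N + 1)) ℂ} (hR : ∀ l, (R l).IsHomogeneous D₁) (hRP : ∃ l, R l ∉ P) (hcov : ZeroCover P H Q R) :
    ∃ (M' : ℕ) (c₀ C δ : ℝ) (g : (ℂ → EN N) → ℂ → ℝ),
      MetD (coneE P) (oc P H) {x | x ∈ coneE P ∧ ∀ a, eqT H R Q a x = 0} (rhoS (eqT H R Q) (D₁ + D₂ + h)) M' c₀ C δ g := by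
  classical
  have hPp : P.IsPrime := inferInstance
  have hS₀ : Surface (cone P) := Pool.Agent.H13.SM.surface_cone hP hz fun y hy => hsm y hy.1 hy.2
  have hX : IsCone (coneE P) := Pool.Agent.H36.BP.isCone_transport (LE N) hS₀
  have hzero : ∀ {W : MvPolynomial (Fin (N + 1)) ℂ}, W ∈ P → ∀ x ∈ coneE P, eval x.ofLp W = 0 := fun hW x hx => hx.2 _ hW
  -- the indices
  obtain ⟨l, hl⟩ := hRP
  have hne : ∃ a, Q a ∉ P := by
    obtain ⟨i, hi⟩ := Pool.Agent.H92.GT.Proj.exists_coordFun_ne_zero P z hz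
    have hRH : R l * H ∉ P := fun h2 => (hPp.mem_or_mem h2).elim hl hHP
    obtain ⟨y, hy, hyH⟩ := Pool.Agent.H17EF.exists_point hP ⟨i, Pool.Agent.H17R.coordFun_ne_zero_iff.1 hi⟩ hRH ((hR l).mul hH)
    have hyc : y.rep ∈ cone P := (Pool.Agent.H17EF.mk_mem_projVar hP y.rep_nonzero).1 (by rwa [Projectivization.mk_rep])
    have hyR : eval y.rep (R l) * eval y.rep H ≠ 0 := by
      rw [← map_mul]
      exact hyH
    have hyE : (WithLp.toLp 2 y.rep : EN N) ∈ oc P H := ⟨hyc, fun _ => right_ne_zero_of_mul hyR⟩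
    by_contra hcon
    push Not at hcon
    exact left_ne_zero_of_mul hyR (hcov _ hyE (fun a => hzero (hcon a) _ hyE.1) l)
  obtain ⟨a₀, ha₀⟩ := hne
  have hmul : ∀ {a b c : MvPolynomial (Fin (N + 1)) ℂ}, a ∉ P → b ∉ P → c ∉ P → a * b * c ∉ P := by
    intro a b c ha hb hc hm
    rcases hPp.mem_or_mem hm with hm | hm
    · rcases hPp.mem_or_mem hm with hm | hm
      · exact ha hm
      · exact hb hm
    · exact hc hm
  set A : Type := {a : Fin t × Fin r // R a.1 * Q a.2 * H ∉ P} with hA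
  have : Nonempty A := ⟨⟨(l, a₀), hmul hl ha₀ hHP⟩⟩
  have hprod : ∀ x : EN N, ∀ a : Fin t × Fin r, eval x.ofLp (R a.1 * Q a.2 * H) = eval x.ofLp (R a.1) * eval x.ofLp (Q a.2) * eval x.ofLp H :=
    fun x a => by rw [map_mul, map_mul]
  obtain ⟨M', c₀, C, δ, g, E⟩ := exists_metD (P := P) (H := fun _ : Fin 1 => H) (e := fun _ => h) hP hz hsm (fun _ => hH) hΩ.one_m hΩ.one_j
    (A := A) (Ω := fun a => Ω a.1.2) (fun a => hΩ.form a.1.2) (fun a => (hΩ.pole a.1.2).mono (Nat.sub_le _ _))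
    (Q := fun a => R a.1.1 * Q a.1.2 * H) (D := fun _ => D₁ + D₂ + h) (fun _ => by omega)
    (fun a => ((hR a.1.1).mul (hQ a.1.2)).mul hH) (fun a => a.2)
    (fun a _ x _ hx => by rw [hprod, hx, mul_zero])
    (fun a x hx hxT v hv w hw hi => hΩ.noZeros a.1.2 x hx (fun h0 => hxT ⟨hx.1, by
      have h0' : eval x.ofLp (Q a.1.2) = 0 := h0
      rw [hprod, h0', mul_zero, zero_mul]⟩) v hv w hw hi)
  have hT : {x : EN N | x ∈ coneE P ∧ ∀ a : A, eval x.ofLp (R a.1.1 * Q a.1.2 * H) = 0} = {x | x ∈ coneE P ∧ ∀ a, eqT H R Q a x = 0} := by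
    ext x
    constructor
    · rintro ⟨hx, h2⟩
      refine ⟨hx, fun a => ?_⟩
      by_cases ha : R a.1 * Q a.2 * H ∈ P
      · exact hzero ha x hx
      · exact h2 ⟨a, ha⟩
    · rintro ⟨hx, h2⟩
      exact ⟨hx, fun a => h2 a.1⟩
  rw [hT] at E
  refine ⟨M', c₀, C, δ, g, E.congr hX (fun x hx => hx.1) fun x hx => ?_⟩
  have hx0 : 0 < ‖x‖ ^ (D₁ + D₂ + h) := pow_pos (norm_pos_iff.2 fun h0 => hX.zero_notMem (h0 ▸ hx)) _
  unfold rhoS
  apply le_antisymm
  · refine mx_le.2 fun a => ?_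
    refine div_le_div_of_nonneg_right ?_ hx0.le
    exact norm_le_pi_norm (fun i => eqT H R Q i x) a.1
  · rw [div_le_iff₀ hx0]
    have hnn : 0 ≤ mx fun a : A => ‖eval x.ofLp (R a.1.1 * Q a.1.2 * H)‖ / ‖x‖ ^ (D₁ + D₂ + h) :=
      (div_nonneg (norm_nonneg _) hx0.le).trans (le_mx (fun a : A => ‖eval x.ofLp (R a.1.1 * Q a.1.2 * H)‖ / ‖x‖ ^ (D₁ + D₂ + h)) (Classical.arbitrary A))
    rw [pi_norm_le_iff_of_nonneg (mul_nonneg hnn hx0.le)]
    intro a
    by_cases ha : R a.1 * Q a.2 * H ∈ P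
    · have h0 : eqT H R Q a x = 0 := hzero ha x hx
      rw [h0, norm_zero]
      exact mul_nonneg hnn hx0.le
    · rw [← div_le_iff₀ hx0]
      exact le_mx (fun a : A => ‖eval x.ofLp (R a.1.1 * Q a.1.2 * H)‖ / ‖x‖ ^ (D₁ + D₂ + h)) ⟨a, ha⟩

end Pool.Agent.SR3

end
end

section

/-!
# SR3 MetA: the first metric, with the condition on the null curves
-/

set_option autoImplicit false

open Topology Filter Metric MvPolynomial

noncomputable section

namespace Pool.Agent.SR3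

open Pool.Agent.H36.BP (EN fs Sub OrdTwo)
open Pool.Agent.H17BP (Surface IsForm NoZeros IsChart)
open Pool.Agent.H14.KB (rhoS)
open Pool.Agent.H14.PP (IsCone Tan IsOpenPart)
open Pool.Agent.H14.V (IsLift isLift_mk)
open Pool.Agent.H17 (PN VanishesAt HolomorphicInto)
open Pool.Agent.H62.FC (Homog)
open Pool.Agent.H17LG.Variety (FunField)
open Pool.Agent.H17EF (coneE projVar LE)
open Pool.Agent.H13.SM (cone)
open Pool.Agent.H13.OT (OrderTwo)
open Pool.Agent.H22.WL (evF vanishesAt_lift)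
open Pool.Agent.AD (SymDiff TangentTo)
open Pool.Agent.AD.NC (IsSmooth)
open Pool.Agent.SDA (openCone EnergyK Near nForms)

variable {N k M : ℕ} {P : Ideal (MvPolynomial (Fin (N + 1)) ℂ)} {H : MvPolynomial (Fin (N + 1)) ℂ} {h : ℕ}
  {E : Fin k → Fin (M + 1) → MvPolynomial (Fin (N + 1)) ℂ} {c b : Fin k → ℕ}

/-- from the characteristic function to the averages -/
private theorem orderTwo_of_ordTwo {F : ℂ → EN N} {f : ℂ → PN N} (h : IsLift F f) (hF : OrdTwo F) : OrderTwo f := by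
  have h1 : OrdTwo fun z => (LE N).symm (F z) := Pool.Agent.H17EF.ordTwo_symm hF
  have h2 : Differentiable ℂ fun z => (LE N).symm (F z) := (LE N).symm.differentiable.comp h.1
  have h3 : ∀ z, (LE N).symm (F z) ≠ 0 := fun z => (h.2 z).1
  have h4 : ∀ z, Pool.Agent.H17BP.HolP (fun z => (LE N).symm (F z)) z := by
    intro z
    exact ⟨fun z => (LE N).symm (F z), h2.analyticAt z, h3 z, Eventually.of_forall fun w => ⟨1, one_ne_zero, by simp⟩⟩
  have h5 := Pool.Agent.H13.OT.OrdTwo.orderTwo h3 h4 h1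
  have h6 : f = fun z => Projectivization.mk ℂ ((LE N).symm (F z)) (h3 z) := by
    funext z
    exact (h.2 z).2
  rw [h6]
  exact h5

/-- The null curves of order two lie in the curve `{R l = 0 for all l}`. -/
theorem null_mem (hP : Homog P) (hH : H.IsHomogeneous h) {s : ℕ} {m : Fin s → ℕ} (hm : ∀ j, 1 ≤ m j) (θ : ∀ j, SymDiff (oc P H) (m j)) {t : ℕ}
    {R : Fin t → MvPolynomial (Fin (N + 1)) ℂ} (hnull : NullCurve θ R) {F : ℂ → EN N} (hF : Differentiable ℂ F) (hK : ∀ z, F z ∈ oc P H)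
    (ho : OrdTwo F) (h0 : ∀ z, nForms m (fun j => (θ j).toFun) (F z) (deriv F z) = 0) :
    (∀ l z, eval (F z).ofLp (R l) = 0) ∨ ∀ z w, ∃ c : ℂ, F z = c • F w := by
  have hFX : ∀ z, F z ∈ coneE P := fun z => (hK z).1
  have hne : ∀ z, (F z).ofLp ≠ 0 := fun z => (hFX z).1
  have hl := isLift_mk hF hne
  by_cases hcon : ∃ z w, (fun z => Projectivization.mk ℂ (F z).ofLp (hne z)) z ≠ (fun z => Projectivization.mk ℂ (F z).ofLp (hne z)) w
  · left
    have hzero : ∀ j z, (θ j).toFun (F z) (deriv F z) = 0 := by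
      intro j z
      have h1 : ∑ j, ‖(θ j).toFun (F z) (deriv F z)‖ ^ ((m j : ℝ)⁻¹) = 0 := h0 z
      have h2 := (Finset.sum_eq_zero_iff_of_nonneg fun j _ => Real.rpow_nonneg (norm_nonneg ((θ j).toFun (F z) (deriv F z))) _).1 h1 j
        (Finset.mem_univ j)
      have h3 : ((m j : ℝ)⁻¹) ≠ 0 := by
        have : (m j : ℝ) ≠ 0 := by
          have := hm j
          positivity
        exact inv_ne_zero this
      exact norm_eq_zero.1 (((Real.rpow_eq_zero (norm_nonneg _) h3).1 h2))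
    obtain ⟨D, hR⟩ := hnull.hom
    intro l z
    have h1 := hnull.null _ hl.holomorphicInto (orderTwo_of_ordTwo hl ho)
      (fun z => ⟨(hl.mem_iff hP z).2 (hFX z), fun h2 => (hK z).2 0 ((vanishesAt_lift hl hH z).1 h2)⟩) hcon (fun j => ⟨F, hl, hzero j⟩) l z
    exact (vanishesAt_lift hl (hR l) z).1 h1
  · right
    push Not at hcon
    intro z w
    have h1 := hcon z w
    simp only at h1
    rw [Projectivization.mk_eq_mk_iff'] at h1
    obtain ⟨a, ha⟩ := h1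
    exact ⟨a, WithLp.ofLp_injective 2 ha.symm⟩

/-- the metric of a curve which contains the null curves -/
theorem MetD.met {s : ℕ} {m : Fin s → ℕ} (θ : ∀ j, SymDiff (oc P H) (m j)) {mΩ jΩ r : ℕ} {Ω : Fin r → EN N → EN N → EN N → ℂ}
    {n : ℕ} (supp : Fin n → Finset (Fin k)) (Pol : Fin n → Fin s → MvPolynomial (Fin k) ℂ) (ty : EN N → Fin n) {T : Set (EN N)}
    {rho : EN N → ℝ} {M' : ℕ} {c₀ C δ : ℝ} {g : (ℂ → EN N) → ℂ → ℝ} (D : MetD (coneE P) (oc P H) T rho M' c₀ C δ g)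
    (hn : ∀ F : ℂ → EN N, Differentiable ℂ F → (∀ z, F z ∈ oc P H) → OrdTwo F → (∀ z, nForms m (fun j => (θ j).toFun) (F z) (deriv F z) = 0) →
      (∀ z, F z ∈ T) ∨ ∀ z w, ∃ c : ℂ, F z = c • F w)
    (hΩ : ∀ x ∈ oc P H, x ∉ T → ∃ a, ∀ v w, Tan (coneE P) x v → Tan (coneE P) x w → LinearIndependent ℂ ![x, v, w] → Ω a x v w ≠ 0) :
    (geoOf P H h E c b θ supp Pol ty mΩ jΩ Ω).Met T rho M' c₀ C δ g where
  en := D.en
  pos := D.pos
  near := D.near
  TX := D.TX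
  Ts := D.Ts
  KT := D.KT
  rho0 := D.rho0
  rhoT := D.rhoT
  rhoc := D.rhoc
  rhos := D.rhos
  Ti := D.Ti
  null := hn
  Ωne := hΩ

/-- the zeros of the forms `Ω a` -/
theorem omega_ne (hP : Homog P) (hH : H.IsHomogeneous h) (h1 : 1 ≤ h) {mΩ jΩ r : ℕ} {Ω : Fin r → EN N → EN N → EN N → ℂ}
    {Q : Fin r → MvPolynomial (Fin (N + 1)) ℂ} (hΩ : LogForms P H mΩ jΩ Ω Q) {x : EN N} (hx : x ∈ oc P H) {a : Fin r} (ha : eval x.ofLp (Q a) ≠ 0)
    {v w : EN N} (hv : Tan (coneE P) x v) (hw : Tan (coneE P) x w) (hli : LinearIndependent ℂ ![x, v, w]) : Ω a x v w ≠ 0 := by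
  have hK : IsOpenPart (coneE P) (oc P H) := isOpenPart_oc hP hH h1
  obtain ⟨γ, ⟨g1, g2⟩, g3, g4⟩ := Pool.Agent.SDA.E2_tan hK hx hv
  obtain ⟨γ', ⟨g1', g2'⟩, g3', g4'⟩ := Pool.Agent.SDA.E2_tan hK hx hw
  exact hΩ.noZeros a x hx ha v ⟨γ, g1, g2, g3, g4⟩ w ⟨γ', g1', g2', g3', g4'⟩ hli

/-- MODULE H11 (MetA.lean): the first metric -/
theorem exists_met [P.IsPrime] {z : Fin 2 → FunField P} (hP : Homog P) (hz : IsTranscendenceBasis ℂ z) (hsm : IsSmooth P 2)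
    (hH : H.IsHomogeneous h) (h1 : 1 ≤ h) (hHP : H ∉ P) {s : ℕ} {m : Fin s → ℕ} (hs1 : 1 ≤ s) (hm : ∀ j, 1 ≤ m j)
    (θ : ∀ j, SymDiff (oc P H) (m j)) {mΩ jΩ r t D₁ D₂ : ℕ} {Ω : Fin r → EN N → EN N → EN N → ℂ}
    {Q : Fin r → MvPolynomial (Fin (N + 1)) ℂ} (hΩ : LogForms P H mΩ jΩ Ω Q) (hQ : ∀ a, (Q a).IsHomogeneous D₂)
    {R : Fin t → MvPolynomial (Fin (N + 1)) ℂ} (hR : ∀ l, (R l).IsHomogeneous D₁) (hnull : NullCurve θ R) (hcov : ZeroCover P H Q R)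
    {n : ℕ} (supp : Fin n → Finset (Fin k)) (Pol : Fin n → Fin s → MvPolynomial (Fin k) ℂ) (ty : EN N → Fin n) :
    ∃ (M' : ℕ) (c₀ C δ : ℝ) (g : (ℂ → EN N) → ℂ → ℝ),
      (geoOf P H h E c b θ supp Pol ty mΩ jΩ Ω).Met {x | x ∈ coneE P ∧ ∀ a, eqT H R Q a x = 0} (rhoS (eqT H R Q) (D₁ + D₂ + h)) M' c₀ C δ g := by
  obtain ⟨M', c₀, C, δ, g, D⟩ := exists_metD_family hP hz hsm hH h1 hHP hΩ hQ hR hnull.ne hcov
  refine ⟨M', c₀, C, δ, g, D.met θ supp Pol ty (fun F hF hK ho h0 => ?_) fun x hx hxT => ?_⟩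
  · rcases null_mem hP hH hm θ hnull hF hK ho h0 with h2 | h2
    · left
      intro w
      refine ⟨(hK w).1, fun a => ?_⟩
      show eval (F w).ofLp (R a.1 * Q a.2 * H) = 0
      rw [map_mul, map_mul, h2 a.1 w, zero_mul, zero_mul]
    · exact Or.inr h2
  · have h2 : ∃ a : Fin t × Fin r, eqT H R Q a x ≠ 0 := by
      by_contra hcon
      push Not at hcon
      exact hxT ⟨hx.1, hcon⟩
    obtain ⟨a, ha⟩ := h2
    have h3 : eval x.ofLp (Q a.2) ≠ 0 := by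
      intro h4
      apply ha
      show eval x.ofLp (R a.1 * Q a.2 * H) = 0
      rw [map_mul, map_mul, h4, mul_zero, zero_mul]
    exact ⟨a.2, fun v w hv hw hli => omega_ne hP hH h1 hΩ hx h3 hv hw hli⟩

end Pool.Agent.SR3

end
end

section

/-!
# SR3 F PotE: the logarithms of the equations of the boundary along a curve
-/

set_option autoImplicit false

open Topology Filter Metric Laplacian InnerProductSpace

noncomputable section

namespace Pool.Agent.SR3.F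

open Pool.Agent.H36.BP (EN fs fs_nonneg)
open Pool.Agent.H14.PP (Tan)
open Geo (Gd)

variable {N : ℕ} {G : Geo N} {T : Set (EN N)} {rho : EN N → ℝ} {M : ℕ} {c₀ C δ γ A' B : ℝ} {g : (ℂ → EN N) → ℂ → ℝ}

/-- MODULE PotE.  `log ‖E i (F)‖ = c i log ‖F‖ - lam i ≥ (c i - h) log ‖F‖ - B`; `Δ log ‖E i (F)‖ = 2 fs (E i F, dE i F')² ≤ C fs²`. -/
theorem exists_potE (S : Base G T rho M c₀ C δ g) :
    ∃ κ B₁ : ℝ, 1 ≤ κ ∧ 1 ≤ B₁ ∧ ∀ (q : G.J → ℂ) (F : ℂ → EN N), G.Cl T q F → ∀ i, ContDiff ℝ 2 (fun z => Real.log ‖G.E i (F z)‖) ∧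
      (∀ z, κ ≤ infDist z (Gd rho δ F) → Δ (fun z => Real.log ‖G.E i (F z)‖) z ≤ B₁ / infDist z (Gd rho δ F) ^ 2) ∧
      ∀ z, -B₁ ≤ Real.log ‖G.E i (F z)‖ := by
  have hG := S.ok
  obtain ⟨B₂, R₂, hB₂, hR₂, hsp⟩ := speed S
  obtain ⟨C₁, hC₁, hfs⟩ := hG.fsE
  obtain ⟨B₃, hB₃, hlow⟩ := log_lower hG
  obtain ⟨B₄, hB₄, hup⟩ := lam_upperA hG
  have hs0 : (0 : ℝ) ≤ ∑ i, (G.c i : ℝ) := Finset.sum_nonneg fun _ _ => Nat.cast_nonneg _
  refine ⟨max R₂ 1, 1 + 2 * C₁ ^ 2 * B₂ ^ 2 + ((∑ i, (G.c i : ℝ)) * B₃ + B₄), le_max_right _ _, by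
    have : 0 ≤ 2 * C₁ ^ 2 * B₂ ^ 2 + ((∑ i, (G.c i : ℝ)) * B₃ + B₄) := by positivity
    linarith, fun q F hF i => ?_⟩
  have hFd : Differentiable ℂ F := hF.ent.diff
  have hFK : ∀ z, F z ∈ G.K := hF.ent.mem
  have hFan : ∀ z, AnalyticAt ℂ F z := fun z => hFd.analyticAt z
  have hEF : ∀ z, AnalyticAt ℂ (fun w => G.E i (F w)) z := fun z => (hG.anE i (F z)).comp (hFan z)
  have hE0 : ∀ z, G.E i (F z) ≠ 0 := fun z => hG.neE i _ (hFK z)
  have hd : ∀ z, deriv (fun w => G.E i (F w)) z = fderiv ℂ (G.E i) (F z) (deriv F z) := fun z =>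
    ((hG.anE i (F z)).differentiableAt.hasFDerivAt.comp_hasDerivAt z (hFd z).hasDerivAt).deriv
  refine ⟨contDiff_iff_contDiffAt.2 fun z => (log_c2 (hEF z) (hE0 z)).1, fun z hz => ?_, fun z => ?_⟩
  · have h1 : R₂ ≤ infDist z (Gd rho δ F) := (le_max_left _ _).trans hz
    have h2 : 0 < infDist z (Gd rho δ F) := lt_of_lt_of_le hR₂ h1
    have h3 := hsp q F hF z h1
    have h4 := hfs i (F z) (hFK z) (deriv F z) (tan hG hFd hFK z)
    rw [(log_c2 (hEF z) (hE0 z)).2.1, hd z]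
    have h5 : fs (G.E i (F z)) (fderiv ℂ (G.E i) (F z) (deriv F z)) ≤ C₁ * (B₂ / infDist z (Gd rho δ F)) :=
      h4.trans (mul_le_mul_of_nonneg_left h3 hC₁)
    have h6 : fs (G.E i (F z)) (fderiv ℂ (G.E i) (F z) (deriv F z)) ^ 2 ≤ (C₁ * (B₂ / infDist z (Gd rho δ F))) ^ 2 :=
      pow_le_pow_left₀ (fs_nonneg _ _) h5 2
    calc 2 * fs (G.E i (F z)) (fderiv ℂ (G.E i) (F z) (deriv F z)) ^ 2 ≤ 2 * (C₁ * (B₂ / infDist z (Gd rho δ F))) ^ 2 := by linarith
      _ = (2 * C₁ ^ 2 * B₂ ^ 2) / infDist z (Gd rho δ F) ^ 2 := by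
        field_simp
      _ ≤ _ := by
        refine div_le_div_of_nonneg_right ?_ (sq_nonneg _)
        have : 0 ≤ (∑ i, (G.c i : ℝ)) * B₃ + B₄ := by positivity
        linarith
  · have h1 := (hup (F z) (hFK z) (hF.nm z)).1 i
    have h2 := hlow (F z) (hF.nm z)
    have h3 : Real.log ‖G.E i (F z)‖ = G.c i * Real.log ‖F z‖ - G.lam i (F z) := by
      unfold Geo.lam
      ring
    have h4 : (G.h : ℝ) + 1 ≤ G.c i := by exact_mod_cast hG.c_ge i
    have h5 : (G.c i : ℝ) ≤ ∑ i, (G.c i : ℝ) :=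
      Finset.single_le_sum (f := fun i => (G.c i : ℝ)) (fun _ _ => Nat.cast_nonneg _) (Finset.mem_univ i)
    have h6 : (0 : ℝ) ≤ G.h := Nat.cast_nonneg _
    have h7 : -(((G.c i : ℝ) - G.h) * B₃) ≤ ((G.c i : ℝ) - G.h) * Real.log ‖F z‖ := by
      have := mul_le_mul_of_nonneg_left h2 (by linarith : (0 : ℝ) ≤ (G.c i : ℝ) - G.h)
      linarith
    have h8 : ((G.c i : ℝ) - G.h) * B₃ ≤ (∑ i, (G.c i : ℝ)) * B₃ := mul_le_mul_of_nonneg_right (by linarith) hB₃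
    have h9 : 0 ≤ 2 * C₁ ^ 2 * B₂ ^ 2 := by positivity
    rw [h3]
    linarith

end Pool.Agent.SR3.F

end
end

section

/-!
# SR3 F Tube: the difference of two curves which are close along a chain
-/

set_option autoImplicit false

open Topology Filter Metric Laplacian InnerProductSpace

noncomputable section

namespace Pool.Agent.SR3.F

open Pool.Agent.H36.BP (EN fs)
open Pool.Agent.SR3.G (IsChain)
open Geo (Gd)

theorem Pot.mono {r d : ℂ → ℝ} {κ κ' c B B' : ℝ} (h : Pot r d κ c B) (hκ : κ ≤ κ') (hB : B ≤ B') : Pot r d κ' c B' where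
  smooth := h.smooth
  one_le := h.one_le
  d0 := h.d0
  lip := h.lip
  le z := (h.le z).trans (mul_le_mul_of_nonneg_right hB (by linarith [h.d0 z]))
  lower z hz := h.lower z (hκ.trans hz)
  lap z hz := (h.lap z (hκ.trans hz)).trans (div_le_div_of_nonneg_right hB (sq_nonneg _))
  grad z hz := h.grad z (hκ.trans hz)

theorem one_le_pw {γ r : ℝ} (hγ : 0 ≤ γ) (hr : 0 ≤ r) : 1 ≤ pw γ r := Real.one_le_rpow (by linarith) hγ

theorem pw_add_le {γ r s : ℝ} (hγ : 0 ≤ γ) (hγ1 : γ ≤ 1) (hr : 0 ≤ r) (hs : 0 ≤ s) : pw γ (r + s) ≤ (1 + s) * pw γ r := by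
  have e2 : 2 + (r + s) ≤ (1 + s) * (2 + r) := by nlinarith
  calc (2 + (r + s)) ^ γ ≤ ((1 + s) * (2 + r)) ^ γ := Real.rpow_le_rpow (by positivity) e2 hγ
    _ = (1 + s) ^ γ * (2 + r) ^ γ := Real.mul_rpow (by linarith) (by positivity)
    _ ≤ (1 + s) * (2 + r) ^ γ := by
        apply mul_le_mul_of_nonneg_right _ (by positivity)
        calc (1 + s) ^ γ ≤ (1 + s) ^ (1 : ℝ) := Real.rpow_le_rpow_of_exponent_le (by linarith) hγ1
          _ = 1 + s := Real.rpow_one _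

theorem pw_mono {γ r s : ℝ} (hγ : 0 ≤ γ) (hr : 0 ≤ r) (hrs : r ≤ s) : pw γ r ≤ pw γ s :=
  Real.rpow_le_rpow (by linarith) (by linarith) hγ

section

variable {V : Type} [NormedAddCommGroup V] [InnerProductSpace ℂ V] [CompleteSpace V]

/-- `compare`, with the tube and the scaling -/
theorem tube_core {κ c B γ : ℝ} (hκ : 1 ≤ κ) (hc : 0 < c) (hB : 1 ≤ B) (hγ : 0 < γ) (hγ1 : γ < 1) :
    ∃ κ' : ℝ, κ ≤ κ' ∧ ∀ D C₀ Q : ℝ, 0 ≤ D → 0 ≤ C₀ → 0 ≤ Q → ∃ K : ℝ, 0 ≤ K ∧ ∀ r d : ℂ → ℝ, Pot r d κ c B → d 0 ≤ D →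
      ∀ rB : ℂ → ℝ, ContDiff ℝ 2 rB → (∀ z, κ ≤ d z → Δ rB z ≤ B / d z ^ 2) → (∀ z, -Q ≤ rB z) → ∀ U : ℂ → V, Differentiable ℂ U →
        ∀ s ε n Q₀ : ℝ, 0 < s → s ≤ 1 → 0 ≤ ε → 0 ≤ n → 0 ≤ Q₀ →
          (∀ z, d z ≤ κ' → ∃ t : ℝ, t ≤ ‖z‖ + C₀ ∧ ‖U z‖ ≤ s * Real.exp (Q * pw γ ‖z‖ + ε * min t n)) →
            (∀ z, ‖U z‖ ≤ 2 * Real.exp (rB z + Q₀ * pw γ ‖z‖)) →
              ∀ z, ‖U z‖ ≤ s * Real.exp (rB z + K * pw ((1 + γ) / 2) ‖z‖ + K * (ε * Real.log (2 + n)) * (1 + ‖z‖)) := by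
  obtain ⟨κ', hκ', hcmp⟩ := compare (V := V) hκ hc hB
  refine ⟨κ', hκ', fun D C₀ Q hD hC₀ hQ => ?_⟩
  obtain ⟨K, hK, h⟩ := hcmp D γ ((1 + γ) / 2) Q hD hγ (by linarith) (by linarith) hQ
  refine ⟨K + 2 * C₀, by positivity, fun r d hP hd rB h1 h2 h3 U hU s ε n Q₀ hs hs1 hε hn hQ₀ htube hinf z => ?_⟩
  have hlog : (1 : ℝ) / 2 ≤ Real.log (2 + n) := by
    have e1 : Real.log 2 ≤ Real.log (2 + n) := Real.log_le_log (by norm_num) (by linarith)
    have e2 := Real.log_two_gt_d9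
    linarith
  set E : ℝ := ε * (2 * C₀ * Real.log (2 + n)) with hE
  have hE0 : 0 ≤ E := by
    have : 0 ≤ Real.log (2 + n) := by linarith
    positivity
  set a : ℝ := Real.exp (-E) / s with ha
  have ha0 : 0 < a := by positivity
  have hna : ∀ y, ‖(a : ℂ) • U y‖ = a * ‖U y‖ := by
    intro y
    rw [norm_smul, Complex.norm_real, Real.norm_of_nonneg ha0.le]
  have key := h r d hP hd rB h1 h2 h3 (fun z => (a : ℂ) • U z) (hU.const_smul (a : ℂ)) ε n (Q₀ + Real.log 2 + Real.log (1 / s)) hε hn ?_ ?_ z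
  · rw [hna z] at key
    have e1 : ‖U z‖ = s * (Real.exp E * (a * ‖U z‖)) := by
      rw [ha, Real.exp_neg]
      field_simp
    rw [e1]
    apply mul_le_mul_of_nonneg_left _ hs.le
    refine (mul_le_mul_of_nonneg_left key (Real.exp_pos E).le).trans ?_
    rw [← Real.exp_add]
    apply Real.exp_le_exp.2
    have hp : 0 ≤ pw ((1 + γ) / 2) ‖z‖ := by
      have := one_le_pw (γ := (1 + γ) / 2) (by linarith) (norm_nonneg z)
      linarith
    have e2 : E ≤ 2 * C₀ * (ε * Real.log (2 + n)) * (1 + ‖z‖) := by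
      have e3 : E = 2 * C₀ * (ε * Real.log (2 + n)) := by rw [hE]; ring
      rw [e3]
      have e4 : 0 ≤ 2 * C₀ * (ε * Real.log (2 + n)) := by rw [← e3]; exact hE0
      exact le_mul_of_one_le_right e4 (by linarith [norm_nonneg z])
    have e5 : 0 ≤ 2 * C₀ * pw ((1 + γ) / 2) ‖z‖ := by positivity
    have e6 : K * ε * Real.log (2 + n) * (1 + ‖z‖) = K * (ε * Real.log (2 + n)) * (1 + ‖z‖) := by ring
    rw [e6]
    nlinarith
  · intro y hy
    obtain ⟨t, ht, hUy⟩ := htube y hy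
    rw [hna y]
    have e1 : a * ‖U y‖ ≤ Real.exp (-E) * Real.exp (Q * pw γ ‖y‖ + ε * min t n) := by
      calc a * ‖U y‖ ≤ a * (s * Real.exp (Q * pw γ ‖y‖ + ε * min t n)) := mul_le_mul_of_nonneg_left hUy ha0.le
        _ = _ := by rw [ha]; field_simp
    refine e1.trans ?_
    rw [← Real.exp_add]
    apply Real.exp_le_exp.2
    have e2 : min t n ≤ min ‖y‖ n + C₀ := by
      rcases le_total ‖y‖ n with h4 | h4
      · rw [min_eq_left h4]
        exact (min_le_left _ _).trans ht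
      · rw [min_eq_right h4]
        exact (min_le_right _ _).trans (by linarith)
    have e3 : C₀ ≤ 2 * C₀ * Real.log (2 + n) := by nlinarith
    have e4 : ε * min t n ≤ ε * (min ‖y‖ n + 2 * C₀ * Real.log (2 + n)) := mul_le_mul_of_nonneg_left (by linarith) hε
    rw [hE]
    linarith
  · intro y
    rw [hna y]
    have e1 : a ≤ 1 / s := by
      rw [ha]
      exact div_le_div_of_nonneg_right (Real.exp_le_one_iff.2 (by linarith)) hs.le
    have hp := one_le_pw hγ.le (norm_nonneg y)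
    have hl2 : 0 ≤ Real.log 2 := Real.log_nonneg (by norm_num)
    have hls : 0 ≤ Real.log (1 / s) := Real.log_nonneg (by rw [le_div_iff₀ hs]; linarith)
    calc a * ‖U y‖ ≤ (1 / s) * (2 * Real.exp (rB y + Q₀ * pw γ ‖y‖)) := mul_le_mul e1 (hinf y) (norm_nonneg _) (by positivity)
      _ = Real.exp (Real.log (1 / s) + (Real.log 2 + (rB y + Q₀ * pw γ ‖y‖))) := by
          rw [Real.exp_add (Real.log (1 / s)), Real.exp_add (Real.log 2), Real.exp_log (by positivity), Real.exp_log (by norm_num)]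
      _ ≤ Real.exp (rB y + (Q₀ + Real.log 2 + Real.log (1 / s)) * pw γ ‖y‖) := by
          apply Real.exp_le_exp.2
          have e2 : Real.log 2 ≤ Real.log 2 * pw γ ‖y‖ := le_mul_of_one_le_right hl2 hp
          have e3 : Real.log (1 / s) ≤ Real.log (1 / s) * pw γ ‖y‖ := le_mul_of_one_le_right hls hp
          nlinarith

end

end Pool.Agent.SR3.F

end
end

section

/-!
# MQL ThL: the function `Θ` for a weight with poles
-/

set_option autoImplicit false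

open Topology Filter Metric MvPolynomial

noncomputable section

namespace Pool.Agent.MQL

open Pool.Agent.H36.BP (EN)
open Pool.Agent.H17BP (Surface IsForm)
open Pool.Agent.H17EF (projVar coneE)
open Pool.Agent.H36.BPL (OpenPart)
open Pool.Agent.MQ3

variable {M : ℕ} {P : Ideal (MvPolynomial (Fin (M + 1)) ℂ)} {RD H₀ Ra : MvPolynomial (Fin (M + 1)) ℂ} {m : ℕ} {X : NCModel P RD} {θ : WDiff (coneE P) m}
  {l : LF M} {S : Web X θ l} {Wf : EN M → EN M → EN M → ℂ} {mK jH : ℕ}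

theorem exists_theta {F : ℂ → EN M} (hX : Surface (coneE P)) (hW : LW P H₀ mK jH Wf) (hF : LCrv θ RD H₀ Ra F) (Y : NCLift X F) (hne : WNe Wf Y) :
    ∃ Θ : ℂ → ℂ, IsTh S Wf mK Y Θ :=
  exists_thetaK hX hW.one_m (okE_open hX hW.hom) hW.form hF.toWCrv (fun z => ⟨hF.mem z, hF.avoid z⟩) Y hne

end Pool.Agent.MQL

end
end
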