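import Pool.Agent.H43.TL2.M15
import Pool.Agent.H43.TL2.M19
import Pool.Agent.H43.TL2.M23
import Pool.Agent.H43.TL2.M27
import Pool.Agent.H43.TL2.M30

/-! The parts of this file: E1.ChowC, E1.Chow, MQ3.Bad, MQ3.WBx, MQ3.WBxC, MQ3.Defs. -/

section

/-!
# E1 ChowC: a curve in a surface, given locally by one equation, is covered by finitely many discs

`Z ⊆ X` is a subcone of the cone of a smooth closed surface, given near every point by one equation `g = 0`, `g` not identically zero.  Then there are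
finitely many analytic discs `γ i : closedBall 0 1 → Z` such that every point of `Z` is a multiple of a point `γ i z`, `|z| ≤ 1/2`.
-/

set_option autoImplicit false

open Topology Filter Metric

noncomputable section

namespace Pool.Agent.E1

open Pool.Agent.H17BP (Surface IsChart LocalEq ResN)

variable {V : Type} [NormedAddCommGroup V] [NormedSpace ℂ V]

/-- the discs over a neighbourhood of a point of the surface -/
theorem discs_near [CompleteSpace V] {X Z : Set V} (hZX : Z ⊆ X) (hZs : ∀ x ∈ Z, ∀ c : ℂ, c ≠ 0 → c • x ∈ Z)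
    (hdisc : ∀ (n : ℕ) (g : ℂ × ℂ → ℂ), ResN n g → ∀ W ∈ 𝓝 (0 : ℂ × ℂ),
      ∃ (r : ℕ) (c : Fin r → ℂ → ℂ × ℂ), (∀ i, AnalyticOnNhd ℂ (c i) (closedBall 0 1)) ∧
      (∀ i, ∀ z ∈ closedBall (0 : ℂ) 1, c i z ∈ W ∧ g (c i z) = 0) ∧
      ∀ᶠ p in 𝓝 (0 : ℂ × ℂ), g p = 0 → ∃ i, ∃ z ∈ closedBall (0 : ℂ) (1 / 2), c i z = p)
    {σ : ℂ × ℂ → V} {τ : V → ℂ × ℂ} {g : ℂ × ℂ → ℂ} (hσ : IsChart X σ τ) (hg : LocalEq Z σ g) (hne : ¬ ∀ᶠ p in 𝓝 (0 : ℂ × ℂ), g p = 0) :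
    ∃ T : Set (ℂ → V), T.Finite ∧ (∀ γ ∈ T, AnalyticOnNhd ℂ γ (closedBall 0 1) ∧ ∀ z ∈ closedBall (0 : ℂ) 1, γ z ∈ Z) ∧
      ∀ᶠ y in 𝓝 (σ 0), y ∈ Z → ∃ γ ∈ T, ∃ z ∈ closedBall (0 : ℂ) (1 / 2), ∃ c : ℂ, c ≠ 0 ∧ γ z = c • y := by
  obtain ⟨n, hn⟩ := Pool.Agent.H17BP.exists_resN hg.1 hne
  have hW : {p : ℂ × ℂ | AnalyticAt ℂ σ p ∧ (σ p ∈ Z ↔ g p = 0)} ∈ 𝓝 (0 : ℂ × ℂ) :=
    hσ.σ_an.eventually_analyticAt.and hg.2
  obtain ⟨r, c, hc1, hc2, hc3⟩ := hdisc n g hn _ hW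
  have hτ0 : τ (σ 0) = 0 := hσ.left.self_of_nhds
  have hτ : Tendsto τ (𝓝 (σ 0)) (𝓝 0) := by
    have h1 := hσ.τ_an.continuousAt.tendsto
    rwa [hτ0] at h1
  refine ⟨Set.range fun i => σ ∘ c i, Set.finite_range _, ?_, ?_⟩
  · rintro γ ⟨i, rfl⟩
    refine ⟨fun z hz => ?_, fun z hz => ?_⟩
    · exact AnalyticAt.comp (hc2 i z hz).1.1 (hc1 i z hz)
    · exact (hc2 i z hz).1.2.2 (hc2 i z hz).2
  · filter_upwards [hσ.right, hτ.eventually hc3, hτ.eventually hg.2] with y h1 h2 h3 hy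
    obtain ⟨a, ha, hya⟩ := h1 (hZX hy)
    have h4 : σ (τ y) = a⁻¹ • y := by
      conv_rhs => rw [hya]
      rw [smul_smul, inv_mul_cancel₀ ha, one_smul]
    have h5 : σ (τ y) ∈ Z := by
      rw [h4]
      exact hZs y hy _ (inv_ne_zero ha)
    obtain ⟨i, z, hz, hcz⟩ := h2 (h3.1 h5)
    refine ⟨_, ⟨i, rfl⟩, z, hz, a⁻¹, inv_ne_zero ha, ?_⟩
    simp only [Function.comp_apply]
    rw [hcz, h4]

/-- **The cover.** -/
theorem exists_discs [FiniteDimensional ℂ V] {X Z : Set V} (hX : Surface X) (hZX : Z ⊆ X) (hZs : ∀ x ∈ Z, ∀ c : ℂ, c ≠ 0 → c • x ∈ Z)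
    (hdisc : ∀ (n : ℕ) (g : ℂ × ℂ → ℂ), ResN n g → ∀ W ∈ 𝓝 (0 : ℂ × ℂ),
      ∃ (r : ℕ) (c : Fin r → ℂ → ℂ × ℂ), (∀ i, AnalyticOnNhd ℂ (c i) (closedBall 0 1)) ∧
      (∀ i, ∀ z ∈ closedBall (0 : ℂ) 1, c i z ∈ W ∧ g (c i z) = 0) ∧
      ∀ᶠ p in 𝓝 (0 : ℂ × ℂ), g p = 0 → ∃ i, ∃ z ∈ closedBall (0 : ℂ) (1 / 2), c i z = p)
    (hloc : ∀ x ∈ X, ∃ (σ : ℂ × ℂ → V) (τ : V → ℂ × ℂ) (g : ℂ × ℂ → ℂ), IsChart X σ τ ∧ σ 0 = x ∧ LocalEq Z σ g ∧
      ¬ ∀ᶠ p in 𝓝 (0 : ℂ × ℂ), g p = 0) :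
    ∃ (r : ℕ) (γ : Fin r → ℂ → V), (∀ i, AnalyticOnNhd ℂ (γ i) (closedBall 0 1)) ∧
      (∀ i, ∀ z ∈ closedBall (0 : ℂ) 1, γ i z ∈ Z) ∧
      ∀ x ∈ Z, ∃ i, ∃ z ∈ closedBall (0 : ℂ) (1 / 2), ∃ c : ℂ, c ≠ 0 ∧ γ i z = c • x := by
  have : ProperSpace V := FiniteDimensional.proper ℂ V
  have : CompleteSpace V := FiniteDimensional.complete ℂ V
  have hK : IsCompact (X ∩ sphere (0 : V) 1) := by
    refine (isCompact_sphere (0 : V) 1).of_isClosed_subset ?_ Set.inter_subset_right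
    refine isClosed_of_closure_subset fun x hx => ?_
    have h1 : x ∈ sphere (0 : V) 1 := by
      have h2 : closure (X ∩ sphere (0 : V) 1) ⊆ sphere (0 : V) 1 := closure_minimal Set.inter_subset_right isClosed_sphere
      exact h2 hx
    have h3 : x ≠ 0 := by
      rintro rfl
      simp at h1
    exact ⟨hX.closed x (closure_mono Set.inter_subset_left hx) h3, h1⟩
  obtain ⟨T, hT1, hT2, hT3⟩ : ∃ T : Set (ℂ → V), T.Finite ∧ (∀ γ ∈ T, AnalyticOnNhd ℂ γ (closedBall 0 1) ∧ ∀ z ∈ closedBall (0 : ℂ) 1, γ z ∈ Z) ∧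
      ∀ y ∈ X ∩ sphere (0 : V) 1, y ∈ Z → ∃ γ ∈ T, ∃ z ∈ closedBall (0 : ℂ) (1 / 2), ∃ c : ℂ, c ≠ 0 ∧ γ z = c • y := by
    refine hK.induction_on (p := fun S : Set V => ∃ T : Set (ℂ → V), T.Finite ∧
      (∀ γ ∈ T, AnalyticOnNhd ℂ γ (closedBall 0 1) ∧ ∀ z ∈ closedBall (0 : ℂ) 1, γ z ∈ Z) ∧
      ∀ y ∈ S, y ∈ Z → ∃ γ ∈ T, ∃ z ∈ closedBall (0 : ℂ) (1 / 2), ∃ c : ℂ, c ≠ 0 ∧ γ z = c • y) ?_ ?_ ?_ ?_
    · exact ⟨∅, Set.finite_empty, by simp, by simp⟩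
    · rintro s t hst ⟨T, h1, h2, h3⟩
      exact ⟨T, h1, h2, fun y hy => h3 y (hst hy)⟩
    · rintro s t ⟨T, h1, h2, h3⟩ ⟨T', h1', h2', h3'⟩
      refine ⟨T ∪ T', h1.union h1', ?_, ?_⟩
      · rintro γ (h | h)
        · exact h2 γ h
        · exact h2' γ h
      · rintro y (h | h) hy
        · obtain ⟨γ, h4, h5⟩ := h3 y h hy
          exact ⟨γ, Or.inl h4, h5⟩
        · obtain ⟨γ, h4, h5⟩ := h3' y h hy
          exact ⟨γ, Or.inr h4, h5⟩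
    · rintro x ⟨hx, -⟩
      obtain ⟨σ, τ, g, h1, h2, h3, h4⟩ := hloc x hx
      obtain ⟨T, h5, h6, h7⟩ := discs_near hZX hZs hdisc h1 h3 h4
      rw [h2] at h7
      exact ⟨_, mem_nhdsWithin_of_mem_nhds h7, T, h5, h6, fun y hy => hy⟩
  obtain ⟨r, e⟩ := Finite.exists_equiv_fin (α := T) (h := hT1)
  obtain ⟨e⟩ := e
  refine ⟨r, fun i => (e.symm i).1, fun i => (hT2 _ (e.symm i).2).1, fun i => (hT2 _ (e.symm i).2).2, fun x hx => ?_⟩
  have hx0 : x ≠ 0 := by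
    rintro rfl
    exact hX.zero (hZX hx)
  have hn : (‖x‖ : ℂ) ≠ 0 := by
    simpa using hx0
  have h1 : (‖x‖ : ℂ)⁻¹ • x ∈ Z := hZs x hx _ (inv_ne_zero hn)
  have h2 : (‖x‖ : ℂ)⁻¹ • x ∈ sphere (0 : V) 1 := by
    rw [mem_sphere_zero_iff_norm, norm_smul, norm_inv, Complex.norm_real, norm_norm]
    exact inv_mul_cancel₀ (norm_ne_zero_iff.2 hx0)
  obtain ⟨γ, hγ, z, hz, c, hc, hcz⟩ := hT3 _ ⟨hZX h1, h2⟩ h1
  refine ⟨e ⟨γ, hγ⟩, z, hz, c * (‖x‖ : ℂ)⁻¹, mul_ne_zero hc (inv_ne_zero hn), ?_⟩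
  simp only [Equiv.symm_apply_apply]
  rw [hcz, smul_smul]

end Pool.Agent.E1

end
end

section

/-!
# E1 Chow: an analytic curve in an algebraic surface, given locally by one equation, lies in an algebraic curve

`disc_cover` (Disc), `exists_discs` (ChowC), `exists_form_of_discs` (ChowF, ChowS).
-/

set_option autoImplicit false

open Topology Filter Metric MvPolynomial

noncomputable section

namespace Pool.Agent.E1

open Pool.Agent.H36.BP (EN)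
open Pool.Agent.H17BP (Surface IsChart LocalEq)
open Pool.Agent.H17EF (coneE)
open Pool.Agent.H17LG.Variety (FunField)

variable {N : ℕ}

/-- **Chow's theorem** for a curve in the surface which is given locally by one equation. -/
theorem exists_form_of_analytic {P : Ideal (MvPolynomial (Fin (N + 1)) ℂ)} [P.IsPrime] {z : Fin 2 → FunField P} (hz : IsTranscendenceBasis ℂ z)
    (hX : Surface (coneE P)) {Z : Set (EN N)} (hZX : Z ⊆ coneE P) (hZs : ∀ x ∈ Z, ∀ c : ℂ, c ≠ 0 → c • x ∈ Z)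
    (hloc : ∀ x ∈ coneE P, ∃ (σ : ℂ × ℂ → EN N) (τ : EN N → ℂ × ℂ) (g : ℂ × ℂ → ℂ), IsChart (coneE P) σ τ ∧ σ 0 = x ∧ LocalEq Z σ g ∧
      ¬ ∀ᶠ p in 𝓝 (0 : ℂ × ℂ), g p = 0) :
    ∃ (R : MvPolynomial (Fin (N + 1)) ℂ) (d : ℕ), R.IsHomogeneous d ∧ R ∉ P ∧ ∀ x ∈ Z, eval x.ofLp R = 0 := by
  obtain ⟨r, γ, hγ, hγZ, hcov⟩ := exists_discs hX hZX hZs (fun n g hg W hW => disc_cover n hg hW) hloc
  exact exists_form_of_discs hz (Pool.Agent.H62.FC.exists_X_notMem (r := 2) (by norm_num) ⟨z, hz⟩) (fun h => hX.zero (hZX h)) hZs γ hγ hγZ hcov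

end Pool.Agent.E1

end
end

section

/-!
# MQ3 Bad: the points where the slopes of a symmetric differential are not distinct lie in an algebraic curve

`NS θ l x` is the set of the slopes `om l 2 / om l 1` of the null directions of `θ` at `x`.  `GoodPt θ l x`: the two forms are independent, the kernel of the
first is not a null direction, and the number of slopes is locally constant at `x`.  The points of the surface which are not good lie in the zero set of a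
form `R` which does not vanish on the surface (`exists_R_good`).
-/

set_option autoImplicit false

open Topology Filter Metric

noncomputable section

namespace Pool.Agent.MQ3

open Pool.Agent.H36.BP (EN)
open Pool.Agent.H14.PP (Tan)
open Pool.Agent.H17BP (Surface IsChart LocalEq)
open Pool.Agent.H17EF (coneE)
open Pool.Agent.H17LG.Variety (FunField)
open Pool.Agent.E1 (ResL_tan ResL_span ResL_indep ResX_family)

variable {N : ℕ} {X : Set (EN N)} {m : ℕ}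

/-- the slopes of the null directions of `θ` at `x` -/
def NS (θ : WDiff X m) (l : LF N) (x : EN N) : Set ℂ :=
  {t | ∃ v, Tan X x v ∧ om l 1 x v ≠ 0 ∧ om l 2 x v = t * om l 1 x v ∧ θ.toFun x v = 0}

/-- good points: the number of slopes is locally constant -/
def GoodPt (θ : WDiff X m) (l : LF N) (x : EN N) : Prop :=
  GA X l x ∧ GB θ l x ∧ (NS θ l x).Finite ∧ ∀ᶠ y in 𝓝 x, y ∈ X → (NS θ l y).ncard = (NS θ l x).ncard

theorem ns_smul (hX : ∀ x ∈ X, ∀ c : ℂ, c ≠ 0 → c • x ∈ X) (θ : WDiff X m) (l : LF N) {x : EN N} {c : ℂ} (hc : c ≠ 0) :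
    NS θ l (c • x) = NS θ l x := by
  have hc2 : c ^ 2 ≠ 0 := pow_ne_zero 2 hc
  ext t
  constructor
  · rintro ⟨v, hv, h1, h2, h3⟩
    have e : v = c • (c⁻¹ • v) := by rw [smul_smul, mul_inv_cancel₀ hc, one_smul]
    rw [e] at hv h1 h2 h3
    have hv' := (tan_smul_iff hX hc).1 hv
    rw [om_smul_smul] at h1 h2
    rw [om_smul_smul] at h2
    rw [θ.scale_eq_zero hv' hc] at h3
    refine ⟨c⁻¹ • v, hv', right_ne_zero_of_mul h1, mul_left_cancel₀ hc2 ?_, h3⟩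
    rw [h2]
    ring
  · rintro ⟨v, hv, h1, h2, h3⟩
    refine ⟨c • v, tan_smul hX hv hc, ?_, ?_, ?_⟩
    · rw [om_smul_smul]
      exact mul_ne_zero hc2 h1
    · rw [om_smul_smul, om_smul_smul, h2]
      ring
    · rw [θ.scale_eq_zero hv hc, h3]

/-- good points form a cone -/
theorem goodPt_smul (hX : ∀ x ∈ X, ∀ c : ℂ, c ≠ 0 → c • x ∈ X) {θ : WDiff X m} {l : LF N} {x : EN N} (h : GoodPt θ l x) {c : ℂ} (hc : c ≠ 0) :
    GoodPt θ l (c • x) := by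
  obtain ⟨h1, h2, h3, h4⟩ := h
  refine ⟨ga_smul hX h1 hc, gb_smul hX h2 hc, by rwa [ns_smul hX θ l hc], ?_⟩
  have ht : Tendsto (fun y : EN N => c⁻¹ • y) (𝓝 (c • x)) (𝓝 x) := by
    have h5 : Continuous fun y : EN N => c⁻¹ • y := continuous_const_smul _
    have h6 := h5.tendsto (c • x)
    rwa [smul_smul, inv_mul_cancel₀ hc, one_smul] at h6
  filter_upwards [ht.eventually h4] with y hy hyX
  have h5 := hy (hX y hyX _ (inv_ne_zero hc))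
  rw [ns_smul hX θ l (inv_ne_zero hc)] at h5
  rw [h5, ns_smul hX θ l hc]

theorem goodPt_smul_iff (hX : ∀ x ∈ X, ∀ c : ℂ, c ≠ 0 → c • x ∈ X) {θ : WDiff X m} {l : LF N} {x : EN N} {c : ℂ} (hc : c ≠ 0) :
    GoodPt θ l (c • x) ↔ GoodPt θ l x := by
  refine ⟨fun h => ?_, fun h => goodPt_smul hX h hc⟩
  have := goodPt_smul hX h (inv_ne_zero hc)
  rwa [smul_smul, inv_mul_cancel₀ hc, one_smul] at this

/-! ### in a chart -/

/-- the slopes in a chart -/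
theorem ns_chart {θ : WDiff X m} {l : LF N} {σ : ℂ × ℂ → EN N} {p : ℂ × ℂ} (hT : ∀ v, Tan X (σ p) (fderiv ℂ σ p v))
    (hsp : ∀ w, Tan X (σ p) w → ∃ (v : ℂ × ℂ) (a : ℂ), w = fderiv ℂ σ p v + a • σ p) (hd : dl l σ p ≠ 0) :
    NS θ l (σ p) = {t | θ.toFun (σ p) (fderiv ℂ σ p (v₁ l σ p + t • v₂ l σ p)) = 0} := by
  ext t
  constructor
  · rintro ⟨v, hv, h1, h2, h3⟩
    obtain ⟨w, a, rfl⟩ := hsp v hv
    rw [om_add_smul] at h1 h2
    rw [om_add_smul] at h2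
    rw [θ.add_smul _ _ (hT w)] at h3
    have h4 := dl_smul l σ p w
    rw [h2, mul_comm, ← smul_smul, ← smul_add] at h4
    have h5 : v₁ l σ p + t • v₂ l σ p = ((om l 1 (σ p) (fderiv ℂ σ p w))⁻¹ * dl l σ p) • w := by
      rw [← smul_smul, h4, smul_smul, inv_mul_cancel₀ h1, one_smul]
    show θ.toFun (σ p) (fderiv ℂ σ p (v₁ l σ p + t • v₂ l σ p)) = 0
    rw [h5, map_smul, θ.smul _ _ (hT w), h3, mul_zero]
  · intro h
    refine ⟨fderiv ℂ σ p (v₁ l σ p + t • v₂ l σ p), hT _, ?_, ?_, h⟩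
    · rw [map_add, map_smul, om_add, om_smul, om_v₁_1, om_v₂_1, mul_zero, add_zero]
      exact hd
    · rw [map_add, map_smul, om_add, om_smul, om_v₁_2, om_v₂_2, om_add, om_smul, om_v₁_1, om_v₂_1]
      ring

/-- the data of a chart on a ball: the slopes are the roots of a polynomial whose coefficients are analytic, and off the zeros of `ph` their number is
at most `e`, with equality where `D` is not zero -/
private theorem Bad_ball (hm : 1 ≤ m) (θ : WDiff X m) (l : LF N) {σ : ℂ × ℂ → EN N} {τ : EN N → ℂ × ℂ} (hσ : IsChart X σ τ)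
    (hph : ¬ ∀ᶠ p in 𝓝 (0 : ℂ × ℂ), ph θ l σ p = 0) :
    ∃ (e : ℕ) (f D : ℂ × ℂ → ℂ) (r : ℝ), 0 < r ∧ (¬ ∀ᶠ p in 𝓝 (0 : ℂ × ℂ), D p = 0) ∧ ∀ p ∈ ball (0 : ℂ × ℂ) r,
      AnalyticAt ℂ f p ∧ AnalyticAt ℂ D p ∧ f p = ph θ l σ p ∧ σ p ∈ X ∧ (∀ᶠ y in 𝓝 (σ p), y ∈ X → ∃ c : ℂ, c ≠ 0 ∧ y = c • σ (τ y)) ∧
      ContinuousAt τ (σ p) ∧ τ (σ p) = p ∧ ContinuousAt σ p ∧ ((GA X l (σ p) ∧ GB θ l (σ p)) ↔ ph θ l σ p ≠ 0) ∧
      (ph θ l σ p ≠ 0 → (NS θ l (σ p)).Finite ∧ (NS θ l (σ p)).ncard ≤ e ∧ (D p ≠ 0 ↔ (NS θ l (σ p)).ncard = e)) := by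
  obtain ⟨A, hA, hA'⟩ := exists_fam θ l hσ.σ_an hσ.σ_mem
  have hm' : ¬ ∀ᶠ p in 𝓝 (0 : ℂ × ℂ), (fun (i : Fin (m + 1)) p => (A p).coeff (i : ℕ)) (Fin.last m) p = 0 := by
    intro h
    apply hph
    filter_upwards [h, hA'] with p h1 h2
    rw [ph, ← h2.2.2]
    have h3 : (A p).coeff m = 0 := by simpa using h1
    rw [h3, mul_zero]
  obtain ⟨e, D, -, hD, hD0, hE⟩ := hank (A := fun (i : Fin (m + 1)) p => (A p).coeff (i : ℕ)) (fun i => hA i) hm'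
  have hf : AnalyticAt ℂ (fun p => dl l σ p * (A p).coeff m) 0 := (analyticAt_dl l hσ.σ_an).mul (hA m)
  have hσc : Tendsto σ (𝓝 (0 : ℂ × ℂ)) (𝓝 (σ 0)) := hσ.σ_an.continuousAt.tendsto
  have hr1 : ∀ᶠ p in 𝓝 (0 : ℂ × ℂ), ∀ᶠ y in 𝓝 (σ p), y ∈ X → ∃ c : ℂ, c ≠ 0 ∧ y = c • σ (τ y) :=
    hσc.eventually (eventually_eventually_nhds.2 hσ.right)
  have hr2 : ∀ᶠ p in 𝓝 (0 : ℂ × ℂ), ContinuousAt τ (σ p) :=
    hσc.eventually (hσ.τ_an.eventually_analyticAt.mono fun y hy => hy.continuousAt)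
  obtain ⟨r, hr, h⟩ := Metric.eventually_nhds_iff_ball.1 (hσ.σ_an.eventually_analyticAt.and ((eventually_eventually_nhds.2 hσ.σ_mem).and
    ((ResL_span hσ).and ((ResL_indep hσ).and (hf.eventually_analyticAt.and (hD.eventually_analyticAt.and (hA'.and (hE.and (hr1.and
      (hr2.and hσ.left))))))))))
  refine ⟨e, fun p => dl l σ p * (A p).coeff m, D, r, hr, hD0, fun p hp => ?_⟩
  obtain ⟨h1, h2, h3, h4, h5, h6, ⟨h7, h7', h7''⟩, h8, h9, h10, h11⟩ := h p hp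
  have hT : ∀ v, Tan X (σ p) (fderiv ℂ σ p v) := fun v => ResL_tan h1 h2 v
  refine ⟨h5, h6, by simp only [ph, h7''], h2.self_of_nhds, h9, h10, h11, h1.continuousAt, gab_chart hm hT h3 h4, fun hne => ?_⟩
  have hd : dl l σ p ≠ 0 := left_ne_zero_of_mul hne
  have hA0 : (A p).coeff m ≠ 0 := by
    rw [h7'']
    exact right_ne_zero_of_mul hne
  have hNS : NS θ l (σ p) = {t : ℂ | ∑ i : Fin (m + 1), (A p).coeff (i : ℕ) * t ^ (i : ℕ) = 0} := by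
    rw [ns_chart hT h3 hd]
    ext t
    show θ.toFun (σ p) (fderiv ℂ σ p (v₁ l σ p + t • v₂ l σ p)) = 0 ↔ ∑ i : Fin (m + 1), (A p).coeff (i : ℕ) * t ^ (i : ℕ) = 0
    rw [← h7' t, Polynomial.eval_eq_sum_range' (Nat.lt_succ_of_le h7) t, ← Fin.sum_univ_eq_sum_range (fun j => (A p).coeff j * t ^ j)]
  rw [hNS]
  exact h8 (by simpa using hA0)

/-- the points which are not good are given locally by one equation -/
theorem bad_localEq (hX : Surface X) (hm : 1 ≤ m) (θ : WDiff X m) {l : LF N} (hl : X ⊆ closure {x | x ∈ X ∧ GA X l x ∧ GB θ l x})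
    {σ : ℂ × ℂ → EN N} {τ : EN N → ℂ × ℂ} (hσ : IsChart X σ τ) :
    ∃ g : ℂ × ℂ → ℂ, LocalEq {x | x ∈ X ∧ ¬ GoodPt θ l x} σ g ∧ ¬ ∀ᶠ p in 𝓝 (0 : ℂ × ℂ), g p = 0 := by
  -- `ph` is not identically zero
  have hph : ¬ ∀ᶠ p in 𝓝 (0 : ℂ × ℂ), ph θ l σ p = 0 := by
    intro hcon
    have hσX : σ 0 ∈ X := hσ.σ_mem.self_of_nhds
    have hτ0 : τ (σ 0) = 0 := hσ.left.self_of_nhds
    have hτ : Tendsto τ (𝓝 (σ 0)) (𝓝 0) := by
      have h1 := hσ.τ_an.continuousAt.tendsto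
      rwa [hτ0] at h1
    obtain ⟨y, ⟨hyX, g1, g2⟩, ⟨h1, h2, h3, h4, h5⟩, hyr⟩ := ((mem_closure_iff_frequently.1 (hl hσX)).and_eventually
      ((hτ.eventually (hcon.and (hσ.σ_an.eventually_analyticAt.and ((eventually_eventually_nhds.2 hσ.σ_mem).and
        ((ResL_span hσ).and (ResL_indep hσ)))))).and hσ.right)).exists
    obtain ⟨a, ha, hya⟩ := hyr hyX
    have hT : ∀ v, Tan X (σ (τ y)) (fderiv ℂ σ (τ y) v) := fun v => ResL_tan h2 h3 v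
    have e : σ (τ y) = a⁻¹ • y := by
      conv_rhs => rw [hya]
      rw [smul_smul, inv_mul_cancel₀ ha, one_smul]
    refine (gab_chart hm hT h4 h5).1 ?_ h1
    rw [e]
    exact ⟨ga_smul hX.smul g1 (inv_ne_zero ha), gb_smul hX.smul g2 (inv_ne_zero ha)⟩
  obtain ⟨e, f, D, r, hr, hD0, H⟩ := Bad_ball hm θ l hσ hph
  have hb0 : ball (0 : ℂ × ℂ) r ∈ 𝓝 (0 : ℂ × ℂ) := ball_mem_nhds 0 hr
  have h0 : (0 : ℂ × ℂ) ∈ ball (0 : ℂ × ℂ) r := mem_ball_self hr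
  have hDa : AnalyticOnNhd ℂ D (ball 0 r) := fun q hq => (H q hq).2.1
  have hfa : AnalyticOnNhd ℂ f (ball 0 r) := fun q hq => (H q hq).1
  -- `D` is not identically zero near any point of the ball
  have hDf : ∀ p ∈ ball (0 : ℂ × ℂ) r, ∃ᶠ q in 𝓝 p, D q ≠ 0 := by
    intro p hp hcon
    have h3 : ∀ᶠ q in 𝓝 p, D q = 0 := by
      filter_upwards [hcon] with q hq using not_not.1 hq
    have h4 := hDa.eqOn_zero_of_preconnected_of_eventuallyEq_zero (convex_ball (0 : ℂ × ℂ) r).isPreconnected hp h3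
    apply hD0
    filter_upwards [hb0] with q hq using h4 hq
  refine ⟨fun p => f p * D p, ⟨(hfa 0 h0).mul (hDa 0 h0), ?_⟩, ?_⟩
  · filter_upwards [hb0] with p hp
    obtain ⟨k1, k2, k3, k4, k5, k6, k7, k8, k9, k10⟩ := H p hp
    have hbp : ∀ᶠ q in 𝓝 p, q ∈ ball (0 : ℂ × ℂ) r := isOpen_ball.eventually_mem hp
    have hfp : ph θ l σ p ≠ 0 → ∀ᶠ q in 𝓝 p, ph θ l σ q ≠ 0 := by
      intro h
      rw [← k3] at h
      filter_upwards [k1.continuousAt.eventually_ne h, hbp] with q hq hqb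
      rwa [← (H q hqb).2.2.1]
    constructor
    · rintro ⟨-, hbad⟩
      by_contra hg
      have hf0 : ph θ l σ p ≠ 0 := by
        rw [← k3]
        exact left_ne_zero_of_mul hg
      have hD0' : D p ≠ 0 := right_ne_zero_of_mul hg
      apply hbad
      obtain ⟨g1, g2⟩ := k9.2 hf0
      obtain ⟨n1, n2, n3⟩ := k10 hf0
      refine ⟨g1, g2, n1, ?_⟩
      have ht : Tendsto τ (𝓝 (σ p)) (𝓝 p) := by
        have := k6.tendsto
        rwa [k7] at this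
      filter_upwards [ht.eventually (hbp.and ((hfp hf0).and (k2.continuousAt.eventually_ne hD0'))), k5] with y ⟨hy1, hy2, hy3⟩ hy4 hyX
      obtain ⟨a, ha, hya⟩ := hy4 hyX
      rw [hya, ns_smul hX.smul θ l ha, (((H _ hy1).2.2.2.2.2.2.2.2.2 hy2).2.2.1 hy3), n3.1 hD0']
    · intro hg
      refine ⟨k4, ?_⟩
      rintro ⟨g1, g2, g3, g4⟩
      have hf0 : ph θ l σ p ≠ 0 := k9.1 ⟨g1, g2⟩
      have hD0' : D p = 0 := by
        rcases mul_eq_zero.1 hg with h | h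
        · exact absurd (k3 ▸ h) hf0
        · exact h
      obtain ⟨n1, n2, n3⟩ := k10 hf0
      obtain ⟨q, hq1, hq2, hq3, hq4⟩ := ((hDf p hp).and_eventually (hbp.and ((hfp hf0).and (k8.tendsto.eventually g4)))).exists
      have h5 := hq4 (H q hq2).2.2.2.1
      have h6 := (((H q hq2).2.2.2.2.2.2.2.2.2 hq3).2.2.1 hq1)
      exact n3.2 (h5 ▸ h6) hD0'
  · intro hcon
    -- the product of two functions which are not identically zero
    have hff : ∃ᶠ q in 𝓝 (0 : ℂ × ℂ), f q ≠ 0 := by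
      intro h
      apply hph
      filter_upwards [h, hb0] with q hq hqb
      rw [← (H q hqb).2.2.1]
      exact not_not.1 hq
    obtain ⟨q, hq1, hq2, hq3⟩ := (hff.and_eventually ((eventually_eventually_nhds.2 hcon).and hb0)).exists
    obtain ⟨q', hq1', hq2', hq3'⟩ := ((hDf q hq3).and_eventually (hq2.and ((hfa q hq3).continuousAt.eventually_ne hq1))).exists
    exact mul_ne_zero hq3' hq1' hq2'

/-- **The points which are not good lie in an algebraic curve.** -/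
theorem exists_R_good {P : Ideal (MvPolynomial (Fin (N + 1)) ℂ)} [P.IsPrime] {z : Fin 2 → FunField P} (hz : IsTranscendenceBasis ℂ z)
    (hX : Surface (coneE P)) (hm : 1 ≤ m) (θ : WDiff (coneE P) m)
    (hd : coneE P ⊆ closure {x | x ∈ coneE P ∧ ∃ v, Tan (coneE P) x v ∧ θ.toFun x v ≠ 0}) :
    ∃ (l : LF N) (R : MvPolynomial (Fin (N + 1)) ℂ) (d : ℕ), R.IsHomogeneous d ∧ R ∉ P ∧
      ∀ x ∈ coneE P, MvPolynomial.eval x.ofLp R ≠ 0 → GoodPt θ l x := by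
  obtain ⟨l, hl⟩ := exists_frame hX hm θ hd
  obtain ⟨R, d, hR, hRP, hRZ⟩ := Pool.Agent.E1.exists_form_of_analytic hz hX (Z := {x | x ∈ coneE P ∧ ¬ GoodPt θ l x}) (fun x hx => hx.1)
    (fun x hx c hc => ⟨hX.smul x hx.1 c hc, fun h => hx.2 ((goodPt_smul_iff hX.smul hc).1 h)⟩) (fun x hx => by
      obtain ⟨σ, τ, hσ, h0⟩ := hX.chart x hx
      obtain ⟨g, hg1, hg2⟩ := bad_localEq hX hm θ hl hσ
      exact ⟨σ, τ, g, hσ, h0, hg1, hg2⟩)
  refine ⟨l, R, d, hR, hRP, fun x hx hR0 => ?_⟩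
  by_contra hbad
  exact hR0 (hRZ x ⟨hx, hbad⟩)

end Pool.Agent.MQ3

end
end

section

/-!
# MQ3 WBx: from a normal crossings box to the sheets of the web

`ρ` is a parametrization of a surface over the closed unit bidisc, an immersion off the axes, such that the points `ρ p` off the axes are good for
`θ`: the polynomials of the slopes satisfy the hypotheses of `exists_webBox`, and the curves tangent to `θ` satisfy `Crv`.
-/

set_option autoImplicit false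

open Topology Filter Metric

noncomputable section

namespace Pool.Agent.MQ3

open Pool.Agent.H36.BP (EN)
open Pool.Agent.H14.PP (Tan)
open Pool.Agent.H17BP (Surface IsChart)
open Pool.Agent.E1 (ResL_tan)

variable {N : ℕ} {X : Set (EN N)} {m : ℕ}

/-! ### analyticity -/

/-- A symmetric differential in a parametrization is analytic. -/
theorem analyticAt_theta (θ : WDiff X m) {ρ : ℂ × ℂ → EN N} {p : ℂ × ℂ} (hρ : AnalyticAt ℂ ρ p) (hX : ∀ᶠ q in 𝓝 p, ρ q ∈ X)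
    {w : ℂ × ℂ → ℂ × ℂ} (hw : AnalyticAt ℂ w p) : AnalyticAt ℂ (fun q => θ.toFun (ρ q) (fderiv ℂ ρ q (w q))) p := by
  have hl : AnalyticAt ℂ (fun q : ℂ × ℂ => p + q) 0 := analyticAt_const.add analyticAt_id
  have hσ : AnalyticAt ℂ (fun q => ρ (p + q)) 0 := by
    have h1 : AnalyticAt ℂ ρ (p + 0) := by rwa [add_zero]
    exact AnalyticAt.comp (g := ρ) (f := fun q : ℂ × ℂ => p + q) (x := 0) h1 hl
  have ht : Tendsto (fun q : ℂ × ℂ => p + q) (𝓝 0) (𝓝 p) := by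
    have := hl.continuousAt.tendsto
    rwa [add_zero] at this
  have h1 := θ.res_analytic hσ (ht.eventually hX) (w p)
  have h2 : AnalyticAt ℂ (fun q : ℂ × ℂ => (q - p, w q)) p := (analyticAt_id.sub analyticAt_const).prod hw
  have h3 : AnalyticAt ℂ (fun q : (ℂ × ℂ) × (ℂ × ℂ) => θ.toFun (ρ (p + q.1)) (fderiv ℂ (fun q => ρ (p + q)) q.1 q.2)) (p - p, w p) := by
    rw [sub_self]
    exact h1
  have h4 := AnalyticAt.comp (g := fun q : (ℂ × ℂ) × (ℂ × ℂ) => θ.toFun (ρ (p + q.1)) (fderiv ℂ (fun q => ρ (p + q)) q.1 q.2))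
    (f := fun q : ℂ × ℂ => (q - p, w q)) (x := p) h3 h2
  refine h4.congr (Eventually.of_forall fun q => ?_)
  show θ.toFun (ρ (p + (q - p))) (fderiv ℂ (fun q => ρ (p + q)) (q - p) (w q)) = _
  rw [fderiv_comp_add_left, add_sub_cancel]

theorem v₁_shift (l : LF N) (ρ : ℂ × ℂ → EN N) (p q : ℂ × ℂ) : v₁ l (fun q => ρ (p + q)) q = v₁ l ρ (p + q) := by
  simp only [v₁, ca, cb, fderiv_comp_add_left]

theorem v₂_shift (l : LF N) (ρ : ℂ × ℂ → EN N) (p q : ℂ × ℂ) : v₂ l (fun q => ρ (p + q)) q = v₂ l ρ (p + q) := by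
  simp only [v₂, ca, cb, fderiv_comp_add_left]

/-- the polynomial of the slopes of `θ` -/
def sP (θ : WDiff X m) (l : LF N) (ρ : ℂ × ℂ → EN N) (p : ℂ × ℂ) : Polynomial ℂ :=
  Lagrange.interpolate (Finset.range (m + 1)) (fun j : ℕ => (j : ℂ))
    fun j : ℕ => θ.toFun (ρ p) (fderiv ℂ ρ p (v₁ l ρ p + (j : ℂ) • v₂ l ρ p))

/-- the coefficients of the polynomial of the slopes -/
def sA (θ : WDiff X m) (l : LF N) (ρ : ℂ × ℂ → EN N) (k : ℕ) (p : ℂ × ℂ) : ℂ := (sP θ l ρ p).coeff k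

theorem analyticAt_sA (θ : WDiff X m) (l : LF N) {ρ : ℂ × ℂ → EN N} {p : ℂ × ℂ} (hρ : AnalyticAt ℂ ρ p) (hX : ∀ᶠ q in 𝓝 p, ρ q ∈ X) (k : ℕ) :
    AnalyticAt ℂ (sA θ l ρ k) p := by
  have h1 : sA θ l ρ k = fun p => ∑ j ∈ Finset.range (m + 1), θ.toFun (ρ p) (fderiv ℂ ρ p (v₁ l ρ p + ((j : ℕ) : ℂ) • v₂ l ρ p)) *
      (Lagrange.basis (Finset.range (m + 1)) (fun j : ℕ => (j : ℂ)) j).coeff k := by
    funext p
    rw [sA, sP, Lagrange.interpolate_apply, Polynomial.finsetSum_coeff]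
    refine Finset.sum_congr rfl fun j _ => ?_
    rw [Polynomial.coeff_C_mul]
  rw [h1]
  refine Finset.analyticAt_fun_sum _ fun j _ => AnalyticAt.mul ?_ analyticAt_const
  exact analyticAt_theta θ hρ hX ((analyticAt_v₁ l hρ).fun_add (analyticAt_v₂ l hρ).fun_const_smul)

theorem sP_spec (θ : WDiff X m) (l : LF N) {ρ : ℂ × ℂ → EN N} {p : ℂ × ℂ} (hρ : AnalyticAt ℂ ρ p) (hX : ∀ᶠ q in 𝓝 p, ρ q ∈ X) :
    (sP θ l ρ p).natDegree ≤ m ∧ (∀ s, (sP θ l ρ p).eval s = θ.toFun (ρ p) (fderiv ℂ ρ p (v₁ l ρ p + s • v₂ l ρ p))) ∧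
      sA θ l ρ m p = θ.toFun (ρ p) (fderiv ℂ ρ p (v₂ l ρ p)) := by
  have hl : AnalyticAt ℂ (fun q : ℂ × ℂ => p + q) 0 := analyticAt_const.add analyticAt_id
  have hσ : AnalyticAt ℂ (fun q => ρ (p + q)) 0 := by
    have h1 : AnalyticAt ℂ ρ (p + 0) := by rwa [add_zero]
    exact AnalyticAt.comp (g := ρ) (f := fun q : ℂ × ℂ => p + q) (x := 0) h1 hl
  have ht : Tendsto (fun q : ℂ × ℂ => p + q) (𝓝 0) (𝓝 p) := by
    have := hl.continuousAt.tendsto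
    rwa [add_zero] at this
  obtain ⟨A, -, hA⟩ := exists_fam θ l hσ (ht.eventually hX)
  obtain ⟨h1, h2, h3⟩ := hA.self_of_nhds
  rw [v₂_shift, fderiv_comp_add_left, add_zero] at h3
  have h2' : ∀ s, (A 0).eval s = θ.toFun (ρ p) (fderiv ℂ ρ p (v₁ l ρ p + s • v₂ l ρ p)) := by
    intro s
    rw [h2 s, v₁_shift, v₂_shift, fderiv_comp_add_left, add_zero]
  have h4 : A 0 = sP θ l ρ p := by
    refine Lagrange.eq_interpolate_of_eval_eq _ ?_ ?_ ?_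
    · intro i _ j _ hij
      exact Nat.cast_injective hij
    · rw [Finset.card_range]
      exact lt_of_le_of_lt (Polynomial.degree_le_of_natDegree_le h1) (by exact_mod_cast Nat.lt_succ_self m)
    · intro j _
      exact h2' _
  rw [sA, ← h4]
  exact ⟨h1, h2', h3⟩

theorem Pe_sA (θ : WDiff X m) (l : LF N) {ρ : ℂ × ℂ → EN N} {p : ℂ × ℂ} (hρ : AnalyticAt ℂ ρ p) (hX : ∀ᶠ q in 𝓝 p, ρ q ∈ X) (t : ℂ) :
    Pe m (sA θ l ρ) p t = θ.toFun (ρ p) (fderiv ℂ ρ p (v₁ l ρ p + t • v₂ l ρ p)) := by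
  obtain ⟨h1, h2, -⟩ := sP_spec θ l hρ hX
  rw [← h2 t, Polynomial.eval_eq_sum_range' (Nat.lt_succ_of_le h1), Pe]
  rfl

/-! ### the box -/

/-- A parametrization of the surface over the closed unit bidisc, an immersion off the axes. -/
structure NCBox (X : Set (EN N)) (ρ : ℂ × ℂ → EN N) : Prop where
  an : ∀ p : ℂ × ℂ, ‖p.1‖ ≤ 1 → ‖p.2‖ ≤ 1 → AnalyticAt ℂ ρ p
  mem : ∀ p : ℂ × ℂ, ‖p.1‖ ≤ 1 → ‖p.2‖ ≤ 1 → ∀ᶠ q in 𝓝 p, ρ q ∈ X
  indep : ∀ p ∈ DS, ∀ (w : ℂ × ℂ) (a : ℂ), fderiv ℂ ρ p w = a • ρ p → w = 0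

variable {ρ : ℂ × ℂ → EN N}

theorem NCBox.an' (hb : NCBox X ρ) {p : ℂ × ℂ} (hp : p ∈ DS) : AnalyticAt ℂ ρ p := hb.an p hp.1.2.le hp.2.2.le

theorem NCBox.mem' (hb : NCBox X ρ) {p : ℂ × ℂ} (hp : p ∈ DS) : ∀ᶠ q in 𝓝 p, ρ q ∈ X := hb.mem p hp.1.2.le hp.2.2.le

theorem NCBox.span (hb : NCBox X ρ) (hX : Surface X) {p : ℂ × ℂ} (hp : p ∈ DS) (v : EN N) (hv : Tan X (ρ p) v) :
    ∃ (w : ℂ × ℂ) (a : ℂ), v = fderiv ℂ ρ p w + a • ρ p := span_of_indep hX (hb.an' hp) (hb.mem' hp) (hb.indep p hp) hv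

theorem NCBox.dl_ne (hb : NCBox X ρ) (hX : Surface X) {l : LF N} {p : ℂ × ℂ} (hp : p ∈ DS) (hG : GA X l (ρ p)) : dl l ρ p ≠ 0 :=
  (ga_chart (fun v => ResL_tan (hb.an' hp) (hb.mem' hp) v) (hb.span hX hp) (hb.indep p hp)).1 hG

theorem NCBox.lead_ne (hb : NCBox X ρ) (hX : Surface X) (hm : 1 ≤ m) {θ : WDiff X m} {l : LF N} {p : ℂ × ℂ} (hp : p ∈ DS)
    (hG : GA X l (ρ p)) (hG' : GB θ l (ρ p)) : sA θ l ρ m p ≠ 0 := by
  rw [(sP_spec θ l (hb.an' hp) (hb.mem' hp)).2.2]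
  exact (gb_chart hm (fun v => ResL_tan (hb.an' hp) (hb.mem' hp) v) (hb.span hX hp) (hb.indep p hp) (hb.dl_ne hX hp hG)).1 hG'

/-- the roots are the slopes of the null directions -/
theorem NCBox.roots_eq (hb : NCBox X ρ) (hX : Surface X) (hm : 1 ≤ m) (θ : WDiff X m) {l : LF N} {p : ℂ × ℂ} (hp : p ∈ DS)
    (hG : GA X l (ρ p)) : {t | Pe m (sA θ l ρ) p t = 0} = NS θ l (ρ p) := by
  have hd := hb.dl_ne hX hp hG
  have hT : ∀ w, Tan X (ρ p) (fderiv ℂ ρ p w) := fun w => ResL_tan (hb.an' hp) (hb.mem' hp) w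
  ext t
  rw [Set.mem_ofPred_eq, Pe_sA θ l (hb.an' hp) (hb.mem' hp)]
  constructor
  · intro h
    refine ⟨_, hT _, ?_, ?_, h⟩
    · rw [map_add, map_smul, om_add, om_smul, om_v₁_1, om_v₂_1, mul_zero, add_zero]
      exact hd
    · rw [map_add, map_smul, om_add, om_smul, om_add, om_smul, om_v₁_1, om_v₂_1, om_v₁_2, om_v₂_2]
      ring
  · rintro ⟨v, hv, h1, h2, h3⟩
    obtain ⟨w, a, rfl⟩ := hb.span hX hp v hv
    rw [om_add_smul] at h1 h2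
    rw [om_add_smul] at h2
    rw [θ.add_smul _ _ (hT w)] at h3
    have h4 := dl_smul l ρ p w
    rw [h2] at h4
    have h5 : dl l ρ p • w = om l 1 (ρ p) (fderiv ℂ ρ p w) • (v₁ l ρ p + t • v₂ l ρ p) := by
      rw [h4, smul_add, smul_smul, mul_comm t]
    have h6 : θ.toFun (ρ p) (fderiv ℂ ρ p (dl l ρ p • w)) = 0 := by
      rw [map_smul, θ.smul _ _ (hT w), h3, mul_zero]
    rw [h5, map_smul, θ.smul _ _ (hT _)] at h6
    exact (mul_eq_zero.1 h6).resolve_left (pow_ne_zero _ h1)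

theorem isPreconnected_DS : IsPreconnected DS := by
  have h : DS = pexp '' HH := by
    ext p
    constructor
    · intro hp
      obtain ⟨q, hq, h⟩ := exists_pexp hp
      exact ⟨q, hq, h⟩
    · rintro ⟨q, hq, rfl⟩
      exact pexp_mem hq
  rw [h]
  refine convex_HH.isPreconnected.image _ ?_
  unfold pexp
  fun_prop

/-- the number of the null directions is constant off the axes -/
theorem NCBox.ncard_const (hb : NCBox X ρ) {θ : WDiff X m} {l : LF N} (hG : ∀ p ∈ DS, GoodPt θ l (ρ p)) :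
    ∃ e : ℕ, ∀ p ∈ DS, (NS θ l (ρ p)).ncard = e := by
  obtain ⟨p₀, hp₀⟩ : DS.Nonempty := ⟨_, pexp_mem HH_mem⟩
  refine ⟨(NS θ l (ρ p₀)).ncard, fun p hp => ?_⟩
  refine isPreconnected_DS.constant (f := fun p => (NS θ l (ρ p)).ncard) ?_ hp hp₀
  intro q hq
  have h1 := (hG q hq).2.2.2
  have h2 : ∀ᶠ q' in 𝓝 q, (NS θ l (ρ q')).ncard = (NS θ l (ρ q)).ncard := by
    filter_upwards [(hb.an' hq).continuousAt.eventually h1, hb.mem' hq] with q' h3 h4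
    exact h3 h4
  exact (tendsto_nhds_of_eventually_eq h2).mono_left nhdsWithin_le_nhds

theorem NCBox.bound (hb : NCBox X ρ) (θ : WDiff X m) (l : LF N) : ∃ C : ℝ, ∀ i ≤ m, ∀ p ∈ DS, ‖sA θ l ρ i p‖ ≤ C := by
  have hc : ContinuousOn (fun p => fun i : Fin (m + 1) => sA θ l ρ i p) (closedBall (0 : ℂ × ℂ) 1) := by
    intro p hp
    rw [mem_closedBall_zero_iff] at hp
    have h1 : ‖p.1‖ ≤ 1 := (norm_fst_le p).trans hp
    have h2 : ‖p.2‖ ≤ 1 := (norm_snd_le p).trans hp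
    refine ContinuousAt.continuousWithinAt (continuousAt_pi.2 fun i => ?_)
    exact (analyticAt_sA θ l (hb.an p h1 h2) (hb.mem p h1 h2) i).continuousAt
  obtain ⟨C, hC⟩ := (isCompact_closedBall (0 : ℂ × ℂ) 1).exists_bound_of_continuousOn hc
  refine ⟨C, fun i hi p hp => ?_⟩
  have h1 : p ∈ closedBall (0 : ℂ × ℂ) 1 := by
    rw [mem_closedBall_zero_iff]
    exact max_le hp.1.2.le hp.2.2.le
  exact (norm_le_pi_norm (fun i : Fin (m + 1) => sA θ l ρ i p) ⟨i, Nat.lt_succ_of_le hi⟩).trans (hC p h1)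

/-- **The sheets of the web over a normal crossings box.** -/
theorem NCBox.exists_sheets (hb : NCBox X ρ) (hX : Surface X) (hm : 1 ≤ m) {θ : WDiff X m} {l : LF N} (hG : ∀ p ∈ DS, GoodPt θ l (ρ p)) :
    ∃ (e : ℕ) (T : Fin e → ℂ × ℂ → ℂ) (a b : Equiv.Perm (Fin e)) (μ : Fin e → ℕ), (∀ p ∈ DS, (NS θ l (ρ p)).ncard = e) ∧ WebBox e T a b ∧
      (∀ k, 1 ≤ μ k) ∧ (∀ k, μ (a k) = μ k) ∧ (∀ k, μ (b k) = μ k) ∧
      (∀ v ∈ HH, ∀ t, Pe m (sA θ l ρ) (pexp v) t = sA θ l ρ m (pexp v) * ∏ k, (t - T k v) ^ μ k) ∧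
      (∀ v ∈ HH, ∀ t, t ∈ NS θ l (ρ (pexp v)) ↔ ∃ k, T k v = t) ∧ ∃ C' : ℝ, ∀ k, ∀ v ∈ HH, ‖sA θ l ρ m (pexp v) * T k v‖ ≤ C' := by
  obtain ⟨e, he⟩ := hb.ncard_const hG
  obtain ⟨C, hC⟩ := hb.bound θ l
  obtain ⟨T, a, b, μ, h1, h2, h3, h4, h5, h6, h7⟩ := exists_webBox (m := m) (e := e) (A := sA θ l ρ)
    (fun i _ p hp => analyticAt_sA θ l (hb.an' hp) (hb.mem' hp) i) hC (fun p hp => hb.lead_ne hX hm hp (hG p hp).1 (hG p hp).2.1)
    (fun p hp => by rw [hb.roots_eq hX hm θ hp (hG p hp).1, he p hp])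
  refine ⟨e, T, a, b, μ, he, h1, h2, h3, h4, h5, fun v hv t => ?_, h7⟩
  rw [← h6 v hv t, ← hb.roots_eq hX hm θ (pexp_mem hv) (hG _ (pexp_mem hv)).1]
  rfl

end Pool.Agent.MQ3

end
end

section

/-!
# MQ3 WBxC: the curves tangent to `θ` in a normal crossings box

`F z = c • ρ (P z)`; the slope `slp l F` is the value of `om l 2 / om l 1` on `(F, F')`, extended to the isolated points with `P' = 0`.
-/

set_option autoImplicit false

open Topology Filter Metric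

noncomputable section

namespace Pool.Agent.MQ3

open Pool.Agent.H36.BP (EN)
open Pool.Agent.H14.PP (Tan)
open Pool.Agent.H17BP (Surface IsChart)
open Pool.Agent.E1 (ResL_tan)

variable {N : ℕ} {X : Set (EN N)} {m : ℕ} {ρ : ℂ × ℂ → EN N} {F : ℂ → EN N} {P : ℂ → ℂ × ℂ} {z : ℂ}

/-- the derivative of a curve on the cone in a parametrization -/
theorem curve_deriv (hF : AnalyticAt ℂ F z) (hP : AnalyticAt ℂ P z) (hρ : AnalyticAt ℂ ρ (P z)) (h0 : ρ (P z) ≠ 0)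
    (hFP : ∀ᶠ w in 𝓝 z, ∃ c : ℂ, c ≠ 0 ∧ F w = c • ρ (P w)) :
    ∃ c a : ℂ, c ≠ 0 ∧ F z = c • ρ (P z) ∧ deriv F z = c • fderiv ℂ ρ (P z) (deriv P z) + a • ρ (P z) := by
  obtain ⟨f, hf⟩ : ∃ f : EN N →L[ℂ] ℂ, f (ρ (P z)) ≠ 0 := SeparatingDual.exists_ne_zero h0
  have hρP : AnalyticAt ℂ (fun w => ρ (P w)) z := AnalyticAt.comp (g := ρ) (f := P) hρ hP
  have hfa : AnalyticAt ℂ (fun w => f (ρ (P w))) z := (f.analyticAt _).comp hρP
  have hfF : AnalyticAt ℂ (fun w => f (F w)) z := (f.analyticAt _).comp hF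
  set c : ℂ → ℂ := fun w => f (F w) / f (ρ (P w)) with hcd
  have hc : AnalyticAt ℂ c z := hfF.fun_div hfa hf
  have hne : ∀ᶠ w in 𝓝 z, f (ρ (P w)) ≠ 0 := hfa.continuousAt.eventually_ne hf
  have hcw : ∀ w, f (ρ (P w)) ≠ 0 → ∀ c' : ℂ, F w = c' • ρ (P w) → c w = c' := by
    intro w h3 c' h2
    show f (F w) / f (ρ (P w)) = c'
    rw [h2, map_smul, smul_eq_mul, mul_div_assoc, div_self h3, mul_one]
  have hev : ∀ᶠ w in 𝓝 z, F w = c w • ρ (P w) := by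
    filter_upwards [hFP, hne] with w ⟨c', h1, h2⟩ h3
    rw [hcw w h3 c' h2, h2]
  have h1 : HasDerivAt F (c z • fderiv ℂ ρ (P z) (deriv P z) + deriv c z • ρ (P z)) z := by
    have h2 : HasDerivAt (fun w => ρ (P w)) (fderiv ℂ ρ (P z) (deriv P z)) z :=
      hρ.differentiableAt.hasFDerivAt.comp_hasDerivAt z hP.differentiableAt.hasDerivAt
    exact (hc.differentiableAt.hasDerivAt.fun_smul h2).congr_of_eventuallyEq hev
  obtain ⟨c', hc', h3⟩ := hFP.self_of_nhds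
  have h4 := hcw z hf c' h3
  refine ⟨c', deriv c z, hc', h3, ?_⟩
  rw [h1.deriv, h4]

/-- `om l 2 / om l 1` on the curve -/
def gm (l : LF N) (F : ℂ → EN N) (z : ℂ) : ℂ := om l 2 (F z) (deriv F z) / om l 1 (F z) (deriv F z)

theorem meromorphicAt_gm (l : LF N) (hF : AnalyticAt ℂ F z) : MeromorphicAt (gm l F) z := by
  have h1 : ∀ i, AnalyticAt ℂ (fun w => om l i (F w) (deriv F w)) z := by
    intro i
    have h2 : ∀ j, AnalyticAt ℂ (fun q => l j (F q)) z := fun j => ((l j).analyticAt _).comp hF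
    have h3 : ∀ j, AnalyticAt ℂ (fun q => l j (deriv F q)) z := fun j => ((l j).analyticAt _).comp hF.deriv
    exact ((h2 0).mul (h3 i)).sub ((h2 i).mul (h3 0))
  exact (h1 2).meromorphicAt.fun_div (h1 1).meromorphicAt

theorem analyticAt_gm (l : LF N) (hF : AnalyticAt ℂ F z) (h : om l 1 (F z) (deriv F z) ≠ 0) : AnalyticAt ℂ (gm l F) z := by
  have h1 : ∀ i, AnalyticAt ℂ (fun w => om l i (F w) (deriv F w)) z := by
    intro i
    have h2 : ∀ j, AnalyticAt ℂ (fun q => l j (F q)) z := fun j => ((l j).analyticAt _).comp hF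
    have h3 : ∀ j, AnalyticAt ℂ (fun q => l j (deriv F q)) z := fun j => ((l j).analyticAt _).comp hF.deriv
    exact ((h2 0).mul (h3 i)).sub ((h2 i).mul (h3 0))
  exact (h1 2).fun_div (h1 1) h

theorem NCBox.slope (hb : NCBox X ρ) (hX : Surface X) {θ : WDiff X m} {l : LF N} (hF : AnalyticAt ℂ F z)
    (hP : AnalyticAt ℂ P z) (hFP : ∀ᶠ w in 𝓝 z, ∃ c : ℂ, c ≠ 0 ∧ F w = c • ρ (P w)) (hz : P z ∈ DS) (hGA : GA X l (ρ (P z))) (hGB : GB θ l (ρ (P z)))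
    (ht : θ.toFun (F z) (deriv F z) = 0) :
    (om l 1 (F z) (deriv F z) = 0 ↔ deriv P z = 0) ∧ (deriv P z ≠ 0 → gm l F z ∈ NS θ l (ρ (P z))) ∧
      ∃ a : ℂ, deriv P z = a • (v₁ l ρ (P z) + gm l F z • v₂ l ρ (P z)) ∧ (a = 0 ↔ deriv P z = 0) := by
  have hρ := hb.an' hz
  have hmem := hb.mem' hz
  have h0 : ρ (P z) ≠ 0 := fun h => hX.zero (h ▸ hmem.self_of_nhds)
  obtain ⟨c, a, hc, h1, h2⟩ := curve_deriv hF hP hρ h0 hFP
  have hT := ResL_tan hρ hmem (deriv P z)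
  have h3 : deriv F z = c • fderiv ℂ ρ (P z) (deriv P z) + (a / c) • (c • ρ (P z)) := by
    rw [h2, smul_smul, div_mul_cancel₀ _ hc]
  have hom : ∀ i, om l i (F z) (deriv F z) = c ^ 2 * om l i (ρ (P z)) (fderiv ℂ ρ (P z) (deriv P z)) := by
    intro i
    rw [h3, h1, om_add_smul, om_smul_smul]
  have hc2 : c ^ 2 ≠ 0 := pow_ne_zero 2 hc
  have hθ : θ.toFun (ρ (P z)) (fderiv ℂ ρ (P z) (deriv P z)) = 0 := by
    rw [h3, h1, θ.add_smul _ _ (tan_smul hX.smul hT hc), θ.scale_eq_zero hT hc] at ht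
    exact ht
  have hd := hb.dl_ne hX hz hGA
  have h4 : om l 1 (ρ (P z)) (fderiv ℂ ρ (P z) (deriv P z)) = 0 ↔ deriv P z = 0 := by
    constructor
    · intro h5
      obtain ⟨a', ha'⟩ := hGB _ hT h5 hθ
      exact hb.indep _ hz _ a' ha'
    · intro h5
      rw [h5, map_zero]
      simp [om]
  have h5 : om l 1 (F z) (deriv F z) = 0 ↔ deriv P z = 0 := by
    rw [hom, mul_eq_zero, or_iff_right hc2, h4]
  have h6 : ∀ h : deriv P z ≠ 0, om l 2 (ρ (P z)) (fderiv ℂ ρ (P z) (deriv P z)) = gm l F z * om l 1 (ρ (P z)) (fderiv ℂ ρ (P z) (deriv P z)) := by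
    intro h
    have h7 : om l 1 (ρ (P z)) (fderiv ℂ ρ (P z) (deriv P z)) ≠ 0 := fun h8 => h (h4.1 h8)
    rw [gm, hom, hom, mul_div_mul_left _ _ hc2, div_mul_cancel₀ _ h7]
  refine ⟨h5, fun h => ⟨_, hT, fun h8 => h (h4.1 h8), h6 h, hθ⟩, ?_⟩
  by_cases h : deriv P z = 0
  · exact ⟨0, by rw [h, zero_smul], by simp [h]⟩
  · have h7 : om l 1 (ρ (P z)) (fderiv ℂ ρ (P z) (deriv P z)) ≠ 0 := fun h8 => h (h4.1 h8)
    refine ⟨(dl l ρ (P z))⁻¹ * om l 1 (ρ (P z)) (fderiv ℂ ρ (P z) (deriv P z)), ?_, ?_⟩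
    · have h8 := dl_smul l ρ (P z) (deriv P z)
      rw [h6 h] at h8
      rw [← smul_smul, smul_add, smul_smul _ (gm l F z), mul_comm _ (gm l F z), ← h8, smul_smul, inv_mul_cancel₀ hd, one_smul]
    · constructor
      · intro h8
        exact absurd h8 (mul_ne_zero (inv_ne_zero hd) h7)
      · intro h8
        exact absurd h8 h

/-- the slope of the curve -/
def slp (l : LF N) (F : ℂ → EN N) (z : ℂ) : ℂ := limUnder (𝓝[≠] z) (gm l F)

theorem slp_eq {g : ℂ → ℂ} {l : LF N} (hg : AnalyticAt ℂ g z) (h : gm l F =ᶠ[𝓝[≠] z] g) : slp l F =ᶠ[𝓝 z] g := by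
  have h1 : ∀ᶠ w in 𝓝 z, w ≠ z → gm l F w = g w := eventually_nhdsWithin_iff.1 h
  filter_upwards [eventually_eventually_nhds.2 h1, hg.eventually_analyticAt] with w hw hgw
  have h2 : ∀ᶠ u in 𝓝[≠] w, gm l F u = g u := by
    rcases eq_or_ne w z with rfl | hwz
    · exact h
    · filter_upwards [hw.filter_mono nhdsWithin_le_nhds, (eventually_ne_nhds hwz).filter_mono nhdsWithin_le_nhds] with u hu hu'
      exact hu hu'
  have h3 : Tendsto g (𝓝[≠] w) (𝓝 (g w)) := hgw.continuousAt.tendsto.mono_left nhdsWithin_le_nhds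
  exact (h3.congr' (h2.mono fun _ h => h.symm)).limUnder_eq

theorem slp_eq_gm {l : LF N} (hF : AnalyticAt ℂ F z) (h : om l 1 (F z) (deriv F z) ≠ 0) : slp l F z = gm l F z :=
  (slp_eq (analyticAt_gm l hF h) EventuallyEq.rfl).self_of_nhds

/-- a branch of the logarithm of an analytic function -/
theorem exists_log_branch {x : ℂ → ℂ} (hx : AnalyticAt ℂ x z) (h0 : x z ≠ 0) {ξ : ℂ} (hξ : Complex.exp ξ = x z) :
    ∃ Ξ : ℂ → ℂ, AnalyticAt ℂ Ξ z ∧ Ξ z = ξ ∧ ∀ᶠ w in 𝓝 z, Complex.exp (Ξ w) = x w := by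
  have h1 : x z / x z = 1 := div_self h0
  refine ⟨fun w => ξ + Complex.log (x w / x z), ?_, ?_, ?_⟩
  · refine analyticAt_const.add (AnalyticAt.clog (hx.fun_div analyticAt_const h0) ?_)
    rw [h1]
    exact Complex.one_mem_slitPlane
  · show ξ + Complex.log (x z / x z) = ξ
    rw [h1, Complex.log_one, add_zero]
  · filter_upwards [hx.continuousAt.eventually_ne h0] with w hw
    rw [Complex.exp_add, Complex.exp_log (div_ne_zero hw h0), hξ, mul_div_cancel₀ _ h0]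

/-- **The slope is one of the sheets.** -/
theorem NCBox.slope_sheet (hb : NCBox X ρ) (hX : Surface X) {θ : WDiff X m} {l : LF N} (hG : ∀ p ∈ DS, GoodPt θ l (ρ p)) {e : ℕ}
    {T : Fin e → ℂ × ℂ → ℂ} (hTa : ∀ k, ∀ v ∈ HH, AnalyticAt ℂ (T k) v) (hT : ∀ v ∈ HH, ∀ t, t ∈ NS θ l (ρ (pexp v)) → ∃ k, T k v = t)
    (hF : AnalyticAt ℂ F z) (hP : AnalyticAt ℂ P z) (hFP : ∀ᶠ w in 𝓝 z, ∃ c : ℂ, c ≠ 0 ∧ F w = c • ρ (P w)) (hz : P z ∈ DS)
    (ht : ∀ᶠ w in 𝓝 z, θ.toFun (F w) (deriv F w) = 0) (hnc : ∀ᶠ w in 𝓝[≠] z, deriv P w ≠ 0) {ξ η : ℂ} (hξ : Complex.exp ξ = (P z).1)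
    (hη : Complex.exp η = (P z).2) : AnalyticAt ℂ (slp l F) z ∧ ∃ k, slp l F z = T k (ξ, η) := by
  obtain ⟨Ξ, h1, h2, h3⟩ := exists_log_branch (analyticAt_fst.fun_comp hP) hz.1.1 hξ
  obtain ⟨H, h4, h5, h6⟩ := exists_log_branch (analyticAt_snd.fun_comp hP) hz.2.1 hη
  have hv : ((ξ, η) : ℂ × ℂ) ∈ HH := by
    refine ⟨?_, ?_⟩
    · have := hz.1.2
      rw [← hξ, Complex.norm_exp, Real.exp_lt_one_iff] at this
      exact this
    · have := hz.2.2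
      rw [← hη, Complex.norm_exp, Real.exp_lt_one_iff] at this
      exact this
  have hvz : ((Ξ z, H z) : ℂ × ℂ) = (ξ, η) := by rw [h2, h5]
  have hΞH : AnalyticAt ℂ (fun w => (Ξ w, H w)) z := h1.prod h4
  have hHH : ∀ᶠ w in 𝓝 z, ((Ξ w, H w) : ℂ × ℂ) ∈ HH := by
    refine hΞH.continuousAt.eventually_mem ?_
    rw [hvz]
    exact isOpen_HH.mem_nhds hv
  have hDS : ∀ᶠ w in 𝓝 z, P w ∈ DS := hP.continuousAt.eventually_mem (isOpen_DS.mem_nhds hz)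
  have hTg : ∀ k, AnalyticAt ℂ (fun w => T k (Ξ w, H w)) z := fun k =>
    AnalyticAt.comp (g := T k) (f := fun w => (Ξ w, H w)) (by rw [hvz]; exact hTa k _ hv) hΞH
  have hex : ∀ᶠ w in 𝓝[≠] z, ∃ k, gm l F w = T k (Ξ w, H w) := by
    filter_upwards [hnc, (eventually_eventually_nhds.2 hFP).filter_mono nhdsWithin_le_nhds, ht.filter_mono nhdsWithin_le_nhds,
      hHH.filter_mono nhdsWithin_le_nhds, hDS.filter_mono nhdsWithin_le_nhds, h3.filter_mono nhdsWithin_le_nhds,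
      h6.filter_mono nhdsWithin_le_nhds, hF.eventually_analyticAt.filter_mono nhdsWithin_le_nhds,
      hP.eventually_analyticAt.filter_mono nhdsWithin_le_nhds] with w w1 w2 w3 w4 w5 w6 w7 w8 w9
    have h7 := (hb.slope hX w8 w9 w2 w5 (hG _ w5).1 (hG _ w5).2.1 w3).2.1 w1
    have h8 : pexp (Ξ w, H w) = P w := by
      ext
      · exact w6
      · exact w7
    rw [← h8] at h7
    obtain ⟨k, hk⟩ := hT _ w4 _ h7
    exact ⟨k, hk.symm⟩
  obtain ⟨k, hk⟩ : ∃ k, ∃ᶠ w in 𝓝[≠] z, gm l F w = T k (Ξ w, H w) := by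
    by_contra hcon
    push Not at hcon
    have h7 : ∀ᶠ w in 𝓝[≠] z, ∀ k, ¬ gm l F w = T k (Ξ w, H w) := eventually_all.2 fun k => hcon k
    obtain ⟨w, ⟨k, hw⟩, hw'⟩ := (hex.and h7).exists
    exact hw' k hw
  have hk' := ((meromorphicAt_gm l hF).frequently_eq_iff_eventuallyEq (hTg k).meromorphicAt).1 hk
  have h7 := slp_eq (hTg k) hk'
  refine ⟨(hTg k).congr h7.symm, k, ?_⟩
  have h8 : slp l F z = T k (Ξ z, H z) := h7.self_of_nhds
  rw [h8, hvz]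

/-- **The curves tangent to `θ` in a normal crossings box.** -/
theorem NCBox.crv (hb : NCBox X ρ) (hX : Surface X) {θ : WDiff X m} {l : LF N} (hG : ∀ p ∈ DS, GoodPt θ l (ρ p)) {e : ℕ}
    {T : Fin e → ℂ × ℂ → ℂ} (hTa : ∀ k, ∀ v ∈ HH, AnalyticAt ℂ (T k) v) (hT : ∀ v ∈ HH, ∀ t, t ∈ NS θ l (ρ (pexp v)) → ∃ k, T k v = t)
    {U : Set ℂ} (hU : IsOpen U) (hF : ∀ z ∈ U, AnalyticAt ℂ F z) (hP : ∀ z ∈ U, AnalyticAt ℂ P z) (hPD : ∀ z ∈ U, P z ∈ DD)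
    (hne : ∀ z ∈ U, ∀ᶠ w in 𝓝[≠] z, (P w).1 ≠ 0 ∧ (P w).2 ≠ 0) (hFP : ∀ z ∈ U, ∃ c : ℂ, c ≠ 0 ∧ F z = c • ρ (P z))
    (ht : ∀ z ∈ U, θ.toFun (F z) (deriv F z) = 0) (hnc : ∀ z ∈ U, ∀ᶠ w in 𝓝[≠] z, deriv P w ≠ 0) :
    Crv T U (fun z => (P z).1) (fun z => (P z).2) (slp l F) ∧
      (∀ z ∈ U, P z ∈ DS → deriv P z ≠ 0 → om l 1 (F z) (deriv F z) ≠ 0 ∧ slp l F z = gm l F z) ∧
      ∀ z ∈ U, P z ∈ DS → ∃ a : ℂ, deriv P z = a • (v₁ l ρ (P z) + slp l F z • v₂ l ρ (P z)) ∧ (a = 0 ↔ deriv P z = 0) := by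
  have hFP' : ∀ z ∈ U, ∀ᶠ w in 𝓝 z, ∃ c : ℂ, c ≠ 0 ∧ F w = c • ρ (P w) := fun z hz => by
    filter_upwards [hU.mem_nhds hz] with w hw using hFP w hw
  have ht' : ∀ z ∈ U, ∀ᶠ w in 𝓝 z, θ.toFun (F w) (deriv F w) = 0 := fun z hz => by
    filter_upwards [hU.mem_nhds hz] with w hw using ht w hw
  have hds : ∀ z ∈ U, (P z).1 ≠ 0 → (P z).2 ≠ 0 → P z ∈ DS := fun z hz h1 h2 => ⟨⟨h1, (hPD z hz).1⟩, h2, (hPD z hz).2⟩
  have hsl : ∀ z ∈ U, P z ∈ DS → deriv P z ≠ 0 → om l 1 (F z) (deriv F z) ≠ 0 ∧ slp l F z = gm l F z := by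
    intro z hz hzD hz'
    obtain ⟨h1, -, -⟩ := hb.slope hX (hF z hz) (hP z hz) (hFP' z hz) hzD (hG _ hzD).1 (hG _ hzD).2.1 (ht z hz)
    have h2 : om l 1 (F z) (deriv F z) ≠ 0 := fun h => hz' (h1.1 h)
    exact ⟨h2, slp_eq_gm (hF z hz) h2⟩
  refine ⟨⟨hU, fun z hz => analyticAt_fst.fun_comp (hP z hz), fun z hz => analyticAt_snd.fun_comp (hP z hz), fun z hz => (hPD z hz).1,
    fun z hz => (hPD z hz).2, hne, fun z hz h1 h2 => ?_, fun z hz h1 h2 ξ η hξ hη => ?_⟩, hsl, fun z hz hzD => ?_⟩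
  · exact (hb.slope_sheet hX hG hTa hT (hF z hz) (hP z hz) (hFP' z hz) (hds z hz h1 h2) (ht' z hz) (hnc z hz) (Complex.exp_log h1) (Complex.exp_log h2)).1
  · exact (hb.slope_sheet hX hG hTa hT (hF z hz) (hP z hz) (hFP' z hz) (hds z hz h1 h2) (ht' z hz) (hnc z hz) hξ hη).2
  · obtain ⟨h1, -, a, h2, h3⟩ := hb.slope hX (hF z hz) (hP z hz) (hFP' z hz) hzD (hG _ hzD).1 (hG _ hzD).2.1 (ht z hz)
    by_cases h : deriv P z = 0
    · exact ⟨0, by rw [h, zero_smul], by simp [h]⟩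
    · exact ⟨a, by rw [(hsl z hz hzD h).2]; exact h2, h3⟩

end Pool.Agent.MQ3

end
end

section

/-!
# MQ3 Defs: webs over one box, the normal crossings model

`P` is the ideal of a smooth projective surface, `coneE P` its cone, `θ` a symmetric differential of degree `m` (possibly not reduced), `l : LF M` three linear
forms; the slope of a tangent vector `v` at `x` is `om l 2 x v / om l 1 x v`.
`BoxWeb θ l ρ`: the sheets of the web over the parametrization `ρ` of the bidisc; `MChart W`: a monomial chart `mono w w' : Dm w w' → DD` with the vector field `X`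
of the foliation of a sheet; `BCrv θ l ρ F U p`: the curve `F` is `ρ ∘ p` on `U`.
-/

set_option autoImplicit false

open Topology Filter Metric MvPolynomial MeasureTheory

noncomputable section

namespace Pool.Agent.MQ3

open Pool.Agent.H36.BP (EN fs)
open Pool.Agent.H14.PP (Tan)
open Pool.Agent.H17BP (Surface)
open Pool.Agent.H17EF (projVar coneE)
open Pool.Agent.H30M (tau)
open Pool.Agent.MQ (lam En)

variable {M : ℕ} {X : Set (EN M)} {m : ℕ} {θ : WDiff X m} {l : LF M} {ρ : ℂ × ℂ → EN M}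

/-! ## the web over one box -/

/-- the sheets of the web over the parametrization `ρ`: the slopes `T k` over the product of two half planes; `sA θ l ρ m` is the leading coefficient -/
structure BoxWeb (θ : WDiff X m) (l : LF M) (ρ : ℂ × ℂ → EN M) where
  surf : Surface X
  hm : 1 ≤ m
  box : NCBox X ρ
  good : ∀ p ∈ DS, GoodPt θ l (ρ p)
  e : ℕ
  T : Fin e → ℂ × ℂ → ℂ
  a : Equiv.Perm (Fin e)
  b : Equiv.Perm (Fin e)
  web : WebBox e T a b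
  ns : ∀ v ∈ HH, ∀ t, t ∈ NS θ l (ρ (pexp v)) ↔ ∃ k, T k v = t
  bdd : ∃ C : ℝ, ∀ k, ∀ v ∈ HH, ‖sA θ l ρ m (pexp v) * T k v‖ ≤ C

/-- A monomial chart: the sheet `k`, the basis `w, w'` of its stabilizer, the vector field `v` with isolated zeros which defines the foliation of the sheet. -/
structure MChart (W : BoxWeb θ l ρ) where
  k : Fin W.e
  w : ℕ × ℕ
  w' : ℕ × ℕ
  basis : Basis W.a W.b k w w'
  pos : 0 < dt w w'
  i : ℕ
  j : ℕ
  v : ℂ × ℂ → ℂ × ℂ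
  v_an : ∀ q ∈ Dm w w', AnalyticAt ℂ v q
  v_iso : ∀ q ∈ Dm w w', ∀ᶠ q' in 𝓝 q, q' ≠ q → v q' ≠ 0
  v_eq : ∀ P, ln w w' P ∈ HH → ∀ u : ℂ × ℂ,
    sA θ l ρ m (pexp (ln w w' P)) * ((v₁ l ρ (pexp (ln w w' P)) + W.T k (ln w w' P) • v₂ l ρ (pexp (ln w w' P))).1 *
      (fderiv ℂ (mono w w') (pexp P) u).2 -
      (v₁ l ρ (pexp (ln w w' P)) + W.T k (ln w w' P) • v₂ l ρ (pexp (ln w w' P))).2 * (fderiv ℂ (mono w w') (pexp P) u).1) =
    (pexp P).1 ^ i * (pexp P).2 ^ j * ((v (pexp P)).1 * u.2 - (v (pexp P)).2 * u.1)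

/-- the curve in the box -/
structure BCrv (θ : WDiff X m) (l : LF M) (ρ : ℂ × ℂ → EN M) (F : ℂ → EN M) (U : Set ℂ) (p : ℂ → ℂ × ℂ) : Prop where
  isOpen : IsOpen U
  F_an : ∀ z, AnalyticAt ℂ F z
  tan : ∀ z ∈ U, θ.toFun (F z) (deriv F z) = 0
  p_an : ∀ z ∈ U, AnalyticAt ℂ p z
  mem : ∀ z ∈ U, p z ∈ DD
  ne : ∀ z ∈ U, ∀ᶠ w in 𝓝[≠] z, (p w).1 ≠ 0 ∧ (p w).2 ≠ 0
  nc : ∀ z ∈ U, ∀ᶠ w in 𝓝[≠] z, deriv p w ≠ 0
  eq : ∀ z ∈ U, ∃ c : ℂ, c ≠ 0 ∧ F z = c • ρ (p z)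

section

variable {W : BoxWeb θ l ρ}

/-- the map to the box -/
def MChart.κ (c : MChart W) (q : ℂ × ℂ) : ℂ × ℂ := mono c.w c.w' q

/-- the domain -/
def MChart.D (c : MChart W) : Set (ℂ × ℂ) := Dm c.w c.w'

/-- the part of the plane where the curve lifts to the chart -/
def MChart.Om (c : MChart W) (F : ℂ → EN M) (U : Set ℂ) (p : ℂ → ℂ × ℂ) : Set ℂ :=
  MQ3.Om W.T c.k c.w c.w' U (fun z => (p z).1) (fun z => (p z).2) (slp l F)

/-- the lift -/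
def MChart.lf (c : MChart W) (F : ℂ → EN M) (U : Set ℂ) (p : ℂ → ℂ × ℂ) (z : ℂ) : ℂ × ℂ :=
  (MQ3.sl W.T c.k c.w c.w' U (fun z => (p z).1) (fun z => (p z).2) (slp l F) z,
    MQ3.tl W.T c.k c.w c.w' U (fun z => (p z).1) (fun z => (p z).2) (slp l F) z)

end

/-- The monomial charts over a box: representatives of the orbits of the sheets, fans of bases. -/
structure WebOver (W : BoxWeb θ l ρ) where
  ι : Type
  [fin : Fintype ι]
  c : ι → MChart W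
  /-- two charts belong to the same sheet or to sheets of different orbits -/
  orb : ∀ i j, (c i).k = (c j).k ∨ ∀ r s : ℤ, (W.a ^ r * W.b ^ s) (c i).k ≠ (c j).k
  /-- charts of the same sheet: the same cone, or one after the other -/
  fan : ∀ i j, i ≠ j → (c i).k = (c j).k → 0 ≤ dt (c i).w' (c j).w ∨ 0 ≤ dt (c j).w' (c i).w
  cover : ∀ (F : ℂ → EN M) (U : Set ℂ) (p : ℂ → ℂ × ℂ), BCrv θ l ρ F U p → ∀ z ∈ U, ∃ i, z ∈ (c i).Om F U p ∧
    ‖((c i).lf F U p z).1‖ ≤ 1 ∧ ‖((c i).lf F U p z).2‖ ≤ 1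

attribute [instance] WebOver.fin

/-! ## the model of the surface on which `{RD = 0}` has normal crossings -/

/-- Finitely many parametrizations `ρ i` of the surface by the bidisc, which are immersive off the axes; `B i` is the part of the bidisc which is used, `C i` a
compact subset; `rel i p j q`: the two points are the same point of the blown-up surface. -/
structure NCModel (P : Ideal (MvPolynomial (Fin (M + 1)) ℂ)) (RD : MvPolynomial (Fin (M + 1)) ℂ) where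
  ι : Type
  [fin : Fintype ι]
  ρ : ι → ℂ × ℂ → EN M
  B : ι → Set (ℂ × ℂ)
  C : ι → Set (ℂ × ℂ)
  rel : ι → ℂ × ℂ → ι → ℂ × ℂ → Prop
  box : ∀ i, NCBox (coneE P) (ρ i)
  good : ∀ i, ∀ p ∈ DS, eval (ρ i p).ofLp RD ≠ 0
  isOpen : ∀ i, IsOpen (B i)
  sub : ∀ i, B i ⊆ DD
  compact : ∀ i, IsCompact (C i)
  C_sub : ∀ i, C i ⊆ B i
  /-- in `B i` both axes belong to the divisor -/
  div : ∀ i, ∀ p ∈ B i, eval (ρ i p).ofLp RD = 0 ↔ p.1 * p.2 = 0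
  /-- a crossing point is used in only one box, and this box is the whole bidisc -/
  corner : ∀ i, (0 : ℂ × ℂ) ∈ B i → B i = DD ∧ ∀ j p, p ∈ B j → rel i 0 j p → j = i ∧ p = 0
  /-- a box which is not centered at a crossing point contains no point of the second axis -/
  side : ∀ i, (0 : ℂ × ℂ) ∉ B i → ∀ p ∈ B i, p.2 ≠ 0
  refl : ∀ i, ∀ p ∈ B i, ∀ q ∈ B i, rel i p i q ↔ p = q
  symm : ∀ i j p q, p ∈ B i → q ∈ B j → rel i p j q → rel j q i p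
  trans : ∀ i j k p q r, p ∈ B i → q ∈ B j → r ∈ B k → rel i p j q → rel j q k r → rel i p k r
  iso : ∀ i j, ∀ p ∈ B i, ∀ q ∈ B j, rel i p j q → ∃ Φ : ℂ × ℂ → ℂ × ℂ, AnalyticAt ℂ Φ p ∧ Φ p = q ∧ (fderiv ℂ Φ p).det ≠ 0 ∧
    (∀ᶠ x in 𝓝 p, rel i x j (Φ x)) ∧ ∀ᶠ x in 𝓝 p, ∃ c : ℂ, c ≠ 0 ∧ ρ i x = c • ρ j (Φ x)
  sep : ∀ i j, ∀ p ∈ B i, ∀ q ∈ B j, ¬ rel i p j q → ∀ᶠ x in 𝓝 (p, q), ¬ rel i x.1 j x.2

attribute [instance] NCModel.fin

/-- The curve in the boxes of the model. -/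
structure NCLift {P : Ideal (MvPolynomial (Fin (M + 1)) ℂ)} {RD : MvPolynomial (Fin (M + 1)) ℂ} (X : NCModel P RD) (F : ℂ → EN M) where
  U : X.ι → Set ℂ
  p : X.ι → ℂ → ℂ × ℂ
  isOpen : ∀ i, IsOpen (U i)
  an : ∀ i, ∀ z ∈ U i, AnalyticAt ℂ (p i) z
  mem : ∀ i, ∀ z ∈ U i, p i z ∈ X.B i
  eq : ∀ i, ∀ z ∈ U i, ∃ c : ℂ, c ≠ 0 ∧ F z = c • X.ρ i (p i z)
  closed : ∀ i, ∀ K ⊆ X.B i, IsCompact K → IsClosed {z | z ∈ U i ∧ p i z ∈ K}
  cover : ∀ z, ∃ i, z ∈ U i ∧ p i z ∈ X.C i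
  rel : ∀ i j z, z ∈ U i → z ∈ U j → X.rel i (p i z) j (p j z)
  full : ∀ i j z, z ∈ U i → ∀ q ∈ X.B j, X.rel i (p i z) j q → z ∈ U j ∧ p j z = q

/-- The density `lm` bounds the curve in the boxes; `A` and `CK` will not depend on the curve. -/
structure NCDens {P : Ideal (MvPolynomial (Fin (M + 1)) ℂ)} {RD : MvPolynomial (Fin (M + 1)) ℂ} {X : NCModel P RD} {F : ℂ → EN M} (Y : NCLift X F)
    (A : ℝ) (CK : X.ι → Set (ℂ × ℂ) → ℝ) (lm : ℂ → ℝ) : Prop where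
  cont : Continuous lm
  le : ∀ z, lam F z ≤ lm z
  energy : ∃ K : ℝ, ∀ R, 1 ≤ R → ∫ z, tau R z * lm z ^ 2 ≤ A * En F R + K
  deriv_le : ∀ i, ∀ K ⊆ X.B i, IsCompact K → ∀ z ∈ Y.U i, Y.p i z ∈ K → ‖deriv (Y.p i) z‖ ≤ CK i K * lm z

end Pool.Agent.MQ3

end
end
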