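import Pool.Agent.H43.TL2.M102
import Pool.Agent.H43.TL2.M150
import Pool.Agent.H43.TL2.M159
import Pool.Agent.H43.TL2.M184
import Pool.Agent.H43.TL2.M31
import Pool.Agent.H43.TL2.M84

/-! The parts of this file: SR3.Dense, SDA.X3, SDA.X4, SR3.CopA. -/

section

/-!
# SR3 Dense: the good points of a second metric are relatively dense

`r` = the distance of the `T`-good point `a` to the `T'`-good points, `p` = a nearest one; after an affine change of the parameter `p = 1`, `a = 1 + r`.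
The function `v = g' ‖F‖ ^ (-c₀')` has no error in the ball with centre `1 + r` and radius `r`.  `T`-good points near `p`: `straight` gives
`log v ≤ A - c |Im z| + B |z| ^ γ` (the line is almost parallel to the real axis, as it is near `p` and `a`), so `disc_gain` bounds `r`, as
`log v 1` is bounded from below.
-/

set_option autoImplicit false

open Topology Filter Metric

noncomputable section

namespace Pool.Agent.SR3

open Pool.Agent.H36.BP (EN fs wd Sub OrdTwo)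
open Pool.Agent.H14.PP (IsCone Tan)
open Pool.Agent.SY (Ent)
open Pool.Agent.SDA (EnergyK Near AffOpen Nm nForms)
open Geo (Gd)

variable {N : ℕ} {G : Geo N} {T : Set (EN N)} {rho : EN N → ℝ} {M : ℕ} {c₀ C δ : ℝ} {g : (ℂ → EN N) → ℂ → ℝ}

/-- the growth in terms of the distance to the line -/
theorem dn_low_core (hst0 : ∃ γ A' B : ℝ, 0 < γ ∧ γ < 1 ∧ 0 < A' ∧ 0 < B ∧ ∀ (q : G.J → ℂ) (F : ℂ → EN N), G.Cl T q F → ∀ a ∈ Gd rho δ F,
      ∃ (u : ℂ) (β β' : G.ι → ℝ), G.Fits F a u β β' (fun z => B * pw γ ‖z - a‖) Set.univ ∧ A' ≤ ∑ i, β i ∧ A' ≤ ∑ i, β' i)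
    (hup0 : ∃ B : ℝ, 0 ≤ B ∧ ∀ x ∈ G.K, G.p x = 1 → (∀ i, G.lam i x ≤ G.h * Real.log ‖x‖ + B) ∧
      G.h * Real.log ‖x‖ ≤ ∑ i, G.b i * G.lam i x + B ∧ ∑ i, G.b i * G.lam i x ≤ G.h * Real.log ‖x‖ + B)
    (hh : 0 < (G.h : ℝ)) (hb1 : ∀ i, (1 : ℝ) ≤ G.b i) :
    ∃ γ α B : ℝ, 0 < γ ∧ γ < 1 ∧ 0 < α ∧ 0 ≤ B ∧ ∀ (q : G.J → ℂ) (F : ℂ → EN N), G.Cl T q F → ∀ a ∈ Gd rho δ F,
      ∃ u : ℂ, ‖u‖ = 1 ∧ ∀ z, α * |yy u a z| - B * pw γ ‖z - a‖ ≤ Real.log ‖F z‖ := by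
  obtain ⟨γ, A', B, hγ, hγ1, hA', hB, hst⟩ := hst0
  obtain ⟨B₁, hB₁, hup⟩ := hup0
  have hpw : ∀ r : ℝ, 0 ≤ r → 1 ≤ pw γ r := fun r hr => Real.one_le_rpow (by linarith) hγ.le
  obtain ⟨n, hn⟩ : ∃ n : ℝ, n = ∑ i, (G.b i : ℝ) := ⟨_, rfl⟩
  have hn0 : 0 ≤ n := by rw [hn]; positivity
  refine ⟨γ, A' / G.h, (n * B + B₁) / G.h, hγ, hγ1, by positivity, by positivity, fun q F hF a ha => ?_⟩
  obtain ⟨u, β, β', ⟨hu, hβ, hfit⟩, h1, h2⟩ := hst q F hF a ha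
  refine ⟨u, hu, fun z => ?_⟩
  have hz := hup (F z) (hF.ent.mem z) (hF.nm z)
  -- the sum of the functions `lin`
  have h3 : A' * |yy u a z| ≤ ∑ i, lin u a (β i) (β' i) z := by
    unfold lin
    rw [Finset.sum_add_distrib, ← Finset.sum_mul, ← Finset.sum_mul]
    rcases le_total 0 (yy u a z) with h4 | h4
    · rw [abs_of_nonneg h4, max_eq_left h4, max_eq_right (by linarith), mul_zero, add_zero]
      exact mul_le_mul_of_nonneg_right h1 h4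
    · rw [abs_of_nonpos h4, max_eq_right h4, max_eq_left (by linarith), mul_zero, zero_add]
      exact mul_le_mul_of_nonneg_right h2 (by linarith)
  have h4 : ∑ i, lin u a (β i) (β' i) z - n * (B * pw γ ‖z - a‖) ≤ ∑ i, G.b i * G.lam i (F z) := by
    rw [hn, Finset.sum_mul, ← Finset.sum_sub_distrib]
    refine Finset.sum_le_sum fun i _ => ?_
    have h5 : lin u a (β i) (β' i) z - B * pw γ ‖z - a‖ ≤ G.lam i (F z) := by
      have := (abs_le.1 (hfit z (Set.mem_univ _) i)).1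
      linarith
    have hb : (1 : ℝ) ≤ G.b i := hb1 i
    have hlin : 0 ≤ lin u a (β i) (β' i) z := by
      unfold lin
      have := hβ i
      have h6 := le_max_right (yy u a z) 0
      have h7 := le_max_right (-yy u a z) 0
      exact add_nonneg (mul_nonneg this.1 h6) (mul_nonneg this.2 h7)
    have h6 := mul_le_mul_of_nonneg_left h5 (by linarith : (0 : ℝ) ≤ G.b i)
    have h7 : lin u a (β i) (β' i) z ≤ G.b i * lin u a (β i) (β' i) z := le_mul_of_one_le_left hlin hb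
    rw [mul_sub] at h6
    linarith
  have h5 : A' * |yy u a z| - (n * B + B₁) * pw γ ‖z - a‖ ≤ G.h * Real.log ‖F z‖ := by
    have h6 := hpw ‖z - a‖ (norm_nonneg _)
    have h7 : B₁ ≤ B₁ * pw γ ‖z - a‖ := le_mul_of_one_le_right hB₁ h6
    have h8 : (n * B + B₁) * pw γ ‖z - a‖ = n * (B * pw γ ‖z - a‖) + B₁ * pw γ ‖z - a‖ := by ring
    rw [h8]
    linarith [hz.2.2]
  rw [div_mul_eq_mul_div, div_mul_eq_mul_div, ← sub_div, div_le_iff₀ hh]
  linarith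

/-- powers -/
private theorem pw_le {γ : ℝ} (hγ : 0 < γ) (hγ1 : γ < 1) {K : ℝ} (hK : 0 ≤ K) {r : ℝ} (hr : 0 ≤ r) : pw γ (r + K) ≤ (1 + K) * pw γ r := by
  unfold pw
  have h1 : 2 + (r + K) ≤ (1 + K) * (2 + r) := by
    have k1 : 0 ≤ K * r := mul_nonneg hK hr
    have k2 : (1 + K) * (2 + r) = 2 + r + 2 * K + K * r := by ring
    rw [k2]
    linarith
  refine (Real.rpow_le_rpow (by positivity) h1 hγ.le).trans ?_
  rw [Real.mul_rpow (by positivity) (by positivity)]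
  refine mul_le_mul_of_nonneg_right ?_ (Real.rpow_nonneg (by positivity) _)
  calc (1 + K) ^ γ ≤ (1 + K) ^ (1 : ℝ) := Real.rpow_le_rpow_of_exponent_le (by linarith) hγ1.le
    _ = 1 + K := Real.rpow_one _

private theorem pw_mono {γ : ℝ} (hγ : 0 < γ) {r s : ℝ} (hr : 0 ≤ r) (h : r ≤ s) : pw γ r ≤ pw γ s :=
  Real.rpow_le_rpow (by linarith) (by linarith) hγ.le

private theorem pw_lin {γ : ℝ} (hγ : 0 < γ) (hγ1 : γ < 1) {r : ℝ} (hr : 1 ≤ r) : pw γ r ≤ 3 * r ^ γ := by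
  unfold pw
  have h2 : 2 + r ≤ 3 * r := by linarith
  refine (Real.rpow_le_rpow (by positivity) h2 hγ.le).trans ?_
  rw [Real.mul_rpow (by norm_num) (by linarith)]
  refine mul_le_mul_of_nonneg_right ?_ (Real.rpow_nonneg (by linarith) _)
  calc (3 : ℝ) ^ γ ≤ 3 ^ (1 : ℝ) := Real.rpow_le_rpow_of_exponent_le (by norm_num) hγ1.le
    _ = 3 := Real.rpow_one _

private theorem pw_div {γ : ℝ} (hγ : 0 < γ) (hγ1 : γ < 1) {r t : ℝ} (hr : 1 ≤ r) (ht : 0 ≤ t) (htr : t ≤ 2 * r) :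
    pw γ r / r * t ≤ 6 * pw γ t := by
  have hr0 : 0 < r := by linarith
  have h1 := pw_lin hγ hγ1 hr
  have h2 : r ^ γ * (t / (2 * r)) ≤ t ^ γ := by
    have h3 : t / (2 * r) ≤ (t / (2 * r)) ^ γ := by
      have h4 : t / (2 * r) ≤ 1 := (div_le_one (by positivity)).2 htr
      calc t / (2 * r) = (t / (2 * r)) ^ (1 : ℝ) := (Real.rpow_one _).symm
        _ ≤ (t / (2 * r)) ^ γ := Real.rpow_le_rpow_of_exponent_ge' (by positivity) h4 hγ.le hγ1.le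
    have h4 : (t / (2 * r)) ^ γ ≤ (t / r) ^ γ := by
      refine Real.rpow_le_rpow (by positivity) ?_ hγ.le
      exact div_le_div_of_nonneg_left ht hr0 (by linarith)
    have h5 : r ^ γ * (t / r) ^ γ = t ^ γ := by
      rw [← Real.mul_rpow hr0.le (by positivity), mul_div_cancel₀ _ hr0.ne']
    calc r ^ γ * (t / (2 * r)) ≤ r ^ γ * (t / r) ^ γ := mul_le_mul_of_nonneg_left (h3.trans h4) (Real.rpow_nonneg hr0.le _)
      _ = t ^ γ := h5
  have h3 : t ^ γ ≤ pw γ t := Real.rpow_le_rpow ht (by linarith) hγ.le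
  have h4 : pw γ r / r * t ≤ 3 * r ^ γ / r * t := by
    refine mul_le_mul_of_nonneg_right ?_ ht
    exact div_le_div_of_nonneg_right h1 hr0.le
  have h5 : 3 * r ^ γ / r * t = 6 * (r ^ γ * (t / (2 * r))) := by
    field_simp
    ring
  rw [h5] at h4
  linarith

private theorem pw_tendsto {γ : ℝ} (hγ : 0 < γ) (hγ1 : γ < 1) : Tendsto (fun r => pw γ r / r) atTop (𝓝 0) := by
  have h1 : Tendsto (fun r : ℝ => 3 * r ^ (-(1 - γ))) atTop (𝓝 0) := by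
    have := (tendsto_rpow_neg_atTop (by linarith : 0 < 1 - γ)).const_mul 3
    simpa using this
  refine squeeze_zero' ?_ ?_ h1
  · filter_upwards [eventually_ge_atTop (1 : ℝ)] with r hr
    exact div_nonneg (Real.rpow_nonneg (by linarith) _) (by linarith)
  · filter_upwards [eventually_ge_atTop (1 : ℝ)] with r hr
    have hr0 : 0 < r := by linarith
    have h4 : r ^ (-(1 - γ)) = r ^ γ / r := by
      rw [neg_sub, Real.rpow_sub hr0, Real.rpow_one]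
    rw [h4, ← mul_div_assoc]
    exact div_le_div_of_nonneg_right (pw_lin hγ hγ1 hr) hr0.le

/-- the normalised situation, from the facts about the two metrics -/
theorem dn_main_core (hG : G.Ok) {T' : Set (EN N)} {rho' : EN N → ℝ} {M' : ℕ} {c₀' C' δ' : ℝ} {g' : (ℂ → EN N) → ℂ → ℝ}
    (hM' : G.Met T' rho' M' c₀' C' δ' g') (hT : T ⊆ T')
    (hlow0 : ∃ γ α B : ℝ, 0 < γ ∧ γ < 1 ∧ 0 < α ∧ 0 ≤ B ∧ ∀ (q : G.J → ℂ) (F : ℂ → EN N), G.Cl T q F → ∀ a ∈ Gd rho δ F,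
      ∃ u : ℂ, ‖u‖ = 1 ∧ ∀ z, α * |yy u a z| - B * pw γ ‖z - a‖ ≤ Real.log ‖F z‖)
    (hbd0 : ∃ C₁ : ℝ, 0 < C₁ ∧ ∀ (q : G.J → ℂ) (F : ℂ → EN N), G.Cl T' q F → ∀ z, g' F z ≤ C₁)
    (hth0 : ∃ d₁ C₂ : ℝ, 0 < d₁ ∧ (∀ F, Ent G.K T' F → ∀ z, δ' ≤ rho' (F z) → 1 ≤ G.n (F z) (deriv F z) → d₁ ≤ g' F z) ∧
      ∀ x ∈ G.K, G.p x = 1 → δ' ≤ rho' x → Real.log ‖x‖ ≤ C₂)
    (hth1 : ∃ C₂ : ℝ, ∀ x ∈ G.K, G.p x = 1 → δ ≤ rho x → Real.log ‖x‖ ≤ C₂)
    (hgap : ∀ B : ℝ, ∃ R : ℝ, ∀ (q : G.J → ℂ) (F : ℂ → EN N), G.Cl T q F → ∀ z, Real.log ‖F z‖ ≤ B → infDist z (Gd rho δ F) ≤ R) :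
    ∃ R : ℝ, ∀ r : ℝ, R ≤ r → ∀ (q : G.J → ℂ) (F : ℂ → EN N), G.Cl T' q F → ((1 + r : ℝ) : ℂ) ∈ Gd rho δ F → (1 : ℂ) ∈ Gd rho' δ' F →
      (∀ z ∈ ball ((1 + r : ℝ) : ℂ) r, z ∉ Gd rho' δ' F) → False := by
  obtain ⟨γ, α, B, hγ, hγ1, hα, hB, hlow⟩ := hlow0
  obtain ⟨C₁, hC₁, hbd⟩ := hbd0
  obtain ⟨d₁, C₂, hd₁, hth, hC₂⟩ := hth0
  obtain ⟨C₃, hC₃⟩ := hth1
  obtain ⟨R₁, hR₁⟩ := hgap C₂
  have hc₀ : 0 < c₀' := hM'.en.c₀_pos
  obtain ⟨K₁, hK₁⟩ : ∃ K₁, K₁ = max R₁ 0 + 1 := ⟨_, rfl⟩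
  have hK₁0 : 0 ≤ K₁ := by rw [hK₁]; positivity
  obtain ⟨K, hK⟩ : ∃ K, K = K₁ + 1 := ⟨_, rfl⟩
  have hK0 : 0 ≤ K := by rw [hK]; positivity
  obtain ⟨C₄, hC₄⟩ : ∃ C₄, C₄ = (|C₃| + B * (1 + K₁)) / α + K₁ := ⟨_, rfl⟩
  have hC₄0 : 0 ≤ C₄ := by rw [hC₄]; positivity
  obtain ⟨B₅, hB₅⟩ : ∃ B₅, B₅ = 6 * α * C₄ + α * K + B * (1 + K) := ⟨_, rfl⟩
  have hB₅0 : 0 ≤ B₅ := by rw [hB₅]; positivity
  obtain ⟨A', hA'⟩ := disc_gain (A := Real.log C₁) (k := C' * C₁ ^ 2) (B := c₀' * B₅) hγ hγ1 (by positivity : 0 < c₀' * (α / 2))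
    (by have := hM'.en.C_pos; positivity) (by positivity)
  have hev : ∀ᶠ r : ℝ in atTop, 2 < r ∧ C₄ * (pw γ r / r) ≤ 1 / 2 ∧ A' - c₀' * (α / 2) / 3 * Real.log r < Real.log d₁ - c₀' * C₂ := by
    refine (eventually_gt_atTop 2).and (Filter.Eventually.and ?_ ?_)
    · have h1 := (pw_tendsto hγ hγ1).const_mul C₄
      rw [mul_zero] at h1
      exact h1.eventually_le_const (by norm_num)
    · have h1 : Tendsto (fun r => c₀' * (α / 2) / 3 * Real.log r) atTop atTop := Real.tendsto_log_atTop.const_mul_atTop (by positivity)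
      filter_upwards [h1.eventually_gt_atTop (A' - (Real.log d₁ - c₀' * C₂))] with r hr
      linarith
  obtain ⟨R, hR⟩ := eventually_atTop.1 hev
  refine ⟨R, fun r hr q F hF ha hp hfree => ?_⟩
  obtain ⟨hr2, hr3, hr4⟩ := hR r hr
  have hr0 : 0 < r := by linarith
  have hFT : G.Cl T q F := ⟨⟨hF.ent.diff, hF.ent.mem, by
    obtain ⟨z, hz⟩ := hF.ent.out
    exact ⟨z, fun h => hz (hT h)⟩⟩, hF.nm, hF.val, hF.one⟩
  have hne : ∀ z, 0 < ‖F z‖ := fun z => norm_pos_iff.2 (ne0 hG (hF.ent.mem z))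
  have hpw0 : ∀ s : ℝ, 0 ≤ s → 1 ≤ pw γ s := fun s hs => Real.one_le_rpow (by linarith) hγ.le
  -- the base point
  have hp2 : Real.log ‖F 1‖ ≤ C₂ := hC₂ _ (hF.ent.mem 1) (hF.nm 1) hp
  have h1 : infDist (1 : ℂ) (Gd rho δ F) < K₁ := by
    have h2 := hR₁ q F hFT 1 hp2
    have h3 := le_max_left R₁ 0
    rw [hK₁]
    linarith
  obtain ⟨a, haG, had⟩ := (infDist_lt_iff ⟨_, ha⟩).1 h1
  rw [dist_eq_norm] at had
  have han : ‖a‖ ≤ K := by
    have h2 : ‖a‖ ≤ ‖(1 : ℂ)‖ + ‖(1 : ℂ) - a‖ := by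
      have h3 := norm_sub_le (1 : ℂ) (1 - a)
      rwa [sub_sub_cancel] at h3
    rw [norm_one] at h2
    rw [hK]
    linarith
  obtain ⟨u, hu, hlow'⟩ := hlow q F hFT a haG
  have hstar : ∀ z, ‖star u * z‖ = ‖z‖ := fun z => by rw [norm_mul, norm_star, hu, one_mul]
  -- the angle
  have hang : r * |u.re| ≤ C₄ * pw γ r := by
    have h2 := hlow' ((1 + r : ℝ) : ℂ)
    have h3 : Real.log ‖F ((1 + r : ℝ) : ℂ)‖ ≤ |C₃| := (hC₃ _ (hF.ent.mem _) (hF.nm _) ha).trans (le_abs_self _)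
    have h4 : ‖((1 + r : ℝ) : ℂ) - a‖ ≤ r + K₁ := by
      have h5 : ((1 + r : ℝ) : ℂ) - a = (r : ℂ) + (1 - a) := by push_cast; ring
      rw [h5]
      refine (norm_add_le _ _).trans ?_
      rw [Complex.norm_real, Real.norm_eq_abs, abs_of_pos hr0]
      linarith
    have h5 : pw γ ‖((1 + r : ℝ) : ℂ) - a‖ ≤ (1 + K₁) * pw γ r := (pw_mono hγ (norm_nonneg _) h4).trans (pw_le hγ hγ1 hK₁0 hr0.le)
    have h6 : yy u a ((1 + r : ℝ) : ℂ) = r * u.re + (star u * (1 - a)).re := by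
      unfold yy
      have h7 : star u * (((1 + r : ℝ) : ℂ) - a) = (r : ℂ) * star u + star u * (1 - a) := by push_cast; ring
      rw [h7, Complex.add_re, Complex.re_ofReal_mul]
      rfl
    have h7 : |(star u * (1 - a)).re| ≤ K₁ := (Complex.abs_re_le_norm _).trans (by rw [hstar]; exact had.le)
    have h8 : r * |u.re| ≤ |yy u a ((1 + r : ℝ) : ℂ)| + K₁ := by
      have h9 : r * |u.re| = |r * u.re| := by rw [abs_mul, abs_of_pos hr0]
      have h10 : r * u.re = yy u a ((1 + r : ℝ) : ℂ) - (star u * (1 - a)).re := by rw [h6]; ring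
      rw [h9, h10]
      refine (abs_sub _ _).trans ?_
      linarith
    have h9 : α * |yy u a ((1 + r : ℝ) : ℂ)| ≤ (|C₃| + B * (1 + K₁)) * pw γ r := by
      have h10 := mul_le_mul_of_nonneg_left h5 hB
      have h11 : |C₃| ≤ |C₃| * pw γ r := le_mul_of_one_le_right (abs_nonneg _) (hpw0 r hr0.le)
      linarith
    have h10 : |yy u a ((1 + r : ℝ) : ℂ)| ≤ (|C₃| + B * (1 + K₁)) / α * pw γ r := by
      rw [div_mul_eq_mul_div, le_div_iff₀ hα]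
      linarith
    have h11 : K₁ ≤ K₁ * pw γ r := le_mul_of_one_le_right hK₁0 (hpw0 r hr0.le)
    rw [hC₄]
    linarith
  have hang' : |u.re| ≤ C₄ * (pw γ r / r) := by
    rw [mul_div_assoc', le_div_iff₀ hr0]
    linarith
  have him : 1 / 2 ≤ |u.im| := by
    have h2 : u.re ^ 2 + u.im ^ 2 = 1 := by
      have h3 := Complex.sq_norm u
      rw [hu, Complex.normSq_apply] at h3
      linarith
    have h3 : |u.re| ≤ 1 / 2 := hang'.trans hr3
    have h4 : u.re ^ 2 ≤ 1 / 4 := by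
      rw [← sq_abs]
      exact (pow_le_pow_left₀ (abs_nonneg _) h3 2).trans_eq (by norm_num)
    have h5 : 3 / 4 ≤ |u.im| ^ 2 := by rw [sq_abs]; linarith
    by_contra hc
    have h6 : |u.im| ^ 2 ≤ (1 / 2) ^ 2 := pow_le_pow_left₀ (abs_nonneg _) (not_le.1 hc).le 2
    have h7 : ((1 : ℝ) / 2) ^ 2 = 1 / 4 := by norm_num
    linarith
  -- the growth
  have hgr : ∀ z : ℂ, ‖z‖ ≤ 2 * r → α / 2 * |z.im| - B₅ * pw γ ‖z‖ ≤ Real.log ‖F z‖ := by
    intro z hz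
    have h2 := hlow' z
    have h3 : ‖z - a‖ ≤ ‖z‖ + K := (norm_sub_le _ _).trans (by linarith)
    have h4 : pw γ ‖z - a‖ ≤ (1 + K) * pw γ ‖z‖ := (pw_mono hγ (norm_nonneg _) h3).trans (pw_le hγ hγ1 hK0 (norm_nonneg _))
    have h5 : |u.re| * ‖z‖ ≤ 6 * C₄ * pw γ ‖z‖ := by
      have h6 := mul_le_mul_of_nonneg_right hang' (norm_nonneg z)
      have h7 := mul_le_mul_of_nonneg_left (pw_div hγ hγ1 (by linarith : (1 : ℝ) ≤ r) (norm_nonneg z) hz) hC₄0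
      linarith
    have h6 : yy u a z = u.re * z.re + u.im * z.im - (star u * a).re := by
      unfold yy
      rw [mul_sub, Complex.sub_re, Complex.mul_re]
      simp
    have h7 : 1 / 2 * |z.im| - |u.re| * ‖z‖ - K ≤ |yy u a z| := by
      have h8 : |(star u * a).re| ≤ K := (Complex.abs_re_le_norm _).trans (by rw [hstar]; exact han)
      have h9 : |u.re * z.re| ≤ |u.re| * ‖z‖ := by
        rw [abs_mul]
        exact mul_le_mul_of_nonneg_left (Complex.abs_re_le_norm z) (abs_nonneg _)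
      have h10 : 1 / 2 * |z.im| ≤ |u.im * z.im| := by
        rw [abs_mul]
        exact mul_le_mul_of_nonneg_right him (abs_nonneg _)
      have h11 : u.im * z.im = yy u a z - u.re * z.re + (star u * a).re := by rw [h6]; ring
      have h12 : |u.im * z.im| ≤ |yy u a z| + |u.re * z.re| + |(star u * a).re| := by
        rw [h11]
        exact (abs_add_le _ _).trans (add_le_add (abs_sub _ _) le_rfl)
      linarith
    have h8 := mul_le_mul_of_nonneg_left h7 hα.le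
    have h9 := mul_le_mul_of_nonneg_left h4 hB
    have h10 := mul_le_mul_of_nonneg_left h5 hα.le
    have h11 : α * K ≤ α * K * pw γ ‖z‖ := le_mul_of_one_le_right (by positivity) (hpw0 _ (norm_nonneg _))
    rw [hB₅]
    linarith
  -- the function
  have hg0 : ∀ z, 0 ≤ g' F z := hM'.en.nonneg F hF.ent
  obtain ⟨v, hv⟩ : ∃ v : ℂ → ℝ, v = fun z => g' F z * ‖F z‖ ^ (-c₀') := ⟨_, rfl⟩
  have hv0 : ∀ z, 0 ≤ v z := fun z => by
    rw [hv]
    exact mul_nonneg (hg0 z) (Real.rpow_nonneg (norm_nonneg _) _)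
  have hgv : ∀ z, 0 < v z → 0 < g' F z := by
    intro z hz
    rcases (hg0 z).eq_or_lt with h3 | h3
    · rw [hv] at hz
      simp only [← h3, zero_mul, lt_self_iff_false] at hz
    · exact h3
  have key := hA' r hr2 v ?_ hv0 ?_ ?_ ?_
  · have h2 : d₁ ≤ g' F 1 := hth F hF.ent 1 hp (cl_n hF 1).ge
    have h3 : Real.exp (Real.log d₁ - c₀' * C₂) ≤ v 1 := by
      rw [hv, sub_eq_add_neg, Real.exp_add, Real.exp_log hd₁]
      refine mul_le_mul h2 ?_ (Real.exp_pos _).le (hg0 1)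
      rw [Real.rpow_def_of_pos (hne 1), Real.exp_le_exp]
      have h4 := mul_le_mul_of_nonneg_left hp2 hc₀.le
      linarith
    have h4 := Real.exp_le_exp.1 (h3.trans key)
    linarith
  · rw [hv]
    exact Pool.Agent.SDA.F1_usc (fun z a ha => hM'.en.usc F hF.ent z a ha)
      (hF.ent.diff.continuous.norm.rpow_const fun z => Or.inl (hne z).ne') (fun z => Real.rpow_pos_of_pos (hne z) _) _
  · intro z _ hz
    rw [hv]
    refine (hM'.en.sub F hF.ent z (hgv z hz)).anti ?_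
    have h2 := hbd q F hF z
    have h3 : g' F z ^ 2 ≤ C₁ ^ 2 := pow_le_pow_left₀ (hg0 z) h2 2
    have h4 := mul_le_mul_of_nonneg_left h3 hM'.en.C_pos.le
    linarith
  · intro z hz hvz
    rw [hv]
    refine hM'.near F hF.ent z ?_ (hgv z hvz)
    have h2 : z ∈ ball ((1 + r : ℝ) : ℂ) r := by
      rw [mem_ball, dist_eq_norm] at hz ⊢
      have h3 : z - ((1 + r : ℝ) : ℂ) = (z - r) - 1 := by push_cast; ring
      rw [h3]
      refine (norm_sub_le _ _).trans_lt ?_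
      rw [norm_one]
      linarith
    exact not_le.1 (hfree z h2)
  · intro z hz
    have h2 : ‖z‖ ≤ 2 * r := by
      have h3 : ‖z‖ ≤ ‖z - r‖ + ‖(r : ℂ)‖ := by
        have := norm_add_le (z - r) (r : ℂ)
        rwa [sub_add_cancel] at this
      rw [mem_closedBall, dist_eq_norm] at hz
      rw [Complex.norm_real, Real.norm_eq_abs, abs_of_pos hr0] at h3
      linarith
    have h3 := mul_le_mul_of_nonneg_left (hgr z h2) hc₀.le
    rw [hv]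
    calc g' F z * ‖F z‖ ^ (-c₀') ≤ C₁ * ‖F z‖ ^ (-c₀') :=
          mul_le_mul_of_nonneg_right (hbd q F hF z) (Real.rpow_nonneg (norm_nonneg _) _)
      _ = Real.exp (Real.log C₁ + Real.log ‖F z‖ * (-c₀')) := by
          rw [Real.exp_add, Real.exp_log hC₁, Real.rpow_def_of_pos (hne z)]
      _ ≤ Real.exp (Real.log C₁ - c₀' * (α / 2) * |z.im| + c₀' * B₅ * (2 + ‖z‖) ^ γ) := by
          rw [Real.exp_le_exp]
          have h4 : pw γ ‖z‖ = (2 + ‖z‖) ^ γ := rfl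
          rw [h4] at h3
          linarith

/-- from the normalised situation to the general one -/
theorem dense_core (hG : G.Ok) {T' : Set (EN N)} {rho' : EN N → ℝ} {M' : ℕ} {c₀' C' δ' : ℝ} {g' : (ℂ → EN N) → ℂ → ℝ}
    (hM' : G.Met T' rho' M' c₀' C' δ' g')
    (hR0 : ∃ R : ℝ, ∀ r : ℝ, R ≤ r → ∀ (q : G.J → ℂ) (F : ℂ → EN N), G.Cl T' q F → ((1 + r : ℝ) : ℂ) ∈ Gd rho δ F → (1 : ℂ) ∈ Gd rho' δ' F →
      (∀ z ∈ ball ((1 + r : ℝ) : ℂ) r, z ∉ Gd rho' δ' F) → False)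
    (hne : ∀ (q : G.J → ℂ) (F : ℂ → EN N), G.Cl T' q F → (Gd rho' δ' F).Nonempty) :
    ∃ R : ℝ, ∀ (q : G.J → ℂ) (F : ℂ → EN N), G.Cl T' q F → ∀ a ∈ Gd rho δ F, ∃ b ∈ Gd rho' δ' F, dist a b ≤ R := by
  obtain ⟨R, hR⟩ := hR0
  refine ⟨max R 1, fun q F hF a ha => ?_⟩
  have hcl : IsClosed (Gd rho' δ' F) := gd_closed hG hM' hF
  obtain ⟨p, hp, hpd⟩ := hcl.exists_infDist_eq_dist (hne q F hF) a
  refine ⟨p, hp, ?_⟩
  by_contra hcon
  push Not at hcon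
  obtain ⟨r, hr⟩ : ∃ r, r = dist a p := ⟨_, rfl⟩
  rw [← hr] at hcon hpd
  have hr1 : R ≤ r := (le_max_left _ _).trans hcon.le
  have hr0 : 0 < r := by
    have := le_max_right R 1
    linarith
  have hrc : (r : ℂ) ≠ 0 := by exact_mod_cast hr0.ne'
  have hrn : ‖a - p‖ = r := by rw [hr, dist_eq_norm]
  obtain ⟨e, he⟩ : ∃ e : ℂ, e = (a - p) / r := ⟨_, rfl⟩
  have hen : ‖e‖ = 1 := by
    rw [he, norm_div, hrn, Complex.norm_real, Real.norm_eq_abs, abs_of_pos hr0, div_self hr0.ne']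
  have her : e * r = a - p := by rw [he, div_mul_cancel₀ _ hrc]
  refine hR r hr1 _ _ (cl_comp hG hF hen (p - e)) ?_ ?_ ?_
  · show δ ≤ rho (F (e * ((1 + r : ℝ) : ℂ) + (p - e)))
    have h1 : e * ((1 + r : ℝ) : ℂ) + (p - e) = a := by
      push_cast
      linear_combination her
    rw [h1]
    exact ha
  · show δ' ≤ rho' (F (e * 1 + (p - e)))
    have h1 : e * 1 + (p - e) = p := by ring
    rw [h1]
    exact hp
  · intro z hz hz'
    have h1 : e * z + (p - e) ∈ Gd rho' δ' F := hz'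
    have h2 : infDist a (Gd rho' δ' F) ≤ dist a (e * z + (p - e)) := infDist_le_dist_of_mem h1
    rw [hpd, dist_eq_norm] at h2
    rw [mem_ball, dist_eq_norm] at hz
    have h3 : a - (e * z + (p - e)) = -(e * (z - ((1 + r : ℝ) : ℂ))) := by
      push_cast
      linear_combination (-1 : ℂ) * her
    rw [h3, norm_neg, norm_mul, hen, one_mul] at h2
    linarith

end Pool.Agent.SR3

end
end

section

/-!
# SDA X3: the local equation of the common null directions of two logarithmic symmetric differentials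

`h` is the product of the equations of the boundary; `h ^ (m + 1) * θ` is holomorphic in a chart, since the logarithmic length is `O (1 / h)`.
-/

set_option autoImplicit false

open Topology Filter Metric MvPolynomial

noncomputable section

namespace Pool.Agent.SDA

open Pool.Agent.H36.BP (EN fs wd wd_cont fs_nonneg)
open Pool.Agent.H14.PP (IsCone Tan IsOpenPart)
open Pool.Agent.H17BP (Surface IsChart LocalEq)
open Pool.Agent.H17EF (coneE)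
open Pool.Agent.AD (SymDiff)
open Pool.Agent.E1 (ComNull)

variable {N k : ℕ} {P : Ideal (MvPolynomial (Fin (N + 1)) ℂ)} {H : Fin k → MvPolynomial (Fin (N + 1)) ℂ} {e : Fin k → ℕ}

/-- the open cone is an open part of the cone -/
theorem X3_openPart (hX : ∀ x ∈ coneE P, ∀ c : ℂ, c ≠ 0 → c • x ∈ coneE P) (hH : ∀ i, (H i).IsHomogeneous (e i)) :
    IsOpenPart (coneE P) (openCone P H) where
  subset _ hx := hx.1
  smul_mem x hx c hc := by
    refine ⟨hX x hx.1 c hc, fun i => ?_⟩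
    have h1 : (c • x).ofLp = c • x.ofLp := rfl
    rw [h1, Pool.Agent.H17EF.eval_smul_form (hH i) c x.ofLp]
    exact mul_ne_zero (pow_ne_zero _ hc) (hx.2 i)
  rel_open x hx := by
    have h3 : ∀ᶠ y : EN N in 𝓝 x, ∀ i, eval y.ofLp (H i) ≠ 0 := by
      rw [eventually_all]
      exact fun i => (E1_an (H i) x).continuousAt.eventually_ne (hx.2 i)
    filter_upwards [h3] with y hy hyX
    exact ⟨hyX, hy⟩

/-- a symmetric differential in a chart -/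
theorem X3_analytic {X : Set (EN N)} {m : ℕ} (θ : SymDiff X m) {σ : ℂ × ℂ → EN N} {p : ℂ × ℂ} (w : ℂ × ℂ) (hσ : AnalyticAt ℂ σ p)
    (hX : ∀ᶠ q in 𝓝 p, σ q ∈ X) :
    AnalyticAt ℂ (fun y : (ℂ × ℂ) × (ℂ × ℂ) => θ.toFun (σ y.1) (fderiv ℂ σ y.1 y.2)) (p, w) := by
  set E : (Fin 2 → ℂ) ≃L[ℂ] ℂ × ℂ := ContinuousLinearEquiv.finTwoArrow ℂ ℂ with hE
  have h1 : AnalyticAt ℂ (fun q : Fin 2 → ℂ => σ (E q)) (E.symm p) := by
    refine AnalyticAt.comp (g := σ) (f := fun q : Fin 2 → ℂ => E q) ?_ (E.toContinuousLinearMap.analyticAt _)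
    rw [E.apply_symm_apply]
    exact hσ
  have h2 : ∀ᶠ y in 𝓝 (E.symm p), σ (E y) ∈ X := by
    have h3 : Tendsto (fun y : Fin 2 → ℂ => E y) (𝓝 (E.symm p)) (𝓝 p) := by
      have := E.continuous.tendsto (E.symm p)
      rwa [E.apply_symm_apply] at this
    exact h3.eventually hX
  have h3 := θ.analytic 2 (fun q : Fin 2 → ℂ => σ (E q)) (E.symm p) (E.symm w) h1 h2
  have h4 : AnalyticAt ℂ (fun y : (ℂ × ℂ) × (ℂ × ℂ) => (E.symm y.1, E.symm y.2)) (p, w) := by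
    have h5 : AnalyticAt ℂ (fun y : (ℂ × ℂ) × (ℂ × ℂ) => E.symm y.1) (p, w) :=
      AnalyticAt.comp (g := fun q : ℂ × ℂ => E.symm q) (E.symm.toContinuousLinearMap.analyticAt _) analyticAt_fst
    have h6 : AnalyticAt ℂ (fun y : (ℂ × ℂ) × (ℂ × ℂ) => E.symm y.2) (p, w) :=
      AnalyticAt.comp (g := fun q : ℂ × ℂ => E.symm q) (E.symm.toContinuousLinearMap.analyticAt _) analyticAt_snd
    exact h5.prod h6
  have h5 := AnalyticAt.comp (g := fun y : (Fin 2 → ℂ) × (Fin 2 → ℂ) => θ.toFun (σ (E y.1)) (fderiv ℂ (fun q : Fin 2 → ℂ => σ (E q)) y.1 y.2))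
    (f := fun y : (ℂ × ℂ) × (ℂ × ℂ) => (E.symm y.1, E.symm y.2)) (x := (p, w)) h3 h4
  refine h5.congr (Eventually.of_forall fun y => ?_)
  show θ.toFun (σ (E (E.symm y.1))) (fderiv ℂ (fun q : Fin 2 → ℂ => σ (E q)) (E.symm y.1) (E.symm y.2)) = _
  have h6 : fderiv ℂ (fun q : Fin 2 → ℂ => σ (E q)) (E.symm y.1) = (fderiv ℂ σ (E (E.symm y.1))).comp (E : (Fin 2 → ℂ) →L[ℂ] ℂ × ℂ) :=
    E.comp_right_fderiv
  rw [h6, E.apply_symm_apply]
  show θ.toFun (σ y.1) (fderiv ℂ σ y.1 (E (E.symm y.2))) = _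
  rw [E.apply_symm_apply]

/-- the differential of a chart -/
theorem X3_cont {σ : ℂ × ℂ → EN N} (hσ : AnalyticAt ℂ σ 0) (v : ℂ × ℂ) :
    ContinuousAt (fun y : (ℂ × ℂ) × (ℂ × ℂ) => fderiv ℂ σ y.1 y.2) (0, v) := by
  have h1 : ContinuousAt (fun y : (ℂ × ℂ) × (ℂ × ℂ) => fderiv ℂ σ y.1) (0, v) :=
    ContinuousAt.comp (g := fderiv ℂ σ) (f := Prod.fst) (x := ((0 : ℂ × ℂ), v)) hσ.fderiv.continuousAt continuousAt_fst
  have hcb : Continuous fun p : (ℂ × ℂ →L[ℂ] EN N) × (ℂ × ℂ) => p.1 p.2 := isBoundedBilinearMap_apply.continuous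
  exact ContinuousAt.comp (g := fun p : (ℂ × ℂ →L[ℂ] EN N) × (ℂ × ℂ) => p.1 p.2)
    (f := fun y : (ℂ × ℂ) × (ℂ × ℂ) => (fderiv ℂ σ y.1, y.2)) hcb.continuousAt (h1.prodMk continuousAt_snd)

/-- the product of the equations of the boundary times the logarithmic length is bounded -/
theorem X3_log (H : Fin k → MvPolynomial (Fin (N + 1)) ℂ) (e : Fin k → ℕ) {σ : ℂ × ℂ → EN N} (hσ : AnalyticAt ℂ σ 0) (hne : σ 0 ≠ 0)
    (v : ℂ × ℂ) : ∃ B : ℝ, 0 ≤ B ∧ ∀ᶠ y in 𝓝 ((0 : ℂ × ℂ), v), ‖∏ i, eval (σ y.1).ofLp (H i)‖ * fs (σ y.1) (fderiv ℂ σ y.1 y.2) ≤ B ∧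
      ((∏ i, eval (σ y.1).ofLp (H i)) ≠ 0 → ‖∏ i, eval (σ y.1).ofLp (H i)‖ * logLength H e (σ y.1) (fderiv ℂ σ y.1 y.2) ≤ B) := by
  have hs : ContinuousAt (fun y : (ℂ × ℂ) × (ℂ × ℂ) => σ y.1) (0, v) :=
    ContinuousAt.comp (g := σ) (f := Prod.fst) (x := ((0 : ℂ × ℂ), v)) hσ.continuousAt continuousAt_fst
  have hD := X3_cont hσ v
  have hev : ∀ Q : MvPolynomial (Fin (N + 1)) ℂ, ContinuousAt (fun y : (ℂ × ℂ) × (ℂ × ℂ) => eval (σ y.1).ofLp Q) (0, v) := fun Q =>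
    ContinuousAt.comp (g := fun x : EN N => eval x.ofLp Q) (f := fun y : (ℂ × ℂ) × (ℂ × ℂ) => σ y.1) (x := ((0 : ℂ × ℂ), v))
      (E1_an Q _).continuousAt hs
  have hn0 : ‖σ (((0 : ℂ × ℂ), v) : (ℂ × ℂ) × (ℂ × ℂ)).1‖ ^ 2 ≠ 0 := pow_ne_zero _ (norm_ne_zero_iff.2 hne)
  have hh : ContinuousAt (fun y : (ℂ × ℂ) × (ℂ × ℂ) => ∏ i, eval (σ y.1).ofLp (H i)) (0, v) := by
    have := tendsto_finsetProd (s := Finset.univ) (f := fun (i : Fin k) (y : (ℂ × ℂ) × (ℂ × ℂ)) => eval (σ y.1).ofLp (H i))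
      (a := fun i => eval (σ (((0 : ℂ × ℂ), v) : (ℂ × ℂ) × (ℂ × ℂ)).1).ofLp (H i)) (x := 𝓝 ((0 : ℂ × ℂ), v)) fun i _ => hev (H i)
    exact this
  have hfs : ContinuousAt (fun y : (ℂ × ℂ) × (ℂ × ℂ) => fs (σ y.1) (fderiv ℂ σ y.1 y.2)) (0, v) := by
    have h1 : ContinuousAt (fun y : (ℂ × ℂ) × (ℂ × ℂ) => wd (σ y.1) (fderiv ℂ σ y.1 y.2)) (0, v) :=
      ContinuousAt.comp (g := fun p : EN N × EN N => wd p.1 p.2) (f := fun y : (ℂ × ℂ) × (ℂ × ℂ) => (σ y.1, fderiv ℂ σ y.1 y.2))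
        (x := ((0 : ℂ × ℂ), v)) wd_cont.continuousAt (hs.prodMk hD)
    exact h1.div (hs.norm.pow 2) hn0
  have hin : ContinuousAt (fun y : (ℂ × ℂ) × (ℂ × ℂ) => (inner ℂ (σ y.1) (fderiv ℂ σ y.1 y.2) / (‖σ y.1‖ : ℂ) ^ 2 : ℂ)) (0, v) := by
    refine (hs.inner hD).div ((Complex.continuous_ofReal.continuousAt.comp hs.norm).pow 2) ?_
    have h1 : ((‖σ (((0 : ℂ × ℂ), v) : (ℂ × ℂ) × (ℂ × ℂ)).1‖ : ℝ) : ℂ) ≠ 0 := Complex.ofReal_ne_zero.2 (norm_ne_zero_iff.2 hne)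
    exact pow_ne_zero _ h1
  have hdf : ∀ i : Fin k, ContinuousAt (fun y : (ℂ × ℂ) × (ℂ × ℂ) =>
      fderiv ℂ (fun x : EN N => eval x.ofLp (H i)) (σ y.1) (fderiv ℂ σ y.1 y.2)) (0, v) := by
    intro i
    have h1 : ContinuousAt (fun y : (ℂ × ℂ) × (ℂ × ℂ) => fderiv ℂ (fun x : EN N => eval x.ofLp (H i)) (σ y.1)) (0, v) :=
      ContinuousAt.comp (g := fderiv ℂ (fun x : EN N => eval x.ofLp (H i))) (f := fun y : (ℂ × ℂ) × (ℂ × ℂ) => σ y.1)
        (x := ((0 : ℂ × ℂ), v)) (E1_an (H i) _).fderiv.continuousAt hs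
    have hcb : Continuous fun p : (EN N →L[ℂ] ℂ) × EN N => p.1 p.2 := isBoundedBilinearMap_apply.continuous
    exact ContinuousAt.comp (g := fun p : (EN N →L[ℂ] ℂ) × EN N => p.1 p.2)
      (f := fun y : (ℂ × ℂ) × (ℂ × ℂ) => (fderiv ℂ (fun x : EN N => eval x.ofLp (H i)) (σ y.1), fderiv ℂ σ y.1 y.2)) hcb.continuousAt
      (h1.prodMk hD)
  obtain ⟨G, hG⟩ : ∃ G : Fin k → (ℂ × ℂ) × (ℂ × ℂ) → ℂ, G = fun i y => (∏ j ∈ Finset.univ.erase i, eval (σ y.1).ofLp (H j)) *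
      fderiv ℂ (fun x : EN N => eval x.ofLp (H i)) (σ y.1) (fderiv ℂ σ y.1 y.2) -
      (∏ j, eval (σ y.1).ofLp (H j)) * ((e i : ℂ) * (inner ℂ (σ y.1) (fderiv ℂ σ y.1 y.2) / (‖σ y.1‖ : ℂ) ^ 2)) := ⟨_, rfl⟩
  have hGc : ∀ i, ContinuousAt (G i) (0, v) := by
    intro i
    rw [hG]
    have h1 : ContinuousAt (fun y : (ℂ × ℂ) × (ℂ × ℂ) => ∏ j ∈ Finset.univ.erase i, eval (σ y.1).ofLp (H j)) (0, v) := by
      have := tendsto_finsetProd (s := Finset.univ.erase i) (f := fun (j : Fin k) (y : (ℂ × ℂ) × (ℂ × ℂ)) => eval (σ y.1).ofLp (H j))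
        (a := fun j => eval (σ (((0 : ℂ × ℂ), v) : (ℂ × ℂ) × (ℂ × ℂ)).1).ofLp (H j)) (x := 𝓝 ((0 : ℂ × ℂ), v)) fun j _ => hev (H j)
      exact this
    exact (h1.mul (hdf i)).sub (hh.mul (continuousAt_const.mul hin))
  have hGb : ∀ᶠ y in 𝓝 ((0 : ℂ × ℂ), v), ∀ i, ‖G i y‖ ≤ ‖G i (0, v)‖ + 1 := by
    rw [eventually_all]
    exact fun i => (hGc i).norm.eventually_le_const (by linarith)
  have hfb : ∀ᶠ y in 𝓝 ((0 : ℂ × ℂ), v), ‖∏ i, eval (σ y.1).ofLp (H i)‖ * fs (σ y.1) (fderiv ℂ σ y.1 y.2) ≤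
      ‖∏ i, eval (σ (0 : ℂ × ℂ)).ofLp (H i)‖ * fs (σ 0) (fderiv ℂ σ 0 v) + 1 :=
    (hh.norm.mul hfs).eventually_le_const (by
      show ‖∏ i, eval (σ (0 : ℂ × ℂ)).ofLp (H i)‖ * fs (σ 0) (fderiv ℂ σ 0 v) < _
      linarith)
  obtain ⟨A, hA⟩ : ∃ A : ℝ, A = ‖∏ i, eval (σ (0 : ℂ × ℂ)).ofLp (H i)‖ * fs (σ 0) (fderiv ℂ σ 0 v) + 1 := ⟨_, rfl⟩
  have hA0 : 0 ≤ A := by
    rw [hA]
    have := mul_nonneg (norm_nonneg (∏ i, eval (σ (0 : ℂ × ℂ)).ofLp (H i))) (fs_nonneg (σ 0) (fderiv ℂ σ 0 v))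
    linarith
  have hS0 : 0 ≤ ∑ i, (‖G i (0, v)‖ + 1) := Finset.sum_nonneg fun i _ => by
    have := norm_nonneg (G i (0, v))
    linarith
  refine ⟨A + ∑ i, (‖G i (0, v)‖ + 1), add_nonneg hA0 hS0, ?_⟩
  filter_upwards [hGb, hfb] with y h1 h2
  rw [← hA] at h2
  refine ⟨by linarith, fun h0 => ?_⟩
  unfold logLength
  rw [mul_add, Finset.mul_sum]
  refine add_le_add h2 (Finset.sum_le_sum fun i _ => ?_)
  refine le_trans (le_of_eq ?_) (h1 i)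
  rw [← norm_mul]
  congr 1
  rw [hG]
  have hi : eval (σ y.1).ofLp (H i) ≠ 0 := fun hi => h0 (Finset.prod_eq_zero (Finset.mem_univ i) hi)
  have hp : (∏ j, eval (σ y.1).ofLp (H j)) = eval (σ y.1).ofLp (H i) * ∏ j ∈ Finset.univ.erase i, eval (σ y.1).ofLp (H j) :=
    (Finset.mul_prod_erase _ _ (Finset.mem_univ i)).symm
  simp only
  rw [mul_sub]
  congr 1
  rw [hp]
  field_simp

/-- `h ^ (m + 1) * θ` is holomorphic -/
theorem X3_an (hX : Surface (coneE P)) (hH : ∀ i, (H i).IsHomogeneous (e i)) {m : ℕ} (θ : SymDiff (openCone P H) m)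
    (hθ : VanishesOnStatic e θ) {σ : ℂ × ℂ → EN N} {τ : EN N → ℂ × ℂ} (hσ : IsChart (coneE P) σ τ) (v : ℂ × ℂ) :
    AnalyticAt ℂ (fun y : (ℂ × ℂ) × (ℂ × ℂ) => (∏ i, eval (σ y.1).ofLp (H i)) ^ (m + 1) * θ.toFun (σ y.1) (fderiv ℂ σ y.1 y.2)) (0, v) := by
  have hK := X3_openPart (H := H) (e := e) hX.smul hH
  have hev : ∀ p : ℂ × ℂ, AnalyticAt ℂ σ p → AnalyticAt ℂ (fun p => ∏ i, eval (σ p).ofLp (H i)) p := fun p hp =>
    Finset.analyticAt_fun_prod _ fun i _ => AnalyticAt.comp (g := fun x : EN N => eval x.ofLp (H i)) (f := σ) (E1_an (H i) _) hp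
  have h0 : AnalyticAt ℂ (fun y : (ℂ × ℂ) × (ℂ × ℂ) => ∏ i, eval (σ y.1).ofLp (H i)) (0, v) :=
    AnalyticAt.comp (g := fun p : ℂ × ℂ => ∏ i, eval (σ p).ofLp (H i)) (f := Prod.fst) (x := ((0 : ℂ × ℂ), v)) (hev 0 hσ.σ_an) analyticAt_fst
  have hfst : Tendsto (Prod.fst : (ℂ × ℂ) × (ℂ × ℂ) → ℂ × ℂ) (𝓝 ((0 : ℂ × ℂ), v)) (𝓝 0) := continuousAt_fst
  obtain ⟨B, hB, hlog⟩ := X3_log H e hσ.σ_an hσ.ne v
  obtain ⟨C, hC⟩ := hθ 1 one_pos
  refine analyticAt_of_bound (h := fun y : (ℂ × ℂ) × (ℂ × ℂ) => ∏ i, eval (σ y.1).ofLp (H i)) (C := (B + |C| * B) ^ m) h0 ?_ ?_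
  · filter_upwards [hfst.eventually hσ.σ_an.eventually_analyticAt, hfst.eventually hσ.σ_mem.eventually_nhds] with y h1 h2 hy
    have h3 := hev y.1 h1
    have h4 : ∀ᶠ q in 𝓝 y.1, σ q ∈ openCone P H := by
      filter_upwards [h2, h3.continuousAt.eventually_ne hy] with q hq hq0
      exact ⟨hq, fun i hi => hq0 (Finset.prod_eq_zero (Finset.mem_univ i) hi)⟩
    have h5 : AnalyticAt ℂ (fun y : (ℂ × ℂ) × (ℂ × ℂ) => ∏ i, eval (σ y.1).ofLp (H i)) y :=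
      AnalyticAt.comp (g := fun p : ℂ × ℂ => ∏ i, eval (σ p).ofLp (H i)) (f := Prod.fst) (x := y) h3 analyticAt_fst
    exact (h5.pow (m + 1)).mul (X3_analytic θ y.2 h1 h4)
  · filter_upwards [hlog, hfst.eventually hσ.σ_an.eventually_analyticAt, hfst.eventually hσ.σ_mem.eventually_nhds] with y h1 h2 h3
    by_cases hy : (∏ i, eval (σ y.1).ofLp (H i)) = 0
    · rw [hy, zero_pow (Nat.succ_ne_zero m), zero_mul, norm_zero, mul_zero]
    have h4 : ∀ᶠ q in 𝓝 y.1, σ q ∈ openCone P H := by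
      filter_upwards [h3, (hev y.1 h2).continuousAt.eventually_ne hy] with q hq hq0
      exact ⟨hq, fun i hi => hq0 (Finset.prod_eq_zero (Finset.mem_univ i) hi)⟩
    have h5 := hC (σ y.1) h4.self_of_nhds (fderiv ℂ σ y.1 y.2) (Pool.Agent.E2.tan_fderiv_chart h2 h4 y.2)
    have h6 := h1.2 hy
    have h7 := h1.1
    obtain ⟨t, ht⟩ : ∃ t : ℝ, t = ‖∏ i, eval (σ y.1).ofLp (H i)‖ := ⟨_, rfl⟩
    obtain ⟨L, hL⟩ : ∃ L : ℝ, L = logLength H e (σ y.1) (fderiv ℂ σ y.1 y.2) := ⟨_, rfl⟩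
    obtain ⟨f, hf⟩ : ∃ f : ℝ, f = fs (σ y.1) (fderiv ℂ σ y.1 y.2) := ⟨_, rfl⟩
    rw [norm_mul, norm_pow]
    rw [← ht, ← hL] at h6
    rw [← ht, ← hf] at h7
    rw [← hL, ← hf] at h5
    rw [← ht]
    have ht0 : 0 ≤ t := ht ▸ norm_nonneg _
    have hf0 : 0 ≤ f := hf ▸ fs_nonneg _ _
    have hL0 : 0 ≤ L := by
      rw [hL]
      unfold logLength
      exact add_nonneg (fs_nonneg _ _) (Finset.sum_nonneg fun i _ => norm_nonneg _)
    have h8 : |t * (1 * L + C * f)| ≤ B + |C| * B := by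
      have h9 : |t * (1 * L + C * f)| ≤ t * L + |C| * (t * f) := by
        rw [one_mul, mul_add, show t * (C * f) = C * (t * f) by ring]
        refine (abs_add_le _ _).trans ?_
        rw [abs_mul C, abs_of_nonneg (mul_nonneg ht0 hL0), abs_of_nonneg (mul_nonneg ht0 hf0)]
      exact h9.trans (add_le_add h6 (mul_le_mul_of_nonneg_left h7 (abs_nonneg C)))
    calc t ^ (m + 1) * ‖θ.toFun (σ y.1) (fderiv ℂ σ y.1 y.2)‖ ≤ t ^ (m + 1) * (1 * L + C * f) ^ m :=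
          mul_le_mul_of_nonneg_left h5 (pow_nonneg ht0 _)
      _ = (t * (1 * L + C * f)) ^ m * t := by rw [mul_pow]; ring
      _ ≤ |t * (1 * L + C * f)| ^ m * t := by
          refine mul_le_mul_of_nonneg_right ?_ ht0
          rw [← abs_pow]
          exact le_abs_self _
      _ ≤ (B + |C| * B) ^ m * t := mul_le_mul_of_nonneg_right (pow_le_pow_left₀ (abs_nonneg _) h8 m) ht0

/-- MODULE X3: the local equation -/
theorem localEq_log (hX : Surface (coneE P)) (hH : ∀ i, (H i).IsHomogeneous (e i)) {m₁ m₂ : ℕ} (h₁ : 1 ≤ m₁) (h₂ : 1 ≤ m₂)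
    (θ₁ : SymDiff (openCone P H) m₁) (θ₂ : SymDiff (openCone P H) m₂) (hθ₁ : VanishesOnStatic e θ₁) (hθ₂ : VanishesOnStatic e θ₂)
    {σ : ℂ × ℂ → EN N} {τ : EN N → ℂ × ℂ} (hσ : IsChart (coneE P) σ τ) :
    ∃ g : ℂ × ℂ → ℂ, LocalEq (ComNull θ₁ θ₂ ∪ {x | x ∈ coneE P ∧ ∃ i, eval x.ofLp (H i) = 0}) σ g := by
  have hK := X3_openPart (H := H) (e := e) hX.smul hH
  have hev : AnalyticAt ℂ (fun p => ∏ i, eval (σ p).ofLp (H i)) 0 :=
    Finset.analyticAt_fun_prod _ fun i _ => AnalyticAt.comp (g := fun x : EN N => eval x.ofLp (H i)) (f := σ) (E1_an (H i) _) hσ.σ_an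
  -- near `0` the points off the boundary have a neighbourhood in the open cone
  have hnb : ∀ᶠ p in 𝓝 (0 : ℂ × ℂ), AnalyticAt ℂ σ p ∧ ((∏ i, eval (σ p).ofLp (H i)) ≠ 0 → ∀ᶠ q in 𝓝 p, σ q ∈ openCone P H) := by
    filter_upwards [hσ.σ_an.eventually_analyticAt, hσ.σ_mem.eventually_nhds, hev.eventually_analyticAt] with p h1 h2 h3
    refine ⟨h1, fun hp => ?_⟩
    filter_upwards [h2, h3.continuousAt.eventually_ne hp] with q hq hq0
    exact ⟨hq, fun i hi => hq0 (Finset.prod_eq_zero (Finset.mem_univ i) hi)⟩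
  have hs : ∀ {m : ℕ} (θ : SymDiff (openCone P H) m), ∀ᶠ p in 𝓝 (0 : ℂ × ℂ), ∀ (c : ℂ) (v : ℂ × ℂ),
      (∏ i, eval (σ p).ofLp (H i)) ^ (m + 1) * θ.toFun (σ p) (fderiv ℂ σ p (c • v)) =
      c ^ m * ((∏ i, eval (σ p).ofLp (H i)) ^ (m + 1) * θ.toFun (σ p) (fderiv ℂ σ p v)) := by
    intro m θ
    filter_upwards [hnb] with p hp c v
    by_cases h0 : (∏ i, eval (σ p).ofLp (H i)) = 0
    · rw [h0, zero_pow (Nat.succ_ne_zero m), zero_mul, zero_mul, mul_zero]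
    · rw [map_smul, θ.smul _ _ (Pool.Agent.E2.tan_fderiv_chart hp.1 (hp.2 h0) v)]
      ring
  obtain ⟨g₀, hg₀, hg⟩ := Pool.Agent.E1.localEq_common h₁ h₂
    (a := fun y : (ℂ × ℂ) × (ℂ × ℂ) => (∏ i, eval (σ y.1).ofLp (H i)) ^ (m₁ + 1) * θ₁.toFun (σ y.1) (fderiv ℂ σ y.1 y.2))
    (b := fun y : (ℂ × ℂ) × (ℂ × ℂ) => (∏ i, eval (σ y.1).ofLp (H i)) ^ (m₂ + 1) * θ₂.toFun (σ y.1) (fderiv ℂ σ y.1 y.2))
    (fun v => X3_an hX hH θ₁ hθ₁ hσ v) (fun v => X3_an hX hH θ₂ hθ₂ hσ v) (hs θ₁) (hs θ₂)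
  refine ⟨fun p => (∏ i, eval (σ p).ofLp (H i)) * g₀ p, hev.mul hg₀, ?_⟩
  filter_upwards [hg, hnb, Pool.Agent.E2.tan_chart hX hσ, hσ.near] with p hp hn ht hc
  by_cases h0 : (∏ i, eval (σ p).ofLp (H i)) = 0
  · simp only [h0, zero_mul, iff_true]
    obtain ⟨i, _, hi⟩ := Finset.prod_eq_zero_iff.1 h0
    exact Or.inr ⟨ht.1, i, hi⟩
  have hKp : ∀ᶠ q in 𝓝 p, σ q ∈ openCone P H := hn.2 h0
  have hb : σ p ∉ {x : EN N | x ∈ coneE P ∧ ∃ i, eval x.ofLp (H i) = 0} := by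
    rintro ⟨_, i, hi⟩
    exact hKp.self_of_nhds.2 i hi
  rw [mul_eq_zero, or_iff_right h0, hp]
  constructor
  · rintro (⟨hx, w, hw, hne, e1, e2⟩ | h)
    · obtain ⟨v, a, hv⟩ := ht.2 w (E2_tan' hK hw)
      have hTv := Pool.Agent.E2.tan_fderiv_chart hn.1 hKp v
      refine ⟨v, ?_, ?_, ?_⟩
      · rintro rfl
        apply hne a
        rw [hv, map_zero, zero_add]
      · show _ * _ = _
        rw [hv, θ₁.add_smul _ _ hTv] at e1
        rw [e1, mul_zero]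
      · show _ * _ = _
        rw [hv, θ₂.add_smul _ _ hTv] at e2
        rw [e2, mul_zero]
    · exact absurd h hb
  · rintro ⟨v, hv0, e1, e2⟩
    refine Or.inl ⟨hKp.self_of_nhds, fderiv ℂ σ p v, Pool.Agent.E2.tan_fderiv_chart hn.1 hKp v, fun a ha => hv0 ?_, ?_, ?_⟩
    · have h3 : fderiv ℂ (fun x => σ (p + x)) 0 v = a • σ (p + 0) := by
        rw [fderiv_comp_add_left, add_zero]
        exact ha
      exact (Pool.Agent.H62.BU.toChart hc).indep h3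
    · exact (mul_eq_zero.1 e1).resolve_left (pow_ne_zero _ h0)
    · exact (mul_eq_zero.1 e2).resolve_left (pow_ne_zero _ h0)

end Pool.Agent.SDA

end
end

section

/-!
# SDA X4: two coprime logarithmic symmetric differentials

The common null curves of two coprime logarithmic symmetric differentials lie in one algebraic curve.
-/

set_option autoImplicit false

open Topology Filter Metric MvPolynomial

noncomputable section

namespace Pool.Agent.SDA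

open Pool.Agent.H36.BP (EN wd)
open Pool.Agent.H14.PP (IsCone Tan IsOpenPart)
open Pool.Agent.H14.V (IsLift)
open Pool.Agent.H17 (PN VanishesAt HolomorphicInto)
open Pool.Agent.H17BP (Surface IsChart LocalEq)
open Pool.Agent.H62.FC (Homog)
open Pool.Agent.H17LG.Variety (FunField)
open Pool.Agent.H17EF (coneE projVar)
open Pool.Agent.H13.SM (conTan)
open Pool.Agent.H22.W (tan_smul tan_curve)
open Pool.Agent.AD (SymDiff TangentTo)
open Pool.Agent.AD.NC (complement)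
open Pool.Agent.E1 (ComNull)

variable {N k : ℕ} {P : Ideal (MvPolynomial (Fin (N + 1)) ℂ)} {H : Fin k → MvPolynomial (Fin (N + 1)) ℂ} {e : Fin k → ℕ}

/-- the open cone is an open part of the cone -/
theorem X4_openPart (hX : IsCone (coneE P)) (hH : ∀ i, (H i).IsHomogeneous (e i)) : IsOpenPart (coneE P) (openCone P H) where
  subset _ hx := hx.1
  smul_mem x hx c hc := by
    refine ⟨hX.smul_mem x hx.1 c hc, fun i => ?_⟩
    have h1 : (c • x).ofLp = c • x.ofLp := rfl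
    rw [h1, Pool.Agent.H17EF.eval_smul_form (hH i) c x.ofLp]
    exact mul_ne_zero (pow_ne_zero _ hc) (hx.2 i)
  rel_open x hx := by
    have h3 : ∀ᶠ y : EN N in 𝓝 x, ∀ i, eval y.ofLp (H i) ≠ 0 := by
      rw [eventually_all]
      exact fun i => (E1_an (H i) x).continuousAt.eventually_ne (hx.2 i)
    filter_upwards [h3] with y hy hyX
    exact ⟨hyX, hy⟩

/-- the points with a common null direction form a cone -/
theorem X4_comNull_smul {X K : Set (EN N)} (hX : IsCone X) (hK : IsOpenPart X K) {m₁ m₂ : ℕ} (θ₁ : SymDiff K m₁) (θ₂ : SymDiff K m₂) :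
    ∀ x ∈ ComNull θ₁ θ₂, ∀ c : ℂ, c ≠ 0 → c • x ∈ ComNull θ₁ θ₂ := by
  rintro x ⟨hx, v, hv, hne, h1, h2⟩ c hc
  have hvX : Tan X x v := E2_tan' hK hv
  refine ⟨hK.smul_mem x hx c hc, c • v, E2_tan hK (hK.smul_mem x hx c hc) (tan_smul hX hvX hc), fun a ha => ?_, ?_, ?_⟩
  · apply hne a
    have h3 : c⁻¹ • c • v = c⁻¹ • a • c • x := by rw [ha]
    rw [smul_smul, inv_mul_cancel₀ hc, one_smul, smul_comm a c x, smul_smul c⁻¹ c, inv_mul_cancel₀ hc, one_smul] at h3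
    exact h3
  · rw [θ₁.scale x v hv c hc, h1]
  · rw [θ₂.scale x v hv c hc, h2]

/-- two lifts of the same curve -/
theorem X4_lift {f : ℂ → PN N} {F G : ℂ → EN N} (hF : IsLift F f) (hG : IsLift G f) (z : ℂ) :
    ∃ c a : ℂ, c ≠ 0 ∧ F z = c • G z ∧ deriv F z = c • deriv G z + a • G z := by
  have hG0 : G z ≠ 0 := hG.ne_zero z
  obtain ⟨j, hj⟩ : ∃ j, (G z) j ≠ 0 := by
    by_contra hcon
    push Not at hcon
    exact hG0 (by ext i; exact hcon i)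
  have hcoord : ∀ {E : ℂ → EN N}, Differentiable ℂ E → Differentiable ℂ fun w => E w j := fun {E} hE =>
    (EuclideanSpace.proj (𝕜 := ℂ) j : EN N →L[ℂ] ℂ).differentiable.comp hE
  obtain ⟨u, hu⟩ : ∃ u : ℂ → ℂ, u = fun w => F w j / G w j := ⟨_, rfl⟩
  have hua : DifferentiableAt ℂ u z := by
    rw [hu]
    exact (hcoord hF.1 z).div (hcoord hG.1 z) hj
  have hrel : ∀ᶠ w in 𝓝 z, F w = u w • G w ∧ u w ≠ 0 := by
    filter_upwards [(hcoord hG.1 z).continuousAt.eventually_ne hj] with w h3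
    obtain ⟨h4, h5⟩ := hF.2 w
    obtain ⟨h6, h7⟩ := hG.2 w
    rw [h5, Projectivization.mk_eq_mk_iff'] at h7
    obtain ⟨a, ha⟩ := h7
    have ha' : ∀ i, a * G w i = F w i := fun i => congrFun ha i
    have hka' : u w = a := by
      rw [hu]
      simp only
      rw [← ha' j]
      field_simp
    refine ⟨?_, ?_⟩
    · rw [hka']
      ext i
      exact (ha' i).symm
    · rw [hka']
      rintro rfl
      apply h4
      funext i
      rw [← ha' i, zero_mul]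
      rfl
  have hd : HasDerivAt F (u z • deriv G z + deriv u z • G z) z := by
    have h1 : HasDerivAt (fun w => u w • G w) (u z • deriv G z + deriv u z • G z) z :=
      hua.hasDerivAt.smul (hG.1 z).hasDerivAt
    exact h1.congr_of_eventuallyEq (hrel.mono fun w hw => hw.1)
  have h0 := hrel.self_of_nhds
  exact ⟨u z, deriv u z, h0.2, h0.1, hd.deriv⟩

/-- a curve which is projectively stationary on an open set is constant -/
theorem X4_const {F : ℂ → EN N} {f : ℂ → PN N} (hF : IsLift F f) {z₀ : ℂ} (h0 : ∀ᶠ z in 𝓝 z₀, ∃ a : ℂ, deriv F z = a • F z) (z w : ℂ) :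
    f z = f w := by
  have hne : ∀ z, F z ≠ 0 := fun z => hF.ne_zero z
  have hcoord : ∀ {E : ℂ → EN N}, Differentiable ℂ E → ∀ j : Fin (N + 1), Differentiable ℂ fun w => E w j := fun {E} hE j =>
    (EuclideanSpace.proj (𝕜 := ℂ) j : EN N →L[ℂ] ℂ).differentiable.comp hE
  have hd : Differentiable ℂ (deriv F) := (hF.1.contDiff (n := 2)).differentiable_deriv_two
  -- the minors vanish
  have hmn : ∀ (i j : Fin (N + 1)) (z : ℂ), F z i * deriv F z j - F z j * deriv F z i = 0 := by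
    intro i j
    have hdiff : Differentiable ℂ fun z => F z i * deriv F z j - F z j * deriv F z i :=
      ((hcoord hF.1 i).mul (hcoord hd j)).sub ((hcoord hF.1 j).mul (hcoord hd i))
    have h2 : (fun z => F z i * deriv F z j - F z j * deriv F z i) =ᶠ[𝓝 z₀] fun _ => 0 := by
      filter_upwards [h0] with w hw
      obtain ⟨a, ha⟩ := hw
      rw [ha, PiLp.smul_apply, PiLp.smul_apply, smul_eq_mul, smul_eq_mul]
      ring
    have h3 : AnalyticOnNhd ℂ (fun z => F z i * deriv F z j - F z j * deriv F z i) Set.univ := fun w _ => hdiff.analyticAt w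
    have h4 := h3.eq_of_eventuallyEq (g := fun _ => 0) (fun w _ => analyticAt_const) h2
    exact fun z => congrFun h4 z
  have hwd : ∀ z, wd (F z) (deriv F z) = 0 := by
    intro z
    rw [Pool.Agent.H36.BP.wd_eq_zero (hne z)]
    obtain ⟨i, hi⟩ : ∃ i, F z i ≠ 0 := by
      by_contra hcon
      push Not at hcon
      exact hne z (by ext i; exact hcon i)
    refine ⟨deriv F z i / F z i, ?_⟩
    ext j
    rw [PiLp.smul_apply, smul_eq_mul, div_mul_eq_mul_div, eq_div_iff hi]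
    linear_combination hmn i j z
  have hloc : IsLocallyConstant f := by
    refine (IsLocallyConstant.iff_eventually_eq f).2 fun x => ?_
    have h1 := Pool.Agent.H36.BP.const_of_wedge (hF.1.analyticAt x) (hne x) (Eventually.of_forall hwd)
    filter_upwards [h1] with y hy
    obtain ⟨c, hc, hy⟩ := hy
    obtain ⟨a1, a2⟩ := hF.2 y
    obtain ⟨b1, b2⟩ := hF.2 x
    rw [a2, b2, Projectivization.mk_eq_mk_iff']
    refine ⟨c, ?_⟩
    rw [hy]
    rfl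
  exact hloc.apply_eq_of_preconnectedSpace z w

/-- a nonconstant curve in the open part which is tangent to both differentials lies in every hypersurface through the points with a common null
direction -/
theorem X4_vanishes {X : Set (EN N)} {K : Set (EN N)} (hX : IsCone X) (hK : IsOpenPart X K) {m₁ m₂ : ℕ}
    (θ₁ : SymDiff K m₁) (θ₂ : SymDiff K m₂) {R : MvPolynomial (Fin (N + 1)) ℂ} {d : ℕ} (hR : R.IsHomogeneous d)
    (hZ : ∀ x ∈ ComNull θ₁ θ₂, eval x.ofLp R = 0) {f : ℂ → PN N} {F G : ℂ → EN N} (hF : IsLift F f) (hG : IsLift G f)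
    (hFK : ∀ z, F z ∈ K) (hne : ∃ z w, f z ≠ f w) (h₁ : ∀ z, θ₁.toFun (F z) (deriv F z) = 0)
    (h₂ : ∀ z, θ₂.toFun (G z) (deriv G z) = 0) (z : ℂ) : VanishesAt R (f z) := by
  have hFX : ∀ z, F z ∈ X := fun z => hK.subset (hFK z)
  have hGX : ∀ z, G z ∈ X := fun z => by
    obtain ⟨c, a, hc, h3, -⟩ := X4_lift hG hF z
    rw [h3]
    exact hX.smul_mem _ (hFX z) c hc
  have hGK : ∀ z, G z ∈ K := fun z => by
    obtain ⟨c, a, hc, h3, -⟩ := X4_lift hG hF z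
    rw [h3]
    exact hK.smul_mem _ (hFK z) c hc
  -- the second differential along the first lift
  have h₂' : ∀ z, θ₂.toFun (F z) (deriv F z) = 0 := fun z => by
    obtain ⟨c, a, hc, h3, h4⟩ := X4_lift hF hG z
    rw [h3, h4, E2_inv hX hK θ₂ (hGK z) (tan_curve ⟨hG.1.analyticAt z, Eventually.of_forall hGX⟩) hc a, h₂ z]
  -- the values of the form
  have hRd : Differentiable ℂ fun z => eval (F z).ofLp R := fun z =>
    ((E1_an R (F z)).differentiableAt).comp z (hF.1 z)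
  have hzero : eval (F z).ofLp R = 0 := by
    by_contra hz
    have h5 : ∀ᶠ w in 𝓝 z, eval (F w).ofLp R ≠ 0 := (hRd z).continuousAt.eventually_ne hz
    have h6 : ∀ᶠ w in 𝓝 z, ∃ a : ℂ, deriv F w = a • F w := by
      filter_upwards [h5] with w hw
      by_contra h7
      refine hw (hZ _ ⟨hFK w, deriv F w, E2_tan hK (hFK w) (tan_curve ⟨hF.1.analyticAt w, Eventually.of_forall hFX⟩), fun a ha => h7 ⟨a, ha⟩, h₁ w, h₂' w⟩)
    obtain ⟨w₁, w₂, hw⟩ := hne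
    exact hw (X4_const hF h6 w₁ w₂)
  obtain ⟨h5, h6⟩ := hF.2 z
  show eval (f z).rep R = 0
  rw [h6]
  obtain ⟨a, ha, hrep⟩ := Pool.Agent.H36.BP.rep_mk h5
  rw [hrep, Pool.Agent.H17EF.eval_smul_form hR a (F z).ofLp, hzero, mul_zero]

/-- the exceptional set is thin -/
theorem X4_thin [P.IsPrime] {z : Fin 2 → FunField P} (hP : Homog P) (hz : IsTranscendenceBasis ℂ z)
    (hsm : ∀ y : Fin (N + 1) → ℂ, y ≠ 0 → (∀ Q ∈ P, eval y Q = 0) → Module.finrank ℂ (conTan P y) ≤ 3)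
    (hH : ∀ i, (H i).IsHomogeneous (e i)) (hHP : ∀ i, H i ∉ P) {m₁ m₂ : ℕ}
    (θ₁ : SymDiff (openCone P H) m₁) (θ₂ : SymDiff (openCone P H) m₂)
    (hd : openCone P H ⊆ closure (openCone P H \ ComNull θ₁ θ₂)) {σ : ℂ × ℂ → EN N} {τ : EN N → ℂ × ℂ} (h : IsChart (coneE P) σ τ) :
    ¬ ∀ᶠ p in 𝓝 (0 : ℂ × ℂ), σ p ∈ ComNull θ₁ θ₂ ∪ {x | x ∈ coneE P ∧ ∃ i, eval x.ofLp (H i) = 0} := by
  intro hall
  have hc : IsCone (coneE P) := Pool.Agent.AD.isCone_coneE hP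
  have hK := X4_openPart hc hH
  have hQ : (∏ i, H i).IsHomogeneous (∑ i, e i) := IsHomogeneous.prod Finset.univ _ _ fun i _ => hH i
  have hQP : ∏ i, H i ∉ P := by
    intro h1
    obtain ⟨i, -, hi⟩ := (Ideal.IsPrime.prod_mem_iff (p := P)).1 h1
    exact hHP i hi
  have hfr := Pool.Agent.H90.SG.thin_coneE hP hz hsm hQ hQP h
  have e1 := hall.eventually_nhds
  have hσt : Tendsto σ (𝓝 0) (𝓝 (σ 0)) := h.σ_an.continuousAt
  have e3 := hσt.eventually h.right.eventually_nhds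
  have e4 := hσt.eventually h.τ_an.eventually_analyticAt
  obtain ⟨p, hp, hp1, hp2, hp3, hp4, hp5⟩ := (hfr.and_eventually (e1.and (h.σ_mem.and (e3.and (e4.and h.left))))).exists
  have hpO : σ p ∈ openCone P H := ⟨hp2, fun i hi => hp (by
    rw [map_prod]
    exact Finset.prod_eq_zero (Finset.mem_univ i) hi)⟩
  have hcl := mem_closure_iff_frequently.1 (hd hpO)
  have hτ : Tendsto τ (𝓝 (σ p)) (𝓝 p) := by
    have h1 : Tendsto τ (𝓝 (σ p)) (𝓝 (τ (σ p))) := hp4.continuousAt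
    rwa [hp5] at h1
  obtain ⟨y, hy, hy1, hy2⟩ := (hcl.and_eventually ((hτ.eventually hp1).and hp3)).exists
  obtain ⟨c, hc0, hyc⟩ := hy2 hy.1.1
  rcases hy1 with h1 | ⟨-, i, hi⟩
  · refine hy.2 ?_
    rw [hyc]
    exact X4_comNull_smul hc hK θ₁ θ₂ _ h1 c hc0
  · refine hy.1.2 i ?_
    have h2 : y.ofLp = c • (σ (τ y)).ofLp := congrArg (fun v : EN N => v.ofLp) hyc
    rw [h2, Pool.Agent.H17EF.eval_smul_form (hH i), hi, mul_zero]

/-- MODULE X4: two coprime logarithmic symmetric differentials (`localEq_log`, `E1` `exists_form_of_analytic`, `X4_vanishes`) -/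
theorem exists_R_log [P.IsPrime] {z : Fin 2 → FunField P} (hP : Homog P) (hz : IsTranscendenceBasis ℂ z)
    (hsm : ∀ y : Fin (N + 1) → ℂ, y ≠ 0 → (∀ Q ∈ P, eval y Q = 0) → Module.finrank ℂ (conTan P y) ≤ 3)
    (hH : ∀ i, (H i).IsHomogeneous (e i)) (hHP : ∀ i, H i ∉ P) {m₁ m₂ : ℕ} (h₁ : 1 ≤ m₁) (h₂ : 1 ≤ m₂)
    (θ₁ : SymDiff (openCone P H) m₁) (θ₂ : SymDiff (openCone P H) m₂) (hθ₁ : VanishesOnStatic e θ₁) (hθ₂ : VanishesOnStatic e θ₂)
    (hd : openCone P H ⊆ closure (openCone P H \ ComNull θ₁ θ₂)) :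
    ∃ (R : MvPolynomial (Fin (N + 1)) ℂ) (d : ℕ), R.IsHomogeneous d ∧ R ∉ P ∧ ∀ f : ℂ → PN N, HolomorphicInto f Set.univ →
      (∀ z, f z ∈ complement P H) → (∃ z w, f z ≠ f w) → TangentTo θ₁ f → TangentTo θ₂ f → ∀ z, VanishesAt R (f z) := by
  have hX : Surface (coneE P) := Pool.Agent.H90.SG.surface_coneE hP hz hsm
  have hc : IsCone (coneE P) := Pool.Agent.AD.isCone_coneE hP
  have hK := X4_openPart hc hH
  obtain ⟨R, d, hR, hRP, hRZ⟩ := Pool.Agent.E1.exists_form_of_analytic hz hX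
    (Z := ComNull θ₁ θ₂ ∪ {x | x ∈ coneE P ∧ ∃ i, eval x.ofLp (H i) = 0})
    (fun x hx => hx.elim (fun h => h.1.1) fun h => h.1)
    (fun x hx c hc0 => hx.elim (fun h => Or.inl (X4_comNull_smul hc hK θ₁ θ₂ x h c hc0)) fun h => Or.inr
      ⟨hc.smul_mem x h.1 c hc0, h.2.imp fun i hi => by
        have h2 : (c • x).ofLp = c • x.ofLp := rfl
        rw [h2, Pool.Agent.H17EF.eval_smul_form (hH i), hi, mul_zero]⟩)
    (fun x hx => by
      obtain ⟨σ, τ, hσ, h0⟩ := hX.chart x hx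
      obtain ⟨g, hg⟩ := localEq_log hX hH h₁ h₂ θ₁ θ₂ hθ₁ hθ₂ hσ
      refine ⟨σ, τ, g, hσ, h0, hg, fun h3 => X4_thin hP hz hsm hH hHP θ₁ θ₂ hd hσ ?_⟩
      filter_upwards [hg.2, h3] with p hp1 hp2 using hp1.2 hp2)
  refine ⟨R, d, hR, hRP, fun f hf hfU hne h1 h2 => ?_⟩
  obtain ⟨F, hF, hF1⟩ := h1
  obtain ⟨G, hG, hG1⟩ := h2
  have hFK : ∀ z, F z ∈ openCone P H := fun z => by
    refine ⟨(hF.mem_iff hP z).1 (hfU z).1, fun i hi => (hfU z).2 i ?_⟩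
    obtain ⟨h5, h6⟩ := hF.2 z
    show eval (f z).rep (H i) = 0
    rw [h6]
    obtain ⟨a, ha, hrep⟩ := Pool.Agent.H36.BP.rep_mk h5
    rw [hrep, Pool.Agent.H17EF.eval_smul_form (hH i) a (F z).ofLp, hi, mul_zero]
  exact X4_vanishes hc hK θ₁ θ₂ hR (fun x hx => hRZ x (Or.inl hx)) hF hG hFK hne hF1 hG1

end Pool.Agent.SDA

end
end

section

/-!
# SR3 CopA: two coprime algebraic symmetric differentials

The common null curves of two coprime algebraic symmetric differentials lie in one algebraic curve: with `H ^ (r + 1)` the differentials extend across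
`{H = 0}` in every chart.
-/

set_option autoImplicit false

open Topology Filter Metric MvPolynomial

noncomputable section

namespace Pool.Agent.SR3

open Pool.Agent.H36.BP (EN fs)
open Pool.Agent.H17BP (Surface IsChart IsForm NoZeros LocalEq)
open Pool.Agent.H36.BPL (PoleLE)
open Pool.Agent.H14.PP (IsCone Tan IsOpenPart)
open Pool.Agent.H17 (PN VanishesAt HolomorphicInto)
open Pool.Agent.H62.FC (Homog)
open Pool.Agent.H17LG.Variety (FunField IsLogGeneralType)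
open Pool.Agent.H13.OT (OrderTwo)
open Pool.Agent.H17EF (projVar coneE)
open Pool.Agent.AD (SymDiff TangentTo)
open Pool.Agent.AD.NC (IsSmooth IsOfLogGeneralType)
open Pool.Agent.SDA (openCone AffOpen IsHyperbolicOpen)
open Pool.Agent.E1 (ComNull)

variable {N k M : ℕ}

variable {P : Ideal (MvPolynomial (Fin (N + 1)) ℂ)} {H : MvPolynomial (Fin (N + 1)) ℂ} {h : ℕ} {E : Fin k → Fin (M + 1) → MvPolynomial (Fin (N + 1)) ℂ}
  {c b : Fin k → ℕ}

/-- near `0` the points off the boundary have a neighbourhood in the open cone -/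
theorem CopA_near {σ : ℂ × ℂ → EN N} {τ : EN N → ℂ × ℂ} (hσ : IsChart (coneE P) σ τ) :
    ∀ᶠ p in 𝓝 (0 : ℂ × ℂ), AnalyticAt ℂ σ p ∧ (eval (σ p).ofLp H ≠ 0 → ∀ᶠ q in 𝓝 p, σ q ∈ oc P H) := by
  have hev : AnalyticAt ℂ (fun p => eval (σ p).ofLp H) 0 :=
    AnalyticAt.comp (g := fun x : EN N => eval x.ofLp H) (f := σ) (Pool.Agent.SDA.E1_an H _) hσ.σ_an
  filter_upwards [hσ.σ_an.eventually_analyticAt, hσ.σ_mem.eventually_nhds, hev.eventually_analyticAt] with p h1 h2 h3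
  refine ⟨h1, fun hp => ?_⟩
  filter_upwards [h2, h3.continuousAt.eventually_ne hp] with q hq hq0
  exact ⟨hq, fun _ => hq0⟩

/-- `H ^ (r + 1) * θ` is holomorphic in a chart -/
theorem CopA_an {m : ℕ} (θ : SymDiff (oc P H) m) {W : MvPolynomial (Fin (N + 1) ⊕ Fin (N + 1)) ℂ} {r : ℕ}
    (hW : ∀ x ∈ oc P H, ∀ v, Tan (oc P H) x v → θ.toFun x v * eval x.ofLp H ^ r = eval (Sum.elim x.ofLp v.ofLp) W)
    {σ : ℂ × ℂ → EN N} {τ : EN N → ℂ × ℂ} (hσ : IsChart (coneE P) σ τ) (v : ℂ × ℂ) :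
    AnalyticAt ℂ (fun y : (ℂ × ℂ) × (ℂ × ℂ) => eval (σ y.1).ofLp H ^ (r + 1) * θ.toFun (σ y.1) (fderiv ℂ σ y.1 y.2)) (0, v) := by
  have hfst : Tendsto (Prod.fst : (ℂ × ℂ) × (ℂ × ℂ) → ℂ × ℂ) (𝓝 ((0 : ℂ × ℂ), v)) (𝓝 0) := continuousAt_fst
  have h0 : AnalyticAt ℂ (fun y : (ℂ × ℂ) × (ℂ × ℂ) => σ y.1) (0, v) :=
    AnalyticAt.comp (g := σ) (f := Prod.fst) (x := ((0 : ℂ × ℂ), v)) hσ.σ_an analyticAt_fst
  have h1 : AnalyticAt ℂ (fun y : (ℂ × ℂ) × (ℂ × ℂ) => eval (σ y.1).ofLp H) (0, v) :=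
    AnalyticAt.comp (g := fun x : EN N => eval x.ofLp H) (f := fun y : (ℂ × ℂ) × (ℂ × ℂ) => σ y.1) (x := ((0 : ℂ × ℂ), v))
      (Pool.Agent.SDA.E1_an H _) h0
  have h2 : AnalyticAt ℂ (fun y : (ℂ × ℂ) × (ℂ × ℂ) => fderiv ℂ σ y.1 y.2) (0, v) := by
    have h3 : AnalyticAt ℂ (fun y : (ℂ × ℂ) × (ℂ × ℂ) => fderiv ℂ σ y.1) (0, v) :=
      AnalyticAt.comp (g := fderiv ℂ σ) (f := Prod.fst) (x := ((0 : ℂ × ℂ), v)) hσ.σ_an.fderiv analyticAt_fst
    exact AnalyticAt.comp (g := fun q : (ℂ × ℂ →L[ℂ] EN N) × (ℂ × ℂ) => (ContinuousLinearMap.id ℂ (ℂ × ℂ →L[ℂ] EN N)) q.1 q.2)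
      (f := fun y : (ℂ × ℂ) × (ℂ × ℂ) => (fderiv ℂ σ y.1, y.2)) (x := ((0 : ℂ × ℂ), v))
      ((ContinuousLinearMap.id ℂ (ℂ × ℂ →L[ℂ] EN N)).analyticAt_bilinear _) (h3.prod analyticAt_snd)
  have hco : ∀ {g : (ℂ × ℂ) × (ℂ × ℂ) → EN N}, AnalyticAt ℂ g (0, v) → ∀ j : Fin (N + 1), AnalyticAt ℂ (fun y => (g y).ofLp j) (0, v) := by
    intro g hg j
    exact ((EuclideanSpace.proj (𝕜 := ℂ) j : EN N →L[ℂ] ℂ).analyticAt _).comp hg
  have h4 : AnalyticAt ℂ (fun y : (ℂ × ℂ) × (ℂ × ℂ) => eval (Sum.elim (σ y.1).ofLp (fderiv ℂ σ y.1 y.2).ofLp) W) (0, v) := by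
    have h5 := AnalyticAt.aeval_mvPolynomial (𝕜 := ℂ) (f := fun (y : (ℂ × ℂ) × (ℂ × ℂ)) (i : Fin (N + 1) ⊕ Fin (N + 1)) =>
      Sum.elim (σ y.1).ofLp (fderiv ℂ σ y.1 y.2).ofLp i) (z := ((0 : ℂ × ℂ), v)) (fun i => by
        cases i with
        | inl j => exact hco h0 j
        | inr j => exact hco h2 j) W
    exact h5
  refine (h1.mul h4).congr ?_
  filter_upwards [hfst.eventually (CopA_near (H := H) hσ)] with y hy
  by_cases hz : eval (σ y.1).ofLp H = 0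
  · simp [hz]
  · have h5 := hy.2 hz
    have h6 := hW _ h5.self_of_nhds _ (Pool.Agent.E2.tan_fderiv_chart hy.1 h5 y.2)
    show eval (σ y.1).ofLp H * eval (Sum.elim (σ y.1).ofLp (fderiv ℂ σ y.1 y.2).ofLp) W = _
    rw [← h6, pow_succ]
    ring

/-- the local equation -/
theorem CopA_localEq (hX : Surface (coneE P)) (hH : H.IsHomogeneous h) {m₁ m₂ : ℕ} (h₁ : 1 ≤ m₁) (h₂ : 1 ≤ m₂)
    (θ₁ : SymDiff (oc P H) m₁) (θ₂ : SymDiff (oc P H) m₂) (hθ₁ : IsAlg θ₁) (hθ₂ : IsAlg θ₂)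
    {σ : ℂ × ℂ → EN N} {τ : EN N → ℂ × ℂ} (hσ : IsChart (coneE P) σ τ) :
    ∃ g : ℂ × ℂ → ℂ, LocalEq (ComNull θ₁ θ₂ ∪ {x | x ∈ coneE P ∧ eval x.ofLp H = 0}) σ g := by
  have hK : IsOpenPart (coneE P) (oc P H) := Pool.Agent.SDA.X3_openPart (H := fun _ : Fin 1 => H) (e := fun _ => h) hX.smul fun _ => hH
  obtain ⟨W₁, r₁, hW₁⟩ := hθ₁
  obtain ⟨W₂, r₂, hW₂⟩ := hθ₂
  have hev : AnalyticAt ℂ (fun p => eval (σ p).ofLp H) 0 :=
    AnalyticAt.comp (g := fun x : EN N => eval x.ofLp H) (f := σ) (Pool.Agent.SDA.E1_an H _) hσ.σ_an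
  have hnb := CopA_near (H := H) hσ
  have hs : ∀ {m : ℕ} (r : ℕ) (θ : SymDiff (oc P H) m), ∀ᶠ p in 𝓝 (0 : ℂ × ℂ), ∀ (c : ℂ) (v : ℂ × ℂ),
      eval (σ p).ofLp H ^ (r + 1) * θ.toFun (σ p) (fderiv ℂ σ p (c • v)) =
      c ^ m * (eval (σ p).ofLp H ^ (r + 1) * θ.toFun (σ p) (fderiv ℂ σ p v)) := by
    intro m r θ
    filter_upwards [hnb] with p hp c v
    by_cases h0 : eval (σ p).ofLp H = 0
    · rw [h0, zero_pow (Nat.succ_ne_zero r), zero_mul, zero_mul, mul_zero]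
    · rw [map_smul, θ.smul _ _ (Pool.Agent.E2.tan_fderiv_chart hp.1 (hp.2 h0) v)]
      ring
  obtain ⟨g₀, hg₀, hg⟩ := Pool.Agent.E1.localEq_common h₁ h₂
    (a := fun y : (ℂ × ℂ) × (ℂ × ℂ) => eval (σ y.1).ofLp H ^ (r₁ + 1) * θ₁.toFun (σ y.1) (fderiv ℂ σ y.1 y.2))
    (b := fun y : (ℂ × ℂ) × (ℂ × ℂ) => eval (σ y.1).ofLp H ^ (r₂ + 1) * θ₂.toFun (σ y.1) (fderiv ℂ σ y.1 y.2))
    (fun v => CopA_an θ₁ hW₁ hσ v) (fun v => CopA_an θ₂ hW₂ hσ v) (hs r₁ θ₁) (hs r₂ θ₂)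
  refine ⟨fun p => eval (σ p).ofLp H * g₀ p, hev.mul hg₀, ?_⟩
  filter_upwards [hg, hnb, Pool.Agent.E2.tan_chart hX hσ, hσ.near] with p hp hn ht hc
  by_cases h0 : eval (σ p).ofLp H = 0
  · simp only [h0, zero_mul, iff_true]
    exact Or.inr ⟨ht.1, h0⟩
  have hKp : ∀ᶠ q in 𝓝 p, σ q ∈ oc P H := hn.2 h0
  have hb : σ p ∉ {x : EN N | x ∈ coneE P ∧ eval x.ofLp H = 0} := by
    rintro ⟨_, hi⟩
    exact h0 hi
  rw [mul_eq_zero, or_iff_right h0, hp]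
  constructor
  · rintro (⟨hx, w, hw, hne, e1, e2⟩ | h)
    · obtain ⟨v, a, hv⟩ := ht.2 w (Pool.Agent.SDA.E2_tan' hK hw)
      have hTv := Pool.Agent.E2.tan_fderiv_chart hn.1 hKp v
      refine ⟨v, ?_, ?_, ?_⟩
      · rintro rfl
        apply hne a
        rw [hv, map_zero, zero_add]
      · show _ * _ = _
        rw [hv, θ₁.add_smul _ _ hTv] at e1
        rw [e1, mul_zero]
      · show _ * _ = _
        rw [hv, θ₂.add_smul _ _ hTv] at e2
        rw [e2, mul_zero]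
    · exact absurd h hb
  · rintro ⟨v, hv0, e1, e2⟩
    refine Or.inl ⟨hKp.self_of_nhds, fderiv ℂ σ p v, Pool.Agent.E2.tan_fderiv_chart hn.1 hKp v, fun a ha => hv0 ?_, ?_, ?_⟩
    · have h3 : fderiv ℂ (fun x => σ (p + x)) 0 v = a • σ (p + 0) := by
        rw [fderiv_comp_add_left, add_zero]
        exact ha
      exact (Pool.Agent.H62.BU.toChart hc).indep h3
    · exact (mul_eq_zero.1 e1).resolve_left (pow_ne_zero _ h0)
    · exact (mul_eq_zero.1 e2).resolve_left (pow_ne_zero _ h0)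

/-- MODULE H15 (CopA.lean): two coprime algebraic symmetric differentials (`SDA/X3`, `SDA/X4`, where the extension of the forms across `{H = 0}` follows from
`IsAlg` instead of `VanishesOnStatic`) -/
theorem exists_R_alg [P.IsPrime] {z : Fin 2 → FunField P} (hP : Homog P) (hz : IsTranscendenceBasis ℂ z) (hsm : IsSmooth P 2)
    (hH : H.IsHomogeneous h) (h1 : 1 ≤ h) (hHP : H ∉ P) {m₁ m₂ : ℕ} (h₁ : 1 ≤ m₁) (h₂ : 1 ≤ m₂)
    (θ₁ : SymDiff (oc P H) m₁) (θ₂ : SymDiff (oc P H) m₂) (hθ₁ : IsAlg θ₁) (hθ₂ : IsAlg θ₂)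
    (hd : oc P H ⊆ closure (oc P H \ Pool.Agent.E1.ComNull θ₁ θ₂)) :
    ∃ (R : MvPolynomial (Fin (N + 1)) ℂ) (d : ℕ), R.IsHomogeneous d ∧ R ∉ P ∧ ∀ f : ℂ → PN N, HolomorphicInto f Set.univ →
      (∀ z, f z ∈ projVar P ∧ ¬ VanishesAt H (f z)) → (∃ z w, f z ≠ f w) → TangentTo θ₁ f → TangentTo θ₂ f → ∀ z, VanishesAt R (f z) := by
  have hsm' : ∀ y : Fin (N + 1) → ℂ, y ≠ 0 → (∀ Q ∈ P, eval y Q = 0) → Module.finrank ℂ (Pool.Agent.H13.SM.conTan P y) ≤ 3 := hsm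
  have hX : Surface (coneE P) := Pool.Agent.H90.SG.surface_coneE hP hz hsm'
  have hc : IsCone (coneE P) := Pool.Agent.AD.isCone_coneE hP
  have hK : IsOpenPart (coneE P) (oc P H) := Pool.Agent.SDA.X4_openPart (H := fun _ : Fin 1 => H) (e := fun _ => h) hc fun _ => hH
  obtain ⟨R, d, hR, hRP, hRZ⟩ := Pool.Agent.E1.exists_form_of_analytic hz hX
    (Z := ComNull θ₁ θ₂ ∪ {x | x ∈ coneE P ∧ eval x.ofLp H = 0})
    (fun x hx => hx.elim (fun h => h.1.1) fun h => h.1)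
    (fun x hx c hc0 => hx.elim (fun h => Or.inl (Pool.Agent.SDA.X4_comNull_smul hc hK θ₁ θ₂ x h c hc0)) fun h => Or.inr
      ⟨hc.smul_mem x h.1 c hc0, by
        have h2 : (c • x).ofLp = c • x.ofLp := rfl
        rw [h2, Pool.Agent.H17EF.eval_smul_form hH, h.2, mul_zero]⟩)
    (fun x hx => by
      obtain ⟨σ, τ, hσ, h0⟩ := hX.chart x hx
      obtain ⟨g, hg⟩ := CopA_localEq hX hH h₁ h₂ θ₁ θ₂ hθ₁ hθ₂ hσ
      refine ⟨σ, τ, g, hσ, h0, hg, fun h3 => Pool.Agent.SDA.X4_thin (H := fun _ : Fin 1 => H) (e := fun _ => h) hP hz hsm' (fun _ => hH)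
        (fun _ => hHP) θ₁ θ₂ hd hσ ?_⟩
      filter_upwards [hg.2, h3] with p hp1 hp2
      rcases hp1.2 hp2 with h4 | ⟨h4, h5⟩
      · exact Or.inl h4
      · exact Or.inr ⟨h4, 0, h5⟩)
  refine ⟨R, d, hR, hRP, fun f hf hfU hne h1 h2 => ?_⟩
  obtain ⟨F, hF, hF1⟩ := h1
  obtain ⟨G, hG, hG1⟩ := h2
  have hFK : ∀ z, F z ∈ oc P H := fun z => by
    refine ⟨(hF.mem_iff hP z).1 (hfU z).1, fun _ hi => (hfU z).2 ?_⟩
    obtain ⟨h5, h6⟩ := hF.2 z
    show eval (f z).rep H = 0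
    rw [h6]
    obtain ⟨a, ha, hrep⟩ := Pool.Agent.H36.BP.rep_mk h5
    rw [hrep, Pool.Agent.H17EF.eval_smul_form hH a (F z).ofLp, hi, mul_zero]
  exact Pool.Agent.SDA.X4_vanishes hc hK θ₁ θ₂ hR (fun x hx => hRZ x (Or.inl hx)) hF hG hFK hne hF1 hG1

end Pool.Agent.SR3

end
end
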