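import Pool.Agent.H43.TL2.M169
import Pool.Agent.H43.TL2.M190
import Pool.Agent.H43.TL2.M194
import Pool.Agent.H43.TL2.M85
import Pool.Agent.H43.TL2.SR3.T.Defs

/-! The parts of this file: SDA.RDefs2, SR2.HDefs, SR3.T.CvA, SR3.T.CvG, SR3.G.RigF, SR3.G.OneF, MQL.LogA, MQL.Dns. -/

section

/-!
# SDA RDefs2: the condition on the entire curves which are tangent to the symmetric differentials
-/

set_option autoImplicit false

open MvPolynomial

namespace Pool.Agent.SDA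

open Pool.Agent.H17 (PN VanishesAt HolomorphicInto)
open Pool.Agent.H13.OT (OrderTwo)
open Pool.Agent.AD (SymDiff TangentTo)
open Pool.Agent.AD.NC (complement)
open Pool.Agent.E1 (ComNull)

variable {N k : ℕ}

/-- The entire curves in `U` which are tangent to all symmetric differentials `θ j` are few: those which are not constant and have
`T_f (r) = O (r ^ 2)` lie in one curve `{R = 0}`, or two of the `θ j` have no common null direction at the points of a dense subset of `U`. -/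
inductive FewTangent (P : Ideal (MvPolynomial (Fin (N + 1)) ℂ)) (H : Fin k → MvPolynomial (Fin (N + 1)) ℂ) {s : ℕ} {m : Fin s → ℕ}
    (θ : ∀ j, SymDiff (openCone P H) (m j)) : Prop
  | curve (R : MvPolynomial (Fin (N + 1)) ℂ) (d : ℕ) (hR : R.IsHomogeneous d) (hRP : R ∉ P)
      (h : ∀ f : ℂ → PN N, HolomorphicInto f Set.univ → OrderTwo f → (∀ z, f z ∈ complement P H) → (∃ z w, f z ≠ f w) →
        (∀ j, TangentTo (θ j) f) → ∀ z, VanishesAt R (f z))
  | coprime (i j : Fin s) (h : openCone P H ⊆ closure (openCone P H \ ComNull (θ i) (θ j)))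

end Pool.Agent.SDA

end

section

/-!
# SR HDefs: the definitions of the final statement

`P` is the ideal of a smooth surface `X ⊆ ℙ^N`, `H` a form, `U = X ∖ {H = 0}`; the forms `E i l`, `l ≤ M`, cut out the component `i` of `{H = 0}`.
-/

set_option autoImplicit false

open Topology Filter Metric MvPolynomial

noncomputable section

namespace Pool.Agent.SR2

open Pool.Agent.H36.BP (EN fs)
open Pool.Agent.H17BP (IsChart IsForm NoZeros)
open Pool.Agent.H14.PP (Tan)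
open Pool.Agent.H17 (PN VanishesAt HolomorphicInto)
open Pool.Agent.H17EF (projVar coneE)
open Pool.Agent.AD (SymDiff TangentTo)
open Pool.Agent.SDA (openCone)

variable {N k M : ℕ}

/-- the cone over `U` -/
def oc (P : Ideal (MvPolynomial (Fin (N + 1)) ℂ)) (H : MvPolynomial (Fin (N + 1)) ℂ) : Set (EN N) := openCone P fun _ : Fin 1 => H

/-- The symmetric differential on `U` is given by a polynomial in the coordinates and their differentials, divided by a power of `H`. -/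
def IsAlg {P : Ideal (MvPolynomial (Fin (N + 1)) ℂ)} {H : MvPolynomial (Fin (N + 1)) ℂ} {m : ℕ} (θ : SymDiff (oc P H) m) : Prop :=
  ∃ (W : MvPolynomial (Fin (N + 1) ⊕ Fin (N + 1)) ℂ) (r : ℕ), ∀ x ∈ oc P H, ∀ v, Tan (oc P H) x v →
    θ.toFun x v * eval x.ofLp H ^ r = eval (Sum.elim x.ofLp v.ofLp) W

end Pool.Agent.SR2

end
end

section

/-!
# SR3 T CvA: the compact definitions, analytic half
-/

set_option autoImplicit false

open Topology Filter Metric MvPolynomial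

noncomputable section

namespace Pool.Agent.SR3.T

open Pool.Agent.H36.BP (EN)
open Pool.Agent.H17 (PN VanishesAt HolomorphicInto)
open Pool.Agent.H17EF (coneE projVar)

variable {N M k s : ℕ} {P : Ideal (MvPolynomial (Fin (N + 1)) ℂ)} {H : MvPolynomial (Fin (N + 1)) ℂ}

theorem mem_tan_iff {X : Set (V N)} {x v : V N} : v ∈ Pool.Agent.H17BP.Tan X x ↔ Tan X x v :=
  ⟨fun ⟨γ, h1, h2, h3, h4⟩ => ⟨γ, ⟨h1, h2⟩, h3, h4⟩, fun ⟨γ, ⟨h1, h2⟩, h3, h4⟩ => ⟨γ, h1, h2, h3, h4⟩⟩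

/-- the symmetric differential -/
def toS {X : Set (V N)} {m : ℕ} (θ : SymDiff X m) : Pool.Agent.AD.SymDiff X m := ⟨θ.toFun, θ.add_smul, θ.smul, θ.scale, θ.analytic⟩

theorem sum_sq {n : ℕ} (x : EuclideanSpace ℂ (Fin n)) : ∑ i, ‖x.ofLp i‖ ^ 2 = ‖x‖ ^ 2 := (EuclideanSpace.norm_sq_eq x).symm

theorem sum_inner {n : ℕ} (x v : EuclideanSpace ℂ (Fin n)) : ∑ i, star (x.ofLp i) * v.ofLp i = inner ℂ x v := by
  rw [PiLp.inner_apply]
  refine Finset.sum_congr rfl fun i _ => ?_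
  rw [RCLike.inner_apply, mul_comm]
  rfl

theorem dlog_eq {n : ℕ} (x v : EuclideanSpace ℂ (Fin n)) : dlog x.ofLp v.ofLp = inner ℂ x v / (‖x‖ : ℂ) ^ 2 := by
  unfold dlog
  rw [sum_inner]
  congr 1
  rw [← Complex.ofReal_pow, ← sum_sq]

theorem fs_eq (x v : V N) : fs x.ofLp v.ofLp = Pool.Agent.H36.BP.fs x v := by
  unfold fs Pool.Agent.H36.BP.fs Pool.Agent.H36.BP.wd
  rw [sum_sq, sum_sq, sum_inner]

/-- the derivative of a polynomial along a curve -/
theorem hasDerivAt_poly (Q : MvPolynomial (Fin (N + 1)) ℂ) {c : ℂ → Fin (N + 1) → ℂ} {c' : Fin (N + 1) → ℂ} {t : ℂ}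
    (hc : HasDerivAt c c' t) : HasDerivAt (fun s => eval (c s) Q) (∑ i, c' i * eval (c t) (pderiv i Q)) t := by
  have hci : ∀ i, HasDerivAt (fun s => c s i) (c' i) t := fun i => (hasDerivAt_pi.1 hc) i
  induction Q using MvPolynomial.induction_on with
  | C a =>
    have h1 : (fun s => eval (c s) (C a : MvPolynomial (Fin (N + 1)) ℂ)) = fun _ => a := by
      funext s
      simp
    have h2 : (∑ i, c' i * eval (c t) (pderiv i (C a : MvPolynomial (Fin (N + 1)) ℂ))) = 0 := by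
      refine Finset.sum_eq_zero fun i _ => ?_
      simp
    rw [h1, h2]
    exact hasDerivAt_const t a
  | add p q hp hq =>
    have h1 : (fun s => eval (c s) (p + q)) = fun s => eval (c s) p + eval (c s) q := by
      funext s
      simp
    have h2 : (∑ i, c' i * eval (c t) (pderiv i (p + q))) = (∑ i, c' i * eval (c t) (pderiv i p)) + ∑ i, c' i * eval (c t) (pderiv i q) := by
      rw [← Finset.sum_add_distrib]
      refine Finset.sum_congr rfl fun i _ => ?_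
      rw [map_add, map_add, mul_add]
    rw [h1, h2]
    exact hp.fun_add hq
  | mul_X p j hp =>
    have h1 : (fun s => eval (c s) (p * X j)) = fun s => eval (c s) p * c s j := by
      funext s
      simp
    have h2 : (∑ i, c' i * eval (c t) (pderiv i (p * X j))) = (∑ i, c' i * eval (c t) (pderiv i p)) * c t j + eval (c t) p * c' j := by
      have h3 : ∀ i, c' i * eval (c t) (pderiv i (p * X j)) =
          c' i * eval (c t) (pderiv i p) * c t j + (if i = j then eval (c t) p * c' i else 0) := by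
        intro i
        rw [Derivation.leibniz, pderiv_X, map_add, smul_eq_mul, smul_eq_mul, map_mul, map_mul, eval_X]
        by_cases hij : j = i
        · subst hij
          simp
          ring
        · rw [Pi.single_eq_of_ne hij, if_neg fun h => hij h.symm]
          simp
          ring
      rw [Finset.sum_congr rfl fun i _ => h3 i, Finset.sum_add_distrib, Finset.sum_ite_eq', if_pos (Finset.mem_univ j),
        Finset.sum_mul]
    rw [h1, h2]
    exact hp.fun_mul (hci j)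

theorem differentiable_vec (E : Fin (M + 1) → MvPolynomial (Fin (N + 1)) ℂ) : Differentiable ℂ (vec E) := by
  have h1 : Differentiable ℂ fun x : EN N => fun l => eval x.ofLp (E l) := by
    rw [differentiable_pi]
    intro l
    have h2 : Differentiable ℂ fun x : Fin (N + 1) → ℂ => eval x (E l) := fun x =>
      ((AnalyticOnNhd.eval_mvPolynomial (𝕜 := ℂ) (E l)) x (Set.mem_univ _)).differentiableAt
    exact h2.comp (PiLp.continuousLinearEquiv 2 ℂ (fun _ : Fin (N + 1) => ℂ)).differentiable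
  exact (PiLp.continuousLinearEquiv 2 ℂ (fun _ : Fin (M + 1) => ℂ)).symm.differentiable.comp h1

theorem fderiv_vec (E : Fin (M + 1) → MvPolynomial (Fin (N + 1)) ℂ) (x v : EN N) (l : Fin (M + 1)) :
    (fderiv ℂ (vec E) x v).ofLp l = ∑ i, v.ofLp i * eval x.ofLp (pderiv i (E l)) := by
  have h0 : HasDerivAt (fun t : ℂ => x + t • v) v 0 := by
    have h := ((hasDerivAt_id (0 : ℂ)).smul_const v).const_add x
    simpa using h
  have h1 : HasDerivAt (fun t : ℂ => vec E (x + t • v)) (fderiv ℂ (vec E) x v) 0 := by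
    have h2 : HasFDerivAt (vec E) (fderiv ℂ (vec E) x) (x + (0 : ℂ) • v) := by
      rw [zero_smul, add_zero]
      exact (differentiable_vec E x).hasFDerivAt
    exact h2.comp_hasDerivAt 0 h0
  have h2 : HasDerivAt (fun t : ℂ => eval (x + t • v).ofLp (E l)) ((fderiv ℂ (vec E) x v).ofLp l) 0 :=
    (EuclideanSpace.proj l : EN M →L[ℂ] ℂ).hasFDerivAt.comp_hasDerivAt 0 h1
  have h3 : HasDerivAt (fun t : ℂ => (x + t • v).ofLp) v.ofLp 0 :=
    ((PiLp.continuousLinearEquiv 2 ℂ fun _ : Fin (N + 1) => ℂ) : EN N →L[ℂ] (Fin (N + 1) → ℂ)).hasFDerivAt.comp_hasDerivAt 0 h0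
  have h4 := hasDerivAt_poly (E l) h3
  rw [zero_smul, add_zero] at h4
  exact h2.unique h4

theorem ell_eq (E : Fin (M + 1) → MvPolynomial (Fin (N + 1)) ℂ) (c : ℕ) (x v : EN N) : ell E c x.ofLp v.ofLp = ellE E c x v := by
  have h1 : (fun l => ∑ i, v.ofLp i * eval x.ofLp (pderiv i (E l))) = (fderiv ℂ (vec E) x v).ofLp := funext fun l => (fderiv_vec E x v l).symm
  have h2 : dlog (fun l => eval x.ofLp (E l)) (fun l => ∑ i, v.ofLp i * eval x.ofLp (pderiv i (E l))) =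
      inner ℂ (vec E x) (fderiv ℂ (vec E) x v) / (‖vec E x‖ : ℂ) ^ 2 := by
    rw [h1]
    exact dlog_eq (vec E x) (fderiv ℂ (vec E) x v)
  unfold ell ellE
  rw [h2, dlog_eq]

theorem isChart_of {X : Set (V N)} {σ : ℂ × ℂ → V N} {τ : V N → ℂ × ℂ} (h : IsChart X σ τ) : Pool.Agent.H17BP.IsChart X σ τ :=
  ⟨h.σ_an, h.σ_mem, h.ne, h.τ_an, h.left, h.right, h.inv⟩

theorem co_eq (o : Option Bool) (y : ℂ × ℂ) : co o y = Pool.Agent.SR3.co o y := by
  rcases o with _ | _ | _ <;> rfl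

theorem snc_of {E : Fin k → Fin (M + 1) → MvPolynomial (Fin (N + 1)) ℂ} {b : Fin k → ℕ} (h : Snc P H E b) : Pool.Agent.SR3.Snc P H E b := by
  refine ⟨h.pos, fun x hx => ?_⟩
  obtain ⟨σ, τ, s, e, u, h1, h2, h3, h4, h5, h6, h7⟩ := h.chart x hx
  refine ⟨σ, τ, s, fun i y => WithLp.toLp 2 fun l => e i l y, u, isChart_of h1, h2, h3, fun i => ⟨?_, ?_, ?_⟩, h5, h6, ?_⟩
  · have h8 : AnalyticAt ℂ (fun y => fun l => e i l y) 0 := AnalyticAt.pi fun l => ((h4 i).2 l).1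
    exact (((PiLp.continuousLinearEquiv 2 ℂ fun _ : Fin (M + 1) => ℂ).symm : (Fin (M + 1) → ℂ) →L[ℂ] EN M).analyticAt _).comp h8
  · intro h8
    obtain ⟨l, hl⟩ := (h4 i).1
    exact hl (congrFun (congrArg WithLp.ofLp h8) l)
  · have h8 : ∀ᶠ y in 𝓝 (0 : ℂ × ℂ), ∀ l, eval (σ y).ofLp (E i l) = co (s i) y * e i l y := Filter.eventually_all.2 fun l => ((h4 i).2 l).2
    filter_upwards [h8] with y hy
    apply WithLp.ofLp_injective 2
    funext l
    rw [← co_eq]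
    exact hy l
  · filter_upwards [h7] with y hy
    rw [hy]
    exact congrArg (fun t => u y * t) (Finset.prod_congr rfl fun i _ => by rw [co_eq])

theorem hasLogPoles_of {E : Fin k → Fin (M + 1) → MvPolynomial (Fin (N + 1)) ℂ} {c : Fin k → ℕ} {m : ℕ} {θ : SymDiff (CU P H) m}
    (h : HasLogPoles E c θ) : Pool.Agent.SR3.HasLogPoles E c (toS θ) := by
  obtain ⟨C, hC, h1⟩ := h
  refine ⟨C, hC, fun x hx v hv => ?_⟩
  have h2 := h1 x hx v hv
  rw [fs_eq, Finset.sum_congr rfl fun i _ => by rw [ell_eq]] at h2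
  exact h2

theorem isAlg_of {m : ℕ} {θ : SymDiff (CU P H) m} (h : IsAlg θ) : Pool.Agent.SR3.IsAlg (toS θ) := h

theorem logForms_of {m j r : ℕ} {Ω : Fin r → V N → V N → V N → ℂ} {Q : Fin r → MvPolynomial (Fin (N + 1)) ℂ} (h : LogAmple P H m j Ω Q) :
    LogForms P H m j Ω Q where
  one_m := h.one_m
  one_j := h.one_j
  form a := ⟨fun x hx v hv w hw => h.add_smul a x hx v w (mem_tan_iff.1 hv) (mem_tan_iff.1 hw),
    fun x hx v hv w hw => h.det a x hx v w (mem_tan_iff.1 hv) (mem_tan_iff.1 hw),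
    fun x hx v hv w hw => h.scale a x hx v w (mem_tan_iff.1 hv) (mem_tan_iff.1 hw), h.analytic a⟩
  pole a := h.pole a
  hom := h.hom
  noZeros a := fun x hx hxQ v hv w hw => h.noZeros a x hx hxQ v w (mem_tan_iff.1 hv) (mem_tan_iff.1 hw)

theorem lineCover_of {m j r : ℕ} {Ω : Fin r → V N → V N → V N → ℂ} {Q : Fin r → MvPolynomial (Fin (N + 1)) ℂ} (h : LogAmple P H m j Ω Q) :
    LineCover P H Q := by
  intro x hx hx0
  obtain ⟨F, h1, h2, z, a, h3⟩ := h.cover x hx hx0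
  exact ⟨F, ⟨fun z => (h1 z).1, fun z => (h1 z).2, h2⟩, z, a, WithLp.ofLp_injective 2 (funext h3)⟩

theorem noBdyCurve_of {E : Fin k → Fin (M + 1) → MvPolynomial (Fin (N + 1)) ℂ} (h : NoBdyCurve P E) : Pool.Agent.SR3.NoBdyCurve P E := h

end Pool.Agent.SR3.T

end
end

section

/-!
# SR3 T CvG: the compact definitions and the definitions of the proofs (geometry)
-/

set_option autoImplicit false

open Topology Filter Metric MvPolynomial

noncomputable section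

namespace Pool.Agent.SR3.T

open Pool.Agent.H17 (PN VanishesAt ZariskiClosedIn HolomorphicInto puncturedDisc)
open Pool.Agent.H17LG.Variety (FunField IsLogGeneralType)
open Pool.Agent.H13.SM (conTan)
open Pool.Agent.H7.Bir (vals rmap)
open Pool.Agent.H62.SA (locVar)

variable {N M s : ℕ}

/-! ## smoothness -/

theorem isSmooth_of {P : Ideal (MvPolynomial (Fin (N + 1)) ℂ)} {n : ℕ} (h : Smooth P n) : Pool.Agent.AD.NC.IsSmooth P n := by
  intro x hx hP
  by_contra hcon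
  push Not at hcon
  have h1 : n + 2 ≤ Module.finrank ℂ (conTan P x) := hcon
  obtain ⟨v, hv⟩ := exists_linearIndependent_of_le_finrank h1
  have h2 : LinearIndependent ℂ fun i => ((v i : conTan P x) : Fin (N + 1) → ℂ) :=
    hv.map' (conTan P x).subtype (Submodule.ker_subtype _)
  obtain ⟨i, Q, hQ, hne⟩ := h x hx hP _ h2
  exact hne ((v i).2 Q hQ)

/-! ## log general type -/

theorem isOfLGT_of {P : Ideal (MvPolynomial (Fin (N + 1)) ℂ)} [P.IsPrime] {H : MvPolynomial (Fin (N + 1)) ℂ}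
    (h : LogGT P (fun _ : Fin 1 => H) 2) : Pool.Agent.AD.NC.IsOfLogGeneralType P (fun _ : Fin 1 => H) 2 := by
  have h1 : (fun _ : Fin 1 => ∏ i : Fin 1, (fun _ : Fin 1 => H) i) = fun _ : Fin 1 => H := by
    funext _
    simp
  unfold Pool.Agent.AD.NC.IsOfLogGeneralType
  rw [h1]
  exact h

/-! ## the conclusion -/

theorem ggl_of {P : Ideal (MvPolynomial (Fin (N + 1)) ℂ)} [P.IsPrime] {G : Fin s → MvPolynomial (Fin (N + 1)) ℂ} {Ξ : Set (PN N)}
    (h : Pool.Agent.H7.Bir.GGLOpen P G Ξ) : GGL P G Ξ where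
  closed := h.closed
  proper := h.proper
  logGeneralType := fun n hn hd => h.logGeneralType n hn hd
  picard := h.picard
  brody := h.brody
  strongly := fun Q _ hQ hPQ hne n hn hd => h.strongly Q hQ hPQ hne n hn hd

theorem vals_ne {γ : Fin (N + 1) → MvPolynomial (Fin (M + 1)) ℂ} {y : PN M} :
    vals γ y.rep ≠ 0 ↔ ∃ i, ¬ VanishesAt (γ i) y := by
  constructor
  · intro h
    by_contra hcon
    push Not at hcon
    exact h (funext hcon)
  · rintro ⟨i, hi⟩ h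
    exact hi (congrFun h i)

theorem regular_of {S : Set (PN M)} {p : PN M → PN N} (h : RegularOn S p) : ∀ y ∈ S, ∃ (D : ℕ) (γ : Fin (N + 1) → MvPolynomial (Fin (M + 1)) ℂ),
    (∀ i, (γ i).IsHomogeneous D) ∧ vals γ y.rep ≠ 0 ∧ ∀ y' ∈ S, vals γ y'.rep ≠ 0 → p y' = rmap γ y' := by
  intro y hy
  obtain ⟨D, γ, h1, h2, h3⟩ := h y hy
  refine ⟨D, γ, h1, vals_ne.2 h2, fun y' hy' hne => ?_⟩
  obtain ⟨h4, h5⟩ := h3 y' hy' (vals_ne.1 hne)
  rw [h5, Pool.Agent.H7.Bir.rmap, dif_pos hne]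
  rfl

theorem isDominantMap_of {s' : ℕ} {P : Ideal (MvPolynomial (Fin (N + 1)) ℂ)} {P' : Ideal (MvPolynomial (Fin (M + 1)) ℂ)}
    {G : Fin s → MvPolynomial (Fin (N + 1)) ℂ} {G' : Fin s' → MvPolynomial (Fin (M + 1)) ℂ} {p : PN M → PN N} (h : IsDominantMap P P' G G' p) :
    Pool.Agent.H7.Qup.IsDominantMap P P' G G' p where
  maps := h.maps
  regular := regular_of h.regular
  dense := h.dense

theorem isEtaleOver_of {s' : ℕ} {P : Ideal (MvPolynomial (Fin (N + 1)) ℂ)} {P' : Ideal (MvPolynomial (Fin (M + 1)) ℂ)}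
    {G : Fin s → MvPolynomial (Fin (N + 1)) ℂ} {G' : Fin s' → MvPolynomial (Fin (M + 1)) ℂ} {p : PN M → PN N} (h : IsEtale P P' G G' p) :
    Pool.Agent.H62.Qe.IsEtaleOver P P' G G' p where
  reg := ⟨h.maps, h.surj, regular_of h.regular⟩
  inv := h.inv
  locInj := by
    intro y hy hm
    filter_upwards [h.locInj y _ ⟨hy, rfl⟩ hm] with q hq h1 h2 h3 h4 h5
    exact hq _ h3 _ h4 ⟨h1, rfl⟩ ⟨h2, rfl⟩ h5
  locSec := by
    intro y hy hm
    obtain ⟨x, τ, ⟨hx, h1⟩, h2, h3, h4⟩ := h.locSec y _ ⟨hy, rfl⟩ hm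
    refine ⟨x, hx, τ, h1, h2, h3, ?_⟩
    filter_upwards [h4] with x' h5 h6 h7
    obtain ⟨c, hc, ⟨h8, h9⟩, h10⟩ := h5 _ h7 ⟨h6, rfl⟩
    rw [h9] at hc h10
    exact ⟨h8, hc, h10⟩

theorem hyperbolic_of {P : Ideal (MvPolynomial (Fin (N + 1)) ℂ)} [P.IsPrime] {G : Fin s → MvPolynomial (Fin (N + 1)) ℂ}
    (h : Pool.Agent.SDA.IsHyperbolicOpen P G) : Hyperbolic P G where
  four := by
    obtain ⟨Ξ, hΞ⟩ := h.four
    exact ⟨Ξ, ggl_of hΞ⟩
  dominating := by
    intro L t R _ F p hR hp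
    obtain ⟨Ξ, hΞ⟩ := h.dominating L t R F p hR.homog hR.forms hR.dim (isDominantMap_of hp)
    exact ⟨Ξ, ggl_of hΞ⟩
  virtual := by
    intro L L' t t' R _ R' _ F F' q p hR hR' hp hq hgt
    obtain ⟨Ξ, hΞ⟩ := h.virtual L' L t t' R' R F F' q p hR'.homog hR.homog hR.forms hR'.forms hR'.dim hR.dim (isDominantMap_of hp)
      (isEtaleOver_of hq) hgt
    exact ⟨Ξ, ggl_of hΞ⟩
  kobayashi := by
    obtain ⟨Q, D, h1, h2, m, C, h3⟩ := h.kobayashi
    exact ⟨Q, D, h1, h2, m, C, h3⟩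

end Pool.Agent.SR3.T

end
end

section

/-!
# SR3 G RigF: rigidity of the family `KF`

Along `𝒰`: `F n → F₀` in `KF` (`KF_cpt`); `TubeBd` bounds `V n = (H n - F n) / s n` on compacta uniformly, Montel gives `V`; `ε n log (2 + N n) → 0` kills
the second exponent; `(E i (H n) - E i (F n)) / s n → DE i (F₀) (V)`; `RigidF` with `γ'`.
-/

set_option autoImplicit false

open Topology Filter Metric

noncomputable section

namespace Pool.Agent.SR3.G

open Pool.Agent.H36.BP (EN)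
open Pool.Agent.SR3 (Geo)
open Pool.Agent.SR3.Geo (Gd)

variable {N : ℕ} {G : Geo N} {T : Set (EN N)} {rho : EN N → ℝ} {δ γ A' B : ℝ} {β β' : G.ι → ℝ} {q : G.J → ℂ} {F : ℂ → EN N} {𝒬 : Set (EN N → ℂ)}

/-- Montel on the plane, along an ultrafilter -/
private theorem rig_montel (𝒰 : Ultrafilter ℕ) {Φ : ℕ → ℂ → EN N} (hd : ∀ k, Differentiable ℂ (Φ k)) {b : ℝ → ℝ}
    (hb : ∀ R : ℝ, ∀ᶠ k in (𝒰 : Filter ℕ), ∀ z ∈ ball (0 : ℂ) R, ‖Φ k z‖ ≤ b R) :
    ∃ H : ℂ → EN N, TendstoLocallyUniformlyOn Φ H (𝒰 : Filter ℕ) Set.univ := by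
  have hmont : ∀ R : ℕ, ∃ h : ℂ → EN N, DifferentiableOn ℂ h (ball 0 (R + 1)) ∧
      TendstoLocallyUniformlyOn Φ h (𝒰 : Filter ℕ) (ball 0 (R + 1)) := fun R =>
    Pool.Agent.H17.montel_ultrafilter 𝒰 (Eventually.of_forall fun k => (hd k).differentiableOn) (hb _)
  choose h hdf hcv using hmont
  have hmem : ∀ z : ℂ, z ∈ ball (0 : ℂ) ((⌈‖z‖⌉₊ : ℕ) + 1) := by
    intro z
    rw [mem_ball_zero_iff]
    have := Nat.le_ceil ‖z‖
    linarith
  obtain ⟨H, hH⟩ : ∃ H : ℂ → EN N, H = fun z => h ⌈‖z‖⌉₊ z := ⟨_, rfl⟩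
  have hHt : ∀ z, Tendsto (fun k => Φ k z) (𝒰 : Filter ℕ) (𝓝 (H z)) := by
    intro z
    rw [hH]
    exact (hcv _).tendsto_at (hmem z)
  have hHR : ∀ R : ℕ, ∀ z ∈ ball (0 : ℂ) (R + 1), H z = h R z := fun R z hz =>
    tendsto_nhds_unique (hHt z) ((hcv R).tendsto_at hz)
  refine ⟨H, fun u hu z _ => ?_⟩
  have hz := hmem z
  obtain ⟨t, ht, hev⟩ := hcv _ u hu z hz
  have ht' : t ∈ 𝓝 z := by
    rwa [isOpen_ball.nhdsWithin_eq hz] at ht
  refine ⟨t ∩ ball 0 ((⌈‖z‖⌉₊ : ℕ) + 1), ?_, ?_⟩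
  · rw [nhdsWithin_univ]
    exact inter_mem ht' (isOpen_ball.mem_nhds hz)
  · filter_upwards [hev] with k hk y hy
    rw [hHR _ y hy.2]
    exact hk y hy.1

/-- the quotients of a differentiable map -/
private theorem rig_quot {E₁ E₂ : Type} [NormedAddCommGroup E₁] [NormedSpace ℂ E₁] [NormedAddCommGroup E₂] [NormedSpace ℂ E₂] {𝒰 : Filter ℕ}
    {E : E₁ → E₂} {x₀ v : E₁} (hE : HasStrictFDerivAt E (fderiv ℂ E x₀) x₀) {x y : ℕ → E₁} {s : ℕ → ℝ} (hs : ∀ n, 0 < s n) (hs0 : Tendsto s 𝒰 (𝓝 0))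
    (hx : Tendsto x 𝒰 (𝓝 x₀)) (hv : Tendsto (fun n => ((s n : ℂ)⁻¹) • (y n - x n)) 𝒰 (𝓝 v)) :
    Tendsto (fun n => ((s n : ℂ)⁻¹) • (E (y n) - E (x n))) 𝒰 (𝓝 (fderiv ℂ E x₀ v)) := by
  have hsc : ∀ n, (s n : ℂ) ≠ 0 := fun n => Complex.ofReal_ne_zero.2 (hs n).ne'
  have hy : Tendsto y 𝒰 (𝓝 x₀) := by
    have h1 : Tendsto (fun n => x n + (s n : ℂ) • (((s n : ℂ)⁻¹) • (y n - x n))) 𝒰 (𝓝 (x₀ + ((0 : ℝ) : ℂ) • v)) :=
      hx.add (((Complex.continuous_ofReal.tendsto 0).comp hs0).smul hv)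
    rw [Complex.ofReal_zero, zero_smul, add_zero] at h1
    refine h1.congr fun n => ?_
    rw [smul_smul, mul_inv_cancel₀ (hsc n), one_smul, add_sub_cancel]
  have ho := hE.isLittleO
  have hxy : Tendsto (fun n => (y n, x n)) 𝒰 (𝓝 (x₀, x₀)) := hy.prodMk_nhds hx
  have ho2 := ho.comp_tendsto hxy
  -- the error divided by `s`
  have h3 : Tendsto (fun n => ((s n : ℂ)⁻¹) • (E (y n) - E (x n) - fderiv ℂ E x₀ (y n - x n))) 𝒰 (𝓝 0) := by
    have h4 : (fun n => ((s n : ℂ)⁻¹) • (E (y n) - E (x n) - fderiv ℂ E x₀ (y n - x n))) =o[𝒰] fun n => ((s n : ℂ)⁻¹) • (y n - x n) :=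
      (Asymptotics.isBigO_refl (fun n => (s n : ℂ)⁻¹) 𝒰).smul_isLittleO ho2
    have h5 : (fun n => ((s n : ℂ)⁻¹) • (y n - x n)) =O[𝒰] fun _ => (1 : ℝ) := hv.isBigO_one ℝ
    exact (Asymptotics.isLittleO_one_iff ℝ).1 (h4.trans_isBigO h5)
  have h6 : Tendsto (fun n => fderiv ℂ E x₀ (((s n : ℂ)⁻¹) • (y n - x n))) 𝒰 (𝓝 (fderiv ℂ E x₀ v)) :=
    ((fderiv ℂ E x₀).continuous.tendsto v).comp hv
  have h7 := h3.add h6
  rw [zero_add] at h7
  refine h7.congr fun n => ?_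
  rw [map_smul, ← smul_add, sub_add_cancel]

theorem KF_rigid (hG : G.Ok) (hf : Facts G T rho δ γ A' B) (hq : HFacts G T rho δ 𝒬) (ht : TubeBd G T rho δ γ A' B) (hr : RigidF G T) (M₀ L : ℝ) :
    ∃ r₀ : ℝ, ∀ r ≥ r₀, Rigid (KF G T rho δ γ A' B β β' q 𝒬) M₀ L r γ := by
  obtain ⟨γ', hγ', htube⟩ := ht
  obtain ⟨r₀, hr₀⟩ := htube q β β' M₀ L
  refine ⟨r₀, fun r hrr 𝒰 h𝒰 F H z s ε n A hF hH hz hs hs0 hε hn hεn hb => ?_⟩
  obtain ⟨K, hK, hbd⟩ := hr₀ r hrr A
  have hF0 : ∀ k, ‖F k 0‖ ≤ M₀ := fun k => by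
    have h1 := (hz k).good 0
    rwa [(hz k).zero] at h1
  obtain ⟨F₀, hF₀, hlim⟩ := KF_cpt hG hf hq h𝒰 hF hF0
  have hdF : ∀ k, Differentiable ℂ (F k) := fun k => (hF k).1.cl.ent.diff
  have hdH : ∀ k, Differentiable ℂ (H k) := fun k => (hH k).1.cl.ent.diff
  have hdF₀ : Differentiable ℂ F₀ := hF₀.1.cl.ent.diff
  have hsc : ∀ k, (s k : ℂ) ≠ 0 := fun k => Complex.ofReal_ne_zero.2 (hs k).ne'
  have hs1 : ∀ᶠ k in (𝒰 : Filter ℕ), s k ≤ 1 := (hs0.eventually (gt_mem_nhds zero_lt_one)).mono fun k hk => hk.le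
  -- the bound of the quotients
  have hV1 : ∀ᶠ k in (𝒰 : Filter ℕ), ∀ y : ℂ, ‖((s k : ℂ)⁻¹) • (H k y - F k y)‖ ≤
      Real.exp (K * pw γ' ‖y‖ + K * (ε k * Real.log (2 + n k)) * (1 + ‖y‖)) * ‖F k y‖ ∧
      ∀ i, ‖((s k : ℂ)⁻¹) • (G.E i (H k y) - G.E i (F k y))‖ ≤
        Real.exp (K * pw γ' ‖y‖ + K * (ε k * Real.log (2 + n k)) * (1 + ‖y‖)) * ‖G.E i (F k y)‖ := by
    filter_upwards [hs1] with k hk y
    obtain ⟨h1, h2⟩ := hbd (F k) (H k) (z k) (s k) (ε k) (n k) (hF k).1 (hH k).1 (hz k) (hs k) hk (hε k) (hn k) (hb k) y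
    have h3 : ∀ {x e f : ℝ}, x ≤ s k * e * f → (s k)⁻¹ * x ≤ e * f := fun {x e f} h => by
      rw [inv_mul_le_iff₀ (hs k)]
      linarith
    have h4 : ‖(s k : ℂ)⁻¹‖ = (s k)⁻¹ := by
      rw [norm_inv, Complex.norm_real, Real.norm_of_nonneg (hs k).le]
    refine ⟨?_, fun i => ?_⟩
    · rw [norm_smul, h4]
      exact h3 h1
    · rw [norm_smul, h4]
      exact h3 (h2 i)
  -- local boundedness
  have hbR : ∀ R : ℝ, ∃ C : ℝ, ∀ᶠ k in (𝒰 : Filter ℕ), ∀ y ∈ ball (0 : ℂ) R, ‖((s k : ℂ)⁻¹) • (H k y - F k y)‖ ≤ C := by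
    intro R
    have h1 : TendstoUniformlyOn F F₀ 𝒰 (closedBall (0 : ℂ) R) :=
      (tendstoLocallyUniformlyOn_iff_forall_isCompact isOpen_univ).1 hlim _ (Set.subset_univ _) (isCompact_closedBall _ _)
    obtain ⟨C₀, hC₀⟩ := (isCompact_closedBall (0 : ℂ) R).exists_bound_of_continuousOn hdF₀.continuous.continuousOn
    rw [Metric.tendstoUniformlyOn_iff] at h1
    have h2 : ∀ᶠ k in (𝒰 : Filter ℕ), ε k * Real.log (2 + n k) ≤ 1 := (hεn.eventually (gt_mem_nhds zero_lt_one)).mono fun k hk => hk.le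
    refine ⟨Real.exp (K * (2 + |R|) + K * (1 + |R|)) * (|C₀| + 1), ?_⟩
    filter_upwards [hV1, h1 1 one_pos, h2] with k hk1 hk2 hk3 y hy
    have hyR : ‖y‖ ≤ |R| := (mem_ball_zero_iff.1 hy).le.trans (le_abs_self R)
    have hy' : y ∈ closedBall (0 : ℂ) R := ball_subset_closedBall hy
    refine (hk1 y).1.trans (mul_le_mul (Real.exp_le_exp.2 ?_) ?_ (norm_nonneg _) (Real.exp_pos _).le)
    · have h3 : pw γ' ‖y‖ ≤ 2 + |R| := by
        unfold pw
        have h0 : 0 ≤ ‖y‖ := norm_nonneg y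
        calc (2 + ‖y‖) ^ γ' ≤ (2 + ‖y‖) ^ (1 : ℝ) := Real.rpow_le_rpow_of_exponent_le (by linarith) hγ'.le
          _ = 2 + ‖y‖ := Real.rpow_one _
          _ ≤ 2 + |R| := by linarith
      have h4 : K * (ε k * Real.log (2 + n k)) * (1 + ‖y‖) ≤ K * (1 + |R|) := by
        have h5 : K * (ε k * Real.log (2 + n k)) ≤ K := by
          calc K * (ε k * Real.log (2 + n k)) ≤ K * 1 := mul_le_mul_of_nonneg_left hk3 hK
            _ = K := mul_one K
        calc K * (ε k * Real.log (2 + n k)) * (1 + ‖y‖) ≤ K * (1 + ‖y‖) :=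
              mul_le_mul_of_nonneg_right h5 (by positivity)
          _ ≤ K * (1 + |R|) := mul_le_mul_of_nonneg_left (by linarith) hK
      have h6 : K * pw γ' ‖y‖ ≤ K * (2 + |R|) := mul_le_mul_of_nonneg_left h3 hK
      linarith
    · have h3 := hk2 y hy'
      rw [dist_eq_norm] at h3
      have h4 := hC₀ y hy'
      calc ‖F k y‖ = ‖F₀ y - (F₀ y - F k y)‖ := by rw [sub_sub_cancel]
        _ ≤ ‖F₀ y‖ + ‖F₀ y - F k y‖ := norm_sub_le _ _
        _ ≤ |C₀| + 1 := add_le_add (h4.trans (le_abs_self _)) h3.le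
  choose bb hbb using hbR
  obtain ⟨V, hV⟩ := rig_montel 𝒰 (Φ := fun k y => ((s k : ℂ)⁻¹) • (H k y - F k y))
    (fun k => Differentiable.fun_const_smul ((hdH k).fun_sub (hdF k)) _) hbb
  have hVt : ∀ y : ℂ, Tendsto (fun k => ((s k : ℂ)⁻¹) • (H k y - F k y)) 𝒰 (𝓝 (V y)) := fun y => hV.tendsto_at (Set.mem_univ y)
  have hFt : ∀ y : ℂ, Tendsto (fun k => F k y) 𝒰 (𝓝 (F₀ y)) := fun y => hlim.tendsto_at (Set.mem_univ y)
  have hEt : ∀ y : ℂ, Tendsto (fun k => Real.exp (K * pw γ' ‖y‖ + K * (ε k * Real.log (2 + n k)) * (1 + ‖y‖))) 𝒰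
      (𝓝 (Real.exp (K * pw γ' ‖y‖))) := by
    intro y
    have h1 : Tendsto (fun k => K * pw γ' ‖y‖ + K * (ε k * Real.log (2 + n k)) * (1 + ‖y‖)) 𝒰
        (𝓝 (K * pw γ' ‖y‖ + K * 0 * (1 + ‖y‖))) := ((hεn.const_mul K).mul_const _).const_add _
    rw [mul_zero, zero_mul, add_zero] at h1
    exact (Real.continuous_exp.tendsto _).comp h1
  have hbound : ∀ y : ℂ, ‖V y‖ ≤ Real.exp (K * pw γ' ‖y‖) * ‖F₀ y‖ ∧
      ∀ i, ‖fderiv ℂ (G.E i) (F₀ y) (V y)‖ ≤ Real.exp (K * pw γ' ‖y‖) * ‖G.E i (F₀ y)‖ := by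
    intro y
    refine ⟨le_of_tendsto_of_tendsto (hVt y).norm ((hEt y).mul (hFt y).norm) (hV1.mono fun k hk => (hk y).1), fun i => ?_⟩
    have hstr : HasStrictFDerivAt (G.E i) (fderiv ℂ (G.E i) (F₀ y)) (F₀ y) := (hG.anE i (F₀ y)).hasStrictFDerivAt
    have h1 := rig_quot hstr hs hs0 (hFt y) (hVt y)
    have h2 : Tendsto (fun k => G.E i (F k y)) 𝒰 (𝓝 (G.E i (F₀ y))) := ((hG.anE i (F₀ y)).continuousAt.tendsto).comp (hFt y)
    exact le_of_tendsto_of_tendsto h1.norm ((hEt y).mul h2.norm) (hV1.mono fun k hk => (hk y).2 i)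
  obtain ⟨c, hc⟩ := hr 𝒰 h𝒰 q F H s F₀ V γ' hγ' (fun k => (hF k).1.cl) (fun k => (hH k).1.cl) hF₀.1.cl hs hs0 hlim hV ⟨K, hbound⟩
  refine ⟨F₀, hF₀, c, hlim, ?_⟩
  have h1 : V = fun y => c • deriv F₀ y := funext hc
  rwa [h1] at hV

end Pool.Agent.SR3.G

end
end

section

/-!
# SR3 G OneF: one form kills the class
-/

set_option autoImplicit false
set_option linter.unusedSectionVars false

open Topology Filter Metric

noncomputable section

namespace Pool.Agent.SR3.G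

open Pool.Agent.H36.BP (EN)
open Pool.Agent.SR3 (Geo)
open Pool.Agent.SR3.Geo (Gd)

variable {N : ℕ} {G : Geo N} {T : Set (EN N)} {rho : EN N → ℝ} {δ γ A' B : ℝ} {𝒬 : Set (EN N → ℂ)}

/-- every member of the class is degenerate -/
theorem cover_of (hG : G.Ok) (hf : Facts G T rho δ γ A' B) (ht : TubeBd G T rho δ γ A' B) (hr : RigidF G T) (hp : FirstP G T rho δ γ A' B)
    (hq : HFacts G T rho δ 𝒬)
    (hper : ∀ (q : G.J → ℂ) (F : ℂ → EN N) (ω : ℂ), G.Cl T q F → ω ≠ 0 → (∀ z, F (z + ω) = F z) →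
      (∃ B : ℝ, ∀ z, Real.log ‖F z‖ ≤ B * (1 + ‖z‖)) → ∃ Q ∈ 𝒬, ∀ z, Q (F z) = 0)
    (q : G.J → ℂ) (F : ℂ → EN N) (hF : G.Cl T q F) : ∃ Q ∈ 𝒬, ∀ z, Q (F z) = 0 := by
  by_contra hno
  push Not at hno
  obtain ⟨a, ha⟩ := hf.good q F hF
  obtain ⟨v, β, β', hv, hm⟩ := exists_mem hG hf.str hF ha
  have hv0 : v ≠ 0 := by
    intro h0
    rw [h0, norm_zero] at hv
    exact zero_ne_one hv
  have hne : (KF G T rho δ γ A' B β β' (fun j => v ^ G.m j * q j) 𝒬).Nonempty := by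
    refine ⟨_, hm, fun Q hQ => ?_⟩
    obtain ⟨z, hz⟩ := hno Q hQ
    refine ⟨v⁻¹ * z, ?_⟩
    show Q (F (v * (v⁻¹ * z))) ≠ 0
    rwa [mul_inv_cancel_left₀ hv0]
  obtain ⟨M₀, hS⟩ := KF_sys hG hf hq hne
  obtain ⟨H, hH, ω, hω, h1⟩ := exists_periodic hS (fun L => KF_rigid hG hf hq ht hr M₀ L) fun L => by
    obtain ⟨r₀, h2⟩ := KF_logI (β := β) (β' := β') (q := fun j => v ^ G.m j * q j) (𝒬 := 𝒬) hG hf hp M₀ L
    obtain ⟨r₁, h3⟩ := KF_logI (β := β') (β' := β) (q := fun j => (-1) ^ G.m j * (v ^ G.m j * q j)) (𝒬 := 𝒬) hG hf hp M₀ L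
    refine ⟨max r₀ r₁, fun r hr => ⟨h2 r ((le_max_left _ _).trans hr), ?_⟩⟩
    rw [ng_KF hG]
    exact h3 r ((le_max_right _ _).trans hr)
  obtain ⟨B₁, hB1, h2⟩ := hf.growth
  obtain ⟨b, hb⟩ := hf.good _ H hH.1.cl
  obtain ⟨Q, hQ, h3⟩ := hper _ H ω hH.1.cl hω h1 ⟨B₁ * (1 + ‖b‖), fun z => by
    refine (h2 _ H hH.1.cl z).trans ?_
    have h4 : infDist z (Gd rho δ H) ≤ dist z b := infDist_le_dist_of_mem hb
    have h5 : dist z b ≤ ‖z‖ + ‖b‖ := by
      rw [dist_eq_norm]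
      exact norm_sub_le _ _
    have h6 : B₁ * (1 + infDist z (Gd rho δ H)) ≤ B₁ * (1 + (‖z‖ + ‖b‖)) := mul_le_mul_of_nonneg_left (by linarith) hB1
    refine h6.trans ?_
    rw [mul_assoc]
    refine mul_le_mul_of_nonneg_left ?_ hB1
    nlinarith [norm_nonneg z, norm_nonneg b]⟩
  obtain ⟨z, hz⟩ := hH.2 Q hQ
  exact hz (h3 z)

theorem one_form_of (hG : G.Ok) (hf : Facts G T rho δ γ A' B) (ht : TubeBd G T rho δ γ A' B) (hr : RigidF G T) (hp : FirstP G T rho δ γ A' B)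
    (hne : 𝒬.Nonempty) (hmul : ∀ Q ∈ 𝒬, ∀ Q' ∈ 𝒬, (fun x => Q x * Q' x) ∈ 𝒬) (hq : HFacts G T rho δ 𝒬)
    (hper : ∀ (q : G.J → ℂ) (F : ℂ → EN N) (ω : ℂ), G.Cl T q F → ω ≠ 0 → (∀ z, F (z + ω) = F z) →
      (∃ B : ℝ, ∀ z, Real.log ‖F z‖ ≤ B * (1 + ‖z‖)) → ∃ Q ∈ 𝒬, ∀ z, Q (F z) = 0) :
    ∃ Q ∈ 𝒬, ∀ (q : G.J → ℂ) (F : ℂ → EN N), G.Cl T q F → ∀ z, Q (F z) = 0 :=
  finite_cover hG hf hq hne hmul fun q F hF => cover_of hG hf ht hr hp hq hper q F hF

end Pool.Agent.SR3.G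

end
end

section

/-!
# MQL LogA: an algebraic symmetric differential on the open surface gives a twisted symmetric differential on the projective surface
-/

set_option autoImplicit false

open Topology Filter Metric MvPolynomial

noncomputable section

namespace Pool.Agent.MQL

open Pool.Agent.H36.BP (EN)
open Pool.Agent.H14.PP (IsCone Tan IsOpenPart)
open Pool.Agent.H17BP (Surface IsChart)
open Pool.Agent.H17EF (coneE)
open Pool.Agent.AD (SymDiff)
open Pool.Agent.MQ3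
open Pool.Agent.SDA (openCone X3_openPart E1_an E2_tan)
open Pool.Agent.SR2 (oc IsAlg)

variable {N k : ℕ} {P : Ideal (MvPolynomial (Fin (N + 1)) ℂ)} {H : Fin k → MvPolynomial (Fin (N + 1)) ℂ} {e : Fin k → ℕ}

/-- the twisted symmetric differential `h ^ (n + 1) θ`, if it is holomorphic -/
theorem wdiff_of (hX : Surface (coneE P)) (hH : ∀ i, (H i).IsHomogeneous (e i)) {m : ℕ} (θ : SymDiff (openCone P H) m) (n : ℕ)
    (han : ∀ (l : ℕ) (φ : (Fin l → ℂ) → EN N) (p w : Fin l → ℂ), AnalyticAt ℂ φ p → (∀ᶠ y in 𝓝 p, φ y ∈ coneE P) →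
      AnalyticAt ℂ (fun y : (Fin l → ℂ) × (Fin l → ℂ) => (∏ i, eval (φ y.1).ofLp (H i)) ^ (n + 1) * θ.toFun (φ y.1) (fderiv ℂ φ y.1 y.2)) (p, w)) :
    ∃ θ' : WDiff (coneE P) m, ∀ x ∈ openCone P H, ∀ v, Tan (coneE P) x v → (θ'.toFun x v = 0 ↔ θ.toFun x v = 0) := by
  have hK := X3_openPart (H := H) (e := e) hX.smul hH
  have hpr : ∀ x : EN N, x ∈ coneE P → x ∉ openCone P H → (∏ i, eval x.ofLp (H i)) = 0 := by
    intro x hx hxK
    by_contra h
    exact hxK ⟨hx, fun i hi => h (Finset.prod_eq_zero (Finset.mem_univ i) hi)⟩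
  have hprn : ∀ x : EN N, x ∈ openCone P H → (∏ i, eval x.ofLp (H i)) ≠ 0 := fun x hx => Finset.prod_ne_zero_iff.2 fun i _ => hx.2 i
  have hsc : ∀ (c : ℂ) (x : EN N), (∏ i, eval (c • x).ofLp (H i)) = c ^ (∑ i, e i) * ∏ i, eval x.ofLp (H i) := by
    intro c x
    have h1 : (c • x).ofLp = c • x.ofLp := rfl
    simp only [h1, Pool.Agent.H17EF.eval_smul_form (hH _), Finset.prod_mul_distrib, Finset.prod_pow_eq_pow_sum]
  have hmX : ∀ {x v : EN N}, Tan (coneE P) x v → x ∈ coneE P := by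
    rintro x v ⟨γ, ⟨-, h2⟩, h3, -⟩
    exact h3 ▸ h2.self_of_nhds
  refine ⟨
    { toFun := fun x v => (∏ i, eval x.ofLp (H i)) ^ (n + 1) * θ.toFun x v
      add_smul := ?_
      smul := ?_
      scale := ?_
      analytic := ?_ }, ?_⟩
  · intro x v hv a
    by_cases hx : x ∈ openCone P H
    · show _ * θ.toFun x (v + a • x) = _ * θ.toFun x v
      rw [θ.add_smul x v (E2_tan hK hx hv) a]
    · show _ ^ (n + 1) * _ = _ ^ (n + 1) * _
      rw [hpr x (hmX hv) hx, zero_pow (Nat.succ_ne_zero n), zero_mul, zero_mul]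
  · intro x v hv a
    by_cases hx : x ∈ openCone P H
    · show _ * θ.toFun x (a • v) = a ^ m * (_ * θ.toFun x v)
      rw [θ.smul x v (E2_tan hK hx hv) a]
      ring
    · show _ ^ (n + 1) * _ = a ^ m * (_ ^ (n + 1) * _)
      rw [hpr x (hmX hv) hx, zero_pow (Nat.succ_ne_zero n), zero_mul, zero_mul, mul_zero]
  · intro c hc0
    refine ⟨(c ^ (∑ i, e i)) ^ (n + 1), pow_ne_zero _ (pow_ne_zero _ hc0), fun x v hv => ?_⟩
    show (∏ i, eval (c • x).ofLp (H i)) ^ (n + 1) * θ.toFun (c • x) (c • v) = _ * ((∏ i, eval x.ofLp (H i)) ^ (n + 1) * θ.toFun x v)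
    rw [hsc, mul_pow]
    by_cases hx : x ∈ openCone P H
    · rw [θ.scale x v (E2_tan hK hx hv) c hc0]
      ring
    · rw [hpr x (hmX hv) hx, zero_pow (Nat.succ_ne_zero n)]
      ring
  · intro l φ p w hφ hφX
    exact han l φ p w hφ hφX
  · intro x hx v _
    show (∏ i, eval x.ofLp (H i)) ^ (n + 1) * θ.toFun x v = 0 ↔ _
    rw [mul_eq_zero]
    exact or_iff_right (pow_ne_zero _ (hprn x hx))

/-- **The twisted symmetric differential** of an algebraic symmetric differential. -/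
theorem exists_wdiff_alg (hX : Surface (coneE P)) {H : MvPolynomial (Fin (N + 1)) ℂ} {h : ℕ} (hH : H.IsHomogeneous h) {m : ℕ}
    (θ : SymDiff (oc P H) m) (hθ : IsAlg θ) :
    ∃ θ' : WDiff (coneE P) m, ∀ x ∈ oc P H, ∀ v, Tan (coneE P) x v → (θ'.toFun x v = 0 ↔ θ.toFun x v = 0) := by
  obtain ⟨W, r, hW⟩ := hθ
  refine wdiff_of (e := fun _ => h) hX (fun _ => hH) θ r fun l φ p w hφ hφX => ?_
  have hev : ∀ (p : Fin l → ℂ), AnalyticAt ℂ φ p → AnalyticAt ℂ (fun y => eval (φ y).ofLp H) p := fun p hp =>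
    AnalyticAt.comp (g := fun x : EN N => eval x.ofLp H) (f := φ) (E1_an H _) hp
  have hfst : Tendsto (Prod.fst : (Fin l → ℂ) × (Fin l → ℂ) → Fin l → ℂ) (𝓝 (p, w)) (𝓝 p) := continuousAt_fst
  -- the polynomial along the parametrisation
  have hpoly : AnalyticAt ℂ (fun y : (Fin l → ℂ) × (Fin l → ℂ) => eval (φ y.1).ofLp H * eval (Sum.elim (φ y.1).ofLp (fderiv ℂ φ y.1 y.2).ofLp) W) (p, w) := by
    have h1 : AnalyticAt ℂ (fun y : (Fin l → ℂ) × (Fin l → ℂ) => φ y.1) (p, w) :=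
      AnalyticAt.comp (g := φ) (f := Prod.fst) (x := (p, w)) hφ analyticAt_fst
    have h2 : AnalyticAt ℂ (fun y : (Fin l → ℂ) × (Fin l → ℂ) => fderiv ℂ φ y.1 y.2) (p, w) := by
      have h3 : AnalyticAt ℂ (fun y : (Fin l → ℂ) × (Fin l → ℂ) => fderiv ℂ φ y.1) (p, w) :=
        AnalyticAt.comp (g := fderiv ℂ φ) (f := Prod.fst) (x := (p, w)) hφ.fderiv analyticAt_fst
      exact AnalyticAt.comp (g := fun q : ((Fin l → ℂ) →L[ℂ] EN N) × (Fin l → ℂ) => q.1 q.2)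
        (f := fun y : (Fin l → ℂ) × (Fin l → ℂ) => (fderiv ℂ φ y.1, y.2))
        (ContinuousLinearMap.analyticAt_bilinear (ContinuousLinearMap.id ℂ ((Fin l → ℂ) →L[ℂ] EN N)) _) (h3.prod analyticAt_snd)
    have hc : ∀ {F : (Fin l → ℂ) × (Fin l → ℂ) → EN N}, AnalyticAt ℂ F (p, w) → ∀ i, AnalyticAt ℂ (fun y => (F y).ofLp i) (p, w) := fun hF i =>
      AnalyticAt.comp (g := fun v : EN N => (EuclideanSpace.proj i : EN N →L[ℂ] ℂ) v) ((EuclideanSpace.proj i : EN N →L[ℂ] ℂ).analyticAt _) hF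
    refine AnalyticAt.fun_mul (AnalyticAt.comp (g := fun x : EN N => eval x.ofLp H) (f := fun y : (Fin l → ℂ) × (Fin l → ℂ) => φ y.1) (E1_an H _) h1) ?_
    have h5 : ∀ W' : MvPolynomial (Fin (N + 1) ⊕ Fin (N + 1)) ℂ,
        AnalyticAt ℂ (fun y : (Fin l → ℂ) × (Fin l → ℂ) => eval (Sum.elim (φ y.1).ofLp (fderiv ℂ φ y.1 y.2).ofLp) W') (p, w) := by
      intro W'
      induction W' using MvPolynomial.induction_on with
      | C a => simpa using analyticAt_const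
      | add a b ha hb =>
        simp only [map_add]
        exact ha.fun_add hb
      | mul_X a i ha =>
        simp only [map_mul, eval_X]
        refine ha.fun_mul ?_
        rcases i with i | i
        · exact hc h1 i
        · exact hc h2 i
    exact h5 W
  refine hpoly.congr ?_
  filter_upwards [hfst.eventually hφ.eventually_analyticAt, hfst.eventually hφX.eventually_nhds] with y h1 h2
  rw [Finset.prod_const, Finset.card_univ, Fintype.card_fin, pow_one]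
  by_cases hy : eval (φ y.1).ofLp H = 0
  · rw [hy, zero_mul, zero_pow (Nat.succ_ne_zero r), zero_mul]
  · have h4 : ∀ᶠ q in 𝓝 y.1, φ q ∈ oc P H := by
      filter_upwards [h2, (hev y.1 h1).continuousAt.eventually_ne hy] with q hq hq0
      exact ⟨hq, fun _ => hq0⟩
    rw [← hW _ h4.self_of_nhds _ (lw_tan h1 h4 y.2)]
    ring

end Pool.Agent.MQL

end
end

section

/-!
# MQL Dns: an algebraic symmetric differential which is not `0` at one tangent vector is not `0` at the points of a dense set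
-/

set_option autoImplicit false

open Topology Filter Metric MvPolynomial

noncomputable section

namespace Pool.Agent.MQL

open Pool.Agent.H36.BP (EN)
open Pool.Agent.H14.PP (IsCone Tan)
open Pool.Agent.H62.FC (Homog)
open Pool.Agent.H17LG.Variety (FunField)
open Pool.Agent.H17EF (coneE LE)
open Pool.Agent.H13.SM (conTan)
open Pool.Agent.AD (SymDiff)
open Pool.Agent.SR2 (oc IsAlg)
open Pool.Agent.SDA (openCone E2_tan E2_tan' X4_openPart)

variable {N m h : ℕ} {P : Ideal (MvPolynomial (Fin (N + 1)) ℂ)} {H : MvPolynomial (Fin (N + 1)) ℂ}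

/-- **The identity theorem for algebraic symmetric differentials.** -/
theorem dense_alg [P.IsPrime] (hP : Homog P) {z : Fin 2 → FunField P} (hz : IsTranscendenceBasis ℂ z)
    (hsm : ∀ y : Fin (N + 1) → ℂ, y ≠ 0 → (∀ Q ∈ P, eval y Q = 0) → Module.finrank ℂ (conTan P y) ≤ 3) (hH : H.IsHomogeneous h)
    (θ : SymDiff (oc P H) m) (hθ : IsAlg θ) (hne : ∃ x ∈ oc P H, ∃ v, Tan (oc P H) x v ∧ θ.toFun x v ≠ 0) :
    oc P H ⊆ closure {x | x ∈ oc P H ∧ ∃ v, Tan (oc P H) x v ∧ θ.toFun x v ≠ 0} := by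
  have hc : IsCone (coneE P) := Pool.Agent.AD.isCone_coneE hP
  have hK := X4_openPart (H := fun _ : Fin 1 => H) (e := fun _ => h) hc fun _ => hH
  obtain ⟨W, r, hW⟩ := hθ
  obtain ⟨x₀, hx₀, v₀, hv₀, hne⟩ := hne
  intro x₁ hx₁
  by_contra hcl
  have h1 : ∀ᶠ x in 𝓝 x₁, x ∈ oc P H → ∀ v, Tan (oc P H) x v → θ.toFun x v = 0 := by
    have h2 : (closure {x | x ∈ oc P H ∧ ∃ v, Tan (oc P H) x v ∧ θ.toFun x v ≠ 0})ᶜ ∈ 𝓝 x₁ := isClosed_closure.isOpen_compl.mem_nhds hcl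
    filter_upwards [h2] with x hx hxc v hv
    by_contra h3
    exact hx (subset_closure ⟨hxc, v, hv, h3⟩)
  have hx0 : x₀.ofLp ≠ 0 := hx₀.1.1
  have hT₀ : Tan (coneE P) x₀ v₀ := E2_tan' hK hv₀
  obtain ⟨V, Δ, hΔ, hV, hV₀⟩ := exists_vfield hP hz hsm hx0 hx₀.1.2 (Pool.Agent.AD.P.conTan_of_tan hT₀)
  obtain ⟨S, hS⟩ : ∃ S : MvPolynomial (Fin (N + 1)) ℂ, ∀ x : Fin (N + 1) → ℂ, eval x S = eval (Sum.elim x fun l => eval x (V l)) W := by
    refine ⟨bind₁ (Sum.elim X V) W, fun x => ?_⟩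
    rw [← coe_aeval_eq_eval, ← coe_aeval_eq_eval]
    show aeval x (bind₁ _ W) = aeval _ W
    rw [aeval_bind₁]
    congr 1
    apply congrArg
    funext s
    rcases s with i | s
    · simp
    · simp [coe_aeval_eq_eval, aeval_eq_eval]
  have hHc : Continuous fun x : EN N => eval x.ofLp H := (MvPolynomial.continuous_eval H).comp (LE N).symm.continuous
  have h0 := exists_zero hP hz hsm (S := S) hx₁.1 (by
    filter_upwards [h1, hHc.continuousAt.eventually_ne (hx₁.2 0)] with x hx hxH hxc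
    have hxo : x ∈ oc P H := ⟨hxc, fun _ => hxH⟩
    have h2 : Tan (coneE P) x ((LE N) fun l => eval x.ofLp (V l)) := by
      refine (conTan_three hP hz hsm hxc).2 _ ?_
      rw [ContinuousLinearEquiv.symm_apply_apply]
      exact hV x.ofLp hxc.1 hxc.2
    have h3 : Tan (oc P H) x ((LE N) fun l => eval x.ofLp (V l)) := E2_tan hK hxo h2
    have h4 := hW x hxo _ h3
    rw [hx hxo _ h3, zero_mul] at h4
    rw [hS]
    exact h4.symm) x₀ hx₀.1
  have h5 : Tan (oc P H) x₀ (Δ • v₀) := by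
    obtain ⟨F, ⟨hF, hFX⟩, hF0, hF1⟩ := hv₀
    refine ⟨fun y => F (Δ * y), ⟨?_, ?_⟩, by simpa using hF0, ?_⟩
    · have : AnalyticAt ℂ F (Δ * 0) := by simpa using hF
      exact this.comp ((analyticAt_const).mul analyticAt_id)
    · have hc : Tendsto (fun y : ℂ => Δ * y) (𝓝 0) (𝓝 0) := by
        have := (continuous_const_mul Δ).tendsto (0 : ℂ)
        simpa using this
      exact hc.eventually hFX
    · have hd : HasDerivAt F (deriv F 0) (Δ * 0) := by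
        rw [mul_zero]
        exact hF.differentiableAt.hasDerivAt
      have hd2 : HasDerivAt (fun y : ℂ => Δ * y) Δ 0 := by simpa using (hasDerivAt_id (0 : ℂ)).const_mul Δ
      have := hd.scomp (0 : ℂ) hd2
      rw [← hF1]
      exact this.deriv
  have h6 := hW x₀ hx₀ _ h5
  rw [θ.smul x₀ v₀ hv₀ Δ] at h6
  have h7 : (fun l => eval x₀.ofLp (V l)) = (Δ • v₀).ofLp := by
    funext l
    exact hV₀ l
  rw [hS, h7] at h0
  rw [h0] at h6
  exact mul_ne_zero (mul_ne_zero (pow_ne_zero _ hΔ) hne) (pow_ne_zero _ (hx₀.2 0)) h6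

end Pool.Agent.MQL

end
end
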