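import Pool.Agent.H43.TL2.M160
import Pool.Agent.H43.TL2.M163
import Pool.Agent.H43.TL2.M186

/-! The parts of this file: SR3.LnN, SR3.Fld2, SR3.LnF, MQL.AxLa. -/

section

/-!
# SR3 LnN: an affine line is tangent to every logarithmic symmetric differential

`g z = θ (F z) (F' z)` is entire; `F` and `vec E ∘ F` are vectors of polynomials, so `‖F' z‖ / ‖F z‖` and `‖(vec E ∘ F)' z‖ / ‖vec E (F z)‖` are at most `C / ‖z‖` near infinity; so `g → 0`
at infinity, `g = 0`.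
-/

set_option autoImplicit false

open Topology Filter Metric MvPolynomial

noncomputable section

namespace Pool.Agent.SR3

open Pool.Agent.H36.BP (EN fs wd wd_le)
open Pool.Agent.H14.PP (IsCone Tan CurveAt)
open Pool.Agent.H14.V (IsLift isLift_mk)
open Pool.Agent.H17 (PN VanishesAt HolomorphicInto)
open Pool.Agent.H62.FC (Homog)
open Pool.Agent.H13.OT (OrderTwo)
open Pool.Agent.H17EF (projVar coneE)
open Pool.Agent.H22.W (tan_entire)
open Pool.Agent.H22.WL (vanishesAt_lift)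
open Pool.Agent.AD (SymDiff TangentTo)

variable {N k M : ℕ} {P : Ideal (MvPolynomial (Fin (N + 1)) ℂ)} {H : MvPolynomial (Fin (N + 1)) ℂ} {h : ℕ}
  {E : Fin k → Fin (M + 1) → MvPolynomial (Fin (N + 1)) ℂ} {c b : Fin k → ℕ}

/-- the vector of the values -/
private def LnN_ev {n : ℕ} (G : Fin (n + 1) → Polynomial ℂ) (z : ℂ) : EN n := WithLp.toLp 2 (pev G z)

private theorem LnN_hasDeriv {n : ℕ} (G : Fin (n + 1) → Polynomial ℂ) (z : ℂ) :
    HasDerivAt (LnN_ev G) (LnN_ev (fun l => (G l).derivative) z) z := by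
  have h1 : HasDerivAt (fun z => pev G z) (pev (fun l => (G l).derivative) z) z :=
    hasDerivAt_pi.2 fun l => (G l).hasDerivAt z
  exact ((PiLp.continuousLinearEquiv 2 ℂ (fun _ : Fin (n + 1) => ℂ)).symm.hasFDerivAt).comp_hasDerivAt z h1

private theorem LnN_diff {n : ℕ} (G : Fin (n + 1) → Polynomial ℂ) : Differentiable ℂ (LnN_ev G) := fun z => (LnN_hasDeriv G z).differentiableAt

private theorem LnN_deriv {n : ℕ} (G : Fin (n + 1) → Polynomial ℂ) (z : ℂ) : deriv (LnN_ev G) z = LnN_ev (fun l => (G l).derivative) z :=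
  (LnN_hasDeriv G z).deriv

private theorem LnN_large (R : ℝ) : ∀ᶠ z : ℂ in cocompact ℂ, R ≤ ‖z‖ :=
  (tendsto_norm_cocompact_atTop (E := ℂ)).eventually (eventually_ge_atTop R)

/-- upper bound -/
private theorem LnN_up (p : Polynomial ℂ) {n : ℕ} (hn : p.natDegree ≤ n) : ∃ C : ℝ, 0 ≤ C ∧ ∀ z : ℂ, 1 ≤ ‖z‖ → ‖p.eval z‖ ≤ C * ‖z‖ ^ n := by
  refine ⟨∑ i ∈ Finset.range (p.natDegree + 1), ‖p.coeff i‖, Finset.sum_nonneg fun _ _ => norm_nonneg _, fun z hz => ?_⟩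
  rw [Polynomial.eval_eq_sum_range, Finset.sum_mul]
  refine (norm_sum_le _ _).trans (Finset.sum_le_sum fun i hi => ?_)
  rw [norm_mul, norm_pow]
  exact mul_le_mul_of_nonneg_left (pow_le_pow_right₀ hz (by have := Finset.mem_range.1 hi; omega)) (norm_nonneg _)

private theorem LnN_lead (p : Polynomial ℂ) :
    Tendsto (fun z : ℂ => ‖p.eval z‖ / ‖z‖ ^ p.natDegree) (cocompact ℂ) (𝓝 ‖p.leadingCoeff‖) := by
  have h1 : Tendsto (fun z : ℂ => z⁻¹) (cocompact ℂ) (𝓝 0) := by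
    rw [← Metric.cobounded_eq_cocompact]
    exact tendsto_inv₀_cobounded
  have h2 : Tendsto (fun z : ℂ => ‖(p.reverse).eval z⁻¹‖) (cocompact ℂ) (𝓝 ‖(p.reverse).eval 0‖) :=
    ((p.reverse.continuous.tendsto 0).comp h1).norm
  rw [← Polynomial.coeff_zero_eq_eval_zero, Polynomial.coeff_zero_reverse] at h2
  refine h2.congr' ?_
  filter_upwards [LnN_large 1] with z hz
  have hz0 : z ≠ 0 := by
    rintro rfl
    rw [norm_zero] at hz
    linarith
  have hpos : (0 : ℝ) < ‖z‖ ^ p.natDegree := pow_pos (norm_pos_iff.2 hz0) _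
  rw [eq_div_iff hpos.ne', ← norm_pow, ← norm_mul]
  congr 1
  let _ : Invertible z := invertibleOfNonzero hz0
  have h3 := Polynomial.eval₂_reverse_mul_pow (RingHom.id ℂ) z p
  rw [invOf_eq_inv] at h3
  simpa [Polynomial.eval₂_eq_eval_map] using h3

/-- lower bound -/
private theorem LnN_low {p : Polynomial ℂ} (hp : p ≠ 0) : ∃ a : ℝ, 0 < a ∧ ∀ᶠ z : ℂ in cocompact ℂ, a * ‖z‖ ^ p.natDegree ≤ ‖p.eval z‖ := by
  have h0 : 0 < ‖p.leadingCoeff‖ := norm_pos_iff.2 (Polynomial.leadingCoeff_ne_zero.2 hp)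
  refine ⟨‖p.leadingCoeff‖ / 2, by positivity, ?_⟩
  filter_upwards [(LnN_lead p).eventually (lt_mem_nhds (half_lt_self h0)), LnN_large 1] with z hz h1
  have h2 : 0 < ‖z‖ ^ p.natDegree := by positivity
  rw [lt_div_iff₀ h2] at hz
  exact hz.le

/-- the logarithmic derivative of a vector of polynomials -/
private theorem LnN_quot {n : ℕ} (G : Fin (n + 1) → Polynomial ℂ) :
    ∃ C : ℝ, 0 ≤ C ∧ ∀ᶠ z : ℂ in cocompact ℂ, ‖LnN_ev (fun l => (G l).derivative) z‖ ≤ C / ‖z‖ * ‖LnN_ev G z‖ := by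
  obtain ⟨l₀, -, hl₀⟩ := Finset.exists_max_image Finset.univ (fun l => (G l).natDegree) ⟨0, Finset.mem_univ _⟩
  rcases Nat.eq_zero_or_pos (G l₀).natDegree with h0 | h0
  · refine ⟨0, le_rfl, Eventually.of_forall fun z => ?_⟩
    have h1 : (fun l => (G l).derivative) = fun _ => 0 := by
      funext l
      refine Polynomial.derivative_of_natDegree_zero ?_
      have := hl₀ l (Finset.mem_univ l)
      omega
    rw [h1]
    have h2 : LnN_ev (fun _ : Fin (n + 1) => (0 : Polynomial ℂ)) z = 0 := by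
      ext l
      change (0 : Polynomial ℂ).eval z = 0
      rw [Polynomial.eval_zero]
    rw [h2, norm_zero]
    positivity
  · have hne : G l₀ ≠ 0 := by
      intro h
      rw [h, Polynomial.natDegree_zero] at h0
      exact lt_irrefl _ h0
    obtain ⟨a, ha, hlow⟩ := LnN_low hne
    have hup : ∀ l, ∃ C : ℝ, 0 ≤ C ∧ ∀ z : ℂ, 1 ≤ ‖z‖ → ‖((G l).derivative).eval z‖ ≤ C * ‖z‖ ^ ((G l₀).natDegree - 1) := fun l =>
      LnN_up _ ((Polynomial.natDegree_derivative_le (G l)).trans (by have := hl₀ l (Finset.mem_univ l); omega))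
    choose C hC0 hC using hup
    refine ⟨(∑ l, C l) / a, by have := Finset.sum_nonneg fun l (_ : l ∈ Finset.univ) => hC0 l; positivity, ?_⟩
    filter_upwards [hlow, LnN_large 1] with z hz h1
    have hz0 : 0 < ‖z‖ := by linarith
    have h2 : ‖LnN_ev (fun l => (G l).derivative) z‖ ≤ (∑ l, C l) * ‖z‖ ^ ((G l₀).natDegree - 1) := by
      have h3 : ‖LnN_ev (fun l => (G l).derivative) z‖ ≤ ∑ l, ‖((G l).derivative).eval z‖ := by
        rw [EuclideanSpace.norm_eq]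
        refine (Real.sqrt_le_sqrt (Finset.sum_sq_le_sq_sum_of_nonneg ?_)).trans ?_
        · exact fun l _ => norm_nonneg _
        · rw [Real.sqrt_sq (Finset.sum_nonneg fun _ _ => norm_nonneg _)]
          exact le_rfl
      refine h3.trans ?_
      rw [Finset.sum_mul]
      exact Finset.sum_le_sum fun l _ => hC l z h1
    have h3 : ‖(G l₀).eval z‖ ≤ ‖LnN_ev G z‖ := PiLp.norm_apply_le (LnN_ev G z) l₀
    have h4 : ‖z‖ ^ (G l₀).natDegree = ‖z‖ ^ ((G l₀).natDegree - 1) * ‖z‖ := by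
      rw [← pow_succ, Nat.sub_add_cancel h0]
    have h5 : a * (‖z‖ ^ ((G l₀).natDegree - 1) * ‖z‖) ≤ ‖LnN_ev G z‖ := by
      rw [← h4]
      exact hz.trans h3
    refine h2.trans ?_
    have h6 : 0 ≤ ∑ l, C l := Finset.sum_nonneg fun l _ => hC0 l
    rw [div_div, div_mul_eq_mul_div, le_div_iff₀ (by positivity)]
    calc (∑ l, C l) * ‖z‖ ^ ((G l₀).natDegree - 1) * (a * ‖z‖) = (∑ l, C l) * (a * (‖z‖ ^ ((G l₀).natDegree - 1) * ‖z‖)) := by ring
      _ ≤ (∑ l, C l) * ‖LnN_ev G z‖ := mul_le_mul_of_nonneg_left h5 h6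

/-- the composition with a form is a polynomial -/
private theorem LnN_comp {n : ℕ} (F : Fin (N + 1) → Polynomial ℂ) (E₀ : Fin (n + 1) → MvPolynomial (Fin (N + 1)) ℂ) (z : ℂ) :
    vec E₀ (LnN_ev F z) = LnN_ev (fun l => MvPolynomial.aeval F (E₀ l)) z := by
  ext l
  change eval (pev F z) (E₀ l) = (MvPolynomial.aeval F (E₀ l)).eval z
  have h1 := MvPolynomial.eval₂_comp_left (Polynomial.evalRingHom z) (algebraMap ℂ (Polynomial ℂ)) F (E₀ l)
  rw [MvPolynomial.aeval_def, ← Polynomial.coe_evalRingHom, h1]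
  have h2 : (Polynomial.evalRingHom z).comp (algebraMap ℂ (Polynomial ℂ)) = RingHom.id ℂ := by
    ext a
    simp
  rw [h2]
  rfl

private theorem LnN_inner {n : ℕ} (x v : EN n) (hx : x ≠ 0) : ‖inner ℂ x v / (‖x‖ : ℂ) ^ 2‖ ≤ ‖v‖ / ‖x‖ := by
  have h1 : 0 < ‖x‖ := norm_pos_iff.2 hx
  rw [norm_div, norm_pow, Complex.norm_real, Real.norm_eq_abs, abs_of_pos h1, div_le_div_iff₀ (by positivity) h1]
  calc ‖inner ℂ x v‖ * ‖x‖ ≤ ‖x‖ * ‖v‖ * ‖x‖ := mul_le_mul_of_nonneg_right (norm_inner_le_norm _ _) h1.le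
    _ = ‖v‖ * ‖x‖ ^ 2 := by ring

private theorem LnN_fs {n : ℕ} (x v : EN n) (hx : x ≠ 0) : fs x v ≤ ‖v‖ / ‖x‖ := by
  have h1 : 0 < ‖x‖ := norm_pos_iff.2 hx
  unfold fs
  rw [div_le_div_iff₀ (by positivity) h1]
  calc wd x v * ‖x‖ ≤ ‖x‖ * ‖v‖ * ‖x‖ := mul_le_mul_of_nonneg_right (wd_le _ _) h1.le
    _ = ‖v‖ * ‖x‖ ^ 2 := by ring

/-- the logarithmic length of the derivative of an affine line -/
private theorem LnN_log {F : Fin (N + 1) → Polynomial ℂ} (c : Fin k → ℕ) (h0 : ∀ z, LnN_ev F z ≠ 0) (hE : ∀ i z, vec (E i) (LnN_ev F z) ≠ 0) :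
    ∃ C : ℝ, 0 ≤ C ∧ ∀ᶠ z : ℂ in cocompact ℂ, logLen E c (LnN_ev F z) (deriv (LnN_ev F) z) ≤ C / ‖z‖ := by
  obtain ⟨C₀, hC₀, h1⟩ := LnN_quot F
  have h2 : ∀ i, ∃ C : ℝ, 0 ≤ C ∧ ∀ᶠ z : ℂ in cocompact ℂ, ‖LnN_ev (fun l => (MvPolynomial.aeval F (E i l)).derivative) z‖ ≤
      C / ‖z‖ * ‖LnN_ev (fun l => MvPolynomial.aeval F (E i l)) z‖ := fun i => LnN_quot _
  choose C hC h2 using h2
  refine ⟨C₀ + ∑ i, (C i + c i * C₀), add_nonneg hC₀ (Finset.sum_nonneg fun i _ => add_nonneg (hC i) (by positivity)), ?_⟩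
  filter_upwards [h1, eventually_all.2 h2, LnN_large 1] with z hz hz' hz1
  have hx : 0 < ‖LnN_ev F z‖ := norm_pos_iff.2 (h0 z)
  have h3 : ‖deriv (LnN_ev F) z‖ / ‖LnN_ev F z‖ ≤ C₀ / ‖z‖ := by
    rw [LnN_deriv, div_le_iff₀ hx]
    exact hz
  have h4 : ∀ i, ‖ellE (E i) (c i) (LnN_ev F z) (deriv (LnN_ev F) z)‖ ≤ (C i + c i * C₀) / ‖z‖ := by
    intro i
    have hy : 0 < ‖vec (E i) (LnN_ev F z)‖ := norm_pos_iff.2 (hE i z)
    have h5 : fderiv ℂ (vec (E i)) (LnN_ev F z) (deriv (LnN_ev F) z) = LnN_ev (fun l => (MvPolynomial.aeval F (E i l)).derivative) z := by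
      have h6 : HasDerivAt (fun w => vec (E i) (LnN_ev F w)) (fderiv ℂ (vec (E i)) (LnN_ev F z) (deriv (LnN_ev F) z)) z :=
        ((snc2_diffE (E i) (LnN_ev F z)).hasFDerivAt).comp_hasDerivAt z ((LnN_diff F z).hasDerivAt)
      have h7 : (fun w => vec (E i) (LnN_ev F w)) = LnN_ev (fun l => MvPolynomial.aeval F (E i l)) := funext fun w => LnN_comp F (E i) w
      rw [h7] at h6
      exact h6.unique (LnN_hasDeriv _ z)
    have h6 : ‖fderiv ℂ (vec (E i)) (LnN_ev F z) (deriv (LnN_ev F) z)‖ / ‖vec (E i) (LnN_ev F z)‖ ≤ C i / ‖z‖ := by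
      rw [h5, div_le_iff₀ hy, LnN_comp]
      exact hz' i
    unfold ellE
    refine (norm_sub_le _ _).trans ?_
    rw [add_div]
    refine add_le_add ((LnN_inner _ _ (hE i z)).trans h6) ?_
    rw [norm_mul, Complex.norm_natCast, mul_div_assoc]
    exact mul_le_mul_of_nonneg_left ((LnN_inner _ _ (h0 z)).trans h3) (Nat.cast_nonneg _)
  unfold logLen
  rw [add_div, Finset.sum_div]
  exact add_le_add ((LnN_fs _ _ (h0 z)).trans h3) (Finset.sum_le_sum fun i _ => h4 i)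

private theorem LnN_zero (hH : H.IsHomogeneous h) (h1 : 1 ≤ h) {x : Fin (N + 1) → ℂ} (hx : eval x H = 1) : x ≠ 0 := by
  rintro rfl
  have h2 := snc2_evalH hH (0 : ℂ) (0 : EN N)
  rw [smul_zero, zero_pow (by omega), zero_mul] at h2
  exact one_ne_zero (hx.symm.trans h2)

private theorem LnN_up' (p : Polynomial ℂ) {n : ℕ} (hn : p.natDegree ≤ n) : ∃ C : ℝ, 0 ≤ C ∧ ∀ z : ℂ, ‖p.eval z‖ ≤ C * (1 + ‖z‖) ^ n := by
  refine ⟨∑ i ∈ Finset.range (p.natDegree + 1), ‖p.coeff i‖, Finset.sum_nonneg fun _ _ => norm_nonneg _, fun z => ?_⟩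
  rw [Polynomial.eval_eq_sum_range, Finset.sum_mul]
  refine (norm_sum_le _ _).trans (Finset.sum_le_sum fun i hi => ?_)
  rw [norm_mul, norm_pow]
  have h0 := norm_nonneg z
  refine mul_le_mul_of_nonneg_left ?_ (norm_nonneg _)
  exact (pow_le_pow_left₀ h0 (by linarith) i).trans (pow_le_pow_right₀ (by linarith) (by have := Finset.mem_range.1 hi; omega))

/-- order two -/
private theorem LnN_ord {F : Fin (N + 1) → Polynomial ℂ} (h0 : ∀ z, (LnN_ev F z).ofLp ≠ 0) :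
    OrderTwo fun z => Projectivization.mk ℂ (LnN_ev F z).ofLp (h0 z) := by
  have hup : ∀ l, ∃ C : ℝ, 0 ≤ C ∧ ∀ z : ℂ, ‖(F l).eval z‖ ≤ C * (1 + ‖z‖) ^ (Finset.univ.sup fun l => (F l).natDegree) := fun l =>
    LnN_up' _ (Finset.le_sup (f := fun l => (F l).natDegree) (Finset.mem_univ l))
  choose C hC0 hC using hup
  set n : ℕ := Finset.univ.sup fun l => (F l).natDegree with hn
  set K : ℝ := 1 + ∑ l, C l with hK
  have hK1 : 1 ≤ K := by
    have := Finset.sum_nonneg fun l (_ : l ∈ Finset.univ) => hC0 l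
    rw [hK]
    linarith
  have hd : Differentiable ℂ fun z => pev F z := differentiable_pi.2 fun l => (F l).differentiable
  have hle : ∀ z, ‖pev F z‖ ≤ K * (1 + ‖z‖) ^ n := by
    intro z
    have hz := norm_nonneg z
    refine (pi_norm_le_iff_of_nonneg (by positivity)).2 fun l => (hC l z).trans ?_
    refine mul_le_mul_of_nonneg_right ?_ (by positivity)
    have := Finset.single_le_sum (fun l (_ : l ∈ Finset.univ) => hC0 l) (Finset.mem_univ l)
    rw [hK]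
    linarith
  refine ⟨fun z => pev F z, Real.log K + n, hd, fun z => ⟨h0 z, rfl⟩, fun r hr => ?_⟩
  have hlK : 0 ≤ Real.log K := Real.log_nonneg hK1
  refine Real.circleAverage_mono_on_of_le_circle ?_ fun z hz => ?_
  · refine ContinuousOn.circleIntegrable hr.le (Continuous.continuousOn ?_)
    exact (hd.continuous.norm).log fun z => norm_ne_zero_iff.2 (h0 z)
  · have hz' : ‖z‖ = r := by simpa [abs_of_pos hr] using hz
    have h1 : 0 < ‖pev F z‖ := norm_pos_iff.2 (h0 z)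
    calc Real.log ‖pev F z‖ ≤ Real.log (K * (1 + ‖z‖) ^ n) := Real.log_le_log h1 (hle z)
      _ = Real.log K + n * Real.log (1 + r) := by rw [hz', Real.log_mul (by positivity) (by positivity), Real.log_pow]
      _ ≤ Real.log K + n * r := by
        have h2 := Real.log_le_sub_one_of_pos (show (0 : ℝ) < 1 + r by linarith)
        have h3 : (n : ℝ) * Real.log (1 + r) ≤ n * r := mul_le_mul_of_nonneg_left (by linarith) (Nat.cast_nonneg _)
        linarith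
      _ ≤ (Real.log K + n) * (1 + r ^ 2) := by
        have h2 : (0 : ℝ) ≤ n := Nat.cast_nonneg _
        have h3 : r ≤ 1 + r ^ 2 := by nlinarith [sq_nonneg (r - 1)]
        have h4 : (n : ℝ) * r ≤ n * (1 + r ^ 2) := mul_le_mul_of_nonneg_left h3 h2
        have h5 : Real.log K ≤ Real.log K * (1 + r ^ 2) := le_mul_of_one_le_right hlK (by nlinarith [sq_nonneg r])
        linarith

/-- the projective curve is not constant -/
private theorem LnN_ne (hH : H.IsHomogeneous h) (h1 : 1 ≤ h) {F : Fin (N + 1) → Polynomial ℂ} (hF : PLine P H F) (h0 : ∀ z, (LnN_ev F z).ofLp ≠ 0) :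
    ∃ z w, Projectivization.mk ℂ (LnN_ev F z).ofLp (h0 z) ≠ Projectivization.mk ℂ (LnN_ev F w).ofLp (h0 w) := by
  classical
  by_contra hcon
  push Not at hcon
  obtain ⟨l, hl⟩ := hF.ne
  have h2 : ∀ z, (F l).eval z ∈ (Polynomial.nthRootsFinset h (1 : ℂ)).image fun a => a * (F l).eval 0 := by
    intro z
    have h3 := hcon z 0
    rw [Projectivization.mk_eq_mk_iff'] at h3
    obtain ⟨a, ha⟩ := h3
    have ha' : a • pev F 0 = pev F z := ha
    have h4 : a ^ h = 1 := by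
      have h5 := snc2_evalH hH a (LnN_ev F 0)
      have h6 : eval (a • LnN_ev F 0).ofLp H = 1 := by
        change eval (a • pev F 0) H = 1
        rw [ha']
        exact hF.one z
      have h7 : eval (LnN_ev F 0).ofLp H = 1 := hF.one 0
      rw [h6, h7, mul_one] at h5
      exact h5.symm
    refine Finset.mem_image.2 ⟨a, (Polynomial.mem_nthRootsFinset (by omega) _).2 h4, ?_⟩
    exact congrFun ha' l
  obtain ⟨v, hv⟩ := Infinite.exists_notMem_finset ((Polynomial.nthRootsFinset h (1 : ℂ)).image fun a => a * (F l).eval 0)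
  have h3 : (F l - Polynomial.C v).degree ≠ 0 := by
    intro h4
    have h5 : (F l - Polynomial.C v).natDegree = 0 := Polynomial.natDegree_eq_zero_iff_degree_le_zero.2 h4.le
    rw [Polynomial.natDegree_sub_C] at h5
    omega
  obtain ⟨z, hz⟩ := IsAlgClosed.exists_root (F l - Polynomial.C v) h3
  rw [Polynomial.IsRoot.def, Polynomial.eval_sub, Polynomial.eval_C, sub_eq_zero] at hz
  exact hv (hz ▸ h2 z)

private theorem LnN_oc (hH : H.IsHomogeneous h) (h1 : 1 ≤ h) {F : Fin (N + 1) → Polynomial ℂ} (hF : PLine P H F) (z : ℂ) : LnN_ev F z ∈ oc P H := by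
  refine ⟨⟨LnN_zero hH h1 (hF.one z), fun Q hQ => hF.mem z Q hQ⟩, fun _ => ?_⟩
  have h2 : eval (pev F z) H ≠ 0 := by
    rw [hF.one z]
    exact one_ne_zero
  exact h2

theorem line_null (hH : H.IsHomogeneous h) (h1 : 1 ≤ h) (hs : Snc P H E b) {m : ℕ} (hm : 1 ≤ m) (θ : SymDiff (oc P H) m) (hθ : HasLogPoles E c θ)
    {F : Fin (N + 1) → Polynomial ℂ} (hF : PLine P H F) (z : ℂ) :
    θ.toFun (WithLp.toLp 2 (pev F z)) (deriv (fun w => (WithLp.toLp 2 (pev F w) : EN N)) z) = 0 := by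
  have hoc := LnN_oc hH h1 hF
  have h0 : ∀ z, LnN_ev F z ≠ 0 := fun z h => (hoc z).1.1 (by
    have h2 := congrArg WithLp.ofLp h
    exact h2)
  obtain ⟨C, hC, hCθ⟩ := hθ
  obtain ⟨C', hC', hlog⟩ := LnN_log (E := E) c h0 fun i z => snc2_ne hs i (hoc z)
  have han : Differentiable ℂ fun z => θ.toFun (LnN_ev F z) (deriv (LnN_ev F) z) := fun z =>
    (θ.curve_an ⟨(LnN_diff F).analyticAt z, Eventually.of_forall hoc⟩).differentiableAt
  refine han.apply_eq_of_tendsto_cocompact z ?_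
  have h2 : Tendsto (fun z : ℂ => C * (C' / ‖z‖) ^ m) (cocompact ℂ) (𝓝 (C * 0 ^ m)) :=
    (((tendsto_norm_cocompact_atTop (E := ℂ)).const_div_atTop C').pow m).const_mul C
  rw [zero_pow (by omega), mul_zero] at h2
  refine squeeze_zero_norm' ?_ h2
  filter_upwards [hlog] with z hz
  refine (hCθ _ (hoc z) _ (tan_entire (LnN_diff F) hoc z)).trans (mul_le_mul_of_nonneg_left (pow_le_pow_left₀ ?_ hz m) hC)
  exact add_nonneg (Pool.Agent.H36.BP.fs_nonneg _ _) (Finset.sum_nonneg fun _ _ => norm_nonneg _)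

theorem line_R (hP : Homog P) (hH : H.IsHomogeneous h) (h1 : 1 ≤ h) (hs : Snc P H E b) {s : ℕ} {m : Fin s → ℕ} (hm : ∀ j, 1 ≤ m j)
    (θ : ∀ j, SymDiff (oc P H) (m j)) (hθ : ∀ j, HasLogPoles E c (θ j))
    {t : ℕ} {R : Fin t → MvPolynomial (Fin (N + 1)) ℂ} (hN : NullCurve θ R) {F : Fin (N + 1) → Polynomial ℂ} (hF : PLine P H F) (l : Fin t) (z : ℂ) :
    eval (pev F z) (R l) = 0 := by
  have hoc := LnN_oc hH h1 hF
  have h0 : ∀ z, (LnN_ev F z).ofLp ≠ 0 := fun z => (hoc z).1.1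
  have hl : IsLift (LnN_ev F) fun z => Projectivization.mk ℂ (LnN_ev F z).ofLp (h0 z) := isLift_mk (LnN_diff F) h0
  obtain ⟨D, hR⟩ := hN.hom
  have h2 := hN.null _ hl.holomorphicInto (LnN_ord h0)
    (fun z => ⟨(hl.mem_iff hP z).2 (hoc z).1, fun h2 => (hoc z).2 0 ((vanishesAt_lift hl hH z).1 h2)⟩) (LnN_ne hH h1 hF h0)
    (fun j => ⟨_, hl, line_null hH h1 hs (hm j) (θ j) (hθ j) hF⟩) l z
  exact (vanishesAt_lift hl (hR l) z).1 h2

end Pool.Agent.SR3

end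
end

section

/-!
# SR3 Fld2: the crossings of the boundary (the fields `cross` and `crE`)

The unit sphere of the cone is compact and near every point of the cone the crossings are multiples of this point; in a chart at a crossing the two
coordinates are bounded by the distances to the two components.
-/

set_option autoImplicit false

open Topology Filter Metric MvPolynomial

noncomputable section

namespace Pool.Agent.SR3

open Pool.Agent.H36.BP (EN fs wd)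
open Pool.Agent.H17BP (Surface IsChart)
open Pool.Agent.H14.PP (IsCone Tan)
open Pool.Agent.H17EF (projVar coneE)

variable {N k M : ℕ} {P : Ideal (MvPolynomial (Fin (N + 1)) ℂ)} {H : MvPolynomial (Fin (N + 1)) ℂ} {h : ℕ}
  {E : Fin k → Fin (M + 1) → MvPolynomial (Fin (N + 1)) ℂ} {c b : Fin k → ℕ}

namespace Fld2

theorem wd_comm (x v : EN N) : wd x v = wd v x := by
  unfold Pool.Agent.H36.BP.wd
  rw [norm_inner_symm, mul_comm]

theorem pd_smul_left {a : ℂ} (ha : a ≠ 0) (x y : EN N) : pd (a • x) y = pd x y := by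
  unfold pd
  rw [wd_comm (a • x) y, Pool.Agent.H36.BP.wd_smul_right, wd_comm y x, norm_smul]
  have h1 : ‖a‖ ≠ 0 := norm_ne_zero_iff.2 ha
  rw [mul_assoc, mul_div_mul_left _ _ h1]

theorem near {y : EN N} (hy : y ≠ 0) {s : Set (EN N)} (hs : s ∈ 𝓝 y) :
    ∃ r : ℝ, 0 < r ∧ ∀ x : EN N, x ≠ 0 → pd x y < r → ∃ a : ℂ, a ≠ 0 ∧ a • x ∈ s := by
  obtain ⟨ε, hε, hεs⟩ := Metric.mem_nhds_iff.1 hs
  have hy' : 0 < ‖y‖ := norm_pos_iff.2 hy
  refine ⟨min 1 (ε / ‖y‖), lt_min one_pos (div_pos hε hy'), fun x hx hp => ?_⟩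
  have hx' : 0 < ‖x‖ := norm_pos_iff.2 hx
  have h1 := snc2_wd hx y
  obtain ⟨a, ha⟩ : ∃ a : ℂ, a = inner ℂ x y / (‖x‖ : ℂ) ^ 2 := ⟨_, rfl⟩
  rw [← ha] at h1
  have h2 : ‖y - a • x‖ = pd x y * ‖y‖ := by
    unfold pd
    rw [← h1]
    field_simp
  have h3 : pd x y < 1 := lt_of_lt_of_le hp (min_le_left _ _)
  have h4 : pd x y < ε / ‖y‖ := lt_of_lt_of_le hp (min_le_right _ _)
  refine ⟨a, ?_, hεs ?_⟩
  · rintro rfl
    rw [zero_smul, sub_zero] at h2
    have : pd x y = 1 := by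
      have h5 : (1 - pd x y) * ‖y‖ = 0 := by linarith
      rcases mul_eq_zero.1 h5 with h6 | h6
      · linarith
      · exact absurd h6 hy'.ne'
    linarith
  · rw [mem_ball, dist_eq_norm, norm_sub_rev, h2]
    exact (lt_div_iff₀ hy').1 h4

/-- two components have different coordinates -/
theorem co_two {s : Fin k → Option Bool} (hinj : ∀ i i', s i ≠ none → s i = s i' → i = i') {i i' : Fin k} (hii : i ≠ i') {t : ℂ × ℂ} {B : ℝ}
    (hsi : s i ≠ none) (hsi' : s i' ≠ none) (h : ‖co (s i) t‖ ≤ B) (h' : ‖co (s i') t‖ ≤ B) : ‖t‖ ≤ B := by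
  have hne : s i ≠ s i' := fun h0 => hii (hinj i i' hsi h0)
  rcases hs : s i with _ | _ | _
  · exact absurd hs hsi
  · rcases hs' : s i' with _ | _ | _
    · exact absurd hs' hsi'
    · exact absurd (hs.trans hs'.symm) hne
    · rw [hs] at h
      rw [hs'] at h'
      exact max_le h h'
  · rcases hs' : s i' with _ | _ | _
    · exact absurd hs' hsi'
    · rw [hs] at h
      rw [hs'] at h'
      exact max_le h' h
    · exact absurd (hs.trans hs'.symm) hne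

theorem co_ne_none {s : Option Bool} {t : ℂ × ℂ} (h : co s t = 0) : s ≠ none := by
  rintro rfl
  exact one_ne_zero h

theorem cross_nhds (hE : ∀ i l, (E i l).IsHomogeneous (c i)) (hs : Snc P H E b) {x : EN N} (hx : x ∈ coneE P) :
    ∀ᶠ y in 𝓝 x, y ∈ coneE P → ∀ i i', i ≠ i' → vec (E i) y = 0 → vec (E i') y = 0 → ∃ a : ℂ, y = a • x := by
  obtain ⟨τ, s, -, -, hinj, hloc, hpt, -⟩ := BdyAux.local_eqn hE hs hx
  have h1 : ∀ᶠ y in 𝓝 x, ∀ i, y ∈ coneE P → (vec (E i) y = 0 ↔ co (s i) (τ y) = 0) := eventually_all.2 hloc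
  filter_upwards [h1, hpt] with y h2 h3 hy i i' hii h4 h5
  have h6 := (h2 i hy).1 h4
  have h7 := (h2 i' hy).1 h5
  refine h3 hy (norm_le_zero_iff.1 ?_)
  refine co_two hinj hii (co_ne_none h6) (co_ne_none h7) ?_ ?_
  · rw [h6, norm_zero]
  · rw [h7, norm_zero]

end Fld2

open Fld2

theorem snc_cross (hX : Surface (coneE P)) (hc : IsCone (coneE P)) (hE : ∀ i l, (E i l).IsHomogeneous (c i)) (hs : Snc P H E b) :
    ∃ S : Finset (EN N), ∀ y ∈ coneE P, ∀ i i', i ≠ i' → vec (E i) y = 0 → vec (E i') y = 0 → ∃ s ∈ S, ∃ a : ℂ, y = a • s := by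
  classical
  have hK : IsCompact (sphere (0 : EN N) 1 ∩ insert 0 (coneE P)) := (isCompact_sphere 0 1).inter_right hc.closed
  have hKX : ∀ x ∈ sphere (0 : EN N) 1 ∩ insert 0 (coneE P), x ∈ coneE P := by
    rintro x ⟨h1, h2 | h2⟩
    · rw [mem_sphere_zero_iff_norm, h2, norm_zero] at h1
      exact absurd h1 zero_ne_one
    · exact h2
  obtain ⟨S, hS, hcov⟩ := hK.elim_nhds_subcover
    (fun x => {y | y ∈ coneE P → ∀ i i', i ≠ i' → vec (E i) y = 0 → vec (E i') y = 0 → ∃ a : ℂ, y = a • x})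
    (fun x hx => cross_nhds hE hs (hKX x hx))
  refine ⟨S, fun y hy i i' hii h1 h2 => ?_⟩
  have hy0 : y ≠ 0 := fun h0 => hX.zero (h0 ▸ hy)
  have hn : (‖y‖ : ℂ) ≠ 0 := by exact_mod_cast norm_ne_zero_iff.2 hy0
  have hn' : ((‖y‖ : ℂ))⁻¹ ≠ 0 := inv_ne_zero hn
  have hy1 : ((‖y‖ : ℂ))⁻¹ • y ∈ coneE P := hX.smul y hy _ hn'
  have hy2 : ((‖y‖ : ℂ))⁻¹ • y ∈ sphere (0 : EN N) 1 ∩ insert 0 (coneE P) := by
    refine ⟨?_, Or.inr hy1⟩
    rw [mem_sphere_zero_iff_norm, norm_smul, norm_inv, Complex.norm_real, norm_norm]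
    exact inv_mul_cancel₀ (norm_ne_zero_iff.2 hy0)
  have h3 := hcov hy2
  simp only [Set.mem_iUnion, Set.mem_ofPred_eq] at h3
  obtain ⟨s, hsS, h4⟩ := h3
  obtain ⟨a, ha⟩ := h4 hy1 i i' hii (by rw [BdyAux.vec_smul (hE i), h1, smul_zero]) (by rw [BdyAux.vec_smul (hE i'), h2, smul_zero])
  refine ⟨s, hsS, (‖y‖ : ℂ) * a, ?_⟩
  rw [mul_smul, ← ha, smul_smul, mul_inv_cancel₀ hn, one_smul]

theorem snc_crE (hX : Surface (coneE P)) (hc : IsCone (coneE P)) (hH : H.IsHomogeneous h) (hE : ∀ i l, (E i l).IsHomogeneous (c i)) (hs : Snc P H E b) :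
    ∀ y ∈ coneE P, ∀ i i', i ≠ i' → vec (E i) y = 0 → vec (E i') y = 0 → ∃ r C α : ℝ, 0 < r ∧ 0 < α ∧ ∀ x ∈ oc P H, pd x y < r → ∀ u : ℝ,
      u ≤ lamE (E i) (c i) x → u ≤ lamE (E i') (c i') x → pd x y ≤ C * Real.exp (-(α * u)) := by
  intro y hy i i' hii h0 h0'
  have hy0 : y ≠ 0 := fun h1 => hX.zero (h1 ▸ hy)
  have hy' : 0 < ‖y‖ := norm_pos_iff.2 hy0
  obtain ⟨σ, τ, s, e, u, hch, hσ0, hinj, he, -, -, -⟩ := hs.chart y hy
  have hco : ∀ j, vec (E j) y = 0 → s j ≠ none := by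
    intro j hj
    have h1 := (he j).2.2.self_of_nhds
    rw [hσ0, hj] at h1
    exact co_ne_none ((smul_eq_zero.1 h1.symm).resolve_right (he j).2.1)
  have hsi := hco i h0
  have hsi' := hco i' h0'
  -- constants
  have hσc : ContinuousAt σ 0 := hch.σ_an.continuousAt
  have hκ : ∀ j, ∃ κ : ℝ, 0 < κ ∧ ∀ᶠ t in 𝓝 (0 : ℂ × ℂ), κ * ‖σ t‖ ^ c j ≤ ‖e j t‖ := by
    intro j
    have h1 : 0 < ‖e j 0‖ := norm_pos_iff.2 (he j).2.1
    have h2 : 0 < ‖σ 0‖ ^ c j := pow_pos (norm_pos_iff.2 hch.ne) _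
    refine ⟨‖e j 0‖ / (2 * ‖σ 0‖ ^ c j), by positivity, ?_⟩
    have h3 : ContinuousAt (fun t => ‖e j 0‖ / (2 * ‖σ 0‖ ^ c j) * ‖σ t‖ ^ c j) 0 := (hσc.norm.pow _).const_mul _
    have h4 : ContinuousAt (fun t => ‖e j t‖) 0 := (he j).1.continuousAt.norm
    have h5 : ‖e j 0‖ / (2 * ‖σ 0‖ ^ c j) * ‖σ 0‖ ^ c j < ‖e j 0‖ := by
      have : ‖e j 0‖ / (2 * ‖σ 0‖ ^ c j) * ‖σ 0‖ ^ c j = ‖e j 0‖ / 2 := by field_simp
      rw [this]
      linarith
    exact (h3.eventually_lt h4 h5).mono fun t ht => ht.le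
  obtain ⟨κ, hκ0, hκe⟩ := hκ i
  obtain ⟨κ', hκ0', hκe'⟩ := hκ i'
  obtain ⟨L, hL0, hL⟩ := (hch.σ_an.differentiableAt.isBigO_sub).exists_pos
  have hLe := hL.bound
  -- the neighbourhood of `y`
  have hτx : τ y = 0 := by
    rw [← hσ0]
    exact hch.left.self_of_nhds
  have hτa : AnalyticAt ℂ τ y := by
    rw [← hσ0]
    exact hch.τ_an
  have hτt : Tendsto τ (𝓝 y) (𝓝 0) := by
    have := hτa.continuousAt.tendsto
    rwa [hτx] at this
  have hright := hch.right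
  rw [hσ0] at hright
  have hnear := ((((((hright.and (hτt.eventually hκe)).and (hτt.eventually hκe')).and (hτt.eventually hLe)).and
    (hτt.eventually (he i).2.2)).and (hτt.eventually (he i').2.2)))
  obtain ⟨r, hr, hnr⟩ := near hy0 hnear
  refine ⟨r, L / ‖y‖ * max κ⁻¹ κ'⁻¹, 1, hr, one_pos, fun x hx hp v hv hv' => ?_⟩
  have hx1 : x ∈ coneE P := hx.1
  have hx0 : x ≠ 0 := fun h1 => hX.zero (h1 ▸ hx1)
  obtain ⟨a, ha, hax⟩ := hnr x hx0 hp
  obtain ⟨⟨⟨⟨⟨h1, h2⟩, h2'⟩, h3⟩, h4⟩, h4'⟩ := hax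
  obtain ⟨d, hd, hxd⟩ := h1 (hX.smul x hx1 a ha)
  obtain ⟨t, ht⟩ : ∃ t, t = τ (a • x) := ⟨_, rfl⟩
  rw [← ht] at h2 h2' h3 h4 h4' hxd
  obtain ⟨q, hq0, hxq⟩ : ∃ q : ℂ, q ≠ 0 ∧ x = q • σ t := by
    refine ⟨a⁻¹ * d, mul_ne_zero (inv_ne_zero ha) hd, ?_⟩
    rw [mul_smul, ← hxd, smul_smul, inv_mul_cancel₀ ha, one_smul]
  have hσt : σ t ≠ 0 := by
    intro h5
    rw [h5, smul_zero] at hxq
    exact hx0 hxq
  -- the coordinates are small
  have key : ∀ j (κ : ℝ), 0 < κ → κ * ‖σ t‖ ^ c j ≤ ‖e j t‖ → vec (E j) (σ t) = co (s j) t • e j t → v ≤ lamE (E j) (c j) x →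
      ‖co (s j) t‖ ≤ κ⁻¹ * Real.exp (-v) := by
    intro j κ hκ h5 h6 h7
    rcases eq_or_ne (co (s j) t) 0 with h8 | h8
    · rw [h8, norm_zero]
      positivity
    have hσp : 0 < ‖σ t‖ ^ c j := pow_pos (norm_pos_iff.2 hσt) _
    have hqp : 0 < ‖q‖ ^ c j := pow_pos (norm_pos_iff.2 hq0) _
    have hep : 0 < ‖e j t‖ := lt_of_lt_of_le (mul_pos hκ hσp) h5
    have h9 : ‖vec (E j) x‖ = ‖q‖ ^ c j * (‖co (s j) t‖ * ‖e j t‖) := by
      rw [hxq, BdyAux.vec_smul (hE j), h6, norm_smul, norm_smul, norm_pow]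
    have hvp : 0 < ‖vec (E j) x‖ := by
      rw [h9]
      exact mul_pos hqp (mul_pos (norm_pos_iff.2 h8) hep)
    have hxp : 0 < ‖x‖ := norm_pos_iff.2 hx0
    have h10 : ‖vec (E j) x‖ ≤ Real.exp (-v) * ‖x‖ ^ c j := by
      have h11 : ‖x‖ ^ c j = Real.exp (c j * Real.log ‖x‖) := by
        rw [mul_comm, Real.exp_mul, Real.exp_log hxp, Real.rpow_natCast]
      rw [h11, ← Real.exp_add, ← Real.log_le_iff_le_exp hvp]
      unfold lamE at h7
      linarith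
    have h12 : ‖x‖ ^ c j = ‖q‖ ^ c j * ‖σ t‖ ^ c j := by rw [hxq, norm_smul, mul_pow]
    rw [h9, h12] at h10
    have h13 : ‖co (s j) t‖ * ‖e j t‖ ≤ Real.exp (-v) * ‖σ t‖ ^ c j := by
      have : ‖q‖ ^ c j * (‖co (s j) t‖ * ‖e j t‖) ≤ ‖q‖ ^ c j * (Real.exp (-v) * ‖σ t‖ ^ c j) := by
        calc _ ≤ _ := h10
          _ = _ := by ring
      exact le_of_mul_le_mul_left this hqp
    have h14 : ‖co (s j) t‖ * κ * ‖σ t‖ ^ c j ≤ Real.exp (-v) * ‖σ t‖ ^ c j := by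
      calc _ = ‖co (s j) t‖ * (κ * ‖σ t‖ ^ c j) := by ring
        _ ≤ ‖co (s j) t‖ * ‖e j t‖ := mul_le_mul_of_nonneg_left h5 (norm_nonneg _)
        _ ≤ _ := h13
    have h15 := le_of_mul_le_mul_right h14 hσp
    rw [inv_mul_eq_div, le_div_iff₀ hκ]
    exact h15
  have hexp : 0 < Real.exp (-v) := Real.exp_pos _
  have h5 : ‖t‖ ≤ max κ⁻¹ κ'⁻¹ * Real.exp (-v) := by
    refine co_two hinj hii hsi hsi' ?_ ?_
    · exact (key i κ hκ0 h2 h4 hv).trans (mul_le_mul_of_nonneg_right (le_max_left _ _) hexp.le)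
    · exact (key i' κ' hκ0' h2' h4' hv').trans (mul_le_mul_of_nonneg_right (le_max_right _ _) hexp.le)
  -- the distance
  have h6 : pd x y ≤ ‖σ t - σ 0‖ / ‖y‖ := by
    rw [hxq, pd_smul_left hq0]
    unfold pd
    have h7 : wd (σ t) y = wd (σ t) (σ 0 - σ t) := by
      have h8 := Pool.Agent.H36.BP.wd_inv (σ t) (σ 0 - σ t) 1 1
      rw [one_smul, one_smul, sub_add_cancel, norm_one, one_pow, one_mul, hσ0] at h8
      rw [hσ0]
      exact h8
    have h9 : wd (σ t) y ≤ ‖σ t‖ * ‖σ t - σ 0‖ := by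
      rw [h7, norm_sub_rev]
      exact Pool.Agent.H36.BP.wd_le _ _
    have h10 : 0 < ‖σ t‖ := norm_pos_iff.2 hσt
    rw [div_le_div_iff₀ (mul_pos h10 hy') hy']
    calc wd (σ t) y * ‖y‖ ≤ (‖σ t‖ * ‖σ t - σ 0‖) * ‖y‖ := mul_le_mul_of_nonneg_right h9 hy'.le
      _ = _ := by ring
  rw [sub_zero] at h3
  rw [one_mul]
  calc pd x y ≤ ‖σ t - σ 0‖ / ‖y‖ := h6
    _ ≤ L * (max κ⁻¹ κ'⁻¹ * Real.exp (-v)) / ‖y‖ := by
      refine div_le_div_of_nonneg_right (h3.trans ?_) hy'.le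
      exact mul_le_mul_of_nonneg_left h5 hL0.le
    _ = _ := by ring

end Pool.Agent.SR3

end
end

section

/-!
# SR3 LnF: up to the parameter there are only finitely many affine lines (the field `lines` of `Geo.Ok`)
-/

set_option autoImplicit false

open Topology Filter Metric MvPolynomial

noncomputable section

namespace Pool.Agent.SR3

open Pool.Agent.H36.BP (EN fs wd)
open Pool.Agent.H17BP (Surface IsChart)
open Pool.Agent.H14.PP (IsCone Tan)
open Pool.Agent.H17 (PN VanishesAt HolomorphicInto)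
open Pool.Agent.H62.FC (Homog)
open Pool.Agent.H17LG.Variety (FunField)
open Pool.Agent.H17EF (projVar coneE)
open Pool.Agent.AD (SymDiff TangentTo)

variable {N k M : ℕ} {P : Ideal (MvPolynomial (Fin (N + 1)) ℂ)} {H : MvPolynomial (Fin (N + 1)) ℂ} {h : ℕ}
  {E : Fin k → Fin (M + 1) → MvPolynomial (Fin (N + 1)) ℂ} {c b : Fin k → ℕ}

namespace LnFAux

/-- a polynomial has polynomial growth -/
theorem poly_growth (p : Polynomial ℂ) : ∃ C : ℝ, 0 ≤ C ∧ ∀ (n : ℕ), p.natDegree ≤ n → ∀ z, ‖p.eval z‖ ≤ C * (1 + ‖z‖) ^ n := by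
  refine ⟨∑ i ∈ Finset.range (p.natDegree + 1), ‖p.coeff i‖, Finset.sum_nonneg fun _ _ => norm_nonneg _, fun n hn z => ?_⟩
  rw [Polynomial.eval_eq_sum_range, Finset.sum_mul]
  refine (norm_sum_le _ _).trans (Finset.sum_le_sum fun i hi => ?_)
  rw [norm_mul, norm_pow]
  refine mul_le_mul_of_nonneg_left ?_ (norm_nonneg _)
  have h1 : (1 : ℝ) ≤ 1 + ‖z‖ := by linarith [norm_nonneg z]
  calc ‖z‖ ^ i ≤ (1 + ‖z‖) ^ i := pow_le_pow_left₀ (norm_nonneg _) (by linarith) _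
    _ ≤ (1 + ‖z‖) ^ n := pow_le_pow_right₀ h1 ((Nat.lt_succ_iff.1 (Finset.mem_range.1 hi)).trans hn)

/-- a vector of polynomials has polynomial growth -/
theorem vec_growth {ι : Type} [Fintype ι] (p : ι → Polynomial ℂ) :
    ∃ (C : ℝ) (n : ℕ), ∀ z, ‖(WithLp.toLp 2 (pev p z) : EuclideanSpace ℂ ι)‖ ≤ C * (1 + ‖z‖) ^ n := by
  choose C hC0 hC using fun l => poly_growth (p l)
  refine ⟨∑ l, C l, ∑ l, (p l).natDegree, fun z => ?_⟩
  have h1 : ‖(WithLp.toLp 2 (pev p z) : EuclideanSpace ℂ ι)‖ ≤ ∑ l, ‖(p l).eval z‖ := by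
    rw [EuclideanSpace.norm_eq]
    refine Real.sqrt_le_iff.2 ⟨Finset.sum_nonneg fun _ _ => norm_nonneg _, ?_⟩
    exact Finset.sum_sq_le_sq_sum_of_nonneg fun l _ => norm_nonneg _
  refine h1.trans ?_
  rw [Finset.sum_mul]
  exact Finset.sum_le_sum fun l _ => hC l _ (Finset.single_le_sum (f := fun l => (p l).natDegree) (fun _ _ => Nat.zero_le _) (Finset.mem_univ l)) z

/-- a vector of polynomials is an entire curve -/
theorem vec_diff {ι : Type} [Fintype ι] (p : ι → Polynomial ℂ) :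
    Differentiable ℂ fun z => (WithLp.toLp 2 (pev p z) : EuclideanSpace ℂ ι) := by
  have h1 : Differentiable ℂ fun z => pev p z := differentiable_pi.2 fun l => (p l).differentiable
  exact (PiLp.continuousLinearEquiv 2 ℂ (fun _ : ι => ℂ)).symm.differentiable.comp h1

end LnFAux

open LnFAux

theorem lines_geo [P.IsPrime] {z : Fin 2 → FunField P} (hP : Homog P) (hz : IsTranscendenceBasis ℂ z) (hH : H.IsHomogeneous h) (h1 : 1 ≤ h)
    (hs : Snc P H E b) {s : ℕ} {m : Fin s → ℕ} (hm : ∀ j, 1 ≤ m j) (θ : ∀ j, SymDiff (oc P H) (m j)) (hθ : ∀ j, HasLogPoles E c (θ j))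
    {t : ℕ} {R : Fin t → MvPolynomial (Fin (N + 1)) ℂ} (hN : NullCurve θ R) {n : ℕ} (supp : Fin n → Finset (Fin k))
    (Pol : Fin n → Fin s → MvPolynomial (Fin k) ℂ) (ty : EN N → Fin n) {mΩ jΩ r : ℕ} (Ω : Fin r → EN N → EN N → EN N → ℂ) :
    ∃ (a : ℕ) (Φ : Fin a → ℂ → EN N), (∀ i, (geoOf P H h E c b θ supp Pol ty mΩ jΩ Ω).Line (Φ i)) ∧
      ∀ F, (geoOf P H h E c b θ supp Pol ty mΩ jΩ Ω).Line F → ∃ i, ∀ z, ∃ w, F z = Φ i w := by
  obtain ⟨D, hD⟩ := hN.hom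
  obtain ⟨l₀, hl₀⟩ := hN.ne
  obtain ⟨a, Φ, hΦ, hall⟩ := lines_fin hP ⟨z, hz⟩ hH h1 (hD l₀) hl₀ fun F hF w => line_R hP hH h1 hs hm θ hθ hN hF l₀ w
  -- polynomial lines are lines
  have key1 : ∀ p, PLine P H p → (geoOf P H h E c b θ supp Pol ty mΩ jΩ Ω).Line fun z => WithLp.toLp 2 (pev p z) := by
    intro p hp
    refine ⟨vec_diff p, fun w => ?_, fun w => hp.one w, ?_, ?_⟩
    · show WithLp.toLp 2 (pev p w) ∈ oc P H
      refine ⟨⟨fun h0 => ?_, fun Q hQ => hp.mem w Q hQ⟩, fun _ => ?_⟩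
      · have h2 : pev p w = 0 := h0
        have h3 := hp.one w
        rw [h2, MvPolynomial.eval_zero, MvPolynomial.constantCoeff_eq, hH.coeff_eq_zero (by simp; omega)] at h3
        exact zero_ne_one h3
      · show eval (pev p w) H ≠ 0
        rw [hp.one w]
        exact one_ne_zero
    · exact vec_growth p
    · obtain ⟨l, hl⟩ := hp.ne
      by_contra hcon
      push Not at hcon
      have h2 : ∀ w, (p l).eval w = (p l).eval 0 := fun w => by
        have h3 := congrArg (fun x : EN N => x.ofLp l) (hcon w 0)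
        exact h3
      have h3 : p l = Polynomial.C ((p l).eval 0) := Polynomial.funext fun w => by rw [h2 w, Polynomial.eval_C]
      rw [h3, Polynomial.natDegree_C] at hl
      omega
  -- lines are polynomial
  have key2 : ∀ F, (geoOf P H h E c b θ supp Pol ty mΩ jΩ Ω).Line F → ∃ p, PLine P H p ∧ ∀ w, F w = WithLp.toLp 2 (pev p w) := by
    intro F hF
    obtain ⟨C, e, hg⟩ := hF.pol
    have key : ∀ l : Fin (N + 1), ∃ p : Polynomial ℂ, ∀ w, (F w).ofLp l = p.eval w := fun l =>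
      Pool.Agent.SY.exists_poly_of_growth e (fun w => (F w).ofLp l) C ((EuclideanSpace.proj (𝕜 := ℂ) l).differentiable.comp hF.diff)
        fun w => (PiLp.norm_apply_le (F w) l).trans (hg w)
    choose p hp using key
    have h2 : ∀ w : ℂ, pev p w = (F w).ofLp := fun w => funext fun l => (hp l w).symm
    have h3 : ∀ w, F w = WithLp.toLp 2 (pev p w) := fun w => by rw [h2 w]
    refine ⟨p, ⟨fun w Q hQ => ?_, fun w => ?_, ?_⟩, h3⟩
    · rw [h2 w]
      exact (hF.mem w).1.2 Q hQ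
    · rw [h2 w]
      exact hF.nm w
    · by_contra hcon
      push Not at hcon
      obtain ⟨w, w', hw⟩ := hF.ne
      apply hw
      rw [h3 w, h3 w']
      congr 1
      funext l
      show (p l).eval w = (p l).eval w'
      have h4 : (p l).natDegree = 0 := by have := hcon l; omega
      rw [Polynomial.eq_C_of_natDegree_eq_zero h4, Polynomial.eval_C, Polynomial.eval_C]
  refine ⟨a, fun i w => WithLp.toLp 2 (pev (Φ i) w), fun i => key1 (Φ i) (hΦ i), fun F hF => ?_⟩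
  obtain ⟨p, hp, hFp⟩ := key2 F hF
  obtain ⟨i, hi⟩ := hall p hp
  refine ⟨i, fun w => ?_⟩
  obtain ⟨w', hw'⟩ := hi w
  exact ⟨w', by rw [hFp w, hw']⟩

end Pool.Agent.SR3

end
end

section

/-!
# MQL AxLa: the curves avoid the axes with a negative exponent
-/

set_option autoImplicit false

open Topology Filter Metric MvPolynomial

noncomputable section

namespace Pool.Agent.MQL

open Pool.Agent.H36.BP (EN)
open Pool.Agent.H17BP (Surface)
open Pool.Agent.H17EF (coneE)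
open Pool.Agent.MQ (eval_smulE)
open Pool.Agent.MQ3

variable {M : ℕ} {P : Ideal (MvPolynomial (Fin (M + 1)) ℂ)} {RD H₀ Ra : MvPolynomial (Fin (M + 1)) ℂ} {m : ℕ} {X : NCModel P RD} {θ : WDiff (coneE P) m}
  {l : LF M} {S : Web X θ l} {mK : ℕ}

/-- the curves avoid the boundary upstairs -/
private theorem AxLa_ne {e : ℕ} (he : H₀.IsHomogeneous e) (k : S.ι) {F : ℂ → EN M} (hF : LCrv θ RD H₀ Ra F) (Y : NCLift X F) {z : ℂ} (hz : z ∈ S.Om Y k) :
    eval (S.σ k (S.lf Y k z)).ofLp H₀ ≠ 0 := by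
  intro h0
  obtain ⟨c, _, h1⟩ := Y.eq k.1 z (Om_sub hF.toWCrv Y k hz)
  have h2 : S.σ k (S.lf Y k z) = X.ρ k.1 (Y.p k.1 z) := by
    unfold Web.σ
    rw [(lfN_mem hF.toWCrv Y k z hz).2]
  apply hF.avoid z
  rw [h1, eval_smulE he, ← h2, h0, mul_zero]

theorem avoidL (_hX : Surface (coneE P)) (hD : DivB P RD H₀) (k : S.ι) {q : ℂ × ℂ} (_hq : q ∈ S.D k) : ∀ᶠ r in 𝓝[>] (0 : ℝ), ∀ F : ℂ → EN M, LCrv θ RD H₀ Ra F →
    ∀ Y : NCLift X F, Avoid (exX H₀ mK (S.σ k) q) (exY H₀ mK (S.σ k) q) {z | z ∈ S.Om Y k ∧ S.lf Y k z ∈ ball q r} fun z => S.lf Y k z - q := by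
  classical
  obtain ⟨e, he⟩ := hD.hom
  have h1 : ∀ᶠ r in 𝓝[>] (0 : ℝ), exX H₀ mK (S.σ k) q < 0 → ∀ t : ℂ, ‖t‖ < r → eval (S.σ k (q.1, q.2 + t)).ofLp H₀ = 0 := by
    by_cases hc : ∀ᶠ t in 𝓝 (0 : ℂ), eval (S.σ k (q.1, q.2 + t)).ofLp H₀ = 0
    · obtain ⟨δ, hδ, h⟩ := Metric.eventually_nhds_iff.1 hc
      filter_upwards [Ioo_mem_nhdsGT hδ] with r hr _ t ht
      exact h (by rw [dist_zero_right]; exact ht.trans hr.2)
    · filter_upwards with r hr
      rw [exX, if_neg hc] at hr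
      exact absurd hr (lt_irrefl _)
  have h2 : ∀ᶠ r in 𝓝[>] (0 : ℝ), exY H₀ mK (S.σ k) q < 0 → ∀ t : ℂ, ‖t‖ < r → eval (S.σ k (q.1 + t, q.2)).ofLp H₀ = 0 := by
    by_cases hc : ∀ᶠ t in 𝓝 (0 : ℂ), eval (S.σ k (q.1 + t, q.2)).ofLp H₀ = 0
    · obtain ⟨δ, hδ, h⟩ := Metric.eventually_nhds_iff.1 hc
      filter_upwards [Ioo_mem_nhdsGT hδ] with r hr _ t ht
      exact h (by rw [dist_zero_right]; exact ht.trans hr.2)
    · filter_upwards with r hr
      rw [exY, if_neg hc] at hr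
      exact absurd hr (lt_irrefl _)
  filter_upwards [h1, h2] with r g1 g2 F hF Y
  refine ⟨fun hx z hz h0 => ?_, fun hy z hz h0 => ?_⟩
  · have h3 : ‖(S.lf Y k z).2 - q.2‖ < r := by
      have h4 := hz.2
      rw [mem_ball, dist_eq_norm] at h4
      exact (norm_snd_le (S.lf Y k z - q)).trans_lt h4
    have h5 : (q.1, q.2 + ((S.lf Y k z).2 - q.2)) = S.lf Y k z := by
      refine Prod.ext ?_ (add_sub_cancel _ _)
      exact (sub_eq_zero.1 h0).symm
    have h6 := g1 hx _ h3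
    rw [h5] at h6
    exact AxLa_ne he k hF Y hz.1 h6
  · have h3 : ‖(S.lf Y k z).1 - q.1‖ < r := by
      have h4 := hz.2
      rw [mem_ball, dist_eq_norm] at h4
      exact (norm_fst_le (S.lf Y k z - q)).trans_lt h4
    have h5 : (q.1 + ((S.lf Y k z).1 - q.1), q.2) = S.lf Y k z := by
      refine Prod.ext (add_sub_cancel _ _) ?_
      exact (sub_eq_zero.1 h0).symm
    have h6 := g2 hy _ h3
    rw [h5] at h6
    exact AxLa_ne he k hF Y hz.1 h6

end Pool.Agent.MQL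

end
end
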