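import Pool.Agent.H43.TL2.H36.LB.SameL
import Pool.Agent.H43.TL2.M115
import Pool.Agent.H43.TL2.M131
import Pool.Agent.H43.TL2.M170
import Pool.Agent.H43.TL2.M188
import Pool.Agent.H43.TL2.M193
import Pool.Agent.H43.TL2.M196
import Pool.Agent.H43.TL2.M85
import Pool.Agent.H43.TL2.SR3.OmL

/-! The parts of this file: SDA.E4, SR3.MetB, SR3.Fld3, SR3.OkA. -/

section

/-!
# SDA E4: from the curves of order two on the cone to the four properties and the bound for the Kobayashi metric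
-/

set_option autoImplicit false

open Topology Filter Metric MvPolynomial

noncomputable section

namespace Pool.Agent.SDA

open Pool.Agent.H36.BP (EN fs OrdTwo circle_approx)
open Pool.Agent.H17 (PN VanishesAt HolomorphicInto ZariskiClosedIn)
open Pool.Agent.H62.FC (Homog)
open Pool.Agent.H62.SA (locVar OnBd IsProperMap)
open Pool.Agent.H7.Bir (GGLOpen)
open Pool.Agent.H17LG.Variety (FunField IsLogGeneralType)
open Pool.Agent.H17EF (projVar coneE LE)
open Pool.Agent.H14.KB (KobayashiHyperbolicModulo)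
open Pool.Agent.H13.SM (conTan)
open Pool.Agent.H13.OT (OrderTwo)
open Pool.Agent.H14.V (IsLift average_toLp)
open Pool.Agent.H22.WL (vanishesAt_lift)

/-- from the averages to the characteristic function -/
theorem ordTwo_of_average {N : ℕ} {H : ℂ → EN N} (hH : Differentiable ℂ H) (h0 : ∀ z, H z ≠ 0) {A : ℝ}
    (hA : ∀ r : ℝ, 0 < r → Real.circleAverage (fun z => Real.log ‖H z‖) 0 r ≤ A * (1 + r ^ 2)) : OrdTwo H := by
  have hn : ∀ z, 0 < ‖H z‖ := fun z => norm_pos_iff.2 (h0 z)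
  have hlc : Continuous fun z => Real.log ‖H z‖ := hH.continuous.norm.log fun z => (hn z).ne'
  refine ⟨A + 2 + |Real.log ‖H 0‖|, fun r hr => ?_⟩
  obtain ⟨u, hu, huR⟩ := circle_approx hr (fun z => Real.log ‖H z‖) hlc.continuousOn one_pos
  have hexp : ∀ z, ‖Complex.exp (-u z - 1) • H z‖ = Real.exp (-(u z).re - 1 + Real.log ‖H z‖) := by
    intro z
    rw [norm_smul, Complex.norm_exp, Real.exp_add, Real.exp_log (hn z)]
    simp
  have hup : ∀ z ∈ ball (0 : ℂ) r, ‖Complex.exp (-u z - 1) • H z‖ ≤ 1 := by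
    intro z hz
    have hd : DiffContOnCl ℂ (fun z => Complex.exp (-u z - 1) • H z) (ball (0 : ℂ) r) :=
      ((hu.neg.sub_const _).cexp.smul hH).diffContOnCl
    refine Complex.norm_le_of_forall_mem_frontier_norm_le isBounded_ball hd (fun y hy => ?_)
      (subset_closure hz)
    rw [frontier_ball _ hr.ne'] at hy
    rw [hexp y, Real.exp_le_one_iff]
    have h1 := (abs_le.1 (huR y hy)).1
    linarith
  have hmean : (u 0).re ≤ A * (1 + r ^ 2) + 1 := by
    have h1 : Real.circleAverage (fun z => (u z).re) 0 r = (u 0).re := by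
      have h2 : CircleIntegrable u 0 r := hu.continuous.continuousOn.circleIntegrable'
      have h3 := Complex.reCLM.circleAverage_comp_comm h2
      have h4 : Real.circleAverage u 0 r = u 0 := hu.diffContOnCl.circleAverage
      rw [h4] at h3
      exact h3
    have h5 : Real.circleAverage (fun z => (u z).re) 0 r ≤ Real.circleAverage (fun z => Real.log ‖H z‖ + 1) 0 r := by
      refine Real.circleAverage_mono (Complex.continuous_re.comp hu.continuous).continuousOn.circleIntegrable'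
        (hlc.add continuous_const).continuousOn.circleIntegrable' fun z hz => ?_
      rw [abs_of_pos hr] at hz
      have h6 := (abs_le.1 (huR z hz)).2
      show (u z).re ≤ Real.log ‖H z‖ + 1
      linarith
    have h7 : Real.circleAverage (fun z => Real.log ‖H z‖ + 1) 0 r = Real.circleAverage (fun z => Real.log ‖H z‖) 0 r + 1 := by
      have h8 := Real.circleAverage_add (c := 0) (R := r) hlc.continuousOn.circleIntegrable'
        (continuous_const (y := (1 : ℝ))).continuousOn.circleIntegrable'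
      have h9 : Real.circleAverage (fun _ : ℂ => (1 : ℝ)) 0 r = 1 := Real.circleAverage_const _ _ _
      rw [h9] at h8
      exact h8
    linarith [hA r hr]
  refine ⟨fun z => Complex.exp (-u z - 1) • H z, ?_, hup, ?_, fun z _ => Or.inr ?_⟩
  · exact ((hu.neg.sub_const _).cexp.smul hH).differentiableOn
  · show _ ≤ ‖Complex.exp (-u 0 - 1) • H 0‖
    rw [hexp 0, Real.exp_le_exp]
    have h1 := neg_abs_le (Real.log ‖H 0‖)
    have h2 : 0 ≤ |Real.log ‖H 0‖| := abs_nonneg _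
    have h3 : 0 ≤ r ^ 2 := sq_nonneg r
    nlinarith [mul_nonneg h2 h3]
  · refine ⟨(Complex.exp (-u z - 1))⁻¹, inv_ne_zero (Complex.exp_ne_zero _), ?_⟩
    rw [smul_smul, inv_mul_cancel₀ (Complex.exp_ne_zero _), one_smul]

variable {N k : ℕ} {P : Ideal (MvPolynomial (Fin (N + 1)) ℂ)} {H : Fin k → MvPolynomial (Fin (N + 1)) ℂ} {e : Fin k → ℕ}

/-- the complement of a hypersurface section is proper over an affine variety -/
theorem isProperMap_section {H₀ : MvPolynomial (Fin (N + 1)) ℂ} {d : ℕ} (hH₀ : H₀.IsHomogeneous d) :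
    IsProperMap P (fun _ : Fin 1 => H₀) (fun _ : Fin 1 => (Fin.cons H₀ fun j => X j ^ d : Fin (N + 1 + 1) → MvPolynomial (Fin (N + 1)) ℂ))
      fun _ => d where
  hom m j := by
    refine Fin.cases ?_ (fun j => ?_) j
    · simpa using hH₀
    · simpa using isHomogeneous_X_pow (R := ℂ) j d
  zero m := by simp
  rel m n j := by
    have h : m = n := Subsingleton.elim _ _
    subst h
    simp
  noZero x _ := by
    obtain ⟨j, hj⟩ : ∃ j, x.rep j ≠ 0 := by
      by_contra hcon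
      push Not at hcon
      exact x.rep_nonzero (funext hcon)
    refine ⟨0, j.succ, fun h => ?_⟩
    have h1 : eval x.rep (X j ^ d : MvPolynomial (Fin (N + 1)) ℂ) = 0 := by
      have h2 : eval x.rep ((Fin.cons H₀ fun j => X j ^ d : Fin (N + 1 + 1) → MvPolynomial (Fin (N + 1)) ℂ) j.succ) = 0 := h
      rwa [Fin.cons_succ] at h2
    rw [map_pow, eval_X] at h1
    exact hj (eq_zero_of_pow_eq_zero h1)

/-- MODULE E4: from the curves of order two on the cone to the four properties and the bound for the Kobayashi metric (`Ξ` is the zero set of `Q` in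
`U`; `H36.LB.lim_main`, `limModPN_of_proper` with the forms `X j ^ (∑ e i)`, `H13.CV.strongly_of_brodyL`; order two: `SY/F1G`) -/
theorem four_of_orderTwo [hPp : P.IsPrime] {z : Fin 2 → FunField P} (hP : Homog P) (hz : IsTranscendenceBasis ℂ z)
    (hsm : ∀ y : Fin (N + 1) → ℂ, y ≠ 0 → (∀ Q ∈ P, eval y Q = 0) → Module.finrank ℂ (conTan P y) ≤ 3)
    (hk : 1 ≤ k) (hH : ∀ i, (H i).IsHomogeneous (e i)) (he : ∀ i, 1 ≤ e i) (hHP : ∀ i, H i ∉ P)
    (hgt : IsLogGeneralType (K := FunField P) (k := 2) (OnBd P fun _ : Fin 1 => ∏ i, H i))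
    {Q : MvPolynomial (Fin (N + 1)) ℂ} {D : ℕ} (hQ : Q.IsHomogeneous D) (hQP : Q ∉ P)
    (h : ∀ F : ℂ → EN N, Differentiable ℂ F → (∀ z, F z ∈ openCone P H) → OrdTwo F →
      (∀ z, eval (F z).ofLp Q = 0) ∨ ∀ z w, ∃ c : ℂ, F z = c • F w) :
    (∃ Ξ : Set (PN N), GGLOpen P (fun _ : Fin 1 => ∏ i, H i) Ξ) ∧
      ∃ (Q : MvPolynomial (Fin (N + 1)) ℂ) (D : ℕ), Q.IsHomogeneous D ∧ (∃ x ∈ locVar P fun _ : Fin 1 => ∏ i, H i, ¬ VanishesAt Q x) ∧
        KobayashiHyperbolicModulo (locVar P fun _ : Fin 1 => ∏ i, H i) Q D := by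
  classical
  set H₀ : MvPolynomial (Fin (N + 1)) ℂ := ∏ i, H i with hH₀def
  have hH₀ : H₀.IsHomogeneous (∑ i, e i) := IsHomogeneous.prod _ _ _ fun i _ => hH i
  have hH₀P : H₀ ∉ P := by
    intro h
    obtain ⟨i, -, hi⟩ := (Ideal.IsPrime.prod_mem_iff (p := P)).1 h
    exact hHP i hi
  have hprop := isProperMap_section (P := P) hH₀
  have hG : ∀ m : Fin 1, ((fun _ : Fin 1 => H₀) m).IsHomogeneous ((fun _ : Fin 1 => ∑ i, e i) m) := fun _ => hH₀
  have hO := Pool.Agent.H36.LB.openPart_of_curveComplement hP hG (Pool.Agent.H36.LB.curveComplement_of_proper hprop)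
  set U : Set (PN N) := locVar P fun _ : Fin 1 => H₀ with hUdef
  set Ξ : Set (PN N) := {x | x ∈ U ∧ ∀ A ∈ ({Q} : Set (MvPolynomial (Fin (N + 1)) ℂ)), VanishesAt A x} with hΞdef
  have hcl : ZariskiClosedIn U Ξ := by
    refine ⟨{Q}, ?_, rfl⟩
    rintro A hA
    rw [Set.mem_singleton_iff.1 hA]
    exact ⟨D, hQ⟩
  have hXi : ∃ i, (X i : MvPolynomial (Fin (N + 1)) ℂ) ∉ P := Pool.Agent.H62.FC.exists_X_notMem (r := 2) (by norm_num) ⟨z, hz⟩
  have hne : Ξ ≠ U := by
    intro heq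
    obtain ⟨x, hx, hxQ⟩ := Pool.Agent.H17EF.exists_point hP hXi (Q := H₀ * Q)
      (fun h => (hPp.mem_or_mem h).elim hH₀P hQP) (hH₀.mul hQ)
    have hx1 : eval x.rep (H₀ * Q) ≠ 0 := hxQ
    rw [map_mul] at hx1
    have hxU : x ∈ U := ⟨fun R hR n hn => hx R hR n hn, 0, fun h => hx1 (by
      have h2 : eval x.rep H₀ = 0 := h
      rw [h2, zero_mul])⟩
    rw [← heq] at hxU
    have h3 : eval x.rep Q = 0 := hxU.2 Q rfl
    exact hx1 (by rw [h3, mul_zero])
  have hbr : ∀ f : ℂ → PN N, HolomorphicInto f Set.univ → OrderTwo f → (∀ z, f z ∈ U) → (∃ z w, f z ≠ f w) → ∀ z, f z ∈ Ξ := by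
    intro f hf hfo hfU hfn y
    refine ⟨hfU y, fun B hB => ?_⟩
    rw [Set.mem_singleton_iff.1 hB]
    obtain ⟨F₀, A, hF₀, hFf, hA⟩ := id hfo
    obtain ⟨A', hA'⟩ := average_toLp hF₀ (fun z => (hFf z).1) hA
    obtain ⟨F, hFdef⟩ : ∃ F : ℂ → EN N, F = fun z => WithLp.toLp 2 (F₀ z) := ⟨_, rfl⟩
    have hl : IsLift F f := by
      rw [hFdef]
      refine ⟨?_, fun z => hFf z⟩
      exact (LE N).differentiable.comp hF₀
    have hFX : ∀ z, F z ∈ coneE P := fun z => (hl.mem_iff hP z).1 (hfU z).1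
    have hFK : ∀ z, F z ∈ openCone P H := by
      intro z
      refine ⟨hFX z, fun i hi => ?_⟩
      obtain ⟨-, m, hm⟩ := hfU z
      apply hm
      show VanishesAt H₀ (f z)
      rw [vanishesAt_lift hl hH₀, hH₀def, map_prod]
      exact Finset.prod_eq_zero (Finset.mem_univ i) hi
    have hord : OrdTwo F := by
      refine ordTwo_of_average hl.1 (fun z => hl.ne_zero z) (A := A') ?_
      rw [hFdef]
      exact hA'
    rcases h F hl.1 hFK hord with h1 | h1
    · rw [vanishesAt_lift hl hQ]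
      exact h1 y
    · exfalso
      obtain ⟨a, b, hab⟩ := hfn
      apply hab
      obtain ⟨c, hc⟩ := h1 a b
      obtain ⟨ha, ha'⟩ := hl.2 a
      obtain ⟨hb, hb'⟩ := hl.2 b
      rw [ha', hb', Projectivization.mk_eq_mk_iff']
      refine ⟨c, ?_⟩
      rw [hc]
      rfl
  have hlim := Pool.Agent.H36.LB.limModPN_of_proper hP hprop hbr
  obtain ⟨hB, hPic, Q', D', hQ', hx', -, hK⟩ := Pool.Agent.H36.LB.lim_main hP hz hsm hG hO hgt hcl hne hlim
  refine ⟨⟨Ξ, hcl, hne, ?_, hPic, hB, ?_⟩, Q', D', hQ', hx', hK⟩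
  · intro w _ hw
    obtain rfl := Pool.Agent.H17EF.two_of_basis ⟨z, hz⟩ hw
    exact hgt
  · intro R _ hR hPR hRΞ w hw hz'
    exact Pool.Agent.H13.CV.strongly_of_brodyL P hP ⟨z, hz⟩ (fun m => ⟨_, hG m⟩) hcl hgt hB R hR hPR hRΞ w hw hz'

end Pool.Agent.SDA

end
end

section

/-!
# SR3 MetB: the metrics of the larger curves
-/

set_option autoImplicit false

open Topology Filter Metric MvPolynomial

noncomputable section

namespace Pool.Agent.SR3

open Pool.Agent.H36.BP (EN fs Sub OrdTwo)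
open Pool.Agent.H17BP (Surface IsForm NoZeros IsChart)
open Pool.Agent.H14.PP (IsCone Tan)
open Pool.Agent.H17 (PN VanishesAt HolomorphicInto)
open Pool.Agent.H62.FC (Homog)
open Pool.Agent.H62.SA (OnBd)
open Pool.Agent.H17LG.Variety (FunField OnBoundary IsLogGeneralType)
open Pool.Agent.H17EF (coneE projVar LE)
open Pool.Agent.H13.SM (cone)
open Pool.Agent.H22.WL (evF evF_diff evF_smul)
open Pool.Agent.AD (SymDiff TangentTo)
open Pool.Agent.AD.NC (IsSmooth IsOfLogGeneralType)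
open Pool.Agent.SDA (openCone EnergyK Near nForms energyK_surface)

variable {N k M : ℕ} {P : Ideal (MvPolynomial (Fin (N + 1)) ℂ)} {H : MvPolynomial (Fin (N + 1)) ℂ} {h : ℕ}
  {E : Fin k → Fin (M + 1) → MvPolynomial (Fin (N + 1)) ℂ} {c b : Fin k → ℕ}

private theorem onBoundary_eq [P.IsPrime] (D : MvPolynomial (Fin (N + 1)) ℂ) {r : ℕ} :
    OnBoundary P (fun _ : Fin 1 => D) (k := r) = OnBd P (fun _ : Fin 1 => D) := by
  funext E
  refine propext ?_
  constructor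
  · rintro ⟨j, hj, hj', m, hm⟩
    exact ⟨j, hj, hj', fun _ => hm⟩
  · rintro ⟨j, hj, hj', hm⟩
    exact ⟨j, hj, hj', 0, hm 0⟩

/-- the metric of a curve `{Q = 0}`, with all fields -/
theorem metD_of_energyK {K : Set (EN N)} (hX : IsCone (coneE P)) {Q : MvPolynomial (Fin (N + 1)) ℂ} {D : ℕ} (hQ : Q.IsHomogeneous D)
    (hKT : ∀ x ∈ coneE P, x ∉ K → eval x.ofLp Q = 0) {M' : ℕ} {c₀ C : ℝ} {g : (ℂ → EN N) → ℂ → ℝ} (hM : 1 ≤ M')
    (EK : EnergyK (coneE P) K {x | x ∈ coneE P ∧ eval x.ofLp Q = 0} (fun x => ‖x‖) (fun x => ‖eval x.ofLp Q‖ / ‖x‖ ^ D) M' c₀ C g) :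
    ∃ δ : ℝ, MetD (coneE P) K {x | x ∈ coneE P ∧ eval x.ofLp Q = 0} (fun x => ‖eval x.ofLp Q‖ / ‖x‖ ^ D) M' c₀ C δ g := by
  obtain ⟨δ, hδ, hnear⟩ := EK.near
  refine ⟨δ, ?_⟩
  obtain ⟨T, hT⟩ : ∃ T : Set (EN N), T = {x | x ∈ coneE P ∧ eval x.ofLp Q = 0} := ⟨_, rfl⟩
  rw [← hT] at EK hnear ⊢
  have hxne : ∀ x ∈ coneE P, ‖x‖ ≠ 0 := fun x hx => norm_ne_zero_iff.2 fun h => hX.zero_notMem (h ▸ hx)
  have hmemT : ∀ x, x ∈ T ↔ x ∈ coneE P ∧ eval x.ofLp Q = 0 := fun x => by rw [hT]; rfl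
  refine
    { en := EK
      one_M := hM
      pos := hδ
      near := hnear
      TX := fun x hx => ((hmemT x).1 hx).1
      Ts := ?_
      KT := fun x hx hxK => (hmemT x).2 ⟨hx, hKT x hx hxK⟩
      rho0 := fun x _ => by positivity
      rhoT := ?_
      rhoc := ?_
      rhos := ?_
      Ti := ?_ }
  · intro x hx c hc
    rw [hmemT] at hx ⊢
    refine ⟨hX.smul_mem x hx.1 c hc, ?_⟩
    have h1 := evF_smul hQ c x
    unfold evF at h1
    rw [h1, hx.2, mul_zero]
  · intro x hx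
    rw [hmemT]
    have h2 : ‖x‖ ^ D ≠ 0 := pow_ne_zero _ (hxne x hx)
    constructor
    · intro h
      rw [div_eq_zero_iff] at h
      rcases h with h | h
      · exact ⟨hx, norm_eq_zero.1 h⟩
      · exact absurd h h2
    · rintro ⟨-, h⟩
      simp only [h, norm_zero, zero_div]
  · refine ContinuousOn.div ?_ (continuous_norm.pow D).continuousOn fun x hx => pow_ne_zero _ (hxne x hx)
    exact (evF_diff Q).continuous.norm.continuousOn
  · intro x _ c hc
    have h1 := evF_smul hQ c x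
    unfold evF at h1
    simp only
    rw [h1, norm_mul, norm_pow, norm_smul, mul_pow]
    exact mul_div_mul_left _ _ (pow_ne_zero _ (norm_ne_zero_iff.2 hc))
  · intro F hF hFX hne z₀
    have h1 : Differentiable ℂ fun z => evF Q (F z) := (evF_diff Q).comp hF
    have h2 : AnalyticAt ℂ (fun z => evF Q (F z)) z₀ := h1.analyticAt z₀
    rcases h2.eventually_eq_zero_or_eventually_ne_zero with h3 | h3
    · exfalso
      have h4 : AnalyticOnNhd ℂ (fun z => evF Q (F z)) Set.univ := fun z _ => h1.analyticAt z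
      have h5 := h4.eqOn_zero_of_preconnected_of_eventuallyEq_zero isPreconnected_univ (Set.mem_univ z₀) h3
      obtain ⟨z, hz⟩ := hne
      apply hz
      rw [hmemT]
      exact ⟨hFX z, h5 (Set.mem_univ z)⟩
    · filter_upwards [h3] with z hz hzT
      rw [hmemT] at hzT
      exact hz hzT.2

/-- MODULE H12 (MetB.lean): the metrics of the larger curves (`SDA.energyK_surface`, applied to `R l * R'`, `R l ∉ P`) -/
theorem exists_met_of_form [hPp : P.IsPrime] {z : Fin 2 → FunField P} (hP : Homog P) (hz : IsTranscendenceBasis ℂ z) (hsm : IsSmooth P 2)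
    (hH : H.IsHomogeneous h) (h1 : 1 ≤ h) (hHP : H ∉ P) (hgt : IsOfLogGeneralType P (fun _ : Fin 1 => H) 2) {s : ℕ} {m : Fin s → ℕ} (hs1 : 1 ≤ s)
    (hm : ∀ j, 1 ≤ m j) (θ : ∀ j, SymDiff (oc P H) (m j)) {mΩ jΩ r t : ℕ} {Ω : Fin r → EN N → EN N → EN N → ℂ}
    {Q : Fin r → MvPolynomial (Fin (N + 1)) ℂ} (hΩ : LogForms P H mΩ jΩ Ω Q)
    {R : Fin t → MvPolynomial (Fin (N + 1)) ℂ} (hnull : NullCurve θ R) (hcov : ZeroCover P H Q R)
    {n : ℕ} (supp : Fin n → Finset (Fin k)) (Pol : Fin n → Fin s → MvPolynomial (Fin k) ℂ) (ty : EN N → Fin n)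
    {R' : MvPolynomial (Fin (N + 1)) ℂ} {d : ℕ} (hR' : R'.IsHomogeneous d) (hRP : R' ∉ P) :
    ∃ (Q' : MvPolynomial (Fin (N + 1)) ℂ) (D M' : ℕ) (c₀ C δ : ℝ) (g : (ℂ → EN N) → ℂ → ℝ), Q'.IsHomogeneous D ∧ Q' ∉ P ∧
      (∀ x : EN N, eval x.ofLp R' = 0 → eval x.ofLp Q' = 0) ∧ (∀ x : EN N, (∀ l, eval x.ofLp (R l) = 0) → eval x.ofLp Q' = 0) ∧
      (geoOf P H h E c b θ supp Pol ty mΩ jΩ Ω).Met {x | x ∈ coneE P ∧ eval x.ofLp Q' = 0} (fun x => ‖eval x.ofLp Q'‖ / ‖x‖ ^ D) M' c₀ C δ g := by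
  have hS₀ : Surface (cone P) := Pool.Agent.H13.SM.surface_cone hP hz fun y hy => hsm y hy.1 hy.2
  have hX : IsCone (coneE P) := Pool.Agent.H36.BP.isCone_transport (LE N) hS₀
  obtain ⟨l, hl⟩ := hnull.ne
  obtain ⟨D₁, hR⟩ := hnull.hom
  have hgt' : IsLogGeneralType (K := FunField P) (k := 2) (OnBoundary P fun _ : Fin 1 => ∏ i, (fun _ : Fin 1 => H) i) := by
    rw [onBoundary_eq]
    exact hgt
  obtain ⟨Q', D, M', c₀, C, g, hQ, hQP, hRQ, hHQ, hM, EK⟩ := energyK_surface (H := fun _ : Fin 1 => H) (e := fun _ => h) hP hz hsm (fun _ => hH)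
    (fun _ => h1) le_rfl (fun _ => hHP) hgt' ((hR l).mul hR') (fun h2 => (hPp.mem_or_mem h2).elim hl hRP)
  have hKT : ∀ x ∈ coneE P, x ∉ oc P H → eval x.ofLp Q' = 0 := by
    intro x hx hxK
    by_contra h2
    exact hxK ⟨hx, fun i hi => h2 (hHQ i x hi)⟩
  obtain ⟨δ, DD⟩ := metD_of_energyK hX hQ hKT hM EK
  have hRl : ∀ x : EN N, (∀ l, eval x.ofLp (R l) = 0) → eval x.ofLp Q' = 0 := fun x h2 => hRQ x (by rw [map_mul, h2 l, zero_mul])
  refine ⟨Q', D, M', c₀, C, δ, g, hQ, hQP, fun x hx => hRQ x (by rw [map_mul, hx, mul_zero]), hRl, DD.met θ supp Pol ty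
    (fun F hF hK ho h0 => ?_) fun x hx hxT => ?_⟩
  · rcases null_mem hP hH hm θ hnull hF hK ho h0 with h2 | h2
    · exact Or.inl fun w => ⟨(hK w).1, hRl _ fun l => h2 l w⟩
    · exact Or.inr h2
  · have h2 : ∃ a, eval x.ofLp (Q a) ≠ 0 := by
      by_contra hcon
      push Not at hcon
      exact hxT ⟨hx.1, hRl x (hcov x hx hcon)⟩
    obtain ⟨a, ha⟩ := h2
    exact ⟨a, fun v w hv hw hli => omega_ne hP hH h1 hΩ hx ha hv hw hli⟩

end Pool.Agent.SR3

end
end

section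

/-!
# SR3 Fld3: the residues in a neighbourhood in the projective space

`res_loc` (SR3/Rloc), moved to a neighbourhood in the projective space by `pd_nhds`: all terms are invariant under `(x, v) ↦ (a x, a v)`.
-/

set_option autoImplicit false

open Topology Filter Metric MvPolynomial

noncomputable section

namespace Pool.Agent.SR3

open Pool.Agent.H36.BP (EN fs wd fs_inv)
open Pool.Agent.H17BP (Surface IsChart)
open Pool.Agent.H14.PP (IsCone Tan)
open Pool.Agent.H62.FC (Homog)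
open Pool.Agent.H17LG.Variety (FunField)
open Pool.Agent.H17EF (projVar coneE)
open Pool.Agent.AD (SymDiff TangentTo)
open Pool.Agent.AD.NC (IsSmooth)

variable {N k M : ℕ} {P : Ideal (MvPolynomial (Fin (N + 1)) ℂ)} {H : MvPolynomial (Fin (N + 1)) ℂ} {h : ℕ}
  {E : Fin k → Fin (M + 1) → MvPolynomial (Fin (N + 1)) ℂ} {c b : Fin k → ℕ}

private theorem Fld3_fs {x : EN N} (hx : x ≠ 0) (v : EN N) {a : ℂ} (ha : a ≠ 0) : fs (a • x) (a • v) = fs x v := by
  have h1 := fs_inv hx v ha 0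
  rwa [zero_smul, add_zero] at h1

private theorem Fld3_tan {X : Set (EN N)} (hX : ∀ x ∈ X, ∀ c : ℂ, c ≠ 0 → c • x ∈ X) {x v : EN N} (hv : Tan X x v) {a : ℂ} (ha : a ≠ 0) :
    Tan X (a • x) (a • v) := by
  obtain ⟨F, ⟨h1, h2⟩, h3, h4⟩ := hv
  have h1' : AnalyticAt ℂ (a • F) 0 := h1.const_smul
  refine ⟨a • F, ⟨h1', ?_⟩, ?_, ?_⟩
  · filter_upwards [h2] with z hz
    exact hX _ hz a ha
  · change a • F 0 = _
    rw [h3]
  · rw [← h4]
    exact (h1.differentiableAt.hasDerivAt.const_smul a).deriv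

private theorem Fld3_eval {Q : MvPolynomial (Fin (N + 1)) ℂ} {d : ℕ} (hQ : Q.IsHomogeneous d) (c : ℂ) (x : EN N) :
    eval (c • x).ofLp Q = c ^ d * eval x.ofLp Q := by
  have h1 := congrFun (congrArg WithLp.ofLp (vec_smul (F := fun _ : Fin (0 + 1) => Q) (fun _ => hQ) c x)) 0
  simpa [vec] using h1

private theorem Fld3_oc_smul (hc : IsCone (coneE P)) (hH : H.IsHomogeneous h) {x : EN N} (hx : x ∈ oc P H) {a : ℂ} (ha : a ≠ 0) : a • x ∈ oc P H := by
  refine mem_oc.2 ⟨hc.smul_mem x (mem_oc.1 hx).1 a ha, ?_⟩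
  rw [Fld3_eval hH]
  exact mul_ne_zero (pow_ne_zero _ ha) (mem_oc.1 hx).2

theorem snc_resL [P.IsPrime] {z : Fin 2 → FunField P} (hP : Homog P) (hz : IsTranscendenceBasis ℂ z) (hsm : IsSmooth P 2)
    (hH : H.IsHomogeneous h) (h1 : 1 ≤ h) (hE : ∀ i l, (E i l).IsHomogeneous (c i)) (hs : Snc P H E b)
    {s : ℕ} {m : Fin s → ℕ} (hm : ∀ j, 1 ≤ m j) (θ : ∀ j, SymDiff (oc P H) (m j)) (hθ : ∀ j, HasLogPoles E c (θ j)) :
    ∀ y ∈ coneE P, ∃ (Q : Fin s → MvPolynomial (Fin k) ℂ) (r C : ℝ), 0 < r ∧ 0 ≤ C ∧ (∀ j, (Q j).IsHomogeneous (m j)) ∧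
      (∀ j (u u' : Fin k → ℂ), (∀ i, vec (E i) y = 0 → u i = u' i) → eval u (Q j) = eval u' (Q j)) ∧
      ∀ x ∈ oc P H, pd x y < r → ∀ j v, Tan (coneE P) x v →
        ‖(θ j).toFun x v - eval (fun i => ellE (E i) (c i) x v) (Q j)‖ ≤ C * fs x v * logLen E c x v ^ (m j - 1) := by
  have _ := h1
  have hX : Surface (coneE P) := Pool.Agent.H90.SG.surface_coneE hP hz hsm
  have hc : IsCone (coneE P) := Pool.Agent.AD.isCone_coneE hP
  have hx0 : ∀ x ∈ coneE P, x ≠ 0 := by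
    rintro x hx rfl
    exact hc.zero_notMem hx
  intro y hy
  obtain ⟨S, Pol, C, hS, -, hPh, hPs, hC, hx⟩ := res_loc hX hc hH hE hs hm θ hθ hy
  obtain ⟨r, hr, hpd⟩ := pd_nhds (hx0 y hy) hx
  refine ⟨Pol, r, C, hr, hC, hPh, fun j u u' hu => hPs j u u' fun i hi => hu i ((hS i).1 hi), fun x hxo hxr j v hv => ?_⟩
  have hxn : x ≠ 0 := hx0 x (mem_oc.1 hxo).1
  obtain ⟨a, ha, hax⟩ := hpd x hxn hxr
  have h2 := (hax (Fld3_oc_smul hc hH hxo ha)).2 j (a • v) (Fld3_tan hc.smul_mem hv ha)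
  rw [(θ j).scale x v (tan_oc hxo hv) a ha, Fld3_fs hxn v ha, logLen_smul hE ha hxn] at h2
  simp only [ellE_smul (hE _) ha] at h2
  exact h2

end Pool.Agent.SR3

end
end

section

/-!
# SR3 OkA: the hypotheses `Geo.Ok` for a surface with normal crossings
-/

set_option autoImplicit false

open Topology Filter Metric MvPolynomial

noncomputable section

namespace Pool.Agent.SR3

open Pool.Agent.H36.BP (EN fs isCone_transport fs_nonneg)
open Pool.Agent.H17BP (Surface IsChart IsForm NoZeros)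
open Pool.Agent.H36.BPL (PoleLE)
open Pool.Agent.H14.PP (IsCone Tan IsOpenPart)
open Pool.Agent.H17 (PN VanishesAt HolomorphicInto)
open Pool.Agent.H62.FC (Homog)
open Pool.Agent.H17LG.Variety (FunField)
open Pool.Agent.H17EF (projVar coneE LE)
open Pool.Agent.H22.WL (evF evF_diff evF_smul)
open Pool.Agent.AD (SymDiff TangentTo)
open Pool.Agent.AD.NC (IsSmooth)
open Pool.Agent.SDA (openCone AffOpen E2_tan)

variable {N k M : ℕ} {P : Ideal (MvPolynomial (Fin (N + 1)) ℂ)} {H : MvPolynomial (Fin (N + 1)) ℂ} {h : ℕ}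
  {E : Fin k → Fin (M + 1) → MvPolynomial (Fin (N + 1)) ℂ} {c b : Fin k → ℕ}

theorem OkA_logLen_nonneg (E : Fin k → Fin (M + 1) → MvPolynomial (Fin (N + 1)) ℂ) (c : Fin k → ℕ) (x v : EN N) : 0 ≤ logLen E c x v :=
  add_nonneg (fs_nonneg x v) (Finset.sum_nonneg fun _ _ => norm_nonneg _)

theorem OkA_vec_an (E : Fin (M + 1) → MvPolynomial (Fin (N + 1)) ℂ) (x : EN N) : AnalyticAt ℂ (vec E) x := by
  have h1 : AnalyticAt ℂ (fun y : EN N => fun l => eval y.ofLp (E l)) x := AnalyticAt.pi fun l => Pool.Agent.SDA.E1_an (E l) x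
  exact (((PiLp.continuousLinearEquiv 2 ℂ fun _ : Fin (M + 1) => ℂ).symm : (Fin (M + 1) → ℂ) →L[ℂ] EN M).analyticAt _).comp h1

/-- the logarithmic bound for a finite family, for the tangent vectors of the closed surface -/
theorem exists_log_bound (hK : IsOpenPart (coneE P) (oc P H)) {s : ℕ} {m : Fin s → ℕ} (θ : ∀ j, SymDiff (oc P H) (m j))
    (hθ : ∀ j, HasLogPoles E c (θ j)) :
    ∃ C : ℝ, 0 ≤ C ∧ ∀ j, ∀ x ∈ oc P H, ∀ v, Tan (coneE P) x v → ‖(θ j).toFun x v‖ ≤ C * logLen E c x v ^ m j := by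
  choose C hC0 hC using hθ
  refine ⟨∑ j, C j, Finset.sum_nonneg fun j _ => hC0 j, fun j x hx v hv => ?_⟩
  refine (hC j x hx v (E2_tan hK hx hv)).trans (mul_le_mul_of_nonneg_right ?_ (pow_nonneg (OkA_logLen_nonneg E c x v) _))
  exact Finset.single_le_sum (f := C) (fun j _ => hC0 j) (Finset.mem_univ j)

/-- MODULE H10 (OkA.lean): the hypotheses `Geo.Ok` -/
theorem exists_ok [P.IsPrime] {z : Fin 2 → FunField P} (hP : Homog P) (hz : IsTranscendenceBasis ℂ z) (hsm : IsSmooth P 2)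
    (hH : H.IsHomogeneous h) (h1 : 1 ≤ h) (hE : ∀ i l, (E i l).IsHomogeneous (c i)) (hch : ∀ i, h + 1 ≤ c i) (hs : Snc P H E b)
    {s : ℕ} {m : Fin s → ℕ} (hs1 : 1 ≤ s) (hm : ∀ j, 1 ≤ m j) (θ : ∀ j, SymDiff (oc P H) (m j)) (hθ : ∀ j, HasLogPoles E c (θ j))
    {mΩ jΩ r : ℕ} {Ω : Fin r → EN N → EN N → EN N → ℂ} {Q : Fin r → MvPolynomial (Fin (N + 1)) ℂ} (hΩ : LogForms P H mΩ jΩ Ω Q)
    (hB : NoBdyCurve P E) {t : ℕ} {R : Fin t → MvPolynomial (Fin (N + 1)) ℂ} (hN : NullCurve θ R) :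
    ∃ (n : ℕ) (supp : Fin n → Finset (Fin k)) (Pol : Fin n → Fin s → MvPolynomial (Fin k) ℂ) (ty : EN N → Fin n),
      (geoOf P H h E c b θ supp Pol ty mΩ jΩ Ω).Ok := by
  have hX : IsCone (coneE P) := Pool.Agent.AD.isCone_coneE hP
  have hS : Surface (coneE P) := Pool.Agent.H90.SG.surface_coneE hP hz hsm
  have hK : IsOpenPart (coneE P) (oc P H) := isOpenPart_oc hP hH h1
  obtain ⟨n, supp, Pol, ty, r1, r2, r3, r4⟩ := exists_res hS hX hH h1 hE hs hm θ hθ
  refine ⟨n, supp, Pol, ty, ?_⟩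
  refine
    { cone := hX
      surf := hS
      aff :=
        { an := fun _ x => Pool.Agent.SDA.E1_an H x
          smul := fun _ t x => evF_smul hH t x
          pos := fun _ => h1
          ne := ⟨()⟩
          mem := fun x => ⟨fun hx => ⟨hx.1, fun _ => hx.2 0⟩, fun hx => ⟨hx.1, fun _ => hx.2 ()⟩⟩ }
      anE := fun i x => OkA_vec_an (E i) x
      smulE := fun i t x => vec_smul (hE i) t x
      neE := fun i x hx => snc_ne hs i hx
      c_ge := hch
      b_pos := hs.pos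
      cmp := snc_cmp hS hX hH hE hs
      cmp' := snc_cmp' hS hX hH hE hs
      fsE := snc_fs hS hX hE hs
      neJ := ⟨⟨0, by omega⟩⟩
      one_m := hm
      w_inv := fun j => (sym_fields hP hz hsm hH h1 (hm j) (θ j)).1
      w_hom := fun j => (sym_fields hP hz hsm hH h1 (hm j) (θ j)).2.1
      w_cont := fun j => (sym_fields hP hz hsm hH h1 (hm j) (θ j)).2.2
      w_an := fun j k φ y v hφ hφK => (θ j).analytic k φ y v hφ hφK
      w_log := exists_log_bound hK θ hθ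
      supp_card := r1
      Pol_hom := r2
      Pol_supp := r3
      res := r4
      resL := fun y hy _ => snc_resL hP hz hsm hH h1 hE hs hm θ hθ y hy
      one_mΩ := hΩ.one_m
      one_jΩ := hΩ.one_j
      form := hΩ.form
      Ω_le := ?_
      h1 := fun 𝒰 h𝒰 F H' hF hFK hH' hH'' hlim z z' => h1_of hS hX hP hE hs hB 𝒰 h𝒰 F H' hF hFK hH' hH'' hlim z z'
      oneE := snc_oneE hs
      twoE := snc_twoE hs
      cross := snc_cross hS hX hE hs
      crE := snc_crE hS hX hH hE hs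
      locE := snc_locE hS hX hE hs
      lines := lines_geo hP hz hH h1 hs hm θ hθ hN supp Pol ty Ω }
  · obtain ⟨C, hC0, hC⟩ := omega_le hS hX hH h1 hE hs hΩ
    exact ⟨C, hC0, fun a x hx _ v w hv hw => hC a x hx v w hv hw⟩

end Pool.Agent.SR3

end
end
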