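import Pool.Agent.H43.TL2.M116
import Pool.Agent.H43.TL2.M119
import Pool.Agent.H43.TL2.M96
import Pool.Agent.H43.TL2.MQL.OkE

/-! The parts of this file: MQL.WtL, MQL.EtaLL. -/

section

/-!
# MQL WtL: the weight along a curve which avoids the boundary
-/

set_option autoImplicit false

open Topology Filter Metric MvPolynomial

noncomputable section

namespace Pool.Agent.MQL

open Pool.Agent.H36.BP (EN)
open Pool.Agent.H36.BPL (OpenPart)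
open Pool.Agent.H17BP (Surface IsForm)
open Pool.Agent.H17EF (projVar coneE)
open Pool.Agent.MQ3

variable {M : ℕ} {P : Ideal (MvPolynomial (Fin (M + 1)) ℂ)} {RD H₀ Ra : MvPolynomial (Fin (M + 1)) ℂ} {m : ℕ} {X : NCModel P RD} {θ : WDiff (coneE P) m}
  {l : LF M} {S : Web X θ l} {Wf : EN M → EN M → EN M → ℂ} {mK jH : ℕ} {F : ℂ → EN M}

/-- the lift of a curve which avoids the boundary -/
theorem mem_okE (hX : Surface (coneE P)) (ha : ∀ z, eval (F z).ofLp H₀ ≠ 0) (Y : NCLift X F) (z : ℂ) : F z ∈ okE P H₀ := by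
  obtain ⟨i, hi, -⟩ := Y.cover z
  obtain ⟨c, hc, he⟩ := Y.eq i z hi
  refine ⟨?_, ha z⟩
  rw [he]
  exact hX.smul _ (wtn_rho_mem (Y.mem i z hi)).self_of_nhds c hc

theorem wt_an (hX : Surface (coneE P)) (hW : LW P H₀ mK jH Wf) (hF : Differentiable ℂ F) (ha : ∀ z, eval (F z).ofLp H₀ ≠ 0) (Y : NCLift X F) (i : X.ι) :
    ∀ z ∈ Y.U i, AnalyticAt ℂ (wt Wf Y i) z :=
  wt_anK hX (okE_open hX hW.hom) hW.form hF (mem_okE hX ha Y) Y i

theorem wt_chg (hX : Surface (coneE P)) (hW : LW P H₀ mK jH Wf) (hF : Differentiable ℂ F) (ha : ∀ z, eval (F z).ofLp H₀ ≠ 0) (Y : NCLift X F) {i j : X.ι} {z : ℂ}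
    (hi : z ∈ Y.U i) (hj : z ∈ Y.U j) {Φ : ℂ × ℂ → ℂ × ℂ} (hΦ : Chg X i j Φ (Y.p i z)) (h0 : Φ (Y.p i z) = Y.p j z) :
    ∀ᶠ w in 𝓝 z, Y.p j w = Φ (Y.p i w) ∧ wt Wf Y i w = jc Φ (Y.p i w) ^ mK * wt Wf Y j w :=
  wt_chgK hX (okE_open hX hW.hom) hW.form (mem_okE hX ha Y) Y hi hΦ

/-- the linear combinations of two tangent vectors, modulo the radial direction -/
private theorem form_comb {Z : Set (EN M)} (hW : IsForm Z mK jH Wf) {ρ : ℂ × ℂ → EN M} {p : ℂ × ℂ} (hρ : AnalyticAt ℂ ρ p) (hm : ∀ᶠ q in 𝓝 p, ρ q ∈ Z)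
    (w₁ w₂ : ℂ × ℂ) (a₁ a₂ : ℂ) : Wf (ρ p) (fderiv ℂ ρ p w₁ + a₁ • ρ p) (fderiv ℂ ρ p w₂ + a₂ • ρ p) =
      (w₁.1 * w₂.2 - w₁.2 * w₂.1) ^ mK * Wf (ρ p) (fderiv ℂ ρ p (1, 0)) (fderiv ℂ ρ p (0, 1)) := by
  have hT : ∀ v, fderiv ℂ ρ p v ∈ Pool.Agent.H17BP.Tan Z (ρ p) := fun v => by
    obtain ⟨γ, ⟨h1, h2⟩, h3, h4⟩ := Pool.Agent.E1.ResL_tan hρ hm v
    exact ⟨γ, h1, h2, h3, h4⟩
  have hs : ∀ v : ℂ × ℂ, fderiv ℂ ρ p v = v.1 • fderiv ℂ ρ p (1, 0) + v.2 • fderiv ℂ ρ p (0, 1) := fun v => by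
    have h6 : v = v.1 • ((1 : ℂ), (0 : ℂ)) + v.2 • ((0 : ℂ), (1 : ℂ)) := by
      ext <;> simp
    conv_lhs => rw [h6, map_add, map_smul, map_smul]
  rw [hW.add_smul _ hm.self_of_nhds _ (hT _) _ (hT _), hs w₁, hs w₂, hW.det _ hm.self_of_nhds _ (hT _) _ (hT _)]

/-- not zero in a box at a point off the axes, if not zero in a parametrization of the same point -/
private theorem form_box (hX : Surface (coneE P)) {K : Set (EN M)} (hK : OpenPart (coneE P) K) (hW : IsForm K mK jH Wf) {i : X.ι} {p : ℂ × ℂ}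
    (hp : p ∈ DS) (hpB : p ∈ X.B i) (hpK : X.ρ i p ∈ K)
    {σ : ℂ × ℂ → EN M} {y : ℂ × ℂ} (hσ : AnalyticAt ℂ σ y) (hσm : ∀ᶠ q in 𝓝 y, σ q ∈ coneE P) {κ : ℂ} (hκ : κ ≠ 0) (h : σ y = κ • X.ρ i p)
    (h0 : Wf (σ y) (fderiv ℂ σ y (1, 0)) (fderiv ℂ σ y (0, 1)) ≠ 0) :
    Wf (X.ρ i p) (fderiv ℂ (X.ρ i) p (1, 0)) (fderiv ℂ (X.ρ i) p (0, 1)) ≠ 0 := by
  have hρ := wtn_rho_an hpB
  have hρm := rho_memK hK hpB hpK
  -- the vectors in the box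
  have hv : ∀ v, ∃ (w : ℂ × ℂ) (a : ℂ), fderiv ℂ (X.ρ i) p w + a • X.ρ i p ∈ Pool.Agent.H17BP.Tan K (X.ρ i p) ∧
      fderiv ℂ σ y v = κ • (fderiv ℂ (X.ρ i) p w + a • X.ρ i p) := by
    intro v
    obtain ⟨γ, ⟨h1, h2⟩, h3, h4⟩ := Pool.Agent.E1.ResL_tan hσ hσm v
    have h5 : Pool.Agent.H14.PP.Tan (coneE P) (X.ρ i p) (κ⁻¹ • fderiv ℂ σ y v) := by
      refine ⟨fun t => κ⁻¹ • γ t, ⟨(analyticAt_const (v := κ⁻¹)).fun_smul h1, ?_⟩, ?_, ?_⟩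
      · filter_upwards [h2] with t ht
        exact hX.smul _ ht _ (inv_ne_zero hκ)
      · show κ⁻¹ • γ 0 = _
        rw [h3, h, smul_smul, inv_mul_cancel₀ hκ, one_smul]
      · rw [deriv_fun_const_smul _ h1.differentiableAt, h4]
    obtain ⟨w, a, h6⟩ := (X.box i).span hX hp _ h5
    refine ⟨w, a, ?_, ?_⟩
    · rw [← h6]
      obtain ⟨γ', ⟨g1, g2⟩, g3, g4⟩ := h5
      exact tan_openPart hK hpK ⟨γ', g1, g2, g3, g4⟩
    · rw [← h6, smul_smul, mul_inv_cancel₀ hκ, one_smul]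
  obtain ⟨w₁, a₁, t₁, e₁⟩ := hv (1, 0)
  obtain ⟨w₂, a₂, t₂, e₂⟩ := hv (0, 1)
  intro hcon
  apply h0
  have h7 := hW.scale _ hρm.self_of_nhds _ t₁ _ t₂ κ hκ
  rw [form_comb hW hρ hρm, hcon, mul_zero, ← e₁, ← e₂, ← h] at h7
  exact (mul_eq_zero.1 h7).resolve_left (pow_ne_zero _ hκ)

private theorem jc_ne' {Φ : ℂ × ℂ → ℂ × ℂ} {p : ℂ × ℂ} (h : (fderiv ℂ Φ p).det ≠ 0) : jc Φ p ≠ 0 := by
  have h1 : (fderiv ℂ Φ p).det = jc Φ p := by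
    have h2 : (fderiv ℂ Φ p).det = LinearMap.det (fderiv ℂ Φ p : ℂ × ℂ →ₗ[ℂ] ℂ × ℂ) := rfl
    rw [h2, ← LinearMap.det_toMatrix (Module.Basis.finTwoProd ℂ), Matrix.det_fin_two]
    simp [LinearMap.toMatrix_apply, jc]
  rwa [h1] at h

theorem wne (hX : Surface (coneE P)) (hW : LW P H₀ mK jH Wf) (hF : WCrv θ RD F) (ha : ∀ z, eval (F z).ofLp H₀ ≠ 0) (Y : NCLift X F)
    (h : ∃ z w, Pool.Agent.H17BP.Tan (coneE P) (F z) w ∧ Wf (F z) (deriv F z) w ≠ 0) : WNe Wf Y := by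
  have hK := okE_open hX hW.hom
  have hFK := mem_okE hX ha Y
  have hWK := hW.form
  have an := wt_an hX hW hF.diff ha Y
  have dich : ∀ i, ∀ z ∈ Y.U i, (∀ᶠ w in 𝓝 z, wt Wf Y i w = 0) ∨ ∀ᶠ w in 𝓝[≠] z, wt Wf Y i w ≠ 0 := fun i z hz =>
    (an i z hz).eventually_eq_zero_or_eventually_ne_zero
  have tr : ∀ i j z, z ∈ Y.U i → z ∈ Y.U j → (wt Wf Y i z = 0 ↔ wt Wf Y j z = 0) := by
    intro i j z hi hj
    obtain ⟨Φ, hΦ, h0⟩ := exists_chg Y hi hj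
    have h1 := (wt_chg hX hW hF.diff ha Y hi hj hΦ h0).self_of_nhds.2
    rw [h1, mul_eq_zero, or_iff_right (pow_ne_zero _ (jc_ne' hΦ.det))]
  obtain ⟨B, hB⟩ : ∃ B : Set ℂ, B = {z | ∃ i, z ∈ Y.U i ∧ ∀ᶠ w in 𝓝 z, wt Wf Y i w = 0} := ⟨_, rfl⟩
  have hopen : IsOpen B := by
    rw [isOpen_iff_mem_nhds]
    intro z hz
    rw [hB] at hz ⊢
    obtain ⟨i, hi, h1⟩ := hz
    filter_upwards [(Y.isOpen i).mem_nhds hi, h1.eventually_nhds] with w h2 h3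
    exact ⟨i, h2, h3⟩
  have hclosed : IsClosed B := by
    rw [← isOpen_compl_iff, isOpen_iff_mem_nhds]
    intro z hz
    obtain ⟨i, hi, _⟩ := Y.cover z
    have h1 : ∀ᶠ w in 𝓝[≠] z, wt Wf Y i w ≠ 0 := by
      rcases dich i z hi with h1 | h1
      · exfalso
        apply hz
        rw [hB]
        exact ⟨i, hi, h1⟩
      · exact h1
    rw [eventually_nhdsWithin_iff] at h1
    filter_upwards [h1, (Y.isOpen i).mem_nhds hi] with w h2 h3 h4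
    by_cases hwz : w = z
    · rw [hwz] at h4
      exact hz h4
    · rw [hB] at h4
      obtain ⟨j, hj, h5⟩ := h4
      exact h2 hwz ((tr i j w h3 hj).2 h5.self_of_nhds)
  rcases isClopen_iff.1 ⟨hclosed, hopen⟩ with h1 | h1
  · intro i z hz
    rcases dich i z hz with h2 | h2
    · exfalso
      have h3 : z ∈ B := by
        rw [hB]
        exact ⟨i, hz, h2⟩
      rw [h1] at h3
      exact h3
    · exact h2
  · exfalso
    obtain ⟨z, w₀, hw₀, hne⟩ := h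
    obtain ⟨i, hi, hzero⟩ : z ∈ {z | ∃ i, z ∈ Y.U i ∧ ∀ᶠ w in 𝓝 z, wt Wf Y i w = 0} := by
      rw [← hB, h1]
      exact Set.mem_univ z
    obtain ⟨σ, τ, hσ, h0⟩ := hX.chart (F z) (hF.mem z)
    have hcoef := (Pool.Agent.H36.TB.exists_coef hσ).self_of_nhds
    have hτ0 : τ (σ 0) = 0 := hσ.left.self_of_nhds
    have hσ0K : σ 0 ∈ okE P H₀ := by rw [h0]; exact hFK z
    have hσK : ∀ᶠ y in 𝓝 (0 : ℂ × ℂ), σ y ∈ okE P H₀ := by
      filter_upwards [hσ.σ_mem, hσ.σ_an.continuousAt.eventually (hK.rel _ hσ0K)] with y h2 h3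
      exact h3 h2
    obtain ⟨c₁, a₁, _, _, g₁⟩ := hcoef F z (hF.diff.analyticAt z) (Eventually.of_forall hF.mem) h0.symm
    obtain ⟨γ, k1, k2, k3, k4⟩ := hw₀
    obtain ⟨c₂, a₂, _, _, g₂⟩ := hcoef γ 0 k1 k2 (k3.trans h0.symm)
    rw [hτ0, ← map_smul] at g₁ g₂
    rw [k4] at g₂
    have hσ0 : Wf (σ 0) (fderiv ℂ σ 0 (1, 0)) (fderiv ℂ σ 0 (0, 1)) ≠ 0 := by
      intro h2
      apply hne
      rw [g₁, g₂, ← h0, form_comb hWK hσ.σ_an hσK, h2, mul_zero]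
    have hWσ := hWK.analytic σ 0 hσ.σ_an hσK
    have e1 : ∀ᶠ y in 𝓝 (0 : ℂ × ℂ), Wf (σ y) (fderiv ℂ σ y (1, 0)) (fderiv ℂ σ y (0, 1)) ≠ 0 := hWσ.continuousAt.eventually_ne hσ0
    have hFt : Tendsto F (𝓝 z) (𝓝 (σ 0)) := by
      rw [h0]
      exact (hF.diff z).continuousAt.tendsto
    have hτt : Tendsto (fun w => τ (F w)) (𝓝 z) (𝓝 0) := by
      have h2 := hσ.τ_an.continuousAt.tendsto.comp hFt
      rw [hτ0] at h2
      exact h2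
    have e2 := hFt.eventually hσ.right
    have e3 := hτt.eventually e1
    have e4 := hτt.eventually hσ.σ_an.eventually_analyticAt
    have e5 := hτt.eventually hσ.σ_mem.eventually_nhds
    have e6 : ∀ᶠ w in 𝓝 z, w ∈ Y.U i := (Y.isOpen i).mem_nhds hi
    have e7 := (((e2.and e3).and (e4.and e5)).and (hzero.and e6)).filter_mono (nhdsWithin_le_nhds (s := {z}ᶜ))
    obtain ⟨w, ⟨⟨⟨f2, f3⟩, f4, f5⟩, f7, f8⟩, f6⟩ := (e7.and (wtn_off hF Y hi)).exists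
    obtain ⟨c, hc, f9⟩ := f2 (hF.mem w)
    obtain ⟨hcf, f10⟩ := cf_spec Y f8
    have f11 : σ (τ (F w)) = (c⁻¹ * cf Y i w) • X.ρ i (Y.p i w) := by
      rw [mul_smul, ← f10]
      conv_rhs => rw [f9]
      rw [smul_smul, inv_mul_cancel₀ hc, one_smul]
    have f12 := form_box hX hK hWK f6 (Y.mem i w f8) (rho_K hK Y f8 (hFK w)) f4 f5 (mul_ne_zero (inv_ne_zero hc) hcf) f11 f3
    rw [wt_eqK hK hWK Y f8 (hFK w)] at f7
    exact (mul_ne_zero (inv_ne_zero (pow_ne_zero _ hcf)) f12) f7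

end Pool.Agent.MQL

end
end

section

/-!
# MQL EtaLL: the gradients of the potentials, for weights with poles

Port of `MQ3/EtaL` and `MQ3/EtaLoc`: the weight enters only through `wt_an` and `WNe`.
-/

set_option autoImplicit false

open Topology Filter Metric MvPolynomial MeasureTheory Laplacian

noncomputable section

namespace Pool.Agent.MQL

open Pool.Agent.H36.BP (EN fs)
open Pool.Agent.H17BP (Surface)
open Pool.Agent.H17EF (coneE)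
open Pool.Agent.MQ (lam ztv dvg DDv gr dv)
open Pool.Agent.MQ3

variable {M : ℕ} {P : Ideal (MvPolynomial (Fin (M + 1)) ℂ)} {RD H₀ Ra : MvPolynomial (Fin (M + 1)) ℂ} {m : ℕ} {X : NCModel P RD} {θ : WDiff (coneE P) m}
  {l : LF M} {S : Web X θ l} {Wf : EN M → EN M → EN M → ℂ} {mK jH : ℕ}

/-- regularity, Laplacian and gradient of a function -/
private def Tri (u : ℂ → ℝ) (z : ℂ) (a : ℝ) (b : ℂ) : Prop := ContDiffAt ℝ 2 u z ∧ Δ u z = a ∧ gr u z = b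

private theorem tri_add {u v : ℂ → ℝ} {z : ℂ} {a a' : ℝ} {b b' : ℂ} (h : Tri u z a b) (h' : Tri v z a' b') :
    Tri (fun w => u w + v w) z (a + a') (b + b') := by
  obtain ⟨h1, h2, h3⟩ := h
  obtain ⟨k1, k2, k3⟩ := h'
  refine ⟨h1.add k1, ?_, ?_⟩
  · rw [Pool.Agent.H30M.lap_add h1 k1, h2, k2]
  · rw [MQ.gr_add (h1.differentiableAt (by norm_num)) (k1.differentiableAt (by norm_num)), h3, k3]

private theorem tri_mul (c : ℝ) {u : ℂ → ℝ} {z : ℂ} {a : ℝ} {b : ℂ} (h : Tri u z a b) : Tri (fun w => c * u w) z (c * a) (c * b) := by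
  obtain ⟨h1, h2, h3⟩ := h
  refine ⟨contDiffAt_const.mul h1, ?_, ?_⟩
  · rw [Pool.Agent.H30M.lap_const_mul h1, h2]
  · rw [MQ.gr_const_mul c (h1.differentiableAt (by norm_num)), h3]

private theorem tri_log {f : ℂ → ℂ} {z : ℂ} (hf : AnalyticAt ℂ f z) (h0 : f z ≠ 0) :
    Tri (fun w => Real.log ‖f w‖) z 0 ((starRingEnd ℂ) (deriv f z / f z)) :=
  ⟨(hf.harmonicAt_log_norm h0).1, Pool.Agent.H30M.lap_log_norm hf h0, MQ.gr_log_norm hf.differentiableAt h0⟩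

private theorem etaL_jc {κ : ℂ × ℂ → ℂ × ℂ} {x : ℂ × ℂ} (hv : AnalyticAt ℂ κ x) : AnalyticAt ℂ (jc κ) x := by
  have h1 : ∀ e : ℂ × ℂ, AnalyticAt ℂ (fun Q => fderiv ℂ κ Q e) x := fun e =>
    ((ContinuousLinearMap.apply ℂ (ℂ × ℂ) e).analyticAt _).comp hv.fderiv
  exact ((analyticAt_fst.comp (h1 (1, 0))).mul (analyticAt_snd.comp (h1 (0, 1)))).sub
    ((analyticAt_fst.comp (h1 (0, 1))).mul (analyticAt_snd.comp (h1 (1, 0))))

/-- the gradient of the potential of a chart point -/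
theorem gr_eP {F : ℂ → EN M} (hX : Surface (coneE P)) (hW : LW P H₀ mK jH Wf) (hF : LCrv θ RD H₀ Ra F) (Y : NCLift X F) (hne : WNe Wf Y) {Θ : ℂ → ℂ}
    (hΘ : IsTh S Wf mK Y Θ) {k : S.ι} {z : ℂ} (hz : z ∈ S.Om Y k) {g : ℂ × ℂ → ℂ} (hg : AnalyticAt ℂ g (S.lf Y k z))
    (hgn : ∃ᶠ w in 𝓝 z, g (S.lf Y k w) ≠ 0) :
    ∀ᶠ w in 𝓝[≠] z, ContDiffAt ℝ 2 (eP S g Wf mK jH Y k) w ∧ Δ (eP S g Wf mK jH Y k) w = 2 * jH / mK * lam F w ^ 2 ∧
      gr (eP S g Wf mK jH Y k) w + (starRingEnd ℂ) (DDv (S.v k) g (S.lf Y k) w) =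
        (starRingEnd ℂ) (Θ w) + gr (fun w => jH / mK * Real.log ‖F w‖) w := by
  have hwan := wt_an hX hW hF.diff hF.avoid Y k.1
  replace hF := hF.toRCrv.toWCrv
  set p : ℂ → ℂ × ℂ := S.lf Y k with hpdef
  have hp : AnalyticAt ℂ p z := lfN_an hF Y k z hz
  have hOm : ∀ᶠ w in 𝓝 z, w ∈ S.Om Y k := (Om_open hF Y k).mem_nhds hz
  have hFne : ∀ w, F w ≠ 0 := by
    intro w h0
    have h1 := hF.mem w
    rw [h0] at h1
    exact hX.zero h1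
  have hgp : AnalyticAt ℂ (fun w => g (p w)) z := AnalyticAt.fun_comp (g := g) (f := p) hg hp
  have hgne : ∀ᶠ w in 𝓝[≠] z, g (p w) ≠ 0 := by
    rcases hgp.eventually_eq_zero_or_eventually_ne_zero with h | h
    · exact absurd (h.mono fun w hw => not_not.2 hw) hgn
    · exact h
  have hga : ∀ᶠ w in 𝓝 z, AnalyticAt ℂ g (p w) := hp.continuousAt.eventually hg.eventually_analyticAt
  filter_upwards [hgne, hOm.filter_mono nhdsWithin_le_nhds, hOm.eventually_nhds.filter_mono nhdsWithin_le_nhds, lfN_ne hF Y k z hz,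
    hne k.1 z (Om_sub hF Y k hz), hΘ k z hz, hga.filter_mono nhdsWithin_le_nhds] with w h1 h2 h3 h4 h5 h6 h7
  obtain ⟨-, -, hv0, hζ0, hJ0⟩ := h4
  have hpw : AnalyticAt ℂ p w := lfN_an hF Y k w h2
  have hvw : AnalyticAt ℂ (S.v k) (p w) := v_an k (p w) (lfN_mem hF Y k w h2).1
  have hode : ∀ᶠ x in 𝓝 w, (S.v k (p x)).1 * (deriv p x).2 - (S.v k (p x)).2 * (deriv p x).1 = 0 := h3.mono fun x hx => lfN_tan hF Y k x hx
  have hζ : AnalyticAt ℂ (ztv (S.v k) p) w := ztv_an hpw hvw hode hv0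
  have hκ : AnalyticAt ℂ (S.κ k) (p w) := analyticAt_mchart (S.c k).w.1 (S.c k).w'.1 (S.c k).w.2 (S.c k).w'.2 (p w)
  have hJ : AnalyticAt ℂ (fun x => jc (S.κ k) (p x)) w := AnalyticAt.fun_comp (g := jc (S.κ k)) (f := p) (etaL_jc hκ) hpw
  have hgw : AnalyticAt ℂ (fun x => g (p x)) w := AnalyticAt.fun_comp (g := g) (f := p) h7 hpw
  have hwt : AnalyticAt ℂ (wt Wf Y k.1) w := hwan w (Om_sub hF Y k h2)
  have t5 : Tri (fun w => Real.log ‖F w‖) w (2 * lam F w ^ 2) (gr (fun w => Real.log ‖F w‖) w) :=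
    ⟨(MQ.lap_log_norm (hF.diff.analyticAt w) (hFne w)).1, (MQ.lap_log_norm (hF.diff.analyticAt w) (hFne w)).2, rfl⟩
  have t6 : Tri (fun w => (jH : ℝ) / mK * Real.log ‖F w‖) w ((jH : ℝ) / mK * (2 * lam F w ^ 2)) (((jH / mK : ℝ) : ℂ) * gr (fun w => Real.log ‖F w‖) w) :=
    tri_mul _ t5
  have key := tri_add (tri_add (tri_add (tri_add (tri_log hζ hζ0) (tri_log hJ hJ0)) (tri_log hgw h1)) (tri_mul (1 / mK : ℝ) (tri_log hwt h5))) t6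
  obtain ⟨k1, k2, k3⟩ := key
  refine ⟨k1, ?_, ?_⟩
  · have h8 : Δ (eP S g Wf mK jH Y k) w = _ := k2
    rw [h8]
    ring
  · have h8 : gr (eP S g Wf mK jH Y k) w = _ := k3
    rw [h8, t6.2.2, h6, ThC, DDv]
    simp only [map_add, map_sub, map_mul, map_div₀, map_one, Complex.ofReal_div, Complex.ofReal_one, Complex.ofReal_natCast, map_natCast]
    ring

/-- **EtaLL.** The local form of the field `η` of a box; the constants do not depend on the curve. -/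
theorem eta_loc (hX : Surface (coneE P)) (hW : LW P H₀ mK jH Wf) {k : S.ι} {q : ℂ × ℂ} (hq : q ∈ S.D k) (hv : S.v k q ≠ 0) {g : ℂ × ℂ → ℂ}
    (hg : InvAt S Ra k q g) {H : ℂ × ℂ → ℂ × ℂ → EN 2} (hH : ∀ p w (a : ℂ), H p (a • w) = a • H p w) {L : ℂ × ℂ → EN 2} (hL : AnalyticAt ℂ L q) (hL0 : L q ≠ 0)
    (hHL : ∀ᶠ x in 𝓝 q, H (S.κ k x) (fderiv ℂ (S.κ k) x (S.v k x)) = (jc (S.κ k) x * g x) • L x) :
    ∃ N ∈ 𝓝 q, ∃ C : ℝ, ∀ F : ℂ → EN M, LCrv θ RD H₀ Ra F → ∀ Y : NCLift X F, WNe Wf Y → ∀ Θ : ℂ → ℂ, IsTh S Wf mK Y Θ →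
      ∀ z ∈ S.Om Y k, S.lf Y k z ∈ N → ∃ (η : ℂ → ℂ) (ψ : ℂ → ℝ), ContDiffAt ℝ 1 η z ∧ ‖η z‖ ≤ C * ‖deriv (S.lf Y k) z‖ ∧ ContDiffAt ℝ 2 ψ z ∧ |ψ z| ≤ C ∧
        ∀ᶠ w in 𝓝[≠] z, ContDiffAt ℝ 2 (eN H Wf mK jH Y k.1) w ∧ η w = (starRingEnd ℂ) (Θ w) - gr (eH H Wf mK Y k.1) w ∧
          Δ (eN H Wf mK jH Y k.1) w + dv η w = 2 * jH / mK * lam F w ^ 2 ∧ eN H Wf mK jH Y k.1 w - eP S g Wf mK jH Y k w = ψ w := by
  obtain ⟨hga, -, ⟨c, hc, hcv⟩, h, hh, hRh, -⟩ := hg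
  have hva : AnalyticAt ℂ (S.v k) q := v_an k q hq
  -- the constants
  obtain ⟨a, ha, ha'⟩ : ∃ a : ℝ, 0 < a ∧ a < ‖S.v k q‖ := exists_between (norm_pos_iff.2 hv)
  obtain ⟨b, hb, hb'⟩ : ∃ b : ℝ, 0 < b ∧ b < ‖L q‖ := exists_between (norm_pos_iff.2 hL0)
  set B : ℝ := ‖L q‖ + 1 with hB
  set D : ℝ := ‖fderiv ℂ L q‖ + 1 with hD
  set C₁ : ℝ := ‖dvg (S.v k) q - c q‖ + 1 with hC₁
  have e1 : ∀ᶠ x in 𝓝 q, a < ‖S.v k x‖ := hva.continuousAt.norm.eventually (lt_mem_nhds ha')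
  have e2 : ∀ᶠ x in 𝓝 q, b < ‖L x‖ := hL.continuousAt.norm.eventually (lt_mem_nhds hb')
  have e3 : ∀ᶠ x in 𝓝 q, ‖L x‖ < B := hL.continuousAt.norm.eventually (gt_mem_nhds (by rw [hB]; linarith))
  have e4 : ∀ᶠ x in 𝓝 q, ‖fderiv ℂ L x‖ < D := hL.fderiv.continuousAt.norm.eventually (gt_mem_nhds (by rw [hD]; linarith))
  have e5 : ∀ᶠ x in 𝓝 q, ‖dvg (S.v k) x - c x‖ < C₁ :=
    ((EtaLoc_dvg hva).continuousAt.sub hc.continuousAt).norm.eventually (gt_mem_nhds (by show ‖dvg (S.v k) q - c q‖ < C₁; rw [hC₁]; linarith))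
  have e6 : ∀ᶠ x in 𝓝 q, x ∈ S.D k := (D_open k).mem_nhds hq
  obtain ⟨N, hN, hNo, hqN⟩ := _root_.mem_nhds_iff.1 (((((((((((e1.and e2).and e3).and e4).and e5).and e6).and hga.eventually_analyticAt).and
    hc.eventually_analyticAt).and hL.eventually_analyticAt).and hcv).and hHL).and hRh)
  have hC₁0 : 0 < C₁ := by rw [hC₁]; positivity
  have hD0 : 0 < D := by rw [hD]; positivity
  have hB0 : 0 < B := by rw [hB]; positivity
  set C : ℝ := C₁ / a + D / b + (|Real.log b| + |Real.log B|) with hC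
  refine ⟨N, hNo.mem_nhds hqN, C, ?_⟩
  intro F hF Y hne Θ hΘ z hz hzN
  have hFW := hF.toRCrv.toWCrv
  set p : ℂ → ℂ × ℂ := S.lf Y k with hpdef
  have hp : AnalyticAt ℂ p z := lfN_an hFW Y k z hz
  have hOm : ∀ᶠ w in 𝓝 z, w ∈ S.Om Y k := (Om_open hFW Y k).mem_nhds hz
  have hpN : ∀ᶠ w in 𝓝 z, p w ∈ N := hp.continuousAt.eventually (hNo.mem_nhds hzN)
  have hode : ∀ᶠ w in 𝓝 z, (S.v k (p w)).1 * (deriv p w).2 - (S.v k (p w)).2 * (deriv p w).1 = 0 := hOm.mono fun w hw => lfN_tan hFW Y k w hw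
  have hvN : ∀ x ∈ N, AnalyticAt ℂ (S.v k) x ∧ S.v k x ≠ 0 := by
    intro x hx
    have hx' := hN hx
    simp only [Set.mem_ofPred_eq] at hx'
    obtain ⟨⟨⟨⟨⟨⟨⟨⟨⟨⟨⟨h1, h2⟩, h3⟩, h4⟩, h5⟩, h6⟩, h7⟩, h8⟩, h9⟩, h10⟩, h11⟩, h12⟩ := hx'
    exact ⟨v_an k x h6, norm_pos_iff.1 (ha.trans h1)⟩
  have hNN : ∀ x ∈ N, a < ‖S.v k x‖ ∧ b < ‖L x‖ ∧ ‖L x‖ < B ∧ ‖fderiv ℂ L x‖ < D ∧ ‖dvg (S.v k) x - c x‖ < C₁ ∧ AnalyticAt ℂ g x ∧ AnalyticAt ℂ c x ∧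
      AnalyticAt ℂ L x ∧ fderiv ℂ g x (S.v k x) = c x * g x ∧ H (S.κ k x) (fderiv ℂ (S.κ k) x (S.v k x)) = (jc (S.κ k) x * g x) • L x ∧
      (eval (S.σ k x).ofLp (RD * Ra) = 0 ↔ g x * h x = 0) := by
    intro x hx
    have hx' := hN hx
    simp only [Set.mem_ofPred_eq] at hx'
    obtain ⟨⟨⟨⟨⟨⟨⟨⟨⟨⟨⟨h1, h2⟩, h3⟩, h4⟩, h5⟩, h6⟩, h7⟩, h8⟩, h9⟩, h10⟩, h11⟩, h12⟩ := hx'
    exact ⟨h1, h2, h3, h4, h5, h7, h8, h9, h10, h11, h12⟩
  obtain ⟨hv0, hb0, hB1, hDz, hCz, hgz, hcz, hLz, -, -, -⟩ := hNN _ hzN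
  set ζ : ℂ → ℂ := ztv (S.v k) p with hζdef
  have hζ : AnalyticAt ℂ ζ z := ztv_an hp (hvN _ hzN).1 hode (hvN _ hzN).2
  have hder : ∀ᶠ w in 𝓝 z, deriv p w = ζ w • S.v k (p w) := by
    filter_upwards [hode, hpN] with w h1 h2
    exact ztv_smul h1 (hvN _ h2).2
  have hGp : AnalyticAt ℂ (fun w => dvg (S.v k) (p w) - c (p w)) z :=
    AnalyticAt.fun_comp (g := fun x => dvg (S.v k) x - c x) (f := p) ((EtaLoc_dvg (hvN _ hzN).1).sub hcz) hp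
  set G : ℂ → ℂ := fun w => ζ w * (dvg (S.v k) (p w) - c (p w)) with hG
  have hGa : AnalyticAt ℂ G z := hζ.mul hGp
  have hLp : AnalyticAt ℂ (fun w => L (p w)) z := AnalyticAt.fun_comp (g := L) (f := p) hLz hp
  have hLp0 : L (p z) ≠ 0 := norm_pos_iff.1 (hb.trans hb0)
  set ψ : ℂ → ℝ := fun w => Real.log ‖L (p w)‖ with hψ
  have hψc : ContDiffAt ℝ 2 ψ z := MQ.contDiffAt_log_norm (F := fun w => L (p w)) hLp hLp0
  refine ⟨fun w => (starRingEnd ℂ) (G w) - gr ψ w, ψ, ?_, ?_, hψc, ?_, ?_⟩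
  · -- regularity
    have h1 : ContDiffAt ℝ 1 G z := (hGa.contDiffAt (n := 1)).restrict_scalars ℝ
    have h2 : ContDiffAt ℝ 1 (fun w => (starRingEnd ℂ) (G w)) z := (Complex.conjCLE.contDiff (n := 1)).contDiffAt.comp z h1
    exact h2.sub (MQ.contDiffAt_gr (m := 1) hψc (by norm_num))
  · -- the bound
    have h1 : ‖G z‖ ≤ C₁ / a * ‖deriv p z‖ := by
      have h2 : ‖ζ z‖ * a ≤ ‖deriv p z‖ := by
        rw [hder.self_of_nhds, norm_smul]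
        exact mul_le_mul_of_nonneg_left hv0.le (norm_nonneg _)
      have h3 : ‖ζ z‖ ≤ ‖deriv p z‖ / a := by rwa [le_div_iff₀ ha]
      calc ‖G z‖ = ‖ζ z‖ * ‖dvg (S.v k) (p z) - c (p z)‖ := norm_mul _ _
        _ ≤ ‖deriv p z‖ / a * C₁ := mul_le_mul h3 hCz.le (norm_nonneg _) (by positivity)
        _ = C₁ / a * ‖deriv p z‖ := by ring
    have h4 := EtaLoc_gr hLz hp hb hb0.le hDz.le
    calc ‖(starRingEnd ℂ) (G z) - gr ψ z‖ ≤ ‖(starRingEnd ℂ) (G z)‖ + ‖gr ψ z‖ := norm_sub_le _ _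
      _ ≤ C₁ / a * ‖deriv p z‖ + D / b * ‖deriv p z‖ := by
          rw [RCLike.norm_conj]
          exact add_le_add h1 h4
      _ = (C₁ / a + D / b) * ‖deriv p z‖ := by ring
      _ ≤ C * ‖deriv p z‖ := by
          refine mul_le_mul_of_nonneg_right ?_ (norm_nonneg _)
          rw [hC]
          linarith [abs_nonneg (Real.log b), abs_nonneg (Real.log B)]
  · -- the difference
    have h1 : Real.log b ≤ ψ z := Real.log_le_log hb hb0.le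
    have h2 : ψ z ≤ Real.log B := Real.log_le_log (hb.trans hb0) hB1.le
    have h3 : 0 ≤ C₁ / a := by positivity
    have h4 : 0 ≤ D / b := by positivity
    rw [abs_le]
    constructor
    · have := neg_abs_le (Real.log b)
      rw [hC]
      linarith [abs_nonneg (Real.log B)]
    · have := le_abs_self (Real.log B)
      rw [hC]
      linarith [abs_nonneg (Real.log b)]
  -- the identities off `z`
  have hFne : ∀ w, F w ≠ 0 := by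
    intro w h0
    have h1 := hFW.mem w
    rw [h0] at h1
    exact hX.zero h1
  have hgne : ∀ᶠ w in 𝓝[≠] z, g (p w) ≠ 0 := by
    have h1 := EtaLoc_ne hFW.diff hFW.ne z
    have h2 := EtaLoc_ne hFW.diff hF.neR z
    filter_upwards [h1, h2, hOm.filter_mono nhdsWithin_le_nhds, hpN.filter_mono nhdsWithin_le_nhds] with w h3 h4 h5 h6 h7
    obtain ⟨-, -, -, -, -, -, -, -, -, -, h8⟩ := hNN _ h6
    obtain ⟨d, hd⟩ := hFW.hom
    obtain ⟨d', hd'⟩ := hF.homR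
    obtain ⟨r, hr, hr'⟩ := Y.eq k.1 w (Om_sub hFW Y k h5)
    have h9 : X.ρ k.1 (Y.p k.1 w) = S.σ k (p w) := by
      show _ = X.ρ k.1 (S.κ k (p w))
      rw [(lfN_mem hFW Y k w h5).2]
    rw [h9] at hr'
    have h10 := h8.2 (by rw [h7, zero_mul])
    rw [map_mul] at h10
    rcases mul_eq_zero.1 h10 with h11 | h11
    · exact h3 (by rw [hr', Pool.Agent.H14.PP.eval_smulEN hd, h11, mul_zero])
    · exact h4 (by rw [hr', Pool.Agent.H14.PP.eval_smulEN hd', h11, mul_zero])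
  have hgf : ∃ᶠ w in 𝓝 z, g (p w) ≠ 0 := hgne.frequently.filter_mono nhdsWithin_le_nhds
  have hkey := gr_eP hX hW hF Y hne hΘ hz hgz hgf
  -- the difference of the potentials
  have hdiff : ∀ᶠ w in 𝓝[≠] z, eN H Wf mK jH Y k.1 w = eP S g Wf mK jH Y k w + ψ w := by
    filter_upwards [hgne, hOm.filter_mono nhdsWithin_le_nhds, hOm.eventually_nhds.filter_mono nhdsWithin_le_nhds, hpN.filter_mono nhdsWithin_le_nhds,
      hder.filter_mono nhdsWithin_le_nhds, lfN_ne hFW Y k z hz, hp.eventually_analyticAt.filter_mono nhdsWithin_le_nhds] with w h1 h2 h3 h4 h5 h6 h7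
    obtain ⟨-, h8, -, -, -, -, -, -, -, h9, -⟩ := hNN _ h4
    have h10 : Y.p k.1 w = S.κ k (p w) := (lfN_mem hFW Y k w h2).2.symm
    have h11 : deriv (Y.p k.1) w = ζ w • fderiv ℂ (S.κ k) (p w) (S.v k (p w)) := by
      have h12 : Y.p k.1 =ᶠ[𝓝 w] fun x => S.κ k (p x) := h3.mono fun x hx => (lfN_mem hFW Y k x hx).2.symm
      have h13 : deriv (fun x => S.κ k (p x)) w = fderiv ℂ (S.κ k) (p w) (deriv p w) :=
        ((EtaLoc_κ k (p w)).differentiableAt.hasFDerivAt.comp_hasDerivAt w h7.differentiableAt.hasDerivAt).deriv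
      rw [h12.deriv_eq, h13, h5, map_smul]
    have h13 : H (Y.p k.1 w) (deriv (Y.p k.1) w) = (ζ w * (jc (S.κ k) (p w) * g (p w))) • L (p w) := by
      rw [h11, h10, hH, h9, smul_smul]
    have h14 : L (p w) ≠ 0 := norm_pos_iff.1 (hb.trans h8)
    have n1 : ‖ζ w‖ ≠ 0 := norm_ne_zero_iff.2 h6.2.2.2.1
    have n2 : ‖jc (S.κ k) (p w)‖ ≠ 0 := norm_ne_zero_iff.2 h6.2.2.2.2
    have n3 : ‖g (p w)‖ ≠ 0 := norm_ne_zero_iff.2 h1
    have n4 : ‖L (p w)‖ ≠ 0 := norm_ne_zero_iff.2 h14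
    show Real.log ‖H (Y.p k.1 w) (deriv (Y.p k.1) w)‖ + 1 / mK * Real.log ‖wt Wf Y k.1 w‖ + jH / mK * Real.log ‖F w‖ =
      Real.log ‖ζ w‖ + Real.log ‖jc (S.κ k) (p w)‖ + Real.log ‖g (p w)‖ + 1 / mK * Real.log ‖wt Wf Y k.1 w‖ + jH / mK * Real.log ‖F w‖ +
        Real.log ‖L (p w)‖
    rw [h13, norm_smul, norm_mul, norm_mul, Real.log_mul (mul_ne_zero n1 (mul_ne_zero n2 n3)) n4, Real.log_mul n1 (mul_ne_zero n2 n3), Real.log_mul n2 n3]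
    ring
  have hdiff' := EtaLoc_punct hdiff
  filter_upwards [hkey, hdiff, hdiff', hgne, hpN.filter_mono nhdsWithin_le_nhds, hder.filter_mono nhdsWithin_le_nhds,
    hGa.eventually_analyticAt.filter_mono nhdsWithin_le_nhds, hLp.eventually_analyticAt.filter_mono nhdsWithin_le_nhds,
    hp.eventually_analyticAt.filter_mono nhdsWithin_le_nhds] with w h1 h2 h3 h4 h5 h6 h7 h8 h9
  obtain ⟨k1, k2, k3⟩ := h1
  obtain ⟨-, h10, -, -, -, hgw, -, -, hcw, -, -⟩ := hNN _ h5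
  have hψw : ContDiffAt ℝ 2 ψ w := MQ.contDiffAt_log_norm (F := fun w => L (p w)) h8 (norm_pos_iff.1 (hb.trans h10))
  have hlF : ContDiffAt ℝ 2 (fun w => (jH : ℝ) / mK * Real.log ‖F w‖) w :=
    contDiffAt_const.mul (MQ.lap_log_norm (hFW.diff.analyticAt w) (hFne w)).1
  have hDD : DDv (S.v k) g p w = G w := by
    have h11 : deriv (fun x => g (p x)) w = ζ w * (c (p w) * g (p w)) := by
      have h12 : deriv (fun x => g (p x)) w = fderiv ℂ g (p w) (deriv p w) :=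
        (hgw.differentiableAt.hasFDerivAt.comp_hasDerivAt w h9.differentiableAt.hasDerivAt).deriv
      rw [h12, h6, map_smul, hcw, smul_eq_mul]
    rw [DDv, h11, ← mul_assoc, mul_div_cancel_right₀ _ h4]
    show dvg (S.v k) (p w) * ζ w - ζ w * c (p w) = ζ w * (dvg (S.v k) (p w) - c (p w))
    ring
  rw [hDD] at k3
  obtain ⟨r1, r2, r3⟩ := EtaLoc_alg (eN := eN H Wf mK jH Y k.1) (eH := eH H Wf mK Y k.1) (lF := fun w => (jH : ℝ) / mK * Real.log ‖F w‖) h3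
    (fun x => rfl) k1 hψw hlF h7.differentiableAt k3
  refine ⟨r1, r2, ?_, ?_⟩
  · rw [r3, k2]
  · rw [h2, add_sub_cancel_left]

end Pool.Agent.MQL

end
end
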