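import Pool.Agent.H43.TL2.M128
import Pool.Agent.H43.TL2.M166
import Pool.Agent.H43.TL2.M185
import Pool.Agent.H43.TL2.M198

/-! The parts of this file: SR3.EGb, MQL.EtaNL. -/

section

/-!
# SR3 EGb: the family of the curves of the class satisfies the hypotheses of block E
-/

set_option autoImplicit false

open Topology Filter Metric InnerProductSpace Laplacian

noncomputable section

namespace Pool.Agent.SR3

open Pool.Agent.H36.BP (EN fs)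
open Pool.Agent.SDR (gc)
open Pool.Agent.SR3.BE (Fam Hyp Fit AllFlat Rel ht vee)

variable {N : ℕ} {G : Geo N} {T : Set (EN N)} {rho : EN N → ℝ} {M : ℕ} {c₀ C δ : ℝ} {g : (ℂ → EN N) → ℂ → ℝ}

/-- the theorem, with `growth`, `lower`, `speed`, `exists_good` as hypotheses -/
private theorem EGb_core (hG : G.Ok)
    (hgrowth : ∃ B : ℝ, 0 ≤ B ∧ ∀ (q : G.J → ℂ) (F : ℂ → EN N), G.Cl T q F → ∀ z, Real.log ‖F z‖ ≤ B * (1 + infDist z (Geo.Gd rho δ F)))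
    (hlower : ∃ c B : ℝ, 0 < c ∧ ∀ (q : G.J → ℂ) (F : ℂ → EN N), G.Cl T q F → ∀ z, c * infDist z (Geo.Gd rho δ F) - B ≤ Real.log ‖F z‖)
    (hspeed : ∃ B R : ℝ, 0 < B ∧ 0 < R ∧ ∀ (q : G.J → ℂ) (F : ℂ → EN N), G.Cl T q F → ∀ z, R ≤ infDist z (Geo.Gd rho δ F) →
      fs (F z) (deriv F z) ≤ B / infDist z (Geo.Gd rho δ F))
    (hgood : ∀ (q : G.J → ℂ) (F : ℂ → EN N), G.Cl T q F → (Geo.Gd rho δ F).Nonempty) :
 ∃ B₀ C₁ c₁ R₁ : ℝ, ∀ C₂ R₂ : ℝ, C₁ ≤ C₂ → R₁ ≤ R₂ → Hyp (eFam G T rho δ B₀) C₂ c₁ R₂ := by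
  classical
  obtain ⟨B₀, hB₀, hlow⟩ := lam_lowerA hG
  obtain ⟨B₁, hB₁, hup⟩ := lam_upperA hG
  obtain ⟨B₂, hB₂, hgr⟩ := hgrowth
  obtain ⟨c', B₃, hc', hlw⟩ := hlower
  obtain ⟨B₄, R₄, hB₄, hR₄, hsp⟩ := hspeed
  obtain ⟨B₅, hB₅, hc2⟩ := lam_c2 hG
  have hh : (1 : ℝ) ≤ G.h := by exact_mod_cast hG.aff.pos ()
  set bm : ℝ := 1 + ∑ i, (G.b i : ℝ) with hbm
  have hbi : ∀ i, (G.b i : ℝ) ≤ bm := by
    intro i
    have h1 : (G.b i : ℝ) ≤ ∑ i, (G.b i : ℝ) := Finset.single_le_sum (f := fun i => (G.b i : ℝ)) (fun _ _ => Nat.cast_nonneg _) (Finset.mem_univ i)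
    linarith
  have hbm1 : 1 ≤ bm := by
    have h1 : 0 ≤ ∑ i, (G.b i : ℝ) := Finset.sum_nonneg fun _ _ => Nat.cast_nonneg _
    linarith
  refine ⟨B₀, max 1 (max (G.h * B₂ + B₁ + B₀) (B₅ * B₄ ^ 2)), G.h * c' / (2 * bm), max 1 (max R₄ ((2 * (G.h * B₃ + B₁)) / (G.h * c'))),
    fun C₂ R₂ hC₂ hR₂ => ?_⟩
  have hC1 : 1 ≤ C₂ := (le_max_left _ _).trans hC₂
  have hC2 : G.h * B₂ + B₁ + B₀ ≤ C₂ := ((le_max_left _ _).trans (le_max_right _ _)).trans hC₂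
  have hC3 : B₅ * B₄ ^ 2 ≤ C₂ := ((le_max_right _ _).trans (le_max_right _ _)).trans hC₂
  have hR1 : 1 ≤ R₂ := (le_max_left _ _).trans hR₂
  have hR2 : R₄ ≤ R₂ := ((le_max_left _ _).trans (le_max_right _ _)).trans hR₂
  have hR3 : (2 * (G.h * B₃ + B₁)) / (G.h * c') ≤ R₂ := ((le_max_right _ _).trans (le_max_right _ _)).trans hR₂
  have hhc : 0 < G.h * c' := by positivity
  have hK : ∀ (x : ECl G T) z, x.1.2 z ∈ G.K := fun x z => x.2.ent.mem z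
  have hD : ∀ (x : ECl G T), Differentiable ℂ x.1.2 := fun x => x.2.ent.diff
  have hd0 : ∀ (x : ECl G T) z, 0 ≤ (eFam G T rho δ B₀).d x z := fun x z => infDist_nonneg
  refine ⟨hC1, by positivity, hR1, fun x => hgood x.1.1 x.1.2 x.2, fun x i z => ?_, fun x i z => ?_, fun x z hz => ?_, fun x i z hz => ?_, fun x i z hz => ?_⟩
  · have h1 := hlow i _ (hK x z)
    show 0 ≤ G.lam i (x.1.2 z) + B₀
    linarith
  · have h1 := (hup _ (hK x z) (x.2.nm z)).1 i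
    have h2 := hgr _ _ x.2 z
    show G.lam i (x.1.2 z) + B₀ ≤ C₂ * (1 + infDist z (Geo.Gd rho δ x.1.2))
    have h3 : 0 ≤ infDist z (Geo.Gd rho δ x.1.2) := infDist_nonneg
    have h4 : (G.h : ℝ) * Real.log ‖x.1.2 z‖ ≤ G.h * (B₂ * (1 + infDist z (Geo.Gd rho δ x.1.2))) := mul_le_mul_of_nonneg_left h2 (by linarith)
    have h5 : (G.h * B₂ + B₁ + B₀) * (1 + infDist z (Geo.Gd rho δ x.1.2)) ≤ C₂ * (1 + infDist z (Geo.Gd rho δ x.1.2)) :=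
      mul_le_mul_of_nonneg_right hC2 (by linarith)
    nlinarith
  · have h1 := hlw _ _ x.2 z
    have h2 := (hup _ (hK x z) (x.2.nm z)).2.1
    have h3 : ∑ i, G.b i * G.lam i (x.1.2 z) ≤ bm * ∑ i, (G.lam i (x.1.2 z) + B₀) := by
      rw [Finset.mul_sum]
      refine Finset.sum_le_sum fun i _ => ?_
      have h4 := hlow i _ (hK x z)
      have h5 : (G.b i : ℝ) * (G.lam i (x.1.2 z) + B₀) ≤ bm * (G.lam i (x.1.2 z) + B₀) := mul_le_mul_of_nonneg_right (hbi i) (by linarith)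
      have h6 : 0 ≤ (G.b i : ℝ) * B₀ := by positivity
      nlinarith
    show G.h * c' / (2 * bm) * infDist z (Geo.Gd rho δ x.1.2) ≤ ∑ i, (G.lam i (x.1.2 z) + B₀)
    have hz' : R₂ ≤ infDist z (Geo.Gd rho δ x.1.2) := hz
    have h7 : 2 * (G.h * B₃ + B₁) ≤ infDist z (Geo.Gd rho δ x.1.2) * (G.h * c') := by
      rw [← div_le_iff₀ hhc]
      exact hR3.trans hz'
    have h8 : (G.h : ℝ) * (c' * infDist z (Geo.Gd rho δ x.1.2) - B₃) ≤ G.h * Real.log ‖x.1.2 z‖ := mul_le_mul_of_nonneg_left h1 (by linarith)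
    have h9 : G.h * c' * infDist z (Geo.Gd rho δ x.1.2) / 2 ≤ bm * ∑ i, (G.lam i (x.1.2 z) + B₀) := by nlinarith
    rw [show G.h * c' / (2 * bm) * infDist z (Geo.Gd rho δ x.1.2) = (G.h * c' * infDist z (Geo.Gd rho δ x.1.2) / 2) / bm by field_simp,
      div_le_iff₀ (by linarith)]
    linarith
  · have h1 := (hc2 i x.1.2 z ((hD x).analyticAt z) (Eventually.of_forall fun w => hK x w)).1
    exact h1.add contDiffAt_const
  · obtain ⟨h1, h2, -⟩ := hc2 i x.1.2 z ((hD x).analyticAt z) (Eventually.of_forall fun w => hK x w)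
    have h3 : Δ ((eFam G T rho δ B₀).lam x i) z = Δ (fun w => G.lam i (x.1.2 w)) z := by
      have h4 : (eFam G T rho δ B₀).lam x i = (fun w => G.lam i (x.1.2 w)) + fun _ => B₀ := rfl
      rw [h4, h1.laplacian_add contDiffAt_const]
      simp
    rw [h3]
    have hz' : R₂ ≤ infDist z (Geo.Gd rho δ x.1.2) := hz
    have h5 := hsp _ _ x.2 z (hR2.trans hz')
    have h6 : 0 < infDist z (Geo.Gd rho δ x.1.2) := by linarith
    have h7 : 0 ≤ fs (x.1.2 z) (deriv x.1.2 z) := Pool.Agent.H36.BP.fs_nonneg _ _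
    calc |Δ (fun w => G.lam i (x.1.2 w)) z| ≤ B₅ * fs (x.1.2 z) (deriv x.1.2 z) ^ 2 := h2
      _ ≤ B₅ * (B₄ / infDist z (Geo.Gd rho δ x.1.2)) ^ 2 := mul_le_mul_of_nonneg_left (pow_le_pow_left₀ h7 h5 2) hB₅
      _ = B₅ * B₄ ^ 2 / infDist z (Geo.Gd rho δ x.1.2) ^ 2 := by rw [div_pow, mul_div_assoc]
      _ ≤ C₂ / infDist z (Geo.Gd rho δ x.1.2) ^ 2 := div_le_div_of_nonneg_right hC3 (by positivity)

theorem eHyp (S : Base G T rho M c₀ C δ g) : ∃ B₀ C₁ c₁ R₁ : ℝ, ∀ C₂ R₂ : ℝ, C₁ ≤ C₂ → R₁ ≤ R₂ → Hyp (eFam G T rho δ B₀) C₂ c₁ R₂ :=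
  EGb_core S.ok (growth S.ok S.met) (lower S) (speed S) fun _ _ hF => exists_good S.ok S.met hF

end Pool.Agent.SR3

end
end

section

/-!
# MQL EtaNL: the fields `η` of the boxes, for weights with poles

Port of `MQ3/EtaN`; the vectors and the curves are the same, the weight does not enter.
-/

set_option autoImplicit false

open Topology Filter Metric MvPolynomial MeasureTheory Laplacian

noncomputable section

namespace Pool.Agent.MQL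

open Pool.Agent.H36.BP (EN fs)
open Pool.Agent.H17BP (Surface)
open Pool.Agent.H17EF (coneE)
open Pool.Agent.MQ (lam ztv dvg DDv gr dv)
open Pool.Agent.MQ3

variable {M : ℕ} {P : Ideal (MvPolynomial (Fin (M + 1)) ℂ)} {RD H₀ Ra : MvPolynomial (Fin (M + 1)) ℂ} {m : ℕ} {X : NCModel P RD} {θ : WDiff (coneE P) m}
  {l : LF M} {S : Web X θ l} {Wf : EN M → EN M → EN M → ℂ} {mK jH : ℕ}

/-- the local fields near one regular chart point -/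
theorem EtaNL_loc (hX : Surface (coneE P)) (hW : LW P H₀ mK jH Wf) (C : Cov S Ra) (k : Fin C.nN) (a : (S.V (C.b k)).ι) {q : ℂ × ℂ}
    (hq : q ∈ C.K k a) : ∃ N ∈ 𝓝 q, ∃ B : ℝ, ∀ F : ℂ → EN M, LCrv θ RD H₀ Ra F → ∀ Y : NCLift X F, WNe Wf Y → ∀ Θ : ℂ → ℂ, IsTh S Wf mK Y Θ →
      ∀ z ∈ S.Om Y ⟨C.b k, a⟩, S.lf Y ⟨C.b k, a⟩ z ∈ N → EtaNPt Wf mK jH (C.H k) Y (C.b k) Θ (B * ‖deriv (S.lf Y ⟨C.b k, a⟩) z‖) z := by
  -- the equation of the invariant curve and the vector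
  obtain ⟨hD, hv, hH, g, hg, L, hL, hL0, hHL⟩ : q ∈ S.D ⟨C.b k, a⟩ ∧ S.v ⟨C.b k, a⟩ q ≠ 0 ∧ (∀ p w (c : ℂ), C.H k p (c • w) = c • C.H k p w) ∧
      ∃ g, InvAt S Ra ⟨C.b k, a⟩ q g ∧ ∃ L : ℂ × ℂ → EN 2, AnalyticAt ℂ L q ∧ L q ≠ 0 ∧
        ∀ᶠ x in 𝓝 q, C.H k (S.κ ⟨C.b k, a⟩ x) (fderiv ℂ (S.κ ⟨C.b k, a⟩) x (S.v ⟨C.b k, a⟩ x)) = (jc (S.κ ⟨C.b k, a⟩) x * g x) • L x := by
    rcases hu : C.u k with _ | u'
    · have hR := (C.K_A k a hu q hq).1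
      obtain ⟨g, hg⟩ := exists_invAt (Or.inl hR)
      have hH : C.H k = hA := by unfold Cov.H; rw [hu]; rfl
      rw [hH]
      exact ⟨hR.mem, hR.v_ne, EtaN_hA, g, hg, nloc_A hR hg⟩
    · obtain ⟨hR, hκ⟩ := C.K_B k a u' hu q hq
      obtain ⟨h1, h2, h3⟩ := C.N_B k u' hu
      obtain ⟨g, hg⟩ := exists_invAt hR
      have hH : C.H k = hB u' := by unfold Cov.H; rw [hu]; rfl
      rw [hH]
      have hD : q ∈ S.D ⟨C.b k, a⟩ := hR.elim (fun h => h.mem) fun h => h.mem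
      have hv : S.v ⟨C.b k, a⟩ q ≠ 0 := hR.elim (fun h => h.v_ne) fun h => h.v_ne
      exact ⟨hD, hv, EtaN_hB u', g, hg, nloc_B hR (EtaN_ne _ (h1 hκ)) (h2 _ hκ) (h3 _ hκ) hg⟩
  obtain ⟨N, hN, B, h⟩ := eta_loc (mK := mK) (jH := jH) hX hW hD hv hg hH hL hL0 hHL
  refine ⟨N, hN, B, fun F hF Y hne Θ hΘ z hz hzN => ?_⟩
  obtain ⟨η, ψ, h1, h2, -, -, h3⟩ := h F hF Y hne Θ hΘ z hz hzN
  exact ⟨η, h1, h2, h3.mono fun w hw => ⟨hw.1, hw.2.1, hw.2.2.1⟩⟩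

/-- the local fields over a compact set of regular chart points -/
theorem EtaNL_cpt (hX : Surface (coneE P)) (hW : LW P H₀ mK jH Wf) (C : Cov S Ra) (k : Fin C.nN) (a : (S.V (C.b k)).ι) :
    ∃ B : ℝ, ∀ F : ℂ → EN M, LCrv θ RD H₀ Ra F → ∀ Y : NCLift X F, WNe Wf Y → ∀ Θ : ℂ → ℂ, IsTh S Wf mK Y Θ →
      ∀ z ∈ S.Om Y ⟨C.b k, a⟩, S.lf Y ⟨C.b k, a⟩ z ∈ C.K k a → EtaNPt Wf mK jH (C.H k) Y (C.b k) Θ (B * ‖deriv (S.lf Y ⟨C.b k, a⟩) z‖) z := by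
  refine (C.K_compact k a).induction_on (p := fun s => ∃ B : ℝ, ∀ F : ℂ → EN M, LCrv θ RD H₀ Ra F → ∀ Y : NCLift X F, WNe Wf Y → ∀ Θ : ℂ → ℂ, IsTh S Wf mK Y Θ →
      ∀ z ∈ S.Om Y ⟨C.b k, a⟩, S.lf Y ⟨C.b k, a⟩ z ∈ s → EtaNPt Wf mK jH (C.H k) Y (C.b k) Θ (B * ‖deriv (S.lf Y ⟨C.b k, a⟩) z‖) z) ?_ ?_ ?_ ?_
  · exact ⟨0, fun F _ Y _ Θ _ z _ h => h.elim⟩
  · rintro s t hst ⟨B, hB⟩
    exact ⟨B, fun F hF Y hne Θ hΘ z hz h => hB F hF Y hne Θ hΘ z hz (hst h)⟩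
  · rintro s t ⟨B, hB⟩ ⟨B', hB'⟩
    refine ⟨max B B', fun F hF Y hne Θ hΘ z hz h => ?_⟩
    rcases h with h | h
    · obtain ⟨η, h1, h2, h3⟩ := hB F hF Y hne Θ hΘ z hz h
      exact ⟨η, h1, h2.trans (mul_le_mul_of_nonneg_right (le_max_left _ _) (norm_nonneg _)), h3⟩
    · obtain ⟨η, h1, h2, h3⟩ := hB' F hF Y hne Θ hΘ z hz h
      exact ⟨η, h1, h2.trans (mul_le_mul_of_nonneg_right (le_max_right _ _) (norm_nonneg _)), h3⟩
  · intro q hq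
    obtain ⟨N, hN, h⟩ := EtaNL_loc (mK := mK) (jH := jH) hX hW C k a hq
    exact ⟨N, mem_nhdsWithin_of_mem_nhds hN, h⟩

theorem exists_etaN (hX : Surface (coneE P)) (hW : LW P H₀ mK jH Wf) (C : Cov S Ra) (k : Fin C.nN) :
    ∃ B : ℝ, ∀ F : ℂ → EN M, LCrv θ RD H₀ Ra F → ∀ Y : NCLift X F, WNe Wf Y → ∀ Θ : ℂ → ℂ, IsTh S Wf mK Y Θ →
      ∀ (A : ℝ) (lm : ℂ → ℝ), Dens C Y A lm → ∃ η : ℂ → ℂ, ContDiffOn ℝ 1 η (C.UN Y k) ∧ (∀ z ∈ C.UN Y k, ‖η z‖ ≤ B * lm z) ∧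
        ∀ z ∈ C.UN Y k, ∀ᶠ w in 𝓝[≠] z, η w + gr (eN (C.H k) Wf mK jH Y (C.b k)) w = (starRingEnd ℂ) (Θ w) + gr (fun w => jH / mK * Real.log ‖F w‖) w ∧
          ContDiffAt ℝ 2 (eN (C.H k) Wf mK jH Y (C.b k)) w ∧ Δ (eN (C.H k) Wf mK jH Y (C.b k)) w + dv η w = 2 * jH / mK * lam F w ^ 2 := by
  choose B hB using fun a => EtaNL_cpt (mK := mK) (jH := jH) hX hW C k a
  refine ⟨∑ a, |B a|, fun F hF Y hne Θ hΘ A lm hl => ?_⟩
  -- the local field at a point of the open set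
  have hloc : ∀ z ∈ C.UN Y k, ∃ η : ℂ → ℂ, ContDiffAt ℝ 1 η z ∧ ‖η z‖ ≤ (∑ a, |B a|) * lm z ∧ ∀ᶠ w in 𝓝[≠] z,
      ContDiffAt ℝ 2 (eN (C.H k) Wf mK jH Y (C.b k)) w ∧ η w = (starRingEnd ℂ) (Θ w) - gr (eH (C.H k) Wf mK Y (C.b k)) w ∧
        Δ (eN (C.H k) Wf mK jH Y (C.b k)) w + dv η w = 2 * jH / mK * lam F w ^ 2 := by
    intro z hz
    obtain ⟨hz1, hz2, hz3⟩ := hz
    obtain ⟨a, ha1, ha2⟩ := C.lift F hF.toRCrv.toWCrv Y k z hz1 (ball_subset_closedBall hz2) fun j hj hjb => hz3 j ⟨hj, ball_subset_closedBall hjb⟩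
    obtain ⟨η, h1, h2, h3⟩ := hB a F hF Y hne Θ hΘ z ha1 ha2
    refine ⟨η, h1, h2.trans ?_, h3⟩
    have h4 : ‖deriv (S.lf Y ⟨C.b k, a⟩) z‖ ≤ lm z := hl.chart k a z ha1 ha2
    have h5 : |B a| ≤ ∑ a, |B a| := Finset.single_le_sum (f := fun a => |B a|) (fun _ _ => abs_nonneg _) (Finset.mem_univ a)
    calc B a * ‖deriv (S.lf Y ⟨C.b k, a⟩) z‖ ≤ |B a| * ‖deriv (S.lf Y ⟨C.b k, a⟩) z‖ := mul_le_mul_of_nonneg_right (le_abs_self _) (norm_nonneg _)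
      _ ≤ (∑ a, |B a|) * lm z := mul_le_mul h5 h4 (norm_nonneg _) ((abs_nonneg _).trans h5)
  refine ⟨fun w => limUnder (𝓝[≠] w) fun w => (starRingEnd ℂ) (Θ w) - gr (eH (C.H k) Wf mK Y (C.b k)) w, fun z hz => ?_, fun z hz => ?_, fun z hz => ?_⟩
  · obtain ⟨η, h1, -, h3⟩ := hloc z hz
    exact (h1.congr_of_eventuallyEq (EtaN_lim h1 (h3.mono fun w hw => hw.2.1))).contDiffWithinAt
  · obtain ⟨η, h1, h2, h3⟩ := hloc z hz
    have h4 := (EtaN_lim h1 (h3.mono fun w hw => hw.2.1)).self_of_nhds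
    simp only at h4 ⊢
    rw [h4]
    exact h2
  · obtain ⟨η, h1, -, h3⟩ := hloc z hz
    have h4 := EtaN_lim h1 (h3.mono fun w hw => hw.2.1)
    have hF0 : ∀ w, F w ≠ 0 := fun w h0 => hX.zero (by have := hF.mem w; rwa [h0] at this)
    filter_upwards [h3, h4.eventuallyEq_nhds.filter_mono nhdsWithin_le_nhds] with w h5 h6
    obtain ⟨h7, h8, h9⟩ := h5
    have h10 := h6.self_of_nhds
    have h11 : ContDiffAt ℝ 2 (fun w => (jH / mK : ℝ) * Real.log ‖F w‖) w :=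
      contDiffAt_const.mul (Pool.Agent.MQ.contDiffAt_log_norm (hF.diff.analyticAt w) (hF0 w))
    have h12 : DifferentiableAt ℝ (eH (C.H k) Wf mK Y (C.b k)) w := by
      have h13 : eH (C.H k) Wf mK Y (C.b k) = fun w => eN (C.H k) Wf mK jH Y (C.b k) w - (jH / mK : ℝ) * Real.log ‖F w‖ := by
        funext w
        unfold eN
        ring
      rw [h13]
      exact (h7.differentiableAt (by norm_num)).sub (h11.differentiableAt (by norm_num))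
    have h14 : gr (eN (C.H k) Wf mK jH Y (C.b k)) w = gr (eH (C.H k) Wf mK Y (C.b k)) w + gr (fun w => (jH / mK : ℝ) * Real.log ‖F w‖) w :=
      Pool.Agent.MQ.gr_add h12 (h11.differentiableAt (by norm_num))
    refine ⟨?_, h7, ?_⟩
    · simp only at h10 ⊢
      rw [h10, h8, h14]
      ring
    · rw [Pool.Agent.MQ.dv_congr h6]
      exact h9

end Pool.Agent.MQL

end
end
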