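import Pool.Agent.H43.TL2.M134
import Pool.Agent.H43.TL2.M151

/-! The parts of this file: SR3.EHalfB, SR3.EHalfA, SR3.EHalf, SR3.EOsc, SR3.EOsc2. -/

section

/-!
# SR3 EHalfB: odd functions on a circle

`odd_approx`: an odd continuous function on the circle of radius `R` is within `ε` of `f = Im (∑ c_k z ^ (k + 1))` with real `c_k`;
`|c_k| R ^ (k + 1) ≤ 2 (M + ε)`.
-/

set_option autoImplicit false

open Topology Filter Metric Complex InnerProductSpace Laplacian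

noncomputable section

namespace Pool.Agent.SR3.BE

instance ehb_fact : Fact ((0 : ℝ) < 2 * Real.pi) := ⟨Real.two_pi_pos⟩

/-- the span of the functions `Im z ^ (k + 1)` -/
def ehbV : Submodule ℝ (ℂ → ℝ) := Submodule.span ℝ (Set.range fun k : ℕ => fun z : ℂ => (z ^ (k + 1)).im)

theorem ehb_gen (k : ℕ) : (fun z : ℂ => (z ^ (k + 1)).im) ∈ ehbV := Submodule.subset_span ⟨k, rfl⟩

theorem ehb_rep {f : ℂ → ℝ} (hf : f ∈ ehbV) : ∃ (N : ℕ) (c : ℕ → ℝ), ∀ z, f z = ∑ k ∈ Finset.range (N + 1), c k * (z ^ (k + 1)).im := by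
  obtain ⟨c, hc⟩ := (Finsupp.mem_span_range_iff_exists_finsupp).1 hf
  refine ⟨c.support.sup id, c, fun z => ?_⟩
  rw [← hc, Finsupp.sum_of_support_subset c (s := Finset.range (c.support.sup id + 1))]
  · simp [Finset.sum_apply]
  · intro k hk
    rw [Finset.mem_range]
    have : id k ≤ c.support.sup id := Finset.le_sup hk
    simp only [id] at this
    omega
  · intro k _
    simp

/-- `g t = (p t - p (-t)) / 2` -/
def ehbOdd (p : AddCircle (2 * Real.pi) → ℂ) (t : AddCircle (2 * Real.pi)) : ℂ := (p t - p (-t)) / 2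

theorem ehb_fourier {R : ℝ} (hR : 0 < R) (n : ℤ) : ∃ h ∈ ehbV, ∀ t : AddCircle (2 * Real.pi),
    ehbOdd (fun t => fourier n t) t = (h (R * (AddCircle.toCircle t : ℂ)) : ℂ) * I := by
  have key : ∀ k : ℕ, ∀ t : AddCircle (2 * Real.pi), ehbOdd (fun t => fourier ((k : ℤ) + 1) t) t =
      (((R ^ (k + 1))⁻¹ * ((R * (AddCircle.toCircle t : ℂ)) ^ (k + 1)).im : ℝ) : ℂ) * I := by
    intro k t
    have e1 : fourier ((k : ℤ) + 1) t = (AddCircle.toCircle t : ℂ) ^ (k + 1) := by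
      rw [fourier_apply, AddCircle.toCircle_zsmul]
      push_cast
      norm_cast
    have e2 : fourier ((k : ℤ) + 1) (-t) = (starRingEnd ℂ) ((AddCircle.toCircle t : ℂ) ^ (k + 1)) := by
      rw [← e1, ← fourier_neg, fourier_apply, fourier_apply, smul_neg, neg_smul]
    show (fourier ((k : ℤ) + 1) t - fourier ((k : ℤ) + 1) (-t)) / 2 = _
    rw [e1, e2, mul_pow, ← Complex.ofReal_pow, Complex.im_ofReal_mul, ← mul_assoc, inv_mul_cancel₀ (by positivity), one_mul, Complex.sub_conj]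
    push_cast
    ring
  have hR0 : R ≠ 0 := hR.ne'
  rcases lt_trichotomy n 0 with hn | hn | hn
  · obtain ⟨k, rfl⟩ : ∃ k : ℕ, n = -((k : ℤ) + 1) := ⟨(-n - 1).toNat, by omega⟩
    refine ⟨(-(R ^ (k + 1))⁻¹) • fun z : ℂ => (z ^ (k + 1)).im, ehbV.smul_mem _ (ehb_gen k), fun t => ?_⟩
    have e1 : ehbOdd (fun t => fourier (-((k : ℤ) + 1)) t) t = - ehbOdd (fun t => fourier ((k : ℤ) + 1) t) t := by
      have e2 : ∀ s : AddCircle (2 * Real.pi), fourier (-((k : ℤ) + 1)) s = fourier ((k : ℤ) + 1) (-s) := by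
        intro s
        rw [fourier_apply, fourier_apply, smul_neg, neg_smul]
      show (fourier (-((k : ℤ) + 1)) t - fourier (-((k : ℤ) + 1)) (-t)) / 2 = -((fourier ((k : ℤ) + 1) t - fourier ((k : ℤ) + 1) (-t)) / 2)
      rw [e2, e2, neg_neg]
      ring
    rw [e1, key]
    simp only [Pi.smul_apply, smul_eq_mul]
    push_cast
    ring
  · refine ⟨0, ehbV.zero_mem, fun t => ?_⟩
    subst hn
    unfold ehbOdd
    simp
  · obtain ⟨k, rfl⟩ : ∃ k : ℕ, n = (k : ℤ) + 1 := ⟨(n - 1).toNat, by omega⟩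
    refine ⟨((R ^ (k + 1))⁻¹) • fun z : ℂ => (z ^ (k + 1)).im, ehbV.smul_mem _ (ehb_gen k), fun t => ?_⟩
    rw [key]
    rfl

/-- odd parts of trigonometric polynomials -/
theorem ehb_span {R : ℝ} (hR : 0 < R) {p : C(AddCircle (2 * Real.pi), ℂ)} (hp : p ∈ Submodule.span ℂ (Set.range (@fourier (2 * Real.pi)))) :
    ∃ h₁ ∈ ehbV, ∃ h₂ ∈ ehbV, ∀ t : AddCircle (2 * Real.pi),
      ehbOdd p t = (h₁ (R * (AddCircle.toCircle t : ℂ)) : ℂ) + (h₂ (R * (AddCircle.toCircle t : ℂ)) : ℂ) * I := by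
  induction hp using Submodule.span_induction with
  | mem x hx =>
    obtain ⟨n, rfl⟩ := hx
    obtain ⟨h, hh, h1⟩ := ehb_fourier hR n
    refine ⟨0, ehbV.zero_mem, h, hh, fun t => ?_⟩
    show ehbOdd (fun t => fourier n t) t = _
    rw [h1, Pi.zero_apply, Complex.ofReal_zero, zero_add]
  | zero =>
    refine ⟨0, ehbV.zero_mem, 0, ehbV.zero_mem, fun t => ?_⟩
    simp [ehbOdd]
  | add x y _ _ hx hy =>
    obtain ⟨h₁, m₁, h₂, m₂, e⟩ := hx
    obtain ⟨h₁', m₁', h₂', m₂', e'⟩ := hy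
    refine ⟨h₁ + h₁', ehbV.add_mem m₁ m₁', h₂ + h₂', ehbV.add_mem m₂ m₂', fun t => ?_⟩
    have e3 : ehbOdd (x + y : C(AddCircle (2 * Real.pi), ℂ)) t = ehbOdd x t + ehbOdd y t := by
      simp only [ehbOdd, ContinuousMap.add_apply]
      ring
    rw [e3, e, e']
    simp only [Pi.add_apply]
    push_cast
    ring
  | smul a x _ hx =>
    obtain ⟨h₁, m₁, h₂, m₂, e⟩ := hx
    refine ⟨a.re • h₁ - a.im • h₂, ehbV.sub_mem (ehbV.smul_mem _ m₁) (ehbV.smul_mem _ m₂), a.im • h₁ + a.re • h₂,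
      ehbV.add_mem (ehbV.smul_mem _ m₁) (ehbV.smul_mem _ m₂), fun t => ?_⟩
    have e3 : ehbOdd (a • x : C(AddCircle (2 * Real.pi), ℂ)) t = a * ehbOdd x t := by
      simp only [ehbOdd, ContinuousMap.smul_apply, smul_eq_mul]
      ring
    rw [e3, e]
    simp only [Pi.add_apply, Pi.sub_apply, Pi.smul_apply, smul_eq_mul]
    push_cast
    have ha : a = (a.re : ℂ) + (a.im : ℂ) * I := (Complex.re_add_im a).symm
    conv_lhs => rw [ha]
    ring_nf
    rw [Complex.I_sq]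
    ring

theorem ehb_sphere {z : ℂ} {R : ℝ} (hz : z ∈ sphere (0 : ℂ) R) : ∃ t : AddCircle (2 * Real.pi), z = R * (AddCircle.toCircle t : ℂ) := by
  refine ⟨((Complex.arg z : ℝ) : AddCircle (2 * Real.pi)), ?_⟩
  rw [AddCircle.toCircle_apply_mk, div_self (by positivity), one_mul, Circle.coe_exp]
  rw [mem_sphere_zero_iff_norm] at hz
  rw [← hz]
  exact (Complex.norm_mul_exp_arg_mul_I z).symm

/-- the approximation -/
theorem ehb_approx {φ : ℂ → ℝ} {R ε : ℝ} (hR : 0 < R) (hε : 0 < ε) (hφ : ContinuousOn φ (sphere 0 R))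
    (hodd : ∀ z ∈ sphere (0 : ℂ) R, φ (star z) = - φ z) : ∃ f ∈ ehbV, ∀ z ∈ sphere (0 : ℂ) R, |f z - φ z| ≤ ε := by
  have hmem : ∀ t : AddCircle (2 * Real.pi), (R * (AddCircle.toCircle t : ℂ) : ℂ) ∈ sphere (0 : ℂ) R := by
    intro t
    rw [mem_sphere_zero_iff_norm, norm_mul, Circle.norm_coe, mul_one, Complex.norm_real, Real.norm_of_nonneg hR.le]
  have hcont : Continuous fun t : AddCircle (2 * Real.pi) => (R * (AddCircle.toCircle t : ℂ) : ℂ) := by
    have := AddCircle.continuous_toCircle (T := 2 * Real.pi)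
    fun_prop
  let g : C(AddCircle (2 * Real.pi), ℂ) := ⟨fun t => (φ (R * (AddCircle.toCircle t : ℂ)) : ℂ), by
    have h1 : Continuous fun t : AddCircle (2 * Real.pi) => φ (R * (AddCircle.toCircle t : ℂ)) := hφ.comp_continuous hcont hmem
    exact Complex.continuous_ofReal.comp h1⟩
  have hg : g ∈ (Submodule.span ℂ (Set.range (@fourier (2 * Real.pi)))).topologicalClosure := by
    rw [span_fourier_closure_eq_top]
    trivial
  have hg' : g ∈ closure ((Submodule.span ℂ (Set.range (@fourier (2 * Real.pi))) : Submodule ℂ C(AddCircle (2 * Real.pi), ℂ)) :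
      Set C(AddCircle (2 * Real.pi), ℂ)) := hg
  obtain ⟨p, hp, hd⟩ := Metric.mem_closure_iff.1 hg' ε hε
  obtain ⟨f, hf, f₂, -, hfp⟩ := ehb_span hR hp
  refine ⟨f, hf, fun z hz => ?_⟩
  obtain ⟨t, rfl⟩ := ehb_sphere hz
  have h1 : ∀ s, ‖g s - p s‖ ≤ ε := by
    intro s
    have h2 := ContinuousMap.dist_apply_le_dist (f := g) (g := p) s
    rw [dist_eq_norm] at h2
    exact h2.trans hd.le
  have h2 : g (-t) = - g t := by
    show ((φ (R * (AddCircle.toCircle (-t) : ℂ)) : ℝ) : ℂ) = - ((φ (R * (AddCircle.toCircle t : ℂ)) : ℝ) : ℂ)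
    have h3 := hodd _ (hmem t)
    have h4 : star (R * (AddCircle.toCircle t : ℂ) : ℂ) = R * (AddCircle.toCircle (-t) : ℂ) := by
      show (starRingEnd ℂ) (R * (AddCircle.toCircle t : ℂ) : ℂ) = _
      rw [AddCircle.toCircle_neg, Circle.coe_inv_eq_conj, map_mul, Complex.conj_ofReal]
    rw [← h4, h3]
    push_cast
    ring
  have h3 : ehbOdd p t - g t = ((p t - g t) - (p (-t) - g (-t))) / 2 := by
    rw [h2]
    unfold ehbOdd
    ring
  have h4 : ‖ehbOdd p t - g t‖ ≤ ε := by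
    rw [h3, norm_div]
    have h5 := norm_sub_le (p t - g t) (p (-t) - g (-t))
    have h6 := h1 t
    have h7 := h1 (-t)
    rw [norm_sub_rev] at h6 h7
    have h8 : ‖(2 : ℂ)‖ = 2 := by norm_num
    rw [h8, div_le_iff₀ two_pos]
    linarith
  have h5 : f (R * (AddCircle.toCircle t : ℂ)) - φ (R * (AddCircle.toCircle t : ℂ)) = (ehbOdd p t - g t).re := by
    rw [hfp t]
    show _ = (_ + _ - ((φ (R * (AddCircle.toCircle t : ℂ)) : ℝ) : ℂ)).re
    simp
  rw [h5]
  exact (Complex.abs_re_le_norm _).trans h4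

/-! ## the coefficients -/

theorem ehb_int_cos {j : ℤ} (hj : j ≠ 0) : ∫ θ in (0 : ℝ)..2 * Real.pi, Real.cos (j * θ) = 0 := by
  have hj' : (j : ℝ) ≠ 0 := Int.cast_ne_zero.2 hj
  rw [intervalIntegral.integral_comp_mul_left (fun x => Real.cos x) hj', integral_cos]
  have h1 : Real.sin ((j : ℝ) * (2 * Real.pi)) = 0 := by
    have := Real.sin_int_mul_pi (2 * j)
    rw [← this]
    congr 1
    push_cast
    ring
  rw [h1]
  simp

theorem ehb_int_sin (j k : ℕ) : ∫ θ in (0 : ℝ)..2 * Real.pi, Real.sin (((j + 1 : ℕ) : ℝ) * θ) * Real.sin (((k + 1 : ℕ) : ℝ) * θ) =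
    if j = k then Real.pi else 0 := by
  have e1 : ∀ θ : ℝ, Real.sin (((j + 1 : ℕ) : ℝ) * θ) * Real.sin (((k + 1 : ℕ) : ℝ) * θ) =
      (1 / 2) * (Real.cos (((j : ℤ) - k : ℤ) * θ) - Real.cos (((j : ℤ) + k + 2 : ℤ) * θ)) := by
    intro θ
    have h1 : ((((j : ℤ) - k : ℤ) : ℝ) * θ) = ((j + 1 : ℕ) : ℝ) * θ - ((k + 1 : ℕ) : ℝ) * θ := by
      push_cast
      ring
    have h2 : ((((j : ℤ) + k + 2 : ℤ) : ℝ) * θ) = ((j + 1 : ℕ) : ℝ) * θ + ((k + 1 : ℕ) : ℝ) * θ := by
      push_cast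
      ring
    rw [h1, h2, Real.cos_sub, Real.cos_add]
    ring
  have hi : ∀ m : ℤ, IntervalIntegrable (fun θ : ℝ => Real.cos (m * θ)) MeasureTheory.volume 0 (2 * Real.pi) := fun m =>
    (Continuous.intervalIntegrable (by fun_prop) _ _)
  rw [intervalIntegral.integral_congr (g := fun θ => (1 / 2) * (Real.cos (((j : ℤ) - k : ℤ) * θ) - Real.cos (((j : ℤ) + k + 2 : ℤ) * θ)))
    fun θ _ => e1 θ, intervalIntegral.integral_const_mul, intervalIntegral.integral_sub (hi _) (hi _),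
    ehb_int_cos (j := (j : ℤ) + k + 2) (by omega)]
  split_ifs with h
  · subst h
    simp
  · rw [ehb_int_cos (j := (j : ℤ) - k) (by omega)]
    simp

/-- the coefficients of `f` -/
theorem ehb_coeff {N : ℕ} {c : ℕ → ℝ} {R B : ℝ} (hR : 0 < R) (hB : ∀ z ∈ sphere (0 : ℂ) R, |∑ k ∈ Finset.range (N + 1), c k * (z ^ (k + 1)).im| ≤ B)
    {k : ℕ} (hk : k ∈ Finset.range (N + 1)) : |c k| * R ^ (k + 1) ≤ 2 * B := by
  have hpi := Real.pi_pos
  have e0 : ∀ (θ : ℝ) (j : ℕ), (((R : ℂ) * exp (θ * I)) ^ (j + 1)).im = R ^ (j + 1) * Real.sin (((j + 1 : ℕ) : ℝ) * θ) := by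
    intro θ j
    rw [mul_pow, ← Complex.exp_nat_mul, ← Complex.ofReal_pow, Complex.im_ofReal_mul]
    have h1 : ((j + 1 : ℕ) : ℂ) * (θ * I) = ((((j + 1 : ℕ) : ℝ) * θ : ℝ) : ℂ) * I := by
      push_cast
      ring
    rw [h1, Complex.exp_ofReal_mul_I_im]
  have e1 : ∫ θ in (0 : ℝ)..2 * Real.pi, (∑ j ∈ Finset.range (N + 1), c j * (((R : ℂ) * exp (θ * I)) ^ (j + 1)).im) * Real.sin (((k + 1 : ℕ) : ℝ) * θ) =
      c k * R ^ (k + 1) * Real.pi := by
    have e2 : ∀ θ : ℝ, (∑ j ∈ Finset.range (N + 1), c j * (((R : ℂ) * exp (θ * I)) ^ (j + 1)).im) * Real.sin (((k + 1 : ℕ) : ℝ) * θ) =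
        ∑ j ∈ Finset.range (N + 1), (c j * R ^ (j + 1)) * (Real.sin (((j + 1 : ℕ) : ℝ) * θ) * Real.sin (((k + 1 : ℕ) : ℝ) * θ)) := by
      intro θ
      rw [Finset.sum_mul]
      refine Finset.sum_congr rfl fun j _ => ?_
      rw [e0]
      ring
    rw [intervalIntegral.integral_congr fun θ _ => e2 θ, intervalIntegral.integral_finsetSum]
    · simp only [intervalIntegral.integral_const_mul, ehb_int_sin]
      simp only [mul_ite, mul_zero, Finset.sum_ite_eq', if_pos hk]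
    · intro j _
      exact Continuous.intervalIntegrable (by fun_prop) _ _
  have e2 : |c k * R ^ (k + 1) * Real.pi| ≤ B * |2 * Real.pi - 0| := by
    rw [← e1, ← Real.norm_eq_abs]
    refine intervalIntegral.norm_integral_le_of_norm_le_const fun θ _ => ?_
    rw [norm_mul, Real.norm_eq_abs, Real.norm_eq_abs]
    have h1 : ((R : ℂ) * exp (θ * I)) ∈ sphere (0 : ℂ) R := by
      rw [mem_sphere_zero_iff_norm, norm_mul, Complex.norm_exp_ofReal_mul_I, mul_one, Complex.norm_real, Real.norm_of_nonneg hR.le]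
    have h2 := hB _ h1
    have h3 := Real.abs_sin_le_one (((k + 1 : ℕ) : ℝ) * θ)
    have h4 : 0 ≤ B := (abs_nonneg _).trans h2
    calc _ ≤ B * 1 := mul_le_mul h2 h3 (abs_nonneg _) h4
      _ = B := mul_one B
  rw [sub_zero, abs_mul, abs_mul, abs_of_pos (by positivity : (0 : ℝ) < R ^ (k + 1)), abs_of_pos hpi, abs_of_pos (by positivity : 0 < 2 * Real.pi)] at e2
  have e3 : |c k| * R ^ (k + 1) * Real.pi ≤ (2 * B) * Real.pi := by linarith
  exact le_of_mul_le_mul_right e3 hpi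

theorem ehb_smooth {f : ℂ → ℝ} (hf : f ∈ ehbV) : ContDiff ℝ 2 f ∧ (∀ z, Δ f z = 0) ∧ ∀ z : ℂ, z.im = 0 → f z = 0 := by
  obtain ⟨N, c, hc⟩ := ehb_rep hf
  have e1 : f = fun z => (∑ k ∈ Finset.range (N + 1), (c k : ℂ) * z ^ (k + 1)).im := by
    funext z
    rw [hc, Complex.im_sum]
    exact Finset.sum_congr rfl fun k _ => (Complex.im_ofReal_mul _ _).symm
  have h1 : ∀ z, AnalyticAt ℂ (fun z : ℂ => ∑ k ∈ Finset.range (N + 1), (c k : ℂ) * z ^ (k + 1)) z := by
    intro z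
    fun_prop
  have h2 : ∀ z, HarmonicAt f z := by
    intro z
    rw [e1]
    exact (h1 z).harmonicAt_im
  refine ⟨contDiff_iff_contDiffAt.2 fun z => (h2 z).1, fun z => (h2 z).2.self_of_nhds, fun z hz => ?_⟩
  rw [hc]
  refine Finset.sum_eq_zero fun k _ => ?_
  have h3 : z = (z.re : ℂ) := Complex.ext (by simp) (by simp [hz])
  rw [h3, ← Complex.ofReal_pow, Complex.ofReal_im, mul_zero]

theorem odd_approx {φ : ℂ → ℝ} {R M ε : ℝ} (hR : 0 < R) (hM : 0 ≤ M) (hε : 0 < ε) (hφ : ContinuousOn φ (sphere 0 R))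
    (hodd : ∀ z ∈ sphere (0 : ℂ) R, φ (star z) = - φ z) (hb : ∀ z ∈ sphere (0 : ℂ) R, |φ z| ≤ M) :
    ∃ (f : ℂ → ℝ) (b : ℝ), ContDiff ℝ 2 f ∧ (∀ z, Δ f z = 0) ∧ (∀ z : ℂ, z.im = 0 → f z = 0) ∧ (∀ z ∈ sphere (0 : ℂ) R, |f z - φ z| ≤ ε) ∧
      |b| ≤ 8 * (M + ε) / R ∧ ∀ z ∈ closedBall (0 : ℂ) (R / 2), |f z - b * z.im| ≤ 16 * (M + ε) * ‖z‖ ^ 2 / R ^ 2 := by
  obtain ⟨f, hf, hfφ⟩ := ehb_approx hR hε hφ hodd
  obtain ⟨h1, h2, h3⟩ := ehb_smooth hf
  obtain ⟨N, c, hc⟩ := ehb_rep hf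
  have hB : ∀ z ∈ sphere (0 : ℂ) R, |∑ k ∈ Finset.range (N + 1), c k * (z ^ (k + 1)).im| ≤ M + ε := by
    intro z hz
    rw [← hc]
    have h4 := hfφ z hz
    have h5 := hb z hz
    calc |f z| = |φ z + (f z - φ z)| := by rw [add_sub_cancel]
      _ ≤ |φ z| + |f z - φ z| := abs_add_le _ _
      _ ≤ M + ε := by linarith
  have hMε : 0 < M + ε := by linarith
  refine ⟨f, c 0, h1, h2, h3, hfφ, ?_, fun z hz => ?_⟩
  · have h4 := ehb_coeff hR hB (k := 0) (by simp)
    rw [le_div_iff₀ hR]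
    simp only [zero_add, pow_one] at h4
    linarith
  · rw [mem_closedBall_zero_iff] at hz
    rw [hc, Finset.sum_range_succ', zero_add, pow_one, add_sub_cancel_right]
    have hzR : ‖z‖ / R ≤ 1 / 2 := by
      rw [div_le_iff₀ hR]
      linarith
    have hzR0 : 0 ≤ ‖z‖ / R := by positivity
    have h4 : ∀ k ∈ Finset.range N, |c (k + 1) * (z ^ (k + 1 + 1)).im| ≤ 2 * (M + ε) * (‖z‖ / R) ^ 2 * (1 / 2) ^ k := by
      intro k hk
      have h5 := ehb_coeff hR hB (k := k + 1) (by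
        rw [Finset.mem_range] at hk ⊢
        omega)
      have h6 : |(z ^ (k + 1 + 1)).im| ≤ ‖z‖ ^ (k + 1 + 1) := (Complex.abs_im_le_norm _).trans (norm_pow _ _).le
      rw [abs_mul]
      calc |c (k + 1)| * |(z ^ (k + 1 + 1)).im| ≤ |c (k + 1)| * ‖z‖ ^ (k + 1 + 1) := mul_le_mul_of_nonneg_left h6 (abs_nonneg _)
        _ = (|c (k + 1)| * R ^ (k + 1 + 1)) * (‖z‖ / R) ^ (k + 1 + 1) := by
            rw [div_pow, mul_assoc, mul_div_cancel₀ _ (by positivity)]
        _ ≤ (2 * (M + ε)) * (‖z‖ / R) ^ (k + 1 + 1) := mul_le_mul_of_nonneg_right h5 (by positivity)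
        _ = 2 * (M + ε) * (‖z‖ / R) ^ 2 * (‖z‖ / R) ^ k := by ring
        _ ≤ 2 * (M + ε) * (‖z‖ / R) ^ 2 * (1 / 2) ^ k := by
            refine mul_le_mul_of_nonneg_left (pow_le_pow_left₀ hzR0 hzR k) (by positivity)
    calc |∑ k ∈ Finset.range N, c (k + 1) * (z ^ (k + 1 + 1)).im| ≤ ∑ k ∈ Finset.range N, |c (k + 1) * (z ^ (k + 1 + 1)).im| := Finset.abs_sum_le_sum_abs _ _
      _ ≤ ∑ k ∈ Finset.range N, 2 * (M + ε) * (‖z‖ / R) ^ 2 * (1 / 2) ^ k := Finset.sum_le_sum h4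
      _ = 2 * (M + ε) * (‖z‖ / R) ^ 2 * ∑ k ∈ Finset.range N, (1 / 2 : ℝ) ^ k := by rw [Finset.mul_sum]
      _ ≤ 2 * (M + ε) * (‖z‖ / R) ^ 2 * 2 := mul_le_mul_of_nonneg_left (sum_geometric_two_le N) (by positivity)
      _ ≤ 16 * (M + ε) * ‖z‖ ^ 2 / R ^ 2 := by
          have h5 : 16 * (M + ε) * ‖z‖ ^ 2 / R ^ 2 = 16 * (M + ε) * (‖z‖ / R) ^ 2 := by
            rw [div_pow]
            ring
          rw [h5]
          nlinarith [mul_nonneg hMε.le (sq_nonneg (‖z‖ / R))]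

end Pool.Agent.SR3.BE

end
end

section

/-!
# SR3 EHalfA: linear bound in a half disc
-/

set_option autoImplicit false

open Topology Filter Metric Complex InnerProductSpace Laplacian

noncomputable section

namespace Pool.Agent.SR3.BE

/-- the height is the real part of an affine function -/
theorem ht_lap (u a z : ℂ) : Δ (fun z => ht u a z) z = 0 := by
  have h1 : AnalyticAt ℂ (fun z : ℂ => star u * (z - a)) z := by fun_prop
  have h2 : HarmonicAt (fun z => ((fun z : ℂ => star u * (z - a)) z).re) z := h1.harmonicAt_re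
  exact h2.2.self_of_nhds

theorem ht_contDiff (u a : ℂ) : ContDiff ℝ 2 (fun z => ht u a z) := by
  unfold ht
  have h1 : ContDiff ℝ 2 (fun z : ℂ => star u * (z - a)) := by fun_prop
  exact reCLM.contDiff.comp h1

theorem ht_continuous (u a : ℂ) : Continuous (fun z => ht u a z) := (ht_contDiff u a).continuous

theorem ht_fderiv (u a z v : ℂ) : fderiv ℝ (fun z => ht u a z) z v = (star u * v).re := by
  have h1 : HasDerivAt (fun z : ℂ => star u * (z - a)) (star u * 1) z := ((hasDerivAt_id z).sub_const a).const_mul (star u)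
  have h2 : HasFDerivAt (fun z => ht u a z) (reCLM.comp ((ContinuousLinearMap.toSpanSingleton ℂ (star u * 1)).restrictScalars ℝ)) z :=
    reCLM.hasFDerivAt.comp z (h1.hasFDerivAt.restrictScalars ℝ)
  rw [h2.fderiv]
  simp [mul_comm]

theorem ht_gg {u : ℂ} (hu : ‖u‖ = 1) (a z : ℂ) : H30M.gg (fun z => ht u a z) (fun z => ht u a z) z = 1 := by
  unfold H30M.gg
  rw [ht_fderiv, ht_fderiv]
  have h1 : Complex.normSq u = 1 := by rw [Complex.normSq_eq_norm_sq, hu]; norm_num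
  rw [Complex.normSq_apply] at h1
  have e1 : (star u * 1).re = u.re := by simp
  have e2 : (star u * I).re = u.im := by
    have : star u = (starRingEnd ℂ) u := rfl
    rw [this]
    simp [Complex.mul_re]
  rw [e1, e2]
  linarith

/-- the logarithm of the height -/
theorem log_ht {u a z : ℂ} (hu : ‖u‖ = 1) (hz : 0 < ht u a z) :
    ContDiffAt ℝ 2 (fun z => Real.log (ht u a z)) z ∧ Δ (fun z => Real.log (ht u a z)) z = -(1 / ht u a z ^ 2) := by
  have h1 : ContDiffAt ℝ 2 Real.log (ht u a z) := Real.contDiffAt_log.2 hz.ne'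
  have h2 : ContDiffAt ℝ 2 (fun z => ht u a z) z := (ht_contDiff u a).contDiffAt
  refine ⟨h1.comp z h2, ?_⟩
  rw [H30M.lap_comp h1 h2, ht_lap, ht_gg hu, mul_zero, zero_add, mul_one]
  have h3 : deriv Real.log =ᶠ[𝓝 (ht u a z)] fun y => y⁻¹ := by
    filter_upwards with y
    exact Real.deriv_log y
  rw [h3.deriv_eq, deriv_inv]
  simp

theorem half_lin_one {w : ℂ → ℝ} {u a : ℂ} {R h A m M : ℝ} (hu : ‖u‖ = 1) (hR : 0 < R) (hh : 0 < h) (hA : 0 ≤ A) (hm : 0 ≤ m) (hM : 0 ≤ M)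
    (hc : ∀ z ∈ closedBall a R, h ≤ ht u a z → ContDiffAt ℝ 2 w z)
    (hl : ∀ z ∈ closedBall a R, h ≤ ht u a z → |Δ w z| ≤ A / ht u a z ^ 2)
    (hb : ∀ z ∈ closedBall a R, ht u a z = h → |w z| ≤ m) (hM' : ∀ z ∈ closedBall a R, h ≤ ht u a z → |w z| ≤ M)
    {z₀ : ℂ} (hz₀ : z₀ ∈ closedBall a (R / 2)) (hy₀ : h ≤ ht u a z₀) {ε : ℝ} (hε : 0 < ε) :
    w z₀ ≤ m + 2 * (A + ε) * Real.log (ht u a z₀ / h) + 4 * M * ht u a z₀ / R := by
  set y₀ : ℝ := ht u a z₀ with hy₀d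
  have hy₀p : 0 < y₀ := hh.trans_le hy₀
  have huu : star u * u = 1 := by
    show (starRingEnd ℂ) u * u = 1
    rw [← Complex.normSq_eq_conj_mul_self, Complex.normSq_eq_norm_sq, hu]
    norm_num
  set p : ℂ := z₀ - y₀ * u with hp
  have hpa : (star u * (p - a)).re = 0 := by
    have : star u * (p - a) = star u * (z₀ - a) - y₀ * (star u * u) := by rw [hp]; ring
    rw [this, huu, mul_one, Complex.sub_re, Complex.ofReal_re]
    show ht u a z₀ - y₀ = 0
    rw [hy₀d, sub_self]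
  -- the height with respect to `p`
  have hht : ∀ z, ht u a z = (star u * (z - p)).re := by
    intro z
    have : star u * (z - p) = star u * (z - a) - star u * (p - a) := by ring
    rw [this, Complex.sub_re, hpa, sub_zero]
    rfl
  have hpR : ‖p - a‖ ≤ R / 2 := by
    have h1 : ‖star u * (p - a)‖ ≤ ‖star u * (z₀ - a)‖ := by
      have e : star u * (p - a) = star u * (z₀ - a) - y₀ := by
        have : star u * (p - a) = star u * (z₀ - a) - y₀ * (star u * u) := by rw [hp]; ring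
        rw [this, huu, mul_one]
      have e1 : (star u * (p - a)).im = (star u * (z₀ - a)).im := by rw [e]; simp
      rw [Complex.norm_eq_sqrt_sq_add_sq, Complex.norm_eq_sqrt_sq_add_sq, hpa, e1]
      apply Real.sqrt_le_sqrt
      nlinarith [sq_nonneg (star u * (z₀ - a)).re]
    rw [norm_mul, norm_mul, norm_star, hu, one_mul, one_mul] at h1
    exact h1.trans (by rw [← dist_eq_norm]; exact hz₀)
  set K : Set ℂ := closedBall p (R / 2) ∩ {z | h ≤ ht u a z} with hK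
  have hKsub : ∀ z ∈ K, z ∈ closedBall a R := by
    intro z hz
    rw [mem_closedBall, dist_eq_norm]
    have h1 : ‖z - p‖ ≤ R / 2 := by rw [← dist_eq_norm]; exact hz.1
    calc ‖z - a‖ = ‖(z - p) + (p - a)‖ := by ring_nf
      _ ≤ ‖z - p‖ + ‖p - a‖ := norm_add_le _ _
      _ ≤ R := by linarith
  have hKc : IsCompact K := (isCompact_closedBall p (R / 2)).inter_right (isClosed_le continuous_const (ht_continuous u a))
  -- the barrier
  set g : ℂ → ℂ := fun z => -(star u * (z - p)) ^ 2 + R * (star u * (z - p)) with hg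
  have hgan : ∀ z, AnalyticAt ℂ g z := fun z => by rw [hg]; fun_prop
  have hgre : ∀ z, (g z).re = (star u * (z - p)).im ^ 2 - ht u a z ^ 2 + R * ht u a z := by
    intro z
    rw [hg, hht z]
    simp only [Complex.add_re, Complex.neg_re, Complex.re_ofReal_mul]
    rw [sq, Complex.mul_re]
    ring
  set f : ℂ → ℝ := fun z => w z - ((m + 2 * (A + ε) * (Real.log (ht u a z) - Real.log h)) + (M * (4 / R ^ 2)) * (g z).re) with hf
  have hgc : ∀ z, ContDiffAt ℝ 2 (fun z => (g z).re) z := fun z => (hgan z).harmonicAt_re.1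
  have hglap : ∀ z, Δ (fun z => (g z).re) z = 0 := fun z => (hgan z).harmonicAt_re.2.self_of_nhds
  have hcd : ∀ z ∈ K, ContDiffAt ℝ 2 f z ∧ Δ f z = Δ w z + 2 * (A + ε) / ht u a z ^ 2 := by
    intro z hz
    have hzp : 0 < ht u a z := hh.trans_le hz.2
    obtain ⟨h1, h2⟩ := log_ht hu hzp
    have h3 := hc z (hKsub z hz) hz.2
    have h4 : ContDiffAt ℝ 2 (fun z => Real.log (ht u a z) - Real.log h) z := h1.sub contDiffAt_const
    have h5 : ContDiffAt ℝ 2 (fun z => 2 * (A + ε) * (Real.log (ht u a z) - Real.log h)) z := contDiffAt_const.mul h4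
    have h6 : ContDiffAt ℝ 2 (fun z => m + 2 * (A + ε) * (Real.log (ht u a z) - Real.log h)) z := contDiffAt_const.add h5
    have h7 : ContDiffAt ℝ 2 (fun z => (M * (4 / R ^ 2)) * (g z).re) z := contDiffAt_const.mul (hgc z)
    have hlc : ∀ c : ℝ, Δ (fun _ : ℂ => c) z = 0 := fun c =>
      (harmonicAt_const c (x := z)).2.self_of_nhds
    refine ⟨h3.sub (h6.add h7), ?_⟩
    rw [hf, H30M.lap_sub h3 (h6.add h7), H30M.lap_add h6 h7, H30M.lap_add contDiffAt_const h5, H30M.lap_const_mul h4,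
      H30M.lap_sub h1 contDiffAt_const, H30M.lap_const_mul (hgc z), hglap, h2, hlc, hlc]
    field_simp
    ring
  have key := weak_max hKc (f := f) (fun z hz => (hcd z hz).1.continuousAt.continuousWithinAt) (by
      intro z hz _
      have hzK : z ∈ K := interior_subset hz
      obtain ⟨h1, h2⟩ := hcd z hzK
      refine ⟨h1, ?_⟩
      rw [h2]
      have hzp : 0 < ht u a z := hh.trans_le hzK.2
      have h3 := hl z (hKsub z hzK) hzK.2
      have h4 := neg_le_of_abs_le h3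
      have h5 : 0 < ε / ht u a z ^ 2 := by positivity
      have h6 : 0 ≤ A / ht u a z ^ 2 := by positivity
      have h7 : 2 * (A + ε) / ht u a z ^ 2 = 2 * (A / ht u a z ^ 2) + 2 * (ε / ht u a z ^ 2) := by ring
      rw [h7]
      linarith) (by
      intro z hzK hzI
      have hzp : 0 < ht u a z := hh.trans_le hzK.2
      have hlog : 0 ≤ Real.log (ht u a z) - Real.log h := sub_nonneg.2 (Real.log_le_log hh hzK.2)
      have hn : ‖star u * (z - p)‖ ≤ R / 2 := by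
        rw [norm_mul, norm_star, hu, one_mul, ← dist_eq_norm]
        exact hzK.1
      have hre : ht u a z ≤ R / 2 := by
        rw [hht z]
        exact (Complex.re_le_norm _).trans hn
      have hgnn : 0 ≤ (g z).re := by
        rw [hgre z]
        nlinarith [sq_nonneg (star u * (z - p)).im]
      have hlog2 : 0 ≤ 2 * (A + ε) * (Real.log (ht u a z) - Real.log h) := by positivity
      show w z - _ ≤ 0
      by_cases h1 : ht u a z = h
      · have h2 := le_of_abs_le (hb z (hKsub z hzK) h1)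
        have : 0 ≤ (M * (4 / R ^ 2)) * (g z).re := by positivity
        linarith
      · -- `‖z - p‖ = R / 2`
        have h2 : dist z p = R / 2 := by
          by_contra h3
          apply hzI
          have h4 : dist z p < R / 2 := lt_of_le_of_ne hzK.1 h3
          have h5 : h < ht u a z := lt_of_le_of_ne hzK.2 (Ne.symm h1)
          rw [mem_interior]
          refine ⟨ball p (R / 2) ∩ {z | h < ht u a z}, fun w hw => ⟨ball_subset_closedBall hw.1, (show h < ht u a w from hw.2).le⟩,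
            isOpen_ball.inter (isOpen_lt continuous_const (ht_continuous u a)), h4, h5⟩
        have h6 : (star u * (z - p)).im ^ 2 + ht u a z ^ 2 = (R / 2) ^ 2 := by
          rw [← h2, dist_eq_norm]
          have h7 : ‖z - p‖ = ‖star u * (z - p)‖ := by rw [norm_mul, norm_star, hu, one_mul]
          rw [h7, hht z, ← Complex.normSq_eq_norm_sq, Complex.normSq_apply]
          ring
        have h8 : 1 ≤ (4 / R ^ 2) * (g z).re := by
          rw [hgre z, div_mul_eq_mul_div, le_div_iff₀ (by positivity)]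
          nlinarith
        have h9 := le_of_abs_le (hM' z (hKsub z hzK) hzK.2)
        have h10 : M * 1 ≤ M * ((4 / R ^ 2) * (g z).re) := mul_le_mul_of_nonneg_left h8 hM
        rw [← mul_assoc] at h10
        linarith)
  have hz₀K : z₀ ∈ K ∨ R / 2 < y₀ := by
    by_cases h1 : y₀ ≤ R / 2
    · left
      refine ⟨?_, hy₀⟩
      rw [mem_closedBall, dist_eq_norm]
      have : z₀ - p = y₀ * u := by rw [hp]; ring
      rw [this, norm_mul, hu, mul_one, Complex.norm_real, Real.norm_of_nonneg hy₀p.le]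
      exact h1
    · exact Or.inr (not_le.1 h1)
  have hlog : 0 ≤ Real.log (y₀ / h) := Real.log_nonneg (by rw [le_div_iff₀ hh]; linarith)
  rcases hz₀K with h1 | h1
  · have h2 := key z₀ h1
    have h3 : (g z₀).re = -y₀ ^ 2 + R * y₀ := by
      have : star u * (z₀ - p) = y₀ := by
        have : z₀ - p = y₀ * u := by rw [hp]; ring
        rw [this, mul_comm (y₀ : ℂ), ← mul_assoc, huu, one_mul]
      rw [hgre z₀, this]
      simp only [Complex.ofReal_im]
      rw [← hy₀d]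
      ring
    have h4 : f z₀ = w z₀ - ((m + 2 * (A + ε) * (Real.log y₀ - Real.log h)) + (M * (4 / R ^ 2)) * (-y₀ ^ 2 + R * y₀)) := by
      rw [hf]
      simp only [h3]
      rw [← hy₀d]
    rw [h4] at h2
    rw [Real.log_div hy₀p.ne' hh.ne']
    have h5 : (M * (4 / R ^ 2)) * (-y₀ ^ 2 + R * y₀) ≤ 4 * M * y₀ / R := by
      have h6 : (M * (4 / R ^ 2)) * (-y₀ ^ 2 + R * y₀) = 4 * M * y₀ / R - (M * (4 / R ^ 2)) * y₀ ^ 2 := by
        field_simp
        ring
      rw [h6]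
      have : 0 ≤ (M * (4 / R ^ 2)) * y₀ ^ 2 := by positivity
      linarith
    linarith
  · -- trivial case
    have hz₀R : z₀ ∈ closedBall a R := closedBall_subset_closedBall (by linarith) hz₀
    have h2 := le_of_abs_le (hM' z₀ hz₀R hy₀)
    have h3 : M ≤ 4 * M * y₀ / R := by
      rw [le_div_iff₀ hR]
      nlinarith
    have h4 : 0 ≤ 2 * (A + ε) * Real.log (y₀ / h) := by positivity
    linarith

/-- MODULE HalfA.  Barrier `m + 2 A log (y / h) + M b`, `b z = ((x - x₀)² - y² + R y) / (R / 2)²` on the half disc of radius `R / 2` about the foot `x₀`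
of `z`. -/
theorem half_lin {w : ℂ → ℝ} {u a : ℂ} {R h A m M : ℝ} (hu : ‖u‖ = 1) (hR : 0 < R) (hh : 0 < h) (hA : 0 ≤ A) (hm : 0 ≤ m) (hM : 0 ≤ M)
    (hc : ∀ z ∈ closedBall a R, h ≤ ht u a z → ContDiffAt ℝ 2 w z)
    (hl : ∀ z ∈ closedBall a R, h ≤ ht u a z → |Δ w z| ≤ A / ht u a z ^ 2)
    (hb : ∀ z ∈ closedBall a R, ht u a z = h → |w z| ≤ m) (hM' : ∀ z ∈ closedBall a R, h ≤ ht u a z → |w z| ≤ M) :
    ∀ z ∈ closedBall a (R / 2), h ≤ ht u a z → |w z| ≤ m + 2 * A * Real.log (ht u a z / h) + 4 * M * ht u a z / R := by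
  intro z hz hy
  have hlog : 0 ≤ Real.log (ht u a z / h) := Real.log_nonneg (by rw [le_div_iff₀ hh]; linarith)
  -- let `ε → 0`
  have lim : ∀ v : ℂ → ℝ, (∀ ε : ℝ, 0 < ε → v z ≤ m + 2 * (A + ε) * Real.log (ht u a z / h) + 4 * M * ht u a z / R) →
      v z ≤ m + 2 * A * Real.log (ht u a z / h) + 4 * M * ht u a z / R := by
    intro v hv
    refine le_of_forall_pos_le_add fun δ hδ => ?_
    have h1 := hv (δ / (2 * (Real.log (ht u a z / h) + 1))) (by positivity)
    have h2 : 2 * (A + δ / (2 * (Real.log (ht u a z / h) + 1))) * Real.log (ht u a z / h) ≤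
        2 * A * Real.log (ht u a z / h) + δ := by
      have h3 : 2 * (δ / (2 * (Real.log (ht u a z / h) + 1))) * Real.log (ht u a z / h) ≤ δ := by
        rw [mul_div_assoc', mul_div_mul_left _ _ two_ne_zero, div_mul_eq_mul_div, div_le_iff₀ (by positivity)]
        nlinarith
      linarith
    linarith
  rw [abs_le]
  constructor
  · have h1 := lim (fun z => -w z) fun ε hε => half_lin_one (w := fun z => -w z) hu hR hh hA hm hM (fun z hz hz' => (hc z hz hz').neg)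
      (fun z hz hz' => by
        have h2 : Δ (fun z => -w z) z = -Δ w z := by
          have h3 := H30M.lap_const_mul (hc z hz hz') (-1)
          simpa using h3
        rw [h2, abs_neg]
        exact hl z hz hz')
      (fun z hz hz' => by rw [abs_neg]; exact hb z hz hz') (fun z hz hz' => by rw [abs_neg]; exact hM' z hz hz') hz hy hε
    linarith
  · exact lim w fun ε hε => half_lin_one hu hR hh hA hm hM hc hl hb hM' hz hy hε

end Pool.Agent.SR3.BE

end
end

section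

/-!
# SR3 EHalf: the half disc lemma
-/

set_option autoImplicit false

open Topology Filter Metric Complex InnerProductSpace Laplacian

noncomputable section

namespace Pool.Agent.SR3.BE

/-- maximum principle, not strict -/
theorem weak_max0 {K : Set ℂ} (hK : IsCompact K) {f : ℂ → ℝ} (hf : ContinuousOn f K)
    (hin : ∀ z ∈ interior K, ContDiffAt ℝ 2 f z ∧ 0 ≤ Δ f z) (hb : ∀ z ∈ K, z ∉ interior K → f z ≤ 0) : ∀ z ∈ K, f z ≤ 0 := by
  have hcont : Continuous fun z : ℂ => ht 1 0 z * ht 1 0 z := (ht_continuous 1 0).mul (ht_continuous 1 0)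
  obtain ⟨B, hB⟩ := hK.bddAbove_image (f := fun z : ℂ => ht 1 0 z * ht 1 0 z) hcont.continuousOn
  have hB' : ∀ z ∈ K, ht 1 0 z * ht 1 0 z ≤ B := fun z hz => hB ⟨z, hz, rfl⟩
  have key : ∀ δ : ℝ, 0 < δ → ∀ z ∈ K, f z + δ * (ht 1 0 z * ht 1 0 z - B) ≤ 0 := by
    intro δ hδ
    refine weak_max hK (hf.add (continuous_const.mul (hcont.sub continuous_const)).continuousOn) ?_ ?_
    · intro z hz _
      obtain ⟨h1, h2⟩ := hin z hz
      have h3 : ContDiffAt ℝ 2 (fun z => ht 1 0 z) z := (ht_contDiff 1 0).contDiffAt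
      have h4 : ContDiffAt ℝ 2 (fun z => ht 1 0 z * ht 1 0 z) z := h3.mul h3
      have h5 : ContDiffAt ℝ 2 (fun z => ht 1 0 z * ht 1 0 z - B) z := h4.sub contDiffAt_const
      have h6 : ContDiffAt ℝ 2 (fun z => δ * (ht 1 0 z * ht 1 0 z - B)) z := contDiffAt_const.mul h5
      refine ⟨h1.add h6, ?_⟩
      rw [H30M.lap_add h1 h6, H30M.lap_const_mul h5, H30M.lap_sub h4 contDiffAt_const, H30M.lap_mul h3 h3, ht_lap, ht_gg (by simp),
        (harmonicAt_const B (x := z)).2.self_of_nhds]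
      simp only [mul_zero, zero_add, mul_one, Pi.zero_apply, sub_zero]
      linarith
    · intro z hz hz'
      have h1 := hb z hz hz'
      have h2 := hB' z hz
      nlinarith
  intro z hz
  have hB0 : 0 ≤ B := (mul_self_nonneg _).trans (hB' z hz)
  refine le_of_forall_pos_le_add fun ε hε => ?_
  have h1 := key (ε / (B + 1)) (by positivity) z hz
  have h2 : ε / (B + 1) * B ≤ ε := by
    rw [div_mul_eq_mul_div, div_le_iff₀ (by positivity)]
    nlinarith
  have h3 : 0 ≤ ε / (B + 1) * (ht 1 0 z * ht 1 0 z) := by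
    have := mul_self_nonneg (ht 1 0 z)
    positivity
  linarith

/-- the half disc -/
def HD (u a : ℂ) (r c : ℝ) : Set ℂ := closedBall a r ∩ {z | c ≤ ht u a z}

theorem HD_compact (u a : ℂ) (r c : ℝ) : IsCompact (HD u a r c) :=
  (isCompact_closedBall a r).inter_right (isClosed_le continuous_const (ht_continuous u a))

theorem HD_bdry {u a z : ℂ} {r c : ℝ} (hz : z ∈ HD u a r c) (hz' : z ∉ interior (HD u a r c)) : dist z a = r ∨ ht u a z = c := by
  by_contra hcon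
  rw [not_or] at hcon
  apply hz'
  have h4 : dist z a < r := lt_of_le_of_ne hz.1 hcon.1
  have h5 : c < ht u a z := lt_of_le_of_ne hz.2 (Ne.symm hcon.2)
  rw [mem_interior]
  exact ⟨ball a r ∩ {z | c < ht u a z}, fun w hw => ⟨ball_subset_closedBall hw.1, (show c < ht u a w from hw.2).le⟩,
    isOpen_ball.inter (isOpen_lt continuous_const (ht_continuous u a)), h4, h5⟩

/-- soft threshold -/
def soft (m t : ℝ) : ℝ := t - max (-m) (min t m)

theorem soft_continuous (m : ℝ) : Continuous (soft m) := by unfold soft; fun_prop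

theorem soft_zero {m t : ℝ} (h : |t| ≤ m) : soft m t = 0 := by
  unfold soft
  have h1 := abs_le.1 h
  rw [min_eq_left h1.2, max_eq_right h1.1, sub_self]

theorem abs_soft_sub {m t : ℝ} (hm : 0 ≤ m) : |t - soft m t| ≤ m := by
  unfold soft
  rw [sub_sub_cancel, abs_le]
  exact ⟨le_max_left _ _, max_le (by linarith) (min_le_right _ _)⟩

theorem abs_soft_le {m t s : ℝ} (hm : 0 ≤ m) (hs : 0 ≤ s) (h : |t| ≤ m + s) : |soft m t| ≤ s := by
  unfold soft
  have h1 := abs_le.1 h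
  rw [abs_le]
  rcases le_total t m with h2 | h2
  · rw [min_eq_left h2]
    rcases le_total (-m) t with h3 | h3
    · rw [max_eq_right h3]
      constructor <;> linarith
    · rw [max_eq_left h3]
      constructor <;> linarith
  · rw [min_eq_right h2, max_eq_right (by linarith)]
    constructor <;> linarith

private theorem half_disc_core {w : ℂ → ℝ} {u a : ℂ} {R h A m M K : ℝ} (hu : ‖u‖ = 1) (hR : 0 < R) (hh : 0 < h) (hhR : h ≤ R / 8) (hA : 0 ≤ A) (hm : 0 ≤ m)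
    (hM : 0 < M) (hK : 4 ≤ K) (hc : ∀ z ∈ closedBall a R, h ≤ ht u a z → ContDiffAt ℝ 2 w z)
    (hl : ∀ z ∈ closedBall a R, h ≤ ht u a z → |Δ w z| ≤ A / ht u a z ^ 2)
    (hb : ∀ z ∈ closedBall a R, ht u a z = h → |w z| ≤ m) (hM' : ∀ z ∈ closedBall a R, h ≤ ht u a z → |w z| ≤ M)
    (hlin : ∀ z ∈ closedBall a (R / 2), h ≤ ht u a z → |w z| ≤ m + 2 * A * Real.log (ht u a z / h) + 4 * M * ht u a z / R)
    (hodd0 : ∀ {φ : ℂ → ℝ} {R M ε : ℝ}, 0 < R → 0 ≤ M → 0 < ε → ContinuousOn φ (sphere 0 R) →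
      (∀ z ∈ sphere (0 : ℂ) R, φ (star z) = - φ z) → (∀ z ∈ sphere (0 : ℂ) R, |φ z| ≤ M) →
      ∃ (f : ℂ → ℝ) (b : ℝ), ContDiff ℝ 2 f ∧ (∀ z, Δ f z = 0) ∧ (∀ z : ℂ, z.im = 0 → f z = 0) ∧ (∀ z ∈ sphere (0 : ℂ) R, |f z - φ z| ≤ ε) ∧
        |b| ≤ 8 * (M + ε) / R ∧ ∀ z ∈ closedBall (0 : ℂ) (R / 2), |f z - b * z.im| ≤ 16 * (M + ε) * ‖z‖ ^ 2 / R ^ 2) :
    ∃ b : ℝ, |b| ≤ 72 * M / R ∧ ∀ z ∈ closedBall a (R / K), h ≤ ht u a z →
      |w z - b * ht u a z| ≤ 72 * (m + M * h / R + A * (1 + Real.log (R / h)) + M / K ^ 2) := by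
  have huu : star u * u = 1 := by
    show (starRingEnd ℂ) u * u = 1
    rw [← Complex.normSq_eq_conj_mul_self, Complex.normSq_eq_norm_sq, hu]
    norm_num
  have hLR : 0 ≤ Real.log (R / h) := Real.log_nonneg (by rw [le_div_iff₀ hh]; linarith)
  -- coordinates
  set ψ : ℂ → ℂ := fun ζ => a - I * u * ζ with hψ
  have hψh : ∀ ζ, ht u a (ψ ζ) = ζ.im := by
    intro ζ
    show (star u * (a - I * u * ζ - a)).re = ζ.im
    have : star u * (a - I * u * ζ - a) = -(I * ζ) * (star u * u) := by ring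
    rw [this, huu, mul_one]
    simp
  have hψd : ∀ ζ, dist (ψ ζ) a = ‖ζ‖ := by
    intro ζ
    rw [dist_eq_norm]
    have : ψ ζ - a = -(I * u * ζ) := by rw [hψ]; ring
    rw [this, norm_neg, norm_mul, norm_mul, Complex.norm_I, hu, one_mul, one_mul]
  set χ : ℂ → ℂ := fun z => I * (star u * (z - a)) with hχ
  have hχi : ∀ z, (χ z).im = ht u a z := by
    intro z
    show (I * (star u * (z - a))).im = (star u * (z - a)).re
    simp
  have hχn : ∀ z, ‖χ z‖ = dist z a := by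
    intro z
    rw [hχ, dist_eq_norm]
    simp only [norm_mul, Complex.norm_I, one_mul, norm_star, hu]
  have hψχ : ∀ z, ψ (χ z) = z := by
    intro z
    show a - I * u * (I * (star u * (z - a))) = z
    have : a - I * u * (I * (star u * (z - a))) = a - (I * I) * (star u * u) * (z - a) := by ring
    rw [this, huu, Complex.I_mul_I]
    ring
  -- the retraction
  set r : ℂ → ℂ := fun ζ => ζ.re + (max ζ.im h : ℝ) * I with hr
  have hri : ∀ ζ, (r ζ).im = max ζ.im h := fun ζ => by rw [hr]; simp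
  have hrr : ∀ ζ, (r ζ).re = ζ.re := fun ζ => by rw [hr]; simp
  have hrn : ∀ ζ : ℂ, ‖ζ‖ ≤ R / 2 → ‖r ζ‖ ≤ R := by
    intro ζ hζ
    have h1 : ζ.re ^ 2 + ζ.im ^ 2 ≤ (R / 2) ^ 2 := by
      have : ζ.re ^ 2 + ζ.im ^ 2 = ‖ζ‖ ^ 2 := by rw [← Complex.normSq_eq_norm_sq, Complex.normSq_apply]; ring
      rw [this]
      exact pow_le_pow_left₀ (norm_nonneg _) hζ 2
    have h2 : (max ζ.im h) ^ 2 ≤ (R / 2) ^ 2 := by
      rcases max_choice ζ.im h with h3 | h3
      · rw [h3]; nlinarith [sq_nonneg ζ.re]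
      · rw [h3]; exact pow_le_pow_left₀ hh.le (by linarith) 2
    have h3 : ‖r ζ‖ ^ 2 ≤ R ^ 2 := by
      rw [← Complex.normSq_eq_norm_sq, Complex.normSq_apply, hri, hrr]
      nlinarith [sq_nonneg ζ.im]
    exact (pow_le_pow_iff_left₀ (norm_nonneg _) hR.le two_ne_zero).1 h3
  have hrmem : ∀ ζ : ℂ, ‖ζ‖ ≤ R / 2 → ψ (r ζ) ∈ closedBall a R ∧ h ≤ ht u a (ψ (r ζ)) := by
    intro ζ hζ
    refine ⟨?_, ?_⟩
    · rw [mem_closedBall, hψd]
      exact hrn ζ hζ
    · rw [hψh, hri]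
      exact le_max_right _ _
  have hrid : ∀ ζ : ℂ, h ≤ ζ.im → r ζ = ζ := by
    intro ζ hζ
    apply Complex.ext
    · exact hrr ζ
    · rw [hri, max_eq_left hζ]
  -- the threshold
  set m₂ : ℝ := m + 2 * A * Real.log (R / h) + 4 * M * h / R with hm₂
  have hm₂0 : 0 ≤ m₂ := by positivity
  have hmm₂ : m ≤ m₂ := by
    have h1 : 0 ≤ 2 * A * Real.log (R / h) := by positivity
    have h2 : 0 ≤ 4 * M * h / R := by positivity
    linarith
  set T : ℂ → ℝ := fun ζ => soft m₂ (w (ψ (r ζ))) with hT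
  have hT0 : ∀ ζ : ℂ, ‖ζ‖ ≤ R / 2 → ζ.im ≤ h → T ζ = 0 := by
    intro ζ hζ hi
    apply soft_zero
    refine (hb _ (hrmem ζ hζ).1 ?_).trans hmm₂
    rw [hψh, hri, max_eq_right hi]
  have hTc : ContinuousOn T (closedBall 0 (R / 2)) := by
    apply (soft_continuous m₂).comp_continuousOn
    have h1 : Continuous fun ζ => ψ (r ζ) := by rw [hψ, hr]; fun_prop
    intro ζ hζ
    have hζ' : ‖ζ‖ ≤ R / 2 := by rw [mem_closedBall, dist_zero_right] at hζ; exact hζ
    have h2 : ContinuousAt w (ψ (r ζ)) := (hc _ (hrmem ζ hζ').1 (hrmem ζ hζ').2).continuousAt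
    exact (ContinuousAt.comp (g := w) (f := fun ζ => ψ (r ζ)) h2 h1.continuousAt).continuousWithinAt
  have hTM : ∀ ζ : ℂ, ‖ζ‖ ≤ R / 2 → |T ζ| ≤ M := by
    intro ζ hζ
    apply abs_soft_le hm₂0 hM.le
    have := hM' _ (hrmem ζ hζ).1 (hrmem ζ hζ).2
    linarith
  have hTlin : ∀ ζ : ℂ, ‖ζ‖ ≤ R / 2 → h ≤ ζ.im → |T ζ| ≤ 4 * M / R * ζ.im := by
    intro ζ hζ hi
    have hpos : 0 < ζ.im := hh.trans_le hi
    rw [hT]
    simp only [hrid ζ hi]
    apply abs_soft_le hm₂0 (by positivity)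
    have h1 := hlin (ψ ζ) (by rw [mem_closedBall, hψd]; exact hζ) (by rw [hψh]; exact hi)
    rw [hψh] at h1
    have h2 : Real.log (ζ.im / h) ≤ Real.log (R / h) := by
      apply Real.log_le_log (by positivity)
      have : ζ.im ≤ R := (le_of_abs_le (Complex.abs_im_le_norm ζ)).trans (by linarith)
      gcongr
    have h3 : 2 * A * Real.log (ζ.im / h) ≤ 2 * A * Real.log (R / h) := mul_le_mul_of_nonneg_left h2 (by positivity)
    have h4 : 0 ≤ 4 * M * h / R := by positivity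
    have h5 : 4 * M * ζ.im / R = 4 * M / R * ζ.im := by ring
    rw [hm₂]
    linarith
  have hstar : ∀ ζ : ℂ, ‖star ζ‖ = ‖ζ‖ := fun ζ => norm_star ζ
  have hsi : ∀ ζ : ℂ, (star ζ).im = -ζ.im := fun ζ => by simp
  set φ : ℂ → ℝ := fun ζ => T ζ - T (star ζ) with hφ
  have hφp : ∀ ζ : ℂ, ‖ζ‖ ≤ R / 2 → 0 ≤ ζ.im → φ ζ = T ζ := by
    intro ζ hζ hi
    rw [hφ]
    simp only
    rw [hT0 (star ζ) (by rw [hstar]; exact hζ) (by rw [hsi]; linarith), sub_zero]
  have hφn : ∀ ζ : ℂ, ‖ζ‖ ≤ R / 2 → ζ.im ≤ 0 → φ ζ = -T (star ζ) := by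
    intro ζ hζ hi
    rw [hφ]
    simp only
    rw [hT0 ζ hζ (by linarith), zero_sub]
  set ε : ℝ := M * h / R with hε
  have hε0 : 0 < ε := by positivity
  have hεM : ε ≤ M / 8 := by
    rw [hε, div_le_iff₀ hR]
    nlinarith
  obtain ⟨f, b, hfc, hfl, hf0, hfφ, hbb, hfb⟩ := hodd0 (φ := φ) (R := R / 2) (M := M) (ε := ε) (by positivity) hM.le hε0 (by
      have h1 : Continuous fun ζ : ℂ => star ζ := continuous_star
      have h2 : ContinuousOn (fun ζ : ℂ => T (star ζ)) (closedBall 0 (R / 2)) := by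
        refine hTc.comp h1.continuousOn fun ζ hζ => ?_
        rw [mem_closedBall, dist_zero_right, hstar]
        rwa [mem_closedBall, dist_zero_right] at hζ
      exact (hTc.sub h2).mono sphere_subset_closedBall) (by
      intro ζ _
      rw [hφ]
      simp only [star_star]
      ring) (by
      intro ζ hζ
      have hζ' : ‖ζ‖ ≤ R / 2 := by rw [mem_sphere, dist_zero_right] at hζ; exact hζ.le
      rcases le_total 0 ζ.im with hi | hi
      · rw [hφp ζ hζ' hi]; exact hTM ζ hζ'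
      · rw [hφn ζ hζ' hi, abs_neg]; exact hTM _ (by rw [hstar]; exact hζ'))
  -- `f` in the original coordinates
  set F : ℂ → ℝ := fun z => f (χ z) with hF
  have hχc : Continuous χ := by rw [hχ]; fun_prop
  have hFh : ∀ z, HarmonicAt F z := by
    intro z
    have h1 : HarmonicOnNhd f (ball (χ z) 1) := fun ζ _ => ⟨hfc.contDiffAt, Eventually.of_forall fun ζ => hfl ζ⟩
    obtain ⟨H, hH, hre⟩ := InnerProductSpace.HarmonicOnNhd.exists_analyticOnNhd_ball_re_eq h1
    have h2 : AnalyticAt ℂ (fun z => H (χ z)) z := by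
      have h3 : AnalyticAt ℂ χ z := by rw [hχ]; fun_prop
      exact AnalyticAt.comp (g := H) (f := χ) (hH (χ z) (mem_ball_self one_pos)) h3
    have h4 : F =ᶠ[𝓝 z] fun z => (H (χ z)).re := by
      have h5 : ∀ᶠ z' in 𝓝 z, χ z' ∈ ball (χ z) 1 := hχc.continuousAt.eventually (ball_mem_nhds _ one_pos)
      filter_upwards [h5] with z' hz'
      exact (hre hz').symm
    exact (harmonicAt_congr_nhds h4).2 h2.harmonicAt_re
  have hFc : ∀ z, ContDiffAt ℝ 2 F z := fun z => (hFh z).1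
  have hFl : ∀ z, Δ F z = 0 := fun z => (hFh z).2.self_of_nhds
  have hlc : ∀ (c : ℝ) (z : ℂ), Δ (fun _ : ℂ => c) z = 0 := fun c z => (harmonicAt_const c (x := z)).2.self_of_nhds
  -- step 1
  have step1 : ∀ s : ℝ, |s| = 1 → ∀ z ∈ HD u a (R / 2) 0, s * F z - (4 * M / R * ht u a z + ε) ≤ 0 := by
    intro s hs
    have c1 : ∀ z, ContDiffAt ℝ 2 (fun z => ht u a z) z := fun z => (ht_contDiff u a).contDiffAt
    have c2 : ∀ z, ContDiffAt ℝ 2 (fun z => 4 * M / R * ht u a z) z := fun z => contDiffAt_const.mul (c1 z)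
    have c3 : ∀ z, ContDiffAt ℝ 2 (fun z => 4 * M / R * ht u a z + ε) z := fun z => (c2 z).add contDiffAt_const
    have c4 : ∀ z, ContDiffAt ℝ 2 (fun z => s * F z) z := fun z => contDiffAt_const.mul (hFc z)
    refine weak_max0 (HD_compact u a _ _) (f := fun z => s * F z - (4 * M / R * ht u a z + ε))
      (fun z _ => ((c4 z).sub (c3 z)).continuousAt.continuousWithinAt) ?_ ?_
    · intro z _
      refine ⟨(c4 z).sub (c3 z), ?_⟩
      rw [H30M.lap_sub (c4 z) (c3 z), H30M.lap_const_mul (hFc z), H30M.lap_add (c2 z) contDiffAt_const, H30M.lap_const_mul (c1 z), hFl, ht_lap, hlc]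
      simp
    · intro z hz hz'
      rcases HD_bdry hz hz' with h1 | h1
      · have hn : ‖χ z‖ = R / 2 := by rw [hχn, h1]
        have h2 := hfφ (χ z) (by rw [mem_sphere, dist_zero_right]; exact hn)
        have hzi : 0 ≤ (χ z).im := by rw [hχi]; exact hz.2
        rw [hφp (χ z) hn.le hzi] at h2
        have h3 : |T (χ z)| ≤ 4 * M / R * ht u a z := by
          rw [← hχi]
          rcases le_total (χ z).im h with h4 | h4
          · rw [hT0 (χ z) hn.le h4, abs_zero]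
            positivity
          · exact hTlin (χ z) hn.le h4
        have h4 : |F z| ≤ 4 * M / R * ht u a z + ε := by
          have : F z = (f (χ z) - T (χ z)) + T (χ z) := by rw [hF]; ring
          rw [this]
          exact (abs_add_le _ _).trans (by linarith)
        have h5 : s * F z ≤ |F z| := by
          calc s * F z ≤ |s * F z| := le_abs_self _
            _ = |F z| := by rw [abs_mul, hs, one_mul]
        linarith
      · have h2 : F z = 0 := hf0 (χ z) (by rw [hχi]; exact h1)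
        rw [h2, h1]
        linarith
  have step1' : ∀ z ∈ HD u a (R / 2) 0, |F z| ≤ 4 * M / R * ht u a z + ε := by
    intro z hz
    rw [abs_le]
    have h1 := step1 1 (by simp) z hz
    have h2 := step1 (-1) (by simp) z hz
    constructor <;> linarith
  -- step 2
  have hsub2 : ∀ z ∈ HD u a (R / 2) h, z ∈ closedBall a R := fun z hz => closedBall_subset_closedBall (by linarith) hz.1
  have step2 : ∀ s : ℝ, |s| = 1 → ∀ z ∈ HD u a (R / 2) h, s * (w z - F z) - (m₂ + ε + 2 * A * (Real.log (ht u a z) - Real.log h)) ≤ 0 := by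
    intro s hs
    have c1 : ∀ z ∈ HD u a (R / 2) h, ContDiffAt ℝ 2 (fun z => Real.log (ht u a z)) z := fun z hz => (log_ht hu (hh.trans_le hz.2)).1
    have c2 : ∀ z ∈ HD u a (R / 2) h, ContDiffAt ℝ 2 (fun z => Real.log (ht u a z) - Real.log h) z := fun z hz => (c1 z hz).sub contDiffAt_const
    have c3 : ∀ z ∈ HD u a (R / 2) h, ContDiffAt ℝ 2 (fun z => 2 * A * (Real.log (ht u a z) - Real.log h)) z := fun z hz => contDiffAt_const.mul (c2 z hz)
    have c4 : ∀ z ∈ HD u a (R / 2) h, ContDiffAt ℝ 2 (fun z => m₂ + ε + 2 * A * (Real.log (ht u a z) - Real.log h)) z := fun z hz =>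
      contDiffAt_const.add (c3 z hz)
    have c5 : ∀ z ∈ HD u a (R / 2) h, ContDiffAt ℝ 2 (fun z => w z - F z) z := fun z hz => (hc z (hsub2 z hz) hz.2).sub (hFc z)
    have c6 : ∀ z ∈ HD u a (R / 2) h, ContDiffAt ℝ 2 (fun z => s * (w z - F z)) z := fun z hz => contDiffAt_const.mul (c5 z hz)
    refine weak_max0 (HD_compact u a _ _) (f := fun z => s * (w z - F z) - (m₂ + ε + 2 * A * (Real.log (ht u a z) - Real.log h)))
      (fun z hz => ((c6 z hz).sub (c4 z hz)).continuousAt.continuousWithinAt) ?_ ?_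
    · intro z hzi
      have hz := interior_subset hzi
      refine ⟨(c6 z hz).sub (c4 z hz), ?_⟩
      rw [H30M.lap_sub (c6 z hz) (c4 z hz), H30M.lap_const_mul (c5 z hz), H30M.lap_sub (hc z (hsub2 z hz) hz.2) (hFc z), H30M.lap_add contDiffAt_const (c3 z hz),
        H30M.lap_const_mul (c2 z hz), H30M.lap_sub (c1 z hz) contDiffAt_const, (log_ht hu (hh.trans_le hz.2)).2, hFl, hlc, hlc]
      have h1 := hl z (hsub2 z hz) hz.2
      have h2 : -(A / ht u a z ^ 2) ≤ s * (Δ w z - 0) := by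
        have h3 : |s * (Δ w z - 0)| ≤ A / ht u a z ^ 2 := by rw [abs_mul, hs, one_mul, sub_zero]; exact h1
        exact neg_le_of_abs_le h3
      have hzp : 0 < ht u a z := hh.trans_le hz.2
      have h4 : 0 ≤ A / ht u a z ^ 2 := by positivity
      have h5 : 2 * A * (-(1 / ht u a z ^ 2) - 0) = -2 * (A / ht u a z ^ 2) := by ring
      rw [h5]
      linarith
    · intro z hz hz'
      have hzp : 0 < ht u a z := hh.trans_le hz.2
      have hlog : 0 ≤ 2 * A * (Real.log (ht u a z) - Real.log h) := by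
        have := sub_nonneg.2 (Real.log_le_log hh hz.2)
        positivity
      have hle : s * (w z - F z) ≤ |w z - F z| := by
        calc s * (w z - F z) ≤ |s * (w z - F z)| := le_abs_self _
          _ = |w z - F z| := by rw [abs_mul, hs, one_mul]
      have hmain : |w z - F z| ≤ m₂ + ε := by
        rcases HD_bdry hz hz' with h1 | h1
        · have hn : ‖χ z‖ = R / 2 := by rw [hχn, h1]
          have h2 := hfφ (χ z) (by rw [mem_sphere, dist_zero_right]; exact hn)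
          have hzi : h ≤ (χ z).im := by rw [hχi]; exact hz.2
          rw [hφp (χ z) hn.le (hh.le.trans hzi)] at h2
          have h3 : T (χ z) = soft m₂ (w z) := by
            rw [hT]
            simp only [hrid (χ z) hzi, hψχ]
          have h4 : |w z - T (χ z)| ≤ m₂ := by rw [h3]; exact abs_soft_sub hm₂0
          have h5 : w z - F z = (w z - T (χ z)) - (f (χ z) - T (χ z)) := by rw [hF]; ring
          rw [h5]
          exact (abs_sub _ _).trans (by linarith)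
        · have h2 := hb z (hsub2 z hz) h1
          have h3 := step1' z ⟨hz.1, hzp.le⟩
          rw [h1] at h3
          have h4 : |w z - F z| ≤ |w z| + |F z| := abs_sub _ _
          have h5 : 0 ≤ 2 * A * Real.log (R / h) := by positivity
          have h6 : 4 * M / R * h = 4 * M * h / R := by ring
          rw [hm₂]
          linarith
      show s * (w z - F z) - _ ≤ 0
      linarith
  -- conclusion
  have hK0 : 0 < K := by linarith
  refine ⟨b, ?_, fun z hz hi => ?_⟩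
  · refine hbb.trans ?_
    rw [div_le_div_iff₀ (by positivity) hR]
    nlinarith
  · have hRK : R / K ≤ R / 4 := by gcongr
    have hz2 : z ∈ HD u a (R / 2) h := ⟨closedBall_subset_closedBall (by linarith) hz, hi⟩
    have hzp : 0 < ht u a z := hh.trans_le hi
    have h1 := step2 1 (by simp) z hz2
    have h2 := step2 (-1) (by simp) z hz2
    have h3 : |w z - F z| ≤ m₂ + ε + 2 * A * (Real.log (ht u a z) - Real.log h) := by
      rw [abs_le]
      constructor <;> linarith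
    have hn : ‖χ z‖ ≤ R / K := by rw [hχn]; exact hz
    have h4 := hfb (χ z) (by rw [mem_closedBall, dist_zero_right]; exact hn.trans (by linarith))
    rw [hχi] at h4
    have h5 : |w z - b * ht u a z| ≤ |w z - F z| + |F z - b * ht u a z| := by
      have : w z - b * ht u a z = (w z - F z) + (F z - b * ht u a z) := by ring
      rw [this]
      exact abs_add_le _ _
    have h6 : Real.log (ht u a z) - Real.log h ≤ Real.log (R / h) := by
      rw [Real.log_div hR.ne' hh.ne']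
      have h7 : ht u a z ≤ R := by
        have h8 := (le_of_abs_le (Complex.abs_im_le_norm (χ z)))
        rw [hχi] at h8
        have : R / K ≤ R := hRK.trans (by linarith)
        linarith
      have := Real.log_le_log hzp h7
      linarith
    have h7 : 2 * A * (Real.log (ht u a z) - Real.log h) ≤ 2 * A * Real.log (R / h) := mul_le_mul_of_nonneg_left h6 (by positivity)
    have h8 : 16 * (M + ε) * ‖χ z‖ ^ 2 / (R / 2) ^ 2 ≤ 72 * (M / K ^ 2) := by
      have h9 : ‖χ z‖ ^ 2 ≤ (R / K) ^ 2 := pow_le_pow_left₀ (norm_nonneg _) hn 2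
      have h10 : 16 * (M + ε) * ‖χ z‖ ^ 2 / (R / 2) ^ 2 ≤ 16 * (M + M / 8) * (R / K) ^ 2 / (R / 2) ^ 2 := by gcongr
      refine h10.trans (le_of_eq ?_)
      field_simp
      ring
    have h9 : |F z - b * ht u a z| ≤ 72 * (M / K ^ 2) := h4.trans h8
    have h10 : m₂ + ε + 2 * A * Real.log (R / h) = m + 4 * (A * Real.log (R / h)) + 5 * (M * h / R) := by
      rw [hm₂, hε]; ring
    have h11 : 0 ≤ A * Real.log (R / h) := by positivity
    have h12 : 0 ≤ M * h / R := by positivity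
    have h13 : 0 ≤ M / K ^ 2 := by positivity
    have h14 : 72 * (m + M * h / R + A * (1 + Real.log (R / h)) + M / K ^ 2) =
        72 * m + 72 * (M * h / R) + 72 * A + 72 * (A * Real.log (R / h)) + 72 * (M / K ^ 2) := by ring
    rw [h14]
    linarith

theorem half_disc_pos {w : ℂ → ℝ} {u a : ℂ} {R h A m M K : ℝ} (hu : ‖u‖ = 1) (hR : 0 < R) (hh : 0 < h) (hhR : h ≤ R / 8) (hA : 0 ≤ A) (hm : 0 ≤ m)
    (hM : 0 < M) (hK : 4 ≤ K) (hc : ∀ z ∈ closedBall a R, h ≤ ht u a z → ContDiffAt ℝ 2 w z)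
    (hl : ∀ z ∈ closedBall a R, h ≤ ht u a z → |Δ w z| ≤ A / ht u a z ^ 2)
    (hb : ∀ z ∈ closedBall a R, ht u a z = h → |w z| ≤ m) (hM' : ∀ z ∈ closedBall a R, h ≤ ht u a z → |w z| ≤ M) :
    ∃ b : ℝ, |b| ≤ 72 * M / R ∧ ∀ z ∈ closedBall a (R / K), h ≤ ht u a z →
      |w z - b * ht u a z| ≤ 72 * (m + M * h / R + A * (1 + Real.log (R / h)) + M / K ^ 2) :=
  half_disc_core hu hR hh hhR hA hm hM hK hc hl hb hM' (half_lin hu hR hh hA hm hM.le hc hl hb hM') (fun h1 h2 h3 h4 h5 h6 => odd_approx h1 h2 h3 h4 h5 h6)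

/-- MODULE Half (the half disc lemma). -/
theorem half_disc : ∃ C : ℝ, 0 < C ∧ ∀ (w : ℂ → ℝ) (u a : ℂ) (R h A m M K : ℝ), ‖u‖ = 1 → 0 < R → 0 < h → h ≤ R / 8 → 0 ≤ A → 0 ≤ m → 0 ≤ M →
    4 ≤ K → (∀ z ∈ closedBall a R, h ≤ ht u a z → ContDiffAt ℝ 2 w z) → (∀ z ∈ closedBall a R, h ≤ ht u a z → |Δ w z| ≤ A / ht u a z ^ 2) →
    (∀ z ∈ closedBall a R, ht u a z = h → |w z| ≤ m) → (∀ z ∈ closedBall a R, h ≤ ht u a z → |w z| ≤ M) →
    ∃ b : ℝ, |b| ≤ C * M / R ∧ ∀ z ∈ closedBall a (R / K), h ≤ ht u a z →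
      |w z - b * ht u a z| ≤ C * (m + M * h / R + A * (1 + Real.log (R / h)) + M / K ^ 2) := by
  refine ⟨72, by norm_num, fun w u a R h A m M K hu hR hh hhR hA hm hM hK hc hl hb hM' => ?_⟩
  rcases hM.lt_or_eq with hM0 | hM0
  · exact half_disc_pos hu hR hh hhR hA hm hM0 hK hc hl hb hM'
  · refine ⟨0, by rw [← hM0]; simp, fun z hz hi => ?_⟩
    have hLR : 0 ≤ Real.log (R / h) := Real.log_nonneg (by rw [le_div_iff₀ hh]; linarith)
    have h1 : z ∈ closedBall a R := by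
      refine closedBall_subset_closedBall ?_ hz
      rw [div_le_iff₀ (by linarith)]
      nlinarith
    have h2 := hM' z h1 hi
    rw [← hM0] at h2 ⊢
    rw [zero_mul, sub_zero]
    have : 0 ≤ 72 * (m + 0 * h / R + A * (1 + Real.log (R / h)) + 0 / K ^ 2) := by positivity
    linarith

end Pool.Agent.SR3.BE

end
end

section

/-!
# SR3 EOsc: the oscillation of the quotients decays

`w = lam_i - t S`, `t` the quotient at `a + R u`, `R = K r`, `h = δ R`, `δ = s²`: `|w| ≤ (3 + 2 log (R / y)) B C₃ y ≤ 3 C₃ B R` (`chain`), the half disc lemma,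
`S = β_S y + O (n e)`, `S ≥ c κ r` at the two points.
-/

set_option autoImplicit false

open Topology Filter Metric Complex InnerProductSpace Laplacian

noncomputable section

namespace Pool.Agent.SR3.BE

open Pool.Agent.SDR (gc)

variable {X ι : Type} [Fintype ι] {Φ : Fam X ι} {C c R₀ A c₂ C₂ R₂ : ℝ}

/-- the height has a constant sign on a segment of points of large depth -/
private theorem same_side {u a z z' : ℂ} {m : ℝ} (hm : 0 < m) (h : ∀ w ∈ segment ℝ z z', m ≤ |ht u a w|) (hz : 0 < ht u a z) :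
    m ≤ ht u a z ∧ m ≤ ht u a z' := by
  have h1 := h z (left_mem_segment ℝ z z')
  have h2 := h z' (right_mem_segment ℝ z z')
  rw [abs_of_pos hz] at h1
  refine ⟨h1, ?_⟩
  by_contra hcon
  have h3 : ht u a z' < 0 := by
    by_contra h4
    push Not at h4
    rw [abs_of_nonneg h4] at h2
    exact hcon h2
  have hp : IsPreconnected (segment ℝ z z') := (convex_segment z z').isPreconnected
  have h4 := hp.intermediate_value (right_mem_segment ℝ z z') (left_mem_segment ℝ z z') (continuous_ht u a).continuousOn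
  obtain ⟨w, hw, hw0⟩ := h4 ⟨h3.le, hz.le⟩
  have h5 := h w hw
  rw [hw0, abs_zero] at h5
  linarith only [hm, h5]

/-- `w / S` is close to `b / β_S` -/
private theorem quot_close {w S b y βS ε₁ ε₂ A S₀ : ℝ} (hA : 0 < A) (hβ : A ≤ βS) (hS₀ : 0 < S₀) (hS : S₀ ≤ S) (h1 : |w - b * y| ≤ ε₁)
    (h2 : |S - βS * y| ≤ ε₂) : |w / S - b / βS| ≤ (ε₁ + |b| * ε₂ / A) / S₀ := by
  have hβp : 0 < βS := hA.trans_le hβ
  have hSp : 0 < S := hS₀.trans_le hS
  have e1 : w / S - b / βS = ((w - b * y) - b * (S - βS * y) / βS) / S := by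
    field_simp
    ring
  have hε₁ : 0 ≤ ε₁ := (abs_nonneg _).trans h1
  have hε₂ : 0 ≤ ε₂ := (abs_nonneg _).trans h2
  have e2 : |b * (S - βS * y) / βS| ≤ |b| * ε₂ / A := by
    rw [abs_div, abs_mul, abs_of_pos hβp]
    exact div_le_div₀ (by positivity) (mul_le_mul_of_nonneg_left h2 (abs_nonneg _)) hA hβ
  have e3 : |(w - b * y) - b * (S - βS * y) / βS| ≤ ε₁ + |b| * ε₂ / A := (abs_sub _ _).trans (add_le_add h1 e2)
  rw [e1, abs_div, abs_of_pos hSp]
  exact div_le_div₀ (by positivity) e3 hS₀ hS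

/-- one step, for a given pair of points -/
private theorem osc_pair (hΦ : Hyp Φ C c R₀) (hA : 0 < A) (hD : Dep Φ A c₂ C₂ R₂) (hR₂ : R₀ ≤ R₂) {H : ℝ} (hH : 0 < H)
    (hHalf : ∀ (w : ℂ → ℝ) (u a : ℂ) (R h A m M K : ℝ), ‖u‖ = 1 → 0 < R → 0 < h → h ≤ R / 8 → 0 ≤ A → 0 ≤ m → 0 ≤ M →
      4 ≤ K → (∀ z ∈ closedBall a R, h ≤ ht u a z → ContDiffAt ℝ 2 w z) → (∀ z ∈ closedBall a R, h ≤ ht u a z → |Δ w z| ≤ A / ht u a z ^ 2) →
      (∀ z ∈ closedBall a R, ht u a z = h → |w z| ≤ m) → (∀ z ∈ closedBall a R, h ≤ ht u a z → |w z| ≤ M) →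
      ∃ b : ℝ, |b| ≤ H * M / R ∧ ∀ z ∈ closedBall a (R / K), h ≤ ht u a z →
        |w z - b * ht u a z| ≤ H * (m + M * h / R + A * (1 + Real.log (R / h)) + M / K ^ 2))
    {x : X} {a : ℂ} (ha : a ∈ Φ.G x) {K δ η B r : ℝ} {u : ℂ} {β β' : ι → ℝ} (hK : 4 ≤ K) (hδ : 0 < δ) (hδ8 : δ ≤ 1 / 8) (hr : 1 ≤ r)
    (hh : R₂ ≤ δ * (K * r)) (hh0 : R₀ ≤ c₂ * (δ * (K * r))) (hη : 0 ≤ η) (hη1 : 4 * η ≤ c₂ * δ) (hB : 0 ≤ B)
    (hO : ∀ r', δ * (K * r) ≤ r' → OscLe Φ (c₂ / (2 * C₂ + 1)) r' B) (hfit : Fit Φ x a (4 * (K * r)) (η * (4 * (K * r))) A u β β')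
    {z z' : ℂ} (hz : z ∈ closedBall a r) (hz' : z' ∈ closedBall a r) (hy : δ * (K * r) ≤ ht u a z) (hy' : δ * (K * r) ≤ ht u a z') {S₀ : ℝ}
    (hS₀ : 0 < S₀) (hS : S₀ ≤ Φ.S x z) (hS' : S₀ ≤ Φ.S x z') (i : ι) :
    |Φ.lam x i z / Φ.S x z - Φ.lam x i z' / Φ.S x z'| ≤
      2 * (H * ((3 + 2 * Real.log (1 / δ)) * B * (Fintype.card ι * C * (1 + C₂)) * (δ * (K * r)) +
        3 * (Fintype.card ι * C * (1 + C₂)) * B * (K * r) * (δ * (K * r)) / (K * r) + (1 + Fintype.card ι) * C / c₂ ^ 2 * (1 + Real.log (1 / δ)) +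
        3 * (Fintype.card ι * C * (1 + C₂)) * B * (K * r) / K ^ 2) +
        H * (3 * (Fintype.card ι * C * (1 + C₂)) * B * (K * r)) / (K * r) * (Fintype.card ι * (η * (4 * (K * r)))) / A) / S₀ := by
  obtain ⟨n, hn⟩ : ∃ n : ℝ, n = Fintype.card ι := ⟨_, rfl⟩
  obtain ⟨R, hRdef⟩ : ∃ R : ℝ, R = K * r := ⟨_, rfl⟩
  obtain ⟨h, hhdef⟩ : ∃ h : ℝ, h = δ * R := ⟨_, rfl⟩
  obtain ⟨C₃, hC₃⟩ : ∃ C₃ : ℝ, C₃ = n * C * (1 + C₂) := ⟨_, rfl⟩
  have hn0 : 0 ≤ n := by rw [hn]; positivity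
  have hC1 := hΦ.C_ge
  have hC2 := hD.C_ge
  have hc2 := hD.c_pos
  have hC₃0 : 0 ≤ C₃ := by rw [hC₃]; positivity
  rw [← hn, ← hC₃]
  rw [← hRdef] at hh hh0 hO hfit hy hy' ⊢
  rw [← hhdef] at hh hh0 hO hy hy' ⊢
  have hR : 1 ≤ R := by rw [hRdef]; exact one_le_mul_of_one_le_of_one_le (by linarith only [hK]) hr
  have hR0 : 0 < R := by linarith only [hR]
  have hR21 := hD.R_ge
  have hhp : 0 < h := by linarith only [hh, hR21]
  have hh8 : h ≤ R / 8 := by rw [hhdef]; linarith only [mul_le_mul_of_nonneg_right hδ8 hR0.le]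
  have hRh : R / h = 1 / δ := by rw [hhdef]; field_simp
  have hrR : R / K = r := by rw [hRdef]; field_simp
  have heh : η * (4 * R) ≤ c₂ * h := by rw [hhdef]; linarith only [mul_le_mul_of_nonneg_right hη1 hR0.le]
  have hlogδ : 0 ≤ Real.log (1 / δ) := Real.log_nonneg (by rw [le_div_iff₀ hδ]; linarith only [hδ8])
  -- the depth
  have hdep : ∀ z'' ∈ closedBall a R, h ≤ ht u a z'' → c₂ * ht u a z'' ≤ Φ.d x z'' ∧ Φ.d x z'' ≤ C₂ * ht u a z'' ∧ R₀ ≤ Φ.d x z'' := by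
    intro z'' h1 h2
    have h3 : |ht u a z''| = ht u a z'' := abs_of_pos (hhp.trans_le h2)
    have h4 := hD.dep x a (4 * R) _ u β β' ha (by linarith only [hh, hR21, hh8]) hfit z'' (closedBall_subset_closedBall (by linarith only [hh, hR21, hh8]) h1) (by rw [h3]; linarith only [hh, h2])
      (by rw [h3]; exact heh.trans (mul_le_mul_of_nonneg_left h2 hc2.le))
    rw [h3] at h4
    exact ⟨h4.1, h4.2, hh0.trans ((mul_le_mul_of_nonneg_left h2 hc2.le).trans h4.1)⟩
  have hSle : ∀ z'' ∈ closedBall a R, h ≤ ht u a z'' → Φ.S x z'' ≤ C₃ * ht u a z'' := by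
    intro z'' h1 h2
    obtain ⟨-, h4, -⟩ := hdep z'' h1 h2
    have h5 : 1 ≤ ht u a z'' := by linarith only [hh, hR21, h2]
    have h6 := S_le hΦ x z''
    rw [← hn] at h6
    refine h6.trans ?_
    rw [hC₃]
    have h7 : 1 + Φ.d x z'' ≤ (1 + C₂) * ht u a z'' := by linarith only [hh, hR21, h2, h4]
    calc n * (C * (1 + Φ.d x z'')) ≤ n * (C * ((1 + C₂) * ht u a z'')) :=
          mul_le_mul_of_nonneg_left (mul_le_mul_of_nonneg_left h7 (by linarith only [hC1])) hn0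
      _ = n * C * (1 + C₂) * ht u a z'' := by ring
  -- `w`
  obtain ⟨t, htd⟩ : ∃ t : ℝ, t = Φ.lam x i (a + R * u) / Φ.S x (a + R * u) := ⟨_, rfl⟩
  have ht1 : |t| ≤ 1 := by rw [htd]; exact abs_quot_le_one hΦ x i _
  have hyR : ∀ z'' ∈ closedBall a R, ht u a z'' ≤ R := by
    intro z'' h1
    refine (le_abs_self _).trans ((abs_ht_le hfit.nu a z'').trans ?_)
    rwa [mem_closedBall, dist_eq_norm] at h1
  have hw : ∀ z'' ∈ closedBall a R, h ≤ ht u a z'' →
      |Φ.lam x i z'' - t * Φ.S x z''| ≤ (3 + 2 * Real.log (R / ht u a z'')) * B * C₃ * ht u a z'' := by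
    intro z'' h1 h2
    obtain ⟨-, -, h4⟩ := hdep z'' h1 h2
    have h5 := S_pos hΦ h4
    have h6 := chain hΦ hD hR₂ ha hR hfit hh heh hB hO h1 h2 i
    rw [← htd] at h6
    have h7 : Φ.lam x i z'' - t * Φ.S x z'' = (Φ.lam x i z'' / Φ.S x z'' - t) * Φ.S x z'' := by
      field_simp
    have h8 : 0 ≤ (3 + 2 * Real.log (R / ht u a z'')) * B := (abs_nonneg _).trans h6
    rw [h7, abs_mul, abs_of_pos h5]
    calc |Φ.lam x i z'' / Φ.S x z'' - t| * Φ.S x z'' ≤ ((3 + 2 * Real.log (R / ht u a z'')) * B) * (C₃ * ht u a z'') :=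
          mul_le_mul h6 (hSle z'' h1 h2) h5.le h8
      _ = (3 + 2 * Real.log (R / ht u a z'')) * B * C₃ * ht u a z'' := by ring
  have hwM : ∀ z'' ∈ closedBall a R, h ≤ ht u a z'' → |Φ.lam x i z'' - t * Φ.S x z''| ≤ 3 * C₃ * B * R := by
    intro z'' h1 h2
    refine (hw z'' h1 h2).trans ?_
    have h3 : 0 < ht u a z'' := hhp.trans_le h2
    have h4 : Real.log (R / ht u a z'') ≤ R / ht u a z'' - 1 := Real.log_le_sub_one_of_pos (by positivity)
    have h5 : (3 + 2 * Real.log (R / ht u a z'')) * ht u a z'' ≤ 3 * R := by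
      have h6 : (3 + 2 * Real.log (R / ht u a z'')) * ht u a z'' ≤ (3 + 2 * (R / ht u a z'' - 1)) * ht u a z'' :=
        mul_le_mul_of_nonneg_right (by linarith only [h4]) h3.le
      have h7 : (3 + 2 * (R / ht u a z'' - 1)) * ht u a z'' = ht u a z'' + 2 * R := by
        field_simp
        ring
      have := hyR z'' h1
      linarith only [h6, h7, this]
    calc (3 + 2 * Real.log (R / ht u a z'')) * B * C₃ * ht u a z'' = ((3 + 2 * Real.log (R / ht u a z'')) * ht u a z'') * (B * C₃) := by ring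
      _ ≤ (3 * R) * (B * C₃) := mul_le_mul_of_nonneg_right h5 (by positivity)
      _ = 3 * C₃ * B * R := by ring
  have hwm : ∀ z'' ∈ closedBall a R, ht u a z'' = h → |Φ.lam x i z'' - t * Φ.S x z''| ≤ (3 + 2 * Real.log (1 / δ)) * B * C₃ * h := by
    intro z'' h1 h2
    have h3 := hw z'' h1 h2.ge
    rwa [h2, hRh] at h3
  -- the half disc lemma
  obtain ⟨b, hb, hb'⟩ := hHalf (fun z'' => Φ.lam x i z'' - t * Φ.S x z'') u a R h ((1 + n) * C / c₂ ^ 2) ((3 + 2 * Real.log (1 / δ)) * B * C₃ * h)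
    (3 * C₃ * B * R) K hfit.nu hR0 hhp hh8 (by positivity) (by positivity) (by positivity) hK
    (fun z'' h1 h2 => w_c2 hΦ (hdep z'' h1 h2).2.2 i t)
    (fun z'' h1 h2 => by
      obtain ⟨h3, -, h4⟩ := hdep z'' h1 h2
      refine (w_lap hΦ h4 i ht1).trans ?_
      rw [← hn, div_div, ← mul_pow]
      have h5 : 0 < ht u a z'' := hhp.trans_le h2
      exact div_le_div_of_nonneg_left (by positivity) (by positivity) (pow_le_pow_left₀ (by positivity) h3 2))
    hwm hwM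
  rw [hrR, hRh] at hb'
  -- the comparison of the two quotients
  have hcl : closedBall a r ⊆ closedBall a R := closedBall_subset_closedBall (by rw [hRdef]; exact le_mul_of_one_le_left (by linarith only [hr]) (by linarith only [hK]))
  have hcl4 : closedBall a R ⊆ closedBall a (4 * R) := closedBall_subset_closedBall (by linarith only [hh, hR21, hh8])
  have key : ∀ z'' ∈ closedBall a r, h ≤ ht u a z'' → S₀ ≤ Φ.S x z'' →
      |Φ.lam x i z'' / Φ.S x z'' - (t + b / ∑ i, β i)| ≤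
        (H * ((3 + 2 * Real.log (1 / δ)) * B * C₃ * h + 3 * C₃ * B * R * h / R + (1 + n) * C / c₂ ^ 2 * (1 + Real.log (1 / δ)) + 3 * C₃ * B * R / K ^ 2) +
          |b| * (n * (η * (4 * R))) / A) / S₀ := by
    intro z'' h1 h2 h3
    have h4 : 0 ≤ ht u a z'' := (hhp.trans_le h2).le
    have h5 := hfit.S (hcl4 (hcl h1))
    rw [vee_top h4, ← hn] at h5
    have h6 := quot_close hA hfit.Aβ hS₀ h3 (hb' z'' h1 h2) h5
    have h7 : 0 < Φ.S x z'' := hS₀.trans_le h3
    have h8 : Φ.lam x i z'' / Φ.S x z'' - (t + b / ∑ i, β i) = (Φ.lam x i z'' - t * Φ.S x z'') / Φ.S x z'' - b / ∑ i, β i := by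
      field_simp
      ring
    rw [h8]
    exact h6
  have k1 := key z hz hy hS
  have k2 := key z' hz' hy' hS'
  have hb2 : |b| * (n * (η * (4 * R))) / A ≤ H * (3 * C₃ * B * R) / R * (n * (η * (4 * R))) / A :=
    div_le_div_of_nonneg_right (mul_le_mul_of_nonneg_right hb (by positivity)) hA.le
  have k3 : |Φ.lam x i z / Φ.S x z - Φ.lam x i z' / Φ.S x z'| ≤
      |Φ.lam x i z / Φ.S x z - (t + b / ∑ i, β i)| + |Φ.lam x i z' / Φ.S x z' - (t + b / ∑ i, β i)| := by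
    have := abs_sub (Φ.lam x i z / Φ.S x z - (t + b / ∑ i, β i)) (Φ.lam x i z' / Φ.S x z' - (t + b / ∑ i, β i))
    rwa [show Φ.lam x i z / Φ.S x z - (t + b / ∑ i, β i) - (Φ.lam x i z' / Φ.S x z' - (t + b / ∑ i, β i)) =
      Φ.lam x i z / Φ.S x z - Φ.lam x i z' / Φ.S x z' by ring] at this
  refine k3.trans ((add_le_add k1 k2).trans ?_)
  rw [← add_div]
  refine div_le_div_of_nonneg_right ?_ hS₀.le
  linarith only [hb2]

private theorem osc_core (hΦ : Hyp Φ C c R₀) (hA : 0 < A) (hD : Dep Φ A c₂ C₂ R₂) (hR₂ : R₀ ≤ R₂) (hF : AllFlat Φ A)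
    (hhd : ∃ C : ℝ, 0 < C ∧ ∀ (w : ℂ → ℝ) (u a : ℂ) (R h A m M K : ℝ), ‖u‖ = 1 → 0 < R → 0 < h → h ≤ R / 8 → 0 ≤ A → 0 ≤ m → 0 ≤ M →
    4 ≤ K → (∀ z ∈ closedBall a R, h ≤ ht u a z → ContDiffAt ℝ 2 w z) → (∀ z ∈ closedBall a R, h ≤ ht u a z → |Δ w z| ≤ A / ht u a z ^ 2) →
    (∀ z ∈ closedBall a R, ht u a z = h → |w z| ≤ m) → (∀ z ∈ closedBall a R, h ≤ ht u a z → |w z| ≤ M) →
    ∃ b : ℝ, |b| ≤ C * M / R ∧ ∀ z ∈ closedBall a (R / K), h ≤ ht u a z →
      |w z - b * ht u a z| ≤ C * (m + M * h / R + A * (1 + Real.log (R / h)) + M / K ^ 2)) :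
    ∃ c₁ C₁ R₁ : ℝ, 0 < c₁ ∧ c₁ < 1 ∧ 0 ≤ C₁ ∧ 1 ≤ R₁ ∧ ∀ B r₁, 0 ≤ B → R₁ ≤ r₁ → (∀ r, r₁ ≤ r → OscLe Φ (c₂ / (2 * C₂ + 1)) r B) →
      ∀ r, r₁ / c₁ ≤ r → OscLe Φ (c₂ / (2 * C₂ + 1)) r (B / 2 + C₁ * r ^ (-(1 : ℝ))) := by
  obtain ⟨H, hH, hHalf⟩ := hhd
  obtain ⟨n, hn⟩ : ∃ n : ℝ, n = Fintype.card ι := ⟨_, rfl⟩
  obtain ⟨κ, hκdef⟩ : ∃ κ : ℝ, κ = c₂ / (2 * C₂ + 1) := ⟨_, rfl⟩
  obtain ⟨C₃, hC₃⟩ : ∃ C₃ : ℝ, C₃ = n * C * (1 + C₂) := ⟨_, rfl⟩
  have hn0 : 0 ≤ n := by rw [hn]; positivity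
  have hC1 := hΦ.C_ge
  have hC2 := hD.C_ge
  have hc2 := hD.c_pos
  have hc21 := hD.c_le
  have hc := hΦ.c_pos
  have hR21 := hD.R_ge
  have hR01 := hΦ.R_ge
  have hC₃0 : 0 ≤ C₃ := by rw [hC₃]; positivity
  have hκ : 0 < κ := by rw [hκdef]; positivity
  have hκ1 : κ ≤ 1 / 3 := by
    rw [hκdef, div_le_iff₀ (by linarith only [hC2])]
    linarith only [hC2, hc21]
  rw [← hκdef]
  -- `K`
  obtain ⟨K, hKdef⟩ : ∃ K : ℝ, K = 4 + 36 * H * C₃ / (c * κ) := ⟨_, rfl⟩
  have hK4 : 4 ≤ K := by rw [hKdef]; have : 0 ≤ 36 * H * C₃ / (c * κ) := by positivity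
                         linarith only [this]
  have hK0 : 0 < K := by linarith only [hK4]
  have hK1 : 6 * H * C₃ / (c * κ * K) ≤ 1 / 6 := by
    rw [div_le_iff₀ (by positivity)]
    have h1 : 36 * H * C₃ / (c * κ) ≤ K := by rw [hKdef]; linarith only []
    rw [div_le_iff₀ (by positivity)] at h1
    linarith only [h1]
  -- `δ = s²`
  obtain ⟨s, hsdef⟩ : ∃ s : ℝ, s = min (1 / 3) (min (c₂ * κ / K) (c * κ / (120 * K * H * (C₃ + 1)))) := ⟨_, rfl⟩
  have hs0 : 0 < s := by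
    rw [hsdef]
    refine lt_min (by norm_num) (lt_min (by positivity) (by positivity))
  have hs1 : s ≤ 1 / 3 := by rw [hsdef]; exact min_le_left _ _
  have hs2 : s ≤ c₂ * κ / K := by rw [hsdef]; exact (min_le_right _ _).trans (min_le_left _ _)
  have hs3 : s ≤ c * κ / (120 * K * H * (C₃ + 1)) := by rw [hsdef]; exact (min_le_right _ _).trans (min_le_right _ _)
  obtain ⟨δ, hδdef⟩ : ∃ δ : ℝ, δ = s ^ 2 := ⟨_, rfl⟩
  have hδ0 : 0 < δ := by rw [hδdef]; positivity
  have hs13 : s * s ≤ s * (1 / 3) := mul_le_mul_of_nonneg_left hs1 hs0.le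
  have hδs : δ ≤ s := by rw [hδdef, pow_two]; linarith only [hs0, hs13]
  have hδ8 : δ ≤ 1 / 8 := by rw [hδdef, pow_two]; linarith only [hs1, hs13]
  obtain ⟨L, hL⟩ : ∃ L : ℝ, L = Real.log (1 / δ) := ⟨_, rfl⟩
  have hL0 : 0 ≤ L := by rw [hL]; exact Real.log_nonneg (by rw [le_div_iff₀ hδ0]; linarith only [hs1, hδdef, hs13])
  have hLδ : L * δ ≤ 2 * s := by
    have h1 : L = 2 * Real.log (1 / s) := by
      rw [hL, hδdef, show (1 : ℝ) / s ^ 2 = (1 / s) ^ 2 by rw [div_pow, one_pow], Real.log_pow]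
      norm_num
    have h2 : Real.log (1 / s) ≤ 1 / s - 1 := Real.log_le_sub_one_of_pos (by positivity)
    have h3 : Real.log (1 / s) * s ≤ 1 := by
      calc Real.log (1 / s) * s ≤ (1 / s - 1) * s := mul_le_mul_of_nonneg_right h2 hs0.le
        _ = 1 - s := by field_simp
        _ ≤ 1 := by linarith only [hs0]
    rw [h1, hδdef]
    calc 2 * Real.log (1 / s) * s ^ 2 = 2 * (Real.log (1 / s) * s) * s := by ring
      _ ≤ 2 * 1 * s := mul_le_mul_of_nonneg_right (mul_le_mul_of_nonneg_left h3 (by norm_num)) hs0.le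
      _ = 2 * s := by ring
  -- `η`
  obtain ⟨η, hηdef⟩ : ∃ η : ℝ, η = min (c₂ * κ / (4 * K)) (min (c₂ * δ / 4) (c * κ * A / (144 * K * (n + 1) * H * (C₃ + 1)))) := ⟨_, rfl⟩
  have hη0 : 0 < η := by
    rw [hηdef]
    refine lt_min (by positivity) (lt_min (by positivity) (by positivity))
  have hη1 : η ≤ c₂ * κ / (4 * K) := by rw [hηdef]; exact min_le_left _ _
  have hη2 : η ≤ c₂ * δ / 4 := by rw [hηdef]; exact (min_le_right _ _).trans (min_le_left _ _)
  have hη3 : η ≤ c * κ * A / (144 * K * (n + 1) * H * (C₃ + 1)) := by rw [hηdef]; exact (min_le_right _ _).trans (min_le_right _ _)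
  obtain ⟨Rη, hRη⟩ := hF η hη0
  obtain ⟨R₁, hR₁def⟩ : ∃ R₁ : ℝ, R₁ = max 1 (max Rη (max (R₂ / κ) (R₀ / c₂))) := ⟨_, rfl⟩
  have hR₁1 : 1 ≤ R₁ := by rw [hR₁def]; exact le_max_left _ _
  have hR₁2 : Rη ≤ R₁ := by rw [hR₁def]; exact (le_max_left _ _).trans (le_max_right _ _)
  have hR₁3 : R₂ / κ ≤ R₁ := by rw [hR₁def]; exact (le_max_left _ _).trans ((le_max_right _ _).trans (le_max_right _ _))
  have hR₁4 : R₀ / c₂ ≤ R₁ := by rw [hR₁def]; exact (le_max_right _ _).trans ((le_max_right _ _).trans (le_max_right _ _))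
  have hR₁5 : R₂ ≤ R₁ := by
    refine le_trans ?_ hR₁3
    rw [le_div_iff₀ hκ]
    exact mul_le_of_le_one_right (by linarith only [hR21]) (by linarith only [hκ1])
  have hc₁ : δ * K < 1 := by
    have h1 : s * K ≤ c₂ * κ := by rwa [le_div_iff₀ hK0] at hs2
    have h2 : δ * K ≤ s * K := mul_le_mul_of_nonneg_right hδs hK0.le
    have h3 : c₂ * κ ≤ 1 * (1 / 3) := mul_le_mul hc21 hκ1 hκ.le zero_le_one
    linarith only [h1, h2, h3]
  have hc₁0 : 0 < δ * K := by positivity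
  refine ⟨δ * K, 2 * H * ((1 + n) * C / c₂ ^ 2) * (1 + L) / (c * κ) , R₁, hc₁0, hc₁, by positivity, hR₁1, ?_⟩
  intro B r₁ hB hr₁ hO r hr x a ha z hz z' hz' hseg i
  have hcr : r₁ ≤ δ * (K * r) := by
    rw [div_le_iff₀ hc₁0] at hr
    linarith only [hr]
  have hrr : R₁ ≤ r := by
    have h1 : δ * (K * r) ≤ r := by
      have h2 : 0 ≤ r := by
        by_contra hneg
        push Not at hneg
        have : δ * (K * r) < 0 := by
          have := mul_neg_of_pos_of_neg hc₁0 hneg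
          linarith only [this]
        linarith only [hR₁1, hr₁, hcr, this]
      have h3 : (δ * K) * r ≤ 1 * r := mul_le_mul_of_nonneg_right hc₁.le h2
      linarith only [h3]
    linarith only [hr₁, hcr, h1]
  have hr1 : 1 ≤ r := hR₁1.trans hrr
  have hr0 : 0 < r := by linarith only [hR₁1, hrr]
  have hKr1 : r ≤ K * r := le_mul_of_one_le_left hr0.le (by linarith only [hK4])
  obtain ⟨u₀, β₀, β₀', hfit₀⟩ := hRη x a ha (4 * (K * r)) (by linarith only [hR₁1, hR₁2, hrr, hKr1])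
  -- heights on the segment
  have hκr : R₂ ≤ κ * r := by
    have := hR₁3.trans hrr
    rw [div_le_iff₀ hκ] at this
    linarith only [this]
  have hball : ∀ w ∈ segment ℝ z z', w ∈ closedBall a r := fun w hw => (convex_closedBall a r).segment_subset hz hz' hw
  have hcl : closedBall a r ⊆ closedBall a (4 * (K * r)) := closedBall_subset_closedBall (by linarith only [hR₁1, hrr, hKr1])
  have hhts : ∀ w ∈ segment ℝ z z', c₂ * (κ * r) ≤ |ht u₀ a w| := by
    intro w hw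
    have h1 := hseg w hw
    have h2 : η * (4 * (K * r)) ≤ c₂ * Φ.d x w := by
      have h3 : η * (4 * K) ≤ c₂ * κ := by rwa [le_div_iff₀ (by positivity)] at hη1
      calc η * (4 * (K * r)) = (η * (4 * K)) * r := by ring
        _ ≤ (c₂ * κ) * r := mul_le_mul_of_nonneg_right h3 hr0.le
        _ = c₂ * (κ * r) := by ring
        _ ≤ c₂ * Φ.d x w := mul_le_mul_of_nonneg_left h1 hc2.le
    have h4 := hD.het x a (4 * (K * r)) _ u₀ β₀ β₀' ha (by linarith only [hR₁1, hrr, hKr1]) hfit₀ w (hcl (hball w hw)) (hκr.trans h1) h2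
    exact (mul_le_mul_of_nonneg_left h1 hc2.le).trans h4
  -- orientation
  obtain ⟨u, β, β', hfit, hht, hpos⟩ : ∃ (u : ℂ) (β β' : ι → ℝ), Fit Φ x a (4 * (K * r)) (η * (4 * (K * r))) A u β β' ∧
      (∀ w ∈ segment ℝ z z', c₂ * (κ * r) ≤ |ht u a w|) ∧ 0 < ht u a z := by
    have h1 := hhts z (left_mem_segment ℝ z z')
    have h2 : 0 < c₂ * (κ * r) := by positivity
    rcases lt_or_ge 0 (ht u₀ a z) with h3 | h3
    · exact ⟨u₀, β₀, β₀', hfit₀, hhts, h3⟩
    · refine ⟨-u₀, β₀', β₀, hfit₀.flip, ?_, ?_⟩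
      · intro w hw
        rw [ht_neg, abs_neg]
        exact hhts w hw
      · rw [ht_neg]
        rcases h3.lt_or_eq with h4 | h4
        · linarith only [h4]
        · rw [h4, abs_zero] at h1
          linarith only [h1, h2]
  have hpair := same_side (by positivity : 0 < c₂ * (κ * r)) hht hpos
  have hδκ : δ * (K * r) ≤ c₂ * (κ * r) := by
    have h1 : s * K ≤ c₂ * κ := by rwa [le_div_iff₀ hK0] at hs2
    have h2 : δ * K ≤ c₂ * κ := (mul_le_mul_of_nonneg_right hδs hK0.le).trans h1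
    calc δ * (K * r) = (δ * K) * r := by ring
      _ ≤ (c₂ * κ) * r := mul_le_mul_of_nonneg_right h2 hr0.le
      _ = c₂ * (κ * r) := by ring
  have hSz : ∀ w ∈ segment ℝ z z', c * (κ * r) ≤ Φ.S x w := by
    intro w hw
    have h1 := hseg w hw
    exact (mul_le_mul_of_nonneg_left h1 hc.le).trans (hΦ.low x w (hR₂.trans (hκr.trans h1)))
  have hmain := osc_pair hΦ hA hD hR₂ hH hHalf ha hK4 hδ0 hδ8 hr1 ((hR₁5.trans hr₁).trans hcr)
    (by
      have h1 : R₀ ≤ c₂ * R₁ := by rw [div_le_iff₀ hc2] at hR₁4; linarith only [hR₁4]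
      exact h1.trans (mul_le_mul_of_nonneg_left (hr₁.trans hcr) hc2.le)) hη0.le (by linarith only [hη2]) hB
    (fun r' hr' => by rw [← hκdef]; exact hO r' (hcr.trans hr')) hfit hz hz' (hδκ.trans hpair.1) (hδκ.trans hpair.2)
    (by positivity : 0 < c * (κ * r)) (hSz z (left_mem_segment ℝ z z')) (hSz z' (right_mem_segment ℝ z z')) i
  refine hmain.trans ?_
  rw [← hn, ← hC₃, ← hL, Real.rpow_neg_one]
  -- the final inequality
  have hq : 0 < c * κ := by positivity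
  have t1 : 2 * K * H * C₃ / (c * κ) * (10 * s) ≤ 1 / 6 := by
    have h1 : s * (120 * K * H * (C₃ + 1)) ≤ c * κ := by rwa [le_div_iff₀ (by positivity)] at hs3
    rw [div_mul_eq_mul_div, div_le_iff₀ hq]
    have h2 : s * (120 * K * H * C₃) ≤ s * (120 * K * H * (C₃ + 1)) :=
      mul_le_mul_of_nonneg_left (mul_le_mul_of_nonneg_left (by linarith only []) (by positivity)) hs0.le
    linarith only [h1, h2]
  have t2 : (6 + 2 * L) * δ ≤ 10 * s := by linarith only [hδdef, hδ0, hs13, hLδ]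
  have t3 : 24 * K * n * H * C₃ * η / (c * κ * A) ≤ 1 / 6 := by
    rw [div_le_iff₀ (by positivity)]
    have h1 : η * (144 * K * (n + 1) * H * (C₃ + 1)) ≤ c * κ * A := by rwa [le_div_iff₀ (by positivity)] at hη3
    have h2 : n * C₃ ≤ (n + 1) * (C₃ + 1) := by linarith only [hn, hC₃0]
    have h3 : η * (144 * K * H) * (n * C₃) ≤ η * (144 * K * H) * ((n + 1) * (C₃ + 1)) := mul_le_mul_of_nonneg_left h2 (by positivity)
    linarith only [h1, h3]
  have hKr : 0 < K * r := by positivity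
  have e1 : 2 * (H * ((3 + 2 * L) * B * C₃ * (δ * (K * r)) + 3 * C₃ * B * (K * r) * (δ * (K * r)) / (K * r) + (1 + n) * C / c₂ ^ 2 * (1 + L) +
      3 * C₃ * B * (K * r) / K ^ 2) + H * (3 * C₃ * B * (K * r)) / (K * r) * (n * (η * (4 * (K * r)))) / A) / (c * (κ * r)) =
      (2 * K * H * C₃ / (c * κ) * ((6 + 2 * L) * δ) + 6 * H * C₃ / (c * κ * K) + 24 * K * n * H * C₃ * η / (c * κ * A)) * B +
        2 * H * ((1 + n) * C / c₂ ^ 2) * (1 + L) / (c * κ) * r⁻¹ := by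
    field_simp
    ring
  rw [e1]
  have t4 : 2 * K * H * C₃ / (c * κ) * ((6 + 2 * L) * δ) ≤ 1 / 6 := (mul_le_mul_of_nonneg_left t2 (by positivity)).trans t1
  have t5 : (2 * K * H * C₃ / (c * κ) * ((6 + 2 * L) * δ) + 6 * H * C₃ / (c * κ * K) + 24 * K * n * H * C₃ * η / (c * κ * A)) * B ≤ (1 / 2) * B :=
    mul_le_mul_of_nonneg_right (by linarith only [hK1, t3, t4]) hB
  linarith only [t5]

theorem osc_step (hΦ : Hyp Φ C c R₀) (hA : 0 < A) (hD : Dep Φ A c₂ C₂ R₂) (hR₂ : R₀ ≤ R₂) (hF : AllFlat Φ A) :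
    ∃ c₁ C₁ R₁ : ℝ, 0 < c₁ ∧ c₁ < 1 ∧ 0 ≤ C₁ ∧ 1 ≤ R₁ ∧ ∀ B r₁, 0 ≤ B → R₁ ≤ r₁ → (∀ r, r₁ ≤ r → OscLe Φ (c₂ / (2 * C₂ + 1)) r B) →
      ∀ r, r₁ / c₁ ≤ r → OscLe Φ (c₂ / (2 * C₂ + 1)) r (B / 2 + C₁ * r ^ (-(1 : ℝ))) :=
  osc_core hΦ hA hD hR₂ hF half_disc

end Pool.Agent.SR3.BE

end
end

section

/-!
# SR3 EOsc2: the oscillation of the quotients decays like a power
-/

set_option autoImplicit false

open Topology Filter Metric

noncomputable section

namespace Pool.Agent.SR3.BE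

variable {X ι : Type} [Fintype ι] {Φ : Fam X ι} {C c R₀ A c₂ C₂ R₂ : ℝ}

theorem Osc2.quot_mem (hΦ : Hyp Φ C c R₀) (x : X) (i : ι) (z : ℂ) : 0 ≤ Φ.lam x i z / Φ.S x z ∧ Φ.lam x i z / Φ.S x z ≤ 1 := by
  have h1 : 0 ≤ Φ.lam x i z := hΦ.nn x i z
  have h2 : Φ.lam x i z ≤ Φ.S x z := Finset.single_le_sum (f := fun i => Φ.lam x i z) (fun i _ => hΦ.nn x i z) (Finset.mem_univ i)
  exact ⟨div_nonneg h1 (h1.trans h2), div_le_one_of_le₀ h2 (h1.trans h2)⟩

theorem osc_pow (hΦ : Hyp Φ C c R₀) (hA : 0 < A) (hD : Dep Φ A c₂ C₂ R₂) (hR₂ : R₀ ≤ R₂) (hF : AllFlat Φ A) :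
    ∃ α C' R' : ℝ, 0 < α ∧ α ≤ 1 / 2 ∧ 0 < C' ∧ 1 ≤ R' ∧ ∀ r, R' ≤ r → OscLe Φ (c₂ / (2 * C₂ + 1)) r (C' * r ^ (-α)) := by
  obtain ⟨c₁, C₁, R₁, h1, h2, h3, h4, h5⟩ := osc_step hΦ hA hD hR₂ hF
  have e0 : ∀ r, R₁ ≤ r → OscLe Φ (c₂ / (2 * C₂ + 1)) r 1 := by
    intro r _ x a _ z _ z' _ _ i
    have e1 := Osc2.quot_mem hΦ x i z
    have e2 := Osc2.quot_mem hΦ x i z'
    rw [abs_le]
    constructor <;> linarith [e1.1, e1.2, e2.1, e2.2]
  obtain ⟨α, C', R', h6, h7, h8, h9, h10⟩ := iter (Q := fun r B => OscLe Φ (c₂ / (2 * C₂ + 1)) r B) (γ := 1) (B₀ := 1)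
    (fun r a b hab h => h.mono hab) h1 h2 h3 (lt_of_lt_of_le one_pos h4) one_pos one_pos e0 fun a r₁ ha _ hr h r hr' => h5 a r₁ ha hr h r hr'
  exact ⟨α, C', R', h6, h7, h8, h4.trans h9, h10⟩

end Pool.Agent.SR3.BE

end
end
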