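import Pool.Agent.H43.TL2.M141
import Pool.Agent.H43.TL2.M168
import Pool.Agent.H43.TL2.M189
import Pool.Agent.H43.TL2.M200

/-! The parts of this file: SR3.ETopA, SR3.EStep, SR3.EStr. -/

section

/-!
# SR3 ETopA: the functions are affine on the upper part of a flat disc

`top_aff`: mean value inequality on the convex region.
-/

set_option autoImplicit false

open Topology Filter Metric Complex InnerProductSpace Laplacian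

noncomputable section

namespace Pool.Agent.SR3.BE

open Pool.Agent.SDR (gc fderiv_eq_gc)

variable {X ι : Type} [Fintype ι] {Φ : Fam X ι} {C c R₀ A c₂ C₂ R₂ : ℝ}

private theorem top_aff_core (hΦ : Hyp Φ C c R₀) (hA : 0 < A) (hD : Dep Φ A c₂ C₂ R₂) (hR₂ : R₀ ≤ R₂) (hF : AllFlat Φ A) {cq : ℝ} {J Ty : Type} [Fintype J]
    [Fintype Ty] {m : J → ℕ} {Pol : Ty → J → MvPolynomial ι ℂ} {q : X → J → ℂ} (hrel : Rel Φ C R₀ cq m Pol q) {δ : ℝ} (hδ : 0 < δ) (hδ' : δ ≤ 1 / 8)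
    (hosc0 : ∃ α C' R' : ℝ, 0 < α ∧ α ≤ 1 / 2 ∧ 0 < C' ∧ 1 ≤ R' ∧ ∀ r, R' ≤ r → OscLe Φ (c₂ / (2 * C₂ + 1)) r (C' * r ^ (-α)))
    (hgrad0 : ∀ {α C' R' : ℝ}, 0 < α → α ≤ 1 / 2 → 0 < C' → (∀ r, R' ≤ r → OscLe Φ (c₂ / (2 * C₂ + 1)) r (C' * r ^ (-α))) →
      ∃ C₃ R₃ : ℝ, 0 < C₃ ∧ 1 ≤ R₃ ∧ ∀ (x : X) (a : ℂ), a ∈ Φ.G x → ∀ (R e : ℝ) (u : ℂ) (β β' : ι → ℝ), R₃ ≤ R → Fit Φ x a (8 * R) e A u β β' →
      e ≤ c₂ * δ * R / 4 → ∃ t : ι → ℝ, (∀ i, 0 ≤ t i) ∧ ∑ i, t i = 1 ∧ ∀ z ∈ closedBall a R, δ * R ≤ ht u a z →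
        ‖gc (Φ.S x) z‖ ≤ C₃ ∧ ∀ i, ‖gc (Φ.lam x i) z - (t i : ℂ) * gc (Φ.S x) z‖ ≤ C₃ * R ^ (-α))
    (hconst0 : ∀ {α : ℝ}, 0 < α → α ≤ 1 / 2 → ∀ {C₃ R₃ : ℝ}, 0 < C₃ → 1 ≤ R₃ →
      ∃ α₁ C₄ R₄ : ℝ, 0 < α₁ ∧ α₁ ≤ 1 / 2 ∧ 0 < C₄ ∧ R₃ ≤ R₄ ∧ ∀ (x : X) (a : ℂ), a ∈ Φ.G x → ∀ (R e : ℝ) (u : ℂ) (β β' : ι → ℝ), R₄ ≤ R →
      Fit Φ x a (8 * R) e A u β β' → e ≤ c₂ * δ * R / 4 → ∀ t : ι → ℝ, (∀ i, 0 ≤ t i) → ∑ i, t i = 1 →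
      (∀ z ∈ closedBall a R, δ * R ≤ ht u a z → ‖gc (Φ.S x) z‖ ≤ C₃ ∧ ∀ i, ‖gc (Φ.lam x i) z - (t i : ℂ) * gc (Φ.S x) z‖ ≤ C₃ * R ^ (-α)) →
      ∃ k : ℂ, ∀ z ∈ closedBall a R, δ * R ≤ ht u a z → ∀ i, ‖gc (Φ.lam x i) z - (t i : ℂ) * k‖ ≤ C₄ * R ^ (-α₁)) :
    ∃ α₁ C₅ R₅ : ℝ, 0 < α₁ ∧ α₁ ≤ 1 / 2 ∧ 0 < C₅ ∧ 1 ≤ R₅ ∧ ∀ (x : X) (a : ℂ), a ∈ Φ.G x → ∀ (R e : ℝ) (u : ℂ) (β β' : ι → ℝ), R₅ ≤ R →
      Fit Φ x a (8 * R) e A u β β' → e ≤ c₂ * δ * R / 4 → ∃ t k b, TopAff Φ x a R δ (C₅ * R ^ (1 - α₁)) u t k b := by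
  obtain ⟨α, C', R', hα, hα', hC', -, hO⟩ := hosc0
  obtain ⟨C₃, R₃, hC₃, hR₃, hgrad⟩ := hgrad0 hα hα' hC' hO
  obtain ⟨α₁, C₄, R₄, hα₁, hα₁', hC₄, hR₄, hconst⟩ := hconst0 hα hα' hC₃ hR₃
  have hc₂ := hD.c_pos
  have hR₀1 := hΦ.R_ge
  have hR₂1 := hD.R_ge
  have q1 : 0 ≤ R₂ / δ := by positivity
  have q2 : 0 ≤ R₀ / (c₂ * δ) := by positivity
  refine ⟨α₁, 2 * C₄, R₄ + R₂ / δ + R₀ / (c₂ * δ), hα₁, hα₁', by positivity, by linarith, ?_⟩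
  intro x a ha R e u β β' hR hfit he
  have hR1 : 1 ≤ R := by linarith
  have hRp : 0 < R := by linarith
  have hu : ‖u‖ = 1 := hfit.nu
  obtain ⟨t, ht0, ht1, hg⟩ := hgrad x a ha R e u β β' (by linarith) hfit he
  obtain ⟨k, hk⟩ := hconst x a ha R e u β β' (by linarith) hfit he t ht0 ht1 hg
  set Ω : Set ℂ := closedBall a R ∩ {z | δ * R ≤ ht u a z} with hΩ
  have hΩc : Convex ℝ Ω := convex_top u a R (δ * R)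
  -- the depth
  have hd : ∀ z ∈ Ω, R₀ ≤ Φ.d x z := by
    rintro z ⟨hz, hz'⟩
    have hz' : δ * R ≤ ht u a z := hz'
    have hδR : 0 < δ * R := by positivity
    have h1 : |ht u a z| = ht u a z := abs_of_nonneg (by linarith)
    have h2 : R₂ ≤ |ht u a z| := by
      rw [h1]
      have : R₂ / δ ≤ R := by linarith
      rw [div_le_iff₀ hδ] at this
      linarith
    have h3 := mul_le_mul_of_nonneg_left hz' hc₂.le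
    have h4 : 0 ≤ c₂ * (δ * R) := by positivity
    have h5 := (hD.dep x a (8 * R) e u β β' ha (by linarith) hfit z (closedBall_subset_closedBall (by linarith) hz) h2 (by rw [h1]; linarith)).1
    refine le_trans ?_ h5
    rw [h1]
    have : R₀ / (c₂ * δ) ≤ R := by linarith
    rw [div_le_iff₀ (by positivity)] at this
    linarith
  set z₀ : ℂ := a + ((R : ℝ) : ℂ) * u with hz₀
  have hz₀Ω : z₀ ∈ Ω := by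
    refine ⟨?_, ?_⟩
    · rw [mem_closedBall, dist_eq_norm, hz₀, add_sub_cancel_left, norm_mul, hu, mul_one, Complex.norm_real, Real.norm_of_nonneg hRp.le]
    · show δ * R ≤ ht u a z₀
      have h0 : ht u a a = 0 := by
        unfold ht
        simp
      rw [hz₀, ht_add hu, h0, zero_add]
      nlinarith
  refine ⟨t, k, fun i => Φ.lam x i z₀ - t i * (k * (z₀ - a)).re, ht0, ht1, fun z hz hz' i => ?_⟩
  -- the function `lam - t Re k (z - a)`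
  have hder : ∀ w ∈ Ω, HasFDerivAt (fun w => Φ.lam x i w - t i * (k * (w - a)).re)
      (fderiv ℝ (Φ.lam x i) w - t i • (Complex.reCLM.comp ((k • ContinuousLinearMap.id ℂ ℂ).restrictScalars ℝ))) w := by
    intro w hw
    have h1 : HasFDerivAt (Φ.lam x i) (fderiv ℝ (Φ.lam x i) w) w := ((hΦ.c2 x i w (hd w hw)).differentiableAt (by norm_num)).hasFDerivAt
    have h2 : HasFDerivAt (fun w : ℂ => k * (w - a)) ((k • ContinuousLinearMap.id ℂ ℂ).restrictScalars ℝ) w :=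
      ((((hasFDerivAt_id w).sub_const a).const_mul k) : HasFDerivAt (fun w : ℂ => k * (w - a)) (k • ContinuousLinearMap.id ℂ ℂ) w).restrictScalars ℝ
    exact h1.sub ((Complex.reCLM.hasFDerivAt.comp w h2).const_mul (t i))
  have hbd : ∀ w ∈ Ω, ‖fderiv ℝ (fun w => Φ.lam x i w - t i * (k * (w - a)).re) w‖ ≤ C₄ * R ^ (-α₁) := by
    intro w hw
    refine ContinuousLinearMap.opNorm_le_bound _ (by positivity) fun v => ?_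
    rw [(hder w hw).fderiv]
    have h1 : (fderiv ℝ (Φ.lam x i) w - t i • (Complex.reCLM.comp ((k • ContinuousLinearMap.id ℂ ℂ).restrictScalars ℝ))) v =
        ((gc (Φ.lam x i) w - (t i : ℂ) * k) * v).re := by
      show fderiv ℝ (Φ.lam x i) w v - t i * (k * v).re = _
      rw [fderiv_eq_gc, sub_mul, Complex.sub_re, mul_assoc, Complex.re_ofReal_mul]
    rw [h1, Real.norm_eq_abs]
    refine (Complex.abs_re_le_norm _).trans ?_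
    rw [norm_mul]
    exact mul_le_mul_of_nonneg_right (hk w hw.1 hw.2 i) (norm_nonneg _)
  have hmv := hΩc.norm_image_sub_le_of_norm_fderiv_le (𝕜 := ℝ) (f := fun w => Φ.lam x i w - t i * (k * (w - a)).re)
    (fun w hw => (hder w hw).differentiableAt) hbd hz₀Ω (show z ∈ Ω from ⟨hz, hz'⟩)
  rw [Real.norm_eq_abs] at hmv
  have h1 : ‖z - z₀‖ ≤ 2 * R := by
    have h2 : ‖z - a‖ ≤ R := by simpa [dist_eq_norm] using hz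
    have h3 : ‖z₀ - a‖ ≤ R := by simpa [dist_eq_norm] using hz₀Ω.1
    have h4 : z - z₀ = (z - a) - (z₀ - a) := by ring
    rw [h4]
    refine (norm_sub_le _ _).trans (by linarith)
  have h2 : C₄ * R ^ (-α₁) * ‖z - z₀‖ ≤ 2 * C₄ * R ^ (1 - α₁) := by
    have h3 : R ^ (1 - α₁) = R ^ (-α₁) * R := by
      rw [sub_eq_add_neg, add_comm, Real.rpow_add hRp, Real.rpow_one]
    rw [h3]
    calc C₄ * R ^ (-α₁) * ‖z - z₀‖ ≤ C₄ * R ^ (-α₁) * (2 * R) := mul_le_mul_of_nonneg_left h1 (by positivity)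
      _ = _ := by ring
  have h3 : Φ.lam x i z - (t i * (k * (z - a)).re + (Φ.lam x i z₀ - t i * (k * (z₀ - a)).re)) =
      Φ.lam x i z - t i * (k * (z - a)).re - (Φ.lam x i z₀ - t i * (k * (z₀ - a)).re) := by ring
  rw [h3]
  exact hmv.trans h2

theorem top_aff (hΦ : Hyp Φ C c R₀) (hA : 0 < A) (hD : Dep Φ A c₂ C₂ R₂) (hR₂ : R₀ ≤ R₂) (hF : AllFlat Φ A) {cq : ℝ} {J Ty : Type} [Fintype J]
    [Fintype Ty] {m : J → ℕ} {Pol : Ty → J → MvPolynomial ι ℂ} {q : X → J → ℂ} (hrel : Rel Φ C R₀ cq m Pol q) {δ : ℝ} (hδ : 0 < δ) (hδ' : δ ≤ 1 / 8) :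
    ∃ α₁ C₅ R₅ : ℝ, 0 < α₁ ∧ α₁ ≤ 1 / 2 ∧ 0 < C₅ ∧ 1 ≤ R₅ ∧ ∀ (x : X) (a : ℂ), a ∈ Φ.G x → ∀ (R e : ℝ) (u : ℂ) (β β' : ι → ℝ), R₅ ≤ R →
      Fit Φ x a (8 * R) e A u β β' → e ≤ c₂ * δ * R / 4 → ∃ t k b, TopAff Φ x a R δ (C₅ * R ^ (1 - α₁)) u t k b :=
  top_aff_core hΦ hA hD hR₂ hF hrel hδ hδ' (osc_pow hΦ hA hD hR₂ hF) (fun h1 h2 h3 h4 => top_grad hΦ hA hD hR₂ h1 h2 h3 h4 hδ hδ')
    (fun h1 h2 _ _ h3 h4 => top_const hΦ hD hR₂ hrel h1 h2 hδ hδ' h3 h4)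

end Pool.Agent.SR3.BE

end
end

section

/-!
# SR3 EStep: the flatness at one scale improves the flatness at the larger scales

`top_aff` at `2 R` (with `δ / 2`) for `u` and `-u`, `low_region`, `line_fit`: `C₇ C₆ δ ≤ 1/2`.
-/

set_option autoImplicit false

open Topology Filter Metric Complex InnerProductSpace Laplacian

noncomputable section

namespace Pool.Agent.SR3.BE

variable {X ι : Type} [Fintype ι] {Φ : Fam X ι} {C c R₀ A c₂ C₂ R₂ : ℝ}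

private theorem flat_core (hΦ : Hyp Φ C c R₀) (hA : 0 < A) (hD : Dep Φ A c₂ C₂ R₂) (hR₂ : R₀ ≤ R₂) (hF : AllFlat Φ (2 * A)) {cq : ℝ} {J Ty : Type} [Fintype J]
    [Fintype Ty] {m : J → ℕ} {Pol : Ty → J → MvPolynomial ι ℂ} {q : X → J → ℂ} (hrel : Rel Φ C R₀ cq m Pol q)
    (hlow0 : ∃ K₃ C₆ δ₀ : ℝ, 1 ≤ K₃ ∧ 0 < C₆ ∧ 0 < δ₀ ∧ δ₀ ≤ 1 / 8 ∧ K₃ * δ₀ ≤ 1 ∧ ∀ δ : ℝ, 0 < δ → δ ≤ δ₀ → ∃ η₁ R₆ : ℝ, 0 < η₁ ∧ 1 ≤ R₆ ∧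
      ∀ (x : X) (a : ℂ), a ∈ Φ.G x → ∀ (R e η : ℝ), R₆ ≤ R → 0 ≤ e → 0 ≤ η → η ≤ η₁ →
      (∀ a' ∈ Φ.G x, ∃ u' γ γ', Fit Φ x a' (K₃ * δ * R) (η * (K₃ * δ * R)) A u' γ γ') → ∀ (u : ℂ) (β β' : ι → ℝ),
      Fit Φ x a (16 * R) (η * (16 * R)) A u β β' → ∀ (t t' : ι → ℝ) (k k' : ℂ) (b b' : ι → ℝ), TopAff Φ x a (2 * R) (δ / 2) e u t k b →
      TopAff Φ x a (2 * R) (δ / 2) e (-u) t' k' b' → ∀ z ∈ closedBall a R,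
        ((∀ i, |Φ.lam x i z - (t i * (k * (z - a)).re + b i)| ≤ C₆ * (e + η * δ * R)) ∨
          ∀ i, |Φ.lam x i z - (t' i * (k' * (z - a)).re + b' i)| ≤ C₆ * (e + η * δ * R)) ∧
        (z ∈ Φ.G x → (∀ i, |Φ.lam x i z - (t i * (k * (z - a)).re + b i)| ≤ C₆ * (e + η * δ * R)) ∧
          ∀ i, |Φ.lam x i z - (t' i * (k' * (z - a)).re + b' i)| ≤ C₆ * (e + η * δ * R)))
    (hline0 : ∃ C₇ η₂ R₇ : ℝ, 0 < C₇ ∧ 0 < η₂ ∧ 1 ≤ R₇ ∧ ∀ (x : X) (a : ℂ), a ∈ Φ.G x → ∀ (R E : ℝ), R₇ ≤ R → 0 ≤ E → E ≤ η₂ * R →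
      (∃ u₀ β₀ β₀', Fit Φ x a (16 * R) (η₂ * (16 * R)) (2 * A) u₀ β₀ β₀') → ∀ (u : ℂ) (β β' : ι → ℝ),
      Fit Φ x a (16 * R) (η₂ * (16 * R)) A u β β' → ∀ (t t' : ι → ℝ) (k k' : ℂ) (b b' : ι → ℝ), TopAff Φ x a (2 * R) (1 / 16) E u t k b →
      TopAff Φ x a (2 * R) (1 / 16) E (-u) t' k' b' → (∀ z ∈ closedBall a R,
        ((∀ i, |Φ.lam x i z - (t i * (k * (z - a)).re + b i)| ≤ E) ∨ ∀ i, |Φ.lam x i z - (t' i * (k' * (z - a)).re + b' i)| ≤ E) ∧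
        (z ∈ Φ.G x → (∀ i, |Φ.lam x i z - (t i * (k * (z - a)).re + b i)| ≤ E) ∧
          ∀ i, |Φ.lam x i z - (t' i * (k' * (z - a)).re + b' i)| ≤ E)) →
      ∃ u' γ γ', Fit Φ x a R (C₇ * (E + 1)) A u' γ γ')
    (htop0 : ∀ {δ : ℝ}, 0 < δ → δ ≤ 1 / 8 →
      ∃ α₁ C₅ R₅ : ℝ, 0 < α₁ ∧ α₁ ≤ 1 / 2 ∧ 0 < C₅ ∧ 1 ≤ R₅ ∧ ∀ (x : X) (a : ℂ), a ∈ Φ.G x → ∀ (R e : ℝ) (u : ℂ) (β β' : ι → ℝ), R₅ ≤ R →
      Fit Φ x a (8 * R) e A u β β' → e ≤ c₂ * δ * R / 4 → ∃ t k b, TopAff Φ x a R δ (C₅ * R ^ (1 - α₁)) u t k b) :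
    ∃ c₁ C₁ R₁ η₀ γ : ℝ, 0 < c₁ ∧ c₁ < 1 ∧ 0 ≤ C₁ ∧ 1 ≤ R₁ ∧ 0 < η₀ ∧ 0 < γ ∧ γ ≤ 1 / 2 ∧ ∀ η r₁, 0 ≤ η → η ≤ η₀ → R₁ ≤ r₁ →
      (∀ r, r₁ ≤ r → ∀ (x : X) (a : ℂ), a ∈ Φ.G x → ∃ u β β', Fit Φ x a r (η * r) A u β β') →
      ∀ r, r₁ / c₁ ≤ r → ∀ (x : X) (a : ℂ), a ∈ Φ.G x → ∃ u β β', Fit Φ x a r ((η / 2 + C₁ * r ^ (-γ)) * r) A u β β' := by
  obtain ⟨K₃, C₆, δ₀, hK₃, hC₆, hδ₀, hδ₀8, hKδ, hlow⟩ := hlow0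
  obtain ⟨C₇, η₂, R₇, hC₇, hη₂, hR₇, hline⟩ := hline0
  -- the choice of `δ`
  obtain ⟨δ, hδ, hδδ₀, hδC⟩ : ∃ δ : ℝ, 0 < δ ∧ δ ≤ δ₀ ∧ C₇ * C₆ * δ ≤ 1 / 2 := by
    have h1 : 0 < C₇ * C₆ := mul_pos hC₇ hC₆
    refine ⟨min δ₀ (1 / (2 * (C₇ * C₆))), lt_min hδ₀ (by positivity), min_le_left _ _, ?_⟩
    calc C₇ * C₆ * min δ₀ (1 / (2 * (C₇ * C₆))) ≤ C₇ * C₆ * (1 / (2 * (C₇ * C₆))) := mul_le_mul_of_nonneg_left (min_le_right _ _) h1.le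
      _ = 1 / 2 := by field_simp
  have hδ8 : δ ≤ 1 / 8 := hδδ₀.trans hδ₀8
  obtain ⟨η₁, R₆, hη₁, hR₆, hlow⟩ := hlow δ hδ hδδ₀
  obtain ⟨α₁, C₅, R₅, hα₁, hα₁', hC₅, hR₅, htop⟩ := htop0 (δ := δ / 2) (by positivity) (by linarith)
  obtain ⟨R₈, hR₈⟩ := hF η₂ hη₂
  -- the choice of `R₁`
  have hκ : 0 < η₂ / (4 * ((C₆ + 1) * C₅)) := by positivity
  obtain ⟨R₉, hR₉⟩ : ∃ R₉ : ℝ, ∀ r, R₉ ≤ r → r ^ (-α₁) ≤ η₂ / (4 * ((C₆ + 1) * C₅)) := by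
    have h1 := (tendsto_rpow_neg_atTop hα₁).eventually (gt_mem_nhds hκ)
    obtain ⟨R₉, h2⟩ := eventually_atTop.1 h1
    exact ⟨R₉, fun r hr => (h2 r hr).le⟩
  have hK₃δ : 0 < K₃ * δ := mul_pos (by linarith) hδ
  have hK₃δ1 : K₃ * δ ≤ 1 := (mul_le_mul_of_nonneg_left hδδ₀ (by linarith)).trans hKδ
  have hc₂ := hD.c_pos
  obtain ⟨η₀, hη₀, hηa, hηb, hηc, hηd⟩ : ∃ η₀ : ℝ, 0 < η₀ ∧ η₀ ≤ η₁ ∧ η₀ ≤ η₂ ∧ 64 * η₀ ≤ c₂ * δ ∧ 2 * (C₆ * δ) * η₀ ≤ η₂ := by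
    refine ⟨min (min η₁ η₂) (min (c₂ * δ / 64) (η₂ / (2 * (C₆ * δ)))), by positivity, (min_le_left _ _).trans (min_le_left _ _),
      (min_le_left _ _).trans (min_le_right _ _), ?_, ?_⟩
    · have h1 := (min_le_right (min η₁ η₂) (min (c₂ * δ / 64) (η₂ / (2 * (C₆ * δ))))).trans (min_le_left _ _)
      linarith
    · have h1 := (min_le_right (min η₁ η₂) (min (c₂ * δ / 64) (η₂ / (2 * (C₆ * δ))))).trans (min_le_right _ _)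
      have h2 : (0 : ℝ) < 2 * (C₆ * δ) := by positivity
      calc 2 * (C₆ * δ) * min (min η₁ η₂) (min (c₂ * δ / 64) (η₂ / (2 * (C₆ * δ)))) ≤ 2 * (C₆ * δ) * (η₂ / (2 * (C₆ * δ))) :=
            mul_le_mul_of_nonneg_left h1 h2.le
        _ = η₂ := by field_simp
  refine ⟨K₃ * δ / 2, 2 * C₇ * (C₆ + 1) * C₅ + C₇, 1 + |R₅| + |R₆| + |R₇| + |R₈| + |R₉|, η₀, α₁, by positivity, by linarith, by positivity, ?_,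
    hη₀, hα₁, hα₁', ?_⟩
  · have h5 := abs_nonneg R₅
    have h6 := abs_nonneg R₆
    have h7 := abs_nonneg R₇
    have h8 := abs_nonneg R₈
    have h9 := abs_nonneg R₉
    linarith
  intro η r₁ hη hηη₀ hr₁ hfl r hr x a ha
  have h5 := abs_nonneg R₅
  have h6 := abs_nonneg R₆
  have h7 := abs_nonneg R₇
  have h8 := abs_nonneg R₈
  have h9 := abs_nonneg R₉
  have h5' := le_abs_self R₅
  have h6' := le_abs_self R₆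
  have h7' := le_abs_self R₇
  have h8' := le_abs_self R₈
  have h9' := le_abs_self R₉
  have hr₁0 : 1 ≤ r₁ := by linarith
  have hKr : r₁ ≤ K₃ * δ / 2 * r := by
    rw [div_le_iff₀ (by positivity)] at hr
    linarith
  have hrr₁ : r₁ ≤ r := by
    have h1 : K₃ * δ / 2 * r ≤ 1 * r ∨ r < 0 := by
      rcases le_or_gt 0 r with h | h
      · exact Or.inl (mul_le_mul_of_nonneg_right (by linarith) h)
      · exact Or.inr h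
    rcases h1 with h1 | h1
    · linarith
    · have h2 : K₃ * δ / 2 * r < 0 := mul_neg_of_pos_of_neg (by positivity) h1
      linarith
  have hr1 : 1 ≤ r := hr₁0.trans hrr₁
  have hr0 : 0 < r := by linarith
  have hKr' : r₁ ≤ K₃ * δ * r := by
    have h1 : K₃ * δ / 2 * r ≤ K₃ * δ * r := mul_le_mul_of_nonneg_right (by linarith) hr0.le
    linarith
  -- the datum at the scale `16 r`
  obtain ⟨u, β, β', hfit⟩ := hfl (16 * r) (by linarith) x a ha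
  have hfit8 : Fit Φ x a (8 * (2 * r)) (η * (16 * r)) A u β β' := by
    rw [show 8 * (2 * r) = 16 * r by ring]
    exact hfit
  have he : η * (16 * r) ≤ c₂ * (δ / 2) * (2 * r) / 4 := by
    have h1 : 64 * η ≤ c₂ * δ := by linarith
    have h2 : 64 * η * r ≤ c₂ * δ * r := mul_le_mul_of_nonneg_right h1 hr0.le
    linarith
  obtain ⟨t, k, b, hta⟩ := htop x a ha (2 * r) (η * (16 * r)) u β β' (by linarith) hfit8 he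
  obtain ⟨t', k', b', htb⟩ := htop x a ha (2 * r) (η * (16 * r)) (-u) β' β (by linarith) hfit8.flip he
  set e : ℝ := C₅ * (2 * r) ^ (1 - α₁) with he_def
  have he0 : 0 ≤ e := by positivity
  -- `e ≤ 2 C₅ r ^ (-α₁) r`
  have heP : e ≤ 2 * C₅ * (r ^ (-α₁) * r) := by
    have h1 : (2 * r) ^ (1 - α₁) = (2 * r) * (2 * r) ^ (-α₁) := by
      rw [sub_eq_add_neg, Real.rpow_add (by positivity), Real.rpow_one]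
    have h2 : (2 * r) ^ (-α₁) ≤ r ^ (-α₁) := Real.rpow_le_rpow_of_nonpos hr0 (by linarith) (by linarith)
    rw [he_def, h1]
    have h3 : 2 * r * (2 * r) ^ (-α₁) ≤ 2 * r * r ^ (-α₁) := mul_le_mul_of_nonneg_left h2 (by positivity)
    calc C₅ * (2 * r * (2 * r) ^ (-α₁)) ≤ C₅ * (2 * r * r ^ (-α₁)) := mul_le_mul_of_nonneg_left h3 hC₅.le
      _ = 2 * C₅ * (r ^ (-α₁) * r) := by ring
  have hl := hlow x a ha r e η (by linarith) he0 hη (by linarith) (fun a' ha' => hfl (K₃ * δ * r) hKr' x a' ha') u β β' hfit t t' k k' b b' hta htb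
  -- the bound `E`
  have hE : C₆ * (e + η * δ * r) + e ≤ η₂ * r := by
    have h1 : C₆ * (η * δ * r) ≤ η₂ / 2 * r := by
      have h2 : 2 * (C₆ * δ) * η ≤ η₂ := (mul_le_mul_of_nonneg_left hηη₀ (by positivity)).trans hηd
      have h3 : 2 * (C₆ * δ) * η * r ≤ η₂ * r := mul_le_mul_of_nonneg_right h2 hr0.le
      linarith
    have h4 : (C₆ + 1) * e ≤ η₂ / 2 * r := by
      have h5 := hR₉ r (by linarith)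
      have h6 : r ^ (-α₁) * (4 * ((C₆ + 1) * C₅)) ≤ η₂ := by
        rwa [le_div_iff₀ (by positivity)] at h5
      calc (C₆ + 1) * e ≤ (C₆ + 1) * (2 * C₅ * (r ^ (-α₁) * r)) := mul_le_mul_of_nonneg_left heP (by positivity)
        _ = r ^ (-α₁) * (4 * ((C₆ + 1) * C₅)) * (r / 2) := by ring
        _ ≤ η₂ * (r / 2) := mul_le_mul_of_nonneg_right h6 (by positivity)
        _ = η₂ / 2 * r := by ring
    linarith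
  have hE0 : 0 ≤ C₆ * (e + η * δ * r) := by positivity
  have hmono : ∀ {y : ℝ}, y ≤ C₆ * (e + η * δ * r) → y ≤ C₆ * (e + η * δ * r) + e := fun h => by linarith
  have hd2 : δ / 2 * (2 * r) ≤ 1 / 16 * (2 * r) := mul_le_mul_of_nonneg_right (by linarith) (by linarith)
  have hfin := hline x a ha r (C₆ * (e + η * δ * r) + e) (by linarith) (by linarith) hE (hR₈ x a ha (16 * r) (by linarith)) u β β'
    (hfit.mono le_rfl (mul_le_mul_of_nonneg_right (by linarith) (by positivity)) le_rfl) t t' k k' b b'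
    (hta.mono hd2 (by linarith)) (htb.mono hd2 (by linarith))
    (fun z hz => ⟨(hl z hz).1.imp (fun h i => hmono (h i)) fun h i => hmono (h i), fun hzG =>
      ⟨fun i => hmono (((hl z hz).2 hzG).1 i), fun i => hmono (((hl z hz).2 hzG).2 i)⟩⟩)
  obtain ⟨u', γ, γ', hfit'⟩ := hfin
  refine ⟨u', γ, γ', hfit'.mono le_rfl ?_ le_rfl⟩
  -- `C₇ (E + 1) ≤ (η / 2 + C₁ r ^ (-α₁)) r`
  have hone : 1 ≤ r ^ (-α₁) * r := by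
    have h1 : r ^ (-α₁) * r = r ^ (1 - α₁) := by
      rw [sub_eq_add_neg, add_comm, Real.rpow_add hr0, Real.rpow_one]
    rw [h1]
    exact Real.one_le_rpow hr1 (by linarith)
  have k1 : C₇ * C₆ * δ * (η * r) ≤ 1 / 2 * (η * r) := mul_le_mul_of_nonneg_right hδC (by positivity)
  have k2 : C₇ * (C₆ + 1) * e ≤ C₇ * (C₆ + 1) * (2 * C₅ * (r ^ (-α₁) * r)) := mul_le_mul_of_nonneg_left heP (by positivity)
  have k3 : C₇ * 1 ≤ C₇ * (r ^ (-α₁) * r) := mul_le_mul_of_nonneg_left hone hC₇.le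
  calc C₇ * (C₆ * (e + η * δ * r) + e + 1) = C₇ * C₆ * δ * (η * r) + C₇ * (C₆ + 1) * e + C₇ * 1 := by ring
    _ ≤ 1 / 2 * (η * r) + C₇ * (C₆ + 1) * (2 * C₅ * (r ^ (-α₁) * r)) + C₇ * (r ^ (-α₁) * r) := by linarith
    _ = (η / 2 + (2 * C₇ * (C₆ + 1) * C₅ + C₇) * r ^ (-α₁)) * r := by ring

theorem flat_step (hΦ : Hyp Φ C c R₀) (hA : 0 < A) (hD : Dep Φ A c₂ C₂ R₂) (hR₂ : R₀ ≤ R₂) (hF : AllFlat Φ (2 * A)) {cq : ℝ} {J Ty : Type} [Fintype J]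
    [Fintype Ty] {m : J → ℕ} {Pol : Ty → J → MvPolynomial ι ℂ} {q : X → J → ℂ} (hrel : Rel Φ C R₀ cq m Pol q) :
    ∃ c₁ C₁ R₁ η₀ γ : ℝ, 0 < c₁ ∧ c₁ < 1 ∧ 0 ≤ C₁ ∧ 1 ≤ R₁ ∧ 0 < η₀ ∧ 0 < γ ∧ γ ≤ 1 / 2 ∧ ∀ η r₁, 0 ≤ η → η ≤ η₀ → R₁ ≤ r₁ →
      (∀ r, r₁ ≤ r → ∀ (x : X) (a : ℂ), a ∈ Φ.G x → ∃ u β β', Fit Φ x a r (η * r) A u β β') →
      ∀ r, r₁ / c₁ ≤ r → ∀ (x : X) (a : ℂ), a ∈ Φ.G x → ∃ u β β', Fit Φ x a r ((η / 2 + C₁ * r ^ (-γ)) * r) A u β β' :=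
  flat_core hΦ hA hD hR₂ hF hrel (low_region hΦ hA hD hR₂) (line_fit hΦ hA hD hR₂) (fun h1 h2 => top_aff hΦ hA hD hR₂ (hF.mono (by linarith)) hrel h1 h2)

end Pool.Agent.SR3.BE

end
end

section

/-!
# SR3 EStr: straightness of the functions of a family (`exists_dep`, `flat_step`, `iter`, `limit_fit`)
-/

set_option autoImplicit false

open Topology Filter Metric

noncomputable section

namespace Pool.Agent.SR3.BE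

variable {X ι : Type} [Fintype ι] {Φ : Fam X ι} {C c R₀ A : ℝ}

/-- monotonicity in the error, for all radii -/
private theorem fit_mono' {x : X} {a : ℂ} {r e e' : ℝ} {u : ℂ} {β β' : ι → ℝ} (h : Fit Φ x a r (e * r) A u β β') (he : e ≤ e') :
    Fit Φ x a r (e' * r) A u β β' := by
  refine ⟨h.nu, h.nβ, h.nβ', h.Aβ, h.Aβ', fun z hz i => (h.fit z hz i).trans ?_⟩
  have h1 : 0 ≤ r := dist_nonneg.trans (mem_closedBall.1 hz)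
  exact mul_le_mul_of_nonneg_right he h1

private theorem straight_core (hΦ : Hyp Φ C c R₀) (hA : 0 < A) (hF : AllFlat Φ (2 * A)) {cq : ℝ} {J Ty : Type} [Fintype J]
    [Fintype Ty] {m : J → ℕ} {Pol : Ty → J → MvPolynomial ι ℂ} {q : X → J → ℂ} (hrel : Rel Φ C R₀ cq m Pol q)
    (hdep0 : ∃ c₂ C₂ R₂ : ℝ, R₀ ≤ R₂ ∧ Dep Φ A c₂ C₂ R₂)
    (hstep0 : ∀ {c₂ C₂ R₂ : ℝ}, Dep Φ A c₂ C₂ R₂ → R₀ ≤ R₂ →
      ∃ c₁ C₁ R₁ η₀ γ : ℝ, 0 < c₁ ∧ c₁ < 1 ∧ 0 ≤ C₁ ∧ 1 ≤ R₁ ∧ 0 < η₀ ∧ 0 < γ ∧ γ ≤ 1 / 2 ∧ ∀ η r₁, 0 ≤ η → η ≤ η₀ → R₁ ≤ r₁ →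
      (∀ r, r₁ ≤ r → ∀ (x : X) (a : ℂ), a ∈ Φ.G x → ∃ u β β', Fit Φ x a r (η * r) A u β β') →
      ∀ r, r₁ / c₁ ≤ r → ∀ (x : X) (a : ℂ), a ∈ Φ.G x → ∃ u β β', Fit Φ x a r ((η / 2 + C₁ * r ^ (-γ)) * r) A u β β')
    (hlim0 : ∀ {α C' R' : ℝ}, 0 < α → α ≤ 1 / 2 → 0 < C' → 1 ≤ R' →
      (∀ r, R' ≤ r → ∀ (x : X) (a : ℂ), a ∈ Φ.G x → ∃ u β β', Fit Φ x a r (C' * r ^ (-α) * r) A u β β') →
      ∃ B : ℝ, 0 < B ∧ ∀ (x : X) (a : ℂ), a ∈ Φ.G x → ∃ (u : ℂ) (β β' : ι → ℝ), ‖u‖ = 1 ∧ (∀ i, 0 ≤ β i ∧ 0 ≤ β' i) ∧ A ≤ ∑ i, β i ∧ A ≤ ∑ i, β' i ∧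
      ∀ z i, |Φ.lam x i z - vee u a (β i) (β' i) z| ≤ B * (2 + ‖z - a‖) ^ (1 - α)) :
    ∃ γ B : ℝ, 0 < γ ∧ γ < 1 ∧ 0 < B ∧ ∀ (x : X) (a : ℂ), a ∈ Φ.G x → ∃ (u : ℂ) (β β' : ι → ℝ), ‖u‖ = 1 ∧ (∀ i, 0 ≤ β i ∧ 0 ≤ β' i) ∧
      A ≤ ∑ i, β i ∧ A ≤ ∑ i, β' i ∧ ∀ z i, |Φ.lam x i z - vee u a (β i) (β' i) z| ≤ B * (2 + ‖z - a‖) ^ γ := by
  obtain ⟨c₂, C₂, R₂, hR₂, hD⟩ := hdep0
  obtain ⟨c₁, C₁, R₁, η₀, γ, hc, hc1, hC1, hR1, hη₀, hγ, -, hstep⟩ := hstep0 hD hR₂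
  obtain ⟨Rη, hRη⟩ := hF η₀ hη₀
  have h1 : ∀ r, max R₁ Rη ≤ r → ∀ (x : X) (a : ℂ), a ∈ Φ.G x → ∃ u β β', Fit Φ x a r (η₀ * r) A u β β' := by
    intro r hr x a ha
    obtain ⟨u, β, β', h2⟩ := hRη x a ha r ((le_max_right _ _).trans hr)
    exact ⟨u, β, β', h2.mono le_rfl le_rfl (by linarith)⟩
  obtain ⟨α, C', R', hα, hα', hC', hR', h2⟩ := iter
    (Q := fun r η => ∀ (x : X) (a : ℂ), a ∈ Φ.G x → ∃ u β β', Fit Φ x a r (η * r) A u β β')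
    (fun r η η' hη h x a ha => by
      obtain ⟨u, β, β', h3⟩ := h x a ha
      exact ⟨u, β, β', fit_mono' h3 hη⟩) hc hc1 hC1 (by linarith [le_max_left R₁ Rη] : 0 < max R₁ Rη) hη₀ hγ h1
    (fun η r₁ h3 h4 h5 h6 => hstep η r₁ h3 h4 ((le_max_left _ _).trans h5) h6)
  obtain ⟨B, hB, h3⟩ := hlim0 hα hα' hC' (by linarith [le_max_left R₁ Rη] : 1 ≤ R') h2
  exact ⟨1 - α, B, by linarith, by linarith, hB, h3⟩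

theorem straight_abs (hΦ : Hyp Φ C c R₀) (hA : 0 < A) (hF : AllFlat Φ (2 * A)) {cq : ℝ} {J Ty : Type} [Fintype J]
    [Fintype Ty] {m : J → ℕ} {Pol : Ty → J → MvPolynomial ι ℂ} {q : X → J → ℂ} (hrel : Rel Φ C R₀ cq m Pol q) :
    ∃ γ B : ℝ, 0 < γ ∧ γ < 1 ∧ 0 < B ∧ ∀ (x : X) (a : ℂ), a ∈ Φ.G x → ∃ (u : ℂ) (β β' : ι → ℝ), ‖u‖ = 1 ∧ (∀ i, 0 ≤ β i ∧ 0 ≤ β' i) ∧
      A ≤ ∑ i, β i ∧ A ≤ ∑ i, β' i ∧ ∀ z i, |Φ.lam x i z - vee u a (β i) (β' i) z| ≤ B * (2 + ‖z - a‖) ^ γ :=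
  straight_core hΦ hA hF hrel (exists_dep hΦ hA) (fun hD hR₂ => flat_step hΦ hA hD hR₂ hF hrel)
    (fun h1 h2 h3 h4 h5 => limit_fit hΦ hA h1 h2 h3 h4 h5)

end Pool.Agent.SR3.BE

end
end
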