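import Pool.Agent.H43.TL2.M187
import Pool.Agent.H43.TL2.M199
import Pool.Agent.H43.TL2.M201

/-! The parts of this file: SR3.EGc, SR3.EGd, SR3.EFin. -/

section

/-!
# SR3 EGc: block E, the relation between the gradients of the functions `lam i` along the curves of the class
-/

set_option autoImplicit false

open Topology Filter Metric InnerProductSpace Laplacian

noncomputable section

namespace Pool.Agent.SR3

open Pool.Agent.H36.BP (EN fs)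
open Pool.Agent.SDR (gc)
open Pool.Agent.SR3.BE (Fam Hyp Fit AllFlat Rel ht vee)

variable {N : ℕ} {G : Geo N} {T : Set (EN N)} {rho : EN N → ℝ} {M : ℕ} {c₀ C δ : ℝ} {g : (ℂ → EN N) → ℂ → ℝ}

private theorem EGc_eval {ι : Type} [Fintype ι] {P : MvPolynomial ι ℂ} {n : ℕ} (hP : P.IsHomogeneous n) (y : ι → ℂ) (c : ℂ) :
    MvPolynomial.eval (fun i => c * y i) P = c ^ n * MvPolynomial.eval y P := by
  rw [MvPolynomial.eval_eq', MvPolynomial.eval_eq', Finset.mul_sum]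
  refine Finset.sum_congr rfl fun d hd => ?_
  have h1 : ∑ i, d i = n := by
    have h2 := hP.degree_eq_sum_deg_support hd
    rw [h2]
    exact (Finset.sum_subset (Finset.subset_univ _) fun i _ hi => Finsupp.notMem_support_iff.1 hi).symm
  rw [← h1]
  have h3 : ∏ i, (c * y i) ^ d i = c ^ (∑ i, d i) * ∏ i, y i ^ d i := by
    rw [← Finset.prod_pow_eq_pow_sum, ← Finset.prod_mul_distrib]
    exact Finset.prod_congr rfl fun i _ => mul_pow _ _ _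
  rw [h3]
  ring

private theorem EGc_pol {ι : Type} [Fintype ι] {P : MvPolynomial ι ℂ} {n : ℕ} (hP : P.IsHomogeneous n) (y : ι → ℂ) :
    MvPolynomial.eval (fun i => -y i) (MvPolynomial.C ((-1 : ℂ) ^ n) * P) = MvPolynomial.eval y P := by
  have h1 : (fun i => -y i) = fun i => (-1 : ℂ) * y i := funext fun i => (neg_one_mul _).symm
  rw [map_mul, MvPolynomial.eval_C, h1, EGc_eval hP, ← mul_assoc, ← pow_add, ← two_mul, pow_mul]
  norm_num

private theorem EGc_low (hG : G.Ok) : ∃ c : ℝ, 0 < c ∧ ∀ q : G.J → ℂ, G.nq q = 1 → ∃ j, c ≤ ‖q j‖ := by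
  classical
  have := hG.neJ
  have hc : 0 < (Fintype.card G.J : ℝ) := Nat.cast_pos.2 Fintype.card_pos
  set k : ℝ := (Fintype.card G.J : ℝ)⁻¹ with hk
  have hk0 : 0 < k := inv_pos.2 hc
  have hk1 : k ≤ 1 := inv_le_one_of_one_le₀ (by exact_mod_cast Fintype.card_pos)
  refine ⟨k ^ ∑ j, G.m j, pow_pos hk0 _, fun q hq => ?_⟩
  by_contra hcon
  push Not at hcon
  have h1 : ∀ j, ‖q j‖ ^ ((G.m j : ℝ)⁻¹) < k := by
    intro j
    have hm : (0 : ℝ) < G.m j := by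
      have := hG.one_m j
      exact_mod_cast this
    have h2 : ‖q j‖ < k ^ G.m j :=
      (hcon j).trans_le (pow_le_pow_of_le_one hk0.le hk1 (Finset.single_le_sum (f := fun j => G.m j) (fun _ _ => Nat.zero_le _) (Finset.mem_univ j)))
    have h3 := Real.rpow_lt_rpow (norm_nonneg _) h2 (inv_pos.2 hm)
    rwa [← Real.rpow_natCast, ← Real.rpow_mul hk0.le, mul_inv_cancel₀ hm.ne', Real.rpow_one] at h3
  have h4 : G.nq q < ∑ _j : G.J, k := Finset.sum_lt_sum_of_nonempty Finset.univ_nonempty fun j _ => h1 j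
  rw [hq, Finset.sum_const, Finset.card_univ, nsmul_eq_mul, hk, mul_inv_cancel₀ hc.ne'] at h4
  exact lt_irrefl _ h4

private theorem EGc_gc (u : ℂ → ℝ) (b : ℝ) (z : ℂ) : gc (fun w => u w + b) z = gc u z := by
  unfold gc
  rw [fderiv_add_const]

/-- the theorem, with `speed` and `L_bdd` as hypotheses -/
private theorem EGc_core (hG : G.Ok)
    (hspeed : ∃ B R : ℝ, 0 < B ∧ 0 < R ∧ ∀ (q : G.J → ℂ) (F : ℂ → EN N), G.Cl T q F → ∀ z, R ≤ infDist z (Geo.Gd rho δ F) →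
      fs (F z) (deriv F z) ≤ B / infDist z (Geo.Gd rho δ F))
    (hLbdd : ∃ B : ℝ, 0 < B ∧ ∀ (q : G.J → ℂ) (F : ℂ → EN N), G.Cl T q F → ∀ z, G.L (F z) (deriv F z) ≤ B) :
 ∃ C₁ R₁ cq : ℝ, ∃ Pol : G.Ty → G.J → MvPolynomial G.ι ℂ, ∀ B₀ C₂ R₂ : ℝ, C₁ ≤ C₂ → R₁ ≤ R₂ →
    Rel (eFam G T rho δ B₀) C₂ R₂ cq G.m Pol (fun x => x.1.1) := by
  obtain ⟨Bs, Rs, hBs, hRs, hsp⟩ := hspeed
  obtain ⟨BL, hBL, hL⟩ := hLbdd
  obtain ⟨Cr, hCr, hres⟩ := hG.res
  obtain ⟨cq, hcq, hlow⟩ := EGc_low hG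
  obtain ⟨_, _, hlam⟩ := lam_c2 hG
  refine ⟨Cr * Bs * ∑ j, BL ^ (G.m j - 1), Rs, cq, fun t j => MvPolynomial.C ((-1 : ℂ) ^ G.m j) * G.Pol t j, fun B₀ C₂ R₂ hC hR =>
    ⟨hG.one_m, fun t j => (hG.Pol_hom t j).C_mul _, hcq, fun x => hlow _ x.2.one, fun x j z hz => ?_⟩⟩
  obtain ⟨⟨q, F⟩, hF⟩ := x
  have hd : 0 < infDist z (Geo.Gd rho δ F) := hRs.trans_le (hR.trans hz)
  have hK : F z ∈ G.K := hF.ent.mem z
  have han : AnalyticAt ℂ F z := hF.ent.diff.analyticAt z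
  have htan := tan hG hF.ent.diff hF.ent.mem z
  have h1 : ∀ i, gc ((eFam G T rho δ B₀).lam ⟨(q, F), hF⟩ i) z = - G.ell i (F z) (deriv F z) := by
    intro i
    have h2 := (hlam i F z han (Eventually.of_forall hF.ent.mem)).2.2
    rw [← h2]
    exact EGc_gc (fun w => G.lam i (F w)) B₀ z
  refine ⟨G.ty (F z), ?_⟩
  simp only [h1]
  rw [EGc_pol (hG.Pol_hom _ j)]
  have h3 := (hres (F z) hK).2 j (deriv F z) htan
  rw [hF.val j z] at h3
  rw [norm_sub_rev]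
  refine h3.trans ?_
  have h4 := hsp q F hF z (hR.trans hz)
  have h5 : G.L (F z) (deriv F z) ^ (G.m j - 1) ≤ ∑ j, BL ^ (G.m j - 1) :=
    (pow_le_pow_left₀ (L_nonneg _ _) (hL q F hF z) _).trans
      (Finset.single_le_sum (f := fun j => BL ^ (G.m j - 1)) (fun _ _ => (pow_pos hBL _).le) (Finset.mem_univ j))
  have h6 : 0 ≤ ∑ j, BL ^ (G.m j - 1) := Finset.sum_nonneg fun _ _ => (pow_pos hBL _).le
  calc Cr * fs (F z) (deriv F z) * G.L (F z) (deriv F z) ^ (G.m j - 1)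
      ≤ Cr * (Bs / infDist z (Geo.Gd rho δ F)) * ∑ j, BL ^ (G.m j - 1) := by
        refine mul_le_mul (mul_le_mul_of_nonneg_left h4 hCr) h5 (pow_nonneg (L_nonneg _ _) _) ?_
        exact mul_nonneg hCr (div_nonneg hBs.le hd.le)
    _ = (Cr * Bs * ∑ j, BL ^ (G.m j - 1)) / infDist z (Geo.Gd rho δ F) := by ring
    _ ≤ C₂ / infDist z (Geo.Gd rho δ F) := div_le_div_of_nonneg_right hC hd.le

theorem eRel (S : Base G T rho M c₀ C δ g) : ∃ C₁ R₁ cq : ℝ, ∃ Pol : G.Ty → G.J → MvPolynomial G.ι ℂ, ∀ B₀ C₂ R₂ : ℝ, C₁ ≤ C₂ → R₁ ≤ R₂ →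
    Rel (eFam G T rho δ B₀) C₂ R₂ cq G.m Pol (fun x => x.1.1) :=
  EGc_core S.ok (speed S) (L_bdd S)

end Pool.Agent.SR3

end
end

section

/-!
# SR3 EGd: flatness of the family of the class
-/

set_option autoImplicit false

open Topology Filter Metric

noncomputable section

namespace Pool.Agent.SR3

open Pool.Agent.H36.BP (EN)
open Pool.Agent.SR3.BE (Fam Hyp Fit AllFlat Rel ht vee)

variable {N : ℕ} {G : Geo N} {T : Set (EN N)} {rho : EN N → ℝ} {M : ℕ} {c₀ C δ : ℝ} {g : (ℂ → EN N) → ℂ → ℝ}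

theorem eFlat (S : Base G T rho M c₀ C δ g) : ∃ A' : ℝ, 0 < A' ∧ ∀ B₀ : ℝ, AllFlat (eFam G T rho δ B₀) A' := by
  obtain ⟨A', hA', h⟩ := flat S
  refine ⟨A', hA', fun B₀ η hη => ?_⟩
  obtain ⟨R₀, hR₀, h1⟩ := h (η / 2) (by positivity)
  refine ⟨max R₀ (2 * |B₀| / η), fun x a ha R hR => ?_⟩
  obtain ⟨u, β, β', ⟨hu, hβ, hfit⟩, h2, h3⟩ := h1 x.1.1 x.1.2 x.2 a ha R ((le_max_left _ _).trans hR)
  refine ⟨u, β, β', hu, fun i => (hβ i).1, fun i => (hβ i).2, h2, h3, fun z hz i => ?_⟩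
  have h4 := hfit z hz i
  have h5 : |B₀| ≤ η / 2 * R := by
    have h6 : 2 * |B₀| / η ≤ R := (le_max_right _ _).trans hR
    rw [div_le_iff₀ hη] at h6
    linarith
  have h7 : (eFam G T rho δ B₀).lam x i z - vee u a (β i) (β' i) z = (G.lam i (x.1.2 z) - lin u a (β i) (β' i) z) + B₀ := by
    rw [lin_eq]
    show G.lam i (x.1.2 z) + B₀ - vee u a (β i) (β' i) z = _
    ring
  rw [h7]
  refine (abs_add_le _ _).trans ?_
  have h8 : |G.lam i (x.1.2 z) - lin u a (β i) (β' i) z| ≤ η / 2 * R := h4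
  linarith

end Pool.Agent.SR3

end
end

section

/-!
# SR3 EFin: straightness (the end of block E)
-/

set_option autoImplicit false

open Topology Filter Metric

noncomputable section

namespace Pool.Agent.SR3

open Pool.Agent.H36.BP (EN)
open Pool.Agent.SR3.BE (Fam Hyp Fit AllFlat Rel ht vee straight_abs)
open Geo (Gd)

variable {N : ℕ} {G : Geo N} {T : Set (EN N)} {rho : EN N → ℝ} {M : ℕ} {c₀ C δ : ℝ} {g : (ℂ → EN N) → ℂ → ℝ}

theorem straight (S : Base G T rho M c₀ C δ g) :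
    ∃ γ A' B : ℝ, 0 < γ ∧ γ < 1 ∧ 0 < A' ∧ 0 < B ∧ ∀ (q : G.J → ℂ) (F : ℂ → EN N), G.Cl T q F → ∀ a ∈ Gd rho δ F,
      ∃ (u : ℂ) (β β' : G.ι → ℝ), G.Fits F a u β β' (fun z => B * pw γ ‖z - a‖) Set.univ ∧ A' ≤ ∑ i, β i ∧ A' ≤ ∑ i, β' i := by
  obtain ⟨B₀, C₁, c₁, R₁, hHyp⟩ := eHyp S
  obtain ⟨C₁', R₁', cq, Pol, hRel⟩ := eRel S
  obtain ⟨A, hA, hFlat⟩ := eFlat S
  have hF : AllFlat (eFam G T rho δ B₀) (2 * (A / 2)) := by
    rw [mul_div_cancel₀ _ (two_ne_zero)]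
    exact hFlat B₀
  obtain ⟨γ, B, hγ, hγ1, hB, h⟩ := straight_abs (hHyp (max C₁ C₁') (max R₁ R₁') (le_max_left _ _) (le_max_left _ _)) (half_pos hA) hF
    (hRel B₀ (max C₁ C₁') (max R₁ R₁') (le_max_right _ _) (le_max_right _ _))
  refine ⟨γ, A / 2, B + |B₀|, hγ, hγ1, half_pos hA, by positivity, fun q F hq a ha => ?_⟩
  obtain ⟨u, β, β', hu, hβ, h1, h2, h3⟩ := h ⟨(q, F), hq⟩ a ha
  refine ⟨u, β, β', ⟨hu, hβ, fun z _ i => ?_⟩, h1, h2⟩
  have h4 : |G.lam i (F z) + B₀ - vee u a (β i) (β' i) z| ≤ B * (2 + ‖z - a‖) ^ γ := h3 z i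
  have h5 : (1 : ℝ) ≤ (2 + ‖z - a‖) ^ γ := Real.one_le_rpow (by linarith [norm_nonneg (z - a)]) hγ.le
  have h6 : G.lam i (F z) - lin u a (β i) (β' i) z = (G.lam i (F z) + B₀ - vee u a (β i) (β' i) z) - B₀ := by
    rw [lin_eq]
    ring
  show |G.lam i (F z) - lin u a (β i) (β' i) z| ≤ (B + |B₀|) * (2 + ‖z - a‖) ^ γ
  rw [h6]
  refine (abs_sub _ _).trans ?_
  have h7 : |B₀| ≤ |B₀| * (2 + ‖z - a‖) ^ γ := le_mul_of_one_le_right (abs_nonneg _) h5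
  rw [add_mul]
  linarith

end Pool.Agent.SR3

end
end
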