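import Pool.Agent.H43.TL2.M164
import Pool.Agent.H43.TL2.M191
import Pool.Agent.H43.TL2.M195
import Pool.Agent.H43.TL2.M197
import Pool.Agent.H43.TL2.M202
import Pool.Agent.H43.TL2.M87
import Pool.Agent.H43.TL2.SR3.F.First
import Pool.Agent.H43.TL2.SR3.F.Tube_1

/-! The parts of this file: SR3.Dense_1, SR3.OneForm, SR3.Asm. -/

section

/-!
# SR3 Dense: the good points of a second metric are relatively dense

`r` = the distance of the `T`-good point `a` to the `T'`-good points, `p` = a nearest one; after an affine change of the parameter `p = 1`, `a = 1 + r`.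
The function `v = g' ‖F‖ ^ (-c₀')` has no error in the ball with centre `1 + r` and radius `r`.  `T`-good points near `p`: `straight` gives
`log v ≤ A - c |Im z| + B |z| ^ γ` (the line is almost parallel to the real axis, as it is near `p` and `a`), so `disc_gain` bounds `r`, as
`log v 1` is bounded from below.
-/

set_option autoImplicit false

open Topology Filter Metric

noncomputable section

namespace Pool.Agent.SR3

open Pool.Agent.H36.BP (EN fs wd Sub OrdTwo)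
open Pool.Agent.H14.PP (IsCone Tan)
open Pool.Agent.SY (Ent)
open Pool.Agent.SDA (EnergyK Near AffOpen Nm nForms)
open Geo (Gd)

variable {N : ℕ} {G : Geo N} {T : Set (EN N)} {rho : EN N → ℝ} {M : ℕ} {c₀ C δ : ℝ} {g : (ℂ → EN N) → ℂ → ℝ}

private theorem dn_low (S : Base G T rho M c₀ C δ g) :
    ∃ γ α B : ℝ, 0 < γ ∧ γ < 1 ∧ 0 < α ∧ 0 ≤ B ∧ ∀ (q : G.J → ℂ) (F : ℂ → EN N), G.Cl T q F → ∀ a ∈ Gd rho δ F,
      ∃ u : ℂ, ‖u‖ = 1 ∧ ∀ z, α * |yy u a z| - B * pw γ ‖z - a‖ ≤ Real.log ‖F z‖ :=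
  dn_low_core (straight S) (lam_upperA S.ok) (by
    have h1 : 1 ≤ G.h := S.ok.aff.pos ()
    exact_mod_cast h1) fun i => by exact_mod_cast S.ok.b_pos i

/-- the normalised situation -/
private theorem dn_main (S : Base G T rho M c₀ C δ g) {T' : Set (EN N)} {rho' : EN N → ℝ} {M' : ℕ} {c₀' C' δ' : ℝ} {g' : (ℂ → EN N) → ℂ → ℝ}
    (hM' : G.Met T' rho' M' c₀' C' δ' g') (hT : T ⊆ T') :
    ∃ R : ℝ, ∀ r : ℝ, R ≤ r → ∀ (q : G.J → ℂ) (F : ℂ → EN N), G.Cl T' q F → ((1 + r : ℝ) : ℂ) ∈ Gd rho δ F → (1 : ℂ) ∈ Gd rho' δ' F →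
      (∀ z ∈ ball ((1 + r : ℝ) : ℂ) r, z ∉ Gd rho' δ' F) → False := by
  refine dn_main_core S.ok hM' hT (dn_low S) (bound S.ok hM') (thick S.ok hM' hM'.pos) ?_ (gapD S)
  obtain ⟨_, C₃, _, _, hC₃⟩ := thick S.ok S.met S.met.pos
  exact ⟨C₃, hC₃⟩

/-- MODULE Z1 (block F, (15)): the good points of a second metric are relatively dense -/
theorem dense' (S : Base G T rho M c₀ C δ g) {T' : Set (EN N)} {rho' : EN N → ℝ} {M' : ℕ} {c₀' C' δ' : ℝ} {g' : (ℂ → EN N) → ℂ → ℝ}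
    (hM' : G.Met T' rho' M' c₀' C' δ' g') (hT : T ⊆ T') :
    ∃ R : ℝ, ∀ (q : G.J → ℂ) (F : ℂ → EN N), G.Cl T' q F → ∀ a ∈ Gd rho δ F, ∃ b ∈ Gd rho' δ' F, dist a b ≤ R :=
  dense_core S.ok hM' (dn_main S hM' hT) fun _ _ hF => exists_good S.ok hM' hF

end Pool.Agent.SR3

end
end

section

/-!
# SR3 OneForm: module Z2, one form kills the class
-/

set_option autoImplicit false
set_option linter.unusedSectionVars false

open Topology Filter Metric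

noncomputable section

namespace Pool.Agent.SR3

open Pool.Agent.H36.BP (EN)
open Pool.Agent.SR3.G (Str Facts Facts' HFacts one_form_of)
open Geo (Gd)
open F (tube_bd rigid_f first_p)

variable {N : ℕ} {G : Geo N} {T : Set (EN N)} {rho : EN N → ℝ} {M : ℕ} {c₀ C δ : ℝ} {g : (ℂ → EN N) → ℂ → ℝ}

/-- MODULE Z2 (block G): one form kills the class.  `𝒬` is the set of the functions on the cone which are given by the forms which are not `0` on `X`. -/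
theorem one_form (S : Base G T rho M c₀ C δ g) {𝒬 : Set (EN N → ℂ)} (h𝒬 : 𝒬.Nonempty) (hmul : ∀ Q ∈ 𝒬, ∀ Q' ∈ 𝒬, (fun x => Q x * Q' x) ∈ 𝒬)
    (hmet : ∀ R ∈ 𝒬, ∃ Q ∈ 𝒬, (∀ x, R x = 0 → Q x = 0) ∧ (∀ x ∈ T, Q x = 0) ∧
      ∃ (rho' : EN N → ℝ) (M' : ℕ) (c₀' C' δ' : ℝ) (g' : (ℂ → EN N) → ℂ → ℝ), G.Met {x | x ∈ G.X ∧ Q x = 0} rho' M' c₀' C' δ' g')
    (hper : ∀ (q : G.J → ℂ) (F : ℂ → EN N) (ω : ℂ), G.Cl T q F → ω ≠ 0 → (∀ z, F (z + ω) = F z) →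
      (∃ B : ℝ, ∀ z, Real.log ‖F z‖ ≤ B * (1 + ‖z‖)) → ∃ Q ∈ 𝒬, ∀ z, Q (F z) = 0) :
    ∃ Q ∈ 𝒬, (∃ (rho' : EN N → ℝ) (M' : ℕ) (c₀' C' δ' : ℝ) (g' : (ℂ → EN N) → ℂ → ℝ), G.Met {x | x ∈ G.X ∧ Q x = 0} rho' M' c₀' C' δ' g') ∧
      ∀ (q : G.J → ℂ) (F : ℂ → EN N), ¬ G.Cl {x | x ∈ G.X ∧ Q x = 0} q F := by
  obtain ⟨γ, A', B, hγ0, hγ1, hA', hB, hst⟩ := straight S
  have hstr : Str G T rho δ γ A' B := ⟨hγ0, hγ1, hA', hB, hst⟩
  have hf : Facts G T rho δ γ A' B := ⟨hstr, fun q F hF => exists_good S.ok S.met hF, growth S.ok S.met, gapD S, lower S,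
    fun 𝒰 h𝒰 q F hF h0 => compact S.ok S.met 𝒰 h𝒰 q F hF h0⟩
  have hHF : HFacts G T rho δ 𝒬 := by
    intro R hR
    obtain ⟨Q, hQ, h1, h2, rho', M', c₀', C', δ', g', hM'⟩ := hmet R hR
    exact ⟨Q, hQ, h1, h2, rho', δ', ⟨dense' S hM' fun x hx => ⟨S.met.TX hx, h2 x hx⟩,
      fun 𝒰 h𝒰 q F hF h0 => compact S.ok hM' 𝒰 h𝒰 q F hF h0⟩⟩
  obtain ⟨Q, hQ, hall⟩ := one_form_of S.ok hf (tube_bd S hf) (rigid_f S hstr) (first_p S hf) h𝒬 hmul hHF hper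
  obtain ⟨Q', hQ', h1, h2, h3⟩ := hmet Q hQ
  refine ⟨Q', hQ', h3, fun q F hF => ?_⟩
  obtain ⟨z, hz⟩ := hF.ent.out
  have hX : F z ∈ G.X := ((S.ok.aff.mem _).1 (hF.ent.mem z)).1
  refine hz ⟨hX, h1 _ (hall q F ⟨⟨hF.ent.diff, hF.ent.mem, z, fun hT => hz ⟨hX, h2 _ hT⟩⟩, hF.nm, hF.val, hF.one⟩ z)⟩

end Pool.Agent.SR3

end
end

section

/-!
# SR3 Asm: the main theorem
-/

set_option autoImplicit false

open Topology Filter Metric MvPolynomial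

noncomputable section

namespace Pool.Agent.SR3

open Pool.Agent.H36.BP (EN fs OrdTwo)
open Pool.Agent.H17 (PN VanishesAt HolomorphicInto)
open Pool.Agent.H62.FC (Homog)
open Pool.Agent.H17LG.Variety (FunField IsLogGeneralType)
open Pool.Agent.H13.OT (OrderTwo)
open Pool.Agent.H17EF (projVar coneE)
open Pool.Agent.H14.KB (rhoS)
open Pool.Agent.AD (SymDiff TangentTo)
open Pool.Agent.AD.NC (IsSmooth IsOfLogGeneralType)
open Pool.Agent.SDA (openCone EnergyK Near AffOpen IsHyperbolicOpen four_of_orderTwo hyperbolicOpen_of)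

variable {N k M h : ℕ}

/-- The curves of order two lie in one curve. -/
theorem exists_curve (P : Ideal (MvPolynomial (Fin (N + 1)) ℂ)) [P.IsPrime] (hP : Homog P) {z : Fin 2 → FunField P} (hz : IsTranscendenceBasis ℂ z)
    (hsm : IsSmooth P 2) (H : MvPolynomial (Fin (N + 1)) ℂ) (hH : H.IsHomogeneous h) (h1 : 1 ≤ h) (hHP : H ∉ P)
    (hgt : IsOfLogGeneralType P (fun _ : Fin 1 => H) 2)
    (E : Fin k → Fin (M + 1) → MvPolynomial (Fin (N + 1)) ℂ) (c b : Fin k → ℕ) (hE : ∀ i l, (E i l).IsHomogeneous (c i)) (hc : ∀ i, h + 1 ≤ c i)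
    (hs : Snc P H E b) {s : ℕ} (hs1 : 1 ≤ s) (m : Fin s → ℕ) (hm : ∀ j, 1 ≤ m j) (θ : ∀ j, SymDiff (oc P H) (m j)) (hθ : ∀ j, HasLogPoles E c (θ j))
    (hθ' : ∀ j, IsAlg (θ j)) {mΩ jΩ r : ℕ} (Ω : Fin r → EN N → EN N → EN N → ℂ) (Q : Fin r → MvPolynomial (Fin (N + 1)) ℂ)
    (hΩ : LogForms P H mΩ jΩ Ω Q) (hcov : LineCover P H Q) {t : ℕ} (R : Fin t → MvPolynomial (Fin (N + 1)) ℂ) (hR : NullCurve θ R)
    (hB : NoBdyCurve P E) :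
    ∃ (Q' : MvPolynomial (Fin (N + 1)) ℂ) (D : ℕ), Q'.IsHomogeneous D ∧ Q' ∉ P ∧ ∀ F : ℂ → EN N, Differentiable ℂ F → (∀ z, F z ∈ oc P H) → OrdTwo F →
      (∀ z, eval (F z).ofLp Q' = 0) ∨ ∀ z w, ∃ c : ℂ, F z = c • F w := by
  obtain ⟨n, supp, Pol, ty, hok⟩ := exists_ok hP hz hsm hH h1 hE hc hs hs1 hm θ hθ hΩ hB hR
  obtain ⟨D₁, hR1⟩ := hR.hom
  have hZ : ZeroCover P H Q R := by
    intro x hx hx0 l
    obtain ⟨F, hF, w, t', rfl⟩ := hcov x hx hx0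
    have h3 := line_R hP hH h1 hs hm θ hθ hR hF l w
    show eval (t' • pev F w) (R l) = 0
    rw [Pool.Agent.H17BP.eval_smul_form (hR1 l), h3, mul_zero]
  obtain ⟨D₂, hQ1⟩ := hΩ.hom
  obtain ⟨M', c₀, C, δ, g, hmet⟩ := exists_met (E := E) (c := c) (b := b) hP hz hsm hH h1 hHP hs1 hm θ hΩ hQ1 hR1 hR hZ supp Pol ty
  have S : Base (geoOf P H h E c b θ supp Pol ty mΩ jΩ Ω) _ _ M' c₀ C δ g :=
    ⟨hok, hmet, fun B => exists_qnB hP hz hsm hH h1 hm θ hθ' hR hZ (D₁ + D₂ + h) B⟩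
  set G := geoOf P H h E c b θ supp Pol ty mΩ jΩ Ω with hG
  obtain ⟨𝒬, h𝒬⟩ : ∃ 𝒬 : Set (EN N → ℂ), 𝒬 = {Q' | ∃ (R' : MvPolynomial (Fin (N + 1)) ℂ) (D : ℕ), R'.IsHomogeneous D ∧ R' ∉ P ∧
      Q' = fun x : EN N => eval x.ofLp R'} := ⟨_, rfl⟩
  obtain ⟨Q₁, hQ₁, ⟨rho', M₁, c₁, C₁, δ₁, g₁, hmet₁⟩, hno⟩ := one_form S (𝒬 := 𝒬)
    (by
      rw [h𝒬]
      exact ⟨_, H, h, hH, hHP, rfl⟩)
    (by
      rw [h𝒬]
      rintro _ ⟨R₁, d₁, h1, h2, rfl⟩ _ ⟨R₂, d₂, h3, h4, rfl⟩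
      refine ⟨R₁ * R₂, d₁ + d₂, h1.mul h3, fun hcon => ?_, by funext x; simp⟩
      exact (Ideal.IsPrime.mem_or_mem ‹P.IsPrime› hcon).elim h2 h4)
    (by
      rw [h𝒬]
      rintro _ ⟨R', d, hR', hRP', rfl⟩
      obtain ⟨Q', D, M₂, c₂, C₂, δ₂, g₂, hQ', hQP', hRQ, hRQ', hm2⟩ := exists_met_of_form (E := E) (c := c) (b := b) (mΩ := mΩ) (jΩ := jΩ) (Ω := Ω)
        hP hz hsm hH h1 hHP hgt hs1 hm θ hΩ hR hZ supp Pol ty hR' hRP'
      refine ⟨fun x => eval x.ofLp Q', ⟨Q', D, hQ', hQP', rfl⟩, fun x hx => hRQ x hx, ?_, _, M₂, c₂, C₂, δ₂, g₂, hm2⟩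
      rintro x ⟨hx, hx0⟩
      by_cases hxH : eval x.ofLp H = 0
      · exact (hm2.KT x hx fun hK => hK.2 0 hxH).2
      · refine hRQ' x fun l => ?_
        by_cases h2 : ∀ a, eval x.ofLp (Q a) = 0
        · exact hZ x ⟨hx, fun _ => hxH⟩ h2 l
        · push Not at h2
          obtain ⟨a, ha⟩ := h2
          have h3 := hx0 (l, a)
          unfold eqT at h3
          rw [map_mul, map_mul] at h3
          simpa [hxH, ha] using h3)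
    (by
      rw [h𝒬]
      intro q F ω hF hω hper hg
      obtain ⟨R', D, h3, h4, h5⟩ := periodic_degenerate hP hz hF.ent.diff (fun z => (hF.ent.mem z).1) hω hper hg
      exact ⟨_, ⟨R', D, h3, h4, rfl⟩, h5⟩)
  rw [h𝒬] at hQ₁
  obtain ⟨Q', D, hQ', hQP', rfl⟩ := hQ₁
  refine ⟨Q', D, hQ', hQP', fun F hF hK ho => ?_⟩
  rcases ordTwo_in hok hmet₁ hno hF hK ho with h3 | h3
  · exact Or.inl fun z => (h3 z).2
  · exact Or.inr h3

/-- **Main theorem.** -/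
theorem main (P : Ideal (MvPolynomial (Fin (N + 1)) ℂ)) [P.IsPrime] (hP : Homog P) (hdim : ∃ z : Fin 2 → FunField P, IsTranscendenceBasis ℂ z)
    (hsm : IsSmooth P 2) (H : MvPolynomial (Fin (N + 1)) ℂ) (hH : H.IsHomogeneous h) (h1 : 1 ≤ h) (hHP : H ∉ P)
    (hgt : IsOfLogGeneralType P (fun _ : Fin 1 => H) 2)
    (E : Fin k → Fin (M + 1) → MvPolynomial (Fin (N + 1)) ℂ) (c b : Fin k → ℕ) (hE : ∀ i l, (E i l).IsHomogeneous (c i)) (hc : ∀ i, h + 1 ≤ c i)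
    (hs : Snc P H E b) {s : ℕ} (hs1 : 1 ≤ s) (m : Fin s → ℕ) (hm : ∀ j, 1 ≤ m j) (θ : ∀ j, SymDiff (oc P H) (m j)) (hθ : ∀ j, HasLogPoles E c (θ j))
    (hθ' : ∀ j, IsAlg (θ j)) {mΩ jΩ r : ℕ} (Ω : Fin r → EN N → EN N → EN N → ℂ) (Q : Fin r → MvPolynomial (Fin (N + 1)) ℂ)
    (hΩ : LogForms P H mΩ jΩ Ω Q) (hcov : LineCover P H Q) {t : ℕ} (R : Fin t → MvPolynomial (Fin (N + 1)) ℂ) (hR : NullCurve θ R)
    (hB : NoBdyCurve P E) :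
    IsHyperbolicOpen P (fun _ : Fin 1 => H) := by
  obtain ⟨z, hz⟩ := id hdim
  obtain ⟨Q', D, hQ', hQP', hor⟩ := exists_curve P hP hz hsm H hH h1 hHP hgt E c b hE hc hs hs1 m hm θ hθ hθ' Ω Q hΩ hcov R hR hB
  have hprod : (fun _ : Fin 1 => ∏ i : Fin 1, (fun _ : Fin 1 => H) i) = fun _ : Fin 1 => H := by
    funext i
    simp
  have h3 := four_of_orderTwo (H := fun _ : Fin 1 => H) (e := fun _ => h) hP hz hsm le_rfl (fun _ => hH) (fun _ => h1) (fun _ => hHP)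
    hgt hQ' hQP' hor
  rw [hprod] at h3
  exact hyperbolicOpen_of hP hdim (fun _ => ⟨_, hH⟩) h3.1 h3.2

/-- **Main theorem**, with the condition on the tangent curves in the form of `SDA`. -/
theorem main_few (P : Ideal (MvPolynomial (Fin (N + 1)) ℂ)) [P.IsPrime] (hP : Homog P) (hdim : ∃ z : Fin 2 → FunField P, IsTranscendenceBasis ℂ z)
    (hsm : IsSmooth P 2) (H : MvPolynomial (Fin (N + 1)) ℂ) (hH : H.IsHomogeneous h) (h1 : 1 ≤ h) (hHP : H ∉ P)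
    (hgt : IsOfLogGeneralType P (fun _ : Fin 1 => H) 2)
    (E : Fin k → Fin (M + 1) → MvPolynomial (Fin (N + 1)) ℂ) (c b : Fin k → ℕ) (hE : ∀ i l, (E i l).IsHomogeneous (c i)) (hc : ∀ i, h + 1 ≤ c i)
    (hs : Snc P H E b) {s : ℕ} (hs1 : 1 ≤ s) (m : Fin s → ℕ) (hm : ∀ j, 1 ≤ m j) (θ : ∀ j, SymDiff (oc P H) (m j)) (hθ : ∀ j, HasLogPoles E c (θ j))
    (hθ' : ∀ j, IsAlg (θ j)) {mΩ jΩ r : ℕ} (Ω : Fin r → EN N → EN N → EN N → ℂ) (Q : Fin r → MvPolynomial (Fin (N + 1)) ℂ)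
    (hΩ : LogForms P H mΩ jΩ Ω Q) (hcov : LineCover P H Q) (hB : NoBdyCurve P E) (hf : Pool.Agent.SDA.FewTangent P (fun _ : Fin 1 => H) θ) :
    IsHyperbolicOpen P (fun _ : Fin 1 => H) := by
  obtain ⟨z, hz⟩ := id hdim
  have key : ∀ (R : MvPolynomial (Fin (N + 1)) ℂ) (d : ℕ), R.IsHomogeneous d → R ∉ P →
      (∀ f : ℂ → PN N, HolomorphicInto f Set.univ → OrderTwo f → (∀ z, f z ∈ projVar P ∧ ¬ VanishesAt H (f z)) → (∃ z w, f z ≠ f w) →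
        (∀ j, TangentTo (θ j) f) → ∀ z, VanishesAt R (f z)) → IsHyperbolicOpen P (fun _ : Fin 1 => H) := by
    intro R d hR hRP hnull
    obtain ⟨t, R', hR'⟩ := exists_nullCurve hP hz hsm hH h1 hHP hs1 hm θ hθ' hR hRP hnull
    exact main P hP hdim hsm H hH h1 hHP hgt E c b hE hc hs hs1 m hm θ hθ hθ' Ω Q hΩ hcov R' hR' hB
  rcases hf with ⟨R, d, hR, hRP, h3⟩ | ⟨i, j, h3⟩
  · exact key R d hR hRP fun f hf ho hfU hfn ht => h3 f hf ho (fun z => ⟨(hfU z).1, fun _ => (hfU z).2⟩) hfn ht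
  · obtain ⟨R, d, hR, hRP, h4⟩ := exists_R_alg hP hz hsm hH h1 hHP (hm i) (hm j) (θ i) (θ j) (hθ' i) (hθ' j) h3
    exact key R d hR hRP fun f hf _ hfU hfn ht => h4 f hf hfU hfn (ht i) (ht j)

/-- **Main theorem**, without the condition on the degrees `c i`. -/
theorem main_log (P : Ideal (MvPolynomial (Fin (N + 1)) ℂ)) [P.IsPrime] (hP : Homog P) (hdim : ∃ z : Fin 2 → FunField P, IsTranscendenceBasis ℂ z)
    (hsm : IsSmooth P 2) (H : MvPolynomial (Fin (N + 1)) ℂ) (hH : H.IsHomogeneous h) (h1 : 1 ≤ h) (hHP : H ∉ P)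
    (E : Fin k → Fin (M + 1) → MvPolynomial (Fin (N + 1)) ℂ) (c b : Fin k → ℕ) (hE : ∀ i l, (E i l).IsHomogeneous (c i))
    (hs : Snc P H E b) (hB : NoBdyCurve P E) (hgt : IsOfLogGeneralType P (fun _ : Fin 1 => H) 2)
    {mΩ jΩ r : ℕ} (Ω : Fin r → EN N → EN N → EN N → ℂ) (Q : Fin r → MvPolynomial (Fin (N + 1)) ℂ) (hΩ : LogForms P H mΩ jΩ Ω Q)
    (hcov : LineCover P H Q)
    {s : ℕ} (hs1 : 1 ≤ s) (m : Fin s → ℕ) (hm : ∀ j, 1 ≤ m j) (θ : ∀ j, SymDiff (oc P H) (m j)) (hθ : ∀ j, HasLogPoles E c (θ j))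
    (hθ' : ∀ j, IsAlg (θ j)) (hf : Pool.Agent.SDA.FewTangent P (fun _ : Fin 1 => H) θ) : IsHyperbolicOpen P (fun _ : Fin 1 => H) := by
  obtain ⟨z, hz⟩ := id hdim
  obtain ⟨M', E', c', hE', hc', hs', hB', hθ₁⟩ := exists_big (Pool.Agent.H90.SG.surface_coneE hP hz hsm) (Pool.Agent.AD.isCone_coneE hP) hH hE hs hB θ hθ
  exact main_few P hP hdim hsm H hH h1 hHP hgt E' c' b hE' hc' hs' hs1 m hm θ hθ₁ hθ' Ω Q hΩ hcov hB' hf

end Pool.Agent.SR3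

end
end
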