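import Pool.Agent.H43.TL2.M117
import Pool.Agent.H43.TL2.M122
import Pool.Agent.H43.TL2.M128
import Pool.Agent.H43.TL2.M192
import Pool.Agent.H43.TL2.M198

/-! The parts of this file: MQL.BdNL, MQL.AsmPL. -/

section

/-!
# MQL BdNL: the potentials differ by bounded functions (logarithmic version, port of MQ3/BdN and MQ3/BdPN)
-/

set_option autoImplicit false

open Topology Filter Metric MvPolynomial MeasureTheory Laplacian

noncomputable section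

namespace Pool.Agent.MQL

open Pool.Agent.H36.BP (EN fs)
open Pool.Agent.H14.PP (Tan)
open Pool.Agent.H17BP (Surface IsForm)
open Pool.Agent.H17EF (projVar coneE)
open Pool.Agent.H30M (tau LogSing)
open Pool.Agent.MQ (lam En ztv dvg DDv gr dv)
open Pool.Agent.MQ3

variable {M : ℕ} {P : Ideal (MvPolynomial (Fin (M + 1)) ℂ)} {RD H₀ Ra : MvPolynomial (Fin (M + 1)) ℂ} {m : ℕ} {X : NCModel P RD} {θ : WDiff (coneE P) m}
  {l : LF M} {S : Web X θ l} {Wf : EN M → EN M → EN M → ℂ} {mK jH : ℕ}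

namespace BdNL

/-- the local bound -/
theorem loc (hX : Surface (coneE P)) (hW : LW P H₀ mK jH Wf) {i j : X.ι} {H H' : ℂ × ℂ → ℂ × ℂ → EN 2} {Φ : ℂ × ℂ → ℂ × ℂ}
    {p : ℂ × ℂ} (h : Chg X i j Φ p) (hV : VRel H H' Φ p) :
    ∃ N ∈ 𝓝 p, ∃ B : ℝ, ∀ F : ℂ → EN M, (∀ z, F z ∈ okE P H₀) → ∀ Y : NCLift X F, ∀ z, z ∈ Y.U i → z ∈ Y.U j → Y.p i z ∈ N →
      |eN H Wf mK jH Y i z - eN H' Wf mK jH Y j z| ≤ B := by
  have hm := hW.one_m
  obtain ⟨A, A', hA, hA', hrel⟩ := hV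
  have hJ := Pool.Agent.MQ3.jc_an h.an
  have hJ0 := BdN.jc_ne h.det
  have hJc : ContinuousAt (fun x => Real.log ‖jc Φ x‖) p := hJ.continuousAt.norm.log (norm_ne_zero_iff.2 hJ0)
  refine ⟨_, (BdN.Chg.ev h).and (hrel.and ((hA.continuousAt.norm.eventually_lt_const (lt_add_one ‖A p‖)).and
    ((hA'.continuousAt.norm.eventually_lt_const (lt_add_one ‖A' p‖)).and ((hJ.continuousAt.eventually_ne hJ0).and
      (hJc.abs.eventually_lt_const (lt_add_one |Real.log ‖jc Φ p‖|)))))),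
    Real.log (‖A p‖ + 1) + Real.log (‖A' p‖ + 1) + (|Real.log ‖jc Φ p‖| + 1), ?_⟩
  rintro F hF Y z hi hj ⟨h1, h2, h3, h4, h5, h6⟩
  have h0 := BdN.p_eq Y hi hj h1
  have hw := wt_chgK hX (okE_open hX hW.hom) hW.form hF Y hi h1
  have hwz := hw.self_of_nhds.2
  have hd : deriv (Y.p j) z = fderiv ℂ Φ (Y.p i z) (deriv (Y.p i) z) := by
    rw [EventuallyEq.deriv_eq (show Y.p j =ᶠ[𝓝 z] fun w => Φ (Y.p i w) from hw.mono fun w hw => hw.1)]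
    exact (h1.an.differentiableAt.hasFDerivAt.comp_hasDerivAt z (Y.an i z hi).differentiableAt.hasDerivAt).deriv
  have e1 := (h2 (deriv (Y.p i) z)).1
  have e2 := (h2 (deriv (Y.p i) z)).2
  rw [h0, ← hd] at e1 e2
  unfold eN eH
  set a := H (Y.p i z) (deriv (Y.p i) z)
  set b := H' (Y.p j z) (deriv (Y.p j) z)
  have k1 : |Real.log ‖a‖ - Real.log ‖b‖| ≤ Real.log (‖A p‖ + 1) + Real.log (‖A' p‖ + 1) := by
    refine BdN.log_bd (norm_nonneg _) (norm_nonneg _) (by linarith [norm_nonneg (A p)]) (by linarith [norm_nonneg (A' p)]) ?_ ?_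
    · rw [e1]
      exact ((A _).le_opNorm _).trans (mul_le_mul_of_nonneg_right h3.le (norm_nonneg _))
    · rw [e2]
      exact ((A' _).le_opNorm _).trans (mul_le_mul_of_nonneg_right h4.le (norm_nonneg _))
  have k2 : |1 / mK * Real.log ‖wt Wf Y i z‖ - 1 / mK * Real.log ‖wt Wf Y j z‖| ≤ |Real.log ‖jc Φ p‖| + 1 := by
    rw [hwz]
    by_cases h7 : wt Wf Y j z = 0
    · rw [h7, mul_zero, sub_self, abs_zero]
      positivity
    · have hmK : (mK : ℝ) ≠ 0 := by positivity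
      rw [norm_mul, norm_pow, Real.log_mul (pow_ne_zero _ (norm_ne_zero_iff.2 h5)) (norm_ne_zero_iff.2 h7), Real.log_pow]
      have h8 : 1 / (mK : ℝ) * (mK * Real.log ‖jc Φ (Y.p i z)‖ + Real.log ‖wt Wf Y j z‖) - 1 / mK * Real.log ‖wt Wf Y j z‖ =
          Real.log ‖jc Φ (Y.p i z)‖ := by
        field_simp
        ring
      rw [h8]
      exact h6.le
  have k3 : Real.log ‖a‖ + 1 / mK * Real.log ‖wt Wf Y i z‖ + jH / mK * Real.log ‖F z‖ -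
      (Real.log ‖b‖ + 1 / mK * Real.log ‖wt Wf Y j z‖ + jH / mK * Real.log ‖F z‖) =
      (Real.log ‖a‖ - Real.log ‖b‖) + (1 / mK * Real.log ‖wt Wf Y i z‖ - 1 / mK * Real.log ‖wt Wf Y j z‖) := by ring
  rw [k3]
  exact (abs_add_le _ _).trans (add_le_add k1 k2)

/-- the local bound for a pair of chart points -/
theorem pair (hX : Surface (coneE P)) (hW : LW P H₀ mK jH Wf)
    {dD dR : ℕ} (hd : RD.IsHomogeneous dD) (hdR : Ra.IsHomogeneous dR) (C : Cov S Ra) {g : Fin C.nP → ℂ × ℂ → ℂ} (hg : PG C g) (j : Fin C.nP)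
    (k : Fin C.nN) (a : (S.V (C.b k)).ι) {q q' : ℂ × ℂ} (hq : q ∈ closedBall (C.Q j) (C.r j)) (hqQ : q ≠ C.Q j) (hq' : q' ∈ C.K k a) :
    ∃ N ∈ 𝓝 (q, q'), ∃ B : ℝ, ∀ F : ℂ → EN M, LCrv θ RD H₀ Ra F → ∀ Y : NCLift X F, ∀ z, z ∈ S.Om Y (C.ck j) → z ∈ S.Om Y ⟨C.b k, a⟩ →
      (S.lf Y (C.ck j) z, S.lf Y ⟨C.b k, a⟩ z) ∈ N → (∀ᶠ w in 𝓝[≠] z, g j (S.lf Y (C.ck j) w) ≠ 0) →
        ∀ᶠ w in 𝓝[≠] z, |eP S (g j) Wf mK jH Y (C.ck j) w - eN (C.H k) Wf mK jH Y (C.b k) w| ≤ B := by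
  have hqD : q ∈ S.D (C.ck j) := C.P_sub j hq
  have hq'D : q' ∈ S.D ⟨C.b k, a⟩ := by
    rcases hu : C.u k with _ | u'
    · exact (C.K_A k a hu q' hq').1.mem
    · rcases (C.K_B k a u' hu q' hq').1 with h | h
      · exact h.mem
      · exact h.mem
  have hκ : Continuous fun x : (ℂ × ℂ) × (ℂ × ℂ) => (S.κ (C.ck j) x.1, S.κ ⟨C.b k, a⟩ x.2) :=
    ((BdN.κ_cont S (C.ck j)).comp continuous_fst).prodMk ((BdN.κ_cont S ⟨C.b k, a⟩).comp continuous_snd)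
  by_cases hr : X.rel (C.ck j).1 (S.κ (C.ck j) q) (C.b k) (S.κ ⟨C.b k, a⟩ q')
  · obtain ⟨Φ, h1, h2, h3, h4, h5⟩ := X.iso _ _ _ hqD.2 _ hq'D.2 hr
    have hΦ : Chg X (C.ck j).1 (C.b k) Φ (S.κ (C.ck j) q) := ⟨hqD.2, by rw [h2]; exact hq'D.2, h1, h3, h4, h5⟩
    obtain ⟨H, hH, hV, L, hL, hL0, hHL⟩ := BdPN.vec hd hdR C hg j k a hq hqQ hq' hΦ h2
    obtain ⟨N₁, hN₁, B₁, hB₁⟩ := loc hX hW hΦ hV
    obtain ⟨N₂, hN₂, B₂, hB₂⟩ := BdPN.chart Wf mK jH hH hL hL0 hHL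
    have hN₁' : ∀ᶠ x in 𝓝 q, N₁ ∈ 𝓝 (S.κ (C.ck j) x) :=
      (BdN.κ_cont S (C.ck j)).continuousAt.eventually (eventually_mem_nhds_iff.2 hN₁)
    refine ⟨(N₂ ∩ {x | N₁ ∈ 𝓝 (S.κ (C.ck j) x)}) ×ˢ Set.univ, prod_mem_nhds (inter_mem hN₂ hN₁') univ_mem, B₂ + B₁, ?_⟩
    rintro F hF Y z hz hz' ⟨⟨hzN₂, hzN₁⟩, -⟩ hgn
    have hzU : z ∈ Y.U (C.ck j).1 := Om_sub hF.toWCrv Y (C.ck j) hz
    have hzU' : z ∈ Y.U (C.b k) := Om_sub hF.toWCrv Y ⟨C.b k, a⟩ hz'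
    have hpz : S.κ (C.ck j) (S.lf Y (C.ck j) z) = Y.p (C.ck j).1 z := (lfN_mem hF.toWCrv Y (C.ck j) z hz).2
    have hzN : N₁ ∈ 𝓝 (Y.p (C.ck j).1 z) := by
      rw [← hpz]
      exact hzN₁
    have hU₁ : ∀ᶠ w in 𝓝 z, w ∈ Y.U (C.ck j).1 := (Y.isOpen _).mem_nhds hzU
    have hU₂ : ∀ᶠ w in 𝓝 z, w ∈ Y.U (C.b k) := (Y.isOpen _).mem_nhds hzU'
    filter_upwards [hB₂ F hF.toWCrv Y z hz hzN₂ hgn, ((Y.an _ z hzU).continuousAt.eventually hzN).filter_mono nhdsWithin_le_nhds,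
      hU₁.filter_mono nhdsWithin_le_nhds, hU₂.filter_mono nhdsWithin_le_nhds] with w w1 w2 w3 w4
    have w5 := hB₁ F (fun z => ⟨hF.mem z, hF.avoid z⟩) Y w w3 w4 w2
    exact (abs_sub_le _ _ _).trans (add_le_add w1 w5)
  · refine ⟨_, hκ.continuousAt.eventually (X.sep _ _ _ hqD.2 _ hq'D.2 hr), 0, ?_⟩
    intro F hF Y z hz hz' hzN
    exfalso
    have hzU : z ∈ Y.U (C.ck j).1 := Om_sub hF.toWCrv Y (C.ck j) hz
    have hzU' : z ∈ Y.U (C.b k) := Om_sub hF.toWCrv Y ⟨C.b k, a⟩ hz'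
    have e1 : S.κ (C.ck j) (S.lf Y (C.ck j) z) = Y.p (C.ck j).1 z := (lfN_mem hF.toWCrv Y (C.ck j) z hz).2
    have e2 : S.κ ⟨C.b k, a⟩ (S.lf Y ⟨C.b k, a⟩ z) = Y.p (C.b k) z := (lfN_mem hF.toWCrv Y ⟨C.b k, a⟩ z hz').2
    have hzN' : ¬ X.rel (C.ck j).1 (S.κ (C.ck j) (S.lf Y (C.ck j) z)) (C.b k) (S.κ ⟨C.b k, a⟩ (S.lf Y ⟨C.b k, a⟩ z)) := hzN
    rw [e1, e2] at hzN'
    exact hzN' (Y.rel _ _ z hzU hzU')

end BdNL

theorem bd_NN (hX : Surface (coneE P)) (hW : LW P H₀ mK jH Wf) (C : Cov S Ra) (k k' : Fin C.nN) :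
    ∃ B : ℝ, ∀ F : ℂ → EN M, LCrv θ RD H₀ Ra F → ∀ Y : NCLift X F, WNe Wf Y → ∀ z ∈ C.UN Y k, z ∈ C.UN Y k' →
      ContDiffAt ℝ 2 (eN (C.H k) Wf mK jH Y (C.b k)) z → ContDiffAt ℝ 2 (eN (C.H k') Wf mK jH Y (C.b k')) z →
        |eN (C.H k) Wf mK jH Y (C.b k) z - eN (C.H k') Wf mK jH Y (C.b k') z| ≤ B := by
  classical
  by_cases hex : ∃ F : ℂ → EN M, LCrv θ RD H₀ Ra F
  swap
  · exact ⟨0, fun F hF => absurd ⟨F, hF⟩ hex⟩
  obtain ⟨F₀, hF₀⟩ := hex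
  have hd := hF₀.hom
  have hdR := hF₀.homR
  have main : ∀ (a : (S.V (C.b k)).ι) (a' : (S.V (C.b k')).ι), ∃ B : ℝ, ∀ F : ℂ → EN M, LCrv θ RD H₀ Ra F → ∀ Y : NCLift X F, ∀ z, z ∈ Y.U (C.b k) →
      z ∈ Y.U (C.b k') → z ∈ S.Om Y ⟨C.b k, a⟩ → z ∈ S.Om Y ⟨C.b k', a'⟩ →
      (S.lf Y ⟨C.b k, a⟩ z, S.lf Y ⟨C.b k', a'⟩ z) ∈ C.K k a ×ˢ C.K k' a' →
        |eN (C.H k) Wf mK jH Y (C.b k) z - eN (C.H k') Wf mK jH Y (C.b k') z| ≤ B := by
    intro a a'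
    refine ((C.K_compact k a).prod (C.K_compact k' a')).induction_on (p := fun s => ∃ B : ℝ, ∀ F : ℂ → EN M, LCrv θ RD H₀ Ra F → ∀ Y : NCLift X F, ∀ z,
      z ∈ Y.U (C.b k) → z ∈ Y.U (C.b k') → z ∈ S.Om Y ⟨C.b k, a⟩ → z ∈ S.Om Y ⟨C.b k', a'⟩ →
      (S.lf Y ⟨C.b k, a⟩ z, S.lf Y ⟨C.b k', a'⟩ z) ∈ s → |eN (C.H k) Wf mK jH Y (C.b k) z - eN (C.H k') Wf mK jH Y (C.b k') z| ≤ B) ?_ ?_ ?_ ?_
    · exact ⟨0, fun F _ Y z _ _ _ _ h => absurd h (Set.notMem_empty _)⟩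
    · rintro s t hst ⟨B, hB⟩
      exact ⟨B, fun F hF Y z h1 h2 h3 h4 h5 => hB F hF Y z h1 h2 h3 h4 (hst h5)⟩
    · rintro s t ⟨B, hB⟩ ⟨B', hB'⟩
      refine ⟨max B B', fun F hF Y z h1 h2 h3 h4 h5 => ?_⟩
      rcases h5 with h5 | h5
      · exact (hB F hF Y z h1 h2 h3 h4 h5).trans (le_max_left _ _)
      · exact (hB' F hF Y z h1 h2 h3 h4 h5).trans (le_max_right _ _)
    · rintro ⟨q, q'⟩ ⟨hq, hq'⟩
      have hq : q ∈ C.K k a := hq
      have hq' : q' ∈ C.K k' a' := hq'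
      have hmem : ∀ (k : Fin C.nN) (a : (S.V (C.b k)).ι), ∀ q ∈ C.K k a, S.κ ⟨C.b k, a⟩ q ∈ X.B (C.b k) := by
        intro k a q hq
        rcases hu : C.u k with _ | u
        · exact C.N_sub k (C.K_A k a hu q hq).2
        · exact C.N_sub k (C.K_B k a u hu q hq).2
      have hp := hmem k a q hq
      have hp' := hmem k' a' q' hq'
      have hc1 : Tendsto (fun x : (ℂ × ℂ) × (ℂ × ℂ) => S.κ ⟨C.b k, a⟩ x.1) (𝓝 (q, q')) (𝓝 (S.κ ⟨C.b k, a⟩ q)) :=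
        ((BdN.κ_cont S ⟨C.b k, a⟩).comp continuous_fst).tendsto (q, q')
      have hc2 : Tendsto (fun x : (ℂ × ℂ) × (ℂ × ℂ) => S.κ ⟨C.b k', a'⟩ x.2) (𝓝 (q, q')) (𝓝 (S.κ ⟨C.b k', a'⟩ q')) :=
        ((BdN.κ_cont S ⟨C.b k', a'⟩).comp continuous_snd).tendsto (q, q')
      by_cases hrel : X.rel (C.b k) (S.κ ⟨C.b k, a⟩ q) (C.b k') (S.κ ⟨C.b k', a'⟩ q')
      · obtain ⟨Φ, h1, h2, h3, h4, h5⟩ := X.iso _ _ _ hp _ hp' hrel
        have hch : Chg X (C.b k) (C.b k') Φ (S.κ ⟨C.b k, a⟩ q) := ⟨hp, by rw [h2]; exact hp', h1, h3, h4, h5⟩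
        obtain ⟨N, hN, B, hB⟩ := BdNL.loc hX hW hch (BdN.vrel hd hdR C k k' hq hq' hch h2)
        refine ⟨_, mem_nhdsWithin_of_mem_nhds (hc1 hN), B, fun F hF Y z i1 i2 i3 i4 i5 => hB F (fun z => ⟨hF.mem z, hF.avoid z⟩) Y z i1 i2 ?_⟩
        have h6 := (lfN_mem hF.toWCrv Y ⟨C.b k, a⟩ z i3).2
        have h7 : S.κ ⟨C.b k, a⟩ (S.lf Y ⟨C.b k, a⟩ z) ∈ N := i5
        rwa [h6] at h7
      · have h1 : ∀ᶠ x in 𝓝 (q, q'), ¬ X.rel (C.b k) (S.κ ⟨C.b k, a⟩ x.1) (C.b k') (S.κ ⟨C.b k', a'⟩ x.2) :=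
          (hc1.prodMk_nhds hc2).eventually (X.sep _ _ _ hp _ hp' hrel)
        refine ⟨_, mem_nhdsWithin_of_mem_nhds h1, 0, fun F hF Y z i1 i2 i3 i4 i5 => ?_⟩
        exfalso
        have h6 := (lfN_mem hF.toWCrv Y ⟨C.b k, a⟩ z i3).2
        have h7 := (lfN_mem hF.toWCrv Y ⟨C.b k', a'⟩ z i4).2
        have h8 : ¬ X.rel (C.b k) (S.κ ⟨C.b k, a⟩ (S.lf Y ⟨C.b k, a⟩ z)) (C.b k') (S.κ ⟨C.b k', a'⟩ (S.lf Y ⟨C.b k', a'⟩ z)) := i5
        rw [h6, h7] at h8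
        exact h8 (Y.rel _ _ z i1 i2)
  choose B hB using main
  refine ⟨∑ a, ∑ a', |B a a'|, fun F hF Y _ z hz hz' _ _ => ?_⟩
  have hlift : ∀ k, z ∈ C.UN Y k → ∃ a, z ∈ S.Om Y ⟨C.b k, a⟩ ∧ S.lf Y ⟨C.b k, a⟩ z ∈ C.K k a := by
    rintro k ⟨h1, h2, h3⟩
    refine C.lift F hF.toWCrv Y k z h1 (ball_subset_closedBall h2) fun j hj hj' => h3 j ⟨hj, ball_subset_closedBall hj'⟩
  obtain ⟨a, ha, ha'⟩ := hlift k hz
  obtain ⟨a₁, hb, hb'⟩ := hlift k' hz'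
  refine (hB a a₁ F hF Y z hz.1 hz'.1 ha hb ⟨ha', hb'⟩).trans ((le_abs_self _).trans ?_)
  calc |B a a₁| ≤ ∑ a', |B a a'| := Finset.single_le_sum (f := fun a' => |B a a'|) (fun _ _ => abs_nonneg _) (Finset.mem_univ a₁)
    _ ≤ ∑ a, ∑ a', |B a a'| := Finset.single_le_sum (f := fun a => ∑ a', |B a a'|) (fun _ _ => Finset.sum_nonneg fun _ _ => abs_nonneg _) (Finset.mem_univ a)

theorem bd_PN (hX : Surface (coneE P)) (hW : LW P H₀ mK jH Wf) (C : Cov S Ra)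
    {g : Fin C.nP → ℂ × ℂ → ℂ} (hg : PG C g) (j : Fin C.nP) (k : Fin C.nN) {r' : ℝ} (hr' : r' < C.r j) :
    ∃ B : ℝ, ∀ F : ℂ → EN M, LCrv θ RD H₀ Ra F → ∀ Y : NCLift X F, WNe Wf Y → ∀ z ∈ C.UP Y j, z ∈ C.UN Y k →
      S.lf Y (C.ck j) z ∈ closedBall (C.Q j) r' →
      ContDiffAt ℝ 2 (eP S (g j) Wf mK jH Y (C.ck j)) z → ContDiffAt ℝ 2 (eN (C.H k) Wf mK jH Y (C.b k)) z →
        |eP S (g j) Wf mK jH Y (C.ck j) z - eN (C.H k) Wf mK jH Y (C.b k) z| ≤ B := by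
  classical
  by_cases hex : ∃ F : ℂ → EN M, LCrv θ RD H₀ Ra F
  · obtain ⟨F₀, hF₀⟩ := hex
    obtain ⟨dD, hd⟩ := hF₀.hom
    obtain ⟨dR, hdR⟩ := hF₀.homR
    -- compactness
    have hcomp : ∀ a : (S.V (C.b k)).ι, ∃ B : ℝ, ∀ F : ℂ → EN M, LCrv θ RD H₀ Ra F → ∀ Y : NCLift X F, ∀ z, z ∈ S.Om Y (C.ck j) → z ∈ S.Om Y ⟨C.b k, a⟩ →
        (S.lf Y (C.ck j) z, S.lf Y ⟨C.b k, a⟩ z) ∈ (closedBall (C.Q j) r' \ ball (C.Q j) (C.s j)) ×ˢ C.K k a →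
        (∀ᶠ w in 𝓝[≠] z, g j (S.lf Y (C.ck j) w) ≠ 0) →
          ∀ᶠ w in 𝓝[≠] z, |eP S (g j) Wf mK jH Y (C.ck j) w - eN (C.H k) Wf mK jH Y (C.b k) w| ≤ B := by
      intro a
      have hc : IsCompact ((closedBall (C.Q j) r' \ ball (C.Q j) (C.s j)) ×ˢ C.K k a) :=
        ((isCompact_closedBall _ _).diff isOpen_ball).prod (C.K_compact k a)
      refine hc.induction_on (p := fun s => ∃ B : ℝ, ∀ F : ℂ → EN M, LCrv θ RD H₀ Ra F → ∀ Y : NCLift X F, ∀ z, z ∈ S.Om Y (C.ck j) → z ∈ S.Om Y ⟨C.b k, a⟩ →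
        (S.lf Y (C.ck j) z, S.lf Y ⟨C.b k, a⟩ z) ∈ s → (∀ᶠ w in 𝓝[≠] z, g j (S.lf Y (C.ck j) w) ≠ 0) →
          ∀ᶠ w in 𝓝[≠] z, |eP S (g j) Wf mK jH Y (C.ck j) w - eN (C.H k) Wf mK jH Y (C.b k) w| ≤ B) ?_ ?_ ?_ ?_
      · exact ⟨0, fun F hF Y z hz hz' h => absurd h (Set.notMem_empty _)⟩
      · rintro s t hst ⟨B, hB⟩
        exact ⟨B, fun F hF Y z hz hz' h => hB F hF Y z hz hz' (hst h)⟩
      · rintro s t ⟨B, hB⟩ ⟨B', hB'⟩
        refine ⟨max B B', fun F hF Y z hz hz' h hgn => ?_⟩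
        rcases h with h | h
        · exact (hB F hF Y z hz hz' h hgn).mono fun w hw => hw.trans (le_max_left _ _)
        · exact (hB' F hF Y z hz hz' h hgn).mono fun w hw => hw.trans (le_max_right _ _)
      · rintro ⟨q, q'⟩ ⟨⟨h1, h2⟩, h3⟩
        have h4 : q ∈ closedBall (C.Q j) (C.r j) := closedBall_subset_closedBall hr'.le h1
        have h5 : q ≠ C.Q j := by
          rintro rfl
          exact h2 (mem_ball_self (C.s_pos j))
        obtain ⟨N, hN, B, hB⟩ := BdNL.pair hX hW hd hdR C hg j k a h4 h5 h3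
        exact ⟨N, mem_nhdsWithin_of_mem_nhds hN, B, hB⟩
    choose B hB using hcomp
    refine ⟨∑ a, |B a|, fun F hF Y hne z hzP hzN hzr hcP hcN => ?_⟩
    obtain ⟨hzO, hzb⟩ := hzP
    obtain ⟨hzU, hzt, hzc⟩ := hzN
    obtain ⟨a, ha, ha'⟩ := C.lift F hF.toWCrv Y k z hzU (ball_subset_closedBall hzt) (fun i hi hi' => hzc i ⟨hi, ball_subset_closedBall hi'⟩)
    have hnb : S.lf Y (C.ck j) z ∉ ball (C.Q j) (C.s j) := fun h => hzc j ⟨hzO, ball_subset_closedBall h⟩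
    have hgn := g_ne C hg j hF.toRCrv Y z ⟨hzO, hzb⟩
    have h1 := hB a F hF Y z hzO ha ⟨⟨hzr, hnb⟩, ha'⟩ hgn
    have h2 : Tendsto (fun w => |eP S (g j) Wf mK jH Y (C.ck j) w - eN (C.H k) Wf mK jH Y (C.b k) w|) (𝓝[≠] z)
        (𝓝 |eP S (g j) Wf mK jH Y (C.ck j) z - eN (C.H k) Wf mK jH Y (C.b k) z|) :=
      ((hcP.continuousAt.sub hcN.continuousAt).abs).tendsto.mono_left nhdsWithin_le_nhds
    have h3 := le_of_tendsto h2 h1
    exact h3.trans ((le_abs_self _).trans (Finset.single_le_sum (f := fun a => |B a|) (fun _ _ => abs_nonneg _) (Finset.mem_univ a)))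
  · exact ⟨0, fun F hF => absurd ⟨F, hF⟩ hex⟩

end Pool.Agent.MQL

end
end

section

/-!
# MQL AsmPL: the patch of a special point, on the part of the curve in the polydisc of radius `s' < r`

The potential is `eP + Φ`, the field is the `η` of the package; outside the core it is `conj DD`.  The weight has poles: `hup` is its upper bound by the Jacobian
factor `JD al be` of the package.
-/

set_option autoImplicit false

open Topology Filter Metric MvPolynomial MeasureTheory Laplacian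

noncomputable section

namespace Pool.Agent.MQL

open Pool.Agent.H36.BP (EN fs)
open Pool.Agent.H14.PP (Tan)
open Pool.Agent.H17BP (Surface IsForm)
open Pool.Agent.H17EF (projVar coneE)
open Pool.Agent.H30M (tau LogSing)
open Pool.Agent.MQ (lam En ztv dvg DDv gr dv)
open Pool.Agent.MQ2 (LocX)
open Pool.Agent.MQ3

variable {M : ℕ} {P : Ideal (MvPolynomial (Fin (M + 1)) ℂ)} {RD H₀ Ra : MvPolynomial (Fin (M + 1)) ℂ} {m : ℕ} {X : NCModel P RD} {θ : WDiff (coneE P) m}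
  {l : LF M} {S : Web X θ l} {Wf : EN M → EN M → EN M → ℂ} {mK jH : ℕ}

/-! ## translations -/

private theorem asmPL_ztv (v : ℂ × ℂ → ℂ × ℂ) (Q : ℂ × ℂ) (p : ℂ → ℂ × ℂ) (z : ℂ) :
    ztv (fun x => v (Q + x)) (fun w => p w - Q) z = ztv v p z := by
  classical
  unfold ztv
  have h1 : deriv (fun w => p w - Q) z = deriv p z := deriv_sub_const _
  have h2 : Q + (p z - Q) = p z := add_sub_cancel _ _
  simp only [h1, h2]

private theorem asmPL_DDv (v : ℂ × ℂ → ℂ × ℂ) (g : ℂ × ℂ → ℂ) (Q : ℂ × ℂ) (p : ℂ → ℂ × ℂ) (z : ℂ) :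
    DDv (fun x => v (Q + x)) (fun x => g (Q + x)) (fun w => p w - Q) z = DDv v g p z := by
  unfold DDv
  rw [asmPL_ztv]
  have h2 : ∀ w, Q + (p w - Q) = p w := fun w => add_sub_cancel _ _
  have h3 : dvg (fun x => v (Q + x)) (p z - Q) = dvg v (p z) := by
    unfold dvg
    rw [fderiv_comp_add_left, h2]
  simp only [h2, h3]

/-! ## the bound of the field at regular points -/

private theorem asmPL_dvg {v : ℂ × ℂ → ℂ × ℂ} {x : ℂ × ℂ} (hv : AnalyticAt ℂ v x) : AnalyticAt ℂ (dvg v) x := by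
  have h1 : ∀ e : ℂ × ℂ, AnalyticAt ℂ (fun Q => fderiv ℂ v Q e) x := fun e =>
    ((ContinuousLinearMap.apply ℂ (ℂ × ℂ) e).analyticAt _).comp hv.fderiv
  exact (analyticAt_fst.comp (h1 (1, 0))).add (analyticAt_snd.comp (h1 (0, 1)))

/-- near a point where `v` is not zero -/
private theorem asmPL_loc {v : ℂ × ℂ → ℂ × ℂ} {g c : ℂ × ℂ → ℂ} {x : ℂ × ℂ} (hv : AnalyticAt ℂ v x) (h0 : v x ≠ 0) (hg : AnalyticAt ℂ g x)
    (hc : AnalyticAt ℂ c x) (hcof : ∀ᶠ y in 𝓝 x, fderiv ℂ g y (v y) = c y * g y) :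
    ∃ N ∈ 𝓝 x, ∃ B : ℝ, 0 ≤ B ∧ ∀ (p : ℂ → ℂ × ℂ) (z : ℂ), AnalyticAt ℂ p z → p z ∈ N →
      (∀ᶠ w in 𝓝 z, (v (p w)).1 * (deriv p w).2 - (v (p w)).2 * (deriv p w).1 = 0) → (∃ᶠ w in 𝓝 z, g (p w) ≠ 0) →
        ‖DDv v g p z‖ ≤ B * ‖deriv p z‖ := by
  have hb : 0 < ‖v x‖ := norm_pos_iff.2 h0
  set b : ℝ := ‖v x‖ / 2 with hbdef
  have hb2 : 0 < b := by positivity
  set K : ℝ := ‖dvg v x - c x‖ + 1 with hK
  have hK0 : 0 < K := by positivity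
  have e1 : ∀ᶠ y in 𝓝 x, b < ‖v y‖ := hv.continuousAt.norm.eventually (lt_mem_nhds (by linarith))
  have e2 : ∀ᶠ y in 𝓝 x, ‖dvg v y - c y‖ < K := ((asmPL_dvg hv).sub hc).continuousAt.norm.eventually (gt_mem_nhds (by rw [hK]; simp))
  refine ⟨_, (hv.eventually_analyticAt.and (hg.eventually_analyticAt.and (hc.eventually_analyticAt.and
    (hcof.eventually_nhds.and (e1.and e2))))), K / b, by positivity, ?_⟩
  intro p z hp hpz hode hgn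
  obtain ⟨hv', hg', hc', hcof', hb', hK'⟩ := hpz
  have hv0 : v (p z) ≠ 0 := norm_pos_iff.1 (hb2.trans hb')
  have hvp : AnalyticAt ℂ (fun w => v (p w)) z := AnalyticAt.fun_comp (g := v) (f := p) hv' hp
  have hne : ∀ᶠ w in 𝓝 z, v (p w) ≠ 0 := hvp.continuousAt.eventually_ne hv0
  have hga : AnalyticAt ℂ (fun w => g (p w)) z := AnalyticAt.fun_comp (g := g) (f := p) hg' hp
  have hca : AnalyticAt ℂ (fun w => c (p w)) z := AnalyticAt.fun_comp (g := c) (f := p) hc' hp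
  have hzt : AnalyticAt ℂ (ztv v p) z := ztv_an hp hv' hode hv0
  have hd : ∀ᶠ w in 𝓝 z, deriv (fun w => g (p w)) w = (ztv v p w * c (p w)) * g (p w) := by
    filter_upwards [hode, hne, hp.eventually_analyticAt, hp.continuousAt.eventually hg'.eventually_analyticAt,
      hp.continuousAt.eventually hcof'] with w a1 a2 a3 a4 a5
    have a6 : deriv (fun w => g (p w)) w = fderiv ℂ g (p w) (deriv p w) :=
      (a4.differentiableAt.hasFDerivAt.comp_hasDerivAt w a3.differentiableAt.hasDerivAt).deriv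
    rw [a6, ztv_smul a1 a2, map_smul, a5, smul_eq_mul]
    ring
  have hg0 : g (p z) ≠ 0 := by
    intro h1
    obtain ⟨w, h2, h3⟩ := (hgn.and_eventually (Pool.Agent.MQ2.RegE.eventually_zero_of_ode hga (hzt.mul hca) hd h1)).exists
    exact h2 h3
  have h1 : DDv v g p z = (dvg v (p z) - c (p z)) * ztv v p z := by
    unfold DDv
    rw [hd.self_of_nhds, mul_div_assoc, div_self hg0]
    ring
  have h2 : ‖ztv v p z‖ * b ≤ ‖deriv p z‖ := by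
    rw [ztv_smul hode.self_of_nhds hv0, norm_smul]
    exact mul_le_mul_of_nonneg_left hb'.le (norm_nonneg _)
  rw [h1, norm_mul]
  calc ‖dvg v (p z) - c (p z)‖ * ‖ztv v p z‖ ≤ K * ‖ztv v p z‖ := mul_le_mul_of_nonneg_right hK'.le (norm_nonneg _)
    _ ≤ K * (‖deriv p z‖ / b) := mul_le_mul_of_nonneg_left (by rw [le_div_iff₀ hb2]; exact h2) hK0.le
    _ = K / b * ‖deriv p z‖ := by ring

/-- outside the core, in the polydisc of radius `s'` -/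
private theorem asmPL_dd (C : Cov S Ra) {g : Fin C.nP → ℂ × ℂ → ℂ} (hg : PG C g) (j : Fin C.nP) {s' : ℝ} (hs' : s' < C.r j) :
    ∃ B : ℝ, 0 ≤ B ∧ ∀ F : ℂ → EN M, RCrv θ RD Ra F → ∀ Y : NCLift X F, ∀ z ∈ C.UP Y j, C.pj Y j z ∉ ball (0 : ℂ × ℂ) (C.s j) →
      C.pj Y j z ∈ closedBall (0 : ℂ × ℂ) s' → ‖DDv (S.v (C.ck j)) (g j) (S.lf Y (C.ck j)) z‖ ≤ B * ‖deriv (S.lf Y (C.ck j)) z‖ := by
  have hK : IsCompact (closedBall (C.Q j) s' \ ball (C.Q j) (C.s j)) := (isCompact_closedBall _ _).diff isOpen_ball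
  have hloc : ∀ x ∈ closedBall (C.Q j) s' \ ball (C.Q j) (C.s j), ∃ N ∈ 𝓝 x, ∃ B : ℝ, 0 ≤ B ∧ ∀ (p : ℂ → ℂ × ℂ) (z : ℂ), AnalyticAt ℂ p z → p z ∈ N →
      (∀ᶠ w in 𝓝 z, (S.v (C.ck j) (p w)).1 * (deriv p w).2 - (S.v (C.ck j) (p w)).2 * (deriv p w).1 = 0) → (∃ᶠ w in 𝓝 z, g j (p w) ≠ 0) →
        ‖DDv (S.v (C.ck j)) (g j) p z‖ ≤ B * ‖deriv p z‖ := by
    rintro x ⟨hx1, hx2⟩
    have hxQ : x ≠ C.Q j := by
      rintro rfl
      exact hx2 (mem_ball_self (C.s_pos j))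
    have hxr : x ∈ closedBall (C.Q j) (C.r j) := closedBall_subset_closedBall hs'.le hx1
    obtain ⟨hga, -, ⟨c, hc, hcof⟩, -⟩ := hg.inv j x hxr hxQ
    have hv0 : S.v (C.ck j) x ≠ 0 := (C.P_reg j x hxr hxQ).elim (fun h => h.v_ne) fun h => h.v_ne
    exact asmPL_loc ((S.c (C.ck j)).v_an _ (C.P_sub j hxr).1) hv0 hga hc hcof
  choose! N hN B hB0 hB using hloc
  obtain ⟨t, ht, htc⟩ := hK.elim_nhds_subcover N hN
  refine ⟨∑ x ∈ t, B x, Finset.sum_nonneg fun x hx => hB0 x (ht x hx), fun F hF Y z hz h1 h2 => ?_⟩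
  have hmem : S.lf Y (C.ck j) z ∈ closedBall (C.Q j) s' \ ball (C.Q j) (C.s j) := by
    refine ⟨?_, fun h3 => h1 ?_⟩
    · rw [mem_closedBall, dist_eq_norm]
      rw [mem_closedBall_zero_iff] at h2
      exact h2
    · rw [mem_ball, dist_eq_norm] at h3
      rw [mem_ball_zero_iff]
      exact h3
  obtain ⟨x, hx, hxN⟩ := Set.mem_iUnion₂.1 (htc hmem)
  have hode : ∀ᶠ w in 𝓝 z, (S.v (C.ck j) (S.lf Y (C.ck j) w)).1 * (deriv (S.lf Y (C.ck j)) w).2 -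
      (S.v (C.ck j) (S.lf Y (C.ck j) w)).2 * (deriv (S.lf Y (C.ck j)) w).1 = 0 := by
    filter_upwards [(Om_open hF.toWCrv Y (C.ck j)).mem_nhds hz.1] with w hw
    exact lfN_tan hF.toWCrv Y (C.ck j) w hw
  refine (hB x (ht x hx) _ z (lfN_an hF.toWCrv Y (C.ck j) z hz.1) hxN hode
    ((g_ne C hg j hF Y z hz).frequently.filter_mono nhdsWithin_le_nhds)).trans ?_
  exact mul_le_mul_of_nonneg_right (Finset.single_le_sum (f := B) (fun y hy => hB0 y (ht y hy)) hx) (norm_nonneg _)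

/-- the open set of the special point `j` -/
def UPs (C : Cov S Ra) {F : ℂ → EN M} (Y : NCLift X F) (j : Fin C.nP) (s' : ℝ) : Set ℂ := {z | z ∈ C.UP Y j ∧ C.pj Y j z ∈ ball (0 : ℂ × ℂ) s'}

/-- **The patch of a special point.** -/
theorem patch_PL (hX : Surface (coneE P)) (hW : LW P H₀ mK jH Wf) (C : Cov S Ra) (j : Fin C.nP) {s' : ℝ} (hs : C.s j < s') (hs' : s' < C.r j)
    {g : Fin C.nP → ℂ × ℂ → ℂ} (hg : PG C g) {F : ℂ → EN M} (hF : LCrv θ RD H₀ Ra F) (Y : NCLift X F) (hne : WNe Wf Y) {Θ : ℂ → ℂ}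
    (hΘ : IsTh S Wf mK Y Θ) {A : ℝ} {lm : ℂ → ℝ} (hl : Dens C Y A lm) {A' δ : ℝ} (hδ : 0 ≤ δ) {al be C₁ : ℝ}
    (hup : ∀ z ∈ C.UP Y j, wt Wf Y (C.ck j).1 z ≠ 0 → C.Jj j (C.pj Y j z) ≠ 0 → JD al be (C.pj Y j z) ≠ 0 ∧
      Real.log ‖C.Jj j (C.pj Y j z)‖ + 1 / mK * Real.log ‖wt Wf Y (C.ck j).1 z‖ + jH / mK * Real.log ‖F z‖ ≤ C₁ + Real.log ‖JD al be (C.pj Y j z)‖)
    (hL : LocX (C.vj j) (fun x => g j (C.Q j + x)) (JD al be) {z | z ∈ C.UP Y j ∧ C.pj Y j z ∈ ball (0 : ℂ × ℂ) s'} (C.pj Y j) lm (C.s j) A' δ) :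
    ∃ (c : ℝ) (l : ℂ → ℝ) (e : ℂ → ℝ) (η : ℂ → ℂ) (err : ℂ → ℝ),
      IsPatch F (Psi mK jH F Θ) (2 * jH / mK) l (UPs C Y j s') e η err (C.core Y j) c (δ * A) ∧ Continuous l ∧ (∀ z, lm z ≤ l z) ∧
        (∃ B : ℝ, ∀ R, 1 ≤ R → ∫ z, tau R z * l z ^ 2 ≤ B * (En F R + 1)) ∧
        ∀ z ∈ UPs C Y j s', z ∉ C.core Y j → e =ᶠ[𝓝 z] eP S (g j) Wf mK jH Y (C.ck j) := by
  obtain ⟨C₂, ll, η, Φ, err, hC₂, l_cont, l_ge, l_en, η_diff, err_cont, Φ_ls, out, inn, dvn, upp, intg⟩ := hL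
  obtain ⟨B, hB0, hB⟩ := asmPL_dd C hg j hs'
  obtain ⟨K, hK⟩ := hl.energy
  have hcrv := crv_vj C j hF.toWCrv Y
  have hUP : UPs C Y j s' ⊆ C.UP Y j := fun z hz => hz.1
  have hUo : IsOpen (UPs C Y j s') := by
    rw [isOpen_iff_mem_nhds]
    intro z hz
    filter_upwards [hcrv.isOpen.mem_nhds hz.1, (hcrv.an z hz.1).continuousAt.eventually_mem (isOpen_ball.mem_nhds hz.2)] with w h1 h2
    exact ⟨h1, h2⟩
  have hDD : ∀ w, DDv (C.vj j) (fun x => g j (C.Q j + x)) (C.pj Y j) w = DDv (S.v (C.ck j)) (g j) (S.lf Y (C.ck j)) w := fun w =>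
    asmPL_DDv (S.v (C.ck j)) (g j) (C.Q j) (S.lf Y (C.ck j)) w
  have hzt : ∀ w, ztv (C.vj j) (C.pj Y j) w = ztv (S.v (C.ck j)) (S.lf Y (C.ck j)) w := fun w =>
    asmPL_ztv (S.v (C.ck j)) (C.Q j) (S.lf Y (C.ck j)) w
  have hadd : ∀ w, C.Q j + C.pj Y j w = S.lf Y (C.ck j) w := fun w => add_sub_cancel _ _
  have hl0 : ∀ z, 0 ≤ lm z := fun z => (Pool.Agent.MQ.lam_nonneg F z).trans (hl.le z)
  have hll0 : ∀ z, 0 ≤ ll z := fun z => (hl0 z).trans (l_ge z)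
  have hEn : ∀ R, 1 ≤ R → 0 ≤ En F R := fun R hR => integral_nonneg fun z => mul_nonneg (Pool.Agent.H30M.tau_nonneg hR z) (sq_nonneg _)
  -- outside the core
  have hcore : ∀ z ∈ UPs C Y j s', z ∉ C.core Y j → ∀ᶠ w in 𝓝 z, w ∈ UPs C Y j s' ∧ C.pj Y j w ∉ ball (0 : ℂ × ℂ) (C.s j) := by
    intro z hz hzc
    have h1 : C.pj Y j z ∉ closedBall (0 : ℂ × ℂ) (C.s j) := by
      intro h2
      refine hzc ⟨hz.1.1, ?_⟩
      rw [mem_closedBall, dist_eq_norm]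
      rw [mem_closedBall_zero_iff] at h2
      exact h2
    filter_upwards [hUo.mem_nhds hz, (hcrv.an z hz.1).continuousAt.eventually_mem (isClosed_closedBall.isOpen_compl.mem_nhds h1)] with w h2 h3
    exact ⟨h2, fun h4 => h3 (ball_subset_closedBall h4)⟩
  -- the analytic equation
  have hga : ∀ z ∈ C.UP Y j, AnalyticAt ℂ (g j) (S.lf Y (C.ck j) z) := by
    intro z hz
    by_cases h0 : S.lf Y (C.ck j) z = C.Q j
    · rw [h0]
      exact hg.an j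
    · exact (hg.inv j _ (ball_subset_closedBall hz.2) h0).1
  -- the generic points
  have hgen : ∀ z ∈ UPs C Y j s', ∀ᶠ w in 𝓝[≠] z, w ∈ UPs C Y j s' ∧ ContDiffAt ℝ 2 Φ w ∧ ContDiffAt ℝ 2 (eP S (g j) Wf mK jH Y (C.ck j)) w ∧
      Δ (eP S (g j) Wf mK jH Y (C.ck j)) w = 2 * jH / mK * lam F w ^ 2 ∧
      gr (eP S (g j) Wf mK jH Y (C.ck j)) w + (starRingEnd ℂ) (DDv (S.v (C.ck j)) (g j) (S.lf Y (C.ck j)) w) = Psi mK jH F Θ w ∧
      eP S (g j) Wf mK jH Y (C.ck j) w + Φ w ≤ C₂ + C₁ + Real.log (1 + ll w) := by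
    intro z hz
    obtain ⟨c, hc⟩ := Φ_ls z hz
    filter_upwards [(hUo.eventually_mem hz).filter_mono nhdsWithin_le_nhds, hc.eventually,
      gr_eP hX hW hF Y hne hΘ hz.1.1 (hga z hz.1) ((g_ne C hg j hF.toRCrv Y z hz.1).frequently.filter_mono nhdsWithin_le_nhds),
      lfN_ne hF.toWCrv Y (C.ck j) z hz.1.1, g_ne C hg j hF.toRCrv Y z hz.1,
      hne (C.ck j).1 z (Om_sub hF.toWCrv Y (C.ck j) hz.1.1)] with w h1 h2 h3 h4 h5 h6
    refine ⟨h1, h2, h3.1, h3.2.1, h3.2.2, ?_⟩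
    have hJ : C.Jj j (C.pj Y j w) = jc (S.κ (C.ck j)) (S.lf Y (C.ck j) w) := by
      unfold Cov.Jj
      rw [hadd]
    obtain ⟨h7, h8⟩ := hup w h1.1 h6 (by rw [hJ]; exact h4.2.2.2.2)
    have h9 := upp w h1 h2 (by rw [hzt]; exact h4.2.2.2.1) (by simp only [hadd]; exact h5) h7
    simp only [hadd] at h9
    rw [hzt] at h9
    rw [hJ] at h8
    unfold eP
    linarith
  have hLS : ∀ z ∈ UPs C Y j s', ∃ c, LogSing (fun w => eP S (g j) Wf mK jH Y (C.ck j) w + Φ w) c z := by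
    intro z hz
    obtain ⟨c, hc⟩ := Φ_ls z hz
    obtain ⟨c', hc'⟩ := logSing_P hX hW C hg j hF Y hne z hz.1
    exact ⟨_, hc'.add hc⟩
  set c : ℝ := C₂ + B + |C₁| + δ * |K| with hc
  have hδK : 0 ≤ δ * |K| := mul_nonneg hδ (abs_nonneg _)
  have hC1 := abs_nonneg C₁
  have hC1' := le_abs_self C₁
  have hc1 : C₂ ≤ c := by rw [hc]; linarith
  have hc2 : B ≤ c := by rw [hc]; linarith
  have hc3 : C₂ + C₁ ≤ c := by rw [hc]; linarith
  refine ⟨c, ll, fun w => eP S (g j) Wf mK jH Y (C.ck j) w + Φ w, η, err, ⟨hUo, fun z hz => ?_, η_diff, fun z hz => ?_, fun z hz hzc => ?_,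
    core_closed C hF.toWCrv Y j, fun z hz => ?_, err_cont, fun z hz hzc => (out z hz (hcore z hz hzc).self_of_nhds.2).2.1, fun z hz he => ?_, fun R hR => ?_,
    fun z hz he => ?_⟩, l_cont, l_ge, ?_, fun z hz hzc => ?_⟩
  · -- the coefficient
    obtain ⟨c', hc'⟩ := hLS z hz
    refine ⟨c', ?_, hc'⟩
    have h1 : ∀ᶠ w in 𝓝[≠] z, Real.log (1 + ll w) < Real.log (1 + ll z) + 1 := by
      have h2 : ContinuousAt (fun w => Real.log (1 + ll w)) z :=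
        (continuous_const.add l_cont).continuousAt.log (by have := hll0 z; exact (by linarith : (0 : ℝ) < 1 + ll z).ne')
      exact (h2.eventually (gt_mem_nhds (by linarith))).filter_mono nhdsWithin_le_nhds
    refine logSing_nonneg (B := C₂ + C₁ + (Real.log (1 + ll z) + 1)) hc' ?_
    refine Eventually.frequently ?_
    filter_upwards [hgen z hz, h1] with w h2 h3
    linarith [h2.2.2.2.2.2]
  · -- the bound of the field
    by_cases hin : C.pj Y j z ∈ ball (0 : ℂ × ℂ) (C.s j)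
    · exact (inn z hz hin).trans (mul_le_mul_of_nonneg_right hc1 (hll0 z))
    · rw [(out z hz hin).1, RCLike.norm_conj, hDD]
      have h1 := hB F hF.toRCrv Y z hz.1 hin (ball_subset_closedBall hz.2)
      have h2 := (hl.pt j z hz.1.1 (ball_subset_closedBall hz.1.2)).trans (l_ge z)
      exact h1.trans (mul_le_mul hc2 h2 (norm_nonneg _) (hB0.trans hc2))
  · -- the common value
    have h1 : ∀ᶠ w in 𝓝 z, ∀ᶠ w' in 𝓝 w, eP S (g j) Wf mK jH Y (C.ck j) w' + Φ w' = eP S (g j) Wf mK jH Y (C.ck j) w' := by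
      refine Eventually.eventually_nhds ?_
      filter_upwards [hcore z hz hzc] with w hw
      rw [(out w hw.1 hw.2).2.2, add_zero]
    filter_upwards [hgen z hz, h1.filter_mono nhdsWithin_le_nhds, (hcore z hz hzc).filter_mono nhdsWithin_le_nhds] with w h2 h3 h4
    rw [(out w h4.1 h4.2).1, hDD, Pool.Agent.MQ.gr_congr h3]
    exact h2.2.2.2.2.1
  · -- the core is in the open set
    refine ⟨core_sub_UP C Y j hz, ?_⟩
    have h1 := hz.2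
    rw [mem_closedBall, dist_eq_norm] at h1
    rw [mem_ball_zero_iff]
    exact h1.trans_lt hs
  · -- the Laplacian
    refine lap_of_near (f := fun z => 2 * jH / mK * lam F z ^ 2) he (η_diff.contDiffAt (hUo.mem_nhds hz)) (err_cont.continuousAt (hUo.mem_nhds hz))
      (continuous_const.mul (hF.toWCrv.lam_cont.pow 2)).continuousAt ?_
    filter_upwards [hgen z hz] with w h2
    have h3 := dvn w h2.1 h2.2.1
    rw [Pool.Agent.H30M.lap_add h2.2.2.1 h2.2.1, h2.2.2.2.1]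
    linarith
  · -- the integral of the error
    refine (intg R hR).trans ?_
    have h1 : 0 ≤ ∫ z, ‖gr (tau R) z‖ * ll z := integral_nonneg fun z => mul_nonneg (norm_nonneg _) (hll0 z)
    have h2 := mul_le_mul_of_nonneg_left (hK R hR) hδ
    have h3 := mul_le_mul_of_nonneg_right hc1 h1
    have h4 := mul_le_mul_of_nonneg_left (le_abs_self K) hδ
    have h5 : C₂ + δ * K ≤ c := by rw [hc]; linarith
    have h6 : δ * (A * En F R + K) = δ * A * En F R + δ * K := by ring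
    rw [h6] at h2
    linarith
  · -- the upper bound
    have h1 : ContinuousAt (fun w => c + Real.log (1 + ll w)) z :=
      continuousAt_const.add ((continuous_const.add l_cont).continuousAt.log (by have := hll0 z; exact (by linarith : (0 : ℝ) < 1 + ll z).ne'))
    refine le_of_tendsto_of_tendsto (he.continuousAt.tendsto.mono_left nhdsWithin_le_nhds) (h1.tendsto.mono_left nhdsWithin_le_nhds)
      (f := fun w => eP S (g j) Wf mK jH Y (C.ck j) w + Φ w) (b := 𝓝[≠] z) ?_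
    filter_upwards [hgen z hz] with w h2
    linarith [h2.2.2.2.2.2]
  · -- the energy of the density
    refine ⟨|A'| * (|A| + |K|) + C₂, fun R hR => (l_en R hR).trans ?_⟩
    have h1 := hK R hR
    have h2 := hEn R hR
    have h3 : 0 ≤ ∫ z, tau R z * lm z ^ 2 := integral_nonneg fun z => mul_nonneg (Pool.Agent.H30M.tau_nonneg hR z) (sq_nonneg _)
    have h4 : ∫ z, tau R z * lm z ^ 2 ≤ (|A| + |K|) * (En F R + 1) := by
      have h5 := mul_le_mul_of_nonneg_right (le_abs_self A) h2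
      have h6 : 0 ≤ |K| * En F R := mul_nonneg (abs_nonneg _) h2
      have h7 := le_abs_self K
      have h8 := abs_nonneg A
      have h9 : (|A| + |K|) * (En F R + 1) = |A| * En F R + |K| * En F R + |A| + |K| := by ring
      rw [h9]
      linarith
    have h5 := mul_le_mul_of_nonneg_right (le_abs_self A') h3
    have h6 := mul_le_mul_of_nonneg_left h4 (abs_nonneg A')
    have h7 : C₂ ≤ C₂ * (En F R + 1) := le_mul_of_one_le_right hC₂ (by linarith)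
    have h8 : (|A'| * (|A| + |K|) + C₂) * (En F R + 1) = |A'| * ((|A| + |K|) * (En F R + 1)) + C₂ * (En F R + 1) := by ring
    rw [h8]
    linarith
  · filter_upwards [hcore z hz hzc] with w hw
    rw [(out w hw.1 hw.2).2.2, add_zero]

end Pool.Agent.MQL

end
end
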