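import Pool.Agent.H43.TL2.M101
import Pool.Agent.H43.TL2.M115
import Pool.Agent.H43.TL2.M131
import Pool.Agent.H43.TL2.M170
import Pool.Agent.H43.TL2.M193
import Pool.Agent.H43.TL2.M194
import Pool.Agent.H43.TL2.M196
import Pool.Agent.H43.TL2.M199
import Pool.Agent.H43.TL2.M204
import Pool.Agent.H43.TL2.M205
import Pool.Agent.H43.TL2.M87
import Pool.Agent.H43.TL2.M88

/-! The parts of this file: MQL.AsmNL, MQL.FamL, MQL.FinL, MQL.FinSDA. -/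

section

/-!
# MQL AsmNL: the pack of a curve which avoids `D` from the local packages
-/

set_option autoImplicit false

open Topology Filter Metric MvPolynomial MeasureTheory Laplacian

noncomputable section

namespace Pool.Agent.MQL

open Pool.Agent.H36.BP (EN fs)
open Pool.Agent.H17BP (Surface IsForm)
open Pool.Agent.H17EF (projVar coneE)
open Pool.Agent.H30M (tau LogSing)
open Pool.Agent.MQ (lam En gr dv Pack)
open Pool.Agent.MQ2 (LocX)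
open Pool.Agent.MQ3

variable {M : ℕ} {P : Ideal (MvPolynomial (Fin (M + 1)) ℂ)} {RD H₀ Ra : MvPolynomial (Fin (M + 1)) ℂ} {m : ℕ} {X : NCModel P RD} {θ : WDiff (coneE P) m}
  {l : LF M} {S : Web X θ l} {Wf : EN M → EN M → EN M → ℂ} {mK jH : ℕ}

/-- the patch of a box -/
theorem isPatch_NL (hX : Surface (coneE P)) (hW : LW P H₀ mK jH Wf) (C : Cov S Ra) {F : ℂ → EN M} (hF : LCrv θ RD H₀ Ra F) (Y : NCLift X F)
    (hne : WNe Wf Y) {Θ : ℂ → ℂ} (hΘ : IsTh S Wf mK Y Θ) {A B : ℝ} {lm : ℂ → ℝ} (hl : DensL C Y Wf mK jH A B lm) (k : Fin C.nN) :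
    ∃ (c : ℝ) (η : ℂ → ℂ), 0 ≤ c ∧
      IsPatch F (Psi mK jH F Θ) (2 * jH / mK) lm (C.UN Y k) (eN (C.H k) Wf mK jH Y (C.b k)) η (fun _ => 0) ∅ c 0 := by
  obtain ⟨B₁, h₁⟩ := Pool.Agent.MQL.exists_etaN hX hW C k
  obtain ⟨η, h2, h3, h4⟩ := h₁ F hF Y hne Θ hΘ A lm hl.toDens
  have hO := UN_open C hF.toWCrv Y k
  have hlm0 : ∀ z, 0 ≤ lm z := fun z => (Pool.Agent.MQ.lam_nonneg F z).trans (hl.le z)
  refine ⟨|B₁| + |B|, η, by positivity, ⟨hO, fun z hz => Pool.Agent.MQL.logSing_N hX hW C k hF Y hne z hz.1 hz.2.1, h2, fun z hz => ?_, fun z hz _ => ?_,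
    isClosed_empty, Set.empty_subset _, continuousOn_const, fun _ _ _ => rfl, fun z hz he => ?_, fun R hR => ?_, fun z hz he => ?_⟩⟩
  · refine (h3 z hz).trans (mul_le_mul_of_nonneg_right ?_ (hlm0 z))
    linarith [le_abs_self B₁, abs_nonneg B]
  · filter_upwards [h4 z hz] with w hw
    rw [add_comm]
    exact hw.1
  · refine lap_of_near (e := eN (C.H k) Wf mK jH Y (C.b k)) (f := fun z => 2 * jH / mK * lam F z ^ 2) he (h2.contDiffAt (hO.mem_nhds hz))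
      continuousAt_const (continuous_const.mul (hF.toWCrv.lam_cont.pow 2)).continuousAt ?_
    filter_upwards [h4 z hz] with w hw
    rw [hw.2.2, add_zero]
  · simp only [mul_zero, integral_zero, zero_mul, zero_add]
    have h7 : 0 ≤ ∫ z, ‖gr (tau R) z‖ * lm z := integral_nonneg fun z => mul_nonneg (norm_nonneg _) (hlm0 z)
    positivity
  · have := hl.up k z hz.1 hz.2.1 he
    linarith [le_abs_self B, abs_nonneg B₁]

/-- **The pack of a curve which avoids `D` from the local packages.** -/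
theorem pack_webL (hX : Surface (coneE P)) (hW : LW P H₀ mK jH Wf) (C : Cov S Ra) : ∃ s' : Fin C.nP → ℝ, (∀ j, C.s j < s' j ∧ s' j < C.r j) ∧
    ∀ g : Fin C.nP → ℂ × ℂ → ℂ, PG C g → ∀ F : ℂ → EN M, LCrv θ RD H₀ Ra F → ∀ Y : NCLift X F, WNe Wf Y →
      ∀ A B : ℝ, 0 ≤ A → ∀ lm : ℂ → ℝ, DensL C Y Wf mK jH A B lm → ∀ A' δ : ℝ, 0 ≤ δ → ∀ (al be : Fin C.nP → ℝ) (C₁ : ℝ),
        (∀ j, ∀ z ∈ C.UP Y j, wt Wf Y (C.ck j).1 z ≠ 0 → C.Jj j (C.pj Y j z) ≠ 0 → JD (al j) (be j) (C.pj Y j z) ≠ 0 ∧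
          Real.log ‖C.Jj j (C.pj Y j z)‖ + 1 / mK * Real.log ‖wt Wf Y (C.ck j).1 z‖ + jH / mK * Real.log ‖F z‖ ≤
            C₁ + Real.log ‖JD (al j) (be j) (C.pj Y j z)‖) →
        (∀ j, LocX (C.vj j) (fun x => g j (C.Q j + x)) (JD (al j) (be j)) {z | z ∈ C.UP Y j ∧ C.pj Y j z ∈ ball (0 : ℂ × ℂ) (s' j)} (C.pj Y j) lm (C.s j) A' δ) →
        ∃ L : ℂ → ℝ, Continuous L ∧ (∀ z, lam F z ≤ L z) ∧ (∃ B : ℝ, ∀ R, 1 ≤ R → ∫ z, tau R z * L z ^ 2 ≤ B * (En F R + 1)) ∧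
          Pack F L (2 * jH / mK) (C.nP * (δ * A)) := by
  classical
  obtain ⟨B₀, r', hr', hcut⟩ := exists_cut C
  have hs' : ∀ j, C.s j < (r' j + C.r j) / 2 ∧ (r' j + C.r j) / 2 < C.r j := fun j => by
    have h1 := hr' j
    constructor <;> linarith [h1.1, h1.2]
  refine ⟨fun j => (r' j + C.r j) / 2, hs', fun g hg F hF Y hne A B hA lm hl A' δ hδ al be C₁ hJ hL => ?_⟩
  obtain ⟨Θ, hΘ⟩ := exists_theta hX hW hF Y hne
  choose c ll e η err hP hlc hll hel heP using fun j => patch_PL hX hW C j (hs' j).1 (hs' j).2 hg hF Y hne hΘ hl.toDens hδ (hJ j) (hL j)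
  choose c' η' hc' hN using fun k => isPatch_NL hX hW C hF Y hne hΘ hl k
  obtain ⟨χ, x1, x2, x3, x4, x5, x6, x7⟩ := hcut F hF.toWCrv Y A lm hl.toDens
  set US : Fin C.nP → Set ℂ := fun j => {z | z ∈ C.UP Y j ∧ C.pj Y j z ∈ ball (0 : ℂ × ℂ) ((r' j + C.r j) / 2)} with hUS
  have hsub : ∀ j, tsupport (χ (Sum.inl j)) ⊆ US j := fun j z hz => by
    refine ⟨x3 (Sum.inl j) hz, ?_⟩
    have h1 := x6 j z hz
    rw [mem_closedBall, dist_eq_norm] at h1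
    rw [mem_ball_zero_iff]
    have h2 := (hr' j).2
    exact lt_of_le_of_lt h1 (by linarith)
  have hcore : ∀ j, C.core Y j ⊆ US j := fun j z hz => by
    refine ⟨core_sub_UP C Y j hz, ?_⟩
    have h1 := hz.2
    rw [mem_closedBall, dist_eq_norm] at h1
    rw [mem_ball_zero_iff]
    exact lt_of_le_of_lt h1 (hs' j).1
  have hen : ∃ B : ℝ, ∀ R, 1 ≤ R → ∫ z, tau R z * lm z ^ 2 ≤ B * (En F R + 1) := by
    obtain ⟨K, hK⟩ := hl.energy
    refine ⟨A + |K|, fun R hR => (hK R hR).trans ?_⟩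
    have h1 : 0 ≤ En F R := integral_nonneg fun z => mul_nonneg (Pool.Agent.H30M.tau_nonneg hR z) (sq_nonneg _)
    have h2 : 0 ≤ |K| * En F R := mul_nonneg (abs_nonneg _) h1
    have h3 := le_abs_self K
    nlinarith
  have hPP : ∀ {a b : Fin C.nP}, a ≠ b → ∀ {z : ℂ}, z ∈ C.UP Y a → z ∉ C.UP Y b := fun {a b} hab {z} hz hz' =>
    C.disj F hF.toWCrv Y a b hab z hz.1 (ball_subset_closedBall hz.2) hz'.1 (ball_subset_closedBall hz'.2)
  have hPN : ∀ (a : Fin C.nP) (k : Fin C.nN), ∃ B' : ℝ, ∀ z ∈ US a, z ∈ C.UN Y k → S.lf Y (C.ck a) z ∈ closedBall (C.Q a) (r' a) →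
      ContDiffAt ℝ 2 (e a) z → ContDiffAt ℝ 2 (eN (C.H k) Wf mK jH Y (C.b k)) z → |e a z - eN (C.H k) Wf mK jH Y (C.b k) z| ≤ B' := fun a k => by
    obtain ⟨B', hB'⟩ := Pool.Agent.MQL.bd_PN hX hW C hg a k (hr' a).2
    refine ⟨B', fun z hz hz' hr he he' => ?_⟩
    have h1 := heP a z hz (hz'.2.2 a)
    rw [h1.self_of_nhds]
    exact hB' F hF Y hne z hz.1 hz' hr (he.congr_of_eventuallyEq h1.symm) he'
  have hsup : ∀ i z, χ i z = 1 → z ∈ tsupport (χ i) := fun i z h7 => subset_tsupport _ (by rw [Function.mem_support, h7]; exact one_ne_zero)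
  have hD : ∑ i : Fin C.nP ⊕ Fin C.nN, (Sum.elim (fun _ => δ * A) (fun _ => 0) : Fin C.nP ⊕ Fin C.nN → ℝ) i = C.nP * (δ * A) := by
    rw [Fintype.sum_sum_type]
    simp
  rw [← hD]
  refine pack_of_isPatch (Ψ := Psi mK jH F Θ) (lm := lm) (U := Sum.elim US (C.UN Y)) (K := Sum.elim (C.core Y) fun _ => ∅) (l := Sum.elim ll fun _ => lm)
    (c := Sum.elim c c') (e := Sum.elim e fun k => eN (C.H k) Wf mK jH Y (C.b k)) (η := Sum.elim η η') (err := Sum.elim err fun _ _ => 0)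
    hF.diff hF.toWCrv.F_ne hF.ord hl.cont hl.le hen ?_ ?_ ?_ ?_ ?_ ?_ x1 x2 ?_ x4 x5 ?_
  · rintro (j | k)
    · exact hlc j
    · exact hl.cont
  · rintro (j | k) z
    · exact hll j z
    · exact le_rfl
  · rintro (j | k)
    · exact hel j
    · exact hen
  · rintro (j | k)
    · exact mul_nonneg hδ hA
    · exact le_rfl
  · rintro (j | k)
    · exact hP j
    · exact hN k
  · rintro (a | k) (b | k') hij z hz
    · exact fun h => hPP (fun h => hij (by rw [h])) (core_sub_UP C Y a hz) h.1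
    · exact fun h => h.2.2 a hz
    · exact absurd hz (Set.notMem_empty z)
    · exact absurd hz (Set.notMem_empty z)
  · rintro (a | k)
    · exact hsub a
    · exact x3 (Sum.inr k)
  · rintro (a | k) (b | k')
    · by_cases hab : a = b
      · subst hab
        exact ⟨0, fun z _ _ _ _ => by simp⟩
      · exact ⟨0, fun z h1 h2 _ _ => absurd (x3 (Sum.inl b) h2) (hPP hab (x3 (Sum.inl a) (hsup _ z h1)))⟩
    · obtain ⟨B', hB'⟩ := hPN a k'
      exact ⟨B', fun z h1 h2 h3 h4 => hB' z (hsub a (hsup _ z h1)) (x3 (Sum.inr k') h2) (x6 a z (hsup _ z h1)) h3 h4⟩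
    · obtain ⟨B', hB'⟩ := hPN b k
      refine ⟨B', fun z h1 h2 h3 h4 => ?_⟩
      have h5 := hB' z (hsub b h2) (x3 (Sum.inr k) (hsup _ z h1)) (x6 b z h2) h4 h3
      rw [abs_sub_comm] at h5
      exact h5
    · obtain ⟨B', hB'⟩ := Pool.Agent.MQL.bd_NN hX hW C k k'
      exact ⟨B', fun z h1 h2 h3 h4 => hB' F hF Y hne z (x3 (Sum.inr k) (hsup _ z h1)) (x3 (Sum.inr k') h2) h3 h4⟩

end Pool.Agent.MQL

end
end

section

/-!
# MQL FamL: the packages of all chart points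

Zeros of the vector field: `goodD_of_iso`; regular points outside `Reg0`: `goodD_reg`; the points of `Reg0`: `goodC_reg0`, without formal curves.
-/

set_option autoImplicit false

open Topology Filter Metric MvPolynomial MeasureTheory

noncomputable section

namespace Pool.Agent.MQL

open Pool.Agent.H36.BP (EN)
open Pool.Agent.H17BP (Surface)
open Pool.Agent.H17EF (coneE)
open Pool.Agent.MQ2 (Iso Sep FZero)
open Pool.Agent.MQ3

variable {M : ℕ}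

private theorem inv_gt {mK : ℕ} (hm : 1 ≤ mK) : (-1 : ℝ) < (mK : ℝ)⁻¹ - 1 := by
  have h1 : (0 : ℝ) < (mK : ℝ)⁻¹ := inv_pos.2 (by exact_mod_cast hm)
  linarith

theorem exX_gt {H₀ : MvPolynomial (Fin (M + 1)) ℂ} {mK : ℕ} (hm : 1 ≤ mK) (φ : ℂ × ℂ → EN M) (q : ℂ × ℂ) : -1 < exX H₀ mK φ q := by
  unfold exX
  split_ifs
  · exact inv_gt hm
  · norm_num

theorem exY_gt {H₀ : MvPolynomial (Fin (M + 1)) ℂ} {mK : ℕ} (hm : 1 ≤ mK) (φ : ℂ × ℂ → EN M) (q : ℂ × ℂ) : -1 < exY H₀ mK φ q := by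
  unfold exY
  split_ifs
  · exact inv_gt hm
  · norm_num

theorem exX_neg {H₀ : MvPolynomial (Fin (M + 1)) ℂ} {mK : ℕ} {φ : ℂ × ℂ → EN M} {q : ℂ × ℂ} (h : exX H₀ mK φ q < 0) :
    ∀ᶠ t in 𝓝 (0 : ℂ), eval (φ (q.1, q.2 + t)).ofLp H₀ = 0 := by
  by_contra h1
  rw [exX, if_neg h1] at h
  exact lt_irrefl _ h

theorem exY_neg {H₀ : MvPolynomial (Fin (M + 1)) ℂ} {mK : ℕ} {φ : ℂ × ℂ → EN M} {q : ℂ × ℂ} (h : exY H₀ mK φ q < 0) :
    ∀ᶠ t in 𝓝 (0 : ℂ), eval (φ (q.1 + t, q.2)).ofLp H₀ = 0 := by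
  by_contra h1
  rw [exY, if_neg h1] at h
  exact lt_irrefl _ h

variable {P : Ideal (MvPolynomial (Fin (M + 1)) ℂ)} {RD H₀ : MvPolynomial (Fin (M + 1)) ℂ} {m : ℕ} {X : NCModel P RD} {θ : WDiff (coneE P) m} {l : LF M}
  {mK : ℕ}

/-- a line through `q` which lies in the boundary is an axis -/
theorem axX_of (hD : DivB P RD H₀) {S : Web X θ l} {k : S.ι} {q : ℂ × ℂ} (hq : q ∈ S.D k) (h : exX H₀ mK (S.σ k) q < 0) : q.1 = 0 := by
  have h1 := exX_neg h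
  have hc : Tendsto (fun t : ℂ => (q.1, q.2 + t)) (𝓝 0) (𝓝 q) := by
    have : Continuous fun t : ℂ => (q.1, q.2 + t) := by fun_prop
    simpa using this.tendsto 0
  have h2 : ∀ᶠ t in 𝓝 (0 : ℂ), (q.1, q.2 + t) ∈ S.D k := hc.eventually ((D_open k).mem_nhds hq)
  have h3 : ∀ᶠ t in 𝓝[≠] (0 : ℂ), q.2 + t ≠ 0 := by
    by_cases h4 : q.2 = 0
    · filter_upwards [self_mem_nhdsWithin] with t ht
      rw [h4, zero_add]
      exact ht
    · have h5 : Tendsto (fun t : ℂ => q.2 + t) (𝓝 0) (𝓝 q.2) := by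
        have : Continuous fun t : ℂ => q.2 + t := by fun_prop
        simpa using this.tendsto 0
      exact (h5.eventually_ne h4).filter_mono nhdsWithin_le_nhds
  obtain ⟨t, h4, h5, h6⟩ := ((h1.filter_mono nhdsWithin_le_nhds).and ((h2.filter_mono nhdsWithin_le_nhds).and h3)).exists
  have h7 := (zero_iff k _ h5).1 (hD.le _ (σ_an k _ h5).2 h4)
  exact (mul_eq_zero.1 h7).resolve_right h6

/-- a line through `q` which lies in the boundary is an axis -/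
theorem axY_of (hD : DivB P RD H₀) {S : Web X θ l} {k : S.ι} {q : ℂ × ℂ} (hq : q ∈ S.D k) (h : exY H₀ mK (S.σ k) q < 0) : q.2 = 0 := by
  have h1 := exY_neg h
  have hc : Tendsto (fun t : ℂ => (q.1 + t, q.2)) (𝓝 0) (𝓝 q) := by
    have : Continuous fun t : ℂ => (q.1 + t, q.2) := by fun_prop
    simpa using this.tendsto 0
  have h2 : ∀ᶠ t in 𝓝 (0 : ℂ), (q.1 + t, q.2) ∈ S.D k := hc.eventually ((D_open k).mem_nhds hq)
  have h3 : ∀ᶠ t in 𝓝[≠] (0 : ℂ), q.1 + t ≠ 0 := by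
    by_cases h4 : q.1 = 0
    · filter_upwards [self_mem_nhdsWithin] with t ht
      rw [h4, zero_add]
      exact ht
    · have h5 : Tendsto (fun t : ℂ => q.1 + t) (𝓝 0) (𝓝 q.1) := by
        have : Continuous fun t : ℂ => q.1 + t := by fun_prop
        simpa using this.tendsto 0
      exact (h5.eventually_ne h4).filter_mono nhdsWithin_le_nhds
  obtain ⟨t, h4, h5, h6⟩ := ((h1.filter_mono nhdsWithin_le_nhds).and ((h2.filter_mono nhdsWithin_le_nhds).and h3)).exists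
  have h7 := (zero_iff k _ h5).1 (hD.le _ (σ_an k _ h5).2 h4)
  exact (mul_eq_zero.1 h7).resolve_left h6

theorem goodC_of_goodD {al be : ℝ} {v : ℂ × ℂ → ℂ × ℂ} (h : GoodD GT al be v) :
    ∃ (n : ℕ) (c : Fin n → ℕ → ℂ → ℂ × ℂ), (∀ i, Sep v (c i)) ∧ GoodC c al be v := by
  obtain ⟨n, c, hc, h1⟩ := h
  exact ⟨n, c, hc, fun g hw ha => h1 g trivial hw ha⟩

/-- the package of one chart point -/
theorem exists_fam_pt (hD : DivB P RD H₀) (S : Web X θ l) (hm : 1 ≤ mK) (k : S.ι) (q : ℂ × ℂ) (hq : q ∈ S.D k) :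
    ∃ (n : ℕ) (c : Fin n → ℕ → ℂ → ℂ × ℂ), (∀ i, Sep (fun x => S.v k (q + x)) (c i)) ∧ (Reg0 S k q → n = 0) ∧
      GoodC c (exX H₀ mK (S.σ k) q) (exY H₀ mK (S.σ k) q) fun x => S.v k (q + x) := by
  have hv : AnalyticAt ℂ (fun x => S.v k (q + x)) 0 := by
    have h1 : AnalyticAt ℂ (fun x : ℂ × ℂ => q + x) 0 := analyticAt_const.add analyticAt_id
    have h2 : AnalyticAt ℂ (S.v k) (q + 0) := by
      rw [add_zero]
      exact v_an k q hq
    exact AnalyticAt.fun_comp (g := S.v k) (f := fun x : ℂ × ℂ => q + x) h2 h1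
  have hv0 : S.v k (q + 0) = S.v k q := by rw [add_zero]
  by_cases hR : Reg0 S k q
  · refine ⟨0, fun i => i.elim0, fun i => i.elim0, fun _ => rfl, ?_⟩
    refine goodC_reg0 (exX_gt hm _ _) (exY_gt hm _ _) ?_ hv (by rw [hv0]; exact hR.v_ne) ?_ ?_ _
    · by_contra h
      push Not at h
      exact hR.ne (Prod.ext (axX_of hD hq h.1) (axY_of hD hq h.2))
    · intro h
      have h0 := axX_of hD hq h
      rw [hv0]
      rcases hR.ax₁ h0 with h1 | h1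
      · exact Or.inl h1
      · right
        have hc : Tendsto (fun t : ℂ => q + ((0 : ℂ), t)) (𝓝 0) (𝓝 q) := by
          have h2 : Continuous fun t : ℂ => q + ((0 : ℂ), t) := by fun_prop
          have h3 := h2.tendsto 0
          rwa [show q + ((0 : ℂ), (0 : ℂ)) = q from add_zero q] at h3
        filter_upwards [hc.eventually h1] with t ht
        exact ht (by simp [h0])
    · intro h
      have h0 := axY_of hD hq h
      rw [hv0]
      rcases hR.ax₂ h0 with h1 | h1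
      · exact Or.inl h1
      · right
        have hc : Tendsto (fun t : ℂ => q + (t, (0 : ℂ))) (𝓝 0) (𝓝 q) := by
          have h2 : Continuous fun t : ℂ => q + (t, (0 : ℂ)) := by fun_prop
          have h3 := h2.tendsto 0
          rwa [show q + ((0 : ℂ), (0 : ℂ)) = q from add_zero q] at h3
        filter_upwards [hc.eventually h1] with t ht
        exact ht (by simp [h0])
  · have key : GoodD GT (exX H₀ mK (S.σ k) q) (exY H₀ mK (S.σ k) q) fun x => S.v k (q + x) := by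
      by_cases h0 : S.v k q = 0
      · refine goodD_of_iso (exX_gt hm _ _) (exY_gt hm _ _) ⟨hv, hv0.trans h0, ?_⟩
        have h1 := v_iso k q hq
        rw [eventually_nhdsWithin_iff] at h1
        have hc : Tendsto (fun x : ℂ × ℂ => q + x) (𝓝 0) (𝓝 q) := by
          have : Continuous fun x : ℂ × ℂ => q + x := by fun_prop
          simpa using this.tendsto 0
        filter_upwards [hc.eventually h1] with x hx hx0
        exact hx (by simpa using hx0)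
      · exact goodD_reg (exX_gt hm _ _) (exY_gt hm _ _) hv (by rw [hv0]; exact h0)
    obtain ⟨n, c, h1, h2⟩ := goodC_of_goodD key
    exact ⟨n, c, h1, fun h => absurd h hR, h2⟩

/-- the packages of all chart points -/
theorem exists_fam (hX : Surface (coneE P)) (hD : DivB P RD H₀) (S : Web X θ l) (hm : 1 ≤ mK) :
    ∃ (n : S.ι → ℂ × ℂ → ℕ) (fam : ∀ (k : S.ι) (q : ℂ × ℂ), Fin (n k q) → ℕ → ℂ → ℂ × ℂ),
      (∀ k, ∀ q ∈ S.D k, ∀ i, Sep (fun x => S.v k (q + x)) (fam k q i)) ∧ (∀ k, ∀ q ∈ S.D k, Reg0 S k q → n k q = 0) ∧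
      ∀ k, ∀ q ∈ S.D k, GoodC (fam k q) (exX H₀ mK (S.σ k) q) (exY H₀ mK (S.σ k) q) fun x => S.v k (q + x) := by
  classical
  have key : ∀ (k : S.ι) (q : ℂ × ℂ), ∃ (n : ℕ) (c : Fin n → ℕ → ℂ → ℂ × ℂ), q ∈ S.D k → (∀ i, Sep (fun x => S.v k (q + x)) (c i)) ∧
      (Reg0 S k q → n = 0) ∧ GoodC c (exX H₀ mK (S.σ k) q) (exY H₀ mK (S.σ k) q) fun x => S.v k (q + x) := by
    intro k q
    by_cases hq : q ∈ S.D k
    · obtain ⟨n, c, h⟩ := exists_fam_pt (mK := mK) hD S hm k q hq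
      exact ⟨n, c, fun _ => h⟩
    · exact ⟨0, fun i => i.elim0, fun h => absurd h hq⟩
  choose n fam h using key
  exact ⟨n, fam, fun k q hq => (h k q hq).1, fun k q hq => (h k q hq).2.1, fun k q hq => (h k q hq).2.2⟩

end Pool.Agent.MQL

end
end

section

/-!
# MQL FinL: the entire curves of order two which avoid `D` and are null for a logarithmic symmetric differential lie in one algebraic curve
-/

set_option autoImplicit false

open Topology Filter Metric MvPolynomial Asymptotics MeasureTheory Laplacian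

noncomputable section

namespace Pool.Agent.MQL

open Pool.Agent.H36.BP (EN fs)
open Pool.Agent.H14.PP (Tan)
open Pool.Agent.H17BP (Surface IsForm)
open Pool.Agent.H17EF (projVar coneE)
open Pool.Agent.H30M (tau avg LogSing tau_nonneg)
open Pool.Agent.H62.FC (Homog)
open Pool.Agent.H17LG.Variety (FunField OnBoundary IsLogGeneralType)
open Pool.Agent.MQ (lam En ztv dvg DDv gr dv Pack false_of_pack sieg)
open Pool.Agent.MQ2 (Iso Wt Sep FZero HasOrd LocX Dat hasOrd_of)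
open Pool.Agent.MQ3

/-! ## the packages -/

/-- the package is monotone in the constants -/
private theorem locX_monoL {v : ℂ × ℂ → ℂ × ℂ} {g J : ℂ × ℂ → ℂ} {Om : Set ℂ} {p : ℂ → ℂ × ℂ} {lm : ℂ → ℝ} {s A A' δ δ' : ℝ} (h : LocX v g J Om p lm s A δ)
    (hA : A ≤ A') (hδ : δ ≤ δ') : LocX v g J Om p lm s A' δ' := by
  obtain ⟨C, l, η, Φ, err, h0, h1, h2, h3, h4, h5, h6, h7, h8, h9, h10, h11⟩ := h
  have hI : ∀ R, 1 ≤ R → 0 ≤ ∫ z, tau R z * lm z ^ 2 := fun R hR => integral_nonneg fun z => mul_nonneg (tau_nonneg hR z) (sq_nonneg _)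
  refine ⟨C, l, η, Φ, err, h0, h1, h2, fun R hR => (h3 R hR).trans ?_, h4, h5, h6, h7, h8, h9, h10, fun R hR => (h11 R hR).trans ?_⟩
  · have := mul_le_mul_of_nonneg_right hA (hI R hR)
    linarith
  · have := mul_le_mul_of_nonneg_right hδ (hI R hR)
    linarith

/-- the package for one radius `r` -/
def GrL {n₀ : ℕ} (c : Fin n₀ → ℕ → ℂ → ℂ × ℂ) (al be : ℝ) (v : ℂ × ℂ → ℂ × ℂ) (g : ℂ × ℂ → ℂ) (r : ℝ) : Prop :=
  ∀ s s', 0 < s → s < s' → s' < r → ∀ B, 0 ≤ B → ∃ A C₀ : ℝ, 0 ≤ A ∧ 0 ≤ C₀ ∧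
    ∀ (d n : ℕ) (q : ℂ × ℂ → ℂ) (ψ : ℂ × ℂ → ℝ), 1 ≤ d → 1 ≤ n → AnalyticAt ℂ q 0 → ContDiffAt ℝ 1 ψ 0 →
      (∀ i, FZero (c i) g ∨ HasOrd (c i) q n) →
      ∀ (M : ℕ) (F : ℂ → EN M) (Q : ℂ → ℂ) (lm : ℂ → ℝ) (Om : Set ℂ) (p : ℂ → ℂ × ℂ), Dat v g r B d q ψ F Q lm Om p → Avoid al be Om p →
        LocX v g (JD al be) {z | z ∈ Om ∧ p z ∈ ball (0 : ℂ × ℂ) s'} p lm s A (C₀ * d / n)

variable {M : ℕ} {P : Ideal (MvPolynomial (Fin (M + 1)) ℂ)} {m : ℕ} {mK : ℕ} {Wf : EN M → EN M → EN M → ℂ}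

theorem exX_le (H₀ : MvPolynomial (Fin (M + 1)) ℂ) (hm : 1 ≤ mK) (φ : ℂ × ℂ → EN M) (q : ℂ × ℂ) : exX H₀ mK φ q ≤ 0 := by
  unfold exX
  split_ifs
  · have h1 : (1 : ℝ) ≤ mK := by exact_mod_cast hm
    have := inv_le_one_of_one_le₀ h1
    linarith
  · exact le_rfl

theorem exY_le (H₀ : MvPolynomial (Fin (M + 1)) ℂ) (hm : 1 ≤ mK) (φ : ℂ × ℂ → EN M) (q : ℂ × ℂ) : exY H₀ mK φ q ≤ 0 := by
  unfold exY
  split_ifs
  · have h1 : (1 : ℝ) ≤ mK := by exact_mod_cast hm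
    have := inv_le_one_of_one_le₀ h1
    linarith
  · exact le_rfl

/-- the Jacobian factor does not vanish along a curve which avoids the axes with a negative exponent -/
theorem JD_ne {al be : ℝ} (hal : al ≤ 0) (hbe : be ≤ 0) {Om : Set ℂ} {p : ℂ → ℂ × ℂ} (h : Avoid al be Om p) {z : ℂ} (hz : z ∈ Om) : JD al be (p z) ≠ 0 := by
  unfold JD
  rw [Complex.ofReal_ne_zero]
  have key : ∀ {a : ℝ} {x : ℂ}, a ≤ 0 → (a < 0 → x ≠ 0) → ‖x‖ ^ a ≠ 0 := by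
    intro a x ha hx
    rcases ha.eq_or_lt with h0 | h0
    · rw [h0, Real.rpow_zero]
      exact one_ne_zero
    · exact (Real.rpow_pos_of_pos (norm_pos_iff.2 (hx h0)) a).ne'
  exact mul_ne_zero (key hal fun h0 => h.fst h0 z hz) (key hbe fun h0 => h.snd h0 z hz)

/-- the data of a chart point -/
private theorem exists_ptL {RD Ra H₀ : MvPolynomial (Fin (M + 1)) ℂ} {X : NCModel P RD} {θ : WDiff (coneE P) m} {l : LF M} {S : Web X θ l} {d dR : ℕ}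
    (hX : Surface (coneE P)) (hD : DivB P RD H₀) {jH : ℕ} (hW : LW P H₀ mK jH Wf)
    (hd : RD.IsHomogeneous d) (hdR : Ra.IsHomogeneous dR) (hRa : RNe X Ra) {k : S.ι} {q : ℂ × ℂ} (hq : q ∈ S.D k) {n₀ : ℕ} (c₀ : Fin n₀ → ℕ → ℂ → ℂ × ℂ)
    (hpk : GoodC c₀ (exX H₀ mK (S.σ k) q) (exY H₀ mK (S.σ k) q) fun x => S.v k (q + x)) :
    ∃ (r₀ : ℝ) (g : ℂ × ℂ → ℂ) (Cb : ℝ), 0 < r₀ ∧ AnalyticAt ℂ g q ∧ (∀ x ∈ closedBall q r₀, x ≠ q → InvAt S Ra k x g) ∧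
      (∀ c : ℕ → ℂ → ℂ × ℂ, Sep (fun x => S.v k (q + x)) c → FZero c (fun x => eval (S.σ k (q + x)).ofLp Ra) → FZero c fun x => g (q + x)) ∧
      (∀ r, 0 < r → r ≤ r₀ → GrL c₀ (exX H₀ mK (S.σ k) q) (exY H₀ mK (S.σ k) q) (fun x => S.v k (q + x)) (fun x => g (q + x)) r) ∧
      (∀ r, 0 < r → r ≤ r₀ → ∀ F : ℂ → EN M, LCrv θ RD H₀ Ra F → ∀ Y : NCLift X F,
        Avoid (exX H₀ mK (S.σ k) q) (exY H₀ mK (S.σ k) q) {z | z ∈ S.Om Y k ∧ S.lf Y k z ∈ ball q r} fun z => S.lf Y k z - q) ∧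
      ∀ F : ℂ → EN M, LCrv θ RD H₀ Ra F → ∀ Y : NCLift X F, ∀ z ∈ S.Om Y k, S.lf Y k z ∈ closedBall q r₀ →
      wt Wf Y k.1 z ≠ 0 → jc (S.κ k) (S.lf Y k z) ≠ 0 →
        Real.log ‖jc (S.κ k) (S.lf Y k z)‖ + 1 / mK * Real.log ‖wt Wf Y k.1 z‖ + jH / mK * Real.log ‖F z‖ ≤
          Cb + Real.log ‖JD (exX H₀ mK (S.σ k) q) (exY H₀ mK (S.σ k) q) (S.lf Y k z - q)‖ := by
  obtain ⟨g, hg1, hg2, hg3⟩ := exists_gq hd hdR hRa hq
  have hgq : AnalyticAt ℂ g q := by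
    have h1 : AnalyticAt ℂ (fun x => g (q + x)) 0 := hg1.an
    have h2 : AnalyticAt ℂ (fun x : ℂ × ℂ => x - q) q := analyticAt_id.sub analyticAt_const
    have h4 : AnalyticAt ℂ ((fun x => g (q + x)) ∘ fun x : ℂ × ℂ => x - q) q := h1.comp_of_eq h2 (sub_self _)
    refine h4.congr (Eventually.of_forall fun x => ?_)
    simp
  have hax := axW_of (mK := mK) hX hD hq hgq hg2
  have h1 := hpk _ hg1 hax
  have h2 := avoidL (Ra := Ra) (θ := θ) (mK := mK) (S := S) hX hD k hq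
  obtain ⟨N, hN, Cb, h3⟩ := wt_leC (Ra := Ra) hX hD hW k hq
  rw [eventually_nhdsWithin_iff] at hg2
  obtain ⟨ε, hε, h4⟩ := Metric.eventually_nhds_iff_ball.1 hg2
  obtain ⟨ε', hε', h5⟩ := mem_nhdsGT_iff_exists_Ioo_subset.1 (h1.and h2)
  obtain ⟨ε'', hε'', h6⟩ := Metric.mem_nhds_iff.1 hN
  have hε'0 : (0 : ℝ) < ε' := hε'
  have hm0 : 0 < min ε (min ε' ε'') := lt_min hε (lt_min hε'0 hε'')
  have hm1 := min_le_left ε (min ε' ε'')
  have hm2 := (min_le_right ε (min ε' ε'')).trans (min_le_left ε' ε'')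
  have hm3 := (min_le_right ε (min ε' ε'')).trans (min_le_right ε' ε'')
  refine ⟨min ε (min ε' ε'') / 2, g, Cb, by linarith, hgq, fun x hx hxq => ?_, hg3, fun r hr hr' => ?_, fun r hr hr' => ?_, fun F hF Y z hz hzq => ?_⟩
  · refine h4 x ?_ hxq
    refine lt_of_le_of_lt (mem_closedBall.1 hx) ?_
    linarith
  · exact (h5 (show r ∈ Set.Ioo 0 ε' from ⟨hr, by linarith⟩)).1
  · exact (h5 (show r ∈ Set.Ioo 0 ε' from ⟨hr, by linarith⟩)).2
  · refine h3 F hF Y z hz (h6 ?_)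
    refine lt_of_le_of_lt (mem_closedBall.1 hzq) ?_
    linarith

/-- **The entire curves of order two which avoid `D` and are null for a logarithmic symmetric differential lie in one algebraic curve.** -/
theorem exists_R_log {H₀ : MvPolynomial (Fin (M + 1)) ℂ} [P.IsPrime] (hP : Homog P) (hdim : ∃ z : Fin 2 → FunField P, IsTranscendenceBasis ℂ z)
    (hsmooth : Pool.Agent.AD.NC.IsSmooth P 2)
    {e : ℕ} (hH₀ : H₀.IsHomogeneous e) (hH₀P : H₀ ∉ P) (hgt : IsLogGeneralType (K := FunField P) (k := 2) (OnBoundary P fun _ : Fin 1 => H₀))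
    (hm : 1 ≤ m) (θ : WDiff (coneE P) m) (hθ : coneE P ⊆ closure {x | x ∈ coneE P ∧ ∃ v, Tan (coneE P) x v ∧ θ.toFun x v ≠ 0}) :
    ∃ (R : MvPolynomial (Fin (M + 1)) ℂ) (d : ℕ), R.IsHomogeneous d ∧ R ∉ P ∧ ∀ F : ℂ → EN M, Differentiable ℂ F → (∀ z, F z ∈ coneE P) →
      (∀ z, eval (F z).ofLp H₀ ≠ 0) → (∃ A : ℝ, ∀ r : ℝ, 0 < r → Real.circleAverage (fun z => Real.log ‖F z‖) 0 r ≤ A * (1 + r ^ 2)) →
      (∃ z w, ∀ c : ℂ, F z ≠ c • F w) → (∀ z, θ.toFun (F z) (deriv F z) = 0) → ∀ z, eval (F z).ofLp R = 0 := by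
  classical
  obtain ⟨z, hz⟩ := id hdim
  have hsm : ∀ y : Fin (M + 1) → ℂ, y ≠ 0 → (∀ Q ∈ P, eval y Q = 0) → Module.finrank ℂ (Pool.Agent.H13.SM.conTan P y) ≤ 3 :=
    fun y h0 h1 => hsmooth y h0 h1
  have hX : Surface (coneE P) := Pool.Agent.H90.SG.surface_coneE hP hz hsm
  have hPp : P.IsPrime := inferInstance
  -- the frame and the model
  obtain ⟨l, RD₀, d₀, hRD₀, hRD₀P, hgood₀⟩ := exists_R_good hz hX hm θ hθ
  obtain ⟨RD, hRDdef⟩ : ∃ RD : MvPolynomial (Fin (M + 1)) ℂ, RD = RD₀ * H₀ := ⟨_, rfl⟩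
  obtain ⟨d, hddef⟩ : ∃ d : ℕ, d = d₀ + e := ⟨_, rfl⟩
  have hRD : RD.IsHomogeneous d := by
    rw [hRDdef, hddef]
    exact hRD₀.mul hH₀
  have hRDP : RD ∉ P := by
    rw [hRDdef]
    intro h1
    rcases hPp.mem_or_mem h1 with h2 | h2
    · exact hRD₀P h2
    · exact hH₀P h2
  have hgood : ∀ x ∈ coneE P, (eval x.ofLp) RD ≠ 0 → GoodPt θ l x := by
    intro x hx h0
    refine hgood₀ x hx fun h1 => h0 ?_
    rw [hRDdef, map_mul, h1, zero_mul]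
  have hD : DivB P RD H₀ := by
    refine ⟨⟨e, hH₀⟩, fun x _ h1 => ?_⟩
    rw [hRDdef, map_mul, h1, mul_zero]
  obtain ⟨X, A₀, CK, hmodel⟩ := exists_ncModel hP hz hsm hRD hRDP
  -- the web
  have hbw : ∀ i, Nonempty (BoxWeb θ l (X.ρ i)) := fun i => exists_boxWeb hX hm (X.box i) fun p hp =>
    hgood _ ((X.box i).mem' hp).self_of_nhds (X.good i p hp)
  let W₀ : ∀ i, BoxWeb θ l (X.ρ i) := fun i => (hbw i).some
  let S : Web X θ l := ⟨W₀, fun i => (exists_webOver (W₀ i)).some⟩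
  -- the form of logarithmic general type
  obtain ⟨mK, Wf, dW, QW, hQW, hQWP, hW, hWz⟩ := exists_form_log hP hz hsm hH₀ hH₀P hgt
  have hm1 : 1 ≤ mK := hW.one_m
  -- the packages
  obtain ⟨mv, fam, hfam, hfam0, hpk⟩ := exists_fam hX hD S hm1
  have hcpD : ∀ k : S.ι, ∀ q ∈ S.cp k, q ∈ S.D k := fun k q hq => (cp_compact k).2 hq
  obtain ⟨Ra, dR, hRa, hRaP, hRaZ⟩ := exists_RaL hz hX S mv fam (fun k q hq => hfam k q (hcpD k q hq)) fun k q hq => hfam0 k q (hcpD k q hq)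
  have hRne : RNe X Ra := rne_of hP hz hsm X hRa hRaP
  have hpt : ∀ (k : S.ι) (q : ℂ × ℂ), ∃ (r₀ : ℝ) (g : ℂ × ℂ → ℂ) (Cb : ℝ), 0 < r₀ ∧ (q ∈ S.D k → AnalyticAt ℂ g q ∧
      (∀ x ∈ closedBall q r₀, x ≠ q → InvAt S Ra k x g) ∧
      (∀ c : ℕ → ℂ → ℂ × ℂ, Sep (fun x => S.v k (q + x)) c → FZero c (fun x => eval (S.σ k (q + x)).ofLp Ra) → FZero c fun x => g (q + x)) ∧
      (∀ r, 0 < r → r ≤ r₀ → GrL (fam k q) (exX H₀ mK (S.σ k) q) (exY H₀ mK (S.σ k) q) (fun x => S.v k (q + x)) (fun x => g (q + x)) r) ∧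
      (∀ r, 0 < r → r ≤ r₀ → ∀ F : ℂ → EN M, LCrv θ RD H₀ Ra F → ∀ Y : NCLift X F,
        Avoid (exX H₀ mK (S.σ k) q) (exY H₀ mK (S.σ k) q) {z | z ∈ S.Om Y k ∧ S.lf Y k z ∈ ball q r} fun z => S.lf Y k z - q) ∧
      ∀ F : ℂ → EN M, LCrv θ RD H₀ Ra F → ∀ Y : NCLift X F, ∀ z ∈ S.Om Y k, S.lf Y k z ∈ closedBall q r₀ →
      wt Wf Y k.1 z ≠ 0 → jc (S.κ k) (S.lf Y k z) ≠ 0 →
        Real.log ‖jc (S.κ k) (S.lf Y k z)‖ + 1 / mK * Real.log ‖wt Wf Y k.1 z‖ + (1 : ℕ) / mK * Real.log ‖F z‖ ≤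
          Cb + Real.log ‖JD (exX H₀ mK (S.σ k) q) (exY H₀ mK (S.σ k) q) (S.lf Y k z - q)‖) := by
    intro k q
    by_cases hq : q ∈ S.D k
    · obtain ⟨r₀, g, Cb, h1, h2⟩ := exists_ptL hX hD hW hRD hRa hRne hq (fam k q) (hpk k q hq)
      exact ⟨r₀, g, Cb, h1, fun _ => h2⟩
    · exact ⟨1, fun _ => 0, 0, one_pos, fun h => absurd h hq⟩
  choose r₀ gq Cb hr₀ hgq using hpt
  obtain ⟨C, hCr⟩ := exists_cov hRD hRa hRne S r₀ fun k q _ => hr₀ k q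
  have hQD : ∀ j, C.Q j ∈ S.D (C.ck j) := fun j => (cp_compact (C.ck j)).2 (C.Q_mem j)
  set g : Fin C.nP → ℂ × ℂ → ℂ := fun j => gq (C.ck j) (C.Q j) with hgdef
  set al : Fin C.nP → ℝ := fun j => exX H₀ mK (S.σ (C.ck j)) (C.Q j) with haldef
  set be : Fin C.nP → ℝ := fun j => exY H₀ mK (S.σ (C.ck j)) (C.Q j) with hbedef
  have hgj := fun j => hgq (C.ck j) (C.Q j) (hQD j)
  have hrpos : ∀ j, 0 < C.r j := fun j => (C.s_pos j).trans (C.s_lt j)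
  have hPG : PG C g := ⟨fun j => (hgj j).1, fun j x hx hxQ => (hgj j).2.1 x (closedBall_subset_closedBall (hCr j) hx) hxQ⟩
  obtain ⟨A, B, hA0, hdens⟩ := exists_densL hX hD hW C A₀ CK
  obtain ⟨s', hs', hpack⟩ := pack_webL hX hW C
  have hGr : ∀ j, ∃ A' C₀ : ℝ, 0 ≤ A' ∧ 0 ≤ C₀ ∧
      ∀ (d n : ℕ) (q : ℂ × ℂ → ℂ) (ψ : ℂ × ℂ → ℝ), 1 ≤ d → 1 ≤ n → AnalyticAt ℂ q 0 → ContDiffAt ℝ 1 ψ 0 →
        (∀ i, FZero (fam (C.ck j) (C.Q j) i) (fun x => g j (C.Q j + x)) ∨ HasOrd (fam (C.ck j) (C.Q j) i) q n) →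
          ∀ (M : ℕ) (F : ℂ → EN M) (Q : ℂ → ℂ) (lm : ℂ → ℝ) (Om : Set ℂ) (p : ℂ → ℂ × ℂ),
            Dat (fun x => S.v (C.ck j) (C.Q j + x)) (fun x => g j (C.Q j + x)) (C.r j) 1 d q ψ F Q lm Om p → Avoid (al j) (be j) Om p →
              LocX (fun x => S.v (C.ck j) (C.Q j + x)) (fun x => g j (C.Q j + x)) (JD (al j) (be j)) {z | z ∈ Om ∧ p z ∈ ball (0 : ℂ × ℂ) (s' j)} p lm (C.s j) A'
                (C₀ * d / n) :=
    fun j => (hgj j).2.2.2.1 (C.r j) (hrpos j) (hCr j) (C.s j) (s' j) (C.s_pos j) (hs' j).1 (hs' j).2 1 zero_le_one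
  choose A' C₀ hA' hC₀ hLoc using hGr
  obtain ⟨A₁, hA₁, hA₁'⟩ : ∃ A₁ : ℝ, 0 ≤ A₁ ∧ ∀ j, A' j ≤ A₁ :=
    ⟨∑ j, A' j, Finset.sum_nonneg fun j _ => hA' j, fun j => Finset.single_le_sum (fun j _ => hA' j) (Finset.mem_univ j)⟩
  obtain ⟨C₁, hC₁, hC₁'⟩ : ∃ C₁ : ℝ, 0 ≤ C₁ ∧ ∀ j, C₀ j ≤ C₁ :=
    ⟨∑ j, C₀ j, Finset.sum_nonneg fun j _ => hC₀ j, fun j => Finset.single_le_sum (fun j _ => hC₀ j) (Finset.mem_univ j)⟩
  obtain ⟨C₂, hC₂'⟩ : ∃ C₂ : ℝ, ∀ j, Cb (C.ck j) (C.Q j) ≤ C₂ :=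
    ⟨∑ j, |Cb (C.ck j) (C.Q j)|, fun j => (le_abs_self _).trans (Finset.single_le_sum (f := fun j => |Cb (C.ck j) (C.Q j)|) (fun j _ => abs_nonneg _) (Finset.mem_univ j))⟩
  -- the number `k`
  obtain ⟨k, hk⟩ := exists_nat_gt ((mK : ℝ) * (C.nP * (C₁ + 1) * A))
  have hk0 : 0 < k := by
    have h1 : (0 : ℝ) < k := lt_of_le_of_lt (by positivity) hk
    exact_mod_cast h1
  have hkr : (0 : ℝ) < k := by exact_mod_cast hk0
  -- the form with high contact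
  obtain ⟨e₁⟩ : Nonempty (Fin (Fintype.card (Σ j : Fin C.nP, Fin (mv (C.ck j) (C.Q j)))) ≃ (Σ j : Fin C.nP, Fin (mv (C.ck j) (C.Q j)))) :=
    ⟨(Fintype.equivFin _).symm⟩
  have htr : ∀ {E : Type} [NormedAddCommGroup E] [NormedSpace ℂ E] {f : ℂ × ℂ → E} {q : ℂ × ℂ}, AnalyticAt ℂ f q → AnalyticAt ℂ (fun x => f (q + x)) 0 := by
    intro E _ _ f q hf
    have h1 : AnalyticAt ℂ (fun x : ℂ × ℂ => q + x) 0 := analyticAt_const.add analyticAt_id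
    have h2 : AnalyticAt ℂ f ((fun x : ℂ × ℂ => q + x) 0) := by simpa using hf
    exact h2.comp h1
  have hsep : ∀ j, ∀ i, Sep (fun x => S.v (C.ck j) (C.Q j + x)) (fam (C.ck j) (C.Q j) i) := fun j i => hfam _ _ (hQD j) i
  have hσan : ∀ j, AnalyticAt ℂ (fun x => S.σ (C.ck j) (C.Q j + x)) 0 := fun j => htr (σ_an _ _ (hQD j)).1
  have hcan : ∀ n (t : Fin (Fintype.card (Σ j : Fin C.nP, Fin (mv (C.ck j) (C.Q j))))),
      AnalyticAt ℂ (fun s => S.σ (C.ck (e₁ t).1) (C.Q (e₁ t).1 + fam (C.ck (e₁ t).1) (C.Q (e₁ t).1) (e₁ t).2 n s)) 0 := by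
    intro n t
    have h1 := hsep (e₁ t).1 (e₁ t).2
    have h2 : AnalyticAt ℂ (fun x => S.σ (C.ck (e₁ t).1) (C.Q (e₁ t).1 + x)) (fam (C.ck (e₁ t).1) (C.Q (e₁ t).1) (e₁ t).2 n 0) := by
      rw [h1.zero n]
      exact hσan _
    exact h2.comp (h1.an n)
  obtain ⟨dQ, Qf, hdQ, hQf, hQfP, hQc⟩ := sieg hz (Pool.Agent.H62.FC.exists_X_notMem (r := 2) (by norm_num) ⟨z, hz⟩) _ hcan k
  have hQc' : ∀ j i, (fun s => eval (S.σ (C.ck j) (C.Q j + fam (C.ck j) (C.Q j) i (k * dQ) s)).ofLp Qf) =O[𝓝 0] fun t : ℂ => t ^ (k * dQ) := by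
    have h1 : ∀ x : (Σ j : Fin C.nP, Fin (mv (C.ck j) (C.Q j))),
        (fun s => eval (S.σ (C.ck x.1) (C.Q x.1 + fam (C.ck x.1) (C.Q x.1) x.2 (k * dQ) s)).ofLp Qf) =O[𝓝 0] fun t : ℂ => t ^ (k * dQ) := by
      intro x
      obtain ⟨t, rfl⟩ := e₁.surjective x
      exact hQc t
    exact fun j i => h1 ⟨j, i⟩
  have hn1 : 1 ≤ k * dQ := Nat.mul_pos hk0 hdQ
  have hdr : (0 : ℝ) < dQ := by exact_mod_cast hdQ
  refine ⟨RD * Ra * QW * Qf, d + dR + dW + dQ, ((hRD.mul hRa).mul hQW).mul hQf, fun h1 => ?_, fun F hF hFX hav hord hnc htan => ?_⟩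
  · rcases hPp.mem_or_mem h1 with h2 | h2
    · rcases hPp.mem_or_mem h2 with h3 | h3
      · rcases hPp.mem_or_mem h3 with h4 | h4
        · exact hRDP h4
        · exact hRaP h4
      · exact hQWP h3
    · exact hQfP h2
  by_contra hcon
  push Not at hcon
  obtain ⟨z₀, hz₀⟩ := hcon
  rw [map_mul, map_mul, map_mul] at hz₀
  have hDz : eval (F z₀).ofLp RD ≠ 0 := fun h1 => hz₀ (by rw [h1]; ring)
  have hRz : eval (F z₀).ofLp Ra ≠ 0 := fun h1 => hz₀ (by rw [h1]; ring)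
  have hWz₀ : eval (F z₀).ofLp QW ≠ 0 := fun h1 => hz₀ (by rw [h1]; ring)
  have hQz : eval (F z₀).ofLp Qf ≠ 0 := fun h1 => hz₀ (by rw [h1]; ring)
  have hFW : WCrv θ RD F := ⟨⟨d, hRD⟩, hF, hFX, htan, hord, hnc, ⟨z₀, hDz⟩⟩
  have hFR : RCrv θ RD Ra F := ⟨hFW, ⟨dR, hRa⟩, ⟨z₀, hRz⟩⟩
  have hFL : LCrv θ RD H₀ Ra F := ⟨hFR, hav⟩
  obtain ⟨Y, lm₀, hY⟩ := hmodel F hF hFX hnc ⟨z₀, hDz⟩
  have hWF : ∃ z w, Pool.Agent.H17BP.Tan (coneE P) (F z) w ∧ Wf (F z) (deriv F z) w ≠ 0 := by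
    by_contra hno
    push Not at hno
    refine hWz₀ (hWz F hF (fun z => ⟨hFX z, hav z⟩) hnc (fun z w hw => ?_) z₀)
    obtain ⟨γ, ⟨h1, h2⟩, h3, h4⟩ := hw
    exact hno z w ⟨γ, h1, h2, h3, h4⟩
  have hWne : WNe Wf Y := wne hX hW hFW hav Y hWF
  obtain ⟨lm, hlm⟩ := hdens F hFL Y lm₀ hWne hY
  have hAv : ∀ j, Avoid (al j) (be j) (C.UP Y j) (C.pj Y j) := fun j => (hgj j).2.2.2.2.1 (C.r j) (hrpos j) (hCr j) F hFL Y
  -- the local packages
  have hL : ∀ j, LocX (C.vj j) (fun x => g j (C.Q j + x)) (JD (al j) (be j)) {z | z ∈ C.UP Y j ∧ C.pj Y j z ∈ ball (0 : ℂ × ℂ) (s' j)} (C.pj Y j) lm (C.s j) A₁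
      ((C₁ + 1) / k) := by
    intro j
    obtain ⟨Q, hDat⟩ := dat_web C hPG j hFR Y hlm.toDens hQf ⟨z₀, hQz⟩
    have hqan : AnalyticAt ℂ (fun x => eval (S.σ (C.ck j) (C.Q j + x)).ofLp Qf) 0 := by
      exact (Pool.Agent.H14.PP.analyticAt_evalEN Qf _).comp (hσan j)
    have hψ : ContDiffAt ℝ 1 (fun x => Real.log ‖S.σ (C.ck j) (C.Q j + x)‖) 0 := by
      have h1 : ContDiffAt ℝ 1 (fun x => S.σ (C.ck j) (C.Q j + x)) 0 := ((hσan j).contDiffAt (n := 1)).restrict_scalars ℝ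
      have h2 : S.σ (C.ck j) (C.Q j + 0) ≠ 0 := by
        intro h0
        have h3 := (σ_an _ _ (hQD j)).2
        rw [add_zero] at h0
        rw [h0] at h3
        exact hX.zero h3
      exact (h1.norm ℂ h2).log (norm_ne_zero_iff.2 h2)
    have h1 := hLoc j dQ (k * dQ) _ _ hdQ hn1 hqan hψ (fun i => ?_) M F Q lm (C.UP Y j) (C.pj Y j) hDat (hAv j)
    · refine locX_monoL h1 (hA₁' j) ?_
      push_cast
      rw [mul_div_mul_right _ _ hdr.ne']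
      exact div_le_div_of_nonneg_right ((hC₁' j).trans (by linarith)) hkr.le
    · rcases hRaZ (C.ck j) (C.Q j) (C.Q_mem j) i with h2 | h2
      · exact Or.inl ((hgj j).2.2.1 _ (hsep j i) h2)
      · exact Or.inr (hasOrd_of (hsep j i) hqan (h2 Qf dQ hQf hQfP) (hQc' j i))
  have hJb : ∀ j, ∀ z ∈ C.UP Y j, wt Wf Y (C.ck j).1 z ≠ 0 → C.Jj j (C.pj Y j z) ≠ 0 → JD (al j) (be j) (C.pj Y j z) ≠ 0 ∧
      Real.log ‖C.Jj j (C.pj Y j z)‖ + 1 / mK * Real.log ‖wt Wf Y (C.ck j).1 z‖ + (1 : ℕ) / mK * Real.log ‖F z‖ ≤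
        C₂ + Real.log ‖JD (al j) (be j) (C.pj Y j z)‖ := by
    intro j z hz h1 h2
    refine ⟨JD_ne (exX_le H₀ hm1 _ _) (exY_le H₀ hm1 _ _) (hAv j) hz, ?_⟩
    have h3 : C.Q j + C.pj Y j z = S.lf Y (C.ck j) z := by
      unfold Cov.pj
      abel
    unfold Cov.Jj at h2 ⊢
    rw [h3] at h2 ⊢
    refine ((hgj j).2.2.2.2.2 F hFL Y z hz.1 (closedBall_subset_closedBall (hCr j) (ball_subset_closedBall hz.2)) h1 h2).trans ?_
    exact add_le_add_left (hC₂' j) _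
  obtain ⟨L, hLc, hLle, hLen, hPack⟩ := hpack g hPG F hFL Y hWne A B hA0 lm hlm A₁ ((C₁ + 1) / k) (by positivity) al be C₂ hJb hL
  have hmr : (0 : ℝ) < mK := by exact_mod_cast hm1
  have hcrv : Pool.Agent.MQ.Crv P Set.univ F := ⟨hF, hFX, fun _ => Set.mem_univ _, hord, hnc⟩
  refine false_of_pack hcrv hLc (fun z => (Pool.Agent.MQ.lam_nonneg F z).trans (hLle z)) hLle hLen hPack ?_
  push_cast
  have h3 : (C.nP * (C₁ + 1) * A) / (k : ℝ) < 1 / mK := by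
    rw [div_lt_div_iff₀ hkr hmr]
    linarith
  have h4 : 2 * (1 : ℝ) / mK = 2 * (1 / mK) := by ring
  have h5 : 2 * ((C.nP : ℝ) * ((C₁ + 1) / k * A)) = 2 * ((C.nP * (C₁ + 1) * A) / k) := by ring
  rw [h4, h5]
  linarith

end Pool.Agent.MQL

end
end

section

/-!
# MQL FinSDA: the main theorem for affine surfaces with a logarithmic symmetric differential
-/

set_option autoImplicit false

open Topology Filter Metric MvPolynomial

noncomputable section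

namespace Pool.Agent.MQL

open Pool.Agent.H36.BP (EN)
open Pool.Agent.H14.PP (IsCone Tan IsOpenPart)
open Pool.Agent.H17BP (Surface IsChart)
open Pool.Agent.H62.FC (Homog)
open Pool.Agent.H17LG.Variety (FunField OnBoundary IsLogGeneralType)
open Pool.Agent.H17EF (coneE)
open Pool.Agent.AD (SymDiff TangentTo)
open Pool.Agent.H62.SA (OnBd)
open Pool.Agent.H13.OT (OrderTwo)
open Pool.Agent.H17 (PN VanishesAt HolomorphicInto)
open Pool.Agent.AD.NC (IsSmooth IsOfLogGeneralType complement)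
open Pool.Agent.MQ3
open Pool.Agent.SDA (openCone IsHyperbolicOpen X4_openPart E2_tan)

variable {N k : ℕ} {P : Ideal (MvPolynomial (Fin (N + 1)) ℂ)} {H : Fin k → MvPolynomial (Fin (N + 1)) ℂ} {e : Fin k → ℕ}

theorem onBoundary_eq_onBd [P.IsPrime] (D : MvPolynomial (Fin (N + 1)) ℂ) {r : ℕ} :
    OnBoundary P (fun _ : Fin 1 => D) (k := r) = OnBd P (fun _ : Fin 1 => D) := by
  funext E
  refine propext ?_
  constructor
  · rintro ⟨j, hj, hj', m, hm⟩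
    exact ⟨j, hj, hj', fun _ => hm⟩
  · rintro ⟨j, hj, hj', hm⟩
    exact ⟨j, hj, hj', 0, hm 0⟩

/-- the open cone is dense -/
theorem openCone_dense [P.IsPrime] (hP : Homog P) {z : Fin 2 → FunField P} (hz : IsTranscendenceBasis ℂ z) (hsmooth : IsSmooth P 2)
    (hH : ∀ i, (H i).IsHomogeneous (e i)) (hHP : ∀ i, H i ∉ P) : coneE P ⊆ closure (openCone P H) := by
  intro x hx
  have hX : Surface (coneE P) := Pool.Agent.H90.SG.surface_coneE hP hz hsmooth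
  obtain ⟨σ, τ, hσ, h0⟩ := hX.chart x hx
  have hQ : (∏ i, H i).IsHomogeneous (∑ i, e i) := IsHomogeneous.prod Finset.univ _ _ fun i _ => hH i
  have hQP : ∏ i, H i ∉ P := by
    intro h1
    obtain ⟨i, -, hi⟩ := (Ideal.IsPrime.prod_mem_iff (p := P)).1 h1
    exact hHP i hi
  have hfr := Pool.Agent.H90.SG.thin_coneE hP hz hsmooth hQ hQP hσ
  rw [← h0]
  have hσt : Filter.Tendsto σ (𝓝 0) (𝓝 (σ 0)) := hσ.σ_an.continuousAt
  refine mem_closure_iff_frequently.2 (hσt.frequently ((hfr.and_eventually hσ.σ_mem).mono fun p hp => ⟨hp.2, fun i hi => hp.1 ?_⟩))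
  rw [map_prod]
  exact Finset.prod_eq_zero (Finset.mem_univ i) hi

/-- **The curves tangent to a symmetric differential on the open surface** lie in one curve. -/
theorem exists_R_curve (P : Ideal (MvPolynomial (Fin (N + 1)) ℂ)) [P.IsPrime] (hP : Homog P)
    (hdim : ∃ z : Fin 2 → FunField P, IsTranscendenceBasis ℂ z) (hsmooth : IsSmooth P 2)
    (H : Fin k → MvPolynomial (Fin (N + 1)) ℂ) (e : Fin k → ℕ) (hH : ∀ i, (H i).IsHomogeneous (e i)) (hHP : ∀ i, H i ∉ P)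
    (hgt : IsOfLogGeneralType P H 2) {m : ℕ} (hm : 1 ≤ m) (θ : SymDiff (openCone P H) m)
    (hw : ∃ θ' : WDiff (coneE P) m, ∀ x ∈ openCone P H, ∀ v, Tan (coneE P) x v → (θ'.toFun x v = 0 ↔ θ.toFun x v = 0))
    (h0 : openCone P H ⊆ closure {x | x ∈ openCone P H ∧ ∃ v, Tan (openCone P H) x v ∧ θ.toFun x v ≠ 0}) :
    ∃ (R : MvPolynomial (Fin (N + 1)) ℂ) (d : ℕ), R.IsHomogeneous d ∧ R ∉ P ∧ ∀ f : ℂ → PN N, HolomorphicInto f Set.univ → OrderTwo f →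
      (∀ z, f z ∈ complement P H) → (∃ z w, f z ≠ f w) → TangentTo θ f → ∀ z, VanishesAt R (f z) := by
  obtain ⟨z, hz⟩ := id hdim
  have hc : IsCone (coneE P) := Pool.Agent.AD.isCone_coneE hP
  have hK := X4_openPart hc hH
  obtain ⟨θ', hθ'⟩ := hw
  have hQ : (∏ i, H i).IsHomogeneous (∑ i, e i) := IsHomogeneous.prod Finset.univ _ _ fun i _ => hH i
  have hQP : ∏ i, H i ∉ P := by
    intro h1
    obtain ⟨i, -, hi⟩ := (Ideal.IsPrime.prod_mem_iff (p := P)).1 h1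
    exact hHP i hi
  have hgt' : IsLogGeneralType (K := FunField P) (k := 2) (OnBoundary P fun _ : Fin 1 => ∏ i, H i) := by
    rw [onBoundary_eq_onBd]
    exact hgt
  have hd : coneE P ⊆ closure {x | x ∈ coneE P ∧ ∃ v, Tan (coneE P) x v ∧ θ'.toFun x v ≠ 0} := by
    refine (openCone_dense hP hz hsmooth hH hHP).trans (closure_minimal (h0.trans (closure_mono ?_)) isClosed_closure)
    rintro x ⟨hx, v, hv, hne⟩
    have hvX : Tan (coneE P) x v := Pool.Agent.SDA.E2_tan' hK hv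
    exact ⟨hx.1, v, hvX, fun h => hne ((hθ' x hx v hvX).1 h)⟩
  obtain ⟨R, d, hR, hRP, h⟩ := exists_R_log hP hdim hsmooth hQ hQP hgt' hm θ' hd
  exact ⟨R, d, hR, hRP, fun f _ hfo hfU hfn ht => curve_of_log hP hH θ θ' (fun x hx v hv h1 => (hθ' x hx v hv).2 h1) hR h hfo hfU hfn ht⟩

end Pool.Agent.MQL

end
end
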